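import Mathlib

/-!
# H55P: Selmer groups and Tate-Shafarevich groups by cocycles

`W` is a Weierstrass curve over the number field `F`, `Ω` an algebraic closure of `F`, `K` an intermediate field
(a finite extension of F).  All cocycles are functions on the group of the automorphisms of Ω over F, of which only
the values on the subgroup fixing K matter.
-/

open WeierstrassCurve

namespace H55P

variable {F : Type} [Field F] {Ω : Type} [Field Ω] [DecidableEq Ω] [Algebra F Ω]

/-- The points of the curve over Ω. -/
abbrev Pt (W : WeierstrassCurve F) (Ω : Type) [Field Ω] [Algebra F Ω] : Type := (W⁄Ω).toAffine.Point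

/-- The action of an automorphism of Ω over F on the points over Ω. -/
noncomputable def ac (W : WeierstrassCurve F) (s : Ω ≃ₐ[F] Ω) : Pt W Ω →+ Pt W Ω :=
  Affine.Point.map (W' := W.toAffine) s.toAlgHom

/-- The automorphism s lies in the decomposition group of the valuation ring V. -/
def Dec (V : ValuationSubring Ω) (s : Ω ≃ₐ[F] Ω) : Prop := ∀ x : Ω, s x ∈ V ↔ x ∈ V

/-- The automorphism s lies in the inertia group of the valuation ring V. -/
def Inert (V : ValuationSubring Ω) (s : Ω ≃ₐ[F] Ω) : Prop := ∀ x ∈ V, V.valuation (s x - x) < 1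

/-- The function c is a continuous cocycle on the group of K with values in the points over Ω. -/
structure Coc (W : WeierstrassCurve F) (K : IntermediateField F Ω) (c : (Ω ≃ₐ[F] Ω) → Pt W Ω) : Prop where
  mul : ∀ s ∈ K.fixingSubgroup, ∀ t ∈ K.fixingSubgroup, c (s * t) = c s + ac W s (c t)
  cont : ∃ L : IntermediateField F Ω, FiniteDimensional F L ∧
    ∀ s ∈ K.fixingSubgroup, s ∈ L.fixingSubgroup → c s = 0

/-- The p-Selmer group of W over K, defined by the local conditions on the inertia groups only
(it contains the classical p-Selmer group), is zero. -/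
def SelZero (W : WeierstrassCurve F) (p : ℕ) (K : IntermediateField F Ω) : Prop :=
  ∀ c : (Ω ≃ₐ[F] Ω) → Pt W Ω, Coc W K c → (∀ s ∈ K.fixingSubgroup, p • c s = 0) →
    (∀ V : ValuationSubring Ω, ∃ P : Pt W Ω, ∀ s ∈ K.fixingSubgroup, Inert V s → c s = ac W s P - P) →
    ∃ T : Pt W Ω, p • T = 0 ∧ ∀ s ∈ K.fixingSubgroup, c s = ac W s T - T

/-- The p-torsion of the Tate-Shafarevich group of W over K (local conditions at the finite places, that is for the
decomposition groups of the nontrivial valuation rings of Ω) is zero. -/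
def ShaZero (W : WeierstrassCurve F) (p : ℕ) (K : IntermediateField F Ω) : Prop :=
  ∀ c : (Ω ≃ₐ[F] Ω) → Pt W Ω, Coc W K c →
    (∃ Q : Pt W Ω, ∀ s ∈ K.fixingSubgroup, p • c s = ac W s Q - Q) →
    (∀ V : ValuationSubring Ω, V ≠ ⊤ →
      ∃ P : Pt W Ω, ∀ s ∈ K.fixingSubgroup, Dec V s → c s = ac W s P - P) →
    ∃ P : Pt W Ω, ∀ s ∈ K.fixingSubgroup, c s = ac W s P - P

end H55P
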