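import Mathlib

/-!
# H55B: definitions

The rank part of the Birch and Swinnerton-Dyer conjecture for the curve y^2 + y = x^3
over 2-extensions of the field of cube roots of unity. See PROOF.md.
-/

open NumberField IsDedekindDomain

namespace H55B

/-- The field of third roots of unity. -/
abbrev F : Type := CyclotomicField 3 ℚ

/-- The ring of Eisenstein integers. -/
abbrev O : Type := 𝓞 F

instance instCyc : IsCyclotomicExtension {3} ℚ F := CyclotomicField.isCyclotomicExtension 3 ℚ

instance instPID : IsPrincipalIdealRing O := IsCyclotomicExtension.Rat.three_pid F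

lemma zeta_spec : IsPrimitiveRoot (IsCyclotomicExtension.zeta 3 ℚ F) 3 :=
  IsCyclotomicExtension.zeta_spec 3 ℚ F

/-- A primitive cube root of unity in the Eisenstein integers. -/
noncomputable def om : O := zeta_spec.toInteger

/-- A fixed complex embedding. -/
noncomputable def emb : F →+* ℂ := Classical.arbitrary _

/-- The embedding of the Eisenstein integers. -/
noncomputable def e : O →+* ℂ := emb.comp (algebraMap O F)

/-- The norm of an Eisenstein integer, as a natural number. -/
noncomputable def Nm (x : O) : ℕ := Ideal.absNorm (Ideal.span {x})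

/-- Primary Eisenstein integers: congruent to 1 modulo 3. -/
def Prim (x : O) : Prop := (3 : O) ∣ x - 1

open Classical in
/-- The primary generator of a prime ideal not above 3. -/
noncomputable def gen (v : HeightOneSpectrum O) : O :=
  if h : ∃ x : O, v.asIdeal = Ideal.span {x} ∧ Prim x then h.choose else 0

open Classical in
/-- The quadratic residue symbol at a prime ideal (not above 2). -/
noncomputable def sym (v : HeightOneSpectrum O) (x : O) : ℤ :=
  if x ∈ v.asIdeal then 0 else if ∃ y : O, x - y ^ 2 ∈ v.asIdeal then 1 else -1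

/-- The quadratic character attached to a squarefree odd element. -/
noncomputable def Sym (a x : O) : ℤ :=
  ∏ᶠ (v : HeightOneSpectrum O) (_ : a ∈ v.asIdeal), sym v x

/-- Admissible elements: squarefree, a square modulo 4, prime to 3, and 2 is not a cube modulo
any prime factor. -/
def Adm (a : O) : Prop :=
  Squarefree a ∧ (∃ b : O, (4 : O) ∣ a - b ^ 2) ∧
    ∀ p : O, Prime p → p ∣ a → ¬ p ∣ 3 ∧ ¬ ∃ x : O, p ∣ x ^ 3 - 2

/-- The elliptic curve 27a3 over the rationals. -/
def E27 : WeierstrassCurve ℚ := ⟨0, 0, 1, 0, 0⟩

/-- The basic function conj(u) |u|^(-2s). -/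
noncomputable def g (s u : ℂ) : ℂ := (starRingEnd ℂ) u * (‖u‖ : ℂ) ^ (-2 * s)

/-- The lattice sum of g over w + 3O. -/
noncomputable def Kf (w s : ℂ) : ℂ := ∑' x : O, g s (w + 3 * e x)

/-- The second difference lattice sum. -/
noncomputable def G (w s : ℂ) : ℂ :=
  ∑' x : O, (g s (1 + w + 3 * e x) + g s (1 - w + 3 * e x) - 2 * g s (1 + 3 * e x))

/-- The value of G at s = 1. -/
noncomputable def R (w : ℂ) : ℂ :=
  ∑' x : O, ((1 + w + 3 * e x)⁻¹ + (1 - w + 3 * e x)⁻¹ - 2 * (1 + 3 * e x)⁻¹)

/-- The L-series of a function on the Eisenstein integers, over primary elements. -/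
noncomputable def Lf (f : O → ℂ) (s : ℂ) : ℂ := ∑' x : O, f (1 + 3 * x) * g s (1 + 3 * e x)

/-- The lattice 3O in the complex plane. -/
def Lam : Set ℂ := {z | ∃ y : O, z = 3 * e y}

end H55B
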