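import Mathlib
import Pool.Agent.Lib.H1M.PP.D_H55B_Defs
import Pool.Agent.Lib.H1M.PP.D_H55P_Sel

/-! Merged copies (to shorten the build) of Lib.H28G.Defs, Lib.H35P.E0, Lib.H55B.S1, Lib.H55B.Z1, Lib.H55B.Z2, Lib.H55B.J0, Lib.H35P.A3. -/

-- from Lib.H28G.Defs
section

/-!
# H28G: the geometry of y^2 + y = x^3 (definitions and coordinates of points)

F = Q(om), O = Z[om], W27 : y^2 + y = x^3 over F. For every field k over F the points over k are
`H55P.Pt W27 k`; `xc P`, `yc P` are the coordinates (0 for the point at infinity), `act c` is the multiplication by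
c in O (om acts by (x, y) -> (om x, y)), `Tor c k` is the kernel of c, `tt P = - x/y`, `fc P = 2 y + 1`.
See PROOF.md.
-/

open NumberField IsDedekindDomain WeierstrassCurve

namespace H28G

open H55B

/-- The curve y^2 + y = x^3 over F. -/
noncomputable def W27 : WeierstrassCurve F := ⟨0, 0, 1, 0, 0⟩

/-- The points over k. -/
abbrev P27 (k : Type) [Field k] [Algebra F k] : Type := H55P.Pt W27 k

section coords

variable {k : Type} [Field k] [Algebra F k]

/-- The x-coordinate (0 at infinity). -/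
noncomputable def xc : P27 k → k
  | 0 => 0
  | .some x _ _ => x

/-- The y-coordinate (0 at infinity). -/
noncomputable def yc : P27 k → k
  | 0 => 0
  | .some _ y _ => y

/-- The function f = 2 y + 1. -/
noncomputable def fc (P : P27 k) : k := 2 * yc P + 1

/-- The parameter t = - x / y at infinity (0 at infinity). -/
noncomputable def tt (P : P27 k) : k := -xc P / yc P

/-- The image of om in k. -/
noncomputable def ok (k : Type) [Field k] [Algebra F k] : k := algebraMap F k (om : F)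

theorem W_a1 : (W27⁄k).toAffine.a₁ = 0 := by simp [W27]
theorem W_a2 : (W27⁄k).toAffine.a₂ = 0 := by simp [W27]
theorem W_a3 : (W27⁄k).toAffine.a₃ = 1 := by simp [W27]
theorem W_a4 : (W27⁄k).toAffine.a₄ = 0 := by simp [W27]
theorem W_a6 : (W27⁄k).toAffine.a₆ = 0 := by simp [W27]

theorem W_eq (x y : k) : (W27⁄k).toAffine.Equation x y ↔ y ^ 2 + y = x ^ 3 := by
  rw [Affine.equation_iff, W_a1, W_a2, W_a3, W_a4, W_a6]
  ring_nf

theorem char0 : CharZero k := charZero_of_injective_algebraMap (algebraMap F k).injective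

theorem W_ns (x y : k) : (W27⁄k).toAffine.Nonsingular x y ↔ y ^ 2 + y = x ^ 3 := by
  rw [Affine.nonsingular_iff, W_eq, W_a1, W_a2, W_a3, W_a4]
  constructor
  · exact fun h => h.1
  · intro h
    refine ⟨h, ?_⟩
    by_contra hcon
    push Not at hcon
    obtain ⟨h1, h2⟩ := hcon
    have := char0 (k := k)
    have h3 : x = 0 := by
      have h4 : (3 : k) * x ^ 2 = 0 := by linear_combination -h1
      have h5 : x ^ 2 = 0 := by
        rcases mul_eq_zero.1 h4 with h | h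
        · norm_num at h
        · exact h
      exact pow_eq_zero_iff (two_ne_zero) |>.1 h5
    have h4 : 2 * y + 1 = 0 := by linear_combination h2
    rw [h3] at h
    have h5 : (2 * y + 1) ^ 2 = 1 := by linear_combination 4 * h
    rw [h4] at h5
    norm_num at h5

/-- The point with coordinates x, y. -/
noncomputable def pt (x y : k) (h : y ^ 2 + y = x ^ 3) : P27 k := Affine.Point.some x y ((W_ns x y).2 h)

theorem pt_ne (x y : k) (h : y ^ 2 + y = x ^ 3) : pt x y h ≠ 0 := Affine.Point.some_ne_zero _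

theorem xc_pt (x y : k) (h : y ^ 2 + y = x ^ 3) : xc (pt x y h) = x := rfl

theorem yc_pt (x y : k) (h : y ^ 2 + y = x ^ 3) : yc (pt x y h) = y := rfl

theorem xc_zero : xc (0 : P27 k) = 0 := rfl

theorem yc_zero : yc (0 : P27 k) = 0 := rfl

theorem eqn (P : P27 k) : yc P ^ 2 + yc P = xc P ^ 3 := by
  rcases P with _ | ⟨x, y, h⟩
  · show (0 : k) ^ 2 + 0 = 0 ^ 3
    ring
  · exact (W_ns x y).1 h

theorem fc_sq (P : P27 k) : fc P ^ 2 = 4 * xc P ^ 3 + 1 := by
  unfold fc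
  linear_combination 4 * eqn P

theorem pt_ext {P Q : P27 k} (hP : P ≠ 0) (hQ : Q ≠ 0) (hx : xc P = xc Q) (hy : yc P = yc Q) :
    P = Q := by
  rcases P with _ | ⟨x, y, h⟩
  · exact absurd rfl hP
  rcases Q with _ | ⟨x', y', h'⟩
  · exact absurd rfl hQ
  change x = x' at hx
  change y = y' at hy
  subst hx hy
  rfl

theorem pt_eq {P : P27 k} (hP : P ≠ 0) : P = pt (xc P) (yc P) (eqn P) :=
  pt_ext hP (pt_ne _ _ _) rfl rfl

theorem neg_ne {P : P27 k} (hP : P ≠ 0) : -P ≠ 0 := by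
  rcases P with _ | ⟨x, y, h⟩
  · exact absurd rfl hP
  · exact Affine.Point.some_ne_zero _

theorem xc_neg (P : P27 k) : xc (-P) = xc P := by
  rcases P with _ | ⟨x, y, h⟩
  · rfl
  · rfl

theorem yc_neg {P : P27 k} (hP : P ≠ 0) : yc (-P) = -1 - yc P := by
  rcases P with _ | ⟨x, y, h⟩
  · exact absurd rfl hP
  · show (W27⁄k).toAffine.negY x y = -1 - y
    rw [Affine.negY, W_a1, W_a3]
    ring

theorem fc_neg {P : P27 k} (hP : P ≠ 0) : fc (-P) = -fc P := by
  unfold fc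
  rw [yc_neg hP]
  ring

theorem xc_eq {P Q : P27 k} (hP : P ≠ 0) (hQ : Q ≠ 0) (h : xc P = xc Q) : P = Q ∨ P = -Q := by
  have h1 := eqn P
  have h2 := eqn Q
  rw [h, ← h2] at h1
  have h3 : (yc P - yc Q) * (yc P + 1 + yc Q) = 0 := by linear_combination h1
  rcases mul_eq_zero.1 h3 with h4 | h4
  · exact Or.inl (pt_ext hP hQ h (sub_eq_zero.1 h4))
  · right
    refine pt_ext hP (neg_ne hQ) ?_ ?_
    · rw [xc_neg, h]
    · rw [yc_neg hQ]
      linear_combination h4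

end coords

section add

variable {k : Type} [Field k] [DecidableEq k] [Algebra F k]

theorem add_coords {P Q : P27 k} (hP : P ≠ 0) (hQ : Q ≠ 0) (h : xc P ≠ xc Q) :
    P + Q ≠ 0 ∧
    xc (P + Q) = ((yc P - yc Q) / (xc P - xc Q)) ^ 2 - xc P - xc Q ∧
    yc (P + Q) = -1 - ((yc P - yc Q) / (xc P - xc Q) * (xc (P + Q) - xc P) + yc P) := by
  rcases P with _ | ⟨x₁, y₁, h₁⟩
  · exact absurd rfl hP
  rcases Q with _ | ⟨x₂, y₂, h₂⟩
  · exact absurd rfl hQ
  change x₁ ≠ x₂ at h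
  have e1 : Affine.Point.some x₁ y₁ h₁ + Affine.Point.some x₂ y₂ h₂ =
      Affine.Point.some _ _ (Affine.nonsingular_add h₁ h₂ fun hxy => h hxy.1) :=
    Affine.Point.add_some fun hxy => h hxy.1
  have hs : (W27⁄k).toAffine.slope x₁ x₂ y₁ y₂ = (y₁ - y₂) / (x₁ - x₂) :=
    Affine.slope_of_X_ne h
  have hx : xc (Affine.Point.some x₁ y₁ h₁ + Affine.Point.some x₂ y₂ h₂) =
      ((y₁ - y₂) / (x₁ - x₂)) ^ 2 - x₁ - x₂ := by
    rw [e1]
    show (W27⁄k).toAffine.addX x₁ x₂ _ = _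
    rw [Affine.addX, hs, W_a1, W_a2]
    ring
  refine ⟨?_, hx, ?_⟩
  · rw [e1]
    exact Affine.Point.some_ne_zero _
  · rw [hx]
    rw [e1]
    show (W27⁄k).toAffine.addY x₁ x₂ y₁ _ = -1 - ((y₁ - y₂) / (x₁ - x₂) *
      (((y₁ - y₂) / (x₁ - x₂)) ^ 2 - x₁ - x₂ - x₁) + y₁)
    rw [Affine.addY, Affine.negAddY, Affine.negY, Affine.addX, hs, W_a1, W_a2, W_a3]
    ring

theorem dbl_coords {P : P27 k} (hP : P ≠ 0) (h : fc P ≠ 0) :
    P + P ≠ 0 ∧
    xc (P + P) = (3 * xc P ^ 2 / fc P) ^ 2 - 2 * xc P ∧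
    yc (P + P) = -1 - (3 * xc P ^ 2 / fc P * (xc (P + P) - xc P) + yc P) := by
  rcases P with _ | ⟨x, y, h₁⟩
  · exact absurd rfl hP
  have hf : fc (Affine.Point.some x y h₁ : P27 k) = 2 * y + 1 := rfl
  have h2 : y ≠ (W27⁄k).toAffine.negY x y := by
    rw [Affine.negY, W_a1, W_a3]
    intro h3
    apply h
    rw [hf]
    linear_combination h3
  have hxy : ¬(x = x ∧ y = (W27⁄k).toAffine.negY x y) := fun h' => h2 h'.2
  have e1 : Affine.Point.some x y h₁ + Affine.Point.some x y h₁ =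
      Affine.Point.some _ _ (Affine.nonsingular_add h₁ h₁ hxy) :=
    Affine.Point.add_some hxy
  have hs : (W27⁄k).toAffine.slope x x y y = 3 * x ^ 2 / (2 * y + 1) := by
    rw [Affine.slope_of_Y_ne rfl h2, Affine.negY, W_a1, W_a2, W_a3, W_a4]
    congr 1
    · ring
    · ring
  have hx : xc (Affine.Point.some x y h₁ + Affine.Point.some x y h₁) =
      (3 * x ^ 2 / fc (Affine.Point.some x y h₁ : P27 k)) ^ 2 - 2 * x := by
    rw [e1]
    show (W27⁄k).toAffine.addX x x _ = _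
    rw [Affine.addX, hs, W_a1, W_a2, hf]
    ring
  refine ⟨?_, hx, ?_⟩
  · rw [e1]
    exact Affine.Point.some_ne_zero _
  · rw [hx]
    rw [e1]
    show (W27⁄k).toAffine.addY x x y _ = -1 - (3 * x ^ 2 / (2 * y + 1) *
      ((3 * x ^ 2 / (2 * y + 1)) ^ 2 - 2 * x - x) + y)
    rw [Affine.addY, Affine.negAddY, Affine.negY, Affine.addX, hs, W_a1, W_a2, W_a3]
    ring

end add

end H28G
end

-- from Lib.H35P.E0
section

/-! Definitions of the analytic part, for a general period lattice. -/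

namespace H35P

variable (L : PeriodPair)

/-- The first Eisenstein sum of a lattice with a rational cutoff. -/
noncomputable def sL (R : ℝ) (z : ℂ) : ℂ :=
  ∑' l : L.lattice, (z + l)⁻¹ * ((R ^ 2 / (R ^ 2 + ‖z + l‖ ^ 2) : ℝ) : ℂ)

/-- A term of the sum of second differences of 1/z. -/
noncomputable def tT (a w : ℂ) (l : L.lattice) : ℂ := (a + w + l)⁻¹ + (a - w + l)⁻¹ - 2 * (a + l)⁻¹

/-- The sum of second differences of 1/z. -/
noncomputable def T2 (a w : ℂ) : ℂ := ∑' l : L.lattice, tT L a w l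

/-- The slope of the chord. -/
noncomputable def mc (a w : ℂ) : ℂ :=
  (L.derivWeierstrassP a - L.derivWeierstrassP w) / (L.weierstrassP a - L.weierstrassP w)

/-- The slope of the tangent. -/
noncomputable def md (a : ℂ) : ℂ := (6 * L.weierstrassP a ^ 2 - L.g₂ / 2) / L.derivWeierstrassP a

end H35P
end

-- from Lib.H55B.S1
section

open NumberField IsDedekindDomain

namespace H55B

/-! Chunk S1: the second difference of g.
For u with |u| >= 2|w|+1 put h(t) = g s (u + t w), t in [-1,1] (u + t w is never 0 and has norm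
between |u|/2 and 3|u|/2). h(t) = conj(u + t w) Q(t)^(-s), Q(t) = |u + t w|^2, a real quadratic
polynomial with |Q'| <= 2|w||u + t w|, Q'' = 2|w|^2. So |h''(t)| <= C(|s|) |w|^2 |u + t w|^(-2 Re s - 1),
and |h(1) + h(-1) - 2h(0)| <= sup |h''| (Taylor, or mean value inequality twice). Since |u| >= 1 the
exponent -2 Re s - 1 may be replaced by -(1 + 2 sigma) for Re s >= sigma. -/

/-- the square of the norm of `u + t w` -/
noncomputable def s1_q (u w : ℂ) (t : ℝ) : ℝ := (u.re + t * w.re) ^ 2 + (u.im + t * w.im) ^ 2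

/-- its derivative -/
noncomputable def s1_q1 (u w : ℂ) (t : ℝ) : ℝ :=
  2 * (u.re + t * w.re) * w.re + 2 * (u.im + t * w.im) * w.im

/-- the complex power -/
noncomputable def s1_P (s u w : ℂ) (t : ℝ) : ℂ := Complex.exp (-s * (Real.log (s1_q u w t) : ℝ))

/-- the logarithmic derivative -/
noncomputable def s1_r (u w : ℂ) (t : ℝ) : ℝ := s1_q1 u w t / s1_q u w t

/-- conjugate of `u + t w` -/
noncomputable def s1_z (u w : ℂ) (t : ℝ) : ℂ :=
  (starRingEnd ℂ) u + (t : ℂ) * (starRingEnd ℂ) w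

theorem s1_q_eq (u w : ℂ) (t : ℝ) : s1_q u w t = ‖u + t * w‖ ^ 2 := by
  rw [Complex.sq_norm, Complex.normSq_apply]
  simp [s1_q]
  ring

theorem s1_z_eq (u w : ℂ) (t : ℝ) : s1_z u w t = (starRingEnd ℂ) (u + t * w) := by
  simp [s1_z]

theorem s1_g_eq (s u w : ℂ) (t : ℝ) (h : u + t * w ≠ 0) :
    g s (u + t * w) = s1_z u w t * s1_P s u w t := by
  unfold g
  rw [s1_z_eq]
  congr 1
  unfold s1_P
  rw [s1_q_eq, Complex.cpow_def_of_ne_zero (by exact_mod_cast norm_ne_zero_iff.mpr h),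
    Real.log_pow, ← Complex.ofReal_log (norm_nonneg _)]
  congr 1
  push_cast
  ring

theorem s1_deriv_q (u w : ℂ) (t : ℝ) : HasDerivAt (s1_q u w) (s1_q1 u w t) t := by
  unfold s1_q s1_q1
  have h1 : HasDerivAt (fun t : ℝ => u.re + t * w.re) w.re t := by
    simpa using ((hasDerivAt_id t).mul_const w.re).const_add u.re
  have h2 : HasDerivAt (fun t : ℝ => u.im + t * w.im) w.im t := by
    simpa using ((hasDerivAt_id t).mul_const w.im).const_add u.im
  have h3 := (h1.pow 2).add (h2.pow 2)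
  exact h3.congr_deriv (by norm_num)

theorem s1_deriv_q1 (u w : ℂ) (t : ℝ) :
    HasDerivAt (s1_q1 u w) (2 * (w.re ^ 2 + w.im ^ 2)) t := by
  unfold s1_q1
  have h1 : HasDerivAt (fun t : ℝ => u.re + t * w.re) w.re t := by
    simpa using ((hasDerivAt_id t).mul_const w.re).const_add u.re
  have h2 : HasDerivAt (fun t : ℝ => u.im + t * w.im) w.im t := by
    simpa using ((hasDerivAt_id t).mul_const w.im).const_add u.im
  have h3 := ((h1.const_mul 2).mul_const w.re).add ((h2.const_mul 2).mul_const w.im)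
  exact h3.congr_deriv (by ring)

theorem s1_deriv_P (s u w : ℂ) (t : ℝ) (hq : s1_q u w t ≠ 0) :
    HasDerivAt (s1_P s u w) (s1_P s u w t * (-s * (s1_r u w t : ℝ))) t := by
  have h1 := (s1_deriv_q u w t).log hq
  have h2 := (h1.ofReal_comp.const_mul (-s)).cexp
  exact h2

theorem s1_deriv_z (u w : ℂ) (t : ℝ) : HasDerivAt (s1_z u w) ((starRingEnd ℂ) w) t := by
  unfold s1_z
  have h1 : HasDerivAt (fun t : ℝ => (t : ℂ)) 1 t := by
    simpa using (hasDerivAt_id t).ofReal_comp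
  simpa using (h1.mul_const ((starRingEnd ℂ) w)).const_add ((starRingEnd ℂ) u)

/-- derivative of `s1_r` -/
noncomputable def s1_r1 (u w : ℂ) (t : ℝ) : ℝ :=
  (2 * (w.re ^ 2 + w.im ^ 2) * s1_q u w t - s1_q1 u w t * s1_q1 u w t) / (s1_q u w t) ^ 2

theorem s1_deriv_r (u w : ℂ) (t : ℝ) (hq : s1_q u w t ≠ 0) :
    HasDerivAt (s1_r u w) (s1_r1 u w t) t :=
  (s1_deriv_q1 u w t).div (s1_deriv_q u w t) hq

/-- first derivative of `h` -/
noncomputable def s1_h1 (s u w : ℂ) (t : ℝ) : ℂ :=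
  (starRingEnd ℂ) w * s1_P s u w t + s1_z u w t * (s1_P s u w t * (-s * (s1_r u w t : ℝ)))

/-- second derivative of `h` -/
noncomputable def s1_h2 (s u w : ℂ) (t : ℝ) : ℂ :=
  (starRingEnd ℂ) w * (s1_P s u w t * (-s * (s1_r u w t : ℝ))) +
    ((starRingEnd ℂ) w * (s1_P s u w t * (-s * (s1_r u w t : ℝ))) +
      s1_z u w t * ((s1_P s u w t * (-s * (s1_r u w t : ℝ))) * (-s * (s1_r u w t : ℝ)) +
        s1_P s u w t * (-s * (s1_r1 u w t : ℝ))))

theorem s1_deriv_h (s u w : ℂ) (t : ℝ) (hq : s1_q u w t ≠ 0) :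
    HasDerivAt (fun t => s1_z u w t * s1_P s u w t) (s1_h1 s u w t) t :=
  (s1_deriv_z u w t).mul (s1_deriv_P s u w t hq)

theorem s1_deriv_h1 (s u w : ℂ) (t : ℝ) (hq : s1_q u w t ≠ 0) :
    HasDerivAt (s1_h1 s u w) (s1_h2 s u w t) t := by
  have h1 := (s1_deriv_P s u w t hq).const_mul ((starRingEnd ℂ) w)
  have h2 := ((s1_deriv_r u w t hq).ofReal_comp.const_mul (-s))
  have h3 := (s1_deriv_z u w t).mul ((s1_deriv_P s u w t hq).mul h2)
  exact h1.add h3

theorem s1_norm_P (s u w : ℂ) (t : ℝ) (h : u + t * w ≠ 0) :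
    ‖s1_P s u w t‖ = ‖u + t * w‖ ^ (-(2 * s.re)) := by
  have hpos : 0 < ‖u + t * w‖ := norm_pos_iff.mpr h
  unfold s1_P
  rw [Complex.norm_exp, s1_q_eq, Real.log_pow, Real.rpow_def_of_pos hpos]
  congr 1
  simp
  ring

theorem s1_bound (s u w : ℂ) (t : ℝ) (h : u + t * w ≠ 0) :
    ‖s1_h2 s u w t‖ ≤ ‖w‖ ^ 2 * (10 * ‖s‖ + 4 * ‖s‖ ^ 2) / ‖u + t * w‖ *
      ‖u + t * w‖ ^ (-(2 * s.re)) := by
  set ρ := ‖u + t * w‖ with hρ
  have hρ0 : 0 < ρ := norm_pos_iff.mpr h
  have hq : s1_q u w t = ρ ^ 2 := s1_q_eq u w t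
  have hw2 : w.re ^ 2 + w.im ^ 2 = ‖w‖ ^ 2 := by
    rw [Complex.sq_norm, Complex.normSq_apply]; ring
  have hq1 : |s1_q1 u w t| ≤ 2 * ‖w‖ * ρ := by
    apply abs_le_of_sq_le_sq _ (by positivity)
    have e1 : (2 * ‖w‖ * ρ) ^ 2 = 4 * (w.re ^ 2 + w.im ^ 2) * s1_q u w t := by
      rw [hw2, hq]; ring
    rw [e1]
    unfold s1_q1 s1_q
    nlinarith [sq_nonneg ((u.re + t * w.re) * w.im - (u.im + t * w.im) * w.re)]
  have hr : |s1_r u w t| ≤ 2 * ‖w‖ / ρ := by
    unfold s1_r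
    rw [abs_div, hq, abs_of_pos (by positivity : (0:ℝ) < ρ ^ 2)]
    rw [div_le_div_iff₀ (by positivity) hρ0]
    calc |s1_q1 u w t| * ρ ≤ 2 * ‖w‖ * ρ * ρ := by gcongr
      _ = 2 * ‖w‖ * ρ ^ 2 := by ring
  have hr1 : |s1_r1 u w t| ≤ 6 * ‖w‖ ^ 2 / ρ ^ 2 := by
    unfold s1_r1
    rw [abs_div, hq, hw2, abs_of_pos (by positivity : (0:ℝ) < (ρ ^ 2) ^ 2)]
    rw [div_le_div_iff₀ (by positivity) (by positivity)]
    have e2 : |2 * ‖w‖ ^ 2 * ρ ^ 2 - s1_q1 u w t * s1_q1 u w t| ≤ 6 * ‖w‖ ^ 2 * ρ ^ 2 := by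
      have e3 : s1_q1 u w t * s1_q1 u w t ≤ (2 * ‖w‖ * ρ) ^ 2 := by
        rw [← sq, ← sq_abs]
        exact pow_le_pow_left₀ (abs_nonneg _) hq1 2
      have e4 : 0 ≤ s1_q1 u w t * s1_q1 u w t := mul_self_nonneg _
      have e5 : (2 * ‖w‖ * ρ) ^ 2 = 4 * (‖w‖ ^ 2 * ρ ^ 2) := by ring
      have e6 : 0 ≤ ‖w‖ ^ 2 * ρ ^ 2 := by positivity
      rw [abs_le]
      constructor <;> nlinarith
    calc |2 * ‖w‖ ^ 2 * ρ ^ 2 - s1_q1 u w t * s1_q1 u w t| * ρ ^ 2
        ≤ 6 * ‖w‖ ^ 2 * ρ ^ 2 * ρ ^ 2 := by gcongr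
      _ = 6 * ‖w‖ ^ 2 * (ρ ^ 2) ^ 2 := by ring
  have hP := s1_norm_P s u w t h
  rw [← hρ] at hP
  set p := ρ ^ (-(2 * s.re)) with hp
  have hp0 : 0 ≤ p := by positivity
  have hz : ‖s1_z u w t‖ = ρ := by
    rw [s1_z_eq, Complex.norm_conj]
  have hs0 : 0 ≤ ‖s‖ := norm_nonneg s
  have hw0 : 0 ≤ ‖w‖ := norm_nonneg w
  have ha : ‖s1_P s u w t * (-s * (s1_r u w t : ℝ))‖ ≤ p * (‖s‖ * (2 * ‖w‖ / ρ)) := by
    rw [norm_mul, norm_mul, norm_neg, hP, Complex.norm_real, Real.norm_eq_abs]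
    gcongr
  have hb : ‖(starRingEnd ℂ) w * (s1_P s u w t * (-s * (s1_r u w t : ℝ)))‖ ≤
      ‖w‖ * (p * (‖s‖ * (2 * ‖w‖ / ρ))) := by
    rw [norm_mul, Complex.norm_conj]
    gcongr
  have hc : ‖s1_z u w t * ((s1_P s u w t * (-s * (s1_r u w t : ℝ))) * (-s * (s1_r u w t : ℝ)) +
        s1_P s u w t * (-s * (s1_r1 u w t : ℝ)))‖ ≤
      ρ * (p * (‖s‖ * (2 * ‖w‖ / ρ)) * (‖s‖ * (2 * ‖w‖ / ρ)) + p * (‖s‖ * (6 * ‖w‖ ^ 2 / ρ ^ 2))) := by
    rw [norm_mul, hz]
    refine mul_le_mul_of_nonneg_left ?_ hρ0.le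
    refine (norm_add_le _ _).trans (add_le_add ?_ ?_)
    · rw [norm_mul]
      refine mul_le_mul ha ?_ (norm_nonneg _) (by positivity)
      rw [norm_mul, norm_neg, Complex.norm_real, Real.norm_eq_abs]
      gcongr
    · rw [norm_mul, norm_mul, norm_neg, hP, Complex.norm_real, Real.norm_eq_abs]
      gcongr
  have hd : ‖s1_h2 s u w t‖ ≤ ‖w‖ * (p * (‖s‖ * (2 * ‖w‖ / ρ))) +
      (‖w‖ * (p * (‖s‖ * (2 * ‖w‖ / ρ))) +
      ρ * (p * (‖s‖ * (2 * ‖w‖ / ρ)) * (‖s‖ * (2 * ‖w‖ / ρ)) +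
        p * (‖s‖ * (6 * ‖w‖ ^ 2 / ρ ^ 2)))) := by
    unfold s1_h2
    exact (norm_add_le _ _).trans (add_le_add hb ((norm_add_le _ _).trans (add_le_add hb hc)))
  refine hd.trans (le_of_eq ?_)
  field_simp
  ring

theorem g_second_diff (w : ℂ) (σ M : ℝ) (hσ : 0 ≤ σ) : ∃ C : ℝ, 0 < C ∧ ∀ s : ℂ, σ ≤ s.re → ‖s‖ ≤ M →
    ∀ u : ℂ, 2 * ‖w‖ + 1 ≤ ‖u‖ →
      ‖g s (u + w) + g s (u - w) - 2 * g s u‖ ≤ C * ‖u‖ ^ (-(1 + 2 * σ)) := by
  refine ⟨2 * (‖w‖ ^ 2 * (10 * |M| + 4 * |M| ^ 2) * 2 ^ (1 + 2 * σ)) + 1, by positivity, ?_⟩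
  intro s hs hM u hu
  have hw0 : 0 ≤ ‖w‖ := norm_nonneg w
  have hMabs : ‖s‖ ≤ |M| := hM.trans (le_abs_self M)
  have hz : ∀ t ∈ Set.Icc (-1 : ℝ) 1, 1 ≤ ‖u + t * w‖ ∧ ‖u‖ / 2 ≤ ‖u + t * w‖ := by
    intro t ht
    have h1 : ‖u‖ ≤ ‖u + t * w‖ + ‖w‖ := by
      calc ‖u‖ = ‖(u + t * w) - t * w‖ := by ring_nf
        _ ≤ ‖u + t * w‖ + ‖t * w‖ := norm_sub_le _ _
        _ ≤ ‖u + t * w‖ + ‖w‖ := by
          rw [norm_mul, Complex.norm_real, Real.norm_eq_abs]
          have : |t| ≤ 1 := abs_le.mpr ht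
          nlinarith
    constructor <;> linarith
  have hz0 : ∀ t ∈ Set.Icc (-1 : ℝ) 1, u + t * w ≠ 0 := by
    intro t ht h0
    have := (hz t ht).1
    rw [h0, norm_zero] at this
    linarith
  have hq0 : ∀ t ∈ Set.Icc (-1 : ℝ) 1, s1_q u w t ≠ 0 := by
    intro t ht
    rw [s1_q_eq]
    exact pow_ne_zero 2 (norm_ne_zero_iff.mpr (hz0 t ht))
  have hu1 : 1 ≤ ‖u‖ := by linarith
  set B : ℝ := ‖w‖ ^ 2 * (10 * |M| + 4 * |M| ^ 2) * (2 ^ (1 + 2 * σ) * ‖u‖ ^ (-(1 + 2 * σ))) with hB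
  have hB0 : 0 ≤ B := by positivity
  have hbd : ∀ t ∈ Set.Icc (-1 : ℝ) 1, ‖s1_h2 s u w t‖ ≤ B := by
    intro t ht
    obtain ⟨h1, h2⟩ := hz t ht
    refine (s1_bound s u w t (hz0 t ht)).trans ?_
    set ρ := ‖u + t * w‖ with hρ
    have hρ0 : 0 < ρ := by linarith
    have e1 : ‖w‖ ^ 2 * (10 * ‖s‖ + 4 * ‖s‖ ^ 2) / ρ * ρ ^ (-(2 * s.re)) =
        ‖w‖ ^ 2 * (10 * ‖s‖ + 4 * ‖s‖ ^ 2) * ρ ^ (-(1 + 2 * s.re)) := by
      have : ρ ^ (-(1 + 2 * s.re)) = ρ⁻¹ * ρ ^ (-(2 * s.re)) := by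
        rw [← Real.rpow_neg_one, ← Real.rpow_add hρ0]
        congr 1
        ring
      rw [this]
      field_simp
    rw [e1, hB]
    have e2 : ρ ^ (-(1 + 2 * s.re)) ≤ ρ ^ (-(1 + 2 * σ)) :=
      Real.rpow_le_rpow_of_exponent_le h1 (by linarith)
    have e3 : ρ ^ (-(1 + 2 * σ)) ≤ (‖u‖ / 2) ^ (-(1 + 2 * σ)) :=
      Real.rpow_le_rpow_of_nonpos (by linarith) h2 (by linarith)
    have e4 : (‖u‖ / 2) ^ (-(1 + 2 * σ)) = 2 ^ (1 + 2 * σ) * ‖u‖ ^ (-(1 + 2 * σ)) := by
      rw [Real.div_rpow (by linarith) (by norm_num), Real.rpow_neg (by norm_num : (0:ℝ) ≤ 2)]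
      field_simp
    rw [← e4]
    have e5 : 0 ≤ ρ ^ (-(1 + 2 * s.re)) := by positivity
    gcongr
    exact e2.trans e3
  have hconv : Convex ℝ (Set.Icc (-1 : ℝ) 1) := convex_Icc _ _
  have hstep : ∀ t ∈ Set.Icc (0 : ℝ) 1, ‖s1_h1 s u w t - s1_h1 s u w (-t)‖ ≤ 2 * B := by
    intro t ht
    have h1 : t ∈ Set.Icc (-1 : ℝ) 1 := ⟨by linarith [ht.1], ht.2⟩
    have h2 : -t ∈ Set.Icc (-1 : ℝ) 1 := ⟨by linarith [ht.2], by linarith [ht.1]⟩
    have h3 := hconv.norm_image_sub_le_of_norm_hasDerivWithin_le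
      (f := s1_h1 s u w) (f' := s1_h2 s u w) (C := B)
      (fun x hx => (s1_deriv_h1 s u w x (hq0 x hx)).hasDerivWithinAt) hbd h2 h1
    refine h3.trans ?_
    have h4 : ‖t - -t‖ ≤ 2 := by
      rw [Real.norm_eq_abs, abs_le]
      constructor <;> linarith [ht.1, ht.2]
    nlinarith
  set H : ℝ → ℂ := fun t => s1_z u w t * s1_P s u w t with hH
  have hD : ∀ t ∈ Set.Icc (0 : ℝ) 1, HasDerivWithinAt (fun t => H t + H (-t))
      (s1_h1 s u w t - s1_h1 s u w (-t)) (Set.Icc (0 : ℝ) 1) t := by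
    intro t ht
    have h1 : t ∈ Set.Icc (-1 : ℝ) 1 := ⟨by linarith [ht.1], ht.2⟩
    have h2 : -t ∈ Set.Icc (-1 : ℝ) 1 := ⟨by linarith [ht.2], by linarith [ht.1]⟩
    have h3 := s1_deriv_h s u w t (hq0 t h1)
    have h4 := s1_deriv_h s u w (-t) (hq0 (-t) h2)
    have h5 : HasDerivAt (fun t => H (-t)) (-(s1_h1 s u w (-t))) t := by
      have h7 := HasDerivAt.scomp t h4 (hasDerivAt_neg t)
      exact h7.congr_deriv (by simp)
    have h6 := h3.add h5
    rw [← sub_eq_add_neg] at h6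
    exact h6.hasDerivWithinAt
  have hfin := (convex_Icc (0 : ℝ) 1).norm_image_sub_le_of_norm_hasDerivWithin_le
    (C := 2 * B) hD hstep (x := 0) (y := 1) (by simp) (by simp)
  simp only [sub_zero, norm_one, mul_one, neg_zero] at hfin
  have g1 : H 1 = g s (u + w) := by
    have := s1_g_eq s u w 1 (hz0 1 (by simp))
    rw [hH]
    simp only
    rw [← this]
    simp
  have g2 : H (-1) = g s (u - w) := by
    have := s1_g_eq s u w (-1) (hz0 (-1) (by simp))
    rw [hH]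
    simp only
    rw [← this]
    push_cast
    ring_nf
  have g3 : H 0 = g s u := by
    have := s1_g_eq s u w 0 (hz0 0 (by simp))
    rw [hH]
    simp only
    rw [← this]
    simp
  rw [g1, g2, g3] at hfin
  have e : g s (u + w) + g s (u - w) - 2 * g s u = g s (u + w) + g s (u - w) - (g s u + g s u) := by
    ring
  rw [e]
  refine hfin.trans ?_
  rw [hB]
  have hx : 0 ≤ ‖u‖ ^ (-(1 + 2 * σ)) := by positivity
  nlinarith

end H55B
end

-- from Lib.H55B.Z1
section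

open NumberField IsDedekindDomain

namespace H55B

/-! Chunk Z1: basic facts on the Eisenstein integers.
`om = zeta_spec.toInteger`; Mathlib: IsPrimitiveRoot.toInteger, the integral power basis of a prime
cyclotomic field, `IsCyclotomicExtension.Rat.Three.*` (eta_sq etc). Since `e` is a ring hom from a
ring of characteristic zero that is a domain with fraction field F it is injective. `e om` is a
primitive cube root of unity, so its norm is 1, real part -1/2. The norm form: N(a + b om) =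
a^2 - a b + b^2 = |e(a + b om)|^2. -/

theorem om_rel : om ^ 2 + om + 1 = 0 :=
  IsCyclotomicExtension.Rat.Three.eta_sq_add_eta_add_one zeta_spec

theorem exists_repr (x : O) : ∃ a b : ℤ, x = a + b * om := by
  obtain ⟨f, hf, hx⟩ := (zeta_spec.integralPowerBasis).exists_eq_aeval x
  rw [IsPrimitiveRoot.integralPowerBasis_dim] at hf
  have h2 : Nat.totient 3 = 2 := by decide
  rw [h2] at hf
  obtain ⟨b, a, hfa⟩ := Polynomial.exists_eq_X_add_C_of_natDegree_le_one
    (Nat.lt_succ_iff.1 hf)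
  refine ⟨a, b, ?_⟩
  rw [hx, hfa, IsPrimitiveRoot.integralPowerBasis_gen]
  simp only [map_add, map_mul, Polynomial.aeval_X, eq_intCast, map_intCast]
  rw [add_comm]
  rfl

theorem e_injective : Function.Injective e := by
  intro x y h
  have h1 : emb (algebraMap O F x) = emb (algebraMap O F y) := h
  exact RingOfIntegers.coe_injective (emb.injective h1)

theorem e_om_rel : (e om) ^ 2 + e om + 1 = 0 := by
  have h := congrArg e om_rel
  simpa using h

theorem norm_e_om : ‖e om‖ = 1 := by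
  have h : (e om) ^ 3 = 1 := by
    have h1 := e_om_rel
    linear_combination (e om - 1) * h1
  exact Complex.norm_eq_one_of_pow_eq_one h (by norm_num)

theorem Z1_im : (e om).im ≠ 0 := by
  intro h0
  have h1 := congrArg Complex.re e_om_rel
  simp only [pow_two, Complex.add_re, Complex.mul_re, Complex.one_re, Complex.zero_re, h0] at h1
  nlinarith [sq_nonneg ((e om).re + 1 / 2)]

theorem e_om_re : (e om).re = -1 / 2 := by
  have h2 := congrArg Complex.im e_om_rel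
  simp only [pow_two, Complex.add_im, Complex.mul_im, Complex.one_im, Complex.zero_im] at h2
  have h3 : (e om).im * (2 * (e om).re + 1) = 0 := by linarith
  have h4 := (mul_eq_zero.1 h3).resolve_left Z1_im
  linarith

theorem Z1_e_repr (a b : ℤ) : e ((a : O) + b * om) = a + b * e om := by
  simp

theorem Z1_zero {a b : ℤ} (h : (a : O) + b * om = 0) : a = 0 ∧ b = 0 := by
  have h1 := congrArg e h
  rw [Z1_e_repr, map_zero] at h1
  have h2 := congrArg Complex.im h1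
  simp only [Complex.add_im, Complex.mul_im, Complex.intCast_re, Complex.intCast_im,
    Complex.zero_im, zero_mul, add_zero, zero_add] at h2
  have h3 : (b : ℝ) = 0 := (mul_eq_zero.1 h2).resolve_right Z1_im
  have h4 : b = 0 := by exact_mod_cast h3
  have h5 := congrArg Complex.re h1
  rw [h4] at h5
  simp only [Complex.add_re, Complex.mul_re, Complex.intCast_re, Complex.intCast_im,
    Complex.zero_re, zero_mul, sub_zero, Int.cast_zero, add_zero] at h5
  exact ⟨by exact_mod_cast h5, h4⟩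

theorem repr_unique {a b c d : ℤ} (h : (a : O) + b * om = c + d * om) : a = c ∧ b = d := by
  have h1 : ((a - c : ℤ) : O) + ((b - d : ℤ) : O) * om = 0 := by
    push_cast
    linear_combination h
  have h2 := Z1_zero h1
  omega

noncomputable def Z1_basis : Module.Basis (Fin 2) ℤ O :=
  Module.Basis.mk (v := ![1, om]) (by
    rw [LinearIndependent.pair_iff]
    intro s t h
    apply Z1_zero
    simpa [zsmul_eq_mul] using h) (by
    intro x _
    obtain ⟨a, b, rfl⟩ := exists_repr x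
    have h1 : (1 : O) ∈ Submodule.span ℤ (Set.range ![(1 : O), om]) :=
      Submodule.subset_span ⟨0, rfl⟩
    have h2 : om ∈ Submodule.span ℤ (Set.range ![(1 : O), om]) :=
      Submodule.subset_span ⟨1, rfl⟩
    have h3 := Submodule.add_mem _ (Submodule.smul_mem _ a h1) (Submodule.smul_mem _ b h2)
    simpa [zsmul_eq_mul] using h3)

theorem Z1_basis_zero : Z1_basis 0 = 1 := by
  simp [Z1_basis]

theorem Z1_basis_one : Z1_basis 1 = om := by
  simp [Z1_basis]

theorem Z1_repr (a b : ℤ) : Z1_basis.repr ((a : O) + b * om) =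
    Finsupp.single 0 a + Finsupp.single 1 b := by
  have : (a : O) + b * om = a • Z1_basis 0 + b • Z1_basis 1 := by
    rw [Z1_basis_zero, Z1_basis_one]
    simp [zsmul_eq_mul]
  rw [this, map_add, map_smul, map_smul, Module.Basis.repr_self, Module.Basis.repr_self]
  simp

theorem Z1_norm (a b : ℤ) : Algebra.norm ℤ ((a : O) + b * om) = a ^ 2 - a * b + b ^ 2 := by
  rw [Algebra.norm_eq_matrix_det Z1_basis, Matrix.det_fin_two]
  simp only [Algebra.leftMulMatrix_eq_repr_mul, Z1_basis_zero, Z1_basis_one, mul_one]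
  have h : ((a : O) + b * om) * om = ((-b : ℤ) : O) + ((a - b : ℤ) : O) * om := by
    have := om_rel
    push_cast
    linear_combination (b : O) * this
  rw [h, Z1_repr, Z1_repr]
  simp
  ring

theorem Nm_repr (a b : ℤ) : (Nm (a + b * om) : ℤ) = a ^ 2 - a * b + b ^ 2 := by
  unfold Nm
  rw [Ideal.absNorm_span_singleton, Z1_norm, Int.natCast_natAbs, abs_of_nonneg]
  nlinarith [sq_nonneg (a - b), sq_nonneg a, sq_nonneg b, sq_nonneg (a + b)]

theorem Nm_eq (x : O) : (Nm x : ℝ) = ‖e x‖ ^ 2 := by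
  obtain ⟨a, b, rfl⟩ := exists_repr x
  have h1 : ((Nm (a + b * om) : ℤ) : ℝ) = ((a ^ 2 - a * b + b ^ 2 : ℤ) : ℝ) := by rw [Nm_repr]
  rw [Int.cast_natCast] at h1
  rw [h1, Z1_e_repr, Complex.sq_norm, Complex.normSq_apply]
  have h2 : (e om).re * (e om).re + (e om).im * (e om).im = 1 := by
    rw [← Complex.normSq_apply, ← Complex.sq_norm, norm_e_om, one_pow]
  have h3 := e_om_re
  simp only [Complex.add_re, Complex.add_im, Complex.mul_re, Complex.mul_im, Complex.intCast_re,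
    Complex.intCast_im, zero_mul, sub_zero, add_zero, zero_add]
  push_cast
  have h4 : ((a : ℝ) + b * (e om).re) * (a + b * (e om).re) + b * (e om).im * (b * (e om).im) =
      a ^ 2 + 2 * a * b * (e om).re + b ^ 2 * ((e om).re * (e om).re + (e om).im * (e om).im) := by
    ring
  rw [h4, h2, h3]
  ring

theorem Nm_mul (x y : O) : Nm (x * y) = Nm x * Nm y := by
  unfold Nm
  rw [← map_mul, Ideal.span_singleton_mul_span_singleton]

theorem Nm_eq_zero {x : O} : Nm x = 0 ↔ x = 0 := by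
  unfold Nm
  rw [Ideal.absNorm_eq_zero_iff, Ideal.span_singleton_eq_bot]

theorem Nm_eq_one {x : O} : Nm x = 1 ↔ IsUnit x := by
  unfold Nm
  rw [Ideal.absNorm_eq_one_iff, Ideal.span_singleton_eq_top]

end H55B
end

-- from Lib.H55B.Z2
section

open NumberField IsDedekindDomain

namespace H55B

/-! Chunk Z2: complex conjugation on the Eisenstein integers, the prime 2, units.
cj: the automorphism of F given by om -> om^2 (or: complex conjugation maps e(O) to itself, by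
exists_repr, since conj (e om) = e (om^2)). Two is prime: O/2 has 4 elements; if 2 divides x y with
x = a + b om, y = c + d om then N(x) N(y) is divisible by 4, so one of the norms a^2 - a b + b^2 is even,
hence a and b are even. Units: IsCyclotomicExtension.Rat.Three.Units.mem. -/

private lemma e_om_cube : (e om) ^ 3 = 1 := by
  have h := e_om_rel
  linear_combination (e om - 1) * h

private lemma conj_e_om : (starRingEnd ℂ) (e om) = (e om) ^ 2 := by
  have h1 : (e om) * (starRingEnd ℂ) (e om) = 1 := by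
    rw [Complex.mul_conj, Complex.normSq_eq_norm_sq, norm_e_om]; simp
  have h3 := e_om_cube
  calc (starRingEnd ℂ) (e om) = (e om) ^ 3 * (starRingEnd ℂ) (e om) := by rw [h3, one_mul]
    _ = (e om) ^ 2 * ((e om) * (starRingEnd ℂ) (e om)) := by ring
    _ = (e om) ^ 2 := by rw [h1, mul_one]

theorem exists_cj : ∃ c : O ≃+* O, ∀ x, e (c x) = (starRingEnd ℂ) (e x) := by
  have h : ∀ x : O, ∃ y : O, e y = (starRingEnd ℂ) (e x) := by
    intro x
    obtain ⟨a, b, rfl⟩ := exists_repr x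
    refine ⟨a + b * om ^ 2, ?_⟩
    simp only [map_add, map_mul, map_pow, map_intCast, conj_e_om]
  choose c hc using h
  have hcc : ∀ x, c (c x) = x := fun x => e_injective (by rw [hc, hc, Complex.conj_conj])
  exact ⟨{ toFun := c
           invFun := c
           left_inv := hcc
           right_inv := hcc
           map_mul' := fun x y => e_injective (by simp only [hc, map_mul])
           map_add' := fun x y => e_injective (by simp only [hc, map_add]) }, hc⟩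

/-- Complex conjugation on the Eisenstein integers. -/
noncomputable def cj : O ≃+* O := exists_cj.choose

theorem e_cj (x : O) : e (cj x) = (starRingEnd ℂ) (e x) := exists_cj.choose_spec x

theorem cj_om : cj om = om ^ 2 := by
  apply e_injective
  rw [e_cj, conj_e_om, map_pow]

theorem cj_cj (x : O) : cj (cj x) = x := by
  apply e_injective
  rw [e_cj, e_cj, Complex.conj_conj]

theorem mul_cj (x : O) : x * cj x = (Nm x : O) := by
  apply e_injective
  rw [map_mul, e_cj, Complex.mul_conj, Complex.normSq_eq_norm_sq, ← Nm_eq, map_natCast]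
  simp

private lemma Nm_two : Nm (2 : O) = 4 := by
  have h := Nm_repr 2 0
  have h2 : ((2 : ℤ) : O) + ((0 : ℤ) : O) * om = 2 := by push_cast; ring
  rw [h2] at h
  norm_num at h
  exact_mod_cast h

theorem two_prime : Prime (2 : O) := by
  have key : ∀ x : O, 2 ∣ Nm x → (2 : O) ∣ x := by
    intro x hx
    obtain ⟨a, b, rfl⟩ := exists_repr x
    have h1 : (2 : ℤ) ∣ a ^ 2 - a * b + b ^ 2 := by
      rw [← Nm_repr]; exact_mod_cast hx
    have hab : (2 : ℤ) ∣ a ∧ (2 : ℤ) ∣ b := by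
      rcases Int.even_or_odd a with ha | ha <;> rcases Int.even_or_odd b with hb | hb
      · exact ⟨ha.two_dvd, hb.two_dvd⟩
      · exfalso
        obtain ⟨m, hm⟩ := ha
        obtain ⟨n, hn⟩ := hb
        subst hm hn
        obtain ⟨k, hk⟩ := h1
        ring_nf at hk
        omega
      · exfalso
        obtain ⟨m, hm⟩ := ha
        obtain ⟨n, hn⟩ := hb
        subst hm hn
        obtain ⟨k, hk⟩ := h1
        ring_nf at hk
        omega
      · exfalso
        obtain ⟨m, hm⟩ := ha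
        obtain ⟨n, hn⟩ := hb
        subst hm hn
        obtain ⟨k, hk⟩ := h1
        ring_nf at hk
        omega
    obtain ⟨⟨m, rfl⟩, ⟨n, rfl⟩⟩ := hab
    exact ⟨m + n * om, by push_cast; ring⟩
  refine ⟨two_ne_zero, ?_, ?_⟩
  · intro h
    have := Nm_eq_one.mpr h
    rw [Nm_two] at this
    norm_num at this
  · intro x y hxy
    obtain ⟨z, hz⟩ := hxy
    have h := congrArg Nm hz
    rw [Nm_mul, Nm_mul, Nm_two] at h
    have h2 : 2 ∣ Nm x * Nm y := ⟨2 * Nm z, by rw [h]; ring⟩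
    rcases (Nat.Prime.dvd_mul Nat.prime_two).mp h2 with h3 | h3
    · exact Or.inl (key x h3)
    · exact Or.inr (key y h3)

theorem lam_prime : Prime (om - 1 : O) := by
  have hN : Nm (om - 1 : O) = 3 := by
    have h := Nm_repr (-1) 1
    have h2 : ((-1 : ℤ) : O) + ((1 : ℤ) : O) * om = om - 1 := by push_cast; ring
    rw [h2] at h
    norm_num at h
    exact_mod_cast h
  have hne : (om - 1 : O) ≠ 0 := by
    intro h
    rw [h] at hN
    rw [Nm_eq_zero.mpr rfl] at hN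
    norm_num at hN
  have hI : (Ideal.span {(om - 1 : O)}).IsPrime := by
    apply Ideal.isPrime_of_irreducible_absNorm
    have : Ideal.absNorm (Ideal.span {(om - 1 : O)}) = 3 := hN
    rw [this]
    exact Nat.prime_three
  exact (Ideal.span_singleton_prime hne).mp hI

/-- 3 = -om^2 (om - 1)^2. -/
theorem three_eq : (3 : O) = -om ^ 2 * (om - 1) ^ 2 := by
  have h := om_rel
  linear_combination (om ^ 2 - 3 * om + 3) * h

theorem unit_cases (u : Oˣ) : (u : O) = 1 ∨ (u : O) = -1 ∨ (u : O) = om ∨ (u : O) = -om ∨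
    (u : O) = om ^ 2 ∨ (u : O) = -om ^ 2 := by
  have h := IsCyclotomicExtension.Rat.Three.Units.mem zeta_spec u
  simp only [List.mem_cons, List.mem_nil_iff, or_false] at h
  rcases h with h | h | h | h | h | h
  · left; rw [h]; rfl
  · right; left; rw [h]; rfl
  · right; right; left; rw [h]; rfl
  · right; right; right; left; rw [h]; rfl
  · right; right; right; right; left; rw [h]; rfl
  · right; right; right; right; right; rw [h]; rfl

end H55B
end

-- from Lib.H55B.J0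
section

open NumberField IsDedekindDomain

namespace H55B

/-! Chunk J0: the sextic field M = F(2^(1/3)) and its cubic subfield L = Q(2^(1/3)).
M = AdjoinRoot (X^3 - 2 : F[X]) (irreducible: 2 is prime in O so it is not a cube in F; degree 3 without root),
L = AdjoinRoot (X^3 - 2 : Q[X]), L -> M by lifting. tau lifts root -> om root over F; sigma lifts the
conjugation of F (the field automorphism extending cj) and fixes the root. Basis 1, theta, theta^2.
fix_sig: z = a + b theta + c theta^2 with a, b, c in F fixed by conjugation, hence rational. -/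

/-- The field data: M = F(theta), theta^3 = 2, L = Q(t) its real cubic subfield, tau of order 3 over F, sigma
the conjugation fixing L. -/
structure Sextic (M : Type) [Field M] [NumberField M] [Algebra F M] (L : Type) [Field L] [NumberField L]
    [Algebra L M] (θ : M) (t : L) (τ σ : M ≃+* M) : Prop where
  cube : θ ^ 3 = 2
  map_t : algebraMap L M t = θ
  tau_theta : τ θ = algebraMap O M om * θ
  tau_F : ∀ x : F, τ (algebraMap F M x) = algebraMap F M x
  tau_tau : ∀ z, τ (τ (τ z)) = z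
  sig_theta : σ θ = θ
  sig_O : ∀ x : O, σ (algebraMap O M x) = algebraMap O M (cj x)
  sig_sig : ∀ z, σ (σ z) = z
  span : ∀ z : M, ∃ a b c : F, z = algebraMap F M a + algebraMap F M b * θ + algebraMap F M c * θ ^ 2
  indep : ∀ a b c : F, algebraMap F M a + algebraMap F M b * θ + algebraMap F M c * θ ^ 2 = 0 →
    a = 0 ∧ b = 0 ∧ c = 0
  lspan : ∀ z : L, ∃ a b c : ℚ, z = (a : L) + b * t + c * t ^ 2
  lindep : ∀ a b c : ℚ, (a : L) + b * t + c * t ^ 2 = 0 → a = 0 ∧ b = 0 ∧ c = 0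
  fix_sig : ∀ z : M, σ z = z → ∃ c : L, algebraMap L M c = z

section J0gen

open Polynomial

variable (K : Type) [Field K]

/-- The polynomial `X ^ 3 - 2`. -/
noncomputable def J0_p : K[X] := X ^ 3 - C 2

theorem J0_monic : (J0_p K).Monic := monic_X_pow_sub_C _ (by norm_num)

theorem J0_natDegree : (J0_p K).natDegree = 3 := natDegree_X_pow_sub_C

theorem J0_eval {S : Type} [CommRing S] (i : K →+* S) (x : S) (hx : x ^ 3 = 2) :
    (J0_p K).eval₂ i x = 0 := by
  unfold J0_p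
  rw [eval₂_sub, eval₂_X_pow, eval₂_C, sub_eq_zero, map_ofNat, hx]

theorem J0_root_cube : (AdjoinRoot.root (J0_p K)) ^ 3 = 2 := by
  have h := AdjoinRoot.eval₂_root (J0_p K)
  unfold J0_p at h
  rw [eval₂_sub, eval₂_X_pow, eval₂_C, sub_eq_zero, map_ofNat] at h
  exact h

theorem J0_span (z : AdjoinRoot (J0_p K)) : ∃ a b c : K, z = AdjoinRoot.of (J0_p K) a +
    AdjoinRoot.of (J0_p K) b * AdjoinRoot.root (J0_p K) +
      AdjoinRoot.of (J0_p K) c * AdjoinRoot.root (J0_p K) ^ 2 := by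
  obtain ⟨p, rfl⟩ := AdjoinRoot.mk_surjective z
  have h1 : AdjoinRoot.mk (J0_p K) p = AdjoinRoot.mk (J0_p K) (p %ₘ J0_p K) := by
    rw [AdjoinRoot.mk_eq_mk]
    exact ⟨p /ₘ J0_p K, by
      have := modByMonic_add_div p (J0_p K)
      linear_combination -this⟩
  have h2 : (p %ₘ J0_p K).natDegree < 3 := by
    have := natDegree_modByMonic_lt p (J0_monic K) (by
      intro h
      have h3 := J0_natDegree K
      rw [h, natDegree_one] at h3
      omega)
    rwa [J0_natDegree] at this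
  refine ⟨(p %ₘ J0_p K).coeff 0, (p %ₘ J0_p K).coeff 1, (p %ₘ J0_p K).coeff 2, ?_⟩
  rw [h1]
  conv_lhs => rw [(p %ₘ J0_p K).as_sum_range' 3 h2]
  simp only [Finset.sum_range_succ, Finset.sum_range_zero, zero_add, map_add]
  simp only [← C_mul_X_pow_eq_monomial, map_mul, AdjoinRoot.mk_C, map_pow, AdjoinRoot.mk_X,
    pow_zero, mul_one, pow_one]

theorem J0_indep (a b c : K) (h : AdjoinRoot.of (J0_p K) a +
    AdjoinRoot.of (J0_p K) b * AdjoinRoot.root (J0_p K) +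
      AdjoinRoot.of (J0_p K) c * AdjoinRoot.root (J0_p K) ^ 2 = 0) : a = 0 ∧ b = 0 ∧ c = 0 := by
  have h1 : AdjoinRoot.mk (J0_p K) (C a + C b * X + C c * X ^ 2) = 0 := by
    simp only [map_add, map_mul, map_pow, AdjoinRoot.mk_C, AdjoinRoot.mk_X]
    exact h
  rw [AdjoinRoot.mk_eq_zero] at h1
  have h2 : (C a + C b * X + C c * X ^ 2 : K[X]) = 0 := by
    by_contra hne
    have h3 := natDegree_le_of_dvd h1 hne
    rw [J0_natDegree] at h3
    have h4 : (C a + C b * X + C c * X ^ 2 : K[X]).natDegree ≤ 2 := by compute_degree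
    omega
  refine ⟨?_, ?_, ?_⟩
  · have := congrArg (fun q : K[X] => q.coeff 0) h2
    simpa using this
  · have := congrArg (fun q : K[X] => q.coeff 1) h2
    simpa [coeff_X, coeff_C] using this
  · have := congrArg (fun q : K[X] => q.coeff 2) h2
    simpa [coeff_X, coeff_C] using this

end J0gen

theorem J0_no_cube (b : F) : b ^ 3 ≠ 2 := by
  intro hb
  have hint : IsIntegral O b := by
    refine ⟨Polynomial.X ^ 3 - Polynomial.C 2, Polynomial.monic_X_pow_sub_C _ (by norm_num), ?_⟩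
    rw [Polynomial.eval₂_sub, Polynomial.eval₂_X_pow, Polynomial.eval₂_C, sub_eq_zero, map_ofNat,
      hb]
  obtain ⟨x, hx⟩ := IsIntegrallyClosed.isIntegral_iff.1 hint
  have h1 : x ^ 3 = 2 := by
    have h : algebraMap O F (x ^ 3) = algebraMap O F 2 := by
      rw [map_pow, hx, hb, map_ofNat]
    exact IsFractionRing.injective O F h
  have h2 : (2 : O) ∣ x := two_prime.dvd_of_dvd_pow (n := 3) (by rw [h1])
  obtain ⟨z, rfl⟩ := h2
  have h3 : (2 : O) * (4 * z ^ 3) = 2 * 1 := by linear_combination h1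
  have h4 : (4 * z ^ 3 : O) = 1 := mul_left_cancel₀ two_prime.ne_zero h3
  exact two_prime.not_isUnit (isUnit_iff_exists_inv.2 ⟨2 * z ^ 3, by linear_combination h4⟩)

theorem J0_no_cube_rat (b : ℚ) : b ^ 3 ≠ 2 := by
  intro hb
  apply J0_no_cube (b : F)
  exact_mod_cast congrArg (fun q : ℚ => (q : F)) hb

instance J0_fact : Fact (Irreducible (J0_p F)) :=
  ⟨X_pow_sub_C_irreducible_of_prime Nat.prime_three J0_no_cube⟩

instance J0_fact_rat : Fact (Irreducible (J0_p ℚ)) :=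
  ⟨X_pow_sub_C_irreducible_of_prime Nat.prime_three J0_no_cube_rat⟩

/-- The sextic field. -/
abbrev J0_M : Type := AdjoinRoot (J0_p F)

/-- The cubic field. -/
abbrev J0_L : Type := AdjoinRoot (J0_p ℚ)

instance J0_nfM : NumberField J0_M := by
  have : Module.Finite F J0_M := (AdjoinRoot.powerBasis' (J0_monic F)).finite
  exact NumberField.of_module_finite F J0_M

instance J0_nfL : NumberField J0_L := by
  have : Module.Finite ℚ J0_L := (AdjoinRoot.powerBasis' (J0_monic ℚ)).finite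
  exact NumberField.of_module_finite ℚ J0_L

/-- The embedding of the cubic field into the sextic field. -/
noncomputable def J0_i : J0_L →+* J0_M :=
  AdjoinRoot.lift ((AdjoinRoot.of (J0_p F)).comp (algebraMap ℚ F)) (AdjoinRoot.root (J0_p F))
    (J0_eval _ _ _ (J0_root_cube F))

/-- The conjugation of `F`. -/
noncomputable def J0_c : F ≃+* F := IsFractionRing.ringEquivOfRingEquiv (A := O) (B := O) cj

theorem J0_c_apply (x : O) : J0_c (algebraMap O F x) = algebraMap O F (cj x) :=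
  IsFractionRing.ringEquivOfRingEquiv_algebraMap cj x

theorem J0_c_c (x : F) : J0_c (J0_c x) = x := by
  obtain ⟨a, b, hb, rfl⟩ := IsFractionRing.div_surjective (A := O) x
  rw [map_div₀, map_div₀, J0_c_apply, J0_c_apply, J0_c_apply, J0_c_apply, cj_cj, cj_cj]

theorem J0_c_fix (x : F) (hx : J0_c x = x) : ∃ q : ℚ, x = q := by
  obtain ⟨a, b, hb, rfl⟩ := IsFractionRing.div_surjective (A := O) x
  have hb0 : b ≠ 0 := nonZeroDivisors.ne_zero hb
  have hN : Nm b ≠ 0 := fun h => hb0 (Nm_eq_zero.1 h)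
  obtain ⟨u, v, huv⟩ := exists_repr (a * cj b)
  have h1 : algebraMap O F a / algebraMap O F b = algebraMap O F (a * cj b) / (Nm b : F) := by
    have h2 : (Nm b : F) = algebraMap O F b * algebraMap O F (cj b) := by
      rw [← map_mul, mul_cj, map_natCast]
    have h3 : algebraMap O F b ≠ 0 := by
      intro h
      exact hb0 (IsFractionRing.injective O F (by rw [h, map_zero]))
    have h4 : algebraMap O F (cj b) ≠ 0 := by
      intro h
      have h5 : cj b = 0 := IsFractionRing.injective O F (by rw [h, map_zero])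
      exact hb0 (by rw [← cj_cj b, h5, map_zero])
    rw [h2, map_mul]
    field_simp
  rw [h1] at hx ⊢
  have hN' : (Nm b : F) ≠ 0 := by exact_mod_cast hN
  rw [map_div₀, map_natCast, J0_c_apply] at hx
  have h6 : cj (a * cj b) = a * cj b := by
    apply IsFractionRing.injective O F
    field_simp at hx
    exact hx
  rw [huv] at h6 ⊢
  have h7 : v = 0 := by
    rw [map_add, map_mul, map_intCast, map_intCast, cj_om] at h6
    have h8 : ((u - v : ℤ) : O) + ((-v : ℤ) : O) * om = u + v * om := by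
      push_cast
      linear_combination h6 - v * om_rel
    have := (repr_unique h8).2
    omega
  subst h7
  refine ⟨(u : ℚ) / (Nm b : ℚ), ?_⟩
  push_cast
  simp

/-- The endomorphism `τ`. -/
noncomputable def J0_t : J0_M →+* J0_M :=
  AdjoinRoot.lift (AdjoinRoot.of (J0_p F))
    (algebraMap O J0_M om * AdjoinRoot.root (J0_p F)) (J0_eval _ _ _ (by
    rw [mul_pow, ← map_pow]
    have h : om ^ 3 = 1 := by linear_combination (om - 1) * om_rel
    rw [h, map_one, one_mul]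
    exact J0_root_cube F))

/-- The endomorphism `σ`. -/
noncomputable def J0_s : J0_M →+* J0_M :=
  AdjoinRoot.lift ((AdjoinRoot.of (J0_p F)).comp (J0_c : F →+* F))
    (AdjoinRoot.root (J0_p F))
    (J0_eval _ _ _ (J0_root_cube F))

theorem J0_t_root : J0_t (AdjoinRoot.root (J0_p F)) =
    algebraMap O J0_M om * AdjoinRoot.root (J0_p F) := AdjoinRoot.lift_root _

theorem J0_t_of (x : F) : J0_t (AdjoinRoot.of (J0_p F) x) = AdjoinRoot.of (J0_p F) x :=
  AdjoinRoot.lift_of _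

theorem J0_s_root : J0_s (AdjoinRoot.root (J0_p F)) = AdjoinRoot.root (J0_p F) :=
  AdjoinRoot.lift_root _

theorem J0_s_of (x : F) : J0_s (AdjoinRoot.of (J0_p F) x) = AdjoinRoot.of (J0_p F) (J0_c x) :=
  AdjoinRoot.lift_of _

theorem J0_algO (x : O) : algebraMap O J0_M x = AdjoinRoot.of (J0_p F) (algebraMap O F x) := rfl

theorem J0_ttt (z : J0_M) : J0_t (J0_t (J0_t z)) = z := by
  have h : om ^ 3 = 1 := by linear_combination (om - 1) * om_rel
  have h1 : (J0_t.comp (J0_t.comp J0_t)) = RingHom.id J0_M := by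
    apply AdjoinRoot.ringHom_ext
    · ext x
      simp only [RingHom.comp_apply, RingHom.id_apply, J0_t_of]
    · simp only [RingHom.comp_apply, RingHom.id_apply, J0_t_root, map_mul, J0_algO, J0_t_of]
      rw [← mul_assoc, ← mul_assoc, ← map_mul, ← map_mul, ← map_mul, ← map_mul]
      have h2 : om * om * om = 1 := by rw [← h]; ring
      rw [h2, map_one, map_one, one_mul]
  exact congrArg (fun f : J0_M →+* J0_M => f z) h1

theorem J0_ss (z : J0_M) : J0_s (J0_s z) = z := by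
  have h1 : (J0_s.comp J0_s) = RingHom.id J0_M := by
    apply AdjoinRoot.ringHom_ext
    · ext x
      simp only [RingHom.comp_apply, RingHom.id_apply, J0_s_of, J0_c_c]
    · simp only [RingHom.comp_apply, RingHom.id_apply, J0_s_root]
  exact congrArg (fun f : J0_M →+* J0_M => f z) h1

/-- The automorphism `τ`. -/
noncomputable def J0_tau : J0_M ≃+* J0_M :=
  { J0_t with
    invFun := fun z => J0_t (J0_t z)
    left_inv := fun z => J0_ttt z
    right_inv := fun z => J0_ttt z }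

/-- The automorphism `σ`. -/
noncomputable def J0_sig : J0_M ≃+* J0_M :=
  { J0_s with
    invFun := fun z => J0_s z
    left_inv := fun z => J0_ss z
    right_inv := fun z => J0_ss z }

theorem J0_i_root : J0_i (AdjoinRoot.root (J0_p ℚ)) = AdjoinRoot.root (J0_p F) :=
  AdjoinRoot.lift_root (J0_eval _ _ _ (J0_root_cube F))

theorem exists_sextic : ∃ (M : Type) (_ : Field M) (_ : NumberField M) (_ : Algebra F M)
    (L : Type) (_ : Field L) (_ : NumberField L) (_ : Algebra L M) (θ : M) (t : L) (τ σ : M ≃+* M),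
    Sextic M L θ t τ σ := by
  let _ : Algebra J0_L J0_M := J0_i.toAlgebra
  refine ⟨J0_M, inferInstance, inferInstance, inferInstance, J0_L, inferInstance, inferInstance,
    J0_i.toAlgebra, AdjoinRoot.root (J0_p F), AdjoinRoot.root (J0_p ℚ), J0_tau, J0_sig, ?_⟩
  refine ⟨J0_root_cube F, J0_i_root, J0_t_root, J0_t_of, J0_ttt, J0_s_root, ?_, J0_ss,
    J0_span F, J0_indep F, ?_, ?_, ?_⟩
  · intro x
    rw [J0_algO, J0_algO, ← J0_c_apply]
    exact J0_s_of _
  · intro z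
    obtain ⟨a, b, c, h⟩ := J0_span ℚ z
    refine ⟨a, b, c, ?_⟩
    rw [h, eq_ratCast, eq_ratCast, eq_ratCast]
  · intro a b c h
    apply J0_indep ℚ a b c
    rw [eq_ratCast, eq_ratCast, eq_ratCast]
    exact h
  · intro z hz
    obtain ⟨a, b, c, rfl⟩ := J0_span F z
    have h1 : J0_s (AdjoinRoot.of (J0_p F) a +
        AdjoinRoot.of (J0_p F) b * AdjoinRoot.root (J0_p F) +
        AdjoinRoot.of (J0_p F) c * AdjoinRoot.root (J0_p F) ^ 2) = AdjoinRoot.of (J0_p F) a +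
        AdjoinRoot.of (J0_p F) b * AdjoinRoot.root (J0_p F) +
        AdjoinRoot.of (J0_p F) c * AdjoinRoot.root (J0_p F) ^ 2 := hz
    rw [map_add, map_add, map_mul, map_mul, map_pow, J0_s_root, J0_s_of, J0_s_of, J0_s_of] at h1
    have h2 := J0_indep F (J0_c a - a) (J0_c b - b) (J0_c c - c) (by
      rw [map_sub, map_sub, map_sub]
      linear_combination h1)
    obtain ⟨qa, ha⟩ := J0_c_fix a (sub_eq_zero.1 h2.1)
    obtain ⟨qb, hb⟩ := J0_c_fix b (sub_eq_zero.1 h2.2.1)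
    obtain ⟨qc, hc⟩ := J0_c_fix c (sub_eq_zero.1 h2.2.2)
    refine ⟨(qa : J0_L) + qb * AdjoinRoot.root (J0_p ℚ) + qc * AdjoinRoot.root (J0_p ℚ) ^ 2, ?_⟩
    change J0_i _ = _
    rw [map_add, map_add, map_mul, map_mul, map_pow, map_ratCast, map_ratCast, map_ratCast,
      J0_i_root,
      ha, hb, hc, map_ratCast, map_ratCast, map_ratCast]

end H55B
end

-- from Lib.H35P.A3
section

namespace H35P

/-! Chunk A3: the Eisenstein sums of a general lattice (after Lib/H55N/E1.lean). -/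

/-- The correction term. -/
noncomputable def a3_k (R : ℝ) (y : ℂ) : ℂ := (starRingEnd ℂ) y / ((R ^ 2 + ‖y‖ ^ 2 : ℝ) : ℂ)

theorem a3_term (R : ℝ) (hR : 0 < R) (y : ℂ) :
    y⁻¹ * ((R ^ 2 / (R ^ 2 + ‖y‖ ^ 2) : ℝ) : ℂ) = y⁻¹ - a3_k R y := by
  by_cases hy : y = 0
  · simp [hy, a3_k]
  · have h1 : (R ^ 2 + ‖y‖ ^ 2 : ℝ) ≠ 0 := by positivity
    have h1' : ((R ^ 2 + ‖y‖ ^ 2 : ℝ) : ℂ) ≠ 0 := by exact_mod_cast h1
    have h2 : y * (starRingEnd ℂ) y = ((‖y‖ ^ 2 : ℝ) : ℂ) := by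
      rw [Complex.mul_conj, Complex.normSq_eq_norm_sq]
    unfold a3_k
    rw [Complex.ofReal_div]
    have h3 : ((R ^ 2 : ℝ) : ℂ) = ((R ^ 2 + ‖y‖ ^ 2 : ℝ) : ℂ) - y * (starRingEnd ℂ) y := by
      rw [h2]
      push_cast
      ring
    rw [h3, sub_div, div_self h1']
    field_simp

theorem a3_low (R : ℝ) (hR : 1 ≤ R) (y w : ℂ) :
    (1 + ‖y‖) ^ 2 ≤ 4 * (1 + ‖w‖ ^ 2) * (R ^ 2 + ‖y + w‖ ^ 2) := by
  have hR1 : 1 ≤ R ^ 2 := by nlinarith
  have h1 : ‖y‖ ≤ ‖y + w‖ + ‖w‖ := by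
    have := norm_sub_le (y + w) w
    rwa [add_sub_cancel_right] at this
  have h2 : ‖y‖ ^ 2 ≤ 2 * ‖y + w‖ ^ 2 + 2 * ‖w‖ ^ 2 := by
    calc ‖y‖ ^ 2 ≤ (‖y + w‖ + ‖w‖) ^ 2 := pow_le_pow_left₀ (norm_nonneg y) h1 2
      _ ≤ 2 * ‖y + w‖ ^ 2 + 2 * ‖w‖ ^ 2 := by linarith [sq_nonneg (‖y + w‖ - ‖w‖)]
  have h3 : (1 + ‖y‖) ^ 2 ≤ 2 * (1 + ‖y‖ ^ 2) := by linarith [sq_nonneg (1 - ‖y‖)]
  have h4 : 0 ≤ ‖w‖ ^ 2 * ‖y + w‖ ^ 2 := by positivity
  have h5 : ‖w‖ ^ 2 * 1 ≤ ‖w‖ ^ 2 * R ^ 2 := by gcongr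
  have h6 : 4 * (1 + ‖w‖ ^ 2) * (R ^ 2 + ‖y + w‖ ^ 2) = 4 * R ^ 2 + 4 * ‖y + w‖ ^ 2 +
    4 * (‖w‖ ^ 2 * R ^ 2) + 4 * (‖w‖ ^ 2 * ‖y + w‖ ^ 2) := by ring
  rw [h6]
  have h7 : 0 ≤ ‖y + w‖ ^ 2 := by positivity
  linarith

theorem a3_sd (R : ℝ) (hR : 1 ≤ R) (y w : ℂ) :
    ‖a3_k R (y + w) + a3_k R (y - w) - 2 * a3_k R y‖ ≤
      (14 * ‖w‖ ^ 2 + 2 * (‖w‖ ^ 2) ^ 2) * (16 * (1 + ‖w‖ ^ 2) ^ 2) * (1 + ‖y‖) ^ (-3 : ℝ) := by
  set q : ℝ := R ^ 2 + ‖y‖ ^ 2 with hq
  set qp : ℝ := R ^ 2 + ‖y + w‖ ^ 2 with hqp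
  set qm : ℝ := R ^ 2 + ‖y - w‖ ^ 2 with hqm
  set s : ℝ := 2 * (y * (starRingEnd ℂ) w).re with hs
  set d : ℝ := ‖w‖ ^ 2 with hd
  have hd0 : 0 ≤ d := by positivity
  have hR1 : 1 ≤ R ^ 2 := by nlinarith
  have q0 : 0 < q := by positivity
  have qp0 : 0 < qp := by positivity
  have qm0 : 0 < qm := by positivity
  have e1 : qp = q + d + s := by
    rw [hqp, hq, hd, hs, Complex.sq_norm, Complex.sq_norm, Complex.sq_norm,
      Complex.normSq_add]
    ring
  have e2 : qm = q + d - s := by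
    rw [hqm, hq, hd, hs, Complex.sq_norm, Complex.sq_norm, Complex.sq_norm,
      Complex.normSq_sub]
    ring
  have hsb : |s| ≤ 2 * (‖y‖ * ‖w‖) := by
    rw [hs, abs_mul, abs_two]
    have := Complex.abs_re_le_norm (y * (starRingEnd ℂ) w)
    rw [norm_mul, Complex.norm_conj] at this
    linarith
  have cq : (q : ℂ) ≠ 0 := by exact_mod_cast q0.ne'
  have cqp : (qp : ℂ) ≠ 0 := by exact_mod_cast qp0.ne'
  have cqm : (qm : ℂ) ≠ 0 := by exact_mod_cast qm0.ne'
  have key : a3_k R (y + w) + a3_k R (y - w) - 2 * a3_k R y =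
      (starRingEnd ℂ) y * ((-2 * q * d - 2 * d ^ 2 + 2 * s ^ 2) / (q * qp * qm) : ℝ) -
        (starRingEnd ℂ) w * ((2 * s / (qp * qm) : ℝ) : ℂ) := by
    unfold a3_k
    rw [← hq, ← hqp, ← hqm]
    rw [map_add, map_sub]
    push_cast
    have c1 : (qp : ℂ) = q + d + s := by rw [e1]; push_cast; ring
    have c2 : (qm : ℂ) = q + d - s := by rw [e2]; push_cast; ring
    rw [c1] at cqp
    rw [c2] at cqm
    rw [c1, c2]
    field_simp
    ring
  rw [key]
  have hy2 : ‖y‖ ^ 2 ≤ q := by rw [hq]; nlinarith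
  have hs2 : s ^ 2 ≤ 4 * q * d := by
    have h1 : s ^ 2 ≤ (2 * (‖y‖ * ‖w‖)) ^ 2 := by
      rw [← sq_abs s]
      exact pow_le_pow_left₀ (abs_nonneg _) hsb 2
    calc s ^ 2 ≤ 4 * (‖y‖ ^ 2) * d := by rw [hd]; nlinarith
      _ ≤ 4 * q * d := by gcongr
  have hq1 : 1 ≤ q := by rw [hq]; nlinarith [sq_nonneg ‖y‖]
  have b1 : |(-2 * q * d - 2 * d ^ 2 + 2 * s ^ 2)| ≤ q * (10 * d + 2 * d ^ 2) := by
    rw [abs_le]
    have h5 : d ^ 2 ≤ q * d ^ 2 := by nlinarith [sq_nonneg d]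
    have h6 : 0 ≤ q * d := by positivity
    have h7 : 0 ≤ s ^ 2 := sq_nonneg s
    constructor
    · nlinarith
    · nlinarith [sq_nonneg d]
  have n1 : ‖(starRingEnd ℂ) y * ((-2 * q * d - 2 * d ^ 2 + 2 * s ^ 2) / (q * qp * qm) : ℝ)‖ ≤
      ‖y‖ * ((10 * d + 2 * d ^ 2) / (qp * qm)) := by
    rw [norm_mul, Complex.norm_conj, Complex.norm_real, Real.norm_eq_abs, abs_div]
    have h8 : 0 < q * qp * qm := by positivity
    rw [abs_of_pos h8]
    have h9 : (10 * d + 2 * d ^ 2) / (qp * qm) = q * (10 * d + 2 * d ^ 2) / (q * qp * qm) := by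
      field_simp
    rw [h9]
    gcongr
  have n2 : ‖(starRingEnd ℂ) w * ((2 * s / (qp * qm) : ℝ) : ℂ)‖ ≤
      ‖y‖ * (4 * d / (qp * qm)) := by
    rw [norm_mul, Complex.norm_conj, Complex.norm_real, Real.norm_eq_abs, abs_div]
    have h8 : 0 < qp * qm := by positivity
    rw [abs_of_pos h8, abs_mul, abs_two]
    have h9 : ‖w‖ * (2 * |s|) ≤ ‖y‖ * (4 * d) := by
      rw [hd]
      nlinarith [norm_nonneg w, norm_nonneg y]
    calc ‖w‖ * (2 * |s| / (qp * qm)) = ‖w‖ * (2 * |s|) / (qp * qm) := by ring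
      _ ≤ ‖y‖ * (4 * d) / (qp * qm) := by gcongr
      _ = _ := by ring
  have low1 : (1 + ‖y‖) ^ 2 ≤ 4 * (1 + d) * qp := a3_low R hR y w
  have low2 : (1 + ‖y‖) ^ 2 ≤ 4 * (1 + d) * qm := by
    have := a3_low R hR y (-w)
    rwa [norm_neg, ← sub_eq_add_neg] at this
  have hy0 : 0 < 1 + ‖y‖ := by positivity
  have low : (1 + ‖y‖) ^ 4 ≤ 16 * (1 + d) ^ 2 * (qp * qm) := by
    calc (1 + ‖y‖) ^ 4 = (1 + ‖y‖) ^ 2 * (1 + ‖y‖) ^ 2 := by ring
      _ ≤ (4 * (1 + d) * qp) * (4 * (1 + d) * qm) := by gcongr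
      _ = _ := by ring
  have hr : (1 + ‖y‖) ^ (-3 : ℝ) = 1 / (1 + ‖y‖) ^ 3 := by
    rw [Real.rpow_neg hy0.le]
    norm_num
  have hfin : ‖y‖ * ((14 * d + 2 * d ^ 2) / (qp * qm)) ≤
      (14 * d + 2 * d ^ 2) * (16 * (1 + d) ^ 2) * (1 + ‖y‖) ^ (-3 : ℝ) := by
    rw [hr, mul_one_div, ← mul_div_assoc, div_le_div_iff₀ (by positivity) (by positivity)]
    have h5 : ‖y‖ * (1 + ‖y‖) ^ 3 ≤ (1 + ‖y‖) ^ 4 := by
      have : (1 + ‖y‖) ^ 4 = (1 + ‖y‖) * (1 + ‖y‖) ^ 3 := by ring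
      rw [this]
      gcongr
      linarith
    have h6 : 0 ≤ 14 * d + 2 * d ^ 2 := by positivity
    calc ‖y‖ * (14 * d + 2 * d ^ 2) * (1 + ‖y‖) ^ 3
        = (14 * d + 2 * d ^ 2) * (‖y‖ * (1 + ‖y‖) ^ 3) := by ring
      _ ≤ (14 * d + 2 * d ^ 2) * (16 * (1 + d) ^ 2 * (qp * qm)) :=
          mul_le_mul_of_nonneg_left (h5.trans low) h6
      _ = _ := by ring
  calc _ ≤ ‖y‖ * ((10 * d + 2 * d ^ 2) / (qp * qm)) + ‖y‖ * (4 * d / (qp * qm)) :=
        (norm_sub_le _ _).trans (add_le_add n1 n2)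
    _ = ‖y‖ * ((14 * d + 2 * d ^ 2) / (qp * qm)) := by ring
    _ ≤ _ := hfin

variable (L : PeriodPair)

theorem a3_fin (r : ℝ) : {l : L.lattice | ‖(l : ℂ)‖ ≤ r}.Finite := by
  refine (isCompact_iff_finite.mp (isCompact_closedBall (0 : L.lattice) r)).subset ?_
  intro l hl
  rw [Metric.mem_closedBall, dist_zero_right]
  exact hl

theorem a3_base {r : ℝ} (hr : 2 < r) : Summable (fun l : L.lattice => (1 + ‖(l : ℂ)‖) ^ (-r)) := by
  have h1 : Summable fun z : L.lattice => ‖(z : ℂ)‖ ^ (-r) := by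
    refine ZLattice.summable_norm_rpow (L := L.lattice) (-r) ?_
    rw [PeriodPair.finrank_lattice]
    push_cast
    linarith
  refine h1.of_norm_bounded_eventually ?_
  rw [Filter.eventually_cofinite]
  refine Set.Finite.subset (Set.finite_singleton (0 : L.lattice)) ?_
  intro x hx
  rw [Set.mem_singleton_iff]
  by_contra hne
  apply hx
  have h2 : 0 < ‖(x : ℂ)‖ := norm_pos_iff.2 (fun h => hne (Subtype.ext h))
  rw [Real.norm_of_nonneg (by positivity)]
  exact Real.rpow_le_rpow_of_nonpos h2 (by linarith) (by linarith)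

theorem a3_lowl (w : ℂ) (x : L.lattice) (h : 2 * ‖w‖ + 1 ≤ ‖(x : ℂ)‖) :
    (1 + ‖(x : ℂ)‖) / 4 ≤ ‖w + x‖ := by
  have h1 : ‖(x : ℂ)‖ ≤ ‖w + x‖ + ‖w‖ := by
    calc ‖(x : ℂ)‖ = ‖(w + x) - w‖ := by ring_nf
      _ ≤ ‖w + x‖ + ‖w‖ := norm_sub_le _ _
  have h3 : 0 ≤ ‖w‖ := norm_nonneg w
  linarith

/-- Summability along a coset of the lattice. -/
theorem a3_summable (a : ℂ) : Summable fun x : L.lattice => (1 + ‖a + x‖) ^ (-3 : ℝ) := by
  have h1 : Summable (fun x : L.lattice => 64 * (1 + ‖(x : ℂ)‖) ^ (-(3 : ℝ))) :=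
    (a3_base L (by norm_num)).mul_left _
  refine h1.of_norm_bounded_eventually ?_
  rw [Filter.eventually_cofinite]
  refine (a3_fin L (2 * ‖a‖ + 1)).subset ?_
  intro x hx
  simp only [Set.mem_ofPred_eq] at hx ⊢
  by_contra hne
  apply hx
  have h2 := a3_lowl L a x (not_le.mp hne).le
  have h3 : 0 < 1 + ‖(x : ℂ)‖ := by positivity
  rw [Real.norm_eq_abs, abs_of_nonneg (by positivity)]
  have h5 : 64 * (1 + ‖(x : ℂ)‖) ^ (-(3 : ℝ)) = ((1 + ‖(x : ℂ)‖) / 4) ^ (-(3 : ℝ)) := by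
    rw [Real.rpow_neg h3.le, Real.rpow_neg (by positivity)]
    norm_num
    field_simp
    norm_num
  rw [h5]
  exact Real.rpow_le_rpow_of_nonpos (by positivity) (by linarith) (by norm_num)

/-- Second differences of the correction terms. -/
noncomputable def a3_d (R : ℝ) (a w : ℂ) (x : L.lattice) : ℂ :=
  a3_k R (a + w + x) + a3_k R (a - w + x) - 2 * a3_k R (a + x)

theorem a3_d_le (R : ℝ) (hR : 1 ≤ R) (a w : ℂ) (x : L.lattice) : ‖a3_d L R a w x‖ ≤
    (14 * ‖w‖ ^ 2 + 2 * (‖w‖ ^ 2) ^ 2) * (16 * (1 + ‖w‖ ^ 2) ^ 2) *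
      (1 + ‖a + x‖) ^ (-3 : ℝ) := by
  have h := a3_sd R hR (a + x) w
  have e1 : a + x + w = a + w + x := by ring
  have e2 : a + x - w = a - w + x := by ring
  rw [e1, e2] at h
  exact h

theorem a3_d_summable (R : ℝ) (hR : 1 ≤ R) (a w : ℂ) : Summable (a3_d L R a w) :=
  ((a3_summable L a).mul_left _).of_norm_bounded (a3_d_le L R hR a w)

theorem a3_k_tendsto (y : ℂ) : Filter.Tendsto (fun R : ℝ => a3_k R y) Filter.atTop (nhds 0) := by
  unfold a3_k
  have h1 : Filter.Tendsto (fun R : ℝ => R ^ 2 + ‖y‖ ^ 2) Filter.atTop Filter.atTop :=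
    Filter.tendsto_atTop_add_const_right _ _ (Filter.tendsto_pow_atTop two_ne_zero)
  have h2 : Filter.Tendsto (fun R : ℝ => (((R ^ 2 + ‖y‖ ^ 2)⁻¹ : ℝ) : ℂ)) Filter.atTop
      (nhds ((0 : ℝ) : ℂ)) :=
    (Complex.continuous_ofReal.tendsto _).comp (tendsto_inv_atTop_zero.comp h1)
  have h3 := h2.const_mul ((starRingEnd ℂ) y)
  rw [Complex.ofReal_zero, mul_zero] at h3
  refine h3.congr fun R => ?_
  rw [Complex.ofReal_inv, div_eq_mul_inv]

theorem a3_d_tendsto (a w : ℂ) :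
    Filter.Tendsto (fun R : ℝ => ∑' x : L.lattice, a3_d L R a w x) Filter.atTop (nhds 0) := by
  have h0 : (∑' _ : L.lattice, (0 : ℂ)) = 0 := tsum_zero
  rw [← h0]
  refine tendsto_tsum_of_dominated_convergence
    (((a3_summable L a).mul_left _)) (fun x => ?_) ?_ (bound := fun x : L.lattice =>
      (14 * ‖w‖ ^ 2 + 2 * (‖w‖ ^ 2) ^ 2) * (16 * (1 + ‖w‖ ^ 2) ^ 2) *
      (1 + ‖a + x‖) ^ (-3 : ℝ))
  · have := ((a3_k_tendsto (a + w + x)).add (a3_k_tendsto (a - w + x))).sub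
      ((a3_k_tendsto (a + x)).const_mul 2)
    simp only [add_zero, mul_zero, sub_zero] at this
    exact this
  · filter_upwards [Filter.eventually_ge_atTop 1] with R hR x
    exact a3_d_le L R hR a w x

theorem a3_sR_aux (R : ℝ) (hR : 0 < R) (z : ℂ) : Summable fun x : L.lattice =>
    ‖(z + x)⁻¹ * ((R ^ 2 / (R ^ 2 + ‖z + x‖ ^ 2) : ℝ) : ℂ)‖ := by
  have h1 : Summable (fun x : L.lattice => 64 * R ^ 2 * (1 + ‖(x : ℂ)‖) ^ (-(3 : ℝ))) :=
    (a3_base L (by norm_num)).mul_left _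
  refine h1.of_norm_bounded_eventually ?_
  rw [Filter.eventually_cofinite]
  refine (a3_fin L (2 * ‖z‖ + 1)).subset ?_
  intro x hx
  simp only [Set.mem_ofPred_eq] at hx ⊢
  by_contra hne
  apply hx
  have h2 := a3_lowl L z x (not_le.mp hne).le
  have h3 : 0 < 1 + ‖(x : ℂ)‖ := by positivity
  have h4 : 0 < ‖z + x‖ := by linarith
  rw [norm_norm, norm_mul, norm_inv, Complex.norm_real, Real.norm_eq_abs,
    abs_of_nonneg (by positivity)]
  have h5 : (1 + ‖(x : ℂ)‖) ^ (-(3 : ℝ)) = 1 / (1 + ‖(x : ℂ)‖) ^ 3 := by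
    rw [Real.rpow_neg h3.le]
    norm_num
  rw [h5]
  calc ‖z + x‖⁻¹ * (R ^ 2 / (R ^ 2 + ‖z + x‖ ^ 2))
      ≤ ((1 + ‖(x : ℂ)‖) / 4)⁻¹ * (R ^ 2 / (((1 + ‖(x : ℂ)‖) / 4) ^ 2)) := by
        gcongr
        nlinarith [sq_nonneg R]
    _ = 64 * R ^ 2 * (1 / (1 + ‖(x : ℂ)‖) ^ 3) := by
        field_simp
        norm_num

theorem a3_sR_summable (R : ℝ) (hR : 0 < R) (z : ℂ) : Summable fun x : L.lattice =>
    (z + x)⁻¹ * ((R ^ 2 / (R ^ 2 + ‖z + x‖ ^ 2) : ℝ) : ℂ) :=
  (a3_sR_aux L R hR z).of_norm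

theorem a3_split (R : ℝ) (hR : 0 < R) (a w : ℂ) (x : L.lattice) :
    tT L a w x = ((a + w + x)⁻¹ *
        ((R ^ 2 / (R ^ 2 + ‖a + w + x‖ ^ 2) : ℝ) : ℂ) +
      (a - w + x)⁻¹ * ((R ^ 2 / (R ^ 2 + ‖a - w + x‖ ^ 2) : ℝ) : ℂ) -
      2 * ((a + x)⁻¹ * ((R ^ 2 / (R ^ 2 + ‖a + x‖ ^ 2) : ℝ) : ℂ))) +
      a3_d L R a w x := by
  rw [a3_term R hR, a3_term R hR, a3_term R hR]
  unfold tT a3_d
  ring

theorem tT_summable (a w : ℂ) : Summable (tT L a w) := by
  have h1 := (((a3_sR_summable L 1 one_pos (a + w)).add (a3_sR_summable L 1 one_pos (a - w))).sub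
    ((a3_sR_summable L 1 one_pos a).mul_left 2)).add (a3_d_summable L 1 le_rfl a w)
  refine h1.congr fun x => ?_
  exact (a3_split L 1 one_pos a w x).symm

theorem a3_tsum (R : ℝ) (hR : 1 ≤ R) (a w : ℂ) : ∑' x, tT L a w x =
    sL L R (a + w) + sL L R (a - w) - 2 * sL L R a + ∑' x, a3_d L R a w x := by
  have hR0 : 0 < R := by linarith
  have s1 := a3_sR_summable L R hR0 (a + w)
  have s2 := a3_sR_summable L R hR0 (a - w)
  have s3 := (a3_sR_summable L R hR0 a).mul_left 2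
  unfold sL
  rw [← tsum_mul_left, ← s1.tsum_add s2, ← (s1.add s2).tsum_sub s3,
    ← ((s1.add s2).sub s3).tsum_add (a3_d_summable L R hR a w)]
  exact tsum_congr fun x => a3_split L R hR0 a w x

theorem sL_lim (a w : ℂ) : Filter.Tendsto (fun R : ℝ => sL L R (a + w) + sL L R (a - w) - 2 * sL L R a)
    Filter.atTop (nhds (T2 L a w)) := by
  have h1 : Filter.Tendsto (fun R : ℝ => (∑' x, tT L a w x) - ∑' x, a3_d L R a w x) Filter.atTop
      (nhds ((∑' x, tT L a w x) - 0)) := tendsto_const_nhds.sub (a3_d_tendsto L a w)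
  rw [sub_zero] at h1
  unfold T2
  refine h1.congr' ?_
  filter_upwards [Filter.eventually_ge_atTop 1] with R hR
  rw [a3_tsum L R hR a w]
  ring

theorem sL_per (R : ℝ) (z l : ℂ) (hl : l ∈ L.lattice) : sL L R (z + l) = sL L R z := by
  unfold sL
  rw [← (Equiv.addLeft (⟨l, hl⟩ : L.lattice)).tsum_eq (fun x : L.lattice => (z + x)⁻¹ *
    ((R ^ 2 / (R ^ 2 + ‖z + x‖ ^ 2) : ℝ) : ℂ))]
  refine tsum_congr fun x => ?_
  have e1 : ((Equiv.addLeft (⟨l, hl⟩ : L.lattice)) x : ℂ) = l + x := rfl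
  rw [e1]
  have e2 : z + l + (x : ℂ) = z + (l + x) := by ring
  rw [e2]

theorem sL_neg (R : ℝ) (z : ℂ) : sL L R (-z) = -sL L R z := by
  unfold sL
  rw [← (Equiv.neg L.lattice).tsum_eq (fun x : L.lattice => (-z + x)⁻¹ *
    ((R ^ 2 / (R ^ 2 + ‖-z + x‖ ^ 2) : ℝ) : ℂ)), ← tsum_neg]
  refine tsum_congr fun x => ?_
  have e1 : ((Equiv.neg L.lattice) x : ℂ) = -(x : ℂ) := rfl
  rw [e1]
  have e2 : -z + -(x : ℂ) = -(z + x) := by ring
  rw [e2, norm_neg, inv_neg]
  ring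

end H35P
end
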