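import Mathlib

/-! Merged copies (to shorten the build) of Lib.H16C.Defs, Lib.H16C.D0, Lib.H16C.D1, Lib.H16C.D2, Lib.H16C.RU, Lib.H55R.Defs, Lib.H55B.G2, Lib.H55N.R6, Lib.H35P.A1, Lib.H35P.A2, Lib.H55B.H2, Lib.H35P.Red, Lib.H35P.R1, Lib.H35P.R2, Lib.H55N.B1, Lib.H35P.R3. -/

-- from Lib.H16C.Defs
section

/-!
# H16C: working definitions

Points of the short Weierstrass curve `y² = x³ + a₄ x + a₆`, reduction at a valuation, values of the
division polynomials, the action of the Galois group, corestriction of cocycles, Kummer characters,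
the set-up (`Setup`, `Bad`, `Fam`) and the cocycles `w`.  See PROOF.md.
-/

open WeierstrassCurve NumberField IsDedekindDomain

namespace H16C

section Pts

variable {F : Type*} [Field F] {W : WeierstrassCurve.Affine F}

/-- the `x`-coordinate of a point (`0` at the point at infinity) -/
def xc : W.Point → F
  | 0 => 0
  | .some x _ _ => x

/-- the `y`-coordinate of a point (`0` at the point at infinity) -/
def yc : W.Point → F
  | 0 => 0
  | .some _ y _ => y

/-- `E₁(v)`: the points that reduce to `O` -/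
def InE1 {Γ : Type*} [LinearOrderedCommGroupWithZero Γ] (v : Valuation F Γ) : W.Point → Prop
  | 0 => True
  | .some x _ _ => 1 < v x

variable (W) in
/-- the value of the `n`-th division polynomial at `(x, y)` (for a short Weierstrass curve) -/
noncomputable def psi (x y : F) (n : ℤ) : F :=
  normEDS (2 * y) (W.Ψ₃.eval x) (W.preΨ₄.eval x) n

end Pts

section Cor

variable {G : Type*} [Group G] {M : Type*} [AddCommGroup M] (ρ : G →* AddMonoid.End M)
  (N : Subgroup G) [N.FiniteIndex]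

/-- the corestriction to `G` of `f : N → M` (with the section `Quotient.out` of `G → G ⧸ N`) -/
noncomputable def cor (f : G → M) (g : G) : M :=
  ∑ᶠ x : G ⧸ N, ρ x.out (f (x.out⁻¹ * g * (g⁻¹ • x).out))

end Cor

section Kummer

variable {Ω : Type*} [Field Ω] {k : Type*} [Field k] [Algebra k Ω] {n : ℕ}

open Classical in
/-- the Kummer character: `g β = ζ ^ (kap ζ β g) * β` -/
noncomputable def kap (ζ β : Ω) (g : Ω ≃ₐ[k] Ω) : ZMod n :=
  if h : ∃ j : ZMod n, g β = ζ ^ j.val * β then h.choose else 0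

end Kummer

section Places

variable {k : Type*} [Field k] {Ω : Type*} [Field Ω] [Algebra k Ω]

/-- `g` acts trivially on the residue ring of `F` at the place `A` -/
def Inert (A : ValuationSubring Ω) (F : IntermediateField k Ω) (g : Ω ≃ₐ[k] Ω) : Prop :=
  ∀ x ∈ F, A.valuation x ≤ 1 → A.valuation (g x - x) < 1

/-- `g` acts as `x ↦ x ^ q` on the residue ring of `F` at the place `A` -/
def Frob (A : ValuationSubring Ω) (F : IntermediateField k Ω) (q : ℕ) (g : Ω ≃ₐ[k] Ω) : Prop :=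
  ∀ x ∈ F, A.valuation x ≤ 1 → A.valuation (g x - x ^ q) < 1

end Places

section Main

variable {k : Type*} [Field k] {Ω : Type*} [Field Ω] [Algebra k Ω] [DecidableEq Ω]
  (W : WeierstrassCurve.Affine k)

/-- the points over the field `Ω` of the curve `W` over `k` (Mathlib's type of points) -/
abbrev Pt (W : WeierstrassCurve.Affine k) (Ω : Type*) [Field Ω] [Algebra k Ω] : Type _ :=
  (WeierstrassCurve.Affine.baseChange W Ω).Point

instance short_baseChange {k : Type*} [Field k] (W : WeierstrassCurve.Affine k)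
    [W.IsShortNF] (Ω : Type*) [Field Ω] [Algebra k Ω] :
    (WeierstrassCurve.Affine.baseChange W Ω).IsShortNF where
  a₁ := by
    change algebraMap k Ω W.a₁ = 0
    rw [a₁_of_isShortNF, map_zero]
  a₂ := by
    change algebraMap k Ω W.a₂ = 0
    rw [a₂_of_isShortNF, map_zero]
  a₃ := by
    change algebraMap k Ω W.a₃ = 0
    rw [a₃_of_isShortNF, map_zero]

instance elliptic_baseChange {k : Type*} [Field k] (W : WeierstrassCurve.Affine k)
    [W.IsElliptic] (Ω : Type*) [Field Ω] [Algebra k Ω] :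
    (WeierstrassCurve.Affine.baseChange W Ω).IsElliptic :=
  inferInstanceAs (WeierstrassCurve.map W (algebraMap k Ω)).IsElliptic

/-- the action of `Gal(Ω/k)` on `E(Ω)` -/
noncomputable def rho : (Ω ≃ₐ[k] Ω) →* AddMonoid.End (Pt W Ω) where
  toFun g := WeierstrassCurve.Affine.Point.map (g : Ω →ₐ[k] Ω)
  map_one' := by
    ext P
    cases P <;> rfl
  map_mul' g h := by
    ext P
    cases P <;> rfl

/-- the set-up: `L = k(E[2n], μ_n, √-1)` -/
structure Setup (Ω : Type*) [Field Ω] [Algebra k Ω] [DecidableEq Ω] (n : ℕ) where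
  /-- the field `L` -/
  L : IntermediateField k Ω
  fin : FiniteDimensional k L
  stab : ∀ (g : Ω ≃ₐ[k] Ω) (x : Ω), x ∈ L → g x ∈ L
  /-- a primitive `n`-th root of unity -/
  ζ : Ω
  hζ : IsPrimitiveRoot ζ n
  /-- a square root of `-1` -/
  I : Ω
  hI : I ^ 2 = -1
  /-- a point of exact order `n` -/
  P0 : Pt W Ω
  hP0 : addOrderOf P0 = n
  fix : ∀ g ∈ L.fixingSubgroup, g ζ = ζ ∧ g I = I ∧
    ∀ P : Pt W Ω, (2 * n) • P = 0 → rho W g P = P
  gen : ∀ g : Ω ≃ₐ[k] Ω, g ζ = ζ → g I = I →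
    (∀ P : Pt W Ω, (2 * n) • P = 0 → rho W g P = P) → g ∈ L.fixingSubgroup

/-- `b` contains all the bad primes -/
structure Bad (Ω : Type*) [Field Ω] [Algebra k Ω] (n b : ℕ) : Prop where
  ne : b ≠ 0
  dvd : 6 * n ∣ b
  good : ∀ A : ValuationSubring Ω, A.valuation (b : Ω) = 1 →
    A.valuation (algebraMap k Ω W.a₄) ≤ 1 ∧ A.valuation (algebraMap k Ω W.a₆) ≤ 1 ∧
      A.valuation (algebraMap k Ω W.Δ) = 1

variable {W} {n : ℕ}

namespace Setup

variable (S : Setup W Ω n)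

/-- the open normal subgroup `Gal(Ω/L)` -/
abbrev N : Subgroup (Ω ≃ₐ[k] Ω) := S.L.fixingSubgroup

/-- the homomorphism `ℤ/n → E(Ω)`, `1 ↦ P0` -/
noncomputable def e : ZMod n →+ Pt W Ω :=
  ZMod.lift n ⟨zmultiplesHom _ S.P0, by
    have h : n • S.P0 = 0 := by
      have := addOrderOf_nsmul_eq_zero S.P0
      rwa [S.hP0] at this
    simpa using h⟩

/-- the places of `Ω` above `ℓ` at which `a` has the valuation of `ℓ`, `L` has the residue field `𝔽_ℓ`
and is unramified over `ℓ`, and at which the conjugates of `a` are units -/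
structure Loc (l : ℕ) (a : Ω) (A : ValuationSubring Ω) : Prop where
  lt : A.valuation (l : Ω) < 1
  eq : A.valuation a = A.valuation (l : Ω)
  res : ∀ z ∈ S.L, A.valuation z ≤ 1 → ∃ m : ℤ, A.valuation (z - m) < 1
  unr : ∀ z ∈ S.L, z ≠ 0 → ∃ j : ℤ, A.valuation z = A.valuation (l : Ω) ^ j
  conj : ∀ g : Ω ≃ₐ[k] Ω, g ∉ S.N → A.valuation (g a) = 1

end Setup

/-- the family of the primes `ℓ ∈ T` and of the elements `a ℓ = (α ℓ) ^ n` of `L` -/
structure Fam (S : Setup W Ω n) (b : ℕ) where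
  /-- the finite set of primes -/
  T : Finset ℕ
  /-- the auxiliary prime -/
  l₁ : ℕ
  /-- the elements of `L` -/
  a : ℕ → Ω
  /-- their `n`-th roots -/
  α : ℕ → Ω
  prime₁ : l₁.Prime
  prime : ∀ l ∈ T, l.Prime
  not_mem : l₁ ∉ T
  good₁ : ¬ l₁ ∣ b
  good : ∀ l ∈ T, ¬ l ∣ b
  mem : ∀ l ∈ T, a l ∈ S.L
  ne : ∀ l ∈ T, a l ≠ 0
  pow : ∀ l ∈ T, α l ^ n = a l
  val : ∀ l ∈ T, ∀ A : ValuationSubring Ω, A.valuation (a l) = 1 ∨
    (A.valuation (l : Ω) < 1 ∧ A.valuation (a l) = A.valuation (l : Ω)) ∨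
    (A.valuation (l₁ : Ω) < 1 ∧ A.valuation (a l) * A.valuation (l₁ : Ω) = 1)
  one : ∀ l ∈ T, ∀ A : ValuationSubring Ω, A.valuation (b : Ω) < 1 →
    A.valuation (a l - 1) ≤ A.valuation (b : Ω) ^ (n + 1)
  loc : ∀ l ∈ T, ∃ A : ValuationSubring Ω, S.Loc l (a l) A

/-- `d` is admissible for the family: it has the valuation of `ℓ` at all the places above
`ℓ ∈ T ∪ {l₁}` -/
def Fam.Adm {S : Setup W Ω n} {b : ℕ} (Φ : Fam S b) (d : ℕ) : Prop :=
  d ≠ 0 ∧ ∀ A : ValuationSubring Ω, ∀ l ∈ insert Φ.l₁ Φ.T,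
    A.valuation (l : Ω) < 1 → A.valuation (d : Ω) = A.valuation (l : Ω)

variable {S : Setup W Ω n} {b : ℕ}

open Classical in
/-- the homomorphism `N → E[n]` attached to `y` -/
noncomputable def Fam.f (Φ : Fam S b) (y : Φ.T → ZMod n) (g : Ω ≃ₐ[k] Ω) : Pt W Ω :=
  S.e (∑ l : Φ.T, y l * kap S.ζ (Φ.α l) g)

/-- the cocycle `w_y : Gal(Ω/k) → E[n]` -/
noncomputable def Fam.w (Φ : Fam S b) [S.N.FiniteIndex] (y : Φ.T → ZMod n) (g : Ω ≃ₐ[k] Ω) :
    Pt W Ω :=
  cor (rho W) S.N (Φ.f y) g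

/-- the restriction of `w_y` to `Gal(Ω/k(δ))` is the coboundary of `Q` -/
def Fam.Triv (Φ : Fam S b) [S.N.FiniteIndex] (y : Φ.T → ZMod n) (δ : Ω) (Q : Pt W Ω) : Prop :=
  ∀ g : Ω ≃ₐ[k] Ω, g δ = δ → Φ.w y g = rho W g Q - Q

end Main

end H16C
end

-- from Lib.H16C.D0
section

/-!
# D0 (S): the values of the division polynomials

`psi W x y n = normEDS (2y) (Ψ₃(x)) (preΨ₄(x)) n`, `W` short, `(x, y)` on the curve.
`psi_sq`: by definition (Mathlib) `normEDS b c d n = preNormEDS (b^4) c d n * (if Even n then b else 1)`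
and `W.preΨ n = preNormEDS (Ψ₂Sq ^ 2) Ψ₃ preΨ₄ n`, `W.ΨSq n = preΨ n ^ 2 * (if Even n then Ψ₂Sq else 1)`;
evaluation at `x` is a ring homomorphism (`map_preNormEDS`) and
`Ψ₂Sq(x) = 4 x³ + b₂ x² + 2 b₄ x + b₆ = 4 (x³ + a₄ x + a₆) = (2y)²`.
`psi_phi`: `W.Φ n = X * ΨSq n - preΨ (n+1) * preΨ (n-1) * (if Even n then 1 else Ψ₂Sq)`; if `n` is even
then `n ± 1` are odd and `psi (n±1) = preΨ (n±1)(x)`; if `n` is odd then
`psi (n+1) psi (n-1) = preΨ(n+1)(x) preΨ(n-1)(x) (2y)²`.
`psi_even`, `psi_odd` are `normEDS_even`, `normEDS_odd`; `psi_three`, `psi_four`: unfold `Ψ₃`,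
`preΨ₄` (`b₂ = 0, b₄ = 2 a₄, b₆ = 4 a₆, b₈ = - a₄²`).
-/

open WeierstrassCurve Polynomial

namespace H16C

variable {F : Type*} [Field F] (W : WeierstrassCurve.Affine F) [W.IsShortNF] {x y : F}

theorem D0_pre (h : y ^ 2 = x ^ 3 + W.a₄ * x + W.a₆) (n : ℤ) :
    preNormEDS ((2 * y) ^ 4) (W.Ψ₃.eval x) (W.preΨ₄.eval x) n = (W.preΨ n).eval x := by
  have h2 : (W.Ψ₂Sq).eval x = (2 * y) ^ 2 := by
    have e : (2 * y) ^ 2 = 4 * y ^ 2 := by ring
    rw [e, h]
    simp only [Ψ₂Sq, b₂, b₄, b₆, IsShortNF.a₁, IsShortNF.a₂, IsShortNF.a₃, eval_add, eval_mul,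
      eval_pow, eval_X, eval_C]
    ring
  rw [WeierstrassCurve.preΨ, ← coe_evalRingHom, map_preNormEDS, coe_evalRingHom, eval_pow, h2]
  congr 1
  ring

theorem D0_two (h : y ^ 2 = x ^ 3 + W.a₄ * x + W.a₆) :
    (W.Ψ₂Sq).eval x = (2 * y) ^ 2 := by
  have e : (2 * y) ^ 2 = 4 * y ^ 2 := by ring
  rw [e, h]
  simp only [Ψ₂Sq, b₂, b₄, b₆, IsShortNF.a₁, IsShortNF.a₂, IsShortNF.a₃, eval_add, eval_mul,
    eval_pow, eval_X, eval_C]
  ring

theorem psi_sq (h : y ^ 2 = x ^ 3 + W.a₄ * x + W.a₆) (n : ℤ) :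
    psi W x y n ^ 2 = (W.ΨSq n).eval x := by
  rw [psi, normEDS, D0_pre W h, ΨSq]
  split_ifs with hn
  · rw [eval_mul, eval_pow, D0_two W h]
    ring
  · rw [eval_mul, eval_pow]
    simp

theorem psi_phi (h : y ^ 2 = x ^ 3 + W.a₄ * x + W.a₆) (n : ℤ) :
    x * psi W x y n ^ 2 - psi W x y (n + 1) * psi W x y (n - 1) = (W.Φ n).eval x := by
  rw [psi_sq W h, WeierstrassCurve.Φ, eval_sub, eval_mul, eval_X, eval_mul, eval_mul]
  congr 1
  rw [psi, psi, normEDS, normEDS, D0_pre W h, D0_pre W h]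
  by_cases hn : Even n
  · have h1 : ¬ Even (n + 1) := by
      rw [Int.even_add_one]
      exact not_not.mpr hn
    have h3 : ¬ Even (n - 1) := by
      rw [Int.even_sub_one]
      exact not_not.mpr hn
    rw [if_neg h1, if_neg h3, if_pos hn]
    simp
  · have h1 : Even (n + 1) := by
      rw [Int.even_add_one]
      exact hn
    have h3 : Even (n - 1) := by
      rw [Int.even_sub_one]
      exact hn
    rw [if_pos h1, if_pos h3, if_neg hn, D0_two W h]
    ring

omit [W.IsShortNF] in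
theorem psi_zero : psi W x y 0 = 0 := by
  simp [psi]

omit [W.IsShortNF] in
theorem psi_one : psi W x y 1 = 1 := by
  simp [psi]

omit [W.IsShortNF] in
theorem psi_two : psi W x y 2 = 2 * y := by
  simp [psi]

theorem psi_three : psi W x y 3 = 3 * x ^ 4 + 6 * W.a₄ * x ^ 2 + 12 * W.a₆ * x - W.a₄ ^ 2 := by
  rw [psi, normEDS_three]
  simp only [WeierstrassCurve.Ψ₃, b₂, b₄, b₆, b₈, IsShortNF.a₁, IsShortNF.a₂, IsShortNF.a₃, eval_add, eval_mul,
    eval_pow, eval_X, eval_C]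
  simp
  ring

theorem psi_four : psi W x y 4 = 4 * y * (x ^ 6 + 5 * W.a₄ * x ^ 4 + 20 * W.a₆ * x ^ 3 -
    5 * W.a₄ ^ 2 * x ^ 2 - 4 * W.a₄ * W.a₆ * x - 8 * W.a₆ ^ 2 - W.a₄ ^ 3) := by
  rw [psi, normEDS_four]
  simp only [WeierstrassCurve.preΨ₄, b₂, b₄, b₆, b₈, IsShortNF.a₁, IsShortNF.a₂, IsShortNF.a₃, eval_add, eval_mul,
    eval_pow, eval_X, eval_C]
  simp
  ring

omit [W.IsShortNF] in
theorem psi_even (m : ℤ) : psi W x y (2 * m) * (2 * y) =
    psi W x y (m - 1) ^ 2 * psi W x y m * psi W x y (m + 2) -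
      psi W x y (m - 2) * psi W x y m * psi W x y (m + 1) ^ 2 :=
  normEDS_even _ _ _ m

omit [W.IsShortNF] in
theorem psi_odd (m : ℤ) : psi W x y (2 * m + 1) =
    psi W x y (m + 2) * psi W x y m ^ 3 - psi W x y (m - 1) * psi W x y (m + 1) ^ 3 :=
  normEDS_odd _ _ _ m

end H16C
end

-- from Lib.H16C.D1
section

/-!
# D1 (S/M): the coordinates of `P ± Q` and of `2P`, elementary facts on points

Short curve: `negY x y = - y`, the addition formula: for `x₁ ≠ x₂`, `λ = (y₁ - y₂)/(x₁ - x₂)`,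
`x(P + Q) = λ² - x₁ - x₂` (Mathlib: `Point.add_some`, `slope_of_X_ne`, `addX`, `addY`).  With
`y_i² = x_i³ + a₄ x_i + a₆`:
`(x₁-x₂)² (x(P+Q) + x(P-Q)) = (y₁-y₂)² + (y₁+y₂)² - 2(x₁+x₂)(x₁-x₂)² = 2((x₁+x₂)(a₄+x₁x₂) + 2a₆)`,
the product and the difference are the same kind of computation (`field_simp`, `linear_combination`).
Doubling, `y ≠ 0`: `λ = (3x² + a₄)/(2y)`, `x(2P) = λ² - 2x`, `y(2P) = λ (x - x(2P)) - y`.
`xc_eq`: two points with the same `x` satisfy `y₁² = y₂²`, so `y₁ = y₂` or `y₁ = -y₂`.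
-/

open WeierstrassCurve

namespace H16C

variable {F : Type*} [Field F] [DecidableEq F] {W : WeierstrassCurve.Affine F} [W.IsShortNF]

omit [DecidableEq F] in
theorem D1_negY (x y : F) : W.negY x y = -y := by
  rw [WeierstrassCurve.Affine.negY, a₁_of_isShortNF, a₃_of_isShortNF]
  ring

omit [DecidableEq F] in
theorem D1_equation {x y : F} : W.Equation x y ↔ y ^ 2 = x ^ 3 + W.a₄ * x + W.a₆ := by
  rw [WeierstrassCurve.Affine.equation_iff, a₁_of_isShortNF, a₂_of_isShortNF, a₃_of_isShortNF]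
  ring_nf

omit [DecidableEq F] in
theorem eqn {P : W.Point} (hP : P ≠ 0) : yc P ^ 2 = xc P ^ 3 + W.a₄ * xc P + W.a₆ := by
  rcases P with _ | ⟨x, y, h⟩
  · exact absurd rfl hP
  · exact D1_equation.mp h.1

omit [DecidableEq F] in
theorem xc_neg (P : W.Point) : xc (-P) = xc P := by
  rcases P with _ | ⟨x, y, h⟩
  · rfl
  · rfl

omit [DecidableEq F] in
theorem yc_neg (P : W.Point) : yc (-P) = -yc P := by
  rcases P with _ | ⟨x, y, h⟩
  · change (0 : F) = -0
    rw [neg_zero]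
  · exact D1_negY x y

omit [DecidableEq F] in
theorem pt_ext {P Q : W.Point} (hP : P ≠ 0) (hQ : Q ≠ 0) (hx : xc P = xc Q) (hy : yc P = yc Q) :
    P = Q := by
  rcases P with _ | ⟨x, y, h⟩
  · exact absurd rfl hP
  rcases Q with _ | ⟨x', y', h'⟩
  · exact absurd rfl hQ
  change x = x' at hx
  change y = y' at hy
  subst hx hy
  rfl

omit [DecidableEq F] in
theorem xc_eq {P Q : W.Point} (hP : P ≠ 0) (hQ : Q ≠ 0) (h : xc P = xc Q) : P = Q ∨ P = -Q := by
  have hQ' : -Q ≠ 0 := by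
    intro h0
    apply hQ
    rw [← neg_neg Q, h0]
    rfl
  have h1 := eqn hP
  have h2 := eqn hQ
  rw [h, ← h2] at h1
  rcases sq_eq_sq_iff_eq_or_eq_neg.mp h1 with h3 | h3
  · exact Or.inl (pt_ext hP hQ h h3)
  · right
    apply pt_ext hP hQ'
    · rw [xc_neg, h]
    · rw [yc_neg, h3]

/-- the points of a curve over a field where `f(x)` is a square -/
theorem exists_pt [W.IsElliptic] (x y : F) (h : y ^ 2 = x ^ 3 + W.a₄ * x + W.a₆) :
    ∃ P : W.Point, P ≠ 0 ∧ xc P = x ∧ yc P = y :=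
  ⟨WeierstrassCurve.Affine.Point.mk (D1_equation.mpr h),
    WeierstrassCurve.Affine.Point.some_ne_zero _, rfl, rfl⟩

theorem xc_ne {P Q : W.Point} (hP : P ≠ 0) (hQ : Q ≠ 0) (h1 : P + Q ≠ 0) (h2 : P - Q ≠ 0) :
    xc P ≠ xc Q := by
  intro h
  rcases xc_eq hP hQ h with h3 | h3
  · apply h2
    rw [h3, sub_self]
  · apply h1
    rw [h3, neg_add_cancel]

theorem ne_zero_of_xc_ne {P Q : W.Point} (hP : P ≠ 0) (hQ : Q ≠ 0) (h : xc P ≠ xc Q) :
    P + Q ≠ 0 ∧ P - Q ≠ 0 := by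
  constructor
  · intro h1
    apply h
    rw [eq_neg_of_add_eq_zero_left h1, xc_neg]
  · intro h1
    apply h
    rw [sub_eq_zero.mp h1]

/-- the addition formula -/
theorem D1_xc_add {P Q : W.Point} (hP : P ≠ 0) (hQ : Q ≠ 0) (h : xc P ≠ xc Q) :
    xc (P + Q) = ((yc P - yc Q) / (xc P - xc Q)) ^ 2 - xc P - xc Q := by
  rcases P with _ | ⟨x, y, h1⟩
  · exact absurd rfl hP
  rcases Q with _ | ⟨x', y', h2⟩
  · exact absurd rfl hQ
  change x ≠ x' at h
  rw [WeierstrassCurve.Affine.Point.add_of_X_ne h]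
  change W.addX x x' (W.slope x x' y y') = ((y - y') / (x - x')) ^ 2 - x - x'
  rw [WeierstrassCurve.Affine.slope_of_X_ne h, WeierstrassCurve.Affine.addX, a₁_of_isShortNF,
    a₂_of_isShortNF]
  ring

theorem D1_xc_sub {P Q : W.Point} (hP : P ≠ 0) (hQ : Q ≠ 0) (h : xc P ≠ xc Q) :
    xc (P - Q) = ((yc P + yc Q) / (xc P - xc Q)) ^ 2 - xc P - xc Q := by
  have hQ' : -Q ≠ 0 := neg_ne_zero.mpr hQ
  have h' : xc P ≠ xc (-Q) := by rwa [xc_neg]
  rw [sub_eq_add_neg, D1_xc_add hP hQ' h', xc_neg, yc_neg, sub_neg_eq_add]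

theorem xc_add_sub {P Q : W.Point} (hP : P ≠ 0) (hQ : Q ≠ 0) (h : xc P ≠ xc Q) :
    (xc P - xc Q) ^ 2 * (xc (P + Q) + xc (P - Q)) =
      2 * ((xc P + xc Q) * (W.a₄ + xc P * xc Q) + 2 * W.a₆) := by
  rw [D1_xc_add hP hQ h, D1_xc_sub hP hQ h]
  have h1 := eqn hP
  have h2 := eqn hQ
  have h3 : xc P - xc Q ≠ 0 := sub_ne_zero.mpr h
  have e : (xc P - xc Q) ^ 2 * (((yc P - yc Q) / (xc P - xc Q)) ^ 2 - xc P - xc Q +
      (((yc P + yc Q) / (xc P - xc Q)) ^ 2 - xc P - xc Q)) =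
      (yc P - yc Q) ^ 2 + (yc P + yc Q) ^ 2 - 2 * (xc P + xc Q) * (xc P - xc Q) ^ 2 := by
    rw [div_pow, div_pow]
    field_simp
    ring
  rw [e]
  linear_combination 2 * h1 + 2 * h2

theorem xc_add_mul_sub {P Q : W.Point} (hP : P ≠ 0) (hQ : Q ≠ 0) (h : xc P ≠ xc Q) :
    (xc P - xc Q) ^ 2 * (xc (P + Q) * xc (P - Q)) =
      (xc P * xc Q - W.a₄) ^ 2 - 4 * W.a₆ * (xc P + xc Q) := by
  rw [D1_xc_add hP hQ h, D1_xc_sub hP hQ h]
  have h1 := eqn hP
  have h2 := eqn hQ
  have h3 : xc P - xc Q ≠ 0 := sub_ne_zero.mpr h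
  apply mul_left_cancel₀ (pow_ne_zero 2 h3)
  have e : (xc P - xc Q) ^ 2 * ((xc P - xc Q) ^ 2 *
      ((((yc P - yc Q) / (xc P - xc Q)) ^ 2 - xc P - xc Q) *
      (((yc P + yc Q) / (xc P - xc Q)) ^ 2 - xc P - xc Q))) =
      ((yc P - yc Q) ^ 2 - (xc P + xc Q) * (xc P - xc Q) ^ 2) *
      ((yc P + yc Q) ^ 2 - (xc P + xc Q) * (xc P - xc Q) ^ 2) := by
    rw [div_pow, div_pow]
    field_simp
    ring
  rw [e]
  generalize xc P = x at *
  generalize xc Q = x' at *
  generalize yc P = y at *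
  generalize yc Q = y' at *
  have e1 : ((y - y') ^ 2 - (x + x') * (x - x') ^ 2) * ((y + y') ^ 2 - (x + x') * (x - x') ^ 2)
      = (y ^ 2 - y' ^ 2) ^ 2 - 2 * (y ^ 2 + y' ^ 2) * ((x + x') * (x - x') ^ 2) +
        ((x + x') * (x - x') ^ 2) ^ 2 := by ring
  rw [e1, h1, h2]
  ring

theorem xc_sub_sub_add {P Q : W.Point} (hP : P ≠ 0) (hQ : Q ≠ 0) (h : xc P ≠ xc Q) :
    (xc P - xc Q) ^ 2 * (xc (P - Q) - xc (P + Q)) = 4 * yc P * yc Q := by
  rw [D1_xc_add hP hQ h, D1_xc_sub hP hQ h]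
  have h3 : xc P - xc Q ≠ 0 := sub_ne_zero.mpr h
  rw [div_pow, div_pow]
  field_simp
  ring

theorem D1_two_smul_of_yc_eq_zero {P : W.Point} (hP : P ≠ 0) (hy : yc P = 0) : P = -P := by
  apply pt_ext hP (neg_ne_zero.mpr hP)
  · rw [xc_neg]
  · rw [yc_neg, hy, neg_zero]

theorem two_smul_eq_zero_iff (h2 : (2 : F) ≠ 0) {P : W.Point} (hP : P ≠ 0) :
    2 • P = 0 ↔ yc P = 0 := by
  constructor
  · intro h
    rw [two_nsmul] at h
    have h1 : P = -P := eq_neg_of_add_eq_zero_left h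
    have h3 : yc P = -yc P := by
      rw [← yc_neg, ← h1]
    have h4 : 2 * yc P = 0 := by linear_combination h3
    exact (mul_eq_zero.mp h4).resolve_left h2
  · intro h
    rw [two_nsmul]
    nth_rewrite 2 [D1_two_smul_of_yc_eq_zero hP h]
    exact add_neg_cancel P

theorem D1_dbl (h2 : (2 : F) ≠ 0) {P : W.Point} (hP : P ≠ 0) (hy : yc P ≠ 0) :
    xc (2 • P) = ((3 * xc P ^ 2 + W.a₄) / (2 * yc P)) ^ 2 - 2 * xc P ∧
    yc (2 • P) = ((3 * xc P ^ 2 + W.a₄) / (2 * yc P)) * (xc P - xc (2 • P)) - yc P := by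
  rw [two_nsmul]
  rcases P with _ | ⟨x, y, h1⟩
  · exact absurd rfl hP
  change y ≠ 0 at hy
  have hne : y ≠ W.negY x y := by
    rw [D1_negY]
    intro h
    have h4 : 2 * y = 0 := by linear_combination h
    exact hy ((mul_eq_zero.mp h4).resolve_left h2)
  have hs : W.slope x x y y = (3 * x ^ 2 + W.a₄) / (2 * y) := by
    rw [WeierstrassCurve.Affine.slope_of_Y_ne rfl hne, D1_negY, a₁_of_isShortNF,
      a₂_of_isShortNF]
    congr 1 <;> ring
  rw [WeierstrassCurve.Affine.Point.add_self_of_Y_ne hne]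
  have hx : W.addX x x (W.slope x x y y) = ((3 * x ^ 2 + W.a₄) / (2 * y)) ^ 2 - 2 * x := by
    rw [hs, WeierstrassCurve.Affine.addX, a₁_of_isShortNF, a₂_of_isShortNF]
    ring
  constructor
  · exact hx
  · change W.addY x x y (W.slope x x y y) = ((3 * x ^ 2 + W.a₄) / (2 * y)) *
      (x - W.addX x x (W.slope x x y y)) - y
    rw [WeierstrassCurve.Affine.addY, WeierstrassCurve.Affine.negAddY, D1_negY, hs]
    ring

theorem xc_dbl (h2 : (2 : F) ≠ 0) {P : W.Point} (hP : P ≠ 0) (hy : yc P ≠ 0) :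
    4 * yc P ^ 2 * xc (2 • P) = (xc P ^ 2 - W.a₄) ^ 2 - 8 * W.a₆ * xc P := by
  rw [(D1_dbl h2 hP hy).1]
  have h1 := eqn hP
  have e : 4 * yc P ^ 2 * (((3 * xc P ^ 2 + W.a₄) / (2 * yc P)) ^ 2 - 2 * xc P) =
      (3 * xc P ^ 2 + W.a₄) ^ 2 - 8 * xc P * yc P ^ 2 := by
    rw [div_pow]
    field_simp
    ring
  rw [e, h1]
  ring

theorem yc_dbl (h2 : (2 : F) ≠ 0) {P : W.Point} (hP : P ≠ 0) (hy : yc P ≠ 0) :
    8 * yc P ^ 3 * yc (2 • P) = xc P ^ 6 + 5 * W.a₄ * xc P ^ 4 + 20 * W.a₆ * xc P ^ 3 -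
      5 * W.a₄ ^ 2 * xc P ^ 2 - 4 * W.a₄ * W.a₆ * xc P - 8 * W.a₆ ^ 2 - W.a₄ ^ 3 := by
  have h1 := eqn hP
  have e : 8 * yc P ^ 3 * yc (2 • P) =
      (3 * xc P ^ 2 + W.a₄) * (4 * yc P ^ 2 * xc P - 4 * yc P ^ 2 * xc (2 • P)) -
        8 * (yc P ^ 2) ^ 2 := by
    rw [(D1_dbl h2 hP hy).2]
    field_simp
    ring
  rw [e, xc_dbl h2 hP hy, h1]
  ring

end H16C
end

-- from Lib.H16C.D2
section

/-!
# D2 (S): two identities for the `x`-coordinates

Put `F(a, c, X) = (a-c)² X² - 2((a+c)(a₄+ac) + 2a₆) X + (ac-a₄)² - 4a₆(a+c)`.  By D1, for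
`x(P) ≠ x(Q)`: `(x(P)-x(Q))² (X - x(P+Q)) (X - x(P-Q)) = F(x(P), x(Q), X)`.
`F` is symmetric in its three arguments (`ring`): this is `xsym`.
`F(a, c, a) = F(a, a, c) = (a²-a₄)² - 8 a₆ a - 4 (a³ + a₄ a + a₆) c = 4 y(P)² (x(2P) - c)` for
`a = x(P)` (`eqn`, `xc_dbl`): this is `xdbl`; if `y(P) = 0` then `2P = 0`, excluded by hypothesis.
-/

open WeierstrassCurve

namespace H16C

variable {F : Type*} [Field F] [DecidableEq F] {W : WeierstrassCurve.Affine F} [W.IsShortNF]

theorem D2_expand {P Q : W.Point} (hP : P ≠ 0) (hQ : Q ≠ 0) (h : xc P ≠ xc Q) (X : F) :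
    (xc P - xc Q) ^ 2 * ((X - xc (P + Q)) * (X - xc (P - Q))) =
      (xc P - xc Q) ^ 2 * X ^ 2 - 2 * ((xc P + xc Q) * (W.a₄ + xc P * xc Q) + 2 * W.a₆) * X +
        (xc P * xc Q - W.a₄) ^ 2 - 4 * W.a₆ * (xc P + xc Q) := by
  have h1 := xc_add_sub hP hQ h
  have h2 := xc_add_mul_sub hP hQ h
  linear_combination -X * h1 + h2

theorem xsym {P Q R : W.Point} (hP : P ≠ 0) (hQ : Q ≠ 0) (hR : R ≠ 0) (h : xc P ≠ xc Q)
    (h' : xc P ≠ xc R) :
    (xc P - xc Q) ^ 2 * ((xc R - xc (P + Q)) * (xc R - xc (P - Q))) =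
      (xc P - xc R) ^ 2 * ((xc Q - xc (P + R)) * (xc Q - xc (P - R))) := by
  rw [D2_expand hP hQ h, D2_expand hP hR h']
  ring

theorem xdbl (h2 : (2 : F) ≠ 0) {P Q : W.Point} (hP : P ≠ 0) (hQ : Q ≠ 0) (h : xc P ≠ xc Q)
    (hy : yc P ≠ 0) :
    (xc P - xc Q) ^ 2 * ((xc P - xc (P + Q)) * (xc P - xc (P - Q))) =
      (2 * yc P) ^ 2 * (xc (2 • P) - xc Q) := by
  rw [D2_expand hP hQ h]
  have h3 := xc_dbl h2 hP hy
  have h4 := eqn hP
  linear_combination -h3 + 4 * xc Q * h4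

end H16C
end

-- from Lib.H16C.RU
section

/-!
# RU (S/M): roots of unity modulo a place

`v` a valuation of the field `F`.
`root_unit`: `η^n = 1`, `v(n) = 1`, `v(η - 1) < 1` imply `η = 1`: otherwise
`1 + η + ... + η^(n-1) = 0` (`geom_sum`, `mul_geom_sum`), but this sum is congruent to `n`.
`fixed_of_unit`: `v β = 1`, `γ^n = β^n`, `v(γ - β) < 1`, `v(n) = 1`: `γ = β` (`η = γ/β`).
`val_sub`: `ζ` primitive `n`-th root of unity, `0 < j < n` (or `η^n = 1`, `η ≠ 1`):
`v(n) ≤ v(η - 1)`: `1 + η + ... + η^(n-1) = 0` and `1 + η + ... + η^(n-1) - n` is a multiple of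
`η - 1` by an element with `v ≤ 1` (`v η = 1`).
`root_near`: `v(β^n - 1) < ε^n`, `ζ` primitive `n`-th root of unity: there is `i < n` with
`v(β - ζ^i) < ε`: `β^n - 1 = ∏_i (β - ζ^i)` (`X_pow_sub_one_eq_prod`/`IsPrimitiveRoot`), if all the
factors had `v ≥ ε` the product would have `v ≥ ε^n`.
-/

namespace H16C

variable {F : Type*} [Field F] {Γ : Type*} [LinearOrderedCommGroupWithZero Γ] (v : Valuation F Γ)
  {n : ℕ}

theorem RU_sum_le {η : F} (hη : v η ≤ 1) (m : ℕ) : v (∑ i ∈ Finset.range m, η ^ i) ≤ 1 := by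
  apply Valuation.map_sum_le
  intro i _
  rw [map_pow]
  exact pow_le_one' hη i

theorem val_sub {η : F} (h : η ^ n = 1) (h1 : η ≠ 1) : v (n : F) ≤ v (η - 1) := by
  rcases Nat.eq_zero_or_pos n with rfl | hn
  · rw [Nat.cast_zero, map_zero]
    exact zero_le
  have hη : v η = 1 := by
    have h2 : v η ^ n = 1 := by rw [← map_pow, h, map_one]
    exact (pow_eq_one_iff.mp h2).resolve_right (by omega)
  have h0 : ∑ i ∈ Finset.range n, η ^ i = 0 := by
    have h3 := mul_geom_sum η n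
    rw [h, sub_self] at h3
    exact (mul_eq_zero.mp h3).resolve_left (sub_ne_zero.mpr h1)
  have h4 : (n : F) = -∑ i ∈ Finset.range n, (η ^ i - 1) := by
    rw [Finset.sum_sub_distrib, h0, Finset.sum_const, Finset.card_range, nsmul_eq_mul]
    ring
  rw [h4, Valuation.map_neg]
  apply Valuation.map_sum_le
  intro i _
  rw [← mul_geom_sum, map_mul]
  exact mul_le_of_le_one_right' (RU_sum_le v hη.le i)

theorem root_unit (hn : v (n : F) = 1) {η : F} (h : η ^ n = 1) (h1 : v (η - 1) < 1) : η = 1 := by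
  by_contra h2
  have h3 := val_sub v h h2
  rw [hn] at h3
  exact absurd (lt_of_le_of_lt h3 h1) (lt_irrefl _)

theorem fixed_of_unit (hn : v (n : F) = 1) {β γ : F} (hβ : v β = 1) (h : γ ^ n = β ^ n)
    (h1 : v (γ - β) < 1) : γ = β := by
  have hb : β ≠ 0 := by
    rintro rfl
    rw [map_zero] at hβ
    exact zero_ne_one hβ
  have h2 : (γ / β) ^ n = 1 := by
    rw [div_pow, h, div_self (pow_ne_zero n hb)]
  have h3 : v (γ / β - 1) < 1 := by
    rw [div_sub_one hb, map_div₀, hβ, div_one]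
    exact h1
  have h4 := root_unit v hn h2 h3
  rwa [div_eq_one_iff_eq hb] at h4

theorem root_near (hn : 0 < n) {ζ : F} (hζ : IsPrimitiveRoot ζ n) {β : F} {ε : Γ}
    (h : v (β ^ n - 1) < ε ^ n) : ∃ i < n, v (β - ζ ^ i) < ε := by
  by_contra hc
  push Not at hc
  have hnz : NeZero n := ⟨by omega⟩
  have h1 := hζ.pow_sub_pow_eq_prod_sub_mul β 1 hn
  rw [one_pow] at h1
  rw [h1, map_prod] at h
  have h2 : ε ^ (Polynomial.nthRootsFinset n (1 : F)).card ≤
      ∏ x ∈ Polynomial.nthRootsFinset n (1 : F), v (β - x * 1) := by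
    apply Finset.pow_card_le_prod
    intro x hx
    rw [Polynomial.mem_nthRootsFinset hn] at hx
    obtain ⟨i, hi, rfl⟩ := hζ.eq_pow_of_pow_eq_one hx
    rw [mul_one]
    exact hc i hi
  rw [hζ.card_nthRootsFinset] at h2
  exact absurd (lt_of_le_of_lt h2 h) (lt_irrefl _)

end H16C
end

-- from Lib.H55R.Defs
section

/-!
# H55R: reciprocity for cyclic extensions of prime degree (definitions)

K is a totally complex number field, L/K cyclic of prime degree, tame. There is a ray class character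
of K whose modulus is the product of the ramified primes and whose value at a prime v prime to the
modulus is 1 if and only if v splits in L. See PROOF.md.
-/

open NumberField IsDedekindDomain
open scoped Pointwise

namespace H55R

/-- The primes of K. -/
abbrev Pl (K : Type) [Field K] [NumberField K] := HeightOneSpectrum (𝓞 K)

section chars

variable {K : Type} [Field K] [NumberField K]

/-- The order of x at v. -/
noncomputable def ord (v : Pl K) (x : Kˣ) : ℤ := -Multiplicative.toAdd (v.valuationOfNeZero x)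

theorem ord_mul (v : Pl K) (x y : Kˣ) : ord v (x * y) = ord v x + ord v y := by
  unfold ord
  rw [map_mul, toAdd_mul]
  ring

theorem ord_one (v : Pl K) : ord v (1 : Kˣ) = 0 := by
  unfold ord
  rw [map_one, toAdd_one, neg_zero]

theorem ord_inv (v : Pl K) (x : Kˣ) : ord v x⁻¹ = -ord v x := by
  unfold ord
  rw [map_inv, toAdd_inv]

theorem ord_zpow (v : Pl K) (x : Kˣ) (k : ℤ) : ord v (x ^ k) = k * ord v x := by
  unfold ord
  rw [map_zpow, toAdd_zpow, smul_eq_mul]
  ring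

open Classical in
/-- The value at a nonzero ideal of the character with values φ at the primes. -/
noncomputable def pv (φ : Pl K → ℂˣ) (a : Ideal (𝓞 K)) : ℂˣ :=
  ((UniqueFactorizationMonoid.normalizedFactors a).map fun P =>
    if h : P.IsPrime ∧ P ≠ ⊥ then φ ⟨P, h.1, h.2⟩ else 1).prod

theorem pv_one (φ : Pl K → ℂˣ) : pv φ 1 = 1 := by
  unfold pv
  rw [UniqueFactorizationMonoid.normalizedFactors_one]
  simp

theorem pv_mul (φ : Pl K → ℂˣ) {a b : Ideal (𝓞 K)} (ha : a ≠ ⊥) (hb : b ≠ ⊥) :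
    pv φ (a * b) = pv φ a * pv φ b := by
  unfold pv
  rw [UniqueFactorizationMonoid.normalizedFactors_mul ha hb, Multiset.map_add, Multiset.prod_add]

theorem pv_prime (φ : Pl K → ℂˣ) (v : Pl K) : pv φ v.asIdeal = φ v := by
  unfold pv
  rw [UniqueFactorizationMonoid.normalizedFactors_irreducible v.irreducible]
  simp only [normalize_eq, Multiset.map_singleton, Multiset.prod_singleton]
  rw [dif_pos ⟨v.isPrime, v.ne_bot⟩]

theorem pv_mul_fun (φ ψ : Pl K → ℂˣ) (a : Ideal (𝓞 K)) : pv (φ * ψ) a = pv φ a * pv ψ a := by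
  unfold pv
  rw [← Multiset.prod_map_mul]
  congr 1
  refine Multiset.map_congr rfl fun P _ => ?_
  by_cases h : P.IsPrime ∧ P ≠ ⊥
  · rw [dif_pos h, dif_pos h, dif_pos h, Pi.mul_apply]
  · rw [dif_neg h, dif_neg h, dif_neg h, mul_one]

theorem pv_one_fun (a : Ideal (𝓞 K)) : pv (1 : Pl K → ℂˣ) a = 1 := by
  unfold pv
  refine Multiset.prod_eq_one fun x hx => ?_
  rw [Multiset.mem_map] at hx
  obtain ⟨P, -, rfl⟩ := hx
  by_cases h : P.IsPrime ∧ P ≠ ⊥
  · rw [dif_pos h, Pi.one_apply]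
  · rw [dif_neg h]

theorem pv_inv_fun (φ : Pl K → ℂˣ) (a : Ideal (𝓞 K)) : pv φ⁻¹ a = (pv φ a)⁻¹ := by
  rw [eq_inv_iff_mul_eq_one, ← pv_mul_fun, inv_mul_cancel, pv_one_fun]

open Classical in
/-- The character on ideals with values φ, 0 for the ideals not prime to f. -/
noncomputable def tI (f : Ideal (𝓞 K)) (φ : Pl K → ℂˣ) : Ideal (𝓞 K) →*₀ ℂ where
  toFun a := if a ≠ ⊥ ∧ IsCoprime a f then (pv φ a : ℂ) else 0
  map_zero' := if_neg fun h => h.1 rfl
  map_one' := by
    rw [if_pos ⟨one_ne_zero, isCoprime_one_left⟩, pv_one, Units.val_one]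
  map_mul' a b := by
    by_cases ha : a ≠ ⊥ ∧ IsCoprime a f
    · by_cases hb : b ≠ ⊥ ∧ IsCoprime b f
      · rw [if_pos ⟨mul_ne_zero ha.1 hb.1, ha.2.mul_left hb.2⟩, if_pos ha, if_pos hb,
          pv_mul φ ha.1 hb.1, Units.val_mul]
      · rw [if_neg hb, mul_zero, if_neg]
        rintro ⟨h1, h2⟩
        exact hb ⟨right_ne_zero_of_mul h1, h2.of_mul_left_right⟩
    · rw [if_neg ha, zero_mul, if_neg]
      rintro ⟨h1, h2⟩
      exact ha ⟨left_ne_zero_of_mul h1, h2.of_mul_left_left⟩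

theorem tI_apply (f : Ideal (𝓞 K)) (φ : Pl K → ℂˣ) {a : Ideal (𝓞 K)} (ha : a ≠ ⊥)
    (h : IsCoprime a f) : tI f φ a = (pv φ a : ℂ) := if_pos ⟨ha, h⟩

theorem tI_zero (f : Ideal (𝓞 K)) (φ : Pl K → ℂˣ) {a : Ideal (𝓞 K)} (h : ¬ IsCoprime a f) :
    tI f φ a = 0 := if_neg fun h' => h h'.2

/-- The ray class characters modulo f, given by their values at the primes (1 at the primes
dividing f). -/
noncomputable def RC (f : Ideal (𝓞 K)) : Subgroup (Pl K → ℂˣ) where
  carrier := {φ | (∀ v : Pl K, f ≤ v.asIdeal → φ v = 1) ∧ ∀ x y : 𝓞 K, x ≠ 0 → y ≠ 0 →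
    IsCoprime (Ideal.span {x}) f → x - y ∈ f → pv φ (Ideal.span {x}) = pv φ (Ideal.span {y})}
  mul_mem' := by
    rintro φ ψ ⟨h1, h2⟩ ⟨h3, h4⟩
    refine ⟨fun v hv => ?_, fun x y hx hy hc hxy => ?_⟩
    · rw [Pi.mul_apply, h1 v hv, h3 v hv, mul_one]
    · rw [pv_mul_fun, pv_mul_fun, h2 x y hx hy hc hxy, h4 x y hx hy hc hxy]
  one_mem' := ⟨fun v _ => rfl, fun x y _ _ _ _ => by rw [pv_one_fun, pv_one_fun]⟩
  inv_mem' := by
    rintro φ ⟨h1, h2⟩
    refine ⟨fun v hv => ?_, fun x y hx hy hc hxy => ?_⟩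
    · rw [Pi.inv_apply, h1 v hv, inv_one]
    · rw [pv_inv_fun, pv_inv_fun, h2 x y hx hy hc hxy]

open Classical in
/-- The sum of Nv^(-s) over the primes in A. -/
noncomputable def PS (A : Set (Pl K)) (s : ℝ) : ℝ :=
  ∑' v : Pl K, A.indicator (fun v => (Ideal.absNorm v.asIdeal : ℝ) ^ (-s)) v

/-- The S-units. -/
def SU (S : Set (Pl K)) : Subgroup Kˣ where
  carrier := {x | ∀ v : Pl K, v ∉ S → ord v x = 0}
  mul_mem' := fun ha hb v hv => by rw [ord_mul, ha v hv, hb v hv, add_zero]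
  one_mem' := fun v _ => ord_one v
  inv_mem' := fun ha v hv => by rw [ord_inv, ha v hv, neg_zero]

end chars

section ext

variable (K L : Type) [Field K] [NumberField K] [Field L] [NumberField L] [Algebra K L]

/-- The ramification index of v in L/K (Galois). -/
noncomputable def es (v : Pl K) : ℕ := v.asIdeal.ramificationIdxIn (𝓞 L)

/-- The residue degree of v in L/K (Galois). -/
noncomputable def fs (v : Pl K) : ℕ := v.asIdeal.inertiaDegIn (𝓞 L)

/-- v splits completely in L/K (Galois). -/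
def Spl (v : Pl K) : Prop := es K L v = 1 ∧ fs K L v = 1

variable {K L}

/-- The set of primes of L above the primes in S. -/
def above (S : Set (Pl K)) : Set (Pl L) := {W | W.under (𝓞 K) ∈ S}

/-- The decomposition groups (in Gal(L/K)) of the primes above v are contained in A. -/
def SplA (A : Subgroup Gal(L/K)) (v : Pl K) : Prop :=
  ∀ W : Pl L, W.under (𝓞 K) = v → ∀ σ : Gal(L/K), σ • W.asIdeal = W.asIdeal → σ ∈ A

end ext

/-! ### Herbrand quotients -/

section herb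

variable {A : Type} [AddCommGroup A]

/-- 1 - σ. -/
def Dm (σ : AddMonoid.End A) : A →+ A := (1 - σ : AddMonoid.End A)

/-- 1 + σ + ... + σ^(n-1). -/
def Nm (n : ℕ) (σ : AddMonoid.End A) : A →+ A := (∑ i ∈ Finset.range n, σ ^ i : AddMonoid.End A)

/-- The order of the 0th Tate cohomology of the subgroup B. -/
noncomputable def h0 (n : ℕ) (σ : AddMonoid.End A) (B : AddSubgroup A) : ℕ :=
  (B.map (Nm n σ)).relIndex (B ⊓ (Dm σ).ker)

/-- The order of the -1st Tate cohomology of the subgroup B. -/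
noncomputable def h1 (n : ℕ) (σ : AddMonoid.End A) (B : AddSubgroup A) : ℕ :=
  (B.map (Dm σ)).relIndex (B ⊓ (Nm n σ).ker)

/-- The permutation module. -/
def pe {P : Type} (τ : Equiv.Perm P) : AddMonoid.End (P → ℤ) where
  toFun a := fun p => a (τ.symm p)
  map_zero' := rfl
  map_add' _ _ := rfl

/-- The Galois action on the multiplicative group, written additively. -/
noncomputable def sg {K L : Type} [Field K] [Field L] [Algebra K L] (σ : Gal(L/K)) :
    AddMonoid.End (Additive Lˣ) :=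
  MonoidHom.toAdditive (Units.map ((σ : L ≃ₐ[K] L) : L →* L))

end herb

end H55R
end

-- from Lib.H55B.G2
section

open NumberField IsDedekindDomain

namespace H55B

/-! Chunk G2: characters of finite groups of exponent 2, and the local Euler factor identity.
G is an elementary abelian 2-group (commutative since all squares are 1), an F_2 vector space; G ->* {+-1} is its
dual. euler_group: let X_I be the characters trivial on I, |X_I| = |G|/|I|. If f = 1, phi in I, all values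
chi(phi) = 1 on X_I: product = (1 - xT)^(|G|/|I|). If f = 2, phi not in I: chi(phi) = 1 for half of X_I and -1
for the other half, (1 - xT)(1 + xT) = 1 - x^2T^2, to the power |G|/(2|I|). The characters not trivial on I
contribute the factor 1. -/

theorem G2_enough2 : HasEnoughRootsOfUnity ℤ 2 where
  prim := ⟨-1, IsPrimitiveRoot.neg_one 0 (by norm_num)⟩
  cyc := rootsOfUnity.isCyclic ℤ 2

theorem G2_enough (Gp : Type*) [Group Gp] (hsq : ∀ g : Gp, g * g = 1) :
    HasEnoughRootsOfUnity ℤ (Monoid.exponent Gp) := by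
  haveI := G2_enough2
  refine HasEnoughRootsOfUnity.of_dvd ℤ (n := 2) ?_
  apply Monoid.exponent_dvd_of_forall_pow_eq_one
  intro g
  rw [pow_two, hsq]

/-- The commutative group structure. -/
abbrev G2_comm (Gp : Type*) [h : Group Gp] (hsq : ∀ g : Gp, g * g = 1) : CommGroup Gp :=
  { h with
    mul_comm := fun a b => by
      have h1 : ∀ g : Gp, g = g⁻¹ := fun g => eq_inv_of_mul_eq_one_left (hsq g)
      calc a * b = (a * b)⁻¹ := h1 _
        _ = b⁻¹ * a⁻¹ := mul_inv_rev a b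
        _ = b * a := by rw [← h1, ← h1] }

theorem card_dual (Gp : Type*) [Group Gp] [Finite Gp] (hsq : ∀ g : Gp, g * g = 1) :
    Finite (Gp →* ℤˣ) ∧ Nat.card (Gp →* ℤˣ) = Nat.card Gp := by
  haveI := G2_enough Gp hsq
  refine ⟨inferInstance, ?_⟩
  letI := G2_comm Gp hsq
  exact CommGroup.card_monoidHom_of_hasEnoughRootsOfUnity Gp ℤ

theorem dual_sep (Gp : Type*) [Group Gp] [Finite Gp] (hsq : ∀ g : Gp, g * g = 1) (I : Subgroup Gp)
    (g : Gp) (hg : g ∉ I) : ∃ χ : Gp →* ℤˣ, (∀ i ∈ I, χ i = 1) ∧ χ g = -1 := by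
  haveI := G2_enough Gp hsq
  have h : ¬ ∀ φ : Gp →* ℤˣ, (∀ y ∈ I, φ y = 1) → φ g = 1 := by
    intro h
    apply hg
    letI := G2_comm Gp hsq
    exact (CommGroup.forall_monoidHom_apply_eq_one_iff (M := ℤ) I g).mp h
  push Not at h
  obtain ⟨χ, h1, h2⟩ := h
  exact ⟨χ, h1, (Int.units_eq_one_or (χ g)).resolve_left h2⟩

theorem G2_card_triv (Gp : Type*) [Group Gp] [Finite Gp] (hsq : ∀ g : Gp, g * g = 1)
    (I : Subgroup Gp) :
    Nat.card {χ : Gp →* ℤˣ // ∀ i ∈ I, χ i = 1} = Nat.card Gp / Nat.card I := by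
  haveI := G2_enough Gp hsq
  letI := G2_comm Gp hsq
  have h1 := CommGroup.card_domRestrictHom_ker (M := ℤ) (G := Gp) I
  have h2 : Nat.card (Gp ⧸ I) = Nat.card Gp / Nat.card I := by
    rw [I.card_eq_card_quotient_mul_card_subgroup, Nat.mul_div_cancel _ Nat.card_pos]
  rw [← h2, ← h1]
  apply Nat.card_congr
  refine Equiv.subtypeEquivRight fun χ => ?_
  rw [MonoidHom.mem_ker, MonoidHom.ext_iff]
  constructor
  · intro h i
    exact h i i.2
  · intro h i hi
    exact h ⟨i, hi⟩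

open Classical in
/-- Orthogonality. -/
theorem sum_char (Gp : Type*) [Group Gp] [Finite Gp] (hsq : ∀ g : Gp, g * g = 1) (g : Gp) :
    ∑ᶠ χ : Gp →* ℤˣ, ((χ g : ℤˣ) : ℤ) = if g = 1 then (Nat.card Gp : ℤ) else 0 := by
  obtain ⟨hfin, hcard⟩ := card_dual Gp hsq
  letI := Fintype.ofFinite (Gp →* ℤˣ)
  rw [finsum_eq_sum_of_fintype]
  split_ifs with hg
  · subst hg
    simp only [map_one, Units.val_one, Finset.sum_const, Finset.card_univ, nsmul_eq_mul, mul_one]
    rw [← hcard, Nat.card_eq_fintype_card]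
  · obtain ⟨ψ, -, hψ⟩ := dual_sep Gp hsq ⊥ g (by rwa [Subgroup.mem_bot])
    have h : ∑ χ : Gp →* ℤˣ, ((χ g : ℤˣ) : ℤ) = ∑ χ : Gp →* ℤˣ, (((ψ * χ) g : ℤˣ) : ℤ) :=
      (Fintype.sum_equiv (Equiv.mulLeft ψ) _ _ (fun χ => rfl)).symm
    have h2 : ∑ χ : Gp →* ℤˣ, (((ψ * χ) g : ℤˣ) : ℤ) = - ∑ χ : Gp →* ℤˣ, ((χ g : ℤˣ) : ℤ) := by
      rw [← Finset.sum_neg_distrib]
      apply Finset.sum_congr rfl
      intro χ _
      rw [MonoidHom.mul_apply, hψ]
      simp
    rw [h2] at h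
    linarith

open Polynomial in
open Classical in
theorem euler_group (Gp : Type*) [Group Gp] [Finite Gp] (hsq : ∀ g : Gp, g * g = 1) (I : Subgroup Gp)
    (φ : Gp) (f : ℕ) (hf : (f = 1 ∧ φ ∈ I) ∨ (f = 2 ∧ φ ∉ I)) (x : ℂ) :
    ∏ᶠ χ : Gp →* ℤˣ, (1 - C ((if ∀ i ∈ I, χ i = 1 then (((χ φ : ℤˣ) : ℤ) : ℂ) else 0) * x) * X) =
      (1 - C (x ^ f) * X ^ f) ^ (Nat.card Gp / (Nat.card I * f)) := by
  obtain ⟨hfin, -⟩ := card_dual Gp hsq
  letI := Fintype.ofFinite (Gp →* ℤˣ)
  have hD := G2_card_triv Gp hsq I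
  rw [Nat.card_eq_fintype_card, Fintype.card_subtype] at hD
  rw [finprod_eq_prod_of_fintype]
  have hprod : ∏ χ : Gp →* ℤˣ,
      (1 - C ((if ∀ i ∈ I, χ i = 1 then (((χ φ : ℤˣ) : ℤ) : ℂ) else 0) * x) * X) =
      ∏ χ : Gp →* ℤˣ with (∀ i ∈ I, χ i = 1), (1 - C ((((χ φ : ℤˣ) : ℤ) : ℂ) * x) * X) := by
    rw [Finset.prod_filter]
    apply Finset.prod_congr rfl
    intro χ _
    split_ifs <;> simp
  rw [hprod]
  rcases hf with ⟨rfl, hφ⟩ | ⟨rfl, hφ⟩
  · have h1 : ∏ χ : Gp →* ℤˣ with (∀ i ∈ I, χ i = 1), (1 - C ((((χ φ : ℤˣ) : ℤ) : ℂ) * x) * X) =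
        ∏ χ : Gp →* ℤˣ with (∀ i ∈ I, χ i = 1), (1 - C x * X) := by
      apply Finset.prod_congr rfl
      intro χ hχ
      rw [(Finset.mem_filter.mp hχ).2 φ hφ]
      simp
    rw [h1, Finset.prod_const, hD]
    simp
  · obtain ⟨ψ, hψI, hψ⟩ := dual_sep Gp hsq I φ hφ
    have hsplit := Finset.prod_filter_mul_prod_filter_not
      (Finset.univ.filter fun χ : Gp →* ℤˣ => ∀ i ∈ I, χ i = 1) (fun χ => χ φ = 1)
      (fun χ => (1 - C ((((χ φ : ℤˣ) : ℤ) : ℂ) * x) * X))
    have hcs := Finset.card_filter_add_card_filter_not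
      (s := Finset.univ.filter fun χ : Gp →* ℤˣ => ∀ i ∈ I, χ i = 1) (fun χ => χ φ = 1)
    have hcard : (Finset.filter (fun χ : Gp →* ℤˣ => χ φ = 1)
        (Finset.univ.filter fun χ : Gp →* ℤˣ => ∀ i ∈ I, χ i = 1)).card =
        (Finset.filter (fun χ : Gp →* ℤˣ => ¬ χ φ = 1)
        (Finset.univ.filter fun χ : Gp →* ℤˣ => ∀ i ∈ I, χ i = 1)).card := by
      apply Finset.card_bij' (fun χ _ => ψ * χ) (fun χ _ => ψ * χ)
      · intro χ hχ
        simp only [Finset.mem_filter, Finset.mem_univ, true_and] at hχ ⊢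
        refine ⟨fun i hi => ?_, ?_⟩
        · rw [MonoidHom.mul_apply, hψI i hi, hχ.1 i hi, one_mul]
        · rw [MonoidHom.mul_apply, hψ, hχ.2]
          decide
      · intro χ hχ
        simp only [Finset.mem_filter, Finset.mem_univ, true_and] at hχ ⊢
        refine ⟨fun i hi => ?_, ?_⟩
        · rw [MonoidHom.mul_apply, hψI i hi, hχ.1 i hi, one_mul]
        · rw [MonoidHom.mul_apply, hψ, (Int.units_eq_one_or (χ φ)).resolve_left hχ.2]
          decide
      · intro χ _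
        ext g
        simp only [MonoidHom.mul_apply, ← mul_assoc, Int.units_mul_self, one_mul]
      · intro χ _
        ext g
        simp only [MonoidHom.mul_apply, ← mul_assoc, Int.units_mul_self, one_mul]
    rw [← hsplit]
    have hp1 : ∏ χ ∈ Finset.filter (fun χ : Gp →* ℤˣ => χ φ = 1)
        (Finset.univ.filter fun χ : Gp →* ℤˣ => ∀ i ∈ I, χ i = 1),
        (1 - C ((((χ φ : ℤˣ) : ℤ) : ℂ) * x) * X) = (1 - C x * X) ^
          (Finset.filter (fun χ : Gp →* ℤˣ => χ φ = 1)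
            (Finset.univ.filter fun χ : Gp →* ℤˣ => ∀ i ∈ I, χ i = 1)).card := by
      rw [← Finset.prod_const]
      apply Finset.prod_congr rfl
      intro χ hχ
      rw [(Finset.mem_filter.mp hχ).2]
      simp
    have hp2 : ∏ χ ∈ Finset.filter (fun χ : Gp →* ℤˣ => ¬ χ φ = 1)
        (Finset.univ.filter fun χ : Gp →* ℤˣ => ∀ i ∈ I, χ i = 1),
        (1 - C ((((χ φ : ℤˣ) : ℤ) : ℂ) * x) * X) = (1 + C x * X) ^
          (Finset.filter (fun χ : Gp →* ℤˣ => χ φ = 1)
            (Finset.univ.filter fun χ : Gp →* ℤˣ => ∀ i ∈ I, χ i = 1)).card := by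
      rw [hcard, ← Finset.prod_const]
      apply Finset.prod_congr rfl
      intro χ hχ
      rw [(Int.units_eq_one_or (χ φ)).resolve_left (Finset.mem_filter.mp hχ).2]
      simp
    rw [hp1, hp2, ← mul_pow]
    have hb : (1 - C x * X : ℂ[X]) * (1 + C x * X) = 1 - C (x ^ 2) * X ^ 2 := by
      rw [map_pow]
      ring
    rw [hb]
    congr 1
    rw [← Nat.div_div_eq_div_mul, ← hD]
    omega

end H55B
end

-- from Lib.H55N.R6
section

namespace H55N

/-! Chunk R6 (S, pure Mathlib). The cocycle identity. The (n+1) x (n+1) matrix with rows (1, r_j(0), .., r_j(n-1)) is singular: its first column is the combination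
sum_i x_i column_(i+1) (Matrix.exists_mulVec_eq_zero_iff: the nonzero vector (-1, x_0, .., x_(n-1)) is in the kernel). Expand the determinant along the first column: Matrix.det_succ_column_zero. -/

theorem det_cocycle {n : ℕ} (x : Fin n → ℂ) (r : Fin (n + 1) → Fin n → ℂ)
    (h : ∀ j, ∑ i, x i * r j i = 1) : ∑ j : Fin (n + 1), (-1) ^ (j : ℕ) *
      Matrix.det (Matrix.of fun k i : Fin n => r (j.succAbove k) i) = 0 := by
  let A : Matrix (Fin (n + 1)) (Fin (n + 1)) ℂ := Matrix.of fun j => (Fin.cons 1 (r j) : Fin (n + 1) → ℂ)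
  have hA : A.det = 0 := by
    rw [← Matrix.exists_mulVec_eq_zero_iff]
    refine ⟨Fin.cons (-1) x, ?_, ?_⟩
    · intro h0
      have := congrFun h0 0
      simp at this
    · funext j
      simp only [Matrix.mulVec, dotProduct, Fin.sum_univ_succ, A, Matrix.of_apply, Fin.cons_zero,
        Fin.cons_succ, Pi.zero_apply]
      have := h j
      have h2 : ∑ i, r j i * x i = 1 := by
        rw [← this]; exact Finset.sum_congr rfl fun i _ => mul_comm _ _
      rw [h2]; ring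
  rw [Matrix.det_succ_column_zero] at hA
  rw [← hA]
  refine Finset.sum_congr rfl fun j _ => ?_
  have h1 : A j 0 = 1 := by simp [A]
  rw [h1, mul_one]
  congr 1

end H55N
end

-- from Lib.H35P.A1
section

namespace H35P

variable (L : PeriodPair)

/-! Chunk A1 (M). Copies, for a general PeriodPair L instead of LL (lattice 3O): liouville = A0_liouville in Lib/H55B/A0.lean;
compl_open, ev_compl, tendsto_punct = A1_open, A1_discrete, A1_tendsto in Lib/H55B/A1.lean (L.isClosed_lattice; the lattice is discrete).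
wp_zero: u = L.weierstrassPExcept 0, analyticAt_weierstrassPExcept, weierstrassPExcept_add (the term 1/0^2 = 0), u 0 = 0 termwise.
wp_inv_tendsto: near 0, ℘ z z^2 → 1, so (℘ z)^(-1) = z^2 (z^2 ℘ z)^(-1) → 0. -/

theorem compl_open : IsOpen {z : ℂ | z ∉ L.lattice} :=
  L.isClosed_lattice.isOpen_compl

theorem ev_compl (z₀ : ℂ) : ∀ᶠ z in nhdsWithin z₀ {z₀}ᶜ, z ∉ L.lattice := by
  have h := L.compl_lattice_sdiff_singleton_mem_nhds z₀
  rw [eventually_nhdsWithin_iff]
  filter_upwards [h] with z hz hne hz'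
  exact hz ⟨hz', hne⟩

theorem tendsto_punct (f : ℂ → ℂ) (z₀ : ℂ) (hf : ContinuousAt f z₀) (hinj : Function.Injective f) :
    Filter.Tendsto f (nhdsWithin z₀ {z₀}ᶜ) (nhdsWithin (f z₀) {f z₀}ᶜ) := by
  rw [tendsto_nhdsWithin_iff]
  refine ⟨hf.tendsto.mono_left nhdsWithin_le_nhds, ?_⟩
  filter_upwards [self_mem_nhdsWithin] with z hz
  intro h
  exact hz (hinj h)

theorem wp_zero : ∃ u : ℂ → ℂ, AnalyticAt ℂ u 0 ∧ u 0 = 0 ∧
    ∀ z : ℂ, z ≠ 0 → L.weierstrassP z = (z ^ 2)⁻¹ + u z := by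
  refine ⟨L.weierstrassPExcept 0, L.analyticAt_weierstrassPExcept 0, ?_, fun z hz => ?_⟩
  · simp [PeriodPair.weierstrassPExcept]
  · have h := L.weierstrassPExcept_add 0 z
    have h' : L.weierstrassPExcept 0 z + (1 / (z - 0) ^ 2 - 1 / (0 : ℂ) ^ 2) = L.weierstrassP z := h
    rw [← h', sub_zero]
    simp
    ring

theorem wp_inv_tendsto : Filter.Tendsto (fun z => (L.weierstrassP z)⁻¹) (nhdsWithin (0 : ℂ) {0}ᶜ) (nhds 0) := by
  obtain ⟨u, hu, hu0, h⟩ := wp_zero L
  have h1 : ContinuousAt (fun z : ℂ => 1 + z ^ 2 * u z) 0 := by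
    have := hu.continuousAt
    fun_prop
  have h2 : Filter.Tendsto (fun z : ℂ => z ^ 2 * (1 + z ^ 2 * u z)⁻¹) (nhds 0) (nhds 0) := by
    have h3 : ContinuousAt (fun z : ℂ => z ^ 2 * (1 + z ^ 2 * u z)⁻¹) 0 := by
      refine ContinuousAt.mul (by fun_prop) (h1.inv₀ ?_)
      simp
    have h4 := h3.tendsto
    simpa using h4
  refine (h2.mono_left nhdsWithin_le_nhds).congr' ?_
  filter_upwards [self_mem_nhdsWithin] with z hz
  have hz0 : z ≠ 0 := hz
  rw [h z hz0]
  have h5 : (z ^ 2)⁻¹ + u z = (1 + z ^ 2 * u z) / z ^ 2 := by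
    field_simp
  rw [h5, inv_div, div_eq_mul_inv]

/-- Liouville for elliptic functions with removable singularities. -/
theorem liouville (D : ℂ → ℂ) (hper : ∀ z, ∀ l ∈ L.lattice, D (z + l) = D z)
    (hD : ∀ z₀, ∃ a : ℂ → ℂ, AnalyticAt ℂ a z₀ ∧ ∀ᶠ z in nhdsWithin z₀ {z₀}ᶜ, D z = a z) :
    ∃ c, ∀ (z₀ : ℂ) (a : ℂ → ℂ), ContinuousAt a z₀ →
      (∀ᶠ z in nhdsWithin z₀ {z₀}ᶜ, D z = a z) → a z₀ = c := by
  classical
  set D' : ℂ → ℂ := fun z => (nhdsWithin z {z}ᶜ).limUnder D with hD'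
  have hlim : ∀ (z₀ : ℂ) (a : ℂ → ℂ), ContinuousAt a z₀ →
      (∀ᶠ z in nhdsWithin z₀ {z₀}ᶜ, D z = a z) → D' z₀ = a z₀ := by
    intro z₀ a ha h
    have h1 : Filter.Tendsto D (nhdsWithin z₀ {z₀}ᶜ) (nhds (a z₀)) := by
      have h2 : Filter.Tendsto a (nhdsWithin z₀ {z₀}ᶜ) (nhds (a z₀)) :=
        ha.tendsto.mono_left nhdsWithin_le_nhds
      refine h2.congr' ?_
      filter_upwards [h] with z hz using hz.symm
    exact h1.limUnder_eq
  have han : ∀ z₀, AnalyticAt ℂ D' z₀ := by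
    intro z₀
    obtain ⟨a, ha, h⟩ := hD z₀
    refine ha.congr ?_
    have h1 : ∀ᶠ z in nhds z₀, ContinuousAt a z :=
      ha.eventually_analyticAt.mono fun z hz => hz.continuousAt
    rw [eventually_nhdsWithin_iff] at h
    have h2 := h.eventually_nhds
    filter_upwards [h1, h2] with z hz1 hz2
    symm
    apply hlim z a hz1
    rw [eventually_nhdsWithin_iff]
    by_cases hz : z = z₀
    · rw [hz]
      exact h
    · filter_upwards [hz2, isOpen_ne.mem_nhds hz] with w hw1 hw2 _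
      exact hw1 hw2
  have hdiff : Differentiable ℂ D' := fun z => (han z).differentiableAt
  have hper' : ∀ z w, w ∈ L.lattice → D' (z + w) = D' z := by
    intro z w hw
    obtain ⟨a, ha, h⟩ := hD z
    have e1 := hlim z a ha.continuousAt h
    have e2 : D' (z + w) = (fun v => a (v - w)) (z + w) := by
      apply hlim (z + w) (fun v => a (v - w))
      · have : ContinuousAt a ((z + w) - w) := by
          rw [add_sub_cancel_right]
          exact ha.continuousAt
        exact ContinuousAt.comp (f := fun v => v - w) this (by fun_prop)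
      · rw [eventually_nhdsWithin_iff] at h ⊢
        have ht : Filter.Tendsto (fun v => v - w) (nhds (z + w)) (nhds z) := by
          have : ContinuousAt (fun v : ℂ => v - w) (z + w) := by fun_prop
          have h3 := this.tendsto
          rw [add_sub_cancel_right] at h3
          exact h3
        filter_upwards [ht.eventually h] with v hv hne
        have h4 : v - w ∈ ({z}ᶜ : Set ℂ) := by
          intro h5
          apply hne
          have h6 : v - w = z := h5
          show v = z + w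
          rw [← h6]
          ring
        have h7 := hv h4
        have h8 := hper (v - w) w hw
        rw [sub_add_cancel] at h8
        rw [h8, h7]
    rw [e2, e1]
    show a (z + w - w) = a z
    rw [add_sub_cancel_right]
  have hbd : Bornology.IsBounded (Set.range D') :=
    (IsZLattice.isCompact_range_of_periodic L.lattice _ hdiff.continuous hper').isBounded
  refine ⟨D' 0, ?_⟩
  intro z₀ a ha h
  rw [← hlim z₀ a ha h]
  exact hdiff.apply_eq_apply_of_bounded hbd z₀ 0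

end H35P
end

-- from Lib.H35P.A2
section

namespace H35P

variable (L : PeriodPair)

/-! Chunk A2 (M). wp_hasDeriv: Mathlib (deriv_weierstrassP, analyticOnNhd_weierstrassP).
wp_nonconst: the complement of the lattice is preconnected (complement of a countable set:
Set.Countable.isPathConnected_compl_of_one_lt_rank), so if ℘ = c on a sequence tending to z₀ then ℘ = c there
(AnalyticAt.eventually_eq_or_eventually_ne, AnalyticOnNhd.eqOn_of_preconnected_of_frequently_eq); contradiction with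
wp_inv_tendsto (if c ≠ 0; if c = 0 use wp_zero: ℘ z ≠ 0 near 0).
wpd_hasDeriv: h = (℘')' - 6℘^2 + g₂/2 is analytic on the complement U of the lattice (℘' analytic: analyticOnNhd_derivWeierstrassP).
Differentiate derivWeierstrassP_sq: 2 ℘' h = 0 on U. If h(z) ≠ 0 then h ≠ 0 near z, so ℘' = 0 near z, ℘ is constant near z:
contradiction with wp_nonconst. -/

theorem wp_analytic (z : ℂ) (hz : z ∉ L.lattice) : AnalyticAt ℂ L.weierstrassP z := by
  exact L.analyticOnNhd_weierstrassP z hz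

theorem wpd_analytic (z : ℂ) (hz : z ∉ L.lattice) : AnalyticAt ℂ L.derivWeierstrassP z := by
  exact L.analyticOnNhd_derivWeierstrassP z hz

theorem wp_hasDeriv (z : ℂ) (hz : z ∉ L.lattice) : HasDerivAt L.weierstrassP (L.derivWeierstrassP z) z := by
  have h := (wp_analytic L z hz).differentiableAt.hasDerivAt
  rwa [L.deriv_weierstrassP] at h

theorem wp_nonconst (z₀ : ℂ) (hz : z₀ ∉ L.lattice) (c : ℂ) :
    ∀ᶠ z in nhdsWithin z₀ {z₀}ᶜ, L.weierstrassP z ≠ c := by
  by_contra hcon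
  have hfr : ∃ᶠ z in nhdsWithin z₀ {z₀}ᶜ, L.weierstrassP z = c := by
    rw [Filter.not_eventually] at hcon
    exact hcon.mono fun z hz => not_not.1 hz
  have hpre : IsPreconnected ((L.lattice : Set ℂ)ᶜ) := by
    have hcount : (L.lattice : Set ℂ).Countable := countable_of_Lindelof_of_discrete (X := L.lattice)
    exact (hcount.isConnected_compl_of_one_lt_rank (by simp)).isPreconnected
  have heq := L.analyticOnNhd_weierstrassP.eqOn_of_preconnected_of_frequently_eq
    (g := fun _ => c) analyticOnNhd_const hpre hz hfr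
  obtain ⟨u, hu, hu0, hwp⟩ := wp_zero L
  have hid : Filter.Tendsto (fun z : ℂ => z) (nhdsWithin (0 : ℂ) {0}ᶜ) (nhds 0) :=
    tendsto_nhdsWithin_of_tendsto_nhds Filter.tendsto_id
  have hut : Filter.Tendsto u (nhdsWithin (0 : ℂ) {0}ᶜ) (nhds 0) := by
    have := hu.continuousAt.tendsto
    rw [hu0] at this
    exact this.comp hid
  have h1 : Filter.Tendsto (fun z : ℂ => z ^ 2 * c) (nhdsWithin (0 : ℂ) {0}ᶜ) (nhds 0) := by
    have := (hid.pow 2).mul_const c
    simpa using this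
  have h2 : Filter.Tendsto (fun z : ℂ => 1 + z ^ 2 * u z) (nhdsWithin (0 : ℂ) {0}ᶜ) (nhds 1) := by
    have := ((hid.pow 2).mul hut).const_add 1
    simpa using this
  have h3 : (fun z : ℂ => z ^ 2 * c) =ᶠ[nhdsWithin (0 : ℂ) {0}ᶜ] fun z : ℂ => 1 + z ^ 2 * u z := by
    filter_upwards [ev_compl L 0, self_mem_nhdsWithin] with z hz1 hz2
    have hz0 : z ≠ 0 := hz2
    have h4 : L.weierstrassP z = c := heq hz1
    rw [← h4, hwp z hz0, mul_add, mul_inv_cancel₀ (pow_ne_zero 2 hz0)]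
  exact zero_ne_one (tendsto_nhds_unique h1 (h2.congr' h3.symm))

theorem wpd_hasDeriv (z : ℂ) (hz : z ∉ L.lattice) :
    HasDerivAt L.derivWeierstrassP (6 * L.weierstrassP z ^ 2 - L.g₂ / 2) z := by
  have hopen := compl_open L
  have hd : ∀ w, w ∉ L.lattice → HasDerivAt L.derivWeierstrassP (deriv L.derivWeierstrassP w) w := fun w hw =>
    (wpd_analytic L w hw).differentiableAt.hasDerivAt
  -- `2 ℘' h = 0`
  have hprod : ∀ w, w ∉ L.lattice → L.derivWeierstrassP w *
      (deriv L.derivWeierstrassP w - (6 * L.weierstrassP w ^ 2 - L.g₂ / 2)) = 0 := by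
    intro w hw
    have hev : (fun z => L.derivWeierstrassP z ^ 2) =ᶠ[nhds w]
        fun z => 4 * L.weierstrassP z ^ 3 - L.g₂ * L.weierstrassP z - L.g₃ := by
      filter_upwards [hopen.mem_nhds hw] with z hz
      exact L.derivWeierstrassP_sq z hz
    have e1 := (hd w hw).pow 2
    have e2 := ((((wp_hasDeriv L w hw).pow 3).const_mul 4).sub ((wp_hasDeriv L w hw).const_mul L.g₂)).sub_const L.g₃
    have e3 := e1.unique (e2.congr_of_eventuallyEq hev)
    simp only [Nat.cast_ofNat, Nat.add_one_sub_one, pow_one] at e3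
    have h2 : (2 : ℂ) ≠ 0 := two_ne_zero
    apply mul_left_cancel₀ h2
    linear_combination e3
  have hcont : ContinuousAt (fun w => deriv L.derivWeierstrassP w - (6 * L.weierstrassP w ^ 2 - L.g₂ / 2)) z :=
    (wpd_analytic L z hz).deriv.continuousAt.sub
      ((((wp_analytic L z hz).continuousAt.pow 2).const_mul 6).sub continuousAt_const)
  have h0 : deriv L.derivWeierstrassP z - (6 * L.weierstrassP z ^ 2 - L.g₂ / 2) = 0 := by
    by_contra hne
    have hev1 : ∀ᶠ w in nhds z, deriv L.derivWeierstrassP w - (6 * L.weierstrassP w ^ 2 - L.g₂ / 2) ≠ 0 :=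
      hcont.eventually_ne hne
    have hev2 : ∀ᶠ w in nhds z, w ∉ L.lattice := hopen.mem_nhds hz
    obtain ⟨r, hr, hball⟩ := Metric.eventually_nhds_iff_ball.1 (hev1.and hev2)
    have hconst : ∀ w ∈ Metric.ball z r, L.weierstrassP w = L.weierstrassP z := by
      intro w hw
      refine Metric.isOpen_ball.is_const_of_deriv_eq_zero (convex_ball z r).isPreconnected (f := L.weierstrassP)
        (fun v hv => (wp_hasDeriv L v (hball v hv).2).differentiableAt.differentiableWithinAt) (fun v hv => ?_) hw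
        (Metric.mem_ball_self hr)
      rw [(wp_hasDeriv L v (hball v hv).2).deriv]
      exact (mul_eq_zero.1 (hprod v (hball v hv).2)).resolve_right (hball v hv).1
    have hnc := wp_nonconst L z hz (L.weierstrassP z)
    have hev3 : ∀ᶠ w in nhdsWithin z {z}ᶜ, L.weierstrassP w = L.weierstrassP z :=
      nhdsWithin_le_nhds (Filter.mem_of_superset (Metric.ball_mem_nhds z hr) hconst)
    obtain ⟨w, hw1, hw2⟩ := (hnc.and hev3).exists
    exact hw1 hw2
  have := hd z hz
  rwa [sub_eq_zero.1 h0] at this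

end H35P
end

-- from Lib.H55B.H2
section

open NumberField IsDedekindDomain

namespace H55B

/-! Chunk H2: a Jacobi symbol computation (rational integers only).
M = X^2 - XY + Y^2 > 0 odd. Y = 0: X = +-1, M = 1. Write Y = 2^k Y', Y' odd. jacobiSym(Y', M) =
jacobiSym(M, |Y'|) up to the sign (-1)^((Y'-1)/2 (M-1)/2) (quadratic reciprocity for Jacobi symbols, also for
negative Y', with J(-1|M) = (-1)^((M-1)/2)), and M = X^2 mod Y' so jacobiSym(M, |Y'|) = 1.
k = 1: M = 5 - XY mod 8 with XY = 2 or 6 mod 8, so M = 3 mod 8 (XY = 2) or 7 mod 8 (XY = 6), M = 3 mod 4: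
the symbol is J(2|M) (-1)^((Y'-1)/2), which is (-1)^((X+1)/2).
k = 2: M = 5 mod 8, J(4|M) = 1, J(Y'|M) = 1. k >= 3: M = 1 mod 8, all factors 1. -/

theorem H2_nat (n M : ℕ) (X : ℤ) (hn : n % 2 = 1) (hM : M % 2 = 1) (hX : IsCoprime X n)
    (h : (n : ℤ) ∣ M - X ^ 2) :
    jacobiSym n M = if n % 4 = 3 ∧ M % 4 = 3 then -1 else 1 := by
  rw [← jacobiSym.quadratic_reciprocity_if hn hM]
  have h1 : jacobiSym (M : ℤ) n = 1 := by
    have h2 : jacobiSym (M : ℤ) n = jacobiSym (X ^ 2) n := by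
      apply jacobiSym.mod_left'
      exact ((Int.modEq_iff_dvd).mpr h).symm
    rw [h2]
    exact jacobiSym.sq_one' (Int.isCoprime_iff_gcd_eq_one.mp hX)
  rw [h1]

theorem H2_int (Y : ℤ) (M : ℕ) (X : ℤ) (hY : Odd Y) (hM : M % 2 = 1) (hX : IsCoprime X Y)
    (h : Y ∣ M - X ^ 2) :
    jacobiSym Y M = if Y % 4 = 3 ∧ M % 4 = 3 then -1 else 1 := by
  rcases Int.natAbs_eq Y with hn | hn
  · have hodd : Y.natAbs % 2 = 1 := by
      have := Int.odd_iff.mp hY
      omega
    have h1 := H2_nat Y.natAbs M X hodd hM (by rw [← hn]; exact hX) (by rw [← hn]; exact h)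
    rw [← hn] at h1
    rw [h1]
    have h2 : Y.natAbs % 4 = 3 ↔ Y % 4 = 3 := by omega
    simp only [h2]
  · have hodd : Y.natAbs % 2 = 1 := by
      have := Int.odd_iff.mp hY
      omega
    have hc : IsCoprime X (Y.natAbs : ℤ) := by
      have h3 : (Y.natAbs : ℤ) = -Y := by omega
      rw [h3]
      exact hX.neg_right
    have hd : (Y.natAbs : ℤ) ∣ M - X ^ 2 := by
      have h3 : (Y.natAbs : ℤ) = -Y := by omega
      rw [h3]
      exact (neg_dvd).mpr h
    have h1 := H2_nat Y.natAbs M X hodd hM hc hd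
    rw [hn, jacobiSym.neg _ (Nat.odd_iff.mpr hM), h1, ← hn]
    have h5 : Y.natAbs % 4 = 1 ∨ Y.natAbs % 4 = 3 := by omega
    have h6 : M % 4 = 1 ∨ M % 4 = 3 := by omega
    have hY4 : Y % 4 = 3 ↔ Y.natAbs % 4 = 1 := by omega
    rw [ZMod.χ₄_nat_eq_if_mod_four]
    simp only [hY4]
    rcases h5 with h5 | h5 <;> rcases h6 with h6 | h6 <;> simp [h5, h6, hM]

theorem jac (X Y : ℤ) (hX : Odd X) (hY : Even Y) (hc : IsCoprime X Y) :
    jacobiSym Y (X ^ 2 - X * Y + Y ^ 2).natAbs =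
      if 4 ∣ Y then 1 else (if X % 4 = 3 then 1 else -1) := by
  set M := (X ^ 2 - X * Y + Y ^ 2).natAbs with hMdef
  have hpos : 0 ≤ X ^ 2 - X * Y + Y ^ 2 := by nlinarith [sq_nonneg (X - Y), sq_nonneg X, sq_nonneg Y, sq_nonneg (2 * X - Y)]
  have hM : (M : ℤ) = X ^ 2 - X * Y + Y ^ 2 := by
    rw [hMdef, Int.natCast_natAbs, abs_of_nonneg hpos]
  by_cases hY0 : Y = 0
  · subst hY0
    have hM1 : M = 1 := by
      rw [isCoprime_zero_right, Int.isUnit_iff] at hc
      rcases hc with rfl | rfl <;> simp [hMdef]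
    rw [hM1, jacobiSym.one_right]
    simp
  · obtain ⟨k, Y', hY', hYk⟩ : ∃ (k : ℕ) (Y' : ℤ), Odd Y' ∧ Y = 2 ^ k * Y' := by
      obtain ⟨k, m, hm, hk⟩ := Nat.exists_eq_two_pow_mul_odd (Int.natAbs_ne_zero.mpr hY0)
      rcases Int.natAbs_eq Y with h | h
      · exact ⟨k, m, by exact_mod_cast hm, by rw [h, hk]; push_cast; ring⟩
      · exact ⟨k, -m, by exact_mod_cast (Odd.neg (by exact_mod_cast hm : Odd (m : ℤ))),
          by rw [h, hk]; push_cast; ring⟩
    have hX8 : X ^ 2 % 8 = 1 := by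
      obtain ⟨t, rfl⟩ := hX
      have h1 : (2 * t + 1) ^ 2 = 4 * (t * (t + 1)) + 1 := by ring
      obtain ⟨s, hs⟩ := Int.even_mul_succ_self t
      rw [h1, hs]
      omega
    have hk1 : 1 ≤ k := by
      by_contra hcon
      have hk0 : k = 0 := by omega
      rw [hk0, pow_zero, one_mul] at hYk
      rw [hYk] at hY
      exact (Int.not_even_iff_odd.mpr hY') hY
    have hMY' : Y' ∣ M - X ^ 2 := by
      rw [hM, hYk]
      exact ⟨2 ^ k * (2 ^ k * Y' - X), by ring⟩
    have hcY' : IsCoprime X Y' := by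
      rw [hYk] at hc
      exact hc.of_mul_right_right
    have hodd4 : ∀ t : ℤ, Odd t → t % 4 = 1 ∨ t % 4 = 3 := by
      intro t ht
      have := Int.odd_iff.mp ht
      omega
    rcases Nat.lt_or_ge k 2 with hk2 | hk2
    · have hk : k = 1 := by omega
      rw [hk, pow_one] at hYk
      obtain ⟨a, x0, ha⟩ : ∃ a x0 : ℤ, X = 4 * a + x0 ∧ x0 = X % 4 := ⟨X / 4, X % 4, by omega, rfl⟩
      obtain ⟨b, y0, hb⟩ : ∃ b y0 : ℤ, Y' = 4 * b + y0 ∧ y0 = Y' % 4 :=
        ⟨Y' / 4, Y' % 4, by omega, rfl⟩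
      have hY2 : Y' ^ 2 % 8 = 1 := by
        obtain ⟨t, rfl⟩ := hY'
        have h1 : (2 * t + 1) ^ 2 = 4 * (t * (t + 1)) + 1 := by ring
        obtain ⟨s, hs⟩ := Int.even_mul_succ_self t
        rw [h1, hs]
        omega
      have hXY : X * Y' = 4 * (4 * a * b + a * y0 + b * x0) + x0 * y0 := by
        rw [ha.1, hb.1]
        ring
      have hMv : (M : ℤ) = X ^ 2 - 2 * (X * Y') + 4 * Y' ^ 2 := by
        rw [hM, hYk]
        ring
      have h4 : ¬ (4 : ℤ) ∣ Y := by
        rw [hYk]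
        have := Int.odd_iff.mp hY'
        omega
      rw [if_neg h4]
      have hmain : (M : ℤ) % 8 = (5 - 2 * (x0 * y0)) % 8 := by
        rw [hMv, hXY]
        omega
      have hMo : M % 2 = 1 := by omega
      have hJ : jacobiSym Y M = jacobiSym 2 M * jacobiSym Y' M := by
        rw [hYk, jacobiSym.mul_left]
      rw [hJ, H2_int Y' M X hY' hMo hcY' hMY', jacobiSym.at_two (Nat.odd_iff.mpr hMo),
        ZMod.χ₈_nat_eq_if_mod_eight]
      rcases hodd4 X hX with hXm | hXm <;> rcases hodd4 Y' hY' with hYm | hYm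
      · rw [ha.2, hb.2, hXm, hYm] at hmain
        have hM8 : M % 8 = 3 := by omega
        have hM4 : M % 4 = 3 := by omega
        simp [hXm, hYm, hM8, hMo]
      · rw [ha.2, hb.2, hXm, hYm] at hmain
        have hM8 : M % 8 = 7 := by omega
        have hM4 : M % 4 = 3 := by omega
        simp [hXm, hYm, hM8, hM4, hMo]
      · rw [ha.2, hb.2, hXm, hYm] at hmain
        have hM8 : M % 8 = 7 := by omega
        have hM4 : M % 4 = 3 := by omega
        simp [hXm, hYm, hM8, hMo]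
      · rw [ha.2, hb.2, hXm, hYm] at hmain
        have hM8 : M % 8 = 3 := by omega
        have hM4 : M % 4 = 3 := by omega
        simp [hXm, hYm, hM8, hM4, hMo]
    · obtain ⟨j, rfl⟩ : ∃ j, k = j + 2 := ⟨k - 2, by omega⟩
      have hY4 : Y = 4 * (2 ^ j * Y') := by
        rw [hYk, pow_add]
        ring
      rw [if_pos ⟨_, hY4⟩]
      have hMv : (M : ℤ) = X ^ 2 - 4 * (X * (2 ^ j * Y')) + 8 * (2 * (2 ^ j * Y') ^ 2) := by
        rw [hM, hY4]
        ring
      have hM4 : M % 4 = 1 := by omega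
      have hMo : M % 2 = 1 := by omega
      rw [hYk, jacobiSym.mul_left, H2_int Y' M X hY' hMo hcY' hMY', if_neg (by omega), mul_one,
        jacobiSym.pow_left]
      rcases Nat.eq_zero_or_pos j with hj | hj
      · rw [hj]
        apply jacobiSym.sq_one
        have : Nat.Coprime 2 M := (Nat.coprime_two_left).mpr (Nat.odd_iff.mpr hMo)
        exact_mod_cast this
      · obtain ⟨i, rfl⟩ : ∃ i, j = i + 1 := ⟨j - 1, by omega⟩
        have hM8 : M % 8 = 1 := by
          have h5 : 4 * (X * (2 ^ (i + 1) * Y')) = 8 * (X * (2 ^ i * Y')) := by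
            rw [pow_succ]
            ring
          rw [h5] at hMv
          omega
        rw [jacobiSym.at_two (Nat.odd_iff.mpr hMo), ZMod.χ₈_nat_eq_if_mod_eight, if_neg (by omega),
          if_pos (Or.inl hM8), one_pow]

end H55B
end

-- from Lib.H35P.Red
section

/-! Definitions for the reduction of a Weierstrass curve at a valuation ring. -/

open WeierstrassCurve

namespace H35P

/-- The Weierstrass equation has coefficients in the valuation ring. -/
structure IntW {k : Type} [Field k] (W : WeierstrassCurve k) (V : ValuationSubring k) : Prop where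
  a1 : W.a₁ ∈ V
  a2 : W.a₂ ∈ V
  a3 : W.a₃ ∈ V
  a4 : W.a₄ ∈ V
  a6 : W.a₆ ∈ V

/-- The Weierstrass equation has good reduction at the valuation ring. -/
structure GoodW {k : Type} [Field k] (W : WeierstrassCurve k) (V : ValuationSubring k) : Prop
    extends IntW W V where
  disc : V.valuation W.Δ = 1

/-- The kernel of reduction. -/
def Ker {k : Type} [Field k] {W : WeierstrassCurve k} (V : ValuationSubring k) :
    W.toAffine.Point → Prop
  | .zero => True
  | .some x _ _ => 1 < V.valuation x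

/-- The local parameter x/y. -/
noncomputable def tt {k : Type} [Field k] {W : WeierstrassCurve k} : W.toAffine.Point → k
  | .zero => 0
  | .some x y _ => x / y

/-- The two points are congruent integral affine points. -/
def Cong {k : Type} [Field k] {W : WeierstrassCurve k} (V : ValuationSubring k)
    (P Q : W.toAffine.Point) : Prop :=
  ∃ x₁ y₁ h₁ x₂ y₂ h₂, P = .some x₁ y₁ h₁ ∧ Q = .some x₂ y₂ h₂ ∧ x₁ ∈ V ∧ y₁ ∈ V ∧ x₂ ∈ V ∧ y₂ ∈ V ∧
    V.valuation (x₁ - x₂) < 1 ∧ V.valuation (y₁ - y₂) < 1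

end H35P
end

-- from Lib.H35P.R1
section

open WeierstrassCurve

namespace H35P

variable {k : Type} [Field k] {W : WeierstrassCurve k} {V : ValuationSubring k}

private theorem R1_le {a : k} (h : a ∈ V) : V.valuation a ≤ 1 := (V.valuation_le_one_iff a).2 h

private theorem R1_cle {a b : k} (h : a ∈ V) {g : V.ValueGroup} (hb : V.valuation b ≤ g) : V.valuation (a * b) ≤ g := by
  rw [map_mul]
  exact (mul_le_of_le_one_left' (R1_le h)).trans hb

/-! Chunk R1 (S/M). Write v = V.valuation. v c ≤ 1 for the coefficients (ValuationSubring.valuation_le_one_iff or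
mem_valuation...). Equation: y^2 + a1 x y + a3 y = x^3 + a2 x^2 + a4 x + a6 (Affine.equation_iff).
val_y: if v x > 1 the right side has value v(x)^3 (Valuation.map_add_eq_of_lt_left etc.); if v y ≤ v x the left side
is ≤ v(x)^2, contradiction; so v y > v x > 1 and the left side has value v(y)^2.
int_y: v x ≤ 1 and v y > 1 would give v(y)^2 = v(lhs) ≤ 1.
tt_sq: v(x/y)^2 = v(x)^2 / v(x)^3. -/

theorem val_y (hI : IntW W V) {x y : k} (h : W.toAffine.Equation x y) (hx : 1 < V.valuation x) :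
    V.valuation y ^ 2 = V.valuation x ^ 3 ∧ V.valuation x < V.valuation y := by
  rw [Affine.equation_iff] at h
  set c := V.valuation x with hc
  set d := V.valuation y with hd
  have hc1 : (1 : V.ValueGroup) ≤ c := hx.le
  have c0 : c ≠ 0 := fun h0 => by
    rw [h0] at hx
    exact absurd hx (not_lt.2 zero_le_one)
  have h23 : c ^ 2 < c ^ 3 := pow_lt_pow_right₀ hx (by norm_num)
  have hr1 : V.valuation (W.a₂ * x ^ 2 + W.a₄ * x + W.a₆) ≤ c ^ 2 := by
    refine V.valuation.map_add_le (V.valuation.map_add_le (R1_cle hI.a2 ?_) (R1_cle hI.a4 ?_)) ?_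
    · rw [map_pow]
    · calc V.valuation x = c ^ 1 := by rw [pow_one]
        _ ≤ c ^ 2 := pow_le_pow_right₀ hc1 (by norm_num)
    · exact (R1_le hI.a6).trans (one_le_pow₀ hc1)
  have hr : V.valuation (x ^ 3 + W.a₂ * x ^ 2 + W.a₄ * x + W.a₆) = c ^ 3 := by
    have e : x ^ 3 + W.a₂ * x ^ 2 + W.a₄ * x + W.a₆ = x ^ 3 + (W.a₂ * x ^ 2 + W.a₄ * x + W.a₆) := by ring
    rw [e, V.valuation.map_add_eq_of_lt_left, map_pow]
    rw [map_pow]
    exact hr1.trans_lt h23
  have hl : V.valuation (y ^ 2 + W.a₁ * x * y + W.a₃ * y) = c ^ 3 := by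
    rw [h, hr]
  have hcd : c < d := by
    by_contra hcon
    rw [not_lt] at hcon
    have h2 : V.valuation (y ^ 2 + W.a₁ * x * y + W.a₃ * y) ≤ c ^ 2 := by
      refine V.valuation.map_add_le (V.valuation.map_add_le ?_ ?_) (R1_cle hI.a3 ?_)
      · rw [map_pow]
        exact pow_le_pow_left' hcon 2
      · rw [mul_assoc]
        refine R1_cle hI.a1 ?_
        rw [map_mul, pow_two]
        exact mul_le_mul' le_rfl hcon
      · calc d ≤ c := hcon
          _ = c ^ 1 := by rw [pow_one]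
          _ ≤ c ^ 2 := pow_le_pow_right₀ hc1 (by norm_num)
    rw [hl] at h2
    exact absurd h2 (not_le.2 h23)
  refine ⟨?_, hcd⟩
  have hd1 : 1 < d := hx.trans hcd
  have d0 : 0 < d := zero_lt_one.trans hd1
  have h3 : V.valuation (W.a₁ * x * y + W.a₃ * y) < V.valuation (y ^ 2) := by
    rw [map_pow, pow_two]
    refine lt_of_le_of_lt (b := c * d) ?_ (mul_lt_mul_of_pos_right hcd d0)
    refine V.valuation.map_add_le ?_ (R1_cle hI.a3 ?_)
    · rw [mul_assoc]
      exact R1_cle hI.a1 (map_mul _ _ _).le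
    · exact le_mul_of_one_le_left' hc1
  have e : y ^ 2 + W.a₁ * x * y + W.a₃ * y = y ^ 2 + (W.a₁ * x * y + W.a₃ * y) := by ring
  rw [e, V.valuation.map_add_eq_of_lt_left h3, map_pow] at hl
  exact hl

theorem int_y (hI : IntW W V) {x y : k} (h : W.toAffine.Equation x y) (hx : V.valuation x ≤ 1) :
    V.valuation y ≤ 1 := by
  rw [Affine.equation_iff] at h
  by_contra hcon
  rw [not_le] at hcon
  set d := V.valuation y with hd
  have d0 : 0 < d := zero_lt_one.trans hcon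
  have hr : V.valuation (x ^ 3 + W.a₂ * x ^ 2 + W.a₄ * x + W.a₆) ≤ 1 := by
    refine V.valuation.map_add_le (V.valuation.map_add_le (V.valuation.map_add_le ?_ (R1_cle hI.a2 ?_))
      (R1_cle hI.a4 hx)) (R1_le hI.a6)
    · rw [map_pow]
      exact pow_le_one' hx 3
    · rw [map_pow]
      exact pow_le_one' hx 2
  have h3 : V.valuation (W.a₁ * x * y + W.a₃ * y) < V.valuation (y ^ 2) := by
    rw [map_pow, pow_two]
    refine lt_of_le_of_lt (b := 1 * d) ?_ (mul_lt_mul_of_pos_right hcon d0)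
    rw [one_mul]
    refine V.valuation.map_add_le ?_ (R1_cle hI.a3 le_rfl)
    rw [mul_assoc]
    refine R1_cle hI.a1 ?_
    rw [map_mul]
    exact mul_le_of_le_one_left' hx
  have e : y ^ 2 + (W.a₁ * x * y + W.a₃ * y) = x ^ 3 + W.a₂ * x ^ 2 + W.a₄ * x + W.a₆ := by
    linear_combination h
  rw [← e, V.valuation.map_add_eq_of_lt_left h3, map_pow] at hr
  exact absurd hr (not_le.2 (one_lt_pow₀ hcon (by norm_num)))

theorem tt_sq (hI : IntW W V) {x y : k} (h : W.toAffine.Nonsingular x y) (hx : 1 < V.valuation x) :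
    V.valuation (tt (W := W) (.some x y h)) ^ 2 * V.valuation x = 1 := by
  obtain ⟨h1, h2⟩ := val_y hI h.1 hx
  have x0 : V.valuation x ≠ 0 := (zero_lt_one.trans hx).ne'
  have y0 : V.valuation y ≠ 0 := (zero_lt_one.trans (hx.trans h2)).ne'
  change V.valuation (x / y) ^ 2 * V.valuation x = 1
  rw [map_div₀, div_pow, h1]
  field_simp

theorem tt_lt (hI : IntW W V) (P : W.toAffine.Point) (h : Ker V P) : V.valuation (tt P) < 1 := by
  match P, h with
  | .zero, _ =>
    change V.valuation 0 < 1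
    rw [map_zero]
    exact zero_lt_one
  | .some x y hn, h =>
    have hx : 1 < V.valuation x := h
    obtain ⟨h1, h2⟩ := val_y hI hn.1 hx
    change V.valuation (x / y) < 1
    rw [map_div₀]
    exact (div_lt_one₀ (zero_lt_one.trans (hx.trans h2))).2 h2

theorem tt_eq_zero (hI : IntW W V) (P : W.toAffine.Point) (h : Ker V P) : tt P = 0 ↔ P = 0 := by
  match P, h with
  | .zero, _ => exact ⟨fun _ => rfl, fun _ => rfl⟩
  | .some x y hn, h =>
    have hx : 1 < V.valuation x := h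
    obtain ⟨h1, h2⟩ := val_y hI hn.1 hx
    have x0 : x ≠ 0 := fun h0 => by
      rw [h0, map_zero] at hx
      exact absurd hx (not_lt.2 zero_le_one)
    have y0 : y ≠ 0 := fun h0 => by
      have := hx.trans h2
      rw [h0, map_zero] at this
      exact absurd this (not_lt.2 zero_le_one)
    constructor
    · intro h3
      exact absurd h3 (div_ne_zero x0 y0)
    · intro h3
      exact absurd h3 (by simp)

/-- t(-P) = -t(P) up to t(P)^2. -/
theorem tt_neg (hI : IntW W V) (P : W.toAffine.Point) (h : Ker V P) :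
    V.valuation (tt (-P) + tt P) ≤ V.valuation (tt P) ^ 2 := by
  match P, h with
  | .zero, _ =>
    change V.valuation (0 + 0) ≤ V.valuation 0 ^ 2
    simp
  | .some x y hn, h =>
    have hx : 1 < V.valuation x := h
    obtain ⟨h1, h2⟩ := val_y hI hn.1 hx
    have x0 : x ≠ 0 := fun h0 => by
      rw [h0, map_zero] at hx
      exact absurd hx (not_lt.2 zero_le_one)
    have hy1 : 1 < V.valuation y := hx.trans h2
    have y0 : y ≠ 0 := fun h0 => by
      rw [h0, map_zero] at hy1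
      exact absurd hy1 (not_lt.2 zero_le_one)
    rw [Affine.Point.neg_some]
    change V.valuation (x / W.toAffine.negY x y + x / y) ≤ V.valuation (x / y) ^ 2
    -- the value of the negative
    have h3 : V.valuation (W.a₁ * x + W.a₃) < V.valuation y := by
      refine lt_of_le_of_lt (V.valuation.map_add_le (R1_cle hI.a1 le_rfl) ((R1_le hI.a3).trans hx.le)) h2
    have hneg : V.valuation (W.toAffine.negY x y) = V.valuation y := by
      have e : W.toAffine.negY x y = -(y + (W.a₁ * x + W.a₃)) := by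
        unfold Affine.negY
        ring
      rw [e, Valuation.map_neg, V.valuation.map_add_eq_of_lt_left h3]
    have n0 : W.toAffine.negY x y ≠ 0 := fun h0 => by
      rw [h0, map_zero] at hneg
      exact (zero_lt_one.trans hy1).ne hneg
    have e : x / W.toAffine.negY x y + x / y = -(x * (W.a₁ * x + W.a₃)) / (W.toAffine.negY x y * y) := by
      rw [div_add_div _ _ n0 y0]
      congr 1
      unfold Affine.negY
      ring
    have hb : V.valuation (W.a₁ * x + W.a₃) ≤ V.valuation x :=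
      V.valuation.map_add_le (R1_cle hI.a1 le_rfl) ((R1_le hI.a3).trans hx.le)
    rw [e, map_div₀, Valuation.map_neg, map_mul, map_mul, hneg, map_div₀, div_pow, pow_two, pow_two]
    exact div_le_div_of_nonneg_right (mul_le_mul' le_rfl hb) zero_le

theorem ker_neg (P : W.toAffine.Point) : Ker V (-P) ↔ Ker V P := by
  match P with
  | .zero => exact Iff.rfl
  | .some x y hn =>
    rw [Affine.Point.neg_some]
    exact Iff.rfl

end H35P
end

-- from Lib.H35P.R2
section

open WeierstrassCurve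

namespace H35P

variable {k : Type} [Field k] [DecidableEq k] {W : WeierstrassCurve k}

/-! Chunk R2 (S/M). Vieta for the intersection with the chord or tangent: Mathlib's
WeierstrassCurve.Affine.addPolynomial_slope together with addPolynomial_eq and Cubic.prod_X_sub_C_eq,
Cubic.toPoly_injective (look at the proof of addPolynomial_slope in
Mathlib/AlgebraicGeometry/EllipticCurve/Affine/Formula.lean: it proves exactly the equality of the coefficients).
The fourth claim: if x₁ ≠ x₂ it is the definition of the slope; if x₁ = x₂ then y₁ = y₂ (Y_eq_of_Y_ne).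
The last one is a polynomial consequence of the first three: with e1, e2, e3 the symmetric functions the left side is
3 l^2 e3 + 2 l m e2 + m^2 e1 (linear_combination 3 l^2 * e3 + 2 l m * e2 + m^2 * e1). -/

/-- The line through two points: slope l, intercept m, third point (x₃, l x₃ + m). -/
theorem vieta {x₁ x₂ y₁ y₂ : k} (h₁ : W.toAffine.Equation x₁ y₁) (h₂ : W.toAffine.Equation x₂ y₂)
    (hxy : ¬(x₁ = x₂ ∧ y₁ = W.toAffine.negY x₂ y₂)) (l m x₃ : k)
    (hl : l = W.toAffine.slope x₁ x₂ y₁ y₂) (hm : m = y₁ - l * x₁) (hx₃ : x₃ = W.toAffine.addX x₁ x₂ l) :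
    x₁ + x₂ + x₃ = l ^ 2 + W.a₁ * l - W.a₂ ∧
    x₁ * x₂ + x₁ * x₃ + x₂ * x₃ = W.a₄ - 2 * l * m - W.a₁ * m - W.a₃ * l ∧
    x₁ * x₂ * x₃ = m ^ 2 + W.a₃ * m - W.a₆ ∧
    y₁ = l * x₁ + m ∧ y₂ = l * x₂ + m ∧ W.toAffine.negAddY x₁ x₂ y₁ l = l * x₃ + m ∧
    x₁ * (l * x₂ + m) * (l * x₃ + m) + x₂ * (l * x₁ + m) * (l * x₃ + m) + x₃ * (l * x₁ + m) * (l * x₂ + m) =
      W.a₃ * l ^ 2 * m - 3 * W.a₆ * l ^ 2 + 2 * W.a₄ * l * m - W.a₁ * l * m ^ 2 - W.a₂ * m ^ 2 := by
  have hA := Affine.addPolynomial_slope h₁ h₂ hxy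
  rw [← hl, ← hx₃, Affine.addPolynomial_eq, neg_inj, Cubic.prod_X_sub_C_eq, Cubic.toPoly_injective, Cubic.mk.injEq] at hA
  obtain ⟨-, hb, hc, hd⟩ := hA
  have e1 : x₁ + x₂ + x₃ = l ^ 2 + W.a₁ * l - W.a₂ := by linear_combination hb
  have e2 : x₁ * x₂ + x₁ * x₃ + x₂ * x₃ = W.a₄ - 2 * l * m - W.a₁ * m - W.a₃ * l := by
    rw [hm]
    linear_combination -hc
  have e3 : x₁ * x₂ * x₃ = m ^ 2 + W.a₃ * m - W.a₆ := by
    rw [hm]
    linear_combination hd
  refine ⟨e1, e2, e3, by rw [hm]; ring, ?_, ?_, ?_⟩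
  · by_cases hx : x₁ = x₂
    · have hy : y₁ ≠ W.toAffine.negY x₂ y₂ := fun h => hxy ⟨hx, h⟩
      have := Affine.Y_eq_of_Y_ne h₁ h₂ hx hy
      rw [hm, ← this, ← hx]
      ring
    · rw [Affine.slope_of_X_ne hx] at hl
      have h0 : x₁ - x₂ ≠ 0 := sub_ne_zero.2 hx
      have h3 : l * (x₁ - x₂) = y₁ - y₂ := by
        rw [hl, div_mul_cancel₀ _ h0]
      rw [hm]
      linear_combination h3
  · unfold Affine.negAddY
    rw [← hx₃, hm]
    ring
  · linear_combination 3 * l ^ 2 * e3 + 2 * l * m * e2 + m ^ 2 * e1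

end H35P
end

-- from Lib.H55N.B1
section

namespace H55N

/-! Chunk B1 (S). Products of summable families. -/

theorem B1_mul {α γ : Type} (f : α → ℂ) (g : γ → ℂ) (hf : Summable fun a => ‖f a‖)
    (hg : Summable fun a => ‖g a‖) (s t : ℂ) (hs : HasSum f s) (ht : HasSum g t) :
    HasSum (fun p : α × γ => f p.1 * g p.2) (s * t) := by
  have hm : Summable (fun p : α × γ => f p.1 * g p.2) := summable_mul_of_summable_norm hf hg
  exact hs.mul ht hm

theorem B1_nmul {α γ : Type} (f : α → ℂ) (g : γ → ℂ) (hf : Summable fun a => ‖f a‖)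
    (hg : Summable fun a => ‖g a‖) : Summable (fun p : α × γ => ‖f p.1 * g p.2‖) :=
  hf.mul_norm hg

theorem B1_aux {β : Type} (n : ℕ) : ∀ (φ : Fin n → β → ℂ) (_ : ∀ j, Summable fun y => ‖φ j y‖),
    Summable (fun f : Fin n → β => ‖∏ j, φ j (f j)‖) ∧
    HasSum (fun f : Fin n → β => ∏ j, φ j (f j)) (∏ j, ∑' y, φ j y) := by
  induction n with
  | zero =>
    intro φ hs
    constructor
    · exact (hasSum_fintype _).summable
    · have h1 := hasSum_unique (fun f : Fin 0 → β => ∏ j, φ j (f j))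
      have h2 : (∏ j : Fin 0, ∑' y, φ j y) = ∏ j, φ j ((default : Fin 0 → β) j) := by
        rw [Fin.prod_univ_zero, Fin.prod_univ_zero]
      rw [h2]
      exact h1
  | succ n ih =>
    intro φ hs
    obtain ⟨ih1, ih2⟩ := ih (fun j => φ j.succ) (fun j => hs j.succ)
    let G : (Fin n → β) → ℂ := fun f => ∏ j, φ (Fin.succ j) (f j)
    have h0 : HasSum (φ 0) (∑' y, φ 0 y) := (hs 0).of_norm.hasSum
    have hsum := B1_mul (φ 0) G (hs 0) ih1 _ _ h0 ih2
    have hp := B1_nmul (φ 0) G (hs 0) ih1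
    let e : β × (Fin n → β) ≃ (Fin (n + 1) → β) := Fin.consEquiv (fun _ => β)
    have he : ∀ p : β × (Fin n → β), ∏ j, φ j (e p j) = φ 0 p.1 * G p.2 := by
      intro p
      rw [Fin.prod_univ_succ]
      rfl
    have he2 : ((fun f : Fin (n + 1) → β => ∏ j, φ j (f j)) ∘ e) = fun p => φ 0 p.1 * G p.2 :=
      funext he
    have he3 : ((fun f : Fin (n + 1) → β => ‖∏ j, φ j (f j)‖) ∘ e) =
        fun p => ‖φ 0 p.1 * G p.2‖ :=
      funext fun p => congrArg norm (he p)
    constructor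
    · rw [← e.summable_iff, he3]
      exact hp
    · rw [← e.hasSum_iff, he2, Fin.prod_univ_succ]
      exact hsum

theorem pi_summable {β : Type} (n : ℕ) (φ : Fin n → β → ℝ) (h0 : ∀ j y, 0 ≤ φ j y)
    (hs : ∀ j, Summable (φ j)) : Summable fun f : Fin n → β => ∏ j, φ j (f j) := by
  have h1 := (B1_aux n (fun j y => ((φ j y : ℝ) : ℂ)) (fun j => by
    refine (hs j).congr fun y => ?_
    rw [Complex.norm_real, Real.norm_of_nonneg (h0 j y)])).1
  refine h1.congr fun f => ?_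
  rw [← Complex.ofReal_prod, Complex.norm_real, Real.norm_of_nonneg]
  exact Finset.prod_nonneg fun j _ => h0 j _

/-- The value of such a sum. -/
theorem pi_hasSum {β : Type} (n : ℕ) (φ : Fin n → β → ℂ) (hs : ∀ j, Summable fun y => ‖φ j y‖) :
    HasSum (fun f : Fin n → β => ∏ j, φ j (f j)) (∏ j, ∑' y, φ j y) :=
  (B1_aux n φ hs).2

end H55N
end

-- from Lib.H35P.R3
section

open WeierstrassCurve

namespace H35P

variable {k : Type} [Field k] {V : ValuationSubring k}

/-! Chunk R3 (M). Pure valuation theory. v = V.valuation, a = v x₁, b = v x₂, d = v x₃, a, b > 1.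
v(l)^2 ≤ max(a, b, d, 1): if v l ≤ 1 clear, else v(l)^2 = v(l^2 + a1 l) = v(x₁+x₂+x₃+a2). Likewise
v(m)^2 ≤ max(1, a b d).
(1) d > 1: suppose d ≤ 1. v(x₁x₂ + x₃(x₁+x₂)) = ab (as d max(a,b) < ab), so
ab ≤ max(1, v(l)v(m), v(m), v(l)). But v(l)^2 ≤ max(a,b) < (ab)^2, v(m)^2 ≤ ab < (ab)^2,
(v(l)v(m))^2 ≤ max(a,b) ab < (ab)^2, 1 < ab: contradiction.
(2) put M = max(a,b,d) ≤ abd. v(l)^2 ≤ M, v(m)^2 ≤ abd. With y_i = l x_i + m, v(y_i)^2 = v(x_i)^3 (hypothesis) we have
v(y₁y₂y₃)^2 = (abd)^3 and (x₁/y₁ + x₂/y₂ + x₃/y₃) y₁y₂y₃ = N, the left side of hN, so v(N)^2 ≤ max of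
M^2 abd, M^2, M abd, M (abd)^2, (abd)^2, hence v(sum)^2 ≤ M/(abd). And c^2 ≥ 1/a, 1/b (hypotheses hca, hcb: c ≥ v(x₁/y₁),
v(x₂/y₂), and v(x_i/y_i)^2 = 1/v(x_i)); M/(abd) is one of 1/(bd), 1/(ad), 1/(ab), each < 1/a or < 1/b, so v(sum)^2 < c^2. -/

theorem r3_mem {a : k} (h : a ∈ V) : V.valuation a ≤ 1 := (V.valuation_le_one_iff a).2 h

theorem r3_nat (n : ℕ) : V.valuation (n : k) ≤ 1 :=
  (V.valuation_le_one_iff _).2 (natCast_mem V n)

theorem r3_mul_le {Γ : Type*} [LinearOrderedCommGroupWithZero Γ] {a b c d : Γ} (h1 : a ≤ b) (h2 : c ≤ d) :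
    a * c ≤ b * d := mul_le_mul' h1 h2

theorem r3_lt {Γ : Type*} [LinearOrderedCommGroupWithZero Γ] {a b : Γ} (ha : 0 < a) (hb : 1 < b) :
    a < a * b := by
  calc a = a * 1 := (mul_one a).symm
    _ < a * b := mul_lt_mul_of_pos_left hb ha

theorem r3_le {a S l : k} (h1 : a ∈ V) (h : l ^ 2 + a * l = S) :
    V.valuation l ^ 2 ≤ max (V.valuation S) 1 := by
  by_cases hl : V.valuation l ≤ 1
  · exact (pow_le_one' hl 2).trans (le_max_right _ _)
  · push Not at hl
    have h2 : V.valuation (a * l) < V.valuation (l ^ 2) := by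
      rw [map_mul, map_pow]
      calc V.valuation a * V.valuation l ≤ 1 * V.valuation l := r3_mul_le (r3_mem h1) le_rfl
        _ = V.valuation l := one_mul _
        _ < V.valuation l * V.valuation l := r3_lt (zero_lt_one.trans hl) hl
        _ = V.valuation l ^ 2 := (sq _).symm
    rw [← h, Valuation.map_add_eq_of_lt_left _ h2, map_pow]
    exact le_max_left _ _

theorem r3_add {x y : k} {c : V.ValueGroup} (hx : V.valuation x ≤ c) (hy : V.valuation y ≤ c) :
    V.valuation (x + y) ≤ c := Valuation.map_add_le _ hx hy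

theorem r3_sub {x y : k} {c : V.ValueGroup} (hx : V.valuation x ≤ c) (hy : V.valuation y ≤ c) :
    V.valuation (x - y) ≤ c := Valuation.map_sub_le _ hx hy

theorem third_big {a₁ a₂ a₃ a₄ a₆ x₁ x₂ x₃ l m : k} (h1 : a₁ ∈ V) (h2 : a₂ ∈ V) (h3 : a₃ ∈ V) (h4 : a₄ ∈ V)
    (h6 : a₆ ∈ V) (s1 : x₁ + x₂ + x₃ = l ^ 2 + a₁ * l - a₂)
    (s2 : x₁ * x₂ + x₁ * x₃ + x₂ * x₃ = a₄ - 2 * l * m - a₁ * m - a₃ * l)
    (s3 : x₁ * x₂ * x₃ = m ^ 2 + a₃ * m - a₆) (ha : 1 < V.valuation x₁) (hb : 1 < V.valuation x₂) :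
    1 < V.valuation x₃ := by
  by_contra hd
  push Not at hd
  have ha0 : 0 < V.valuation x₁ := zero_lt_one.trans ha
  have hb0 : 0 < V.valuation x₂ := zero_lt_one.trans hb
  have hab : 1 < V.valuation x₁ * V.valuation x₂ := ha.trans (r3_lt ha0 hb)
  have hab0 : 0 < V.valuation x₁ * V.valuation x₂ := zero_lt_one.trans hab
  have hM : max (V.valuation x₁) (V.valuation x₂) < V.valuation x₁ * V.valuation x₂ := by
    refine max_lt (r3_lt ha0 hb) ?_
    rw [mul_comm]
    exact r3_lt hb0 ha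
  have h1M : 1 ≤ max (V.valuation x₁) (V.valuation x₂) := ha.le.trans (le_max_left _ _)
  have hl : V.valuation l ^ 2 ≤ max (V.valuation x₁) (V.valuation x₂) := by
    have e : l ^ 2 + a₁ * l = x₁ + x₂ + x₃ + a₂ := by rw [s1]; ring
    refine (r3_le h1 e).trans (max_le ?_ h1M)
    exact r3_add (r3_add (r3_add (le_max_left _ _) (le_max_right _ _)) (hd.trans h1M))
      ((r3_mem h2).trans h1M)
  have hm : V.valuation m ^ 2 ≤ V.valuation x₁ * V.valuation x₂ := by
    have e : m ^ 2 + a₃ * m = x₁ * x₂ * x₃ + a₆ := by rw [s3]; ring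
    refine (r3_le h3 e).trans (max_le ?_ hab.le)
    refine r3_add ?_ ((r3_mem h6).trans hab.le)
    rw [map_mul, map_mul]
    calc _ ≤ V.valuation x₁ * V.valuation x₂ * 1 := r3_mul_le le_rfl hd
      _ = _ := mul_one _
  have key : V.valuation (x₁ * x₂ + x₁ * x₃ + x₂ * x₃) = V.valuation x₁ * V.valuation x₂ := by
    have e : V.valuation (x₁ * x₃ + x₂ * x₃) < V.valuation (x₁ * x₂) := by
      rw [map_mul _ x₁ x₂]
      refine lt_of_le_of_lt ?_ hM
      refine r3_add ?_ ?_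
      · rw [map_mul]
        calc _ ≤ V.valuation x₁ * 1 := r3_mul_le le_rfl hd
          _ = V.valuation x₁ := mul_one _
          _ ≤ _ := le_max_left _ _
      · rw [map_mul]
        calc _ ≤ V.valuation x₂ * 1 := r3_mul_le le_rfl hd
          _ = V.valuation x₂ := mul_one _
          _ ≤ _ := le_max_right _ _
    rw [add_assoc, Valuation.map_add_eq_of_lt_left _ e, map_mul]
  have hsq : V.valuation x₁ * V.valuation x₂ < (V.valuation x₁ * V.valuation x₂) ^ 2 := by
    rw [sq]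
    exact r3_lt hab0 hab
  have hvl : V.valuation l < V.valuation x₁ * V.valuation x₂ :=
    lt_of_pow_lt_pow_left₀ 2 hab0.le (hl.trans_lt (hM.trans hsq))
  have hvm : V.valuation m < V.valuation x₁ * V.valuation x₂ :=
    lt_of_pow_lt_pow_left₀ 2 hab0.le (hm.trans_lt hsq)
  have hvlm : V.valuation l * V.valuation m < V.valuation x₁ * V.valuation x₂ := by
    refine lt_of_pow_lt_pow_left₀ 2 hab0.le ?_
    rw [mul_pow, sq (V.valuation x₁ * V.valuation x₂)]
    calc V.valuation l ^ 2 * V.valuation m ^ 2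
        ≤ max (V.valuation x₁) (V.valuation x₂) * (V.valuation x₁ * V.valuation x₂) := r3_mul_le hl hm
      _ < (V.valuation x₁ * V.valuation x₂) * (V.valuation x₁ * V.valuation x₂) :=
        mul_lt_mul_of_pos_right hM hab0
  have hR : V.valuation (a₄ - 2 * l * m - a₁ * m - a₃ * l) < V.valuation x₁ * V.valuation x₂ := by
    have t0 : V.valuation a₄ < V.valuation x₁ * V.valuation x₂ := (r3_mem h4).trans_lt hab
    have t1 : V.valuation (2 * l * m) < V.valuation x₁ * V.valuation x₂ := by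
      refine lt_of_le_of_lt ?_ hvlm
      rw [map_mul, map_mul]
      have h2' : V.valuation (2 : k) ≤ 1 := by
        have := r3_nat (V := V) 2
        rwa [Nat.cast_ofNat] at this
      calc _ ≤ 1 * V.valuation l * V.valuation m := r3_mul_le (r3_mul_le h2' le_rfl) le_rfl
        _ = _ := by rw [one_mul]
    have t2 : V.valuation (a₁ * m) < V.valuation x₁ * V.valuation x₂ := by
      refine lt_of_le_of_lt ?_ hvm
      rw [map_mul]
      calc _ ≤ 1 * V.valuation m := r3_mul_le (r3_mem h1) le_rfl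
        _ = _ := one_mul _
    have t3 : V.valuation (a₃ * l) < V.valuation x₁ * V.valuation x₂ := by
      refine lt_of_le_of_lt ?_ hvl
      rw [map_mul]
      calc _ ≤ 1 * V.valuation l := r3_mul_le (r3_mem h3) le_rfl
        _ = _ := one_mul _
    exact Valuation.map_sub_lt _ (Valuation.map_sub_lt _ (Valuation.map_sub_lt _ t0 t1) t2) t3
  rw [← s2, key] at hR
  exact lt_irrefl _ hR

theorem third_tt {a₁ a₂ a₃ a₄ a₆ x₁ x₂ x₃ l m : k} (h1 : a₁ ∈ V) (h2 : a₂ ∈ V) (h3 : a₃ ∈ V) (h4 : a₄ ∈ V)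
    (h6 : a₆ ∈ V) (s1 : x₁ + x₂ + x₃ = l ^ 2 + a₁ * l - a₂)
    (s2 : x₁ * x₂ + x₁ * x₃ + x₂ * x₃ = a₄ - 2 * l * m - a₁ * m - a₃ * l)
    (s3 : x₁ * x₂ * x₃ = m ^ 2 + a₃ * m - a₆)
    (hN : x₁ * (l * x₂ + m) * (l * x₃ + m) + x₂ * (l * x₁ + m) * (l * x₃ + m) +
      x₃ * (l * x₁ + m) * (l * x₂ + m) =
      a₃ * l ^ 2 * m - 3 * a₆ * l ^ 2 + 2 * a₄ * l * m - a₁ * l * m ^ 2 - a₂ * m ^ 2)
    (ha : 1 < V.valuation x₁) (hb : 1 < V.valuation x₂)
    (y1 : V.valuation (l * x₁ + m) ^ 2 = V.valuation x₁ ^ 3)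
    (y2 : V.valuation (l * x₂ + m) ^ 2 = V.valuation x₂ ^ 3)
    (y3 : V.valuation (l * x₃ + m) ^ 2 = V.valuation x₃ ^ 3)
    (c : V.ValueGroup) (hca : V.valuation (x₁ / (l * x₁ + m)) ≤ c) (hcb : V.valuation (x₂ / (l * x₂ + m)) ≤ c) :
    V.valuation (x₁ / (l * x₁ + m) + x₂ / (l * x₂ + m) + x₃ / (l * x₃ + m)) < c := by
  have hd : 1 < V.valuation x₃ := third_big h1 h2 h3 h4 h6 s1 s2 s3 ha hb
  have ha0 : 0 < V.valuation x₁ := zero_lt_one.trans ha
  have hb0 : 0 < V.valuation x₂ := zero_lt_one.trans hb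
  have hd0 : 0 < V.valuation x₃ := zero_lt_one.trans hd
  set M : V.ValueGroup := max (max (V.valuation x₁) (V.valuation x₂)) (V.valuation x₃) with hM
  set P : V.ValueGroup := V.valuation x₁ * V.valuation x₂ * V.valuation x₃ with hP
  have h1M : 1 ≤ M := ha.le.trans ((le_max_left _ _).trans (le_max_left _ _))
  have hP0 : 0 < P := mul_pos (mul_pos ha0 hb0) hd0
  have hMP : M ≤ P := by
    refine max_le (max_le ?_ ?_) ?_
    · calc V.valuation x₁ = V.valuation x₁ * 1 * 1 := by rw [mul_one, mul_one]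
        _ ≤ P := r3_mul_le (r3_mul_le le_rfl hb.le) hd.le
    · calc V.valuation x₂ = 1 * V.valuation x₂ * 1 := by rw [one_mul, mul_one]
        _ ≤ P := r3_mul_le (r3_mul_le ha.le le_rfl) hd.le
    · calc V.valuation x₃ = 1 * 1 * V.valuation x₃ := by rw [one_mul, one_mul]
        _ ≤ P := r3_mul_le (r3_mul_le ha.le hb.le) le_rfl
  have h1P : 1 ≤ P := h1M.trans hMP
  have hl : V.valuation l ^ 2 ≤ M := by
    have e : l ^ 2 + a₁ * l = x₁ + x₂ + x₃ + a₂ := by rw [s1]; ring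
    refine (r3_le h1 e).trans (max_le ?_ h1M)
    exact r3_add (r3_add (r3_add ((le_max_left _ _).trans (le_max_left _ _))
      ((le_max_right _ _).trans (le_max_left _ _))) (le_max_right _ _)) ((r3_mem h2).trans h1M)
  have hm : V.valuation m ^ 2 ≤ P := by
    have e : m ^ 2 + a₃ * m = x₁ * x₂ * x₃ + a₆ := by rw [s3]; ring
    refine (r3_le h3 e).trans (max_le ?_ h1P)
    refine r3_add ?_ ((r3_mem h6).trans h1P)
    rw [map_mul, map_mul]
  -- the numerator
  have n2 : V.valuation (2 : k) ≤ 1 := by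
    have := r3_nat (V := V) 2
    rwa [Nat.cast_ofNat] at this
  have n3 : V.valuation (3 : k) ≤ 1 := by
    have := r3_nat (V := V) 3
    rwa [Nat.cast_ofNat] at this
  set L : V.ValueGroup := V.valuation l with hL
  set K : V.ValueGroup := V.valuation m with hK
  have hsq : ∀ z : V.ValueGroup, z ^ 2 ≤ M * P ^ 2 → ∀ w : k, V.valuation w ≤ z →
      V.valuation w ^ 2 ≤ M * P ^ 2 := fun z hz w hw => (pow_le_pow_left' hw 2).trans hz
  have hPP : P ≤ P ^ 2 := by
    rw [sq]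
    calc P = 1 * P := (one_mul _).symm
      _ ≤ P * P := r3_mul_le h1P le_rfl
  have hNsq : V.valuation (a₃ * l ^ 2 * m - 3 * a₆ * l ^ 2 + 2 * a₄ * l * m - a₁ * l * m ^ 2 -
      a₂ * m ^ 2) ^ 2 ≤ M * P ^ 2 := by
    have t1 : V.valuation (a₃ * l ^ 2 * m) ^ 2 ≤ M * P ^ 2 := by
      refine hsq (L ^ 2 * K) ?_ _ ?_
      · calc (L ^ 2 * K) ^ 2 = (L ^ 2 * L ^ 2) * K ^ 2 := by rw [mul_pow, sq (L ^ 2)]
          _ ≤ (M * P) * P := r3_mul_le (r3_mul_le hl (hl.trans hMP)) hm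
          _ = M * P ^ 2 := by rw [sq, mul_assoc]
      · rw [map_mul, map_mul, map_pow]
        calc _ ≤ 1 * L ^ 2 * K := r3_mul_le (r3_mul_le (r3_mem h3) le_rfl) le_rfl
          _ = _ := by rw [one_mul]
    have t2 : V.valuation (3 * a₆ * l ^ 2) ^ 2 ≤ M * P ^ 2 := by
      refine hsq (L ^ 2) ?_ _ ?_
      · calc (L ^ 2) ^ 2 = L ^ 2 * L ^ 2 := sq _
          _ ≤ M * P := r3_mul_le hl (hl.trans hMP)
          _ ≤ M * P ^ 2 := r3_mul_le le_rfl hPP
      · rw [map_mul, map_mul, map_pow]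
        calc _ ≤ 1 * 1 * L ^ 2 := r3_mul_le (r3_mul_le n3 (r3_mem h6)) le_rfl
          _ = _ := by rw [one_mul, one_mul]
    have t3 : V.valuation (2 * a₄ * l * m) ^ 2 ≤ M * P ^ 2 := by
      refine hsq (L * K) ?_ _ ?_
      · calc (L * K) ^ 2 = L ^ 2 * K ^ 2 := mul_pow _ _ _
          _ ≤ M * P := r3_mul_le hl hm
          _ ≤ M * P ^ 2 := r3_mul_le le_rfl hPP
      · rw [map_mul, map_mul, map_mul]
        calc _ ≤ 1 * 1 * L * K := r3_mul_le (r3_mul_le (r3_mul_le n2 (r3_mem h4)) le_rfl) le_rfl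
          _ = _ := by rw [one_mul, one_mul]
    have t4 : V.valuation (a₁ * l * m ^ 2) ^ 2 ≤ M * P ^ 2 := by
      refine hsq (L * K ^ 2) ?_ _ ?_
      · calc (L * K ^ 2) ^ 2 = L ^ 2 * (K ^ 2 * K ^ 2) := by rw [mul_pow, sq (K ^ 2)]
          _ ≤ M * (P * P) := r3_mul_le hl (r3_mul_le hm hm)
          _ = M * P ^ 2 := by rw [sq]
      · rw [map_mul, map_mul, map_pow]
        calc _ ≤ 1 * L * K ^ 2 := r3_mul_le (r3_mul_le (r3_mem h1) le_rfl) le_rfl
          _ = _ := by rw [one_mul]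
    have t5 : V.valuation (a₂ * m ^ 2) ^ 2 ≤ M * P ^ 2 := by
      refine hsq (K ^ 2) ?_ _ ?_
      · calc (K ^ 2) ^ 2 = K ^ 2 * K ^ 2 := sq _
          _ ≤ P * P := r3_mul_le hm hm
          _ = 1 * P ^ 2 := by rw [sq, one_mul]
          _ ≤ M * P ^ 2 := r3_mul_le h1M le_rfl
      · rw [map_mul, map_pow]
        calc _ ≤ 1 * K ^ 2 := r3_mul_le (r3_mem h2) le_rfl
          _ = _ := by rw [one_mul]
    have comb : ∀ x y : k, V.valuation x ^ 2 ≤ M * P ^ 2 → V.valuation y ^ 2 ≤ M * P ^ 2 →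
        V.valuation (x - y) ^ 2 ≤ M * P ^ 2 ∧ V.valuation (x + y) ^ 2 ≤ M * P ^ 2 := by
      intro x y hx hy
      have e : max (V.valuation x) (V.valuation y) ^ 2 ≤ M * P ^ 2 := by
        rcases max_choice (V.valuation x) (V.valuation y) with h | h <;> rw [h] <;> assumption
      exact ⟨(pow_le_pow_left' (r3_sub (le_max_left _ _) (le_max_right _ _)) 2).trans e,
        (pow_le_pow_left' (r3_add (le_max_left _ _) (le_max_right _ _)) 2).trans e⟩
    exact (comb _ _ (comb _ _ (comb _ _ (comb _ _ t1 t2).1 t3).2 t4).1 t5).1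
  -- the three y
  have yn : ∀ x : k, 1 < V.valuation x → V.valuation (l * x + m) ^ 2 = V.valuation x ^ 3 →
      l * x + m ≠ 0 := by
    intro x hx hy h0
    rw [h0, map_zero, zero_pow two_ne_zero] at hy
    exact (pow_ne_zero 3 (zero_lt_one.trans hx).ne') hy.symm
  have q1 := yn x₁ ha y1
  have q2 := yn x₂ hb y2
  have q3 := yn x₃ hd y3
  have hsum : (x₁ / (l * x₁ + m) + x₂ / (l * x₂ + m) + x₃ / (l * x₃ + m)) *
      ((l * x₁ + m) * (l * x₂ + m) * (l * x₃ + m)) =
      a₃ * l ^ 2 * m - 3 * a₆ * l ^ 2 + 2 * a₄ * l * m - a₁ * l * m ^ 2 - a₂ * m ^ 2 := by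
    rw [← hN]
    generalize l * x₁ + m = A at q1 ⊢
    generalize l * x₂ + m = B at q2 ⊢
    generalize l * x₃ + m = C at q3 ⊢
    field_simp
  set S : V.ValueGroup := V.valuation (x₁ / (l * x₁ + m) + x₂ / (l * x₂ + m) + x₃ / (l * x₃ + m))
    with hS
  have hSP : S ^ 2 * P ≤ M := by
    have e1 : S ^ 2 * P ^ 3 ≤ M * P ^ 2 := by
      rw [← hsum, map_mul, map_mul, map_mul, mul_pow, mul_pow, mul_pow, y1, y2, y3, ← mul_pow,
        ← mul_pow] at hNsq
      exact hNsq
    have e2 : S ^ 2 * P * P ^ 2 ≤ M * P ^ 2 := by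
      calc S ^ 2 * P * P ^ 2 = S ^ 2 * P ^ 3 := by rw [mul_assoc, ← pow_succ']
        _ ≤ _ := e1
    exact le_of_mul_le_mul_right e2 (pow_pos hP0 2)
  have hc : ∀ x : k, 1 < V.valuation x → V.valuation (l * x + m) ^ 2 = V.valuation x ^ 3 →
      V.valuation (x / (l * x + m)) ≤ c → 1 ≤ c ^ 2 * V.valuation x := by
    intro x hx hy hxc
    have hx0 : V.valuation x ≠ 0 := (zero_lt_one.trans hx).ne'
    have e : V.valuation (x / (l * x + m)) ^ 2 * V.valuation x = 1 := by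
      rw [map_div₀, div_pow, hy]
      field_simp
    calc (1 : V.ValueGroup) = V.valuation (x / (l * x + m)) ^ 2 * V.valuation x := e.symm
      _ ≤ c ^ 2 * V.valuation x := r3_mul_le (pow_le_pow_left' hxc 2) le_rfl
  have ca := hc x₁ ha y1 hca
  have cb := hc x₂ hb y2 hcb
  by_contra hcon
  push Not at hcon
  have hcM : c ^ 2 * P ≤ M := (r3_mul_le (pow_le_pow_left' hcon 2) le_rfl).trans hSP
  rcases max_choice (max (V.valuation x₁) (V.valuation x₂)) (V.valuation x₃) with h | h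
  · rcases max_choice (V.valuation x₁) (V.valuation x₂) with h' | h'
    · rw [hM, h, h'] at hcM
      have e : (c ^ 2 * V.valuation x₂ * V.valuation x₃) * V.valuation x₁ ≤ 1 * V.valuation x₁ := by
        calc _ = c ^ 2 * P := by rw [hP]; ac_rfl
          _ ≤ _ := hcM
          _ = _ := (one_mul _).symm
      have e' := le_of_mul_le_mul_right e ha0
      have : V.valuation x₃ ≤ 1 := by
        calc V.valuation x₃ = 1 * V.valuation x₃ := (one_mul _).symm
          _ ≤ c ^ 2 * V.valuation x₂ * V.valuation x₃ := r3_mul_le cb le_rfl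
          _ ≤ 1 := e'
      exact absurd this (not_le.2 hd)
    · rw [hM, h, h'] at hcM
      have e : (c ^ 2 * V.valuation x₁ * V.valuation x₃) * V.valuation x₂ ≤ 1 * V.valuation x₂ := by
        calc _ = c ^ 2 * P := by rw [hP]; ac_rfl
          _ ≤ _ := hcM
          _ = _ := (one_mul _).symm
      have e' := le_of_mul_le_mul_right e hb0
      have : V.valuation x₃ ≤ 1 := by
        calc V.valuation x₃ = 1 * V.valuation x₃ := (one_mul _).symm
          _ ≤ c ^ 2 * V.valuation x₁ * V.valuation x₃ := r3_mul_le ca le_rfl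
          _ ≤ 1 := e'
      exact absurd this (not_le.2 hd)
  · rw [hM, h] at hcM
    have e : (c ^ 2 * V.valuation x₁ * V.valuation x₂) * V.valuation x₃ ≤ 1 * V.valuation x₃ := by
      calc _ = c ^ 2 * P := by rw [hP]; ac_rfl
        _ ≤ _ := hcM
        _ = _ := (one_mul _).symm
    have e' := le_of_mul_le_mul_right e hd0
    have : V.valuation x₂ ≤ 1 := by
      calc V.valuation x₂ = 1 * V.valuation x₂ := (one_mul _).symm
        _ ≤ c ^ 2 * V.valuation x₁ * V.valuation x₂ := r3_mul_le ca le_rfl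
        _ ≤ 1 := e'
    exact absurd this (not_le.2 hb)

end H35P
end
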