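import Mathlib
import Pool.Agent.Lib.H1M.PP.D_H55B_Defs
import Pool.Agent.Lib.H1M.PP.M001
import Pool.Agent.Lib.H1M.PP.M006

/-! Merged copies (to shorten the build) of Lib.H16C.FR1, Lib.H55B.H0, Lib.H55B.D0, Lib.H55B.H1, Lib.H55B.Z3, Lib.H16C.FR2. -/

-- from Lib.H16C.FR1
section

/-!
# FR1 (M): the elements of a number field that are integral at a place are fractions `a / c`, `v c = 1`

`F` a subfield of `Ω` finite over the number field `k`, so a number field; `A` a valuation subring of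
`Ω`, `v = A.valuation`, `v(q) < 1` for a prime number `q`.  Elements integral over `ℤ` have `v ≤ 1`
(`ValuationSubring` is integrally closed).  `P = {z ∈ 𝓞 F | v z < 1}` is a prime ideal of `𝓞 F`,
`≠ 0` as `q ∈ P`, so maximal (`𝓞 F` Dedekind).  Let `x ∈ F`, `v x ≤ 1`, `x ≠ 0`.  With the valuation
`w = HeightOneSpectrum.valuation` of `P`: if `w x ≤ 1` then `x = a / c` with `a, c ∈ 𝓞 F`, `c ∉ P`
(the localisation of `𝓞 F` at `P` is the valuation ring of `P`; e.g.
`IsDedekindDomain.HeightOneSpectrum.exists_..`, `Localization.AtPrime`, `IsLocalization.AtPrime`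
is a DVR; or by approximation: write `x = a / d`; choose `u ∈ 𝓞 F` with `ord_P u = ` and
`u d⁻¹ ...`, cf. `n3_...`, `exists_reduced_fraction` after multiplying by a suitable element of
`(d : a)`: the ideal `{c ∈ 𝓞 F | c x ∈ 𝓞 F}` is not contained in `P` when `w x ≤ 1`).  If `w x > 1`
then `x⁻¹ = a / c`, `c ∉ P`, and `w(x⁻¹) < 1` gives `a ∈ P`, so `v(x⁻¹) = v a / v c < 1`,
contradiction with `v x ≤ 1`.
Another proof: the localisation `R` of `𝓞 F` at `P`, inside `F`, is a discrete valuation ring, so a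
maximal proper subring of `F`, and it is contained in the proper subring `{x ∈ F | v x ≤ 1}`.
-/

open NumberField

namespace H16C

variable {k : Type*} [Field k] [NumberField k] {Ω : Type*} [Field Ω] [Algebra k Ω]

theorem FR_le_one (A : ValuationSubring Ω) {x : Ω} (hx : IsIntegral ℤ x) : A.valuation x ≤ 1 := by
  have h1 : IsIntegral A x := hx.tower_top
  obtain ⟨y, hy⟩ := (IsIntegrallyClosed.isIntegral_iff (R := A) (K := Ω)).1 h1
  rw [← hy]
  exact (A.valuation_le_one_iff _).2 y.2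

omit [NumberField k] in
theorem FR_isIntegral (F : IntermediateField k Ω) (z : 𝓞 F) : IsIntegral ℤ ((z : F) : Ω) :=
  (RingOfIntegers.isIntegral_coe z).map (F.val.restrictScalars ℤ)

/-- the prime ideal of the ring of integers of `F` below the place `A` -/
def plc (F : IntermediateField k Ω) (A : ValuationSubring Ω) : Ideal (𝓞 F) where
  carrier := {z | A.valuation ((z : F) : Ω) < 1}
  zero_mem' := by
    change A.valuation (((0 : 𝓞 F) : F) : Ω) < 1
    simp
  add_mem' := by
    intro a b ha hb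
    change A.valuation (((a + b : 𝓞 F) : F) : Ω) < 1
    have e : (((a + b : 𝓞 F) : F) : Ω) = ((a : F) : Ω) + ((b : F) : Ω) := by simp
    rw [e]
    exact A.valuation.map_add_lt ha hb
  smul_mem' := by
    intro a b hb
    change A.valuation (((a * b : 𝓞 F) : F) : Ω) < 1
    have e : (((a * b : 𝓞 F) : F) : Ω) = ((a : F) : Ω) * ((b : F) : Ω) := by simp
    rw [e, map_mul]
    exact lt_of_le_of_lt (mul_le_of_le_one_left' (FR_le_one A (FR_isIntegral F a))) hb

omit [NumberField k] in
theorem mem_plc {F : IntermediateField k Ω} {A : ValuationSubring Ω} {z : 𝓞 F} :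
    z ∈ plc F A ↔ A.valuation ((z : F) : Ω) < 1 := Iff.rfl

omit [NumberField k] in
theorem not_mem_plc {F : IntermediateField k Ω} {A : ValuationSubring Ω} {z : 𝓞 F} :
    z ∉ plc F A ↔ A.valuation ((z : F) : Ω) = 1 := by
  rw [mem_plc, not_lt]
  exact ⟨fun h => le_antisymm (FR_le_one A (FR_isIntegral F z)) h, fun h => h.ge⟩

omit [NumberField k] in
instance plc_isPrime (F : IntermediateField k Ω) (A : ValuationSubring Ω) : (plc F A).IsPrime where
  ne_top' := by
    intro h
    have h1 : (1 : 𝓞 F) ∈ plc F A := by rw [h]; trivial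
    rw [mem_plc] at h1
    simp at h1
  mem_or_mem' := by
    intro x y hxy
    by_contra hc
    rw [not_or] at hc
    have h1 := not_mem_plc.1 hc.1
    have h2 := not_mem_plc.1 hc.2
    rw [mem_plc] at hxy
    have e : (((x * y : 𝓞 F) : F) : Ω) = ((x : F) : Ω) * ((y : F) : Ω) := by simp
    rw [e, map_mul, h1, h2, one_mul] at hxy
    exact lt_irrefl _ hxy

omit [NumberField k] in
theorem natCast_mem_plc (F : IntermediateField k Ω) {A : ValuationSubring Ω} {q : ℕ}
    (hA : A.valuation (q : Ω) < 1) : (q : 𝓞 F) ∈ plc F A := by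
  rw [mem_plc]
  simpa using hA

theorem FR_charZero (k : Type*) [Field k] [NumberField k] (Ω : Type*) [Field Ω] [Algebra k Ω] :
    CharZero Ω := charZero_of_injective_algebraMap (algebraMap k Ω).injective

theorem FR_numberField (F : IntermediateField k Ω) [FiniteDimensional k F] : NumberField F :=
  NumberField.of_module_finite k F

theorem plc_ne_bot (F : IntermediateField k Ω) {A : ValuationSubring Ω} {q : ℕ}
    (hq : q ≠ 0) (hA : A.valuation (q : Ω) < 1) : plc F A ≠ ⊥ := by
  intro h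
  have h1 := natCast_mem_plc F hA
  rw [h, Ideal.mem_bot] at h1
  haveI : CharZero F := charZero_of_injective_algebraMap (algebraMap k F).injective
  have h2 : (q : F) = 0 := by simpa using congrArg (algebraMap (𝓞 F) F) h1
  exact hq (Nat.cast_eq_zero.1 h2)

theorem frac_rep_int (F : IntermediateField k Ω) [FiniteDimensional k F] (A : ValuationSubring Ω) (q : ℕ)
    (hq : q.Prime) (hA : A.valuation (q : Ω) < 1) {x : F} (hvx : A.valuation (x : Ω) ≤ 1) :
    ∃ a c : 𝓞 F, c ∉ plc F A ∧ x * (c : F) = (a : F) := by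
  haveI := FR_numberField F
  let v : IsDedekindDomain.HeightOneSpectrum (𝓞 F) := ⟨plc F A, inferInstance, plc_ne_bot F hq.ne_zero hA⟩
  obtain ⟨n, d, h | h⟩ := IsDedekindDomain.HeightOneSpectrum.exists_primeCompl_mul_eq_or_mul_eq v x
  · exact ⟨n, d, d.2, h⟩
  · refine ⟨d, n, ?_, h⟩
    have hd : A.valuation (((d : 𝓞 F) : F) : Ω) = 1 := not_mem_plc.1 d.2
    intro hn
    rw [mem_plc] at hn
    have h2 : (x : Ω) * ((n : F) : Ω) = (((d : 𝓞 F) : F) : Ω) := by
      have := congrArg (fun z : F => (z : Ω)) h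
      simpa using this
    have h3 : A.valuation ((x : Ω) * ((n : F) : Ω)) < 1 := by
      rw [map_mul]
      exact lt_of_le_of_lt (mul_le_of_le_one_left' hvx) hn
    rw [h2, hd] at h3
    exact lt_irrefl _ h3

theorem frac_rep (F : IntermediateField k Ω) [FiniteDimensional k F] (A : ValuationSubring Ω) (q : ℕ)
    (hq : q.Prime) (hA : A.valuation (q : Ω) < 1) {x : Ω} (hx : x ∈ F) (hvx : A.valuation x ≤ 1) :
    ∃ a c : Ω, a ∈ F ∧ c ∈ F ∧ IsIntegral ℤ a ∧ IsIntegral ℤ c ∧ A.valuation c = 1 ∧ x = a / c := by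
  obtain ⟨a, c, hc, h⟩ := frac_rep_int F A q hq hA (x := ⟨x, hx⟩) hvx
  have hc1 := not_mem_plc.1 hc
  refine ⟨((a : F) : Ω), ((c : F) : Ω), (a : F).2, (c : F).2, FR_isIntegral F a, FR_isIntegral F c, hc1, ?_⟩
  have hc0 : ((c : F) : Ω) ≠ 0 := by
    intro h0
    rw [h0, map_zero] at hc1
    exact zero_ne_one hc1
  rw [eq_div_iff hc0]
  have := congrArg (fun z : F => (z : Ω)) h
  simpa using this

end H16C
end

-- from Lib.H55B.H0
section

open NumberField IsDedekindDomain

namespace H55B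

/-! Chunk H0: basic properties of the symbols.
sym_mul: in a finite field of odd characteristic the product of two nonsquares is a square; in
characteristic 2 (v = (2), O/v of order 4) every element is a square. The set of v dividing a <> 0 is finite
(Mathlib: Ideal.finite_factors or HeightOneSpectrum.Support). IsCoprime x a iff no v contains both (PID).
Sym_euler: Euler criterion in the field O/v (FiniteField / quadraticChar). -/

instance H0_max (v : HeightOneSpectrum O) : v.asIdeal.IsMaximal := v.isMaximal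

theorem H0_finite (v : HeightOneSpectrum O) : Finite (O ⧸ v.asIdeal) :=
  Ideal.finiteQuotientOfFreeOfNeBot v.asIdeal v.ne_bot

open Classical in
theorem H0_sym (v : HeightOneSpectrum O) (x : O) :
    letI := Ideal.Quotient.field v.asIdeal
    letI := @Fintype.ofFinite _ (H0_finite v)
    sym v x = quadraticCharFun (O ⧸ v.asIdeal) (Ideal.Quotient.mk v.asIdeal x) := by
  unfold sym quadraticCharFun
  have : (∃ y : O, x - y ^ 2 ∈ v.asIdeal) ↔ IsSquare (Ideal.Quotient.mk v.asIdeal x) := by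
    constructor
    · rintro ⟨y, hy⟩
      refine ⟨Ideal.Quotient.mk v.asIdeal y, ?_⟩
      rw [← map_mul, Ideal.Quotient.eq, ← pow_two]
      exact hy
    · rintro ⟨y, hy⟩
      obtain ⟨y, rfl⟩ := Ideal.Quotient.mk_surjective y
      refine ⟨y, ?_⟩
      rw [← map_mul, Ideal.Quotient.eq, ← pow_two] at hy
      exact hy
  by_cases h0 : x ∈ v.asIdeal
  · rw [if_pos h0, if_pos ((Ideal.Quotient.eq_zero_iff_mem).2 h0)]
  · rw [if_neg h0, if_neg (fun h => h0 ((Ideal.Quotient.eq_zero_iff_mem).1 h))]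
    by_cases h1 : ∃ y : O, x - y ^ 2 ∈ v.asIdeal
    · rw [if_pos h1, if_pos (this.1 h1)]
    · rw [if_neg h1, if_neg (fun h => h1 (this.2 h))]

theorem sym_mul (v : HeightOneSpectrum O) (x y : O) : sym v (x * y) = sym v x * sym v y := by
  classical
  let i1 := Ideal.Quotient.field v.asIdeal
  let i2 := @Fintype.ofFinite _ (H0_finite v)
  have h1 := H0_sym v x
  have h2 := H0_sym v y
  have h3 := H0_sym v (x * y)
  rw [h1, h2, h3, map_mul]
  exact quadraticCharFun_mul _ _

theorem sym_congr (v : HeightOneSpectrum O) {x y : O} (h : x - y ∈ v.asIdeal) : sym v x = sym v y := by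
  classical
  have h1 := H0_sym v x
  have h2 := H0_sym v y
  rw [h1, h2, (Ideal.Quotient.eq).2 h]

theorem sym_sq (v : HeightOneSpectrum O) {x : O} (h : x ∉ v.asIdeal) : sym v x = 1 ∨ sym v x = -1 := by
  unfold sym
  rw [if_neg h]
  split_ifs
  · exact Or.inl rfl
  · exact Or.inr rfl

/-- Euler criterion. -/
theorem sym_euler (v : HeightOneSpectrum O) (h2 : (2 : O) ∉ v.asIdeal) (x : O) :
    x ^ ((Ideal.absNorm v.asIdeal - 1) / 2) - (sym v x : O) ∈ v.asIdeal := by
  classical
  let i1 := Ideal.Quotient.field v.asIdeal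
  let i2 := @Fintype.ofFinite _ (H0_finite v)
  have h1 := H0_sym v x
  have hchar : ringChar (O ⧸ v.asIdeal) ≠ 2 := by
    intro h
    apply h2
    rw [← Ideal.Quotient.eq_zero_iff_mem]
    have h5 := (ringChar.spec (O ⧸ v.asIdeal) 2).2 (by rw [h])
    have h6 : (Ideal.Quotient.mk v.asIdeal) 2 = (((2 : ℕ) : O ⧸ v.asIdeal)) := by
      rw [← map_natCast (Ideal.Quotient.mk v.asIdeal)]
      norm_num
    rw [h6]
    exact h5
  have hodd := FiniteField.odd_card_of_char_ne_two hchar
  have hN : Ideal.absNorm v.asIdeal = Fintype.card (O ⧸ v.asIdeal) := by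
    rw [Ideal.absNorm_apply, Submodule.cardQuot_apply, Nat.card_eq_fintype_card]
  have hE := quadraticChar_eq_pow_of_char_ne_two' hchar (Ideal.Quotient.mk v.asIdeal x)
  rw [← Ideal.Quotient.eq, map_pow, hN, h1]
  have h3 : (Fintype.card (O ⧸ v.asIdeal) - 1) / 2 = Fintype.card (O ⧸ v.asIdeal) / 2 := by
    omega
  rw [h3, ← hE, map_intCast]
  rfl

theorem finite_dvd {a : O} (ha : a ≠ 0) : {v : HeightOneSpectrum O | a ∈ v.asIdeal}.Finite := by
  have h := Ideal.finite_factors (R := O) (I := Ideal.span {a})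
    (by rw [Ne, Ideal.zero_eq_bot, Ideal.span_singleton_eq_bot]; exact ha)
  refine h.subset ?_
  intro v hv
  simp only [Set.mem_ofPred_eq] at hv ⊢
  rw [Ideal.dvd_span_singleton]
  exact hv

theorem Sym_mul {a : O} (ha : a ≠ 0) (x y : O) : Sym a (x * y) = Sym a x * Sym a y := by
  have h := finprod_mem_mul_distrib (f := fun v => sym v x) (g := fun v => sym v y) (finite_dvd ha)
  unfold Sym
  simp only [Set.mem_ofPred_eq] at h
  rw [← h]
  exact finprod_congr fun v => finprod_congr fun _ => sym_mul v x y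

theorem Sym_per {a : O} (_ha : a ≠ 0) (x y : O) : Sym a (x + a * y) = Sym a x := by
  unfold Sym
  refine finprod_congr fun v => finprod_congr fun hv => sym_congr v ?_
  rw [add_sub_cancel_left]
  exact Ideal.mul_mem_right _ _ hv

theorem H0_coprime {a x : O} (ha : a ≠ 0) :
    IsCoprime x a ↔ ∀ v : HeightOneSpectrum O, a ∈ v.asIdeal → x ∉ v.asIdeal := by
  constructor
  · rintro ⟨b, c, h⟩ v hv hx
    apply v.isPrime.ne_top
    rw [Ideal.eq_top_iff_one, ← h]
    exact v.asIdeal.add_mem (v.asIdeal.mul_mem_left _ hx) (v.asIdeal.mul_mem_left _ hv)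
  · intro h
    by_contra hc
    have hne : Ideal.span {x} ⊔ Ideal.span {a} ≠ ⊤ := by
      intro htop
      apply hc
      rw [← Ideal.isCoprime_span_singleton_iff, Ideal.isCoprime_iff_sup_eq]
      exact htop
    obtain ⟨M, hM, hle⟩ := Ideal.exists_le_maximal _ hne
    have hxM : x ∈ M := hle (Ideal.mem_sup_left (Ideal.mem_span_singleton_self x))
    have haM : a ∈ M := hle (Ideal.mem_sup_right (Ideal.mem_span_singleton_self a))
    have hMb : M ≠ ⊥ := by
      intro hb
      rw [hb, Ideal.mem_bot] at haM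
      exact ha haM
    exact h ⟨M, hM.isPrime, hMb⟩ haM hxM

theorem Sym_coprime {a : O} (ha : a ≠ 0) {x : O} (h : IsCoprime x a) : Sym a x = 1 ∨ Sym a x = -1 := by
  rw [H0_coprime ha] at h
  unfold Sym
  refine finprod_mem_induction (s := {v : HeightOneSpectrum O | a ∈ v.asIdeal})
    (fun z : ℤ => z = 1 ∨ z = -1) (Or.inl rfl) ?_ ?_
  · rintro z w (rfl | rfl) (rfl | rfl) <;> simp
  · intro v hv
    exact sym_sq v (h v hv)

theorem Sym_zero {a : O} (ha : a ≠ 0) {x : O} (h : ¬ IsCoprime x a) : Sym a x = 0 := by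
  classical
  rw [H0_coprime ha] at h
  push Not at h
  obtain ⟨v, hv, hx⟩ := h
  have h1 : Sym a x = ∏ᶠ v ∈ {v : HeightOneSpectrum O | a ∈ v.asIdeal}, sym v x := rfl
  rw [h1, finprod_mem_eq_finite_toFinset_prod _ (finite_dvd ha)]
  refine Finset.prod_eq_zero (i := v) ?_ ?_
  · rw [Set.Finite.mem_toFinset]
    exact hv
  · unfold sym
    rw [if_pos hx]

theorem H0_fp1 (a : O) (f : HeightOneSpectrum O → ℤ) (h : ∀ v, a ∈ v.asIdeal → f v = 1) :
    ∏ᶠ (v : HeightOneSpectrum O) (_ : a ∈ v.asIdeal), f v = 1 :=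
  finprod_mem_of_eqOn_one (s := {v : HeightOneSpectrum O | a ∈ v.asIdeal}) (f := f)
    fun v hv => h v hv

theorem H0_sym_one (v : HeightOneSpectrum O) : sym v 1 = 1 := by
  unfold sym
  rw [if_neg, if_pos]
  · exact ⟨1, by simp⟩
  · exact (Ideal.ne_top_iff_one _).1 v.isPrime.ne_top

theorem Sym_one (a : O) : Sym a 1 = 1 := by
  unfold Sym
  refine H0_fp1 a _ fun v _ => ?_
  exact H0_sym_one v

theorem Sym_unit {a : O} (ha : IsUnit a) (x : O) : Sym a x = 1 := by
  unfold Sym
  refine H0_fp1 a _ fun v h => ?_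
  exact absurd (Ideal.eq_top_of_isUnit_mem _ h ha) v.isPrime.ne_top

theorem Sym_mul_unit (a : O) (u : Oˣ) (x : O) : Sym (u * a) x = Sym a x := by
  unfold Sym
  refine finprod_congr fun v => ?_
  have : ((u : O) * a ∈ v.asIdeal) = (a ∈ v.asIdeal) := by
    rw [eq_iff_iff, Ideal.unit_mul_mem_iff_mem _ u.isUnit]
  rw [this]

theorem H0_om3 : (om : O) ^ 3 = 1 := by
  have h : IsPrimitiveRoot om 3 := zeta_spec.toInteger_isPrimitiveRoot
  exact h.pow_eq_one

/-- om is a square: om = (om^2)^2. -/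
theorem sym_om (v : HeightOneSpectrum O) : sym v om = 1 := by
  have h3 := H0_om3
  unfold sym
  rw [if_neg, if_pos]
  · refine ⟨om ^ 2, ?_⟩
    have : om - (om ^ 2) ^ 2 = 0 := by
      have : (om ^ 2) ^ 2 = om ^ 3 * om := by ring
      rw [this, h3]; ring
    rw [this]
    exact v.asIdeal.zero_mem
  · intro h
    apply v.isPrime.ne_top
    rw [Ideal.eq_top_iff_one, ← h3]
    exact Ideal.pow_mem_of_mem _ h 3 (by norm_num)

theorem Sym_om (a : O) : Sym a om = 1 := by
  unfold Sym
  refine H0_fp1 a _ fun v _ => ?_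
  exact sym_om v

end H55B
end

-- from Lib.H55B.D0
section

open NumberField IsDedekindDomain

namespace H55B

/-! Chunk D0: a valuation of the complex numbers with v(2) < 1.
The localization of the integers at (2), as a local subring of C, is dominated by a valuation subring
(LocalSubring.exists_le_valuationSubring / exists_valuationRing_of_isMax or the like in Mathlib), in which 2
is a nonunit. Integral elements have v <= 1: v(e x) <= 1 for Eisenstein integers since v(e om)^3 = 1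
and e om is a root of unity. -/

theorem exists_val : ∃ A : ValuationSubring ℂ, A.valuation 2 < 1 := by
  let A : Subring ℂ := (Int.castRingHom ℂ).range
  have h2A : (2 : ℂ) ∈ A := ⟨2, by simp⟩
  let t : A := ⟨2, h2A⟩
  have hI : Ideal.span {t} ≠ ⊤ := by
    intro h
    have h1 : (1 : A) ∈ Ideal.span {t} := by rw [h]; trivial
    rw [Ideal.mem_span_singleton] at h1
    obtain ⟨⟨c, ⟨n, hn⟩⟩, hc⟩ := h1
    have h3 : (1 : ℂ) = 2 * c := congrArg Subtype.val hc
    rw [← hn] at h3
    simp only [eq_intCast] at h3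
    have h4 : (1 : ℤ) = 2 * n := by exact_mod_cast h3
    omega
  obtain ⟨B, -, hB⟩ := Ideal.image_subset_nonunits_valuationSubring (Ideal.span {t}) hI
  refine ⟨B, ?_⟩
  rw [← ValuationSubring.mem_nonunits_iff]
  exact hB ⟨t, Ideal.mem_span_singleton_self t, rfl⟩

private lemma val_int_le (A : ValuationSubring ℂ) (n : ℤ) : A.valuation (n : ℂ) ≤ 1 := by
  rw [ValuationSubring.valuation_le_one_iff]
  exact intCast_mem A n

theorem val_e_le (A : ValuationSubring ℂ) (x : O) : A.valuation (e x) ≤ 1 := by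
  obtain ⟨a, b, rfl⟩ := exists_repr x
  have hom : A.valuation (e om) ≤ 1 := by
    by_contra h
    push Not at h
    have h3 : (e om) ^ 3 = 1 := by
      linear_combination (e om - 1) * e_om_rel
    have h4 : A.valuation (e om) ^ 3 = 1 := by rw [← map_pow, h3, map_one]
    have h5 : 1 < A.valuation (e om) ^ 3 := one_lt_pow₀ h (by norm_num)
    rw [h4] at h5
    exact lt_irrefl _ h5
  simp only [map_add, map_mul, map_intCast]
  refine (Valuation.map_add _ _ _).trans (max_le (val_int_le A a) ?_)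
  rw [map_mul]
  exact mul_le_one' (val_int_le A b) hom

private lemma val_nat_le (A : ValuationSubring ℂ) (n : ℕ) : A.valuation (n : ℂ) ≤ 1 := by
  have := val_int_le A n
  simpa using this

theorem val_even (A : ValuationSubring ℂ) (h2 : A.valuation 2 < 1) (n : ℕ) (hn : Even n) :
    A.valuation (n : ℂ) < 1 := by
  obtain ⟨k, rfl⟩ := hn
  have : ((k + k : ℕ) : ℂ) = 2 * (k : ℂ) := by push_cast; ring
  rw [this, map_mul]
  exact mul_lt_one_of_lt_of_le h2 (val_nat_le A k)

theorem val_odd (A : ValuationSubring ℂ) (h2 : A.valuation 2 < 1) (n : ℕ) (hn : Odd n) :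
    A.valuation (n : ℂ) = 1 := by
  obtain ⟨k, rfl⟩ := hn
  have h := val_even A h2 (2 * k) ⟨k, by ring⟩
  have : ((2 * k + 1 : ℕ) : ℂ) = 1 + ((2 * k : ℕ) : ℂ) := by push_cast; ring
  rw [this]
  exact Valuation.map_one_add_of_lt _ h

/-- If the norm of x is odd then e x is a unit of A: (e x)(e (cj x)) = Nm x. -/
theorem val_e_odd (A : ValuationSubring ℂ) (h2 : A.valuation 2 < 1) (x : O) (hx : Odd (Nm x)) :
    A.valuation (e x) = 1 := by
  have h := val_odd A h2 _ hx
  have h1 : ((Nm x : ℕ) : ℂ) = e x * e (cj x) := by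
    rw [← map_mul, mul_cj, map_natCast]
  rw [h1, map_mul] at h
  refine le_antisymm (val_e_le A x) ?_
  calc (1 : _) = A.valuation (e x) * A.valuation (e (cj x)) := h.symm
    _ ≤ A.valuation (e x) * 1 := by gcongr; exact val_e_le A (cj x)
    _ = A.valuation (e x) := mul_one _

end H55B
end

-- from Lib.H55B.H1
section

open NumberField IsDedekindDomain

namespace H55B

/-! Chunk H1: the symbol at primes of prime norm and at inert primes.
(a) P = (a + b om) with norm a prime number l > 3: O/P is F_l, l does not divide b, om = -a/b in F_l, so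
c + d om maps to (b c - a d)/b. An element of O is a square mod P iff its image in F_l = Z/l is a square.
(b) P = (q), q a rational prime, q = 2 mod 3, q odd: x^q = cj x mod q, so x^((q^2-1)/2) = (Nm x)^((q-1)/2)
mod q; with sym_euler. -/

theorem H1_int_mem {v : HeightOneSpectrum O} {l : ℕ} (hl : l.Prime) (h : (l : O) ∈ v.asIdeal) (n : ℤ) :
    (n : O) ∈ v.asIdeal ↔ (l : ℤ) ∣ n := by
  constructor
  · intro hn
    by_contra hd
    have hc : IsCoprime (l : ℤ) n := by
      rw [Int.isCoprime_iff_gcd_eq_one]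
      have := (Nat.Prime.coprime_iff_not_dvd hl (n := n.natAbs)).2 (by
        intro h1
        exact hd (Int.natCast_dvd.2 h1))
      rw [Int.gcd_eq_natAbs, Int.natAbs_natCast]
      exact this
    obtain ⟨x, y, hxy⟩ := hc
    apply v.isPrime.ne_top
    rw [Ideal.eq_top_iff_one]
    have e : (1 : O) = (x : O) * (l : O) + (y : O) * (n : O) := by
      have := congrArg (fun z : ℤ => (z : O)) hxy
      push_cast at this
      exact this.symm
    rw [e]
    exact v.asIdeal.add_mem (v.asIdeal.mul_mem_left _ h) (v.asIdeal.mul_mem_left _ hn)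
  · rintro ⟨k, rfl⟩
    push_cast
    exact v.asIdeal.mul_mem_right _ h

theorem H1_coprime {l : ℕ} (hl : l.Prime) {a b : ℤ} (hN : (l : ℤ) = a ^ 2 - a * b + b ^ 2) :
    ¬ (l : ℤ) ∣ b := by
  intro hb
  have hlp : Prime (l : ℤ) := Nat.prime_iff_prime_int.1 hl
  have ha : (l : ℤ) ∣ a := by
    apply hlp.dvd_of_dvd_pow (n := 2)
    have : a ^ 2 = l + (a - b) * b := by rw [hN]; ring
    rw [this]
    exact dvd_add dvd_rfl (dvd_mul_of_dvd_right hb _)
  obtain ⟨x, hx⟩ := ha
  obtain ⟨y, hy⟩ := hb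
  have h1 : (l : ℤ) * (l * (x ^ 2 - x * y + y ^ 2)) = l * 1 := by
    rw [mul_one]
    conv_rhs => rw [hN]
    rw [hx, hy]; ring
  have h2 := mul_left_cancel₀ hlp.ne_zero h1
  exact hlp.not_isUnit (IsUnit.of_mul_eq_one _ h2)

theorem sym_split (v : HeightOneSpectrum O) (a b : ℤ) (l : ℕ) [Fact l.Prime] (hl : 3 < l)
    (hv : v.asIdeal = Ideal.span {(a : O) + b * om}) (hN : (l : ℤ) = a ^ 2 - a * b + b ^ 2)
    (c d : ℤ) : sym v (c + d * om) = legendreSym l (b * c - a * d) * legendreSym l b := by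
  have hlp : l.Prime := Fact.out
  have hgen : (a : O) + b * om ∈ v.asIdeal := by
    rw [hv]; exact Ideal.mem_span_singleton_self _
  have hlv : (l : O) ∈ v.asIdeal := by
    have h1 := Nm_repr a b
    rw [← hN] at h1
    have h2 := mul_cj ((a : O) + b * om)
    have h3 : ((Nm ((a : O) + b * om) : ℕ) : O) = (l : O) := by
      have : Nm ((a : O) + b * om) = l := by exact_mod_cast h1
      rw [this]
    rw [← h3, ← h2]
    exact v.asIdeal.mul_mem_right _ hgen
  have hb := H1_coprime hlp hN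
  obtain ⟨x, y, hxy⟩ : IsCoprime b (l : ℤ) := by
    rw [Int.isCoprime_iff_gcd_eq_one]
    have := (Nat.Prime.coprime_iff_not_dvd hlp (n := b.natAbs)).2 (by
      intro h1
      exact hb (Int.natCast_dvd.2 h1))
    rw [Int.gcd_eq_natAbs, Int.natAbs_natCast]
    exact this.symm
  -- every element is congruent to an integer
  have hint : ∀ z : O, ∃ m : ℤ, z - (m : O) ∈ v.asIdeal := by
    intro z
    obtain ⟨z0, z1, hz⟩ := exists_repr z
    refine ⟨z0 - z1 * x * a, ?_⟩
    have e : z - ((z0 - z1 * x * a : ℤ) : O) =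
        (z1 * x : O) * ((a : O) + b * om) + (z1 * y * om : O) * (l : O) := by
      have h1 := congrArg (fun z : ℤ => (z : O)) hxy
      push_cast at h1
      rw [hz]
      push_cast
      linear_combination (-(z1 : O) * om) * h1
    rw [e]
    exact v.asIdeal.add_mem (v.asIdeal.mul_mem_left _ hgen) (v.asIdeal.mul_mem_left _ hlv)
  have hsymint : ∀ n : ℤ, sym v (n : O) = legendreSym l n := by
    intro n
    unfold sym
    by_cases h1 : (n : O) ∈ v.asIdeal
    · rw [if_pos h1]
      have h2 := (H1_int_mem hlp hlv n).1 h1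
      have : ((n : ℤ) : ZMod l) = 0 := (ZMod.intCast_zmod_eq_zero_iff_dvd n l).2 h2
      exact ((legendreSym.eq_zero_iff l n).2 this).symm
    · rw [if_neg h1]
      have h2 : ((n : ℤ) : ZMod l) ≠ 0 := by
        intro h
        exact h1 ((H1_int_mem hlp hlv n).2 ((ZMod.intCast_zmod_eq_zero_iff_dvd n l).1 h))
      by_cases h3 : ∃ y : O, (n : O) - y ^ 2 ∈ v.asIdeal
      · rw [if_pos h3]
        obtain ⟨z, hz⟩ := h3
        obtain ⟨m, hm⟩ := hint z
        have h4 : ((n - m ^ 2 : ℤ) : O) ∈ v.asIdeal := by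
          have e : ((n - m ^ 2 : ℤ) : O) = ((n : O) - z ^ 2) + (z + m) * (z - m) := by
            push_cast; ring
          rw [e]
          exact v.asIdeal.add_mem hz (v.asIdeal.mul_mem_left _ hm)
        have h5 := (ZMod.intCast_zmod_eq_zero_iff_dvd _ l).2 ((H1_int_mem hlp hlv _).1 h4)
        push_cast at h5
        symm
        rw [legendreSym.eq_one_iff l h2]
        exact ⟨(m : ZMod l), by rw [← sq]; exact sub_eq_zero.1 h5⟩
      · rw [if_neg h3]
        symm
        rw [legendreSym.eq_neg_one_iff l]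
        rintro ⟨m, hm⟩
        obtain ⟨k, rfl⟩ := ZMod.intCast_surjective m
        apply h3
        refine ⟨(k : O), ?_⟩
        have h5 : ((n - k ^ 2 : ℤ) : ZMod l) = 0 := by
          push_cast
          rw [hm]; ring
        have h6 := (H1_int_mem hlp hlv _).2 ((ZMod.intCast_zmod_eq_zero_iff_dvd _ l).1 h5)
        push_cast at h6
        exact h6
  have h1 : sym v (b : O) * sym v (c + d * om) = legendreSym l (b * c - a * d) := by
    rw [← sym_mul, ← hsymint]
    apply sym_congr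
    have e : (b : O) * (c + d * om) - ((b * c - a * d : ℤ) : O) = d * ((a : O) + b * om) := by
      push_cast; ring
    rw [e]
    exact v.asIdeal.mul_mem_left _ hgen
  rw [hsymint b] at h1
  have h2 : legendreSym l b ^ 2 = 1 := by
    apply legendreSym.sq_one
    intro h
    exact hb ((ZMod.intCast_zmod_eq_zero_iff_dvd b l).1 h)
  rw [← h1]
  linear_combination (-(sym v (c + d * om))) * h2

/-- a rational prime `1` mod `3` is not inert -/
theorem H1_mod3 (v : HeightOneSpectrum O) {q : ℕ} (hq : q.Prime) (hq3 : q ≠ 3)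
    (hv : v.asIdeal = Ideal.span {(q : O)}) : q % 3 = 2 := by
  by_contra hne
  have hqm : q % 3 = 1 := by
    have h0 : q % 3 ≠ 0 := by
      intro h
      exact hq3 ((Nat.prime_dvd_prime_iff_eq Nat.prime_three hq).1 (Nat.dvd_of_mod_eq_zero h)).symm
    omega
  have := Fact.mk hq
  -- a primitive cube root of unity modulo q
  obtain ⟨g, hg⟩ : ∃ g : (ZMod q)ˣ, orderOf g = 3 := by
    have h3 : 3 ∣ Fintype.card (ZMod q)ˣ := by
      rw [ZMod.card_units]
      omega
    have := Fact.mk Nat.prime_three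
    exact exists_prime_orderOf_dvd_card 3 h3
  have hg1 : (g : ZMod q) ^ 3 = 1 := by
    have := pow_orderOf_eq_one g
    rw [hg] at this
    have h1 := congrArg Units.val this
    rwa [Units.val_pow_eq_pow_val, Units.val_one] at h1
  have hgne : (g : ZMod q) ≠ 1 := by
    intro h
    have : g = 1 := Units.ext h
    rw [this, orderOf_one] at hg
    exact absurd hg (by norm_num)
  obtain ⟨n, hn⟩ := ZMod.intCast_surjective (g : ZMod q)
  have h2 : ((n ^ 2 + n + 1 : ℤ) : ZMod q) = 0 := by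
    push_cast
    rw [hn]
    have h3 : ((g : ZMod q) - 1) * ((g : ZMod q) ^ 2 + g + 1) = 0 := by
      linear_combination hg1
    rcases mul_eq_zero.1 h3 with h | h
    · exact absurd (sub_eq_zero.1 h) hgne
    · exact h
  obtain ⟨k, hk⟩ := (ZMod.intCast_zmod_eq_zero_iff_dvd _ q).1 h2
  have hk' := congrArg (fun z : ℤ => (z : O)) hk
  push_cast at hk'
  have h4 : (om - (n : O)) * (om ^ 2 - (n : O)) ∈ v.asIdeal := by
    have e : (om - (n : O)) * (om ^ 2 - (n : O)) = (q : O) * k := by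
      linear_combination (om - 1 - (n : O)) * om_rel + hk'
    rw [e, hv]
    exact Ideal.mul_mem_right _ _ (Ideal.mem_span_singleton_self _)
  have hno : ∀ s t : ℤ, ¬ (q : ℤ) ∣ t → (s : O) + (t : O) * om ∉ v.asIdeal := by
    intro s t ht hmem
    rw [hv, Ideal.mem_span_singleton] at hmem
    obtain ⟨z, hz⟩ := hmem
    obtain ⟨z0, z1, rfl⟩ := exists_repr z
    have e : (s : O) + (t : O) * om = ((q * z0 : ℤ) : O) + ((q * z1 : ℤ) : O) * om := by
      rw [hz]; push_cast; ring
    have := (repr_unique e).2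
    exact ht ⟨z1, this⟩
  have hq1 : ¬ (q : ℤ) ∣ 1 := by
    intro h
    have : q ∣ 1 := by exact_mod_cast h
    exact hq.one_lt.ne' (Nat.dvd_one.1 this)
  rcases v.isPrime.mem_or_mem h4 with h | h
  · apply hno (-n) 1 hq1
    have e : ((-n : ℤ) : O) + ((1 : ℤ) : O) * om = om - n := by push_cast; ring
    rw [e]; exact h
  · apply hno (-1 - n) (-1) (by rw [dvd_neg]; exact hq1)
    have e : ((-1 - n : ℤ) : O) + ((-1 : ℤ) : O) * om = om ^ 2 - n := by
      push_cast; linear_combination -om_rel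
    rw [e]; exact h

theorem sym_inert (v : HeightOneSpectrum O) (q : ℕ) [Fact q.Prime] (hq : q ≠ 2) (hq3 : q ≠ 3)
    (hv : v.asIdeal = Ideal.span {(q : O)}) (x : O) : sym v x = legendreSym q (Nm x) := by
  have hqp : q.Prime := Fact.out
  have hqm := H1_mod3 v hqp hq3 hv
  have hodd : Odd q := hqp.odd_of_ne_two hq
  have hqv : (q : O) ∈ v.asIdeal := by rw [hv]; exact Ideal.mem_span_singleton_self _
  have hN : Ideal.absNorm v.asIdeal = q ^ 2 := by
    have h1 := Nm_repr q 0
    push_cast at h1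
    rw [zero_mul, add_zero] at h1
    have h2 : (Nm (q : O) : ℤ) = (q ^ 2 : ℕ) := by rw [h1]; push_cast; ring
    rw [hv]
    exact_mod_cast h2
  have h2v : (2 : O) ∉ v.asIdeal := by
    intro h
    have := (H1_int_mem hqp hqv 2).1 (by exact_mod_cast h)
    have h3 : q ∣ 2 := by exact_mod_cast this
    exact hq ((Nat.prime_dvd_prime_iff_eq hqp Nat.prime_two).1 h3)
  have he := sym_euler v h2v x
  rw [hN] at he
  -- x ^ q = cj x modulo q
  have hfrob : x ^ q - cj x ∈ v.asIdeal := by
    obtain ⟨a, b, rfl⟩ := exists_repr x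
    have hch : CharP (O ⧸ v.asIdeal) q := by
      have h0 : ((q : ℕ) : O ⧸ v.asIdeal) = 0 := by
        have := Ideal.Quotient.eq_zero_iff_mem.2 hqv
        simpa using this
      have : Nontrivial (O ⧸ v.asIdeal) := Ideal.Quotient.nontrivial_iff.2 v.isPrime.ne_top
      exact (CharP.charP_iff_prime_eq_zero hqp).2 h0
    rw [← Ideal.Quotient.eq_zero_iff_mem, map_sub, sub_eq_zero, map_pow]
    have e1 : cj ((a : O) + b * om) = a + b * om ^ 2 := by
      rw [map_add, map_mul, map_intCast, map_intCast, cj_om]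
    have hint : ∀ n : ℤ, ((n : ℤ) : O ⧸ v.asIdeal) ^ q = (n : O ⧸ v.asIdeal) := by
      intro n
      have h1 : ((n ^ q - n : ℤ) : ZMod q) = 0 := by
        push_cast; rw [ZMod.pow_card]; ring
      obtain ⟨k, hk⟩ := (ZMod.intCast_zmod_eq_zero_iff_dvd _ q).1 h1
      have h2 := congrArg (fun z : ℤ => (z : O ⧸ v.asIdeal)) hk
      push_cast at h2
      have h3 : ((q : ℕ) : O ⧸ v.asIdeal) = 0 := CharP.cast_eq_zero _ _
      rw [h3, zero_mul] at h2
      exact sub_eq_zero.1 h2
    have hom : om ^ q = om ^ 2 := by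
      have h3 : om ^ 3 = 1 := by linear_combination (om - 1) * om_rel
      have : q = 3 * (q / 3) + 2 := by omega
      rw [this, pow_add, pow_mul, h3, one_pow, one_mul]
    rw [e1, map_add, map_mul, map_add, map_mul, map_intCast, map_intCast, add_pow_char, mul_pow, hint,
      hint, ← map_pow, hom]
  have hmul : x ^ (q + 1) - (Nm x : O) ∈ v.asIdeal := by
    have e : x ^ (q + 1) - (Nm x : O) = x * (x ^ q - cj x) := by
      rw [← mul_cj]; ring
    rw [e]
    exact v.asIdeal.mul_mem_left _ hfrob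
  have hexp : (q ^ 2 - 1) / 2 = (q + 1) * (q / 2) := by
    obtain ⟨m, rfl⟩ := hodd
    have e1 : (2 * m + 1) ^ 2 - 1 = 2 * ((2 * m + 1 + 1) * m) := by
      have : (2 * m + 1) ^ 2 = 2 * ((2 * m + 1 + 1) * m) + 1 := by ring
      rw [this]; rfl
    rw [e1, Nat.mul_div_cancel_left _ (by norm_num)]
    congr 1
    omega
  have hpow : x ^ ((q ^ 2 - 1) / 2) - (Nm x : O) ^ (q / 2) ∈ v.asIdeal := by
    rw [hexp, pow_mul]
    exact v.asIdeal.mem_of_dvd (sub_dvd_pow_sub_pow _ _ _) hmul
  have hleg : (Nm x : O) ^ (q / 2) - ((legendreSym q (Nm x) : ℤ) : O) ∈ v.asIdeal := by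
    have h1 := legendreSym.eq_pow q (Nm x)
    have h2 : (((Nm x : ℤ) ^ (q / 2) - legendreSym q (Nm x) : ℤ) : ZMod q) = 0 := by
      push_cast
      push_cast at h1
      rw [h1]; ring
    have h3 := (H1_int_mem hqp hqv _).2 ((ZMod.intCast_zmod_eq_zero_iff_dvd _ q).1 h2)
    push_cast at h3
    exact h3
  have hfin : ((sym v x - legendreSym q (Nm x) : ℤ) : O) ∈ v.asIdeal := by
    have e : ((sym v x - legendreSym q (Nm x) : ℤ) : O) =
        -(x ^ ((q ^ 2 - 1) / 2) - (sym v x : O)) + (x ^ ((q ^ 2 - 1) / 2) - (Nm x : O) ^ (q / 2)) +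
          ((Nm x : O) ^ (q / 2) - ((legendreSym q (Nm x) : ℤ) : O)) := by
      push_cast; ring
    rw [e]
    exact v.asIdeal.add_mem (v.asIdeal.add_mem (v.asIdeal.neg_mem he) hpow) hleg
  have hd := (H1_int_mem hqp hqv _).1 hfin
  have hs1 : sym v x = 0 ∨ sym v x = 1 ∨ sym v x = -1 := by
    unfold sym
    split_ifs <;> simp
  have hs2 : legendreSym q (Nm x) = 0 ∨ legendreSym q (Nm x) = 1 ∨ legendreSym q (Nm x) = -1 := by
    rcases eq_or_ne (((Nm x : ℤ)) : ZMod q) 0 with h | h
    · exact Or.inl ((legendreSym.eq_zero_iff q _).2 h)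
    · exact Or.inr (legendreSym.eq_one_or_neg_one q h)
  have hq2 : 2 < q := lt_of_le_of_ne hqp.two_le (Ne.symm hq)
  obtain ⟨k, hk⟩ := hd
  have hk0 : k = 0 := by
    by_contra hk0
    have h1 : |(q : ℤ) * k| ≥ q := by
      rw [abs_mul]
      have : (1 : ℤ) ≤ |k| := Int.one_le_abs hk0
      have h2 : |(q : ℤ)| = q := abs_of_nonneg (by positivity)
      rw [h2]
      nlinarith
    rw [← hk] at h1
    have h2 : |sym v x - legendreSym q (Nm x)| ≤ 2 := by
      rcases hs1 with h | h | h <;> rcases hs2 with h' | h' | h' <;> rw [h, h'] <;> norm_num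
    have h3 : (q : ℤ) ≤ 2 := h1.trans h2
    omega
  rw [hk0, mul_zero] at hk
  exact sub_eq_zero.1 hk

/-- Types of primes: norm a rational prime, or associated to an inert rational prime q = 2 mod 3. -/
theorem prime_types (v : HeightOneSpectrum O) (h3 : (3 : O) ∉ v.asIdeal) :
    (∃ l : ℕ, l.Prime ∧ 3 < l ∧ Ideal.absNorm v.asIdeal = l) ∨
    (∃ q : ℕ, q.Prime ∧ q % 3 = 2 ∧ v.asIdeal = Ideal.span {(q : O)}) := by
  obtain ⟨π, hπ⟩ := (IsPrincipalIdealRing.principal v.asIdeal).principal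
  have hv : v.asIdeal = Ideal.span {π} := hπ
  have hπ0 : π ≠ 0 := by
    rintro rfl
    exact v.ne_bot (by rw [hv]; simp)
  have hNm : Ideal.absNorm v.asIdeal = Nm π := by rw [hv]; rfl
  have hne1 : Nm π ≠ 1 := by
    intro h
    rw [Nm_eq_one] at h
    exact v.isPrime.ne_top (by rw [hv]; exact Ideal.span_singleton_eq_top.2 h)
  have hne0 : Nm π ≠ 0 := fun h => hπ0 (Nm_eq_zero.1 h)
  have hmem : ((Nm π : ℕ) : O) ∈ v.asIdeal := by
    rw [← hNm]; exact Ideal.absNorm_mem v.asIdeal
  -- a rational prime in v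
  obtain ⟨r, hr, hrv⟩ : ∃ r : ℕ, r.Prime ∧ (r : O) ∈ v.asIdeal := by
    have : ∀ n : ℕ, n ≠ 0 → n ≠ 1 → (n : O) ∈ v.asIdeal → ∃ r : ℕ, r.Prime ∧ (r : O) ∈ v.asIdeal := by
      intro n
      induction n using Nat.strong_induction_on with
      | _ n ih =>
        intro hn0 hn1 hn
        obtain ⟨p, hp, k, hk⟩ := Nat.exists_prime_and_dvd hn1
        rw [hk] at hn
        push_cast at hn
        rcases v.isPrime.mem_or_mem hn with h | h
        · exact ⟨p, hp, h⟩
        · have hk0 : k ≠ 0 := by rintro rfl; exact hn0 (by rw [hk, mul_zero])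
          have hk1 : k ≠ 1 := by
            rintro rfl
            apply v.isPrime.ne_top
            rw [Ideal.eq_top_iff_one]
            exact_mod_cast h
          refine ih k ?_ hk0 hk1 h
          rw [hk]
          have := hp.two_le
          have := Nat.pos_of_ne_zero hk0
          nlinarith
    exact this _ hne0 hne1 hmem
  have hr3 : r ≠ 3 := by
    rintro rfl
    exact h3 (by exact_mod_cast hrv)
  rw [hv, Ideal.mem_span_singleton] at hrv
  obtain ⟨z, hz⟩ := hrv
  have hNr : Nm (r : O) = r ^ 2 := by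
    have h1 := Nm_repr r 0
    push_cast at h1
    rw [zero_mul, add_zero] at h1
    have h2 : (Nm (r : O) : ℤ) = (r ^ 2 : ℕ) := by rw [h1]; push_cast; ring
    exact_mod_cast h2
  have hmul : Nm π * Nm z = r ^ 2 := by rw [← Nm_mul, ← hz, hNr]
  have hdvd : Nm π ∣ r ^ 2 := ⟨Nm z, hmul.symm⟩
  obtain ⟨i, hi, hi'⟩ := (Nat.dvd_prime_pow hr).1 hdvd
  have hr2 : r = 2 → i ≠ 1 := by
    rintro rfl rfl
    obtain ⟨a, b, rfl⟩ := exists_repr π
    have h1 := Nm_repr a b
    rw [hi'] at h1
    push_cast at h1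
    have h2 : (2 : ℤ) ^ 1 = a ^ 2 - a * b + b ^ 2 := h1
    rcases Int.even_or_odd a with ha | ha <;> rcases Int.even_or_odd b with hb | hb
    · obtain ⟨x, rfl⟩ := ha
      obtain ⟨y, rfl⟩ := hb
      have : (2 : ℤ) ^ 1 = 4 * (x ^ 2 - x * y + y ^ 2) := by rw [h2]; ring
      omega
    all_goals
      have h4 : Even ((2 : ℤ) ^ 1) := ⟨1, by norm_num⟩
      rw [h2] at h4
      have h5 : ¬ Even (a ^ 2 - a * b + b ^ 2) := by
        simp only [Int.even_add, Int.even_sub, Int.even_mul, Int.even_pow, ne_eq, OfNat.ofNat_ne_zero,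
          not_false_eq_true, and_true]
        first
          | (have ha' := ha; have hb' := Int.not_even_iff_odd.2 hb; tauto)
          | (have ha' := Int.not_even_iff_odd.2 ha; have hb' := hb; tauto)
      exact h5 h4
  interval_cases i
  · exact absurd (by rw [hi', pow_zero]) hne1
  · left
    refine ⟨r, hr, ?_, by rw [hNm, hi', pow_one]⟩
    have h2 : r ≠ 2 := fun h => hr2 h rfl
    have := hr.two_le
    omega
  · right
    have hNz : Nm z = 1 := by
      rw [hi'] at hmul
      have : 0 < r ^ 2 := pow_pos hr.pos 2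
      exact Nat.eq_of_mul_eq_mul_left this (by rw [hmul, mul_one])
    have hu := Nm_eq_one.1 hNz
    have hvr : v.asIdeal = Ideal.span {(r : O)} := by
      rw [hv, Ideal.span_singleton_eq_span_singleton]
      exact ⟨hu.unit, by rw [hz]; rfl⟩
    exact ⟨r, hr, H1_mod3 v hr hr3 hvr, hvr⟩

end H55B
end

-- from Lib.H55B.Z3
section

open NumberField IsDedekindDomain

namespace H55B

/-! Chunk Z3: primary elements and primary generators.
(O/3)^* has 6 elements and the 6 units are distinct mod 3, so every x coprime to 3 has exactly one unit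
multiple congruent to 1 mod 3 (elementary: x = a + b om coprime to 3 iff 3 does not divide
a^2 - a b + b^2 iff a + b is not divisible by 3; go through the residues of (a, b) mod 3).
gen v: v.asIdeal is principal (O is a PID), its generator is coprime to 3 since 3 is not in v. -/

theorem Z3_three_dvd {c d : ℤ} (h : (3 : O) ∣ (c : O) + d * om) : (3 : ℤ) ∣ c ∧ (3 : ℤ) ∣ d := by
  obtain ⟨z, hz⟩ := h
  obtain ⟨a, b, rfl⟩ := exists_repr z
  have h1 : (c : O) + d * om = ((3 * a : ℤ) : O) + ((3 * b : ℤ) : O) * om := by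
    rw [hz]
    push_cast
    ring
  obtain ⟨h2, h3⟩ := repr_unique h1
  exact ⟨⟨a, h2⟩, ⟨b, h3⟩⟩

theorem Z3_om_cube : om ^ 3 = (1 : O) := by
  have h := om_rel
  linear_combination (om - 1) * h

/-- the unit om -/
noncomputable def Z3_omU : Oˣ := ⟨om, om ^ 2, by
  have h := Z3_om_cube
  linear_combination h, by
  have h := Z3_om_cube
  linear_combination h⟩

theorem prim_one : Prim 1 := by
  unfold Prim
  rw [sub_self]
  exact dvd_zero _

theorem Prim.mul {x y : O} (hx : Prim x) (hy : Prim y) : Prim (x * y) := by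
  obtain ⟨a, ha⟩ := hx
  obtain ⟨b, hb⟩ := hy
  refine ⟨a * y + b, ?_⟩
  linear_combination y * ha + hb

theorem Prim.coprime {x : O} (hx : Prim x) : IsCoprime x 3 := by
  obtain ⟨a, ha⟩ := hx
  refine ⟨1, -a, ?_⟩
  linear_combination ha

theorem Prim.ne_zero {x : O} (hx : Prim x) : x ≠ 0 := by
  rintro rfl
  have h : (3 : O) ∣ ((-1 : ℤ) : O) + ((0 : ℤ) : O) * om := by
    have h1 : (3 : O) ∣ 0 - 1 := hx
    simpa using h1
  have := (Z3_three_dvd h).1
  omega

theorem Z3_lam_dvd_three : (om - 1 : O) ∣ 3 := by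
  rw [three_eq]
  exact ⟨-om ^ 2 * (om - 1), by ring⟩

theorem exists_unit_prim {x : O} (h : IsCoprime x 3) : ∃ u : Oˣ, Prim (u * x) := by
  obtain ⟨a, b, rfl⟩ := exists_repr x
  have hab : ¬ (3 : ℤ) ∣ a + b := by
    rintro ⟨c, hc⟩
    have h1 : (om - 1 : O) ∣ (a : O) + b * om := by
      obtain ⟨d, hd⟩ := Z3_lam_dvd_three
      refine ⟨d * c + b, ?_⟩
      have hc' : (a : O) + b = 3 * c := by exact_mod_cast hc
      linear_combination hc' + (c : O) * hd
    exact lam_prime.not_unit (h.isUnit_of_dvd' h1 Z3_lam_dvd_three)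
  have hrel := om_rel
  have hcube := Z3_om_cube
  obtain ⟨a', ha'⟩ : ∃ a', a = 3 * a' + a % 3 := ⟨a / 3, by omega⟩
  obtain ⟨b', hb'⟩ : ∃ b', b = 3 * b' + b % 3 := ⟨b / 3, by omega⟩
  have hcases : (a % 3 = 1 ∧ b % 3 = 0) ∨ (a % 3 = 2 ∧ b % 3 = 0) ∨ (a % 3 = 0 ∧ b % 3 = 1) ∨
      (a % 3 = 0 ∧ b % 3 = 2) ∨ (a % 3 = 1 ∧ b % 3 = 1) ∨ (a % 3 = 2 ∧ b % 3 = 2) := by omega
  have hval : ((Z3_omU : Oˣ) : O) = om := rfl
  rcases hcases with ⟨h1, h2⟩ | ⟨h1, h2⟩ | ⟨h1, h2⟩ | ⟨h1, h2⟩ | ⟨h1, h2⟩ | ⟨h1, h2⟩ <;>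
    rw [h1] at ha' <;> rw [h2] at hb' <;> rw [ha', hb']
  · refine ⟨1, ⟨a' + b' * om, ?_⟩⟩
    push_cast
    ring
  · refine ⟨-1, ⟨-(a' + b' * om) - 1, ?_⟩⟩
    push_cast
    ring
  · refine ⟨Z3_omU ^ 2, ⟨om ^ 2 * (a' + b' * om), ?_⟩⟩
    rw [Units.val_pow_eq_pow_val, hval]
    push_cast
    linear_combination hcube
  · refine ⟨-Z3_omU ^ 2, ⟨-om ^ 2 * (a' + b' * om) - 1, ?_⟩⟩
    rw [Units.val_neg, Units.val_pow_eq_pow_val, hval]
    push_cast
    linear_combination -2 * hcube
  · refine ⟨-Z3_omU, ⟨-om * (a' + b' * om), ?_⟩⟩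
    rw [Units.val_neg, hval]
    push_cast
    linear_combination -hrel
  · refine ⟨Z3_omU, ⟨om * (a' + b' * om) - 1, ?_⟩⟩
    rw [hval]
    push_cast
    linear_combination 2 * hrel

theorem Prim.eq_of_associated {x y : O} (hx : Prim x) (hy : Prim y) (h : Associated x y) :
    x = y := by
  obtain ⟨u, hu⟩ := h
  have h1 : (3 : O) ∣ (u : O) - 1 := by
    obtain ⟨a, ha⟩ := hx
    obtain ⟨b, hb⟩ := hy
    refine ⟨b - a * u, ?_⟩
    linear_combination hb - (u : O) * ha + hu
  have hrel := om_rel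
  rcases unit_cases u with h2 | h2 | h2 | h2 | h2 | h2
  · rw [← hu, h2, mul_one]
  · exfalso
    rw [h2] at h1
    have h3 : (3 : O) ∣ ((-2 : ℤ) : O) + ((0 : ℤ) : O) * om := by
      convert h1 using 1
      push_cast
      ring
    have := (Z3_three_dvd h3).1
    omega
  · exfalso
    rw [h2] at h1
    have h3 : (3 : O) ∣ ((-1 : ℤ) : O) + ((1 : ℤ) : O) * om := by
      convert h1 using 1
      push_cast
      ring
    have := (Z3_three_dvd h3).1
    omega
  · exfalso
    rw [h2] at h1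
    have h3 : (3 : O) ∣ ((-1 : ℤ) : O) + ((-1 : ℤ) : O) * om := by
      convert h1 using 1
      push_cast
      ring
    have := (Z3_three_dvd h3).1
    omega
  · exfalso
    rw [h2] at h1
    have h3 : (3 : O) ∣ ((-2 : ℤ) : O) + ((-1 : ℤ) : O) * om := by
      convert h1 using 1
      push_cast
      linear_combination -hrel
    have := (Z3_three_dvd h3).1
    omega
  · exfalso
    rw [h2] at h1
    have h3 : (3 : O) ∣ ((0 : ℤ) : O) + ((1 : ℤ) : O) * om := by
      convert h1 using 1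
      push_cast
      linear_combination hrel
    have := (Z3_three_dvd h3).2
    omega

theorem gen_spec (v : HeightOneSpectrum O) (h3 : (3 : O) ∉ v.asIdeal) :
    v.asIdeal = Ideal.span {gen v} ∧ Prim (gen v) := by
  have hex : ∃ x : O, v.asIdeal = Ideal.span {x} ∧ Prim x := by
    obtain ⟨x, hx⟩ := (IsPrincipalIdealRing.principal v.asIdeal).principal
    have hx' : v.asIdeal = Ideal.span {x} := hx
    have hcop : IsCoprime x 3 := by
      rw [← Ideal.isCoprime_span_singleton_iff, Ideal.isCoprime_iff_sup_eq, ← hx']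
      have hm : v.asIdeal.IsMaximal := v.isMaximal
      refine hm.out.2 _ (lt_of_le_of_ne le_sup_left ?_)
      intro heq
      apply h3
      rw [heq]
      exact Ideal.mem_sup_right (Ideal.mem_span_singleton_self 3)
    obtain ⟨u, hu⟩ := exists_unit_prim hcop
    refine ⟨u * x, ?_, hu⟩
    rw [hx']
    exact (Ideal.span_singleton_mul_left_unit u.isUnit x).symm
  unfold gen
  rw [dif_pos hex]
  exact hex.choose_spec

theorem gen_prime (v : HeightOneSpectrum O) (h3 : (3 : O) ∉ v.asIdeal) : Prime (gen v) := by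
  have h := gen_spec v h3
  have h1 : (Ideal.span {gen v}).IsPrime := h.1 ▸ v.isPrime
  exact (Ideal.span_singleton_prime h.2.ne_zero).1 h1

theorem gen_dvd_iff (v : HeightOneSpectrum O) (h3 : (3 : O) ∉ v.asIdeal) (x : O) :
    gen v ∣ x ↔ x ∈ v.asIdeal := by
  rw [← Ideal.mem_span_singleton, ← (gen_spec v h3).1]

theorem absNorm_gen (v : HeightOneSpectrum O) (h3 : (3 : O) ∉ v.asIdeal) :
    Ideal.absNorm v.asIdeal = Nm (gen v) :=
  congrArg Ideal.absNorm (gen_spec v h3).1

/-- A primary prime element is the generator of a prime ideal. -/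
theorem exists_gen_eq {p : O} (hp : Prime p) (h : Prim p) :
    ∃ v : HeightOneSpectrum O, (3 : O) ∉ v.asIdeal ∧ gen v = p := by
  have h1 : (Ideal.span {p}).IsPrime := (Ideal.span_singleton_prime hp.ne_zero).2 hp
  have h2 : Ideal.span {p} ≠ ⊥ := by
    rw [Ne, Ideal.span_singleton_eq_bot]
    exact hp.ne_zero
  have h3 : (3 : O) ∉ Ideal.span {p} := by
    rw [Ideal.mem_span_singleton]
    intro hd
    exact hp.not_unit (h.coprime.isUnit_of_dvd' dvd_rfl hd)
  refine ⟨⟨Ideal.span {p}, h1, h2⟩, h3, ?_⟩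
  have h4 := gen_spec ⟨Ideal.span {p}, h1, h2⟩ h3
  refine h4.2.eq_of_associated h ?_
  exact Ideal.span_singleton_eq_span_singleton.1 h4.1.symm

/-- gen is injective away from 3. -/
theorem gen_inj {v w : HeightOneSpectrum O} (hv : (3 : O) ∉ v.asIdeal) (hw : (3 : O) ∉ w.asIdeal)
    (h : gen v = gen w) : v = w := by
  apply HeightOneSpectrum.ext
  rw [(gen_spec v hv).1, (gen_spec w hw).1, h]

end H55B
end

-- from Lib.H16C.FR2
section

/-!
# FR2 (M/L): Frobenius elements and the decomposition group modulo inertia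

`K ≤ F` subfields of `Ω`, finite over the number field `k`, `F` stable under `Gal(Ω/K)`, so `F/K`
is a finite Galois extension (`Ω/k` algebraic, `Ω` algebraically closed, characteristic `0`).
`A`, `v = A.valuation`, `v(q) < 1`.  `P₀ = {z ∈ 𝓞 K | v z < 1}`, `Q = #(𝓞 K / P₀)` (it does not
depend on `F`).  `P = {z ∈ 𝓞 F | v z < 1}`: a nonzero prime ideal above `P₀`; `𝓞 F / P` is finite.
Existence: `Gal(F/K)` acts on `𝓞 F` with invariants `𝓞 K` (`Algebra.IsInvariant`), Mathlib
(`NumberTheory/../Frobenius.lean`, `IsArithFrobAt`, `AlgHom.IsArithFrobAt`,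
`exists_arithFrobAt..`) gives `s` with `s z - z ^ Q ∈ P` for `z ∈ 𝓞 F`; lift `s` to
`φ ∈ Gal(Ω/K)` (`AlgEquiv.liftNormal`, or `IntermediateField` lifting).
`Frob A F Q φ`: `x = a / c` as in FR1: `φ a ≡ a^Q`, `φ c ≡ c^Q`, `v(c) = v(φ c) = 1`, so
`φ x ≡ x ^ Q`.
Decomposition: `g ∈ Gal(Ω/K)`, `v(g x) = v x` for all `x`.  The restriction `t` of `g` to `F`
satisfies `t P = P`, and acts on the finite field `𝓞 F / P` as an automorphism over `𝓞 K / P₀`, so as
`z ↦ z ^ (Q ^ j)` for some `j` (`FiniteField`: the Galois group of an extension of finite fields is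
generated by the Frobenius, `FiniteField.bijective_frobeniusAlgEquivOfAlgebraic_pow`).  So
`g⁻¹ φ^j` acts trivially on `𝓞 F / P` (if `z ∈ 𝓞 F`: `φ^j z ≡ z^(Q^j) ≡ g z`, and `g⁻¹` preserves
`v`), and `Inert A F (g⁻¹ φ^j)` by FR1.
Last statement: if all the residue classes of `K` are classes of integers then `𝓞 K / P₀` is the image
of `ℤ`, so `𝔽_q`: `Q = q`.
-/

open NumberField
open scoped Pointwise

namespace H16C

/-! ### general lemmas -/

theorem FR_div_congr {Ω : Type*} [Field Ω] (A : ValuationSubring Ω) {a a' c c' : Ω}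
    (ha : A.valuation (a - a') < 1) (hc : A.valuation (c - c') < 1) (ha1 : A.valuation a' ≤ 1)
    (hc1 : A.valuation c' = 1) : A.valuation (a / c - a' / c') < 1 := by
  have hc2 : A.valuation c = 1 := by
    have h := A.valuation.map_add_eq_of_lt_right (x := c - c') (y := c') (by rw [hc1]; exact hc)
    rw [sub_add_cancel, hc1] at h
    exact h
  have h0 : c ≠ 0 := by
    intro h
    rw [h, map_zero] at hc2
    exact zero_ne_one hc2
  have h0' : c' ≠ 0 := by
    intro h
    rw [h, map_zero] at hc1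
    exact zero_ne_one hc1
  have e : a / c - a' / c' = ((a - a') * c' - a' * (c - c')) / (c * c') := by
    field_simp
    ring
  rw [e, map_div₀, map_mul, hc2, hc1, one_mul, div_one]
  refine A.valuation.map_sub_lt ?_ ?_
  · rw [map_mul, hc1, mul_one]
    exact ha
  · rw [map_mul]
    exact lt_of_le_of_lt (mul_le_of_le_one_left' ha1) hc

theorem FR_pow {K N : Type*} [Field K] [NumberField K] [Field N] [NumberField N] [Algebra K N]
    [IsGalois K N] (v : Ideal (𝓞 K)) [v.IsPrime] (hv0 : v ≠ ⊥) (W : Ideal (𝓞 N)) [W.IsPrime] (hW0 : W ≠ ⊥)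
    [hl : W.LiesOver v] [hc : SMulCommClass Gal(N/K) (𝓞 K) (𝓞 N)] (g : Gal(N/K))
    (hg : IsArithFrobAt (𝓞 K) g W)
    (σ : Gal(N/K)) (hσ : σ • W = W) : ∃ n : ℕ, ∀ x : 𝓞 N, (g ^ n) • x - σ • x ∈ W := by
  have hWm : W.IsMaximal := Ideal.IsPrime.isMaximal inferInstance hW0
  have hpm : v.IsMaximal := Ideal.IsPrime.isMaximal inferInstance hv0
  have hfin : Finite (𝓞 N ⧸ W) := Ideal.finiteQuotientOfFreeOfNeBot _ hW0
  have hfin' : Finite (𝓞 K ⧸ v) := Ideal.finiteQuotientOfFreeOfNeBot _ hv0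
  let _ := Ideal.Quotient.field v
  let _ := Ideal.Quotient.field W
  let _ := Fintype.ofFinite (𝓞 K ⧸ v)
  have hgs := hg.mem_stabilizer
  obtain ⟨⟨n, hn⟩, hn2⟩ := (FiniteField.bijective_frobeniusAlgEquivOfAlgebraic_pow (𝓞 K ⧸ v)
    (𝓞 N ⧸ W)).2 (Ideal.Quotient.stabilizerHom W v Gal(N/K) ⟨σ, hσ⟩)
  have hF : Ideal.Quotient.stabilizerHom W v Gal(N/K) ⟨g, hgs⟩ =
      FiniteField.frobeniusAlgEquivOfAlgebraic (𝓞 K ⧸ v) (𝓞 N ⧸ W) := by
    apply AlgEquiv.ext
    intro y
    obtain ⟨x, rfl⟩ := Ideal.Quotient.mk_surjective y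
    rw [FiniteField.coe_frobeniusAlgEquivOfAlgebraic]
    have h1 := hg.mk_apply x
    rw [← hl.over, Nat.card_eq_fintype_card] at h1
    exact h1
  refine ⟨n, fun x => ?_⟩
  have h2 : Ideal.Quotient.stabilizerHom W v Gal(N/K) (⟨g, hgs⟩ ^ n) =
      Ideal.Quotient.stabilizerHom W v Gal(N/K) ⟨σ, hσ⟩ := by
    rw [map_pow, hF]
    exact hn2
  have h3 := DFunLike.congr_fun h2 (Ideal.Quotient.mk W x)
  exact (Ideal.Quotient.eq (I := W)).1 h3

theorem FR_card {K : Type*} [Field K] [NumberField K] (v : Ideal (𝓞 K)) [v.IsPrime] (hv0 : v ≠ ⊥) :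
    2 ≤ Nat.card (𝓞 K ⧸ v) := by
  have hfin' : Finite (𝓞 K ⧸ v) := Ideal.finiteQuotientOfFreeOfNeBot _ hv0
  exact Finite.one_lt_card

theorem FR_card_eq {K : Type*} [Field K] [NumberField K] (v : Ideal (𝓞 K)) [v.IsPrime] {q : ℕ}
    (hq : q.Prime) (hqv : (q : 𝓞 K) ∈ v) (h : ∀ z : 𝓞 K, ∃ m : ℤ, z - m ∈ v) :
    Nat.card (𝓞 K ⧸ v) = q := by
  have : Fact q.Prime := ⟨hq⟩
  have h0 : ((q : ℕ) : 𝓞 K ⧸ v) = 0 := by
    have := Ideal.Quotient.eq_zero_iff_mem.2 hqv
    rwa [map_natCast] at this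
  have hch : CharP (𝓞 K ⧸ v) q := by
    rcases (Nat.dvd_prime hq).1 ((CharP.cast_eq_zero_iff (𝓞 K ⧸ v) (ringChar (𝓞 K ⧸ v)) q).1 h0) with h1 | h1
    · exact absurd h1 (CharP.ringChar_ne_one)
    · rw [← h1]
      exact ringChar.charP _
  have hb : Function.Bijective (ZMod.castHom (dvd_refl q) (𝓞 K ⧸ v)) := by
    refine ⟨RingHom.injective _, fun y => ?_⟩
    obtain ⟨z, rfl⟩ := Ideal.Quotient.mk_surjective y
    obtain ⟨m, hm⟩ := h z
    refine ⟨(m : ZMod q), ?_⟩
    rw [map_intCast]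
    have := (Ideal.Quotient.eq (I := v)).2 hm
    rw [this, map_intCast]
  rw [← Nat.card_congr (Equiv.ofBijective _ hb), Nat.card_zmod]

variable {k : Type*} [Field k] [NumberField k] {Ω : Type*} [Field Ω] [Algebra k Ω] [IsAlgClosed Ω]
  [Algebra.IsAlgebraic k Ω] [CharZero Ω]

/-- An automorphism of `Ω` over `k` which fixes `K` is an automorphism over `K`. -/
noncomputable def FR_up {K : IntermediateField k Ω} (g : Ω ≃ₐ[k] Ω) (hg : g ∈ K.fixingSubgroup) :
    Ω ≃ₐ[K] Ω :=
  AlgEquiv.ofRingEquiv (f := (g : Ω ≃+* Ω)) (fun x => hg x)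

theorem FR_fin (K F : IntermediateField k Ω) (hKF : K ≤ F) [FiniteDimensional k F] :
    FiniteDimensional K (IntermediateField.extendScalars hKF) := by
  have h1 : FiniteDimensional k (IntermediateField.extendScalars hKF) :=
    inferInstanceAs (FiniteDimensional k F)
  exact Module.Finite.of_restrictScalars_finite k K _

theorem FR_galois (K F : IntermediateField k Ω) (hKF : K ≤ F) [FiniteDimensional k F]
    (hst : ∀ g ∈ K.fixingSubgroup, ∀ x ∈ F, g x ∈ F) :
    IsGalois K (IntermediateField.extendScalars hKF) := by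
  have hfin := FR_fin K F hKF
  have hal : Algebra.IsAlgebraic K Ω := Algebra.IsAlgebraic.tower_top (K := k) K
  have hcl : IsAlgClosure K Ω := ⟨inferInstance, hal⟩
  have hno : Normal K Ω := IsAlgClosure.normal K Ω
  have : Normal K (IntermediateField.extendScalars hKF) := by
    rw [IntermediateField.normal_iff_forall_map_le']
    intro σ
    rintro y ⟨x, hx, rfl⟩
    have hx' : x ∈ F := IntermediateField.mem_extendScalars hKF |>.1 hx
    have h2 := hst (σ.restrictScalars k) (fun z => σ.commutes z) x hx'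
    exact (IntermediateField.mem_extendScalars hKF).2 h2
  have : CharZero K := charZero_of_injective_algebraMap (algebraMap k K).injective
  exact { }

theorem FR_lift {K : IntermediateField k Ω} (F : IntermediateField K Ω) [Normal K F] (s : Gal(F/K)) :
    ∃ φ : Ω ≃ₐ[k] Ω, φ ∈ K.fixingSubgroup ∧ ∀ x : F, φ (x : Ω) = ((s x : F) : Ω) := by
  have hal : Algebra.IsAlgebraic K Ω := Algebra.IsAlgebraic.tower_top (K := k) K
  have hcl : IsAlgClosure K Ω := ⟨inferInstance, hal⟩
  have hno : Normal K Ω := IsAlgClosure.normal K Ω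
  refine ⟨(s.liftNormal Ω).restrictScalars k, fun x => (s.liftNormal Ω).commutes x, fun x => ?_⟩
  exact s.liftNormal_commutes Ω x

theorem FR_restr {K : IntermediateField k Ω} (F : IntermediateField K Ω) [Normal K F] (g : Ω ≃ₐ[k] Ω)
    (hg : g ∈ K.fixingSubgroup) : ∃ s : Gal(F/K), ∀ x : F, ((s x : F) : Ω) = g (x : Ω) :=
  ⟨(FR_up g hg).restrictNormal F, fun x => (FR_up g hg).restrictNormal_commutes F x⟩

theorem FR_under (K : IntermediateField k Ω) (F : IntermediateField K Ω) (A : ValuationSubring Ω) :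
    (plc F A).LiesOver (plc K A) := by
  constructor
  ext z
  rw [Ideal.mem_comap, mem_plc, mem_plc]
  rfl

theorem FR_smul {K : IntermediateField k Ω} (F : IntermediateField K Ω) [FiniteDimensional K F] (s : Gal(F/K))
    (g : Ω ≃ₐ[k] Ω) (h : ∀ x : F, ((s x : F) : Ω) = g (x : Ω)) (z : 𝓞 F) :
    (((s • z : 𝓞 F) : F) : Ω) = g ((z : F) : Ω) := by
  rw [← h]
  rfl

theorem FR_smul_plc {K : IntermediateField k Ω} (F : IntermediateField K Ω) [FiniteDimensional K F] (s : Gal(F/K))
    (g : Ω ≃ₐ[k] Ω) (h : ∀ x : F, ((s x : F) : Ω) = g (x : Ω)) (A : ValuationSubring Ω)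
    (hA : ∀ x, A.valuation (g x) = A.valuation x) : s • plc F A = plc F A := by
  have h1 : ∀ z : 𝓞 F, s • z ∈ plc F A ↔ z ∈ plc F A := by
    intro z
    rw [mem_plc, mem_plc, FR_smul F s g h, hA]
  ext z
  rw [Ideal.mem_pointwise_smul_iff_inv_smul_mem, ← h1 (s⁻¹ • z), smul_inv_smul]

theorem exists_frob (K : IntermediateField k Ω) [FiniteDimensional k K] (A : ValuationSubring Ω)
    (q : ℕ) (hq : q.Prime) (hA : A.valuation (q : Ω) < 1) :
    ∃ Q : ℕ, 2 ≤ Q ∧
      ((∀ x ∈ K, A.valuation x ≤ 1 → ∃ m : ℤ, A.valuation (x - m) < 1) → Q = q) ∧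
      ∀ F : IntermediateField k Ω, K ≤ F → FiniteDimensional k F →
        (∀ g ∈ K.fixingSubgroup, ∀ x ∈ F, g x ∈ F) →
        ∃ φ ∈ K.fixingSubgroup, Frob A F Q φ ∧
          ∀ g ∈ K.fixingSubgroup, (∀ x, A.valuation (g x) = A.valuation x) →
            ∃ j : ℕ, Inert A F (g⁻¹ * φ ^ j) := by
  have hKn : NumberField K := FR_numberField K
  have hv0 : plc K A ≠ ⊥ := plc_ne_bot K hq.ne_zero hA
  refine ⟨Nat.card (𝓞 K ⧸ plc K A), FR_card _ hv0, fun h => ?_, ?_⟩
  · refine FR_card_eq _ hq (natCast_mem_plc K hA) fun z => ?_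
    obtain ⟨m, hm⟩ := h ((z : K) : Ω) (z : K).2 (FR_le_one A (FR_isIntegral K z))
    refine ⟨m, ?_⟩
    rw [mem_plc]
    simpa using hm
  intro F0 hKF hF0 hst
  have hfin := FR_fin K F0 hKF
  have hgal := FR_galois K F0 hKF hst
  set F : IntermediateField K Ω := IntermediateField.extendScalars hKF with hFdef
  have hFn : NumberField F := FR_numberField F
  have hW0 : plc F A ≠ ⊥ := plc_ne_bot F hq.ne_zero hA
  have hl : (plc F A).LiesOver (plc K A) := FR_under K F A
  have hWf : Finite (𝓞 F ⧸ plc F A) := Ideal.finiteQuotientOfFreeOfNeBot _ hW0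
  obtain ⟨s, hs⟩ := IsArithFrobAt.exists_of_isInvariant (𝓞 K) Gal(F/K) (plc F A)
  obtain ⟨φ, hφ, hφs⟩ := FR_lift F s
  have hφs' : ∀ x : F, ((s x : F) : Ω) = φ (x : Ω) := fun x => (hφs x).symm
  have hfr : ∀ x ∈ F0, A.valuation x ≤ 1 → ∃ a c : 𝓞 F, A.valuation ((c : F) : Ω) = 1 ∧
      x = ((a : F) : Ω) / ((c : F) : Ω) := by
    intro x hx hvx
    obtain ⟨a, c, hc, h⟩ := frac_rep_int F A q hq hA (x := ⟨x, hx⟩) hvx
    have hc1 := not_mem_plc.1 hc
    refine ⟨a, c, hc1, ?_⟩
    have hc0 : ((c : F) : Ω) ≠ 0 := by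
      intro h0
      rw [h0, map_zero] at hc1
      exact zero_ne_one hc1
    rw [eq_div_iff hc0]
    have := congrArg (fun z : F => (z : Ω)) h
    simpa using this
  refine ⟨φ, hφ, ?_, ?_⟩
  · intro x hx hvx
    obtain ⟨a, c, hc, rfl⟩ := hfr x hx hvx
    have key : ∀ z : 𝓞 F, A.valuation (φ ((z : F) : Ω) - ((z : F) : Ω) ^ Nat.card (𝓞 K ⧸ plc K A)) < 1 := by
      intro z
      have h1 := hs z
      rw [← hl.over] at h1
      have h2 := mem_plc.1 h1
      have e : (((MulSemiringAction.toAlgHom (𝓞 K) (𝓞 F) s z - z ^ Nat.card (𝓞 K ⧸ plc K A) : 𝓞 F) : F) : Ω) =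
          φ ((z : F) : Ω) - ((z : F) : Ω) ^ Nat.card (𝓞 K ⧸ plc K A) := by
        rw [← FR_smul F s φ hφs' z]
        simp
      rwa [e] at h2
    rw [map_div₀, div_pow]
    refine FR_div_congr A (key a) (key c) ?_ ?_
    · rw [map_pow]
      exact pow_le_one' (FR_le_one A (FR_isIntegral F a)) _
    · rw [map_pow, hc, one_pow]
  · intro g hg hgA
    obtain ⟨t, ht⟩ := FR_restr F g hg
    obtain ⟨j, hj⟩ := FR_pow (plc K A) hv0 (plc F A) hW0 s hs t (FR_smul_plc F t g ht A hgA)
    refine ⟨j, fun x hx hvx => ?_⟩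
    obtain ⟨a, c, hc, rfl⟩ := hfr x hx hvx
    have hpow : ∀ (n : ℕ) (x : F), (((s ^ n) x : F) : Ω) = (φ ^ n) (x : Ω) := by
      intro n
      induction n with
      | zero => intro x; rfl
      | succ n ih =>
        intro x
        rw [pow_succ, pow_succ, AlgEquiv.mul_apply, AlgEquiv.mul_apply, ih, hφs']
    have key : ∀ z : 𝓞 F, A.valuation ((φ ^ j) ((z : F) : Ω) - g ((z : F) : Ω)) < 1 := by
      intro z
      have h2 := mem_plc.1 (hj z)
      rw [← FR_smul F (s ^ j) (φ ^ j) (hpow j) z, ← FR_smul F t g ht z]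
      simpa using h2
    have h3 : A.valuation ((φ ^ j) (((a : F) : Ω) / ((c : F) : Ω)) - g (((a : F) : Ω) / ((c : F) : Ω))) < 1 := by
      rw [map_div₀, map_div₀]
      refine FR_div_congr A (key a) (key c) ?_ ?_
      · rw [hgA]
        exact FR_le_one A (FR_isIntegral F a)
      · rw [hgA, hc]
    rw [← hgA]
    rw [map_sub, AlgEquiv.mul_apply]
    have e : g (g⁻¹ ((φ ^ j) (((a : F) : Ω) / ((c : F) : Ω)))) = (φ ^ j) (((a : F) : Ω) / ((c : F) : Ω)) :=
      g.apply_symm_apply _
    rw [e]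
    exact h3

end H16C
end
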