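import Mathlib
import Pool.Agent.Lib.H1M.PP.M006

/-! Merged copies (to shorten the build) of Lib.H28G.Act, Lib.H28G.Map, Lib.H55B.S0, Lib.H55B.B1, Lib.H55B.B2, Lib.H55B.A0, Lib.H55B.A2, Lib.H55B.A1, Lib.H55B.A3, Lib.H28G.CDefs, Lib.H28G.GA4, Lib.H28G.GA0, Lib.H28G.GA1. -/

-- from Lib.H28G.Act
section

/-! # H28G: the action of O on the points -/

open NumberField IsDedekindDomain WeierstrassCurve

namespace H28G

open H55B

variable {k : Type} [Field k] [Algebra F k]

theorem ok_rel : ok k ^ 2 + ok k + 1 = 0 := by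
  have h : (om : F) ^ 2 + (om : F) + 1 = 0 := by exact_mod_cast congrArg (fun x : O => (x : F)) om_rel
  unfold ok
  rw [← map_pow, ← map_add, ← map_one (algebraMap F k), ← map_add, h, map_zero]

theorem ok_cube : ok k ^ 3 = 1 := by linear_combination (ok k - 1) * ok_rel (k := k)

theorem ok_ne : ok k ≠ 0 := by
  intro h
  have := ok_cube (k := k)
  rw [h] at this
  norm_num at this

theorem omF_aux (P : P27 k) : yc P ^ 2 + yc P = (ok k * xc P) ^ 3 := by
  rw [mul_pow, ok_cube, one_mul]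
  exact eqn P

open Classical in
/-- The automorphism om. -/
noncomputable def omF (P : P27 k) : P27 k := if P = 0 then 0 else pt (ok k * xc P) (yc P) (omF_aux P)

theorem omF_zero : omF (0 : P27 k) = 0 := if_pos rfl

theorem omF_of {P : P27 k} (hP : P ≠ 0) : omF P = pt (ok k * xc P) (yc P) (omF_aux P) := if_neg hP

theorem omF_ne {P : P27 k} (hP : P ≠ 0) : omF P ≠ 0 := by
  rw [omF_of hP]
  exact pt_ne _ _ _

theorem xc_omF (P : P27 k) : xc (omF P) = ok k * xc P := by
  by_cases hP : P = 0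
  · rw [hP, omF_zero, xc_zero, mul_zero]
  · rw [omF_of hP]
    rfl

theorem yc_omF (P : P27 k) : yc (omF P) = yc P := by
  by_cases hP : P = 0
  · rw [hP, omF_zero]
  · rw [omF_of hP]
    rfl

theorem fc_omF (P : P27 k) : fc (omF P) = fc P := by
  unfold fc
  rw [yc_omF]

theorem omF_neg (P : P27 k) : omF (-P) = -omF P := by
  by_cases hP : P = 0
  · rw [hP, omF_zero]
    have : (-(0 : P27 k)) = 0 := rfl
    rw [this, omF_zero]
  · refine pt_ext (omF_ne (neg_ne hP)) (neg_ne (omF_ne hP)) ?_ ?_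
    · rw [xc_omF, xc_neg, xc_neg, xc_omF]
    · rw [yc_omF, yc_neg hP, yc_neg (omF_ne hP), yc_omF]

variable [DecidableEq k]

omit [DecidableEq k] in
theorem fc_eq_zero {P : P27 k} (hP : P ≠ 0) (h : fc P = 0) : P = -P := by
  refine pt_ext hP (neg_ne hP) (xc_neg P).symm ?_
  rw [yc_neg hP]
  unfold fc at h
  linear_combination h

/-- The cases of the addition. -/
theorem add_cases (P Q : P27 k) : P = 0 ∨ Q = 0 ∨ P = -Q ∨ (P ≠ 0 ∧ P = Q ∧ fc P ≠ 0) ∨
    (P ≠ 0 ∧ Q ≠ 0 ∧ xc P ≠ xc Q) := by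
  by_cases hP : P = 0
  · exact Or.inl hP
  by_cases hQ : Q = 0
  · exact Or.inr (Or.inl hQ)
  by_cases hx : xc P = xc Q
  · rcases xc_eq hP hQ hx with h | h
    · by_cases hf : fc P = 0
      · right; right; left
        rw [← h]
        exact fc_eq_zero hP hf
      · exact Or.inr (Or.inr (Or.inr (Or.inl ⟨hP, h, hf⟩)))
    · exact Or.inr (Or.inr (Or.inl h))
  · exact Or.inr (Or.inr (Or.inr (Or.inr ⟨hP, hQ, hx⟩)))

theorem omF_add (P Q : P27 k) : omF (P + Q) = omF P + omF Q := by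
  have hk := ok_ne (k := k)
  have hk2 : ok k ^ 4 = ok k := by linear_combination ok k * ok_cube (k := k)
  rcases add_cases P Q with h | h | h | ⟨hP, h, hf⟩ | ⟨hP, hQ, h⟩
  · rw [h, zero_add, omF_zero, zero_add]
  · rw [h, add_zero, omF_zero, add_zero]
  · rw [h, omF_neg, neg_add_cancel, neg_add_cancel, omF_zero]
  · subst h
    obtain ⟨a1, a2, a3⟩ := dbl_coords hP hf
    obtain ⟨b1, b2, b3⟩ := dbl_coords (omF_ne hP) (by rw [fc_omF]; exact hf)
    rw [xc_omF, fc_omF] at b2 b3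
    rw [yc_omF] at b3
    refine pt_ext (omF_ne a1) b1 ?_ ?_
    · rw [xc_omF, a2, b2]
      field_simp
      linear_combination (-9 * xc P ^ 4) * ok_cube (k := k)
    · rw [yc_omF, a3, b3, a2, b2]
      field_simp
      linear_combination (27 * xc P ^ 6 * (ok k ^ 3 + 1) - 9 * xc P ^ 3 * fc P ^ 2) * ok_cube (k := k)
  · obtain ⟨a1, a2, a3⟩ := add_coords hP hQ h
    have hx : xc (omF P) ≠ xc (omF Q) := by
      rw [xc_omF, xc_omF]
      exact fun h' => h (mul_left_cancel₀ hk h')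
    obtain ⟨b1, b2, b3⟩ := add_coords (omF_ne hP) (omF_ne hQ) hx
    rw [xc_omF, xc_omF, yc_omF, yc_omF] at b2 b3
    have hd : xc P - xc Q ≠ 0 := sub_ne_zero.2 h
    have hd2 : ok k * xc P - ok k * xc Q ≠ 0 := by
      rw [← mul_sub]
      exact mul_ne_zero hk hd
    have hs : (yc P - yc Q) / (ok k * xc P - ok k * xc Q) =
        ok k ^ 2 * ((yc P - yc Q) / (xc P - xc Q)) := by
      rw [← mul_sub, div_mul_eq_div_div]
      field_simp
      linear_combination (-(yc P - yc Q)) * ok_cube (k := k)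
    refine pt_ext (omF_ne a1) b1 ?_ ?_
    · rw [xc_omF, a2, b2, hs]
      linear_combination (-((yc P - yc Q) / (xc P - xc Q)) ^ 2) * hk2
    · rw [yc_omF, a3, b3, a2, b2, hs]
      linear_combination (((yc P - yc Q) / (xc P - xc Q)) *
        (((yc P - yc Q) / (xc P - xc Q)) ^ 2 * (ok k ^ 3 + 1) - 2 * xc P - xc Q)) * ok_cube (k := k)

/-- The automorphism om as an endomorphism. -/
noncomputable def omP : P27 k →+ P27 k where
  toFun := omF
  map_zero' := omF_zero
  map_add' := omF_add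

theorem omP_rel (P : P27 k) : omP (omP P) + omP P + P = 0 := by
  show omF (omF P) + omF P + P = 0
  by_cases hP : P = 0
  · rw [hP, omF_zero, omF_zero]
    rfl
  have hk := ok_rel (k := k)
  have hk0 := ok_ne (k := k)
  have h2 := char0 (k := k)
  have hk1 : ok k ≠ 1 := by
    intro h
    rw [h] at hk
    norm_num at hk
  by_cases hx : xc P = 0
  · -- P = (0, 0) or (0, -1)
    have e1 : omF P = P := pt_ext (omF_ne hP) hP (by rw [xc_omF, hx, mul_zero]) (yc_omF P)
    rw [e1, e1]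
    have hf : fc P ≠ 0 := by
      intro h
      have := fc_sq P
      rw [h, hx] at this
      norm_num at this
    obtain ⟨a1, a2, a3⟩ := dbl_coords hP hf
    have hn : P + P = -P := by
      refine pt_ext a1 (neg_ne hP) ?_ ?_
      · rw [a2, xc_neg, hx]
        ring
      · rw [a3, yc_neg hP, hx]
        ring
    rw [hn, neg_add_cancel]
  · have hne : xc (omF (omF P)) ≠ xc (omF P) := by
      rw [xc_omF, xc_omF]
      intro h
      have h1 : ok k * xc P ≠ 0 := mul_ne_zero hk0 hx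
      have h3 : (ok k - 1) * (ok k * xc P) = 0 := by linear_combination h
      rcases mul_eq_zero.1 h3 with h4 | h4
      · exact hk1 (sub_eq_zero.1 h4)
      · exact h1 h4
    obtain ⟨a1, a2, a3⟩ := add_coords (omF_ne (omF_ne hP)) (omF_ne hP) hne
    have hy : yc (omF (omF P)) - yc (omF P) = 0 := by rw [yc_omF, sub_self]
    rw [hy, zero_div] at a2 a3
    have hn : omF (omF P) + omF P = -P := by
      refine pt_ext a1 (neg_ne hP) ?_ ?_
      · rw [a2, xc_neg, xc_omF, xc_omF]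
        linear_combination (-xc P) * hk
      · rw [a3, yc_neg hP, yc_omF, yc_omF]
        ring
    rw [hn, neg_add_cancel]

/-- The automorphism om in the ring of endomorphisms. -/
noncomputable def omE (k : Type) [Field k] [DecidableEq k] [Algebra F k] : AddMonoid.End (P27 k) := omP

theorem omE_sq : omE k * omE k = -omE k - 1 := by
  apply AddMonoidHom.ext
  intro P
  have h := omP_rel P
  show omP (omP P) = -omP P - P
  rw [eq_sub_iff_add_eq, eq_neg_iff_add_eq_zero, ← h]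
  abel

/-- The additive map underlying the action. -/
noncomputable def act0 (k : Type) [Field k] [DecidableEq k] [Algebra F k] :
    O →+ AddMonoid.End (P27 k) where
  toFun c := ((Z1_basis.repr c 0 : ℤ) : AddMonoid.End (P27 k)) + ((Z1_basis.repr c 1 : ℤ) : AddMonoid.End (P27 k)) * omE k
  map_zero' := by simp
  map_add' a b := by
    simp only [map_add, Finsupp.add_apply, Int.cast_add, add_mul]
    exact add_add_add_comm _ _ _ _

theorem act0_apply (a b : ℤ) : act0 k ((a : O) + b * om) =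
    (a : AddMonoid.End (P27 k)) + (b : AddMonoid.End (P27 k)) * omE k := by
  show ((Z1_basis.repr _ 0 : ℤ) : AddMonoid.End (P27 k)) + ((Z1_basis.repr _ 1 : ℤ) : AddMonoid.End (P27 k)) * omE k = _
  rw [Z1_repr]
  simp

theorem act0_ring {R : Type} [Ring R] (w : R) (hw : w * w = -w - 1) (a b c d : ℤ) :
    (((a * c - b * d : ℤ) : R) + ((a * d + b * c - b * d : ℤ) : R) * w) =
      ((a : R) + (b : R) * w) * ((c : R) + (d : R) * w) := by
  have h1 : (b : R) * w * (c : R) = (b : R) * (c : R) * w := by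
    rw [mul_assoc, ((Int.cast_commute c w).eq).symm, mul_assoc]
  have h2 : (b : R) * w * ((d : R) * w) = (b : R) * (d : R) * (-w - 1) := by
    rw [← hw, mul_assoc, ← mul_assoc w, ((Int.cast_commute d w).eq).symm]
    simp only [mul_assoc]
  rw [add_mul, mul_add, mul_add, h1, h2]
  push_cast
  simp only [sub_mul, add_mul, mul_sub, mul_neg, mul_one, mul_assoc]
  abel

theorem act0_mul (x y : O) : act0 k (x * y) = act0 k x * act0 k y := by
  obtain ⟨a, b, rfl⟩ := exists_repr x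
  obtain ⟨c, d, rfl⟩ := exists_repr y
  have h1 : ((a : O) + b * om) * (c + d * om) = ((a * c - b * d : ℤ) : O) +
      ((a * d + b * c - b * d : ℤ) : O) * om := by
    push_cast
    linear_combination ((b : O) * d) * om_rel
  rw [h1, act0_apply, act0_apply, act0_apply]
  exact act0_ring (omE k) omE_sq a b c d

/-- The action of O on the points. -/
noncomputable def act : O →+* AddMonoid.End (P27 k) where
  toFun := act0 k
  map_one' := by
    have h : (1 : O) = ((1 : ℤ) : O) + ((0 : ℤ) : O) * om := by push_cast; ring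
    rw [h, act0_apply]
    simp
  map_mul' := act0_mul
  map_zero' := map_zero _
  map_add' := map_add _

theorem act_apply (a b : ℤ) (P : P27 k) : act ((a : O) + b * om) P = a • P + b • omP P := by
  show act0 k ((a : O) + b * om) P = _
  rw [act0_apply]
  rfl

theorem act_om (P : P27 k) : act om P = omP P := by
  have h : (om : O) = ((0 : ℤ) : O) + ((1 : ℤ) : O) * om := by push_cast; ring
  rw [h, act_apply]
  simp

theorem act_mul (x y : O) (P : P27 k) : act (x * y) P = act x (act y P) := by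
  rw [map_mul]
  rfl

theorem act_add (x y : O) (P : P27 k) : act (x + y) P = act x P + act y P := by
  rw [map_add]
  rfl

theorem act_sub (x y : O) (P : P27 k) : act (x - y) P = act x P - act y P := by
  rw [map_sub]
  rfl

theorem act_one (P : P27 k) : act (1 : O) P = P := by
  rw [map_one]
  rfl

theorem act_neg (x : O) (P : P27 k) : act (-x) P = -act x P := by
  rw [map_neg]
  rfl

theorem act_int (n : ℤ) (P : P27 k) : act (n : O) P = n • P := by
  rw [map_intCast]
  rfl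

theorem act_nat (n : ℕ) (P : P27 k) : act (n : O) P = n • P := by
  rw [map_natCast]
  rfl

theorem xc_omP (P : P27 k) : xc (omP P) = ok k * xc P := xc_omF P

theorem yc_omP (P : P27 k) : yc (omP P) = yc P := yc_omF P

/-- The kernel of c. -/
noncomputable def Tor (c : O) (k : Type) [Field k] [DecidableEq k] [Algebra F k] : AddSubgroup (P27 k) :=
  AddMonoidHom.ker (act c : P27 k →+ P27 k)

theorem mem_Tor {c : O} {P : P27 k} : P ∈ Tor c k ↔ act c P = 0 := Iff.rfl

/-- All points killed by c are rational over k. -/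
def Full (c : O) (k : Type) [Field k] [DecidableEq k] [Algebra F k] : Prop := Nat.card (Tor c k) = Nm c

end H28G
end

-- from Lib.H28G.Map
section

/-! # H28G: functoriality -/

open NumberField IsDedekindDomain WeierstrassCurve

namespace H28G

open H55B

variable {k : Type} [Field k] [Algebra F k] [DecidableEq k]
  {k' : Type} [Field k'] [Algebra F k'] [DecidableEq k']

/-- The map on points. -/
noncomputable def mp (j : k →ₐ[F] k') : P27 k →+ P27 k' := Affine.Point.map (W' := W27.toAffine) j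

theorem mp_ne (j : k →ₐ[F] k') {P : P27 k} (hP : P ≠ 0) : mp j P ≠ 0 := by
  rcases P with _ | ⟨x, y, h⟩
  · exact absurd rfl hP
  · unfold mp
    rw [Affine.Point.map_some]
    exact Affine.Point.some_ne_zero _

theorem xc_mp (j : k →ₐ[F] k') (P : P27 k) : xc (mp j P) = j (xc P) := by
  rcases P with _ | ⟨x, y, h⟩
  · have : mp j (Affine.Point.zero : P27 k) = 0 := map_zero (mp j)
    rw [this]
    exact (map_zero j).symm
  · unfold mp
    rw [Affine.Point.map_some]
    rfl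

theorem yc_mp (j : k →ₐ[F] k') (P : P27 k) : yc (mp j P) = j (yc P) := by
  rcases P with _ | ⟨x, y, h⟩
  · have : mp j (Affine.Point.zero : P27 k) = 0 := map_zero (mp j)
    rw [this]
    exact (map_zero j).symm
  · unfold mp
    rw [Affine.Point.map_some]
    rfl

theorem fc_mp (j : k →ₐ[F] k') (P : P27 k) : fc (mp j P) = j (fc P) := by
  unfold fc
  rw [yc_mp, map_add, map_mul, map_ofNat, map_one]

theorem tt_mp (j : k →ₐ[F] k') (P : P27 k) : tt (mp j P) = j (tt P) := by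
  unfold tt
  rw [xc_mp, yc_mp, map_div₀, map_neg]

theorem mp_inj (j : k →ₐ[F] k') : Function.Injective (mp j) := by
  rw [injective_iff_map_eq_zero]
  intro P hP
  by_contra h
  exact mp_ne j h hP

theorem ok_map (j : k →ₐ[F] k') : j (ok k) = ok k' := j.commutes _

theorem mp_omP (j : k →ₐ[F] k') (P : P27 k) : mp j (omP P) = omP (mp j P) := by
  by_cases hP : P = 0
  · rw [hP, map_zero, map_zero, map_zero]
  · refine pt_ext (mp_ne j (omF_ne hP)) (omF_ne (mp_ne j hP)) ?_ ?_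
    · rw [xc_mp, xc_omP, xc_omP, xc_mp, map_mul, ok_map]
    · rw [yc_mp, yc_omP, yc_omP, yc_mp]

theorem mp_act (j : k →ₐ[F] k') (c : O) (P : P27 k) : mp j (act c P) = act c (mp j P) := by
  obtain ⟨a, b, rfl⟩ := exists_repr c
  rw [act_apply, act_apply, map_add, map_zsmul, map_zsmul, mp_omP]

theorem mp_mem_Tor (j : k →ₐ[F] k') (c : O) (P : P27 k) : mp j P ∈ Tor c k' ↔ P ∈ Tor c k := by
  rw [mem_Tor, mem_Tor, ← mp_act, map_eq_zero_iff _ (mp_inj j)]

/-- The action of an automorphism is a map on points. -/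
theorem ac_eq (s : k ≃ₐ[F] k) (P : P27 k) : H55P.ac W27 s P = mp s.toAlgHom P := rfl

theorem Full.finite {c : O} (hc : c ≠ 0) (h : Full c k) : Finite (Tor c k) := by
  apply Nat.finite_of_card_ne_zero
  unfold Full at h
  rw [h]
  exact fun h0 => hc (Nm_eq_zero.1 h0)

/-- Full torsion is preserved by embeddings: the map is a bijection. -/
theorem Full.bij {c : O} (hc : c ≠ 0) (j : k →ₐ[F] k') (h : Full c k) (h' : Full c k') :
    ∀ R ∈ Tor c k', ∃ S ∈ Tor c k, mp j S = R := by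
  have f1 := h.finite hc
  have f2 := h'.finite hc
  let φ : Tor c k → Tor c k' := fun S => ⟨mp j S.1, (mp_mem_Tor j c S.1).2 S.2⟩
  have hφ : Function.Injective φ := fun a b hab => Subtype.ext (mp_inj j (congrArg Subtype.val hab))
  have hb : Function.Bijective φ := by
    rw [Nat.bijective_iff_injective_and_card]
    exact ⟨hφ, by rw [h, h']⟩
  intro R hR
  obtain ⟨S, hS⟩ := hb.2 ⟨R, hR⟩
  exact ⟨S.1, S.2, congrArg Subtype.val hS⟩

end H28G
end

-- from Lib.H55B.S0
section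

open NumberField IsDedekindDomain

namespace H55B

/-! Chunk S0: convergence of the lattice sums of |x|^(-r), r > 2.
The map (a, b) -> a + b om is a bijection Z^2 -> O and |e(a + b om)|^2 = a^2 - a b + b^2 >=
(3/4) max(a^2, b^2); compare with EisensteinSeries.summable_one_div_norm_rpow (sup norm on Fin 2 -> Z)
or with ZLattice.summable_norm_rpow. -/

/-- the coordinates map -/
noncomputable def s0_map (x : Fin 2 → ℤ) : O := (x 0 : O) + (x 1 : O) * om

theorem s0_bij : Function.Bijective s0_map := by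
  constructor
  · intro x y h
    obtain ⟨h1, h2⟩ := repr_unique h
    funext i
    fin_cases i
    · exact h1
    · exact h2
  · intro x
    obtain ⟨a, b, h⟩ := exists_repr x
    refine ⟨![a, b], ?_⟩
    simp [s0_map, h]

theorem s0_norm_sq (x : Fin 2 → ℤ) :
    ‖e (s0_map x)‖ ^ 2 = (x 0 : ℝ) ^ 2 - x 0 * x 1 + (x 1 : ℝ) ^ 2 := by
  rw [← Nm_eq]
  have h := Nm_repr (x 0) (x 1)
  have h2 : ((Nm (s0_map x) : ℤ) : ℝ) = (((x 0) ^ 2 - x 0 * x 1 + (x 1) ^ 2 : ℤ) : ℝ) := by
    rw [← h]; rfl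
  push_cast at h2
  exact_mod_cast h2

theorem s0_norm_le (x : Fin 2 → ℤ) : ‖x‖ ≤ 2 * ‖e (s0_map x)‖ := by
  have h := s0_norm_sq x
  have h0 : 0 ≤ ‖e (s0_map x)‖ := norm_nonneg _
  rw [pi_norm_le_iff_of_nonneg (by positivity)]
  intro i
  rw [Int.norm_eq_abs]
  apply abs_le_of_sq_le_sq _ (by positivity)
  rw [mul_pow, h]
  fin_cases i
  · simp only [Fin.zero_eta]
    nlinarith [sq_nonneg ((x 0 : ℝ) - 2 * x 1), sq_nonneg (x 0 : ℝ)]
  · simp only [Fin.mk_one]
    nlinarith [sq_nonneg ((x 1 : ℝ) - 2 * x 0), sq_nonneg (x 1 : ℝ)]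

theorem summable_e {r : ℝ} (hr : 2 < r) : Summable (fun x : O => (1 + ‖e x‖) ^ (-r)) := by
  rw [← (Equiv.ofBijective s0_map s0_bij).summable_iff]
  have h1 : Summable fun x : Fin 2 → ℤ => (2 : ℝ) ^ r * ‖x‖ ^ (-r) :=
    (EisensteinSeries.summable_one_div_norm_rpow hr).mul_left _
  refine h1.of_norm_bounded_eventually ?_
  rw [Filter.eventually_cofinite]
  refine Set.Finite.subset (Set.finite_singleton (0 : Fin 2 → ℤ)) ?_
  intro x hx
  rw [Set.mem_singleton_iff]
  by_contra hne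
  apply hx
  have hx0 : 0 < ‖x‖ := norm_pos_iff.mpr hne
  have h2 := s0_norm_le x
  have h3 : (0 : ℝ) ≤ ‖e (s0_map x)‖ := norm_nonneg _
  change ‖(1 + ‖e (s0_map x)‖) ^ (-r)‖ ≤ 2 ^ r * ‖x‖ ^ (-r)
  rw [Real.norm_of_nonneg (by positivity)]
  have h4 : (2 : ℝ) ^ r * ‖x‖ ^ (-r) = (‖x‖ / 2) ^ (-r) := by
    rw [Real.div_rpow hx0.le (by norm_num), Real.rpow_neg (by norm_num : (0:ℝ) ≤ 2)]
    field_simp
  rw [h4]
  apply Real.rpow_le_rpow_of_nonpos (by positivity) (by linarith) (by linarith)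

/-- Only finitely many Eisenstein integers in a disc. -/
theorem finite_norm_le (M : ℝ) : {x : O | ‖e x‖ ≤ M}.Finite := by
  rcases lt_or_ge M 0 with hM | hM
  · convert Set.finite_empty
    ext x
    simp only [Set.mem_setOf_eq, Set.mem_empty_iff_false, iff_false, not_le]
    exact hM.trans_le (norm_nonneg _)
  · have h1 := (summable_e (show (2 : ℝ) < 3 by norm_num)).tendsto_cofinite_zero
    have h2 : (0 : ℝ) < (1 + M) ^ (-(3 : ℝ)) := by positivity
    have h3 := h1.eventually (gt_mem_nhds h2)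
    rw [Filter.eventually_cofinite] at h3
    refine h3.subset fun x hx => ?_
    simp only [Set.mem_setOf_eq, not_lt] at hx ⊢
    have h0 : (0 : ℝ) ≤ ‖e x‖ := norm_nonneg _
    exact Real.rpow_le_rpow_of_nonpos (by positivity) (by linarith) (by norm_num)

end H55B
end

-- from Lib.H55B.B1
section

open NumberField IsDedekindDomain

namespace H55B

/-! Chunk B1: G is analytic on Re s > 1/2.
All but finitely many x satisfy 2|w| + 1 <= |1 + 3 e x| (S0.finite_norm_le), there S1 bounds the term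
(with u = 1 + 3 e x) by C |1 + 3 e x|^(-(1 + 2 sigma)), summable by S0 (comparison
|1 + 3 e x| >= c (1 + |e x|) for all but finitely many x). Locally uniformly on {sigma < Re s, |s| < M};
each term is analytic in s (g s u is entire in s for fixed u: u = 0 gives 0 identically);
differentiableOn_tsum_of_summable_norm. -/

theorem b1_diff (u : ℂ) : Differentiable ℂ (fun s => g s u) := by
  intro s
  by_cases hu : u = 0
  · subst hu
    have : (fun s => g s 0) = fun _ => (0 : ℂ) := by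
      funext s
      simp [g]
    rw [this]
    exact differentiableAt_const _
  · unfold g
    refine (differentiableAt_const _).mul ?_
    refine DifferentiableAt.const_cpow ?_ (Or.inl ?_)
    · exact (differentiableAt_const _).mul differentiableAt_id
    · exact_mod_cast norm_ne_zero_iff.mpr hu

/-- the general term of `G` -/
noncomputable def b1_term (w : ℂ) (x : O) (s : ℂ) : ℂ :=
  g s (1 + w + 3 * e x) + g s (1 - w + 3 * e x) - 2 * g s (1 + 3 * e x)

theorem b1_term_diff (w : ℂ) (x : O) : Differentiable ℂ (b1_term w x) := by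
  unfold b1_term
  exact ((b1_diff _).add (b1_diff _)).sub ((differentiable_const _).mul (b1_diff _))

theorem b1_low (x : O) (h : 1 ≤ ‖e x‖) : 1 + ‖e x‖ ≤ ‖1 + 3 * e x‖ := by
  have h1 : ‖3 * e x‖ ≤ ‖1 + 3 * e x‖ + 1 := by
    calc ‖3 * e x‖ = ‖(1 + 3 * e x) - 1‖ := by ring_nf
      _ ≤ ‖1 + 3 * e x‖ + ‖(1 : ℂ)‖ := norm_sub_le _ _
      _ = ‖1 + 3 * e x‖ + 1 := by rw [norm_one]
  have h2 : ‖3 * e x‖ = 3 * ‖e x‖ := by
    rw [norm_mul]
    simp
  linarith

theorem b1_bound (w : ℂ) (σ M : ℝ) (hσ : 1 / 2 < σ) : ∃ B : O → ℝ, Summable B ∧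
    ∀ x : O, ∀ s : ℂ, σ ≤ s.re → ‖s‖ ≤ M → ‖b1_term w x s‖ ≤ B x := by
  obtain ⟨C, hC0, hC⟩ := g_second_diff w σ M (by linarith)
  set K : Set ℂ := {s | σ ≤ s.re ∧ ‖s‖ ≤ M} with hK
  have hKc : IsCompact K := by
    have h1 : K ⊆ Metric.closedBall 0 M := by
      intro s hs
      rw [mem_closedBall_zero_iff]
      exact hs.2
    refine IsCompact.of_isClosed_subset (isCompact_closedBall 0 M) ?_ h1
    exact (isClosed_le continuous_const Complex.continuous_re).inter
      (isClosed_le continuous_norm continuous_const)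
  have hb : ∀ x : O, ∃ c : ℝ, ∀ s ∈ K, ‖b1_term w x s‖ ≤ c := fun x =>
    hKc.exists_bound_of_continuousOn (b1_term_diff w x).continuous.continuousOn
  choose c hc using hb
  classical
  refine ⟨fun x => if ‖w‖ + 1 < ‖e x‖ then C * (1 + ‖e x‖) ^ (-(1 + 2 * σ)) else c x, ?_, ?_⟩
  · have h1 : Summable (fun x : O => C * (1 + ‖e x‖) ^ (-(1 + 2 * σ))) :=
      (summable_e (by linarith)).mul_left C
    refine h1.of_norm_bounded_eventually ?_
    rw [Filter.eventually_cofinite]
    refine (finite_norm_le (‖w‖ + 1)).subset ?_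
    intro x hx
    simp only [Set.mem_ofPred_eq] at hx ⊢
    by_contra hne
    apply hx
    rw [if_pos (not_le.mp hne), Real.norm_of_nonneg (by positivity)]
  · intro x s hs hM
    simp only
    split_ifs with h
    · have hw0 : 0 ≤ ‖w‖ := norm_nonneg w
      have h1 := b1_low x (by linarith)
      have h3 : 3 * ‖e x‖ ≤ ‖1 + 3 * e x‖ + 1 := by
        calc 3 * ‖e x‖ = ‖3 * e x‖ := by rw [norm_mul]; simp
          _ = ‖(1 + 3 * e x) - 1‖ := by ring_nf
          _ ≤ ‖1 + 3 * e x‖ + ‖(1 : ℂ)‖ := norm_sub_le _ _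
          _ = ‖1 + 3 * e x‖ + 1 := by rw [norm_one]
      have h2 := hC s hs hM (1 + 3 * e x) (by linarith)
      have e1 : b1_term w x s = g s (1 + 3 * e x + w) + g s (1 + 3 * e x - w) -
          2 * g s (1 + 3 * e x) := by
        unfold b1_term
        congr 3 <;> ring_nf
      rw [e1]
      refine h2.trans (mul_le_mul_of_nonneg_left ?_ hC0.le)
      exact Real.rpow_le_rpow_of_nonpos (by positivity) h1 (by linarith)
    · exact hc x s ⟨hs, hM⟩

theorem G_summable (w s : ℂ) (hs : 1 / 2 < s.re) :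
    Summable (fun x : O => g s (1 + w + 3 * e x) + g s (1 - w + 3 * e x) - 2 * g s (1 + 3 * e x)) := by
  obtain ⟨B, hB, hB2⟩ := b1_bound w s.re ‖s‖ hs
  exact Summable.of_norm_bounded hB (fun x => hB2 x s le_rfl le_rfl)

theorem G_analytic (w : ℂ) : AnalyticOnNhd ℂ (G w) {s | 1 / 2 < s.re} := by
  intro s hs
  simp only [Set.mem_ofPred_eq] at hs
  obtain ⟨B, hB, hB2⟩ := b1_bound w ((1 / 2 + s.re) / 2) (‖s‖ + 1) (by linarith)
  set U : Set ℂ := {z | (1 / 2 + s.re) / 2 < z.re ∧ ‖z‖ < ‖s‖ + 1} with hU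
  have hUo : IsOpen U := (isOpen_lt continuous_const Complex.continuous_re).inter
    (isOpen_lt continuous_norm continuous_const)
  have hsU : s ∈ U := ⟨by linarith, by linarith⟩
  have h1 : DifferentiableOn ℂ (fun z => ∑' x : O, b1_term w x z) U :=
    Complex.differentiableOn_tsum_of_summable_norm hB (fun x => (b1_term_diff w x).differentiableOn) hUo
      (fun x z hz => hB2 x z hz.1.le hz.2.le)
  exact h1.analyticAt (hUo.mem_nhds hsU)

end H55B
end

-- from Lib.H55B.B2
section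

open NumberField IsDedekindDomain

namespace H55B

/-! Chunk B2: elementary relations between the lattice sums.
g_mul: norm is multiplicative and (a b)^(z) = a^z b^z for nonnegative reals
(Complex.mul_cpow_ofReal_nonneg). g_one: conj(u)/|u|^2 = 1/u.
Kf_summable: |g s u| = |u|^(1 - 2 Re s) and S0 with r = 2 Re s - 1 > 2.
Kf_per: shift x by y. Kf_om: om is a unit, reindex x -> om x, g_mul and g s (e om) = conj(e om).
Kf_one: with om = e om: 1 + (om - 1) = om and 1 - (om - 1) = 2 - om = om^2 + 3, so G (om - 1) s =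
Kf om + Kf om^2 - 2 Kf 1 = (conj om + conj om^2 - 2) Kf 1 = -3 Kf 1.
G_per: true for Re s > 3/2 by G_eq_Kf and Kf_per; both sides are analytic on the half plane Re s > 1/2
(connected), identity theorem. -/

theorem g_mul (s u v : ℂ) : g s (u * v) = g s u * g s v := by
  unfold g
  rw [map_mul, norm_mul, Complex.ofReal_mul,
    Complex.mul_cpow_ofReal_nonneg (norm_nonneg u) (norm_nonneg v)]
  ring

theorem g_one (u : ℂ) : g 1 u = u⁻¹ := by
  unfold g
  rw [Complex.inv_def, Complex.normSq_eq_norm_sq]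
  congr 1
  rw [mul_one, Complex.cpow_neg]
  norm_num

theorem norm_g (s u : ℂ) (hu : u ≠ 0) : ‖g s u‖ = ‖u‖ ^ (1 - 2 * s.re) := by
  have hpos : 0 < ‖u‖ := norm_pos_iff.mpr hu
  unfold g
  rw [norm_mul, Complex.norm_conj, Complex.norm_cpow_eq_rpow_re_of_pos hpos]
  nth_rewrite 1 [← Real.rpow_one ‖u‖]
  rw [← Real.rpow_add hpos]
  congr 1
  simp
  ring

theorem b2_low (w : ℂ) (x : O) (h : ‖w‖ + 1 ≤ ‖e x‖) : 1 + ‖e x‖ ≤ ‖w + 3 * e x‖ := by
  have h1 : ‖3 * e x‖ ≤ ‖w + 3 * e x‖ + ‖w‖ := by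
    calc ‖3 * e x‖ = ‖(w + 3 * e x) - w‖ := by ring_nf
      _ ≤ ‖w + 3 * e x‖ + ‖w‖ := norm_sub_le _ _
  have h2 : ‖3 * e x‖ = 3 * ‖e x‖ := by
    rw [norm_mul]
    simp
  have h3 : 0 ≤ ‖w‖ := norm_nonneg w
  linarith

theorem Kf_summable (w s : ℂ) (hs : 3 / 2 < s.re) : Summable (fun x : O => g s (w + 3 * e x)) := by
  have h1 : Summable (fun x : O => (1 + ‖e x‖) ^ (-(2 * s.re - 1))) := summable_e (by linarith)
  refine h1.of_norm_bounded_eventually ?_
  rw [Filter.eventually_cofinite]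
  refine (finite_norm_le (‖w‖ + 1)).subset ?_
  intro x hx
  simp only [Set.mem_ofPred_eq] at hx ⊢
  by_contra hne
  apply hx
  have h2 := b2_low w x (not_le.mp hne).le
  have h3 : 0 < 1 + ‖e x‖ := by positivity
  have h4 : w + 3 * e x ≠ 0 := by
    rw [← norm_pos_iff]
    linarith
  rw [norm_g s _ h4, show 1 - 2 * s.re = -(2 * s.re - 1) by ring]
  exact Real.rpow_le_rpow_of_nonpos h3 h2 (by linarith)

theorem Kf_per (w s : ℂ) (y : O) : Kf (w + 3 * e y) s = Kf w s := by
  unfold Kf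
  rw [← (Equiv.addLeft y).tsum_eq (fun x => g s (w + 3 * e x))]
  refine tsum_congr fun x => ?_
  rw [Equiv.coe_addLeft, map_add]
  congr 1
  ring

theorem b2_om3 : om ^ 3 = 1 := by
  have h := om_rel
  have : om ^ 3 - 1 = (om - 1) * (om ^ 2 + om + 1) := by ring
  rw [h, mul_zero] at this
  exact sub_eq_zero.mp this

/-- multiplication by `om` -/
noncomputable def b2_eq : O ≃ O where
  toFun x := om * x
  invFun x := om ^ 2 * x
  left_inv x := by
    show om ^ 2 * (om * x) = x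
    rw [← mul_assoc, ← pow_succ, b2_om3, one_mul]
  right_inv x := by
    show om * (om ^ 2 * x) = x
    rw [← mul_assoc, ← pow_succ', b2_om3, one_mul]

theorem b2_g_om (s : ℂ) : g s (e om) = (starRingEnd ℂ) (e om) := by
  unfold g
  rw [norm_e_om]
  simp

theorem Kf_om (w s : ℂ) : Kf (e om * w) s = (starRingEnd ℂ) (e om) * Kf w s := by
  unfold Kf
  rw [← b2_eq.tsum_eq (fun x => g s (e om * w + 3 * e x)), ← tsum_mul_left]
  refine tsum_congr fun x => ?_
  rw [← b2_g_om s, ← g_mul]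
  congr 1
  show e om * w + 3 * e (om * x) = _
  rw [map_mul]
  ring

theorem G_eq_Kf (w s : ℂ) (hs : 3 / 2 < s.re) : G w s = Kf (1 + w) s + Kf (1 - w) s - 2 * Kf 1 s := by
  unfold G Kf
  rw [((Kf_summable (1 + w) s hs).add (Kf_summable (1 - w) s hs)).tsum_sub
    ((Kf_summable 1 s hs).mul_left 2), (Kf_summable (1 + w) s hs).tsum_add
    (Kf_summable (1 - w) s hs), tsum_mul_left]

theorem Kf_one (s : ℂ) (hs : 3 / 2 < s.re) : Kf 1 s = -(1 / 3) * G (e om - 1) s := by
  rw [G_eq_Kf _ s hs]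
  have h1 : Kf (1 + (e om - 1)) s = (starRingEnd ℂ) (e om) * Kf 1 s := by
    rw [← Kf_om 1 s]
    congr 1
    ring
  have h2 : Kf (1 - (e om - 1)) s = (starRingEnd ℂ) (e om) * ((starRingEnd ℂ) (e om) * Kf 1 s) := by
    rw [← Kf_om 1 s, ← Kf_om _ s, ← Kf_per (e om * (e om * 1)) s 1]
    congr 1
    have := e_om_rel
    rw [map_one]
    linear_combination -this
  have h3 : (starRingEnd ℂ) (e om) ^ 2 + (starRingEnd ℂ) (e om) + 1 = 0 := by
    rw [← map_pow, ← map_add, ← map_one (starRingEnd ℂ), ← map_add, e_om_rel, map_zero]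
  rw [h1, h2]
  linear_combination (1 / 3 : ℂ) * Kf 1 s * h3

theorem G_one (w : ℂ) : G w 1 = R w := by
  unfold G R
  refine tsum_congr fun x => ?_
  rw [g_one, g_one, g_one]

theorem G_per (w s : ℂ) (y : O) (hs : 1 / 2 < s.re) : G (w + 3 * e y) s = G w s := by
  have h1 := G_analytic (w + 3 * e y)
  have h2 := G_analytic w
  have hU : IsPreconnected {s : ℂ | 1 / 2 < s.re} :=
    (convex_halfSpace_re_gt (1 / 2)).isPreconnected
  have h3 : (2 : ℂ) ∈ {s : ℂ | 1 / 2 < s.re} := by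
    simp only [Set.mem_ofPred_eq]
    norm_num
  have h4 : G (w + 3 * e y) =ᶠ[nhds (2 : ℂ)] G w := by
    have h5 : {s : ℂ | 3 / 2 < s.re} ∈ nhds (2 : ℂ) := by
      refine (isOpen_lt continuous_const Complex.continuous_re).mem_nhds ?_
      simp only [Set.mem_ofPred_eq]
      norm_num
    filter_upwards [h5] with z hz
    rw [G_eq_Kf _ z hz, G_eq_Kf _ z hz]
    have e1 : Kf (1 + (w + 3 * e y)) z = Kf (1 + w) z := by
      rw [← Kf_per (1 + w) z y, add_assoc]
    have e2 : Kf (1 - (w + 3 * e y)) z = Kf (1 - w) z := by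
      rw [← Kf_per (1 - w) z (-y), map_neg]
      congr 1
      ring
    rw [e1, e2]
  exact h1.eqOn_of_preconnected_of_eventuallyEq h2 hU h3 h4 hs

theorem R_per (w : ℂ) (y : O) : R (w + 3 * e y) = R w := by
  rw [← G_one, ← G_one]
  exact G_per w 1 y (by norm_num)

theorem R_neg (w : ℂ) : R (-w) = R w := by
  unfold R
  refine tsum_congr fun x => ?_
  rw [sub_neg_eq_add, ← sub_eq_add_neg]
  ring

end H55B
end

-- from Lib.H55B.A0
section

open NumberField IsDedekindDomain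

namespace H55B

/-! Chunk A0: the Weierstrass functions of the lattice 3O (Mathlib: PeriodPair, weierstrassP,
derivWeierstrassP, derivWeierstrassP_sq, g_2 = 60 G_4, g_3 = 140 G_6).
LL_indep: e om is not real. LL_lattice: exists_repr. wp_om: the lattice is stable under z -> (e om) z, so
wp(om z) = om^(-2) wp(z) = om wp(z) (reindex the absolutely convergent sum defining weierstrassP by
l -> om l). wp'(om z) = om^(-3) wp'(z) = wp'(z). wp_zero_at: om (om - 1) = (om - 1) + (om - 1)^2 and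
(om - 1)^2 = -3 om is in the lattice, so wp(om - 1) = om wp(om - 1), hence 0. g2_zero: G_4 = om^(-4) G_4. -/

theorem A0_im : (e om).im ^ 2 = 3 / 4 := by
  have h := e_om_rel
  have h1 := congrArg Complex.re h
  have hr := e_om_re
  rw [sq] at h1
  simp only [Complex.add_re, Complex.mul_re, Complex.one_re, Complex.zero_re] at h1
  rw [hr] at h1
  nlinarith [h1]

theorem A0_im_ne : (e om).im ≠ 0 := by
  intro h
  have := A0_im
  rw [h] at this
  norm_num at this

theorem LL_indep : LinearIndependent ℝ ![(3 : ℂ), 3 * e om] := by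
  rw [LinearIndependent.pair_iff]
  intro s t h
  have h1 := congrArg Complex.im h
  have h2 := congrArg Complex.re h
  simp only [Complex.real_smul, Complex.add_im, Complex.mul_im, Complex.add_re, Complex.mul_re,
    Complex.ofReal_re, Complex.ofReal_im, Complex.zero_im, Complex.zero_re, Complex.re_ofNat,
    Complex.im_ofNat] at h1 h2
  have hi := A0_im_ne
  have ht : t = 0 := by
    have : t * (e om).im = 0 := by linarith
    rcases mul_eq_zero.1 this with h | h
    · exact h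
    · exact absurd h hi
  refine ⟨?_, ht⟩
  rw [ht] at h2
  linarith

/-- The period pair of the lattice 3O. -/
noncomputable def LL : PeriodPair := ⟨3, 3 * e om, LL_indep⟩

/-- The Weierstrass function of 3O. -/
noncomputable def wp (z : ℂ) : ℂ := LL.weierstrassP z

/-- Its derivative. -/
noncomputable def wpd (z : ℂ) : ℂ := LL.derivWeierstrassP z

theorem mem_LL (z : ℂ) : z ∈ LL.lattice ↔ z ∈ Lam := by
  rw [PeriodPair.mem_lattice]
  constructor
  · rintro ⟨m, n, h⟩
    refine ⟨m + n * om, ?_⟩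
    rw [← h, map_add, map_mul, map_intCast, map_intCast]
    show (m : ℂ) * 3 + (n : ℂ) * (3 * e om) = _
    ring
  · rintro ⟨y, h⟩
    obtain ⟨a, b, hab⟩ := exists_repr y
    refine ⟨a, b, ?_⟩
    rw [h, hab, map_add, map_mul, map_intCast, map_intCast]
    show (a : ℂ) * 3 + (b : ℂ) * (3 * e om) = _
    ring

theorem A0_om_ne : e om ≠ 0 := by
  intro h
  have := A0_im_ne
  rw [h] at this
  simp at this

theorem A0_om_ne_one : e om ≠ 1 := by
  intro h
  have := A0_im_ne
  rw [h] at this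
  simp at this

theorem A0_om_cube : e om ^ 3 = 1 := by
  have h := e_om_rel
  have : e om ^ 3 - 1 = (e om - 1) * (e om ^ 2 + e om + 1) := by ring
  rw [h, mul_zero] at this
  exact sub_eq_zero.1 this

theorem A0_mem_om {z : ℂ} (h : z ∈ LL.lattice) : e om * z ∈ LL.lattice := by
  rw [mem_LL] at h ⊢
  obtain ⟨y, hy⟩ := h
  refine ⟨om * y, ?_⟩
  rw [hy, map_mul]
  ring

/-- Multiplication by om on the lattice. -/
noncomputable def A0_equiv : LL.lattice ≃ LL.lattice where
  toFun l := ⟨e om * l.1, A0_mem_om l.2⟩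
  invFun l := ⟨e om * (e om * l.1), A0_mem_om (A0_mem_om l.2)⟩
  left_inv l := by
    apply Subtype.ext
    show e om * (e om * (e om * l.1)) = l.1
    have := A0_om_cube
    linear_combination (l.1) * this
  right_inv l := by
    apply Subtype.ext
    show e om * (e om * (e om * l.1)) = l.1
    have := A0_om_cube
    linear_combination (l.1) * this

theorem wp_om (z : ℂ) : wp (e om * z) = e om * wp z := by
  have hne := A0_om_ne
  have hc := A0_om_cube
  unfold wp PeriodPair.weierstrassP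
  rw [← A0_equiv.tsum_eq, ← tsum_mul_left]
  congr 1
  funext l
  show 1 / (e om * z - e om * l.1) ^ 2 - 1 / (e om * l.1) ^ 2 =
    e om * (1 / (z - l.1) ^ 2 - 1 / l.1 ^ 2)
  have h2 : (e om ^ 2)⁻¹ = e om := by
    apply inv_eq_of_mul_eq_one_right
    rw [← pow_succ]
    exact hc
  rw [← mul_sub, mul_pow, mul_pow, one_div, one_div, mul_inv, mul_inv, h2, one_div, one_div]
  ring

theorem A0_wpd_om (z : ℂ) : wpd (e om * z) = wpd z := by
  have hne := A0_om_ne
  have hc := A0_om_cube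
  unfold wpd PeriodPair.derivWeierstrassP
  rw [← A0_equiv.tsum_eq]
  congr 1
  congr 1
  funext l
  show 2 / (e om * z - e om * l.1) ^ 3 = 2 / (z - l.1) ^ 3
  rw [← mul_sub, mul_pow, hc, one_mul]

theorem wp_per (z : ℂ) (y : O) : wp (z + 3 * e y) = wp z := by
  have h : 3 * e y ∈ LL.lattice := (mem_LL _).2 ⟨y, rfl⟩
  exact LL.weierstrassP_add_coe z ⟨3 * e y, h⟩

theorem wp_zero_at : wp (e om - 1) = 0 := by
  have h1 := wp_om (e om - 1)
  have h2 : e om * (e om - 1) = (e om - 1) + 3 * e (-om) := by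
    rw [map_neg]
    linear_combination e_om_rel
  rw [h2, wp_per] at h1
  have h3 : (e om - 1) * wp (e om - 1) = 0 := by linear_combination -h1
  rcases mul_eq_zero.1 h3 with h | h
  · exact absurd (sub_eq_zero.1 h) A0_om_ne_one
  · exact h

theorem g2_zero : LL.g₂ = 0 := by
  have hne := A0_om_ne
  have hc := A0_om_cube
  have h : LL.G 4 = e om ^ 2 * LL.G 4 := by
    conv_lhs => unfold PeriodPair.G
    rw [← A0_equiv.tsum_eq]
    unfold PeriodPair.G
    rw [← tsum_mul_left]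
    congr 1
    funext l
    show ((e om * l.1) ^ 4)⁻¹ = e om ^ 2 * (l.1 ^ 4)⁻¹
    have h4 : (e om ^ 4)⁻¹ = e om ^ 2 := by
      apply inv_eq_of_mul_eq_one_right
      rw [← pow_add]
      have : e om ^ (4 + 2) = (e om ^ 3) ^ 2 := by ring
      rw [this, hc, one_pow]
    rw [mul_pow, mul_inv, h4]
  have h5 : (1 - e om ^ 2) * LL.G 4 = 0 := by linear_combination h
  have h6 : (1 - e om ^ 2) ≠ 0 := by
    intro h0
    have h7 : e om ^ 2 = 1 := by linear_combination -h0
    apply A0_om_ne_one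
    have : e om ^ 3 = e om := by rw [pow_succ, h7, one_mul]
    rw [← this, hc]
  rcases mul_eq_zero.1 h5 with h | h
  · exact absurd h h6
  · unfold PeriodPair.g₂
    rw [h, mul_zero]

theorem wp_ode (z : ℂ) (hz : z ∉ Lam) : wpd z ^ 2 = 4 * wp z ^ 3 - LL.g₃ := by
  have h : z ∉ LL.lattice := fun h => hz ((mem_LL z).1 h)
  have := LL.derivWeierstrassP_sq z h
  rw [g2_zero, zero_mul, sub_zero] at this
  exact this

theorem wp_neg (z : ℂ) : wp (-z) = wp z := LL.weierstrassP_neg z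

theorem A0_wpd_neg (z : ℂ) : wpd (-z) = -wpd z := LL.derivWeierstrassP_neg z

theorem A0_wpd_per (z : ℂ) (y : O) : wpd (z + 3 * e y) = wpd z := by
  have h : 3 * e y ∈ LL.lattice := (mem_LL _).2 ⟨y, rfl⟩
  exact LL.derivWeierstrassP_add_coe z ⟨3 * e y, h⟩

/-- Near 0: wp z = z^(-2) + z^4 u(z), u analytic, u(0) = g_3/28 = 5 G_6 (use weierstrassPExcept at 0,
iteratedDeriv_weierstrassPExcept_self: the coefficients are (i+1) G_(i+2), and G_3 = G_5 = 0, G_4 = 0). -/
theorem wp_expansion : ∃ u : ℂ → ℂ, AnalyticAt ℂ u 0 ∧ u 0 = LL.g₃ / 28 ∧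
    ∀ᶠ z in nhdsWithin (0 : ℂ) {0}ᶜ, wp z = (z ^ 2)⁻¹ + z ^ 4 * u z := by
  set f : ℂ → ℂ := LL.weierstrassPExcept 0 with hf
  have hp := LL.hasFPowerSeriesAt_weierstrassPExcept 0
  set p : FormalMultilinearSeries ℂ ℂ ℂ := .ofScalars (𝕜 := ℂ) ℂ fun i : ℕ ↦
      if i = 0 then LL.weierstrassPExcept 0 0 else ((i : ℂ) + 1) * LL.sumInvPow 0 (i + 2) with hpd
  have hG4 : LL.G 4 = 0 := by
    have := g2_zero
    unfold PeriodPair.g₂ at this
    rcases mul_eq_zero.1 this with h | h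
    · norm_num at h
    · exact h
  have hG3 : LL.G 3 = 0 := LL.G_eq_zero_of_odd 3 (by decide)
  have hG5 : LL.G 5 = 0 := LL.G_eq_zero_of_odd 5 (by decide)
  have c0 : p.coeff 0 = 0 := by
    rw [hpd, FormalMultilinearSeries.coeff_ofScalars]
    simp
  have c1 : p.coeff 1 = 0 := by
    rw [hpd, FormalMultilinearSeries.coeff_ofScalars]
    simp [hG3]
  have c2 : p.coeff 2 = 0 := by
    rw [hpd, FormalMultilinearSeries.coeff_ofScalars]
    simp [hG4]
  have c3 : p.coeff 3 = 0 := by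
    rw [hpd, FormalMultilinearSeries.coeff_ofScalars]
    simp [hG5]
  have c4 : p.coeff 4 = LL.g₃ / 28 := by
    rw [hpd, FormalMultilinearSeries.coeff_ofScalars]
    unfold PeriodPair.g₃
    simp
    ring
  have key : ∀ k, HasFPowerSeriesAt ((Function.swap dslope 0)^[k] f)
      (FormalMultilinearSeries.fslope^[k] p) 0 := fun k =>
    HasFPowerSeriesAt.has_fpower_series_iterate_dslope_fslope k hp
  have val : ∀ k, (Function.swap dslope (0 : ℂ))^[k] f 0 = p.coeff k := by
    intro k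
    have h1 := (key k).coeff_zero 1
    have h2 : (FormalMultilinearSeries.fslope^[k] p).coeff 0 = p.coeff (0 + k) :=
      FormalMultilinearSeries.coeff_iterate_fslope k 0
    rw [zero_add] at h2
    rw [← h2, ← h1]
    rfl
  have step : ∀ k, ∀ z : ℂ, (Function.swap dslope (0 : ℂ))^[k] f z =
      p.coeff k + z * (Function.swap dslope (0 : ℂ))^[k + 1] f z := by
    intro k z
    have h := sub_smul_dslope ((Function.swap dslope (0 : ℂ))^[k] f) 0 z
    rw [sub_zero, smul_eq_mul, val k] at h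
    rw [Function.iterate_succ_apply']
    show _ = p.coeff k + z * dslope ((Function.swap dslope (0 : ℂ))^[k] f) 0 z
    rw [h]
    ring
  refine ⟨(Function.swap dslope (0 : ℂ))^[4] f, (key 4).analyticAt, ?_, ?_⟩
  · rw [val 4, c4]
  · filter_upwards [self_mem_nhdsWithin] with z hz
    have hfz : f z = z ^ 4 * (Function.swap dslope (0 : ℂ))^[4] f z := by
      have s0 := step 0 z
      have s1 := step 1 z
      have s2 := step 2 z
      have s3 := step 3 z
      rw [c0, zero_add] at s0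
      rw [c1, zero_add] at s1
      rw [c2, zero_add] at s2
      rw [c3, zero_add] at s3
      have s0' : f z = z * (Function.swap dslope (0 : ℂ))^[1] f z := s0
      rw [s0', s1, s2, s3]
      ring
    have h := LL.weierstrassPExcept_add 0 z
    have h' : LL.weierstrassPExcept 0 z + (1 / (z - 0) ^ 2 - 1 / (0 : ℂ) ^ 2) = wp z := h
    rw [← h', sub_zero, ← hfz]
    simp
    ring

/-- Liouville for elliptic functions with removable singularities. -/
theorem A0_liouville (D : ℂ → ℂ) (hper : ∀ z (y : O), D (z + 3 * e y) = D z)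
    (hD : ∀ z₀, ∃ a : ℂ → ℂ, AnalyticAt ℂ a z₀ ∧ ∀ᶠ z in nhdsWithin z₀ {z₀}ᶜ, D z = a z) :
    ∃ c, ∀ (z₀ : ℂ) (a : ℂ → ℂ), ContinuousAt a z₀ →
      (∀ᶠ z in nhdsWithin z₀ {z₀}ᶜ, D z = a z) → a z₀ = c := by
  classical
  set D' : ℂ → ℂ := fun z => (nhdsWithin z {z}ᶜ).limUnder D with hD'
  have hlim : ∀ (z₀ : ℂ) (a : ℂ → ℂ), ContinuousAt a z₀ →
      (∀ᶠ z in nhdsWithin z₀ {z₀}ᶜ, D z = a z) → D' z₀ = a z₀ := by
    intro z₀ a ha h
    have h1 : Filter.Tendsto D (nhdsWithin z₀ {z₀}ᶜ) (nhds (a z₀)) := by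
      have h2 : Filter.Tendsto a (nhdsWithin z₀ {z₀}ᶜ) (nhds (a z₀)) :=
        ha.tendsto.mono_left nhdsWithin_le_nhds
      refine h2.congr' ?_
      filter_upwards [h] with z hz using hz.symm
    exact h1.limUnder_eq
  have han : ∀ z₀, AnalyticAt ℂ D' z₀ := by
    intro z₀
    obtain ⟨a, ha, h⟩ := hD z₀
    refine ha.congr ?_
    have h1 : ∀ᶠ z in nhds z₀, ContinuousAt a z :=
      ha.eventually_analyticAt.mono fun z hz => hz.continuousAt
    rw [eventually_nhdsWithin_iff] at h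
    have h2 := h.eventually_nhds
    filter_upwards [h1, h2] with z hz1 hz2
    symm
    apply hlim z a hz1
    rw [eventually_nhdsWithin_iff]
    by_cases hz : z = z₀
    · rw [hz]
      exact h
    · filter_upwards [hz2, isOpen_ne.mem_nhds hz] with w hw1 hw2 _
      exact hw1 hw2
  have hdiff : Differentiable ℂ D' := fun z => (han z).differentiableAt
  have hper' : ∀ z w, w ∈ LL.lattice → D' (z + w) = D' z := by
    intro z w hw
    obtain ⟨y, hy⟩ := (mem_LL w).1 hw
    obtain ⟨a, ha, h⟩ := hD z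
    have e1 := hlim z a ha.continuousAt h
    have e2 : D' (z + w) = (fun v => a (v - w)) (z + w) := by
      apply hlim (z + w) (fun v => a (v - w))
      · have : ContinuousAt a ((z + w) - w) := by
          rw [add_sub_cancel_right]
          exact ha.continuousAt
        exact ContinuousAt.comp (f := fun v => v - w) this (by fun_prop)
      · rw [eventually_nhdsWithin_iff] at h ⊢
        have ht : Filter.Tendsto (fun v => v - w) (nhds (z + w)) (nhds z) := by
          have : ContinuousAt (fun v : ℂ => v - w) (z + w) := by fun_prop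
          have h3 := this.tendsto
          rw [add_sub_cancel_right] at h3
          exact h3
        filter_upwards [ht.eventually h] with v hv hne
        have h4 : v - w ∈ ({z}ᶜ : Set ℂ) := by
          intro h5
          apply hne
          have h6 : v - w = z := h5
          show v = z + w
          rw [← h6]
          ring
        have h7 := hv h4
        have h8 := hper (v - w) y
        rw [← hy, sub_add_cancel] at h8
        rw [h8, h7]
    rw [e2, e1]
    show a (z + w - w) = a z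
    rw [add_sub_cancel_right]
  have hbd : Bornology.IsBounded (Set.range D') :=
    (IsZLattice.isCompact_range_of_periodic LL.lattice _ hdiff.continuous hper').isBounded
  refine ⟨D' 0, ?_⟩
  intro z₀ a ha h
  rw [← hlim z₀ a ha h]
  exact hdiff.apply_eq_apply_of_bounded hbd z₀ 0

end H55B
end

-- from Lib.H55B.A2
section

open NumberField IsDedekindDomain

namespace H55B

/-! Chunk A2: duplication formula for g_2 = 0.
D(z) = wp(2z)(4 wp(z)^3 - g_3) - wp(z)^4 - 2 g_3 wp(z), lattice periodic, analytic outside (1/2)(3O).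
At a half period p not in 3O: 4 wp^3 - g_3 = (wp')^2 and wp' p = 0 (odd and periodic), so (wp')^2 has a zero
of order >= 2 cancelling the double pole of wp(2z) (order_weierstrassP). At 0, with wp z = z^(-2) + z^4 u(z),
D(z) = z^(-2)(-u(z) + 64 u(2z) - g_3/4 - 2 g_3) + O(z^4), and the bracket vanishes at 0 since
63/28 = 9/4 and it is even (or: differentiable with vanishing derivative, u even), so D is bounded near 0.
So D extends to an entire periodic function, constant c. D(om z) = om D(z) by wp_om (om^4 = om), so c = 0. -/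

theorem A2_wp_analytic {z : ℂ} (hz : z ∉ Lam) : AnalyticAt ℂ wp z :=
  LL.analyticOnNhd_weierstrassP z (fun h => hz ((mem_LL z).1 h))

theorem A2_wpd_analytic {z : ℂ} (hz : z ∉ Lam) : AnalyticAt ℂ wpd z :=
  LL.analyticOnNhd_derivWeierstrassP z (fun h => hz ((mem_LL z).1 h))

theorem A2_dslope {f : ℂ → ℂ} {z₀ : ℂ} (h : AnalyticAt ℂ f z₀) : AnalyticAt ℂ (dslope f z₀) z₀ := by
  obtain ⟨p, hp⟩ := h
  exact ⟨_, hp.has_fpower_series_dslope_fslope⟩

/-- The difference of the two sides of the duplication formula. -/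
noncomputable def A2_D (z : ℂ) : ℂ :=
  wp (2 * z) * (4 * wp z ^ 3 - LL.g₃) - wp z ^ 4 - 2 * LL.g₃ * wp z

theorem A2_D_neg (z : ℂ) : A2_D (-z) = A2_D z := by
  unfold A2_D
  rw [mul_neg, wp_neg, wp_neg]

theorem A2_D_per (z : ℂ) (y : O) : A2_D (z + 3 * e y) = A2_D z := by
  unfold A2_D
  have h : 2 * (z + 3 * e y) = 2 * z + 3 * e (2 * y) := by
    rw [map_mul, map_ofNat]
    ring
  rw [h, wp_per, wp_per]

theorem A2_D_om (z : ℂ) : A2_D (e om * z) = e om * A2_D z := by
  unfold A2_D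
  have h : 2 * (e om * z) = e om * (2 * z) := by ring
  rw [h, wp_om, wp_om]
  have hc := A0_om_cube
  linear_combination (wp (2 * z) * (4 * wp z ^ 3) * e om - wp z ^ 4 * e om) * hc

theorem A2_D_analytic {z : ℂ} (h1 : z ∉ Lam) (h2 : 2 * z ∉ Lam) : AnalyticAt ℂ A2_D z := by
  have a1 := A2_wp_analytic h1
  have a2 : AnalyticAt ℂ (fun w => wp (2 * w)) z :=
    (A2_wp_analytic h2).comp (f := fun w => 2 * w) (by fun_prop)
  unfold A2_D
  fun_prop

theorem A2_at_zero : ∃ a : ℂ → ℂ, AnalyticAt ℂ a 0 ∧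
    ∀ᶠ z in nhdsWithin (0 : ℂ) {0}ᶜ, A2_D z = a z := by
  obtain ⟨u, hu, hu0, hexp⟩ := wp_expansion
  set g₃ := LL.g₃ with hg3
  obtain ⟨U, hU⟩ : ∃ U : ℂ → ℂ, U = fun z => u (2 * z) := ⟨_, rfl⟩
  have hu2 : AnalyticAt ℂ U 0 := by
    have : AnalyticAt ℂ u (2 * 0) := by rw [mul_zero]; exact hu
    rw [hU]
    exact this.comp (f := fun w : ℂ => 2 * w) (by fun_prop)
  set B : ℂ → ℂ := fun z => -u z + 64 * U z - 9 * g₃ / 4 with hB
  have hBa : AnalyticAt ℂ B 0 := by rw [hB]; fun_prop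
  have hB0 : B 0 = 0 := by
    rw [hB, hU]
    simp only [mul_zero]
    rw [hu0]
    ring
  set A : ℂ → ℂ := fun z => 3 * z ^ 4 * u z ^ 2 + z ^ 10 * u z ^ 3 +
    16 * z ^ 4 * U z * (12 * u z + 12 * z ^ 6 * u z ^ 2 + 4 * z ^ 12 * u z ^ 3 - g₃) -
    (6 * z ^ 4 * u z ^ 2 + 4 * z ^ 10 * u z ^ 3 + z ^ 16 * u z ^ 4) - 2 * g₃ * z ^ 4 * u z with hA
  have hAa : AnalyticAt ℂ A 0 := by rw [hA]; fun_prop
  set b : ℂ → ℂ := fun z => dslope B 0 z + z * A z with hb
  have hds := A2_dslope hBa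
  have hba : AnalyticAt ℂ b 0 := by fun_prop
  have ht : Filter.Tendsto (fun z : ℂ => 2 * z) (nhdsWithin (0 : ℂ) {0}ᶜ)
      (nhdsWithin (0 : ℂ) {0}ᶜ) := by
    rw [tendsto_nhdsWithin_iff]
    constructor
    · have : ContinuousAt (fun z : ℂ => 2 * z) 0 := by fun_prop
      have h := this.tendsto
      simp only [mul_zero] at h
      exact h.mono_left nhdsWithin_le_nhds
    · filter_upwards [self_mem_nhdsWithin] with z hz
      have hz' : z ≠ 0 := hz
      show 2 * z ≠ 0
      exact mul_ne_zero two_ne_zero hz'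
  have hexp2 := ht.eventually hexp
  have hDb : ∀ᶠ z in nhdsWithin (0 : ℂ) {0}ᶜ, b z = z * A2_D z := by
    filter_upwards [hexp, hexp2, self_mem_nhdsWithin] with z h1 h2 hz
    have hz' : z ≠ 0 := hz
    rw [hb]
    simp only
    rw [dslope_of_ne _ hz', slope_def_field, hB0]
    unfold A2_D
    rw [h1, h2, hB, hA, hU, ← hg3]
    simp only
    field_simp
    ring
  have hneg : Filter.Tendsto (fun z : ℂ => -z) (nhdsWithin (0 : ℂ) {0}ᶜ)
      (nhdsWithin (0 : ℂ) {0}ᶜ) := by
    rw [tendsto_nhdsWithin_iff]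
    constructor
    · have : ContinuousAt (fun z : ℂ => -z) 0 := by fun_prop
      have h := this.tendsto
      simp only [neg_zero] at h
      exact h.mono_left nhdsWithin_le_nhds
    · filter_upwards [self_mem_nhdsWithin] with z hz
      have hz' : z ≠ 0 := hz
      show -z ≠ 0
      exact neg_ne_zero.2 hz'
  have hb0 : b 0 = 0 := by
    have h1 : Filter.Tendsto b (nhdsWithin (0 : ℂ) {0}ᶜ) (nhds (b 0)) :=
      hba.continuousAt.tendsto.mono_left nhdsWithin_le_nhds
    have h2 : Filter.Tendsto (fun z => b z + b (-z)) (nhdsWithin (0 : ℂ) {0}ᶜ)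
        (nhds (b 0 + b 0)) := h1.add (h1.comp hneg)
    have h3 : Filter.Tendsto (fun z => b z + b (-z)) (nhdsWithin (0 : ℂ) {0}ᶜ) (nhds 0) := by
      refine tendsto_const_nhds.congr' ?_
      filter_upwards [hDb, hneg.eventually hDb] with z h4 h5
      rw [h4, h5, A2_D_neg]
      ring
    have h6 := tendsto_nhds_unique h2 h3
    have h7 : 2 * b 0 = 0 := by linear_combination h6
    rcases mul_eq_zero.1 h7 with h | h
    · norm_num at h
    · exact h
  refine ⟨dslope b 0, A2_dslope hba, ?_⟩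
  filter_upwards [hDb, self_mem_nhdsWithin] with z h1 hz
  have hz' : z ≠ 0 := hz
  rw [dslope_of_ne _ hz', slope_def_field, hb0, h1, sub_zero, sub_zero, mul_div_cancel_left₀ _ hz']

theorem A2_Lam_discrete (z₀ : ℂ) : ∀ᶠ z in nhdsWithin z₀ {z₀}ᶜ, z ∉ Lam := by
  have h := LL.compl_lattice_sdiff_singleton_mem_nhds z₀
  rw [eventually_nhdsWithin_iff]
  filter_upwards [h] with z hz hne hz'
  exact hz ⟨(mem_LL z).2 hz', hne⟩

theorem A2_at_half {z₀ : ℂ} (h1 : z₀ ∉ Lam) (h2 : 2 * z₀ ∈ Lam) : ∃ a : ℂ → ℂ, AnalyticAt ℂ a z₀ ∧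
    ∀ᶠ z in nhdsWithin z₀ {z₀}ᶜ, A2_D z = a z := by
  obtain ⟨u, hu, hu0, hexp⟩ := wp_expansion
  obtain ⟨y, hy⟩ := h2
  have hwa := A2_wp_analytic h1
  have hda := A2_wpd_analytic h1
  have hd0 : wpd z₀ = 0 := by
    have h3 := A0_wpd_per (-z₀) y
    rw [← hy, A0_wpd_neg] at h3
    have h4 : -z₀ + 2 * z₀ = z₀ := by ring
    rw [h4] at h3
    have h7 : 2 * wpd z₀ = 0 := by linear_combination h3
    rcases mul_eq_zero.1 h7 with h | h
    · norm_num at h
    · exact h
  have hds := A2_dslope hda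
  obtain ⟨U, hU⟩ : ∃ U : ℂ → ℂ, U = fun z => u (2 * (z - z₀)) := ⟨_, rfl⟩
  have hu2 : AnalyticAt ℂ U z₀ := by
    have : AnalyticAt ℂ u (2 * (z₀ - z₀)) := by rw [sub_self, mul_zero]; exact hu
    rw [hU]
    exact this.comp (f := fun w : ℂ => 2 * (w - z₀)) (by fun_prop)
  have ht : Filter.Tendsto (fun z : ℂ => 2 * (z - z₀)) (nhdsWithin z₀ {z₀}ᶜ)
      (nhdsWithin (0 : ℂ) {0}ᶜ) := by
    rw [tendsto_nhdsWithin_iff]
    constructor
    · have : ContinuousAt (fun z : ℂ => 2 * (z - z₀)) z₀ := by fun_prop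
      have h := this.tendsto
      simp only [sub_self, mul_zero] at h
      exact h.mono_left nhdsWithin_le_nhds
    · filter_upwards [self_mem_nhdsWithin] with z hz
      have hz' : z ≠ z₀ := hz
      show 2 * (z - z₀) ≠ 0
      exact mul_ne_zero two_ne_zero (sub_ne_zero.2 hz')
  refine ⟨fun z => dslope wpd z₀ z ^ 2 / 4 +
    16 * (z - z₀) ^ 6 * U z * dslope wpd z₀ z ^ 2 - wp z ^ 4 - 2 * LL.g₃ * wp z, ?_, ?_⟩
  · fun_prop
  · filter_upwards [ht.eventually hexp, self_mem_nhdsWithin, A2_Lam_discrete z₀] with z h3 hz hL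
    have hz' : z ≠ z₀ := hz
    have hzz : z - z₀ ≠ 0 := sub_ne_zero.2 hz'
    have h4 : wp (2 * z) = wp (2 * (z - z₀)) := by
      have := wp_per (2 * (z - z₀)) y
      rw [← hy] at this
      rw [← this]
      congr 1
      ring
    have h5 : 4 * wp z ^ 3 - LL.g₃ = ((z - z₀) * dslope wpd z₀ z) ^ 2 := by
      rw [← wp_ode z hL]
      congr 1
      rw [dslope_of_ne _ hz', slope_def_field, hd0, sub_zero]
      field_simp
    unfold A2_D
    rw [h5, h4, h3, hU]
    field_simp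
    ring

theorem wp_double (z : ℂ) (h1 : z ∉ Lam) (h2 : 2 * z ∉ Lam) :
    wp (2 * z) * (4 * wp z ^ 3 - LL.g₃) = wp z ^ 4 + 2 * LL.g₃ * wp z := by
  have hall : ∀ z₀, ∃ a : ℂ → ℂ, AnalyticAt ℂ a z₀ ∧
      ∀ᶠ z in nhdsWithin z₀ {z₀}ᶜ, A2_D z = a z := by
    intro z₀
    by_cases c1 : z₀ ∈ Lam
    · obtain ⟨y, hy⟩ := c1
      obtain ⟨a, ha, h⟩ := A2_at_zero
      have ht : Filter.Tendsto (fun z : ℂ => z - z₀) (nhdsWithin z₀ {z₀}ᶜ)
          (nhdsWithin (0 : ℂ) {0}ᶜ) := by
        rw [tendsto_nhdsWithin_iff]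
        constructor
        · have : ContinuousAt (fun z : ℂ => z - z₀) z₀ := by fun_prop
          have h := this.tendsto
          simp only [sub_self] at h
          exact h.mono_left nhdsWithin_le_nhds
        · filter_upwards [self_mem_nhdsWithin] with z hz
          have hz' : z ≠ z₀ := hz
          show z - z₀ ≠ 0
          exact sub_ne_zero.2 hz'
      refine ⟨fun z => a (z - z₀), ?_, ?_⟩
      · have : AnalyticAt ℂ a (z₀ - z₀) := by rw [sub_self]; exact ha
        exact this.comp (f := fun w : ℂ => w - z₀) (by fun_prop)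
      · filter_upwards [ht.eventually h] with z h3
        rw [← h3, ← A2_D_per (z - z₀) y, ← hy, sub_add_cancel]
    · by_cases c2 : 2 * z₀ ∈ Lam
      · exact A2_at_half c1 c2
      · exact ⟨A2_D, A2_D_analytic c1 c2, Filter.Eventually.of_forall fun z => rfl⟩
  obtain ⟨c, hc⟩ := A0_liouville A2_D A2_D_per hall
  have e1 : A2_D z = c := hc z A2_D (A2_D_analytic h1 h2).continuousAt
    (Filter.Eventually.of_forall fun z => rfl)
  have hom : ∀ w, w ∉ Lam → e om * w ∉ Lam := by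
    intro w hw h
    apply hw
    rw [← mem_LL] at h ⊢
    have h3 := A0_mem_om (A0_mem_om h)
    have h4 : e om * (e om * (e om * w)) = w := by
      have := A0_om_cube
      linear_combination w * this
    rwa [h4] at h3
  have e2 : A2_D (e om * z) = c := by
    apply hc (e om * z) A2_D ?_ (Filter.Eventually.of_forall fun z => rfl)
    apply AnalyticAt.continuousAt (𝕜 := ℂ)
    apply A2_D_analytic (hom z h1)
    have : 2 * (e om * z) = e om * (2 * z) := by ring
    rw [this]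
    exact hom _ h2
  rw [A2_D_om] at e2
  have h5 : (e om - 1) * A2_D z = 0 := by linear_combination e2 - e1
  have h6 : A2_D z = 0 := by
    rcases mul_eq_zero.1 h5 with h | h
    · exact absurd (sub_eq_zero.1 h) A0_om_ne_one
    · exact h
  unfold A2_D at h6
  linear_combination h6

end H55B
end

-- from Lib.H55B.A1
section

open NumberField IsDedekindDomain

namespace H55B

/-! Chunk A1: R w (wp 1 - wp w) = wp' 1.
R is analytic on the complement of +-1 + 3O (locally uniform convergence: for |1 + 3 e x| >= 2|w| + 1 the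
term is 2 w^2 / ((u + w)(u - w) u), u = 1 + 3 e x, which is O(|w|^2 |u|^(-3))), R_per, R_neg. Let
D(w) = R(w)(wp 1 - wp w). It is lattice periodic. At w = 0: R is analytic, even, R(0) = 0, so R has a zero of
order >= 2 and D extends analytically; value at 0: -R''(0)/2, and R''(0) = 4 sum (1 + 3 e x)^(-3) =
-2 wp'(1) (derivWeierstrassP z = - sum 2/(z - l)^3), so D(0) = wp'(1). At w = 1 (and -1, by evenness): R has
a simple pole and wp 1 - wp w vanishes: D extends. So D extends to an entire periodic function (each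
singularity is a lattice translate of 0, 1, -1), bounded, hence constant
(Differentiable.apply_eq_apply_of_bounded, IsZLattice.isCompact_range_of_periodic as in the Mathlib proof of
relation_eq_zero). -/

theorem A1_mem_iff (c : O) : e c ∈ Lam ↔ (3 : O) ∣ c := by
  constructor
  · rintro ⟨y, hy⟩
    refine ⟨y, e_injective ?_⟩
    rw [hy, map_mul, map_ofNat]
  · rintro ⟨y, hy⟩
    exact ⟨y, by rw [hy, map_mul, map_ofNat]⟩

theorem A1_not_dvd {a b : ℤ} (h : ¬ (3 ∣ a ∧ 3 ∣ b)) : ¬ (3 : O) ∣ (a : O) + b * om := by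
  rintro ⟨y, hy⟩
  obtain ⟨c, d, hcd⟩ := exists_repr y
  apply h
  have h1 : (a : O) + b * om = ((3 * c : ℤ) : O) + ((3 * d : ℤ) : O) * om := by
    rw [hy, hcd]
    push_cast
    ring
  obtain ⟨h2, h3⟩ := repr_unique h1
  exact ⟨⟨c, h2⟩, ⟨d, h3⟩⟩

theorem A1_one_notMem : (1 : ℂ) ∉ Lam := by
  have h : ¬ (3 : O) ∣ ((1 : ℤ) : O) + ((0 : ℤ) : O) * om := A1_not_dvd (by omega)
  intro h1
  apply h
  rw [← A1_mem_iff]
  simpa using h1

theorem A1_neg_mem {z : ℂ} (h : z ∈ Lam) : -z ∈ Lam := by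
  rw [← mem_LL] at h ⊢
  exact neg_mem h

theorem A1_add_mem {z w : ℂ} (h : z ∈ Lam) (h' : w ∈ Lam) : z + w ∈ Lam := by
  rw [← mem_LL] at h h' ⊢
  exact add_mem h h'

theorem A1_zero_mem : (0 : ℂ) ∈ Lam := by
  rw [← mem_LL]
  exact zero_mem _

theorem A1_two_notMem : (2 : ℂ) ∉ Lam := by
  intro h
  apply A1_one_notMem
  have h3 : (3 : ℂ) ∈ Lam := ⟨1, by rw [map_one, mul_one]⟩
  have := A1_add_mem h3 (A1_neg_mem h)
  have e1 : (3 : ℂ) + -2 = 1 := by norm_num
  rwa [e1] at this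

/-- The terms of the sum. -/
noncomputable def A1_tm (l w : ℂ) : ℂ := 2 / (((1 + l) ^ 2 - w ^ 2) * (1 + l))

/-- The sum without one term. -/
noncomputable def A1_Rex (l₀ w : ℂ) : ℂ := ∑' l : LL.lattice, if l.1 = l₀ then 0 else A1_tm l.1 w

theorem A1_bound (r : ℝ) (hr : 0 < r) (w : ℂ) (hw : ‖w‖ < r) (l : ℂ) (h : 2 * r + 2 ≤ ‖l‖) :
    ‖A1_tm l w‖ ≤ 16 * ‖l‖ ^ (-3 : ℝ) := by
  have hl : 0 < ‖l‖ := by linarith
  have h1 : ‖l‖ / 2 ≤ ‖1 + l‖ := by
    have := norm_sub_norm_le l (-1)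
    rw [norm_neg, norm_one] at this
    have e1 : l - -1 = 1 + l := by ring
    rw [e1] at this
    linarith
  have h2 : ‖l‖ / 2 ≤ ‖1 + l - w‖ := by
    have := norm_sub_norm_le l (-1 + w)
    have e1 : l - (-1 + w) = 1 + l - w := by ring
    rw [e1] at this
    have h3 : ‖-1 + w‖ ≤ 1 + ‖w‖ := by
      refine (norm_add_le _ _).trans ?_
      rw [norm_neg, norm_one]
    linarith
  have h2' : ‖l‖ / 2 ≤ ‖1 + l + w‖ := by
    have := norm_sub_norm_le l (-1 - w)
    have e1 : l - (-1 - w) = 1 + l + w := by ring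
    rw [e1] at this
    have h3 : ‖-1 - w‖ ≤ 1 + ‖w‖ := by
      refine (norm_sub_le _ _).trans ?_
      rw [norm_neg, norm_one]
    linarith
  unfold A1_tm
  have e2 : ((1 + l) ^ 2 - w ^ 2) * (1 + l) = (1 + l - w) * (1 + l + w) * (1 + l) := by ring
  rw [e2, norm_div, norm_mul, norm_mul]
  have h4 : (‖l‖ / 2) * (‖l‖ / 2) * (‖l‖ / 2) ≤ ‖1 + l - w‖ * ‖1 + l + w‖ * ‖1 + l‖ := by
    gcongr
  have h5 : (‖l‖ : ℝ) ^ (-3 : ℝ) = 1 / ‖l‖ ^ 3 := by
    rw [Real.rpow_neg hl.le]
    norm_num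
  rw [h5]
  have h6 : 0 < (‖l‖ / 2) * (‖l‖ / 2) * (‖l‖ / 2) := by positivity
  calc ‖(2 : ℂ)‖ / (‖1 + l - w‖ * ‖1 + l + w‖ * ‖1 + l‖)
      ≤ ‖(2 : ℂ)‖ / ((‖l‖ / 2) * (‖l‖ / 2) * (‖l‖ / 2)) := by gcongr
    _ = 16 * (1 / ‖l‖ ^ 3) := by
        rw [Complex.norm_ofNat]
        field_simp
        norm_num

theorem A1_hasSum (l₀ : ℂ) : HasSumLocallyUniformly
    (fun (l : LL.lattice) (w : ℂ) => if l.1 = l₀ then 0 else A1_tm l.1 w) (A1_Rex l₀) := by
  refine LL.hasSumLocallyUniformly_aux (u := fun _ => (16 * ‖·‖ ^ (-3 : ℝ))) _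
    (fun _ _ => (ZLattice.summable_norm_rpow _ _ (by simp; norm_num)).mul_left _) fun r hr =>
    Filter.eventually_atTop.mpr ⟨2 * r + 2, ?_⟩
  rintro _ h s hs l rfl
  split_ifs
  · rw [norm_zero]
    positivity
  · exact A1_bound r hr s hs l h

/-- The domain. -/
def A1_U (l₀ : ℂ) : Set ℂ :=
  {w | w - 1 ∈ ((LL.lattice : Set ℂ) \ {l₀})ᶜ ∧ -w - 1 ∈ ((LL.lattice : Set ℂ) \ {l₀})ᶜ}

theorem A1_U_open (l₀ : ℂ) : IsOpen (A1_U l₀) := by
  have h1 : IsOpen {w : ℂ | w - 1 ∈ ((LL.lattice : Set ℂ) \ {l₀})ᶜ} :=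
    LL.isOpen_compl_lattice_sdiff.preimage (by fun_prop)
  have h2 : IsOpen {w : ℂ | -w - 1 ∈ ((LL.lattice : Set ℂ) \ {l₀})ᶜ} :=
    LL.isOpen_compl_lattice_sdiff.preimage (by fun_prop)
  exact h1.inter h2

theorem A1_ne {l : ℂ} (hl : l ∈ LL.lattice) : 1 + l ≠ 0 := by
  intro h
  apply A1_one_notMem
  have : (1 : ℂ) = -l := by linear_combination h
  rw [this, ← mem_LL]
  exact neg_mem hl

theorem A1_analytic (l₀ : ℂ) : AnalyticOnNhd ℂ (A1_Rex l₀) (A1_U l₀) := by
  refine DifferentiableOn.analyticOnNhd ?_ (A1_U_open l₀)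
  refine (A1_hasSum l₀).hasSumLocallyUniformlyOn.differentiableOn
    (.of_forall fun s => .fun_sum fun i hi => ?_) (A1_U_open l₀)
  split_ifs with hl
  · exact differentiableOn_const 0
  · unfold A1_tm
    refine .div (by fun_prop) (by fun_prop) ?_
    intro w hw
    refine mul_ne_zero ?_ (A1_ne i.2)
    have e1 : (1 + (i : ℂ)) ^ 2 - w ^ 2 = (1 + i - w) * (1 + i + w) := by ring
    rw [e1]
    refine mul_ne_zero ?_ ?_
    · intro h
      apply hw.1
      have e2 : w - 1 = i := by linear_combination -h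
      rw [e2]
      exact ⟨i.2, hl⟩
    · intro h
      apply hw.2
      have e2 : -w - 1 = i := by linear_combination -h
      rw [e2]
      exact ⟨i.2, hl⟩

/-- The lattice as an image of O. -/
noncomputable def A1_equiv : O ≃ LL.lattice :=
  Equiv.ofBijective (fun x => ⟨3 * e x, (mem_LL _).2 ⟨x, rfl⟩⟩) (by
    constructor
    · intro x y h
      have h1 : 3 * e x = 3 * e y := congrArg Subtype.val h
      exact e_injective (mul_left_cancel₀ three_ne_zero h1)
    · intro l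
      obtain ⟨y, hy⟩ := (mem_LL _).1 l.2
      exact ⟨y, Subtype.ext hy.symm⟩)

theorem A1_R_eq {w : ℂ} (h1 : 1 + w ∉ Lam) (h2 : 1 - w ∉ Lam) :
    R w = w ^ 2 * ∑' l : LL.lattice, A1_tm l.1 w := by
  unfold R
  rw [← A1_equiv.tsum_eq, ← tsum_mul_left]
  congr 1
  funext x
  show (1 + w + 3 * e x)⁻¹ + (1 - w + 3 * e x)⁻¹ - 2 * (1 + 3 * e x)⁻¹ =
    w ^ 2 * (2 / (((1 + 3 * e x) ^ 2 - w ^ 2) * (1 + 3 * e x)))
  have n1 : 1 + w + 3 * e x ≠ 0 := by
    intro h
    apply h1
    exact ⟨-x, by rw [map_neg]; linear_combination h⟩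
  have n2 : 1 - w + 3 * e x ≠ 0 := by
    intro h
    apply h2
    exact ⟨-x, by rw [map_neg]; linear_combination h⟩
  have n3 : 1 + 3 * e x ≠ 0 := A1_ne ((mem_LL _).2 ⟨x, rfl⟩)
  have e1 : (1 + 3 * e x) ^ 2 - w ^ 2 = (1 + w + 3 * e x) * (1 - w + 3 * e x) := by ring
  rw [e1]
  field_simp
  ring

theorem A1_R_one {w : ℂ} (h1 : 1 + w ∉ Lam) (h2 : 1 - w ∉ Lam) : R w = w ^ 2 * A1_Rex 1 w := by
  rw [A1_R_eq h1 h2]
  congr 1
  unfold A1_Rex
  congr 1
  funext l
  rw [if_neg]
  intro h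
  apply A1_one_notMem
  rw [← h, ← mem_LL]
  exact l.2

theorem A1_Rex_add (w : ℂ) : ∑' l : LL.lattice, A1_tm l.1 w = A1_Rex 0 w + A1_tm 0 w := by
  classical
  have h0 : (∑' l : LL.lattice, if l = 0 then A1_tm 0 w else 0) = A1_tm 0 w := by
    rw [tsum_ite_eq]
  conv_rhs => rw [← h0]
  unfold A1_Rex
  rw [← Summable.tsum_add]
  · congr 1
    funext l
    by_cases hl : l.1 = 0
    · have hl' : l = 0 := Subtype.ext hl
      rw [if_pos hl, if_pos hl', zero_add, hl]
    · have hl' : l ≠ 0 := fun h => hl (by rw [h]; rfl)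
      rw [if_neg hl, if_neg hl', add_zero]
  · exact ⟨_, (A1_hasSum 0).hasSum⟩
  · exact summable_of_hasFiniteSupport ((Set.finite_singleton (0 : LL.lattice)).subset (by simp))

theorem A1_R_zero {w : ℂ} (h1 : 1 + w ∉ Lam) (h2 : 1 - w ∉ Lam) :
    R w = w ^ 2 * (A1_Rex 0 w + 2 / (1 - w ^ 2)) := by
  rw [A1_R_eq h1 h2, A1_Rex_add]
  congr 2
  unfold A1_tm
  rw [add_zero, one_pow, mul_one]

theorem A1_Rex_one_zero : A1_Rex 1 0 = -wpd 1 := by
  unfold A1_Rex wpd PeriodPair.derivWeierstrassP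
  rw [neg_neg, ← (Equiv.neg LL.lattice).tsum_eq]
  congr 1
  funext l
  have hl : l.1 ∈ LL.lattice := l.2
  rw [if_neg]
  · show A1_tm (-l.1) 0 = 2 / (1 - l.1) ^ 3
    unfold A1_tm
    congr 1
    ring
  · intro h
    apply A1_one_notMem
    have h' : -l.1 = 1 := h
    rw [← h', ← mem_LL]
    exact neg_mem hl

theorem A1_open : IsOpen (Lamᶜ : Set ℂ) := by
  have : (Lamᶜ : Set ℂ) = ((LL.lattice : Set ℂ))ᶜ := by
    ext z
    rw [Set.mem_compl_iff, Set.mem_compl_iff]
    exact not_congr (mem_LL z).symm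
  rw [this]
  exact LL.isClosed_lattice.isOpen_compl

theorem A1_discrete (z₀ : ℂ) : ∀ᶠ z in nhdsWithin z₀ {z₀}ᶜ, z ∉ Lam := by
  have h := LL.compl_lattice_sdiff_singleton_mem_nhds z₀
  rw [eventually_nhdsWithin_iff]
  filter_upwards [h] with z hz hne hz'
  exact hz ⟨(mem_LL z).2 hz', hne⟩

theorem A1_tendsto (f : ℂ → ℂ) (z₀ : ℂ) (hf : ContinuousAt f z₀) (hi : Function.Injective f) :
    Filter.Tendsto f (nhdsWithin z₀ {z₀}ᶜ) (nhdsWithin (f z₀) {f z₀}ᶜ) := by
  rw [tendsto_nhdsWithin_iff]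
  refine ⟨hf.tendsto.mono_left nhdsWithin_le_nhds, ?_⟩
  filter_upwards [self_mem_nhdsWithin] with z hz
  intro h
  exact hz (hi h)

theorem A1_ev (z₀ : ℂ) : ∀ᶠ z in nhdsWithin z₀ {z₀}ᶜ, 1 + z ∉ Lam ∧ 1 - z ∉ Lam := by
  have h1 := (A1_tendsto (fun z => 1 + z) z₀ (by fun_prop) (fun a b h => by
    have : 1 + a = 1 + b := h
    linear_combination this)).eventually (A1_discrete _)
  have h2 := (A1_tendsto (fun z => 1 - z) z₀ (by fun_prop) (fun a b h => by
    have : 1 - a = 1 - b := h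
    linear_combination -this)).eventually (A1_discrete _)
  filter_upwards [h1, h2] with z h3 h4 using ⟨h3, h4⟩

/-- The elliptic function. -/
noncomputable def A1_D (w : ℂ) : ℂ := R w * (wp 1 - wp w)

/-- Removable singularity. -/
def A1_Rem (z₀ : ℂ) : Prop := ∃ a : ℂ → ℂ, AnalyticAt ℂ a z₀ ∧
  ∀ᶠ z in nhdsWithin z₀ {z₀}ᶜ, A1_D z = a z

theorem A1_D_per (z : ℂ) (y : O) : A1_D (z + 3 * e y) = A1_D z := by
  unfold A1_D
  rw [R_per, wp_per]

theorem A1_D_neg (z : ℂ) : A1_D (-z) = A1_D z := by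
  unfold A1_D
  rw [R_neg, wp_neg]

theorem A1_Rem_per {z₀ : ℂ} (h : A1_Rem z₀) (y : O) : A1_Rem (z₀ + 3 * e y) := by
  obtain ⟨a, ha, h⟩ := h
  refine ⟨fun z => a (z - 3 * e y), ?_, ?_⟩
  · have : AnalyticAt ℂ a ((z₀ + 3 * e y) - 3 * e y) := by rw [add_sub_cancel_right]; exact ha
    exact this.comp (f := fun w : ℂ => w - 3 * e y) (by fun_prop)
  · have ht := A1_tendsto (fun z => z - 3 * e y) (z₀ + 3 * e y) (by fun_prop) (fun a b h => by
      have : a - 3 * e y = b - 3 * e y := h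
      linear_combination this)
    simp only [add_sub_cancel_right] at ht
    filter_upwards [ht.eventually h] with z h3
    rw [← h3, ← A1_D_per (z - 3 * e y) y, sub_add_cancel]

theorem A1_Rem_neg {z₀ : ℂ} (h : A1_Rem z₀) : A1_Rem (-z₀) := by
  obtain ⟨a, ha, h⟩ := h
  refine ⟨fun z => a (-z), ?_, ?_⟩
  · have : AnalyticAt ℂ a (-(-z₀)) := by rw [neg_neg]; exact ha
    exact this.comp (f := fun w : ℂ => -w) (by fun_prop)
  · have ht := A1_tendsto (fun z => -z) (-z₀) (by fun_prop) neg_injective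
    simp only [neg_neg] at ht
    filter_upwards [ht.eventually h] with z h3
    rw [← h3, A1_D_neg]

theorem A1_wp_analytic {z : ℂ} (hz : z ∉ Lam) : AnalyticAt ℂ wp z :=
  LL.analyticOnNhd_weierstrassP z (fun h => hz ((mem_LL z).1 h))

theorem A1_U_one {z : ℂ} (h1 : 1 + z ∉ Lam) (h2 : 1 - z ∉ Lam) : z ∈ A1_U 1 := by
  constructor
  · intro h
    apply h2
    have := A1_neg_mem ((mem_LL _).1 h.1)
    have e1 : -(z - 1) = 1 - z := by ring
    rwa [e1] at this
  · intro h
    apply h1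
    have := A1_neg_mem ((mem_LL _).1 h.1)
    have e1 : -(-z - 1) = 1 + z := by ring
    rwa [e1] at this

theorem A1_D_analytic {z : ℂ} (h0 : z ∉ Lam) (h1 : 1 + z ∉ Lam) (h2 : 1 - z ∉ Lam) :
    AnalyticAt ℂ A1_D z := by
  have a1 := A1_analytic 1 z (A1_U_one h1 h2)
  have a2 := A1_wp_analytic h0
  have a3 : AnalyticAt ℂ (fun w => w ^ 2 * A1_Rex 1 w * (wp 1 - wp w)) z := by fun_prop
  refine a3.congr ?_
  have o1 : ∀ᶠ w in nhds z, 1 + w ∉ Lam :=
    (A1_open.preimage (f := fun w : ℂ => 1 + w) (by fun_prop)).mem_nhds h1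
  have o2 : ∀ᶠ w in nhds z, 1 - w ∉ Lam :=
    (A1_open.preimage (f := fun w : ℂ => 1 - w) (by fun_prop)).mem_nhds h2
  filter_upwards [o1, o2] with w h3 h4
  unfold A1_D
  rw [A1_R_one h3 h4]

theorem A1_at_zero : ∃ a : ℂ → ℂ, AnalyticAt ℂ a 0 ∧ a 0 = wpd 1 ∧
    ∀ᶠ z in nhdsWithin (0 : ℂ) {0}ᶜ, A1_D z = a z := by
  obtain ⟨u, hu, hu0, hexp⟩ := wp_expansion
  have hU : (0 : ℂ) ∈ A1_U 1 := by
    apply A1_U_one
    · rw [add_zero]; exact A1_one_notMem
    · rw [sub_zero]; exact A1_one_notMem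
  have a1 := A1_analytic 1 0 hU
  refine ⟨fun w => A1_Rex 1 w * (w ^ 2 * wp 1 - 1 - w ^ 6 * u w), by fun_prop, ?_, ?_⟩
  · simp only
    rw [A1_Rex_one_zero]
    ring
  · filter_upwards [hexp, A1_ev 0, self_mem_nhdsWithin] with w h1 h2 hw
    have hw' : w ≠ 0 := hw
    unfold A1_D
    rw [A1_R_one h2.1 h2.2, h1]
    field_simp
    ring

theorem A1_at_one : A1_Rem 1 := by
  have hU : (1 : ℂ) ∈ A1_U 0 := by
    constructor
    · intro h
      apply h.2
      rw [sub_self]
      rfl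
    · intro h
      apply A1_two_notMem
      have := A1_neg_mem ((mem_LL _).1 h.1)
      have e1 : -(-(1 : ℂ) - 1) = 2 := by norm_num
      rwa [e1] at this
  have a1 := A1_analytic 0 1 hU
  have a2 := A1_wp_analytic A1_one_notMem
  have a3 : AnalyticAt ℂ (dslope wp 1) 1 := by
    obtain ⟨p, hp⟩ := a2
    exact ⟨_, hp.has_fpower_series_dslope_fslope⟩
  have a4 : AnalyticAt ℂ (fun w : ℂ => 2 * w ^ 2 / (1 + w)) 1 :=
    AnalyticAt.div (by fun_prop) (by fun_prop) (by norm_num)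
  obtain ⟨q, hq⟩ : ∃ q : ℂ → ℂ, q = fun w : ℂ => 2 * w ^ 2 / (1 + w) := ⟨_, rfl⟩
  rw [← hq] at a4
  refine ⟨fun w => w ^ 2 * A1_Rex 0 w * (wp 1 - wp w) + q w * dslope wp 1 w, by fun_prop, ?_⟩
  filter_upwards [A1_ev 1, self_mem_nhdsWithin] with w h2 hw
  have hw' : w ≠ 1 := hw
  have hw1 : 1 - w ≠ 0 := sub_ne_zero.2 hw'.symm
  have hw1' : w - 1 ≠ 0 := sub_ne_zero.2 hw'
  have hw2 : 1 + w ≠ 0 := by
    intro h
    apply h2.1
    rw [h]
    exact A1_zero_mem
  unfold A1_D
  rw [A1_R_zero h2.1 h2.2, hq, dslope_of_ne _ hw', slope_def_field]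
  have e1 : 1 - w ^ 2 = (1 - w) * (1 + w) := by ring
  rw [e1]
  field_simp
  ring

theorem A1_all (z₀ : ℂ) : A1_Rem z₀ := by
  by_cases c0 : z₀ ∈ Lam
  · obtain ⟨y, hy⟩ := c0
    obtain ⟨a, ha, -, h⟩ := A1_at_zero
    have h0 : A1_Rem 0 := ⟨a, ha, h⟩
    have := A1_Rem_per h0 y
    rwa [zero_add, ← hy] at this
  · by_cases c1 : 1 + z₀ ∈ Lam
    · obtain ⟨y, hy⟩ := c1
      have h1 := A1_Rem_per (A1_Rem_neg A1_at_one) y
      have e1 : -1 + 3 * e y = z₀ := by linear_combination -hy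
      rwa [e1] at h1
    · by_cases c2 : 1 - z₀ ∈ Lam
      · obtain ⟨y, hy⟩ := c2
        have h1 := A1_Rem_per A1_at_one (-y)
        have e1 : 1 + 3 * e (-y) = z₀ := by rw [map_neg]; linear_combination hy
        rwa [e1] at h1
      · exact ⟨A1_D, A1_D_analytic c0 c1 c2, Filter.Eventually.of_forall fun z => rfl⟩

theorem R_identity (w : ℂ) (h0 : w ∉ Lam) (h1 : 1 + w ∉ Lam) (h2 : 1 - w ∉ Lam) :
    R w * (wp 1 - wp w) = wpd 1 := by
  obtain ⟨c, hc⟩ := A0_liouville A1_D A1_D_per A1_all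
  obtain ⟨a, ha, ha0, h⟩ := A1_at_zero
  have e1 := hc 0 a ha.continuousAt h
  have e2 : A1_D w = c := hc w A1_D (A1_D_analytic h0 h1 h2).continuousAt
    (Filter.Eventually.of_forall fun z => rfl)
  show A1_D w = wpd 1
  rw [e2, ← e1, ha0]

/-- R has a pole at 1: it is unbounded near 1 (used to see wp' 1 <> 0). -/
theorem R_unbounded : ∀ M : ℝ, ∃ w : ℂ, w ∉ Lam ∧ 1 + w ∉ Lam ∧ 1 - w ∉ Lam ∧ M < ‖R w‖ := by
  intro M
  by_contra hcon
  push Not at hcon
  have hU : (1 : ℂ) ∈ A1_U 0 := by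
    constructor
    · intro h
      apply h.2
      rw [sub_self]
      rfl
    · intro h
      apply A1_two_notMem
      have := A1_neg_mem ((mem_LL _).1 h.1)
      have e1 : -(-(1 : ℂ) - 1) = 2 := by norm_num
      rwa [e1] at this
  have a1 := (A1_analytic 0 1 hU).continuousAt
  have c1 : ContinuousAt (fun w : ℂ => w ^ 2 * ((1 - w ^ 2) * A1_Rex 0 w + 2)) 1 := by fun_prop
  have t1 : Filter.Tendsto (fun w : ℂ => w ^ 2 * ((1 - w ^ 2) * A1_Rex 0 w + 2))
      (nhdsWithin (1 : ℂ) {1}ᶜ) (nhds 2) := by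
    have := c1.tendsto
    norm_num at this
    exact this.mono_left nhdsWithin_le_nhds
  have c2 : ContinuousAt (fun w : ℂ => ‖1 - w ^ 2‖ * M) 1 := by fun_prop
  have t2 : Filter.Tendsto (fun w : ℂ => ‖1 - w ^ 2‖ * M)
      (nhdsWithin (1 : ℂ) {1}ᶜ) (nhds 0) := by
    have := c2.tendsto
    norm_num at this
    exact this.mono_left nhdsWithin_le_nhds
  have hev : ∀ᶠ w in nhdsWithin (1 : ℂ) {1}ᶜ,
      ‖w ^ 2 * ((1 - w ^ 2) * A1_Rex 0 w + 2)‖ ≤ ‖1 - w ^ 2‖ * M := by
    filter_upwards [A1_ev 1, A1_discrete 1, self_mem_nhdsWithin] with w h2 h3 hw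
    have hw' : w ≠ 1 := hw
    have hw1 : 1 - w ≠ 0 := sub_ne_zero.2 hw'.symm
    have hw2 : 1 + w ≠ 0 := by
      intro h
      apply h2.1
      rw [h]
      exact A1_zero_mem
    have hw3 : 1 - w ^ 2 ≠ 0 := by
      have e1 : 1 - w ^ 2 = (1 - w) * (1 + w) := by ring
      rw [e1]
      exact mul_ne_zero hw1 hw2
    have h4 := hcon w h3 h2.1 h2.2
    have e2 : w ^ 2 * ((1 - w ^ 2) * A1_Rex 0 w + 2) = (1 - w ^ 2) * R w := by
      rw [A1_R_zero h2.1 h2.2]
      field_simp
    rw [e2, norm_mul]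
    gcongr
  have hle := le_of_tendsto_of_tendsto t1.norm t2 hev
  rw [Complex.norm_ofNat] at hle
  norm_num at hle

end H55B
end

-- from Lib.H55B.A3
section

open NumberField IsDedekindDomain

namespace H55B

/-! Chunk A3: the function X = 3 wp(w)/wp(1).
wp' 1 <> 0: otherwise D = 0 in R_identity, R = 0 wherever wp w <> wp 1; with R_unbounded and R_identity:
R w (wp 1 - wp w) = 0 and R w large forces wp w = wp 1; use instead wp' (1)^2 = 4 wp(1)^3 - g_3 and:
if wp'(1) = 0 then wp(1)^3 = g_3/4, and wp_double at z = 1 (2 = -1 + 3, wp 2 = wp 1) gives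
0 = wp(1)^4 + 2 g_3 wp(1) = 9 wp(1)^4, so wp(1) = 0 and g_3 = 0, then wp'^2 = 4 wp^3 everywhere and at
e om - 1 ... simplest: R_identity at w = e om - 1 (1 + w = e om, 1 - w = 2 - e om are not in 3O) reads
R(e om - 1) wp 1 = wp' 1 because wp (e om - 1) = 0. If wp 1 = 0 then wp' 1 = 0, and then
R w wp w = 0 for all w, so R w = 0 or wp w = 0 for all regular w; at a point near 1 with R w large,
wp w = 0 for all w in a punctured neighbourhood of 1 where R does not vanish, contradiction with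
wp nonconstant (identity theorem, pole at 0). Now wp_double at 1: x (4 x^3 - g_3) = x^4 + 2 g_3 x with
x = wp 1 <> 0 gives x^3 = g_3, wp'(1)^2 = 3 x^3 <> 0. X_double is then wp_double divided by x^4/81,
R w = wp'(1)/(wp 1 - wp w) = R0 * 3/(3 - X w) with R0 = R(e om - 1) = wp'(1)/wp(1). -/

theorem A3_n1 : e om - 1 ∉ Lam := by
  have h : ¬ (3 : O) ∣ ((-1 : ℤ) : O) + ((1 : ℤ) : O) * om := A1_not_dvd (by omega)
  intro h1
  apply h
  rw [← A1_mem_iff]
  have : e (((-1 : ℤ) : O) + ((1 : ℤ) : O) * om) = e om - 1 := by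
    rw [map_add, map_mul, map_intCast, map_intCast]
    push_cast
    ring
  rwa [this]

theorem A3_n2 : 1 + (e om - 1) ∉ Lam := by
  have h : ¬ (3 : O) ∣ ((0 : ℤ) : O) + ((1 : ℤ) : O) * om := A1_not_dvd (by omega)
  intro h1
  apply h
  rw [← A1_mem_iff]
  have : e (((0 : ℤ) : O) + ((1 : ℤ) : O) * om) = 1 + (e om - 1) := by
    rw [map_add, map_mul, map_intCast, map_intCast]
    push_cast
    ring
  rwa [this]

theorem A3_n3 : 1 - (e om - 1) ∉ Lam := by
  have h : ¬ (3 : O) ∣ ((2 : ℤ) : O) + ((-1 : ℤ) : O) * om := A1_not_dvd (by omega)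
  intro h1
  apply h
  rw [← A1_mem_iff]
  have : e (((2 : ℤ) : O) + ((-1 : ℤ) : O) * om) = 1 - (e om - 1) := by
    rw [map_add, map_mul, map_intCast, map_intCast]
    push_cast
    ring
  rwa [this]

theorem A3_conn : IsPreconnected (Lamᶜ : Set ℂ) := by
  have hc : (Lam : Set ℂ).Countable := by
    have : (Lam : Set ℂ) = Set.range (fun l : LL.lattice => (l : ℂ)) := by
      ext z
      rw [← mem_LL]
      simp
    rw [this]
    exact Set.countable_range _
  have h := Set.Countable.isConnected_compl_of_one_lt_rank (E := ℂ) (by simp) hc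
  exact h.isPreconnected

theorem A3_wp_ne : ∃ z, z ∉ Lam ∧ wp z ≠ 0 := by
  obtain ⟨u, hu, hu0, hexp⟩ := wp_expansion
  have c1 : ContinuousAt (fun z : ℂ => 1 + z ^ 6 * u z) 0 := by
    have := hu.continuousAt
    fun_prop
  have h1 : (fun z : ℂ => 1 + z ^ 6 * u z) 0 ≠ 0 := by norm_num
  have h2 : ∀ᶠ z in nhdsWithin (0 : ℂ) {0}ᶜ, 1 + z ^ 6 * u z ≠ 0 :=
    (c1.eventually_ne h1).filter_mono nhdsWithin_le_nhds
  obtain ⟨z, h3, h4, h5, h6⟩ :=
    (hexp.and (h2.and ((A1_discrete 0).and self_mem_nhdsWithin))).exists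
  have h6' : z ≠ 0 := h6
  refine ⟨z, h5, ?_⟩
  rw [h3]
  intro h
  apply h4
  have : z ^ 2 * ((z ^ 2)⁻¹ + z ^ 4 * u z) = 1 + z ^ 6 * u z := by
    field_simp
  rw [← this, h, mul_zero]

theorem A3_wp_one_ne : wp 1 ≠ 0 := by
  intro h0
  have h1 := R_identity (e om - 1) A3_n1 A3_n2 A3_n3
  rw [wp_zero_at, h0, sub_zero, mul_zero] at h1
  obtain ⟨w, hw0, hw1, hw2, hw⟩ := R_unbounded 0
  have hR : R w ≠ 0 := norm_pos_iff.1 hw
  have o1 : ∀ᶠ v in nhds w, 1 + v ∉ Lam :=
    (A1_open.preimage (f := fun w : ℂ => 1 + w) (by fun_prop)).mem_nhds hw1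
  have o2 : ∀ᶠ v in nhds w, 1 - v ∉ Lam :=
    (A1_open.preimage (f := fun w : ℂ => 1 - w) (by fun_prop)).mem_nhds hw2
  have o3 : ∀ᶠ v in nhds w, v ∉ Lam := A1_open.mem_nhds hw0
  have a1 := A1_analytic 1 w (A1_U_one hw1 hw2)
  have a2 : ContinuousAt (fun v => v ^ 2 * A1_Rex 1 v) w := by
    have := a1.continuousAt
    fun_prop
  have a3 : (fun v => v ^ 2 * A1_Rex 1 v) w ≠ 0 := by
    show w ^ 2 * A1_Rex 1 w ≠ 0
    rw [← A1_R_one hw1 hw2]
    exact hR
  have o4 := a2.eventually_ne a3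
  have hz : wp =ᶠ[nhds w] 0 := by
    filter_upwards [o1, o2, o3, o4] with v h2 h3 h4 h5
    have h6 := R_identity v h4 h2 h3
    rw [← h1, h0, zero_sub] at h6
    rw [← A1_R_one h2 h3] at h5
    rcases mul_eq_zero.1 h6 with h | h
    · exact absurd h h5
    · exact neg_eq_zero.1 h
  have hA : AnalyticOnNhd ℂ wp (Lamᶜ : Set ℂ) := fun z hz => A1_wp_analytic hz
  have hall := hA.eqOn_zero_of_preconnected_of_eventuallyEq_zero A3_conn (z₀ := w) hw0 hz
  obtain ⟨z, hz1, hz2⟩ := A3_wp_ne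
  exact hz2 (hall hz1)

theorem A3_g3 : LL.g₃ = wp 1 ^ 3 := by
  have h1 := wp_double 1 A1_one_notMem (by rw [mul_one]; exact A1_two_notMem)
  have h2 : wp (2 * 1) = wp 1 := by
    have := wp_per (-1) 1
    rw [map_one, wp_neg] at this
    rw [← this]
    congr 1
    norm_num
  rw [h2] at h1
  have h3 := A3_wp_one_ne
  have h4 : 3 * wp 1 * (wp 1 ^ 3 - LL.g₃) = 0 := by linear_combination h1
  rcases mul_eq_zero.1 h4 with h | h
  · exact absurd h (mul_ne_zero three_ne_zero h3)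
  · linear_combination -h

theorem A3_wpd_ne : wpd 1 ≠ 0 := by
  intro h
  have h1 := wp_ode 1 A1_one_notMem
  rw [h, A3_g3] at h1
  have h2 : 3 * wp 1 ^ 3 = 0 := by linear_combination -h1
  exact mul_ne_zero three_ne_zero (pow_ne_zero 3 A3_wp_one_ne) h2

theorem exists_X : ∃ X : ℂ → ℂ, R (e om - 1) ≠ 0 ∧
    (∀ (w : ℂ) (y : O), X (w + 3 * e y) = X w) ∧
    (∀ w, w ∉ Lam → 1 + w ∉ Lam → 1 - w ∉ Lam →
      X w ≠ 3 ∧ R w = R (e om - 1) * (3 / (3 - X w))) ∧
    (∀ w, w ∉ Lam → 2 * w ∉ Lam →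
      X (2 * w) * (4 * X w ^ 3 - 27) = X w ^ 4 + 54 * X w) := by
  have hx := A3_wp_one_ne
  have hd := A3_wpd_ne
  have hR0 : R (e om - 1) * wp 1 = wpd 1 := by
    have h1 := R_identity (e om - 1) A3_n1 A3_n2 A3_n3
    rwa [wp_zero_at, sub_zero] at h1
  refine ⟨fun w => 3 * wp w / wp 1, ?_, ?_, ?_, ?_⟩
  · intro h
    rw [h, zero_mul] at hR0
    exact hd hR0.symm
  · intro w y
    simp only
    rw [wp_per]
  · intro w h0 h1 h2
    have h3 := R_identity w h0 h1 h2
    have h4 : wp 1 - wp w ≠ 0 := by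
      intro h
      rw [h, mul_zero] at h3
      exact hd h3.symm
    have h5 : 3 - 3 * wp w / wp 1 ≠ 0 := by
      intro h
      apply h4
      have : wp 1 * (3 - 3 * wp w / wp 1) = 3 * (wp 1 - wp w) := by field_simp
      rw [h, mul_zero] at this
      rcases mul_eq_zero.1 this.symm with h | h
      · exact absurd h three_ne_zero
      · exact h
    refine ⟨fun h => h5 (by simp only at h; rw [h, sub_self]), ?_⟩
    simp only
    have h6 : R w = wpd 1 / (wp 1 - wp w) := by rw [← h3]; field_simp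
    have h7 : (3 : ℂ) / (3 - 3 * wp w / wp 1) = wp 1 / (wp 1 - wp w) := by
      rw [div_eq_div_iff h5 h4]
      field_simp
    rw [h6, h7, ← hR0]
    ring
  · intro w h1 h2
    simp only
    have h3 := wp_double w h1 h2
    rw [A3_g3] at h3
    have h4 : wp (2 * w) * (4 * wp w ^ 3 - wp 1 ^ 3) * 81 / wp 1 ^ 4 =
      (wp w ^ 4 + 2 * wp 1 ^ 3 * wp w) * 81 / wp 1 ^ 4 := by rw [h3]
    have e1 : 3 * wp (2 * w) / wp 1 * (4 * (3 * wp w / wp 1) ^ 3 - 27) =
      wp (2 * w) * (4 * wp w ^ 3 - wp 1 ^ 3) * 81 / wp 1 ^ 4 := by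
      field_simp
      ring
    have e2 : (3 * wp w / wp 1) ^ 4 + 54 * (3 * wp w / wp 1) =
      (wp w ^ 4 + 2 * wp 1 ^ 3 * wp w) * 81 / wp 1 ^ 4 := by
      field_simp
      ring
    rw [e1, e2, h4]

end H55B
end

-- from Lib.H28G.CDefs
section

/-! # H28G: the complex uniformisation (definitions)

The lattice is Lam = 3 O (H55B), wp, wpd its Weierstrass functions, wpd^2 = 4 wp^3 - (wp 1)^3. With kap^2 = - wp 1:
xz = wp / kap^2, fz = wpd / kap^3, yz = (fz - 1)/2 satisfy yz^2 + yz = xz^3, and Phi z = (xz z, yz z). The sign of kap is chosen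
such that Phi 1 = (-1, om). -/

open NumberField IsDedekindDomain WeierstrassCurve

namespace H28G

open H55B

/-- The complex numbers as an algebra over F. -/
noncomputable instance algC : Algebra F ℂ := emb.toAlgebra

theorem algC_e (x : O) : algebraMap F ℂ (x : F) = e x := rfl

theorem ok_C : ok ℂ = e om := rfl

theorem exists_kap : ∃ κ : ℂ, κ ^ 2 = -wp 1 ∧ wpd 1 = κ ^ 3 * (2 * e om + 1) := by
  obtain ⟨κ, hκ⟩ := IsAlgClosed.exists_pow_nat_eq (-wp 1) (n := 2) (by norm_num)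
  have h1 : (wpd 1) ^ 2 = (κ ^ 3 * (2 * e om + 1)) ^ 2 := by
    rw [wp_ode 1 A1_one_notMem, A3_g3]
    have h2 : κ ^ 6 = -(wp 1) ^ 3 := by
      have : κ ^ 6 = (κ ^ 2) ^ 3 := by ring
      rw [this, hκ]
      ring
    have h3 : (2 * e om + 1) ^ 2 = -3 := by linear_combination 4 * e_om_rel
    have h4 : (κ ^ 3 * (2 * e om + 1)) ^ 2 = κ ^ 6 * (2 * e om + 1) ^ 2 := by ring
    rw [h4, h2, h3]
    ring
  rcases sq_eq_sq_iff_eq_or_eq_neg.1 h1 with h | h
  · exact ⟨κ, hκ, h⟩
  · refine ⟨-κ, by rw [neg_sq, hκ], ?_⟩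
    rw [h]
    ring

/-- The scaling factor. -/
noncomputable def kap : ℂ := exists_kap.choose

theorem kap_sq : kap ^ 2 = -wp 1 := exists_kap.choose_spec.1

theorem wpd_one : wpd 1 = kap ^ 3 * (2 * e om + 1) := exists_kap.choose_spec.2

theorem kap_ne : kap ≠ 0 := by
  intro h
  have h1 := kap_sq
  rw [h] at h1
  exact A3_wp_one_ne (by linear_combination h1)

theorem kap_six : kap ^ 6 = -LL.g₃ := by
  rw [A3_g3]
  have : kap ^ 6 = (kap ^ 2) ^ 3 := by ring
  rw [this, kap_sq]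
  ring

/-- The x-coordinate as a function of z. -/
noncomputable def xz (z : ℂ) : ℂ := wp z / kap ^ 2

/-- The function f as a function of z. -/
noncomputable def fz (z : ℂ) : ℂ := wpd z / kap ^ 3

/-- The y-coordinate as a function of z. -/
noncomputable def yz (z : ℂ) : ℂ := (fz z - 1) / 2

theorem fz_eq (z : ℂ) : fz z = 2 * yz z + 1 := by
  unfold yz
  ring

theorem fz_sq {z : ℂ} (hz : z ∉ Lam) : fz z ^ 2 = 4 * xz z ^ 3 + 1 := by
  have h := wp_ode z hz
  have hk := kap_ne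
  unfold fz xz
  rw [div_pow, div_pow, ← pow_mul, ← pow_mul, h]
  have h6 := kap_six
  field_simp
  linear_combination -h6

theorem yz_eqn {z : ℂ} (hz : z ∉ Lam) : yz z ^ 2 + yz z = xz z ^ 3 := by
  have h := fz_sq hz
  rw [fz_eq] at h
  linear_combination h / 4

open Classical in
/-- The uniformisation. -/
noncomputable def Phi (z : ℂ) : P27 ℂ := if h : z ∈ Lam then 0 else pt (xz z) (yz z) (yz_eqn h)

theorem Phi_of_mem {z : ℂ} (h : z ∈ Lam) : Phi z = 0 := dif_pos h

theorem Phi_of {z : ℂ} (h : z ∉ Lam) : Phi z = pt (xz z) (yz z) (yz_eqn h) := dif_neg h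

theorem Phi_eq_zero {z : ℂ} : Phi z = 0 ↔ z ∈ Lam := by
  constructor
  · intro h
    by_contra h1
    rw [Phi_of h1] at h
    exact pt_ne _ _ _ h
  · exact Phi_of_mem

theorem xc_Phi {z : ℂ} (h : z ∉ Lam) : xc (Phi z) = xz z := by
  rw [Phi_of h]
  rfl

theorem yc_Phi {z : ℂ} (h : z ∉ Lam) : yc (Phi z) = yz z := by
  rw [Phi_of h]
  rfl

theorem fc_Phi {z : ℂ} (h : z ∉ Lam) : fc (Phi z) = fz z := by
  unfold fc
  rw [yc_Phi h, fz_eq]

theorem xz_per (z : ℂ) (y : O) : xz (z + 3 * e y) = xz z := by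
  unfold xz
  rw [wp_per]

theorem fz_per (z : ℂ) (y : O) : fz (z + 3 * e y) = fz z := by
  unfold fz
  rw [A0_wpd_per]

theorem yz_per (z : ℂ) (y : O) : yz (z + 3 * e y) = yz z := by
  unfold yz
  rw [fz_per]

theorem Lam_per {z : ℂ} (y : O) : z + 3 * e y ∈ Lam ↔ z ∈ Lam := by
  have h3 : 3 * e y ∈ Lam := ⟨y, rfl⟩
  constructor
  · intro h
    have := A1_add_mem h (A1_neg_mem h3)
    rwa [add_neg_cancel_right] at this
  · exact fun h => A1_add_mem h h3

theorem Phi_per (z : ℂ) (y : O) : Phi (z + 3 * e y) = Phi z := by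
  by_cases h : z ∈ Lam
  · rw [Phi_of_mem h, Phi_of_mem ((Lam_per y).2 h)]
  · have h' : z + 3 * e y ∉ Lam := fun h1 => h ((Lam_per y).1 h1)
    rw [Phi_of h, Phi_of h']
    exact pt_ext (pt_ne _ _ _) (pt_ne _ _ _) (xz_per z y) (yz_per z y)

theorem neg_mem_iff {z : ℂ} : -z ∈ Lam ↔ z ∈ Lam := by
  constructor
  · intro h
    have := A1_neg_mem h
    rwa [neg_neg] at this
  · exact A1_neg_mem

theorem Phi_neg (z : ℂ) : Phi (-z) = -Phi z := by
  by_cases h : z ∈ Lam
  · rw [Phi_of_mem h, Phi_of_mem (neg_mem_iff.2 h)]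
    rfl
  · have h' : -z ∉ Lam := fun h1 => h (neg_mem_iff.1 h1)
    have hne : Phi z ≠ 0 := fun h0 => h (Phi_eq_zero.1 h0)
    refine pt_ext (fun h0 => h' (Phi_eq_zero.1 h0)) (neg_ne hne) ?_ ?_
    · rw [xc_neg, xc_Phi h, xc_Phi h']
      unfold xz
      rw [wp_neg]
    · rw [yc_neg hne, yc_Phi h, yc_Phi h']
      unfold yz fz
      rw [A0_wpd_neg]
      ring

theorem om_mem_iff {z : ℂ} : e om * z ∈ Lam ↔ z ∈ Lam := by
  constructor
  · intro h
    rw [← mem_LL] at h ⊢
    have := A0_mem_om (A0_mem_om h)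
    have h1 : e om * (e om * (e om * z)) = z := by linear_combination z * A0_om_cube
    rwa [h1] at this
  · intro h
    rw [← mem_LL] at h ⊢
    exact A0_mem_om h

theorem Phi_om (z : ℂ) : Phi (e om * z) = omP (Phi z) := by
  by_cases h : z ∈ Lam
  · rw [Phi_of_mem h, Phi_of_mem (om_mem_iff.2 h), map_zero]
  · have h' : e om * z ∉ Lam := fun h1 => h (om_mem_iff.1 h1)
    have hne : Phi z ≠ 0 := fun h0 => h (Phi_eq_zero.1 h0)
    refine pt_ext (fun h0 => h' (Phi_eq_zero.1 h0)) (omF_ne hne) ?_ ?_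
    · rw [xc_omP, xc_Phi h, xc_Phi h', ok_C]
      unfold xz
      rw [wp_om]
      ring
    · rw [yc_omP, yc_Phi h, yc_Phi h']
      unfold yz fz
      rw [A0_wpd_om]

theorem xz_one : xz 1 = -1 := by
  have h := kap_sq
  have hk := kap_ne
  unfold xz
  rw [div_eq_iff (pow_ne_zero 2 hk)]
  linear_combination h

theorem yz_one : yz 1 = e om := by
  have hk := kap_ne
  unfold yz fz
  rw [wpd_one, mul_div_cancel_left₀ _ (pow_ne_zero 3 hk)]
  ring

end H28G
end

-- from Lib.H28G.GA4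
section

open NumberField IsDedekindDomain WeierstrassCurve

namespace H28G

open H55B

/-! Chunk GA4 (M): Phi is surjective. P = 0: Phi 0 (0 in Lam). P = (x, y): first some z not in Lam with wp z = c, c = kap^2 x. Otherwise D(z) = if z in Lam then 0 else
(wp z - c)^(-1) is Lam-periodic, analytic off Lam, and tends to 0 at the points of Lam (near 0: (wp z - c)^(-1) = z^2/(1 + z^6 u - c z^2)), so A0_liouville gives a constant,
equal to its value 0 at 0; but D(z) <> 0 for z not in Lam: contradiction. Then xz z = x and yz z^2 + yz z = x^3 = y^2 + y, so yz z = y or yz z = -1 - y; in the second case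
take -z (Phi_neg, xc_eq). -/

/-- The Weierstrass function takes every value. -/
theorem GA4_exists (c : ℂ) : ∃ z, z ∉ Lam ∧ wp z = c := by
  classical
  by_contra hcon
  push Not at hcon
  set D : ℂ → ℂ := fun z => if z ∈ Lam then 0 else (wp z - c)⁻¹ with hD
  have hper : ∀ z (y : O), D (z + 3 * e y) = D z := by
    intro z y
    simp only [hD]
    by_cases h : z ∈ Lam
    · rw [if_pos h, if_pos ((Lam_per y).2 h)]
    · rw [if_neg h, if_neg (fun h1 => h ((Lam_per y).1 h1)), wp_per]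
  obtain ⟨u, hu, -, hu2⟩ := wp_expansion
  set a0 : ℂ → ℂ := fun z => z ^ 2 / (1 + z ^ 6 * u z - c * z ^ 2) with ha0
  have ha0A : AnalyticAt ℂ a0 0 := by
    have hz : AnalyticAt ℂ (fun z : ℂ => z) 0 := analyticAt_id
    refine (hz.pow 2).div ((analyticAt_const.add ((hz.pow 6).mul hu)).sub
      (analyticAt_const.mul (hz.pow 2))) ?_
    simp
  have hloc0 : ∀ᶠ z in nhdsWithin (0 : ℂ) {0}ᶜ, D z = a0 z := by
    filter_upwards [hu2, A1_discrete 0, self_mem_nhdsWithin] with z h1 h2 h3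
    have hz : z ≠ 0 := h3
    simp only [hD, ha0]
    rw [if_neg h2, h1]
    have e1 : (z ^ 2)⁻¹ + z ^ 4 * u z - c = (1 + z ^ 6 * u z - c * z ^ 2) / z ^ 2 := by
      field_simp
    rw [e1, inv_div]
  have hloc : ∀ z₀, ∃ a : ℂ → ℂ, AnalyticAt ℂ a z₀ ∧ ∀ᶠ z in nhdsWithin z₀ {z₀}ᶜ, D z = a z := by
    intro z₀
    by_cases h : z₀ ∈ Lam
    · obtain ⟨y, hy⟩ := h
      refine ⟨fun z => a0 (z - z₀), ?_, ?_⟩
      · have h1 : AnalyticAt ℂ (fun z : ℂ => z - z₀) z₀ := analyticAt_id.sub analyticAt_const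
        have h2 : AnalyticAt ℂ a0 (z₀ - z₀) := by rwa [sub_self]
        exact AnalyticAt.fun_comp (f := fun z : ℂ => z - z₀) h2 h1
      · have ht := A1_tendsto (fun z : ℂ => z - z₀) z₀ (by fun_prop) (fun x y h => by
          simpa using h)
        have h4 : ∀ᶠ z in nhdsWithin (z₀ - z₀) {z₀ - z₀}ᶜ, D z = a0 z := by
          rw [sub_self]
          exact hloc0
        filter_upwards [ht.eventually h4] with z hz
        rw [← hz, ← hper (z - z₀) y]
        congr 1
        rw [← hy, sub_add_cancel]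
    · refine ⟨fun z => (wp z - c)⁻¹, ?_, ?_⟩
      · exact ((A1_wp_analytic h).sub analyticAt_const).inv (sub_ne_zero.2 (hcon z₀ h))
      · filter_upwards [A1_discrete z₀] with z hz
        simp only [hD]
        rw [if_neg hz]
  obtain ⟨c0, hc0⟩ := A0_liouville D hper hloc
  have h1 : a0 0 = c0 := hc0 0 a0 ha0A.continuousAt hloc0
  have h2 : (wp 1 - c)⁻¹ = c0 := by
    refine hc0 1 (fun z => (wp z - c)⁻¹) ?_ ?_
    · exact (((A1_wp_analytic A1_one_notMem).sub analyticAt_const).inv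
        (sub_ne_zero.2 (hcon 1 A1_one_notMem))).continuousAt
    · filter_upwards [A1_discrete 1] with z hz
      simp only [hD]
      rw [if_neg hz]
  have h3 : a0 0 = 0 := by
    simp [ha0]
  rw [h3] at h1
  rw [← h1] at h2
  exact inv_ne_zero (sub_ne_zero.2 (hcon 1 A1_one_notMem)) h2

theorem Phi_surj : Function.Surjective Phi := by
  intro P
  by_cases hP : P = 0
  · exact ⟨0, by rw [Phi_of_mem A1_zero_mem, hP]⟩
  obtain ⟨z, hz, hw⟩ := GA4_exists (kap ^ 2 * xc P)
  have hne : Phi z ≠ 0 := fun h0 => hz (Phi_eq_zero.1 h0)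
  have hx : xc (Phi z) = xc P := by
    rw [xc_Phi hz, xz, hw, mul_div_cancel_left₀ _ (pow_ne_zero 2 kap_ne)]
  rcases xc_eq hne hP hx with h | h
  · exact ⟨z, h⟩
  · refine ⟨-z, ?_⟩
    rw [Phi_neg, h, neg_neg]

end H28G
end

-- from Lib.H28G.GA0
section

open NumberField IsDedekindDomain WeierstrassCurve

namespace H28G

open H55B

/-! Chunk GA0 (S/M): derivatives and the expansion of wp' at 0.
wp_hasDeriv: Mathlib has PeriodPair.eqOn_deriv_weierstrassPExcept_derivWeierstrassPExcept (deriv of weierstrassPExcept l0 is derivWeierstrassPExcept l0 on the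
complement of lattice minus l0), weierstrassPExcept_of_notMem and derivWeierstrassPExcept_of_notMem (l0 not in the lattice: equal to weierstrassP,
derivWeierstrassP); take any l0 not in the lattice (for example l0 = z); differentiability from analyticOnNhd_weierstrassP (A2_wp_analytic).
wpd_hasDeriv: differentiate wp_ode (Lam is closed, so wp_ode holds near z): 2 wpd wpd' = 12 wp^2 wpd, so wpd' = 6 wp^2 where wpd <> 0; wpd is analytic and not
locally zero (otherwise wp would be constant near z, hence constant on the preconnected set Lam complement (A3_conn) by the identity theorem, but wp is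
unbounded near 0 by wp_expansion), so the analytic functions deriv wpd and 6 wp^2 agree on a punctured neighbourhood of z and by continuity at z.
wpd_expansion: differentiate wp_expansion near 0: wp = z^(-2) + z^4 u for 0 < |z| < r, so wpd = -2 z^(-3) + 4 z^3 u + z^4 u' = -2 z^(-3) + z^3 (4 u + z u').
wp_nonconst: for z0 not in Lam and every c, wp z <> c for all z near z0, z <> z0 (AnalyticAt.eventually_eq_or_eventually_ne and the argument above). -/

theorem GA0_ne (c : ℂ) : ∃ z, z ∉ Lam ∧ wp z ≠ c := by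
  obtain ⟨u, hu, -, hexp⟩ := wp_expansion
  have c1 : ContinuousAt (fun z : ℂ => 1 + z ^ 6 * u z - c * z ^ 2) 0 := by
    have := hu.continuousAt
    fun_prop
  have h1 : (fun z : ℂ => 1 + z ^ 6 * u z - c * z ^ 2) 0 ≠ 0 := by norm_num
  have h2 : ∀ᶠ z in nhdsWithin (0 : ℂ) {0}ᶜ, 1 + z ^ 6 * u z - c * z ^ 2 ≠ 0 :=
    (c1.eventually_ne h1).filter_mono nhdsWithin_le_nhds
  obtain ⟨z, h3, h4, h5, h6⟩ :=
    (hexp.and (h2.and ((A1_discrete 0).and self_mem_nhdsWithin))).exists
  have h6' : z ≠ 0 := h6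
  refine ⟨z, h5, ?_⟩
  rw [h3]
  intro h
  apply h4
  have : z ^ 2 * ((z ^ 2)⁻¹ + z ^ 4 * u z) = 1 + z ^ 6 * u z := by
    field_simp
  rw [← this, h]
  ring

theorem wp_nonconst {z₀ : ℂ} (h : z₀ ∉ Lam) (c : ℂ) : ∀ᶠ z in nhdsWithin z₀ {z₀}ᶜ, wp z ≠ c := by
  rcases (A2_wp_analytic h).eventually_eq_or_eventually_ne
    (analyticAt_const (v := c)) with h1 | h1
  · exfalso
    have hA : AnalyticOnNhd ℂ (fun z => wp z - c) (Lamᶜ : Set ℂ) := fun z hz =>
      (A2_wp_analytic hz).sub analyticAt_const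
    have hz : (fun z => wp z - c) =ᶠ[nhds z₀] 0 := by
      filter_upwards [h1] with z hz
      show wp z - c = 0
      rw [hz, sub_self]
    have hall := hA.eqOn_zero_of_preconnected_of_eventuallyEq_zero A3_conn (z₀ := z₀) h hz
    obtain ⟨z, hz1, hz2⟩ := GA0_ne c
    exact hz2 (sub_eq_zero.1 (hall hz1))
  · exact h1

theorem wp_hasDeriv {z : ℂ} (h : z ∉ Lam) : HasDerivAt wp (wpd z) z := by
  have h1 : deriv wp z = wpd z := by
    have h2 : wp = LL.weierstrassP := rfl
    rw [h2, PeriodPair.deriv_weierstrassP]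
    rfl
  rw [← h1]
  exact (A2_wp_analytic h).differentiableAt.hasDerivAt

theorem GA0_wpd_ne {z₀ : ℂ} (h : z₀ ∉ Lam) : ∀ᶠ z in nhdsWithin z₀ {z₀}ᶜ, z ∉ Lam ∧ wpd z ≠ 0 := by
  obtain ⟨r, hr⟩ := IsAlgClosed.exists_pow_nat_eq (LL.g₃ / 4) (n := 3) (by norm_num)
  filter_upwards [wp_nonconst h r, wp_nonconst h (e om * r), wp_nonconst h (e om ^ 2 * r),
    A2_Lam_discrete z₀] with z h1 h2 h3 h4
  refine ⟨h4, fun h5 => ?_⟩
  have h6 := wp_ode z h4
  rw [h5] at h6
  have h7 : (wp z - r) * ((wp z - e om * r) * (wp z - e om ^ 2 * r)) = 0 := by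
    have h8 := e_om_rel
    linear_combination (-1 / 4) * h6 - hr + (-(wp z) ^ 2 * r + (wp z) * r ^ 2 * e om
      - (e om - 1) * r ^ 3) * h8
  rcases mul_eq_zero.1 h7 with h8 | h8
  · exact h1 (sub_eq_zero.1 h8)
  · rcases mul_eq_zero.1 h8 with h8 | h8
    · exact h2 (sub_eq_zero.1 h8)
    · exact h3 (sub_eq_zero.1 h8)

theorem wpd_hasDeriv {z : ℂ} (h : z ∉ Lam) : HasDerivAt wpd (6 * wp z ^ 2) z := by
  have hd : ∀ w : ℂ, w ∉ Lam → wpd w ≠ 0 → deriv wpd w = 6 * wp w ^ 2 := by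
    intro w hw hw0
    have h1 := (A2_wpd_analytic hw).differentiableAt.hasDerivAt
    have h2 := h1.pow 2
    have h3 := (((wp_hasDeriv hw).pow 3).const_mul 4).sub_const LL.g₃
    have h4 : (fun z => wpd z ^ 2) =ᶠ[nhds w] fun z => 4 * wp z ^ 3 - LL.g₃ := by
      filter_upwards [A1_open.mem_nhds hw] with v hv
      exact wp_ode v hv
    have h5 := h3.congr_of_eventuallyEq h4
    have h6 := h2.unique h5
    have h7 : wpd w * (deriv wpd w - 6 * wp w ^ 2) = 0 := by
      simp only [Nat.cast_ofNat, Nat.add_one_sub_one, pow_one] at h6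
      linear_combination h6 / 2
    rcases mul_eq_zero.1 h7 with h8 | h8
    · exact absurd h8 hw0
    · exact sub_eq_zero.1 h8
  have h1 : deriv wpd z = 6 * wp z ^ 2 := by
    have c1 : Filter.Tendsto (deriv wpd) (nhdsWithin z {z}ᶜ) (nhds (deriv wpd z)) :=
      ((A2_wpd_analytic h).deriv.continuousAt.tendsto).mono_left nhdsWithin_le_nhds
    have c2 : Filter.Tendsto (fun w => 6 * wp w ^ 2) (nhdsWithin z {z}ᶜ) (nhds (6 * wp z ^ 2)) := by
      have c3 : ContinuousAt (fun w => 6 * wp w ^ 2) z := by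
        have := (A2_wp_analytic h).continuousAt
        fun_prop
      exact c3.tendsto.mono_left nhdsWithin_le_nhds
    refine tendsto_nhds_unique_of_eventuallyEq c1 c2 ?_
    filter_upwards [GA0_wpd_ne h] with w hw
    exact hd w hw.1 hw.2
  rw [← h1]
  exact (A2_wpd_analytic h).differentiableAt.hasDerivAt

theorem wpd_expansion : ∃ v : ℂ → ℂ, AnalyticAt ℂ v 0 ∧
    ∀ᶠ z in nhdsWithin (0 : ℂ) {0}ᶜ, wpd z = -2 * (z ^ 3)⁻¹ + z ^ 3 * v z := by
  obtain ⟨u, hu, -, hexp⟩ := wp_expansion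
  refine ⟨fun z => 4 * u z + z * deriv u z,
    (analyticAt_const.mul hu).add (analyticAt_id.mul hu.deriv), ?_⟩
  have h1 : ∀ᶠ z in nhdsWithin (0 : ℂ) {0}ᶜ, AnalyticAt ℂ u z :=
    hu.eventually_analyticAt.filter_mono nhdsWithin_le_nhds
  have h2 := eventually_eventually_nhdsWithin.2 hexp
  filter_upwards [h1, h2, A2_Lam_discrete 0, self_mem_nhdsWithin] with z h3 h4 h5 h6
  have hz : z ≠ 0 := h6
  rw [IsOpen.nhdsWithin_eq isOpen_compl_singleton h6] at h4
  have d1 : HasDerivAt (fun z : ℂ => (z ^ 2)⁻¹ + z ^ 4 * u z)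
      (-(2 * z) / (z ^ 2) ^ 2 + (4 * z ^ 3 * u z + z ^ 4 * deriv u z)) z := by
    have e1 : HasDerivAt (fun z : ℂ => z ^ 2) (2 * z) z := by
      simpa using hasDerivAt_pow 2 z
    have e2 : HasDerivAt (fun z : ℂ => z ^ 4) (4 * z ^ 3) z := by
      simpa using hasDerivAt_pow 4 z
    exact (e1.inv (pow_ne_zero 2 hz)).add (e2.mul h3.differentiableAt.hasDerivAt)
  have d2 : HasDerivAt wp (-(2 * z) / (z ^ 2) ^ 2 + (4 * z ^ 3 * u z + z ^ 4 * deriv u z)) z :=
    d1.congr_of_eventuallyEq h4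
  rw [(wp_hasDeriv h5).unique d2]
  field_simp

end H28G
end

-- from Lib.H28G.GA1
section

open NumberField IsDedekindDomain WeierstrassCurve

namespace H28G

open H55B

/-! Chunk GA1 (M): the addition theorem as a determinant. Fix w not in Lam and put
D(z) = (wp z - wp w) wpd(z+w) + (wpd z - wpd w) wp(z+w) + wp z wpd w - wpd z wp w.
D is Lam-periodic in z. It is analytic at every z with z, z+w not in Lam (A2_wp_analytic, A2_wpd_analytic). Symmetry: D(-w-z) = -D(z).
At z = 0: with P(z) = wp(z+w) = P(0) + Q(0) z + z^2 P2(z), Q = P', the polar part is z^(-3)(z Q - 2 P + z Q(0) + 2 P(0)) = P2'(z).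
At z = -w: by the symmetry. So A0_liouville applies; the constant is zero by the symmetry. -/

noncomputable def GA1_D (w z : ℂ) : ℂ :=
  (wp z - wp w) * wpd (z + w) + (wpd z - wpd w) * wp (z + w) + wp z * wpd w - wpd z * wp w

theorem GA1_per (w z : ℂ) (y : O) : GA1_D w (z + 3 * e y) = GA1_D w z := by
  unfold GA1_D
  have h : z + 3 * e y + w = z + w + 3 * e y := by ring
  rw [h, wp_per, wp_per, A0_wpd_per, A0_wpd_per]

theorem GA1_symm (w z : ℂ) : GA1_D w (-w - z) = -GA1_D w z := by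
  unfold GA1_D
  have h1 : -w - z = -(z + w) := by ring
  have h2 : -(z + w) + w = -z := by ring
  rw [h1, h2, wp_neg, wp_neg, A0_wpd_neg, A0_wpd_neg]
  ring

theorem GA1_analytic {w z : ℂ} (h1 : z ∉ Lam) (h2 : z + w ∉ Lam) : AnalyticAt ℂ (GA1_D w) z := by
  have a1 := A2_wp_analytic h1
  have a2 := A2_wpd_analytic h1
  have a3 : AnalyticAt ℂ (fun t => wp (t + w)) z :=
    (A2_wp_analytic h2).comp (f := fun t => t + w) (by fun_prop)
  have a4 : AnalyticAt ℂ (fun t => wpd (t + w)) z :=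
    (A2_wpd_analytic h2).comp (f := fun t => t + w) (by fun_prop)
  unfold GA1_D
  fun_prop

theorem GA1_at_zero {w : ℂ} (hw : w ∉ Lam) : ∃ a : ℂ → ℂ, AnalyticAt ℂ a 0 ∧
    ∀ᶠ z in nhdsWithin (0 : ℂ) {0}ᶜ, GA1_D w z = a z := by
  obtain ⟨u, hu, -, hexp⟩ := wp_expansion
  obtain ⟨v, hv, hexpd⟩ := wpd_expansion
  have hw0 : (0 : ℂ) + w ∉ Lam := by rwa [zero_add]
  obtain ⟨P, hP⟩ : ∃ P : ℂ → ℂ, P = fun t => wp (t + w) := ⟨_, rfl⟩
  obtain ⟨Q, hQ⟩ : ∃ Q : ℂ → ℂ, Q = fun t => wpd (t + w) := ⟨_, rfl⟩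
  have hPa : AnalyticAt ℂ P 0 := by
    rw [hP]
    exact (A2_wp_analytic hw0).comp (f := fun t => t + w) (by fun_prop)
  have hQa : AnalyticAt ℂ Q 0 := by
    rw [hQ]
    exact (A2_wpd_analytic hw0).comp (f := fun t => t + w) (by fun_prop)
  have hder : ∀ t : ℂ, t + w ∉ Lam → HasDerivAt P (Q t) t := by
    intro t ht
    rw [hP, hQ]
    have h := (wp_hasDeriv ht).comp t ((hasDerivAt_id t).add_const w)
    rw [mul_one] at h
    exact h
  have hP0 : P 0 = wp w := by rw [hP]; simp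
  have hQ0 : Q 0 = wpd w := by rw [hQ]; simp
  obtain ⟨P1, hP1⟩ : ∃ P1 : ℂ → ℂ, P1 = dslope P 0 := ⟨_, rfl⟩
  have hP1a : AnalyticAt ℂ P1 0 := by rw [hP1]; exact A2_dslope hPa
  have hP10 : P1 0 = wpd w := by
    rw [hP1, dslope_same, (hder 0 hw0).deriv, hQ0]
  obtain ⟨P2, hP2⟩ : ∃ P2 : ℂ → ℂ, P2 = dslope P1 0 := ⟨_, rfl⟩
  have hP2a : AnalyticAt ℂ P2 0 := by rw [hP2]; exact A2_dslope hP1a
  have hPeq : ∀ z : ℂ, P z = wp w + wpd w * z + z ^ 2 * P2 z := by
    intro z
    have e1 : P z = P 0 + z * P1 z := by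
      have := sub_smul_dslope P 0 z
      rw [← hP1, sub_zero, smul_eq_mul] at this
      rw [this]
      ring
    have e2 : P1 z = P1 0 + z * P2 z := by
      have := sub_smul_dslope P1 0 z
      rw [← hP2, sub_zero, smul_eq_mul] at this
      rw [this]
      ring
    rw [e1, e2, hP0, hP10]
    ring
  have hQeq : ∀ᶠ z in nhds (0 : ℂ), Q z = wpd w + 2 * z * P2 z + z ^ 2 * deriv P2 z := by
    have h1 : ∀ᶠ z in nhds (0 : ℂ), AnalyticAt ℂ P2 z := hP2a.eventually_analyticAt
    have h2 : ∀ᶠ z in nhds (0 : ℂ), z + w ∉ Lam := by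
      have h3 : ∀ᶠ t in nhds (0 + w), t ∉ Lam := by
        have h4 := LL.isClosed_lattice.isOpen_compl.mem_nhds
          (show (0 + w) ∈ ((LL.lattice : Set ℂ))ᶜ from fun h => hw0 ((mem_LL _).1 h))
        filter_upwards [h4] with t ht h
        exact ht ((mem_LL t).2 h)
      have h5 : Filter.Tendsto (fun z : ℂ => z + w) (nhds 0) (nhds (0 + w)) :=
        (continuous_id.add continuous_const).tendsto 0
      exact h5.eventually h3
    filter_upwards [h1, h2] with z hz1 hz2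
    have h3 := hz1.differentiableAt.hasDerivAt
    have h4 : HasDerivAt (fun z => wp w + wpd w * z + z ^ 2 * P2 z)
        (wpd w * 1 + (2 * z * P2 z + z ^ 2 * deriv P2 z)) z := by
      have h5 := ((hasDerivAt_id z).const_mul (wpd w)).const_add (wp w)
      have h6 := (hasDerivAt_pow 2 z).mul h3
      have h7 := h5.add h6
      refine h7.congr_deriv ?_
      push_cast
      ring
    have h5 : (fun z => wp w + wpd w * z + z ^ 2 * P2 z) = P := (funext hPeq).symm
    rw [h5] at h4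
    have h6 := h4.unique (hder z hz2)
    rw [← h6]
    ring
  refine ⟨fun z => deriv P2 z + (z ^ 4 * u z - wp w) * Q z + (z ^ 3 * v z - wpd w) * P z +
    z ^ 4 * u z * wpd w - z ^ 3 * v z * wp w, ?_, ?_⟩
  · have := hP2a.deriv
    fun_prop
  · filter_upwards [hexp, hexpd, self_mem_nhdsWithin, nhdsWithin_le_nhds hQeq] with z h1 h2 hz h3
    have hz' : z ≠ 0 := hz
    have h4 : wp (z + w) = P z := by rw [hP]
    have h5 : wpd (z + w) = Q z := by rw [hQ]
    unfold GA1_D
    rw [h4, h5, h1, h2, hPeq z, h3]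
    field_simp
    ring

theorem GA1_at_Lam {w : ℂ} (hw : w ∉ Lam) {z₀ : ℂ} (h : z₀ ∈ Lam) : ∃ a : ℂ → ℂ, AnalyticAt ℂ a z₀ ∧
    ∀ᶠ z in nhdsWithin z₀ {z₀}ᶜ, GA1_D w z = a z := by
  obtain ⟨y, hy⟩ := h
  obtain ⟨a, ha, h⟩ := GA1_at_zero hw
  have ht : Filter.Tendsto (fun z : ℂ => z - z₀) (nhdsWithin z₀ {z₀}ᶜ)
      (nhdsWithin (0 : ℂ) {0}ᶜ) := by
    rw [tendsto_nhdsWithin_iff]
    constructor
    · have : ContinuousAt (fun z : ℂ => z - z₀) z₀ := by fun_prop
      have h := this.tendsto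
      simp only [sub_self] at h
      exact h.mono_left nhdsWithin_le_nhds
    · filter_upwards [self_mem_nhdsWithin] with z hz
      have hz' : z ≠ z₀ := hz
      show z - z₀ ≠ 0
      exact sub_ne_zero.2 hz'
  refine ⟨fun z => a (z - z₀), ?_, ?_⟩
  · have : AnalyticAt ℂ a (z₀ - z₀) := by rw [sub_self]; exact ha
    exact this.comp (f := fun w : ℂ => w - z₀) (by fun_prop)
  · filter_upwards [ht.eventually h] with z h3
    rw [← h3, ← GA1_per w (z - z₀) y, ← hy, sub_add_cancel]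

theorem GA1_neg_mem {z : ℂ} (h : z ∈ Lam) : -z ∈ Lam := by
  rw [← mem_LL] at h ⊢
  exact neg_mem h

theorem det_zero {z w : ℂ} (hz : z ∉ Lam) (hw : w ∉ Lam) (hzw : z + w ∉ Lam) :
    (wp z - wp w) * wpd (z + w) + (wpd z - wpd w) * wp (z + w) + wp z * wpd w - wpd z * wp w = 0 := by
  have hall : ∀ z₀, ∃ a : ℂ → ℂ, AnalyticAt ℂ a z₀ ∧
      ∀ᶠ z in nhdsWithin z₀ {z₀}ᶜ, GA1_D w z = a z := by
    intro z₀
    by_cases c1 : z₀ ∈ Lam
    · exact GA1_at_Lam hw c1
    · by_cases c2 : z₀ + w ∈ Lam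
      · have c3 : -w - z₀ ∈ Lam := by
          have h := GA1_neg_mem c2
          have h1 : -(z₀ + w) = -w - z₀ := by ring
          rwa [h1] at h
        obtain ⟨a, ha, h⟩ := GA1_at_Lam hw c3
        have ht : Filter.Tendsto (fun z : ℂ => -w - z) (nhdsWithin z₀ {z₀}ᶜ)
            (nhdsWithin (-w - z₀) {-w - z₀}ᶜ) := by
          rw [tendsto_nhdsWithin_iff]
          constructor
          · have : ContinuousAt (fun z : ℂ => -w - z) z₀ := by fun_prop
            exact this.tendsto.mono_left nhdsWithin_le_nhds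
          · filter_upwards [self_mem_nhdsWithin] with z hz
            have hz' : z ≠ z₀ := hz
            intro h
            have h5 : -w - z = -w - z₀ := h
            exact hz' (by linear_combination (-1 : ℂ) * h5)
        refine ⟨fun z => -a (-w - z), ?_, ?_⟩
        · exact (ha.comp (f := fun z : ℂ => -w - z) (by fun_prop)).neg
        · filter_upwards [ht.eventually h] with z h3
          rw [← h3, GA1_symm, neg_neg]
      · exact ⟨GA1_D w, GA1_analytic c1 c2, Filter.Eventually.of_forall fun z => rfl⟩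
  obtain ⟨c, hc⟩ := A0_liouville (GA1_D w) (GA1_per w) hall
  have e1 : GA1_D w z = c := hc z (GA1_D w) (GA1_analytic hz hzw).continuousAt
    (Filter.Eventually.of_forall fun z => rfl)
  have h1 : -w - z ∉ Lam := by
    intro h
    apply hzw
    have h2 := GA1_neg_mem h
    have h3 : -(-w - z) = z + w := by ring
    rwa [h3] at h2
  have h2 : -w - z + w ∉ Lam := by
    intro h
    apply hz
    have h2 := GA1_neg_mem h
    have h3 : -(-w - z + w) = z := by ring
    rwa [h3] at h2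
  have e2 : GA1_D w (-w - z) = c := hc (-w - z) (GA1_D w) (GA1_analytic h1 h2).continuousAt
    (Filter.Eventually.of_forall fun z => rfl)
  rw [GA1_symm] at e2
  have h6 : GA1_D w z = 0 := by linear_combination (1 / 2) * e1 - (1 / 2) * e2
  exact h6

end H28G
end
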