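import Mathlib
import Pool.Agent.Lib.H1M.PP.D_H55C_Defs
import Pool.Agent.Lib.H1M.PP.D_H55P_Defs
import Pool.Agent.Lib.H1M.PP.M011
import Pool.Agent.Lib.H1M.PP.M012
import Pool.Agent.Lib.H1M.PP.M019

/-! Merged copies (to shorten the build) of Lib.H28G.GD2, Lib.H55C.W7, Lib.H55N.U1, Lib.H55N.U2, Lib.H55N.HD, Lib.H55P.A1, Lib.H55P.Basic, Lib.H55P.F0, Lib.H55P.A2, Lib.H55P.B9. -/

-- from Lib.H28G.GD2
section

open NumberField IsDedekindDomain WeierstrassCurve

namespace H28G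

open H55B

/-! Chunk GD2 (S/M): the module Tor b k for a prime element b with full torsion. For R in Tor b k, R <> 0, the set {c | act c R = 0} is an ideal of O containing b and not 1, and (b) is maximal (b prime in the Dedekind domain O, b <> 0), so it is (b):
act_eq_zero. So c -> act c R induces an injection from O/(b) (Nm b elements) into Tor b k (Nm b elements): it is bijective (Nat.bijective_iff_injective_and_card, Full.finite). -/

variable {k : Type} [Field k] [DecidableEq k] [Algebra F k]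

theorem act_eq_zero {b : O} (hb : Prime b) {R : P27 k} (hR : R ∈ Tor b k) (h0 : R ≠ 0) (c : O) :
    act c R = 0 ↔ b ∣ c := by
  rw [mem_Tor] at hR
  constructor
  · intro h
    by_contra hbc
    have hp : (Ideal.span {b}).IsPrime := (Ideal.span_singleton_prime hb.ne_zero).2 hb
    have hbot : Ideal.span {b} ≠ ⊥ := by
      rw [Ne, Ideal.span_singleton_eq_bot]
      exact hb.ne_zero
    have hm : (Ideal.span {b}).IsMaximal := hp.isMaximal hbot
    have hc : c ∉ Ideal.span {b} := fun h' => hbc (Ideal.mem_span_singleton.1 h')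
    obtain ⟨y, z, hz, hyz⟩ := hm.exists_inv hc
    obtain ⟨w, rfl⟩ := Ideal.mem_span_singleton.1 hz
    apply h0
    have h1 : act (y * c + b * w) R = R := by
      rw [hyz, act_one]
    rw [act_add, act_mul, h, map_zero, zero_add, mul_comm b w, act_mul, hR, map_zero] at h1
    exact h1.symm
  · rintro ⟨w, rfl⟩
    rw [mul_comm b w, act_mul, hR, map_zero]

theorem GD2_mem {b : O} {R : P27 k} (hR : R ∈ Tor b k) (c : O) : act c R ∈ Tor b k := by
  rw [mem_Tor] at hR ⊢
  rw [← act_mul, mul_comm, act_mul, hR, map_zero]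

theorem tor_gen {b : O} (hb : Prime b) (hf : Full b k) {R R' : P27 k} (hR : R ∈ Tor b k)
    (hR' : R' ∈ Tor b k) (h0 : R ≠ 0) : ∃ c : O, act c R = R' := by
  have hfin := hf.finite hb.ne_zero
  let ψ : (O ⧸ Ideal.span {b}) → Tor b k := fun q => ⟨act q.out R, GD2_mem hR _⟩
  have hinj : Function.Injective ψ := by
    intro q q' h
    have h1 : act q.out R = act q'.out R := congrArg Subtype.val h
    have h2 : act (q.out - q'.out) R = 0 := by
      rw [act_sub, h1, sub_self]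
    rw [act_eq_zero hb hR h0, ← Ideal.mem_span_singleton, ← Ideal.Quotient.eq] at h2
    have h3 : ∀ r : O ⧸ Ideal.span {b}, Ideal.Quotient.mk (Ideal.span {b}) r.out = r :=
      fun r => Ideal.Quotient.mk_out r
    rw [h3, h3] at h2
    exact h2
  have hcard : Nat.card (O ⧸ Ideal.span {b}) = Nat.card (Tor b k) := by
    rw [hf]
    rfl
  have hbij : Function.Bijective ψ := (Nat.bijective_iff_injective_and_card ψ).2 ⟨hinj, hcard⟩
  obtain ⟨q, hq⟩ := hbij.2 ⟨R', hR'⟩
  exact ⟨q.out, congrArg Subtype.val hq⟩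

end H28G
end

-- from Lib.H55C.W7
section

open NumberField IsDedekindDomain

namespace H55C

open H55B

/-! Chunk W7: the discriminant is odd.
NumberField.not_dvd_discr_iff_forall_mem K (𝓞 K) (p = 2): it is enough that every prime P of 𝓞 K containing 2 is
unramified over the integers. Let v = P under O; 2 is prime in O (H55B/Z2.two_prime), so v = (2) and v is not Good; by
UnrOut the ramification index of P over O is 1, and the ramification index of (2) over the integers is 1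
(2 is not in (2)^2 as 2 O = (2)); ramification indices are multiplicative, so the ramification index of P over the
integers is 1, and Algebra.IsUnramifiedAt follows (residue fields are finite: Algebra.isUnramifiedAt_iff_of_isDedekindDomain or
a similar lemma in Mathlib/NumberTheory/RamificationInertia/Unramified). -/
theorem W7_discrF : ¬ (2 : ℤ) ∣ NumberField.discr F := by
  have : Fact (Nat.Prime 3) := ⟨by norm_num⟩
  have h : NumberField.discr F = (-1) ^ ((3 - 1) / 2) * 3 ^ (3 - 2) :=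
    IsCyclotomicExtension.Rat.discr_prime 3 F
  rw [h]
  decide

theorem odd_discr (K : Type) [Field K] [NumberField K] [Algebra F K] (hK : UnrOut K) :
    Odd (NumberField.discr K) := by
  rw [← Int.not_even_iff_odd, even_iff_two_dvd,
    NumberField.not_dvd_discr_iff_forall_mem K (𝓞 K) Int.prime_two]
  intro P hP h2
  have hPne : P ≠ ⊥ := by
    rintro rfl
    rw [Ideal.mem_bot] at h2
    norm_num at h2
  let w : HeightOneSpectrum (𝓞 K) := ⟨P, hP, hPne⟩
  have hv : (P.under O).IsPrime := inferInstance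
  have h2v : (2 : O) ∈ P.under O := by
    rw [Ideal.under_def, Ideal.mem_comap, map_ofNat]
    exact_mod_cast h2
  have hvne : P.under O ≠ ⊥ := by
    intro h
    rw [h, Ideal.mem_bot] at h2v
    norm_num at h2v
  let v : HeightOneSpectrum O := ⟨P.under O, hv, hvne⟩
  have hgood : ¬ Good v := fun h => h.1 h2v
  have he : P.ramificationIdx O = 1 := hK w v rfl hgood
  have hF := (NumberField.not_dvd_discr_iff_forall_mem F O Int.prime_two).1 W7_discrF
    (P.under O) hv (by exact_mod_cast h2v)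
  have he2 : (P.under O).ramificationIdx ℤ = 1 := Ideal.ramificationIdx_eq_one_iff.2 hF
  have ht := Ideal.ramificationIdx_tower (R := ℤ) (P.under O) P
  rw [he, he2, mul_one] at ht
  exact Ideal.ramificationIdx_eq_one_iff.1 ht

end H55C
end

-- from Lib.H55N.U1
section

namespace H55N

open MeasureTheory

/-! Chunk U1 (L, pure analysis). The Gamma integral, n = m+1. For Re s > 0 the function prod_i exp(s y_i - e^{y_i}) on R^n is integrable with integral
Gamma(s)^n (one variable: Complex.Gamma_eq_integral, substitution x = e^y; integral of a product: integral_fintype_prod_eq_prod). The linear map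
(r, z) -> y, y_i = r + sum_j lm i j z_j, has determinant Delta lm (matrix (1 | lm) on R x R^m = R^(m+1) via Fin.cons / MeasurableEquiv.piFinSuccAbove 0).
Under it sum y_i = n r (h0), sum e^{y_i} = e^r T(z), T(z) = sum_i tt lm z i > 0. So Gamma(s)^n = |Delta| int_z int_r exp(n s r - e^r T(z)) dr dz
(Fubini), and the inner integral is Gamma(n s) T(z)^(-n s) (substitution x = e^r: Complex.integral_cpow_mul_exp_neg_mul_Ioi). Integrability of T^(-n s): from
Fubini (integrable in z for the integral over r; for real s the inner integral is Gamma(ns) T^(-ns) > 0). -/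

/-! ### One variable -/

theorem u1_image_exp : Real.exp '' (Set.univ : Set ℝ) = Set.Ioi 0 := by
  rw [Set.image_univ, Real.range_exp]

/-- `∫ exp(a r - T e^r) dr = (1/T)^a Γ(a)`. -/
theorem u1_one {a : ℂ} (ha : 0 < a.re) {T : ℝ} (hT : 0 < T) :
    ∫ r : ℝ, Complex.exp (a * r - T * Real.exp r) = (1 / (T : ℂ)) ^ a * Complex.Gamma a := by
  rw [← Complex.integral_cpow_mul_exp_neg_mul_Ioi ha hT, ← u1_image_exp,
    integral_image_eq_integral_abs_deriv_smul MeasurableSet.univ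
      (fun x _ => (Real.hasDerivAt_exp x).hasDerivWithinAt) (Real.exp_injective.injOn),
    setIntegral_univ]
  congr 1
  funext r
  have hr := Real.exp_pos r
  rw [abs_of_pos hr, Complex.real_smul]
  have h1 : ((Real.exp r : ℝ) : ℂ) ^ (a - 1) = Complex.exp ((a - 1) * r) := by
    rw [Complex.cpow_def_of_ne_zero (by exact_mod_cast hr.ne'), ← Complex.ofReal_log hr.le,
      Real.log_exp, mul_comm]
  rw [h1, Complex.ofReal_exp, ← Complex.exp_add, ← Complex.exp_add]
  congr 1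
  ring

theorem u1_one_integrable {a : ℂ} (ha : 0 < a.re) :
    Integrable fun r : ℝ => Complex.exp (a * r - Real.exp r) := by
  have h := Complex.GammaIntegral_convergent ha
  rw [← u1_image_exp, integrableOn_image_iff_integrableOn_abs_deriv_smul MeasurableSet.univ
      (fun x _ => (Real.hasDerivAt_exp x).hasDerivWithinAt) (Real.exp_injective.injOn),
      integrableOn_univ] at h
  refine h.congr (Filter.Eventually.of_forall fun r => ?_)
  have hr := Real.exp_pos r
  simp only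
  rw [abs_of_pos hr, Complex.real_smul]
  have h1 : ((Real.exp r : ℝ) : ℂ) ^ (a - 1) = Complex.exp ((a - 1) * r) := by
    rw [Complex.cpow_def_of_ne_zero (by exact_mod_cast hr.ne'), ← Complex.ofReal_log hr.le,
      Real.log_exp, mul_comm]
  rw [h1, Complex.ofReal_exp, Complex.ofReal_exp, ← Complex.exp_add, ← Complex.exp_add]
  congr 1
  push_cast
  ring

/-! ### The product -/

/-- The integrand on `ℝ^n`. -/
noncomputable def u1F {m : ℕ} (s : ℂ) (y : Fin (m + 1) → ℝ) : ℂ :=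
  ∏ i, Complex.exp (s * y i - Real.exp (y i))

theorem u1F_integrable {m : ℕ} {s : ℂ} (hs : 0 < s.re) :
    Integrable (u1F (m := m) s) := by
  unfold u1F
  exact Integrable.fintype_prod (fun _ => u1_one_integrable hs)

theorem u1F_integral {m : ℕ} {s : ℂ} (hs : 0 < s.re) :
    ∫ y, u1F (m := m) s y = Complex.Gamma s ^ (m + 1) := by
  unfold u1F
  rw [integral_fintype_prod_volume_eq_pow (fun r : ℝ => Complex.exp (s * r - Real.exp r))]
  have h := u1_one hs (T := 1) one_pos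
  simp only [Complex.ofReal_one, one_mul, div_one, Complex.one_cpow] at h
  rw [h, Fintype.card_fin]

/-! ### The change of variables -/

/-- The matrix `(1 | lm)`. -/
noncomputable def u1M {m : ℕ} (lm : Fin (m + 1) → Fin m → ℝ) :
    Matrix (Fin (m + 1)) (Fin (m + 1)) ℝ :=
  Matrix.of fun i j : Fin (m + 1) => (Fin.cons 1 (lm i) : Fin (m + 1) → ℝ) j

theorem u1M_mulVec {m : ℕ} (lm : Fin (m + 1) → Fin m → ℝ) (v : Fin (m + 1) → ℝ) (i : Fin (m + 1)) :
    Matrix.toLin' (u1M lm) v i = v 0 + ∑ j : Fin m, v j.succ * lm i j := by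
  rw [Matrix.toLin'_apply, Matrix.mulVec, dotProduct, Fin.sum_univ_succ]
  simp [u1M, mul_comm]

/-- The integrand in the new variables. -/
noncomputable def u1G {m : ℕ} (lm : Fin (m + 1) → Fin m → ℝ) (s : ℂ) (p : ℝ × (Fin m → ℝ)) : ℂ :=
  Complex.exp (((m + 1 : ℕ) * s) * p.1 - ((∑ i, tt lm p.2 i : ℝ) : ℂ) * Real.exp p.1)

theorem u1_comp {m : ℕ} (lm : Fin (m + 1) → Fin m → ℝ) (h0 : ∀ j, ∑ i, lm i j = 0) (s : ℂ)
    (v : Fin (m + 1) → ℝ) :
    u1F s (Matrix.toLin' (u1M lm) v) =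
      u1G lm s (MeasurableEquiv.piFinSuccAbove (fun _ : Fin (m + 1) => ℝ) 0 v) := by
  have e1 : (MeasurableEquiv.piFinSuccAbove (fun _ : Fin (m + 1) => ℝ) 0 v) =
      (v 0, fun j => v j.succ) := by
    rfl
  rw [e1]
  unfold u1F u1G
  rw [← Complex.exp_sum]
  congr 1
  rw [Finset.sum_sub_distrib, ← Finset.mul_sum]
  congr 1
  · have : (∑ i, ((Matrix.toLin' (u1M lm) v i : ℝ) : ℂ)) = ((m + 1 : ℕ) : ℂ) * (v 0 : ℂ) := by
      rw [← Complex.ofReal_sum]
      have h1 : ∑ i, Matrix.toLin' (u1M lm) v i = ((m + 1 : ℕ) : ℝ) * v 0 := by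
        simp only [u1M_mulVec]
        rw [Finset.sum_add_distrib, Finset.sum_comm]
        have : ∀ j : Fin m, ∑ i : Fin (m + 1), v j.succ * lm i j = 0 := by
          intro j
          rw [← Finset.mul_sum, h0, mul_zero]
        rw [Finset.sum_eq_zero fun j _ => this j]
        simp
      rw [h1]
      push_cast
      ring
    rw [this]
    ring
  · rw [← Complex.ofReal_sum, ← Complex.ofReal_mul, Complex.ofReal_inj, Finset.sum_mul]
    refine Finset.sum_congr rfl fun i _ => ?_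
    rw [u1M_mulVec, add_comm, Real.exp_add]
    rfl

theorem u1_map {m : ℕ} (lm : Fin (m + 1) → Fin m → ℝ) (hD : Delta lm ≠ 0) :
    Measure.map (Matrix.toLin' (u1M lm)) volume =
      ENNReal.ofReal |(Delta lm)⁻¹| • (volume : Measure (Fin (m + 1) → ℝ)) :=
  Real.map_matrix_volume_pi_eq_smul_volume_pi (M := u1M lm) hD

theorem u1_meas {m : ℕ} (lm : Fin (m + 1) → Fin m → ℝ) :
    Measurable (Matrix.toLin' (u1M lm)) :=
  (LinearMap.continuous_of_finiteDimensional _).measurable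

theorem u1_continuous_tt {m : ℕ} (lm : Fin (m + 1) → Fin m → ℝ) (i : Fin (m + 1)) :
    Continuous fun z : Fin m → ℝ => tt lm z i := by
  unfold tt
  fun_prop

theorem u1F_continuous {m : ℕ} (s : ℂ) : Continuous (u1F (m := m) s) := by
  unfold u1F
  fun_prop

theorem u1G_integrable {m : ℕ} (lm : Fin (m + 1) → Fin m → ℝ) (h0 : ∀ j, ∑ i, lm i j = 0)
    (hD : Delta lm ≠ 0) {s : ℂ} (hs : 0 < s.re) : Integrable (u1G lm s) := by
  have hp := volume_preserving_piFinSuccAbove (fun _ : Fin (m + 1) => ℝ) 0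
  rw [← hp.integrable_comp_emb (MeasurableEquiv.measurableEmbedding _)]
  have h1 : Integrable (u1F (m := m) s) (Measure.map (Matrix.toLin' (u1M lm)) volume) := by
    rw [u1_map lm hD]
    exact (u1F_integrable hs).smul_measure ENNReal.ofReal_ne_top
  have h2 := h1.comp_measurable (u1_meas lm)
  refine h2.congr (Filter.Eventually.of_forall fun v => ?_)
  exact u1_comp lm h0 s v

theorem u1G_integral {m : ℕ} (lm : Fin (m + 1) → Fin m → ℝ) (h0 : ∀ j, ∑ i, lm i j = 0)
    (hD : Delta lm ≠ 0) {s : ℂ} (hs : 0 < s.re) :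
    ∫ p, u1G lm s p = ((|(Delta lm)⁻¹| : ℝ) : ℂ) * Complex.Gamma s ^ (m + 1) := by
  have hp := volume_preserving_piFinSuccAbove (fun _ : Fin (m + 1) => ℝ) 0
  rw [← hp.integral_comp (MeasurableEquiv.measurableEmbedding _), ← u1F_integral (m := m) hs]
  have h2 : ∫ y, u1F (m := m) s y ∂(Measure.map (Matrix.toLin' (u1M lm)) volume) =
      ∫ v, u1F (m := m) s (Matrix.toLin' (u1M lm) v) :=
    integral_map (u1_meas lm).aemeasurable (u1F_continuous s).aestronglyMeasurable
  rw [u1_map lm hD, integral_smul_measure, ENNReal.toReal_ofReal (abs_nonneg _)] at h2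
  rw [← Complex.real_smul, h2]
  exact integral_congr_ae (Filter.Eventually.of_forall fun v => (u1_comp lm h0 s v).symm)

theorem u1_T_pos {m : ℕ} (lm : Fin (m + 1) → Fin m → ℝ) (z : Fin m → ℝ) :
    0 < ∑ i, tt lm z i :=
  Finset.sum_pos (fun _ _ => Real.exp_pos _) Finset.univ_nonempty

theorem u1_re {m : ℕ} {s : ℂ} (hs : 0 < s.re) : 0 < (((m + 1 : ℕ) : ℂ) * s).re := by
  have : (((m + 1 : ℕ) : ℂ) * s).re = ((m + 1 : ℕ) : ℝ) * s.re := by
    rw [← Complex.ofReal_natCast, Complex.re_ofReal_mul]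
  rw [this]
  positivity

theorem u1_inner {m : ℕ} (lm : Fin (m + 1) → Fin m → ℝ) {s : ℂ} (hs : 0 < s.re)
    (z : Fin m → ℝ) : ∫ r : ℝ, u1G lm s (r, z) =
      Complex.Gamma ((m + 1 : ℕ) * s) * ((∑ i, tt lm z i : ℝ) : ℂ) ^ (-((m + 1 : ℕ) * s)) := by
  have hT := u1_T_pos lm z
  have h := u1_one (u1_re (m := m) hs) hT
  have h2 : (1 / ((∑ i, tt lm z i : ℝ) : ℂ)) ^ (((m + 1 : ℕ) : ℂ) * s) =
      ((∑ i, tt lm z i : ℝ) : ℂ) ^ (-(((m + 1 : ℕ) : ℂ) * s)) := by
    rw [one_div, Complex.inv_cpow, Complex.cpow_neg]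
    rw [Complex.arg_ofReal_of_nonneg hT.le]
    exact Real.pi_ne_zero.symm
  rw [h2] at h
  rw [mul_comm, ← h]
  rfl

theorem cst_integrable {m : ℕ} (lm : Fin (m + 1) → Fin m → ℝ) (h0 : ∀ j, ∑ i, lm i j = 0)
    (hD : Delta lm ≠ 0) (s : ℂ) (hs : 0 < s.re) :
    Integrable fun z : Fin m → ℝ => ((∑ i, tt lm z i : ℝ) : ℂ) ^ (-((m + 1 : ℕ) * s)) := by
  have h1 := (u1G_integrable lm h0 hD hs).integral_prod_right
  have h2 : Integrable fun z : Fin m → ℝ => Complex.Gamma ((m + 1 : ℕ) * s) *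
      ((∑ i, tt lm z i : ℝ) : ℂ) ^ (-((m + 1 : ℕ) * s)) := by
    refine h1.congr (Filter.Eventually.of_forall fun z => ?_)
    exact u1_inner lm hs z
  have h3 := h2.const_mul (Complex.Gamma ((m + 1 : ℕ) * s))⁻¹
  refine h3.congr (Filter.Eventually.of_forall fun z => ?_)
  exact inv_mul_cancel_left₀ (Complex.Gamma_ne_zero_of_re_pos (u1_re (m := m) hs)) _

theorem cst_eq {m : ℕ} (lm : Fin (m + 1) → Fin m → ℝ) (h0 : ∀ j, ∑ i, lm i j = 0)
    (hD : Delta lm ≠ 0) (s : ℂ) (hs : 0 < s.re) :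
    Complex.Gamma ((m + 1 : ℕ) * s) * cst lm s * ((|Delta lm| : ℝ) : ℂ) =
      Complex.Gamma s ^ (m + 1) := by
  have h1 := u1G_integral lm h0 hD hs
  have h2 : ∫ p, u1G lm s p = Complex.Gamma ((m + 1 : ℕ) * s) * cst lm s := by
    have h3 : ∫ p, u1G lm s p = ∫ z : Fin m → ℝ, ∫ r : ℝ, u1G lm s (r, z) :=
      integral_prod_symm _ (u1G_integrable lm h0 hD hs)
    rw [h3]
    unfold cst
    rw [← integral_const_mul]
    exact integral_congr_ae (Filter.Eventually.of_forall fun z => u1_inner lm hs z)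
  rw [← h2, h1, abs_inv]
  have : ((|Delta lm| : ℝ) : ℂ) ≠ 0 := by
    exact_mod_cast abs_ne_zero.2 hD
  push_cast
  field_simp

end H55N
end

-- from Lib.H55N.U2
section

namespace H55N

open MeasureTheory

/-! Chunk U2 (M, pure analysis). Translation. The matrix (1 | lm) is invertible, so there are r0, z0 with log y_i = r0 + sum_j lm i j z0_j for all i;
summing, (m+1) r0 = sum log y_i. Then sum_i tt lm z i * y_i = e^{r0} sum_i tt lm (z + z0) i, so the integrand is exp(-(m+1) s r0) times the translated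
integrand of cst (cpow of a product of positive reals), and exp(-(m+1) s r0) = (prod y_i)^(-s). -/

theorem u2_shift {m : ℕ} (lm : Fin (m + 1) → Fin m → ℝ) (h0 : ∀ j, ∑ i, lm i j = 0)
    (hD : Delta lm ≠ 0) (y : Fin (m + 1) → ℝ) :
    ∃ (r0 : ℝ) (z0 : Fin m → ℝ), (∀ i, r0 + ∑ j, z0 j * lm i j = Real.log (y i)) ∧
      ((m + 1 : ℕ) : ℝ) * r0 = ∑ i, Real.log (y i) := by
  have hu : IsUnit (u1M lm).det := (isUnit_iff_ne_zero (a := (u1M lm).det)).2 hD
  set v : Fin (m + 1) → ℝ := Matrix.toLin' (u1M lm)⁻¹ fun i => Real.log (y i) with hv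
  have h1 : Matrix.toLin' (u1M lm) v = fun i => Real.log (y i) := by
    rw [hv, ← LinearMap.comp_apply, ← Matrix.toLin'_mul, Matrix.mul_nonsing_inv _ hu,
      Matrix.toLin'_one]
    rfl
  have h2 : ∀ i, v 0 + ∑ j : Fin m, v j.succ * lm i j = Real.log (y i) := fun i => by
    rw [← u1M_mulVec, h1]
  refine ⟨v 0, fun j => v j.succ, h2, ?_⟩
  have h3 : ∑ i, Real.log (y i) = ∑ i : Fin (m + 1), (v 0 + ∑ j : Fin m, v j.succ * lm i j) :=
    Finset.sum_congr rfl fun i _ => (h2 i).symm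
  rw [h3, Finset.sum_add_distrib, Finset.sum_comm]
  have : ∀ j : Fin m, ∑ i : Fin (m + 1), v j.succ * lm i j = 0 := by
    intro j
    rw [← Finset.mul_sum, h0, mul_zero]
  rw [Finset.sum_eq_zero fun j _ => this j]
  simp

theorem u2_fun {m : ℕ} (lm : Fin (m + 1) → Fin m → ℝ) (h0 : ∀ j, ∑ i, lm i j = 0)
    (hD : Delta lm ≠ 0) (s : ℂ) (y : Fin (m + 1) → ℝ) (hy : ∀ i, 0 < y i) :
    ∃ z0 : Fin m → ℝ, ∀ z : Fin m → ℝ,
      ((∑ i, tt lm z i * y i : ℝ) : ℂ) ^ (-((m + 1 : ℕ) * s)) =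
      ((∏ i, y i : ℝ) : ℂ) ^ (-s) * ((∑ i, tt lm (z + z0) i : ℝ) : ℂ) ^ (-((m + 1 : ℕ) * s)) := by
  obtain ⟨r0, z0, h1, h2⟩ := u2_shift lm h0 hD y
  refine ⟨z0, fun z => ?_⟩
  have e1 : ∑ i, tt lm z i * y i = Real.exp r0 * ∑ i, tt lm (z + z0) i := by
    rw [Finset.mul_sum]
    refine Finset.sum_congr rfl fun i _ => ?_
    rw [← Real.exp_log (hy i), ← h1 i]
    unfold tt
    rw [← Real.exp_add, ← Real.exp_add]
    congr 1
    have : ∑ j, (z + z0) j * lm i j = ∑ j, z j * lm i j + ∑ j, z0 j * lm i j := by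
      rw [← Finset.sum_add_distrib]
      refine Finset.sum_congr rfl fun j _ => ?_
      rw [Pi.add_apply, add_mul]
    rw [this]
    ring
  have hT := (u1_T_pos lm (z + z0)).le
  have hP : 0 < ∏ i, y i := Finset.prod_pos fun i _ => hy i
  rw [e1, Complex.ofReal_mul, Complex.mul_cpow_ofReal_nonneg (Real.exp_pos r0).le hT]
  congr 1
  have e2 : ((Real.exp r0 : ℝ) : ℂ) ^ (-((m + 1 : ℕ) * s)) =
      Complex.exp (r0 * (-((m + 1 : ℕ) * s))) := by
    rw [Complex.cpow_def_of_ne_zero (by exact_mod_cast (Real.exp_pos r0).ne'),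
      ← Complex.ofReal_log (Real.exp_pos r0).le, Real.log_exp]
  have e3 : ((∏ i, y i : ℝ) : ℂ) ^ (-s) = Complex.exp ((((m + 1 : ℕ) : ℝ) * r0 : ℝ) * (-s)) := by
    rw [Complex.cpow_def_of_ne_zero (by exact_mod_cast hP.ne'),
      ← Complex.ofReal_log hP.le, Real.log_prod fun i _ => (hy i).ne', h2]
  rw [e2, e3]
  congr 1
  push_cast
  ring

theorem shift_integrable {m : ℕ} (lm : Fin (m + 1) → Fin m → ℝ) (h0 : ∀ j, ∑ i, lm i j = 0)
    (hD : Delta lm ≠ 0) (s : ℂ) (hs : 0 < s.re) (y : Fin (m + 1) → ℝ) (hy : ∀ i, 0 < y i) :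
    Integrable fun z : Fin m → ℝ => ((∑ i, tt lm z i * y i : ℝ) : ℂ) ^ (-((m + 1 : ℕ) * s)) := by
  obtain ⟨z0, h⟩ := u2_fun lm h0 hD s y hy
  have h1 := ((cst_integrable lm h0 hD s hs).comp_add_right z0).const_mul
    (((∏ i, y i : ℝ) : ℂ) ^ (-s))
  exact h1.congr (Filter.Eventually.of_forall fun z => (h z).symm)

theorem shift_eq {m : ℕ} (lm : Fin (m + 1) → Fin m → ℝ) (h0 : ∀ j, ∑ i, lm i j = 0)
    (hD : Delta lm ≠ 0) (s : ℂ) (hs : 0 < s.re) (y : Fin (m + 1) → ℝ) (hy : ∀ i, 0 < y i) :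
    ∫ z : Fin m → ℝ, ((∑ i, tt lm z i * y i : ℝ) : ℂ) ^ (-((m + 1 : ℕ) * s)) =
      ((∏ i, y i : ℝ) : ℂ) ^ (-s) * cst lm s := by
  obtain ⟨z0, h⟩ := u2_fun lm h0 hD s y hy
  have h1 : ∫ z : Fin m → ℝ, ((∑ i, tt lm z i * y i : ℝ) : ℂ) ^ (-((m + 1 : ℕ) * s)) =
      ∫ z : Fin m → ℝ, ((∏ i, y i : ℝ) : ℂ) ^ (-s) *
        ((∑ i, tt lm (z + z0) i : ℝ) : ℂ) ^ (-((m + 1 : ℕ) * s)) :=
    integral_congr_ae (Filter.Eventually.of_forall fun z => h z)
  rw [h1, integral_const_mul,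
    integral_add_right_eq_self (fun z : Fin m → ℝ =>
      ((∑ i, tt lm z i : ℝ) : ℂ) ^ (-((m + 1 : ℕ) * s))) z0]
  rfl

end H55N
end

-- from Lib.H55N.HD
section

/-!
# H55N, part H: definitions for the Hecke L-functions. See PROOF_H.md.
-/

open NumberField IsDedekindDomain

namespace H55N

open H55B H55C

open Classical in
/-- The primary generator of an ideal of O prime to 3, and 0 for the other ideals. -/
noncomputable def pg (J : Ideal O) : O :=
  if h : ∃ x : O, J = Ideal.span {x} ∧ Prim x then h.choose else 0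

theorem pg_span {x : O} (hx : Prim x) : pg (Ideal.span {x}) = x := by
  have h : ∃ y : O, Ideal.span {x} = Ideal.span {y} ∧ Prim y := ⟨x, rfl, hx⟩
  unfold pg
  rw [dif_pos h]
  exact h.choose_spec.2.eq_of_associated hx
    (Ideal.span_singleton_eq_span_singleton.1 h.choose_spec.1.symm)

theorem pg_of_not {J : Ideal O} (h : ¬ ∃ x : O, J = Ideal.span {x} ∧ Prim x) : pg J = 0 :=
  dif_neg h

theorem exists_prim_iff {J : Ideal O} (hJ : J ≠ ⊥) :
    (∃ x : O, J = Ideal.span {x} ∧ Prim x) ↔ IsCoprime J (Ideal.span {3}) := by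
  constructor
  · rintro ⟨x, rfl, hx⟩
    rw [Ideal.isCoprime_span_singleton_iff]
    exact hx.coprime
  · intro h
    obtain ⟨y, hy⟩ := (IsPrincipalIdealRing.principal J).principal
    have hy' : J = Ideal.span {y} := hy
    rw [hy', Ideal.isCoprime_span_singleton_iff] at h
    obtain ⟨u, hu⟩ := exists_unit_prim h
    refine ⟨u * y, ?_, hu⟩
    rw [hy', mul_comm, Ideal.span_singleton_mul_right_unit u.isUnit]

theorem not_prim_mul {J J' : Ideal O} (h : ¬ ∃ x : O, J = Ideal.span {x} ∧ Prim x) :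
    ¬ ∃ x : O, J * J' = Ideal.span {x} ∧ Prim x := by
  rintro ⟨x, hx, hp⟩
  have h0 : J * J' ≠ ⊥ := by
    rw [hx]
    intro h0
    exact hp.ne_zero (Ideal.span_singleton_eq_bot.1 h0)
  have hJ : J ≠ ⊥ := by
    rintro rfl
    exact h0 (by simp)
  apply h
  rw [exists_prim_iff hJ]
  have h1 := (exists_prim_iff h0).1 ⟨x, hx, hp⟩
  exact h1.of_mul_left_left

theorem pg_mul (J J' : Ideal O) : pg (J * J') = pg J * pg J' := by
  by_cases h : ∃ x : O, J = Ideal.span {x} ∧ Prim x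
  · by_cases h' : ∃ x : O, J' = Ideal.span {x} ∧ Prim x
    · obtain ⟨x, rfl, hx⟩ := h
      obtain ⟨y, rfl, hy⟩ := h'
      rw [Ideal.span_singleton_mul_span_singleton, pg_span hx, pg_span hy, pg_span (hx.mul hy)]
    · rw [pg_of_not h', mul_zero, mul_comm]
      exact pg_of_not (not_prim_mul h')
  · rw [pg_of_not h, zero_mul]
    exact pg_of_not (not_prim_mul h)

/-- The conjugate of the Hecke character of E27 over F, as a function on ideals. -/
noncomputable def psiF : Ideal O →*₀ ℂ where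
  toFun J := (starRingEnd ℂ) (e (pg J))
  map_zero' := by
    have : ¬ ∃ x : O, (0 : Ideal O) = Ideal.span {x} ∧ Prim x := by
      rintro ⟨x, hx, hp⟩
      exact hp.ne_zero (Ideal.span_singleton_eq_bot.1 hx.symm)
    rw [pg_of_not this, map_zero, map_zero]
  map_one' := by
    have : (1 : Ideal O) = Ideal.span {1} := by simp
    rw [this, pg_span prim_one, map_one, map_one]
  map_mul' J J' := by rw [pg_mul, map_mul, map_mul]

theorem psiF_apply (J : Ideal O) : psiF J = (starRingEnd ℂ) (e (pg J)) := rfl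

variable (K : Type) [Field K] [NumberField K] [Algebra F K]

/-- The conjugate of the Hecke character of E27 over K, as a function on ideals: the primary
generator of the relative norm. -/
noncomputable def Psi : Ideal (𝓞 K) →*₀ ℂ := psiF.comp (Ideal.relNorm O : Ideal (𝓞 K) →*₀ Ideal O)

variable {K}

/-- The general term of a Dirichlet series over the ideals. -/
noncomputable def tm (h : Ideal (𝓞 K) → ℂ) (s : ℂ) (a : Ideal (𝓞 K)) : ℂ :=
  h a * (Ideal.absNorm a : ℂ) ^ (-s)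

/-- The general term of a Dirichlet series with completely multiplicative coefficients. -/
noncomputable def tmH (h : Ideal (𝓞 K) →*₀ ℂ) (s : ℂ) : Ideal (𝓞 K) →*₀ ℂ where
  toFun := tm h s
  map_zero' := by
    unfold tm
    rw [map_zero, zero_mul]
  map_one' := by
    unfold tm
    rw [map_one, map_one, Nat.cast_one, Complex.one_cpow, one_mul]
  map_mul' a b := by
    unfold tm
    rw [map_mul, map_mul, Nat.cast_mul, Complex.natCast_mul_natCast_cpow]
    ring

open Classical in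
/-- The trivial character modulo f. -/
noncomputable def oneI (f : Ideal (𝓞 K)) : Ideal (𝓞 K) →*₀ ℂ where
  toFun a := if a ≠ ⊥ ∧ IsCoprime a f then 1 else 0
  map_zero' := by simp
  map_one' := by
    rw [if_pos]
    exact ⟨one_ne_zero, isCoprime_one_left⟩
  map_mul' a b := by
    have h : (a * b ≠ ⊥ ∧ IsCoprime (a * b) f) ↔
        (a ≠ ⊥ ∧ IsCoprime a f) ∧ (b ≠ ⊥ ∧ IsCoprime b f) := by
      rw [IsCoprime.mul_left_iff]
      have : a * b ≠ ⊥ ↔ a ≠ ⊥ ∧ b ≠ ⊥ := mul_ne_zero_iff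
      rw [this]
      tauto
    by_cases h1 : a ≠ ⊥ ∧ IsCoprime a f
    · by_cases h2 : b ≠ ⊥ ∧ IsCoprime b f
      · rw [if_pos h1, if_pos h2, if_pos (h.2 ⟨h1, h2⟩), one_mul]
      · rw [if_neg h2, if_neg fun h3 => h2 (h.1 h3).2, mul_zero]
    · rw [if_neg h1, if_neg fun h3 => h1 (h.1 h3).1, zero_mul]

/-- The L-series of h converges for Re s > 3/2, continues to Re s > 1/2 and its value at 1, divided by
the power of the period, is a 2-adic unit. -/
def LV (h : Ideal (𝓞 K) →*₀ ℂ) : Prop :=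
  ∃ Λ : ℂ → ℂ, AnalyticOnNhd ℂ Λ {s | 1 / 2 < s.re} ∧
    (∀ s : ℂ, 3 / 2 < s.re → HasSum (tm h s) (Λ s)) ∧
    Unit2 (Λ 1 / R0 ^ Module.finrank F K)

/-- Quadratic characters with conductor dividing f, on ideals, trivial on principal ideals of
elements congruent to 1 modulo f; f is a product of primes above good primes. -/
structure QChr (f : Ideal (𝓞 K)) (χ : Ideal (𝓞 K) →*₀ ℂ) : Prop where
  ne : f ≠ ⊥
  good : ∀ (w : HeightOneSpectrum (𝓞 K)) (v : HeightOneSpectrum O), f ≤ w.asIdeal →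
    v.asIdeal = w.asIdeal.under O → H55C.Good v
  val : ∀ a : Ideal (𝓞 K), a ≠ ⊥ → IsCoprime a f → χ a = 1 ∨ χ a = -1
  zero : ∀ a : Ideal (𝓞 K), ¬ IsCoprime a f → χ a = 0
  per : ∀ x y : 𝓞 K, x ≠ 0 → y ≠ 0 → IsCoprime (Ideal.span {x}) f → x - y ∈ f →
    χ (Ideal.span {x}) = χ (Ideal.span {y})

/-- Arithmetic functions from functions on ideals. -/
noncomputable def AI (h : Ideal (𝓞 K) → ℂ) : ArithmeticFunction ℂ where
  toFun n := if n = 0 then 0 else ∑ᶠ (a : Ideal (𝓞 K)) (_ : Ideal.absNorm a = n), h a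
  map_zero' := if_pos rfl

/-- The decomposition law in a quadratic extension K'/K with character chi. -/
def SplitChr (K K' : Type) [Field K] [NumberField K] [Field K'] [NumberField K'] [Algebra K K']
    (χ : Ideal (𝓞 K) →*₀ ℂ) : Prop :=
  ∀ w : HeightOneSpectrum (𝓞 K),
    (χ w.asIdeal = 1 ∧ ∃ W₁ W₂ : HeightOneSpectrum (𝓞 K'), W₁ ≠ W₂ ∧
      {W : HeightOneSpectrum (𝓞 K') | W.asIdeal.under (𝓞 K) = w.asIdeal} = {W₁, W₂} ∧
      Ideal.relNorm (𝓞 K) W₁.asIdeal = w.asIdeal ∧ Ideal.relNorm (𝓞 K) W₂.asIdeal = w.asIdeal) ∨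
    (χ w.asIdeal = -1 ∧ ∃ W : HeightOneSpectrum (𝓞 K'),
      {W : HeightOneSpectrum (𝓞 K') | W.asIdeal.under (𝓞 K) = w.asIdeal} = {W} ∧
      Ideal.relNorm (𝓞 K) W.asIdeal = w.asIdeal ^ 2) ∨
    (χ w.asIdeal = 0 ∧ ∃ W : HeightOneSpectrum (𝓞 K'),
      {W : HeightOneSpectrum (𝓞 K') | W.asIdeal.under (𝓞 K) = w.asIdeal} = {W} ∧
      Ideal.relNorm (𝓞 K) W.asIdeal = w.asIdeal)

/-- Data of the class decomposition modulo 3f: representatives b of the ideal classes, of the classes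
modulo 3fb, and transversals. -/
structure CD (f : Ideal (𝓞 K)) (ι : Type) (b : ι → Ideal (𝓞 K)) (c₀ : ι → 𝓞 K)
    (T : ι → Set (𝓞 K)) : Prop where
  ne : ∀ i, b i ≠ ⊥
  cop : ∀ i, IsCoprime (b i) (Ideal.span {6} * f)
  mem : ∀ i, c₀ i ∈ b i
  prim : ∀ i, ∀ w : HeightOneSpectrum (𝓞 K), Ideal.span {3} * f ≤ w.asIdeal →
    c₀ i ∉ w.asIdeal * b i
  trans : ∀ i, Transv (Ideal.span {3} * f) (XS (Ideal.span {3} * f * b i) (c₀ i)) (T i)
  bij : ∀ a : Ideal (𝓞 K), a ≠ ⊥ → IsCoprime a (Ideal.span {3} * f) →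
    ∃! q : Σ i, T i, a * b q.1 = Ideal.span {(q.2 : 𝓞 K)}

end H55N
end

-- from Lib.H55P.A1
section

open NumberField IsDedekindDomain

namespace H55P

open H55N

variable {F : Type} [Field F] [NumberField F] [IQ F]

open H55B (g)

/-! Chunk A1 (M). The embeddings over F, norm and trace. PROOF. letI := emb.toAlgebra (so C is an F-algebra). K/F is
finite separable, C is algebraically closed, so the F-algebra maps K -> C number finrank F K
(AlgHom.card); σ = a bijection with Fin (m+1), composed with AlgHom.toRingHom. A ring homomorphism tau with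
tau (algebraMap F K x) = (embF F) x IS an F-algebra map. For σ with Emb F σ the map i -> σ i (as AlgHom) is injective between finite types
of the same cardinality, hence bijective; then Algebra.norm_eq_prod_embeddings, trace_eq_sum_embeddings, reindexed. -/

/-- The algebra structure given by the fixed embedding. -/
@[reducible] noncomputable def a1Alg : Algebra F ℂ := (embF F).toAlgebra

attribute [local instance] a1Alg

theorem a1_algebraMap (x : F) : algebraMap F ℂ x = (embF F) x := rfl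

/-- The embedding as an algebra homomorphism. -/
noncomputable def a1Hom {K : Type} [Field K] [NumberField K] [Algebra F K] {m : ℕ}
    {σ : Fin (m + 1) → K →+* ℂ} (h : Emb F σ) (i : Fin (m + 1)) : K →ₐ[F] ℂ :=
  { σ i with commutes' := fun x => h.ovr i x }

theorem a1_fin {K : Type} [Field K] [NumberField K] [Algebra F K] {m : ℕ}
    (hm : Module.finrank F K = m + 1) : FiniteDimensional F K :=
  Module.finite_of_finrank_pos (by omega)

theorem a1_bij {K : Type} [Field K] [NumberField K] [Algebra F K] {m : ℕ}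
    {σ : Fin (m + 1) → K →+* ℂ} (h : Emb F σ) : Function.Bijective (a1Hom h) := by
  haveI := a1_fin h.fin
  rw [Fintype.bijective_iff_injective_and_card]
  refine ⟨fun i j hij => h.inj ?_, ?_⟩
  · ext x
    exact DFunLike.congr_fun hij x
  · rw [AlgHom.card F K ℂ, h.fin, Fintype.card_fin]

theorem emb_exists (K : Type) [Field K] [NumberField K] [Algebra F K] (m : ℕ)
    (hm : Module.finrank F K = m + 1) : ∃ σ : Fin (m + 1) → K →+* ℂ, Emb F σ := by
  haveI := a1_fin hm
  have hc : Fintype.card (K →ₐ[F] ℂ) = m + 1 := by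
    rw [AlgHom.card F K ℂ, hm]
  have eq : Fin (m + 1) ≃ (K →ₐ[F] ℂ) :=
    Fintype.equivOfCardEq (by rw [hc, Fintype.card_fin])
  refine ⟨fun i => (eq i : K →ₐ[F] ℂ).toRingHom, ⟨fun i x => (eq i).commutes x, ?_, hm⟩⟩
  intro i j hij
  apply eq.injective
  ext x
  exact DFunLike.congr_fun hij x

theorem norm_eq {K : Type} [Field K] [NumberField K] [Algebra F K] {m : ℕ}
    {σ : Fin (m + 1) → K →+* ℂ} (h : Emb F σ) (x : K) : ∏ i, σ i x = (embF F) (Algebra.norm F x) := by
  haveI := a1_fin h.fin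
  rw [← a1_algebraMap, Algebra.norm_eq_prod_embeddings F ℂ x, ← (a1_bij h).prod_comp]
  rfl

theorem trace_eq {K : Type} [Field K] [NumberField K] [Algebra F K] {m : ℕ}
    {σ : Fin (m + 1) → K →+* ℂ} (h : Emb F σ) (x : K) :
    ∑ i, σ i x = (embF F) (Algebra.trace F K x) := by
  haveI := a1_fin h.fin
  rw [← a1_algebraMap, trace_eq_sum_embeddings ℂ (K := F) (x := x), ← (a1_bij h).sum_comp]
  rfl

theorem emb_all {K : Type} [Field K] [NumberField K] [Algebra F K] {m : ℕ}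
    {σ : Fin (m + 1) → K →+* ℂ} (h : Emb F σ) (τ : K →+* ℂ)
    (hτ : ∀ x : F, τ (algebraMap F K x) = (embF F) x) : ∃ i, τ = σ i := by
  obtain ⟨i, hi⟩ := (a1_bij h).2 ({ τ with commutes' := hτ } : K →ₐ[F] ℂ)
  refine ⟨i, ?_⟩
  ext x
  exact (DFunLike.congr_fun hi x).symm

end H55P
end

-- from Lib.H55P.Basic
section

/-! Simple facts used everywhere. -/

open NumberField IsDedekindDomain

namespace H55P

open H55N
open H55B (g)

variable {F : Type} [Field F] [NumberField F] [IQ F] {K : Type} [Field K] [NumberField K]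
  [Algebra F K] {m : ℕ}

namespace Ctx

variable (D : Ctx F K m)

theorem mem_X (x : 𝓞 K) : x ∈ D.X ↔ x - D.c₀ ∈ D.I := Iff.rfl

theorem X_sub {x y : 𝓞 K} (hx : x ∈ D.X) (hy : y ∈ D.I) : x - y ∈ D.X := by
  rw [mem_X] at hx ⊢
  have : x - y - D.c₀ = (x - D.c₀) - y := by ring
  rw [this]
  exact D.I.sub_mem hx hy

theorem X_add {x y : 𝓞 K} (hx : x ∈ D.X) (hy : y ∈ D.I) : x + y ∈ D.X := by
  rw [mem_X] at hx ⊢
  have : x + y - D.c₀ = (x - D.c₀) + y := by ring
  rw [this]
  exact D.I.add_mem hx hy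

theorem X_ne (h : D.c₀ ∉ D.I) {x : 𝓞 K} (hx : x ∈ D.X) : x ≠ 0 := by
  rintro rfl
  rw [mem_X, zero_sub] at hx
  exact h (neg_mem_iff.1 hx)

theorem Tr_add (a : K) (x y : 𝓞 K) : D.Tr a (x + y) = D.Tr a x + D.Tr a y := by
  simp only [Tr, map_add, add_mul, Finset.sum_add_distrib]

theorem Tr_sub (a : K) (x y : 𝓞 K) : D.Tr a (x - y) = D.Tr a x - D.Tr a y := by
  simp only [Tr, map_sub, sub_mul, Finset.sum_sub_distrib]

theorem Tr_zero (a : K) : D.Tr a 0 = 0 := by
  simp [Tr]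

theorem one_le_sz (x : 𝓞 K) : 1 ≤ D.sz x := by
  unfold sz
  have : 0 ≤ ∑ i, ‖D.σ i x‖ := Finset.sum_nonneg fun i _ => norm_nonneg _
  linarith

theorem sz_pos (x : 𝓞 K) : 0 < D.sz x := lt_of_lt_of_le one_pos (D.one_le_sz x)

theorem norm_le_sz (x : 𝓞 K) (i : Fin (m + 1)) : ‖D.σ i x‖ ≤ D.sz x := by
  unfold sz
  have : ‖D.σ i x‖ ≤ ∑ i, ‖D.σ i x‖ :=
    Finset.single_le_sum (f := fun i => ‖D.σ i x‖) (fun i _ => norm_nonneg _) (Finset.mem_univ i)
  linarith

end Ctx

/-- The gain 1/sz in every direction. -/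
noncomputable def Ctx.gs (D : Ctx F K m) {ι : Type} (_ : ι) (x : 𝓞 K) : ℝ := (D.sz x)⁻¹

end H55P
end

-- from Lib.H55P.F0
section

/-! The lattice of integers of an imaginary quadratic field of class number one. -/

open NumberField IsDedekindDomain

namespace H55P

open H55N
open H55B (g)

variable {F : Type} [Field F] [NumberField F] [IQ F]

theorem eF_apply (x : (𝓞 F)) : (eF F) x = embF F (x : F) := rfl

theorem eF_inj : Function.Injective (eF F) := by
  intro x y h
  exact RingOfIntegers.coe_injective ((embF F).injective h)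

theorem eF_ne {x : (𝓞 F)} (hx : x ≠ 0) : (eF F) x ≠ 0 := fun h => hx (eF_inj (by rw [h, map_zero]))

/-- The norm of an integer, as a natural number. -/
noncomputable def Nm (x : 𝓞 F) : ℕ := Ideal.absNorm (Ideal.span {x})

theorem Nm_eq_zero {x : (𝓞 F)} : Nm x = 0 ↔ x = 0 := by
  unfold Nm
  rw [Ideal.absNorm_eq_zero_iff, Ideal.span_singleton_eq_bot]

/-- An integral basis. -/
noncomputable def bF (F : Type) [Field F] [NumberField F] [IQ F] : Module.Basis (Fin 2) ℤ (𝓞 F) :=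
  (RingOfIntegers.basis F).reindex (Fintype.equivFinOfCardEq (by
    rw [← Module.finrank_eq_card_basis (RingOfIntegers.basis F), RingOfIntegers.rank, IQ.deg]))

theorem bF_repr (x : (𝓞 F)) : x = ((bF F).repr x 0 : (𝓞 F)) * bF F 0 + ((bF F).repr x 1 : (𝓞 F)) * bF F 1 := by
  have h := (bF F).sum_repr x
  rw [Fin.sum_univ_two, zsmul_eq_mul, zsmul_eq_mul] at h
  exact h.symm

theorem eF_repr (x : (𝓞 F)) : (eF F) x = ((bF F).repr x 0 : ℂ) * (eF F) (bF F 0) + ((bF F).repr x 1 : ℂ) * (eF F) (bF F 1) := by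
  conv_lhs => rw [bF_repr x]
  rw [map_add, map_mul, map_mul, map_intCast, map_intCast]

theorem F0_im : ∃ x : (𝓞 F), ((eF F) x).im ≠ 0 := by
  obtain ⟨x, hx⟩ := IQ.im (F := F)
  obtain ⟨⟨a, b⟩, hab⟩ := IsLocalization.surj (nonZeroDivisors (𝓞 F)) x
  simp only at hab
  by_contra hcon
  push Not at hcon
  apply hx
  have hb : algebraMap (𝓞 F) F (b : (𝓞 F)) ≠ 0 := by
    intro h
    have h1 : (b : (𝓞 F)) = 0 := RingOfIntegers.coe_injective (by rw [h]; exact (map_zero _).symm)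
    exact nonZeroDivisors.ne_zero b.2 h1
  have h1 : (embF F) x * (eF F) (b : (𝓞 F)) = (eF F) a := by
    have := congrArg (embF F) hab
    rw [map_mul] at this
    exact this
  have h2 : (eF F) (b : (𝓞 F)) ≠ 0 := eF_ne (nonZeroDivisors.ne_zero b.2)
  have h3 : (embF F) x = (eF F) a / (eF F) (b : (𝓞 F)) := (eq_div_iff h2).2 h1
  change ((embF F) x).im = 0
  rw [h3, Complex.div_im, hcon a, hcon (b : (𝓞 F))]
  simp

theorem LF_indep : LinearIndependent ℝ ![(eF F) (bF F 0), (eF F) (bF F 1)] := by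
  rw [LinearIndependent.pair_iff]
  intro s t h
  by_contra hcon
  have hb0 : (eF F) (bF F 0) ≠ 0 := eF_ne ((bF F).ne_zero 0)
  have hb1 : (eF F) (bF F 1) ≠ 0 := eF_ne ((bF F).ne_zero 1)
  rw [Complex.real_smul, Complex.real_smul] at h
  have ht : t ≠ 0 := by
    rintro rfl
    rw [Complex.ofReal_zero, zero_mul, add_zero] at h
    rcases mul_eq_zero.1 h with h1 | h1
    · exact hcon ⟨by exact_mod_cast h1, rfl⟩
    · exact hb0 h1
  have h1 : (eF F) (bF F 1) = ((-s / t : ℝ) : ℂ) * (eF F) (bF F 0) := by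
    have : ((t : ℝ) : ℂ) ≠ 0 := by exact_mod_cast ht
    push_cast
    field_simp
    linear_combination h
  have h2 : ∀ x : (𝓞 F), ∃ r : ℝ, (eF F) x = (r : ℂ) * (eF F) (bF F 0) := by
    intro x
    refine ⟨((bF F).repr x 0 : ℝ) + ((bF F).repr x 1 : ℝ) * (-s / t), ?_⟩
    rw [eF_repr x, h1]
    push_cast
    ring
  obtain ⟨r1, hr1⟩ := h2 1
  rw [map_one] at hr1
  have hr : (r1 : ℂ) ≠ 0 := by
    intro h0
    rw [h0, zero_mul] at hr1
    exact one_ne_zero hr1
  obtain ⟨x, hx⟩ := F0_im (F := F)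
  obtain ⟨r, hrx⟩ := h2 x
  apply hx
  have h3 : (eF F) (bF F 0) = ((r1⁻¹ : ℝ) : ℂ) := by
    push_cast
    field_simp
    linear_combination -hr1
  rw [hrx, h3, ← Complex.ofReal_mul, Complex.ofReal_im]

/-- The period lattice of integers. -/
noncomputable def LF (F : Type) [Field F] [NumberField F] [IQ F] : PeriodPair :=
  ⟨eF F (bF F 0), eF F (bF F 1), LF_indep⟩

theorem mem_LF (z : ℂ) : z ∈ (LF F).lattice ↔ ∃ y : (𝓞 F), z = (eF F) y := by
  rw [PeriodPair.mem_lattice]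
  constructor
  · rintro ⟨m, n, h⟩
    refine ⟨(m : (𝓞 F)) * bF F 0 + (n : (𝓞 F)) * bF F 1, ?_⟩
    rw [← h, map_add, map_mul, map_mul, map_intCast, map_intCast]
    rfl
  · rintro ⟨y, rfl⟩
    exact ⟨(bF F).repr y 0, (bF F).repr y 1, (eF_repr y).symm⟩

/-- Integers as lattice points. -/
noncomputable def LF_equiv (F : Type) [Field F] [NumberField F] [IQ F] : 𝓞 F ≃ (LF F).lattice :=
  Equiv.ofBijective (fun y => ⟨eF F y, (mem_LF _).2 ⟨y, rfl⟩⟩) (by
    constructor
    · intro x y h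
      exact eF_inj (congrArg Subtype.val h)
    · rintro ⟨z, hz⟩
      obtain ⟨y, rfl⟩ := (mem_LF z).1 hz
      exact ⟨y, rfl⟩)

theorem LF_equiv_coe (y : (𝓞 F)) : ((LF_equiv F y : (LF F).lattice) : ℂ) = (eF F) y := rfl

theorem F0_cpx : (InfinitePlace.mk (embF F)).IsComplex := by
  rw [InfinitePlace.isComplex_mk_iff]
  intro h
  obtain ⟨x, hx⟩ := IQ.im (F := F)
  apply hx
  have h1 := ComplexEmbedding.isReal_iff.1 h
  have h2 := RingHom.congr_fun h1 x
  rw [ComplexEmbedding.conjugate_coe_eq] at h2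
  exact Complex.conj_eq_iff_im.1 h2

theorem F0_card : InfinitePlace.nrRealPlaces F = 0 ∧ InfinitePlace.nrComplexPlaces F = 1 := by
  classical
  have h := InfinitePlace.card_add_two_mul_card_eq_rank F
  rw [IQ.deg] at h
  have h1 : 0 < InfinitePlace.nrComplexPlaces F := by
    unfold InfinitePlace.nrComplexPlaces
    rw [Fintype.card_pos_iff]
    exact ⟨⟨_, F0_cpx⟩⟩
  omega

theorem F0_place (w : InfinitePlace F) : w = InfinitePlace.mk (embF F) := by
  classical
  have h := F0_card (F := F)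
  have h1 : w.IsComplex := by
    rw [← InfinitePlace.not_isReal_iff_isComplex]
    intro hr
    have : 0 < InfinitePlace.nrRealPlaces F := by
      unfold InfinitePlace.nrRealPlaces
      rw [Fintype.card_pos_iff]
      exact ⟨⟨w, hr⟩⟩
    omega
  have h2 := h.2
  unfold InfinitePlace.nrComplexPlaces at h2
  have h3 := Fintype.card_le_one_iff.1 h2.le ⟨w, h1⟩ ⟨_, F0_cpx⟩
  exact congrArg Subtype.val h3

theorem Nm_eq (x : (𝓞 F)) : (Nm x : ℝ) = ‖(eF F) x‖ ^ 2 := by
  have h1 := InfinitePlace.prod_eq_abs_norm (x : F)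
  have h2 : ∏ w : InfinitePlace F, w (x : F) ^ w.mult = ‖(eF F) x‖ ^ 2 := by
    have : Unique (InfinitePlace F) := ⟨⟨InfinitePlace.mk (embF F)⟩, F0_place⟩
    rw [Fintype.prod_unique]
    have h3 : (default : InfinitePlace F) = InfinitePlace.mk (embF F) := F0_place _
    rw [h3, InfinitePlace.mult_isComplex ⟨_, F0_cpx⟩, InfinitePlace.apply]
    rfl
  rw [h2] at h1
  rw [h1]
  unfold Nm
  rw [Ideal.absNorm_span_singleton]
  have h4 : Algebra.norm ℚ (x : F) = ((Algebra.norm ℤ x : ℤ) : ℚ) := by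
    rw [← Algebra.coe_norm_int]
  rw [h4]
  rw [Nat.cast_natAbs]
  push_cast
  rfl

theorem one_le_e {x : (𝓞 F)} (hx : x ≠ 0) : 1 ≤ ‖(eF F) x‖ := by
  have h1 := Nm_eq x
  have h2 : 1 ≤ Nm x := Nat.one_le_iff_ne_zero.2 fun h0 => hx (Nm_eq_zero.1 h0)
  have h3 : (1 : ℝ) ≤ Nm x := by exact_mod_cast h2
  rw [h1] at h3
  nlinarith [norm_nonneg ((eF F) x)]

theorem summable_e {r : ℝ} (hr : 2 < r) : Summable (fun x : (𝓞 F) => (1 + ‖(eF F) x‖) ^ (-r)) := by
  have h1 : Summable fun z : (LF F).lattice => ‖(z : ℂ)‖ ^ (-r) := by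
    refine ZLattice.summable_norm_rpow (L := (LF F).lattice) (-r) ?_
    rw [PeriodPair.finrank_lattice]
    push_cast
    linarith
  rw [← (LF_equiv F).summable_iff] at h1
  refine h1.of_norm_bounded_eventually ?_
  rw [Filter.eventually_cofinite]
  refine Set.Finite.subset (Set.finite_singleton (0 : (𝓞 F))) ?_
  intro x hx
  rw [Set.mem_singleton_iff]
  by_contra hne
  apply hx
  have h2 : 0 < ‖(eF F) x‖ := norm_pos_iff.2 (eF_ne hne)
  rw [Real.norm_of_nonneg (by positivity)]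
  change (1 + ‖(eF F) x‖) ^ (-r) ≤ ‖(eF F) x‖ ^ (-r)
  exact Real.rpow_le_rpow_of_nonpos h2 (by linarith) (by linarith)

end H55P
end

-- from Lib.H55P.A2
section

open NumberField IsDedekindDomain

namespace H55P

open H55N
open H55B (g)

variable {F : Type} [Field F] [NumberField F] [IQ F] {K : Type} [Field K] [NumberField K] [Algebra F K] {m : ℕ}

/-! Chunk A2 (M). Nonvanishing determinants and lower bounds.
(1) det (σ_i (A_k)) is nonzero for A linearly independent over F: distinct ring homomorphisms K -> C are linearly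
independent over C (linearIndependent_monoidHom); if c is a vector with sum_i c_i σ_i(A_k) = 0 for all k, then sum_i c_i σ_i(y) = 0 for
all y in K (A is an F-basis of K by Emb.fin: m+1 independent vectors; y = sum_k f_k A_k, σ_i f_k = (embF F) f_k), hence c = 0.
(2) For x in O_K nonzero the norm N_{K/F} x is a nonzero element y of O and |e y| >= 1 (|e y|^2 = Nm y, H55B.Nm_eq, is a
positive natural number), and prod |σ_i x| = |(embF F) (norm x)| (norm_eq).
(3) Tr_eq: definition, trace_eq. (4) If D.Tr (A k) x = D.Tr (A k) y for all k then x = y, for A independent: the trace form is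
nondegenerate, or directly from (1). -/

theorem det_ne {σ : Fin (m + 1) → K →+* ℂ} (h : Emb F σ) (A : Fin (m + 1) → K)
    (hA : LinearIndependent F A) :
    Matrix.det (Matrix.of fun k i : Fin (m + 1) => σ i (A k)) ≠ 0 := by
  haveI := a1_fin h.fin
  intro hdet
  obtain ⟨c, hc, hc0⟩ := Matrix.exists_mulVec_eq_zero_iff.2 hdet
  apply hc
  have h1 : ∀ k, ∑ i, σ i (A k) * c i = 0 := fun k => congrFun hc0 k
  have hspan : Submodule.span F (Set.range A) = ⊤ :=
    hA.span_eq_top_of_card_eq_finrank (by rw [h.fin, Fintype.card_fin])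
  have h2 : ∀ y : K, ∑ i, σ i y * c i = 0 := by
    intro y
    have hy : y ∈ Submodule.span F (Set.range A) := by rw [hspan]; trivial
    induction hy using Submodule.span_induction with
    | mem x hx =>
      obtain ⟨k, rfl⟩ := hx
      exact h1 k
    | zero => simp
    | add x y _ _ hx hy =>
      simp only [map_add, add_mul, Finset.sum_add_distrib]
      rw [hx, hy, add_zero]
    | smul a x _ hx =>
      have : ∀ i, σ i (a • x) * c i = (embF F) a * (σ i x * c i) := by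
        intro i
        rw [Algebra.smul_def, map_mul, h.ovr, mul_assoc]
      rw [Finset.sum_congr rfl fun i _ => this i, ← Finset.mul_sum, hx, mul_zero]
  have hli : LinearIndependent ℂ (fun i : Fin (m + 1) => ((σ i : K →* ℂ) : K → ℂ)) := by
    apply (linearIndependent_monoidHom K ℂ).comp (fun i : Fin (m + 1) => (σ i : K →* ℂ))
    intro i j hij
    apply h.inj
    ext x
    exact DFunLike.congr_fun hij x
  funext i
  refine Fintype.linearIndependent_iff.1 hli c ?_ i
  funext y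
  rw [Finset.sum_apply]
  simp only [Pi.smul_apply, smul_eq_mul, Pi.zero_apply]
  rw [← h2 y]
  refine Finset.sum_congr rfl fun i _ => ?_
  rw [mul_comm]
  rfl

theorem a2_norm_int {σ : Fin (m + 1) → K →+* ℂ} (h : Emb F σ) (x : 𝓞 K) (hx : x ≠ 0) :
    ∃ y : (𝓞 F), y ≠ 0 ∧ (embF F) (Algebra.norm F (x : K)) = (eF F) y := by
  haveI := a1_fin h.fin
  have hi : IsIntegral ℤ (Algebra.norm F (x : K)) := Algebra.isIntegral_norm F x.2
  refine ⟨⟨Algebra.norm F (x : K), hi⟩, ?_, rfl⟩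
  intro h0
  have h1 : Algebra.norm F (x : K) = 0 := congrArg (algebraMap (𝓞 F) F) h0
  rw [Algebra.norm_eq_zero_iff] at h1
  apply hx
  exact RingOfIntegers.coe_injective (h1.trans (map_zero (algebraMap (𝓞 K) K)).symm)

theorem one_le_norm {σ : Fin (m + 1) → K →+* ℂ} (h : Emb F σ) (x : 𝓞 K) (hx : x ≠ 0) :
    1 ≤ ∏ i, ‖σ i (x : K)‖ := by
  obtain ⟨y, hy, hxy⟩ := a2_norm_int h x hx
  rw [← norm_prod, norm_eq h, hxy]
  have h1 := Nm_eq y
  have h2 : 1 ≤ Nm y := by
    rw [Nat.one_le_iff_ne_zero]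
    exact fun h0 => hy (Nm_eq_zero.1 h0)
  have h3 : (1 : ℝ) ≤ Nm y := by exact_mod_cast h2
  rw [h1] at h3
  nlinarith [norm_nonneg ((eF F) y)]

theorem Tr_eq (D : Ctx F K m) (h : Emb F D.σ) (a : K) (x : 𝓞 K) :
    D.Tr a x = (embF F) (Algebra.trace F K ((x : K) * a)) := by
  unfold Ctx.Tr
  exact trace_eq h _

theorem Tr_inj (D : Ctx F K m) (h : Emb F D.σ) (A : Fin (m + 1) → K) (hA : LinearIndependent F A)
    (x y : 𝓞 K) (hxy : ∀ k, D.Tr (A k) x = D.Tr (A k) y) : x = y := by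
  have h1 : (Matrix.of fun k i : Fin (m + 1) => D.σ i (A k)).mulVec
      (fun i => D.σ i ((x - y : 𝓞 K) : K)) = 0 := by
    funext k
    have h2 : D.Tr (A k) (x - y) = 0 := by rw [Ctx.Tr_sub, hxy k, sub_self]
    rw [Pi.zero_apply, ← h2]
    unfold Ctx.Tr
    rw [Matrix.mulVec, dotProduct]
    refine Finset.sum_congr rfl fun i _ => ?_
    rw [map_mul, mul_comm]
    rfl
  have h2 := Matrix.eq_zero_of_mulVec_eq_zero (det_ne h A hA) h1
  have h3 := congrFun h2 0
  have h4 : ((x - y : 𝓞 K) : K) = 0 := by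
    have : D.σ 0 ((x - y : 𝓞 K) : K) = 0 := h3
    exact (map_eq_zero _).1 this
  have h5 : x - y = 0 := RingOfIntegers.coe_injective (h4.trans (map_zero (algebraMap (𝓞 K) K)).symm)
  exact sub_eq_zero.1 h5

/-- Every x has a conjugate of absolute value at least 1, hence sz x <= 2 * (sum of |x_i|). -/
theorem sz_le (D : Ctx F K m) (h : Emb F D.σ) (x : 𝓞 K) (hx : x ≠ 0) :
    1 ≤ ∑ i, ‖D.σ i x‖ ∧ D.sz x ≤ 2 * ∑ i, ‖D.σ i x‖ := by
  have h1 := one_le_norm h x hx
  have h2 : ∃ i, 1 ≤ ‖D.σ i x‖ := by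
    by_contra hc
    push Not at hc
    have h3 : ∏ i, ‖D.σ i (x : K)‖ < ∏ _i : Fin (m + 1), (1 : ℝ) := by
      apply Finset.prod_lt_prod_of_nonempty
      · intro i _
        rw [norm_pos_iff, Ne, map_eq_zero]
        intro h0
        exact hx (RingOfIntegers.coe_injective (h0.trans (map_zero (algebraMap (𝓞 K) K)).symm))
      · intro i _
        exact hc i
      · exact Finset.univ_nonempty
    rw [Finset.prod_const_one] at h3
    linarith
  obtain ⟨i, hi⟩ := h2
  have h3 : ‖D.σ i x‖ ≤ ∑ i, ‖D.σ i x‖ :=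
    Finset.single_le_sum (f := fun i => ‖D.σ i x‖) (fun i _ => norm_nonneg _) (Finset.mem_univ i)
  refine ⟨by linarith, ?_⟩
  unfold Ctx.sz
  linarith

/-- Lower bound for the quadratic forms. -/
theorem Q_low (D : Ctx F K m) (h : Emb F D.σ) (a : ℝ) (ha : 0 < a) : ∃ c : ℝ, 0 < c ∧
    ∀ t : Fin (m + 1) → ℝ, (∀ i, a ≤ t i) → ∀ x : 𝓞 K, x ≠ 0 → c * D.sz x ^ 2 ≤ D.Q t x := by
  refine ⟨a / (4 * (m + 1)), by positivity, fun t ht x hx => ?_⟩
  obtain ⟨h1, h2⟩ := sz_le D h x hx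
  have h3 : (∑ i, ‖D.σ i x‖) ^ 2 ≤ (m + 1) * ∑ i, ‖D.σ i x‖ ^ 2 := by
    have := sq_sum_le_card_mul_sum_sq (s := (Finset.univ : Finset (Fin (m + 1))))
      (f := fun i => ‖D.σ i x‖)
    rw [Finset.card_univ, Fintype.card_fin] at this
    push_cast at this
    exact this
  have h4 : a * ∑ i, ‖D.σ i x‖ ^ 2 ≤ D.Q t x := by
    unfold Ctx.Q
    rw [Finset.mul_sum]
    exact Finset.sum_le_sum fun i _ => mul_le_mul_of_nonneg_right (ht i) (by positivity)
  have h5 : D.sz x ^ 2 ≤ (2 * ∑ i, ‖D.σ i x‖) ^ 2 :=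
    pow_le_pow_left₀ (D.sz_pos x).le h2 2
  have h6 : D.sz x ^ 2 ≤ 4 * ((m + 1) * ∑ i, ‖D.σ i x‖ ^ 2) := by nlinarith
  calc a / (4 * (m + 1)) * D.sz x ^ 2 ≤
      a / (4 * (m + 1)) * (4 * ((m + 1) * ∑ i, ‖D.σ i x‖ ^ 2)) :=
        mul_le_mul_of_nonneg_left h6 (by positivity)
    _ = a * ∑ i, ‖D.σ i x‖ ^ 2 := by field_simp
    _ ≤ _ := h4

/-- Upper bound for the quadratic forms. -/
theorem Q_up (D : Ctx F K m) (b : ℝ) (hb : 0 ≤ b) : ∃ c : ℝ, 0 < c ∧
    ∀ t : Fin (m + 1) → ℝ, (∀ i, |t i| ≤ b) → ∀ x : 𝓞 K, |D.Q t x| ≤ c * D.sz x ^ 2 := by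
  refine ⟨(m + 1) * b + 1, by positivity, fun t ht x => ?_⟩
  have h1 : |D.Q t x| ≤ ∑ _i : Fin (m + 1), b * D.sz x ^ 2 := by
    unfold Ctx.Q
    refine (Finset.abs_sum_le_sum_abs _ _).trans (Finset.sum_le_sum fun i _ => ?_)
    rw [abs_mul, abs_of_nonneg (by positivity : 0 ≤ ‖D.σ i x‖ ^ 2)]
    exact mul_le_mul (ht i) (pow_le_pow_left₀ (norm_nonneg _) (D.norm_le_sz x i) 2)
      (by positivity) hb
  rw [Finset.sum_const, Finset.card_univ, Fintype.card_fin, nsmul_eq_mul] at h1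
  push_cast at h1
  have := sq_nonneg (D.sz x)
  nlinarith

end H55P
end

-- from Lib.H55P.B9
section

open NumberField IsDedekindDomain

namespace H55P

open H55N
open H55B (g)

variable {F : Type} [Field F] [NumberField F] [IQ F] {K : Type} [Field K] [NumberField K] [Algebra F K] {m : ℕ}
  {P ι : Type} [Fintype ι] [DecidableEq ι]

/-! Chunk B9 (M). The sizes and the rows of the labels T t.
sv_sz, sv_gs: sz(x - w) <= sz x + sum_i |σ_i w| <= (1 + C) sz x and conversely (sz >= 1), Fintype ι; gs = 1/sz.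
good_sig: Good.additive (|σ_a x| <= sz x, |σ_a (w_i)| <= C = C sz x * gs x). good_Q: |σ_i x|^2 = σ_i x * conj(σ_i x): Good.mul, Good.conj, Good.smul, Good.sum.
good_row: conj(σ_i x) * t_i * (1/Q): Good.inv with Q_low (0 not in Y), weight sz * sz^(-2) = sz^(-1). -/

theorem B9_sub (D : Ctx F K m) (x y : 𝓞 K) : D.sz (x - y) ≤ D.sz x + D.sz y := by
  unfold Ctx.sz
  have h1 : ∑ i, ‖D.σ i (x - y : 𝓞 K)‖ ≤ ∑ i, (‖D.σ i x‖ + ‖D.σ i y‖) := by
    refine Finset.sum_le_sum fun i _ => ?_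
    have h2 : D.σ i ((x - y : 𝓞 K) : K) = D.σ i x - D.σ i y := by
      simp only [map_sub]
    rw [h2]
    exact norm_sub_le _ _
  rw [Finset.sum_add_distrib] at h1
  linarith

theorem B9_sub' (D : Ctx F K m) (x y : 𝓞 K) : D.sz x ≤ D.sz (x - y) + D.sz y := by
  unfold Ctx.sz
  have h1 : ∑ i, ‖D.σ i x‖ ≤ ∑ i, (‖D.σ i (x - y : 𝓞 K)‖ + ‖D.σ i y‖) := by
    refine Finset.sum_le_sum fun i _ => ?_
    have h2 : D.σ i ((x - y : 𝓞 K) : K) = D.σ i x - D.σ i y := by
      simp only [map_sub]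
    have h3 : D.σ i x = (D.σ i x - D.σ i y) + D.σ i y := by ring
    rw [h2]
    calc ‖D.σ i x‖ = ‖(D.σ i x - D.σ i y) + D.σ i y‖ := by rw [← h3]
      _ ≤ _ := norm_add_le _ _
  rw [Finset.sum_add_distrib] at h1
  linarith

/-- A bound for the sizes of the directions. -/
noncomputable def B9_C (D : Ctx F K m) (w : ι → 𝓞 K) : ℝ := 1 + ∑ i, D.sz (w i)

omit [DecidableEq ι] in
theorem B9_le_C (D : Ctx F K m) (w : ι → 𝓞 K) (i : ι) : 1 + D.sz (w i) ≤ B9_C D w := by
  unfold B9_C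
  have : D.sz (w i) ≤ ∑ i, D.sz (w i) :=
    Finset.single_le_sum (f := fun i => D.sz (w i)) (fun i _ => (D.sz_pos _).le)
      (Finset.mem_univ i)
  linarith

omit [DecidableEq ι] in
theorem B9_one_le_C (D : Ctx F K m) (w : ι → 𝓞 K) : 1 ≤ B9_C D w := by
  unfold B9_C
  have : 0 ≤ ∑ i, D.sz (w i) := Finset.sum_nonneg fun i _ => (D.sz_pos _).le
  linarith

omit [DecidableEq ι] in
theorem B9_sz (D : Ctx F K m) (w : ι → 𝓞 K) (x : 𝓞 K) (i : ι) :
    D.sz (x - w i) ≤ B9_C D w * D.sz x ∧ D.sz x ≤ B9_C D w * D.sz (x - w i) := by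
  have h1 := B9_sub D x (w i)
  have h2 := B9_sub' D x (w i)
  have h3 := B9_le_C D w i
  have h4 := D.one_le_sz x
  have h5 := D.one_le_sz (x - w i)
  have h6 := D.sz_pos (w i)
  constructor <;> nlinarith

theorem sv_sz (D : Ctx F K m) (w : ι → 𝓞 K) (Y : Set (𝓞 K)) :
    SV Y w fun (_ : P) x => D.sz x := by
  refine ⟨fun _ x _ => D.sz_pos x, B9_C D w, ?_⟩
  intro _ x _ i
  exact B9_sz D w x i

theorem sv_gs (D : Ctx F K m) (w : ι → 𝓞 K) (Y : Set (𝓞 K)) :
    SV Y w (D.gs : ι → 𝓞 K → ℝ) := by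
  refine ⟨fun _ x _ => inv_pos.mpr (D.sz_pos x), B9_C D w, ?_⟩
  intro _ x _ i
  obtain ⟨h1, h2⟩ := B9_sz D w x i
  have h3 := D.sz_pos x
  have h4 := D.sz_pos (x - w i)
  unfold Ctx.gs
  constructor
  · rw [← div_eq_mul_inv, le_div_iff₀ h3, inv_mul_le_iff₀ h4]
    linarith
  · rw [← div_eq_mul_inv, le_div_iff₀ h4, inv_mul_le_iff₀ h3]
    linarith

theorem good_sig (D : Ctx F K m) (w : ι → 𝓞 K) (Y : Set (𝓞 K)) (a : Fin (m + 1)) :
    Good Y w D.gs (fun (_ : P) x => D.sz x) (fun _ x => D.σ a x) := by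
  apply Good.additive (fun _ x _ => (D.sz_pos x).le) (fun _ x _ => (inv_pos.mpr (D.sz_pos x)).le)
    (fun _ x y => by simp only [map_sub]) (B9_C D w)
  · intro _ x _
    have h1 := D.norm_le_sz x a
    have h2 := B9_one_le_C D w
    have h3 := D.sz_pos x
    nlinarith
  · intro _ x _ i
    have h1 := D.norm_le_sz (w i) a
    have h2 := B9_le_C D w i
    have h3 := D.sz_pos x
    have h4 : B9_C D w * D.sz x * (D.sz x)⁻¹ = B9_C D w := by
      field_simp
    show _ ≤ B9_C D w * D.sz x * (D.sz x)⁻¹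
    rw [h4]
    linarith

theorem good_Q (D : Ctx F K m) (w : ι → 𝓞 K) (Y : Set (𝓞 K)) (hY : ∀ x ∈ Y, ∀ i, x - w i ∈ Y)
    (t : P → Fin (m + 1) → ℝ) (b : ℝ) (hb : ∀ q i, |t q i| ≤ b) :
    Good Y w D.gs (fun (_ : P) x => D.sz x ^ 2) (fun q x => (D.Q (t q) x : ℂ)) := by
  have hg : ∀ (i : ι), ∀ x ∈ Y, 0 ≤ D.gs i x := fun _ x _ => (inv_pos.mpr (D.sz_pos x)).le
  have h1 : ∀ i : Fin (m + 1), Good Y w D.gs (fun (_ : P) x => D.sz x ^ 2)
      (fun (q : P) (x : 𝓞 K) => (t q i : ℂ) * (D.σ i x * (starRingEnd ℂ) (D.σ i x))) := by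
    intro i
    have h2 := Good.mul hY (sv_gs D w Y) (sv_sz (P := P) D w Y) (sv_sz (P := P) D w Y)
      (good_sig D w Y i) (Good.conj (good_sig D w Y i))
    have h3 := Good.smul h2 hg (fun _ x _ => mul_nonneg (D.sz_pos x).le (D.sz_pos x).le)
      (fun q => (t q i : ℂ)) b (fun q => by
        rw [Complex.norm_real, Real.norm_eq_abs]
        exact hb q i)
    have h4 : (fun (_ : P) (x : 𝓞 K) => D.sz x ^ 2) = fun _ x => D.sz x * D.sz x := by
      funext _ x
      ring
    rw [h4]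
    exact h3
  have h5 := Good.sum (Finset.univ : Finset (Fin (m + 1))) _ (fun i _ => h1 i) hg
    (fun _ x _ => by positivity)
  have h6 : (fun (q : P) (x : 𝓞 K) => (D.Q (t q) x : ℂ)) =
      fun (q : P) (x : 𝓞 K) => ∑ i, (t q i : ℂ) * (D.σ i x * (starRingEnd ℂ) (D.σ i x)) := by
    funext q x
    unfold Ctx.Q
    rw [Complex.ofReal_sum]
    refine Finset.sum_congr rfl fun i _ => ?_
    rw [Complex.mul_conj, Complex.normSq_eq_norm_sq]
    push_cast
    ring
  rw [h6]
  exact h5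

theorem good_row (D : Ctx F K m) (hE : Emb F D.σ) (w : ι → 𝓞 K) (Y : Set (𝓞 K))
    (hY : ∀ x ∈ Y, ∀ i, x - w i ∈ Y) (h0 : (0 : 𝓞 K) ∉ Y) (t : P → Fin (m + 1) → ℝ) (a b : ℝ)
    (ha : 0 < a) (ht : ∀ q i, a ≤ t q i ∧ t q i ≤ b) (i : Fin (m + 1)) :
    Good Y w D.gs (fun (_ : P) x => (D.sz x)⁻¹) (fun q x => D.row (.T (t q)) x i) := by
  have hg : ∀ (i : ι), ∀ x ∈ Y, 0 ≤ D.gs i x := fun _ x _ => (inv_pos.mpr (D.sz_pos x)).le
  have hb : ∀ q i, |t q i| ≤ b := by
    intro q i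
    rw [abs_of_nonneg (by linarith [(ht q i).1])]
    exact (ht q i).2
  obtain ⟨c, hc, hlow⟩ := Q_low D hE a ha
  have h1 := Good.inv hY (sv_gs D w Y) (SV.pow hY (sv_sz (P := P) D w Y) 2)
    (good_Q D w Y hY t b hb) c hc (by
      intro q x hx
      have hx0 : x ≠ 0 := by
        rintro rfl
        exact h0 hx
      have h2 := hlow (t q) (fun i => (ht q i).1) x hx0
      rw [Complex.norm_real, Real.norm_eq_abs]
      exact h2.trans (le_abs_self _))
  have h2 := Good.smul h1 hg (fun _ x _ => by positivity) (fun q => (t q i : ℂ)) b (fun q => by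
        rw [Complex.norm_real, Real.norm_eq_abs]
        exact hb q i)
  have h3 := Good.mul hY (sv_gs D w Y) (sv_sz (P := P) D w Y)
    (SV.inv hY (SV.pow hY (sv_sz (P := P) D w Y) 2)) (Good.conj (good_sig D w Y i)) h2
  have h4 : (fun (_ : P) (x : 𝓞 K) => (D.sz x)⁻¹) = fun _ x => D.sz x * (D.sz x ^ 2)⁻¹ := by
    funext _ x
    have := D.sz_pos x
    field_simp
  have h5 : (fun (q : P) (x : 𝓞 K) => D.row (.T (t q)) x i) =
      fun (q : P) (x : 𝓞 K) =>
        (starRingEnd ℂ) (D.σ i x) * ((t q i : ℂ) * (D.Q (t q) x : ℂ)⁻¹) := by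
    funext q x
    show (starRingEnd ℂ) (D.σ i x) * (t q i) / D.Q (t q) x = _
    rw [div_eq_mul_inv, mul_assoc]
  rw [h4, h5]
  exact h3

end H55P
end
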