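import Mathlib
import Pool.Agent.Lib.H1M.PP.D_H55B_Defs
import Pool.Agent.Lib.H1M.PP.D_H55P_Sel

/-! Merged copies (to shorten the build) of Lib.H16A.Defs, Lib.H16A.V0, Lib.H16A.V1, Lib.H55N.B13, Lib.H55N.U0, Lib.H55K.W0, Lib.H55K.W1A, Lib.H55R.HA4, Lib.H55K.W1B, Lib.H35T.Defs, Lib.H55P.S1, Lib.H55P.S4, Lib.H55B.E0, Lib.H55B.F2, Lib.H55B.F3, Lib.H55B.F1. -/

-- from Lib.H16A.Defs
section

/-!
# H16A: definitions

`E : Cub` is the integral monic cubic `f = X³ + a X² + b X + c`; the elliptic curve is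
`y² = x³ + a x² + b x + c` (`E.disc ≠ 0`).  Every elliptic curve over `ℚ` has such a model.

For a ring `L`, `E.Alg L = L[X]/(f)`, `E.th L` is the class `θ` of `X`.
For a field `L` the descent map of the curve sends `P = (x, y)` to the class of `x - θ` in
`(L[θ])ˣ / squares`; `E.Rel L u P` says that the unit `u` of `L[θ]` lies in the class of `P`:
the norm of `u` is a square and `u z² = x - θ` for some `z ∈ L[θ]` (this determines the class of `u`,
also if `P` is a `2`-torsion point).
-/

open Polynomial IsDedekindDomain NumberField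

namespace H16A

/-- The integral monic cubic `X³ + a X² + b X + c`. -/
@[ext] structure Cub where
  /-- coefficient of `X²` -/
  a : ℤ
  /-- coefficient of `X` -/
  b : ℤ
  /-- constant coefficient -/
  c : ℤ

/-- The group of square classes of a field. -/
def SqC (M : Type*) [Field M] : Type _ := Mˣ ⧸ (powMonoidHom 2 : Mˣ →* Mˣ).range

noncomputable instance SqC.instCommGroup (M : Type*) [Field M] : CommGroup (SqC M) :=
  QuotientGroup.Quotient.commGroup _

/-- The class of a unit. -/
def sqMk (M : Type*) [Field M] : Mˣ →* SqC M where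
  toFun u := (QuotientGroup.mk u : Mˣ ⧸ (powMonoidHom 2 : Mˣ →* Mˣ).range)
  map_one' := rfl
  map_mul' _ _ := rfl

theorem sqMk_surjective (M : Type*) [Field M] : Function.Surjective (sqMk M) :=
  fun x => Quotient.exists_rep x

theorem sqMk_eq_one_iff {M : Type*} [Field M] (u : Mˣ) : sqMk M u = 1 ↔ IsSquare (u : M) := by
  have h : sqMk M u = 1 ↔ u ∈ (powMonoidHom 2 : Mˣ →* Mˣ).range :=
    QuotientGroup.eq_one_iff (N := (powMonoidHom 2 : Mˣ →* Mˣ).range) u
  rw [h]
  constructor
  · rintro ⟨v, rfl⟩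
    exact ⟨(v : M), by simp [powMonoidHom, pow_two]⟩
  · rintro ⟨m, hm⟩
    have hm0 : m ≠ 0 := by
      rintro rfl
      exact u.ne_zero (by simp at hm)
    exact ⟨Units.mk0 m hm0, Units.ext (by simp [powMonoidHom, pow_two, hm])⟩

/-- The square class of `m` (`1` if `m = 0`). -/
noncomputable def cls {M : Type*} [Field M] (m : M) : SqC M :=
  open Classical in if h : m = 0 then 1 else sqMk M (Units.mk0 m h)

/-- The map of the groups of square classes induced by a homomorphism of fields. -/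
noncomputable def sqMap {L L' : Type*} [Field L] [Field L'] (φ : L →+* L') : SqC L →* SqC L' :=
  let g : (Lˣ ⧸ (powMonoidHom 2 : Lˣ →* Lˣ).range) →* (L'ˣ ⧸ (powMonoidHom 2 : L'ˣ →* L'ˣ).range) :=
    QuotientGroup.map _ _ (Units.map (φ : L →* L')) (by
      rintro _ ⟨u, rfl⟩
      exact ⟨Units.map (φ : L →* L') u, by simp⟩)
  { toFun := g
    map_one' := map_one g
    map_mul' := map_mul g }

theorem sqMap_mk {L L' : Type*} [Field L] [Field L'] (φ : L →+* L') (u : Lˣ) :
    sqMap φ (sqMk L u) = sqMk L' (Units.map (φ : L →* L') u) := rfl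

/-- The subgroup of the squares in the group of units of a ring. -/
def sqSub (A : Type*) [CommRing A] : Subgroup Aˣ := (powMonoidHom 2 : Aˣ →* Aˣ).range

/-- The subgroup `2 G` of an additive group. -/
def twoG (G : Type*) [AddCommGroup G] : AddSubgroup G := (nsmulAddMonoidHom 2 : G →+ G).range

namespace Cub

variable (E : Cub)

/-- The discriminant of `X³ + a X² + b X + c`. -/
def disc : ℤ :=
  E.a ^ 2 * E.b ^ 2 - 4 * E.b ^ 3 - 4 * E.a ^ 3 * E.c - 27 * E.c ^ 2 + 18 * E.a * E.b * E.c

/-- The cubic `f` over a commutative ring. -/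
noncomputable def poly (L : Type*) [CommRing L] : L[X] :=
  X ^ 3 + C (E.a : L) * X ^ 2 + C (E.b : L) * X + C (E.c : L)

/-- The value `f(x)`. -/
def val {L : Type*} [CommRing L] (x : L) : L := x ^ 3 + E.a * x ^ 2 + E.b * x + E.c

/-- The value `f'(x)`. -/
def der {L : Type*} [CommRing L] (x : L) : L := 3 * x ^ 2 + 2 * E.a * x + E.b

/-- The Weierstrass curve `y² = x³ + a x² + b x + c` over `ℤ`. -/
def W : WeierstrassCurve.Affine ℤ where
  a₁ := 0
  a₂ := E.a
  a₃ := 0
  a₄ := E.b
  a₆ := E.c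

/-- The points of the curve over the field `L` (Mathlib's type of points). -/
abbrev Pt (L : Type*) [Field L] : Type _ :=
  (WeierstrassCurve.Affine.baseChange E.W L).Point

/-- The quadratic twist `y² = x³ + a d x² + b d² x + c d³`. -/
def twist (d : ℤ) : Cub := ⟨E.a * d, E.b * d ^ 2, E.c * d ^ 3⟩

/-- The algebra `L[θ] = L[X]/(f)`. -/
abbrev Alg (L : Type*) [CommRing L] : Type _ := AdjoinRoot (E.poly L)

/-- The class `θ` of `X` in `L[X]/(f)`. -/
noncomputable def th (L : Type*) [CommRing L] : E.Alg L := AdjoinRoot.root (E.poly L)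

theorem poly_map {L L' : Type*} [CommRing L] [CommRing L'] (φ : L →+* L') :
    (E.poly L).map φ = E.poly L' := by
  simp [poly, Polynomial.map_add, Polynomial.map_mul]

theorem poly_monic (L : Type*) [CommRing L] : (E.poly L).Monic := by
  unfold poly
  monicity!

theorem eval_poly {L : Type*} [CommRing L] (x : L) : (E.poly L).eval x = E.val x := by
  simp only [poly, val, eval_add, eval_mul, eval_pow, eval_X, eval_C]

/-- The ring homomorphism `L[θ] → L'[θ]` induced by `φ : L → L'`. -/
noncomputable def algMap {L L' : Type*} [CommRing L] [CommRing L'] (φ : L →+* L') :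
    E.Alg L →+* E.Alg L' :=
  AdjoinRoot.map φ (E.poly L) (E.poly L') (by rw [E.poly_map φ])

/-- The ring homomorphism `L[θ] → L'`, `θ ↦ e`, for a ring homomorphism `φ : L → L'` and a root
`e` of `f` in `L'`. -/
noncomputable def evAt {L L' : Type*} [CommRing L] [CommRing L'] (φ : L →+* L') (e : L')
    (he : E.val e = 0) : E.Alg L →+* L' :=
  AdjoinRoot.lift φ e (by
    simp only [poly, eval₂_add, eval₂_mul, eval₂_pow, eval₂_X, eval₂_C]
    simp only [map_intCast]
    exact he)

/-- `E.Rel L u P`: the unit `u` of `L[θ]` lies in the class of the point `P`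
(see the head of the file). -/
def Rel (L : Type*) [Field L] (u : (E.Alg L)ˣ) : E.Pt L → Prop
  | .zero => IsSquare (u : E.Alg L)
  | .some x _ _ => IsSquare (Algebra.norm L (u : E.Alg L)) ∧
      ∃ z : E.Alg L, (u : E.Alg L) * z ^ 2 = algebraMap L (E.Alg L) x - E.th L

/-- The image of the descent map: the subgroup of the units of `L[θ]` generated by the classes of
the points of `E(L)` (it is the union of these classes, see `mem_imSub_iff`). -/
noncomputable def imSub (L : Type*) [Field L] : Subgroup (E.Alg L)ˣ :=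
  Subgroup.closure {u | ∃ P : E.Pt L, E.Rel L u P}

/-- The homomorphism of groups of units `(L[θ])ˣ → (L'[θ])ˣ` induced by `φ : L → L'`. -/
noncomputable def uMap {L L' : Type*} [CommRing L] [CommRing L'] (φ : L →+* L') :
    (E.Alg L)ˣ →* (E.Alg L')ˣ :=
  Units.map (E.algMap φ : E.Alg L →* E.Alg L')

/-- The units of `L[θ]` whose norm is a square.  (Modulo squares this is `H¹(L, E[2])`.) -/
noncomputable def normSq (L : Type*) [Field L] : Subgroup (E.Alg L)ˣ where
  carrier := {u | IsSquare (Algebra.norm L (u : E.Alg L))}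
  one_mem' := by simp
  mul_mem' := by
    intro u v hu hv
    simp only [Set.mem_ofPred_eq, Units.val_mul, map_mul] at *
    exact hu.mul hv
  inv_mem' := by
    intro u hu
    simp only [Set.mem_ofPred_eq] at *
    have h1 : Algebra.norm L (u : E.Alg L) * Algebra.norm L ((u⁻¹ : (E.Alg L)ˣ) : E.Alg L) = 1 := by
      rw [← map_mul, Units.mul_inv, map_one]
    obtain ⟨r, hr⟩ := hu
    have h2 : Algebra.norm L ((u⁻¹ : (E.Alg L)ˣ) : E.Alg L) = (Algebra.norm L (u : E.Alg L))⁻¹ :=
      (eq_inv_of_mul_eq_one_right h1)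
    rw [h2, hr]
    exact ⟨r⁻¹, by rw [mul_inv]⟩

/-- The `2`-Selmer group of the curve over the number field `K`, as a subgroup of the units of
`K[θ]` containing the squares: the units of square norm that lie in the image of the descent map
over every completion of `K`. -/
noncomputable def selSub (K : Type*) [Field K] [NumberField K] : Subgroup (E.Alg K)ˣ :=
  E.normSq K ⊓ ((⨅ v : HeightOneSpectrum (𝓞 K),
    (E.imSub (v.adicCompletion K)).comap (E.uMap (algebraMap K (v.adicCompletion K)))) ⊓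
  (⨅ v : InfinitePlace K,
    (E.imSub v.Completion).comap (E.uMap (algebraMap K v.Completion))))

/-- The group `Ш(E/K)[2]`: the `2`-Selmer group modulo the image of `E(K)`. -/
abbrev Sha2 (K : Type*) [Field K] [NumberField K] : Type _ :=
  ↥(E.selSub K) ⧸ (E.imSub K).subgroupOf (E.selSub K)

/-- `f` has three distinct roots modulo `p`. -/
def RootsMod (p : ℕ) : Prop :=
  ∃ m : Fin 3 → ℤ, (∀ i, (p : ℤ) ∣ E.val (m i)) ∧ ∀ i j, i ≠ j → ¬ (p : ℤ) ∣ m i - m j

/-- The unit `h` of `ℚ[θ]` is a unit of `ℤ_(p)[θ]` for all primes `p` outside `T` and prime to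
`2 disc(f)`. -/
def GoodAway (T : Finset ℕ) (h : (E.Alg ℚ)ˣ) : Prop :=
  ∀ p : ℕ, p.Prime → ¬ (p : ℤ) ∣ 2 * E.disc → p ∉ T → ∃ n : ℕ, ¬ p ∣ n ∧ ∃ k k' : ℤ[X],
    (n : E.Alg ℚ) * (h : E.Alg ℚ) = aeval (E.th ℚ) k ∧
    (n : E.Alg ℚ) * ((h⁻¹ : (E.Alg ℚ)ˣ) : E.Alg ℚ) = aeval (E.th ℚ) k'

/-- The unit `h` of `ℚ[θ]` is congruent to `1` modulo `8 disc(f)` at the primes dividing
`2 disc(f)`. -/
def OneAt (h : (E.Alg ℚ)ˣ) : Prop :=
  ∃ n : ℕ, IsCoprime (n : ℤ) (2 * E.disc) ∧ ∃ k : ℤ[X],
    (n : E.Alg ℚ) * ((h : E.Alg ℚ) - 1) = 8 * (E.disc : E.Alg ℚ) * aeval (E.th ℚ) k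

/-- The homomorphism `E(L) → E(L')` induced by a homomorphism of fields. -/
noncomputable def ptMap {L L' : Type*} [Field L] [Field L'] [DecidableEq L] [DecidableEq L']
    (φ : L →+* L') : E.Pt L →+ E.Pt L' :=
  WeierstrassCurve.Affine.Point.map (W' := E.W) φ.toIntAlgHom

/-- The component of the descent map at the root `e` of `f`: the class of `x - e`, and the class of
`f'(e)` at the point `(e, 0)`. -/
noncomputable def dl {M : Type*} [Field M] (e : M) : E.Pt M → SqC M
  | .zero => 1
  | .some x _ _ => open Classical in if x = e then cls (E.der e) else cls (x - e)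

end Cub

section NumberField

variable {F : Type*} [Field F] [NumberField F]

/-- The normalised additive valuation at `w` (`0` at `x = 0`). -/
noncomputable def ord (w : HeightOneSpectrum (𝓞 F)) (x : F) : ℤ := -(w.valuation F x).log

/-- The parity of the valuation at `w` of a square class. -/
noncomputable def par (w : HeightOneSpectrum (𝓞 F)) : SqC F →* Multiplicative (ZMod 2) where
  toFun := w.valuationOfNeZeroMod 2
  map_one' := map_one (w.valuationOfNeZeroMod 2 : (Fˣ ⧸ (powMonoidHom 2 : Fˣ →* Fˣ).range) →* _)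
  map_mul' := map_mul (w.valuationOfNeZeroMod 2 : (Fˣ ⧸ (powMonoidHom 2 : Fˣ →* Fˣ).range) →* _)

end NumberField

/-- The number field `F` is the splitting field of `f`, with the roots `e 0, e 1, e 2`. -/
structure Split (E : Cub) (F : Type) [Field F] [NumberField F] where
  /-- the roots -/
  e : Fin 3 → F
  poly_eq : E.poly F = ∏ i, (X - C (e i))
  inj : Function.Injective e
  gen : IntermediateField.adjoin ℚ (Set.range e) = ⊤

namespace Split

variable {E : Cub} {F : Type} [Field F] [NumberField F] (S : Split E F)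

include S in
theorem root (i : Fin 3) : E.val (S.e i) = 0 := by
  rw [← E.eval_poly, S.poly_eq, eval_prod]
  exact Finset.prod_eq_zero (Finset.mem_univ i) (by simp)

/-- The homomorphism `ℚ[θ] → F`, `θ ↦ e i`. -/
noncomputable def ev (i : Fin 3) : E.Alg ℚ →+* F := E.evAt (algebraMap ℚ F) (S.e i) (S.root i)

theorem exists_perm (σ : F ≃ₐ[ℚ] F) : ∃ π : Equiv.Perm (Fin 3), ∀ i, σ (S.e i) = S.e (π i) := by
  have h : ∀ i, ∃ j, σ (S.e i) = S.e j := by
    intro i
    have h1 : E.val (σ (S.e i)) = 0 := by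
      have h2 := congrArg σ (S.root i)
      simpa [Cub.val] using h2
    rw [← E.eval_poly, S.poly_eq, eval_prod, Finset.prod_eq_zero_iff] at h1
    obtain ⟨j, -, hj⟩ := h1
    refine ⟨j, ?_⟩
    simpa [sub_eq_zero] using hj
  choose f hf using h
  have hinj : Function.Injective f := by
    intro i j hij
    have h3 : σ (S.e i) = σ (S.e j) := by rw [hf, hf, hij]
    exact S.inj (σ.injective h3)
  exact ⟨Equiv.ofBijective f ⟨hinj, Finite.surjective_of_injective hinj⟩, hf⟩

/-- The permutation of the roots induced by `σ`: `σ (e i) = e (perm σ i)`. -/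
noncomputable def perm (σ : F ≃ₐ[ℚ] F) : Equiv.Perm (Fin 3) := (S.exists_perm σ).choose

theorem perm_spec (σ : F ≃ₐ[ℚ] F) (i : Fin 3) : σ (S.e i) = S.e (S.perm σ i) :=
  (S.exists_perm σ).choose_spec i

/-- `c_J(α)_i = ∏_{j ∈ J} ∏_{σ : σ e_j = e_i} σ(α)`. -/
noncomputable def cJ (J : Finset (Fin 3)) (α : F) (i : Fin 3) : F :=
  open Classical in
  ∏ j ∈ J, ∏ σ ∈ (Finset.univ : Finset (F ≃ₐ[ℚ] F)).filter (fun σ => S.perm σ j = i), σ α

/-- `p` is a prime, prime to `2 disc(f)`, and `w` is a prime of `F` above `p` of degree one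
(then `f` splits completely modulo `p`, and `p` splits completely in `F`). -/
structure SplP (S : Split E F) (p : ℕ) (w : HeightOneSpectrum (𝓞 F)) : Prop where
  prime : p.Prime
  good : ¬ (p : ℤ) ∣ 2 * E.disc
  ker : ∃ φ : 𝓞 F →+* ZMod p, RingHom.ker φ = w.asIdeal

/-- The three components over `F` of the descent map of the twist `E^D` on `E^D(ℚ)`. -/
noncomputable def beta (D : ℤ) (P : (E.twist D).Pt ℚ) (i : Fin 3) : SqC F :=
  open Classical in
  (E.twist D).dl ((D : F) * S.e i) ((E.twist D).ptMap (algebraMap ℚ F) P)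

/-- The image of `E^D(ℚ)` (the subgroup generated by it; it is equal to the image). -/
noncomputable def G (D : ℤ) : Subgroup (Fin 3 → SqC F) :=
  Subgroup.closure (Set.range fun P : (E.twist D).Pt ℚ => S.beta D P)

/-- The triples of square classes with product one, compatible with the Galois action and
unramified outside `2 disc(f)` and the primes of `T`. -/
noncomputable def Hs (T : Finset ℕ) : Subgroup (Fin 3 → SqC F) where
  carrier := {b | ∏ i, b i = 1 ∧
    (∀ (σ : F ≃ₐ[ℚ] F) (i : Fin 3), sqMap (σ : F →+* F) (b i) = b (S.perm σ i)) ∧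
    ∀ w : HeightOneSpectrum (𝓞 F),
      (∀ p : ℕ, p.Prime → (p : 𝓞 F) ∈ w.asIdeal → ¬ (p : ℤ) ∣ 2 * E.disc ∧ p ∉ T) →
      ∀ i, par w (b i) = 1}
  one_mem' := by
    refine ⟨by simp, fun σ i => by simp, fun w _ i => by simp⟩
  mul_mem' := by
    rintro b c ⟨h1, h2, h3⟩ ⟨k1, k2, k3⟩
    refine ⟨?_, fun σ i => ?_, fun w hw i => ?_⟩
    · have h4 : ∏ i, (b * c) i = (∏ i, b i) * ∏ i, c i := Finset.prod_mul_distrib
      rw [h4, h1, k1]
      exact one_mul 1
    · simp only [Pi.mul_apply, map_mul, h2, k2]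
    · simp only [Pi.mul_apply, map_mul, h3 w hw i, k3 w hw i, mul_one]
  inv_mem' := by
    rintro b ⟨h1, h2, h3⟩
    refine ⟨?_, fun σ i => ?_, fun w hw i => ?_⟩
    · have h4 : ∏ i, (b⁻¹ * b) i = (∏ i, b⁻¹ i) * ∏ i, b i := Finset.prod_mul_distrib
      rw [h1, inv_mul_cancel] at h4
      have h5 : ∏ i : Fin 3, (1 : Fin 3 → SqC F) i = 1 := Finset.prod_const_one
      rw [h5] at h4
      exact ((mul_one _).symm.trans h4.symm)
    · simp only [Pi.inv_apply, map_inv, h2]
    · simp only [Pi.inv_apply, map_inv, h3 w hw i, inv_one]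

end Split

/-- The conjugate prime `σ⁻¹(w)`. -/
noncomputable def cj {F : Type*} [Field F] [NumberField F] (σ : F ≃ₐ[ℚ] F)
    (w : HeightOneSpectrum (𝓞 F)) : HeightOneSpectrum (𝓞 F) where
  asIdeal := w.asIdeal.comap (RingOfIntegers.mapRingEquiv (σ : F ≃+* F) : 𝓞 F →+* 𝓞 F)
  isPrime := by
    have := w.isPrime
    exact Ideal.comap_isPrime _ _
  ne_bot := by
    intro h
    apply w.ne_bot
    rw [eq_bot_iff]
    intro x hx
    have h1 : (RingOfIntegers.mapRingEquiv (σ : F ≃+* F)).symm x ∈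
        w.asIdeal.comap (RingOfIntegers.mapRingEquiv (σ : F ≃+* F) : 𝓞 F →+* 𝓞 F) := by
      rw [Ideal.mem_comap]
      simpa using hx
    rw [h] at h1
    have h2 : (RingOfIntegers.mapRingEquiv (σ : F ≃+* F)).symm x = 0 := by simpa using h1
    have h3 := congrArg (RingOfIntegers.mapRingEquiv (σ : F ≃+* F)) h2
    simpa using h3

end H16A
end

-- from Lib.H16A.V0
section

/-!
# V0 (S): square classes, basic API

Elementary: `cls m` is the class of `m ≠ 0` in `Mˣ / squares`; use `sqMk_eq_one_iff`,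
`sqMk_surjective`, `sqMap_mk` of `Defs.lean`.
-/

open Polynomial IsDedekindDomain NumberField

namespace H16A

section Classes

variable {M : Type*} [Field M]

theorem cls_eq {m : M} (h : m ≠ 0) : cls m = sqMk M (Units.mk0 m h) := by
  simp [cls, h]

theorem v0_cls_zero : cls (0 : M) = 1 := by
  simp [cls]

theorem cls_mul {m n : M} (hm : m ≠ 0) (hn : n ≠ 0) : cls (m * n) = cls m * cls n := by
  rw [cls_eq hm, cls_eq hn, cls_eq (mul_ne_zero hm hn), ← map_mul]
  congr 1
  exact Units.ext rfl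

theorem cls_eq_one_iff {m : M} (hm : m ≠ 0) : cls m = 1 ↔ IsSquare m := by
  rw [cls_eq hm, sqMk_eq_one_iff, Units.val_mk0]

theorem sqC_mul_self (x : SqC M) : x * x = 1 := by
  obtain ⟨u, rfl⟩ := sqMk_surjective M x
  rw [← map_mul, sqMk_eq_one_iff]
  exact ⟨(u : M), Units.val_mul u u⟩

/-- `m` and `n` have the same class iff `m n` is a square -/
theorem cls_eq_cls_iff {m n : M} (hm : m ≠ 0) (hn : n ≠ 0) : cls m = cls n ↔ IsSquare (m * n) := by
  rw [← cls_eq_one_iff (mul_ne_zero hm hn), cls_mul hm hn]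
  constructor
  · intro h
    rw [h, sqC_mul_self]
  · intro h
    have h1 := congrArg (fun z => z * cls n) h
    simp only [mul_assoc, sqC_mul_self, mul_one, one_mul] at h1
    exact h1

theorem cls_surj (x : SqC M) : ∃ m : M, m ≠ 0 ∧ cls m = x := by
  obtain ⟨u, rfl⟩ := sqMk_surjective M x
  refine ⟨(u : M), u.ne_zero, ?_⟩
  rw [cls_eq u.ne_zero, Units.mk0_val]

theorem sqMap_cls {L : Type*} [Field L] (φ : M →+* L) (m : M) : sqMap φ (cls m) = cls (φ m) := by
  by_cases h : m = 0
  · subst h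
    rw [map_zero, v0_cls_zero, v0_cls_zero, map_one]
  · have h' : φ m ≠ 0 := (map_ne_zero φ).2 h
    rw [cls_eq h, cls_eq h', sqMap_mk]
    congr 1
    exact Units.ext rfl

theorem mem_sqSub_iff {A : Type*} [CommRing A] (u : Aˣ) : u ∈ sqSub A ↔ IsSquare (u : A) := by
  unfold sqSub
  rw [MonoidHom.mem_range]
  constructor
  · rintro ⟨v, rfl⟩
    exact ⟨(v : A), by simp [powMonoidHom, pow_two]⟩
  · rintro ⟨a, ha⟩
    have h1 : IsUnit (a * a) := ha ▸ u.isUnit
    have h2 : IsUnit a := isUnit_of_mul_isUnit_left h1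
    obtain ⟨v, rfl⟩ := h2
    exact ⟨v, Units.ext (by simp [powMonoidHom, pow_two, ha])⟩

end Classes

end H16A
end

-- from Lib.H16A.V1
section

/-!
# V1 (M): the additive valuations `ord w` of a number field, basic API

`ord w x = - log (w.valuation F x)`; use `WithZero.log_mul`, `WithZero.log_pow`,
`Valuation.map_add`, `HeightOneSpectrum.valuation_le_one`, `valuationOfNeZero_eq`,
`HeightOneSpectrum.valuation_lt_one_iff_mem`, `HeightOneSpectrum.valuation_exists_uniformizer`.
For `par_cls` unfold `par`, `valuationOfNeZeroMod` (as in Mathlib's `SelmerGroup.lean`).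
-/

open Polynomial IsDedekindDomain NumberField

namespace H16A

section Ord

variable {F : Type*} [Field F] [NumberField F] (w : HeightOneSpectrum (𝓞 F))

theorem v1_ne {x : F} (hx : x ≠ 0) : w.valuation F x ≠ 0 := (Valuation.ne_zero_iff _).2 hx

theorem ord_mul {x y : F} (hx : x ≠ 0) (hy : y ≠ 0) : ord w (x * y) = ord w x + ord w y := by
  unfold ord
  rw [map_mul, WithZero.log_mul (v1_ne w hx) (v1_ne w hy)]
  ring

theorem ord_one : ord w (1 : F) = 0 := by
  unfold ord
  rw [map_one, WithZero.log_one, neg_zero]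

theorem ord_inv (x : F) : ord w x⁻¹ = - ord w x := by
  unfold ord
  rw [map_inv₀, WithZero.log_inv]

theorem ord_div {x y : F} (hx : x ≠ 0) (hy : y ≠ 0) : ord w (x / y) = ord w x - ord w y := by
  rw [div_eq_mul_inv, ord_mul w hx (inv_ne_zero hy), ord_inv, sub_eq_add_neg]

theorem ord_pow (x : F) (n : ℕ) : ord w (x ^ n) = n * ord w x := by
  unfold ord
  rw [map_pow, WithZero.log_pow, nsmul_eq_mul]
  ring

theorem ord_neg (x : F) : ord w (-x) = ord w x := by
  unfold ord
  rw [Valuation.map_neg]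

theorem ord_prod {ι : Type*} (s : Finset ι) (f : ι → F) (h : ∀ i ∈ s, f i ≠ 0) :
    ord w (∏ i ∈ s, f i) = ∑ i ∈ s, ord w (f i) := by
  classical
  induction s using Finset.induction_on with
  | empty => simp [ord_one]
  | insert a s ha ih =>
    rw [Finset.prod_insert ha, Finset.sum_insert ha, ord_mul w (h a (Finset.mem_insert_self _ _))
      (Finset.prod_ne_zero_iff.2 fun i hi => h i (Finset.mem_insert_of_mem hi)),
      ih fun i hi => h i (Finset.mem_insert_of_mem hi)]

theorem v1_le_iff {x y : F} (hx : x ≠ 0) (hy : y ≠ 0) :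
    ord w x ≤ ord w y ↔ w.valuation F y ≤ w.valuation F x := by
  unfold ord
  rw [neg_le_neg_iff, WithZero.log_le_log (v1_ne w hy) (v1_ne w hx)]

theorem v1_lt_iff {x y : F} (hx : x ≠ 0) (hy : y ≠ 0) :
    ord w x < ord w y ↔ w.valuation F y < w.valuation F x := by
  unfold ord
  rw [neg_lt_neg_iff, WithZero.log_lt_log (v1_ne w hy) (v1_ne w hx)]

theorem le_ord_add {x y : F} (h : x + y ≠ 0) (hx : x ≠ 0) (hy : y ≠ 0) :
    min (ord w x) (ord w y) ≤ ord w (x + y) := by
  rw [min_le_iff, v1_le_iff w hx h, v1_le_iff w hy h]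
  exact le_max_iff.1 ((w.valuation F).map_add x y)

/-- if the two orders are different, the order of the sum is the minimum -/
theorem ord_add_of_lt {x y : F} (hx : x ≠ 0) (hy : y ≠ 0) (h : ord w x < ord w y) :
    x + y ≠ 0 ∧ ord w (x + y) = ord w x := by
  rw [v1_lt_iff w hx hy] at h
  have h1 : w.valuation F (x + y) = w.valuation F x := Valuation.map_add_eq_of_lt_left _ h
  refine ⟨?_, ?_⟩
  · intro h0
    rw [h0, map_zero] at h1
    exact v1_ne w hx h1.symm
  · unfold ord
    rw [h1]

theorem v1_nonneg_iff {x : F} (hx : x ≠ 0) : 0 ≤ ord w x ↔ w.valuation F x ≤ 1 := by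
  rw [← ord_one w, v1_le_iff w one_ne_zero hx, map_one]

theorem v1_pos_iff {x : F} (hx : x ≠ 0) : 0 < ord w x ↔ w.valuation F x < 1 := by
  rw [← ord_one w, v1_lt_iff w one_ne_zero hx, map_one]

theorem v1_ord_zero : ord w (0 : F) = 0 := by
  unfold ord
  rw [map_zero, WithZero.log_zero, neg_zero]

theorem ord_int_nonneg (x : 𝓞 F) : 0 ≤ ord w (x : F) := by
  by_cases hx : (x : F) = 0
  · rw [hx, v1_ord_zero]
  · rw [v1_nonneg_iff w hx]
    exact w.valuation_le_one x

theorem ord_int_pos_iff {x : 𝓞 F} (hx : x ≠ 0) : 0 < ord w (x : F) ↔ x ∈ w.asIdeal := by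
  have hx' : (x : F) ≠ 0 := fun h => hx (RingOfIntegers.ext h)
  rw [v1_pos_iff w hx']
  exact w.valuation_lt_one_iff_mem x

/-- an element with nonnegative order at `w` is a quotient of integers with denominator prime
to `w` -/
theorem exists_div_of_ord_nonneg {x : F} (h : 0 ≤ ord w x) :
    ∃ a b : 𝓞 F, b ∉ w.asIdeal ∧ x = (a : F) / (b : F) := by
  have hv : w.valuation F x ≤ 1 := by
    by_cases hx : x = 0
    · rw [hx, map_zero]
      exact zero_le_one
    · exact (v1_nonneg_iff w hx).1 h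
  obtain ⟨n, d, hd⟩ := w.exists_primeCompl_mul_eq_of_integer x hv
  refine ⟨n, d, d.2, ?_⟩
  have hd0 : ((d : 𝓞 F) : F) ≠ 0 := by
    intro h0
    have h1 : (d : 𝓞 F) = 0 := RingOfIntegers.ext h0
    exact d.2 (h1 ▸ w.asIdeal.zero_mem)
  rw [eq_div_iff hd0]
  exact hd

theorem exists_ord_eq_one : ∃ x : F, x ≠ 0 ∧ ord w x = 1 := by
  obtain ⟨π, hπ⟩ := w.valuation_exists_uniformizer F
  refine ⟨π, ?_, ?_⟩
  · intro h0
    rw [h0, map_zero] at hπ
    exact WithZero.exp_ne_zero hπ.symm
  · unfold ord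
    rw [hπ, WithZero.log_exp, neg_neg]

/-- the parity of a class -/
theorem par_cls {x : F} (hx : x ≠ 0) : par w (cls x) = Multiplicative.ofAdd ((ord w x : ℤ) : ZMod 2) := by
  rw [cls_eq hx]
  have h1 : par w (sqMk F (Units.mk0 x hx)) =
      Multiplicative.ofAdd ((Multiplicative.toAdd (w.valuationOfNeZero (Units.mk0 x hx)) : ℤ) :
        ZMod 2) := by
    rfl
  rw [h1]
  have h2 : ((w.valuationOfNeZero (Units.mk0 x hx) : Multiplicative ℤ) :
      WithZero (Multiplicative ℤ)) = w.valuation F x := w.valuationOfNeZero_eq (Units.mk0 x hx)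
  have h3 : Multiplicative.toAdd (w.valuationOfNeZero (Units.mk0 x hx)) = -ord w x := by
    unfold ord
    rw [← h2, neg_neg]
    rfl
  rw [h3]
  congr 1
  push_cast
  exact ZMod.neg_eq_self_mod_two _

theorem par_cls_eq_one_iff {x : F} (hx : x ≠ 0) : par w (cls x) = 1 ↔ Even (ord w x) := by
  rw [par_cls w hx]
  have h1 : (1 : Multiplicative (ZMod 2)) = Multiplicative.ofAdd 0 := rfl
  rw [h1, Multiplicative.ofAdd.injective.eq_iff]
  exact ZMod.intCast_eq_zero_iff_even

end Ord

end H16A
end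

-- from Lib.H55N.B13
section

namespace H55N

open MeasureTheory

/-! Chunk B13 (M, pure Mathlib). The beta integral in the form needed: substitution τ = y/(1-y) in Complex.betaIntegral, or: Gamma(k) (1+τ)^(-k) =
int_0^oo x^(k-1) e^(-x(1+τ)) dx, Fubini, Gamma(z) x^(-z). Then τ -> τ q (q > 0): integral over Ioi of τ^(z-1) (1 + τ q)^(-k) = q^(-z) times the value for
q = 1. Integrability for 0 < Re z < k. -/

/-- The substitution. -/
noncomputable def B13_f (q τ : ℝ) : ℝ := τ * q / (1 + τ * q)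

/-- Its derivative. -/
noncomputable def B13_f' (q τ : ℝ) : ℝ := q / (1 + τ * q) ^ 2

theorem B13_deriv {q : ℝ} (hq : 0 < q) : ∀ τ ∈ Set.Ioi (0 : ℝ),
    HasDerivWithinAt (B13_f q) (B13_f' q τ) (Set.Ioi 0) τ := by
  intro τ hτ
  have hτ0 : 0 < τ := hτ
  have h1 : (1 + τ * q) ≠ 0 := by positivity
  have ha : HasDerivAt (fun τ : ℝ => τ * q) q τ := by
    simpa using (hasDerivAt_id τ).mul_const q
  have hb : HasDerivAt (fun τ : ℝ => 1 + τ * q) q τ := by
    simpa using ha.const_add 1
  have h2 := ha.div hb h1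
  have h3 : (q * (1 + τ * q) - τ * q * q) / (1 + τ * q) ^ 2 = B13_f' q τ := by
    unfold B13_f'; congr 1; ring
  rw [h3] at h2
  exact h2.hasDerivWithinAt

theorem B13_inj {q : ℝ} (hq : 0 < q) : Set.InjOn (B13_f q) (Set.Ioi 0) := by
  intro a ha b hb h
  have ha0 : 0 < a := ha
  have hb0 : 0 < b := hb
  unfold B13_f at h
  have h1 : (1 + a * q) ≠ 0 := by positivity
  have h2 : (1 + b * q) ≠ 0 := by positivity
  rw [div_eq_div_iff h1 h2] at h
  have h3 : a * q = b * q := by linear_combination h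
  exact mul_right_cancel₀ hq.ne' h3

theorem B13_image {q : ℝ} (hq : 0 < q) : B13_f q '' Set.Ioi 0 = Set.Ioo 0 1 := by
  ext y
  constructor
  · rintro ⟨τ, hτ, rfl⟩
    have hτ0 : 0 < τ := hτ
    unfold B13_f
    have h1 : 0 < 1 + τ * q := by positivity
    refine ⟨by positivity, ?_⟩
    rw [div_lt_one h1]
    linarith
  · rintro ⟨h0, h1⟩
    have h2 : 0 < 1 - y := by linarith
    refine ⟨y / ((1 - y) * q), ?_, ?_⟩
    · exact Set.mem_Ioi.2 (by positivity)
    · unfold B13_f
      have h3 : y / ((1 - y) * q) * q = y / (1 - y) := by field_simp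
      rw [h3]
      have h4 : 1 + y / (1 - y) = 1 / (1 - y) := by field_simp; ring
      rw [h4]
      field_simp

theorem B13_cpow {r : ℝ} (hr : 0 < r) (w : ℂ) : (r : ℂ) ^ w = Complex.exp ((Real.log r : ℂ) * w) := by
  rw [Complex.cpow_def_of_ne_zero (by exact_mod_cast hr.ne'), Complex.ofReal_log hr.le]

theorem B13_pt (z : ℂ) (k : ℕ) {q : ℝ} (hq : 0 < q) {τ : ℝ} (hτ : 0 < τ) :
    |B13_f' q τ| • (((B13_f q τ : ℝ) : ℂ) ^ (z - 1) * (1 - ((B13_f q τ : ℝ) : ℂ)) ^ ((k : ℂ) - z - 1)) =
      (q : ℂ) ^ z * ((τ : ℂ) ^ (z - 1) * (((1 + τ * q) ^ k)⁻¹ : ℝ)) := by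
  have ha : 0 < 1 + τ * q := by positivity
  set a := 1 + τ * q with hadef
  have h1 : (1 - ((B13_f q τ : ℝ) : ℂ)) = ((a⁻¹ : ℝ) : ℂ) := by
    have : 1 - B13_f q τ = a⁻¹ := by
      unfold B13_f
      rw [← hadef]
      field_simp
      rw [hadef]; ring
    rw [← this]; push_cast; ring
  have h2 : B13_f q τ = τ * q / a := rfl
  have h3 : 0 < τ * q / a := by positivity
  have h4 : |B13_f' q τ| = q / a ^ 2 := abs_of_pos (by unfold B13_f'; positivity)
  rw [h1, h2, h4, B13_cpow h3, B13_cpow (inv_pos.2 ha), B13_cpow hq, B13_cpow hτ]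
  have h5 : ((q / a ^ 2 : ℝ) : ℂ) = Complex.exp (((Real.log q - 2 * Real.log a : ℝ) : ℂ)) := by
    rw [← Complex.ofReal_exp]
    congr 1
    rw [Real.exp_sub, Real.exp_log hq, two_mul, Real.exp_add, Real.exp_log ha, sq]
  have h6 : ((((a ^ k)⁻¹ : ℝ)) : ℂ) = Complex.exp (((-(k * Real.log a) : ℝ) : ℂ)) := by
    rw [← Complex.ofReal_exp]
    congr 1
    rw [Real.exp_neg, ← Real.log_pow, Real.exp_log (by positivity)]
  rw [Complex.real_smul, h5, h6, ← Complex.exp_add, ← Complex.exp_add, ← Complex.exp_add,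
    ← Complex.exp_add]
  congr 1
  rw [Real.log_div (by positivity) ha.ne', Real.log_mul hτ.ne' hq.ne', Real.log_inv]
  push_cast
  ring

theorem beta_integrable (z : ℂ) (k : ℕ) (h0 : 0 < z.re) (hk : z.re < k) (q : ℝ) (hq : 0 < q) :
    IntegrableOn (fun τ : ℝ => (τ : ℂ) ^ (z - 1) * (((1 + τ * q) ^ k)⁻¹ : ℝ)) (Set.Ioi 0) := by
  have h1 := integrableOn_image_iff_integrableOn_abs_deriv_smul (measurableSet_Ioi (a := (0 : ℝ)))
    (B13_deriv hq) (B13_inj hq) (fun y : ℝ => (y : ℂ) ^ (z - 1) * (1 - (y : ℂ)) ^ ((k : ℂ) - z - 1))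
  rw [B13_image hq] at h1
  have h2 : IntegrableOn (fun y : ℝ => (y : ℂ) ^ (z - 1) * (1 - (y : ℂ)) ^ ((k : ℂ) - z - 1))
      (Set.Ioo 0 1) := by
    have := Complex.betaIntegral_convergent (u := z) (v := (k : ℂ) - z) h0 (by simp; linarith)
    rw [intervalIntegrable_iff_integrableOn_Ioc_of_le zero_le_one] at this
    exact this.mono_set Set.Ioo_subset_Ioc_self
  have h3 := h1.1 h2
  have h4 : IntegrableOn (fun τ : ℝ => (q : ℂ) ^ z * ((τ : ℂ) ^ (z - 1) *
      (((1 + τ * q) ^ k)⁻¹ : ℝ))) (Set.Ioi 0) :=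
    h3.congr_fun (fun τ hτ => B13_pt z k hq hτ) measurableSet_Ioi
  have h5 : (q : ℂ) ^ z ≠ 0 := by
    rw [B13_cpow hq]; exact Complex.exp_ne_zero _
  have h6 : IntegrableOn (fun τ : ℝ => ((q : ℂ) ^ z)⁻¹ * ((q : ℂ) ^ z * ((τ : ℂ) ^ (z - 1) *
      (((1 + τ * q) ^ k)⁻¹ : ℝ)))) (Set.Ioi 0) := h4.const_mul ((q : ℂ) ^ z)⁻¹
  refine h6.congr_fun (fun τ _ => ?_) measurableSet_Ioi
  simp only
  rw [← mul_assoc, inv_mul_cancel₀ h5, one_mul]

theorem beta_eq (z : ℂ) (k : ℕ) (h0 : 0 < z.re) (hk : z.re < k) (q : ℝ) (hq : 0 < q) :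
    ∫ τ in Set.Ioi (0 : ℝ), (τ : ℂ) ^ (z - 1) * (((1 + τ * q) ^ k)⁻¹ : ℝ) =
      (q : ℂ) ^ (-z) * (Complex.Gamma z * Complex.Gamma (k - z) / Complex.Gamma k) := by
  have h1 := integral_image_eq_integral_abs_deriv_smul (measurableSet_Ioi (a := (0 : ℝ)))
    (B13_deriv hq) (B13_inj hq) (fun y : ℝ => (y : ℂ) ^ (z - 1) * (1 - (y : ℂ)) ^ ((k : ℂ) - z - 1))
  rw [B13_image hq, setIntegral_congr_fun measurableSet_Ioi (fun τ hτ => B13_pt z k hq hτ),
    integral_const_mul] at h1
  have h2 : ∫ y in Set.Ioo (0 : ℝ) 1, (y : ℂ) ^ (z - 1) * (1 - (y : ℂ)) ^ ((k : ℂ) - z - 1) =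
      Complex.betaIntegral z ((k : ℂ) - z) := by
    unfold Complex.betaIntegral
    rw [intervalIntegral.integral_of_le zero_le_one, integral_Ioc_eq_integral_Ioo]
  rw [h2] at h1
  have h3 := Complex.Gamma_mul_Gamma_eq_betaIntegral (s := z) (t := (k : ℂ) - z) h0
    (by simp; linarith)
  rw [show z + ((k : ℂ) - z) = k by ring] at h3
  have hk0 : 0 < k := by
    have : (0 : ℝ) < k := h0.trans hk
    exact_mod_cast this
  have h4 : Complex.Gamma (k : ℂ) ≠ 0 := by
    apply Complex.Gamma_ne_zero_of_re_pos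
    simpa using hk0
  have h5 : (q : ℂ) ^ z ≠ 0 := by
    rw [B13_cpow hq]; exact Complex.exp_ne_zero _
  rw [Complex.cpow_neg, h3, h1]
  generalize (∫ τ in Set.Ioi (0 : ℝ), (τ : ℂ) ^ (z - 1) * (((1 + τ * q) ^ k)⁻¹ : ℝ)) = J
  field_simp

end H55N
end

-- from Lib.H55N.U0
section

namespace H55N

open MeasureTheory

/-! Chunk U0 (M). The translates of the unit cube by integral vectors tile R^m. Icc may be replaced by the half open cube (Ico), a fundamental domain
for the translations by Z^m (ZSpan.isAddFundamentalDomain for Pi.basisFun, or disjoint union of the sets a + Ico 0 1 directly: floor), the boundary has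
measure zero (Real.volume_pi... / Measure.univ_pi_Ico_ae_eq_Icc: MeasureTheory.Ico_ae_eq_Icc for pi). Then integral_eq_tsum'' / lintegral_eq_tsum, or
hasSum_integral_iUnion. Translation invariance of the Lebesgue measure. -/

/-- The unit cube at the integral point a. -/
private def U0c {m : ℕ} (a : Fin m → ℤ) : Set (Fin m → ℝ) := {z | ∀ k, ⌊z k⌋ = a k}

private lemma U0_meas {m : ℕ} (a : Fin m → ℤ) : MeasurableSet (U0c a) := by
  have h : U0c a = ⋂ k, (fun z : Fin m → ℝ => ⌊z k⌋) ⁻¹' {a k} := by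
    ext z
    simp [U0c]
  rw [h]
  refine MeasurableSet.iInter fun k => ?_
  exact (Int.measurable_floor.comp (measurable_pi_apply k)) (measurableSet_singleton _)

private lemma U0_disj {m : ℕ} : Pairwise (Function.onFun Disjoint (U0c : (Fin m → ℤ) → _)) := by
  intro a b hab
  rw [Function.onFun, Set.disjoint_left]
  intro z hz hz'
  exact hab (funext fun k => (hz k).symm.trans (hz' k))

private lemma U0_union {m : ℕ} : ⋃ a : Fin m → ℤ, U0c a = Set.univ := by
  rw [Set.eq_univ_iff_forall]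
  intro z
  rw [Set.mem_iUnion]
  exact ⟨fun k => ⌊z k⌋, fun k => rfl⟩

private lemma U0_pre {m : ℕ} (a : Fin m → ℤ) :
    (fun z : Fin m → ℝ => z + fun k => (a k : ℝ)) ⁻¹' (U0c a) =
      Set.univ.pi fun k => Set.Ico ((0 : Fin m → ℝ) k) ((1 : Fin m → ℝ) k) := by
  ext z
  simp only [U0c, Set.mem_preimage, Set.mem_setOf_eq, Pi.add_apply, Set.mem_pi, Set.mem_univ,
    true_implies, Set.mem_Ico, Pi.zero_apply, Pi.one_apply, Int.floor_add_intCast]
  refine forall_congr' fun k => ?_
  constructor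
  · intro h
    have h1 : ⌊z k⌋ = 0 := by omega
    rw [Int.floor_eq_zero_iff] at h1
    exact h1
  · intro h
    have h1 : ⌊z k⌋ = 0 := by
      rw [Int.floor_eq_zero_iff]
      exact h
    omega

private lemma U0_ae {m : ℕ} : (Set.univ.pi fun k => Set.Ico ((0 : Fin m → ℝ) k)
    ((1 : Fin m → ℝ) k)) =ᵐ[volume] Set.Icc (0 : Fin m → ℝ) 1 :=
  Measure.univ_pi_Ico_ae_eq_Icc (μ := fun _ : Fin m => (volume : Measure ℝ))

theorem tiling {m : ℕ} (F : (Fin m → ℝ) → ℂ) (hF : Integrable F) :
    HasSum (fun a : Fin m → ℤ => ∫ z in Set.Icc (0 : Fin m → ℝ) 1, F (fun k => z k + a k))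
      (∫ z, F z) := by
  have h1 := hasSum_integral_iUnion (f := F) (μ := volume) (fun a => U0_meas a)
    (U0_disj (m := m)) (by rw [U0_union]; exact hF.integrableOn)
  rw [U0_union, setIntegral_univ] at h1
  refine h1.congr_fun ?_
  intro a
  have h2 := (measurePreserving_add_right (volume : Measure (Fin m → ℝ))
    (fun k => (a k : ℝ))).setIntegral_preimage_emb
    (measurableEmbedding_addRight (fun k => (a k : ℝ))) F (U0c a)
  rw [U0_pre, setIntegral_congr_set U0_ae] at h2
  exact h2

theorem tiling_lintegral {m : ℕ} (F : (Fin m → ℝ) → ENNReal) (hF : Measurable F) :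
    ∑' a : Fin m → ℤ, ∫⁻ z in Set.Icc (0 : Fin m → ℝ) 1, F (fun k => z k + a k) = ∫⁻ z, F z := by
  have h1 := lintegral_iUnion (μ := volume) (fun a => U0_meas a) (U0_disj (m := m)) F
  rw [U0_union, setLIntegral_univ] at h1
  rw [h1]
  refine tsum_congr fun a => ?_
  have h2 := (measurePreserving_add_right (volume : Measure (Fin m → ℝ))
    (fun k => (a k : ℝ))).setLIntegral_comp_preimage_emb
    (measurableEmbedding_addRight (fun k => (a k : ℝ))) F (U0c a)
  rw [U0_pre, setLIntegral_congr U0_ae] at h2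
  exact h2

end H55N
end

-- from Lib.H55K.W0
section

/-!
# H55K, part W: the number of points of an elliptic curve over the extensions of a finite field

k is a field, W a Weierstrass curve over k, R = W.CoordinateRing = k[X] + k[X] Y its affine coordinate ring. dg I is the
dimension of R/I over k.
-/

open Polynomial

open scoped Polynomial.Bivariate

namespace H55K.WZ

open WeierstrassCurve (Affine)

variable {k : Type} [Field k] (W : Affine k)

/-- The polynomial a₁ X + a₃. -/
noncomputable def hh : k[X] := C W.a₁ * X + C W.a₃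

/-- The polynomial X^3 + a₂ X^2 + a₄ X + a₆. -/
noncomputable def gg : k[X] := X ^ 3 + C W.a₂ * X ^ 2 + C W.a₄ * X + C W.a₆

/-- The element p + q Y of the coordinate ring. -/
noncomputable def el (p q : k[X]) : W.CoordinateRing :=
  p • (1 : W.CoordinateRing) + q • Affine.CoordinateRing.mk W Y

/-- The degree of an ideal of the coordinate ring: the dimension of the quotient. -/
noncomputable def dg (I : Ideal W.CoordinateRing) : ℕ := Module.finrank k (W.CoordinateRing ⧸ I)

/-- The degree of an element: the degree of its norm, which is its order of pole at infinity. -/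
noncomputable def nd (f : W.CoordinateRing) : ℕ := (Algebra.norm k[X] f).natDegree

/-- The number of ideals of degree n. -/
noncomputable def idn (n : ℕ) : ℕ := Nat.card {I : Ideal W.CoordinateRing // I ≠ ⊥ ∧ dg W I = n}

/-- The set of prime ideals of degree n. -/
def prs (n : ℕ) : Set (Ideal W.CoordinateRing) := {P | P.IsPrime ∧ P ≠ ⊥ ∧ dg W P = n}

/-- The number of prime ideals of degree n. -/
noncomputable def pn (n : ℕ) : ℕ := (prs W n).ncard

/-- The ideal of a rational point. -/
noncomputable def PI (x y : k) : Ideal W.CoordinateRing := Affine.CoordinateRing.XYIdeal W x (C y)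

theorem exists_el (f : W.CoordinateRing) : ∃ p q : k[X], el W p q = f :=
  Affine.CoordinateRing.exists_smul_basis_eq f

theorem el_eq_zero {p q : k[X]} (h : el W p q = 0) : p = 0 ∧ q = 0 :=
  Affine.CoordinateRing.smul_basis_eq_zero h

theorem norm_el (p q : k[X]) : Algebra.norm k[X] (el W p q) = p ^ 2 - p * q * hh W - q ^ 2 * gg W :=
  Affine.CoordinateRing.norm_smul_basis p q

theorem dg_span {f : W.CoordinateRing} (hf : f ≠ 0) : dg W (Ideal.span {f}) = nd W f :=
  finrank_quotient_span_eq_natDegree_norm (Affine.CoordinateRing.basis W) hf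

instance finX : Module.Finite k[X] W.CoordinateRing := Module.Finite.of_basis (Affine.CoordinateRing.basis W)

theorem nd_mul (f g : W.CoordinateRing) (hf : f ≠ 0) (hg : g ≠ 0) : nd W (f * g) = nd W f + nd W g := by
  have hn : ∀ f : W.CoordinateRing, f ≠ 0 → Algebra.norm k[X] f ≠ 0 := fun f hf =>
    Algebra.norm_ne_zero_iff.2 hf
  unfold nd
  rw [map_mul, natDegree_mul (hn f hf) (hn g hg)]

end H55K.WZ
end

-- from Lib.H55K.W1A
section

/-! # H55K, part W: the coordinate ring is a Dedekind domain -/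

open Polynomial

open scoped Polynomial.Bivariate

namespace H55K.WZ

open WeierstrassCurve (Affine)

variable {k : Type} [Field k] (W : Affine k)

/-- Chunk W1A (M), pure algebra (k any field, no restriction on the characteristic). Write h = hh W, g = gg W, F(Y) = Y^2 + h Y - g.
Suppose π does not divide q. Let κ = AdjoinRoot π (a field, Fact (Irreducible π)), x̄ = root π, bar : k[X] → κ the reduction (kernel the multiples of π).
Put y₀ = - bar p / bar q. (1) bar q^2 (y₀^2 + h̄ y₀ - ḡ) = bar (p^2 - p q h - q^2 g) = 0, so (x̄, y₀) is on the curve W.map (algebraMap k κ) (or: satisfies the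
equation with the coefficients mapped to κ). (2) 2 y₀ + h̄ = - bar(2 p - q h)/bar q = 0. (3) derivative: π^2 divides N = p^2 - p q h - q^2 g, so π divides
derivative N = 2 p p' - p' q h - p q' h - p q h' - 2 q q' g - q^2 g' ; modulo π: 2 p p' - p' q h = p' (2 p - q h) = 0; - q' (p h + 2 q g) = 0 because
p̄ = - q̄ y₀, h̄ = - 2 y₀, ḡ = y₀^2 + h̄ y₀ = - y₀^2 gives p̄ h̄ + 2 q̄ ḡ = 2 q̄ y₀^2 - 2 q̄ y₀^2 = 0; there remains - p̄ q̄ h̄' - q̄^2 ḡ' = q̄^2 (y₀ h̄' - ḡ') = 0, so
a₁ y₀ - (3 x̄^2 + 2 a₂ x̄ + a₄) = 0. So (x̄, y₀) is a singular point of the curve over κ, but its discriminant is the image of W.Δ ≠ 0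
(WeierstrassCurve.map_Δ; Affine.equation_iff_nonsingular_of_Δ_ne_zero, Affine.nonsingular_iff'): contradiction. So π divides q; then π^2 divides p^2 - p q h - q^2 g
and q^2 g, so π divides p^2 (π | q), so π divides p. -/
theorem irr_dvd (hΔ : W.Δ ≠ 0) {π p q : k[X]} (hπ : Irreducible π) (h1 : π ∣ 2 * p - q * hh W)
    (h2 : π ^ 2 ∣ p ^ 2 - p * q * hh W - q ^ 2 * gg W) : π ∣ p ∧ π ∣ q := by
  haveI : Fact (Irreducible π) := ⟨hπ⟩
  have hpq : π ∣ q := by
    by_contra hq
    have hq0 : AdjoinRoot.mk π q ≠ 0 := fun h => hq (AdjoinRoot.mk_eq_zero.1 h)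
    obtain ⟨b, hb⟩ : ∃ b : k[X] →+* AdjoinRoot π, b = AdjoinRoot.mk π := ⟨_, rfl⟩
    have hbz : ∀ f : k[X], π ∣ f → b f = 0 := fun f hf => by
      rw [hb]
      exact AdjoinRoot.mk_eq_zero.2 hf
    rw [← hb] at hq0
    obtain ⟨f, hf⟩ : ∃ f : k →+* AdjoinRoot π, f = b.comp C := ⟨_, rfl⟩
    have hbC : ∀ c : k, b (C c) = f c := fun c => by rw [hf]; rfl
    obtain ⟨x, hx⟩ : ∃ x, x = b X := ⟨_, rfl⟩
    have hfi : Function.Injective f := f.injective
    have hΔ' : (W.map f).Δ ≠ 0 := by
      rw [WeierstrassCurve.map_Δ]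
      exact fun h => hΔ (hfi (by rw [h, map_zero]))
    obtain ⟨P, hP⟩ : ∃ P, P = b p := ⟨_, rfl⟩
    obtain ⟨Q, hQ⟩ : ∃ Q, Q = b q := ⟨_, rfl⟩
    obtain ⟨P', hP'⟩ : ∃ P', P' = b (derivative p) := ⟨_, rfl⟩
    obtain ⟨Q', hQ'⟩ : ∃ Q', Q' = b (derivative q) := ⟨_, rfl⟩
    rw [← hQ] at hq0
    have bh : b (hh W) = f W.a₁ * x + f W.a₃ := by
      rw [hh, map_add, map_mul, hbC, hbC, ← hx]
    have bg : b (gg W) = x ^ 3 + f W.a₂ * x ^ 2 + f W.a₄ * x + f W.a₆ := by
      rw [gg, map_add, map_add, map_add, map_mul, map_mul, map_pow, map_pow, hbC, hbC, hbC, ← hx]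
    have bh' : b (derivative (hh W)) = f W.a₁ := by
      rw [hh, derivative_add, derivative_mul, derivative_C, derivative_C, derivative_X, zero_mul, zero_add, mul_one,
        add_zero, hbC]
    have bg' : b (derivative (gg W)) = 3 * x ^ 2 + 2 * f W.a₂ * x + f W.a₄ := by
      rw [gg]
      simp only [derivative_add, derivative_mul, derivative_C, derivative_X, derivative_X_pow, zero_mul, zero_add,
        mul_one, add_zero, map_add, map_mul, map_pow, hbC, ← hx, map_natCast, Nat.cast_ofNat, Nat.add_one_sub_one, pow_one,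
        Nat.reduceSub, map_ofNat]
      ring
    have e1 : 2 * P - Q * b (hh W) = 0 := by
      have := hbz _ h1
      rw [map_sub, map_mul, map_mul, map_ofNat, ← hP, ← hQ] at this
      exact this
    have e2 : P ^ 2 - P * Q * b (hh W) - Q ^ 2 * b (gg W) = 0 := by
      have := hbz _ ((dvd_pow_self π two_ne_zero).trans h2)
      rw [map_sub, map_sub, map_mul, map_mul, map_mul, map_pow, map_pow, ← hP, ← hQ] at this
      exact this
    have e3 : 2 * P * P' - P' * Q * b (hh W) - P * Q' * b (hh W) - P * Q * b (derivative (hh W)) -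
        2 * Q * Q' * b (gg W) - Q ^ 2 * b (derivative (gg W)) = 0 := by
      have hd : π ∣ derivative (p ^ 2 - p * q * hh W - q ^ 2 * gg W) := by
        obtain ⟨r, hr⟩ := h2
        rw [hr, derivative_mul, derivative_pow]
        refine dvd_add (Dvd.dvd.mul_right ?_ _) (Dvd.dvd.mul_right (dvd_pow_self π two_ne_zero) _)
        exact Dvd.dvd.mul_right (Dvd.dvd.mul_left (by rw [Nat.add_one_sub_one, pow_one]) _) _
      have := hbz _ hd
      simp only [derivative_sub, derivative_mul, derivative_pow, map_sub, map_mul, map_add, map_pow, ← hP, ← hQ, ← hP',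
        ← hQ', hbC, Nat.add_one_sub_one, pow_one, Nat.cast_ofNat, map_ofNat] at this
      linear_combination this
    obtain ⟨y, hy⟩ : ∃ y, y = -P / Q := ⟨_, rfl⟩
    have hPy : P = -(Q * y) := by
      rw [hy]
      field_simp
    have f1 : 2 * y + b (hh W) = 0 := by
      rw [hPy] at e1
      have : Q * (2 * y + b (hh W)) = 0 := by linear_combination -e1
      exact (mul_eq_zero.1 this).resolve_left hq0
    have f2 : y ^ 2 + b (hh W) * y - b (gg W) = 0 := by
      rw [hPy] at e2
      have : Q ^ 2 * (y ^ 2 + b (hh W) * y - b (gg W)) = 0 := by linear_combination e2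
      exact (mul_eq_zero.1 this).resolve_left (pow_ne_zero 2 hq0)
    have f3 : b (derivative (hh W)) * y - b (derivative (gg W)) = 0 := by
      rw [hPy] at e3
      have : Q ^ 2 * (b (derivative (hh W)) * y - b (derivative (gg W))) = 0 := by
        linear_combination e3 + (P' * Q + Q * Q' * y) * f1 - 2 * Q * Q' * f2
      exact (mul_eq_zero.1 this).resolve_left (pow_ne_zero 2 hq0)
    rw [bh] at f1 f2
    rw [bg] at f2
    rw [bh', bg'] at f3
    have hE : (W.map f).toAffine.Equation x y := by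
      rw [WeierstrassCurve.Affine.equation_iff]
      simp only [WeierstrassCurve.map]
      linear_combination f2
    have hns := (WeierstrassCurve.Affine.equation_iff_nonsingular_of_Δ_ne_zero hΔ').1 hE
    rw [WeierstrassCurve.Affine.nonsingular_iff'] at hns
    simp only [WeierstrassCurve.map] at hns
    rcases hns.2 with h | h
    · exact h (by linear_combination f3)
    · exact h (by linear_combination f1)
  refine ⟨?_, hpq⟩
  have h3 : π ∣ p ^ 2 := by
    have h4 : p ^ 2 = (p ^ 2 - p * q * hh W - q ^ 2 * gg W) + q * (p * hh W + q * gg W) := by ring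
    rw [h4]
    exact dvd_add ((dvd_pow_self π two_ne_zero).trans h2) (Dvd.dvd.mul_right hpq _)
  exact hπ.prime.dvd_of_dvd_pow h3

end H55K.WZ
end

-- from Lib.H55R.HA4
section

namespace H55R

/-! Chunk HA4 (S/M, pure algebra). eq_family: choose y p with R p (y p) and put η p = sum_(i<n) σ^i (y ((τ^i)^-1 p)). Every summand
satisfies R p (iterate heq), the sum of n >= 1 of them too; σ (η p) = sum_(i<n) σ^(i+1) (y ((τ^i)^-1 p)) = sum_(j=1..n) σ^j
(y ((τ^j)^-1 (τ p))), and the term j = n equals the term j = 0 (σ^n = 1, τ^n = 1).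
pos_lemma: let P = {v : a v > 0}. If P is empty all a v <= 0 and the sum is 0, so a = 0. If P is everything the sum is > 0 (or V is empty). Otherwise
sum ha over v' in P: 0 = sum_v a v * s v, s v = sum over v' in P of μ v v'. For v in P: s v = - sum over v' not in P of μ v v' > 0, so
a v * s v > 0. For v not in P: a v <= 0 and s v < 0, so a v * s v >= 0. Contradiction. -/

theorem eq_family {P A : Type} [AddCommGroup A] (n : ℕ) (hn : 0 < n) (τ : Equiv.Perm P)
    (hτ : τ ^ n = 1) (σ : AddMonoid.End A) (hσ : σ ^ n = 1) (R : P → A → Prop)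
    (hadd : ∀ p a b, R p a → R p b → R p (a + b)) (heq : ∀ p a, R p a → R (τ p) (σ a))
    (hex : ∀ p, ∃ a, R p a) : ∃ η : P → A, (∀ p, R p (η p)) ∧ ∀ p, η (τ p) = σ (η p) := by
  choose y hy using hex
  have hit : ∀ (i : ℕ) (q : P), R ((τ ^ i) q) ((σ ^ i) (y q)) := by
    intro i q
    induction i with
    | zero => exact hy q
    | succ i ih =>
      rw [pow_succ', pow_succ']
      exact heq _ _ ih
  have hit2 : ∀ (i : ℕ) (p : P), R p ((σ ^ i) (y ((τ ^ i)⁻¹ p))) := by
    intro i p
    have h := hit i ((τ ^ i)⁻¹ p)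
    have h' : (τ ^ i) ((τ ^ i)⁻¹ p) = p := (τ ^ i).apply_symm_apply p
    rwa [h'] at h
  refine ⟨fun p => ∑ i ∈ Finset.range n, (σ ^ i) (y ((τ ^ i)⁻¹ p)), fun p => ?_, fun p => ?_⟩
  · have h : ∀ m : ℕ, R p (∑ i ∈ Finset.range (m + 1), (σ ^ i) (y ((τ ^ i)⁻¹ p))) := by
      intro m
      induction m with
      | zero =>
        rw [zero_add, Finset.sum_range_one]
        exact hit2 0 p
      | succ m ih =>
        rw [Finset.sum_range_succ]
        exact hadd _ _ _ ih (hit2 _ p)
    obtain ⟨m, rfl⟩ : ∃ m, n = m + 1 := ⟨n - 1, by omega⟩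
    exact h m
  · have h1 : σ (∑ i ∈ Finset.range n, (σ ^ i) (y ((τ ^ i)⁻¹ p))) =
        ∑ i ∈ Finset.range n, (σ ^ (i + 1)) (y ((τ ^ (i + 1))⁻¹ (τ p))) := by
      rw [map_sum]
      refine Finset.sum_congr rfl fun i _ => ?_
      rw [pow_succ' σ i, pow_succ' τ i, mul_inv_rev]
      have h2 : ((τ ^ i)⁻¹ * τ⁻¹) (τ p) = (τ ^ i)⁻¹ p := by
        rw [Equiv.Perm.mul_apply]
        congr 1
        exact τ.symm_apply_apply p
      rw [h2]
      rfl
    have h3 := Finset.sum_range_succ' (fun j => (σ ^ j) (y ((τ ^ j)⁻¹ (τ p)))) n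
    rw [Finset.sum_range_succ] at h3
    have h4 : (σ ^ n) (y ((τ ^ n)⁻¹ (τ p))) = (σ ^ 0) (y ((τ ^ 0)⁻¹ (τ p))) := by
      rw [hσ, hτ, pow_zero, pow_zero]
    rw [h4] at h3
    change ∑ i ∈ Finset.range n, (σ ^ i) (y ((τ ^ i)⁻¹ (τ p))) = _
    rw [h1]
    exact add_right_cancel h3

theorem pos_lemma {V : Type} [Fintype V] [DecidableEq V] (μ : V → V → ℝ)
    (hneg : ∀ v v', v ≠ v' → μ v v' < 0) (hrow : ∀ v, ∑ v', μ v v' = 0) (a : V → ℤ)
    (ha : ∀ v', ∑ v, (a v : ℝ) * μ v v' = 0) (hs : ∑ v, a v = 0) : a = 0 := by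
  classical
  set S : Finset V := Finset.univ.filter fun v => 0 < a v with hS
  have hmem : ∀ v, v ∈ S ↔ 0 < a v := fun v => by simp [hS]
  by_cases hne : S.Nonempty
  · exfalso
    by_cases hne' : Sᶜ.Nonempty
    · obtain ⟨p, hp⟩ := hne
      obtain ⟨q, hq⟩ := hne'
      have hq' : q ∉ S := Finset.mem_compl.1 hq
      have h1 : ∑ v, (a v : ℝ) * ∑ v' ∈ S, μ v v' = 0 := by
        simp only [Finset.mul_sum]
        rw [Finset.sum_comm]
        exact Finset.sum_eq_zero fun v' _ => ha v'
      have h2 : ∀ v ∈ S, 0 < ∑ v' ∈ S, μ v v' := by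
        intro v hv
        have h3 := hrow v
        rw [← Finset.sum_add_sum_compl S] at h3
        have h4 : ∑ v' ∈ Sᶜ, μ v v' < 0 := by
          refine Finset.sum_neg (fun v' hv' => hneg v v' ?_) ⟨q, hq⟩
          rintro rfl
          exact (Finset.mem_compl.1 hv') hv
        linarith
      have h5 : ∀ v, 0 ≤ (a v : ℝ) * ∑ v' ∈ S, μ v v' := by
        intro v
        by_cases hv : v ∈ S
        · have h6 : (0 : ℝ) < a v := by exact_mod_cast (hmem v).1 hv
          exact (mul_pos h6 (h2 v hv)).le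
        · have h6 : (a v : ℝ) ≤ 0 := by
            have : ¬ 0 < a v := fun h => hv ((hmem v).2 h)
            exact_mod_cast not_lt.1 this
          have h7 : ∑ v' ∈ S, μ v v' ≤ 0 := by
            refine Finset.sum_nonpos fun v' hv' => (hneg v v' ?_).le
            rintro rfl
            exact hv hv'
          exact mul_nonneg_of_nonpos_of_nonpos h6 h7
      have h8 := (Finset.sum_eq_zero_iff_of_nonneg fun v _ => h5 v).1 h1 p (Finset.mem_univ p)
      have h6 : (0 : ℝ) < a p := by exact_mod_cast (hmem p).1 hp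
      exact (mul_pos h6 (h2 p hp)).ne' h8
    · have h1 : ∀ v, 0 < a v := by
        intro v
        by_contra hv
        apply hne'
        exact ⟨v, Finset.mem_compl.2 fun h => hv ((hmem v).1 h)⟩
      obtain ⟨p, -⟩ := hne
      have h2 : 0 < ∑ v, a v := Finset.sum_pos (fun v _ => h1 v) ⟨p, Finset.mem_univ p⟩
      omega
  · have h1 : ∀ v, a v ≤ 0 := by
      intro v
      by_contra hv
      exact hne ⟨v, (hmem v).2 (not_le.1 hv)⟩
    have h2 := (Finset.sum_eq_zero_iff_of_nonpos fun v _ => h1 v).1 hs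
    funext v
    exact h2 v (Finset.mem_univ v)

end H55R
end

-- from Lib.H55K.W1B
section

/-! # H55K, part W: the coordinate ring is a Dedekind domain -/

open Polynomial

open scoped Polynomial.Bivariate

namespace H55K.WZ

open WeierstrassCurve (Affine)

variable {k : Type} [Field k] (W : Affine k)

theorem w1b_quad (p q : k[X]) : (el W p q) ^ 2 - (2 * p - q * hh W) • el W p q +
    (p ^ 2 - p * q * hh W - q ^ 2 * gg W) • (1 : W.CoordinateRing) = 0 := by
  have Y_sq : Affine.CoordinateRing.mk W Y ^ 2 =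
      Affine.CoordinateRing.mk W (C (gg W) - C (hh W) * Y) :=
    AdjoinRoot.mk_eq_mk.mpr ⟨1, by unfold gg hh; rw [Affine.polynomial]; ring1⟩
  unfold el
  simp only [Affine.CoordinateRing.smul, map_sub, map_mul, map_pow, map_ofNat] at Y_sq ⊢
  linear_combination (Affine.CoordinateRing.mk W (C q)) ^ 2 * Y_sq

theorem w1b_dvd (hΔ : W.Δ ≠ 0) (d : k[X]) : d ≠ 0 → ∀ p q : k[X], d ∣ 2 * p - q * hh W →
    d ^ 2 ∣ p ^ 2 - p * q * hh W - q ^ 2 * gg W → d ∣ p ∧ d ∣ q := by
  induction d using WfDvdMonoid.induction_on_irreducible with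
  | zero => intro h; exact absurd rfl h
  | unit u hu => intro _ p q _ _; exact ⟨hu.dvd, hu.dvd⟩
  | mul a i ha hi ih =>
    intro _ p q h1 h2
    have hi0 : i ≠ 0 := hi.ne_zero
    obtain ⟨⟨p', rfl⟩, ⟨q', rfl⟩⟩ := irr_dvd W hΔ hi (dvd_trans (Dvd.intro _ rfl) h1)
      (dvd_trans ⟨a ^ 2, by ring⟩ h2)
    obtain ⟨h3, h4⟩ := ih ha p' q' (by
      have e : 2 * (i * p') - i * q' * hh W = i * (2 * p' - q' * hh W) := by ring
      rw [e] at h1
      exact (mul_dvd_mul_iff_left hi0).1 h1) (by
      have e : (i * p') ^ 2 - i * p' * (i * q') * hh W - (i * q') ^ 2 * gg W =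
          i ^ 2 * (p' ^ 2 - p' * q' * hh W - q' ^ 2 * gg W) := by ring
      rw [e, mul_pow] at h2
      exact (mul_dvd_mul_iff_left (pow_ne_zero 2 hi0)).1 h2)
    exact ⟨mul_dvd_mul_left i h3, mul_dvd_mul_left i h4⟩

/-- Chunk W1B (M). R = W.CoordinateRing is integrally closed. Let z in FractionRing R (= W.FunctionField) be integral over R. R is integral over k[X] (finX),
so z is integral over k[X]. z = r/s, r, s in R; multiply by the conjugate of s (s times an element of R is in k[X]: norm s is divisible by s, coe_norm_smul_basis in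
Mathlib Affine/Point.lean): z = (p + q Y)/d with p, q, d in k[X], d ≠ 0. The automorphism σ of R over k[X] with σ(Y) = - Y - h (AdjoinRoot.lift; or work with the
trace and norm of FractionRing R over FractionRing k[X], Algebra.isIntegral_trace, isIntegral_norm) extends to FractionRing R, σ z is integral, so z + σ z =
(2 p - q h)/d and z σ z = norm(p + q Y)/d^2 are integral over k[X]; they are in the fraction field of k[X], which is integrally closed: d divides 2 p - q h and d^2 divides
p^2 - p q h - q^2 g. By induction on d (UniqueFactorizationMonoid induction_on_prime / WfDvdMonoid.induction_on_irreducible or the degree): d divides p and q: if d = π d' with π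
irreducible, irr_dvd gives π | p, π | q, divide p, q, d by π. So z is in R. -/
theorem int_closed (hΔ : W.Δ ≠ 0) : IsIntegrallyClosed W.CoordinateRing := by
  rw [isIntegrallyClosed_iff (FractionRing W.CoordinateRing)]
  intro z hz
  have hzA : IsIntegral k[X] z := isIntegral_trans (R := k[X]) (A := W.CoordinateRing) z hz
  obtain ⟨r, s, hs, hrs⟩ := IsFractionRing.div_surjective (A := W.CoordinateRing) z
  have hsA : IsAlgebraic k[X] s := (Algebra.IsIntegral.isIntegral (R := k[X]) s).isAlgebraic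
  obtain ⟨d, hd, e, he⟩ := hsA.exists_nonzero_dvd hs
  obtain ⟨p, q, hpq⟩ := exists_el W (r * e)
  have hs0 : algebraMap W.CoordinateRing (FractionRing W.CoordinateRing) s ≠ 0 := by
    rw [Ne, FaithfulSMul.algebraMap_eq_zero_iff]
    exact nonZeroDivisors.ne_zero hs
  have h1 : algebraMap k[X] (FractionRing W.CoordinateRing) d * z =
      algebraMap W.CoordinateRing (FractionRing W.CoordinateRing) (el W p q) := by
    rw [IsScalarTower.algebraMap_apply k[X] W.CoordinateRing (FractionRing W.CoordinateRing), he, hpq,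
      ← hrs, map_mul, map_mul]
    field_simp
  have hd0 : algebraMap k[X] (FractionRing W.CoordinateRing) d ≠ 0 := by
    rw [Ne, FaithfulSMul.algebraMap_eq_zero_iff]
    exact hd
  set t : k[X] := 2 * p - q * hh W with ht
  set n : k[X] := p ^ 2 - p * q * hh W - q ^ 2 * gg W with hn
  set P : k[X][X] := C (d ^ 2) * X ^ 2 - C (d * t) * X + C n with hP
  have h2 : aeval z P = 0 := by
    have h3 := congrArg (algebraMap W.CoordinateRing (FractionRing W.CoordinateRing)) (w1b_quad W p q)
    rw [map_add, map_sub, map_pow, ← h1, map_zero, Algebra.smul_def, Algebra.smul_def, map_mul, map_mul,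
      ← h1, map_one, mul_one, ← IsScalarTower.algebraMap_apply, ← IsScalarTower.algebraMap_apply] at h3
    rw [hP]
    simp only [map_add, map_sub, map_mul, map_pow, aeval_C, aeval_X]
    rw [← h3]
    ring
  have h4 := minpoly.isIntegrallyClosed_dvd hzA h2
  have hm := minpoly.monic hzA
  have hmpos := minpoly.natDegree_pos hzA
  obtain ⟨c, hc⟩ := h4
  have hPc : P.coeff 2 = d ^ 2 ∧ P.coeff 1 = -(d * t) ∧ P.coeff 0 = n := by
    rw [hP]
    refine ⟨?_, ?_, ?_⟩ <;> rw [coeff_add, coeff_sub, coeff_C_mul, coeff_C_mul, coeff_X_pow] <;>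
      simp [coeff_X, coeff_C]
  have hPd : P.natDegree = 2 := by
    have h5 : P.natDegree ≤ 2 := by
      rw [hP]
      compute_degree
    refine le_antisymm h5 (le_natDegree_of_ne_zero ?_)
    rw [hPc.1]
    exact pow_ne_zero 2 hd
  have hP0 : P ≠ 0 := by
    intro h0
    rw [h0, natDegree_zero] at hPd
    omega
  have hc0 : c ≠ 0 := by
    rintro rfl
    exact hP0 (by rw [hc, mul_zero])
  have hdeg : (minpoly k[X] z).natDegree + c.natDegree = 2 := by
    rw [← hPd, hc, natDegree_mul hm.ne_zero hc0]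
  have hcase : (minpoly k[X] z).natDegree = 1 ∨ (minpoly k[X] z).natDegree = 2 := by omega
  rcases hcase with h5 | h5
  · have h6 := hm.eq_X_add_C h5
    have h7 := minpoly.aeval k[X] z
    rw [h6, map_add, aeval_X, aeval_C] at h7
    refine ⟨-algebraMap k[X] W.CoordinateRing ((minpoly k[X] z).coeff 0), ?_⟩
    rw [map_neg, ← IsScalarTower.algebraMap_apply]
    linear_combination -h7
  · have hc1 : c.natDegree = 0 := by omega
    obtain ⟨b, hb⟩ := natDegree_eq_zero.1 hc1
    have hco : ∀ i, P.coeff i = (minpoly k[X] z).coeff i * b := by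
      intro i
      rw [hc, ← hb, coeff_mul_C]
    have hb2 : b = d ^ 2 := by
      have h8 := hco 2
      have h9 : (minpoly k[X] z).coeff 2 = 1 := by
        rw [← h5]
        exact hm
      rw [hPc.1, h9, one_mul] at h8
      exact h8.symm
    have ht' : d ∣ t := by
      have h8 := hco 1
      rw [hPc.2.1, hb2] at h8
      refine ⟨-(minpoly k[X] z).coeff 1, ?_⟩
      apply mul_left_cancel₀ hd
      linear_combination -h8
    have hn' : d ^ 2 ∣ n := by
      have h8 := hco 0
      rw [hPc.2.2, hb2] at h8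
      exact ⟨(minpoly k[X] z).coeff 0, by rw [h8, mul_comm]⟩
    obtain ⟨⟨p', hp'⟩, ⟨q', hq'⟩⟩ := w1b_dvd W hΔ d hd p q ht' hn'
    refine ⟨el W p' q', ?_⟩
    apply mul_left_cancel₀ hd0
    rw [h1, IsScalarTower.algebraMap_apply k[X] W.CoordinateRing (FractionRing W.CoordinateRing), ← map_mul]
    congr 1
    rw [← Algebra.smul_def, hp', hq']
    unfold el
    rw [smul_add, smul_smul, smul_smul]

end H55K.WZ
end

-- from Lib.H35T.Defs
section

/-!
# H35T: definitions

The 3-part of the Birch and Swinnerton-Dyer conjecture for y^2 = x^3 - 1 over 3-extensions of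
the field of cube roots of unity. See PROOF.md.
-/

open NumberField IsDedekindDomain Polynomial

namespace H35T

open H55B

/-- The elliptic curve y^2 = x^3 - 1 over the rationals (conductor 144). -/
def E144 : WeierstrassCurve ℚ := ⟨0, 0, 0, 0, -1⟩

/-- Good primes of the Eisenstein integers: not above 2 or 3, and -1 is not a square modulo v. -/
def Good (v : HeightOneSpectrum O) : Prop :=
  (2 : O) ∉ v.asIdeal ∧ (3 : O) ∉ v.asIdeal ∧ ¬ ∃ x : O, x ^ 2 + 1 ∈ v.asIdeal

/-- K/F is unramified outside the good primes. -/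
def UnrOut (K : Type) [Field K] [NumberField K] [Algebra F K] : Prop :=
  ∀ (w : HeightOneSpectrum (𝓞 K)) (v : HeightOneSpectrum O), v.asIdeal = w.asIdeal.under O →
    ¬ Good v → w.asIdeal.ramificationIdx O = 1

/-- The quadratic algebra k[T]/(T^2 + 1). -/
abbrev Qd (k : Type) [Field k] : Type := AdjoinRoot (X ^ 2 + C 1 : k[X])

/-- Functoriality of the quadratic algebra. -/
noncomputable def qmap {k k' : Type} [Field k] [Field k'] (f : k →+* k') : Qd k →+* Qd k' :=
  AdjoinRoot.map f _ _ (by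
    rw [Polynomial.map_add, Polynomial.map_pow, Polynomial.map_X, Polynomial.map_C, map_one f])

/-- The image of the local Kummer map of the isogeny of degree 3 (multiplication by the square root
of -3, kernel x = 0): m is y - T up to cubes for a point (x, y) of y^2 = x^3 - 1 over k with x nonzero. -/
def LocIm (k : Type) [Field k] (m : Qd k) : Prop :=
  ∃ x y : k, y ^ 2 = x ^ 3 - 1 ∧ x ≠ 0 ∧
    ∃ b : Qd k, m * (AdjoinRoot.of _ y - AdjoinRoot.root _) = b ^ 3

/-- Representatives of the Selmer group of E144 over K for multiplication by the square root of -3: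
invertible elements of the quadratic algebra whose norm is a cube, everywhere locally in the image of the
Kummer map. -/
def Sel (K : Type) [Field K] [NumberField K] : Set (Qd K) :=
  {m | IsUnit m ∧ (∃ n : K, Algebra.norm K m = n ^ 3) ∧
    ∀ w : HeightOneSpectrum (𝓞 K),
      LocIm (w.adicCompletion K) (qmap (algebraMap K (w.adicCompletion K)) m)}

/-- Good moduli (units allowed). -/
def GoodMod (α : O) : Prop :=
  Squarefree α ∧ ∀ v : HeightOneSpectrum O, α ∈ v.asIdeal → Good v

/-- α is a modulus of K/F: K/F is unramified at the primes not dividing α, and there is a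
homomorphism from the units modulo α to the Galois group sending the class of every prime element p not
dividing 3 and α to a Frobenius element at every prime above p. -/
def IsModulus (K : Type) [Field K] [NumberField K] [Algebra F K] (α : O) : Prop :=
  (∀ w : HeightOneSpectrum (𝓞 K), algebraMap O (𝓞 K) α ∉ w.asIdeal → w.asIdeal.ramificationIdx O = 1) ∧
  ∃ ρ : (O ⧸ Ideal.span {α})ˣ →* (K ≃ₐ[F] K),
    ∀ (p : O) (w : HeightOneSpectrum (𝓞 K)) (u : (O ⧸ Ideal.span {α})ˣ),
      (3 : 𝓞 K) ∉ w.asIdeal → w.asIdeal.under O = Ideal.span {p} →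
      (u : O ⧸ Ideal.span {α}) = Ideal.Quotient.mk _ p →
      ∀ y : 𝓞 K, ρ u • y - y ^ Nat.card (O ⧸ Ideal.span {p}) ∈ w.asIdeal

/-- z is a 3-adic unit: a unit for all valuations of the complex numbers above 3. -/
def Unit3 (z : ℂ) : Prop := ∀ A : ValuationSubring ℂ, A.valuation 3 < 1 → A.valuation z = 1

/-- Twice the area of a period parallelogram. -/
noncomputable def Om (L : PeriodPair) : ℝ := 2 * |L.ω₁.re * L.ω₂.im - L.ω₁.im * L.ω₂.re|

open Classical in
/-- Points of E144 over the completion with nonsingular reduction (of the minimal equation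
y^2 = x^3 - 1): the partial derivatives 3x^2 and 2y do not both reduce to 0. -/
def E0 (K : Type) [Field K] [NumberField K] [Algebra F K] (w : HeightOneSpectrum (𝓞 K)) :
    Set (E144.baseChange (w.adicCompletion K)).toAffine.Point :=
  {P | P = 0 ∨ ∃ (x y : w.adicCompletion K)
    (h : (E144.baseChange (w.adicCompletion K)).toAffine.Nonsingular x y),
    P = WeierstrassCurve.Affine.Point.some x y h ∧
      (1 ≤ Valued.v (3 * x ^ 2) ∨ 1 ≤ Valued.v (2 * y))}

open Classical in
/-- The Tamagawa number. -/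
noncomputable def tam (K : Type) [Field K] [NumberField K] [Algebra F K]
    (w : HeightOneSpectrum (𝓞 K)) : ℕ := (AddSubgroup.closure (E0 K w)).index

/-- The analytic order of the Tate-Shafarevich group of E144 over K predicted by the formula of Birch and
Swinnerton-Dyer in rank 0; L1 is the value of the L-function at 1. -/
noncomputable def shaAn (K : Type) [Field K] [NumberField K] [Algebra F K] (L : PeriodPair) (L1 : ℂ) :
    ℂ :=
  L1 * (Real.sqrt |(NumberField.discr K : ℝ)| : ℝ) *
    (Nat.card (E144.baseChange K).toAffine.Point : ℂ) ^ 2 /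
    ((Om L : ℂ) ^ NumberField.InfinitePlace.nrComplexPlaces K *
      ∏ᶠ w : HeightOneSpectrum (𝓞 K), (tam K w : ℂ))

/-! ## Auxiliary definitions (not used in the statement of the theorem) -/

/-- Multiplicative functions modulo α, invariant under units, with values roots of unity of 3-power order. -/
structure Chr (α : O) (f : O → ℂ) : Prop where
  per : ∀ x y, f (x + α * y) = f x
  mul : ∀ x y, f (x * y) = f x * f y
  neg : ∀ x, f (-x) = f x
  om : ∀ x, f (om * x) = f x
  root : ∃ k : ℕ, ∀ x, IsCoprime x α → f x ^ (3 ^ k) = 1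
  zero : ∀ x, ¬ IsCoprime x α → f x = 0

open Classical in
/-- The cubic residue class modulo 2, as a root of unity. -/
noncomputable def kap (x : O) : O :=
  if (2 : O) ∣ x - 1 then 1 else if (2 : O) ∣ x - om then om else
    if (2 : O) ∣ x - om ^ 2 then om ^ 2 else 0

/-- The character of E144: the quadratic character modulo 4 of the norm times the cubic class modulo 2. -/
noncomputable def eta (x : O) : O := ((ZMod.χ₄ (Nm x : ZMod 4) : ℤ) : O) * kap x

/-- The square root of -3. -/
noncomputable def sq3 : O := 2 * om + 1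

/-- The local Euler factor of E144 at w, with complex coefficients. -/
noncomputable def LEF (K : Type) [Field K] [NumberField K] (w : HeightOneSpectrum (𝓞 K)) :
    ArithmeticFunction ℂ :=
  ((((E144.baseChange K).baseChange (w.adicCompletion K)).localEulerFactor
    (w.adicCompletionIntegers K) : ArithmeticFunction ℤ) : ArithmeticFunction ℂ)

/-- The quartic field M = F(i) and the compositum N of K and M, with T the automorphism of order 2 over K and
the action of the Galois group of K/F fixing M. -/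
structure Comp (K M N : Type) [Field K] [NumberField K] [Algebra F K] [Field M] [NumberField M]
    [Algebra F M] [Field N] [NumberField N] [Algebra K N] [Algebra M N] (ι : M) (τ : M ≃+* M)
    (T : N ≃+* N) (act : (K ≃ₐ[F] K) → (N ≃+* N)) : Prop where
  sq : ι ^ 2 = -1
  tau_i : τ ι = -ι
  tau_F : ∀ x : F, τ (algebraMap F M x) = algebraMap F M x
  mspan : ∀ z : M, ∃ a b : F, z = algebraMap F M a + algebraMap F M b * ι
  mindep : ∀ a b : F, algebraMap F M a + algebraMap F M b * ι = 0 → a = 0 ∧ b = 0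
  tower : ∀ x : F, algebraMap K N (algebraMap F K x) = algebraMap M N (algebraMap F M x)
  span : ∀ z : N, ∃ a b : K, z = algebraMap K N a + algebraMap K N b * algebraMap M N ι
  indep : ∀ a b : K, algebraMap K N a + algebraMap K N b * algebraMap M N ι = 0 → a = 0 ∧ b = 0
  T_K : ∀ x : K, T (algebraMap K N x) = algebraMap K N x
  T_M : ∀ z : M, T (algebraMap M N z) = algebraMap M N (τ z)
  act_K : ∀ (g : K ≃ₐ[F] K) (x : K), act g (algebraMap K N x) = algebraMap K N (g x)
  act_M : ∀ (g : K ≃ₐ[F] K) (z : M), act g (algebraMap M N z) = algebraMap M N z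

/-- The Selmer conditions on an element m of N: the norm is a cube, the valuations are divisible by 3,
and a congruence condition above 3. -/
structure Cond (K N : Type) [Field K] [NumberField K] [Field N] [NumberField N] [Algebra K N]
    (T : N ≃+* N) (m : N) : Prop where
  ne : m ≠ 0
  norm : ∃ n : K, n ≠ 0 ∧ m * T m = algebraMap K N n ^ 3
  val : ∀ P : HeightOneSpectrum (𝓞 N), ∃ k : ℤ, P.valuation N m = WithZero.exp (3 * k)
  three : ∀ P : HeightOneSpectrum (𝓞 N), (3 : 𝓞 N) ∈ P.asIdeal →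
    ∃ b : N, b ≠ 0 ∧ P.valuation N (m / b ^ 3 - 1) ≤ P.valuation N 3

end H35T
end

-- from Lib.H55P.S1
section

open NumberField IsDedekindDomain WeierstrassCurve

namespace H55P

variable {F : Type} [Field F] {Ω : Type} [Field Ω] [DecidableEq Ω] [Algebra F Ω]

/-! Chunk PS1 (S/M). Elementary facts on the action, inertia and decomposition.
acR: ac W s = Affine.Point.map, map_map, map_id. inert_dec: x in V implies s x in V (s x - x in V). If s x in V but x not in V, then x⁻¹ in V with value < 1, v(s x⁻¹ - x⁻¹) < 1, so v(s x⁻¹) < 1 and s x = (s x⁻¹)⁻¹ has value > 1, contradiction.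
inS: closed under products (v(s t x - x) <= max(v(s (t x) - t x), v(t x - x))), inverses by inert_dec. inS_conj: V' = V.comap of the automorphism g (ValuationSubring.comap), valuation < 1 means nonunit of V: see exists_comap in Lib/H16C/VC.lean.
pt_open: P = 0 or (x, y): L = F(x, y) (IntermediateField.adjoin F {x, y}, finite since algebraic). -/

/-- The action as a homomorphism of monoids. -/
noncomputable def acR (W : WeierstrassCurve F) : (Ω ≃ₐ[F] Ω) →* AddMonoid.End (Pt W Ω) where
  toFun s := ac W s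
  map_one' := by
    ext P
    cases P <;> rfl
  map_mul' s t := by
    ext P
    cases P <;> rfl

theorem acR_apply (W : WeierstrassCurve F) (s : Ω ≃ₐ[F] Ω) (P : Pt W Ω) : acR W s P = ac W s P := rfl

theorem lt1_iff (V : ValuationSubring Ω) (x : Ω) : V.valuation x < 1 ↔ x = 0 ∨ x⁻¹ ∉ V := by
  by_cases hx : x = 0
  · subst hx
    simp
  · have h1 : V.valuation x ≠ 0 := by simpa using hx
    rw [← V.valuation_le_one_iff, map_inv₀]
    constructor
    · intro h
      right
      rw [not_le]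
      exact (one_lt_inv₀ (zero_lt_iff.2 h1)).2 h
    · rintro (h | h)
      · exact absurd h hx
      · rw [not_le] at h
        exact (one_lt_inv₀ (zero_lt_iff.2 h1)).1 h

theorem dec_lt1 (V : ValuationSubring Ω) (s : Ω ≃ₐ[F] Ω) (h : Dec V s) (x : Ω) :
    V.valuation (s x) < 1 ↔ V.valuation x < 1 := by
  rw [lt1_iff, lt1_iff, ← map_inv₀, h x⁻¹]
  simp

theorem inert_dec (V : ValuationSubring Ω) (s : Ω ≃ₐ[F] Ω) (h : Inert V s) : Dec V s := by
  have key : ∀ x ∈ V, s x ∈ V := by
    intro x hx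
    have h1 : s x - x ∈ V := by
      rw [← V.valuation_le_one_iff]
      exact (h x hx).le
    have := V.add_mem _ _ h1 hx
    simpa using this
  intro x
  refine ⟨fun hs => ?_, key x⟩
  by_contra hx
  have hx0 : x ≠ 0 := by
    rintro rfl
    exact hx V.zero_mem
  have hi : V.valuation x⁻¹ < 1 := by
    rw [lt1_iff, inv_inv]
    exact Or.inr hx
  have hi' : x⁻¹ ∈ V := by
    rw [← V.valuation_le_one_iff]
    exact hi.le
  have h2 := h _ hi'
  have h3 : V.valuation (s x⁻¹) < 1 := by
    have : s x⁻¹ = (s x⁻¹ - x⁻¹) + x⁻¹ := by ring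
    rw [this]
    exact lt_of_le_of_lt (V.valuation.map_add _ _) (max_lt h2 hi)
  rw [lt1_iff, map_inv₀, inv_inv] at h3
  rcases h3 with h3 | h3
  · simp [hx0] at h3
  · exact h3 hs

/-- The inertia group. -/
def inS (F : Type) [Field F] {Ω : Type} [Field Ω] [Algebra F Ω] (V : ValuationSubring Ω) :
    Subgroup (Ω ≃ₐ[F] Ω) where
  carrier := {s | Inert V s}
  one_mem' := by
    intro x _
    simp
  mul_mem' := by
    intro s t hs ht x hx
    have h1 : (s * t) x - x = (s (t x) - t x) + (t x - x) := by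
      rw [AlgEquiv.mul_apply]
      ring
    rw [h1]
    classical
    exact lt_of_le_of_lt (V.valuation.map_add _ _) (max_lt (hs _ ((inert_dec V t ht x).2 hx)) (ht x hx))
  inv_mem' := by
    intro s hs x hx
    classical
    have hy : s⁻¹ x ∈ V := by
      rw [← inert_dec V s hs]
      have : s (s⁻¹ x) = x := s.apply_symm_apply x
      rwa [this]
    have h1 := hs _ hy
    have h2 : s (s⁻¹ x) = x := s.apply_symm_apply x
    rw [h2, ← Valuation.map_neg] at h1
    have h3 : -(x - s⁻¹ x) = s⁻¹ x - x := by ring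
    rwa [h3] at h1

/-- The decomposition group. -/
def decS (F : Type) [Field F] {Ω : Type} [Field Ω] [Algebra F Ω] (V : ValuationSubring Ω) :
    Subgroup (Ω ≃ₐ[F] Ω) where
  carrier := {s | Dec V s}
  one_mem' := by
    intro x
    rfl
  mul_mem' := by
    intro s t hs ht x
    rw [AlgEquiv.mul_apply, hs, ht]
  inv_mem' := by
    intro s hs x
    have h2 : s (s⁻¹ x) = x := s.apply_symm_apply x
    rw [← hs (s⁻¹ x), h2]

theorem mem_inS (V : ValuationSubring Ω) (s : Ω ≃ₐ[F] Ω) : s ∈ inS F V ↔ Inert V s := Iff.rfl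

theorem mem_decS (V : ValuationSubring Ω) (s : Ω ≃ₐ[F] Ω) : s ∈ decS F V ↔ Dec V s := Iff.rfl

theorem inS_conj (V : ValuationSubring Ω) (g : Ω ≃ₐ[F] Ω) : ∃ V' : ValuationSubring Ω,
    ∀ s, s ∈ inS F V' ↔ g * s * g⁻¹ ∈ inS F V := by
  refine ⟨V.comap (g : Ω →+* Ω), fun s => ?_⟩
  have hm : ∀ x, x ∈ V.comap (g : Ω →+* Ω) ↔ g x ∈ V := fun x => ValuationSubring.mem_comap
  have hlt : ∀ x, (V.comap (g : Ω →+* Ω)).valuation x < 1 ↔ V.valuation (g x) < 1 := by
    intro x
    rw [lt1_iff, lt1_iff, hm, map_inv₀]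
    simp
  rw [mem_inS, mem_inS]
  constructor
  · intro h x hx
    have h2 : g (g⁻¹ x) = x := g.apply_symm_apply x
    have h1 := h (g⁻¹ x) ((hm _).2 (by rwa [h2]))
    rw [hlt, map_sub, h2] at h1
    exact h1
  · intro h x hx
    have h1 := h (g x) ((hm _).1 hx)
    have h2 : g⁻¹ (g x) = x := g.symm_apply_apply x
    rw [AlgEquiv.mul_apply, AlgEquiv.mul_apply, h2] at h1
    rw [hlt, map_sub]
    exact h1

theorem inS_dec (V : ValuationSubring Ω) (φ : Ω ≃ₐ[F] Ω) (hφ : φ ∈ decS F V) (s : Ω ≃ₐ[F] Ω)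
    (hs : s ∈ inS F V) : φ * s * φ⁻¹ ∈ inS F V := by
  intro x hx
  have h2 : φ (φ⁻¹ x) = x := φ.apply_symm_apply x
  have hy : φ⁻¹ x ∈ V := by
    rw [← hφ (φ⁻¹ x), h2]
    exact hx
  have h1 := hs _ hy
  rw [← dec_lt1 V φ hφ, map_sub, h2] at h1
  exact h1

theorem pt_open [Algebra.IsAlgebraic F Ω] (W : WeierstrassCurve F) (P : Pt W Ω) :
    ∃ L : IntermediateField F Ω, FiniteDimensional F L ∧ ∀ s ∈ L.fixingSubgroup, ac W s P = P := by
  cases P with
  | zero => exact ⟨⊥, inferInstance, fun s _ => rfl⟩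
  | some x y h =>
    refine ⟨IntermediateField.adjoin F {x, y}, ?_, ?_⟩
    · exact IntermediateField.finiteDimensional_adjoin_pair (Algebra.IsIntegral.isIntegral x)
        (Algebra.IsIntegral.isIntegral y)
    · intro s hs
      rw [IntermediateField.mem_fixingSubgroup_iff] at hs
      have hx : s x = x := hs x (IntermediateField.subset_adjoin F _ (by simp))
      have hy : s y = y := hs y (IntermediateField.subset_adjoin F _ (by simp))
      have : ac W s (Affine.Point.some x y h) = Affine.Point.some (s x) (s y)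
          ((Affine.baseChange_nonsingular _ s.toAlgHom.injective ..).mpr h) := rfl
      rw [this]
      simp only [hx, hy]

end H55P
end

-- from Lib.H55P.S4
section

open NumberField IsDedekindDomain WeierstrassCurve

namespace H55P

/-! Chunk PS4 (M). The change of variables (x, y) -> (x', y') with x = u^2 x' + r, y = u^3 y' + u^2 s x' + t is an isomorphism of the groups of points, natural in the field.
Mathlib: WeierstrassCurve.VariableChange, the curve C • W (VariableChange.lean: variableChange_a₁ ..), W.exists_variableChange_isShortNF (NormalForms.lean; characteristic 0: 2 and 3 invertible). Only the short form is needed: in characteristic 0 the change is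
x' = x + (a1^2 + 4 a2)/12, y' = y + (a1 x + a3)/2, with a4' = -c4/48, a6' = -c6/864; doing only this explicit change (u = 1) by hand is enough: Equation, then the map on points (all points of W⁄Ω are nonsingular, IsElliptic: Affine.equation_iff_nonsingular), then
additivity: the slope transforms by slope' = slope + a1/2 (cases x1 = x2 and y1 = negY: sum zero; equal points; x1 <> x2), with the lemmas Affine.Point.add_some, slope_of_Y_ne, slope_of_X_ne, add_of_Y_eq. Naturality: map_some. -/

/-- The coefficients of the two curves are related by the change of variables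
`x' = x + β`, `y' = y + s x + t`. -/
structure PS4_D {Ω : Type} [Field Ω] (W₁ W₂ : WeierstrassCurve Ω) (β s t : Ω) : Prop where
  b1 : W₂.a₁ = 0
  b2 : W₂.a₂ = 0
  b3 : W₂.a₃ = 0
  h1 : 2 * s = W₁.a₁
  h3 : 2 * t = W₁.a₃
  h2 : 3 * β = W₁.a₂ + s ^ 2
  h4 : W₂.a₄ = W₁.a₄ + 2 * s * t - 3 * β ^ 2
  h6 : W₂.a₆ = W₁.a₆ + t ^ 2 - β ^ 3 - W₂.a₄ * β

section

variable {Ω : Type} [Field Ω] {W₁ W₂ : WeierstrassCurve Ω} {β s t : Ω}

theorem PS4_eq (D : PS4_D W₁ W₂ β s t) (x y : Ω) :
    W₁.toAffine.Equation x y ↔ W₂.toAffine.Equation (x + β) (y + s * x + t) := by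
  have e1 : W₂.toAffine.a₁ = 0 := D.b1
  have e2 : W₂.toAffine.a₂ = 0 := D.b2
  have e3 : W₂.toAffine.a₃ = 0 := D.b3
  have h1 : 2 * s = W₁.toAffine.a₁ := D.h1
  have h3 : 2 * t = W₁.toAffine.a₃ := D.h3
  have h2 : 3 * β = W₁.toAffine.a₂ + s ^ 2 := D.h2
  have h4 : W₂.toAffine.a₄ = W₁.toAffine.a₄ + 2 * s * t - 3 * β ^ 2 := D.h4
  have h6 : W₂.toAffine.a₆ = W₁.toAffine.a₆ + t ^ 2 - β ^ 3 - W₂.toAffine.a₄ * β := D.h6
  rw [Affine.equation_iff, Affine.equation_iff, e1, e2, e3]
  constructor
  · intro h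
    linear_combination h + x * y * h1 + y * h3 - x ^ 2 * h2 - x * h4 - h6
  · intro h
    linear_combination h - x * y * h1 - y * h3 + x ^ 2 * h2 + x * h4 + h6

theorem PS4_negY (D : PS4_D W₁ W₂ β s t) (x y : Ω) :
    W₂.toAffine.negY (x + β) (y + s * x + t) = W₁.toAffine.negY x y + s * x + t := by
  have e1 : W₂.toAffine.a₁ = 0 := D.b1
  have e3 : W₂.toAffine.a₃ = 0 := D.b3
  have h1 : 2 * s = W₁.toAffine.a₁ := D.h1
  have h3 : 2 * t = W₁.toAffine.a₃ := D.h3
  rw [Affine.negY, Affine.negY, e1, e3]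
  linear_combination (-x) * h1 - h3

theorem PS4_cond (D : PS4_D W₁ W₂ β s t) (x₁ y₁ x₂ y₂ : Ω) :
    (x₁ + β = x₂ + β ∧ y₁ + s * x₁ + t = W₂.toAffine.negY (x₂ + β) (y₂ + s * x₂ + t)) ↔
      (x₁ = x₂ ∧ y₁ = W₁.toAffine.negY x₂ y₂) := by
  rw [PS4_negY D]
  constructor
  · rintro ⟨h1, h2⟩
    have h3 : x₁ = x₂ := by linear_combination h1
    refine ⟨h3, ?_⟩
    rw [h3] at h2
    linear_combination h2
  · rintro ⟨h1, h2⟩
    rw [h1, h2]
    exact ⟨rfl, rfl⟩

theorem PS4_slope [DecidableEq Ω] (D : PS4_D W₁ W₂ β s t) {x₁ y₁ x₂ y₂ : Ω}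
    (E₁ : W₁.toAffine.Equation x₁ y₁) (E₂ : W₁.toAffine.Equation x₂ y₂)
    (hxy : ¬(x₁ = x₂ ∧ y₁ = W₁.toAffine.negY x₂ y₂)) :
    W₂.toAffine.slope (x₁ + β) (x₂ + β) (y₁ + s * x₁ + t) (y₂ + s * x₂ + t) =
      W₁.toAffine.slope x₁ x₂ y₁ y₂ + s := by
  by_cases hx : x₁ = x₂
  · have hy : y₁ ≠ W₁.toAffine.negY x₂ y₂ := fun h => hxy ⟨hx, h⟩
    have hy' : y₁ + s * x₁ + t ≠ W₂.toAffine.negY (x₂ + β) (y₂ + s * x₂ + t) := fun h =>
      hxy ((PS4_cond D x₁ y₁ x₂ y₂).1 ⟨by rw [hx], h⟩)
    have hyy : y₁ = y₂ := Affine.Y_eq_of_Y_ne E₁ E₂ hx hy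
    rw [Affine.slope_of_Y_ne (by rw [hx]) hy', Affine.slope_of_Y_ne hx hy, PS4_negY D]
    have hne : y₁ - W₁.toAffine.negY x₁ y₁ ≠ 0 := by
      rw [sub_ne_zero]
      rw [← hx, ← hyy] at hy
      exact hy
    have e1 : W₂.toAffine.a₁ = 0 := D.b1
    have e2 : W₂.toAffine.a₂ = 0 := D.b2
    have h1 : 2 * s = W₁.toAffine.a₁ := D.h1
    have h3 : 2 * t = W₁.toAffine.a₃ := D.h3
    have h2 : 3 * β = W₁.toAffine.a₂ + s ^ 2 := D.h2
    have h4 : W₂.toAffine.a₄ = W₁.toAffine.a₄ + 2 * s * t - 3 * β ^ 2 := D.h4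
    have e5 : y₁ + s * x₁ + t - (W₁.toAffine.negY x₁ y₁ + s * x₁ + t) = y₁ - W₁.toAffine.negY x₁ y₁ := by
      ring
    rw [e5, div_add' _ _ _ hne]
    congr 1
    rw [e1, e2, Affine.negY]
    linear_combination h4 + 2 * x₁ * h2 + (-y₁ + s * x₁) * h1 + s * h3
  · have hx' : x₁ + β ≠ x₂ + β := fun h => hx (by linear_combination h)
    have h0 : x₁ - x₂ ≠ 0 := sub_ne_zero.2 hx
    rw [Affine.slope_of_X_ne hx', Affine.slope_of_X_ne hx, add_sub_add_right_eq_sub,
      add_sub_add_right_eq_sub, div_add' _ _ _ h0]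
    congr 1
    ring

theorem PS4_addX (D : PS4_D W₁ W₂ β s t) (x₁ x₂ l : Ω) :
    W₂.toAffine.addX (x₁ + β) (x₂ + β) (l + s) = W₁.toAffine.addX x₁ x₂ l + β := by
  have e1 : W₂.toAffine.a₁ = 0 := D.b1
  have e2 : W₂.toAffine.a₂ = 0 := D.b2
  have h1 : 2 * s = W₁.toAffine.a₁ := D.h1
  have h2 : 3 * β = W₁.toAffine.a₂ + s ^ 2 := D.h2
  rw [Affine.addX, Affine.addX, e1, e2]
  linear_combination l * h1 - h2

theorem PS4_addY (D : PS4_D W₁ W₂ β s t) (x₁ x₂ y₁ l : Ω) :
    W₂.toAffine.addY (x₁ + β) (x₂ + β) (y₁ + s * x₁ + t) (l + s) =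
      W₁.toAffine.addY x₁ x₂ y₁ l + s * W₁.toAffine.addX x₁ x₂ l + t := by
  have h : W₂.toAffine.negAddY (x₁ + β) (x₂ + β) (y₁ + s * x₁ + t) (l + s) =
      W₁.toAffine.negAddY x₁ x₂ y₁ l + s * W₁.toAffine.addX x₁ x₂ l + t := by
    rw [Affine.negAddY, Affine.negAddY, PS4_addX D]
    ring
  rw [Affine.addY, Affine.addY, h, PS4_addX D, PS4_negY D]

theorem PS4_ns [W₁.IsElliptic] [W₂.IsElliptic] (D : PS4_D W₁ W₂ β s t) (x y : Ω) :
    W₁.toAffine.Nonsingular x y ↔ W₂.toAffine.Nonsingular (x + β) (y + s * x + t) := by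
  rw [← Affine.equation_iff_nonsingular (W := W₁.toAffine),
    ← Affine.equation_iff_nonsingular (W := W₂.toAffine)]
  exact PS4_eq D x y

/-- The map on points. -/
noncomputable def PS4_f [W₁.IsElliptic] [W₂.IsElliptic] (D : PS4_D W₁ W₂ β s t) :
    W₁.toAffine.Point → W₂.toAffine.Point
  | 0 => 0
  | .some x y h => .some (x + β) (y + s * x + t) ((PS4_ns D x y).1 h)

theorem PS4_f_add [DecidableEq Ω] [W₁.IsElliptic] [W₂.IsElliptic] (D : PS4_D W₁ W₂ β s t)
    (P Q : W₁.toAffine.Point) : PS4_f D (P + Q) = PS4_f D P + PS4_f D Q := by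
  rcases P with _ | ⟨x₁, y₁, h₁⟩
  · change PS4_f D (0 + Q) = 0 + PS4_f D Q
    rw [zero_add, zero_add]
  rcases Q with _ | ⟨x₂, y₂, h₂⟩
  · change PS4_f D (_ + 0) = _ + 0
    rw [add_zero, add_zero]
  by_cases hxy : x₁ = x₂ ∧ y₁ = W₁.toAffine.negY x₂ y₂
  · rw [Affine.Point.add_of_Y_eq hxy.1 hxy.2]
    have h := (PS4_cond D x₁ y₁ x₂ y₂).2 hxy
    exact (Affine.Point.add_of_Y_eq (h₁ := (PS4_ns D x₁ y₁).1 h₁) (h₂ := (PS4_ns D x₂ y₂).1 h₂)
      h.1 h.2).symm
  · have hxy' : ¬(x₁ + β = x₂ + β ∧ y₁ + s * x₁ + t = W₂.toAffine.negY (x₂ + β) (y₂ + s * x₂ + t)) :=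
      fun h => hxy ((PS4_cond D x₁ y₁ x₂ y₂).1 h)
    have e1 := Affine.Point.add_some hxy' (h₁ := (PS4_ns D x₁ y₁).1 h₁) (h₂ := (PS4_ns D x₂ y₂).1 h₂)
    rw [Affine.Point.add_some hxy]
    refine Eq.trans ?_ e1.symm
    change Affine.Point.some _ _ _ = Affine.Point.some _ _ _
    rw [Affine.Point.some.injEq]
    rw [PS4_slope D h₁.1 h₂.1 hxy, PS4_addX D, PS4_addY D]
    exact ⟨rfl, rfl⟩

theorem PS4_f_inj [W₁.IsElliptic] [W₂.IsElliptic] (D : PS4_D W₁ W₂ β s t) :
    Function.Injective (PS4_f D) := by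
  intro P Q hPQ
  rcases P with _ | ⟨x₁, y₁, h₁⟩
  · rcases Q with _ | ⟨x₂, y₂, h₂⟩
    · rfl
    · exact absurd hPQ (Affine.Point.some_ne_zero _).symm
  · rcases Q with _ | ⟨x₂, y₂, h₂⟩
    · exact absurd hPQ (Affine.Point.some_ne_zero _)
    · have h := Affine.Point.some.inj hPQ
      have hx : x₁ = x₂ := by linear_combination h.1
      have hy : y₁ = y₂ := by linear_combination h.2 - s * hx
      subst hx hy
      rfl

theorem PS4_f_surj [W₁.IsElliptic] [W₂.IsElliptic] (D : PS4_D W₁ W₂ β s t) :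
    Function.Surjective (PS4_f D) := by
  intro P
  rcases P with _ | ⟨x, y, h⟩
  · exact ⟨0, rfl⟩
  · have e1 : x - β + β = x := by ring
    have e2 : y - s * (x - β) - t + s * (x - β) + t = y := by ring
    have h' : W₁.toAffine.Nonsingular (x - β) (y - s * (x - β) - t) := by
      rw [PS4_ns D, e1, e2]
      exact h
    refine ⟨.some (x - β) (y - s * (x - β) - t) h', ?_⟩
    change Affine.Point.some _ _ _ = Affine.Point.some _ _ _
    rw [Affine.Point.some.injEq]
    exact ⟨e1, e2⟩

/-- The isomorphism of the groups of points. -/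
noncomputable def PS4_iso [DecidableEq Ω] [W₁.IsElliptic] [W₂.IsElliptic] (D : PS4_D W₁ W₂ β s t) :
    W₁.toAffine.Point ≃+ W₂.toAffine.Point :=
  AddEquiv.ofBijective (AddMonoidHom.mk' (PS4_f D) (PS4_f_add D)) ⟨PS4_f_inj D, PS4_f_surj D⟩

end

/-- The relation is preserved by base change. -/
theorem PS4_map {k Ω : Type} [Field k] [Field Ω] [Algebra k Ω] {W₁ W₂ : WeierstrassCurve k} {β s t : k}
    (D : PS4_D W₁ W₂ β s t) :
    PS4_D (W₁⁄Ω) (W₂⁄Ω) (algebraMap k Ω β) (algebraMap k Ω s) (algebraMap k Ω t) where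
  b1 := by
    change algebraMap k Ω W₂.a₁ = 0
    rw [D.b1, map_zero]
  b2 := by
    change algebraMap k Ω W₂.a₂ = 0
    rw [D.b2, map_zero]
  b3 := by
    change algebraMap k Ω W₂.a₃ = 0
    rw [D.b3, map_zero]
  h1 := by
    change _ = algebraMap k Ω W₁.a₁
    rw [← D.h1, map_mul, map_ofNat]
  h3 := by
    change _ = algebraMap k Ω W₁.a₃
    rw [← D.h3, map_mul, map_ofNat]
  h2 := by
    change _ = algebraMap k Ω W₁.a₂ + _
    have h := congrArg (algebraMap k Ω) D.h2
    rw [map_mul, map_ofNat, map_add, map_pow] at h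
    exact h
  h4 := by
    change algebraMap k Ω W₂.a₄ = algebraMap k Ω W₁.a₄ + _ - _
    have h := congrArg (algebraMap k Ω) D.h4
    simp only [map_sub, map_add, map_mul, map_pow, map_ofNat] at h
    exact h
  h6 := by
    change algebraMap k Ω W₂.a₆ = algebraMap k Ω W₁.a₆ + _ - _ - algebraMap k Ω W₂.a₄ * _
    have h := congrArg (algebraMap k Ω) D.h6
    simp only [map_sub, map_add, map_mul, map_pow] at h
    exact h

theorem exists_short {k : Type} [Field k] [CharZero k] (W : WeierstrassCurve k) [W.IsElliptic] :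
    ∃ W' : WeierstrassCurve k, W'.IsShortNF ∧ W'.IsElliptic ∧
      ∃ φ : ∀ (Ω : Type) [Field Ω] [DecidableEq Ω] [Algebra k Ω], Pt W Ω ≃+ Pt W' Ω,
        ∀ (Ω Ω' : Type) [Field Ω] [DecidableEq Ω] [Algebra k Ω] [Field Ω'] [DecidableEq Ω'] [Algebra k Ω']
          (f : Ω →ₐ[k] Ω') (P : Pt W Ω), φ Ω' (Affine.Point.map (W' := W.toAffine) f P) =
            Affine.Point.map (W' := W'.toAffine) f (φ Ω P) := by
  set s : k := W.a₁ / 2 with hs
  set t : k := W.a₃ / 2 with ht
  set β : k := (W.a₂ + s ^ 2) / 3 with hβ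
  set A : k := W.a₄ + 2 * s * t - 3 * β ^ 2 with hA
  set B : k := W.a₆ + t ^ 2 - β ^ 3 - A * β with hB
  set W' : WeierstrassCurve k := ⟨0, 0, 0, A, B⟩ with hW'
  have D : PS4_D W W' β s t := by
    refine ⟨rfl, rfl, rfl, ?_, ?_, ?_, rfl, rfl⟩
    · rw [hs]
      field_simp
    · rw [ht]
      field_simp
    · rw [hβ]
      field_simp
  have hΔ : W'.Δ = W.Δ := by
    have h1 := D.h1
    have h3 := D.h3
    have h2 : W.a₂ = 3 * β - s ^ 2 := by linear_combination -D.h2
    have h4 : W.a₄ = A - 2 * s * t + 3 * β ^ 2 := by rw [hA]; ring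
    have h6 : W.a₆ = B - t ^ 2 + β ^ 3 + A * β := by rw [hB]; ring
    simp only [WeierstrassCurve.Δ, WeierstrassCurve.b₂, WeierstrassCurve.b₄, WeierstrassCurve.b₆,
      WeierstrassCurve.b₈]
    rw [← h1, ← h3, h2, h4, h6]
    simp only [hW']
    ring
  have hE : W'.IsElliptic := ⟨by rw [hΔ]; exact W.isUnit_Δ⟩
  have i1 : ∀ (Ω : Type) [Field Ω] [Algebra k Ω], (W⁄Ω).IsElliptic := fun Ω _ _ =>
    inferInstanceAs (W.map (algebraMap k Ω)).IsElliptic
  have i2 : ∀ (Ω : Type) [Field Ω] [Algebra k Ω], (W'⁄Ω).IsElliptic := fun Ω _ _ =>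
    inferInstanceAs (W'.map (algebraMap k Ω)).IsElliptic
  refine ⟨W', ⟨rfl, rfl, rfl⟩, hE, fun Ω _ _ _ => PS4_iso (PS4_map (Ω := Ω) D), ?_⟩
  intro Ω Ω' _ _ _ _ _ _ f P
  rcases P with _ | ⟨x, y, h⟩
  · rfl
  · have e1 : f (algebraMap k Ω β) = algebraMap k Ω' β := f.commutes _
    have e2 : f (algebraMap k Ω s) = algebraMap k Ω' s := f.commutes _
    have e3 : f (algebraMap k Ω t) = algebraMap k Ω' t := f.commutes _
    change Affine.Point.some _ _ _ = Affine.Point.some _ _ _
    rw [Affine.Point.some.injEq]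
    constructor
    · change f x + algebraMap k Ω' β = f (x + algebraMap k Ω β)
      rw [map_add, e1]
    · change f y + algebraMap k Ω' s * f x + algebraMap k Ω' t =
        f (y + algebraMap k Ω s * x + algebraMap k Ω t)
      rw [map_add, map_add, map_mul, e2, e3]

end H55P
end

-- from Lib.H55B.E0
section

open NumberField IsDedekindDomain

namespace H55B

/-! Chunk E0: a binomial coefficient not divisible by p (Lucas).
m = (p^f - 1)/3 has all base p digits equal to (p-1)/3 and 2m has all digits 2(p-1)/3 < p; by Lucas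
(Choose.choose_modEq_prod_range_choose or similar in Mathlib, Nat.Choose.Lucas) binom(2m, m) =
binom(2(p-1)/3, (p-1)/3)^f mod p, nonzero since 2(p-1)/3 < p. (Or: Kummer theorem, no carries; or
induction on f.) -/

theorem choose_not_dvd (p : ℕ) (hp : p.Prime) (h1 : p % 3 = 1) (f : ℕ) :
    ¬ p ∣ Nat.choose (2 * ((p ^ f - 1) / 3)) ((p ^ f - 1) / 3) := by
  have : Fact p.Prime := ⟨hp⟩
  obtain ⟨d, hd⟩ : ∃ d, p = 3 * d + 1 := ⟨p / 3, by omega⟩
  have hpos : 0 < p := hp.pos
  -- p^f = 3 m + 1
  have key : ∀ f : ℕ, ∃ m : ℕ, p ^ f = 3 * m + 1 ∧ ¬ p ∣ Nat.choose (2 * m) m := by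
    intro f
    induction f with
    | zero =>
      refine ⟨0, by simp, ?_⟩
      simp only [mul_zero, Nat.choose_self]
      exact hp.one_lt.ne' ∘ Nat.dvd_one.mp
    | succ f ih =>
      obtain ⟨m, hm, hnd⟩ := ih
      refine ⟨p * m + d, by rw [pow_succ, hm]; linarith [hd, mul_comm p m], ?_⟩
      have hL := Choose.choose_modEq_choose_mod_mul_choose_div_nat (p := p)
        (n := 2 * (p * m + d)) (k := p * m + d)
      have e1 : 2 * (p * m + d) = 2 * d + p * (2 * m) := by ring
      have e2 : (2 * (p * m + d)) % p = 2 * d := by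
        rw [e1, Nat.add_mul_mod_self_left, Nat.mod_eq_of_lt (by omega)]
      have e3 : (2 * (p * m + d)) / p = 2 * m := by
        rw [e1, Nat.add_mul_div_left _ _ hpos, Nat.div_eq_of_lt (by omega), zero_add]
      have e4 : (p * m + d) % p = d := by
        rw [add_comm, Nat.add_mul_mod_self_left, Nat.mod_eq_of_lt (by omega)]
      have e5 : (p * m + d) / p = m := by
        rw [add_comm, Nat.add_mul_div_left _ _ hpos, Nat.div_eq_of_lt (by omega), zero_add]
      rw [e2, e3, e4, e5] at hL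
      intro hdvd
      have h0 : Nat.choose (2 * d) d * Nat.choose (2 * m) m ≡ 0 [MOD p] :=
        hL.symm.trans ((Nat.modEq_zero_iff_dvd).mpr hdvd)
      have h00 := (Nat.modEq_zero_iff_dvd).mp h0
      rcases hp.dvd_mul.mp h00 with h | h
      · have hdf : p ∣ (2 * d).factorial := by
          have := Nat.choose_mul_factorial_mul_factorial (n := 2 * d) (k := d) (by omega)
          rw [← this]
          exact Dvd.dvd.mul_right (Dvd.dvd.mul_right h _) _
        have := (hp.dvd_factorial).mp hdf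
        omega
      · exact hnd h
  obtain ⟨m, hm, hnd⟩ := key f
  have : (p ^ f - 1) / 3 = m := by omega
  rw [this]
  exact hnd

end H55B
end

-- from Lib.H55B.F2
section

open NumberField IsDedekindDomain

namespace H55B

/-! Chunk F2: local polynomial at a place above 3 where v(27) is not a 12th power.
The minimal model W' = C . W has discriminant -27 u^(-12) and c_4 = u^(-4) * 0 = 0. Not good:
v(27) = v(u)^12 is excluded; not multiplicative because v(c_4) = v(0) = 0 <> 1. -/

theorem F2_Δ (K : Type*) [Field K] : (⟨0, 0, 1, 0, 0⟩ : WeierstrassCurve K).Δ = -27 := by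
  simp [WeierstrassCurve.Δ, WeierstrassCurve.b₂, WeierstrassCurve.b₄, WeierstrassCurve.b₆,
    WeierstrassCurve.b₈]

theorem F2_c₄ (K : Type*) [Field K] : (⟨0, 0, 1, 0, 0⟩ : WeierstrassCurve K).c₄ = 0 := by
  simp [WeierstrassCurve.c₄, WeierstrassCurve.b₂, WeierstrassCurve.b₄]

theorem bad_local (R : Type*) [CommRing R] [IsDomain R] [IsDiscreteValuationRing R] (K : Type*)
    [Field K] [Algebra R K] [IsFractionRing R K]
    (h : ∀ u : K, u ≠ 0 → (IsDiscreteValuationRing.maximalIdeal R).valuation K (27 : K) ≠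
      ((IsDiscreteValuationRing.maximalIdeal R).valuation K u) ^ 12) :
    (⟨0, 0, 1, 0, 0⟩ : WeierstrassCurve K).localPolynomial R = 1 := by
  set W : WeierstrassCurve K := ⟨0, 0, 1, 0, 0⟩ with hW
  obtain ⟨C, hC⟩ : ∃ C : WeierstrassCurve.VariableChange K, W.minimal R = C • W :=
    ⟨_, rfl⟩
  have hgood : ¬ (W.minimal R).HasGoodReduction R := by
    intro hg
    have h1 := hg.goodReduction
    rw [hC, WeierstrassCurve.variableChange_Δ, hW, F2_Δ, map_mul, map_pow, Valuation.map_neg] at h1
    apply h (C.u : K) C.u.ne_zero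
    have h2 : (IsDiscreteValuationRing.maximalIdeal R).valuation K ((C.u⁻¹ : Kˣ) : K) =
        ((IsDiscreteValuationRing.maximalIdeal R).valuation K (C.u : K))⁻¹ := by
      rw [Units.val_inv_eq_inv_val, map_inv₀]
    rw [h2, inv_pow] at h1
    have h3 : ((IsDiscreteValuationRing.maximalIdeal R).valuation K (C.u : K)) ^ 12 ≠ 0 :=
      pow_ne_zero _ ((Valuation.ne_zero_iff _).2 C.u.ne_zero)
    exact (inv_mul_eq_one₀ h3).1 h1 |>.symm
  have hmult : ¬ (W.minimal R).HasMultiplicativeReduction R := by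
    intro hm
    have h1 := hm.multiplicativeReduction
    rw [hC, WeierstrassCurve.variableChange_c₄, hW, F2_c₄, mul_zero, map_zero] at h1
    exact zero_ne_one h1
  have hsplit : ¬ (W.minimal R).HasSplitMultiplicativeReduction R := fun hs =>
    hmult hs.toHasMultiplicativeReduction
  unfold WeierstrassCurve.localPolynomial
  rw [if_neg hgood, if_neg hsplit, if_neg hmult]

end H55B
end

-- from Lib.H55B.F3
section

open NumberField IsDedekindDomain

namespace H55B

/-! Chunk F3: the residue field of the completed local ring.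
The ring hom O_K -> adicCompletionIntegers -> residue field is surjective with kernel w: kernel = elements of
valuation < 1; surjective since K is dense in the completion and every y in K with w(y) <= 1 is congruent
modulo the maximal ideal to an element of O_K. Look in Mathlib for adicCompletionIntegers and
ResidueField (RingTheory/DedekindDomain/AdicValuation, NumberField/Completion). -/

open HeightOneSpectrum WithZero in
theorem F3_mem_maximalIdeal (K : Type*) [Field K] [NumberField K] (w : HeightOneSpectrum (𝓞 K))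
    (a : w.adicCompletionIntegers K) :
    a ∈ IsLocalRing.maximalIdeal (w.adicCompletionIntegers K) ↔
      Valued.v (a : w.adicCompletion K) < 1 := by
  rw [IsLocalRing.mem_maximalIdeal, mem_nonunits_iff,
    HeightOneSpectrum.adicCompletionIntegers.isUnit_iff_valued_eq_one]
  have h : Valued.v (a : w.adicCompletion K) ≤ 1 := a.2
  constructor
  · intro h1
    exact lt_of_le_of_ne h h1
  · intro h1
    exact ne_of_lt h1

theorem residue_ker (K : Type*) [Field K] [NumberField K] (w : HeightOneSpectrum (𝓞 K)) :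
    RingHom.ker ((IsLocalRing.residue (w.adicCompletionIntegers K)).comp
      (algebraMap (𝓞 K) (w.adicCompletionIntegers K))) = w.asIdeal := by
  ext x
  rw [RingHom.mem_ker, RingHom.comp_apply, IsLocalRing.residue_eq_zero_iff,
    F3_mem_maximalIdeal, HeightOneSpectrum.algebraMap_adicCompletionIntegers_apply]
  have h : Valued.v ((algebraMap (𝓞 K) K x : K) : w.adicCompletion K) =
      w.valuation K (algebraMap (𝓞 K) K x) :=
    HeightOneSpectrum.valuedAdicCompletion_eq_valuation' w (algebraMap (𝓞 K) K x)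
  rw [h, HeightOneSpectrum.valuation_lt_one_iff_mem]

/-- approximation of an element of the completion by an element of the field -/
theorem F3_approx (K : Type*) [Field K] [NumberField K] (w : HeightOneSpectrum (𝓞 K))
    (y : w.adicCompletion K) : ∃ k : K, Valued.v (y - (k : w.adicCompletion K)) < 1 := by
  obtain ⟨π, hπ⟩ := w.valuation_exists_uniformizer K
  have hπv : Valued.v (π : w.adicCompletion K) = w.valuation K π :=
    HeightOneSpectrum.valuedAdicCompletion_eq_valuation' w π
  have hπ1 : w.valuation K π < 1 := by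
    rw [hπ, ← WithZero.exp_zero]
    exact WithZero.exp_lt_exp.mpr (by norm_num)
  have hπ0 : w.valuation K π ≠ 0 := by
    rw [hπ]
    exact WithZero.exp_ne_zero
  have hπ' : (π : w.adicCompletion K) ≠ 0 := by
    intro h
    apply hπ0
    rw [← hπv, h, map_zero]
  have hopen : IsOpen {z : w.adicCompletion K |
      (y - z) * (π : w.adicCompletion K)⁻¹ ∈ w.adicCompletionIntegers K} := by
    have h1 : IsOpen ((w.adicCompletionIntegers K : Set (w.adicCompletion K))) :=
      Valued.isOpen_valuationSubring (w.adicCompletion K)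
    exact h1.preimage ((continuous_const.sub continuous_id).mul continuous_const)
  obtain ⟨k, hk⟩ := (HeightOneSpectrum.denseRange_algebraMap K w).exists_mem_open hopen
    ⟨y, by
      show (y - y) * (π : w.adicCompletion K)⁻¹ ∈ w.adicCompletionIntegers K
      rw [sub_self, zero_mul]
      exact zero_mem _⟩
  refine ⟨k, ?_⟩
  have hk' : Valued.v ((y - (k : w.adicCompletion K)) * (π : w.adicCompletion K)⁻¹) ≤ 1 := hk
  have h2 : y - (k : w.adicCompletion K) =
      ((y - (k : w.adicCompletion K)) * (π : w.adicCompletion K)⁻¹) * (π : w.adicCompletion K) := by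
    rw [mul_assoc, inv_mul_cancel₀ hπ', mul_one]
  rw [h2, map_mul, hπv]
  calc Valued.v ((y - (k : w.adicCompletion K)) * (π : w.adicCompletion K)⁻¹) * w.valuation K π
      ≤ 1 * w.valuation K π := mul_le_mul_left hk' _
    _ < 1 := by rw [one_mul]; exact hπ1

theorem residue_surj (K : Type*) [Field K] [NumberField K] (w : HeightOneSpectrum (𝓞 K)) :
    Function.Surjective ((IsLocalRing.residue (w.adicCompletionIntegers K)).comp
      (algebraMap (𝓞 K) (w.adicCompletionIntegers K))) := by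
  intro b
  obtain ⟨y, rfl⟩ := IsLocalRing.residue_surjective b
  obtain ⟨k, hk⟩ := F3_approx K w (y : w.adicCompletion K)
  have hkv : Valued.v (k : w.adicCompletion K) = w.valuation K k :=
    HeightOneSpectrum.valuedAdicCompletion_eq_valuation' w k
  have hk1 : w.valuation K k ≤ 1 := by
    rw [← hkv]
    have h1 : (k : w.adicCompletion K) = (y : w.adicCompletion K) - (y - k) := by ring
    rw [h1]
    refine (Valuation.map_sub _ _ _).trans (max_le y.2 hk.le)
  obtain ⟨a, ha⟩ := HeightOneSpectrum.exists_valuation_sub_lt_of_integer w hk1 1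
  refine ⟨a, ?_⟩
  rw [RingHom.comp_apply, ← sub_eq_zero, ← map_sub, IsLocalRing.residue_eq_zero_iff,
    F3_mem_maximalIdeal]
  have h3 : ((algebraMap (𝓞 K) (w.adicCompletionIntegers K) a - y :
      w.adicCompletionIntegers K) : w.adicCompletion K) =
      ((algebraMap (𝓞 K) K a - k : K) : w.adicCompletion K) - ((y : w.adicCompletion K) - k) := by
    have h4 : ((algebraMap (𝓞 K) K a : K) : w.adicCompletion K) =
        ((algebraMap (𝓞 K) K a - k : K) : w.adicCompletion K) + (k : w.adicCompletion K) := by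
      rw [← HeightOneSpectrum.adicCompletion.coe_add, sub_add_cancel]
    show ((algebraMap (𝓞 K) K a : K) : w.adicCompletion K) - (y : w.adicCompletion K) = _
    rw [h4]
    ring
  rw [h3]
  have h5 : Valued.v ((algebraMap (𝓞 K) K a - k : K) : w.adicCompletion K) < 1 := by
    have h6 := HeightOneSpectrum.valuedAdicCompletion_eq_valuation' w (algebraMap (𝓞 K) K a - k)
    rw [h6]
    simpa using ha
  exact lt_of_le_of_lt (Valuation.map_sub _ _ _) (max_lt h5 hk)

theorem residue_card (K : Type*) [Field K] [NumberField K] (w : HeightOneSpectrum (𝓞 K)) :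
    Finite (IsLocalRing.ResidueField (w.adicCompletionIntegers K)) ∧
    Nat.card (IsLocalRing.ResidueField (w.adicCompletionIntegers K)) = Ideal.absNorm w.asIdeal := by
  set φ := (IsLocalRing.residue (w.adicCompletionIntegers K)).comp
      (algebraMap (𝓞 K) (w.adicCompletionIntegers K)) with hφ
  have e1 : (𝓞 K ⧸ RingHom.ker φ) ≃+* IsLocalRing.ResidueField (w.adicCompletionIntegers K) :=
    RingHom.quotientKerEquivOfSurjective (residue_surj K w)
  have e2 : (𝓞 K ⧸ w.asIdeal) ≃+* (𝓞 K ⧸ RingHom.ker φ) :=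
    Ideal.quotEquivOfEq (residue_ker K w).symm
  have hf : Finite (𝓞 K ⧸ w.asIdeal) := w.asIdeal.finiteQuotientOfFreeOfNeBot w.ne_bot
  constructor
  · exact Finite.of_equiv _ (e2.trans e1).toEquiv
  · rw [← Nat.card_congr (e2.trans e1).toEquiv, Ideal.absNorm_apply, Submodule.cardQuot_apply]

/-- The valuation of the completed local ring on K. -/
theorem valuation_compl (K : Type*) [Field K] [NumberField K] (w : HeightOneSpectrum (𝓞 K)) (x : K) :
    (IsDiscreteValuationRing.maximalIdeal (w.adicCompletionIntegers K)).valuation (w.adicCompletion K)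
      (algebraMap K (w.adicCompletion K) x) = w.valuation K x := by
  set R := w.adicCompletionIntegers K with hR
  set M := IsDiscreteValuationRing.maximalIdeal (w.adicCompletionIntegers K) with hM
  by_cases hx : x = 0
  · rw [hx, map_zero, map_zero, map_zero]
  obtain ⟨π, hπ⟩ := w.valuation_exists_uniformizer K
  have hπ0 : π ≠ 0 := by
    intro h
    rw [h, map_zero] at hπ
    exact WithZero.exp_ne_zero hπ.symm
  have hπv : Valued.v (π : w.adicCompletion K) = w.valuation K π :=
    HeightOneSpectrum.valuedAdicCompletion_eq_valuation' w π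
  have hπm : (π : w.adicCompletion K) ∈ w.adicCompletionIntegers K := by
    rw [HeightOneSpectrum.mem_adicCompletionIntegers, hπv, hπ, ← WithZero.exp_zero]
    exact WithZero.exp_le_exp.mpr (by norm_num)
  set p : w.adicCompletionIntegers K := ⟨(π : w.adicCompletion K), hπm⟩ with hp
  have hπ' : (π : w.adicCompletion K) ≠ 0 := by
    intro h
    rw [h, map_zero, hπ] at hπv
    exact WithZero.exp_ne_zero hπv.symm
  have hp0 : p ≠ 0 := by
    intro h
    apply hπ'
    exact congrArg Subtype.val h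
  -- the maximal ideal is generated by p
  have hspan : M.asIdeal = Ideal.span {p} := by
    have hMi : M.asIdeal = IsLocalRing.maximalIdeal (w.adicCompletionIntegers K) := rfl
    rw [hMi]
    ext a
    rw [F3_mem_maximalIdeal, Ideal.mem_span_singleton]
    constructor
    · intro ha
      have h1 : Valued.v ((a : w.adicCompletion K) * (π : w.adicCompletion K)⁻¹) ≤ 1 := by
        rw [map_mul, map_inv₀, hπv, hπ]
        have h2 : Valued.v (a : w.adicCompletion K) ≤ WithZero.exp (-1 : ℤ) := by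
          by_cases h0 : Valued.v (a : w.adicCompletion K) = 0
          · rw [h0]; exact zero_le'
          · rw [← WithZero.exp_log h0] at ha ⊢
            rw [← WithZero.exp_zero, WithZero.exp_lt_exp] at ha
            rw [WithZero.exp_le_exp]
            omega
        calc Valued.v (a : w.adicCompletion K) * (WithZero.exp (-1 : ℤ))⁻¹
            ≤ WithZero.exp (-1 : ℤ) * (WithZero.exp (-1 : ℤ))⁻¹ := mul_le_mul_left h2 _
          _ = 1 := mul_inv_cancel₀ WithZero.exp_ne_zero
      refine ⟨⟨_, h1⟩, ?_⟩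
      apply Subtype.ext
      show (a : w.adicCompletion K) = (π : w.adicCompletion K) * ((a : w.adicCompletion K) *
        (π : w.adicCompletion K)⁻¹)
      rw [mul_comm (a : w.adicCompletion K), ← mul_assoc, mul_inv_cancel₀ hπ', one_mul]
    · rintro ⟨b, rfl⟩
      have h1 : ((p * b : w.adicCompletionIntegers K) : w.adicCompletion K) =
        (π : w.adicCompletion K) * (b : w.adicCompletion K) := rfl
      rw [h1, map_mul, hπv]
      have h2 : Valued.v (b : w.adicCompletion K) ≤ 1 := b.2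
      have h3 : w.valuation K π < 1 := by
        rw [hπ, ← WithZero.exp_zero]
        exact WithZero.exp_lt_exp.mpr (by norm_num)
      calc w.valuation K π * Valued.v (b : w.adicCompletion K) ≤ w.valuation K π * 1 :=
            mul_le_mul_right h2 _
        _ < 1 := by rw [mul_one]; exact h3
  have hMp : M.valuation (w.adicCompletion K) (π : w.adicCompletion K) = WithZero.exp (-1 : ℤ) := by
    have h1 : (π : w.adicCompletion K) =
      algebraMap (w.adicCompletionIntegers K) (w.adicCompletion K) p := rfl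
    rw [h1, HeightOneSpectrum.valuation_of_algebraMap]
    exact M.intValuation_singleton hp0 hspan
  -- units
  have hunit : ∀ u : w.adicCompletion K, Valued.v u = 1 → M.valuation (w.adicCompletion K) u = 1 := by
    intro u hu
    have hum : u ∈ w.adicCompletionIntegers K := by
      rw [HeightOneSpectrum.mem_adicCompletionIntegers, hu]
    have h1 : u = algebraMap (w.adicCompletionIntegers K) (w.adicCompletion K) ⟨u, hum⟩ := rfl
    have h2 : IsUnit (⟨u, hum⟩ : w.adicCompletionIntegers K) := by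
      rw [HeightOneSpectrum.adicCompletionIntegers.isUnit_iff_valued_eq_one]
      exact hu
    rw [h1, HeightOneSpectrum.valuation_of_algebraMap]
    rw [HeightOneSpectrum.intValuation_eq_one_iff]
    intro h3
    have h4 : (⟨u, hum⟩ : w.adicCompletionIntegers K) ∈
        IsLocalRing.maximalIdeal (w.adicCompletionIntegers K) := h3
    rw [F3_mem_maximalIdeal] at h4
    exact absurd hu (ne_of_lt h4)
  have hxv : Valued.v (x : w.adicCompletion K) = w.valuation K x :=
    HeightOneSpectrum.valuedAdicCompletion_eq_valuation' w x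
  have hx0 : w.valuation K x ≠ 0 := (Valuation.ne_zero_iff _).2 hx
  set n : ℤ := WithZero.log (w.valuation K x) with hn
  have hxn : w.valuation K x = WithZero.exp n := (WithZero.exp_log hx0).symm
  have hxx : algebraMap K (w.adicCompletion K) x = (x : w.adicCompletion K) := rfl
  rw [hxx]
  have hu : Valued.v ((x : w.adicCompletion K) * (π : w.adicCompletion K) ^ n) = 1 := by
    rw [map_mul, map_zpow₀, hxv, hπv, hπ, hxn, ← WithZero.exp_zsmul, ← WithZero.exp_add,
      ← WithZero.exp_zero]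
    congr 1
    simp
  have h5 := hunit _ hu
  rw [map_mul, map_zpow₀, hMp, ← WithZero.exp_zsmul] at h5
  rw [hxn]
  have h6 : M.valuation (w.adicCompletion K) (x : w.adicCompletion K) =
      (WithZero.exp (n • (-1 : ℤ)))⁻¹ := by
    exact eq_inv_of_mul_eq_one_left h5
  rw [h6, ← WithZero.exp_neg]
  congr 1
  simp

end H55B
end

-- from Lib.H55B.F1
section

open NumberField IsDedekindDomain

namespace H55B

/-! Chunk F1: local polynomial of y^2 + y = x^3 at a place where 3 is a unit.
W = (0,0,1,0,0) is integral with discriminant -27, a unit, so W itself is minimal and the chosen minimal model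
W' = C . W has v(disc W') >= v(disc W) = 1, so unit discriminant: good reduction. C = (u, r, s, t): from
disc' = u^(-12) disc, u is a unit of R. b_6(W) = 1, b_8(W) = b_4 = b_2 = 0:
u^8 b_8' = 3 r (1 + r^3) in R, so r in R (3 unit; if v(r) > 1 then v(3 r^4) > 1). u^2 a_2' = 3 r - s^2 - s a_1
with a_1 = 0, so s in R; u^6 a_6' = r^3 - t - t^2, so t in R (integrally closed). So C reduces to a variable
change over the residue field k, the reduction of W' is the transform of y^2 + y = x^3 over k and has the same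
number of points ((x, y) -> (u^2 x + r, u^3 y + s u^2 x + t) is a bijection of affine solutions; for an elliptic
curve every affine solution is a nonsingular point, Point = affine points plus one). The integral model is
determined since R -> K is injective. -/

theorem F1_Δ (K : Type*) [CommRing K] : (⟨0, 0, 1, 0, 0⟩ : WeierstrassCurve K).Δ = -27 := by
  simp [WeierstrassCurve.Δ, WeierstrassCurve.b₂, WeierstrassCurve.b₄, WeierstrassCurve.b₆,
    WeierstrassCurve.b₈]

theorem F1_isUnit27 {R : Type*} [CommRing R] (h3 : IsUnit (3 : R)) : IsUnit (-27 : R) := by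
  have : (-27 : R) = -(3 ^ 3) := by norm_num
  rw [this]
  exact (h3.pow 3).neg

theorem F1_val_unit (R : Type*) [CommRing R] [IsDomain R] [IsDiscreteValuationRing R] (K : Type*)
    [Field K] [Algebra R K] [IsFractionRing R K] {x : R} (hx : IsUnit x) :
    (IsDiscreteValuationRing.maximalIdeal R).valuation K (algebraMap R K x) = 1 := by
  refine le_antisymm (IsDedekindDomain.HeightOneSpectrum.valuation_le_one _ _) ?_
  by_contra h
  rw [not_le, IsDedekindDomain.HeightOneSpectrum.valuation_lt_one_iff_mem] at h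
  exact (IsLocalRing.mem_maximalIdeal x).1 h hx

theorem F1_good (R : Type*) [CommRing R] [IsDomain R] [IsDiscreteValuationRing R] (K : Type*)
    [Field K] [Algebra R K] [IsFractionRing R K] (h3 : IsUnit (3 : R)) :
    ((⟨0, 0, 1, 0, 0⟩ : WeierstrassCurve K).minimal R).HasGoodReduction R := by
  set W : WeierstrassCurve K := ⟨0, 0, 1, 0, 0⟩ with hW
  obtain ⟨C, hC⟩ : ∃ C : WeierstrassCurve.VariableChange K, W.minimal R = C • W := ⟨_, rfl⟩
  have hmin : WeierstrassCurve.IsMinimal R (W.minimal R) := inferInstance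
  rw [WeierstrassCurve.hasGoodReduction_iff]
  refine ⟨hmin, ?_⟩
  have hWint : WeierstrassCurve.IsIntegral R W := by
    refine ⟨⟨⟨0, 0, 1, 0, 0⟩, ?_⟩⟩
    rw [hW]
    ext <;> simp [WeierstrassCurve.baseChange]
  have hback : C⁻¹ • W.minimal R = W := by rw [hC, inv_smul_smul]
  have hmax := hmin.val_Δ_maximal
  have hj : WeierstrassCurve.IsIntegral R (C⁻¹ • W.minimal R) := by rw [hback]; exact hWint
  have hval : (WeierstrassCurve.valuation_Δ_aux R (C⁻¹ • W.minimal R)).1 = 1 := by
    rw [hback]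
    rw [WeierstrassCurve.valuation_Δ_aux_eq_of_isIntegral, hW, F1_Δ]
    have := F1_val_unit R K (F1_isUnit27 h3)
    rw [map_neg, map_ofNat] at this
    exact this
  have hle : WeierstrassCurve.valuation_Δ_aux R ((1 : WeierstrassCurve.VariableChange K) •
      W.minimal R) ≤ WeierstrassCurve.valuation_Δ_aux R (C⁻¹ • W.minimal R) := by
    rw [← Subtype.coe_le_coe, hval]
    exact (WeierstrassCurve.valuation_Δ_aux R _).2
  have hge := hmax.2 hj hle
  rw [← Subtype.coe_le_coe, hval] at hge
  change 1 ≤ (WeierstrassCurve.valuation_Δ_aux R ((1 : WeierstrassCurve.VariableChange K) •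
      W.minimal R)).1 at hge
  rw [one_smul, WeierstrassCurve.valuation_Δ_aux_eq_of_isIntegral] at hge
  refine le_antisymm ?_ hge
  obtain ⟨r, hr⟩ := WeierstrassCurve.Δ_integral_of_isIntegral R (W.minimal R)
  rw [← hr]
  exact IsDedekindDomain.HeightOneSpectrum.valuation_le_one _ _

theorem F1_core (R : Type*) [CommRing R] [IsDomain R] [IsDiscreteValuationRing R] (K : Type*)
    [Field K] [Algebra R K] [IsFractionRing R K] (h3 : IsUnit (3 : R)) :
    ∃ C : WeierstrassCurve.VariableChange R,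
      WeierstrassCurve.integralModel R ((⟨0, 0, 1, 0, 0⟩ : WeierstrassCurve K).minimal R) =
        C • (⟨0, 0, 1, 0, 0⟩ : WeierstrassCurve R) := by
  set W : WeierstrassCurve K := ⟨0, 0, 1, 0, 0⟩ with hW
  obtain ⟨C, hC⟩ : ∃ C : WeierstrassCurve.VariableChange K, W.minimal R = C • W := ⟨_, rfl⟩
  set I := WeierstrassCurve.integralModel R (W.minimal R) with hI
  have inj : Function.Injective (algebraMap R K) := IsFractionRing.injective R K
  -- the discriminant of the integral model is a unit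
  have hΔ : IsUnit I.Δ := by
    have hg := (F1_good R K h3).goodReduction
    rw [← WeierstrassCurve.integralModel_Δ_eq R] at hg
    by_contra h
    have := (IsDedekindDomain.HeightOneSpectrum.valuation_lt_one_iff_mem
      (K := K) (IsDiscreteValuationRing.maximalIdeal R) I.Δ).2
      ((IsLocalRing.mem_maximalIdeal _).2 h)
    exact absurd hg this.ne
  have eΔ : algebraMap R K I.Δ = ((C.u⁻¹ : Kˣ) : K) ^ 12 * (-27) := by
    rw [hI, WeierstrassCurve.integralModel_Δ_eq, hC, WeierstrassCurve.variableChange_Δ, hW, F1_Δ]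
  have eb₈ : algebraMap R K I.b₈ = ((C.u⁻¹ : Kˣ) : K) ^ 8 * (3 * C.r + 3 * C.r ^ 4) := by
    rw [hI, WeierstrassCurve.integralModel_b₈_eq, hC, WeierstrassCurve.variableChange_b₈, hW]
    simp [WeierstrassCurve.b₂, WeierstrassCurve.b₄, WeierstrassCurve.b₆, WeierstrassCurve.b₈]
  have ea₂ : algebraMap R K I.a₂ = ((C.u⁻¹ : Kˣ) : K) ^ 2 * (3 * C.r - C.s ^ 2) := by
    rw [hI, WeierstrassCurve.integralModel_a₂_eq, hC, WeierstrassCurve.variableChange_a₂, hW]
    simp
  have ea₆ : algebraMap R K I.a₆ = ((C.u⁻¹ : Kˣ) : K) ^ 6 * (C.r ^ 3 - C.t - C.t ^ 2) := by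
    rw [hI, WeierstrassCurve.integralModel_a₆_eq, hC, WeierstrassCurve.variableChange_a₆, hW]
    simp
  set u : K := (C.u : K) with hu
  have hu0 : u ≠ 0 := C.u.ne_zero
  have huinv : ((C.u⁻¹ : Kˣ) : K) = u⁻¹ := Units.val_inv_eq_inv_val _
  rw [huinv] at eΔ eb₈ ea₂ ea₆
  obtain ⟨d, hd⟩ := hΔ
  obtain ⟨m, hm⟩ := F1_isUnit27 h3
  -- u is integral
  have hdm : algebraMap R K d = u⁻¹ ^ 12 * algebraMap R K m := by
    rw [hd, eΔ, hm, map_neg, map_ofNat]
  have hu12 : u ^ 12 = algebraMap R K ((m : R) * ((d⁻¹ : Rˣ) : R)) := by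
    rw [map_mul]
    have h1 : algebraMap R K d * algebraMap R K ((d⁻¹ : Rˣ) : R) = 1 := by
      rw [← map_mul, Units.mul_inv, map_one]
    have h2 : u ^ 12 * algebraMap R K d = algebraMap R K m := by
      rw [hdm, inv_pow, mul_inv_cancel_left₀ (pow_ne_zero _ hu0)]
    calc u ^ 12 = u ^ 12 * (algebraMap R K d * algebraMap R K ((d⁻¹ : Rˣ) : R)) := by rw [h1, mul_one]
      _ = (u ^ 12 * algebraMap R K d) * algebraMap R K ((d⁻¹ : Rˣ) : R) := by ring
      _ = _ := by rw [h2]
  have huinv12 : u⁻¹ ^ 12 = algebraMap R K ((d : R) * ((m⁻¹ : Rˣ) : R)) := by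
    rw [map_mul]
    have h1 : algebraMap R K m * algebraMap R K ((m⁻¹ : Rˣ) : R) = 1 := by
      rw [← map_mul, Units.mul_inv, map_one]
    rw [hdm, mul_assoc, h1, mul_one]
  obtain ⟨u₀, hu₀⟩ : ∃ u₀ : R, algebraMap R K u₀ = u := by
    apply IsIntegrallyClosed.exists_algebraMap_eq_of_isIntegral_pow (n := 12) (by norm_num)
    rw [hu12]; exact isIntegral_algebraMap
  obtain ⟨v₀, hv₀⟩ : ∃ v₀ : R, algebraMap R K v₀ = u⁻¹ := by
    apply IsIntegrallyClosed.exists_algebraMap_eq_of_isIntegral_pow (n := 12) (by norm_num)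
    rw [huinv12]; exact isIntegral_algebraMap
  have huv : u₀ * v₀ = 1 := by
    apply inj
    rw [map_mul, hu₀, hv₀, map_one, mul_inv_cancel₀ hu0]
  -- r
  obtain ⟨w3, hw3⟩ := h3
  have hw3' : algebraMap R K ((w3⁻¹ : Rˣ) : R) * 3 = 1 := by
    have : (3 : K) = algebraMap R K (w3 : R) := by rw [hw3, map_ofNat]
    rw [this, ← map_mul, Units.inv_mul, map_one]
  have hr4 : C.r ^ 4 + C.r = algebraMap R K (((w3⁻¹ : Rˣ) : R) * (u₀ ^ 8 * I.b₈)) := by
    rw [map_mul, map_mul, map_pow, hu₀, eb₈]
    have : u ^ 8 * (u⁻¹ ^ 8 * (3 * C.r + 3 * C.r ^ 4)) = 3 * (C.r + C.r ^ 4) := by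
      field_simp
    rw [this, ← mul_assoc, hw3', one_mul]; ring
  obtain ⟨r₀, hr₀⟩ : ∃ r₀ : R, algebraMap R K r₀ = C.r := by
    rw [← IsIntegrallyClosed.isIntegral_iff]
    refine ⟨Polynomial.X ^ 4 + Polynomial.X -
      Polynomial.C (((w3⁻¹ : Rˣ) : R) * (u₀ ^ 8 * I.b₈)), ?_, ?_⟩
    · monicity!
    · simp only [Polynomial.eval₂_sub, Polynomial.eval₂_add, Polynomial.eval₂_pow,
        Polynomial.eval₂_X, Polynomial.eval₂_C]
      rw [hr4, sub_self]
  obtain ⟨s₀, hs₀⟩ : ∃ s₀ : R, algebraMap R K s₀ = C.s := by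
    apply IsIntegrallyClosed.exists_algebraMap_eq_of_isIntegral_pow (n := 2) (by norm_num)
    have : C.s ^ 2 = algebraMap R K (3 * r₀ - u₀ ^ 2 * I.a₂) := by
      rw [map_sub, map_mul, map_mul, map_pow, hu₀, hr₀, ea₂]
      have : u ^ 2 * (u⁻¹ ^ 2 * (3 * C.r - C.s ^ 2)) = 3 * C.r - C.s ^ 2 := by
        field_simp
      rw [this, map_ofNat]; ring
    rw [this]; exact isIntegral_algebraMap
  obtain ⟨t₀, ht₀⟩ : ∃ t₀ : R, algebraMap R K t₀ = C.t := by
    rw [← IsIntegrallyClosed.isIntegral_iff]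
    have ht2 : C.t ^ 2 + C.t = algebraMap R K (r₀ ^ 3 - u₀ ^ 6 * I.a₆) := by
      rw [map_sub, map_mul, map_pow, map_pow, hu₀, hr₀, ea₆]
      have : u ^ 6 * (u⁻¹ ^ 6 * (C.r ^ 3 - C.t - C.t ^ 2)) = C.r ^ 3 - C.t - C.t ^ 2 := by
        field_simp
      rw [this]; ring
    refine ⟨Polynomial.X ^ 2 + Polynomial.X - Polynomial.C (r₀ ^ 3 - u₀ ^ 6 * I.a₆), ?_, ?_⟩
    · monicity!
    · simp only [Polynomial.eval₂_sub, Polynomial.eval₂_add, Polynomial.eval₂_pow,
        Polynomial.eval₂_X, Polynomial.eval₂_C]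
      rw [ht2, sub_self]
  refine ⟨⟨⟨u₀, v₀, huv, by rw [mul_comm]; exact huv⟩, r₀, s₀, t₀⟩, ?_⟩
  have hmapinj : Function.Injective
      (fun E : WeierstrassCurve R => E.map (algebraMap R K)) := WeierstrassCurve.map_injective inj
  apply hmapinj
  show I.map (algebraMap R K) = (_ : WeierstrassCurve R).map (algebraMap R K)
  rw [← WeierstrassCurve.map_variableChange]
  have e1 : I.map (algebraMap R K) = W.minimal R := WeierstrassCurve.baseChange_integralModel_eq R _
  rw [e1, hC]
  congr 1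
  · ext
    · show u = algebraMap R K u₀
      rw [hu₀]
    · exact hr₀.symm
    · exact hs₀.symm
    · exact ht₀.symm
  · rw [hW]
    ext <;> simp [WeierstrassCurve.map]

theorem F1_count (k : Type*) [Field k] [Finite k] (D : WeierstrassCurve.VariableChange k)
    (h27 : (27 : k) ≠ 0) :
    Nat.card ((D • (⟨0, 0, 1, 0, 0⟩ : WeierstrassCurve k)).toAffine.Point) =
      Nat.card {p : k × k // p.2 ^ 2 + p.2 = p.1 ^ 3} + 1 := by
  set E : WeierstrassCurve k := D • (⟨0, 0, 1, 0, 0⟩ : WeierstrassCurve k) with hE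
  have hΔ : E.Δ ≠ 0 := by
    rw [hE, WeierstrassCurve.variableChange_Δ, F1_Δ]
    exact mul_ne_zero (pow_ne_zero _ (D.u⁻¹).ne_zero) (neg_ne_zero.2 h27)
  rw [Nat.card_congr E.toAffine.nonsingularPointEquiv]
  have h1 : Nat.card (WithZero {xy : k × k // E.toAffine.Nonsingular xy.fst xy.snd}) =
      Nat.card {xy : k × k // E.toAffine.Nonsingular xy.fst xy.snd} + 1 := by
    have : Finite {xy : k × k // E.toAffine.Nonsingular xy.fst xy.snd} := inferInstance
    exact Finite.card_option
  rw [h1]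
  congr 1
  have hu0 : (D.u : k) ≠ 0 := D.u.ne_zero
  have huinv : ((D.u⁻¹ : kˣ) : k) = (D.u : k)⁻¹ := Units.val_inv_eq_inv_val _
  have key : ∀ x y : k, E.toAffine.Nonsingular x y ↔
      ((D.u : k) ^ 3 * y + (D.u : k) ^ 2 * D.s * x + D.t) ^ 2 +
        ((D.u : k) ^ 3 * y + (D.u : k) ^ 2 * D.s * x + D.t) = ((D.u : k) ^ 2 * x + D.r) ^ 3 := by
    intro x y
    rw [← WeierstrassCurve.Affine.equation_iff_nonsingular_of_Δ_ne_zero (W := E.toAffine) hΔ,
      WeierstrassCurve.Affine.equation_iff']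
    have h6 : (D.u : k) ^ 6 ≠ 0 := pow_ne_zero _ hu0
    rw [← mul_right_inj' h6, mul_zero, ← sub_eq_zero (a := _ + _)]
    have : ∀ a b : k, a = b → (a = 0 ↔ b = 0) := fun a b h => by rw [h]
    apply this
    rw [hE]
    simp only [WeierstrassCurve.variableChange_a₁, WeierstrassCurve.variableChange_a₂,
      WeierstrassCurve.variableChange_a₃, WeierstrassCurve.variableChange_a₄,
      WeierstrassCurve.variableChange_a₆, huinv]
    field_simp
    ring
  refine Nat.card_congr
    ⟨fun p => ⟨((D.u : k) ^ 2 * p.1.1 + D.r,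
        (D.u : k) ^ 3 * p.1.2 + (D.u : k) ^ 2 * D.s * p.1.1 + D.t), (key _ _).1 p.2⟩,
      fun q => ⟨(((D.u : k)⁻¹) ^ 2 * (q.1.1 - D.r),
        ((D.u : k)⁻¹) ^ 3 * (q.1.2 - D.s * (q.1.1 - D.r) - D.t)), ?_⟩, ?_, ?_⟩
  · rw [key]
    have e1 : (D.u : k) ^ 2 * (((D.u : k)⁻¹) ^ 2 * (q.1.1 - D.r)) + D.r = q.1.1 := by
      field_simp; ring
    have e2 : (D.u : k) ^ 3 * (((D.u : k)⁻¹) ^ 3 * (q.1.2 - D.s * (q.1.1 - D.r) - D.t)) +
        (D.u : k) ^ 2 * D.s * (((D.u : k)⁻¹) ^ 2 * (q.1.1 - D.r)) + D.t = q.1.2 := by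
      field_simp; ring
    simp only [e1, e2]
    exact q.2
  · rintro ⟨⟨x, y⟩, h⟩
    simp only [Subtype.mk.injEq, Prod.mk.injEq]
    constructor
    · field_simp <;> ring
    · field_simp <;> ring
  · rintro ⟨⟨x, y⟩, h⟩
    simp only [Subtype.mk.injEq, Prod.mk.injEq]
    constructor
    · field_simp <;> ring
    · field_simp <;> ring

open Polynomial in
theorem good_local (R : Type*) [CommRing R] [IsDomain R] [IsDiscreteValuationRing R] (K : Type*)
    [Field K] [Algebra R K] [IsFractionRing R K] [Finite (IsLocalRing.ResidueField R)]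
    (h3 : IsUnit (3 : R)) :
    (⟨0, 0, 1, 0, 0⟩ : WeierstrassCurve K).localPolynomial R =
      1 - C ((Nat.card (IsLocalRing.ResidueField R) : ℤ) -
        Nat.card {p : IsLocalRing.ResidueField R × IsLocalRing.ResidueField R //
          p.2 ^ 2 + p.2 = p.1 ^ 3}) * X + C (Nat.card (IsLocalRing.ResidueField R) : ℤ) * X ^ 2 := by
  obtain ⟨D, hD⟩ := F1_core R K h3
  have hred : ((⟨0, 0, 1, 0, 0⟩ : WeierstrassCurve K).minimal R).reduction R =
      (D.map (IsLocalRing.residue R)) •
        (⟨0, 0, 1, 0, 0⟩ : WeierstrassCurve (IsLocalRing.ResidueField R)) := by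
    unfold WeierstrassCurve.reduction
    rw [hD, ← WeierstrassCurve.map_variableChange]
    have : (⟨0, 0, 1, 0, 0⟩ : WeierstrassCurve R).map (IsLocalRing.residue R) =
        (⟨0, 0, 1, 0, 0⟩ : WeierstrassCurve (IsLocalRing.ResidueField R)) := by
      ext <;> simp [WeierstrassCurve.map]
    rw [this]
  have h27 : (27 : IsLocalRing.ResidueField R) ≠ 0 := by
    have h := (F1_isUnit27 h3).map (IsLocalRing.residue R)
    have h' := h.ne_zero
    intro h0
    apply h'
    rw [map_neg]
    have : IsLocalRing.residue R 27 = (27 : IsLocalRing.ResidueField R) := map_ofNat _ 27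
    rw [this, h0, neg_zero]
  have hcount := F1_count (IsLocalRing.ResidueField R) (D.map (IsLocalRing.residue R)) h27
  unfold WeierstrassCurve.localPolynomial
  rw [if_pos (F1_good R K h3), hred, hcount]
  push_cast
  congr 3
  congr 1
  ring

end H55B
end
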