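import Mathlib
import Pool.Agent.Lib.H1M.PP.D_H55B_Defs
import Pool.Agent.Lib.H1M.PP.M001
import Pool.Agent.Lib.H1M.PP.M006

/-! Merged copies (to shorten the build) of Lib.H13S.CO1, Lib.H13S.LB, Lib.H55B.E1, Lib.H55R.HA1, Lib.H55R.HA2, Lib.H55R.X9, Lib.H28G.GB2, Lib.H35P.A5, Lib.H28G.VDefs, Lib.H35P.R4, Lib.H35P.FG, Lib.H35P.RD, Lib.H55C.W8, Lib.H55N.H11, Lib.H55N.H4, Lib.H55R.D4. -/

-- from Lib.H13S.CO1
section

open NumberField IsDedekindDomain

namespace H13S

open H55P H28G H55B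

/-- Chunk CO1 (S/M), pure group theory. A cocycle killed by l and vanishing on a subgroup of index prime to l is a coboundary: c (s n) = c s for n in N, so c is a function on the finite
set G/N of left cosets; S = sum of c over G/N; a s S = sum (c (s g) - c s) = S - index * c s. With u * index = 1 modulo l: X = -u S. -/
theorem cob_of_vanish {G M : Type} [Group G] [AddCommGroup M] (a : G → M →+ M)
    (ha : ∀ s t m, a (s * t) m = a s (a t m)) (c : G → M) (hc : ∀ s t, c (s * t) = c s + a s (c t))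
    (N : Subgroup G) (hN : N.index ≠ 0) (h0 : ∀ n ∈ N, c n = 0) (l : ℕ) (hl : l.Coprime N.index)
    (hlc : ∀ s, l • c s = 0) (B : AddSubgroup M) (hB : ∀ s, c s ∈ B) :
    ∃ X ∈ B, ∀ s, c s = a s X - X := by
  classical
  have hfin : Finite (G ⧸ N) := Subgroup.index_ne_zero_iff_finite.1 hN
  have hft : Fintype (G ⧸ N) := Fintype.ofFinite _
  have hwd : ∀ x y : G, (QuotientGroup.leftRel N) x y → c x = c y := by
    intro x y h
    rw [QuotientGroup.leftRel_apply] at h
    have h1 := hc x (x⁻¹ * y)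
    rw [h0 _ h, map_zero, add_zero, mul_inv_cancel_left] at h1
    exact h1.symm
  set cb : G ⧸ N → M := Quotient.lift c hwd with hcb
  have hcbm : ∀ g : G, cb (g : G ⧸ N) = c g := fun g => rfl
  have key : ∀ (s : G) (x : G ⧸ N), a s (cb x) = cb (s • x) - c s := by
    intro s x
    induction x using QuotientGroup.induction_on with
    | H g =>
      change a s (c g) = c (s * g) - c s
      rw [hc, add_sub_cancel_left]
  set S : M := ∑ x : G ⧸ N, cb x with hS
  have hcard : Fintype.card (G ⧸ N) = N.index := by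
    rw [← Nat.card_eq_fintype_card]
    rfl
  have hsum : ∀ s, a s S = S - N.index • c s := by
    intro s
    rw [hS, map_sum]
    simp only [key]
    rw [Finset.sum_sub_distrib, Finset.sum_const, Finset.card_univ, hcard]
    congr 1
    exact Fintype.sum_equiv (MulAction.toPerm s) _ _ fun x => rfl
  have hSB : S ∈ B := AddSubgroup.sum_mem _ fun x _ => by
    induction x using QuotientGroup.induction_on with
    | H g => exact hB g
  have hcop : IsCoprime (l : ℤ) (N.index : ℤ) := Nat.isCoprime_iff_coprime.2 hl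
  obtain ⟨v, u, huv⟩ := hcop
  refine ⟨-(u • S), B.neg_mem (B.zsmul_mem hSB u), fun s => ?_⟩
  rw [map_neg, map_zsmul, hsum, smul_sub]
  have h1 : (u * (N.index : ℤ)) • c s = c s := by
    have h2 : u * (N.index : ℤ) = 1 - v * l := by linarith
    rw [h2, sub_smul, one_smul, mul_smul, natCast_zsmul, hlc, smul_zero, sub_zero]
  rw [mul_smul, natCast_zsmul] at h1
  rw [h1]
  abel

end H13S
end

-- from Lib.H13S.LB
section

open NumberField IsDedekindDomain

namespace H13S

open H55P H28G H55B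

section lbaux

variable {F₀ : Type} [Field F₀] {Ω : Type} [Field Ω] [Algebra F₀ Ω] {V : ValuationSubring Ω}

private theorem lb_mem {s : Ω ≃ₐ[F₀] Ω} (h : Inert V s) {x : Ω} (hx : x ∈ V) : s x ∈ V := by
  have h1 : s x - x ∈ V := (V.valuation_le_one_iff _).1 (h x hx).le
  have h2 := V.add_mem _ _ h1 hx
  rwa [sub_add_cancel] at h2

private theorem lb_mem' {s : Ω ≃ₐ[F₀] Ω} (h : Inert V s) {x : Ω} (hx : s x ∈ V) : x ∈ V := by
  by_contra hcon
  have h1 : 1 < V.valuation x := by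
    rw [← not_le, V.valuation_le_one_iff]
    exact hcon
  have x0 : V.valuation x ≠ 0 := (zero_lt_one.trans h1).ne'
  have h2 : V.valuation x⁻¹ < 1 := by
    rw [map_inv₀]
    exact inv_lt_one_of_one_lt₀ h1
  have h3 := h x⁻¹ ((V.valuation_le_one_iff _).1 h2.le)
  have h4 : V.valuation (s x⁻¹) < 1 := by
    have h5 := V.valuation.map_add_lt h3 h2
    rwa [sub_add_cancel] at h5
  rw [map_inv₀ s, map_inv₀] at h4
  have h6 : V.valuation (s x) ≤ 1 := (V.valuation_le_one_iff _).2 hx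
  have hx0 : x ≠ 0 := by
    rintro rfl
    exact x0 (map_zero _)
  have h7 : V.valuation (s x) ≠ 0 := (V.valuation.ne_zero_iff).2 ((map_ne_zero s).2 hx0)
  exact absurd h4 (not_lt.2 ((one_le_inv₀ (zero_lt_iff.2 h7)).2 h6))

private theorem lb_mul {s t : Ω ≃ₐ[F₀] Ω} (hs : Inert V s) (ht : Inert V t) : Inert V (s * t) := by
  intro x hx
  have h1 := hs (t x) (lb_mem ht hx)
  have h2 := ht x hx
  have h3 := V.valuation.map_add_lt h1 h2
  rw [sub_add_sub_cancel] at h3
  exact h3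

private theorem lb_inv {s : Ω ≃ₐ[F₀] Ω} (hs : Inert V s) : Inert V s⁻¹ := by
  intro x hx
  have h1 : s (s⁻¹ x) = x := by
    rw [← AlgEquiv.mul_apply, mul_inv_cancel, AlgEquiv.one_apply]
  have h2 : s⁻¹ x ∈ V := lb_mem' hs (by rw [h1]; exact hx)
  have h3 := hs _ h2
  rw [h1] at h3
  rw [← Valuation.map_neg, neg_sub]
  exact h3

private theorem lb_pow {s : Ω ≃ₐ[F₀] Ω} (hs : Inert V s) (n : ℕ) : Inert V (s ^ n) := by
  induction n with
  | zero =>
    intro x _
    rw [pow_zero, AlgEquiv.one_apply, sub_self, map_zero]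
    exact zero_lt_one
  | succ n ih =>
    rw [pow_succ]
    exact lb_mul ih hs

end lbaux

private theorem lb_shift {M : Type} [AddCommGroup M] (f : ℕ → M) (l : ℕ) (hf : ∀ i, f (i + l) = f i) (k : ℕ) :
    ∑ i ∈ Finset.range l, f (i + k) = ∑ i ∈ Finset.range l, f i := by
  induction k with
  | zero => rfl
  | succ k ih =>
    rw [← ih]
    have h1 := Finset.sum_range_succ' (fun i => f (i + k)) l
    have h2 := Finset.sum_range_succ (fun i => f (i + k)) l
    rw [h2] at h1
    have h3 : f (l + k) = f (0 + k) := by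
      rw [add_comm l k, hf, zero_add]
    have h4 : ∀ i, f (i + 1 + k) = f (i + (k + 1)) := fun i => by
      congr 1
      ring
    simp only [h4, h3] at h1
    exact (add_right_cancel h1).symm

/-- Chunk LB (M). Step B: decomposition of the elements fixed by the stabilizer of y. I = {s in L.fixingSubgroup : Inert V s} is a subgroup. If s y = y for all s in I: g 0 = a, g j = 0. Otherwise choose
σ in I, σ y = zeta y, zeta ≠ 1, zeta^l = 1 (y^l in L), zeta in L by hμ, so zeta is fixed by I and primitive. e_j = (1/l) sum over i < l of zeta^(-i j) σ^i a. For s in I: s y = zeta^k y for some k, h = σ^(-k) s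
fixes y, so σ^(-i) h σ^i fixes y as well and fixes a: s σ^i a = σ^(k+i) a, and σ^l a = a: s e_j = zeta^(k j) e_j, sum of the e_j over j < l is a. g j = e_j/y^j is fixed by I. -/
theorem step_b {F₀ : Type} [Field F₀] {Ω : Type} [Field Ω] [CharZero Ω] [Algebra F₀ Ω]
    (L : IntermediateField F₀ Ω) (V : ValuationSubring Ω) (l : ℕ) (hl : l.Prime)
    (hμ : ∀ ζ : Ω, ζ ^ l = 1 → ζ ∈ L) (y : Ω) (hy0 : y ≠ 0) (hy : y ^ l ∈ L) (a : Ω)
    (ha : ∀ s ∈ L.fixingSubgroup, Inert V s → s y = y → s a = a) :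
    ∃ g : ℕ → Ω, (∀ j, ∀ s ∈ L.fixingSubgroup, Inert V s → s (g j) = g j) ∧
      a = ∑ j ∈ Finset.range l, g j * y ^ j := by
  have hl0 : 0 < l := hl.pos
  have hnz : NeZero l := ⟨hl0.ne'⟩
  have hΩl : (l : Ω) ≠ 0 := Nat.cast_ne_zero.2 hl0.ne'
  by_cases hall : ∀ s ∈ L.fixingSubgroup, Inert V s → s y = y
  · refine ⟨fun j => if j = 0 then a else 0, fun j s hs hi => ?_, ?_⟩
    · by_cases hj : j = 0
      · simp only [hj, if_true]
        exact ha s hs hi (hall s hs hi)
      · simp only [hj, if_false, map_zero]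
    · rw [Finset.sum_eq_single 0]
      · simp
      · intro j _ hj
        simp [hj]
      · intro h
        exact absurd (Finset.mem_range.2 hl0) h
  push Not at hall
  obtain ⟨σ, hσL, hσI, hσy⟩ := hall
  have hfixL : ∀ s ∈ L.fixingSubgroup, ∀ x ∈ L, s x = x := fun s hs x hx =>
    (IntermediateField.mem_fixingSubgroup_iff _ _).1 hs x hx
  -- roots of unity
  have hroot : ∀ s ∈ L.fixingSubgroup, (s y / y) ^ l = 1 := by
    intro s hs
    rw [div_pow, ← map_pow, hfixL s hs _ hy, div_self (pow_ne_zero l hy0)]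
  set ζ : Ω := σ y / y with hζ
  have hζl : ζ ^ l = 1 := hroot σ hσL
  have hζ1 : ζ ≠ 1 := fun h => hσy (by rw [hζ, div_eq_one_iff_eq hy0] at h; exact h)
  have hζ0 : ζ ≠ 0 := fun h => by
    rw [h, zero_pow hl0.ne'] at hζl
    exact zero_ne_one hζl
  have hprim : IsPrimitiveRoot ζ l := by
    have hfact := Fact.mk hl
    have h1 := orderOf_eq_prime hζl hζ1
    rw [← h1]
    exact IsPrimitiveRoot.orderOf ζ
  have hζL : ζ ∈ L := hμ ζ hζl
  have hσy' : ∀ i : ℕ, (σ ^ i) y = ζ ^ i * y := by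
    intro i
    induction i with
    | zero => simp
    | succ i ih =>
      rw [pow_succ', AlgEquiv.mul_apply, ih, map_mul, map_pow, hfixL σ hσL ζ hζL]
      have : σ y = ζ * y := by rw [hζ, div_mul_cancel₀ _ hy0]
      rw [this]
      ring
  have hσLp : ∀ i : ℕ, σ ^ i ∈ L.fixingSubgroup := fun i => L.fixingSubgroup.pow_mem hσL i
  -- `s` acts as a power of `σ` on the conjugates of `a`
  have hact : ∀ s ∈ L.fixingSubgroup, Inert V s → ∃ k : ℕ, s y = ζ ^ k * y ∧ ∀ i : ℕ, s ((σ ^ i) a) = (σ ^ (i + k)) a := by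
    intro s hs hi
    obtain ⟨k, -, hk⟩ := hprim.eq_pow_of_pow_eq_one (hroot s hs)
    have hsy : s y = ζ ^ k * y := by rw [hk, div_mul_cancel₀ _ hy0]
    refine ⟨k, hsy, fun i => ?_⟩
    set h : Ω ≃ₐ[F₀] Ω := (σ ^ k)⁻¹ * s with hh
    have hhL : h ∈ L.fixingSubgroup := L.fixingSubgroup.mul_mem (L.fixingSubgroup.inv_mem (hσLp k)) hs
    have hhI : Inert V h := lb_mul (lb_inv (lb_pow hσI k)) hi
    have hsh : s = σ ^ k * h := by rw [hh, mul_inv_cancel_left]
    have hhy : h y = y := by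
      rw [hh, AlgEquiv.mul_apply, hsy, ← hσy' k, ← AlgEquiv.mul_apply, inv_mul_cancel, AlgEquiv.one_apply]
    have hhi : h ((σ ^ i) a) = (σ ^ i) a := by
      have h1 : ((σ ^ i)⁻¹ * h * σ ^ i) y = y := by
        rw [AlgEquiv.mul_apply, AlgEquiv.mul_apply, hσy' i, map_mul, map_pow, hfixL h hhL ζ hζL, hhy, ← hσy' i,
          ← AlgEquiv.mul_apply, inv_mul_cancel, AlgEquiv.one_apply]
      have h2 := ha ((σ ^ i)⁻¹ * h * σ ^ i)
        (L.fixingSubgroup.mul_mem (L.fixingSubgroup.mul_mem (L.fixingSubgroup.inv_mem (hσLp i)) hhL) (hσLp i))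
        (lb_mul (lb_mul (lb_inv (lb_pow hσI i)) hhI) (lb_pow hσI i)) h1
      rw [AlgEquiv.mul_apply, AlgEquiv.mul_apply] at h2
      have h3 : (σ ^ i) ((σ ^ i)⁻¹ (h ((σ ^ i) a))) = (σ ^ i) a := by rw [h2]
      rwa [← AlgEquiv.mul_apply, mul_inv_cancel, AlgEquiv.one_apply] at h3
    rw [hsh, AlgEquiv.mul_apply, hhi, ← AlgEquiv.mul_apply, ← pow_add, add_comm]
  have hσl : (σ ^ l) a = a := by
    refine ha _ (hσLp l) (lb_pow hσI l) ?_
    rw [hσy' l, hζl, one_mul]
  set f : ℕ → ℕ → Ω := fun j i => (ζ⁻¹) ^ (i * j) * (σ ^ i) a with hf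
  have hper : ∀ j i, f j (i + l) = f j i := by
    intro j i
    simp only [hf]
    rw [pow_add, AlgEquiv.mul_apply, hσl, add_mul, pow_add, pow_mul (ζ⁻¹) l j, inv_pow ζ l, hζl, inv_one, one_pow, mul_one]
  set e : ℕ → Ω := fun j => (l : Ω)⁻¹ * ∑ i ∈ Finset.range l, f j i with he
  have hes : ∀ j, ∀ s ∈ L.fixingSubgroup, ∀ k : ℕ, (∀ i : ℕ, s ((σ ^ i) a) = (σ ^ (i + k)) a) →
      s (e j) = (ζ ^ k) ^ j * e j := by
    intro j s hs k hk
    simp only [he]
    rw [map_mul, map_inv₀, map_natCast, map_sum]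
    have h1 : ∀ i, s (f j i) = (ζ ^ k) ^ j * f j (i + k) := by
      intro i
      simp only [hf]
      rw [map_mul, map_pow, map_inv₀, hfixL s hs ζ hζL, hk, ← mul_assoc]
      congr 1
      rw [add_mul, pow_add, ← pow_mul]
      have h2 : ζ ^ (k * j) * (ζ⁻¹) ^ (k * j) = 1 := by
        rw [← mul_pow, mul_inv_cancel₀ hζ0, one_pow]
      linear_combination (-(ζ⁻¹) ^ (i * j)) * h2
    simp only [h1]
    rw [← Finset.mul_sum, lb_shift (f j) l (hper j) k]
    ring
  refine ⟨fun j => e j / y ^ j, fun j s hs hi => ?_, ?_⟩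
  · obtain ⟨k, hk1, hk2⟩ := hact s hs hi
    simp only
    rw [map_div₀, map_pow, hes j s hs k hk2, hk1, mul_pow, mul_div_mul_left _ _ (pow_ne_zero j (pow_ne_zero k hζ0))]
  · have h1 : ∀ j ∈ Finset.range l, e j / y ^ j * y ^ j = e j := fun j _ => div_mul_cancel₀ _ (pow_ne_zero j hy0)
    rw [Finset.sum_congr rfl h1]
    simp only [he]
    rw [← Finset.mul_sum, Finset.sum_comm]
    have h2 : ∀ i ∈ Finset.range l, ∑ j ∈ Finset.range l, f j i = if i = 0 then (l : Ω) * a else 0 := by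
      intro i hi
      simp only [hf]
      rw [← Finset.sum_mul]
      by_cases hi0 : i = 0
      · rw [hi0]
        simp
      · rw [if_neg hi0]
        have h3 : (ζ⁻¹) ^ i ≠ 1 := by
          intro h
          rw [inv_pow, inv_eq_one] at h
          exact hprim.pow_ne_one_of_pos_of_lt hi0 (Finset.mem_range.1 hi) h
        have h4 : (∑ j ∈ Finset.range l, ((ζ⁻¹) ^ i) ^ j) * ((ζ⁻¹) ^ i - 1) = 0 := by
          rw [geom_sum_mul, ← pow_mul, mul_comm i l, pow_mul, inv_pow ζ l, hζl, inv_one, one_pow, sub_self]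
        have h5 := (mul_eq_zero.1 h4).resolve_right (sub_ne_zero.2 h3)
        simp only [pow_mul]
        rw [h5, zero_mul]
    rw [Finset.sum_congr rfl h2, Finset.sum_ite_eq' (Finset.range l) 0 fun _ => (l : Ω) * a,
      if_pos (Finset.mem_range.2 hl0), ← mul_assoc, inv_mul_cancel₀ hΩl, one_mul]

end H13S
end

-- from Lib.H55B.E1
section

open NumberField IsDedekindDomain

namespace H55B

/-! Chunk E1: the cubic residue character and the number of points of y^2 + y = x^3.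
phi om is a primitive cube root of unity in k (phi 3 <> 0), so 3 | q - 1, and x^((q-1)/3) is in
{1, phi om, phi om^2} for x <> 0; chi x := the corresponding power of om (phi is injective on
{1, om, om^2}), chi 0 = 0. Nontrivial since k^* is cyclic. Number of x with x^3 = c: for c <> 0 it is
1 + chi c + chi(c)^2, for c = 0 it is 1. So the number of points is sum over y of
(1 + chi(y^2+y) + chi^2(y^2+y)) = q + sum_y chi(y) chi(1+y) + conj; replace y by -y and use
chi(-1) = 1 (chi(-1)^2 = 1 = chi(-1)^3). cj (chi x) = chi(x)^2. -/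

private lemma om_cube : om ^ 3 = 1 := by
  linear_combination (om - 1) * om_rel

private lemma cube_cases {R : Type*} [CommRing R] [IsDomain R] {w z : R} (hw : w ^ 2 + w + 1 = 0)
    (hz : z ^ 3 = 1) : z = 1 ∨ z = w ∨ z = w ^ 2 := by
  have h : (z - 1) * ((z - w) * (z - w ^ 2)) = 0 := by
    have hw3 : w ^ 3 = 1 := by linear_combination (w - 1) * hw
    linear_combination hz - (z ^ 2 - z) * hw - hw3 * (1 - z)
  rcases mul_eq_zero.mp h with h | h
  · left; exact sub_eq_zero.mp h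
  rcases mul_eq_zero.mp h with h | h
  · right; left; exact sub_eq_zero.mp h
  · right; right; exact sub_eq_zero.mp h

section
variable {k : Type*} [Field k] (φ : O →+* k)

private lemma w_rel : (φ om) ^ 2 + φ om + 1 = 0 := by
  have h := congrArg φ om_rel
  simpa using h

private lemma w_ne_one (h3 : φ 3 ≠ 0) : φ om ≠ 1 := by
  intro h
  apply h3
  have h1 := w_rel φ
  rw [h] at h1
  rw [map_ofNat]
  linear_combination h1

private lemma lift_root {u : k} (hu : u ^ 3 = 1) : ∃ z : Oˣ, (z : O) ^ 3 = 1 ∧ φ z = u := by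
  let ω : Oˣ := ⟨om, om ^ 2, by linear_combination om_cube, by linear_combination om_cube⟩
  rcases cube_cases (w_rel φ) hu with h | h | h
  · exact ⟨1, by simp, by simp [h]⟩
  · exact ⟨ω, om_cube, by rw [h]⟩
  · refine ⟨ω ^ 2, ?_, ?_⟩
    · have : ((ω ^ 2 : Oˣ) : O) = om ^ 2 := by simp [ω]
      rw [this]
      linear_combination (om ^ 3 + 1) * om_cube
    · have : ((ω ^ 2 : Oˣ) : O) = om ^ 2 := by simp [ω]
      rw [this, map_pow, h]

private lemma root_uniq (h3 : φ 3 ≠ 0) {z z' : O} (hz : z ^ 3 = 1) (hz' : z' ^ 3 = 1)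
    (h : φ z = φ z') : z = z' := by
  have hw := w_rel φ
  have hw1 := w_ne_one φ h3
  have hw0 : φ om ≠ 0 := by
    intro h; rw [h] at hw; simp at hw
  have hw3 : (φ om) ^ 3 = 1 := by linear_combination (φ om - 1) * hw
  have hw2 : (φ om) ^ 2 ≠ 1 := by
    intro h
    apply hw1
    calc φ om = φ om * (φ om) ^ 2 := by rw [h, mul_one]
      _ = (φ om) ^ 3 := by ring
      _ = 1 := hw3
  have hw12 : (φ om) ^ 2 ≠ φ om := by
    intro h
    apply hw1
    have : φ om * (φ om - 1) = 0 := by linear_combination h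
    rcases mul_eq_zero.mp this with h | h
    · exact absurd h hw0
    · exact sub_eq_zero.mp h
  rcases cube_cases om_rel hz with h1 | h1 | h1 <;> rcases cube_cases om_rel hz' with h2 | h2 | h2 <;>
    subst h1 <;> subst h2 <;> first | rfl | (exfalso; simp only [map_pow, map_one] at h)
  · exact hw1 h.symm
  · exact hw2 h.symm
  · exact hw1 h
  · exact hw12 h.symm
  · exact hw2 h
  · exact hw12 h

end

theorem exists_chi (k : Type*) [Field k] [Fintype k] (φ : O →+* k) (h3 : φ 3 ≠ 0) :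
    ∃ χ : MulChar k O, χ ^ 3 = 1 ∧ χ ≠ 1 ∧ 3 ∣ Fintype.card k - 1 ∧
      (∀ x : k, φ (χ x) = x ^ ((Fintype.card k - 1) / 3)) ∧
      (∀ x : k, cj (χ x) = χ x ^ 2) ∧
      (Nat.card {p : k × k // p.2 ^ 2 + p.2 = p.1 ^ 3} : O) =
        (Fintype.card k : O) + jacobiSum χ χ + cj (jacobiSum χ χ) := by
  classical
  have hw := w_rel φ
  have hw1 := w_ne_one φ h3
  have hw0 : φ om ≠ 0 := by
    intro h; rw [h] at hw; simp at hw
  have hw3 : (φ om) ^ 3 = 1 := by linear_combination (φ om - 1) * hw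
  have hdvd : 3 ∣ Fintype.card k - 1 := by
    have h1 : orderOf (φ om) = 3 := orderOf_eq_prime hw3 hw1
    rw [← h1]
    apply orderOf_dvd_of_pow_eq_one
    exact FiniteField.pow_card_sub_one_eq_one _ hw0
  obtain ⟨m, hm⟩ := hdvd
  have hm' : (Fintype.card k - 1) / 3 = m := by omega
  have hcard : 1 < Fintype.card k := Fintype.one_lt_card
  have hmpos : 0 < m := by omega
  have hroot : ∀ x : kˣ, ((x : k) ^ m) ^ 3 = 1 := by
    intro x
    rw [← pow_mul, mul_comm m 3, ← hm]
    exact FiniteField.pow_card_sub_one_eq_one _ x.ne_zero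
  choose f hf3 hf using fun x : kˣ => lift_root φ (hroot x)
  let F : kˣ →* Oˣ :=
    { toFun := f
      map_one' := by
        apply Units.ext
        apply root_uniq φ h3 (hf3 1) (by simp)
        rw [hf]; simp
      map_mul' := by
        intro x y
        apply Units.ext
        refine root_uniq φ h3 (hf3 _) ?_ ?_
        · rw [Units.val_mul, mul_pow, hf3, hf3, one_mul]
        · rw [Units.val_mul, map_mul, hf, hf, hf, Units.val_mul, mul_pow] }
  let χ : MulChar k O := MulChar.ofUnitHom F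
  have hχu : ∀ x : kˣ, χ x = (f x : O) := fun x => MulChar.ofUnitHom_coe F x
  have hχ0 : χ 0 = 0 := MulChar.map_zero χ
  have hχ3 : χ ^ 3 = 1 := by
    apply MulChar.ext
    intro a
    rw [MulChar.pow_apply_coe, hχu, hf3, MulChar.one_apply_coe]
  have hφχ : ∀ x : k, φ (χ x) = x ^ m := by
    intro x
    by_cases hx : x = 0
    · rw [hx, hχ0, map_zero, zero_pow hmpos.ne']
    · have := hf (Units.mk0 x hx)
      rw [← hχu] at this
      simpa using this
  have hχc : ∀ x : k, x ≠ 0 → χ x ^ 3 = 1 := by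
    intro x hx
    have := hf3 (Units.mk0 x hx)
    rw [← hχu] at this
    simpa using this
  -- cubes
  have hcube : ∀ c : k, c ≠ 0 → c ^ m = 1 → ∃ x, c = x ^ 3 := by
    intro c hc hcm
    obtain ⟨g, hg⟩ := IsCyclic.exists_generator (α := kˣ)
    obtain ⟨j, hj⟩ := (mem_powers_iff_mem_zpowers.mpr (hg (Units.mk0 c hc)))
    have hj' : (g : k) ^ j = c := by
      have := congrArg Units.val hj
      simpa using this
    have h1 : g ^ (j * m) = 1 := by
      apply Units.ext
      rw [Units.val_pow_eq_pow_val, pow_mul, hj', hcm, Units.val_one]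
    have h2 : orderOf g = Fintype.card k - 1 := by
      rw [orderOf_eq_card_of_forall_mem_zpowers hg, Nat.card_eq_fintype_card, Fintype.card_units]
    have h3 := orderOf_dvd_of_pow_eq_one h1
    rw [h2, hm] at h3
    obtain ⟨i, hi⟩ := Nat.dvd_of_mul_dvd_mul_right hmpos h3
    refine ⟨(g : k) ^ i, ?_⟩
    rw [← hj', hi, ← pow_mul, mul_comm]
  have hχne : χ ≠ 1 := by
    obtain ⟨g, hg⟩ := IsCyclic.exists_generator (α := kˣ)
    intro h
    have h1 : χ g = 1 := by rw [h, MulChar.one_apply_coe]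
    have h2 := hφχ g
    rw [h1, map_one] at h2
    have h4 : g ^ m = 1 := by
      apply Units.ext
      rw [Units.val_pow_eq_pow_val, ← h2, Units.val_one]
    have h2 : orderOf g = Fintype.card k - 1 := by
      rw [orderOf_eq_card_of_forall_mem_zpowers hg, Nat.card_eq_fintype_card, Fintype.card_units]
    have h3 := orderOf_dvd_of_pow_eq_one h4
    rw [h2, hm] at h3
    have := Nat.le_of_dvd hmpos h3
    omega
  have hcj : ∀ x : k, cj (χ x) = χ x ^ 2 := by
    intro x
    by_cases hx : x = 0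
    · rw [hx, hχ0]; simp
    · rcases cube_cases om_rel (hχc x hx) with h | h | h
      · rw [h]; simp
      · rw [h, cj_om]
      · rw [h, map_pow, cj_om]
  have hcnt : ∀ c : k, ∑ x : k, (if c = x ^ 3 then (1 : O) else 0) = 1 + χ c + χ c ^ 2 := by
    intro c
    by_cases hc : c = 0
    · subst hc
      rw [hχ0]
      have : ∀ x : k, (if (0 : k) = x ^ 3 then (1 : O) else 0) = if x = 0 then 1 else 0 := by
        intro x
        by_cases hx : x = 0
        · simp [hx]
        · have : (0 : k) ≠ x ^ 3 := (pow_ne_zero 3 hx).symm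
          simp [hx, this]
      simp [this]
    · by_cases hex : ∃ x, c = x ^ 3
      · obtain ⟨x0, hx0⟩ := hex
        have hx00 : x0 ≠ 0 := by
          rintro rfl
          apply hc; rw [hx0]; simp
        have hχc1 : χ c = 1 := by
          rw [hx0, map_pow, hχc x0 hx00]
        have hfil : (Finset.univ.filter fun x : k => c = x ^ 3) =
            {x0, φ om * x0, (φ om) ^ 2 * x0} := by
          ext x
          simp only [Finset.mem_filter, Finset.mem_univ, true_and, Finset.mem_insert,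
            Finset.mem_singleton]
          constructor
          · intro hx
            have h1 : (x / x0) ^ 3 = 1 := by
              rw [div_pow, ← hx, ← hx0, div_self hc]
            rcases cube_cases hw h1 with h | h | h
            · left
              rw [div_eq_iff hx00, one_mul] at h; exact h
            · right; left
              rw [div_eq_iff hx00] at h; exact h
            · right; right
              rw [div_eq_iff hx00] at h; exact h
          · rintro (h | h | h)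
            · rw [h, hx0]
            · rw [h, mul_pow, hw3, one_mul, hx0]
            · rw [h, mul_pow, ← pow_mul, mul_comm 2 3, pow_mul, hw3, one_pow, one_mul, hx0]
        have hw2 : (φ om) ^ 2 ≠ 1 := by
          intro h
          apply hw1
          calc φ om = φ om * (φ om) ^ 2 := by rw [h, mul_one]
            _ = (φ om) ^ 3 := by ring
            _ = 1 := hw3
        have hw12 : (φ om) ≠ φ om ^ 2 := by
          intro h
          apply hw1
          have : φ om * (φ om - 1) = 0 := by linear_combination -h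
          rcases mul_eq_zero.mp this with h | h
          · exact absurd h hw0
          · exact sub_eq_zero.mp h
        have hcard3 : ({x0, φ om * x0, (φ om) ^ 2 * x0} : Finset k).card = 3 := by
          apply Finset.card_eq_three.mpr
          refine ⟨_, _, _, ?_, ?_, ?_, rfl⟩
          · intro h
            apply hw1
            exact (mul_right_cancel₀ hx00 (by rw [one_mul]; exact h)).symm
          · intro h
            apply hw2
            exact (mul_right_cancel₀ hx00 (by rw [one_mul]; exact h)).symm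
          · intro h
            exact hw12 (mul_right_cancel₀ hx00 h)
        rw [Finset.sum_ite, Finset.sum_const_zero, add_zero, Finset.sum_const, hfil, hcard3, hχc1]
        norm_num
      · have h1 : ∑ x : k, (if c = x ^ 3 then (1 : O) else 0) = 0 := by
          apply Finset.sum_eq_zero
          intro x _
          rw [if_neg]
          intro h
          exact hex ⟨x, h⟩
        rw [h1]
        have h2 : χ c ≠ 1 := by
          intro h
          apply hex
          apply hcube c hc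
          rw [← hφχ, h, map_one]
        have h3 : (χ c - 1) * (1 + χ c + χ c ^ 2) = 0 := by
          linear_combination hχc c hc
        rcases mul_eq_zero.mp h3 with h | h
        · exact absurd (sub_eq_zero.mp h) h2
        · exact h.symm
  have hχneg : χ (-1) = 1 := MulChar.val_neg_one_eq_one_of_odd_order (n := 3) (by decide) hχ3
  have hJ : ∑ y : k, χ (y ^ 2 + y) = jacobiSum χ χ := by
    unfold jacobiSum
    rw [← Equiv.sum_comp (Equiv.neg k)]
    apply Finset.sum_congr rfl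
    intro y _
    have : ((Equiv.neg k) y) ^ 2 + (Equiv.neg k) y = (-1) * (y * (1 - y)) := by
      rw [Equiv.neg_apply]; ring
    rw [this, map_mul, hχneg, one_mul, map_mul]
  refine ⟨χ, hχ3, hχne, ⟨m, hm⟩, ?_, hcj, ?_⟩
  · rw [hm']; exact hφχ
  · rw [Nat.card_eq_fintype_card, Fintype.card_subtype, Finset.card_filter]
    push_cast
    rw [Fintype.sum_prod_type_right]
    simp only
    have h1 : ∀ y : k, ∑ x : k, (if y ^ 2 + y = x ^ 3 then (1 : O) else 0) =
        1 + χ (y ^ 2 + y) + cj (χ (y ^ 2 + y)) := by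
      intro y
      rw [hcnt, hcj]
    rw [Finset.sum_congr rfl (fun y _ => h1 y), Finset.sum_add_distrib, Finset.sum_add_distrib,
      ← map_sum cj, hJ]
    simp

end H55B
end

-- from Lib.H55R.HA1
section

namespace H55R

/-! Chunk HA1 (M, pure algebra): the Herbrand quotient does not change under finite index. Write D = Dm, N = Nm n, D N = N D = 0
(1 - σ^n = 0), φ D = D φ, φ N = N φ. Put B = φ.range <= B'. For f in {Dm σ', Nm n σ'} (both map B' to B' and B to B):
(*) [B' : B] = [f B' : f B] [B' ∩ ker f : B ∩ ker f] (B <= B + (B' ∩ ker f) <= B'; B'/(B + B' ∩ ker f) is f B'/f B and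
(B + B' ∩ ker f)/B is (B' ∩ ker f)/(B ∩ ker f)); all factors are nonzero. B ∩ ker D = φ(ker D), N B = φ(N A), so
h0 n σ ⊤ = [B ∩ ker D : N B] and h1 n σ ⊤ = [B ∩ ker N : D B]. From N B <= N B' <= B' ∩ ker D and N B <= B ∩ ker D <= B' ∩ ker D:
[B' ∩ ker D : N B'][N B' : N B] = [B' ∩ ker D : B ∩ ker D][B ∩ ker D : N B] (AddSubgroup.relIndex_mul_relIndex), i.e.
h0' [N B' : N B] = [B' ∩ ker D : B ∩ ker D] h0, in the same way h1' [D B' : D B] = [B' ∩ ker N : B ∩ ker N] h1. Hence h0', h1' <> 0 and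
with (*): h0 h1' = h0' h1. -/

theorem HA1_star {A : Type} [AddCommGroup A] (f : A →+ A) (B B' : AddSubgroup A) (h : B ≤ B') :
    B.relIndex B' = (B.map f).relIndex (B'.map f) * (B ⊓ f.ker).relIndex (B' ⊓ f.ker) := by
  have e1 : (B.map f).relIndex (B'.map f) = (B ⊔ f.ker).relIndex B' := by
    rw [AddSubgroup.relIndex_map_map]
    have e : B' ⊔ f.ker = B' ⊔ (B ⊔ f.ker) := by
      rw [← sup_assoc, sup_eq_left.2 h]
    rw [e, AddSubgroup.relIndex_sup_right]
  have e2 : B.relIndex ((B ⊔ f.ker) ⊓ B') * (B ⊔ f.ker).relIndex B' = B.relIndex B' := by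
    rw [AddSubgroup.relIndex_inf_mul_relIndex, inf_eq_left.2 le_sup_left]
  have e3 : (B ⊔ f.ker) ⊓ B' = B ⊔ (f.ker ⊓ B') := sup_inf_assoc_of_le f.ker h
  have e4 : B.relIndex (B ⊔ (f.ker ⊓ B')) = (B ⊓ f.ker).relIndex (B' ⊓ f.ker) := by
    rw [AddSubgroup.relIndex_sup_left, ← AddSubgroup.inf_relIndex_right]
    congr 1
    · rw [← inf_assoc, inf_eq_left.2 (inf_le_left.trans h)]
    · exact inf_comm _ _
  rw [← e2, e3, e4, e1, mul_comm]

theorem HA1_core {A : Type} [AddCommGroup A] (f g : A →+ A) (hfg : ∀ a, f (g a) = 0)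
    (hgf : ∀ a, g (f a) = 0) (B B' : AddSubgroup A) (h : B ≤ B') (hBf : ∀ b ∈ B, f b ∈ B)
    (hBg : ∀ b ∈ B, g b ∈ B) (hBf' : ∀ b ∈ B', f b ∈ B') (hBg' : ∀ b ∈ B', g b ∈ B')
    (hi : B.relIndex B' ≠ 0) (h0n : (B.map g).relIndex (B ⊓ f.ker) ≠ 0)
    (h1n : (B.map f).relIndex (B ⊓ g.ker) ≠ 0) :
    (B'.map g).relIndex (B' ⊓ f.ker) ≠ 0 ∧ (B'.map f).relIndex (B' ⊓ g.ker) ≠ 0 ∧
      (B.map g).relIndex (B ⊓ f.ker) * (B'.map f).relIndex (B' ⊓ g.ker) =
        (B'.map g).relIndex (B' ⊓ f.ker) * (B.map f).relIndex (B ⊓ g.ker) := by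
  have key : ∀ (f g : A →+ A) (_ : ∀ a, f (g a) = 0) (_ : ∀ b ∈ B, g b ∈ B)
      (_ : ∀ b ∈ B', g b ∈ B'), (B.map g).relIndex (B'.map g) * (B'.map g).relIndex (B' ⊓ f.ker) =
        (B.map g).relIndex (B ⊓ f.ker) * (B ⊓ f.ker).relIndex (B' ⊓ f.ker) := by
    intro f g hfg hB hB'
    rw [AddSubgroup.relIndex_mul_relIndex _ _ _ (AddSubgroup.map_mono h),
      AddSubgroup.relIndex_mul_relIndex]
    · rintro _ ⟨b, hb, rfl⟩
      exact ⟨hB b hb, hfg b⟩
    · exact inf_le_inf_right _ h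
    · rintro _ ⟨b, hb, rfl⟩
      exact ⟨hB' b hb, hfg b⟩
  have s1 := HA1_star f B B' h
  have s2 := HA1_star g B B' h
  have k1 := key f g hfg hBg hBg'
  have k2 := key g f hgf hBf hBf'
  generalize (B.map g).relIndex (B ⊓ f.ker) = hg at *
  generalize (B.map f).relIndex (B ⊓ g.ker) = hf at *
  generalize (B'.map g).relIndex (B' ⊓ f.ker) = hg' at *
  generalize (B'.map f).relIndex (B' ⊓ g.ker) = hf' at *
  generalize (B.map f).relIndex (B'.map f) = af at *
  generalize (B.map g).relIndex (B'.map g) = ag at *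
  generalize (B ⊓ f.ker).relIndex (B' ⊓ f.ker) = kf at *
  generalize (B ⊓ g.ker).relIndex (B' ⊓ g.ker) = kg at *
  generalize B.relIndex B' = m at *
  have haf : af ≠ 0 := by
    rintro rfl
    exact hi (by rw [s1, zero_mul])
  have hkf : kf ≠ 0 := by
    rintro rfl
    exact hi (by rw [s1, mul_zero])
  have hag : ag ≠ 0 := by
    rintro rfl
    exact hi (by rw [s2, zero_mul])
  have hkg : kg ≠ 0 := by
    rintro rfl
    exact hi (by rw [s2, mul_zero])
  refine ⟨?_, ?_, ?_⟩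
  · rintro rfl
    rw [mul_zero] at k1
    exact mul_ne_zero h0n hkf k1.symm
  · rintro rfl
    rw [mul_zero] at k2
    exact mul_ne_zero h1n hkg k2.symm
  · have h2 : (hg * hf') * m = (hg' * hf) * m := by
      calc (hg * hf') * m = (hg * kf) * (af * hf') := by
            rw [s1]
            ring
        _ = (ag * hg') * (hf * kg) := by rw [← k1, k2]
        _ = (hg' * hf) * (ag * kg) := by ring
        _ = (hg' * hf) * m := by rw [← s2]
    exact Nat.eq_of_mul_eq_mul_right (Nat.pos_of_ne_zero hi) h2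

theorem HA1_DN {A : Type} [AddCommGroup A] (n : ℕ) (σ : AddMonoid.End A) (hσ : σ ^ n = 1) (a : A) :
    Dm σ (Nm n σ a) = 0 := by
  have h := mul_neg_geom_sum σ n
  rw [hσ, sub_self] at h
  exact DFunLike.congr_fun h a

theorem HA1_ND {A : Type} [AddCommGroup A] (n : ℕ) (σ : AddMonoid.End A) (hσ : σ ^ n = 1) (a : A) :
    Nm n σ (Dm σ a) = 0 := by
  have h := geom_sum_mul_neg σ n
  rw [hσ, sub_self] at h
  exact DFunLike.congr_fun h a

theorem HA1_D {A : Type} [AddCommGroup A] (σ : AddMonoid.End A) (a : A) : Dm σ a = a - σ a := rfl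

theorem HA1_N {A : Type} [AddCommGroup A] (n : ℕ) (σ : AddMonoid.End A) (a : A) :
    Nm n σ a = ∑ i ∈ Finset.range n, (σ ^ i) a := by
  unfold Nm
  exact AddMonoidHom.finsetSum_apply _ _ _

theorem HA1_pow {A A' : Type} [AddCommGroup A] [AddCommGroup A'] (σ : AddMonoid.End A)
    (σ' : AddMonoid.End A') (φ : A →+ A') (hφ : ∀ a, φ (σ a) = σ' (φ a)) (i : ℕ) (a : A) :
    φ ((σ ^ i) a) = (σ' ^ i) (φ a) := by
  induction i generalizing a with
  | zero => rfl
  | succ i ih =>
    rw [pow_succ, pow_succ]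
    change φ ((σ ^ i) (σ a)) = (σ' ^ i) (σ' (φ a))
    rw [ih, hφ]

theorem HA1_stab {A : Type} [AddCommGroup A] (σ : AddMonoid.End A) (B : AddSubgroup A)
    (hB : ∀ b ∈ B, σ b ∈ B) (i : ℕ) (b : A) (hb : b ∈ B) : (σ ^ i) b ∈ B := by
  induction i generalizing b with
  | zero => exact hb
  | succ i ih =>
    rw [pow_succ]
    exact ih _ (hB b hb)

theorem herb_fi {A A' : Type} [AddCommGroup A] [AddCommGroup A'] (n : ℕ) (σ : AddMonoid.End A)
    (σ' : AddMonoid.End A') (hσ : σ ^ n = 1) (hσ' : σ' ^ n = 1) (φ : A →+ A')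
    (hφ : ∀ a, φ (σ a) = σ' (φ a)) (hi : Function.Injective φ) (B' : AddSubgroup A')
    (hB' : ∀ b ∈ B', σ' b ∈ B') (hr : φ.range ≤ B') (hf : φ.range.relIndex B' ≠ 0)
    (h0n : h0 n σ ⊤ ≠ 0) (h1n : h1 n σ ⊤ ≠ 0) :
    h0 n σ' B' ≠ 0 ∧ h1 n σ' B' ≠ 0 ∧ h0 n σ ⊤ * h1 n σ' B' = h0 n σ' B' * h1 n σ ⊤ := by
  have hD : ∀ a, φ (Dm σ a) = Dm σ' (φ a) := by
    intro a
    rw [HA1_D, HA1_D, map_sub, hφ]
  have hN : ∀ a, φ (Nm n σ a) = Nm n σ' (φ a) := by
    intro a
    rw [HA1_N, HA1_N, map_sum]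
    exact Finset.sum_congr rfl fun i _ => HA1_pow σ σ' φ hφ i a
  have hBs : ∀ b ∈ φ.range, σ' b ∈ φ.range := by
    rintro _ ⟨a, rfl⟩
    exact ⟨σ a, hφ a⟩
  have stD : ∀ B : AddSubgroup A', (∀ b ∈ B, σ' b ∈ B) → ∀ b ∈ B, Dm σ' b ∈ B := by
    intro B hB b hb
    rw [HA1_D]
    exact B.sub_mem hb (hB b hb)
  have stN : ∀ B : AddSubgroup A', (∀ b ∈ B, σ' b ∈ B) → ∀ b ∈ B, Nm n σ' b ∈ B := by
    intro B hB b hb
    rw [HA1_N]
    exact B.sum_mem fun i _ => HA1_stab σ' B hB i b hb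
  have tr : ∀ (f g : A →+ A) (f' g' : A' →+ A'), (∀ a, φ (f a) = f' (φ a)) →
      (∀ a, φ (g a) = g' (φ a)) → ((⊤ : AddSubgroup A).map g).relIndex (⊤ ⊓ f.ker) =
        (φ.range.map g').relIndex (φ.range ⊓ f'.ker) := by
    intro f g f' g' hf hg
    rw [← AddSubgroup.relIndex_map_map_of_injective _ _ hi]
    congr 1
    · ext x
      constructor
      · rintro ⟨_, ⟨a, -, rfl⟩, rfl⟩
        exact ⟨φ a, ⟨a, rfl⟩, (hg a).symm⟩
      · rintro ⟨_, ⟨a, rfl⟩, rfl⟩
        exact ⟨g a, ⟨a, trivial, rfl⟩, hg a⟩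
    · ext x
      constructor
      · rintro ⟨a, ⟨-, ha⟩, rfl⟩
        refine ⟨⟨a, rfl⟩, ?_⟩
        show f' (φ a) = 0
        have ha' : f a = 0 := ha
        rw [← hf, ha', map_zero]
      · rintro ⟨⟨a, rfl⟩, ha⟩
        refine ⟨a, ⟨trivial, ?_⟩, rfl⟩
        show f a = 0
        apply hi
        rw [hf, map_zero]
        exact ha
  have e0 : h0 n σ ⊤ = (φ.range.map (Nm n σ')).relIndex (φ.range ⊓ (Dm σ').ker) :=
    tr (Dm σ) (Nm n σ) _ _ hD hN
  have e1 : h1 n σ ⊤ = (φ.range.map (Dm σ')).relIndex (φ.range ⊓ (Nm n σ').ker) :=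
    tr (Nm n σ) (Dm σ) _ _ hN hD
  rw [e0] at h0n ⊢
  rw [e1] at h1n ⊢
  exact HA1_core (Dm σ') (Nm n σ') (HA1_DN n σ' hσ') (HA1_ND n σ' hσ') _ B' hr (stD _ hBs)
    (stN _ hBs) (stD _ hB') (stN _ hB') hf h0n h1n

end H55R
end

-- from Lib.H55R.HA2
section

namespace H55R

/-! Chunk HA2 (S/M, pure algebra). herb_prod: Nm n (σ × σ') = Nm n σ × Nm n σ' and the same for Dm (σ.prodMap σ' to the power i is
the product of the powers); the map of a product subgroup is the product of the images, kernels and intersections too, and the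
relative index of a product is the product of the relative indices. herb_Z: Dm 1 = 0, Nm n 1 = multiplication by n: h0 = [Z : nZ] = n
(Int.index_zmultiples or similar), h1: the kernel of multiplication by n is 0, relIndex in ⊥ is 1. -/

theorem HA2_N {A : Type} [AddCommGroup A] (n : ℕ) (σ : AddMonoid.End A) (a : A) :
    Nm n σ a = ∑ i ∈ Finset.range n, (σ ^ i) a := by
  unfold Nm
  exact AddMonoidHom.finsetSum_apply _ _ _

theorem HA2_pow {A A' : Type} [AddCommGroup A] [AddCommGroup A'] (σ : AddMonoid.End A)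
    (σ' : AddMonoid.End A') (τ : AddMonoid.End (A × A')) (hτ : ∀ x, τ x = (σ x.1, σ' x.2)) (i : ℕ)
    (x : A × A') : (τ ^ i) x = ((σ ^ i) x.1, (σ' ^ i) x.2) := by
  induction i generalizing x with
  | zero => rfl
  | succ i ih =>
    rw [pow_succ, pow_succ, pow_succ]
    change (τ ^ i) (τ x) = _
    rw [ih, hτ]
    rfl

theorem HA2_Nm {A A' : Type} [AddCommGroup A] [AddCommGroup A'] (n : ℕ) (σ : AddMonoid.End A)
    (σ' : AddMonoid.End A') (τ : AddMonoid.End (A × A')) (hτ : ∀ x, τ x = (σ x.1, σ' x.2))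
    (x : A × A') : Nm n τ x = (Nm n σ x.1, Nm n σ' x.2) := by
  rw [HA2_N, HA2_N, HA2_N]
  simp only [HA2_pow σ σ' τ hτ]
  ext
  · rw [Prod.fst_sum]
  · rw [Prod.snd_sum]

theorem HA2_Dm {A A' : Type} [AddCommGroup A] [AddCommGroup A'] (σ : AddMonoid.End A)
    (σ' : AddMonoid.End A') (τ : AddMonoid.End (A × A')) (hτ : ∀ x, τ x = (σ x.1, σ' x.2))
    (x : A × A') : Dm τ x = (Dm σ x.1, Dm σ' x.2) := by
  show x - τ x = (x.1 - σ x.1, x.2 - σ' x.2)
  rw [hτ]
  rfl

theorem HA2_rel {A A' : Type} [AddCommGroup A] [AddCommGroup A'] (H K : AddSubgroup A)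
    (H' K' : AddSubgroup A') :
    (H.prod H').relIndex (K.prod K') = H.relIndex K * H'.relIndex K' := by
  unfold AddSubgroup.relIndex
  rw [← AddSubgroup.index_prod]
  have h1 : (H.prod H').addSubgroupOf (K.prod K') =
      ((H.addSubgroupOf K).prod (H'.addSubgroupOf K')).comap
        ((K.prodEquiv K').toAddMonoidHom) := by
    ext x
    rfl
  rw [h1]
  exact AddSubgroup.index_comap_of_surjective _ (K.prodEquiv K').surjective

theorem HA2_gen {A A' : Type} [AddCommGroup A] [AddCommGroup A'] (f g : A →+ A) (f' g' : A' →+ A')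
    (F G : A × A' →+ A × A') (hF : ∀ x, F x = (f x.1, f' x.2)) (hG : ∀ x, G x = (g x.1, g' x.2))
    (B : AddSubgroup A) (B' : AddSubgroup A') :
    ((B.prod B').map F).relIndex ((B.prod B') ⊓ G.ker) =
      (B.map f).relIndex (B ⊓ g.ker) * (B'.map f').relIndex (B' ⊓ g'.ker) := by
  rw [← HA2_rel]
  congr 1
  · ext x
    constructor
    · rintro ⟨y, ⟨hy1, hy2⟩, rfl⟩
      rw [hF]
      exact ⟨⟨y.1, hy1, rfl⟩, ⟨y.2, hy2, rfl⟩⟩
    · rintro ⟨⟨a, ha, h1⟩, ⟨b, hb, h2⟩⟩
      refine ⟨(a, b), ⟨ha, hb⟩, ?_⟩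
      rw [hF]
      exact Prod.ext h1 h2
  · ext x
    constructor
    · rintro ⟨⟨hx1, hx2⟩, hx⟩
      have hx' : G x = 0 := hx
      rw [hG] at hx'
      exact ⟨⟨hx1, congrArg Prod.fst hx'⟩, ⟨hx2, congrArg Prod.snd hx'⟩⟩
    · rintro ⟨⟨hx1, h1⟩, ⟨hx2, h2⟩⟩
      refine ⟨⟨hx1, hx2⟩, ?_⟩
      show G x = 0
      rw [hG]
      exact Prod.ext h1 h2

theorem herb_prod {A A' : Type} [AddCommGroup A] [AddCommGroup A'] (n : ℕ) (σ : AddMonoid.End A)
    (σ' : AddMonoid.End A') (B : AddSubgroup A) (B' : AddSubgroup A') :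
    h0 n (AddMonoidHom.prodMap σ σ' : AddMonoid.End (A × A')) (B.prod B') = h0 n σ B * h0 n σ' B' ∧
    h1 n (AddMonoidHom.prodMap σ σ' : AddMonoid.End (A × A')) (B.prod B') = h1 n σ B * h1 n σ' B' :=
  ⟨HA2_gen _ _ _ _ _ _ (HA2_Nm n σ σ' _ fun _ => rfl) (HA2_Dm σ σ' _ fun _ => rfl) B B',
    HA2_gen _ _ _ _ _ _ (HA2_Dm σ σ' _ fun _ => rfl) (HA2_Nm n σ σ' _ fun _ => rfl) B B'⟩

theorem herb_Z (n : ℕ) (hn : n ≠ 0) :
    h0 n (1 : AddMonoid.End ℤ) ⊤ = n ∧ h1 n (1 : AddMonoid.End ℤ) ⊤ = 1 := by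
  have hN : ∀ a : ℤ, Nm n (1 : AddMonoid.End ℤ) a = n * a := by
    intro a
    rw [HA2_N]
    simp only [one_pow]
    rw [Finset.sum_const, Finset.card_range, nsmul_eq_mul]
    rfl
  have hD : ∀ a : ℤ, Dm (1 : AddMonoid.End ℤ) a = 0 := by
    intro a
    show a - a = 0
    rw [sub_self]
  constructor
  · unfold h0
    have e1 : (⊤ : AddSubgroup ℤ) ⊓ (Dm (1 : AddMonoid.End ℤ)).ker = ⊤ := by
      rw [top_inf_eq, eq_top_iff]
      intro a _
      exact hD a
    have e2 : (⊤ : AddSubgroup ℤ).map (Nm n (1 : AddMonoid.End ℤ)) =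
        AddSubgroup.zmultiples (n : ℤ) := by
      ext x
      rw [AddSubgroup.mem_zmultiples_iff]
      constructor
      · rintro ⟨a, -, rfl⟩
        refine ⟨a, ?_⟩
        rw [hN, smul_eq_mul, mul_comm]
      · rintro ⟨a, rfl⟩
        refine ⟨a, trivial, ?_⟩
        rw [hN, smul_eq_mul, mul_comm]
    rw [e1, e2, AddSubgroup.relIndex_top_right, Int.index_zmultiples, Int.natAbs_natCast]
  · unfold h1
    have e1 : (⊤ : AddSubgroup ℤ) ⊓ (Nm n (1 : AddMonoid.End ℤ)).ker = ⊥ := by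
      rw [top_inf_eq, eq_bot_iff]
      intro a ha
      have ha' : Nm n (1 : AddMonoid.End ℤ) a = 0 := ha
      rw [hN] at ha'
      have h3 : (n : ℤ) ≠ 0 := by exact_mod_cast hn
      rcases mul_eq_zero.1 ha' with h | h
      · exact absurd h h3
      · exact h
    rw [e1, AddSubgroup.relIndex_bot_right]

end H55R
end

-- from Lib.H55R.X9
section

open NumberField IsDedekindDomain

namespace H55R

variable {K : Type} [Field K] [NumberField K]

open Classical in
/-- The cyclotomic character: v -> θ (N v mod p). -/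
noncomputable def thetaF (f : Ideal (𝓞 K)) (p : ℕ) (θ : (ZMod p)ˣ →* ℂˣ) : Pl K → ℂˣ := fun v =>
  if h : ¬ f ≤ v.asIdeal ∧ IsUnit ((Ideal.absNorm v.asIdeal : ℕ) : ZMod p) then θ h.2.unit else 1

open Classical in
/-- The restriction of a character to a larger modulus. -/
noncomputable def resF (f : Ideal (𝓞 K)) (φ : Pl K → ℂˣ) : Pl K → ℂˣ := fun v =>
  if f ≤ v.asIdeal then 1 else φ v

/-! Chunk X9 (M). theta_RC: f <= (p). For v not containing f, p is not in v, so N v is prime to p and thetaF v = θ(N v). For an ideal a prime to f, pv a =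
θ(N a mod p) (multiplicativity: UniqueFactorizationMonoid.induction_on_prime or the product over the normalized factors; absNorm is multiplicative). For
x <> 0: absNorm (x) = |N_(K/Q) x| = N_(K/Q) x > 0 because K is totally complex (InfinitePlace.prod_eq_abs_norm and: the norm is a product over pairs
of conjugate embeddings; or Algebra.norm as the product over all embeddings, which come in conjugate pairs), and x = y mod p gives N x = N y mod p
(determinants: the matrices of multiplication by x and y on an integral basis are congruent mod p).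
theta_frob: if ¬ f ≤ v and N v = q as elements of ZMod p with u the unit q, then thetaF v = θ u.
resF_RC: f' <= f: pv of the restriction agrees with pv φ on ideals prime to f'. resF_one: let v not contain f. If v does not contain f', φ v = 1. In
general choose x in 𝓞 K with x = 1 mod f, x in v, x not in v^2, x not in v' for the other primes v' containing f' (those containing f are automatic; Chinese
remainder theorem); then (x) = v a with a prime to f', x prime to f, so 1 = pv φ (1) = pv φ (x) = φ v * pv φ a = φ v. -/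

/-! ### Values at ideals -/

theorem X9_pv_congr (φ ψ : Pl K → ℂˣ) (a : Ideal (𝓞 K))
    (h : ∀ v : Pl K, a ≤ v.asIdeal → φ v = ψ v) : pv φ a = pv ψ a := by
  unfold pv
  refine congrArg Multiset.prod (Multiset.map_congr rfl fun P hP => ?_)
  by_cases h2 : P.IsPrime ∧ P ≠ ⊥
  · rw [dif_pos h2, dif_pos h2]
    exact h _ (Ideal.dvd_iff_le.1 (UniqueFactorizationMonoid.dvd_of_mem_normalizedFactors hP))
  · rw [dif_neg h2, dif_neg h2]

theorem X9_pv_eq_one (φ : Pl K → ℂˣ) (a : Ideal (𝓞 K))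
    (h : ∀ v : Pl K, a ≤ v.asIdeal → φ v = 1) : pv φ a = 1 := by
  rw [X9_pv_congr φ 1 a h, pv_one_fun]

theorem X9_not_le {a f : Ideal (𝓞 K)} (h : IsCoprime a f) (v : Pl K) (ha : a ≤ v.asIdeal) :
    ¬ f ≤ v.asIdeal := by
  intro hf
  rw [Ideal.isCoprime_iff_sup_eq] at h
  exact v.isPrime.ne_top (top_unique (h ▸ sup_le ha hf))

theorem X9_coprime_of {a f : Ideal (𝓞 K)} (ha : a ≠ ⊥)
    (h : ∀ v : Pl K, a ≤ v.asIdeal → ¬ f ≤ v.asIdeal) : IsCoprime a f := by
  rw [Ideal.isCoprime_iff_sup_eq]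
  by_contra hne
  obtain ⟨M, hM, hle⟩ := Ideal.exists_le_maximal _ hne
  have hM0 : M ≠ ⊥ := by
    rintro rfl
    exact ha (le_bot_iff.1 (le_sup_left.trans hle))
  exact h ⟨M, hM.isPrime, hM0⟩ (le_sup_left.trans hle) (le_sup_right.trans hle)

/-! ### The norm modulo p -/

theorem X9_norm_congr (n : ℕ) (x y : 𝓞 K) (h : x - y ∈ Ideal.span {(n : 𝓞 K)}) :
    ((Algebra.norm ℤ x : ℤ) : ZMod n) = ((Algebra.norm ℤ y : ℤ) : ZMod n) := by
  classical
  obtain ⟨z, hz⟩ := Ideal.mem_span_singleton.1 h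
  let b := RingOfIntegers.basis K
  have hx : x = y + (n : ℤ) • z := by
    rw [zsmul_eq_mul]
    push_cast
    rw [← hz]
    ring
  have h1 : (Algebra.leftMulMatrix b x).map (Int.castRingHom (ZMod n)) =
      (Algebra.leftMulMatrix b y).map (Int.castRingHom (ZMod n)) := by
    ext i j
    rw [Matrix.map_apply, Matrix.map_apply, hx, map_add, map_zsmul, Matrix.add_apply,
      Matrix.smul_apply, map_add, smul_eq_mul, map_mul]
    simp
  rw [Algebra.norm_eq_matrix_det b x, Algebra.norm_eq_matrix_det b y]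
  have h2 : ∀ M : Matrix (Module.Free.ChooseBasisIndex ℤ (𝓞 K)) (Module.Free.ChooseBasisIndex ℤ (𝓞 K)) ℤ,
      ((M.det : ℤ) : ZMod n) = (M.map (Int.castRingHom (ZMod n))).det := by
    intro M
    have := RingHom.map_det (Int.castRingHom (ZMod n)) M
    exact this
  rw [h2, h2, h1]

theorem X9_fiber (w : InfinitePlace K) (hw : w.IsComplex) (x : K) [DecidableEq (InfinitePlace K)] :
    ∏ φ ∈ Finset.univ.filter (fun φ : K →+* ℂ => InfinitePlace.mk φ = w), φ x =
      ((‖w.embedding x‖ ^ 2 : ℝ) : ℂ) := by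
  classical
  have hne : w.embedding ≠ ComplexEmbedding.conjugate w.embedding := by
    intro h
    exact (InfinitePlace.isComplex_iff.1 hw) h.symm
  have h1 : Finset.univ.filter (fun φ : K →+* ℂ => InfinitePlace.mk φ = w) =
      {w.embedding, ComplexEmbedding.conjugate w.embedding} := by
    ext φ
    rw [Finset.mem_filter, Finset.mem_insert, Finset.mem_singleton]
    constructor
    · rintro ⟨-, h⟩
      have h2 : InfinitePlace.mk w.embedding = InfinitePlace.mk φ := by
        rw [InfinitePlace.mk_embedding, h]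
      rcases InfinitePlace.mk_eq_iff.1 h2 with h3 | h3
      · exact Or.inl h3.symm
      · exact Or.inr h3.symm
    · intro h
      refine ⟨Finset.mem_univ _, ?_⟩
      rcases h with h | h
      · rw [h, InfinitePlace.mk_embedding]
      · rw [h, InfinitePlace.mk_conjugate_eq, InfinitePlace.mk_embedding]
  rw [h1, Finset.prod_pair hne, ComplexEmbedding.conjugate_coe_eq, Complex.mul_conj,
    Complex.normSq_eq_norm_sq]

theorem X9_norm_nonneg (hK : ∀ v : InfinitePlace K, v.IsComplex) (x : K) :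
    0 ≤ Algebra.norm ℚ x := by
  classical
  have h := Algebra.norm_eq_prod_embeddings ℚ ℂ x
  rw [← Fintype.prod_equiv (RingHom.equivRatAlgHom K ℂ) (fun φ => φ x) (fun f => f x)
    (fun _ => by simp [RingHom.equivRatAlgHom_apply]),
    ← Finset.prod_fiberwise Finset.univ InfinitePlace.mk (fun φ => φ x),
    Finset.prod_congr rfl fun w _ => X9_fiber w (hK w) x, ← Complex.ofReal_prod, eq_ratCast] at h
  have h2 : ((Algebra.norm ℚ x : ℚ) : ℝ) = ∏ w : InfinitePlace K, ‖w.embedding x‖ ^ 2 := by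
    exact_mod_cast h
  have h3 : (0 : ℝ) ≤ ((Algebra.norm ℚ x : ℚ) : ℝ) := by
    rw [h2]
    exact Finset.prod_nonneg fun w _ => by positivity
  exact_mod_cast h3

theorem X9_absNorm (hK : ∀ v : InfinitePlace K, v.IsComplex) (x : 𝓞 K) :
    ((Ideal.absNorm (Ideal.span {x}) : ℕ) : ℤ) = Algebra.norm ℤ x := by
  rw [Ideal.absNorm_span_singleton, Int.natAbs_of_nonneg]
  have h1 := X9_norm_nonneg hK (x : K)
  rw [← Algebra.coe_norm_int] at h1
  exact_mod_cast h1

theorem X9_unit (f : Ideal (𝓞 K)) (p : ℕ) (hp : p.Prime) (hf : f ≤ Ideal.span {(p : 𝓞 K)})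
    (v : Pl K) (hv : ¬ f ≤ v.asIdeal) : IsUnit ((Ideal.absNorm v.asIdeal : ℕ) : ZMod p) := by
  rw [ZMod.isUnit_iff_coprime, Nat.coprime_comm, Nat.Prime.coprime_iff_not_dvd hp]
  intro hdvd
  apply hv
  refine hf.trans ?_
  rw [Ideal.span_singleton_le_iff_mem]
  have hmax := v.isMaximal
  have hfin : Finite (𝓞 K ⧸ v.asIdeal) := Ideal.finiteQuotientOfFreeOfNeBot _ v.ne_bot
  have hcard : Nat.card (𝓞 K ⧸ v.asIdeal) = Ideal.absNorm v.asIdeal := by
    rw [Ideal.absNorm_apply, Submodule.cardQuot_apply]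
  have hF := Fintype.ofFinite (𝓞 K ⧸ v.asIdeal)
  have hpf : Fact p.Prime := ⟨hp⟩
  obtain ⟨x, hx⟩ := exists_prime_addOrderOf_dvd_card' (G := 𝓞 K ⧸ v.asIdeal) p (by rw [hcard]; exact hdvd)
  have hx0 : x ≠ 0 := by
    rintro rfl
    rw [addOrderOf_zero] at hx
    exact hp.one_lt.ne hx
  have hpx : (p : 𝓞 K ⧸ v.asIdeal) * x = 0 := by
    rw [← nsmul_eq_mul, ← hx]
    exact addOrderOf_nsmul_eq_zero x
  have h1 : (p : 𝓞 K ⧸ v.asIdeal) = 0 := (mul_eq_zero.1 hpx).resolve_right hx0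
  rw [← Ideal.Quotient.eq_zero_iff_mem, map_natCast]
  exact h1

theorem X9_pv (f : Ideal (𝓞 K)) (p : ℕ) (hp : p.Prime)
    (hf : f ≤ Ideal.span {(p : 𝓞 K)}) (θ : (ZMod p)ˣ →* ℂˣ) (a : Ideal (𝓞 K)) :
    a ≠ ⊥ → IsCoprime a f → ∃ u : (ZMod p)ˣ, (u : ZMod p) = (Ideal.absNorm a : ℕ) ∧
      pv (thetaF f p θ) a = θ u := by
  induction a using UniqueFactorizationMonoid.induction_on_prime with
  | h₁ => exact fun h => absurd rfl h
  | h₂ x hx =>
    intro _ _
    have h1 : x = 1 := by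
      rw [Ideal.isUnit_iff] at hx
      rw [hx, Ideal.one_eq_top]
    refine ⟨1, ?_, ?_⟩
    · rw [h1, Ideal.one_eq_top, Ideal.absNorm_top]
      simp
    · rw [h1, pv_one, map_one]
  | h₃ a P ha hP ih =>
    intro h1 h2
    obtain ⟨u, hu, hpu⟩ := ih ha h2.of_mul_left_right
    have hP1 : P.IsPrime := Ideal.isPrime_of_prime hP
    obtain ⟨v, hv⟩ : ∃ v : Pl K, v.asIdeal = P := ⟨⟨P, hP1, hP.ne_zero⟩, rfl⟩
    have hvf : ¬ f ≤ v.asIdeal := X9_not_le h2.of_mul_left_left v hv.ge
    have hvu := X9_unit f p hp hf v hvf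
    refine ⟨hvu.unit * u, ?_, ?_⟩
    · rw [Units.val_mul, hu, IsUnit.unit_spec, map_mul, hv]
      push_cast
      rfl
    · rw [pv_mul _ hP.ne_zero ha, hpu, map_mul, ← hv, pv_prime]
      congr 1
      exact dif_pos ⟨hvf, hvu⟩

theorem theta_RC (hK : ∀ v : InfinitePlace K, v.IsComplex) (f : Ideal (𝓞 K)) (p : ℕ)
    (hp : p.Prime) (hf : f ≤ Ideal.span {(p : 𝓞 K)}) (θ : (ZMod p)ˣ →* ℂˣ) :
    thetaF f p θ ∈ RC f := by
  refine ⟨fun v hv => dif_neg fun h => h.1 hv, fun x y hx hy hc hxy => ?_⟩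
  have hx' : Ideal.span {x} ≠ ⊥ := by rwa [Ne, Ideal.span_singleton_eq_bot]
  have hy' : Ideal.span {y} ≠ ⊥ := by rwa [Ne, Ideal.span_singleton_eq_bot]
  have hc' : IsCoprime (Ideal.span {y}) f := by
    refine X9_coprime_of hy' fun v h1 h2 => X9_not_le hc v ?_ h2
    rw [Ideal.span_singleton_le_iff_mem] at h1 ⊢
    have h3 : x = (x - y) + y := by ring
    rw [h3]
    exact v.asIdeal.add_mem (h2 hxy) h1
  obtain ⟨u, hu, hpu⟩ := X9_pv f p hp hf θ _ hx' hc
  obtain ⟨w, hw, hpw⟩ := X9_pv f p hp hf θ _ hy' hc'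
  rw [hpu, hpw]
  congr 1
  apply Units.ext
  rw [hu, hw]
  have h1 := X9_norm_congr p x y (hf hxy)
  rw [← X9_absNorm hK, ← X9_absNorm hK] at h1
  exact_mod_cast h1

theorem theta_apply (f : Ideal (𝓞 K)) (p : ℕ) (hp : p.Prime) (θ : (ZMod p)ˣ →* ℂˣ) (v : Pl K)
    (hv : ¬ f ≤ v.asIdeal) (u : (ZMod p)ˣ) (hu : (u : ZMod p) = (Ideal.absNorm v.asIdeal : ℕ)) :
    thetaF f p θ v = θ u := by
  have h1 : IsUnit ((Ideal.absNorm v.asIdeal : ℕ) : ZMod p) := hu ▸ u.isUnit
  have h2 : thetaF f p θ v = θ h1.unit := dif_pos ⟨hv, h1⟩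
  rw [h2]
  congr 1
  apply Units.ext
  rw [IsUnit.unit_spec, hu]

theorem resF_RC (f f' : Ideal (𝓞 K)) (hle : f' ≤ f) (φ : Pl K → ℂˣ) (hφ : φ ∈ RC f) :
    resF f' φ ∈ RC f' := by
  refine ⟨fun v hv => if_pos hv, fun x y hx hy hc hxy => ?_⟩
  have hy' : Ideal.span {y} ≠ ⊥ := by rwa [Ne, Ideal.span_singleton_eq_bot]
  have hx' : Ideal.span {x} ≠ ⊥ := by rwa [Ne, Ideal.span_singleton_eq_bot]
  have hc' : IsCoprime (Ideal.span {y}) f' := by
    refine X9_coprime_of hy' fun v h1 h2 => X9_not_le hc v ?_ h2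
    rw [Ideal.span_singleton_le_iff_mem] at h1 ⊢
    have h3 : x = (x - y) + y := by ring
    rw [h3]
    exact v.asIdeal.add_mem (h2 hxy) h1
  have key : ∀ a : Ideal (𝓞 K), IsCoprime a f' → pv (resF f' φ) a = pv φ a := fun a ha =>
    X9_pv_congr _ _ a fun v hv => if_neg (X9_not_le ha v hv)
  rw [key _ hc, key _ hc']
  exact hφ.2 x y hx hy (X9_coprime_of hx' fun v h1 h2 => X9_not_le hc v h1 (hle.trans h2)) (hle hxy)

theorem resF_one (f f' : Ideal (𝓞 K)) (hle : f' ≤ f) (hf' : f' ≠ ⊥) (φ : Pl K → ℂˣ)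
    (hφ : φ ∈ RC f) (h : resF f' φ = 1) : φ = 1 := by
  classical
  funext v
  rw [Pi.one_apply]
  by_cases hf : f ≤ v.asIdeal
  · exact hφ.1 v hf
  have hres : ∀ w : Pl K, ¬ f' ≤ w.asIdeal → φ w = 1 := by
    intro w hw
    have h1 := congrFun h w
    rw [Pi.one_apply] at h1
    have h2 : resF f' φ w = φ w := if_neg hw
    rw [← h2, h1]
  have hvu : ¬ IsUnit v.asIdeal := by
    rw [Ideal.isUnit_iff]
    exact v.isPrime.ne_top
  obtain ⟨g, hg1, hg2⟩ := (FiniteMultiplicity.of_not_isUnit hvu hf').exists_eq_pow_mul_and_not_dvd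
  have hf'm : f' = v.asIdeal ^ multiplicity v.asIdeal f' * g := hg1
  have hg0 : g ≠ ⊥ := by
    rintro rfl
    exact hf' (by rw [hf'm]; exact mul_zero _)
  have hgv : IsCoprime g v.asIdeal := by
    refine X9_coprime_of hg0 fun w h1 h2 => hg2 ?_
    rw [Ideal.dvd_iff_le]
    have h3 : v.asIdeal = w.asIdeal := v.isMaximal.eq_of_le w.isPrime.ne_top h2
    rw [h3]
    exact h1
  have hfv : IsCoprime f v.asIdeal := by
    rw [Ideal.isCoprime_iff_sup_eq]
    by_contra hne
    obtain ⟨M, hM, hle⟩ := Ideal.exists_le_maximal _ hne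
    have h4 : v.asIdeal = M := v.isMaximal.eq_of_le hM.ne_top (le_sup_right.trans hle)
    exact hf (h4 ▸ le_sup_left.trans hle)
  have hgf : g ≤ f := by
    rw [← Ideal.dvd_iff_le]
    have h1 : f ∣ v.asIdeal ^ multiplicity v.asIdeal f' * g := by
      rw [← hf'm, Ideal.dvd_iff_le]
      exact hle
    exact (hfv.pow_right).dvd_of_dvd_mul_left h1
  obtain ⟨π, hπ1, hπ2⟩ : ∃ π ∈ v.asIdeal, π ∉ v.asIdeal ^ 2 := by
    have h1 : v.asIdeal ^ 2 < v.asIdeal ^ 1 :=
      Ideal.pow_right_strictAnti v.asIdeal v.ne_bot v.isPrime.ne_top (by norm_num)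
    rw [pow_one] at h1
    obtain ⟨π, h2, h3⟩ := SetLike.exists_of_lt h1
    exact ⟨π, h2, h3⟩
  obtain ⟨i, hi, j, hj, hij⟩ := Ideal.isCoprime_iff_exists.1 (hgv.pow_right (n := 2))
  -- i in g, j in v ^ 2, i + j = 1
  obtain ⟨x, hx⟩ : ∃ x : 𝓞 K, x = j + i * π := ⟨_, rfl⟩
  have hx1 : x - 1 ∈ g := by
    have h1 : x - 1 = i * (π - 1) := by
      rw [hx]
      linear_combination hij
    rw [h1]
    exact g.mul_mem_right _ hi
  have hx2 : x ∈ v.asIdeal := by
    rw [hx]
    exact v.asIdeal.add_mem (Ideal.pow_le_self two_ne_zero hj) (v.asIdeal.mul_mem_left _ hπ1)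
  have hx3 : x ∉ v.asIdeal ^ 2 := by
    intro h1
    apply hπ2
    have h2 : π = x - j * (1 - π) := by
      rw [hx]
      linear_combination (-π) * hij
    rw [h2]
    exact (v.asIdeal ^ 2).sub_mem h1 ((v.asIdeal ^ 2).mul_mem_right _ hj)
  have hx0 : x ≠ 0 := by
    rintro rfl
    exact hx3 (v.asIdeal ^ 2).zero_mem
  obtain ⟨a, ha⟩ : ∃ a, Ideal.span {x} = v.asIdeal * a := by
    have h1 : v.asIdeal ∣ Ideal.span {x} := by
      rw [Ideal.dvd_iff_le, Ideal.span_singleton_le_iff_mem]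
      exact hx2
    exact h1
  have hxs : Ideal.span {x} ≠ ⊥ := by rwa [Ne, Ideal.span_singleton_eq_bot]
  have ha0 : a ≠ ⊥ := by
    rintro rfl
    exact hxs (by rw [ha]; exact mul_zero _)
  have hav : ¬ a ≤ v.asIdeal := by
    intro h1
    apply hx3
    have h2 : Ideal.span {x} ≤ v.asIdeal ^ 2 := by
      rw [ha, sq]
      exact Ideal.mul_mono_right h1
    exact h2 (Ideal.mem_span_singleton_self x)
  have hag : ∀ w : Pl K, a ≤ w.asIdeal → ¬ f' ≤ w.asIdeal := by
    intro w h1 h2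
    have h3 : v.asIdeal ^ multiplicity v.asIdeal f' * g ≤ w.asIdeal := hf'm ▸ h2
    rcases (Ideal.IsPrime.mul_le w.isPrime).1 h3 with h4 | h4
    · have h5 := Ideal.IsPrime.le_of_pow_le h4
      have h6 : v.asIdeal = w.asIdeal := v.isMaximal.eq_of_le w.isPrime.ne_top h5
      exact hav (h6 ▸ h1)
    · have h5 : x ∈ w.asIdeal := by
        have h6 : Ideal.span {x} ≤ w.asIdeal := by
          rw [ha]
          exact Ideal.mul_le_right.trans h1
        exact h6 (Ideal.mem_span_singleton_self x)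
      have h6 : (1 : 𝓞 K) ∈ w.asIdeal := by
        have h7 : (1 : 𝓞 K) = x - (x - 1) := by ring
        rw [h7]
        exact w.asIdeal.sub_mem h5 (h4 hx1)
      exact w.isPrime.ne_top ((Ideal.eq_top_iff_one _).2 h6)
  have hpa : pv φ a = 1 := X9_pv_eq_one φ a fun w hw => hres w (hag w hw)
  have hxf : IsCoprime (Ideal.span {x}) f := by
    refine X9_coprime_of hxs fun w h1 h2 => ?_
    have h5 : x ∈ w.asIdeal := h1 (Ideal.mem_span_singleton_self x)
    have h6 : (1 : 𝓞 K) ∈ w.asIdeal := by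
      have h7 : (1 : 𝓞 K) = x - (x - 1) := by ring
      rw [h7]
      exact w.asIdeal.sub_mem h5 (h2 (hgf hx1))
    exact w.isPrime.ne_top ((Ideal.eq_top_iff_one _).2 h6)
  have h1 := hφ.2 x 1 hx0 one_ne_zero hxf (hgf hx1)
  rw [ha, pv_mul φ v.ne_bot ha0, hpa, mul_one, pv_prime, Ideal.span_singleton_one,
    ← Ideal.one_eq_top, pv_one] at h1
  exact h1

end H55R
end

-- from Lib.H28G.GB2
section

open NumberField IsDedekindDomain WeierstrassCurve

namespace H28G

open H55B

/-! Chunk GB2 (M, PURE MATHLIB): orders of meromorphic functions (elementary).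
Od.mul .. : multiply the analytic factors (zpow_add₀, valid for z <> z0). Od.comp_mul: (b z - b z0)^n = b^n (z - z0)^n; the map z -> b z is continuous and maps the punctured
neighbourhood of z0 to the punctured neighbourhood of b z0. Od.of_simple: g(z) = (z - z0) dslope g z0 z, analytic (A2_dslope), dslope at z0 = deriv. -/

/-- g has order n at z0. -/
def Od (g : ℂ → ℂ) (z₀ : ℂ) (n : ℤ) : Prop :=
  ∃ h : ℂ → ℂ, AnalyticAt ℂ h z₀ ∧ h z₀ ≠ 0 ∧ ∀ᶠ z in nhdsWithin z₀ {z₀}ᶜ, g z = (z - z₀) ^ n * h z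

theorem GB2_ne (z₀ : ℂ) : ∀ᶠ z in nhdsWithin z₀ {z₀}ᶜ, z - z₀ ≠ 0 := by
  filter_upwards [self_mem_nhdsWithin] with z hz
  exact sub_ne_zero.2 hz

theorem Od.mul {g g' : ℂ → ℂ} {z₀ : ℂ} {n n' : ℤ} (h : Od g z₀ n) (h' : Od g' z₀ n') :
    Od (fun z => g z * g' z) z₀ (n + n') := by
  obtain ⟨u, hu, hu0, hu1⟩ := h
  obtain ⟨v, hv, hv0, hv1⟩ := h'
  refine ⟨fun z => u z * v z, hu.mul hv, mul_ne_zero hu0 hv0, ?_⟩
  filter_upwards [hu1, hv1, GB2_ne z₀] with z h1 h2 h3
  rw [h1, h2, zpow_add₀ h3]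
  ring

theorem Od.inv {g : ℂ → ℂ} {z₀ : ℂ} {n : ℤ} (h : Od g z₀ n) : Od (fun z => (g z)⁻¹) z₀ (-n) := by
  obtain ⟨u, hu, hu0, hu1⟩ := h
  refine ⟨fun z => (u z)⁻¹, hu.inv hu0, inv_ne_zero hu0, ?_⟩
  filter_upwards [hu1] with z h1
  rw [h1, mul_inv, zpow_neg]

theorem Od.of_ne {g : ℂ → ℂ} {z₀ : ℂ} (h : AnalyticAt ℂ g z₀) (h0 : g z₀ ≠ 0) : Od g z₀ 0 :=
  ⟨g, h, h0, Filter.Eventually.of_forall fun z => by rw [zpow_zero, one_mul]⟩

theorem Od.prod {ι : Type} (s : Finset ι) {g : ι → ℂ → ℂ} {z₀ : ℂ} {n : ι → ℤ}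
    (h : ∀ i ∈ s, Od (g i) z₀ (n i)) : Od (fun z => ∏ i ∈ s, g i z) z₀ (∑ i ∈ s, n i) := by
  classical
  induction s using Finset.induction_on with
  | empty =>
    simp only [Finset.prod_empty, Finset.sum_empty]
    exact Od.of_ne analyticAt_const one_ne_zero
  | insert a s ha ih =>
    simp only [Finset.prod_insert ha, Finset.sum_insert ha]
    exact (h a (Finset.mem_insert_self a s)).mul
      (ih fun i hi => h i (Finset.mem_insert_of_mem hi))

theorem Od.comp_add {g : ℂ → ℂ} {z₀ a : ℂ} {n : ℤ} (h : Od g (z₀ + a) n) :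
    Od (fun z => g (z + a)) z₀ n := by
  obtain ⟨u, hu, hu0, hu1⟩ := h
  refine ⟨fun z => u (z + a), ?_, hu0, ?_⟩
  · have h1 : AnalyticAt ℂ (fun z : ℂ => z + a) z₀ := analyticAt_id.add analyticAt_const
    exact AnalyticAt.fun_comp hu h1
  · have h2 : Filter.Tendsto (fun z : ℂ => z + a) (nhdsWithin z₀ {z₀}ᶜ)
        (nhdsWithin (z₀ + a) {z₀ + a}ᶜ) := by
      refine tendsto_nhdsWithin_iff.2 ⟨?_, ?_⟩
      · exact ((continuous_id.add continuous_const).tendsto z₀).mono_left nhdsWithin_le_nhds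
      · filter_upwards [self_mem_nhdsWithin] with z hz
        intro h0
        exact hz (add_right_cancel h0)
    filter_upwards [h2.eventually hu1] with z hz
    rw [hz]
    congr 2
    ring

theorem Od.comp_mul {g : ℂ → ℂ} {z₀ b : ℂ} (hb : b ≠ 0) {n : ℤ} (h : Od g (b * z₀) n) :
    Od (fun z => g (b * z)) z₀ n := by
  obtain ⟨u, hu, hu0, hu1⟩ := h
  refine ⟨fun z => b ^ n * u (b * z), ?_, mul_ne_zero (zpow_ne_zero n hb) hu0, ?_⟩
  · have h1 : AnalyticAt ℂ (fun z : ℂ => b * z) z₀ := analyticAt_const.mul analyticAt_id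
    exact analyticAt_const.mul (AnalyticAt.fun_comp hu h1)
  · have h2 : Filter.Tendsto (fun z : ℂ => b * z) (nhdsWithin z₀ {z₀}ᶜ)
        (nhdsWithin (b * z₀) {b * z₀}ᶜ) := by
      refine tendsto_nhdsWithin_iff.2 ⟨?_, ?_⟩
      · exact ((continuous_const.mul continuous_id).tendsto z₀).mono_left nhdsWithin_le_nhds
      · filter_upwards [self_mem_nhdsWithin] with z hz
        intro h0
        exact hz (mul_left_cancel₀ hb h0)
    filter_upwards [h2.eventually hu1] with z hz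
    rw [hz, ← mul_sub, mul_zpow]
    ring

theorem Od.of_simple {g : ℂ → ℂ} {z₀ : ℂ} (h : AnalyticAt ℂ g z₀) (h0 : g z₀ = 0)
    (h1 : deriv g z₀ ≠ 0) : Od g z₀ 1 := by
  have hne : ¬ ∀ᶠ z in nhds z₀, g z = 0 := by
    intro hz
    apply h1
    have : g =ᶠ[nhds z₀] fun _ => (0 : ℂ) := hz
    rw [this.deriv_eq, deriv_const]
  obtain ⟨u, hu, hu1⟩ : ∃ u : ℂ → ℂ, AnalyticAt ℂ u z₀ ∧ ∀ᶠ z in nhds z₀, g z = (z - z₀) * u z := by
    obtain ⟨n, u, hu, hu0, hu1⟩ := h.exists_eventuallyEq_pow_smul_nonzero_iff.2 hne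
    rcases n with _ | n
    · exfalso
      have := hu1.self_of_nhds
      simp at this
      exact hu0 (this ▸ h0)
    · refine ⟨fun z => (z - z₀) ^ n * u z, ?_, ?_⟩
      · exact ((analyticAt_id.sub analyticAt_const).pow n).mul hu
      · filter_upwards [hu1] with z hz
        rw [hz, smul_eq_mul, pow_succ]
        ring
  refine ⟨u, hu, ?_, ?_⟩
  · intro hu0
    apply h1
    have he : g =ᶠ[nhds z₀] fun z => (z - z₀) * u z := hu1
    rw [he.deriv_eq]
    have hd : HasDerivAt (fun z => (z - z₀) * u z) (1 * u z₀ + (z₀ - z₀) * deriv u z₀) z₀ :=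
      ((hasDerivAt_id z₀).sub_const z₀).mul hu.differentiableAt.hasDerivAt
    rw [hd.deriv, hu0]
    ring
  · filter_upwards [nhdsWithin_le_nhds hu1] with z hz
    rw [hz, zpow_one]

end H28G
end

-- from Lib.H35P.A5
section

namespace H35P

variable (L : PeriodPair)

/-! Chunk A5 (M). The Weierstrass zeta function. ζ(z) = ∑' l : L.lattice, ((z - l)⁻¹ + l⁻¹ + z / l^2); for l = 0 the term is z⁻¹ (junk values).
Bound for 2 ‖z‖ ≤ ‖l‖: |(z-l)⁻¹ + l⁻¹ + z/l^2| = |z^2/(l^2 (z-l))| ≤ 2 ‖z‖^2 ‖l‖^(-3). Use L.hasSumLocallyUniformly_aux exactly as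
in Mathlib's hasSumLocallyUniformly_weierstrassPExcept / weierstrassP, and differentiate termwise as in
eqOn_deriv_weierstrassPExcept_derivWeierstrassPExcept (Mathlib/Analysis/SpecialFunctions/Elliptic/Weierstrass.lean), or as in
E1_hasSum / E1_analytic in Lib/H55N/E1.lean: the derivative of the term is -(1/(z-l)^2 - 1/l^2).
The second statement: the linear terms cancel, (a+w-l)⁻¹ + (a-w-l)⁻¹ - 2 (a-l)⁻¹, reindex l → -l. -/

/-- A term of the zeta function. -/
noncomputable def A5_t (l z : ℂ) : ℂ := (z - l)⁻¹ + l⁻¹ + z / l ^ 2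

theorem A5_bound (r : ℝ) (hr : 0 < r) (s : ℂ) (hs : ‖s‖ < r) (l : ℂ) (h : 2 * r ≤ ‖l‖) :
    ‖A5_t l s‖ ≤ 2 * r ^ 2 * ‖l‖ ^ (-3 : ℝ) := by
  have hl0 : 0 < ‖l‖ := by linarith
  have hl : l ≠ 0 := norm_pos_iff.1 hl0
  have h1 : ‖l‖ / 2 ≤ ‖s - l‖ := by
    have := norm_sub_norm_le l s
    rw [norm_sub_rev] at this
    linarith
  have h1' : 0 < ‖s - l‖ := by linarith
  have hsl : s - l ≠ 0 := norm_pos_iff.1 h1'
  have e1 : A5_t l s = s ^ 2 / (l ^ 2 * (s - l)) := by
    unfold A5_t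
    field_simp
    ring
  have e2 : ‖l‖ ^ (-3 : ℝ) = 1 / ‖l‖ ^ 3 := by
    rw [Real.rpow_neg hl0.le]
    norm_num
  rw [e1, e2, norm_div, norm_mul, norm_pow, norm_pow, mul_one_div]
  rw [div_le_div_iff₀ (by positivity) (by positivity)]
  calc ‖s‖ ^ 2 * ‖l‖ ^ 3 ≤ r ^ 2 * ‖l‖ ^ 3 := by gcongr
    _ = 2 * r ^ 2 * (‖l‖ ^ 2 * (‖l‖ / 2)) := by ring
    _ ≤ 2 * r ^ 2 * (‖l‖ ^ 2 * ‖s - l‖) := by gcongr

/-- The zeta function. -/
noncomputable def A5_z (z : ℂ) : ℂ := ∑' l : L.lattice, A5_t l.1 z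

theorem A5_unif : HasSumLocallyUniformly (fun (l : L.lattice) (z : ℂ) => A5_t l.1 z) (A5_z L) := by
  refine L.hasSumLocallyUniformly_aux (u := (2 * · ^ 2 * ‖·‖ ^ (-3 : ℝ))) _
    (fun _ _ => (ZLattice.summable_norm_rpow _ _ (by simp; norm_num)).mul_left _) fun r hr =>
    Filter.eventually_atTop.mpr ⟨2 * r, ?_⟩
  rintro _ h s hs l rfl
  exact A5_bound r hr s hs l h

theorem A5_term_deriv (l z : ℂ) (h : z ≠ l) : HasDerivAt (A5_t l) (-(1 / (z - l) ^ 2 - 1 / l ^ 2)) z := by
  have hz : z - l ≠ 0 := sub_ne_zero.2 h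
  have h1 : HasDerivAt (fun z : ℂ => z - l) 1 z := (hasDerivAt_id z).sub_const l
  have h2 : HasDerivAt (fun z : ℂ => (z - l)⁻¹) (-1 / (z - l) ^ 2) z := h1.inv hz
  have h3 : HasDerivAt (fun z : ℂ => z / l ^ 2) (1 / l ^ 2) z := (hasDerivAt_id z).div_const _
  have h4 := (h2.add_const l⁻¹).add h3
  refine h4.congr_deriv ?_
  ring

theorem A5_diffOn (s : Finset L.lattice) :
    DifferentiableOn ℂ (fun z => ∑ l ∈ s, A5_t l.1 z) (L.lattice : Set ℂ)ᶜ := by
  refine .fun_sum fun i _ => ?_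
  intro z hz
  refine (A5_term_deriv i.1 z ?_).differentiableAt.differentiableWithinAt
  rintro rfl
  exact hz i.2

theorem A5_hasDeriv (z : ℂ) (hz : z ∉ L.lattice) : HasDerivAt (A5_z L) (-L.weierstrassP z) z := by
  have ho : IsOpen ((L.lattice : Set ℂ)ᶜ) := L.isClosed_lattice.isOpen_compl
  have hu : TendstoLocallyUniformlyOn (fun (s : Finset L.lattice) (z : ℂ) => ∑ l ∈ s, A5_t l.1 z) (A5_z L)
      Filter.atTop (L.lattice : Set ℂ)ᶜ := (A5_unif L).tendstoLocallyUniformlyOn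
  have hd : ∀ᶠ s : Finset L.lattice in Filter.atTop, DifferentiableOn ℂ (fun z => ∑ l ∈ s, A5_t l.1 z)
      (L.lattice : Set ℂ)ᶜ := .of_forall fun s => A5_diffOn L s
  have h1 : DifferentiableAt ℂ (A5_z L) z :=
    (hu.differentiableOn hd ho).differentiableAt (ho.mem_nhds hz)
  have h2 := (hu.deriv hd ho).tendsto_at (show z ∈ (L.lattice : Set ℂ)ᶜ from hz)
  have h3 : Filter.Tendsto (fun s : Finset L.lattice => ∑ l ∈ s, (-(1 / (z - l.1) ^ 2 - 1 / l.1 ^ 2)))
      Filter.atTop (nhds (-L.weierstrassP z)) := (L.hasSum_weierstrassP z).neg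
  have h4 : deriv (A5_z L) z = -L.weierstrassP z := by
    refine tendsto_nhds_unique h2 (h3.congr fun s => ?_)
    have h5 : HasDerivAt (fun z : ℂ => ∑ l ∈ s, A5_t (l : L.lattice).1 z)
        (∑ l ∈ s, (-(1 / (z - l.1) ^ 2 - 1 / l.1 ^ 2))) z := by
      refine HasDerivAt.fun_sum fun i _ => A5_term_deriv i.1 z ?_
      rintro rfl
      exact hz i.2
    exact h5.deriv.symm
  rw [← h4]
  exact h1.hasDerivAt

theorem A5_sum (a w : ℂ) : HasSum (tT L a w) (A5_z L (a + w) + A5_z L (a - w) - 2 * A5_z L a) := by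
  have h : ∀ z : ℂ, HasSum (fun l : L.lattice => A5_t l.1 z) (A5_z L z) := fun z => (A5_unif L).hasSum
  have h1 := ((h (a + w)).add (h (a - w))).sub ((h a).mul_left 2)
  rw [← (Equiv.neg L.lattice).hasSum_iff]
  refine h1.congr_fun ?_
  intro l
  show tT L a w (-l) = _
  unfold tT A5_t
  rw [NegMemClass.coe_neg]
  ring

theorem zeta_exists : ∃ ζ : ℂ → ℂ,
    (∀ z : ℂ, z ∉ L.lattice → HasDerivAt ζ (-L.weierstrassP z) z) ∧
    ∀ a w : ℂ, HasSum (tT L a w) (ζ (a + w) + ζ (a - w) - 2 * ζ a) :=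
  ⟨A5_z L, A5_hasDeriv L, A5_sum L⟩

end H35P
end

-- from Lib.H28G.VDefs
section

/-! # H28G: reduction at a valuation (definitions) -/

open NumberField IsDedekindDomain WeierstrassCurve

namespace H28G

open H55B

section
variable {k : Type} [Field k] [Algebra F k]
  {Γ : Type} [LinearOrderedCommGroupWithZero Γ] (v : Valuation k Γ)

/-- The points that reduce to the point at infinity. -/
def E1 (P : P27 k) : Prop := P = 0 ∨ 1 < v (xc P)

theorem E1_zero : E1 v (0 : P27 k) := Or.inl rfl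

/-- The coordinate w = - 1 / y at infinity. -/
noncomputable def ww (P : P27 k) : k := -1 / yc P

end

end H28G
end

-- from Lib.H35P.R4
section

open WeierstrassCurve

namespace H35P

variable {k : Type} [Field k] [DecidableEq k] {W : WeierstrassCurve k} {V : ValuationSubring k}

/-! Chunk R4 (M). The kernel of reduction is a subgroup and x/y is almost additive.
ker_add: P, Q = 0 trivial. Both affine: if x₁ = x₂ and y₁ = negY the sum is 0. Otherwise Point.add_some, vieta, third_big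
(the x-coordinate of P + Q is x₃).
tt_add: P = 0 or Q = 0: the value is 0 < c. P = -Q: tt(-Q) + tt Q, tt_neg, c < 1. Otherwise let
R = (x₃, l x₃ + m) (nonsingular_negAdd); P + Q = -R; third_tt: v(t(P) + t(Q) + t(R)) < c, so v(t(R)) ≤ c and
v(t(-R) + t(R)) ≤ v(t(R))^2 ≤ c^2 < c.
(val_y applies to R by ker.) -/

theorem ker_add (hI : IntW W V) (P Q : W.toAffine.Point) (hP : Ker V P) (hQ : Ker V Q) : Ker V (P + Q) := by
  rcases P with _ | ⟨x₁, y₁, h₁⟩
  · change Ker V (0 + Q)
    rwa [zero_add]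
  rcases Q with _ | ⟨x₂, y₂, h₂⟩
  · change Ker V (_ + 0)
    rwa [add_zero]
  by_cases hxy : x₁ = x₂ ∧ y₁ = W.toAffine.negY x₂ y₂
  · rw [Affine.Point.add_of_Y_eq hxy.1 hxy.2]
    exact trivial
  · rw [Affine.Point.add_some hxy]
    obtain ⟨s1, s2, s3, -⟩ := vieta h₁.1 h₂.1 hxy _ _ _ rfl rfl rfl
    exact third_big hI.a1 hI.a2 hI.a3 hI.a4 hI.a6 s1 s2 s3 hP hQ

theorem r4_sq {Γ : Type*} [LinearOrderedCommGroupWithZero Γ] {c : Γ} (h0 : 0 < c) (h1 : c < 1) :
    c ^ 2 < c := by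
  rw [sq]
  calc c * c < c * 1 := mul_lt_mul_of_pos_left h1 h0
    _ = c := mul_one c

theorem tt_add (hI : IntW W V) (P Q : W.toAffine.Point) (hP : Ker V P) (hQ : Ker V Q) (c : V.ValueGroup)
    (h0 : 0 < c) (h1 : c < 1) (hPc : V.valuation (tt P) ≤ c) (hQc : V.valuation (tt Q) ≤ c) :
    V.valuation (tt (P + Q) - tt P - tt Q) < c := by
  rcases P with _ | ⟨x₁, y₁, h₁⟩
  · have e : tt (W := W) (Affine.Point.zero + Q) - tt (W := W) Affine.Point.zero - tt Q = 0 := by
      change tt (0 + Q) - 0 - tt Q = 0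
      rw [zero_add, sub_zero, sub_self]
    rw [e, map_zero]
    exact h0
  rcases Q with _ | ⟨x₂, y₂, h₂⟩
  · have e : tt (W := W) (Affine.Point.some x₁ y₁ h₁ + Affine.Point.zero) -
        tt (W := W) (Affine.Point.some x₁ y₁ h₁) - tt (W := W) Affine.Point.zero = 0 := by
      change tt (Affine.Point.some x₁ y₁ h₁ + 0) - tt (W := W) (Affine.Point.some x₁ y₁ h₁) - 0 = 0
      rw [add_zero, sub_zero, sub_self]
    rw [e, map_zero]
    exact h0
  by_cases hxy : x₁ = x₂ ∧ y₁ = W.toAffine.negY x₂ y₂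
  · have e0 : (Affine.Point.some x₁ y₁ h₁ : W.toAffine.Point) + Affine.Point.some x₂ y₂ h₂ = 0 :=
      Affine.Point.add_of_Y_eq hxy.1 hxy.2
    have e1 : (Affine.Point.some x₁ y₁ h₁ : W.toAffine.Point) = -Affine.Point.some x₂ y₂ h₂ :=
      eq_neg_of_add_eq_zero_left e0
    have e2 := tt_neg hI _ hQ
    have e3 : tt (0 : W.toAffine.Point) = 0 := rfl
    rw [e0, e1, e3, zero_sub, sub_eq_add_neg, ← neg_add, Valuation.map_neg]
    exact (e2.trans (pow_le_pow_left' hQc 2)).trans_lt (r4_sq h0 h1)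
  · obtain ⟨s1, s2, s3, p1, p2, p3, hN⟩ := vieta h₁.1 h₂.1 hxy _ _ _ rfl rfl rfl
    set l : k := W.toAffine.slope x₁ x₂ y₁ y₂ with hl
    set x₃ : k := W.toAffine.addX x₁ x₂ l with hx₃
    set m : k := y₁ - l * x₁ with hm
    set y₃ : k := W.toAffine.negAddY x₁ x₂ y₁ l with hy₃
    have h₃ : W.toAffine.Nonsingular x₃ y₃ := Affine.nonsingular_negAdd h₁ h₂ hxy
    have hd : 1 < V.valuation x₃ := third_big hI.a1 hI.a2 hI.a3 hI.a4 hI.a6 s1 s2 s3 hP hQ
    have v1 := (val_y hI h₁.1 hP).1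
    have v2 := (val_y hI h₂.1 hQ).1
    have v3 := (val_y hI h₃.1 hd).1
    have hR : Ker V (Affine.Point.some x₃ y₃ h₃ : W.toAffine.Point) := hd
    have hsum : (Affine.Point.some x₁ y₁ h₁ : W.toAffine.Point) + Affine.Point.some x₂ y₂ h₂ =
        -Affine.Point.some x₃ y₃ h₃ := by
      rw [Affine.Point.add_some hxy, Affine.Point.neg_some]
      rfl
    have key : V.valuation (tt (W := W) (Affine.Point.some x₁ y₁ h₁) +
        tt (W := W) (Affine.Point.some x₂ y₂ h₂) + tt (W := W) (Affine.Point.some x₃ y₃ h₃)) < c := by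
      have hPc' : V.valuation (x₁ / y₁) ≤ c := hPc
      have hQc' : V.valuation (x₂ / y₂) ≤ c := hQc
      change V.valuation (x₁ / y₁ + x₂ / y₂ + x₃ / y₃) < c
      rw [p1] at v1 hPc'
      rw [p2] at v2 hQc'
      rw [p3] at v3
      rw [p1, p2, p3]
      exact third_tt hI.a1 hI.a2 hI.a3 hI.a4 hI.a6 s1 s2 s3 hN hP hQ v1 v2 v3 c hPc' hQc'
    have hRc : V.valuation (tt (W := W) (Affine.Point.some x₃ y₃ h₃)) ≤ c := by
      have e : tt (W := W) (Affine.Point.some x₃ y₃ h₃) =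
          (tt (W := W) (Affine.Point.some x₁ y₁ h₁) + tt (W := W) (Affine.Point.some x₂ y₂ h₂) +
            tt (W := W) (Affine.Point.some x₃ y₃ h₃)) - tt (W := W) (Affine.Point.some x₁ y₁ h₁) -
              tt (W := W) (Affine.Point.some x₂ y₂ h₂) := by ring
      rw [e]
      exact Valuation.map_sub_le _ (Valuation.map_sub_le _ key.le hPc) hQc
    have hneg := tt_neg hI _ hR
    have e : tt (W := W) (-Affine.Point.some x₃ y₃ h₃) - tt (W := W) (Affine.Point.some x₁ y₁ h₁) -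
        tt (W := W) (Affine.Point.some x₂ y₂ h₂) =
        (tt (W := W) (-Affine.Point.some x₃ y₃ h₃) + tt (W := W) (Affine.Point.some x₃ y₃ h₃)) -
          (tt (W := W) (Affine.Point.some x₁ y₁ h₁) + tt (W := W) (Affine.Point.some x₂ y₂ h₂) +
            tt (W := W) (Affine.Point.some x₃ y₃ h₃)) := by ring
    rw [hsum, e]
    exact Valuation.map_sub_lt _ ((hneg.trans (pow_le_pow_left' hRc 2)).trans_lt (r4_sq h0 h1)) key

end H35P
end

-- from Lib.H35P.FG
section

open WeierstrassCurve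

namespace H35P

variable {k : Type} [Field k] [DecidableEq k] {W : WeierstrassCurve k} {V : ValuationSubring k}

/-! Chunk FG (S/M). Induction on n with c = v(t(T)), T ≠ 0 (so 0 < c < 1, tt_eq_zero, tt_lt): Ker V (n T) and
v(t(n T) - n t(T)) < c. Step: t((n+1)T) - (n+1) t(T) = (t(nT + T) - t(nT) - t(T)) + (t(nT) - n t(T)), and v(t(nT)) ≤ c.
For v(n) = 1 and n T = 0: v(n t(T)) = c < c, contradiction.
torsion_int: contrapositive with int_y. -/

omit [DecidableEq k] in
theorem FG_zero : tt (0 : W.toAffine.Point) = 0 := rfl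

omit [DecidableEq k] in
theorem FG_nat (n : ℕ) : V.valuation (n : k) ≤ 1 := by
  rw [V.valuation_le_one_iff]
  exact natCast_mem V n

theorem FG_ind (hI : IntW W V) (T : W.toAffine.Point) (hK : Ker V T) (hT : T ≠ 0) (n : ℕ) :
    Ker V (n • T) ∧ V.valuation (tt (n • T) - n * tt T) < V.valuation (tt T) := by
  have h0 : 0 < V.valuation (tt T) := by
    rw [zero_lt_iff, Valuation.ne_zero_iff]
    exact fun h => hT ((tt_eq_zero hI T hK).1 h)
  have h1 := tt_lt hI T hK
  induction n with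
  | zero =>
    refine ⟨?_, ?_⟩
    · rw [zero_smul]
      exact True.intro
    · rw [zero_smul, FG_zero, Nat.cast_zero, zero_mul, sub_zero, map_zero]
      exact h0
  | succ n ih =>
    obtain ⟨hk, hv⟩ := ih
    have hc : V.valuation (tt (n • T)) ≤ V.valuation (tt T) := by
      have e : tt (n • T) = (tt (n • T) - n * tt T) + n * tt T := by ring
      rw [e]
      refine (Valuation.map_add _ _ _).trans (max_le hv.le ?_)
      rw [map_mul]
      exact mul_le_of_le_one_left' (FG_nat n)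
    rw [succ_nsmul]
    refine ⟨ker_add hI _ _ hk hK, ?_⟩
    have h2 := tt_add hI (n • T) T hk hK _ h0 h1 hc le_rfl
    have e : tt (n • T + T) - ((n + 1 : ℕ) : k) * tt T =
        (tt (n • T + T) - tt (n • T) - tt T) + (tt (n • T) - n * tt T) := by
      rw [Nat.cast_add, Nat.cast_one]
      ring
    rw [e]
    exact (Valuation.map_add _ _ _).trans_lt (max_lt h2 hv)

/-- The kernel of reduction has no torsion prime to the residue characteristic. -/
theorem fg (hI : IntW W V) (T : W.toAffine.Point) (n : ℕ) (hn : V.valuation (n : k) = 1) (hT : n • T = 0)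
    (hK : Ker V T) : T = 0 := by
  by_contra h
  obtain ⟨-, h1⟩ := FG_ind hI T hK h n
  rw [hT, FG_zero, zero_sub, Valuation.map_neg, map_mul, hn, one_mul] at h1
  exact lt_irrefl _ h1

/-- Torsion points prime to the residue characteristic are integral. -/
theorem torsion_int (hI : IntW W V) (T : W.toAffine.Point) (n : ℕ) (hn : V.valuation (n : k) = 1)
    (hT : n • T = 0) (h0 : T ≠ 0) : ∃ x y h, T = .some x y h ∧ x ∈ V ∧ y ∈ V := by
  rcases T with _ | ⟨x, y, h⟩
  · exact absurd rfl h0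
  · refine ⟨x, y, h, rfl, ?_⟩
    have hx : V.valuation x ≤ 1 := by
      by_contra hx
      exact h0 (fg hI _ n hn hT (not_le.1 hx))
    have hy := int_y hI h.1 hx
    rw [V.valuation_le_one_iff] at hx hy
    exact ⟨hx, hy⟩

theorem ker_sub (hI : IntW W V) (P Q : W.toAffine.Point) (hP : Ker V P) (hQ : Ker V Q) : Ker V (P - Q) := by
  rw [sub_eq_add_neg]
  exact ker_add hI P (-Q) hP ((ker_neg Q).2 hQ)

end H35P
end

-- from Lib.H35P.RD
section

open WeierstrassCurve

namespace H35P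

variable {k : Type} [Field k] [DecidableEq k] {W : WeierstrassCurve k} {V : ValuationSubring k}

omit [DecidableEq k] in
private theorem RD_le {a : k} (h : a ∈ V) : V.valuation a ≤ 1 := (V.valuation_le_one_iff a).2 h

/-- An integral combination with one factor of value less than one. -/
private theorem RD_mul_lt {a b : k} (h : a ∈ V) (hb : V.valuation b < 1) : V.valuation (a * b) < 1 := by
  rw [map_mul]
  exact (mul_le_of_le_one_left' (RD_le h)).trans_lt hb

private theorem RD_big (hI : IntW W V) {x₁ x₂ l : k} (h1 : x₁ ∈ V) (h2 : x₂ ∈ V) (hl : 1 < V.valuation l) :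
    1 < V.valuation (W.toAffine.addX x₁ x₂ l) := by
  have e : W.toAffine.addX x₁ x₂ l = l ^ 2 + (W.a₁ * l - (W.a₂ + x₁ + x₂)) := by
    unfold Affine.addX
    ring
  have hll : V.valuation l < V.valuation (l ^ 2) := by
    rw [map_pow, pow_two]
    exact lt_mul_of_one_lt_left (zero_lt_one.trans hl) hl
  have h3 : V.valuation (W.a₁ * l - (W.a₂ + x₁ + x₂)) < V.valuation (l ^ 2) := by
    refine lt_of_le_of_lt (V.valuation.map_sub_le ?_ ?_) hll
    · rw [map_mul]
      exact mul_le_of_le_one_left' (RD_le hI.a1)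
    · exact (RD_le (V.add_mem _ _ (V.add_mem _ _ hI.a2 h1) h2)).trans hl.le
  rw [e, V.valuation.map_add_eq_of_lt_left h3]
  exact hl.trans hll

omit [DecidableEq k] in
private theorem RD_div {a b : k} (ha : V.valuation a = 1) (hb : V.valuation b < 1) (hb0 : b ≠ 0) :
    1 < V.valuation (a / b) := by
  rw [map_div₀, ha, one_div]
  exact (one_lt_inv₀ ((V.valuation.pos_iff).2 hb0)).2 hb

/-! Chunk RD (M). v = V.valuation. nonsing: the polynomials F_y = 2y + a1 x + a3 and F_x = a1 y - 3x^2 - 2 a2 x - a4 are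
not both of value < 1 at an integral point: reduce to the residue field V/m, where the reduced curve has Δ ≠ 0
(WeierstrassCurve.map_Δ, IsElliptic), so the reduced point is nonsingular
(Affine.equation_iff_nonsingular, nonsingular_iff); or use an explicit Bezout identity for Δ.
rd: P - Q = P + (-Q), -Q = (x₂, -y₂ - a1 x₂ - a3). Put n1 = y₁ + y₂ + a1 x₂ + a3. Identity:
n1 (y₁ - y₂) = (x₁ - x₂)(x₁^2 + x₁x₂ + x₂^2 + a2(x₁+x₂) + a4 - a1 y₁).
x₁ ≠ x₂: slope l = n1/(x₁ - x₂). If v(F_y(P)) = 1 then v(n1) = 1, v(l) > 1. If v(F_y(P)) < 1 then v(F_x(P)) = 1, the second factor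
has value 1, y₁ ≠ y₂ and l = (second factor)/(y₁ - y₂), v(l) > 1. In both cases x₃ = l^2 + a1 l - a2 - x₁ - x₂ has value
v(l)^2 > 1.
x₁ = x₂: y₁ = y₂ (then P - Q = 0) or y₁ = negY x₂ y₂ and y₁ ≠ y₂: P - Q = 2P, slope -F_x/F_y with F_y(P) = y₁ - y₂ of value < 1
and nonzero, so v(F_x) = 1, v(l) > 1. -/

theorem nonsing (hG : GoodW W V) {x y : k} (h : W.toAffine.Equation x y) (hx : x ∈ V) (hy : y ∈ V)
    (h1 : V.valuation (2 * y + W.a₁ * x + W.a₃) < 1) :
    V.valuation (3 * x ^ 2 + 2 * W.a₂ * x + W.a₄ - W.a₁ * y) = 1 := by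
  set W' : WeierstrassCurve V := ⟨⟨W.a₁, hG.a1⟩, ⟨W.a₂, hG.a2⟩, ⟨W.a₃, hG.a3⟩, ⟨W.a₄, hG.a4⟩, ⟨W.a₆, hG.a6⟩⟩ with hW'
  have hmap : W'.map V.subtype = W := by
    ext <;> rfl
  have hΔ : V.valuation ((W'.Δ : V) : k) = 1 := by
    have h2 : ((W'.Δ : V) : k) = W.Δ := by
      conv_rhs => rw [← hmap]
      rw [WeierstrassCurve.map_Δ]
      rfl
    rw [h2]
    exact hG.disc
  have hu : IsUnit W'.Δ := (V.valuation_eq_one_iff _).2 hΔ
  have hΔ2 : (W'.map (IsLocalRing.residue V)).Δ ≠ 0 := by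
    rw [WeierstrassCurve.map_Δ]
    exact (hu.map (IsLocalRing.residue V)).ne_zero
  have hE : W'.toAffine.Equation (⟨x, hx⟩ : V) ⟨y, hy⟩ := by
    rw [Affine.equation_iff] at h ⊢
    exact Subtype.ext h
  have hE2 := hE.map (IsLocalRing.residue V)
  have hN := ((Affine.equation_iff_nonsingular_of_Δ_ne_zero (W := (W'.map (IsLocalRing.residue V)).toAffine) hΔ2).1 hE2)
  rw [Affine.nonsingular_iff'] at hN
  obtain ⟨-, hN⟩ := hN
  set Fy : V := 2 * ⟨y, hy⟩ + W'.a₁ * ⟨x, hx⟩ + W'.a₃ with hFy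
  set Fx : V := W'.a₁ * ⟨y, hy⟩ - (3 * ⟨x, hx⟩ ^ 2 + 2 * W'.a₂ * ⟨x, hx⟩ + W'.a₄) with hFx
  have e1 : 2 * (IsLocalRing.residue V) ⟨y, hy⟩ + (W'.map (IsLocalRing.residue V)).a₁ * (IsLocalRing.residue V) ⟨x, hx⟩ +
      (W'.map (IsLocalRing.residue V)).a₃ = IsLocalRing.residue V Fy := by
    rw [hFy]
    simp only [map_add, map_mul, map_ofNat]
    rfl
  have e2 : (W'.map (IsLocalRing.residue V)).a₁ * (IsLocalRing.residue V) ⟨y, hy⟩ -
      (3 * (IsLocalRing.residue V) ⟨x, hx⟩ ^ 2 + 2 * (W'.map (IsLocalRing.residue V)).a₂ * (IsLocalRing.residue V) ⟨x, hx⟩ +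
      (W'.map (IsLocalRing.residue V)).a₄) = IsLocalRing.residue V Fx := by
    rw [hFx]
    simp only [map_add, map_mul, map_sub, map_pow, map_ofNat]
    rfl
  have h0 : IsLocalRing.residue V Fy = 0 := by
    rw [IsLocalRing.residue_eq_zero_iff, V.valuation_lt_one_iff]
    exact h1
  have h3 : IsLocalRing.residue V Fx ≠ 0 := by
    rcases hN with hN | hN
    · rw [← e2]
      exact hN
    · exact absurd (e1.trans h0) hN
  have h4 : ¬ V.valuation ((Fx : V) : k) < 1 := by
    rw [← V.valuation_lt_one_iff, ← IsLocalRing.residue_eq_zero_iff]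
    exact h3
  have h5 : V.valuation ((Fx : V) : k) = 1 := le_antisymm (V.valuation_le_one Fx) (not_lt.1 h4)
  have h6 : V.subtype Fx = -(3 * x ^ 2 + 2 * W.a₂ * x + W.a₄ - W.a₁ * y) := by
    rw [hFx]
    simp only [map_sub, map_add, map_mul, map_pow, map_ofNat]
    simp only [hW', ValuationSubring.subtype_apply]
    ring
  change V.valuation (V.subtype Fx) = 1 at h5
  rw [h6, Valuation.map_neg] at h5
  exact h5

/-- The difference of two congruent points lies in the kernel of reduction. -/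
theorem rd (hG : GoodW W V) (P Q : W.toAffine.Point) (h : Cong V P Q) : Ker V (P - Q) := by
  obtain ⟨x₁, y₁, h₁, x₂, y₂, h₂, rfl, rfl, hx1, hy1, hx2, hy2, hx, hy⟩ := h
  have hI : IntW W V := hG.toIntW
  rw [sub_eq_add_neg, Affine.Point.neg_some]
  by_cases hc : x₁ = x₂ ∧ y₁ = W.toAffine.negY x₂ (W.toAffine.negY x₂ y₂)
  · rw [Affine.Point.add_of_Y_eq hc.1 hc.2]
    trivial
  rw [Affine.Point.add_some hc]
  change 1 < V.valuation (W.toAffine.addX x₁ x₂ (W.toAffine.slope x₁ x₂ y₁ (W.toAffine.negY x₂ y₂)))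
  refine RD_big hI hx1 hx2 ?_
  have hE1 := (Affine.equation_iff ..).1 h₁.1
  have hE2 := (Affine.equation_iff ..).1 h₂.1
  by_cases hxx : x₁ = x₂
  · -- tangent
    have hyy : y₁ ≠ y₂ := fun h => hc ⟨hxx, by rw [Affine.negY_negY]; exact h⟩
    have hneg : y₁ = W.toAffine.negY x₂ y₂ := (Affine.Y_eq_of_X_eq h₁.1 h₂.1 hxx).resolve_left hyy
    have hy' : y₁ ≠ W.toAffine.negY x₂ (W.toAffine.negY x₂ y₂) := fun h => hc ⟨hxx, h⟩
    rw [Affine.slope_of_Y_ne hxx hy']
    have e : y₁ - W.toAffine.negY x₁ y₁ = y₁ - y₂ := by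
      congr 1
      rw [hneg, hxx, Affine.negY_negY]
    have e2 : 2 * y₁ + W.a₁ * x₁ + W.a₃ = y₁ - y₂ := by
      rw [← e]
      unfold Affine.negY
      ring
    rw [e]
    exact RD_div (nonsing hG h₁.1 hx1 hy1 (by rw [e2]; exact hy)) hy (sub_ne_zero.2 hyy)
  · -- chord
    have hxx0 : x₁ - x₂ ≠ 0 := sub_ne_zero.2 hxx
    rw [Affine.slope_of_X_ne hxx]
    have hFy1 : V.valuation (2 * y₁ + W.a₁ * x₁ + W.a₃) ≤ 1 :=
      RD_le (V.add_mem _ _ (V.add_mem _ _ (V.mul_mem _ _ (by simp) hy1) (V.mul_mem _ _ hG.a1 hx1)) hG.a3)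
    have hnegY : y₁ - W.toAffine.negY x₂ y₂ = y₁ + y₂ + W.a₁ * x₂ + W.a₃ := by
      unfold Affine.negY
      ring
    rcases hFy1.lt_or_eq with hF | hF
    · have hFx := nonsing hG h₁.1 hx1 hy1 hF
      have hG1 : V.valuation (x₁ ^ 2 + x₁ * x₂ + x₂ ^ 2 + W.a₂ * (x₁ + x₂) + W.a₄ - W.a₁ * y₁) = 1 := by
        have e : x₁ ^ 2 + x₁ * x₂ + x₂ ^ 2 + W.a₂ * (x₁ + x₂) + W.a₄ - W.a₁ * y₁ =
            (3 * x₁ ^ 2 + 2 * W.a₂ * x₁ + W.a₄ - W.a₁ * y₁) + -((x₂ + 2 * x₁ + W.a₂) * (x₁ - x₂)) := by ring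
        rw [e, V.valuation.map_add_eq_of_lt_left, hFx]
        rw [hFx, Valuation.map_neg]
        exact RD_mul_lt (V.add_mem _ _ (V.add_mem _ _ hx2 (V.mul_mem _ _ (by simp) hx1)) hG.a2) hx
      have hid : (y₁ - W.toAffine.negY x₂ y₂) * (y₁ - y₂) =
          (x₁ - x₂) * (x₁ ^ 2 + x₁ * x₂ + x₂ ^ 2 + W.a₂ * (x₁ + x₂) + W.a₄ - W.a₁ * y₁) := by
        rw [hnegY]
        linear_combination hE1 - hE2
      have hyy : y₁ - y₂ ≠ 0 := by
        intro h0
        rw [h0, mul_zero] at hid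
        rcases mul_eq_zero.1 hid.symm with h | h
        · exact hxx0 h
        · rw [h, map_zero] at hG1
          exact zero_ne_one hG1
      have e : (y₁ - W.toAffine.negY x₂ y₂) / (x₁ - x₂) =
          (x₁ ^ 2 + x₁ * x₂ + x₂ ^ 2 + W.a₂ * (x₁ + x₂) + W.a₄ - W.a₁ * y₁) / (y₁ - y₂) := by
        rw [div_eq_div_iff hxx0 hyy, hid]
        ring
      rw [e]
      exact RD_div hG1 hy hyy
    · have hn : V.valuation (y₁ - W.toAffine.negY x₂ y₂) = 1 := by
        have e : y₁ - W.toAffine.negY x₂ y₂ = (2 * y₁ + W.a₁ * x₁ + W.a₃) + -((y₁ - y₂) + W.a₁ * (x₁ - x₂)) := by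
          rw [hnegY]
          ring
        rw [e, V.valuation.map_add_eq_of_lt_left, hF]
        rw [hF, Valuation.map_neg]
        exact V.valuation.map_add_lt hy (RD_mul_lt hG.a1 hx)
      exact RD_div hn hx hxx0

end H35P
end

-- from Lib.H55C.W8
section

open NumberField IsDedekindDomain

namespace H55C

open H55B

/-! Chunk W8: K is totally complex.
A real embedding of K would restrict to F and give a real primitive cube root of unity (a real number with
x^2 + x + 1 = 0). So nrRealPlaces K = 0 and 2 nrComplexPlaces K = finrank ℚ K = 2 finrank F K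
(InfinitePlace.card_add_two_mul_card_eq_rank, finrank ℚ F = 2 as φ(3) = 2). -/
theorem complex_places (K : Type) [Field K] [NumberField K] [Algebra F K] :
    InfinitePlace.nrComplexPlaces K = Module.finrank F K := by
  have h1 := InfinitePlace.card_add_two_mul_card_eq_rank K
  have h2 := Module.finrank_mul_finrank ℚ F K
  have h3 : Module.finrank ℚ F = 2 := by
    have h := IsCyclotomicExtension.finrank (n := 3) F
      (Polynomial.cyclotomic.irreducible_rat (by norm_num))
    rw [h]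
    decide
  have h4 : InfinitePlace.nrRealPlaces F = 0 :=
    IsCyclotomicExtension.Rat.nrRealPlaces_eq_zero (n := 3) F (by norm_num)
  have h5 : InfinitePlace.nrRealPlaces K = 0 := by
    rw [nrRealPlaces_eq_zero_iff] at h4 ⊢
    refine ⟨fun w => ?_⟩
    rw [← InfinitePlace.not_isReal_iff_isComplex]
    intro hw
    exact InfinitePlace.not_isReal_iff_isComplex.2 (h4.isComplex (w.comap (algebraMap F K)))
      (hw.comap _)
  rw [h3] at h2
  omega

end H55C
end

-- from Lib.H55N.H11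
section

open NumberField IsDedekindDomain

namespace H55N

open H55B H55C

/-! Chunk H11 (M): representatives of ideal classes. exists_mem_cop: IsDedekindDomain.exists_sup_span_eq for J * g <= J
gives x with J g + (x) = J (if x = 0 this forces g = 1, then take any nonzero x in J and b = (x)/J, coprime to 1); (x) = J b by
divisibility, and J g + J b = J gives g + b = 1 (cancel J). exists_rep: choose an integral ideal J in the class kappa⁻¹
(ClassGroup.mk0_surjective), x and b from exists_mem_cop: J b = (x), so the class of b is kappa. -/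

variable {K : Type} [Field K] [NumberField K]

theorem exists_mem_cop (J g : Ideal (𝓞 K)) (hJ : J ≠ ⊥) (hg : g ≠ ⊥) :
    ∃ x ∈ J, ∃ b : Ideal (𝓞 K), x ≠ 0 ∧ Ideal.span {x} = J * b ∧ IsCoprime b g := by
  obtain ⟨x, hx⟩ := IsDedekindDomain.exists_sup_span_eq (I := J * g) (J := J) Ideal.mul_le_left
    (mul_ne_zero hJ hg)
  by_cases hx0 : x = 0
  · subst hx0
    have h1 : J * g = J := by
      rw [Ideal.span_singleton_eq_bot.2 rfl, sup_bot_eq] at hx
      exact hx
    have h2 : g = ⊤ := by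
      have h3 : J * g = J * 1 := by rw [h1, mul_one]
      have h4 := mul_left_cancel₀ (show J ≠ 0 from hJ) h3
      rw [h4]
      exact Ideal.one_eq_top
    obtain ⟨y, hy, hy0⟩ := Submodule.exists_mem_ne_zero_of_ne_bot hJ
    have h3 : J ∣ Ideal.span {y} := by
      rw [Ideal.dvd_iff_le, Ideal.span_singleton_le_iff_mem]
      exact hy
    obtain ⟨b, hb⟩ := h3
    refine ⟨y, hy, b, hy0, hb, ?_⟩
    rw [h2, ← Ideal.one_eq_top]
    exact isCoprime_one_right
  · have hxJ : x ∈ J := by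
      rw [← hx]
      exact Ideal.mem_sup_right (Ideal.mem_span_singleton_self x)
    have h3 : J ∣ Ideal.span {x} := by
      rw [Ideal.dvd_iff_le, Ideal.span_singleton_le_iff_mem]
      exact hxJ
    obtain ⟨b, hb⟩ := h3
    refine ⟨x, hxJ, b, hx0, hb, ?_⟩
    rw [hb] at hx
    have h4 : J * (g ⊔ b) = J * 1 := by
      rw [Ideal.mul_sup, hx, mul_one]
    have h5 := mul_left_cancel₀ (show J ≠ 0 from hJ) h4
    rw [Ideal.isCoprime_iff_sup_eq, sup_comm, h5]
    exact Ideal.one_eq_top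

theorem exists_rep (g : Ideal (𝓞 K)) (hg : g ≠ ⊥) (κ : ClassGroup (𝓞 K)) :
    ∃ (b : Ideal (𝓞 K)) (hb : b ≠ ⊥), IsCoprime b g ∧
      ClassGroup.mk0 ⟨b, mem_nonZeroDivisors_iff_ne_zero.2 hb⟩ = κ := by
  obtain ⟨J, hJ⟩ := ClassGroup.mk0_surjective κ⁻¹
  have hJ0 : (J : Ideal (𝓞 K)) ≠ ⊥ := mem_nonZeroDivisors_iff_ne_zero.1 J.2
  obtain ⟨x, hx, b, hx0, hb, hcop⟩ := exists_mem_cop (J : Ideal (𝓞 K)) g hJ0 hg
  have hb0 : b ≠ ⊥ := by
    rintro rfl
    apply hx0
    rw [← Ideal.span_singleton_eq_bot, hb]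
    exact mul_zero _
  refine ⟨b, hb0, hcop, ?_⟩
  have h1 : ClassGroup.mk0 (J * ⟨b, mem_nonZeroDivisors_iff_ne_zero.2 hb0⟩) = 1 := by
    rw [ClassGroup.mk0_eq_one_iff]
    refine ⟨⟨x, ?_⟩⟩
    show (J : Ideal (𝓞 K)) * b = _
    rw [← hb]
  rw [map_mul, hJ] at h1
  exact (inv_mul_eq_one.1 h1).symm

end H55N
end

-- from Lib.H55N.H4
section

open NumberField IsDedekindDomain

namespace H55N

open H55B H55C

open Classical in
theorem H4_summable {K : Type} [Field K] [NumberField K] {ι : Type}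
    (k : Ideal (𝓞 K) →*₀ ℂ) (hk : Summable fun a => ‖k a‖) (c : ι → Ideal (𝓞 K)) (p : ι → ℂ)
    (S : Finset ι) :
    Summable (fun a => k a * ∏ i ∈ S, (if a ≤ c i then 1 - p i else 1)) := by
  refine Summable.of_norm_bounded (hk.mul_right (∏ i ∈ S, (1 + ‖p i‖))) fun a => ?_
  rw [norm_mul, norm_prod]
  refine mul_le_mul_of_nonneg_left ?_ (norm_nonneg _)
  refine Finset.prod_le_prod (fun _ _ => norm_nonneg _) fun i _ => ?_
  split_ifs
  · exact (norm_sub_le _ _).trans (by rw [NormOneClass.norm_one])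
  · rw [NormOneClass.norm_one]
    linarith [norm_nonneg (p i)]

open Classical in
theorem H4_aux {K : Type} [Field K] [NumberField K] {ι : Type}
    (k : Ideal (𝓞 K) →*₀ ℂ) (hk : Summable fun a => ‖k a‖) (c : ι → Ideal (𝓞 K))
    (hc : ∀ i, (c i).IsPrime) (hc0 : ∀ i, c i ≠ ⊥) (inj : Function.Injective c) (p : ι → ℂ)
    (S : Finset ι) :
    HasSum (fun a => k a * ∏ i ∈ S, (if a ≤ c i then 1 - p i else 1))
      ((∏ i ∈ S, (1 - p i * k (c i))) * ∑' a, k a) := by
  induction S using Finset.induction_on with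
  | empty => simpa using hk.of_norm.hasSum
  | insert j S hj ih =>
    set f : Ideal (𝓞 K) → ℂ := fun a => k a * ∏ i ∈ S, (if a ≤ c i then 1 - p i else 1) with hf
    set g : Ideal (𝓞 K) → ℂ := fun a => if a ≤ c j then f a else 0 with hg
    have hinj : Function.Injective (fun b : Ideal (𝓞 K) => c j * b) :=
      fun a b h => mul_left_cancel₀ (by simpa using hc0 j) h
    have h1 : ∀ b, g (c j * b) = k (c j) * f b := by
      intro b
      have h2 : c j * b ≤ c j := Ideal.mul_le_left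
      simp only [hg, hf]
      rw [if_pos h2, map_mul, mul_assoc]
      congr 2
      refine Finset.prod_congr rfl fun i hi => ?_
      have hij : i ≠ j := fun h => hj (h ▸ hi)
      have h3 : c j * b ≤ c i ↔ b ≤ c i := by
        constructor
        · intro h
          rcases (hc i).mul_le.1 h with h | h
          · exfalso
            have hmax : (c j).IsMaximal := (hc j).isMaximal (hc0 j)
            have := hmax.eq_of_le (hc i).ne_top h
            exact hij (inj this.symm)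
          · exact h
        · intro h
          exact Ideal.mul_le_right.trans h
      simp only [h3]
    have h4 : HasSum g (k (c j) * ((∏ i ∈ S, (1 - p i * k (c i))) * ∑' a, k a)) := by
      rw [← hinj.hasSum_iff]
      · refine (ih.mul_left (k (c j))).congr_fun ?_
        intro b
        exact h1 b
      · intro a ha
        simp only [hg]
        rw [if_neg]
        intro h
        obtain ⟨b, rfl⟩ := Ideal.dvd_iff_le.2 h
        exact ha ⟨b, rfl⟩
    have h5 := ih.sub (h4.mul_left (p j))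
    rw [Finset.prod_insert hj]
    have h6 : (∏ i ∈ S, (1 - p i * k (c i))) * ∑' a, k a -
        p j * (k (c j) * ((∏ i ∈ S, (1 - p i * k (c i))) * ∑' a, k a)) =
        (1 - p j * k (c j)) * (∏ i ∈ S, (1 - p i * k (c i))) * ∑' a, k a := by ring
    rw [h6] at h5
    refine h5.congr_fun ?_
    intro a
    rw [Finset.prod_insert hj]
    simp only [hg, hf]
    split_ifs <;> ring

open Classical in
/-- Chunk H4 (M), the smoothing identity. Prove by induction on a finset S of indices that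
k a * prod over S has sum (prod over S of (1 - p k(c))) * sum k, with absolute summability (the product is bounded by
prod (1 + |1 - p i|)). Step from S to S + j: f_{S+j}(a) = f_S(a) - p_j [a <= c_j] f_S(a); the ideals a <= c_j are the c_j * b
(Ideal.dvd_iff_le), b -> c_j * b is injective (c_j nonzero), and f_S(c_j b) = k(c_j) f_S(b) because for i in S:
c_j b <= c_i iff b <= c_i (c_i is prime, and c_j <= c_i would give c_j = c_i as nonzero primes are maximal). -/
theorem smooth_sum {K : Type} [Field K] [NumberField K] {ι : Type} [Fintype ι]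
    (k : Ideal (𝓞 K) →*₀ ℂ) (hk : Summable fun a => ‖k a‖) (c : ι → Ideal (𝓞 K))
    (hc : ∀ i, (c i).IsPrime) (hc0 : ∀ i, c i ≠ ⊥) (inj : Function.Injective c) (p : ι → ℂ) :
    HasSum (fun a => k a * ∏ i, (if a ≤ c i then 1 - p i else 1))
      ((∏ i, (1 - p i * k (c i))) * ∑' a, k a) :=
  H4_aux k hk c hc hc0 inj p Finset.univ

end H55N
end

-- from Lib.H55R.D4
section

open NumberField IsDedekindDomain

namespace H55R

open H55B H55N

/-- Chunk RD4 (S/M), finiteness of the ramified primes. If e(v) <> 1 then a prime W of L above v is ramified, so W divides the different ideal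
differentIdeal (𝓞 K) (𝓞 L), which is nonzero (differentIdeal_ne_bot; not_dvd_differentIdeal_iff, Ideal.ramificationIdx_eq_one_iff,
Ideal.ramificationIdxIn_eq_ramificationIdx; see Mathlib/NumberTheory/NumberField/ExistsRamified.lean lines 80-100 for the pattern). A nonzero ideal has only finitely
many prime divisors (Ideal.finite_factors or UniqueFactorizationMonoid.normalizedFactors), and v is W.under. Alternative: for each sigma <> 1 in Gal(L/K) choose x with
sigma x <> x; the inertia group of W is nontrivial if e <> 1, so W contains the nonzero product of all sigma x - x. -/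
theorem ram_finite (K L : Type) [Field K] [NumberField K] [Field L] [NumberField L]
    [Algebra K L] [IsGalois K L] : {v : Pl K | es K L v ≠ 1}.Finite := by
  have h1 : differentIdeal (𝓞 K) (𝓞 L) ≠ ⊥ := differentIdeal_ne_bot
  have h2 : {W : Pl L | W.asIdeal ∣ differentIdeal (𝓞 K) (𝓞 L)}.Finite :=
    Ideal.finite_factors h1
  refine (h2.image fun W => W.under (𝓞 K)).subset ?_
  intro v hv
  obtain ⟨P, hP⟩ : ∃ P : Ideal (𝓞 L), P.IsPrime ∧ P.LiesOver v.asIdeal := by
    obtain ⟨⟨P, h3, h4⟩⟩ := v.asIdeal.nonempty_primesOver (S := 𝓞 L)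
    exact ⟨P, h3, h4⟩
  obtain ⟨hP1, hP2⟩ := hP
  have hP0 : P ≠ ⊥ := Ideal.ne_bot_of_liesOver_of_ne_bot v.ne_bot P
  have h3 : es K L v = P.ramificationIdx (𝓞 K) :=
    Ideal.ramificationIdxIn_eq_ramificationIdx v.asIdeal P Gal(L/K)
  refine ⟨⟨P, hP1, hP0⟩, ?_, ?_⟩
  · show P ∣ differentIdeal (𝓞 K) (𝓞 L)
    by_contra h4
    rw [not_dvd_differentIdeal_iff] at h4
    apply hv
    rw [h3]
    exact Ideal.ramificationIdx_eq_one P (𝓞 K)
  · apply HeightOneSpectrum.ext
    exact hP2.over.symm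

end H55R
end
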