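import Mathlib
import Pool.Agent.Lib.H1M.PP.D_H55C_Defs
import Pool.Agent.Lib.H1M.PP.M001
import Pool.Agent.Lib.H1M.PP.M005
import Pool.Agent.Lib.H1M.PP.M006
import Pool.Agent.Lib.H1M.PP.M010
import Pool.Agent.Lib.H1M.PP.M011
import Pool.Agent.Lib.H1M.PP.M012

/-! Merged copies (to shorten the build) of Lib.H13S.Defs, Lib.H13S.VW, Lib.H28G.GV4, Lib.H35T.L1, Lib.H55C.BSDTwo, Lib.H55B.I1, Lib.H35P.A4, Lib.H35P.A6, Lib.H35P.A7, Lib.H35P.A8, Lib.H35P.B1, Lib.H55B.E2, Lib.H55B.E3, Lib.H55B.F4. -/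

-- from Lib.H13S.Defs
section

/-!
# H13S: definitions

From Selmer classes of y^2 + y = x^3 over F = Q(om) to elements of the field of torsion points (part S of
the base case RB, problem MP_f50388). See PROOF.md.
-/

open NumberField IsDedekindDomain

namespace H13S

open H55P H28G H55B

/-- The valuation ring V of Ω lies above the prime w of the subfield K. -/
def Abv {F₀ : Type} [Field F₀] {Ω : Type} [Field Ω] [Algebra F₀ Ω] (K : IntermediateField F₀ Ω)
    [NumberField K] (V : ValuationSubring Ω) (w : HeightOneSpectrum (𝓞 K)) : Prop :=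
  ∀ x : K, (x : Ω) ∈ V ↔ w.valuation K x ≤ 1

variable {Ω : Type} [Field Ω] [DecidableEq Ω] [Algebra F Ω]

/-- The data: a primary prime element pi of O above the prime number l, and a cocycle c with values in the
points killed by the conjugate of pi, which is locally a coboundary on all inertia groups. -/
structure Cl (π : O) (l : ℕ) (c : (Ω ≃ₐ[F] Ω) → P27 Ω) : Prop where
  hl : l.Prime
  five : 5 ≤ l
  pr : Prime π
  prim : Prim π
  dvd : π ∣ (l : O)
  mul : ∀ s t, c (s * t) = c s + ac W27 s (c t)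
  cont : ∃ L : IntermediateField F Ω, FiniteDimensional F L ∧ ∀ s ∈ L.fixingSubgroup, c s = 0
  val : ∀ s, c s ∈ Tor (cj π) Ω
  loc : ∀ V : ValuationSubring Ω, ∃ P : P27 Ω, ∀ s, Inert V s → c s = ac W27 s P - P

/-- A Galois equivariant pairing between the points killed by the conjugate of pi and those killed by pi, with
values in the l-th roots of unity. -/
structure Pairing (π : O) (l : ℕ) (e : P27 Ω → P27 Ω → Ω) : Prop where
  add_left : ∀ X ∈ Tor (cj π) Ω, ∀ X' ∈ Tor (cj π) Ω, ∀ T ∈ Tor π Ω, e (X + X') T = e X T * e X' T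
  add_right : ∀ X ∈ Tor (cj π) Ω, ∀ T ∈ Tor π Ω, ∀ T' ∈ Tor π Ω, e X (T + T') = e X T * e X T'
  root : ∀ X ∈ Tor (cj π) Ω, ∀ T ∈ Tor π Ω, e X T ^ l = 1
  act : ∀ (s : Ω ≃ₐ[F] Ω), ∀ X ∈ Tor (cj π) Ω, ∀ T ∈ Tor π Ω, s (e X T) = e (ac W27 s X) (ac W27 s T)
  nondeg : ∀ X ∈ Tor (cj π) Ω, (∀ T ∈ Tor π Ω, e X T = 1) → X = 0

/-- L is the field generated by the points killed by pi. -/
def IsTF (π : O) (L : IntermediateField F Ω) : Prop :=
  FiniteDimensional F L ∧ ∀ s : Ω ≃ₐ[F] Ω, s ∈ L.fixingSubgroup ↔ ∀ T ∈ Tor π Ω, ac W27 s T = T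

/-- y is a Kummer generator for the point T. -/
def Kum (L : IntermediateField F Ω) (e : P27 Ω → P27 Ω → Ω) (c : (Ω ≃ₐ[F] Ω) → P27 Ω) (T : P27 Ω) (y : Ω) :
    Prop :=
  y ≠ 0 ∧ ∀ s ∈ L.fixingSubgroup, s y = e (c s) T * y

theorem ac_one (P : P27 Ω) : ac W27 (1 : Ω ≃ₐ[F] Ω) P = P := by cases P <;> rfl

theorem ac_mul (s t : Ω ≃ₐ[F] Ω) (P : P27 Ω) : ac W27 (s * t) P = ac W27 s (ac W27 t P) := by
  cases P <;> rfl

theorem ac_inv (s : Ω ≃ₐ[F] Ω) (P : P27 Ω) : ac W27 s (ac W27 s⁻¹ P) = P := by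
  rw [← ac_mul, mul_inv_cancel, ac_one]

theorem ac_act (s : Ω ≃ₐ[F] Ω) (a : O) (P : P27 Ω) : ac W27 s (act a P) = act a (ac W27 s P) :=
  mp_act s.toAlgHom a P

theorem ac_mem (s : Ω ≃ₐ[F] Ω) {a : O} {P : P27 Ω} (h : P ∈ Tor a Ω) : ac W27 s P ∈ Tor a Ω :=
  (mp_mem_Tor s.toAlgHom a P).2 h

theorem Cl.one {π : O} {l : ℕ} {c : (Ω ≃ₐ[F] Ω) → P27 Ω} (h : Cl π l c) : c 1 = 0 := by
  have h1 := h.mul 1 1
  rw [mul_one, ac_one] at h1
  exact left_eq_add.mp h1

end H13S
end

-- from Lib.H13S.VW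
section

open NumberField IsDedekindDomain

namespace H13S

/-- The prime ideal below a valuation ring. -/
def vwI {F₀ : Type} [Field F₀] {Ω : Type} [Field Ω] [Algebra F₀ Ω]
    (K : IntermediateField F₀ Ω) [NumberField K] (V : ValuationSubring Ω) : Ideal (𝓞 K) where
  carrier := {z | V.valuation ((z : K) : Ω) < 1}
  zero_mem' := by
    show V.valuation (((0 : 𝓞 K) : K) : Ω) < 1
    simp
  add_mem' := by
    intro a b ha hb
    show V.valuation (((a + b : 𝓞 K) : K) : Ω) < 1
    have e : (((a + b : 𝓞 K) : K) : Ω) = ((a : K) : Ω) + ((b : K) : Ω) := by simp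
    rw [e]
    exact V.valuation.map_add_lt ha hb
  smul_mem' := by
    intro a b hb
    show V.valuation (((a * b : 𝓞 K) : K) : Ω) < 1
    have e : (((a * b : 𝓞 K) : K) : Ω) = ((a : K) : Ω) * ((b : K) : Ω) := by simp
    rw [e, map_mul]
    have h1 : IsIntegral ℤ ((a : K) : Ω) :=
      (RingOfIntegers.isIntegral_coe a).map (K.val.restrictScalars ℤ)
    have h2 : IsIntegral V ((a : K) : Ω) := h1.tower_top
    obtain ⟨y, hy⟩ := (IsIntegrallyClosed.isIntegral_iff (R := V) (K := Ω)).1 h2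
    have h3 : V.valuation ((a : K) : Ω) ≤ 1 := by
      rw [← hy]
      exact (V.valuation_le_one_iff _).2 y.2
    exact lt_of_le_of_lt (mul_le_of_le_one_left' h3) hb

theorem vw_int {F₀ : Type} [Field F₀] {Ω : Type} [Field Ω] [Algebra F₀ Ω]
    (K : IntermediateField F₀ Ω) [NumberField K] (V : ValuationSubring Ω) (a : 𝓞 K) :
    V.valuation ((a : K) : Ω) ≤ 1 := by
  have h1 : IsIntegral ℤ ((a : K) : Ω) :=
    (RingOfIntegers.isIntegral_coe a).map (K.val.restrictScalars ℤ)
  have h2 : IsIntegral V ((a : K) : Ω) := h1.tower_top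
  obtain ⟨y, hy⟩ := (IsIntegrallyClosed.isIntegral_iff (R := V) (K := Ω)).1 h2
  rw [← hy]
  exact (V.valuation_le_one_iff _).2 y.2

/-- Chunk VW (S/M). A valuation ring of Ω which does not contain K lies above a prime of K. Proof: V contains the algebraic integers of K
(V is integrally closed and contains the integers), P = {a in 𝓞 K : V.valuation a < 1} is a prime ideal; if it were 0 then V would contain all
quotients of algebraic integers, that is K. For w = P: w.valuation x ≤ 1 implies x = a/b with b not in P (valuation ring of w = localisation,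
e.g. IsDedekindDomain.HeightOneSpectrum.exists_adicValued_mul_sub_le or valuation_le_one iff ..), so x in V. Conversely if
w.valuation x > 1 then w.valuation (1/x) < 1, 1/x = a/b with a in P, b not in P, so V.valuation (1/x) < 1 and x is not in V. Also prove the second part: elements
of value < 1 correspond. -/
theorem exists_below {F₀ : Type} [Field F₀] {Ω : Type} [Field Ω] [Algebra F₀ Ω]
    (K : IntermediateField F₀ Ω) [NumberField K] (V : ValuationSubring Ω) (h : ∃ x : K, (x : Ω) ∉ V) :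
    ∃ w : HeightOneSpectrum (𝓞 K), Abv K V w := by
  have hP : ∀ z : 𝓞 K, z ∈ vwI K V ↔ V.valuation ((z : K) : Ω) < 1 := fun z => Iff.rfl
  have hP1 : ∀ z : 𝓞 K, z ∉ vwI K V → V.valuation ((z : K) : Ω) = 1 := fun z hz =>
    le_antisymm (vw_int K V z) (not_lt.1 fun h' => hz h')
  have hmul : ∀ a b : K, V.valuation ((a * b : K) : Ω) = V.valuation (a : Ω) * V.valuation (b : Ω) := by
    intro a b
    rw [← map_mul]
    rfl
  have hprime : (vwI K V).IsPrime := by
    refine Ideal.isPrime_iff.2 ⟨?_, ?_⟩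
    · intro h1
      have h2 : (1 : 𝓞 K) ∈ vwI K V := by rw [h1]; trivial
      rw [hP] at h2
      simp at h2
    · intro x y hxy
      by_contra hc
      rw [not_or] at hc
      rw [hP] at hxy
      have e : (((x * y : 𝓞 K) : K) : Ω) = ((x : K) : Ω) * ((y : K) : Ω) := by simp
      rw [e, map_mul, hP1 _ hc.1, hP1 _ hc.2, one_mul] at hxy
      exact lt_irrefl _ hxy
  have hne : vwI K V ≠ ⊥ := by
    intro h0
    obtain ⟨x, hx⟩ := h
    apply hx
    obtain ⟨a, b, hb, hab⟩ := IsFractionRing.div_surjective (A := 𝓞 K) x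
    have hb0 : b ≠ 0 := nonZeroDivisors.ne_zero hb
    have hb1 : V.valuation ((b : K) : Ω) = 1 := hP1 b fun h' => hb0 (by
      rw [h0, Ideal.mem_bot] at h'
      exact h')
    have hb2 : (b : K) ≠ 0 := fun h' => hb0 (RingOfIntegers.coe_injective (h'.trans (map_zero _).symm))
    have h1 : x * (b : K) = a := by
      rw [← hab]
      exact div_mul_cancel₀ _ hb2
    have h2 := hmul x (b : K)
    rw [h1, hb1, mul_one] at h2
    rw [← V.valuation_le_one_iff, ← h2]
    exact vw_int K V a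
  let w : HeightOneSpectrum (𝓞 K) := ⟨vwI K V, hprime, hne⟩
  refine ⟨w, fun x => ?_⟩
  rw [← V.valuation_le_one_iff]
  have hw1 : ∀ d : 𝓞 K, d ∉ vwI K V → w.valuation K (algebraMap (𝓞 K) K d) = 1 := fun d hd =>
    le_antisymm (w.valuation_le_one d) (not_lt.1 fun h' => hd ((w.valuation_lt_one_iff_mem d).1 h'))
  obtain ⟨n, d, hnd | hnd⟩ := w.exists_primeCompl_mul_eq_or_mul_eq x
  · have h1 := hmul x (algebraMap (𝓞 K) K (d : 𝓞 K))
    rw [hnd] at h1
    have h2 : V.valuation ((algebraMap (𝓞 K) K (d : 𝓞 K) : K) : Ω) = 1 := hP1 _ d.2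
    rw [h2, mul_one] at h1
    have h3 := congrArg (w.valuation K) hnd
    rw [map_mul, hw1 _ d.2, mul_one] at h3
    refine ⟨fun _ => ?_, fun _ => ?_⟩
    · rw [h3]
      exact w.valuation_le_one n
    · rw [← h1]
      exact vw_int K V n
  · have h1 := hmul x (algebraMap (𝓞 K) K n)
    rw [hnd] at h1
    have h2 : V.valuation ((algebraMap (𝓞 K) K (d : 𝓞 K) : K) : Ω) = 1 := hP1 _ d.2
    rw [h2] at h1
    have h3 := congrArg (w.valuation K) hnd
    rw [map_mul, hw1 _ d.2] at h3
    by_cases hn : n ∈ vwI K V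
    · have h4 : V.valuation ((algebraMap (𝓞 K) K n : K) : Ω) < 1 := hn
      have h5 : w.valuation K (algebraMap (𝓞 K) K n) < 1 := (w.valuation_lt_one_iff_mem n).2 hn
      refine ⟨fun h6 => ?_, fun h6 => ?_⟩
      · exact absurd h1 (ne_of_gt (lt_of_le_of_lt (mul_le_of_le_one_left' h6) h4))
      · exact absurd h3 (ne_of_lt (lt_of_le_of_lt (mul_le_of_le_one_left' h6) h5))
    · have h4 : V.valuation ((algebraMap (𝓞 K) K n : K) : Ω) = 1 := hP1 _ hn
      rw [h4, mul_one] at h1
      rw [hw1 _ hn, mul_one] at h3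
      rw [← h1, h3]
      exact ⟨fun _ => le_rfl, fun _ => le_rfl⟩

theorem Abv.lt {F₀ : Type} [Field F₀] {Ω : Type} [Field Ω] [Algebra F₀ Ω]
    {K : IntermediateField F₀ Ω} [NumberField K] {V : ValuationSubring Ω} {w : HeightOneSpectrum (𝓞 K)}
    (h : Abv K V w) (x : K) : V.valuation (x : Ω) < 1 ↔ w.valuation K x < 1 := by
  by_cases hx : x = 0
  · subst hx
    rw [map_zero]
    have : ((0 : K) : Ω) = 0 := rfl
    rw [this, map_zero]
    exact ⟨fun _ => zero_lt_one, fun _ => zero_lt_one⟩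
  · have hx' : (x : Ω) ≠ 0 := fun h' => hx (Subtype.ext h')
    have h1 := h x⁻¹
    have e : ((x⁻¹ : K) : Ω) = (x : Ω)⁻¹ := rfl
    rw [← V.valuation_le_one_iff, e, map_inv₀, map_inv₀] at h1
    have h2 : 0 < V.valuation (x : Ω) := zero_lt_iff.2 ((map_ne_zero _).2 hx')
    have h3 : 0 < w.valuation K x := zero_lt_iff.2 ((map_ne_zero _).2 hx)
    rw [inv_le_one₀ h2, inv_le_one₀ h3] at h1
    rw [← not_le, ← not_le, h1]

theorem Abv.le {F₀ : Type} [Field F₀] {Ω : Type} [Field Ω] [Algebra F₀ Ω]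
    {K : IntermediateField F₀ Ω} [NumberField K] {V : ValuationSubring Ω} {w : HeightOneSpectrum (𝓞 K)}
    (h : Abv K V w) (x y : K) : V.valuation (x : Ω) ≤ V.valuation (y : Ω) ↔
      w.valuation K x ≤ w.valuation K y := by
  by_cases hy : y = 0
  · subst hy
    have e : ((0 : K) : Ω) = 0 := rfl
    rw [map_zero, e, map_zero, le_zero_iff, le_zero_iff, map_eq_zero, map_eq_zero]
    exact ⟨fun h' => Subtype.ext h', fun h' => by rw [h']; rfl⟩
  · have hy' : (y : Ω) ≠ 0 := fun h' => hy (Subtype.ext h')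
    have h1 := h (x / y)
    have e : ((x / y : K) : Ω) = (x : Ω) / (y : Ω) := rfl
    have h2 : 0 < V.valuation (y : Ω) := zero_lt_iff.2 ((map_ne_zero _).2 hy')
    have h3 : 0 < w.valuation K y := zero_lt_iff.2 ((map_ne_zero _).2 hy)
    rw [← V.valuation_le_one_iff, e, map_div₀, map_div₀, div_le_one₀ h2, div_le_one₀ h3] at h1
    exact h1

end H13S
end

-- from Lib.H28G.GV4
section

open NumberField IsDedekindDomain WeierstrassCurve

namespace H28G

open H55B

/-! Chunk GV4 (M): congruent points differ by a point of E1 (good reduction, v 3 = 1). P = (x1,y1), -Q = (x2, -1-y2). If x1 = x2: P = Q or P = -Q (xc_eq): P - Q = 0, or P - Q = P + P with y1 - y2 = 2y1 + 1 = fc P, v(fc P) < 1; if fc P = 0 then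
P + P = 0 (fc_eq_zero); otherwise dbl_coords: s = 3 x1^2/fc P, and v(4x1^3) = v(fc^2 - 1) = 1 so v(x1) = 1 or (v 4 < 1: v x1 <= 1 gives v(4 x1^3) < 1, impossible), so v(3 x1^2) = 1 < ..: v(s) > 1, v(xc(P+P)) = v(s^2 - 2x1) = v(s)^2 > 1.
If x1 <> x2: add_coords for P and -Q: s = (y1 + 1 + y2)/(x1 - x2), and (y1 - y2)(y1 + y2 + 1) = (x1 - x2)(x1^2 + x1x2 + x2^2) (difference of the two equations). (a) v(y1+y2+1) = 1: v(s) = 1/v(x1-x2) > 1. (b) v(y1+y2+1) < 1: y1 + y2 + 1 = 2y1 + 1 - (y1 - y2), so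
v(fc P) < 1, as before v(x1) = 1 (and v 2 = 1), x1^2 + x1x2 + x2^2 = 3x1^2 + small has valuation 1, so (x1 - x2)(unit) = (y1 - y2)(y1+y2+1) <> 0 and s = (x1^2+x1x2+x2^2)/(y1-y2), v(s) > 1. In both cases v(xc(P-Q)) = v(s^2 - x1 - x2) = v(s)^2 > 1. -/

variable {k : Type} [Field k] [DecidableEq k] [Algebra F k]
  {Γ : Type} [LinearOrderedCommGroupWithZero Γ] (v : Valuation k Γ)

omit [DecidableEq k] [Algebra F k] in
theorem GV4_two : v 2 ≤ 1 := by
  have h : (2 : k) = 1 + 1 := by norm_num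
  rw [h]
  exact (Valuation.map_add v 1 1).trans (by rw [map_one, max_self])

omit [DecidableEq k] [Algebra F k] in
theorem GV4_gt {s a b : k} (hs : 1 < v s) (ha : v a ≤ 1) (hb : v b ≤ 1) : 1 < v (s ^ 2 - a - b) := by
  by_contra h
  rw [not_lt] at h
  have h1 : v (s ^ 2) ≤ 1 := by
    have e : s ^ 2 = (s ^ 2 - a - b) + (a + b) := by ring
    rw [e]
    exact (Valuation.map_add v _ _).trans (max_le h ((Valuation.map_add v _ _).trans (max_le ha hb)))
  rw [map_pow] at h1
  exact absurd h1 (not_le.2 (one_lt_pow₀ hs (by norm_num)))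

omit [DecidableEq k] [Algebra F k] in
theorem GV4_div {a b : k} (ha : 1 ≤ v a) (hb : v b < 1) (hb0 : b ≠ 0) : 1 < v (a / b) := by
  rw [map_div₀]
  have h0 : 0 < v b := by
    rw [zero_lt_iff]
    exact (Valuation.ne_zero_iff v).2 hb0
  rw [one_lt_div₀ h0]
  exact hb.trans_le ha

omit [DecidableEq k] in
/-- If 2y + 1 is small then x is a unit. -/
theorem GV4_x {P : P27 k} (h1 : v (xc P) ≤ 1) (hf : v (fc P) < 1) : v (xc P) = 1 := by
  refine le_antisymm h1 ?_
  by_contra h
  rw [not_le] at h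
  have h2 : v (4 * xc P ^ 3) < 1 := by
    have e : 4 * xc P ^ 3 = (2 * 2 * xc P ^ 2) * xc P := by ring
    rw [e, map_mul]
    have h3 : v (2 * 2 * xc P ^ 2) ≤ 1 := by
      rw [map_mul, map_mul, map_pow]
      exact mul_le_one₀ (mul_le_one₀ (GV4_two v) zero_le (GV4_two v)) zero_le (pow_le_one₀ zero_le h1)
    exact (mul_le_of_le_one_left zero_le h3).trans_lt h
  have h4 : v (4 * xc P ^ 3 + 1) = 1 := by
    rw [Valuation.map_add_eq_of_lt_right v (by rwa [map_one]), map_one]
  rw [← fc_sq, map_pow] at h4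
  exact absurd h4 (pow_lt_one₀ zero_le hf (by norm_num)).ne

omit [DecidableEq k] in
theorem GV4_3x {P : P27 k} (h3 : v 3 = 1) (hx : v (xc P) = 1) : v (3 * xc P ^ 2) = 1 := by
  rw [map_mul, map_pow, h3, hx, one_pow, one_mul]

theorem red_sub (h3 : v 3 = 1) {P Q : P27 k} (hP : P ≠ 0) (hQ : Q ≠ 0) (h1 : v (xc P) ≤ 1)
    (h2 : v (xc Q) ≤ 1) (hx : v (xc P - xc Q) < 1) (hy : v (yc P - yc Q) < 1) : E1 v (P - Q) := by
  by_cases hxx : xc P = xc Q
  · rcases xc_eq hP hQ hxx with h | h
    · left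
      rw [h, sub_self]
    · -- `P = -Q`
      have hQP : Q = -P := by rw [h, neg_neg]
      have hf : v (fc P) < 1 := by
        rw [hQP, yc_neg hP] at hy
        have e : fc P = yc P - (-1 - yc P) := by
          unfold fc
          ring
        rwa [e]
      have e : P - Q = P + P := by rw [hQP, sub_neg_eq_add]
      rw [e]
      by_cases hf0 : fc P = 0
      · left
        have h5 : P = -P := by
          refine pt_ext hP (neg_ne hP) (xc_neg P).symm ?_
          rw [yc_neg hP]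
          unfold fc at hf0
          linear_combination hf0
        nth_rewrite 2 [h5]
        exact add_neg_cancel P
      · right
        have hd := (dbl_coords hP hf0).2.1
        rw [hd]
        have e2 : (3 * xc P ^ 2 / fc P) ^ 2 - 2 * xc P = (3 * xc P ^ 2 / fc P) ^ 2 - xc P - xc P := by ring
        rw [e2]
        exact GV4_gt v (GV4_div v (GV4_3x v h3 (GV4_x v h1 hf)).ge hf hf0) h1 h1
  · right
    have hxn : xc P ≠ xc (-Q) := by rwa [xc_neg]
    have ha := (add_coords hP (neg_ne hQ) hxn).2.1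
    rw [sub_eq_add_neg, ha, xc_neg, yc_neg hQ]
    refine GV4_gt v ?_ h1 h2
    have hd0 : xc P - xc Q ≠ 0 := sub_ne_zero.2 hxx
    have e1 : yc P - (-1 - yc Q) = yc P + yc Q + 1 := by ring
    rw [e1]
    by_cases hs : v (yc P + yc Q + 1) < 1
    · have hf : v (fc P) < 1 := by
        have e : fc P = (yc P + yc Q + 1) + (yc P - yc Q) := by
          unfold fc
          ring
        rw [e]
        exact (Valuation.map_add v _ _).trans_lt (max_lt hs hy)
      have hx1 := GV4_x v h1 hf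
      have hq : v (xc P ^ 2 + xc P * xc Q + xc Q ^ 2) = 1 := by
        have e : xc P ^ 2 + xc P * xc Q + xc Q ^ 2 = 3 * xc P ^ 2 +
            -((xc P - xc Q) * (xc P + (xc P + xc Q))) := by ring
        have h5 : v (-((xc P - xc Q) * (xc P + (xc P + xc Q)))) < v (3 * xc P ^ 2) := by
          rw [GV4_3x v h3 hx1, Valuation.map_neg, map_mul]
          have h6 : v (xc P + (xc P + xc Q)) ≤ 1 :=
            (Valuation.map_add v _ _).trans (max_le h1 ((Valuation.map_add v _ _).trans (max_le h1 h2)))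
          exact (mul_le_of_le_one_right zero_le h6).trans_lt hx
        rw [e, Valuation.map_add_eq_of_lt_left v h5, GV4_3x v h3 hx1]
      have hq0 : xc P ^ 2 + xc P * xc Q + xc Q ^ 2 ≠ 0 := by
        intro h
        rw [h, map_zero] at hq
        exact zero_ne_one hq
      have hid : (yc P - yc Q) * (yc P + yc Q + 1) = (xc P - xc Q) * (xc P ^ 2 + xc P * xc Q + xc Q ^ 2) := by
        linear_combination eqn P - eqn Q
      have hy0 : yc P - yc Q ≠ 0 := by
        intro h
        rw [h, zero_mul] at hid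
        exact mul_ne_zero hd0 hq0 hid.symm
      have e2 : (yc P + yc Q + 1) / (xc P - xc Q) = (xc P ^ 2 + xc P * xc Q + xc Q ^ 2) / (yc P - yc Q) := by
        rw [div_eq_div_iff hd0 hy0]
        linear_combination hid
      rw [e2]
      exact GV4_div v hq.ge hy hy0
    · exact GV4_div v (not_lt.1 hs) hx hd0

end H28G
end

-- from Lib.H35T.L1
section

open NumberField IsDedekindDomain

namespace H35T

open H55B

/-! Chunk L1 (L): multiplication by the square root of -3 on the Weierstrass function of 3O. Adapt H55B.A2 (wp_double).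
s = e sq3 = 2 e om + 1, s^2 = -3. D(z) = 3 wp(s z) wp(z)^2 + wp(z)^3. D is periodic (s * 3 y = 3 (sq3 y)), even and (A0_liouville) it is enough
to show that D has removable singularities everywhere and the value LL.g3 at 0.
At 0: wp z = z^(-2) + z^4 u(z), u(0) = g3/28 (wp_expansion), wp(s z) = -z^(-2)/3 + 9 z^4 u(s z), so
D = (z^(-2) + z^4 u(z))^2 (27 z^4 u(s z) + z^4 u(z)) = (1 + z^6 u(z))^2 (27 u(s z) + u(z)), value 28 u(0) = g3.
At z0 not in Lam with s z0 not in Lam: analytic. At z0 not in Lam with s z0 in Lam: e om z0 - z0 is in Lam (sq3 = 2 om + 1 is a unit times om - 1;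
3 = -om^2 (om-1)^2), so wp(z0) = wp(e om z0) = e om wp(z0) and wp(z0) = 0. Write wp(z) = (z - z0) q(z), q analytic at z0 (dslope) and
wp(s z) = wp(s (z - z0)) = (s (z - z0))^(-2) + analytic near z0; so D is the sum of 3 q(z)^2 s^(-2) and an analytic function.
At all other points of Lam use the periodicity. -/

theorem L1_s : e sq3 = 2 * e om + 1 := by
  unfold sq3
  rw [map_add, map_mul, map_ofNat, map_one]

theorem L1_sq : e sq3 ^ 2 = -3 := by
  rw [L1_s]
  have := e_om_rel
  linear_combination 4 * this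

theorem L1_ne : e sq3 ≠ 0 := by
  intro h
  have := L1_sq
  rw [h] at this
  norm_num at this

/-- The function of the proof. -/
noncomputable def L1_D (z : ℂ) : ℂ := 3 * wp (e sq3 * z) * wp z ^ 2 + wp z ^ 3

theorem L1_per (z : ℂ) (y : O) : L1_D (z + 3 * e y) = L1_D z := by
  unfold L1_D
  have h : e sq3 * (z + 3 * e y) = e sq3 * z + 3 * e (sq3 * y) := by
    rw [map_mul]
    ring
  rw [h, wp_per, wp_per]

theorem L1_analytic {z : ℂ} (h1 : z ∉ Lam) (h2 : e sq3 * z ∉ Lam) : AnalyticAt ℂ L1_D z := by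
  have a1 := A2_wp_analytic h1
  have a2 : AnalyticAt ℂ (fun w => wp (e sq3 * w)) z :=
    (A2_wp_analytic h2).comp (f := fun w => e sq3 * w) (by fun_prop)
  unfold L1_D
  fun_prop

theorem L1_tendsto (z₀ : ℂ) : Filter.Tendsto (fun z : ℂ => e sq3 * (z - z₀)) (nhdsWithin z₀ {z₀}ᶜ)
    (nhdsWithin (0 : ℂ) {0}ᶜ) := by
  rw [tendsto_nhdsWithin_iff]
  constructor
  · have : ContinuousAt (fun z : ℂ => e sq3 * (z - z₀)) z₀ := by fun_prop
    have h := this.tendsto
    simp only [sub_self, mul_zero] at h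
    exact h.mono_left nhdsWithin_le_nhds
  · filter_upwards [self_mem_nhdsWithin] with z hz
    have hz' : z ≠ z₀ := hz
    show e sq3 * (z - z₀) ≠ 0
    exact mul_ne_zero L1_ne (sub_ne_zero.2 hz')

theorem L1_at_zero : ∃ a : ℂ → ℂ, AnalyticAt ℂ a 0 ∧ a 0 = LL.g₃ ∧
    ∀ᶠ z in nhdsWithin (0 : ℂ) {0}ᶜ, L1_D z = a z := by
  obtain ⟨u, hu, hu0, hexp⟩ := wp_expansion
  obtain ⟨U, hU⟩ : ∃ U : ℂ → ℂ, U = fun z => u (e sq3 * z) := ⟨_, rfl⟩
  have hu2 : AnalyticAt ℂ U 0 := by
    have : AnalyticAt ℂ u (e sq3 * 0) := by rw [mul_zero]; exact hu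
    rw [hU]
    exact this.comp (f := fun w : ℂ => e sq3 * w) (by fun_prop)
  refine ⟨fun z => (1 + z ^ 6 * u z) ^ 2 * (27 * U z + u z), by fun_prop, ?_, ?_⟩
  · rw [hU]
    simp only [mul_zero]
    rw [hu0]
    ring
  · have ht := L1_tendsto 0
    simp only [sub_zero] at ht
    filter_upwards [hexp, ht.eventually hexp, self_mem_nhdsWithin] with z h1 h2 hz
    have hz' : z ≠ 0 := hz
    have hs := L1_ne
    have hq := L1_sq
    unfold L1_D
    rw [h1, h2, hU]
    simp only
    have h3 : ((e sq3 * z) ^ 2)⁻¹ = -(z ^ 2)⁻¹ / 3 := by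
      rw [mul_pow, hq]
      field_simp
    have h4 : (e sq3 * z) ^ 4 = 9 * z ^ 4 := by
      rw [mul_pow, show e sq3 ^ 4 = (e sq3 ^ 2) ^ 2 by ring, hq]
      norm_num
    rw [h3, h4]
    field_simp
    ring

theorem L1_zero {z₀ : ℂ} (h2 : e sq3 * z₀ ∈ Lam) : wp z₀ = 0 := by
  obtain ⟨y, hy⟩ := h2
  have h3 : e om * z₀ = z₀ + 3 * e (-(om ^ 2 * y)) := by
    rw [map_neg, map_mul, map_pow]
    have hs := L1_s
    rw [hs] at hy
    have hr := e_om_rel
    have hc := A0_om_cube
    linear_combination (-(e om ^ 2)) * hy + (2 * z₀) * hc + (z₀) * hr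
  have h4 := wp_om z₀
  rw [h3, wp_per] at h4
  have h5 : (e om - 1) * wp z₀ = 0 := by linear_combination -h4
  rcases mul_eq_zero.1 h5 with h | h
  · exact absurd (sub_eq_zero.1 h) A0_om_ne_one
  · exact h

theorem L1_at_tors {z₀ : ℂ} (h1 : z₀ ∉ Lam) (h2 : e sq3 * z₀ ∈ Lam) : ∃ a : ℂ → ℂ,
    AnalyticAt ℂ a z₀ ∧ ∀ᶠ z in nhdsWithin z₀ {z₀}ᶜ, L1_D z = a z := by
  obtain ⟨u, hu, hu0, hexp⟩ := wp_expansion
  have hw0 := L1_zero h2
  obtain ⟨y, hy⟩ := h2
  have hwa := A2_wp_analytic h1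
  have hds := A2_dslope hwa
  obtain ⟨U, hU⟩ : ∃ U : ℂ → ℂ, U = fun z => u (e sq3 * (z - z₀)) := ⟨_, rfl⟩
  have hu2 : AnalyticAt ℂ U z₀ := by
    have : AnalyticAt ℂ u (e sq3 * (z₀ - z₀)) := by rw [sub_self, mul_zero]; exact hu
    rw [hU]
    exact this.comp (f := fun w : ℂ => e sq3 * (w - z₀)) (by fun_prop)
  refine ⟨fun z => -dslope wp z₀ z ^ 2 + 27 * (z - z₀) ^ 4 * U z * wp z ^ 2 + wp z ^ 3, ?_, ?_⟩
  · fun_prop
  · filter_upwards [(L1_tendsto z₀).eventually hexp, self_mem_nhdsWithin] with z h3 hz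
    have hz' : z ≠ z₀ := hz
    have hzz : z - z₀ ≠ 0 := sub_ne_zero.2 hz'
    have h4 : wp (e sq3 * z) = wp (e sq3 * (z - z₀)) := by
      have := wp_per (e sq3 * (z - z₀)) y
      rw [← hy] at this
      rw [← this]
      congr 1
      ring
    have hs := L1_ne
    have hq := L1_sq
    have h5 : ((e sq3 * (z - z₀)) ^ 2)⁻¹ = -((z - z₀) ^ 2)⁻¹ / 3 := by
      rw [mul_pow, hq]
      field_simp
    have h6 : (e sq3 * (z - z₀)) ^ 4 = 9 * (z - z₀) ^ 4 := by
      rw [mul_pow, show e sq3 ^ 4 = (e sq3 ^ 2) ^ 2 by ring, hq]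
      norm_num
    have h7 : wp z = (z - z₀) * dslope wp z₀ z := by
      rw [dslope_of_ne _ hz', slope_def_field, hw0, sub_zero]
      field_simp
    unfold L1_D
    rw [h4, h3, h5, h6, hU]
    simp only
    have h8 : wp z ^ 2 = (z - z₀) ^ 2 * dslope wp z₀ z ^ 2 := by rw [h7]; ring
    have h9 : 3 * (-((z - z₀) ^ 2)⁻¹ / 3) * wp z ^ 2 = -dslope wp z₀ z ^ 2 := by
      rw [h8]
      field_simp
    linear_combination h9

theorem wp_sq3 (z : ℂ) (h1 : z ∉ Lam) (h2 : e sq3 * z ∉ Lam) :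
    3 * wp (e sq3 * z) * wp z ^ 2 = LL.g₃ - wp z ^ 3 := by
  obtain ⟨a₀, ha₀, ha00, h₀⟩ := L1_at_zero
  have hall : ∀ z₀, ∃ a : ℂ → ℂ, AnalyticAt ℂ a z₀ ∧
      ∀ᶠ z in nhdsWithin z₀ {z₀}ᶜ, L1_D z = a z := by
    intro z₀
    by_cases c1 : z₀ ∈ Lam
    · obtain ⟨y, hy⟩ := c1
      have ht : Filter.Tendsto (fun z : ℂ => z - z₀) (nhdsWithin z₀ {z₀}ᶜ)
          (nhdsWithin (0 : ℂ) {0}ᶜ) := by
        rw [tendsto_nhdsWithin_iff]
        constructor
        · have : ContinuousAt (fun z : ℂ => z - z₀) z₀ := by fun_prop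
          have h := this.tendsto
          simp only [sub_self] at h
          exact h.mono_left nhdsWithin_le_nhds
        · filter_upwards [self_mem_nhdsWithin] with z hz
          have hz' : z ≠ z₀ := hz
          show z - z₀ ≠ 0
          exact sub_ne_zero.2 hz'
      refine ⟨fun z => a₀ (z - z₀), ?_, ?_⟩
      · have : AnalyticAt ℂ a₀ (z₀ - z₀) := by rw [sub_self]; exact ha₀
        exact this.comp (f := fun w : ℂ => w - z₀) (by fun_prop)
      · filter_upwards [ht.eventually h₀] with z h3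
        rw [← h3, ← L1_per (z - z₀) y, ← hy, sub_add_cancel]
    · by_cases c2 : e sq3 * z₀ ∈ Lam
      · exact L1_at_tors c1 c2
      · exact ⟨L1_D, L1_analytic c1 c2, Filter.Eventually.of_forall fun z => rfl⟩
  obtain ⟨c, hc⟩ := A0_liouville L1_D L1_per hall
  have e1 : L1_D z = c := hc z L1_D (L1_analytic h1 h2).continuousAt
    (Filter.Eventually.of_forall fun z => rfl)
  have e2 : a₀ 0 = c := hc 0 a₀ ha₀.continuousAt h₀
  rw [ha00] at e2
  unfold L1_D at e1
  linear_combination e1 - e2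

end H35T
end

-- from Lib.H55C.BSDTwo
section

open NumberField IsDedekindDomain

namespace H55C

open H55B

/-- The algebraic side: the 2-Selmer group of E27 over K is trivial (so that there is no 2-torsion in the
Tate-Shafarevich group) and E27(K) is finite of odd order. -/
def SelTwo (K : Type) [Field K] [NumberField K] : Prop :=
  (∀ m ∈ Sel K, ∃ b : Cub K, m = b ^ 2) ∧
  Finite (E27.baseChange K).toAffine.Point ∧
  Odd (Nat.card (E27.baseChange K).toAffine.Point)

/-- The rank part and the 2-part of the conjecture of Birch and Swinnerton-Dyer for E27 over K, in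
analytic rank 0 and with trivial 2-Selmer group: SelTwo K, the L-series converges absolutely
for Re s > 3/2 and continues analytically to Re s > 1/2 with nonzero value at 1, and the analytic order of the
Tate-Shafarevich group is a 2-adic unit (for the period lattice L of dx/(2y+1), which exists). -/
def BSDTwo (K : Type) [Field K] [NumberField K] [Algebra F K] : Prop :=
  SelTwo K ∧ (∃ L : PeriodPair, L.g₂ = 0 ∧ L.g₃ = -1) ∧
  ∃ Λ : ℂ → ℂ, AnalyticOnNhd ℂ Λ {s | 1 / 2 < s.re} ∧
    (∀ s : ℂ, 3 / 2 < s.re →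
      LSeriesSummable (fun n => (((E27.baseChange K).LFunction n : ℤ) : ℂ)) s ∧
      Λ s = (E27.baseChange K).LSeries s) ∧
    Λ 1 ≠ 0 ∧
    ∀ L : PeriodPair, L.g₂ = 0 → L.g₃ = -1 → Unit2 (shaAn K L (Λ 1))

/-- K/F is a Galois extension of 2-power degree. -/
def TwoExt (K : Type) [Field K] [Algebra F K] : Prop :=
  IsGalois F K ∧ ∃ k : ℕ, Module.finrank F K = 2 ^ k

/-- K/F is an abelian extension with a modulus of good primes. -/
def AbMod (K : Type) [Field K] [NumberField K] [Algebra F K] : Prop :=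
  (∀ g h : K ≃ₐ[F] K, g * h = h * g) ∧ ∃ α : O, GoodMod α ∧ IsModulus K α

/-- K is contained in a field N generated over F by square roots of admissible elements and m-th roots of
unity, m a squarefree product of primes l = 1 mod 3 modulo which 2 is not a cube. -/
def Explicit (K : Type) [Field K] [Algebra F K] : Prop :=
  ∃ (N : Type) (_ : Field N) (_ : NumberField N) (_ : Algebra F N) (_ : Algebra K N)
    (_ : IsScalarTower F K N) (m : ℕ) (S : Set N), Squarefree m ∧
    (∀ l : ℕ, l.Prime → l ∣ m → l % 3 = 1 ∧ ¬ ∃ x : ZMod l, x ^ 3 = 2) ∧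
    (∀ s ∈ S, (∃ a : O, Adm a ∧ s ^ 2 = algebraMap O N a) ∨ s ^ m = 1) ∧ Algebra.adjoin F S = ⊤

end H55C
end

-- from Lib.H55B.I1
section

open NumberField IsDedekindDomain

namespace H55B

/-! Chunk I1: formal Euler product over the primary elements.
Ac h n = sum of h over the primary x of norm n. For a finite set t of primes v not above 3 let X_t be the
monoid of primary elements all of whose prime factors are in t: by induction on t (insert v): every element of
X_(t + v) is uniquely x (gen v)^k, x in X_t, and N(x (gen v)^k) = N(x) N(v)^k, so the finite product over t equals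
n -> sum of h over x in X_t of norm n (convolution with the sequence h(gen v)^k at N(v)^k, which is
ofPowerSeries (absNorm v) of the geometric series: invOfUnit (1 - cX) 1 has coefficients c^k). For fixed n, all
x of norm n have their prime factors in the finite set of v with absNorm v <= n. -/

open Classical in
/-- The arithmetic function of a function on primary Eisenstein integers. -/
noncomputable def Ac (h : O → ℂ) : ArithmeticFunction ℂ :=
  ⟨fun n => if n = 0 then 0 else ∑ᶠ (x : O) (_ : Prim x ∧ Nm x = n), h x, by simp⟩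

/-- the primary elements of norm n with all prime factors in t -/
def I1_S (t : Finset {v : HeightOneSpectrum O // (3 : O) ∉ v.asIdeal}) (n : ℕ) : Set O :=
  {x | (Prim x ∧ Nm x = n) ∧
    ∀ v : {v : HeightOneSpectrum O // (3 : O) ∉ v.asIdeal}, gen v.1 ∣ x → v ∈ t}

theorem I1_finite_norm (n : ℕ) : {x : O | Nm x = n}.Finite := by
  refine (finite_norm_le ((n : ℝ) + 1)).subset fun x hx => ?_
  have h1 := Nm_eq x
  have hx' : Nm x = n := hx
  rw [hx'] at h1
  show ‖e x‖ ≤ (n : ℝ) + 1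
  by_contra hcon
  push Not at hcon
  have hn : (0 : ℝ) ≤ n := Nat.cast_nonneg n
  nlinarith [norm_nonneg (e x)]

theorem I1_S_finite (t : Finset {v : HeightOneSpectrum O // (3 : O) ∉ v.asIdeal}) (n : ℕ) :
    (I1_S t n).Finite := (I1_finite_norm n).subset fun _ hx => hx.1.2

open Classical in
/-- the partial arithmetic function -/
noncomputable def I1_A (h : O → ℂ) (t : Finset {v : HeightOneSpectrum O // (3 : O) ∉ v.asIdeal}) :
    ArithmeticFunction ℂ :=
  ⟨fun n => if n = 0 then 0 else ∑ᶠ x ∈ I1_S t n, h x, by simp⟩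

theorem I1_delta {N : ℕ} (hN : 1 < N) (b : ℕ) :
    ArithmeticFunction.ofPowerSeries N (PowerSeries.X : PowerSeries ℂ) b =
      if b = N then 1 else 0 := by
  split_ifs with h
  · have h1 := ArithmeticFunction.ofPowerSeries_apply_pow hN (PowerSeries.X : PowerSeries ℂ) 1
    rw [pow_one] at h1
    rw [h, h1, PowerSeries.coeff_one_X]
  · rw [ArithmeticFunction.ofPowerSeries_apply hN]
    by_cases hb : ∃ k, N ^ k = b
    · obtain ⟨k, rfl⟩ := hb
      rw [(Nat.pow_right_injective hN).extend_apply, PowerSeries.coeff_X, if_neg]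
      rintro rfl
      exact h (pow_one N)
    · rw [Function.extend_apply' _ _ _ hb]
      rfl

theorem I1_mul_delta (A : ArithmeticFunction ℂ) {N : ℕ} (hN : 1 < N) (n : ℕ) :
    (A * ArithmeticFunction.ofPowerSeries N (PowerSeries.X : PowerSeries ℂ)) n =
      if N ∣ n then A (n / N) else 0 := by
  by_cases hn : n = 0
  · subst hn
    simp
  rw [ArithmeticFunction.mul_apply]
  split_ifs with h
  · obtain ⟨m, rfl⟩ := h
    rw [Finset.sum_eq_single (m, N)]
    · rw [I1_delta hN, if_pos rfl, mul_one, Nat.mul_div_cancel_left _ (by omega)]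
    · rintro ⟨a, b⟩ hab hne
      rw [I1_delta hN, if_neg, mul_zero]
      rintro rfl
      have h1 := (Nat.mem_divisorsAntidiagonal.mp hab).1
      apply hne
      have h2 : a = m := Nat.eq_of_mul_eq_mul_right (by omega : 0 < b) (by rw [h1, mul_comm])
      rw [h2]
    · intro h1
      exact absurd (Nat.mem_divisorsAntidiagonal.mpr ⟨mul_comm _ _, hn⟩) h1
  · apply Finset.sum_eq_zero
    rintro ⟨a, b⟩ hab
    rw [I1_delta hN, if_neg, mul_zero]
    rintro rfl
    exact h ⟨a, by rw [← (Nat.mem_divisorsAntidiagonal.mp hab).1, mul_comm]⟩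

theorem I1_series (N : ℕ) (c : ℂ) :
    ArithmeticFunction.ofPowerSeries N (1 - PowerSeries.C c * PowerSeries.X) =
      1 - c • ArithmeticFunction.ofPowerSeries N (PowerSeries.X : PowerSeries ℂ) := by
  rw [← PowerSeries.smul_eq_C_mul, map_sub, map_one, map_smul]

theorem I1_norm_gen {v : HeightOneSpectrum O} (h3 : (3 : O) ∉ v.asIdeal) : 1 < Nm (gen v) := by
  have hgp := gen_prime v h3
  have h2 : Nm (gen v) ≠ 0 := fun h => hgp.ne_zero (Nm_eq_zero.1 h)
  have h3 : Nm (gen v) ≠ 1 := fun h => hgp.not_isUnit (Nm_eq_one.1 h)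
  omega

theorem I1_prim_div {v : HeightOneSpectrum O} (h3 : (3 : O) ∉ v.asIdeal) {x : O}
    (h : Prim (gen v * x)) : Prim x := by
  have hgP : Prim (gen v) := (gen_spec v h3).2
  have h2 : (3 : O) ∣ gen v * (x - 1) := by
    have h4 : gen v * (x - 1) = (gen v * x - 1) - (gen v - 1) := by ring
    rw [h4]
    exact dvd_sub h hgP
  exact hgP.coprime.symm.dvd_of_dvd_mul_left h2

open Classical in
theorem I1_set (t : Finset {v : HeightOneSpectrum O // (3 : O) ∉ v.asIdeal})
    (v : {v : HeightOneSpectrum O // (3 : O) ∉ v.asIdeal}) (n : ℕ) (hn : n ≠ 0) :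
    I1_S (insert v t) n = I1_S t n ∪
      (if Nm (gen v.1) ∣ n then (fun x => gen v.1 * x) '' I1_S (insert v t) (n / Nm (gen v.1))
        else ∅) := by
  have hN := I1_norm_gen v.2
  have hgp := gen_prime v.1 v.2
  ext x
  constructor
  · rintro ⟨⟨hx1, hx2⟩, hx3⟩
    by_cases hd : gen v.1 ∣ x
    · right
      obtain ⟨y, rfl⟩ := hd
      rw [Nm_mul] at hx2
      have hdvd : Nm (gen v.1) ∣ n := ⟨_, hx2.symm⟩
      rw [if_pos hdvd]
      refine ⟨y, ⟨⟨I1_prim_div v.2 hx1, ?_⟩, fun w hw => hx3 w (hw.mul_left _)⟩, rfl⟩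
      rw [← hx2, Nat.mul_div_cancel_left _ (by omega)]
    · left
      refine ⟨⟨hx1, hx2⟩, fun w hw => ?_⟩
      rcases Finset.mem_insert.mp (hx3 w hw) with h | h
      · rw [h] at hw
        exact absurd hw hd
      · exact h
  · rintro (⟨⟨hx1, hx2⟩, hx3⟩ | hx)
    · exact ⟨⟨hx1, hx2⟩, fun w hw => Finset.mem_insert_of_mem (hx3 w hw)⟩
    · split_ifs at hx with hdvd
      · obtain ⟨y, ⟨⟨hy1, hy2⟩, hy3⟩, rfl⟩ := hx
        refine ⟨⟨(gen_spec v.1 v.2).2.mul hy1, ?_⟩, fun w hw => ?_⟩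
        · rw [Nm_mul, hy2, Nat.mul_div_cancel' hdvd]
        · have hwp := gen_prime w.1 w.2
          rcases hwp.dvd_or_dvd hw with h | h
          · have h1 : Associated (gen w.1) (gen v.1) := (hwp.dvd_prime_iff_associated hgp).mp h
            have h2 := Prim.eq_of_associated (gen_spec w.1 w.2).2 (gen_spec v.1 v.2).2 h1
            have h3 : w = v := Subtype.ext (gen_inj w.2 v.2 h2)
            rw [h3]
            exact Finset.mem_insert_self v t
          · exact hy3 w h
      · exact absurd hx (Set.notMem_empty _)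

open Classical in
theorem I1_step (h : O → ℂ) (hmul : ∀ x y, h (x * y) = h x * h y)
    (t : Finset {v : HeightOneSpectrum O // (3 : O) ∉ v.asIdeal})
    (v : {v : HeightOneSpectrum O // (3 : O) ∉ v.asIdeal}) (hv : v ∉ t) :
    I1_A h (insert v t) * ArithmeticFunction.ofPowerSeries (Nm (gen v.1))
      (1 - PowerSeries.C (h (gen v.1)) * PowerSeries.X) = I1_A h t := by
  have hN := I1_norm_gen v.2
  have hgp := gen_prime v.1 v.2
  have hkey : ∀ n, (I1_A h (insert v t)) n = (I1_A h t) n + h (gen v.1) *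
      (if Nm (gen v.1) ∣ n then (I1_A h (insert v t)) (n / Nm (gen v.1)) else 0) := by
    intro n
    by_cases hn : n = 0
    · subst hn
      simp
    have h1 : (I1_A h (insert v t)) n = ∑ᶠ x ∈ I1_S (insert v t) n, h x := if_neg hn
    have h2 : (I1_A h t) n = ∑ᶠ x ∈ I1_S t n, h x := if_neg hn
    rw [h1, h2, I1_set t v n hn]
    split_ifs with hdvd
    · have hn' : n / Nm (gen v.1) ≠ 0 := by
        obtain ⟨m, rfl⟩ := hdvd
        rw [Nat.mul_div_cancel_left _ (by omega)]
        rintro rfl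
        exact hn (mul_zero _)
      have h3 : (I1_A h (insert v t)) (n / Nm (gen v.1)) =
          ∑ᶠ x ∈ I1_S (insert v t) (n / Nm (gen v.1)), h x := if_neg hn'
      rw [h3, finsum_mem_union _ (I1_S_finite t n) ((I1_S_finite _ _).image _),
        finsum_mem_image, mul_finsum_mem]
      · simp only [hmul]
      · intro x _ y _ hxy
        exact mul_left_cancel₀ hgp.ne_zero hxy
      · rw [Set.disjoint_left]
        rintro x hx ⟨y, -, rfl⟩
        exact hv (hx.2 v (Dvd.intro y rfl))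
    · rw [Set.union_empty, mul_zero, add_zero]
  ext n
  rw [I1_series, mul_sub, mul_one, mul_smul_comm]
  have h5 : (I1_A h (insert v t) - h (gen v.1) • (I1_A h (insert v t) *
      ArithmeticFunction.ofPowerSeries (Nm (gen v.1)) (PowerSeries.X : PowerSeries ℂ))) n =
      (I1_A h (insert v t)) n - h (gen v.1) * (I1_A h (insert v t) *
      ArithmeticFunction.ofPowerSeries (Nm (gen v.1)) (PowerSeries.X : PowerSeries ℂ)) n := by
    simp [sub_eq_add_neg]
  rw [h5, I1_mul_delta _ hN, hkey n]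
  ring

theorem I1_base (h : O → ℂ) (h1 : h 1 = 1) : I1_A h ∅ = 1 := by
  classical
  have hS : ∀ x : O, Prim x → (∀ v : {v : HeightOneSpectrum O // (3 : O) ∉ v.asIdeal},
      gen v.1 ∣ x → v ∈ (∅ : Finset {v : HeightOneSpectrum O // (3 : O) ∉ v.asIdeal})) → x = 1 := by
    intro x hx hv
    by_cases hu : IsUnit x
    · exact hx.eq_of_associated prim_one (associated_one_iff_isUnit.2 hu)
    · exfalso
      obtain ⟨p, hpi, hpd⟩ := WfDvdMonoid.exists_irreducible_factor hu hx.ne_zero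
      have hcop : IsCoprime p 3 := hx.coprime.of_isCoprime_of_dvd_left hpd
      obtain ⟨u, hup⟩ := exists_unit_prim hcop
      have hq : Prime ((u : O) * p) := by
        have h2 : Prime p := hpi.prime
        have h3 : Associated p ((u : O) * p) := ⟨u, by ring⟩
        exact h3.prime h2
      obtain ⟨v, hv3, hvq⟩ := exists_gen_eq hq hup
      have hqd : gen v ∣ x := by
        rw [hvq]
        exact (Units.isUnit u).mul_left_dvd.2 hpd
      exact absurd (hv ⟨v, hv3⟩ hqd) (Finset.notMem_empty _)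
  ext n
  by_cases hn : n = 0
  · subst hn
    simp
  have h2 : (I1_A h ∅) n = ∑ᶠ x ∈ I1_S ∅ n, h x := if_neg hn
  rw [h2]
  by_cases hn1 : n = 1
  · subst hn1
    have h3 : I1_S ∅ 1 = {1} := by
      ext x
      constructor
      · rintro ⟨⟨hx1, -⟩, hx3⟩
        exact hS x hx1 hx3
      · rintro rfl
        refine ⟨⟨prim_one, Nm_eq_one.mpr isUnit_one⟩, fun v hv => ?_⟩
        exact absurd (isUnit_of_dvd_one hv) (gen_prime v.1 v.2).not_isUnit
    rw [h3, finsum_mem_singleton, h1]
    simp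
  · have h3 : I1_S ∅ n = ∅ := by
      ext x
      constructor
      · rintro ⟨⟨hx1, hx2⟩, hx3⟩
        rw [hS x hx1 hx3, Nm_eq_one.mpr isUnit_one] at hx2
        exact absurd hx2.symm hn1
      · intro hx
        exact absurd hx (Set.notMem_empty _)
    rw [h3, finsum_mem_empty]
    simp [ArithmeticFunction.one_apply, hn1]

theorem I1_prod (h : O → ℂ) (hmul : ∀ x y, h (x * y) = h x * h y) (h1 : h 1 = 1)
    (t : Finset {v : HeightOneSpectrum O // (3 : O) ∉ v.asIdeal}) :
    (∏ v ∈ t, ArithmeticFunction.ofPowerSeries (Ideal.absNorm v.1.asIdeal)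
        (PowerSeries.invOfUnit (1 - PowerSeries.C (h (gen v.1)) * PowerSeries.X) 1)) = I1_A h t := by
  classical
  induction t using Finset.induction_on with
  | empty => rw [Finset.prod_empty, I1_base h h1]
  | insert v t hv ih =>
    rw [Finset.prod_insert hv, ih, ← I1_step h hmul t v hv, absNorm_gen v.1 v.2]
    have h2 : ArithmeticFunction.ofPowerSeries (Nm (gen v.1))
        (1 - PowerSeries.C (h (gen v.1)) * PowerSeries.X) *
        ArithmeticFunction.ofPowerSeries (Nm (gen v.1))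
        (PowerSeries.invOfUnit (1 - PowerSeries.C (h (gen v.1)) * PowerSeries.X) 1) = 1 := by
      rw [← map_mul, PowerSeries.mul_invOfUnit, map_one]
      simp
    calc ArithmeticFunction.ofPowerSeries (Nm (gen v.1))
          (PowerSeries.invOfUnit (1 - PowerSeries.C (h (gen v.1)) * PowerSeries.X) 1) *
          (I1_A h (insert v t) * ArithmeticFunction.ofPowerSeries (Nm (gen v.1))
            (1 - PowerSeries.C (h (gen v.1)) * PowerSeries.X))
        = I1_A h (insert v t) * (ArithmeticFunction.ofPowerSeries (Nm (gen v.1))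
            (1 - PowerSeries.C (h (gen v.1)) * PowerSeries.X) *
            ArithmeticFunction.ofPowerSeries (Nm (gen v.1))
          (PowerSeries.invOfUnit (1 - PowerSeries.C (h (gen v.1)) * PowerSeries.X) 1)) := by ring
      _ = I1_A h (insert v t) := by rw [h2, mul_one]

theorem EP (h : O → ℂ) (hmul : ∀ x y, h (x * y) = h x * h y) (h1 : h 1 = 1) (n : ℕ) :
    ∀ᶠ t : Finset {v : HeightOneSpectrum O // (3 : O) ∉ v.asIdeal} in Filter.atTop,
      (∏ v ∈ t, ArithmeticFunction.ofPowerSeries (Ideal.absNorm v.1.asIdeal)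
        (PowerSeries.invOfUnit (1 - PowerSeries.C (h (gen v.1)) * PowerSeries.X) 1)) n = Ac h n := by
  classical
  have hfin : {v : {v : HeightOneSpectrum O // (3 : O) ∉ v.asIdeal} |
      Ideal.absNorm v.1.asIdeal ≤ n}.Finite := by
    have h2 := Ideal.finite_setOfPred_absNorm_le (S := O) n
    refine Set.Finite.of_finite_image (f := fun v : {v : HeightOneSpectrum O //
      (3 : O) ∉ v.asIdeal} => v.1.asIdeal) (h2.subset ?_) ?_
    · rintro _ ⟨v, hv, rfl⟩
      exact hv
    · intro v _ w _ hvw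
      exact Subtype.ext (HeightOneSpectrum.ext hvw)
  refine Filter.eventually_atTop.mpr ⟨hfin.toFinset, fun t ht => ?_⟩
  rw [I1_prod h hmul h1 t]
  by_cases hn : n = 0
  · subst hn
    simp
  have h2 : (I1_A h t) n = ∑ᶠ x ∈ I1_S t n, h x := if_neg hn
  have h3 : Ac h n = ∑ᶠ (x : O) (_ : Prim x ∧ Nm x = n), h x := if_neg hn
  rw [h2, h3]
  have h4 : I1_S t n = {x : O | Prim x ∧ Nm x = n} := by
    ext x
    constructor
    · rintro ⟨hx, -⟩
      exact hx
    · rintro ⟨hx1, hx2⟩
      refine ⟨⟨hx1, hx2⟩, fun v hv => ht ?_⟩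
      rw [Set.Finite.mem_toFinset]
      show Ideal.absNorm v.1.asIdeal ≤ n
      rw [absNorm_gen v.1 v.2]
      obtain ⟨y, rfl⟩ := hv
      rw [Nm_mul] at hx2
      exact Nat.le_of_dvd (Nat.pos_of_ne_zero hn) ⟨_, hx2.symm⟩
  rw [h4]
  rfl

end H55B
end

-- from Lib.H35P.A4
section

namespace H35P

variable (L : PeriodPair)

/-! Chunk A4 (M). Copy of T_formula in Lib/H55N/E1.lean (second part of the file, from E1_F on) for a general lattice. T2 L a w is
E1_F a w. Periodicity of w ↦ T2 L a w: from sL_lim, sL_per and uniqueness of limits (see E1_F_per). At 0: wp_zero suffices,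
T2 = w^2 Rex(w) with Rex(0) = -℘'(a), and w^2 (℘ a - ℘ w) → -1. If 2a lies in the lattice both sides are 0 (E1_half, E1_wpd_half).
Liouville = liouville of A1. -/

theorem A4_F_per (a w l : ℂ) (hl : l ∈ L.lattice) : T2 L a (w + l) = T2 L a w := by
  refine tendsto_nhds_unique (sL_lim L a (w + l)) ?_
  refine (sL_lim L a w).congr fun R => ?_
  have e1 : a + (w + l) = a + w + l := by ring
  have e2 : a - (w + l) = a - w + -l := by ring
  rw [e1, e2, sL_per L R _ l hl, sL_per L R _ (-l) (neg_mem hl)]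

theorem A4_F_neg (a w : ℂ) : T2 L a (-w) = T2 L a w := by
  unfold T2 tT
  refine tsum_congr fun x => ?_
  rw [sub_neg_eq_add, ← sub_eq_add_neg]
  ring

/-! ### The elliptic function -/

/-- The terms of the sum. -/
noncomputable def A4_tm (a l w : ℂ) : ℂ := 2 / (((a + l) ^ 2 - w ^ 2) * (a + l))

/-- The sum without one term. -/
noncomputable def A4_Rex (a l₀ w : ℂ) : ℂ :=
  ∑' l : L.lattice, if l.1 = l₀ then 0 else A4_tm a l.1 w

theorem A4_bound (a : ℂ) (r : ℝ) (hr : 0 < r) (w : ℂ) (hw : ‖w‖ < r) (l : ℂ)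
    (h : 2 * r + 2 * ‖a‖ ≤ ‖l‖) : ‖A4_tm a l w‖ ≤ 16 * ‖l‖ ^ (-3 : ℝ) := by
  have ha := norm_nonneg a
  have hl : 0 < ‖l‖ := by linarith
  have h1 : ‖l‖ / 2 ≤ ‖a + l‖ := by
    have := norm_sub_norm_le l (-a)
    rw [norm_neg] at this
    have e1 : l - -a = a + l := by ring
    rw [e1] at this
    linarith
  have h2 : ‖l‖ / 2 ≤ ‖a + l - w‖ := by
    have := norm_sub_norm_le l (-a + w)
    have e1 : l - (-a + w) = a + l - w := by ring
    rw [e1] at this
    have h3 : ‖-a + w‖ ≤ ‖a‖ + ‖w‖ := by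
      refine (norm_add_le _ _).trans ?_
      rw [norm_neg]
    linarith
  have h2' : ‖l‖ / 2 ≤ ‖a + l + w‖ := by
    have := norm_sub_norm_le l (-a - w)
    have e1 : l - (-a - w) = a + l + w := by ring
    rw [e1] at this
    have h3 : ‖-a - w‖ ≤ ‖a‖ + ‖w‖ := by
      refine (norm_sub_le _ _).trans ?_
      rw [norm_neg]
    linarith
  unfold A4_tm
  have e2 : ((a + l) ^ 2 - w ^ 2) * (a + l) = (a + l - w) * (a + l + w) * (a + l) := by ring
  rw [e2, norm_div, norm_mul, norm_mul]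
  have h4 : (‖l‖ / 2) * (‖l‖ / 2) * (‖l‖ / 2) ≤ ‖a + l - w‖ * ‖a + l + w‖ * ‖a + l‖ := by
    gcongr
  have h5 : (‖l‖ : ℝ) ^ (-3 : ℝ) = 1 / ‖l‖ ^ 3 := by
    rw [Real.rpow_neg hl.le]
    norm_num
  rw [h5]
  have h6 : 0 < (‖l‖ / 2) * (‖l‖ / 2) * (‖l‖ / 2) := by positivity
  calc ‖(2 : ℂ)‖ / (‖a + l - w‖ * ‖a + l + w‖ * ‖a + l‖)
      ≤ ‖(2 : ℂ)‖ / ((‖l‖ / 2) * (‖l‖ / 2) * (‖l‖ / 2)) := by gcongr
    _ = 16 * (1 / ‖l‖ ^ 3) := by
        rw [Complex.norm_ofNat]
        field_simp
        norm_num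

theorem A4_hasSum (a l₀ : ℂ) : HasSumLocallyUniformly
    (fun (l : L.lattice) (w : ℂ) => if l.1 = l₀ then 0 else A4_tm a l.1 w) (A4_Rex L a l₀) := by
  refine L.hasSumLocallyUniformly_aux (u := fun _ => (16 * ‖·‖ ^ (-3 : ℝ))) _
    (fun _ _ => (ZLattice.summable_norm_rpow _ _ (by simp; norm_num)).mul_left _) fun r hr =>
    Filter.eventually_atTop.mpr ⟨2 * r + 2 * ‖a‖, ?_⟩
  rintro _ h s hs l rfl
  split_ifs
  · rw [norm_zero]
    positivity
  · exact A4_bound a r hr s hs l h

/-- The domain. -/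
def A4_U (a l₀ : ℂ) : Set ℂ :=
  {w | w - a ∈ ((L.lattice : Set ℂ) \ {l₀})ᶜ ∧ -w - a ∈ ((L.lattice : Set ℂ) \ {l₀})ᶜ}

theorem A4_U_open (a l₀ : ℂ) : IsOpen (A4_U L a l₀) := by
  have h1 : IsOpen {w : ℂ | w - a ∈ ((L.lattice : Set ℂ) \ {l₀})ᶜ} :=
    L.isOpen_compl_lattice_sdiff.preimage (by fun_prop)
  have h2 : IsOpen {w : ℂ | -w - a ∈ ((L.lattice : Set ℂ) \ {l₀})ᶜ} :=
    L.isOpen_compl_lattice_sdiff.preimage (by fun_prop)
  exact h1.inter h2

variable {L}

theorem A4_ne {a : ℂ} (ha : a ∉ L.lattice) {l : ℂ} (hl : l ∈ L.lattice) : a + l ≠ 0 := by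
  intro h
  apply ha
  have : a = -l := by linear_combination h
  rw [this]
  exact neg_mem hl

theorem A4_analytic {a : ℂ} (ha : a ∉ L.lattice) (l₀ : ℂ) :
    AnalyticOnNhd ℂ (A4_Rex L a l₀) (A4_U L a l₀) := by
  refine DifferentiableOn.analyticOnNhd ?_ (A4_U_open L a l₀)
  refine (A4_hasSum L a l₀).hasSumLocallyUniformlyOn.differentiableOn
    (.of_forall fun s => .fun_sum fun i hi => ?_) (A4_U_open L a l₀)
  split_ifs with hl
  · exact differentiableOn_const 0
  · unfold A4_tm
    refine .div (by fun_prop) (by fun_prop) ?_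
    intro w hw
    refine mul_ne_zero ?_ (A4_ne ha i.2)
    have e1 : (a + (i : ℂ)) ^ 2 - w ^ 2 = (a + i - w) * (a + i + w) := by ring
    rw [e1]
    refine mul_ne_zero ?_ ?_
    · intro h
      apply hw.1
      have e2 : w - a = i := by linear_combination -h
      rw [e2]
      exact ⟨i.2, hl⟩
    · intro h
      apply hw.2
      have e2 : -w - a = i := by linear_combination -h
      rw [e2]
      exact ⟨i.2, hl⟩

theorem A4_F_eq {a : ℂ} (ha : a ∉ L.lattice) {w : ℂ} (h1 : a + w ∉ L.lattice) (h2 : a - w ∉ L.lattice) :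
    T2 L a w = w ^ 2 * ∑' l : L.lattice, A4_tm a l.1 w := by
  unfold T2
  rw [← tsum_mul_left]
  congr 1
  funext x
  show (a + w + x)⁻¹ + (a - w + x)⁻¹ - 2 * (a + x)⁻¹ =
    w ^ 2 * (2 / (((a + x) ^ 2 - w ^ 2) * (a + x)))
  have n1 : a + w + x ≠ 0 := A4_ne h1 x.2
  have n2 : a - w + x ≠ 0 := A4_ne h2 x.2
  have n3 : a + x ≠ 0 := A4_ne ha x.2
  have e1 : (a + (x : ℂ)) ^ 2 - w ^ 2 = (a + w + x) * (a - w + x) := by ring
  rw [e1]
  field_simp
  ring

theorem A4_F_one {a : ℂ} (ha : a ∉ L.lattice) {w : ℂ} (h1 : a + w ∉ L.lattice) (h2 : a - w ∉ L.lattice) :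
    T2 L a w = w ^ 2 * A4_Rex L a a w := by
  rw [A4_F_eq ha h1 h2]
  congr 1
  unfold A4_Rex
  congr 1
  funext l
  rw [if_neg]
  intro h
  apply ha
  rw [← h]
  exact l.2

theorem A4_Rex_add (a w : ℂ) :
    ∑' l : L.lattice, A4_tm a l.1 w = A4_Rex L a 0 w + A4_tm a 0 w := by
  classical
  have h0 : (∑' l : L.lattice, if l = 0 then A4_tm a 0 w else 0) = A4_tm a 0 w := by
    rw [tsum_ite_eq]
  conv_rhs => rw [← h0]
  unfold A4_Rex
  rw [← Summable.tsum_add]
  · congr 1
    funext l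
    by_cases hl : l.1 = 0
    · have hl' : l = 0 := Subtype.ext hl
      rw [if_pos hl, if_pos hl', zero_add, hl]
    · have hl' : l ≠ 0 := fun h => hl (by rw [h]; rfl)
      rw [if_neg hl, if_neg hl', add_zero]
  · exact ⟨_, (A4_hasSum L a 0).hasSum⟩
  · exact summable_of_hasFiniteSupport ((Set.finite_singleton (0 : L.lattice)).subset (by simp))

theorem A4_F_zero {a : ℂ} (ha : a ∉ L.lattice) {w : ℂ} (h1 : a + w ∉ L.lattice) (h2 : a - w ∉ L.lattice) :
    T2 L a w = w ^ 2 * (A4_Rex L a 0 w + 2 / ((a ^ 2 - w ^ 2) * a)) := by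
  rw [A4_F_eq ha h1 h2, A4_Rex_add]
  congr 2
  unfold A4_tm
  rw [add_zero]

theorem A4_Rex_zero {a : ℂ} (ha : a ∉ L.lattice) : A4_Rex L a a 0 = -L.derivWeierstrassP a := by
  unfold A4_Rex PeriodPair.derivWeierstrassP
  rw [neg_neg, ← (Equiv.neg L.lattice).tsum_eq]
  congr 1
  funext l
  have hl : l.1 ∈ L.lattice := l.2
  rw [if_neg]
  · show A4_tm a (-l.1) 0 = 2 / (a - l.1) ^ 3
    unfold A4_tm
    congr 1
    ring
  · intro h
    apply ha
    have h' : -l.1 = a := h
    rw [← h']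
    exact neg_mem hl

theorem A4_ev (a z₀ : ℂ) : ∀ᶠ z in nhdsWithin z₀ {z₀}ᶜ, a + z ∉ L.lattice ∧ a - z ∉ L.lattice := by
  have h1 := (tendsto_punct (fun z => a + z) z₀ (by fun_prop) (fun b c h => by
    have : a + b = a + c := h
    linear_combination this)).eventually (ev_compl L _)
  have h2 := (tendsto_punct (fun z => a - z) z₀ (by fun_prop) (fun b c h => by
    have : a - b = a - c := h
    linear_combination -this)).eventually (ev_compl L _)
  filter_upwards [h1, h2] with z h3 h4 using ⟨h3, h4⟩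

variable (L)

/-- The elliptic function. -/
noncomputable def A4_D (a w : ℂ) : ℂ := T2 L a w * (L.weierstrassP a - L.weierstrassP w)

/-- Removable singularity. -/
def A4_Rem (a z₀ : ℂ) : Prop := ∃ b : ℂ → ℂ, AnalyticAt ℂ b z₀ ∧
  ∀ᶠ z in nhdsWithin z₀ {z₀}ᶜ, A4_D L a z = b z

theorem A4_D_per (a z : ℂ) (l : ℂ) (hl : l ∈ L.lattice) : A4_D L a (z + l) = A4_D L a z := by
  unfold A4_D
  rw [A4_F_per L a z l hl, L.weierstrassP_add_coe z ⟨l, hl⟩]

theorem A4_D_neg (a z : ℂ) : A4_D L a (-z) = A4_D L a z := by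
  unfold A4_D
  rw [A4_F_neg, L.weierstrassP_neg]

variable {L}

theorem A4_Rem_per {a z₀ : ℂ} (h : A4_Rem L a z₀) {y : ℂ} (hy : y ∈ L.lattice) : A4_Rem L a (z₀ + y) := by
  obtain ⟨b, ha, h⟩ := h
  refine ⟨fun z => b (z - y), ?_, ?_⟩
  · have : AnalyticAt ℂ b ((z₀ + y) - y) := by rw [add_sub_cancel_right]; exact ha
    exact this.comp (f := fun w : ℂ => w - y) (by fun_prop)
  · have ht := tendsto_punct (fun z => z - y) (z₀ + y) (by fun_prop) (fun a b h => by
      have : a - y = b - y := h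
      linear_combination this)
    simp only [add_sub_cancel_right] at ht
    filter_upwards [ht.eventually h] with z h3
    rw [← h3, ← A4_D_per L a (z - y) y hy, sub_add_cancel]

theorem A4_Rem_neg {a z₀ : ℂ} (h : A4_Rem L a z₀) : A4_Rem L a (-z₀) := by
  obtain ⟨b, ha, h⟩ := h
  refine ⟨fun z => b (-z), ?_, ?_⟩
  · have : AnalyticAt ℂ b (-(-z₀)) := by rw [neg_neg]; exact ha
    exact this.comp (f := fun w : ℂ => -w) (by fun_prop)
  · have ht := tendsto_punct (fun z => -z) (-z₀) (by fun_prop) neg_injective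
    simp only [neg_neg] at ht
    filter_upwards [ht.eventually h] with z h3
    rw [← h3, A4_D_neg]

theorem A4_U_one {a z : ℂ} (h1 : a + z ∉ L.lattice) (h2 : a - z ∉ L.lattice) (l₀ : ℂ) : z ∈ A4_U L a l₀ := by
  constructor
  · intro h
    apply h2
    have := neg_mem h.1
    have e1 : -(z - a) = a - z := by ring
    rwa [e1] at this
  · intro h
    apply h1
    have := neg_mem h.1
    have e1 : -(-z - a) = a + z := by ring
    rwa [e1] at this

theorem A4_D_analytic {a z : ℂ} (ha : a ∉ L.lattice) (h0 : z ∉ L.lattice) (h1 : a + z ∉ L.lattice)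
    (h2 : a - z ∉ L.lattice) : AnalyticAt ℂ (A4_D L a) z := by
  have a1 := A4_analytic ha a z (A4_U_one h1 h2 a)
  have a2 := wp_analytic L z h0
  have a3 : AnalyticAt ℂ (fun w => w ^ 2 * A4_Rex L a a w * (L.weierstrassP a - L.weierstrassP w)) z := by
    fun_prop
  refine a3.congr ?_
  have o1 : ∀ᶠ w in nhds z, a + w ∉ L.lattice :=
    ((compl_open L).preimage (f := fun w : ℂ => a + w) (by fun_prop)).mem_nhds h1
  have o2 : ∀ᶠ w in nhds z, a - w ∉ L.lattice :=
    ((compl_open L).preimage (f := fun w : ℂ => a - w) (by fun_prop)).mem_nhds h2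
  filter_upwards [o1, o2] with w h3 h4
  unfold A4_D
  rw [A4_F_one ha h3 h4]

theorem A4_at_zero {a : ℂ} (ha : a ∉ L.lattice) : ∃ b : ℂ → ℂ, AnalyticAt ℂ b 0 ∧
    b 0 = L.derivWeierstrassP a ∧ ∀ᶠ z in nhdsWithin (0 : ℂ) {0}ᶜ, A4_D L a z = b z := by
  obtain ⟨u, hu, hu0, hexp⟩ := wp_zero L
  have hU : (0 : ℂ) ∈ A4_U L a a := by
    apply A4_U_one
    · rw [add_zero]; exact ha
    · rw [sub_zero]; exact ha
  have a1 := A4_analytic ha a 0 hU
  refine ⟨fun w => A4_Rex L a a w * (w ^ 2 * L.weierstrassP a - 1 - w ^ 2 * u w), by fun_prop, ?_, ?_⟩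
  · simp only
    rw [A4_Rex_zero ha]
    ring
  · filter_upwards [A4_ev (L := L) a 0, self_mem_nhdsWithin] with w h2 hw
    have hw' : w ≠ 0 := hw
    unfold A4_D
    rw [A4_F_one ha h2.1 h2.2, hexp w hw']
    field_simp
    ring

theorem A4_at_a {a : ℂ} (ha : a ∉ L.lattice) (h2a : 2 * a ∉ L.lattice) : A4_Rem L a a := by
  have ha0 : a ≠ 0 := by
    rintro rfl
    exact ha (zero_mem _)
  have hU : a ∈ A4_U L a 0 := by
    constructor
    · intro h
      apply h.2
      rw [sub_self]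
      rfl
    · intro h
      apply h2a
      have := neg_mem h.1
      have e1 : -(-a - a) = 2 * a := by ring
      rwa [e1] at this
  have a1 := A4_analytic ha 0 a hU
  have a2 := wp_analytic L a ha
  have a3 : AnalyticAt ℂ (dslope L.weierstrassP a) a := by
    obtain ⟨p, hp⟩ := a2
    exact ⟨_, hp.has_fpower_series_dslope_fslope⟩
  have a4 : AnalyticAt ℂ (fun w : ℂ => 2 * w ^ 2 / ((a + w) * a)) a := by
    refine AnalyticAt.div (by fun_prop) (by fun_prop) ?_
    refine mul_ne_zero ?_ ha0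
    rw [← two_mul]
    exact mul_ne_zero two_ne_zero ha0
  obtain ⟨q, hq⟩ : ∃ q : ℂ → ℂ, q = fun w : ℂ => 2 * w ^ 2 / ((a + w) * a) := ⟨_, rfl⟩
  rw [← hq] at a4
  refine ⟨fun w => w ^ 2 * A4_Rex L a 0 w * (L.weierstrassP a - L.weierstrassP w) +
    q w * dslope L.weierstrassP a w, by fun_prop, ?_⟩
  filter_upwards [A4_ev (L := L) a a, self_mem_nhdsWithin] with w h2 hw
  have hw' : w ≠ a := hw
  have hw1 : a - w ≠ 0 := sub_ne_zero.2 hw'.symm
  have hw1' : w - a ≠ 0 := sub_ne_zero.2 hw'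
  have hw2 : a + w ≠ 0 := by
    intro h
    apply h2.1
    rw [h]
    exact zero_mem _
  unfold A4_D
  rw [A4_F_zero ha h2.1 h2.2, hq, dslope_of_ne _ hw', slope_def_field]
  have e1 : a ^ 2 - w ^ 2 = (a - w) * (a + w) := by ring
  rw [e1]
  field_simp
  ring

theorem A4_all {a : ℂ} (ha : a ∉ L.lattice) (h2a : 2 * a ∉ L.lattice) (z₀ : ℂ) : A4_Rem L a z₀ := by
  by_cases c0 : z₀ ∈ L.lattice
  · obtain ⟨b, hb, -, h⟩ := A4_at_zero ha
    have h0 : A4_Rem L a 0 := ⟨b, hb, h⟩
    have := A4_Rem_per h0 c0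
    rwa [zero_add] at this
  · by_cases c1 : a + z₀ ∈ L.lattice
    · have h1 := A4_Rem_per (A4_Rem_neg (A4_at_a ha h2a)) c1
      have e1 : -a + (a + z₀) = z₀ := by ring
      rwa [e1] at h1
    · by_cases c2 : a - z₀ ∈ L.lattice
      · have h1 := A4_Rem_per (A4_at_a ha h2a) (neg_mem c2)
        have e1 : a + -(a - z₀) = z₀ := by ring
        rwa [e1] at h1
      · exact ⟨A4_D L a, A4_D_analytic ha c0 c1 c2, Filter.Eventually.of_forall fun z => rfl⟩

/-- The half period case. -/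
theorem A4_half {a : ℂ} (h2a : 2 * a ∈ L.lattice) (w : ℂ) : T2 L a w = 0 := by
  have h1 : T2 L a w = -T2 L a w := by
    conv_lhs => unfold T2
    rw [← (Equiv.subLeft (-(⟨2 * a, h2a⟩ : L.lattice))).tsum_eq (tT L a w)]
    unfold T2
    rw [← tsum_neg]
    refine tsum_congr fun x => ?_
    show tT L a w (-(⟨2 * a, h2a⟩ : L.lattice) - x) = -tT L a w x
    unfold tT
    have e0 : ((-(⟨2 * a, h2a⟩ : L.lattice) - x : L.lattice) : ℂ) = -(2 * a) - x := rfl
    rw [e0]
    have e1 : a + w + (-(2 * a) - (x : ℂ)) = -(a - w + x) := by ring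
    have e2 : a - w + (-(2 * a) - (x : ℂ)) = -(a + w + x) := by ring
    have e3 : a + (-(2 * a) - (x : ℂ)) = -(a + x) := by ring
    rw [e1, e2, e3, inv_neg, inv_neg, inv_neg]
    ring
  have h2 : 2 * T2 L a w = 0 := by linear_combination h1
  rcases mul_eq_zero.1 h2 with h | h
  · norm_num at h
  · exact h

theorem A4_wpd_half {a : ℂ} (h2a : 2 * a ∈ L.lattice) : L.derivWeierstrassP a = 0 := by
  have h3 := L.derivWeierstrassP_add_coe (-a) ⟨2 * a, h2a⟩
  rw [L.derivWeierstrassP_neg] at h3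
  have h4 : -a + ((⟨2 * a, h2a⟩ : L.lattice) : ℂ) = a := by
    show -a + 2 * a = a
    ring
  rw [h4] at h3
  have h7 : 2 * L.derivWeierstrassP a = 0 := by linear_combination h3
  rcases mul_eq_zero.1 h7 with h | h
  · norm_num at h
  · exact h

variable (L)

theorem T_formula (a w : ℂ) (ha : a ∉ L.lattice) (hw : w ∉ L.lattice) (h1 : a + w ∉ L.lattice)
    (h2 : a - w ∉ L.lattice) :
    T2 L a w * (L.weierstrassP a - L.weierstrassP w) = L.derivWeierstrassP a := by
  by_cases h2a : 2 * a ∈ L.lattice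
  · rw [A4_half h2a, A4_wpd_half h2a, zero_mul]
  · obtain ⟨c, hc⟩ := liouville L (A4_D L a) (A4_D_per L a) (A4_all ha h2a)
    obtain ⟨b, hb, hb0, h⟩ := A4_at_zero ha
    have e1 := hc 0 b hb.continuousAt h
    have e2 : A4_D L a w = c := hc w (A4_D L a) (A4_D_analytic ha hw h1 h2).continuousAt
      (Filter.Eventually.of_forall fun z => rfl)
    show A4_D L a w = L.derivWeierstrassP a
    rw [e2, ← e1, hb0]

/-- T2 has a pole at w = a if 2a is not in the lattice. -/
theorem T2_pole (a : ℂ) (ha : a ∉ L.lattice) (h2a : 2 * a ∉ L.lattice) :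
    ∀ᶠ w in nhdsWithin a {a}ᶜ, T2 L a w ≠ 0 := by
  have ha0 : a ≠ 0 := by
    rintro rfl
    exact ha (zero_mem _)
  have hU : a ∈ A4_U L a 0 := by
    constructor
    · intro h
      apply h.2
      rw [sub_self]
      rfl
    · intro h
      apply h2a
      have := neg_mem h.1
      have e1 : -(-a - a) = 2 * a := by ring
      rwa [e1] at this
  have a1 := A4_analytic ha 0 a hU
  have a4 : ContinuousAt (fun w : ℂ => w ^ 2 * ((a ^ 2 - w ^ 2) * A4_Rex L a 0 w + 2 / a)) a := by
    have := a1.continuousAt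
    fun_prop
  have hne : (fun w : ℂ => w ^ 2 * ((a ^ 2 - w ^ 2) * A4_Rex L a 0 w + 2 / a)) a ≠ 0 := by
    simp only [sub_self, zero_mul, zero_add]
    exact mul_ne_zero (pow_ne_zero 2 ha0) (div_ne_zero two_ne_zero ha0)
  have hev : ∀ᶠ w in nhdsWithin a {a}ᶜ, w ^ 2 * ((a ^ 2 - w ^ 2) * A4_Rex L a 0 w + 2 / a) ≠ 0 :=
    (a4.eventually_ne hne).filter_mono nhdsWithin_le_nhds
  filter_upwards [hev, A4_ev (L := L) a a, self_mem_nhdsWithin] with w h1 h2 hw
  have hw' : w ≠ a := hw
  have hw1 : a - w ≠ 0 := sub_ne_zero.2 hw'.symm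
  have hw2 : a + w ≠ 0 := by
    intro h
    apply h2.1
    rw [h]
    exact zero_mem _
  have hq : a ^ 2 - w ^ 2 ≠ 0 := by
    have e1 : a ^ 2 - w ^ 2 = (a - w) * (a + w) := by ring
    rw [e1]
    exact mul_ne_zero hw1 hw2
  intro h0
  apply h1
  rw [A4_F_zero ha h2.1 h2.2] at h0
  have e2 : w ^ 2 * ((a ^ 2 - w ^ 2) * A4_Rex L a 0 w + 2 / a) =
      (a ^ 2 - w ^ 2) * (w ^ 2 * (A4_Rex L a 0 w + 2 / ((a ^ 2 - w ^ 2) * a))) := by
    field_simp
  rw [e2, h0, mul_zero]

end H35P
end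

-- from Lib.H35P.A6
section

namespace H35P

variable (L : PeriodPair)

/-! Chunk A6 (M). p = ℘ a, q = ℘ w, p' = ℘' a, q' = ℘' w, δ = p - q. By zeta_exists and T_formula, for all (a, w) in the open set
a, w, a + w, a - w not in the lattice, ℘ a ≠ ℘ w: ζ(a+w) + ζ(a-w) - 2ζ(a) = p'/δ.
Differentiate in a: -℘(a+w) - ℘(a-w) + 2p = (W δ - p'^2)/δ^2 with W = 6p^2 - g₂/2 (wpd_hasDeriv).
Differentiate in w: -℘(a+w) + ℘(a-w) = p' q'/δ^2.
Sum: 2p - 2℘(a+w) = W/δ - p'^2/δ^2 + p'q'/δ^2, and with p'^2 = 4p^3 - g₂p - g₃, q'^2 = 4q^3 - g₂q - g₃ this is add_x.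
add_y: differentiate add_x in w: ℘'(a+w) = (m/2) dm/dw - q', dm/dw = (-(6q^2 - g₂/2) δ + (p' - q') q')/δ^2, and use the
equations again (field_simp, linear_combination). -/

private theorem A6_alg_x (p q p' q' g2 g3 x y : ℂ) (hd : p - q ≠ 0) (hp : p' ^ 2 = 4 * p ^ 3 - g2 * p - g3)
    (hq : q' ^ 2 = 4 * q ^ 3 - g2 * q - g3)
    (h1 : -x + -y - 2 * -p = ((6 * p ^ 2 - g2 / 2) * (p - q) - p' * p') / (p - q) ^ 2)
    (h2 : -x + - -y - 0 = (0 * (p - q) - p' * (0 - q')) / (p - q) ^ 2) :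
    x = ((p' - q') / (p - q)) ^ 2 / 4 - p - q := by
  have e1 : x = p - (((6 * p ^ 2 - g2 / 2) * (p - q) - p' * p') / (p - q) ^ 2
      + (0 * (p - q) - p' * (0 - q')) / (p - q) ^ 2) / 2 := by
    rw [← h1, ← h2]
    ring
  rw [e1]
  field_simp
  linear_combination 4 * hp - 4 * hq

private theorem A6_alg_y (p q p' q' g2 g3 x y m : ℂ) (hd : p - q ≠ 0) (hp : p' ^ 2 = 4 * p ^ 3 - g2 * p - g3)
    (hq : q' ^ 2 = 4 * q ^ 3 - g2 * q - g3) (hm : m = (p' - q') / (p - q))
    (hx : x = m ^ 2 / 4 - p - q)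
    (h1 : y = 2 * m * (((0 - (6 * q ^ 2 - g2 / 2)) * (p - q) - (p' - q') * (0 - q')) / (p - q) ^ 2) / 4 - 0 - q') :
    y = -(q' + m * (x - q)) := by
  have key : (((0 - (6 * q ^ 2 - g2 / 2)) * (p - q) - (p' - q') * (0 - q')) / (p - q) ^ 2) / 2
      + m ^ 2 / 4 - p - 2 * q = 0 := by
    rw [hm]
    field_simp
    linear_combination 4 * hp - 4 * hq
  rw [h1, hx]
  linear_combination m * key

theorem A6_ev (a w : ℂ) (ha : a ∉ L.lattice) (hw : w ∉ L.lattice) (h1 : a + w ∉ L.lattice)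
    (h2 : a - w ∉ L.lattice) (hne : L.weierstrassP a ≠ L.weierstrassP w) :
    (∀ᶠ x in nhds a, x ∉ L.lattice ∧ x + w ∉ L.lattice ∧ x - w ∉ L.lattice ∧
      L.weierstrassP x ≠ L.weierstrassP w) ∧
    ∀ᶠ y in nhds w, y ∉ L.lattice ∧ a + y ∉ L.lattice ∧ a - y ∉ L.lattice ∧
      L.weierstrassP a ≠ L.weierstrassP y := by
  have ho := compl_open L
  have hev : ∀ (f : ℂ → ℂ) (c : ℂ), Continuous f → f c ∉ L.lattice → ∀ᶠ x in nhds c, f x ∉ L.lattice := by
    intro f c hf hc
    exact hf.continuousAt.eventually (ho.mem_nhds hc)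
  constructor
  · have i4 : ∀ᶠ x in nhds a, L.weierstrassP x ≠ L.weierstrassP w :=
      (wp_analytic L a ha).continuousAt.eventually_ne hne
    filter_upwards [hev id a continuous_id ha, hev (fun x => x + w) a (by fun_prop) h1,
      hev (fun x => x - w) a (by fun_prop) h2, i4] with x j1 j2 j3 j4
    exact ⟨j1, j2, j3, j4⟩
  · have i4 : ∀ᶠ x in nhds w, L.weierstrassP x ≠ L.weierstrassP a :=
      (wp_analytic L w hw).continuousAt.eventually_ne hne.symm
    filter_upwards [hev id w continuous_id hw, hev (fun x => a + x) w (by fun_prop) h1,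
      hev (fun x => a - x) w (by fun_prop) h2, i4] with x j1 j2 j3 j4
    exact ⟨j1, j2, j3, j4.symm⟩

theorem add_x (a w : ℂ) (ha : a ∉ L.lattice) (hw : w ∉ L.lattice) (h1 : a + w ∉ L.lattice)
    (h2 : a - w ∉ L.lattice) (hne : L.weierstrassP a ≠ L.weierstrassP w) :
    L.weierstrassP (a + w) = (mc L a w) ^ 2 / 4 - L.weierstrassP a - L.weierstrassP w := by
  obtain ⟨ζ, hζ, hsum⟩ := zeta_exists L
  have hd : L.weierstrassP a - L.weierstrassP w ≠ 0 := sub_ne_zero.2 hne
  have key : ∀ x y : ℂ, x ∉ L.lattice → y ∉ L.lattice → x + y ∉ L.lattice → x - y ∉ L.lattice →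
      L.weierstrassP x ≠ L.weierstrassP y →
      L.derivWeierstrassP x / (L.weierstrassP x - L.weierstrassP y) = ζ (x + y) + ζ (x - y) - 2 * ζ x := by
    intro x y hx hy hxy hxy' hn
    rw [← (hsum x y).tsum_eq, div_eq_iff (sub_ne_zero.2 hn)]
    exact (T_formula L x y hx hy hxy hxy').symm
  obtain ⟨eva, evw⟩ := A6_ev L a w ha hw h1 h2 hne
  have da : HasDerivAt (fun x => ζ (x + w) + ζ (x - w) - 2 * ζ x)
      (-L.weierstrassP (a + w) + -L.weierstrassP (a - w) - 2 * -L.weierstrassP a) a :=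
    (((hζ _ h1).comp_add_const a w).add ((hζ _ h2).comp_sub_const a w)).sub ((hζ a ha).const_mul 2)
  have da' := (wpd_hasDeriv L a ha).div ((wp_hasDeriv L a ha).sub_const (L.weierstrassP w)) hd
  have e1 := da'.unique (da.congr_of_eventuallyEq (by
    filter_upwards [eva] with x hx
    exact key x w hx.1 hw hx.2.1 hx.2.2.1 hx.2.2.2))
  have dw : HasDerivAt (fun y => ζ (a + y) + ζ (a - y) - 2 * ζ a)
      (-L.weierstrassP (a + w) + - -L.weierstrassP (a - w) - 0) w :=
    (((hζ _ h1).comp_const_add a w).add ((hζ _ h2).comp_const_sub a w)).sub (hasDerivAt_const w _)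
  have dw' := (hasDerivAt_const w (L.derivWeierstrassP a)).div
    ((hasDerivAt_const w (L.weierstrassP a)).sub (wp_hasDeriv L w hw)) hd
  have e2 := dw'.unique (dw.congr_of_eventuallyEq (by
    filter_upwards [evw] with x hx
    exact key a x ha hx.1 hx.2.1 hx.2.2.1 hx.2.2.2))
  exact A6_alg_x _ _ _ _ L.g₂ L.g₃ _ _ hd (L.derivWeierstrassP_sq a ha) (L.derivWeierstrassP_sq w hw) e1.symm e2.symm

theorem add_y (a w : ℂ) (ha : a ∉ L.lattice) (hw : w ∉ L.lattice) (h1 : a + w ∉ L.lattice)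
    (h2 : a - w ∉ L.lattice) (hne : L.weierstrassP a ≠ L.weierstrassP w) :
    L.derivWeierstrassP (a + w) =
      -(L.derivWeierstrassP w + mc L a w * (L.weierstrassP (a + w) - L.weierstrassP w)) := by
  have hd : L.weierstrassP a - L.weierstrassP w ≠ 0 := sub_ne_zero.2 hne
  obtain ⟨-, evw⟩ := A6_ev L a w ha hw h1 h2 hne
  have dl : HasDerivAt (fun y => L.weierstrassP (a + y)) (L.derivWeierstrassP (a + w)) w :=
    (wp_hasDeriv L _ h1).comp_const_add a w
  have dm : HasDerivAt (fun y => mc L a y) _ w :=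
    ((hasDerivAt_const w (L.derivWeierstrassP a)).sub (wpd_hasDeriv L w hw)).div
      ((hasDerivAt_const w (L.weierstrassP a)).sub (wp_hasDeriv L w hw)) hd
  have dr := (((dm.pow 2).div_const 4).sub (hasDerivAt_const w (L.weierstrassP a))).sub (wp_hasDeriv L w hw)
  have e := dl.unique (dr.congr_of_eventuallyEq (by
    filter_upwards [evw] with x hx
    exact add_x L a x ha hx.1 hx.2.1 hx.2.2.1 hx.2.2.2))
  refine A6_alg_y _ _ _ _ L.g₂ L.g₃ _ _ _ hd (L.derivWeierstrassP_sq a ha) (L.derivWeierstrassP_sq w hw) rfl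
    (add_x L a w ha hw h1 h2 hne) ?_
  rw [e]
  simp only [Nat.cast_ofNat, Nat.add_one_sub_one, pow_one]
  rfl

end H35P
end

-- from Lib.H35P.A7
section

namespace H35P

variable (L : PeriodPair)

/-- A punctured neighbourhood condition through an injective map. -/
private theorem A7_ev (f : ℂ → ℂ) (z₀ : ℂ) (hf : ContinuousAt f z₀) (hinj : Function.Injective f) :
    ∀ᶠ u in nhdsWithin z₀ {z₀}ᶜ, f u ∉ L.lattice :=
  (tendsto_punct f z₀ hf hinj).eventually (ev_compl L (f z₀))

private theorem A7_ne0 : ∀ᶠ z in nhdsWithin (0 : ℂ) {0}ᶜ, L.weierstrassP z ≠ 0 := by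
  obtain ⟨u, hu, hu0, hwp⟩ := wp_zero L
  have hid : Filter.Tendsto (fun z : ℂ => z) (nhdsWithin (0 : ℂ) {0}ᶜ) (nhds 0) :=
    tendsto_nhdsWithin_of_tendsto_nhds Filter.tendsto_id
  have hut : Filter.Tendsto u (nhdsWithin (0 : ℂ) {0}ᶜ) (nhds 0) := by
    have := hu.continuousAt.tendsto
    rw [hu0] at this
    exact this.comp hid
  have h2 : Filter.Tendsto (fun z : ℂ => 1 + z ^ 2 * u z) (nhdsWithin (0 : ℂ) {0}ᶜ) (nhds 1) := by
    have := ((hid.pow 2).mul hut).const_add 1
    simpa using this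
  filter_upwards [h2.eventually_ne one_ne_zero, self_mem_nhdsWithin] with z h3 h4 h5
  have hz0 : z ≠ 0 := h4
  apply h3
  have h6 := hwp z hz0
  rw [h5] at h6
  have h7 : z ^ 2 * (z ^ 2)⁻¹ = 1 := mul_inv_cancel₀ (pow_ne_zero 2 hz0)
  linear_combination (-(z ^ 2)) * h6 - h7

/-! Chunk A7 (M). wpd_ne: if ℘'(a) = 0 then T2 L a w (℘ a - ℘ w) = 0 for w near a (T_formula); ℘ w ≠ ℘ a near a (wp_nonconst), so T2 L a w = 0
near a: contradiction with T2_pole.
wp_ne: suppose ℘ a = ℘ w. By T_formula (both orders) ℘'(a) = 0 = ℘'(w). For u near -w, u ≠ -w: ℘ u ≠ ℘(-w) = ℘ w = ℘ a, and u, a ± u, w ± u not in the lattice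
(ev_compl, tendsto_punct; near -w the point a + u is near a - w which is not in the lattice, w + u ≠ 0 is small; a - u is near a + w; w - u is near 2w, use ev_compl). By add_x:
℘(a+u) = ℘'(u)^2/(4(℘ a - ℘ u)^2) - ℘ a - ℘ u = ℘(w+u). Let u → -w: the left side tends to ℘(a-w), the right side has inverse tending to 0
(wp_inv_tendsto) and so ℘(w+u) is unbounded: contradiction. -/

theorem wpd_ne (a : ℂ) (ha : a ∉ L.lattice) (h2 : 2 * a ∉ L.lattice) : L.derivWeierstrassP a ≠ 0 := by
  intro h0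
  have hopen := compl_open L
  have hnc := wp_nonconst L a ha (L.weierstrassP a)
  have hpole := T2_pole L a ha h2
  have e1 : ∀ᶠ w in nhdsWithin a {a}ᶜ, w ∉ L.lattice := nhdsWithin_le_nhds (hopen.mem_nhds ha)
  have e2 : ∀ᶠ w in nhdsWithin a {a}ᶜ, a + w ∉ L.lattice :=
    A7_ev L (fun w => a + w) a (by fun_prop) (add_right_injective a)
  have e3 : ∀ᶠ w in nhdsWithin a {a}ᶜ, a - w ∉ L.lattice :=
    A7_ev L (fun w => a - w) a (by fun_prop) (sub_right_injective)
  obtain ⟨w, hw1, hw2, hw3, hw4, hw5⟩ := (hnc.and (hpole.and (e1.and (e2.and e3)))).exists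
  have hT := T_formula L a w ha hw3 hw4 hw5
  rw [h0] at hT
  rcases mul_eq_zero.1 hT with h | h
  · exact hw2 h
  · exact hw1 (sub_eq_zero.1 h).symm

theorem wp_ne (a w : ℂ) (ha : a ∉ L.lattice) (hw : w ∉ L.lattice) (h1 : a + w ∉ L.lattice)
    (h2 : a - w ∉ L.lattice) : L.weierstrassP a ≠ L.weierstrassP w := by
  intro heq
  have hopen := compl_open L
  have h1' : w + a ∉ L.lattice := by rwa [add_comm]
  have h2' : w - a ∉ L.lattice := fun h => h2 (by simpa using L.lattice.neg_mem h)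
  have hpa : L.derivWeierstrassP a = 0 := by
    rw [← T_formula L a w ha hw h1 h2, heq, sub_self, mul_zero]
  have hpw : L.derivWeierstrassP w = 0 := by
    rw [← T_formula L w a hw ha h1' h2', heq, sub_self, mul_zero]
  have hnw : -w ∉ L.lattice := fun h => hw (by simpa using L.lattice.neg_mem h)
  have e1 : ∀ᶠ u in nhdsWithin (-w) {-w}ᶜ, u ∉ L.lattice := nhdsWithin_le_nhds (hopen.mem_nhds hnw)
  have e2 : ∀ᶠ u in nhdsWithin (-w) {-w}ᶜ, a + u ∉ L.lattice :=
    A7_ev L (fun u => a + u) (-w) (by fun_prop) (add_right_injective a)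
  have e3 : ∀ᶠ u in nhdsWithin (-w) {-w}ᶜ, a - u ∉ L.lattice :=
    A7_ev L (fun u => a - u) (-w) (by fun_prop) (sub_right_injective)
  have e4 : ∀ᶠ u in nhdsWithin (-w) {-w}ᶜ, w + u ∉ L.lattice :=
    A7_ev L (fun u => w + u) (-w) (by fun_prop) (add_right_injective w)
  have e5 : ∀ᶠ u in nhdsWithin (-w) {-w}ᶜ, w - u ∉ L.lattice :=
    A7_ev L (fun u => w - u) (-w) (by fun_prop) (sub_right_injective)
  have e6 := wp_nonconst L (-w) hnw (L.weierstrassP w)
  have htp : Filter.Tendsto (fun u => w + u) (nhdsWithin (-w) {-w}ᶜ) (nhdsWithin (0 : ℂ) {0}ᶜ) := by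
    have := tendsto_punct (fun u => w + u) (-w) (by fun_prop) (add_right_injective w)
    simpa using this
  have e7 : ∀ᶠ u in nhdsWithin (-w) {-w}ᶜ, L.weierstrassP (w + u) ≠ 0 := htp.eventually (A7_ne0 L)
  have hev : ∀ᶠ u in nhdsWithin (-w) {-w}ᶜ, L.weierstrassP (a + u) * (L.weierstrassP (w + u))⁻¹ = 1 := by
    filter_upwards [e1, e2, e3, e4, e5, e6, e7] with u u1 u2 u3 u4 u5 u6 u7
    have hx1 := add_x L a u ha u1 u2 u3 (by rw [heq]; exact fun h => u6 h.symm)
    have hx2 := add_x L w u hw u1 u4 u5 (fun h => u6 h.symm)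
    have hmc : mc L a u = mc L w u := by
      unfold mc
      rw [hpa, hpw, heq]
    rw [hx1, hmc, heq, ← hx2, mul_inv_cancel₀ u7]
  have hlim1 : Filter.Tendsto (fun u => L.weierstrassP (a + u)) (nhdsWithin (-w) {-w}ᶜ) (nhds (L.weierstrassP (a - w))) := by
    have hc : ContinuousAt (fun u => L.weierstrassP (a + u)) (-w) := by
      have h5 : ContinuousAt L.weierstrassP (a + -w) := (wp_analytic L (a + -w) (by rwa [← sub_eq_add_neg])).continuousAt
      exact ContinuousAt.comp (f := fun u => a + u) h5 (by fun_prop)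
    have := hc.tendsto.mono_left (nhdsWithin_le_nhds (s := {-w}ᶜ))
    simpa [← sub_eq_add_neg] using this
  have hlim2 := hlim1.mul ((wp_inv_tendsto L).comp htp)
  rw [mul_zero] at hlim2
  have hlim3 : Filter.Tendsto (fun u => L.weierstrassP (a + u) * (L.weierstrassP (w + u))⁻¹)
      (nhdsWithin (-w) {-w}ᶜ) (nhds 1) := (Filter.tendsto_congr' hev).2 tendsto_const_nhds
  exact zero_ne_one (tendsto_nhds_unique hlim2 hlim3)

end H35P
end

-- from Lib.H35P.A8
section

namespace H35P

variable (L : PeriodPair)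

/-! Chunk A8 (M). mc_tendsto: (℘'a - ℘'w)/(℘a - ℘w) = slope of ℘' / slope of ℘, both slopes converge (hasDerivAt_iff_tendsto_slope; wp_hasDeriv, wpd_hasDeriv),
wpd_ne. dbl_x, dbl_y: let w → a in add_x, add_y (valid for w near a, w ≠ a, by ev_compl, tendsto_punct and wp_ne), by continuity of ℘, ℘' at
2a and a. -/

open Filter Topology in
theorem mc_tendsto (a : ℂ) (ha : a ∉ L.lattice) (h2 : 2 * a ∉ L.lattice) :
    Filter.Tendsto (fun w => mc L a w) (nhdsWithin a {a}ᶜ) (nhds (md L a)) := by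
  have t1 := hasDerivAt_iff_tendsto_slope.1 (wpd_hasDeriv L a ha)
  have t2 := hasDerivAt_iff_tendsto_slope.1 (wp_hasDeriv L a ha)
  have t3 := t1.div t2 (wpd_ne L a ha h2)
  refine t3.congr' ?_
  filter_upwards [self_mem_nhdsWithin] with w hw
  have hw' : w - a ≠ 0 := sub_ne_zero.2 hw
  simp only [Pi.div_apply]
  rw [slope_def_field, slope_def_field, div_div_div_cancel_right₀ hw', mc, ← neg_sub,
    ← neg_sub (L.weierstrassP a), neg_div_neg_eq]

/-- The three conditions of the addition formulas hold near `a`. -/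
theorem a8_ev (a : ℂ) (ha : a ∉ L.lattice) (h2 : 2 * a ∉ L.lattice) :
    ∀ᶠ w in nhdsWithin a {a}ᶜ, w ∉ L.lattice ∧ a + w ∉ L.lattice ∧ a - w ∉ L.lattice := by
  have h1 : ∀ᶠ w in nhdsWithin a {a}ᶜ, w ∉ L.lattice := ev_compl L a
  have h3 : ∀ᶠ w in nhdsWithin a {a}ᶜ, a + w ∉ L.lattice := by
    have hc : ContinuousAt (fun w : ℂ => a + w) a := by fun_prop
    have := hc.eventually_mem ((compl_open L).mem_nhds (show a + a ∈ _ by
      change a + a ∉ L.lattice
      rw [← two_mul]
      exact h2))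
    exact this.filter_mono nhdsWithin_le_nhds
  have h4 : ∀ᶠ w in nhdsWithin a {a}ᶜ, a - w ∉ L.lattice := by
    have ht := tendsto_punct (fun w : ℂ => a - w) a (by fun_prop) (fun x y h => by
      simpa using h)
    exact ht.eventually (ev_compl L (a - a))
  filter_upwards [h1, h3, h4] with w q1 q2 q3
  exact ⟨q1, q2, q3⟩

open Filter Topology in
theorem a8_cont (f : ℂ → ℂ) (a : ℂ) (hf : ContinuousAt f (2 * a)) :
    Filter.Tendsto (fun w => f (a + w)) (nhdsWithin a {a}ᶜ) (nhds (f (2 * a))) := by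
  have h1 : ContinuousAt (fun w : ℂ => f (a + w)) a := by
    refine ContinuousAt.comp (g := f) (f := fun w : ℂ => a + w) ?_ (by fun_prop)
    rw [← two_mul]
    exact hf
  have h2 : Filter.Tendsto (fun w => f (a + w)) (nhdsWithin a {a}ᶜ) (nhds (f (a + a))) :=
    h1.tendsto.mono_left nhdsWithin_le_nhds
  rwa [← two_mul] at h2

theorem dbl_x (a : ℂ) (ha : a ∉ L.lattice) (h2 : 2 * a ∉ L.lattice) :
    L.weierstrassP (2 * a) = (md L a) ^ 2 / 4 - L.weierstrassP a - L.weierstrassP a := by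
  have t1 := a8_cont L.weierstrassP a (wp_analytic L _ h2).continuousAt
  have t2 : Filter.Tendsto L.weierstrassP (nhdsWithin a {a}ᶜ) (nhds (L.weierstrassP a)) :=
    (wp_analytic L _ ha).continuousAt.tendsto.mono_left nhdsWithin_le_nhds
  have t3 := (((mc_tendsto L a ha h2).pow 2).div_const 4).sub_const (L.weierstrassP a)
  refine tendsto_nhds_unique_of_eventuallyEq t1 (t3.sub t2) ?_
  filter_upwards [a8_ev L a ha h2] with w hw
  exact add_x L a w ha hw.1 hw.2.1 hw.2.2 (wp_ne L a w ha hw.1 hw.2.1 hw.2.2)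

theorem dbl_y (a : ℂ) (ha : a ∉ L.lattice) (h2 : 2 * a ∉ L.lattice) :
    L.derivWeierstrassP (2 * a) =
      -(L.derivWeierstrassP a + md L a * (L.weierstrassP (2 * a) - L.weierstrassP a)) := by
  have t1 := a8_cont L.derivWeierstrassP a (wpd_analytic L _ h2).continuousAt
  have t0 := a8_cont L.weierstrassP a (wp_analytic L _ h2).continuousAt
  have t2 : Filter.Tendsto L.weierstrassP (nhdsWithin a {a}ᶜ) (nhds (L.weierstrassP a)) :=
    (wp_analytic L _ ha).continuousAt.tendsto.mono_left nhdsWithin_le_nhds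
  have t3 : Filter.Tendsto L.derivWeierstrassP (nhdsWithin a {a}ᶜ) (nhds (L.derivWeierstrassP a)) :=
    (wpd_analytic L _ ha).continuousAt.tendsto.mono_left nhdsWithin_le_nhds
  have t4 := (t3.add ((mc_tendsto L a ha h2).mul (t0.sub t2))).neg
  refine tendsto_nhds_unique_of_eventuallyEq t1 t4 ?_
  filter_upwards [a8_ev L a ha h2] with w hw
  exact add_y L a w ha hw.1 hw.2.1 hw.2.2 (wp_ne L a w ha hw.1 hw.2.1 hw.2.2)

end H35P
end

-- from Lib.H35P.B1
section

open WeierstrassCurve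

namespace H35P

variable (L : PeriodPair)

/-- The curve y^2 = x^3 + A x + B. -/
def WAB {k : Type} [Field k] (A B : k) : WeierstrassCurve k := ⟨0, 0, 0, A, B⟩

private theorem B1_addX {k : Type} [Field k] (A B x₁ x₂ l : k) : (WAB A B).toAffine.addX x₁ x₂ l = l ^ 2 - x₁ - x₂ := by
  unfold Affine.addX WAB
  ring

private theorem B1_negY {k : Type} [Field k] (A B x y : k) : (WAB A B).toAffine.negY x y = -y := by
  unfold Affine.negY WAB
  ring

private theorem B1_addY {k : Type} [Field k] (A B x₁ x₂ y₁ l : k) : (WAB A B).toAffine.addY x₁ x₂ y₁ l =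
    -(l * (l ^ 2 - x₁ - x₂ - x₁) + y₁) := by
  unfold Affine.addY Affine.negAddY
  rw [B1_negY, B1_addX]

private theorem B1_delta {k : Type} [Field k] (A B : k) : (WAB A B).Δ = -16 * (4 * A ^ 3 + 27 * B ^ 2) := by
  unfold WeierstrassCurve.Δ WeierstrassCurve.b₂ WeierstrassCurve.b₄ WeierstrassCurve.b₆ WeierstrassCurve.b₈ WAB
  ring

/-! Chunk B1 (M). eq_pt: derivWeierstrassP_sq. nonsing_pt: WAB has Δ = -16 (4A^3 + 27B^2) ≠ 0, Affine.equation_iff_nonsingular (IsElliptic).
slope_pt: x = ℘/Om^2, y = ℘'/(2 Om^3). Chord: slope = (mc/2)/Om. Tangent: (3x^2 + A)/(2y) = (md/2)/Om with g₂ = -4 A Om^4.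
pt_exists: pt z = if z in the lattice then 0 else some (..). Additivity: cases a in L, w in L (periodicity, weierstrassP_add_coe), a + w in L (then w = -a + l and
pt w = -pt a), a - w in L (w = a + l: doubling, dbl_x, dbl_y, 2a ∉ L), otherwise add_x, add_y, wp_ne. Affine.Point.add_some, addX, addY, negY. -/

theorem eq_pt (A B Om : ℂ) (hO : Om ≠ 0) (g2 : L.g₂ = -4 * A * Om ^ 4) (g3 : L.g₃ = -4 * B * Om ^ 6) (z : ℂ)
    (hz : z ∉ L.lattice) : (WAB A B).toAffine.Equation (L.weierstrassP z / Om ^ 2) (L.derivWeierstrassP z / (2 * Om ^ 3)) := by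
  rw [Affine.equation_iff]
  have h := L.derivWeierstrassP_sq z hz
  rw [g2, g3] at h
  have e : (L.derivWeierstrassP z / (2 * Om ^ 3)) ^ 2 = (L.derivWeierstrassP z) ^ 2 / (4 * Om ^ 6) := by
    rw [div_pow]
    ring
  simp only [WAB]
  rw [e, h]
  field_simp
  ring

theorem slope_chord (A B Om : ℂ) (hO : Om ≠ 0) (a w : ℂ)
    (hne : L.weierstrassP a ≠ L.weierstrassP w) :
    (WAB A B).toAffine.slope (L.weierstrassP a / Om ^ 2) (L.weierstrassP w / Om ^ 2)
      (L.derivWeierstrassP a / (2 * Om ^ 3)) (L.derivWeierstrassP w / (2 * Om ^ 3)) = mc L a w / 2 / Om := by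
  have hx : L.weierstrassP a / Om ^ 2 ≠ L.weierstrassP w / Om ^ 2 := by
    intro h
    rw [div_left_inj' (pow_ne_zero 2 hO)] at h
    exact hne h
  rw [Affine.slope_of_X_ne hx]
  have h0 : L.weierstrassP a - L.weierstrassP w ≠ 0 := sub_ne_zero.2 hne
  unfold mc
  rw [← sub_div, ← sub_div]
  field_simp

theorem slope_tangent (A B Om : ℂ) (hO : Om ≠ 0) (g2 : L.g₂ = -4 * A * Om ^ 4) (a : ℂ)
    (hne : L.derivWeierstrassP a ≠ 0) :
    (WAB A B).toAffine.slope (L.weierstrassP a / Om ^ 2) (L.weierstrassP a / Om ^ 2)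
      (L.derivWeierstrassP a / (2 * Om ^ 3)) (L.derivWeierstrassP a / (2 * Om ^ 3)) = md L a / 2 / Om := by
  have hy : L.derivWeierstrassP a / (2 * Om ^ 3) ≠
      (WAB A B).toAffine.negY (L.weierstrassP a / Om ^ 2) (L.derivWeierstrassP a / (2 * Om ^ 3)) := by
    rw [B1_negY]
    intro h
    have h2 : L.derivWeierstrassP a / (2 * Om ^ 3) = 0 := by linear_combination h / 2
    rw [div_eq_zero_iff] at h2
    rcases h2 with h2 | h2
    · exact hne h2
    · exact mul_ne_zero two_ne_zero (pow_ne_zero 3 hO) h2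
  rw [Affine.slope_of_Y_ne rfl hy, B1_negY]
  unfold md
  rw [g2]
  simp only [WAB]
  field_simp
  ring

/-- The Weierstrass uniformisation. -/
theorem pt_exists (A B Om : ℂ) (hO : Om ≠ 0) (g2 : L.g₂ = -4 * A * Om ^ 4) (g3 : L.g₃ = -4 * B * Om ^ 6)
    (hd : 4 * A ^ 3 + 27 * B ^ 2 ≠ 0) : ∃ pt : ℂ →+ (WAB A B).toAffine.Point,
      (∀ z ∈ L.lattice, pt z = 0) ∧
      ∀ z ∉ L.lattice, ∃ h, pt z = .some (L.weierstrassP z / Om ^ 2) (L.derivWeierstrassP z / (2 * Om ^ 3)) h := by
  classical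
  have hΔ : (WAB A B).Δ ≠ 0 := by
    rw [B1_delta]
    exact mul_ne_zero (by norm_num) hd
  have hns : ∀ z, z ∉ L.lattice → (WAB A B).toAffine.Nonsingular (L.weierstrassP z / Om ^ 2)
      (L.derivWeierstrassP z / (2 * Om ^ 3)) := fun z hz =>
    (Affine.equation_iff_nonsingular_of_Δ_ne_zero (W := (WAB A B).toAffine) hΔ).1 (eq_pt L A B Om hO g2 g3 z hz)
  set pt : ℂ → (WAB A B).toAffine.Point := fun z => if h : z ∈ L.lattice then 0 else
    .some (L.weierstrassP z / Om ^ 2) (L.derivWeierstrassP z / (2 * Om ^ 3)) (hns z h) with hpt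
  have p0 : ∀ z, z ∈ L.lattice → pt z = 0 := fun z hz => by
    simp only [hpt, dif_pos hz]
  have p1 : ∀ z (hz : z ∉ L.lattice), pt z = .some (L.weierstrassP z / Om ^ 2) (L.derivWeierstrassP z / (2 * Om ^ 3)) (hns z hz) :=
    fun z hz => by simp only [hpt, dif_neg hz]
  have hper : ∀ z l, l ∈ L.lattice → pt (z + l) = pt z := by
    intro z l hl
    by_cases hz : z ∈ L.lattice
    · rw [p0 z hz, p0 _ (L.lattice.add_mem hz hl)]
    · have hzl : z + l ∉ L.lattice := fun h => hz (by simpa using L.lattice.sub_mem h hl)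
      rw [p1 z hz, p1 _ hzl, Affine.Point.some.injEq]
      have e1 := L.weierstrassP_add_coe z ⟨l, hl⟩
      have e2 := L.derivWeierstrassP_add_coe z ⟨l, hl⟩
      exact ⟨by rw [e1], by rw [e2]⟩
  have hadd : ∀ a w, pt (a + w) = pt a + pt w := by
    intro a w
    by_cases ha : a ∈ L.lattice
    · rw [p0 a ha, zero_add, add_comm, hper w a ha]
    by_cases hw : w ∈ L.lattice
    · rw [p0 w hw, add_zero, hper a w hw]
    by_cases h1 : a + w ∈ L.lattice
    · rw [p0 _ h1, p1 a ha, p1 w hw]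
      have e1 : L.weierstrassP w = L.weierstrassP a := by
        have := L.weierstrassP_add_coe (-a) ⟨a + w, h1⟩
        rw [L.weierstrassP_neg] at this
        rw [← this]
        congr 1
        simp
      have e2 : L.derivWeierstrassP w = -L.derivWeierstrassP a := by
        have := L.derivWeierstrassP_add_coe (-a) ⟨a + w, h1⟩
        rw [L.derivWeierstrassP_neg] at this
        rw [← this]
        congr 1
        simp
      refine (Affine.Point.add_of_Y_eq ?_ ?_).symm
      · rw [e1]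
      · rw [B1_negY, e2]
        ring
    by_cases h2 : a - w ∈ L.lattice
    · -- doubling
      have hwa : w = a + -(a - w) := by ring
      have hpw : pt w = pt a := by
        rw [hwa]
        exact hper a _ (L.lattice.neg_mem h2)
      have haw : pt (a + w) = pt (2 * a) := by
        have : a + w = 2 * a + -(a - w) := by ring
        rw [this]
        exact hper _ _ (L.lattice.neg_mem h2)
      have h2a : 2 * a ∉ L.lattice := by
        intro h
        apply h1
        have : a + w = 2 * a - (a - w) := by ring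
        rw [this]
        exact L.lattice.sub_mem h h2
      have hne := wpd_ne L a ha h2a
      rw [hpw, haw, p1 _ h2a, p1 a ha]
      have hxy : ¬(L.weierstrassP a / Om ^ 2 = L.weierstrassP a / Om ^ 2 ∧ L.derivWeierstrassP a / (2 * Om ^ 3) =
          (WAB A B).toAffine.negY (L.weierstrassP a / Om ^ 2) (L.derivWeierstrassP a / (2 * Om ^ 3))) := by
        rintro ⟨-, h⟩
        rw [B1_negY] at h
        have h2 : L.derivWeierstrassP a / (2 * Om ^ 3) = 0 := by linear_combination h / 2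
        rw [div_eq_zero_iff] at h2
        rcases h2 with h2 | h2
        · exact hne h2
        · exact mul_ne_zero two_ne_zero (pow_ne_zero 3 hO) h2
      rw [Affine.Point.add_some hxy, Affine.Point.some.injEq, slope_tangent L A B Om hO g2 a hne, B1_addX, B1_addY,
        dbl_y L a ha h2a, dbl_x L a ha h2a]
      constructor
      · field_simp
        ring
      · field_simp
        ring
    · have hne := wp_ne L a w ha hw h1 h2
      have hx : L.weierstrassP a / Om ^ 2 ≠ L.weierstrassP w / Om ^ 2 := by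
        intro h
        rw [div_left_inj' (pow_ne_zero 2 hO)] at h
        exact hne h
      have hmc : mc L a w * (L.weierstrassP a - L.weierstrassP w) = L.derivWeierstrassP a - L.derivWeierstrassP w := by
        unfold mc
        exact div_mul_cancel₀ _ (sub_ne_zero.2 hne)
      rw [p1 _ h1, p1 a ha, p1 w hw, Affine.Point.add_some (fun h => hx h.1), Affine.Point.some.injEq,
        slope_chord L A B Om hO a w hne, B1_addX, B1_addY, add_y L a w ha hw h1 h2 hne, add_x L a w ha hw h1 h2 hne]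
      constructor
      · field_simp
        ring
      · have e : L.derivWeierstrassP w = L.derivWeierstrassP a - mc L a w * (L.weierstrassP a - L.weierstrassP w) := by
          rw [hmc]
          ring
        rw [e]
        field_simp
        ring
  refine ⟨⟨⟨pt, p0 0 L.lattice.zero_mem⟩, hadd⟩, p0, fun z hz => ⟨hns z hz, p1 z hz⟩⟩

end H35P
end

-- from Lib.H55B.E2
section

open NumberField IsDedekindDomain

namespace H55B

/-! Chunk E2: the Jacobi sum is minus a power of the primary generator.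
J = J(chi, chi). (i) exists_jacobiSum_eq_neg_one_add with n = 3, mu = om: J = -1 + z (om - 1)^2 and
(om-1)^2 = -3 om, so -J is primary. (ii) J * cj J = q: jacobiSum_mul_jacobiSum_inv in the fraction field F
(char 0), chi^2 = chi^(-1) <> 1, cj J = J(chi^-1, chi^-1). (iii) phi J = sum x^m (1-x)^m = 0, m = (q-1)/3,
since 2m < q - 1 (FiniteField.sum_pow_lt_card_sub_one), so gen v | J. (iv) phi (cj J) =
sum x^(2m)(1-x)^(2m) = -(-1)^m binom(2m, m) (only the power x^(3m) = x^(q-1) contributes).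
Let g0 = gen v, N = Nm g0 = g0 cj g0 = absNorm v, q = N^f, J (cj J) = g0^f (cj g0)^f. If cj g0 is associated
to g0, then J is associated to a power of g0, norms give J ~ g0^f. Otherwise N = p is a rational prime,
p = 1 mod 3 (N <> 3; if N is not prime then v is inert and cj g0 ~ g0), J ~ g0^i (cj g0)^j, i + j = f, and
cj g0 does not divide J: else g0 | cj J, phi(cj J) = 0, so p | binom(2m, m), contradicting E0. So J ~ g0^f.
Both -J and g0^f are primary, so -J = g0^f. -/

theorem E2_sum_pow (k : Type*) [Field k] [Fintype k] {m : ℕ} (hm : Fintype.card k - 1 = 3 * m)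
    (hm0 : 0 < m) (i : ℕ) (hi : i ≤ 4 * m) :
    ∑ x : k, x ^ i = if i = 3 * m then -1 else 0 := by
  classical
  rcases lt_trichotomy i (3 * m) with h | h | h
  · rw [if_neg h.ne, FiniteField.sum_pow_lt_card_sub_one k i (by rw [hm]; exact h)]
  · rw [if_pos h]
    have h1 : ∀ x : k, x ^ i = 1 - (if x = 0 then 1 else 0) := by
      intro x
      by_cases hx : x = 0
      · rw [hx, if_pos rfl, sub_self, zero_pow (by omega)]
      · rw [if_neg hx, sub_zero, h, ← hm, FiniteField.pow_card_sub_one_eq_one x hx]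
    simp only [h1, Finset.sum_sub_distrib, Finset.sum_ite_eq', Finset.mem_univ, if_true,
      Finset.sum_const, Finset.card_univ, nsmul_eq_mul, mul_one, FiniteField.cast_card_eq_zero,
      zero_sub]
  · rw [if_neg h.ne']
    have h1 : ∀ x : k, x ^ i = x ^ (i - 3 * m) := by
      intro x
      by_cases hx : x = 0
      · rw [hx, zero_pow (by omega), zero_pow (by omega)]
      · have h2 : x ^ i = x ^ (3 * m) * x ^ (i - 3 * m) := by
          rw [← pow_add]
          congr 1
          omega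
        rw [h2, ← hm, FiniteField.pow_card_sub_one_eq_one x hx, one_mul]
    simp only [h1]
    exact FiniteField.sum_pow_lt_card_sub_one k _ (by omega)

open Polynomial in
theorem E2_sum_poly (k : Type*) [Field k] [Fintype k] {m : ℕ} (hm : Fintype.card k - 1 = 3 * m)
    (hm0 : 0 < m) (P : k[X]) (hP : P.natDegree ≤ 4 * m) :
    ∑ x : k, P.eval x = - P.coeff (3 * m) := by
  have h1 : ∀ x : k, P.eval x = ∑ i ∈ Finset.range (4 * m + 1), P.coeff i * x ^ i := fun x =>
    Polynomial.eval_eq_sum_range' (by omega) x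
  simp only [h1]
  rw [Finset.sum_comm]
  have h2 : ∀ i ∈ Finset.range (4 * m + 1), ∑ x : k, P.coeff i * x ^ i =
      if i = 3 * m then - P.coeff i else 0 := by
    intro i hi
    rw [← Finset.mul_sum, E2_sum_pow k hm hm0 i (by have := Finset.mem_range.mp hi; omega)]
    split_ifs <;> simp
  rw [Finset.sum_congr rfl h2, Finset.sum_ite_eq' (Finset.range (4 * m + 1)) (3 * m),
    if_pos (by rw [Finset.mem_range]; omega)]

open Polynomial in
theorem E2_sum1 (k : Type*) [Field k] [Fintype k] {m : ℕ} (hm : Fintype.card k - 1 = 3 * m)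
    (hm0 : 0 < m) : ∑ x : k, x ^ m * (1 - x) ^ m = 0 := by
  have hdeg : (X ^ m * (1 - X) ^ m : k[X]).natDegree ≤ 2 * m := by
    have h1 : (1 - X : k[X]).natDegree ≤ 1 :=
      (natDegree_sub_le _ _).trans (by simp)
    refine (natDegree_mul_le).trans ?_
    have h2 := natDegree_pow_le_of_le m h1
    have h3 : (X ^ m : k[X]).natDegree ≤ m := by simp
    omega
  have h := E2_sum_poly k hm hm0 (X ^ m * (1 - X) ^ m) (by omega)
  rw [coeff_eq_zero_of_natDegree_lt (by omega), neg_zero] at h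
  simpa using h

open Polynomial in
theorem E2_sum2 (k : Type*) [Field k] [Fintype k] {m : ℕ} (hm : Fintype.card k - 1 = 3 * m)
    (hm0 : 0 < m) : ∑ x : k, x ^ (2 * m) * (1 - x) ^ (2 * m) =
      - ((-1) ^ m * (Nat.choose (2 * m) m : k)) := by
  have hX : ((1 - X) ^ (2 * m) : k[X]) = (X + C (-1)) ^ (2 * m) := by
    rw [map_neg, map_one, ← sub_eq_add_neg, ← neg_sub, neg_pow, pow_mul, neg_one_sq, one_pow,
      one_mul]
  have hdeg : (X ^ (2 * m) * (1 - X) ^ (2 * m) : k[X]).natDegree ≤ 4 * m := by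
    have h1 : (1 - X : k[X]).natDegree ≤ 1 :=
      (natDegree_sub_le _ _).trans (by simp)
    refine (natDegree_mul_le).trans ?_
    have h2 := natDegree_pow_le_of_le (2 * m) h1
    have h3 : (X ^ (2 * m) : k[X]).natDegree ≤ 2 * m := by simp
    omega
  have h := E2_sum_poly k hm hm0 (X ^ (2 * m) * (1 - X) ^ (2 * m)) (by omega)
  have hc : (X ^ (2 * m) * (1 - X) ^ (2 * m) : k[X]).coeff (3 * m) =
      (-1) ^ m * (Nat.choose (2 * m) m : k) := by
    have h3 : 3 * m = m + 2 * m := by ring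
    rw [hX, h3, coeff_X_pow_mul, coeff_X_add_C_pow]
    congr 2
    omega
  rw [hc] at h
  simpa using h

theorem E2_om_prim : IsPrimitiveRoot om 3 := zeta_spec.toInteger_isPrimitiveRoot

/-- the Jacobi sum is congruent to -1 modulo 3 -/
theorem E2_prim (k : Type*) [Field k] [Fintype k] (χ : MulChar k O) (hχ3 : χ ^ 3 = 1)
    (h3c : 3 ∣ Fintype.card k - 1) : Prim (-jacobiSum χ χ) := by
  classical
  obtain ⟨z, -, hz⟩ := exists_jacobiSum_eq_neg_one_add (n := 3) (by norm_num) hχ3 hχ3 h3c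
    E2_om_prim
  refine ⟨z * om, ?_⟩
  rw [hz]
  linear_combination (-z) * om_rel

/-- the square of the absolute value of the Jacobi sum -/
theorem E2_abs (k : Type*) [Field k] [Fintype k] (χ : MulChar k O) (hχ3 : χ ^ 3 = 1) (hχ : χ ≠ 1)
    (hcj : ∀ x : k, cj (χ x) = χ x ^ 2) :
    jacobiSum χ χ * cj (jacobiSum χ χ) = (Fintype.card k : O) := by
  classical
  have hinv : χ⁻¹ = χ ^ 2 := by
    rw [inv_eq_iff_mul_eq_one, ← pow_succ', hχ3]
  have hcjJ : cj (jacobiSum χ χ) = jacobiSum χ⁻¹ χ⁻¹ := by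
    unfold jacobiSum
    rw [map_sum]
    apply Finset.sum_congr rfl
    intro x _
    rw [map_mul, hcj, hcj, hinv]
    simp [MulChar.pow_apply' χ (two_ne_zero)]
  rw [hcjJ]
  have hinj : Function.Injective (algebraMap O F) := FaithfulSMul.algebraMap_injective O F
  set ψ : MulChar k F := χ.ringHomComp (algebraMap O F) with hψ
  have hψ1 : ψ ≠ 1 := by
    rw [hψ]
    exact (MulChar.ringHomComp_ne_one_iff hinj).mpr hχ
  have hψψ : ψ * ψ ≠ 1 := by
    intro h
    apply hψ1
    have h3 : ψ ^ 3 = 1 := by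
      rw [hψ, MulChar.ringHomComp_pow, hχ3]
      exact MulChar.ringHomComp_one _
    calc ψ = ψ ^ 3 * (ψ * ψ)⁻¹ := by group
      _ = 1 := by rw [h3, h]; simp
  have hchar : ringChar F ≠ ringChar k := by
    rw [ringChar.eq F 0]
    exact (CharP.char_ne_zero_of_finite k (ringChar k)).symm
  have h := jacobiSum_mul_jacobiSum_inv hchar hψ1 hψ1 hψψ
  have hψinv : ψ⁻¹ = (χ⁻¹).ringHomComp (algebraMap O F) := by
    rw [hψ, MulChar.ringHomComp_inv]
  rw [hψinv, hψ, jacobiSum_ringHomComp, jacobiSum_ringHomComp, ← map_mul] at h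
  apply hinj
  rw [h, map_natCast]

theorem E2_Nm_cj (x : O) : Nm (cj x) = Nm x := by
  have h1 := mul_cj x
  have h2 := mul_cj (cj x)
  rw [cj_cj, mul_comm, h1] at h2
  exact_mod_cast h2.symm

theorem neg_jacobi (v : HeightOneSpectrum O) (h3 : (3 : O) ∉ v.asIdeal) (k : Type*) [Field k]
    [Fintype k] (φ : O →+* k) (hker : RingHom.ker φ = v.asIdeal) (f : ℕ) (hf : 0 < f)
    (hq : Fintype.card k = Ideal.absNorm v.asIdeal ^ f) (χ : MulChar k O) (hχ3 : χ ^ 3 = 1) (hχ : χ ≠ 1)
    (h3c : 3 ∣ Fintype.card k - 1)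
    (hφ : ∀ x : k, φ (χ x) = x ^ ((Fintype.card k - 1) / 3)) (hcj : ∀ x : k, cj (χ x) = χ x ^ 2) :
    -jacobiSum χ χ = gen v ^ f := by
  classical
  obtain ⟨m, hm⟩ := h3c
  have hmdiv : (Fintype.card k - 1) / 3 = m := by omega
  rw [hmdiv] at hφ
  have hcard2 : 1 < Fintype.card k := Fintype.one_lt_card
  have hm0 : 0 < m := by omega
  set J := jacobiSum χ χ with hJ
  have hJabs : J * cj J = (Fintype.card k : O) := E2_abs k χ hχ3 hχ hcj
  set g0 := gen v with hg0
  have hg0p : Prime g0 := gen_prime v h3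
  have hN : Ideal.absNorm v.asIdeal = Nm g0 := absNorm_gen v h3
  have hg0N : g0 * cj g0 = (Nm g0 : O) := mul_cj g0
  have hprod : J * cj J = g0 ^ f * cj g0 ^ f := by
    rw [hJabs, hq, hN, ← mul_pow, hg0N]
    push_cast
    rfl
  have hNg1 : 1 < Nm g0 := by
    have h0 : Nm g0 ≠ 0 := fun h => hg0p.ne_zero (Nm_eq_zero.mp h)
    have h1 : Nm g0 ≠ 1 := fun h => hg0p.not_isUnit (Nm_eq_one.mp h)
    omega
  have hNJ : Nm J = Nm g0 ^ f := by
    have h1 : Nm (J * cj J) = Nm (g0 ^ f * cj g0 ^ f) := by rw [hprod]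
    have hpow : ∀ (x : O) (n : ℕ), Nm (x ^ n) = Nm x ^ n := by
      intro x n
      induction n with
      | zero =>
        rw [pow_zero, pow_zero]
        exact Nm_eq_one.mpr isUnit_one
      | succ n ih => rw [pow_succ, Nm_mul, ih, pow_succ]
    rw [Nm_mul, Nm_mul, E2_Nm_cj, hpow, hpow, E2_Nm_cj] at h1
    exact Nat.mul_self_inj.mp h1
  have hNpow : ∀ (x : O) (n : ℕ), Nm (x ^ n) = Nm x ^ n := by
    intro x n
    induction n with
    | zero =>
      rw [pow_zero, pow_zero]
      exact Nm_eq_one.mpr isUnit_one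
    | succ n ih => rw [pow_succ, Nm_mul, ih, pow_succ]
  have hNass : ∀ x y : O, Associated x y → Nm x = Nm y := by
    rintro x y ⟨u, rfl⟩
    rw [Nm_mul, Nm_eq_one.mpr u.isUnit, mul_one]
  -- it suffices that `J` divides a power of `g0`
  suffices hdiv : ∃ n : ℕ, J ∣ g0 ^ n by
    obtain ⟨n, hn⟩ := hdiv
    obtain ⟨i, -, hi⟩ := (dvd_prime_pow hg0p n).mp hn
    have hif : i = f := by
      have h1 := hNass _ _ hi
      rw [hNJ, hNpow] at h1
      exact (Nat.pow_right_injective hNg1 h1).symm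
    rw [hif] at hi
    have hpr : Prim (g0 ^ f) := by
      have hgp : Prim g0 := (gen_spec v h3).2
      clear hf hq hprod hNJ hi hif
      induction f with
      | zero => rw [pow_zero]; exact prim_one
      | succ f ih => rw [pow_succ]; exact ih.mul hgp
    exact Prim.eq_of_associated (E2_prim k χ hχ3 ⟨m, hm⟩) hpr
      ((Associated.neg_left (Associated.refl J)).trans hi)
  by_cases hass : Associated g0 (cj g0)
  · refine ⟨2 * f, ?_⟩
    have h1 : J ∣ g0 ^ f * cj g0 ^ f := ⟨cj J, hprod.symm⟩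
    have h2 : Associated (g0 ^ f * cj g0 ^ f) (g0 ^ (2 * f)) := by
      rw [two_mul, pow_add]
      exact (Associated.refl _).mul_mul (hass.symm.pow_pow)
    exact (h2.dvd_iff_dvd_right).mp h1
  · refine ⟨f, ?_⟩
    have hcp : Prime (cj g0) := by
      exact (MulEquiv.prime_iff (cj : O ≃* O)).mpr hg0p
    have hnd : ¬ cj g0 ∣ J := by
      intro hdvd
      have h1 : g0 ∣ cj J := by
        obtain ⟨y, hy⟩ := hdvd
        refine ⟨cj y, ?_⟩
        rw [hy, map_mul, cj_cj]
      have h2 : φ (cj J) = 0 := by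
        rw [← RingHom.mem_ker, hker, ← gen_dvd_iff v h3]
        exact h1
      have h4 : φ (cj J) = ∑ x : k, x ^ (2 * m) * (1 - x) ^ (2 * m) := by
        rw [hJ]
        unfold jacobiSum
        rw [map_sum, map_sum]
        apply Finset.sum_congr rfl
        intro x _
        rw [map_mul, map_mul, hcj, hcj, map_pow, map_pow, hφ, hφ, ← pow_mul, ← pow_mul, mul_comm m 2]
      rw [h4, E2_sum2 k hm hm0, neg_eq_zero, mul_eq_zero] at h2
      have h5 : ((Nat.choose (2 * m) m : ℕ) : k) = 0 := by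
        rcases h2 with h2 | h2
        · exact absurd h2 (pow_ne_zero _ (by norm_num))
        · exact h2
      -- the characteristic
      set p := ringChar k with hp
      have hpp : p.Prime := CharP.char_is_prime k p
      have hpc : p ∣ Nat.choose (2 * m) m := (ringChar.spec k _).mp h5
      have hgp : g0 ∣ (p : O) := by
        rw [gen_dvd_iff v h3, ← hker, RingHom.mem_ker, map_natCast]
        exact ringChar.Nat.cast_ringChar
      have hNp : Nm (p : O) = p ^ 2 := by
        have h6 := mul_cj (p : O)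
        rw [map_natCast] at h6
        have h7 : ((p * p : ℕ) : O) = ((Nm (p : O) : ℕ) : O) := by
          push_cast
          exact h6
        rw [pow_two]
        exact_mod_cast h7.symm
      have hNg : Nm g0 = p := by
        obtain ⟨h, hh⟩ := hgp
        have h6 : Nm g0 * Nm h = p ^ 2 := by rw [← Nm_mul, ← hh, hNp]
        have h7 : Nm g0 ∣ p ^ 2 := ⟨_, h6.symm⟩
        obtain ⟨i, hi, hi2⟩ := (Nat.dvd_prime_pow hpp).mp h7
        interval_cases i
        · rw [pow_zero] at hi2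
          omega
        · rw [pow_one] at hi2
          exact hi2
        · exfalso
          rw [hi2] at h6
          have h8 : Nm h = 1 := by
            have : 0 < p ^ 2 := pow_pos hpp.pos 2
            exact Nat.eq_of_mul_eq_mul_left this (by rw [h6, mul_one])
          have h9 : IsUnit h := Nm_eq_one.mp h8
          have h10 : Associated g0 (p : O) := by
            rw [hh]
            obtain ⟨u, hu⟩ := h9
            exact ⟨u, by rw [hu]⟩
          apply hass
          refine h10.trans ?_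
          have h11 : Associated (cj g0) (cj (p : O)) := by
            obtain ⟨u, hu⟩ := h10
            refine ⟨Units.map (cj : O →* O) u, ?_⟩
            rw [← hu, map_mul]
            rfl
          rw [map_natCast] at h11
          exact h11.symm
      have hp3 : p % 3 = 1 := by
        obtain ⟨y, hy⟩ := (gen_spec v h3).2
        have h6 : (3 : O) ∣ (p : O) - 1 := by
          rw [← hNg, ← hg0N]
          refine ⟨y * cj g0 + cj y, ?_⟩
          have h7 : cj g0 - 1 = 3 * cj y := by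
            have := congrArg cj hy
            rw [map_sub, map_one, map_mul] at this
            rw [hg0, this]
            congr 1
            exact map_ofNat cj 3
          have h8 : g0 - 1 = 3 * y := hy
          linear_combination cj g0 * h8 + h7
        obtain ⟨w, hw⟩ := h6
        obtain ⟨a, b, rfl⟩ := exists_repr w
        have h7 : (((p : ℤ) - 1 : ℤ) : O) + ((0 : ℤ) : O) * om = ((3 * a : ℤ) : O) + ((3 * b : ℤ) : O) * om := by
          push_cast
          linear_combination hw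
        have h8 := (repr_unique h7).1
        omega
      have hcardp : Fintype.card k = p ^ f := by rw [hq, hN, hNg]
      have h6 := choose_not_dvd p hpp hp3 f
      rw [← hcardp, hmdiv] at h6
      exact h6 hpc
    have hco : IsCoprime J (cj g0 ^ f) := by
      apply IsCoprime.pow_right
      exact ((Prime.irreducible hcp).coprime_iff_not_dvd.mpr hnd).symm
    exact hco.dvd_of_dvd_mul_right ⟨cj J, hprod.symm⟩

end H55B
end

-- from Lib.H55B.E3
section

open NumberField IsDedekindDomain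

namespace H55B

/-! Chunk E3: the number of points, and its parity.
pts: exists_chi and neg_jacobi, apply e. odd_norm: take k = O/v, f = 1: the number of affine points is
Nm v - 2 Re e(gen v), and Nm(x - 1) = Nm x - 2 Re e x + 1, so 1 + (number of affine points) = Nm(gen v - 1).
The involution (x, y) -> (x, -1-y) has fixed points only if 2y + 1 = 0, i.e. 4x^3 + 1 = (2y+1)^2 = 0, i.e.
(-2x)^3 = 2 in O/v. -/

theorem pts (v : HeightOneSpectrum O) (h3 : (3 : O) ∉ v.asIdeal) (k : Type*) [Field k] [Finite k]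
    (φ : O →+* k) (hker : RingHom.ker φ = v.asIdeal) (f : ℕ) (hf : 0 < f)
    (hq : Nat.card k = Ideal.absNorm v.asIdeal ^ f) :
    (Nat.card {p : k × k // p.2 ^ 2 + p.2 = p.1 ^ 3} : ℂ) =
      (Ideal.absNorm v.asIdeal : ℂ) ^ f - (e (gen v) ^ f + (starRingEnd ℂ) (e (gen v)) ^ f) := by
  have := Fintype.ofFinite k
  rw [Nat.card_eq_fintype_card] at hq
  have hφ3 : φ 3 ≠ 0 := by
    intro h
    apply h3
    rw [← hker]
    exact h
  obtain ⟨χ, hχ3, hχ, h3c, hφ, hcj, hN⟩ := exists_chi k φ hφ3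
  have hJ := neg_jacobi v h3 k φ hker f hf hq χ hχ3 hχ h3c hφ hcj
  have hJ' : jacobiSum χ χ = -gen v ^ f := by rw [← hJ, neg_neg]
  rw [hJ'] at hN
  have h := congrArg e hN
  simp only [map_natCast, map_add, map_neg, map_pow, e_cj] at h
  rw [h, hq]
  push_cast
  ring

/-- The norm form again: product of gen v and its conjugate. -/
theorem gen_mul_conj (v : HeightOneSpectrum O) (h3 : (3 : O) ∉ v.asIdeal) :
    e (gen v) * (starRingEnd ℂ) (e (gen v)) = (Ideal.absNorm v.asIdeal : ℂ) := by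
  rw [← e_cj, ← map_mul, mul_cj, map_natCast, absNorm_gen v h3]

theorem odd_norm (v : HeightOneSpectrum O) (h3 : (3 : O) ∉ v.asIdeal) (h2 : (2 : O) ∉ v.asIdeal)
    (h : ¬ ∃ x : O, x ^ 3 - 2 ∈ v.asIdeal) : Odd (Nm (gen v - 1)) := by
  classical
  have hmax : v.asIdeal.IsMaximal := v.isMaximal
  letI : Field (O ⧸ v.asIdeal) := Ideal.Quotient.field v.asIdeal
  have hfin : Finite (O ⧸ v.asIdeal) := Ideal.finiteQuotientOfFreeOfNeBot v.asIdeal v.ne_bot
  have hcard : Nat.card (O ⧸ v.asIdeal) = Ideal.absNorm v.asIdeal ^ 1 := by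
    rw [pow_one]; rfl
  have hp := pts v h3 (O ⧸ v.asIdeal) (Ideal.Quotient.mk v.asIdeal) (Ideal.mk_ker) 1 one_pos hcard
  set N := Nat.card {p : (O ⧸ v.asIdeal) × (O ⧸ v.asIdeal) // p.2 ^ 2 + p.2 = p.1 ^ 3} with hNdef
  have hNm : ((Nm (gen v - 1) : ℕ) : ℂ) = ((N + 1 : ℕ) : ℂ) := by
    have h1 : ((Nm (gen v - 1) : ℕ) : ℂ) = e ((gen v - 1) * cj (gen v - 1)) := by
      rw [mul_cj, map_natCast]
    rw [h1]
    have h4 := gen_mul_conj v h3
    simp only [map_mul, map_sub, e_cj, map_one]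
    push_cast
    rw [hp]
    simp only [pow_one]
    linear_combination h4
  have hNm' : Nm (gen v - 1) = N + 1 := by exact_mod_cast hNm
  rw [hNm']
  have hev : Even N := by
    have := Fintype.ofFinite (O ⧸ v.asIdeal)
    rw [hNdef, Nat.card_eq_fintype_card, even_iff_two_dvd, ← CharP.cast_eq_zero_iff (ZMod 2) 2,
      ← Finset.card_univ, Finset.cast_card]
    refine Finset.sum_involution (fun p _ => ⟨(p.1.1, -1 - p.1.2), ?_⟩) ?_ ?_ ?_ ?_
    · have := p.2
      simp only
      linear_combination this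
    · intro a _
      decide
    · intro a _ _ heq
      apply h
      have h5 : -1 - a.1.2 = a.1.2 := congrArg (fun z => z.1.2) heq
      obtain ⟨x, hx⟩ := Ideal.Quotient.mk_surjective a.1.1
      refine ⟨-2 * x, ?_⟩
      rw [← Ideal.Quotient.eq_zero_iff_mem]
      have h6 := a.2
      simp only [map_sub, map_pow, map_mul, map_neg, map_ofNat, hx]
      linear_combination (8 * a.1.1 ^ 3 - 8 * a.1.1 ^ 3) * h5 + (-2) * (2 * a.1.2 + 1) * (-h5) - 8 * (-h6)
    · intro a _
      exact Finset.mem_univ _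
    · intro a _
      apply Subtype.ext
      simp
  exact hev.add_one

end H55B
end

-- from Lib.H55B.F4
section

open NumberField IsDedekindDomain

namespace H55B

/-! Chunk F4: the local polynomials of E27 over K (containing the third roots of unity).
E27 base changed to K and then to the completion is (0,0,1,0,0). loc_good: 3 is a unit of R_w; F1 with
k_w = residue field, card = absNorm w = (absNorm v)^f, f = inertia degree, phi = O -> O_K -> k_w, kernel v;
E3.pts and gen_mul_conj: 1 - (q - N) X + q X^2 = (1 - pi^f X)(1 - conj(pi)^f X). loc_bad: F2 with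
valuation_compl: v(27) = exp(-6), and every nonzero value is exp(n) (n integer), 12 n <> -6. -/

theorem absNorm_inertia (K : Type*) [Field K] [NumberField K] [Algebra F K]
    (w : HeightOneSpectrum (𝓞 K)) (v : HeightOneSpectrum O) (hv : v.asIdeal = w.asIdeal.under O) :
    Ideal.absNorm w.asIdeal = Ideal.absNorm v.asIdeal ^ (w.asIdeal.inertiaDeg O) := by
  have hlies : w.asIdeal.LiesOver v.asIdeal := ⟨hv⟩
  have hmax : v.asIdeal.IsMaximal := v.isMaximal
  rw [Ideal.inertiaDeg_eq_of_isMaximal v.asIdeal w.asIdeal]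
  have h := Ideal.absNorm_eq_pow_inertiaDeg'_of_liesOver w.asIdeal v.asIdeal v.isPrime v.ne_bot
  rw [Ideal.inertiaDeg'_algebraMap] at h
  exact h

theorem F4_curve (K : Type*) [Field K] [NumberField K] [Algebra F K] (w : HeightOneSpectrum (𝓞 K)) :
    (E27.baseChange K).baseChange (w.adicCompletion K) = ⟨0, 0, 1, 0, 0⟩ := by
  ext <;> simp [E27, WeierstrassCurve.baseChange]

theorem F4_unit (K : Type*) [Field K] [NumberField K] [Algebra F K] (w : HeightOneSpectrum (𝓞 K))
    (h3 : (3 : 𝓞 K) ∉ w.asIdeal) : IsUnit (3 : w.adicCompletionIntegers K) := by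
  rw [← residue_ker K w, RingHom.mem_ker, RingHom.comp_apply, map_ofNat] at h3
  by_contra hcon
  apply h3
  rw [IsLocalRing.residue_eq_zero_iff, IsLocalRing.mem_maximalIdeal]
  exact hcon

open Polynomial in
theorem loc_good (K : Type*) [Field K] [NumberField K] [Algebra F K] (w : HeightOneSpectrum (𝓞 K))
    (h3 : (3 : 𝓞 K) ∉ w.asIdeal) (v : HeightOneSpectrum O) (hv : v.asIdeal = w.asIdeal.under O) :
    ((((E27.baseChange K).baseChange (w.adicCompletion K)).localPolynomial
      (w.adicCompletionIntegers K)).map (Int.castRingHom ℂ)) =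
      (1 - C (e (gen v) ^ (w.asIdeal.inertiaDeg O)) * X) *
      (1 - C ((starRingEnd ℂ) (e (gen v)) ^ (w.asIdeal.inertiaDeg O)) * X) := by
  have hlies : w.asIdeal.LiesOver v.asIdeal := ⟨hv⟩
  have hmax : v.asIdeal.IsMaximal := v.isMaximal
  obtain ⟨hfin, hcard⟩ := residue_card K w
  rw [F4_curve, good_local (w.adicCompletionIntegers K) (w.adicCompletion K) (F4_unit K w h3)]
  set f := w.asIdeal.inertiaDeg O with hf
  have hf0 : 0 < f := by
    rw [hf, Ideal.inertiaDeg_eq_of_isMaximal v.asIdeal w.asIdeal,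
      ← Ideal.inertiaDeg'_algebraMap]
    exact Ideal.inertiaDeg'_pos v.asIdeal w.asIdeal
  have h3v : (3 : O) ∉ v.asIdeal := by
    intro h
    apply h3
    rw [hv, Ideal.mem_comap, map_ofNat] at h
    exact h
  set φ : O →+* IsLocalRing.ResidueField (w.adicCompletionIntegers K) :=
    ((IsLocalRing.residue (w.adicCompletionIntegers K)).comp
      (algebraMap (𝓞 K) (w.adicCompletionIntegers K))).comp (algebraMap O (𝓞 K)) with hφ
  have hker : RingHom.ker φ = v.asIdeal := by
    rw [hv]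
    ext x
    rw [RingHom.mem_ker, hφ, RingHom.comp_apply, ← RingHom.mem_ker, residue_ker, Ideal.mem_comap]
  have hq : Nat.card (IsLocalRing.ResidueField (w.adicCompletionIntegers K)) =
      Ideal.absNorm v.asIdeal ^ f := by
    rw [hcard, absNorm_inertia K w v hv]
  have hpts := pts v h3v (IsLocalRing.ResidueField (w.adicCompletionIntegers K)) φ hker f hf0 hq
  have hgc := gen_mul_conj v h3v
  rw [hq]
  set N := Nat.card {p : IsLocalRing.ResidueField (w.adicCompletionIntegers K) ×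
    IsLocalRing.ResidueField (w.adicCompletionIntegers K) // p.2 ^ 2 + p.2 = p.1 ^ 3} with hN
  set a := e (gen v) with ha
  set b := (starRingEnd ℂ) (e (gen v)) with hb
  have h1 : ((Ideal.absNorm v.asIdeal ^ f : ℕ) : ℂ) - (N : ℂ) = a ^ f + b ^ f := by
    rw [hpts]
    push_cast
    ring
  have h2 : ((Ideal.absNorm v.asIdeal ^ f : ℕ) : ℂ) = a ^ f * b ^ f := by
    push_cast
    rw [← hgc, mul_pow]
  have h1' : ((Ideal.absNorm v.asIdeal ^ f : ℕ) : ℂ[X]) - (N : ℂ[X]) = C (a ^ f) + C (b ^ f) := by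
    rw [← C_eq_natCast, ← C_eq_natCast, ← map_sub, h1, map_add]
  have h2' : ((Ideal.absNorm v.asIdeal ^ f : ℕ) : ℂ[X]) = C (a ^ f) * C (b ^ f) := by
    rw [← C_eq_natCast, h2, map_mul]
  simp only [Polynomial.map_add, Polynomial.map_sub, Polynomial.map_one, Polynomial.map_mul,
    Polynomial.map_X, Polynomial.map_pow, map_sub, map_natCast, Polynomial.map_natCast]
  rw [h1', h2']
  ring

theorem loc_bad (K : Type*) [Field K] [NumberField K] [Algebra F K] (w : HeightOneSpectrum (𝓞 K))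
    (h3 : w.valuation K (3 : K) = WithZero.exp (-2 : ℤ)) :
    ((E27.baseChange K).baseChange (w.adicCompletion K)).localPolynomial (w.adicCompletionIntegers K) = 1 := by
  rw [F4_curve]
  apply bad_local
  intro u hu h
  have h27 : (27 : w.adicCompletion K) = algebraMap K (w.adicCompletion K) (3 ^ 3) := by
    rw [map_pow, map_ofNat]
    norm_num
  rw [h27, valuation_compl, map_pow, h3] at h
  set val := (IsDiscreteValuationRing.maximalIdeal (w.adicCompletionIntegers K)).valuation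
    (w.adicCompletion K) u with hval
  have h0 : val ≠ 0 := (Valuation.ne_zero_iff _).mpr hu
  rw [← WithZero.exp_log h0, ← WithZero.exp_nsmul, ← WithZero.exp_nsmul, WithZero.exp_inj] at h
  simp only [nsmul_eq_mul] at h
  push_cast at h
  omega

end H55B
end
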