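import Mathlib
import Pool.Agent.Lib.H1M.PP.D_H55P_Defs
import Pool.Agent.Lib.H1M.PP.D_H55P_GD
import Pool.Agent.Lib.H1M.PP.D_H55P_Sel
import Pool.Agent.Lib.H1M.PP.M001
import Pool.Agent.Lib.H1M.PP.M005
import Pool.Agent.Lib.H1M.PP.M010
import Pool.Agent.Lib.H1M.PP.M016
import Pool.Agent.Lib.H1M.PP.M028

/-! Merged copies (to shorten the build) of Lib.H55P.EDef, Lib.H55P.TD, Lib.H55K.D0, Lib.H55K.E0, Lib.H55K.G1, Lib.H55K.D1, Lib.H55K.G4A, Lib.H55P.B14, Lib.H55P.B2, Lib.H55P.U4, Lib.H55K.G2, Lib.H55K.G5A, Lib.H55K.SD, Lib.H55K.G3, Lib.H55K.G4B. -/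

-- from Lib.H55P.EDef
section

/-! Definitions for the elliptic part: Eisenstein sums with a cutoff, periods of y^2 = x^3 + A x + B. -/

open NumberField IsDedekindDomain

namespace H55P

/-- The first Eisenstein sum of the lattice of integers with a rational cutoff. -/
noncomputable def sR (F : Type) [Field F] [NumberField F] [IQ F] (R : ℝ) (z : ℂ) : ℂ :=
  ∑' x : 𝓞 F, (z + eF F x)⁻¹ * ((R ^ 2 / (R ^ 2 + ‖z + eF F x‖ ^ 2) : ℝ) : ℂ)

/-- The period lattice of y^2 = x^3 + A x + B is Om times the lattice of integers of F. -/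
structure Per (F : Type) [Field F] [NumberField F] [IQ F] (A B Om : ℂ) : Prop where
  ne : Om ≠ 0
  g2 : (LF F).g₂ = -4 * A * Om ^ 4
  g3 : (LF F).g₃ = -4 * B * Om ^ 6

/-- y^2 = x^3 + A x + B has good reduction at V, of residue characteristic not 2. -/
structure GoodV {k : Type} [Field k] (A B : k) (V : ValuationSubring k) : Prop where
  a : A ∈ V
  b : B ∈ V
  two : V.valuation 2 = 1
  disc : V.valuation (4 * A ^ 3 + 27 * B ^ 2) = 1

end H55P
end

-- from Lib.H55P.TD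
section

open NumberField IsDedekindDomain

namespace H55P

open H55N
open H55B (g)

variable {F : Type} [Field F] [NumberField F] [IQ F] {K : Type} [Field K] [NumberField K]
  [Algebra F K] {m : ℕ}

/-! Definitions for the tower part: Hecke characters with values in O, their base changes, L-series, characters of order p. -/

/-- ψ is a Hecke character of type (1,0) of F with values in O and modulus M. -/
structure IsHecke (M : Ideal (𝓞 F)) (ψ : Ideal (𝓞 F) →*₀ 𝓞 F) : Prop where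
  ne : M ≠ ⊥
  ntop : M ≠ ⊤
  gen : ∀ J, IsCoprime J M → Ideal.span {ψ J} = J
  zero : ∀ J, ¬ IsCoprime J M → ψ J = 0
  per : ∀ x y : 𝓞 F, IsCoprime (Ideal.span {x}) M → IsCoprime (Ideal.span {y}) M → x - y ∈ M →
    ψ (Ideal.span {x}) * y = ψ (Ideal.span {y}) * x

/-- The complex conjugate of the Hecke character over K, as a function on ideals. -/
noncomputable def PsiP (K : Type) [Field K] [NumberField K] [Algebra F K]
    (ψ : Ideal (𝓞 F) →*₀ 𝓞 F) : Ideal (𝓞 K) →*₀ ℂ :=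
  (((starRingEnd ℂ).comp (eF F)).toMonoidWithZeroHom.comp ψ).comp
    (Ideal.relNorm (𝓞 F) : Ideal (𝓞 K) →*₀ Ideal (𝓞 F))

theorem PsiP_apply (ψ : Ideal (𝓞 F) →*₀ 𝓞 F) (a : Ideal (𝓞 K)) :
    PsiP K ψ a = (starRingEnd ℂ) (eF F (ψ (Ideal.relNorm (𝓞 F) a))) := rfl

/-- The L-series of h converges for Re s > 3/2, continues to Re s > 1/2 and its value at 1, divided by
the power of the period, is a unit at V. -/
def LVP (F : Type) [Field F] [NumberField F] [IQ F] {K : Type} [Field K] [NumberField K] [Algebra F K]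
    (V : ValuationSubring ℂ) (Om : ℂ) (h : Ideal (𝓞 K) →*₀ ℂ) : Prop :=
  ∃ Λ : ℂ → ℂ, AnalyticOnNhd ℂ Λ {s | 1 / 2 < s.re} ∧
    (∀ s : ℂ, 3 / 2 < s.re → HasSum (tm h s) (Λ s)) ∧
    V.valuation (Λ 1 / Om ^ Module.finrank F K) = 1

/-- Characters of order dividing p with modulus f prime to p, on ideals. -/
structure PChr {K : Type} [Field K] [NumberField K] (p : ℕ) (f : Ideal (𝓞 K))
    (χ : Ideal (𝓞 K) →*₀ ℂ) : Prop where
  ne : f ≠ ⊥
  cop : IsCoprime f (Ideal.span {(p : 𝓞 K)})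
  val : ∀ a : Ideal (𝓞 K), a ≠ ⊥ → IsCoprime a f → χ a ^ p = 1
  zero : ∀ a : Ideal (𝓞 K), ¬ IsCoprime a f → χ a = 0
  per : ∀ x y : 𝓞 K, x ≠ 0 → y ≠ 0 → IsCoprime (Ideal.span {x}) f → x - y ∈ f →
    χ (Ideal.span {x}) = χ (Ideal.span {y})

/-- The decomposition law in a cyclic extension K'/K of prime degree p with character χ. -/
def SplitP (K K' : Type) [Field K] [NumberField K] [Field K'] [NumberField K'] [Algebra K K'] (p : ℕ)
    (χ : Ideal (𝓞 K) →*₀ ℂ) : Prop :=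
  ∀ w : HeightOneSpectrum (𝓞 K), ∃ T : Finset (HeightOneSpectrum (𝓞 K')),
    (∀ W, W ∈ T ↔ W.asIdeal.under (𝓞 K) = w.asIdeal) ∧
    ((χ w.asIdeal = 1 ∧ T.card = p ∧ ∀ W ∈ T, Ideal.relNorm (𝓞 K) W.asIdeal = w.asIdeal) ∨
     (χ w.asIdeal ^ p = 1 ∧ χ w.asIdeal ≠ 1 ∧ T.card = 1 ∧
       ∀ W ∈ T, Ideal.relNorm (𝓞 K) W.asIdeal = w.asIdeal ^ p) ∨
     (χ w.asIdeal = 0 ∧ T.card = 1 ∧ ∀ W ∈ T, Ideal.relNorm (𝓞 K) W.asIdeal = w.asIdeal))

/-- The powers χ^(j+1). -/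
noncomputable def chp {K : Type} [Field K] [NumberField K] (χ : Ideal (𝓞 K) →*₀ ℂ) :
    ℕ → (Ideal (𝓞 K) →*₀ ℂ)
  | 0 => χ
  | j + 1 => chp χ j * χ

theorem chp_apply {K : Type} [Field K] [NumberField K] (χ : Ideal (𝓞 K) →*₀ ℂ) (j : ℕ)
    (a : Ideal (𝓞 K)) : chp χ j a = χ a ^ (j + 1) := by
  induction j with
  | zero => simp [chp]
  | succ j ih =>
    show chp χ j a * χ a = _
    rw [ih, pow_succ (χ a) (j + 1)]

/-- There is an ideal a prime to p and M with 1 - Ψ(a) a unit at V. -/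
def NTP (K : Type) [Field K] [NumberField K] [Algebra F K] (p : ℕ) (M : Ideal (𝓞 F))
    (ψ : Ideal (𝓞 F) →*₀ 𝓞 F) (V : ValuationSubring ℂ) : Prop :=
  ∃ a : Ideal (𝓞 K), IsCoprime a (Ideal.span {(p : 𝓞 K)}) ∧ IsCoprime a (mK K M) ∧
    V.valuation (1 - PsiP K ψ a) = 1

end H55P
end

-- from Lib.H55K.D0
section

/-!
# H55K: elliptic curves with complex multiplication by the integers of a field of class number one (definitions)

F is one of the nine imaginary quadratic fields of class number one, O = 𝓞 F, Ω an algebraic closure of F. The curve is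
y^2 = x^3 + A x + B with A, B in F, and the lattice of its periods is Om O. See PROOF.md.
-/

open NumberField IsDedekindDomain WeierstrassCurve

namespace H55K

open H55P (IQ embF eF LF Per IsHecke Pt ac Inert Dec)
open H35P (WAB Ker tt)

section coords

variable {k : Type} [Field k] {W : WeierstrassCurve k}

/-- The x-coordinate (0 at infinity). -/
noncomputable def xc : W.toAffine.Point → k
  | .zero => 0
  | .some x _ _ => x

/-- The y-coordinate (0 at infinity). -/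
noncomputable def yc : W.toAffine.Point → k
  | .zero => 0
  | .some _ y _ => y

end coords

section act

variable {F : Type} [Field F] {Ω : Type} [Field Ω] [DecidableEq Ω] [Algebra F Ω]

/-- The image in Ω of an integer of F. -/
noncomputable abbrev ak (Ω : Type) [Field Ω] [Algebra F Ω] (a : 𝓞 F) : Ω := algebraMap F Ω (a : F)

variable {W : WeierstrassCurve F}

/-- The points killed by b. -/
def Tor (act : 𝓞 F →+* AddMonoid.End (Pt W Ω)) (b : 𝓞 F) : AddSubgroup (Pt W Ω) :=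
  AddMonoidHom.ker (act b : Pt W Ω →+ Pt W Ω)

/-- S is the set of the nonzero points killed by b. -/
def TN (act : 𝓞 F →+* AddMonoid.End (Pt W Ω)) (b : 𝓞 F) (S : Finset (Pt W Ω)) : Prop :=
  ∀ T, T ∈ S ↔ act b T = 0 ∧ T ≠ 0

/-- The primes of F above which y^2 = x^3 + A x + B is good, of residue characteristic at least 5: the valuation ring V. -/
structure GV (A B : F) (V : ValuationSubring Ω) : Prop where
  a : algebraMap F Ω A ∈ V
  b : algebraMap F Ω B ∈ V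
  two : V.valuation (2 : Ω) = 1
  three : V.valuation (3 : Ω) = 1
  disc : V.valuation (algebraMap F Ω (4 * A ^ 3 + 27 * B ^ 2)) = 1

/-- A good model at the valuation ring V over the algebraically closed field Ω: Kg is the kernel of its reduction, u the scaling factor. -/
structure GMod (W : WeierstrassCurve F) (V : ValuationSubring Ω) (Kg : AddSubgroup (Pt W Ω)) (u : Ω) : Prop where
  une : u ≠ 0
  tors : ∀ n : ℕ, V.valuation (n : Ω) = 1 → ∀ T ∈ Kg, n • T = 0 → T = 0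
  diff : ∀ P Q : Pt W Ω, P ∉ Kg → Q ∉ Kg → P - Q ∉ Kg → P + Q ∉ Kg →
    V.valuation (xc P - xc Q) = V.valuation u ^ 2
  far : ∀ P P' Q : Pt W Ω, P ∉ Kg → P' ∉ Kg → Q ∈ Kg → Q ≠ 0 →
    V.valuation (xc P - xc Q) = V.valuation (xc P' - xc Q)
  inert : ∀ s : Ω ≃ₐ[F] Ω, Inert V s →
    (∃ T₁ T₂ : Pt W Ω, T₁ ∉ Kg ∧ T₂ ∉ Kg ∧ T₁ - T₂ ∉ Kg ∧ T₁ + T₂ ∉ Kg ∧ T₁ + T₁ ∉ Kg ∧
      ac W s T₁ = T₁ ∧ ac W s T₂ = T₂) → ∀ P : Pt W Ω, ac W s P - P ∈ Kg

end act

/-- The complex multiplication: the integers of F act on the points over Ω of y^2 = x^3 + A x + B; j is a complex embedding of Ω. -/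
structure CMA (F : Type) [Field F] [NumberField F] [IQ F] (A B : F) (Om : ℂ) {Ω : Type} [Field Ω] [DecidableEq Ω]
    [Algebra F Ω] (j : Ω →+* ℂ) (act : 𝓞 F →+* AddMonoid.End (Pt (WAB A B) Ω)) : Prop where
  disc : 4 * A ^ 3 + 27 * B ^ 2 ≠ 0
  per : Per F (embF F A) (embF F B) Om
  ovr : ∀ x : F, j (algebraMap F Ω x) = embF F x
  gal : ∀ (s : Ω ≃ₐ[F] Ω) (a : 𝓞 F) (P : Pt (WAB A B) Ω),
    ac (WAB A B) s (act a P) = act a (ac (WAB A B) s P)
  surj : ∀ b : 𝓞 F, b ≠ 0 → ∀ P : Pt (WAB A B) Ω, ∃ Q, act b Q = P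
  gen : ∀ b : 𝓞 F, b ≠ 0 → ∃ T₀ ∈ Tor act b, (∀ T ∈ Tor act b, ∃ a, T = act a T₀) ∧
    (∀ a, act a T₀ = 0 ↔ b ∣ a) ∧ ∀ a, ¬ b ∣ a →
      j (xc (act a T₀)) = (LF F).weierstrassP (eF F a / eF F b) / Om ^ 2 ∧
      j (yc (act a T₀)) = (LF F).derivWeierstrassP (eF F a / eF F b) / (2 * Om ^ 3)
  e1x : ∀ (a : 𝓞 F) (S : Finset (Pt (WAB A B) Ω)), a ≠ 0 → TN act a S → ∀ P, act a P ≠ 0 →
    ak Ω a ^ 2 * xc (act a P) = xc P + ∑ T ∈ S, (xc (P + T) - xc T)
  e1y : ∀ (a : 𝓞 F) (S : Finset (Pt (WAB A B) Ω)), a ≠ 0 → TN act a S → ∀ P, act a P ≠ 0 →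
    ak Ω a ^ 3 * yc (act a P) = yc P + ∑ T ∈ S, yc (P + T)
  e2 : ∀ (b : 𝓞 F) (S : Finset (Pt (WAB A B) Ω)), b ≠ 0 → TN act b S → ∀ X Y, act b X ≠ 0 →
    act b Y ≠ 0 → ak Ω b ^ 2 * (xc (act b X) - xc (act b Y)) * ∏ R ∈ S, (xc R - xc Y) =
      (xc X - xc Y) * ∏ R ∈ S, (xc (X + R) - xc Y)

/-- The complete data: complex multiplication, the Hecke character ψ of modulus m of the curve (its values at the primes of
degree one are the Frobenius elements), a prime number l ≥ 5, unramified in F, of good reduction and prime to m,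
and an integral j-invariant. -/
structure Dta {F : Type} [Field F] [NumberField F] [IQ F] (A B : F) (Om : ℂ) {Ω : Type} [Field Ω] [DecidableEq Ω]
    [Algebra F Ω] (j : Ω →+* ℂ) (act : 𝓞 F →+* AddMonoid.End (Pt (WAB A B) Ω))
    (m : Ideal (𝓞 F)) (ψ : Ideal (𝓞 F) →*₀ 𝓞 F) (l : ℕ) : Prop where
  cma : CMA F A B Om j act
  hecke : IsHecke m ψ
  prime : l.Prime
  five : 5 ≤ l
  unr : ∀ v : HeightOneSpectrum (𝓞 F), (l : 𝓞 F) ∉ v.asIdeal ^ 2
  cop : IsCoprime m (Ideal.span {(l : 𝓞 F)})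
  good : ∀ V : ValuationSubring Ω, V.valuation (l : Ω) < 1 → GV A B V
  gmod : ∀ V : ValuationSubring Ω, ∃ (Kg : AddSubgroup (Pt (WAB A B) Ω)) (u : Ω), GMod (WAB A B) V Kg u
  fin : ∃ S : Set (HeightOneSpectrum (𝓞 F)), S.Finite ∧ ∀ v ∉ S, ∀ V : ValuationSubring Ω,
    (∀ a : 𝓞 F, a ∈ v.asIdeal → V.valuation (ak Ω a) < 1) → GV A B V
  frob : ∃ S : Set (HeightOneSpectrum (𝓞 F)), S.Finite ∧ ∀ v ∉ S, (Ideal.absNorm v.asIdeal).Prime →
    ∀ V : ValuationSubring Ω, (∀ a : 𝓞 F, a ∈ v.asIdeal → V.valuation (ak Ω a) < 1) →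
      ∀ s : Ω ≃ₐ[F] Ω, (∀ x ∈ V, V.valuation (s x - x ^ Ideal.absNorm v.asIdeal) < 1) →
        ∀ n : ℕ, V.valuation (n : Ω) = 1 → ∀ T : Pt (WAB A B) Ω, n • T = 0 →
          ac (WAB A B) s T = act (ψ v.asIdeal) T

end H55K
end

-- from Lib.H55K.E0
section

/-! # H55K: coordinates of the points of y^2 = x^3 + A x + B -/

open NumberField IsDedekindDomain WeierstrassCurve

namespace H55K

open H55P (IQ embF eF LF Per IsHecke Pt ac Inert Dec Nm)
open H35P (WAB Ker tt)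

section gen

variable {k : Type} [Field k] {W : WeierstrassCurve k}

theorem xc_zero : xc (0 : W.toAffine.Point) = 0 := rfl

theorem yc_zero : yc (0 : W.toAffine.Point) = 0 := rfl

theorem xc_some {x y : k} (h : W.toAffine.Nonsingular x y) :
    xc (Affine.Point.some x y h : W.toAffine.Point) = x := rfl

theorem yc_some {x y : k} (h : W.toAffine.Nonsingular x y) :
    yc (Affine.Point.some x y h : W.toAffine.Point) = y := rfl

theorem tt_eq (P : W.toAffine.Point) : tt P = xc P / yc P := by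
  rcases P with _ | ⟨x, y, h⟩
  · show (0 : k) = 0 / 0
    simp
  · rfl

theorem pt_ext {P Q : W.toAffine.Point} (hP : P ≠ 0) (hQ : Q ≠ 0) (hx : xc P = xc Q) (hy : yc P = yc Q) :
    P = Q := by
  rcases P with _ | ⟨x, y, h⟩
  · exact absurd rfl hP
  rcases Q with _ | ⟨x', y', h'⟩
  · exact absurd rfl hQ
  change x = x' at hx
  change y = y' at hy
  subst hx hy
  rfl

theorem xc_neg (P : W.toAffine.Point) : xc (-P) = xc P := by
  rcases P with _ | ⟨x, y, h⟩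
  · rfl
  · rfl

theorem neg_ne {P : W.toAffine.Point} (hP : P ≠ 0) : -P ≠ 0 := by
  rcases P with _ | ⟨x, y, h⟩
  · exact absurd rfl hP
  · exact Affine.Point.some_ne_zero _

theorem ker_zero (V : ValuationSubring k) : Ker V (0 : W.toAffine.Point) := trivial

theorem ker_iff (V : ValuationSubring k) {P : W.toAffine.Point} (hP : P ≠ 0) : Ker V P ↔ 1 < V.valuation (xc P) := by
  rcases P with _ | ⟨x, y, h⟩
  · exact absurd rfl hP
  · exact Iff.rfl

theorem ker_of (V : ValuationSubring k) {P : W.toAffine.Point} (h : 1 < V.valuation (xc P)) : Ker V P := by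
  rcases P with _ | ⟨x, y, h'⟩
  · trivial
  · exact h

/-- Points outside the kernel of reduction. -/
theorem not_ker (V : ValuationSubring k) {P : W.toAffine.Point} (h : ¬ Ker V P) :
    P ≠ 0 ∧ V.valuation (xc P) ≤ 1 := by
  have h0 : P ≠ 0 := by
    rintro rfl
    exact h trivial
  rw [ker_iff V h0] at h
  exact ⟨h0, not_lt.1 h⟩

end gen

section short

variable {k : Type} [Field k] {W : WeierstrassCurve k} [W.IsShortNF]

theorem s_eq (x y : k) : W.toAffine.Equation x y ↔ y ^ 2 = x ^ 3 + W.a₄ * x + W.a₆ := by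
  rw [Affine.equation_iff]
  simp only [W.a₁_of_isShortNF, W.a₂_of_isShortNF, W.a₃_of_isShortNF]
  ring_nf

theorem s_Δ : W.Δ = -16 * (4 * W.a₄ ^ 3 + 27 * W.a₆ ^ 2) := by
  unfold WeierstrassCurve.Δ WeierstrassCurve.b₂ WeierstrassCurve.b₄ WeierstrassCurve.b₆ WeierstrassCurve.b₈
  rw [W.a₁_of_isShortNF, W.a₂_of_isShortNF, W.a₃_of_isShortNF]
  ring

theorem eqn {P : W.toAffine.Point} (hP : P ≠ 0) : yc P ^ 2 = xc P ^ 3 + W.a₄ * xc P + W.a₆ := by
  rcases P with _ | ⟨x, y, h⟩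
  · exact absurd rfl hP
  · exact (s_eq x y).1 h.1

theorem yc_neg (P : W.toAffine.Point) : yc (-P) = -yc P := by
  rcases P with _ | ⟨x, y, h⟩
  · exact neg_zero.symm
  · show W.toAffine.negY x y = -y
    rw [Affine.negY]
    simp only [W.a₁_of_isShortNF, W.a₃_of_isShortNF]
    ring

theorem tt_neg (P : W.toAffine.Point) : tt (-P) = -tt P := by
  rw [tt_eq, tt_eq, xc_neg, yc_neg, div_neg]

theorem xc_eq {P Q : W.toAffine.Point} (hP : P ≠ 0) (hQ : Q ≠ 0) (h : xc P = xc Q) : P = Q ∨ P = -Q := by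
  have h1 := eqn hP
  have h2 := eqn hQ
  rw [h, ← h2] at h1
  have h3 : (yc P - yc Q) * (yc P + yc Q) = 0 := by linear_combination h1
  rcases mul_eq_zero.1 h3 with h4 | h4
  · exact Or.inl (pt_ext hP hQ h (sub_eq_zero.1 h4))
  · right
    refine pt_ext hP (neg_ne hQ) ?_ ?_
    · rw [xc_neg, h]
    · rw [yc_neg]
      linear_combination h4

variable [DecidableEq k]

theorem add_coords {P Q : W.toAffine.Point} (hP : P ≠ 0) (hQ : Q ≠ 0) (h : xc P ≠ xc Q) :
    P + Q ≠ 0 ∧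
    xc (P + Q) = ((yc P - yc Q) / (xc P - xc Q)) ^ 2 - xc P - xc Q ∧
    yc (P + Q) = -((yc P - yc Q) / (xc P - xc Q) * (xc (P + Q) - xc P) + yc P) := by
  rcases P with _ | ⟨x₁, y₁, h₁⟩
  · exact absurd rfl hP
  rcases Q with _ | ⟨x₂, y₂, h₂⟩
  · exact absurd rfl hQ
  change x₁ ≠ x₂ at h
  have e1 : Affine.Point.some x₁ y₁ h₁ + Affine.Point.some x₂ y₂ h₂ =
      Affine.Point.some _ _ (Affine.nonsingular_add h₁ h₂ fun hxy => h hxy.1) :=
    Affine.Point.add_some fun hxy => h hxy.1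
  have hs : W.toAffine.slope x₁ x₂ y₁ y₂ = (y₁ - y₂) / (x₁ - x₂) :=
    Affine.slope_of_X_ne h
  have hx : xc (Affine.Point.some x₁ y₁ h₁ + Affine.Point.some x₂ y₂ h₂) =
      ((y₁ - y₂) / (x₁ - x₂)) ^ 2 - x₁ - x₂ := by
    rw [e1]
    show W.toAffine.addX x₁ x₂ _ = _
    rw [Affine.addX, hs]
    simp only [W.a₁_of_isShortNF, W.a₂_of_isShortNF]
    ring
  refine ⟨?_, hx, ?_⟩
  · rw [e1]
    exact Affine.Point.some_ne_zero _
  · rw [hx]
    rw [e1]
    show W.toAffine.addY x₁ x₂ y₁ _ = -((y₁ - y₂) / (x₁ - x₂) *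
      (((y₁ - y₂) / (x₁ - x₂)) ^ 2 - x₁ - x₂ - x₁) + y₁)
    rw [Affine.addY, Affine.negAddY, Affine.negY, Affine.addX, hs]
    simp only [W.a₁_of_isShortNF, W.a₂_of_isShortNF, W.a₃_of_isShortNF]
    ring

theorem dbl_coords {P : W.toAffine.Point} (hP : P ≠ 0) (h : 2 * yc P ≠ 0) :
    P + P ≠ 0 ∧
    xc (P + P) = ((3 * xc P ^ 2 + W.a₄) / (2 * yc P)) ^ 2 - 2 * xc P ∧
    yc (P + P) = -((3 * xc P ^ 2 + W.a₄) / (2 * yc P) * (xc (P + P) - xc P) + yc P) := by
  rcases P with _ | ⟨x, y, h₁⟩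
  · exact absurd rfl hP
  change 2 * y ≠ 0 at h
  have h2 : y ≠ W.toAffine.negY x y := by
    rw [Affine.negY]
    simp only [W.a₁_of_isShortNF, W.a₃_of_isShortNF]
    intro h3
    apply h
    linear_combination h3
  have hxy : ¬(x = x ∧ y = W.toAffine.negY x y) := fun h' => h2 h'.2
  have e1 : Affine.Point.some x y h₁ + Affine.Point.some x y h₁ =
      Affine.Point.some _ _ (Affine.nonsingular_add h₁ h₁ hxy) :=
    Affine.Point.add_some hxy
  have hs : W.toAffine.slope x x y y = (3 * x ^ 2 + W.a₄) / (2 * y) := by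
    rw [Affine.slope_of_Y_ne rfl h2, Affine.negY]
    simp only [W.a₁_of_isShortNF, W.a₂_of_isShortNF, W.a₃_of_isShortNF]
    congr 1
    · ring
    · ring
  have hx : xc (Affine.Point.some x y h₁ + Affine.Point.some x y h₁) =
      ((3 * x ^ 2 + W.a₄) / (2 * y)) ^ 2 - 2 * x := by
    rw [e1]
    show W.toAffine.addX x x _ = _
    rw [Affine.addX, hs]
    simp only [W.a₁_of_isShortNF, W.a₂_of_isShortNF]
    ring
  refine ⟨?_, hx, ?_⟩
  · rw [e1]
    exact Affine.Point.some_ne_zero _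
  · rw [hx]
    rw [e1]
    show W.toAffine.addY x x y _ = -((3 * x ^ 2 + W.a₄) / (2 * y) *
      (((3 * x ^ 2 + W.a₄) / (2 * y)) ^ 2 - 2 * x - x) + y)
    rw [Affine.addY, Affine.negAddY, Affine.negY, Affine.addX, hs]
    simp only [W.a₁_of_isShortNF, W.a₂_of_isShortNF, W.a₃_of_isShortNF]
    ring

omit [DecidableEq k] in
/-- A point with given coordinates. -/
theorem exists_pt (hΔ : W.Δ ≠ 0) {x y : k} (h : y ^ 2 = x ^ 3 + W.a₄ * x + W.a₆) :
    ∃ P : W.toAffine.Point, P ≠ 0 ∧ xc P = x ∧ yc P = y :=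
  ⟨Affine.Point.some x y ((Affine.equation_iff_nonsingular_of_Δ_ne_zero hΔ).1 ((s_eq x y).2 h)),
    Affine.Point.some_ne_zero _, rfl, rfl⟩

end short

section base

variable {F : Type} [Field F] {A B : F} {Ω : Type} [Field Ω] [Algebra F Ω]

instance isShort_WAB (A B : F) : (WAB A B).IsShortNF := ⟨rfl, rfl, rfl⟩

instance isShort_base (A B : F) (Ω : Type) [Field Ω] [Algebra F Ω] : ((WAB A B)⁄Ω).IsShortNF :=
  ⟨map_zero (algebraMap F Ω), map_zero (algebraMap F Ω), map_zero (algebraMap F Ω)⟩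

theorem base_a4 : ((WAB A B)⁄Ω).a₄ = algebraMap F Ω A := rfl

theorem base_a6 : ((WAB A B)⁄Ω).a₆ = algebraMap F Ω B := rfl

theorem eqnA {P : Pt (WAB A B) Ω} (hP : P ≠ 0) :
    yc P ^ 2 = xc P ^ 3 + algebraMap F Ω A * xc P + algebraMap F Ω B := eqn hP

variable [DecidableEq Ω]

theorem ac_zero (W : WeierstrassCurve F) (s : Ω ≃ₐ[F] Ω) : ac W s (0 : Pt W Ω) = 0 := map_zero _

theorem ac_ne (W : WeierstrassCurve F) (s : Ω ≃ₐ[F] Ω) {P : Pt W Ω} (hP : P ≠ 0) : ac W s P ≠ 0 := by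
  rcases P with _ | ⟨x, y, h⟩
  · exact absurd rfl hP
  · unfold ac
    rw [Affine.Point.map_some]
    exact Affine.Point.some_ne_zero _

theorem xc_ac (W : WeierstrassCurve F) (s : Ω ≃ₐ[F] Ω) (P : Pt W Ω) : xc (ac W s P) = s (xc P) := by
  rcases P with _ | ⟨x, y, h⟩
  · have : ac W s (Affine.Point.zero : Pt W Ω) = 0 := map_zero _
    rw [this]
    exact (map_zero s).symm
  · unfold ac
    rw [Affine.Point.map_some]
    rfl

theorem yc_ac (W : WeierstrassCurve F) (s : Ω ≃ₐ[F] Ω) (P : Pt W Ω) : yc (ac W s P) = s (yc P) := by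
  rcases P with _ | ⟨x, y, h⟩
  · have : ac W s (Affine.Point.zero : Pt W Ω) = 0 := map_zero _
    rw [this]
    exact (map_zero s).symm
  · unfold ac
    rw [Affine.Point.map_some]
    rfl

theorem tt_ac (W : WeierstrassCurve F) (s : Ω ≃ₐ[F] Ω) (P : Pt W Ω) : tt (ac W s P) = s (tt P) := by
  rw [tt_eq, tt_eq, xc_ac, yc_ac, map_div₀]

theorem ac_one (W : WeierstrassCurve F) (P : Pt W Ω) : ac W (1 : Ω ≃ₐ[F] Ω) P = P := by cases P <;> rfl

theorem ac_mul (W : WeierstrassCurve F) (s t : Ω ≃ₐ[F] Ω) (P : Pt W Ω) :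
    ac W (s * t) P = ac W s (ac W t P) := by
  cases P <;> rfl

theorem ac_inv (W : WeierstrassCurve F) (s : Ω ≃ₐ[F] Ω) (P : Pt W Ω) : ac W s (ac W s⁻¹ P) = P := by
  rw [← ac_mul, mul_inv_cancel, ac_one]

end base

end H55K
end

-- from Lib.H55K.G1
section

/-! # H55K: basic facts at a good valuation ring -/

open NumberField IsDedekindDomain WeierstrassCurve

namespace H55K

open H55P (IQ embF eF LF Per IsHecke Pt ac Inert Dec Nm)
open H35P (WAB Ker tt)


variable {F : Type} [Field F] [NumberField F] [IQ F] {A B : F} {Om : ℂ} {Ω : Type} [Field Ω] [DecidableEq Ω]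
  [Algebra F Ω] {j : Ω →+* ℂ} {act : 𝓞 F →+* AddMonoid.End (Pt (WAB A B) Ω)} {V : ValuationSubring Ω}

/-! Chunk G1 (S/M, many small facts). W = WAB A B over F, W⁄Ω has a₁ = a₂ = a₃ = 0 (isShort_base), a₄ = algebraMap F Ω A, a₆ = algebraMap F Ω B
(base_a4, base_a6). -/

omit [NumberField F] [IQ F] [DecidableEq Ω] in
/-- ak Ω a is integral over the integers and V is integrally closed (V.valuation: Valuation.Integers / IsIntegrallyClosed; see H28G.ak_le,
H13S.vw_int). -/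
theorem ak_le (V : ValuationSubring Ω) (a : 𝓞 F) : V.valuation (ak Ω a) ≤ 1 := by
  rw [V.valuation_le_one_iff]
  have h1 : IsIntegral ℤ (ak Ω a) := by
    have h2 : IsIntegral ℤ (a : F) := RingOfIntegers.isIntegral_coe a
    exact h2.map ((algebraMap F Ω).toIntAlgHom)
  have h3 : IsIntegral V (ak Ω a) := h1.tower_top
  obtain ⟨y, hy⟩ := IsIntegrallyClosed.isIntegral_iff.1 h3
  rw [← hy]
  exact y.2

omit [NumberField F] [IQ F] [DecidableEq Ω] in
/-- s_Δ: Δ = -16 (4A^3 + 27B^2), V(16) = 1. -/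
theorem gv_good (hV : GV A B V) : H35P.GoodW ((WAB A B)⁄Ω) V := by
  have h0 : ∀ x : Ω, x = 0 → x ∈ V := fun x hx => hx ▸ V.zero_mem
  refine ⟨⟨h0 _ (WeierstrassCurve.a₁_of_isShortNF _), h0 _ (WeierstrassCurve.a₂_of_isShortNF _),
    h0 _ (WeierstrassCurve.a₃_of_isShortNF _), hV.a, hV.b⟩, ?_⟩
  rw [s_Δ, base_a4, base_a6]
  have h1 : (-16 : Ω) * (4 * algebraMap F Ω A ^ 3 + 27 * algebraMap F Ω B ^ 2) =
      -((2 : Ω) ^ 4 * algebraMap F Ω (4 * A ^ 3 + 27 * B ^ 2)) := by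
    simp only [map_add, map_mul, map_pow, map_ofNat]
    ring
  rw [h1, Valuation.map_neg, map_mul, map_pow, hV.two, hV.disc, one_pow, one_mul]

omit [NumberField F] [IQ F] [DecidableEq Ω] in
/-- eqnA and hV.a, hV.b (H35P.int_y). -/
theorem gv_y (hV : GV A B V) {P : Pt (WAB A B) Ω} (hP : ¬ Ker V P) : V.valuation (yc P) ≤ 1 := by
  obtain ⟨h0, hx⟩ := not_ker V hP
  rcases P with _ | ⟨x, y, h⟩
  · exact absurd rfl h0
  · exact H35P.int_y (gv_good hV).toIntW h.1 hx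

omit [NumberField F] [IQ F] in
/-- H35P.ker_add, FG.ker_sub, ker_neg. -/
theorem kadd (hV : GV A B V) {P Q : Pt (WAB A B) Ω} (hP : Ker V P) (hQ : Ker V Q) : Ker V (P + Q) := by
  exact H35P.ker_add (gv_good hV).toIntW P Q hP hQ

omit [NumberField F] [IQ F] [DecidableEq Ω] in
theorem kneg {P : Pt (WAB A B) Ω} (hP : Ker V P) : Ker V (-P) := by
  exact (H35P.ker_neg P).2 hP

omit [NumberField F] [IQ F] in
theorem ksub (hV : GV A B V) {P Q : Pt (WAB A B) Ω} (hP : Ker V P) (hQ : Ker V Q) : Ker V (P - Q) := by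
  exact H35P.ker_sub (gv_good hV).toIntW P Q hP hQ

/-- The kernel of reduction as a subgroup. -/
def kerG (hV : GV A B V) : AddSubgroup (Pt (WAB A B) Ω) where
  carrier := {P | Ker V P}
  add_mem' := fun hP hQ => kadd hV hP hQ
  zero_mem' := trivial
  neg_mem' := fun hP => kneg hP

omit [NumberField F] [IQ F] in
theorem mem_kerG (hV : GV A B V) (P : Pt (WAB A B) Ω) : P ∈ kerG hV ↔ Ker V P := Iff.rfl

omit [NumberField F] [IQ F] in
theorem knsmul (hV : GV A B V) {P : Pt (WAB A B) Ω} (hP : Ker V P) (n : ℕ) : Ker V (n • P) :=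
  AddSubgroup.nsmul_mem (kerG hV) hP n

omit [NumberField F] [IQ F] [DecidableEq Ω] in
/-- H35P.tt_lt. -/
theorem ttlt (hV : GV A B V) {P : Pt (WAB A B) Ω} (hP : Ker V P) : V.valuation (tt P) < 1 := by
  exact H35P.tt_lt (gv_good hV).toIntW P hP

omit [NumberField F] [IQ F] [DecidableEq Ω] in
/-- H35P.tt_eq_zero. -/
theorem tt_zero (hV : GV A B V) {P : Pt (WAB A B) Ω} (hP : Ker V P) : tt P = 0 ↔ P = 0 := by
  exact H35P.tt_eq_zero (gv_good hV).toIntW P hP

omit [NumberField F] [IQ F] [DecidableEq Ω] in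
/-- From val_y (H35P/R1.lean): V(y)^2 = V(x)^3, tt P = x/y. -/
theorem tt_val (hV : GV A B V) {P : Pt (WAB A B) Ω} (hP : Ker V P) (h0 : P ≠ 0) :
    V.valuation (tt P) ^ 2 * V.valuation (xc P) = 1 ∧ V.valuation (tt P) ^ 3 * V.valuation (yc P) = 1 ∧
      V.valuation (xc P) < V.valuation (yc P) := by
  rcases P with _ | ⟨x, y, h⟩
  · exact absurd rfl h0
  · have hx : 1 < V.valuation x := hP
    obtain ⟨h1, h2⟩ := H35P.val_y (gv_good hV).toIntW h.1 hx
    have x0 : V.valuation x ≠ 0 := (zero_lt_one.trans hx).ne'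
    have y0 : V.valuation y ≠ 0 := (zero_lt_one.trans (hx.trans h2)).ne'
    refine ⟨H35P.tt_sq (gv_good hV).toIntW h hx, ?_, h2⟩
    show V.valuation (x / y) ^ 3 * V.valuation y = 1
    rw [map_div₀, div_pow, ← h1, pow_succ (V.valuation y) 2, div_mul_eq_mul_div, div_self]
    exact mul_ne_zero (pow_ne_zero 2 y0) y0

omit [NumberField F] [IQ F] [DecidableEq Ω] in
theorem g1_cong {P Q : Pt (WAB A B) Ω} (h1 : V.valuation (xc P) ≤ 1) (h2 : V.valuation (yc P) ≤ 1)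
    (h3 : V.valuation (xc Q) ≤ 1) (h4 : V.valuation (yc Q) ≤ 1) (hP : P ≠ 0) (hQ : Q ≠ 0)
    (hx : V.valuation (xc P - xc Q) < 1) (hy : V.valuation (yc P - yc Q) < 1) : H35P.Cong V P Q := by
  rcases P with _ | ⟨x, y, h⟩
  · exact absurd rfl hP
  rcases Q with _ | ⟨x', y', h'⟩
  · exact absurd rfl hQ
  exact ⟨x, y, h, x', y', h', rfl, rfl, (V.valuation_le_one_iff _).1 h1, (V.valuation_le_one_iff _).1 h2,
    (V.valuation_le_one_iff _).1 h3, (V.valuation_le_one_iff _).1 h4, hx, hy⟩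

omit [NumberField F] [IQ F] in
/-- eqnA for P and Q: (yP - yQ)(yP + yQ) has value < 1, so one factor has; H35P.rd (RD.lean) for P, Q or P, -Q (Cong: not_ker, gv_y). -/
theorem cls_x (hV : GV A B V) {P Q : Pt (WAB A B) Ω} (hP : ¬ Ker V P) (hQ : ¬ Ker V Q)
    (hx : V.valuation (xc P - xc Q) < 1) : Ker V (P - Q) ∨ Ker V (P + Q) := by
  obtain ⟨hP0, hPx⟩ := not_ker V hP
  obtain ⟨hQ0, hQx⟩ := not_ker V hQ
  have hPy := gv_y hV hP
  have hQy := gv_y hV hQ
  have hA : V.valuation (algebraMap F Ω A) ≤ 1 := (V.valuation_le_one_iff _).2 hV.a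
  have e : (yc P - yc Q) * (yc P + yc Q) =
      (xc P - xc Q) * (xc P ^ 2 + xc P * xc Q + xc Q ^ 2 + algebraMap F Ω A) := by
    linear_combination eqnA hP0 - eqnA hQ0
  have h1 : V.valuation (xc P ^ 2 + xc P * xc Q + xc Q ^ 2 + algebraMap F Ω A) ≤ 1 := by
    refine V.valuation.map_add_le (V.valuation.map_add_le (V.valuation.map_add_le ?_ ?_) ?_) hA
    · rw [map_pow]
      exact pow_le_one' hPx 2
    · rw [map_mul]
      exact mul_le_one' hPx hQx
    · rw [map_pow]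
      exact pow_le_one' hQx 2
  have h2 : V.valuation ((yc P - yc Q) * (yc P + yc Q)) < 1 := by
    rw [e, map_mul]
    exact mul_lt_one_of_lt_of_le hx h1
  rw [map_mul] at h2
  have h3 : V.valuation (yc P - yc Q) < 1 ∨ V.valuation (yc P + yc Q) < 1 := by
    by_contra hcon
    push Not at hcon
    exact absurd (one_le_mul hcon.1 hcon.2) (not_le.2 h2)
  rcases h3 with h3 | h3
  · left
    exact H35P.rd (gv_good hV) P Q (g1_cong hPx hPy hQx hQy hP0 hQ0 hx h3)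
  · right
    have h4 : Ker V (P - -Q) := by
      apply H35P.rd (gv_good hV) P (-Q)
      refine g1_cong hPx hPy ?_ ?_ hP0 (neg_ne hQ0) ?_ ?_
      · rw [xc_neg]
        exact hQx
      · rw [yc_neg, Valuation.map_neg]
        exact hQy
      · rw [xc_neg]
        exact hx
      · rw [yc_neg, sub_neg_eq_add]
        exact h3
    rwa [sub_neg_eq_add] at h4

omit [NumberField F] [IQ F] in
/-- cls_x and integrality of the coordinates. -/
theorem cls_diff (hV : GV A B V) {P Q : Pt (WAB A B) Ω} (hP : ¬ Ker V P) (hQ : ¬ Ker V Q)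
    (h1 : ¬ Ker V (P - Q)) (h2 : ¬ Ker V (P + Q)) : V.valuation (xc P - xc Q) = 1 := by
  obtain ⟨hP0, hPx⟩ := not_ker V hP
  obtain ⟨hQ0, hQx⟩ := not_ker V hQ
  refine le_antisymm (V.valuation.map_sub_le hPx hQx) ?_
  by_contra hcon
  rcases cls_x hV hP hQ (not_le.1 hcon) with h | h
  · exact h1 h
  · exact h2 h

omit [NumberField F] [IQ F] in
/-- H35P.rd. -/
theorem cls_xy (hV : GV A B V) {P Q : Pt (WAB A B) Ω} (hP : ¬ Ker V P) (hQ : ¬ Ker V Q)
    (hx : V.valuation (xc P - xc Q) < 1) (hy : V.valuation (yc P - yc Q) < 1) : Ker V (P - Q) := by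
  obtain ⟨hP0, hPx⟩ := not_ker V hP
  obtain ⟨hQ0, hQx⟩ := not_ker V hQ
  exact H35P.rd (gv_good hV) P Q (g1_cong hPx (gv_y hV hP) hQx (gv_y hV hQ) hP0 hQ0 hx hy)

omit [NumberField F] [IQ F] in
/-- H35P.fg (FG.lean). -/
theorem ker_tors (hV : GV A B V) (n : ℕ) (hn : V.valuation (n : Ω) = 1) {T : Pt (WAB A B) Ω} (hT : n • T = 0)
    (hK : Ker V T) : T = 0 := by
  exact H35P.fg (gv_good hV).toIntW T n hn hT hK

omit [NumberField F] [IQ F] in
/-- Automorphisms in the decomposition group preserve the kernel of reduction: xc_ac; V(s x) ≤ 1 iff V(x) ≤ 1. -/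
theorem ker_ac (s : Ω ≃ₐ[F] Ω) (hs : Dec V s) {P : Pt (WAB A B) Ω} : Ker V (ac (WAB A B) s P) ↔ Ker V P := by
  rcases eq_or_ne P 0 with rfl | hP
  · rw [ac_zero]
  · rw [ker_iff V (ac_ne _ s hP), ker_iff V hP, xc_ac, ← not_le, ← not_le, V.valuation_le_one_iff,
      V.valuation_le_one_iff, hs]

end H55K
end

-- from Lib.H55K.D1
section

/-! # H55K: complex conjugation on the integers of F -/

open NumberField IsDedekindDomain

namespace H55K

open H55P (IQ embF eF Nm eF_inj Nm_eq)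

variable {F : Type} [Field F] [NumberField F] [IQ F]

theorem d1_emb (F : Type) [Field F] [NumberField F] [IQ F] (f g : F →+* ℂ) (hf : f ≠ embF F) (hg : g ≠ embF F) :
    f = g := by
  classical
  have h1 : Fintype.card (F →+* ℂ) = 2 := by
    rw [NumberField.Embeddings.card F ℂ, IQ.deg]
  by_contra hne
  have h2 : ({embF F, f, g} : Finset (F →+* ℂ)).card = 3 := by
    rw [Finset.card_insert_of_notMem, Finset.card_insert_of_notMem, Finset.card_singleton]
    · rwa [Finset.mem_singleton]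
    · rw [Finset.mem_insert, Finset.mem_singleton]
      rintro (h | h)
      · exact hf h.symm
      · exact hg h.symm
  have h3 := Finset.card_le_univ ({embF F, f, g} : Finset (F →+* ℂ))
  rw [h1, h2] at h3
  omega

theorem d1_conj_ne (F : Type) [Field F] [NumberField F] [IQ F] : (starRingEnd ℂ).comp (embF F) ≠ embF F := by
  intro h
  obtain ⟨x, hx⟩ := IQ.im (F := F)
  apply hx
  exact Complex.conj_eq_iff_im.1 (RingHom.congr_fun h x)

theorem d1_sigma (F : Type) [Field F] [NumberField F] [IQ F] : ∃ σ : F ≃ₐ[ℚ] F, ∀ x, embF F (σ x) =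
    (starRingEnd ℂ) (embF F x) := by
  have hq : Algebra.IsQuadraticExtension ℚ F := ⟨IQ.deg⟩
  have hG : IsGalois ℚ F := inferInstance
  have hc : Nat.card (F ≃ₐ[ℚ] F) = 2 := by
    rw [IsGalois.card_aut_eq_finrank, IQ.deg]
  have hn : Nontrivial (F ≃ₐ[ℚ] F) := Finite.one_lt_card_iff_nontrivial.1 (by rw [hc]; norm_num)
  obtain ⟨σ, hσ⟩ := exists_ne (1 : F ≃ₐ[ℚ] F)
  refine ⟨σ, fun x => ?_⟩
  have h1 : (embF F).comp (σ : F →+* F) ≠ embF F := by
    intro h
    apply hσ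
    ext x
    exact (embF F).injective (RingHom.congr_fun h x)
  exact RingHom.congr_fun (d1_emb F _ _ h1 (d1_conj_ne F)) x

theorem exists_cj (F : Type) [Field F] [NumberField F] [IQ F] : ∃ c : 𝓞 F ≃+* 𝓞 F,
    ∀ x, eF F (c x) = (starRingEnd ℂ) (eF F x) := by
  obtain ⟨σ, hσ⟩ := d1_sigma F
  exact ⟨RingOfIntegers.mapRingEquiv σ, fun x => hσ x⟩

/-- Complex conjugation on the integers of F. -/
noncomputable def cj : 𝓞 F ≃+* 𝓞 F := (exists_cj F).choose

theorem e_cj (x : 𝓞 F) : eF F (cj x) = (starRingEnd ℂ) (eF F x) := (exists_cj F).choose_spec x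

theorem cj_cj (x : 𝓞 F) : cj (cj x) = x := by
  apply eF_inj
  rw [e_cj, e_cj, Complex.conj_conj]

theorem mul_cj (x : 𝓞 F) : x * cj x = (Nm x : 𝓞 F) := by
  apply eF_inj
  rw [map_mul, e_cj, Complex.mul_conj, Complex.normSq_eq_norm_sq, ← Nm_eq, map_natCast]
  simp

theorem Nm_cj (x : 𝓞 F) : Nm (cj x) = Nm x := by
  have h1 := Nm_eq (cj x)
  rw [e_cj, RCLike.norm_conj, ← Nm_eq] at h1
  exact_mod_cast h1

theorem cj_prime {x : 𝓞 F} (h : Prime x) : Prime (cj x) := (MulEquiv.prime_iff cj).2 h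

theorem cj_dvd {x y : 𝓞 F} : cj x ∣ y ↔ x ∣ cj y := by
  constructor
  · rintro ⟨z, rfl⟩
    exact ⟨cj z, by rw [map_mul, cj_cj]⟩
  · rintro ⟨z, hz⟩
    refine ⟨cj z, ?_⟩
    rw [← cj_cj y, hz, map_mul]

theorem cj_nat (n : ℕ) : cj (n : 𝓞 F) = (n : 𝓞 F) := map_natCast _ _

theorem cj_int (n : ℤ) : cj (n : 𝓞 F) = (n : 𝓞 F) := map_intCast _ _

theorem Nm_mul (x y : 𝓞 F) : Nm (x * y) = Nm x * Nm y := by
  unfold Nm
  rw [← Ideal.span_singleton_mul_span_singleton, map_mul]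

theorem Nm_nat (n : ℕ) : Nm (n : 𝓞 F) = n ^ 2 := by
  have h1 := Nm_eq (n : 𝓞 F)
  rw [map_natCast, Complex.norm_natCast] at h1
  exact_mod_cast h1

end H55K
end

-- from Lib.H55K.G4A
section

/-! # H55K: the action on the kernel of reduction -/

open NumberField IsDedekindDomain WeierstrassCurve

namespace H55K

open H55P (IQ embF eF LF Per IsHecke Pt ac Inert Dec Nm)
open H35P (WAB Ker tt)


variable {F : Type} [Field F] [NumberField F] [IQ F] {A B : F} {Om : ℂ} {Ω : Type} [Field Ω] [DecidableEq Ω]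
  [Algebra F Ω] {j : Ω →+* ℂ} {act : 𝓞 F →+* AddMonoid.End (Pt (WAB A B) Ω)} {V : ValuationSubring Ω}

/-- Chunk G4A (S/M). gen gives a bijection from O/b (b ≠ 0) to Tor act b: a ↦ act a T₀ depends only on a modulo b; Nat.card (O ⧸ span {b}) = Nm b
(Submodule.cardQuot / Ideal.absNorm_apply; Nm b = absNorm (span {b})). -/
theorem tor_card (h : CMA F A B Om j act) {b : 𝓞 F} (hb : b ≠ 0) : Nat.card (Tor act b) = Nm b := by
  obtain ⟨T₀, hT₀, h1, h2, -⟩ := h.gen b hb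
  let f : 𝓞 F →+ Pt (WAB A B) Ω :=
    { toFun := fun a => act a T₀
      map_zero' := by rw [map_zero]; rfl
      map_add' := fun a c => by rw [map_add]; rfl }
  have hf : ∀ a, f a = act a T₀ := fun a => rfl
  have hker : f.ker = (Ideal.span {b} : Ideal (𝓞 F)).toAddSubgroup := by
    ext a
    rw [AddMonoidHom.mem_ker, hf, h2]
    exact Ideal.mem_span_singleton.symm
  have hran : f.range = Tor act b := by
    ext T
    rw [AddMonoidHom.mem_range]
    constructor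
    · rintro ⟨a, rfl⟩
      show act b (act a T₀) = 0
      have e : act b (act a T₀) = act a (act b T₀) := by
        have e1 : act (b * a) = act (a * b) := by rw [mul_comm]
        rw [map_mul, map_mul] at e1
        exact congrArg (fun φ : AddMonoid.End (Pt (WAB A B) Ω) => φ T₀) e1
      have e2 : act b T₀ = 0 := hT₀
      rw [e, e2, map_zero]
    · intro hT
      obtain ⟨a, ha⟩ := h1 T hT
      exact ⟨a, ha.symm⟩
  have h3 := AddSubgroup.index_ker f
  rw [hker, hran] at h3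
  rw [← h3]
  rfl

/-- Chunk G4A. The finite set of the nonzero elements of Tor act b. -/
theorem exists_TN (h : CMA F A B Om j act) {b : 𝓞 F} (hb : b ≠ 0) :
    ∃ S : Finset (Pt (WAB A B) Ω), TN act b S ∧ S.card = Nm b - 1 := by
  classical
  have hc := tor_card h hb
  have hN : Nm b ≠ 0 := by
    intro h0
    have h1 : Ideal.absNorm (Ideal.span {b} : Ideal (𝓞 F)) = 0 := h0
    rw [Ideal.absNorm_eq_zero_iff, Ideal.span_singleton_eq_bot] at h1
    exact hb h1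
  have hfin : Finite (Tor act b) := (Nat.card_ne_zero.1 (by rw [hc]; exact hN)).2
  have hfin2 : (Tor act b : Set (Pt (WAB A B) Ω)).Finite := hfin
  refine ⟨hfin2.toFinset.erase 0, fun T => ?_, ?_⟩
  · rw [Finset.mem_erase, Set.Finite.mem_toFinset, and_comm]
    exact Iff.rfl
  · have h0 : (0 : Pt (WAB A B) Ω) ∈ hfin2.toFinset := by
      rw [Set.Finite.mem_toFinset]
      exact (Tor act b).zero_mem
    rw [Finset.card_erase_of_mem h0, ← Nat.card_eq_card_finite_toFinset, ← hc]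
    rfl

/-- Chunk G4A. act (Nm b) = act (b * cj b) (mul_cj), act n = n • (map_natCast). -/
theorem tor_nm {b : 𝓞 F} {T : Pt (WAB A B) Ω} (hT : act b T = 0) : Nm b • T = 0 := by
  have h1 : act (Nm b : 𝓞 F) T = Nm b • T := by
    rw [map_natCast]
    rfl
  have h2 : act (Nm b : 𝓞 F) T = act (cj b) (act b T) := by
    have e1 : (Nm b : 𝓞 F) = cj b * b := by rw [← mul_cj, mul_comm]
    rw [e1, map_mul]
    rfl
  rw [← h1, h2, hT, map_zero]

end H55K
end

-- from Lib.H55P.B14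
section

open NumberField IsDedekindDomain MeasureTheory

namespace H55P

open H55N
open H55B (g)

variable {F : Type} [Field F] [NumberField F] [IQ F] {K : Type} [Field K] [NumberField K] [Algebra F K] {m : ℕ}
  {P ι : Type} [Fintype ι] [DecidableEq ι]

/-! Chunk B14 (M/L). Complex powers of the quadratic forms.
good_tau: h = 1 + τ Q_t(x), β = h itself on Y: SV uniformly in τ > 0, a <= t <= b (c sz^2 <= Q_t <= C sz^2 on Y by Q_low, Q_up, and sz is SV); h is Good with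
weight β (Q_t is Good with weight sz^2, good_Q; τ sz^2 <= C β; the constant 1); Good.inv, Good.pow.
good_Qpow: choose a natural number k > r1. For every y in Y: Q^(-z) = B(z)^(-1) int_0^oo τ^(z-1) (1+τ Q)^(-k) dτ (beta_eq), B(z) = Gamma(z) Gamma(k-z)/Gamma(k), so
D_S Q^(-z)(x) = B(z)^(-1) int τ^(z-1) D_S (1+τ Q)^(-k)(x) dτ and |..| <= |B(z)|^(-1) C int τ^(Re z - 1) (1+τ Q_t(x))^(-k) dτ prod γ =
C B(Re z)/|B(z)| Q_t(x)^(-Re z) prod γ, with good_tau (P replaced by P x {τ > 0}); |B(z)| is bounded below and B(Re z) above on the compact set r0 <= Re z <= r1, |z| <= M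
(continuous, Gamma has no zeros); Q_t(x)^(-Re z) <= C sz^(-2 Re z) <= C sz^(-2 r0). -/

theorem B14_tau_sv (D : Ctx F K m) (hE : Emb F D.σ) (w : ι → 𝓞 K) (Y : Set (𝓞 K))
    (hY : ∀ x ∈ Y, ∀ i, x - w i ∈ Y) (h0 : (0 : 𝓞 K) ∉ Y) (t : P → Fin (m + 1) → ℝ) (a b : ℝ)
    (ha : 0 < a) (ht : ∀ q i, a ≤ t q i ∧ t q i ≤ b) (τ : P → ℝ) (hτ : ∀ q, 0 < τ q) :
    SV Y w (fun q x => 1 + τ q * D.Q (t q) x) := by
  obtain ⟨c, hc, hlow⟩ := Q_low D hE a ha
  obtain ⟨C, hC, hup⟩ := Q_up D |b| (abs_nonneg b)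
  obtain ⟨_, C1, hC1⟩ := SV.pow hY (sv_sz (P := Unit) D w Y) 2
  have hne : ∀ x ∈ Y, x ≠ 0 := fun x hx h => h0 (h ▸ hx)
  have habs : ∀ q i, |t q i| ≤ |b| := by
    intro q i
    rw [abs_of_pos (lt_of_lt_of_le ha (ht q i).1)]
    exact (ht q i).2.trans (le_abs_self b)
  have hl : ∀ q, ∀ x ∈ Y, c * D.sz x ^ 2 ≤ D.Q (t q) x := fun q x hx =>
    hlow (t q) (fun i => (ht q i).1) x (hne x hx)
  have hu : ∀ q x, D.Q (t q) x ≤ C * D.sz x ^ 2 := fun q x =>
    (le_abs_self _).trans (hup (t q) (habs q) x)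
  have hQpos : ∀ q, ∀ x ∈ Y, 0 < D.Q (t q) x := fun q x hx =>
    lt_of_lt_of_le (mul_pos hc (pow_pos (D.sz_pos x) 2)) (hl q x hx)
  have key : ∀ q, ∀ x ∈ Y, ∀ y ∈ Y, D.sz x ^ 2 ≤ C1 * D.sz y ^ 2 →
      1 + τ q * D.Q (t q) x ≤ max 1 (C * C1 / c) * (1 + τ q * D.Q (t q) y) := by
    intro q x hx y hy h
    have h1 : D.Q (t q) x ≤ (C * C1 / c) * D.Q (t q) y := by
      have hC1' : 0 ≤ C1 := by
        by_contra hneg
        push Not at hneg
        have h2 : 0 < D.sz x ^ 2 := pow_pos (D.sz_pos x) 2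
        have h3 : 0 < D.sz y ^ 2 := pow_pos (D.sz_pos y) 2
        have h4 := mul_neg_of_neg_of_pos hneg h3
        linarith
      calc D.Q (t q) x ≤ C * D.sz x ^ 2 := hu q x
        _ ≤ C * (C1 * D.sz y ^ 2) := mul_le_mul_of_nonneg_left h hC.le
        _ = (C * C1 / c) * (c * D.sz y ^ 2) := by field_simp
        _ ≤ (C * C1 / c) * D.Q (t q) y :=
          mul_le_mul_of_nonneg_left (hl q y hy) (by positivity)
    have h2 : D.Q (t q) x ≤ max 1 (C * C1 / c) * D.Q (t q) y :=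
      h1.trans (mul_le_mul_of_nonneg_right (le_max_right _ _) (hQpos q y hy).le)
    have h3 := mul_le_mul_of_nonneg_left h2 (hτ q).le
    have h4 : (1 : ℝ) ≤ max 1 (C * C1 / c) := le_max_left _ _
    nlinarith
  refine ⟨fun q x hx => ?_, max 1 (C * C1 / c), fun q x hx i => ⟨?_, ?_⟩⟩
  · have := mul_pos (hτ q) (hQpos q x hx)
    linarith
  · exact key q _ (hY x hx i) x hx (hC1 () x hx i).1
  · exact key q x hx _ (hY x hx i) (hC1 () x hx i).2

theorem B14_tau_good (D : Ctx F K m) (hE : Emb F D.σ) (w : ι → 𝓞 K) (Y : Set (𝓞 K))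
    (hY : ∀ x ∈ Y, ∀ i, x - w i ∈ Y) (h0 : (0 : 𝓞 K) ∉ Y) (t : P → Fin (m + 1) → ℝ) (a b : ℝ)
    (ha : 0 < a) (ht : ∀ q i, a ≤ t q i ∧ t q i ≤ b) (τ : P → ℝ) (hτ : ∀ q, 0 < τ q) :
    Good Y w D.gs (fun q x => 1 + τ q * D.Q (t q) x)
      (fun q x => 1 + (τ q : ℂ) * (D.Q (t q) x : ℂ)) := by
  obtain ⟨c, hc, hlow⟩ := Q_low D hE a ha
  have hne : ∀ x ∈ Y, x ≠ 0 := fun x hx h => h0 (h ▸ hx)
  have habs : ∀ q i, |t q i| ≤ |b| := by
    intro q i
    rw [abs_of_pos (lt_of_lt_of_le ha (ht q i).1)]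
    exact (ht q i).2.trans (le_abs_self b)
  have hl : ∀ q, ∀ x ∈ Y, c * D.sz x ^ 2 ≤ D.Q (t q) x := fun q x hx =>
    hlow (t q) (fun i => (ht q i).1) x (hne x hx)
  have hQpos : ∀ q, ∀ x ∈ Y, 0 < D.Q (t q) x := fun q x hx =>
    lt_of_lt_of_le (mul_pos hc (pow_pos (D.sz_pos x) 2)) (hl q x hx)
  have hβ : ∀ q, ∀ x ∈ Y, 0 ≤ 1 + τ q * D.Q (t q) x := by
    intro q x hx
    have := mul_pos (hτ q) (hQpos q x hx)
    linarith
  have hγ : ∀ i : ι, ∀ x ∈ Y, 0 ≤ D.gs i x := fun i x _ => inv_nonneg.2 (D.sz_pos x).le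
  refine Good.add ?_ ?_
  · refine Good.const hβ hγ (fun _ => 1) 1 ?_
    intro q x hx
    have := mul_pos (hτ q) (hQpos q x hx)
    rw [norm_one]
    linarith
  · obtain ⟨C, hC⟩ := good_Q D w Y hY t |b| habs
    refine ⟨|C| / c, ?_⟩
    intro q S x hx
    have e1 : Dif w S ((fun q x => (τ q : ℂ) * (D.Q (t q) x : ℂ)) q) x =
        (τ q : ℂ) * Dif w S (fun x => (D.Q (t q) x : ℂ)) x :=
      dif_const_mul w S (τ q : ℂ) (fun x => (D.Q (t q) x : ℂ)) x
    have hp0 : 0 ≤ ∏ i ∈ S, D.gs i x := Finset.prod_nonneg fun i _ => hγ i x hx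
    rw [e1, norm_mul, Complex.norm_real, Real.norm_eq_abs, abs_of_pos (hτ q)]
    have h1 := hC q S x hx
    have h2 : C * D.sz x ^ 2 ≤ |C| / c * D.Q (t q) x := by
      calc C * D.sz x ^ 2 ≤ |C| * D.sz x ^ 2 :=
            mul_le_mul_of_nonneg_right (le_abs_self C) (by positivity)
        _ = |C| / c * (c * D.sz x ^ 2) := by field_simp
        _ ≤ |C| / c * D.Q (t q) x := mul_le_mul_of_nonneg_left (hl q x hx) (by positivity)
    calc τ q * ‖Dif w S (fun x => (D.Q (t q) x : ℂ)) x‖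
        ≤ τ q * ((|C| / c * D.Q (t q) x) * ∏ i ∈ S, D.gs i x) :=
          mul_le_mul_of_nonneg_left (h1.trans (mul_le_mul_of_nonneg_right h2 hp0)) (hτ q).le
      _ = (|C| / c * (τ q * D.Q (t q) x)) * ∏ i ∈ S, D.gs i x := by ring
      _ ≤ |C| / c * (1 + τ q * D.Q (t q) x) * ∏ i ∈ S, D.gs i x := by
          apply mul_le_mul_of_nonneg_right _ hp0
          apply mul_le_mul_of_nonneg_left _ (by positivity)
          linarith

theorem good_tau (D : Ctx F K m) (hE : Emb F D.σ) (w : ι → 𝓞 K) (Y : Set (𝓞 K))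
    (hY : ∀ x ∈ Y, ∀ i, x - w i ∈ Y) (h0 : (0 : 𝓞 K) ∉ Y) (t : P → Fin (m + 1) → ℝ) (a b : ℝ)
    (ha : 0 < a) (ht : ∀ q i, a ≤ t q i ∧ t q i ≤ b) (τ : P → ℝ) (hτ : ∀ q, 0 < τ q) (k : ℕ) :
    Good Y w D.gs (fun q x => ((1 + τ q * D.Q (t q) x) ^ k)⁻¹)
      (fun q x => ((((1 + τ q * D.Q (t q) x) ^ k)⁻¹ : ℝ) : ℂ)) := by
  have hsv := B14_tau_sv D hE w Y hY h0 t a b ha ht τ hτ
  have hg := B14_tau_good D hE w Y hY h0 t a b ha ht τ hτ
  have hγ := sv_gs D w Y
  have hinv := Good.inv hY hγ hsv hg 1 one_pos (by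
    intro q x hx
    have h1 := hsv.1 q x hx
    have h2 : (1 + (τ q : ℂ) * (D.Q (t q) x : ℂ)) = ((1 + τ q * D.Q (t q) x : ℝ) : ℂ) := by
      push_cast; ring
    rw [one_mul, h2, Complex.norm_real, Real.norm_eq_abs, abs_of_pos h1])
  have hpow := Good.pow hY hγ (SV.inv hY hsv) hinv k
  have e1 : (fun (q : P) (x : 𝓞 K) => ((1 + τ q * D.Q (t q) x) ^ k)⁻¹) =
      fun q x => ((1 + τ q * D.Q (t q) x)⁻¹) ^ k := by
    funext q x
    rw [inv_pow]
  have e2 : (fun (q : P) (x : 𝓞 K) => ((((1 + τ q * D.Q (t q) x) ^ k)⁻¹ : ℝ) : ℂ)) =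
      fun q x => ((1 + (τ q : ℂ) * (D.Q (t q) x : ℂ))⁻¹) ^ k := by
    funext q x
    rw [inv_pow]
    push_cast
    ring
  rw [e1, e2]
  exact hpow

/-- The normalising factor of the beta integral. -/
noncomputable def B14_B (k : ℕ) (z : ℂ) : ℂ :=
  Complex.Gamma z * Complex.Gamma (k - z) / Complex.Gamma k

theorem B14_B_ne (k : ℕ) (z : ℂ) (h0 : 0 < z.re) (hk : z.re < k) : B14_B k z ≠ 0 := by
  have hk0 : (0 : ℝ) < k := h0.trans hk
  refine div_ne_zero (mul_ne_zero (Complex.Gamma_ne_zero_of_re_pos h0)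
    (Complex.Gamma_ne_zero_of_re_pos ?_)) (Complex.Gamma_ne_zero_of_re_pos ?_)
  · rw [Complex.sub_re, Complex.natCast_re]
    linarith
  · rw [Complex.natCast_re]
    exact hk0

theorem B14_B_cont (k : ℕ) (z : ℂ) (h0 : 0 < z.re) (hk : z.re < k) :
    ContinuousAt (B14_B k) z := by
  have hk0 : (0 : ℝ) < k := h0.trans hk
  have hG : ∀ u : ℂ, 0 < u.re → ContinuousAt Complex.Gamma u := fun u hu =>
    (Complex.differentiableAt_Gamma u fun n hn => by
      rw [hn, Complex.neg_re, Complex.natCast_re] at hu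
      have : (0 : ℝ) ≤ n := Nat.cast_nonneg n
      linarith).continuousAt
  have h1 : ContinuousAt (fun z : ℂ => Complex.Gamma (k - z)) z := by
    have h2 := hG (k - z) (by rw [Complex.sub_re, Complex.natCast_re]; linarith)
    exact ContinuousAt.comp (f := fun z : ℂ => (k : ℂ) - z) h2 (by fun_prop)
  exact ((hG z h0).mul h1).div_const _

theorem B14_ratio (k : ℕ) (r₀ M : ℝ) (hr : 0 < r₀) (hM : M < k) : ∃ C : ℝ, 0 ≤ C ∧
    ∀ z : ℂ, r₀ ≤ z.re → ‖z‖ ≤ M → ‖B14_B k z.re‖ * ‖B14_B k z‖⁻¹ ≤ C := by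
  have hcomp : IsCompact ({z : ℂ | r₀ ≤ z.re} ∩ Metric.closedBall (0 : ℂ) M) := by
    refine IsCompact.inter_left (isCompact_closedBall 0 M) ?_
    exact isClosed_le continuous_const Complex.continuous_re
  have hre : ∀ z ∈ ({z : ℂ | r₀ ≤ z.re} ∩ Metric.closedBall (0 : ℂ) M), 0 < z.re ∧ z.re < k := by
    intro z hz
    have h1 : r₀ ≤ z.re := hz.1
    have h2 : ‖z‖ ≤ M := by
      have := hz.2
      rwa [mem_closedBall_zero_iff] at this
    exact ⟨lt_of_lt_of_le hr h1, lt_of_le_of_lt ((Complex.re_le_norm z).trans h2) hM⟩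
  have hcont : ContinuousOn (fun z : ℂ => ‖B14_B k z.re‖ * ‖B14_B k z‖⁻¹)
      ({z : ℂ | r₀ ≤ z.re} ∩ Metric.closedBall (0 : ℂ) M) := by
    intro z hz
    obtain ⟨h1, h2⟩ := hre z hz
    apply ContinuousAt.continuousWithinAt
    have h3 : ContinuousAt (fun z : ℂ => B14_B k (z.re : ℂ)) z := by
      have h4 := B14_B_cont k (z.re : ℂ) (by simpa using h1) (by simpa using h2)
      exact ContinuousAt.comp (f := fun z : ℂ => (z.re : ℂ)) h4 (by fun_prop)
    refine h3.norm.mul ((B14_B_cont k z h1 h2).norm.inv₀ ?_)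
    rw [norm_ne_zero_iff]
    exact B14_B_ne k z h1 h2
  obtain ⟨C, hC⟩ := hcomp.exists_bound_of_continuousOn hcont
  refine ⟨|C|, abs_nonneg C, ?_⟩
  intro z h1 h2
  have h3 := hC z ⟨h1, by rw [mem_closedBall_zero_iff]; exact h2⟩
  rw [Real.norm_eq_abs] at h3
  exact (le_abs_self _).trans (h3.trans (le_abs_self C))

/-- The real beta integral. -/
theorem B14_real (k : ℕ) (r q : ℝ) (hr : 0 < r) (hk : r < k) (hq : 0 < q) :
    IntegrableOn (fun τ : ℝ => τ ^ (r - 1) * ((1 + τ * q) ^ k)⁻¹) (Set.Ioi 0) ∧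
    ∫ τ in Set.Ioi (0 : ℝ), τ ^ (r - 1) * ((1 + τ * q) ^ k)⁻¹ = q ^ (-r) * ‖B14_B k r‖ := by
  have hi := beta_integrable (r : ℂ) k (by simpa using hr) (by simpa using hk) q hq
  have he := beta_eq (r : ℂ) k (by simpa using hr) (by simpa using hk) q hq
  have hcongr : ∀ τ ∈ Set.Ioi (0 : ℝ), (τ : ℂ) ^ ((r : ℂ) - 1) * (((1 + τ * q) ^ k)⁻¹ : ℝ) =
      ((τ ^ (r - 1) * ((1 + τ * q) ^ k)⁻¹ : ℝ) : ℂ) := by
    intro τ hτ
    rw [Complex.ofReal_mul, Complex.ofReal_cpow (le_of_lt hτ)]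
    push_cast
    ring
  have hi2 : IntegrableOn (fun τ : ℝ => ((τ ^ (r - 1) * ((1 + τ * q) ^ k)⁻¹ : ℝ) : ℂ))
      (Set.Ioi 0) := (integrableOn_congr_fun hcongr measurableSet_Ioi).1 hi
  have hi3 : IntegrableOn (fun τ : ℝ => τ ^ (r - 1) * ((1 + τ * q) ^ k)⁻¹) (Set.Ioi 0) := by
    have := hi2.re
    exact this
  refine ⟨hi3, ?_⟩
  rw [setIntegral_congr_fun measurableSet_Ioi hcongr, integral_complex_ofReal] at he
  have h0 : 0 ≤ ∫ τ in Set.Ioi (0 : ℝ), τ ^ (r - 1) * ((1 + τ * q) ^ k)⁻¹ := by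
    refine setIntegral_nonneg measurableSet_Ioi fun τ hτ => ?_
    have hτ' : (0 : ℝ) < τ := hτ
    positivity
  have h1 := congrArg norm he
  rw [Complex.norm_real, Real.norm_eq_abs, abs_of_nonneg h0, norm_mul] at h1
  rw [h1]
  congr 1
  rw [Complex.norm_cpow_eq_rpow_re_of_pos hq]
  simp

theorem good_Qpow (D : Ctx F K m) (hE : Emb F D.σ) (w : ι → 𝓞 K) (Y : Set (𝓞 K))
    (hY : ∀ x ∈ Y, ∀ i, x - w i ∈ Y) (h0 : (0 : 𝓞 K) ∉ Y) (t : P → Fin (m + 1) → ℝ) (a b : ℝ)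
    (ha : 0 < a) (ht : ∀ q i, a ≤ t q i ∧ t q i ≤ b) (z : P → ℂ) (r₀ M : ℝ) (hr : 0 < r₀)
    (hz : ∀ q, r₀ ≤ (z q).re ∧ ‖z q‖ ≤ M) :
    Good Y w D.gs (fun (_ : P) x => D.sz x ^ (-2 * r₀))
      (fun q x => (D.Q (t q) x : ℂ) ^ (-(z q))) := by
  obtain ⟨k, hk⟩ := exists_nat_gt M
  obtain ⟨c, hc, hlow⟩ := Q_low D hE a ha
  have hne : ∀ x ∈ Y, x ≠ 0 := fun x hx h => h0 (h ▸ hx)
  have hl : ∀ q, ∀ x ∈ Y, c * D.sz x ^ 2 ≤ D.Q (t q) x := fun q x hx =>
    hlow (t q) (fun i => (ht q i).1) x (hne x hx)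
  have hQpos : ∀ q, ∀ x ∈ Y, 0 < D.Q (t q) x := fun q x hx =>
    lt_of_lt_of_le (mul_pos hc (pow_pos (D.sz_pos x) 2)) (hl q x hx)
  obtain ⟨C, hC⟩ := good_tau (P := P × {τ : ℝ // 0 < τ}) D hE w Y hY h0 (fun q => t q.1) a b ha
    (fun q i => ht q.1 i) (fun q => q.2.1) (fun q => q.2.2) k
  obtain ⟨C2, hC2, hratio⟩ := B14_ratio k r₀ M hr hk
  have hstab : ∀ T : Finset ι, ∀ x ∈ Y, x - ∑ i ∈ T, w i ∈ Y := by
    intro T
    induction T using Finset.induction_on with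
    | empty => intro x hx; simpa using hx
    | insert a T ha ih =>
      intro x hx
      rw [Finset.sum_insert ha, ← sub_sub]
      exact ih _ (hY x hx a)
  refine ⟨|C| * C2 * (max 1 c⁻¹) ^ M, ?_⟩
  intro q S x hx
  obtain ⟨hz1, hz2⟩ := hz q
  have hre0 : 0 < (z q).re := lt_of_lt_of_le hr hz1
  have hreM : (z q).re ≤ M := (Complex.re_le_norm _).trans hz2
  have hrek : (z q).re < k := lt_of_le_of_lt hreM hk
  have hBne := B14_B_ne k (z q) hre0 hrek
  have hp0 : 0 ≤ ∏ i ∈ S, D.gs i x :=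
    Finset.prod_nonneg fun i _ => inv_nonneg.2 (D.sz_pos x).le
  -- the representation of the difference
  have hrep : Dif w S (fun x => (D.Q (t q) x : ℂ) ^ (-(z q))) x =
      (B14_B k (z q))⁻¹ * ∫ τ in Set.Ioi (0 : ℝ), (τ : ℂ) ^ (z q - 1) *
        Dif w S (fun x => ((((1 + τ * D.Q (t q) x) ^ k)⁻¹ : ℝ) : ℂ)) x := by
    have h1 : ∀ y ∈ Y, (D.Q (t q) y : ℂ) ^ (-(z q)) = (B14_B k (z q))⁻¹ *
        ∫ τ in Set.Ioi (0 : ℝ), (τ : ℂ) ^ (z q - 1) * ((((1 + τ * D.Q (t q) y) ^ k)⁻¹ : ℝ) : ℂ) := by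
      intro y hy
      rw [beta_eq (z q) k hre0 hrek _ (hQpos q y hy)]
      change _ = (B14_B k (z q))⁻¹ * (_ * B14_B k (z q))
      field_simp
    have h2 : ∀ T ∈ S.powerset, (-1 : ℂ) ^ T.card * (D.Q (t q) (x - ∑ i ∈ T, w i) : ℂ) ^ (-(z q)) =
        (B14_B k (z q))⁻¹ * ∫ τ in Set.Ioi (0 : ℝ), (-1 : ℂ) ^ T.card * ((τ : ℂ) ^ (z q - 1) *
          ((((1 + τ * D.Q (t q) (x - ∑ i ∈ T, w i)) ^ k)⁻¹ : ℝ) : ℂ)) := by
      intro T _
      rw [h1 _ (hstab T x hx), integral_const_mul]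
      ring
    unfold Dif
    rw [Finset.sum_congr rfl h2, ← Finset.mul_sum, ← integral_finsetSum]
    · congr 1
      refine setIntegral_congr_fun measurableSet_Ioi fun τ _ => ?_
      simp only [Finset.mul_sum]
      exact Finset.sum_congr rfl fun T _ => by ring
    · intro T _
      exact (beta_integrable (z q) k hre0 hrek _ (hQpos q _ (hstab T x hx))).const_mul _
  obtain ⟨hi, he⟩ := B14_real k (z q).re (D.Q (t q) x) hre0 hrek (hQpos q x hx)
  have hint : ‖∫ τ in Set.Ioi (0 : ℝ), (τ : ℂ) ^ (z q - 1) *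
        Dif w S (fun x => ((((1 + τ * D.Q (t q) x) ^ k)⁻¹ : ℝ) : ℂ)) x‖ ≤
      (|C| * ∏ i ∈ S, D.gs i x) * (D.Q (t q) x ^ (-(z q).re) * ‖B14_B k (z q).re‖) := by
    rw [← he, ← integral_const_mul]
    refine norm_integral_le_of_norm_le (hi.const_mul _) ?_
    refine (ae_restrict_iff' measurableSet_Ioi).2 (Filter.Eventually.of_forall fun τ hτ => ?_)
    have hτ' : (0 : ℝ) < τ := hτ
    rw [norm_mul, Complex.norm_cpow_eq_rpow_re_of_pos hτ']
    have h1 := hC (q, ⟨τ, hτ'⟩) S x hx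
    have h2 : C * ((1 + τ * D.Q (t q) x) ^ k)⁻¹ ≤ |C| * ((1 + τ * D.Q (t q) x) ^ k)⁻¹ := by
      apply mul_le_mul_of_nonneg_right (le_abs_self C)
      have := mul_pos hτ' (hQpos q x hx)
      positivity
    have h3 : (z q - 1).re = (z q).re - 1 := by simp
    rw [h3]
    calc τ ^ ((z q).re - 1) * ‖Dif w S (fun x => ((((1 + τ * D.Q (t q) x) ^ k)⁻¹ : ℝ) : ℂ)) x‖
        ≤ τ ^ ((z q).re - 1) * ((|C| * ((1 + τ * D.Q (t q) x) ^ k)⁻¹) * ∏ i ∈ S, D.gs i x) :=
          mul_le_mul_of_nonneg_left (h1.trans (mul_le_mul_of_nonneg_right h2 hp0))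
            (by positivity)
      _ = (|C| * ∏ i ∈ S, D.gs i x) *
            (τ ^ ((z q).re - 1) * ((1 + τ * D.Q (t q) x) ^ k)⁻¹) := by ring
  have hQle : D.Q (t q) x ^ (-(z q).re) ≤ (max 1 c⁻¹) ^ M * D.sz x ^ (-2 * r₀) := by
    have hs := D.sz_pos x
    have hs1 := D.one_le_sz x
    calc D.Q (t q) x ^ (-(z q).re) ≤ (c * D.sz x ^ 2) ^ (-(z q).re) :=
          Real.rpow_le_rpow_of_nonpos (by positivity) (hl q x hx) (by linarith)
      _ = c⁻¹ ^ (z q).re * D.sz x ^ (-2 * (z q).re) := by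
          rw [Real.mul_rpow hc.le (by positivity), Real.rpow_neg hc.le, Real.inv_rpow hc.le,
            ← Real.rpow_natCast, ← Real.rpow_mul hs.le]
          congr 2
          push_cast
          ring
      _ ≤ (max 1 c⁻¹) ^ M * D.sz x ^ (-2 * r₀) := by
          apply mul_le_mul
          · calc c⁻¹ ^ (z q).re ≤ (max 1 c⁻¹) ^ (z q).re :=
                Real.rpow_le_rpow (by positivity) (le_max_right _ _) hre0.le
              _ ≤ (max 1 c⁻¹) ^ M := Real.rpow_le_rpow_of_exponent_le (le_max_left _ _) hreM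
          · exact Real.rpow_le_rpow_of_exponent_le hs1 (by linarith)
          · positivity
          · positivity
  change ‖Dif w S (fun x => (D.Q (t q) x : ℂ) ^ (-(z q))) x‖ ≤ _
  rw [hrep, norm_mul, norm_inv]
  calc ‖B14_B k (z q)‖⁻¹ * ‖∫ τ in Set.Ioi (0 : ℝ), (τ : ℂ) ^ (z q - 1) *
        Dif w S (fun x => ((((1 + τ * D.Q (t q) x) ^ k)⁻¹ : ℝ) : ℂ)) x‖
      ≤ ‖B14_B k (z q)‖⁻¹ * ((|C| * ∏ i ∈ S, D.gs i x) *
          (D.Q (t q) x ^ (-(z q).re) * ‖B14_B k (z q).re‖)) :=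
        mul_le_mul_of_nonneg_left hint (by positivity)
    _ = (|C| * ∏ i ∈ S, D.gs i x) * (D.Q (t q) x ^ (-(z q).re) *
          (‖B14_B k (z q).re‖ * ‖B14_B k (z q)‖⁻¹)) := by ring
    _ ≤ (|C| * ∏ i ∈ S, D.gs i x) * (((max 1 c⁻¹) ^ M * D.sz x ^ (-2 * r₀)) * C2) := by
        apply mul_le_mul_of_nonneg_left _ (by positivity)
        exact mul_le_mul hQle (hratio (z q) hz1 hz2) (by positivity)
          (by have := D.sz_pos x; positivity)
    _ = |C| * C2 * (max 1 c⁻¹) ^ M * D.sz x ^ (-2 * r₀) * ∏ i ∈ S, D.gs i x := by ring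

/-- The family fs: conj N is a product of m+1 functions conj(σ_i x) (Good.prod, good_sig, Good.conj). -/
theorem good_fs (D : Ctx F K m) (hE : Emb F D.σ) (w : ι → 𝓞 K) (Y : Set (𝓞 K))
    (hY : ∀ x ∈ Y, ∀ i, x - w i ∈ Y) (h0 : (0 : 𝓞 K) ∉ Y) (t : P → Fin (m + 1) → ℝ) (a b : ℝ)
    (ha : 0 < a) (ht : ∀ q i, a ≤ t q i ∧ t q i ≤ b) (s : P → ℂ) (r M : ℝ) (hr : 0 < r)
    (hs : ∀ q, r ≤ (s q).re ∧ ‖s q‖ ≤ M) :
    Good Y w D.gs (fun (_ : P) x => D.sz x ^ ((m + 1 : ℝ) - 2 * (m + 1) * r))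
      (fun q x => D.fs (t q) (s q) x) := by
  have hγ := sv_gs D w Y
  have hsz := sv_sz (P := P) D w Y
  have h1 := good_Qpow D hE w Y hY h0 t a b ha ht (fun q => ((m + 1 : ℕ) : ℂ) * s q)
    ((m + 1) * r) ((m + 1) * M) (by positivity) (by
      intro q
      obtain ⟨h1, h2⟩ := hs q
      constructor
      · rw [Complex.mul_re, Complex.natCast_re, Complex.natCast_im, zero_mul, sub_zero]
        push_cast
        exact mul_le_mul_of_nonneg_left h1 (by positivity)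
      · rw [norm_mul, Complex.norm_natCast]
        push_cast
        exact mul_le_mul_of_nonneg_left h2 (by positivity))
  have h2 := Good.prod hY hγ (Finset.univ : Finset (Fin (m + 1)))
    (fun _ (_ : P) x => D.sz x) (fun i (_ : P) x => D.σ i x) (fun _ _ => hsz)
    (fun i _ => good_sig D w Y i)
  have h3 := Good.conj h2
  have hsv1 := SV.prod hY (Finset.univ : Finset (Fin (m + 1)))
    (fun _ (_ : P) x => D.sz x) (fun _ _ => hsz)
  have hsv2 := SV.rpow hsz hY (-2 * ((m + 1) * r))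
  have h4 := Good.mul hY hγ hsv1 hsv2 h3 h1
  have e1 : (fun (_ : P) x => D.sz x ^ ((m + 1 : ℝ) - 2 * (m + 1) * r)) =
      fun (_ : P) x => (∏ _i : Fin (m + 1), D.sz x) * D.sz x ^ (-2 * ((m + 1) * r)) := by
    funext q x
    have hs0 := D.sz_pos x
    rw [Finset.prod_const, Finset.card_univ, Fintype.card_fin, ← Real.rpow_natCast,
      ← Real.rpow_add hs0]
    congr 1
    push_cast
    ring
  rw [e1]
  exact h4

end H55P
end

-- from Lib.H55P.B2
section

open NumberField IsDedekindDomain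

namespace H55P

open H55N
open H55B (g)

variable {F : Type} [Field F] [NumberField F] [IQ F] {K : Type} [Field K] [NumberField K] [Algebra F K] {m : ℕ}

/-! Chunk B2 (M). Lattice sums.
sum_l: by hint choose for x in Y a vector y(x) in O^(m+1) with Tr(A_k x) = e(y(x)_k); the map x -> y(x) is injective (Tr_inj), and
sum over O^(m+1) of prod (1+|e y_k|)^(-r) converges (B1 with H55B.summable_e).
sum_sz: choose an F-basis A of K consisting of elements of O_K (scale a basis by an integer: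
exists_integral_multiple, or a localization basis); then Tr(A_k x) is in e(O) for all x in O_K (Tr_eq; the trace of an
algebraic integer is an algebraic integer of F), |Tr(A_k x)| <= C sz x, so sz(x)^(-r) <= C' prod_k (1+|Tr(A_k x)|)^(-r/(m+1))
with r/(m+1) > 2; sum_l with Y = univ.
Tr_le: |Tr(a,x)| <= C sz x. -/

theorem Tr_le (D : Ctx F K m) (a : K) : ∃ C : ℝ, 0 < C ∧ ∀ x : 𝓞 K, 1 + ‖D.Tr a x‖ ≤ C * D.sz x := by
  have hM : 0 ≤ ∑ i, ‖D.σ i a‖ := Finset.sum_nonneg fun i _ => norm_nonneg _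
  refine ⟨1 + ∑ i, ‖D.σ i a‖, by linarith, fun x => ?_⟩
  have h1 : ‖D.Tr a x‖ ≤ ∑ i, ‖D.σ i a‖ * D.sz x := by
    unfold Ctx.Tr
    refine (norm_sum_le _ _).trans (Finset.sum_le_sum fun i _ => ?_)
    rw [map_mul, norm_mul, mul_comm]
    exact mul_le_mul_of_nonneg_left (D.norm_le_sz x i) (norm_nonneg _)
  rw [← Finset.sum_mul] at h1
  have h2 := D.one_le_sz x
  linarith

theorem sum_l (D : Ctx F K m) (hE : Emb F D.σ) (Y : Set (𝓞 K)) (A : Fin (m + 1) → K)
    (hA : LinearIndependent F A) (hint : ∀ x ∈ Y, ∀ k, ∃ y : (𝓞 F), D.Tr (A k) x = (eF F) y) (r : ℝ)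
    (hr : 2 < r) : Summable fun x : Y => ∏ k, (1 + ‖D.Tr (A k) x‖) ^ (-r) := by
  choose y hy using fun (x : Y) (k : Fin (m + 1)) => hint x x.2 k
  have h1 : Function.Injective y := by
    intro x x' hxx
    apply Subtype.ext
    apply Tr_inj D hE A hA
    intro k
    rw [hy x k, hy x' k, hxx]
  have h2 := pi_summable (m + 1) (fun _ (z : (𝓞 F)) => (1 + ‖(eF F) z‖) ^ (-r))
    (fun _ z => by positivity) (fun _ => summable_e hr)
  have h3 := h2.comp_injective h1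
  refine h3.congr fun x => ?_
  refine Finset.prod_congr rfl fun k _ => ?_
  rw [hy x k]

theorem b2_basis (D : Ctx F K m) (hE : Emb F D.σ) : ∃ A : Fin (m + 1) → K, LinearIndependent F A ∧
    ∀ (x : 𝓞 K) k, ∃ y : (𝓞 F), D.Tr (A k) x = (eF F) y := by
  haveI := a1_fin hE.fin
  let b : Module.Basis (Fin (m + 1)) F K := Module.finBasisOfFinrankEq F K hE.fin
  have halg : ∀ i, IsAlgebraic ℤ (b i) := fun i =>
    (IsFractionRing.isAlgebraic_iff ℤ ℚ K).2 (Algebra.IsAlgebraic.isAlgebraic (b i))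
  choose y hy0 hy using fun i => (halg i).exists_integral_multiple
  have hyF : ∀ i, ((y i : ℤ) : F) ≠ 0 := fun i => Int.cast_ne_zero.2 (hy0 i)
  refine ⟨fun i => y i • b i, ?_, ?_⟩
  · have h1 := b.linearIndependent.units_smul (fun i => Units.mk0 ((y i : ℤ) : F) (hyF i))
    have h2 : (fun i => Units.mk0 ((y i : ℤ) : F) (hyF i)) • (b : Fin (m + 1) → K) =
        fun i => y i • b i := by
      funext i
      show ((y i : ℤ) : F) • b i = y i • b i
      rw [Int.cast_smul_eq_zsmul]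
    rw [h2] at h1
    exact h1
  · intro x k
    have hi : IsIntegral ℤ (Algebra.trace F K ((x : K) * (y k • b k))) :=
      Algebra.isIntegral_trace (x.2.mul (hy k))
    refine ⟨⟨_, hi⟩, ?_⟩
    rw [Tr_eq D hE]
    rfl

theorem sum_sz (D : Ctx F K m) (hE : Emb F D.σ) (r : ℝ) (hr : 2 * (m + 1 : ℝ) < r) :
    Summable fun x : 𝓞 K => D.sz x ^ (-r) := by
  obtain ⟨A, hA, hint⟩ := b2_basis D hE
  set ρ : ℝ := r / (m + 1) with hρ
  have hm : (0 : ℝ) < m + 1 := by positivity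
  have hρ2 : 2 < ρ := by
    rw [hρ, lt_div_iff₀ hm]
    exact hr
  have hρr : ρ * (m + 1) = r := by
    rw [hρ]
    field_simp
  have h1 := sum_l D hE Set.univ A hA (fun x _ k => hint x k) ρ hρ2
  have h2 : Summable fun x : 𝓞 K => ∏ k, (1 + ‖D.Tr (A k) x‖) ^ (-ρ) := by
    rw [← (Equiv.Set.univ (𝓞 K)).summable_iff]
    exact h1
  choose C hC0 hC using fun k => Tr_le D (A k)
  set M : ℝ := ∑ k, C k with hM
  have hM0 : 0 < M := Finset.sum_pos (fun k _ => hC0 k) Finset.univ_nonempty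
  have hCM : ∀ k, C k ≤ M := fun k =>
    Finset.single_le_sum (f := C) (fun k _ => (hC0 k).le) (Finset.mem_univ k)
  refine (h2.mul_left (M ^ r)).of_nonneg_of_le (fun x => Real.rpow_nonneg (D.sz_pos x).le _)
    fun x => ?_
  have hs := D.sz_pos x
  have h3 : ∏ _k : Fin (m + 1), (M * D.sz x) ^ (-ρ) ≤ ∏ k, (1 + ‖D.Tr (A k) x‖) ^ (-ρ) := by
    refine Finset.prod_le_prod (fun k _ => Real.rpow_nonneg (by positivity) _) fun k _ => ?_
    apply Real.rpow_le_rpow_of_nonpos (by positivity)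
    · exact (hC k x).trans (mul_le_mul_of_nonneg_right (hCM k) hs.le)
    · linarith
  have h4 : ∏ _k : Fin (m + 1), (M * D.sz x) ^ (-ρ) = M ^ (-r) * D.sz x ^ (-r) := by
    rw [Finset.prod_const, Finset.card_univ, Fintype.card_fin, ← Real.rpow_natCast,
      ← Real.rpow_mul (by positivity), Real.mul_rpow hM0.le hs.le]
    have : -ρ * ((m + 1 : ℕ) : ℝ) = -r := by
      push_cast
      rw [neg_mul, hρr]
    rw [this]
  rw [h4] at h3
  calc D.sz x ^ (-r) = M ^ r * (M ^ (-r) * D.sz x ^ (-r)) := by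
        rw [← mul_assoc, ← Real.rpow_add hM0, add_neg_cancel, Real.rpow_zero, one_mul]
    _ ≤ _ := mul_le_mul_of_nonneg_left h3 (Real.rpow_nonneg hM0.le _)

end H55P
end

-- from Lib.H55P.U4
section

open NumberField IsDedekindDomain MeasureTheory

namespace H55P

open H55N
open H55B (g)

variable {F : Type} [Field F] [NumberField F] [IQ F] {K : Type} [Field K] [NumberField K] [Algebra F K] {m : ℕ}
  {ι : Type} [Fintype ι] [DecidableEq ι]

/-! Chunk U4 (M/L). Analytic continuation of the differenced series, n = m+1, d = card ι <= 2n. Y = XS I' c₀ contains D.X, is stable under x -> x - w_i, and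
0 is not in Y. Let s0 in the region, r < Re s0 with r > 3/2 - d/(2n) (so r > 0 since d <= 2n gives r > 1/2), M = |s0| + 1, U = {r < Re s, |s| < M}. For
z in the cube the tt lm z i lie in some [a,b], 0 < a. good_fs (P = pairs (z, s)) gives |Dif univ (fs (tt lm z) s) x| <= C sz(x)^(n - 2nr) sz(x)^(-d), n - 2nr - d < -2n, summable
(sum_sz) uniformly in z, s. Each term s -> int_cube G x Dif(..) dz is holomorphic (fs is holomorphic in s, jointly continuous in (z,s) for x <> 0, continuous z-integral over a compact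
set: hasDerivAt_integral_of_dominated_loc_of_deriv_le, or differentiability under the integral for compact domains); int_cube sum = sum int_cube (dominated), and a locally uniformly
convergent series of holomorphic functions is holomorphic (differentiableOn_tsum_of_summable_norm). AnalyticOnNhd from DifferentiableOn on an open set. -/

/-- The exponent of the decay. -/
noncomputable def U4_e (m d : ℕ) (r : ℝ) : ℝ := 2 * (m + 1) * r + d - (m + 1)

/-- The uniform bound. -/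
theorem U4_bound (D : Ctx F K m) (hE : Emb F D.σ) (I' : Ideal (𝓞 K))
    (h0 : D.c₀ ∉ I') (w : ι → 𝓞 K) (hw : ∀ i, w i ∈ I') (a b : ℝ) (ha : 0 < a) (r M : ℝ)
    (hr : 0 < r) : ∃ C : ℝ, 0 ≤ C ∧ ∀ t : Fin (m + 1) → ℝ, (∀ i, a ≤ t i ∧ t i ≤ b) →
      ∀ s : ℂ, r ≤ s.re → ‖s‖ ≤ M → ∀ x ∈ XS I' D.c₀,
      ‖Dif w Finset.univ (D.fs t s) x‖ ≤ C * D.sz x ^ (-(U4_e m (Fintype.card ι) r)) := by
  have hY : ∀ x ∈ XS I' D.c₀, ∀ i, x - w i ∈ XS I' D.c₀ := by
    intro x hx i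
    change x - w i - D.c₀ ∈ I'
    have h1 : x - w i - D.c₀ = (x - D.c₀) - w i := by ring
    rw [h1]
    exact I'.sub_mem hx (hw i)
  have hY0 : (0 : 𝓞 K) ∉ XS I' D.c₀ := by
    intro h
    change 0 - D.c₀ ∈ I' at h
    rw [zero_sub, neg_mem_iff] at h
    exact h0 h
  obtain ⟨C, hC⟩ := good_fs
    (P := {q : (Fin (m + 1) → ℝ) × ℂ // (∀ i, a ≤ q.1 i ∧ q.1 i ≤ b) ∧ r ≤ q.2.re ∧ ‖q.2‖ ≤ M})
    D hE w (XS I' D.c₀) hY hY0 (fun q => q.1.1) a b ha (fun q => q.2.1) (fun q => q.1.2) r M hr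
    (fun q => q.2.2)
  refine ⟨|C|, abs_nonneg C, ?_⟩
  intro t ht s hs1 hs2 x hx
  have h1 : ‖Dif w Finset.univ (D.fs t s) x‖ ≤ C * D.sz x ^ ((m + 1 : ℝ) - 2 * (m + 1) * r) *
      ∏ i : ι, D.gs i x := hC ⟨(t, s), ht, hs1, hs2⟩ Finset.univ x hx
  have hs0 := D.sz_pos x
  have h2 : ∏ i : ι, D.gs i x = D.sz x ^ (-(Fintype.card ι : ℝ)) := by
    unfold Ctx.gs
    rw [Finset.prod_const, Finset.card_univ, Real.rpow_neg hs0.le, Real.rpow_natCast, inv_pow]
  rw [h2] at h1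
  refine h1.trans ?_
  rw [mul_assoc, ← Real.rpow_add hs0]
  have h3 : (m + 1 : ℝ) - 2 * (m + 1) * r + -(Fintype.card ι : ℝ) =
      -(U4_e m (Fintype.card ι) r) := by
    unfold U4_e
    ring
  rw [h3]
  exact mul_le_mul_of_nonneg_right (le_abs_self C) (by positivity)

theorem U4_sum (D : Ctx F K m) (hE : Emb F D.σ) (d : ℕ) (r : ℝ)
    (hr : 3 / 2 - (d : ℝ) / (2 * (m + 1)) < r) :
    Summable fun x : D.X => D.sz x ^ (-(U4_e m d r)) := by
  have h1 : 2 * (m + 1 : ℝ) < U4_e m d r := by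
    unfold U4_e
    have hm : (0 : ℝ) < 2 * (m + 1) := by positivity
    have h2 := mul_lt_mul_of_pos_left hr hm
    have h3 : (2 * (m + 1) : ℝ) * (3 / 2 - (d : ℝ) / (2 * (m + 1))) = 3 * (m + 1) - d := by
      field_simp
    rw [h3] at h2
    linarith
  exact (sum_sz D hE _ h1).comp_injective Subtype.val_injective

theorem U4_pos (d : ℕ) (hd : d ≤ 2 * (m + 1)) (r : ℝ)
    (hr : 3 / 2 - (d : ℝ) / (2 * (m + 1)) < r) : 0 < r := by
  have h1 : (d : ℝ) / (2 * (m + 1)) ≤ 1 := by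
    rw [div_le_one (by positivity)]
    exact_mod_cast hd
  linarith

theorem U4_sub (D : Ctx F K m) (I' : Ideal (𝓞 K)) (hI : D.I ≤ I') (x : 𝓞 K) (hx : x ∈ D.X) :
    x ∈ XS I' D.c₀ := hI hx

theorem cont_summable (D : Ctx F K m) (hE : Emb F D.σ) (I' : Ideal (𝓞 K)) (hI : D.I ≤ I')
    (h0 : D.c₀ ∉ I') (w : ι → 𝓞 K) (hw : ∀ i, w i ∈ I') (hι : Fintype.card ι ≤ 2 * (m + 1))
    (G : 𝓞 K → ℂ) (hG : ∃ C : ℝ, ∀ x, ‖G x‖ ≤ C) (t : Fin (m + 1) → ℝ) (ht : ∀ i, 0 < t i) (s : ℂ)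
    (hs : 3 / 2 - (Fintype.card ι : ℝ) / (2 * (m + 1)) < s.re) :
    Summable fun x : D.X => ‖G x * Dif w Finset.univ (D.fs t s) x‖ := by
  obtain ⟨CG, hCG⟩ := hG
  obtain ⟨i₀, _, hi₀⟩ := Finset.exists_min_image (Finset.univ : Finset (Fin (m + 1))) t
    ⟨0, Finset.mem_univ 0⟩
  obtain ⟨i₁, _, hi₁⟩ := Finset.exists_max_image (Finset.univ : Finset (Fin (m + 1))) t
    ⟨0, Finset.mem_univ 0⟩
  have hr0 : 0 < s.re := U4_pos _ hι _ hs
  obtain ⟨C, hC0, hC⟩ := U4_bound D hE I' h0 w hw (t i₀) (t i₁) (ht i₀) s.re ‖s‖ hr0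
  have h1 := (U4_sum D hE (Fintype.card ι) s.re hs).mul_left (|CG| * C)
  refine Summable.of_nonneg_of_le (fun x => norm_nonneg _) (fun x => ?_) h1
  rw [norm_mul]
  have h2 := hC t (fun i => ⟨hi₀ i (Finset.mem_univ i), hi₁ i (Finset.mem_univ i)⟩) s le_rfl le_rfl
    x (U4_sub D I' hI x x.2)
  calc ‖G x‖ * ‖Dif w Finset.univ (D.fs t s) x‖
      ≤ |CG| * (C * D.sz x ^ (-(U4_e m (Fintype.card ι) s.re))) :=
        mul_le_mul ((hCG x).trans (le_abs_self _)) h2 (norm_nonneg _) (abs_nonneg _)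
    _ = _ := by ring

theorem U4_Qpos (D : Ctx F K m) (t : Fin (m + 1) → ℝ) (ht : ∀ i, 0 < t i) (x : 𝓞 K)
    (hx : x ≠ 0) : 0 < D.Q t x := by
  unfold Ctx.Q
  refine Finset.sum_pos (fun i _ => ?_) ⟨0, Finset.mem_univ 0⟩
  refine mul_pos (ht i) (pow_pos ?_ 2)
  rw [norm_pos_iff, Ne, map_eq_zero]
  intro h
  exact hx (RingOfIntegers.coe_injective (h.trans (map_zero (algebraMap (𝓞 K) K)).symm))

theorem U4_tt_pos (lm : Fin (m + 1) → Fin m → ℝ) (z : Fin m → ℝ) (i : Fin (m + 1)) :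
    0 < tt lm z i := Real.exp_pos _

theorem U4_tt_cont (lm : Fin (m + 1) → Fin m → ℝ) (i : Fin (m + 1)) :
    Continuous fun z => tt lm z i := by
  unfold tt
  fun_prop

theorem U4_Q_cont (D : Ctx F K m) (lm : Fin (m + 1) → Fin m → ℝ) (x : 𝓞 K) :
    Continuous fun z => D.Q (tt lm z) x := by
  unfold Ctx.Q
  exact continuous_finsetSum _ fun i _ => (U4_tt_cont lm i).mul continuous_const

/-- The values of tt on the cube. -/
theorem U4_tt_bd (lm : Fin (m + 1) → Fin m → ℝ) : ∃ a b : ℝ, 0 < a ∧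
    ∀ z ∈ Set.Icc (0 : Fin m → ℝ) 1, ∀ i, a ≤ tt lm z i ∧ tt lm z i ≤ b := by
  refine ⟨Real.exp (-(∑ i, ∑ j, |lm i j|)), Real.exp (∑ i, ∑ j, |lm i j|), Real.exp_pos _, ?_⟩
  intro z hz i
  have h1 : |∑ j, z j * lm i j| ≤ ∑ i, ∑ j, |lm i j| := by
    refine (Finset.abs_sum_le_sum_abs _ _).trans ?_
    refine le_trans (Finset.sum_le_sum (g := fun j => |lm i j|) fun j _ => ?_)
      (Finset.single_le_sum (f := fun i => ∑ j, |lm i j|)
        (fun i _ => Finset.sum_nonneg fun j _ => abs_nonneg _) (Finset.mem_univ i))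
    rw [abs_mul]
    have h2 : |z j| ≤ 1 := by
      rw [abs_of_nonneg (hz.1 j)]
      exact hz.2 j
    exact mul_le_of_le_one_left (abs_nonneg _) h2
  obtain ⟨h3, h4⟩ := abs_le.1 h1
  exact ⟨Real.exp_le_exp.2 h3, Real.exp_le_exp.2 h4⟩

theorem U4_fs_cont (D : Ctx F K m) (lm : Fin (m + 1) → Fin m → ℝ) (x : 𝓞 K) (hx : x ≠ 0) (s : ℂ) :
    Continuous fun z => D.fs (tt lm z) s x := by
  unfold Ctx.fs
  refine continuous_const.mul ?_
  refine Continuous.cpow (Complex.continuous_ofReal.comp (U4_Q_cont D lm x)) continuous_const ?_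
  intro z
  exact Complex.ofReal_mem_slitPlane.2 (U4_Qpos D _ (U4_tt_pos lm z) x hx)

theorem U4_diff_int (Q : (Fin m → ℝ) → ℝ) (hQ : Continuous Q) (hpos : ∀ z, 0 < Q z) (n : ℂ)
    (S : Set (Fin m → ℝ)) (hS : IsCompact S) :
    Differentiable ℂ fun s : ℂ => ∫ z in S, (Q z : ℂ) ^ (-(n * s)) := by
  intro s₀
  have hQc : Continuous fun z => (Q z : ℂ) := Complex.continuous_ofReal.comp hQ
  have hslit : ∀ z, (Q z : ℂ) ∈ Complex.slitPlane := fun z =>
    Complex.ofReal_mem_slitPlane.2 (hpos z)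
  have hcF : ∀ s : ℂ, Continuous fun z => (Q z : ℂ) ^ (-(n * s)) := fun s =>
    Continuous.cpow hQc continuous_const hslit
  have hcF' : ∀ s : ℂ, Continuous fun z => (Q z : ℂ) ^ (-(n * s)) * Complex.log (Q z) * (-n) :=
    fun s => ((hcF s).mul (hQc.clog hslit)).mul continuous_const
  have hjoint : Continuous fun p : ℂ × (Fin m → ℝ) =>
      (Q p.2 : ℂ) ^ (-(n * p.1)) * Complex.log (Q p.2) * (-n) := by
    have h1 : Continuous fun p : ℂ × (Fin m → ℝ) => (Q p.2 : ℂ) := hQc.comp continuous_snd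
    have h2 : ∀ p : ℂ × (Fin m → ℝ), (Q p.2 : ℂ) ∈ Complex.slitPlane := fun p => hslit p.2
    refine (Continuous.mul (Continuous.cpow h1 (by fun_prop) h2) (h1.clog h2)).mul continuous_const
  obtain ⟨B, hB⟩ := ((isCompact_closedBall s₀ 1).prod hS).exists_bound_of_continuousOn
    hjoint.continuousOn
  have hfin : IsFiniteMeasure (volume.restrict S) :=
    ⟨by rw [Measure.restrict_apply_univ]; exact hS.measure_lt_top⟩
  have hmS : ∀ᵐ z ∂(volume.restrict S), z ∈ S := ae_restrict_mem hS.measurableSet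
  have key := hasDerivAt_integral_of_dominated_loc_of_deriv_le (μ := volume.restrict S)
    (F := fun s z => (Q z : ℂ) ^ (-(n * s)))
    (F' := fun s z => (Q z : ℂ) ^ (-(n * s)) * Complex.log (Q z) * (-n))
    (bound := fun _ => B) (x₀ := s₀) (Metric.closedBall_mem_nhds s₀ one_pos)
    (Filter.Eventually.of_forall fun s => (hcF s).aestronglyMeasurable)
    ((hcF s₀).continuousOn.integrableOn_compact hS)
    (hcF' s₀).aestronglyMeasurable
    (by
      filter_upwards [hmS] with z hz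
      intro s hs
      exact hB (s, z) ⟨hs, hz⟩)
    (integrable_const B)
    (by
      filter_upwards with z
      intro s _
      have h1 : HasDerivAt (fun s : ℂ => -(n * s)) (-n) s := by
        have h2 := ((hasDerivAt_id s).const_mul n).neg
        rw [mul_one] at h2
        exact h2
      exact h1.const_cpow (Or.inl (by
        rw [Ne, Complex.ofReal_eq_zero]
        exact (hpos z).ne')))
  exact key.2.differentiableAt

theorem U4_cube : IsCompact (Set.Icc (0 : Fin m → ℝ) 1) := isCompact_Icc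

omit [DecidableEq ι] in
/-- Each term is holomorphic. -/
theorem U4_term_diff (D : Ctx F K m) (w : ι → 𝓞 K) (lm : Fin (m + 1) → Fin m → ℝ) (x : 𝓞 K)
    (hx : ∀ T : Finset ι, x - ∑ i ∈ T, w i ≠ 0) :
    Differentiable ℂ fun s : ℂ => ∫ z in Set.Icc (0 : Fin m → ℝ) 1,
      Dif w Finset.univ (D.fs (tt lm z) s) x := by
  have h1 : (fun s : ℂ => ∫ z in Set.Icc (0 : Fin m → ℝ) 1,
      Dif w Finset.univ (D.fs (tt lm z) s) x) = fun s : ℂ =>
      ∑ T ∈ (Finset.univ : Finset ι).powerset, (-1) ^ T.card *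
        ((starRingEnd ℂ) (D.N (x - ∑ i ∈ T, w i)) * ∫ z in Set.Icc (0 : Fin m → ℝ) 1,
          (D.Q (tt lm z) (x - ∑ i ∈ T, w i) : ℂ) ^ (-(((m + 1 : ℕ) : ℂ) * s))) := by
    funext s
    unfold Dif
    rw [integral_finsetSum]
    · refine Finset.sum_congr rfl fun T _ => ?_
      rw [integral_const_mul]
      congr 1
      unfold Ctx.fs
      rw [integral_const_mul]
    · intro T _
      exact ((U4_fs_cont D lm _ (hx T) s).continuousOn.integrableOn_compact U4_cube).const_mul _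
  rw [h1]
  refine Differentiable.fun_sum fun T _ => ?_
  refine (differentiable_const _).mul ((differentiable_const _).mul ?_)
  exact U4_diff_int _ (U4_Q_cont D lm _) (fun z => U4_Qpos D _ (U4_tt_pos lm z) _ (hx T)) _ _ U4_cube

omit [DecidableEq ι] in
theorem U4_Dif_cont (D : Ctx F K m) (w : ι → 𝓞 K) (lm : Fin (m + 1) → Fin m → ℝ) (x : 𝓞 K)
    (hx : ∀ T : Finset ι, x - ∑ i ∈ T, w i ≠ 0) (s : ℂ) :
    Continuous fun z => Dif w Finset.univ (D.fs (tt lm z) s) x := by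
  unfold Dif
  exact continuous_finsetSum _ fun T _ => continuous_const.mul (U4_fs_cont D lm _ (hx T) s)

theorem U4_countable (D : Ctx F K m) (hE : Emb F D.σ) : Countable (𝓞 K) := by
  have h := (sum_sz D hE (2 * (m + 1) + 1) (by linarith)).countable_support
  have h2 : Function.support (fun x : 𝓞 K => D.sz x ^ (-(2 * (m + 1) + 1 : ℝ))) = Set.univ := by
    ext x
    simp only [Function.mem_support, Set.mem_univ, iff_true]
    exact (Real.rpow_pos_of_pos (D.sz_pos x) _).ne'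
  rw [h2] at h
  exact Set.countable_univ_iff.1 h

theorem cont_analytic (D : Ctx F K m) (hE : Emb F D.σ) (I' : Ideal (𝓞 K)) (hI : D.I ≤ I')
    (h0 : D.c₀ ∉ I') (w : ι → 𝓞 K) (hw : ∀ i, w i ∈ I') (hι : Fintype.card ι ≤ 2 * (m + 1))
    (G : 𝓞 K → ℂ) (hG : ∃ C : ℝ, ∀ x, ‖G x‖ ≤ C) (lm : Fin (m + 1) → Fin m → ℝ) :
    AnalyticOnNhd ℂ (fun s => ∫ z in Set.Icc (0 : Fin m → ℝ) 1,
      ∑' x : D.X, G x * Dif w Finset.univ (D.fs (tt lm z) s) x)
      {s | 3 / 2 - (Fintype.card ι : ℝ) / (2 * (m + 1)) < s.re} := by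
  obtain ⟨CG, hCG⟩ := hG
  obtain ⟨a, b, ha, hab⟩ := U4_tt_bd lm
  have hcount := U4_countable D hE
  have hstab : ∀ x ∈ XS I' D.c₀, ∀ T : Finset ι, x - ∑ i ∈ T, w i ≠ 0 := by
    intro x hx T h
    have h1 : x - D.c₀ ∈ I' := hx
    have h2 : ∑ i ∈ T, w i ∈ I' := I'.sum_mem fun i _ => hw i
    have h3 : D.c₀ = ∑ i ∈ T, w i - (x - D.c₀) := by
      rw [sub_eq_zero] at h
      rw [← h]
      ring
    exact h0 (h3 ▸ I'.sub_mem h2 h1)
  have hopen : IsOpen {s : ℂ | 3 / 2 - (Fintype.card ι : ℝ) / (2 * (m + 1)) < s.re} :=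
    isOpen_lt continuous_const Complex.continuous_re
  refine DifferentiableOn.analyticOnNhd ?_ hopen
  intro s₀ hs₀
  have hs₀' : 3 / 2 - (Fintype.card ι : ℝ) / (2 * (m + 1)) < s₀.re := hs₀
  obtain ⟨r, hr1, hr2⟩ := exists_between hs₀'
  have hr0 : 0 < r := U4_pos _ hι _ hr1
  obtain ⟨C, hC0, hC⟩ := U4_bound D hE I' h0 w hw a b ha r (‖s₀‖ + 1) hr0
  have hUopen : IsOpen ({s : ℂ | r < s.re} ∩ Metric.ball (0 : ℂ) (‖s₀‖ + 1)) :=
    (isOpen_lt continuous_const Complex.continuous_re).inter Metric.isOpen_ball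
  have hmem : s₀ ∈ ({s : ℂ | r < s.re} ∩ Metric.ball (0 : ℂ) (‖s₀‖ + 1)) :=
    ⟨hr2, by rw [mem_ball_zero_iff]; linarith⟩
  have hUprop : ∀ s ∈ ({s : ℂ | r < s.re} ∩ Metric.ball (0 : ℂ) (‖s₀‖ + 1)),
      r ≤ s.re ∧ ‖s‖ ≤ ‖s₀‖ + 1 := by
    intro s hs
    refine ⟨le_of_lt hs.1, ?_⟩
    have h1 := hs.2
    rw [mem_ball_zero_iff] at h1
    exact h1.le
  have hsum := (U4_sum D hE (Fintype.card ι) r hr1).mul_left (|CG| * C)
  have hterm : ∀ s ∈ ({s : ℂ | r < s.re} ∩ Metric.ball (0 : ℂ) (‖s₀‖ + 1)),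
      ∀ z ∈ Set.Icc (0 : Fin m → ℝ) 1, ∀ x : D.X,
      ‖G x * Dif w Finset.univ (D.fs (tt lm z) s) x‖ ≤
        |CG| * C * D.sz x ^ (-(U4_e m (Fintype.card ι) r)) := by
    intro s hs z hz x
    obtain ⟨h1, h2⟩ := hUprop s hs
    rw [norm_mul]
    calc ‖G x‖ * ‖Dif w Finset.univ (D.fs (tt lm z) s) x‖
        ≤ |CG| * (C * D.sz x ^ (-(U4_e m (Fintype.card ι) r))) :=
          mul_le_mul ((hCG x).trans (le_abs_self _))
            (hC (tt lm z) (hab z hz) s h1 h2 x (U4_sub D I' hI x x.2)) (norm_nonneg _)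
            (abs_nonneg _)
      _ = _ := by ring
  have hvol : (volume (Set.Icc (0 : Fin m → ℝ) 1)) = 1 := by
    rw [Real.volume_Icc_pi]
    simp
  have hvolr : volume.real (Set.Icc (0 : Fin m → ℝ) 1) = 1 := by
    rw [Measure.real, hvol, ENNReal.toReal_one]
  have hint : ∀ s : ℂ, ∀ x : D.X, IntegrableOn
      (fun z => G x * Dif w Finset.univ (D.fs (tt lm z) s) x) (Set.Icc (0 : Fin m → ℝ) 1) := by
    intro s x
    exact ((U4_Dif_cont D w lm x.1 (hstab x.1 (U4_sub D I' hI x x.2)) s).continuousOn.integrableOn_compact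
      U4_cube).const_mul _
  -- the exchange of the sum and the integral
  have hex : ∀ s ∈ ({s : ℂ | r < s.re} ∩ Metric.ball (0 : ℂ) (‖s₀‖ + 1)),
      (∫ z in Set.Icc (0 : Fin m → ℝ) 1,
        ∑' x : D.X, G x * Dif w Finset.univ (D.fs (tt lm z) s) x) =
      ∑' x : D.X, ∫ z in Set.Icc (0 : Fin m → ℝ) 1,
        G x * Dif w Finset.univ (D.fs (tt lm z) s) x := by
    intro s hs
    refine (hasSum_integral_of_summable_integral_norm (fun x : D.X => hint s x) ?_).tsum_eq.symm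
    refine Summable.of_nonneg_of_le (fun x => integral_nonneg fun z => norm_nonneg _)
      (fun x => ?_) hsum
    have h1 : (∫ z in Set.Icc (0 : Fin m → ℝ) 1,
        ‖G x * Dif w Finset.univ (D.fs (tt lm z) s) x‖) ≤
        ∫ _z in Set.Icc (0 : Fin m → ℝ) 1,
          |CG| * C * D.sz x ^ (-(U4_e m (Fintype.card ι) r)) := by
      refine setIntegral_mono_on (hint s x).norm ?_ measurableSet_Icc
        fun z hz => hterm s hs z hz x
      exact continuousOn_const.integrableOn_compact U4_cube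
    rw [setIntegral_const, hvolr, one_smul] at h1
    exact h1
  have hdiff : DifferentiableOn ℂ (fun s => ∑' x : D.X, ∫ z in Set.Icc (0 : Fin m → ℝ) 1,
        G x * Dif w Finset.univ (D.fs (tt lm z) s) x)
      ({s : ℂ | r < s.re} ∩ Metric.ball (0 : ℂ) (‖s₀‖ + 1)) := by
    refine Complex.differentiableOn_tsum_of_summable_norm hsum ?_ hUopen ?_
    · intro x
      have h1 : (fun s : ℂ => ∫ z in Set.Icc (0 : Fin m → ℝ) 1,
          G x * Dif w Finset.univ (D.fs (tt lm z) s) x) = fun s : ℂ =>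
          G x * ∫ z in Set.Icc (0 : Fin m → ℝ) 1, Dif w Finset.univ (D.fs (tt lm z) s) x := by
        funext s
        rw [integral_const_mul]
      rw [h1]
      exact ((U4_term_diff D w lm x.1 (hstab x.1 (U4_sub D I' hI x x.2))).const_mul _).differentiableOn
    · intro x s hs
      have h1 := norm_setIntegral_le_of_norm_le_const (μ := volume)
        (s := Set.Icc (0 : Fin m → ℝ) 1)
        (f := fun z => G x * Dif w Finset.univ (D.fs (tt lm z) s) x)
        (C := |CG| * C * D.sz x ^ (-(U4_e m (Fintype.card ι) r)))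
        (by rw [hvol]; exact ENNReal.one_lt_top) (fun z hz => hterm s hs z hz x)
      rw [hvolr, mul_one] at h1
      exact h1
  have hdiff2 : DifferentiableOn ℂ (fun s => ∫ z in Set.Icc (0 : Fin m → ℝ) 1,
        ∑' x : D.X, G x * Dif w Finset.univ (D.fs (tt lm z) s) x)
      ({s : ℂ | r < s.re} ∩ Metric.ball (0 : ℂ) (‖s₀‖ + 1)) :=
    hdiff.congr fun s hs => hex s hs
  exact (hdiff2.differentiableAt (hUopen.mem_nhds hmem)).differentiableWithinAt

end H55P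
end

-- from Lib.H55K.G2
section

/-! # H55K: t is additive modulo squares -/

open NumberField IsDedekindDomain WeierstrassCurve

namespace H55K

open H55P (IQ embF eF LF Per IsHecke Pt ac Inert Dec Nm)
open H35P (WAB Ker tt)

theorem g2_mon {Γ : Type*} [LinearOrderedCommGroupWithZero Γ] {a b c u w : Γ} (ha : a ≤ c) (hb : b ≤ c)
    (hu : u ≤ 1) (hw : w ≤ 1) : u * (a * b) * w ≤ c ^ 2 := by
  calc u * (a * b) * w ≤ 1 * (c * c) * 1 := mul_le_mul' (mul_le_mul' hu (mul_le_mul' ha hb)) hw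
    _ = c ^ 2 := by rw [one_mul, mul_one, sq]

theorem g2_ord {Γ : Type*} [LinearOrderedCommGroupWithZero Γ] {a b d c L M n : Γ} (ha : a ≤ c) (hb : b ≤ c)
    (hc : c ≤ 1) (hd : d ≤ 1) (hM : M * (a * b * d) = 1) (hL : L * a ≤ 1 ∨ L * b ≤ 1 ∨ L * d ≤ 1)
    (hn : n ≤ max (L ^ 2) (L * M)) : n * (a * b * d) ^ 3 ≤ c ^ 2 := by
  have ha1 : a ≤ 1 := ha.trans hc
  have hb1 : b ≤ 1 := hb.trans hc
  have p : ∀ {x : Γ} (m : ℕ), x ≤ 1 → x ^ m ≤ 1 := fun m hx => pow_le_one₀ zero_le hx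
  rcases le_max_iff.1 hn with h | h
  · refine (mul_le_mul_left h _).trans ?_
    rcases hL with h1 | h1 | h1
    · calc L ^ 2 * (a * b * d) ^ 3 = (L * a) ^ 2 * (a * b) * (b ^ 2 * d ^ 3) := by
            simp only [pow_succ, pow_zero, one_mul]; ac_rfl
        _ ≤ c ^ 2 := g2_mon ha hb (p 2 h1) (mul_le_one' (p 2 hb1) (p 3 hd))
    · calc L ^ 2 * (a * b * d) ^ 3 = (L * b) ^ 2 * (a * b) * (a ^ 2 * d ^ 3) := by
            simp only [pow_succ, pow_zero, one_mul]; ac_rfl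
        _ ≤ c ^ 2 := g2_mon ha hb (p 2 h1) (mul_le_one' (p 2 ha1) (p 3 hd))
    · calc L ^ 2 * (a * b * d) ^ 3 = (L * d) ^ 2 * (a * b) * (a ^ 2 * b ^ 2 * d) := by
            simp only [pow_succ, pow_zero, one_mul]; ac_rfl
        _ ≤ c ^ 2 := g2_mon ha hb (p 2 h1) (mul_le_one' (mul_le_one' (p 2 ha1) (p 2 hb1)) hd)
  · refine (mul_le_mul_left h _).trans ?_
    have e : L * M * (a * b * d) ^ 3 = L * (a * b * d) ^ 2 := by
      calc L * M * (a * b * d) ^ 3 = L * (a * b * d) ^ 2 * (M * (a * b * d)) := by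
            simp only [pow_succ, pow_zero, one_mul]; ac_rfl
        _ = L * (a * b * d) ^ 2 := by rw [hM, mul_one]
    rw [e]
    rcases hL with h1 | h1 | h1
    · calc L * (a * b * d) ^ 2 = (L * a) * (a * b) * (b * d ^ 2) := by
            simp only [pow_succ, pow_zero, one_mul]; ac_rfl
        _ ≤ c ^ 2 := g2_mon ha hb h1 (mul_le_one' hb1 (p 2 hd))
    · calc L * (a * b * d) ^ 2 = (L * b) * (a * b) * (a * d ^ 2) := by
            simp only [pow_succ, pow_zero, one_mul]; ac_rfl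
        _ ≤ c ^ 2 := g2_mon ha hb h1 (mul_le_one' ha1 (p 2 hd))
    · calc L * (a * b * d) ^ 2 = (L * d) * (a * b) * (a * b * d) := by
            simp only [pow_succ, pow_zero, one_mul]; ac_rfl
        _ ≤ c ^ 2 := g2_mon ha hb h1 (mul_le_one' (mul_le_one' ha1 hb1) hd)

theorem g2_val {k : Type*} [Field k] {Γ : Type*} [LinearOrderedCommGroupWithZero Γ] (v : Valuation k Γ)
    {x₁ x₂ x₃ y₁ y₂ y₃ l m a₄ a₆ : k} {c : Γ} (h1 : 1 < v x₁) (h2 : 1 < v x₂) (h3 : 1 < v x₃)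
    (s1 : x₁ + x₂ + x₃ = l ^ 2) (s3 : x₁ * x₂ * x₃ = m ^ 2 - a₆) (h4 : v a₄ ≤ 1) (h6 : v a₆ ≤ 1)
    (v1 : v y₁ ^ 2 = v x₁ ^ 3) (v2 : v y₂ ^ 2 = v x₂ ^ 3) (v3 : v y₃ ^ 2 = v x₃ ^ 3)
    (i3 : v (-3 : k) ≤ 1) (i2 : v (2 : k) ≤ 1)
    (hN : x₁ * y₂ * y₃ + x₂ * y₁ * y₃ + x₃ * y₁ * y₂ = -3 * a₆ * l ^ 2 + 2 * a₄ * l * m)
    (c1 : v (x₁ / y₁) ≤ c) (c2 : v (x₂ / y₂) ≤ c) (hc : c ≤ 1) :
    v (x₁ / y₁ + x₂ / y₂ + x₃ / y₃) ≤ c ^ 2 := by
  have key : ∀ x y : k, 1 < v x → v y ^ 2 = v x ^ 3 →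
      v (x / y) ^ 2 * v x = 1 ∧ v (x / y) ^ 3 * v y = 1 ∧ y ≠ 0 := by
    intro x y hx hxy
    have hx0 : v x ≠ 0 := (zero_lt_one.trans hx).ne'
    have hy0 : v y ≠ 0 := by
      intro h
      rw [h, zero_pow two_ne_zero] at hxy
      exact pow_ne_zero 3 hx0 hxy.symm
    refine ⟨?_, ?_, fun h => hy0 (by rw [h, map_zero])⟩
    · rw [map_div₀, div_pow, hxy, ← mul_div_right_comm, ← pow_succ, div_self (pow_ne_zero _ hx0)]
    · rw [map_div₀, div_pow, ← hxy, ← mul_div_right_comm, ← pow_succ, div_self (pow_ne_zero _ hy0)]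
  obtain ⟨e1, f1, n1⟩ := key _ _ h1 v1
  obtain ⟨e2, f2, n2⟩ := key _ _ h2 v2
  obtain ⟨e3, f3, n3⟩ := key _ _ h3 v3
  have hb : v m ^ 2 = v x₁ * v x₂ * v x₃ := by
    have e : m ^ 2 = x₁ * x₂ * x₃ + a₆ := by rw [s3]; ring
    have hlt : v a₆ < v (x₁ * x₂ * x₃) := by
      rw [map_mul, map_mul]
      exact h6.trans_lt (one_lt_mul'' (one_lt_mul'' h1 h2) h3)
    rw [← map_pow, e, Valuation.map_add_eq_of_lt_left v hlt, map_mul, map_mul]
  have hM : v m * (v (x₁ / y₁) * v (x₂ / y₂) * v (x₃ / y₃)) = 1 := by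
    have h : (v m * (v (x₁ / y₁) * v (x₂ / y₂) * v (x₃ / y₃))) ^ 2 = 1 := by
      calc (v m * (v (x₁ / y₁) * v (x₂ / y₂) * v (x₃ / y₃))) ^ 2
          = v m ^ 2 * (v (x₁ / y₁) ^ 2 * v (x₂ / y₂) ^ 2 * v (x₃ / y₃) ^ 2) := by
            simp only [mul_pow]
        _ = (v (x₁ / y₁) ^ 2 * v x₁) * (v (x₂ / y₂) ^ 2 * v x₂) * (v (x₃ / y₃) ^ 2 * v x₃) := by
            rw [hb]; ac_rfl
        _ = 1 := by rw [e1, e2, e3, one_mul, one_mul]
    exact (pow_eq_one_iff_of_nonneg zero_le two_ne_zero).1 h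
  have le1 : ∀ x y : k, v l ^ 2 ≤ v x → v (x / y) ^ 2 * v x = 1 → v l * v (x / y) ≤ 1 := by
    intro x y hl he
    refine (pow_le_one_iff_of_nonneg zero_le two_ne_zero).1 ?_
    calc (v l * v (x / y)) ^ 2 = v (x / y) ^ 2 * v l ^ 2 := by rw [mul_pow, mul_comm]
      _ ≤ v (x / y) ^ 2 * v x := mul_le_mul_right hl _
      _ = 1 := he
  have hL : v l * v (x₁ / y₁) ≤ 1 ∨ v l * v (x₂ / y₂) ≤ 1 ∨ v l * v (x₃ / y₃) ≤ 1 := by
    have h : v l ^ 2 ≤ max (max (v x₁) (v x₂)) (v x₃) := by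
      rw [← map_pow, ← s1]
      exact (v.map_add _ _).trans (max_le_max (v.map_add _ _) le_rfl)
    rcases le_max_iff.1 h with h | h
    · rcases le_max_iff.1 h with h | h
      · exact Or.inl (le1 _ _ h e1)
      · exact Or.inr (Or.inl (le1 _ _ h e2))
    · exact Or.inr (Or.inr (le1 _ _ h e3))
  have hd : v (x₃ / y₃) ≤ 1 := by
    refine (pow_le_one_iff_of_nonneg zero_le two_ne_zero).1 ?_
    rw [← e3]
    exact le_mul_of_one_le_right' h3.le
  have hn : v (-3 * a₆ * l ^ 2 + 2 * a₄ * l * m) ≤ max (v l ^ 2) (v l * v m) := by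
    refine (v.map_add _ _).trans (max_le_max ?_ ?_)
    · rw [map_mul, map_mul, map_pow]
      exact mul_le_of_le_one_left' (mul_le_one' i3 h6)
    · rw [map_mul, map_mul, map_mul, mul_assoc]
      exact mul_le_of_le_one_left' (mul_le_one' i2 h4)
  have hT : x₁ / y₁ + x₂ / y₂ + x₃ / y₃ = (-3 * a₆ * l ^ 2 + 2 * a₄ * l * m) / (y₁ * y₂ * y₃) := by
    rw [← hN]
    field_simp
  have hv : v (x₁ / y₁ + x₂ / y₂ + x₃ / y₃) =
      v (-3 * a₆ * l ^ 2 + 2 * a₄ * l * m) * (v (x₁ / y₁) * v (x₂ / y₂) * v (x₃ / y₃)) ^ 3 := by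
    rw [hT, map_div₀, div_eq_mul_inv]
    congr 1
    refine inv_eq_of_mul_eq_one_right ?_
    rw [map_mul, map_mul]
    calc v y₁ * v y₂ * v y₃ * (v (x₁ / y₁) * v (x₂ / y₂) * v (x₃ / y₃)) ^ 3 =
        (v (x₁ / y₁) ^ 3 * v y₁) * (v (x₂ / y₂) ^ 3 * v y₂) * (v (x₃ / y₃) ^ 3 * v y₃) := by
          rw [mul_pow, mul_pow]; ac_rfl
      _ = 1 := by rw [f1, f2, f3, one_mul, one_mul]
  rw [hv]
  exact g2_ord c1 c2 hc hd hM hL hn

section

variable {k : Type} [Field k] [DecidableEq k] {W : WeierstrassCurve k} [W.IsShortNF] {V : ValuationSubring k}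

open H35P in
theorem g2_gen (hI : IntW W V) (P Q : W.toAffine.Point) (hP : Ker V P) (hQ : Ker V Q) (c : V.ValueGroup)
    (h1 : c ≤ 1) (hPc : V.valuation (tt P) ≤ c) (hQc : V.valuation (tt Q) ≤ c) :
    V.valuation (tt (P + Q) - tt P - tt Q) ≤ c ^ 2 := by
  rcases P with _ | ⟨x₁, y₁, h₁⟩
  · have e : tt (W := W) (Affine.Point.zero + Q) - tt (W := W) Affine.Point.zero - tt Q = 0 := by
      change tt (0 + Q) - 0 - tt Q = 0
      rw [zero_add, sub_zero, sub_self]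
    rw [e, map_zero]
    exact zero_le
  rcases Q with _ | ⟨x₂, y₂, h₂⟩
  · have e : tt (W := W) (Affine.Point.some x₁ y₁ h₁ + Affine.Point.zero) -
        tt (W := W) (Affine.Point.some x₁ y₁ h₁) - tt (W := W) Affine.Point.zero = 0 := by
      change tt (Affine.Point.some x₁ y₁ h₁ + 0) - tt (W := W) (Affine.Point.some x₁ y₁ h₁) - 0 = 0
      rw [add_zero, sub_zero, sub_self]
    rw [e, map_zero]
    exact zero_le
  by_cases hxy : x₁ = x₂ ∧ y₁ = W.toAffine.negY x₂ y₂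
  · have e0 : (Affine.Point.some x₁ y₁ h₁ : W.toAffine.Point) + Affine.Point.some x₂ y₂ h₂ = 0 :=
      Affine.Point.add_of_Y_eq hxy.1 hxy.2
    have e1 : (Affine.Point.some x₁ y₁ h₁ : W.toAffine.Point) = -Affine.Point.some x₂ y₂ h₂ :=
      eq_neg_of_add_eq_zero_left e0
    have e3 : tt (0 : W.toAffine.Point) = 0 := rfl
    rw [e0, e1, e3, H55K.tt_neg, zero_sub, neg_neg, sub_self, map_zero]
    exact zero_le
  · obtain ⟨s1, s2, s3, p1, p2, p3, hN⟩ := vieta h₁.1 h₂.1 hxy _ _ _ rfl rfl rfl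
    set l : k := W.toAffine.slope x₁ x₂ y₁ y₂ with hl
    set x₃ : k := W.toAffine.addX x₁ x₂ l with hx₃
    set m : k := y₁ - l * x₁ with hm
    set y₃ : k := W.toAffine.negAddY x₁ x₂ y₁ l with hy₃
    have h₃ : W.toAffine.Nonsingular x₃ y₃ := Affine.nonsingular_negAdd h₁ h₂ hxy
    have hd : 1 < V.valuation x₃ := third_big hI.a1 hI.a2 hI.a3 hI.a4 hI.a6 s1 s2 s3 hP hQ
    have v1 := (val_y hI h₁.1 hP).1
    have v2 := (val_y hI h₂.1 hQ).1
    have v3 := (val_y hI h₃.1 hd).1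
    have hsum : (Affine.Point.some x₁ y₁ h₁ : W.toAffine.Point) + Affine.Point.some x₂ y₂ h₂ =
        -Affine.Point.some x₃ y₃ h₃ := by
      rw [Affine.Point.add_some hxy, Affine.Point.neg_some]
      rfl
    rw [hsum, H55K.tt_neg]
    have e : -tt (W := W) (Affine.Point.some x₃ y₃ h₃) - tt (W := W) (Affine.Point.some x₁ y₁ h₁) -
        tt (W := W) (Affine.Point.some x₂ y₂ h₂) = -(x₁ / y₁ + x₂ / y₂ + x₃ / y₃) := by
      change -(x₃ / y₃) - x₁ / y₁ - x₂ / y₂ = _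
      ring
    rw [e, Valuation.map_neg]
    simp only [W.a₁_of_isShortNF, W.a₂_of_isShortNF, W.a₃_of_isShortNF] at s1 s3 hN
    rw [← p1, ← p2, ← p3] at hN
    refine g2_val V.valuation hP hQ hd (l := l) (m := m) (a₄ := W.a₄) (a₆ := W.a₆) ?_ ?_
      ((V.valuation_le_one_iff _).2 hI.a4) ((V.valuation_le_one_iff _).2 hI.a6) v1 v2 v3 ?_ ?_ ?_ hPc hQc h1
    · linear_combination s1
    · linear_combination s3
    · exact V.valuation_le_one_iff _ |>.2 (by exact_mod_cast intCast_mem V (-3))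
    · exact V.valuation_le_one_iff _ |>.2 (by exact_mod_cast natCast_mem V 2)
    · linear_combination hN

end

variable {F : Type} [Field F] [NumberField F] [IQ F] {A B : F} {Om : ℂ} {Ω : Type} [Field Ω] [DecidableEq Ω]
  [Algebra F Ω] {j : Ω →+* ℂ} {act : 𝓞 F →+* AddMonoid.End (Pt (WAB A B) Ω)} {V : ValuationSubring Ω}

omit [NumberField F] [IQ F] in
/-- Chunk G2 (M). W = (WAB A B)⁄Ω has a₁ = a₂ = a₃ = 0, a₄, a₆ in V. If c is not < 1 everything is clear: all three values are < 1 (ttlt, kadd). P = 0, Q = 0 clear; P = -Q: tt_neg (E0), tt 0 = 0.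
Otherwise P = some x₁ y₁, Q = some x₂ y₂, H35P.vieta (R2.lean; the hypothesis hxy as in H35P/R4.lean, tt_add) with l = slope, m = y₁ - l x₁, third point (x₃, y₃ = l x₃ + m), P + Q = some x₃ (-y₃)
(Affine.Point.add_some, addY, negY with a₁ = a₃ = 0), so tt (P + Q) = - x₃/y₃. Put T_i = x_i/y_i. The last relation of vieta is: (T₁ + T₂ + T₃) y₁ y₂ y₃ = - 3 a₆ l^2 + 2 a₄ l m. All three points are in Ker (kadd; V x₃ > 1).
Values (tt_val): V(T_i)^2 V(x_i) = 1, V(T_i)^3 V(y_i) = 1. Write a, b, d for V(T₁), V(T₂), V(T₃) (< 1). s3: x₁ x₂ x₃ = m^2 - a₆ gives V(m)^2 (a b d)^2 = 1, so V(m) a b d = 1. s1: x₁ + x₂ + x₃ = l^2 gives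
V(l)^2 ≤ max of the V(x_i), so V(l) ≤ 1/e with e = min a b d (one of a, b, d). So V(3 a₆ l^2/(y₁y₂y₃)) ≤ (a b d)^3/e^2 ≤ c^2 and V(2 a₄ l m/(y₁y₂y₃)) ≤ (a b d)^2/e ≤ c^2 (a, b ≤ c < 1, d < 1; in each of the three cases for e). -/
theorem tt_add2 (hV : GV A B V) {P Q : Pt (WAB A B) Ω} (hP : Ker V P) (hQ : Ker V Q) (c : V.ValueGroup)
    (h1 : V.valuation (tt P) ≤ c) (h2 : V.valuation (tt Q) ≤ c) :
    V.valuation (tt (P + Q) - tt P - tt Q) ≤ c ^ 2 := by
  rcases le_total c 1 with hc | hc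
  · exact g2_gen (gv_good hV).toIntW P Q hP hQ c hc h1 h2
  · have h : V.valuation (tt (P + Q) - tt P - tt Q) ≤ 1 :=
      Valuation.map_sub_le _ (Valuation.map_sub_le _ (ttlt hV (kadd hV hP hQ)).le (ttlt hV hP).le) (ttlt hV hQ).le
    exact h.trans (one_le_pow₀ hc)

end H55K
end

-- from Lib.H55K.G5A
section

/-! # H55K: points killed by a prime element below V -/

open NumberField IsDedekindDomain WeierstrassCurve

namespace H55K

open H55P (IQ embF eF LF Per IsHecke Pt ac Inert Dec Nm)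
open H35P (WAB Ker tt)


variable {F : Type} [Field F] [NumberField F] [IQ F] {A B : F} {Om : ℂ} {Ω : Type} [Field Ω] [DecidableEq Ω]
  [Algebra F Ω] {j : Ω →+* ℂ} {act : 𝓞 F →+* AddMonoid.End (Pt (WAB A B) Ω)} {V : ValuationSubring Ω}

/-- Chunk G5A (S/M). There are many classes modulo Ker V. Let X₀ not in H. Suppose every X not in H satisfies Ker V (X - c) for some c in C. For h in H: X₀ + h is not in H, so X₀ + h, and every element of the group outside H, lies in finitely many classes modulo kerG;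
so the quotient by kerG is finite: there are at most 2 |C| classes. But Tor act (2^k) has 4^k elements (tor_card, Nm_nat), pairwise different modulo kerG (ker_tors with n = 2^k, V(2) = 1). -/
theorem inf_cls (h : CMA F A B Om j act) (hV : GV A B V) (H : AddSubgroup (Pt (WAB A B) Ω)) (hH : ∃ X, X ∉ H)
    (C : Finset (Pt (WAB A B) Ω)) : ∃ X, X ∉ H ∧ ∀ c ∈ C, ¬ Ker V (X - c) := by
  classical
  by_contra hcon
  push Not at hcon
  obtain ⟨X₀, hX₀⟩ := hH
  obtain ⟨C', hC'⟩ : ∃ C' : Finset (Pt (WAB A B) Ω), C' = C ∪ C.image (fun c => c - X₀) := ⟨_, rfl⟩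
  have hall : ∀ P : Pt (WAB A B) Ω, ∃ c ∈ C', Ker V (P - c) := by
    intro P
    by_cases hP : P ∈ H
    · have h1 : X₀ + P ∉ H := fun h2 => hX₀ (by simpa using H.sub_mem h2 hP)
      obtain ⟨c, hc, hk⟩ := hcon _ h1
      refine ⟨c - X₀, ?_, ?_⟩
      · rw [hC', Finset.mem_union, Finset.mem_image]
        exact Or.inr ⟨c, hc, rfl⟩
      · have e : P - (c - X₀) = X₀ + P - c := by abel
        rw [e]
        exact hk
    · obtain ⟨c, hc, hk⟩ := hcon P hP
      exact ⟨c, by rw [hC', Finset.mem_union]; exact Or.inl hc, hk⟩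
  obtain ⟨k, hk⟩ : ∃ k : ℕ, C'.card < (2 ^ k) ^ 2 := by
    refine ⟨C'.card, (Nat.lt_two_pow_self).trans_le ?_⟩
    exact Nat.le_self_pow (by norm_num) _
  obtain ⟨b, hb⟩ : ∃ b : 𝓞 F, b = ((2 ^ k : ℕ) : 𝓞 F) := ⟨_, rfl⟩
  have hb0 : b ≠ 0 := by
    rw [hb]
    exact_mod_cast (pow_ne_zero k (two_ne_zero))
  have hcard := tor_card h hb0
  rw [hb, Nm_nat] at hcard
  choose f hf hfk using hall
  have hinj : Function.Injective (fun T : Tor act ((2 ^ k : ℕ) : 𝓞 F) => (⟨f T, hf T⟩ : C')) := by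
    intro T T' hTT
    have h1 : f (T : Pt (WAB A B) Ω) = f (T' : Pt (WAB A B) Ω) := congrArg Subtype.val hTT
    have h2 := hfk (T : Pt (WAB A B) Ω)
    have h3 := hfk (T' : Pt (WAB A B) Ω)
    rw [← h1] at h3
    have h4 := ksub hV h2 h3
    have e : (T : Pt (WAB A B) Ω) - f T - ((T' : Pt (WAB A B) Ω) - f T) = (T : Pt (WAB A B) Ω) - T' := by abel
    rw [e] at h4
    have h5 : (2 ^ k : ℕ) • ((T : Pt (WAB A B) Ω) - T') = 0 := by
      have h6 : (T : Pt (WAB A B) Ω) - T' ∈ Tor act ((2 ^ k : ℕ) : 𝓞 F) := AddSubgroup.sub_mem _ T.2 T'.2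
      have h7 : act ((2 ^ k : ℕ) : 𝓞 F) ((T : Pt (WAB A B) Ω) - T') = 0 := h6
      rw [map_natCast act] at h7
      exact h7
    have h6 : V.valuation (((2 ^ k : ℕ) : ℕ) : Ω) = 1 := by
      rw [Nat.cast_pow, map_pow]
      have : V.valuation ((2 : ℕ) : Ω) = 1 := by exact_mod_cast hV.two
      rw [this, one_pow]
    have h7 := ker_tors hV (2 ^ k) h6 h5 h4
    exact Subtype.ext (sub_eq_zero.1 h7)
  have hle := Nat.card_le_card_of_injective _ hinj
  rw [hcard, Nat.card_eq_fintype_card, Fintype.card_coe] at hle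
  omega

end H55K
end

-- from Lib.H55K.SD
section

/-!
# H55K, part S: from Selmer classes to elements of the field of torsion points (definitions)

Port of H13S to the general setting (CMA, Dta). vo V a is the value of the integer a of F, Ker V the kernel of reduction, π a prime
element of 𝓞 F above l.
-/

open NumberField IsDedekindDomain WeierstrassCurve

namespace H55K.S

open H55P (IQ embF eF LF Per IsHecke Pt ac Inert Dec Nm)
open H35P (WAB Ker tt)
open H13S (Abv)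

section mult

variable {M R : Type} [AddCommGroup M] [CommRing R] {act : R →+* AddMonoid.End M}

theorem act_mul (a b : R) (P : M) : act (a * b) P = act a (act b P) := by rw [map_mul]; rfl

theorem act_add (a b : R) (P : M) : act (a + b) P = act a P + act b P := by rw [map_add]; rfl

theorem act_sub (a b : R) (P : M) : act (a - b) P = act a P - act b P := by rw [map_sub]; rfl

theorem act_neg (a : R) (P : M) : act (-a) P = -act a P := by rw [map_neg]; rfl

theorem act_one (P : M) : act (1 : R) P = P := by rw [map_one]; rfl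

theorem act_zero (P : M) : act (0 : R) P = 0 := by rw [map_zero]; rfl

theorem act_nat (n : ℕ) (P : M) : act (n : R) P = n • P := by
  rw [map_natCast]
  induction n with
  | zero => rw [Nat.cast_zero, zero_smul]; rfl
  | succ n ih => rw [Nat.cast_succ, succ_nsmul, ← ih]; rfl

end mult

section gal

variable {F : Type} [Field F] {Ω : Type} [Field Ω] [DecidableEq Ω] [Algebra F Ω] {W : WeierstrassCurve F}

theorem ac_one (P : Pt W Ω) : ac W (1 : Ω ≃ₐ[F] Ω) P = P := by cases P <;> rfl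

theorem ac_mul (s t : Ω ≃ₐ[F] Ω) (P : Pt W Ω) : ac W (s * t) P = ac W s (ac W t P) := by
  cases P <;> rfl

theorem ac_inv (s : Ω ≃ₐ[F] Ω) (P : Pt W Ω) : ac W s (ac W s⁻¹ P) = P := by
  rw [← ac_mul, mul_inv_cancel, ac_one]

theorem ac_inj (s : Ω ≃ₐ[F] Ω) {P Q : Pt W Ω} (h : ac W s P = ac W s Q) : P = Q := by
  have h1 := congrArg (ac W s⁻¹) h
  rwa [← ac_mul, ← ac_mul, inv_mul_cancel, ac_one, ac_one] at h1

theorem ac_ne (s : Ω ≃ₐ[F] Ω) {P : Pt W Ω} (hP : P ≠ 0) : ac W s P ≠ 0 := fun h =>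
  hP (ac_inj s (h.trans (map_zero (ac W s)).symm))

theorem xc_ac (s : Ω ≃ₐ[F] Ω) (P : Pt W Ω) : xc (ac W s P) = s (xc P) := by
  cases P with
  | zero => exact (map_zero s).symm
  | some x y h => rfl

theorem yc_ac (s : Ω ≃ₐ[F] Ω) (P : Pt W Ω) : yc (ac W s P) = s (yc P) := by
  cases P with
  | zero => exact (map_zero s).symm
  | some x y h => rfl

theorem tt_ac (s : Ω ≃ₐ[F] Ω) (P : Pt W Ω) : tt (ac W s P) = s (tt P) := by
  cases P with
  | zero => exact (map_zero s).symm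
  | some x y h => exact (map_div₀ s x y).symm

theorem pt_ext {P Q : Pt W Ω} (hP : P ≠ 0) (hQ : Q ≠ 0) (hx : xc P = xc Q) (hy : yc P = yc Q) : P = Q := by
  cases P with
  | zero => exact absurd rfl hP
  | some x y h =>
    cases Q with
    | zero => exact absurd rfl hQ
    | some x' y' h' =>
      obtain rfl : x = x' := hx
      obtain rfl : y = y' := hy
      rfl

omit [DecidableEq Ω] in
/-- An element fixed by the fixing subgroup of L is in L. -/
theorem ku2_mem [CharZero F] [IsAlgClosure F Ω] (L : IntermediateField F Ω) {x : Ω}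
    (h : ∀ s ∈ L.fixingSubgroup, s x = x) : x ∈ L := by
  rw [← InfiniteGalois.fixedField_fixingSubgroup L]
  intro s
  exact h s.1 s.2

theorem ker_zero (V : ValuationSubring Ω) : Ker V (0 : Pt W Ω) := trivial

theorem tt_zero : tt (0 : Pt W Ω) = 0 := rfl

end gal

section cma

variable {F : Type} [Field F] [NumberField F] [IQ F] {A B : F} {Om : ℂ} {Ω : Type} [Field Ω] [DecidableEq Ω]
  [Algebra F Ω] {j : Ω →+* ℂ} {act : 𝓞 F →+* AddMonoid.End (Pt (WAB A B) Ω)}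

theorem mem_Tor {a : 𝓞 F} {P : Pt (WAB A B) Ω} : P ∈ Tor act a ↔ act a P = 0 := Iff.rfl

theorem ac_act (h : CMA F A B Om j act) (s : Ω ≃ₐ[F] Ω) (a : 𝓞 F) (P : Pt (WAB A B) Ω) :
    ac (WAB A B) s (act a P) = act a (ac (WAB A B) s P) := h.gal s a P

theorem ac_mem (h : CMA F A B Om j act) (s : Ω ≃ₐ[F] Ω) {a : 𝓞 F} {P : Pt (WAB A B) Ω} (hP : P ∈ Tor act a) :
    ac (WAB A B) s P ∈ Tor act a := by
  rw [mem_Tor, ← ac_act h, mem_Tor.1 hP, map_zero]

theorem act_tor {a b : 𝓞 F} {P : Pt (WAB A B) Ω} (hP : P ∈ Tor act a) : act b P ∈ Tor act a := by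
  rw [mem_Tor, ← act_mul, mul_comm, act_mul, mem_Tor.1 hP, map_zero]

/-- The value of an integer of F. -/
noncomputable abbrev vo (V : ValuationSubring Ω) (a : 𝓞 F) : V.ValueGroup := V.valuation (ak Ω a)

omit [NumberField F] [IQ F] [DecidableEq Ω] in
theorem vo_mul (V : ValuationSubring Ω) (x y : 𝓞 F) : vo V (x * y) = vo V x * vo V y := by
  unfold vo ak
  rw [← map_mul, ← map_mul]
  rfl

omit [NumberField F] [IQ F] [DecidableEq Ω] in
theorem vo_pow (V : ValuationSubring Ω) (x : 𝓞 F) (n : ℕ) : vo V (x ^ n) = vo V x ^ n := by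
  unfold vo ak
  rw [← map_pow, ← map_pow]
  rfl

omit [NumberField F] [IQ F] [DecidableEq Ω] in
theorem vo_one (V : ValuationSubring Ω) : vo V (1 : 𝓞 F) = 1 := by
  unfold vo ak
  simp

omit [NumberField F] [IQ F] [DecidableEq Ω] in
theorem vo_nat (V : ValuationSubring Ω) (n : ℕ) : vo V (n : 𝓞 F) = V.valuation (n : Ω) := by
  unfold vo ak
  simp

omit [NumberField F] [IQ F] [DecidableEq Ω] in
theorem vo_ne (V : ValuationSubring Ω) {x : 𝓞 F} (hx : x ≠ 0) : vo V x ≠ 0 := by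
  unfold vo ak
  rw [Valuation.ne_zero_iff]
  refine (map_ne_zero _).2 ?_
  exact fun h => hx (RingOfIntegers.coe_injective (h.trans (map_zero (algebraMap (𝓞 F) F)).symm))

omit [NumberField F] [IQ F] [DecidableEq Ω] in
theorem vo_add (V : ValuationSubring Ω) {x y : 𝓞 F} (hx : vo V x < 1) (hy : vo V y < 1) : vo V (x + y) < 1 := by
  have e : ak Ω (x + y) = ak Ω x + ak Ω y := by
    unfold ak
    rw [← map_add]
    rfl
  show V.valuation (ak Ω (x + y)) < 1
  rw [e]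
  exact Valuation.map_add_lt _ hx hy

theorem vo_le (V : ValuationSubring Ω) (a : 𝓞 F) : vo V a ≤ 1 := ak_le V a

theorem vo_unit {V : ValuationSubring Ω} {π x : 𝓞 F} (h : IsCoprime π x) (hV : vo V π < 1) : vo V x = 1 := by
  obtain ⟨a, b, hab⟩ := h
  refine le_antisymm (vo_le V x) ?_
  by_contra hx
  rw [not_le] at hx
  have h1 : vo V (a * π) < 1 := by
    rw [vo_mul]
    exact lt_of_le_of_lt (mul_le_of_le_one_left' (vo_le V a)) hV
  have h2 : vo V (b * x) < 1 := by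
    rw [vo_mul]
    exact lt_of_le_of_lt (mul_le_of_le_one_left' (vo_le V b)) hx
  have h3 := vo_add V h1 h2
  rw [hab, vo_one] at h3
  exact lt_irrefl _ h3

/-- The points killed by a prime element. -/
theorem gi_gen (hA : CMA F A B Om j act) (β : 𝓞 F) (hβ : Prime β) : Nat.card (Tor act β) = Nm β ∧
    ∃ T₀ ∈ Tor act β, (∀ T ∈ Tor act β, ∃ a : 𝓞 F, T = act a T₀) ∧ ∀ a : 𝓞 F, act a T₀ = 0 ↔ β ∣ a := by
  obtain ⟨T₀, h1, h2, h3, -⟩ := hA.gen β hβ.ne_zero
  exact ⟨tor_card hA hβ.ne_zero, T₀, h1, h2, h3⟩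

/-- The data of a class: the data of the base theorem, a prime element pi above l and a cocycle c with values in the points killed
by the conjugate of pi, locally a coboundary on all inertia groups. -/
structure Cl (A B : F) (Om : ℂ) (j : Ω →+* ℂ) (act : 𝓞 F →+* AddMonoid.End (Pt (WAB A B) Ω)) (m : Ideal (𝓞 F))
    (ψ : Ideal (𝓞 F) →*₀ 𝓞 F) (π : 𝓞 F) (l : ℕ) (c : (Ω ≃ₐ[F] Ω) → Pt (WAB A B) Ω) : Prop where
  dta : Dta A B Om j act m ψ l
  pr : Prime π
  dvd : π ∣ (l : 𝓞 F)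
  mul : ∀ s t, c (s * t) = c s + ac (WAB A B) s (c t)
  cont : ∃ L : IntermediateField F Ω, FiniteDimensional F L ∧ ∀ s ∈ L.fixingSubgroup, c s = 0
  val : ∀ s, c s ∈ Tor act (cj π)
  loc : ∀ V : ValuationSubring Ω, ∃ P : Pt (WAB A B) Ω, ∀ s, Inert V s → c s = ac (WAB A B) s P - P

/-- A Galois equivariant pairing between the points killed by the conjugate of pi and those killed by pi, with
values in the l-th roots of unity. -/
structure Pairing (A B : F) (act : 𝓞 F →+* AddMonoid.End (Pt (WAB A B) Ω)) (π : 𝓞 F) (l : ℕ)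
    (e : Pt (WAB A B) Ω → Pt (WAB A B) Ω → Ω) : Prop where
  add_left : ∀ X ∈ Tor act (cj π), ∀ X' ∈ Tor act (cj π), ∀ T ∈ Tor act π, e (X + X') T = e X T * e X' T
  add_right : ∀ X ∈ Tor act (cj π), ∀ T ∈ Tor act π, ∀ T' ∈ Tor act π, e X (T + T') = e X T * e X T'
  root : ∀ X ∈ Tor act (cj π), ∀ T ∈ Tor act π, e X T ^ l = 1
  gal : ∀ (s : Ω ≃ₐ[F] Ω), ∀ X ∈ Tor act (cj π), ∀ T ∈ Tor act π,
    s (e X T) = e (ac (WAB A B) s X) (ac (WAB A B) s T)
  nondeg : ∀ X ∈ Tor act (cj π), (∀ T ∈ Tor act π, e X T = 1) → X = 0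

/-- L is the field generated by the points killed by pi. -/
def IsTF (act : 𝓞 F →+* AddMonoid.End (Pt (WAB A B) Ω)) (π : 𝓞 F) (L : IntermediateField F Ω) : Prop :=
  FiniteDimensional F L ∧ ∀ s : Ω ≃ₐ[F] Ω, s ∈ L.fixingSubgroup ↔ ∀ T ∈ Tor act π, ac (WAB A B) s T = T

/-- y is a Kummer generator for the point T. -/
def Kum (L : IntermediateField F Ω) (e : Pt (WAB A B) Ω → Pt (WAB A B) Ω → Ω)
    (c : (Ω ≃ₐ[F] Ω) → Pt (WAB A B) Ω) (T : Pt (WAB A B) Ω) (y : Ω) : Prop :=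
  y ≠ 0 ∧ ∀ s ∈ L.fixingSubgroup, s y = e (c s) T * y

variable {m : Ideal (𝓞 F)} {ψ : Ideal (𝓞 F) →*₀ 𝓞 F} {π : 𝓞 F} {l : ℕ} {c : (Ω ≃ₐ[F] Ω) → Pt (WAB A B) Ω}

theorem Cl.cma (C : Cl A B Om j act m ψ π l c) : CMA F A B Om j act := C.dta.cma

theorem Cl.hl (C : Cl A B Om j act m ψ π l c) : l.Prime := C.dta.prime

theorem Cl.five (C : Cl A B Om j act m ψ π l c) : 5 ≤ l := C.dta.five

theorem Cl.one (h : Cl A B Om j act m ψ π l c) : c 1 = 0 := by
  have h1 := h.mul 1 1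
  rw [mul_one, ac_one] at h1
  exact left_eq_add.mp h1

end cma

end H55K.S
end

-- from Lib.H55K.G3
section

/-! # H55K: translation by a point of the kernel of reduction -/

open NumberField IsDedekindDomain WeierstrassCurve

namespace H55K

open H55P (IQ embF eF LF Per IsHecke Pt ac Inert Dec Nm)
open H35P (WAB Ker tt)


variable {F : Type} [Field F] [NumberField F] [IQ F] {A B : F} {Om : ℂ} {Ω : Type} [Field Ω] [DecidableEq Ω]
  [Algebra F Ω] {j : Ω →+* ℂ} {act : 𝓞 F →+* AddMonoid.End (Pt (WAB A B) Ω)} {V : ValuationSubring Ω}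

/-- The algebra: t, w = t^3 g, b = 1/(1 - x t^2 g). -/
theorem g3_alg {k : Type} [Field k] {Γ : Type} [LinearOrderedCommGroupWithZero Γ] (v : Valuation k Γ)
    {a c x y t w s X Y : k} (ht0 : t ≠ 0) (hw0 : w ≠ 0) (hw : w = t ^ 3 + a * t * w ^ 2 + c * w ^ 3)
    (ha : v a ≤ 1) (hc : v c ≤ 1) (hx : v x ≤ 1) (hy : v y ≤ 1) (ht : v t < 1) (hvw : v w = v t ^ 3)
    (hs : s = (y - 1 / w) / (x - t / w)) (hX : X = s ^ 2 - x - t / w) (hY : Y = -(s * (X - x) + y)) :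
    v X ≤ 1 ∧ v (X - x + 2 * y * t) ≤ v t ^ 2 ∧ v (Y - y + (3 * x ^ 2 + a) * t) ≤ v t ^ 2 := by
  have hvt0 : 0 < v t := by
    rw [zero_lt_iff]
    exact (Valuation.ne_zero_iff v).2 ht0
  obtain ⟨g, hg⟩ : ∃ g, g = w / t ^ 3 := ⟨_, rfl⟩
  have ht3 : t ^ 3 ≠ 0 := pow_ne_zero 3 ht0
  have hvg : v g = 1 := by
    rw [hg, map_div₀, map_pow, hvw, div_self (pow_ne_zero 3 hvt0.ne')]
  have ew : w = t ^ 3 * g := by
    rw [hg, mul_div_cancel₀ _ ht3]
  have hg0 : g ≠ 0 := by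
    rintro rfl
    rw [mul_zero] at ew
    exact hw0 ew
  have hg2 : g = 1 + t ^ 4 * (a * g ^ 2 + c * t ^ 2 * g ^ 3) := by
    apply mul_left_cancel₀ ht3
    rw [ew] at hw
    linear_combination hw
  have hβ : v (1 - x * (t ^ 2 * g)) = 1 := by
    have h1 : v (x * (t ^ 2 * g)) < 1 := by
      rw [map_mul, map_mul, map_pow, hvg, mul_one]
      have h2 : v t ^ 2 < 1 := pow_lt_one₀ zero_le ht (by norm_num)
      exact (mul_le_of_le_one_left zero_le hx).trans_lt h2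
    rw [Valuation.map_sub_eq_of_lt_left v (by rwa [map_one]), map_one]
  have hβ0 : 1 - x * (t ^ 2 * g) ≠ 0 := by
    intro h
    rw [h, map_zero] at hβ
    exact zero_ne_one hβ
  obtain ⟨b, hb⟩ : ∃ b, b = (1 - x * (t ^ 2 * g))⁻¹ := ⟨_, rfl⟩
  have hvb : v b ≤ 1 := by rw [hb, map_inv₀, hβ, inv_one]
  have hb1 : b * (1 - x * (t ^ 2 * g)) = 1 := by rw [hb, inv_mul_cancel₀ hβ0]
  have es : s * t = (1 - y * (t ^ 3 * g)) * b := by
    have hD : x - t / w = -(t * (1 - x * (t ^ 2 * g))) / w := by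
      rw [ew]
      field_simp
      ring
    rw [hs, hD, hb]
    rw [ew]
    field_simp
    ring
  have etw : t / w * t ^ 2 * g = 1 := by
    rw [ew]
    field_simp
  -- the integers
  let t' : v.integer := ⟨t, ht.le⟩
  let g' : v.integer := ⟨g, hvg.le⟩
  let b' : v.integer := ⟨b, hvb⟩
  let x' : v.integer := ⟨x, hx⟩
  let y' : v.integer := ⟨y, hy⟩
  let a' : v.integer := ⟨a, ha⟩
  let c' : v.integer := ⟨c, hc⟩
  obtain ⟨h', hh'⟩ : ∃ M : v.integer, M = a' * g' ^ 2 + c' * t' ^ 2 * g' ^ 3 := ⟨_, rfl⟩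
  have hhc : (h' : k) = a * g ^ 2 + c * t ^ 2 * g ^ 3 := by rw [hh']; rfl
  obtain ⟨M3, hM3⟩ : ∃ M : v.integer, M = -2 * y' * t' ^ 2 * h' + (a' + 3 * x' ^ 2) * t' ^ 3 * h' +
    t' * (g' ^ 2 * (c' + y' ^ 2 - 2 * x' ^ 3)) := ⟨_, rfl⟩
  have hM3' : (M3 : k) = -2 * y * t ^ 2 * h' + (a + 3 * x ^ 2) * t ^ 3 * h' +
    t * (g ^ 2 * (c + y ^ 2 - 2 * x ^ 3)) := by rw [hM3]; rfl
  obtain ⟨M1, hM1⟩ : ∃ M : v.integer, M = -2 * y' + (a' + 3 * x' ^ 2) * t' + t' ^ 2 * M3 := ⟨_, rfl⟩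
  have hM1' : (M1 : k) = -2 * y + (a + 3 * x ^ 2) * t + t ^ 2 * M3 := by rw [hM1]; rfl
  obtain ⟨Q, hQ⟩ : ∃ M : v.integer, M = M3 + x' * g' * b' * (b' + 1) * M1 := ⟨_, rfl⟩
  have hQ' : (Q : k) = M3 + x * g * b * (b + 1) * M1 := by rw [hQ]; rfl
  obtain ⟨B, hB⟩ : ∃ M : v.integer, M = x' * g' * b' - y' * t' * g' * b' := ⟨_, rfl⟩
  have hB' : (B : k) = x * g * b - y * t * g * b := by rw [hB]; rfl
  have hgh : g = 1 + t ^ 4 * (h' : k) := by rw [hhc]; exact hg2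
  -- X
  obtain ⟨β, hβd⟩ : ∃ β, β = 1 - x * (t ^ 2 * g) := ⟨_, rfl⟩
  rw [← hβd] at hb1
  have hb2 : b - 1 = x * t ^ 2 * g * b := by
    rw [hβd] at hb1
    linear_combination hb1
  obtain ⟨T, hT⟩ : ∃ T : k, T = -2 * y * t + (a + 3 * x ^ 2) * t ^ 2 + t ^ 3 * M3 := ⟨_, rfl⟩
  have hTM : T = t * M1 := by
    rw [hT, hM1']
    ring
  have hN : a * t ^ 2 * g + c * t ^ 4 * g ^ 2 - 2 * y * t * g + y ^ 2 * t ^ 4 * g ^ 2 + 2 * x - x ^ 2 * t ^ 2 * g
      - 2 * x * β ^ 2 = T := by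
    rw [hT, hM3', hβd]
    linear_combination (-2 * y * t + (a + 3 * x ^ 2) * t ^ 2) * hgh
  have eX0 : (X - x) * t ^ 2 = t ^ 2 * (b ^ 2 * T) := by
    have h1 : (s * t) ^ 2 = (1 - y * (t ^ 3 * g)) ^ 2 * b ^ 2 := by rw [es]; ring
    have h5 : t ^ 2 * g * ((X - x) * t ^ 2) = t ^ 2 * g * (t ^ 2 * (b ^ 2 * T)) := by
      rw [hX, ← hN]
      have h6 : b ^ 2 * β ^ 2 = 1 := by rw [← mul_pow, hb1, one_pow]
      have h7 : t ^ 2 * g * (t / w) = 1 := by linear_combination etw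
      have h8 : g - 1 = t ^ 4 * (a * g ^ 2 + c * t ^ 2 * g ^ 3) := by linear_combination hg2
      have h9 : t ^ 2 * g * ((s ^ 2 - x - t / w - x) * t ^ 2) =
          t ^ 2 * g * (s * t) ^ 2 - 2 * x * t ^ 4 * g - t ^ 2 * (t ^ 2 * g * (t / w)) := by ring
      rw [h9, h1, h7]
      have h10 : β = 1 - x * (t ^ 2 * g) := hβd
      have h11 : t ^ 2 * 1 = t ^ 2 * (b ^ 2 * β ^ 2) := by rw [h6]
      rw [h11]
      have h12 : 2 * x * t ^ 4 * g = 2 * x * t ^ 4 * g * (b ^ 2 * β ^ 2) := by rw [h6, mul_one]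
      rw [h12]
      have h13 : β ^ 2 = (1 - x * (t ^ 2 * g)) ^ 2 := by rw [h10]
      linear_combination (t ^ 2 * b ^ 2) * h8 - (t ^ 2 * b ^ 2) * h13
    exact mul_left_cancel₀ (mul_ne_zero (pow_ne_zero 2 ht0) hg0) h5
  have eX : X - x = T + t ^ 3 * (x * g * b * (b + 1) * M1) := by
    have ht2 : t ^ 2 ≠ 0 := pow_ne_zero 2 ht0
    have h1 : X - x = b ^ 2 * T := by
      apply mul_right_cancel₀ ht2
      rw [eX0]
      ring
    rw [h1, hTM]
    linear_combination t * M1 * (b + 1) * hb2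
  have eX2 : X - x = -2 * y * t + (a + 3 * x ^ 2) * t ^ 2 + t ^ 3 * Q := by
    rw [eX, hT, hQ']
    ring
  have vt2 : ∀ z : v.integer, v (t ^ 2 * z) ≤ v t ^ 2 := fun z => by
    rw [map_mul, map_pow]
    exact mul_le_of_le_one_right zero_le z.2
  refine ⟨?_, ?_, ?_⟩
  · have e : X = ((x' + (-2 * y' * t' + (a' + 3 * x' ^ 2) * t' ^ 2 + t' ^ 3 * Q) : v.integer) : k) := by
      change X = x + (-2 * y * t + (a + 3 * x ^ 2) * t ^ 2 + t ^ 3 * (Q : k))
      rw [← eX2]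
      ring
    rw [e]
    exact (x' + (-2 * y' * t' + (a' + 3 * x' ^ 2) * t' ^ 2 + t' ^ 3 * Q)).2
  · have e : X - x + 2 * y * t = t ^ 2 * (((a' + 3 * x' ^ 2) + t' * Q : v.integer) : k) := by
      change X - x + 2 * y * t = t ^ 2 * ((a + 3 * x ^ 2) + t * (Q : k))
      rw [eX2]
      ring
    rw [e]
    exact vt2 _
  · have e : Y - y + (3 * x ^ 2 + a) * t = t ^ 2 * ((-Q - B * (-2 * y' + (a' + 3 * x' ^ 2) * t' + t' ^ 2 * Q) : v.integer) : k) := by
      change Y - y + (3 * x ^ 2 + a) * t = t ^ 2 * (-(Q : k) - (B : k) * (-2 * y + (a + 3 * x ^ 2) * t + t ^ 2 * (Q : k)))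
      apply mul_right_cancel₀ ht0
      have h2 : (1 - y * (t ^ 3 * g)) * b = 1 + t ^ 2 * (B : k) := by
        rw [hB']
        linear_combination hb2
      have h3 : Y * t = -(s * t) * (X - x) - y * t := by
        rw [hY]
        ring
      have h4 : (Y - y + (3 * x ^ 2 + a) * t) * t = Y * t - y * t + (3 * x ^ 2 + a) * t * t := by ring
      rw [h4, h3, es, eX2, h2]
      ring
    rw [e]
    exact vt2 _

omit [NumberField F] [IQ F] in
/-- Chunk G3 (M), port of H28G/GV5.lean (GV5_alg, transl). R = 0 clear. P = (x, y) integral (not_ker, gv_y), R in Ker, R ≠ 0: put t = tt R = x_R/y_R, w = 1/y_R, so x_R = t/w, y_R = 1/w, w = t^3 + A t w^2 + B w^3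
(from eqnA), V(w) = V(t)^3, V(t) < 1. x ≠ x_R (values). add_coords for P + R (or R + P): slope s = (y - 1/w)/(x - t/w) = (1 - y w)/(t - x w),
X := xc (P + R) = s^2 - x - t/w, and s^2 - t/w = (A t w + B w^2 - 2 y w + y^2 w^2 + 2 x t^2 - x^2 t w)/(t - x w)^2. With w = t^3 g, g = 1 + A t (w^2/t^3) + B w^3/t^3 (V(g - 1) ≤ V(t)^4, V(g) = 1),
t - x w = t b, b = 1 - x t^2 g (V(b) = 1, V(b - 1) ≤ V(t)^2): X + x = (2x - 2 y t g - x^2 t^2 g + A t^2 g + y^2 t^4 g^2 + B t^4 g^2)/b^2. So X = x - 2 y t + (3x^2 + A) t^2 + terms of value ≤ V(t)^3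
(2x (1/b^2 - 1) = 4 x^2 t^2 + ..). Y := yc (P + R) = -(s (X - x) + y) with s = (1 - y t^3 g)/(t b) = t^-1 (1 + O(t^2)): Y = y - (3x^2 + A) t + O(t^2). X, Y are integral, so P + R is not in Ker. -/
theorem transl (hV : GV A B V) {P R : Pt (WAB A B) Ω} (hP : ¬ Ker V P) (hR : Ker V R) : ¬ Ker V (P + R) ∧
    V.valuation (xc (P + R) - xc P + 2 * yc P * tt R) ≤ V.valuation (tt R) ^ 2 ∧
    V.valuation (yc (P + R) - yc P + (3 * xc P ^ 2 + algebraMap F Ω A) * tt R) ≤ V.valuation (tt R) ^ 2 := by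
  obtain ⟨hP0, hPx⟩ := not_ker V hP
  have hPy := gv_y hV hP
  by_cases hR0 : R = 0
  · subst hR0
    have e : tt (0 : Pt (WAB A B) Ω) = 0 := by rw [tt_eq, xc_zero, zero_div]
    rw [add_zero, e]
    refine ⟨hP, ?_, ?_⟩ <;> simp
  · obtain ⟨h1, h2, h3⟩ := tt_val hV hR hR0
    have ht1 := ttlt hV hR
    have hx1 : 1 < V.valuation (xc R) := (ker_iff V hR0).1 hR
    have hy0 : yc R ≠ 0 := by
      intro h0
      rw [h0, map_zero, mul_zero] at h2
      exact zero_ne_one h2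
    have hx0 : xc R ≠ 0 := by
      intro h0
      rw [h0, map_zero] at hx1
      exact absurd hx1 (not_lt.2 zero_le)
    have htt : tt R = xc R / yc R := tt_eq R
    have ht0 : tt R ≠ 0 := by rw [htt]; exact div_ne_zero hx0 hy0
    have hne : xc P ≠ xc R := by
      intro he
      rw [he] at hPx
      exact absurd hx1 (not_lt.2 hPx)
    obtain ⟨a1, a2, a3⟩ := add_coords hP0 hR0 hne
    have heq := eqnA hR0
    have hxw : tt R / (1 / yc R) = xc R := by rw [htt]; field_simp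
    have hyw : 1 / (1 / yc R) = yc R := by field_simp
    have hvw : V.valuation (1 / yc R) = V.valuation (tt R) ^ 3 := by
      have hv0 : V.valuation (yc R) ≠ 0 := (Valuation.ne_zero_iff _).2 hy0
      rw [map_div₀, map_one, one_div]
      exact (eq_inv_of_mul_eq_one_left h2).symm
    have hww : 1 / yc R = tt R ^ 3 + algebraMap F Ω A * tt R * (1 / yc R) ^ 2 + algebraMap F Ω B * (1 / yc R) ^ 3 := by
      rw [htt]
      field_simp
      linear_combination heq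
    have h5 := g3_alg V.valuation (a := algebraMap F Ω A) (c := algebraMap F Ω B) (x := xc P) (y := yc P) (t := tt R)
      (w := 1 / yc R) (s := (yc P - yc R) / (xc P - xc R)) (X := xc (P + R)) (Y := yc (P + R)) ht0 (one_div_ne_zero hy0) hww
      ((V.valuation_le_one_iff _).2 hV.a) ((V.valuation_le_one_iff _).2 hV.b) hPx hPy ht1 hvw (by rw [hxw, hyw])
      (by rw [a2, hxw]) a3
    refine ⟨?_, h5.2.1, h5.2.2⟩
    rw [ker_iff V a1]
    exact not_lt.2 h5.1

omit [NumberField F] [IQ F] in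
/-- Corollary (same chunk): congruent points. Q = P + (Q - P). -/
theorem cls_conv (hV : GV A B V) {P Q : Pt (WAB A B) Ω} (hP : ¬ Ker V P) (h : Ker V (Q - P)) : ¬ Ker V Q ∧
    V.valuation (xc Q - xc P) < 1 ∧ V.valuation (yc Q - yc P) < 1 := by
  obtain ⟨hP0, hPx⟩ := not_ker V hP
  have hPy := gv_y hV hP
  have ht := ttlt hV h
  obtain ⟨h1, h2, h3⟩ := transl hV hP h
  have e : P + (Q - P) = Q := by abel
  rw [e] at h1 h2 h3
  have ht2 : V.valuation (tt (Q - P)) ^ 2 < 1 := pow_lt_one₀ zero_le ht (by norm_num)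
  refine ⟨h1, ?_, ?_⟩
  · have h4 : V.valuation (2 * yc P * tt (Q - P)) < 1 := by
      rw [map_mul, map_mul, hV.two, one_mul]
      exact (mul_le_of_le_one_left zero_le hPy).trans_lt ht
    have e2 : xc Q - xc P = (xc Q - xc P + 2 * yc P * tt (Q - P)) - 2 * yc P * tt (Q - P) := by ring
    rw [e2]
    exact (V.valuation.map_sub _ _).trans_lt (max_lt (h2.trans_lt ht2) h4)
  · have h4 : V.valuation ((3 * xc P ^ 2 + algebraMap F Ω A) * tt (Q - P)) < 1 := by
      have h5 : V.valuation (3 * xc P ^ 2 + algebraMap F Ω A) ≤ 1 := by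
        refine V.valuation.map_add_le ?_ ((V.valuation_le_one_iff _).2 hV.a)
        rw [map_mul, hV.three, one_mul, map_pow]
        exact pow_le_one₀ zero_le hPx
      rw [map_mul]
      exact (mul_le_of_le_one_left zero_le h5).trans_lt ht
    have e2 : yc Q - yc P = (yc Q - yc P + (3 * xc P ^ 2 + algebraMap F Ω A) * tt (Q - P)) -
        (3 * xc P ^ 2 + algebraMap F Ω A) * tt (Q - P) := by ring
    rw [e2]
    exact (V.valuation.map_sub _ _).trans_lt (max_lt (h3.trans_lt ht2) h4)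

end H55K
end

-- from Lib.H55K.G4B
section

/-! # H55K: the action on the kernel of reduction -/

open NumberField IsDedekindDomain WeierstrassCurve

namespace H55K

open H55P (IQ embF eF LF Per IsHecke Pt ac Inert Dec Nm)
open H35P (WAB Ker tt)


variable {F : Type} [Field F] [NumberField F] [IQ F] {A B : F} {Om : ℂ} {Ω : Type} [Field Ω] [DecidableEq Ω]
  [Algebra F Ω] {j : Ω →+* ℂ} {act : 𝓞 F →+* AddMonoid.End (Pt (WAB A B) Ω)} {V : ValuationSubring Ω}

/-- Chunk G4B (M). a with V(Nm a) = 1. P = 0 clear. exists_TN: S. a ≠ 0; V(ak a) = 1 because ak a * ak (cj a) = Nm a and both are ≤ 1 (ak_le). For T in S: Nm a • T = 0 (tor_nm), so T is not in Ker (ker_tors), and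
act a P ≠ 0 (else P in S). cls_conv for T, P + T: V(xc (P + T) - xc T) < 1, and V(yc (P + T)) ≤ 1 (gv_y). e1x: V(a^2 xc (aP) - xc P) < 1, so V(xc (aP)) = V(xc P) > 1: aP in Ker (ker_of). e1y: V(a^3 yc (aP) - yc P) ≤ 1, so
V(yc (aP)) = V(yc P). a^3 y(aP) y(P) (tt (aP) - a tt P) = a (y(P) (a^2 x(aP) - x(P)) - x(P) (a^3 y(aP) - y(P))) has value ≤ max(V(yP), V(xP)) = V(yP) (tt_val), so V(tt (aP) - a tt P) ≤ 1/V(yP) = V(tt P)^3 ≤ V(tt P)^2. -/
theorem act_unit (h : CMA F A B Om j act) (hV : GV A B V) {a : 𝓞 F} (ha : V.valuation (Nm a : Ω) = 1)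
    {P : Pt (WAB A B) Ω} (hP : Ker V P) : Ker V (act a P) ∧
      V.valuation (tt (act a P) - ak Ω a * tt P) ≤ V.valuation (tt P) ^ 2 := by
  have e0 : tt (0 : Pt (WAB A B) Ω) = 0 := by rw [tt_eq, xc_zero, zero_div]
  by_cases hP0 : P = 0
  · subst hP0
    rw [map_zero, e0]
    exact ⟨trivial, by simp⟩
  have ha0 : a ≠ 0 := by
    rintro rfl
    have h1 : Nm (0 : 𝓞 F) = 0 := by
      unfold Nm
      rw [Ideal.absNorm_eq_zero_iff, Ideal.span_singleton_eq_bot]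
    rw [h1, Nat.cast_zero, map_zero] at ha
    exact zero_ne_one ha
  have hva : V.valuation (ak Ω a) = 1 := by
    have e1 : ak Ω a * ak Ω (cj a) = (Nm a : Ω) := by
      have e2 : ak Ω (a * cj a) = ak Ω ((Nm a : 𝓞 F)) := by rw [mul_cj]
      have e3 : ak Ω (a * cj a) = ak Ω a * ak Ω (cj a) := by
        show algebraMap F Ω (algebraMap (𝓞 F) F (a * cj a)) =
          algebraMap F Ω (algebraMap (𝓞 F) F a) * algebraMap F Ω (algebraMap (𝓞 F) F (cj a))
        rw [map_mul, map_mul]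
      have e4 : ak Ω ((Nm a : 𝓞 F)) = (Nm a : Ω) := by
        show algebraMap F Ω (algebraMap (𝓞 F) F ((Nm a : 𝓞 F))) = _
        rw [map_natCast, map_natCast]
      rw [← e3, e2, e4]
    have e5 : V.valuation (ak Ω a) * V.valuation (ak Ω (cj a)) = 1 := by
      rw [← map_mul, e1, ha]
    refine le_antisymm (ak_le V a) ?_
    rw [← e5]
    exact mul_le_of_le_one_right zero_le (ak_le V (cj a))
  have hva0 : ak Ω a ≠ 0 := by
    intro h0
    rw [h0, map_zero] at hva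
    exact zero_ne_one hva
  obtain ⟨S, hS, -⟩ := exists_TN h ha0
  have hne : act a P ≠ 0 := by
    intro h0
    exact hP0 (ker_tors hV (Nm a) ha (tor_nm h0) hP)
  have hT : ∀ T ∈ S, ¬ Ker V T := by
    intro T hT hK
    obtain ⟨h1, h2⟩ := (hS T).1 hT
    exact h2 (ker_tors hV (Nm a) ha (tor_nm h1) hK)
  have hPT : ∀ T ∈ S, ¬ Ker V (P + T) ∧ V.valuation (xc (P + T) - xc T) < 1 ∧
      V.valuation (yc (P + T) - yc T) < 1 := by
    intro T hTS
    refine cls_conv hV (hT T hTS) ?_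
    rwa [add_sub_cancel_right]
  obtain ⟨t1, t2, t3⟩ := tt_val hV hP hP0
  have hx1 : 1 < V.valuation (xc P) := (ker_iff V hP0).1 hP
  have hy1 : 1 < V.valuation (yc P) := hx1.trans t3
  have htl := ttlt hV hP
  have E1 := h.e1x a S ha0 hS P hne
  have E2 := h.e1y a S ha0 hS P hne
  have hs1 : V.valuation (∑ T ∈ S, (xc (P + T) - xc T)) < 1 :=
    Valuation.map_sum_lt _ one_ne_zero fun T hTS => (hPT T hTS).2.1
  have hs2 : V.valuation (∑ T ∈ S, yc (P + T)) ≤ 1 :=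
    Valuation.map_sum_le _ fun T hTS => gv_y hV (hPT T hTS).1
  have hx2 : V.valuation (xc (act a P)) = V.valuation (xc P) := by
    have h1 : V.valuation (ak Ω a ^ 2 * xc (act a P)) = V.valuation (xc (act a P)) := by
      rw [map_mul, map_pow, hva, one_pow, one_mul]
    rw [← h1, E1]
    exact Valuation.map_add_eq_of_lt_left _ (hs1.trans hx1)
  have hy2 : V.valuation (yc (act a P)) = V.valuation (yc P) := by
    have h1 : V.valuation (ak Ω a ^ 3 * yc (act a P)) = V.valuation (yc (act a P)) := by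
      rw [map_mul, map_pow, hva, one_pow, one_mul]
    rw [← h1, E2]
    exact Valuation.map_add_eq_of_lt_left _ (hs2.trans_lt hy1)
  refine ⟨ker_of V (by rw [hx2]; exact hx1), ?_⟩
  have hyP0 : yc P ≠ 0 := by
    intro h0
    rw [h0, map_zero] at hy1
    exact absurd hy1 (not_lt.2 zero_le)
  have hyQ0 : yc (act a P) ≠ 0 := by
    intro h0
    rw [h0, map_zero] at hy2
    exact hyP0 ((Valuation.zero_iff _).1 hy2.symm)
  obtain ⟨D, hD⟩ : ∃ D, D = tt (act a P) - ak Ω a * tt P := ⟨_, rfl⟩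
  rw [← hD]
  have key : ak Ω a ^ 3 * yc (act a P) * yc P * D = ak Ω a * (yc P * (∑ T ∈ S, (xc (P + T) - xc T)) -
      xc P * (∑ T ∈ S, yc (P + T))) := by
    have h1 : (∑ T ∈ S, (xc (P + T) - xc T)) = ak Ω a ^ 2 * xc (act a P) - xc P := by
      rw [E1]
      ring
    have h2 : (∑ T ∈ S, yc (P + T)) = ak Ω a ^ 3 * yc (act a P) - yc P := by
      rw [E2]
      ring
    rw [h1, h2, hD, tt_eq, tt_eq]
    field_simp
    ring
  have hle : V.valuation (yc P) * V.valuation (yc P) * V.valuation D ≤ V.valuation (yc P) := by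
    have h1 : V.valuation (ak Ω a ^ 3 * yc (act a P) * yc P * D) =
        V.valuation (yc P) * V.valuation (yc P) * V.valuation D := by
      rw [map_mul, map_mul, map_mul, map_pow, hva, one_pow, one_mul, hy2]
    rw [← h1, key, map_mul, hva, one_mul]
    refine (V.valuation.map_sub _ _).trans (max_le ?_ ?_)
    · rw [map_mul]
      exact mul_le_of_le_one_right zero_le hs1.le
    · rw [map_mul]
      exact (mul_le_of_le_one_right zero_le hs2).trans t3.le
  calc V.valuation D = (V.valuation (tt P) ^ 3 * V.valuation (yc P)) ^ 2 * V.valuation D := by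
        rw [t2, one_pow, one_mul]
    _ = V.valuation (tt P) ^ 6 * (V.valuation (yc P) * V.valuation (yc P) * V.valuation D) := by
        rw [mul_pow, ← pow_mul, pow_two (V.valuation (yc P)), mul_assoc]
    _ ≤ V.valuation (tt P) ^ 6 * V.valuation (yc P) := mul_le_mul_right hle _
    _ = V.valuation (tt P) ^ 3 * (V.valuation (tt P) ^ 3 * V.valuation (yc P)) := by
        rw [← mul_assoc, ← pow_add]
    _ = V.valuation (tt P) ^ 3 := by rw [t2, mul_one]
    _ ≤ V.valuation (tt P) ^ 2 := pow_le_pow_right_of_le_one' htl.le (by norm_num)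

end H55K
end
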