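import Mathlib
import Pool.Agent.Lib.H1M.PP.D_H55P_Sel
import Pool.Agent.Lib.H1M.PP.M037

/-! # H13D, part M: minimal equations: definitions -/

open NumberField IsDedekindDomain WeierstrassCurve

namespace H13D

open H55P (IQ embF eF LF Per IsHecke Pt ac Inert Dec Nm)
open H55K

/-- The coefficients of the equation are integral. -/
structure VI {k Γ : Type} [Field k] [LinearOrderedCommGroupWithZero Γ] (v : Valuation k Γ) (E : WeierstrassCurve k) : Prop where
  a1 : v E.a₁ ≤ 1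
  a2 : v E.a₂ ≤ 1
  a3 : v E.a₃ ≤ 1
  a4 : v E.a₄ ≤ 1
  a6 : v E.a₆ ≤ 1

/-- The equation over the rational numbers is integral at l and its discriminant is prime to l. -/
structure IntL (E : WeierstrassCurve ℚ) (l : ℕ) : Prop where
  a1 : ¬ l ∣ E.a₁.den
  a2 : ¬ l ∣ E.a₂.den
  a3 : ¬ l ∣ E.a₃.den
  a4 : ¬ l ∣ E.a₄.den
  a6 : ¬ l ∣ E.a₆.den
  num : ¬ (l : ℤ) ∣ E.Δ.num
  den : ¬ l ∣ E.Δ.den

/-- The prime numbers dividing the discriminant of W are primes of bad reduction (this holds if W is a global minimal equation). -/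
def MinZ (W : WeierstrassCurve ℤ) : Prop :=
  ∀ l : ℕ, l.Prime → (l : ℤ) ∣ W.Δ → ∀ C : VariableChange ℚ, ¬ IntL (C • (W⁄ℚ)) l

/-- σ is the complex conjugation of F. -/
def Cj {F : Type} [Field F] [NumberField F] [IQ F] (σ : F ≃ₐ[ℚ] F) : Prop := ∀ a : 𝓞 F, σ (a : F) = ((cj a : 𝓞 F) : F)

end H13D
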