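import Mathlib

/-!
# H55K, part D: the L-function of a curve with complex multiplication over a number field

Definitions. R is a discrete valuation ring with fraction field K.
-/

open NumberField IsDedekindDomain WeierstrassCurve

namespace H55K

/-- The curve W over K has good reduction at w: it has a model with w-integral coefficients and discriminant a unit at w. -/
def GoodAt {K : Type} [Field K] [NumberField K] (W : WeierstrassCurve K) (w : HeightOneSpectrum (𝓞 K)) : Prop :=
  ∃ C : VariableChange K, w.valuation K (C • W).a₁ ≤ 1 ∧ w.valuation K (C • W).a₂ ≤ 1 ∧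
    w.valuation K (C • W).a₃ ≤ 1 ∧ w.valuation K (C • W).a₄ ≤ 1 ∧ w.valuation K (C • W).a₆ ≤ 1 ∧
    w.valuation K (C • W).Δ = 1

namespace DD

/-- The local Euler factor of W at w, with complex coefficients. -/
noncomputable def LF' {K : Type} [Field K] [NumberField K] (W : WeierstrassCurve K) (w : HeightOneSpectrum (𝓞 K)) :
    ArithmeticFunction ℂ :=
  (((W.baseChange (w.adicCompletion K)).localEulerFactor (w.adicCompletionIntegers K) : ArithmeticFunction ℤ) :
    ArithmeticFunction ℂ)

/-- The Euler factor of degree one with parameter a. -/
noncomputable def ef (q : ℕ) (a : ℂ) : ArithmeticFunction ℂ :=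
  ArithmeticFunction.ofPowerSeries q ((1 - PowerSeries.C a * PowerSeries.X)⁻¹ : PowerSeries ℂ)

end DD

end H55K
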