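import Mathlib
import Pool.Agent.Lib.H1M.PP.M016

/-!
# H55D: definitions

The rank part and the 2-part of the conjecture of Birch and Swinnerton-Dyer for y^2 + y = x^3 over number fields
which need not contain the cube roots of unity. On top of H55N (Hecke L-values over K), see PROOF.md.
-/

open NumberField IsDedekindDomain

namespace H55D

open H55B H55C

open Classical in
/-- Points of E27 over the completion with nonsingular reduction (of the minimal equation
y^2 + y = x^3): the partial derivatives 3x^2 and 2y + 1 do not both reduce to 0. -/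
def E0 (K : Type) [Field K] [NumberField K] (w : HeightOneSpectrum (𝓞 K)) :
    Set (E27.baseChange (w.adicCompletion K)).toAffine.Point :=
  {P | P = 0 ∨ ∃ (x y : w.adicCompletion K)
    (h : (E27.baseChange (w.adicCompletion K)).toAffine.Nonsingular x y),
    P = WeierstrassCurve.Affine.Point.some x y h ∧
      (1 ≤ Valued.v (3 * x ^ 2) ∨ 1 ≤ Valued.v (2 * y + 1))}

open Classical in
/-- The Tamagawa number: the index of the subgroup of points with nonsingular reduction. -/
noncomputable def tam (K : Type) [Field K] [NumberField K] (w : HeightOneSpectrum (𝓞 K)) : ℕ :=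
  (AddSubgroup.closure (E0 K w)).index

/-- The real period: the smallest positive real number in the period lattice. -/
noncomputable def Omr (L : PeriodPair) : ℝ := sInf {x : ℝ | 0 < x ∧ (x : ℂ) ∈ L.lattice}

open Classical in
/-- The analytic order of the Tate-Shafarevich group of E27 over K predicted by the formula of Birch and
Swinnerton-Dyer in rank 0, for a number field K with real and complex places; L1 is the value of the
L-function at 1. -/
noncomputable def shaAn (K : Type) [Field K] [NumberField K] (L : PeriodPair) (L1 : ℂ) : ℂ :=
  L1 * (Real.sqrt |(NumberField.discr K : ℝ)| : ℝ) *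
    (Nat.card (E27.baseChange K).toAffine.Point : ℂ) ^ 2 /
    ((Omr L : ℂ) ^ NumberField.InfinitePlace.nrRealPlaces K *
      (Om L : ℂ) ^ NumberField.InfinitePlace.nrComplexPlaces K *
      ∏ᶠ w : HeightOneSpectrum (𝓞 K), (tam K w : ℂ))

/-- The rank part and the 2-part of the conjecture of Birch and Swinnerton-Dyer for E27 over K, in
analytic rank 0 and with trivial 2-Selmer group: SelTwo K, the L-series converges absolutely
for Re s > 3/2 and continues analytically to Re s > 1/2 with nonzero value at 1, and the analytic order of the
Tate-Shafarevich group is a 2-adic unit (for the period lattice L of dx/(2y+1), which exists). -/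
def BSD2 (K : Type) [Field K] [NumberField K] : Prop :=
  SelTwo K ∧ (∃ L : PeriodPair, L.g₂ = 0 ∧ L.g₃ = -1) ∧
  ∃ Λ : ℂ → ℂ, AnalyticOnNhd ℂ Λ {s | 1 / 2 < s.re} ∧
    (∀ s : ℂ, 3 / 2 < s.re →
      LSeriesSummable (fun n => (((E27.baseChange K).LFunction n : ℤ) : ℂ)) s ∧
      Λ s = (E27.baseChange K).LSeries s) ∧
    Λ 1 ≠ 0 ∧
    ∀ L : PeriodPair, L.g₂ = 0 → L.g₃ = -1 → Unit2 (shaAn K L (Λ 1))

end H55D
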