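import Mathlib
import Pool.Agent.Lib.H1M.PP.D_H55D_Defs
import Pool.Agent.Lib.H1M.PP.D_H55P_Sel

/-!
# H55P: the statement for y^2 + y = x^3

F is the field of cube roots of unity, O its ring of integers, E27 the curve y^2 + y = x^3 over the rationals.
-/

open NumberField IsDedekindDomain WeierstrassCurve

namespace H55P

open H55B (F O E27)
open H55C (Om)

section galois

variable {K : Type} [Field K]

/-- The function c is a continuous cocycle on the absolute Galois group of K with values in the points of W over the
algebraic closure. -/
structure Cocycle (W : WeierstrassCurve K) [DecidableEq (AlgebraicClosure K)]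
    (c : (AlgebraicClosure K ≃ₐ[K] AlgebraicClosure K) → Pt W (AlgebraicClosure K)) : Prop where
  mul : ∀ s t, c (s * t) = c s + ac W s (c t)
  cont : ∃ L : IntermediateField K (AlgebraicClosure K), FiniteDimensional K L ∧
    ∀ s ∈ L.fixingSubgroup, c s = 0

open Classical in
/-- The p-Selmer group of W over the number field K is zero. The local conditions are imposed on the inertia groups only
(triviality in the cohomology of the inertia groups with values in all points), so that the group contains the classical
p-Selmer group. -/
def SelTriv (W : WeierstrassCurve K) (p : ℕ) : Prop :=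
  ∀ c : (AlgebraicClosure K ≃ₐ[K] AlgebraicClosure K) → Pt W (AlgebraicClosure K), Cocycle W c →
    (∀ s, p • c s = 0) →
    (∀ V : ValuationSubring (AlgebraicClosure K), ∃ P, ∀ s, Inert V s → c s = ac W s P - P) →
    ∃ T, p • T = 0 ∧ ∀ s, c s = ac W s T - T

open Classical in
/-- The p-torsion of the Tate-Shafarevich group of W over the number field K (local conditions at the finite places
only, that is for the decomposition groups of the nontrivial valuation rings) is zero. -/
def ShaTriv (W : WeierstrassCurve K) (p : ℕ) : Prop :=
  ∀ c : (AlgebraicClosure K ≃ₐ[K] AlgebraicClosure K) → Pt W (AlgebraicClosure K), Cocycle W c →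
    (∃ Q, ∀ s, p • c s = ac W s Q - Q) →
    (∀ V : ValuationSubring (AlgebraicClosure K), V ≠ ⊤ →
      ∃ P, ∀ s, Dec V s → c s = ac W s P - P) →
    ∃ P, ∀ s, c s = ac W s P - P

end galois

/-- The curve y^2 + y = x^3 over O. -/
noncomputable def W27O : WeierstrassCurve O := ⟨0, 0, 1, 0, 0⟩

/-- z is a p-adic unit: a unit for all valuations of the complex numbers above p. -/
def UnitP (p : ℕ) (z : ℂ) : Prop := ∀ A : ValuationSubring ℂ, A.valuation (p : ℂ) < 1 → A.valuation z = 1

/-- The prime v of F does not divide 3 p, and p does not divide the number of points of y^2 + y = x^3 over the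
residue field. -/
def GoodP (p : ℕ) (v : HeightOneSpectrum O) : Prop :=
  (3 : O) ∉ v.asIdeal ∧ (p : O) ∉ v.asIdeal ∧ ¬ p ∣ Nat.card (W27O⁄(O ⧸ v.asIdeal)).toAffine.Point

/-- L is a Galois extension of F of degree a power of p, unramified outside the good primes. -/
def ExtP (p : ℕ) (L : Type) [Field L] [NumberField L] [Algebra F L] : Prop :=
  IsGalois F L ∧ (∃ k : ℕ, Module.finrank F L = p ^ k) ∧
    ∀ (W : HeightOneSpectrum (𝓞 L)) (v : HeightOneSpectrum O), v.asIdeal = W.asIdeal.under O →
      ¬ GoodP p v → W.asIdeal.ramificationIdx O = 1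

/-- K is (isomorphic to) a subfield of such an extension of F. -/
def InP (p : ℕ) (K : Type) [Field K] [NumberField K] : Prop :=
  ∃ (L : Type) (_ : Field L) (_ : NumberField L) (_ : Algebra F L) (_ : Algebra K L), ExtP p L

/-- The rank part and the p-part of the conjecture of Birch and Swinnerton-Dyer for y^2 + y = x^3 over K, in analytic
rank 0 and with trivial p-Selmer group: the p-Selmer group and the p-torsion of the Tate-Shafarevich group are zero, the
group of points is finite of order prime to p, the L-series converges absolutely for Re s > 3/2 and continues analytically to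
Re s > 1/2 with nonzero value at 1, and the analytic order of the Tate-Shafarevich group is a p-adic unit (for the
period lattice L of dx/(2y+1), which exists). -/
def BSDP (p : ℕ) (K : Type) [Field K] [NumberField K] : Prop :=
  (SelTriv (E27.baseChange K) p ∧ ShaTriv (E27.baseChange K) p ∧
    Finite (E27.baseChange K).toAffine.Point ∧ ¬ p ∣ Nat.card (E27.baseChange K).toAffine.Point) ∧
  (∃ L : PeriodPair, L.g₂ = 0 ∧ L.g₃ = -1) ∧
  ∃ Λ : ℂ → ℂ, AnalyticOnNhd ℂ Λ {s | 1 / 2 < s.re} ∧
    (∀ s : ℂ, 3 / 2 < s.re →
      LSeriesSummable (fun n => (((E27.baseChange K).LFunction n : ℤ) : ℂ)) s ∧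
      Λ s = (E27.baseChange K).LSeries s) ∧
    Λ 1 ≠ 0 ∧
    ∀ L : PeriodPair, L.g₂ = 0 → L.g₃ = -1 → UnitP p (H55D.shaAn K L (Λ 1))

end H55P
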