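import Mathlib
import Pool.Agent.Lib.H1M.PP.D_H55B_Defs
import Pool.Agent.Lib.H1M.PP.M001
import Pool.Agent.Lib.H1M.PP.M005
import Pool.Agent.Lib.H1M.PP.M006

/-! Merged copies (to shorten the build) of Lib.H35T.E1, Lib.H55K.W1C, Lib.H55K.W2A, Lib.H55K.W2B, Lib.H55K.W4D, Lib.H55K.W2C, Lib.H55K.W3A, Lib.H55K.W3D, Lib.H55K.W3C, Lib.H55R.HD, Lib.H55R.BF1, Lib.H55R.BF2, Lib.H55R.HB1, Lib.H55R.HCD, Lib.H55R.BF3, Lib.H55R.HC1, Lib.H55R.HC2, Lib.H99B.Defs, Lib.H55R.HA3, Lib.H55R.HA5. -/

-- from Lib.H35T.E1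
section

open NumberField IsDedekindDomain

namespace H35T

open H55B

/-! Chunk E1 (M): number of points of y^2 = x^3 - 1 over a finite field k of characteristic prime to 6 with a map phi : O -> k; chi is
the cubic character of H55B.exists_chi (properties as in neg_jacobi), J = J(chi, chi). Number of x with x^3 = c: 1 if c = 0, 1 + chi c + chi(c)^2
otherwise (see the proof of H55B.E1.exists_chi). So the number is sum_y (1 + chi(1 + y^2) + chi(1 + y^2)^2) = q + S + cj S with
S = sum_y chi(1 + y^2) (chi 0 = 0, cj (chi x) = chi x ^ 2; cj (chi 0) = 0). S' := sum_z chi(1 - z^2): substitute a = (1 + z)/2, a(1 - a) =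
(1 - z^2)/4, so J = sum_a chi(a(1-a)) = chi(4)^(-1) S', S' = chi(4) J. If -1 = i^2 in k, z = i y gives S = S'. If -1 is not a square,
every u in k is z^2 or -z^2: S + S' = 2 sum_u chi(1 - u) = 0 (each nonzero u is twice of the form z^2 or twice of the form -y^2, u = 0
once in each; chi nontrivial), so S = -S'. -/

private lemma E1_om_cube : om ^ 3 = 1 := by
  linear_combination (om - 1) * om_rel

private lemma E1_cube_cases {R : Type*} [CommRing R] [IsDomain R] {w z : R} (hw : w ^ 2 + w + 1 = 0)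
    (hz : z ^ 3 = 1) : z = 1 ∨ z = w ∨ z = w ^ 2 := by
  have h : (z - 1) * ((z - w) * (z - w ^ 2)) = 0 := by
    have hw3 : w ^ 3 = 1 := by linear_combination (w - 1) * hw
    linear_combination hz - (z ^ 2 - z) * hw - hw3 * (1 - z)
  rcases mul_eq_zero.mp h with h | h
  · left; exact sub_eq_zero.mp h
  rcases mul_eq_zero.mp h with h | h
  · right; left; exact sub_eq_zero.mp h
  · right; right; exact sub_eq_zero.mp h

section
variable {k : Type*} [Field k] (φ : O →+* k)

private lemma E1_w_rel : (φ om) ^ 2 + φ om + 1 = 0 := by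
  have h := congrArg φ om_rel
  simpa using h

private lemma E1_w_ne_one (h3 : φ 3 ≠ 0) : φ om ≠ 1 := by
  intro h
  apply h3
  have h1 := E1_w_rel φ
  rw [h] at h1
  rw [map_ofNat]
  linear_combination h1


end

section E1
variable (k : Type*) [Field k] [Fintype k]

open Classical in
theorem E1_cnt (φ : O →+* k) (h3 : φ 3 ≠ 0) (χ : MulChar k O) (hχ3 : χ ^ 3 = 1)
    (h3c : 3 ∣ Fintype.card k - 1) (hφ : ∀ x : k, φ (χ x) = x ^ ((Fintype.card k - 1) / 3))
    (c : k) : ∑ x : k, (if c = x ^ 3 then (1 : O) else 0) = 1 + χ c + χ c ^ 2 := by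
  have hw := E1_w_rel φ
  have hw1 := E1_w_ne_one φ h3
  have hw0 : φ om ≠ 0 := by
    intro h; rw [h] at hw; simp at hw
  have hw3 : (φ om) ^ 3 = 1 := by linear_combination (φ om - 1) * hw
  obtain ⟨m, hm⟩ := h3c
  have hm' : (Fintype.card k - 1) / 3 = m := by omega
  have hcard : 1 < Fintype.card k := Fintype.one_lt_card
  have hmpos : 0 < m := by omega
  have hχ0 : χ 0 = 0 := MulChar.map_zero χ
  have hφχ : ∀ x : k, φ (χ x) = x ^ m := by
    intro x
    rw [hφ, hm']
  have hχc : ∀ x : k, x ≠ 0 → χ x ^ 3 = 1 := by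
    intro x hx
    have h : (χ ^ 3) x = (1 : MulChar k O) x := by rw [hχ3]
    rw [MulChar.pow_apply' χ (by norm_num : (3 : ℕ) ≠ 0),
      MulChar.one_apply (isUnit_iff_ne_zero.2 hx)] at h
    exact h
  -- cubes
  have hcube : ∀ c : k, c ≠ 0 → c ^ m = 1 → ∃ x, c = x ^ 3 := by
    intro c hc hcm
    obtain ⟨g, hg⟩ := IsCyclic.exists_generator (α := kˣ)
    obtain ⟨j, hj⟩ := (mem_powers_iff_mem_zpowers.mpr (hg (Units.mk0 c hc)))
    have hj' : (g : k) ^ j = c := by
      have := congrArg Units.val hj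
      simpa using this
    have h1 : g ^ (j * m) = 1 := by
      apply Units.ext
      rw [Units.val_pow_eq_pow_val, pow_mul, hj', hcm, Units.val_one]
    have h2 : orderOf g = Fintype.card k - 1 := by
      rw [orderOf_eq_card_of_forall_mem_zpowers hg, Nat.card_eq_fintype_card, Fintype.card_units]
    have h3 := orderOf_dvd_of_pow_eq_one h1
    rw [h2, hm] at h3
    obtain ⟨i, hi⟩ := Nat.dvd_of_mul_dvd_mul_right hmpos h3
    refine ⟨(g : k) ^ i, ?_⟩
    rw [← hj', hi, ← pow_mul, mul_comm]
  have hcnt : ∀ c : k, ∑ x : k, (if c = x ^ 3 then (1 : O) else 0) = 1 + χ c + χ c ^ 2 := by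
    intro c
    by_cases hc : c = 0
    · subst hc
      rw [hχ0]
      have : ∀ x : k, (if (0 : k) = x ^ 3 then (1 : O) else 0) = if x = 0 then 1 else 0 := by
        intro x
        by_cases hx : x = 0
        · simp [hx]
        · have : (0 : k) ≠ x ^ 3 := (pow_ne_zero 3 hx).symm
          simp [hx, this]
      simp [this]
    · by_cases hex : ∃ x, c = x ^ 3
      · obtain ⟨x0, hx0⟩ := hex
        have hx00 : x0 ≠ 0 := by
          rintro rfl
          apply hc; rw [hx0]; simp
        have hχc1 : χ c = 1 := by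
          rw [hx0, map_pow, hχc x0 hx00]
        have hfil : (Finset.univ.filter fun x : k => c = x ^ 3) =
            {x0, φ om * x0, (φ om) ^ 2 * x0} := by
          ext x
          simp only [Finset.mem_filter, Finset.mem_univ, true_and, Finset.mem_insert,
            Finset.mem_singleton]
          constructor
          · intro hx
            have h1 : (x / x0) ^ 3 = 1 := by
              rw [div_pow, ← hx, ← hx0, div_self hc]
            rcases E1_cube_cases hw h1 with h | h | h
            · left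
              rw [div_eq_iff hx00, one_mul] at h; exact h
            · right; left
              rw [div_eq_iff hx00] at h; exact h
            · right; right
              rw [div_eq_iff hx00] at h; exact h
          · rintro (h | h | h)
            · rw [h, hx0]
            · rw [h, mul_pow, hw3, one_mul, hx0]
            · rw [h, mul_pow, ← pow_mul, mul_comm 2 3, pow_mul, hw3, one_pow, one_mul, hx0]
        have hw2 : (φ om) ^ 2 ≠ 1 := by
          intro h
          apply hw1
          calc φ om = φ om * (φ om) ^ 2 := by rw [h, mul_one]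
            _ = (φ om) ^ 3 := by ring
            _ = 1 := hw3
        have hw12 : (φ om) ≠ φ om ^ 2 := by
          intro h
          apply hw1
          have : φ om * (φ om - 1) = 0 := by linear_combination -h
          rcases mul_eq_zero.mp this with h | h
          · exact absurd h hw0
          · exact sub_eq_zero.mp h
        have hcard3 : ({x0, φ om * x0, (φ om) ^ 2 * x0} : Finset k).card = 3 := by
          apply Finset.card_eq_three.mpr
          refine ⟨_, _, _, ?_, ?_, ?_, rfl⟩
          · intro h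
            apply hw1
            exact (mul_right_cancel₀ hx00 (by rw [one_mul]; exact h)).symm
          · intro h
            apply hw2
            exact (mul_right_cancel₀ hx00 (by rw [one_mul]; exact h)).symm
          · intro h
            exact hw12 (mul_right_cancel₀ hx00 h)
        rw [Finset.sum_ite, Finset.sum_const_zero, add_zero, Finset.sum_const, hfil, hcard3, hχc1]
        norm_num
      · have h1 : ∑ x : k, (if c = x ^ 3 then (1 : O) else 0) = 0 := by
          apply Finset.sum_eq_zero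
          intro x _
          rw [if_neg]
          intro h
          exact hex ⟨x, h⟩
        rw [h1]
        have h2 : χ c ≠ 1 := by
          intro h
          apply hex
          apply hcube c hc
          rw [← hφχ, h, map_one]
        have h3 : (χ c - 1) * (1 + χ c + χ c ^ 2) = 0 := by
          linear_combination hχc c hc
        rcases mul_eq_zero.mp h3 with h | h
        · exact absurd (sub_eq_zero.mp h) h2
        · exact h.symm
  exact hcnt c

theorem E1_J (h2 : (2 : k) ≠ 0) (χ : MulChar k O) :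
    χ 4 * jacobiSum χ χ = ∑ z : k, χ (1 - z ^ 2) := by
  unfold jacobiSum
  rw [Finset.mul_sum]
  refine Fintype.sum_bijective (fun a : k => 2 * a - 1) ?_ _ _ ?_
  · constructor
    · intro a b hab
      have h : (2 : k) * a = 2 * b := by
        have : 2 * a - 1 = 2 * b - 1 := hab
        linear_combination this
      exact mul_left_cancel₀ h2 h
    · intro z
      refine ⟨(z + 1) / 2, ?_⟩
      show 2 * ((z + 1) / 2) - 1 = z
      field_simp
      ring
  · intro a
    rw [← map_mul, ← map_mul]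
    congr 1
    ring

open Classical in
theorem E1_neg (h2 : (2 : k) ≠ 0) (χ : MulChar k O) (hχ : χ ≠ 1) (hs : ¬ IsSquare (-1 : k)) :
    ∑ z : k, χ (1 + z ^ 2) + ∑ z : k, χ (1 - z ^ 2) = 0 := by
  have hchar : ringChar k ≠ 2 := by
    intro h
    apply h2
    have := ringChar.Nat.cast_ringChar (R := k)
    rw [h] at this
    exact_mod_cast this
  have h1 : ∀ f : k → O, ∑ z : k, f (z ^ 2) =
      ∑ u : k, ((quadraticChar k u + 1 : ℤ) : O) * f u := by
    intro f
    rw [← Finset.sum_fiberwise' (Finset.univ : Finset k) (fun z : k => z ^ 2) f]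
    apply Finset.sum_congr rfl
    intro u _
    rw [Finset.sum_const, ← quadraticChar_card_sqrts hchar u, nsmul_eq_mul]
    congr 1
    rw [Int.cast_natCast]
    congr 2
    ext z
    simp
  have e1 := h1 (fun u => χ (1 + u))
  have e2 := h1 (fun u => χ (1 - u))
  rw [e1, e2, ← Equiv.sum_comp (Equiv.neg k) (fun u : k =>
    ((quadraticChar k u + 1 : ℤ) : O) * χ (1 - u)), ← Finset.sum_add_distrib]
  have h4 : ∀ u : k, ((quadraticChar k u + 1 : ℤ) : O) * χ (1 + u) +
      ((quadraticChar k ((Equiv.neg k) u) + 1 : ℤ) : O) * χ (1 - (Equiv.neg k) u) =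
      2 * χ (1 + u) := by
    intro u
    have h5 : (Equiv.neg k) u = (-1) * u := by simp
    have h6 : quadraticChar k (-1) = -1 := by
      rw [quadraticChar_neg_one_iff_not_isSquare]
      exact hs
    rw [h5, map_mul, h6]
    have h7 : (1 : k) - (-1) * u = 1 + u := by ring
    rw [h7]
    push_cast
    ring
  rw [Finset.sum_congr rfl (fun u _ => h4 u), ← Finset.mul_sum]
  have h8 : ∑ u : k, χ (1 + u) = 0 := by
    have h9 := MulChar.sum_eq_zero_of_ne_one hχ
    rw [← Equiv.sum_comp (Equiv.addLeft (1 : k))] at h9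
    simpa using h9
  rw [h8, mul_zero]

end E1

open Classical in
theorem count (k : Type*) [Field k] [Fintype k] (φ : O →+* k) (h3 : φ 3 ≠ 0) (h2 : φ 2 ≠ 0)
    (χ : MulChar k O) (hχ3 : χ ^ 3 = 1) (hχ : χ ≠ 1) (h3c : 3 ∣ Fintype.card k - 1)
    (hφ : ∀ x : k, φ (χ x) = x ^ ((Fintype.card k - 1) / 3)) (hcj : ∀ x : k, cj (χ x) = χ x ^ 2) :
    (Nat.card {p : k × k // p.2 ^ 2 = p.1 ^ 3 - 1} : O) = (Fintype.card k : O) +
      (if IsSquare (-1 : k) then 1 else -1) * (χ 4 * jacobiSum χ χ + cj (χ 4 * jacobiSum χ χ)) := by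
  have h2k : (2 : k) ≠ 0 := by
    rwa [map_ofNat] at h2
  have hS : ∑ y : k, χ (1 + y ^ 2) =
      (if IsSquare (-1 : k) then 1 else -1) * (χ 4 * jacobiSum χ χ) := by
    rw [E1_J k h2k χ]
    split_ifs with hs
    · rw [one_mul]
      obtain ⟨i, hi⟩ := hs
      have hi0 : i ≠ 0 := by
        rintro rfl
        simp at hi
      refine (Fintype.sum_bijective (fun z : k => i * z) ?_ _ _ ?_).symm
      · exact ⟨fun a b hab => mul_left_cancel₀ hi0 hab, fun z => ⟨z / i, by
          show i * (z / i) = z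
          field_simp⟩⟩
      · intro z
        congr 1
        linear_combination (z ^ 2) * hi
    · have h := E1_neg k h2k χ hχ hs
      linear_combination h
  rw [Nat.card_eq_fintype_card, Fintype.card_subtype, Finset.card_filter]
  push_cast
  rw [Fintype.sum_prod_type_right]
  simp only
  have h1 : ∀ y : k, ∑ x : k, (if y ^ 2 = x ^ 3 - 1 then (1 : O) else 0) =
      1 + χ (1 + y ^ 2) + cj (χ (1 + y ^ 2)) := by
    intro y
    rw [hcj, ← E1_cnt k φ h3 χ hχ3 h3c hφ (1 + y ^ 2)]
    apply Finset.sum_congr rfl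
    intro x _
    have h4 : (y ^ 2 = x ^ 3 - 1) ↔ (1 + y ^ 2 = x ^ 3) := by
      constructor
      · intro h
        linear_combination h
      · intro h
        linear_combination h
    simp only [h4]
  rw [Finset.sum_congr rfl (fun y _ => h1 y), Finset.sum_add_distrib, Finset.sum_add_distrib,
    ← map_sum cj, hS]
  have h5 : ∀ z : O, cj ((if IsSquare (-1 : k) then 1 else -1) * z) =
      (if IsSquare (-1 : k) then 1 else -1) * cj z := by
    intro z
    split_ifs <;> simp
  rw [h5, Finset.sum_const, Finset.card_univ, nsmul_eq_mul, mul_one]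
  ring

end H35T
end

-- from Lib.H55K.W1C
section

/-! # H55K, part W: the coordinate ring is a Dedekind domain -/

open Polynomial

open scoped Polynomial.Bivariate

namespace H55K.WZ

open WeierstrassCurve (Affine)

variable {k : Type} [Field k] (W : Affine k)

/-- Chunk W1C (S/M). IsDedekindDomain R: domain (Mathlib), Noetherian (finite module over the Noetherian ring k[X]: isNoetherian_of_isNoetherianRing_of_finite, isNoetherian_of_tower k[X] or
Algebra.FiniteType), dimension at most one (a nonzero prime P of R: comap to k[X] is a nonzero prime because R is integral over k[X] and a domain (Ideal.IsIntegralClosure.comap_ne_bot,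
Ideal.comap_ne_bot_of_integral_mem or: norm f is a nonzero element of P ∩ k[X] for 0 ≠ f in P), so maximal, so P is maximal: Ideal.isMaximal_of_isIntegral_of_isMaximal_comap), integrally closed (int_closed).
isDedekindDomain_iff or the constructor; compare Mathlib.RingTheory.DedekindDomain.IntegralClosure and Basic. -/
theorem dedekind (hΔ : W.Δ ≠ 0) : IsDedekindDomain W.CoordinateRing := by
  have hint : Algebra.IsIntegral k[X] W.CoordinateRing := inferInstance
  rw [isDedekindDomain_iff W.CoordinateRing (FractionRing W.CoordinateRing)]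
  refine ⟨inferInstance, ?_, ⟨fun {P} hP hPp => ?_⟩, ?_⟩
  · exact isNoetherian_of_tower k[X] (inferInstance : IsNoetherian k[X] W.CoordinateRing)
  · have h1 : P.comap (algebraMap k[X] W.CoordinateRing) ≠ ⊥ := fun h =>
      hP (Ideal.eq_bot_of_comap_eq_bot h)
    have h2 : (P.comap (algebraMap k[X] W.CoordinateRing)).IsPrime := Ideal.comap_isPrime _ P
    exact Ideal.isMaximal_of_isIntegral_of_isMaximal_comap P (h2.isMaximal h1)
  · intro x hx
    have := int_closed W hΔ
    exact IsIntegrallyClosed.isIntegral_iff.1 hx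

end H55K.WZ
end

-- from Lib.H55K.W2A
section

/-! # H55K, part W: the degree of an ideal -/

open Polynomial

open scoped Polynomial.Bivariate

namespace H55K.WZ

open WeierstrassCurve (Affine)

variable {k : Type} [Field k] (W : Affine k)

/-- Chunk W2A (S/M). I ≠ ⊥ contains n(X) = norm f ≠ 0 for some f (norm f is a multiple of f in R: coe_norm_smul_basis), R/I is a quotient of R/(n), which is finite over k (finrank_quotient_span_eq_natDegree_norm has
natDegree; for finiteness: R is finite over k[X], R/(n) finite over k[X]/(n) = AdjoinRoot n, finite over k (AdjoinRoot.powerBasis, Polynomial / Module.Finite.of_basis); or the instance in Mathlib.LinearAlgebra.FreeModule.Norm with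
Ideal.quotientEquivDirectSum / finrank_quotient_eq_sum). -/
theorem fin_quot {I : Ideal W.CoordinateRing} (hI : I ≠ ⊥) : Module.Finite k (W.CoordinateRing ⧸ I) := by
  have e := Ideal.quotientEquivDirectSum k (Affine.CoordinateRing.basis W) hI
  exact Module.Finite.equiv e.symm

/-- Chunk W2A. Finrank 0 of a finite module over a field: subsingleton. -/
theorem dg_zero {I : Ideal W.CoordinateRing} (hI : I ≠ ⊥) : dg W I = 0 ↔ I = ⊤ := by
  have := fin_quot W hI
  unfold dg
  rw [Module.finrank_zero_iff, Ideal.Quotient.subsingleton_iff]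

/-- Chunk W2A. R/I → R/J is surjective; equality of the dimensions gives injectivity. -/
theorem dg_le {I J : Ideal W.CoordinateRing} (hI : I ≠ ⊥) (h : I ≤ J) : dg W J ≤ dg W I ∧ (dg W I = dg W J → I = J) := by
  have hJ : J ≠ ⊥ := by
    intro h0
    apply hI
    rw [eq_bot_iff, ← h0]
    exact h
  have := fin_quot W hI
  have := fin_quot W hJ
  let φ : (W.CoordinateRing ⧸ I) →ₗ[k] (W.CoordinateRing ⧸ J) := (Ideal.Quotient.factorₐ k h).toLinearMap
  have hφ : Function.Surjective φ := Ideal.Quotient.factor_surjective h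
  refine ⟨LinearMap.finrank_le_finrank_of_surjective hφ, fun he => le_antisymm h ?_⟩
  have hinj : Function.Injective φ :=
    (LinearMap.injective_iff_surjective_of_finrank_eq_finrank he).2 hφ
  intro x hx
  have h1 : φ (Ideal.Quotient.mk I x) = 0 := by
    show Ideal.Quotient.factor h (Ideal.Quotient.mk I x) = 0
    rw [Ideal.Quotient.factor_mk]
    exact Ideal.Quotient.eq_zero_iff_mem.2 hx
  have h2 : Ideal.Quotient.mk I x = 0 := hinj (by rw [h1, map_zero])
  exact Ideal.Quotient.eq_zero_iff_mem.1 h2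

/-- Chunk W2A. The element f generates I if it is in I and has degree nd f = dg I (dg_span, dg_le for span {f} ≤ I). -/
theorem span_of_nd {I : Ideal W.CoordinateRing} {f : W.CoordinateRing} (hf : f ≠ 0) (hfI : f ∈ I) (h : nd W f ≤ dg W I) :
    I = Ideal.span {f} := by
  have h1 : Ideal.span {f} ≠ (⊥ : Ideal W.CoordinateRing) := by
    rw [Ne, Ideal.span_singleton_eq_bot]
    exact hf
  have h2 : Ideal.span {f} ≤ I := by
    rw [Ideal.span_singleton_le_iff_mem]
    exact hfI
  have h3 := dg_le W h1 h2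
  rw [dg_span W hf] at h3
  exact (h3.2 (le_antisymm h h3.1)).symm

end H55K.WZ
end

-- from Lib.H55K.W2B
section

/-! # H55K, part W: the degree of an ideal -/

open Polynomial

open scoped Polynomial.Bivariate

namespace H55K.WZ

open WeierstrassCurve (Affine)

variable {k : Type} [Field k] (W : Affine k)

/-- Chunk W2B (M). R is a Dedekind domain (dedekind). Choose a in I with span {a} ⊔ (I * J) = I (IsDedekindDomain.exists_sup_span_eq or Ideal.exists_... : for 0 ≠ I J ≤ I there is a with I = I J + (a)). The k-linear map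
R → I/(I J) (or R → R/(I J), r ↦ r a, with image I/(I J)) is surjective onto I/(I J) with kernel J: r a in I J and I = I J + (a) gives r I ≤ I J, so r in J (cancel I: Ideal.mul_le_mul_left..., span{r} * I ≤ I * J, Ideal.IsDedekind cancellation
mul_le_mul_left iff; Mathlib: cardQuot_mul_of_coprime, Ideal.quotientMulEquiv... see also the proof of cardQuot_pow_of_prime). So dim R/(I J) = dim R/I + dim I/(I J) = dim R/I + dim R/J (Submodule.finrank_quotient_add_finrank for the k-subspace I/(IJ) of
R/(IJ), whose quotient is R/I: DoubleQuot or Submodule.quotientQuotientEquivQuotient). Alternative: induction on J (UniqueFactorizationMonoid.induction_on_prime) reduces to J prime, where I/(I P) is a vector space of dimension 1 over R/P (Ideal.quotient...,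
Mathlib Ideal.quotEquivPowQuotPowSucc treats I = P^i). -/
theorem dg_mul (hΔ : W.Δ ≠ 0) {I J : Ideal W.CoordinateRing} (hI : I ≠ ⊥) (hJ : J ≠ ⊥) :
    dg W (I * J) = dg W I + dg W J := by
  have hD := dedekind W hΔ
  have hIJ : I * J ≠ ⊥ := mul_ne_zero hI hJ
  have hfin := fin_quot W hIJ
  obtain ⟨a, ha⟩ := IsDedekindDomain.exists_sup_span_eq (Ideal.mul_le_left : I * J ≤ I) hIJ
  have haI : a ∈ I := by
    rw [← ha]
    exact Ideal.mem_sup_right (Ideal.mem_span_singleton_self a)
  -- multiplication by `a`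
  have hker : ∀ r ∈ J, r • (Submodule.Quotient.mk a : W.CoordinateRing ⧸ (I * J)) = 0 := by
    intro r hr
    rw [← Submodule.Quotient.mk_smul, Submodule.Quotient.mk_eq_zero, smul_eq_mul, mul_comm r a]
    exact Ideal.mul_mem_mul haI hr
  let F : (W.CoordinateRing ⧸ J) →ₗ[W.CoordinateRing] (W.CoordinateRing ⧸ (I * J)) :=
    Submodule.liftQ J (LinearMap.toSpanSingleton W.CoordinateRing (W.CoordinateRing ⧸ (I * J))
      (Submodule.Quotient.mk a)) (fun r hr => hker r hr)
  let G : (W.CoordinateRing ⧸ (I * J)) →ₗ[W.CoordinateRing] (W.CoordinateRing ⧸ I) :=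
    Submodule.factor Ideal.mul_le_left
  have hF : ∀ r : W.CoordinateRing, F (Submodule.Quotient.mk r) = Submodule.Quotient.mk (r * a) :=
    fun r => rfl
  have hG : ∀ r : W.CoordinateRing, G (Submodule.Quotient.mk r) = Submodule.Quotient.mk r :=
    fun r => rfl
  have hFi : Function.Injective F := by
    rw [injective_iff_map_eq_zero]
    intro x hx
    obtain ⟨r, rfl⟩ := Submodule.Quotient.mk_surjective _ x
    rw [hF, Submodule.Quotient.mk_eq_zero] at hx
    rw [Submodule.Quotient.mk_eq_zero]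
    have h1 : Ideal.span {r} * I ≤ I * J := by
      conv_lhs => rw [← ha]
      rw [Ideal.mul_sup, sup_le_iff]
      refine ⟨Ideal.mul_le_right, ?_⟩
      rw [Ideal.span_singleton_mul_span_singleton, Ideal.span_singleton_le_iff_mem]
      exact hx
    rw [mul_comm (Ideal.span {r}) I, ← Ideal.dvd_iff_le, mul_dvd_mul_iff_left hI,
      Ideal.dvd_iff_le, Ideal.span_singleton_le_iff_mem] at h1
    exact h1
  have hGs : Function.Surjective G := by
    intro x
    obtain ⟨r, rfl⟩ := Submodule.Quotient.mk_surjective _ x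
    exact ⟨Submodule.Quotient.mk r, hG r⟩
  have hex : LinearMap.range (F.restrictScalars k) = LinearMap.ker (G.restrictScalars k) := by
    ext x
    rw [LinearMap.mem_range, LinearMap.mem_ker]
    obtain ⟨r, rfl⟩ := Submodule.Quotient.mk_surjective _ x
    constructor
    · rintro ⟨y, hy⟩
      obtain ⟨t, rfl⟩ := Submodule.Quotient.mk_surjective _ y
      rw [← hy]
      change (Submodule.Quotient.mk (t * a) : W.CoordinateRing ⧸ I) = 0
      rw [Submodule.Quotient.mk_eq_zero]
      exact Ideal.mul_mem_left _ _ haI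
    · intro hr
      change (Submodule.Quotient.mk r : W.CoordinateRing ⧸ I) = 0 at hr
      rw [Submodule.Quotient.mk_eq_zero, ← ha, Submodule.mem_sup] at hr
      obtain ⟨u, hu, v, hv, huv⟩ := hr
      obtain ⟨t, rfl⟩ := Ideal.mem_span_singleton'.1 hv
      refine ⟨Submodule.Quotient.mk t, ?_⟩
      change (Submodule.Quotient.mk (t * a) : W.CoordinateRing ⧸ (I * J)) = Submodule.Quotient.mk r
      rw [Submodule.Quotient.eq]
      have h1 : t * a - r = -u := by rw [← huv]; ring
      rw [h1]
      exact neg_mem hu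
  have h1 := LinearMap.finrank_range_add_finrank_ker (G.restrictScalars k)
  rw [← hex, LinearMap.finrank_range_of_inj (f := F.restrictScalars k) hFi,
    (LinearMap.range_eq_top (f := G.restrictScalars k)).2 hGs, finrank_top] at h1
  exact h1.symm

end H55K.WZ
end

-- from Lib.H55K.W4D
section

/-! # H55K, part W: finiteness -/

open Polynomial

open scoped Polynomial.Bivariate

namespace H55K.WZ

open WeierstrassCurve (Affine)

variable {k : Type} [Field k] (W : Affine k)

theorem w4d_monic [Finite k] (n : ℕ) : {c : k[X] | c.Monic ∧ c.natDegree = n}.Finite := by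
  have h1 : Finite (degreeLT k (n + 1)) :=
    Finite.of_equiv _ (degreeLTEquiv k (n + 1)).symm.toEquiv
  refine Set.Finite.subset (Set.toFinite ((degreeLT k (n + 1) : Submodule k k[X]) : Set k[X])) ?_
  rintro c ⟨-, hc2⟩
  show c ∈ degreeLT k (n + 1)
  rw [mem_degreeLT]
  refine lt_of_le_of_lt degree_le_natDegree ?_
  rw [hc2]
  exact_mod_cast Nat.lt_succ_self n

theorem w4d_ne (c : k[X]) (hc : c ≠ 0) : Ideal.span {algebraMap k[X] W.CoordinateRing c} ≠ ⊥ := by
  rw [Ne, Ideal.span_singleton_eq_bot]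
  intro h
  apply hc
  refine (el_eq_zero W (p := c) (q := 0) ?_).1
  unfold el
  rw [zero_smul, add_zero, ← Algebra.algebraMap_eq_smul_one, h]

theorem w4d_above [Finite k] (J : Ideal W.CoordinateRing) (hJ : J ≠ ⊥) :
    {I : Ideal W.CoordinateRing | J ≤ I}.Finite := by
  have h1 : Module.Finite k (W.CoordinateRing ⧸ J) := fin_quot W hJ
  have h2 : Finite (W.CoordinateRing ⧸ J) := Module.finite_of_finite k
  have h3 : Finite (Ideal (W.CoordinateRing ⧸ J)) :=
    Finite.of_injective (fun I : Ideal (W.CoordinateRing ⧸ J) => (I : Set (W.CoordinateRing ⧸ J)))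
      SetLike.coe_injective
  refine Set.Finite.of_finite_image (f := fun I => Ideal.map (Ideal.Quotient.mk J) I)
    (Set.toFinite _) ?_
  intro I hI I' hI' h
  have h4 := congrArg (Ideal.comap (Ideal.Quotient.mk J)) h
  simp only at h4
  rw [Ideal.comap_map_mk hI, Ideal.comap_map_mk hI'] at h4
  exact h4

theorem w4d_mem (I : Ideal W.CoordinateRing) (hI : I ≠ ⊥) :
    ∃ c : k[X], (c.Monic ∧ c.natDegree = dg W I) ∧ algebraMap k[X] W.CoordinateRing c ∈ I := by
  have h1 : Module.Finite k (W.CoordinateRing ⧸ I) := fin_quot W hI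
  set φ : k[X] →ₐ[k] (W.CoordinateRing ⧸ I) :=
    (Ideal.Quotient.mkₐ k I).comp ((Algebra.ofId k[X] W.CoordinateRing).restrictScalars k) with hφ
  set x : W.CoordinateRing ⧸ I := φ X with hx
  set c : k[X] := (Algebra.lmul k (W.CoordinateRing ⧸ I) x).charpoly with hc
  refine ⟨c, ⟨LinearMap.charpoly_monic _, ?_⟩, ?_⟩
  · rw [hc, LinearMap.charpoly_natDegree]
    rfl
  · have h2 : aeval (Algebra.lmul k (W.CoordinateRing ⧸ I) x) c = 0 := LinearMap.aeval_self_charpoly _
    rw [aeval_algHom_apply] at h2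
    have h3 : aeval x c = 0 := by
      have h4 := congrArg (fun f : Module.End k (W.CoordinateRing ⧸ I) => f 1) h2
      simpa using h4
    rw [hx, aeval_algHom_apply, aeval_X_left_apply] at h3
    exact Ideal.Quotient.eq_zero_iff_mem.1 h3

/-- Chunk W4D (S/M). Let dg I = n. The characteristic polynomial c of the multiplication by the class of X on R/I (LinearMap.charpoly, fin_quot) is monic of degree n and c(X) = 0 in R/I (Cayley-Hamilton, LinearMap.aeval_self_charpoly applied to 1): algebraMap k[X] R c is in I. So I contains one of the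
finitely many ideals span {algebraMap k[X] R c}, c monic of degree n (k finite: finitely many polynomials of degree n, degreeLT finite), c ≠ 0; R/span{c} is finite (fin_quot, Module.finite_of_finite k), so only finitely many ideals contain it (Ideal.orderIsoOfQuotient / comap injective from the ideals of the finite ring R/span{c}). -/
theorem fin_id [Finite k] (n : ℕ) : {I : Ideal W.CoordinateRing | I ≠ ⊥ ∧ dg W I = n}.Finite := by
  refine Set.Finite.subset (Set.Finite.biUnion (w4d_monic (k := k) n)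
    (t := fun c => {I : Ideal W.CoordinateRing |
      Ideal.span {algebraMap k[X] W.CoordinateRing c} ≤ I}) ?_) ?_
  · rintro c ⟨hc, -⟩
    exact w4d_above W _ (w4d_ne W c hc.ne_zero)
  · rintro I ⟨hI, hn⟩
    obtain ⟨c, ⟨hc1, hc2⟩, hc3⟩ := w4d_mem W I hI
    rw [Set.mem_iUnion₂]
    refine ⟨c, ⟨hc1, hc2.trans hn⟩, ?_⟩
    show Ideal.span {algebraMap k[X] W.CoordinateRing c} ≤ I
    rw [Ideal.span_singleton_le_iff_mem]
    exact hc3

end H55K.WZ
end

-- from Lib.H55K.W2C
section

/-! # H55K, part W: ideals of degree one are rational points -/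

open Polynomial

open scoped Polynomial.Bivariate

namespace H55K.WZ

open WeierstrassCurve (Affine)

variable {k : Type} [Field k] (W : Affine k)

/-- The value of a polynomial at the point, modulo the ideal of the point. -/
theorem w2c_val (x y : k) (P : k[X][Y]) :
    Affine.CoordinateRing.mk W P - algebraMap k W.CoordinateRing (evalEval x y P) ∈ PI W x y := by
  have h1 : P - C (C (evalEval x y P)) ∈ Ideal.span {C (X - C x), X - C (C y)} := by
    rw [mem_span_C_X_sub_C_X_sub_C_iff_eval_eval_eq_zero]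
    simp [evalEval]
  have h2 := Ideal.mem_map_of_mem (Affine.CoordinateRing.mk W) h1
  rw [Ideal.map_span, Set.image_pair] at h2
  have h3 : Affine.CoordinateRing.mk W (P - C (C (evalEval x y P))) =
      Affine.CoordinateRing.mk W P - algebraMap k W.CoordinateRing (evalEval x y P) := by
    rw [map_sub]
    rfl
  rw [← h3]
  exact h2

/-- Chunk W2C (S). quotientXYIdealEquiv: R/PI x y is isomorphic to k. -/
theorem dg_PI {x y : k} (h : W.Equation x y) : PI W x y ≠ ⊥ ∧ dg W (PI W x y) = 1 := by
  refine ⟨?_, ?_⟩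
  · intro h0
    have h1 : Affine.CoordinateRing.XClass W x ∈ PI W x y := Ideal.subset_span (Set.mem_insert _ _)
    rw [h0, Ideal.mem_bot] at h1
    exact Affine.CoordinateRing.XClass_ne_zero x h1
  · unfold dg PI
    rw [(Affine.CoordinateRing.quotientXYIdealEquiv (y := C y) h).toLinearEquiv.finrank_eq,
      Module.finrank_self]

/-- Chunk W2C (S/M). If dim R/I = 1 then k → R/I is bijective (injective because R/I ≠ 0, equal dimensions); let x, y in k be the elements with X - x, Y - y in I (classes of X and Y). The equation holds in R/I, so in k. PI x y ≤ I, dimensions 1 and 1: equal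
(dg_le). -/
theorem PI_of_dg {I : Ideal W.CoordinateRing} (hI : I ≠ ⊥) (h : dg W I = 1) : ∃ x y : k, W.Equation x y ∧ I = PI W x y := by
  have hbij := Module.Free.bijective_algebraMap_of_finrank_eq_one
    (R := k) (S := W.CoordinateRing ⧸ I) h
  obtain ⟨x, hx⟩ := hbij.2 (Ideal.Quotient.mk I (Affine.CoordinateRing.mk W (C X)))
  obtain ⟨y, hy⟩ := hbij.2 (Ideal.Quotient.mk I (Affine.CoordinateRing.mk W X))
  have hX : Affine.CoordinateRing.XClass W x ∈ I := by
    rw [← Ideal.Quotient.eq_zero_iff_mem]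
    unfold Affine.CoordinateRing.XClass
    rw [map_sub, map_sub, map_sub, ← hx]
    exact sub_self _
  have hY : Affine.CoordinateRing.YClass W (C y) ∈ I := by
    rw [← Ideal.Quotient.eq_zero_iff_mem]
    unfold Affine.CoordinateRing.YClass
    rw [map_sub, map_sub, ← hy]
    exact sub_self _
  have hle : PI W x y ≤ I := by
    unfold PI Affine.CoordinateRing.XYIdeal
    rw [Ideal.span_le]
    rintro z (rfl | hz)
    · exact hX
    · rw [Set.mem_singleton_iff.1 hz]
      exact hY
  have heq : W.Equation x y := by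
    have h1 := hle (w2c_val W x y W.polynomial)
    have h0 : Affine.CoordinateRing.mk W W.polynomial = 0 := AdjoinRoot.mk_self
    rw [h0, zero_sub, neg_mem_iff, ← Ideal.Quotient.eq_zero_iff_mem] at h1
    have h2 : algebraMap k (W.CoordinateRing ⧸ I) (evalEval x y W.polynomial) =
        algebraMap k (W.CoordinateRing ⧸ I) 0 := by
      rw [map_zero]
      exact h1
    exact hbij.1 h2
  obtain ⟨h1, h2⟩ := dg_PI W heq
  exact ⟨x, y, heq, ((dg_le W h1 hle).2 (by rw [h2, h])).symm⟩

/-- Chunk W2C. The value of f = p + q Y at the point: f - (p(x) + q(x) y) is in PI x y (X - x divides p - p(x)). -/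
theorem val_PI (x y : k) (f : W.CoordinateRing) : ∃ c : k, f - algebraMap k W.CoordinateRing c ∈ PI W x y := by
  obtain ⟨P, rfl⟩ := AdjoinRoot.mk_surjective f
  exact ⟨_, w2c_val W x y P⟩

end H55K.WZ
end

-- from Lib.H55K.W3A
section

/-! # H55K, part W: the functions with a pole of bounded order at infinity -/

open Polynomial

open scoped Polynomial.Bivariate

namespace H55K.WZ

open WeierstrassCurve (Affine)

variable {k : Type} [Field k] (W : Affine k)

theorem w3a_p (p : k[X]) (m : ℕ) : 2 • p.degree ≤ (m : WithBot ℕ) ↔ p.degree < ((m / 2 + 1 : ℕ) : WithBot ℕ) := by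
  by_cases hp : p = 0
  · subst hp
    rw [degree_zero]
    exact ⟨fun _ => WithBot.bot_lt_coe _, fun _ => by rw [two_nsmul, WithBot.bot_add]; exact bot_le⟩
  · rw [degree_eq_natDegree hp, two_nsmul]
    norm_cast
    omega

theorem w3a_q (q : k[X]) (m : ℕ) : 2 • q.degree + 3 ≤ (m : WithBot ℕ) ↔
    q.degree < (((m - 1) / 2 : ℕ) : WithBot ℕ) := by
  by_cases hq : q = 0
  · subst hq
    rw [degree_zero]
    exact ⟨fun _ => WithBot.bot_lt_coe _,
      fun _ => by rw [two_nsmul, WithBot.bot_add, WithBot.bot_add]; exact bot_le⟩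
  · rw [degree_eq_natDegree hq, two_nsmul]
    have e : ((q.natDegree : WithBot ℕ) + (q.natDegree : WithBot ℕ) + 3) =
      ((q.natDegree + q.natDegree + 3 : ℕ) : WithBot ℕ) := by
      push_cast
      rfl
    rw [e, Nat.cast_le, Nat.cast_lt]
    omega

theorem w3a_nd (p q : k[X]) (m : ℕ) : nd W (el W p q) ≤ m ↔
    p.degree < ((m / 2 + 1 : ℕ) : WithBot ℕ) ∧ q.degree < (((m - 1) / 2 : ℕ) : WithBot ℕ) := by
  unfold nd el
  rw [natDegree_le_iff_degree_le, Affine.CoordinateRing.degree_norm_smul_basis, max_le_iff, w3a_p,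
    w3a_q]

/-- The linear map. -/
noncomputable def w3a_l : (k[X] × k[X]) →ₗ[k] W.CoordinateRing where
  toFun x := el W x.1 x.2
  map_add' x y := by
    unfold el
    rw [Prod.fst_add, Prod.snd_add, add_smul, add_smul]
    exact add_add_add_comm _ _ _ _
  map_smul' c x := by
    unfold el
    rw [Prod.smul_fst, Prod.smul_snd, smul_assoc, smul_assoc, RingHom.id_apply, smul_add]

/-- Chunk W3A (M). L = range of the k-linear map (p, q) ↦ el W p q from degreeLT k (m / 2 + 1) × degreeLT k ((m - 1) / 2) to R (injective by el_eq_zero; finrank of degreeLT k n is n: Polynomial.degreeLTEquiv; m / 2 + 1 + (m - 1) / 2 = m for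
m ≥ 1). Membership: for f = el W p q, degree (norm f) = max (2 degree p) (2 degree q + 3) (Affine.CoordinateRing.degree_norm_smul_basis), so nd f ≤ m iff (p = 0 or 2 natDegree p ≤ m) and (q = 0 or 2 natDegree q + 3 ≤ m) (f = 0 : nd 0 = 0). -/
theorem exists_L (m : ℕ) (hm : 1 ≤ m) : ∃ L : Submodule k W.CoordinateRing, Module.Finite k L ∧ Module.finrank k L = m ∧
    ∀ f, f ∈ L ↔ nd W f ≤ m := by
  have hf1 : ∀ n, Module.Finite k (degreeLT k n) := fun n =>
    Module.Finite.equiv (degreeLTEquiv k n).symm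
  have hr1 : ∀ n, Module.finrank k (degreeLT k n) = n := fun n => by
    rw [(degreeLTEquiv k n).finrank_eq, Module.finrank_fin_fun]
  haveI := hf1 (m / 2 + 1)
  haveI := hf1 ((m - 1) / 2)
  let Φ : (degreeLT k (m / 2 + 1) × degreeLT k ((m - 1) / 2)) →ₗ[k] W.CoordinateRing :=
    (w3a_l W) ∘ₗ ((degreeLT k (m / 2 + 1)).subtype.prodMap (degreeLT k ((m - 1) / 2)).subtype)
  have hΦ : ∀ x, Φ x = el W x.1 x.2 := fun x => rfl
  have hinj : Function.Injective Φ := by
    rw [injective_iff_map_eq_zero]
    intro x hx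
    rw [hΦ] at hx
    obtain ⟨h1, h2⟩ := el_eq_zero W hx
    exact Prod.ext (Subtype.ext h1) (Subtype.ext h2)
  refine ⟨LinearMap.range Φ, inferInstance, ?_, ?_⟩
  · rw [LinearMap.finrank_range_of_inj hinj, Module.finrank_prod, hr1, hr1]
    omega
  · intro f
    constructor
    · rintro ⟨x, rfl⟩
      rw [hΦ, w3a_nd]
      exact ⟨mem_degreeLT.1 x.1.2, mem_degreeLT.1 x.2.2⟩
    · intro h
      obtain ⟨p, q, rfl⟩ := exists_el W f
      rw [w3a_nd] at h
      exact ⟨(⟨p, mem_degreeLT.2 h.1⟩, ⟨q, mem_degreeLT.2 h.2⟩), rfl⟩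

/-- Chunk W3A. nd f = 0 iff f is a constant (f = p + q Y: q = 0 and p constant; nd 0 = 0, degree_norm_smul_basis). -/
theorem nd_zero (f : W.CoordinateRing) : nd W f = 0 ↔ ∃ c : k, f = algebraMap k W.CoordinateRing c := by
  constructor
  · intro h
    obtain ⟨p, q, rfl⟩ := exists_el W f
    have h1 := (w3a_nd W p q 0).1 h.le
    have hq : q = 0 := by
      by_contra hq
      have h2 := h1.2
      rw [degree_eq_natDegree hq] at h2
      have h3 : q.natDegree < (0 - 1) / 2 := by exact_mod_cast h2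
      omega
    have hp : p.degree ≤ 0 := by
      by_cases hp : p = 0
      · rw [hp, degree_zero]
        exact bot_le
      · have h2 := h1.1
        rw [degree_eq_natDegree hp] at h2 ⊢
        have h3 : p.natDegree < 0 / 2 + 1 := by exact_mod_cast h2
        have h4 : p.natDegree = 0 := by omega
        rw [h4]
        exact le_rfl
    refine ⟨p.coeff 0, ?_⟩
    unfold el
    rw [hq, zero_smul, add_zero]
    conv_lhs => rw [eq_C_of_degree_le_zero hp]
    rw [← Algebra.algebraMap_eq_smul_one]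
    rfl
  · rintro ⟨c, rfl⟩
    have e : algebraMap k W.CoordinateRing c = el W (C c) 0 := by
      unfold el
      rw [zero_smul, add_zero, ← Algebra.algebraMap_eq_smul_one]
      rfl
    rw [e]
    refine Nat.le_zero.1 ((w3a_nd W (C c) 0 0).2 ⟨?_, ?_⟩)
    · exact lt_of_le_of_lt degree_C_le (by norm_num)
    · rw [degree_zero]
      exact WithBot.bot_lt_coe _

end H55K.WZ
end

-- from Lib.H55K.W3D
section

/-! # H55K, part W: numbers of functions -/

open Polynomial
open scoped Polynomial.Bivariate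

namespace H55K.WZ

open WeierstrassCurve (Affine)

variable {k : Type} [Field k] (W : Affine k)

theorem w3d_nd_zero : nd W (0 : W.CoordinateRing) = 0 := by
  rw [nd_zero]
  exact ⟨0, (map_zero _).symm⟩

theorem w3d_L [Finite k] (m : ℕ) (hm : 1 ≤ m) :
    {f : W.CoordinateRing | nd W f ≤ m}.ncard = Nat.card k ^ m ∧ {f : W.CoordinateRing | nd W f ≤ m}.Finite := by
  obtain ⟨L, h1, h2, h3⟩ := exists_L W m hm
  have e : {f : W.CoordinateRing | nd W f ≤ m} = (L : Set W.CoordinateRing) := by
    ext f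
    exact (h3 f).symm
  have hfin : Finite L := Module.finite_of_finite k
  rw [e]
  refine ⟨?_, Set.toFinite _⟩
  rw [← Nat.card_coe_set_eq]
  show Nat.card L = _
  rw [Module.natCard_eq_pow_finrank (K := k) (V := L), h2]

theorem w3d_diff (S : Set W.CoordinateRing) (m : ℕ) (hm : 2 ≤ m) {a b : ℕ} (hfin : {f : W.CoordinateRing | nd W f ≤ m}.Finite)
    (ha : {f : W.CoordinateRing | f ∈ S ∧ nd W f ≤ m}.ncard = a)
    (hb : {f : W.CoordinateRing | f ∈ S ∧ nd W f ≤ m - 1}.ncard = b) :
    Nat.card {f : W.CoordinateRing // f ∈ S ∧ f ≠ 0 ∧ nd W f = m} + b = a := by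
  have e : {f : W.CoordinateRing | f ∈ S ∧ f ≠ 0 ∧ nd W f = m} =
      {f : W.CoordinateRing | f ∈ S ∧ nd W f ≤ m} \ {f : W.CoordinateRing | f ∈ S ∧ nd W f ≤ m - 1} := by
    ext f
    constructor
    · rintro ⟨h1, h2, h3⟩
      refine ⟨⟨h1, h3.le⟩, ?_⟩
      rintro ⟨_, h4⟩
      omega
    · rintro ⟨⟨h1, h2⟩, h3⟩
      have h4 : nd W f = m := by
        by_contra h5
        exact h3 ⟨h1, by omega⟩
      refine ⟨h1, ?_, h4⟩
      rintro rfl
      rw [w3d_nd_zero] at h4
      omega
  have h1 : Nat.card {f : W.CoordinateRing // f ∈ S ∧ f ≠ 0 ∧ nd W f = m} =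
      {f : W.CoordinateRing | f ∈ S ∧ f ≠ 0 ∧ nd W f = m}.ncard := rfl
  rw [h1, e, ← ha, ← hb]
  refine Set.ncard_sdiff_add_ncard_of_subset ?_ ?_
  · rintro f ⟨h2, h3⟩
    exact ⟨h2, h3.trans (Nat.sub_le _ _)⟩
  · exact hfin.subset fun f hf => hf.2

/-- Chunk W3D (M). Number of f with nd f ≤ m is q^m for m ≥ 1 (exists_L, Module.card_eq_pow_finrank: Nat.card L = (Nat.card k)^finrank); {nd ≤ m} is the disjoint union of {nd ≤ m - 1} and {f ≠ 0, nd f = m} (m ≥ 2; nd 0 = 0). -/
theorem card_R [Finite k] (m : ℕ) (hm : 2 ≤ m) :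
    Nat.card {f : W.CoordinateRing // f ∈ (⊤ : Ideal W.CoordinateRing) ∧ f ≠ 0 ∧ nd W f = m} + Nat.card k ^ (m - 1) =
      Nat.card k ^ m := by
  have e : ∀ n, {f : W.CoordinateRing | f ∈ ((⊤ : Ideal W.CoordinateRing) : Set W.CoordinateRing) ∧ nd W f ≤ n} =
      {f : W.CoordinateRing | nd W f ≤ n} := by
    intro n
    ext f
    exact ⟨fun h => h.2, fun h => ⟨trivial, h⟩⟩
  refine w3d_diff W ((⊤ : Ideal W.CoordinateRing) : Set W.CoordinateRing) m hm (w3d_L W m (by omega)).2 ?_ ?_
  · rw [e]
    exact (w3d_L W m (by omega)).1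
  · rw [e]
    exact (w3d_L W (m - 1) (by omega)).1

theorem w3d_P [Finite k] {x y : k} (h : W.Equation x y) (m : ℕ) (hm : 1 ≤ m) :
    {f : W.CoordinateRing | f ∈ (PI W x y : Set W.CoordinateRing) ∧ nd W f ≤ m}.ncard = Nat.card k ^ (m - 1) := by
  obtain ⟨L, h1, h2, h3⟩ := exists_L W m hm
  obtain ⟨hb, hd⟩ := dg_PI W h
  let φ : L →ₗ[k] (W.CoordinateRing ⧸ PI W x y) := (Ideal.Quotient.mkₐ k (PI W x y)).toLinearMap ∘ₗ L.subtype
  have hfq : Module.Finite k (W.CoordinateRing ⧸ PI W x y) := by
    refine Module.finite_of_finrank_pos ?_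
    have : Module.finrank k (W.CoordinateRing ⧸ PI W x y) = 1 := hd
    rw [this]
    exact one_pos
  have hsurj : Function.Surjective φ := by
    intro z
    obtain ⟨f, rfl⟩ := Ideal.Quotient.mk_surjective z
    obtain ⟨c, hc⟩ := val_PI W x y f
    have hcL : algebraMap k W.CoordinateRing c ∈ L := by
      rw [h3, (nd_zero W _).2 ⟨c, rfl⟩]
      exact Nat.zero_le _
    refine ⟨⟨_, hcL⟩, ?_⟩
    show Ideal.Quotient.mk (PI W x y) (algebraMap k W.CoordinateRing c) = Ideal.Quotient.mk (PI W x y) f
    rw [eq_comm, Ideal.Quotient.eq]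
    exact hc
  have hfr := LinearMap.finrank_range_add_finrank_ker φ
  rw [LinearMap.range_eq_top.2 hsurj, finrank_top, h2] at hfr
  have hfr' : Module.finrank k φ.ker = m - 1 := by
    have : Module.finrank k (W.CoordinateRing ⧸ PI W x y) = 1 := hd
    omega
  have hcard : Nat.card φ.ker = Nat.card k ^ (m - 1) := by
    rw [Module.natCard_eq_pow_finrank (K := k) (V := φ.ker), hfr']
  rw [← hcard, ← Nat.card_coe_set_eq]
  refine Nat.card_congr ⟨fun f => ⟨⟨f.1, (h3 _).2 f.2.2⟩, ?_⟩, fun g => ⟨g.1.1, ?_, (h3 _).1 g.1.2⟩, fun f => rfl,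
    fun g => rfl⟩
  · rw [LinearMap.mem_ker]
    show Ideal.Quotient.mk (PI W x y) f.1 = 0
    rw [Ideal.Quotient.eq_zero_iff_mem]
    exact f.2.1
  · have h4 := LinearMap.mem_ker.1 g.2
    change Ideal.Quotient.mk (PI W x y) g.1.1 = 0 at h4
    rw [Ideal.Quotient.eq_zero_iff_mem] at h4
    exact h4

/-- Chunk W3D. For m ≥ 1 the subspace {f in PI x y, nd f ≤ m} of L has dimension m - 1: the quotient of L by it is R/PI (dimension 1, dg_PI) because the constants map onto R/PI (val_PI; constants are in L: nd = 0). So it has q^(m-1) elements; difference for m and m - 1 (m ≥ 2). -/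
theorem card_P [Finite k] {x y : k} (h : W.Equation x y) (m : ℕ) (hm : 2 ≤ m) :
    Nat.card {f : W.CoordinateRing // f ∈ PI W x y ∧ f ≠ 0 ∧ nd W f = m} + Nat.card k ^ (m - 2) =
      Nat.card k ^ (m - 1) := by
  refine w3d_diff W (PI W x y : Set W.CoordinateRing) m hm (w3d_L W m (by omega)).2 (w3d_P W h m (by omega)) ?_
  have e : m - 2 = m - 1 - 1 := by omega
  rw [e]
  exact w3d_P W h (m - 1) (by omega)

end H55K.WZ
end

-- from Lib.H55K.W3C
section

/-! # H55K, part W: generators of principal ideals -/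

open Polynomial

open scoped Polynomial.Bivariate

namespace H55K.WZ

open WeierstrassCurve (Affine)

variable {k : Type} [Field k] (W : Affine k)

theorem w3c_one : nd W (1 : W.CoordinateRing) = 0 := by
  unfold nd
  rw [map_one, natDegree_one]

theorem w3c_const (c : k) (hc : c ≠ 0) (f : W.CoordinateRing) (hf : f ≠ 0) :
    algebraMap k W.CoordinateRing c * f ≠ 0 ∧ nd W (algebraMap k W.CoordinateRing c * f) = nd W f := by
  have h1 : algebraMap k W.CoordinateRing c ≠ 0 := by
    intro h
    have h2 : algebraMap k W.CoordinateRing c * algebraMap k W.CoordinateRing c⁻¹ = 1 := by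
      rw [← map_mul, mul_inv_cancel₀ hc, map_one]
    rw [h, zero_mul] at h2
    exact zero_ne_one h2
  refine ⟨mul_ne_zero h1 hf, ?_⟩
  rw [nd_mul W _ _ h1 hf, (nd_zero W _).2 ⟨c, rfl⟩, zero_add]

/-- Chunk W3C (S/M). A unit u has nd u = 0 (nd_mul u u⁻¹ = nd 1 = 0), so it is a constant (nd_zero). -/
theorem unit_iff (f : W.CoordinateRing) : IsUnit f ↔ ∃ c : k, c ≠ 0 ∧ f = algebraMap k W.CoordinateRing c := by
  constructor
  · intro hf
    obtain ⟨g, hg⟩ := hf.exists_right_inv
    have hf0 : f ≠ 0 := hf.ne_zero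
    have hg0 : g ≠ 0 := by
      rintro rfl
      rw [mul_zero] at hg
      exact zero_ne_one hg
    have h1 := nd_mul W f g hf0 hg0
    rw [hg, w3c_one] at h1
    obtain ⟨c, hc⟩ := (nd_zero W f).1 (by omega)
    refine ⟨c, ?_, hc⟩
    rintro rfl
    rw [map_zero] at hc
    exact hf0 hc
  · rintro ⟨c, hc, rfl⟩
    exact (isUnit_iff_ne_zero.2 hc).map (algebraMap k W.CoordinateRing)

/-- Chunk W3C. The map f ↦ span {f} from {f in P, f ≠ 0, nd f = m} onto the set of ideals has fibres with q - 1 elements: span {f} = span {g} iff g = c f with a constant c ≠ 0 (unit_iff, Ideal.span_singleton_eq_span_singleton, Associated). Build an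
equivalence {f // ..} ≃ {I // ..} × kˣ (choose a generator for each I) and Nat.card_prod, Nat.card_units (Nat.card kˣ = Nat.card k - 1). All sets are allowed to be infinite in this argument (Nat.card_congr). nd (c f) = nd f: nd_mul and nd_zero. -/
theorem card_fib [Finite k] (P : Ideal W.CoordinateRing) (m : ℕ) :
    Nat.card {I : Ideal W.CoordinateRing // ∃ f ∈ P, f ≠ 0 ∧ nd W f = m ∧ I = Ideal.span {f}} * (Nat.card k - 1) =
      Nat.card {f : W.CoordinateRing // f ∈ P ∧ f ≠ 0 ∧ nd W f = m} := by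
  classical
  rw [← Nat.card_units, ← Nat.card_prod]
  have hg : ∀ I : {I : Ideal W.CoordinateRing // ∃ f ∈ P, f ≠ 0 ∧ nd W f = m ∧ I = Ideal.span {f}},
      ∃ f ∈ P, f ≠ 0 ∧ nd W f = m ∧ I.1 = Ideal.span {f} := fun I => I.2
  choose g hgP hg0 hgm hgI using hg
  let Φ : {I : Ideal W.CoordinateRing // ∃ f ∈ P, f ≠ 0 ∧ nd W f = m ∧ I = Ideal.span {f}} × kˣ →
      {f : W.CoordinateRing // f ∈ P ∧ f ≠ 0 ∧ nd W f = m} := fun x =>
    ⟨algebraMap k W.CoordinateRing (x.2 : k) * g x.1, P.mul_mem_left _ (hgP x.1),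
      (w3c_const W _ x.2.ne_zero _ (hg0 x.1)).1,
      ((w3c_const W _ x.2.ne_zero _ (hg0 x.1)).2).trans (hgm x.1)⟩
  refine Nat.card_congr (Equiv.ofBijective Φ ⟨?_, ?_⟩)
  · rintro ⟨I, c⟩ ⟨J, d⟩ h
    have h1 : algebraMap k W.CoordinateRing (c : k) * g I = algebraMap k W.CoordinateRing (d : k) * g J :=
      congrArg Subtype.val h
    have hu : ∀ (c : kˣ) (f : W.CoordinateRing), Ideal.span {algebraMap k W.CoordinateRing (c : k) * f} =
        Ideal.span {f} := by
      intro c f
      apply Ideal.span_singleton_mul_left_unit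
      exact (unit_iff W _).2 ⟨c, c.ne_zero, rfl⟩
    have hIJ : I = J := by
      apply Subtype.ext
      rw [hgI I, hgI J, ← hu c (g I), h1, hu d (g J)]
    subst hIJ
    have h2 := mul_right_cancel₀ (hg0 I) h1
    have h3 : (c : k) = (d : k) := (algebraMap k W.CoordinateRing).injective h2
    exact Prod.ext rfl (Units.ext h3)
  · rintro ⟨f, hfP, hf0, hfm⟩
    let I : {I : Ideal W.CoordinateRing // ∃ f ∈ P, f ≠ 0 ∧ nd W f = m ∧ I = Ideal.span {f}} :=
      ⟨Ideal.span {f}, f, hfP, hf0, hfm, rfl⟩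
    have h1 : Ideal.span {g I} = Ideal.span {f} := (hgI I).symm
    obtain ⟨u, hu⟩ := Ideal.span_singleton_eq_span_singleton.1 h1
    obtain ⟨c, hc, hc'⟩ := (unit_iff W (u : W.CoordinateRing)).1 u.isUnit
    refine ⟨(I, Units.mk0 c hc), Subtype.ext ?_⟩
    show algebraMap k W.CoordinateRing c * g I = f
    rw [← hc', mul_comm]
    exact hu

end H55K.WZ
end

-- from Lib.H55R.HD
section

/-! # H55R: definitions for the first inequality -/

open NumberField IsDedekindDomain
open scoped Pointwise

namespace H55R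

section
variable {L : Type} [Field L] [NumberField L]

/-- The S-units, written additively. -/
noncomputable def TUa (T : Finset (Pl L)) : AddSubgroup (Additive Lˣ) :=
  Subgroup.toAddSubgroup (SU (T : Set (Pl L)))

/-- A family of T-units, one for every prime in T and every infinite place. -/
structure Eta (T : Finset (Pl L)) (η : T ⊕ InfinitePlace L → Additive Lˣ) : Prop where
  fin : ∀ W : T, 0 < ord W.1 (η (Sum.inl W)).toMul ∧
    ∀ W' : Pl L, W' ≠ W.1 → ord W' (η (Sum.inl W)).toMul = 0
  inf : ∀ V : InfinitePlace L, (∀ W : Pl L, ord W (η (Sum.inr V)).toMul = 0) ∧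
    ∀ V' : InfinitePlace L, V' ≠ V → V' ((η (Sum.inr V)).toMul : L) < 1

open Classical in
/-- The map from the permutation module to the T-units times Z. -/
noncomputable def Th (T : Finset (Pl L)) (η : T ⊕ InfinitePlace L → Additive Lˣ) :
    (T ⊕ InfinitePlace L → ℤ) →+ Additive Lˣ × ℤ where
  toFun a := (∑ p, a p • η p, ∑ V : InfinitePlace L, a (Sum.inr V))
  map_zero' := by simp
  map_add' a b := by
    simp only [Pi.add_apply, add_zsmul, Finset.sum_add_distrib, Prod.mk_add_mk]

end

section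
variable {K L : Type} [Field K] [NumberField K] [Field L] [NumberField L] [Algebra K L]

/-- The action of the Galois group on the primes. -/
noncomputable def smulP (σ : Gal(L/K)) (W : Pl L) : Pl L where
  asIdeal := σ • W.asIdeal
  isPrime := by
    have := W.isPrime
    infer_instance
  ne_bot := by
    intro h
    apply W.ne_bot
    have h1 : σ⁻¹ • (σ • W.asIdeal) = σ⁻¹ • (⊥ : Ideal (𝓞 L)) := by rw [h]
    rw [inv_smul_smul] at h1
    rw [h1]
    exact Ideal.smul_bot _

/-- The norm on units. -/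
noncomputable def nrm (K L : Type) [Field K] [Field L] [Algebra K L] : Lˣ →* Kˣ :=
  Units.map (Algebra.norm K : L →* K)

/-- Every prime is, up to primes in S, principal. -/
def GenS (S : Set (Pl K)) : Prop :=
  ∀ v : Pl K, ∃ x : Kˣ, (v ∉ S → ord v x = 1) ∧ ∀ u : Pl K, u ∉ S → u ≠ v → ord u x = 0

end

end H55R
end

-- from Lib.H55R.BF1
section

open NumberField IsDedekindDomain
open scoped Pointwise

namespace H55R

variable {K L : Type} [Field K] [NumberField K] [Field L] [NumberField L] [Algebra K L]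

/-! Chunk BF1 (M): the Galois action on the primes, L/K Galois.
smulP_one, smulP_mul: HeightOneSpectrum.ext, one_smul, mul_smul. under_smulP: the elements of O_K are fixed
(Ideal.under_smul or comap; Mathlib: Ideal.under_smul). smulP_trans: two primes over the same prime are conjugate
(Ideal.exists_smul_eq_of_isGaloisGroup). ord_smul: ord (σ W) (σ y) = ord W y: for integral y the multiplicity of
σ W in σ (y) is that of W in (y) (σ is a ring automorphism of 𝓞 L: Ideal.map and normalizedFactors, or: y in W^n iff σ y in (σ W)^n =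
σ (W^n)); for general y = a/b. ord_int: ord v x for x in 𝓞 K nonzero: n <= ord v x iff x in v^n
(HeightOneSpectrum.intValuation_le_pow_iff_mem). -/

theorem BF1_val (v : Pl K) (y : Kˣ) : v.valuation K (y : K) = WithZero.exp (-ord v y) := by
  rw [← HeightOneSpectrum.valuationOfNeZero_eq]
  unfold ord
  rw [neg_neg]
  rfl

theorem ord_int (v : Pl K) (x : 𝓞 K) (y : Kˣ) (h : (y : K) = x) (n : ℕ) :
    (n : ℤ) ≤ ord v y ↔ x ∈ v.asIdeal ^ n := by
  have h1 := BF1_val v y
  rw [h] at h1
  have h2 : v.valuation K ((algebraMap (𝓞 K) K) x) = v.intValuation x :=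
    v.valuation_of_algebraMap x
  rw [← v.intValuation_le_pow_iff_mem, ← h2]
  have h3 : v.valuation K ((algebraMap (𝓞 K) K) x) = WithZero.exp (-ord v y) := h1
  rw [h3, WithZero.exp_le_exp]
  omega

theorem smulP_one (W : Pl L) : smulP (1 : Gal(L/K)) W = W := by
  apply HeightOneSpectrum.ext
  exact one_smul _ W.asIdeal

theorem smulP_mul (σ τ : Gal(L/K)) (W : Pl L) : smulP (σ * τ) W = smulP σ (smulP τ W) := by
  apply HeightOneSpectrum.ext
  exact mul_smul σ τ W.asIdeal

theorem BF1_comm : SMulCommClass Gal(L/K) (𝓞 K) (𝓞 L) := by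
  refine ⟨fun σ a x => ?_⟩
  rw [Algebra.smul_def, Algebra.smul_def, smul_mul']
  congr 1
  apply RingOfIntegers.ext
  exact σ.commutes (a : K)

theorem under_smulP (σ : Gal(L/K)) (W : Pl L) : (smulP σ W).under (𝓞 K) = W.under (𝓞 K) := by
  have := BF1_comm (K := K) (L := L)
  apply HeightOneSpectrum.ext
  exact Ideal.under_smul (𝓞 K) W.asIdeal σ

theorem smulP_trans [IsGalois K L] (W W' : Pl L) (h : W.under (𝓞 K) = W'.under (𝓞 K)) :
    ∃ σ : Gal(L/K), smulP σ W = W' := by
  have h1 : W.asIdeal.LiesOver (W.asIdeal.under (𝓞 K)) := ⟨rfl⟩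
  have h2 : W'.asIdeal.LiesOver (W.asIdeal.under (𝓞 K)) := ⟨congrArg HeightOneSpectrum.asIdeal h⟩
  have h3 := W.isPrime
  have h4 := W'.isPrime
  obtain ⟨σ, hσ⟩ := Ideal.exists_smul_eq_of_isGaloisGroup (W.asIdeal.under (𝓞 K)) W.asIdeal
    W'.asIdeal Gal(L/K)
  exact ⟨σ, HeightOneSpectrum.ext hσ⟩

theorem BF1_coe (σ : Gal(L/K)) (x : 𝓞 L) : ((σ • x : 𝓞 L) : L) = σ (x : L) := rfl

theorem BF1_int (σ : Gal(L/K)) (W : Pl L) (x : 𝓞 L) (y : Lˣ) (h : (y : L) = x) :
    ord (smulP σ W) (Units.map ((σ : L ≃ₐ[K] L) : L →* L) y) = ord W y := by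
  have h1 : ∀ n : ℕ, (n : ℤ) ≤ ord (smulP σ W) (Units.map ((σ : L ≃ₐ[K] L) : L →* L) y) ↔
      (n : ℤ) ≤ ord W y := by
    intro n
    have h2 : ((Units.map ((σ : L ≃ₐ[K] L) : L →* L) y : Lˣ) : L) = ((σ • x : 𝓞 L) : L) := by
      rw [BF1_coe, ← h]
      rfl
    rw [ord_int (smulP σ W) (σ • x) _ h2 n, ord_int W x y h n]
    have h3 : (smulP σ W).asIdeal ^ n = σ • (W.asIdeal ^ n) := by
      rw [smul_pow']
      rfl
    rw [h3, Ideal.smul_mem_pointwise_smul_iff]
  have h4 := (h1 0).2 ((ord_int W x y h 0).2 (by simp))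
  have h5 := (ord_int W x y h 0).2 (by simp)
  push_cast at h4 h5
  obtain ⟨a, ha⟩ := Int.eq_ofNat_of_zero_le h4
  obtain ⟨b, hb⟩ := Int.eq_ofNat_of_zero_le h5
  have h6 := (h1 a).1 ha.ge
  have h7 := (h1 b).2 hb.ge
  omega

theorem ord_smul (σ : Gal(L/K)) (W : Pl L) (y : Lˣ) :
    ord (smulP σ W) (Units.map ((σ : L ≃ₐ[K] L) : L →* L) y) = ord W y := by
  obtain ⟨a, b, hb, hab⟩ := IsFractionRing.div_surjective (A := 𝓞 L) (y : L)
  have hb0 : (algebraMap (𝓞 L) L) b ≠ 0 := by
    intro h0
    have := (map_eq_zero_iff _ (IsFractionRing.injective (𝓞 L) L)).1 h0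
    rw [this] at hb
    exact zero_notMem_nonZeroDivisors hb
  have ha0 : (algebraMap (𝓞 L) L) a ≠ 0 := by
    intro h0
    rw [h0, zero_div] at hab
    exact y.ne_zero hab.symm
  have hy : y = Units.mk0 _ ha0 * (Units.mk0 _ hb0)⁻¹ := by
    ext
    rw [← hab, Units.val_mul, Units.val_inv_eq_inv_val, Units.val_mk0, Units.val_mk0, div_eq_mul_inv]
  rw [hy, map_mul, map_inv, ord_mul, ord_inv, ord_mul, ord_inv, BF1_int σ W a (Units.mk0 _ ha0) rfl,
    BF1_int σ W b (Units.mk0 _ hb0) rfl]

end H55R
end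

-- from Lib.H55R.BF2
section

open NumberField IsDedekindDomain
open scoped Pointwise

namespace H55R

variable {K L : Type} [Field K] [NumberField K] [Field L] [NumberField L] [Algebra K L] [IsGalois K L]

/-! Chunk BF2 (M): ramification, degrees, norms; L/K Galois of degree n, v a prime of K.
es_pos, fs_pos: Ideal.ramificationIdxIn_ne_zero, inertiaDegIn_ne_zero. card_above: number of primes above v times e f is n
(Ideal.ncard_primesOver_mul_ramificationIdxIn_mul_inertiaDegIn; the primes W with W.under = v correspond to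
v.asIdeal.primesOver (𝓞 L)). card_stab: Ideal.card_stabilizer_eq.
ord_map: ord W (x) = e ord v (x) for x in Kˣ: v O_L = product of the W'^e over the primes W' above v (Ideal.ramificationIdx is the multiplicity
of W in v O_L), so for integral x with (x) = v^a b, b prime to v, the multiplicity of W in x O_L is e a; quotients.
under_exists: every v has a prime above it. -/

theorem es_pos (v : Pl K) : 0 < es K L v := by
  have h := v.isPrime
  exact Nat.pos_of_ne_zero (Ideal.ramificationIdxIn_ne_zero (A := 𝓞 K) (B := 𝓞 L) Gal(L/K)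
    (p := v.asIdeal))

theorem fs_pos (v : Pl K) : 0 < fs K L v := by
  have h := v.isPrime
  exact Nat.pos_of_ne_zero (Ideal.inertiaDegIn_ne_zero (A := 𝓞 K) (B := 𝓞 L) Gal(L/K)
    (p := v.asIdeal))

omit [IsGalois K L] in
theorem under_exists (v : Pl K) : ∃ W : Pl L, W.under (𝓞 K) = v := by
  have hm := v.isMaximal
  obtain ⟨Q, hQ1, hQ2⟩ := Ideal.exists_maximal_ideal_liesOver_of_isIntegral (S := 𝓞 L) v.asIdeal
  refine ⟨⟨Q, hQ1.isPrime, Ideal.ne_bot_of_liesOver_of_ne_bot v.ne_bot Q⟩, ?_⟩
  apply HeightOneSpectrum.ext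
  exact hQ2.over.symm

omit [IsGalois K L] in
theorem BF2_mem (v : Pl K) (W : Pl L) (h : W.under (𝓞 K) = v) :
    W.asIdeal ∈ v.asIdeal.primesOver (𝓞 L) :=
  ⟨W.isPrime, ⟨(congrArg HeightOneSpectrum.asIdeal h).symm⟩⟩

omit [IsGalois K L] in
theorem above_finite (v : Pl K) : {W : Pl L | W.under (𝓞 K) = v}.Finite := by
  have hm := v.isMaximal
  have h1 : (v.asIdeal.primesOver (𝓞 L)).Finite := IsDedekindDomain.primesOver_finite v.asIdeal (𝓞 L)
  refine Set.Finite.of_finite_image (f := HeightOneSpectrum.asIdeal) (h1.subset ?_) ?_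
  · rintro _ ⟨W, hW, rfl⟩
    exact BF2_mem v W hW
  · intro W _ W' _ h
    exact HeightOneSpectrum.ext h

theorem card_above (v : Pl K) (T : Finset (Pl L)) (hT : ∀ W, W ∈ T ↔ W.under (𝓞 K) = v) :
    T.card * (es K L v * fs K L v) = Module.finrank K L := by
  classical
  have hp := v.isPrime
  have h1 := Ideal.ncard_primesOver_mul_ramificationIdxIn_mul_inertiaDegIn v.asIdeal (𝓞 L) Gal(L/K)
  rw [IsGalois.card_aut_eq_finrank] at h1
  have h2 : ((T.image HeightOneSpectrum.asIdeal : Finset (Ideal (𝓞 L))) : Set (Ideal (𝓞 L))) =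
      v.asIdeal.primesOver (𝓞 L) := by
    ext P
    rw [Finset.coe_image]
    constructor
    · rintro ⟨W, hW, rfl⟩
      exact BF2_mem v W ((hT W).1 (Finset.mem_coe.1 hW))
    · rintro ⟨hP, hP2⟩
      refine ⟨⟨P, hP, Ideal.ne_bot_of_liesOver_of_ne_bot v.ne_bot P⟩, ?_, rfl⟩
      rw [Finset.mem_coe, hT]
      apply HeightOneSpectrum.ext
      exact hP2.over.symm
  rw [← h2, Set.ncard_coe_finset, Finset.card_image_of_injective] at h1
  · exact h1
  · intro W W' h
    exact HeightOneSpectrum.ext h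

theorem card_stab (W : Pl L) (v : Pl K) (h : W.under (𝓞 K) = v) :
    Nat.card {σ : Gal(L/K) // smulP σ W = W} = es K L v * fs K L v := by
  have hp := v.isPrime
  have hW := W.isPrime
  have hl : W.asIdeal.LiesOver v.asIdeal := (BF2_mem v W h).2
  have h1 := Ideal.card_stabilizer_eq (G := Gal(L/K)) v.asIdeal W.asIdeal
  have h2 : Nat.card {σ : Gal(L/K) // smulP σ W = W} =
      Nat.card (MulAction.stabilizer Gal(L/K) W.asIdeal) := by
    apply Nat.card_congr
    refine Equiv.subtypeEquivRight fun σ => ?_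
    rw [MulAction.mem_stabilizer_iff]
    constructor
    · intro h
      exact congrArg HeightOneSpectrum.asIdeal h
    · intro h
      exact HeightOneSpectrum.ext h
  rw [h2, h1]
  rfl

theorem ord_map (W : Pl L) (v : Pl K) (h : W.under (𝓞 K) = v) (x : Kˣ) :
    ord W (Units.map (algebraMap K L : K →* L) x) = es K L v * ord v x := by
  have hp := v.isPrime
  have hW := W.isPrime
  have hl : W.asIdeal.LiesOver v.asIdeal := (BF2_mem v W h).2
  have h1 := HeightOneSpectrum.valuation_liesOver L v W (x : K)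
  rw [Ideal.ramificationIdx'_eq_ramificationIdx v.asIdeal W.asIdeal v.ne_bot,
    ← Ideal.ramificationIdxIn_eq_ramificationIdx v.asIdeal W.asIdeal Gal(L/K)] at h1
  have h2 := BF1_val W (Units.map (algebraMap K L : K →* L) x)
  have h3 : ((Units.map (algebraMap K L : K →* L) x : Lˣ) : L) = algebraMap K L (x : K) := rfl
  rw [h3, ← h1, BF1_val, ← WithZero.exp_nsmul, WithZero.exp_inj] at h2
  have h4 : v.asIdeal.ramificationIdxIn (𝓞 L) = es K L v := rfl
  rw [h4, nsmul_eq_mul] at h2
  linarith

end H55R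
end

-- from Lib.H55R.HB1
section

open NumberField IsDedekindDomain

namespace H55R

variable {K : Type} [Field K] [NumberField K]

/-! Chunk HB1 (M): the residue map. Choose p in 𝓞 K of order exactly 1 at v (an element of v not in v^2), as an element of Kˣ. Every x in Kˣ of order 0 at
v is a/b with a, b in 𝓞 K, not in v: (x) = I/J with coprime integral ideals I, J, J not contained in v; choose b in J, b not in v; then
a = x b is integral (its order is >= 0 everywhere) and has order 0 at v. (Or: x is in the localisation at v, use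
HeightOneSpectrum.valuation_le_one_iff / IsLocalization.AtPrime and IsLocalization.mk'_surjective.) Put res x = a/b mod v (well defined: a b' = a' b), multiplicative on the elements
of order 0, and resv x = res (x p^(- ord v x)). -/

theorem HB1_val (v : Pl K) (x : Kˣ) : v.valuation K (x : K) =
    ((Multiplicative.ofAdd (-ord v x) : Multiplicative ℤ) : WithZero (Multiplicative ℤ)) := by
  rw [← HeightOneSpectrum.valuationOfNeZero_eq]
  unfold ord
  rw [neg_neg]
  rfl

theorem HB1_ord_zero (v : Pl K) (x : Kˣ) : ord v x = 0 ↔ v.valuation K (x : K) = 1 := by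
  rw [HB1_val]
  constructor
  · intro h
    rw [h]
    rfl
  · intro h
    have h1 : (Multiplicative.ofAdd (-ord v x) : Multiplicative ℤ) = 1 := by
      exact WithZero.coe_injective h
    have h2 : -ord v x = 0 := by
      have := congrArg Multiplicative.toAdd h1
      simpa using this
    linarith

theorem exists_frac (v : Pl K) (x : Kˣ) (hx : ord v x = 0) : ∃ a b : 𝓞 K, a ∉ v.asIdeal ∧
    b ∉ v.asIdeal ∧ (x : K) = a / b := by
  have h1 := (HB1_ord_zero v x).1 hx
  obtain ⟨n, d, h⟩ := HeightOneSpectrum.exists_primeCompl_mul_eq_of_integer v (x : K) h1.le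
  have hd : (d : 𝓞 K) ∉ v.asIdeal := d.2
  have hd1 : v.valuation K (algebraMap (𝓞 K) K (d : 𝓞 K)) = 1 :=
    (HeightOneSpectrum.valuation_eq_one_iff_notMem (K := K) v).2 hd
  have hn1 : v.valuation K (algebraMap (𝓞 K) K n) = 1 := by
    rw [← h, map_mul, h1, hd1, mul_one]
  have hn : n ∉ v.asIdeal := (HeightOneSpectrum.valuation_eq_one_iff_notMem (K := K) v).1 hn1
  refine ⟨n, d, hn, hd, ?_⟩
  have hd0 : (algebraMap (𝓞 K) K (d : 𝓞 K)) ≠ 0 := by
    intro h0
    rw [h0, map_zero] at hd1
    exact zero_ne_one hd1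
  exact (eq_div_iff hd0).2 h

theorem HB1_unit (v : Pl K) (a : 𝓞 K) (ha : a ∉ v.asIdeal) :
    IsUnit (Ideal.Quotient.mk v.asIdeal a) := by
  have hmax : v.asIdeal.IsMaximal := v.isMaximal
  obtain ⟨y, i, hi, h⟩ := hmax.exists_inv ha
  apply IsUnit.of_mul_eq_one (Ideal.Quotient.mk v.asIdeal y)
  rw [← map_mul, mul_comm, ← map_one (Ideal.Quotient.mk v.asIdeal), Ideal.Quotient.eq]
  have h2 : y * a - 1 = -i := by
    rw [← h]
    ring
  rw [h2]
  exact neg_mem hi

theorem HB1_ex (v : Pl K) (x : Kˣ) (hx : ord v x = 0) : ∃ y : (𝓞 K ⧸ v.asIdeal)ˣ,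
    ∀ a b : 𝓞 K, a ∉ v.asIdeal → b ∉ v.asIdeal → (x : K) = a / b →
      (y : 𝓞 K ⧸ v.asIdeal) * Ideal.Quotient.mk v.asIdeal b = Ideal.Quotient.mk v.asIdeal a := by
  obtain ⟨a₀, b₀, ha₀, hb₀, hx₀⟩ := exists_frac v x hx
  obtain ⟨ua, hua⟩ := HB1_unit v a₀ ha₀
  obtain ⟨ub, hub⟩ := HB1_unit v b₀ hb₀
  refine ⟨ua * ub⁻¹, ?_⟩
  intro a b ha hb hab
  have hb0 : (b : K) ≠ 0 := by
    intro h0
    apply hb
    have : b = 0 := by exact_mod_cast h0
    rw [this]
    exact zero_mem _
  have hb₀0 : (b₀ : K) ≠ 0 := by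
    intro h0
    apply hb₀
    have : b₀ = 0 := by exact_mod_cast h0
    rw [this]
    exact zero_mem _
  have h1 : a₀ * b = a * b₀ := by
    have h2 : (a₀ : K) / b₀ = a / b := hx₀.symm.trans hab
    rw [div_eq_div_iff hb₀0 hb0] at h2
    exact_mod_cast h2
  have h3 : (ua : 𝓞 K ⧸ v.asIdeal) * Ideal.Quotient.mk v.asIdeal b =
      Ideal.Quotient.mk v.asIdeal a * ub := by
    rw [hua, hub, ← map_mul, h1, map_mul]
  rw [Units.val_mul, mul_assoc, mul_comm ((ub⁻¹ : (𝓞 K ⧸ v.asIdeal)ˣ) : 𝓞 K ⧸ v.asIdeal),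
    ← mul_assoc, h3, mul_assoc, Units.mul_inv, mul_one]

theorem HB1_pi (v : Pl K) : ∃ p : Kˣ, ord v p = 1 := by
  obtain ⟨p, hp⟩ := HeightOneSpectrum.valuation_exists_uniformizer K v
  have hp0 : p ≠ 0 := by
    rintro rfl
    rw [map_zero] at hp
    exact WithZero.zero_ne_coe hp
  refine ⟨Units.mk0 p hp0, ?_⟩
  have h1 := HB1_val v (Units.mk0 p hp0)
  rw [Units.val_mk0, hp] at h1
  have h2 := WithZero.coe_injective h1
  have h3 := congrArg Multiplicative.toAdd h2
  have h4 : (-1 : ℤ) = -ord v (Units.mk0 p hp0) := h3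
  linarith

theorem exists_res (v : Pl K) : ∃ r : Kˣ →* (𝓞 K ⧸ v.asIdeal)ˣ, ∀ (a : 𝓞 K) (x : Kˣ),
    (x : K) = a → a ∉ v.asIdeal → ((r x : (𝓞 K ⧸ v.asIdeal)ˣ) : 𝓞 K ⧸ v.asIdeal) =
      Ideal.Quotient.mk v.asIdeal a := by
  obtain ⟨p, hp⟩ := HB1_pi v
  have hex := HB1_ex v
  choose! f hf using hex
  have hmul : ∀ x y : Kˣ, ord v x = 0 → ord v y = 0 → f (x * y) = f x * f y := by
    intro x y hx hy
    obtain ⟨a, b, ha, hb, hab⟩ := exists_frac v x hx
    obtain ⟨c, d, hc, hd, hcd⟩ := exists_frac v y hy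
    have hac : a * c ∉ v.asIdeal := fun h => (v.isPrime.mem_or_mem h).elim ha hc
    have hbd : b * d ∉ v.asIdeal := fun h => (v.isPrime.mem_or_mem h).elim hb hd
    have h1 := hf x hx a b ha hb hab
    have h2 := hf y hy c d hc hd hcd
    have h3 := hf (x * y) (by rw [ord_mul, hx, hy, add_zero]) (a * c) (b * d) hac hbd (by
      rw [Units.val_mul, hab, hcd]
      push_cast
      rw [div_mul_div_comm])
    obtain ⟨u, hu⟩ := HB1_unit v (b * d) hbd
    apply Units.ext
    have h4 : (f (x * y) : 𝓞 K ⧸ v.asIdeal) * u = (f x * f y : (𝓞 K ⧸ v.asIdeal)ˣ) * u := by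
      rw [hu, h3, map_mul, map_mul, ← h1, ← h2, Units.val_mul]
      exact mul_mul_mul_comm _ _ _ _
    exact (Units.mul_left_inj u).1 h4
  have hg : ∀ x : Kˣ, ord v (x * p ^ (-ord v x)) = 0 := by
    intro x
    rw [ord_mul, ord_zpow, hp]
    ring
  refine ⟨MonoidHom.mk' (fun x => f (x * p ^ (-ord v x))) ?_, ?_⟩
  · intro x y
    rw [← hmul _ _ (hg x) (hg y)]
    congr 1
    rw [ord_mul, neg_add, zpow_add]
    exact mul_mul_mul_comm _ _ _ _
  · intro a x hx ha
    have h0 : ord v x = 0 := by
      rw [HB1_ord_zero, hx]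
      exact (HeightOneSpectrum.valuation_eq_one_iff_notMem (K := K) v).2 ha
    have h1 : (1 : 𝓞 K) ∉ v.asIdeal := fun h => v.isPrime.ne_top ((Ideal.eq_top_iff_one _).2 h)
    have h2 := hf x h0 a 1 ha h1 (by rw [hx]; simp)
    rw [map_one, mul_one] at h2
    show ((f (x * p ^ (-ord v x)) : (𝓞 K ⧸ v.asIdeal)ˣ) : 𝓞 K ⧸ v.asIdeal) = _
    rw [h0, neg_zero, zpow_zero, mul_one]
    exact h2

/-- The residue map at v (meaningful on the elements of order 0). -/
noncomputable def resv (v : Pl K) : Kˣ →* (𝓞 K ⧸ v.asIdeal)ˣ := (exists_res v).choose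

theorem resv_apply (v : Pl K) (a : 𝓞 K) (x : Kˣ) (h : (x : K) = a) (ha : a ∉ v.asIdeal) :
    ((resv v x : (𝓞 K ⧸ v.asIdeal)ˣ) : 𝓞 K ⧸ v.asIdeal) = Ideal.Quotient.mk v.asIdeal a :=
  (exists_res v).choose_spec a x h ha

end H55R
end

-- from Lib.H55R.HCD
section

/-! # H55R: definitions for the construction of characters -/

open NumberField IsDedekindDomain

namespace H55R

variable {K : Type} [Field K] [NumberField K]

/-- Local data: characters of the residue fields at R and values at S. -/
abbrev XX (R S : Finset (Pl K)) : Type :=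
  ((w : R) → ((𝓞 K ⧸ w.1.asIdeal)ˣ →* ℂˣ)) × (S → ℂˣ)

/-- The character of Kˣ defined by local data. -/
noncomputable def Psi (R S : Finset (Pl K)) : XX R S →* (Kˣ →* ℂˣ) where
  toFun q :=
    { toFun := fun x => (∏ w : R, q.1 w (resv w.1 x)) * ∏ s : S, q.2 s ^ ord s.1 x
      map_one' := by simp [ord_one]
      map_mul' := fun x y => by
        simp only [map_mul, ord_mul, zpow_add, Finset.prod_mul_distrib]
        exact mul_mul_mul_comm _ _ _ _ }
  map_one' := by
    ext x
    simp
  map_mul' q r := by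
    apply MonoidHom.ext
    intro x
    simp only [MonoidHom.coe_mk, OneHom.coe_mk, Prod.fst_mul, Prod.snd_mul, Pi.mul_apply,
      MonoidHom.mul_apply, mul_zpow, Finset.prod_mul_distrib]
    exact mul_mul_mul_comm _ _ _ _

theorem Psi_apply (R S : Finset (Pl K)) (q : XX R S) (x : Kˣ) :
    Psi R S q x = (∏ w : R, q.1 w (resv w.1 x)) * ∏ s : S, q.2 s ^ ord s.1 x := rfl

open Classical in
/-- The character defined by local data; xs v generates v up to primes in S. -/
noncomputable def phi (f : Ideal (𝓞 K)) (R S : Finset (Pl K)) (xs : Pl K → Kˣ) :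
    XX R S →* (Pl K → ℂˣ) where
  toFun q := fun v => if f ≤ v.asIdeal then 1 else if h : v ∈ S then q.2 ⟨v, h⟩ else
    (Psi R S q (xs v))⁻¹
  map_one' := by
    funext v
    by_cases h : f ≤ v.asIdeal
    · rw [if_pos h, Pi.one_apply]
    · rw [if_neg h]
      by_cases h' : v ∈ S
      · rw [dif_pos h']
        rfl
      · rw [dif_neg h', map_one, MonoidHom.one_apply, inv_one, Pi.one_apply]
  map_mul' q r := by
    funext v
    rw [Pi.mul_apply]
    by_cases h : f ≤ v.asIdeal
    · rw [if_pos h, if_pos h, if_pos h, mul_one]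
    · rw [if_neg h, if_neg h, if_neg h]
      by_cases h' : v ∈ S
      · rw [dif_pos h', dif_pos h', dif_pos h']
        rfl
      · rw [dif_neg h', dif_neg h', dif_neg h', map_mul, MonoidHom.mul_apply, mul_inv]

theorem phi_of_dvd (f : Ideal (𝓞 K)) (R S : Finset (Pl K)) (xs : Pl K → Kˣ) (q : XX R S) (v : Pl K)
    (h : f ≤ v.asIdeal) : phi f R S xs q v = 1 := if_pos h

open Classical in
theorem phi_of_mem (f : Ideal (𝓞 K)) (R S : Finset (Pl K)) (xs : Pl K → Kˣ) (q : XX R S) (v : Pl K)
    (h : ¬ f ≤ v.asIdeal) (h' : v ∈ S) : phi f R S xs q v = q.2 ⟨v, h'⟩ := by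
  have h1 : phi f R S xs q v = if f ≤ v.asIdeal then 1 else if h : v ∈ S then q.2 ⟨v, h⟩ else
    (Psi R S q (xs v))⁻¹ := rfl
  rw [h1, if_neg h, dif_pos h']

open Classical in
theorem phi_of_not_mem (f : Ideal (𝓞 K)) (R S : Finset (Pl K)) (xs : Pl K → Kˣ) (q : XX R S)
    (v : Pl K) (h : ¬ f ≤ v.asIdeal) (h' : v ∉ S) :
    phi f R S xs q v = (Psi R S q (xs v))⁻¹ := by
  have h1 : phi f R S xs q v = if f ≤ v.asIdeal then 1 else if h : v ∈ S then q.2 ⟨v, h⟩ else
    (Psi R S q (xs v))⁻¹ := rfl
  rw [h1, if_neg h, dif_neg h']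

/-- Local data of the right orders. -/
def X0 (K L : Type) [Field K] [NumberField K] [Field L] [NumberField L] [Algebra K L]
    (R S : Finset (Pl K)) : Subgroup (XX R S) where
  carrier := {q | (∀ (w : R) (x : (𝓞 K ⧸ w.1.asIdeal)ˣ), q.1 w x ^ es K L w.1 = 1) ∧
    ∀ s : S, q.2 s ^ fs K L s.1 = 1}
  mul_mem' := by
    rintro q r ⟨h1, h2⟩ ⟨h3, h4⟩
    refine ⟨fun w x => ?_, fun s => ?_⟩
    · have h : (q * r).1 w x = q.1 w x * r.1 w x := rfl
      rw [h, mul_pow, h1 w x, h3 w x, mul_one]
    · have h : (q * r).2 s = q.2 s * r.2 s := rfl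
      rw [h, mul_pow, h2 s, h4 s, mul_one]
  one_mem' := ⟨fun w x => one_pow _, fun s => one_pow _⟩
  inv_mem' := by
    rintro q ⟨h1, h2⟩
    refine ⟨fun w x => ?_, fun s => ?_⟩
    · have h : (q⁻¹).1 w x = (q.1 w x)⁻¹ := rfl
      rw [h, inv_pow, h1 w x, inv_one]
    · have h : (q⁻¹).2 s = (q.2 s)⁻¹ := rfl
      rw [h, inv_pow, h2 s, inv_one]

/-- xs v generates v up to primes in S. -/
def GenX (S : Finset (Pl K)) (xs : Pl K → Kˣ) : Prop :=
  ∀ v : Pl K, (v ∉ S → ord v (xs v) = 1) ∧ ∀ u : Pl K, u ∉ S → u ≠ v → ord u (xs v) = 0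

end H55R
end

-- from Lib.H55R.BF3
section

open NumberField IsDedekindDomain
open scoped Pointwise

namespace H55R

variable {K L : Type} [Field K] [NumberField K] [Field L] [NumberField L] [Algebra K L] [IsGalois K L]

/-! Chunk BF3 (M): the order of a norm. In L: N y = product of the σ y over the Galois group (Algebra.norm_eq_prod_automorphisms). For a prime W above v:
e ord v (N y) = ord W (N y) (ord_map) = sum over σ of ord W (σ y) = sum over σ of ord (σ^-1 W) y (ord_smul), and σ^-1 W runs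
through the primes above v, each of them e f times (smulP_trans, card_stab: fibres of the orbit map). Divide by e. -/

omit [IsGalois K L] in
theorem BF3_prod {ι : Type} (W : Pl L) (s : Finset ι) (f : ι → Lˣ) :
    ord W (∏ i ∈ s, f i) = ∑ i ∈ s, ord W (f i) := by
  classical
  induction s using Finset.induction_on with
  | empty => rw [Finset.prod_empty, Finset.sum_empty, ord_one]
  | insert a s ha ih => rw [Finset.prod_insert ha, Finset.sum_insert ha, ord_mul, ih]

open Classical in
theorem BF3_fib (v : Pl K) (W₀ W : Pl L) (h₀ : W₀.under (𝓞 K) = v) (h : W.under (𝓞 K) = v)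
    [Fintype Gal(L/K)] :
    (Finset.univ.filter fun σ : Gal(L/K) => smulP σ W₀ = W).card = es K L v * fs K L v := by
  obtain ⟨τ, hτ⟩ := smulP_trans W₀ W (h₀.trans h.symm)
  rw [← card_stab W₀ v h₀, ← Fintype.card_subtype, ← Nat.card_eq_fintype_card]
  apply Nat.card_congr
  refine Equiv.subtypeEquiv (Equiv.mulLeft τ⁻¹) fun σ => ?_
  rw [Equiv.coe_mulLeft, smulP_mul]
  constructor
  · intro h1
    rw [h1, ← hτ, ← smulP_mul, inv_mul_cancel, smulP_one]
  · intro h1
    have h2 := congrArg (smulP τ) h1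
    rwa [← smulP_mul, mul_inv_cancel, smulP_one, hτ] at h2

theorem ord_norm (v : Pl K) (T : Finset (Pl L)) (hT : ∀ W, W ∈ T ↔ W.under (𝓞 K) = v) (y : Lˣ) :
    ord v (nrm K L y) = fs K L v * ∑ W ∈ T, ord W y := by
  classical
  obtain ⟨W₀, h₀⟩ := under_exists (L := L) v
  have h1 := ord_map W₀ v h₀ (nrm K L y)
  have h2 : Units.map (algebraMap K L : K →* L) (nrm K L y) =
      ∏ σ : Gal(L/K), Units.map ((σ : L ≃ₐ[K] L) : L →* L) y := by
    ext
    rw [Units.coe_prod]
    exact Algebra.norm_eq_prod_automorphisms K (y : L)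
  rw [h2, BF3_prod] at h1
  have h3 : ∀ σ : Gal(L/K), ord W₀ (Units.map ((σ : L ≃ₐ[K] L) : L →* L) y) =
      ord (smulP σ⁻¹ W₀) y := by
    intro σ
    have h4 := ord_smul σ (smulP σ⁻¹ W₀) y
    rwa [← smulP_mul, mul_inv_cancel, smulP_one] at h4
  rw [Finset.sum_congr rfl fun σ _ => h3 σ] at h1
  have h5 : ∑ σ : Gal(L/K), ord (smulP σ⁻¹ W₀) y = ∑ σ : Gal(L/K), ord (smulP σ W₀) y :=
    Equiv.sum_comp (Equiv.inv Gal(L/K)) fun σ => ord (smulP σ W₀) y
  have h6 : ∑ σ : Gal(L/K), ord (smulP σ W₀) y = ∑ W ∈ T, ((es K L v * fs K L v : ℕ) : ℤ) * ord W y := by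
    rw [← Finset.sum_fiberwise_of_maps_to (s := Finset.univ) (t := T)
      (g := fun σ : Gal(L/K) => smulP σ W₀)]
    · refine Finset.sum_congr rfl fun W hW => ?_
      rw [← BF3_fib v W₀ W h₀ ((hT W).1 hW), ← nsmul_eq_mul, ← Finset.sum_const]
      refine Finset.sum_congr rfl fun σ hσ => ?_
      rw [(Finset.mem_filter.1 hσ).2]
    · intro σ _
      rw [hT, under_smulP]
      exact h₀
  rw [h5, h6, ← Finset.mul_sum] at h1
  have h7 : (es K L v : ℤ) ≠ 0 := by
    have := es_pos (L := L) v
    exact_mod_cast this.ne'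
  apply mul_left_cancel₀ h7
  rw [← h1]
  push_cast
  ring

end H55R
end

-- from Lib.H55R.HC1
section

open NumberField IsDedekindDomain

namespace H55R

/-! Chunk HC1 (M, pure algebra): counting characters.
card_pow: the group of characters of a finite cyclic group of order c is cyclic of order c (CommGroup.monoidHom_mulEquiv_of_hasEnoughRootsOfUnity or:
a character is determined by the image of a generator, any c-th root of unity), so for e dividing c exactly e characters satisfy χ^e = 1, i.e. (χ x)^e = 1 for all x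
(IsCyclic.card_pow_eq_one_eq... or IsCyclic.card_pow_eq_one). The group (𝓞 K ⧸ v)ˣ is cyclic of order absNorm v - 1 (units of a finite
field; Ideal.absNorm is the cardinality of the quotient). card_root: the number of z in ℂˣ with z^k = 1 is k (Complex.card_rootsOfUnity).
dual_count: the restriction x -> (Ψ x restricted to U, factored through U/N) is a homomorphism from X to the group of characters of the finite
commutative group U/N, which has k elements (CommGroup.card_monoidHom_of_hasEnoughRootsOfUnity), with kernel {x | Ψ x = 1 on U}. -/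

theorem card_root (k : ℕ) (hk : 0 < k) : Nat.card {z : ℂˣ // z ^ k = 1} = k := by
  have : NeZero k := ⟨hk.ne'⟩
  exact (Nat.card_congr (Equiv.subtypeEquivRight fun z => (mem_rootsOfUnity k z).symm)).trans
    (Complex.card_rootsOfUnity k)

theorem hc1_cyc {G : Type} [Group G] [IsCyclic G] (e : ℕ) (he : e ∣ Nat.card G) (he0 : 0 < e) :
    Nat.card {χ : G →* ℂˣ // ∀ x, χ x ^ e = 1} = e := by
  obtain ⟨g, hg⟩ := IsCyclic.exists_generator (α := G)
  refine Eq.trans ?_ (card_root e he0)
  have hord : orderOf g = Nat.card G := orderOf_eq_card_of_forall_mem_zpowers hg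
  refine Nat.card_congr (Equiv.ofBijective
    (fun χ : {χ : G →* ℂˣ // ∀ x, χ x ^ e = 1} =>
      (⟨χ.1 g, χ.2 g⟩ : {z : ℂˣ // z ^ e = 1})) ⟨?_, ?_⟩)
  · intro χ ψ h
    have h1 : χ.1 g = ψ.1 g := congrArg Subtype.val h
    apply Subtype.ext
    refine MonoidHom.ext fun x => ?_
    obtain ⟨k, rfl⟩ := Subgroup.mem_zpowers_iff.1 (hg x)
    rw [map_zpow, map_zpow, h1]
  · rintro ⟨z, hz⟩
    have hd : orderOf z ∣ orderOf g := by
      rw [hord]
      exact (orderOf_dvd_of_pow_eq_one hz).trans he
    refine ⟨⟨monoidHomOfForallMemZpowers hg hd, fun x => ?_⟩, Subtype.ext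
      (monoidHomOfForallMemZpowers_apply_gen hg hd)⟩
    obtain ⟨k, rfl⟩ := Subgroup.mem_zpowers_iff.1 (hg x)
    rw [map_zpow, monoidHomOfForallMemZpowers_apply_gen, ← zpow_natCast, ← zpow_mul, mul_comm,
      zpow_mul, zpow_natCast, hz, one_zpow]

theorem card_pow {K : Type} [Field K] [NumberField K] (v : Pl K) (e : ℕ)
    (he : e ∣ Ideal.absNorm v.asIdeal - 1) (he0 : 0 < e) :
    Nat.card {χ : (𝓞 K ⧸ v.asIdeal)ˣ →* ℂˣ // ∀ x, χ x ^ e = 1} = e := by
  have : v.asIdeal.IsMaximal := v.isMaximal
  have : Finite (𝓞 K ⧸ v.asIdeal) := Ideal.finiteQuotientOfFreeOfNeBot _ v.ne_bot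
  let : Field (𝓞 K ⧸ v.asIdeal) := Ideal.Quotient.field v.asIdeal
  have hcard : Nat.card (𝓞 K ⧸ v.asIdeal)ˣ = Ideal.absNorm v.asIdeal - 1 := by
    rw [Nat.card_units, Ideal.absNorm_apply, Submodule.cardQuot_apply]
  have : IsCyclic (𝓞 K ⧸ v.asIdeal)ˣ := inferInstance
  exact hc1_cyc e (hcard ▸ he) he0

theorem dual_count {X G : Type} [CommGroup X] [Finite X] [CommGroup G] (U N : Subgroup G)
    (hN : N ≤ U) (hk : N.relIndex U ≠ 0) (Ψ : X →* (G →* ℂˣ)) (hΨ : ∀ x, ∀ g ∈ N, Ψ x g = 1) :
    Nat.card X ≤ N.relIndex U * Nat.card {x : X // ∀ g ∈ U, Ψ x g = 1} := by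
  have hindex : N.relIndex U = Nat.card (U ⧸ N.subgroupOf U) := rfl
  have hfin : Finite (U ⧸ N.subgroupOf U) := Nat.finite_of_card_ne_zero (hindex ▸ hk)
  have hker : ∀ x : X, N.subgroupOf U ≤ ((Ψ x).comp U.subtype).ker := by
    intro x g hg
    rw [MonoidHom.mem_ker]
    exact hΨ x g.1 (Subgroup.mem_subgroupOf.1 hg)
  let r : X →* ((U ⧸ N.subgroupOf U) →* ℂˣ) :=
    { toFun := fun x => QuotientGroup.lift (N.subgroupOf U) ((Ψ x).comp U.subtype) (hker x)
      map_one' := by
        refine MonoidHom.ext fun q => ?_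
        obtain ⟨g, rfl⟩ := QuotientGroup.mk_surjective q
        change Ψ 1 g.1 = 1
        rw [map_one]
        rfl
      map_mul' := fun x y => by
        refine MonoidHom.ext fun q => ?_
        obtain ⟨g, rfl⟩ := QuotientGroup.mk_surjective q
        change Ψ (x * y) g.1 = Ψ x g.1 * Ψ y g.1
        rw [map_mul]
        rfl }
  have hr : ∀ (x : X) (g : U), r x (QuotientGroup.mk g) = Ψ x g.1 := fun x g => rfl
  have hexp : Monoid.exponent (U ⧸ N.subgroupOf U) ≠ 0 := Monoid.exponent_ne_zero_of_finite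
  have : NeZero ((Monoid.exponent (U ⧸ N.subgroupOf U) : ℕ) : ℂ) := ⟨Nat.cast_ne_zero.2 hexp⟩
  have hdual : Nat.card ((U ⧸ N.subgroupOf U) →* ℂˣ) = N.relIndex U := by
    rw [hindex]
    exact CommGroup.card_monoidHom_of_hasEnoughRootsOfUnity (U ⧸ N.subgroupOf U) ℂ
  have hfd : Finite ((U ⧸ N.subgroupOf U) →* ℂˣ) := Nat.finite_of_card_ne_zero (hdual ▸ hk)
  have h1 : Nat.card X = Nat.card (X ⧸ r.ker) * Nat.card r.ker :=
    Subgroup.card_eq_card_quotient_mul_card_subgroup r.ker
  have h2 : Nat.card (X ⧸ r.ker) ≤ N.relIndex U := by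
    rw [← hdual, Nat.card_congr (QuotientGroup.quotientKerEquivRange r).toEquiv]
    exact Nat.card_le_card_of_injective Subtype.val Subtype.val_injective
  have h3 : Nat.card r.ker = Nat.card {x : X // ∀ g ∈ U, Ψ x g = 1} := by
    refine Nat.card_congr (Equiv.subtypeEquivRight fun x => ?_)
    rw [MonoidHom.mem_ker]
    constructor
    · intro h g hg
      rw [← hr x ⟨g, hg⟩, h]
      rfl
    · intro h
      refine MonoidHom.ext fun q => ?_
      obtain ⟨g, rfl⟩ := QuotientGroup.mk_surjective q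
      rw [hr, h g.1 g.2]
      rfl
  rw [h1, h3]
  exact Nat.mul_le_mul_right _ h2

end H55R
end

-- from Lib.H55R.HC2
section

open NumberField IsDedekindDomain

namespace H55R

/-! Chunk HC2 (S/M): the number of local data. X0 K L R S is (as a set) the product over w in R of {χ | for all x, (χ x)^(e_w) = 1} (card_pow) and
over s in S of {z | z^(f_s) = 1} (card_root): Nat.card_pi, Nat.card_prod, Equiv of subtypes; es_pos, fs_pos; finite because the product is
nonzero (Nat.finite_of_card_ne_zero) or directly. -/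

def hc2_equiv (K L : Type) [Field K] [NumberField K] [Field L] [NumberField L] [Algebra K L]
    (R S : Finset (Pl K)) :
    X0 K L R S ≃ ((w : R) → {χ : (𝓞 K ⧸ w.1.asIdeal)ˣ →* ℂˣ // ∀ x, χ x ^ es K L w.1 = 1}) ×
      ((s : S) → {z : ℂˣ // z ^ fs K L s.1 = 1}) where
  toFun q := (fun w => ⟨q.1.1 w, fun x => q.2.1 w x⟩, fun s => ⟨q.1.2 s, q.2.2 s⟩)
  invFun p := ⟨(fun w => (p.1 w).1, fun s => (p.2 s).1), ⟨fun w x => (p.1 w).2 x,
    fun s => (p.2 s).2⟩⟩
  left_inv _ := rfl
  right_inv _ := rfl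

theorem card_X0 (K L : Type) [Field K] [NumberField K] [Field L] [NumberField L] [Algebra K L]
    [IsGalois K L] (R S : Finset (Pl K))
    (ht : ∀ w ∈ R, es K L w ∣ Ideal.absNorm w.asIdeal - 1) :
    Finite (X0 K L R S) ∧
      Nat.card (X0 K L R S) = (∏ w ∈ R, es K L w) * ∏ s ∈ S, fs K L s := by
  have hcard : Nat.card (X0 K L R S) = (∏ w ∈ R, es K L w) * ∏ s ∈ S, fs K L s := by
    rw [Nat.card_congr (hc2_equiv K L R S), Nat.card_prod, Nat.card_pi, Nat.card_pi,
      ← Finset.prod_coe_sort R (fun w => es K L w), ← Finset.prod_coe_sort S (fun s => fs K L s)]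
    congr 1
    · exact Finset.prod_congr rfl fun w _ => card_pow w.1 (es K L w.1) (ht w.1 w.2) (es_pos w.1)
    · exact Finset.prod_congr rfl fun s _ => card_root (fs K L s.1) (fs_pos s.1)
  refine ⟨Nat.finite_of_card_ne_zero ?_, hcard⟩
  rw [hcard]
  exact mul_ne_zero (Finset.prod_ne_zero_iff.2 fun w _ => (es_pos w).ne')
    (Finset.prod_ne_zero_iff.2 fun s _ => (fs_pos s).ne')

end H55R
end

-- from Lib.H99B.Defs
section

/-!
# H99B: the base case Sel_l(E27/F) = 0 for every prime l >= 5 (definitions of the abstract part)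

L/F is a finite Galois extension with group Δ = Gal(L/F), χ : Δ → kˣ is bijective, k a finite field of
characteristic l. See PROOF.md.
-/

open NumberField IsDedekindDomain

namespace H99B

open H55B H55R

section lin

/-- A linear form ρ on k with sum over c of ρ(a/c) c = -a. -/
structure IsRho (l : ℕ) {k : Type} [Field k] [Fintype k] [DecidableEq k] (ρ : k →+ ZMod l) :
    Prop where
  sum : ∀ a : k, ∑ c : kˣ, ((ρ (a * (c⁻¹ : kˣ))).val : k) * (c : k) = -a

variable {l : ℕ} {k : Type} [Field k]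

/-- The exponents of the group ring element M_a. -/
def cf {D : Type} [Group D] (χ : D →* kˣ) (ρ : k →+ ZMod l) (a : k) (d : D) : ℤ :=
  ((ρ (a * ((χ d)⁻¹ : kˣ))).val : ℤ)

variable {G : Type} [Group G] [Fintype G]

/-- The action of the integral group ring on a multiplicative group. -/
noncomputable def pw {A : Type} [CommGroup A] (ac : G →* Monoid.End A) (α : G → ℤ) (x : A) : A :=
  ∏ g, (ac g x) ^ α g

/-- The action of the integral group ring on an additive group. -/
noncomputable def pa {A : Type} [AddCommGroup A] (ac : G →* AddMonoid.End A) (α : G → ℤ) (x : A) :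
    A :=
  ∑ g, α g • ac g x

/-- The product of the group ring. -/
def conv (α β : G → ℤ) : G → ℤ := fun g => ∑ h, α h * β (h⁻¹ * g)

/-- The ring homomorphism from the integral group ring to k given by χ. -/
def chs (χ : G →* kˣ) (α : G → ℤ) : k := ∑ g, (α g : k) * (χ g : k)

end lin

section act

variable {L : Type} [Field L] [NumberField L] [Algebra F L]

/-- The Galois action on the multiplicative group of L. -/
noncomputable def gu : Gal(L/F) →* Monoid.End Lˣ where
  toFun σ := Units.map ((σ : L ≃ₐ[F] L) : L →* L)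
  map_one' := by
    ext x
    rfl
  map_mul' σ τ := by
    ext x
    rfl

theorem gu_apply (σ : Gal(L/F)) (x : Lˣ) : ((gu σ x : Lˣ) : L) = σ (x : L) := rfl

variable {l : ℕ} {k : Type} [Field k]

/-- The element M_a x. -/
noncomputable def eta (χ : Gal(L/F) →* kˣ) (ρ : k →+ ZMod l) (a : k) (x : Lˣ) : Lˣ :=
  pw gu (cf χ ρ a) x

/-- Equivariant homomorphisms from k to Lˣ modulo l-th powers, given by representatives. -/
structure EqHom (l : ℕ) (χ : Gal(L/F) →* kˣ) (m : k → Lˣ) : Prop where
  add : ∀ a b : k, ∃ z : Lˣ, m (a + b) = m a * m b * z ^ l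
  equiv : ∀ (σ : Gal(L/F)) (a : k), ∃ z : Lˣ, m (χ σ * a) = gu σ (m a) * z ^ l

/-- The level one component at w is trivial: x is an l-th power times an element congruent to 1 modulo
the square of w. -/
def Lev (l : ℕ) (w : Pl L) (x : Lˣ) : Prop :=
  ∃ z : Lˣ, w.valuation L (((x * (z ^ l)⁻¹ : Lˣ) : L) - 1) ≤ WithZero.exp (-2 : ℤ)

/-- x is an l-th power modulo v (x prime to v). -/
def PowMod (l : ℕ) (v : Pl L) (x : Lˣ) : Prop :=
  ∃ z : Lˣ, v.valuation L (((x * (z ^ l)⁻¹ : Lˣ) : L) - 1) < 1

end act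

section cls

variable {L : Type} [Field L] [NumberField L] [Algebra F L] {k : Type} [Field k]

/-- Functions on the primes of L given by the equivariant homomorphisms from the class group of L to k. -/
structure IsTh (χ : Gal(L/F) →* kˣ) (θ : Pl L → k) : Prop where
  equiv : ∀ (σ : Gal(L/F)) (v : Pl L), θ (smulP σ v) = χ σ * θ v
  princ : ∀ x : Lˣ, ∑ᶠ v : Pl L, (ord v x : k) * θ v = 0

end cls

section loc

variable {L : Type} [Field L] [NumberField L] [Algebra F L] {k : Type} [Field k]

/-- Local data at the totally ramified prime w of L: r is the reduction modulo w with values in k, every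
element of k is the reduction of an element of 𝓞 F, t is a uniformizer on which the Galois group acts through
χ modulo the square of w. -/
structure Loc (χ : Gal(L/F) →* kˣ) (w : Pl L) (t : Lˣ) (r : 𝓞 L →+* k) : Prop where
  ker : ∀ x : 𝓞 L, r x = 0 ↔ x ∈ w.asIdeal
  surj : ∀ b : k, ∃ y : 𝓞 F, r (algebraMap (𝓞 F) (𝓞 L) y) = b
  ram : ∀ y : 𝓞 F, r (algebraMap (𝓞 F) (𝓞 L) y) = 0 →
    w.valuation L (algebraMap F L (y : F)) ≤ WithZero.exp (-2 : ℤ)
  inv : ∀ σ : Gal(L/F), smulP σ w = w
  unif : ord w t = 1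
  act : ∀ (σ : Gal(L/F)) (y : 𝓞 F), r (algebraMap (𝓞 F) (𝓞 L) y) = χ σ →
    w.valuation L (σ (t : L) - algebraMap F L (y : F) * (t : L)) ≤ WithZero.exp (-2 : ℤ)

end loc

section thaine

/-- The auxiliary field of Kolyvagin and Thaine for the prime Q of L: B/L is cyclic of degree q - 1,
q = N Q, totally tamely ramified at the conjugates of Q, with one element t which is a uniformizer at all
these primes and on which the Galois group acts through the character κ (modulo squares), unramified outside 3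
and the conjugates of Q; al is a unit of B outside 3, of norm 1, congruent to ξ at the primes above the
conjugates of Q. -/
structure Aux (L : Type) [Field L] [NumberField L] [Algebra F L] (Q : Pl L) (ξ : Lˣ) (B : Type)
    [Field B] [NumberField B] [Algebra L B] (κ : Gal(B/L) → ℤ) (t al : Bˣ) : Prop where
  gal : IsGalois L B
  cyc : IsCyclic Gal(B/L)
  card : Nat.card Gal(B/L) = Ideal.absNorm Q.asIdeal - 1
  ram : ∀ σ : Gal(L/F), es L B (smulP σ Q) = Ideal.absNorm Q.asIdeal - 1
  unr : ∀ v : Pl L, (3 : 𝓞 L) ∉ v.asIdeal → (∀ σ : Gal(L/F), v ≠ smulP σ Q) → es L B v = 1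
  unif : ∀ (σ : Gal(L/F)) (W : Pl B), W.under (𝓞 L) = smulP σ Q → ord W t = 1
  tame : ∀ (σ : Gal(L/F)) (W : Pl B), W.under (𝓞 L) = smulP σ Q → ∀ g : Gal(B/L),
    W.valuation B (g (t : B) - κ g * (t : B)) ≤ WithZero.exp (-2 : ℤ)
  norm : Algebra.norm L (al : B) = 1
  unit : ∀ W : Pl B, (3 : 𝓞 B) ∉ W.asIdeal → ord W al = 0
  congr : ∀ (σ : Gal(L/F)) (W : Pl B), W.under (𝓞 L) = smulP σ Q →
    W.valuation B ((al : B) - algebraMap L B (ξ : L)) < 1

end thaine

end H99B
end

-- from Lib.H55R.HA3
section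

namespace H55R

/-! Chunk HA3 (M/L, pure algebra): permutation modules. Let m_q be the number of points of the fibre of q; the fibre is an orbit of τ,
m_q divides n (τ^n = 1) and for p in the fibre i -> τ^(-i) p (i < n) takes every value n/m_q times. So
N a (p) = sum_(i<n) a(τ^(-i) p) = (n/m_q) * (sum of a over the fibre of p). ker D = functions constant on the fibres (= Z^Q by
composition with π), range N = functions constant on the fibres with value in (n/m_q) Z on the fibre of q (take a = k at one point of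
the fibre, 0 elsewhere), so the index is the product of the n/m_q. ker N = functions with sum 0 on every fibre; every such a is b - σ b: on
the fibre of p0 = τ^0 p0, .., τ^(m-1) p0 put b(τ^j p0) = a(p0) + .. + a(τ^j p0) (b(τ^j p0) - b(τ^(j-1) p0) = a(τ^j p0), also for j = 0 =
m because the total sum is 0). So h1 = 1. A convenient way: choose for every q a point s(q) in the fibre and use
p = τ^j s(π p) with j < m. -/

/-- The size of the fibre is the minimal period, and the sum over one period is the sum over the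
fibre. -/
theorem HA3_per {P Q : Type} [Fintype P] [DecidableEq Q] (ρ : Equiv.Perm P) (n : ℕ)
    (hn : 0 < n) (hρ : ρ ^ n = 1) (π : P → Q)
    (ho : ∀ p p', π p = π p' ↔ ∃ i : ℕ, (ρ ^ i) p = p') (p : P) :
    (Finset.univ.filter fun p' => π p' = π p).card = Function.minimalPeriod ρ p ∧
    ∀ a : P → ℤ, ∑ i ∈ Finset.range (Function.minimalPeriod ρ p), a ((ρ ^ i) p) =
      ∑ p' ∈ Finset.univ.filter (fun p' => π p' = π p), a p' := by
  classical
  have hper : Function.IsPeriodicPt ρ n p := by
    show ρ^[n] p = p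
    rw [Equiv.Perm.iterate_eq_pow, hρ]
    rfl
  have hpos : 0 < Function.minimalPeriod ρ p := hper.minimalPeriod_pos hn
  have himg : Finset.univ.filter (fun p' => π p' = π p) =
      (Finset.range (Function.minimalPeriod ρ p)).image (fun i => (ρ ^ i) p) := by
    ext p'
    rw [Finset.mem_filter, Finset.mem_image]
    constructor
    · rintro ⟨-, h⟩
      obtain ⟨i, hi⟩ := (ho p p').mp h.symm
      refine ⟨i % Function.minimalPeriod ρ p, Finset.mem_range.mpr (Nat.mod_lt _ hpos), ?_⟩
      have := Function.iterate_mod_minimalPeriod_eq (f := ρ) (x := p) (n := i)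
      rw [Equiv.Perm.iterate_eq_pow, Equiv.Perm.iterate_eq_pow, hi] at this
      exact this
    · rintro ⟨i, -, hi⟩
      exact ⟨Finset.mem_univ _, ((ho p p').mpr ⟨i, hi⟩).symm⟩
  have hinj : Set.InjOn (fun i => (ρ ^ i) p) (Finset.range (Function.minimalPeriod ρ p)) := by
    intro i hi j hj hij
    rw [Finset.mem_coe, Finset.mem_range] at hi hj
    refine Function.iterate_injOn_Iio_minimalPeriod (f := ρ) (x := p) (Set.mem_Iio.mpr hi)
      (Set.mem_Iio.mpr hj) ?_
    show ρ^[i] p = ρ^[j] p
    rw [Equiv.Perm.iterate_eq_pow, Equiv.Perm.iterate_eq_pow]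
    exact hij
  constructor
  · rw [himg, Finset.card_image_of_injOn hinj, Finset.card_range]
  · intro a
    rw [himg, Finset.sum_image hinj]

/-- The sum over k periods. -/
theorem HA3_blk {P Q : Type} [Fintype P] [DecidableEq Q] (ρ : Equiv.Perm P) (n : ℕ)
    (hn : 0 < n) (hρ : ρ ^ n = 1) (π : P → Q)
    (ho : ∀ p p', π p = π p' ↔ ∃ i : ℕ, (ρ ^ i) p = p') (p : P) (a : P → ℤ) (k : ℕ) :
    ∑ i ∈ Finset.range (Function.minimalPeriod ρ p * k), a ((ρ ^ i) p) =
      k * ∑ p' ∈ Finset.univ.filter (fun p' => π p' = π p), a p' := by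
  induction k with
  | zero => simp
  | succ k ih =>
    rw [Nat.mul_succ, Finset.sum_range_add, ih, ← (HA3_per ρ n hn hρ π ho p).2 a]
    rw [Nat.cast_add, Nat.cast_one, add_mul, one_mul]
    congr 1
    refine Finset.sum_congr rfl fun i _ => ?_
    have h1 : ρ^[Function.minimalPeriod ρ p * k] p = p :=
      Function.IsPeriodicPt.mul_const (Function.isPeriodicPt_minimalPeriod ρ p) k
    rw [← Equiv.Perm.iterate_eq_pow, ← Equiv.Perm.iterate_eq_pow, add_comm,
      Function.iterate_add_apply, h1]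

theorem HA3_pe_pow {P : Type} (τ : Equiv.Perm P) (i : ℕ) (a : P → ℤ) (p : P) :
    ((pe τ) ^ i : AddMonoid.End (P → ℤ)) a p = a (((τ⁻¹) ^ i) p) := by
  induction i generalizing p with
  | zero => rfl
  | succ i ih =>
    rw [pow_succ', AddMonoid.End.coe_mul, Function.comp_apply]
    show ((pe τ) ^ i : AddMonoid.End (P → ℤ)) a (τ.symm p) = _
    rw [ih, pow_succ, Equiv.Perm.mul_apply]
    rfl

theorem HA3_Nm {P : Type} (τ : Equiv.Perm P) (n : ℕ) (a : P → ℤ) (p : P) :
    Nm n (pe τ) a p = ∑ i ∈ Finset.range n, a (((τ⁻¹) ^ i) p) := by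
  unfold Nm
  have : ∀ s : Finset ℕ, (∑ i ∈ s, (pe τ) ^ i : AddMonoid.End (P → ℤ)) a p =
      ∑ i ∈ s, a (((τ⁻¹) ^ i) p) := by
    intro s
    classical
    induction s using Finset.induction_on with
    | empty => rfl
    | insert x s hx ih =>
      rw [Finset.sum_insert hx, Finset.sum_insert hx, ← ih, ← HA3_pe_pow τ x a p]
      rfl
  exact this _

theorem HA3_Dm {P : Type} (τ : Equiv.Perm P) (a : P → ℤ) (p : P) :
    Dm (pe τ) a p = a p - a (τ.symm p) := rfl

theorem HA3_sym {P Q : Type} (τ : Equiv.Perm P) (π : P → Q)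
    (ho : ∀ p p', π p = π p' ↔ ∃ i : ℕ, (τ ^ i) p = p') :
    ∀ p p', π p = π p' ↔ ∃ i : ℕ, ((τ⁻¹) ^ i) p = p' := by
  intro p p'
  rw [eq_comm, ho]
  refine exists_congr fun i => ?_
  rw [inv_pow, Equiv.Perm.inv_eq_iff_eq, eq_comm]

theorem herb_perm {P Q : Type} [Fintype P] [Fintype Q] [DecidableEq Q] (τ : Equiv.Perm P) (n : ℕ)
    (hn : 0 < n) (hτ : τ ^ n = 1) (π : P → Q) (hs : Function.Surjective π)
    (ho : ∀ p p', π p = π p' ↔ ∃ i : ℕ, (τ ^ i) p = p') :
    h1 n (pe τ) ⊤ = 1 ∧
      h0 n (pe τ) ⊤ = ∏ q : Q, n / (Finset.univ.filter fun p => π p = q).card := by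
  classical
  set m : Q → ℕ := fun q => (Finset.univ.filter fun p => π p = q).card with hm
  have hτ' : (τ⁻¹) ^ n = 1 := by rw [inv_pow, hτ, inv_one]
  have ho' := HA3_sym τ π ho
  have hmp : ∀ p, m (π p) = Function.minimalPeriod (τ⁻¹ : Equiv.Perm P) p := fun p =>
    (HA3_per τ⁻¹ n hn hτ' π ho' p).1
  have hmd : ∀ p, m (π p) ∣ n := by
    intro p
    rw [hmp]
    refine Function.IsPeriodicPt.minimalPeriod_dvd ?_
    show (τ⁻¹ : Equiv.Perm P)^[n] p = p
    rw [Equiv.Perm.iterate_eq_pow, hτ']
    rfl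
  have hNm : ∀ a p, Nm n (pe τ) a p = ((n / m (π p) : ℕ) : ℤ) *
      ∑ p' ∈ Finset.univ.filter (fun p' => π p' = π p), a p' := by
    intro a p
    rw [HA3_Nm, ← HA3_blk τ⁻¹ n hn hτ' π ho' p a (n / m (π p)), ← hmp, Nat.mul_div_cancel' (hmd p)]
  have hmpos : ∀ q, 0 < m q := by
    intro q
    obtain ⟨p, rfl⟩ := hs q
    exact Finset.card_pos.mpr ⟨p, Finset.mem_filter.mpr ⟨Finset.mem_univ _, rfl⟩⟩
  have hkpos : ∀ q, 0 < n / m q := by
    intro q
    obtain ⟨p, rfl⟩ := hs q
    exact Nat.div_pos (Nat.le_of_dvd hn (hmd p)) (hmpos _)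
  choose s hsec using hs
  constructor
  · unfold h1
    rw [AddSubgroup.relIndex_eq_one]
    rintro a ⟨-, ha⟩
    have ha' : ∀ p, ∑ p' ∈ Finset.univ.filter (fun p' => π p' = π p), a p' = 0 := by
      intro p
      have h : Nm n (pe τ) a p = 0 := by
        have := (AddMonoidHom.mem_ker).mp ha
        rw [this]
        rfl
      rw [hNm] at h
      rcases mul_eq_zero.mp h with h | h
      · exact absurd (by exact_mod_cast h) (hkpos (π p)).ne'
      · exact h
    -- the partial sums along the orbit of s q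
    have hsh : ∀ p (i k : ℕ), (τ ^ i) p = (τ ^ (i + k)) p →
        ∑ t ∈ Finset.range k, a ((τ ^ (i + 1 + t)) p) = 0 := by
      intro p i k hk
      have h1 : (τ ^ k) ((τ ^ (i + 1)) p) = (τ ^ (i + 1)) p := by
        rw [← Equiv.Perm.mul_apply, ← pow_add, show k + (i + 1) = 1 + (i + k) by ring, pow_add,
          Equiv.Perm.mul_apply, ← hk, ← Equiv.Perm.mul_apply, ← pow_add, add_comm]
      have h2 : Function.minimalPeriod τ ((τ ^ (i + 1)) p) ∣ k := by
        refine Function.IsPeriodicPt.minimalPeriod_dvd ?_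
        show (τ : Equiv.Perm P)^[k] _ = _
        rw [Equiv.Perm.iterate_eq_pow, h1]
      obtain ⟨c, rfl⟩ := h2
      have h3 := HA3_blk τ n hn hτ π ho ((τ ^ (i + 1)) p) a c
      rw [ha', mul_zero] at h3
      rw [← h3]
      refine Finset.sum_congr rfl fun t _ => ?_
      rw [← Equiv.Perm.mul_apply, ← pow_add, add_comm]
    have hwd : ∀ p (i j : ℕ), (τ ^ i) p = (τ ^ j) p →
        ∑ t ∈ Finset.range (i + 1), a ((τ ^ t) p) = ∑ t ∈ Finset.range (j + 1), a ((τ ^ t) p) := by
      have key : ∀ p (i j : ℕ), i ≤ j → (τ ^ i) p = (τ ^ j) p →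
          ∑ t ∈ Finset.range (i + 1), a ((τ ^ t) p) =
            ∑ t ∈ Finset.range (j + 1), a ((τ ^ t) p) := by
        intro p i j hij h
        obtain ⟨k, rfl⟩ := Nat.exists_eq_add_of_le hij
        rw [show i + k + 1 = (i + 1) + k by ring,
          Finset.sum_range_add (fun t => a ((τ ^ t) p)) (i + 1) k, hsh p i k h, add_zero]
      intro p i j h
      rcases le_total i j with hij | hij
      · exact key p i j hij h
      · exact (key p j i hij h.symm).symm
    have hex : ∀ p, ∃ i : ℕ, (τ ^ i) (s (π p)) = p := fun p => (ho _ _).mp (hsec (π p))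
    choose j hj using hex
    refine AddSubgroup.mem_map.mpr
      ⟨fun p => ∑ t ∈ Finset.range (j p + 1), a ((τ ^ t) (s (π p))), trivial, ?_⟩
    funext p
    rw [HA3_Dm]
    have hπ : π (τ.symm p) = π p := (ho _ _).mpr ⟨1, by simp⟩
    have h1 : (τ ^ (j (τ.symm p) + 1)) (s (π p)) = (τ ^ (j p)) (s (π p)) := by
      rw [hj p, pow_succ', Equiv.Perm.mul_apply]
      have := hj (τ.symm p)
      rw [hπ] at this
      rw [this, Equiv.apply_symm_apply]
    have h2 := hwd _ _ _ h1
    rw [hπ, ← h2, Finset.sum_range_succ, add_sub_cancel_left, h1, hj p]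
  · unfold h0
    -- functions on Q
    let Φ : (Q → ℤ) →+ (P → ℤ) :=
      { toFun := fun c => c ∘ π, map_zero' := rfl, map_add' := fun _ _ => rfl }
    have hΦi : Function.Injective Φ := by
      intro c c' h
      funext q
      have := congrFun h (s q)
      simpa [Φ, hsec] using this
    let Ψ : (Q → ℤ) →+ (∀ q : Q, ZMod (n / m q)) :=
      { toFun := fun c q => (c q : ZMod (n / m q)),
        map_zero' := by funext q; exact Int.cast_zero,
        map_add' := fun c c' => by funext q; exact Int.cast_add _ _ }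
    have hker : (⊤ : AddSubgroup (P → ℤ)) ⊓ (Dm (pe τ)).ker = (⊤ : AddSubgroup (Q → ℤ)).map Φ := by
      rw [top_inf_eq]
      ext a
      rw [AddMonoidHom.mem_ker, AddSubgroup.mem_map]
      constructor
      · intro h
        have h1 : ∀ p, a (τ p) = a p := by
          intro p
          have := congrFun h (τ p)
          rw [HA3_Dm, Equiv.symm_apply_apply] at this
          exact sub_eq_zero.mp this
        have h2 : ∀ (i : ℕ) p, a ((τ ^ i) p) = a p := by
          intro i
          induction i with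
          | zero => intro p; rfl
          | succ i ih => intro p; rw [pow_succ', Equiv.Perm.mul_apply, h1, ih]
        refine ⟨fun q => a (s q), trivial, ?_⟩
        funext p
        obtain ⟨i, hi⟩ := (ho (s (π p)) p).mp (hsec _)
        show a (s (π p)) = a p
        rw [← h2 i, hi]
      · rintro ⟨c, -, rfl⟩
        funext p
        rw [HA3_Dm]
        have hπ : π (τ.symm p) = π p := (ho _ _).mpr ⟨1, by simp⟩
        show c (π p) - c (π (τ.symm p)) = 0
        rw [hπ, sub_self]
    have hrange : (⊤ : AddSubgroup (P → ℤ)).map (Nm n (pe τ)) = (Ψ.ker).map Φ := by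
      ext a
      rw [AddSubgroup.mem_map, AddSubgroup.mem_map]
      constructor
      · rintro ⟨b, -, rfl⟩
        refine ⟨fun q => ((n / m q : ℕ) : ℤ) *
          ∑ p' ∈ Finset.univ.filter (fun p' => π p' = q), b p', ?_, ?_⟩
        · rw [AddMonoidHom.mem_ker]
          funext q
          show (((((n / m q : ℕ) : ℤ) *
            ∑ p' ∈ Finset.univ.filter (fun p' => π p' = q), b p' : ℤ)) : ZMod (n / m q)) = 0
          rw [Int.cast_mul, Int.cast_natCast, ZMod.natCast_self, zero_mul]
        · funext p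
          rw [hNm]
          rfl
      · rintro ⟨c, hc, rfl⟩
        have hc' : ∀ q, ∃ d : ℤ, c q = ((n / m q : ℕ) : ℤ) * d := by
          intro q
          have h := congrFun ((AddMonoidHom.mem_ker).mp hc) q
          have h' : ((c q : ℤ) : ZMod (n / m q)) = 0 := h
          exact (ZMod.intCast_zmod_eq_zero_iff_dvd _ _).mp h'
        choose d hd using hc'
        refine ⟨fun p => if p = s (π p) then d (π p) else 0, trivial, ?_⟩
        funext p
        rw [hNm]
        show _ = c (π p)
        rw [hd]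
        congr 1
        rw [Finset.sum_eq_single (s (π p))]
        · rw [hsec, if_pos rfl]
        · intro p' hp' hne
          rw [Finset.mem_filter] at hp'
          rw [hp'.2, if_neg hne]
        · intro h
          exact absurd (Finset.mem_filter.mpr ⟨Finset.mem_univ (s (π p)), hsec (π p)⟩) h
    rw [hker, hrange, AddSubgroup.relIndex_map_map_of_injective _ _ hΦi,
      AddSubgroup.relIndex_top_right, AddSubgroup.index_ker]
    have hsurj : Function.Surjective Ψ := by
      intro y
      have : ∀ q, ∃ z : ℤ, (z : ZMod (n / m q)) = y q := fun q => ZMod.intCast_surjective (y q)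
      choose z hz using this
      exact ⟨z, funext hz⟩
    rw [AddMonoidHom.range_eq_top.mpr hsurj, Nat.card_congr AddSubgroup.topEquiv.toEquiv,
      Nat.card_pi]
    refine Finset.prod_congr rfl fun q _ => ?_
    rw [Nat.card_zmod]

end H55R
end

-- from Lib.H55R.HA5
section

open NumberField IsDedekindDomain

namespace H55R

/-! Chunk HA5 (S/M): units. unit_place: NumberField.Units.dirichletUnitTheorem.exists_unit (a unit y with log V y < 0 for all
V <> V₀). prime_unit: let h be the class number; W^h = (y) (the class of W has finite order: pow_card_eq_one' in the class group,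
ClassGroup.mk0_eq_one_iff). ord W' y is the multiplicity of W' in (y) (valuationOfNeZero_eq, HeightOneSpectrum.valuation_of_algebraMap,
intValuation and the count of W' in the factorisation of (y) = W^h): h for W' = W and 0 otherwise. -/

theorem HA5_ord {K : Type} [Field K] [NumberField K] (v : Pl K) (u : Kˣ) (x : 𝓞 K) (hx : x ≠ 0)
    (hu : (u : K) = algebraMap (𝓞 K) K x) :
    ord v u = ((Associates.mk v.asIdeal).count (Associates.mk (Ideal.span {x} : Ideal (𝓞 K))).factors : ℤ) := by
  have h1 := v.valuationOfNeZero_eq (K := K) u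
  rw [hu, HeightOneSpectrum.valuation_of_algebraMap, HeightOneSpectrum.intValuation_if_neg v hx] at h1
  have h2 : v.valuationOfNeZero u = Multiplicative.ofAdd
      (-(Associates.mk v.asIdeal).count (Associates.mk (Ideal.span {x} : Ideal (𝓞 K))).factors : ℤ) := by
    rw [← WithZero.coe_inj]
    exact h1
  unfold ord
  rw [h2, toAdd_ofAdd, neg_neg]

theorem unit_place (L : Type) [Field L] [NumberField L] (V₀ : InfinitePlace L) :
    ∃ y : (𝓞 L)ˣ, ∀ V : InfinitePlace L, V ≠ V₀ → V ((y : 𝓞 L) : L) < 1 := by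
  obtain ⟨y, hy⟩ := NumberField.Units.dirichletUnitTheorem.exists_unit (K := L) V₀
  refine ⟨y, fun V hV => ?_⟩
  have h1 := hy V hV
  have h0 : 0 < V ((y : 𝓞 L) : L) := by
    rw [InfinitePlace.pos_iff]
    exact NumberField.Units.coe_ne_zero y
  by_contra h
  push_neg at h
  exact absurd (Real.log_nonneg h) (not_le.2 h1)

theorem prime_unit (L : Type) [Field L] [NumberField L] (W : Pl L) :
    ∃ y : Lˣ, 0 < ord W y ∧ ∀ W' : Pl L, W' ≠ W → ord W' y = 0 := by
  classical
  set h : ℕ := Nat.card (ClassGroup (𝓞 L)) with hh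
  have hpos : 0 < h := Nat.card_pos
  have hW : (W.asIdeal) ∈ nonZeroDivisors (Ideal (𝓞 L)) :=
    mem_nonZeroDivisors_iff_ne_zero.2 W.ne_bot
  have h1 : (ClassGroup.mk0 (⟨W.asIdeal, hW⟩ : nonZeroDivisors (Ideal (𝓞 L)))) ^ h = 1 :=
    pow_card_eq_one'
  rw [← map_pow, ClassGroup.mk0_eq_one_iff] at h1
  obtain ⟨y, hy⟩ := h1
  have hy' : W.asIdeal ^ h = Ideal.span {y} := hy
  have hWh : W.asIdeal ^ h ≠ 0 := pow_ne_zero _ W.ne_bot
  have hy0 : y ≠ 0 := by
    rintro rfl
    apply hWh
    rw [hy']
    exact Ideal.span_singleton_eq_bot.2 rfl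
  have hyL : algebraMap (𝓞 L) L y ≠ 0 := by
    rw [Ne, FaithfulSMul.algebraMap_eq_zero_iff]
    exact hy0
  have hmk : Associates.mk (Ideal.span {y} : Ideal (𝓞 L)) = (Associates.mk W.asIdeal) ^ h := by
    rw [← hy', Associates.mk_pow]
  refine ⟨Units.mk0 _ hyL, ?_, fun W' hW' => ?_⟩
  · rw [HA5_ord W _ y hy0 rfl, hmk,
      Associates.count_pow (Associates.mk_ne_zero.2 W.ne_bot) W.associates_irreducible,
      Associates.count_self W.associates_irreducible, mul_one]
    exact_mod_cast hpos
  · rw [HA5_ord W' _ y hy0 rfl, hmk,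
      Associates.count_pow (Associates.mk_ne_zero.2 W.ne_bot) W'.associates_irreducible,
      Associates.count_eq_zero_of_ne W'.associates_irreducible W.associates_irreducible, mul_zero,
      Nat.cast_zero]
    intro he
    apply hW'
    apply HeightOneSpectrum.ext
    rwa [Associates.mk_eq_mk_iff_associated, associated_iff_eq] at he

end H55R
end
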