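import Mathlib

open NumberField IsDedekindDomain WeierstrassCurve

namespace H55P

variable {F : Type} [Field F] [NumberField F] {Ω : Type} [Field Ω] [Algebra F Ω]

/-! Definitions for the Selmer part: fields between F and its algebraic closure. -/

/-- The prime v of M is ramified in L. -/
def Ram (M L : IntermediateField F Ω) (v : Ideal (𝓞 M)) : Prop :=
  ∃ W : Ideal (𝓞 L), W.IsPrime ∧
    ∀ (x : 𝓞 M) (y : 𝓞 L), x ∈ v → ((y : L) : Ω) = ((x : M) : Ω) → y ∈ W ^ 2

/-- The valuation ring V lies above the prime v of M. -/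
def Below (V : ValuationSubring Ω) (M : IntermediateField F Ω) (v : Ideal (𝓞 M)) : Prop :=
  ∀ x : 𝓞 M, x ∈ v ↔ V.valuation ((x : M) : Ω) < 1

/-- L is a Galois extension of M of degree a power of p (inside the algebraic closure of F). -/
structure PExt (p : ℕ) (M L : IntermediateField F Ω) : Prop where
  fin : FiniteDimensional F L
  le : M ≤ L
  norm : ∀ s ∈ M.fixingSubgroup, ∀ x ∈ L, s x ∈ L
  deg : ∃ k : ℕ, Module.finrank F L = Module.finrank F M * p ^ k

end H55P
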