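import Mathlib
import Pool.Agent.Lib.H1M.PP.D_H55P_SD
import Pool.Agent.Lib.H1M.PP.D_H55P_Sel
import Pool.Agent.Lib.H1M.PP.M001
import Pool.Agent.Lib.H1M.PP.M005
import Pool.Agent.Lib.H1M.PP.M011
import Pool.Agent.Lib.H1M.PP.M012
import Pool.Agent.Lib.H1M.PP.M019

/-! Merged copies (to shorten the build) of Lib.H55P.S9, Lib.H13S.IN1, Lib.H55N.B14, Lib.H55N.B2, Lib.H55N.U4, Lib.H55N.E2, Lib.H55N.E5. -/

-- from Lib.H55P.S9
section

open NumberField IsDedekindDomain WeierstrassCurve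
open scoped Pointwise

namespace H55P

variable {F : Type} [Field F] [NumberField F] {Ω : Type} [Field Ω] [DecidableEq Ω] [Algebra F Ω]
  [IsAlgClosed Ω] [Algebra.IsAlgebraic F Ω] [CharZero Ω]

/-! Chunk PS9 (M/L). Elements fixed by the decomposition group reduce into the residue field of M.
PROOF. G = Ω ≃ₐ[M] Ω (Galois group of Ω over M, profinite: the Krull topology instances), B = the integral closure of 𝓞 M (or of ℤ) in Ω with the action of G and the discrete topology, A = 𝓞 M, P = v, Q = the elements b of B with V.valuation b < 1 (all elements of B are in V).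
Algebra.IsInvariant A B G: an integer fixed by G is in M (Galois theory), so in 𝓞 M. ContinuousSMul: stabilizers are open. Ideal.Quotient.stabilizerHom_surjective_of_profinite (Mathlib/RingTheory/Invariant/Profinite.lean): the stabilizer of Q maps onto Aut((B/Q)/(A/P)). An element s of the stabilizer
of Q satisfies Dec V s: for x in Ω, x = b / c with b in B, c in A nonzero or better: V is the localization of B at Q: for x in V there are b, c in B, c not in Q, x = b / c (frac_rep in Lib/H16C/FR1.lean for the field F(x); if V.valuation q = 1 for all primes q, V is everything and the statement is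
trivial: then v = ⊥, excluded). A/P is a finite field, B/Q is algebraic over it and normal (Ideal.Quotient.normal or B/Q is algebraically closed), so it is Galois (perfect field) and the elements fixed by all automorphisms are in A/P. x = b / c with c not in Q; the class of b/c in B/Q (a field) is fixed by
the stabilizer since s x = x: s b / s c = b / c. So it is the class of an element a of A: b - a c in Q, V.valuation (x - a) < 1. An alternative is the finite level: N = a finite Galois extension of M containing x, and lifting of elements of the decomposition group of V ∩ N to Dec V. -/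

/-- fixed points of the Frobenius map -/
theorem ps9_fin {k L : Type} [Field k] [Fintype k] [Field L] (i : k →+* L) (y : L)
    (hy : y ^ Fintype.card k = y) : ∃ a : k, i a = y := by
  classical
  set f : Polynomial L := Polynomial.X ^ Fintype.card k - Polynomial.X with hf
  have hf0 : f ≠ 0 := FiniteField.X_pow_card_sub_X_ne_zero L Fintype.one_lt_card
  have hroot : ∀ z : L, z ∈ f.roots.toFinset ↔ z ^ Fintype.card k = z := by
    intro z
    rw [Multiset.mem_toFinset, Polynomial.mem_roots hf0, Polynomial.IsRoot.def, hf, Polynomial.eval_sub,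
      Polynomial.eval_pow, Polynomial.eval_X, sub_eq_zero]
  have hsub : (Finset.univ.image i) ⊆ f.roots.toFinset := by
    intro z hz
    obtain ⟨a, -, rfl⟩ := Finset.mem_image.1 hz
    rw [hroot, ← map_pow, FiniteField.pow_card]
  have hcard : f.roots.toFinset.card ≤ (Finset.univ.image i).card := by
    rw [Finset.card_image_of_injective _ i.injective, Finset.card_univ]
    calc f.roots.toFinset.card ≤ Multiset.card f.roots := Multiset.toFinset_card_le _
      _ ≤ f.natDegree := Polynomial.card_roots' f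
      _ = Fintype.card k := FiniteField.X_pow_card_sub_X_natDegree_eq L Fintype.one_lt_card
  have heq := Finset.eq_of_subset_of_card_le hsub hcard
  have hy' : y ∈ Finset.univ.image i := by
    rw [heq, hroot]
    exact hy
  obtain ⟨a, -, ha⟩ := Finset.mem_image.1 hy'
  exact ⟨a, ha⟩

theorem ps9_mem (V : ValuationSubring Ω) (z : 𝓞 Ω) : (z : Ω) ∈ V :=
  (V.valuation_le_one_iff _).1 (H16C.FR_le_one V z.isIntegral_coe)

/-- the map to V -/
noncomputable def ps9c (V : ValuationSubring Ω) : 𝓞 Ω →+* V :=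
  (algebraMap (𝓞 Ω) Ω).codRestrict V (fun x => ps9_mem V x)

/-- the prime of the algebraic integers below V -/
noncomputable def ps9Q (V : ValuationSubring Ω) : Ideal (𝓞 Ω) :=
  (IsLocalRing.maximalIdeal V).comap (ps9c V)

theorem ps9_lt (V : ValuationSubring Ω) (z : 𝓞 Ω) : z ∈ ps9Q V ↔ V.valuation (z : Ω) < 1 := by
  unfold ps9Q
  rw [Ideal.mem_comap, ValuationSubring.valuation_lt_one_iff]
  rfl

theorem ps9_prime (V : ValuationSubring Ω) : (ps9Q V).IsPrime := by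
  unfold ps9Q
  infer_instance

theorem ps9_one (V : ValuationSubring Ω) (z : 𝓞 Ω) : z ∉ ps9Q V ↔ V.valuation (z : Ω) = 1 := by
  rw [ps9_lt, not_lt]
  have h := (V.valuation_le_one_iff _).2 (ps9_mem V z)
  exact ⟨fun h1 => le_antisymm h h1, fun h1 => h1.ge⟩

/-- fractions -/
theorem ps9_frac (F : Type) [Field F] [NumberField F] [Algebra F Ω] [Algebra.IsAlgebraic F Ω] (V : ValuationSubring Ω) (q : ℕ) (hq : q.Prime) (hV : V.valuation (q : Ω) < 1) (x : Ω)
    (hx : x ∈ V) : ∃ a c : 𝓞 Ω, V.valuation (c : Ω) = 1 ∧ x = (a : Ω) / (c : Ω) := by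
  have hint : IsIntegral F x := Algebra.IsIntegral.isIntegral x
  have hfd : FiniteDimensional F (IntermediateField.adjoin F {x}) :=
    IntermediateField.adjoin.finiteDimensional hint
  obtain ⟨a, c, -, -, ha, hc, hc1, hxac⟩ := H16C.frac_rep (IntermediateField.adjoin F {x}) V q hq hV
    (IntermediateField.mem_adjoin_simple_self F x) ((V.valuation_le_one_iff _).2 hx)
  exact ⟨⟨a, ha⟩, ⟨c, hc⟩, hc1, hxac⟩

theorem ps9_inv (M : IntermediateField F Ω) [FiniteDimensional F M] :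
    Algebra.IsInvariant (𝓞 M) (𝓞 Ω) Gal(Ω/M) := by
  have hal : Algebra.IsAlgebraic M Ω := Algebra.IsAlgebraic.tower_top (K := F) M
  have hcl : IsAlgClosure M Ω := ⟨inferInstance, hal⟩
  have hc0 : CharZero M := charZero_of_injective_algebraMap (algebraMap F M).injective
  have hG : IsGalois M Ω := IsAlgClosure.isGalois M Ω
  refine ⟨fun x hx => ?_⟩
  have h1 : ∀ g : Gal(Ω/M), g (x : Ω) = x := fun g =>
    congrArg (fun y : 𝓞 Ω => (y : Ω)) (hx g)
  have h2 : (x : Ω) ∈ (⊥ : IntermediateField M Ω) := by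
    rw [← InfiniteGalois.fixedField_bot]
    rw [IntermediateField.mem_fixedField_iff]
    intro g _
    exact h1 g
  obtain ⟨y, hy⟩ := IntermediateField.mem_bot.1 h2
  have h3 : IsIntegral ℤ y := by
    have h4 : IsIntegral ℤ (algebraMap M Ω y) := by
      rw [hy]; exact x.isIntegral_coe
    exact (isIntegral_algebraMap_iff (algebraMap M Ω).injective).1 h4
  refine ⟨⟨y, h3⟩, ?_⟩
  apply RingOfIntegers.coe_injective
  exact hy

theorem ps9_dec (q : ℕ) (hq : q.Prime) (V : ValuationSubring Ω) (hV : V.valuation (q : Ω) < 1)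
    (s : Ω ≃ₐ[F] Ω) (hs : ∀ z : 𝓞 Ω, ∀ w : 𝓞 Ω, (w : Ω) = s (z : Ω) → (w ∈ ps9Q V ↔ z ∈ ps9Q V)) (x : Ω)
    (hx : x ∈ V) : s x ∈ V := by
  obtain ⟨a, c, hc, rfl⟩ := ps9_frac F V q hq hV x hx
  have hint : ∀ z : 𝓞 Ω, IsIntegral ℤ (s (z : Ω)) := fun z => z.isIntegral_coe.map (s.toAlgHom.restrictScalars ℤ)
  have h1 : V.valuation (s (c : Ω)) = 1 := by
    have h2 := (hs c ⟨s (c : Ω), hint c⟩ rfl)
    have h3 := (ps9_one V c).2 hc
    exact (ps9_one V ⟨s (c : Ω), hint c⟩).1 (fun h4 => h3 (h2.1 h4))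
  rw [← V.valuation_le_one_iff, map_div₀ s, map_div₀, h1, div_one]
  exact H16C.FR_le_one V (hint a)

theorem res_descent (M : IntermediateField F Ω) [FiniteDimensional F M] (V : ValuationSubring Ω)
    (v : HeightOneSpectrum (𝓞 M)) (hv : Below V M v.asIdeal) (x : Ω) (hx : x ∈ V)
    (hf : ∀ s ∈ M.fixingSubgroup, Dec V s → s x = x) :
    ∃ a : 𝓞 M, V.valuation (x - ((a : M) : Ω)) < 1 := by
  classical
  have hMn : NumberField M := NumberField.of_module_finite F M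
  have hal : Algebra.IsAlgebraic M Ω := Algebra.IsAlgebraic.tower_top (K := F) M
  have hcl : IsAlgClosure M Ω := ⟨inferInstance, hal⟩
  have hG : IsGalois M Ω := IsAlgClosure.isGalois M Ω
  have hvm := v.isMaximal
  let _ : Field (𝓞 M ⧸ v.asIdeal) := Ideal.Quotient.field v.asIdeal
  have hfin : Finite (𝓞 M ⧸ v.asIdeal) := Ideal.finiteQuotientOfFreeOfNeBot _ v.ne_bot
  let _ : Fintype (𝓞 M ⧸ v.asIdeal) := Fintype.ofFinite _
  -- the residue characteristic
  obtain ⟨q, hqc⟩ := CharP.exists (𝓞 M ⧸ v.asIdeal)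
  have hq : q.Prime := by
    rcases CharP.char_is_prime_or_zero (𝓞 M ⧸ v.asIdeal) q with h | h
    · exact h
    · exact absurd h (CharP.char_ne_zero_of_finite (𝓞 M ⧸ v.asIdeal) q)
  have hqv : (q : 𝓞 M) ∈ v.asIdeal := by
    rw [← Ideal.Quotient.eq_zero_iff_mem, map_natCast]
    exact CharP.cast_eq_zero _ q
  have hV : V.valuation (q : Ω) < 1 := by
    have h1 := (hv (q : 𝓞 M)).1 hqv
    simpa using h1
  -- the prime of the integers of Ω
  set Q : Ideal (𝓞 Ω) := ps9Q V with hQ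
  have hQp : Q.IsPrime := ps9_prime V
  have hlo : Q.LiesOver v.asIdeal := by
    constructor
    ext z
    rw [hv z, Ideal.mem_comap, hQ, ps9_lt]
    rfl
  have hinv := ps9_inv (Ω := Ω) M
  have hsc : SMulCommClass Gal(Ω/M) (𝓞 M) (𝓞 Ω) := by
    constructor
    intro g a z
    rw [Algebra.smul_def, Algebra.smul_def, smul_mul']
    congr 1
    apply RingOfIntegers.ext
    exact g.commutes (a : M)
  let _ : TopologicalSpace (𝓞 Ω) := ⊥
  have : DiscreteTopology (𝓞 Ω) := ⟨rfl⟩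
  have hcont : ContinuousSMul Gal(Ω/M) (𝓞 Ω) := by
    rw [continuousSMul_iff_stabilizer_isOpen]
    intro z
    have h1 := stabilizer_isOpen_of_isIntegral (K := M) (z : Ω)
    convert! h1 using 1
    ext g
    simp only [SetLike.mem_coe, MulAction.mem_stabilizer_iff]
    constructor
    · intro h
      exact congrArg (fun y : 𝓞 Ω => (y : Ω)) h
    · intro h
      exact RingOfIntegers.coe_injective h
  have hint : Algebra.IsIntegral (𝓞 M) (𝓞 Ω) := Algebra.IsInvariant.isIntegral_of_profinite (G := Gal(Ω/M))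
  have hQm : Q.IsMaximal := Ideal.isMaximal_of_isIntegral_of_isMaximal_comap Q (by
    have h1 : v.asIdeal = Q.comap (algebraMap (𝓞 M) (𝓞 Ω)) := hlo.over
    rw [← h1]
    exact hvm)
  let _ : Field (𝓞 Ω ⧸ Q) := Ideal.Quotient.field Q
  have halg : Algebra.IsAlgebraic (𝓞 M ⧸ v.asIdeal) (𝓞 Ω ⧸ Q) := by
    have : Algebra.IsIntegral (𝓞 M ⧸ v.asIdeal) (𝓞 Ω ⧸ Q) := inferInstance
    infer_instance
  obtain ⟨σ, hσ⟩ := Ideal.Quotient.stabilizerHom_surjective_of_profinite (G := Gal(Ω/M)) v.asIdeal Q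
    (FiniteField.frobeniusAlgEquivOfAlgebraic (𝓞 M ⧸ v.asIdeal) (𝓞 Ω ⧸ Q))
  have hσ1 : ∀ z : 𝓞 Ω, (σ : Gal(Ω/M)) • z - z ^ Fintype.card (𝓞 M ⧸ v.asIdeal) ∈ Q := by
    intro z
    rw [← Ideal.Quotient.eq]
    exact DFunLike.congr_fun hσ (Ideal.Quotient.mk Q z)
  -- the automorphism over F
  set s : Ω ≃ₐ[F] Ω := (σ : Gal(Ω/M)).restrictScalars F with hs
  have hsz : ∀ z : 𝓞 Ω, ((((σ : Gal(Ω/M)) • z : 𝓞 Ω)) : Ω) = s (z : Ω) := fun z => rfl
  have hsM : s ∈ M.fixingSubgroup := fun y => (σ : Gal(Ω/M)).commutes y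
  have hmem : ∀ (τ : MulAction.stabilizer Gal(Ω/M) Q) (z : 𝓞 Ω), (τ : Gal(Ω/M)) • z ∈ Q ↔ z ∈ Q := by
    rintro ⟨g, hg⟩ z
    have h1 : g • Q = Q := hg
    have h2 : g • z ∈ g • Q ↔ z ∈ Q := Ideal.smul_mem_pointwise_smul_iff
    rwa [h1] at h2
  have hdec1 : ∀ (τ : MulAction.stabilizer Gal(Ω/M) Q) (y : Ω), y ∈ V →
      ((τ : Gal(Ω/M)).restrictScalars F) y ∈ V := by
    intro τ y hy
    refine ps9_dec q hq V hV _ ?_ y hy
    intro z w hw
    have h1 : w = (τ : Gal(Ω/M)) • z := RingOfIntegers.coe_injective hw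
    rw [h1]
    exact hmem τ z
  have hdec : Dec V s := by
    intro y
    refine ⟨fun h => ?_, hdec1 σ y⟩
    have h1 := hdec1 σ⁻¹ (s y) h
    have h2 : ((σ⁻¹ : MulAction.stabilizer Gal(Ω/M) Q) : Gal(Ω/M)).restrictScalars F (s y) = y :=
      (σ : Gal(Ω/M)).symm_apply_apply y
    rwa [h2] at h1
  have hfix := hf s hsM hdec
  obtain ⟨a, c, hc, hxac⟩ := ps9_frac F V q hq hV x hx
  set N := Fintype.card (𝓞 M ⧸ v.asIdeal) with hN
  have key : ∀ z : 𝓞 Ω, V.valuation (s (z : Ω) - (z : Ω) ^ N) < 1 := by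
    intro z
    have h1 := (ps9_lt V _).1 (hσ1 z)
    rw [← hsz z]
    simpa using h1
  have hxN : V.valuation (x - x ^ N) < 1 := by
    have h1 : V.valuation (s (a : Ω) / s (c : Ω) - (a : Ω) ^ N / (c : Ω) ^ N) < 1 := by
      refine H16C.FR_div_congr V (key a) (key c) ?_ ?_
      · rw [map_pow]
        exact pow_le_one' (H16C.FR_le_one V a.isIntegral_coe) _
      · rw [map_pow, hc, one_pow]
    rw [← map_div₀ s, ← div_pow, ← hxac, hfix] at h1
    exact h1
  -- the residue field of V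
  let i : (𝓞 M ⧸ v.asIdeal) →+* IsLocalRing.ResidueField V :=
    Ideal.Quotient.lift v.asIdeal ((IsLocalRing.residue V).comp ((ps9c V).comp (algebraMap (𝓞 M) (𝓞 Ω)))) (by
      intro z hz
      rw [RingHom.comp_apply, IsLocalRing.residue_eq_zero_iff, ValuationSubring.valuation_lt_one_iff]
      exact (hv z).1 hz)
  obtain ⟨y, hy⟩ := ps9_fin i (IsLocalRing.residue V ⟨x, hx⟩) (by
    rw [← map_pow, ← sub_eq_zero, ← map_sub, IsLocalRing.residue_eq_zero_iff,
      ValuationSubring.valuation_lt_one_iff]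
    rw [← Valuation.map_neg]
    have h1 : -(((⟨x, hx⟩ : V) ^ Fintype.card (𝓞 M ⧸ v.asIdeal) - ⟨x, hx⟩ : V) : Ω) = x - x ^ N := by
      push_cast
      ring
    rw [h1]
    exact hxN)
  obtain ⟨b, rfl⟩ := Ideal.Quotient.mk_surjective y
  refine ⟨b, ?_⟩
  have h1 : IsLocalRing.residue V (ps9c V (algebraMap (𝓞 M) (𝓞 Ω) b)) = IsLocalRing.residue V ⟨x, hx⟩ := hy
  rw [eq_comm, ← sub_eq_zero, ← map_sub, IsLocalRing.residue_eq_zero_iff,
    ValuationSubring.valuation_lt_one_iff] at h1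
  exact h1

end H55P
end

-- from Lib.H13S.IN1
section

open NumberField IsDedekindDomain
open scoped Pointwise

namespace H13S

open H55P

theorem in1_inv_gt {Γ : Type*} [LinearOrderedCommGroupWithZero Γ] {a : Γ} (h0 : 0 < a) (h : a < 1) : 1 < a⁻¹ :=
  (one_lt_inv₀ h0).2 h

/-- The residue characteristic of a valuation ring of algebraic numbers. -/
theorem in1_char {F₀ : Type} [Field F₀] [NumberField F₀] {Ω : Type} [Field Ω] [Algebra F₀ Ω]
    [IsAlgClosed Ω] [Algebra.IsAlgebraic F₀ Ω] [CharZero Ω] (V : ValuationSubring Ω) (hV : V ≠ ⊤) :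
    ∃ q : ℕ, q.Prime ∧ V.valuation (q : Ω) < 1 := by
  classical
  have h1 : ∃ x : Ω, x ∉ V := by
    by_contra hcon
    push Not at hcon
    exact hV (top_le_iff.1 (fun x _ => hcon x))
  obtain ⟨x, hx⟩ := h1
  have hx1 : 1 < V.valuation x := by
    rw [← V.valuation_le_one_iff] at hx
    exact not_le.1 hx
  have hx0 : x ≠ 0 := by
    rintro rfl
    exact hx V.zero_mem
  have hy : V.valuation x⁻¹ < 1 := by
    rw [map_inv₀]
    exact inv_lt_one_of_one_lt₀ hx1
  have halQ : Algebra.IsAlgebraic ℚ F₀ := inferInstance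
  have hint0 : IsIntegral F₀ x⁻¹ := Algebra.IsIntegral.isIntegral x⁻¹
  have hintQ : IsIntegral ℚ x⁻¹ := by
    have : Algebra.IsIntegral ℚ F₀ := inferInstance
    exact isIntegral_trans (R := ℚ) (A := F₀) _ hint0
  have halg : IsAlgebraic ℤ x⁻¹ := (IsFractionRing.isAlgebraic_iff ℤ ℚ Ω).2 hintQ.isAlgebraic
  obtain ⟨n, hn, hnz⟩ := halg.exists_integral_multiple
  have hz0 : n • x⁻¹ ≠ 0 := by
    rw [zsmul_eq_mul]
    exact mul_ne_zero (Int.cast_ne_zero.2 hn) (inv_ne_zero hx0)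
  have hzV : V.valuation (n • x⁻¹) < 1 := by
    rw [zsmul_eq_mul, map_mul]
    refine lt_of_le_of_lt (mul_le_of_le_one_left' ?_) hy
    exact H16C.FR_le_one V (isIntegral_intCast n)
  have hzQ : (⟨n • x⁻¹, hnz⟩ : 𝓞 Ω) ∈ ps9Q V := (ps9_lt V _).2 hzV
  have hne : (ps9Q V).comap (algebraMap ℤ (𝓞 Ω)) ≠ ⊥ := by
    refine Ideal.comap_ne_bot_of_integral_mem (x := (⟨n • x⁻¹, hnz⟩ : 𝓞 Ω)) ?_ hzQ ?_
    · intro h
      apply hz0
      exact congrArg (fun y : 𝓞 Ω => (y : Ω)) h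
    · exact Algebra.IsIntegral.isIntegral _
  have hp : ((ps9Q V).comap (algebraMap ℤ (𝓞 Ω))).IsPrime := by
    have := ps9_prime V
    infer_instance
  obtain ⟨P, hP⟩ : ∃ P, P = (ps9Q V).comap (algebraMap ℤ (𝓞 Ω)) := ⟨_, rfl⟩
  rw [← hP] at hne hp
  have h2 := Submodule.IsPrincipal.prime_generator_of_isPrime P hne
  obtain ⟨g, hg⟩ : ∃ g, g = Submodule.IsPrincipal.generator P := ⟨_, rfl⟩
  rw [← hg] at h2
  have hgP : g ∈ P := by
    rw [hg]
    exact Submodule.IsPrincipal.generator_mem P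
  have hqP : ((g.natAbs : ℕ) : ℤ) ∈ P := by
    rcases Int.natAbs_eq g with h | h
    · rw [← h]; exact hgP
    · have h3 : ((g.natAbs : ℕ) : ℤ) = -g := by omega
      rw [h3]
      exact P.neg_mem hgP
  refine ⟨g.natAbs, Int.prime_iff_natAbs_prime.1 h2, ?_⟩
  rw [hP, Ideal.mem_comap, ps9_lt] at hqP
  simpa using hqP

/-- Chunk IN1 (M/L). Inertia groups of infinite extensions surject onto those of finite extensions. s is an
automorphism of Ω mapping the finite subfield N to itself and acting on N as an element of the inertia group of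
V; then some s' in the inertia group of V has the same restriction to N.

Proof. B = all algebraic integers of Ω (integralClosure ℤ Ω), A = 𝓞 N (or the integers of N), G = Ω ≃ₐ[N] Ω
(= N.fixingSubgroup) acts on B with invariants A, profinite (krullTopology: compact, totally disconnected), continuous
for the discrete topology of B. Wb = {x in B : V.valuation x < 1} is a prime ideal of B. B is contained in V (V is
integrally closed), and every x in V is b/d with b, d in B, V.valuation d = 1 (x lies in a number field E; V ∩ E contains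
𝓞 E, so it is the localisation of 𝓞 E at {V.valuation < 1}: HeightOneSpectrum or bottom; or: choose an ideal-theoretic
denominator). For x in N: s x in V iff x in V (if x in V then s x = x + (s x - x) in V; if s x in V, x not in V, then
1/x in V with value < 1, so s(1/x) has value < 1, contradiction). Hence s⁻¹-translate (or translate) Wb' of Wb under s has the
same intersection with N as Wb: Algebra.IsInvariant.exists_smul_of_under_eq_of_profinite (Mathlib, RingTheory/Invariant/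
Profinite) gives u in G with u s Wb = Wb. u s acts on B/Wb (an algebraic extension of the field A/(Wb ∩ A) or of A if Wb ∩ A = 0: it is a
prime ideal in any case) over A/(Wb ∩ A), because s acts trivially on A modulo Wb:
Ideal.Quotient.stabilizerHom_surjective_of_profinite gives u2 in G with u2 Wb = Wb and the same action on B/Wb. s' = u2⁻¹ u s: it acts trivially on
B/Wb, and for x = b/d in V: s' x - x = (s' b d - b s' d)/(d s' d) has value < 1. On N: s' = s. If V.valuation < 1 never happens on B (V contains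
all 1/b, V = ⊤), s' = s works directly (V.valuation (s x - x) < 1 forces s x = x on N, take s' = 1). -/
theorem inertia_lift {F₀ : Type} [Field F₀] [NumberField F₀] {Ω : Type} [Field Ω] [Algebra F₀ Ω]
    [IsAlgClosure F₀ Ω] (N : IntermediateField F₀ Ω) [FiniteDimensional F₀ N] (V : ValuationSubring Ω)
    (s : Ω ≃ₐ[F₀] Ω) (hN : ∀ x ∈ N, s x ∈ N) (hI : ∀ x ∈ N, x ∈ V → V.valuation (s x - x) < 1) :
    ∃ s' : Ω ≃ₐ[F₀] Ω, Inert V s' ∧ ∀ x ∈ N, s' x = s x := by
  classical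
  have hcl0 : IsAlgClosed Ω := IsAlgClosure.isAlgClosed F₀
  have hal0 : Algebra.IsAlgebraic F₀ Ω := IsAlgClosure.isAlgebraic
  have hc0 : CharZero Ω := charZero_of_injective_algebraMap (algebraMap F₀ Ω).injective
  by_cases hV : V = ⊤
  · refine ⟨1, ?_, ?_⟩
    · intro x _
      simp
    · intro x hx
      have h1 := hI x hx (by rw [hV]; trivial)
      by_contra hne
      have hne' : s x - x ≠ 0 := sub_ne_zero.2 (fun h => hne h.symm)
      have h2 : V.valuation (s x - x)⁻¹ ≤ 1 := (V.valuation_le_one_iff _).2 (by rw [hV]; trivial)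
      rw [map_inv₀] at h2
      have h3 : V.valuation (s x - x) ≠ 0 := (Valuation.ne_zero_iff _).2 hne'
      have h4 := in1_inv_gt (zero_lt_iff.2 h3) h1
      exact absurd h2 (not_le.2 h4)
  obtain ⟨q, hq, hqV⟩ := in1_char (F₀ := F₀) V hV
  have hMn : NumberField N := NumberField.of_module_finite F₀ N
  have hal : Algebra.IsAlgebraic N Ω := Algebra.IsAlgebraic.tower_top (K := F₀) N
  have hcl : IsAlgClosure N Ω := ⟨inferInstance, hal⟩
  have hG : IsGalois N Ω := IsAlgClosure.isGalois N Ω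
  -- s on N preserves the values below one
  have hmemV : ∀ x : Ω, V.valuation x < 1 → x ∈ V := fun x hx => (V.valuation_le_one_iff _).1 hx.le
  have hlt1 : ∀ x ∈ N, V.valuation x < 1 → V.valuation (s x) < 1 := by
    intro x hx h
    have h1 := hI x hx (hmemV x h)
    have h2 : s x = (s x - x) + x := by ring
    rw [h2]
    exact V.valuation.map_add_lt h1 h
  have hlt2 : ∀ x ∈ N, V.valuation (s x) < 1 → V.valuation x < 1 := by
    intro x hx h
    rcases lt_trichotomy (V.valuation x) 1 with h1 | h1 | h1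
    · exact h1
    · exfalso
      have h2 := hI x hx ((V.valuation_le_one_iff _).1 h1.le)
      have h3 : V.valuation x < 1 := by
        have h4 : x = s x - (s x - x) := by ring
        rw [h4]
        exact lt_of_le_of_lt (V.valuation.map_sub _ _) (max_lt h h2)
      rw [h1] at h3
      exact lt_irrefl _ h3
    · exfalso
      have h2 : V.valuation x⁻¹ < 1 := by
        rw [map_inv₀]
        exact inv_lt_one_of_one_lt₀ h1
      have h3 := hlt1 x⁻¹ (N.inv_mem hx) h2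
      rw [map_inv₀ s, map_inv₀] at h3
      have hx0 : x ≠ 0 := by
        rintro rfl
        rw [map_zero] at h1
        exact absurd h1 (not_lt.2 zero_le_one)
      have h4 : V.valuation (s x) ≠ 0 := (Valuation.ne_zero_iff _).2 (by
        intro h5
        exact hx0 (s.injective (by rw [h5, map_zero])))
      have h5 := in1_inv_gt (zero_lt_iff.2 h4) h
      exact lt_irrefl _ (h3.trans h5)
  -- s is surjective on N
  have hsurj : ∀ y ∈ N, ∃ x ∈ N, s x = y := by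
    let f : N →ₗ[F₀] N := LinearMap.restrict s.toLinearMap (p := N.toSubmodule) (q := N.toSubmodule) hN
    have hf : Function.Injective f := by
      intro a b hab
      have h1 := congrArg (fun y : N => (y : Ω)) hab
      exact Subtype.ext (s.injective h1)
    have hf' : Function.Surjective f := LinearMap.injective_iff_surjective.1 hf
    intro y hy
    obtain ⟨x, hx⟩ := hf' ⟨y, hy⟩
    exact ⟨x, x.2, congrArg (fun y : N => (y : Ω)) hx⟩
  obtain ⟨Q, hQ⟩ : ∃ Q : Ideal (𝓞 Ω), Q = ps9Q V := ⟨_, rfl⟩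
  have hQlt : ∀ z : 𝓞 Ω, z ∈ Q ↔ V.valuation (z : Ω) < 1 := by
    intro z
    rw [hQ]
    exact ps9_lt V z
  have hQp : Q.IsPrime := by
    rw [hQ]
    exact ps9_prime V
  have hinv := ps9_inv (Ω := Ω) N
  have hsc : SMulCommClass Gal(Ω/N) (𝓞 N) (𝓞 Ω) := by
    constructor
    intro g a z
    rw [Algebra.smul_def, Algebra.smul_def, smul_mul']
    congr 1
    apply RingOfIntegers.ext
    exact g.commutes (a : N)
  let _ : TopologicalSpace (𝓞 Ω) := ⊥
  have : DiscreteTopology (𝓞 Ω) := ⟨rfl⟩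
  have hcont : ContinuousSMul Gal(Ω/N) (𝓞 Ω) := by
    rw [continuousSMul_iff_stabilizer_isOpen]
    intro z
    have h1 := stabilizer_isOpen_of_isIntegral (K := N) (z : Ω)
    convert! h1 using 1
    ext g
    simp only [SetLike.mem_coe, MulAction.mem_stabilizer_iff]
    constructor
    · intro h
      exact congrArg (fun y : 𝓞 Ω => (y : Ω)) h
    · intro h
      exact RingOfIntegers.coe_injective h
  -- the translate of the prime under s
  let si : 𝓞 Ω →+* 𝓞 Ω := RingOfIntegers.mapRingHom s.symm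
  have hsi : ∀ z : 𝓞 Ω, ((si z : 𝓞 Ω) : Ω) = s.symm (z : Ω) := fun z => rfl
  let Q' : Ideal (𝓞 Ω) := Q.comap si
  have hQ'p : Q'.IsPrime := Ideal.comap_isPrime si Q
  have hQ' : ∀ z : 𝓞 Ω, z ∈ Q' ↔ V.valuation (s.symm (z : Ω)) < 1 := by
    intro z
    rw [Ideal.mem_comap, hQlt, hsi]
  have hunder : Q'.under (𝓞 N) = Q.under (𝓞 N) := by
    ext a
    show (algebraMap (𝓞 N) (𝓞 Ω) a : 𝓞 Ω) ∈ Q' ↔ (algebraMap (𝓞 N) (𝓞 Ω) a : 𝓞 Ω) ∈ Q
    rw [hQ', hQlt]
    have ha : ((algebraMap (𝓞 N) (𝓞 Ω) a : 𝓞 Ω) : Ω) ∈ N := (a : N).2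
    obtain ⟨x, hx, hxa⟩ := hsurj _ ha
    rw [← hxa, s.symm_apply_apply]
    exact ⟨fun h => hlt1 x hx h, fun h => hlt2 x hx h⟩
  obtain ⟨u, hu⟩ := Algebra.IsInvariant.exists_smul_of_under_eq_of_profinite (A := 𝓞 N) (B := 𝓞 Ω)
    (G := Gal(Ω/N)) Q' Q hunder
  have humem : ∀ z : 𝓞 Ω, u • z ∈ Q ↔ z ∈ Q' := by
    intro z
    rw [hu]
    exact Ideal.smul_mem_pointwise_smul_iff
  -- the automorphism t = u s
  obtain ⟨t, ht⟩ : ∃ t : Ω ≃ₐ[F₀] Ω, ∀ x, t x = u (s x) :=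
    ⟨s.trans (u.restrictScalars F₀), fun x => rfl⟩
  have htN : ∀ x ∈ N, t x = s x := by
    intro x hx
    rw [ht]
    exact u.commutes ⟨s x, hN x hx⟩
  let tB : 𝓞 Ω ≃+* 𝓞 Ω := RingOfIntegers.mapRingEquiv t
  have htB : ∀ z : 𝓞 Ω, ((tB z : 𝓞 Ω) : Ω) = t (z : Ω) := fun z => rfl
  have htQ : ∀ z : 𝓞 Ω, tB z ∈ Q ↔ z ∈ Q := by
    intro z
    have h1 : tB z = u • (RingOfIntegers.mapRingHom s z : 𝓞 Ω) := by
      apply RingOfIntegers.coe_injective
      show t (z : Ω) = u (s (z : Ω))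
      exact ht _
    rw [h1, humem, hQ', hQlt]
    show V.valuation (s.symm (s (z : Ω))) < 1 ↔ _
    rw [s.symm_apply_apply]
  have hmap : Q = Q.map (tB : 𝓞 Ω →+* 𝓞 Ω) := by
    ext z
    constructor
    · intro hz
      have h1 : tB (tB.symm z) = z := tB.apply_symm_apply z
      rw [← h1]
      refine Ideal.mem_map_of_mem _ ?_
      rw [← htQ, h1]
      exact hz
    · intro hz
      have h1 : Q.map (tB : 𝓞 Ω →+* 𝓞 Ω) ≤ Q := by
        rw [Ideal.map_le_iff_le_comap]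
        intro w hw
        exact (htQ w).2 hw
      exact h1 hz
  let P : Ideal (𝓞 N) := Q.under (𝓞 N)
  have hlo : Q.LiesOver P := ⟨rfl⟩
  let e0 : (𝓞 Ω ⧸ Q) ≃+* (𝓞 Ω ⧸ Q) := Ideal.quotientEquiv Q Q tB hmap
  have he0 : ∀ z : 𝓞 Ω, e0 (Ideal.Quotient.mk Q z) = Ideal.Quotient.mk Q (tB z) := fun z => rfl
  let e : (𝓞 Ω ⧸ Q) ≃ₐ[𝓞 N ⧸ P] (𝓞 Ω ⧸ Q) := AlgEquiv.ofRingEquiv (f := e0) (by
    intro r
    obtain ⟨a, rfl⟩ := Ideal.Quotient.mk_surjective r
    rw [Ideal.Quotient.algebraMap_mk_of_liesOver, he0, Ideal.Quotient.eq, hQlt]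
    have ha : ((algebraMap (𝓞 N) (𝓞 Ω) a : 𝓞 Ω) : Ω) ∈ N := (a : N).2
    have h1 := hI _ ha (ps9_mem V _)
    rw [← htN _ ha] at h1
    exact h1)
  obtain ⟨τ, hτ⟩ := Ideal.Quotient.stabilizerHom_surjective_of_profinite (G := Gal(Ω/N)) P Q e
  have hτ1 : ∀ z : 𝓞 Ω, (τ : Gal(Ω/N)) • z - tB z ∈ Q := by
    intro z
    rw [← Ideal.Quotient.eq]
    exact DFunLike.congr_fun hτ (Ideal.Quotient.mk Q z)
  have hτQ : ∀ z : 𝓞 Ω, (τ : Gal(Ω/N)) • z ∈ Q ↔ z ∈ Q := by
    intro z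
    have h1 : (τ : Gal(Ω/N)) • Q = Q := τ.2
    have h2 : (τ : Gal(Ω/N)) • z ∈ (τ : Gal(Ω/N)) • Q ↔ z ∈ Q := Ideal.smul_mem_pointwise_smul_iff
    rwa [h1] at h2
  obtain ⟨s', hs'⟩ : ∃ s' : Ω ≃ₐ[F₀] Ω, ∀ x, s' x = (τ : Gal(Ω/N)).symm (t x) :=
    ⟨t.trans ((τ : Gal(Ω/N)).symm.restrictScalars F₀), fun x => rfl⟩
  have hs'B : ∀ z : 𝓞 Ω, V.valuation (s' (z : Ω) - (z : Ω)) < 1 := by
    intro z
    have h1 : (τ : Gal(Ω/N)) • ((RingOfIntegers.mapRingHom s' z : 𝓞 Ω) - z) ∈ Q := by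
      have h2 : (τ : Gal(Ω/N)) • ((RingOfIntegers.mapRingHom s' z : 𝓞 Ω) - z) =
          -((τ : Gal(Ω/N)) • z - tB z) := by
        rw [smul_sub]
        have h3 : (τ : Gal(Ω/N)) • (RingOfIntegers.mapRingHom s' z : 𝓞 Ω) = tB z := by
          apply RingOfIntegers.coe_injective
          show (τ : Gal(Ω/N)) (s' (z : Ω)) = t (z : Ω)
          rw [hs']
          exact (τ : Gal(Ω/N)).apply_symm_apply _
        rw [h3]
        ring
      rw [h2]
      exact Q.neg_mem (hτ1 z)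
    rw [hτQ, hQlt] at h1
    exact h1
  refine ⟨s', ?_, ?_⟩
  · intro x hx
    obtain ⟨a, c, hc, rfl⟩ := ps9_frac F₀ V q hq hqV x hx
    rw [map_div₀ s']
    exact H16C.FR_div_congr V (hs'B a) (hs'B c) (H16C.FR_le_one V a.isIntegral_coe) hc
  · intro x hx
    rw [hs', htN x hx]
    exact (τ : Gal(Ω/N)).symm.commutes ⟨s x, hN x hx⟩

end H13S
end

-- from Lib.H55N.B14
section

open NumberField IsDedekindDomain MeasureTheory

namespace H55N

open H55B H55C

variable {K : Type} [Field K] [NumberField K] [Algebra F K] {m : ℕ}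
  {P ι : Type} [Fintype ι] [DecidableEq ι]

/-! Chunk B14 (M/L). Complex powers of the quadratic forms.
good_tau: h = 1 + τ Q_t(x), β = h itself on Y: SV uniformly in τ > 0, a <= t <= b (c sz^2 <= Q_t <= C sz^2 on Y by Q_low, Q_up, and sz is SV); h is Good with
weight β (Q_t is Good with weight sz^2, good_Q; τ sz^2 <= C β; the constant 1); Good.inv, Good.pow.
good_Qpow: choose a natural number k > r1. For every y in Y: Q^(-z) = B(z)^(-1) int_0^oo τ^(z-1) (1+τ Q)^(-k) dτ (beta_eq), B(z) = Gamma(z) Gamma(k-z)/Gamma(k), so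
D_S Q^(-z)(x) = B(z)^(-1) int τ^(z-1) D_S (1+τ Q)^(-k)(x) dτ and |..| <= |B(z)|^(-1) C int τ^(Re z - 1) (1+τ Q_t(x))^(-k) dτ prod γ =
C B(Re z)/|B(z)| Q_t(x)^(-Re z) prod γ, with good_tau (P replaced by P x {τ > 0}); |B(z)| is bounded below and B(Re z) above on the compact set r0 <= Re z <= r1, |z| <= M
(continuous, Gamma has no zeros); Q_t(x)^(-Re z) <= C sz^(-2 Re z) <= C sz^(-2 r0). -/

theorem B14_tau_sv (D : Ctx K m) (hE : Emb D.σ) (w : ι → 𝓞 K) (Y : Set (𝓞 K))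
    (hY : ∀ x ∈ Y, ∀ i, x - w i ∈ Y) (h0 : (0 : 𝓞 K) ∉ Y) (t : P → Fin (m + 1) → ℝ) (a b : ℝ)
    (ha : 0 < a) (ht : ∀ q i, a ≤ t q i ∧ t q i ≤ b) (τ : P → ℝ) (hτ : ∀ q, 0 < τ q) :
    SV Y w (fun q x => 1 + τ q * D.Q (t q) x) := by
  obtain ⟨c, hc, hlow⟩ := Q_low D hE a ha
  obtain ⟨C, hC, hup⟩ := Q_up D |b| (abs_nonneg b)
  obtain ⟨_, C1, hC1⟩ := SV.pow hY (sv_sz (P := Unit) D w Y) 2
  have hne : ∀ x ∈ Y, x ≠ 0 := fun x hx h => h0 (h ▸ hx)
  have habs : ∀ q i, |t q i| ≤ |b| := by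
    intro q i
    rw [abs_of_pos (lt_of_lt_of_le ha (ht q i).1)]
    exact (ht q i).2.trans (le_abs_self b)
  have hl : ∀ q, ∀ x ∈ Y, c * D.sz x ^ 2 ≤ D.Q (t q) x := fun q x hx =>
    hlow (t q) (fun i => (ht q i).1) x (hne x hx)
  have hu : ∀ q x, D.Q (t q) x ≤ C * D.sz x ^ 2 := fun q x =>
    (le_abs_self _).trans (hup (t q) (habs q) x)
  have hQpos : ∀ q, ∀ x ∈ Y, 0 < D.Q (t q) x := fun q x hx =>
    lt_of_lt_of_le (mul_pos hc (pow_pos (D.sz_pos x) 2)) (hl q x hx)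
  have key : ∀ q, ∀ x ∈ Y, ∀ y ∈ Y, D.sz x ^ 2 ≤ C1 * D.sz y ^ 2 →
      1 + τ q * D.Q (t q) x ≤ max 1 (C * C1 / c) * (1 + τ q * D.Q (t q) y) := by
    intro q x hx y hy h
    have h1 : D.Q (t q) x ≤ (C * C1 / c) * D.Q (t q) y := by
      have hC1' : 0 ≤ C1 := by
        by_contra hneg
        push Not at hneg
        have h2 : 0 < D.sz x ^ 2 := pow_pos (D.sz_pos x) 2
        have h3 : 0 < D.sz y ^ 2 := pow_pos (D.sz_pos y) 2
        have h4 := mul_neg_of_neg_of_pos hneg h3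
        linarith
      calc D.Q (t q) x ≤ C * D.sz x ^ 2 := hu q x
        _ ≤ C * (C1 * D.sz y ^ 2) := mul_le_mul_of_nonneg_left h hC.le
        _ = (C * C1 / c) * (c * D.sz y ^ 2) := by field_simp
        _ ≤ (C * C1 / c) * D.Q (t q) y :=
          mul_le_mul_of_nonneg_left (hl q y hy) (by positivity)
    have h2 : D.Q (t q) x ≤ max 1 (C * C1 / c) * D.Q (t q) y :=
      h1.trans (mul_le_mul_of_nonneg_right (le_max_right _ _) (hQpos q y hy).le)
    have h3 := mul_le_mul_of_nonneg_left h2 (hτ q).le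
    have h4 : (1 : ℝ) ≤ max 1 (C * C1 / c) := le_max_left _ _
    nlinarith
  refine ⟨fun q x hx => ?_, max 1 (C * C1 / c), fun q x hx i => ⟨?_, ?_⟩⟩
  · have := mul_pos (hτ q) (hQpos q x hx)
    linarith
  · exact key q _ (hY x hx i) x hx (hC1 () x hx i).1
  · exact key q x hx _ (hY x hx i) (hC1 () x hx i).2

theorem B14_tau_good (D : Ctx K m) (hE : Emb D.σ) (w : ι → 𝓞 K) (Y : Set (𝓞 K))
    (hY : ∀ x ∈ Y, ∀ i, x - w i ∈ Y) (h0 : (0 : 𝓞 K) ∉ Y) (t : P → Fin (m + 1) → ℝ) (a b : ℝ)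
    (ha : 0 < a) (ht : ∀ q i, a ≤ t q i ∧ t q i ≤ b) (τ : P → ℝ) (hτ : ∀ q, 0 < τ q) :
    Good Y w D.gs (fun q x => 1 + τ q * D.Q (t q) x)
      (fun q x => 1 + (τ q : ℂ) * (D.Q (t q) x : ℂ)) := by
  obtain ⟨c, hc, hlow⟩ := Q_low D hE a ha
  have hne : ∀ x ∈ Y, x ≠ 0 := fun x hx h => h0 (h ▸ hx)
  have habs : ∀ q i, |t q i| ≤ |b| := by
    intro q i
    rw [abs_of_pos (lt_of_lt_of_le ha (ht q i).1)]
    exact (ht q i).2.trans (le_abs_self b)
  have hl : ∀ q, ∀ x ∈ Y, c * D.sz x ^ 2 ≤ D.Q (t q) x := fun q x hx =>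
    hlow (t q) (fun i => (ht q i).1) x (hne x hx)
  have hQpos : ∀ q, ∀ x ∈ Y, 0 < D.Q (t q) x := fun q x hx =>
    lt_of_lt_of_le (mul_pos hc (pow_pos (D.sz_pos x) 2)) (hl q x hx)
  have hβ : ∀ q, ∀ x ∈ Y, 0 ≤ 1 + τ q * D.Q (t q) x := by
    intro q x hx
    have := mul_pos (hτ q) (hQpos q x hx)
    linarith
  have hγ : ∀ i : ι, ∀ x ∈ Y, 0 ≤ D.gs i x := fun i x _ => inv_nonneg.2 (D.sz_pos x).le
  refine Good.add ?_ ?_
  · refine Good.const hβ hγ (fun _ => 1) 1 ?_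
    intro q x hx
    have := mul_pos (hτ q) (hQpos q x hx)
    rw [norm_one]
    linarith
  · obtain ⟨C, hC⟩ := good_Q D w Y hY t |b| habs
    refine ⟨|C| / c, ?_⟩
    intro q S x hx
    have e1 : Dif w S ((fun q x => (τ q : ℂ) * (D.Q (t q) x : ℂ)) q) x =
        (τ q : ℂ) * Dif w S (fun x => (D.Q (t q) x : ℂ)) x :=
      dif_const_mul w S (τ q : ℂ) (fun x => (D.Q (t q) x : ℂ)) x
    have hp0 : 0 ≤ ∏ i ∈ S, D.gs i x := Finset.prod_nonneg fun i _ => hγ i x hx
    rw [e1, norm_mul, Complex.norm_real, Real.norm_eq_abs, abs_of_pos (hτ q)]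
    have h1 := hC q S x hx
    have h2 : C * D.sz x ^ 2 ≤ |C| / c * D.Q (t q) x := by
      calc C * D.sz x ^ 2 ≤ |C| * D.sz x ^ 2 :=
            mul_le_mul_of_nonneg_right (le_abs_self C) (by positivity)
        _ = |C| / c * (c * D.sz x ^ 2) := by field_simp
        _ ≤ |C| / c * D.Q (t q) x := mul_le_mul_of_nonneg_left (hl q x hx) (by positivity)
    calc τ q * ‖Dif w S (fun x => (D.Q (t q) x : ℂ)) x‖
        ≤ τ q * ((|C| / c * D.Q (t q) x) * ∏ i ∈ S, D.gs i x) :=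
          mul_le_mul_of_nonneg_left (h1.trans (mul_le_mul_of_nonneg_right h2 hp0)) (hτ q).le
      _ = (|C| / c * (τ q * D.Q (t q) x)) * ∏ i ∈ S, D.gs i x := by ring
      _ ≤ |C| / c * (1 + τ q * D.Q (t q) x) * ∏ i ∈ S, D.gs i x := by
          apply mul_le_mul_of_nonneg_right _ hp0
          apply mul_le_mul_of_nonneg_left _ (by positivity)
          linarith

theorem good_tau (D : Ctx K m) (hE : Emb D.σ) (w : ι → 𝓞 K) (Y : Set (𝓞 K))
    (hY : ∀ x ∈ Y, ∀ i, x - w i ∈ Y) (h0 : (0 : 𝓞 K) ∉ Y) (t : P → Fin (m + 1) → ℝ) (a b : ℝ)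
    (ha : 0 < a) (ht : ∀ q i, a ≤ t q i ∧ t q i ≤ b) (τ : P → ℝ) (hτ : ∀ q, 0 < τ q) (k : ℕ) :
    Good Y w D.gs (fun q x => ((1 + τ q * D.Q (t q) x) ^ k)⁻¹)
      (fun q x => ((((1 + τ q * D.Q (t q) x) ^ k)⁻¹ : ℝ) : ℂ)) := by
  have hsv := B14_tau_sv D hE w Y hY h0 t a b ha ht τ hτ
  have hg := B14_tau_good D hE w Y hY h0 t a b ha ht τ hτ
  have hγ := sv_gs D w Y
  have hinv := Good.inv hY hγ hsv hg 1 one_pos (by
    intro q x hx
    have h1 := hsv.1 q x hx
    have h2 : (1 + (τ q : ℂ) * (D.Q (t q) x : ℂ)) = ((1 + τ q * D.Q (t q) x : ℝ) : ℂ) := by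
      push_cast; ring
    rw [one_mul, h2, Complex.norm_real, Real.norm_eq_abs, abs_of_pos h1])
  have hpow := Good.pow hY hγ (SV.inv hY hsv) hinv k
  have e1 : (fun (q : P) (x : 𝓞 K) => ((1 + τ q * D.Q (t q) x) ^ k)⁻¹) =
      fun q x => ((1 + τ q * D.Q (t q) x)⁻¹) ^ k := by
    funext q x
    rw [inv_pow]
  have e2 : (fun (q : P) (x : 𝓞 K) => ((((1 + τ q * D.Q (t q) x) ^ k)⁻¹ : ℝ) : ℂ)) =
      fun q x => ((1 + (τ q : ℂ) * (D.Q (t q) x : ℂ))⁻¹) ^ k := by
    funext q x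
    rw [inv_pow]
    push_cast
    ring
  rw [e1, e2]
  exact hpow

/-- The normalising factor of the beta integral. -/
noncomputable def B14_B (k : ℕ) (z : ℂ) : ℂ :=
  Complex.Gamma z * Complex.Gamma (k - z) / Complex.Gamma k

theorem B14_B_ne (k : ℕ) (z : ℂ) (h0 : 0 < z.re) (hk : z.re < k) : B14_B k z ≠ 0 := by
  have hk0 : (0 : ℝ) < k := h0.trans hk
  refine div_ne_zero (mul_ne_zero (Complex.Gamma_ne_zero_of_re_pos h0)
    (Complex.Gamma_ne_zero_of_re_pos ?_)) (Complex.Gamma_ne_zero_of_re_pos ?_)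
  · rw [Complex.sub_re, Complex.natCast_re]
    linarith
  · rw [Complex.natCast_re]
    exact hk0

theorem B14_B_cont (k : ℕ) (z : ℂ) (h0 : 0 < z.re) (hk : z.re < k) :
    ContinuousAt (B14_B k) z := by
  have hk0 : (0 : ℝ) < k := h0.trans hk
  have hG : ∀ u : ℂ, 0 < u.re → ContinuousAt Complex.Gamma u := fun u hu =>
    (Complex.differentiableAt_Gamma u fun n hn => by
      rw [hn, Complex.neg_re, Complex.natCast_re] at hu
      have : (0 : ℝ) ≤ n := Nat.cast_nonneg n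
      linarith).continuousAt
  have h1 : ContinuousAt (fun z : ℂ => Complex.Gamma (k - z)) z := by
    have h2 := hG (k - z) (by rw [Complex.sub_re, Complex.natCast_re]; linarith)
    exact ContinuousAt.comp (f := fun z : ℂ => (k : ℂ) - z) h2 (by fun_prop)
  exact ((hG z h0).mul h1).div_const _

theorem B14_ratio (k : ℕ) (r₀ M : ℝ) (hr : 0 < r₀) (hM : M < k) : ∃ C : ℝ, 0 ≤ C ∧
    ∀ z : ℂ, r₀ ≤ z.re → ‖z‖ ≤ M → ‖B14_B k z.re‖ * ‖B14_B k z‖⁻¹ ≤ C := by
  have hcomp : IsCompact ({z : ℂ | r₀ ≤ z.re} ∩ Metric.closedBall (0 : ℂ) M) := by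
    refine IsCompact.inter_left (isCompact_closedBall 0 M) ?_
    exact isClosed_le continuous_const Complex.continuous_re
  have hre : ∀ z ∈ ({z : ℂ | r₀ ≤ z.re} ∩ Metric.closedBall (0 : ℂ) M), 0 < z.re ∧ z.re < k := by
    intro z hz
    have h1 : r₀ ≤ z.re := hz.1
    have h2 : ‖z‖ ≤ M := by
      have := hz.2
      rwa [mem_closedBall_zero_iff] at this
    exact ⟨lt_of_lt_of_le hr h1, lt_of_le_of_lt ((Complex.re_le_norm z).trans h2) hM⟩
  have hcont : ContinuousOn (fun z : ℂ => ‖B14_B k z.re‖ * ‖B14_B k z‖⁻¹)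
      ({z : ℂ | r₀ ≤ z.re} ∩ Metric.closedBall (0 : ℂ) M) := by
    intro z hz
    obtain ⟨h1, h2⟩ := hre z hz
    apply ContinuousAt.continuousWithinAt
    have h3 : ContinuousAt (fun z : ℂ => B14_B k (z.re : ℂ)) z := by
      have h4 := B14_B_cont k (z.re : ℂ) (by simpa using h1) (by simpa using h2)
      exact ContinuousAt.comp (f := fun z : ℂ => (z.re : ℂ)) h4 (by fun_prop)
    refine h3.norm.mul ((B14_B_cont k z h1 h2).norm.inv₀ ?_)
    rw [norm_ne_zero_iff]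
    exact B14_B_ne k z h1 h2
  obtain ⟨C, hC⟩ := hcomp.exists_bound_of_continuousOn hcont
  refine ⟨|C|, abs_nonneg C, ?_⟩
  intro z h1 h2
  have h3 := hC z ⟨h1, by rw [mem_closedBall_zero_iff]; exact h2⟩
  rw [Real.norm_eq_abs] at h3
  exact (le_abs_self _).trans (h3.trans (le_abs_self C))

/-- The real beta integral. -/
theorem B14_real (k : ℕ) (r q : ℝ) (hr : 0 < r) (hk : r < k) (hq : 0 < q) :
    IntegrableOn (fun τ : ℝ => τ ^ (r - 1) * ((1 + τ * q) ^ k)⁻¹) (Set.Ioi 0) ∧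
    ∫ τ in Set.Ioi (0 : ℝ), τ ^ (r - 1) * ((1 + τ * q) ^ k)⁻¹ = q ^ (-r) * ‖B14_B k r‖ := by
  have hi := beta_integrable (r : ℂ) k (by simpa using hr) (by simpa using hk) q hq
  have he := beta_eq (r : ℂ) k (by simpa using hr) (by simpa using hk) q hq
  have hcongr : ∀ τ ∈ Set.Ioi (0 : ℝ), (τ : ℂ) ^ ((r : ℂ) - 1) * (((1 + τ * q) ^ k)⁻¹ : ℝ) =
      ((τ ^ (r - 1) * ((1 + τ * q) ^ k)⁻¹ : ℝ) : ℂ) := by
    intro τ hτ
    rw [Complex.ofReal_mul, Complex.ofReal_cpow (le_of_lt hτ)]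
    push_cast
    ring
  have hi2 : IntegrableOn (fun τ : ℝ => ((τ ^ (r - 1) * ((1 + τ * q) ^ k)⁻¹ : ℝ) : ℂ))
      (Set.Ioi 0) := (integrableOn_congr_fun hcongr measurableSet_Ioi).1 hi
  have hi3 : IntegrableOn (fun τ : ℝ => τ ^ (r - 1) * ((1 + τ * q) ^ k)⁻¹) (Set.Ioi 0) := by
    have := hi2.re
    exact this
  refine ⟨hi3, ?_⟩
  rw [setIntegral_congr_fun measurableSet_Ioi hcongr, integral_complex_ofReal] at he
  have h0 : 0 ≤ ∫ τ in Set.Ioi (0 : ℝ), τ ^ (r - 1) * ((1 + τ * q) ^ k)⁻¹ := by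
    refine setIntegral_nonneg measurableSet_Ioi fun τ hτ => ?_
    have hτ' : (0 : ℝ) < τ := hτ
    positivity
  have h1 := congrArg norm he
  rw [Complex.norm_real, Real.norm_eq_abs, abs_of_nonneg h0, norm_mul] at h1
  rw [h1]
  congr 1
  rw [Complex.norm_cpow_eq_rpow_re_of_pos hq]
  simp

theorem good_Qpow (D : Ctx K m) (hE : Emb D.σ) (w : ι → 𝓞 K) (Y : Set (𝓞 K))
    (hY : ∀ x ∈ Y, ∀ i, x - w i ∈ Y) (h0 : (0 : 𝓞 K) ∉ Y) (t : P → Fin (m + 1) → ℝ) (a b : ℝ)
    (ha : 0 < a) (ht : ∀ q i, a ≤ t q i ∧ t q i ≤ b) (z : P → ℂ) (r₀ M : ℝ) (hr : 0 < r₀)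
    (hz : ∀ q, r₀ ≤ (z q).re ∧ ‖z q‖ ≤ M) :
    Good Y w D.gs (fun (_ : P) x => D.sz x ^ (-2 * r₀))
      (fun q x => (D.Q (t q) x : ℂ) ^ (-(z q))) := by
  obtain ⟨k, hk⟩ := exists_nat_gt M
  obtain ⟨c, hc, hlow⟩ := Q_low D hE a ha
  have hne : ∀ x ∈ Y, x ≠ 0 := fun x hx h => h0 (h ▸ hx)
  have hl : ∀ q, ∀ x ∈ Y, c * D.sz x ^ 2 ≤ D.Q (t q) x := fun q x hx =>
    hlow (t q) (fun i => (ht q i).1) x (hne x hx)
  have hQpos : ∀ q, ∀ x ∈ Y, 0 < D.Q (t q) x := fun q x hx =>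
    lt_of_lt_of_le (mul_pos hc (pow_pos (D.sz_pos x) 2)) (hl q x hx)
  obtain ⟨C, hC⟩ := good_tau (P := P × {τ : ℝ // 0 < τ}) D hE w Y hY h0 (fun q => t q.1) a b ha
    (fun q i => ht q.1 i) (fun q => q.2.1) (fun q => q.2.2) k
  obtain ⟨C2, hC2, hratio⟩ := B14_ratio k r₀ M hr hk
  have hstab : ∀ T : Finset ι, ∀ x ∈ Y, x - ∑ i ∈ T, w i ∈ Y := by
    intro T
    induction T using Finset.induction_on with
    | empty => intro x hx; simpa using hx
    | insert a T ha ih =>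
      intro x hx
      rw [Finset.sum_insert ha, ← sub_sub]
      exact ih _ (hY x hx a)
  refine ⟨|C| * C2 * (max 1 c⁻¹) ^ M, ?_⟩
  intro q S x hx
  obtain ⟨hz1, hz2⟩ := hz q
  have hre0 : 0 < (z q).re := lt_of_lt_of_le hr hz1
  have hreM : (z q).re ≤ M := (Complex.re_le_norm _).trans hz2
  have hrek : (z q).re < k := lt_of_le_of_lt hreM hk
  have hBne := B14_B_ne k (z q) hre0 hrek
  have hp0 : 0 ≤ ∏ i ∈ S, D.gs i x :=
    Finset.prod_nonneg fun i _ => inv_nonneg.2 (D.sz_pos x).le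
  -- the representation of the difference
  have hrep : Dif w S (fun x => (D.Q (t q) x : ℂ) ^ (-(z q))) x =
      (B14_B k (z q))⁻¹ * ∫ τ in Set.Ioi (0 : ℝ), (τ : ℂ) ^ (z q - 1) *
        Dif w S (fun x => ((((1 + τ * D.Q (t q) x) ^ k)⁻¹ : ℝ) : ℂ)) x := by
    have h1 : ∀ y ∈ Y, (D.Q (t q) y : ℂ) ^ (-(z q)) = (B14_B k (z q))⁻¹ *
        ∫ τ in Set.Ioi (0 : ℝ), (τ : ℂ) ^ (z q - 1) * ((((1 + τ * D.Q (t q) y) ^ k)⁻¹ : ℝ) : ℂ) := by
      intro y hy
      rw [beta_eq (z q) k hre0 hrek _ (hQpos q y hy)]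
      change _ = (B14_B k (z q))⁻¹ * (_ * B14_B k (z q))
      field_simp
    have h2 : ∀ T ∈ S.powerset, (-1 : ℂ) ^ T.card * (D.Q (t q) (x - ∑ i ∈ T, w i) : ℂ) ^ (-(z q)) =
        (B14_B k (z q))⁻¹ * ∫ τ in Set.Ioi (0 : ℝ), (-1 : ℂ) ^ T.card * ((τ : ℂ) ^ (z q - 1) *
          ((((1 + τ * D.Q (t q) (x - ∑ i ∈ T, w i)) ^ k)⁻¹ : ℝ) : ℂ)) := by
      intro T _
      rw [h1 _ (hstab T x hx), integral_const_mul]
      ring
    unfold Dif
    rw [Finset.sum_congr rfl h2, ← Finset.mul_sum, ← integral_finsetSum]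
    · congr 1
      refine setIntegral_congr_fun measurableSet_Ioi fun τ _ => ?_
      simp only [Finset.mul_sum]
      exact Finset.sum_congr rfl fun T _ => by ring
    · intro T _
      exact (beta_integrable (z q) k hre0 hrek _ (hQpos q _ (hstab T x hx))).const_mul _
  obtain ⟨hi, he⟩ := B14_real k (z q).re (D.Q (t q) x) hre0 hrek (hQpos q x hx)
  have hint : ‖∫ τ in Set.Ioi (0 : ℝ), (τ : ℂ) ^ (z q - 1) *
        Dif w S (fun x => ((((1 + τ * D.Q (t q) x) ^ k)⁻¹ : ℝ) : ℂ)) x‖ ≤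
      (|C| * ∏ i ∈ S, D.gs i x) * (D.Q (t q) x ^ (-(z q).re) * ‖B14_B k (z q).re‖) := by
    rw [← he, ← integral_const_mul]
    refine norm_integral_le_of_norm_le (hi.const_mul _) ?_
    refine (ae_restrict_iff' measurableSet_Ioi).2 (Filter.Eventually.of_forall fun τ hτ => ?_)
    have hτ' : (0 : ℝ) < τ := hτ
    rw [norm_mul, Complex.norm_cpow_eq_rpow_re_of_pos hτ']
    have h1 := hC (q, ⟨τ, hτ'⟩) S x hx
    have h2 : C * ((1 + τ * D.Q (t q) x) ^ k)⁻¹ ≤ |C| * ((1 + τ * D.Q (t q) x) ^ k)⁻¹ := by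
      apply mul_le_mul_of_nonneg_right (le_abs_self C)
      have := mul_pos hτ' (hQpos q x hx)
      positivity
    have h3 : (z q - 1).re = (z q).re - 1 := by simp
    rw [h3]
    calc τ ^ ((z q).re - 1) * ‖Dif w S (fun x => ((((1 + τ * D.Q (t q) x) ^ k)⁻¹ : ℝ) : ℂ)) x‖
        ≤ τ ^ ((z q).re - 1) * ((|C| * ((1 + τ * D.Q (t q) x) ^ k)⁻¹) * ∏ i ∈ S, D.gs i x) :=
          mul_le_mul_of_nonneg_left (h1.trans (mul_le_mul_of_nonneg_right h2 hp0))
            (by positivity)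
      _ = (|C| * ∏ i ∈ S, D.gs i x) *
            (τ ^ ((z q).re - 1) * ((1 + τ * D.Q (t q) x) ^ k)⁻¹) := by ring
  have hQle : D.Q (t q) x ^ (-(z q).re) ≤ (max 1 c⁻¹) ^ M * D.sz x ^ (-2 * r₀) := by
    have hs := D.sz_pos x
    have hs1 := D.one_le_sz x
    calc D.Q (t q) x ^ (-(z q).re) ≤ (c * D.sz x ^ 2) ^ (-(z q).re) :=
          Real.rpow_le_rpow_of_nonpos (by positivity) (hl q x hx) (by linarith)
      _ = c⁻¹ ^ (z q).re * D.sz x ^ (-2 * (z q).re) := by
          rw [Real.mul_rpow hc.le (by positivity), Real.rpow_neg hc.le, Real.inv_rpow hc.le,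
            ← Real.rpow_natCast, ← Real.rpow_mul hs.le]
          congr 2
          push_cast
          ring
      _ ≤ (max 1 c⁻¹) ^ M * D.sz x ^ (-2 * r₀) := by
          apply mul_le_mul
          · calc c⁻¹ ^ (z q).re ≤ (max 1 c⁻¹) ^ (z q).re :=
                Real.rpow_le_rpow (by positivity) (le_max_right _ _) hre0.le
              _ ≤ (max 1 c⁻¹) ^ M := Real.rpow_le_rpow_of_exponent_le (le_max_left _ _) hreM
          · exact Real.rpow_le_rpow_of_exponent_le hs1 (by linarith)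
          · positivity
          · positivity
  change ‖Dif w S (fun x => (D.Q (t q) x : ℂ) ^ (-(z q))) x‖ ≤ _
  rw [hrep, norm_mul, norm_inv]
  calc ‖B14_B k (z q)‖⁻¹ * ‖∫ τ in Set.Ioi (0 : ℝ), (τ : ℂ) ^ (z q - 1) *
        Dif w S (fun x => ((((1 + τ * D.Q (t q) x) ^ k)⁻¹ : ℝ) : ℂ)) x‖
      ≤ ‖B14_B k (z q)‖⁻¹ * ((|C| * ∏ i ∈ S, D.gs i x) *
          (D.Q (t q) x ^ (-(z q).re) * ‖B14_B k (z q).re‖)) :=
        mul_le_mul_of_nonneg_left hint (by positivity)
    _ = (|C| * ∏ i ∈ S, D.gs i x) * (D.Q (t q) x ^ (-(z q).re) *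
          (‖B14_B k (z q).re‖ * ‖B14_B k (z q)‖⁻¹)) := by ring
    _ ≤ (|C| * ∏ i ∈ S, D.gs i x) * (((max 1 c⁻¹) ^ M * D.sz x ^ (-2 * r₀)) * C2) := by
        apply mul_le_mul_of_nonneg_left _ (by positivity)
        exact mul_le_mul hQle (hratio (z q) hz1 hz2) (by positivity)
          (by have := D.sz_pos x; positivity)
    _ = |C| * C2 * (max 1 c⁻¹) ^ M * D.sz x ^ (-2 * r₀) * ∏ i ∈ S, D.gs i x := by ring

/-- The family fs: conj N is a product of m+1 functions conj(σ_i x) (Good.prod, good_sig, Good.conj). -/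
theorem good_fs (D : Ctx K m) (hE : Emb D.σ) (w : ι → 𝓞 K) (Y : Set (𝓞 K))
    (hY : ∀ x ∈ Y, ∀ i, x - w i ∈ Y) (h0 : (0 : 𝓞 K) ∉ Y) (t : P → Fin (m + 1) → ℝ) (a b : ℝ)
    (ha : 0 < a) (ht : ∀ q i, a ≤ t q i ∧ t q i ≤ b) (s : P → ℂ) (r M : ℝ) (hr : 0 < r)
    (hs : ∀ q, r ≤ (s q).re ∧ ‖s q‖ ≤ M) :
    Good Y w D.gs (fun (_ : P) x => D.sz x ^ ((m + 1 : ℝ) - 2 * (m + 1) * r))
      (fun q x => D.fs (t q) (s q) x) := by
  have hγ := sv_gs D w Y
  have hsz := sv_sz (P := P) D w Y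
  have h1 := good_Qpow D hE w Y hY h0 t a b ha ht (fun q => ((m + 1 : ℕ) : ℂ) * s q)
    ((m + 1) * r) ((m + 1) * M) (by positivity) (by
      intro q
      obtain ⟨h1, h2⟩ := hs q
      constructor
      · rw [Complex.mul_re, Complex.natCast_re, Complex.natCast_im, zero_mul, sub_zero]
        push_cast
        exact mul_le_mul_of_nonneg_left h1 (by positivity)
      · rw [norm_mul, Complex.norm_natCast]
        push_cast
        exact mul_le_mul_of_nonneg_left h2 (by positivity))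
  have h2 := Good.prod hY hγ (Finset.univ : Finset (Fin (m + 1)))
    (fun _ (_ : P) x => D.sz x) (fun i (_ : P) x => D.σ i x) (fun _ _ => hsz)
    (fun i _ => good_sig D w Y i)
  have h3 := Good.conj h2
  have hsv1 := SV.prod hY (Finset.univ : Finset (Fin (m + 1)))
    (fun _ (_ : P) x => D.sz x) (fun _ _ => hsz)
  have hsv2 := SV.rpow hsz hY (-2 * ((m + 1) * r))
  have h4 := Good.mul hY hγ hsv1 hsv2 h3 h1
  have e1 : (fun (_ : P) x => D.sz x ^ ((m + 1 : ℝ) - 2 * (m + 1) * r)) =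
      fun (_ : P) x => (∏ _i : Fin (m + 1), D.sz x) * D.sz x ^ (-2 * ((m + 1) * r)) := by
    funext q x
    have hs0 := D.sz_pos x
    rw [Finset.prod_const, Finset.card_univ, Fintype.card_fin, ← Real.rpow_natCast,
      ← Real.rpow_add hs0]
    congr 1
    push_cast
    ring
  rw [e1]
  exact h4

end H55N
end

-- from Lib.H55N.B2
section

open NumberField IsDedekindDomain

namespace H55N

open H55B H55C

variable {K : Type} [Field K] [NumberField K] [Algebra F K] {m : ℕ}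

/-! Chunk B2 (M). Lattice sums.
sum_l: by hint choose for x in Y a vector y(x) in O^(m+1) with Tr(A_k x) = e(y(x)_k); the map x -> y(x) is injective (Tr_inj), and
sum over O^(m+1) of prod (1+|e y_k|)^(-r) converges (B1 with H55B.summable_e).
sum_sz: choose an F-basis A of K consisting of elements of O_K (scale a basis by an integer:
exists_integral_multiple, or a localization basis); then Tr(A_k x) is in e(O) for all x in O_K (Tr_eq; the trace of an
algebraic integer is an algebraic integer of F), |Tr(A_k x)| <= C sz x, so sz(x)^(-r) <= C' prod_k (1+|Tr(A_k x)|)^(-r/(m+1))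
with r/(m+1) > 2; sum_l with Y = univ.
Tr_le: |Tr(a,x)| <= C sz x. -/

theorem Tr_le (D : Ctx K m) (a : K) : ∃ C : ℝ, 0 < C ∧ ∀ x : 𝓞 K, 1 + ‖D.Tr a x‖ ≤ C * D.sz x := by
  have hM : 0 ≤ ∑ i, ‖D.σ i a‖ := Finset.sum_nonneg fun i _ => norm_nonneg _
  refine ⟨1 + ∑ i, ‖D.σ i a‖, by linarith, fun x => ?_⟩
  have h1 : ‖D.Tr a x‖ ≤ ∑ i, ‖D.σ i a‖ * D.sz x := by
    unfold Ctx.Tr
    refine (norm_sum_le _ _).trans (Finset.sum_le_sum fun i _ => ?_)
    rw [map_mul, norm_mul, mul_comm]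
    exact mul_le_mul_of_nonneg_left (D.norm_le_sz x i) (norm_nonneg _)
  rw [← Finset.sum_mul] at h1
  have h2 := D.one_le_sz x
  linarith

theorem sum_l (D : Ctx K m) (hE : Emb D.σ) (Y : Set (𝓞 K)) (A : Fin (m + 1) → K)
    (hA : LinearIndependent F A) (hint : ∀ x ∈ Y, ∀ k, ∃ y : O, D.Tr (A k) x = e y) (r : ℝ)
    (hr : 2 < r) : Summable fun x : Y => ∏ k, (1 + ‖D.Tr (A k) x‖) ^ (-r) := by
  choose y hy using fun (x : Y) (k : Fin (m + 1)) => hint x x.2 k
  have h1 : Function.Injective y := by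
    intro x x' hxx
    apply Subtype.ext
    apply Tr_inj D hE A hA
    intro k
    rw [hy x k, hy x' k, hxx]
  have h2 := pi_summable (m + 1) (fun _ (z : O) => (1 + ‖e z‖) ^ (-r))
    (fun _ z => by positivity) (fun _ => summable_e hr)
  have h3 := h2.comp_injective h1
  refine h3.congr fun x => ?_
  refine Finset.prod_congr rfl fun k _ => ?_
  rw [hy x k]

theorem b2_basis (D : Ctx K m) (hE : Emb D.σ) : ∃ A : Fin (m + 1) → K, LinearIndependent F A ∧
    ∀ (x : 𝓞 K) k, ∃ y : O, D.Tr (A k) x = e y := by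
  haveI := a1_fin hE.fin
  let b : Module.Basis (Fin (m + 1)) F K := Module.finBasisOfFinrankEq F K hE.fin
  have halg : ∀ i, IsAlgebraic ℤ (b i) := fun i =>
    (IsFractionRing.isAlgebraic_iff ℤ ℚ K).2 (Algebra.IsAlgebraic.isAlgebraic (b i))
  choose y hy0 hy using fun i => (halg i).exists_integral_multiple
  have hyF : ∀ i, ((y i : ℤ) : F) ≠ 0 := fun i => Int.cast_ne_zero.2 (hy0 i)
  refine ⟨fun i => y i • b i, ?_, ?_⟩
  · have h1 := b.linearIndependent.units_smul (fun i => Units.mk0 ((y i : ℤ) : F) (hyF i))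
    have h2 : (fun i => Units.mk0 ((y i : ℤ) : F) (hyF i)) • (b : Fin (m + 1) → K) =
        fun i => y i • b i := by
      funext i
      show ((y i : ℤ) : F) • b i = y i • b i
      rw [Int.cast_smul_eq_zsmul]
    rw [h2] at h1
    exact h1
  · intro x k
    have hi : IsIntegral ℤ (Algebra.trace F K ((x : K) * (y k • b k))) :=
      Algebra.isIntegral_trace (x.2.mul (hy k))
    refine ⟨⟨_, hi⟩, ?_⟩
    rw [Tr_eq D hE]
    rfl

theorem sum_sz (D : Ctx K m) (hE : Emb D.σ) (r : ℝ) (hr : 2 * (m + 1 : ℝ) < r) :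
    Summable fun x : 𝓞 K => D.sz x ^ (-r) := by
  obtain ⟨A, hA, hint⟩ := b2_basis D hE
  set ρ : ℝ := r / (m + 1) with hρ
  have hm : (0 : ℝ) < m + 1 := by positivity
  have hρ2 : 2 < ρ := by
    rw [hρ, lt_div_iff₀ hm]
    exact hr
  have hρr : ρ * (m + 1) = r := by
    rw [hρ]
    field_simp
  have h1 := sum_l D hE Set.univ A hA (fun x _ k => hint x k) ρ hρ2
  have h2 : Summable fun x : 𝓞 K => ∏ k, (1 + ‖D.Tr (A k) x‖) ^ (-ρ) := by
    rw [← (Equiv.Set.univ (𝓞 K)).summable_iff]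
    exact h1
  choose C hC0 hC using fun k => Tr_le D (A k)
  set M : ℝ := ∑ k, C k with hM
  have hM0 : 0 < M := Finset.sum_pos (fun k _ => hC0 k) Finset.univ_nonempty
  have hCM : ∀ k, C k ≤ M := fun k =>
    Finset.single_le_sum (f := C) (fun k _ => (hC0 k).le) (Finset.mem_univ k)
  refine (h2.mul_left (M ^ r)).of_nonneg_of_le (fun x => Real.rpow_nonneg (D.sz_pos x).le _)
    fun x => ?_
  have hs := D.sz_pos x
  have h3 : ∏ _k : Fin (m + 1), (M * D.sz x) ^ (-ρ) ≤ ∏ k, (1 + ‖D.Tr (A k) x‖) ^ (-ρ) := by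
    refine Finset.prod_le_prod (fun k _ => Real.rpow_nonneg (by positivity) _) fun k _ => ?_
    apply Real.rpow_le_rpow_of_nonpos (by positivity)
    · exact (hC k x).trans (mul_le_mul_of_nonneg_right (hCM k) hs.le)
    · linarith
  have h4 : ∏ _k : Fin (m + 1), (M * D.sz x) ^ (-ρ) = M ^ (-r) * D.sz x ^ (-r) := by
    rw [Finset.prod_const, Finset.card_univ, Fintype.card_fin, ← Real.rpow_natCast,
      ← Real.rpow_mul (by positivity), Real.mul_rpow hM0.le hs.le]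
    have : -ρ * ((m + 1 : ℕ) : ℝ) = -r := by
      push_cast
      rw [neg_mul, hρr]
    rw [this]
  rw [h4] at h3
  calc D.sz x ^ (-r) = M ^ r * (M ^ (-r) * D.sz x ^ (-r)) := by
        rw [← mul_assoc, ← Real.rpow_add hM0, add_neg_cancel, Real.rpow_zero, one_mul]
    _ ≤ _ := mul_le_mul_of_nonneg_left h3 (Real.rpow_nonneg hM0.le _)

end H55N
end

-- from Lib.H55N.U4
section

open NumberField IsDedekindDomain MeasureTheory

namespace H55N

open H55B H55C

variable {K : Type} [Field K] [NumberField K] [Algebra F K] {m : ℕ}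
  {ι : Type} [Fintype ι] [DecidableEq ι]

/-! Chunk U4 (M/L). Analytic continuation of the differenced series, n = m+1, d = card ι <= 2n. Y = XS I' c₀ contains D.X, is stable under x -> x - w_i, and
0 is not in Y. Let s0 in the region, r < Re s0 with r > 3/2 - d/(2n) (so r > 0 since d <= 2n gives r > 1/2), M = |s0| + 1, U = {r < Re s, |s| < M}. For
z in the cube the tt lm z i lie in some [a,b], 0 < a. good_fs (P = pairs (z, s)) gives |Dif univ (fs (tt lm z) s) x| <= C sz(x)^(n - 2nr) sz(x)^(-d), n - 2nr - d < -2n, summable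
(sum_sz) uniformly in z, s. Each term s -> int_cube G x Dif(..) dz is holomorphic (fs is holomorphic in s, jointly continuous in (z,s) for x <> 0, continuous z-integral over a compact
set: hasDerivAt_integral_of_dominated_loc_of_deriv_le, or differentiability under the integral for compact domains); int_cube sum = sum int_cube (dominated), and a locally uniformly
convergent series of holomorphic functions is holomorphic (differentiableOn_tsum_of_summable_norm). AnalyticOnNhd from DifferentiableOn on an open set. -/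

/-- The exponent of the decay. -/
noncomputable def U4_e (m d : ℕ) (r : ℝ) : ℝ := 2 * (m + 1) * r + d - (m + 1)

/-- The uniform bound. -/
theorem U4_bound (D : Ctx K m) (hE : Emb D.σ) (I' : Ideal (𝓞 K))
    (h0 : D.c₀ ∉ I') (w : ι → 𝓞 K) (hw : ∀ i, w i ∈ I') (a b : ℝ) (ha : 0 < a) (r M : ℝ)
    (hr : 0 < r) : ∃ C : ℝ, 0 ≤ C ∧ ∀ t : Fin (m + 1) → ℝ, (∀ i, a ≤ t i ∧ t i ≤ b) →
      ∀ s : ℂ, r ≤ s.re → ‖s‖ ≤ M → ∀ x ∈ XS I' D.c₀,
      ‖Dif w Finset.univ (D.fs t s) x‖ ≤ C * D.sz x ^ (-(U4_e m (Fintype.card ι) r)) := by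
  have hY : ∀ x ∈ XS I' D.c₀, ∀ i, x - w i ∈ XS I' D.c₀ := by
    intro x hx i
    change x - w i - D.c₀ ∈ I'
    have h1 : x - w i - D.c₀ = (x - D.c₀) - w i := by ring
    rw [h1]
    exact I'.sub_mem hx (hw i)
  have hY0 : (0 : 𝓞 K) ∉ XS I' D.c₀ := by
    intro h
    change 0 - D.c₀ ∈ I' at h
    rw [zero_sub, neg_mem_iff] at h
    exact h0 h
  obtain ⟨C, hC⟩ := good_fs
    (P := {q : (Fin (m + 1) → ℝ) × ℂ // (∀ i, a ≤ q.1 i ∧ q.1 i ≤ b) ∧ r ≤ q.2.re ∧ ‖q.2‖ ≤ M})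
    D hE w (XS I' D.c₀) hY hY0 (fun q => q.1.1) a b ha (fun q => q.2.1) (fun q => q.1.2) r M hr
    (fun q => q.2.2)
  refine ⟨|C|, abs_nonneg C, ?_⟩
  intro t ht s hs1 hs2 x hx
  have h1 : ‖Dif w Finset.univ (D.fs t s) x‖ ≤ C * D.sz x ^ ((m + 1 : ℝ) - 2 * (m + 1) * r) *
      ∏ i : ι, D.gs i x := hC ⟨(t, s), ht, hs1, hs2⟩ Finset.univ x hx
  have hs0 := D.sz_pos x
  have h2 : ∏ i : ι, D.gs i x = D.sz x ^ (-(Fintype.card ι : ℝ)) := by
    unfold Ctx.gs
    rw [Finset.prod_const, Finset.card_univ, Real.rpow_neg hs0.le, Real.rpow_natCast, inv_pow]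
  rw [h2] at h1
  refine h1.trans ?_
  rw [mul_assoc, ← Real.rpow_add hs0]
  have h3 : (m + 1 : ℝ) - 2 * (m + 1) * r + -(Fintype.card ι : ℝ) =
      -(U4_e m (Fintype.card ι) r) := by
    unfold U4_e
    ring
  rw [h3]
  exact mul_le_mul_of_nonneg_right (le_abs_self C) (by positivity)

theorem U4_sum (D : Ctx K m) (hE : Emb D.σ) (d : ℕ) (r : ℝ)
    (hr : 3 / 2 - (d : ℝ) / (2 * (m + 1)) < r) :
    Summable fun x : D.X => D.sz x ^ (-(U4_e m d r)) := by
  have h1 : 2 * (m + 1 : ℝ) < U4_e m d r := by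
    unfold U4_e
    have hm : (0 : ℝ) < 2 * (m + 1) := by positivity
    have h2 := mul_lt_mul_of_pos_left hr hm
    have h3 : (2 * (m + 1) : ℝ) * (3 / 2 - (d : ℝ) / (2 * (m + 1))) = 3 * (m + 1) - d := by
      field_simp
    rw [h3] at h2
    linarith
  exact (sum_sz D hE _ h1).comp_injective Subtype.val_injective

theorem U4_pos (d : ℕ) (hd : d ≤ 2 * (m + 1)) (r : ℝ)
    (hr : 3 / 2 - (d : ℝ) / (2 * (m + 1)) < r) : 0 < r := by
  have h1 : (d : ℝ) / (2 * (m + 1)) ≤ 1 := by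
    rw [div_le_one (by positivity)]
    exact_mod_cast hd
  linarith

theorem U4_sub (D : Ctx K m) (I' : Ideal (𝓞 K)) (hI : D.I ≤ I') (x : 𝓞 K) (hx : x ∈ D.X) :
    x ∈ XS I' D.c₀ := hI hx

theorem cont_summable (D : Ctx K m) (hE : Emb D.σ) (I' : Ideal (𝓞 K)) (hI : D.I ≤ I')
    (h0 : D.c₀ ∉ I') (w : ι → 𝓞 K) (hw : ∀ i, w i ∈ I') (hι : Fintype.card ι ≤ 2 * (m + 1))
    (G : 𝓞 K → ℂ) (hG : ∃ C : ℝ, ∀ x, ‖G x‖ ≤ C) (t : Fin (m + 1) → ℝ) (ht : ∀ i, 0 < t i) (s : ℂ)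
    (hs : 3 / 2 - (Fintype.card ι : ℝ) / (2 * (m + 1)) < s.re) :
    Summable fun x : D.X => ‖G x * Dif w Finset.univ (D.fs t s) x‖ := by
  obtain ⟨CG, hCG⟩ := hG
  obtain ⟨i₀, _, hi₀⟩ := Finset.exists_min_image (Finset.univ : Finset (Fin (m + 1))) t
    ⟨0, Finset.mem_univ 0⟩
  obtain ⟨i₁, _, hi₁⟩ := Finset.exists_max_image (Finset.univ : Finset (Fin (m + 1))) t
    ⟨0, Finset.mem_univ 0⟩
  have hr0 : 0 < s.re := U4_pos _ hι _ hs
  obtain ⟨C, hC0, hC⟩ := U4_bound D hE I' h0 w hw (t i₀) (t i₁) (ht i₀) s.re ‖s‖ hr0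
  have h1 := (U4_sum D hE (Fintype.card ι) s.re hs).mul_left (|CG| * C)
  refine Summable.of_nonneg_of_le (fun x => norm_nonneg _) (fun x => ?_) h1
  rw [norm_mul]
  have h2 := hC t (fun i => ⟨hi₀ i (Finset.mem_univ i), hi₁ i (Finset.mem_univ i)⟩) s le_rfl le_rfl
    x (U4_sub D I' hI x x.2)
  calc ‖G x‖ * ‖Dif w Finset.univ (D.fs t s) x‖
      ≤ |CG| * (C * D.sz x ^ (-(U4_e m (Fintype.card ι) s.re))) :=
        mul_le_mul ((hCG x).trans (le_abs_self _)) h2 (norm_nonneg _) (abs_nonneg _)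
    _ = _ := by ring

theorem U4_Qpos (D : Ctx K m) (t : Fin (m + 1) → ℝ) (ht : ∀ i, 0 < t i) (x : 𝓞 K)
    (hx : x ≠ 0) : 0 < D.Q t x := by
  unfold Ctx.Q
  refine Finset.sum_pos (fun i _ => ?_) ⟨0, Finset.mem_univ 0⟩
  refine mul_pos (ht i) (pow_pos ?_ 2)
  rw [norm_pos_iff, Ne, map_eq_zero]
  intro h
  exact hx (RingOfIntegers.coe_injective (h.trans (map_zero (algebraMap (𝓞 K) K)).symm))

theorem U4_tt_pos (lm : Fin (m + 1) → Fin m → ℝ) (z : Fin m → ℝ) (i : Fin (m + 1)) :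
    0 < tt lm z i := Real.exp_pos _

theorem U4_tt_cont (lm : Fin (m + 1) → Fin m → ℝ) (i : Fin (m + 1)) :
    Continuous fun z => tt lm z i := by
  unfold tt
  fun_prop

theorem U4_Q_cont (D : Ctx K m) (lm : Fin (m + 1) → Fin m → ℝ) (x : 𝓞 K) :
    Continuous fun z => D.Q (tt lm z) x := by
  unfold Ctx.Q
  exact continuous_finsetSum _ fun i _ => (U4_tt_cont lm i).mul continuous_const

/-- The values of tt on the cube. -/
theorem U4_tt_bd (lm : Fin (m + 1) → Fin m → ℝ) : ∃ a b : ℝ, 0 < a ∧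
    ∀ z ∈ Set.Icc (0 : Fin m → ℝ) 1, ∀ i, a ≤ tt lm z i ∧ tt lm z i ≤ b := by
  refine ⟨Real.exp (-(∑ i, ∑ j, |lm i j|)), Real.exp (∑ i, ∑ j, |lm i j|), Real.exp_pos _, ?_⟩
  intro z hz i
  have h1 : |∑ j, z j * lm i j| ≤ ∑ i, ∑ j, |lm i j| := by
    refine (Finset.abs_sum_le_sum_abs _ _).trans ?_
    refine le_trans (Finset.sum_le_sum (g := fun j => |lm i j|) fun j _ => ?_)
      (Finset.single_le_sum (f := fun i => ∑ j, |lm i j|)
        (fun i _ => Finset.sum_nonneg fun j _ => abs_nonneg _) (Finset.mem_univ i))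
    rw [abs_mul]
    have h2 : |z j| ≤ 1 := by
      rw [abs_of_nonneg (hz.1 j)]
      exact hz.2 j
    exact mul_le_of_le_one_left (abs_nonneg _) h2
  obtain ⟨h3, h4⟩ := abs_le.1 h1
  exact ⟨Real.exp_le_exp.2 h3, Real.exp_le_exp.2 h4⟩

theorem U4_fs_cont (D : Ctx K m) (lm : Fin (m + 1) → Fin m → ℝ) (x : 𝓞 K) (hx : x ≠ 0) (s : ℂ) :
    Continuous fun z => D.fs (tt lm z) s x := by
  unfold Ctx.fs
  refine continuous_const.mul ?_
  refine Continuous.cpow (Complex.continuous_ofReal.comp (U4_Q_cont D lm x)) continuous_const ?_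
  intro z
  exact Complex.ofReal_mem_slitPlane.2 (U4_Qpos D _ (U4_tt_pos lm z) x hx)

theorem U4_diff_int (Q : (Fin m → ℝ) → ℝ) (hQ : Continuous Q) (hpos : ∀ z, 0 < Q z) (n : ℂ)
    (S : Set (Fin m → ℝ)) (hS : IsCompact S) :
    Differentiable ℂ fun s : ℂ => ∫ z in S, (Q z : ℂ) ^ (-(n * s)) := by
  intro s₀
  have hQc : Continuous fun z => (Q z : ℂ) := Complex.continuous_ofReal.comp hQ
  have hslit : ∀ z, (Q z : ℂ) ∈ Complex.slitPlane := fun z =>
    Complex.ofReal_mem_slitPlane.2 (hpos z)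
  have hcF : ∀ s : ℂ, Continuous fun z => (Q z : ℂ) ^ (-(n * s)) := fun s =>
    Continuous.cpow hQc continuous_const hslit
  have hcF' : ∀ s : ℂ, Continuous fun z => (Q z : ℂ) ^ (-(n * s)) * Complex.log (Q z) * (-n) :=
    fun s => ((hcF s).mul (hQc.clog hslit)).mul continuous_const
  have hjoint : Continuous fun p : ℂ × (Fin m → ℝ) =>
      (Q p.2 : ℂ) ^ (-(n * p.1)) * Complex.log (Q p.2) * (-n) := by
    have h1 : Continuous fun p : ℂ × (Fin m → ℝ) => (Q p.2 : ℂ) := hQc.comp continuous_snd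
    have h2 : ∀ p : ℂ × (Fin m → ℝ), (Q p.2 : ℂ) ∈ Complex.slitPlane := fun p => hslit p.2
    refine (Continuous.mul (Continuous.cpow h1 (by fun_prop) h2) (h1.clog h2)).mul continuous_const
  obtain ⟨B, hB⟩ := ((isCompact_closedBall s₀ 1).prod hS).exists_bound_of_continuousOn
    hjoint.continuousOn
  have hfin : IsFiniteMeasure (volume.restrict S) :=
    ⟨by rw [Measure.restrict_apply_univ]; exact hS.measure_lt_top⟩
  have hmS : ∀ᵐ z ∂(volume.restrict S), z ∈ S := ae_restrict_mem hS.measurableSet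
  have key := hasDerivAt_integral_of_dominated_loc_of_deriv_le (μ := volume.restrict S)
    (F := fun s z => (Q z : ℂ) ^ (-(n * s)))
    (F' := fun s z => (Q z : ℂ) ^ (-(n * s)) * Complex.log (Q z) * (-n))
    (bound := fun _ => B) (x₀ := s₀) (Metric.closedBall_mem_nhds s₀ one_pos)
    (Filter.Eventually.of_forall fun s => (hcF s).aestronglyMeasurable)
    ((hcF s₀).continuousOn.integrableOn_compact hS)
    (hcF' s₀).aestronglyMeasurable
    (by
      filter_upwards [hmS] with z hz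
      intro s hs
      exact hB (s, z) ⟨hs, hz⟩)
    (integrable_const B)
    (by
      filter_upwards with z
      intro s _
      have h1 : HasDerivAt (fun s : ℂ => -(n * s)) (-n) s := by
        have h2 := ((hasDerivAt_id s).const_mul n).neg
        rw [mul_one] at h2
        exact h2
      exact h1.const_cpow (Or.inl (by
        rw [Ne, Complex.ofReal_eq_zero]
        exact (hpos z).ne')))
  exact key.2.differentiableAt

theorem U4_cube : IsCompact (Set.Icc (0 : Fin m → ℝ) 1) := isCompact_Icc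

omit [DecidableEq ι] in
/-- Each term is holomorphic. -/
theorem U4_term_diff (D : Ctx K m) (w : ι → 𝓞 K) (lm : Fin (m + 1) → Fin m → ℝ) (x : 𝓞 K)
    (hx : ∀ T : Finset ι, x - ∑ i ∈ T, w i ≠ 0) :
    Differentiable ℂ fun s : ℂ => ∫ z in Set.Icc (0 : Fin m → ℝ) 1,
      Dif w Finset.univ (D.fs (tt lm z) s) x := by
  have h1 : (fun s : ℂ => ∫ z in Set.Icc (0 : Fin m → ℝ) 1,
      Dif w Finset.univ (D.fs (tt lm z) s) x) = fun s : ℂ =>
      ∑ T ∈ (Finset.univ : Finset ι).powerset, (-1) ^ T.card *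
        ((starRingEnd ℂ) (D.N (x - ∑ i ∈ T, w i)) * ∫ z in Set.Icc (0 : Fin m → ℝ) 1,
          (D.Q (tt lm z) (x - ∑ i ∈ T, w i) : ℂ) ^ (-(((m + 1 : ℕ) : ℂ) * s))) := by
    funext s
    unfold Dif
    rw [integral_finsetSum]
    · refine Finset.sum_congr rfl fun T _ => ?_
      rw [integral_const_mul]
      congr 1
      unfold Ctx.fs
      rw [integral_const_mul]
    · intro T _
      exact ((U4_fs_cont D lm _ (hx T) s).continuousOn.integrableOn_compact U4_cube).const_mul _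
  rw [h1]
  refine Differentiable.fun_sum fun T _ => ?_
  refine (differentiable_const _).mul ((differentiable_const _).mul ?_)
  exact U4_diff_int _ (U4_Q_cont D lm _) (fun z => U4_Qpos D _ (U4_tt_pos lm z) _ (hx T)) _ _ U4_cube

omit [DecidableEq ι] in
theorem U4_Dif_cont (D : Ctx K m) (w : ι → 𝓞 K) (lm : Fin (m + 1) → Fin m → ℝ) (x : 𝓞 K)
    (hx : ∀ T : Finset ι, x - ∑ i ∈ T, w i ≠ 0) (s : ℂ) :
    Continuous fun z => Dif w Finset.univ (D.fs (tt lm z) s) x := by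
  unfold Dif
  exact continuous_finsetSum _ fun T _ => continuous_const.mul (U4_fs_cont D lm _ (hx T) s)

theorem U4_countable (D : Ctx K m) (hE : Emb D.σ) : Countable (𝓞 K) := by
  have h := (sum_sz D hE (2 * (m + 1) + 1) (by linarith)).countable_support
  have h2 : Function.support (fun x : 𝓞 K => D.sz x ^ (-(2 * (m + 1) + 1 : ℝ))) = Set.univ := by
    ext x
    simp only [Function.mem_support, Set.mem_univ, iff_true]
    exact (Real.rpow_pos_of_pos (D.sz_pos x) _).ne'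
  rw [h2] at h
  exact Set.countable_univ_iff.1 h

theorem cont_analytic (D : Ctx K m) (hE : Emb D.σ) (I' : Ideal (𝓞 K)) (hI : D.I ≤ I')
    (h0 : D.c₀ ∉ I') (w : ι → 𝓞 K) (hw : ∀ i, w i ∈ I') (hι : Fintype.card ι ≤ 2 * (m + 1))
    (G : 𝓞 K → ℂ) (hG : ∃ C : ℝ, ∀ x, ‖G x‖ ≤ C) (lm : Fin (m + 1) → Fin m → ℝ) :
    AnalyticOnNhd ℂ (fun s => ∫ z in Set.Icc (0 : Fin m → ℝ) 1,
      ∑' x : D.X, G x * Dif w Finset.univ (D.fs (tt lm z) s) x)
      {s | 3 / 2 - (Fintype.card ι : ℝ) / (2 * (m + 1)) < s.re} := by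
  obtain ⟨CG, hCG⟩ := hG
  obtain ⟨a, b, ha, hab⟩ := U4_tt_bd lm
  have hcount := U4_countable D hE
  have hstab : ∀ x ∈ XS I' D.c₀, ∀ T : Finset ι, x - ∑ i ∈ T, w i ≠ 0 := by
    intro x hx T h
    have h1 : x - D.c₀ ∈ I' := hx
    have h2 : ∑ i ∈ T, w i ∈ I' := I'.sum_mem fun i _ => hw i
    have h3 : D.c₀ = ∑ i ∈ T, w i - (x - D.c₀) := by
      rw [sub_eq_zero] at h
      rw [← h]
      ring
    exact h0 (h3 ▸ I'.sub_mem h2 h1)
  have hopen : IsOpen {s : ℂ | 3 / 2 - (Fintype.card ι : ℝ) / (2 * (m + 1)) < s.re} :=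
    isOpen_lt continuous_const Complex.continuous_re
  refine DifferentiableOn.analyticOnNhd ?_ hopen
  intro s₀ hs₀
  have hs₀' : 3 / 2 - (Fintype.card ι : ℝ) / (2 * (m + 1)) < s₀.re := hs₀
  obtain ⟨r, hr1, hr2⟩ := exists_between hs₀'
  have hr0 : 0 < r := U4_pos _ hι _ hr1
  obtain ⟨C, hC0, hC⟩ := U4_bound D hE I' h0 w hw a b ha r (‖s₀‖ + 1) hr0
  have hUopen : IsOpen ({s : ℂ | r < s.re} ∩ Metric.ball (0 : ℂ) (‖s₀‖ + 1)) :=
    (isOpen_lt continuous_const Complex.continuous_re).inter Metric.isOpen_ball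
  have hmem : s₀ ∈ ({s : ℂ | r < s.re} ∩ Metric.ball (0 : ℂ) (‖s₀‖ + 1)) :=
    ⟨hr2, by rw [mem_ball_zero_iff]; linarith⟩
  have hUprop : ∀ s ∈ ({s : ℂ | r < s.re} ∩ Metric.ball (0 : ℂ) (‖s₀‖ + 1)),
      r ≤ s.re ∧ ‖s‖ ≤ ‖s₀‖ + 1 := by
    intro s hs
    refine ⟨le_of_lt hs.1, ?_⟩
    have h1 := hs.2
    rw [mem_ball_zero_iff] at h1
    exact h1.le
  have hsum := (U4_sum D hE (Fintype.card ι) r hr1).mul_left (|CG| * C)
  have hterm : ∀ s ∈ ({s : ℂ | r < s.re} ∩ Metric.ball (0 : ℂ) (‖s₀‖ + 1)),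
      ∀ z ∈ Set.Icc (0 : Fin m → ℝ) 1, ∀ x : D.X,
      ‖G x * Dif w Finset.univ (D.fs (tt lm z) s) x‖ ≤
        |CG| * C * D.sz x ^ (-(U4_e m (Fintype.card ι) r)) := by
    intro s hs z hz x
    obtain ⟨h1, h2⟩ := hUprop s hs
    rw [norm_mul]
    calc ‖G x‖ * ‖Dif w Finset.univ (D.fs (tt lm z) s) x‖
        ≤ |CG| * (C * D.sz x ^ (-(U4_e m (Fintype.card ι) r))) :=
          mul_le_mul ((hCG x).trans (le_abs_self _))
            (hC (tt lm z) (hab z hz) s h1 h2 x (U4_sub D I' hI x x.2)) (norm_nonneg _)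
            (abs_nonneg _)
      _ = _ := by ring
  have hvol : (volume (Set.Icc (0 : Fin m → ℝ) 1)) = 1 := by
    rw [Real.volume_Icc_pi]
    simp
  have hvolr : volume.real (Set.Icc (0 : Fin m → ℝ) 1) = 1 := by
    rw [Measure.real, hvol, ENNReal.toReal_one]
  have hint : ∀ s : ℂ, ∀ x : D.X, IntegrableOn
      (fun z => G x * Dif w Finset.univ (D.fs (tt lm z) s) x) (Set.Icc (0 : Fin m → ℝ) 1) := by
    intro s x
    exact ((U4_Dif_cont D w lm x.1 (hstab x.1 (U4_sub D I' hI x x.2)) s).continuousOn.integrableOn_compact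
      U4_cube).const_mul _
  -- the exchange of the sum and the integral
  have hex : ∀ s ∈ ({s : ℂ | r < s.re} ∩ Metric.ball (0 : ℂ) (‖s₀‖ + 1)),
      (∫ z in Set.Icc (0 : Fin m → ℝ) 1,
        ∑' x : D.X, G x * Dif w Finset.univ (D.fs (tt lm z) s) x) =
      ∑' x : D.X, ∫ z in Set.Icc (0 : Fin m → ℝ) 1,
        G x * Dif w Finset.univ (D.fs (tt lm z) s) x := by
    intro s hs
    refine (hasSum_integral_of_summable_integral_norm (fun x : D.X => hint s x) ?_).tsum_eq.symm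
    refine Summable.of_nonneg_of_le (fun x => integral_nonneg fun z => norm_nonneg _)
      (fun x => ?_) hsum
    have h1 : (∫ z in Set.Icc (0 : Fin m → ℝ) 1,
        ‖G x * Dif w Finset.univ (D.fs (tt lm z) s) x‖) ≤
        ∫ _z in Set.Icc (0 : Fin m → ℝ) 1,
          |CG| * C * D.sz x ^ (-(U4_e m (Fintype.card ι) r)) := by
      refine setIntegral_mono_on (hint s x).norm ?_ measurableSet_Icc
        fun z hz => hterm s hs z hz x
      exact continuousOn_const.integrableOn_compact U4_cube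
    rw [setIntegral_const, hvolr, one_smul] at h1
    exact h1
  have hdiff : DifferentiableOn ℂ (fun s => ∑' x : D.X, ∫ z in Set.Icc (0 : Fin m → ℝ) 1,
        G x * Dif w Finset.univ (D.fs (tt lm z) s) x)
      ({s : ℂ | r < s.re} ∩ Metric.ball (0 : ℂ) (‖s₀‖ + 1)) := by
    refine Complex.differentiableOn_tsum_of_summable_norm hsum ?_ hUopen ?_
    · intro x
      have h1 : (fun s : ℂ => ∫ z in Set.Icc (0 : Fin m → ℝ) 1,
          G x * Dif w Finset.univ (D.fs (tt lm z) s) x) = fun s : ℂ =>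
          G x * ∫ z in Set.Icc (0 : Fin m → ℝ) 1, Dif w Finset.univ (D.fs (tt lm z) s) x := by
        funext s
        rw [integral_const_mul]
      rw [h1]
      exact ((U4_term_diff D w lm x.1 (hstab x.1 (U4_sub D I' hI x x.2))).const_mul _).differentiableOn
    · intro x s hs
      have h1 := norm_setIntegral_le_of_norm_le_const (μ := volume)
        (s := Set.Icc (0 : Fin m → ℝ) 1)
        (f := fun z => G x * Dif w Finset.univ (D.fs (tt lm z) s) x)
        (C := |CG| * C * D.sz x ^ (-(U4_e m (Fintype.card ι) r)))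
        (by rw [hvol]; exact ENNReal.one_lt_top) (fun z hz => hterm s hs z hz x)
      rw [hvolr, mul_one] at h1
      exact h1
  have hdiff2 : DifferentiableOn ℂ (fun s => ∫ z in Set.Icc (0 : Fin m → ℝ) 1,
        ∑' x : D.X, G x * Dif w Finset.univ (D.fs (tt lm z) s) x)
      ({s : ℂ | r < s.re} ∩ Metric.ball (0 : ℂ) (‖s₀‖ + 1)) :=
    hdiff.congr fun s hs => hex s hs
  exact (hdiff2.differentiableAt (hUopen.mem_nhds hmem)).differentiableWithinAt

end H55N
end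

-- from Lib.H55N.E2
section

open NumberField IsDedekindDomain

namespace H55N

open H55B

/-! Chunk E2 (M). The derivative of the duplication formula. x = wp z, y = wpd z, g = LL.g₃ = (wp 1)^3 <> 0 (A3_g3, A3_wp_one_ne), y^2 = 4x^3 - g (wp_ode), wpd' = 6 wp^2.
y <> 0: wp(2z) (4x^3-g) = x^4 + 2 g x (wp_double); if 4x^3 = g then 9 x^4 = 0, x = 0, g = 0. Near z: wp(2z) y^2 = x^4 + 2 g x holds identically; differentiate
(HasDerivAt wp (wpd z) z from Mathlib; wpd has derivative 6 wp^2: differentiate wpd^2 = 4wp^3 - g and divide by 2 wpd): 2 wpd(2z) y^2 + wp(2z) 12 x^2 y = (4x^3+2g) y. With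
X2 = wp(2z) = (x^4+2gx)/y^2 and g = 4x^3 - y^2 one gets wpd(2z) = -y + 18x^3/y - 54x^6/y^3 = -y + (6x^2/y)(x - X2) where X2 = -2x + 9x^4/y^2. -/

theorem E2_hasDerivAt {z : ℂ} (hz : z ∉ Lam) : HasDerivAt wp (wpd z) z := by
  have h := (A1_wp_analytic hz).differentiableAt.hasDerivAt
  have h1 : deriv wp z = wpd z := congrFun LL.deriv_weierstrassP z
  rwa [h1] at h

theorem E2_ne {z : ℂ} (h1 : z ∉ Lam) (h2 : 2 * z ∉ Lam) : wpd z ≠ 0 := by
  intro h
  have e1 := wp_ode z h1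
  have e2 := wp_double z h1 h2
  have hg : LL.g₃ ≠ 0 := by
    rw [A3_g3]
    exact pow_ne_zero 3 A3_wp_one_ne
  have e3 : 4 * wp z ^ 3 - LL.g₃ = 0 := by rw [← e1, h]; ring
  rw [e3, mul_zero] at e2
  have e4 : 9 * wp z ^ 4 = 0 := by linear_combination -e2 + 2 * wp z * e3
  have e5 : wp z = 0 := by
    rcases mul_eq_zero.1 e4 with h | h
    · norm_num at h
    · exact pow_eq_zero_iff (by norm_num) |>.1 h
  apply hg
  rw [e5] at e3
  linear_combination -e3

theorem wpd_double (z : ℂ) (h1 : z ∉ Lam) (h2 : 2 * z ∉ Lam) : wpd z ≠ 0 ∧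
    (wpd z + wpd (2 * z)) * wpd z = 6 * wp z ^ 2 * (wp z - wp (2 * z)) := by
  have hy := E2_ne h1 h2
  refine ⟨hy, ?_⟩
  have d1 := E2_hasDerivAt h1
  have d2 : HasDerivAt (fun v => wp (2 * v)) (wpd (2 * z) * 2) z := by
    have := E2_hasDerivAt h2
    have h3 : HasDerivAt (fun v : ℂ => 2 * v) 2 z := by
      simpa using (hasDerivAt_id z).const_mul 2
    exact this.comp z h3
  have f1 := d2.mul (((d1.pow 3).const_mul 4).sub_const LL.g₃)
  have f2 := (d1.pow 4).add (d1.const_mul (2 * LL.g₃))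
  have o1 : ∀ᶠ w in nhds z, w ∉ Lam := A1_open.mem_nhds h1
  have o2 : ∀ᶠ w in nhds z, 2 * w ∉ Lam :=
    (A1_open.preimage (f := fun w : ℂ => 2 * w) (by fun_prop)).mem_nhds h2
  have heq : (fun v => wp v ^ 4 + 2 * LL.g₃ * wp v) =ᶠ[nhds z]
      fun v => wp (2 * v) * (4 * wp v ^ 3 - LL.g₃) := by
    filter_upwards [o1, o2] with v h3 h4
    exact (wp_double v h3 h4).symm
  have f3 := f1.congr_of_eventuallyEq heq
  have f4 := f3.unique f2
  have e1 := wp_ode z h1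
  have e2 := wp_double z h1 h2
  have e3 : wpd z * ((wpd z + wpd (2 * z)) * wpd z -
      6 * wp z ^ 2 * (wp z - wp (2 * z))) = 0 := by
    simp only [Nat.cast_ofNat, Nat.add_one_sub_one, Pi.pow_apply] at f4
    linear_combination (1 / 2) * f4 + (wpd z + wpd (2 * z)) * e1
  rcases mul_eq_zero.1 e3 with h | h
  · exact absurd h hy
  · linear_combination h

end H55N
end

-- from Lib.H55N.E5
section

open NumberField IsDedekindDomain

namespace H55N

open H55B

/-! Chunk E5 (M). Integrality above 2 at points of odd order. Let X(w) = 9 wp(w)/R0^2, Y(w) = 27 wpd(w)/R0^3; R0^2 = 3 wp(1) (R0 wp(1) = wpd(1), wpd(1)^2 = 3 wp(1)^3: see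
exists_X and A3_g3), R0 <> 0; so X(2w)(4X(w)^3 - 27) = X(w)^4 + 54 X(w) (wp_double) and Y^2 = 4X^3 - 27 (wp_ode, g₃ = wp(1)^3).
V = valuation with v(2) < 1. For w of odd order not in Lam all 2^i w are not in Lam, and 2^r w = w mod Lam for some r > 0 (2 is invertible modulo k). If v(X(w)) > 1 then
v(4X^3 - 27) <= max(v(4) v(X)^3, 1) and v(X^4+54X) = v(X)^4, so v(X(2w)) >= v(X)^4/max(v(4)v(X)^3, 1) > v(X), > 1; by induction v(X(2^i w)) is strictly increasing, contradicting periodicity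
(X(w + 3y) = X(w)). So v(X) <= 1, v(4X^3) < 1 = v(27), v(Y) = 1, and 3 wp^2/wpd/R0 = X^2/Y is integral. -/

theorem E5_int_mul {z : ℂ} (h : z ∈ Lam) (a : ℤ) : (a : ℂ) * z ∈ Lam := by
  obtain ⟨y, hy⟩ := h
  refine ⟨a * y, ?_⟩
  rw [hy, map_mul, map_intCast]
  ring

theorem E5_mem {z : ℂ} {n k : ℕ} (hc : Nat.Coprime n k) (h1 : (n : ℂ) * z ∈ Lam)
    (h2 : (k : ℂ) * z ∈ Lam) : z ∈ Lam := by
  obtain ⟨a, b, hab⟩ := Nat.isCoprime_iff_coprime.2 hc
  have h3 := A1_add_mem (E5_int_mul h1 a) (E5_int_mul h2 b)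
  have h4 : (a : ℂ) * ((n : ℂ) * z) + (b : ℂ) * ((k : ℂ) * z) = z := by
    have h5 : ((a * n + b * k : ℤ) : ℂ) = 1 := by rw [hab, Int.cast_one]
    push_cast at h5
    linear_combination z * h5
  rwa [h4] at h3

theorem E5_pow {k : ℕ} (hk : Odd k) : ∃ r : ℕ, 0 < r ∧ ∃ q : ℕ, 2 ^ r = 1 + k * q := by
  have hc : Nat.Coprime 2 k := (Nat.coprime_two_left).2 hk
  have hk0 : 0 < k := hk.pos
  refine ⟨k.totient, Nat.totient_pos.2 hk0, ?_⟩
  have h := (Nat.ModEq.pow_totient hc).symm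
  have h1 : k ∣ 2 ^ k.totient - 1 := (Nat.modEq_iff_dvd' Nat.one_le_two_pow).1 h
  obtain ⟨q, hq⟩ := h1
  refine ⟨q, ?_⟩
  rw [← hq]
  have : 1 ≤ 2 ^ k.totient := Nat.one_le_two_pow
  omega

theorem E5_pow_mem {z : ℂ} {k : ℕ} (hk : Odd k) (hz : z ∉ Lam) (hkz : (k : ℂ) * z ∈ Lam)
    (i : ℕ) : (2 : ℂ) ^ i * z ∉ Lam := by
  intro h
  apply hz
  have hc : Nat.Coprime (2 ^ i) k := Nat.Coprime.pow_left i ((Nat.coprime_two_left).2 hk)
  refine E5_mem hc ?_ hkz
  push_cast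
  exact h

theorem E5_R0 : R0 ^ 2 = 3 * wp 1 ∧ R0 ≠ 0 := by
  have hx := A3_wp_one_ne
  have hR0 : R0 * wp 1 = wpd 1 := by
    have h1 := R_identity (e om - 1) A3_n1 A3_n2 A3_n3
    rwa [wp_zero_at, sub_zero] at h1
  have h2 := wp_ode 1 A1_one_notMem
  rw [A3_g3, ← hR0] at h2
  have h3 : wp 1 ^ 2 * (R0 ^ 2 - 3 * wp 1) = 0 := by linear_combination h2
  have h4 : R0 ^ 2 = 3 * wp 1 := by
    rcases mul_eq_zero.1 h3 with h | h
    · exact absurd h (pow_ne_zero 2 hx)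
    · linear_combination h
  refine ⟨h4, ?_⟩
  intro h
  rw [h] at h4
  apply hx
  linear_combination -(1 / 3) * h4

/-- The normalised coordinates. -/
noncomputable def E5_X (w : ℂ) : ℂ := 9 * wp w / R0 ^ 2

noncomputable def E5_Y (w : ℂ) : ℂ := 27 * wpd w / R0 ^ 3

theorem E5_dup {w : ℂ} (h1 : w ∉ Lam) (h2 : 2 * w ∉ Lam) :
    E5_X (2 * w) * (4 * E5_X w ^ 3 - 27) = E5_X w ^ 4 + 54 * E5_X w := by
  obtain ⟨hR, hR0⟩ := E5_R0
  have hx := A3_wp_one_ne
  have h3 := wp_double w h1 h2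
  rw [A3_g3] at h3
  unfold E5_X
  rw [hR]
  have h4 : wp (2 * w) * (4 * wp w ^ 3 - wp 1 ^ 3) * 81 / wp 1 ^ 4 =
    (wp w ^ 4 + 2 * wp 1 ^ 3 * wp w) * 81 / wp 1 ^ 4 := by rw [h3]
  have e1 : 9 * wp (2 * w) / (3 * wp 1) * (4 * (9 * wp w / (3 * wp 1)) ^ 3 - 27) =
    wp (2 * w) * (4 * wp w ^ 3 - wp 1 ^ 3) * 81 / wp 1 ^ 4 := by
    field_simp
    ring
  have e2 : (9 * wp w / (3 * wp 1)) ^ 4 + 54 * (9 * wp w / (3 * wp 1)) =
    (wp w ^ 4 + 2 * wp 1 ^ 3 * wp w) * 81 / wp 1 ^ 4 := by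
    field_simp
    ring
  rw [e1, e2, h4]

theorem E5_ode {w : ℂ} (h1 : w ∉ Lam) : E5_Y w ^ 2 = 4 * E5_X w ^ 3 - 27 := by
  obtain ⟨hR, hR0⟩ := E5_R0
  have hx := A3_wp_one_ne
  have h3 := wp_ode w h1
  rw [A3_g3] at h3
  have e1 : E5_Y w ^ 2 = 27 * wpd w ^ 2 / wp 1 ^ 3 := by
    unfold E5_Y
    have : (27 * wpd w / R0 ^ 3) ^ 2 = 729 * wpd w ^ 2 / (R0 ^ 2) ^ 3 := by
      field_simp
      ring
    rw [this, hR]
    field_simp
    ring
  rw [e1, h3]
  unfold E5_X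
  rw [hR]
  field_simp
  ring

theorem E5_target {w : ℂ} (hy : wpd w ≠ 0) :
    3 * wp w ^ 2 / wpd w / R0 = E5_X w ^ 2 / E5_Y w := by
  obtain ⟨hR, hR0⟩ := E5_R0
  unfold E5_X E5_Y
  field_simp
  ring

theorem E5_step (V : ValuationSubring ℂ) (hV : V.valuation 2 < 1) {w : ℂ} (h1 : w ∉ Lam)
    (h2 : 2 * w ∉ Lam) (hX : 1 < V.valuation (E5_X w)) :
    V.valuation (E5_X w) < V.valuation (E5_X (2 * w)) := by
  set ξ := V.valuation (E5_X w) with hξ
  have hd := congrArg V.valuation (E5_dup h1 h2)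
  rw [map_mul] at hd
  have v4 : V.valuation 4 < 1 := by
    have := val_even V hV 4 (by decide)
    exact_mod_cast this
  have v54 : V.valuation 54 < 1 := by
    have := val_even V hV 54 (by decide)
    exact_mod_cast this
  have v27 : V.valuation 27 = 1 := by
    have := val_odd V hV 27 (by decide)
    exact_mod_cast this
  have hξ0 : 0 < ξ := zero_lt_one.trans hX
  have hx3 : 1 < ξ ^ 3 := one_lt_pow₀ hX (by norm_num)
  have a1 : V.valuation (4 * E5_X w ^ 3 - 27) < ξ ^ 3 := by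
    refine (Valuation.map_sub _ _ _).trans_lt (max_lt ?_ ?_)
    · rw [map_mul, map_pow, ← hξ]
      exact mul_lt_of_lt_one_left (zero_lt_one.trans hx3) v4
    · rw [v27]
      exact hx3
  have a2 : V.valuation (E5_X w ^ 4 + 54 * E5_X w) = ξ ^ 4 := by
    have h3 : V.valuation (54 * E5_X w) < V.valuation (E5_X w ^ 4) := by
      rw [map_mul, map_pow, ← hξ]
      calc V.valuation 54 * ξ < ξ := mul_lt_of_lt_one_left hξ0 v54
        _ = 1 * ξ := (one_mul _).symm
        _ ≤ ξ ^ 3 * ξ := by gcongr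
        _ = ξ ^ 4 := (pow_succ _ _).symm
    rw [Valuation.map_add_eq_of_lt_left _ h3, map_pow]
  rw [a2] at hd
  by_contra hcon
  push Not at hcon
  have h5 : V.valuation (E5_X (2 * w)) * V.valuation (4 * E5_X w ^ 3 - 27) < ξ ^ 4 := by
    calc V.valuation (E5_X (2 * w)) * V.valuation (4 * E5_X w ^ 3 - 27)
        ≤ ξ * V.valuation (4 * E5_X w ^ 3 - 27) := by gcongr
      _ < ξ * ξ ^ 3 := by
          rw [mul_comm, mul_comm ξ]
          exact (mul_lt_mul_iff_left₀ hξ0).2 a1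
      _ = ξ ^ 4 := (pow_succ' _ _).symm
  rw [hd] at h5
  exact lt_irrefl _ h5

theorem E5_per (w : ℂ) (y : O) : E5_X (w + 3 * e y) = E5_X w := by
  unfold E5_X
  rw [wp_per]

theorem E5_le (V : ValuationSubring ℂ) (hV : V.valuation 2 < 1) (z : ℂ) (hz : z ∉ Lam) (k : ℕ)
    (hk : Odd k) (hkz : (k : ℂ) * z ∈ Lam) : V.valuation (E5_X z) ≤ 1 := by
  by_contra hcon
  push Not at hcon
  have hmem := E5_pow_mem hk hz hkz
  have hstep : ∀ i : ℕ, 1 < V.valuation (E5_X ((2 : ℂ) ^ i * z)) →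
      V.valuation (E5_X ((2 : ℂ) ^ i * z)) < V.valuation (E5_X ((2 : ℂ) ^ (i + 1) * z)) := by
    intro i hi
    have e1 : (2 : ℂ) ^ (i + 1) * z = 2 * ((2 : ℂ) ^ i * z) := by ring
    rw [e1]
    refine E5_step V hV (hmem i) ?_ hi
    rw [← e1]
    exact hmem (i + 1)
  have hall : ∀ i : ℕ, V.valuation (E5_X z) < V.valuation (E5_X ((2 : ℂ) ^ (i + 1) * z)) := by
    intro i
    induction i with
    | zero =>
      have := hstep 0 (by simpa using hcon)
      simpa using this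
    | succ i ih => exact ih.trans (hstep (i + 1) (hcon.trans ih))
  obtain ⟨r, hr, q, hq⟩ := E5_pow hk
  obtain ⟨y, hy⟩ := hkz
  obtain ⟨s, rfl⟩ : ∃ s, r = s + 1 := ⟨r - 1, by omega⟩
  have h1 := hall s
  have h2 : (2 : ℂ) ^ (s + 1) * z = z + 3 * e (q * y) := by
    have h3 : ((2 ^ (s + 1) : ℕ) : ℂ) = ((1 + k * q : ℕ) : ℂ) := by rw [hq]
    push_cast at h3
    rw [h3, map_mul, map_natCast]
    linear_combination (q : ℂ) * hy
  rw [h2, E5_per] at h1
  exact lt_irrefl _ h1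

theorem int_point (z : ℂ) (hz : z ∉ Lam) (k : ℕ) (hk : Odd k) (hkz : (k : ℂ) * z ∈ Lam) :
    Int2 (3 * wp z ^ 2 / wpd z / R0) := by
  intro V hV
  have hmem := E5_pow_mem hk hz hkz
  have h2 : 2 * z ∉ Lam := by
    have := hmem 1
    rwa [pow_one] at this
  rw [E5_target (wpd_double z hz h2).1, map_div₀, map_pow]
  have hX := E5_le V hV z hz k hk hkz
  have v4 : V.valuation 4 < 1 := by
    have := val_even V hV 4 (by decide)
    exact_mod_cast this
  have v27 : V.valuation 27 = 1 := by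
    have := val_odd V hV 27 (by decide)
    exact_mod_cast this
  have h3 : V.valuation (4 * E5_X z ^ 3) < V.valuation 27 := by
    rw [v27, map_mul, map_pow]
    exact mul_lt_one_of_lt_of_le v4 (pow_le_one' hX 3)
  have h4 : V.valuation (E5_Y z) ^ 2 = 1 := by
    rw [← map_pow, E5_ode hz, Valuation.map_sub_eq_of_lt_right _ h3, v27]
  have h5 : V.valuation (E5_Y z) = 1 := by
    rcases lt_trichotomy (V.valuation (E5_Y z)) 1 with h | h | h
    · have := pow_lt_one₀ zero_le h two_ne_zero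
      rw [h4] at this
      exact absurd this (lt_irrefl _)
    · exact h
    · have := one_lt_pow₀ h two_ne_zero
      rw [h4] at this
      exact absurd this (lt_irrefl _)
  rw [h5, div_one]
  exact pow_le_one' hX 2

end H55N
end
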