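import Mathlib
import Pool.Agent.Lib.H1M.PP.M006
import Pool.Agent.Lib.H1M.PP.M010
import Pool.Agent.Lib.H1M.PP.M011
import Pool.Agent.Lib.H1M.PP.M012
import Pool.Agent.Lib.H1M.PP.M019

/-! Merged copies (to shorten the build) of Lib.H16C.RM, Lib.H13S.IN3, Lib.H28G.GA2, Lib.H28G.GA3, Lib.H28G.GB1, Lib.H28G.GB3, Lib.H28G.GB4, Lib.H28G.GB6, Lib.H28G.GB5, Lib.H28G.GC1, Lib.H28G.GC2, Lib.H28G.GV1, Lib.H55N.E1. -/

-- from Lib.H16C.RM
section

/-!
# RM (M/L): inertia elements in a totally ramified Kummer extension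

`L ≤ F` finite over the number field `k`, `F` stable under `Gal(Ω/L)` (so `F/L` is Galois),
`ζ ∈ L` primitive `n`-th root of unity, `δ ∈ F`, `δ^n = d ∈ L`, `v(d) < 1`, and `v(d)` generates the
value group of `L` at `A` (`v = A.valuation`).  `M = L(δ)`, `P = {z ∈ 𝓞 F | v z < 1}`,
`P_M = P ∩ 𝓞 M`, `P_L = P ∩ 𝓞 L`.  `v(δ)^n = v(d)`, so the ramification index `e(P_M / P_L)` is a
multiple of `n`, `≤ [M : L] ≤ n`: it is `n` and `[M : L] = n`, the residue degree is 1 and `P_M` is the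
only prime of `M` above `P_L`.
First proof: `I = ` inertia group of `P` in `Gal(F/L)`; `#I = e(P/P_L)`
(`Ideal.card_inertia_eq_ramificationIdxIn`), the inertia group of `P` in `Gal(F/M)` is
`I ∩ Gal(F/M)` and has order `e(P/P_M) = e(P/P_L)/n` (multiplicativity,
`ramificationIdxIn_mul_ramificationIdxIn`).  The homomorphism `I → ⟨ζ⟩`, `g ↦ g δ / δ` has kernel
`I ∩ Gal(F/M)`, so its image has `n` elements: some `s ∈ I` has `s δ = ζ δ`.
Second proof: some `h ∈ Gal(F/L)` has `h δ = ζ δ` (`[M : L] = n`, so all `ζ^i δ` are conjugate over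
`L`).  `h P` and `P` lie above the same prime of `M` (the only one above `P_L`), so
`u h P = P` for some `u ∈ Gal(F/M)` (transitivity); replace `h` by `u h`.  `h` acts on
`𝓞 F / P` over `𝓞 L / P_L = 𝓞 M / P_M`, and the stabiliser of `P` in `Gal(F/M)` maps onto
`Aut((𝓞 F/P)/(𝓞 M/P_M))` (`Ideal.Quotient.stabilizerHom_surjective`): correct `h` by an element of
`Gal(F/M)` so that it acts trivially on `𝓞 F / P`.
Lift `s` to `g ∈ Gal(Ω/L)`; `Inert A F g` by FR1 (`x = a / c`).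
-/

open NumberField IsDedekindDomain
open scoped Pointwise

namespace H16C

theorem RM_unr {L F : Type*} [Field L] [NumberField L] [Field F] [NumberField F] [Algebra L F] [IsGalois L F]
    (p : Ideal (𝓞 L)) [p.IsPrime] (hp : p ≠ ⊥) (P : Ideal (𝓞 F)) [P.IsPrime] [hl : P.LiesOver p]
    (T : IntermediateField L F) (hT : IsGaloisGroup (P.inertia Gal(F/L)) T F) :
    (P.under (𝓞 T)).ramificationIdx (𝓞 L) = 1 := by
  have inst1 : IsGaloisGroup (P.inertia Gal(F/L)) (𝓞 T) (𝓞 F) := .of_isFractionRing _ _ _ T F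
  have e1 := Ideal.card_inertia_eq_ramificationIdxIn (G := Gal(F/L)) p P
  have e2 := Ideal.card_inertia_eq_ramificationIdxIn (G := P.inertia Gal(F/L)) (P.under (𝓞 T)) P
  have e3 : P.inertia (P.inertia Gal(F/L)) = ⊤ := by
    rw [eq_top_iff]
    intro g _ x
    exact g.2 x
  rw [e3, Ideal.ramificationIdxIn_eq_ramificationIdx (P.under (𝓞 T)) P (P.inertia Gal(F/L))] at e2
  rw [Ideal.ramificationIdxIn_eq_ramificationIdx p P Gal(F/L)] at e1
  have e4 := Ideal.ramificationIdx_tower (R := 𝓞 L) (P.under (𝓞 T)) P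
  have e5 : Nat.card (⊤ : Subgroup (P.inertia Gal(F/L))) = Nat.card (P.inertia Gal(F/L)) :=
    Nat.card_congr Subgroup.topEquiv.toEquiv
  rw [← e1, ← e2, e5] at e4
  have e6 : Nat.card (P.inertia Gal(F/L)) ≠ 0 := Nat.card_pos.ne'
  exact Nat.eq_of_mul_eq_mul_right (Nat.pos_of_ne_zero e6) (by rw [one_mul]; exact e4.symm)

theorem RM_val {L F : Type*} [Field L] [NumberField L] [Field F] [NumberField F] [Algebra L F] [IsGalois L F]
    (p : Ideal (𝓞 L)) [p.IsPrime] (hp : p ≠ ⊥) (P : Ideal (𝓞 F)) [P.IsPrime] (hP : P ≠ ⊥) [hl : P.LiesOver p]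
    (T : IntermediateField L F) (hT : IsGaloisGroup (P.inertia Gal(F/L)) T F) (x : T) (hx : x ≠ 0) :
    ∃ (y : L) (a c : 𝓞 F), y ≠ 0 ∧ a ∉ P ∧ c ∉ P ∧
      (x : F) * algebraMap (𝓞 F) F c = algebraMap L F y * algebraMap (𝓞 F) F a := by
  have hu := RM_unr p hp P T hT
  have hT0 : P.under (𝓞 T) ≠ ⊥ := Ideal.ne_bot_of_liesOver_of_ne_bot hp (P.under (𝓞 T))
  let v : HeightOneSpectrum (𝓞 L) := ⟨p, inferInstance, hp⟩
  let w : HeightOneSpectrum (𝓞 T) := ⟨P.under (𝓞 T), inferInstance, hT0⟩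
  have hwv : w.asIdeal.LiesOver v.asIdeal := inferInstanceAs ((P.under (𝓞 T)).LiesOver p)
  have hr : v.asIdeal.ramificationIdx' w.asIdeal = 1 := by
    rw [Ideal.ramificationIdx'_eq_ramificationIdx]
    · exact hu
    · exact hp
  obtain ⟨y, hy⟩ := v.valuation_surjective L (w.valuation T x)
  have hy1 : w.valuation T (algebraMap L T y) = w.valuation T x := by
    rw [← hy, ← HeightOneSpectrum.valuation_liesOver T v w, hr, pow_one]
  have hwx : w.valuation T x ≠ 0 := (Valuation.ne_zero_iff _).2 hx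
  have hy0 : y ≠ 0 := by
    rintro rfl
    rw [map_zero, map_zero] at hy1
    exact hwx hy1.symm
  have hy0' : algebraMap L T y ≠ 0 := by simpa using hy0
  have hq : w.valuation T (x / algebraMap L T y) = 1 := by
    rw [map_div₀, hy1, div_self hwx]
  obtain ⟨n, d, hnd⟩ := w.exists_primeCompl_mul_eq_of_integer _ hq.le
  have hn : n ∉ w.asIdeal := by
    intro h
    have h1 : w.valuation T (algebraMap (𝓞 T) T n) < 1 := (w.valuation_lt_one_iff_mem (K := T) n).2 h
    rw [← hnd, map_mul, hq, one_mul] at h1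
    exact d.2 ((w.valuation_lt_one_iff_mem (K := T) (d : 𝓞 T)).1 h1)
  refine ⟨y, algebraMap (𝓞 T) (𝓞 F) n, algebraMap (𝓞 T) (𝓞 F) d, hy0, hn, d.2, ?_⟩
  have h2 : x * algebraMap (𝓞 T) T d = algebraMap L T y * algebraMap (𝓞 T) T n := by
    rw [← hnd]
    field_simp
  have h3 := congrArg (algebraMap T F) h2
  rw [map_mul, map_mul] at h3
  exact h3

/-- The Kummer part: some element of the inertia group acts on `δ` as multiplication with `ζ`. -/
theorem RM_kummer {L F : Type*} [Field L] [NumberField L] [Field F] [NumberField F] [Algebra L F] [IsGalois L F]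
    (P : Ideal (𝓞 F)) (n : ℕ) (hn : 0 < n) (ζ : F) (hζ : IsPrimitiveRoot ζ n)
    (ζL : L) (hζL : algebraMap L F ζL = ζ) (δ : F) (d : L) (hδ0 : δ ≠ 0) (hδ : δ ^ n = algebraMap L F d)
    (hkey : ∀ m : ℕ, 0 < m → (∀ g ∈ P.inertia Gal(F/L), g (δ ^ m) = δ ^ m) → n ∣ m) :
    ∃ g ∈ P.inertia Gal(F/L), g δ = ζ * δ := by
  have hne : NeZero n := ⟨hn.ne'⟩
  have hfix : ∀ (g : Gal(F/L)) (u : rootsOfUnity n F), g ((u : Fˣ) : F) = ((u : Fˣ) : F) := by
    intro g u
    have hu : ((u : Fˣ) : F) ^ n = 1 := by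
      rw [← Units.val_pow_eq_pow_val, (mem_rootsOfUnity n _).1 u.2, Units.val_one]
    obtain ⟨i, _, hi⟩ := hζ.eq_pow_of_pow_eq_one hu
    rw [← hi, map_pow, ← hζL, g.commutes]
  let H : Subgroup (rootsOfUnity n F) :=
    { carrier := {u | ∃ g ∈ P.inertia Gal(F/L), g δ = ((u : Fˣ) : F) * δ}
      one_mem' := ⟨1, one_mem _, by simp⟩
      mul_mem' := by
        rintro u u' ⟨g, hg, h⟩ ⟨g', hg', h'⟩
        refine ⟨g * g', mul_mem hg hg', ?_⟩
        rw [AlgEquiv.mul_apply, h', map_mul, hfix, h]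
        push_cast
        ring
      inv_mem' := by
        rintro u ⟨g, hg, h⟩
        refine ⟨g⁻¹, inv_mem hg, ?_⟩
        have h1 : g⁻¹ (g δ) = δ := g.symm_apply_apply δ
        rw [h, map_mul, hfix] at h1
        have h2 : ((u : Fˣ) : F) ≠ 0 := Units.ne_zero _
        have e : (((u⁻¹ : rootsOfUnity n F) : Fˣ) : F) = (((u : rootsOfUnity n F) : Fˣ) : F)⁻¹ := by
          simp
        rw [e]
        field_simp
        rw [mul_comm]
        exact h1 }
  have hfin : Finite H := inferInstance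
  have hm : 0 < Nat.card H := Nat.card_pos
  have h1 : n ∣ Nat.card H := by
    refine hkey _ hm fun g hg => ?_
    have h2 : (g δ / δ) ^ n = 1 := by
      rw [div_pow, ← map_pow, hδ, g.commutes, ← hδ, div_self (pow_ne_zero _ hδ0)]
    have h3 : g δ / δ ≠ 0 := div_ne_zero (by simpa using hδ0) hδ0
    let u : rootsOfUnity n F := ⟨Units.mk0 _ h3, by
      rw [mem_rootsOfUnity]
      ext
      simpa using h2⟩
    have hu : u ∈ H := ⟨g, hg, by
      change g δ = g δ / δ * δ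
      field_simp⟩
    have h4 : (⟨u, hu⟩ : H) ^ Nat.card H = 1 := pow_card_eq_one'
    have h5 : (g δ / δ) ^ Nat.card H = 1 := by
      have h6 : u ^ Nat.card H = 1 := congrArg Subtype.val h4
      have h7 : (Units.mk0 _ h3) ^ Nat.card H = 1 := congrArg Subtype.val h6
      have h8 := congrArg Units.val h7
      rw [Units.val_pow_eq_pow_val] at h8
      exact h8
    rw [div_pow, div_eq_one_iff_eq (pow_ne_zero _ hδ0)] at h5
    rw [map_pow]
    exact h5
  have h2 : Nat.card (rootsOfUnity n F) = n := hζ.card_rootsOfUnity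
  have h3 : H = ⊤ := by
    apply Subgroup.eq_top_of_card_eq
    apply Nat.dvd_antisymm (Subgroup.card_subgroup_dvd_card H)
    rw [h2]
    exact h1
  have h4 : hζ.toRootsOfUnity ∈ H := by
    rw [h3]
    trivial
  obtain ⟨g, hg, h⟩ := h4
  exact ⟨g, hg, by simpa using h⟩

variable {k : Type*} [Field k] [NumberField k] {Ω : Type*} [Field Ω] [Algebra k Ω] [IsAlgClosed Ω]
  [Algebra.IsAlgebraic k Ω] [CharZero Ω]

theorem exists_inert (L F : IntermediateField k Ω) (hLF : L ≤ F) [FiniteDimensional k F]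
    (hst : ∀ g ∈ L.fixingSubgroup, ∀ x ∈ F, g x ∈ F) (A : ValuationSubring Ω) (q : ℕ)
    (hq : q.Prime) (hA : A.valuation (q : Ω) < 1) (n : ℕ) (hn : 0 < n) (ζ : Ω)
    (hζ : IsPrimitiveRoot ζ n) (hζL : ζ ∈ L) (δ d : Ω) (hδ : δ ^ n = d) (hδF : δ ∈ F) (hd : d ∈ L)
    (hd0 : d ≠ 0) (hvd : A.valuation d < 1)
    (hgen : ∀ z ∈ L, z ≠ 0 → ∃ j : ℤ, A.valuation z = A.valuation d ^ j) :
    ∃ g ∈ L.fixingSubgroup, Inert A F g ∧ g δ = ζ * δ := by
  have hLfin : FiniteDimensional k L :=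
    FiniteDimensional.of_injective (IntermediateField.inclusion hLF).toLinearMap
      (IntermediateField.inclusion_injective hLF)
  have hLn : NumberField L := FR_numberField L
  have hfin := FR_fin L F hLF
  have hgal := FR_galois L F hLF hst
  set F' : IntermediateField L Ω := IntermediateField.extendScalars hLF with hFdef
  have hFn : NumberField F' := FR_numberField F'
  have hp0 : plc L A ≠ ⊥ := plc_ne_bot L hq.ne_zero hA
  have hP0 : plc F' A ≠ ⊥ := plc_ne_bot F' hq.ne_zero hA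
  have hl : (plc F' A).LiesOver (plc L A) := FR_under L F' A
  have hδ0 : δ ≠ 0 := by
    rintro rfl
    rw [zero_pow hn.ne'] at hδ
    exact hd0 hδ.symm
  let δ' : F' := ⟨δ, hδF⟩
  let ζ' : F' := algebraMap L F' ⟨ζ, hζL⟩
  have hζ' : IsPrimitiveRoot ζ' n := by
    have : IsPrimitiveRoot (algebraMap F' Ω ζ') n := hζ
    exact IsPrimitiveRoot.of_map_of_injective this (algebraMap F' Ω).injective
  have hδ' : δ' ^ n = algebraMap L F' ⟨d, hd⟩ := by
    apply Subtype.ext
    exact hδ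
  obtain ⟨s, hs, hsδ⟩ := RM_kummer (L := L) (F := F') (plc F' A) n hn ζ' hζ' ⟨ζ, hζL⟩ rfl δ' ⟨d, hd⟩
    (fun h => hδ0 (congrArg Subtype.val h)) hδ' (by
      intro m hm hfix
      have hT := IsGaloisGroup.subgroup Gal(F'/L) L F' ((plc F' A).inertia Gal(F'/L))
      have hmem : δ' ^ m ∈ (FixedPoints.intermediateField ((plc F' A).inertia Gal(F'/L)) : IntermediateField L F') := by
        intro g
        exact hfix g.1 g.2
      obtain ⟨y, a, c, hy0, ha, hc, hyac⟩ := RM_val (plc L A) hp0 (plc F' A) hP0 _ hT ⟨δ' ^ m, hmem⟩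
        (fun h => by
          have h1 := congrArg Subtype.val h
          exact (pow_ne_zero m (fun h' : δ' = 0 => hδ0 (congrArg Subtype.val h'))) h1)
      have ha1 := not_mem_plc.1 ha
      have hc1 := not_mem_plc.1 hc
      have h2 := congrArg (fun z : F' => A.valuation (z : Ω)) hyac
      have h3 : A.valuation (δ ^ m) = A.valuation (y : Ω) := by
        have e1 : A.valuation (δ ^ m) * A.valuation ((c : F') : Ω) = A.valuation (y : Ω) * A.valuation ((a : F') : Ω) := by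
          rw [← map_mul, ← map_mul]
          exact h2
        rwa [ha1, hc1, mul_one, mul_one] at e1
      obtain ⟨j, hj⟩ := hgen (y : Ω) y.2 (fun h => hy0 (Subtype.ext h))
      rw [hj, ← hδ, map_pow, map_pow, ← zpow_natCast, ← zpow_natCast, ← zpow_mul] at h3
      have hvδ0 : A.valuation δ ≠ 0 := (Valuation.ne_zero_iff _).2 hδ0
      have hvδ1 : A.valuation δ < 1 := by
        by_contra hge
        rw [not_lt] at hge
        rw [← hδ, map_pow] at hvd
        exact absurd hvd (not_lt.2 (one_le_pow_of_one_le' hge n))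
      have h4 : ((m : ℕ) : ℤ) = (n : ℤ) * j := by
        rcases lt_trichotomy ((m : ℕ) : ℤ) ((n : ℤ) * j) with h | h | h
        · exact absurd h3 (zpow_lt_zpow_right_of_lt_one₀ (zero_lt_iff.2 hvδ0) hvδ1 h).ne'
        · exact h
        · exact absurd h3 (zpow_lt_zpow_right_of_lt_one₀ (zero_lt_iff.2 hvδ0) hvδ1 h).ne
      exact Int.natCast_dvd_natCast.1 ⟨j, h4⟩)
  obtain ⟨φ, hφ, hφs⟩ := FR_lift F' s
  refine ⟨φ, hφ, ?_, ?_⟩
  · intro x hx hvx
    obtain ⟨a, c, hc, h⟩ := frac_rep_int F' A q hq hA (x := ⟨x, hx⟩) hvx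
    have hc1 := not_mem_plc.1 hc
    have hc0 : ((c : F') : Ω) ≠ 0 := by
      intro h0
      rw [h0, map_zero] at hc1
      exact zero_ne_one hc1
    have hxe : x = ((a : F') : Ω) / ((c : F') : Ω) := by
      rw [eq_div_iff hc0]
      have := congrArg (fun z : F' => (z : Ω)) h
      simpa using this
    have key : ∀ z : 𝓞 F', A.valuation (φ ((z : F') : Ω) - ((z : F') : Ω)) < 1 := by
      intro z
      have h2 := mem_plc.1 (hs z)
      rw [← FR_smul F' s φ (fun x => (hφs x).symm) z]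
      simpa using h2
    rw [hxe, map_div₀]
    exact FR_div_congr A (key a) (key c) (FR_le_one A (FR_isIntegral F' a)) hc1
  · have h1 := hφs δ'
    rw [hsδ] at h1
    exact h1

end H16C
end

-- from Lib.H13S.IN3
section

open NumberField IsDedekindDomain

namespace H13S

/-- Chunk IN3 (M). An element fixed by the inertia group has the value of an element of the base field.
Proof. Let I be the inertia group of W, M = IntermediateField.fixedField I, u = W ∩ M, w = W ∩ K. ramificationIdx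
(W over w) = card I (Ideal.card_inertia_eq_ramificationIdxIn or the like; see also H55C.inertia_iff and Lib/H55R/X8 for the
dictionary with ramificationIdx), the inertia group of W in Gal(N/M) is I again, so ramificationIdx(W over u) = card I, and by
multiplicativity ramificationIdx (u over w) = 1. So a uniformizer t in K at w is a uniformizer at u; y in M, y = t^n
times a unit at u, W.valuation y = W.valuation (t^n). (Valuation of N restricted to M: W.valuation (algebraMap M N z) = u.valuation z ^ e, see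
H55C or H35T (A4_val, ram lemmas), or valuation_comap in Mathlib.) -/
theorem value_fixed_fin (K N : Type) [Field K] [NumberField K] [Field N] [NumberField N] [Algebra K N]
    [IsGalois K N] (W : HeightOneSpectrum (𝓞 N)) (y : N) (hy : y ≠ 0)
    (h : ∀ s : N ≃ₐ[K] N, (∀ x : 𝓞 N, s • x - x ∈ W.asIdeal) → s y = y) :
    ∃ a : K, a ≠ 0 ∧ W.valuation N y = W.valuation N (algebraMap K N a) := by
  have hP := W.isPrime
  have hp0 : W.asIdeal.under (𝓞 K) ≠ ⊥ := Ideal.under_ne_bot (𝓞 K) W.ne_bot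
  let T : IntermediateField K N := FixedPoints.intermediateField (W.asIdeal.inertia Gal(N/K))
  have hT : IsGaloisGroup (W.asIdeal.inertia Gal(N/K)) T N :=
    IsGaloisGroup.subgroup Gal(N/K) K N (W.asIdeal.inertia Gal(N/K))
  have hyT : y ∈ T := by
    intro g
    exact h g.1 g.2
  obtain ⟨a, b, c, ha, hb, hc, he⟩ := H16C.RM_val (W.asIdeal.under (𝓞 K)) hp0 W.asIdeal W.ne_bot T hT
    ⟨y, hyT⟩ (fun h0 => hy (congrArg Subtype.val h0))
  refine ⟨a, ha, ?_⟩
  have h1 := congrArg (W.valuation N) he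
  have h2 : ∀ z : 𝓞 N, z ∉ W.asIdeal → W.valuation N (algebraMap (𝓞 N) N z) = 1 := by
    intro z hz
    exact le_antisymm (W.valuation_le_one z) (not_lt.1 fun h3 => hz ((W.valuation_lt_one_iff_mem z).1 h3))
  rw [map_mul, map_mul, h2 b hb, h2 c hc, mul_one, mul_one] at h1
  exact h1

end H13S
end

-- from Lib.H28G.GA2
section

open NumberField IsDedekindDomain WeierstrassCurve

namespace H28G

open H55B

/-! Chunk GA2 (M): the addition formula. add_wp: fix w not in Lam, V = {z : z not in Lam, z + w not in Lam}: open, preconnected (the complement of a countable set: as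
A3_conn, IsPreconnected of the complement of a countable set in C), G(z) = 4 (wp(z+w) + wp z + wp w)(wp z - wp w)^2 - (wpd z - wpd w)^2 is analytic on V.
Algebra: with a = wp z, b = wp w, x = wp(z+w), a', b', x' the values of wpd: det_zero is (a-b) x' + (a'-b') x + a b' - a' b = 0, wp_ode gives
a'^2 = 4a^3 - g, b'^2 = 4b^3 - g, x'^2 = 4x^3 - g. Then (x-a)(x-b) G = 0: for a <> b the line through (a,a'), (b,b') meets the cubic in x = a, b,
m^2/4 - a - b (m = (a'-b')/(a-b)): multiply the equation of the cubic at (x,-x') by (a-b)^2 and use linear_combination; for a = b the determinant says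
(a'-b')(x - a) = 0 and G = -(a'-b')^2. (In one identity: (a-b)^2 (x'^2 - 4x^3 + g) = ((a'-b')x + ab' - a'b)^2 - (a-b)^2(4x^3 - g), which is
-(x-a)(x-b) G - (a-b)(...) times the equations of a', b'; find the cofactors with linear_combination (exp := 1).)
The product of the three analytic functions x - a, x - b, G of z vanishes on V, so one of them vanishes identically on V (AnalyticOnNhd, identity theorem:
if G is nonzero at some point of V, then x - a or x - b vanishes on a small ball, hence on V). wp(z+w) - wp z is unbounded near z = 0 (w is not in Lam; wp_expansion),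
wp(z+w) - wp w is unbounded near z = -w. So G = 0 on V.
Phi_add_gen: xz = wp/kap^2, fz = wpd/kap^3, yz = (fz - 1)/2, (yz z - yz w)/(xz z - xz w) = (wpd z - wpd w)/(2 kap (wp z - wp w)); add_coords and pt_ext: the x-coordinate is
add_wp divided by kap^2, the y-coordinate follows from det_zero: fz(z+w) = -(fz z) - 2 s (xz(z+w) - xz z), s the slope. -/

theorem GA2_lim {h : ℂ → ℂ} (hh : ContinuousAt h 0)
    (he : ∀ᶠ s in nhdsWithin (0 : ℂ) {0}ᶜ, wp s = h s) : False := by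
  obtain ⟨u, hu, hu0, hexp⟩ := wp_expansion
  have c1 : ContinuousAt (fun z : ℂ => 1 + z ^ 6 * u z) 0 := by
    have := hu.continuousAt
    fun_prop
  have c2 : ContinuousAt (fun z : ℂ => z ^ 2 * h z) 0 := by fun_prop
  have t1 : Filter.Tendsto (fun z : ℂ => 1 + z ^ 6 * u z) (nhdsWithin (0 : ℂ) {0}ᶜ)
      (nhds (1 + (0 : ℂ) ^ 6 * u 0)) := c1.tendsto.mono_left nhdsWithin_le_nhds
  have t2 : Filter.Tendsto (fun z : ℂ => z ^ 2 * h z) (nhdsWithin (0 : ℂ) {0}ᶜ)
      (nhds ((0 : ℂ) ^ 2 * h 0)) := c2.tendsto.mono_left nhdsWithin_le_nhds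
  have t3 : Filter.Tendsto (fun z : ℂ => 1 + z ^ 6 * u z) (nhdsWithin (0 : ℂ) {0}ᶜ)
      (nhds ((0 : ℂ) ^ 2 * h 0)) := by
    refine t2.congr' ?_
    filter_upwards [hexp, he, self_mem_nhdsWithin] with z h1 h2 hz
    have hz' : z ≠ 0 := hz
    rw [← h2, h1]
    field_simp
  have h4 := tendsto_nhds_unique t1 t3
  norm_num at h4

theorem GA2_conn (w : ℂ) : IsPreconnected {z : ℂ | z ∉ Lam ∧ z + w ∉ Lam} := by
  have hc : (Lam : Set ℂ).Countable := by
    have : (Lam : Set ℂ) = Set.range (fun l : LL.lattice => (l : ℂ)) := by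
      ext z
      rw [← mem_LL]
      simp
    rw [this]
    exact Set.countable_range _
  have hc2 : ((fun z : ℂ => z + w) ⁻¹' Lam).Countable :=
    hc.preimage (add_left_injective w)
  have h := Set.Countable.isConnected_compl_of_one_lt_rank (E := ℂ) (by simp) (hc.union hc2)
  have h2 : {z : ℂ | z ∉ Lam ∧ z + w ∉ Lam} = ((Lam : Set ℂ) ∪ (fun z : ℂ => z + w) ⁻¹' Lam)ᶜ := by
    ext z
    simp [not_or]
  rw [h2]
  exact h.isPreconnected

theorem GA2_alg {a b x a' b' x' g : ℂ} (ha : a' ^ 2 = 4 * a ^ 3 - g) (hb : b' ^ 2 = 4 * b ^ 3 - g)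
    (hx : x' ^ 2 = 4 * x ^ 3 - g) (hd : (a - b) * x' + (a' - b') * x + a * b' - a' * b = 0) :
    (x - a) * (x - b) * (4 * (x + a + b) * (a - b) ^ 2 - (a' - b') ^ 2) = 0 := by
  linear_combination (-(a - b) ^ 2) * hx + ((a - b) * (x - b)) * ha - ((a - b) * (x - a)) * hb +
    ((a - b) * x' - ((a' - b') * x + a * b' - a' * b)) * hd

theorem add_wp {z w : ℂ} (hz : z ∉ Lam) (hw : w ∉ Lam) (hzw : z + w ∉ Lam) :
    4 * (wp (z + w) + wp z + wp w) * (wp z - wp w) ^ 2 = (wpd z - wpd w) ^ 2 := by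
  let V : Set ℂ := {z : ℂ | z ∉ Lam ∧ z + w ∉ Lam}
  let G : ℂ → ℂ := fun z => 4 * (wp (z + w) + wp z + wp w) * (wp z - wp w) ^ 2 -
    (wpd z - wpd w) ^ 2
  let f₁ : ℂ → ℂ := fun z => wp (z + w) - wp z
  let f₂ : ℂ → ℂ := fun z => wp (z + w) - wp w
  have hV : ∀ z ∈ V, ∀ᶠ t in nhds z, t ∈ V := by
    rintro z ⟨h1, h2⟩
    have o1 : ∀ᶠ t in nhds z, t ∉ Lam := A1_open.mem_nhds h1
    have o2 : ∀ᶠ t in nhds z, t + w ∉ Lam :=
      (A1_open.preimage (f := fun t : ℂ => t + w) (by fun_prop)).mem_nhds h2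
    filter_upwards [o1, o2] with t h3 h4
    exact ⟨h3, h4⟩
  have ha : ∀ z ∈ V, AnalyticAt ℂ wp z := fun z h => A2_wp_analytic h.1
  have hb : ∀ z ∈ V, AnalyticAt ℂ (fun z => wp (z + w)) z := fun z h =>
    (A2_wp_analytic h.2).comp (f := fun t : ℂ => t + w) (by fun_prop)
  have hc : ∀ z ∈ V, AnalyticAt ℂ wpd z := fun z h => A2_wpd_analytic h.1
  have hG : ∀ z ∈ V, AnalyticAt ℂ G z := by
    intro z h
    have h1 := ha z h
    have h2 := hb z h
    have h3 := hc z h
    fun_prop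
  have hf₁ : ∀ z ∈ V, AnalyticAt ℂ f₁ z := by
    intro z h
    have h1 := ha z h
    have h2 := hb z h
    fun_prop
  have hf₂ : ∀ z ∈ V, AnalyticAt ℂ f₂ z := by
    intro z h
    have h2 := hb z h
    fun_prop
  have hprod : ∀ z ∈ V, f₁ z * f₂ z * G z = 0 := by
    intro z h
    exact GA2_alg (wp_ode z h.1) (wp_ode w hw) (wp_ode (z + w) h.2) (det_zero h.1 hw h.2)
  -- `f₁` is not identically zero
  have n1 : ¬ ∀ z ∈ V, f₁ z = 0 := by
    intro hall
    have hc' : ContinuousAt (fun s => wp (s + w)) 0 := by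
      have h1 : AnalyticAt ℂ wp (0 + w) := by rw [zero_add]; exact A2_wp_analytic hw
      exact (h1.comp (f := fun t : ℂ => t + w) (by fun_prop)).continuousAt
    refine GA2_lim hc' ?_
    have o2 : ∀ᶠ t in nhds (0 : ℂ), t + w ∉ Lam :=
      (A1_open.preimage (f := fun t : ℂ => t + w) (by fun_prop)).mem_nhds
        (by show 0 + w ∉ Lam; rw [zero_add]; exact hw)
    filter_upwards [A2_Lam_discrete 0, o2.filter_mono nhdsWithin_le_nhds] with s h1 h2
    have h3 := hall s ⟨h1, h2⟩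
    exact (sub_eq_zero.1 h3).symm
  have n2 : ¬ ∀ z ∈ V, f₂ z = 0 := by
    intro hall
    refine GA2_lim (h := fun _ => wp w) continuousAt_const ?_
    have o2 : ∀ᶠ t in nhds (0 : ℂ), t - w ∉ Lam :=
      (A1_open.preimage (f := fun t : ℂ => t - w) (by fun_prop)).mem_nhds
        (by show 0 - w ∉ Lam; rw [zero_sub]; exact fun h => hw (neg_mem_iff.1 h))
    filter_upwards [A2_Lam_discrete 0, o2.filter_mono nhdsWithin_le_nhds] with s h1 h2
    have h3 := hall (s - w) ⟨h2, by rw [sub_add_cancel]; exact h1⟩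
    have h4 : wp (s - w + w) - wp w = 0 := h3
    rw [sub_add_cancel] at h4
    exact sub_eq_zero.1 h4
  have hGz : G z = 0 := by
    by_contra hne
    have hzV : z ∈ V := ⟨hz, hzw⟩
    have e1 : ∀ᶠ t in nhds z, f₁ t * f₂ t = 0 := by
      filter_upwards [(hG z hzV).continuousAt.eventually_ne hne, hV z hzV] with t h1 h2
      exact (mul_eq_zero.1 (hprod t h2)).resolve_right h1
    rcases (hf₁ z hzV).eventually_eq_zero_or_eventually_ne_zero with h1 | h1
    · apply n1
      have hA : AnalyticOnNhd ℂ f₁ V := fun t ht => hf₁ t ht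
      exact fun t ht => hA.eqOn_zero_of_preconnected_of_eventuallyEq_zero (GA2_conn w) hzV h1 ht
    · rcases (hf₂ z hzV).eventually_eq_zero_or_eventually_ne_zero with h2 | h2
      · apply n2
        have hA : AnalyticOnNhd ℂ f₂ V := fun t ht => hf₂ t ht
        exact fun t ht => hA.eqOn_zero_of_preconnected_of_eventuallyEq_zero (GA2_conn w) hzV h2 ht
      · obtain ⟨t, h3, h4, h5⟩ :=
          (h1.and (h2.and (e1.filter_mono nhdsWithin_le_nhds))).exists
        rcases mul_eq_zero.1 h5 with h6 | h6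
        · exact h3 h6
        · exact h4 h6
  exact sub_eq_zero.1 hGz

theorem Phi_add_gen {z w : ℂ} (hz : z ∉ Lam) (hw : w ∉ Lam) (hzw : z + w ∉ Lam) (hne : wp z ≠ wp w) :
    Phi (z + w) = Phi z + Phi w := by
  have hk := kap_ne
  have hzne : Phi z ≠ 0 := fun h => hz (Phi_eq_zero.1 h)
  have hwne : Phi w ≠ 0 := fun h => hw (Phi_eq_zero.1 h)
  have hzwne : Phi (z + w) ≠ 0 := fun h => hzw (Phi_eq_zero.1 h)
  have hd : wp z - wp w ≠ 0 := sub_ne_zero.2 hne
  have hx : xc (Phi z) ≠ xc (Phi w) := by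
    rw [xc_Phi hz, xc_Phi hw]
    unfold xz
    intro h
    exact hne ((div_left_inj' (pow_ne_zero 2 hk)).1 h)
  obtain ⟨h1, h2, h3⟩ := add_coords hzne hwne hx
  rw [xc_Phi hz, xc_Phi hw, yc_Phi hz, yc_Phi hw] at h2
  rw [h2, xc_Phi hz, xc_Phi hw, yc_Phi hz, yc_Phi hw] at h3
  have hs : (yz z - yz w) / (xz z - xz w) = (wpd z - wpd w) / (2 * kap * (wp z - wp w)) := by
    unfold yz fz xz
    have h5 : wp z / kap ^ 2 - wp w / kap ^ 2 ≠ 0 := by
      rw [← sub_div]
      exact div_ne_zero hd (pow_ne_zero 2 hk)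
    rw [div_eq_div_iff h5 (mul_ne_zero (mul_ne_zero two_ne_zero hk) hd)]
    field_simp
    ring
  have hX : xz (z + w) = ((yz z - yz w) / (xz z - xz w)) ^ 2 - xz z - xz w := by
    rw [hs]
    unfold xz
    have h5 := add_wp hz hw hzw
    field_simp
    linear_combination h5
  refine pt_ext hzwne h1 ?_ ?_
  · rw [xc_Phi hzw, h2, hX]
  · rw [yc_Phi hzw, h3, ← hX, hs]
    have h6 := det_zero hz hw hzw
    unfold yz fz xz
    field_simp
    linear_combination h6

end H28G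
end

-- from Lib.H28G.GA3
section

open NumberField IsDedekindDomain WeierstrassCurve

namespace H28G

open H55B

/-! Chunk GA3 (S/M): Phi is additive. If z in Lam or w in Lam: Phi_per, Phi_of_mem. If z + w in Lam: w = -z + 3 e y, Phi w = Phi(-z) = -Phi z. Otherwise choose u
close to -z, u <> -z, such that u, z + u, w - u are not in Lam, wp u <> wp z, wp u <> wp w, wp(z+u) <> wp(w-u): all six hold for all u in a punctured neighbourhood
of -z: u -> -z not in Lam, z + u -> 0 but z + u <> 0 (Lam is discrete: A2_Lam_discrete), w - u -> w + z not in Lam; wp u <> wp z and wp u <> wp w by wp_nonconst at -z;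
wp(z+u) -> infinity (wp_expansion) and wp(w-u) -> wp(w+z) is bounded. Then, by Phi_add_gen three times (wp(-u) = wp u):
Phi(z+u) = Phi z + Phi u, Phi(w-u) = Phi w + Phi(-u) = Phi w - Phi u, Phi(z+w) = Phi((z+u) + (w-u)) = Phi(z+u) + Phi(w-u) = Phi z + Phi w.
Phi_act: Phi as AddMonoidHom, map_zsmul, Phi_om, exists_repr, act_apply, Z1_e_repr. -/

theorem GA3_gen {z w : ℂ} (hz : z ∉ Lam) (hw : w ∉ Lam) (hzw : z + w ∉ Lam) :
    Phi (z + w) = Phi z + Phi w := by
  have hz' : -z ∉ Lam := fun h => hz (neg_mem_iff.1 h)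
  have c1 : ∀ᶠ u in nhdsWithin (-z) {-z}ᶜ, u ∉ Lam :=
    nhdsWithin_le_nhds (A1_open.mem_nhds hz')
  have t2 : Filter.Tendsto (fun u => z + u) (nhdsWithin (-z) {-z}ᶜ) (nhdsWithin 0 {0}ᶜ) := by
    have h := A1_tendsto (fun u => z + u) (-z) (by fun_prop) (add_right_injective z)
    simp only [add_neg_cancel] at h
    exact h
  have c2 : ∀ᶠ u in nhdsWithin (-z) {-z}ᶜ, z + u ∉ Lam := t2.eventually (A2_Lam_discrete 0)
  have c3 : ∀ᶠ u in nhdsWithin (-z) {-z}ᶜ, w - u ∉ Lam := by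
    have hc : ContinuousAt (fun u : ℂ => w - u) (-z) := by fun_prop
    have h0 : w - (-z) ∉ Lam := by
      rw [sub_neg_eq_add, add_comm]
      exact hzw
    exact nhdsWithin_le_nhds (hc.tendsto.eventually (A1_open.mem_nhds h0))
  have c4 := wp_nonconst hz' (wp z)
  have c5 := wp_nonconst hz' (wp w)
  obtain ⟨U, hU, -, hexp⟩ := wp_expansion
  have c6 : ∀ᶠ u in nhdsWithin (-z) {-z}ᶜ, wp (z + u) ≠ wp (w - u) := by
    have e1 := t2.eventually hexp
    have hc : ContinuousAt (fun u : ℂ => 1 + (z + u) ^ 6 * U (z + u) - (z + u) ^ 2 * wp (w - u)) (-z) := by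
      have h1 : ContinuousAt (fun u : ℂ => U (z + u)) (-z) := by
        have h2 : ContinuousAt U (z + -z) := by
          rw [add_neg_cancel]
          exact hU.continuousAt
        exact ContinuousAt.comp (f := fun u => z + u) h2 (by fun_prop)
      have h3 : ContinuousAt (fun u : ℂ => wp (w - u)) (-z) := by
        have h4 : w - (-z) ∉ Lam := by
          rw [sub_neg_eq_add, add_comm]
          exact hzw
        have h2 : ContinuousAt wp (w - (-z)) := (A2_wp_analytic h4).continuousAt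
        exact ContinuousAt.comp (f := fun u => w - u) h2 (by fun_prop)
      have h5 : ContinuousAt (fun u : ℂ => (z + u) ^ 6) (-z) := by fun_prop
      have h6 : ContinuousAt (fun u : ℂ => (z + u) ^ 2) (-z) := by fun_prop
      exact (continuousAt_const.add (h5.mul h1)).sub (h6.mul h3)
    have e2 : ∀ᶠ u in nhds (-z), 1 + (z + u) ^ 6 * U (z + u) - (z + u) ^ 2 * wp (w - u) ≠ 0 := by
      apply hc.eventually_ne
      rw [add_neg_cancel]
      simp
    filter_upwards [e1, nhdsWithin_le_nhds e2, self_mem_nhdsWithin] with u hu1 hu2 hu3 h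
    apply hu2
    have hne : z + u ≠ 0 := by
      intro h0
      apply hu3
      show u = -z
      linear_combination h0
    rw [← h, hu1]
    field_simp
    ring
  have hall := c1.and (c2.and (c3.and (c4.and (c5.and c6))))
  obtain ⟨u, u1, u2, u3, u4, u5, u6⟩ := hall.exists
  have a1 := Phi_add_gen hz u1 u2 (fun h => u4 h.symm)
  have u1' : -u ∉ Lam := fun h => u1 (neg_mem_iff.1 h)
  have a2 : Phi (w + -u) = Phi w + Phi (-u) := by
    refine Phi_add_gen hw u1' ?_ ?_
    · rw [← sub_eq_add_neg]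
      exact u3
    · rw [wp_neg]
      exact fun h => u5 h.symm
  have a3 : Phi ((z + u) + (w - u)) = Phi (z + u) + Phi (w - u) := by
    refine Phi_add_gen u2 u3 ?_ u6
    have : (z + u) + (w - u) = z + w := by ring
    rw [this]
    exact hzw
  have e3 : (z + u) + (w - u) = z + w := by ring
  rw [e3] at a3
  rw [a3, a1, sub_eq_add_neg, a2, Phi_neg]
  abel

theorem Phi_add (z w : ℂ) : Phi (z + w) = Phi z + Phi w := by
  by_cases hz : z ∈ Lam
  · rw [Phi_of_mem hz, zero_add]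
    obtain ⟨y, rfl⟩ := hz
    rw [add_comm, Phi_per]
  by_cases hw : w ∈ Lam
  · rw [Phi_of_mem hw, add_zero]
    obtain ⟨y, rfl⟩ := hw
    rw [Phi_per]
  by_cases hzw : z + w ∈ Lam
  · rw [Phi_of_mem hzw]
    obtain ⟨y, hy⟩ := hzw
    have h1 : w = -z + 3 * e y := by linear_combination hy
    rw [h1, Phi_per, Phi_neg, add_neg_cancel]
  · exact GA3_gen hz hw hzw

/-- The uniformisation as a homomorphism. -/
noncomputable def GA3_hom : ℂ →+ P27 ℂ where
  toFun := Phi
  map_zero' := Phi_of_mem A1_zero_mem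
  map_add' := Phi_add

theorem Phi_act (c : O) (z : ℂ) : Phi (e c * z) = act c (Phi z) := by
  obtain ⟨a, b, rfl⟩ := exists_repr c
  have h1 : e ((a : O) + b * om) * z = a • z + b • (e om * z) := by
    rw [map_add, map_mul, map_intCast, map_intCast, zsmul_eq_mul, zsmul_eq_mul]
    ring
  rw [h1, act_apply]
  show GA3_hom (a • z + b • (e om * z)) = _
  rw [map_add, map_zsmul, map_zsmul]
  show a • Phi z + b • Phi (e om * z) = _
  rw [Phi_om]

end H28G
end

-- from Lib.H28G.GB1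
section

open NumberField IsDedekindDomain WeierstrassCurve

namespace H28G

open H55B

/-! Chunk GB1 (S/M): the torsion points over C. rho b c = 3 e(c)/e(b), c in O/(b) (any representative). Phi (rho b c) is killed by b: Phi_act, e b * rho = 3 e(c) in Lam.
Injective: Phi(rho c) = Phi(rho c') => 3 e(c - c')/e b in Lam (Phi_add, Phi_neg, Phi_eq_zero) => c - c' = b y. Surjective: P = Phi z, act b P = 0 => e b * z = 3 e y => z = 3 e y / e b and
the representative of y differs from y by b y', so Phi z = Phi(rho (mk y)) (Phi_per). Nat.card (O/(b)) = Nm b (absNorm, definition of Nm: Ideal.absNorm_apply, Submodule.cardQuot). -/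

/-- Representatives of the points killed by b. -/
noncomputable def rho (b : O) (c : O ⧸ Ideal.span {b}) : ℂ := 3 * e (Quotient.out c) / e b

theorem GB1_e_ne {b : O} (hb : b ≠ 0) : e b ≠ 0 := by
  intro h
  exact hb (e_injective (by rw [h, map_zero]))

theorem rho_mem (b : O) (hb : b ≠ 0) (c : O ⧸ Ideal.span {b}) : Phi (rho b c) ∈ Tor b ℂ := by
  have h0 := GB1_e_ne hb
  rw [mem_Tor, ← Phi_act, Phi_eq_zero]
  refine ⟨Quotient.out c, ?_⟩
  unfold rho
  field_simp

theorem rho_bij (b : O) (hb : b ≠ 0) :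
    Function.Bijective (fun c : O ⧸ Ideal.span {b} => (⟨Phi (rho b c), rho_mem b hb c⟩ : Tor b ℂ)) := by
  have h0 := GB1_e_ne hb
  constructor
  · intro c c' h
    have h1 : Phi (rho b c) = Phi (rho b c') := congrArg Subtype.val h
    have h2 : Phi (rho b c + -rho b c') = 0 := by
      rw [Phi_add, Phi_neg, h1, add_neg_cancel]
    obtain ⟨y, hy⟩ := Phi_eq_zero.1 h2
    have h3 : e (Quotient.out c - Quotient.out c') = e (b * y) := by
      rw [map_sub, map_mul]
      unfold rho at hy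
      have h4 : (3 : ℂ) * (e (Quotient.out c) - e (Quotient.out c')) = 3 * (e b * e y) := by
        field_simp at hy
        linear_combination 3 * hy
      exact mul_left_cancel₀ (by norm_num) h4
    have h5 := e_injective h3
    have h6 : (Ideal.Quotient.mk (Ideal.span {b}) (Quotient.out c)) =
        Ideal.Quotient.mk (Ideal.span {b}) (Quotient.out c') := by
      rw [Ideal.Quotient.eq, Ideal.mem_span_singleton]
      exact ⟨y, h5⟩
    have e1 : (Ideal.Quotient.mk (Ideal.span {b}) (Quotient.out c)) = c := Quotient.out_eq c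
    have e2 : (Ideal.Quotient.mk (Ideal.span {b}) (Quotient.out c')) = c' := Quotient.out_eq c'
    rw [← e1, h6, e2]
  · rintro ⟨P, hP⟩
    obtain ⟨z, rfl⟩ := Phi_surj P
    rw [mem_Tor, ← Phi_act, Phi_eq_zero] at hP
    obtain ⟨y, hy⟩ := hP
    refine ⟨Ideal.Quotient.mk (Ideal.span {b}) y, Subtype.ext ?_⟩
    show Phi (rho b (Ideal.Quotient.mk (Ideal.span {b}) y)) = Phi z
    have e1 : (Ideal.Quotient.mk (Ideal.span {b})
        (Quotient.out (Ideal.Quotient.mk (Ideal.span {b}) y))) =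
        Ideal.Quotient.mk (Ideal.span {b}) y := Quotient.out_eq _
    rw [Ideal.Quotient.eq, Ideal.mem_span_singleton] at e1
    obtain ⟨y', hy'⟩ := e1
    have h1 : rho b (Ideal.Quotient.mk (Ideal.span {b}) y) = z + 3 * e y' := by
      have h2 : e (Quotient.out (Ideal.Quotient.mk (Ideal.span {b}) y)) = e y + e b * e y' := by
        rw [← map_mul, ← map_add, ← hy', add_sub_cancel]
      unfold rho
      rw [h2]
      field_simp
      linear_combination -hy
    rw [h1, Phi_per]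

theorem finite_quot (b : O) (hb : b ≠ 0) : Finite (O ⧸ Ideal.span {b}) := by
  apply Ideal.finiteQuotientOfFreeOfNeBot
  rwa [Ne, Ideal.span_singleton_eq_bot]

theorem full_C (b : O) (hb : b ≠ 0) : Full b ℂ := by
  unfold Full Nm
  rw [← Nat.card_congr (Equiv.ofBijective _ (rho_bij b hb)), Ideal.absNorm_apply,
    Submodule.cardQuot_apply]

end H28G
end

-- from Lib.H28G.GB3
section

open NumberField IsDedekindDomain WeierstrassCurve

namespace H28G

open H55B

/-! Chunk GB3 (S/M): counting. count_pt: if z0 + rho c - p and z0 + rho c' - p are in Lam, then rho c - rho c' is in Lam, so Phi(rho c) = Phi(rho c') and c = c' (rho_bij): at most one term is 1. If one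
term is 1: e b (z0 + rho c - p) in Lam (Lam is an O-module: e b * 3 e y = 3 e (b y)), e b rho c in Lam, e b p - p in Lam, so e b z0 - p in Lam. Conversely if e b z0 - p in Lam then
e b (p - z0) in Lam, so p - z0 = 3 e y/e b and Phi(p - z0) is in Tor b, = Phi(rho c) for some c (rho_bij), so p - z0 - rho c in Lam.
count_half, b not divisible by 2 (2 is prime in O: two_prime): H = {h : h not in Lam, 2 h in Lam}. At most one term: if h = z0 + rho c, h' = z0 + rho c' in H then rho c - rho c' =: d satisfies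
2 d in Lam and e b d in Lam; 1 = 2 x + b y in O (O is a PID, 2 prime, 2 does not divide b), so d = x (2 d) + y (b d) in Lam, c = c'. If one term is 1: 2 e b z0 in Lam; e b z0 not in
Lam: otherwise e b h in Lam and 2 h in Lam give h in Lam. Conversely let e b z0 in H. With 1 = 2 x + b y: put h = b y z0 (h = z0 - 2 x z0): then e b (z0 - h) = e x * (2 e b z0) in Lam, so z0 - h = -rho c mod Lam for
some c; 2 h = e y (2 e b z0) in Lam, h not in Lam since otherwise e b h in Lam, and e b z0 = e b h + e b (z0 - h) in Lam. So z0 + rho c = h mod Lam is in H. -/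

theorem Lam_mul (b : O) {z : ℂ} (h : z ∈ Lam) : e b * z ∈ Lam := by
  obtain ⟨y, rfl⟩ := h
  exact ⟨b * y, by rw [map_mul]; ring⟩

theorem GB3_sub {z w : ℂ} (h : z ∈ Lam) (h' : w ∈ Lam) : z - w ∈ Lam := by
  rw [sub_eq_add_neg]
  exact A1_add_mem h (A1_neg_mem h')

theorem GB3_sum {ι : Type} [Fintype ι] (P : ι → Prop) [DecidablePred P] (Q : Prop) [Decidable Q]
    (h1 : ∀ c c', P c → P c' → c = c') (h2 : (∃ c, P c) ↔ Q) :
    (∑ c : ι, if P c then (1 : ℤ) else 0) = if Q then 1 else 0 := by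
  classical
  by_cases hQ : Q
  · rw [if_pos hQ]
    obtain ⟨c, hc⟩ := h2.2 hQ
    rw [Finset.sum_eq_single c]
    · exact if_pos hc
    · intro c' _ hne
      exact if_neg fun h => hne (h1 _ _ h hc)
    · intro h
      exact absurd (Finset.mem_univ c) h
  · rw [if_neg hQ]
    refine Finset.sum_eq_zero fun c _ => if_neg fun h => hQ (h2.1 ⟨c, h⟩)

theorem GB3_eb {b : O} (hb : b ≠ 0) : e b ≠ 0 := by
  intro h
  apply hb
  apply e_injective
  rw [h, map_zero]

theorem GB3_rho {b : O} (hb : b ≠ 0) (c : O ⧸ Ideal.span {b}) : e b * rho b c ∈ Lam := by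
  refine ⟨Quotient.out c, ?_⟩
  unfold rho
  have := GB3_eb hb
  field_simp

theorem GB3_inj {b : O} (hb : b ≠ 0) {c c' : O ⧸ Ideal.span {b}} (h : rho b c - rho b c' ∈ Lam) :
    c = c' := by
  obtain ⟨y, hy⟩ := h
  have hb' := GB3_eb hb
  have h1 : e (Quotient.out c - Quotient.out c') = e (b * y) := by
    unfold rho at hy
    rw [map_sub, map_mul]
    field_simp at hy
    linear_combination hy
  have h2 := e_injective h1
  have h3 : ∀ c : O ⧸ Ideal.span {b}, Ideal.Quotient.mk (Ideal.span {b}) (Quotient.out c) = c :=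
    fun c => Quotient.out_eq c
  rw [← h3 c, ← h3 c', Ideal.Quotient.eq, h2]
  exact Ideal.mul_mem_right _ _ (Ideal.mem_span_singleton_self b)

theorem GB3_ex {b : O} (hb : b ≠ 0) {w : ℂ} (h : e b * w ∈ Lam) :
    ∃ c : O ⧸ Ideal.span {b}, w - rho b c ∈ Lam := by
  obtain ⟨y, hy⟩ := h
  have hb' := GB3_eb hb
  have h3 : Ideal.Quotient.mk (Ideal.span {b})
      (Quotient.out (Ideal.Quotient.mk (Ideal.span {b}) y)) =
      Ideal.Quotient.mk (Ideal.span {b}) y := Quotient.out_eq _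
  rw [Ideal.Quotient.eq, Ideal.mem_span_singleton] at h3
  obtain ⟨t, ht⟩ := h3
  refine ⟨Ideal.Quotient.mk (Ideal.span {b}) y, -t, ?_⟩
  have h4 : e (Quotient.out (Ideal.Quotient.mk (Ideal.span {b}) y)) = e y + e b * e t := by
    have h5 := congrArg e ht
    rw [map_sub, map_mul] at h5
    linear_combination h5
  unfold rho
  rw [h4, map_neg]
  field_simp
  linear_combination hy

open Classical in
theorem count_pt (b : O) (hb : b ≠ 0) [Fintype (O ⧸ Ideal.span {b})] (p : ℂ) (hp : e b * p - p ∈ Lam)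
    (z₀ : ℂ) : (∑ c : O ⧸ Ideal.span {b}, if z₀ + rho b c - p ∈ Lam then (1 : ℤ) else 0) =
      if e b * z₀ - p ∈ Lam then 1 else 0 := by
  refine GB3_sum _ _ ?_ ⟨?_, ?_⟩
  · intro c c' h h'
    apply GB3_inj hb
    have h1 := GB3_sub h h'
    have h2 : z₀ + rho b c - p - (z₀ + rho b c' - p) = rho b c - rho b c' := by ring
    rwa [h2] at h1
  · rintro ⟨c, hc⟩
    have h1 := A1_add_mem (GB3_sub (Lam_mul b hc) (GB3_rho hb c)) hp
    have h2 : e b * (z₀ + rho b c - p) - e b * rho b c + (e b * p - p) = e b * z₀ - p := by ring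
    rwa [h2] at h1
  · intro h
    have h1 := GB3_sub hp h
    have h2 : e b * p - p - (e b * z₀ - p) = e b * (p - z₀) := by ring
    rw [h2] at h1
    obtain ⟨c, hc⟩ := GB3_ex hb h1
    refine ⟨c, ?_⟩
    have h3 := A1_neg_mem hc
    have h4 : -(p - z₀ - rho b c) = z₀ + rho b c - p := by ring
    rwa [h4] at h3

open Classical in
theorem count_half (b : O) (hb : ¬ (2 : O) ∣ b) [Fintype (O ⧸ Ideal.span {b})] (z₀ : ℂ) :
    (∑ c : O ⧸ Ideal.span {b},
      if z₀ + rho b c ∉ Lam ∧ 2 * (z₀ + rho b c) ∈ Lam then (1 : ℤ) else 0) =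
      if e b * z₀ ∉ Lam ∧ 2 * (e b * z₀) ∈ Lam then 1 else 0 := by
  have hb0 : b ≠ 0 := by
    rintro rfl
    exact hb (dvd_zero 2)
  obtain ⟨x, y, hxy⟩ := (two_prime.irreducible.coprime_iff_not_dvd).2 hb
  have hxy' : e x * 2 + e y * e b = 1 := by
    have h1 := congrArg e hxy
    rw [map_add, map_mul, map_mul, map_ofNat, map_one] at h1
    exact h1
  have key : ∀ w : ℂ, 2 * w ∈ Lam → e b * w ∈ Lam → w ∈ Lam := by
    intro w h h'
    have h1 := A1_add_mem (Lam_mul x h) (Lam_mul y h')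
    have h2 : e x * (2 * w) + e y * (e b * w) = w := by linear_combination w * hxy'
    rwa [h2] at h1
  have htwo : ∀ w : ℂ, w ∈ Lam → 2 * w ∈ Lam := by
    intro w h
    rw [two_mul]
    exact A1_add_mem h h
  refine GB3_sum _ _ ?_ ⟨?_, ?_⟩
  · rintro c c' ⟨-, h⟩ ⟨-, h'⟩
    apply GB3_inj hb0
    apply key
    · have h1 := GB3_sub h h'
      have h2 : 2 * (z₀ + rho b c) - 2 * (z₀ + rho b c') = 2 * (rho b c - rho b c') := by ring
      rwa [h2] at h1
    · rw [mul_sub]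
      exact GB3_sub (GB3_rho hb0 c) (GB3_rho hb0 c')
  · rintro ⟨c, h, h'⟩
    have h1 := GB3_sub (Lam_mul b h') (htwo _ (GB3_rho hb0 c))
    have h2 : e b * (2 * (z₀ + rho b c)) - 2 * (e b * rho b c) = 2 * (e b * z₀) := by ring
    rw [h2] at h1
    refine ⟨fun h3 => h (key _ h' ?_), h1⟩
    rw [mul_add]
    exact A1_add_mem h3 (GB3_rho hb0 c)
  · rintro ⟨h, h'⟩
    have h1 : e b * (e b * e y * z₀ - z₀) ∈ Lam := by
      have h2 := A1_neg_mem (Lam_mul x h')
      have h3 : -(e x * (2 * (e b * z₀))) = e b * (e b * e y * z₀ - z₀) := by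
        linear_combination (-(e b * z₀)) * hxy'
      rwa [h3] at h2
    obtain ⟨c, hc⟩ := GB3_ex hb0 h1
    have h2 : 2 * (e b * e y * z₀) ∈ Lam := by
      have h3 := Lam_mul y h'
      have h4 : e y * (2 * (e b * z₀)) = 2 * (e b * e y * z₀) := by ring
      rwa [h4] at h3
    refine ⟨c, fun h3 => h ?_, ?_⟩
    · have h4 := A1_add_mem hc h3
      have h5 : e b * e y * z₀ - z₀ - rho b c + (z₀ + rho b c) = e b * e y * z₀ := by ring
      rw [h5] at h4
      have h6 := GB3_sub (Lam_mul b h4) h1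
      have h7 : e b * (e b * e y * z₀) - e b * (e b * e y * z₀ - z₀) = e b * z₀ := by ring
      rwa [h7] at h6
    · have h4 := GB3_sub h2 (htwo _ hc)
      have h5 : 2 * (e b * e y * z₀) - 2 * (e b * e y * z₀ - z₀ - rho b c) =
          2 * (z₀ + rho b c) := by ring
      rwa [h5] at h4

end H28G
end

-- from Lib.H28G.GB4
section

open NumberField IsDedekindDomain WeierstrassCurve

namespace H28G

open H55B

/-! Chunk GB4 (M): the general distribution relation. D(z) = (prod over c of g(z + rho c)) * (g(e b z))^(-1). D is Lam-periodic: z -> z + 3 e y changes e b z by 3 e (b y). At every z0: Od (fun z => D z) z0 0 by Od.prod,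
Od.comp_add, Od.comp_mul, Od.inv, Od.mul and hcount: D z = (z - z0)^0 h z = h z near z0 with h analytic, h z0 <> 0. A0_liouville: there is C with a z0 = C for every z0 and every
continuous a equal to D near z0; with a = h: C = h z0 <> 0. For z near z0, z <> z0, z <> singular: h is also an admissible a at z (h is continuous near z0, D = h on a punctured
neighbourhood of z0, which is a neighbourhood of z), so h z = C, so D z = C, and since the product D z = C <> 0 the value g(e b z) is not 0: multiply. -/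

theorem GB4_e_inj : Function.Injective e :=
  emb.injective.comp NumberField.RingOfIntegers.coe_injective

theorem dist_gen (g : ℂ → ℂ) (hper : ∀ z (y : O), g (z + 3 * e y) = g z) (n : ℂ → ℤ)
    (hn : ∀ z, Od g z (n z)) (b : O) (hb : b ≠ 0) [Fintype (O ⧸ Ideal.span {b})]
    (hcount : ∀ z₀, ∑ c : O ⧸ Ideal.span {b}, n (z₀ + rho b c) = n (e b * z₀)) :
    ∃ C : ℂ, C ≠ 0 ∧ ∀ z₀, ∀ᶠ z in nhdsWithin z₀ {z₀}ᶜ,
      ∏ c : O ⧸ Ideal.span {b}, g (z + rho b c) = C * g (e b * z) := by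
  have heb : e b ≠ 0 := by
    intro h
    apply hb
    have h1 : e b = e 0 := by rw [h, map_zero]
    exact GB4_e_inj h1
  set D : ℂ → ℂ := fun z => (∏ c : O ⧸ Ideal.span {b}, g (z + rho b c)) * (g (e b * z))⁻¹ with hD
  have hDper : ∀ z (y : O), D (z + 3 * e y) = D z := by
    intro z y
    have e1 : e b * (z + 3 * e y) = e b * z + 3 * e (b * y) := by
      rw [map_mul]
      ring
    simp only [hD]
    rw [e1, hper]
    congr 1
    refine Finset.prod_congr rfl fun c _ => ?_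
    have e2 : z + 3 * e y + rho b c = z + rho b c + 3 * e y := by ring
    rw [e2, hper]
  have hOd : ∀ z₀, ∃ h : ℂ → ℂ, AnalyticAt ℂ h z₀ ∧ h z₀ ≠ 0 ∧
      ∀ᶠ z in nhdsWithin z₀ {z₀}ᶜ, D z = h z := by
    intro z₀
    have h1 : Od (fun z => ∏ c : O ⧸ Ideal.span {b}, g (z + rho b c)) z₀
        (∑ c : O ⧸ Ideal.span {b}, n (z₀ + rho b c)) :=
      Od.prod Finset.univ fun c _ => Od.comp_add (hn (z₀ + rho b c))
    have h2 : Od (fun z => (g (e b * z))⁻¹) z₀ (-n (e b * z₀)) :=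
      Od.inv (Od.comp_mul heb (hn (e b * z₀)))
    obtain ⟨h, ha, h0, hh⟩ := Od.mul h1 h2
    refine ⟨h, ha, h0, ?_⟩
    filter_upwards [hh] with z hz
    rw [hcount, add_neg_cancel, zpow_zero, one_mul] at hz
    exact hz
  obtain ⟨C, hC⟩ := A0_liouville D hDper fun z₀ => by
    obtain ⟨h, ha, _, hh⟩ := hOd z₀
    exact ⟨h, ha, hh⟩
  have hC0 : C ≠ 0 := by
    obtain ⟨h, ha, h0, hh⟩ := hOd 0
    rw [← hC 0 h ha.continuousAt hh]
    exact h0
  refine ⟨C, hC0, ?_⟩
  intro z₀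
  obtain ⟨h, ha, h0, hh⟩ := hOd z₀
  have h1 : ∀ᶠ z in nhds z₀, AnalyticAt ℂ h z := ha.eventually_analyticAt
  have hh' := hh
  rw [eventually_nhdsWithin_iff] at hh'
  have h2 := hh'.eventually_nhds
  rw [eventually_nhdsWithin_iff] at hh ⊢
  filter_upwards [h1, h2, hh] with z hz1 hz2 hz3 hne
  have hDz : D z = C := by
    rw [hz3 hne]
    apply hC z h hz1.continuousAt
    rw [eventually_nhdsWithin_iff]
    filter_upwards [hz2, isOpen_ne.mem_nhds hne] with w hw1 hw2 _
    exact hw1 hw2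
  have hg : g (e b * z) ≠ 0 := by
    intro h3
    apply hC0
    rw [← hDz]
    simp only [hD]
    rw [h3, inv_zero, mul_zero]
  rw [← hDz]
  simp only [hD]
  rw [inv_mul_cancel_right₀ hg]

end H28G
end

-- from Lib.H28G.GB6
section

open NumberField IsDedekindDomain WeierstrassCurve

namespace H28G

open H55B

/-! Chunk GB6 (M): the orders of xz, fz, yz. -/

theorem GB6_congr {g g' : ℂ → ℂ} {z₀ : ℂ} {n : ℤ} (h : Od g z₀ n)
    (he : ∀ᶠ z in nhdsWithin z₀ {z₀}ᶜ, g' z = g z) : Od g' z₀ n := by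
  obtain ⟨u, hu, hu0, hu1⟩ := h
  refine ⟨u, hu, hu0, ?_⟩
  filter_upwards [hu1, he] with z h1 h2
  rw [h2, h1]

theorem GB6_zero {g : ℂ → ℂ} (hg : ∀ z (y : O), g (z + 3 * e y) = g z) {z₀ : ℂ} {n : ℤ}
    (h : Od g 0 n) (hz : z₀ ∈ Lam) : Od g z₀ n := by
  obtain ⟨y, hy⟩ := hz
  have h1 : Od (fun z => g (z + -z₀)) z₀ n := by
    apply Od.comp_add
    rwa [add_neg_cancel]
  refine GB6_congr h1 (Filter.Eventually.of_forall fun z => ?_)
  show g z = g (z + -z₀)
  have h2 := hg (z + -z₀) y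
  rw [← hy] at h2
  rw [← h2]
  congr 1
  ring

theorem GB6_Phi {z w : ℂ} : Phi z = Phi w ↔ z - w ∈ Lam := by
  rw [← Phi_eq_zero]
  have h : Phi (z - w) = Phi z - Phi w := by
    rw [sub_eq_add_neg, Phi_add, Phi_neg, ← sub_eq_add_neg]
  rw [h, sub_eq_zero]

theorem GB6_Phi' {z w : ℂ} : Phi z = -Phi w ↔ z + w ∈ Lam := by
  rw [← Phi_neg, GB6_Phi, sub_neg_eq_add]

theorem GB6_xz {z w : ℂ} (hz : z ∉ Lam) (hw : w ∉ Lam) (h : xz z = xz w) :
    z - w ∈ Lam ∨ z + w ∈ Lam := by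
  rw [← xc_Phi hz, ← xc_Phi hw] at h
  rcases xc_eq (fun h0 => hz (Phi_eq_zero.1 h0)) (fun h0 => hw (Phi_eq_zero.1 h0)) h with h1 | h1
  · exact Or.inl (GB6_Phi.1 h1)
  · exact Or.inr (GB6_Phi'.1 h1)

theorem GB6_xz_sub {z w : ℂ} (h : z - w ∈ Lam) : xz z = xz w ∧ yz z = yz w := by
  obtain ⟨y, hy⟩ := h
  have h1 : z = w + 3 * e y := by
    rw [← hy]
    ring
  rw [h1]
  exact ⟨xz_per w y, yz_per w y⟩

theorem GB6_xz_add {z w : ℂ} (h : z + w ∈ Lam) : xz z = xz w := by
  have h1 : z - -w ∈ Lam := by rwa [sub_neg_eq_add]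
  rw [(GB6_xz_sub h1).1]
  unfold xz
  rw [wp_neg]

theorem GB6_xz_a : xz (e om - 1) = 0 := by
  unfold xz
  rw [wp_zero_at, zero_div]

theorem GB6_xz_an {z : ℂ} (hz : z ∉ Lam) : AnalyticAt ℂ xz z := by
  have h := A2_wp_analytic hz
  unfold xz
  fun_prop (disch := exact pow_ne_zero _ kap_ne)

theorem GB6_fz_an {z : ℂ} (hz : z ∉ Lam) : AnalyticAt ℂ fz z := by
  have h := A2_wpd_analytic hz
  unfold fz
  fun_prop (disch := exact pow_ne_zero _ kap_ne)

theorem GB6_yz_an {z : ℂ} (hz : z ∉ Lam) : AnalyticAt ℂ yz z := by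
  have h := GB6_fz_an hz
  unfold yz
  fun_prop (disch := norm_num)

open Classical in
theorem Od_xz (z : ℂ) : Od xz z (if z ∈ Lam then -2 else
    if z - (e om - 1) ∈ Lam ∨ z + (e om - 1) ∈ Lam then 1 else 0) := by
  have hk := kap_ne
  split_ifs with h1 h2
  · refine GB6_zero xz_per ?_ h1
    obtain ⟨u, hu, -, hexp⟩ := wp_expansion
    refine ⟨fun z => (1 + z ^ 6 * u z) / kap ^ 2, ?_, ?_, ?_⟩
    · fun_prop (disch := exact pow_ne_zero _ kap_ne)
    · simp [hk]
    · filter_upwards [hexp, self_mem_nhdsWithin] with z h3 hz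
      have hz' : z ≠ 0 := hz
      unfold xz
      rw [h3, sub_zero, zpow_neg]
      have h4 : z ^ (2 : ℤ) = z ^ 2 := by norm_cast
      rw [h4]
      field_simp
  · have h3 : xz z = 0 := by
      rw [← GB6_xz_a]
      rcases h2 with h | h
      · exact (GB6_xz_sub h).1
      · exact GB6_xz_add h
    refine Od.of_simple (GB6_xz_an h1) h3 ?_
    have h4 : HasDerivAt xz (wpd z / kap ^ 2) z := (wp_hasDeriv h1).div_const _
    rw [h4.deriv]
    have h5 := fz_sq h1
    rw [h3] at h5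
    intro h6
    have h7 : wpd z = 0 := by
      rcases div_eq_zero_iff.1 h6 with h | h
      · exact h
      · exact absurd h (pow_ne_zero 2 hk)
    have h8 : fz z = 0 := by
      unfold fz
      rw [h7, zero_div]
    rw [h8] at h5
    norm_num at h5
  · refine Od.of_ne (GB6_xz_an h1) fun h3 => h2 ?_
    exact GB6_xz h1 A3_n1 (h3.trans GB6_xz_a.symm)

open Classical in
theorem Od_fz (z : ℂ) : Od fz z (if z ∈ Lam then -3 else if 2 * z ∈ Lam then 1 else 0) := by
  have hk := kap_ne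
  split_ifs with h1 h2
  · refine GB6_zero fz_per ?_ h1
    obtain ⟨v, hv, hexp⟩ := wpd_expansion
    refine ⟨fun z => (-2 + z ^ 6 * v z) / kap ^ 3, ?_, ?_, ?_⟩
    · fun_prop (disch := exact pow_ne_zero _ kap_ne)
    · simp [hk]
    · filter_upwards [hexp, self_mem_nhdsWithin] with z h3 hz
      have hz' : z ≠ 0 := hz
      unfold fz
      rw [h3, sub_zero, zpow_neg]
      have h4 : z ^ (3 : ℤ) = z ^ 3 := by norm_cast
      rw [h4]
      field_simp
  · have h3 : fz z = 0 := by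
      obtain ⟨y, hy⟩ := h2
      have h4 := A0_wpd_per (-z) y
      rw [← hy, A0_wpd_neg] at h4
      have h5 : -z + 2 * z = z := by ring
      rw [h5] at h4
      have h6 : wpd z = 0 := by linear_combination (1 / 2) * h4
      unfold fz
      rw [h6, zero_div]
    refine Od.of_simple (GB6_fz_an h1) h3 ?_
    have h4 : HasDerivAt fz (6 * wp z ^ 2 / kap ^ 3) z := (wpd_hasDeriv h1).div_const _
    rw [h4.deriv]
    have h5 := fz_sq h1
    rw [h3] at h5
    have h6 : wp z ≠ 0 := by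
      intro h
      have h7 : xz z = 0 := by
        unfold xz
        rw [h, zero_div]
      rw [h7] at h5
      norm_num at h5
    exact div_ne_zero (mul_ne_zero (by norm_num) (pow_ne_zero 2 h6)) (pow_ne_zero 3 hk)
  · refine Od.of_ne (GB6_fz_an h1) fun h3 => h2 ?_
    rw [← fc_Phi h1] at h3
    have h4 := fc_eq_zero (fun h0 => h1 (Phi_eq_zero.1 h0)) h3
    rw [GB6_Phi'] at h4
    rwa [two_mul]

theorem exists_a0 : ∃ a : ℂ, (a = e om - 1 ∨ a = -(e om - 1)) ∧ a ∉ Lam ∧ xz a = 0 ∧ yz a = 0 := by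
  have h := yz_eqn A3_n1
  rw [GB6_xz_a] at h
  have h1 : yz (e om - 1) * (yz (e om - 1) + 1) = 0 := by linear_combination h
  rcases mul_eq_zero.1 h1 with h2 | h2
  · exact ⟨e om - 1, Or.inl rfl, A3_n1, GB6_xz_a, h2⟩
  · refine ⟨-(e om - 1), Or.inr rfl, fun h => A3_n1 (neg_mem_iff.1 h), ?_, ?_⟩
    · unfold xz
      rw [wp_neg, wp_zero_at, zero_div]
    · have h3 := fz_eq (e om - 1)
      have h4 : fz (-(e om - 1)) = -fz (e om - 1) := by
        unfold fz
        rw [A0_wpd_neg]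
        ring
      unfold yz
      rw [h4, h3]
      linear_combination -h2

open Classical in
theorem Od_yz (a : ℂ) (ha : a ∉ Lam) (h1 : xz a = 0) (h2 : yz a = 0) (z : ℂ) :
    Od yz z (if z ∈ Lam then -3 else if z - a ∈ Lam then 3 else 0) := by
  have hk := kap_ne
  split_ifs with h3 h4
  · refine GB6_zero yz_per ?_ h3
    obtain ⟨v, hv, hexp⟩ := wpd_expansion
    refine ⟨fun z => (-2 + z ^ 6 * v z - kap ^ 3 * z ^ 3) / (2 * kap ^ 3), ?_, ?_, ?_⟩
    · fun_prop (disch := exact mul_ne_zero two_ne_zero (pow_ne_zero _ kap_ne))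
    · simp [hk]
    · filter_upwards [hexp, self_mem_nhdsWithin] with z h3 hz
      have hz' : z ≠ 0 := hz
      unfold yz fz
      rw [h3, sub_zero, zpow_neg]
      have h4 : z ^ (3 : ℤ) = z ^ 3 := by norm_cast
      rw [h4]
      field_simp
  · obtain ⟨h5, h6⟩ := GB6_xz_sub h4
    rw [h1] at h5
    rw [h2] at h6
    have h7 : Od xz z 1 := by
      have h8 := Od_xz z
      rw [if_neg h3] at h8
      have h9 : z - (e om - 1) ∈ Lam ∨ z + (e om - 1) ∈ Lam :=
        GB6_xz h3 A3_n1 (h5.trans GB6_xz_a.symm)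
      rwa [if_pos h9] at h8
    have hy := GB6_yz_an h3
    have h8 : Od (fun t => yz t + 1) z 0 := by
      refine Od.of_ne (by fun_prop) ?_
      show yz z + 1 ≠ 0
      rw [h6, zero_add]
      exact one_ne_zero
    have h9 := (h7.mul (h7.mul h7)).mul h8.inv
    have h10 : (1 : ℤ) + (1 + 1) + -0 = 3 := by norm_num
    rw [h10] at h9
    refine GB6_congr h9 ?_
    have h11 : ∀ᶠ t in nhds z, yz t + 1 ≠ 0 := by
      have h12 : ContinuousAt (fun t => yz t + 1) z :=
        hy.continuousAt.add continuousAt_const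
      apply h12.eventually_ne
      rw [h6, zero_add]
      exact one_ne_zero
    filter_upwards [A2_Lam_discrete z, nhdsWithin_le_nhds h11] with t ht1 ht2
    have h12 := yz_eqn ht1
    rw [eq_mul_inv_iff_mul_eq₀ ht2]
    linear_combination h12
  · refine Od.of_ne (GB6_yz_an h3) fun h5 => h4 ?_
    have h6 : xz z = 0 := by
      have h7 := yz_eqn h3
      rw [h5] at h7
      have h8 : xz z ^ 3 = 0 := by linear_combination -h7
      exact pow_eq_zero_iff (by norm_num) |>.1 h8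
    rw [← GB6_Phi]
    refine pt_ext (fun h0 => h3 (Phi_eq_zero.1 h0)) (fun h0 => ha (Phi_eq_zero.1 h0)) ?_ ?_
    · rw [xc_Phi h3, xc_Phi ha, h6, h1]
    · rw [yc_Phi h3, yc_Phi ha, h5, h2]

end H28G
end

-- from Lib.H28G.GB5
section

open NumberField IsDedekindDomain WeierstrassCurve

namespace H28G

open H55B

/-! Chunk GB5 (M): the distribution relations for xz, yz, fz. Prim b: 3 | b - 1, so e b p - p in Lam for p with 3-torsion: e b p - p = 3 e(y) p, and for p = 0, p = +-(e om - 1) this is in Lam. b <> 0 (Prim.ne_zero).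
distz_x: dist_gen with n from Od_xz; the sum over c of n(z0 + rho c) is by count_pt at p = 0 (with z0 + rho c - 0), p = a, p = -a: write the nested if as
-2 [z in Lam] + [z - a in Lam] + [z + a in Lam] (the three conditions exclude each other: a, 2a not in Lam because (om - 1), 2 (om - 1) are not divisible by 3 in O, A1_mem_iff, A1_not_dvd).
Equality at z0 with e b z0 not in Lam: then z0 + rho c not in Lam for all c (else e b z0 in Lam), both sides are continuous at z0 and equal on a punctured neighbourhood: equal at z0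
(tendsto_nhds_unique).
zero: near 0: xz z * prod_(c <> 0) xz(z + rho c) = C xz(e b z); multiply by z^2: z^2 xz z -> 1/kap^2 (wp_expansion), z^2 xz(e b z) -> 1/(kap^2 (e b)^2); note rho 0 is in Lam and rho c is not in Lam for c <> 0
(rho_bij), so xz(z + rho 0) = xz z (periodicity). third: at a = +-(e om - 1): xz(a + u + rho 0) = xz(a+u), divide by u: xz(a+u)/u -> xz'(a) = kap fz(a) <> 0, xz(e b (a+u))/u = xz(a + e b u)/u -> e b xz'(a).
distz_y: dist_gen with Od_yz, n = -3 [z in Lam] + 3 [z - a in Lam]. distz_f: Od_fz, count_pt at 0 and count_half. -/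

theorem GB5_prim_ne {x : O} (hx : Prim x) : x ≠ 0 := by
  rintro rfl
  have h : (3 : O) ∣ ((-1 : ℤ) : O) + ((0 : ℤ) : O) * om := by
    have h1 : (3 : O) ∣ 0 - 1 := hx
    simpa using h1
  exact A1_not_dvd (by omega) h

theorem GB5_e_ne {b : O} (hb : b ≠ 0) : e b ≠ 0 := by
  intro h
  apply hb
  apply e_injective
  rw [h, map_zero]

theorem GB5_rho {b : O} (hb : b ≠ 0) (c : O ⧸ Ideal.span {b}) : e b * rho b c ∈ Lam := by
  have h := GB5_e_ne hb
  refine ⟨Quotient.out c, ?_⟩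
  unfold rho
  field_simp

theorem GB5_notMem {b : O} (hb : b ≠ 0) (c : O ⧸ Ideal.span {b}) {z : ℂ} (hz : e b * z ∉ Lam) :
    z + rho b c ∉ Lam := by
  intro h
  apply hz
  have h1 := Lam_mul b h
  rw [mul_add] at h1
  have h2 := A1_add_mem h1 (A1_neg_mem (GB5_rho hb c))
  rwa [add_neg_cancel_right] at h2

theorem GB5_rho_zero (b : O) (hb : b ≠ 0) : ∃ y : O, rho b 0 = 3 * e y := by
  have h0 : (Ideal.Quotient.mk (Ideal.span {b})) (Quotient.out (0 : O ⧸ Ideal.span {b})) = 0 :=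
    Ideal.Quotient.mk_out _
  rw [Ideal.Quotient.eq_zero_iff_mem, Ideal.mem_span_singleton] at h0
  obtain ⟨y, hy⟩ := h0
  have h := GB5_e_ne hb
  refine ⟨y, ?_⟩
  unfold rho
  rw [hy, map_mul]
  field_simp

theorem GB5_rho_ne {b : O} (hb : b ≠ 0) {c : O ⧸ Ideal.span {b}} (hc : c ≠ 0) : rho b c ∉ Lam := by
  rintro ⟨y, hy⟩
  apply hc
  have h := GB5_e_ne hb
  unfold rho at hy
  rw [div_eq_iff h] at hy
  have h1 : e (Quotient.out c) = e (b * y) := by
    rw [map_mul]
    have h3 : (3 : ℂ) ≠ 0 := by norm_num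
    apply mul_left_cancel₀ h3
    linear_combination hy
  have h2 := e_injective h1
  rw [← Ideal.Quotient.mk_out c, h2, Ideal.Quotient.eq_zero_iff_mem, Ideal.mem_span_singleton]
  exact ⟨y, rfl⟩

theorem GB5_wp_deriv {z : ℂ} (h : z ∉ Lam) : HasDerivAt wp (wpd z) z := by
  have h1 := (A2_wp_analytic h).differentiableAt.hasDerivAt
  have h2 : deriv wp z = wpd z := congrFun LL.deriv_weierstrassP z
  rwa [h2] at h1

theorem GB5_xz_an {z : ℂ} (h : z ∉ Lam) : AnalyticAt ℂ xz z := by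
  have h1 := A2_wp_analytic h
  have h2 : AnalyticAt ℂ (fun w => wp w / kap ^ 2) z := h1.div analyticAt_const (pow_ne_zero 2 kap_ne)
  exact h2

theorem GB5_fz_an {z : ℂ} (h : z ∉ Lam) : AnalyticAt ℂ fz z := by
  have h1 := A2_wpd_analytic h
  have h2 : AnalyticAt ℂ (fun w => wpd w / kap ^ 3) z := h1.div analyticAt_const (pow_ne_zero 3 kap_ne)
  exact h2

theorem GB5_yz_an {z : ℂ} (h : z ∉ Lam) : AnalyticAt ℂ yz z := by
  have h1 := GB5_fz_an h
  have h2 : AnalyticAt ℂ (fun w => (fz w - 1) / 2) z :=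
    (h1.sub analyticAt_const).div analyticAt_const (by norm_num)
  exact h2

theorem GB5_point (g : ℂ → ℂ) (hg : ∀ z, z ∉ Lam → ContinuousAt g z) (b : O) (hb : b ≠ 0)
    [Fintype (O ⧸ Ideal.span {b})] (C : ℂ)
    (h : ∀ z₀, ∀ᶠ z in nhdsWithin z₀ {z₀}ᶜ,
      ∏ c : O ⧸ Ideal.span {b}, g (z + rho b c) = C * g (e b * z)) (z : ℂ) (hz : e b * z ∉ Lam) :
    ∏ c : O ⧸ Ideal.span {b}, g (z + rho b c) = C * g (e b * z) := by
  have h1 : ContinuousAt (fun w => ∏ c : O ⧸ Ideal.span {b}, g (w + rho b c)) z := by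
    have h2 : ContinuousAt (fun w => ∏ c ∈ (Finset.univ : Finset (O ⧸ Ideal.span {b})),
        g (w + rho b c)) z := by
      refine tendsto_finsetProd _ fun c _ => ?_
      have h3 : ContinuousAt (fun w => w + rho b c) z := by fun_prop
      exact (hg _ (GB5_notMem hb c hz)).comp (f := fun w => w + rho b c) h3
    exact h2
  have h2 : ContinuousAt (fun w => C * g (e b * w)) z := by
    have h3 : ContinuousAt (fun w => e b * w) z := by fun_prop
    exact continuousAt_const.mul ((hg _ hz).comp (f := fun w => e b * w) h3)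
  have h3 := h1.tendsto.mono_left (nhdsWithin_le_nhds (s := {z}ᶜ))
  have h4 := h2.tendsto.mono_left (nhdsWithin_le_nhds (s := {z}ᶜ))
  exact tendsto_nhds_unique (h3.congr' (h z)) h4

theorem GB5_pt_mem {b : O} (hb : Prim b) {p : ℂ} (hp : p = 0 ∨ p = e om - 1 ∨ p = -(e om - 1)) :
    e b * p - p ∈ Lam := by
  obtain ⟨y, hy⟩ := hb
  have h1 : e b = 1 + 3 * e y := by
    have : b = 1 + 3 * y := by linear_combination hy
    rw [this, map_add, map_mul, map_one, map_ofNat]
  rw [h1]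
  rcases hp with rfl | rfl | rfl
  · refine ⟨0, ?_⟩
    rw [map_zero]
    ring
  · refine ⟨y * (om - 1), ?_⟩
    rw [map_mul, map_sub, map_one]
    ring
  · refine ⟨-(y * (om - 1)), ?_⟩
    rw [map_neg, map_mul, map_sub, map_one]
    ring

theorem GB5_two_n1 : 2 * (e om - 1) ∉ Lam := by
  have h : ¬ (3 : O) ∣ ((-2 : ℤ) : O) + ((2 : ℤ) : O) * om := A1_not_dvd (by omega)
  intro h1
  apply h
  rw [← A1_mem_iff]
  have h2 : e (((-2 : ℤ) : O) + ((2 : ℤ) : O) * om) = 2 * (e om - 1) := by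
    push_cast
    rw [map_add, map_neg, map_mul, map_ofNat]
    ring
  rw [h2]
  exact h1

open Classical in
theorem GB5_count_zero (b : O) (hb : b ≠ 0) [Fintype (O ⧸ Ideal.span {b})] (z₀ : ℂ) :
    (∑ c : O ⧸ Ideal.span {b}, if z₀ + rho b c ∈ Lam then (1 : ℤ) else 0) =
      if e b * z₀ ∈ Lam then 1 else 0 := by
  have h := count_pt b hb 0 (by rw [mul_zero, sub_zero]; exact A1_zero_mem) z₀
  simp only [sub_zero] at h
  exact h

open Classical in
theorem GB5_nx (z : ℂ) : (if z ∈ Lam then (-2 : ℤ) else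
    if z - (e om - 1) ∈ Lam ∨ z + (e om - 1) ∈ Lam then 1 else 0) =
    -2 * (if z ∈ Lam then (1 : ℤ) else 0) + (if z - (e om - 1) ∈ Lam then (1 : ℤ) else 0) +
      (if z - (-(e om - 1)) ∈ Lam then (1 : ℤ) else 0) := by
  rw [sub_neg_eq_add]
  by_cases h1 : z ∈ Lam
  · have h2 : z - (e om - 1) ∉ Lam := by
      intro h
      apply A3_n1
      have := A1_add_mem h1 (A1_neg_mem h)
      have e1 : z + -(z - (e om - 1)) = e om - 1 := by ring
      rwa [e1] at this
    have h3 : z + (e om - 1) ∉ Lam := by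
      intro h
      apply A3_n1
      have := A1_add_mem h (A1_neg_mem h1)
      have e1 : z + (e om - 1) + -z = e om - 1 := by ring
      rwa [e1] at this
    simp [h1, h2, h3]
  · by_cases h2 : z - (e om - 1) ∈ Lam
    · have h3 : z + (e om - 1) ∉ Lam := by
        intro h
        apply GB5_two_n1
        have := A1_add_mem h (A1_neg_mem h2)
        have e1 : z + (e om - 1) + -(z - (e om - 1)) = 2 * (e om - 1) := by ring
        rwa [e1] at this
      simp [h1, h2, h3]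
    · simp [h1, h2]

theorem GB5_dist_x (b : O) (hb : Prim b) [Fintype (O ⧸ Ideal.span {b})] :
    ∃ C : ℂ, C ≠ 0 ∧ ∀ z₀, ∀ᶠ z in nhdsWithin z₀ {z₀}ᶜ,
      ∏ c : O ⧸ Ideal.span {b}, xz (z + rho b c) = C * xz (e b * z) := by
  classical
  refine dist_gen xz xz_per _ Od_xz b (GB5_prim_ne hb) ?_
  intro z₀
  simp only [GB5_nx]
  rw [Finset.sum_add_distrib, Finset.sum_add_distrib, ← Finset.mul_sum,
    GB5_count_zero b (GB5_prim_ne hb) z₀]
  have h1 := count_pt b (GB5_prim_ne hb) (e om - 1) (GB5_pt_mem hb (Or.inr (Or.inl rfl))) z₀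
  have h2 := count_pt b (GB5_prim_ne hb) (-(e om - 1)) (GB5_pt_mem hb (Or.inr (Or.inr rfl))) z₀
  rw [h1, h2]

theorem GB5_lim : Filter.Tendsto (fun z => z ^ 2 * xz z) (nhdsWithin 0 {0}ᶜ) (nhds (1 / kap ^ 2)) := by
  obtain ⟨u, hu, -, hexp⟩ := wp_expansion
  have h1 : ContinuousAt (fun z => (1 + z ^ 6 * u z) / kap ^ 2) 0 := by
    have := hu.continuousAt
    fun_prop
  have h2 := h1.tendsto.mono_left (nhdsWithin_le_nhds (s := {(0 : ℂ)}ᶜ))
  have h3 : (1 + (0 : ℂ) ^ 6 * u 0) / kap ^ 2 = 1 / kap ^ 2 := by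
    norm_num
  rw [h3] at h2
  refine h2.congr' ?_
  filter_upwards [hexp, self_mem_nhdsWithin] with z hz hne
  have hne' : z ≠ 0 := hne
  unfold xz
  rw [hz]
  field_simp

theorem distz_x (b : O) (hb : Prim b) [Fintype (O ⧸ Ideal.span {b})] [DecidableEq (O ⧸ Ideal.span {b})] :
    ∃ C : ℂ, C ≠ 0 ∧
    (∀ z, e b * z ∉ Lam → ∏ c : O ⧸ Ideal.span {b}, xz (z + rho b c) = C * xz (e b * z)) ∧
    (∏ c ∈ Finset.univ.erase (0 : O ⧸ Ideal.span {b}), xz (rho b c) = C / (e b) ^ 2) ∧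
    (∀ a : ℂ, a = e om - 1 ∨ a = -(e om - 1) →
      ∏ c ∈ Finset.univ.erase (0 : O ⧸ Ideal.span {b}), xz (a + rho b c) = C * e b) := by
  obtain ⟨C, hC, h⟩ := GB5_dist_x b hb
  have hb0 := (GB5_prim_ne hb)
  have heb := GB5_e_ne hb0
  have hk := kap_ne
  obtain ⟨y0, hy0⟩ := GB5_rho_zero b hb0
  have hsplit : ∀ z, xz z * ∏ c ∈ Finset.univ.erase (0 : O ⧸ Ideal.span {b}), xz (z + rho b c) =
      ∏ c : O ⧸ Ideal.span {b}, xz (z + rho b c) := by
    intro z
    rw [← Finset.mul_prod_erase Finset.univ _ (Finset.mem_univ (0 : O ⧸ Ideal.span {b})), hy0, xz_per]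
  refine ⟨C, hC, GB5_point xz (fun z hz => (GB5_xz_an hz).continuousAt) b hb0 C h, ?_, ?_⟩
  · -- limit at 0
    have h1 : Filter.Tendsto (fun z : ℂ => ∏ c ∈ Finset.univ.erase (0 : O ⧸ Ideal.span {b}),
        xz (z + rho b c)) (nhdsWithin 0 {0}ᶜ)
        (nhds (∏ c ∈ Finset.univ.erase (0 : O ⧸ Ideal.span {b}), xz (rho b c))) := by
      refine tendsto_finsetProd _ fun c hc => ?_
      have hne := GB5_rho_ne hb0 (Finset.ne_of_mem_erase hc)
      have h3 : ContinuousAt (fun w : ℂ => w + rho b c) 0 := by fun_prop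
      have h4 : ContinuousAt xz (0 + rho b c) := by
        rw [zero_add]
        exact (GB5_xz_an hne).continuousAt
      have h5 := (h4.comp (f := fun w : ℂ => w + rho b c) h3).tendsto
      have h6 : (xz ∘ fun w : ℂ => w + rho b c) 0 = xz (rho b c) := by
        simp
      rw [h6] at h5
      exact h5.mono_left nhdsWithin_le_nhds
    have h2 := GB5_lim.mul h1
    have h3 : Filter.Tendsto (fun z : ℂ => C * (((e b * z) ^ 2 * xz (e b * z)) / (e b) ^ 2))
        (nhdsWithin 0 {0}ᶜ) (nhds (C * (1 / kap ^ 2 / (e b) ^ 2))) := by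
      have ht := A1_tendsto (fun z => e b * z) 0 (by fun_prop) (mul_right_injective₀ heb)
      simp only [mul_zero] at ht
      exact ((GB5_lim.comp ht).div_const _).const_mul _
    have h4 : C * (1 / kap ^ 2 / (e b) ^ 2) =
        1 / kap ^ 2 * ∏ c ∈ Finset.univ.erase (0 : O ⧸ Ideal.span {b}), xz (rho b c) := by
      refine tendsto_nhds_unique (h3.congr' ?_) h2
      filter_upwards [h 0, self_mem_nhdsWithin] with z hz hne
      have hne' : z ≠ 0 := hne
      have := hsplit z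
      rw [hz] at this
      field_simp
      linear_combination -this
    field_simp at h4 ⊢
    linear_combination -h4
  · intro a ha
    have haL : a ∉ Lam := by
      rcases ha with rfl | rfl
      · exact A3_n1
      · exact fun h => A3_n1 (neg_mem_iff.1 h)
    have hxa : xz a = 0 := by
      unfold xz
      rcases ha with rfl | rfl
      · rw [wp_zero_at, zero_div]
      · rw [wp_neg, wp_zero_at, zero_div]
    have hmem : e b * a - a ∈ Lam := GB5_pt_mem hb (Or.inr ha)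
    have hda : wpd a ≠ 0 := by
      intro h0
      have h1 := fz_sq haL
      rw [hxa] at h1
      unfold fz at h1
      rw [h0] at h1
      norm_num at h1
    have hebL : e b * a ∉ Lam := by
      intro h0
      apply haL
      have := A1_add_mem h0 (A1_neg_mem hmem)
      have e1 : e b * a + -(e b * a - a) = a := by ring
      rwa [e1] at this
    obtain ⟨y, hy⟩ := hmem
    have hX : HasDerivAt xz (wpd a / kap ^ 2) a := (GB5_wp_deriv haL).div_const _
    have hP : AnalyticAt ℂ (fun z : ℂ => ∏ c ∈ Finset.univ.erase (0 : O ⧸ Ideal.span {b}),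
        xz (z + rho b c)) a := by
      refine Finset.analyticAt_fun_prod _ fun c _ => ?_
      have h1 := GB5_xz_an (GB5_notMem hb0 c hebL)
      exact h1.comp (f := fun w : ℂ => w + rho b c) (by fun_prop)
    have hL := hX.fun_mul hP.differentiableAt.hasDerivAt
    rw [hxa, zero_mul, add_zero] at hL
    have hR : HasDerivAt (fun z : ℂ => C * xz (a + e b * (z - a))) (C * (wpd a / kap ^ 2 * e b)) a := by
      have h1 : HasDerivAt (fun z : ℂ => a + e b * (z - a)) (e b) a := by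
        have h2 := (((hasDerivAt_id a).sub_const a).const_mul (e b)).const_add a
        rw [mul_one] at h2
        exact h2
      have h2 : HasDerivAt xz (wpd a / kap ^ 2) (a + e b * (a - a)) := by
        rw [sub_self, mul_zero, add_zero]
        exact hX
      exact (h2.comp a h1).const_mul C
    have hxz : ∀ z, xz (e b * z) = xz (a + e b * (z - a)) := by
      intro z
      rw [← xz_per (a + e b * (z - a)) y]
      congr 1
      linear_combination hy
    have heq : (fun z : ℂ => C * xz (a + e b * (z - a))) =ᶠ[nhds a]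
        fun z : ℂ => xz z * ∏ c ∈ Finset.univ.erase (0 : O ⧸ Ideal.span {b}), xz (z + rho b c) := by
      have h1 := h a
      rw [eventually_nhdsWithin_iff] at h1
      filter_upwards [h1] with z hz
      by_cases hza : z = a
      · rw [hza, sub_self, mul_zero, add_zero, hxa, zero_mul, mul_zero]
      · rw [hsplit, hz hza, hxz]
    have h1 := (hR.congr_of_eventuallyEq heq.symm).unique hL
    have h2 : wpd a / kap ^ 2 ≠ 0 := div_ne_zero hda (pow_ne_zero 2 hk)
    apply mul_left_cancel₀ h2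
    linear_combination -h1

theorem distz_y (b : O) (hb : Prim b) [Fintype (O ⧸ Ideal.span {b})] : ∃ C : ℂ, C ≠ 0 ∧
    ∀ z, e b * z ∉ Lam → ∏ c : O ⧸ Ideal.span {b}, yz (z + rho b c) = C * yz (e b * z) := by
  classical
  obtain ⟨a, ha, haL, hxa, hya⟩ := exists_a0
  have hn : ∀ z : ℂ, (if z ∈ Lam then (-3 : ℤ) else if z - a ∈ Lam then 3 else 0) =
      -3 * (if z ∈ Lam then (1 : ℤ) else 0) + 3 * (if z - a ∈ Lam then (1 : ℤ) else 0) := by
    intro z
    by_cases h1 : z ∈ Lam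
    · have h2 : z - a ∉ Lam := by
        intro h
        apply haL
        have := A1_add_mem h1 (A1_neg_mem h)
        have e1 : z + -(z - a) = a := by ring
        rwa [e1] at this
      simp [h1, h2]
    · by_cases h2 : z - a ∈ Lam
      · simp [h1, h2]
      · simp [h1, h2]
  obtain ⟨C, hC, h⟩ := dist_gen yz yz_per _ (Od_yz a haL hxa hya) b (GB5_prim_ne hb) (by
    intro z₀
    simp only [hn]
    rw [Finset.sum_add_distrib, ← Finset.mul_sum, ← Finset.mul_sum, GB5_count_zero b (GB5_prim_ne hb) z₀]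
    have h1 := count_pt b (GB5_prim_ne hb) a (GB5_pt_mem hb (Or.inr ha)) z₀
    rw [h1])
  exact ⟨C, hC, GB5_point yz (fun z hz => (GB5_yz_an hz).continuousAt) b (GB5_prim_ne hb) C h⟩

theorem distz_f (b : O) (hb : ¬ (2 : O) ∣ b) [Fintype (O ⧸ Ideal.span {b})] : ∃ C : ℂ, C ≠ 0 ∧
    ∀ z, e b * z ∉ Lam → ∏ c : O ⧸ Ideal.span {b}, fz (z + rho b c) = C * fz (e b * z) := by
  classical
  have hb0 : b ≠ 0 := by
    rintro rfl
    exact hb (dvd_zero 2)
  have hn : ∀ z : ℂ, (if z ∈ Lam then (-3 : ℤ) else if 2 * z ∈ Lam then 1 else 0) =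
      -3 * (if z ∈ Lam then (1 : ℤ) else 0) + (if z ∉ Lam ∧ 2 * z ∈ Lam then (1 : ℤ) else 0) := by
    intro z
    by_cases h1 : z ∈ Lam
    · simp [h1]
    · by_cases h2 : 2 * z ∈ Lam
      · simp [h1, h2]
      · simp [h1, h2]
  obtain ⟨C, hC, h⟩ := dist_gen fz fz_per _ Od_fz b hb0 (by
    intro z₀
    simp only [hn]
    rw [Finset.sum_add_distrib, ← Finset.mul_sum, GB5_count_zero b hb0 z₀, count_half b hb z₀])
  exact ⟨C, hC, GB5_point fz (fun z hz => (GB5_fz_an hz).continuousAt) b hb0 C h⟩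

end H28G
end

-- from Lib.H28G.GC1
section

open NumberField IsDedekindDomain WeierstrassCurve

namespace H28G

open H55B

/-! Chunk GC1 (M): the distribution relations over C for points. X = Phi z (Phi_surj), act b X = Phi (e b z), <> 0 iff e b z not in Lam; the points R of Tor b C are the Phi (rho b c) (rho_bij):
finprod over Tor b C = product over c (finprod_eq_of_bijective / Fintype.prod_equiv, finprod_eq_prod_of_fintype), X + Phi(rho c) = Phi(z + rho c) (Phi_add), z + rho c not in Lam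
(otherwise e b z in Lam), xc_Phi, yc_Phi, fc_Phi. For R <> 0: the c <> 0 (rho 0 in Lam, rho_bij).
C^6 = 1: let q1 be the number of the c <> 0, a = e om - 1 (xz a = 0: wp_zero_at, a not in Lam, A = Phi a). For c <> 0, R = Phi(rho c): xc R <> 0 (otherwise R = A or -A (xc_eq), act b A = A because e b a - a in Lam
(Prim b), but act b R = 0). add_coords for A and R: xc(A+R) = ((yc A - yc R)/(- xc R))^2 - xc R; with yc A in {0, -1}: yc A = 0: = (yc R^2 - xc R^3)/xc R^2 = - yc R/xc R^2; for yc A = -1: ((1 + yc R)^2 - xc R^3)/xc R^2 =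
(1 + yc R)/xc R^2. In both cases xc(A+R) xc(A-R) = -1/xc R (replace yc R by -1 - yc R in the second factor; yc R (1 + yc R) = xc R^3). xz(-a + rho c) = xz(a - rho c) = xc(A - R). So the product of the two relations
prod xz(a + rho c) = C e b, prod xz(-a + rho c) = C e b is (C e b)^2 = prod over c <> 0 of (-1/xz(rho c)) = (-1)^q1 (e b)^2/C, so C^3 = (-1)^q1 and C^6 = 1. -/

theorem GC1_a_notMem : e om - 1 ∉ Lam := by
  have h : e om - 1 = e (((-1 : ℤ) : O) + ((1 : ℤ) : O) * om) := by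
    rw [map_add, map_mul, map_intCast, map_intCast]
    push_cast
    ring
  rw [h, A1_mem_iff]
  exact A1_not_dvd (by norm_num)

theorem GC1_ne {b : O} (hb : Prim b) : b ≠ 0 := by
  rintro rfl
  have h : (3 : O) ∣ ((-1 : ℤ) : O) + ((0 : ℤ) : O) * om := by
    have h1 : (3 : O) ∣ 0 - 1 := hb
    simpa using h1
  exact A1_not_dvd (by norm_num) h

theorem GC1_e_ne {b : O} (hb : b ≠ 0) : e b ≠ 0 := fun h => hb (e_injective (by rw [h, map_zero]))

theorem GC1_rho_mul {b : O} (hb : b ≠ 0) (c : O ⧸ Ideal.span {b}) : e b * rho b c ∈ Lam := by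
  refine ⟨Quotient.out c, ?_⟩
  unfold rho
  rw [mul_div_cancel₀ _ (GC1_e_ne hb)]

theorem GC1_notMem {b : O} (hb : b ≠ 0) {z : ℂ} (hz : e b * z ∉ Lam) (c : O ⧸ Ideal.span {b}) :
    z + rho b c ∉ Lam := by
  intro h
  apply hz
  have h1 := Lam_mul b h
  have h2 : e b * z = e b * (z + rho b c) + -(e b * rho b c) := by ring
  rw [h2]
  exact A1_add_mem h1 (A1_neg_mem (GC1_rho_mul hb c))

theorem GC1_finprod {b : O} (hb : b ≠ 0) [Fintype (O ⧸ Ideal.span {b})] (g : P27 ℂ → ℂ) :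
    ∏ᶠ R : Tor b ℂ, g (R : P27 ℂ) = ∏ c : O ⧸ Ideal.span {b}, g (Phi (rho b c)) := by
  rw [← finprod_eq_prod_of_fintype]
  exact (finprod_eq_of_bijective _ (rho_bij b hb) fun c => rfl).symm

theorem GC1_main {b : O} (hb : b ≠ 0) [Fintype (O ⧸ Ideal.span {b})] (g : P27 ℂ → ℂ) (gz : ℂ → ℂ)
    (hg : ∀ z, z ∉ Lam → g (Phi z) = gz z) {C : ℂ}
    (h : ∀ z, e b * z ∉ Lam → ∏ c : O ⧸ Ideal.span {b}, gz (z + rho b c) = C * gz (e b * z))
    (X : P27 ℂ) (hX : act b X ≠ 0) :
    ∏ᶠ R : Tor b ℂ, g (X + (R : P27 ℂ)) = C * g (act b X) := by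
  obtain ⟨z, rfl⟩ := Phi_surj X
  have hz : e b * z ∉ Lam := by
    intro h1
    apply hX
    rw [← Phi_act]
    exact Phi_of_mem h1
  rw [← Phi_act, hg _ hz, ← h z hz, GC1_finprod hb (fun R => g (Phi z + R))]
  refine Finset.prod_congr rfl fun c _ => ?_
  rw [← Phi_add, hg _ (GC1_notMem hb hz c)]

theorem GC1_zero {b : O} (hb : b ≠ 0) (c : O ⧸ Ideal.span {b}) : Phi (rho b c) = 0 ↔ c = 0 := by
  have h0 : Phi (rho b 0) = 0 := by
    rw [Phi_eq_zero]
    have h1 : Ideal.Quotient.mk (Ideal.span {b}) (Quotient.out (0 : O ⧸ Ideal.span {b})) = 0 :=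
      Ideal.Quotient.mk_out _
    rw [Ideal.Quotient.eq_zero_iff_mem, Ideal.mem_span_singleton] at h1
    obtain ⟨y, hy⟩ := h1
    refine ⟨y, ?_⟩
    unfold rho
    rw [hy, map_mul, div_eq_iff (GC1_e_ne hb)]
    ring
  constructor
  · intro h
    apply (rho_bij b hb).1
    apply Subtype.ext
    change Phi (rho b c) = Phi (rho b 0)
    rw [h, h0]
  · rintro rfl
    exact h0

theorem GC1_finprod' {b : O} (hb : b ≠ 0) [Fintype (O ⧸ Ideal.span {b})]
    [DecidableEq (O ⧸ Ideal.span {b})] (g : P27 ℂ → ℂ) :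
    ∏ᶠ R : {R : Tor b ℂ // R ≠ 0}, g (R.1 : P27 ℂ) =
      ∏ c ∈ Finset.univ.erase (0 : O ⧸ Ideal.span {b}), g (Phi (rho b c)) := by
  have hbij := rho_bij b hb
  let ψ : {c : O ⧸ Ideal.span {b} // c ≠ 0} → {R : Tor b ℂ // R ≠ 0} := fun c =>
    ⟨⟨Phi (rho b c.1), rho_mem b hb c.1⟩, fun h => c.2 ((GC1_zero hb c.1).1 (congrArg Subtype.val h))⟩
  have hψ : Function.Bijective ψ := by
    constructor
    · intro c c' h
      apply Subtype.ext
      apply hbij.1
      exact congrArg Subtype.val h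
    · rintro ⟨R, hR⟩
      obtain ⟨c, hc⟩ := hbij.2 R
      refine ⟨⟨c, ?_⟩, ?_⟩
      · intro h0
        apply hR
        rw [← hc]
        exact Subtype.ext ((GC1_zero hb c).2 h0)
      · apply Subtype.ext
        exact hc
  rw [Finset.prod_subtype (Finset.univ.erase (0 : O ⧸ Ideal.span {b})) (p := fun c => c ≠ 0)
    (fun x => by simp) (fun c => g (Phi (rho b c))), ← finprod_eq_prod_of_fintype]
  exact (finprod_eq_of_bijective ψ hψ fun c => rfl).symm

/-- The product of the two translates by a point A with x(A) = 0. -/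
theorem GC1_pair {A R : P27 ℂ} (hA : A ≠ 0) (hR : R ≠ 0) (hxA : xc A = 0) (hxR : xc R ≠ 0) :
    xc (A + R) * xc (-A + R) = -1 / xc R := by
  have hxA' : xc (-A) = 0 := by rw [xc_neg, hxA]
  obtain ⟨-, h1, -⟩ := add_coords hA hR (by rw [hxA]; exact hxR.symm)
  obtain ⟨-, h2, -⟩ := add_coords (neg_ne hA) hR (by rw [hxA']; exact hxR.symm)
  have hy := eqn A
  rw [hxA] at hy
  have hyA : yc A * (yc A + 1) = 0 := by linear_combination hy
  have hyR := eqn R
  rw [h1, h2, hxA, hxA', yc_neg hA]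
  obtain ⟨x, hx⟩ : ∃ x, x = xc R := ⟨_, rfl⟩
  obtain ⟨y, hy⟩ : ∃ y, y = yc R := ⟨_, rfl⟩
  rw [← hx, ← hy] at hyR
  rw [← hx] at hxR
  rw [← hx, ← hy]
  rcases mul_eq_zero.1 hyA with h | h
  · rw [h]
    have e1 : ((0 - y) / (0 - x)) ^ 2 - 0 - x = -y / x ^ 2 := by
      field_simp
      linear_combination x ^ 2 * hyR
    have e2 : ((-1 - 0 - y) / (0 - x)) ^ 2 - 0 - x = (1 + y) / x ^ 2 := by
      field_simp
      linear_combination x ^ 2 * hyR
    rw [e1, e2]
    field_simp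
    linear_combination -hyR
  · have h' : yc A = -1 := by linear_combination h
    rw [h']
    have e1 : ((-1 - y) / (0 - x)) ^ 2 - 0 - x = (1 + y) / x ^ 2 := by
      field_simp
      linear_combination x ^ 2 * hyR
    have e2 : ((-1 - -1 - y) / (0 - x)) ^ 2 - 0 - x = -y / x ^ 2 := by
      field_simp
      linear_combination x ^ 2 * hyR
    rw [e1, e2]
    field_simp
    linear_combination -hyR

theorem distC_x (b : O) (hb : Prim b) : ∃ C : ℂ, C ^ 6 = 1 ∧
    (∀ X : P27 ℂ, act b X ≠ 0 → ∏ᶠ R : Tor b ℂ, xc (X + (R : P27 ℂ)) = C * xc (act b X)) ∧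
    ∏ᶠ R : {R : Tor b ℂ // R ≠ 0}, xc (R.1 : P27 ℂ) = C / (e b) ^ 2 := by
  classical
  have hb0 : b ≠ 0 := GC1_ne hb
  have := finite_quot b hb0
  have : Fintype (O ⧸ Ideal.span {b}) := Fintype.ofFinite _
  obtain ⟨C, hC0, h1, h2, h3⟩ := distz_x b hb
  have heb := GC1_e_ne hb0
  have hne : ∀ c ∈ Finset.univ.erase (0 : O ⧸ Ideal.span {b}), Phi (rho b c) ≠ 0 := by
    intro c hc h
    exact Finset.ne_of_mem_erase hc ((GC1_zero hb0 c).1 h)
  have hnL : ∀ c ∈ Finset.univ.erase (0 : O ⧸ Ideal.span {b}), rho b c ∉ Lam :=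
    fun c hc h => hne c hc (Phi_of_mem h)
  refine ⟨C, ?_, ?_, ?_⟩
  · -- the sixth power
    obtain ⟨a, ha⟩ : ∃ a, a = e om - 1 := ⟨_, rfl⟩
    have ha0 : a ∉ Lam := by rw [ha]; exact GC1_a_notMem
    have hA0 : Phi a ≠ 0 := fun h => ha0 (Phi_eq_zero.1 h)
    have hxA : xc (Phi a) = 0 := by
      rw [xc_Phi ha0, ha]
      unfold xz
      rw [wp_zero_at, zero_div]
    have hbA : act b (Phi a) = Phi a := by
      obtain ⟨y, hy⟩ := hb
      rw [← Phi_act]
      have h4 : e b * a = a + 3 * e (y * (om - 1)) := by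
        have h5 : b = 1 + 3 * y := by linear_combination hy
        rw [h5, ha]
        simp only [map_add, map_mul, map_sub, map_one, map_ofNat]
        ring
      rw [h4, Phi_per]
    have hxR : ∀ c ∈ Finset.univ.erase (0 : O ⧸ Ideal.span {b}), xc (Phi (rho b c)) ≠ 0 := by
      intro c hc h
      have h4 : act b (Phi (rho b c)) = 0 := rho_mem b hb0 c
      rcases xc_eq (hne c hc) hA0 (by rw [h, hxA]) with h5 | h5
      · rw [h5, hbA] at h4
        exact hA0 h4
      · rw [h5, map_neg, hbA] at h4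
        exact neg_ne hA0 h4
    have hpair : ∀ c ∈ Finset.univ.erase (0 : O ⧸ Ideal.span {b}),
        xz (a + rho b c) * xz (-a + rho b c) = -1 / xz (rho b c) := by
      intro c hc
      have h4 : a + rho b c ∉ Lam := by
        intro h
        have h5 := Phi_of_mem h
        rw [Phi_add] at h5
        apply hxR c hc
        have h6 : Phi (rho b c) = -Phi a := (neg_eq_of_add_eq_zero_right h5).symm
        rw [h6, xc_neg, hxA]
      have h4' : -a + rho b c ∉ Lam := by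
        intro h
        have h5 := Phi_of_mem h
        rw [Phi_add, Phi_neg] at h5
        apply hxR c hc
        have h6 : Phi (rho b c) = Phi a := (neg_add_eq_zero.1 h5).symm
        rw [h6, hxA]
      rw [← xc_Phi h4, ← xc_Phi h4', ← xc_Phi (hnL c hc), Phi_add, Phi_add, Phi_neg]
      exact GC1_pair hA0 (hne c hc) hxA (hxR c hc)
    have h4 := h3 a (Or.inl ha)
    have h5 := h3 (-a) (Or.inr (by rw [ha]))
    have h6 : (C * e b) * (C * e b) = (-1) ^ (Finset.univ.erase (0 : O ⧸ Ideal.span {b})).card /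
        (C / (e b) ^ 2) := by
      rw [← h2]
      nth_rewrite 1 [← h4]
      rw [← h5, ← Finset.prod_mul_distrib, Finset.prod_congr rfl hpair, Finset.prod_div_distrib,
        Finset.prod_const]
    have h7 : C ^ 3 = (-1) ^ (Finset.univ.erase (0 : O ⧸ Ideal.span {b})).card := by
      rw [eq_div_iff (div_ne_zero hC0 (pow_ne_zero 2 heb))] at h6
      rw [← h6]
      field_simp
    calc C ^ 6 = (C ^ 3) ^ 2 := by ring
      _ = 1 := by rw [h7, ← pow_mul, mul_comm, pow_mul, neg_one_sq, one_pow]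
  · exact GC1_main hb0 xc xz (fun z hz => xc_Phi hz) h1
  · rw [← h2, GC1_finprod' hb0 xc]
    exact Finset.prod_congr rfl fun c hc => xc_Phi (hnL c hc)

theorem distC_y (b : O) (hb : Prim b) : ∃ C : ℂ, C ≠ 0 ∧
    ∀ X : P27 ℂ, act b X ≠ 0 → ∏ᶠ R : Tor b ℂ, yc (X + (R : P27 ℂ)) = C * yc (act b X) := by
  have hb0 : b ≠ 0 := GC1_ne hb
  have := finite_quot b hb0
  have : Fintype (O ⧸ Ideal.span {b}) := Fintype.ofFinite _
  obtain ⟨C, hC0, h1⟩ := distz_y b hb
  exact ⟨C, hC0, GC1_main hb0 yc yz (fun z hz => yc_Phi hz) h1⟩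

theorem distC_f (b : O) (hb : ¬ (2 : O) ∣ b) : ∃ C : ℂ, C ≠ 0 ∧
    ∀ X : P27 ℂ, act b X ≠ 0 → ∏ᶠ R : Tor b ℂ, fc (X + (R : P27 ℂ)) = C * fc (act b X) := by
  have hb0 : b ≠ 0 := by
    rintro rfl
    exact hb (dvd_zero _)
  have := finite_quot b hb0
  have : Fintype (O ⧸ Ideal.span {b}) := Fintype.ofFinite _
  obtain ⟨C, hC0, h1⟩ := distz_f b hb
  exact ⟨C, hC0, GC1_main hb0 fc fz (fun z hz => fc_Phi hz) h1⟩

end H28G
end

-- from Lib.H28G.GC2
section

open NumberField IsDedekindDomain WeierstrassCurve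

namespace H28G

open H55B

/-! Chunk GC2 (S/M): transfer to a field k over F with an embedding j into C and full b-torsion. mp j is a bijection Tor b k -> Tor b C (Full.bij, full_C, mp_inj). Put C' = (ak k b)^2 * finprod in k; its image is C
(j (ak k b) = e b: j.commutes, algC_e; map_finprod or finite products: Full.finite), so C'^6 = 1 by injectivity. For X over k: apply the relation over C to mp j X: mp j (X + R) = mp j X + mp j R, mp_act, xc_mp; both sides
are images under j: injectivity of j. For y and f: C in C is not a priori in j(k): if there is a point X over k with act b X <> 0 and yc (act b X) <> 0 then C = j(quotient): use X = Spt = pt (-1) (ok k) (yc <> 0;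
act b Spt = Spt for Prim b) for y. For f: X = Spt with b replaced: act b Spt <> 0 because 3 Spt = 0 and b prime to 3; here Prim b is assumed too (fc Spt = 2 om + 1 <> 0). So C' = (finprod over R of yc (Spt + R)) / yc Spt. -/

/-- The ring homomorphism from O to k. -/
noncomputable def ak (k : Type) [Field k] [Algebra F k] : O →+* k := (algebraMap F k).comp (algebraMap O F)

section
variable {k : Type} [Field k] [DecidableEq k] [Algebra F k]

omit [DecidableEq k] in
theorem Spt_aux : (ok k) ^ 2 + ok k = (-1 : k) ^ 3 := by linear_combination ok_rel (k := k)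

/-- The point S = (-1, om) of order 3. -/
noncomputable def Spt (k : Type) [Field k] [Algebra F k] : P27 k := pt (-1) (ok k) Spt_aux

omit [DecidableEq k] in
theorem GC2_ne : Spt k ≠ 0 := pt_ne _ _ _

omit [DecidableEq k] in
theorem GC2_xc : xc (Spt k) = -1 := rfl

omit [DecidableEq k] in
theorem GC2_yc : yc (Spt k) = ok k := rfl

omit [DecidableEq k] in
theorem GC2_fc : fc (Spt k) = 2 * ok k + 1 := rfl

omit [DecidableEq k] in
theorem GC2_fc_sq : (2 * ok k + 1) ^ 2 = -3 := by linear_combination 4 * ok_rel (k := k)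

omit [DecidableEq k] in
theorem GC2_fc_ne : fc (Spt k) ≠ 0 := by
  intro h
  rw [GC2_fc] at h
  have h1 := GC2_fc_sq (k := k)
  rw [h] at h1
  have := char0 (k := k)
  norm_num at h1

theorem three_Spt : (3 : ℤ) • Spt k = 0 := by
  obtain ⟨h1, h2, h3⟩ := dbl_coords (P := Spt k) GC2_ne GC2_fc_ne
  have hs := GC2_fc_sq (k := k)
  have hf := GC2_fc_ne (k := k)
  have hx : xc (Spt k + Spt k) = xc (Spt k) := by
    rw [h2, div_pow, GC2_fc, hs, GC2_xc]
    have := char0 (k := k)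
    norm_num
  have hy : yc (Spt k + Spt k) = yc (-Spt k) := by
    rw [h3, hx, sub_self, mul_zero, zero_add, yc_neg GC2_ne]
  have h4 : Spt k + Spt k = -Spt k := pt_ext h1 (neg_ne GC2_ne) (by rw [hx, xc_neg]) hy
  have h5 : (3 : ℤ) • Spt k = Spt k + Spt k + Spt k := by
    have : (3 : ℤ) = 1 + 1 + 1 := by norm_num
    rw [this, add_zsmul, add_zsmul, one_zsmul]
  rw [h5, h4, neg_add_cancel]

theorem act_Spt (b : O) (hb : Prim b) : act b (Spt k) = Spt k := by
  obtain ⟨c, hc⟩ := hb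
  have h1 : b = c * ((3 : ℤ) : O) + 1 := by
    push_cast
    linear_combination hc
  rw [h1, act_add, act_mul, act_int, three_Spt, map_zero, act_one, zero_add]

theorem GC2_prod (j : k →ₐ[F] ℂ) {b : O} (hb : b ≠ 0) (hf : Full b k) (g : P27 k → k) (g' : P27 ℂ → ℂ)
    (hg : ∀ P, g' (mp j P) = j (g P)) (X : P27 k) :
    j (∏ᶠ R : Tor b k, g (X + (R : P27 k))) = ∏ᶠ R : Tor b ℂ, g' (mp j X + (R : P27 ℂ)) := by
  have h1 : j (∏ᶠ R : Tor b k, g (X + (R : P27 k))) = ∏ᶠ R : Tor b k, j (g (X + (R : P27 k))) :=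
    MonoidHom.map_finprod_of_injective (j : k →* ℂ) j.injective _
  have hb' := Full.bij hb j hf (full_C b hb)
  let φ : Tor b k → Tor b ℂ := fun S => ⟨mp j S.1, (mp_mem_Tor j b S.1).2 S.2⟩
  have hφ : Function.Bijective φ := by
    refine ⟨fun a b hab => Subtype.ext (mp_inj j (congrArg Subtype.val hab)), ?_⟩
    intro R
    obtain ⟨S, hS, hS'⟩ := hb' R.1 R.2
    exact ⟨⟨S, hS⟩, Subtype.ext hS'⟩
  rw [h1, ← finprod_comp φ hφ]
  refine finprod_congr fun R => ?_
  rw [← hg, map_add]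

theorem GC2_prod0 (j : k →ₐ[F] ℂ) {b : O} (hb : b ≠ 0) (hf : Full b k) (g : P27 k → k) (g' : P27 ℂ → ℂ)
    (hg : ∀ P, g' (mp j P) = j (g P)) :
    j (∏ᶠ R : {R : Tor b k // R ≠ 0}, g (R.1 : P27 k)) = ∏ᶠ R : {R : Tor b ℂ // R ≠ 0}, g' (R.1 : P27 ℂ) := by
  have h1 : j (∏ᶠ R : {R : Tor b k // R ≠ 0}, g (R.1 : P27 k)) =
      ∏ᶠ R : {R : Tor b k // R ≠ 0}, j (g (R.1 : P27 k)) :=
    MonoidHom.map_finprod_of_injective (j : k →* ℂ) j.injective _
  have hb' := Full.bij hb j hf (full_C b hb)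
  let φ : {R : Tor b k // R ≠ 0} → {R : Tor b ℂ // R ≠ 0} := fun S =>
    ⟨⟨mp j S.1.1, (mp_mem_Tor j b S.1.1).2 S.1.2⟩, fun h => by
      have h2 : mp j S.1.1 = 0 := congrArg Subtype.val h
      exact mp_ne j (fun h3 => S.2 (Subtype.ext h3)) h2⟩
  have hφ : Function.Bijective φ := by
    refine ⟨fun a b hab => ?_, ?_⟩
    · have h2 : mp j a.1.1 = mp j b.1.1 := congrArg (fun x => (x.1 : Tor _ ℂ).1) hab
      exact Subtype.ext (Subtype.ext (mp_inj j h2))
    · intro R
      obtain ⟨S, hS, hS'⟩ := hb' R.1.1 R.1.2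
      refine ⟨⟨⟨S, hS⟩, fun h => R.2 ?_⟩, Subtype.ext (Subtype.ext hS')⟩
      have h2 : S = 0 := congrArg Subtype.val h
      rw [h2, map_zero] at hS'
      exact Subtype.ext hS'.symm
  rw [h1, ← finprod_comp φ hφ]
  refine finprod_congr fun R => ?_
  rw [← hg]

theorem GC2_ne_zero {b : O} (hb : Prim b) : b ≠ 0 := by
  rintro rfl
  obtain ⟨c, hc⟩ := hb
  have h1 : (3 : O) ∣ 1 := ⟨-c, by linear_combination -hc⟩
  have h2 : e 1 ∈ Lam := (A1_mem_iff 1).2 h1
  rw [map_one] at h2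
  exact A1_one_notMem h2

omit [DecidableEq k] in
theorem GC2_inj (j : k →ₐ[F] ℂ) {x y : k} (h : j x = j y) : x = y := j.injective h

omit [DecidableEq k] in
theorem GC2_ak (j : k →ₐ[F] ℂ) (b : O) : j (ak k b) = e b := j.commutes _

theorem dist_x (j : k →ₐ[F] ℂ) (b : O) (hb : Prim b) (hf : Full b k) : ∃ C : k, C ^ 6 = 1 ∧
    (∀ X : P27 k, act b X ≠ 0 → ∏ᶠ R : Tor b k, xc (X + (R : P27 k)) = C * xc (act b X)) ∧
    ∏ᶠ R : {R : Tor b k // R ≠ 0}, xc (R.1 : P27 k) = C / (ak k b) ^ 2 := by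
  have hb0 := GC2_ne_zero hb
  have heb : e b ≠ 0 := fun h => hb0 (e_injective (by rw [h, map_zero]))
  have hak : ak k b ≠ 0 := by
    intro h
    have := GC2_ak j b
    rw [h, map_zero] at this
    exact heb this.symm
  obtain ⟨C, h6, hX, h0⟩ := distC_x b hb
  set C' : k := (ak k b) ^ 2 * ∏ᶠ R : {R : Tor b k // R ≠ 0}, xc (R.1 : P27 k) with hC'
  have hj : j C' = C := by
    rw [hC', map_mul, map_pow, GC2_ak, GC2_prod0 j hb0 hf xc xc (fun P => xc_mp j P), h0]
    field_simp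
  refine ⟨C', ?_, ?_, ?_⟩
  · refine GC2_inj j ?_
    rw [map_pow, hj, h6, map_one]
  · intro X hXb
    refine GC2_inj j ?_
    rw [GC2_prod j hb0 hf xc xc (fun P => xc_mp j P), map_mul, hj, ← xc_mp, mp_act]
    apply hX
    rw [← mp_act]
    exact mp_ne j hXb
  · rw [hC', mul_div_cancel_left₀ _ (pow_ne_zero 2 hak)]

theorem dist_y (j : k →ₐ[F] ℂ) (b : O) (hb : Prim b) (hf : Full b k) : ∃ C : k, C ≠ 0 ∧
    ∀ X : P27 k, act b X ≠ 0 → ∏ᶠ R : Tor b k, yc (X + (R : P27 k)) = C * yc (act b X) := by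
  have hb0 := GC2_ne_zero hb
  obtain ⟨C, hC, hX⟩ := distC_y b hb
  set C' : k := (∏ᶠ R : Tor b k, yc (Spt k + (R : P27 k))) / yc (Spt k) with hC'
  have hj : j C' = C := by
    have h1 : act b (mp j (Spt k)) ≠ 0 := by
      rw [← mp_act, act_Spt b hb]
      exact mp_ne j GC2_ne
    have h2 : yc (mp j (Spt k)) ≠ 0 := by
      rw [yc_mp]
      exact (map_ne_zero j).2 (by rw [GC2_yc]; exact ok_ne)
    rw [hC', map_div₀, GC2_prod j hb0 hf yc yc (fun P => yc_mp j P), hX _ h1, ← mp_act,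
      act_Spt b hb, ← yc_mp, mul_div_cancel_right₀ _ h2]
  refine ⟨C', ?_, ?_⟩
  · intro h
    rw [h, map_zero] at hj
    exact hC hj.symm
  · intro X hXb
    refine GC2_inj j ?_
    rw [GC2_prod j hb0 hf yc yc (fun P => yc_mp j P), map_mul, hj, ← yc_mp, mp_act]
    apply hX
    rw [← mp_act]
    exact mp_ne j hXb

theorem dist_f (j : k →ₐ[F] ℂ) (b : O) (hb : Prim b) (h2 : ¬ (2 : O) ∣ b) (hf : Full b k) :
    ∃ C : k, C ≠ 0 ∧
    ∀ X : P27 k, act b X ≠ 0 → ∏ᶠ R : Tor b k, fc (X + (R : P27 k)) = C * fc (act b X) := by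
  have hb0 := GC2_ne_zero hb
  obtain ⟨C, hC, hX⟩ := distC_f b h2
  set C' : k := (∏ᶠ R : Tor b k, fc (Spt k + (R : P27 k))) / fc (Spt k) with hC'
  have hj : j C' = C := by
    have h1 : act b (mp j (Spt k)) ≠ 0 := by
      rw [← mp_act, act_Spt b hb]
      exact mp_ne j GC2_ne
    have h2 : fc (mp j (Spt k)) ≠ 0 := by
      rw [fc_mp]
      exact (map_ne_zero j).2 GC2_fc_ne
    rw [hC', map_div₀, GC2_prod j hb0 hf fc fc (fun P => fc_mp j P), hX _ h1, ← mp_act,
      act_Spt b hb, ← fc_mp, mul_div_cancel_right₀ _ h2]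
  refine ⟨C', ?_, ?_⟩
  · intro h
    rw [h, map_zero] at hj
    exact hC hj.symm
  · intro X hXb
    refine GC2_inj j ?_
    rw [GC2_prod j hb0 hf fc fc (fun P => fc_mp j P), map_mul, hj, ← fc_mp, mp_act]
    apply hX
    rw [← mp_act]
    exact mp_ne j hXb

end

end H28G
end

-- from Lib.H28G.GV1
section

open NumberField IsDedekindDomain WeierstrassCurve

namespace H28G

open H55B

/-! Chunk GV1 (S/M): coordinates near infinity and integers. y^2 + y = x^3, v x > 1: v y > 1 (otherwise v(y^2+y) <= 1), so v(y^2 + y) = v(y)^2 (v y < v y^2; Valuation.map_add_eq_of_lt_left), v(y)^2 = v(x)^3.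
t = -x/y: v(t)^2 = v(x)^2/v(x)^3, v(t)^3 = v(x)^3/v(y)^3 = 1/v(y). w = -1/y: w = t^3 + w^2, v(w) = v(t)^3. x = t/w, y = -1/w. Conversely int_y: v x <= 1 => v y <= 1 (otherwise v(y^2+y) = v(y)^2 > 1).
ak_le: c = a + b om with integers a, b, v(integer) <= 1, v(om) = 1 (om^3 = 1). E1_neg: xc_neg. E1_om: v(ok) = 1. -/

variable {k : Type} [Field k] [DecidableEq k] [Algebra F k]
  {Γ : Type} [LinearOrderedCommGroupWithZero Γ] (v : Valuation k Γ)

omit [DecidableEq k] in
theorem GV1_big {x y : k} (h : y ^ 2 + y = x ^ 3) (hy : 1 < v y) : v y ^ 2 = v x ^ 3 := by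
  have h1 : v y < v (y ^ 2) := by
    rw [map_pow]
    have h2 := pow_lt_pow_right₀ hy one_lt_two
    rwa [pow_one] at h2
  have h3 := Valuation.map_add_eq_of_lt_left v h1
  rw [h, map_pow, map_pow] at h3
  exact h3.symm

theorem y_sq {P : P27 k} (h : 1 < v (xc P)) : v (yc P) ^ 2 = v (xc P) ^ 3 ∧ 1 < v (yc P) := by
  have hy : 1 < v (yc P) := by
    by_contra hc
    rw [not_lt] at hc
    have h1 : v (yc P ^ 2 + yc P) ≤ 1 := by
      refine v.map_add_le ?_ hc
      rw [map_pow]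
      exact pow_le_one' hc 2
    rw [eqn P, map_pow] at h1
    exact absurd h1 (not_le.2 (one_lt_pow₀ h three_ne_zero))
  exact ⟨GV1_big v (eqn P) hy, hy⟩

theorem GV1_ne {P : P27 k} (h : 1 < v (xc P)) : xc P ≠ 0 ∧ yc P ≠ 0 := by
  have hy := (y_sq v h).2
  constructor
  · intro h0
    rw [h0, map_zero] at h
    exact absurd h (not_lt.2 zero_le_one)
  · intro h0
    rw [h0, map_zero] at hy
    exact absurd hy (not_lt.2 zero_le_one)

theorem tt_val {P : P27 k} (h : 1 < v (xc P)) :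
    v (tt P) < 1 ∧ v (tt P) ≠ 0 ∧ v (tt P) ^ 2 * v (xc P) = 1 ∧ v (tt P) ^ 3 * v (yc P) = 1 := by
  obtain ⟨hs, hy⟩ := y_sq v h
  obtain ⟨hx0, hy0⟩ := GV1_ne v h
  have hvx0 : v (xc P) ≠ 0 := (Valuation.ne_zero_iff v).2 hx0
  have hvy0 : v (yc P) ≠ 0 := (Valuation.ne_zero_iff v).2 hy0
  have ht : v (tt P) = v (xc P) / v (yc P) := by
    unfold tt
    rw [map_div₀, Valuation.map_neg]
  rw [ht]
  refine ⟨?_, div_ne_zero hvx0 hvy0, ?_, ?_⟩
  · rw [div_lt_one₀ (zero_lt_iff.2 hvy0)]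
    refine lt_of_pow_lt_pow_left₀ 2 zero_le ?_
    rw [hs]
    exact pow_lt_pow_right₀ h (by norm_num)
  · rw [div_pow, hs, div_mul_eq_mul_div, ← pow_succ]
    exact div_self (pow_ne_zero 3 hvx0)
  · rw [div_pow, ← hs, div_mul_eq_mul_div, ← pow_succ]
    exact div_self (pow_ne_zero 3 hvy0)

theorem ww_val {P : P27 k} (h : 1 < v (xc P)) :
    ww P ≠ 0 ∧ v (ww P) = v (tt P) ^ 3 ∧ ww P = tt P ^ 3 + ww P ^ 2 ∧ xc P = tt P / ww P ∧
      yc P = -1 / ww P := by
  obtain ⟨hx0, hy0⟩ := GV1_ne v h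
  obtain ⟨-, -, -, h4⟩ := tt_val v h
  have he := eqn P
  refine ⟨?_, ?_, ?_, ?_, ?_⟩
  · unfold ww
    exact div_ne_zero (neg_ne_zero.2 one_ne_zero) hy0
  · unfold ww
    rw [map_div₀, Valuation.map_neg, map_one]
    exact (eq_one_div_of_mul_eq_one_left h4).symm
  · unfold ww tt
    field_simp
    linear_combination -he
  · unfold ww tt
    field_simp
  · unfold ww
    field_simp

theorem int_y {P : P27 k} (h : v (xc P) ≤ 1) : v (yc P) ≤ 1 := by
  by_contra hc
  rw [not_le] at hc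
  have h1 := GV1_big v (eqn P) hc
  have h2 : v (xc P) ^ 3 ≤ 1 := pow_le_one' h 3
  rw [← h1] at h2
  exact absurd h2 (not_le.2 (one_lt_pow₀ hc two_ne_zero))

omit [DecidableEq k] in
theorem GV1_int (n : ℤ) : v (n : k) ≤ 1 := by
  have h1 : (n : k) ∈ v.integer := intCast_mem v.integer n
  exact h1

theorem ok_val : v (ok k) = 1 := by
  have h1 : v (ok k) ^ 3 = 1 := by rw [← map_pow, ok_cube, map_one]
  exact (pow_eq_one_iff.1 h1).resolve_right (by norm_num)

theorem ak_le (c : O) : v (ak k c) ≤ 1 := by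
  obtain ⟨a, b, rfl⟩ := exists_repr c
  have h1 : ak k ((a : O) + b * om) = (a : k) + (b : k) * ok k := by
    unfold ak ok
    simp
  rw [h1]
  refine v.map_add_le (GV1_int v a) ?_
  rw [map_mul, ok_val v, mul_one]
  exact GV1_int v b

theorem E1_neg {P : P27 k} (h : E1 v P) : E1 v (-P) := by
  rcases h with h | h
  · left
    rw [h]
    rfl
  · right
    rw [xc_neg]
    exact h

theorem E1_om {P : P27 k} (h : E1 v P) : E1 v (omP P) ∧ tt (omP P) = ok k * tt P := by
  constructor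
  · rcases h with h | h
    · left
      rw [h, map_zero]
    · right
      rw [xc_omP, map_mul, ok_val v, one_mul]
      exact h
  · unfold tt
    rw [xc_omP, yc_omP]
    ring

end H28G
end

-- from Lib.H55N.E1
section

open NumberField IsDedekindDomain

namespace H55N

open H55B

/-! ### Estimates -/

/-- The correction term. -/
noncomputable def E1_k (R : ℝ) (y : ℂ) : ℂ := (starRingEnd ℂ) y / ((R ^ 2 + ‖y‖ ^ 2 : ℝ) : ℂ)

theorem E1_term (R : ℝ) (hR : 0 < R) (y : ℂ) :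
    y⁻¹ * ((R ^ 2 / (R ^ 2 + ‖y‖ ^ 2) : ℝ) : ℂ) = y⁻¹ - E1_k R y := by
  by_cases hy : y = 0
  · simp [hy, E1_k]
  · have h1 : (R ^ 2 + ‖y‖ ^ 2 : ℝ) ≠ 0 := by positivity
    have h1' : ((R ^ 2 + ‖y‖ ^ 2 : ℝ) : ℂ) ≠ 0 := by exact_mod_cast h1
    have h2 : y * (starRingEnd ℂ) y = ((‖y‖ ^ 2 : ℝ) : ℂ) := by
      rw [Complex.mul_conj, Complex.normSq_eq_norm_sq]
    unfold E1_k
    rw [Complex.ofReal_div]
    have h3 : ((R ^ 2 : ℝ) : ℂ) = ((R ^ 2 + ‖y‖ ^ 2 : ℝ) : ℂ) - y * (starRingEnd ℂ) y := by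
      rw [h2]
      push_cast
      ring
    rw [h3, sub_div, div_self h1']
    field_simp

theorem E1_low (R : ℝ) (hR : 1 ≤ R) (y w : ℂ) :
    (1 + ‖y‖) ^ 2 ≤ 4 * (1 + ‖w‖ ^ 2) * (R ^ 2 + ‖y + w‖ ^ 2) := by
  have hR1 : 1 ≤ R ^ 2 := by nlinarith
  have h1 : ‖y‖ ≤ ‖y + w‖ + ‖w‖ := by
    have := norm_sub_le (y + w) w
    rwa [add_sub_cancel_right] at this
  have h2 : ‖y‖ ^ 2 ≤ 2 * ‖y + w‖ ^ 2 + 2 * ‖w‖ ^ 2 := by
    calc ‖y‖ ^ 2 ≤ (‖y + w‖ + ‖w‖) ^ 2 := pow_le_pow_left₀ (norm_nonneg y) h1 2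
      _ ≤ 2 * ‖y + w‖ ^ 2 + 2 * ‖w‖ ^ 2 := by linarith [sq_nonneg (‖y + w‖ - ‖w‖)]
  have h3 : (1 + ‖y‖) ^ 2 ≤ 2 * (1 + ‖y‖ ^ 2) := by linarith [sq_nonneg (1 - ‖y‖)]
  have h4 : 0 ≤ ‖w‖ ^ 2 * ‖y + w‖ ^ 2 := by positivity
  have h5 : ‖w‖ ^ 2 * 1 ≤ ‖w‖ ^ 2 * R ^ 2 := by gcongr
  have h6 : 4 * (1 + ‖w‖ ^ 2) * (R ^ 2 + ‖y + w‖ ^ 2) = 4 * R ^ 2 + 4 * ‖y + w‖ ^ 2 +
    4 * (‖w‖ ^ 2 * R ^ 2) + 4 * (‖w‖ ^ 2 * ‖y + w‖ ^ 2) := by ring
  rw [h6]
  have h7 : 0 ≤ ‖y + w‖ ^ 2 := by positivity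
  linarith

theorem E1_sd (R : ℝ) (hR : 1 ≤ R) (y w : ℂ) :
    ‖E1_k R (y + w) + E1_k R (y - w) - 2 * E1_k R y‖ ≤
      (14 * ‖w‖ ^ 2 + 2 * (‖w‖ ^ 2) ^ 2) * (16 * (1 + ‖w‖ ^ 2) ^ 2) * (1 + ‖y‖) ^ (-3 : ℝ) := by
  set q : ℝ := R ^ 2 + ‖y‖ ^ 2 with hq
  set qp : ℝ := R ^ 2 + ‖y + w‖ ^ 2 with hqp
  set qm : ℝ := R ^ 2 + ‖y - w‖ ^ 2 with hqm
  set s : ℝ := 2 * (y * (starRingEnd ℂ) w).re with hs
  set d : ℝ := ‖w‖ ^ 2 with hd
  have hd0 : 0 ≤ d := by positivity
  have hR1 : 1 ≤ R ^ 2 := by nlinarith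
  have q0 : 0 < q := by positivity
  have qp0 : 0 < qp := by positivity
  have qm0 : 0 < qm := by positivity
  have e1 : qp = q + d + s := by
    rw [hqp, hq, hd, hs, Complex.sq_norm, Complex.sq_norm, Complex.sq_norm,
      Complex.normSq_add]
    ring
  have e2 : qm = q + d - s := by
    rw [hqm, hq, hd, hs, Complex.sq_norm, Complex.sq_norm, Complex.sq_norm,
      Complex.normSq_sub]
    ring
  have hsb : |s| ≤ 2 * (‖y‖ * ‖w‖) := by
    rw [hs, abs_mul, abs_two]
    have := Complex.abs_re_le_norm (y * (starRingEnd ℂ) w)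
    rw [norm_mul, Complex.norm_conj] at this
    linarith
  have cq : (q : ℂ) ≠ 0 := by exact_mod_cast q0.ne'
  have cqp : (qp : ℂ) ≠ 0 := by exact_mod_cast qp0.ne'
  have cqm : (qm : ℂ) ≠ 0 := by exact_mod_cast qm0.ne'
  have key : E1_k R (y + w) + E1_k R (y - w) - 2 * E1_k R y =
      (starRingEnd ℂ) y * ((-2 * q * d - 2 * d ^ 2 + 2 * s ^ 2) / (q * qp * qm) : ℝ) -
        (starRingEnd ℂ) w * ((2 * s / (qp * qm) : ℝ) : ℂ) := by
    unfold E1_k
    rw [← hq, ← hqp, ← hqm]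
    rw [map_add, map_sub]
    push_cast
    have c1 : (qp : ℂ) = q + d + s := by rw [e1]; push_cast; ring
    have c2 : (qm : ℂ) = q + d - s := by rw [e2]; push_cast; ring
    rw [c1] at cqp
    rw [c2] at cqm
    rw [c1, c2]
    field_simp
    ring
  rw [key]
  have hy2 : ‖y‖ ^ 2 ≤ q := by rw [hq]; nlinarith
  have hs2 : s ^ 2 ≤ 4 * q * d := by
    have h1 : s ^ 2 ≤ (2 * (‖y‖ * ‖w‖)) ^ 2 := by
      rw [← sq_abs s]
      exact pow_le_pow_left₀ (abs_nonneg _) hsb 2
    calc s ^ 2 ≤ 4 * (‖y‖ ^ 2) * d := by rw [hd]; nlinarith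
      _ ≤ 4 * q * d := by gcongr
  have hq1 : 1 ≤ q := by rw [hq]; nlinarith [sq_nonneg ‖y‖]
  have b1 : |(-2 * q * d - 2 * d ^ 2 + 2 * s ^ 2)| ≤ q * (10 * d + 2 * d ^ 2) := by
    rw [abs_le]
    have h5 : d ^ 2 ≤ q * d ^ 2 := by nlinarith [sq_nonneg d]
    have h6 : 0 ≤ q * d := by positivity
    have h7 : 0 ≤ s ^ 2 := sq_nonneg s
    constructor
    · nlinarith
    · nlinarith [sq_nonneg d]
  have n1 : ‖(starRingEnd ℂ) y * ((-2 * q * d - 2 * d ^ 2 + 2 * s ^ 2) / (q * qp * qm) : ℝ)‖ ≤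
      ‖y‖ * ((10 * d + 2 * d ^ 2) / (qp * qm)) := by
    rw [norm_mul, Complex.norm_conj, Complex.norm_real, Real.norm_eq_abs, abs_div]
    have h8 : 0 < q * qp * qm := by positivity
    rw [abs_of_pos h8]
    have h9 : (10 * d + 2 * d ^ 2) / (qp * qm) = q * (10 * d + 2 * d ^ 2) / (q * qp * qm) := by
      field_simp
    rw [h9]
    gcongr
  have n2 : ‖(starRingEnd ℂ) w * ((2 * s / (qp * qm) : ℝ) : ℂ)‖ ≤
      ‖y‖ * (4 * d / (qp * qm)) := by
    rw [norm_mul, Complex.norm_conj, Complex.norm_real, Real.norm_eq_abs, abs_div]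
    have h8 : 0 < qp * qm := by positivity
    rw [abs_of_pos h8, abs_mul, abs_two]
    have h9 : ‖w‖ * (2 * |s|) ≤ ‖y‖ * (4 * d) := by
      rw [hd]
      nlinarith [norm_nonneg w, norm_nonneg y]
    calc ‖w‖ * (2 * |s| / (qp * qm)) = ‖w‖ * (2 * |s|) / (qp * qm) := by ring
      _ ≤ ‖y‖ * (4 * d) / (qp * qm) := by gcongr
      _ = _ := by ring
  have low1 : (1 + ‖y‖) ^ 2 ≤ 4 * (1 + d) * qp := E1_low R hR y w
  have low2 : (1 + ‖y‖) ^ 2 ≤ 4 * (1 + d) * qm := by
    have := E1_low R hR y (-w)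
    rwa [norm_neg, ← sub_eq_add_neg] at this
  have hy0 : 0 < 1 + ‖y‖ := by positivity
  have low : (1 + ‖y‖) ^ 4 ≤ 16 * (1 + d) ^ 2 * (qp * qm) := by
    calc (1 + ‖y‖) ^ 4 = (1 + ‖y‖) ^ 2 * (1 + ‖y‖) ^ 2 := by ring
      _ ≤ (4 * (1 + d) * qp) * (4 * (1 + d) * qm) := by gcongr
      _ = _ := by ring
  have hr : (1 + ‖y‖) ^ (-3 : ℝ) = 1 / (1 + ‖y‖) ^ 3 := by
    rw [Real.rpow_neg hy0.le]
    norm_num
  have hfin : ‖y‖ * ((14 * d + 2 * d ^ 2) / (qp * qm)) ≤
      (14 * d + 2 * d ^ 2) * (16 * (1 + d) ^ 2) * (1 + ‖y‖) ^ (-3 : ℝ) := by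
    rw [hr, mul_one_div, ← mul_div_assoc, div_le_div_iff₀ (by positivity) (by positivity)]
    have h5 : ‖y‖ * (1 + ‖y‖) ^ 3 ≤ (1 + ‖y‖) ^ 4 := by
      have : (1 + ‖y‖) ^ 4 = (1 + ‖y‖) * (1 + ‖y‖) ^ 3 := by ring
      rw [this]
      gcongr
      linarith
    have h6 : 0 ≤ 14 * d + 2 * d ^ 2 := by positivity
    calc ‖y‖ * (14 * d + 2 * d ^ 2) * (1 + ‖y‖) ^ 3
        = (14 * d + 2 * d ^ 2) * (‖y‖ * (1 + ‖y‖) ^ 3) := by ring
      _ ≤ (14 * d + 2 * d ^ 2) * (16 * (1 + d) ^ 2 * (qp * qm)) :=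
          mul_le_mul_of_nonneg_left (h5.trans low) h6
      _ = _ := by ring
  calc _ ≤ ‖y‖ * ((10 * d + 2 * d ^ 2) / (qp * qm)) + ‖y‖ * (4 * d / (qp * qm)) :=
        (norm_sub_le _ _).trans (add_le_add n1 n2)
    _ = ‖y‖ * ((14 * d + 2 * d ^ 2) / (qp * qm)) := by ring
    _ ≤ _ := hfin

/-- Summability along a coset of the lattice. -/
theorem E1_summable (a : ℂ) : Summable fun x : O => (1 + ‖a + 3 * e x‖) ^ (-3 : ℝ) := by
  have h1 : Summable (fun x : O => (1 + ‖e x‖) ^ (-(3 : ℝ))) := summable_e (by norm_num)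
  refine h1.of_norm_bounded_eventually ?_
  rw [Filter.eventually_cofinite]
  refine (finite_norm_le (‖a‖ + 1)).subset ?_
  intro x hx
  simp only [Set.mem_ofPred_eq] at hx ⊢
  by_contra hne
  apply hx
  have h2 := b2_low a x (not_le.mp hne).le
  have h3 : 0 < 1 + ‖e x‖ := by positivity
  rw [Real.norm_eq_abs, abs_of_nonneg (by positivity)]
  exact Real.rpow_le_rpow_of_nonpos h3 (by linarith) (by norm_num)

/-- Second differences of the correction terms. -/
noncomputable def E1_d (R : ℝ) (a w : ℂ) (x : O) : ℂ :=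
  E1_k R (a + w + 3 * e x) + E1_k R (a - w + 3 * e x) - 2 * E1_k R (a + 3 * e x)

theorem E1_d_le (R : ℝ) (hR : 1 ≤ R) (a w : ℂ) (x : O) : ‖E1_d R a w x‖ ≤
    (14 * ‖w‖ ^ 2 + 2 * (‖w‖ ^ 2) ^ 2) * (16 * (1 + ‖w‖ ^ 2) ^ 2) *
      (1 + ‖a + 3 * e x‖) ^ (-3 : ℝ) := by
  have h := E1_sd R hR (a + 3 * e x) w
  have e1 : a + 3 * e x + w = a + w + 3 * e x := by ring
  have e2 : a + 3 * e x - w = a - w + 3 * e x := by ring
  rw [e1, e2] at h
  exact h

theorem E1_d_summable (R : ℝ) (hR : 1 ≤ R) (a w : ℂ) : Summable (E1_d R a w) :=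
  ((E1_summable a).mul_left _).of_norm_bounded (E1_d_le R hR a w)

theorem E1_k_tendsto (y : ℂ) : Filter.Tendsto (fun R : ℝ => E1_k R y) Filter.atTop (nhds 0) := by
  unfold E1_k
  have h1 : Filter.Tendsto (fun R : ℝ => R ^ 2 + ‖y‖ ^ 2) Filter.atTop Filter.atTop :=
    Filter.tendsto_atTop_add_const_right _ _ (Filter.tendsto_pow_atTop two_ne_zero)
  have h2 : Filter.Tendsto (fun R : ℝ => (((R ^ 2 + ‖y‖ ^ 2)⁻¹ : ℝ) : ℂ)) Filter.atTop
      (nhds ((0 : ℝ) : ℂ)) :=
    (Complex.continuous_ofReal.tendsto _).comp (tendsto_inv_atTop_zero.comp h1)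
  have h3 := h2.const_mul ((starRingEnd ℂ) y)
  rw [Complex.ofReal_zero, mul_zero] at h3
  refine h3.congr fun R => ?_
  rw [Complex.ofReal_inv, div_eq_mul_inv]

theorem E1_d_tendsto (a w : ℂ) :
    Filter.Tendsto (fun R : ℝ => ∑' x : O, E1_d R a w x) Filter.atTop (nhds 0) := by
  have h0 : (∑' _ : O, (0 : ℂ)) = 0 := tsum_zero
  rw [← h0]
  refine tendsto_tsum_of_dominated_convergence
    (((E1_summable a).mul_left _)) (fun x => ?_) ?_ (bound := fun x : O =>
      (14 * ‖w‖ ^ 2 + 2 * (‖w‖ ^ 2) ^ 2) * (16 * (1 + ‖w‖ ^ 2) ^ 2) *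
      (1 + ‖a + 3 * e x‖) ^ (-3 : ℝ))
  · have := ((E1_k_tendsto (a + w + 3 * e x)).add (E1_k_tendsto (a - w + 3 * e x))).sub
      ((E1_k_tendsto (a + 3 * e x)).const_mul 2)
    simp only [add_zero, mul_zero, sub_zero] at this
    exact this
  · filter_upwards [Filter.eventually_ge_atTop 1] with R hR x
    exact E1_d_le R hR a w x

theorem sR_summable_aux (R : ℝ) (hR : 0 < R) (z : ℂ) : Summable fun x : O =>
    ‖(z + 3 * e x)⁻¹ * ((R ^ 2 / (R ^ 2 + ‖z + 3 * e x‖ ^ 2) : ℝ) : ℂ)‖ := by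
  have h1 : Summable (fun x : O => R ^ 2 * (1 + ‖e x‖) ^ (-(3 : ℝ))) :=
    (summable_e (by norm_num)).mul_left _
  refine h1.of_norm_bounded_eventually ?_
  rw [Filter.eventually_cofinite]
  refine (finite_norm_le (‖z‖ + 1)).subset ?_
  intro x hx
  simp only [Set.mem_ofPred_eq] at hx ⊢
  by_contra hne
  apply hx
  have h2 := b2_low z x (not_le.mp hne).le
  have h3 : 0 < 1 + ‖e x‖ := by positivity
  have h4 : 0 < ‖z + 3 * e x‖ := by linarith
  rw [norm_norm, norm_mul, norm_inv, Complex.norm_real, Real.norm_eq_abs,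
    abs_of_nonneg (by positivity)]
  have h5 : (1 + ‖e x‖) ^ (-(3 : ℝ)) = 1 / (1 + ‖e x‖) ^ 3 := by
    rw [Real.rpow_neg h3.le]
    norm_num
  rw [h5]
  calc ‖z + 3 * e x‖⁻¹ * (R ^ 2 / (R ^ 2 + ‖z + 3 * e x‖ ^ 2))
      ≤ (1 + ‖e x‖)⁻¹ * (R ^ 2 / ((1 + ‖e x‖) ^ 2)) := by
        gcongr
        nlinarith [sq_nonneg R]
    _ = R ^ 2 * (1 / (1 + ‖e x‖) ^ 3) := by
        field_simp

theorem E1_sR_summable (R : ℝ) (hR : 0 < R) (z : ℂ) : Summable fun x : O =>
    (z + 3 * e x)⁻¹ * ((R ^ 2 / (R ^ 2 + ‖z + 3 * e x‖ ^ 2) : ℝ) : ℂ) :=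
  (sR_summable_aux R hR z).of_norm

/-- The second differences of the reciprocals. -/
noncomputable def E1_T (a w : ℂ) (x : O) : ℂ :=
  (a + w + 3 * e x)⁻¹ + (a - w + 3 * e x)⁻¹ - 2 * (a + 3 * e x)⁻¹

theorem E1_split (R : ℝ) (hR : 0 < R) (a w : ℂ) (x : O) :
    E1_T a w x = ((a + w + 3 * e x)⁻¹ *
        ((R ^ 2 / (R ^ 2 + ‖a + w + 3 * e x‖ ^ 2) : ℝ) : ℂ) +
      (a - w + 3 * e x)⁻¹ * ((R ^ 2 / (R ^ 2 + ‖a - w + 3 * e x‖ ^ 2) : ℝ) : ℂ) -
      2 * ((a + 3 * e x)⁻¹ * ((R ^ 2 / (R ^ 2 + ‖a + 3 * e x‖ ^ 2) : ℝ) : ℂ))) +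
      E1_d R a w x := by
  rw [E1_term R hR, E1_term R hR, E1_term R hR]
  unfold E1_T E1_d
  ring

theorem E1_T_summable (a w : ℂ) : Summable (E1_T a w) := by
  have h1 := (((E1_sR_summable 1 one_pos (a + w)).add (E1_sR_summable 1 one_pos (a - w))).sub
    ((E1_sR_summable 1 one_pos a).mul_left 2)).add (E1_d_summable 1 le_rfl a w)
  refine h1.congr fun x => ?_
  exact (E1_split 1 one_pos a w x).symm

theorem E1_tsum (R : ℝ) (hR : 1 ≤ R) (a w : ℂ) : ∑' x, E1_T a w x =
    sR R (a + w) + sR R (a - w) - 2 * sR R a + ∑' x, E1_d R a w x := by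
  have hR0 : 0 < R := by linarith
  have s1 := E1_sR_summable R hR0 (a + w)
  have s2 := E1_sR_summable R hR0 (a - w)
  have s3 := (E1_sR_summable R hR0 a).mul_left 2
  unfold sR
  rw [← tsum_mul_left, ← s1.tsum_add s2, ← (s1.add s2).tsum_sub s3,
    ← ((s1.add s2).sub s3).tsum_add (E1_d_summable R hR a w)]
  exact tsum_congr fun x => E1_split R hR0 a w x

theorem E1_lim (a w : ℂ) : Filter.Tendsto (fun R : ℝ => sR R (a + w) + sR R (a - w) - 2 * sR R a)
    Filter.atTop (nhds (∑' x, E1_T a w x)) := by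
  have h1 : Filter.Tendsto (fun R : ℝ => (∑' x, E1_T a w x) - ∑' x, E1_d R a w x) Filter.atTop
      (nhds ((∑' x, E1_T a w x) - 0)) := tendsto_const_nhds.sub (E1_d_tendsto a w)
  rw [sub_zero] at h1
  refine h1.congr' ?_
  filter_upwards [Filter.eventually_ge_atTop 1] with R hR
  rw [E1_tsum R hR a w]
  ring

theorem E1_sR_per (R : ℝ) (z : ℂ) (y : O) : sR R (z + 3 * e y) = sR R z := by
  unfold sR
  rw [← (Equiv.addLeft y).tsum_eq (fun x : O => (z + 3 * e x)⁻¹ *
    ((R ^ 2 / (R ^ 2 + ‖z + 3 * e x‖ ^ 2) : ℝ) : ℂ))]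
  refine tsum_congr fun x => ?_
  rw [Equiv.coe_addLeft, map_add]
  have e1 : z + 3 * e y + 3 * e x = z + 3 * (e y + e x) := by ring
  rw [e1]

/-- The function T. -/
noncomputable def E1_F (a w : ℂ) : ℂ := ∑' x, E1_T a w x

theorem E1_F_per (a w : ℂ) (y : O) : E1_F a (w + 3 * e y) = E1_F a w := by
  refine tendsto_nhds_unique (E1_lim a (w + 3 * e y)) ?_
  refine (E1_lim a w).congr fun R => ?_
  have e1 : a + (w + 3 * e y) = a + w + 3 * e y := by ring
  have e2 : a - (w + 3 * e y) = a - w + 3 * e (-y) := by rw [map_neg]; ring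
  rw [e1, e2, E1_sR_per, E1_sR_per]

theorem E1_F_neg (a w : ℂ) : E1_F a (-w) = E1_F a w := by
  unfold E1_F E1_T
  refine tsum_congr fun x => ?_
  rw [sub_neg_eq_add, ← sub_eq_add_neg]
  ring

/-! ### The elliptic function -/

/-- The terms of the sum. -/
noncomputable def E1_tm (a l w : ℂ) : ℂ := 2 / (((a + l) ^ 2 - w ^ 2) * (a + l))

/-- The sum without one term. -/
noncomputable def E1_Rex (a l₀ w : ℂ) : ℂ :=
  ∑' l : LL.lattice, if l.1 = l₀ then 0 else E1_tm a l.1 w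

theorem E1_bound (a : ℂ) (r : ℝ) (hr : 0 < r) (w : ℂ) (hw : ‖w‖ < r) (l : ℂ)
    (h : 2 * r + 2 * ‖a‖ ≤ ‖l‖) : ‖E1_tm a l w‖ ≤ 16 * ‖l‖ ^ (-3 : ℝ) := by
  have ha := norm_nonneg a
  have hl : 0 < ‖l‖ := by linarith
  have h1 : ‖l‖ / 2 ≤ ‖a + l‖ := by
    have := norm_sub_norm_le l (-a)
    rw [norm_neg] at this
    have e1 : l - -a = a + l := by ring
    rw [e1] at this
    linarith
  have h2 : ‖l‖ / 2 ≤ ‖a + l - w‖ := by
    have := norm_sub_norm_le l (-a + w)
    have e1 : l - (-a + w) = a + l - w := by ring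
    rw [e1] at this
    have h3 : ‖-a + w‖ ≤ ‖a‖ + ‖w‖ := by
      refine (norm_add_le _ _).trans ?_
      rw [norm_neg]
    linarith
  have h2' : ‖l‖ / 2 ≤ ‖a + l + w‖ := by
    have := norm_sub_norm_le l (-a - w)
    have e1 : l - (-a - w) = a + l + w := by ring
    rw [e1] at this
    have h3 : ‖-a - w‖ ≤ ‖a‖ + ‖w‖ := by
      refine (norm_sub_le _ _).trans ?_
      rw [norm_neg]
    linarith
  unfold E1_tm
  have e2 : ((a + l) ^ 2 - w ^ 2) * (a + l) = (a + l - w) * (a + l + w) * (a + l) := by ring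
  rw [e2, norm_div, norm_mul, norm_mul]
  have h4 : (‖l‖ / 2) * (‖l‖ / 2) * (‖l‖ / 2) ≤ ‖a + l - w‖ * ‖a + l + w‖ * ‖a + l‖ := by
    gcongr
  have h5 : (‖l‖ : ℝ) ^ (-3 : ℝ) = 1 / ‖l‖ ^ 3 := by
    rw [Real.rpow_neg hl.le]
    norm_num
  rw [h5]
  have h6 : 0 < (‖l‖ / 2) * (‖l‖ / 2) * (‖l‖ / 2) := by positivity
  calc ‖(2 : ℂ)‖ / (‖a + l - w‖ * ‖a + l + w‖ * ‖a + l‖)
      ≤ ‖(2 : ℂ)‖ / ((‖l‖ / 2) * (‖l‖ / 2) * (‖l‖ / 2)) := by gcongr
    _ = 16 * (1 / ‖l‖ ^ 3) := by
        rw [Complex.norm_ofNat]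
        field_simp
        norm_num

theorem E1_hasSum (a l₀ : ℂ) : HasSumLocallyUniformly
    (fun (l : LL.lattice) (w : ℂ) => if l.1 = l₀ then 0 else E1_tm a l.1 w) (E1_Rex a l₀) := by
  refine LL.hasSumLocallyUniformly_aux (u := fun _ => (16 * ‖·‖ ^ (-3 : ℝ))) _
    (fun _ _ => (ZLattice.summable_norm_rpow _ _ (by simp; norm_num)).mul_left _) fun r hr =>
    Filter.eventually_atTop.mpr ⟨2 * r + 2 * ‖a‖, ?_⟩
  rintro _ h s hs l rfl
  split_ifs
  · rw [norm_zero]
    positivity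
  · exact E1_bound a r hr s hs l h

/-- The domain. -/
def E1_U (a l₀ : ℂ) : Set ℂ :=
  {w | w - a ∈ ((LL.lattice : Set ℂ) \ {l₀})ᶜ ∧ -w - a ∈ ((LL.lattice : Set ℂ) \ {l₀})ᶜ}

theorem E1_U_open (a l₀ : ℂ) : IsOpen (E1_U a l₀) := by
  have h1 : IsOpen {w : ℂ | w - a ∈ ((LL.lattice : Set ℂ) \ {l₀})ᶜ} :=
    LL.isOpen_compl_lattice_sdiff.preimage (by fun_prop)
  have h2 : IsOpen {w : ℂ | -w - a ∈ ((LL.lattice : Set ℂ) \ {l₀})ᶜ} :=
    LL.isOpen_compl_lattice_sdiff.preimage (by fun_prop)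
  exact h1.inter h2

theorem E1_ne {a : ℂ} (ha : a ∉ Lam) {l : ℂ} (hl : l ∈ LL.lattice) : a + l ≠ 0 := by
  intro h
  apply ha
  have : a = -l := by linear_combination h
  rw [this, ← mem_LL]
  exact neg_mem hl

theorem E1_analytic {a : ℂ} (ha : a ∉ Lam) (l₀ : ℂ) :
    AnalyticOnNhd ℂ (E1_Rex a l₀) (E1_U a l₀) := by
  refine DifferentiableOn.analyticOnNhd ?_ (E1_U_open a l₀)
  refine (E1_hasSum a l₀).hasSumLocallyUniformlyOn.differentiableOn
    (.of_forall fun s => .fun_sum fun i hi => ?_) (E1_U_open a l₀)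
  split_ifs with hl
  · exact differentiableOn_const 0
  · unfold E1_tm
    refine .div (by fun_prop) (by fun_prop) ?_
    intro w hw
    refine mul_ne_zero ?_ (E1_ne ha i.2)
    have e1 : (a + (i : ℂ)) ^ 2 - w ^ 2 = (a + i - w) * (a + i + w) := by ring
    rw [e1]
    refine mul_ne_zero ?_ ?_
    · intro h
      apply hw.1
      have e2 : w - a = i := by linear_combination -h
      rw [e2]
      exact ⟨i.2, hl⟩
    · intro h
      apply hw.2
      have e2 : -w - a = i := by linear_combination -h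
      rw [e2]
      exact ⟨i.2, hl⟩

theorem E1_F_eq {a : ℂ} (ha : a ∉ Lam) {w : ℂ} (h1 : a + w ∉ Lam) (h2 : a - w ∉ Lam) :
    E1_F a w = w ^ 2 * ∑' l : LL.lattice, E1_tm a l.1 w := by
  unfold E1_F
  rw [← A1_equiv.tsum_eq, ← tsum_mul_left]
  congr 1
  funext x
  show (a + w + 3 * e x)⁻¹ + (a - w + 3 * e x)⁻¹ - 2 * (a + 3 * e x)⁻¹ =
    w ^ 2 * (2 / (((a + 3 * e x) ^ 2 - w ^ 2) * (a + 3 * e x)))
  have n1 : a + w + 3 * e x ≠ 0 := by
    intro h
    apply h1
    exact ⟨-x, by rw [map_neg]; linear_combination h⟩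
  have n2 : a - w + 3 * e x ≠ 0 := by
    intro h
    apply h2
    exact ⟨-x, by rw [map_neg]; linear_combination h⟩
  have n3 : a + 3 * e x ≠ 0 := E1_ne ha ((mem_LL _).2 ⟨x, rfl⟩)
  have e1 : (a + 3 * e x) ^ 2 - w ^ 2 = (a + w + 3 * e x) * (a - w + 3 * e x) := by ring
  rw [e1]
  field_simp
  ring

theorem E1_F_one {a : ℂ} (ha : a ∉ Lam) {w : ℂ} (h1 : a + w ∉ Lam) (h2 : a - w ∉ Lam) :
    E1_F a w = w ^ 2 * E1_Rex a a w := by
  rw [E1_F_eq ha h1 h2]
  congr 1
  unfold E1_Rex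
  congr 1
  funext l
  rw [if_neg]
  intro h
  apply ha
  rw [← h, ← mem_LL]
  exact l.2

theorem E1_Rex_add (a w : ℂ) :
    ∑' l : LL.lattice, E1_tm a l.1 w = E1_Rex a 0 w + E1_tm a 0 w := by
  classical
  have h0 : (∑' l : LL.lattice, if l = 0 then E1_tm a 0 w else 0) = E1_tm a 0 w := by
    rw [tsum_ite_eq]
  conv_rhs => rw [← h0]
  unfold E1_Rex
  rw [← Summable.tsum_add]
  · congr 1
    funext l
    by_cases hl : l.1 = 0
    · have hl' : l = 0 := Subtype.ext hl
      rw [if_pos hl, if_pos hl', zero_add, hl]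
    · have hl' : l ≠ 0 := fun h => hl (by rw [h]; rfl)
      rw [if_neg hl, if_neg hl', add_zero]
  · exact ⟨_, (E1_hasSum a 0).hasSum⟩
  · exact summable_of_hasFiniteSupport ((Set.finite_singleton (0 : LL.lattice)).subset (by simp))

theorem E1_F_zero {a : ℂ} (ha : a ∉ Lam) {w : ℂ} (h1 : a + w ∉ Lam) (h2 : a - w ∉ Lam) :
    E1_F a w = w ^ 2 * (E1_Rex a 0 w + 2 / ((a ^ 2 - w ^ 2) * a)) := by
  rw [E1_F_eq ha h1 h2, E1_Rex_add]
  congr 2
  unfold E1_tm
  rw [add_zero]

theorem E1_Rex_zero {a : ℂ} (ha : a ∉ Lam) : E1_Rex a a 0 = -wpd a := by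
  unfold E1_Rex wpd PeriodPair.derivWeierstrassP
  rw [neg_neg, ← (Equiv.neg LL.lattice).tsum_eq]
  congr 1
  funext l
  have hl : l.1 ∈ LL.lattice := l.2
  rw [if_neg]
  · show E1_tm a (-l.1) 0 = 2 / (a - l.1) ^ 3
    unfold E1_tm
    congr 1
    ring
  · intro h
    apply ha
    have h' : -l.1 = a := h
    rw [← h', ← mem_LL]
    exact neg_mem hl

theorem E1_ev (a z₀ : ℂ) : ∀ᶠ z in nhdsWithin z₀ {z₀}ᶜ, a + z ∉ Lam ∧ a - z ∉ Lam := by
  have h1 := (A1_tendsto (fun z => a + z) z₀ (by fun_prop) (fun b c h => by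
    have : a + b = a + c := h
    linear_combination this)).eventually (A1_discrete _)
  have h2 := (A1_tendsto (fun z => a - z) z₀ (by fun_prop) (fun b c h => by
    have : a - b = a - c := h
    linear_combination -this)).eventually (A1_discrete _)
  filter_upwards [h1, h2] with z h3 h4 using ⟨h3, h4⟩

/-- The elliptic function. -/
noncomputable def E1_D (a w : ℂ) : ℂ := E1_F a w * (wp a - wp w)

/-- Removable singularity. -/
def E1_Rem (a z₀ : ℂ) : Prop := ∃ b : ℂ → ℂ, AnalyticAt ℂ b z₀ ∧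
  ∀ᶠ z in nhdsWithin z₀ {z₀}ᶜ, E1_D a z = b z

theorem E1_D_per (a z : ℂ) (y : O) : E1_D a (z + 3 * e y) = E1_D a z := by
  unfold E1_D
  rw [E1_F_per, wp_per]

theorem E1_D_neg (a z : ℂ) : E1_D a (-z) = E1_D a z := by
  unfold E1_D
  rw [E1_F_neg, wp_neg]

theorem E1_Rem_per {a z₀ : ℂ} (h : E1_Rem a z₀) (y : O) : E1_Rem a (z₀ + 3 * e y) := by
  obtain ⟨b, ha, h⟩ := h
  refine ⟨fun z => b (z - 3 * e y), ?_, ?_⟩
  · have : AnalyticAt ℂ b ((z₀ + 3 * e y) - 3 * e y) := by rw [add_sub_cancel_right]; exact ha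
    exact this.comp (f := fun w : ℂ => w - 3 * e y) (by fun_prop)
  · have ht := A1_tendsto (fun z => z - 3 * e y) (z₀ + 3 * e y) (by fun_prop) (fun a b h => by
      have : a - 3 * e y = b - 3 * e y := h
      linear_combination this)
    simp only [add_sub_cancel_right] at ht
    filter_upwards [ht.eventually h] with z h3
    rw [← h3, ← E1_D_per a (z - 3 * e y) y, sub_add_cancel]

theorem E1_Rem_neg {a z₀ : ℂ} (h : E1_Rem a z₀) : E1_Rem a (-z₀) := by
  obtain ⟨b, ha, h⟩ := h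
  refine ⟨fun z => b (-z), ?_, ?_⟩
  · have : AnalyticAt ℂ b (-(-z₀)) := by rw [neg_neg]; exact ha
    exact this.comp (f := fun w : ℂ => -w) (by fun_prop)
  · have ht := A1_tendsto (fun z => -z) (-z₀) (by fun_prop) neg_injective
    simp only [neg_neg] at ht
    filter_upwards [ht.eventually h] with z h3
    rw [← h3, E1_D_neg]

theorem E1_U_one {a z : ℂ} (h1 : a + z ∉ Lam) (h2 : a - z ∉ Lam) (l₀ : ℂ) : z ∈ E1_U a l₀ := by
  constructor
  · intro h
    apply h2
    have := A1_neg_mem ((mem_LL _).1 h.1)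
    have e1 : -(z - a) = a - z := by ring
    rwa [e1] at this
  · intro h
    apply h1
    have := A1_neg_mem ((mem_LL _).1 h.1)
    have e1 : -(-z - a) = a + z := by ring
    rwa [e1] at this

theorem E1_D_analytic {a z : ℂ} (ha : a ∉ Lam) (h0 : z ∉ Lam) (h1 : a + z ∉ Lam)
    (h2 : a - z ∉ Lam) : AnalyticAt ℂ (E1_D a) z := by
  have a1 := E1_analytic ha a z (E1_U_one h1 h2 a)
  have a2 := A1_wp_analytic h0
  have a3 : AnalyticAt ℂ (fun w => w ^ 2 * E1_Rex a a w * (wp a - wp w)) z := by fun_prop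
  refine a3.congr ?_
  have o1 : ∀ᶠ w in nhds z, a + w ∉ Lam :=
    (A1_open.preimage (f := fun w : ℂ => a + w) (by fun_prop)).mem_nhds h1
  have o2 : ∀ᶠ w in nhds z, a - w ∉ Lam :=
    (A1_open.preimage (f := fun w : ℂ => a - w) (by fun_prop)).mem_nhds h2
  filter_upwards [o1, o2] with w h3 h4
  unfold E1_D
  rw [E1_F_one ha h3 h4]

theorem E1_at_zero {a : ℂ} (ha : a ∉ Lam) : ∃ b : ℂ → ℂ, AnalyticAt ℂ b 0 ∧ b 0 = wpd a ∧
    ∀ᶠ z in nhdsWithin (0 : ℂ) {0}ᶜ, E1_D a z = b z := by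
  obtain ⟨u, hu, hu0, hexp⟩ := wp_expansion
  have hU : (0 : ℂ) ∈ E1_U a a := by
    apply E1_U_one
    · rw [add_zero]; exact ha
    · rw [sub_zero]; exact ha
  have a1 := E1_analytic ha a 0 hU
  refine ⟨fun w => E1_Rex a a w * (w ^ 2 * wp a - 1 - w ^ 6 * u w), by fun_prop, ?_, ?_⟩
  · simp only
    rw [E1_Rex_zero ha]
    ring
  · filter_upwards [hexp, E1_ev a 0, self_mem_nhdsWithin] with w h1 h2 hw
    have hw' : w ≠ 0 := hw
    unfold E1_D
    rw [E1_F_one ha h2.1 h2.2, h1]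
    field_simp
    ring

theorem E1_at_a {a : ℂ} (ha : a ∉ Lam) (h2a : 2 * a ∉ Lam) : E1_Rem a a := by
  have ha0 : a ≠ 0 := by
    rintro rfl
    exact ha A1_zero_mem
  have hU : a ∈ E1_U a 0 := by
    constructor
    · intro h
      apply h.2
      rw [sub_self]
      rfl
    · intro h
      apply h2a
      have := A1_neg_mem ((mem_LL _).1 h.1)
      have e1 : -(-a - a) = 2 * a := by ring
      rwa [e1] at this
  have a1 := E1_analytic ha 0 a hU
  have a2 := A1_wp_analytic ha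
  have a3 : AnalyticAt ℂ (dslope wp a) a := by
    obtain ⟨p, hp⟩ := a2
    exact ⟨_, hp.has_fpower_series_dslope_fslope⟩
  have a4 : AnalyticAt ℂ (fun w : ℂ => 2 * w ^ 2 / ((a + w) * a)) a := by
    refine AnalyticAt.div (by fun_prop) (by fun_prop) ?_
    refine mul_ne_zero ?_ ha0
    rw [← two_mul]
    exact mul_ne_zero two_ne_zero ha0
  obtain ⟨q, hq⟩ : ∃ q : ℂ → ℂ, q = fun w : ℂ => 2 * w ^ 2 / ((a + w) * a) := ⟨_, rfl⟩
  rw [← hq] at a4
  refine ⟨fun w => w ^ 2 * E1_Rex a 0 w * (wp a - wp w) + q w * dslope wp a w, by fun_prop, ?_⟩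
  filter_upwards [E1_ev a a, self_mem_nhdsWithin] with w h2 hw
  have hw' : w ≠ a := hw
  have hw1 : a - w ≠ 0 := sub_ne_zero.2 hw'.symm
  have hw1' : w - a ≠ 0 := sub_ne_zero.2 hw'
  have hw2 : a + w ≠ 0 := by
    intro h
    apply h2.1
    rw [h]
    exact A1_zero_mem
  unfold E1_D
  rw [E1_F_zero ha h2.1 h2.2, hq, dslope_of_ne _ hw', slope_def_field]
  have e1 : a ^ 2 - w ^ 2 = (a - w) * (a + w) := by ring
  rw [e1]
  field_simp
  ring

theorem E1_all {a : ℂ} (ha : a ∉ Lam) (h2a : 2 * a ∉ Lam) (z₀ : ℂ) : E1_Rem a z₀ := by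
  by_cases c0 : z₀ ∈ Lam
  · obtain ⟨y, hy⟩ := c0
    obtain ⟨b, hb, -, h⟩ := E1_at_zero ha
    have h0 : E1_Rem a 0 := ⟨b, hb, h⟩
    have := E1_Rem_per h0 y
    rwa [zero_add, ← hy] at this
  · by_cases c1 : a + z₀ ∈ Lam
    · obtain ⟨y, hy⟩ := c1
      have h1 := E1_Rem_per (E1_Rem_neg (E1_at_a ha h2a)) y
      have e1 : -a + 3 * e y = z₀ := by linear_combination -hy
      rwa [e1] at h1
    · by_cases c2 : a - z₀ ∈ Lam
      · obtain ⟨y, hy⟩ := c2
        have h1 := E1_Rem_per (E1_at_a ha h2a) (-y)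
        have e1 : a + 3 * e (-y) = z₀ := by rw [map_neg]; linear_combination hy
        rwa [e1] at h1
      · exact ⟨E1_D a, E1_D_analytic ha c0 c1 c2, Filter.Eventually.of_forall fun z => rfl⟩

/-- The half period case. -/
theorem E1_half {a : ℂ} (h2a : 2 * a ∈ Lam) (w : ℂ) : E1_F a w = 0 := by
  obtain ⟨y, hy⟩ := h2a
  have h1 : E1_F a w = -E1_F a w := by
    conv_lhs => unfold E1_F
    rw [← (Equiv.subLeft (-y)).tsum_eq (E1_T a w)]
    unfold E1_F
    rw [← tsum_neg]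
    refine tsum_congr fun x => ?_
    show E1_T a w (-y - x) = -E1_T a w x
    unfold E1_T
    have e1 : a + w + 3 * e (-y - x) = -(a - w + 3 * e x) := by
      rw [map_sub, map_neg]
      linear_combination hy
    have e2 : a - w + 3 * e (-y - x) = -(a + w + 3 * e x) := by
      rw [map_sub, map_neg]
      linear_combination hy
    have e3 : a + 3 * e (-y - x) = -(a + 3 * e x) := by
      rw [map_sub, map_neg]
      linear_combination hy
    rw [e1, e2, e3, inv_neg, inv_neg, inv_neg]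
    ring
  have h2 : 2 * E1_F a w = 0 := by linear_combination h1
  rcases mul_eq_zero.1 h2 with h | h
  · norm_num at h
  · exact h

theorem E1_wpd_half {a : ℂ} (h2a : 2 * a ∈ Lam) : wpd a = 0 := by
  obtain ⟨y, hy⟩ := h2a
  have h3 := A0_wpd_per (-a) y
  rw [← hy, A0_wpd_neg] at h3
  have h4 : -a + 2 * a = a := by ring
  rw [h4] at h3
  have h7 : 2 * wpd a = 0 := by linear_combination h3
  rcases mul_eq_zero.1 h7 with h | h
  · norm_num at h
  · exact h

/-! Chunk E1 (M/L). The second difference sum at a general base point: copy of H55B/A1 (R_identity, base point 1). For a not in Lam put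
T(w) = sum_x 1/(a+w+3x) + 1/(a-w+3x) - 2/(a+3x) = sum 2 w^2 / (((a+l)^2 - w^2)(a+l)), absolutely convergent. D(w) = T(w)(wp a - wp w) is even and Lam-periodic in w (T: shift of
the summation, telescoping of absolutely convergent sums as in R_per in H55B), and has removable singularities at all points: at 0 (wp w = w^(-2) + .., T(w) = w^2 * (-wpd(a)) + .. because sum 2/(a+l)^3 =
-wpd(a)), at ±a mod Lam (simple pole of T, simple zero of wp a - wp w; if a is a half period wp - wp a has a double zero). So D is constant (A0_liouville) and D(0) = wpd a.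
Reuse A1_tm, A1_bound etc. by replacing 1 with a; everything needed from A1 is a general lemma or its copy. -/

theorem T_formula (a w : ℂ) (ha : a ∉ Lam) (hw : w ∉ Lam) (h1 : a + w ∉ Lam) (h2 : a - w ∉ Lam) :
    ∃ T : ℂ, HasSum (fun x : O => (a + w + 3 * e x)⁻¹ + (a - w + 3 * e x)⁻¹ -
      2 * (a + 3 * e x)⁻¹) T ∧ T * (wp a - wp w) = wpd a := by
  refine ⟨E1_F a w, (E1_T_summable a w).hasSum, ?_⟩
  by_cases h2a : 2 * a ∈ Lam
  · rw [E1_half h2a, E1_wpd_half h2a, zero_mul]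
  · obtain ⟨c, hc⟩ := A0_liouville (E1_D a) (E1_D_per a) (E1_all ha h2a)
    obtain ⟨b, hb, hb0, h⟩ := E1_at_zero ha
    have e1 := hc 0 b hb.continuousAt h
    have e2 : E1_D a w = c := hc w (E1_D a) (E1_D_analytic ha hw h1 h2).continuousAt
      (Filter.Eventually.of_forall fun z => rfl)
    show E1_D a w = wpd a
    rw [e2, ← e1, hb0]

end H55N
end
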