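import Mathlib
import Pool.Agent.Lib.H1M.PP.D_H55P_Defs
import Pool.Agent.Lib.H1M.PP.M001
import Pool.Agent.Lib.H1M.PP.M011
import Pool.Agent.Lib.H1M.PP.M016
import Pool.Agent.Lib.H1M.PP.M019
import Pool.Agent.Lib.H1M.PP.M022
import Pool.Agent.Lib.H1M.PP.M023

/-! Merged copies (to shorten the build) of Lib.H13S.EXV, Lib.H55P.N0, Lib.H13S.IN4, Lib.H55N.B10, Lib.H55N.R4, Lib.H55N.E3, Lib.H55N.E4, Lib.H55N.E6, Lib.H55N.E8. -/

-- from Lib.H13S.EXV
section

open NumberField IsDedekindDomain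

namespace H13S

/-- Chunk EXV (S/M). Extension of valuation rings. The valuation ring of w in K is a local subring of Ω (map it); a maximal local subring
dominating it is a valuation ring (LocalSubring.exists_le_valuationSubring or similar in
Mathlib.RingTheory.LocalRing.LocalSubring / Valuation.LocalSubring); its intersection with K is a valuation ring of K dominating, hence
equal to, the valuation ring of w (a discrete valuation ring is a maximal proper subring; or: valuation rings are maximal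
for domination). -/
theorem exists_above {F₀ : Type} [Field F₀] {Ω : Type} [Field Ω] [Algebra F₀ Ω]
    (K : IntermediateField F₀ Ω) [NumberField K] (w : HeightOneSpectrum (𝓞 K)) :
    ∃ V : ValuationSubring Ω, Abv K V w := by
  let A : ValuationSubring K := (w.valuation K).valuationSubring
  let f : K →+* Ω := algebraMap K Ω
  obtain ⟨V, hV⟩ := (A.toLocalSubring.map f).exists_le_valuationSubring
  obtain ⟨h1, h2⟩ := LocalSubring.le_def.1 hV
  refine ⟨V, fun x => ⟨fun hx => ?_, fun hx => ?_⟩⟩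
  · by_contra hc
    have hx0 : x ≠ 0 := by
      rintro rfl
      exact hc (by rw [map_zero]; exact zero_le_one)
    have hi : w.valuation K x⁻¹ ≤ 1 := by
      rw [map_inv₀]
      exact inv_le_one_of_one_le₀ (not_le.1 hc).le
    have hA : x⁻¹ ∈ A.toSubring := (Valuation.mem_valuationSubring_iff _ _).2 hi
    have hm : f x⁻¹ ∈ (A.toLocalSubring.map f).toSubring := ⟨x⁻¹, hA, rfl⟩
    have hu : IsUnit (Subring.inclusion h1 ⟨f x⁻¹, hm⟩) := by
      refine isUnit_iff_exists_inv.2 ⟨⟨(x : Ω), hx⟩, Subtype.ext ?_⟩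
      show f x⁻¹ * f x = 1
      rw [← map_mul, inv_mul_cancel₀ hx0, map_one]
    obtain ⟨⟨b, hb⟩, hb1⟩ := isUnit_iff_exists_inv.1 (h2.map_nonunit _ hu)
    obtain ⟨z, hz, rfl⟩ := hb
    have h3 : f (x⁻¹ * z) = f 1 := by
      rw [map_mul, map_one]
      exact congrArg Subtype.val hb1
    have h4 : x⁻¹ * z = 1 := f.injective h3
    have h5 : z = x := by
      rw [inv_mul_eq_iff_eq_mul₀ hx0, mul_one] at h4
      exact h4
    rw [h5] at hz
    exact hc ((Valuation.mem_valuationSubring_iff _ _).1 hz)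
  · exact h1 ⟨x, (Valuation.mem_valuationSubring_iff _ _).2 hx, rfl⟩

end H13S
end

-- from Lib.H55P.N0
section

open NumberField IsDedekindDomain

namespace H55P

open H55N
open H55B (g)

variable {F : Type} [Field F] [NumberField F] [IQ F] {K : Type} [Field K] [NumberField K]
  [Algebra F K] {m : ℕ}

/-! Common facts for the density part over a general imaginary quadratic field. -/

/-- The absolute value of the norm to F. -/
noncomputable def nnF (F : Type) [Field F] [NumberField F] [IQ F] {K : Type} [Field K] [NumberField K]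
    [Algebra F K] (x : 𝓞 K) : ℝ := ‖embF F (Algebra.norm F (x : K))‖

end H55P
end

-- from Lib.H13S.IN4
section

open NumberField IsDedekindDomain

namespace H13S

open H55P

theorem in4_val {K N : Type} [Field K] [Field N] [NumberField N] [Algebra K N]
    (W : HeightOneSpectrum (𝓞 N)) (s : N ≃ₐ[K] N) (hs : ∀ x : 𝓞 N, s • x - x ∈ W.asIdeal) (x : N)
    (hx : W.valuation N x ≤ 1) : W.valuation N (s x - x) < 1 := by
  obtain ⟨n, d, hnd⟩ := W.exists_primeCompl_mul_eq_of_integer x hx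
  have hd : (d : 𝓞 N) ∉ W.asIdeal := d.2
  have hP := W.isPrime
  have hsd : s • (d : 𝓞 N) ∉ W.asIdeal := by
    intro h1
    have h2 := W.asIdeal.sub_mem h1 (hs d)
    rw [sub_sub_cancel] at h2
    exact hd h2
  have hcoe : ∀ z : 𝓞 N, algebraMap (𝓞 N) N (s • z) = s (algebraMap (𝓞 N) N z) := fun z => rfl
  have hv1 : W.valuation N (algebraMap (𝓞 N) N (d : 𝓞 N)) = 1 :=
    le_antisymm (W.valuation_le_one _) (not_lt.1 fun h3 => hd ((W.valuation_lt_one_iff_mem _).1 h3))
  have hv2 : W.valuation N (algebraMap (𝓞 N) N (s • (d : 𝓞 N))) = 1 :=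
    le_antisymm (W.valuation_le_one _) (not_lt.1 fun h3 => hsd ((W.valuation_lt_one_iff_mem _).1 h3))
  have hx2 : s x * algebraMap (𝓞 N) N (s • (d : 𝓞 N)) = algebraMap (𝓞 N) N (s • (n : 𝓞 N)) := by
    rw [hcoe, hcoe, ← map_mul, hnd]
  have hnum : (s x - x) * (algebraMap (𝓞 N) N (s • (d : 𝓞 N)) * algebraMap (𝓞 N) N (d : 𝓞 N)) =
      algebraMap (𝓞 N) N ((s • n - n) * d - n * (s • (d : 𝓞 N) - d) : 𝓞 N) := by
    rw [map_sub, map_mul, map_mul, map_sub, map_sub, ← hnd, ← hx2]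
    ring
  have hmem : ((s • n - n) * d - n * (s • (d : 𝓞 N) - d) : 𝓞 N) ∈ W.asIdeal :=
    W.asIdeal.sub_mem (W.asIdeal.mul_mem_right _ (hs n)) (W.asIdeal.mul_mem_left _ (hs d))
  have h3 := congrArg (W.valuation N) hnum
  rw [map_mul, map_mul, hv1, hv2, mul_one, mul_one] at h3
  rw [h3]
  exact (W.valuation_lt_one_iff_mem _).2 hmem

/-- Chunk IN4 (M). The value group of the field fixed by an inertia group. Let N be a finite Galois extension of K
inside Ω containing y (normal closure of F₀(y) K over F₀: IntermediateField.normalClosure; number field). If N is contained in V then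
V = ⊤ (Ω is algebraic over N and V is integrally closed), all values are 1, a = 1. Otherwise V lies above a prime W of N (exists_below). An
element of the inertia group of W in Gal(N/K) extends to an automorphism s of Ω over K; it satisfies the hypothesis of inertia_lift (for x in N ∩ V: the residue
field of W consists of classes of algebraic integers, x = b/d with b, d in 𝓞 N, d not in W); so it is the restriction of s' with Inert V s', s' fixes K
(s' = s on N), and s' y = y by h. value_fixed_fin gives a, and Abv.le translates equality of values of W into equality of values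
of V. -/
theorem value_fixed {F₀ : Type} [Field F₀] [NumberField F₀] {Ω : Type} [Field Ω] [Algebra F₀ Ω]
    [IsAlgClosure F₀ Ω] (K : IntermediateField F₀ Ω) [NumberField K] (V : ValuationSubring Ω) (y : Ω)
    (hy : y ≠ 0) (h : ∀ s ∈ K.fixingSubgroup, Inert V s → s y = y) :
    ∃ a : K, a ≠ 0 ∧ V.valuation y = V.valuation (a : Ω) := by
  have hac : IsAlgClosed Ω := IsAlgClosure.isAlgClosed F₀
  have halg : Algebra.IsAlgebraic F₀ Ω := IsAlgClosure.isAlgebraic
  have hnorm : Normal F₀ Ω := IsAlgClosure.normal F₀ Ω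
  have hKfin : FiniteDimensional F₀ K := FiniteDimensional.right ℚ F₀ K
  have hyfin : FiniteDimensional F₀ (IntermediateField.adjoin F₀ {y}) :=
    IntermediateField.adjoin.finiteDimensional (Algebra.IsIntegral.isIntegral y)
  let M : IntermediateField F₀ Ω := K ⊔ IntermediateField.adjoin F₀ {y}
  have hMfin : FiniteDimensional F₀ M := IntermediateField.finiteDimensional_sup K _
  let N : IntermediateField F₀ Ω := IntermediateField.normalClosure F₀ M Ω
  have hNfin : FiniteDimensional F₀ N := normalClosure.is_finiteDimensional F₀ M Ω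
  have hNnorm : Normal F₀ N := normalClosure.normal F₀ M Ω
  have hMN : M ≤ N := IntermediateField.le_normalClosure M
  have hKN : K ≤ N := le_trans le_sup_left hMN
  have hyN : y ∈ N := hMN ((le_sup_right : IntermediateField.adjoin F₀ {y} ≤ M)
    (IntermediateField.mem_adjoin_simple_self F₀ y))
  clear_value N
  have hNQ : FiniteDimensional ℚ N := FiniteDimensional.trans ℚ F₀ N
  have hchar : CharZero N := charZero_of_injective_algebraMap (algebraMap F₀ N).injective
  have hNnf : NumberField N := ⟨⟩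
  by_cases hV : ∃ x : N, (x : Ω) ∉ V
  · obtain ⟨W, hW⟩ := exists_below N V hV
    let alg : Algebra K N := (IntermediateField.inclusion hKN).toRingHom.toAlgebra
    have hmap : ∀ a : K, ((algebraMap K N a : N) : Ω) = (a : Ω) := fun a => rfl
    have htow : IsScalarTower F₀ K N := IsScalarTower.of_algebraMap_eq fun a => rfl
    have hgalF : IsGalois F₀ N := IsGalois.mk
    have hgal : IsGalois K N := IsGalois.tower_top_of_isGalois F₀ K N
    obtain ⟨a, ha0, ha⟩ := value_fixed_fin K N W ⟨y, hyN⟩ (fun h0 => hy (congrArg Subtype.val h0)) (by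
      intro s hs
      let σ : Ω ≃ₐ[F₀] Ω := (s.restrictScalars F₀).liftNormal Ω
      have hσ : ∀ x : N, σ (x : Ω) = ((s x : N) : Ω) := fun x =>
        AlgEquiv.liftNormal_commutes (s.restrictScalars F₀) Ω x
      obtain ⟨s', hs'1, hs'2⟩ := inertia_lift N V σ (fun x hx => by
          have h1 := hσ ⟨x, hx⟩
          rw [h1]
          exact (s ⟨x, hx⟩).2) (fun x hx hxV => by
          have h1 := hσ ⟨x, hx⟩
          have h2 := in4_val W s hs ⟨x, hx⟩ ((hW ⟨x, hx⟩).1 hxV)
          have h3 := (hW.lt _).2 h2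
          rw [h1]
          exact h3)
      have hfix : s' ∈ K.fixingSubgroup := by
        rw [IntermediateField.mem_fixingSubgroup_iff]
        intro x hx
        rw [hs'2 x (hKN hx)]
        have h1 := hσ ⟨x, hKN hx⟩
        rw [h1]
        have h2 := s.commutes ⟨x, hx⟩
        exact congrArg Subtype.val h2
      have h1 := h s' hfix hs'1
      rw [hs'2 y hyN] at h1
      have h2 := hσ ⟨y, hyN⟩
      exact Subtype.ext (h2.symm.trans h1))
    refine ⟨a, ha0, ?_⟩
    have h1 := (hW.le ⟨y, hyN⟩ (algebraMap K N a)).2 ha.le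
    have h2 := (hW.le (algebraMap K N a) ⟨y, hyN⟩).2 ha.ge
    exact le_antisymm h1 h2
  · push Not at hV
    refine ⟨1, one_ne_zero, ?_⟩
    have h1 : V.valuation y ≤ 1 := (V.valuation_le_one_iff y).2 (hV ⟨y, hyN⟩)
    have h2 : V.valuation y⁻¹ ≤ 1 := (V.valuation_le_one_iff _).2 (hV ⟨y⁻¹, N.inv_mem hyN⟩)
    have h3 : V.valuation y ≠ 0 := (Valuation.ne_zero_iff _).2 hy
    rw [map_inv₀] at h2
    have h4 : 1 ≤ V.valuation y := by
      rwa [inv_le_one₀ (zero_lt_iff.2 h3)] at h2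
    have h5 : V.valuation ((1 : K) : Ω) = 1 := map_one _
    rw [h5]
    exact le_antisymm h1 h4

end H13S
end

-- from Lib.H55N.B10
section

open NumberField IsDedekindDomain

namespace H55N

open H55B H55C

variable {K : Type} [Field K] [NumberField K] [Algebra F K] {m : ℕ} {P : Type}

/-! Chunk B10 (M). The functions 1/Tr(A_k x) and the product cutoffs. X = D.X is stable under x -> x - w_i (Dirs.mem).
SV: 1 + |Tr(A_k, x - w)| <= (1 + C)(1 + |Tr(A_k, x)|) and conversely; gl is the inverse.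
good_tr: Tr(A_k, .) is additive, |Tr(A_k, w_i)| = 0 if k <> i.1 (orth) and <= C = C (1 + |Tr(A_k, x)|) gl i x if k = i.1; so it is Good with weight
1 + |Tr(A_k,x)| and Good.inv applies: |Tr| >= (1 + |Tr|)/2 by low.
good_pcut: each factor is 1/h_R, h_R = 1 + |Tr(A_k,x)|^2/R^2 = β_R: SV uniformly in R >= 1 (|y - w|^2 <= 2|y|^2 + 2|w|^2), h_R is Good with weight β_R: it is
1 + R^(-2) Tr conj(Tr); differences: D_i for i.1 = k is O((1+|Tr|)/R^2) <= C β_R / (1+|Tr|) because (1+|Tr|)^2 <= 4 |Tr|^2 <= 4 R^2 β_R on X;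
second differences O(1/R^2) <= C β_R (1+|Tr|)^(-2); the others vanish. (Prove it by Good.mul for Tr * conj Tr with weight (1+|Tr|)^2, then multiply by R^(-2) and use
(1+|Tr|)^2 / R^2 <= 4 β_R and Good.mono, plus the constant 1.) Good.inv, then Good.prod over k, weights prod 1/β_R <= 1 (Good.mono).
gl_gs: 1/sz x <= C gl i x (Tr_le). -/

/-- A bound for the traces of the directions. -/
noncomputable def B10_C (D : Ctx K m) (A : Fin (m + 1) → K) (w : Fin (m + 1) × Fin 2 → 𝓞 K) : ℝ :=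
  1 + ∑ k, ∑ i, ‖D.Tr (A k) (w i)‖

theorem B10_le_C (D : Ctx K m) (A : Fin (m + 1) → K) (w : Fin (m + 1) × Fin 2 → 𝓞 K)
    (k : Fin (m + 1)) (i : Fin (m + 1) × Fin 2) : 1 + ‖D.Tr (A k) (w i)‖ ≤ B10_C D A w := by
  unfold B10_C
  have h1 : ‖D.Tr (A k) (w i)‖ ≤ ∑ i, ‖D.Tr (A k) (w i)‖ :=
    Finset.single_le_sum (f := fun i => ‖D.Tr (A k) (w i)‖) (fun i _ => norm_nonneg _)
      (Finset.mem_univ i)
  have h2 : ∑ i, ‖D.Tr (A k) (w i)‖ ≤ ∑ k, ∑ i, ‖D.Tr (A k) (w i)‖ :=
    Finset.single_le_sum (f := fun k => ∑ i, ‖D.Tr (A k) (w i)‖)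
      (fun k _ => Finset.sum_nonneg fun i _ => norm_nonneg _) (Finset.mem_univ k)
  linarith

theorem B10_one_le_C (D : Ctx K m) (A : Fin (m + 1) → K) (w : Fin (m + 1) × Fin 2 → 𝓞 K) :
    1 ≤ B10_C D A w := by
  have h1 := B10_le_C D A w 0 (0, 0)
  have h2 := norm_nonneg (D.Tr (A 0) (w (0, 0)))
  linarith

theorem B10_tri (D : Ctx K m) (a : K) (x y : 𝓞 K) :
    ‖D.Tr a (x - y)‖ ≤ ‖D.Tr a x‖ + ‖D.Tr a y‖ ∧ ‖D.Tr a x‖ ≤ ‖D.Tr a (x - y)‖ + ‖D.Tr a y‖ := by
  rw [D.Tr_sub]
  refine ⟨norm_sub_le _ _, ?_⟩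
  have h3 : D.Tr a x = (D.Tr a x - D.Tr a y) + D.Tr a y := by ring
  calc ‖D.Tr a x‖ = ‖(D.Tr a x - D.Tr a y) + D.Tr a y‖ := by rw [← h3]
    _ ≤ _ := norm_add_le _ _

theorem B10_b (D : Ctx K m) (A : Fin (m + 1) → K) (w : Fin (m + 1) × Fin 2 → 𝓞 K)
    (k : Fin (m + 1)) (i : Fin (m + 1) × Fin 2) (x : 𝓞 K) :
    1 + ‖D.Tr (A k) (x - w i)‖ ≤ B10_C D A w * (1 + ‖D.Tr (A k) x‖) ∧
    1 + ‖D.Tr (A k) x‖ ≤ B10_C D A w * (1 + ‖D.Tr (A k) (x - w i)‖) := by
  obtain ⟨h1, h2⟩ := B10_tri D (A k) x (w i)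
  have h3 := B10_le_C D A w k i
  have h4 := norm_nonneg (D.Tr (A k) (w i))
  have h5 := norm_nonneg (D.Tr (A k) x)
  have h6 := norm_nonneg (D.Tr (A k) (x - w i))
  constructor <;> nlinarith

theorem B10_inv {a b C : ℝ} (ha : 0 < a) (hb : 0 < b) (h : b ≤ C * a) : a⁻¹ ≤ C * b⁻¹ := by
  rw [← div_eq_mul_inv, le_div_iff₀ hb, inv_mul_le_iff₀ ha]
  linarith

theorem sv_tr (D : Ctx K m) (A : Fin (m + 1) → K) (w : Fin (m + 1) × Fin 2 → 𝓞 K)
    (k : Fin (m + 1)) : SV D.X w fun (_ : P) x => 1 + ‖D.Tr (A k) x‖ := by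
  refine ⟨fun _ x _ => by positivity, B10_C D A w, ?_⟩
  intro _ x _ i
  exact B10_b D A w k i x

theorem sv_gl (D : Ctx K m) (A : Fin (m + 1) → K) (w : Fin (m + 1) × Fin 2 → 𝓞 K) :
    SV D.X w (D.gl A) := by
  refine ⟨fun q x _ => by unfold Ctx.gl; positivity, B10_C D A w, ?_⟩
  intro q x _ i
  obtain ⟨h1, h2⟩ := B10_b D A w q.1 i x
  unfold Ctx.gl
  exact ⟨B10_inv (by positivity) (by positivity) h2, B10_inv (by positivity) (by positivity) h1⟩

theorem sv_bl (D : Ctx K m) (A : Fin (m + 1) → K) (w : Fin (m + 1) × Fin 2 → 𝓞 K) :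
    SV D.X w fun (_ : P) x => D.bl A x := by
  refine ⟨fun _ x _ => ?_, B10_C D A w ^ (m + 1), ?_⟩
  · unfold Ctx.bl
    exact Finset.prod_pos fun k _ => by positivity
  · intro _ x _ i
    unfold Ctx.bl
    have hc : B10_C D A w ^ (m + 1) = ∏ _k : Fin (m + 1), B10_C D A w := by
      rw [Finset.prod_const, Finset.card_univ, Fintype.card_fin]
    rw [hc, ← Finset.prod_mul_distrib, ← Finset.prod_mul_distrib]
    constructor
    · apply Finset.prod_le_prod (fun k _ => by positivity)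
      intro k _
      exact B10_inv (by positivity) (by positivity) (B10_b D A w k i x).2
    · apply Finset.prod_le_prod (fun k _ => by positivity)
      intro k _
      exact B10_inv (by positivity) (by positivity) (B10_b D A w k i x).1

theorem gs_le_gl (D : Ctx K m) (A : Fin (m + 1) → K) : ∃ C : ℝ, 0 < C ∧
    (∀ x k, (D.sz x)⁻¹ ≤ C * (1 + ‖D.Tr (A k) x‖)⁻¹) ∧
    ∀ (i : Fin (m + 1) × Fin 2) x, D.gs i x ≤ C * D.gl A i x := by
  choose C hC h using fun k => Tr_le D (A k)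
  have h1 : ∀ k, C k ≤ ∑ k, C k := fun k =>
    Finset.single_le_sum (f := C) (fun k _ => (hC k).le) (Finset.mem_univ k)
  have h2 : 0 < ∑ k, C k := lt_of_lt_of_le (hC 0) (h1 0)
  have h3 : ∀ x k, (D.sz x)⁻¹ ≤ (∑ k, C k) * (1 + ‖D.Tr (A k) x‖)⁻¹ := by
    intro x k
    apply B10_inv (D.sz_pos x) (by positivity)
    exact (h k x).trans (mul_le_mul_of_nonneg_right (h1 k) (D.sz_pos x).le)
  exact ⟨∑ k, C k, h2, h3, fun i x => h3 x i.1⟩

theorem B10_X (D : Ctx K m) (A : Fin (m + 1) → K) (w : Fin (m + 1) × Fin 2 → 𝓞 K)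
    (h : D.Dirs A w) : ∀ x ∈ D.X, ∀ i, x - w i ∈ D.X := fun _ hx i => D.X_sub hx (h.mem i)

theorem B10_T (D : Ctx K m) (A : Fin (m + 1) → K) (w : Fin (m + 1) × Fin 2 → 𝓞 K)
    (h : D.Dirs A w) (k : Fin (m + 1)) : Good D.X w (D.gl A)
      (fun (_ : P) x => 1 + ‖D.Tr (A k) x‖) (fun _ x => D.Tr (A k) x) := by
  apply Good.additive (fun _ x _ => by positivity) (fun i x _ => by unfold Ctx.gl; positivity)
    (fun _ x y => D.Tr_sub (A k) x y) (B10_C D A w)
  · intro _ x _
    have h1 := B10_one_le_C D A w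
    have h2 := norm_nonneg (D.Tr (A k) x)
    nlinarith
  · intro _ x _ i
    have h0 := B10_one_le_C D A w
    by_cases hk : k = i.1
    · have h1 := B10_le_C D A w k i
      have h2 : B10_C D A w * (1 + ‖D.Tr (A k) x‖) * D.gl A i x = B10_C D A w := by
        unfold Ctx.gl
        rw [← hk]
        have : 0 < 1 + ‖D.Tr (A k) x‖ := by positivity
        field_simp
      rw [h2]
      linarith
    · rw [h.orth i k hk, norm_zero]
      unfold Ctx.gl
      positivity

theorem good_tr (D : Ctx K m) (A : Fin (m + 1) → K) (w : Fin (m + 1) × Fin 2 → 𝓞 K)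
    (h : D.Dirs A w) (k : Fin (m + 1)) : Good D.X w (D.gl A)
      (fun (_ : P) x => (1 + ‖D.Tr (A k) x‖)⁻¹) (fun _ x => (D.Tr (A k) x)⁻¹) := by
  apply Good.inv (B10_X D A w h) (sv_gl D A w) (sv_tr D A w k) (B10_T D A w h k) (1 / 2)
    (by norm_num)
  intro _ x hx
  have h1 := h.low x hx k
  linarith

/-- The functions 1 + |Tr|^2/R^2. -/
noncomputable def B10_h (D : Ctx K m) (A : Fin (m + 1) → K) (k : Fin (m + 1)) (R : ℝ) (x : 𝓞 K) :
    ℝ := 1 + ‖D.Tr (A k) x‖ ^ 2 * (R ^ 2)⁻¹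

theorem B10_h_pos (D : Ctx K m) (A : Fin (m + 1) → K) (k : Fin (m + 1)) (R : ℝ) (x : 𝓞 K) :
    1 ≤ B10_h D A k R x := by
  unfold B10_h
  have : 0 ≤ ‖D.Tr (A k) x‖ ^ 2 * (R ^ 2)⁻¹ := by positivity
  linarith

theorem B10_num (a b c r C : ℝ) (ha : 0 ≤ a) (hb : 0 ≤ b) (hc : 0 ≤ c) (h : a ≤ b + c)
    (hC : 1 + c ≤ C) (hr : 0 ≤ r) (hr1 : r ≤ 1) :
    1 + a ^ 2 * r ≤ (2 + 2 * C ^ 2) * (1 + b ^ 2 * r) := by
  have h1 : a ^ 2 ≤ 2 * b ^ 2 + 2 * c ^ 2 := by nlinarith [sq_nonneg (b - c)]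
  have h2 : a ^ 2 * r ≤ (2 * b ^ 2 + 2 * c ^ 2) * r := mul_le_mul_of_nonneg_right h1 hr
  have h3 : c ^ 2 * r ≤ c ^ 2 := by nlinarith [sq_nonneg c]
  have h4 : c ^ 2 ≤ C ^ 2 := by nlinarith
  have h5 : 0 ≤ b ^ 2 * r := by positivity
  have h6 : 0 ≤ C ^ 2 * (b ^ 2 * r) := by positivity
  nlinarith

theorem B10_sv_h (D : Ctx K m) (A : Fin (m + 1) → K) (w : Fin (m + 1) × Fin 2 → 𝓞 K)
    (R : P → ℝ) (hR : ∀ q, 1 ≤ R q) (k : Fin (m + 1)) :
    SV D.X w fun (q : P) x => B10_h D A k (R q) x := by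
  refine ⟨fun q x _ => lt_of_lt_of_le one_pos (B10_h_pos D A k (R q) x),
    2 + 2 * B10_C D A w ^ 2, ?_⟩
  intro q x _ i
  obtain ⟨h1, h2⟩ := B10_tri D (A k) x (w i)
  have h3 := B10_le_C D A w k i
  have h4 := norm_nonneg (D.Tr (A k) (w i))
  have h5 := norm_nonneg (D.Tr (A k) x)
  have h6 := norm_nonneg (D.Tr (A k) (x - w i))
  have h7 : (0 : ℝ) ≤ (R q ^ 2)⁻¹ := by positivity
  have h8 : (R q ^ 2)⁻¹ ≤ 1 := by
    apply inv_le_one_of_one_le₀
    nlinarith [hR q]
  exact ⟨B10_num _ _ _ _ _ h6 h5 h4 h1 h3 h7 h8, B10_num _ _ _ _ _ h5 h6 h4 h2 h3 h7 h8⟩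

theorem B10_fac (D : Ctx K m) (A : Fin (m + 1) → K) (w : Fin (m + 1) × Fin 2 → 𝓞 K)
    (h : D.Dirs A w) (R : P → ℝ) (hR : ∀ q, 1 ≤ R q) (k : Fin (m + 1)) : Good D.X w (D.gl A)
      (fun (_ : P) _ => (1 : ℝ)) (fun q x => ((B10_h D A k (R q) x : ℂ))⁻¹) := by
  have hX := B10_X D A w h
  have hgl := sv_gl D A w
  have hgl0 : ∀ i, ∀ x ∈ D.X, 0 ≤ D.gl A i x := fun i x _ => by unfold Ctx.gl; positivity
  have hR0 : ∀ q, 0 < R q := fun q => lt_of_lt_of_le one_pos (hR q)
  -- the square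
  have g1 := Good.mul hX hgl (sv_tr (P := P) D A w k) (sv_tr (P := P) D A w k)
    (B10_T D A w h k) (Good.conj (B10_T D A w h k))
  have svR : SV D.X w fun (q : P) (_ : 𝓞 K) => (R q ^ 2)⁻¹ := by
    refine ⟨fun q x _ => by have := hR0 q; positivity, 1, ?_⟩
    intro q x _ i
    constructor <;> linarith
  have g2 : Good D.X w (D.gl A) (fun (q : P) (_ : 𝓞 K) => (R q ^ 2)⁻¹)
      (fun q _ => (((R q ^ 2)⁻¹ : ℝ) : ℂ)) := by
    apply Good.const (fun q x _ => by positivity) hgl0 _ 1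
    intro q x _
    rw [Complex.norm_real, Real.norm_eq_abs, abs_of_nonneg (by positivity), one_mul]
  have g3 := Good.mul hX hgl (SV.mul hX (sv_tr (P := P) D A w k) (sv_tr (P := P) D A w k)) svR g1 g2
  have g4 : Good D.X w (D.gl A) (fun (q : P) x => B10_h D A k (R q) x)
      (fun q x => D.Tr (A k) x * (starRingEnd ℂ) (D.Tr (A k) x) * (((R q ^ 2)⁻¹ : ℝ) : ℂ)) := by
    apply Good.mono g3 hgl0 4 (by norm_num)
    · intro q x hx
      have h1 := h.low x hx k
      have h2 : (0 : ℝ) ≤ (R q ^ 2)⁻¹ := by positivity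
      refine ⟨by positivity, ?_⟩
      unfold B10_h
      have h3 : (1 + ‖D.Tr (A k) x‖) * (1 + ‖D.Tr (A k) x‖) ≤ 4 * ‖D.Tr (A k) x‖ ^ 2 := by
        nlinarith
      have h4 := mul_le_mul_of_nonneg_right h3 h2
      nlinarith
    · intro i x hx
      have := hgl0 i x hx
      linarith
  have g5 : Good D.X w (D.gl A) (fun (q : P) x => B10_h D A k (R q) x)
      (fun _ _ => (1 : ℂ)) := by
    apply Good.const (fun q x _ => (zero_le_one.trans (B10_h_pos D A k (R q) x))) hgl0 _ 1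
    intro q x _
    rw [norm_one, one_mul]
    exact B10_h_pos D A k (R q) x
  have g6 := Good.add g5 g4
  have g7 : Good D.X w (D.gl A) (fun (q : P) x => B10_h D A k (R q) x)
      (fun q x => (B10_h D A k (R q) x : ℂ)) := by
    have e : (fun (q : P) (x : 𝓞 K) => (B10_h D A k (R q) x : ℂ)) = fun (q : P) (x : 𝓞 K) =>
        (1 : ℂ) + D.Tr (A k) x * (starRingEnd ℂ) (D.Tr (A k) x) * (((R q ^ 2)⁻¹ : ℝ) : ℂ) := by
      funext q x
      unfold B10_h
      rw [Complex.mul_conj, Complex.normSq_eq_norm_sq]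
      push_cast
      ring
    rw [e]
    exact g6
  have g8 := Good.inv hX hgl (B10_sv_h D A w R hR k) g7 1 one_pos (by
    intro q x _
    rw [Complex.norm_real, Real.norm_eq_abs, one_mul]
    exact le_abs_self _)
  apply Good.mono g8 hgl0 1 zero_le_one
  · intro q x _
    have h1 := B10_h_pos D A k (R q) x
    refine ⟨by positivity, ?_⟩
    rw [mul_one]
    exact inv_le_one_of_one_le₀ h1
  · intro i x _
    rw [one_mul]

theorem good_pcut (D : Ctx K m) (A : Fin (m + 1) → K) (w : Fin (m + 1) × Fin 2 → 𝓞 K)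
    (h : D.Dirs A w) (R : P → ℝ) (hR : ∀ q, 1 ≤ R q) : Good D.X w (D.gl A)
      (fun (_ : P) _ => (1 : ℝ)) (fun q x => (D.pcut A (R q) x : ℂ)) := by
  have h1 := Good.prod (B10_X D A w h) (sv_gl D A w) (Finset.univ : Finset (Fin (m + 1)))
    (fun _ (_ : P) _ => (1 : ℝ)) (fun k q x => ((B10_h D A k (R q) x : ℂ))⁻¹)
    (fun _ _ => SV.one) (fun k _ => B10_fac D A w h R hR k)
  simp only [Finset.prod_const_one] at h1
  have e : (fun (q : P) (x : 𝓞 K) => (D.pcut A (R q) x : ℂ)) = fun (q : P) (x : 𝓞 K) =>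
      ∏ k, ((B10_h D A k (R q) x : ℂ))⁻¹ := by
    funext q x
    unfold Ctx.pcut
    rw [Complex.ofReal_prod]
    refine Finset.prod_congr rfl fun k _ => ?_
    rw [← Complex.ofReal_inv]
    congr 1
    unfold B10_h
    have hR0 : 0 < R q := lt_of_lt_of_le one_pos (hR q)
    field_simp
  rw [e]
  exact h1

end H55N
end

-- from Lib.H55N.R4
section

open NumberField IsDedekindDomain

namespace H55N

open H55B H55C

variable {K : Type} [Field K] [NumberField K] [Algebra F K] {m : ℕ}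

/-! Chunk R4 (M). The determinant of admissible labels is Good. Idet L x = sum over permutations of sign * prod_j row (L j) x (perm j) (Matrix.det_apply). For a
label T t, t > 0: row is Good with weight sz^(-1) and gains gs (good_row with P = Unit, a, b = min, max of t; D.X stable, 0 not in D.X), hence with gains gl. For a label
A (A_k): row = σ_i(A_k) * (Tr(A_k x))^(-1), Good with weight (1+|Tr(A_k x)|)^(-1) (good_tr, Good.smul). Good.prod over j: weight
prod_{j of type T} sz^(-1) * prod_{j of type A} (1+|Tr(A_(κ j) x)|)^(-1) <= C bl A x: κ is injective on the indices of type A, so the complement of the image of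
these indices has as many elements as there are indices of type T, and sz^(-1) <= C (1+|Tr(A_k x)|)^(-1) for every k (gs_le_gl). Good.mono, Good.sum, sv_sz, sv_tr. -/

theorem r4_X (D : Ctx K m) {A : Fin (m + 1) → K} {w : Fin (m + 1) × Fin 2 → 𝓞 K}
    (hdir : D.Dirs A w) : ∀ x ∈ D.X, ∀ i, x - w i ∈ D.X :=
  fun _ hx i => D.X_sub hx (hdir.mem i)

theorem r4_gl (D : Ctx K m) (A : Fin (m + 1) → K) :
    ∀ (i : Fin (m + 1) × Fin 2), ∀ x ∈ D.X, 0 ≤ D.gl A i x :=
  fun i x _ => by unfold Ctx.gl; positivity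

theorem r4_gs (D : Ctx K m) :
    ∀ (i : Fin (m + 1) × Fin 2), ∀ x ∈ D.X, 0 ≤ D.gs i x :=
  fun _ x _ => (inv_pos.mpr (D.sz_pos x)).le

/-- The weight of a label. -/
noncomputable def r4wt (D : Ctx K m) (A : Fin (m + 1) → K) (l : Lab K m) (k : Fin (m + 1))
    (_ : Unit) (x : 𝓞 K) : ℝ :=
  match l with
  | .T _ => (D.sz x)⁻¹
  | .A _ => (1 + ‖D.Tr (A k) x‖)⁻¹

theorem r4wt_pos (D : Ctx K m) (A : Fin (m + 1) → K) (l : Lab K m) (k : Fin (m + 1))
    (q : Unit) (x : 𝓞 K) : 0 < r4wt D A l k q x := by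
  cases l with
  | T t => exact inv_pos.2 (D.sz_pos x)
  | A a =>
    show 0 < (1 + ‖D.Tr (A k) x‖)⁻¹
    positivity

theorem r4_sv (D : Ctx K m) (A : Fin (m + 1) → K) (w : Fin (m + 1) × Fin 2 → 𝓞 K)
    (hdir : D.Dirs A w) (l : Lab K m) (k : Fin (m + 1)) : SV D.X w (r4wt D A l k) := by
  cases l with
  | T t => exact SV.inv (r4_X D hdir) (sv_sz (P := Unit) D w D.X)
  | A a => exact SV.inv (r4_X D hdir) (sv_tr (P := Unit) D A w k)

theorem r4_row (D : Ctx K m) (hD : D.Ok) (A : Fin (m + 1) → K)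
    (w : Fin (m + 1) × Fin 2 → 𝓞 K) (hdir : D.Dirs A w) (l : Lab K m) (k : Fin (m + 1))
    (hT : ∀ t, l = .T t → ∀ i, 0 < t i) (hA : ∀ a, l = .A a → a = A k) (i : Fin (m + 1)) :
    Good D.X w (D.gl A) (r4wt D A l k) (fun _ x => D.row l x i) := by
  have h0 : (0 : 𝓞 K) ∉ D.X := fun h => D.X_ne hD.ne h rfl
  cases l with
  | T t =>
    obtain ⟨i0, hi0⟩ := Finite.exists_min t
    obtain ⟨i1, hi1⟩ := Finite.exists_max t
    have h1 := good_row (P := Unit) D hD.emb w D.X (r4_X D hdir) h0 (fun _ => t) (t i0) (t i1)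
      (hT t rfl i0) (fun _ i => ⟨hi0 i, hi1 i⟩) i
    obtain ⟨C, hC, _, hC2⟩ := gs_le_gl D A
    refine Good.mono h1 (r4_gs D) (max 1 C) (by positivity) (fun q x _ => ⟨?_, ?_⟩)
      (fun j x hx => ?_)
    · exact (inv_pos.2 (D.sz_pos x)).le
    · show (D.sz x)⁻¹ ≤ max 1 C * (D.sz x)⁻¹
      have : 0 < (D.sz x)⁻¹ := inv_pos.2 (D.sz_pos x)
      have h2 := le_max_left 1 C
      nlinarith
    · exact (hC2 j x).trans (mul_le_mul_of_nonneg_right (le_max_right _ _) (r4_gl D A j x hx))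
  | A a =>
    obtain rfl := hA a rfl
    have h1 := Good.smul (good_tr (P := Unit) D A w hdir k) (r4_gl D A) (fun _ x _ => by
      positivity) (fun _ => D.σ i (A k)) ‖D.σ i (A k)‖ (fun _ => le_rfl)
    exact h1

theorem r4_prod (D : Ctx K m) (A : Fin (m + 1) → K) (L : Fin (m + 1) → Lab K m)
    (κ : Fin (m + 1) → Fin (m + 1)) (hκ : Set.InjOn κ {j | ∃ a, L j = .A a}) :
    ∃ c : ℝ, 0 ≤ c ∧ ∀ x, ∏ j, r4wt D A (L j) (κ j) () x ≤ c * D.bl A x := by
  classical
  obtain ⟨C, hC, hC1, _⟩ := gs_le_gl D A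
  set C' := max 1 C with hC'
  refine ⟨C' ^ (m + 1), by positivity, fun x => ?_⟩
  set S : Finset (Fin (m + 1)) := Finset.univ.filter fun j => ∃ a, L j = .A a with hS
  have hcard : Fintype.card (Fin (m + 1)) = (Finset.univ : Finset (Fin (m + 1))).card := by
    rw [Finset.card_univ]
  obtain ⟨g, hg⟩ := Finset.exists_equiv_extend_of_card_eq (s := S) (f := κ) hcard
    (Finset.subset_univ _) (by
      intro i hi j hj hij
      rw [hS, Finset.coe_filter] at hi hj
      exact hκ hi.2 hj.2 hij)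
  have h1 : ∀ j, r4wt D A (L j) (κ j) () x ≤ C' * (1 + ‖D.Tr (A (g j)) x‖)⁻¹ := by
    intro j
    have hp : 0 ≤ (1 + ‖D.Tr (A (g j)) x‖)⁻¹ := by positivity
    by_cases hj : ∃ a, L j = .A a
    · have hj' : j ∈ S := by
        rw [hS, Finset.mem_filter]
        exact ⟨Finset.mem_univ _, hj⟩
      obtain ⟨a, ha⟩ := hj
      rw [hg j hj'] at hp ⊢
      rw [ha]
      show (1 + ‖D.Tr (A (κ j)) x‖)⁻¹ ≤ _
      have := le_max_left 1 C
      nlinarith
    · have : ∃ t, L j = .T t := by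
        cases hl : L j with
        | T t => exact ⟨t, rfl⟩
        | A a => exact absurd ⟨a, hl⟩ hj
      obtain ⟨t, ht⟩ := this
      rw [ht]
      show (D.sz x)⁻¹ ≤ _
      exact (hC1 x (g j)).trans (mul_le_mul_of_nonneg_right (le_max_right _ _) hp)
  calc ∏ j, r4wt D A (L j) (κ j) () x ≤ ∏ j, (C' * (1 + ‖D.Tr (A (g j)) x‖)⁻¹) :=
        Finset.prod_le_prod (fun j _ => (r4wt_pos D A _ _ _ x).le) fun j _ => h1 j
    _ = C' ^ (m + 1) * ∏ j, (1 + ‖D.Tr (A (g j)) x‖)⁻¹ := by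
        rw [Finset.prod_mul_distrib, Finset.prod_const, Finset.card_univ, Fintype.card_fin]
    _ = C' ^ (m + 1) * D.bl A x := by
        congr 1
        unfold Ctx.bl
        have h2 : ∏ j, (1 + ‖D.Tr (A (g j)) x‖)⁻¹ =
            ∏ k : (Finset.univ : Finset (Fin (m + 1))), (1 + ‖D.Tr (A k) x‖)⁻¹ :=
          g.prod_comp (fun k : (Finset.univ : Finset (Fin (m + 1))) => (1 + ‖D.Tr (A k) x‖)⁻¹)
        rw [h2, Finset.prod_coe_sort Finset.univ (fun k => (1 + ‖D.Tr (A k) x‖)⁻¹)]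

theorem good_idet (D : Ctx K m) (hD : D.Ok) (A : Fin (m + 1) → K)
    (w : Fin (m + 1) × Fin 2 → 𝓞 K) (hdir : D.Dirs A w) (L : Fin (m + 1) → Lab K m)
    (κ : Fin (m + 1) → Fin (m + 1)) (hT : ∀ j t, L j = .T t → ∀ i, 0 < t i)
    (hA : ∀ j a, L j = .A a → a = A (κ j)) (hκ : Set.InjOn κ {j | ∃ a, L j = .A a}) :
    Good D.X w (D.gl A) (fun (_ : Unit) x => D.bl A x) (fun _ => D.Idet L) := by
  obtain ⟨c, hc, hle⟩ := r4_prod D A L κ hκ
  have hX := r4_X D hdir
  have hgl := r4_gl D A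
  have h1 : ∀ τ : Equiv.Perm (Fin (m + 1)), Good D.X w (D.gl A)
      (fun q x => ∏ j, r4wt D A (L j) (κ j) q x)
      (fun (_ : Unit) x => ((Equiv.Perm.sign τ : ℤ) : ℂ) * ∏ j, D.row (L (τ j)) x j) := by
    intro τ
    have h2 := Good.prod hX (sv_gl D A w) Finset.univ
      (fun j q x => r4wt D A (L (τ j)) (κ (τ j)) q x)
      (fun j (_ : Unit) x => D.row (L (τ j)) x j)
      (fun j _ => r4_sv D A w hdir (L (τ j)) (κ (τ j)))
      (fun j _ => r4_row D hD A w hdir (L (τ j)) (κ (τ j)) (hT (τ j)) (hA (τ j)) j)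
    have h3 : (fun (q : Unit) (x : 𝓞 K) => ∏ j, r4wt D A (L (τ j)) (κ (τ j)) q x) =
        fun q x => ∏ j, r4wt D A (L j) (κ j) q x := by
      funext q x
      exact Equiv.prod_comp τ (fun j => r4wt D A (L j) (κ j) q x)
    rw [h3] at h2
    exact Good.smul h2 hgl
      (fun q x _ => Finset.prod_nonneg fun j _ => (r4wt_pos D A _ _ _ x).le)
      (fun _ => ((Equiv.Perm.sign τ : ℤ) : ℂ)) ‖((Equiv.Perm.sign τ : ℤ) : ℂ)‖ (fun _ => le_rfl)
  have h4 := Good.sum (Finset.univ : Finset (Equiv.Perm (Fin (m + 1)))) _ (fun τ _ => h1 τ) hgl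
    (fun q x _ => Finset.prod_nonneg fun j _ => (r4wt_pos D A _ _ _ x).le)
  have h5 : (fun (_ : Unit) => D.Idet L) = fun (_ : Unit) x =>
      ∑ τ : Equiv.Perm (Fin (m + 1)), ((Equiv.Perm.sign τ : ℤ) : ℂ) *
        ∏ j, D.row (L (τ j)) x j := by
    funext _ x
    unfold Ctx.Idet
    rw [Matrix.det_apply']
    rfl
  rw [h5]
  refine Good.mono h4 hgl (max 1 c) (by positivity) (fun q x _ => ⟨?_, ?_⟩) (fun j x hx => ?_)
  · exact Finset.prod_nonneg fun j _ => (r4wt_pos D A _ _ _ x).le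
  · refine (hle x).trans (mul_le_mul_of_nonneg_right (le_max_right _ _) ?_)
    unfold Ctx.bl
    exact Finset.prod_nonneg fun k _ => by positivity
  · have := hgl j x hx
    have h6 := le_max_left 1 c
    nlinarith

end H55N
end

-- from Lib.H55N.E3
section

open NumberField IsDedekindDomain

namespace H55N

open H55B

/-! Chunk E3 (M). y^(-1) R^2/(R^2+|y|^2) = y^(-1) - k_R(y), k_R(y) = conj(y)/(R^2+|y|^2), for y <> 0. Each sR R z converges absolutely (terms O(R^2 |y|^(-3))). So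
sR(a+w) + sR(a-w) - 2 sR(a) = sum of the second differences of 1/y (absolutely convergent: T_formula gives HasSum, hence Summable in C) minus the sum of the second differences of k_R.
The latter tends to 0: termwise k_R(y) -> 0, and |k_R(y+w) + k_R(y-w) - 2k_R(y)| <= C(w) (1+|y|)^(-3) for all R >= 1, y in C: this is Dif w' univ k_R y up to the sign, with M = C,
X = univ, ι = Fin 2, w' = ![w, -w], and conj(y) is Good with weight 1+|y|, gains (1+|y|)^(-1), R^2+|y|^2 is Good with weight R^2+|y|^2 (>= (1+|y|)^2/2), so k_R is Good with weight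
(1+|y|)/(R^2+|y|^2) <= 2/(1+|y|) (Good.inv, Good.mul, SV: easy). Or a direct estimate. Dominated convergence tendsto_tsum_of_dominated_convergence, H55B.summable_e. -/

theorem sR_summable (R : ℝ) (hR : 0 < R) (z : ℂ) : Summable fun x : O =>
    ‖(z + 3 * e x)⁻¹ * ((R ^ 2 / (R ^ 2 + ‖z + 3 * e x‖ ^ 2) : ℝ) : ℂ)‖ :=
  sR_summable_aux R hR z

theorem sR_diff (a w T : ℂ) (ha : a ∉ Lam) (hw : w ∉ Lam) (h1 : a + w ∉ Lam) (h2 : a - w ∉ Lam)
    (hT : HasSum (fun x : O => (a + w + 3 * e x)⁻¹ + (a - w + 3 * e x)⁻¹ -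
      2 * (a + 3 * e x)⁻¹) T) :
    Filter.Tendsto (fun R : ℝ => sR R (a + w) + sR R (a - w) - 2 * sR R a) Filter.atTop (nhds T) := by
  have h := E1_lim a w
  have h3 : ∑' x, E1_T a w x = T := hT.tsum_eq
  rwa [h3] at h

end H55N
end

-- from Lib.H55N.E4
section

open NumberField IsDedekindDomain

namespace H55N

open H55B

/-! Chunk E4 (M). Symmetries (reindex the sum: x -> -x, x -> x + y, x -> om x; |e om| = 1, (e om)^3 = 1) and the duplication formula.
sR_double: T(z,2z) - T(2z,z) where T(a,w) = lim sR(a+w) + sR(a-w) - 2 sR(a) (T_formula, sR_diff): sR(3z) + sR(-z) - 2 sR(z) - (sR(3z) + sR(z) - 2 sR(2z)) = 2 sR(2z) - 4 sR(z);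
T(z,2z)(wp z - wp 2z) = wpd z, T(2z,z)(wp 2z - wp z) = wpd 2z; wpd z <> 0 (wpd_double) so wp z <> wp 2z and the difference is (wpd z + wpd 2z)/(wp z - wp 2z) = 6 wp z^2/wpd z.
sR_one: T with a = 1, w = om - 1: 1 + w = om, 1 - w = 2 - om = om^2 + 3 (mod 3O: 2 - om - om^2 = 3): sR(om) + sR(om^2) - 2 sR(1) = (om^(-1) + om^(-2) - 2) sR(1) = -3 sR(1), and the limit
is R (e om - 1) = R0 (definition of R; the HasSum is T_formula, tsum). -/

theorem sR_neg (R : ℝ) (z : ℂ) : sR R (-z) = -sR R z := by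
  unfold sR
  rw [← (Equiv.neg O).tsum_eq (fun x : O => (-z + 3 * e x)⁻¹ *
    ((R ^ 2 / (R ^ 2 + ‖-z + 3 * e x‖ ^ 2) : ℝ) : ℂ)), ← tsum_neg]
  refine tsum_congr fun x => ?_
  rw [Equiv.neg_apply, map_neg]
  have e1 : -z + 3 * -e x = -(z + 3 * e x) := by ring
  rw [e1, norm_neg, inv_neg, neg_mul]

theorem sR_per (R : ℝ) (z : ℂ) (y : O) : sR R (z + 3 * e y) = sR R z :=
  E1_sR_per R z y

theorem sR_om (R : ℝ) (z : ℂ) : sR R (e om * z) = e om ^ 2 * sR R z := by
  unfold sR
  rw [← b2_eq.tsum_eq (fun x : O => (e om * z + 3 * e x)⁻¹ *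
    ((R ^ 2 / (R ^ 2 + ‖e om * z + 3 * e x‖ ^ 2) : ℝ) : ℂ)), ← tsum_mul_left]
  refine tsum_congr fun x => ?_
  have e1 : e om * z + 3 * e (b2_eq x) = e om * (z + 3 * e x) := by
    show e om * z + 3 * e (om * x) = _
    rw [map_mul]
    ring
  have e2 : (e om)⁻¹ = e om ^ 2 := by
    apply inv_eq_of_mul_eq_one_right
    rw [← pow_succ']
    exact A0_om_cube
  rw [e1, norm_mul, norm_e_om, one_mul, mul_inv, e2]
  ring

theorem sR_double (z : ℂ) (h1 : z ∉ Lam) (h2 : 2 * z ∉ Lam) (h3 : 3 * z ∉ Lam) :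
    Filter.Tendsto (fun R : ℝ => sR R (2 * z) - 2 * sR R z) Filter.atTop
      (nhds (3 * wp z ^ 2 / wpd z)) := by
  have e1 : z + 2 * z = 3 * z := by ring
  have e2 : z - 2 * z = -z := by ring
  have e3 : 2 * z + z = 3 * z := by ring
  have e4 : 2 * z - z = z := by ring
  have n1 : -z ∉ Lam := fun h => h1 (by simpa using A1_neg_mem h)
  obtain ⟨T1, hT1, f1⟩ := T_formula z (2 * z) h1 h2 (by rw [e1]; exact h3) (by rw [e2]; exact n1)
  obtain ⟨T2, hT2, f2⟩ := T_formula (2 * z) z h2 h1 (by rw [e3]; exact h3) (by rw [e4]; exact h1)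
  have t1 := sR_diff z (2 * z) T1 h1 h2 (by rw [e1]; exact h3) (by rw [e2]; exact n1) hT1
  have t2 := sR_diff (2 * z) z T2 h2 h1 (by rw [e3]; exact h3) (by rw [e4]; exact h1) hT2
  have t3 := (t1.sub t2).const_mul (1 / 2)
  obtain ⟨hy, hd⟩ := wpd_double z h1 h2
  have hne : wp z - wp (2 * z) ≠ 0 := by
    intro h
    rw [h, mul_zero] at f1
    exact hy f1.symm
  have hlim : (1 / 2 : ℂ) * (T1 - T2) = 3 * wp z ^ 2 / wpd z := by
    rw [eq_div_iff hy]
    have h5 : (wp z - wp (2 * z)) * ((1 / 2 : ℂ) * (T1 - T2) * wpd z - 3 * wp z ^ 2) = 0 := by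
      linear_combination (1 / 2) * wpd z * f1 + (1 / 2) * wpd z * f2 + (1 / 2) * hd
    rcases mul_eq_zero.1 h5 with h | h
    · exact absurd h hne
    · linear_combination h
  rw [hlim] at t3
  refine t3.congr fun R => ?_
  rw [e1, e2, e3, e4, sR_neg]
  ring

theorem sR_one : Filter.Tendsto (fun R : ℝ => sR R 1) Filter.atTop (nhds (-R0 / 3)) := by
  have t1 := E1_lim 1 (e om - 1)
  have h1 : ∑' x, E1_T 1 (e om - 1) x = R0 := rfl
  rw [h1] at t1
  have t2 := t1.const_mul (-1 / 3 : ℂ)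
  have h2 : (-1 / 3 : ℂ) * R0 = -R0 / 3 := by ring
  rw [h2] at t2
  refine t2.congr fun R => ?_
  have e1 : (1 : ℂ) + (e om - 1) = e om * 1 := by ring
  have e2 : (1 : ℂ) - (e om - 1) = e om * (e om * 1) + 3 * e 1 := by
    rw [map_one]
    linear_combination -e_om_rel
  rw [e1, e2, sR_per, sR_om R (e om * 1), sR_om R 1]
  linear_combination (-1 / 3 : ℂ) * sR R 1 * (e_om_rel + e om * A0_om_cube)

end H55N
end

-- from Lib.H55N.E6
section

open NumberField IsDedekindDomain

namespace H55N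

open H55B

/-! Chunk E6 (M). The values of the first Eisenstein function at points of odd order. r > 0 with 2^r = 1 mod k (Nat.exists.. orderOf, Euler's theorem), so 2^r z = z mod Lam.
Case 3z not in Lam: the points 2^i z, 2 * 2^i z, 3 * 2^i z are not in Lam (2 is invertible mod k: if 2 w in Lam and k w in Lam with k odd then w in Lam). By sR_double at 2^i z:
sR(2^(i+1) z) - 2 sR(2^i z) -> c_i, c_i = 3 wp^2/wpd at 2^i z. So sR(2^r z) - 2^r sR(z) -> sum_{i<r} 2^(r-1-i) c_i, and sR(2^r z) = sR(z) (sR_per): (1 - 2^r) sR(z) converges to C,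
C/R0 integral (int_point at the points 2^i z), and 2^r - 1 is odd, so S = C/(1 - 2^r), S/R0 integral (val_odd in H55B/D0).
Case 3z in Lam: z = e y, y in O not divisible by 3. The residues mod 3 are a + b om, a, b in {0,1,2}, not both 0 (exists_repr, A1_not_dvd in H55B): either z = ±om^j mod 3O (6 classes) and S = ∓.. R0 om^(2j)/3 by sR_one, sR_neg,
sR_om, sR_per, integral as 3 is odd and e om is a root of unity; or z = ±(om - 1) mod 3O (2 classes): om (om - 1) = (om - 1) - 3 om, so sR(z) = sR(om z) = om^2 sR(z), sR(z) = 0, S = 0. -/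

theorem E6_int_add {x y : ℂ} (hx : Int2 x) (hy : Int2 y) : Int2 (x + y) := fun V hV =>
  (Valuation.map_add _ _ _).trans (max_le (hx V hV) (hy V hV))

theorem E6_int_two {x : ℂ} (hx : Int2 x) : Int2 (2 * x) := by
  rw [two_mul]
  exact E6_int_add hx hx

theorem E6_zero : Int2 0 := fun V _ => by
  rw [map_zero]
  exact zero_le

theorem E6_coprime {y : O} (h : ¬ lam ∣ y) : IsCoprime y 3 := by
  have h1 : IsCoprime lam y := (lam_prime.irreducible.coprime_iff_not_dvd).2 h
  have h2 : IsCoprime y (lam ^ 2) := (h1.symm).pow_right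
  have h3 : (3 : O) = lam ^ 2 * (-om ^ 2) := by
    rw [three_eq]
    unfold lam
    ring
  rw [h3]
  refine h2.mul_right ?_
  have h4 : IsUnit (-om ^ 2 : O) := by
    rw [IsUnit.neg_iff]
    refine IsUnit.pow 2 ?_
    exact IsUnit.of_mul_eq_one (om ^ 2) (by rw [← pow_succ']; exact b2_om3)
  obtain ⟨c, hc⟩ := h4
  exact ⟨0, ((c⁻¹ : Oˣ) : O), by rw [← hc]; simp⟩

/-- The case of order three. -/
theorem E6_three (y : O) (hz : e y ∉ Lam) : ∃ S : ℂ,
    Filter.Tendsto (fun R : ℝ => sR R (e y)) Filter.atTop (nhds S) ∧ Int2 (S / R0) := by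
  have hR0 := E5_R0.2
  by_cases hl : lam ∣ y
  · obtain ⟨t, ht⟩ := hl
    refine ⟨0, ?_, ?_⟩
    · have h0 : ∀ R : ℝ, sR R (e y) = 0 := by
        intro R
        have h1 : e om * e y = e y + 3 * e (-om * t) := by
          rw [ht]
          unfold lam
          simp only [map_mul, map_sub, map_one, map_neg]
          linear_combination (e t) * e_om_rel
        have h2 := sR_om R (e y)
        rw [h1, sR_per] at h2
        have h3 : (1 - e om ^ 2) * sR R (e y) = 0 := by linear_combination h2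
        rcases mul_eq_zero.1 h3 with h | h
        · exfalso
          apply A0_om_ne_one
          have h7 : e om ^ 2 = 1 := by linear_combination -h
          have : e om ^ 3 = e om := by rw [pow_succ, h7, one_mul]
          rw [← this, A0_om_cube]
        · exact h
      simp only [h0]
      exact tendsto_const_nhds
    · rw [zero_div]
      exact E6_zero
  · obtain ⟨u, s, hs⟩ := exists_unit_prim (E6_coprime hl)
    -- u y = 1 + 3 s
    have h1 : y = (u⁻¹ : Oˣ) + 3 * ((u⁻¹ : Oˣ) * s) := by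
      have h2 : (u⁻¹ : Oˣ) * ((u : O) * y) = y := by
        rw [← mul_assoc, Units.inv_mul, one_mul]
      rw [← h2]
      have h3 : (u : O) * y = 1 + 3 * s := by linear_combination hs
      rw [h3]
      ring
    have h2 : e y = e ((u⁻¹ : Oˣ) : O) + 3 * e ((u⁻¹ : Oˣ) * s) := by
      conv_lhs => rw [h1]
      simp only [map_add, map_mul, map_ofNat]
    obtain ⟨c, hc, hcv⟩ : ∃ c : ℂ, (∀ R : ℝ, sR R (e ((u⁻¹ : Oˣ) : O)) = c * sR R 1) ∧ Int2 c := by
      have hom : Int2 (e om) := fun V _ => val_e_le V om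
      have hom2 : Int2 (e om ^ 2) := fun V _ => by
        rw [← map_pow]
        exact val_e_le V _
      have hone : Int2 1 := fun V _ => by rw [map_one]
      have hneg : ∀ x : ℂ, Int2 x → Int2 (-x) := fun x hx V hV => by
        rw [Valuation.map_neg]
        exact hx V hV
      have e1 : ∀ R : ℝ, sR R (e om) = e om ^ 2 * sR R 1 := fun R => by
        have := sR_om R 1
        rwa [mul_one] at this
      have e2 : ∀ R : ℝ, sR R (e om ^ 2) = e om * sR R 1 := fun R => by
        have := sR_om R (e om)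
        rw [e1, ← pow_two] at this
        rw [this]
        linear_combination e om * sR R 1 * A0_om_cube
      rcases unit_cases u⁻¹ with h | h | h | h | h | h
      · exact ⟨1, fun R => by rw [h, map_one, one_mul], hone⟩
      · exact ⟨-1, fun R => by rw [h, map_neg, map_one, sR_neg]; ring, hneg _ hone⟩
      · exact ⟨e om ^ 2, fun R => by rw [h, e1], hom2⟩
      · exact ⟨-e om ^ 2, fun R => by rw [h, map_neg, sR_neg, e1]; ring, hneg _ hom2⟩
      · exact ⟨e om, fun R => by rw [h, map_pow, e2], hom⟩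
      · exact ⟨-e om, fun R => by rw [h, map_neg, map_pow, sR_neg, e2]; ring, hneg _ hom⟩
    refine ⟨c * (-R0 / 3), ?_, ?_⟩
    · refine (sR_one.const_mul c).congr fun R => ?_
      rw [h2, sR_per, hc]
    · intro V hV
      have h3 : c * (-R0 / 3) / R0 = -(c / 3) := by
        field_simp
      have v3 : V.valuation 3 = 1 := by
        have := val_odd V hV 3 (by decide)
        exact_mod_cast this
      rw [h3, Valuation.map_neg, map_div₀, v3, div_one]
      exact hcv V hV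

/-- The case of order not dividing three. -/
theorem E6_gen (z : ℂ) (k : ℕ) (hk : Odd k) (hkz : (k : ℂ) * z ∈ Lam) (hz : z ∉ Lam)
    (h3 : 3 * z ∉ Lam) : ∃ S : ℂ,
    Filter.Tendsto (fun R : ℝ => sR R z) Filter.atTop (nhds S) ∧ Int2 (S / R0) := by
  have m1 := E5_pow_mem hk hz hkz
  have m3 := E5_pow_mem hk h3 (by
    have := A1_add_mem (A1_add_mem hkz hkz) hkz
    have e1 : (k : ℂ) * z + k * z + k * z = k * (3 * z) := by ring
    rwa [e1] at this)
  have key : ∀ n : ℕ, ∃ C : ℂ, Filter.Tendsto (fun R : ℝ => sR R ((2 : ℂ) ^ n * z) -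
      (2 : ℂ) ^ n * sR R z) Filter.atTop (nhds C) ∧ Int2 (C / R0) := by
    intro n
    induction n with
    | zero =>
      refine ⟨0, ?_, ?_⟩
      · refine tendsto_const_nhds.congr fun R => ?_
        rw [pow_zero, one_mul, one_mul, sub_self]
      · rw [zero_div]
        exact E6_zero
    | succ n ih =>
      obtain ⟨C, hC, hCv⟩ := ih
      have e1 : 2 * ((2 : ℂ) ^ n * z) = (2 : ℂ) ^ (n + 1) * z := by ring
      have e2 : 3 * ((2 : ℂ) ^ n * z) = (2 : ℂ) ^ n * (3 * z) := by ring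
      have t1 := sR_double ((2 : ℂ) ^ n * z) (m1 n) (by rw [e1]; exact m1 (n + 1))
        (by rw [e2]; exact m3 n)
      refine ⟨3 * wp ((2 : ℂ) ^ n * z) ^ 2 / wpd ((2 : ℂ) ^ n * z) + 2 * C, ?_, ?_⟩
      · refine (t1.add (hC.const_mul 2)).congr fun R => ?_
        rw [e1]
        ring
      · have e5 : (3 * wp ((2 : ℂ) ^ n * z) ^ 2 / wpd ((2 : ℂ) ^ n * z) + 2 * C) / R0 =
            3 * wp ((2 : ℂ) ^ n * z) ^ 2 / wpd ((2 : ℂ) ^ n * z) / R0 + 2 * (C / R0) := by ring
        rw [e5]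
        refine E6_int_add ?_ (E6_int_two hCv)
        refine int_point _ (m1 n) k hk ?_
        have := E5_int_mul hkz (2 ^ n)
        push_cast at this
        have e3 : (2 : ℂ) ^ n * (k * z) = k * ((2 : ℂ) ^ n * z) := by ring
        rwa [e3] at this
  obtain ⟨r, hr, q, hq⟩ := E5_pow hk
  obtain ⟨C, hC, hCv⟩ := key r
  obtain ⟨y, hy⟩ := hkz
  have hc3 : ((2 ^ r : ℕ) : ℂ) = ((1 + k * q : ℕ) : ℂ) := by rw [hq]
  push_cast at hc3
  have h2 : (2 : ℂ) ^ r * z = z + 3 * e (q * y) := by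
    rw [hc3, map_mul, map_natCast]
    linear_combination (q : ℂ) * hy
  have hodd : Odd (k * q) := by
    have h5 : Even (1 + k * q) := by
      rw [← hq]
      exact Even.pow_of_ne_zero even_two hr.ne'
    rcases Nat.even_or_odd (k * q) with h | h
    · exfalso
      have h6 : Odd (1 + k * q) := by rw [add_comm]; exact h.add_one
      exact (Nat.not_even_iff_odd.2 h6) h5
    · exact h
  have hne : ((k * q : ℕ) : ℂ) ≠ 0 := by
    have := hodd.pos
    exact_mod_cast this.ne'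
  refine ⟨-C / ((k * q : ℕ) : ℂ), ?_, ?_⟩
  · have t := (hC.neg).div_const ((k * q : ℕ) : ℂ)
    refine t.congr fun R => ?_
    rw [h2, sR_per, hc3]
    field_simp
    push_cast
    ring
  · intro V hV
    have v := val_odd V hV _ hodd
    have e4 : -C / ((k * q : ℕ) : ℂ) / R0 = -(C / R0) / ((k * q : ℕ) : ℂ) := by ring
    rw [e4, map_div₀, v, div_one, Valuation.map_neg]
    exact hCv V hV

theorem s_exists (z : ℂ) (hz : z ∉ Lam) (k : ℕ) (hk : Odd k) (hkz : (k : ℂ) * z ∈ Lam) :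
    ∃ S : ℂ, Filter.Tendsto (fun R : ℝ => sR R z) Filter.atTop (nhds S) ∧ Int2 (S / R0) := by
  by_cases h3 : 3 * z ∈ Lam
  · obtain ⟨y, hy⟩ := h3
    have h1 : z = e y := mul_left_cancel₀ three_ne_zero hy
    rw [h1] at hz ⊢
    exact E6_three y hz
  · exact E6_gen z k hk hkz hz h3

/-- The sums over a residue class modulo an odd integer m₀ divisible by 3. PROOF. Scaling: e α + m₀ e y = (m₀/3)(z + 3 e y) with z = 3 e α / m₀, so the sum is
(3/m₀) sR (3R/m₀) z. m₀ z = 3 e α in Lam; z not in Lam because otherwise α = m₀ y would be divisible by 3, hence by lam. -/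
theorem e1_sum (α : O) (hα : ¬ lam ∣ α) (m₀ : ℕ) (hodd : Odd m₀) (h3 : 3 ∣ m₀) :
    (∀ R : ℝ, 0 < R → Summable fun y : O => ‖(e α + m₀ * e y)⁻¹ *
      ((R ^ 2 / (R ^ 2 + ‖e α + m₀ * e y‖ ^ 2) : ℝ) : ℂ)‖) ∧
    ∃ S : ℂ, Filter.Tendsto (fun R : ℝ => ∑' y : O, (e α + m₀ * e y)⁻¹ *
      ((R ^ 2 / (R ^ 2 + ‖e α + m₀ * e y‖ ^ 2) : ℝ) : ℂ)) Filter.atTop (nhds S) ∧
      Int2 (S / R0) := by
  obtain ⟨j, hj⟩ := h3
  have hj0 : 0 < j := by
    rcases Nat.eq_zero_or_pos j with h | h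
    · rw [h, mul_zero] at hj
      rw [hj] at hodd
      exact absurd hodd (by decide)
    · exact h
  have hjo : Odd j := by
    rw [hj] at hodd
    exact (Nat.odd_mul.1 hodd).2
  have hjr : (0 : ℝ) < j := by exact_mod_cast hj0
  have hjc : (j : ℂ) ≠ 0 := by exact_mod_cast hj0.ne'
  set z : ℂ := e α / j with hzdef
  have hsc : ∀ y : O, e α + m₀ * e y = j * (z + 3 * e y) := by
    intro y
    rw [hzdef, hj]
    push_cast
    field_simp
  have hz : z ∉ Lam := by
    rintro ⟨y, hy⟩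
    apply hα
    have h1 : e α = e (3 * (j * y)) := by
      simp only [map_mul, map_ofNat, map_natCast]
      have h2 : e α = j * z := by
        rw [hzdef]
        field_simp
      rw [h2, hy]
      ring
    have h2 := e_injective h1
    have h3 : lam ∣ (3 : O) := by
      refine ⟨-om ^ 2 * lam, ?_⟩
      rw [three_eq]
      unfold lam
      ring
    rw [h2]
    exact Dvd.dvd.mul_right h3 _
  have hmz : (m₀ : ℂ) * z ∈ Lam := by
    refine ⟨α, ?_⟩
    rw [hzdef, hj]
    push_cast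
    field_simp
  have hterm : ∀ (R : ℝ) (y : O), (e α + m₀ * e y)⁻¹ *
      ((R ^ 2 / (R ^ 2 + ‖e α + m₀ * e y‖ ^ 2) : ℝ) : ℂ) =
      (j : ℂ)⁻¹ * ((z + 3 * e y)⁻¹ *
        (((R / j) ^ 2 / ((R / j) ^ 2 + ‖z + 3 * e y‖ ^ 2) : ℝ) : ℂ)) := by
    intro R y
    rw [hsc y, norm_mul, Complex.norm_natCast, mul_inv]
    have h5 : R ^ 2 / (R ^ 2 + (j * ‖z + 3 * e y‖) ^ 2) =
        (R / j) ^ 2 / ((R / j) ^ 2 + ‖z + 3 * e y‖ ^ 2) := by
      have h6 : R ^ 2 = (j : ℝ) ^ 2 * (R / j) ^ 2 := by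
        field_simp
      have h7 : R ^ 2 + (j * ‖z + 3 * e y‖) ^ 2 =
          (j : ℝ) ^ 2 * ((R / j) ^ 2 + ‖z + 3 * e y‖ ^ 2) := by
        rw [mul_add, ← h6]
        ring
      rw [h7]
      conv_lhs => rw [h6]
      exact mul_div_mul_left _ _ (by positivity)
    rw [h5]
    ring
  constructor
  · intro R hR
    have h1 := (sR_summable (R / j) (by positivity) z).mul_left ‖(j : ℂ)⁻¹‖
    refine h1.congr fun y => ?_
    rw [hterm R y, norm_mul (j : ℂ)⁻¹]
  · obtain ⟨S, hS, hSv⟩ := s_exists z hz m₀ hodd hmz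
    refine ⟨(j : ℂ)⁻¹ * S, ?_, ?_⟩
    · have ht : Filter.Tendsto (fun R : ℝ => R / j) Filter.atTop Filter.atTop :=
        Filter.tendsto_id.atTop_div_const hjr
      refine ((hS.comp ht).const_mul (j : ℂ)⁻¹).congr fun R => ?_
      simp only [hterm]
      rw [tsum_mul_left]
      rfl
    · intro V hV
      have v := val_odd V hV _ hjo
      rw [mul_div_assoc, map_mul, map_inv₀, v, inv_one, one_mul]
      exact hSv V hV

end H55N
end

-- from Lib.H55N.E8
section

open NumberField IsDedekindDomain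

namespace H55N

open H55B H55C

variable {K : Type} [Field K] [NumberField K] [Algebra F K] {m : ℕ}

/-! Chunk E8 (L). Integrality of the regularised sum for rational labels. n = m+1, l_k(x) = y(x)_k in O, e(y(x)_k) = Tr(A_k x) (hdir.int; for x in X, y(x)_k = 1 mod lam by hone). Call x, x' in X equivalent
if y(x) = y(x') mod m₀ O^n: finitely many classes (O/m₀ is finite). By hm₀ and Tr_inj the class of x0 is exactly {x0 + x(y) : y in O^n}, where x(y) in I and in all c_i is the unique element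
with Tr(A_k x(y)) = m₀ e(y_k); y -> x0 + x(y) is a bijection of O^n with the class, and g(x0 + x(y)) = g(x0), since x(y) is in all c_i. So for R > 0
sum_X g prod_k l_k^(-1) pcut = sum over the classes of g(x0) prod_k (sum_{y in O} (e α_k + m₀ e y)^(-1) R^2/(R^2 + |e α_k + m₀ e y|^2)), α_k = y(x0)_k (everything converges absolutely: e1_sum and
pi_hasSum; a finite partition of X: Summable/HasSum over a sigma type or finite union), which tends to sum g(x0) prod_k S(α_k) by e1_sum (α_k is not divisible by lam). g(x0) is an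
integer. So S/R0^n = sum g(x0) prod_k (S(α_k)/R0) is integral (valuations: finite sums, products). -/

theorem E8_int_mul {a b : ℂ} (ha : Int2 a) (hb : Int2 b) : Int2 (a * b) := by
  intro V hV
  rw [map_mul]
  exact mul_le_one' (ha V hV) (hb V hV)

theorem E8_int_sum {ι : Type} (s : Finset ι) (a : ι → ℂ) (ha : ∀ i ∈ s, Int2 (a i)) :
    Int2 (∑ i ∈ s, a i) := by
  intro V hV
  rw [ValuationSubring.valuation_le_one_iff]
  exact V.toSubring.sum_mem fun i hi => (ValuationSubring.valuation_le_one_iff V _).1 (ha i hi V hV)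

theorem E8_int_prod {ι : Type} (s : Finset ι) (a : ι → ℂ) (ha : ∀ i ∈ s, Int2 (a i)) :
    Int2 (∏ i ∈ s, a i) := by
  intro V hV
  rw [ValuationSubring.valuation_le_one_iff]
  exact V.toSubring.prod_mem fun i hi => (ValuationSubring.valuation_le_one_iff V _).1 (ha i hi V hV)

theorem E8_int_g (D : Ctx K m) (x : 𝓞 K) : Int2 (D.g x) := by
  classical
  unfold Ctx.g gw
  refine E8_int_prod _ _ fun i _ => ?_
  intro V hV
  rw [ValuationSubring.valuation_le_one_iff]
  split_ifs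
  · exact V.toSubring.sub_mem V.toSubring.one_mem (natCast_mem V.toSubring _)
  · exact V.toSubring.one_mem

theorem E8_g (D : Ctx K m) (x z : 𝓞 K) (hz : ∀ i, z ∈ D.c i) : D.g (x + z) = D.g x := by
  classical
  unfold Ctx.g gw
  refine Finset.prod_congr rfl fun i _ => ?_
  have h : x + z ∈ D.c i ↔ x ∈ D.c i := (D.c i).add_mem_iff_left (hz i)
  by_cases hx : x ∈ D.c i
  · rw [if_pos (h.2 hx), if_pos hx]
  · rw [if_neg (fun h' => hx (h.1 h')), if_neg hx]

theorem rat_val (D : Ctx K m) (hD : D.Ok) (A : Fin (m + 1) → K) (w : Fin (m + 1) × Fin 2 → 𝓞 K)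
    (hdir : D.Dirs A w) (hone : ∀ x ∈ D.X, ∀ k, ∃ y : O, D.Tr (A k) x = e (1 + lam * y))
    (m₀ : ℕ) (hodd : Odd m₀) (h3 : 3 ∣ m₀)
    (hm₀ : ∀ y : Fin (m + 1) → O, ∃ x : 𝓞 K, x ∈ D.I ∧ (∀ i, x ∈ D.c i) ∧
      ∀ k, D.Tr (A k) x = m₀ * e (y k)) (S : ℂ)
    (hS : Filter.Tendsto (fun R : ℝ => ∑' x : D.X, D.g x * (∏ k, (D.Tr (A k) x)⁻¹) *
      (D.pcut A R x : ℂ)) Filter.atTop (nhds S)) : Int2 (S / R0 ^ (m + 1)) := by
  classical
  -- coordinates
  have hY : ∀ x : D.X, ∃ y : Fin (m + 1) → O, ∀ k, D.Tr (A k) x = e (y k) ∧ ¬ lam ∣ y k := by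
    intro x
    choose y hy using hone x x.2
    refine ⟨fun k => 1 + lam * y k, fun k => ⟨hy k, ?_⟩⟩
    intro hdvd
    have h1 : lam ∣ 1 := by
      have := dvd_sub hdvd (Dvd.intro (y k) rfl : lam ∣ lam * y k)
      rwa [add_sub_cancel_right] at this
    exact lam_prime.not_isUnit (isUnit_of_dvd_one h1)
  choose Y hYY using hY
  choose z hzI hzc hzT using hm₀
  have hm0 : (m₀ : ℂ) ≠ 0 := by
    have : m₀ ≠ 0 := by
      rintro rfl
      exact absurd hodd (by decide)
    exact_mod_cast this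
  have hm0' : (m₀ : O) ≠ 0 := by
    intro h
    apply hm0
    have := congrArg e h
    rwa [map_natCast, map_zero] at this
  have hfin : Finite (O ⧸ Ideal.span {(m₀ : O)}) :=
    Ideal.finiteQuotientOfFreeOfNeBot _ (fun h => hm0' (Ideal.span_singleton_eq_bot.1 h))
  have hfin' : Finite (Fin (m + 1) → (O ⧸ Ideal.span {(m₀ : O)})) := inferInstance
  letI : Fintype (Fin (m + 1) → (O ⧸ Ideal.span {(m₀ : O)})) := Fintype.ofFinite _
  let q : D.X → (Fin (m + 1) → (O ⧸ Ideal.span {(m₀ : O)})) := fun x k =>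
    Ideal.Quotient.mk (Ideal.span {(m₀ : O)}) (Y x k)
  let T : ℝ → D.X → ℂ := fun R x => D.g x * (∏ k, (D.Tr (A k) x)⁻¹) * (D.pcut A R x : ℂ)
  let φ : ℝ → O → O → ℂ := fun R α y => (e α + m₀ * e y)⁻¹ *
      ((R ^ 2 / (R ^ 2 + ‖e α + m₀ * e y‖ ^ 2) : ℝ) : ℂ)
  have hclass : ∀ c : Fin (m + 1) → (O ⧸ Ideal.span {(m₀ : O)}), ∃ (V : ℝ → ℂ) (L : ℂ),
      (∀ R : ℝ, 0 < R → HasSum (fun x : D.X => if q x = c then T R x else 0) (V R)) ∧
      Filter.Tendsto V Filter.atTop (nhds L) ∧ Int2 (L / R0 ^ (m + 1)) := by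
    intro c
    by_cases hc : ∃ x₀ : D.X, q x₀ = c
    · obtain ⟨x₀, rfl⟩ := hc
      have hE := fun k => e1_sum (Y x₀ k) (hYY x₀ k).2 m₀ hodd h3
      choose Sk hSk hSi using fun k => (hE k).2
      let j : (Fin (m + 1) → O) → D.X := fun y => ⟨x₀ + z y, D.X_add x₀.2 (hzI y)⟩
      have hjT : ∀ y k, D.Tr (A k) (j y) = e (Y x₀ k) + m₀ * e (y k) := by
        intro y k
        show D.Tr (A k) (x₀ + z y) = _
        rw [D.Tr_add, (hYY x₀ k).1, hzT]
      have hjY : ∀ y k, Y (j y) k = Y x₀ k + m₀ * y k := by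
        intro y k
        apply e_injective
        rw [← (hYY (j y) k).1, hjT, map_add, map_mul, map_natCast]
      have hjinj : Function.Injective j := by
        intro y y' h
        funext k
        have h1 := hjT y k
        rw [h, hjT y' k] at h1
        have h2 : e (y' k) = e (y k) := mul_left_cancel₀ hm0 (add_left_cancel h1)
        exact (e_injective h2).symm
      have hjq : ∀ y, q (j y) = q x₀ := by
        intro y
        funext k
        show Ideal.Quotient.mk _ (Y (j y) k) = Ideal.Quotient.mk _ (Y x₀ k)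
        rw [hjY, Ideal.Quotient.eq, add_sub_cancel_left]
        exact Ideal.mul_mem_right _ _ (Ideal.mem_span_singleton_self _)
      have hjr : ∀ x : D.X, q x = q x₀ → x ∈ Set.range j := by
        intro x hx
        have h1 : ∀ k, ∃ t : O, Y x k - Y x₀ k = m₀ * t := by
          intro k
          have h2 : Ideal.Quotient.mk (Ideal.span {(m₀ : O)}) (Y x k) =
              Ideal.Quotient.mk (Ideal.span {(m₀ : O)}) (Y x₀ k) := congrFun hx k
          exact Ideal.mem_span_singleton.1 (Ideal.Quotient.eq.1 h2)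
        choose t ht using h1
        refine ⟨t, Subtype.ext ?_⟩
        show (x₀ : 𝓞 K) + z t = x
        have h2 : z t = x - x₀ := by
          refine Tr_inj D hD.emb A hdir.ind _ _ fun k => ?_
          rw [hzT, D.Tr_sub, (hYY x k).1, (hYY x₀ k).1, ← map_sub, ht k, map_mul, map_natCast]
        rw [h2]; ring
      refine ⟨fun R => D.g x₀ * ∏ k, ∑' y, φ R (Y x₀ k) y, D.g x₀ * ∏ k, Sk k, ?_, ?_, ?_⟩
      · intro R hR
        have hs := (pi_hasSum (m + 1) (fun k => φ R (Y x₀ k)) (fun k => (hE k).1 R hR)).mul_left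
          (D.g x₀)
        refine (hjinj.hasSum_iff ?_).1 ?_
        · intro x hx
          exact if_neg fun h => hx (hjr x h)
        · have hcongr : ((fun x : D.X => if q x = q x₀ then T R x else 0) ∘ j) =
              fun y => D.g x₀ * ∏ k, φ R (Y x₀ k) (y k) := by
            funext y
            show (if q (j y) = q x₀ then T R (j y) else 0) = _
            rw [if_pos (hjq y)]
            show D.g ((x₀ : 𝓞 K) + z y) * (∏ k, (D.Tr (A k) (j y))⁻¹) *
              ((∏ k, R ^ 2 / (R ^ 2 + ‖D.Tr (A k) (j y)‖ ^ 2) : ℝ) : ℂ) = _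
            rw [E8_g D _ _ (hzc y), Complex.ofReal_prod, mul_assoc, ← Finset.prod_mul_distrib]
            congr 1
            refine Finset.prod_congr rfl fun k _ => ?_
            rw [hjT]
          rw [hcongr]
          exact hs
      · exact (tendsto_finsetProd _ fun k _ => hSk k).const_mul _
      · have h1 : D.g x₀ * (∏ k, Sk k) / R0 ^ (m + 1) = D.g x₀ * ∏ k, (Sk k / R0) := by
          rw [Finset.prod_div_distrib, Finset.prod_const, Finset.card_univ, Fintype.card_fin,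
            mul_div_assoc]
        rw [h1]
        exact E8_int_mul (E8_int_g D _) (E8_int_prod _ _ fun k _ => hSi k)
    · refine ⟨fun _ => 0, 0, fun R _ => ?_, tendsto_const_nhds, ?_⟩
      · have : (fun x : D.X => if q x = c then T R x else 0) = fun _ => 0 := by
          funext x
          exact if_neg fun h => hc ⟨x, h⟩
        rw [this]
        exact hasSum_zero
      · rw [zero_div]
        intro V _
        rw [map_zero]
        exact zero_le_one
  choose V L hV hL hLi using hclass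
  have hsum : ∀ R : ℝ, 0 < R → ∑' x : D.X, T R x = ∑ c, V c R := by
    intro R hR
    have h1 := hasSum_sum (s := Finset.univ) (fun c _ => hV c R hR)
    have h2 : (fun x : D.X => ∑ c, if q x = c then T R x else 0) = T R := by
      funext x
      rw [Finset.sum_ite_eq]
      exact if_pos (Finset.mem_univ _)
    rw [h2] at h1
    exact h1.tsum_eq
  have hlim : Filter.Tendsto (fun R : ℝ => ∑' x : D.X, T R x) Filter.atTop (nhds (∑ c, L c)) := by
    refine (tendsto_finsetSum _ fun c _ => hL c).congr' ?_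
    filter_upwards [Filter.eventually_gt_atTop 0] with R hR
    exact (hsum R hR).symm
  have hSL : S = ∑ c, L c := tendsto_nhds_unique hS hlim
  rw [hSL, Finset.sum_div]
  exact E8_int_sum _ _ fun c _ => hLi c

end H55N
end
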