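import Mathlib
import Pool.Agent.Lib.H1M.PP.M001
import Pool.Agent.Lib.H1M.PP.M010
import Pool.Agent.Lib.H1M.PP.M013
import Pool.Agent.Lib.H1M.PP.M028

/-! Merged copies (to shorten the build) of Lib.H55N.H13, Lib.H55N.H2, Lib.H55N.H3, Lib.H55R.DD, Lib.H55R.D10, Lib.H55R.D8, Lib.H55R.D1, Lib.H55R.D2, Lib.H55R.D3, Lib.H55R.D7, Lib.H55R.D6, Lib.H55R.D5, Lib.H55P.B11. -/

-- from Lib.H55N.H13
section

open NumberField IsDedekindDomain

namespace H55N

open H55B H55C

/-- 3 generates a proper ideal. -/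
theorem H13_three {K : Type} [Field K] [NumberField K] :
    (Ideal.span {3} : Ideal (𝓞 K)) ≠ ⊤ := by
  intro h
  have h1 : Ideal.absNorm (Ideal.span {3} : Ideal (𝓞 K)) = 1 := by
    rw [h]
    exact Ideal.absNorm_top
  rw [Ideal.absNorm_span_singleton] at h1
  have h2 : Algebra.norm ℤ (3 : 𝓞 K) = 3 ^ Module.finrank ℤ (𝓞 K) := by
    have h3 := Algebra.norm_algebraMap (R := ℤ) (S := 𝓞 K) (3 : ℤ)
    simpa using h3
  rw [h2, Int.natAbs_pow] at h1
  have h3 : 0 < Module.finrank ℤ (𝓞 K) := Module.finrank_pos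
  have h4 : 1 < Int.natAbs 3 ^ Module.finrank ℤ (𝓞 K) :=
    Nat.one_lt_pow h3.ne' (by decide)
  omega

/-- A prime containing 3. -/
theorem H13_prime {K : Type} [Field K] [NumberField K] :
    ∃ w : HeightOneSpectrum (𝓞 K), (Ideal.span {3} : Ideal (𝓞 K)) ≤ w.asIdeal := by
  obtain ⟨M, hM, hM2⟩ := Ideal.exists_le_maximal _ (H13_three (K := K))
  refine ⟨⟨M, hM.isPrime, ?_⟩, hM2⟩
  rintro rfl
  rw [le_bot_iff, Ideal.span_singleton_eq_bot] at hM2
  have h3 : ((3 : ℕ) : 𝓞 K) ≠ 0 := Nat.cast_ne_zero.2 (by decide)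
  exact h3 (by exact_mod_cast hM2)

/-- The ideal attached to an element. -/
theorem H13_ex {K : Type} [Field K] [NumberField K] [Algebra F K] (f : Ideal (𝓞 K))
    (ι : Type) (b : ι → Ideal (𝓞 K)) (c₀ : ι → 𝓞 K) (T : ι → Set (𝓞 K))
    (h : CD f ι b c₀ T) (q : Σ i, T i) :
    ∃ a : Ideal (𝓞 K), a * b q.1 = Ideal.span {(q.2 : 𝓞 K)} ∧ a ≠ ⊥ ∧
      IsCoprime a (Ideal.span {3} * f) := by
  obtain ⟨i, x, hx⟩ := q
  have h1 : x ∈ XS (Ideal.span {3} * f * b i) (c₀ i) := (h.trans i).sub hx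
  have h1' : x - c₀ i ∈ Ideal.span {3} * f * b i := h1
  have hxb : x ∈ b i := by
    have h2 : x - c₀ i ∈ b i := Ideal.mul_le_right h1'
    have h3 := Ideal.add_mem _ h2 (h.mem i)
    simpa using h3
  have key : ∀ w : HeightOneSpectrum (𝓞 K), Ideal.span {3} * f ≤ w.asIdeal →
      x ∉ w.asIdeal * b i := by
    intro w hw hxw
    apply h.prim i w hw
    have h2 : x - c₀ i ∈ w.asIdeal * b i := Ideal.mul_mono_left hw h1'
    have h3 := Ideal.sub_mem _ hxw h2
    simpa using h3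
  have hx0 : x ≠ 0 := by
    rintro rfl
    obtain ⟨w, hw⟩ := H13_prime (K := K)
    exact key w (Ideal.mul_le_left.trans hw) (Ideal.zero_mem _)
  have h3 : b i ∣ Ideal.span {x} := by
    rw [Ideal.dvd_iff_le, Ideal.span_singleton_le_iff_mem]
    exact hxb
  obtain ⟨a, ha⟩ := h3
  refine ⟨a, by rw [mul_comm]; exact ha.symm, ?_, ?_⟩
  · rintro rfl
    apply hx0
    rw [← Ideal.span_singleton_eq_bot, ha]
    exact mul_zero _
  · have ha0 : a ≠ ⊥ := by
      rintro rfl
      apply hx0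
      rw [← Ideal.span_singleton_eq_bot, ha]
      exact mul_zero _
    by_contra hc
    rw [Ideal.isCoprime_iff_sup_eq] at hc
    obtain ⟨M, hM, hM2⟩ := Ideal.exists_le_maximal _ hc
    have hM0 : M ≠ ⊥ := by
      rintro rfl
      exact ha0 (le_bot_iff.1 (le_sup_left.trans hM2))
    refine key ⟨M, hM.isPrime, hM0⟩ (le_sup_right.trans hM2) ?_
    have h4 : x ∈ b i * a := by
      rw [← ha]
      exact Ideal.mem_span_singleton_self x
    rw [mul_comm] at h4
    exact Ideal.mul_mono_left (le_sup_left.trans hM2) h4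

/-- Chunk H13 (S/M), summation over the class decomposition. The map q -> the ideal a with a * b = (x) (x = q.2; it exists because
x is in b: x - c0 in 3fb, c0 in b; a is nonzero because x <> 0, a is prime to 3f because otherwise x is in w b and then c0 is in w b) is a
bijection from the sigma type onto the set of nonzero ideals prime to 3f (bij), which contains the support of phi. Sum over
a sigma type with finite base of summable fibres (HasSum.sigma is for the converse direction; use a finite sum of HasSum over the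
disjoint pieces, for instance hasSum_sum and Function.Injective.hasSum_iff, or HasSum.sigma_of_hasSum with
summability of a finite union). -/
theorem cd_hasSum {K : Type} [Field K] [NumberField K] [Algebra F K] (f : Ideal (𝓞 K))
    (ι : Type) [Fintype ι] (b : ι → Ideal (𝓞 K)) (c₀ : ι → 𝓞 K) (T : ι → Set (𝓞 K))
    (h : CD f ι b c₀ T) (φ : Ideal (𝓞 K) → ℂ)
    (hφ : ∀ a, φ a ≠ 0 → a ≠ ⊥ ∧ IsCoprime a (Ideal.span {3} * f)) (G : ι → 𝓞 K → ℂ)
    (hG : ∀ i, ∀ x ∈ T i, ∀ a, a * b i = Ideal.span {x} → φ a = G i x) (Z : ι → ℂ)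
    (hZ : ∀ i, HasSum (fun x : T i => G i x) (Z i)) : HasSum φ (∑ i, Z i) := by
  classical
  choose A hA1 hA2 hA3 using H13_ex f ι b c₀ T h
  have hinj : Function.Injective A := by
    intro q q' hq
    obtain ⟨r, _, hr2⟩ := h.bij (A q) (hA2 q) (hA3 q)
    have h1 := hr2 q (hA1 q)
    have h2 := hr2 q' (by
      show A q * b q'.1 = Ideal.span {(q'.2 : 𝓞 K)}
      rw [hq]
      exact hA1 q')
    rw [h1, h2]
  have hran : ∀ a ∉ Set.range A, φ a = 0 := by
    intro a ha
    by_contra hne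
    apply ha
    obtain ⟨h1, h2⟩ := hφ a hne
    obtain ⟨q, hq, _⟩ := h.bij a h1 h2
    refine ⟨q, ?_⟩
    have h3 : A q * b q.1 = a * b q.1 := by
      rw [hA1 q]
      exact hq.symm
    exact mul_right_cancel₀ (show b q.1 ≠ 0 from h.ne q.1) h3
  rw [← hinj.hasSum_iff hran]
  have h1 : (φ ∘ A) = fun q : Σ i, T i => ∑ i, if q.1 = i then G q.1 q.2 else 0 := by
    funext q
    rw [Finset.sum_ite_eq Finset.univ q.1, if_pos (Finset.mem_univ _)]
    exact hG q.1 q.2 q.2.2 (A q) (hA1 q)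
  rw [h1]
  refine hasSum_sum fun i _ => ?_
  have h2 : ∀ q ∉ Set.range (fun x : T i => (⟨i, x⟩ : Σ j, T j)),
      (if q.1 = i then G q.1 q.2 else 0) = 0 := by
    rintro ⟨j, x⟩ hq
    rw [if_neg]
    rintro rfl
    exact hq ⟨x, rfl⟩
  have hinj2 : Function.Injective (fun x : T i => (⟨i, x⟩ : Σ j, T j)) := by
    intro x y hxy
    exact eq_of_heq (Sigma.mk.inj hxy).2
  rw [← hinj2.hasSum_iff h2]
  have h3 : ((fun q : Σ i, T i => if q.1 = i then G q.1 q.2 else 0) ∘
      (fun x : T i => (⟨i, x⟩ : Σ j, T j))) = fun x : T i => G i x := by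
    funext x
    exact if_pos rfl
  rw [h3]
  exact hZ i

end H55N
end

-- from Lib.H55N.H2
section

open NumberField IsDedekindDomain

namespace H55N

open H55B H55C

/-! Chunk H2 (M): the Hecke character on principal ideals.
norm_congr: 𝓞 K is free of finite rank over the principal ideal domain O, so Algebra.intNorm O (𝓞 K) x is
Algebra.norm O x (Algebra.intNorm_eq_norm), the determinant of the matrix of the multiplication by x; if x - y = m t the
entries of the matrices of x and y are congruent modulo m, so are the determinants (apply RingHom.map_det for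
O -> O/(m)). emb_norm: Algebra.algebraMap_intNorm (e = emb o algebraMap).
Psi_span: relNorm (span {x}) = span {intNorm x} (Ideal.relNorm_singleton); intNorm x0 is prime to 3 (relNorm of a coprime pair:
relNorm (span {x0}) is prime to 3, for instance because 1 = x0 r + 3 t gives intNorm x0 * intNorm r = 1 mod 3 by norm_congr);
exists_unit_prim gives eta with eta * intNorm x0 primary, and then eta * intNorm x is primary for all x = x0 mod 3
(norm_congr), so pg (span {intNorm x}) = eta * intNorm x (pg_span, span of a unit multiple). -/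

variable {K : Type} [Field K] [NumberField K] [Algebra F K]

theorem norm_congr (m : O) (x y : 𝓞 K) (h : x - y ∈ Ideal.span {algebraMap O (𝓞 K) m}) :
    m ∣ Algebra.intNorm O (𝓞 K) x - Algebra.intNorm O (𝓞 K) y := by
  classical
  obtain ⟨t, ht⟩ := Ideal.mem_span_singleton.1 h
  rw [Algebra.intNorm_eq_norm]
  let b := Module.Free.chooseBasis O (𝓞 K)
  rw [Algebra.norm_eq_matrix_det b, Algebra.norm_eq_matrix_det b, ← Ideal.mem_span_singleton,
    ← Ideal.Quotient.eq, RingHom.map_det, RingHom.map_det]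
  congr 1
  ext i j
  simp only [RingHom.mapMatrix_apply, Matrix.map_apply]
  rw [Ideal.Quotient.eq, Ideal.mem_span_singleton]
  refine ⟨Algebra.leftMulMatrix b t i j, ?_⟩
  rw [← Matrix.sub_apply, ← map_sub, ht, ← Algebra.smul_def, map_smul, Matrix.smul_apply,
    smul_eq_mul]

theorem emb_norm (x : 𝓞 K) :
    e (Algebra.intNorm O (𝓞 K) x) = emb (Algebra.norm F (x : K)) := by
  show emb (algebraMap O F (Algebra.intNorm O (𝓞 K) x)) = _
  rw [Algebra.algebraMap_intNorm (A := O) (K := F) (L := K) (B := 𝓞 K)]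

theorem Psi_span (x₀ : 𝓞 K) (h3 : IsCoprime (Ideal.span {x₀}) (Ideal.span {(3 : 𝓞 K)})) :
    ∃ η : Oˣ, ∀ x : 𝓞 K, x - x₀ ∈ Ideal.span {(3 : 𝓞 K)} →
      Psi K (Ideal.span {x}) =
        (starRingEnd ℂ) (e (η : O)) * (starRingEnd ℂ) (emb (Algebra.norm F (x : K))) := by
  have h3' : (3 : 𝓞 K) = algebraMap O (𝓞 K) 3 := (map_ofNat _ 3).symm
  have hcop : IsCoprime (Algebra.intNorm O (𝓞 K) x₀) 3 := by
    rw [Ideal.isCoprime_span_singleton_iff] at h3
    obtain ⟨r, t, hrt⟩ := h3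
    have h1 : r * x₀ - 1 ∈ Ideal.span {algebraMap O (𝓞 K) 3} := by
      rw [Ideal.mem_span_singleton, ← h3']
      exact ⟨-t, by linear_combination hrt⟩
    obtain ⟨c, hc⟩ := norm_congr 3 _ _ h1
    rw [map_mul, map_one] at hc
    exact ⟨Algebra.intNorm O (𝓞 K) r, -c, by linear_combination hc⟩
  obtain ⟨η, hη⟩ := exists_unit_prim hcop
  refine ⟨η, fun x hx => ?_⟩
  have h2 : Prim ((η : O) * Algebra.intNorm O (𝓞 K) x) := by
    rw [h3'] at hx
    obtain ⟨c, hc⟩ := norm_congr 3 _ _ hx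
    obtain ⟨c', hc'⟩ := hη
    exact ⟨c' + η * c, by linear_combination hc' + (η : O) * hc⟩
  show psiF (Ideal.relNorm O (Ideal.span {x})) = _
  rw [Ideal.relNorm_singleton, psiF_apply]
  have h4 : Ideal.span {Algebra.intNorm O (𝓞 K) x} =
      Ideal.span {(η : O) * Algebra.intNorm O (𝓞 K) x} := by
    rw [mul_comm, Ideal.span_singleton_mul_right_unit η.isUnit]
  rw [h4, pg_span h2, map_mul, map_mul, emb_norm]

/-- The absolute norm of a principal ideal. -/
theorem absNorm_span (x : 𝓞 K) :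
    (Ideal.absNorm (Ideal.span {x}) : ℝ) = ‖emb (Algebra.norm F (x : K))‖ ^ 2 := by
  rw [← Ideal.absNorm_relNorm O, Ideal.relNorm_singleton, ← emb_norm]
  exact Nm_eq _

end H55N
end

-- from Lib.H55N.H3
section

open NumberField IsDedekindDomain

namespace H55N

open H55B H55C

/-! Chunk H3 (M): absolute convergence. ideal_summable: the number c_n of ideals of norm n has partial sums O(x)
(Mathlib: Mathlib/NumberTheory/NumberField/Ideal/Asymptotics.lean, tendsto_norm_le_div_atTop and friends, as used in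
Mathlib/NumberTheory/NumberField/DedekindZeta.lean), so the sum of c_n n^(-sigma) converges for sigma > 1
(LSeriesSummable_of_sum_norm_bigO_and_nonneg or similar); the sum over the ideals is the iterated sum over the fibres of the norm
(nonnegative terms; the ideal 0 contributes 0 because 0^(-sigma) = 0). tm_summable: |h a| <= N(a)^(1/2), so
|tm h s a| <= N(a)^(1/2 - Re s) (for a = 0 both sides: h 0 = 0). -/

variable {K : Type} [Field K] [NumberField K]


theorem H3_tendsto : Filter.Tendsto (fun n : ℕ => (∑ k ∈ Finset.Icc 1 n,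
    (Nat.card {I : Ideal (𝓞 K) // Ideal.absNorm I = k} : ℝ)) / (n : ℝ)) Filter.atTop
    (nhds (NumberField.dedekindZeta_residue K)) := by
  refine ((Ideal.tendsto_norm_le_div_atTop₀ K).comp tendsto_natCast_atTop_atTop).congr fun n ↦ ?_
  simp only [Function.comp_apply, Nat.cast_le, ← Nat.cast_sum]
  congr
  rw [← add_left_inj 1, ← Ideal.card_norm_le_eq_card_norm_le_add_one,
    show Finset.Icc 1 n = Finset.Ioc 0 n from Finset.Icc_succ_left_eq_Ioc _ _,
    show 1 = Nat.card {I : Ideal (𝓞 K) // Ideal.absNorm I = 0} by simp [Ideal.absNorm_eq_zero_iff],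
    Finset.sum_Ioc_add_eq_sum_Icc (n.zero_le),
    ← Finset.card_preimage_eq_sum_card_image_eq (fun k _ ↦ Ideal.finite_setOfPred_absNorm_eq k)]
  simp [Set.coe_eq_subtype]

theorem ideal_summable (σ : ℝ) (hσ : 1 < σ) :
    Summable (fun a : Ideal (𝓞 K) => (Ideal.absNorm a : ℝ) ^ (-σ)) := by
  have h0 : LSeriesSummable (fun n => (((Nat.card {I : Ideal (𝓞 K) // Ideal.absNorm I = n} : ℕ) : ℝ) : ℂ))
      (σ : ℂ) := by
    have h1 : 1 < (σ : ℂ).re := by simpa using hσ
    refine LSeriesSummable_of_sum_norm_bigO_and_nonneg (r := 1) ?_ (fun _ => Nat.cast_nonneg _)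
      zero_le_one h1
    exact Asymptotics.isBigO_atTop_natCast_rpow_of_tendsto_div_rpow (𝕜 := ℝ) (a := NumberField.dedekindZeta_residue K)
      (by simpa using (H3_tendsto (K := K)))
  have h2 : Summable (fun n : ℕ =>
      ((Nat.card {I : Ideal (𝓞 K) // Ideal.absNorm I = n} : ℕ) : ℝ) * (n : ℝ) ^ (-σ)) := by
    refine (summable_norm_iff.2 h0).congr fun n => ?_
    rcases Nat.eq_zero_or_pos n with rfl | hn
    · rw [LSeries.term_zero, norm_zero, Nat.cast_zero, Real.zero_rpow (by linarith), mul_zero]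
    · rw [LSeries.term_of_ne_zero (by omega), norm_div, Complex.norm_natCast_cpow_of_pos hn,
        Complex.norm_real, Real.norm_of_nonneg (Nat.cast_nonneg _), Complex.ofReal_re,
        Real.rpow_neg (Nat.cast_nonneg _), div_eq_mul_inv]
  rw [← (Equiv.sigmaFiberEquiv (fun a : Ideal (𝓞 K) => Ideal.absNorm a)).summable_iff]
  have h3 : ∀ n : ℕ, Finite {I : Ideal (𝓞 K) // Ideal.absNorm I = n} := fun n =>
    (Ideal.finite_setOfPred_absNorm_eq n).to_subtype
  rw [summable_sigma_of_nonneg]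
  · refine ⟨fun n => Summable.of_finite, h2.congr fun n => ?_⟩
    have := Fintype.ofFinite {I : Ideal (𝓞 K) // Ideal.absNorm I = n}
    rw [tsum_fintype]
    rw [Finset.sum_congr rfl (g := fun _ => (n : ℝ) ^ (-σ))]
    · rw [Finset.sum_const, Finset.card_univ, Nat.card_eq_fintype_card, nsmul_eq_mul]
    · rintro ⟨I, hI⟩ -
      simp only [Function.comp_apply, Equiv.sigmaFiberEquiv_apply]
      rw [hI]
  · rintro ⟨n, I⟩
    simp only [Function.comp_apply]
    positivity

theorem tm_summable (h : Ideal (𝓞 K) → ℂ) (hh : ∀ a, ‖h a‖ ^ 2 ≤ Ideal.absNorm a) (s : ℂ)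
    (hs : 3 / 2 < s.re) : Summable (fun a => ‖tm h s a‖) := by
  refine Summable.of_nonneg_of_le (fun _ => norm_nonneg _) (fun a => ?_)
    (ideal_summable (K := K) (s.re - 1 / 2) (by linarith))
  unfold tm
  rw [norm_mul]
  rcases Nat.eq_zero_or_pos (Ideal.absNorm a) with h0 | h0
  · have h1 := hh a
    rw [h0, Nat.cast_zero] at h1
    have h2 : ‖h a‖ = 0 := by
      have := norm_nonneg (h a)
      nlinarith
    rw [h2, zero_mul]
    positivity
  · have h1 : ‖h a‖ ≤ (Ideal.absNorm a : ℝ) ^ (1 / 2 : ℝ) := by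
      rw [← Real.sqrt_eq_rpow]
      exact Real.le_sqrt_of_sq_le (hh a)
    rw [Complex.norm_natCast_cpow_of_pos h0, Complex.neg_re]
    have h2 : (0 : ℝ) < Ideal.absNorm a := by exact_mod_cast h0
    calc ‖h a‖ * (Ideal.absNorm a : ℝ) ^ (-s.re) ≤
        (Ideal.absNorm a : ℝ) ^ (1 / 2 : ℝ) * (Ideal.absNorm a : ℝ) ^ (-s.re) := by gcongr
      _ = (Ideal.absNorm a : ℝ) ^ (-(s.re - 1 / 2)) := by
        rw [← Real.rpow_add h2]
        congr 1
        ring

end H55N
end

-- from Lib.H55R.DD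
section

/-!
# H55R, part AN: definitions and first lemmas.
-/

open NumberField IsDedekindDomain

namespace H55R

open H55B H55N

section one

variable {K : Type} [Field K] [NumberField K]

/-- The value of the Dirichlet series of h at the real number s. -/
noncomputable def Ls (h : Ideal (𝓞 K) → ℂ) (s : ℝ) : ℂ := ∑' a, tm h s a

open Classical in
/-- The smoothing weight of the ideal c. -/
noncomputable def wt (c : Ideal (𝓞 K)) (x : 𝓞 K) : ℂ :=
  if x ∈ c then 1 - (Ideal.absNorm c : ℂ) else 1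

/-- The absolute value of the norm to F. -/
noncomputable def nn [Algebra F K] (x : 𝓞 K) : ℝ := ‖emb (Algebra.norm F (x : K))‖

theorem dd_two_le (v : Pl K) : 2 ≤ Ideal.absNorm v.asIdeal := by
  have h0 : Ideal.absNorm v.asIdeal ≠ 0 := fun h => v.ne_bot (Ideal.absNorm_eq_zero_iff.1 h)
  have h1 : Ideal.absNorm v.asIdeal ≠ 1 := fun h => v.isPrime.ne_top (Ideal.absNorm_eq_one_iff.1 h)
  omega

theorem dd_half (v : Pl K) (s : ℝ) (hs : 1 ≤ s) : (Ideal.absNorm v.asIdeal : ℝ) ^ (-s) ≤ 1 / 2 := by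
  have h2 : (2 : ℝ) ≤ (Ideal.absNorm v.asIdeal : ℝ) := by exact_mod_cast dd_two_le v
  calc (Ideal.absNorm v.asIdeal : ℝ) ^ (-s) ≤ (Ideal.absNorm v.asIdeal : ℝ) ^ (-1 : ℝ) :=
        Real.rpow_le_rpow_of_exponent_le (by linarith) (by linarith)
    _ = (Ideal.absNorm v.asIdeal : ℝ)⁻¹ := Real.rpow_neg_one _
    _ ≤ 1 / 2 := by
        rw [one_div]
        exact inv_anti₀ (by norm_num) h2

theorem dd_inj : Function.Injective fun v : Pl K => v.asIdeal := fun _ _ h =>
  HeightOneSpectrum.ext h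

theorem dd_summable (s : ℝ) (hs : 1 < s) :
    Summable fun v : Pl K => (Ideal.absNorm v.asIdeal : ℝ) ^ (-s) :=
  (ideal_summable (K := K) s hs).comp_injective dd_inj

theorem dd_norm_tm (h : Ideal (𝓞 K) → ℂ) (s : ℝ) (hs : s ≠ 0) (a : Ideal (𝓞 K)) :
    ‖tm h s a‖ = ‖h a‖ * (Ideal.absNorm a : ℝ) ^ (-s) := by
  unfold tm
  rw [norm_mul, Complex.norm_natCast_cpow_of_re_ne_zero _ (by simpa using hs)]
  simp

theorem dd_tm_summable (h : Ideal (𝓞 K) → ℂ) (hh : ∀ a, ‖h a‖ ≤ 1) (s : ℝ) (hs : 1 < s) :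
    Summable fun a => ‖tm h s a‖ := by
  refine Summable.of_nonneg_of_le (fun _ => norm_nonneg _) (fun a => ?_)
    (ideal_summable (K := K) s hs)
  rw [dd_norm_tm h s (by linarith) a]
  exact mul_le_of_le_one_left (by positivity) (hh a)

theorem dd_norm_pv (φ : Pl K → ℂˣ) (h : ∀ v, ‖(φ v : ℂ)‖ = 1) (a : Ideal (𝓞 K)) :
    ‖(pv φ a : ℂ)‖ = 1 := by
  unfold pv
  have h1 : ∀ s : Multiset ℂˣ, (∀ x ∈ s, ‖(x : ℂ)‖ = 1) → ‖((s.prod : ℂˣ) : ℂ)‖ = 1 := by
    intro s
    induction s using Multiset.induction_on with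
    | empty => simp
    | cons x s ih =>
      intro hx
      rw [Multiset.prod_cons, Units.val_mul, norm_mul, hx x (Multiset.mem_cons_self x s),
        ih fun y hy => hx y (Multiset.mem_cons_of_mem hy), one_mul]
  apply h1
  intro x hx
  rw [Multiset.mem_map] at hx
  obtain ⟨P, -, rfl⟩ := hx
  split_ifs with h2
  · exact h _
  · simp

theorem dd_norm_tI (f : Ideal (𝓞 K)) (φ : Pl K → ℂˣ) (h : ∀ v, ‖(φ v : ℂ)‖ = 1)
    (a : Ideal (𝓞 K)) : ‖tI f φ a‖ ≤ 1 := by
  by_cases h0 : a ≠ ⊥ ∧ IsCoprime a f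
  · rw [tI_apply f φ h0.1 h0.2, dd_norm_pv φ h a]
  · have : tI f φ a = 0 := if_neg h0
    rw [this, norm_zero]
    exact zero_le_one

theorem dd_norm_Y (Y : Subgroup (Pl K → ℂˣ)) [Finite Y] (φ : Pl K → ℂˣ) (hφ : φ ∈ Y) (v : Pl K) :
    ‖(φ v : ℂ)‖ = 1 := by
  have h1 : (⟨φ, hφ⟩ : Y) ^ Nat.card Y = 1 := pow_card_eq_one'
  have h2 : φ ^ Nat.card Y = 1 := congrArg Subtype.val h1
  have h3 : (φ v : ℂ) ^ Nat.card Y = 1 := by
    have := congrFun h2 v
    rw [Pi.pow_apply, Pi.one_apply] at this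
    have h4 := congrArg (Units.val) this
    simpa using h4
  exact Complex.norm_eq_one_of_pow_eq_one h3 Nat.card_pos.ne'

/-- The value at an ideal all of whose primes have value 1. -/
theorem dd_pv_eq_one (φ : Pl K → ℂˣ) (a : Ideal (𝓞 K))
    (h : ∀ v : Pl K, a ≤ v.asIdeal → φ v = 1) : pv φ a = 1 := by
  unfold pv
  refine Multiset.prod_eq_one fun x hx => ?_
  rw [Multiset.mem_map] at hx
  obtain ⟨P, hP, rfl⟩ := hx
  split_ifs with h2
  · exact h _ (Ideal.dvd_iff_le.1 (UniqueFactorizationMonoid.dvd_of_mem_normalizedFactors hP))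
  · rfl

end one

end H55R
end

-- from Lib.H55R.D10
section

open NumberField IsDedekindDomain

namespace H55R

open H55B H55N

open Classical in
/-- Chunk RD10 (S/M), the terms of a class. kappa = pv phi (c₀) / pv phi b. Let x in XS, a b = (x). x <> 0 and c₀ <> 0, and both (x) and (c₀) are coprime to (3) f: (x) = a b with b coprime to (6) f
and a coprime to (3) f: if a and (3) f were contained in a prime w, then x in w b, and x - c₀ in 3 f b <= w b gives c₀ in w b, against hp (the same for c₀ = b d; there is such a prime w because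
3 is not a unit of 𝓞 K; see H13_three, H13_prime, H13_ex in H55N/H13.lean). x - c₀ in (3) f b <= f, so
pv phi (x) = pv phi (c₀) (second part of RC) and pv phi a * pv phi b = pv phi (x) (pv_mul), tI (3f) phi a = pv phi a = kappa (tI_apply). absNorm a * absNorm b =
absNorm (x) = nn x ^ 2 (H55N.absNorm_span), all positive, so (absNorm a)^(-s) = (absNorm b)^s * nn x ^ (-2 s) (real powers; the complex power of a natural number with real exponent is the real power:
Complex.ofReal_cpow). Weights: a <= c iff x in c: x in c gives a b <= c, c is prime and b is not <= c (b + c = 1, c <> 1); conversely x in a b <= a <= c. -/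
theorem term_class {K : Type} [Field K] [NumberField K] [Algebra F K] (f b : Ideal (𝓞 K))
    (hf : f ≠ ⊥) (hb : b ≠ ⊥) (φ : Pl K → ℂˣ) (hφ : φ ∈ RC f)
    (hbf : IsCoprime b (Ideal.span {6} * f)) (c₀ : 𝓞 K) (hc : c₀ ∈ b)
    (hp : ∀ w : HeightOneSpectrum (𝓞 K), Ideal.span {3} * f ≤ w.asIdeal → c₀ ∉ w.asIdeal * b) :
    ∃ κ : ℂ, ∀ c : Pl K, IsCoprime b c.asIdeal → ∀ x ∈ XS (Ideal.span {3} * f * b) c₀,
      ∀ a : Ideal (𝓞 K), a * b = Ideal.span {x} → ∀ s : ℝ,
        tm (tI (Ideal.span {3} * f) φ) s a *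
            (if a ≤ c.asIdeal then 1 - (Ideal.absNorm c.asIdeal : ℂ) else 1) =
          κ * (((Ideal.absNorm b : ℝ) ^ s : ℝ) : ℂ) *
            (wt c.asIdeal x * ((nn x ^ (-2 * s) : ℝ) : ℂ)) := by
  classical
  have key : ∀ x ∈ XS (Ideal.span {3} * f * b) c₀, ∀ w : HeightOneSpectrum (𝓞 K),
      Ideal.span {3} * f ≤ w.asIdeal → x ∉ w.asIdeal * b := by
    intro x hx w hw hxw
    have h1 : x - c₀ ∈ Ideal.span {3} * f * b := hx
    apply hp w hw
    have h2 : x - c₀ ∈ w.asIdeal * b := Ideal.mul_mono_left hw h1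
    have h3 := Ideal.sub_mem _ hxw h2
    rwa [sub_sub_cancel] at h3
  have hc₀XS : c₀ ∈ XS (Ideal.span {3} * f * b) c₀ := by
    show c₀ - c₀ ∈ Ideal.span {3} * f * b
    rw [sub_self]
    exact Ideal.zero_mem _
  have hne : ∀ x ∈ XS (Ideal.span {3} * f * b) c₀, x ≠ 0 := by
    rintro x hx rfl
    obtain ⟨w, hw⟩ := H13_prime (K := K)
    exact key 0 hx w (Ideal.mul_le_left.trans hw) (Ideal.zero_mem _)
  have hcop : ∀ x ∈ XS (Ideal.span {3} * f * b) c₀, ∀ a : Ideal (𝓞 K),
      a * b = Ideal.span {x} → a ≠ ⊥ ∧ IsCoprime a (Ideal.span {3} * f) := by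
    intro x hx a hab
    have ha0 : a ≠ ⊥ := by
      rintro rfl
      apply hne x hx
      rw [← Ideal.span_singleton_eq_bot, ← hab]
      exact zero_mul b
    refine ⟨ha0, ?_⟩
    by_contra hc'
    rw [Ideal.isCoprime_iff_sup_eq] at hc'
    obtain ⟨M, hM, hM2⟩ := Ideal.exists_le_maximal _ hc'
    have hM0 : M ≠ ⊥ := by
      rintro rfl
      exact ha0 (le_bot_iff.1 (le_sup_left.trans hM2))
    refine key x hx ⟨M, hM.isPrime, hM0⟩ (le_sup_right.trans hM2) ?_
    have h4 : x ∈ a * b := by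
      rw [hab]
      exact Ideal.mem_span_singleton_self x
    exact Ideal.mul_mono_left (le_sup_left.trans hM2) h4
  have hbf' : IsCoprime b f := hbf.of_mul_right_right
  refine ⟨(pv φ (Ideal.span {c₀}) : ℂ) * ((pv φ b : ℂ))⁻¹, fun c hbc x hx a hab s => ?_⟩
  obtain ⟨ha0, hac⟩ := hcop x hx a hab
  have hx0 := hne x hx
  have hc0 := hne c₀ hc₀XS
  have hxf : IsCoprime (Ideal.span {x}) f := by
    rw [← hab]
    exact hac.of_mul_right_right.mul_left hbf'
  have hxc : x - c₀ ∈ f := by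
    have h1 : x - c₀ ∈ Ideal.span {3} * f * b := hx
    exact Ideal.mul_le_right (Ideal.mul_le_left h1)
  have hpv : pv φ a * pv φ b = pv φ (Ideal.span {c₀}) := by
    rw [← pv_mul φ ha0 hb, hab]
    exact hφ.2 x c₀ hx0 hc0 hxf hxc
  have hpva : ((pv φ a : ℂˣ) : ℂ) = (pv φ (Ideal.span {c₀}) : ℂ) * ((pv φ b : ℂ))⁻¹ := by
    rw [← hpv, Units.val_mul, mul_assoc, mul_inv_cancel₀ (pv φ b).ne_zero, mul_one]
  -- norms
  have hNa : (0 : ℝ) < Ideal.absNorm a := by
    have : Ideal.absNorm a ≠ 0 := fun h => ha0 (Ideal.absNorm_eq_zero_iff.1 h)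
    exact_mod_cast Nat.pos_of_ne_zero this
  have hNb : (0 : ℝ) < Ideal.absNorm b := by
    have : Ideal.absNorm b ≠ 0 := fun h => hb (Ideal.absNorm_eq_zero_iff.1 h)
    exact_mod_cast Nat.pos_of_ne_zero this
  have hNab : (Ideal.absNorm a : ℝ) * Ideal.absNorm b = nn x ^ 2 := by
    unfold nn
    rw [← H55N.absNorm_span, ← hab, map_mul, Nat.cast_mul]
  have hnn0 : 0 ≤ nn x := norm_nonneg _
  have hpow : (Ideal.absNorm a : ℝ) ^ (-s) = (Ideal.absNorm b : ℝ) ^ s * nn x ^ (-2 * s) := by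
    have h1 : nn x ^ (-2 * s) = (nn x ^ 2) ^ (-s) := by
      rw [← Real.rpow_natCast, ← Real.rpow_mul hnn0]
      congr 1
      push_cast
      ring
    rw [h1, ← hNab, Real.mul_rpow hNa.le hNb.le, mul_comm ((Ideal.absNorm a : ℝ) ^ (-s)),
      ← mul_assoc, ← Real.rpow_add hNb, add_neg_cancel, Real.rpow_zero, one_mul]
  have htm : tm (tI (Ideal.span {3} * f) φ) s a = (pv φ (Ideal.span {c₀}) : ℂ) * ((pv φ b : ℂ))⁻¹ *
      (((Ideal.absNorm b : ℝ) ^ s : ℝ) : ℂ) * ((nn x ^ (-2 * s) : ℝ) : ℂ) := by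
    unfold tm
    rw [tI_apply _ φ ha0 hac, hpva]
    have h1 : (Ideal.absNorm a : ℂ) ^ (-(s : ℂ)) = (((Ideal.absNorm a : ℝ) ^ (-s) : ℝ) : ℂ) := by
      rw [Complex.ofReal_cpow hNa.le]
      push_cast
      rfl
    rw [h1, hpow]
    push_cast
    ring
  have hwt : wt c.asIdeal x = if a ≤ c.asIdeal then 1 - (Ideal.absNorm c.asIdeal : ℂ) else 1 := by
    unfold wt
    have h1 : x ∈ c.asIdeal ↔ a ≤ c.asIdeal := by
      constructor
      · intro h
        have h2 : a * b ≤ c.asIdeal := by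
          rw [hab, Ideal.span_singleton_le_iff_mem]
          exact h
        rcases c.isPrime.mul_le.1 h2 with h3 | h3
        · exact h3
        · exfalso
          rw [Ideal.isCoprime_iff_sup_eq, sup_eq_right.2 h3] at hbc
          exact c.isPrime.ne_top hbc
      · intro h
        have h2 : x ∈ a * b := by
          rw [hab]
          exact Ideal.mem_span_singleton_self x
        exact h (Ideal.mul_le_left h2)
    simp only [h1]
  rw [htm, hwt]
  ring

end H55R
end

-- from Lib.H55R.D8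
section

open NumberField IsDedekindDomain

namespace H55R

open H55B H55N

theorem D8_cop {K : Type} [Field K] [NumberField K] (f : Ideal (𝓞 K)) (a : Ideal (𝓞 K))
    (ha : a ≠ ⊥) (hf : IsCoprime a f)
    (h : ∀ v : Pl K, (3 : 𝓞 K) ∈ v.asIdeal → ¬ f ≤ v.asIdeal → ¬ a ≤ v.asIdeal) :
    IsCoprime a (Ideal.span {3} * f) := by
  refine IsCoprime.mul_right ?_ hf
  rw [Ideal.isCoprime_iff_sup_eq]
  by_contra hne
  obtain ⟨M, hM, hle⟩ := Ideal.exists_le_maximal _ hne
  have haM : a ≤ M := le_sup_left.trans hle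
  have hM0 : M ≠ ⊥ := by
    rintro rfl
    exact ha (le_bot_iff.1 haM)
  refine h ⟨M, hM.isPrime, hM0⟩ ?_ ?_ haM
  · exact (le_sup_right.trans hle) (Ideal.mem_span_singleton_self _)
  · intro hfM
    rw [Ideal.isCoprime_iff_sup_eq] at hf
    exact hM.ne_top (top_le_iff.1 (hf ▸ sup_le haM hfM))

/-- Chunk RD8 (S/M), removing finitely many Euler factors. S = the finite set of primes v with 3 in v and not f <= v. For an ideal a, a is coprime to (3) f iff it is coprime to f and a is not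
contained in any v in S. smooth_sum (index type S, c v = v.asIdeal, p = 1, k = tmH (tI f phi) s): the sum over a of tm (tI f phi) s a * prod over S (if a <= v then 0 else 1), which is
tm (tI (3f) phi) s a, equals (prod over S of (1 - k v)) * Ls (tI f phi) s. Since |k v| <= 1/2 (dd_norm_tm, dd_norm_tI, dd_half), |1 - k v| >= 1/2, so C = 2^(card S). -/
theorem change_mod {K : Type} [Field K] [NumberField K] (f : Ideal (𝓞 K)) (hf : f ≠ ⊥)
    (φ : Pl K → ℂˣ) (hφ : ∀ v, ‖(φ v : ℂ)‖ = 1) :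
    ∃ C : ℝ, 0 < C ∧ ∀ s ∈ Set.Ioc (1 : ℝ) 2,
      ‖Ls (tI f φ) s‖ ≤ C * ‖Ls (tI (Ideal.span {3} * f) φ) s‖ := by
  classical
  have h3 : Ideal.span {(3 : 𝓞 K)} ≠ 0 := by
    intro h
    have h3 : ((3 : ℕ) : 𝓞 K) ≠ 0 := Nat.cast_ne_zero.2 (by decide)
    apply h3
    rw [Nat.cast_ofNat]
    exact Ideal.span_singleton_eq_bot.1 h
  have hfin : {v : Pl K | (3 : 𝓞 K) ∈ v.asIdeal ∧ ¬ f ≤ v.asIdeal}.Finite := by
    refine (Ideal.finite_factors h3).subset fun v hv => ?_
    show v.asIdeal ∣ Ideal.span {(3 : 𝓞 K)}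
    rw [Ideal.dvd_iff_le, Ideal.span_singleton_le_iff_mem]
    exact hv.1
  set S : Finset (Pl K) := hfin.toFinset with hS
  have hmemS : ∀ v, v ∈ S ↔ (3 : 𝓞 K) ∈ v.asIdeal ∧ ¬ f ≤ v.asIdeal := by
    intro v
    rw [hS, Set.Finite.mem_toFinset]
    rfl
  refine ⟨2 ^ S.card, by positivity, fun s hs => ?_⟩
  set k := tmH (tI f φ) (s : ℂ) with hk
  have hk1 : ∀ a, k a = tm (tI f φ) s a := fun a => rfl
  have hksum : Summable fun a => ‖k a‖ := dd_tm_summable _ (dd_norm_tI f φ hφ) s hs.1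
  have h1 := smooth_sum k hksum (fun v : S => v.1.asIdeal) (fun v => v.1.isPrime)
    (fun v => v.1.ne_bot) (fun v w h => Subtype.ext (dd_inj h)) (fun _ => 1)
  have h2 : ∀ a, k a * ∏ v : S, (if a ≤ v.1.asIdeal then 1 - (1 : ℂ) else 1) =
      tm (tI (Ideal.span {3} * f) φ) s a := by
    intro a
    by_cases ha : a = ⊥
    · have e1 : k a = 0 := by
        rw [ha]
        exact map_zero k
      have e2 : tI (Ideal.span {3} * f) φ a = 0 := by
        rw [ha]
        exact map_zero _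
      unfold tm
      rw [e1, e2, zero_mul, zero_mul]
    by_cases hf' : IsCoprime a f
    · by_cases hv : ∀ v : Pl K, (3 : 𝓞 K) ∈ v.asIdeal → ¬ f ≤ v.asIdeal → ¬ a ≤ v.asIdeal
      · have hc := D8_cop f a ha hf' hv
        have e1 : ∏ v : S, (if a ≤ v.1.asIdeal then 1 - (1 : ℂ) else 1) = 1 := by
          refine Finset.prod_eq_one fun v _ => ?_
          rw [if_neg]
          exact hv v.1 ((hmemS v.1).1 v.2).1 ((hmemS v.1).1 v.2).2
        rw [e1, mul_one, hk1]
        unfold tm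
        rw [tI_apply f φ ha hf', tI_apply _ φ ha hc]
      · push Not at hv
        obtain ⟨v, hv3, hvf, hav⟩ := hv
        have e1 : ∏ v : S, (if a ≤ v.1.asIdeal then 1 - (1 : ℂ) else 1) = 0 := by
          refine Finset.prod_eq_zero (Finset.mem_univ (⟨v, (hmemS v).2 ⟨hv3, hvf⟩⟩ : S)) ?_
          rw [if_pos hav, sub_self]
        have e2 : ¬ IsCoprime a (Ideal.span {3} * f) := by
          intro hc
          have hc' := hc.of_mul_right_left
          rw [Ideal.isCoprime_iff_sup_eq] at hc'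
          apply v.isPrime.ne_top
          rw [← top_le_iff, ← hc']
          exact sup_le hav ((Ideal.span_singleton_le_iff_mem _).2 hv3)
        rw [e1, mul_zero]
        unfold tm
        rw [tI_zero _ φ e2, zero_mul]
    · have e2 : ¬ IsCoprime a (Ideal.span {3} * f) := fun hc => hf' hc.of_mul_right_right
      rw [hk1]
      unfold tm
      rw [tI_zero f φ hf', tI_zero _ φ e2, zero_mul, zero_mul]
  have h4 : Ls (tI (Ideal.span {3} * f) φ) s =
      (∏ v : S, (1 - 1 * k v.1.asIdeal)) * Ls (tI f φ) s := by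
    unfold Ls
    rw [← tsum_congr h2]
    exact h1.tsum_eq
  have h5 : ∀ v : S, (1 / 2 : ℝ) ≤ ‖1 - 1 * k v.1.asIdeal‖ := by
    intro v
    have h6 : ‖k v.1.asIdeal‖ ≤ 1 / 2 := by
      rw [hk1, dd_norm_tm _ s (by linarith [hs.1]) _]
      calc ‖tI f φ v.1.asIdeal‖ * (Ideal.absNorm v.1.asIdeal : ℝ) ^ (-s)
          ≤ (Ideal.absNorm v.1.asIdeal : ℝ) ^ (-s) :=
            mul_le_of_le_one_left (by positivity) (dd_norm_tI f φ hφ _)
        _ ≤ 1 / 2 := dd_half v.1 s hs.1.le
    have h7 := norm_sub_norm_le (1 : ℂ) (1 * k v.1.asIdeal)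
    rw [one_mul] at h7 ⊢
    rw [NormOneClass.norm_one] at h7
    linarith
  have h8 : (1 / 2 : ℝ) ^ S.card ≤ ‖∏ v : S, (1 - 1 * k v.1.asIdeal)‖ := by
    rw [norm_prod]
    calc (1 / 2 : ℝ) ^ S.card = ∏ _v : S, (1 / 2 : ℝ) := by
          rw [Finset.prod_const, Finset.card_univ, Fintype.card_coe]
      _ ≤ _ := Finset.prod_le_prod (fun _ _ => by norm_num) fun v _ => h5 v
  rw [h4, norm_mul]
  have h9 : (2 : ℝ) ^ S.card * (1 / 2) ^ S.card = 1 := by
    rw [← mul_pow]
    norm_num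
  calc ‖Ls (tI f φ) s‖ = 2 ^ S.card * ((1 / 2) ^ S.card * ‖Ls (tI f φ) s‖) := by
        rw [← mul_assoc, h9, one_mul]
    _ ≤ _ := by
        gcongr

end H55R
end

-- from Lib.H55R.D1
section

open NumberField IsDedekindDomain

namespace H55R

open H55B H55N

theorem RD1_le {K : Type} [Field K] [NumberField K] (h : Ideal (𝓞 K) →*₀ ℂ)
    (hh : ∀ a, ‖h a‖ ≤ 1) (s : ℝ) (hs : 1 < s) (v : Pl K) : ‖tm h s v.asIdeal‖ ≤ 1 / 2 := by
  rw [dd_norm_tm h s (by linarith)]
  calc ‖h v.asIdeal‖ * (Ideal.absNorm v.asIdeal : ℝ) ^ (-s) ≤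
      1 * (Ideal.absNorm v.asIdeal : ℝ) ^ (-s) := by
        gcongr
        exact hh _
    _ ≤ 1 / 2 := by
        rw [one_mul]
        exact dd_half v s hs.le

theorem RD1_ne {K : Type} [Field K] [NumberField K] (h : Ideal (𝓞 K) →*₀ ℂ)
    (hh : ∀ a, ‖h a‖ ≤ 1) (s : ℝ) (hs : 1 < s) (v : Pl K) : 1 - tm h s v.asIdeal ≠ 0 := by
  intro h0
  have h1 := RD1_le h hh s hs v
  rw [← sub_eq_zero.1 h0, NormOneClass.norm_one] at h1
  norm_num at h1

open Filter Topology Classical in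
theorem RD1_lim {K : Type} [Field K] [NumberField K] (h : Ideal (𝓞 K) →*₀ ℂ)
    (hh : ∀ a, ‖h a‖ ≤ 1) (s : ℝ) (hs : 1 < s) :
    Tendsto (fun S : Finset (Pl K) => (∏ v ∈ S, (1 - tm h s v.asIdeal)) * Ls h s) atTop (𝓝 1) := by
  set k : Ideal (𝓞 K) →*₀ ℂ := tmH h s with hk
  have hkv : ∀ a, k a = tm h s a := fun _ => rfl
  have hsum : Summable fun a => ‖k a‖ := dd_tm_summable h hh s hs
  have h1 : ∀ S : Finset (Pl K), ∑' a, k a * ∏ v ∈ S, (if a ≤ v.asIdeal then (1 : ℂ) - 1 else 1) =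
      (∏ v ∈ S, (1 - tm h s v.asIdeal)) * Ls h s := by
    intro S
    have h2 := H4_aux k hsum (fun v : Pl K => v.asIdeal) (fun v => v.isPrime) (fun v => v.ne_bot)
      dd_inj (fun _ => 1) S
    rw [h2.tsum_eq]
    simp only [one_mul]
    rfl
  have h3 : Tendsto (fun S : Finset (Pl K) =>
      ∑' a, k a * ∏ v ∈ S, (if a ≤ v.asIdeal then (1 : ℂ) - 1 else 1)) atTop
      (𝓝 (∑' a : Ideal (𝓞 K), if a = 1 then (1 : ℂ) else 0)) := by
    refine tendsto_tsum_of_dominated_convergence hsum ?_ ?_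
    · intro a
      by_cases ha : a = 1
      · subst ha
        rw [if_pos rfl]
        refine tendsto_const_nhds.congr fun S => ?_
        rw [map_one, one_mul]
        refine (Finset.prod_eq_one fun v _ => ?_).symm
        rw [if_neg]
        intro h4
        rw [Ideal.one_eq_top, top_le_iff] at h4
        exact v.isPrime.ne_top h4
      · rw [if_neg ha]
        by_cases ha0 : a = ⊥
        · refine tendsto_const_nhds.congr fun S => ?_
          have h5 : k a = 0 := by
            rw [ha0]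
            exact map_zero k
          rw [h5, zero_mul]
        · have h6 : a ≠ ⊤ := by
            rw [← Ideal.one_eq_top]
            exact ha
          obtain ⟨m, hm, ham⟩ := Ideal.exists_le_maximal a h6
          have hm0 : m ≠ ⊥ := by
            rintro rfl
            exact ha0 (le_bot_iff.1 ham)
          refine tendsto_const_nhds.congr' ?_
          filter_upwards [eventually_ge_atTop {(⟨m, hm.isPrime, hm0⟩ : Pl K)}] with S hS
          have h7 : (⟨m, hm.isPrime, hm0⟩ : Pl K) ∈ S := hS (Finset.mem_singleton_self _)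
          rw [Finset.prod_eq_zero h7, mul_zero]
          rw [if_pos ham, sub_self]
    · refine Eventually.of_forall fun S a => ?_
      rw [norm_mul, norm_prod]
      refine mul_le_of_le_one_right (norm_nonneg _) ?_
      refine Finset.prod_le_one (fun _ _ => norm_nonneg _) fun v _ => ?_
      split_ifs
      · rw [sub_self, norm_zero]
        exact zero_le_one
      · rw [NormOneClass.norm_one]
  rw [tsum_ite_eq] at h3
  exact h3.congr h1

/-- Chunk RD1 (M), the Euler product. k = tmH h s (multiplicative, norm summable: dd_tm_summable). For a finset S of primes, H4_aux (or smooth_sum) with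
index type Pl K, c v = v.asIdeal, p = 1 gives: the sum over a of k a * prod over v in S of (if a <= v then 0 else 1) is (prod over S of (1 - k v)) * L. When
S runs over the finsets (atTop) the left side tends to k 1 = 1: tendsto_tsum_of_dominated_convergence with the bound |k a|; for a = 1 = top all factors are
1 (a prime is not top); for a = bot k a = 0; any other a is contained in a maximal ideal v (Ideal.exists_le_maximal), nonzero since a <> bot, so the term is 0 as soon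
as v is in S (Filter.eventually_ge_atTop {v}). So (prod over S of (1 - k v)) * L tends to 1; hence L <> 0 and |prod over S of (1 - k v)| tends to 1 / |L| and
the sum over S of -log |1 - k v| = -log |prod| tends to log |L| (Real.log_prod needs 1 - k v <> 0: |k v| <= 1/2 by dd_norm_tm, dd_half; continuity of log at
1/|L| > 0). HasSum is the convergence along the finsets. -/
theorem euler {K : Type} [Field K] [NumberField K] (h : Ideal (𝓞 K) →*₀ ℂ)
    (hh : ∀ a, ‖h a‖ ≤ 1) (s : ℝ) (hs : 1 < s) :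
    Ls h s ≠ 0 ∧
      HasSum (fun v : Pl K => -Real.log ‖1 - tm h s v.asIdeal‖) (Real.log ‖Ls h s‖) := by
  have h1 := RD1_lim h hh s hs
  have hL : Ls h s ≠ 0 := by
    intro h0
    rw [h0] at h1
    simp only [mul_zero] at h1
    exact zero_ne_one (tendsto_nhds_unique tendsto_const_nhds h1)
  refine ⟨hL, ?_⟩
  have h2 : Filter.Tendsto (fun S : Finset (Pl K) => ∏ v ∈ S, (1 - tm h s v.asIdeal))
      Filter.atTop (nhds (Ls h s)⁻¹) := by
    have h3 := h1.mul_const (Ls h s)⁻¹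
    rw [one_mul] at h3
    refine h3.congr fun S => ?_
    rw [mul_assoc, mul_inv_cancel₀ hL, mul_one]
  have h4 := (h2.norm.log (norm_ne_zero_iff.2 (inv_ne_zero hL))).neg
  rw [norm_inv, Real.log_inv, neg_neg] at h4
  unfold HasSum
  rw [SummationFilter.unconditional_filter]
  refine h4.congr fun S => ?_
  rw [norm_prod, Real.log_prod fun v _ => norm_ne_zero_iff.2 (RD1_ne h hh s hs v),
    Finset.sum_neg_distrib]

end H55R
end

-- from Lib.H55R.D2
section

open NumberField IsDedekindDomain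

namespace H55R

open H55B H55N

theorem RD2_re {K : Type} [Field K] [NumberField K] (h : Ideal (𝓞 K) →*₀ ℂ) (s : ℝ)
    (a : Ideal (𝓞 K)) : (tm h s a).re = (h a).re * (Ideal.absNorm a : ℝ) ^ (-s) := by
  unfold tm
  have h1 : ((Ideal.absNorm a : ℂ) ^ (-(s : ℂ))) = (((Ideal.absNorm a : ℝ) ^ (-s) : ℝ) : ℂ) := by
    rw [Complex.ofReal_cpow (Nat.cast_nonneg _)]
    push_cast
    rfl
  rw [h1, Complex.re_mul_ofReal]

theorem RD2_term {K : Type} [Field K] [NumberField K] (h : Ideal (𝓞 K) →*₀ ℂ)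
    (hh : ∀ a, ‖h a‖ ≤ 1) (s : ℝ) (hs : 1 < s) (v : Pl K) :
    |(h v.asIdeal).re * (Ideal.absNorm v.asIdeal : ℝ) ^ (-s) -
      (-Real.log ‖1 - tm h s v.asIdeal‖)| ≤ (Ideal.absNorm v.asIdeal : ℝ) ^ (-2 : ℝ) := by
  have h0 := RD1_le h hh s hs v
  set z := tm h s v.asIdeal with hz
  have h1 : ‖Complex.log (1 + -z) - -z‖ ≤ ‖z‖ ^ 2 := by
    have h2 := Complex.norm_log_one_add_sub_self_le (z := -z) (by rw [norm_neg]; linarith)
    rw [norm_neg] at h2
    refine h2.trans ?_
    have h3 : (1 - ‖z‖)⁻¹ ≤ 2 := by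
      rw [inv_le_comm₀ (by linarith) (by norm_num)]
      linarith
    have h4 : 0 ≤ ‖z‖ ^ 2 := sq_nonneg _
    nlinarith
  have h5 : (h v.asIdeal).re * (Ideal.absNorm v.asIdeal : ℝ) ^ (-s) -
      (-Real.log ‖1 - z‖) = (Complex.log (1 + -z) - -z).re := by
    rw [← RD2_re, Complex.sub_re, Complex.log_re, ← sub_eq_add_neg, Complex.neg_re]
    ring
  rw [h5]
  refine (Complex.abs_re_le_norm _).trans (h1.trans ?_)
  have h6 : (0 : ℝ) ≤ (Ideal.absNorm v.asIdeal : ℝ) := Nat.cast_nonneg _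
  have h2 : (2 : ℝ) ≤ (Ideal.absNorm v.asIdeal : ℝ) := by exact_mod_cast dd_two_le v
  have h7 : ‖z‖ ≤ (Ideal.absNorm v.asIdeal : ℝ) ^ (-s) := by
    rw [hz, dd_norm_tm h s (by linarith)]
    exact mul_le_of_le_one_left (by positivity) (hh _)
  calc ‖z‖ ^ 2 ≤ ((Ideal.absNorm v.asIdeal : ℝ) ^ (-s)) ^ 2 :=
        pow_le_pow_left₀ (norm_nonneg _) h7 2
    _ = (Ideal.absNorm v.asIdeal : ℝ) ^ (-s * 2) := by
        rw [Real.rpow_mul h6]
        norm_num
    _ ≤ (Ideal.absNorm v.asIdeal : ℝ) ^ (-2 : ℝ) :=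
        Real.rpow_le_rpow_of_exponent_le (by linarith) (by linarith)

/-- Chunk RD2 (S), logarithms. With z = tm h s v, |z| <= Nv^(-s) <= 1/2 (dd_norm_tm, dd_half): |-log |1 - z| - Re z| <= |log(1 - z) + z| <= |z|^2
(real part of the complex logarithm, Complex.log_re; Complex.norm_log_one_add_sub_self_le with z replaced by -z) and |z|^2 <= Nv^(-2s) <= Nv^(-2).
Re z = Re (h v) * Nv^(-s) (the power is a positive real number). Sum over v: euler, dd_summable; C is the sum of Nv^(-2) (tsum of a difference,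
norm of a tsum <= tsum of the bounds). Both series converge: Re (h v) Nv^(-s) is bounded by Nv^(-s). -/
theorem log_cmp (K : Type) [Field K] [NumberField K] : ∃ C : ℝ, ∀ h : Ideal (𝓞 K) →*₀ ℂ,
    (∀ a, ‖h a‖ ≤ 1) → ∀ s ∈ Set.Ioc (1 : ℝ) 2,
      |∑' v : Pl K, (h v.asIdeal).re * (Ideal.absNorm v.asIdeal : ℝ) ^ (-s) -
        Real.log ‖Ls h s‖| ≤ C := by
  refine ⟨∑' v : Pl K, (Ideal.absNorm v.asIdeal : ℝ) ^ (-2 : ℝ), fun h hh s hs => ?_⟩
  have h2 : Summable fun v : Pl K => (Ideal.absNorm v.asIdeal : ℝ) ^ (-2 : ℝ) :=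
    dd_summable 2 (by norm_num)
  have h3 := (euler h hh s hs.1).2
  have h4 : Summable fun v : Pl K => (h v.asIdeal).re * (Ideal.absNorm v.asIdeal : ℝ) ^ (-s) := by
    refine Summable.of_norm_bounded (dd_summable (K := K) s hs.1) fun v => ?_
    rw [norm_mul, Real.norm_eq_abs, Real.norm_of_nonneg (by positivity)]
    exact mul_le_of_le_one_left (by positivity) ((Complex.abs_re_le_norm _).trans (hh _))
  rw [← h3.tsum_eq, ← h4.tsum_sub h3.summable, ← Real.norm_eq_abs]
  exact tsum_of_norm_bounded h2.hasSum fun v => RD2_term h hh s hs.1 v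

end H55R
end

-- from Lib.H55R.D3
section

open NumberField IsDedekindDomain

namespace H55R

open H55B H55N

theorem RD3_zeta {K : Type} [Field K] [NumberField K] (s : ℝ) (hs : 1 < s) :
    dedekindZeta K s = ((∑' a : Ideal (𝓞 K), (Ideal.absNorm a : ℝ) ^ (-s) : ℝ) : ℂ) := by
  have h0 := ideal_summable (K := K) s hs
  have h1 : HasSum (fun p : Σ n : ℕ, {a : Ideal (𝓞 K) // Ideal.absNorm a = n} =>
      (((Ideal.absNorm p.2.1 : ℝ) ^ (-s) : ℝ) : ℂ))
      ((∑' a : Ideal (𝓞 K), (Ideal.absNorm a : ℝ) ^ (-s) : ℝ) : ℂ) := by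
    have h2 := (Equiv.sigmaFiberEquiv (fun a : Ideal (𝓞 K) => Ideal.absNorm a)).hasSum_iff
      (f := fun a : Ideal (𝓞 K) => (((Ideal.absNorm a : ℝ) ^ (-s) : ℝ) : ℂ))
      (a := ((∑' a : Ideal (𝓞 K), (Ideal.absNorm a : ℝ) ^ (-s) : ℝ) : ℂ))
    exact h2.2 (Complex.hasSum_ofReal.2 h0.hasSum)
  have h2 : HasSum (LSeries.term (fun n => (Nat.card {I : Ideal (𝓞 K) // Ideal.absNorm I = n} : ℂ)) s)
      ((∑' a : Ideal (𝓞 K), (Ideal.absNorm a : ℝ) ^ (-s) : ℝ) : ℂ) := by
    refine h1.sigma fun n => ?_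
    have hfin : Finite {a : Ideal (𝓞 K) // Ideal.absNorm a = n} :=
      Ideal.finite_setOfPred_absNorm_eq n
    let _ : Fintype {a : Ideal (𝓞 K) // Ideal.absNorm a = n} := Fintype.ofFinite _
    have h3 : LSeries.term (fun n => (Nat.card {I : Ideal (𝓞 K) // Ideal.absNorm I = n} : ℂ)) s n =
        ∑ a : {a : Ideal (𝓞 K) // Ideal.absNorm a = n},
          (((Ideal.absNorm a.1 : ℝ) ^ (-s) : ℝ) : ℂ) := by
      rw [Finset.sum_congr rfl (g := fun _ => (((n : ℝ) ^ (-s) : ℝ) : ℂ))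
        (fun a _ => by rw [a.2]), Finset.sum_const, Finset.card_univ, ← Nat.card_eq_fintype_card,
        nsmul_eq_mul]
      rcases Nat.eq_zero_or_pos n with rfl | hn
      · rw [LSeries.term_zero, Nat.cast_zero, Real.zero_rpow (by linarith), Complex.ofReal_zero,
          mul_zero]
      · rw [LSeries.term_of_ne_zero (by omega), div_eq_mul_inv, ← Complex.cpow_neg,
          Complex.ofReal_cpow (Nat.cast_nonneg _)]
        push_cast
        rfl
    rw [h3]
    exact hasSum_fintype _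
  exact h2.tsum_eq

theorem RD3_one {K : Type} [Field K] [NumberField K] (s : ℝ) (hs : 1 < s) :
    1 ≤ ∑' a : Ideal (𝓞 K), (Ideal.absNorm a : ℝ) ^ (-s) := by
  have h1 := (ideal_summable (K := K) s hs).le_tsum (1 : Ideal (𝓞 K)) fun _ _ => by positivity
  rw [map_one, Nat.cast_one, Real.one_rpow] at h1
  exact h1

theorem RD3_anti {K : Type} [Field K] [NumberField K] {s t : ℝ} (hs : 1 < s) (hst : s ≤ t) :
    ∑' a : Ideal (𝓞 K), (Ideal.absNorm a : ℝ) ^ (-t) ≤
      ∑' a : Ideal (𝓞 K), (Ideal.absNorm a : ℝ) ^ (-s) := by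
  refine Summable.tsum_le_tsum (fun a => ?_) (ideal_summable (K := K) t (by linarith))
    (ideal_summable (K := K) s hs)
  rcases Nat.eq_zero_or_pos (Ideal.absNorm a) with h0 | h0
  · rw [h0, Nat.cast_zero, Real.zero_rpow (by linarith), Real.zero_rpow (by linarith)]
  · have h1 : (1 : ℝ) ≤ (Ideal.absNorm a : ℝ) := by exact_mod_cast h0
    exact Real.rpow_le_rpow_of_exponent_le h1 (by linarith)

open Filter Topology in
theorem RD3_bd (K : Type) [Field K] [NumberField K] : ∃ A B : ℝ, 0 < A ∧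
    ∀ s ∈ Set.Ioc (1 : ℝ) 2,
      A ≤ (s - 1) * ∑' a : Ideal (𝓞 K), (Ideal.absNorm a : ℝ) ^ (-s) ∧
      (s - 1) * ∑' a : Ideal (𝓞 K), (Ideal.absNorm a : ℝ) ^ (-s) ≤ B := by
  have hκ := dedekindZeta_residue_pos K
  set κ := dedekindZeta_residue K with hk
  have h1 : Tendsto (fun s : ℝ => (s - 1) * ∑' a : Ideal (𝓞 K), (Ideal.absNorm a : ℝ) ^ (-s))
      (𝓝[>] 1) (𝓝 κ) := by
    have h2 := (Complex.continuous_re.tendsto _).comp (tendsto_sub_one_mul_dedekindZeta_nhdsGT K)
    rw [Complex.ofReal_re] at h2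
    refine h2.congr' ?_
    filter_upwards [self_mem_nhdsWithin] with s hs
    show ((s - 1 : ℂ) * dedekindZeta K s).re = _
    rw [RD3_zeta s hs]
    rw [show ((s : ℂ) - 1) = ((s - 1 : ℝ) : ℂ) by push_cast; rfl, ← Complex.ofReal_mul,
      Complex.ofReal_re]
  have h3 : ∀ᶠ s in 𝓝[>] (1 : ℝ),
      (s - 1) * ∑' a : Ideal (𝓞 K), (Ideal.absNorm a : ℝ) ^ (-s) ∈ Set.Icc (κ / 2) (2 * κ) :=
    h1 (Icc_mem_nhds (by linarith) (by linarith))
  obtain ⟨u, hu, hu2⟩ := (mem_nhdsGT_iff_exists_Ioo_subset).1 h3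
  have hu1 : (1 : ℝ) < u := hu
  obtain ⟨d, hd⟩ : ∃ d, d = min ((u - 1) / 2) 1 := ⟨_, rfl⟩
  have hd0 : 0 < d := by rw [hd]; exact lt_min (by linarith) one_pos
  have hdu : d < u - 1 := by rw [hd]; exact (min_le_left _ _).trans_lt (by linarith)
  refine ⟨min (κ / 2) d, max (2 * κ)
    (∑' a : Ideal (𝓞 K), (Ideal.absNorm a : ℝ) ^ (-(1 + d))), lt_min (by linarith) hd0,
    fun s hs => ?_⟩
  have hs1 : 1 < s := hs.1
  have hs2 : s ≤ 2 := hs.2
  by_cases hsd : s < 1 + d
  · have h4 : s ∈ Set.Ioo 1 u := ⟨hs1, by linarith⟩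
    have h5 := hu2 h4
    exact ⟨(min_le_left _ _).trans h5.1, h5.2.trans (le_max_left _ _)⟩
  · push Not at hsd
    have h6 := RD3_one (K := K) s hs1
    have h7 := RD3_anti (K := K) (s := 1 + d) (t := s) (by linarith) hsd
    constructor
    · refine (min_le_right _ _).trans ?_
      nlinarith
    · refine le_trans ?_ (le_max_right _ _)
      nlinarith

/-- Chunk RD3 (M), the pole of the zeta function. Z s = sum over the ideals of Na^(-s) (the zero ideal contributes 0). For s > 1, Z s (as a complex number) is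
dedekindZeta K s, the L-series of the numbers of ideals of norm n (sum over the fibres of the norm; see the proof of ideal_summable in H55N/H3.lean, or AI_LSeries
in H55N/H6.lean for the pattern), and (s - 1) * dedekindZeta K s tends to the residue, which is positive (NumberField.tendsto_sub_one_mul_dedekindZeta_nhdsGT,
NumberField.dedekindZeta_residue_pos). Z is antitone on s > 1 (each term is, Na >= 1 or Na = 0; Summable.tsum_le_tsum) and Z s >= 1 (the term of the unit ideal). Near 1: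
there is d in (0,1) with residue/2 <= (s-1) Z s <= 2 residue for s in (1, 1 + d); for s in [1 + d, 2]: d * 1 <= (s - 1) Z s <= Z (1 + d). So
(s - 1) Z s lies in a fixed interval [A, B], 0 < A, and log Z s - log (1/(s-1)) = log ((s - 1) Z s) lies in [log A, log B]. -/
theorem zeta_log (K : Type) [Field K] [NumberField K] : ∃ C : ℝ, ∀ s ∈ Set.Ioc (1 : ℝ) 2,
    0 < ∑' a : Ideal (𝓞 K), (Ideal.absNorm a : ℝ) ^ (-s) ∧
    |Real.log (∑' a : Ideal (𝓞 K), (Ideal.absNorm a : ℝ) ^ (-s)) - Real.log (1 / (s - 1))| ≤ C := by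
  obtain ⟨A, B, hA, hAB⟩ := RD3_bd K
  refine ⟨|Real.log A| + |Real.log B|, fun s hs => ?_⟩
  have h1 := RD3_one (K := K) s hs.1
  have hs1 : 0 < s - 1 := sub_pos.2 hs.1
  refine ⟨by linarith, ?_⟩
  obtain ⟨h2, h3⟩ := hAB s hs
  rw [one_div, Real.log_inv, sub_neg_eq_add, add_comm, ← Real.log_mul hs1.ne' (by linarith)]
  have h4 := Real.log_le_log hA h2
  have h5 := Real.log_le_log (hA.trans_le h2) h3
  rw [abs_le]
  constructor
  · linarith [neg_abs_le (Real.log A), abs_nonneg (Real.log B)]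
  · linarith [le_abs_self (Real.log B), abs_nonneg (Real.log A)]

end H55R
end

-- from Lib.H55R.D7
section

open NumberField IsDedekindDomain

namespace H55R

open H55B H55N

/-- Chunk RD7 (M), a prime with nontrivial value outside a given modulus. Suppose that phi c = 1 for all primes c with not f <= c, not g <= c (for f <= c we have phi c = 1 by the
definition of RC). Take v with phi v <> 1; then not f <= v. exists_mem_cop with J = v, g := f * g gives x <> 0 with (x) = v b, b coprime to f g, so pv phi b = 1 (dd_pv_eq_one) and pv phi (x) =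
phi v (pv_mul, pv_prime). Let g' be the product of the primes w with g <= w, not f <= w (a finite set because g <> bot: Ideal.finite_factors); g' is coprime to f. By the Chinese
remainder theorem there is y with y - x in f and y - 1 in g' (write 1 = p + q, p in f, q in g', y = x q + p). (x) is coprime to f (v and b are), so (y) is coprime to f; y is not in
any of the w dividing g'. We may also take y <> 0 (replace y by y + t with t <> 0 in f g' if y = 0, or show it: if y = 0 then x in f so f = top by coprimality, and 1 in g' so g' = top; in this case take y = 1). So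
every prime containing y contains neither f nor g, pv phi (y) = 1 (dd_pv_eq_one), but pv phi (x) = pv phi (y) (RC), so phi v = 1, a contradiction. -/
theorem exists_prime {K : Type} [Field K] [NumberField K] (f : Ideal (𝓞 K)) (hf : f ≠ ⊥)
    (φ : Pl K → ℂˣ) (hφ : φ ∈ RC f) (h1 : φ ≠ 1) (g : Ideal (𝓞 K)) (hg : g ≠ ⊥) :
    ∃ c : Pl K, ¬ f ≤ c.asIdeal ∧ ¬ g ≤ c.asIdeal ∧ φ c ≠ 1 := by
  classical
  by_contra hcon
  push Not at hcon
  obtain ⟨hφ1, hφ2⟩ := hφ
  obtain ⟨v, hv⟩ : ∃ v, φ v ≠ 1 := by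
    by_contra h
    push Not at h
    exact h1 (funext h)
  have hfv : ¬ f ≤ v.asIdeal := fun h => hv (hφ1 v h)
  have hgv : g ≤ v.asIdeal := by
    by_contra h
    exact hv (hcon v hfv h)
  obtain ⟨x, hxv, b, hx0, hxb, hcop⟩ := exists_mem_cop v.asIdeal (f * g) v.ne_bot
    (mul_ne_zero hf hg)
  have hbf : IsCoprime b f := hcop.of_mul_right_left
  have hbg : IsCoprime b g := hcop.of_mul_right_right
  have hnot : ∀ (I J : Ideal (𝓞 K)) (w : Pl K), IsCoprime I J → I ≤ w.asIdeal → ¬ J ≤ w.asIdeal := by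
    intro I J w hIJ hI hJ
    have h2 := Ideal.isCoprime_iff_sup_eq.1 hIJ
    exact w.isPrime.ne_top (top_le_iff.1 (h2 ▸ sup_le hI hJ))
  have hb0 : b ≠ ⊥ := by
    rintro rfl
    rw [Ideal.mul_bot, Ideal.span_singleton_eq_bot] at hxb
    exact hx0 hxb
  have hb : pv φ b = 1 := dd_pv_eq_one φ b fun w hw =>
    hcon w (hnot b f w hbf hw) (hnot b g w hbg hw)
  have hx : pv φ (Ideal.span {x}) = φ v := by
    rw [hxb, pv_mul φ v.ne_bot hb0, pv_prime, hb, mul_one]
  have hfin : {w : Pl K | g ≤ w.asIdeal ∧ ¬ f ≤ w.asIdeal}.Finite := by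
    refine (Ideal.finite_factors hg).subset ?_
    rintro w ⟨hw, -⟩
    exact Ideal.dvd_iff_le.2 hw
  have hmaxcop : ∀ w : Pl K, ¬ f ≤ w.asIdeal → IsCoprime f w.asIdeal := by
    intro w hw
    rw [Ideal.isCoprime_iff_sup_eq, sup_comm]
    have hm : w.asIdeal.IsMaximal := w.isPrime.isMaximal w.ne_bot
    exact hm.out.2 _ (left_lt_sup.2 hw)
  have hgcop : IsCoprime f (∏ w ∈ hfin.toFinset, w.asIdeal) := by
    refine IsCoprime.prod_right fun w hw => ?_
    exact hmaxcop w ((hfin.mem_toFinset.1 hw).2)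
  obtain ⟨p, hp, q, hq, hpq⟩ := Ideal.isCoprime_iff_exists.1 hgcop
  obtain ⟨y, hy⟩ : ∃ y, y = x * q + p := ⟨_, rfl⟩
  have hyx : x - y ∈ f := by
    have : x - y = (x - 1) * p := by
      rw [hy]
      linear_combination (-x) * hpq
    rw [this]
    exact Ideal.mul_mem_left _ _ hp
  have hy1 : ∀ w : Pl K, g ≤ w.asIdeal → ¬ f ≤ w.asIdeal → y ∉ w.asIdeal := by
    intro w hgw hfw hyw
    have hwm : w ∈ hfin.toFinset := hfin.mem_toFinset.2 ⟨hgw, hfw⟩
    have hqw : q ∈ w.asIdeal := by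
      have h3 : ∏ w ∈ hfin.toFinset, w.asIdeal ≤ w.asIdeal :=
        Ideal.dvd_iff_le.1 (Finset.dvd_prod_of_mem _ hwm)
      exact h3 hq
    have h4 : (1 : 𝓞 K) = y - (x - 1) * q := by
      rw [hy]
      linear_combination -hpq
    apply w.isPrime.ne_top
    rw [Ideal.eq_top_iff_one, h4]
    exact Ideal.sub_mem _ hyw (Ideal.mul_mem_left _ _ hqw)
  have hy0 : y ≠ 0 := by
    rintro h0
    apply hy1 v hgv hfv
    rw [h0]
    exact Ideal.zero_mem _
  have hxf : IsCoprime (Ideal.span {x}) f := by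
    rw [hxb]
    exact (hmaxcop v hfv).symm.mul_left hbf
  have h5 := hφ2 x y hx0 hy0 hxf hyx
  have h6 : pv φ (Ideal.span {y}) = 1 := by
    refine dd_pv_eq_one φ _ fun w hw => ?_
    have hyw : y ∈ w.asIdeal := hw (Ideal.mem_span_singleton_self y)
    by_cases hfw : f ≤ w.asIdeal
    · exact hφ1 w hfw
    · by_cases hgw : g ≤ w.asIdeal
      · exact absurd hyw (hy1 w hgw hfw)
      · exact hcon w hfw hgw
  rw [hx, h6] at h5
  exact hv h5

end H55R
end

-- from Lib.H55R.D6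
section

open NumberField IsDedekindDomain

namespace H55R

open H55B H55N

theorem D6_cop {K : Type} [Field K] [NumberField K] (f : Ideal (𝓞 K)) (v : Pl K) :
    IsCoprime v.asIdeal f ↔ ¬ f ≤ v.asIdeal := by
  rw [Ideal.isCoprime_iff_sup_eq]
  constructor
  · intro h hf
    rw [sup_eq_left.2 hf] at h
    exact v.isPrime.ne_top h
  · intro h
    by_contra hne
    apply h
    have h1 := v.isMaximal.eq_of_le hne le_sup_left
    rw [h1]
    exact le_sup_right

theorem D6_sum {K : Type} [Field K] [NumberField K] (Y : Subgroup (Pl K → ℂˣ)) [Fintype Y]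
    (v : Pl K) (h : ¬ ∀ φ ∈ Y, φ v = 1) : ∑ φ : Y, ((φ : Pl K → ℂˣ) v : ℂ) = 0 := by
  push Not at h
  obtain ⟨ψ, hψ, hv⟩ := h
  have h1 : (ψ v : ℂ) * ∑ φ : Y, ((φ : Pl K → ℂˣ) v : ℂ) = ∑ φ : Y, ((φ : Pl K → ℂˣ) v : ℂ) := by
    rw [Finset.mul_sum]
    exact Fintype.sum_equiv (Equiv.mulLeft (⟨ψ, hψ⟩ : Y)) _ _ fun φ => rfl
  have h2 : ((ψ v : ℂ) - 1) * ∑ φ : Y, ((φ : Pl K → ℂˣ) v : ℂ) = 0 := by
    rw [sub_mul, h1, one_mul, sub_self]
  rcases mul_eq_zero.1 h2 with h3 | h3
  · exact absurd (Units.ext (sub_eq_zero.1 h3)) hv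
  · exact h3

open Classical in
theorem D6_point {K : Type} [Field K] [NumberField K] (f : Ideal (𝓞 K))
    (Y : Subgroup (Pl K → ℂˣ)) [Fintype Y] (v : Pl K) :
    ∑ φ : Y, (tI f (φ : Pl K → ℂˣ) v.asIdeal).re =
      if ¬ f ≤ v.asIdeal ∧ ∀ φ ∈ Y, φ v = 1 then (Nat.card Y : ℝ) else 0 := by
  by_cases hf : f ≤ v.asIdeal
  · rw [if_neg fun h => h.1 hf]
    refine Finset.sum_eq_zero fun φ _ => ?_
    rw [tI_zero f _ fun h => (D6_cop f v).1 h hf, Complex.zero_re]
  · have h1 : ∀ φ : Y, tI f (φ : Pl K → ℂˣ) v.asIdeal = ((φ : Pl K → ℂˣ) v : ℂ) := by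
      intro φ
      rw [tI_apply f _ v.ne_bot ((D6_cop f v).2 hf), pv_prime]
    simp only [h1]
    by_cases h : ∀ φ ∈ Y, φ v = 1
    · rw [if_pos ⟨hf, h⟩]
      have h2 : ∀ φ : Y, (((φ : Pl K → ℂˣ) v : ℂ)).re = 1 := by
        intro φ
        rw [h φ.1 φ.2, Units.val_one, Complex.one_re]
      rw [Finset.sum_congr rfl fun φ _ => h2 φ, Finset.sum_const, Finset.card_univ, nsmul_eq_mul,
        mul_one, Nat.card_eq_fintype_card]
    · rw [if_neg fun h' => h h'.2, ← Complex.re_sum, D6_sum Y v h, Complex.zero_re]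

/-- Chunk RD6 (S/M), orthogonality. For v with f <= v all tI f phi v = 0 (v is not coprime to f) and v is not in the set. For v not containing f, v and f are coprime, tI f phi v = phi v (tI_apply,
pv_prime), and the sum over phi in Y of phi v is card Y if phi v = 1 for all phi in Y, and 0 otherwise (multiply by psi v <> 1: reindex phi -> psi phi, Fintype.sum_equiv
Equiv.mulLeft). So the sum over phi of Re (tI f phi v) is card Y times the indicator function. Exchange the finite sum and the convergent series (Summable.tsum_finsetSum;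
each series is dominated by Nv^(-s), dd_summable, dd_norm_tI, dd_norm_Y). -/
theorem orth {K : Type} [Field K] [NumberField K] (f : Ideal (𝓞 K)) (Y : Subgroup (Pl K → ℂˣ))
    [Fintype Y] (s : ℝ) (hs : 1 < s) :
    (Nat.card Y : ℝ) * PS {v : Pl K | ¬ f ≤ v.asIdeal ∧ ∀ φ ∈ Y, φ v = 1} s =
      ∑ φ : Y, ∑' v : Pl K, (tI f (φ : Pl K → ℂˣ) v.asIdeal).re *
        (Ideal.absNorm v.asIdeal : ℝ) ^ (-s) := by
  classical
  have hsum : ∀ φ : Y, Summable fun v : Pl K => (tI f (φ : Pl K → ℂˣ) v.asIdeal).re *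
      (Ideal.absNorm v.asIdeal : ℝ) ^ (-s) := by
    intro φ
    refine Summable.of_norm_bounded (dd_summable (K := K) s hs) fun v => ?_
    rw [norm_mul, Real.norm_eq_abs, Real.norm_eq_abs]
    have h1 : |(tI f (φ : Pl K → ℂˣ) v.asIdeal).re| ≤ 1 :=
      (Complex.abs_re_le_norm _).trans (dd_norm_tI f _ (dd_norm_Y Y φ.1 φ.2) _)
    have h2 : |(Ideal.absNorm v.asIdeal : ℝ) ^ (-s)| = (Ideal.absNorm v.asIdeal : ℝ) ^ (-s) :=
      abs_of_nonneg (by positivity)
    rw [h2]
    exact mul_le_of_le_one_left (by positivity) h1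
  rw [← Summable.tsum_finsetSum fun φ _ => hsum φ]
  unfold PS
  rw [← tsum_mul_left]
  refine tsum_congr fun v => ?_
  rw [← Finset.sum_mul, D6_point f Y v]
  by_cases h : ¬ f ≤ v.asIdeal ∧ ∀ φ ∈ Y, φ v = 1
  · rw [if_pos h, Set.indicator_of_mem (by exact h)]
  · rw [if_neg h, Set.indicator_of_notMem (by exact h), mul_zero, zero_mul]

end H55R
end

-- from Lib.H55R.D5
section

open NumberField IsDedekindDomain

namespace H55R

open H55B H55N

section

variable {K L : Type} [Field K] [NumberField K] [Field L] [NumberField L] [Algebra K L]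
  [IsGalois K L]

theorem D5_norm (v : Pl K) (W : Pl L) (h : W.under (𝓞 K) = v) :
    Ideal.absNorm W.asIdeal = Ideal.absNorm v.asIdeal ^ fs K L v := by
  have hp := v.isPrime
  have hW := W.isPrime
  have hvm := v.isMaximal
  have hWm := W.isMaximal
  have hl : W.asIdeal.LiesOver v.asIdeal := (BF2_mem v W h).2
  have h1 := Ideal.absNorm_relNorm (𝓞 K) (𝓞 L) W.asIdeal
  rw [← h1, Ideal.relNorm_eq_pow_of_isMaximal W.asIdeal v.asIdeal, map_pow]
  congr 1
  exact (Ideal.inertiaDegIn_eq_inertiaDeg v.asIdeal W.asIdeal Gal(L/K)).symm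

/-- The primes above v. -/
noncomputable def D5_T (v : Pl K) : Finset (Pl L) := (above_finite (L := L) v).toFinset

omit [IsGalois K L] in
theorem D5_mem (v : Pl K) (W : Pl L) : W ∈ D5_T v ↔ W.under (𝓞 K) = v := by
  unfold D5_T
  rw [Set.Finite.mem_toFinset]
  exact Iff.rfl

theorem D5_card (v : Pl K) : (D5_T (L := L) v).card * (es K L v * fs K L v) = Module.finrank K L :=
  card_above v _ fun W => D5_mem v W

theorem D5_card_le (v : Pl K) : (D5_T (L := L) v).card ≤ Module.finrank K L := by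
  rw [← D5_card (L := L) v]
  exact Nat.le_mul_of_pos_right _ (Nat.mul_pos (es_pos v) (fs_pos v))

theorem D5_fibre (v : Pl K) (s : ℝ) :
    ∑ W ∈ D5_T (L := L) v, (Ideal.absNorm W.asIdeal : ℝ) ^ (-s) =
      (D5_T (L := L) v).card * (Ideal.absNorm v.asIdeal : ℝ) ^ (-(fs K L v * s)) := by
  rw [← nsmul_eq_mul, ← Finset.sum_const]
  refine Finset.sum_congr rfl fun W hW => ?_
  rw [D5_norm v W ((D5_mem v W).1 hW)]
  push_cast
  rw [← Real.rpow_natCast, ← Real.rpow_mul (Nat.cast_nonneg _)]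
  congr 1
  ring

end

/-- Chunk RD5 (M/L), primes of L and completely split primes of K. n = [L : K]. Sum over the primes W of L = sum over the v of the finite sums over the fibre {W : W.under = v}
(Equiv.sigmaFiberEquiv for W -> W.under (𝓞 K), Summable.tsum_sigma'; dd_summable for L). The fibre over v is in bijection with v.asIdeal.primesOver (𝓞 L), has
n / (e f) elements (Ideal.ncard_primesOver_mul_ramificationIdxIn_mul_inertiaDegIn), at most n, and absNorm W = (absNorm v)^f (Ideal.absNorm_eq_pow_inertiaDeg or the cardinality of the residue field: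
Ideal.absNorm_relNorm and Ideal.relNorm_eq_pow_of_isMaximal). If v splits (Spl: e = f = 1) the fibre sum is n * Nv^(-s). If f >= 2 it is between 0 and n * Nv^(-2s) <= n * Nv^(-2). If
f = 1 and e <> 1 it is between 0 and n, and these v form a finite set (ram_finite). So |sum over W - n * PS (Spl) s| <= n * (sum of Nv^(-2)) + n * #(ramified). -/
theorem split_cmp (K L : Type) [Field K] [NumberField K] [Field L] [NumberField L]
    [Algebra K L] [IsGalois K L] : ∃ C : ℝ, ∀ s ∈ Set.Ioc (1 : ℝ) 2,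
      |∑' W : Pl L, (Ideal.absNorm W.asIdeal : ℝ) ^ (-s) -
        Module.finrank K L * PS {v : Pl K | Spl K L v} s| ≤ C := by
  classical
  have hB1 : Summable fun v : Pl K => (Module.finrank K L : ℝ) * (Ideal.absNorm v.asIdeal : ℝ) ^ (-2 : ℝ) :=
    (dd_summable 2 (by norm_num)).mul_left _
  have hB2 : Summable fun v : Pl K => if es K L v ≠ 1 then (Module.finrank K L : ℝ) else 0 := by
    refine summable_of_finite_support ((ram_finite K L).subset ?_)
    intro v hv
    rw [Function.mem_support] at hv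
    by_contra hne
    exact hv (if_neg hne)
  have hB := hB1.add hB2
  refine ⟨∑' v : Pl K, ((Module.finrank K L : ℝ) * (Ideal.absNorm v.asIdeal : ℝ) ^ (-2 : ℝ) +
      if es K L v ≠ 1 then (Module.finrank K L : ℝ) else 0), fun s hs => ?_⟩
  obtain ⟨hs1, hs2⟩ := hs
  have hg : Summable fun W : Pl L => (Ideal.absNorm W.asIdeal : ℝ) ^ (-s) := dd_summable s hs1
  let E : (Σ v : Pl K, {W : Pl L // W.under (𝓞 K) = v}) ≃ Pl L :=
    Equiv.sigmaFiberEquiv fun W : Pl L => W.under (𝓞 K)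
  have hgE : Summable fun p : (Σ v : Pl K, {W : Pl L // W.under (𝓞 K) = v}) =>
      (Ideal.absNorm (E p).asIdeal : ℝ) ^ (-s) := (Equiv.summable_iff E).2 hg
  have hin : ∀ v : Pl K, ∑' W : {W : Pl L // W.under (𝓞 K) = v},
      (Ideal.absNorm (E ⟨v, W⟩).asIdeal : ℝ) ^ (-s) =
        ∑ W ∈ D5_T (L := L) v, (Ideal.absNorm W.asIdeal : ℝ) ^ (-s) := by
    intro v
    rw [← Finset.tsum_subtype (D5_T (L := L) v) fun W : Pl L => (Ideal.absNorm W.asIdeal : ℝ) ^ (-s)]
    let e : {W : Pl L // W.under (𝓞 K) = v} ≃ {W : Pl L // W ∈ D5_T (L := L) v} :=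
      Equiv.subtypeEquivRight fun W => (D5_mem v W).symm
    rw [← Equiv.tsum_eq e]
    rfl
  have hsum : ∑' W : Pl L, (Ideal.absNorm W.asIdeal : ℝ) ^ (-s) =
      ∑' v : Pl K, ∑ W ∈ D5_T (L := L) v, (Ideal.absNorm W.asIdeal : ℝ) ^ (-s) := by
    rw [← Equiv.tsum_eq E, hgE.tsum_sigma]
    exact tsum_congr hin
  have hF : Summable fun v : Pl K => ∑ W ∈ D5_T (L := L) v, (Ideal.absNorm W.asIdeal : ℝ) ^ (-s) :=
    hgE.sigma.congr hin
  have hP : Summable fun v : Pl K => (Module.finrank K L : ℝ) *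
      {v : Pl K | Spl K L v}.indicator (fun v => (Ideal.absNorm v.asIdeal : ℝ) ^ (-s)) v :=
    ((dd_summable s hs1).indicator _).mul_left _
  unfold PS
  rw [hsum, ← tsum_mul_left, ← hF.tsum_sub hP, ← Real.norm_eq_abs]
  refine tsum_of_norm_bounded hB.hasSum fun v => ?_
  rw [Real.norm_eq_abs, D5_fibre]
  have hN1 : (1 : ℝ) ≤ Ideal.absNorm v.asIdeal := by
    have := dd_two_le v
    exact_mod_cast (by omega : 1 ≤ Ideal.absNorm v.asIdeal)
  have hc : ((D5_T (L := L) v).card : ℝ) ≤ Module.finrank K L := by exact_mod_cast D5_card_le v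
  have hn0 : (0 : ℝ) ≤ Module.finrank K L := Nat.cast_nonneg _
  have hf1 := fs_pos (K := K) (L := L) v
  have h20 : 0 ≤ (Ideal.absNorm v.asIdeal : ℝ) ^ (-2 : ℝ) := by positivity
  have hite : (0 : ℝ) ≤ if es K L v ≠ 1 then (Module.finrank K L : ℝ) else 0 := by
    split_ifs
    · exact hn0
    · exact le_rfl
  by_cases hv : Spl K L v
  · have h1 : v ∈ {v : Pl K | Spl K L v} := hv
    rw [Set.indicator_of_mem h1]
    obtain ⟨h2, h3⟩ := hv
    have h4 := D5_card (L := L) v
    rw [h2, h3, mul_one, mul_one] at h4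
    rw [h4, h3, Nat.cast_one, one_mul, sub_self, abs_zero]
    positivity
  · have h1 : v ∉ {v : Pl K | Spl K L v} := hv
    rw [Set.indicator_of_notMem h1, mul_zero, sub_zero]
    have h5 : 0 ≤ (Ideal.absNorm v.asIdeal : ℝ) ^ (-(fs K L v * s)) := by positivity
    rw [abs_of_nonneg (mul_nonneg (Nat.cast_nonneg _) h5)]
    have hfs : (1 : ℝ) ≤ fs K L v := by exact_mod_cast hf1
    by_cases he : es K L v = 1
    · have hf2 : fs K L v ≠ 1 := fun h => hv ⟨he, h⟩
      have hf3 : (2 : ℝ) ≤ fs K L v := by exact_mod_cast (by omega : 2 ≤ fs K L v)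
      have h6 : (Ideal.absNorm v.asIdeal : ℝ) ^ (-(fs K L v * s)) ≤
          (Ideal.absNorm v.asIdeal : ℝ) ^ (-2 : ℝ) := by
        refine Real.rpow_le_rpow_of_exponent_le hN1 ?_
        nlinarith
      exact (mul_le_mul hc h6 h5 hn0).trans (le_add_of_nonneg_right hite)
    · rw [if_pos he]
      have h6 : (Ideal.absNorm v.asIdeal : ℝ) ^ (-(fs K L v * s)) ≤ 1 := by
        refine Real.rpow_le_one_of_one_le_of_nonpos hN1 ?_
        have : 0 ≤ (fs K L v : ℝ) * s := by positivity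
        linarith
      have h7 := mul_le_mul hc h6 h5 hn0
      rw [mul_one] at h7
      exact h7.trans (le_add_of_nonneg_left (by positivity))

end H55R
end

-- from Lib.H55P.B11
section

open NumberField IsDedekindDomain

namespace H55P

open H55N
open H55B (g)

variable {F : Type} [Field F] [NumberField F] [IQ F] {K : Type} [Field K] [NumberField K] [Algebra F K] {m : ℕ}
  {P ι : Type} [Fintype ι] [DecidableEq ι]

/-! Chunk B11 (M). The cutoff functions. cut = (1/h_R)^(m+2), h_R = 1 + q(x)/R^2, q(x) = sum_i |sum_j B_ij σ_j x|^2.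
c sz^2 <= q(x) <= C sz^2 on Y: B is invertible, so |σ x| <= C |B σ x|, and sz_le. h_R is SV uniformly in R >= 1 (|y-w|^2 <= 2|y|^2+2|w|^2 for the vectors
B σ x). q is Good with weight sz^2 (products of additive functions with their conjugates, as in B9), so q/R^2 is Good with weight sz^2/R^2 <= C h_R, so h_R is Good with
weight h_R (Good.add with the constant 1, Good.mono); Good.inv, Good.pow, Good.mono (h_R >= 1).
cut_le: 0 <= cut <= 1, and for R >= 1 cut <= C_R sz^(-2(m+2)) on Y. cut_tendsto: for fixed x, cut -> 1 as R -> infinity. -/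

/-- The linear forms. -/
noncomputable def b11L (D : Ctx F K m) (B : Matrix (Fin (m + 1)) (Fin (m + 1)) ℂ) (i : Fin (m + 1))
    (x : 𝓞 K) : ℂ := ∑ j, B i j * D.σ j x

/-- The quadratic form. -/
noncomputable def b11q (D : Ctx F K m) (B : Matrix (Fin (m + 1)) (Fin (m + 1)) ℂ) (x : 𝓞 K) : ℝ :=
  ∑ i, ‖b11L D B i x‖ ^ 2

theorem b11q_nonneg (D : Ctx F K m) (B : Matrix (Fin (m + 1)) (Fin (m + 1)) ℂ) (x : 𝓞 K) :
    0 ≤ b11q D B x := Finset.sum_nonneg fun _ _ => by positivity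

theorem b11_cut (D : Ctx F K m) (B : Matrix (Fin (m + 1)) (Fin (m + 1)) ℂ) (R : ℝ) (x : 𝓞 K) :
    D.cut B R x = (R ^ 2 / (R ^ 2 + b11q D B x)) ^ (m + 2) := rfl

theorem b11_low (D : Ctx F K m) (hE : Emb F D.σ) (B : Matrix (Fin (m + 1)) (Fin (m + 1)) ℂ)
    (hB : B.det ≠ 0) : ∃ c : ℝ, 0 < c ∧ ∀ x : 𝓞 K, x ≠ 0 → c * D.sz x ^ 2 ≤ b11q D B x := by
  set M : ℝ := ∑ j, ∑ i, ‖B⁻¹ j i‖ with hM
  have hM0 : 0 ≤ M := Finset.sum_nonneg fun _ _ => Finset.sum_nonneg fun _ _ => norm_nonneg _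
  have hden : 0 < 4 * M ^ 2 * (m + 1) + 1 := by positivity
  refine ⟨(4 * M ^ 2 * (m + 1) + 1)⁻¹, inv_pos.2 hden, fun x hx => ?_⟩
  obtain ⟨h1, h2⟩ := sz_le D hE x hx
  have hu : IsUnit B.det := isUnit_iff_ne_zero.2 hB
  have h3 : ∀ j, D.σ j x = ∑ i, B⁻¹ j i * b11L D B i x := by
    intro j
    have e1 : (B⁻¹ * B).mulVec (fun j => D.σ j x) = fun j => D.σ j x := by
      rw [Matrix.nonsing_inv_mul _ hu, Matrix.one_mulVec]
    rw [← Matrix.mulVec_mulVec] at e1
    have e2 := congrFun e1 j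
    rw [← e2]
    rfl
  set S : ℝ := ∑ i, ‖b11L D B i x‖ with hS
  have hS0 : 0 ≤ S := Finset.sum_nonneg fun _ _ => norm_nonneg _
  have h4 : ∑ j, ‖D.σ j x‖ ≤ M * S := by
    rw [hM, Finset.sum_mul]
    refine Finset.sum_le_sum fun j _ => ?_
    rw [h3 j, Finset.sum_mul]
    refine (norm_sum_le _ _).trans (Finset.sum_le_sum fun i _ => ?_)
    rw [norm_mul]
    exact mul_le_mul_of_nonneg_left
      (Finset.single_le_sum (f := fun i => ‖b11L D B i x‖) (fun _ _ => norm_nonneg _)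
        (Finset.mem_univ i)) (norm_nonneg _)
  have h5 : S ^ 2 ≤ (m + 1) * b11q D B x := by
    have := sq_sum_le_card_mul_sum_sq (s := (Finset.univ : Finset (Fin (m + 1))))
      (f := fun i => ‖b11L D B i x‖)
    rw [Finset.card_univ, Fintype.card_fin] at this
    push_cast at this
    exact this
  have h6 : D.sz x ≤ 2 * (M * S) := by linarith
  have h7 : D.sz x ^ 2 ≤ (2 * (M * S)) ^ 2 := pow_le_pow_left₀ (D.sz_pos x).le h6 2
  have h8 : (2 * (M * S)) ^ 2 ≤ 4 * M ^ 2 * ((m + 1) * b11q D B x) := by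
    have : (2 * (M * S)) ^ 2 = 4 * M ^ 2 * S ^ 2 := by ring
    rw [this]
    exact mul_le_mul_of_nonneg_left h5 (by positivity)
  have h9 := b11q_nonneg D B x
  rw [inv_mul_le_iff₀ hden]
  nlinarith

theorem b11_scale {M' : Type} [AddCommGroup M'] {X : Set M'} {w : ι → M'} {γ : ι → M' → ℝ}
    {β : P → M' → ℝ} {h : P → M' → ℂ} (h1 : Good X w γ β h) (a : P → ℝ) (ha : ∀ q, 0 ≤ a q) :
    Good X w γ (fun q x => a q * β q x) (fun q x => (a q : ℂ) * h q x) := by
  obtain ⟨C, hC⟩ := h1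
  refine ⟨C, fun q S x hx => ?_⟩
  rw [dif_const_mul, norm_mul, Complex.norm_real, Real.norm_eq_abs, abs_of_nonneg (ha q)]
  have := mul_le_mul_of_nonneg_left (hC q S x hx) (ha q)
  calc a q * ‖Dif w S (h q) x‖ ≤ a q * (C * β q x * ∏ i ∈ S, γ i x) := this
    _ = C * (a q * β q x) * ∏ i ∈ S, γ i x := by ring

theorem b11_goodL (D : Ctx F K m) (w : ι → 𝓞 K) (Y : Set (𝓞 K))
    (B : Matrix (Fin (m + 1)) (Fin (m + 1)) ℂ) (i : Fin (m + 1)) :
    Good Y w D.gs (fun (_ : P) x => D.sz x) (fun _ x => b11L D B i x) := by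
  have hg : ∀ (i : ι), ∀ x ∈ Y, 0 ≤ D.gs i x := fun _ x _ => (inv_pos.mpr (D.sz_pos x)).le
  unfold b11L
  exact Good.sum (P := P) (Finset.univ : Finset (Fin (m + 1))) (fun j _ (x : 𝓞 K) => B i j * D.σ j x)
    (fun j _ => Good.smul (good_sig D w Y j) hg (fun _ x _ => (D.sz_pos x).le) (fun _ => B i j)
      ‖B i j‖ (fun _ => le_rfl)) hg (fun _ x _ => (D.sz_pos x).le)

theorem b11_goodq (D : Ctx F K m) (w : ι → 𝓞 K) (Y : Set (𝓞 K)) (hY : ∀ x ∈ Y, ∀ i, x - w i ∈ Y)
    (B : Matrix (Fin (m + 1)) (Fin (m + 1)) ℂ) :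
    Good Y w D.gs (fun (_ : P) x => D.sz x ^ 2) (fun _ x => (b11q D B x : ℂ)) := by
  have hg : ∀ (i : ι), ∀ x ∈ Y, 0 ≤ D.gs i x := fun _ x _ => (inv_pos.mpr (D.sz_pos x)).le
  have h1 : ∀ i : Fin (m + 1), Good Y w D.gs (fun (_ : P) x => D.sz x ^ 2)
      (fun (_ : P) (x : 𝓞 K) => b11L D B i x * (starRingEnd ℂ) (b11L D B i x)) := by
    intro i
    have h2 := Good.mul hY (sv_gs D w Y) (sv_sz (P := P) D w Y) (sv_sz (P := P) D w Y)
      (b11_goodL D w Y B i) (Good.conj (b11_goodL D w Y B i))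
    have h4 : (fun (_ : P) (x : 𝓞 K) => D.sz x ^ 2) = fun _ x => D.sz x * D.sz x := by
      funext _ x
      ring
    rw [h4]
    exact h2
  have h5 := Good.sum (Finset.univ : Finset (Fin (m + 1))) _ (fun i _ => h1 i) hg
    (fun _ x _ => by positivity)
  have h6 : (fun (_ : P) (x : 𝓞 K) => (b11q D B x : ℂ)) =
      fun (_ : P) (x : 𝓞 K) => ∑ i, b11L D B i x * (starRingEnd ℂ) (b11L D B i x) := by
    funext q x
    unfold b11q
    rw [Complex.ofReal_sum]
    refine Finset.sum_congr rfl fun i _ => ?_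
    rw [Complex.mul_conj, Complex.normSq_eq_norm_sq]
  rw [h6]
  exact h5

/-- The slowly varying weight. -/
noncomputable def b11b (D : Ctx F K m) (R : P → ℝ) (q : P) (x : 𝓞 K) : ℝ :=
  1 + ((R q) ^ 2)⁻¹ * D.sz x ^ 2

theorem b11_sv (D : Ctx F K m) (w : ι → 𝓞 K) (Y : Set (𝓞 K)) (hY : ∀ x ∈ Y, ∀ i, x - w i ∈ Y)
    (R : P → ℝ) : SV Y w (b11b D R) := by
  obtain ⟨C, hC, h⟩ := B8_one hY (SV.pow hY (sv_sz (P := P) D w Y) 2)
  refine ⟨fun q x _ => by unfold b11b; have := D.sz_pos x; positivity, C, fun q x hx i => ?_⟩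
  obtain ⟨h1, h2⟩ := h q x hx i
  have hR : 0 ≤ ((R q) ^ 2)⁻¹ := by positivity
  unfold b11b
  constructor
  · have := mul_le_mul_of_nonneg_left h1 hR
    nlinarith
  · have := mul_le_mul_of_nonneg_left h2 hR
    nlinarith

theorem good_cut (D : Ctx F K m) (hE : Emb F D.σ) (w : ι → 𝓞 K) (Y : Set (𝓞 K))
    (hY : ∀ x ∈ Y, ∀ i, x - w i ∈ Y) (h0 : (0 : 𝓞 K) ∉ Y)
    (B : Matrix (Fin (m + 1)) (Fin (m + 1)) ℂ) (hB : B.det ≠ 0) (R : P → ℝ) (hR : ∀ q, 1 ≤ R q) :
    Good Y w D.gs (fun (_ : P) _ => (1 : ℝ)) (fun q x => (D.cut B (R q) x : ℂ)) := by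
  have hg : ∀ (i : ι), ∀ x ∈ Y, 0 ≤ D.gs i x := fun _ x _ => (inv_pos.mpr (D.sz_pos x)).le
  have hb0 : ∀ q, ∀ x ∈ Y, 0 ≤ b11b D R q x := fun q x _ => by unfold b11b; positivity
  have h1 : Good Y w D.gs (b11b D R) (fun (_ : P) _ => (1 : ℂ)) :=
    Good.const hb0 hg (fun _ => 1) 1 (fun q x _ => by
      unfold b11b
      rw [norm_one, one_mul]
      have : 0 ≤ ((R q) ^ 2)⁻¹ * D.sz x ^ 2 := by positivity
      linarith)
  have h2 := b11_scale (b11_goodq (P := P) D w Y hY B) (fun q => ((R q) ^ 2)⁻¹)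
    (fun q => by positivity)
  have h3 : Good Y w D.gs (b11b D R)
      (fun (q : P) x => ((((R q) ^ 2)⁻¹ : ℝ) : ℂ) * (b11q D B x : ℂ)) := by
    refine Good.mono h2 hg 1 zero_le_one (fun q x _ => ⟨by positivity, ?_⟩) (fun i x _ => by
      rw [one_mul])
    unfold b11b
    linarith
  have h4 := Good.add h1 h3
  obtain ⟨c, hc, hlow⟩ := b11_low D hE B hB
  have h5 := Good.inv hY (sv_gs D w Y) (b11_sv D w Y hY R) h4 (min 1 c) (lt_min one_pos hc) (by
    intro q x hx
    have hx0 : x ≠ 0 := by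
      rintro rfl
      exact h0 hx
    have e1 := hlow x hx0
    have hR' : 0 ≤ ((R q) ^ 2)⁻¹ := by positivity
    have e2 : ‖(1 : ℂ) + ((((R q) ^ 2)⁻¹ : ℝ) : ℂ) * (b11q D B x : ℂ)‖ =
        1 + ((R q) ^ 2)⁻¹ * b11q D B x := by
      rw [← Complex.ofReal_one, ← Complex.ofReal_mul, ← Complex.ofReal_add, Complex.norm_real,
        Real.norm_eq_abs, abs_of_nonneg]
      have := b11q_nonneg D B x
      positivity
    rw [e2]
    unfold b11b
    have e3 : min 1 c ≤ 1 := min_le_left _ _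
    have e4 : min 1 c ≤ c := min_le_right _ _
    have e5 : min 1 c * D.sz x ^ 2 ≤ b11q D B x :=
      (mul_le_mul_of_nonneg_right e4 (by positivity)).trans e1
    have e6 := mul_le_mul_of_nonneg_left e5 hR'
    nlinarith)
  have h6 := Good.pow hY (sv_gs D w Y) (SV.inv hY (b11_sv D w Y hY R)) h5 (m + 2)
  have h7 : (fun (q : P) (x : 𝓞 K) => (D.cut B (R q) x : ℂ)) = fun (q : P) (x : 𝓞 K) =>
      ((1 + ((((R q) ^ 2)⁻¹ : ℝ) : ℂ) * (b11q D B x : ℂ))⁻¹) ^ (m + 2) := by
    funext q x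
    rw [b11_cut]
    push_cast
    congr 1
    have hq := b11q_nonneg D B x
    have hR2 : (0 : ℝ) < (R q) ^ 2 := by have := hR q; positivity
    have e1 : (1 + ((R q) ^ 2)⁻¹ * b11q D B x) ≠ 0 := by positivity
    have e2 : (R q) ^ 2 + b11q D B x ≠ 0 := by positivity
    have e3' : (R q) ^ 2 + b11q D B x = (R q) ^ 2 * (1 + ((R q) ^ 2)⁻¹ * b11q D B x) := by
      rw [mul_add, mul_one, mul_inv_cancel_left₀ hR2.ne']
    have e3 : (R q) ^ 2 / ((R q) ^ 2 + b11q D B x) = (1 + ((R q) ^ 2)⁻¹ * b11q D B x)⁻¹ := by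
      rw [e3', div_mul_cancel_left₀ hR2.ne']
    have e4 := congrArg (fun r : ℝ => (r : ℂ)) e3
    push_cast at e4
    exact e4
  rw [h7]
  refine Good.mono h6 hg 1 zero_le_one (fun q x _ => ⟨?_, ?_⟩) (fun i x _ => by rw [one_mul])
  · have : 0 ≤ b11b D R q x := by unfold b11b; positivity
    positivity
  · rw [one_mul]
    apply pow_le_one₀
    · exact inv_nonneg.2 (by unfold b11b; positivity)
    · apply inv_le_one_of_one_le₀
      unfold b11b
      have : 0 ≤ ((R q) ^ 2)⁻¹ * D.sz x ^ 2 := by positivity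
      linarith

theorem cut_le (D : Ctx F K m) (hE : Emb F D.σ) (B : Matrix (Fin (m + 1)) (Fin (m + 1)) ℂ)
    (hB : B.det ≠ 0) (R : ℝ) (hR : 1 ≤ R) : ∃ C : ℝ, ∀ x : 𝓞 K, x ≠ 0 →
      |D.cut B R x| ≤ C * D.sz x ^ (-(2 * (m + 2) : ℝ)) := by
  obtain ⟨c, hc, hlow⟩ := b11_low D hE B hB
  refine ⟨(R ^ 2 / c) ^ (m + 2), fun x hx => ?_⟩
  have h1 := hlow x hx
  have hs := D.sz_pos x
  have hq := b11q_nonneg D B x
  rw [b11_cut, abs_of_nonneg (by positivity)]
  have e1 : D.sz x ^ (-(2 * (m + 2) : ℝ)) = ((D.sz x ^ 2)⁻¹) ^ (m + 2) := by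
    rw [Real.rpow_neg hs.le, inv_pow, ← pow_mul, ← Real.rpow_natCast]
    push_cast
    rfl
  rw [e1, ← mul_pow]
  apply pow_le_pow_left₀ (by positivity)
  have e2 : R ^ 2 / c * (D.sz x ^ 2)⁻¹ = R ^ 2 / (c * D.sz x ^ 2) := by field_simp
  rw [e2]
  apply div_le_div_of_nonneg_left (by positivity) (by positivity)
  nlinarith [sq_nonneg R]

theorem cut_tendsto (D : Ctx F K m) (B : Matrix (Fin (m + 1)) (Fin (m + 1)) ℂ) (x : 𝓞 K) :
    Filter.Tendsto (fun R : ℝ => (D.cut B R x : ℂ)) Filter.atTop (nhds 1) := by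
  have h1 : Filter.Tendsto (fun R : ℝ => R ^ 2 + b11q D B x) Filter.atTop Filter.atTop :=
    Filter.tendsto_atTop_add_const_right _ _ (Filter.tendsto_pow_atTop (by norm_num))
  have h2 : Filter.Tendsto (fun R : ℝ => b11q D B x / (R ^ 2 + b11q D B x)) Filter.atTop
      (nhds 0) := tendsto_const_nhds.div_atTop h1
  have h3 : Filter.Tendsto (fun R : ℝ => (1 - b11q D B x / (R ^ 2 + b11q D B x)) ^ (m + 2))
      Filter.atTop (nhds ((1 - 0) ^ (m + 2))) := (tendsto_const_nhds.sub h2).pow _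
  rw [sub_zero, one_pow] at h3
  have h4 : Filter.Tendsto (fun R : ℝ => D.cut B R x) Filter.atTop (nhds 1) := by
    refine h3.congr' ?_
    filter_upwards [Filter.eventually_ge_atTop 1] with R hR
    rw [b11_cut]
    congr 1
    have hq := b11q_nonneg D B x
    have : R ^ 2 + b11q D B x ≠ 0 := by positivity
    field_simp
    ring
  have h5 := (Complex.continuous_ofReal.tendsto 1).comp h4
  rw [Complex.ofReal_one] at h5
  exact h5

end H55P
end
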