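import Mathlib
import Pool.Agent.Lib.H1M.PP.D_H55P_Sel
import Pool.Agent.Lib.H1M.PP.M001
import Pool.Agent.Lib.H1M.PP.M005
import Pool.Agent.Lib.H1M.PP.M013
import Pool.Agent.Lib.H1M.PP.M016
import Pool.Agent.Lib.H1M.PP.M027
import Pool.Agent.Lib.H1M.PP.M028
import Pool.Agent.Lib.H1M.PP.M034
import Pool.Agent.Lib.H1M.PP.M037

/-! Merged copies (to shorten the build) of Lib.H55K.J0, Lib.H55K.J1A, Lib.H55K.K6B, Lib.H55K.M0, Lib.H55K.XD, Lib.H55P.R1, Lib.H55P.R5, Lib.H55P.U3, Lib.H55P.U5, Lib.H55K.KD, Lib.H55K.K0A, Lib.H55K.K0B, Lib.H55K.K0C, Lib.H55K.K2A, Lib.H55K.K2B, Lib.H55K.K8. -/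

-- from Lib.H55K.J0
section

/-! # H55K, part J: the j-invariant is integral (definitions, residues) -/

open NumberField WeierstrassCurve

namespace H55K.JJ

open H35P (WAB Ker IntW)

section residue

variable {k : Type} [Field k] {V : ValuationSubring k}

open Classical in
/-- The residue (0 for elements which are not integral). -/
noncomputable def rs (V : ValuationSubring k) (x : k) : IsLocalRing.ResidueField V :=
  if h : x ∈ V then IsLocalRing.residue V ⟨x, h⟩ else 0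

theorem rs_of {x : k} (hx : x ∈ V) : rs V x = IsLocalRing.residue V ⟨x, hx⟩ := dif_pos hx

theorem rs_add {x y : k} (hx : x ∈ V) (hy : y ∈ V) : rs V (x + y) = rs V x + rs V y := by
  rw [rs_of hx, rs_of hy, rs_of (V.add_mem _ _ hx hy), ← map_add]
  rfl

theorem rs_mul {x y : k} (hx : x ∈ V) (hy : y ∈ V) : rs V (x * y) = rs V x * rs V y := by
  rw [rs_of hx, rs_of hy, rs_of (V.mul_mem _ _ hx hy), ← map_mul]
  rfl

theorem rs_neg {x : k} (hx : x ∈ V) : rs V (-x) = -rs V x := by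
  rw [rs_of hx, rs_of (V.neg_mem _ hx), ← map_neg]
  rfl

theorem rs_sub {x y : k} (hx : x ∈ V) (hy : y ∈ V) : rs V (x - y) = rs V x - rs V y := by
  rw [sub_eq_add_neg, rs_add hx (V.neg_mem _ hy), rs_neg hy, ← sub_eq_add_neg]

theorem rs_one : rs V (1 : k) = 1 := by
  rw [rs_of V.one_mem]
  exact map_one (IsLocalRing.residue V)

theorem rs_zero : rs V (0 : k) = 0 := by
  rw [rs_of V.zero_mem]
  exact map_zero (IsLocalRing.residue V)

theorem rs_pow {x : k} (hx : x ∈ V) (n : ℕ) : rs V (x ^ n) = rs V x ^ n := by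
  induction n with
  | zero => rw [pow_zero, pow_zero, rs_one]
  | succ n ih => rw [pow_succ, pow_succ, rs_mul (pow_mem hx n) hx, ih]

theorem rs_nat (n : ℕ) : rs V (n : k) = (n : IsLocalRing.ResidueField V) := by
  rw [rs_of (natCast_mem V n), ← map_natCast (IsLocalRing.residue V) n]
  rfl

theorem rs_sum {ι : Type} (s : Finset ι) (f : ι → k) (hf : ∀ i ∈ s, f i ∈ V) :
    rs V (∑ i ∈ s, f i) = ∑ i ∈ s, rs V (f i) := by
  classical
  induction s using Finset.induction_on with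
  | empty => rw [Finset.sum_empty, Finset.sum_empty, rs_zero]
  | insert a s ha ih =>
    rw [Finset.sum_insert ha, Finset.sum_insert ha, rs_add (hf a (Finset.mem_insert_self a s))
      (sum_mem fun i hi => hf i (Finset.mem_insert_of_mem hi)), ih fun i hi => hf i (Finset.mem_insert_of_mem hi)]

theorem rs_eq_zero {x : k} (hx : x ∈ V) : rs V x = 0 ↔ V.valuation x < 1 := by
  rw [rs_of hx, IsLocalRing.residue_eq_zero_iff, V.valuation_lt_one_iff]

theorem rs_ne_zero {x : k} (hx : x ∈ V) : rs V x ≠ 0 ↔ V.valuation x = 1 := by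
  have h1 := (V.valuation_le_one_iff x).2 hx
  rw [Ne, rs_eq_zero hx, not_lt]
  exact ⟨fun h => le_antisymm h1 h, fun h => h.ge⟩

theorem rs_eq {x y : k} (hx : x ∈ V) (hy : y ∈ V) : rs V x = rs V y ↔ V.valuation (x - y) < 1 := by
  rw [← rs_eq_zero (V.sub_mem hx hy), rs_sub hx hy, sub_eq_zero]

theorem rs_div {x y : k} (hx : x ∈ V) (hy : V.valuation y = 1) : rs V (x / y) = rs V x / rs V y := by
  have hy1 : y ∈ V := (V.valuation_le_one_iff y).1 hy.le
  have hy0 : rs V y ≠ 0 := (rs_ne_zero hy1).2 hy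
  have hy2 : y ≠ 0 := fun h => by
    rw [h, map_zero] at hy
    exact zero_ne_one hy
  have h1 : x / y ∈ V := by
    rw [← V.valuation_le_one_iff, map_div₀, hy, div_one]
    exact (V.valuation_le_one_iff x).2 hx
  rw [eq_div_iff hy0, ← rs_mul h1 hy1, div_mul_cancel₀ _ hy2]

end residue

/-- x as a function of the coordinate u of the nodal cubic y^2 + x y = x^3. -/
noncomputable def xu {κ : Type} [Field κ] (u : κ) : κ := u / (u - 1) ^ 2

/-- 2 y + x as a function of u. -/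
noncomputable def zu {κ : Type} [Field κ] (u : κ) : κ := u * (u + 1) / (u - 1) ^ 3

variable {k : Type} [Field k] [DecidableEq k] {W : WeierstrassCurve k}

/-- The curve y^2 + x y = x^3 + a4 x + a6 with a4, a6 of value less than one. -/
structure Nod (W : WeierstrassCurve k) (V : ValuationSubring k) : Prop where
  a1 : W.a₁ = 1
  a2 : W.a₂ = 0
  a3 : W.a₃ = 0
  a4 : V.valuation W.a₄ < 1
  a6 : V.valuation W.a₆ < 1

/-- The points with nonsingular reduction, outside the kernel of reduction. -/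
def Fn (V : ValuationSubring k) (P : W.toAffine.Point) : Prop := V.valuation (xc P) = 1

/-- The points with nonsingular reduction. -/
def E0 (V : ValuationSubring k) (P : W.toAffine.Point) : Prop := P = 0 ∨ 1 ≤ V.valuation (xc P)

/-- The coordinate u = 1 + x/y of the reduction. -/
noncomputable def ub (V : ValuationSubring k) (P : W.toAffine.Point) : IsLocalRing.ResidueField V :=
  rs V (1 + xc P / yc P)

omit [DecidableEq k] in
theorem Nod.intW {V : ValuationSubring k} (h : Nod W V) : IntW W V where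
  a1 := by
    rw [h.a1]
    exact V.one_mem
  a2 := by
    rw [h.a2]
    exact V.zero_mem
  a3 := by
    rw [h.a3]
    exact V.zero_mem
  a4 := (V.valuation_le_one_iff _).1 h.a4.le
  a6 := (V.valuation_le_one_iff _).1 h.a6.le

omit [DecidableEq k] in
theorem ub_zero {V : ValuationSubring k} : ub V (0 : W.toAffine.Point) = 1 := by
  have h1 : xc (0 : W.toAffine.Point) = 0 := rfl
  unfold ub
  rw [h1, zero_div, add_zero, rs_one]

end H55K.JJ
end

-- from Lib.H55K.J1A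
section

open NumberField WeierstrassCurve

namespace H55K.JJ

open H35P (WAB Ker IntW)

variable {k : Type} [Field k] [DecidableEq k] {W : WeierstrassCurve k} {V : ValuationSubring k}

/-! Chunk J1A (M, small facts; the equation is y^2 + x y = x^3 + a4 x + a6: cases on P, Affine.equation_iff, h.a1 ..). fn_crd: V(x) = 1, y in V by H35P.int_y (h.intW), y (y + x) = x^3 + (a4 x + a6) has value 1, both factors are in V.
fn_ub: 1 + x/y = (y + x)/y is in V; residues: with X = rs x, Y = rs y (Y <> 0, Y + X <> 0, X <> 0): Y (Y + X) = X^3, u = (Y + X)/Y, u - 1 = X/Y, xu u = Y (Y + X)/X^2 = X, zu u = X (u + 1)/(u - 1) = 2 Y + X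
(rs_div, rs_add, rs_mul, field_simp). fn_neg: Affine.Point.neg_some, negY = -y - x: ub (-P) = Y/(Y + X) (xc, yc of -P). nod_out: x of value < 1, so y is in V and y^2 + x y has value < 1. int_ker: H35P.int_y.
e0_iff: P = 0: Ker; V(x) > 1: Ker; V(x) = 1: Fn. ker_fn: not both. -/

theorem j1a_mul {Γ : Type*} [LinearOrderedCommGroupWithZero Γ] {a b : Γ} (ha : a ≤ 1) (hb : b ≤ 1)
    (h : a * b = 1) : a = 1 ∧ b = 1 := by
  have h1 : a = 1 := by
    refine le_antisymm ha ?_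
    rw [← h]
    exact mul_le_of_le_one_right' hb
  refine ⟨h1, ?_⟩
  rw [h1, one_mul] at h
  exact h

omit [DecidableEq k] in
theorem j1a_eqn (h : Nod W V) {x y : k} (he : W.toAffine.Equation x y) :
    y ^ 2 + x * y = x ^ 3 + (W.a₄ * x + W.a₆) := by
  rw [Affine.equation_iff, h.a1, h.a2, h.a3] at he
  linear_combination he

omit [DecidableEq k] in
theorem j1a_small (h : Nod W V) {x : k} (hx : V.valuation x ≤ 1) :
    V.valuation (W.a₄ * x + W.a₆) < 1 := by
  refine V.valuation.map_add_lt ?_ h.a6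
  rw [map_mul]
  exact lt_of_le_of_lt (mul_le_of_le_one_right' hx) h.a4

omit [DecidableEq k] in
theorem j1a_y (h : Nod W V) {x y : k} (he : W.toAffine.Equation x y) (hx : V.valuation x ≤ 1) :
    V.valuation y ≤ 1 := H35P.int_y h.intW he hx

omit [DecidableEq k] in
theorem j1a_rs (h : Nod W V) {x y : k} (he : W.toAffine.Equation x y) (hx : x ∈ V) (hy : y ∈ V) :
    rs V y ^ 2 + rs V x * rs V y = rs V x ^ 3 := by
  have h1 := congrArg (rs V) (j1a_eqn h he)
  have hs := j1a_small h ((V.valuation_le_one_iff x).2 hx)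
  have hsm : W.a₄ * x + W.a₆ ∈ V := (V.valuation_le_one_iff _).1 hs.le
  rw [rs_add (pow_mem hy 2) (V.mul_mem _ _ hx hy), rs_pow hy, rs_mul hx hy,
    rs_add (pow_mem hx 3) hsm, rs_pow hx, (rs_eq_zero hsm).2 hs, add_zero] at h1
  exact h1

omit [DecidableEq k] in
theorem j1a_fn (h : Nod W V) {x y : k} (he : W.toAffine.Equation x y) (hx : V.valuation x = 1) :
    V.valuation y = 1 ∧ V.valuation (y + x) = 1 := by
  have hy := j1a_y h he hx.le
  have hyx : V.valuation (y + x) ≤ 1 := V.valuation.map_add_le hy hx.le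
  refine j1a_mul hy hyx ?_
  rw [← map_mul]
  have e : y * (y + x) = x ^ 3 + (W.a₄ * x + W.a₆) := by
    rw [← j1a_eqn h he]
    ring
  rw [e]
  have h3 : V.valuation (x ^ 3) = 1 := by
    rw [map_pow, hx, one_pow]
  rw [V.valuation.map_add_eq_of_lt_left (by rw [h3]; exact j1a_small h hx.le), h3]

theorem fn_crd (h : Nod W V) {P : W.toAffine.Point} (hP : Fn V P) : P ≠ 0 ∧ xc P ∈ V ∧ yc P ∈ V ∧
    V.valuation (yc P) = 1 ∧ V.valuation (yc P + xc P) = 1 := by
  unfold Fn at hP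
  rcases P with _ | ⟨x, y, hxy⟩
  · exfalso
    change V.valuation (0 : k) = 1 at hP
    rw [map_zero] at hP
    exact zero_ne_one hP
  · change V.valuation x = 1 at hP
    obtain ⟨h1, h2⟩ := j1a_fn h hxy.1 hP
    refine ⟨?_, (V.valuation_le_one_iff x).1 hP.le, (V.valuation_le_one_iff y).1 h1.le, h1, h2⟩
    exact Affine.Point.some_ne_zero _

/-- A point with nonsingular reduction outside the kernel: coordinates. -/
theorem j1a_data (h : Nod W V) {P : W.toAffine.Point} (hP : Fn V P) :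
    rs V (xc P) ≠ 0 ∧ rs V (yc P) ≠ 0 ∧ rs V (yc P) + rs V (xc P) ≠ 0 ∧
    rs V (yc P) ^ 2 + rs V (xc P) * rs V (yc P) = rs V (xc P) ^ 3 ∧
    ub V P = 1 + rs V (xc P) / rs V (yc P) := by
  obtain ⟨h0, hx, hy, h1, h2⟩ := fn_crd h hP
  refine ⟨(rs_ne_zero hx).2 hP, (rs_ne_zero hy).2 h1, ?_, ?_, ?_⟩
  · rw [← rs_add hy hx]
    exact (rs_ne_zero (V.add_mem _ _ hy hx)).2 h2
  · rcases P with _ | ⟨x, y, hxy⟩
    · exact absurd rfl h0
    · exact j1a_rs h hxy.1 hx hy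
  · unfold ub
    rw [rs_add V.one_mem, rs_one, rs_div hx h1]
    rw [← V.valuation_le_one_iff, map_div₀, h1, div_one]
    exact (V.valuation_le_one_iff _).2 hx

theorem fn_ub (h : Nod W V) {P : W.toAffine.Point} (hP : Fn V P) : 1 + xc P / yc P ∈ V ∧ ub V P ≠ 0 ∧ ub V P ≠ 1 ∧
    rs V (xc P) = xu (ub V P) ∧ rs V (2 * yc P + xc P) = zu (ub V P) ∧
    rs V (yc P) * (ub V P - 1) = rs V (xc P) := by
  obtain ⟨h0, hx, hy, h1, h2⟩ := fn_crd h hP
  obtain ⟨hX, hY, hXY, he, hu⟩ := j1a_data h hP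
  have h2V : (2 : k) ∈ V := by
    have := natCast_mem V 2
    simpa using this
  have hr2 : rs V (2 : k) = 2 := by
    have := rs_nat (V := V) 2
    simpa using this
  have hz : rs V (2 * yc P + xc P) = 2 * rs V (yc P) + rs V (xc P) := by
    rw [rs_add (V.mul_mem _ _ h2V hy) hx, rs_mul h2V hy, hr2]
  rw [hz, hu]
  set X := rs V (xc P)
  set Y := rs V (yc P)
  have hdiv : X / Y ≠ 0 := div_ne_zero hX hY
  refine ⟨?_, ?_, ?_, ?_, ?_, ?_⟩
  · refine V.add_mem _ _ V.one_mem ?_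
    rw [← V.valuation_le_one_iff, map_div₀, h1, div_one]
    exact (V.valuation_le_one_iff _).2 hx
  · intro h3
    apply hXY
    have : Y * (1 + X / Y) = 0 := by rw [h3, mul_zero]
    rw [mul_add, mul_one, mul_div_cancel₀ _ hY] at this
    exact this
  · intro h3
    apply hdiv
    linear_combination h3
  · unfold xu
    have e : (1 : IsLocalRing.ResidueField V) + X / Y - 1 = X / Y := by ring
    rw [e, eq_div_iff (pow_ne_zero 2 hdiv)]
    field_simp
    linear_combination (-1 : IsLocalRing.ResidueField V) * he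
  · unfold zu
    have e : (1 : IsLocalRing.ResidueField V) + X / Y - 1 = X / Y := by ring
    rw [e, eq_div_iff (pow_ne_zero 3 hdiv)]
    field_simp
    linear_combination (-(2 * Y + X) : IsLocalRing.ResidueField V) * he
  · field_simp
    ring

theorem fn_neg (h : Nod W V) {P : W.toAffine.Point} (hP : Fn V P) : Fn V (-P) ∧ ub V (-P) = (ub V P)⁻¹ := by
  obtain ⟨h0, hx, hy, h1, h2⟩ := fn_crd h hP
  obtain ⟨hX, hY, hXY, he, hu⟩ := j1a_data h hP
  have hxn : xc (-P) = xc P ∧ yc (-P) = -(yc P + xc P) := by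
    rcases P with _ | ⟨x, y, hxy⟩
    · exact absurd rfl h0
    · refine ⟨rfl, ?_⟩
      change W.toAffine.negY x y = -(y + x)
      unfold Affine.negY
      rw [h.a1, h.a3]
      ring
  have hPn : Fn V (-P) := by
    unfold Fn
    rw [hxn.1]
    exact hP
  refine ⟨hPn, ?_⟩
  obtain ⟨-, -, -, -, hu'⟩ := j1a_data h hPn
  rw [hu', hu, hxn.1, hxn.2, rs_neg (V.add_mem _ _ hy hx), rs_add hy hx]
  set X := rs V (xc P)
  set Y := rs V (yc P)
  have e1 : (1 : IsLocalRing.ResidueField V) + X / Y = (Y + X) / Y := by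
    field_simp
  rw [e1, inv_div, div_neg]
  field_simp
  ring

theorem nod_out (h : Nod W V) {P : W.toAffine.Point} (hP : ¬ E0 V P) : P ≠ 0 ∧ V.valuation (xc P) < 1 ∧
    V.valuation (yc P) < 1 := by
  unfold E0 at hP
  push Not at hP
  obtain ⟨h0, hx⟩ := hP
  refine ⟨h0, hx, ?_⟩
  rcases P with _ | ⟨x, y, hxy⟩
  · exact absurd rfl h0
  · change V.valuation x < 1 at hx
    change V.valuation y < 1
    have hy := j1a_y h hxy.1 hx.le
    refine lt_of_le_of_ne hy ?_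
    intro hy1
    have h2 : V.valuation (y + x) = 1 := by
      rw [V.valuation.map_add_eq_of_lt_left (by rw [hy1]; exact hx), hy1]
    have h3 : V.valuation (y * (y + x)) = 1 := by
      rw [map_mul, hy1, h2, one_mul]
    have e : y * (y + x) = x ^ 3 + (W.a₄ * x + W.a₆) := by
      rw [← j1a_eqn h hxy.1]
      ring
    rw [e] at h3
    have h4 : V.valuation (x ^ 3 + (W.a₄ * x + W.a₆)) < 1 := by
      refine V.valuation.map_add_lt ?_ (j1a_small h hx.le)
      rw [map_pow]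
      exact pow_lt_one₀ zero_le' hx (by norm_num)
    exact absurd h3 h4.ne

theorem int_ker (h : Nod W V) {P : W.toAffine.Point} (hP : ¬ Ker V P) : P ≠ 0 ∧ xc P ∈ V ∧ yc P ∈ V := by
  rcases P with _ | ⟨x, y, hxy⟩
  · exact absurd trivial hP
  · change ¬ 1 < V.valuation x at hP
    rw [not_lt] at hP
    exact ⟨Affine.Point.some_ne_zero _, (V.valuation_le_one_iff x).1 hP,
      (V.valuation_le_one_iff y).1 (j1a_y h hxy.1 hP)⟩

theorem e0_iff {P : W.toAffine.Point} : E0 V P ↔ Ker V P ∨ Fn V P := by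
  rcases P with _ | ⟨x, y, hxy⟩
  · exact ⟨fun _ => Or.inl trivial, fun _ => Or.inl rfl⟩
  · change (Affine.Point.some x y hxy = 0 ∨ 1 ≤ V.valuation x) ↔ (1 < V.valuation x ∨ V.valuation x = 1)
    constructor
    · rintro (h1 | h1)
      · exact absurd h1 (Affine.Point.some_ne_zero _)
      · rcases h1.lt_or_eq with h2 | h2
        · exact Or.inl h2
        · exact Or.inr h2.symm
    · rintro (h1 | h1)
      · exact Or.inr h1.le
      · exact Or.inr h1.ge

theorem ker_fn {P : W.toAffine.Point} (hP : Fn V P) : ¬ Ker V P := by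
  rcases P with _ | ⟨x, y, hxy⟩
  · change V.valuation (0 : k) = 1 at hP
    rw [map_zero] at hP
    exact absurd hP zero_ne_one
  · change V.valuation x = 1 at hP
    change ¬ 1 < V.valuation x
    rw [hP]
    exact lt_irrefl _

/-- The equation of the reduction. -/
theorem z_sq (h : Nod W V) {P : W.toAffine.Point} (h0 : P ≠ 0) (hx : xc P ∈ V) (hy : yc P ∈ V) :
    rs V (2 * yc P + xc P) ^ 2 = 4 * rs V (xc P) ^ 3 + rs V (xc P) ^ 2 := by
  have h2V : (2 : k) ∈ V := by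
    have := natCast_mem V 2
    simpa using this
  have hr2 : rs V (2 : k) = 2 := by
    have := rs_nat (V := V) 2
    simpa using this
  have hz : rs V (2 * yc P + xc P) = 2 * rs V (yc P) + rs V (xc P) := by
    rw [rs_add (V.mul_mem _ _ h2V hy) hx, rs_mul h2V hy, hr2]
  rcases P with _ | ⟨x, y, hxy⟩
  · exact absurd rfl h0
  · have h1 := j1a_rs h hxy.1 hx hy
    rw [hz]
    change (2 * rs V y + rs V x) ^ 2 = 4 * rs V x ^ 3 + rs V x ^ 2
    linear_combination 4 * h1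

end H55K.JJ
end

-- from Lib.H55K.K6B
section

open NumberField IsDedekindDomain WeierstrassCurve

namespace H55K

open H55P (IQ embF eF LF Per IsHecke Pt ac Inert Dec Nm)
open H35P (WAB Ker tt)
open H55R (Pl ord es fs smulP)

/-! Chunk K6B (M, port of H28G/K8.lean, aux_prime). v = Q.under (𝓞 F), β = ψ v.asIdeal: v.asIdeal = span {β} (IsHecke.gen with hv: v coprime to m), β prime (v.isPrime, v.ne_bot: Ideal.span_singleton_prime). The rest as in H28G/K8.lean: absNorm Q = absNorm(v)^fs (H55R.D5_norm) is prime so fs = 1 and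
absNorm v = absNorm Q = Nm β; membership: v is maximal, smulP_trans, under_smulP; valuation: ord_map, K8_ord (copy it for variable F), BF1_val. -/

variable {F : Type} [Field F] [NumberField F] [IQ F]

omit [IQ F] in
theorem k6b_ord (v : Pl F) {β : 𝓞 F} (hβ : Prime β) (hv : v.asIdeal = Ideal.span {β}) (x : Fˣ)
    (hx : (x : F) = (β : F)) : ord v x = 1 := by
  have h1 : ((1 : ℕ) : ℤ) ≤ ord v x := by
    rw [H55R.ord_int v β x hx, pow_one, hv]
    exact Ideal.mem_span_singleton_self _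
  have h2 : ¬ ((2 : ℕ) : ℤ) ≤ ord v x := by
    rw [H55R.ord_int v β x hx, hv, Ideal.span_singleton_pow, Ideal.mem_span_singleton]
    intro h
    obtain ⟨c, hc⟩ := h
    apply hβ.not_unit
    have h3 : β * 1 = β * (β * c) := by
      rw [mul_one]
      nth_rw 1 [hc]
      ring
    have h4 := mul_left_cancel₀ hβ.ne_zero h3
    exact IsUnit.of_mul_eq_one c h4.symm
  push_cast at h1 h2
  omega

theorem aux_prime {L : Type} [Field L] [NumberField L] [Algebra F L] [IsGalois F L] {m : Ideal (𝓞 F)}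
    {ψ : Ideal (𝓞 F) →*₀ 𝓞 F} (hψ : IsHecke m ψ) (Q : Pl L) (hv : IsCoprime (Q.under (𝓞 F)).asIdeal m)
    (hQ : (Ideal.absNorm Q.asIdeal).Prime) (he : es F L (Q.under (𝓞 F)) = 1) (β : 𝓞 F)
    (hβ : β = ψ (Q.under (𝓞 F)).asIdeal) :
    Prime β ∧ (Q.under (𝓞 F)).asIdeal = Ideal.span {β} ∧ Nm β = Ideal.absNorm Q.asIdeal ∧
      Ideal.absNorm (Q.under (𝓞 F)).asIdeal = Ideal.absNorm Q.asIdeal ∧
      (∀ v : Pl L, algebraMap (𝓞 F) (𝓞 L) β ∈ v.asIdeal ↔ ∃ σ : Gal(L/F), v = smulP σ Q) ∧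
      ∀ σ : Gal(L/F), (smulP σ Q).valuation L (algebraMap F L (β : F)) = WithZero.exp (-1 : ℤ) := by
  obtain ⟨v, hvd⟩ : ∃ v : Pl F, v = Q.under (𝓞 F) := ⟨_, rfl⟩
  rw [← hvd] at he hv hβ
  have hspan : v.asIdeal = Ideal.span {β} := by
    rw [hβ]
    exact (hψ.gen _ hv).symm
  have hβ0 : β ≠ 0 := by
    rintro rfl
    apply v.ne_bot
    rw [hspan, Ideal.span_singleton_eq_bot]
  have hprime : Prime β := by
    rw [← Ideal.span_singleton_prime hβ0, ← hspan]
    exact v.isPrime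
  have hfs := H55R.D5_norm v Q hvd.symm
  have hfs1 : fs F L v = 1 := by
    rw [hfs] at hQ
    exact Nat.Prime.eq_one_of_pow hQ
  rw [hfs1, pow_one] at hfs
  have hNm : Nm β = Ideal.absNorm Q.asIdeal := by
    rw [hfs]
    unfold H55P.Nm
    rw [← hspan]
  rw [← hvd]
  refine ⟨hprime, hspan, hNm, hfs.symm, ?_, ?_⟩
  · intro v'
    constructor
    · intro h
      have h1 : v.asIdeal ≤ (v'.under (𝓞 F)).asIdeal := by
        rw [hspan, Ideal.span_singleton_le_iff_mem]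
        exact h
      have h2 : v = v'.under (𝓞 F) :=
        HeightOneSpectrum.ext (v.isMaximal.eq_of_le (v'.under (𝓞 F)).isPrime.ne_top h1)
      obtain ⟨σ, hσ⟩ := H55R.smulP_trans (K := F) Q v' (hvd.symm.trans h2)
      exact ⟨σ, hσ.symm⟩
    · rintro ⟨σ, rfl⟩
      have h1 : β ∈ ((smulP σ Q).under (𝓞 F)).asIdeal := by
        rw [H55R.under_smulP, ← hvd, hspan]
        exact Ideal.mem_span_singleton_self _
      exact h1
  · intro σ
    have hβ0' : (β : F) ≠ 0 := by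
      intro h
      exact hβ0 (RingOfIntegers.coe_injective (h.trans (map_zero (algebraMap (𝓞 F) F)).symm))
    obtain ⟨x, hx⟩ : ∃ x : Fˣ, (x : F) = (β : F) := ⟨Units.mk0 _ hβ0', rfl⟩
    have h1 := H55R.ord_map (smulP σ Q) v ((H55R.under_smulP σ Q).trans hvd.symm) x
    rw [he, k6b_ord v hprime hspan x hx] at h1
    have h2 := H55R.BF1_val (smulP σ Q) (Units.map (algebraMap F L : F →* L) x)
    rw [h1] at h2
    have h3 : ((Units.map (algebraMap F L : F →* L) x : Lˣ) : L) = algebraMap F L (β : F) := by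
      show algebraMap F L (x : F) = _
      rw [hx]
    rw [h3] at h2
    rw [h2]
    norm_num

end H55K
end

-- from Lib.H55K.M0
section

/-! # H55K, part M: good models (definitions) -/

open NumberField WeierstrassCurve

namespace H55K.MG

open H55P (IQ Pt ac Inert)
open H35P (WAB Ker GoodW IntW)

/-- W' is obtained from W by the change of variables x = u^2 x' + r, y = u^3 y' + s u^2 x' + t. -/
structure VC {k : Type} [Field k] (W W' : WeierstrassCurve k) (u r s t : k) : Prop where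
  une : u ≠ 0
  h1 : u * W'.a₁ = W.a₁ + 2 * s
  h2 : u ^ 2 * W'.a₂ = W.a₂ - s * W.a₁ + 3 * r - s ^ 2
  h3 : u ^ 3 * W'.a₃ = W.a₃ + r * W.a₁ + 2 * t
  h4 : u ^ 4 * W'.a₄ = W.a₄ - s * W.a₃ + 2 * r * W.a₂ - (t + r * s) * W.a₁ + 3 * r ^ 2 - 2 * s * t
  h6 : u ^ 6 * W'.a₆ = W.a₆ + r * W.a₄ + r ^ 2 * W.a₂ + r ^ 3 - t * W.a₃ - t ^ 2 - r * t * W.a₁

/-- The isomorphism Θ of the groups of points is given by x = u^2 x' + r, y = u^3 y' + s u^2 x' + t. -/
def Crd {k : Type} [Field k] [DecidableEq k] {W W' : WeierstrassCurve k} (u r s t : k)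
    (Θ : W.toAffine.Point ≃+ W'.toAffine.Point) : Prop :=
  ∀ P, P ≠ 0 → Θ P ≠ 0 ∧ xc P = u ^ 2 * xc (Θ P) + r ∧
    yc P = u ^ 3 * yc (Θ P) + s * u ^ 2 * xc (Θ P) + t

end H55K.MG
end

-- from Lib.H55K.XD
section

/-!
# H55K: the interface between part U (elliptic units) and part K (fields)
-/

open NumberField IsDedekindDomain WeierstrassCurve

namespace H55K

open H55P (IQ embF eF LF Per IsHecke Pt ac Inert Dec Nm)
open H35P (WAB Ker tt)

variable {F : Type} [Field F] [NumberField F] [IQ F] {A B : F} {Ω : Type} [Field Ω] [DecidableEq Ω]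
  [Algebra F Ω]

/-- The elliptic unit Ξ (part U): a function on the points over Ω. -/
structure XiD (act : 𝓞 F →+* AddMonoid.End (Pt (WAB A B) Ω)) (ψ : Ideal (𝓞 F) →*₀ 𝓞 F) (π : 𝓞 F)
    (Ξ : Pt (WAB A B) Ω → Ω) : Prop where
  gal : ∀ (s : Ω ≃ₐ[F] Ω) (P : Pt (WAB A B) Ω), s (Ξ P) = Ξ (ac (WAB A B) s P)
  unit0 : ∀ T ∈ Tor act π, T ≠ 0 → ∀ V : ValuationSubring Ω, V.valuation (Ξ T) = 1
  exp : ∃ c : 𝓞 F, ¬ π ∣ c ∧ ∀ V : ValuationSubring Ω, V.valuation (ak Ω π) < 1 → ∀ T ∈ Tor act π, T ≠ 0 →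
    V.valuation (Ξ T - 1 - ak Ω c * tt T) ≤ V.valuation (tt T) ^ 2
  fin : ∃ S : Set (HeightOneSpectrum (𝓞 F)), S.Finite ∧ ∀ v ∉ S, (Ideal.absNorm v.asIdeal).Prime →
    ∀ T ∈ Tor act π, T ≠ 0 →
      (∀ R ∈ Tor act (ψ v.asIdeal), ∀ V : ValuationSubring Ω, V.valuation (Ξ (T + R)) = 1) ∧
      (∀ R ∈ Tor act (ψ v.asIdeal), ∀ V : ValuationSubring Ω, V.valuation (ak Ω (ψ v.asIdeal)) < 1 →
        V.valuation (Ξ (T + R) - Ξ T) < 1) ∧
      (act (ψ v.asIdeal) T = T → ∀ S' : Finset (Pt (WAB A B) Ω), TN act (ψ v.asIdeal) S' →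
        ∏ R ∈ S', Ξ (T + R) = 1)

end H55K
end

-- from Lib.H55P.R1
section

open NumberField IsDedekindDomain

namespace H55P

open H55N
open H55B (g)

variable {F : Type} [Field F] [NumberField F] [IQ F] {K : Type} [Field K] [NumberField K] [Algebra F K] {m : ℕ}

/-! Chunk R1 (M). Rules for HasReg. g is bounded (gw is a finite product of 1 or 1 - p_i). summable_cut: for h bounded on X and R >= 1 the
function g h cut is absolutely summable over X: |cut| <= C sz^(-2(m+2)) (cut_le; 0 is not in X), 2(m+2) > 2(m+1), sum_sz (restricted to the subtype X: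
Summable.subtype / comp_injective). Then add, smul, sum: tsum_add etc. for R >= 1 (Filter.Tendsto.congr'). unique: B = 1, tendsto_nhds_unique. congr: only
values on X matter. Jv_eq: definition and unique; Jv_congr. -/

theorem g_bdd (D : Ctx F K m) : ∃ C : ℝ, ∀ x, ‖D.g x‖ ≤ C := by
  refine ⟨∏ i, (1 + (D.p i : ℝ)), fun x => ?_⟩
  unfold Ctx.g gw
  rw [norm_prod]
  refine Finset.prod_le_prod (fun i _ => norm_nonneg _) fun i _ => ?_
  split_ifs
  · refine (norm_sub_le _ _).trans ?_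
    simp
  · simp

theorem summable_cut (D : Ctx F K m) (hD : D.Ok) (h : 𝓞 K → ℂ) (hb : ∃ C : ℝ, ∀ x ∈ D.X, ‖h x‖ ≤ C)
    (B : Matrix (Fin (m + 1)) (Fin (m + 1)) ℂ) (hB : B.det ≠ 0) (R : ℝ) (hR : 1 ≤ R) :
    Summable fun x : D.X => ‖h x * (D.cut B R x : ℂ)‖ := by
  obtain ⟨C, hC⟩ := hb
  obtain ⟨C', hC'⟩ := cut_le D hD.emb B hB R hR
  have h1 : Summable fun x : 𝓞 K => D.sz x ^ (-(2 * (m + 2) : ℝ)) :=
    sum_sz D hD.emb _ (by linarith)
  have h2 : Summable fun x : D.X => D.sz (x : 𝓞 K) ^ (-(2 * (m + 2) : ℝ)) :=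
    h1.comp_injective Subtype.val_injective
  refine (h2.mul_left (|C| * C')).of_nonneg_of_le (fun x => norm_nonneg _) fun x => ?_
  rw [norm_mul, Complex.norm_real, Real.norm_eq_abs, mul_assoc]
  have h3 := hC' x (D.X_ne hD.ne x.2)
  exact mul_le_mul ((hC x x.2).trans (le_abs_self C)) h3 (abs_nonneg _) (abs_nonneg _)

theorem r1_summable (D : Ctx F K m) (hD : D.Ok) (h : 𝓞 K → ℂ) (hb : ∃ C : ℝ, ∀ x ∈ D.X, ‖h x‖ ≤ C)
    (B : Matrix (Fin (m + 1)) (Fin (m + 1)) ℂ) (hB : B.det ≠ 0) (R : ℝ) (hR : 1 ≤ R) :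
    Summable fun x : D.X => D.g x * h x * (D.cut B R x : ℂ) := by
  apply Summable.of_norm
  apply summable_cut D hD (fun x => D.g x * h x) _ B hB R hR
  obtain ⟨C, hC⟩ := hb
  obtain ⟨C', hC'⟩ := g_bdd D
  refine ⟨C' * C, fun x hx => ?_⟩
  rw [norm_mul]
  exact mul_le_mul (hC' x) (hC x hx) (norm_nonneg _) ((norm_nonneg _).trans (hC' x))

theorem HasReg.unique (D : Ctx F K m) {h : 𝓞 K → ℂ} {S S' : ℂ} (h1 : D.HasReg h S)
    (h2 : D.HasReg h S') : S = S' := by
  have hB : (1 : Matrix (Fin (m + 1)) (Fin (m + 1)) ℂ).det ≠ 0 := by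
    rw [Matrix.det_one]
    exact one_ne_zero
  exact tendsto_nhds_unique (h1.2 1 hB) (h2.2 1 hB)

theorem HasReg.congr (D : Ctx F K m) {h k : 𝓞 K → ℂ} {S : ℂ} (h1 : D.HasReg h S)
    (hk : ∀ x ∈ D.X, h x = k x) : D.HasReg k S := by
  obtain ⟨⟨C, hC⟩, h2⟩ := h1
  refine ⟨⟨C, fun x hx => by rw [← hk x hx]; exact hC x hx⟩, fun B hB => ?_⟩
  refine (h2 B hB).congr fun R => ?_
  exact tsum_congr fun x => by rw [hk x x.2]

theorem HasReg.smul (D : Ctx F K m) {h : 𝓞 K → ℂ} {S : ℂ} (h1 : D.HasReg h S) (c : ℂ) :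
    D.HasReg (fun x => c * h x) (c * S) := by
  obtain ⟨⟨C, hC⟩, h2⟩ := h1
  refine ⟨⟨‖c‖ * C, fun x hx => ?_⟩, fun B hB => ?_⟩
  · rw [norm_mul]
    exact mul_le_mul_of_nonneg_left (hC x hx) (norm_nonneg _)
  · refine ((h2 B hB).const_mul c).congr fun R => ?_
    rw [← tsum_mul_left]
    exact tsum_congr fun x => by ring

theorem HasReg.add (D : Ctx F K m) (hD : D.Ok) {h k : 𝓞 K → ℂ} {S S' : ℂ} (h1 : D.HasReg h S)
    (h2 : D.HasReg k S') : D.HasReg (fun x => h x + k x) (S + S') := by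
  obtain ⟨⟨C, hC⟩, h3⟩ := h1
  obtain ⟨⟨C', hC'⟩, h4⟩ := h2
  refine ⟨⟨C + C', fun x hx => (norm_add_le _ _).trans (add_le_add (hC x hx) (hC' x hx))⟩,
    fun B hB => ?_⟩
  refine ((h3 B hB).add (h4 B hB)).congr' ?_
  filter_upwards [Filter.eventually_ge_atTop 1] with R hR
  rw [← (r1_summable D hD h ⟨C, hC⟩ B hB R hR).tsum_add (r1_summable D hD k ⟨C', hC'⟩ B hB R hR)]
  exact tsum_congr fun x => by ring

theorem HasReg.zero (D : Ctx F K m) : D.HasReg (fun _ => 0) 0 := by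
  refine ⟨⟨0, fun x _ => by simp⟩, fun B _ => ?_⟩
  simp

theorem HasReg.sum (D : Ctx F K m) (hD : D.Ok) {κ : Type} (s : Finset κ) (h : κ → 𝓞 K → ℂ)
    (S : κ → ℂ) (h1 : ∀ i ∈ s, D.HasReg (h i) (S i)) :
    D.HasReg (fun x => ∑ i ∈ s, h i x) (∑ i ∈ s, S i) := by
  classical
  induction s using Finset.induction_on with
  | empty =>
    simp only [Finset.sum_empty]
    exact HasReg.zero D
  | insert a s ha ih =>
    simp only [Finset.sum_insert ha]
    exact HasReg.add D hD (h1 a (Finset.mem_insert_self a s))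
      (ih fun i hi => h1 i (Finset.mem_insert_of_mem hi))

theorem Jv_eq (D : Ctx F K m) {L : Fin (m + 1) → Lab K m} {S : ℂ} (h : D.HasReg (D.Idet L) S) :
    D.Jv L = S := by
  have h1 : ∃ S, D.HasReg (D.Idet L) S := ⟨S, h⟩
  unfold Ctx.Jv
  rw [dif_pos h1]
  exact HasReg.unique D h1.choose_spec h

/-- Degenerate simplices: two equal rows. -/
theorem Jv_degenerate (D : Ctx F K m) (L : Fin (m + 1) → Lab K m)
    (h : ∃ j : Fin m, L j.castSucc = L j.succ) : D.Jv L = 0 := by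
  obtain ⟨j, hj⟩ := h
  apply Jv_eq
  refine HasReg.congr D (HasReg.zero D) fun x _ => ?_
  symm
  unfold Ctx.Idet
  have hne : j.castSucc ≠ j.succ := (Fin.castSucc_lt_succ).ne
  refine Matrix.det_zero_of_row_eq hne ?_
  funext i
  simp only [Matrix.of_apply]
  rw [hj]

end H55P
end

-- from Lib.H55P.R5
section

open NumberField IsDedekindDomain

namespace H55P

open H55N
open H55B (g)

variable {F : Type} [Field F] [NumberField F] [IQ F] {K : Type} [Field K] [NumberField K] [Algebra F K] {m : ℕ}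

/-! Chunk R5 (M). Invariance under units v with v X = X and N(v) = 1.
Idet(v L)(x) = Idet(L)(v x): row(v.T t)(x)_i = conj(x_i)|v_i|^2 t_i / sum_k |v_k|^2 t_k |x_k|^2 = v_i row(T t)(v x)_i, and
row(v.A a)(x)_i = v_i a_i/Tr(v a x) = v_i row(A a)(v x)_i; the columns give prod v_i = 1 (Matrix.det_mul_row). x -> v x is a bijection of X
(v x - c0 = v (x - c0) + (v - 1) c0; inverse v^(-1)), g(v x) = g(x) (x in c_i iff v x in c_i), and cut B R x = cut (B diag(σ_j v)^(-1)) R (v x). So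
HasReg (Idet L) S implies HasReg (Idet (v L)) S (for B use B diag(σ_j v)^(-1), of nonzero determinant), and conversely with v^(-1)
(act v (act v^(-1) l) = l). Jv: by cases on existence. -/

omit [NumberField K] [Algebra F K] in
theorem R5_mul (s : K →+* ℂ) (v x : 𝓞 K) : s ((v * x : 𝓞 K) : K) = s (v : K) * s (x : K) := by
  have h : ((v * x : 𝓞 K) : K) = (v : K) * (x : K) := map_mul (algebraMap (𝓞 K) K) v x
  rw [h, map_mul]

theorem R5_row (D : Ctx F K m) (v : (𝓞 K)ˣ) (l : Lab K m) (x : 𝓞 K) (i : Fin (m + 1)) :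
    D.row (D.act v l) x i = D.σ i ((v : 𝓞 K) : K) * D.row l (v * x) i := by
  cases l with
  | T t =>
    show (starRingEnd ℂ) (D.σ i x) * ((‖D.σ i ((v : 𝓞 K) : K)‖ ^ 2 * t i : ℝ) : ℂ) /
        (D.Q (fun i => ‖D.σ i ((v : 𝓞 K) : K)‖ ^ 2 * t i) x : ℂ) =
      D.σ i ((v : 𝓞 K) : K) * ((starRingEnd ℂ) (D.σ i ((v * x : 𝓞 K) : K)) * t i / D.Q t (v * x))
    have hQ : D.Q (fun i => ‖D.σ i ((v : 𝓞 K) : K)‖ ^ 2 * t i) x = D.Q t (v * x) := by
      unfold Ctx.Q
      refine Finset.sum_congr rfl fun k _ => ?_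
      have h := R5_mul (D.σ k) (v : 𝓞 K) x
      show ‖D.σ k ((v : 𝓞 K) : K)‖ ^ 2 * t k * ‖D.σ k (x : K)‖ ^ 2 =
        t k * ‖D.σ k (((v : 𝓞 K) * x : 𝓞 K) : K)‖ ^ 2
      rw [h, norm_mul]
      ring
    rw [hQ]
    have h1 : ((‖D.σ i ((v : 𝓞 K) : K)‖ ^ 2 * t i : ℝ) : ℂ) =
        D.σ i ((v : 𝓞 K) : K) * (starRingEnd ℂ) (D.σ i ((v : 𝓞 K) : K)) * t i := by
      rw [Complex.mul_conj, Complex.normSq_eq_norm_sq]
      push_cast
      ring
    rw [h1, R5_mul (D.σ i) (v : 𝓞 K) x, map_mul]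
    ring
  | A a =>
    show D.σ i (((v : 𝓞 K) : K) * a) / D.Tr (((v : 𝓞 K) : K) * a) x =
      D.σ i ((v : 𝓞 K) : K) * (D.σ i a / D.Tr a (v * x))
    have hT : D.Tr (((v : 𝓞 K) : K) * a) x = D.Tr a (v * x) := by
      unfold Ctx.Tr
      refine Finset.sum_congr rfl fun k _ => ?_
      congr 1
      have h : (((v : 𝓞 K) * x : 𝓞 K) : K) = ((v : 𝓞 K) : K) * (x : K) :=
        map_mul (algebraMap (𝓞 K) K) (v : 𝓞 K) x
      rw [h]
      ring
    rw [hT, map_mul]
    ring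

theorem R5_Idet (D : Ctx F K m) (v : (𝓞 K)ˣ) (hN : ∏ i, D.σ i ((v : 𝓞 K) : K) = 1)
    (L : Fin (m + 1) → Lab K m) (x : 𝓞 K) :
    D.Idet (fun j => D.act v (L j)) x = D.Idet L (v * x) := by
  unfold Ctx.Idet
  have h1 : (Matrix.of fun j i => D.row (D.act v (L j)) x i) =
      Matrix.of fun j i => D.σ i ((v : 𝓞 K) : K) * (Matrix.of fun j i => D.row (L j) (v * x) i) j i := by
    ext j i
    simp only [Matrix.of_apply]
    exact R5_row D v (L j) x i
  rw [h1, Matrix.det_mul_row, hN, one_mul]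

theorem R5_inv (D : Ctx F K m) (v : (𝓞 K)ˣ) (hv : ((v : 𝓞 K) - 1) * D.c₀ ∈ D.I) :
    (((v⁻¹ : (𝓞 K)ˣ) : 𝓞 K) - 1) * D.c₀ ∈ D.I := by
  have h1 : (((v⁻¹ : (𝓞 K)ˣ) : 𝓞 K) - 1) * D.c₀ =
      -((v⁻¹ : (𝓞 K)ˣ) : 𝓞 K) * (((v : 𝓞 K) - 1) * D.c₀) := by
    have h2 : ((v⁻¹ : (𝓞 K)ˣ) : 𝓞 K) * (v : 𝓞 K) = 1 := v.inv_mul
    linear_combination (D.c₀) * h2
  rw [h1]
  exact D.I.mul_mem_left _ hv

theorem R5_memX (D : Ctx F K m) (v : (𝓞 K)ˣ) (hv : ((v : 𝓞 K) - 1) * D.c₀ ∈ D.I) {x : 𝓞 K}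
    (hx : x ∈ D.X) : (v : 𝓞 K) * x ∈ D.X := by
  rw [Ctx.mem_X] at hx ⊢
  have : (v : 𝓞 K) * x - D.c₀ = v * (x - D.c₀) + (v - 1) * D.c₀ := by ring
  rw [this]
  exact D.I.add_mem (D.I.mul_mem_left _ hx) hv

/-- Multiplication by v as a permutation of X. -/
noncomputable def R5_equiv (D : Ctx F K m) (v : (𝓞 K)ˣ) (hv : ((v : 𝓞 K) - 1) * D.c₀ ∈ D.I) :
    D.X ≃ D.X where
  toFun x := ⟨v * x, R5_memX D v hv x.2⟩
  invFun x := ⟨((v⁻¹ : (𝓞 K)ˣ) : 𝓞 K) * x, R5_memX D v⁻¹ (R5_inv D v hv) x.2⟩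
  left_inv x := by
    apply Subtype.ext
    show ((v⁻¹ : (𝓞 K)ˣ) : 𝓞 K) * (v * x) = x
    rw [← mul_assoc, v.inv_mul, one_mul]
  right_inv x := by
    apply Subtype.ext
    show (v : 𝓞 K) * (((v⁻¹ : (𝓞 K)ˣ) : 𝓞 K) * x) = x
    rw [← mul_assoc, v.mul_inv, one_mul]

theorem R5_g (D : Ctx F K m) (v : (𝓞 K)ˣ) (x : 𝓞 K) : D.g (v * x) = D.g x := by
  classical
  unfold Ctx.g gw
  refine Finset.prod_congr rfl fun i _ => ?_
  have h : (v : 𝓞 K) * x ∈ D.c i ↔ x ∈ D.c i := by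
    constructor
    · intro h
      have h2 := (D.c i).mul_mem_left ((v⁻¹ : (𝓞 K)ˣ) : 𝓞 K) h
      rwa [← mul_assoc, v.inv_mul, one_mul] at h2
    · exact fun h => (D.c i).mul_mem_left _ h
  by_cases hx : x ∈ D.c i
  · rw [if_pos (h.2 hx), if_pos hx]
  · rw [if_neg (fun h' => hx (h.1 h')), if_neg hx]

theorem R5_ne (D : Ctx F K m) (v : (𝓞 K)ˣ) (j : Fin (m + 1)) : D.σ j ((v : 𝓞 K) : K) ≠ 0 :=
  (map_ne_zero _).2 (NumberField.Units.coe_ne_zero _)

theorem R5_cut (D : Ctx F K m) (v : (𝓞 K)ˣ) (B : Matrix (Fin (m + 1)) (Fin (m + 1)) ℂ) (R : ℝ)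
    (x : 𝓞 K) : D.cut (B * Matrix.diagonal fun j => (D.σ j ((v : 𝓞 K) : K))⁻¹) R (v * x) =
      D.cut B R x := by
  unfold Ctx.cut
  have h : ∀ i, ∑ j, (B * Matrix.diagonal fun j => (D.σ j ((v : 𝓞 K) : K))⁻¹) i j *
      D.σ j ((v * x : 𝓞 K) : K) = ∑ j, B i j * D.σ j x := by
    intro i
    refine Finset.sum_congr rfl fun j _ => ?_
    rw [Matrix.mul_diagonal, R5_mul (D.σ j) (v : 𝓞 K) x]
    have := R5_ne D v j
    field_simp
  simp only [h]

theorem R5_reg (D : Ctx F K m) (v : (𝓞 K)ˣ) (hv : ((v : 𝓞 K) - 1) * D.c₀ ∈ D.I)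
    {h : 𝓞 K → ℂ} {S : ℂ} (hS : D.HasReg h S) : D.HasReg (fun x => h (v * x)) S := by
  obtain ⟨⟨C, hC⟩, hB⟩ := hS
  refine ⟨⟨C, fun x hx => hC _ (R5_memX D v hv hx)⟩, fun B hdet => ?_⟩
  have hd : (B * Matrix.diagonal fun j => (D.σ j ((v : 𝓞 K) : K))⁻¹).det ≠ 0 := by
    rw [Matrix.det_mul, Matrix.det_diagonal]
    exact mul_ne_zero hdet (Finset.prod_ne_zero_iff.2 fun j _ => inv_ne_zero (R5_ne D v j))
  have h1 := hB _ hd
  refine h1.congr fun R => ?_
  rw [← (R5_equiv D v hv).tsum_eq]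
  refine tsum_congr fun x => ?_
  show D.g (v * x) * h (v * x) * (D.cut _ R (v * x) : ℂ) = _
  rw [R5_g, R5_cut]

theorem reg_act (D : Ctx F K m) (v : (𝓞 K)ˣ) (hv : ((v : 𝓞 K) - 1) * D.c₀ ∈ D.I)
    (hN : ∏ i, D.σ i ((v : 𝓞 K) : K) = 1) (L : Fin (m + 1) → Lab K m) (S : ℂ) :
    D.HasReg (D.Idet fun j => D.act v (L j)) S ↔ D.HasReg (D.Idet L) S := by
  have h1 : (D.Idet fun j => D.act v (L j)) = fun x => D.Idet L (v * x) :=
    funext fun x => R5_Idet D v hN L x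
  rw [h1]
  constructor
  · intro h
    have h2 := R5_reg D v⁻¹ (R5_inv D v hv) h
    have h3 : (fun x : 𝓞 K => D.Idet L (v * (((v⁻¹ : (𝓞 K)ˣ) : 𝓞 K) * x))) = D.Idet L := by
      funext x
      rw [← mul_assoc, v.mul_inv, one_mul]
    rwa [h3] at h2
  · exact fun h => R5_reg D v hv h

theorem Jv_act (D : Ctx F K m) (v : (𝓞 K)ˣ) (hv : ((v : 𝓞 K) - 1) * D.c₀ ∈ D.I)
    (hN : ∏ i, D.σ i ((v : 𝓞 K) : K) = 1) (L : Fin (m + 1) → Lab K m) :
    D.Jv (fun j => D.act v (L j)) = D.Jv L := by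
  by_cases h : ∃ S, D.HasReg (D.Idet L) S
  · obtain ⟨S, hS⟩ := h
    rw [Jv_eq D hS, Jv_eq D ((reg_act D v hv hN L S).2 hS)]
  · have h' : ¬ ∃ S, D.HasReg (D.Idet fun j => D.act v (L j)) S :=
      fun ⟨S, hS⟩ => h ⟨S, (reg_act D v hv hN L S).1 hS⟩
    unfold Ctx.Jv
    rw [dif_neg h, dif_neg h']

/-- The units v with v X = X. -/
def R5_sub (D : Ctx F K m) : Subgroup (𝓞 K)ˣ where
  carrier := {v | ((v : 𝓞 K) - 1) * D.c₀ ∈ D.I}
  one_mem' := by simp
  mul_mem' := by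
    intro a b ha hb
    have : ((a * b : (𝓞 K)ˣ) : 𝓞 K) - 1 = a * (b - 1) + (a - 1) := by push_cast; ring
    rw [Set.mem_ofPred_eq, this, add_mul, mul_assoc]
    exact D.I.add_mem (D.I.mul_mem_left _ hb) ha
  inv_mem' := fun {a} ha => R5_inv D a ha

/-- The units of norm one. -/
def R5_sub1 (D : Ctx F K m) : Subgroup (𝓞 K)ˣ where
  carrier := {v | ∏ i, D.σ i ((v : 𝓞 K) : K) = 1}
  one_mem' := by simp
  mul_mem' := by
    intro a b ha hb
    rw [Set.mem_ofPred_eq] at ha hb ⊢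
    simp only [Units.val_mul, map_mul, Finset.prod_mul_distrib, ha, hb, mul_one]
  inv_mem' := by
    intro a ha
    rw [Set.mem_ofPred_eq] at ha ⊢
    have h : (∏ i, D.σ i ((a : 𝓞 K) : K)) * ∏ i, D.σ i (((a⁻¹ : (𝓞 K)ˣ) : 𝓞 K) : K) = 1 := by
      rw [← Finset.prod_mul_distrib]
      refine Finset.prod_eq_one fun i _ => ?_
      rw [← map_mul, ← map_mul, a.mul_inv, map_one, map_one]
    rwa [ha, one_mul] at h

omit [NumberField K] [Algebra F K] in
theorem R5_coe (u : Fin m → (𝓞 K)ˣ) (z : Fin m → ℤ) (s : K →+* ℂ) :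
    s ((uu u z : 𝓞 K) : K) = ∏ j, (s ((u j : 𝓞 K) : K)) ^ z j := by
  let f : (𝓞 K)ˣ →* ℂˣ := Units.map ((s.comp (algebraMap (𝓞 K) K) : 𝓞 K →+* ℂ) : 𝓞 K →* ℂ)
  have h1 : f (uu u z) = ∏ j, f (u j) ^ z j := by
    unfold uu
    rw [map_prod]
    exact Finset.prod_congr rfl fun j _ => map_zpow f _ _
  have h2 := congrArg (fun t : ℂˣ => (t : ℂ)) h1
  simp only [Units.coe_prod, Units.val_zpow_eq_zpow_val] at h2
  exact h2

/-- The group generated by the units u. -/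
theorem uu_act (D : Ctx F K m) (u : Fin m → (𝓞 K)ˣ) (hu : D.UOk u) (z : Fin m → ℤ) :
    ((uu u z : 𝓞 K) - 1) * D.c₀ ∈ D.I ∧ ∏ i, D.σ i ((uu u z : 𝓞 K) : K) = 1 ∧
      ∀ i, ‖D.σ i ((uu u z : 𝓞 K) : K)‖ ^ 2 = Real.exp (∑ j, (z j : ℝ) * D.lm u i j) := by
  refine ⟨?_, ?_, ?_⟩
  · have : uu u z ∈ R5_sub D :=
      Subgroup.prod_mem _ fun j _ => Subgroup.zpow_mem _ (hu.act j) _
    exact this
  · have : uu u z ∈ R5_sub1 D :=
      Subgroup.prod_mem _ fun j _ => Subgroup.zpow_mem _ (hu.norm j) _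
    exact this
  · intro i
    rw [R5_coe, norm_prod, ← Finset.prod_pow, Real.exp_sum]
    refine Finset.prod_congr rfl fun j _ => ?_
    have h1 : 0 < ‖D.σ i ((u j : 𝓞 K) : K)‖ := norm_pos_iff.2 (R5_ne D (u j) i)
    have h2 : ‖D.σ i ((u j : 𝓞 K) : K) ^ z j‖ = Real.exp ((z j : ℝ) *
        Real.log ‖D.σ i ((u j : 𝓞 K) : K)‖) := by
      rw [norm_zpow, ← Real.log_zpow, Real.exp_log (zpow_pos h1 _)]
    rw [h2, ← Real.exp_nat_mul]
    congr 1
    unfold Ctx.lm
    push_cast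
    ring

theorem lm_sum (D : Ctx F K m) (u : Fin m → (𝓞 K)ˣ) (hu : D.UOk u) (j : Fin m) :
    ∑ i, D.lm u i j = 0 := by
  unfold Ctx.lm
  rw [← Finset.mul_sum, ← Real.log_prod (fun i _ => norm_ne_zero_iff.2 (R5_ne D (u j) i)),
    ← norm_prod, hu.norm j, norm_one, Real.log_one, mul_zero]

end H55P
end

-- from Lib.H55P.U3
section

open NumberField IsDedekindDomain MeasureTheory

namespace H55P

open H55N
open H55B (g)

variable {F : Type} [Field F] [NumberField F] [IQ F] {K : Type} [Field K] [NumberField K] [Algebra F K] {m : ℕ}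

/-! Chunk U3 (L). Unfolding. n = m+1, r = Re s > 3/2, lm = D.lm u, Fz(x) = g(x) conj N(x) Q_{tt z}(x)^(-n s).
(a) Q_{tt z}(u^a x) = Q_{tt(z+a)}(x) and N(u^a x) = N(x) (uu_act; tt lm (z + a) i = tt lm z i * |σ_i u^a|^2), g(u^a x) = g(x).
(b) sum_{x in X} int_[0,1]^m |Fz(x)| dz <= C sum_X sz^n sz^(-2 n r) < infinity (|N x| <= sz^n, Q >= c sz^2 uniformly for z in the cube (Q_low), 2nr - n > 2n, sum_sz).
So int_cube sum_X Fz(x) dz = sum_X int_cube Fz(x) dz (hasSum_integral_of_summable_integral_norm or integral_tsum).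
(c) By the bijection (a, x) -> u^a x from Z^m x T to X (T as in hbij; it maps into X by uu_act) the last sum is sum_{x in T} sum_a int_cube F_{z+a}(x) dz =
sum_{x in T} int_{R^m} Fz(x) dz (tiling) = sum_{x in T} g(x) conj N(x) (prod |x_i|^2)^(-s) cst(s) (shift_eq with y_i = |σ_i x|^2 > 0; x <> 0) and
(prod |x_i|^2)^(-s) conj N = |N x|^(-2s) conj N = nf F s x (norm_eq; cpow of a positive real).
(d) Absolute convergence of the sum over T: the same with g, s replaced by |g|, r (use norms: |g(x) nf F s x| cst(r) is the integral over R^m of |Fz(x)|, cst(r) > 0: cst_eq;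
tiling_lintegral or tiling for the norm). -/

theorem u3_sz_pos (D : Ctx F K m) (x : 𝓞 K) : 1 ≤ D.sz x := by
  unfold Ctx.sz
  have : 0 ≤ ∑ i, ‖D.σ i x‖ := Finset.sum_nonneg fun i _ => norm_nonneg _
  linarith

theorem u3_N_le (D : Ctx F K m) (x : 𝓞 K) : ‖D.N x‖ ≤ D.sz x ^ (m + 1) := by
  unfold Ctx.N
  rw [norm_prod]
  have h1 : ∀ i, ‖D.σ i x‖ ≤ D.sz x := by
    intro i
    unfold Ctx.sz
    have := Finset.single_le_sum (f := fun i => ‖D.σ i x‖) (fun i _ => norm_nonneg _)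
      (Finset.mem_univ i)
    linarith
  calc ∏ i, ‖D.σ i x‖ ≤ ∏ _i : Fin (m + 1), D.sz x :=
        Finset.prod_le_prod (fun i _ => norm_nonneg _) fun i _ => h1 i
    _ = D.sz x ^ (m + 1) := by simp

theorem u3_fs_le (D : Ctx F K m) (t : Fin (m + 1) → ℝ) (s : ℂ) (hs : 0 < s.re) (c : ℝ) (hc : 0 < c)
    (x : 𝓞 K) (hx : c * D.sz x ^ 2 ≤ D.Q t x) :
    ‖D.fs t s x‖ ≤ c ^ (-((m + 1 : ℕ) * s.re)) * D.sz x ^ (-((2 * s.re - 1) * (m + 1 : ℝ))) := by
  have hsz := u3_sz_pos D x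
  have hsz0 : 0 < D.sz x := by linarith
  have hcs : 0 < c * D.sz x ^ 2 := by positivity
  have hQ : 0 < D.Q t x := lt_of_lt_of_le hcs hx
  unfold Ctx.fs
  rw [norm_mul, RCLike.norm_conj, Complex.norm_cpow_eq_rpow_re_of_pos hQ]
  have hre : (-(((m + 1 : ℕ) : ℂ) * s)).re = -(((m + 1 : ℕ) : ℝ) * s.re) := by
    rw [Complex.neg_re, ← Complex.ofReal_natCast, Complex.re_ofReal_mul]
  rw [hre]
  have hneg : -(((m + 1 : ℕ) : ℝ) * s.re) ≤ 0 := by
    have : 0 ≤ ((m + 1 : ℕ) : ℝ) * s.re := by positivity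
    linarith
  have h1 : D.Q t x ^ (-(((m + 1 : ℕ) : ℝ) * s.re)) ≤
      (c * D.sz x ^ 2) ^ (-(((m + 1 : ℕ) : ℝ) * s.re)) :=
    Real.rpow_le_rpow_of_nonpos hcs hx hneg
  have h2 : (c * D.sz x ^ 2) ^ (-(((m + 1 : ℕ) : ℝ) * s.re)) =
      c ^ (-(((m + 1 : ℕ) : ℝ) * s.re)) * D.sz x ^ (2 * (-(((m + 1 : ℕ) : ℝ) * s.re))) := by
    rw [Real.mul_rpow hc.le (by positivity), Real.rpow_mul hsz0.le]
    norm_cast
  have h3 : D.sz x ^ (m + 1) * D.sz x ^ (2 * (-(((m + 1 : ℕ) : ℝ) * s.re))) =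
      D.sz x ^ (-((2 * s.re - 1) * (m + 1 : ℝ))) := by
    rw [← Real.rpow_natCast, ← Real.rpow_add hsz0]
    congr 1
    push_cast
    ring
  calc ‖D.N x‖ * D.Q t x ^ (-(((m + 1 : ℕ) : ℝ) * s.re))
      ≤ D.sz x ^ (m + 1) * (c ^ (-(((m + 1 : ℕ) : ℝ) * s.re)) *
          D.sz x ^ (2 * (-(((m + 1 : ℕ) : ℝ) * s.re)))) := by
        rw [← h2]
        exact mul_le_mul (u3_N_le D x) h1 (Real.rpow_nonneg hQ.le _) (by positivity)
    _ = c ^ (-(((m + 1 : ℕ) : ℝ) * s.re)) * (D.sz x ^ (m + 1) *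
          D.sz x ^ (2 * (-(((m + 1 : ℕ) : ℝ) * s.re)))) := by ring
    _ = _ := by rw [h3]

theorem u3_sum (D : Ctx F K m) (hE : Emb F D.σ) (s : ℂ) (hs : 3 / 2 < s.re) :
    Summable fun x : D.X => D.sz (x : 𝓞 K) ^ (-((2 * s.re - 1) * (m + 1 : ℝ))) := by
  have h := sum_sz D hE ((2 * s.re - 1) * (m + 1 : ℝ)) (by
    have : (0 : ℝ) < m + 1 := by positivity
    nlinarith)
  exact h.subtype D.X

/-- For Re s > 3/2 the family fs is absolutely summable over X. -/
theorem fs_summable (D : Ctx F K m) (hE : Emb F D.σ) (h0 : D.c₀ ∉ D.I) (t : Fin (m + 1) → ℝ)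
    (ht : ∀ i, 0 < t i) (s : ℂ) (hs : 3 / 2 < s.re) :
    Summable fun x : D.X => ‖D.fs t s (x : 𝓞 K)‖ := by
  obtain ⟨a, ha, hat⟩ : ∃ a : ℝ, 0 < a ∧ ∀ i, a ≤ t i := by
    obtain ⟨i, hi⟩ := Finite.exists_min t
    exact ⟨t i, ht i, hi⟩
  obtain ⟨c, hc, hQ⟩ := Q_low D hE a ha
  refine Summable.of_nonneg_of_le (fun x => norm_nonneg _) (fun x => ?_)
    ((u3_sum D hE s hs).mul_left (c ^ (-((m + 1 : ℕ) * s.re))))
  exact u3_fs_le D t s (by linarith) c hc x (hQ t hat x (D.X_ne h0 x.2))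

theorem u3_countable (K : Type) [Field K] [NumberField K] : Countable (𝓞 K) := by
  have eq1 := (NumberField.RingOfIntegers.basis K).equivFun
  exact eq1.toEquiv.countable_iff.2 inferInstance

/-- The translation of the parameter by the action of the units. -/
theorem u3_trans (D : Ctx F K m) (u : Fin m → (𝓞 K)ˣ) (hu : D.UOk u) (s : ℂ) (z : Fin m → ℝ)
    (a : Fin m → ℤ) (x : 𝓞 K) :
    D.fs (tt (D.lm u) z) s ((uu u a : 𝓞 K) * x) =
      D.fs (tt (D.lm u) fun k => z k + a k) s x := by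
  obtain ⟨-, h2, h3⟩ := uu_act D u hu a
  have hσ : ∀ i, D.σ i (((uu u a : 𝓞 K) * x : 𝓞 K) : K) =
      D.σ i ((uu u a : 𝓞 K) : K) * D.σ i (x : K) := by
    intro i
    rw [← map_mul]
    norm_cast
  have hN : D.N ((uu u a : 𝓞 K) * x) = D.N x := by
    unfold Ctx.N
    rw [Finset.prod_congr rfl fun i _ => hσ i, Finset.prod_mul_distrib, h2, one_mul]
  have hQ : D.Q (tt (D.lm u) z) ((uu u a : 𝓞 K) * x) =
      D.Q (tt (D.lm u) fun k => z k + a k) x := by
    unfold Ctx.Q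
    refine Finset.sum_congr rfl fun i _ => ?_
    rw [hσ i, norm_mul, mul_pow, h3 i, ← mul_assoc]
    congr 1
    unfold tt
    rw [← Real.exp_add]
    congr 1
    rw [← Finset.sum_add_distrib]
    exact Finset.sum_congr rfl fun j _ => by ring
  unfold Ctx.fs
  rw [hN, hQ]

theorem u3_pos (D : Ctx F K m) (x : 𝓞 K) (hx : x ≠ 0) (i : Fin (m + 1)) : 0 < ‖D.σ i x‖ ^ 2 := by
  have h1 : (x : K) ≠ 0 := by exact_mod_cast hx
  have h2 : D.σ i x ≠ 0 := by
    rw [Ne, map_eq_zero]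
    exact h1
  have := norm_pos_iff.2 h2
  positivity

theorem u3_integrable (D : Ctx F K m) (u : Fin m → (𝓞 K)ˣ) (hu : D.UOk u) (s : ℂ) (hs : 0 < s.re)
    (x : 𝓞 K) (hx : x ≠ 0) : Integrable fun z : Fin m → ℝ => D.fs (tt (D.lm u) z) s x :=
  (shift_integrable (D.lm u) (lm_sum D u hu) hu.reg s hs (fun i => ‖D.σ i x‖ ^ 2)
    (u3_pos D x hx)).const_mul ((starRingEnd ℂ) (D.N x))

theorem u3_nf (D : Ctx F K m) (hE : Emb F D.σ) (s : ℂ) (x : 𝓞 K) (hx : x ≠ 0) :
    (starRingEnd ℂ) (D.N x) * (((∏ i, ‖D.σ i x‖ ^ 2 : ℝ) : ℂ) ^ (-s)) = nf F s x := by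
  have hN : D.N x = (embF F) (Algebra.norm F (x : K)) := norm_eq hE _
  have hpos : 0 < ‖D.N x‖ := by
    unfold Ctx.N
    rw [norm_prod]
    refine Finset.prod_pos fun i _ => ?_
    have := u3_pos D x hx i
    exact lt_of_le_of_ne (norm_nonneg _) fun h => by
      rw [← h] at this
      norm_num at this
  have h1 : (∏ i, ‖D.σ i x‖ ^ 2 : ℝ) = ‖D.N x‖ * ‖D.N x‖ := by
    rw [Finset.prod_pow]
    unfold Ctx.N
    rw [norm_prod, sq]
  unfold nf H55B.g
  rw [← hN, h1, Complex.ofReal_mul, Complex.mul_cpow_ofReal_nonneg hpos.le hpos.le,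
    ← Complex.cpow_add _ _ (by exact_mod_cast hpos.ne')]
  congr 2
  ring

theorem u3_integral (D : Ctx F K m) (hE : Emb F D.σ) (u : Fin m → (𝓞 K)ˣ) (hu : D.UOk u) (s : ℂ)
    (hs : 0 < s.re) (x : 𝓞 K) (hx : x ≠ 0) :
    ∫ z : Fin m → ℝ, D.fs (tt (D.lm u) z) s x = nf F s x * cst (D.lm u) s := by
  have h := shift_eq (D.lm u) (lm_sum D u hu) hu.reg s hs (fun i => ‖D.σ i x‖ ^ 2)
    (u3_pos D x hx)
  have h2 : ∫ z : Fin m → ℝ, D.fs (tt (D.lm u) z) s x =
      (starRingEnd ℂ) (D.N x) * ∫ z : Fin m → ℝ,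
        ((∑ i, tt (D.lm u) z i * ‖D.σ i x‖ ^ 2 : ℝ) : ℂ) ^ (-((m + 1 : ℕ) * s)) := by
    rw [← integral_const_mul]
    rfl
  rw [h2, h, ← mul_assoc, u3_nf D hE s x hx]

theorem u3_mem (D : Ctx F K m) (u : Fin m → (𝓞 K)ˣ) (hu : D.UOk u) (a : Fin m → ℤ) (x : 𝓞 K)
    (hx : x ∈ D.X) : (uu u a : 𝓞 K) * x ∈ D.X := by
  obtain ⟨h1, -, -⟩ := uu_act D u hu a
  rw [D.mem_X] at hx ⊢
  have : (uu u a : 𝓞 K) * x - D.c₀ = (uu u a : 𝓞 K) * (x - D.c₀) +
      ((uu u a : 𝓞 K) - 1) * D.c₀ := by ring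
  rw [this]
  exact D.I.add_mem (D.I.mul_mem_left _ hx) h1

/-- The bijection. -/
noncomputable def u3E (D : Ctx F K m) (u : Fin m → (𝓞 K)ˣ) (hu : D.UOk u) (T : Set (𝓞 K))
    (hT : T ⊆ D.X)
    (hbij : ∀ x ∈ D.X, ∃! q : (Fin m → ℤ) × T, x = (uu u q.1 : 𝓞 K) * q.2) :
    T × (Fin m → ℤ) ≃ D.X :=
  Equiv.ofBijective (fun q => ⟨(uu u q.2 : 𝓞 K) * q.1, u3_mem D u hu q.2 q.1 (hT q.1.2)⟩) (by
    constructor
    · rintro ⟨x, a⟩ ⟨y, b⟩ h
      have h1 : (uu u a : 𝓞 K) * x = (uu u b : 𝓞 K) * y := congrArg Subtype.val h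
      obtain ⟨q, hq, hq'⟩ := hbij _ (u3_mem D u hu a x (hT x.2))
      have e1 := hq' (a, x) rfl
      have e2 := hq' (b, y) h1
      have e3 := e1.trans e2.symm
      rw [Prod.mk.injEq] at e3
      rw [Prod.mk.injEq]
      exact ⟨e3.2, e3.1⟩
    · rintro ⟨x, hx⟩
      obtain ⟨q, hq, -⟩ := hbij x hx
      exact ⟨(q.2, q.1), Subtype.ext hq.symm⟩)

theorem u3_vol {m : ℕ} : volume.real (Set.Icc (0 : Fin m → ℝ) 1) = 1 := by
  rw [Measure.real, Real.volume_Icc_pi]
  simp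

theorem u3_tt {m : ℕ} (lm : Fin (m + 1) → Fin m → ℝ) : ∃ a : ℝ, 0 < a ∧
    ∀ z ∈ Set.Icc (0 : Fin m → ℝ) 1, ∀ i, a ≤ tt lm z i := by
  obtain ⟨i0, h0⟩ := Finite.exists_max fun i : Fin (m + 1) => ∑ j, |lm i j|
  refine ⟨Real.exp (-∑ j, |lm i0 j|), Real.exp_pos _, fun z hz i => ?_⟩
  unfold tt
  apply Real.exp_le_exp.2
  have h1 : -∑ j, |lm i j| ≤ ∑ j, z j * lm i j := by
    rw [← Finset.sum_neg_distrib]
    refine Finset.sum_le_sum fun j _ => ?_
    have hz0 : 0 ≤ z j := hz.1 j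
    have hz1 : z j ≤ 1 := hz.2 j
    have h2 : |z j * lm i j| ≤ |lm i j| := by
      rw [abs_mul, abs_of_nonneg hz0]
      exact mul_le_of_le_one_left (abs_nonneg _) hz1
    have := (abs_le.1 h2).1
    exact this
  have h3 : ∑ j, |lm i j| ≤ ∑ j, |lm i0 j| := h0 i
  linarith

theorem unfold (D : Ctx F K m) (hE : Emb F D.σ) (h0 : D.c₀ ∉ D.I) (u : Fin m → (𝓞 K)ˣ) (hu : D.UOk u)
    (g : 𝓞 K → ℂ) (hgb : ∃ C : ℝ, ∀ x, ‖g x‖ ≤ C)
    (hgu : ∀ x ∈ D.X, ∀ z, g ((uu u z : 𝓞 K) * x) = g x) (T : Set (𝓞 K)) (hT : T ⊆ D.X)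
    (hbij : ∀ x ∈ D.X, ∃! q : (Fin m → ℤ) × T, x = (uu u q.1 : 𝓞 K) * q.2) (s : ℂ)
    (hs : 3 / 2 < s.re) :
    (Summable fun x : T => ‖g x * nf F s (x : 𝓞 K)‖) ∧
    (∑' x : T, g x * nf F s (x : 𝓞 K)) * cst (D.lm u) s =
      ∫ z in Set.Icc (0 : Fin m → ℝ) 1, ∑' x : D.X, g x * D.fs (tt (D.lm u) z) s x := by
  have hs0 : 0 < s.re := by linarith
  have := u3_countable K
  obtain ⟨C, hC⟩ := hgb
  have hC0 : 0 ≤ C := (norm_nonneg _).trans (hC 0)
  obtain ⟨a, ha, hat⟩ := u3_tt (D.lm u)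
  obtain ⟨c, hc, hQ⟩ := Q_low D hE a ha
  have hint : ∀ x : 𝓞 K, x ≠ 0 →
      Integrable fun z : Fin m → ℝ => g x * D.fs (tt (D.lm u) z) s x := fun x hx =>
    (u3_integrable D u hu s hs0 x hx).const_mul (g x)
  -- the bound on the cube
  have hbd : ∀ x : D.X, ∫ z in Set.Icc (0 : Fin m → ℝ) 1, ‖g x * D.fs (tt (D.lm u) z) s x‖ ≤
      (C * c ^ (-((m + 1 : ℕ) * s.re))) * D.sz (x : 𝓞 K) ^ (-((2 * s.re - 1) * (m + 1 : ℝ))) := by
    intro x
    have hx := D.X_ne h0 x.2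
    have h1 : ∫ z in Set.Icc (0 : Fin m → ℝ) 1, ‖g x * D.fs (tt (D.lm u) z) s x‖ ≤
        ∫ z in Set.Icc (0 : Fin m → ℝ) 1, (C * c ^ (-((m + 1 : ℕ) * s.re))) *
          D.sz (x : 𝓞 K) ^ (-((2 * s.re - 1) * (m + 1 : ℝ))) := by
      refine setIntegral_mono_on (hint x hx).norm.integrableOn ?_ measurableSet_Icc ?_
      · exact integrableOn_const (by
          rw [Real.volume_Icc_pi]
          simp)
      · intro z hz
        rw [norm_mul, mul_assoc]
        refine mul_le_mul (hC x) ?_ (norm_nonneg _) hC0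
        exact u3_fs_le D _ s hs0 c hc x (hQ _ (hat z hz) x hx)
    refine h1.trans (le_of_eq ?_)
    rw [setIntegral_const, u3_vol, one_smul]
  have hsum1 : Summable fun x : D.X =>
      ∫ z in Set.Icc (0 : Fin m → ℝ) 1, ‖g x * D.fs (tt (D.lm u) z) s x‖ :=
    Summable.of_nonneg_of_le (fun x => integral_nonneg fun z => norm_nonneg _) hbd
      ((u3_sum D hE s hs).mul_left _)
  have hs1 := hasSum_integral_of_summable_integral_norm
    (μ := volume.restrict (Set.Icc (0 : Fin m → ℝ) 1))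
    (F := fun (x : D.X) (z : Fin m → ℝ) => g x * D.fs (tt (D.lm u) z) s x)
    (fun x => (hint x (D.X_ne h0 x.2)).integrableOn) hsum1
  have hs2 := (u3E D u hu T hT hbij).hasSum_iff.2 hs1
  have hs3 : HasSum (fun x : T => ∫ z : Fin m → ℝ, g x * D.fs (tt (D.lm u) z) s x)
      (∫ z in Set.Icc (0 : Fin m → ℝ) 1, ∑' x : D.X, g x * D.fs (tt (D.lm u) z) s x) := by
    refine hs2.prod_fiberwise fun x => ?_
    have hx := D.X_ne h0 (hT x.2)
    have h1 := tiling (fun z => g x * D.fs (tt (D.lm u) z) s x) (hint x hx)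
    have h2 : (fun b : Fin m → ℤ => ((fun x : D.X => ∫ z in Set.Icc (0 : Fin m → ℝ) 1,
        g x * D.fs (tt (D.lm u) z) s x) ∘ (u3E D u hu T hT hbij)) (x, b)) =
        fun b : Fin m → ℤ => ∫ z in Set.Icc (0 : Fin m → ℝ) 1,
          (fun z => g x * D.fs (tt (D.lm u) z) s x) (fun k => z k + b k) := by
      funext b
      show ∫ z in Set.Icc (0 : Fin m → ℝ) 1, g ((uu u b : 𝓞 K) * x) *
        D.fs (tt (D.lm u) z) s ((uu u b : 𝓞 K) * x) = _
      refine integral_congr_ae (Filter.Eventually.of_forall fun z => ?_)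
      show g ((uu u b : 𝓞 K) * x) * D.fs (tt (D.lm u) z) s ((uu u b : 𝓞 K) * x) =
        g x * D.fs (tt (D.lm u) fun k => z k + b k) s x
      rw [hgu x (hT x.2) b, u3_trans D u hu]
    rw [h2]
    exact h1
  have hcst : cst (D.lm u) s ≠ 0 := by
    intro h
    have h1 := cst_eq (D.lm u) (lm_sum D u hu) hu.reg s hs0
    rw [h, mul_zero, zero_mul] at h1
    exact pow_ne_zero (m + 1) (Complex.Gamma_ne_zero_of_re_pos hs0) h1.symm
  have hs4 : HasSum (fun x : T => (g x * nf F s (x : 𝓞 K)) * cst (D.lm u) s)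
      (∫ z in Set.Icc (0 : Fin m → ℝ) 1, ∑' x : D.X, g x * D.fs (tt (D.lm u) z) s x) := by
    have h1 : (fun x : T => (g x * nf F s (x : 𝓞 K)) * cst (D.lm u) s) =
        fun x : T => ∫ z : Fin m → ℝ, g x * D.fs (tt (D.lm u) z) s x := by
      funext x
      rw [integral_const_mul, u3_integral D hE u hu s hs0 x (D.X_ne h0 (hT x.2)), mul_assoc]
    rw [h1]
    exact hs3
  refine ⟨((summable_mul_right_iff hcst).1 hs4.summable).norm, ?_⟩
  rw [← tsum_mul_right]
  exact hs4.tsum_eq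

end H55P
end

-- from Lib.H55P.U5
section

open NumberField IsDedekindDomain MeasureTheory

namespace H55P

open H55N
open H55B (g)

variable {F : Type} [Field F] [NumberField F] [IQ F] {K : Type} [Field K] [NumberField K]
  [Algebra F K] {m : ℕ}

/-! Chunk PU5a (S/M), PORT of U5_gam, U5_fs_one, zfun of Lib/H55N/U5.lean (no change but the namespace: Ctx F K m, Emb F, nf F). -/

/-- The gamma factors. -/
theorem U5_gam (D : Ctx F K m) (u : Fin m → (𝓞 K)ˣ) (hu : D.UOk u) (V : ℂ → ℂ) (r : ℝ) (hr : 0 ≤ r)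
    (hV : AnalyticOnNhd ℂ V {s | r < s.re}) : AnalyticOnNhd ℂ (fun s => V s *
      ((|Delta (D.lm u)| : ℝ) : ℂ) * Complex.Gamma ((m + 1 : ℕ) * s) / Complex.Gamma s ^ (m + 1))
      {s | r < s.re} ∧
    ∀ s : ℂ, 0 < s.re → ∀ S : ℂ, S * cst (D.lm u) s = V s → V s *
      ((|Delta (D.lm u)| : ℝ) : ℂ) * Complex.Gamma ((m + 1 : ℕ) * s) / Complex.Gamma s ^ (m + 1) =
        S := by
  have hopen : IsOpen {s : ℂ | r < s.re} := isOpen_lt continuous_const Complex.continuous_re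
  have hpos : ∀ s : ℂ, r < s.re → 0 < s.re := fun s hs => lt_of_le_of_lt hr hs
  have hne : ∀ s : ℂ, 0 < s.re → ∀ k : ℕ, s ≠ -(k : ℂ) := by
    intro s hs k hk
    rw [hk] at hs
    simp only [Complex.neg_re, Complex.natCast_re] at hs
    have : (0 : ℝ) ≤ k := Nat.cast_nonneg k
    linarith
  have hG : AnalyticOnNhd ℂ Complex.Gamma {s | r < s.re} := by
    apply DifferentiableOn.analyticOnNhd _ hopen
    intro s hs
    exact (Complex.differentiableAt_Gamma s (hne s (hpos s hs))).differentiableWithinAt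
  have hG2 : AnalyticOnNhd ℂ (fun s => Complex.Gamma ((m + 1 : ℕ) * s)) {s | r < s.re} := by
    apply DifferentiableOn.analyticOnNhd _ hopen
    intro s hs
    have h1 : 0 < (((m + 1 : ℕ) : ℂ) * s).re := by
      rw [← Complex.ofReal_natCast, Complex.re_ofReal_mul]
      have := hpos s hs
      positivity
    have h2 := Complex.differentiableAt_Gamma _ (hne _ h1)
    exact (h2.comp s ((differentiableAt_const _).mul differentiableAt_id)).differentiableWithinAt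
  constructor
  · exact ((hV.mul analyticOnNhd_const).mul hG2).div (hG.pow _) fun s hs =>
      pow_ne_zero _ (Complex.Gamma_ne_zero_of_re_pos (hpos s hs))
  · intro s hs S hS
    have h1 := cst_eq (D.lm u) (lm_sum D u hu) hu.reg s hs
    have h2 : Complex.Gamma s ^ (m + 1) ≠ 0 :=
      pow_ne_zero _ (Complex.Gamma_ne_zero_of_re_pos hs)
    rw [div_eq_iff h2, ← h1, ← hS]
    ring

theorem pu5_fs_one (D : Ctx F K m) (t : Fin (m + 1) → ℝ) (x : 𝓞 K) :
    D.fs t 1 x = (starRingEnd ℂ) (D.N x) / ∏ _j : Fin (m + 1), (D.Q t x : ℂ) := by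
  unfold Ctx.fs
  rw [mul_one, Complex.cpow_neg, Complex.cpow_natCast, Finset.prod_const, Finset.card_univ,
    Fintype.card_fin, div_eq_mul_inv]

theorem zfun (D : Ctx F K m) (hD : D.Ok) (u : Fin m → (𝓞 K)ˣ) (hu : D.UOk u)
    (A : Fin (m + 1) → K) (w : Fin (m + 1) × Fin 2 → 𝓞 K) (hdir : D.Dirs A w) (G : 𝓞 K → ℂ)
    (hG : D.GSpec w G) : ∃ Z : ℂ → ℂ, AnalyticOnNhd ℂ Z {s | 1 / 2 < s.re} ∧
      (∀ T : Set (𝓞 K), T ⊆ D.X →
        (∀ x ∈ D.X, ∃! q : (Fin m → ℤ) × T, x = (uu u q.1 : 𝓞 K) * q.2) →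
        ∀ s : ℂ, 3 / 2 < s.re → HasSum (fun x : T => D.g x * nf F s (x : 𝓞 K)) (Z s)) ∧
      Z 1 = (m.factorial : ℂ) * ((|Delta (D.lm u)| : ℝ) : ℂ) *
        ∫ z in Set.Icc (0 : Fin m → ℝ) 1, D.Bv w G (fun _ => tt (D.lm u) z) := by
  set V : ℂ → ℂ := fun s => ∫ z in Set.Icc (0 : Fin m → ℝ) 1,
      ∑' x : D.X, G x * Dif w Finset.univ (D.fs (tt (D.lm u) z) s) x with hVdef
  have hcard : Fintype.card (Fin (m + 1) × Fin 2) = 2 * (m + 1) := by
    rw [Fintype.card_prod, Fintype.card_fin, Fintype.card_fin, mul_comm]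
  have hreg : 3 / 2 - (Fintype.card (Fin (m + 1) × Fin 2) : ℝ) / (2 * (m + 1)) = 1 / 2 := by
    rw [hcard]
    push_cast
    field_simp
    norm_num
  have hV : AnalyticOnNhd ℂ V {s | 1 / 2 < s.re} := by
    have h := cont_analytic D hD.emb D.I le_rfl hD.ne w hdir.mem hcard.le G hG.1 (D.lm u)
    rw [hreg] at h
    exact h
  obtain ⟨hA1, hA2⟩ := U5_gam D u hu V (1 / 2) (by norm_num) hV
  refine ⟨_, hA1, ?_, ?_⟩
  · intro T hT hbij s hs
    obtain ⟨h1, h2⟩ := unfold D hD.emb hD.ne u hu D.g (g_bdd D)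
      (fun x _ z => R5_g D (uu u z) x) T hT hbij s hs
    have h3 : (∑' x : T, D.g x * nf F s (x : 𝓞 K)) * cst (D.lm u) s = V s := by
      rw [h2]
      refine integral_congr_ae (Filter.Eventually.of_forall fun z => ?_)
      exact hG.2 _ (fs_summable D hD.emb hD.ne _ (fun i => Real.exp_pos _) s hs)
    have h4 := hA2 s (by linarith) _ h3
    rw [h4]
    exact h1.of_norm.hasSum
  · have h1 : V 1 = ∫ z in Set.Icc (0 : Fin m → ℝ) 1, D.Bv w G (fun _ => tt (D.lm u) z) := by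
      refine integral_congr_ae (Filter.Eventually.of_forall fun z => ?_)
      show ∑' x : D.X, _ = ∑' x : D.X, _
      refine tsum_congr fun x => ?_
      congr 2
      funext y
      exact pu5_fs_one D _ y
    show V 1 * _ * _ / _ = _
    rw [h1, mul_one, Complex.Gamma_one, one_pow, div_one]
    have h2 : Complex.Gamma ((m + 1 : ℕ) : ℂ) = (m.factorial : ℂ) := by
      have := Complex.Gamma_nat_eq_factorial m
      rw [← this]
      push_cast
      rfl
    rw [h2]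
    ring

end H55P
end

-- from Lib.H55K.KD
section

/-!
# H55K part K: the fields of torsion points (definitions)

K, N are number fields with F ⊂ K ⊂ N ⊂ Ω (abstract types with algebra maps to Ω). s always denotes an element of Gal(Ω/F).
-/

open NumberField IsDedekindDomain WeierstrassCurve

namespace H55K

open H55P (IQ embF eF LF Per IsHecke Pt ac Inert Dec Nm)
open H35P (WAB Ker tt)
open H55R (Pl ord es fs smulP)

section

variable {F : Type} [Field F] {Ω : Type} [Field Ω] [Algebra F Ω]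

/-- s fixes the elements of K. -/
def Fxd (K : Type) [Field K] [Algebra K Ω] (s : Ω ≃ₐ[F] Ω) : Prop :=
  ∀ x : K, s (algebraMap K Ω x) = algebraMap K Ω x

/-- s extends σ. -/
def Lft {K N : Type} [Field K] [Field N] [Algebra K N] [Algebra N Ω] (σ : Gal(N/K)) (s : Ω ≃ₐ[F] Ω) :
    Prop :=
  ∀ x : N, s (algebraMap N Ω x) = algebraMap N Ω (σ x)

end

/-- The valuation ring V of Ω lies above the prime W of N. -/
def Abw {Ω : Type} [Field Ω] {N : Type} [Field N] [NumberField N] [Algebra N Ω] (V : ValuationSubring Ω)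
    (W : Pl N) : Prop :=
  ∀ x : N, algebraMap N Ω x ∈ V ↔ W.valuation N x ≤ 1

section

variable {F : Type} [Field F] {A B : F} {Ω : Type} [Field Ω] [DecidableEq Ω] [Algebra F Ω]

/-- N/K is a Galois extension generated by the coordinates of the points killed by b. -/
structure TFld (act : 𝓞 F →+* AddMonoid.End (Pt (WAB A B) Ω)) (K N : Type) [Field K] [Field N]
    [Algebra K N] [Algebra K Ω] [Algebra N Ω] (b : 𝓞 F) : Prop where
  gal : IsGalois K N
  crd : ∀ T ∈ Tor act b, ∃ x y : N, algebraMap N Ω x = xc T ∧ algebraMap N Ω y = yc T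
  gen : ∀ s : Ω ≃ₐ[F] Ω, Fxd K s → (∀ T ∈ Tor act b, ac (WAB A B) s T = T) → Fxd N s

end

variable {F : Type} [Field F] [NumberField F] [IQ F] {A B : F} {Om : ℂ} {Ω : Type} [Field Ω] [DecidableEq Ω]
  [Algebra F Ω]

/-- N/K is totally ramified at v, of degree Nb - 1. -/
structure TotRam (act : 𝓞 F →+* AddMonoid.End (Pt (WAB A B) Ω)) (K N : Type) [Field K] [NumberField K]
    [Field N] [NumberField N] [Algebra K N] [Algebra N Ω] (b : 𝓞 F) (v : Pl K) : Prop where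
  deg : Module.finrank K N = Nm b - 1
  es : es K N v = Nm b - 1
  fs : fs K N v = 1
  one : ∀ W W' : Pl N, W.under (𝓞 K) = v → W'.under (𝓞 K) = v → W = W'
  val : ∀ W : Pl N, W.under (𝓞 K) = v → ∀ R ∈ Tor act b, R ≠ 0 → ∀ t : N, algebraMap N Ω t = tt R →
    W.valuation N t = WithZero.exp (-1 : ℤ)
  orb : ∀ R ∈ Tor act b, R ≠ 0 → ∀ R' ∈ Tor act b, R' ≠ 0 → ∃ σ : Gal(N/K), ∀ s : Ω ≃ₐ[F] Ω, Lft σ s →
    ac (WAB A B) s R = R'

/-- L is the field generated by the points killed by π. -/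
def IsTF (act : 𝓞 F →+* AddMonoid.End (Pt (WAB A B) Ω)) (π : 𝓞 F) (L : IntermediateField F Ω) : Prop :=
  FiniteDimensional F L ∧ ∀ s : Ω ≃ₐ[F] Ω, s ∈ L.fixingSubgroup ↔
    ∀ T ∈ Tor act π, ac (WAB A B) s T = T

end H55K
end

-- from Lib.H55K.K0A
section

open NumberField IsDedekindDomain WeierstrassCurve

namespace H55K

open H55P (IQ embF eF LF Per IsHecke Pt ac Inert Dec Nm)
open H35P (WAB Ker tt)
open H55R (Pl ord es fs smulP)

/-! Chunk K0A (M, many small). Valuation rings above primes, N an abstract number field with an algebra map to Ω.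
exists_abw: copy H13S/EXV.lean (f = algebraMap N Ω). lt, le: copy H13S/VW.lean (Abv.lt, Abv.le) with algebraMap N Ω x for (x : Ω); eq from le twice, eq_one from eq with y = 1.
below: x in K: algebraMap K Ω x = algebraMap N Ω (algebraMap K N x); W.valuation (algebraMap K N x) ≤ 1 iff v.valuation x ≤ 1 (HeightOneSpectrum.valuation_liesOver: v(x)^e = W(x), e ≠ 0, and LiesOver from hW as in
H28G/K9.lean lift_le, BF2_mem of H55R.BF2 or ⟨hW.symm⟩-like). under: if V is above W and above v then W.under = v: for x : 𝓞 K, x in v iff V(x) < 1 iff algebraMap x in W (lt twice), HeightOneSpectrum.ext. int: elements of 𝓞 N are in V: V contains the integral elements (see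
vw_int in H13S/VW.lean). -/

section
variable {Ω : Type} [Field Ω] {N : Type} [Field N] [NumberField N] [Algebra N Ω]

theorem exists_abw (Ω : Type) [Field Ω] {N : Type} [Field N] [NumberField N] [Algebra N Ω] (W : Pl N) :
    ∃ V : ValuationSubring Ω, Abw V W := by
  let A : ValuationSubring N := (W.valuation N).valuationSubring
  let f : N →+* Ω := algebraMap N Ω
  obtain ⟨V, hV⟩ := (A.toLocalSubring.map f).exists_le_valuationSubring
  obtain ⟨h1, h2⟩ := LocalSubring.le_def.1 hV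
  refine ⟨V, fun x => ⟨fun hx => ?_, fun hx => ?_⟩⟩
  · by_contra hc
    have hx0 : x ≠ 0 := by
      rintro rfl
      exact hc (by rw [map_zero]; exact zero_le_one)
    have hi : W.valuation N x⁻¹ ≤ 1 := by
      rw [map_inv₀]
      exact inv_le_one_of_one_le₀ (not_le.1 hc).le
    have hA : x⁻¹ ∈ A.toSubring := (Valuation.mem_valuationSubring_iff _ _).2 hi
    have hm : f x⁻¹ ∈ (A.toLocalSubring.map f).toSubring := ⟨x⁻¹, hA, rfl⟩
    have hu : IsUnit (Subring.inclusion h1 ⟨f x⁻¹, hm⟩) := by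
      refine isUnit_iff_exists_inv.2 ⟨⟨f x, hx⟩, Subtype.ext ?_⟩
      show f x⁻¹ * f x = 1
      rw [← map_mul, inv_mul_cancel₀ hx0, map_one]
    obtain ⟨⟨b, hb⟩, hb1⟩ := isUnit_iff_exists_inv.1 (h2.map_nonunit _ hu)
    obtain ⟨z, hz, rfl⟩ := hb
    have h3 : f (x⁻¹ * z) = f 1 := by
      rw [map_mul, map_one]
      exact congrArg Subtype.val hb1
    have h4 : x⁻¹ * z = 1 := f.injective h3
    have h5 : z = x := by
      rw [inv_mul_eq_iff_eq_mul₀ hx0, mul_one] at h4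
      exact h4
    rw [h5] at hz
    exact hc ((Valuation.mem_valuationSubring_iff _ _).1 hz)
  · exact h1 ⟨x, (Valuation.mem_valuationSubring_iff _ _).2 hx, rfl⟩

theorem Abw.lt {V : ValuationSubring Ω} {W : Pl N} (h : Abw V W) (x : N) :
    V.valuation (algebraMap N Ω x) < 1 ↔ W.valuation N x < 1 := by
  by_cases hx : x = 0
  · subst hx
    rw [map_zero, map_zero, map_zero]
    exact ⟨fun _ => zero_lt_one, fun _ => zero_lt_one⟩
  · have hx' : algebraMap N Ω x ≠ 0 := (map_ne_zero _).2 hx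
    have h1 := h x⁻¹
    rw [← V.valuation_le_one_iff, map_inv₀, map_inv₀, map_inv₀] at h1
    have h2 : 0 < V.valuation (algebraMap N Ω x) := zero_lt_iff.2 ((map_ne_zero _).2 hx')
    have h3 : 0 < W.valuation N x := zero_lt_iff.2 ((map_ne_zero _).2 hx)
    rw [inv_le_one₀ h2, inv_le_one₀ h3] at h1
    rw [← not_le, ← not_le, h1]

theorem Abw.le {V : ValuationSubring Ω} {W : Pl N} (h : Abw V W) (x y : N) :
    V.valuation (algebraMap N Ω x) ≤ V.valuation (algebraMap N Ω y) ↔ W.valuation N x ≤ W.valuation N y := by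
  by_cases hy : y = 0
  · subst hy
    rw [map_zero, map_zero, map_zero, le_zero_iff, le_zero_iff, map_eq_zero, map_eq_zero, map_eq_zero]
  · have hy' : algebraMap N Ω y ≠ 0 := (map_ne_zero _).2 hy
    have h1 := h (x / y)
    have h2 : 0 < V.valuation (algebraMap N Ω y) := zero_lt_iff.2 ((map_ne_zero _).2 hy')
    have h3 : 0 < W.valuation N y := zero_lt_iff.2 ((map_ne_zero _).2 hy)
    rw [← V.valuation_le_one_iff, map_div₀, map_div₀, map_div₀, div_le_one₀ h2, div_le_one₀ h3] at h1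
    exact h1

theorem Abw.eq {V : ValuationSubring Ω} {W : Pl N} (h : Abw V W) (x y : N) :
    V.valuation (algebraMap N Ω x) = V.valuation (algebraMap N Ω y) ↔ W.valuation N x = W.valuation N y := by
  rw [le_antisymm_iff, le_antisymm_iff, h.le x y, h.le y x]

theorem Abw.eq_one {V : ValuationSubring Ω} {W : Pl N} (h : Abw V W) (x : N) :
    V.valuation (algebraMap N Ω x) = 1 ↔ W.valuation N x = 1 := by
  have h1 := h.eq x 1
  rwa [map_one, map_one, map_one] at h1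

/-- Integers are integral. -/
theorem k0_int (V : ValuationSubring Ω) (x : 𝓞 N) : V.valuation (algebraMap N Ω (x : N)) ≤ 1 := by
  have h1 : IsIntegral ℤ (algebraMap N Ω (x : N)) :=
    (RingOfIntegers.isIntegral_coe x).map ((algebraMap N Ω).toIntAlgHom)
  have h2 : IsIntegral V (algebraMap N Ω (x : N)) := h1.tower_top
  obtain ⟨y, hy⟩ := (IsIntegrallyClosed.isIntegral_iff (R := V) (K := Ω)).1 h2
  rw [← hy]
  exact (V.valuation_le_one_iff _).2 y.2

end

section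
variable {Ω : Type} [Field Ω] {K N : Type} [Field K] [NumberField K] [Field N] [NumberField N]
  [Algebra K N] [Algebra K Ω] [Algebra N Ω] [IsScalarTower K N Ω]

theorem Abw.below {V : ValuationSubring Ω} {W : Pl N} (h : Abw V W) {v : Pl K} (hW : W.under (𝓞 K) = v) :
    Abw V v := by
  intro x
  have hl : W.asIdeal.LiesOver v.asIdeal := ⟨(congrArg HeightOneSpectrum.asIdeal hW).symm⟩
  have hp := v.isPrime
  have hWp := W.isPrime
  rw [IsScalarTower.algebraMap_apply K N Ω x, h (algebraMap K N x),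
    ← HeightOneSpectrum.valuation_liesOver N v W x]
  exact pow_le_one_iff (Ideal.IsDedekindDomain.ramificationIdx'_ne_zero_of_liesOver W.asIdeal v.ne_bot)

theorem Abw.under {V : ValuationSubring Ω} {W : Pl N} (h : Abw V W) {v : Pl K} (hv : Abw V v) :
    W.under (𝓞 K) = v := by
  apply HeightOneSpectrum.ext
  ext x
  have h1 : x ∈ v.asIdeal ↔ V.valuation (algebraMap K Ω (x : K)) < 1 := by
    rw [hv.lt]
    exact (v.valuation_lt_one_iff_mem x).symm
  have h2 : algebraMap (𝓞 K) (𝓞 N) x ∈ W.asIdeal ↔ V.valuation (algebraMap K Ω (x : K)) < 1 := by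
    rw [IsScalarTower.algebraMap_apply K N Ω, h.lt]
    exact (W.valuation_lt_one_iff_mem (algebraMap (𝓞 K) (𝓞 N) x)).symm
  rw [h1, ← h2]
  rfl

end

end H55K
end

-- from Lib.H55K.K0B
section

open NumberField IsDedekindDomain WeierstrassCurve

namespace H55K

open H55P (IQ embF eF LF Per IsHecke Pt ac Inert Dec Nm)
open H35P (WAB Ker tt)
open H55R (Pl ord es fs smulP)

/-! Chunk K0B (M). Extension and restriction of automorphisms. F ⊂ K ⊂ N ⊂ Ω, Ω an algebraic closure of F (IsAlgClosure.isAlgClosed F, IsAlgClosure.isAlgebraic, normal: IsAlgClosure.normal F Ω).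
exists_lft: σ.restrictScalars F : N ≃ₐ[F] N, s = AlgEquiv.liftNormal _ Ω, AlgEquiv.liftNormal_commutes. fxd: for x : K: algebraMap K Ω x = algebraMap N Ω (algebraMap K N x) (IsScalarTower.algebraMap_apply), σ.commutes.
mul, one, inv: direct (σ⁻¹: apply s to both sides). exists_res: s as a K-automorphism s' of Ω (AlgEquiv.ofRingEquiv, commutes by hs); σ = s'.restrictNormal N (AlgEquiv.restrictNormal needs Normal K N), AlgEquiv.restrictNormal_commutes.
lft_eq: if s extends σ and τ then σ = τ (algebraMap N Ω is injective). lft_one: if s fixes N then it extends 1; if it extends σ and fixes N then σ = 1.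
mem_of_fxd: x in Ω fixed by all s with Fxd N s is in the image of N: N' = (IsScalarTower.toAlgHom F N Ω).fieldRange : IntermediateField F Ω; x in fixedField (fixingSubgroup N') = N' (InfiniteGalois.fixedField_fixingSubgroup, Ω/F is Galois:
IsAlgClosure.isGalois F Ω); s in N'.fixingSubgroup iff Fxd N s. -/

variable {F : Type} [Field F] [NumberField F] {Ω : Type} [Field Ω] [Algebra F Ω]
  {K N : Type} [Field K] [NumberField K] [Field N] [NumberField N] [Algebra F K] [Algebra F N]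
  [Algebra K N] [Algebra K Ω] [Algebra N Ω] [IsScalarTower F K N] [IsScalarTower K N Ω]
  [IsScalarTower F K Ω] [IsScalarTower F N Ω]

theorem exists_lft [IsAlgClosure F Ω] (σ : Gal(N/K)) : ∃ s : Ω ≃ₐ[F] Ω, Lft σ s := by
  have hn : Normal F Ω := IsAlgClosure.normal F Ω
  refine ⟨AlgEquiv.liftNormal (σ.restrictScalars F : N ≃ₐ[F] N) Ω, fun x => ?_⟩
  exact AlgEquiv.liftNormal_commutes _ _ _

omit [NumberField F] [NumberField K] [NumberField N] in
theorem Lft.fxd {σ : Gal(N/K)} {s : Ω ≃ₐ[F] Ω} (h : Lft σ s) : Fxd K s := by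
  intro x
  rw [IsScalarTower.algebraMap_apply K N Ω, h, σ.commutes]

theorem Lft.mul {σ τ : Gal(N/K)} {s t : Ω ≃ₐ[F] Ω} (h : Lft σ s) (h' : Lft τ t) : Lft (σ * τ) (s * t) := by
  intro x
  show s (t (algebraMap N Ω x)) = algebraMap N Ω (σ (τ x))
  rw [h', h]

theorem lft_one : Lft (1 : Gal(N/K)) (1 : Ω ≃ₐ[F] Ω) := by
  intro x
  rfl

theorem Lft.inv {σ : Gal(N/K)} {s : Ω ≃ₐ[F] Ω} (h : Lft σ s) : Lft σ⁻¹ s⁻¹ := by
  intro x
  apply s.injective
  show s (s.symm (algebraMap N Ω x)) = s (algebraMap N Ω (σ.symm x))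
  rw [s.apply_symm_apply, h, σ.apply_symm_apply]

theorem lft_eq {σ τ : Gal(N/K)} {s : Ω ≃ₐ[F] Ω} (h : Lft σ s) (h' : Lft τ s) : σ = τ := by
  ext x
  exact (algebraMap N Ω).injective ((h x).symm.trans (h' x))

theorem lft_fxd {σ : Gal(N/K)} {s : Ω ≃ₐ[F] Ω} (h : Lft σ s) : Fxd N s ↔ σ = 1 := by
  constructor
  · intro h1
    ext x
    exact (algebraMap N Ω).injective ((h x).symm.trans (h1 x))
  · rintro rfl
    exact h

theorem exists_res [IsGalois K N] (s : Ω ≃ₐ[F] Ω) (hs : Fxd K s) : ∃ σ : Gal(N/K), Lft σ s := by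
  have hn : Normal K N := inferInstance
  let s' : Ω ≃ₐ[K] Ω := AlgEquiv.ofRingEquiv (f := s.toRingEquiv) hs
  refine ⟨s'.restrictNormal N, fun x => ?_⟩
  exact (AlgEquiv.restrictNormal_commutes s' N x).symm

theorem mem_of_fxd [IsAlgClosure F Ω] (N : Type) [Field N] [NumberField N] [Algebra F N] [Algebra N Ω]
    [IsScalarTower F N Ω] (x : Ω) (h : ∀ s : Ω ≃ₐ[F] Ω, Fxd N s → s x = x) :
    ∃ y : N, algebraMap N Ω y = x := by
  have hg : IsGalois F Ω := IsAlgClosure.isGalois F Ω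
  set N' : IntermediateField F Ω := (IsScalarTower.toAlgHom F N Ω).fieldRange with hN'
  have h1 : x ∈ IntermediateField.fixedField N'.fixingSubgroup := by
    rw [IntermediateField.mem_fixedField_iff]
    intro s hs
    apply h
    intro y
    exact (IntermediateField.mem_fixingSubgroup_iff N' s).1 hs _ ⟨y, rfl⟩
  rw [InfiniteGalois.fixedField_fixingSubgroup] at h1
  obtain ⟨y, hy⟩ := h1
  exact ⟨y, hy⟩

end H55K
end

-- from Lib.H55K.K0C
section

open NumberField IsDedekindDomain WeierstrassCurve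

namespace H55K

open H55P (IQ embF eF LF Per IsHecke Pt ac Inert Dec Nm)
open H35P (WAB Ker tt)
open H55R (Pl ord es fs smulP)

/-! Chunk K0C (M). exists_inert: an element σ of the inertia group of the prime W of N extends to an element s of Gal(Ω/F) in the inertia group of V. s0 with Lft σ s0 (exists_lft). N' = (IsScalarTower.toAlgHom F N Ω).fieldRange : IntermediateField F Ω, finite over F
(image of N). s0 maps N' to N'. For x = algebraMap N Ω y in V: W.valuation y ≤ 1 (hV), W.valuation (σ y - y) < 1 (H13S.in4_val), so V.valuation (s0 x - x) < 1 (Abw.lt). H13S.inertia_lift gives s.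
unr_of_inert: if every s in Inert V with Fxd K s fixes N (V above W) then es K N (W.under) = 1: Ideal.card_inertia_eq_ramificationIdxIn as in H28G/K4.lean (theorem unram), inertia group trivial by exists_inert and lft_fxd (Fxd K s from Lft.fxd).
triv_of_es: conversely: if es K N (W.under (𝓞 K)) = 1, and s (Fxd K s) satisfies V.valuation (s x - x) < 1 for all x = algebraMap N Ω y in V, then Fxd N s: σ from exists_res, σ is in the inertia group of W (V above W, Abw.lt), which has es = 1 elements. -/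

variable {F : Type} [Field F] [NumberField F] {Ω : Type} [Field Ω] [Algebra F Ω]
  {K N : Type} [Field K] [NumberField K] [Field N] [NumberField N] [Algebra F K] [Algebra F N]
  [Algebra K N] [Algebra K Ω] [Algebra N Ω] [IsScalarTower F K N] [IsScalarTower K N Ω]
  [IsScalarTower F K Ω] [IsScalarTower F N Ω]

theorem exists_inert [IsAlgClosure F Ω] {W : Pl N} {V : ValuationSubring Ω} (hV : Abw V W) (σ : Gal(N/K))
    (hσ : ∀ x : 𝓞 N, σ • x - x ∈ W.asIdeal) : ∃ s : Ω ≃ₐ[F] Ω, Inert V s ∧ Lft σ s := by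
  obtain ⟨s0, hs0⟩ := exists_lft (F := F) (Ω := Ω) σ
  set N' : IntermediateField F Ω := (IsScalarTower.toAlgHom F N Ω).fieldRange with hN'
  have hfN : FiniteDimensional F N := FiniteDimensional.right ℚ F N
  have hfin : FiniteDimensional F N' :=
    (AlgEquiv.ofInjectiveField (IsScalarTower.toAlgHom F N Ω)).toLinearEquiv.finiteDimensional
  have hmem : ∀ x : Ω, x ∈ N' → ∃ y : N, algebraMap N Ω y = x := by
    rintro x ⟨y, hy⟩
    exact ⟨y, hy⟩
  obtain ⟨s', h1, h2⟩ := H13S.inertia_lift N' V s0 (by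
      intro x hx
      obtain ⟨y, rfl⟩ := hmem x hx
      rw [hs0]
      exact ⟨σ y, rfl⟩) (by
      intro x hx hxV
      obtain ⟨y, rfl⟩ := hmem x hx
      rw [hs0, ← map_sub, hV.lt]
      exact H13S.in4_val W σ hσ y ((hV y).1 hxV))
  refine ⟨s', h1, fun x => ?_⟩
  rw [h2 (algebraMap N Ω x) ⟨x, rfl⟩, hs0]

theorem unr_of_inert [IsAlgClosure F Ω] [IsGalois K N] {W : Pl N} {V : ValuationSubring Ω} (hV : Abw V W)
    (h : ∀ s : Ω ≃ₐ[F] Ω, Inert V s → Fxd K s → Fxd N s) : es K N (W.under (𝓞 K)) = 1 := by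
  have hWp := W.isPrime
  set v := W.under (𝓞 K) with hv
  have hp := v.isPrime
  have hl : W.asIdeal.LiesOver v.asIdeal := ⟨rfl⟩
  have h1 := Ideal.card_inertia_eq_ramificationIdxIn (G := Gal(N/K)) v.asIdeal W.asIdeal
  have hbot : W.asIdeal.inertia Gal(N/K) = ⊥ := by
    rw [eq_bot_iff]
    intro σ hσ
    rw [Subgroup.mem_bot]
    obtain ⟨s, hs, hs'⟩ := exists_inert (F := F) hV σ (fun x => hσ x)
    exact (lft_fxd hs').1 (h s hs hs'.fxd)
  rw [hbot] at h1
  have h2 : Nat.card (⊥ : Subgroup Gal(N/K)) = 1 := Subgroup.card_bot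
  rw [h2] at h1
  exact h1.symm

theorem triv_of_es [IsGalois K N] {W : Pl N} {V : ValuationSubring Ω} (hV : Abw V W)
    (he : es K N (W.under (𝓞 K)) = 1) (s : Ω ≃ₐ[F] Ω) (hs : Fxd K s)
    (h : ∀ y : N, algebraMap N Ω y ∈ V → V.valuation (s (algebraMap N Ω y) - algebraMap N Ω y) < 1) :
    Fxd N s := by
  have hWp := W.isPrime
  set v := W.under (𝓞 K) with hv
  have hp := v.isPrime
  have hl : W.asIdeal.LiesOver v.asIdeal := ⟨rfl⟩
  have h1 := Ideal.card_inertia_eq_ramificationIdxIn (G := Gal(N/K)) v.asIdeal W.asIdeal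
  obtain ⟨σ, hσ⟩ := exists_res (N := N) s hs
  have hmem : σ ∈ W.asIdeal.inertia Gal(N/K) := by
    intro x
    have h2 : algebraMap N Ω (x : N) ∈ V := (V.valuation_le_one_iff _).1 (k0_int V x)
    have h3 := h (x : N) h2
    rw [hσ, ← map_sub, hV.lt] at h3
    exact (W.valuation_lt_one_iff_mem (σ • x - x)).1 h3
  have h4 : W.asIdeal.inertia Gal(N/K) = ⊥ := by
    apply Subgroup.eq_bot_of_card_eq
    rw [h1]
    exact he
  rw [h4, Subgroup.mem_bot] at hmem
  exact (lft_fxd hσ).2 hmem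

end H55K
end

-- from Lib.H55K.K2A
section

open NumberField IsDedekindDomain WeierstrassCurve

namespace H55K

open H55P (IQ embF eF LF Per IsHecke Pt ac Inert Dec Nm)
open H35P (WAB Ker tt)
open H55R (Pl ord es fs smulP)

/-! (xc_ac, yc_ac, tt_ac are in E0.lean.)
Chunk K2A (M, many small). ac and coordinates: ac is Affine.Point.map, cases on P, rfl (compare H13S/Defs.lean ac_one, ac_mul and H28G/Map.lean). ac_fix: P = 0 or the coordinates determine the point (Affine.Point.some.injEq).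
Torsion points, b a prime element: T0 from CMA.gen for b. T <> 0 killed by b: T = act a T0 with b not dividing a; 𝓞 F is a principal ideal ring, (b) is maximal: a c = 1 + b d, so act c T = T0. tor_zero: act x T = 0 iff act x T0 = 0 (apply act c, act a) iff b | x.
tor_gen: T' = act a' T0 = act (a' c) T. exists_tor: T0 (1 is not divisible by b: act 1 T0 = T0 <> 0). ac_tor: act b (ac s T) = ac s (act b T) = 0 (CMA.gal).
tor_mul: T in Tor act b, R in Tor act b' then T + R in Tor act (b b'). -/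

variable {F : Type} [Field F] [NumberField F] [IQ F] {A B : F} {Om : ℂ} {Ω : Type} [Field Ω] [DecidableEq Ω]
  [Algebra F Ω] {j : Ω →+* ℂ} {act : 𝓞 F →+* AddMonoid.End (Pt (WAB A B) Ω)}

section
omit [NumberField F] [IQ F]

theorem k2_ac_one (P : Pt (WAB A B) Ω) : ac (WAB A B) (1 : Ω ≃ₐ[F] Ω) P = P := by
  cases P <;> rfl

theorem k2_ac_mul (s t : Ω ≃ₐ[F] Ω) (P : Pt (WAB A B) Ω) :
    ac (WAB A B) (s * t) P = ac (WAB A B) s (ac (WAB A B) t P) := by
  cases P <;> rfl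

theorem k2_ac_inv (s : Ω ≃ₐ[F] Ω) (P : Pt (WAB A B) Ω) :
    ac (WAB A B) s⁻¹ (ac (WAB A B) s P) = P := by
  rw [← k2_ac_mul, inv_mul_cancel, k2_ac_one]

theorem k2_ac_ne (s : Ω ≃ₐ[F] Ω) {P : Pt (WAB A B) Ω} (h : P ≠ 0) : ac (WAB A B) s P ≠ 0 := by
  intro h1
  apply h
  rw [← k2_ac_inv s P, h1, map_zero]

theorem tt_xy (P : Pt (WAB A B) Ω) : tt P = xc P / yc P := by
  rcases P with _ | ⟨x, y, h⟩
  · show (0 : Ω) = 0 / 0
    simp
  · rfl

theorem pt_ext' {P Q : Pt (WAB A B) Ω} (hP : P ≠ 0) (hQ : Q ≠ 0) (hx : xc P = xc Q) (hy : yc P = yc Q) :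
    P = Q := by
  rcases P with _ | ⟨x, y, h⟩
  · exact absurd rfl hP
  · rcases Q with _ | ⟨x', y', h'⟩
    · exact absurd rfl hQ
    · have hx' : x = x' := hx
      have hy' : y = y' := hy
      subst hx'
      subst hy'
      rfl

theorem ac_fix (s : Ω ≃ₐ[F] Ω) {P : Pt (WAB A B) Ω} (hx : s (xc P) = xc P) (hy : s (yc P) = yc P) :
    ac (WAB A B) s P = P := by
  by_cases hP : P = 0
  · rw [hP, map_zero]
  · apply pt_ext' (k2_ac_ne s hP) hP
    · rw [xc_ac, hx]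
    · rw [yc_ac, hy]

end

section
omit [NumberField F] [IQ F]

theorem k2a_mul (a c : 𝓞 F) (P : Pt (WAB A B) Ω) : act (a * c) P = act a (act c P) := by
  rw [map_mul]
  rfl

theorem k2a_add (a c : 𝓞 F) (P : Pt (WAB A B) Ω) : act (a + c) P = act a P + act c P := by
  rw [map_add]
  rfl

theorem k2a_sub (a c : 𝓞 F) (P : Pt (WAB A B) Ω) : act (a - c) P = act a P - act c P := by
  rw [map_sub]
  rfl

theorem k2a_one (P : Pt (WAB A B) Ω) : act 1 P = P := by
  rw [map_one]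
  rfl

theorem k2a_mem {b : 𝓞 F} {T : Pt (WAB A B) Ω} : T ∈ Tor act b ↔ act b T = 0 := Iff.rfl

end

theorem ac_tor (h : CMA F A B Om j act) (s : Ω ≃ₐ[F] Ω) {b : 𝓞 F} {T : Pt (WAB A B) Ω} (hT : T ∈ Tor act b) :
    ac (WAB A B) s T ∈ Tor act b := by
  rw [k2a_mem, ← h.gal, k2a_mem.1 hT, map_zero]

/-- A nonzero point killed by `b` and the standard one generate each other. -/
theorem k2a_key (h : CMA F A B Om j act) {b : 𝓞 F} (hp : Prime b) : ∃ T₀ ∈ Tor act b,
    (∀ T ∈ Tor act b, ∃ a, T = act a T₀) ∧ (∀ a, act a T₀ = 0 ↔ b ∣ a) ∧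
    ∀ T ∈ Tor act b, T ≠ 0 → ∃ c, act c T = T₀ := by
  have hpid : IsPrincipalIdealRing (𝓞 F) := IQ.pid
  obtain ⟨T₀, hT₀, h1, h2, -⟩ := h.gen b hp.ne_zero
  refine ⟨T₀, hT₀, h1, h2, ?_⟩
  intro T hT h0
  obtain ⟨a, ha⟩ := h1 T hT
  have hba : ¬b ∣ a := by
    intro hd
    apply h0
    rw [ha, (h2 a).2 hd]
  have hcop : IsCoprime a b := ((hp.irreducible.coprime_iff_not_dvd).2 hba).symm
  obtain ⟨c, d, hcd⟩ := hcop
  refine ⟨c, ?_⟩
  have h3 : act (c * a + d * b) T₀ = T₀ := by rw [hcd, k2a_one]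
  rw [k2a_add, k2a_mul, k2a_mul, k2a_mem.1 hT₀, map_zero, add_zero, ← ha] at h3
  exact h3

theorem tor_zero (h : CMA F A B Om j act) {b : 𝓞 F} (hp : Prime b) {T : Pt (WAB A B) Ω} (hT : T ∈ Tor act b)
    (h0 : T ≠ 0) (a : 𝓞 F) : act a T = 0 ↔ b ∣ a := by
  obtain ⟨T₀, hT₀, h1, h2, h3⟩ := k2a_key h hp
  obtain ⟨c, hc⟩ := h3 T hT h0
  constructor
  · intro ha
    rw [← h2, ← hc, ← k2a_mul, mul_comm, k2a_mul, ha, map_zero]
  · rintro ⟨d, rfl⟩
    rw [mul_comm, k2a_mul, k2a_mem.1 hT, map_zero]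

theorem tor_gen (h : CMA F A B Om j act) {b : 𝓞 F} (hp : Prime b) {T T' : Pt (WAB A B) Ω} (hT : T ∈ Tor act b)
    (hT' : T' ∈ Tor act b) (h0 : T ≠ 0) : ∃ a : 𝓞 F, act a T = T' := by
  obtain ⟨T₀, hT₀, h1, h2, h3⟩ := k2a_key h hp
  obtain ⟨c, hc⟩ := h3 T hT h0
  obtain ⟨a, ha⟩ := h1 T' hT'
  exact ⟨a * c, by rw [k2a_mul, hc, ← ha]⟩

theorem exists_tor (h : CMA F A B Om j act) {b : 𝓞 F} (hp : Prime b) : ∃ T ∈ Tor act b, T ≠ 0 := by
  obtain ⟨T₀, hT₀, h1, h2, h3⟩ := k2a_key h hp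
  refine ⟨T₀, hT₀, fun h0 => hp.not_isUnit ?_⟩
  exact isUnit_of_dvd_one ((h2 1).1 (by rw [h0, map_zero]))

theorem tor_mul {b b' : 𝓞 F} {T R : Pt (WAB A B) Ω} (hT : T ∈ Tor act b) (hR : R ∈ Tor act b') :
    T + R ∈ Tor act (b * b') := by
  rw [k2a_mem, map_add, k2a_mul, k2a_mul, k2a_mem.1 hR, map_zero, add_zero, ← k2a_mul, mul_comm, k2a_mul,
    k2a_mem.1 hT, map_zero]

theorem tor_act {b : 𝓞 F} (a : 𝓞 F) {T : Pt (WAB A B) Ω} (hT : T ∈ Tor act b) : act a T ∈ Tor act b := by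
  rw [k2a_mem, ← k2a_mul, mul_comm, k2a_mul, k2a_mem.1 hT, map_zero]

theorem tor_dvd {b b' : 𝓞 F} (hd : b ∣ b') {T : Pt (WAB A B) Ω} (hT : T ∈ Tor act b) : T ∈ Tor act b' := by
  obtain ⟨c, rfl⟩ := hd
  rw [k2a_mem, mul_comm, k2a_mul, k2a_mem.1 hT, map_zero]

end H55K
end

-- from Lib.H55K.K2B
section

open NumberField IsDedekindDomain WeierstrassCurve

namespace H55K

open H55P (IQ embF eF LF Per IsHecke Pt ac Inert Dec Nm)
open H35P (WAB Ker tt)
open H55R (Pl ord es fs smulP)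

/-! Chunk K2B (M, port of H28G/K2.lean). lft_tor: two extensions s, s' of σ agree on the coordinates of T (crd), so ac s T = ac s' T (pt_ext', xc_ac; T = 0 is clear). orb_inj: u = t⁻¹ s extends τ⁻¹ σ and fixes R, so (CMA.gal, tor_gen) it fixes Tor act b pointwise; it fixes K (Lft.fxd), so
Fxd N u (TFld.gen) and τ⁻¹ σ = 1 (lft_fxd). card_le: σ -> ac s R (s an extension, exists_lft) is an injection of Gal(N/K) into Tor act b minus 0, which has Nm b - 1 elements (exists_TN); Nat.card Gal(N/K) = finrank (IsGalois.card_aut_eq_finrank).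
exists_chi: as in H28G/K2.lean exists_chi: fix T in Tor act b, T <> 0, for σ choose an extension s and c with act c T = ac s T; q c does not depend on c (tor_zero, hk), nonzero; multiplicative (Lft.mul); injective by orb_inj. -/

variable {F : Type} [Field F] [NumberField F] [IQ F] {A B : F} {Om : ℂ} {Ω : Type} [Field Ω] [DecidableEq Ω]
  [Algebra F Ω] {j : Ω →+* ℂ} {act : 𝓞 F →+* AddMonoid.End (Pt (WAB A B) Ω)}
  {K N : Type} [Field K] [NumberField K] [Field N] [NumberField N] [Algebra F K] [Algebra F N]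
  [Algebra K N] [Algebra K Ω] [Algebra N Ω] [IsScalarTower F K N] [IsScalarTower K N Ω]
  [IsScalarTower F K Ω] [IsScalarTower F N Ω]

omit [NumberField K] in
theorem lft_tor {b : 𝓞 F} (hN : TFld act K N b) {σ : Gal(N/K)} {s s' : Ω ≃ₐ[F] Ω} (h : Lft σ s)
    (h' : Lft σ s') {T : Pt (WAB A B) Ω} (hT : T ∈ Tor act b) : ac (WAB A B) s T = ac (WAB A B) s' T := by
  by_cases h0 : T = 0
  · rw [h0, map_zero, map_zero]
  · obtain ⟨x, y, hx, hy⟩ := hN.crd T hT
    apply pt_ext' (k2_ac_ne s h0) (k2_ac_ne s' h0)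
    · rw [xc_ac, xc_ac, ← hx, h x, h' x]
    · rw [yc_ac, yc_ac, ← hy, h y, h' y]

theorem orb_inj (h : CMA F A B Om j act) {b : 𝓞 F} (hp : Prime b) (hN : TFld act K N b)
    {R : Pt (WAB A B) Ω} (hR : R ∈ Tor act b) (h0 : R ≠ 0) {σ τ : Gal(N/K)} {s t : Ω ≃ₐ[F] Ω}
    (hs : Lft σ s) (ht : Lft τ t) (he : ac (WAB A B) s R = ac (WAB A B) t R) : σ = τ := by
  have hu : Lft (τ⁻¹ * σ) (t⁻¹ * s) := ht.inv.mul hs
  have h1 : ac (WAB A B) (t⁻¹ * s) R = R := by
    rw [k2_ac_mul, he, k2_ac_inv]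
  have h2 : Fxd N (t⁻¹ * s) := by
    apply hN.gen _ hu.fxd
    intro T hT
    obtain ⟨c, hc⟩ := tor_gen h hp hR hT h0
    rw [← hc, h.gal, h1]
  exact (inv_mul_eq_one.1 ((lft_fxd hu).1 h2)).symm

theorem card_le [IsAlgClosure F Ω] (h : CMA F A B Om j act) {b : 𝓞 F} (hp : Prime b)
    (hN : TFld act K N b) : Module.finrank K N ≤ Nm b - 1 := by
  classical
  have hgal : IsGalois K N := hN.gal
  obtain ⟨R, hR, h0⟩ := exists_tor h hp
  obtain ⟨S, hS, hcard⟩ := exists_TN h hp.ne_zero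
  choose s hs using fun σ : Gal(N/K) => exists_lft (F := F) (Ω := Ω) σ
  let f : Gal(N/K) → S := fun σ =>
    ⟨ac (WAB A B) (s σ) R, (hS _).2 ⟨ac_tor h (s σ) hR, k2_ac_ne (s σ) h0⟩⟩
  have hinj : Function.Injective f := by
    intro σ τ hστ
    exact orb_inj h hp hN hR h0 (hs σ) (hs τ) (congrArg Subtype.val hστ)
  have h1 := Nat.card_le_card_of_injective f hinj
  rw [IsGalois.card_aut_eq_finrank, Nat.card_eq_fintype_card, Fintype.card_coe, hcard] at h1
  exact h1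

theorem exists_chi [IsAlgClosure F Ω] (h : CMA F A B Om j act) {b : 𝓞 F} (hp : Prime b)
    (hN : TFld act K N b) {k : Type} [Field k] (q : 𝓞 F →+* k) (hq : Function.Surjective q)
    (hk : ∀ x, q x = 0 ↔ b ∣ x) :
    ∃ χ : Gal(N/K) →* kˣ, Function.Injective χ ∧
      ∀ (σ : Gal(N/K)) (s : Ω ≃ₐ[F] Ω) (c : 𝓞 F), Lft σ s → q c = χ σ → ∀ R ∈ Tor act b,
        ac (WAB A B) s R = act c R := by
  obtain ⟨T, hT, h0⟩ := exists_tor h hp
  choose s hs using fun σ : Gal(N/K) => exists_lft (F := F) (Ω := Ω) σ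
  have hex : ∀ σ : Gal(N/K), ∃ c : 𝓞 F, act c T = ac (WAB A B) (s σ) T := fun σ =>
    tor_gen h hp hT (ac_tor h (s σ) hT) h0
  choose c hc using hex
  have heq : ∀ x y : 𝓞 F, act x T = act y T ↔ q x = q y := by
    intro x y
    rw [← sub_eq_zero, ← k2a_sub, tor_zero h hp hT h0, ← hk, map_sub, sub_eq_zero]
  have hne : ∀ σ, q (c σ) ≠ 0 := by
    intro σ h1
    rw [hk, ← tor_zero h hp hT h0, hc] at h1
    exact k2_ac_ne _ h0 h1
  let χ : Gal(N/K) →* kˣ :=
    { toFun := fun σ => Units.mk0 (q (c σ)) (hne σ)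
      map_one' := by
        apply Units.ext
        show q (c 1) = 1
        rw [← map_one q, ← heq, hc, k2a_one, lft_tor hN (hs 1) lft_one hT, k2_ac_one]
      map_mul' := by
        intro σ τ
        apply Units.ext
        show q (c (σ * τ)) = q (c σ) * q (c τ)
        rw [← map_mul, ← heq, hc, lft_tor hN (hs (σ * τ)) ((hs σ).mul (hs τ)) hT, k2_ac_mul, ← hc τ, h.gal,
          ← hc σ, ← k2a_mul, mul_comm] }
  have hχ : ∀ σ, ((χ σ : kˣ) : k) = q (c σ) := fun σ => rfl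
  refine ⟨χ, ?_, ?_⟩
  · intro σ τ hστ
    have h1 : q (c σ) = q (c τ) := by rw [← hχ, ← hχ, hστ]
    rw [← heq, hc, hc] at h1
    exact orb_inj h hp hN hT h0 (hs σ) (hs τ) h1
  · intro σ s' d hs' hd R hR
    rw [hχ, ← heq, hc] at hd
    obtain ⟨a, ha⟩ := tor_gen h hp hT hR h0
    rw [← ha, h.gal, lft_tor hN hs' (hs σ) hT, ← hd, ← k2a_mul, ← k2a_mul, mul_comm]

end H55K
end

-- from Lib.H55K.K8
section

open NumberField IsDedekindDomain WeierstrassCurve

namespace H55K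

open H55P (IQ embF eF LF Per IsHecke Pt ac Inert Dec Nm)
open H35P (WAB Ker tt)
open H55R (Pl ord es fs smulP)

/-! Chunk K8 (M, port of norm_xi in H28G/K10.lean). Apply algebraMap L N then algebraMap N Ω (injective): Algebra.norm_eq_prod_automorphisms: algebraMap L N (norm al) = ∏ σ, σ al. For σ let s be an extension (exists_lft): algebraMap N Ω (σ al) = s (Ξ (T + R)) = Ξ (ac s T + ac s R) = Ξ (T + ac s R), as s fixes L (Lft.fxd) and the coordinates of T
are in L (hL.crd, ac_fix). σ -> ac s R is a bijection from Gal(N/L) to the nonzero points of Tor act β: injective orb_inj, surjective horb, values: ac_tor, k2_ac_ne. S' = the Finset of the nonzero points (exists_TN); Finset.prod_bij or prod_nbij. -/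

variable {F : Type} [Field F] [NumberField F] [IQ F] {A B : F} {Om : ℂ} {Ω : Type} [Field Ω] [DecidableEq Ω]
  [Algebra F Ω] {j : Ω →+* ℂ} {act : 𝓞 F →+* AddMonoid.End (Pt (WAB A B) Ω)}
  {L : Type} [Field L] [NumberField L] [Algebra F L] [Algebra L Ω] [IsScalarTower F L Ω]
  {N : Type} [Field N] [NumberField N] [Algebra F N] [Algebra L N] [Algebra N Ω] [IsScalarTower F L N]
  [IsScalarTower L N Ω] [IsScalarTower F N Ω]

theorem norm_xi [IsAlgClosure F Ω] (h : CMA F A B Om j act) {π β : 𝓞 F} (hβ : Prime β)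
    (hL : TFld act F L π) (hN : TFld act L N β)
    (horb : ∀ R ∈ Tor act β, R ≠ 0 → ∀ R' ∈ Tor act β, R' ≠ 0 → ∃ σ : Gal(N/L), ∀ s : Ω ≃ₐ[F] Ω,
      Lft σ s → ac (WAB A B) s R = R') {Ξ : Pt (WAB A B) Ω → Ω}
    (hX : ∀ (s : Ω ≃ₐ[F] Ω) (P : Pt (WAB A B) Ω), s (Ξ P) = Ξ (ac (WAB A B) s P))
    {T : Pt (WAB A B) Ω} (hT : T ∈ Tor act π)
    (hprod : ∀ S' : Finset (Pt (WAB A B) Ω), TN act β S' → ∏ R ∈ S', Ξ (T + R) = 1)
    {R : Pt (WAB A B) Ω} (hR : R ∈ Tor act β) (h0 : R ≠ 0) (al : N)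
    (hal : algebraMap N Ω al = Ξ (T + R)) : Algebra.norm L al = 1 := by
  classical
  have hgal := hN.gal
  have hlft : ∀ σ : Gal(N/L), ∃ s : Ω ≃ₐ[F] Ω, Lft σ s := fun σ => exists_lft σ
  choose s hs using hlft
  apply (algebraMap L N).injective
  rw [map_one, Algebra.norm_eq_prod_automorphisms]
  apply (algebraMap N Ω).injective
  rw [map_one, map_prod]
  have hT' : ∀ σ, ac (WAB A B) (s σ) T = T := by
    intro σ
    obtain ⟨x, y, hx, hy⟩ := hL.crd T hT
    exact ac_fix (s σ) (by rw [← hx, (hs σ).fxd]) (by rw [← hy, (hs σ).fxd])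
  have hval : ∀ σ : Gal(N/L), algebraMap N Ω (σ al) = Ξ (T + ac (WAB A B) (s σ) R) := by
    intro σ
    rw [← hs σ al, hal, hX, map_add, hT']
  rw [Finset.prod_congr rfl fun σ _ => hval σ]
  obtain ⟨S', hS', -⟩ := exists_TN h hβ.ne_zero
  rw [← hprod S' hS']
  refine Finset.prod_bij (fun σ _ => ac (WAB A B) (s σ) R) ?_ ?_ ?_ ?_
  · intro σ _
    exact (hS' _).2 ⟨ac_tor h (s σ) hR, k2_ac_ne _ h0⟩
  · intro a _ b _ hab
    exact orb_inj h hβ hN hR h0 (hs a) (hs b) hab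
  · intro R' hR'
    obtain ⟨h1, h2⟩ := (hS' R').1 hR'
    obtain ⟨σ, hσ⟩ := horb R hR h0 R' h1 h2
    exact ⟨σ, Finset.mem_univ _, hσ _ (hs σ)⟩
  · intro σ _
    rfl

end H55K
end
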