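import Mathlib
import Pool.Agent.Lib.H1M.PP.D_H55P_GD
import Pool.Agent.Lib.H1M.PP.D_H55P_Stm

/-!
# H55P: the exact criterion for y^2 + y = x^3 (definitions)

F is the field of cube roots of unity, E27 the curve y^2 + y = x^3 over the rationals.
-/

open NumberField IsDedekindDomain WeierstrassCurve

namespace H55P

open H55B (F O E27)

/-- L is a Galois extension of F of degree a power of p in which p is unramified. -/
def ExtU (p : ℕ) (L : Type) [Field L] [NumberField L] [Algebra F L] : Prop :=
  IsGalois F L ∧ (∃ k : ℕ, Module.finrank F L = p ^ k) ∧ UnrP p L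

/-- K is (isomorphic to) a subfield of such an extension of F. -/
def SubU (p : ℕ) (K : Type) [Field K] [NumberField K] : Prop :=
  ∃ (L : Type) (_ : Field L) (_ : NumberField L) (_ : Algebra F L) (_ : Algebra K L), ExtU p L

/-- The analytic part: the L-series over K converges absolutely for Re s > 3/2, continues to Re s > 1/2, does not vanish at 1
and the analytic order of the Tate-Shafarevich group is a p-adic unit. -/
def AnUnit (p : ℕ) (K : Type) [Field K] [NumberField K] : Prop :=
  ∃ Λ : ℂ → ℂ, AnalyticOnNhd ℂ Λ {s | 1 / 2 < s.re} ∧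
    (∀ s : ℂ, 3 / 2 < s.re →
      LSeriesSummable (fun n => (((E27.baseChange K).LFunction n : ℤ) : ℂ)) s ∧
      Λ s = (E27.baseChange K).LSeries s) ∧
    Λ 1 ≠ 0 ∧
    ∀ L : PeriodPair, L.g₂ = 0 → L.g₃ = -1 → UnitP p (H55D.shaAn K L (Λ 1))

/-- z is in the maximal ideals of all valuation rings of the complex numbers above p. -/
def NonP (p : ℕ) (z : ℂ) : Prop := ∀ A : ValuationSubring ℂ, A.valuation (p : ℂ) < 1 → A.valuation z < 1

open Classical in
/-- The value L1 of the L-function at 1 divided by the periods, the Tamagawa numbers and the factor |D|^(-1/2). -/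
noncomputable def lAn (K : Type) [Field K] [NumberField K] (L : PeriodPair) (L1 : ℂ) : ℂ :=
  L1 * (Real.sqrt |(NumberField.discr K : ℝ)| : ℝ) /
    ((H55D.Omr L : ℂ) ^ NumberField.InfinitePlace.nrRealPlaces K *
      (H55C.Om L : ℂ) ^ NumberField.InfinitePlace.nrComplexPlaces K *
      ∏ᶠ w : HeightOneSpectrum (𝓞 K), (H55D.tam K w : ℂ))

/-- The L-series over K converges absolutely for Re s > 3/2, continues to Re s > 1/2 and the algebraic part of its value at
1 is divisible by all primes above p. -/
def AnNon (p : ℕ) (K : Type) [Field K] [NumberField K] : Prop :=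
  ∃ Λ : ℂ → ℂ, AnalyticOnNhd ℂ Λ {s | 1 / 2 < s.re} ∧
    (∀ s : ℂ, 3 / 2 < s.re →
      LSeriesSummable (fun n => (((E27.baseChange K).LFunction n : ℤ) : ℂ)) s ∧
      Λ s = (E27.baseChange K).LSeries s) ∧
    ∀ L : PeriodPair, L.g₂ = 0 → L.g₃ = -1 → NonP p (lAn K L (Λ 1))

end H55P
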