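import Mathlib
import Pool.Agent.Lib.H1M.PP.D_H55K_QD
import Pool.Agent.Lib.H1M.PP.D_H55P_CStm

/-! # H55K: the statements for curves over the rationals -/

open NumberField IsDedekindDomain WeierstrassCurve

namespace H55K.TQ

open H55P (IQ embF eF LF Per IsHecke Pt ac Inert Dec Nm UnitP)
open H35P (WAB Ker tt GoodW IntW)
open H55K.MG (VC Crd)

/-- The analytic part over K, W an equation over the integers: the period lattice exists, the L-series converges absolutely for Re s > 3/2,
continues to Re s > 1/2, does not vanish at 1 and the analytic order of the Tate-Shafarevich group is a p-adic unit. -/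
def AnUnitG (p : ℕ) (W : WeierstrassCurve ℤ) (K : Type) [Field K] [NumberField K] : Prop :=
  (∃ L : PeriodPair, PerZ W L) ∧
  ∃ Λ : ℂ → ℂ, AnalyticOnNhd ℂ Λ {s | 1 / 2 < s.re} ∧
    (∀ s : ℂ, 3 / 2 < s.re →
      LSeriesSummable (fun n => (((W⁄K).LFunction n : ℤ) : ℂ)) s ∧ Λ s = (W⁄K).LSeries s) ∧
    Λ 1 ≠ 0 ∧
    ∀ L : PeriodPair, PerZ W L → UnitP p (shaG K W L (Λ 1))

/-- The rank part and the p-part of the conjecture of Birch and Swinnerton-Dyer over K, in analytic rank 0 and with trivial p-Selmer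
group. -/
def BSDPG (p : ℕ) (W : WeierstrassCurve ℤ) (K : Type) [Field K] [NumberField K] : Prop :=
  (H55P.SelTriv (W⁄K) p ∧ H55P.ShaTriv (W⁄K) p ∧
    Finite (W⁄K).toAffine.Point ∧ ¬ p ∣ Nat.card (W⁄K).toAffine.Point) ∧ AnUnitG p W K

open Classical in
/-- The value L1 of the L-function at 1 divided by the periods, the Tamagawa numbers, the discriminant factors and |D|^(-1/2). -/
noncomputable def lG (K : Type) [Field K] [NumberField K] (W : WeierstrassCurve ℤ) (L : PeriodPair)
    (L1 : ℂ) : ℂ :=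
  L1 * (Real.sqrt |(NumberField.discr K : ℝ)| : ℝ) /
    ((OmP W L : ℂ) ^ NumberField.InfinitePlace.nrRealPlaces K *
      (H55C.Om L : ℂ) ^ NumberField.InfinitePlace.nrComplexPlaces K *
      ∏ᶠ w : HeightOneSpectrum (𝓞 K), ((tamG K (W⁄K) w : ℂ) * (dfac K (W⁄K) w : ℂ)))

/-- The L-series over K converges absolutely for Re s > 3/2, continues to Re s > 1/2 and the algebraic part of its value at
1 is integral above p: in all valuation rings of the complex numbers above p (in particular it is an algebraic number). -/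
def AnIntG (p : ℕ) (W : WeierstrassCurve ℤ) (K : Type) [Field K] [NumberField K] : Prop :=
  (∃ L : PeriodPair, PerZ W L) ∧
  ∃ Λ : ℂ → ℂ, AnalyticOnNhd ℂ Λ {s | 1 / 2 < s.re} ∧
    (∀ s : ℂ, 3 / 2 < s.re →
      LSeriesSummable (fun n => (((W⁄K).LFunction n : ℤ) : ℂ)) s ∧ Λ s = (W⁄K).LSeries s) ∧
    ∀ L : PeriodPair, PerZ W L → ∀ A : ValuationSubring ℂ, A.valuation (p : ℂ) < 1 → lG K W L (Λ 1) ∈ A

/-- The L-series over K converges absolutely for Re s > 3/2, continues to Re s > 1/2 and the algebraic part of its value at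
1 is divisible by all primes above p. -/
def AnNonG (p : ℕ) (W : WeierstrassCurve ℤ) (K : Type) [Field K] [NumberField K] : Prop :=
  (∃ L : PeriodPair, PerZ W L) ∧
  ∃ Λ : ℂ → ℂ, AnalyticOnNhd ℂ Λ {s | 1 / 2 < s.re} ∧
    (∀ s : ℂ, 3 / 2 < s.re →
      LSeriesSummable (fun n => (((W⁄K).LFunction n : ℤ) : ℂ)) s ∧ Λ s = (W⁄K).LSeries s) ∧
    ∀ L : PeriodPair, PerZ W L → H55P.NonP p (lG K W L (Λ 1))

/-- K is (isomorphic to) a subfield of a Galois extension L of F of degree a power of p in which p is unramified. -/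
def SubUF (F : Type) [Field F] [NumberField F] (p : ℕ) (K : Type) [Field K] [NumberField K] : Prop :=
  ∃ (L : Type) (_ : Field L) (_ : NumberField L) (_ : Algebra F L) (_ : Algebra K L),
    IsGalois F L ∧ (∃ k : ℕ, Module.finrank F L = p ^ k) ∧ H55P.UnrP p L

/-- The same, and in addition the primes v of F which do not divide the discriminant of W₀ and at which p divides the number of points are
unramified in L. -/
def InPF {F : Type} [Field F] [NumberField F] (W₀ : WeierstrassCurve (𝓞 F)) (p : ℕ) (K : Type) [Field K] [NumberField K] : Prop :=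
  ∃ (L : Type) (_ : Field L) (_ : NumberField L) (_ : Algebra F L) (_ : Algebra K L),
    IsGalois F L ∧ (∃ k : ℕ, Module.finrank F L = p ^ k) ∧ H55P.UnrP p L ∧
    ∀ (w : HeightOneSpectrum (𝓞 L)) (v : HeightOneSpectrum (𝓞 F)), v.asIdeal = w.asIdeal.under (𝓞 F) →
      W₀.Δ ∉ v.asIdeal → p ∣ Nat.card (W₀⁄(𝓞 F ⧸ v.asIdeal)).toAffine.Point →
      w.asIdeal.ramificationIdx (𝓞 F) = 1

/-- The L-series of W over K continues to Re s > 1/2 with nonzero value at 1. -/
def LNz (W : WeierstrassCurve ℤ) (K : Type) [Field K] [NumberField K] : Prop :=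
  ∃ Λ : ℂ → ℂ, AnalyticOnNhd ℂ Λ {s | 1 / 2 < s.re} ∧
    (∀ s : ℂ, 3 / 2 < s.re →
      LSeriesSummable (fun n => (((W⁄K).LFunction n : ℤ) : ℂ)) s ∧ Λ s = (W⁄K).LSeries s) ∧ Λ 1 ≠ 0

/-- The product of the algebraic part of the Hecke L-value over K and of its complex conjugate is divisible by all primes above p. -/
def NonG {F : Type} [Field F] [NumberField F] [IQ F] (p : ℕ) (Om : ℂ) (ψ : Ideal (𝓞 F) →*₀ 𝓞 F)
    (K : IntermediateField F (AlgebraicClosure F)) [NumberField K] : Prop :=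
  ∃ Φ : ℂ → ℂ, AnalyticOnNhd ℂ Φ {s | 1 / 2 < s.re} ∧
    (∀ s : ℂ, 3 / 2 < s.re → HasSum (H55N.tm (H55P.PsiP K ψ) s) (Φ s)) ∧
    ∀ V : ValuationSubring ℂ, V.valuation (p : ℂ) < 1 →
      V.valuation (Φ 1 / Om ^ Module.finrank F K) * V.valuation ((starRingEnd ℂ) (Φ 1 / Om ^ Module.finrank F K)) < 1

end H55K.TQ
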