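import Mathlib
import Pool.Agent.Lib.H1M.PP.D_H55K_D2
import Pool.Agent.Lib.H1M.PP.D_H55K_FD
import Pool.Agent.Lib.H1M.PP.D_H55P_SD

/-! # H13R: the relative theorem (arbitrary base field M): definitions -/

open NumberField IsDedekindDomain WeierstrassCurve

namespace H13R

open H55P (IQ Ram UnitP)
open H55K (GoodAt)
open H55K.TQ

section fields

variable {F : Type} [Field F] [NumberField F] {Ω : Type} [Field Ω] [Algebra F Ω]

/-- W₀ has bad reduction at all primes of M which divide its discriminant. -/
def BadM (W₀ : WeierstrassCurve (𝓞 F)) (M : IntermediateField F Ω) [NumberField M] : Prop :=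
  ∀ w : HeightOneSpectrum (𝓞 M), algebraMap (𝓞 F) (𝓞 M) W₀.Δ ∈ w.asIdeal → ¬ GoodAt ((W₀⁄F)⁄M) w

/-- No prime of M which does not divide the discriminant and at which the number of points is divisible by p is ramified in K. -/
def NoRel (p : ℕ) (W₀ : WeierstrassCurve (𝓞 F)) (M K : IntermediateField F Ω) [NumberField M] : Prop :=
  ∀ v : HeightOneSpectrum (𝓞 M), Ram M K v.asIdeal → algebraMap (𝓞 F) (𝓞 M) W₀.Δ ∉ v.asIdeal →
    ¬ p ∣ Nat.card (W₀⁄(𝓞 M ⧸ v.asIdeal)).toAffine.Point

end fields

/-- The field generated by F and M in L. -/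
noncomputable def MF (F M L : Type) [Field F] [Field M] [Field L] [Algebra F L] [Algebra M L] : IntermediateField F L :=
  IntermediateField.adjoin F (Set.range (algebraMap M L))

/-- L contains F and K, and K contains M; L is Galois over the field MF generated by F and M, of degree a power of p, p is unramified in L
and W has bad reduction at all primes of MF which divide the discriminant of W. -/
structure Rel (F : Type) [Field F] [NumberField F] (p : ℕ) (W : WeierstrassCurve ℤ) (M K L : Type) [Field M] [Field K]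
    [Field L] [NumberField L] [Algebra F L] [Algebra M L] [Algebra K L] : Prop where
  sub : ∀ x : M, ∃ y : K, algebraMap K L y = algebraMap M L x
  gal : IsGalois (MF F M L) L
  deg : ∃ k : ℕ, Module.finrank (MF F M L) L = p ^ k
  unr : H55P.UnrP p L
  bad : ∀ w : HeightOneSpectrum (𝓞 (MF F M L)), ((W.Δ : ℤ) : 𝓞 (MF F M L)) ∈ w.asIdeal → ¬ GoodAt (W⁄(MF F M L)) w

/-- There is such a field L. -/
def RelF (F : Type) [Field F] [NumberField F] (p : ℕ) (W : WeierstrassCurve ℤ) (M K : Type) [Field M] [Field K] : Prop :=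
  ∃ (L : Type) (_ : Field L) (_ : NumberField L) (_ : Algebra F L) (_ : Algebra M L) (_ : Algebra K L), Rel F p W M K L

/-- There is such a field L, and the primes of MF which do not divide the discriminant of W and modulo which the number of points of W is
divisible by p are unramified in L. -/
def InR (F : Type) [Field F] [NumberField F] (p : ℕ) (W : WeierstrassCurve ℤ) (M K : Type) [Field M] [Field K] : Prop :=
  ∃ (L : Type) (_ : Field L) (_ : NumberField L) (_ : Algebra F L) (_ : Algebra M L) (_ : Algebra K L), Rel F p W M K L ∧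
    ∀ (w : HeightOneSpectrum (𝓞 L)) (v : HeightOneSpectrum (𝓞 (MF F M L))), v.asIdeal = w.asIdeal.under (𝓞 (MF F M L)) →
      ((W.Δ : ℤ) : 𝓞 (MF F M L)) ∉ v.asIdeal → p ∣ Nat.card (W⁄(𝓞 (MF F M L) ⧸ v.asIdeal)).toAffine.Point →
      w.asIdeal.ramificationIdx (𝓞 (MF F M L)) = 1

/-- As AnUnitG, without the order of the group of points: the L-series converges absolutely for Re s > 3/2, continues to Re s > 1/2, does not
vanish at s = 1 and the algebraic part of the value is a p-adic unit. -/
def LUnitG (p : ℕ) (W : WeierstrassCurve ℤ) (K : Type) [Field K] [NumberField K] : Prop :=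
  (∃ L : PeriodPair, PerZ W L) ∧
  ∃ Λ : ℂ → ℂ, AnalyticOnNhd ℂ Λ {s | 1 / 2 < s.re} ∧
    (∀ s : ℂ, 3 / 2 < s.re →
      LSeriesSummable (fun n => (((W⁄K).LFunction n : ℤ) : ℂ)) s ∧ Λ s = (W⁄K).LSeries s) ∧
    Λ 1 ≠ 0 ∧
    ∀ L : PeriodPair, PerZ W L → UnitP p (lG K W L (Λ 1))

end H13R
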