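import Mathlib
import Pool.Agent.Lib.H1M.PP.D_H55B_Defs
import Pool.Agent.Lib.H1M.PP.M001
import Pool.Agent.Lib.H1M.PP.M005

/-! Merged copies (to shorten the build) of Lib.H19Z.L1, Lib.H55K.D2B, Lib.H55K.W7, Lib.H55C.W9, Lib.H55B.D1, Lib.H55B.D2, Lib.H55K.C21, Lib.H55C.W3, Lib.H55C.W4, Lib.H55K.M4A, Lib.H55R.X5, Lib.H35T.F1, Lib.H35T.F2, Lib.H55B.K2, Lib.H55K.W4A, Lib.H55K.W5A, Lib.H55C.A17. -/

-- from Lib.H19Z.L1
section

/-! Chunk ZL1 (M): the change of variables x = u^2 x' + r, y = u^3 y' + u^2 s x' + t is an isomorphism of the groups of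
points. Copy H55P/S4.lean (PS4_eq, PS4_negY, PS4_cond, PS4_slope, PS4_addX, PS4_addY, PS4_ns, PS4_f, PS4_f_add, PS4_iso; there
u = 1 and W₂ is short): first the structure of the relations between the coefficients
  u a1' = a1 + 2s, u^2 a2' = a2 - s a1 + 3r - s^2, u^3 a3' = a3 + r a1 + 2t,
  u^4 a4' = a4 - s a3 + 2r a2 - (t + rs) a1 + 3r^2 - 2st, u^6 a6' = a6 + r a4 + r^2 a2 + r^3 - t a3 - t^2 - r t a1
(from WeierstrassCurve.variableChange_a₁ ..., Mathlib AlgebraicGeometry/EllipticCurve/VariableChange.lean), the map on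
coordinates f(x', y') = (u^2 x' + r, u^3 y' + u^2 s x' + t). Equation' <-> Equation (the difference is u^6 times);
negY (f P) = f (negY' P); slope: slope = u slope' + s (cases x1 = x2, y1 <> negY: slope_of_Y_ne; x1 <> x2: slope_of_X_ne);
addX: addX = u^2 addX' + r. The curves are elliptic, so Nonsingular <-> Equation (Affine.equation_iff_nonsingular;
Mathlib has the instance (C • W).IsElliptic). -/

open WeierstrassCurve

namespace H19Z

/-- The coefficients of the two curves are related by the change of variables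
`X = u^2 x + r`, `Y = u^3 y + u^2 s x + t`. -/
structure ZL1_D {k : Type} [Field k] (W₁ W₂ : WeierstrassCurve k) (u r s t : k) : Prop where
  hu : u ≠ 0
  h1 : u * W₁.a₁ = W₂.a₁ + 2 * s
  h2 : u ^ 2 * W₁.a₂ = W₂.a₂ - s * W₂.a₁ + 3 * r - s ^ 2
  h3 : u ^ 3 * W₁.a₃ = W₂.a₃ + r * W₂.a₁ + 2 * t
  h4 : u ^ 4 * W₁.a₄ = W₂.a₄ - s * W₂.a₃ + 2 * r * W₂.a₂ - (t + r * s) * W₂.a₁ + 3 * r ^ 2
      - 2 * s * t
  h6 : u ^ 6 * W₁.a₆ = W₂.a₆ + r * W₂.a₄ + r ^ 2 * W₂.a₂ + r ^ 3 - t * W₂.a₃ - t ^ 2
      - r * t * W₂.a₁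

section

variable {k : Type} [Field k] {W₁ W₂ : WeierstrassCurve k} {u r s t : k}

theorem ZL1_eq (D : ZL1_D W₁ W₂ u r s t) (x y : k) :
    W₁.toAffine.Equation x y ↔
      W₂.toAffine.Equation (u ^ 2 * x + r) (u ^ 3 * y + u ^ 2 * s * x + t) := by
  have h1 : u * W₁.toAffine.a₁ = W₂.toAffine.a₁ + 2 * s := D.h1
  have h2 : u ^ 2 * W₁.toAffine.a₂ = W₂.toAffine.a₂ - s * W₂.toAffine.a₁ + 3 * r - s ^ 2 := D.h2
  have h3 : u ^ 3 * W₁.toAffine.a₃ = W₂.toAffine.a₃ + r * W₂.toAffine.a₁ + 2 * t := D.h3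
  have h4 : u ^ 4 * W₁.toAffine.a₄ = W₂.toAffine.a₄ - s * W₂.toAffine.a₃ +
      2 * r * W₂.toAffine.a₂ - (t + r * s) * W₂.toAffine.a₁ + 3 * r ^ 2 - 2 * s * t := D.h4
  have h6 : u ^ 6 * W₁.toAffine.a₆ = W₂.toAffine.a₆ + r * W₂.toAffine.a₄ +
      r ^ 2 * W₂.toAffine.a₂ + r ^ 3 - t * W₂.toAffine.a₃ - t ^ 2
      - r * t * W₂.toAffine.a₁ := D.h6
  rw [Affine.equation_iff, Affine.equation_iff]
  constructor
  · intro h
    linear_combination u ^ 6 * h - u ^ 5 * x * y * h1 - u ^ 3 * y * h3 + u ^ 4 * x ^ 2 * h2 +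
      u ^ 2 * x * h4 + h6
  · intro h
    refine mul_left_cancel₀ (pow_ne_zero 6 D.hu) ?_
    linear_combination h + u ^ 5 * x * y * h1 + u ^ 3 * y * h3 - u ^ 4 * x ^ 2 * h2 -
      u ^ 2 * x * h4 - h6

theorem ZL1_negY (D : ZL1_D W₁ W₂ u r s t) (x y : k) :
    W₂.toAffine.negY (u ^ 2 * x + r) (u ^ 3 * y + u ^ 2 * s * x + t) =
      u ^ 3 * W₁.toAffine.negY x y + u ^ 2 * s * x + t := by
  have h1 : u * W₁.toAffine.a₁ = W₂.toAffine.a₁ + 2 * s := D.h1
  have h3 : u ^ 3 * W₁.toAffine.a₃ = W₂.toAffine.a₃ + r * W₂.toAffine.a₁ + 2 * t := D.h3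
  rw [Affine.negY, Affine.negY]
  linear_combination u ^ 2 * x * h1 + h3

theorem ZL1_cond (D : ZL1_D W₁ W₂ u r s t) (x₁ y₁ x₂ y₂ : k) :
    (u ^ 2 * x₁ + r = u ^ 2 * x₂ + r ∧ u ^ 3 * y₁ + u ^ 2 * s * x₁ + t =
      W₂.toAffine.negY (u ^ 2 * x₂ + r) (u ^ 3 * y₂ + u ^ 2 * s * x₂ + t)) ↔
      (x₁ = x₂ ∧ y₁ = W₁.toAffine.negY x₂ y₂) := by
  rw [ZL1_negY D]
  constructor
  · rintro ⟨h1, h2⟩
    have h3 : x₁ = x₂ := mul_left_cancel₀ (pow_ne_zero 2 D.hu) (by linear_combination h1)
    refine ⟨h3, ?_⟩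
    rw [h3] at h2
    exact mul_left_cancel₀ (pow_ne_zero 3 D.hu) (by linear_combination h2)
  · rintro ⟨h1, h2⟩
    rw [h1, h2]
    exact ⟨rfl, rfl⟩

theorem ZL1_slope [DecidableEq k] (D : ZL1_D W₁ W₂ u r s t) {x₁ y₁ x₂ y₂ : k}
    (E₁ : W₁.toAffine.Equation x₁ y₁) (E₂ : W₁.toAffine.Equation x₂ y₂)
    (hxy : ¬(x₁ = x₂ ∧ y₁ = W₁.toAffine.negY x₂ y₂)) :
    W₂.toAffine.slope (u ^ 2 * x₁ + r) (u ^ 2 * x₂ + r) (u ^ 3 * y₁ + u ^ 2 * s * x₁ + t)
      (u ^ 3 * y₂ + u ^ 2 * s * x₂ + t) = u * W₁.toAffine.slope x₁ x₂ y₁ y₂ + s := by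
  have hu := D.hu
  by_cases hx : x₁ = x₂
  · have hy : y₁ ≠ W₁.toAffine.negY x₂ y₂ := fun h => hxy ⟨hx, h⟩
    have hy' : u ^ 3 * y₁ + u ^ 2 * s * x₁ + t ≠
        W₂.toAffine.negY (u ^ 2 * x₂ + r) (u ^ 3 * y₂ + u ^ 2 * s * x₂ + t) := fun h =>
      hxy ((ZL1_cond D x₁ y₁ x₂ y₂).1 ⟨by rw [hx], h⟩)
    have hyy : y₁ = y₂ := Affine.Y_eq_of_Y_ne E₁ E₂ hx hy
    rw [Affine.slope_of_Y_ne (by rw [hx]) hy', Affine.slope_of_Y_ne hx hy, ZL1_negY D]
    have hne : y₁ - W₁.toAffine.negY x₁ y₁ ≠ 0 := by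
      rw [sub_ne_zero]
      rw [← hx, ← hyy] at hy
      exact hy
    have h1 : u * W₁.toAffine.a₁ = W₂.toAffine.a₁ + 2 * s := D.h1
    have h2 : u ^ 2 * W₁.toAffine.a₂ = W₂.toAffine.a₂ - s * W₂.toAffine.a₁ + 3 * r - s ^ 2 := D.h2
    have h3 : u ^ 3 * W₁.toAffine.a₃ = W₂.toAffine.a₃ + r * W₂.toAffine.a₁ + 2 * t := D.h3
    have h4 : u ^ 4 * W₁.toAffine.a₄ = W₂.toAffine.a₄ - s * W₂.toAffine.a₃ +
      2 * r * W₂.toAffine.a₂ - (t + r * s) * W₂.toAffine.a₁ + 3 * r ^ 2 - 2 * s * t := D.h4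
    have e5 : u ^ 3 * y₁ + u ^ 2 * s * x₁ + t -
        (u ^ 3 * W₁.toAffine.negY x₁ y₁ + u ^ 2 * s * x₁ + t) =
        u ^ 3 * (y₁ - W₁.toAffine.negY x₁ y₁) := by
      ring
    rw [e5, div_eq_iff (mul_ne_zero (pow_ne_zero 3 hu) hne)]
    have e6 : (u * ((3 * x₁ ^ 2 + 2 * W₁.toAffine.a₂ * x₁ + W₁.toAffine.a₄ -
        W₁.toAffine.a₁ * y₁) / (y₁ - W₁.toAffine.negY x₁ y₁)) + s) *
        (u ^ 3 * (y₁ - W₁.toAffine.negY x₁ y₁)) =
        u ^ 4 * (3 * x₁ ^ 2 + 2 * W₁.toAffine.a₂ * x₁ + W₁.toAffine.a₄ -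
        W₁.toAffine.a₁ * y₁) + s * u ^ 3 * (y₁ - W₁.toAffine.negY x₁ y₁) := by
      field_simp
    rw [e6, Affine.negY]
    linear_combination (-2) * u ^ 2 * x₁ * h2 - h4 + u ^ 3 * y₁ * h1 - s * u ^ 2 * x₁ * h1 -
      s * h3
  · have hx' : u ^ 2 * x₁ + r ≠ u ^ 2 * x₂ + r := fun h =>
      hx (mul_left_cancel₀ (pow_ne_zero 2 hu) (by linear_combination h))
    have h0 : x₁ - x₂ ≠ 0 := sub_ne_zero.2 hx
    rw [Affine.slope_of_X_ne hx', Affine.slope_of_X_ne hx]
    have e5 : u ^ 2 * x₁ + r - (u ^ 2 * x₂ + r) = u ^ 2 * (x₁ - x₂) := by ring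
    rw [e5, div_eq_iff (mul_ne_zero (pow_ne_zero 2 hu) h0)]
    have e6 : (u * ((y₁ - y₂) / (x₁ - x₂)) + s) * (u ^ 2 * (x₁ - x₂)) =
        u ^ 3 * (y₁ - y₂) + s * u ^ 2 * (x₁ - x₂) := by
      field_simp
    rw [e6]
    ring

theorem ZL1_addX (D : ZL1_D W₁ W₂ u r s t) (x₁ x₂ l : k) :
    W₂.toAffine.addX (u ^ 2 * x₁ + r) (u ^ 2 * x₂ + r) (u * l + s) =
      u ^ 2 * W₁.toAffine.addX x₁ x₂ l + r := by
  have h1 : u * W₁.toAffine.a₁ = W₂.toAffine.a₁ + 2 * s := D.h1
  have h2 : u ^ 2 * W₁.toAffine.a₂ = W₂.toAffine.a₂ - s * W₂.toAffine.a₁ + 3 * r - s ^ 2 := D.h2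
  rw [Affine.addX, Affine.addX]
  linear_combination -(u * l) * h1 + h2

theorem ZL1_addY (D : ZL1_D W₁ W₂ u r s t) (x₁ x₂ y₁ l : k) :
    W₂.toAffine.addY (u ^ 2 * x₁ + r) (u ^ 2 * x₂ + r) (u ^ 3 * y₁ + u ^ 2 * s * x₁ + t)
      (u * l + s) =
      u ^ 3 * W₁.toAffine.addY x₁ x₂ y₁ l + u ^ 2 * s * W₁.toAffine.addX x₁ x₂ l + t := by
  have h : W₂.toAffine.negAddY (u ^ 2 * x₁ + r) (u ^ 2 * x₂ + r)
      (u ^ 3 * y₁ + u ^ 2 * s * x₁ + t) (u * l + s) =
      u ^ 3 * W₁.toAffine.negAddY x₁ x₂ y₁ l + u ^ 2 * s * W₁.toAffine.addX x₁ x₂ l + t := by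
    rw [Affine.negAddY, Affine.negAddY, ZL1_addX D]
    ring
  rw [Affine.addY, Affine.addY, h, ZL1_addX D, ZL1_negY D]

theorem ZL1_ns [W₁.IsElliptic] [W₂.IsElliptic] (D : ZL1_D W₁ W₂ u r s t) (x y : k) :
    W₁.toAffine.Nonsingular x y ↔
      W₂.toAffine.Nonsingular (u ^ 2 * x + r) (u ^ 3 * y + u ^ 2 * s * x + t) := by
  rw [← Affine.equation_iff_nonsingular (W := W₁.toAffine),
    ← Affine.equation_iff_nonsingular (W := W₂.toAffine)]
  exact ZL1_eq D x y

/-- The map on points. -/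
noncomputable def ZL1_f [W₁.IsElliptic] [W₂.IsElliptic] (D : ZL1_D W₁ W₂ u r s t) :
    W₁.toAffine.Point → W₂.toAffine.Point
  | 0 => 0
  | .some x y h => .some (u ^ 2 * x + r) (u ^ 3 * y + u ^ 2 * s * x + t) ((ZL1_ns D x y).1 h)

theorem ZL1_f_add [DecidableEq k] [W₁.IsElliptic] [W₂.IsElliptic] (D : ZL1_D W₁ W₂ u r s t)
    (P Q : W₁.toAffine.Point) : ZL1_f D (P + Q) = ZL1_f D P + ZL1_f D Q := by
  rcases P with _ | ⟨x₁, y₁, h₁⟩
  · change ZL1_f D (0 + Q) = 0 + ZL1_f D Q
    rw [zero_add, zero_add]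
  rcases Q with _ | ⟨x₂, y₂, h₂⟩
  · change ZL1_f D (_ + 0) = _ + 0
    rw [add_zero, add_zero]
  by_cases hxy : x₁ = x₂ ∧ y₁ = W₁.toAffine.negY x₂ y₂
  · rw [Affine.Point.add_of_Y_eq hxy.1 hxy.2]
    have h := (ZL1_cond D x₁ y₁ x₂ y₂).2 hxy
    exact (Affine.Point.add_of_Y_eq (h₁ := (ZL1_ns D x₁ y₁).1 h₁) (h₂ := (ZL1_ns D x₂ y₂).1 h₂)
      h.1 h.2).symm
  · have hxy' := fun h => hxy ((ZL1_cond D x₁ y₁ x₂ y₂).1 h)
    have e1 := Affine.Point.add_some hxy' (h₁ := (ZL1_ns D x₁ y₁).1 h₁)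
      (h₂ := (ZL1_ns D x₂ y₂).1 h₂)
    rw [Affine.Point.add_some hxy]
    refine Eq.trans ?_ e1.symm
    change Affine.Point.some _ _ _ = Affine.Point.some _ _ _
    rw [Affine.Point.some.injEq]
    rw [ZL1_slope D h₁.1 h₂.1 hxy, ZL1_addX D, ZL1_addY D]
    exact ⟨rfl, rfl⟩

theorem ZL1_f_inj [W₁.IsElliptic] [W₂.IsElliptic] (D : ZL1_D W₁ W₂ u r s t) :
    Function.Injective (ZL1_f D) := by
  intro P Q hPQ
  rcases P with _ | ⟨x₁, y₁, h₁⟩
  · rcases Q with _ | ⟨x₂, y₂, h₂⟩
    · rfl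
    · exact absurd hPQ (Affine.Point.some_ne_zero _).symm
  · rcases Q with _ | ⟨x₂, y₂, h₂⟩
    · exact absurd hPQ (Affine.Point.some_ne_zero _)
    · have h := Affine.Point.some.inj hPQ
      have hx : x₁ = x₂ :=
        mul_left_cancel₀ (pow_ne_zero 2 D.hu) (by linear_combination h.1)
      have hy : y₁ = y₂ :=
        mul_left_cancel₀ (pow_ne_zero 3 D.hu) (by linear_combination h.2 - u ^ 2 * s * hx)
      subst hx hy
      rfl

theorem ZL1_f_surj [W₁.IsElliptic] [W₂.IsElliptic] (D : ZL1_D W₁ W₂ u r s t) :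
    Function.Surjective (ZL1_f D) := by
  intro P
  rcases P with _ | ⟨x, y, h⟩
  · exact ⟨0, rfl⟩
  · have hu := D.hu
    have e1 : u ^ 2 * ((x - r) / u ^ 2) + r = x := by field_simp; ring
    have e2 : u ^ 3 * ((y - u ^ 2 * s * ((x - r) / u ^ 2) - t) / u ^ 3) +
        u ^ 2 * s * ((x - r) / u ^ 2) + t = y := by field_simp; ring
    have h' : W₁.toAffine.Nonsingular ((x - r) / u ^ 2)
        ((y - u ^ 2 * s * ((x - r) / u ^ 2) - t) / u ^ 3) := by
      rw [ZL1_ns D, e1, e2]
      exact h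
    refine ⟨.some _ _ h', ?_⟩
    change Affine.Point.some _ _ _ = Affine.Point.some _ _ _
    rw [Affine.Point.some.injEq]
    exact ⟨e1, e2⟩

/-- The isomorphism of the groups of points. -/
noncomputable def ZL1_iso [DecidableEq k] [W₁.IsElliptic] [W₂.IsElliptic]
    (D : ZL1_D W₁ W₂ u r s t) : W₁.toAffine.Point ≃+ W₂.toAffine.Point :=
  AddEquiv.ofBijective (AddMonoidHom.mk' (ZL1_f D) (ZL1_f_add D)) ⟨ZL1_f_inj D, ZL1_f_surj D⟩

end

theorem ZL1_rel {k : Type} [Field k] (W : WeierstrassCurve k) (C : VariableChange k) :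
    ZL1_D (C • W) W (C.u : k) C.r C.s C.t where
  hu := C.u.ne_zero
  h1 := by
    rw [variableChange_a₁, ← mul_assoc, Units.mul_inv, one_mul]
  h2 := by
    rw [variableChange_a₂, ← mul_assoc, ← mul_pow, Units.mul_inv, one_pow, one_mul]
  h3 := by
    rw [variableChange_a₃, ← mul_assoc, ← mul_pow, Units.mul_inv, one_pow, one_mul]
  h4 := by
    rw [variableChange_a₄, ← mul_assoc, ← mul_pow, Units.mul_inv, one_pow, one_mul]
  h6 := by
    rw [variableChange_a₆, ← mul_assoc, ← mul_pow, Units.mul_inv, one_pow, one_mul]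

theorem vc_iso {k : Type} [Field k] [DecidableEq k] (W : WeierstrassCurve k) [W.IsElliptic]
    (C : VariableChange k) :
    ∃ φ : (C • W).toAffine.Point ≃+ W.toAffine.Point,
      ∀ (x y : k) (h : (C • W).toAffine.Nonsingular x y),
        ∃ h' : W.toAffine.Nonsingular ((C.u : k) ^ 2 * x + C.r)
            ((C.u : k) ^ 3 * y + (C.u : k) ^ 2 * C.s * x + C.t),
          φ (Affine.Point.some x y h) = Affine.Point.some _ _ h' :=
  ⟨ZL1_iso (ZL1_rel W C), fun x y h => ⟨(ZL1_ns (ZL1_rel W C) x y).1 h, rfl⟩⟩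

end H19Z
end

-- from Lib.H55K.D2B
section

/-! # H55K, part D: the number of points does not change under a change of variables -/

open WeierstrassCurve

namespace H55K.DD

/-- Chunk D2B (S/M). The points of D • E are (x, y) with (u^2 x + r, u^3 y + s u^2 x + t) on E (see H55B.F1_count, Lib/H55B/F1.lean; or Affine / VariableChange lemmas in Mathlib, or H35P, MG.vc_iso). Discriminants are nonzero, so nonsingular = equation
(Affine.equation_iff_nonsingular_of_Δ_ne_zero); an equivalence of the point types (Affine.pointEquiv / nonsingularPointEquiv). -/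
theorem card_vc (k : Type) [Field k] (D : VariableChange k) (E : WeierstrassCurve k) (hΔ : E.Δ ≠ 0) :
    Nat.card (D • E).toAffine.Point = Nat.card E.toAffine.Point := by
  classical
  have : E.IsElliptic := ⟨isUnit_iff_ne_zero.2 hΔ⟩
  obtain ⟨φ, -⟩ := H19Z.vc_iso E D
  exact Nat.card_congr φ.toEquiv

end H55K.DD
end

-- from Lib.H55K.W7
section

/-! # H55K, part W: the zeta function of an elliptic curve, algebra -/

namespace H55K.WZ

theorem w7_rec (x : ℂ) (i : ℕ → ℂ) (n : ℕ) :
    ∑ m ∈ Finset.Icc 1 (n + 1), x ^ m * i (n + 1 - m) =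
      x * (i n + ∑ m ∈ Finset.Icc 1 n, x ^ m * i (n - m)) := by
  have h1 : Finset.Icc 1 (n + 1) = insert 1 (Finset.Icc 2 (n + 1)) := by
    ext m
    simp only [Finset.mem_Icc, Finset.mem_insert]
    omega
  have h2 : (1 : ℕ) ∉ Finset.Icc 2 (n + 1) := by simp
  have h3 : ∑ m ∈ Finset.Icc 2 (n + 1), x ^ m * i (n + 1 - m) =
      ∑ m ∈ Finset.Icc 1 n, x ^ (m + 1) * i (n - m) := by
    refine Finset.sum_nbij' (fun m => m - 1) (fun m => m + 1) ?_ ?_ ?_ ?_ ?_
    · intro m hm
      simp only [Finset.mem_Icc] at hm ⊢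
      omega
    · intro m hm
      simp only [Finset.mem_Icc] at hm ⊢
      omega
    · intro m hm
      simp only [Finset.mem_Icc] at hm
      show m - 1 + 1 = m
      omega
    · intro m _
      show m + 1 - 1 = m
      omega
    · intro m hm
      simp only [Finset.mem_Icc] at hm
      have e1 : m - 1 + 1 = m := by omega
      have e2 : n + 1 - m = n - (m - 1) := by omega
      rw [e1, e2]
  rw [h1, Finset.sum_insert h2, h3, mul_add, Finset.mul_sum]
  have e3 : n + 1 - 1 = n := by omega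
  rw [e3, pow_one]
  congr 1
  refine Finset.sum_congr rfl fun m _ => ?_
  ring

/-- Chunk W7 (M), pure algebra. Power series over ℂ: Z = sum i n T^n satisfies (1 - q T) Z = (1 - α T)(1 - β T) (coefficients: 0: i 0 = 1; 1: i 1 - q = -(α + β); 2: (q + 1 - a) q - q (q - a) = q = α β; n ≥ 3: 0). C' = sum over m ≥ 1 of c' m T^m with c' m = q^m - α^m - β^m is q T/(1 - q T) - α T/(1 - α T) - β T/(1 - β T). T dZ/dT = C' Z
(multiply by (1 - q T)^2 or use the product rule), so n i n = sum over m in [1, n] of c' m i (n - m). The recursion determines c (i 0 = 1): strong induction on m: c m = m i m - sum over m' < m of c m' i (m - m'). Alternative without power series: prove n i n = sum of c' m i (n - m) directly from the geometric sums. -/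
theorem alg (q α β : ℂ) (i c : ℕ → ℂ) (h0 : i 0 = 1) (h1 : i 1 = q - (α + β))
    (h2 : ∀ n : ℕ, 2 ≤ n → i n = (q + 1 - (α + β)) * q ^ (n - 1)) (hαβ : α * β = q)
    (hrec : ∀ n : ℕ, 1 ≤ n → (n : ℂ) * i n = ∑ m ∈ Finset.Icc 1 n, c m * i (n - m)) :
    ∀ m : ℕ, 1 ≤ m → c m = q ^ m - α ^ m - β ^ m := by
  have a1 : ∀ x : ℂ, ∑ m ∈ Finset.Icc 1 1, x ^ m * i (1 - m) = x := by
    intro x
    simp [h0]
  have i2 : ∀ n : ℕ, i (n + 2) = (q + 1 - (α + β)) * q ^ (n + 1) := fun n => h2 (n + 2) (by omega)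
  have aα : ∀ x y : ℂ, x * y = q → x + y = α + β → ∀ n : ℕ,
      ∑ m ∈ Finset.Icc 1 (n + 2), x ^ m * i (n + 2 - m) = q ^ (n + 1) * (x - 1) := by
    intro x y hxy hs n
    induction n with
    | zero =>
      have := w7_rec x i 1
      rw [a1, h1, ← hs] at this
      have e : (0 + 2 : ℕ) = 1 + 1 := rfl
      rw [e, this, ← hxy]
      ring
    | succ n ih =>
      have := w7_rec x i (n + 2)
      rw [ih, i2, ← hs] at this
      have e : (n + 1 + 2 : ℕ) = n + 2 + 1 := rfl
      rw [e, this]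
      have e2 : q ^ (n + 1 + 1) = q ^ (n + 1) * (x * y) := by rw [pow_succ, hxy]
      rw [e2, ← hxy]
      ring
  have aq : ∀ n : ℕ, ∑ m ∈ Finset.Icc 1 (n + 2), q ^ m * i (n + 2 - m) =
      q ^ (n + 1) * (((n : ℂ) + 2) * (q + 1 - (α + β)) + (α + β) - 2) := by
    intro n
    induction n with
    | zero =>
      have := w7_rec q i 1
      rw [a1, h1] at this
      have e : (0 + 2 : ℕ) = 1 + 1 := rfl
      rw [e, this]
      push_cast
      ring
    | succ n ih =>
      have := w7_rec q i (n + 2)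
      rw [ih, i2] at this
      have e : (n + 1 + 2 : ℕ) = n + 2 + 1 := rfl
      rw [e, this]
      push_cast
      ring
  have key : ∀ n : ℕ, 1 ≤ n → (n : ℂ) * i n =
      ∑ m ∈ Finset.Icc 1 n, (q ^ m - α ^ m - β ^ m) * i (n - m) := by
    intro n hn
    have hsplit : ∑ m ∈ Finset.Icc 1 n, (q ^ m - α ^ m - β ^ m) * i (n - m) =
        ∑ m ∈ Finset.Icc 1 n, q ^ m * i (n - m) - ∑ m ∈ Finset.Icc 1 n, α ^ m * i (n - m) -
          ∑ m ∈ Finset.Icc 1 n, β ^ m * i (n - m) := by
      rw [← Finset.sum_sub_distrib, ← Finset.sum_sub_distrib]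
      refine Finset.sum_congr rfl fun m _ => ?_
      ring
    rw [hsplit]
    rcases Nat.lt_or_ge n 2 with h | h
    · have hn1 : n = 1 := by omega
      subst hn1
      rw [a1, a1, a1, h1]
      push_cast
      ring
    · obtain ⟨k, rfl⟩ : ∃ k, n = k + 2 := ⟨n - 2, by omega⟩
      rw [aq, aα α β hαβ rfl, aα β α (by rw [mul_comm]; exact hαβ) (add_comm _ _), i2]
      push_cast
      ring
  intro m
  induction m using Nat.strong_induction_on with
  | _ m ih =>
    intro hm
    have e1 := hrec m hm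
    rw [key m hm] at e1
    have hI : Finset.Icc 1 m = insert m (Finset.Ico 1 m) := by
      ext t
      simp only [Finset.mem_Icc, Finset.mem_insert, Finset.mem_Ico]
      omega
    have hnm : m ∉ Finset.Ico 1 m := by simp
    rw [hI, Finset.sum_insert hnm, Finset.sum_insert hnm, Nat.sub_self, h0, mul_one, mul_one] at e1
    have e2 : ∑ t ∈ Finset.Ico 1 m, c t * i (m - t) =
        ∑ t ∈ Finset.Ico 1 m, (q ^ t - α ^ t - β ^ t) * i (m - t) := by
      refine Finset.sum_congr rfl fun t ht => ?_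
      rw [Finset.mem_Ico] at ht
      rw [ih t ht.2 ht.1]
    rw [e2] at e1
    exact (add_right_cancel e1).symm

end H55K.WZ
end

-- from Lib.H55C.W9
section

open NumberField IsDedekindDomain

namespace H55C

/-! Chunk W9: points of y^2 + y = x^3 with singular reduction, over a field with a discrete valuation in which
3 has valuation 2 (exp (-2) in multiplicative notation) and w is a primitive cube root of unity.
v(w) = 1. w^2 + w + 1 = 0 gives 3 = -w^2 (w - 1)^2, so v(w - 1) = exp(-1), v(w^2 - 1) = exp(-1) (w^2 - 1 =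
(w - 1)(w + 1) = -(w-1) w^2), v(w^2 - w) = exp(-1); v(2) = 1 (2 = 3 - 1). All values are 0 or exp(k), k an integer, so
a value < 1 is <= exp(-1).
(y - w)(y - w^2) = y^2 + y + 1 = x^3 + 1 = (x + 1)(x + w)(x + w^2).
(y - w) + (y - w^2) = 2y + 1 and (y - w) - (y - w^2) = w^2 - w both have valuation < 1, so v(y - w), v(y - w^2) < 1
(v(2) = 1), hence <= exp(-1). So the product of the three factors on the right has valuation <= exp(-2) < 1, one of them
has valuation < 1, and since they differ by elements of valuation <= exp(-1) all three have valuation <= exp(-1). So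
the product is <= exp(-3), one of v(y - w), v(y - w^2) is <= exp(-2), and then the other one is exp(-1) (their
difference has valuation exp(-1)). -/
theorem W9_lt {a : WithZero (Multiplicative ℤ)} {n : ℤ} (h : a < WithZero.exp n) :
    a ≤ WithZero.exp (n - 1) := by
  by_cases ha : a = 0
  · rw [ha]
    exact zero_le
  · obtain ⟨m, rfl⟩ : ∃ m : ℤ, WithZero.exp m = a := ⟨WithZero.log a, WithZero.exp_log ha⟩
    rw [WithZero.exp_lt_exp] at h
    rw [WithZero.exp_le_exp]
    omega

theorem W9_lt_one {a : WithZero (Multiplicative ℤ)} (h : a < 1) : a ≤ WithZero.exp (-1 : ℤ) :=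
  W9_lt (n := 0) h

theorem W9_one : WithZero.exp (-1 : ℤ) < (1 : WithZero (Multiplicative ℤ)) := by
  rw [← WithZero.exp_zero, WithZero.exp_lt_exp]
  norm_num

theorem W9_two : WithZero.exp (-2 : ℤ) < WithZero.exp (-1 : ℤ) := by
  rw [WithZero.exp_lt_exp]
  norm_num

theorem W9_w {k : Type*} [Field k] (v : Valuation k (WithZero (Multiplicative ℤ))) (w : k)
    (hw : w ^ 2 + w + 1 = 0) : v w = 1 := by
  have h1 : w ^ 3 = 1 := by linear_combination (w - 1) * hw
  have h2 : v w ^ 3 = 1 := by rw [← map_pow, h1, map_one]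
  exact (pow_eq_one_iff.1 h2).resolve_right (by norm_num)

theorem W9_w1 {k : Type*} [Field k] (v : Valuation k (WithZero (Multiplicative ℤ))) (w : k)
    (hw : w ^ 2 + w + 1 = 0) (h3 : v 3 = WithZero.exp (-2 : ℤ)) :
    v (w - 1) = WithZero.exp (-1 : ℤ) := by
  have h1 : (3 : k) = -(w ^ 2 * (w - 1) ^ 2) := by
    linear_combination (w ^ 2 - 3 * w + 3) * hw
  have h2 : v (w - 1) ^ 2 = WithZero.exp (-2 : ℤ) := by
    rw [← h3, h1, Valuation.map_neg, map_mul, map_pow, map_pow, W9_w v w hw, one_pow, one_mul]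
  by_cases h0 : v (w - 1) = 0
  · rw [h0, zero_pow (by norm_num)] at h2
    exact absurd h2.symm WithZero.exp_ne_zero
  · obtain ⟨m, hm⟩ : ∃ m : ℤ, WithZero.exp m = v (w - 1) :=
      ⟨WithZero.log (v (w - 1)), WithZero.exp_log h0⟩
    rw [← hm] at h2 ⊢
    rw [pow_two, ← WithZero.exp_add, WithZero.exp_inj] at h2
    rw [WithZero.exp_inj]
    omega

theorem cusp {k : Type*} [Field k] (v : Valuation k (WithZero (Multiplicative ℤ))) (w x y : k)
    (hw : w ^ 2 + w + 1 = 0) (h3 : v 3 = WithZero.exp (-2 : ℤ)) (hxy : y ^ 2 + y = x ^ 3)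
    (hy : v (2 * y + 1) < 1) :
    v (x + 1) < 1 ∧
      ((v (y - w) ≤ WithZero.exp (-2 : ℤ) ∧ v (y - w ^ 2) = WithZero.exp (-1 : ℤ)) ∨
        (v (y - w ^ 2) ≤ WithZero.exp (-2 : ℤ) ∧ v (y - w) = WithZero.exp (-1 : ℤ))) := by
  have vw := W9_w v w hw
  have vw1 := W9_w1 v w hw h3
  have vww : v (w ^ 2 - w) = WithZero.exp (-1 : ℤ) := by
    have e : w ^ 2 - w = w * (w - 1) := by ring
    rw [e, map_mul, vw, one_mul, vw1]
  have vw21 : v (w ^ 2 - 1) = WithZero.exp (-1 : ℤ) := by
    have e : w ^ 2 - 1 = -(w ^ 2 * (w - 1)) := by linear_combination (w - 1) * hw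
    rw [e, Valuation.map_neg, map_mul, map_pow, vw, one_pow, one_mul, vw1]
  have v2 : v 2 = 1 := by
    have e2 : (2 : k) = -(1 - 3) := by norm_num
    have h31 : v 3 < v 1 := by
      rw [h3, map_one]
      exact W9_two.trans W9_one
    rw [e2, Valuation.map_neg, Valuation.map_sub_eq_of_lt_left _ h31, map_one]
  have a1 : v (y - w) < 1 := by
    have e : 2 * (y - w) = (2 * y + 1) + (w ^ 2 - w) := by linear_combination (-1 : k) * hw
    have h : v (2 * (y - w)) < 1 := by
      rw [e]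
      exact v.map_add_lt hy (by rw [vww]; exact W9_one)
    rwa [map_mul, v2, one_mul] at h
  have a2 : v (y - w ^ 2) < 1 := by
    have e : 2 * (y - w ^ 2) = (2 * y + 1) - (w ^ 2 - w) := by linear_combination (-1 : k) * hw
    have h : v (2 * (y - w ^ 2)) < 1 := by
      rw [e]
      exact v.map_sub_lt hy (by rw [vww]; exact W9_one)
    rwa [map_mul, v2, one_mul] at h
  have a1' := W9_lt_one a1
  have a2' := W9_lt_one a2
  have hprod : (y - w) * (y - w ^ 2) = (x + 1) * ((x + w) * (x + w ^ 2)) := by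
    have hw3 : w ^ 3 = 1 := by linear_combination (w - 1) * hw
    linear_combination hxy + (-y - x ^ 2 - x) * hw - x * hw3
  have hp1 : v (x + 1) * (v (x + w) * v (x + w ^ 2)) < 1 := by
    rw [← map_mul, ← map_mul, ← hprod, map_mul]
    exact mul_lt_one_of_nonneg_of_lt_one_left zero_le a1 a2.le
  have b1 : v (x + 1) < 1 := by
    by_cases c1 : v (x + 1) < 1
    · exact c1
    by_cases c2 : v (x + w) < 1
    · have e : x + 1 = (x + w) - (w - 1) := by ring
      rw [e]
      exact v.map_sub_lt c2 (by rw [vw1]; exact W9_one)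
    by_cases c3 : v (x + w ^ 2) < 1
    · have e : x + 1 = (x + w ^ 2) - (w ^ 2 - 1) := by ring
      rw [e]
      exact v.map_sub_lt c3 (by rw [vw21]; exact W9_one)
    · exact absurd hp1 (not_lt.2 (one_le_mul (not_lt.1 c1) (one_le_mul (not_lt.1 c2)
        (not_lt.1 c3))))
  have b1' := W9_lt_one b1
  have b2' : v (x + w) ≤ WithZero.exp (-1 : ℤ) := by
    have e : x + w = (x + 1) + (w - 1) := by ring
    rw [e]
    exact v.map_add_le b1' vw1.le
  have b3' : v (x + w ^ 2) ≤ WithZero.exp (-1 : ℤ) := by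
    have e : x + w ^ 2 = (x + 1) + (w ^ 2 - 1) := by ring
    rw [e]
    exact v.map_add_le b1' vw21.le
  have hp3 : v (y - w) * v (y - w ^ 2) ≤ WithZero.exp (-3 : ℤ) := by
    rw [← map_mul, hprod, map_mul, map_mul]
    have e : WithZero.exp (-3 : ℤ) =
        WithZero.exp (-1 : ℤ) * (WithZero.exp (-1 : ℤ) * WithZero.exp (-1 : ℤ)) := by
      rw [← WithZero.exp_add, ← WithZero.exp_add]
      norm_num
    rw [e]
    exact mul_le_mul' b1' (mul_le_mul' b2' b3')
  refine ⟨b1, ?_⟩
  by_cases d1 : v (y - w) ≤ WithZero.exp (-2 : ℤ)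
  · left
    refine ⟨d1, ?_⟩
    have e : y - w ^ 2 = (y - w) - (w ^ 2 - w) := by ring
    rw [e, Valuation.map_sub_eq_of_lt_right, vww]
    rw [vww]
    exact d1.trans_lt W9_two
  · right
    have d2 : v (y - w) = WithZero.exp (-1 : ℤ) := by
      refine le_antisymm a1' (not_lt.1 fun h => d1 ?_)
      exact W9_lt h
    have d3 : v (y - w ^ 2) ≤ WithZero.exp (-2 : ℤ) := by
      by_contra h
      have d4 : v (y - w ^ 2) = WithZero.exp (-1 : ℤ) := by
        refine le_antisymm a2' (not_lt.1 fun h' => h ?_)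
        exact W9_lt h'
      rw [d2, d4, ← WithZero.exp_add, WithZero.exp_le_exp] at hp3
      norm_num at hp3
    exact ⟨d3, d2⟩

/-- The x-coordinate of the difference of two points on the cusp: with s = (y - w^2)/(x + 1) and
X = s^2 - x + 1 one has v(X + 1) >= 1 (X + 1 = s^2 - (x + 1) + 3, v(s) = exp(-1)/v(x+1) >= 1 because
v(x + 1) <= exp(-1), the other two terms have valuation < 1). -/
theorem cusp_slope {k : Type*} [Field k] (v : Valuation k (WithZero (Multiplicative ℤ))) (u x y : k)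
    (h3 : v 3 = WithZero.exp (-2 : ℤ)) (hx : v (x + 1) < 1) (hx0 : x + 1 ≠ 0)
    (hy : v (y - u) = WithZero.exp (-1 : ℤ)) :
    1 ≤ v (((y - u) / (x + 1)) ^ 2 - x + 1 + 1) := by
  have hx' := W9_lt_one hx
  have hv0 : v (x + 1) ≠ 0 := (Valuation.ne_zero_iff v).2 hx0
  have h1 : 1 ≤ v ((y - u) / (x + 1)) := by
    rw [map_div₀, hy]
    rw [le_div_iff₀ (zero_lt_iff.2 hv0), one_mul]
    exact hx'
  have h2 : 1 ≤ v (((y - u) / (x + 1)) ^ 2) := by
    rw [map_pow]
    exact one_le_pow_of_one_le' h1 2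
  have e : ((y - u) / (x + 1)) ^ 2 - x + 1 + 1 = ((y - u) / (x + 1)) ^ 2 - ((x + 1) - 3) := by
    ring
  have h4 : v ((x + 1) - 3) < 1 := v.map_sub_lt hx (by rw [h3]; exact W9_two.trans W9_one)
  rw [e, Valuation.map_sub_eq_of_lt_left _ (h4.trans_le h2)]
  exact h2

end H55C
end

-- from Lib.H55B.D1
section

open NumberField IsDedekindDomain

namespace H55B

/-! Chunk D1: dynamics of duplication.
(a) v(X i) <= 1 for all i: take i with v(X i) maximal and suppose v(X i) > 1. v(X^4 + 54X) = v(X)^4, and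
v(4X^3 - 27) < v(X)^3 (as v(4) < 1, v(27) <= 1 < v(X)^3), so v(X (dbl i)) > v(X i), contradiction.
(b) put t i = 3 - X i (never 0); choose i with v(t i) minimal and suppose v(t i) < 1. v(3) = 1. With X = 3 - t:
  (3 - X')(4X^3 - 27) = 3(4X^3 - 27) - X^4 - 54X = (X - 3)(-X^3 + 9X^2 + 27X + 27) = -t (162 - 54t + t^3),
  4X^3 - 27 = 81 - 108t + 36t^2 - 4t^3 has v = 1, and v(162 - 54t + t^3) < 1, so v(t (dbl i)) < v(t i),
contradiction. So v(3 - X i) >= 1. -/

lemma D1_nat {Γ : Type*} [LinearOrderedCommGroupWithZero Γ] (v : Valuation ℂ Γ) (n : ℕ) :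
    v (n : ℂ) ≤ 1 := by
  induction n with
  | zero => simp
  | succ n ih =>
    push_cast
    exact v.map_add_le ih (by simp)

lemma D1_three {Γ : Type*} [LinearOrderedCommGroupWithZero Γ] (v : Valuation ℂ Γ) (h2 : v 2 < 1) :
    v 3 = 1 := by
  have h := v.map_add_eq_of_lt_right (x := 2) (y := 1) (by simpa using h2)
  have : (2 : ℂ) + 1 = 3 := by norm_num
  rw [this, v.map_one] at h
  exact h

theorem dyn {Γ : Type*} [LinearOrderedCommGroupWithZero Γ] (v : Valuation ℂ Γ) (h2 : v 2 < 1)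
    {ι : Type*} [Finite ι] (X : ι → ℂ) (dbl : ι → ι) (h3 : ∀ i, X i ≠ 3)
    (hd : ∀ i, X (dbl i) * (4 * X i ^ 3 - 27) = X i ^ 4 + 54 * X i) :
    ∀ i, v (1 / (3 - X i)) ≤ 1 := by
  have hv3 : v 3 = 1 := D1_three v h2
  have hv81 : v 81 = 1 := by
    have : (81 : ℂ) = 3 ^ 4 := by norm_num
    rw [this, map_pow, hv3, one_pow]
  have hv27 : v 27 = 1 := by
    have : (27 : ℂ) = 3 ^ 3 := by norm_num
    rw [this, map_pow, hv3, one_pow]
  have hv4 : v 4 < 1 := by
    have : (4 : ℂ) = 2 * 2 := by norm_num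
    rw [this, map_mul]
    calc v 2 * v 2 ≤ v 2 * 1 := mul_le_mul_right h2.le _
      _ = v 2 := mul_one _
      _ < 1 := h2
  -- part (a)
  have ha : ∀ i, v (X i) ≤ 1 := by
    intro i0
    have : Nonempty ι := ⟨i0⟩
    obtain ⟨i, hi⟩ := Finite.exists_max (fun i => v (X i))
    by_contra hcon
    push Not at hcon
    have ha1 : 1 < v (X i) := lt_of_lt_of_le hcon (hi i0)
    set a := v (X i) with hadef
    have ha0 : a ≠ 0 := (lt_trans zero_lt_one ha1).ne'
    have hapos : 0 < a := lt_trans zero_lt_one ha1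
    have ha3 : 1 < a ^ 3 := one_lt_pow₀ ha1 (by norm_num)
    have h54 : v (54 * X i) < v (X i ^ 4) := by
      have h54' : v (54 : ℂ) ≤ 1 := by simpa using D1_nat v 54
      calc v (54 * X i) = v 54 * a := by rw [map_mul]
        _ ≤ 1 * a := mul_le_mul_left h54' _
        _ = a := one_mul a
        _ < a * a ^ 3 := by
            calc a = a * 1 := (mul_one a).symm
              _ < a * a ^ 3 := mul_lt_mul_of_pos_left ha3 hapos
        _ = v (X i ^ 4) := by rw [map_pow, ← hadef, pow_succ' a 3]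
    have hR : v (X i ^ 4 + 54 * X i) = a ^ 4 := by
      rw [v.map_add_eq_of_lt_left h54, map_pow]
    have hL : v (4 * X i ^ 3 - 27) < a ^ 3 := by
      apply v.map_sub_lt
      · rw [map_mul, map_pow, ← hadef]
        calc v 4 * a ^ 3 < 1 * a ^ 3 := mul_lt_mul_of_pos_right hv4 (lt_trans zero_lt_one ha3)
          _ = a ^ 3 := one_mul _
      · rw [hv27]; exact ha3
    have h1 := congrArg v (hd i)
    rw [map_mul, hR] at h1
    have h2' : v (X (dbl i)) ≤ a := hi (dbl i)
    have : a ^ 4 < a ^ 4 := by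
      calc a ^ 4 = v (X (dbl i)) * v (4 * X i ^ 3 - 27) := h1.symm
        _ ≤ a * v (4 * X i ^ 3 - 27) := mul_le_mul_left h2' _
        _ < a * a ^ 3 := mul_lt_mul_of_pos_left hL hapos
        _ = a ^ 4 := by rw [pow_succ' a 3]
    exact lt_irrefl _ this
  intro i0
  have : Nonempty ι := ⟨i0⟩
  obtain ⟨i, hi⟩ := Finite.exists_min (fun i => v (3 - X i))
  have hmin : 1 ≤ v (3 - X i) := by
    by_contra hcon
    push Not at hcon
    set t := 3 - X i with htdef
    have hX : X i = 3 - t := by rw [htdef]; ring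
    have ht0 : t ≠ 0 := sub_ne_zero.mpr (h3 i).symm
    have hb0 : 0 < v t := by
      rw [zero_lt_iff]
      exact (Valuation.ne_zero_iff v).mpr ht0
    have key : (3 - X (dbl i)) * (4 * X i ^ 3 - 27) = -(t * (162 - 54 * t + t ^ 3)) := by
      have := hd i
      rw [sub_mul, this, hX]
      ring
    have hA : v (4 * X i ^ 3 - 27) = 1 := by
      have e1 : 4 * X i ^ 3 - 27 = 81 + (-(108 * t) + 36 * t ^ 2 - 4 * t ^ 3) := by
        rw [hX]; ring
      have e2 : -(108 * t) + 36 * t ^ 2 - 4 * t ^ 3 = t * (-108 + 36 * t - 4 * t ^ 2) := by ring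
      have h108 : v (-108 + 36 * t - 4 * t ^ 2) ≤ 1 := by
        have q1 : v (-108 : ℂ) ≤ 1 := by
          rw [Valuation.map_neg]; simpa using D1_nat v 108
        have q2 : v (36 * t) ≤ 1 := by
          rw [map_mul]
          exact mul_le_one' (by simpa using D1_nat v 36) hcon.le
        have q3 : v (4 * t ^ 2) ≤ 1 := by
          rw [map_mul, map_pow]
          exact mul_le_one' hv4.le (pow_le_one' hcon.le 2)
        exact v.map_sub_le (v.map_add_le q1 q2) q3
      have hlt : v (-(108 * t) + 36 * t ^ 2 - 4 * t ^ 3) < v 81 := by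
        rw [e2, map_mul, hv81]
        calc v t * v (-108 + 36 * t - 4 * t ^ 2) ≤ v t * 1 := mul_le_mul_right h108 _
          _ = v t := mul_one _
          _ < 1 := hcon
      rw [e1, v.map_add_eq_of_lt_left hlt, hv81]
    have hB : v (162 - 54 * t + t ^ 3) < 1 := by
      have q1 : v (162 : ℂ) < 1 := by
        have : (162 : ℂ) = 2 * 81 := by norm_num
        rw [this, map_mul, hv81, mul_one]
        exact h2
      have q2 : v (54 * t) < 1 := by
        rw [map_mul]
        calc v 54 * v t ≤ 1 * v t := mul_le_mul_left (by simpa using D1_nat v 54) _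
          _ = v t := one_mul _
          _ < 1 := hcon
      have q3 : v (t ^ 3) < 1 := by
        rw [map_pow]
        exact pow_lt_one' hcon (by norm_num)
      exact v.map_add_lt (v.map_sub_lt q1 q2) q3
    have h1 := congrArg v key
    rw [map_mul, hA, mul_one, Valuation.map_neg, map_mul] at h1
    have h2' := hi (dbl i)
    have : v t < v t := by
      calc v t ≤ v (3 - X (dbl i)) := h2'
        _ = v t * v (162 - 54 * t + t ^ 3) := h1
        _ < v t * 1 := mul_lt_mul_of_pos_left hB hb0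
        _ = v t := mul_one _
    exact lt_irrefl _ this
  have h4 : 1 ≤ v (3 - X i0) := hmin.trans (hi i0)
  rw [one_div, map_inv₀]
  exact inv_le_one_of_one_le₀ h4

end H55B
end

-- from Lib.H55B.D2
section

open NumberField IsDedekindDomain

namespace H55B

/-! Chunk D2: sums over a set with a fixed point free involution. -/

theorem D2_split {ι : Type*} [Fintype ι] (n : ι → ι) (hn : ∀ i, n (n i) = i) (hne : ∀ i, n i ≠ i) :
    ∃ s : Finset ι, ∀ (M : Type) [AddCommMonoid M] (x : ι → M), (∀ i, x (n i) = x i) →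
      ∑ i, x i = ∑ i ∈ s, x i + ∑ i ∈ s, x i := by
  classical
  let eq := Fintype.equivFin ι
  refine ⟨Finset.univ.filter fun i => eq i < eq (n i), fun M _ x hx => ?_⟩
  rw [← Finset.sum_filter_add_sum_filter_not Finset.univ (fun i => eq i < eq (n i)) x]
  congr 1
  apply Finset.sum_bij' (fun i _ => n i) (fun i _ => n i)
  · intro i hi
    simp only [Finset.mem_filter, Finset.mem_univ, true_and, hn] at hi ⊢
    have h1 : eq i ≠ eq (n i) := fun h => hne i (eq.injective h).symm
    exact lt_of_le_of_ne (not_lt.mp hi) h1.symm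
  · intro i hi
    simp only [Finset.mem_filter, Finset.mem_univ, true_and, hn] at hi ⊢
    exact not_lt.mpr hi.le
  · intro i _
    exact hn i
  · intro i _
    exact hn i
  · intro i _
    exact (hx i).symm

theorem half_sum {ι : Type*} [Fintype ι] (n : ι → ι) (hn : ∀ i, n (n i) = i) (hne : ∀ i, n i ≠ i)
    (x : ι → ℂ) (hx : ∀ i, x (n i) = x i) : ∃ s : Finset ι, ∑ i, x i = 2 * ∑ i ∈ s, x i := by
  obtain ⟨s, hs⟩ := D2_split n hn hne
  exact ⟨s, by rw [hs ℂ x hx, two_mul]⟩

theorem even_card {ι : Type*} [Fintype ι] (n : ι → ι) (hn : ∀ i, n (n i) = i) (hne : ∀ i, n i ≠ i) :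
    Even (Fintype.card ι) := by
  obtain ⟨s, hs⟩ := D2_split n hn hne
  have h := hs ℕ (fun _ => 1) (fun _ => rfl)
  simp only [Finset.sum_const, smul_eq_mul, mul_one, Finset.card_univ] at h
  exact ⟨s.card, h⟩

end H55B
end

-- from Lib.H55K.C21
section

open Polynomial

namespace H55K.CC

/-! Chunk C21 (S/M, PURE MATHLIB). dd: product of monic polynomials X - C t, squared: degree 2 #S =: d, monic. nn: C(α^(-2)) (X dd + sum over r of (quadratic in X (degree ≤ 2, since it is (X + t)(t X + A) + 2B)) times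
(product over S.erase r, degree 2 (#S - 1) = d - 2) - C t dd): the sum has natDegree ≤ d (natDegree_sum_le_of_forall_le, natDegree_mul_le, natDegree_prod_le ..), so natDegree ≤ d + 1 and the coefficient of X^(d+1) is α^(-2)
(coeff_X_mul, coeff_eq_zero_of_natDegree_lt). nn_eval: x <> t r: product over S.erase r of (x - t r')^2 = dd(x)/(x - t r)^2 (Finset.mul_prod_erase), Finset.mul_sum. -/

variable {K : Type} [Field K]

/-- The denominator. -/
noncomputable def ddP (S : Finset ℂ) (t : ℂ → K) : K[X] := ∏ r ∈ S, (X - C (t r)) ^ 2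

/-- The numerator. -/
noncomputable def nnP (S : Finset ℂ) (t : ℂ → K) (α A B : K) : K[X] := C (α ^ 2)⁻¹ * (X * ddP S t +
  ∑ r ∈ S, (((X + C (t r)) * (C (t r) * X + C A) + C (2 * B)) * ∏ r' ∈ S.erase r, (X - C (t r')) ^ 2 -
    C (t r) * ddP S t))

theorem ddP_deg (S : Finset ℂ) (t : ℂ → K) : (ddP S t).natDegree ≤ 2 * S.card ∧ (ddP S t).coeff (2 * S.card) = 1 := by
  have hm : ∀ r ∈ S, ((X - C (t r)) ^ 2 : K[X]).Monic := fun r _ => (monic_X_sub_C _).pow 2
  have hmon : (ddP S t).Monic := monic_prod_of_monic S _ hm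
  have hd : (ddP S t).natDegree = 2 * S.card := by
    unfold ddP
    rw [natDegree_prod_of_monic S _ hm]
    have : ∀ r ∈ S, ((X - C (t r)) ^ 2 : K[X]).natDegree = 2 := by
      intro r _
      rw [natDegree_pow, natDegree_X_sub_C]
    rw [Finset.sum_congr rfl this, Finset.sum_const, smul_eq_mul, mul_comm]
  refine ⟨hd.le, ?_⟩
  rw [← hd]
  exact hmon

theorem nnP_deg (S : Finset ℂ) (t : ℂ → K) {α : K} (hα : α ≠ 0) (A B : K) : (nnP S t α A B).natDegree ≤ 2 * S.card + 1 ∧
    α ^ 2 * (nnP S t α A B).coeff (2 * S.card + 1) = 1 := by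
  obtain ⟨hd1, hd2⟩ := ddP_deg S t
  have hQ : (∑ r ∈ S, (((X + C (t r)) * (C (t r) * X + C A) + C (2 * B)) * ∏ r' ∈ S.erase r, (X - C (t r')) ^ 2 -
      C (t r) * ddP S t)).natDegree ≤ 2 * S.card := by
    refine natDegree_sum_le_of_forall_le _ _ fun r hr => ?_
    refine (natDegree_sub_le _ _).trans (max_le ?_ ?_)
    · have h1 : ((X + C (t r)) * (C (t r) * X + C A) + C (2 * B) : K[X]).natDegree ≤ 2 := by
        compute_degree
      have h2 := (ddP_deg (S.erase r) t).1
      have h3 : 1 ≤ S.card := Finset.card_pos.2 ⟨r, hr⟩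
      rw [Finset.card_erase_of_mem hr] at h2
      refine natDegree_mul_le.trans ?_
      have h4 : (∏ r' ∈ S.erase r, (X - C (t r')) ^ 2 : K[X]).natDegree ≤ 2 * (S.card - 1) := h2
      omega
    · exact (natDegree_C_mul_le _ _).trans hd1
  have hX : (X * ddP S t).natDegree ≤ 2 * S.card + 1 := by
    refine natDegree_mul_le.trans ?_
    rw [natDegree_X]
    omega
  unfold nnP
  refine ⟨(natDegree_C_mul_le _ _).trans ((natDegree_add_le _ _).trans (max_le hX (hQ.trans (by omega)))), ?_⟩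
  rw [coeff_C_mul, coeff_add, coeff_X_mul, hd2, coeff_eq_zero_of_natDegree_lt (lt_of_le_of_lt hQ (by omega)), add_zero,
    mul_one, mul_inv_cancel₀ (pow_ne_zero 2 hα)]

theorem ddP_eval (S : Finset ℂ) (t : ℂ → K) {x : K} (hx : ∀ r ∈ S, x - t r ≠ 0) : (ddP S t).eval x ≠ 0 := by
  unfold ddP
  rw [eval_prod, Finset.prod_ne_zero_iff]
  intro r hr
  rw [eval_pow, eval_sub, eval_X, eval_C]
  exact pow_ne_zero 2 (hx r hr)

theorem nnP_eval (S : Finset ℂ) (t : ℂ → K) {α : K} (hα : α ≠ 0) (A B : K) {x : K} (hx : ∀ r ∈ S, x - t r ≠ 0) :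
    α ^ 2 * (nnP S t α A B).eval x = (ddP S t).eval x *
      (x + ∑ r ∈ S, (((x + t r) * (t r * x + A) + 2 * B) / (x - t r) ^ 2 - t r)) := by
  have hα2 : α ^ 2 ≠ 0 := pow_ne_zero 2 hα
  unfold nnP
  rw [eval_mul, eval_C, mul_inv_cancel_left₀ hα2, eval_add, eval_mul, eval_X, mul_add, mul_comm x, eval_finset_sum,
    Finset.mul_sum]
  congr 1
  refine Finset.sum_congr rfl fun r hr => ?_
  have h1 : (ddP S t).eval x = (x - t r) ^ 2 * (∏ r' ∈ S.erase r, (X - C (t r')) ^ 2 : K[X]).eval x := by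
    have h2 : ddP S t = (X - C (t r)) ^ 2 * ∏ r' ∈ S.erase r, (X - C (t r')) ^ 2 := by
      unfold ddP
      exact (Finset.mul_prod_erase S (fun r => (X - C (t r) : K[X]) ^ 2) hr).symm
    rw [h2, eval_mul, eval_pow, eval_sub, eval_X, eval_C]
  rw [eval_sub, eval_mul, eval_mul, h1]
  simp only [eval_add, eval_mul, eval_X, eval_C]
  have h3 := hx r hr
  field_simp

theorem ddP_map {K' : Type} [Field K'] (j : K →+* K') (S : Finset ℂ) (t : ℂ → K) :
    (ddP S t).map j = ddP S (fun r => j (t r)) := by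
  unfold ddP
  rw [Polynomial.map_prod]
  simp

theorem nnP_map {K' : Type} [Field K'] (j : K →+* K') (S : Finset ℂ) (t : ℂ → K) (α A B : K) :
    (nnP S t α A B).map j = nnP S (fun r => j (t r)) (j α) (j A) (j B) := by
  unfold nnP
  simp only [Polynomial.map_mul, Polynomial.map_add, Polynomial.map_sum, Polynomial.map_sub, Polynomial.map_prod,
    Polynomial.map_pow, map_X, map_C, ddP_map, map_inv₀, map_pow, map_mul, map_ofNat, Polynomial.map_ofNat]

end H55K.CC
end

-- from Lib.H55C.W3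
section

open NumberField IsDedekindDomain

namespace H55C

/-! Chunk W3: two lattices with the same invariants have the same Weierstrass function near 0.
Let P, P1 be the two Weierstrass functions. As in H55B/A0.wp_expansion (Mathlib: weierstrassPExcept at 0 is analytic
at 0, vanishes at 0), near 0: P = z^(-2) + a(z), P1 = z^(-2) + a1(z), a, a1 analytic at 0, a(0) = a1(0) = 0.
D = a - a1 is analytic at 0 and D = P - P1 in a punctured neighbourhood. Subtract the two equations
P'^2 = 4 P^3 - g2 P - g3 (derivWeierstrassP_sq; P' = deriv P): in a punctured neighbourhood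
D' (P' + P1') = D (4 (P^2 + P P1 + P1^2) - g2). Multiply by z^4 and put in the expansions (z^3 P' -> -2, z^2 P -> 1):
z D' * b(z) = D * d(z) in a neighbourhood of 0 with b, d analytic, b(0) = -4, d(0) = 12.
If D is not identically zero near 0 then D = z^n u, u(0) nonzero, n >= 0 (AnalyticAt.analyticOrderAt /
exists_eventuallyEq_pow_smul_nonzero_iff), z D' = n z^n u + z^(n+1) u', so after division by z^n
(n u + z u') b = u d near 0 and at 0: -4 n = 12, impossible. So D = 0 near 0. -/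
theorem W3_exp (L : PeriodPair) : ∃ a : ℂ → ℂ, AnalyticAt ℂ a 0 ∧ a 0 = 0 ∧
    ∀ᶠ z in nhdsWithin (0 : ℂ) {0}ᶜ, L.weierstrassP z = (z ^ 2)⁻¹ + a z ∧
      L.derivWeierstrassP z = -2 * (z ^ 3)⁻¹ + deriv a z ∧
      L.derivWeierstrassP z ^ 2 = 4 * L.weierstrassP z ^ 3 - L.g₂ * L.weierstrassP z - L.g₃ := by
  set a : ℂ → ℂ := L.weierstrassPExcept 0 with ha
  have hana : AnalyticAt ℂ a 0 := L.analyticAt_weierstrassPExcept 0
  have hexp : ∀ z, L.weierstrassP z = (z ^ 2)⁻¹ + a z := by
    intro z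
    have h := L.weierstrassPExcept_add 0 z
    have h' : L.weierstrassPExcept 0 z + (1 / (z - 0) ^ 2 - 1 / (0 : ℂ) ^ 2) = L.weierstrassP z := h
    rw [← h', sub_zero]
    simp
    ring
  refine ⟨a, hana, L.weierstrassPExcept_zero 0, ?_⟩
  have h1 : ∀ᶠ z in nhds (0 : ℂ), AnalyticAt ℂ a z := hana.eventually_analyticAt
  have h2 : ∀ᶠ z in nhds (0 : ℂ), z ∉ (L.lattice : Set ℂ) \ {0} := by
    filter_upwards [L.compl_lattice_sdiff_singleton_mem_nhds 0] with z hz using hz
  filter_upwards [h1.filter_mono nhdsWithin_le_nhds, h2.filter_mono nhdsWithin_le_nhds,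
    self_mem_nhdsWithin] with z hz1 hz2 hz3
  have hz0 : z ≠ 0 := hz3
  have hzL : z ∉ L.lattice := fun h => hz2 ⟨h, hz0⟩
  refine ⟨hexp z, ?_, L.derivWeierstrassP_sq z hzL⟩
  rw [← L.deriv_weierstrassP]
  have e1 : L.weierstrassP = fun z => (z ^ 2)⁻¹ + a z := funext hexp
  have d1 : HasDerivAt (fun z : ℂ => z ^ 2) (2 * z) z := by
    have := hasDerivAt_pow 2 z
    simpa using this
  have d2 := (d1.fun_inv (pow_ne_zero 2 hz0)).add hz1.differentiableAt.hasDerivAt
  have d3 : HasDerivAt L.weierstrassP (-(2 * z) / (z ^ 2) ^ 2 + deriv a z) z := by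
    rw [e1]
    exact d2
  rw [d3.deriv]
  field_simp

theorem W3_local (L L' : PeriodPair) (h2 : L.g₂ = L'.g₂) (h3 : L.g₃ = L'.g₃) :
    ∀ᶠ z in nhdsWithin (0 : ℂ) {0}ᶜ, L.weierstrassP z = L'.weierstrassP z := by
  obtain ⟨a, ha, ha0, hA⟩ := W3_exp L
  obtain ⟨a', ha', ha0', hA'⟩ := W3_exp L'
  set D : ℂ → ℂ := fun z => a z - a' z with hD
  have hDan : AnalyticAt ℂ D 0 := ha.sub ha'
  set b : ℂ → ℂ := fun z => -4 + z ^ 3 * (deriv a z + deriv a' z) with hb
  set d : ℂ → ℂ := fun z => 4 * ((1 + z ^ 2 * a z) ^ 2 + (1 + z ^ 2 * a z) * (1 + z ^ 2 * a' z) +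
    (1 + z ^ 2 * a' z) ^ 2) - L.g₂ * z ^ 4 with hd
  have hda : ContinuousAt (deriv a) 0 := ha.deriv.continuousAt
  have hda' : ContinuousAt (deriv a') 0 := ha'.deriv.continuousAt
  have hac : ContinuousAt a 0 := ha.continuousAt
  have hac' : ContinuousAt a' 0 := ha'.continuousAt
  have hbc : ContinuousAt b 0 := by
    rw [hb]
    fun_prop
  have hdc : ContinuousAt d 0 := by
    rw [hd]
    fun_prop
  have hb0 : b 0 = -4 := by simp [hb]
  have hd0 : d 0 = 12 := by
    simp [hd]
    norm_num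
  -- the differential equation
  have hane : ∀ᶠ z in nhds (0 : ℂ), AnalyticAt ℂ a z := ha.eventually_analyticAt
  have hane' : ∀ᶠ z in nhds (0 : ℂ), AnalyticAt ℂ a' z := ha'.eventually_analyticAt
  have hode : ∀ᶠ z in nhdsWithin (0 : ℂ) {0}ᶜ, z * deriv D z * b z = D z * d z := by
    filter_upwards [hA, hA', self_mem_nhdsWithin, hane.filter_mono nhdsWithin_le_nhds,
      hane'.filter_mono nhdsWithin_le_nhds] with z h h' hz hz1 hz2
    have hz0 : z ≠ 0 := hz
    obtain ⟨p1, p2, p3⟩ := h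
    obtain ⟨q1, q2, q3⟩ := h'
    rw [← h2, ← h3] at q3
    have hdD : deriv D z = deriv a z - deriv a' z := by
      rw [hD]
      exact deriv_fun_sub hz1.differentiableAt hz2.differentiableAt
    have e1 : (L.derivWeierstrassP z - L'.derivWeierstrassP z) *
        (L.derivWeierstrassP z + L'.derivWeierstrassP z) =
        (L.weierstrassP z - L'.weierstrassP z) * (4 * (L.weierstrassP z ^ 2 +
          L.weierstrassP z * L'.weierstrassP z + L'.weierstrassP z ^ 2) - L.g₂) := by
      linear_combination p3 - q3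
    have e2 : L.derivWeierstrassP z - L'.derivWeierstrassP z = deriv D z := by
      rw [p2, q2, hdD]
      ring
    have e3 : L.weierstrassP z - L'.weierstrassP z = D z := by
      rw [p1, q1, hD]
      ring
    have e4 : z ^ 3 * (L.derivWeierstrassP z + L'.derivWeierstrassP z) = b z := by
      rw [p2, q2, hb]
      field_simp
      ring
    have e5 : z ^ 4 * (4 * (L.weierstrassP z ^ 2 +
          L.weierstrassP z * L'.weierstrassP z + L'.weierstrassP z ^ 2) - L.g₂) = d z := by
      rw [p1, q1, hd]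
      field_simp
    rw [e2, e3] at e1
    rw [← e4, ← e5]
    linear_combination z ^ 4 * e1
  by_cases hz : ∀ᶠ z in nhds (0 : ℂ), D z = 0
  · filter_upwards [hA, hA', hz.filter_mono nhdsWithin_le_nhds] with z h h' hz
    rw [h.1, h'.1]
    have : a z - a' z = 0 := hz
    linear_combination this
  exfalso
  obtain ⟨n, u, hu, hu0, hDu⟩ := hDan.exists_eventuallyEq_pow_smul_nonzero_iff.2 hz
  simp only [sub_zero, smul_eq_mul] at hDu
  have hune : ∀ᶠ z in nhds (0 : ℂ), AnalyticAt ℂ u z := hu.eventually_analyticAt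
  have hDu2 : ∀ᶠ z in nhds (0 : ℂ), ∀ᶠ w in nhds z, D w = w ^ n * u w := hDu.eventually_nhds
  have hder : ∀ᶠ z in nhdsWithin (0 : ℂ) {0}ᶜ, z * deriv D z = z ^ n * (n * u z + z * deriv u z) := by
    filter_upwards [hDu2.filter_mono nhdsWithin_le_nhds, hune.filter_mono nhdsWithin_le_nhds,
      self_mem_nhdsWithin] with z h1 h2 h3
    have hz0 : z ≠ 0 := h3
    have e1 : deriv D z = deriv (fun w => w ^ n * u w) z := Filter.EventuallyEq.deriv_eq h1
    have e2 : HasDerivAt (fun w : ℂ => w ^ n * u w) (n * z ^ (n - 1) * u z + z ^ n * deriv u z) z :=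
      (hasDerivAt_pow n z).mul h2.differentiableAt.hasDerivAt
    rw [e1, e2.deriv]
    rcases Nat.eq_zero_or_pos n with h0 | h0
    · subst h0
      simp
    · obtain ⟨m, rfl⟩ := Nat.exists_eq_succ_of_ne_zero h0.ne'
      simp only [Nat.succ_eq_add_one, Nat.add_sub_cancel, pow_succ]
      ring
  have hfin : ∀ᶠ z in nhdsWithin (0 : ℂ) {0}ᶜ, (n * u z + z * deriv u z) * b z = u z * d z := by
    filter_upwards [hder, hode, hDu.filter_mono nhdsWithin_le_nhds, self_mem_nhdsWithin]
      with z h1 h2 h3 h4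
    have hz0 : z ≠ 0 := h4
    rw [h1, h3] at h2
    have hzn : z ^ n ≠ 0 := pow_ne_zero n hz0
    apply mul_left_cancel₀ hzn
    linear_combination h2
  have huc : ContinuousAt u 0 := hu.continuousAt
  have hduc : ContinuousAt (deriv u) 0 := hu.deriv.continuousAt
  have c1 : ContinuousAt (fun z => (n * u z + z * deriv u z) * b z) 0 := by fun_prop
  have c2 : ContinuousAt (fun z => u z * d z) 0 := by fun_prop
  have t1 := c1.tendsto.mono_left (nhdsWithin_le_nhds (s := {0}ᶜ))
  have t2 := c2.tendsto.mono_left (nhdsWithin_le_nhds (s := {0}ᶜ))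
  have t3 := t2.congr' (by filter_upwards [hfin] with z hz using hz.symm)
  have hlim := tendsto_nhds_unique t1 t3
  simp only [hb0, hd0, zero_mul, add_zero] at hlim
  have h4 : ((n : ℂ) * 4 + 12) * u 0 = 0 := by linear_combination -hlim
  rcases mul_eq_zero.1 h4 with h5 | h5
  · have h6 : ((n * 4 + 12 : ℕ) : ℂ) = 0 := by
      push_cast
      exact h5
    have h7 := Nat.cast_eq_zero.1 h6
    omega
  · exact hu0 h5

end H55C
end

-- from Lib.H55C.W4
section

open NumberField IsDedekindDomain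

namespace H55C

/-! Chunk W4: a lattice is determined by its invariants g_2, g_3.
By symmetry it is enough to prove that the lattice of L is contained in the lattice of L'. The set
U = complement of (lattice L union lattice L') is open and preconnected (complement of a countable set: compare
H55B/A3.A3_conn; both lattices are closed and countable) and both functions are analytic on U
(analyticOnNhd_weierstrassP). They agree near 0 (W3_local), so at some point of U and near it; hence on U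
(AnalyticOnNhd.eqOn_of_preconnected_of_eventuallyEq). Suppose l is in lattice L but not in lattice L'. Then
weierstrassP of L' is continuous at l, and weierstrassP of L agrees with it in a punctured neighbourhood of l,
so (z - l)^2 P(z) -> 0 as z -> l; but (z - l)^2 P(z) -> 1 (weierstrassPExcept_add or order_weierstrassP, P = P except l
+ 1/(z-l)^2 - 1/l^2, P except l analytic at l). Contradiction. -/
theorem W4_le (L L' : PeriodPair) (h2 : L.g₂ = L'.g₂) (h3 : L.g₃ = L'.g₃) (l : ℂ)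
    (hl : l ∈ L.lattice) : l ∈ L'.lattice := by
  by_contra hl'
  set U : Set ℂ := ((L.lattice : Set ℂ) ∪ (L'.lattice : Set ℂ))ᶜ with hU
  have hLc : ∀ L : PeriodPair, ((L.lattice : Set ℂ)).Countable := by
    intro L
    have : (L.lattice : Set ℂ) = Set.range (fun l : L.lattice => (l : ℂ)) := by
      ext z
      simp
    rw [this]
    exact Set.countable_range _
  have hUc : IsPreconnected U :=
    (Set.Countable.isConnected_compl_of_one_lt_rank (E := ℂ) (by simp)
      ((hLc L).union (hLc L'))).isPreconnected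
  have han : AnalyticOnNhd ℂ L.weierstrassP U :=
    L.analyticOnNhd_weierstrassP.mono (Set.compl_subset_compl.2 Set.subset_union_left)
  have han' : AnalyticOnNhd ℂ L'.weierstrassP U :=
    L'.analyticOnNhd_weierstrassP.mono (Set.compl_subset_compl.2 Set.subset_union_right)
  have hdisc : ∀ (L : PeriodPair) (x : ℂ), ∀ᶠ z in nhdsWithin x {x}ᶜ, z ∉ (L.lattice : Set ℂ) := by
    intro L x
    filter_upwards [nhdsWithin_le_nhds (L.compl_lattice_sdiff_singleton_mem_nhds x),
      self_mem_nhdsWithin] with z hz hz0 hzL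
    exact hz ⟨hzL, hz0⟩
  have hdU : ∀ x : ℂ, ∀ᶠ z in nhdsWithin x {x}ᶜ, z ∈ U := by
    intro x
    filter_upwards [hdisc L x, hdisc L' x] with z hz hz'
    rintro (h | h)
    · exact hz h
    · exact hz' h
  -- agreement near a point
  obtain ⟨z₀, hz₀, hz₀U, hz₀0⟩ :=
    ((eventually_eventually_nhdsWithin.2 (W3_local L L' h2 h3)).and
      ((hdU 0).and self_mem_nhdsWithin)).exists
  have hz₀' : z₀ ∈ ({0}ᶜ : Set ℂ) := hz₀0
  rw [isOpen_compl_singleton.nhdsWithin_eq hz₀'] at hz₀
  have hEq : Set.EqOn L.weierstrassP L'.weierstrassP U :=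
    han.eqOn_of_preconnected_of_eventuallyEq han' hUc hz₀U hz₀
  -- behaviour at l
  have hex : ContinuousAt (L.weierstrassPExcept l) l :=
    ((L.differentiableOn_weierstrassPExcept l).differentiableAt
      (L.compl_lattice_sdiff_singleton_mem_nhds l)).continuousAt
  have hc' : ContinuousAt L'.weierstrassP l := (L'.analyticOnNhd_weierstrassP l hl').continuousAt
  have t1 : Filter.Tendsto (fun z => (z - l) ^ 2 * (L.weierstrassPExcept l z - 1 / l ^ 2) + 1)
      (nhdsWithin l {l}ᶜ) (nhds 1) := by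
    have c : ContinuousAt (fun z => (z - l) ^ 2 * (L.weierstrassPExcept l z - 1 / l ^ 2) + 1) l := by
      fun_prop
    have := c.tendsto.mono_left (nhdsWithin_le_nhds (s := {l}ᶜ))
    simpa using this
  have t2 : Filter.Tendsto (fun z => (z - l) ^ 2 * L'.weierstrassP z)
      (nhdsWithin l {l}ᶜ) (nhds 0) := by
    have c : ContinuousAt (fun z => (z - l) ^ 2 * L'.weierstrassP z) l := by
      fun_prop
    have := c.tendsto.mono_left (nhdsWithin_le_nhds (s := {l}ᶜ))
    simpa using this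
  have t3 : Filter.Tendsto (fun z => (z - l) ^ 2 * L'.weierstrassP z)
      (nhdsWithin l {l}ᶜ) (nhds 1) := by
    refine t1.congr' ?_
    filter_upwards [hdU l, self_mem_nhdsWithin] with z hz hzl
    have hzl' : z - l ≠ 0 := sub_ne_zero.2 hzl
    rw [← hEq hz, ← L.weierstrassPExcept_add ⟨l, hl⟩ z]
    field_simp
    ring
  exact one_ne_zero (tendsto_nhds_unique t3 t2)

theorem lattice_unique (L L' : PeriodPair) (h2 : L.g₂ = L'.g₂) (h3 : L.g₃ = L'.g₃) :
    L.lattice = L'.lattice :=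
  le_antisymm (fun l hl => W4_le L L' h2 h3 l hl) (fun l hl => W4_le L' L h2.symm h3.symm l hl)

end H55C
end

-- from Lib.H55K.M4A
section

namespace H55K.MG

/-! Chunk M4A (S/M, PURE: valuations). δ = X1 - X2, δ' = X1' - X2': V(δ' - δ) < 1, V(δ) = 1 so V(δ') = 1 and δ = u^2 δ', so V(u) = 1 and V(u^2 - 1) = V((δ - δ')/δ') < 1. r = X1 - u^2 X1' = (X1 - X1') - (u^2 - 1) X1', X1' in V: V(r) < 1.
Case V(2) < 1: if V(u - 1) = 1 (it is ≤ 1) then V(u + 1) = V((u - 1) + 2) = 1 and V(u^2 - 1) = 1: contradiction; so V(u - 1) < 1, V(u^3 - 1) < 1. s δ' = (Y1 - Y2) - u^3 (Y1' - Y2') = ((Y1 - Y1') - (Y2 - Y2')) - (u^3 - 1)(Y1' - Y2'):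
V(s) < 1. t = Y1 - u^3 Y1' - s X1': V(t) < 1. Case V(2) = 1: s X1' + t = 0 = s X2' + t: s δ' = 0, s = 0, t = 0; Y1 = u^3 Y1', V(Y1) = 1: V(Y1') = 1, u^3 - 1 = (Y1 - Y1')/Y1' has value < 1; u - 1 = (u^3 - u^2)/u^2 =
((u^3 - 1) - (u^2 - 1))/u^2: V(u - 1) < 1. -/

theorem val_tilde {k : Type} [Field k] (V : ValuationSubring k) {X₁ X₂ Y₁ Y₂ X₁' X₂' Y₁' Y₂' u r s t : k}
    (hX₁ : X₁ ∈ V) (hX₂ : X₂ ∈ V) (hY₁ : Y₁ ∈ V) (hY₂ : Y₂ ∈ V)
    (c₁ : V.valuation (X₁' - X₁) < 1) (c₂ : V.valuation (X₂' - X₂) < 1)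
    (d₁ : V.valuation (Y₁' - Y₁) < 1) (d₂ : V.valuation (Y₂' - Y₂) < 1)
    (e₁ : X₁ = u ^ 2 * X₁' + r) (e₂ : X₂ = u ^ 2 * X₂' + r)
    (f₁ : Y₁ = u ^ 3 * Y₁' + s * X₁' + t) (f₂ : Y₂ = u ^ 3 * Y₂' + s * X₂' + t)
    (hδ : V.valuation (X₁ - X₂) = 1)
    (hc : (V.valuation Y₁ = 1 ∧ s * X₁' + t = 0 ∧ s * X₂' + t = 0) ∨ V.valuation (2 : k) < 1) :
    V.valuation (u - 1) < 1 ∧ V.valuation r < 1 ∧ V.valuation s < 1 ∧ V.valuation t < 1 := by
  obtain ⟨v, hv⟩ : ∃ v, v = V.valuation := ⟨_, rfl⟩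
  have hle : ∀ x ∈ V, v x ≤ 1 := fun x hx => by rw [hv]; exact (V.valuation_le_one_iff x).2 hx
  rw [← hv] at c₁ c₂ d₁ d₂ hδ hc ⊢
  have hmul1 : ∀ x y : k, v x < 1 → v y ≤ 1 → v (x * y) < 1 := by
    intro x y hx hy
    rw [map_mul]
    exact mul_lt_one_of_lt_of_le hx hy
  have hclose : ∀ x y : k, x ∈ V → v (y - x) < 1 → v y ≤ 1 := by
    intro x y hx hy
    have e : y = (y - x) + x := by ring
    rw [e]
    exact (v.map_add _ _).trans (max_le hy.le (hle x hx))
  have hX₁' := hclose _ _ hX₁ c₁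
  have hY₁' := hclose _ _ hY₁ d₁
  have hY₂' := hclose _ _ hY₂ d₂
  have hδd : v ((X₁' - X₂') - (X₁ - X₂)) < 1 := by
    have e : (X₁' - X₂') - (X₁ - X₂) = (X₁' - X₁) - (X₂' - X₂) := by ring
    rw [e]
    exact v.map_sub_lt c₁ c₂
  have hδ' : v (X₁' - X₂') = 1 := by
    have e : X₁' - X₂' = ((X₁' - X₂') - (X₁ - X₂)) + (X₁ - X₂) := by ring
    rw [e, v.map_add_eq_of_lt_right]
    · exact hδ
    · rw [hδ]
      exact hδd
  have hu2 : X₁ - X₂ = u ^ 2 * (X₁' - X₂') := by rw [e₁, e₂]; ring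
  have hvu2 : v u ^ 2 = 1 := by
    have h1 := congrArg v hu2
    rw [map_mul, map_pow, hδ, hδ', mul_one] at h1
    exact h1.symm
  have hvu : v u = 1 := (pow_eq_one_iff_of_nonneg zero_le (by norm_num)).1 hvu2
  have hsq : v (u ^ 2 - 1) < 1 := by
    have e : (u ^ 2 - 1) * (X₁' - X₂') = -((X₁' - X₂') - (X₁ - X₂)) := by rw [hu2]; ring
    have h1 := congrArg v e
    rw [map_mul, hδ', mul_one, Valuation.map_neg] at h1
    rw [h1]
    exact hδd
  have hc₁ : v (X₁ - X₁') < 1 := by rw [v.map_sub_swap]; exact c₁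
  have hd₁ : v (Y₁ - Y₁') < 1 := by rw [v.map_sub_swap]; exact d₁
  have hd₂ : v (Y₂ - Y₂') < 1 := by rw [v.map_sub_swap]; exact d₂
  have hr : v r < 1 := by
    have e : r = (X₁ - X₁') - (u ^ 2 - 1) * X₁' := by linear_combination -e₁
    rw [e]
    exact v.map_sub_lt hc₁ (hmul1 _ _ hsq hX₁')
  rcases hc with ⟨hy, g₁, g₂⟩ | h2
  · have hs0 : s * (X₁' - X₂') = 0 := by linear_combination g₁ - g₂
    have hδ0 : X₁' - X₂' ≠ 0 := by
      intro h0
      rw [h0, map_zero] at hδ'
      exact zero_ne_one hδ'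
    have hs : s = 0 := (mul_eq_zero.1 hs0).resolve_right hδ0
    have ht : t = 0 := by
      rw [hs, zero_mul, zero_add] at g₁
      exact g₁
    rw [hs, ht, map_zero]
    rw [hs, ht, zero_mul, add_zero, add_zero] at f₁
    have hvy : v Y₁' = 1 := by
      have h1 := congrArg v f₁
      rw [hy, map_mul, map_pow, hvu, one_pow, one_mul] at h1
      exact h1.symm
    have hu3 : v (u ^ 3 - 1) < 1 := by
      have e : (u ^ 3 - 1) * Y₁' = Y₁ - Y₁' := by rw [f₁]; ring
      have h1 := congrArg v e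
      rw [map_mul, hvy, mul_one] at h1
      rw [h1]
      exact hd₁
    refine ⟨?_, hr, zero_lt_one, zero_lt_one⟩
    have e : u ^ 2 * (u - 1) = (u ^ 3 - 1) - (u ^ 2 - 1) := by ring
    have h1 := congrArg v e
    rw [map_mul, map_pow, hvu, one_pow, one_mul] at h1
    rw [h1]
    exact v.map_sub_lt hu3 hsq
  · have hu1le : v (u - 1) ≤ 1 := (v.map_sub _ _).trans (max_le hvu.le (map_one v).le)
    have hu1 : v (u - 1) < 1 := by
      by_contra hcon
      have h1 : v (u - 1) = 1 := le_antisymm hu1le (not_lt.1 hcon)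
      have h3 : v (u + 1) = 1 := by
        have e : u + 1 = 2 + (u - 1) := by ring
        rw [e, v.map_add_eq_of_lt_right]
        · exact h1
        · rw [h1]
          exact h2
      have e : u ^ 2 - 1 = (u - 1) * (u + 1) := by ring
      rw [e, map_mul, h1, h3, one_mul] at hsq
      exact lt_irrefl _ hsq
    have hu3 : v (u ^ 3 - 1) < 1 := by
      have e : u ^ 3 - 1 = (u - 1) * (u ^ 2 + u + 1) := by ring
      rw [e]
      refine hmul1 _ _ hu1 ?_
      refine (v.map_add _ _).trans (max_le ((v.map_add _ _).trans (max_le ?_ hvu.le)) (map_one v).le)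
      rw [map_pow, hvu, one_pow]
    have hs : v s < 1 := by
      have e : s * (X₁' - X₂') = ((Y₁ - Y₁') - (Y₂ - Y₂')) - (u ^ 3 - 1) * (Y₁' - Y₂') := by
        linear_combination f₂ - f₁
      have h1 := congrArg v e
      rw [map_mul, hδ', mul_one] at h1
      rw [h1]
      exact v.map_sub_lt (v.map_sub_lt hd₁ hd₂)
        (hmul1 _ _ hu3 ((v.map_sub _ _).trans (max_le hY₁' hY₂')))
    refine ⟨hu1, hr, hs, ?_⟩
    have e : t = (Y₁ - Y₁') - (u ^ 3 - 1) * Y₁' - s * X₁' := by linear_combination -f₁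
    rw [e]
    exact v.map_sub_lt (v.map_sub_lt hd₁ (hmul1 _ _ hu3 hY₁')) (hmul1 _ _ hs hX₁')

end H55K.MG
end

-- from Lib.H55R.X5
section

open NumberField IsDedekindDomain

namespace H55R

/-! Chunk X5 (S/M): the fixed field of a normal subgroup as a type. M = IntermediateField.fixedField A (coerced to a type), a number field (NumberField.of_module_finite or
of_intermediateField), algebras and scalar tower from IntermediateField, IsGalois K M because A is normal
(IsGalois.of_fixedField_normal_subgroup), finrank K M = A.index (IntermediateField.finrank_fixedField_eq_card, Lagrange), and an element σ restricts to the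
identity of M iff it fixes M pointwise iff it is in the fixing subgroup of the fixed field = A (IsGalois / IntermediateField.fixingSubgroup_fixedField). -/

theorem exists_fixed (K N : Type) [Field K] [NumberField K] [Field N] [NumberField N] [Algebra K N]
    [IsGalois K N] (A : Subgroup Gal(N/K)) (hA : A.Normal) :
    ∃ (M : Type) (_ : Field M) (_ : NumberField M) (_ : Algebra K M) (_ : Algebra M N)
      (_ : IsScalarTower K M N) (_ : IsGalois K M), Module.finrank K M = A.index ∧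
      (AlgEquiv.restrictNormalHom M : Gal(N/K) →* Gal(M/K)).ker = A := by
  have h1 : IsGalois K (IntermediateField.fixedField A) := IsGalois.of_fixedField_normal_subgroup A
  have h2 : NumberField (IntermediateField.fixedField A) := NumberField.of_module_finite K _
  refine ⟨IntermediateField.fixedField A, inferInstance, h2, inferInstance, inferInstance,
    inferInstance, h1, ?_, ?_⟩
  · rw [IntermediateField.finrank_eq_fixingSubgroup_index, IntermediateField.fixingSubgroup_fixedField]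
  · rw [IntermediateField.restrictNormalHom_ker, IntermediateField.fixingSubgroup_fixedField]

end H55R
end

-- from Lib.H35T.F1
section

open NumberField IsDedekindDomain Polynomial

namespace H35T

open H55B

/-! Chunk F1 (M): local polynomial of y^2 = x^3 - 1 where 6 is a unit. Adapt H55B.F1 (0,0,0,0,-1): discriminant -432, a unit, so the chosen minimal
model W' = C . W has unit discriminant; C = (u, r, s, t), u a unit of R; b_2 = b_4 = 0, b_6 = -4, b_8 = 0: u^8 b_8' = 3 r (r^3 - 4) is in R, so r is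
in R (3 unit; if v(r) > 1 then v(3 r (r^3 - 4)) = v(r)^4 > 1; 4 is in R); u^2 a_2' = 3 r - s^2, s in R; u^6 a_6' = r^3 - 1 - t^2, t in R (integrally closed).
So C comes from R, the reduction of W' is the transform of y^2 = x^3 - 1 over the residue field and has the same number of points. -/

theorem F1_Δ (K : Type*) [CommRing K] : (⟨0, 0, 0, 0, -1⟩ : WeierstrassCurve K).Δ = -432 := by
  simp [WeierstrassCurve.Δ, WeierstrassCurve.b₂, WeierstrassCurve.b₄, WeierstrassCurve.b₆,
    WeierstrassCurve.b₈]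
  norm_num

theorem F1_isUnit432 {R : Type*} [CommRing R] (h3 : IsUnit (3 : R)) (h2 : IsUnit (2 : R)) :
    IsUnit (-432 : R) := by
  have : (-432 : R) = -(3 ^ 3 * 2 ^ 4) := by norm_num
  rw [this]
  exact ((h3.pow 3).mul (h2.pow 4)).neg

theorem F1_good (R : Type*) [CommRing R] [IsDomain R] [IsDiscreteValuationRing R] (K : Type*)
    [Field K] [Algebra R K] [IsFractionRing R K] (h3 : IsUnit (3 : R)) (h2 : IsUnit (2 : R)) :
    ((⟨0, 0, 0, 0, -1⟩ : WeierstrassCurve K).minimal R).HasGoodReduction R := by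
  set W : WeierstrassCurve K := ⟨0, 0, 0, 0, -1⟩ with hW
  obtain ⟨C, hC⟩ : ∃ C : WeierstrassCurve.VariableChange K, W.minimal R = C • W := ⟨_, rfl⟩
  have hmin : WeierstrassCurve.IsMinimal R (W.minimal R) := inferInstance
  rw [WeierstrassCurve.hasGoodReduction_iff]
  refine ⟨hmin, ?_⟩
  have hWint : WeierstrassCurve.IsIntegral R W := by
    refine ⟨⟨⟨0, 0, 0, 0, -1⟩, ?_⟩⟩
    rw [hW]
    ext <;> simp [WeierstrassCurve.baseChange]
  have hback : C⁻¹ • W.minimal R = W := by rw [hC, inv_smul_smul]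
  have hmax := hmin.val_Δ_maximal
  have hj : WeierstrassCurve.IsIntegral R (C⁻¹ • W.minimal R) := by rw [hback]; exact hWint
  have hval : (WeierstrassCurve.valuation_Δ_aux R (C⁻¹ • W.minimal R)).1 = 1 := by
    rw [hback]
    rw [WeierstrassCurve.valuation_Δ_aux_eq_of_isIntegral, hW, F1_Δ]
    have := F1_val_unit R K (F1_isUnit432 h3 h2)
    rw [map_neg, map_ofNat] at this
    exact this
  have hle : WeierstrassCurve.valuation_Δ_aux R ((1 : WeierstrassCurve.VariableChange K) •
      W.minimal R) ≤ WeierstrassCurve.valuation_Δ_aux R (C⁻¹ • W.minimal R) := by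
    rw [← Subtype.coe_le_coe, hval]
    exact (WeierstrassCurve.valuation_Δ_aux R _).2
  have hge := hmax.2 hj hle
  rw [← Subtype.coe_le_coe, hval] at hge
  change 1 ≤ (WeierstrassCurve.valuation_Δ_aux R ((1 : WeierstrassCurve.VariableChange K) •
      W.minimal R)).1 at hge
  rw [one_smul, WeierstrassCurve.valuation_Δ_aux_eq_of_isIntegral] at hge
  refine le_antisymm ?_ hge
  obtain ⟨r, hr⟩ := WeierstrassCurve.Δ_integral_of_isIntegral R (W.minimal R)
  rw [← hr]
  exact IsDedekindDomain.HeightOneSpectrum.valuation_le_one _ _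

theorem F1_core (R : Type*) [CommRing R] [IsDomain R] [IsDiscreteValuationRing R] (K : Type*)
    [Field K] [Algebra R K] [IsFractionRing R K] (h3 : IsUnit (3 : R)) (h2 : IsUnit (2 : R)) :
    ∃ C : WeierstrassCurve.VariableChange R,
      WeierstrassCurve.integralModel R ((⟨0, 0, 0, 0, -1⟩ : WeierstrassCurve K).minimal R) =
        C • (⟨0, 0, 0, 0, -1⟩ : WeierstrassCurve R) := by
  set W : WeierstrassCurve K := ⟨0, 0, 0, 0, -1⟩ with hW
  obtain ⟨C, hC⟩ : ∃ C : WeierstrassCurve.VariableChange K, W.minimal R = C • W := ⟨_, rfl⟩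
  set I := WeierstrassCurve.integralModel R (W.minimal R) with hI
  have inj : Function.Injective (algebraMap R K) := IsFractionRing.injective R K
  -- the discriminant of the integral model is a unit
  have hΔ : IsUnit I.Δ := by
    have hg := (F1_good R K h3 h2).goodReduction
    rw [← WeierstrassCurve.integralModel_Δ_eq R] at hg
    by_contra h
    have := (IsDedekindDomain.HeightOneSpectrum.valuation_lt_one_iff_mem
      (K := K) (IsDiscreteValuationRing.maximalIdeal R) I.Δ).2
      ((IsLocalRing.mem_maximalIdeal _).2 h)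
    exact absurd hg this.ne
  have eΔ : algebraMap R K I.Δ = ((C.u⁻¹ : Kˣ) : K) ^ 12 * (-432) := by
    rw [hI, WeierstrassCurve.integralModel_Δ_eq, hC, WeierstrassCurve.variableChange_Δ, hW, F1_Δ]
  have eb₈ : algebraMap R K I.b₈ = ((C.u⁻¹ : Kˣ) : K) ^ 8 * (3 * C.r ^ 4 - 12 * C.r) := by
    rw [hI, WeierstrassCurve.integralModel_b₈_eq, hC, WeierstrassCurve.variableChange_b₈, hW]
    simp [WeierstrassCurve.b₂, WeierstrassCurve.b₄, WeierstrassCurve.b₆, WeierstrassCurve.b₈]
    ring
  have ea₂ : algebraMap R K I.a₂ = ((C.u⁻¹ : Kˣ) : K) ^ 2 * (3 * C.r - C.s ^ 2) := by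
    rw [hI, WeierstrassCurve.integralModel_a₂_eq, hC, WeierstrassCurve.variableChange_a₂, hW]
    simp
  have ea₆ : algebraMap R K I.a₆ = ((C.u⁻¹ : Kˣ) : K) ^ 6 * (C.r ^ 3 - 1 - C.t ^ 2) := by
    rw [hI, WeierstrassCurve.integralModel_a₆_eq, hC, WeierstrassCurve.variableChange_a₆, hW]
    simp
    ring
  set u : K := (C.u : K) with hu
  have hu0 : u ≠ 0 := C.u.ne_zero
  have huinv : ((C.u⁻¹ : Kˣ) : K) = u⁻¹ := Units.val_inv_eq_inv_val _
  rw [huinv] at eΔ eb₈ ea₂ ea₆
  obtain ⟨d, hd⟩ := hΔ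
  obtain ⟨m, hm⟩ := F1_isUnit432 h3 h2
  -- u is integral
  have hdm : algebraMap R K d = u⁻¹ ^ 12 * algebraMap R K m := by
    rw [hd, eΔ, hm, map_neg, map_ofNat]
  have hu12 : u ^ 12 = algebraMap R K ((m : R) * ((d⁻¹ : Rˣ) : R)) := by
    rw [map_mul]
    have h1 : algebraMap R K d * algebraMap R K ((d⁻¹ : Rˣ) : R) = 1 := by
      rw [← map_mul, Units.mul_inv, map_one]
    have h2 : u ^ 12 * algebraMap R K d = algebraMap R K m := by
      rw [hdm, inv_pow, mul_inv_cancel_left₀ (pow_ne_zero _ hu0)]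
    calc u ^ 12 = u ^ 12 * (algebraMap R K d * algebraMap R K ((d⁻¹ : Rˣ) : R)) := by rw [h1, mul_one]
      _ = (u ^ 12 * algebraMap R K d) * algebraMap R K ((d⁻¹ : Rˣ) : R) := by ring
      _ = _ := by rw [h2]
  have huinv12 : u⁻¹ ^ 12 = algebraMap R K ((d : R) * ((m⁻¹ : Rˣ) : R)) := by
    rw [map_mul]
    have h1 : algebraMap R K m * algebraMap R K ((m⁻¹ : Rˣ) : R) = 1 := by
      rw [← map_mul, Units.mul_inv, map_one]
    rw [hdm, mul_assoc, h1, mul_one]
  obtain ⟨u₀, hu₀⟩ : ∃ u₀ : R, algebraMap R K u₀ = u := by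
    apply IsIntegrallyClosed.exists_algebraMap_eq_of_isIntegral_pow (n := 12) (by norm_num)
    rw [hu12]; exact isIntegral_algebraMap
  obtain ⟨v₀, hv₀⟩ : ∃ v₀ : R, algebraMap R K v₀ = u⁻¹ := by
    apply IsIntegrallyClosed.exists_algebraMap_eq_of_isIntegral_pow (n := 12) (by norm_num)
    rw [huinv12]; exact isIntegral_algebraMap
  have huv : u₀ * v₀ = 1 := by
    apply inj
    rw [map_mul, hu₀, hv₀, map_one, mul_inv_cancel₀ hu0]
  -- r
  obtain ⟨w3, hw3⟩ := h3
  have hw3' : algebraMap R K ((w3⁻¹ : Rˣ) : R) * 3 = 1 := by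
    have : (3 : K) = algebraMap R K (w3 : R) := by rw [hw3, map_ofNat]
    rw [this, ← map_mul, Units.inv_mul, map_one]
  have hr4 : C.r ^ 4 - 4 * C.r = algebraMap R K (((w3⁻¹ : Rˣ) : R) * (u₀ ^ 8 * I.b₈)) := by
    rw [map_mul, map_mul, map_pow, hu₀, eb₈]
    have : u ^ 8 * (u⁻¹ ^ 8 * (3 * C.r ^ 4 - 12 * C.r)) = 3 * (C.r ^ 4 - 4 * C.r) := by
      field_simp
      ring
    rw [this, ← mul_assoc, hw3', one_mul]
  obtain ⟨r₀, hr₀⟩ : ∃ r₀ : R, algebraMap R K r₀ = C.r := by
    rw [← IsIntegrallyClosed.isIntegral_iff]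
    refine ⟨Polynomial.X ^ 4 - Polynomial.C 4 * Polynomial.X -
      Polynomial.C (((w3⁻¹ : Rˣ) : R) * (u₀ ^ 8 * I.b₈)), ?_, ?_⟩
    · monicity!
    · simp only [Polynomial.eval₂_sub, Polynomial.eval₂_mul, Polynomial.eval₂_pow,
        Polynomial.eval₂_X, Polynomial.eval₂_C]
      rw [show algebraMap R K 4 = 4 from map_ofNat _ 4, hr4, sub_self]
  obtain ⟨s₀, hs₀⟩ : ∃ s₀ : R, algebraMap R K s₀ = C.s := by
    apply IsIntegrallyClosed.exists_algebraMap_eq_of_isIntegral_pow (n := 2) (by norm_num)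
    have : C.s ^ 2 = algebraMap R K (3 * r₀ - u₀ ^ 2 * I.a₂) := by
      rw [map_sub, map_mul, map_mul, map_pow, hu₀, hr₀, ea₂]
      have : u ^ 2 * (u⁻¹ ^ 2 * (3 * C.r - C.s ^ 2)) = 3 * C.r - C.s ^ 2 := by
        field_simp
      rw [this, map_ofNat]; ring
    rw [this]; exact isIntegral_algebraMap
  obtain ⟨t₀, ht₀⟩ : ∃ t₀ : R, algebraMap R K t₀ = C.t := by
    apply IsIntegrallyClosed.exists_algebraMap_eq_of_isIntegral_pow (n := 2) (by norm_num)
    have ht2 : C.t ^ 2 = algebraMap R K (r₀ ^ 3 - 1 - u₀ ^ 6 * I.a₆) := by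
      rw [map_sub, map_sub, map_one, map_mul, map_pow, map_pow, hu₀, hr₀, ea₆]
      have : u ^ 6 * (u⁻¹ ^ 6 * (C.r ^ 3 - 1 - C.t ^ 2)) = C.r ^ 3 - 1 - C.t ^ 2 := by
        field_simp
      rw [this]; ring
    rw [ht2]; exact isIntegral_algebraMap
  refine ⟨⟨⟨u₀, v₀, huv, by rw [mul_comm]; exact huv⟩, r₀, s₀, t₀⟩, ?_⟩
  have hmapinj : Function.Injective
      (fun E : WeierstrassCurve R => E.map (algebraMap R K)) := WeierstrassCurve.map_injective inj
  apply hmapinj
  show I.map (algebraMap R K) = (_ : WeierstrassCurve R).map (algebraMap R K)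
  rw [← WeierstrassCurve.map_variableChange]
  have e1 : I.map (algebraMap R K) = W.minimal R := WeierstrassCurve.baseChange_integralModel_eq R _
  rw [e1, hC]
  congr 1
  · ext
    · show u = algebraMap R K u₀
      rw [hu₀]
    · exact hr₀.symm
    · exact hs₀.symm
    · exact ht₀.symm
  · rw [hW]
    ext <;> simp [WeierstrassCurve.map]

theorem F1_count (k : Type*) [Field k] [Finite k] (D : WeierstrassCurve.VariableChange k)
    (h432 : (432 : k) ≠ 0) :
    Nat.card ((D • (⟨0, 0, 0, 0, -1⟩ : WeierstrassCurve k)).toAffine.Point) =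
      Nat.card {p : k × k // p.2 ^ 2 = p.1 ^ 3 - 1} + 1 := by
  set E : WeierstrassCurve k := D • (⟨0, 0, 0, 0, -1⟩ : WeierstrassCurve k) with hE
  have hΔ : E.Δ ≠ 0 := by
    rw [hE, WeierstrassCurve.variableChange_Δ, F1_Δ]
    exact mul_ne_zero (pow_ne_zero _ (D.u⁻¹).ne_zero) (neg_ne_zero.2 h432)
  rw [Nat.card_congr E.toAffine.nonsingularPointEquiv]
  have h1 : Nat.card (WithZero {xy : k × k // E.toAffine.Nonsingular xy.fst xy.snd}) =
      Nat.card {xy : k × k // E.toAffine.Nonsingular xy.fst xy.snd} + 1 := by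
    have : Finite {xy : k × k // E.toAffine.Nonsingular xy.fst xy.snd} := inferInstance
    exact Finite.card_option
  rw [h1]
  congr 1
  have hu0 : (D.u : k) ≠ 0 := D.u.ne_zero
  have huinv : ((D.u⁻¹ : kˣ) : k) = (D.u : k)⁻¹ := Units.val_inv_eq_inv_val _
  have key : ∀ x y : k, E.toAffine.Nonsingular x y ↔
      ((D.u : k) ^ 3 * y + (D.u : k) ^ 2 * D.s * x + D.t) ^ 2 =
        ((D.u : k) ^ 2 * x + D.r) ^ 3 - 1 := by
    intro x y
    rw [← WeierstrassCurve.Affine.equation_iff_nonsingular_of_Δ_ne_zero (W := E.toAffine) hΔ,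
      WeierstrassCurve.Affine.equation_iff']
    have h6 : (D.u : k) ^ 6 ≠ 0 := pow_ne_zero _ hu0
    rw [← mul_right_inj' h6, mul_zero, ← sub_eq_zero (a := _ ^ 2)]
    have : ∀ a b : k, a = b → (a = 0 ↔ b = 0) := fun a b h => by rw [h]
    apply this
    rw [hE]
    simp only [WeierstrassCurve.variableChange_a₁, WeierstrassCurve.variableChange_a₂,
      WeierstrassCurve.variableChange_a₃, WeierstrassCurve.variableChange_a₄,
      WeierstrassCurve.variableChange_a₆, huinv]
    field_simp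
    ring
  refine Nat.card_congr
    ⟨fun p => ⟨((D.u : k) ^ 2 * p.1.1 + D.r,
        (D.u : k) ^ 3 * p.1.2 + (D.u : k) ^ 2 * D.s * p.1.1 + D.t), (key _ _).1 p.2⟩,
      fun q => ⟨(((D.u : k)⁻¹) ^ 2 * (q.1.1 - D.r),
        ((D.u : k)⁻¹) ^ 3 * (q.1.2 - D.s * (q.1.1 - D.r) - D.t)), ?_⟩, ?_, ?_⟩
  · rw [key]
    have e1 : (D.u : k) ^ 2 * (((D.u : k)⁻¹) ^ 2 * (q.1.1 - D.r)) + D.r = q.1.1 := by
      field_simp; ring
    have e2 : (D.u : k) ^ 3 * (((D.u : k)⁻¹) ^ 3 * (q.1.2 - D.s * (q.1.1 - D.r) - D.t)) +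
        (D.u : k) ^ 2 * D.s * (((D.u : k)⁻¹) ^ 2 * (q.1.1 - D.r)) + D.t = q.1.2 := by
      field_simp; ring
    simp only [e1, e2]
    exact q.2
  · rintro ⟨⟨x, y⟩, h⟩
    simp only [Subtype.mk.injEq, Prod.mk.injEq]
    constructor
    · field_simp <;> ring
    · field_simp <;> ring
  · rintro ⟨⟨x, y⟩, h⟩
    simp only [Subtype.mk.injEq, Prod.mk.injEq]
    constructor
    · field_simp <;> ring
    · field_simp <;> ring

theorem good_local (R : Type*) [CommRing R] [IsDomain R] [IsDiscreteValuationRing R] (K : Type*)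
    [Field K] [Algebra R K] [IsFractionRing R K] [Finite (IsLocalRing.ResidueField R)]
    (h3 : IsUnit (3 : R)) (h2 : IsUnit (2 : R)) :
    (⟨0, 0, 0, 0, -1⟩ : WeierstrassCurve K).localPolynomial R =
      1 - C ((Nat.card (IsLocalRing.ResidueField R) : ℤ) -
        Nat.card {p : IsLocalRing.ResidueField R × IsLocalRing.ResidueField R //
          p.2 ^ 2 = p.1 ^ 3 - 1}) * X + C (Nat.card (IsLocalRing.ResidueField R) : ℤ) * X ^ 2 := by
  obtain ⟨D, hD⟩ := F1_core R K h3 h2
  have hred : ((⟨0, 0, 0, 0, -1⟩ : WeierstrassCurve K).minimal R).reduction R =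
      (D.map (IsLocalRing.residue R)) •
        (⟨0, 0, 0, 0, -1⟩ : WeierstrassCurve (IsLocalRing.ResidueField R)) := by
    unfold WeierstrassCurve.reduction
    rw [hD, ← WeierstrassCurve.map_variableChange]
    have : (⟨0, 0, 0, 0, -1⟩ : WeierstrassCurve R).map (IsLocalRing.residue R) =
        (⟨0, 0, 0, 0, -1⟩ : WeierstrassCurve (IsLocalRing.ResidueField R)) := by
      ext <;> simp [WeierstrassCurve.map]
    rw [this]
  have h432 : (432 : IsLocalRing.ResidueField R) ≠ 0 := by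
    have h := (F1_isUnit432 h3 h2).map (IsLocalRing.residue R)
    have h' := h.ne_zero
    intro h0
    apply h'
    rw [map_neg]
    have : IsLocalRing.residue R 432 = (432 : IsLocalRing.ResidueField R) := map_ofNat _ 432
    rw [this, h0, neg_zero]
  have hcount := F1_count (IsLocalRing.ResidueField R) (D.map (IsLocalRing.residue R)) h432
  unfold WeierstrassCurve.localPolynomial
  rw [if_pos (F1_good R K h3 h2), hred, hcount]
  push_cast
  congr 3
  congr 1
  ring

end H35T
end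

-- from Lib.H35T.F2
section

open NumberField IsDedekindDomain Polynomial

namespace H35T

open H55B

/-! Chunk F2 (S): additive places. Adapt H55B.F2: discriminant -432, c_4 = 0. -/

theorem f2_Δ (K : Type*) [Field K] : (⟨0, 0, 0, 0, -1⟩ : WeierstrassCurve K).Δ = -432 := by
  simp [WeierstrassCurve.Δ, WeierstrassCurve.b₂, WeierstrassCurve.b₄, WeierstrassCurve.b₆,
    WeierstrassCurve.b₈]
  norm_num

theorem f2_c₄ (K : Type*) [Field K] : (⟨0, 0, 0, 0, -1⟩ : WeierstrassCurve K).c₄ = 0 := by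
  simp [WeierstrassCurve.c₄, WeierstrassCurve.b₂, WeierstrassCurve.b₄]

theorem bad_local (R : Type*) [CommRing R] [IsDomain R] [IsDiscreteValuationRing R] (K : Type*)
    [Field K] [Algebra R K] [IsFractionRing R K]
    (h : ∀ u : K, u ≠ 0 → (IsDiscreteValuationRing.maximalIdeal R).valuation K (432 : K) ≠
      ((IsDiscreteValuationRing.maximalIdeal R).valuation K u) ^ 12) :
    (⟨0, 0, 0, 0, -1⟩ : WeierstrassCurve K).localPolynomial R = 1 := by
  set W : WeierstrassCurve K := ⟨0, 0, 0, 0, -1⟩ with hW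
  obtain ⟨C, hC⟩ : ∃ C : WeierstrassCurve.VariableChange K, W.minimal R = C • W :=
    ⟨_, rfl⟩
  have hgood : ¬ (W.minimal R).HasGoodReduction R := by
    intro hg
    have h1 := hg.goodReduction
    rw [hC, WeierstrassCurve.variableChange_Δ, hW, f2_Δ, map_mul, map_pow, Valuation.map_neg] at h1
    apply h (C.u : K) C.u.ne_zero
    have h2 : (IsDiscreteValuationRing.maximalIdeal R).valuation K ((C.u⁻¹ : Kˣ) : K) =
        ((IsDiscreteValuationRing.maximalIdeal R).valuation K (C.u : K))⁻¹ := by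
      rw [Units.val_inv_eq_inv_val, map_inv₀]
    rw [h2, inv_pow] at h1
    have h3 : ((IsDiscreteValuationRing.maximalIdeal R).valuation K (C.u : K)) ^ 12 ≠ 0 :=
      pow_ne_zero _ ((Valuation.ne_zero_iff _).2 C.u.ne_zero)
    exact (inv_mul_eq_one₀ h3).1 h1 |>.symm
  have hmult : ¬ (W.minimal R).HasMultiplicativeReduction R := by
    intro hm
    have h1 := hm.multiplicativeReduction
    rw [hC, WeierstrassCurve.variableChange_c₄, hW, f2_c₄, mul_zero, map_zero] at h1
    exact zero_ne_one h1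
  have hsplit : ¬ (W.minimal R).HasSplitMultiplicativeReduction R := fun hs =>
    hmult hs.toHasMultiplicativeReduction
  unfold WeierstrassCurve.localPolynomial
  rw [if_neg hgood, if_neg hsplit, if_neg hmult]

end H35T
end

-- from Lib.H55B.K2
section

open NumberField IsDedekindDomain

namespace H55B

/-! Chunk K2: duplication on E27 over a field of characteristic 0 (affine group law of Mathlib: slope
3x^2/(2y+1)). -/

theorem K2_coeffs (K : Type*) [Field K] [CharZero K] :
    (E27.baseChange K).toAffine.a₁ = 0 ∧ (E27.baseChange K).toAffine.a₂ = 0 ∧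
    (E27.baseChange K).toAffine.a₃ = 1 ∧ (E27.baseChange K).toAffine.a₄ = 0 ∧
    (E27.baseChange K).toAffine.a₆ = 0 := by
  refine ⟨?_, ?_, ?_, ?_, ?_⟩ <;>
  simp [E27, WeierstrassCurve.baseChange, WeierstrassCurve.toAffine, WeierstrassCurve.map]

theorem nonsing_iff (K : Type*) [Field K] [CharZero K] (x y : K) :
    (E27.baseChange K).toAffine.Nonsingular x y ↔ y ^ 2 + y = x ^ 3 := by
  obtain ⟨h1, h2, h3, h4, h6⟩ := K2_coeffs K
  rw [WeierstrassCurve.Affine.nonsingular_iff', WeierstrassCurve.Affine.equation_iff,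
    h1, h2, h3, h4, h6]
  constructor
  · rintro ⟨h, -⟩
    linear_combination h
  · intro h
    refine ⟨by linear_combination h, ?_⟩
    by_contra hno
    push Not at hno
    obtain ⟨h5, h7⟩ := hno
    have h8 : x ^ 2 = 0 := by
      have : (3 : K) * x ^ 2 = 0 := by linear_combination -h5
      rcases mul_eq_zero.mp this with h | h
      · norm_num at h
      · exact h
    have h9 : x = 0 := by
      simpa using h8
    have h10 : 2 * y + 1 = 0 := by linear_combination h7
    rw [h9] at h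
    have h11 : (1 : K) = 0 := by
      linear_combination (-4) * h + (2 * y + 1) * h10
    exact one_ne_zero h11

open WeierstrassCurve in
theorem dbl_point (K : Type*) [Field K] [CharZero K] [DecidableEq K] (x y x' y' : K)
    (h : (E27.baseChange K).toAffine.Nonsingular x y) (hy : 2 * y + 1 ≠ 0)
    (hx' : x' * (4 * x ^ 3 + 1) = x ^ 4 - 2 * x)
    (hy' : (2 * y' + 1) * (2 * y + 1) = -6 * x ^ 2 * (x' - x) - (2 * y + 1) ^ 2) :
    ∃ h' : (E27.baseChange K).toAffine.Nonsingular x' y',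
      (2 : ℕ) • (Affine.Point.some x y h : (E27.baseChange K).toAffine.Point) =
        Affine.Point.some x' y' h' := by
  obtain ⟨h1, h2, h3, h4, h6⟩ := K2_coeffs K
  have hE := (nonsing_iff K x y).mp h
  have hne : y ≠ (E27.baseChange K).toAffine.negY x y := by
    rw [Affine.negY, h1, h3]
    intro h0
    exact hy (by linear_combination h0)
  have hsl : (E27.baseChange K).toAffine.slope x x y y = 3 * x ^ 2 / (2 * y + 1) := by
    rw [Affine.slope_of_Y_ne rfl hne, Affine.negY, h1, h2, h3, h4]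
    congr 1
    · ring
    · ring
  have hD : (2 * y + 1) ^ 2 = 4 * x ^ 3 + 1 := by linear_combination 4 * hE
  have hD0 : 4 * x ^ 3 + 1 ≠ 0 := by
    rw [← hD]
    exact pow_ne_zero 2 hy
  have hX : (E27.baseChange K).toAffine.addX x x ((E27.baseChange K).toAffine.slope x x y y) = x' := by
    rw [hsl, Affine.addX, h1, h2]
    have e : x' = (x ^ 4 - 2 * x) / (2 * y + 1) ^ 2 := by
      rw [hD, eq_div_iff hD0, hx']
    rw [e]
    field_simp
    linear_combination (-2 * x) * hD
  have hY : (E27.baseChange K).toAffine.addY x x y ((E27.baseChange K).toAffine.slope x x y y) =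
      y' := by
    rw [Affine.addY, Affine.negAddY, Affine.negY, hX, hsl, h1, h3]
    have h2' : (2 : K) ≠ 0 := two_ne_zero
    have ht : 3 * x ^ 2 / (2 * y + 1) * (2 * y + 1) = 3 * x ^ 2 := div_mul_cancel₀ _ hy
    have : (2 * (2 * y + 1)) * (-(3 * x ^ 2 / (2 * y + 1) * (x' - x) + y) - 0 * x' - 1) =
        (2 * (2 * y + 1)) * y' := by
      linear_combination (-2 * (x' - x)) * ht - hy'
    exact mul_left_cancel₀ (mul_ne_zero h2' hy) this
  have hns := Affine.nonsingular_add h h fun hxy => hne hxy.right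
  have hadd := Affine.Point.add_self_of_Y_ne (h₁ := h) hne
  rw [hX, hY] at hns
  refine ⟨hns, ?_⟩
  rw [two_nsmul, hadd]
  simp only [hX, hY]

/-- A point with 2y + 1 = 0 has order 2. -/
theorem dbl_zero (K : Type*) [Field K] [CharZero K] [DecidableEq K] (x y : K)
    (h : (E27.baseChange K).toAffine.Nonsingular x y) (hy : 2 * y + 1 = 0) :
    (2 : ℕ) • (WeierstrassCurve.Affine.Point.some x y h : (E27.baseChange K).toAffine.Point) = 0 := by
  obtain ⟨h1, h2, h3, h4, h6⟩ := K2_coeffs K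
  rw [two_nsmul]
  refine WeierstrassCurve.Affine.Point.add_self_of_Y_eq ?_
  rw [WeierstrassCurve.Affine.negY, h1, h3]
  linear_combination hy

end H55B
end

-- from Lib.H55K.W4A
section

/-! # H55K, part W: different points give different classes -/

open Polynomial

open scoped Polynomial.Bivariate

namespace H55K.WZ

open WeierstrassCurve (Affine)

variable {k : Type} [Field k] (W : Affine k)

/-- Chunk W4A (M). Uses Mathlib's Affine.Point.toClass_injective. For a nonsingular point (x, y) (hΔ: Affine.equation_iff_nonsingular_of_Δ_ne_zero) toClass (some x y) is the class of PI x y in the ideal class group (XYIdeal', toClass_some). If I = span {f} and I * PI x y = span {g} then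
f PI x y = span {g}, so the class of PI x y is trivial (ClassGroup.mk_eq_one_of_coe_ideal or ClassGroup.mk_eq_mk_of_coe_ideal : f J = g J'), so some x y = 0: contradiction (toClass_eq_zero, some_ne_zero). -/
theorem pr_PI (hΔ : W.Δ ≠ 0) {x y : k} (h : W.Equation x y) {f g : W.CoordinateRing} (hf : f ≠ 0) (hg : g ≠ 0) :
    Ideal.span {f} * PI W x y ≠ Ideal.span {g} := by
  classical
  intro hfg
  have hn : W.Nonsingular x y := (Affine.equation_iff_nonsingular_of_Δ_ne_zero hΔ).1 h
  have h1 : ClassGroup.mk W.FunctionField (Affine.CoordinateRing.XYIdeal' (W := W) hn) =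
      ClassGroup.mk W.FunctionField 1 := by
    refine (ClassGroup.mk_eq_mk_of_coe_ideal (I' := PI W x y) (J' := ⊤)
      (Affine.CoordinateRing.XYIdeal'_eq hn) ?_).2 ⟨f, g, hf, hg, ?_⟩
    · rw [Units.val_one, FractionalIdeal.coeIdeal_top]
    · rw [hfg, Ideal.mul_top]
  have h2 : Affine.Point.toClass (Affine.Point.some x y hn) = 0 := by
    rw [Affine.Point.toClass_some, h1, map_one]
    rfl
  exact Affine.Point.some_ne_zero _ ((Affine.Point.toClass_eq_zero _).1 h2)

/-- Chunk W4A. I * PI x y = span {f}, I * PI x' y' = span {g}: g PI x y = (1/I) f g.. : multiply the first by PI x' y' and use the second: span {g} * PI x y = I * PI x' y' * PI x y = span {f} * PI x' y'. So the classes of PI x y and PI x' y' are equal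
(ClassGroup.mk_eq_mk_of_coe_ideal), toClass_injective, Affine.Point.some.injEq. -/
theorem pr_uniq (hΔ : W.Δ ≠ 0) {x y x' y' : k} (h : W.Equation x y) (h' : W.Equation x' y') {I : Ideal W.CoordinateRing}
    {f g : W.CoordinateRing} (hf : f ≠ 0) (hg : g ≠ 0) (h1 : I * PI W x y = Ideal.span {f})
    (h2 : I * PI W x' y' = Ideal.span {g}) : x = x' ∧ y = y' := by
  classical
  have hn : W.Nonsingular x y := (Affine.equation_iff_nonsingular_of_Δ_ne_zero hΔ).1 h
  have hn' : W.Nonsingular x' y' := (Affine.equation_iff_nonsingular_of_Δ_ne_zero hΔ).1 h'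
  have h3 : Ideal.span {g} * PI W x y = Ideal.span {f} * PI W x' y' := by
    rw [← h1, ← h2]
    ring
  have h4 : ClassGroup.mk W.FunctionField (Affine.CoordinateRing.XYIdeal' (W := W) hn) =
      ClassGroup.mk W.FunctionField (Affine.CoordinateRing.XYIdeal' (W := W) hn') :=
    (ClassGroup.mk_eq_mk_of_coe_ideal (I' := PI W x y) (J' := PI W x' y')
      (Affine.CoordinateRing.XYIdeal'_eq hn) (Affine.CoordinateRing.XYIdeal'_eq hn')).2
      ⟨g, f, hg, hf, h3⟩
  have h5 : Affine.Point.toClass (Affine.Point.some x y hn) =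
      Affine.Point.toClass (Affine.Point.some x' y' hn') := by
    rw [Affine.Point.toClass_some, Affine.Point.toClass_some, h4]
  have h6 := Affine.Point.toClass_injective h5
  rw [Affine.Point.some.injEq] at h6
  exact h6

end H55K.WZ
end

-- from Lib.H55K.W5A
section

/-! # H55K, part W: points are homomorphisms -/

open Polynomial

open scoped Polynomial.Bivariate

namespace H55K.WZ

open WeierstrassCurve (Affine)

variable {k : Type} [Field k] (W : Affine k)

theorem w5a_algMap (p : k[X]) : algebraMap k[X] W.CoordinateRing p = Affine.CoordinateRing.mk W (C p) := rfl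

theorem w5a_algMapk (c : k) : algebraMap k W.CoordinateRing c = Affine.CoordinateRing.mk W (C (C c)) := rfl

theorem w5a_comp (K : Type) [Field K] [Algebra k K] (φ : W.CoordinateRing →ₐ[k] K) (p : k[X]) :
    φ (algebraMap k[X] W.CoordinateRing p) = aeval (φ (algebraMap k[X] W.CoordinateRing X)) p := by
  have h : φ.comp (IsScalarTower.toAlgHom k k[X] W.CoordinateRing) = aeval (φ (algebraMap k[X] W.CoordinateRing X)) := by
    refine Polynomial.algHom_ext ?_
    rw [aeval_X]
    rfl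
  exact DFunLike.congr_fun h p

theorem w5a_eq (K : Type) [Field K] [Algebra k K] (φ : W.CoordinateRing →ₐ[k] K) :
    (WeierstrassCurve.baseChange W K).toAffine.Equation (φ (algebraMap k[X] W.CoordinateRing X))
      (φ (Affine.CoordinateRing.mk W Y)) := by
  have h0 : Affine.CoordinateRing.mk W (Y ^ 2 + C (C W.a₁ * X + C W.a₃) * Y -
      C (X ^ 3 + C W.a₂ * X ^ 2 + C W.a₄ * X + C W.a₆)) = 0 := AdjoinRoot.mk_self
  have h1 := congrArg φ h0
  simp only [map_add, map_sub, map_mul, map_pow, map_zero] at h1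
  have hC : ∀ p : k[X], φ (Affine.CoordinateRing.mk W (C p)) = aeval (φ (algebraMap k[X] W.CoordinateRing X)) p :=
    fun p => w5a_comp W K φ p
  simp only [hC, aeval_X, aeval_C] at h1
  rw [WeierstrassCurve.Affine.equation_iff]
  simp only [WeierstrassCurve.baseChange, WeierstrassCurve.map]
  linear_combination h1

theorem w5a_ext (K : Type) [Field K] [Algebra k K] (φ ψ : W.CoordinateRing →ₐ[k] K)
    (hx : φ (algebraMap k[X] W.CoordinateRing X) = ψ (algebraMap k[X] W.CoordinateRing X))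
    (hy : φ (Affine.CoordinateRing.mk W Y) = ψ (Affine.CoordinateRing.mk W Y)) : φ = ψ := by
  refine AlgHom.ext fun f => ?_
  obtain ⟨p, q, rfl⟩ := exists_el W f
  rw [el, Algebra.smul_def, Algebra.smul_def, mul_one]
  simp only [map_add, map_mul]
  rw [w5a_comp W K φ p, w5a_comp W K φ q, w5a_comp W K ψ p, w5a_comp W K ψ q, hx, hy]

theorem w5a_surj (K : Type) [Field K] [Algebra k K] (x y : K)
    (h : (WeierstrassCurve.baseChange W K).toAffine.Equation x y) : ∃ φ : W.CoordinateRing →ₐ[k] K,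
    φ (algebraMap k[X] W.CoordinateRing X) = x ∧ φ (Affine.CoordinateRing.mk W Y) = y := by
  have h0 : eval₂ ((aeval x : k[X] →ₐ[k] K) : k[X] →+* K) y W.polynomial = 0 := by
    rw [WeierstrassCurve.Affine.equation_iff] at h
    simp only [WeierstrassCurve.baseChange, WeierstrassCurve.map] at h
    rw [WeierstrassCurve.Affine.polynomial]
    simp only [eval₂_add, eval₂_sub, eval₂_mul, eval₂_pow, eval₂_X, eval₂_C, RingHom.coe_coe, map_add, map_mul, map_pow,
      aeval_X, aeval_C]
    linear_combination h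
  obtain ⟨g, hg⟩ : ∃ g : W.CoordinateRing →+* K, g = AdjoinRoot.lift ((aeval x : k[X] →ₐ[k] K) : k[X] →+* K) y h0 := ⟨_, rfl⟩
  have hgC : ∀ p : k[X], g (algebraMap k[X] W.CoordinateRing p) = aeval x p := fun p => by
    rw [hg]
    exact AdjoinRoot.lift_of h0
  have hgY : g (Affine.CoordinateRing.mk W Y) = y := by
    rw [hg]
    exact AdjoinRoot.lift_root h0
  have hc : ∀ c : k, g (algebraMap k W.CoordinateRing c) = algebraMap k K c := fun c => by
    rw [IsScalarTower.algebraMap_apply k k[X] W.CoordinateRing, hgC]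
    exact aeval_C x c
  refine ⟨{ g with commutes' := hc }, ?_, ?_⟩
  · show g (algebraMap k[X] W.CoordinateRing X) = x
    rw [hgC, aeval_X]
  · exact hgY

/-- Chunk W5A (S/M). Points ≠ 0 of W over K are the pairs (x, y) with the equation (W.baseChange K has discriminant the image of Δ ≠ 0: map_Δ; Affine.pointEquiv / nonsingularPointEquiv, equation_iff_nonsingular_of_Δ_ne_zero), and these are the k-algebra homomorphisms R → K: AdjoinRoot.lift (aeval x) y,
conversely (f X, f Y) (AdjoinRoot.algHom_ext, Polynomial.algHom_ext). K finite, so everything is finite (Nat.card of Option / WithZero is + 1). -/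
theorem card_pt (hΔ : W.Δ ≠ 0) (K : Type) [Field K] [Finite K] [Algebra k K] :
    Nat.card (WeierstrassCurve.baseChange W K).toAffine.Point = 1 + Nat.card (W.CoordinateRing →ₐ[k] K) := by
  have hΔ' : (WeierstrassCurve.baseChange W K).toAffine.Δ ≠ 0 := by
    show (W.map (algebraMap k K)).Δ ≠ 0
    rw [WeierstrassCurve.map_Δ]
    exact fun h => hΔ ((algebraMap k K).injective (by rw [h, map_zero]))
  have hbij : Function.Bijective (fun φ : W.CoordinateRing →ₐ[k] K =>
      (⟨(φ (algebraMap k[X] W.CoordinateRing X), φ (Affine.CoordinateRing.mk W Y)),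
        (WeierstrassCurve.Affine.equation_iff_nonsingular_of_Δ_ne_zero hΔ').1 (w5a_eq W K φ)⟩ :
        {xy : K × K // (WeierstrassCurve.baseChange W K).toAffine.Nonsingular xy.fst xy.snd})) := by
    constructor
    · intro φ ψ h
      have h1 := congrArg Subtype.val h
      exact w5a_ext W K φ ψ (congrArg Prod.fst h1) (congrArg Prod.snd h1)
    · rintro ⟨⟨x, y⟩, h⟩
      obtain ⟨φ, h1, h2⟩ := w5a_surj W K x y h.1
      exact ⟨φ, Subtype.ext (Prod.ext h1 h2)⟩
  rw [Nat.card_congr (WeierstrassCurve.Affine.nonsingularPointEquiv (WeierstrassCurve.baseChange W K).toAffine),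
    Nat.card_congr (Equiv.ofBijective _ hbij)]
  show Nat.card (Option _) = _
  rw [Finite.card_option, add_comm]

end H55K.WZ
end

-- from Lib.H55C.A17
section

open NumberField IsDedekindDomain

namespace H55C

open H55B

/-! Chunk A17 (M): the map of completions. P a prime of N, w the prime below in K, e = ramification index.
HeightOneSpectrum.uniformContinuous_algebraMap_liesOver (NumberTheory/RamificationInertia/Valuation.lean): the algebra
map K -> N is uniformly continuous for the adic topologies, so it extends to the completions (UniformSpace.Completion.mapRingHom,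
adicCompletion is (w.valuation K).Completion up to the wrapper toCompletion/ofCompletion). The formula for the valuations holds on
the dense subfield K (valuation_liesOver) and both sides are locally constant away from 0 (continuous).
dense: elements of the completion are approximated by elements of N (the valuation of the difference
as small as we want). -/

open WithZeroMulInt in
theorem A17_norm_lt_iff (N : Type) [Field N] [NumberField N] (P : HeightOneSpectrum (𝓞 N))
    (x : P.adicCompletion N) (γ : WithZero (Multiplicative ℤ)) :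
    ‖x‖ < (toNNReal (HeightOneSpectrum.absNorm_ne_zero P) γ : NNReal) ↔ Valued.v x < γ := by
  rw [FinitePlace.norm_def, NNReal.coe_lt_coe]
  exact (toNNReal_strictMono (HeightOneSpectrum.one_lt_absNorm_nnreal P)).lt_iff_lt

theorem A17_norm_lt_norm_iff (N : Type) [Field N] [NumberField N] (P : HeightOneSpectrum (𝓞 N))
    (x y : P.adicCompletion N) : ‖x‖ < ‖y‖ ↔ Valued.v x < Valued.v y := by
  rw [← A17_norm_lt_iff, ← FinitePlace.norm_def]

theorem valued_alg (N : Type) [Field N] [NumberField N] (P : HeightOneSpectrum (𝓞 N)) (x : N) :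
    Valued.v (algebraMap N (P.adicCompletion N) x) = P.valuation N x :=
  HeightOneSpectrum.valuedAdicCompletion_eq_valuation' P x

open WithZeroMulInt in
theorem exists_approx (N : Type) [Field N] [NumberField N] (P : HeightOneSpectrum (𝓞 N))
    (z : P.adicCompletion N) (γ : WithZero (Multiplicative ℤ)) (hγ : γ ≠ 0) :
    ∃ x : N, Valued.v (z - algebraMap N _ x) < γ := by
  have hd := HeightOneSpectrum.denseRange_algebraMap N P
  rw [Metric.denseRange_iff] at hd
  have hpos : (0 : ℝ) < (toNNReal (HeightOneSpectrum.absNorm_ne_zero P) γ : NNReal) := by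
    rw [NNReal.coe_pos]
    exact toNNReal_pos (HeightOneSpectrum.absNorm_ne_zero P) hγ
  obtain ⟨x, hx⟩ := hd z _ hpos
  rw [dist_eq_norm, A17_norm_lt_iff] at hx
  exact ⟨x, hx⟩

section iota

variable (K N : Type) [Field K] [NumberField K] [Field N] [NumberField N] [Algebra K N]
    (P : HeightOneSpectrum (𝓞 N)) (w : HeightOneSpectrum (𝓞 K)) [P.asIdeal.LiesOver w.asIdeal]

/-- the map of the completions -/
noncomputable def A17_io : w.adicCompletion K →+* P.adicCompletion N :=
  ((HeightOneSpectrum.adicCompletion.equiv N P).symm.toRingHom.comp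
    (UniformSpace.Completion.mapRingHom
      (algebraMap (WithVal (w.valuation K)) (WithVal (P.valuation N)))
      (HeightOneSpectrum.uniformContinuous_algebraMap_liesOver K N w P).continuous)).comp
    (HeightOneSpectrum.adicCompletion.equiv K w).toRingHom

theorem A17_io_continuous : Continuous (A17_io K N P w) :=
  (HeightOneSpectrum.adicCompletion.continuous_ofCompletion N P).comp <|
    UniformSpace.Completion.continuous_map.comp
      (HeightOneSpectrum.adicCompletion.continuous_toCompletion K w)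

theorem A17_io_coe (x : K) : A17_io K N P w (algebraMap K _ x) =
    algebraMap N _ (algebraMap K N x) := by
  apply HeightOneSpectrum.adicCompletion.ext
  exact UniformSpace.Completion.mapRingHom_coe
    (f := algebraMap (WithVal (w.valuation K)) (WithVal (P.valuation N)))
      (HeightOneSpectrum.uniformContinuous_algebraMap_liesOver K N w P).continuous
      ((WithVal.equiv (w.valuation K)).symm x)

theorem A17_io_valued (z : w.adicCompletion K) : Valued.v (A17_io K N P w z) =
    Valued.v z ^ (w.asIdeal.ramificationIdx' P.asIdeal) := by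
  have he : w.asIdeal.ramificationIdx' P.asIdeal ≠ 0 :=
    Ideal.IsDedekindDomain.ramificationIdx'_ne_zero_of_liesOver P.asIdeal w.ne_bot
  rcases eq_or_ne z 0 with rfl | hz
  · rw [map_zero, map_zero, map_zero, zero_pow he]
  have hz' : A17_io K N P w z ≠ 0 := by
    rw [Ne, map_eq_zero]
    exact hz
  set U : Set (w.adicCompletion K) := {y | ‖y - z‖ < ‖z‖} with hU
  set V : Set (w.adicCompletion K) :=
    {y | ‖A17_io K N P w y - A17_io K N P w z‖ < ‖A17_io K N P w z‖} with hV
  have hUo : IsOpen U := isOpen_lt (continuous_id.sub continuous_const).norm continuous_const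
  have hVo : IsOpen V :=
    isOpen_lt ((A17_io_continuous K N P w).sub continuous_const).norm continuous_const
  have hzU : z ∈ U := by
    rw [hU, Set.mem_setOf_eq, sub_self, norm_zero]
    exact norm_pos_iff.2 hz
  have hzV : z ∈ V := by
    rw [hV, Set.mem_setOf_eq, sub_self, norm_zero]
    exact norm_pos_iff.2 hz'
  obtain ⟨x, hx⟩ := (HeightOneSpectrum.denseRange_algebraMap K w).exists_mem_open
    (hUo.inter hVo) ⟨z, hzU, hzV⟩
  obtain ⟨hx1, hx2⟩ := hx
  rw [hU, Set.mem_setOf_eq, A17_norm_lt_norm_iff] at hx1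
  rw [hV, Set.mem_setOf_eq, A17_norm_lt_norm_iff] at hx2
  rw [← Valuation.map_eq_of_sub_lt _ hx1, ← Valuation.map_eq_of_sub_lt _ hx2, A17_io_coe,
    valued_alg, valued_alg]
  exact (HeightOneSpectrum.valuation_liesOver N w P x).symm

end iota

theorem exists_iota (K N : Type) [Field K] [NumberField K] [Field N] [NumberField N] [Algebra K N]
    (P : HeightOneSpectrum (𝓞 N)) (w : HeightOneSpectrum (𝓞 K)) (hw : w.asIdeal = P.asIdeal.under (𝓞 K)) :
    ∃ (ι : w.adicCompletion K →+* P.adicCompletion N) (e : ℕ), 0 < e ∧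
      (∀ x : K, ι (algebraMap K _ x) = algebraMap N _ (algebraMap K N x)) ∧
      (∀ z : w.adicCompletion K, Valued.v (ι z) = Valued.v z ^ e) := by
  haveI : P.asIdeal.LiesOver w.asIdeal := ⟨hw⟩
  exact ⟨A17_io K N P w, w.asIdeal.ramificationIdx' P.asIdeal,
    Nat.pos_of_ne_zero
      (Ideal.IsDedekindDomain.ramificationIdx'_ne_zero_of_liesOver P.asIdeal w.ne_bot),
    A17_io_coe K N P w, A17_io_valued K N P w⟩

end H55C
end
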