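import Mathlib
import Pool.Agent.Lib.H1M.PP.D_H55C_Defs
import Pool.Agent.Lib.H1M.PP.M001
import Pool.Agent.Lib.H1M.PP.M005
import Pool.Agent.Lib.H1M.PP.M006
import Pool.Agent.Lib.H1M.PP.M010
import Pool.Agent.Lib.H1M.PP.M011
import Pool.Agent.Lib.H1M.PP.M012
import Pool.Agent.Lib.H1M.PP.M013

/-! Merged copies (to shorten the build) of Lib.H13S.LD1, Lib.H35T.Defs2, Lib.H35T.Stat, Lib.H55B.H6, Lib.H55B.C1, Lib.H55B.C2, Lib.H55B.C3, Lib.H55B.C4, Lib.H28G.GV9, Lib.H55C.W5, Lib.H55C.W1, Lib.H55K.W3B, Lib.H55K.W4B, Lib.H35T.L3, Lib.H55K.C6, Lib.H55K.W5B, Lib.H35P.SL, Lib.H35T.L5. -/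

-- from Lib.H13S.LD1
section

open NumberField IsDedekindDomain

namespace H13S

open H55P H28G H55B

/-- Chunk LD1 (M). f = prod over J of (X - C (α R)), a = coefficients, integral (V.valuation ≤ 1: coefficients of a product of integral polynomials, induction on J) and fixed by H (s permutes the factors, hperm: Polynomial.map s f = f by
Finset.prod_bij or prod_equiv with R -> R + d). Then every coefficient satisfies hb, so V.valuation (s₁ a_n - a_n)^n₀ ≤ B. f(x) = 0 for x = α 0, (map s₁ f)(x) = prod (x - s₁ (α R)) = (map s₁ f)(x) - f(x) = sum of (s₁ a_n - a_n) x^n. The value of the sum is at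
most the value of one of the terms (Finset.exists_max_image, Valuation.map_sum_le), so its n₀-th power is ≤ B. -/
theorem prod_bound {Ω M : Type} [Field Ω] [AddCommGroup M] (V : ValuationSubring Ω) (J : Finset M)
    (h0 : (0 : M) ∈ J) (α : M → Ω) (hα : ∀ R ∈ J, V.valuation (α R) ≤ 1) (H : Set (Ω ≃+* Ω))
    (hperm : ∀ s ∈ H, ∃ d : M, (∀ R ∈ J, s (α R) = α (R + d)) ∧ ∀ R, R ∈ J ↔ R + d ∈ J)
    (s₁ : Ω ≃+* Ω) (n₀ : ℕ) (B : V.ValueGroup)
    (hb : ∀ a : Ω, V.valuation a ≤ 1 → (∀ s ∈ H, s a = a) → V.valuation (s₁ a - a) ^ n₀ ≤ B) :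
    V.valuation (∏ R ∈ J, (α 0 - s₁ (α R))) ^ n₀ ≤ B := by
  classical
  let f : Polynomial Ω := ∏ R ∈ J, (Polynomial.X - Polynomial.C (α R))
  -- integrality of coefficients
  have hint : ∀ n, V.valuation (f.coeff n) ≤ 1 := by
    intro n
    let β : M → V := fun R => if h : R ∈ J then ⟨α R, (V.valuation_le_one_iff _).1 (hα R h)⟩ else 0
    have hβ : ∀ R ∈ J, ((β R : V) : Ω) = α R := by
      intro R hR
      change ((if h : R ∈ J then (⟨α R, (V.valuation_le_one_iff _).1 (hα R h)⟩ : V) else 0 : V) : Ω) = _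
      rw [dif_pos hR]
    let f0 : Polynomial V := ∏ R ∈ J, (Polynomial.X - Polynomial.C (β R))
    have hf0 : f0.map V.subtype = f := by
      rw [Polynomial.map_prod]
      refine Finset.prod_congr rfl fun R hR => ?_
      rw [Polynomial.map_sub, Polynomial.map_X, Polynomial.map_C]
      congr 2
      exact hβ R hR
    rw [← hf0, Polynomial.coeff_map]
    exact (V.valuation_le_one_iff _).2 (f0.coeff n).2
  have hmap : ∀ s : Ω ≃+* Ω, f.map (s : Ω →+* Ω) =
      ∏ R ∈ J, (Polynomial.X - Polynomial.C (s (α R))) := by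
    intro s
    rw [Polynomial.map_prod]
    refine Finset.prod_congr rfl fun R hR => ?_
    rw [Polynomial.map_sub, Polynomial.map_X, Polynomial.map_C]
    rfl
  have hfix : ∀ s ∈ H, ∀ n, s (f.coeff n) = f.coeff n := by
    intro s hs n
    obtain ⟨d, hd1, hd2⟩ := hperm s hs
    have h1 : f.map (s : Ω →+* Ω) = f := by
      rw [hmap s]
      refine Finset.prod_bij (fun R _ => R + d) (fun R hR => (hd2 R).1 hR)
        (fun R _ R' _ h => add_right_cancel h) ?_ ?_
      · intro R hR
        refine ⟨R - d, ?_, sub_add_cancel R d⟩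
        rw [hd2, sub_add_cancel]
        exact hR
      · intro R hR
        rw [hd1 R hR]
    have h2 := congrArg (fun p : Polynomial Ω => p.coeff n) h1
    simp only [Polynomial.coeff_map] at h2
    exact h2
  have hev : ∏ R ∈ J, (α 0 - s₁ (α R)) =
      ∑ n ∈ Finset.range (f.natDegree + 1), (s₁ (f.coeff n) - f.coeff n) * α 0 ^ n := by
    have h1 : (f.map (s₁ : Ω →+* Ω)).eval (α 0) = ∏ R ∈ J, (α 0 - s₁ (α R)) := by
      rw [hmap s₁, Polynomial.eval_prod]
      refine Finset.prod_congr rfl fun R hR => ?_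
      simp
    have h2 : f.eval (α 0) = 0 := by
      change (∏ R ∈ J, (Polynomial.X - Polynomial.C (α R))).eval (α 0) = 0
      rw [Polynomial.eval_prod]
      refine Finset.prod_eq_zero h0 ?_
      simp
    have h3 : (f.map (s₁ : Ω →+* Ω)).eval (α 0) =
        ∑ n ∈ Finset.range (f.natDegree + 1), s₁ (f.coeff n) * α 0 ^ n := by
      rw [Polynomial.eval_map, Polynomial.eval₂_eq_sum_range]
      rfl
    have h4 : f.eval (α 0) = ∑ n ∈ Finset.range (f.natDegree + 1), f.coeff n * α 0 ^ n :=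
      Polynomial.eval_eq_sum_range _
    rw [← h1, ← sub_zero (Polynomial.eval _ _), ← h2, h3, h4, ← Finset.sum_sub_distrib]
    refine Finset.sum_congr rfl fun n _ => ?_
    ring
  rw [hev]
  have hne : (Finset.range (f.natDegree + 1)).Nonempty := ⟨0, by simp⟩
  obtain ⟨k, hk, hmax⟩ := Finset.exists_max_image (Finset.range (f.natDegree + 1))
    (fun n => V.valuation ((s₁ (f.coeff n) - f.coeff n) * α 0 ^ n)) hne
  have h5 : V.valuation (∑ n ∈ Finset.range (f.natDegree + 1),
      (s₁ (f.coeff n) - f.coeff n) * α 0 ^ n) ≤ V.valuation (s₁ (f.coeff k) - f.coeff k) := by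
    refine (V.valuation.map_sum_le hmax).trans ?_
    rw [map_mul, map_pow]
    have h6 : V.valuation (α 0) ^ k ≤ 1 := pow_le_one₀ zero_le (hα 0 h0)
    exact mul_le_of_le_one_right' h6
  exact (pow_le_pow_left₀ zero_le h5 n₀).trans (hb _ (hint k) fun s hs => hfix s hs k)

end H13S
end

-- from Lib.H35T.Defs2
section

open NumberField IsDedekindDomain

namespace H35T

open H55B

/-- Admissible elements: congruent to 1 modulo 3(om - 1), and every prime dividing a is good. -/
def Adm (a : O) : Prop :=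
  (3 * (om - 1) : O) ∣ a - 1 ∧ ∀ v : HeightOneSpectrum O, a ∈ v.asIdeal → Good v

open Classical in
/-- The cubic residue symbol at a prime ideal not above 3, with values 0, 1, om, om^2. -/
noncomputable def sym3 (v : HeightOneSpectrum O) (x : O) : O :=
  if x ∈ v.asIdeal then 0 else
    if x ^ ((Ideal.absNorm v.asIdeal - 1) / 3) - 1 ∈ v.asIdeal then 1 else
      if x ^ ((Ideal.absNorm v.asIdeal - 1) / 3) - om ∈ v.asIdeal then om else om ^ 2

/-- The cubic symbol of a product of primes. -/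
noncomputable def jac3 (l : Multiset (HeightOneSpectrum O)) (x : O) : O := (l.map fun v => sym3 v x).prod

end H35T
end

-- from Lib.H35T.Stat
section

open NumberField IsDedekindDomain

namespace H35T

open H55B

/-- The algebraic side: the Selmer group of the endomorphism sqrt(-3) of E144 over K is trivial (so that
the 3-primary part of the Tate-Shafarevich group is trivial) and E144(K) is finite of order prime to 3. -/
def SelThree (K : Type) [Field K] [NumberField K] : Prop :=
  (∀ m ∈ Sel K, ∃ b : Qd K, m = b ^ 3) ∧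
  Finite (E144.baseChange K).toAffine.Point ∧
  ¬ 3 ∣ Nat.card (E144.baseChange K).toAffine.Point

/-- The rank part and the 3-part of the conjecture of Birch and Swinnerton-Dyer for E144 over K, in
analytic rank 0 and with trivial Selmer group: SelThree K, the L-series converges absolutely for
Re s > 3/2 and continues analytically to Re s > 1/2 with nonzero value at 1, and the analytic order of the
Tate-Shafarevich group is a 3-adic unit (for the period lattice L of dx/(2y), which exists). -/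
def BSDThree (K : Type) [Field K] [NumberField K] [Algebra F K] : Prop :=
  SelThree K ∧ (∃ L : PeriodPair, L.g₂ = 0 ∧ L.g₃ = 4) ∧
  ∃ Λ : ℂ → ℂ, AnalyticOnNhd ℂ Λ {s | 1 / 2 < s.re} ∧
    (∀ s : ℂ, 3 / 2 < s.re →
      LSeriesSummable (fun n => (((E144.baseChange K).LFunction n : ℤ) : ℂ)) s ∧
      Λ s = (E144.baseChange K).LSeries s) ∧
    Λ 1 ≠ 0 ∧
    ∀ L : PeriodPair, L.g₂ = 0 → L.g₃ = 4 → Unit3 (shaAn K L (Λ 1))

/-- K/F is a Galois extension of 3-power degree. -/
def ThreeExt (K : Type) [Field K] [Algebra F K] : Prop :=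
  IsGalois F K ∧ ∃ k : ℕ, Module.finrank F K = 3 ^ k

/-- K/F is an abelian extension with a modulus of good primes. -/
def AbMod (K : Type) [Field K] [NumberField K] [Algebra F K] : Prop :=
  (∀ g h : K ≃ₐ[F] K, g * h = h * g) ∧ ∃ α : O, GoodMod α ∧ IsModulus K α

/-- K is contained in a field N generated over F by cube roots of admissible elements and m-th roots of
unity, m a squarefree product of primes l = 7 mod 12. -/
def Explicit (K : Type) [Field K] [Algebra F K] : Prop :=
  ∃ (N : Type) (_ : Field N) (_ : NumberField N) (_ : Algebra F N) (_ : Algebra K N)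
    (_ : IsScalarTower F K N) (m : ℕ) (S : Set N), Squarefree m ∧
    (∀ l : ℕ, l.Prime → l ∣ m → l % 12 = 7) ∧
    (∀ s ∈ S, (∃ a : O, Adm a ∧ s ^ 3 = algebraMap O N a) ∨ s ^ m = 1) ∧ Algebra.adjoin F S = ⊤

end H35T
end

-- from Lib.H55B.H6
section

open NumberField IsDedekindDomain

namespace H55B

/-! Chunk H6: Sym a has mean zero for squarefree odd nonunits.
Choose v dividing a; O/v has odd order > 1, so there is a nonsquare; by the Chinese remainder theorem (a
squarefree: a = gen * a', coprime) there is x with sym v x = -1 and x = 1 modulo all other primes dividing a, so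
Sym a x = -1, x coprime to a. Multiplication by x permutes O/(a) and Sym is multiplicative and periodic:
S = Sym a x * S = -S. -/

theorem H6_exists_v {a : O} (ha0 : a ≠ 0) (hnu : ¬ IsUnit a) :
    ∃ v : HeightOneSpectrum O, a ∈ v.asIdeal := by
  obtain ⟨M, hM, hle⟩ := Ideal.exists_le_maximal (Ideal.span {a})
    (by rwa [Ne, Ideal.span_singleton_eq_top])
  have haM : a ∈ M := hle (Ideal.mem_span_singleton_self a)
  exact ⟨⟨M, hM.isPrime, fun h => ha0 (by rw [h] at haM; exact (Submodule.mem_bot O).1 haM)⟩, haM⟩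

theorem H6_nonsq (v : HeightOneSpectrum O) (h2 : (2 : O) ∉ v.asIdeal) : ∃ y : O, sym v y = -1 := by
  haveI : v.asIdeal.IsMaximal := v.isMaximal
  letI : Field (O ⧸ v.asIdeal) := Ideal.Quotient.field v.asIdeal
  haveI : Finite (O ⧸ v.asIdeal) := Ideal.finiteQuotientOfFreeOfNeBot v.asIdeal v.ne_bot
  have hchar : ringChar (O ⧸ v.asIdeal) ≠ 2 := by
    intro h
    apply h2
    rw [← Ideal.Quotient.eq_zero_iff_mem]
    have := ringChar.Nat.cast_ringChar (R := O ⧸ v.asIdeal)
    rw [h] at this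
    rw [map_ofNat]
    exact_mod_cast this
  obtain ⟨z, hz⟩ := FiniteField.exists_nonsquare hchar
  obtain ⟨y, rfl⟩ := Ideal.Quotient.mk_surjective z
  refine ⟨y, ?_⟩
  unfold sym
  rw [if_neg, if_neg]
  · rintro ⟨w, hw⟩
    apply hz
    refine ⟨Ideal.Quotient.mk _ w, ?_⟩
    rw [← map_mul, Ideal.Quotient.eq]
    rwa [← sq]
  · intro hy
    apply hz
    rw [Ideal.Quotient.eq_zero_iff_mem.2 hy]
    exact ⟨0, by simp⟩

theorem H6_exists_x {a : O} (hsq : Squarefree a) (h2 : IsCoprime a 2) (hnu : ¬ IsUnit a) :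
    ∃ x : O, Sym a x = -1 := by
  classical
  obtain ⟨v, hv⟩ := H6_exists_v hsq.ne_zero hnu
  have h2v : (2 : O) ∉ v.asIdeal := by
    intro h
    obtain ⟨r, s, hrs⟩ := h2
    exact v.isPrime.ne_top ((Ideal.eq_top_iff_one _).2 (hrs ▸ v.asIdeal.add_mem
      (v.asIdeal.mul_mem_left r hv) (v.asIdeal.mul_mem_left s h)))
  obtain ⟨y, hy⟩ := H6_nonsq v h2v
  obtain ⟨p, hp⟩ := IsPrincipalIdealRing.principal v.asIdeal
  rw [← Ideal.span] at hp
  have hpp : Prime p := by
    have := v.isPrime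
    rw [hp] at this
    refine (Ideal.span_singleton_prime ?_).1 this
    rintro rfl
    exact v.ne_bot (by rw [hp, Ideal.span_singleton_eq_bot])
  have hpa : p ∣ a := by
    rw [hp] at hv
    exact Ideal.mem_span_singleton.1 hv
  obtain ⟨a', rfl⟩ := hpa
  have hcop : IsCoprime p a' := by
    refine (hpp.coprime_iff_not_dvd).2 fun h => ?_
    obtain ⟨b, rfl⟩ := h
    exact hpp.not_isUnit (hsq p ⟨b, by ring⟩)
  obtain ⟨r, s, hrs⟩ := hcop
  refine ⟨y * (s * a') + r * p, ?_⟩
  unfold Sym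
  rw [finprod_eq_single _ v]
  · rw [finprod_eq_if, if_pos hv, ← hy]
    apply sym_congr
    rw [hp]
    refine Ideal.mem_span_singleton.2 ⟨r - y * r, ?_⟩
    linear_combination y * hrs
  · intro w hw
    rw [finprod_eq_if]
    split_ifs with haw
    · rcases w.isPrime.mem_or_mem haw with h | h
      · exfalso
        apply hw
        have hle : v.asIdeal ≤ w.asIdeal := by
          rw [hp, Ideal.span_singleton_le_iff_mem]
          exact h
        have := v.isMaximal.eq_of_le w.isPrime.ne_top hle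
        exact (HeightOneSpectrum.ext this).symm
      · have : sym w (y * (s * a') + r * p) = sym w 1 := by
          apply sym_congr
          have h3 : y * (s * a') + r * p - 1 = (y * s - s) * a' := by
            linear_combination hrs
          rw [h3]
          exact w.asIdeal.mul_mem_left _ h
        rw [this]
        unfold sym
        rw [if_neg, if_pos]
        · exact ⟨1, by simp⟩
        · exact fun h1 => w.isPrime.ne_top ((Ideal.eq_top_iff_one _).2 h1)
    · rfl

theorem Sym_sum_zero {a : O} (hsq : Squarefree a) (h2 : IsCoprime a 2) (hnu : ¬ IsUnit a) :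
    ∑ᶠ c : O ⧸ Ideal.span {a}, (Sym a c.out : ℂ) = 0 := by
  have ha0 : a ≠ 0 := hsq.ne_zero
  obtain ⟨x, hx⟩ := H6_exists_x hsq h2 hnu
  have hxa : IsCoprime x a := by
    by_contra h
    rw [Sym_zero ha0 h] at hx
    norm_num at hx
  obtain ⟨r, s, hrs⟩ := hxa
  have hmk : Ideal.Quotient.mk (Ideal.span {a}) a = 0 :=
    Ideal.Quotient.eq_zero_iff_mem.2 (Ideal.mem_span_singleton_self a)
  have hu : Ideal.Quotient.mk (Ideal.span {a}) x * Ideal.Quotient.mk (Ideal.span {a}) r = 1 := by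
    rw [← map_mul, ← map_one (Ideal.Quotient.mk (Ideal.span {a})), ← hrs, map_add, map_mul _ s a,
      hmk, mul_zero, add_zero, mul_comm x r]
  let u : (O ⧸ Ideal.span {a})ˣ := ⟨Ideal.Quotient.mk _ x, Ideal.Quotient.mk _ r, hu, by
    rw [mul_comm]; exact hu⟩
  have hper : ∀ y z : O, Ideal.Quotient.mk (Ideal.span {a}) y = Ideal.Quotient.mk _ z →
      Sym a y = Sym a z := by
    intro y z hyz
    rw [Ideal.Quotient.eq, Ideal.mem_span_singleton] at hyz
    obtain ⟨w, hw⟩ := hyz
    have : y = z + a * w := by rw [← hw]; ring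
    rw [this, Sym_per ha0]
  have hout : ∀ c : O ⧸ Ideal.span {a}, Ideal.Quotient.mk (Ideal.span {a}) c.out = c :=
    fun c => Quotient.out_eq c
  have key : ∀ c : O ⧸ Ideal.span {a}, (Sym a (u.mulLeft c).out : ℂ) = -(Sym a c.out : ℂ) := by
    intro c
    have h1 : Sym a (u.mulLeft c).out = Sym a (x * c.out) := by
      apply hper
      rw [hout, map_mul, hout]
      rfl
    rw [h1, Sym_mul ha0, hx]
    push_cast
    ring
  have h1 : ∑ᶠ c : O ⧸ Ideal.span {a}, (Sym a c.out : ℂ) =
      -∑ᶠ c : O ⧸ Ideal.span {a}, (Sym a c.out : ℂ) := by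
    rw [← finsum_neg_distrib, ← finsum_comp_equiv u.mulLeft]
    exact finsum_congr key
  have h2' : (2 : ℂ) * ∑ᶠ c : O ⧸ Ideal.span {a}, (Sym a c.out : ℂ) = 0 := by
    linear_combination h1
  exact (mul_eq_zero.1 h2').resolve_left two_ne_zero

end H55B
end

-- from Lib.H55B.C1
section

open NumberField IsDedekindDomain

namespace H55B

/-! Chunk C1: L-series of periodic functions as combinations of Kf.
Bijection: 1 + 3x = alpha + 3(c + alpha y) with (c, y), c over the representatives Quotient.out of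
O/(alpha): x' = x - (alpha - 1)/3, c = out of the class of x', y = (x' - c)/alpha. By periodicity
f(alpha + 3c + 3 alpha y) = f(3c), and g s (e(alpha)(1 + 3 e(c)/e(alpha) + 3 e y)) by g_mul.
f is bounded because it is periodic modulo alpha and O/(alpha) is finite. -/

theorem C1_out (α x : O) : ∃ y : O, x = (Ideal.Quotient.mk (Ideal.span {α}) x).out + α * y := by
  have h1 : Ideal.Quotient.mk (Ideal.span {α}) x =
      Ideal.Quotient.mk (Ideal.span {α}) (Ideal.Quotient.mk (Ideal.span {α}) x).out :=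
    (Ideal.Quotient.mk_out _).symm
  rw [Ideal.Quotient.eq, Ideal.mem_span_singleton] at h1
  obtain ⟨y, hy⟩ := h1
  exact ⟨y, by rw [← hy]; ring⟩

theorem C1_finite {α : O} (hα : α ≠ 0) : Finite (O ⧸ Ideal.span {α}) := by
  refine Ideal.finiteQuotientOfFreeOfNeBot _ ?_
  rw [Ne, Ideal.span_singleton_eq_bot]
  exact hα

theorem C1_bounded {α : O} (hα : α ≠ 0) {f : O → ℂ} (hper : ∀ x y, f (x + α * y) = f x) :
    ∃ B : ℝ, ∀ x, ‖f x‖ ≤ B := by
  have := C1_finite hα
  have := Fintype.ofFinite (O ⧸ Ideal.span {α})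
  refine ⟨∑ c : O ⧸ Ideal.span {α}, ‖f c.out‖, fun x => ?_⟩
  obtain ⟨y, hy⟩ := C1_out α x
  have h1 : f x = f (Ideal.Quotient.mk (Ideal.span {α}) x).out := by
    conv_lhs => rw [hy]
    rw [hper]
  rw [h1]
  exact Finset.single_le_sum (f := fun c : O ⧸ Ideal.span {α} => ‖f c.out‖)
    (fun c _ => norm_nonneg _) (Finset.mem_univ (Ideal.Quotient.mk (Ideal.span {α}) x))

theorem Lf_summable (α : O) (hα : α ≠ 0) (f : O → ℂ) (hper : ∀ x y, f (x + α * y) = f x) (s : ℂ)
    (hs : 3 / 2 < s.re) : Summable (fun x : O => f (1 + 3 * x) * g s (1 + 3 * e x)) := by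
  obtain ⟨B, hB⟩ := C1_bounded hα hper
  refine Summable.of_norm_bounded (g := fun x : O => B * ‖g s (1 + 3 * e x)‖)
    ((Kf_summable 1 s hs).norm.mul_left B) fun x => ?_
  rw [norm_mul]
  exact mul_le_mul_of_nonneg_right (hB _) (norm_nonneg _)

/-- the parametrisation of the primary elements -/
noncomputable def C1_equiv {α : O} (hα : α ≠ 0) (a : O) :
    ((O ⧸ Ideal.span {α}) × O) ≃ O :=
  Equiv.ofBijective (fun p => a + p.1.out + α * p.2) (by
    constructor
    · rintro ⟨c, y⟩ ⟨d, z⟩ h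
      simp only at h
      have h1 : c = d := by
        rw [← Ideal.Quotient.mk_out c, ← Ideal.Quotient.mk_out d, Ideal.Quotient.eq,
          Ideal.mem_span_singleton]
        exact ⟨z - y, by linear_combination h⟩
      subst h1
      have h2 : α * y = α * z := by linear_combination h
      rw [mul_left_cancel₀ hα h2]
    · intro x
      obtain ⟨y, hy⟩ := C1_out α (x - a)
      exact ⟨(Ideal.Quotient.mk (Ideal.span {α}) (x - a), y), by
        simp only
        linear_combination -hy⟩)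

theorem C1_equiv_apply {α : O} (hα : α ≠ 0) (a : O) (p : (O ⧸ Ideal.span {α}) × O) :
    C1_equiv hα a p = a + p.1.out + α * p.2 := rfl

theorem Lf_eq (α : O) (hα : α ≠ 0) (hp : Prim α) (f : O → ℂ) (hper : ∀ x y, f (x + α * y) = f x)
    (s : ℂ) (hs : 3 / 2 < s.re) :
    Lf f s = g s (e α) * ∑ᶠ c : O ⧸ Ideal.span {α}, f (3 * c.out) * Kf (1 + 3 * e c.out / e α) s := by
  obtain ⟨a, ha⟩ := hp
  have hα' : α = 1 + 3 * a := by rw [← ha]; ring
  have he : e α ≠ 0 := fun h => hα (e_injective (by rw [h, map_zero]))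
  have := C1_finite hα
  have := Fintype.ofFinite (O ⧸ Ideal.span {α})
  have hterm : ∀ p : (O ⧸ Ideal.span {α}) × O,
      f (1 + 3 * C1_equiv hα a p) * g s (1 + 3 * e (C1_equiv hα a p)) =
        g s (e α) * (f (3 * p.1.out) * g s (1 + 3 * e p.1.out / e α + 3 * e p.2)) := by
    intro p
    have h1 : f (1 + 3 * C1_equiv hα a p) = f (3 * p.1.out) := by
      rw [← hper (3 * p.1.out) (1 + 3 * p.2), C1_equiv_apply]
      congr 1
      linear_combination -hα'
    have h2 : (1 + 3 * e (C1_equiv hα a p) : ℂ) =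
        e α * (1 + 3 * e p.1.out / e α + 3 * e p.2) := by
      rw [C1_equiv_apply]
      have h3 : (1 + 3 * e a : ℂ) = e α := by
        rw [hα', map_add, map_mul, map_one, map_ofNat]
      rw [map_add, map_add, map_mul]
      field_simp
      linear_combination h3
    rw [h1, h2, g_mul]
    ring
  have hsum := Lf_summable α hα f hper s hs
  have hsum2 := (C1_equiv hα a).summable_iff.2 hsum
  unfold Lf
  rw [← (C1_equiv hα a).tsum_eq]
  simp only [hterm]
  rw [tsum_mul_left]
  congr 1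
  have hsum3 : Summable fun p : (O ⧸ Ideal.span {α}) × O =>
      f (3 * p.1.out) * g s (1 + 3 * e p.1.out / e α + 3 * e p.2) := by
    have hg : g s (e α) ≠ 0 := by
      rw [← norm_pos_iff, norm_g s _ he]
      exact Real.rpow_pos_of_pos (norm_pos_iff.2 he) _
    refine (summable_mul_left_iff hg).1 ?_
    refine hsum2.congr fun p => ?_
    rw [← hterm p]
    rfl
  rw [hsum3.tsum_prod, tsum_fintype, finsum_eq_sum_of_fintype]
  refine Finset.sum_congr rfl fun c _ => ?_
  unfold Kf
  rw [← tsum_mul_left]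

end H55B
end

-- from Lib.H55B.C2
section

open NumberField IsDedekindDomain

namespace H55B

/-! Chunk C2: even functions of mean zero.
In Lf_eq replace c by -c: (-c).out = -(c.out) + alpha y, so by evenness and periodicity of f and by
Kf_per, the sum equals (1/2) sum f(3c)[Kf(1 + w_c) + Kf(1 - w_c)] = (1/2) sum f(3c) [G(w_c) + 2 Kf 1], and
sum over c of f(3 c.out) = sum over c of f(c.out) = 0 since multiplication by 3 permutes O/(alpha). -/

theorem C2_out {α : O} {H : O → ℂ} (hper : ∀ x y, H (x + α * y) = H x) (x : O) :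
    H (Ideal.Quotient.mk (Ideal.span {α}) x).out = H x := by
  obtain ⟨y, hy⟩ := C1_out α x
  conv_rhs => rw [hy]
  rw [hper]

theorem C2_neg {α : O} {H : O → ℂ} (hper : ∀ x y, H (x + α * y) = H x) :
    ∑ᶠ c : O ⧸ Ideal.span {α}, H (-c.out) = ∑ᶠ c : O ⧸ Ideal.span {α}, H c.out := by
  rw [← finsum_comp_equiv (Equiv.neg (O ⧸ Ideal.span {α}))
    (f := fun c : O ⧸ Ideal.span {α} => H c.out)]
  refine finsum_congr fun c => ?_
  rw [Equiv.neg_apply, ← C2_out hper (-c.out), map_neg, Ideal.Quotient.mk_out]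

theorem C2_three {α : O} (hp : Prim α) {H : O → ℂ} (hper : ∀ x y, H (x + α * y) = H x) :
    ∑ᶠ c : O ⧸ Ideal.span {α}, H (3 * c.out) = ∑ᶠ c : O ⧸ Ideal.span {α}, H c.out := by
  obtain ⟨u, v, huv⟩ := hp.coprime
  have h1 : (Ideal.Quotient.mk (Ideal.span {α}) v) * 3 = 1 := by
    rw [show (3 : O ⧸ Ideal.span {α}) = Ideal.Quotient.mk (Ideal.span {α}) 3 from
      (map_ofNat _ 3).symm, ← map_mul, ← map_one (Ideal.Quotient.mk (Ideal.span {α})),
      Ideal.Quotient.eq, Ideal.mem_span_singleton]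
    exact ⟨-u, by linear_combination huv⟩
  have h2 : (3 : O ⧸ Ideal.span {α}) * (Ideal.Quotient.mk (Ideal.span {α}) v) = 1 := by
    rw [mul_comm, h1]
  let σ : (O ⧸ Ideal.span {α}) ≃ (O ⧸ Ideal.span {α}) :=
    { toFun := fun c => 3 * c
      invFun := fun c => (Ideal.Quotient.mk (Ideal.span {α}) v) * c
      left_inv := fun c => by simp only; rw [← mul_assoc, h1, one_mul]
      right_inv := fun c => by simp only; rw [← mul_assoc, h2, one_mul] }
  rw [← finsum_comp_equiv σ (f := fun c : O ⧸ Ideal.span {α} => H c.out)]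
  refine finsum_congr fun c => ?_
  have h3 : σ c = Ideal.Quotient.mk (Ideal.span {α}) (3 * c.out) := by
    rw [map_mul, Ideal.Quotient.mk_out, map_ofNat]
    rfl
  rw [h3, C2_out hper]

/-- Even functions, without the mean zero condition. -/
theorem Lf_even' (α : O) (hα : α ≠ 0) (hp : Prim α) (f : O → ℂ) (hper : ∀ x y, f (x + α * y) = f x)
    (heven : ∀ x, f (-x) = f x) (s : ℂ) (hs : 3 / 2 < s.re) :
    Lf f s = g s (e α) * ((1 / 2) *
      ∑ᶠ c : O ⧸ Ideal.span {α}, f (3 * c.out) * G (3 * e c.out / e α) s +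
      (∑ᶠ c : O ⧸ Ideal.span {α}, f c.out) * Kf 1 s) := by
  have he : e α ≠ 0 := fun h => hα (e_injective (by rw [h, map_zero]))
  have hfin := C1_finite hα
  have := Fintype.ofFinite (O ⧸ Ideal.span {α})
  rw [Lf_eq α hα hp f hper s hs]
  congr 1
  set H : O → ℂ := fun x => f (3 * x) * Kf (1 + 3 * e x / e α) s with hH
  have hHper : ∀ x y, H (x + α * y) = H x := by
    intro x y
    simp only [hH]
    have h1 : f (3 * (x + α * y)) = f (3 * x) := by
      rw [← hper (3 * x) (3 * y)]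
      congr 1
      ring
    have h2 : (1 + 3 * e (x + α * y) / e α : ℂ) = 1 + 3 * e x / e α + 3 * e y := by
      rw [map_add, map_mul]
      field_simp
      ring
    rw [h1, h2, Kf_per]
  have h1 := C2_neg hHper
  have h2 : ∑ᶠ c : O ⧸ Ideal.span {α}, f (3 * c.out) = ∑ᶠ c : O ⧸ Ideal.span {α}, f c.out :=
    C2_three hp hper
  rw [finsum_eq_sum_of_fintype, finsum_eq_sum_of_fintype] at h1 h2 ⊢
  rw [finsum_eq_sum_of_fintype, ← h2]
  have h3 : ∀ c : O ⧸ Ideal.span {α}, f (3 * c.out) * G (3 * e c.out / e α) s =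
      H c.out + H (-c.out) - 2 * (f (3 * c.out) * Kf 1 s) := by
    intro c
    simp only [hH]
    have h4 : f (3 * -c.out) = f (3 * c.out) := by
      rw [mul_neg, heven]
    have h5 : (1 + 3 * e (-c.out) / e α : ℂ) = 1 - 3 * e c.out / e α := by
      rw [map_neg]
      ring
    rw [h4, h5, G_eq_Kf _ s hs]
    ring
  rw [Finset.sum_congr rfl fun c _ => h3 c, Finset.sum_sub_distrib, Finset.sum_add_distrib, h1,
    ← Finset.mul_sum, ← Finset.sum_mul]
  ring

theorem Lf_even (α : O) (hα : α ≠ 0) (hp : Prim α) (f : O → ℂ) (hper : ∀ x y, f (x + α * y) = f x)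
    (heven : ∀ x, f (-x) = f x) (hsum : ∑ᶠ c : O ⧸ Ideal.span {α}, f c.out = 0) (s : ℂ)
    (hs : 3 / 2 < s.re) :
    Lf f s = (1 / 2) * g s (e α) *
      ∑ᶠ c : O ⧸ Ideal.span {α}, f (3 * c.out) * G (3 * e c.out / e α) s := by
  rw [Lf_even' α hα hp f hper heven s hs, hsum]
  ring

end H55B
end

-- from Lib.H55B.C3
section

open NumberField IsDedekindDomain

namespace H55B

/-! Chunk C3: the L-series of the trivial character modulo alpha.
Induction on the number of prime factors of the squarefree primary element alpha. alpha = 1: Lf 1 = Kf 1.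
Step alpha' = alpha * p, p = gen v prime not dividing alpha (every prime factor of a primary element has a
primary generator, and the cofactor is primary): the x coprime to alpha p are the x coprime to alpha
minus those of the form p x', x' coprime to alpha; x primary iff x' primary; g s (e (p x')) =
g s (e p) g s (e x'). So Lf_(alpha p) = Lf_alpha (1 - g s (e p)). The finprod over v with alpha in v is a
product over a finite set (alpha is not zero), and the primes dividing alpha p are those dividing alpha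
and p. -/

theorem C3_ind {P : O → Prop} (h1 : P 1)
    (hstep : ∀ (α : O) (v : HeightOneSpectrum O), (3 : O) ∉ v.asIdeal → Prim α →
      Squarefree α → α ∉ v.asIdeal → P α → P (α * gen v)) :
    ∀ α : O, Squarefree α → Prim α → P α := by
  have key : ∀ n : ℕ, ∀ α : O, Nm α = n → Squarefree α → Prim α → P α := by
    intro n
    induction n using Nat.strong_induction_on with
    | _ n ih =>
      intro α hn hsq hp
      have hα0 : α ≠ 0 := hp.ne_zero
      by_cases hu : IsUnit α
      · have : α = 1 := hp.eq_of_associated prim_one (associated_one_iff_isUnit.2 hu)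
        rw [this]
        exact h1
      · obtain ⟨p, hpi, hpd⟩ := WfDvdMonoid.exists_irreducible_factor hu hα0
        have hcop : IsCoprime p 3 := hp.coprime.of_isCoprime_of_dvd_left hpd
        obtain ⟨u, hup⟩ := exists_unit_prim hcop
        have hq : Prime ((u : O) * p) := by
          have h2 : Prime p := hpi.prime
          have h3 : Associated p ((u : O) * p) := ⟨u, by ring⟩
          exact h3.prime h2
        obtain ⟨v, hv3, hvq⟩ := exists_gen_eq hq hup
        have hqd : gen v ∣ α := by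
          rw [hvq]
          exact (Units.isUnit u).mul_left_dvd.2 hpd
        obtain ⟨β, hβ⟩ := hqd
        have hgp : Prime (gen v) := gen_prime v hv3
        have hgP : Prim (gen v) := (gen_spec v hv3).2
        have hβP : Prim β := by
          have h2 : (3 : O) ∣ gen v * (β - 1) := by
            have h3 : gen v * (β - 1) = (α - 1) - (gen v - 1) := by
              rw [hβ]
              ring
            rw [h3]
            exact dvd_sub hp hgP
          exact hgP.coprime.symm.dvd_of_dvd_mul_left h2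
        have hβsq : Squarefree β := hsq.squarefree_of_dvd ⟨gen v, by rw [hβ]; ring⟩
        have hβv : β ∉ v.asIdeal := by
          intro h2
          obtain ⟨γ, hγ⟩ := (gen_dvd_iff v hv3 β).2 h2
          exact hgp.not_isUnit (hsq (gen v) ⟨γ, by rw [hβ, hγ]; ring⟩)
        have hlt : Nm β < n := by
          rw [← hn, hβ, Nm_mul]
          have h2 : Nm (gen v) ≠ 0 := fun h => hgp.ne_zero (Nm_eq_zero.1 h)
          have h3 : Nm (gen v) ≠ 1 := fun h => hgp.not_isUnit (Nm_eq_one.1 h)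
          have h4 : Nm β ≠ 0 := fun h => hβP.ne_zero (Nm_eq_zero.1 h)
          have h5 : 2 ≤ Nm (gen v) := by omega
          have h6 : 0 < Nm β := Nat.pos_of_ne_zero h4
          nlinarith
        have h7 := hstep β v hv3 hβP hβsq hβv (ih (Nm β) hlt β rfl hβsq hβP)
        rwa [mul_comm, ← hβ] at h7
  exact fun α hsq hp => key (Nm α) α rfl hsq hp

theorem C3_finite {α : O} (hα : α ≠ 0) :
    {v : HeightOneSpectrum O | α ∈ v.asIdeal}.Finite := by
  have h1 : Ideal.span {α} ≠ 0 := by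
    rw [Ne, Ideal.zero_eq_bot, Ideal.span_singleton_eq_bot]
    exact hα
  refine (Ideal.finite_factors h1).subset fun v hv => ?_
  exact Ideal.dvd_span_singleton.2 hv

theorem C3_set (α : O) (w : HeightOneSpectrum O) (h3 : (3 : O) ∉ w.asIdeal) :
    {v : HeightOneSpectrum O | α * gen w ∈ v.asIdeal} =
      insert w {v : HeightOneSpectrum O | α ∈ v.asIdeal} := by
  ext v
  simp only [Set.mem_ofPred_eq, Set.mem_insert_iff]
  constructor
  · intro h
    rcases v.isPrime.mem_or_mem h with h | h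
    · exact Or.inr h
    · left
      have h1 : w.asIdeal ≤ v.asIdeal := by
        rw [(gen_spec w h3).1, Ideal.span_singleton_le_iff_mem]
        exact h
      have h2 := w.isMaximal.eq_of_le v.isPrime.ne_top h1
      exact HeightOneSpectrum.ext h2.symm
  · rintro (h | h)
    · rw [h]
      exact Ideal.mul_mem_left _ _ ((gen_dvd_iff w h3 _).1 dvd_rfl)
    · exact Ideal.mul_mem_right _ _ h

theorem C3_prod {M : Type*} [CommMonoid M] (F : HeightOneSpectrum O → M) {α : O} (hα : α ≠ 0)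
    (w : HeightOneSpectrum O) (h3 : (3 : O) ∉ w.asIdeal) (hw : α ∉ w.asIdeal) :
    ∏ᶠ (v : HeightOneSpectrum O) (_ : α * gen w ∈ v.asIdeal), F v =
      F w * ∏ᶠ (v : HeightOneSpectrum O) (_ : α ∈ v.asIdeal), F v := by
  have h1 : (∏ᶠ (v : HeightOneSpectrum O) (_ : α * gen w ∈ v.asIdeal), F v) =
      ∏ᶠ (v : HeightOneSpectrum O) (_ : v ∈ insert w {v : HeightOneSpectrum O | α ∈ v.asIdeal}),
        F v := by
    rw [← C3_set α w h3]
    rfl
  rw [h1, finprod_mem_insert _ (by exact hw) (C3_finite hα)]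
  rfl

theorem C3_prod_one {M : Type*} [CommMonoid M] (F : HeightOneSpectrum O → M) :
    ∏ᶠ (v : HeightOneSpectrum O) (_ : (1 : O) ∈ v.asIdeal), F v = 1 := by
  have h1 : ∀ v : HeightOneSpectrum O, (∏ᶠ (_ : (1 : O) ∈ v.asIdeal), F v) = 1 := by
    intro v
    have h2 : (1 : O) ∉ v.asIdeal := fun h =>
      v.isPrime.ne_top ((Ideal.eq_top_iff_one _).2 h)
    have : IsEmpty ((1 : O) ∈ v.asIdeal) := ⟨fun h => h2 h⟩
    exact finprod_of_isEmpty _
  rw [finprod_congr h1, finprod_one]

open Classical in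
theorem Lf_coprime (α : O) (hsq : Squarefree α) (hp : Prim α) (s : ℂ) (hs : 3 / 2 < s.re) :
    Lf (fun x => if IsCoprime x α then 1 else 0) s =
      Kf 1 s * ∏ᶠ (v : HeightOneSpectrum O) (_ : α ∈ v.asIdeal), (1 - g s (e (gen v))) := by
  revert hp
  revert hsq
  revert α
  refine C3_ind ?_ ?_
  · rw [C3_prod_one, mul_one]
    unfold Lf Kf
    refine tsum_congr fun x => ?_
    beta_reduce
    rw [if_pos isCoprime_one_right, one_mul]
  · intro α w h3 hP hsq hw ih
    have hqp : Prime (gen w) := gen_prime w h3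
    obtain ⟨b, hb⟩ := (gen_spec w h3).2
    have hb' : gen w = 1 + 3 * b := by rw [← hb]; ring
    have hqα : IsCoprime (gen w) α := by
      refine (Prime.coprime_iff_not_dvd hqp).2 fun h => hw ((gen_dvd_iff w h3 α).1 h)
    set q : O := gen w with hq
    rw [C3_prod _ hP.ne_zero w h3 hw, ← hq]
    -- the three indicator functions
    set f : O → ℂ := fun x => if IsCoprime x α then 1 else 0 with hf
    set f' : O → ℂ := fun x => if IsCoprime x (α * q) then 1 else 0 with hf'
    set h : O → ℂ := fun x => if q ∣ x ∧ IsCoprime x α then 1 else 0 with hh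
    have hdec : ∀ x, f' x = f x - h x := by
      intro x
      simp only [hf, hf', hh]
      by_cases h1 : IsCoprime x α
      · by_cases h2 : q ∣ x
        · rw [if_neg, if_pos h1, if_pos ⟨h2, h1⟩, sub_self]
          intro h4
          exact (Prime.coprime_iff_not_dvd hqp).1 (h4.of_isCoprime_of_dvd_right
            (dvd_mul_left q α)).symm h2
        · rw [if_pos, if_pos h1, if_neg fun h4 => h2 h4.1, sub_zero]
          exact h1.mul_right ((Prime.coprime_iff_not_dvd hqp).2 h2).symm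
      · rw [if_neg, if_neg h1, if_neg fun h4 => h1 h4.2, sub_zero]
        intro h4
        exact h1 (h4.of_isCoprime_of_dvd_right (dvd_mul_right α q))
    have hper : ∀ x y, f (x + α * y) = f x := by
      intro x y
      simp only [hf, IsCoprime.add_mul_left_left_iff]
    have hper' : ∀ x y, f' (x + α * q * y) = f' x := by
      intro x y
      simp only [hf', IsCoprime.add_mul_left_left_iff]
    have hαq0 : α * q ≠ 0 := mul_ne_zero hP.ne_zero hqp.ne_zero
    have hS := Lf_summable α hP.ne_zero f hper s hs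
    have hS' := Lf_summable (α * q) hαq0 f' hper' s hs
    have hsum : Lf f' s = Lf f s - ∑' x : O, h (1 + 3 * x) * g s (1 + 3 * e x) := by
      have hS2 : Summable (fun x : O => h (1 + 3 * x) * g s (1 + 3 * e x)) := by
        refine (hS.sub hS').congr fun x => ?_
        rw [hdec]
        ring
      unfold Lf
      rw [← hS.tsum_sub hS2]
      refine tsum_congr fun x => ?_
      rw [hdec]
      ring
    have hcomp : ∑' x : O, h (1 + 3 * x) * g s (1 + 3 * e x) = g s (e q) * Lf f s := by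
      have hinj : Function.Injective (fun y : O => b + q * y) := by
        intro y z hyz
        have : q * y = q * z := by
          have h4 : b + q * y = b + q * z := hyz
          linear_combination h4
        exact mul_left_cancel₀ hqp.ne_zero this
      have hsupp : Function.support (fun x : O => h (1 + 3 * x) * g s (1 + 3 * e x)) ⊆
          Set.range (fun y : O => b + q * y) := by
        intro x hx
        have h4 : h (1 + 3 * x) ≠ 0 := fun h5 => hx (by
          show h (1 + 3 * x) * g s (1 + 3 * e x) = 0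
          rw [h5, zero_mul])
        have h5 : q ∣ 1 + 3 * x := by
          by_contra h6
          apply h4
          simp only [hh]
          rw [if_neg fun h7 => h6 h7.1]
        have h6 : q ∣ 3 * (x - b) := by
          have h7 : 3 * (x - b) = (1 + 3 * x) - q := by
            rw [hb']
            ring
          rw [h7]
          exact dvd_sub h5 dvd_rfl
        have h7 : IsCoprime q 3 := (gen_spec w h3).2.coprime
        obtain ⟨y, hy⟩ := h7.dvd_of_dvd_mul_left h6
        exact ⟨y, by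
          show b + q * y = x
          rw [← hy]
          ring⟩
      rw [← hinj.tsum_eq hsupp]
      unfold Lf
      rw [← tsum_mul_left]
      refine tsum_congr fun y => ?_
      have h4 : (1 + 3 * (b + q * y) : O) = q * (1 + 3 * y) := by
        linear_combination -hb'
      have h5 : (1 + 3 * e (b + q * y) : ℂ) = e q * (1 + 3 * e y) := by
        have h6 := congrArg e h4
        simpa only [map_add, map_mul, map_one, map_ofNat] using h6
      have h6 : h (q * (1 + 3 * y)) = f (1 + 3 * y) := by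
        simp only [hh, hf]
        by_cases h7 : IsCoprime (1 + 3 * y) α
        · rw [if_pos h7, if_pos ⟨dvd_mul_right _ _, hqα.mul_left h7⟩]
        · rw [if_neg h7, if_neg fun h8 => h7 (h8.2.of_isCoprime_of_dvd_left (dvd_mul_left _ _))]
      show h (1 + 3 * (b + q * y)) * g s (1 + 3 * e (b + q * y)) = _
      rw [h4, h5, h6, g_mul]
      ring
    rw [hsum, hcomp, ih]
    ring

/-- A squarefree primary element is the product of its primary prime factors. -/
theorem prod_gen (α : O) (hsq : Squarefree α) (hp : Prim α) :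
    ∏ᶠ (v : HeightOneSpectrum O) (_ : α ∈ v.asIdeal), gen v = α := by
  revert hp
  revert hsq
  revert α
  refine C3_ind ?_ ?_
  · exact C3_prod_one _
  · intro α w h3 hP hsq hw ih
    rw [C3_prod _ hP.ne_zero w h3 hw, ih, mul_comm]

end H55B
end

-- from Lib.H55B.C4
section

open NumberField IsDedekindDomain

namespace H55B

/-! Chunk C4: the sum of R over the primitive alpha-division points.
Take f = indicator of coprimality to alpha (even, periodic). For Re s > 3/2, Lf_even' and Lf_coprime and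
Kf_one give an identity between analytic functions on Re s > 1/2; by the identity theorem it holds at
s = 1, where g 1 u = 1/u, G w 1 = R w:
  (1/e alpha) ( (1/2) sum_{c} f(3c) R(w_c) + phi(alpha) K ) = K prod (1 - 1/e(gen v)), K = -R(e om - 1)/3.
Multiply by e alpha = prod e (gen v) (prod_gen). sum_c f(c.out) = number of units of O/(alpha). -/

theorem C4_isUnit {α : O} (c : O ⧸ Ideal.span {α}) : IsCoprime c.out α ↔ IsUnit c := by
  constructor
  · rintro ⟨a, b, hab⟩
    have h1 : Ideal.Quotient.mk (Ideal.span {α}) a * c = 1 := by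
      conv_lhs => rw [← Ideal.Quotient.mk_out c]
      rw [← map_mul, ← map_one (Ideal.Quotient.mk (Ideal.span {α})), Ideal.Quotient.eq,
        Ideal.mem_span_singleton]
      exact ⟨-b, by linear_combination hab⟩
    exact IsUnit.of_mul_eq_one _ (by rw [mul_comm]; exact h1)
  · intro h
    obtain ⟨d, hd⟩ := h.exists_right_inv
    rw [← Ideal.Quotient.mk_out c, ← Ideal.Quotient.mk_out d, ← map_mul,
      ← map_one (Ideal.Quotient.mk (Ideal.span {α})), Ideal.Quotient.eq,
      Ideal.mem_span_singleton] at hd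
    obtain ⟨y, hy⟩ := hd
    exact ⟨d.out, -y, by linear_combination hy⟩

open Classical in
theorem C4_card {α : O} (hα : α ≠ 0) :
    ∑ᶠ c : O ⧸ Ideal.span {α}, (if IsCoprime c.out α then (1 : ℂ) else 0) =
      (Nat.card (O ⧸ Ideal.span {α})ˣ : ℂ) := by
  have hfin := C1_finite hα
  have := Fintype.ofFinite (O ⧸ Ideal.span {α})
  rw [finsum_eq_sum_of_fintype]
  have h1 : ∀ c : O ⧸ Ideal.span {α}, (if IsCoprime c.out α then (1 : ℂ) else 0) =
      if IsUnit c then 1 else 0 := fun c => by simp only [C4_isUnit c]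
  rw [Finset.sum_congr rfl fun c _ => h1 c, Finset.sum_boole]
  congr 1
  rw [← Fintype.card_subtype, ← Nat.card_eq_fintype_card]
  refine Nat.card_congr (Equiv.ofBijective (fun u => ⟨(u : O ⧸ Ideal.span {α}), u.isUnit⟩) ?_).symm
  constructor
  · intro u v h
    exact Units.ext (congrArg Subtype.val h)
  · rintro ⟨c, hc⟩
    exact ⟨hc.unit, rfl⟩

theorem C4_diff (u : ℂ) (hu : u ≠ 0) : Differentiable ℂ (fun s => g s u) := by
  unfold g
  intro s
  have h1 : (‖u‖ : ℂ) ≠ 0 := by
    rw [Complex.ofReal_ne_zero]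
    exact norm_ne_zero_iff.2 hu
  refine DifferentiableAt.const_mul ?_ _
  exact ((differentiableAt_id.const_mul (-2 : ℂ))).const_cpow (Or.inl h1)

theorem C4_three {α : O} (hp : Prim α) {v : HeightOneSpectrum O} (hv : α ∈ v.asIdeal) :
    (3 : O) ∉ v.asIdeal := by
  intro h3
  obtain ⟨a, b, hab⟩ := hp.coprime
  refine v.isPrime.ne_top ((Ideal.eq_top_iff_one _).2 ?_)
  rw [← hab]
  exact Ideal.add_mem _ (Ideal.mul_mem_left _ _ hv) (Ideal.mul_mem_left _ _ h3)

open Classical in
theorem sum_units (α : O) (hsq : Squarefree α) (hp : Prim α) :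
    ∑ᶠ c : O ⧸ Ideal.span {α}, (if IsCoprime (3 * c.out) α then (1 : ℂ) else 0) *
        R (3 * e c.out / e α) =
      (2 / 3) * R (e om - 1) * ((Nat.card (O ⧸ Ideal.span {α})ˣ : ℂ) -
        ∏ᶠ (v : HeightOneSpectrum O) (_ : α ∈ v.asIdeal), (e (gen v) - 1)) := by
  have hα : α ≠ 0 := hp.ne_zero
  have he : e α ≠ 0 := fun h => hα (e_injective (by rw [h, map_zero]))
  have hfin := C1_finite hα
  have := Fintype.ofFinite (O ⧸ Ideal.span {α})
  set f : O → ℂ := fun x => if IsCoprime x α then 1 else 0 with hf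
  have hper : ∀ x y, f (x + α * y) = f x := by
    intro x y
    simp only [hf, IsCoprime.add_mul_left_left_iff]
  have heven : ∀ x, f (-x) = f x := by
    intro x
    simp only [hf, IsCoprime.neg_left_iff]
  set N : ℂ := (Nat.card (O ⧸ Ideal.span {α})ˣ : ℂ) with hN
  have hNf : ∑ᶠ c : O ⧸ Ideal.span {α}, f c.out = N := C4_card hα
  set T := (C3_finite hα).toFinset with hT
  have hprod : ∀ F : HeightOneSpectrum O → ℂ,
      ∏ᶠ (v : HeightOneSpectrum O) (_ : α ∈ v.asIdeal), F v = ∏ v ∈ T, F v := by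
    intro F
    exact finprod_mem_eq_finite_toFinset_prod F (C3_finite hα)
  have hTmem : ∀ v ∈ T, α ∈ v.asIdeal := fun v hv => (C3_finite hα).mem_toFinset.1 hv
  have hTne : ∀ v ∈ T, e (gen v) ≠ 0 := by
    intro v hv h
    exact (gen_prime v (C4_three hp (hTmem v hv))).ne_zero
      (e_injective (by rw [h, map_zero]))
  -- the identity for large Re s
  set A : ℂ → ℂ := fun s => -(1 / 3) * G (e om - 1) s * ∏ v ∈ T, (1 - g s (e (gen v))) with hA
  set B : ℂ → ℂ := fun s => g s (e α) * ((1 / 2) *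
      ∑ c : O ⧸ Ideal.span {α}, f (3 * c.out) * G (3 * e c.out / e α) s +
      N * (-(1 / 3) * G (e om - 1) s)) with hB
  have h1 : ∀ s : ℂ, 3 / 2 < s.re → A s = B s := by
    intro s hs
    have h2 := Lf_coprime α hsq hp s hs
    have h3 := Lf_even' α hα hp f hper heven s hs
    rw [hNf, finsum_eq_sum_of_fintype, Kf_one s hs] at h3
    rw [hprod, Kf_one s hs] at h2
    show -(1 / 3) * G (e om - 1) s * ∏ v ∈ T, (1 - g s (e (gen v))) = _
    rw [← h2]
    exact h3
  -- analyticity
  have hU : IsOpen {s : ℂ | 1 / 2 < s.re} := isOpen_lt continuous_const Complex.continuous_re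
  have hG : ∀ w : ℂ, DifferentiableOn ℂ (G w) {s : ℂ | 1 / 2 < s.re} := fun w =>
    (G_analytic w).differentiableOn
  have hAd : DifferentiableOn ℂ A {s : ℂ | 1 / 2 < s.re} := by
    refine DifferentiableOn.mul ((hG _).const_mul _) ?_
    refine DifferentiableOn.fun_finsetProd fun v hv => ?_
    exact (Differentiable.differentiableOn ((differentiable_const 1).sub
      (C4_diff _ (hTne v hv))))
  have hBd : DifferentiableOn ℂ B {s : ℂ | 1 / 2 < s.re} := by
    refine DifferentiableOn.mul (C4_diff _ he).differentiableOn ?_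
    refine DifferentiableOn.add (DifferentiableOn.const_mul ?_ _)
      (((hG _).const_mul _).const_mul _)
    refine DifferentiableOn.fun_sum fun c _ => ?_
    exact (hG _).const_mul _
  have hconn : IsPreconnected {s : ℂ | 1 / 2 < s.re} :=
    (convex_halfSpace_re_gt (1 / 2)).isPreconnected
  have h2 : A 1 = B 1 := by
    have h3 := (hAd.analyticOnNhd hU).eqOn_of_preconnected_of_eventuallyEq
      (hBd.analyticOnNhd hU) hconn (z₀ := 2) (by simp; norm_num) (by
        have h4 : {s : ℂ | 3 / 2 < s.re} ∈ nhds (2 : ℂ) :=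
          (isOpen_lt continuous_const Complex.continuous_re).mem_nhds (by simp; norm_num)
        filter_upwards [h4] with s hs
        exact h1 s hs)
    exact h3 (by simp; norm_num)
  -- evaluate at 1
  rw [hprod, finsum_eq_sum_of_fintype]
  have h3 : A 1 = -(1 / 3) * R (e om - 1) * ∏ v ∈ T, (1 - (e (gen v))⁻¹) := by
    simp only [hA, G_one, g_one]
  have h4 : B 1 = (e α)⁻¹ * ((1 / 2) *
      ∑ c : O ⧸ Ideal.span {α}, f (3 * c.out) * R (3 * e c.out / e α) +
      N * (-(1 / 3) * R (e om - 1))) := by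
    simp only [hB, G_one, g_one]
  have h5 : e α = ∏ v ∈ T, e (gen v) := by
    have h6 := prod_gen α hsq hp
    rw [show (∏ᶠ (v : HeightOneSpectrum O) (_ : α ∈ v.asIdeal), gen v) = ∏ v ∈ T, gen v from
      finprod_mem_eq_finite_toFinset_prod gen (C3_finite hα)] at h6
    conv_lhs => rw [← h6]
    rw [map_prod]
  have h6 : e α * ∏ v ∈ T, (1 - (e (gen v))⁻¹) = ∏ v ∈ T, (e (gen v) - 1) := by
    conv_lhs => rw [h5]
    rw [← Finset.prod_mul_distrib]
    refine Finset.prod_congr rfl fun v hv => ?_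
    have := hTne v hv
    field_simp
  rw [h3, h4] at h2
  have h7 : e α * (-(1 / 3) * R (e om - 1) * ∏ v ∈ T, (1 - (e (gen v))⁻¹)) =
      (1 / 2) * ∑ c : O ⧸ Ideal.span {α}, f (3 * c.out) * R (3 * e c.out / e α) +
      N * (-(1 / 3) * R (e om - 1)) := by
    rw [h2, ← mul_assoc, mul_inv_cancel₀ he, one_mul]
  have h8 : e α * (-(1 / 3) * R (e om - 1) * ∏ v ∈ T, (1 - (e (gen v))⁻¹)) =
      -(1 / 3) * R (e om - 1) * ∏ v ∈ T, (e (gen v) - 1) := by
    rw [← h6]
    ring
  rw [h8] at h7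
  linear_combination -2 * h7

end H55B
end

-- from Lib.H28G.GV9
section

open NumberField IsDedekindDomain WeierstrassCurve

namespace H28G

open H55B

/-! Chunk GV9 (S): the function D = f^2 and multiplication by sqrt(-3). D = (fc P)^2 = 4 (xc P)^3 + 1 (fc_sq), s = 2 om + 1 in O, s^2 = -3. D_rec: P <> 0, xc P <> 0: act s P = omP P - omP (omP P) = omP P + (-(omP (omP P))) (s = om - om^2; act_om, act_mul), coordinates (om x, y) and (om^2 x, -1-y): add_coords gives
the slope fc P/((om - om^2) x), (om - om^2)^2 = -3, xc(act s P) = -(x^3 + 1)/(3 x^2), and 27 (D-1)^2 D' = - D (D-9)^2 with x^3 = (D-1)/4 (field_simp, ring). -/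

variable {k : Type} [Field k] [DecidableEq k] [Algebra F k]

theorem GV9_act (P : P27 k) : act (2 * om + 1) P = omP P + -(omP (omP P)) := by
  have h : (2 * om + 1 : O) = ((1 : ℤ) : O) + ((2 : ℤ) : O) * om := by push_cast; ring
  rw [h, act_apply]
  have h1 := omP_rel P
  have h2 : omP (omP P) = -(omP P + P) := by
    rw [eq_neg_iff_add_eq_zero, ← h1]
    abel
  rw [h2, neg_neg, one_zsmul, two_zsmul]
  abel

theorem D_rec {P : P27 k} (hP : P ≠ 0) (hx : xc P ≠ 0) : act (2 * om + 1) P ≠ 0 ∧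
    27 * (fc P ^ 2 - 1) ^ 2 * fc (act (2 * om + 1) P) ^ 2 = -(fc P ^ 2 * (fc P ^ 2 - 9) ^ 2) := by
  have h0 := char0 (k := k)
  have hk := ok_rel (k := k)
  have hk0 := ok_ne (k := k)
  have hk1 : ok k - ok k ^ 2 ≠ 0 := by
    intro h
    have h1 : (ok k - ok k ^ 2) ^ 2 = -3 := by
      linear_combination (ok k ^ 2 - 3 * ok k + 3) * hk
    rw [h] at h1
    norm_num at h1
  have hsq : (ok k - ok k ^ 2) ^ 2 = -3 := by
    linear_combination (ok k ^ 2 - 3 * ok k + 3) * hk
  have hP1 : omP P ≠ 0 := omF_ne hP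
  have hP2 : omP (omP P) ≠ 0 := omF_ne hP1
  have hne : xc (omP P) ≠ xc (-(omP (omP P))) := by
    rw [xc_neg, xc_omP, xc_omP, xc_omP]
    intro h
    have h2 : (ok k - ok k ^ 2) * xc P = 0 := by linear_combination h
    rcases mul_eq_zero.1 h2 with h3 | h3
    · exact hk1 h3
    · exact hx h3
  obtain ⟨a1, a2, a3⟩ := add_coords hP1 (neg_ne hP2) hne
  rw [GV9_act]
  refine ⟨a1, ?_⟩
  rw [xc_neg, xc_omP, xc_omP, xc_omP, yc_neg hP2, yc_omP, yc_omP, yc_omP] at a2
  have hs : (yc P - (-1 - yc P)) / (ok k * xc P - ok k * (ok k * xc P)) =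
      fc P / ((ok k - ok k ^ 2) * xc P) := by
    unfold fc
    congr 1
    · ring
    · ring
  rw [hs, div_pow, mul_pow, hsq] at a2
  have hX : 3 * xc P ^ 2 * xc (omP P + -(omP (omP P))) = -(xc P ^ 3 + 1) := by
    rw [a2]
    field_simp
    linear_combination -(fc_sq P) - 3 * xc P ^ 3 * hk
  rw [fc_sq (omP P + -(omP (omP P))), fc_sq P]
  have hX3 : 27 * xc P ^ 6 * xc (omP P + -(omP (omP P))) ^ 3 = -(xc P ^ 3 + 1) ^ 3 := by
    have : 27 * xc P ^ 6 * xc (omP P + -(omP (omP P))) ^ 3 =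
        (3 * xc P ^ 2 * xc (omP P + -(omP (omP P)))) ^ 3 := by ring
    rw [this, hX]
    ring
  linear_combination 64 * hX3

end H28G
end

-- from Lib.H55C.W5
section

open NumberField IsDedekindDomain

namespace H55C

/-! Chunk W5: the area depends only on the lattice.
If the lattices are equal then ω₁', ω₂' are integral combinations of ω₁, ω₂ (mem_lattice) and conversely, so
det' = k det, det = k' det' with integers k, k' (det = ω₁.re ω₂.im - ω₁.im ω₂.re, bilinear and alternating), det nonzero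
(indep), so k k' = 1 and |det| = |det'|. -/
theorem W5_det (L L' : PeriodPair) (h : L.lattice = L'.lattice) : ∃ k : ℤ,
    L.ω₁.re * L.ω₂.im - L.ω₁.im * L.ω₂.re =
      k * (L'.ω₁.re * L'.ω₂.im - L'.ω₁.im * L'.ω₂.re) := by
  have h1 : L.ω₁ ∈ L'.lattice := h ▸ L.ω₁_mem_lattice
  have h2 : L.ω₂ ∈ L'.lattice := h ▸ L.ω₂_mem_lattice
  obtain ⟨a, b, hab⟩ := PeriodPair.mem_lattice.1 h1
  obtain ⟨c, d, hcd⟩ := PeriodPair.mem_lattice.1 h2
  refine ⟨a * d - b * c, ?_⟩
  rw [← hab, ← hcd]
  simp only [Complex.add_re, Complex.add_im, Complex.mul_re, Complex.mul_im, Complex.intCast_re,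
    Complex.intCast_im]
  push_cast
  ring

theorem Om_lattice (L L' : PeriodPair) (h : L.lattice = L'.lattice) : Om L = Om L' := by
  obtain ⟨k, hk⟩ := W5_det L L' h
  obtain ⟨k', hk'⟩ := W5_det L' L h.symm
  unfold Om
  generalize L.ω₁.re * L.ω₂.im - L.ω₁.im * L.ω₂.re = d at hk hk' ⊢
  generalize L'.ω₁.re * L'.ω₂.im - L'.ω₁.im * L'.ω₂.re = d' at hk hk' ⊢
  by_cases hd : d = 0
  · rw [hd, mul_zero] at hk'
    rw [hd, hk']
  · have h1 : (k : ℝ) * k' = 1 := by
      have h2 : d * ((k : ℝ) * k' - 1) = 0 := by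
        have h3 : d = k * (k' * d) := by rw [← hk', ← hk]
        linear_combination (-1 : ℝ) * h3
      rcases mul_eq_zero.1 h2 with h3 | h3
      · exact absurd h3 hd
      · linarith
    have h4 : k * k' = 1 := by exact_mod_cast h1
    have h5 : |(k : ℝ)| = 1 := by
      rcases Int.isUnit_iff.1 (IsUnit.of_mul_eq_one _ h4) with h | h <;> rw [h] <;> norm_num
    rw [hk, abs_mul, h5, one_mul]

end H55C
end

-- from Lib.H55C.W1
section

open NumberField IsDedekindDomain

namespace H55C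

open H55B

/-! Chunk W1: scaling a lattice.
L' has periods c ω₁, c ω₂ (linearly independent over the reals: multiplication by c is a real linear
bijection; compare A0.LL_indep, or LinearIndependent.map' with the linear equivalence z -> c z).
L'.lattice = c L.lattice, the map l -> c l is a bijection between the lattices, hence
L'.G n = sum (c l)^(-n) = c^(-n) L.G n. Determinant: Im(conj(c ω₁) c ω₂) = |c|^2 Im(conj(ω₁) ω₂) and
ω₁.re ω₂.im - ω₁.im ω₂.re = Im(conj(ω₁) ω₂). -/
theorem W1_indep (L : PeriodPair) (c : ℂ) (hc : c ≠ 0) :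
    LinearIndependent ℝ ![c * L.ω₁, c * L.ω₂] := by
  have h := L.indep.map' (LinearMap.mulLeft ℝ c) (by
    rw [LinearMap.ker_eq_bot]
    intro x y hxy
    exact mul_left_cancel₀ hc hxy)
  have e : (LinearMap.mulLeft ℝ c : ℂ → ℂ) ∘ ![L.ω₁, L.ω₂] = ![c * L.ω₁, c * L.ω₂] := by
    funext i
    fin_cases i <;> rfl
  rw [e] at h
  exact h

/-- The scaled lattice. -/
noncomputable def W1_L (L : PeriodPair) (c : ℂ) (hc : c ≠ 0) : PeriodPair :=
  ⟨c * L.ω₁, c * L.ω₂, W1_indep L c hc⟩

theorem W1_mem (L : PeriodPair) (c : ℂ) (hc : c ≠ 0) (x : ℂ) (hx : x ∈ L.lattice) :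
    c * x ∈ (W1_L L c hc).lattice := by
  obtain ⟨m, n, h⟩ := PeriodPair.mem_lattice.1 hx
  refine PeriodPair.mem_lattice.2 ⟨m, n, ?_⟩
  show (m : ℂ) * (c * L.ω₁) + n * (c * L.ω₂) = c * x
  rw [← h]
  ring

theorem W1_mem' (L : PeriodPair) (c : ℂ) (hc : c ≠ 0) (x : ℂ) (hx : x ∈ (W1_L L c hc).lattice) :
    c⁻¹ * x ∈ L.lattice := by
  obtain ⟨m, n, h⟩ := PeriodPair.mem_lattice.1 hx
  refine PeriodPair.mem_lattice.2 ⟨m, n, ?_⟩
  have h' : (m : ℂ) * (c * L.ω₁) + n * (c * L.ω₂) = x := h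
  rw [← h']
  field_simp

/-- The bijection between the lattices. -/
noncomputable def W1_equiv (L : PeriodPair) (c : ℂ) (hc : c ≠ 0) :
    L.lattice ≃ (W1_L L c hc).lattice where
  toFun x := ⟨c * x, W1_mem L c hc x x.2⟩
  invFun x := ⟨c⁻¹ * x, W1_mem' L c hc x x.2⟩
  left_inv x := by
    apply Subtype.ext
    show c⁻¹ * (c * (x : ℂ)) = x
    rw [inv_mul_cancel_left₀ hc]
  right_inv x := by
    apply Subtype.ext
    show c * (c⁻¹ * (x : ℂ)) = x
    rw [mul_inv_cancel_left₀ hc]

theorem W1_G (L : PeriodPair) (c : ℂ) (hc : c ≠ 0) (n : ℕ) :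
    (W1_L L c hc).G n = (c ^ n)⁻¹ * L.G n := by
  unfold PeriodPair.G
  rw [← (W1_equiv L c hc).tsum_eq, ← tsum_mul_left]
  refine tsum_congr fun x => ?_
  show ((c * (x : ℂ)) ^ n)⁻¹ = (c ^ n)⁻¹ * ((x : ℂ) ^ n)⁻¹
  rw [mul_pow, mul_inv]

theorem W1_scale (L : PeriodPair) (c : ℂ) (hc : c ≠ 0) : ∃ L' : PeriodPair,
    L'.g₂ = (c ^ 4)⁻¹ * L.g₂ ∧ L'.g₃ = (c ^ 6)⁻¹ * L.g₃ ∧ Om L' = ‖c‖ ^ 2 * Om L := by
  refine ⟨W1_L L c hc, ?_, ?_, ?_⟩
  · unfold PeriodPair.g₂
    rw [W1_G]
    ring
  · unfold PeriodPair.g₃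
    rw [W1_G]
    ring
  · unfold Om
    show 2 * |(c * L.ω₁).re * (c * L.ω₂).im - (c * L.ω₁).im * (c * L.ω₂).re| = _
    have e : (c * L.ω₁).re * (c * L.ω₂).im - (c * L.ω₁).im * (c * L.ω₂).re =
        ‖c‖ ^ 2 * (L.ω₁.re * L.ω₂.im - L.ω₁.im * L.ω₂.re) := by
      rw [← Complex.normSq_eq_norm_sq, Complex.normSq_apply]
      simp only [Complex.mul_re, Complex.mul_im]
      ring
    rw [e, abs_mul, abs_of_nonneg (by positivity : (0 : ℝ) ≤ ‖c‖ ^ 2)]
    ring

end H55C
end

-- from Lib.H55K.W3B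
section

/-! # H55K, part W: every ideal class contains a point -/

open Polynomial

open scoped Polynomial.Bivariate

namespace H55K.WZ

open WeierstrassCurve (Affine)

variable {k : Type} [Field k] (W : Affine k)

/-- Chunk W3B (S/M). exists_L for m = dg I + 1: the k-linear map L → R/I (fin_quot) is not injective because finrank L = dg I + 1 > dg I = finrank (R/I) (LinearMap.finrank_le_finrank_of_injective); a nonzero element of its kernel. -/
theorem exists_small {I : Ideal W.CoordinateRing} (hI : I ≠ ⊥) : ∃ f ∈ I, f ≠ 0 ∧ nd W f ≤ dg W I + 1 := by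
  obtain ⟨L, hL1, hL2, hL3⟩ := exists_L W (dg W I + 1) (by omega)
  have := fin_quot W hI
  set φ : L →ₗ[k] (W.CoordinateRing ⧸ I) := (Ideal.Quotient.mkₐ k I).toLinearMap ∘ₗ L.subtype with hφ
  have hni : ¬ Function.Injective φ := by
    intro h
    have h1 := LinearMap.finrank_le_finrank_of_injective h
    rw [hL2] at h1
    unfold dg at h1
    omega
  rw [← LinearMap.ker_eq_bot, ← Ne, Submodule.ne_bot_iff] at hni
  obtain ⟨f, hf, hf0⟩ := hni
  refine ⟨f.1, ?_, ?_, (hL3 f.1).1 f.2⟩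
  · have h1 : Ideal.Quotient.mk I f.1 = 0 := hf
    exact Ideal.Quotient.eq_zero_iff_mem.1 h1
  · intro h
    exact hf0 (Subtype.ext h)

/-- Chunk W3B. f from exists_small, R Dedekind (dedekind), so I divides span {f} (Ideal.dvd_span_singleton): span {f} = I * J, J ≠ ⊥, dg I + dg J = dg (span {f}) = nd f ≤ dg I + 1 (dg_mul, dg_span), dg J ≤ 1: J = ⊤ (dg_zero) or a point (PI_of_dg). -/
theorem exists_comp (hΔ : W.Δ ≠ 0) {I : Ideal W.CoordinateRing} (hI : I ≠ ⊥) : ∃ f : W.CoordinateRing, f ≠ 0 ∧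
    (I = Ideal.span {f} ∨ ∃ x y : k, W.Equation x y ∧ I * PI W x y = Ideal.span {f}) := by
  have := dedekind W hΔ
  obtain ⟨f, hfI, hf0, hfd⟩ := exists_small W hI
  refine ⟨f, hf0, ?_⟩
  obtain ⟨J, hJ⟩ := Ideal.dvd_span_singleton.2 hfI
  have hs : Ideal.span {f} ≠ ⊥ := by
    rw [Ne, Ideal.span_singleton_eq_bot]
    exact hf0
  have hJ0 : J ≠ ⊥ := by
    rintro rfl
    apply hs
    rw [hJ, Ideal.mul_bot]
  have h1 := dg_mul W hΔ hI hJ0
  rw [← hJ, dg_span W hf0] at h1
  have h2 : dg W J ≤ 1 := by omega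
  rcases Nat.le_one_iff_eq_zero_or_eq_one.1 h2 with h3 | h3
  · left
    rw [dg_zero W hJ0] at h3
    rw [hJ, h3, Ideal.mul_top]
  · right
    obtain ⟨x, y, hxy, rfl⟩ := PI_of_dg W hJ0 h3
    exact ⟨x, y, hxy, hJ.symm⟩

end H55K.WZ
end

-- from Lib.H55K.W4B
section

/-! # H55K, part W: the number of ideals of given degree -/

open Polynomial

open scoped Polynomial.Bivariate

namespace H55K.WZ

open WeierstrassCurve (Affine)

variable {k : Type} [Field k] (W : Affine k)

theorem w4b_cancel (hΔ : W.Δ ≠ 0) {P I J : Ideal W.CoordinateRing} (hP : P ≠ ⊥) (h : I * P = J * P) : I = J := by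
  have hD : IsDedekindDomain W.CoordinateRing := dedekind W hΔ
  have := @Ideal.isCancelMulZero W.CoordinateRing _ hD
  exact mul_right_cancel₀ hP h

theorem w4b_dvd (hΔ : W.Δ ≠ 0) {P J : Ideal W.CoordinateRing} (h : J ≤ P) : ∃ I, J = I * P := by
  have hD : IsDedekindDomain W.CoordinateRing := dedekind W hΔ
  obtain ⟨I, hI⟩ := (@Ideal.dvd_iff_le W.CoordinateRing _ hD P J).2 h
  exact ⟨I, by rw [hI, mul_comm]⟩

/-- Chunk W4B (S/M). Principal ideals of degree n ≥ 2: dg (span {f}) = nd f (dg_span), card_fib for P = ⊤, card_R: q^n - q^(n-1) = q^(n-1) (q - 1); q ≥ 2 (Finite.one_lt_card), cancel q - 1. -/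
theorem card_pr [Finite k] (n : ℕ) (hn : 2 ≤ n) :
    Nat.card {I : Ideal W.CoordinateRing // ∃ f, f ≠ 0 ∧ nd W f = n ∧ I = Ideal.span {f}} = Nat.card k ^ (n - 1) := by
  have hq : 1 < Nat.card k := Finite.one_lt_card
  have h1 := card_fib W ⊤ n
  have h2 := card_R W n hn
  have h3 : Nat.card {I : Ideal W.CoordinateRing // ∃ f, f ≠ 0 ∧ nd W f = n ∧ I = Ideal.span {f}} =
      Nat.card {I : Ideal W.CoordinateRing //
        ∃ f ∈ (⊤ : Ideal W.CoordinateRing), f ≠ 0 ∧ nd W f = n ∧ I = Ideal.span {f}} := by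
    refine Nat.card_congr (Equiv.subtypeEquivRight fun I => ?_)
    exact ⟨fun ⟨f, hf⟩ => ⟨f, Submodule.mem_top, hf⟩, fun ⟨f, _, hf⟩ => ⟨f, hf⟩⟩
  rw [h3]
  rw [← h1] at h2
  obtain ⟨q, hq'⟩ : ∃ q, Nat.card k = q + 2 := ⟨Nat.card k - 2, by omega⟩
  obtain ⟨m, rfl⟩ : ∃ m, n = m + 1 := ⟨n - 1, by omega⟩
  rw [hq'] at h2 ⊢
  rw [Nat.add_sub_cancel] at h2 ⊢
  have h4 : q + 2 - 1 = q + 1 := by omega
  rw [h4] at h2
  have h5 : (q + 2) ^ (m + 1) = (q + 2) ^ m * (q + 1) + (q + 2) ^ m := by ring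
  rw [h5] at h2
  have h6 := Nat.add_right_cancel h2
  exact Nat.eq_of_mul_eq_mul_right (Nat.succ_pos q) h6

/-- Chunk W4B. For n ≥ 1 the ideals I of degree n with I * PI x y = span {f} correspond to the ideals span {f}, f in PI x y, f ≠ 0, nd f = n + 1: I ↦ I * PI x y is injective (Dedekind: cancellation; PI ≠ ⊥), onto: span {f} ≤ PI so span {f} = I * PI (Ideal.dvd_iff_le), dg I = n
(dg_mul, dg_PI, dg_span). card_fib for P = PI x y, m = n + 1, card_P: q^n - q^(n-1). -/
theorem card_prP (hΔ : W.Δ ≠ 0) [Finite k] {x y : k} (h : W.Equation x y) (n : ℕ) (hn : 1 ≤ n) :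
    Nat.card {I : Ideal W.CoordinateRing // I ≠ ⊥ ∧ dg W I = n ∧ ∃ f, f ≠ 0 ∧ I * PI W x y = Ideal.span {f}} =
      Nat.card k ^ (n - 1) := by
  obtain ⟨hP0, hP1⟩ := dg_PI W h
  have hq : 1 < Nat.card k := Finite.one_lt_card
  have h1 := card_fib W (PI W x y) (n + 1)
  have h2 := card_P W h (n + 1) (by omega)
  have hs0 : ∀ f : W.CoordinateRing, f ≠ 0 → Ideal.span {f} ≠ ⊥ := fun f hf h0 =>
    hf (Ideal.span_singleton_eq_bot.1 h0)
  have h3 : Nat.card {I : Ideal W.CoordinateRing // I ≠ ⊥ ∧ dg W I = n ∧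
        ∃ f, f ≠ 0 ∧ I * PI W x y = Ideal.span {f}} =
      Nat.card {I : Ideal W.CoordinateRing //
        ∃ f ∈ PI W x y, f ≠ 0 ∧ nd W f = n + 1 ∧ I = Ideal.span {f}} := by
    refine Nat.card_congr (Equiv.ofBijective (fun I => ⟨I.1 * PI W x y, ?_⟩) ⟨?_, ?_⟩)
    · obtain ⟨hI0, hIn, f, hf, hIf⟩ := I.2
      refine ⟨f, ?_, hf, ?_, hIf⟩
      · have h4 : f ∈ Ideal.span {f} := Ideal.mem_span_singleton_self f
        rw [← hIf] at h4
        exact Ideal.mul_le_right h4
      · rw [← dg_span W hf, ← hIf, dg_mul W hΔ hI0 hP0, hIn, hP1]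
    · intro I J hIJ
      have h4 : I.1 * PI W x y = J.1 * PI W x y := congrArg Subtype.val hIJ
      exact Subtype.ext (w4b_cancel W hΔ hP0 h4)
    · rintro ⟨J, f, hfP, hf, hfn, rfl⟩
      obtain ⟨I, hI⟩ := w4b_dvd W hΔ ((Ideal.span_singleton_le_iff_mem (PI W x y)).2 hfP)
      have hI0 : I ≠ ⊥ := by
        rintro rfl
        apply hs0 f hf
        rw [hI, Ideal.bot_mul]
      refine ⟨⟨I, hI0, ?_, f, hf, hI.symm⟩, Subtype.ext hI.symm⟩
      have h5 := dg_span W hf
      rw [hI, dg_mul W hΔ hI0 hP0, hP1, hfn] at h5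
      exact Nat.add_right_cancel h5
  rw [h3]
  rw [← h1] at h2
  obtain ⟨q, hq'⟩ : ∃ q, Nat.card k = q + 2 := ⟨Nat.card k - 2, by omega⟩
  obtain ⟨m, rfl⟩ : ∃ m, n = m + 1 := ⟨n - 1, by omega⟩
  rw [hq'] at h2 ⊢
  have h4 : q + 2 - 1 = q + 1 := by omega
  have h7 : m + 1 + 1 - 2 = m := by omega
  have h8 : m + 1 + 1 - 1 = m + 1 := by omega
  rw [h4, h7, h8] at h2
  rw [Nat.add_sub_cancel]
  have h5 : (q + 2) ^ (m + 1) = (q + 2) ^ m * (q + 1) + (q + 2) ^ m := by ring
  rw [h5] at h2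
  have h6 := Nat.add_right_cancel h2
  exact Nat.eq_of_mul_eq_mul_right (Nat.succ_pos q) h6

end H55K.WZ
end

-- from Lib.H35T.L3
section

open NumberField IsDedekindDomain

namespace H35T

open H55B

/-! Chunk L3 (M): dynamics of multiplication by the square root of -3, and its 3-adic consequences. Compare H55B.D1.
dyn3: x = x i, x' = x (f i), t = 4 x^3 - 1, t' = 4 x'^3 - 1. x is nonzero (else 0 = 1). From 3 x^2 x' = 1 - x^3:
27 (t + 1)^2 t' = -t (t + 9)^2 (check: 27 (4x^3)^2 (4x'^3 - 1) = 64 (1 - x^3)^3 - 432 x^6 = -16 (4x^3 - 1)(x^3 + 2)^2).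
Choose i with v(t i) maximal (finite) and suppose v(t)^2 > v(27). Put e = v(27) < 1, v(9) < 1. Claim v(t') > v(t), a contradiction.
v(t) > 1: v(t + 1) = v(t + 9) = v(t), v(t') = v(t)/e > v(t). v(t) = 1 and v(t + 1) < 1: v(t + 9) = 1, v(t') = 1/(e v(t+1)^2) > 1 (t + 1 is
nonzero). v(t) = 1, v(t + 1) = 1: v(t + 9) = 1: v(t') = 1/e > 1. v(t) < 1: v(t + 1) = 1; v(t) > v(9) because v(9)^2 = v(81) < v(27) < v(t)^2
(v(81) <= v(27)), so v(t + 9) = v(t), v(t') = v(t)^3/e > v(t).
near: v(27) < 1 so v(4x^3 - 1) < 1, v(4) = v(3 + 1) = 1, v(x)^3 = 1, v(x) = 1; the same for r (4 r^3 = 1). s^2 = -3: v(27) = v(s)^6, so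
v(4x^3 - 1) <= v(s)^3. 4x^3 - 1 = 4 (x - r)(x - w r)(x - w^2 r) with w = e om, 1 - w and 1 - w^2 of value v(s) (s = 2w + 1 = -w^2 (1 - w)...: s
times a unit). If v(x - r) > v(s) then the three factors have value v(x - r) and the product is > v(s)^3. -/

theorem L3_lt {Γ : Type*} [LinearOrderedCommGroupWithZero Γ] {a b c : Γ} (ha : a < 1) (hb : 0 < b)
    (h : c ≤ b) : a * c < b := by
  calc a * c ≤ a * b := mul_le_mul_right h _
    _ < 1 * b := mul_lt_mul_of_pos_right ha hb
    _ = b := one_mul _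

theorem dyn3 {Γ : Type*} [LinearOrderedCommGroupWithZero Γ] (v : Valuation ℂ Γ) (h3 : v 3 < 1)
    {κ : Type*} [Finite κ] (x : κ → ℂ) (f : κ → κ) (hd : ∀ i, 3 * x i ^ 2 * x (f i) = 1 - x i ^ 3) (i : κ) :
    v (4 * x i ^ 3 - 1) ^ 2 ≤ v 27 := by
  classical
  have : Nonempty κ := ⟨i⟩
  obtain ⟨j, hj⟩ := Finite.exists_max (fun i => v (4 * x i ^ 3 - 1))
  have hmain : v (4 * x j ^ 3 - 1) ^ 2 ≤ v 27 := by
    by_contra hcon
    push Not at hcon
    have hid : 27 * (4 * x j ^ 3 - 1 + 1) ^ 2 * (4 * x (f j) ^ 3 - 1) =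
        -((4 * x j ^ 3 - 1) * (4 * x j ^ 3 - 1 + 9) ^ 2) := by
      have h1 := hd j
      have h2 : 27 * x j ^ 6 * x (f j) ^ 3 = (1 - x j ^ 3) ^ 3 := by rw [← h1]; ring
      linear_combination 64 * h2
    have hmax := hj (f j)
    set t := 4 * x j ^ 3 - 1 with ht
    set t' := 4 * x (f j) ^ 3 - 1 with ht'
    have h30 : v 3 ≠ 0 := (Valuation.ne_zero_iff v).mpr three_ne_zero
    have h3p : 0 < v 3 := zero_lt_iff.mpr h30
    have h27 : v 27 = v 3 ^ 3 := by
      rw [← map_pow]; norm_num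
    have h9 : v 9 = v 3 ^ 2 := by
      rw [← map_pow]; norm_num
    have h27l : v 27 < 1 := by rw [h27]; exact pow_lt_one' h3 (by norm_num)
    have h9l : v 9 < 1 := by rw [h9]; exact pow_lt_one' h3 (by norm_num)
    have hval := congrArg v hid
    rw [map_mul, map_mul, map_pow, Valuation.map_neg, map_mul, map_pow] at hval
    rcases lt_trichotomy (v t) 1 with hlt | heq | hgt
    · have ha : v (t + 1) = 1 := by
        rw [add_comm]
        exact Valuation.map_one_add_of_lt v hlt
      have hb : v 9 < v t := by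
        by_contra hc
        push Not at hc
        have : v t ^ 2 ≤ v 27 := by
          calc v t ^ 2 ≤ v 9 ^ 2 := pow_le_pow_left' hc 2
            _ = v 27 * v 3 := by rw [h9, h27, ← pow_mul, ← pow_succ]
            _ ≤ v 27 * 1 := mul_le_mul_right h3.le _
            _ = v 27 := mul_one _
        exact absurd hcon (not_lt.mpr this)
      have hc : v (t + 9) = v t := Valuation.map_add_eq_of_lt_left v hb
      rw [ha, hc, one_pow, mul_one] at hval
      have htp : 0 < v t := lt_of_le_of_lt zero_le hb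
      have h5 : v 27 * v t' < v t * v t ^ 2 := by
        calc v 27 * v t' ≤ v 27 * v t := mul_le_mul_right hmax _
          _ < v t ^ 2 * v t := mul_lt_mul_of_pos_right hcon htp
          _ = v t * v t ^ 2 := mul_comm _ _
      rw [hval] at h5
      exact lt_irrefl _ h5
    · have hc : v (t + 9) = v t := Valuation.map_add_eq_of_lt_left v (by rw [heq]; exact h9l)
      have ha : v (t + 1) ≤ 1 := Valuation.map_add_le v heq.le (by rw [map_one])
      rw [hc, heq, one_pow, mul_one] at hval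
      have h5 : v 27 * v (t + 1) ^ 2 * v t' < 1 := by
        rw [mul_assoc]
        refine L3_lt h27l zero_lt_one ?_
        exact mul_le_one' (pow_le_one' ha 2) (by rw [← heq]; exact hmax)
      rw [hval] at h5
      exact lt_irrefl _ h5
    · have hc : v (t + 9) = v t := Valuation.map_add_eq_of_lt_left v (h9l.trans hgt)
      have ha : v (t + 1) = v t := Valuation.map_add_eq_of_lt_left v (by rw [map_one]; exact hgt)
      rw [hc, ha] at hval
      have htp : 0 < v t := zero_lt_one.trans hgt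
      have h5 : v 27 * v t ^ 2 * v t' < v t * v t ^ 2 := by
        rw [mul_assoc]
        refine L3_lt h27l (mul_pos htp (pow_pos htp 2)) ?_
        rw [mul_comm]
        exact mul_le_mul_left hmax _
      rw [hval] at h5
      exact lt_irrefl _ h5
  exact (pow_le_pow_left' (hj i) 2).trans hmain

theorem L3_four {Γ : Type*} [LinearOrderedCommGroupWithZero Γ] (v : Valuation ℂ Γ) (h3 : v 3 < 1) :
    v 4 = 1 := by
  have h := Valuation.map_one_add_of_lt v h3
  have e4 : (1 : ℂ) + 3 = 4 := by norm_num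
  rwa [e4] at h

/-- e sq3 squared is -3. -/
theorem L3_sq3 : e sq3 ^ 2 = -3 := by
  unfold sq3
  rw [map_add, map_mul, map_one, map_ofNat]
  linear_combination 4 * e_om_rel

theorem L3_om {Γ : Type*} [LinearOrderedCommGroupWithZero Γ] (v : Valuation ℂ Γ) : v (e om) = 1 := by
  have h3 : (e om) ^ 3 = 1 := by
    linear_combination (e om - 1) * e_om_rel
  have h4 : v (e om) ^ 3 = 1 := by rw [← map_pow, h3, map_one]
  exact (pow_eq_one_iff.mp h4).resolve_right (by norm_num)

theorem L3_sq_eq {Γ : Type*} [LinearOrderedCommGroupWithZero Γ] {a b : Γ} (h : a ^ 2 = b ^ 2) :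
    a = b := (pow_left_inj₀ zero_le zero_le two_ne_zero).mp h

theorem near {Γ : Type*} [LinearOrderedCommGroupWithZero Γ] (v : Valuation ℂ Γ) (h3 : v 3 < 1)
    (x r : ℂ) (hx : v (4 * x ^ 3 - 1) ^ 2 ≤ v 27) (hr : 4 * r ^ 3 = 1) :
    v x = 1 ∧ v r = 1 ∧ v (x - r) ≤ v (e sq3) := by
  have h4 := L3_four v h3
  have h27 : v 27 = v 3 ^ 3 := by
    rw [← map_pow]; norm_num
  have h27l : v 27 < 1 := by rw [h27]; exact pow_lt_one' h3 (by norm_num)
  have hs2 : v (e sq3) ^ 2 = v 3 := by rw [← map_pow, L3_sq3, Valuation.map_neg]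
  have ht1 : v (4 * x ^ 3 - 1) < 1 := by
    by_contra hc
    push Not at hc
    exact absurd (lt_of_le_of_lt hx h27l) (not_lt.mpr (one_le_pow_of_one_le' hc 2))
  have hx1 : v x = 1 := by
    have h5 := Valuation.map_one_add_of_lt v ht1
    have e5 : (1 : ℂ) + (4 * x ^ 3 - 1) = 4 * x ^ 3 := by ring
    rw [e5, map_mul, h4, one_mul, map_pow] at h5
    exact (pow_eq_one_iff.mp h5).resolve_right (by norm_num)
  have hr1 : v r = 1 := by
    have h5 := congrArg v hr
    rw [map_mul, h4, one_mul, map_pow, map_one] at h5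
    exact (pow_eq_one_iff.mp h5).resolve_right (by norm_num)
  refine ⟨hx1, hr1, ?_⟩
  have hle : v (4 * x ^ 3 - 1) ≤ v (e sq3) ^ 3 := by
    have h6 : v (4 * x ^ 3 - 1) ^ 2 ≤ (v (e sq3) ^ 3) ^ 2 := by
      calc v (4 * x ^ 3 - 1) ^ 2 ≤ v 27 := hx
        _ = (v (e sq3) ^ 2) ^ 3 := by rw [h27, hs2]
        _ = (v (e sq3) ^ 3) ^ 2 := by rw [← pow_mul, ← pow_mul]
    exact (pow_le_pow_iff_left₀ zero_le zero_le two_ne_zero).mp h6
  by_contra hcon
  push Not at hcon
  have hw1 : v (1 - e om) = v (e sq3) := by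
    apply L3_sq_eq
    have e6 : (1 - e om) ^ 2 = -(3 * e om) := by linear_combination e_om_rel
    rw [hs2, ← map_pow, e6, Valuation.map_neg, map_mul, L3_om, mul_one]
  have hw2 : v (1 - e om ^ 2) = v (e sq3) := by
    apply L3_sq_eq
    have e6 : (1 - e om ^ 2) ^ 2 = -(3 * e om ^ 2) := by
      linear_combination (e om ^ 2 - e om + 1) * e_om_rel
    rw [hs2, ← map_pow, e6, Valuation.map_neg, map_mul, map_pow, L3_om, one_pow, mul_one]
  have hf1 : v (x - e om * r) = v (x - r) := by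
    have e7 : x - e om * r = (x - r) + (1 - e om) * r := by ring
    rw [e7]
    apply Valuation.map_add_eq_of_lt_left v
    rw [map_mul, hr1, mul_one, hw1]
    exact hcon
  have hf2 : v (x - e om ^ 2 * r) = v (x - r) := by
    have e7 : x - e om ^ 2 * r = (x - r) + (1 - e om ^ 2) * r := by ring
    rw [e7]
    apply Valuation.map_add_eq_of_lt_left v
    rw [map_mul, hr1, mul_one, hw2]
    exact hcon
  have hfac : 4 * x ^ 3 - 1 = 4 * ((x - r) * (x - e om * r) * (x - e om ^ 2 * r)) := by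
    have e8 : (x - r) * (x - e om * r) * (x - e om ^ 2 * r) = x ^ 3 - r ^ 3 := by
      linear_combination (-(x ^ 2 * r) + x * r ^ 2 * e om - (e om - 1) * r ^ 3) * e_om_rel
    rw [e8]
    linear_combination hr
  rw [hfac, map_mul, h4, one_mul, map_mul, map_mul, hf1, hf2] at hle
  have h9 : v (x - r) * v (x - r) * v (x - r) = v (x - r) ^ 3 := by rw [pow_succ, pow_two]
  rw [h9] at hle
  exact absurd ((pow_le_pow_iff_left₀ zero_le zero_le three_ne_zero).mp hle) (not_le.mpr hcon)

theorem inv_near {Γ : Type*} [LinearOrderedCommGroupWithZero Γ] (v : Valuation ℂ Γ) (h3 : v 3 < 1)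
    (x r : ℂ) (hx : v (4 * x ^ 3 - 1) ^ 2 ≤ v 27) (hr : 4 * r ^ 3 = 1) :
    v (1 / x - 1 / r) ≤ v (e sq3) := by
  obtain ⟨h1, h2, h4⟩ := near v h3 x r hx hr
  have hx0 : x ≠ 0 := by
    intro h
    rw [h, map_zero] at h1
    exact zero_ne_one h1
  have hr0 : r ≠ 0 := by
    intro h
    rw [h, map_zero] at h2
    exact zero_ne_one h2
  have h5 : 1 / x - 1 / r = -(x - r) / (x * r) := by
    field_simp
    ring
  rw [h5, map_div₀, Valuation.map_neg, map_mul, h1, h2, mul_one, div_one]
  exact h4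

/-- Roots of unity of 3-power order are congruent to 1: z^3 - 1 = (z - 1)^3 + 3 z (z - 1), so v(z^3 - 1) < 1 implies v(z - 1) < 1
(if v(z - 1) = 1 the right side has value 1; v(z) = 1). Compare H55C.root_small. -/
theorem root_small (A : ValuationSubring ℂ) (h3 : A.valuation 3 < 1) (z : ℂ) (k : ℕ)
    (hz : z ^ (3 ^ k) = 1) : A.valuation (z - 1) < 1 ∧ A.valuation z = 1 := by
  have hv : A.valuation z = 1 := by
    have h1 : A.valuation z ^ (3 ^ k) = 1 := by rw [← map_pow, hz, map_one]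
    exact (pow_eq_one_iff.mp h1).resolve_right (by positivity)
  refine ⟨?_, hv⟩
  induction k generalizing z with
  | zero =>
    rw [pow_zero, pow_one] at hz
    rw [hz, sub_self, map_zero]
    exact zero_lt_one
  | succ k ih =>
    have h1 : A.valuation (z ^ 3 - 1) < 1 := by
      refine ih (z ^ 3) ?_ (by rw [map_pow, hv, one_pow])
      rw [← pow_mul, ← pow_succ', hz]
    by_contra hcon
    have h2 : A.valuation (z - 1) ≤ 1 := by
      refine (Valuation.map_sub _ _ _).trans (max_le hv.le (by rw [map_one]))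
    have h4 : A.valuation (z - 1) = 1 := le_antisymm h2 (not_lt.mp hcon)
    have h6 : z ^ 3 - 1 = (z - 1) ^ 3 + 3 * z * (z - 1) := by ring
    have h7 : A.valuation (3 * z * (z - 1)) < A.valuation ((z - 1) ^ 3) := by
      rw [map_mul, map_mul, map_pow, h4, hv, mul_one, mul_one, one_pow]
      exact h3
    rw [h6, Valuation.map_add_eq_of_lt_left _ h7, map_pow, h4, one_pow] at h1
    exact lt_irrefl _ h1

/-- v(n) = 1 for natural numbers n prime to 3 (Bezout: a n + b 3 = 1), v(e x) = 1 if Nm x is prime to 3 (e x * e (cj x) = Nm x, val_e_le). -/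
theorem val_nat (A : ValuationSubring ℂ) (h3 : A.valuation 3 < 1) (n : ℕ) (hn : ¬ 3 ∣ n) :
    A.valuation (n : ℂ) = 1 := by
  have hle : ∀ m : ℤ, A.valuation (m : ℂ) ≤ 1 := by
    intro m
    rw [ValuationSubring.valuation_le_one_iff]
    exact intCast_mem A m
  by_contra hcon
  have h1 : A.valuation (n : ℂ) < 1 := lt_of_le_of_ne (by simpa using hle n) hcon
  have hc : IsCoprime (n : ℤ) (3 : ℤ) := by
    have h2 : Nat.Coprime n 3 := ((Nat.Prime.coprime_iff_not_dvd Nat.prime_three).mpr hn).symm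
    exact_mod_cast Nat.isCoprime_iff_coprime.mpr h2
  obtain ⟨a, b, hab⟩ := hc
  have h2 : (a : ℂ) * (n : ℂ) + (b : ℂ) * 3 = 1 := by exact_mod_cast hab
  have h4 : A.valuation ((a : ℂ) * (n : ℂ) + (b : ℂ) * 3) < 1 := by
    apply Valuation.map_add_lt
    · rw [map_mul]
      rw [mul_comm]
      exact L3_lt h1 zero_lt_one (hle a)
    · rw [map_mul]
      rw [mul_comm]
      exact L3_lt h3 zero_lt_one (hle b)
  rw [h2, map_one] at h4
  exact lt_irrefl _ h4

theorem val_e_unit (A : ValuationSubring ℂ) (h3 : A.valuation 3 < 1) (x : O) (hx : ¬ 3 ∣ Nm x) :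
    A.valuation (e x) = 1 := by
  have h := val_nat A h3 _ hx
  have h1 : ((Nm x : ℕ) : ℂ) = e x * e (cj x) := by
    rw [← map_mul, mul_cj, map_natCast]
  rw [h1, map_mul] at h
  refine le_antisymm (val_e_le A x) ?_
  calc (1 : _) = A.valuation (e x) * A.valuation (e (cj x)) := h.symm
    _ ≤ A.valuation (e x) * 1 := by gcongr; exact val_e_le A (cj x)
    _ = A.valuation (e x) := mul_one _

/-- e sq3 squared is -3; its valuation is < 1. -/
theorem e_sq3 : e sq3 ^ 2 = -3 := L3_sq3

end H35T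
end

-- from Lib.H55K.C6
section

namespace H55K.CC

open H28G (Od)

/-! Chunk C6 (S/M): port of dist_gen in Lib/H28G/GB4.lean. D(z) = G z * (H z)^(-1) is periodic and near every z0 (punctured) equal to an analytic h with h z0 <> 0 (Od.mul, Od.inv, zpow 0). H35P.liouville: one
constant C = h z0 for all z0, C <> 0. For z near z0, z <> z0: h is analytic at z too and D = h on a punctured neighbourhood of z, so D z = h z = C; so H z <> 0 (otherwise D z = 0) and G z = C H z. -/

theorem quot_const (L : PeriodPair) (G H : ℂ → ℂ) (hG : ∀ z, ∀ l ∈ L.lattice, G (z + l) = G z)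
    (hH : ∀ z, ∀ l ∈ L.lattice, H (z + l) = H z) (n : ℂ → ℤ) (nG : ∀ z, Od G z (n z)) (nH : ∀ z, Od H z (n z)) :
    ∃ c : ℂ, c ≠ 0 ∧ ∀ z₀, ∀ᶠ z in nhdsWithin z₀ {z₀}ᶜ, G z = c * H z := by
  set D : ℂ → ℂ := fun z => G z * (H z)⁻¹ with hD
  have hDper : ∀ z, ∀ l ∈ L.lattice, D (z + l) = D z := by
    intro z l hl
    simp only [hD]
    rw [hG z l hl, hH z l hl]
  have hOd : ∀ z₀, ∃ h : ℂ → ℂ, AnalyticAt ℂ h z₀ ∧ h z₀ ≠ 0 ∧
      ∀ᶠ z in nhdsWithin z₀ {z₀}ᶜ, D z = h z := by
    intro z₀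
    obtain ⟨h, ha, h0, hh⟩ := Od.mul (nG z₀) (Od.inv (nH z₀))
    refine ⟨h, ha, h0, ?_⟩
    filter_upwards [hh] with z hz
    rw [add_neg_cancel, zpow_zero, one_mul] at hz
    exact hz
  obtain ⟨C, hC⟩ := H35P.liouville L D hDper fun z₀ => by
    obtain ⟨h, ha, _, hh⟩ := hOd z₀
    exact ⟨h, ha, hh⟩
  have hC0 : C ≠ 0 := by
    obtain ⟨h, ha, h0, hh⟩ := hOd 0
    rw [← hC 0 h ha.continuousAt hh]
    exact h0
  refine ⟨C, hC0, ?_⟩
  intro z₀
  obtain ⟨h, ha, h0, hh⟩ := hOd z₀
  have h1 : ∀ᶠ z in nhds z₀, AnalyticAt ℂ h z := ha.eventually_analyticAt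
  have hh' := hh
  rw [eventually_nhdsWithin_iff] at hh'
  have h2 := hh'.eventually_nhds
  rw [eventually_nhdsWithin_iff] at hh ⊢
  filter_upwards [h1, h2, hh] with z hz1 hz2 hz3 hne
  have hDz : D z = C := by
    rw [hz3 hne]
    apply hC z h hz1.continuousAt
    rw [eventually_nhdsWithin_iff]
    filter_upwards [hz2, isOpen_ne.mem_nhds hne] with w hw1 hw2 _
    exact hw1 hw2
  have hg : H z ≠ 0 := by
    intro h3
    apply hC0
    rw [← hDz]
    simp only [hD]
    rw [h3, inv_zero, mul_zero]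
  rw [← hDz]
  simp only [hD]
  rw [inv_mul_cancel_right₀ hg]

end H55K.CC
end

-- from Lib.H55K.W5B
section

/-! # H55K, part W: homomorphisms and prime ideals -/

open Polynomial

open scoped Polynomial.Bivariate

namespace H55K.WZ

open WeierstrassCurve (Affine)

variable {k : Type} [Field k] (W : Affine k)

theorem w5b_inf : Infinite W.CoordinateRing := by
  refine Infinite.of_injective (fun p : k[X] => el W p 0) ?_
  intro p q h
  have h2 : el W (p - q) 0 = 0 := by
    have : el W (p - q) 0 = el W p 0 - el W q 0 := by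
      simp only [el, sub_smul, zero_smul, add_zero]
    rw [this]
    exact sub_eq_zero.2 h
  exact sub_eq_zero.1 (el_eq_zero W h2).1

theorem w5b_bot {K : Type} [Field K] [Finite K] [Algebra k K] (φ : W.CoordinateRing →ₐ[k] K) :
    RingHom.ker φ ≠ ⊥ := by
  intro h
  have h1 : Function.Injective φ := (RingHom.injective_iff_ker_eq_bot φ).2 h
  have := w5b_inf W
  exact not_finite_iff_infinite.2 this (Finite.of_injective _ h1)

theorem w5b_fin [Finite k] {P : Ideal W.CoordinateRing} (hP : P ≠ ⊥) : Finite (W.CoordinateRing ⧸ P) := by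
  have := fin_quot W hP
  exact Module.finite_of_finite k

theorem w5b_max [Finite k] {P : Ideal W.CoordinateRing} (hP : P ≠ ⊥) (h : P.IsPrime) : P.IsMaximal := by
  have := w5b_fin W hP
  have : IsDomain (W.CoordinateRing ⧸ P) := Ideal.Quotient.isDomain P
  exact Ideal.Quotient.maximal_of_isField P (Finite.isField_of_domain _)

theorem w5b_dvd [Finite k] {K : Type} [Field K] [Finite K] [Algebra k K] (φ : W.CoordinateRing →ₐ[k] K) :
    dg W (RingHom.ker φ) ∣ Module.finrank k K := by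
  have hb := w5b_bot W φ
  have hp : (RingHom.ker φ).IsPrime := RingHom.ker_isPrime φ
  have hm := w5b_max W hb hp
  letI := Ideal.Quotient.field (RingHom.ker φ)
  exact FiniteField.nonempty_algHom_iff_finrank_dvd.1 ⟨Ideal.kerLiftAlg φ⟩

/-- The homomorphisms with a given kernel. -/
noncomputable def w5b_eq [Finite k] {K : Type} [Field K] [Finite K] [Algebra k K] (P : Ideal W.CoordinateRing)
    (hP : P ≠ ⊥) (h : P.IsPrime) :
    {φ : W.CoordinateRing →ₐ[k] K // RingHom.ker φ = P} ≃ (W.CoordinateRing ⧸ P →ₐ[k] K) where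
  toFun φ := Ideal.Quotient.liftₐ P φ.1 (fun a ha => by
    have : a ∈ RingHom.ker φ.1 := by rw [φ.2]; exact ha
    exact this)
  invFun ψ := ⟨ψ.comp (Ideal.Quotient.mkₐ k P), by
    have hm := w5b_max W hP h
    letI := Ideal.Quotient.field P
    have hi : Function.Injective ψ := ψ.toRingHom.injective
    ext a
    rw [RingHom.mem_ker, AlgHom.comp_apply]
    constructor
    · intro h1
      exact Ideal.Quotient.eq_zero_iff_mem.1 (hi (h1.trans (map_zero ψ).symm))
    · intro h1
      have h2 : Ideal.Quotient.mkₐ k P a = 0 := Ideal.Quotient.eq_zero_iff_mem.2 h1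
      rw [h2, map_zero]⟩
  left_inv φ := by
    apply Subtype.ext
    exact Ideal.Quotient.liftₐ_comp P φ.1 _
  right_inv ψ := by
    apply Ideal.Quotient.algHom_ext
    exact Ideal.Quotient.liftₐ_comp P _ _

theorem w5b_card [Finite k] {K : Type} [Field K] [Finite K] [Algebra k K] (P : Ideal W.CoordinateRing)
    (hP : P ≠ ⊥) (h : P.IsPrime) (hd : dg W P ∣ Module.finrank k K) :
    Finite {φ : W.CoordinateRing →ₐ[k] K // RingHom.ker φ = P} ∧
    Nat.card {φ : W.CoordinateRing →ₐ[k] K // RingHom.ker φ = P} = dg W P := by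
  have hm := w5b_max W hP h
  have h1 := w5b_fin W hP
  letI := Ideal.Quotient.field P
  have h2 : Nat.card (W.CoordinateRing ⧸ P →ₐ[k] K) = Module.finrank k (W.CoordinateRing ⧸ P) :=
    FiniteField.natCard_algHom_of_finrank_dvd hd
  have h3 : Nat.card {φ : W.CoordinateRing →ₐ[k] K // RingHom.ker φ = P} = dg W P := by
    rw [Nat.card_congr (w5b_eq W P hP h), h2]
    rfl
  refine ⟨?_, h3⟩
  apply Nat.finite_of_card_ne_zero
  rw [h3]
  have := fin_quot W hP
  exact (Module.finrank_pos (R := k) (M := W.CoordinateRing ⧸ P)).ne'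

/-- Chunk W5B (M). A k-algebra homomorphism φ : R → K has a prime kernel P, nonzero (K finite, R infinite: it contains k[X]), R/P is a field (dedekind: maximal) of degree dg P over k embedding into K, so dg P divides finrank k K (Module.finrank_mul_finrank). For a prime P ≠ ⊥ of degree d dividing n = finrank k K the homomorphisms with kernel P
are the k-algebra homomorphisms R/P → K (Ideal.Quotient.liftₐ), and there are d of them: for finite fields L, K over k with [L:k] | [K:k] the number of k-algebra homomorphisms L → K is [L:k] (FiniteField.nonempty_algHom_of_finrank_dvd, and L/k Galois: AlgHom.card / IsGalois: fix one ι, the others are ι ∘ g, g in Gal(L/k),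
because L/k is normal: AlgHom.restrictNormal / AlgEquiv; IsGalois.card_aut_eq_finrank). Sum over the finite set of primes of degree d (fin_id), over the divisors d of n. -/
theorem hom_card (hΔ : W.Δ ≠ 0) [Finite k] (K : Type) [Field K] [Finite K] [Algebra k K] :
    Nat.card (W.CoordinateRing →ₐ[k] K) = ∑ d ∈ (Module.finrank k K).divisors, d * pn W d := by
  classical
  have hfin : ∀ d, (prs W d).Finite := fun d =>
    (fin_id W d).subset (fun P hP => ⟨hP.2.1, hP.2.2⟩)
  set T : Finset (Ideal W.CoordinateRing) :=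
    (Module.finrank k K).divisors.biUnion (fun d => (hfin d).toFinset) with hT
  have hn : Module.finrank k K ≠ 0 := by
    have : Module.Finite k K := Module.Finite.of_finite
    exact Module.finrank_pos.ne'
  have hTm : ∀ P, P ∈ T ↔ P.IsPrime ∧ P ≠ ⊥ ∧ dg W P ∣ Module.finrank k K := by
    intro P
    rw [hT, Finset.mem_biUnion]
    constructor
    · rintro ⟨d, hd, hP⟩
      rw [Set.Finite.mem_toFinset] at hP
      refine ⟨hP.1, hP.2.1, ?_⟩
      rw [hP.2.2]
      exact Nat.dvd_of_mem_divisors hd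
    · rintro ⟨h1, h2, h3⟩
      exact ⟨dg W P, Nat.mem_divisors.2 ⟨h3, hn⟩, (Set.Finite.mem_toFinset _).2 ⟨h1, h2, rfl⟩⟩
  let F : (W.CoordinateRing →ₐ[k] K) → T := fun φ =>
    ⟨RingHom.ker φ, (hTm _).2 ⟨RingHom.ker_isPrime φ, w5b_bot W φ, w5b_dvd W φ⟩⟩
  have hF : ∀ P : T, Finite {φ // F φ = P} ∧ Nat.card {φ // F φ = P} = dg W P.1 := by
    intro P
    obtain ⟨h1, h2, h3⟩ := (hTm P.1).1 P.2
    have h4 := w5b_card (K := K) W P.1 h2 h1 h3
    have e : {φ // F φ = P} ≃ {φ : W.CoordinateRing →ₐ[k] K // RingHom.ker φ = P.1} :=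
      Equiv.subtypeEquivRight (fun φ => by
        rw [Subtype.ext_iff])
    refine ⟨?_, ?_⟩
    · have := h4.1
      exact Finite.of_equiv _ e.symm
    · rw [Nat.card_congr e, h4.2]
  have hFf : ∀ P : T, Finite {φ // F φ = P} := fun P => (hF P).1
  rw [← Nat.card_congr (Equiv.sigmaFiberEquiv F), Nat.card_sigma]
  calc ∑ P : T, Nat.card {φ // F φ = P} = ∑ P : T, dg W P.1 :=
        Finset.sum_congr rfl (fun P _ => (hF P).2)
    _ = ∑ P ∈ T, dg W P := Finset.sum_coe_sort T (fun P => dg W P)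
    _ = ∑ d ∈ (Module.finrank k K).divisors, ∑ P ∈ (hfin d).toFinset, dg W P := by
        rw [hT, Finset.sum_biUnion]
        intro d _ e _ hde
        rw [Function.onFun, Finset.disjoint_left]
        intro P hP hP2
        rw [Set.Finite.mem_toFinset] at hP hP2
        exact hde (hP.2.2.symm.trans hP2.2.2)
    _ = ∑ d ∈ (Module.finrank k K).divisors, d * pn W d := by
        refine Finset.sum_congr rfl (fun d _ => ?_)
        rw [Finset.sum_congr rfl (g := fun _ => d) (fun P hP => ?_), Finset.sum_const, smul_eq_mul,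
          mul_comm, pn, Set.ncard_eq_toFinset_card _ (hfin d)]
        rw [Set.Finite.mem_toFinset] at hP
        exact hP.2.2

end H55K.WZ
end

-- from Lib.H35P.SL
section

open WeierstrassCurve

namespace H35P

variable {k : Type} [Field k] [DecidableEq k] {W : WeierstrassCurve k} {V : ValuationSubring k}

/-! Chunk SL (S/M). inj: rd and fg for P - Q. cong_neg: trivial.
slope_int: P = (x₁, y₁), Q = (x₂, y₂) integral (torsion_int). P = Q: slope = (3x^2 + 2 a2 x + a4 - a1 y)/(y - negY x y); if v(y - negY x y) < 1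
then P and -P are congruent, so P = -P, P + Q = 0. P ≠ Q: x₁ ≠ x₂ (Y_eq_of_X_eq). If v(x₁ - x₂) < 1 the identity
(y₁ - y₂)(y₁ - negY x₂ y₂) = (x₁ - x₂)(..) (see RD) gives v(y₁ - y₂) < 1 or v(y₁ - negY x₂ y₂) < 1, so P = Q or P = -Q by inj,
contradiction; so v(x₁ - x₂) = 1. -/

/-- Reduction is injective on torsion prime to the residue characteristic. -/
theorem inj (hG : GoodW W V) (P Q : W.toAffine.Point) (n : ℕ) (hn : V.valuation (n : k) = 1) (hP : n • P = 0)
    (hQ : n • Q = 0) (h : Cong V P Q) : P = Q := by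
  have h1 := rd hG P Q h
  have h2 : n • (P - Q) = 0 := by rw [nsmul_sub, hP, hQ, sub_zero]
  exact sub_eq_zero.mp (fg hG.toIntW (P - Q) n hn h2 h1)

theorem SL_mem {x₁ y₁ : k} (hG : GoodW W V) (h₁ : W.toAffine.Nonsingular x₁ y₁) (n : ℕ)
    (hn : V.valuation (n : k) = 1)
    (hP : n • (Affine.Point.some x₁ y₁ h₁ : W.toAffine.Point) = 0) : x₁ ∈ V ∧ y₁ ∈ V := by
  obtain ⟨x, y, h, h0, hx, hy⟩ := torsion_int hG.toIntW _ n hn hP (Affine.Point.some_ne_zero h₁)
  simp only [Affine.Point.some.injEq] at h0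
  rw [h0.1, h0.2]
  exact ⟨hx, hy⟩

/-- The slope of the line through two torsion points is integral. -/
theorem slope_int (hG : GoodW W V) {x₁ y₁ x₂ y₂ : k} (h₁ : W.toAffine.Nonsingular x₁ y₁)
    (h₂ : W.toAffine.Nonsingular x₂ y₂) (n : ℕ) (hn : V.valuation (n : k) = 1)
    (hP : n • (Affine.Point.some x₁ y₁ h₁ : W.toAffine.Point) = 0)
    (hQ : n • (Affine.Point.some x₂ y₂ h₂ : W.toAffine.Point) = 0)
    (hxy : ¬(x₁ = x₂ ∧ y₁ = W.toAffine.negY x₂ y₂)) :
    V.valuation (W.toAffine.slope x₁ x₂ y₁ y₂) ≤ 1 := by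
  obtain ⟨hx1, hy1⟩ := SL_mem hG h₁ n hn hP
  obtain ⟨hx2, hy2⟩ := SL_mem hG h₂ n hn hQ
  have ha1 := hG.a1
  have ha2 := hG.a2
  have ha3 := hG.a3
  have ha4 := hG.a4
  have hneg : ∀ x y : k, x ∈ V → y ∈ V → W.toAffine.negY x y ∈ V := fun x y hx hy => by
    rw [Affine.negY]
    exact sub_mem (sub_mem (neg_mem hy) (mul_mem ha1 hx)) ha3
  have hQn : n • (-(Affine.Point.some x₂ y₂ h₂) : W.toAffine.Point) = 0 := by
    rw [smul_neg, hQ, neg_zero]
  by_cases hx : x₁ = x₂
  · have hy : y₁ ≠ W.toAffine.negY x₂ y₂ := fun h => hxy ⟨hx, h⟩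
    have hyy : y₁ = y₂ := Affine.Y_eq_of_Y_ne h₁.1 h₂.1 hx hy
    rw [Affine.slope_of_Y_ne hx hy]
    subst hx
    subst hyy
    have hd : V.valuation (y₁ - W.toAffine.negY x₁ y₁) = 1 := by
      refine le_antisymm ((V.valuation_le_one_iff _).mpr (sub_mem hy1 (hneg _ _ hx1 hy1))) ?_
      by_contra hlt
      push Not at hlt
      have hc : Cong V (Affine.Point.some x₁ y₁ h₁ : W.toAffine.Point)
          (-(Affine.Point.some x₁ y₁ h₂)) := by
        refine ⟨x₁, y₁, h₁, x₁, W.toAffine.negY x₁ y₁, (Affine.nonsingular_neg ..).mpr h₂, rfl, ?_,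
          hx1, hy1, hx1, hneg _ _ hx1 hy1, ?_, hlt⟩
        · exact Affine.Point.neg_some h₂
        · rw [sub_self, map_zero]
          exact zero_lt_one
      have he := inj hG _ _ n hn hP hQn hc
      rw [Affine.Point.neg_some] at he
      simp only [Affine.Point.some.injEq] at he
      exact hy he.2
    rw [map_div₀, hd, div_one]
    refine (V.valuation_le_one_iff _).mpr ?_
    have h3 : (3 : k) ∈ V := by exact_mod_cast natCast_mem V 3
    have h2 : (2 : k) ∈ V := by exact_mod_cast natCast_mem V 2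
    exact sub_mem (add_mem (add_mem (mul_mem h3 (pow_mem hx1 2)) (mul_mem (mul_mem h2 ha2) hx1)) ha4)
      (mul_mem ha1 hy1)
  · rw [Affine.slope_of_X_ne hx]
    have hd : V.valuation (x₁ - x₂) = 1 := by
      refine le_antisymm ((V.valuation_le_one_iff _).mpr (sub_mem hx1 hx2)) ?_
      by_contra hlt
      push Not at hlt
      have e1 := (Affine.equation_iff _ _).mp h₁.1
      have e2 := (Affine.equation_iff _ _).mp h₂.1
      have hid : (y₁ - W.toAffine.negY x₂ y₂) * (y₁ - y₂) =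
          (x₁ - x₂) * (x₁ ^ 2 + x₁ * x₂ + x₂ ^ 2 + W.a₂ * (x₁ + x₂) + W.a₄ - W.a₁ * y₁) := by
        rw [Affine.negY]
        linear_combination e1 - e2
      have hmem : x₁ ^ 2 + x₁ * x₂ + x₂ ^ 2 + W.a₂ * (x₁ + x₂) + W.a₄ - W.a₁ * y₁ ∈ V :=
        sub_mem (add_mem (add_mem (add_mem (add_mem (pow_mem hx1 2) (mul_mem hx1 hx2)) (pow_mem hx2 2))
          (mul_mem ha2 (add_mem hx1 hx2))) ha4) (mul_mem ha1 hy1)
      have hv : V.valuation (y₁ - W.toAffine.negY x₂ y₂) * V.valuation (y₁ - y₂) < 1 := by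
        rw [← map_mul, hid, map_mul]
        exact mul_lt_one_of_lt_of_le hlt ((V.valuation_le_one_iff _).mpr hmem)
      have hor : V.valuation (y₁ - W.toAffine.negY x₂ y₂) < 1 ∨ V.valuation (y₁ - y₂) < 1 := by
        by_contra hc
        push Not at hc
        exact absurd hv (not_lt.mpr (one_le_mul hc.1 hc.2))
      rcases hor with h | h
      · have hc : Cong V (Affine.Point.some x₁ y₁ h₁ : W.toAffine.Point)
            (-(Affine.Point.some x₂ y₂ h₂)) :=
          ⟨x₁, y₁, h₁, x₂, W.toAffine.negY x₂ y₂, (Affine.nonsingular_neg ..).mpr h₂, rfl,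
            Affine.Point.neg_some h₂, hx1, hy1, hx2, hneg _ _ hx2 hy2, hlt, h⟩
        have he := inj hG _ _ n hn hP hQn hc
        rw [Affine.Point.neg_some] at he
        simp only [Affine.Point.some.injEq] at he
        exact hx he.1
      · have hc : Cong V (Affine.Point.some x₁ y₁ h₁ : W.toAffine.Point)
            (Affine.Point.some x₂ y₂ h₂) :=
          ⟨x₁, y₁, h₁, x₂, y₂, h₂, rfl, rfl, hx1, hy1, hx2, hy2, hlt, h⟩
        have he := inj hG _ _ n hn hP hQ hc
        simp only [Affine.Point.some.injEq] at he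
        exact hx he.1
    rw [map_div₀, hd, div_one]
    exact (V.valuation_le_one_iff _).mpr (sub_mem hy1 hy2)

end H35P
end

-- from Lib.H35T.L5
section

open NumberField IsDedekindDomain

namespace H35T

open H55B

/-! Chunk L5 (M): the character eta. O/2 has four elements 0, 1, om, om^2 (exists_repr, parity of the coefficients), kap is the multiplicative
map O -> {0, 1, om, om^2} with 2 | x - kap x. Nm mod 4: Nm (a + b om) = a^2 - a b + b^2 (Nm_repr) is multiplicative (Nm_mul) and only depends on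
a, b mod 4; it is odd iff a, b are not both even iff x is coprime to 2 (two_prime). chi4 is a multiplicative character (ZMod.χ₄). -/

theorem L5_two_dvd (a b : ℤ) : (2 : O) ∣ (a : O) + b * om ↔ 2 ∣ a ∧ 2 ∣ b := by
  constructor
  · rintro ⟨c, hc⟩
    obtain ⟨u, v, rfl⟩ := exists_repr c
    have h1 : (a : O) + b * om = ((2 * u : ℤ) : O) + ((2 * v : ℤ) : O) * om := by
      rw [hc]; push_cast; ring
    obtain ⟨h2, h3⟩ := repr_unique h1
    exact ⟨⟨u, h2⟩, ⟨v, h3⟩⟩
  · rintro ⟨⟨u, rfl⟩, ⟨v, rfl⟩⟩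
    exact ⟨u + v * om, by push_cast; ring⟩

theorem L5_om_sq : om ^ 2 = -1 - om := by
  linear_combination om_rel

theorem L5_om_cube : om ^ 3 = 1 := by
  linear_combination (om - 1) * om_rel

theorem L5_cls {z : O} (hz : z = 0 ∨ z = 1 ∨ z = om ∨ z = om ^ 2) :
    ∃ a b : ℤ, z = (a : O) + b * om ∧ ((a = 0 ∧ b = 0) ∨ (a = 1 ∧ b = 0) ∨ (a = 0 ∧ b = 1) ∨
      (a = -1 ∧ b = -1)) := by
  rcases hz with rfl | rfl | rfl | rfl
  · exact ⟨0, 0, by push_cast; ring, Or.inl ⟨rfl, rfl⟩⟩
  · exact ⟨1, 0, by push_cast; ring, Or.inr (Or.inl ⟨rfl, rfl⟩)⟩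
  · exact ⟨0, 1, by push_cast; ring, Or.inr (Or.inr (Or.inl ⟨rfl, rfl⟩))⟩
  · exact ⟨-1, -1, by rw [L5_om_sq]; push_cast; ring, Or.inr (Or.inr (Or.inr ⟨rfl, rfl⟩))⟩

theorem L5_uniq {z z' : O} (hz : z = 0 ∨ z = 1 ∨ z = om ∨ z = om ^ 2)
    (hz' : z' = 0 ∨ z' = 1 ∨ z' = om ∨ z' = om ^ 2) (h : (2 : O) ∣ z - z') : z = z' := by
  obtain ⟨a, b, rfl, h1⟩ := L5_cls hz
  obtain ⟨c, d, rfl, h2⟩ := L5_cls hz'
  have h3 : (a : O) + b * om - (c + d * om) = ((a - c : ℤ) : O) + ((b - d : ℤ) : O) * om := by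
    push_cast; ring
  rw [h3, L5_two_dvd] at h
  obtain ⟨⟨u, hu⟩, ⟨v, hv⟩⟩ := h
  have h4 : a = c ∧ b = d := by omega
  rw [h4.1, h4.2]

theorem kap_spec (x : O) : (2 : O) ∣ x - kap x ∧ (kap x = 0 ∨ kap x = 1 ∨ kap x = om ∨ kap x = om ^ 2) := by
  unfold kap
  split_ifs with h1 h2 h3
  · exact ⟨h1, Or.inr (Or.inl rfl)⟩
  · exact ⟨h2, Or.inr (Or.inr (Or.inl rfl))⟩
  · exact ⟨h3, Or.inr (Or.inr (Or.inr rfl))⟩
  · refine ⟨?_, Or.inl rfl⟩
    obtain ⟨a, b, rfl⟩ := exists_repr x
    have e1 : (a : O) + b * om - 1 = ((a - 1 : ℤ) : O) + (b : ℤ) * om := by push_cast; ring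
    have e2 : (a : O) + b * om - om = ((a : ℤ) : O) + ((b - 1 : ℤ) : O) * om := by push_cast; ring
    have e3 : (a : O) + b * om - om ^ 2 = ((a + 1 : ℤ) : O) + ((b + 1 : ℤ) : O) * om := by
      rw [L5_om_sq]; push_cast; ring
    rw [e1, L5_two_dvd] at h1
    rw [e2, L5_two_dvd] at h2
    rw [e3, L5_two_dvd] at h3
    rw [sub_zero, L5_two_dvd]
    omega

theorem kap_uniq (x : O) {z : O} (hz : z = 0 ∨ z = 1 ∨ z = om ∨ z = om ^ 2) (h : (2 : O) ∣ x - z) :
    kap x = z := by
  obtain ⟨h1, h2⟩ := kap_spec x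
  refine L5_uniq h2 hz ?_
  have h3 : kap x - z = (x - z) - (x - kap x) := by ring
  rw [h3]
  exact dvd_sub h h1

theorem kap_mul (x y : O) : kap (x * y) = kap x * kap y := by
  obtain ⟨h1, h2⟩ := kap_spec x
  obtain ⟨h3, h4⟩ := kap_spec y
  refine kap_uniq _ ?_ ?_
  · have h5 := L5_om_cube
    have e1 : om * om = om ^ 2 := by ring
    have e2 : om * om ^ 2 = 1 := by linear_combination h5
    have e3 : om ^ 2 * om = 1 := by linear_combination h5
    have e4 : om ^ 2 * om ^ 2 = om := by linear_combination om * h5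
    rcases h2 with h2 | h2 | h2 | h2 <;> rcases h4 with h4 | h4 | h4 | h4 <;> rw [h2, h4] <;>
      simp only [zero_mul, mul_zero, one_mul, mul_one, e1, e2, e3, e4, true_or, or_true]
  · have h5 : x * y - kap x * kap y = (x - kap x) * y + kap x * (y - kap y) := by ring
    rw [h5]
    exact dvd_add (Dvd.dvd.mul_right h1 _) (Dvd.dvd.mul_left h3 _)

theorem kap_zero (x : O) : kap x = 0 ↔ (2 : O) ∣ x := by
  constructor
  · intro h
    have h1 := (kap_spec x).1
    rwa [h, sub_zero] at h1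
  · intro h
    exact kap_uniq x (Or.inl rfl) (by rwa [sub_zero])

theorem kap_one (x : O) : kap x = 1 ↔ (2 : O) ∣ x - 1 := by
  constructor
  · intro h
    have h1 := (kap_spec x).1
    rwa [h] at h1
  · intro h
    exact kap_uniq x (Or.inr (Or.inl rfl)) h

theorem kap_cube (x : O) (h : ¬ (2 : O) ∣ x) : kap x ^ 3 = 1 := by
  have h5 := L5_om_cube
  rcases (kap_spec x).2 with h2 | h2 | h2 | h2
  · exact absurd ((kap_zero x).1 h2) h
  · rw [h2, one_pow]
  · rw [h2, h5]
  · rw [h2, ← pow_mul, mul_comm 2 3, pow_mul, h5, one_pow]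

theorem L5_Nm_cast (a b : ℤ) : ((Nm ((a : O) + b * om) : ℕ) : ZMod 4) = (a : ZMod 4) ^ 2 - a * b + b ^ 2 := by
  have h1 := Nm_repr a b
  have h2 := congrArg (fun z : ℤ => (z : ZMod 4)) h1
  simp only [Int.cast_natCast] at h2
  rw [h2]
  push_cast
  ring

theorem L5_Nm_one : Nm (1 : O) = 1 := Nm_eq_one.2 isUnit_one

theorem L5_Nm_om : Nm om = 1 := by
  refine Nm_eq_one.2 (IsUnit.of_mul_eq_one (om ^ 2) ?_)
  linear_combination L5_om_cube

theorem L5_kap_om : kap om = om := kap_uniq om (Or.inr (Or.inr (Or.inl rfl))) (by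
  rw [sub_self]; exact dvd_zero _)

theorem eta_mul (x y : O) : eta (x * y) = eta x * eta y := by
  unfold eta
  rw [Nm_mul, kap_mul, Nat.cast_mul, map_mul, Int.cast_mul]
  ring

theorem eta_per (x y : O) : eta (x + 4 * y) = eta x := by
  unfold eta
  have h1 : kap (x + 4 * y) = kap x := by
    refine kap_uniq _ (kap_spec x).2 ?_
    have h2 : x + 4 * y - kap x = (x - kap x) + 2 * (2 * y) := by ring
    rw [h2]
    exact dvd_add (kap_spec x).1 (Dvd.intro _ rfl)
  have h3 : ((Nm (x + 4 * y) : ℕ) : ZMod 4) = ((Nm x : ℕ) : ZMod 4) := by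
    obtain ⟨a, b, rfl⟩ := exists_repr x
    obtain ⟨c, d, rfl⟩ := exists_repr y
    have h4 : (a : O) + b * om + 4 * (c + d * om) =
      ((a + 4 * c : ℤ) : O) + ((b + 4 * d : ℤ) : O) * om := by push_cast; ring
    rw [h4, L5_Nm_cast, L5_Nm_cast]
    have h5 : (4 : ZMod 4) = 0 := by decide
    push_cast
    rw [h5]
    ring
  rw [h1, h3]

theorem eta_neg (x : O) : eta (-x) = eta x := by
  unfold eta
  have h1 : kap (-x) = kap x := by
    refine kap_uniq _ (kap_spec x).2 ?_
    have h2 : -x - kap x = -(x - kap x) + 2 * (-kap x) := by ring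
    rw [h2]
    exact dvd_add (dvd_neg.2 (kap_spec x).1) (Dvd.intro _ rfl)
  have h3 : Nm (-x) = Nm x := by
    have h4 : -x = (-1) * x := by ring
    rw [h4, Nm_mul, Nm_eq_one.2 (isUnit_one.neg), one_mul]
  rw [h1, h3]

theorem eta_om (x : O) : eta (om * x) = om * eta x := by
  unfold eta
  rw [Nm_mul, L5_Nm_om, one_mul, kap_mul, L5_kap_om]
  ring

theorem eta_one : eta 1 = 1 := by
  unfold eta
  rw [L5_Nm_one, (kap_one 1).2 (by rw [sub_self]; exact dvd_zero _)]
  simp

theorem eta_three (x : O) : eta (3 * x) = eta x := by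
  rw [eta_mul]
  have h1 : eta 3 = 1 := by
    unfold eta
    have h2 : (3 : O) = ((3 : ℤ) : O) + ((0 : ℤ) : O) * om := by push_cast; ring
    have h3 : ((Nm (3 : O) : ℕ) : ZMod 4) = 1 := by
      rw [h2, L5_Nm_cast]
      decide
    rw [h3, (kap_one 3).2 ⟨1, by ring⟩]
    simp
  rw [h1, one_mul]

theorem L5_coprime {x : O} (h : ¬ (2 : O) ∣ x) : IsCoprime x 2 :=
  ((two_prime.irreducible.coprime_iff_not_dvd).2 h).symm

theorem L5_not_dvd {x : O} (h : IsCoprime x 2) : ¬ (2 : O) ∣ x := fun h1 =>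
  two_prime.irreducible.coprime_iff_not_dvd.1 h.symm h1

theorem eta_zero (x : O) (h : ¬ IsCoprime x 2) : eta x = 0 := by
  have h1 : (2 : O) ∣ x := by
    by_contra h2
    exact h (L5_coprime h2)
  unfold eta
  rw [(kap_zero x).2 h1, mul_zero]

/-- For x = 1 mod 2, eta x = chi4 (Nm x). -/
theorem eta_odd (x : O) (h : (2 : O) ∣ x - 1) : eta x = ((ZMod.χ₄ (Nm x : ZMod 4) : ℤ) : O) := by
  unfold eta
  rw [(kap_one x).2 h, mul_one]

theorem L5_chi_sq {x : O} (h : ¬ (2 : O) ∣ x) : ZMod.χ₄ (Nm x : ZMod 4) ^ 2 = 1 := by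
  obtain ⟨a, b, rfl⟩ := exists_repr x
  rw [L5_two_dvd] at h
  have h1 := Nm_repr a b
  have key : ∀ n : ℕ, n % 2 = 1 → ZMod.χ₄ (n : ZMod 4) ^ 2 = 1 := by
    intro n hn
    have h2 : (n : ZMod 4) = ((n % 4 : ℕ) : ZMod 4) := (ZMod.natCast_mod n 4).symm
    have h3 : n % 4 = 1 ∨ n % 4 = 3 := by omega
    rw [h2]
    rcases h3 with h3 | h3 <;> rw [h3] <;> decide
  apply key
  have h2 : ((Nm ((a : O) + b * om) : ℕ) : ℤ) % 2 = 1 := by
    rw [h1]
    rcases Int.even_or_odd' a with ⟨u, hu | hu⟩ <;> rcases Int.even_or_odd' b with ⟨v, hv | hv⟩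
    · exfalso; apply h; omega
    · rw [hu, hv]; ring_nf; omega
    · rw [hu, hv]; ring_nf; omega
    · rw [hu, hv]; ring_nf; omega
  omega

/-- eta x is a sixth root of unity for x coprime to 2 (plus or minus a power of om). -/
theorem eta_six (x : O) (h : IsCoprime x 2) : eta x ^ 6 = 1 := by
  have h1 := L5_not_dvd h
  have h2 := L5_chi_sq h1
  have h3 := kap_cube x h1
  unfold eta
  have h4 : (((ZMod.χ₄ (Nm x : ZMod 4) : ℤ) : O)) ^ 2 = 1 := by
    rw [← Int.cast_pow, h2, Int.cast_one]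
  calc (((ZMod.χ₄ (Nm x : ZMod 4) : ℤ) : O) * kap x) ^ 6 =
      ((((ZMod.χ₄ (Nm x : ZMod 4) : ℤ) : O)) ^ 2) ^ 3 * (kap x ^ 3) ^ 2 := by ring
    _ = 1 := by rw [h4, h3]; ring

theorem eta_norm (x : O) : ‖e (eta x)‖ ≤ 1 := by
  by_cases h : IsCoprime x 2
  · have h1 : e (eta x) ^ 6 = 1 := by rw [← map_pow, eta_six x h, map_one]
    exact (Complex.norm_eq_one_of_pow_eq_one h1 (by norm_num)).le
  · rw [eta_zero x h, map_zero, norm_zero]
    exact zero_le_one

/-- For x = 1 mod 2 the element sq3 * x is 1 mod 2 and chi4 (Nm (sq3 x)) = -chi4 (Nm x) (Nm sq3 = 3). -/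
theorem chi_sq3 (x : O) (h : (2 : O) ∣ x - 1) :
    (2 : O) ∣ sq3 * x - 1 ∧ ZMod.χ₄ (Nm (sq3 * x) : ZMod 4) = -ZMod.χ₄ (Nm x : ZMod 4) := by
  constructor
  · have h1 : sq3 * x - 1 = (x - 1) + 2 * (om * x) := by unfold sq3; ring
    rw [h1]
    exact dvd_add h (Dvd.intro _ rfl)
  · have h2 : sq3 = ((1 : ℤ) : O) + ((2 : ℤ) : O) * om := by unfold sq3; push_cast; ring
    have h3 : ((Nm sq3 : ℕ) : ZMod 4) = 3 := by
      rw [h2, L5_Nm_cast]
      decide
    rw [Nm_mul, Nat.cast_mul, map_mul, h3]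
    have h4 : ZMod.χ₄ (3 : ZMod 4) = -1 := by decide
    rw [h4]
    ring

end H35T
end
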