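import Mathlib
import Pool.Agent.Lib.H1M.PP.D_H55C_Defs
import Pool.Agent.Lib.H1M.PP.M001
import Pool.Agent.Lib.H1M.PP.M009
import Pool.Agent.Lib.H1M.PP.M010
import Pool.Agent.Lib.H1M.PP.M011
import Pool.Agent.Lib.H1M.PP.M012
import Pool.Agent.Lib.H1M.PP.M013
import Pool.Agent.Lib.H1M.PP.M016
import Pool.Agent.Lib.H1M.PP.M017

/-! Merged copies (to shorten the build) of Lib.H13S.DV, Lib.H55C.W2, Lib.H55C.W6, Lib.H55B.I3, Lib.H55C.B9, Lib.H35P.A9, Lib.H35P.B2, Lib.H35T.E2, Lib.H35T.F4, Lib.H55K.M2A, Lib.H55K.M2B. -/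

-- from Lib.H13S.DV
section

open NumberField IsDedekindDomain

namespace H13S

open H55P

theorem dv_le {F₀ : Type} [Field F₀] {Ω : Type} [Field Ω] [Algebra F₀ Ω] {V : ValuationSubring Ω}
    (s : Ω ≃ₐ[F₀] Ω) (hs : Dec V s) (a b : Ω) :
    V.valuation (s a) ≤ V.valuation (s b) ↔ V.valuation a ≤ V.valuation b := by
  by_cases hb : b = 0
  · subst hb
    simp
  · have hb1 : 0 < V.valuation b := by
      rw [zero_lt_iff, Ne, map_eq_zero]
      exact hb
    have hb2 : 0 < V.valuation (s b) := by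
      rw [zero_lt_iff, Ne, map_eq_zero, map_eq_zero]
      exact hb
    have h3 := hs (a / b)
    rw [← V.valuation_le_one_iff, ← V.valuation_le_one_iff, map_div₀ s, map_div₀ V.valuation,
      map_div₀ V.valuation, div_le_one₀ hb1, div_le_one₀ hb2] at h3
    exact h3

theorem dv_val {L : Type} [Field L] [NumberField L] (w : HeightOneSpectrum (𝓞 L)) (σ : L →+* L)
    (hσ : Function.Surjective σ)
    (h : ∀ a b : L, w.valuation L (σ a) ≤ w.valuation L (σ b) ↔ w.valuation L a ≤ w.valuation L b)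
    (x : L) : w.valuation L (σ x) = w.valuation L x := by
  have heq : ∀ a b : L, w.valuation L a = w.valuation L b →
      w.valuation L (σ a) = w.valuation L (σ b) := fun a b hab =>
    le_antisymm ((h a b).2 hab.le) ((h b a).2 hab.ge)
  have heq' : ∀ a b : L, w.valuation L (σ a) = w.valuation L (σ b) →
      w.valuation L a = w.valuation L b := fun a b hab =>
    le_antisymm ((h a b).1 hab.le) ((h b a).1 hab.ge)
  have hlt : ∀ a : L, w.valuation L (σ a) < 1 ↔ w.valuation L a < 1 := by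
    intro a
    rw [← not_le, ← not_le, not_iff_not]
    have h1 := h 1 a
    rw [map_one, map_one] at h1
    exact h1
  obtain ⟨t, ht⟩ := w.valuation_exists_uniformizer L
  obtain ⟨t', ht'⟩ := hσ t
  have hexp : ∀ y : WithZero (Multiplicative ℤ), y ≠ 0 → ∃ n : ℤ, y = WithZero.exp n := by
    intro y hy
    exact ⟨WithZero.log y, (WithZero.exp_log hy).symm⟩
  have ht0 : t ≠ 0 := by
    rintro rfl
    rw [map_zero] at ht
    exact WithZero.exp_ne_zero ht.symm
  have ht1 : w.valuation L t < 1 := by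
    rw [ht, ← WithZero.exp_zero, WithZero.exp_lt_exp]
    omega
  have hz : ∀ (n : ℤ), w.valuation L (t ^ n) = WithZero.exp (-n) := by
    intro n
    rw [map_zpow₀, ht, ← WithZero.exp_zsmul]
    congr 1
    simp
  obtain ⟨a, ha⟩ := hexp (w.valuation L (σ t)) (by
    rw [Ne, map_eq_zero, map_eq_zero]
    exact ht0)
  have ha1 : a < 0 := by
    have h1 := (hlt t).2 ht1
    rw [ha, ← WithZero.exp_zero, WithZero.exp_lt_exp] at h1
    exact h1
  obtain ⟨b, hb⟩ := hexp (w.valuation L t') (by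
    rw [Ne, map_eq_zero]
    rintro rfl
    rw [map_zero] at ht'
    exact ht0 ht'.symm)
  have hb1 : b < 0 := by
    have h1 := (hlt t').1 (by rw [ht']; exact ht1)
    rw [hb, ← WithZero.exp_zero, WithZero.exp_lt_exp] at h1
    exact h1
  have hzs : ∀ n : ℤ, w.valuation L (σ (t ^ n)) = WithZero.exp (n * a) := by
    intro n
    rw [map_zpow₀, map_zpow₀, ha, ← WithZero.exp_zsmul]
    congr 1
  have h2 : w.valuation L (σ t') = w.valuation L (σ (t ^ (-b))) := by
    apply heq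
    rw [hz, hb, neg_neg]
  rw [ht', ht, hzs, WithZero.exp_inj] at h2
  have ha2 : a = -1 := by
    have h3 : b * a = 1 := by linarith
    rcases Int.mul_eq_one_iff_eq_one_or_neg_one.1 h3 with h4 | h4
    · omega
    · exact h4.2
  by_cases hx : x = 0
  · rw [hx, map_zero]
  · obtain ⟨n, hn⟩ := hexp (w.valuation L x) (by
      rw [Ne, map_eq_zero]
      exact hx)
    have h3 : w.valuation L (σ x) = w.valuation L (σ (t ^ (-n))) := by
      apply heq
      rw [hz, hn, neg_neg]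
    rw [h3, hzs, hn, ha2]
    congr 1
    ring

/-- Chunk DV (S/M). Automorphisms in the decomposition group preserve the valuation. V.valuation (s a) ≤ V.valuation (s b) iff V.valuation a ≤ V.valuation b (b ≠ 0: s (a/b) in V iff a/b in V), so by Abv.le, with σ the restriction of s to L:
w (σ a) ≤ w (σ b) iff w a ≤ w b. Uniformizer t; w (σ t) = exp(-a), t = σ t', w t' = exp(-b), a, b ≥ 1; w t' = w (t^b) gives w t = w (σ t') = w (σ t)^b, exp(-1) = exp(-a b), a = b = 1. Then w x = exp(-n) = w (t^n) (integer n) gives w (σ x) = w (σ t)^n = exp(-n). -/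
theorem dec_val {F₀ : Type} [Field F₀] {Ω : Type} [Field Ω] [Algebra F₀ Ω] {L : IntermediateField F₀ Ω}
    [NumberField L] {V : ValuationSubring Ω} {w : HeightOneSpectrum (𝓞 L)} (hw : Abv L V w)
    (s : Ω ≃ₐ[F₀] Ω) (hs : Dec V s) (h1 : ∀ x : L, s (x : Ω) ∈ L) (h2 : ∀ x : L, s⁻¹ (x : Ω) ∈ L)
    (x x' : L) (hx : (x' : Ω) = s (x : Ω)) : w.valuation L x' = w.valuation L x := by
  let σ : L →+* L :=
    { toFun := fun a => ⟨s (a : Ω), h1 a⟩
      map_one' := Subtype.ext (map_one s)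
      map_mul' := fun a b => Subtype.ext (map_mul s (a : Ω) (b : Ω))
      map_zero' := Subtype.ext (map_zero s)
      map_add' := fun a b => Subtype.ext (map_add s (a : Ω) (b : Ω)) }
  have hσ : Function.Surjective σ := by
    intro a
    refine ⟨⟨s⁻¹ (a : Ω), h2 a⟩, Subtype.ext ?_⟩
    exact AlgEquiv.apply_symm_apply s (a : Ω)
  have hx' : x' = σ x := Subtype.ext hx
  rw [hx']
  refine dv_val w σ hσ ?_ x
  intro a b
  rw [← hw.le, ← hw.le]
  exact dv_le s hs (a : Ω) (b : Ω)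

end H13S
end

-- from Lib.H55C.W2
section

open NumberField IsDedekindDomain

namespace H55C

open H55B

/-! Chunk W2: the period lattice of E27 and the value R0 = R(om - 1).
LL (file H55B/A0) has periods 3, 3 om and g_2 = 0 (g2_zero), g_3 = p^3 with p = wp 1 (A3_g3), p nonzero
(A3_wp_one_ne), wp'(1)^2 = 4 p^3 - g_3 = 3 p^3 (wp_ode with A1_one_notMem), and R0 p = wp'(1) (R_identity at om - 1
with wp (om - 1) = 0, see the proof of A3.exists_X). So R0^2 = 3 p and |R0|^2 = 3 |p|.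
Choose c with c^6 = -g_3 = -p^3 (IsAlgClosed.exists_pow_nat_eq) and apply W1_scale: g_2 = 0, g_3 = -1 and
Om = |c|^2 Om LL, Om LL = 2 * 9 * |Im om| = 9 sqrt 3 (A0_im: (Im om)^2 = 3/4), |c|^6 = |p|^3 so |c|^2 = |p|.
Hence R0 conj(R0) / Om = 3 |p| / (|p| * 18 |Im om|) = 1 / (6 |Im om|), whose square is 1/27.
For a valuation A with v(2) < 1: v(27) = 1 (val_odd in H55B/D0), so v(z)^2 = 1 and v(z) = 1. -/

theorem W2_R0_sq : R (e om - 1) ^ 2 = 3 * wp 1 := by
  have h1 := R_identity (e om - 1) A3_n1 A3_n2 A3_n3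
  rw [wp_zero_at] at h1
  have h2 := wp_ode 1 A1_one_notMem
  rw [A3_g3] at h2
  have h3 := A3_wp_one_ne
  have h4 : (R (e om - 1) * wp 1) ^ 2 = 3 * wp 1 ^ 3 := by
    have h5 : (R (e om - 1) * wp 1) ^ 2 = wpd 1 ^ 2 := by
      rw [← h1, sub_zero]
    rw [h5, h2]
    ring
  have h6 : wp 1 ^ 2 * (R (e om - 1) ^ 2 - 3 * wp 1) = 0 := by linear_combination h4
  rcases mul_eq_zero.1 h6 with h | h
  · exact absurd (pow_eq_zero_iff two_ne_zero |>.1 h) h3
  · linear_combination h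

theorem W2_Om_LL : Om LL = 18 * |(e om).im| := by
  unfold Om
  have h1 : LL.ω₁ = 3 := rfl
  have h2 : LL.ω₂ = 3 * e om := rfl
  rw [h1, h2]
  have h3 : ((3 : ℂ).re * (3 * e om).im - (3 : ℂ).im * (3 * e om).re) = 9 * (e om).im := by
    simp [Complex.mul_im]
    ring
  rw [h3, abs_mul]
  norm_num
  ring

theorem exists_period : ∃ L : PeriodPair, L.g₂ = 0 ∧ L.g₃ = -1 ∧
    Unit2 (R (e om - 1) * (starRingEnd ℂ) (R (e om - 1)) / (Om L : ℂ)) := by
  have hp := A3_wp_one_ne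
  obtain ⟨c, hc⟩ := IsAlgClosed.exists_pow_nat_eq (-(wp 1 ^ 3)) (n := 6) (by norm_num)
  have hc0 : c ≠ 0 := by
    rintro rfl
    rw [zero_pow (by norm_num)] at hc
    exact pow_ne_zero 3 hp (by linear_combination hc)
  obtain ⟨L, h1, h2, h3⟩ := W1_scale LL c hc0
  refine ⟨L, ?_, ?_, ?_⟩
  · rw [h1, g2_zero, mul_zero]
  · rw [h2, A3_g3, hc]
    have := pow_ne_zero 3 hp
    field_simp
  · have hcn : ‖c‖ ^ 2 = ‖wp 1‖ := by
      have h4 := congrArg norm hc
      rw [norm_pow, norm_neg, norm_pow] at h4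
      have h5 : (‖c‖ ^ 2) ^ 3 = ‖wp 1‖ ^ 3 := by rw [← h4]; ring
      exact (pow_left_inj₀ (by positivity) (by positivity) (by norm_num)).1 h5
    have hR : ‖R (e om - 1)‖ ^ 2 = 3 * ‖wp 1‖ := by
      rw [← norm_pow, W2_R0_sq, norm_mul]
      norm_num
    set z : ℂ := R (e om - 1) * (starRingEnd ℂ) (R (e om - 1)) / (Om L : ℂ) with hz
    have him := A0_im
    have himne : |(e om).im| ≠ 0 := abs_ne_zero.2 A0_im_ne
    have hpn : ‖wp 1‖ ≠ 0 := norm_ne_zero_iff.2 hp
    have hz2 : z = ((1 / (6 * |(e om).im|) : ℝ) : ℂ) := by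
      rw [hz, Complex.mul_conj, Complex.normSq_eq_norm_sq, hR, h3, hcn, W2_Om_LL, ← Complex.ofReal_div]
      congr 1
      field_simp
      norm_num
    have hzz : z ^ 2 * 27 = 1 := by
      rw [hz2, ← Complex.ofReal_pow]
      have h4 : (1 / (6 * |(e om).im|)) ^ 2 * 27 = (1 : ℝ) := by
        rw [div_pow, mul_pow, sq_abs, him]
        norm_num
      exact_mod_cast h4
    intro A hA
    have h27 : A.valuation ((27 : ℕ) : ℂ) = 1 := val_odd A hA 27 (by decide)
    have h5 := congrArg A.valuation hzz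
    rw [map_mul, map_pow, map_one] at h5
    have h6 : ((27 : ℕ) : ℂ) = 27 := by norm_num
    rw [h6] at h27
    rw [h27, mul_one] at h5
    exact (pow_eq_one_iff_of_nonneg zero_le two_ne_zero).1 h5

end H55C
end

-- from Lib.H55C.W6
section

open NumberField IsDedekindDomain

namespace H55C

open H55B

/-! W6: the period of E27 (assembly, proved). -/

theorem period_exists : ∃ L : PeriodPair, L.g₂ = 0 ∧ L.g₃ = -1 := by
  obtain ⟨L, h2, h3, -⟩ := exists_period
  exact ⟨L, h2, h3⟩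

theorem period_unit (L : PeriodPair) (h2 : L.g₂ = 0) (h3 : L.g₃ = -1) :
    Unit2 (R (e om - 1) * (starRingEnd ℂ) (R (e om - 1)) / (Om L : ℂ)) := by
  obtain ⟨L', h2', h3', h⟩ := exists_period
  rw [Om_lattice L L' (lattice_unique L L' (h2.trans h2'.symm) (h3.trans h3'.symm))]
  exact h

end H55C
end

-- from Lib.H55B.I3
section

open NumberField IsDedekindDomain

namespace H55B

/-! Chunk I3: Dirichlet series.
|h x| <= |e x| and the sum over x of |x|^(1 - 2 Re s) converges for Re s > 3/2 (S0), group by the norm n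
(N x = |e x|^2, (N x)^(-s) = |e x|^(-2s)), every primary x is 1 + 3y. The second statement is the complex
conjugate of the first at conj s. -/

theorem I3_e (y : O) : e (1 + 3 * y) = 1 + 3 * e y := by
  rw [map_add, map_mul, map_one, map_ofNat]

theorem I3_prim (y : O) : Prim (1 + 3 * y) := ⟨y, by ring⟩

theorem I3_ne (y : O) : 1 + 3 * e y ≠ 0 := by
  rw [← I3_e]
  intro h
  exact (I3_prim y).ne_zero (e_injective (by rw [h, map_zero]))

theorem I3_pow (y : O) (s : ℂ) :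
    (‖1 + 3 * e y‖ : ℂ) ^ (-2 * s) = ((Nm (1 + 3 * y) : ℕ) : ℂ) ^ (-s) := by
  have hpos : 0 < ‖1 + 3 * e y‖ := norm_pos_iff.2 (I3_ne y)
  have h1 : ((Nm (1 + 3 * y) : ℕ) : ℂ) = ((‖1 + 3 * e y‖ ^ 2 : ℝ) : ℂ) := by
    rw [← I3_e, ← Nm_eq]
    simp
  rw [h1, Complex.cpow_def_of_ne_zero (by exact_mod_cast hpos.ne'),
    Complex.cpow_def_of_ne_zero (by exact_mod_cast (pow_pos hpos 2).ne'), ← Complex.ofReal_log
    hpos.le, ← Complex.ofReal_log (pow_pos hpos 2).le, Real.log_pow]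
  congr 1
  push_cast
  ring

theorem I3_image (n : ℕ) : (fun y : O => 1 + 3 * y) '' {y | Nm (1 + 3 * y) = n} =
    {x | Prim x ∧ Nm x = n} := by
  ext x
  constructor
  · rintro ⟨y, hy, rfl⟩
    exact ⟨I3_prim y, hy⟩
  · rintro ⟨⟨y, hy⟩, hx⟩
    have h1 : x = 1 + 3 * y := by rw [← hy]; ring
    exact ⟨y, by change Nm (1 + 3 * y) = n; rw [← h1]; exact hx, h1.symm⟩

theorem I3_inj : Function.Injective (fun y : O => 1 + 3 * y) := by
  intro y z h
  have h1 : (3 : O) * y = 3 * z := add_left_cancel h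
  exact mul_left_cancel₀ (by norm_num) h1

theorem I3_finite (n : ℕ) : {y : O | Nm (1 + 3 * y) = n}.Finite := by
  have h1 : {x : O | Prim x ∧ Nm x = n}.Finite := by
    refine (finite_norm_le n).subset ?_
    rintro x ⟨_, hx⟩
    have h2 := Nm_eq x
    rw [hx] at h2
    have h3 : (n : ℝ) ≤ (n : ℝ) ^ 2 := by
      have : n ≤ n ^ 2 := Nat.le_self_pow (by norm_num) n
      exact_mod_cast this
    have h4 : ‖e x‖ ^ 2 ≤ (n : ℝ) ^ 2 := by linarith
    exact le_of_sq_le_sq h4 (by positivity)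
  rw [← I3_image] at h1
  exact h1.of_finite_image I3_inj.injOn

theorem I3_key (h : O → ℂ) (hh : ∀ x, ‖h x‖ ≤ ‖e x‖) (s : ℂ) (hs : 3 / 2 < s.re) :
    HasSum (LSeries.term (fun n => Ac h n) s)
      (∑' y : O, h (1 + 3 * y) * (‖1 + 3 * e y‖ : ℂ) ^ (-2 * s)) := by
  classical
  have hF : Summable fun y : O => h (1 + 3 * y) * (‖1 + 3 * e y‖ : ℂ) ^ (-2 * s) := by
    refine Summable.of_norm_bounded (Kf_summable 1 s hs).norm fun y => ?_
    unfold g
    rw [norm_mul, norm_mul, RCLike.norm_conj, ← I3_e]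
    exact mul_le_mul_of_nonneg_right (hh _) (norm_nonneg _)
  have h1 := (Equiv.sigmaFiberEquiv fun y : O => Nm (1 + 3 * y)).hasSum_iff.2 hF.hasSum
  refine h1.sigma fun n => ?_
  letI : Fintype {y : O // Nm (1 + 3 * y) = n} := (I3_finite n).fintype
  letI : Fintype ({y : O | Nm (1 + 3 * y) = n} : Set O) := (I3_finite n).fintype
  have h2 := hasSum_fintype fun y : {y : O // Nm (1 + 3 * y) = n} =>
    h (1 + 3 * y.1) * (‖1 + 3 * e y.1‖ : ℂ) ^ (-2 * s)
  have h3 : LSeries.term (fun n => Ac h n) s n = ∑ y : {y : O // Nm (1 + 3 * y) = n},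
      h (1 + 3 * y.1) * (‖1 + 3 * e y.1‖ : ℂ) ^ (-2 * s) := by
    rw [LSeries.term_def]
    have h4 : ∀ y : {y : O // Nm (1 + 3 * y) = n},
        h (1 + 3 * y.1) * (‖1 + 3 * e y.1‖ : ℂ) ^ (-2 * s) = h (1 + 3 * y.1) * (n : ℂ) ^ (-s) := by
      intro y
      rw [I3_pow, y.2]
    rw [Finset.sum_congr rfl fun y _ => h4 y, ← Finset.sum_mul]
    split_ifs with hn
    · subst hn
      rw [Finset.sum_eq_zero, zero_mul]
      rintro ⟨y, hy⟩ _
      exact absurd (Nm_eq_zero.1 hy) (I3_prim y).ne_zero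
    · rw [Complex.cpow_neg, div_eq_mul_inv]
      congr 1
      change (if n = 0 then 0 else ∑ᶠ (x : O) (_ : Prim x ∧ Nm x = n), h x) = _
      rw [if_neg hn]
      have h5 : ∑ᶠ (x : O) (_ : Prim x ∧ Nm x = n), h x =
          ∑ᶠ x ∈ {x : O | Prim x ∧ Nm x = n}, h x := rfl
      rw [h5, ← I3_image, finsum_mem_image I3_inj.injOn, ← finsum_set_coe_eq_finsum_mem,
        finsum_eq_sum_of_fintype]
      rfl
  rw [h3]
  exact h2

theorem LS_conj (f : O → ℤ) (hf : ∀ x, |f x| ≤ 1) (s : ℂ) (hs : 3 / 2 < s.re) :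
    LSeriesSummable (fun n => Ac (fun x => (f x : ℂ) * (starRingEnd ℂ) (e x)) n) s ∧
      LSeries (fun n => Ac (fun x => (f x : ℂ) * (starRingEnd ℂ) (e x)) n) s =
        Lf (fun x => (f x : ℂ)) s := by
  have h1 := I3_key (fun x => (f x : ℂ) * (starRingEnd ℂ) (e x)) (fun x => by
    rw [norm_mul, RCLike.norm_conj, Complex.norm_intCast]
    have h2 : |(f x : ℝ)| ≤ 1 := by exact_mod_cast hf x
    exact mul_le_of_le_one_left (norm_nonneg _) h2) s hs
  refine ⟨h1.summable, ?_⟩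
  rw [LSeries, h1.tsum_eq]
  unfold Lf g
  refine tsum_congr fun y => ?_
  rw [I3_e, mul_assoc]

theorem LS_e (f : O → ℤ) (hf : ∀ x, |f x| ≤ 1) (s : ℂ) (hs : 3 / 2 < s.re) :
    LSeriesSummable (fun n => Ac (fun x => (f x : ℂ) * e x) n) s ∧
      LSeries (fun n => Ac (fun x => (f x : ℂ) * e x) n) s =
        (starRingEnd ℂ) (Lf (fun x => (f x : ℂ)) ((starRingEnd ℂ) s)) := by
  have h1 := I3_key (fun x => (f x : ℂ) * e x) (fun x => by
    rw [norm_mul, Complex.norm_intCast]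
    have h2 : |(f x : ℝ)| ≤ 1 := by exact_mod_cast hf x
    exact mul_le_of_le_one_left (norm_nonneg _) h2) s hs
  refine ⟨h1.summable, ?_⟩
  rw [LSeries, h1.tsum_eq]
  unfold Lf g
  rw [Complex.conj_tsum]
  refine tsum_congr fun y => ?_
  have h2 : (starRingEnd ℂ) ((‖1 + 3 * e y‖ : ℂ) ^ (-2 * (starRingEnd ℂ) s)) =
      (‖1 + 3 * e y‖ : ℂ) ^ (-2 * s) := by
    rw [I3_pow, I3_pow, ← map_neg, Complex.cpow_conj, Complex.conj_conj, Complex.conj_natCast]
    rw [Complex.natCast_arg]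
    exact Real.pi_ne_zero.symm
  rw [map_mul, map_mul, Complex.conj_conj, I3_e, h2, map_intCast, mul_assoc]

end H55B
end

-- from Lib.H55C.B9
section

open NumberField IsDedekindDomain

namespace H55C

open H55B

/-! Chunk B9 (M): 2-adic units. conj: the pull back of a valuation subring by complex conjugation. ne_zero: exists_val.
gen_not_one: H55B.X1.even_norm is the other direction; here: for v good, Odd (Nm (gen v - 1)) (H55B.odd_norm), so 2 does
not divide gen v - 1; gen v is odd, so gen v is congruent to om or om^2 modulo 2, hence so is gen v^(2^j), and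
Nm (gen v^(2^j) - 1) is odd. EF_unit: with a = e(gen v)^f, q = a conj(a): (1 - a/q)(1 - conj(a)/q) =
(conj a - 1)(a - 1)/q, all 2-adic units (val_e_odd; q = Nm odd). inertia_pow: g e f = |G| = 2^k. -/

variable {K : Type} [Field K] [NumberField K] [Algebra F K]

theorem Unit2.mul {x y : ℂ} (hx : Unit2 x) (hy : Unit2 y) : Unit2 (x * y) := by
  intro A hA
  rw [map_mul, hx A hA, hy A hA, one_mul]

theorem Unit2.inv {x : ℂ} (hx : Unit2 x) : Unit2 x⁻¹ := by
  intro A hA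
  rw [map_inv₀, hx A hA, inv_one]

theorem B9_lt (A : ValuationSubring ℂ) {x : ℂ} (hx : x ≠ 0) : A.valuation x < 1 ↔ x⁻¹ ∉ A := by
  rw [← A.valuation_le_one_iff, map_inv₀, not_le]
  exact (one_lt_inv₀ (zero_lt_iff.2 ((Valuation.ne_zero_iff _).2 hx))).symm

theorem B9_eq (A : ValuationSubring ℂ) {x : ℂ} (hx : x ≠ 0) :
    A.valuation x = 1 ↔ x ∈ A ∧ x⁻¹ ∈ A := by
  have h1 := B9_lt A hx
  rw [← A.valuation_le_one_iff x]
  constructor
  · intro h
    refine ⟨h.le, ?_⟩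
    by_contra h2
    exact absurd h (h1.2 h2).ne
  · rintro ⟨h2, h3⟩
    refine le_antisymm h2 ?_
    by_contra h4
    exact h1.1 (not_le.1 h4) h3

theorem Unit2.ne_zero {x : ℂ} (hx : Unit2 x) : x ≠ 0 := by
  obtain ⟨A, hA⟩ := exists_val
  intro h
  have h1 := hx A hA
  rw [h, map_zero] at h1
  exact zero_ne_one h1

theorem Unit2.conj {x : ℂ} (hx : Unit2 x) : Unit2 ((starRingEnd ℂ) x) := by
  intro A hA
  have hx0 := hx.ne_zero
  have h2 : (2 : ℂ) ≠ 0 := two_ne_zero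
  set B : ValuationSubring ℂ := A.comap (starRingEnd ℂ) with hB
  have hmem : ∀ z : ℂ, z ∈ B ↔ (starRingEnd ℂ) z ∈ A := fun z => Iff.rfl
  have hB2 : B.valuation 2 < 1 := by
    rw [B9_lt B h2, hmem, map_inv₀, map_ofNat, ← B9_lt A h2]
    exact hA
  have h3 := (B9_eq B hx0).1 (hx B hB2)
  rw [hmem, hmem, map_inv₀] at h3
  exact (B9_eq A ((map_ne_zero (starRingEnd ℂ)).2 hx0)).2 h3

theorem B9_one : Unit2 1 := fun A _ => map_one A.valuation

theorem Unit2.prod {ι : Type} (s : Finset ι) (x : ι → ℂ) (hx : ∀ i ∈ s, Unit2 (x i)) :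
    Unit2 (∏ i ∈ s, x i) := by
  intro A hA
  rw [map_prod]
  exact Finset.prod_eq_one fun i hi => hx i hi A hA

theorem Unit2.pow {x : ℂ} (hx : Unit2 x) (n : ℕ) : Unit2 (x ^ n) := by
  intro A hA
  rw [map_pow, hx A hA, one_pow]

theorem B9_sq {X : ℂ} (h : Unit2 (X - 1)) (j : ℕ) : Unit2 (X ^ (2 ^ j) - 1) := by
  induction j with
  | zero =>
    rw [pow_zero, pow_one]
    exact h
  | succ j ih =>
    intro A hA
    have h1 := ih A hA
    have h2 : X ^ (2 ^ (j + 1)) - 1 = (X ^ (2 ^ j) - 1) * ((X ^ (2 ^ j) - 1) + 2) := by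
      rw [pow_succ 2 j, pow_mul]
      ring
    have h3 : A.valuation ((X ^ (2 ^ j) - 1) + 2) = 1 := by
      rw [← h1]
      apply Valuation.map_add_eq_of_lt_left
      rw [h1]
      exact hA
    rw [h2, map_mul, h1, h3, one_mul]

theorem B9_odd (v : HeightOneSpectrum O) (h3 : (3 : O) ∉ v.asIdeal) (h2 : (2 : O) ∉ v.asIdeal) :
    Odd (Nm (gen v)) := by
  rw [← Nat.not_even_iff_odd]
  intro he
  have h1 : (2 : O) ∣ gen v * cj (gen v) := by
    rw [mul_cj]
    obtain ⟨k, hk⟩ := he.two_dvd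
    exact ⟨(k : O), by rw [hk]; push_cast; ring⟩
  have h4 : (2 : O) ∣ gen v := by
    rcases two_prime.dvd_or_dvd h1 with h | h
    · exact h
    · obtain ⟨z, hz⟩ := h
      refine ⟨cj z, ?_⟩
      have := congrArg cj hz
      rw [cj_cj, map_mul, map_ofNat] at this
      exact this
  have h5 : Associated (2 : O) (gen v) :=
    two_prime.irreducible.associated_of_dvd (gen_prime v h3).irreducible h4
  exact h2 ((gen_dvd_iff v h3 2).1 h5.symm.dvd)

theorem EF_unit (v : HeightOneSpectrum O) (hv : Good v) (f : ℕ) (hf : ∃ j : ℕ, f = 2 ^ j) (q : ℂ)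
    (hq : q = (e (gen v) * (starRingEnd ℂ) (e (gen v))) ^ f) :
    Unit2 (((1 - e (gen v) ^ f * q⁻¹) * (1 - (starRingEnd ℂ) (e (gen v)) ^ f * q⁻¹))⁻¹) := by
  obtain ⟨h2, h3, hc⟩ := hv
  obtain ⟨j, rfl⟩ := hf
  set x := e (gen v) with hx
  have hx1 : Unit2 x := fun A hA => val_e_odd A hA _ (B9_odd v h3 h2)
  have hx2 : Unit2 (x - 1) := by
    intro A hA
    have h4 := val_e_odd A hA _ (odd_norm v h3 h2 hc)
    rw [map_sub, map_one] at h4
    exact h4
  have ha : Unit2 (x ^ 2 ^ j) := hx1.pow _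
  have ha1 : Unit2 (x ^ 2 ^ j - 1) := B9_sq hx2 j
  have hb : Unit2 ((starRingEnd ℂ) x ^ 2 ^ j) := by
    rw [← map_pow]
    exact ha.conj
  have hb1 : Unit2 ((starRingEnd ℂ) x ^ 2 ^ j - 1) := by
    have h4 := ha1.conj
    rw [map_sub, map_one, map_pow] at h4
    exact h4
  have ha0 := ha.ne_zero
  have hb0 := hb.ne_zero
  have hqe : q = x ^ 2 ^ j * (starRingEnd ℂ) x ^ 2 ^ j := by
    rw [hq, mul_pow]
  have key : (1 - x ^ 2 ^ j * q⁻¹) * (1 - (starRingEnd ℂ) x ^ 2 ^ j * q⁻¹) =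
      (((starRingEnd ℂ) x ^ 2 ^ j - 1) * (x ^ 2 ^ j - 1)) *
        ((starRingEnd ℂ) x ^ 2 ^ j * x ^ 2 ^ j)⁻¹ := by
    rw [hqe]
    field_simp
  rw [key]
  exact ((hb1.mul ha1).mul (hb.mul ha).inv).inv

theorem inertia_pow (hG : IsGalois F K) (k : ℕ) (hk : Module.finrank F K = 2 ^ k)
    (w : HeightOneSpectrum (𝓞 K)) : ∃ j : ℕ, w.asIdeal.inertiaDeg O = 2 ^ j := by
  have hp : (w.asIdeal.under O).IsPrime := inferInstance
  have hl : w.asIdeal.LiesOver (w.asIdeal.under O) := ⟨rfl⟩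
  have hne : w.asIdeal.under O ≠ ⊥ := by
    intro h
    have h1 := Ideal.eq_bot_of_comap_eq_bot (R := O) (I := w.asIdeal) h
    exact w.ne_bot h1
  have hmax : (w.asIdeal.under O).IsMaximal := hp.isMaximal hne
  have h1 := Ideal.ncard_primesOver_mul_ramificationIdxIn_mul_inertiaDegIn (w.asIdeal.under O) (𝓞 K)
    (K ≃ₐ[F] K)
  rw [IsGalois.card_aut_eq_finrank, hk,
    Ideal.inertiaDegIn_eq_inertiaDeg (w.asIdeal.under O) w.asIdeal (K ≃ₐ[F] K)] at h1
  have h2 : w.asIdeal.inertiaDeg O ∣ 2 ^ k := by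
    rw [← h1]
    exact Dvd.intro_left _ (by rw [← mul_assoc])
  obtain ⟨j, _, hj⟩ := (Nat.dvd_prime_pow Nat.prime_two).1 h2
  exact ⟨j, hj⟩

end H55C
end

-- from Lib.H35P.A9
section

namespace H35P

variable (L : PeriodPair)

/-! Chunk A9 (M). sL_add: sL_lim at (a, w) and at (w, a), sL_neg (sL (w - a) = -sL (a - w)): the sum of both is
2 sL(a+w) - 2 sL(a) - 2 sL(w) → T2 L a w + T2 L w a = (℘'a - ℘'w)/(℘a - ℘w) by T_formula and wp_ne.
sL_dbl: for w near 0, w ≠ 0: 2a = (a+w) + (a-w), so by sL_add and sL_lim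
sL(2a) - 2 sL(a) → f(w) = mc L (a+w) (a-w) / 2 + ℘'a/(℘a - ℘w). The limit does not depend on w, so f is constant near 0 (fix w₀, tendsto_nhds_unique).
Now let w → 0: (℘'(a+w) - ℘'(a-w))/(2w) → 6℘a^2 - g₂/2, (℘(a+w) - ℘(a-w))/(2w) → ℘'a ≠ 0 (wpd_ne), and ℘'a/(℘a - ℘w) → 0 (wp_inv_tendsto). -/

theorem sL_add (a w : ℂ) (ha : a ∉ L.lattice) (hw : w ∉ L.lattice) (h1 : a + w ∉ L.lattice)
    (h2 : a - w ∉ L.lattice) :
    Filter.Tendsto (fun R : ℝ => sL L R (a + w) - sL L R a - sL L R w) Filter.atTop (nhds (mc L a w / 2)) := by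
  have h1' : w + a ∉ L.lattice := by rwa [add_comm]
  have h2' : w - a ∉ L.lattice := by
    intro h
    apply h2
    rw [← neg_sub]
    exact neg_mem h
  have hne := wp_ne L a w ha hw h1 h2
  have f1 := T_formula L a w ha hw h1 h2
  have f2 := T_formula L w a hw ha h1' h2'
  have t1 := (sL_lim L a w).add (sL_lim L w a)
  have e : T2 L a w + T2 L w a = mc L a w := by
    have hd : L.weierstrassP a - L.weierstrassP w ≠ 0 := sub_ne_zero.2 hne
    rw [mc, eq_div_iff hd]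
    linear_combination f1 - f2
  rw [e] at t1
  have t2 := t1.div_const 2
  refine t2.congr fun R => ?_
  have hs : sL L R (w - a) = -sL L R (a - w) := by rw [← sL_neg, neg_sub]
  rw [hs, add_comm w a]
  ring

/-- The reciprocal of the difference of the values tends to zero at the origin. -/
theorem a9_inv (c : ℂ) : Filter.Tendsto (fun w => (c - L.weierstrassP w)⁻¹) (nhdsWithin (0 : ℂ) {0}ᶜ)
    (nhds 0) := by
  obtain ⟨u, hu, -, hu2⟩ := wp_zero L
  have hc : ContinuousAt (fun w : ℂ => w ^ 2 / (w ^ 2 * (c - u w) - 1)) 0 := by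
    refine ContinuousAt.div (by fun_prop) ?_ (by simp)
    have := hu.continuousAt
    fun_prop
  have h0 : Filter.Tendsto (fun w : ℂ => w ^ 2 / (w ^ 2 * (c - u w) - 1)) (nhdsWithin (0 : ℂ) {0}ᶜ)
      (nhds 0) := by
    have := hc.tendsto.mono_left (nhdsWithin_le_nhds (s := ({0}ᶜ : Set ℂ)))
    simpa using this
  refine h0.congr' ?_
  filter_upwards [self_mem_nhdsWithin] with w hw
  have hw0 : w ≠ 0 := hw
  rw [hu2 w hw0]
  have e : c - ((w ^ 2)⁻¹ + u w) = (w ^ 2 * (c - u w) - 1) / w ^ 2 := by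
    field_simp
    ring
  rw [e, inv_div]

theorem a9_diff (f : ℂ → ℂ) (a f' : ℂ) (hf : HasDerivAt f f' a) :
    Filter.Tendsto (fun w => (f (a + w) - f (a - w)) / w) (nhdsWithin (0 : ℂ) {0}ᶜ) (nhds (2 * f')) := by
  have h1 : HasDerivAt (fun w : ℂ => f (a + w)) f' 0 :=
    HasDerivAt.comp_const_add a 0 (by rwa [add_zero])
  have h2 : HasDerivAt (fun w : ℂ => f (a - w)) (-f') 0 :=
    HasDerivAt.comp_const_sub a 0 (by rwa [sub_zero])
  have h3 := hasDerivAt_iff_tendsto_slope.1 (h1.fun_sub h2)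
  have e : f' - -f' = 2 * f' := by ring
  rw [e] at h3
  refine h3.congr' ?_
  filter_upwards [self_mem_nhdsWithin] with w hw
  rw [slope_def_field]
  simp

/-- The conditions near the origin. -/
theorem a9_ev (a : ℂ) (ha : a ∉ L.lattice) :
    ∀ᶠ w in nhdsWithin (0 : ℂ) {0}ᶜ, w ∉ L.lattice ∧ a + w ∉ L.lattice ∧ a - w ∉ L.lattice ∧
      2 * w ∉ L.lattice := by
  have h1 : ∀ᶠ w in nhdsWithin (0 : ℂ) {0}ᶜ, w ∉ L.lattice := ev_compl L 0
  have h2 : ∀ᶠ w in nhdsWithin (0 : ℂ) {0}ᶜ, a + w ∉ L.lattice := by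
    have hc : ContinuousAt (fun w : ℂ => a + w) 0 := by fun_prop
    have := hc.eventually_mem ((compl_open L).mem_nhds (show a + 0 ∈ _ by
      change a + 0 ∉ L.lattice
      rwa [add_zero]))
    exact this.filter_mono nhdsWithin_le_nhds
  have h3 : ∀ᶠ w in nhdsWithin (0 : ℂ) {0}ᶜ, a - w ∉ L.lattice := by
    have hc : ContinuousAt (fun w : ℂ => a - w) 0 := by fun_prop
    have := hc.eventually_mem ((compl_open L).mem_nhds (show a - 0 ∈ _ by
      change a - 0 ∉ L.lattice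
      rwa [sub_zero]))
    exact this.filter_mono nhdsWithin_le_nhds
  have h4 : ∀ᶠ w in nhdsWithin (0 : ℂ) {0}ᶜ, 2 * w ∉ L.lattice := by
    have ht := tendsto_punct (fun w : ℂ => 2 * w) 0 (by fun_prop) (fun x y h => by
      simpa using h)
    exact ht.eventually (ev_compl L (2 * 0))
  filter_upwards [h1, h2, h3, h4] with w q1 q2 q3 q4
  exact ⟨q1, q2, q3, q4⟩

theorem sL_dbl (a : ℂ) (ha : a ∉ L.lattice) (h2 : 2 * a ∉ L.lattice) :
    Filter.Tendsto (fun R : ℝ => sL L R (2 * a) - sL L R a - sL L R a) Filter.atTop (nhds (md L a / 2)) := by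
  -- the limit for every small w
  have key : ∀ w : ℂ, w ∉ L.lattice → a + w ∉ L.lattice → a - w ∉ L.lattice → 2 * w ∉ L.lattice →
      Filter.Tendsto (fun R : ℝ => sL L R (2 * a) - sL L R a - sL L R a) Filter.atTop
        (nhds (mc L (a + w) (a - w) / 2 + L.derivWeierstrassP a * (L.weierstrassP a - L.weierstrassP w)⁻¹)) := by
    intro w hw h3 h4 h5
    have e1 : a + w + (a - w) = 2 * a := by ring
    have e2 : a + w - (a - w) = 2 * w := by ring
    have t1 := sL_add L (a + w) (a - w) h3 h4 (by rwa [e1]) (by rwa [e2])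
    rw [e1] at t1
    have hne := wp_ne L a w ha hw h3 h4
    have hd : L.weierstrassP a - L.weierstrassP w ≠ 0 := sub_ne_zero.2 hne
    have t2 := sL_lim L a w
    have e3 : T2 L a w = L.derivWeierstrassP a * (L.weierstrassP a - L.weierstrassP w)⁻¹ := by
      rw [← div_eq_mul_inv, eq_div_iff hd]
      exact T_formula L a w ha hw h3 h4
    rw [e3] at t2
    refine (t1.add t2).congr fun R => ?_
    ring
  obtain ⟨w₀, hw₀⟩ := (a9_ev L a ha).exists
  have k0 := key w₀ hw₀.1 hw₀.2.1 hw₀.2.2.1 hw₀.2.2.2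
  -- the limit of the right side
  have l1 := a9_diff L.derivWeierstrassP a _ (wpd_hasDeriv L a ha)
  have l2 := a9_diff L.weierstrassP a _ (wp_hasDeriv L a ha)
  have hd : (2 : ℂ) * L.derivWeierstrassP a ≠ 0 := mul_ne_zero two_ne_zero (wpd_ne L a ha h2)
  have l3 := ((l1.div l2 hd).div_const 2).add ((a9_inv L (L.weierstrassP a)).const_mul (L.derivWeierstrassP a))
  have e4 : 2 * (6 * L.weierstrassP a ^ 2 - L.g₂ / 2) / (2 * L.derivWeierstrassP a) / 2 +
      L.derivWeierstrassP a * 0 = md L a / 2 := by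
    rw [mul_zero, add_zero, mul_div_mul_left _ _ two_ne_zero, md]
  rw [e4] at l3
  have e5 : md L a / 2 = mc L (a + w₀) (a - w₀) / 2 +
      L.derivWeierstrassP a * (L.weierstrassP a - L.weierstrassP w₀)⁻¹ := by
    refine tendsto_nhds_unique_of_eventuallyEq l3 tendsto_const_nhds ?_
    filter_upwards [a9_ev L a ha, self_mem_nhdsWithin] with w hw hw0
    have hw0' : w ≠ 0 := hw0
    rw [tendsto_nhds_unique k0 (key w hw.1 hw.2.1 hw.2.2.1 hw.2.2.2), mc]
    simp only [Pi.div_apply]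
    rw [div_div_div_cancel_right₀ hw0']
  rw [e5]
  exact k0

end H35P
end

-- from Lib.H35P.B2
section

open WeierstrassCurve

namespace H35P

variable (L : PeriodPair)

/-! Chunk B2 (M). Let r₀ = the least n > 0 with n z in the lattice (Nat.find); r₀ divides r, r₀ ≥ 2, and k z ∈ L iff r₀ ∣ k. r₀ = 2: sL R z = 0 for all R (sL_neg, sL_per), S = 0.
r₀ ≥ 3: for 1 ≤ k ≤ r₀ - 2 put l_k = md z (k = 1), mc (k z) z (k ≥ 2): sL((k+1)z) - sL(kz) - sL(z) → l_k/2 (sL_dbl, sL_add: k z - z, k z + z ∉ L). Summing over k and sL((r₀-1)z) = sL(-z + r₀ z) =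
-sL(z): -r₀ sL(z) → Σ l_k/2, so S = -(Σ l_k/2)/r₀.
Integrality: the discriminant is ≠ 0, pt_exists, n = r: r • pt(k z) = pt(k (r z)) = 0; slope_int for the points pt(k z), pt(z) (V.valuation r = 1) gives
V(l_k/2/Om) ≤ 1 by slope_chord (wp_ne), slope_tangent (wpd_ne); V(r₀) = 1 because V(r) = V(r₀) V(r/r₀) and both are ≤ 1 (naturals lie in V).
GoodW (WAB A B) V: Δ = -16(4A^3+27B^2), V(2) = 1. The condition ¬(x₁ = x₂ ∧ y₁ = negY x₂ y₂): it would give pt(k z) + pt(z) = 0 = pt((k+1)z), but (k+1) z ∉ L and pt is then affine. -/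

theorem B2_good {A B : ℂ} {V : ValuationSubring ℂ} (hA : A ∈ V) (hB : B ∈ V) (h2 : V.valuation 2 = 1)
    (hD : V.valuation (4 * A ^ 3 + 27 * B ^ 2) = 1) : GoodW (WAB A B) V where
  a1 := V.zero_mem
  a2 := V.zero_mem
  a3 := V.zero_mem
  a4 := hA
  a6 := hB
  disc := by
    have e : (WAB A B).Δ = -(2 ^ 4 * (4 * A ^ 3 + 27 * B ^ 2)) := by
      unfold WAB WeierstrassCurve.Δ WeierstrassCurve.b₂ WeierstrassCurve.b₄ WeierstrassCurve.b₆
        WeierstrassCurve.b₈
      ring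
    rw [e, Valuation.map_neg, map_mul, map_pow, h2, hD, one_pow, one_mul]

/-- The condition on the valuation ring. -/
def B2_G (A B : ℂ) (r : ℕ) (V : ValuationSubring ℂ) : Prop :=
  A ∈ V ∧ B ∈ V ∧ V.valuation 2 = 1 ∧ V.valuation (4 * A ^ 3 + 27 * B ^ 2) = 1 ∧ V.valuation (r : ℂ) = 1

variable {L}

theorem B2_tors {A B : ℂ} (pt : ℂ →+ (WAB A B).toAffine.Point) (h0 : ∀ z ∈ L.lattice, pt z = 0)
    (r k : ℕ) (z : ℂ) (hrz : (r : ℂ) * z ∈ L.lattice) : r • pt ((k : ℂ) * z) = 0 := by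
  rw [← map_nsmul]
  apply h0
  have e : r • ((k : ℂ) * z) = k • ((r : ℂ) * z) := by
    rw [nsmul_eq_mul, nsmul_eq_mul]
    ring
  rw [e]
  exact nsmul_mem hrz k

/-- One step. -/
theorem B2_step (A B Om : ℂ) (hO : Om ≠ 0) (g2 : L.g₂ = -4 * A * Om ^ 4) (g3 : L.g₃ = -4 * B * Om ^ 6) (z : ℂ)
    (r : ℕ) (hrz : (r : ℂ) * z ∈ L.lattice) (r₀ : ℕ)
    (hmin : ∀ m : ℕ, 0 < m → m < r₀ → (m : ℂ) * z ∉ L.lattice) (k : ℕ) (hk : 0 < k) (hk1 : k + 1 < r₀) :
    ∃ l : ℂ, Filter.Tendsto (fun R : ℝ => sL L R (((k + 1 : ℕ) : ℂ) * z) - sL L R ((k : ℂ) * z) - sL L R z)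
      Filter.atTop (nhds l) ∧ ∀ V : ValuationSubring ℂ, B2_G A B r V → V.valuation (l / Om) ≤ 1 := by
  have hz : z ∉ L.lattice := by
    have := hmin 1 one_pos (by omega)
    rwa [Nat.cast_one, one_mul] at this
  have hkz := hmin k hk (by omega)
  have hk1z := hmin (k + 1) (by omega) hk1
  rcases Nat.lt_or_ge k 2 with h | h
  · have hk' : k = 1 := by omega
    subst hk'
    have e2 : ((1 + 1 : ℕ) : ℂ) * z = 2 * z := by norm_num
    rw [e2] at hk1z
    refine ⟨md L z / 2, ?_, ?_⟩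
    · have := sL_dbl L z hz hk1z
      rw [e2, Nat.cast_one, one_mul]
      exact this
    · rintro V ⟨hA, hB, hV2, hD, hr⟩
      have hd : 4 * A ^ 3 + 27 * B ^ 2 ≠ 0 := by
        intro h0
        rw [h0, map_zero] at hD
        exact zero_ne_one hD
      obtain ⟨pt, hp0, hp1⟩ := pt_exists L A B Om hO g2 g3 hd
      obtain ⟨hns, hns'⟩ := hp1 z hz
      have hy := wpd_ne L z hz hk1z
      rw [← slope_tangent L A B Om hO g2 z hy]
      have ht : r • pt z = 0 := by
        have := B2_tors (L := L) pt hp0 r 1 z hrz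
        rwa [Nat.cast_one, one_mul] at this
      rw [hns'] at ht
      refine slope_int (B2_good hA hB hV2 hD) hns hns r hr ht ht ?_
      rintro ⟨_, h3⟩
      apply hy
      unfold Affine.negY at h3
      have e3 : (WAB A B).toAffine.a₁ = 0 := rfl
      have e4 : (WAB A B).toAffine.a₃ = 0 := rfl
      rw [e3, e4] at h3
      have h4 : L.derivWeierstrassP z / (2 * Om ^ 3) = 0 := by linear_combination h3 / 2
      rcases div_eq_zero_iff.1 h4 with h5 | h5
      · exact h5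
      · exact absurd h5 (mul_ne_zero two_ne_zero (pow_ne_zero _ hO))
  · have e1 : ((k + 1 : ℕ) : ℂ) * z = (k : ℂ) * z + z := by push_cast; ring
    have e2 : ((k - 1 : ℕ) : ℂ) * z = (k : ℂ) * z - z := by
      rw [Nat.cast_sub (by omega)]
      push_cast
      ring
    have hm := hmin (k - 1) (by omega) (by omega)
    rw [e2] at hm
    rw [e1] at hk1z ⊢
    have hx := wp_ne L ((k : ℂ) * z) z hkz hz hk1z hm
    refine ⟨mc L ((k : ℂ) * z) z / 2, sL_add L _ _ hkz hz hk1z hm, ?_⟩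
    rintro V ⟨hA, hB, hV2, hD, hr⟩
    have hd : 4 * A ^ 3 + 27 * B ^ 2 ≠ 0 := by
      intro h0
      rw [h0, map_zero] at hD
      exact zero_ne_one hD
    obtain ⟨pt, hp0, hp1⟩ := pt_exists L A B Om hO g2 g3 hd
    obtain ⟨hns, hns'⟩ := hp1 z hz
    obtain ⟨hnk, hnk'⟩ := hp1 _ hkz
    rw [← slope_chord L A B Om hO _ _ hx]
    have ht : r • pt z = 0 := by
      have := B2_tors (L := L) pt hp0 r 1 z hrz
      rwa [Nat.cast_one, one_mul] at this
    have ht' := B2_tors (L := L) pt hp0 r k z hrz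
    rw [hns'] at ht
    rw [hnk'] at ht'
    refine slope_int (B2_good hA hB hV2 hD) hnk hns r hr ht' ht ?_
    rintro ⟨h3, _⟩
    exact hx ((div_left_inj' (pow_ne_zero 2 hO)).1 h3)

theorem B2_ind (A B Om : ℂ) (hO : Om ≠ 0) (g2 : L.g₂ = -4 * A * Om ^ 4) (g3 : L.g₃ = -4 * B * Om ^ 6) (z : ℂ)
    (r : ℕ) (hrz : (r : ℂ) * z ∈ L.lattice) (r₀ : ℕ)
    (hmin : ∀ m : ℕ, 0 < m → m < r₀ → (m : ℂ) * z ∉ L.lattice) (m : ℕ) (hm : m + 1 < r₀) :
    ∃ T : ℂ, Filter.Tendsto (fun R : ℝ => sL L R (((m + 1 : ℕ) : ℂ) * z) - ((m + 1 : ℕ) : ℂ) * sL L R z)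
      Filter.atTop (nhds T) ∧ ∀ V : ValuationSubring ℂ, B2_G A B r V → V.valuation (T / Om) ≤ 1 := by
  induction m with
  | zero =>
    refine ⟨0, ?_, fun V _ => by rw [zero_div, map_zero]; exact zero_le_one⟩
    refine tendsto_const_nhds.congr fun R => ?_
    norm_num
  | succ m ih =>
    obtain ⟨T, hT, hV⟩ := ih (by omega)
    obtain ⟨l, hl, hV'⟩ := B2_step A B Om hO g2 g3 z r hrz r₀ hmin (m + 1) (by omega) hm
    refine ⟨l + T, (hl.add hT).congr fun R => ?_, fun V hG => ?_⟩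
    · push_cast
      ring
    · rw [add_div]
      exact V.valuation.map_add_le (hV' V hG) (hV V hG)

theorem B2_nat (V : ValuationSubring ℂ) (n : ℕ) : V.valuation (n : ℂ) ≤ 1 :=
  (V.valuation_le_one_iff _).2 (natCast_mem V n)

theorem B2_dvd {V : ValuationSubring ℂ} {r r₀ : ℕ} (h : r₀ ∣ r) (hr : V.valuation (r : ℂ) = 1) :
    V.valuation (r₀ : ℂ) = 1 := by
  obtain ⟨c, rfl⟩ := h
  rw [Nat.cast_mul, map_mul] at hr
  refine le_antisymm (B2_nat V r₀) ?_
  rw [← hr]
  exact mul_le_of_le_one_right' (B2_nat V c)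

variable (L)

theorem sL_exists (A B Om : ℂ) (hO : Om ≠ 0) (g2 : L.g₂ = -4 * A * Om ^ 4) (g3 : L.g₃ = -4 * B * Om ^ 6) (z : ℂ)
    (r : ℕ) (hr : 0 < r) (hz : z ∉ L.lattice) (hrz : (r : ℂ) * z ∈ L.lattice) :
    ∃ S : ℂ, Filter.Tendsto (fun R : ℝ => sL L R z) Filter.atTop (nhds S) ∧
      ∀ V : ValuationSubring ℂ, A ∈ V → B ∈ V → V.valuation 2 = 1 → V.valuation (4 * A ^ 3 + 27 * B ^ 2) = 1 →
        V.valuation (r : ℂ) = 1 → V.valuation (S / Om) ≤ 1 := by
  classical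
  have hex : ∃ n : ℕ, 0 < n ∧ (n : ℂ) * z ∈ L.lattice := ⟨r, hr, hrz⟩
  obtain ⟨r₀, hr₀, hr₀z, hmin⟩ : ∃ r₀ : ℕ, 0 < r₀ ∧ (r₀ : ℂ) * z ∈ L.lattice ∧
      ∀ m : ℕ, 0 < m → m < r₀ → (m : ℂ) * z ∉ L.lattice :=
    ⟨Nat.find hex, (Nat.find_spec hex).1, (Nat.find_spec hex).2, fun m h1 h2 h3 => Nat.find_min hex h2 ⟨h1, h3⟩⟩
  have h2 : 2 ≤ r₀ := by
    by_contra hc
    have : r₀ = 1 := by omega
    subst this
    rw [Nat.cast_one, one_mul] at hr₀z
    exact hz hr₀z
  have hdvd : r₀ ∣ r := by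
    rw [Nat.dvd_iff_mod_eq_zero]
    by_contra hc
    apply hmin (r % r₀) (Nat.pos_of_ne_zero hc) (Nat.mod_lt _ hr₀)
    have e : ((r % r₀ : ℕ) : ℂ) * z = (r : ℂ) * z - (r / r₀ : ℕ) • ((r₀ : ℂ) * z) := by
      have h3 : ((r : ℕ) : ℂ) = ((r % r₀ : ℕ) : ℂ) + (r₀ : ℂ) * ((r / r₀ : ℕ) : ℂ) := by
        exact_mod_cast (Nat.mod_add_div r r₀).symm
      rw [nsmul_eq_mul, h3]
      ring
    rw [e]
    exact sub_mem hrz (nsmul_mem hr₀z _)
  obtain ⟨T, hT, hV⟩ := B2_ind A B Om hO g2 g3 z r hrz r₀ hmin (r₀ - 2) (by omega)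
  have e1 : r₀ - 2 + 1 = r₀ - 1 := by omega
  rw [e1] at hT
  have hr0 : (r₀ : ℂ) ≠ 0 := by exact_mod_cast hr₀.ne'
  have e2 : ∀ R : ℝ, sL L R (((r₀ - 1 : ℕ) : ℂ) * z) = -sL L R z := by
    intro R
    have e3 : ((r₀ - 1 : ℕ) : ℂ) * z = -z + (r₀ : ℂ) * z := by
      rw [Nat.cast_sub (by omega)]
      push_cast
      ring
    rw [e3, sL_per L R (-z) _ hr₀z, sL_neg]
  refine ⟨-(r₀ : ℂ)⁻¹ * T, ?_, ?_⟩
  · refine (hT.const_mul (-(r₀ : ℂ)⁻¹)).congr fun R => ?_
    rw [e2 R, Nat.cast_sub (by omega)]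
    push_cast
    field_simp
    ring
  · intro V hA hB hV2 hD hrV
    have h5 := hV V ⟨hA, hB, hV2, hD, hrV⟩
    have e4 : -(r₀ : ℂ)⁻¹ * T / Om = -((r₀ : ℂ)⁻¹ * (T / Om)) := by ring
    rw [e4, Valuation.map_neg, map_mul, map_inv₀, B2_dvd hdvd hrV, inv_one, one_mul]
    exact h5

end H35P
end

-- from Lib.H35T.E2
section

open NumberField IsDedekindDomain

namespace H35T

open H55B

/-! Chunk E2 (M): the cubic character of 4 and the number of points.
jac_two: J = sum_a chi(a) chi(1 - a); the involution a -> 1 - a has the only fixed point a = 1/2 (characteristic not 2) and the same summand, so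
J = chi(1/2)^2 + 2 (sum over half of the others) (H55B.D2_split or Finset.sum_involution-like argument), chi(1/2)^2 = chi(4)^(-1) = chi(4)^2.
chi_four: by neg_jacobi gen v ^ f = -J, so 2 | gen v ^ f - chi(4)^2 (2 | 2J), chi(4)^2 is 1, om or om^2, so kap (gen v)^f = kap(gen v ^ f) =
chi(4)^2 (kap_mul, kap_uniq) and chi 4 = chi(4)^4 = (kap (gen v)^f)^2 = cj (kap (gen v)) ^ f.
pts: count, neg_jacobi, chi_four: chi 4 * J = -(cj (kap gen) * gen)^f; the sign is chi4(q) = chi4(N)^f with N = Nm (gen v) = absNorm v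
(FiniteField.isSquare_neg_one_iff: -1 is a square iff q is not 3 mod 4; q odd); so sign * chi 4 * J = -(cj (eta (gen v)) * gen v)^f;
apply e (compare H55B.E3.pts). -/

theorem E2_mk_two {z : O} : Ideal.Quotient.mk (Ideal.span {(2 : O)}) z = 0 ↔ (2 : O) ∣ z := by
  rw [Ideal.Quotient.eq_zero_iff_mem, Ideal.mem_span_singleton]

theorem E2_chi4 (k : Type*) [Field k] (h2k : (2 : k) ≠ 0) (χ : MulChar k O) (hχ3 : χ ^ 3 = 1) :
    χ 4 ^ 3 = 1 := by
  have h4 : (4 : k) ≠ 0 := by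
    have : (4 : k) = 2 * 2 := by norm_num
    rw [this]
    exact mul_ne_zero h2k h2k
  have h : (χ ^ 3) 4 = (1 : MulChar k O) 4 := by rw [hχ3]
  rw [MulChar.pow_apply' χ (by norm_num : (3 : ℕ) ≠ 0), MulChar.one_apply (isUnit_iff_ne_zero.2 h4)] at h
  exact h

theorem jac_two (k : Type*) [Field k] [Fintype k] (φ : O →+* k) (h2 : φ 2 ≠ 0)
    (χ : MulChar k O) (hχ3 : χ ^ 3 = 1) : (2 : O) ∣ jacobiSum χ χ - χ 4 ^ 2 := by
  classical
  have h2k : (2 : k) ≠ 0 := by
    rwa [map_ofNat] at h2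
  have hc := E2_chi4 k h2k χ hχ3
  have hc0 : χ 4 ≠ 0 := by
    intro h
    rw [h] at hc
    norm_num at hc
  have hhalf : χ (2 : k)⁻¹ * χ (1 - (2 : k)⁻¹) = χ 4 ^ 2 := by
    have h1 : (1 : k) - 2⁻¹ = 2⁻¹ := by
      field_simp
      norm_num
    rw [h1]
    apply mul_right_cancel₀ hc0
    rw [← map_mul, ← map_mul]
    have h4 : (2 : k)⁻¹ * 2⁻¹ * 4 = 1 := by
      field_simp
      norm_num
    rw [h4, MulChar.map_one]
    rw [← pow_succ, hc]
  rw [← E2_mk_two]
  unfold jacobiSum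
  rw [← Finset.add_sum_erase Finset.univ (fun x : k => χ x * χ (1 - x)) (Finset.mem_univ (2 : k)⁻¹), hhalf,
    add_sub_cancel_left, map_sum]
  have htwo : ∀ z : O, Ideal.Quotient.mk (Ideal.span {(2 : O)}) z +
      Ideal.Quotient.mk (Ideal.span {(2 : O)}) z = 0 := by
    intro z
    rw [← map_add, E2_mk_two, ← two_mul]
    exact dvd_mul_right _ _
  refine Finset.sum_involution (fun x _ => 1 - x) ?_ ?_ ?_ ?_
  · intro a _
    have h5 : χ (1 - a) * χ (1 - (1 - a)) = χ a * χ (1 - a) := by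
      rw [sub_sub_cancel, mul_comm]
    rw [h5]
    exact htwo _
  · intro a ha _ heq
    have h5 : (1 : k) = 2 * a := by linear_combination heq
    apply (Finset.mem_erase.1 ha).1
    apply eq_inv_of_mul_eq_one_left
    rw [mul_comm]
    exact h5.symm
  · intro a ha
    rw [Finset.mem_erase] at ha ⊢
    refine ⟨?_, Finset.mem_univ _⟩
    intro h5
    apply ha.1
    have h6 : a = 1 - (2 : k)⁻¹ := by rw [← h5]; ring
    rw [h6]
    field_simp
    norm_num
  · intro a _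
    simp

theorem E2_cube {z : O} (h : z ^ 3 = 1) : z = 1 ∨ z = om ∨ z = om ^ 2 := by
  have h1 : (z - 1) * ((z - om) * (z - om ^ 2)) = 0 := by
    have := om_rel
    linear_combination h + (z * (1 - z) * 1 - (z - 1) * z * 0 + (z - 1) * (om - 1) - z * (1 - z) - (z - 1) * z) * this
  rcases mul_eq_zero.1 h1 with h2 | h2
  · left; exact sub_eq_zero.1 h2
  · rcases mul_eq_zero.1 h2 with h3 | h3
    · right; left; exact sub_eq_zero.1 h3
    · right; right; exact sub_eq_zero.1 h3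

theorem E2_kap_pow (x : O) (f : ℕ) : kap (x ^ f) = kap x ^ f := by
  induction f with
  | zero =>
    rw [pow_zero, pow_zero, kap_one]
    simp
  | succ n ih => rw [pow_succ, pow_succ, kap_mul, ih]

theorem chi_four (v : HeightOneSpectrum O) (h3 : (3 : O) ∉ v.asIdeal) (h2 : (2 : O) ∉ v.asIdeal)
    (k : Type*) [Field k] [Fintype k] (φ : O →+* k) (hker : RingHom.ker φ = v.asIdeal) (f : ℕ)
    (hf : 0 < f) (hq : Fintype.card k = Ideal.absNorm v.asIdeal ^ f) (χ : MulChar k O)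
    (hχ3 : χ ^ 3 = 1) (hχ : χ ≠ 1) (h3c : 3 ∣ Fintype.card k - 1)
    (hφ : ∀ x : k, φ (χ x) = x ^ ((Fintype.card k - 1) / 3)) (hcj : ∀ x : k, cj (χ x) = χ x ^ 2) :
    χ 4 = cj (kap (gen v)) ^ f := by
  have hφ2 : φ 2 ≠ 0 := by
    intro h
    apply h2
    rw [← hker]
    exact h
  have h2k : (2 : k) ≠ 0 := by
    rwa [map_ofNat] at hφ2
  have hc := E2_chi4 k h2k χ hχ3
  have hJ := neg_jacobi v h3 k φ hker f hf hq χ hχ3 hχ h3c hφ hcj
  have hj2 := jac_two k φ hφ2 χ hχ3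
  have h5 : (2 : O) ∣ gen v ^ f - χ 4 ^ 2 := by
    have h6 : gen v ^ f - χ 4 ^ 2 = -(jacobiSum χ χ - χ 4 ^ 2) + 2 * (-χ 4 ^ 2) := by
      rw [← hJ]; ring
    rw [h6]
    exact dvd_add (hj2.neg_right) (dvd_mul_right _ _)
  have h7 : χ 4 ^ 2 = 0 ∨ χ 4 ^ 2 = 1 ∨ χ 4 ^ 2 = om ∨ χ 4 ^ 2 = om ^ 2 := by
    right
    apply E2_cube
    rw [← pow_mul, mul_comm, pow_mul, hc, one_pow]
  have h8 := kap_uniq (gen v ^ f) h7 h5
  rw [E2_kap_pow] at h8
  rw [← map_pow, h8, map_pow, hcj, ← pow_mul]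
  have h9 : χ 4 ^ (2 * 2) = χ 4 ^ 3 * χ 4 := by ring
  rw [h9, hc, one_mul]

theorem E2_sign (k : Type*) [Field k] [Fintype k] (h2k : (2 : k) ≠ 0) (N f : ℕ)
    (hq : Fintype.card k = N ^ f) [Decidable (IsSquare (-1 : k))] :
    (if IsSquare (-1 : k) then (1 : O) else -1) = ((ZMod.χ₄ (N : ZMod 4) : ℤ) : O) ^ f := by
  have hodd : Fintype.card k % 2 = 1 := by
    apply FiniteField.odd_card_of_char_ne_two
    intro h
    apply h2k
    have : CharP k 2 := by
      rw [← h]; exact ringChar.charP k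
    exact CharTwo.two_eq_zero
  have h1 : ((ZMod.χ₄ (N : ZMod 4) : ℤ) : O) ^ f = ((ZMod.χ₄ ((Fintype.card k : ℕ) : ZMod 4) : ℤ) : O) := by
    rw [hq, Nat.cast_pow, map_pow, Int.cast_pow]
  rw [h1]
  by_cases hs : IsSquare (-1 : k)
  · rw [if_pos hs]
    have h4 := FiniteField.isSquare_neg_one_iff.1 hs
    rw [ZMod.χ₄_nat_one_mod_four (by omega), Int.cast_one]
  · rw [if_neg hs]
    have h4 : Fintype.card k % 4 = 3 := by
      by_contra h
      exact hs (FiniteField.isSquare_neg_one_iff.2 h)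
    rw [ZMod.χ₄_nat_three_mod_four h4, Int.cast_neg, Int.cast_one]

theorem pts (v : HeightOneSpectrum O) (h3 : (3 : O) ∉ v.asIdeal) (h2 : (2 : O) ∉ v.asIdeal)
    (k : Type*) [Field k] [Finite k] (φ : O →+* k) (hker : RingHom.ker φ = v.asIdeal) (f : ℕ)
    (hf : 0 < f) (hq : Nat.card k = Ideal.absNorm v.asIdeal ^ f) :
    (Nat.card {p : k × k // p.2 ^ 2 = p.1 ^ 3 - 1} : ℂ) = (Ideal.absNorm v.asIdeal : ℂ) ^ f -
      (((starRingEnd ℂ) (e (eta (gen v))) * e (gen v)) ^ f +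
        (e (eta (gen v)) * (starRingEnd ℂ) (e (gen v))) ^ f) := by
  classical
  have := Fintype.ofFinite k
  rw [Nat.card_eq_fintype_card] at hq
  have hφ3 : φ 3 ≠ 0 := by
    intro h
    apply h3
    rw [← hker]
    exact h
  have hφ2 : φ 2 ≠ 0 := by
    intro h
    apply h2
    rw [← hker]
    exact h
  have h2k : (2 : k) ≠ 0 := by
    rwa [map_ofNat] at hφ2
  obtain ⟨χ, hχ3, hχ, h3c, hφ, hcj, -⟩ := exists_chi k φ hφ3
  have hJ := neg_jacobi v h3 k φ hker f hf hq χ hχ3 hχ h3c hφ hcj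
  have hJ' : jacobiSum χ χ = -gen v ^ f := by rw [← hJ, neg_neg]
  have hc := count k φ hφ3 hφ2 χ hχ3 hχ h3c hφ hcj
  have h4 := chi_four v h3 h2 k φ hker f hf hq χ hχ3 hχ h3c hφ hcj
  have hN : (Ideal.absNorm v.asIdeal) = Nm (gen v) := absNorm_gen v h3
  have hsign := E2_sign k h2k (Nm (gen v)) f (by rw [hq, hN])
  set ε : O := ((ZMod.χ₄ (Nm (gen v) : ZMod 4) : ℤ) : O) with hε
  have heta : eta (gen v) = ε * kap (gen v) := rfl
  have hcjε : cj ε = ε := by
    rw [hε]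
    exact map_intCast cj _
  have hz : χ 4 * jacobiSum χ χ = -(cj (kap (gen v)) * gen v) ^ f := by
    rw [h4, hJ', mul_pow]; ring
  have hz' : cj (χ 4 * jacobiSum χ χ) = -(kap (gen v) * cj (gen v)) ^ f := by
    rw [hz, map_neg, map_pow, map_mul, cj_cj]
  rw [hsign, hz', hz] at hc
  have h := congrArg e hc
  have he1 : (starRingEnd ℂ) (e (eta (gen v))) * e (gen v) = e (ε * (cj (kap (gen v)) * gen v)) := by
    rw [← e_cj, heta, map_mul, hcjε, ← map_mul, mul_assoc]
  have he2 : e (eta (gen v)) * (starRingEnd ℂ) (e (gen v)) = e (ε * (kap (gen v) * cj (gen v))) := by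
    rw [← e_cj, heta, ← map_mul, mul_assoc]
  rw [he1, he2, ← map_pow, ← map_pow, mul_pow, mul_pow ε]
  simp only [map_natCast, map_add, map_neg, map_mul, map_pow] at h ⊢
  rw [h, hq]
  push_cast
  ring

end H35T
end

-- from Lib.H35T.F4
section

open NumberField IsDedekindDomain Polynomial

namespace H35T

open H55B

/-! Chunk F4 (M): the local polynomials of E144 over K. Adapt H55B.F4 (loc_good, loc_bad, F4_curve). loc_bad2: v(432) = v(2)^4 v(27) =
exp(-4) (v(3) = 1 as 3 = 1 + 2); loc_bad3: v(432) = v(3)^3 = exp(-6) (v(2) = 1); 12 n is not -4 or -6. I2-type statements: the Euler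
factors (adapt H55B.I2_local_good, I2_local_bad). a = conj(e(eta(gen v))) e(gen v), a conj(a) = absNorm v (gen_mul_conj, eta of absolute
value 1 since v does not contain 2). -/

theorem f4_curve (K : Type) [Field K] [NumberField K] [Algebra F K] (w : HeightOneSpectrum (𝓞 K)) :
    (E144.baseChange K).baseChange (w.adicCompletion K) = ⟨0, 0, 0, 0, -1⟩ := by
  ext <;> simp [E144, WeierstrassCurve.baseChange]

theorem f4_unit (K : Type) [Field K] [NumberField K] (w : HeightOneSpectrum (𝓞 K)) (n : ℕ) [n.AtLeastTwo]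
    (h3 : (OfNat.ofNat n : 𝓞 K) ∉ w.asIdeal) : IsUnit (OfNat.ofNat n : w.adicCompletionIntegers K) := by
  rw [← residue_ker K w, RingHom.mem_ker, RingHom.comp_apply, map_ofNat] at h3
  by_contra hcon
  apply h3
  rw [IsLocalRing.residue_eq_zero_iff, IsLocalRing.mem_maximalIdeal]
  exact hcon

theorem f4_eta (v : HeightOneSpectrum O) (h3 : (3 : O) ∉ v.asIdeal) (h2 : (2 : O) ∉ v.asIdeal) :
    e (eta (gen v)) * (starRingEnd ℂ) (e (eta (gen v))) = 1 := by
  have hcop : IsCoprime (gen v) 2 := by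
    refine ((gen_prime v h3).irreducible.coprime_iff_not_dvd).2 fun h => h2 ?_
    exact (gen_dvd_iff v h3 2).1 h
  have h1 := eta_six (gen v) hcop
  have h4 : ‖e (eta (gen v))‖ ^ 6 = 1 := by
    rw [← norm_pow, ← map_pow, h1, map_one, norm_one]
  have h5 : ‖e (eta (gen v))‖ = 1 := (pow_eq_one_iff_of_nonneg (norm_nonneg _) (by norm_num)).1 h4
  rw [Complex.mul_conj, Complex.normSq_eq_norm_sq, h5]
  norm_num

theorem loc_good (K : Type) [Field K] [NumberField K] [Algebra F K] (w : HeightOneSpectrum (𝓞 K))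
    (h3 : (3 : 𝓞 K) ∉ w.asIdeal) (h2 : (2 : 𝓞 K) ∉ w.asIdeal) (v : HeightOneSpectrum O)
    (hv : v.asIdeal = w.asIdeal.under O) :
    ((((E144.baseChange K).baseChange (w.adicCompletion K)).localPolynomial
      (w.adicCompletionIntegers K)).map (Int.castRingHom ℂ)) =
      (1 - C (((starRingEnd ℂ) (e (eta (gen v))) * e (gen v)) ^ (w.asIdeal.inertiaDeg O)) * X) *
      (1 - C ((e (eta (gen v)) * (starRingEnd ℂ) (e (gen v))) ^ (w.asIdeal.inertiaDeg O)) * X) := by
  have hlies : w.asIdeal.LiesOver v.asIdeal := ⟨hv⟩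
  have hmax : v.asIdeal.IsMaximal := v.isMaximal
  obtain ⟨hfin, hcard⟩ := residue_card K w
  rw [f4_curve, good_local (w.adicCompletionIntegers K) (w.adicCompletion K) (f4_unit K w 3 h3)
    (f4_unit K w 2 h2)]
  set f := w.asIdeal.inertiaDeg O with hf
  have hf0 : 0 < f := by
    rw [hf, Ideal.inertiaDeg_eq_of_isMaximal v.asIdeal w.asIdeal,
      ← Ideal.inertiaDeg'_algebraMap]
    exact Ideal.inertiaDeg'_pos v.asIdeal w.asIdeal
  have h3v : (3 : O) ∉ v.asIdeal := by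
    intro h
    apply h3
    rw [hv, Ideal.mem_comap, map_ofNat] at h
    exact h
  have h2v : (2 : O) ∉ v.asIdeal := by
    intro h
    apply h2
    rw [hv, Ideal.mem_comap, map_ofNat] at h
    exact h
  set φ : O →+* IsLocalRing.ResidueField (w.adicCompletionIntegers K) :=
    ((IsLocalRing.residue (w.adicCompletionIntegers K)).comp
      (algebraMap (𝓞 K) (w.adicCompletionIntegers K))).comp (algebraMap O (𝓞 K)) with hφ
  have hker : RingHom.ker φ = v.asIdeal := by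
    rw [hv]
    ext x
    rw [RingHom.mem_ker, hφ, RingHom.comp_apply, ← RingHom.mem_ker, residue_ker, Ideal.mem_comap]
  have hq : Nat.card (IsLocalRing.ResidueField (w.adicCompletionIntegers K)) =
      Ideal.absNorm v.asIdeal ^ f := by
    rw [hcard, absNorm_inertia K w v hv]
  have hpts := pts v h3v h2v (IsLocalRing.ResidueField (w.adicCompletionIntegers K)) φ hker f hf0 hq
  have hgc := gen_mul_conj v h3v
  have hee := f4_eta v h3v h2v
  rw [hq]
  set N := Nat.card {p : IsLocalRing.ResidueField (w.adicCompletionIntegers K) ×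
    IsLocalRing.ResidueField (w.adicCompletionIntegers K) // p.2 ^ 2 = p.1 ^ 3 - 1} with hN
  set a := (starRingEnd ℂ) (e (eta (gen v))) * e (gen v) with ha
  set b := e (eta (gen v)) * (starRingEnd ℂ) (e (gen v)) with hb
  have hab : a * b = (Ideal.absNorm v.asIdeal : ℂ) := by
    rw [ha, hb, ← hgc]
    linear_combination (e (gen v) * (starRingEnd ℂ) (e (gen v))) * hee
  have h1 : ((Ideal.absNorm v.asIdeal ^ f : ℕ) : ℂ) - (N : ℂ) = a ^ f + b ^ f := by
    rw [hpts]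
    push_cast
    ring
  have h2' : ((Ideal.absNorm v.asIdeal ^ f : ℕ) : ℂ) = a ^ f * b ^ f := by
    push_cast
    rw [← hab, mul_pow]
  have h1' : ((Ideal.absNorm v.asIdeal ^ f : ℕ) : ℂ[X]) - (N : ℂ[X]) = C (a ^ f) + C (b ^ f) := by
    rw [← C_eq_natCast, ← C_eq_natCast, ← map_sub, h1, map_add]
  have h2'' : ((Ideal.absNorm v.asIdeal ^ f : ℕ) : ℂ[X]) = C (a ^ f) * C (b ^ f) := by
    rw [← C_eq_natCast, h2', map_mul]
  simp only [Polynomial.map_add, Polynomial.map_sub, Polynomial.map_one, Polynomial.map_mul,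
    Polynomial.map_X, Polynomial.map_pow, map_sub, map_natCast, Polynomial.map_natCast]
  rw [h1', h2'']
  ring

theorem loc_bad2 (K : Type) [Field K] [NumberField K] [Algebra F K] (w : HeightOneSpectrum (𝓞 K))
    (h2 : w.valuation K (2 : K) = WithZero.exp (-1 : ℤ)) :
    ((E144.baseChange K).baseChange (w.adicCompletion K)).localPolynomial
      (w.adicCompletionIntegers K) = 1 := by
  rw [f4_curve]
  apply bad_local
  intro u hu h
  have h3 : w.valuation K (3 : K) = 1 := by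
    have e1 : (3 : K) = 1 + 2 := by norm_num
    rw [e1, Valuation.map_add_eq_of_lt_left, map_one]
    rw [h2, map_one, ← WithZero.exp_zero, WithZero.exp_lt_exp]
    norm_num
  have h27 : (432 : w.adicCompletion K) = algebraMap K (w.adicCompletion K) (2 ^ 4 * 3 ^ 3) := by
    rw [map_mul, map_pow, map_pow, map_ofNat, map_ofNat]
    norm_num
  rw [h27, valuation_compl, map_mul, map_pow, map_pow, h3, h2, one_pow, mul_one] at h
  set val := (IsDiscreteValuationRing.maximalIdeal (w.adicCompletionIntegers K)).valuation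
    (w.adicCompletion K) u with hval
  have h0 : val ≠ 0 := (Valuation.ne_zero_iff _).mpr hu
  rw [← WithZero.exp_log h0, ← WithZero.exp_nsmul, ← WithZero.exp_nsmul, WithZero.exp_inj] at h
  simp only [nsmul_eq_mul] at h
  push_cast at h
  omega

theorem loc_bad3 (K : Type) [Field K] [NumberField K] [Algebra F K] (w : HeightOneSpectrum (𝓞 K))
    (h3 : w.valuation K (3 : K) = WithZero.exp (-2 : ℤ)) :
    ((E144.baseChange K).baseChange (w.adicCompletion K)).localPolynomial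
      (w.adicCompletionIntegers K) = 1 := by
  rw [f4_curve]
  apply bad_local
  intro u hu h
  have h2 : w.valuation K (2 : K) = 1 := by
    have e1 : (2 : K) = -1 + 3 := by norm_num
    rw [e1, Valuation.map_add_eq_of_lt_left, Valuation.map_neg, map_one]
    rw [h3, Valuation.map_neg, map_one, ← WithZero.exp_zero, WithZero.exp_lt_exp]
    norm_num
  have h27 : (432 : w.adicCompletion K) = algebraMap K (w.adicCompletion K) (2 ^ 4 * 3 ^ 3) := by
    rw [map_mul, map_pow, map_pow, map_ofNat, map_ofNat]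
    norm_num
  rw [h27, valuation_compl, map_mul, map_pow, map_pow, h3, h2, one_pow, one_mul] at h
  set val := (IsDiscreteValuationRing.maximalIdeal (w.adicCompletionIntegers K)).valuation
    (w.adicCompletion K) u with hval
  have h0 : val ≠ 0 := (Valuation.ne_zero_iff _).mpr hu
  rw [← WithZero.exp_log h0, ← WithZero.exp_nsmul, ← WithZero.exp_nsmul, WithZero.exp_inj] at h
  simp only [nsmul_eq_mul] at h
  push_cast at h
  omega

end H35T
end

-- from Lib.H55K.M2A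
section

open NumberField WeierstrassCurve

namespace H55K.MG

open H35P (WAB Ker GoodW IntW)

variable {Ω : Type} [Field Ω] [IsAlgClosed Ω] {V : ValuationSubring Ω}

open Polynomial in
theorem m2a_root (c : Ω) : ∃ x : Ω, (x ^ 2 - x + 1) ^ 3 = c * (x ^ 2 * (x - 1) ^ 2) := by
  obtain ⟨p, hp⟩ : ∃ p : Polynomial Ω, p = X ^ 6 + C (-3) * X ^ 5 + C (6 - c) * X ^ 4 + C (2 * c - 7) * X ^ 3 +
      C (6 - c) * X ^ 2 + C (-3) * X + 1 := ⟨_, rfl⟩
  have hd : p.natDegree = 6 := by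
    rw [hp]
    compute_degree!
  obtain ⟨x, hx⟩ := IsAlgClosed.exists_root p (by
    intro h
    have := natDegree_eq_of_degree_eq_some h
    rw [hd] at this
    exact absurd this (by norm_num))
  refine ⟨x, ?_⟩
  rw [IsRoot.def, hp] at hx
  simp only [eval_add, eval_mul, eval_pow, eval_X, eval_C, eval_one] at hx
  linear_combination hx

/-! Chunk M2A (M), Legendre form. λ a root of the polynomial (X^2 - X + 1)^3 - (jj/256) X^2 (X - 1)^2, monic of degree 6 with coefficients in V (V(256) = V(2)^8 = 1), so λ in V (if V(λ) > 1 then the term λ^6 dominates: or Valuation /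
IsIntegrallyClosed of a valuation ring; directly: λ^6 = -(sum of c_i λ^i, i < 6) with c_i in V, V(λ)^6 ≤ V(λ)^5). If V(λ) < 1 or V(λ - 1) < 1 then V((λ^2-λ+1)^3) = 1 (λ^2 - λ + 1 = 1 + λ(λ-1)) but the right side has value < 1: contradiction.
W' = ⟨0, -(1+λ), 0, λ, 0⟩: Δ = 16 λ^2 (λ-1)^2, c4 = 16 (λ^2 - λ + 1), c4^3 = 4096 (λ^2-λ+1)^3 = 16 jj λ^2(λ-1)^2 = jj Δ (ring identities after unfolding Δ, b2, .., c4). -/

theorem legendre (h2 : V.valuation (2 : Ω) = 1) {jj : Ω} (hj : jj ∈ V) :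
    ∃ W' : WeierstrassCurve Ω, GoodW W' V ∧ W'.c₄ ^ 3 = jj * W'.Δ ∧ W'.a₁ = 0 ∧ W'.a₃ = 0 := by
  have h20 : (2 : Ω) ≠ 0 := by
    intro h
    rw [h, map_zero] at h2
    exact zero_ne_one h2
  obtain ⟨c, hc⟩ : ∃ c, c = jj / 256 := ⟨_, rfl⟩
  have h256 : (256 : Ω) ≠ 0 := by
    have : (256 : Ω) = 2 ^ 8 := by norm_num
    rw [this]
    exact pow_ne_zero _ h20
  have hcj : jj = 256 * c := by
    rw [hc]
    field_simp
  have hcV : V.valuation c ≤ 1 := by
    have h1 : V.valuation jj ≤ 1 := (V.valuation_le_one_iff _).2 hj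
    have h3 : (256 : Ω) = 2 ^ 8 := by norm_num
    rw [hcj, map_mul, h3, map_pow, h2, one_pow, one_mul] at h1
    exact h1
  obtain ⟨lam, hl⟩ := m2a_root c
  have hmul : ∀ x y : Ω, V.valuation x ≤ 1 → V.valuation y < 1 → V.valuation (x * y) < 1 := by
    intro x y hx hy
    rw [map_mul]
    exact lt_of_le_of_lt (mul_le_of_le_one_left' hx) hy
  have hcont : ∀ x y z : Ω, V.valuation x < 1 → V.valuation y ≤ 1 → V.valuation z ≤ 1 →
      (1 + x) ^ 3 = c * y * (z * x) → False := by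
    intro x y z hx hy hz h
    have e1 : V.valuation ((1 + x) ^ 3) = 1 := by
      rw [map_pow, Valuation.map_one_add_of_lt _ hx, one_pow]
    have e2 : V.valuation (c * y * (z * x)) < 1 := by
      refine hmul _ _ ?_ (hmul _ _ hz hx)
      rw [map_mul]
      exact mul_le_one' hcV hy
    rw [← h, e1] at e2
    exact lt_irrefl _ e2
  have hlV : V.valuation lam ≤ 1 := by
    by_contra hcon
    rw [not_le] at hcon
    have hl0 : lam ≠ 0 := by
      rintro rfl
      rw [map_zero] at hcon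
      exact not_lt.2 zero_le hcon
    have hm : V.valuation lam⁻¹ < 1 := by
      rw [map_inv₀]
      exact inv_lt_one_of_one_lt₀ hcon
    have hm1 : V.valuation (lam⁻¹ - 1) ≤ 1 := by
      refine (V.valuation.map_sub _ _).trans (max_le hm.le ?_)
      rw [map_one]
    have hx : V.valuation (lam⁻¹ * (lam⁻¹ - 1)) < 1 := by
      rw [mul_comm]
      exact hmul _ _ hm1 hm
    refine hcont (lam⁻¹ * (lam⁻¹ - 1)) (lam⁻¹ * (lam⁻¹ - 1)) 1 hx hx.le (by rw [map_one]) ?_
    field_simp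
    linear_combination hl
  have hl1V : V.valuation (lam - 1) ≤ 1 := by
    refine (V.valuation.map_sub _ _).trans (max_le hlV ?_)
    rw [map_one]
  have hprod : ¬ V.valuation (lam * (lam - 1)) < 1 := by
    intro hx
    refine hcont (lam * (lam - 1)) (lam * (lam - 1)) 1 hx hx.le (by rw [map_one]) ?_
    linear_combination hl
  have hl1 : V.valuation lam = 1 := by
    refine le_antisymm hlV (not_lt.1 fun h => hprod ?_)
    rw [mul_comm]
    exact hmul _ _ hl1V h
  have hl2 : V.valuation (lam - 1) = 1 := by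
    refine le_antisymm hl1V (not_lt.1 fun h => hprod ?_)
    exact hmul _ _ hlV h
  have hmem : lam ∈ V := (V.valuation_le_one_iff _).1 hlV
  have hΔ : (⟨0, -(1 + lam), 0, lam, 0⟩ : WeierstrassCurve Ω).Δ = 2 ^ 4 * lam ^ 2 * (lam - 1) ^ 2 := by
    simp only [WeierstrassCurve.Δ, WeierstrassCurve.b₂, WeierstrassCurve.b₄, WeierstrassCurve.b₆, WeierstrassCurve.b₈]
    ring
  refine ⟨⟨0, -(1 + lam), 0, lam, 0⟩, ⟨⟨V.zero_mem, V.neg_mem _ (V.add_mem _ _ V.one_mem hmem), V.zero_mem, hmem,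
    V.zero_mem⟩, ?_⟩, ?_, rfl, rfl⟩
  · rw [hΔ, map_mul, map_mul, map_pow, map_pow, map_pow, h2, hl1, hl2]
    simp
  · rw [hΔ, hcj]
    simp only [WeierstrassCurve.c₄, WeierstrassCurve.b₂, WeierstrassCurve.b₄]
    linear_combination 4096 * hl

end H55K.MG
end

-- from Lib.H55K.M2B
section

open NumberField WeierstrassCurve

namespace H55K.MG

open H35P (WAB Ker GoodW IntW)

variable {Ω : Type} [Field Ω] [IsAlgClosed Ω] {V : ValuationSubring Ω}

/-! Chunk M2B (M), Deuring form. V(2) < 1, so V(3) = V(1 + 2) = 1. w a root of X (X - 24)^3 - jj (X - 27), monic of degree 4 with coefficients in V, so w in V (w^4 = -(sum of c_i w^i), V(w) > 1 impossible). If V(w - 27) < 1 then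
V(w) = V(27) = 1, V(w - 24) = V(3 + (w - 27)) = 1, so V(w (w-24)^3) = 1 but V(jj (w - 27)) < 1: contradiction. So V(w - 27) = 1. α with α^3 = w (IsAlgClosed.exists_pow_nat_eq), α in V. W' = ⟨α, 0, 1, 0, 0⟩ (a1 = α, a2 = 0, a3 = 1, a4 = 0,
a6 = 0): Δ = α^3 - 27, c4 = α (α^3 - 24), c4^3 = w (w - 24)^3 = jj Δ (ring after unfolding). -/

open Polynomial in
omit [IsAlgClosed Ω] in
theorem m2b_deg (jj : Ω) :
    (X * (X - C 24) ^ 3 - C jj * (X - C 27) : Polynomial Ω).natDegree = 4 := by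
  have e : (X * (X - C 24) ^ 3 - C jj * (X - C 27) : Polynomial Ω) =
      X ^ 4 + (C (-72) * X ^ 3 + C 1728 * X ^ 2 + C (-13824 - jj) * X + C (27 * jj)) := by
    simp only [map_sub, map_neg, map_mul, map_ofNat]
    ring
  rw [e]
  compute_degree!

omit [IsAlgClosed Ω] in
theorem m2b_w (h2 : V.valuation (2 : Ω) < 1) {jj w : Ω} (hj : jj ∈ V)
    (hw : w * (w - 24) ^ 3 = jj * (w - 27)) : V.valuation w ≤ 1 ∧ V.valuation (w - 27) = 1 := by
  have hnat : ∀ n : ℕ, V.valuation (n : Ω) ≤ 1 := by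
    intro n
    rw [V.valuation_le_one_iff]
    exact natCast_mem V n
  have h24 : V.valuation (24 : Ω) ≤ 1 := by exact_mod_cast hnat 24
  have h27 : V.valuation (27 : Ω) ≤ 1 := by exact_mod_cast hnat 27
  have hjj : V.valuation jj ≤ 1 := (V.valuation_le_one_iff _).2 hj
  have h3 : V.valuation (3 : Ω) = 1 := by
    have e : (3 : Ω) = 1 + 2 := by norm_num
    rw [e, Valuation.map_add_eq_of_lt_left _ (by rwa [map_one]), map_one]
  have h1 : V.valuation w ≤ 1 := by
    by_contra hcon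
    rw [not_le] at hcon
    have e1 : V.valuation (w - 24) = V.valuation w :=
      Valuation.map_sub_eq_of_lt_left _ (h24.trans_lt hcon)
    have e2 : V.valuation (w - 27) = V.valuation w :=
      Valuation.map_sub_eq_of_lt_left _ (h27.trans_lt hcon)
    have e3 := congrArg V.valuation hw
    rw [map_mul, map_pow, map_mul, e1, e2] at e3
    have h0 : 0 < V.valuation w := zero_lt_one.trans hcon
    have e4 : V.valuation w * V.valuation w ^ 3 ≤ V.valuation w := by
      rw [e3]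
      exact mul_le_of_le_one_left' hjj
    have e5 : V.valuation w < V.valuation w * V.valuation w ^ 3 :=
      lt_mul_of_one_lt_right h0 (one_lt_pow₀ hcon (by norm_num))
    exact absurd e4 (not_le.2 e5)
  refine ⟨h1, ?_⟩
  have h4 : V.valuation (w - 27) ≤ 1 := V.valuation.map_sub_le h1 h27
  refine le_antisymm h4 (not_lt.1 fun hlt => ?_)
  have e27 : V.valuation (27 : Ω) = 1 := by
    have e : (27 : Ω) = 3 * 3 * 3 := by norm_num
    rw [e]
    simp only [map_mul, h3, one_mul]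
  have ew : V.valuation w = 1 := by
    have e : w = 27 + (w - 27) := by ring
    rw [e, Valuation.map_add_eq_of_lt_left _ (by rwa [e27]), e27]
  have ew24 : V.valuation (w - 24) = 1 := by
    have e : w - 24 = 3 + (w - 27) := by ring
    rw [e, Valuation.map_add_eq_of_lt_left _ (by rwa [h3]), h3]
  have e3 := congrArg V.valuation hw
  rw [map_mul, map_pow, map_mul, ew, ew24, one_pow, one_mul] at e3
  have e4 : V.valuation jj * V.valuation (w - 27) < 1 :=
    mul_lt_one_of_nonneg_of_lt_one_right hjj zero_le hlt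
  rw [← e3] at e4
  exact lt_irrefl _ e4

theorem deuring (h2 : V.valuation (2 : Ω) < 1) {jj : Ω} (hj : jj ∈ V) :
    ∃ W' : WeierstrassCurve Ω, GoodW W' V ∧ W'.c₄ ^ 3 = jj * W'.Δ := by
  obtain ⟨w, hw⟩ := IsAlgClosed.exists_root
    (Polynomial.X * (Polynomial.X - Polynomial.C 24) ^ 3 -
      Polynomial.C jj * (Polynomial.X - Polynomial.C 27) : Polynomial Ω)
    (Polynomial.degree_ne_of_natDegree_ne (by rw [m2b_deg]; norm_num))
  have hw' : w * (w - 24) ^ 3 = jj * (w - 27) := by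
    rw [Polynomial.IsRoot] at hw
    simp only [Polynomial.eval_sub, Polynomial.eval_mul, Polynomial.eval_pow, Polynomial.eval_X,
      Polynomial.eval_C] at hw
    exact sub_eq_zero.1 hw
  obtain ⟨h1, h3⟩ := m2b_w h2 hj hw'
  obtain ⟨α, hα⟩ := IsAlgClosed.exists_pow_nat_eq w (n := 3) (by norm_num)
  have hαV : α ∈ V := by
    rw [← V.valuation_le_one_iff]
    rw [← hα, map_pow] at h1
    exact (pow_le_one_iff (by norm_num)).1 h1
  have hΔ : (⟨α, 0, 1, 0, 0⟩ : WeierstrassCurve Ω).Δ = w - 27 := by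
    rw [← hα]
    simp only [WeierstrassCurve.Δ, WeierstrassCurve.b₂, WeierstrassCurve.b₄, WeierstrassCurve.b₆,
      WeierstrassCurve.b₈]
    ring
  refine ⟨⟨α, 0, 1, 0, 0⟩, ⟨⟨hαV, V.zero_mem, V.one_mem, V.zero_mem, V.zero_mem⟩, ?_⟩, ?_⟩
  · rw [hΔ]
    exact h3
  · rw [hΔ, ← hw', ← hα]
    simp only [WeierstrassCurve.c₄, WeierstrassCurve.b₂, WeierstrassCurve.b₄]
    ring

end H55K.MG
end
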