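import Mathlib
import Pool.Agent.Lib.H1M.PP.D_H55K_RD
import Pool.Agent.Lib.H1M.PP.D_H55P_SD
import Pool.Agent.Lib.H1M.PP.M011

/-! # H13R: almost all prime numbers, over M -/

open NumberField IsDedekindDomain WeierstrassCurve

namespace H13R

open H55P (IQ embF eF LF Per IsHecke Pt ac Inert Dec Nm UnitP UnrP PExt)
open H35P (WAB Ker tt GoodW IntW)
open H55K H55K.TQ

section fields

variable (F : Type) [Field F] [NumberField F] {Ω : Type} [Field Ω] [Algebra F Ω] [Algebra ℚ Ω] [IsScalarTower ℚ F Ω]

/-- The field generated by F and M is a number field. -/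
theorem kg_fin (M : Type) [Field M] [NumberField M] (ι : M →ₐ[ℚ] Ω) : FiniteDimensional F (KG F M ι) := by
  obtain ⟨α, hα⟩ := Field.exists_primitive_element ℚ M
  have h1 : KG F M ι = IntermediateField.adjoin F {ι α} := by
    apply le_antisymm
    · unfold KG
      rw [IntermediateField.adjoin_le_iff]
      rintro _ ⟨x, rfl⟩
      have hx : x ∈ IntermediateField.adjoin ℚ {α} := by
        rw [hα]
        exact IntermediateField.mem_top
      refine IntermediateField.adjoin_induction ℚ (p := fun x _ => ι x ∈ IntermediateField.adjoin F {ι α}) ?_ ?_ ?_ ?_ ?_ hx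
      · rintro _ rfl
        exact IntermediateField.subset_adjoin F _ rfl
      · intro q
        have e1 : ι (algebraMap ℚ M q) = algebraMap F Ω (algebraMap ℚ F q) := by
          rw [ι.commutes, ← IsScalarTower.algebraMap_apply ℚ F Ω]
        rw [e1]
        exact (IntermediateField.adjoin F {ι α}).algebraMap_mem _
      · intro x y _ _ hx hy
        rw [map_add]
        exact add_mem hx hy
      · intro x _ hx
        rw [map_inv₀]
        exact inv_mem hx
      · intro x y _ _ hx hy
        rw [map_mul]
        exact mul_mem hx hy
    · rw [IntermediateField.adjoin_le_iff]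
      rintro _ rfl
      exact IntermediateField.subset_adjoin F _ ⟨α, rfl⟩
  rw [h1]
  apply IntermediateField.adjoin.finiteDimensional
  have h2 : IsIntegral ℚ α := Algebra.IsIntegral.isIntegral α
  have h3 : IsIntegral ℚ (ι α) := h2.map ι
  exact h3.tower_top

noncomputable instance kg_nf (M : Type) [Field M] [NumberField M] (ι : M →ₐ[ℚ] Ω) : NumberField (KG F M ι) := by
  have := kg_fin F M ι
  exact H16C.FR_numberField _

end fields

end H13R
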