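import Mathlib
import Pool.Agent.Lib.H1M.PP.D_H28T_Defs

/-! # H28T: the class of fields for a curve with complex multiplication (definitions) -/

open NumberField IsDedekindDomain WeierstrassCurve

namespace H28T

open H28R (SubQ)
open H55P H55R

variable {F : Type} [Field F] [NumberField F]

/-- v does not divide the discriminant and p, and p does not divide the number of points modulo v. -/
def Gd (W₀ : WeierstrassCurve (𝓞 F)) (p : ℕ) (v : HeightOneSpectrum (𝓞 F)) : Prop :=
  W₀.Δ ∉ v.asIdeal ∧ (p : 𝓞 F) ∉ v.asIdeal ∧ ¬ p ∣ Nat.card (W₀⁄(𝓞 F ⧸ v.asIdeal)).toAffine.Point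

/-- All primes of F above the number l are in G. -/
def GoodL (G : HeightOneSpectrum (𝓞 F) → Prop) (l : ℕ) : Prop :=
  ∀ v : HeightOneSpectrum (𝓞 F), (l : 𝓞 F) ∈ v.asIdeal → G v

/-- K is contained in a field generated over F by m-th roots of unity, where all prime factors l of m satisfy GoodL G l. -/
def ExplicitG (G : HeightOneSpectrum (𝓞 F) → Prop) (K : Type) [Field K] [Algebra F K] : Prop :=
  ∃ (N : Type) (_ : Field N) (_ : NumberField N) (_ : Algebra F N) (_ : Algebra K N)
    (_ : IsScalarTower F K N) (m : ℕ) (S : Set N), m ≠ 0 ∧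
    (∀ l : ℕ, l.Prime → l ∣ m → GoodL G l) ∧ (∀ s ∈ S, s ^ m = 1) ∧ Algebra.adjoin F S = ⊤

/-- There are arbitrarily large prime numbers l congruent to 1 modulo p^n above which all primes of F are in G. -/
def DirH (G : HeightOneSpectrum (𝓞 F) → Prop) (p : ℕ) : Prop :=
  ∀ n N : ℕ, ∃ l : ℕ, l.Prime ∧ N < l ∧ p ^ n ∣ l - 1 ∧ GoodL G l

/-- K₀/ℚ is Galois of p-power degree, and the ramified prime numbers l are larger than B and satisfy GoodL G l. -/
def RatG (G : HeightOneSpectrum (𝓞 F) → Prop) (p : ℕ) (K₀ : Type) [Field K₀] [NumberField K₀] (B : ℕ) : Prop :=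
  IsGalois ℚ K₀ ∧ (∃ k : ℕ, Module.finrank ℚ K₀ = p ^ k) ∧
    ∀ (w : HeightOneSpectrum (𝓞 K₀)) (l : ℕ), l.Prime → (l : 𝓞 K₀) ∈ w.asIdeal →
      w.asIdeal.ramificationIdx ℤ ≠ 1 → GoodL G l ∧ B < l

/-- There is a number field K₀ with a real place and a quadratic extension N of K₀ which contains F, is Galois over ℚ and over F of degree a
power of p, ramified over F only at primes in G, and H is a subquotient of the Galois group of N/F. -/
def RealFieldG (G : HeightOneSpectrum (𝓞 F) → Prop) (p : ℕ) (H : Type) [Group H] : Prop :=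
  ∃ (K₀ : Type) (_ : Field K₀) (_ : NumberField K₀), 0 < InfinitePlace.nrRealPlaces K₀ ∧
    ∃ (N : Type) (_ : Field N) (_ : NumberField N) (_ : Algebra F N) (_ : Algebra K₀ N),
      Module.finrank K₀ N = 2 ∧ IsGalois ℚ N ∧ ExtG G p N ∧ SubQ (N ≃ₐ[F] N) H

end H28T
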