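import Mathlib
import Pool.Agent.Lib.H1M.PP.D_H55P_SD

/-! Merged copies (to shorten the build) of Lib.H13D.E8, Lib.H55W.FD, Lib.H13Y.YPG, Lib.H13D.P0, Lib.H28R.A4, Lib.H13E.S2Gen, Lib.H55W.D, Lib.H55P.S12. -/

-- from Lib.H13D.E8
section

/-! # H13D, part E: Frobenius elements and square roots -/

namespace H13D

theorem e8_int {Ω : Type} [Field Ω] (V : ValuationSubring Ω) (k : ℤ) : V.valuation (k : Ω) ≤ 1 :=
  (V.valuation_le_one_iff _).2 (intCast_mem V k)

theorem e8_dvd {Ω : Type} [Field Ω] (V : ValuationSubring Ω) {p : ℕ} (hp : p.Prime) (hpV : V.valuation (p : Ω) < 1) (k : ℤ) :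
    V.valuation (k : Ω) < 1 ↔ (p : ℤ) ∣ k := by
  constructor
  · intro h
    by_contra hk
    have hco : IsCoprime (p : ℤ) k := (Prime.coprime_iff_not_dvd (Nat.prime_iff_prime_int.1 hp)).2 hk
    obtain ⟨a, b, hab⟩ := hco
    have h1 : ((a * p + b * k : ℤ) : Ω) = 1 := by rw [hab, Int.cast_one]
    have h2 : V.valuation ((a * p + b * k : ℤ) : Ω) < 1 := by
      push_cast
      refine V.valuation.map_add_lt ?_ ?_
      · rw [mul_comm, map_mul]
        exact mul_lt_one_of_lt_of_le hpV (e8_int V a)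
      · rw [mul_comm, map_mul]
        exact mul_lt_one_of_lt_of_le h (e8_int V b)
    rw [h1, map_one] at h2
    exact lt_irrefl _ h2
  · rintro ⟨c, rfl⟩
    push_cast
    rw [map_mul]
    exact mul_lt_one_of_lt_of_le hpV (e8_int V c)

theorem e8_euler {p : ℕ} (hp : p.Prime) (h2 : p ≠ 2) {d : ℤ} (n : ℕ) :
    ∃ m : ℕ, p ^ n = 2 * m + 1 ∧ (p : ℤ) ∣ jacobiSym d p ^ n - d ^ m := by
  have : Fact p.Prime := ⟨hp⟩
  have hodd : p % 2 = 1 := (hp.eq_two_or_odd).resolve_left h2
  induction n with
  | zero => exact ⟨0, by simp, by simp⟩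
  | succ n ih =>
    obtain ⟨m, hm, hdv⟩ := ih
    refine ⟨p * m + p / 2, ?_, ?_⟩
    · rw [pow_succ, hm]
      have : p = 2 * (p / 2) + 1 := by omega
      calc (2 * m + 1) * p = 2 * (p * m) + p := by ring
        _ = 2 * (p * m) + (2 * (p / 2) + 1) := by rw [← this]
        _ = 2 * (p * m + p / 2) + 1 := by ring
    · rw [← ZMod.intCast_zmod_eq_zero_iff_dvd] at hdv ⊢
      push_cast at hdv ⊢
      rw [sub_eq_zero] at hdv ⊢
      rw [pow_succ, hdv, pow_add, pow_mul', ZMod.pow_card, ← jacobiSym.legendreSym.to_jacobiSym, legendreSym.eq_pow]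

/-- Chunk E8. Frobenius and square roots at an odd prime. -/
theorem frob_odd {Ω : Type} [Field Ω] (V : ValuationSubring Ω) {p : ℕ} (hp : p.Prime) (h2 : p ≠ 2)
    (hpV : V.valuation (p : Ω) < 1) {d : ℤ} (hd : ¬ (p : ℤ) ∣ d) {w : Ω} (hw : w ^ 2 = (d : Ω)) (s : Ω →+* Ω) {n : ℕ}
    (hs : ∀ x ∈ V, V.valuation (s x - x ^ p ^ n) < 1) {η : ℤ} (hη : η = 1 ∨ η = -1) (hsw : s w = η * w) :
    η = jacobiSym d p ^ n := by
  have hvd : V.valuation (d : Ω) = 1 := by
    refine le_antisymm (e8_int V d) ?_
    rw [← not_lt, e8_dvd V hp hpV]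
    exact hd
  have hvw : V.valuation w = 1 := by
    have h1 : V.valuation w ^ 2 = 1 := by rw [← map_pow, hw, hvd]
    exact (pow_eq_one_iff_of_nonneg zero_le two_ne_zero).1 h1
  obtain ⟨m, hm, hdv⟩ := e8_euler hp h2 (d := d) n
  have h1 := hs w ((V.valuation_le_one_iff _).1 hvw.le)
  have h3 : s w - w ^ p ^ n = w * ((η - d ^ m : ℤ) : Ω) := by
    rw [hsw, hm, pow_succ, pow_mul, hw]
    push_cast
    ring
  rw [h3, map_mul, hvw, one_mul, e8_dvd V hp hpV] at h1
  have h4 : (p : ℤ) ∣ η - jacobiSym d p ^ n := by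
    have h5 : η - jacobiSym d p ^ n = (η - d ^ m) - (jacobiSym d p ^ n - d ^ m) := by ring
    rw [h5]
    exact dvd_sub h1 hdv
  have hco : IsCoprime d (p : ℤ) := by
    rw [isCoprime_comm]
    exact (Prime.coprime_iff_not_dvd (Nat.prime_iff_prime_int.1 hp)).2 hd
  have hj : jacobiSym d p = 1 ∨ jacobiSym d p = -1 := by
    refine jacobiSym.eq_one_or_neg_one ?_
    rw [← Int.isCoprime_iff_gcd_eq_one]
    exact hco
  have hj' : jacobiSym d p ^ n = 1 ∨ jacobiSym d p ^ n = -1 := by
    rcases hj with h | h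
    · left
      rw [h, one_pow]
    · rw [h]
      exact neg_one_pow_eq_or ℤ n
  have hp3 : 3 ≤ p := by
    have := hp.two_le
    omega
  have hle : |η - jacobiSym d p ^ n| < p := by
    rcases hη with h | h <;> rcases hj' with h' | h' <;> rw [h, h'] <;> norm_num <;> omega
  exact sub_eq_zero.1 (Int.eq_zero_of_abs_lt_dvd h4 hle)

/-- Chunk E8. Frobenius and square roots at 2. -/
theorem frob_two {Ω : Type} [Field Ω] (V : ValuationSubring Ω) (h2 : (2 : Ω) ≠ 0) (hV : V.valuation (2 : Ω) < 1) {d : ℤ} (hd : d % 4 = 1)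
    {w : Ω} (hw : w ^ 2 = (d : Ω)) (s : Ω →+* Ω) {n : ℕ} (hs : ∀ x ∈ V, V.valuation (s x - x ^ 2 ^ n) < 1) {η : ℤ}
    (hη : η = 1 ∨ η = -1) (hsw : s w = η * w) : (Even n → η = 1) ∧ (Odd n → (η = 1 ↔ d % 8 = 1)) := by
  obtain ⟨c, rfl⟩ : ∃ c : ℤ, d = 1 + 4 * c := ⟨d / 4, by omega⟩
  have hpV : V.valuation ((2 : ℕ) : Ω) < 1 := by
    rw [Nat.cast_ofNat]
    exact hV
  have hdvd := e8_dvd V Nat.prime_two hpV
  have hint := e8_int V
  set α : Ω := (1 + w) / 2 with hα
  have hα2 : α ^ 2 = α + (c : Ω) := by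
    have h3 : (1 + w) = 2 * α := by
      rw [hα]
      field_simp
    have h4 : w = 2 * α - 1 := by linear_combination h3
    rw [h4] at hw
    push_cast at hw
    have h5 : (2 * 2) * (α ^ 2 - (α + (c : Ω))) = 0 := by linear_combination hw
    rcases mul_eq_zero.1 h5 with h6 | h6
    · rcases mul_eq_zero.1 h6 with h7 | h7 <;> exact absurd h7 h2
    · exact sub_eq_zero.1 h6
  have hvα : V.valuation α ≤ 1 := by
    by_contra hc
    rw [not_le] at hc
    have h3 : V.valuation (α ^ 2) ≤ max (V.valuation α) (V.valuation (c : Ω)) := by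
      rw [hα2]
      exact V.valuation.map_add _ _
    rw [max_eq_left ((hint c).trans hc.le), map_pow, sq] at h3
    have h4 : V.valuation α * 1 < V.valuation α * V.valuation α :=
      mul_lt_mul_of_pos_left hc (zero_lt_one.trans hc)
    rw [mul_one] at h4
    exact absurd h3 (not_le.2 h4)
  have hpow : ∀ k : ℕ, V.valuation (α ^ 2 ^ k - (α + ((k * c : ℤ) : Ω))) < 1 := by
    intro k
    induction k with
    | zero => simp
    | succ k ih =>
      set a := α ^ 2 ^ k with ha
      set b := α + ((k * c : ℤ) : Ω) with hb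
      have hva : V.valuation a ≤ 1 := by
        rw [ha, map_pow]
        exact pow_le_one₀ zero_le hvα
      have hvb : V.valuation b ≤ 1 := (V.valuation.map_add _ _).trans (max_le hvα (hint _))
      have he : α ^ 2 ^ (k + 1) - (α + (((k + 1 : ℕ) * c : ℤ) : Ω)) =
          (a - b) * (a + b) + (2 * (α * ((k * c : ℤ) : Ω)) + (((k * c) ^ 2 - k * c : ℤ) : Ω)) := by
        have h3 : α ^ 2 ^ (k + 1) = a ^ 2 := by
          rw [ha, ← pow_mul, pow_succ]
        rw [h3, hb]
        push_cast
        linear_combination (1 : Ω) * hα2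
      rw [he]
      refine V.valuation.map_add_lt ?_ (V.valuation.map_add_lt ?_ ?_)
      · rw [map_mul]
        exact mul_lt_one_of_lt_of_le ih ((V.valuation.map_add _ _).trans (max_le hva hvb))
      · rw [map_mul]
        refine mul_lt_one_of_lt_of_le hV ?_
        rw [map_mul]
        exact mul_le_one' hvα (hint _)
      · rw [hdvd]
        have h4 : ((k : ℤ) * c) ^ 2 - k * c = (k * c) * (k * c - 1) := by ring
        rw [h4]
        have h5 := Int.even_mul_pred_self ((k : ℤ) * c)
        exact_mod_cast h5.two_dvd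
  have h6 := hs α ((V.valuation_le_one_iff _).1 hvα)
  have h7 : V.valuation (s α - (α + ((n * c : ℤ) : Ω))) < 1 := by
    have h8 : s α - (α + ((n * c : ℤ) : Ω)) = (s α - α ^ 2 ^ n) + (α ^ 2 ^ n - (α + ((n * c : ℤ) : Ω))) := by ring
    rw [h8]
    exact V.valuation.map_add_lt h6 (hpow n)
  have hsα : s α = (1 + η * w) / 2 := by
    rw [hα, map_div₀, map_add, map_one, hsw, map_ofNat]
  have key : (η = 1 → (2 : ℤ) ∣ n * c) ∧ (η = -1 → (2 : ℤ) ∣ n * c - 1) := by
    constructor
    · rintro rfl
      have h9 : s α - (α + ((n * c : ℤ) : Ω)) = ((-(n * c) : ℤ) : Ω) := by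
        rw [hsα, hα]
        push_cast
        ring
      rw [h9, hdvd] at h7
      exact_mod_cast (dvd_neg.1 h7)
    · rintro rfl
      have h9 : s α - (α + ((n * c : ℤ) : Ω)) = ((-(n * c - 1) : ℤ) : Ω) - 2 * α := by
        rw [hsα, hα]
        push_cast
        field_simp
        ring
      have h10 : V.valuation (2 * α) < 1 := by
        rw [map_mul]
        exact mul_lt_one_of_lt_of_le hV hvα
      have h11 : V.valuation ((-(n * c - 1) : ℤ) : Ω) < 1 := by
        have h12 : ((-(n * c - 1) : ℤ) : Ω) = (s α - (α + ((n * c : ℤ) : Ω))) + 2 * α := by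
          rw [h9]
          ring
        rw [h12]
        exact V.valuation.map_add_lt h7 h10
      rw [hdvd] at h11
      exact_mod_cast (dvd_neg.1 h11)
  constructor
  · rintro ⟨k, rfl⟩
    rcases hη with h | h
    · exact h
    · exfalso
      have h12 := key.2 h
      push_cast at h12
      have h13 : ((k : ℤ) + k) * c - 1 = 2 * (k * c) - 1 := by ring
      omega
  · rintro ⟨k, rfl⟩
    have e : ((2 * k + 1 : ℕ) : ℤ) * c = 2 * (k * c) + c := by
      push_cast
      ring
    rw [e] at key
    rcases hη with h | h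
    · have h12 := key.1 h
      constructor
      · intro _
        omega
      · intro _
        exact h
    · have h12 := key.2 h
      constructor
      · intro h13
        omega
      · intro h13
        exfalso
        omega

end H13D
end

-- from Lib.H55W.FD
section

/-! # H55W, part F: functions which define Hecke characters -/

open NumberField IsDedekindDomain

namespace H55W

/-- The conditions of exists_hecke on the function f. -/
structure HF {F : Type} [Field F] [NumberField F] (M : Ideal (𝓞 F)) (f : 𝓞 F → 𝓞 F) : Prop where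
  un : ∀ x, IsCoprime (Ideal.span {x}) M → IsUnit (f x)
  mul : ∀ x y, IsCoprime (Ideal.span {x}) M → IsCoprime (Ideal.span {y}) M → f (x * y) = f x * f y
  inv : ∀ u x : 𝓞 F, IsUnit u → IsCoprime (Ideal.span {x}) M → f (u * x) * u = f x
  per : ∀ x y, IsCoprime (Ideal.span {x}) M → IsCoprime (Ideal.span {y}) M → x - y ∈ M → f x = f y

end H55W
end

-- from Lib.H13Y.YPG
section

/-!
# H13Y: two pigeonhole lemmas
-/

namespace H13Y

variable {Ω : Type} [Field Ω]

/-- Chunk YPG1 (S). f i = a class j with V (a i - r j) < 1 (hr); f is injective (if f i = f i' then V (a i - a i') < 1), so surjective (Finite.injective_iff_surjective); the class j of x is f i for some i, V (x - a i) < 1. -/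
theorem pigeon (V : ValuationSubring Ω) {q : ℕ} (S : Set Ω) (r a : Fin q → Ω)
    (hr : ∀ x ∈ S, x ∈ V → ∃ i, V.valuation (x - r i) < 1) (ha : ∀ i, a i ∈ S ∧ V.valuation (a i) ≤ 1)
    (hinj : ∀ i i', i ≠ i' → ¬ V.valuation (a i - a i') < 1) {x : Ω} (hx : x ∈ S)
    (hx1 : V.valuation x ≤ 1) : ∃ i, V.valuation (x - a i) < 1 := by
  have h1 : ∀ i, ∃ j, V.valuation (a i - r j) < 1 := fun i =>
    hr (a i) (ha i).1 ((V.valuation_le_one_iff _).1 (ha i).2)
  choose f hf using h1
  have hfi : Function.Injective f := by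
    intro i i' h
    by_contra hne
    apply hinj i i' hne
    have e : a i - a i' = (a i - r (f i)) - (a i' - r (f i')) := by
      rw [h]
      ring
    rw [e]
    exact lt_of_le_of_lt (Valuation.map_sub _ _ _) (max_lt (hf i) (hf i'))
  obtain ⟨j, hj⟩ := hr x hx ((V.valuation_le_one_iff _).1 hx1)
  obtain ⟨i, hi⟩ := (Finite.injective_iff_surjective.1 hfi) j
  refine ⟨i, ?_⟩
  have e : x - a i = (x - r j) - (a i - r (f i)) := by
    rw [hi]
    ring
  rw [e]
  exact lt_of_le_of_lt (Valuation.map_sub _ _ _) (max_lt hj (hf i))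

/-- Chunk YPG2 (S/M). In the residue field k of V the polynomial X^q - n X (q ≥ 2: not zero, degree q) has at most q roots (card_roots), and the classes of the x i are q distinct roots; the class of z is a root, so it is one of them. (IsLocalRing.residue V; residue = 0 iff V.valuation < 1: IsLocalRing.residue_eq_zero_iff, ValuationSubring.valuation_lt_one_iff.) -/
theorem pigeon2 (V : ValuationSubring Ω) {q n : ℕ} (hq : 2 ≤ q) (x : Fin q → Ω)
    (hx : ∀ i, V.valuation (x i) ≤ 1 ∧ V.valuation (x i ^ q - n * x i) < 1)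
    (hinj : ∀ i i', i ≠ i' → ¬ V.valuation (x i - x i') < 1) {z : Ω} (hz : V.valuation z ≤ 1)
    (h : V.valuation (z ^ q - n * z) < 1) : ∃ i, V.valuation (z - x i) < 1 := by
  classical
  have hres : ∀ y : V, IsLocalRing.residue V y = 0 ↔ V.valuation (y : Ω) < 1 := by
    intro y
    rw [IsLocalRing.residue_eq_zero_iff, V.valuation_lt_one_iff]
  have hmem : ∀ i, x i ∈ V := fun i => (V.valuation_le_one_iff _).1 (hx i).1
  have hzV : z ∈ V := (V.valuation_le_one_iff _).1 hz
  obtain ⟨P, hP⟩ : ∃ P : Polynomial (IsLocalRing.ResidueField V),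
      P = Polynomial.X ^ q - Polynomial.C (n : IsLocalRing.ResidueField V) * Polynomial.X := ⟨_, rfl⟩
  obtain ⟨k, rfl⟩ : ∃ k, q = k + 1 := ⟨q - 1, by omega⟩
  have hPm : P.Monic := by
    rw [hP]
    apply Polynomial.monic_X_pow_sub
    refine lt_of_le_of_lt (Polynomial.degree_C_mul_X_le (n : IsLocalRing.ResidueField V)) ?_
    exact_mod_cast (by omega : 1 < k + 1)
  have hPd : P.natDegree ≤ k + 1 := by
    rw [hP]
    refine (Polynomial.natDegree_sub_le _ _).trans (max_le ?_ ?_)
    · exact Polynomial.natDegree_X_pow_le _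
    · refine le_trans (Polynomial.natDegree_C_mul_le _ _) ?_
      refine le_trans Polynomial.natDegree_X_le ?_
      omega
  have hroot : ∀ y : V, V.valuation ((y : Ω) ^ (k + 1) - n * y) < 1 → IsLocalRing.residue V y ∈ P.roots.toFinset := by
    intro y hy
    rw [Multiset.mem_toFinset, Polynomial.mem_roots hPm.ne_zero, Polynomial.IsRoot, hP]
    rw [Polynomial.eval_sub, Polynomial.eval_pow, Polynomial.eval_X, Polynomial.eval_mul, Polynomial.eval_C,
      Polynomial.eval_X]
    have h1 := (hres (y ^ (k + 1) - n * y)).2 (by push_cast; exact hy)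
    rw [map_sub, map_pow, map_mul, map_natCast] at h1
    exact h1
  by_contra hcon
  push Not at hcon
  have hinj2 : Function.Injective (fun i => IsLocalRing.residue V (⟨x i, hmem i⟩ : V)) := by
    intro i i' hi
    by_contra hne
    apply hinj i i' hne
    have h1 : IsLocalRing.residue V ((⟨x i, hmem i⟩ : V) - ⟨x i', hmem i'⟩) = 0 := by
      rw [map_sub, sub_eq_zero]
      exact hi
    exact (hres _).1 h1
  have hz2 : IsLocalRing.residue V (⟨z, hzV⟩ : V) ∉
      Finset.univ.image (fun i => IsLocalRing.residue V (⟨x i, hmem i⟩ : V)) := by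
    intro hh
    obtain ⟨i, -, hi⟩ := Finset.mem_image.1 hh
    have h1 : IsLocalRing.residue V ((⟨z, hzV⟩ : V) - ⟨x i, hmem i⟩) = 0 := by
      rw [map_sub, sub_eq_zero]
      exact hi.symm
    exact absurd ((hres _).1 h1) (not_lt.2 (hcon i))
  have hsub : insert (IsLocalRing.residue V (⟨z, hzV⟩ : V))
      (Finset.univ.image (fun i => IsLocalRing.residue V (⟨x i, hmem i⟩ : V))) ⊆ P.roots.toFinset := by
    intro y hy
    rw [Finset.mem_insert, Finset.mem_image] at hy
    rcases hy with rfl | ⟨i, -, rfl⟩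
    · exact hroot _ h
    · exact hroot _ (hx i).2
  have h1 := Finset.card_le_card hsub
  rw [Finset.card_insert_of_notMem hz2, Finset.card_image_of_injective _ hinj2, Finset.card_univ,
    Fintype.card_fin] at h1
  have h2 := Multiset.toFinset_card_le P.roots
  have h3 := P.card_roots'
  omega

end H13Y
end

-- from Lib.H13D.P0
section

/-! # H13D, part P: the prime number below a prime -/

open NumberField IsDedekindDomain

namespace H13D

/-- Copy of H55K.TQ.ra2_below. -/
theorem below_v {K : Type} [Field K] [NumberField K] (w : HeightOneSpectrum (𝓞 K)) :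
    ∃ (l f : ℕ), l.Prime ∧ (l : 𝓞 K) ∈ w.asIdeal ∧ 0 < f ∧ Ideal.absNorm w.asIdeal = l ^ f := by
  have hmax : w.asIdeal.IsMaximal := w.isMaximal
  letI : Field (𝓞 K ⧸ w.asIdeal) := Ideal.Quotient.field w.asIdeal
  have h0 : Ideal.absNorm w.asIdeal ≠ 0 := by
    rw [Ne, Ideal.absNorm_eq_zero_iff]; exact w.ne_bot
  have hcard : Ideal.absNorm w.asIdeal = Nat.card (𝓞 K ⧸ w.asIdeal) := rfl
  haveI : Finite (𝓞 K ⧸ w.asIdeal) := Nat.finite_of_card_ne_zero (by rw [← hcard]; exact h0)
  letI : Fintype (𝓞 K ⧸ w.asIdeal) := Fintype.ofFinite _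
  obtain ⟨p, hp⟩ := CharP.exists (𝓞 K ⧸ w.asIdeal)
  obtain ⟨n, hpp, hn⟩ := FiniteField.card (𝓞 K ⧸ w.asIdeal) p
  refine ⟨p, n, hpp, ?_, n.pos, ?_⟩
  · rw [← Ideal.Quotient.eq_zero_iff_mem, map_natCast]
    exact CharP.cast_eq_zero _ p
  · rw [hcard, Nat.card_eq_fintype_card, hn]

end H13D
end

-- from Lib.H28R.A4
section

namespace H28R

/-! Chunk A4 (S): Dirichlet's theorem (Nat.forall_exists_prime_gt_and_eq_mod) with the modulus 3 p^n and the class which is 2 modulo 3 and 1 modulo p^n (Nat.chineseRemainder, 3 and p^n coprime; the class is a unit: its coprimality with 3 p^n). -/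

theorem exists_prime_p {p : ℕ} (hp : p.Prime) (h5 : 5 ≤ p) (n N : ℕ) :
    ∃ l : ℕ, l.Prime ∧ N < l ∧ l % 3 = 2 ∧ p ^ n ∣ l - 1 := by
  have hco : Nat.Coprime 3 (p ^ n) := by
    apply Nat.Coprime.pow_right
    rw [Nat.coprime_primes Nat.prime_three hp]
    omega
  obtain ⟨a, ha3, hap⟩ := Nat.chineseRemainder hco 2 1
  have hq : 3 * p ^ n ≠ 0 := mul_ne_zero (by norm_num) (pow_ne_zero _ hp.ne_zero)
  have hac : Nat.Coprime a (3 * p ^ n) := by
    apply Nat.Coprime.mul_right
    · have h1 := ha3.gcd_eq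
      change Nat.gcd a 3 = 1
      rw [h1]
      norm_num
    · have h1 := hap.gcd_eq
      change Nat.gcd a (p ^ n) = 1
      rw [h1]
      exact Nat.gcd_one_left _
  obtain ⟨l, hlN, hlp, hl⟩ := Nat.forall_exists_prime_gt_and_modEq N hq hac
  refine ⟨l, hlp, hlN, ?_, ?_⟩
  · have h1 : l ≡ a [MOD 3] := hl.of_mul_right _
    have h2 : l ≡ 2 [MOD 3] := h1.trans ha3
    exact h2
  · have h1 : l ≡ a [MOD p ^ n] := hl.of_mul_left _
    have h2 : l ≡ 1 [MOD p ^ n] := h1.trans hap
    exact (Nat.modEq_iff_dvd' hlp.one_lt.le).1 h2.symm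

end H28R
end

-- from Lib.H13E.S2Gen
section

open Polynomial

namespace H13E

/-! Helper for chunks S2, S3: quadratic algebras k[T]/(T^2 + c). -/

section quad

variable {k : Type} [Field k] {f : k[X]} {c : k}

theorem SG_monic (hf : f = X ^ 2 + C c) : f.Monic := by
  rw [hf]
  exact monic_X_pow_add_C c two_ne_zero

theorem SG_natDegree (hf : f = X ^ 2 + C c) : f.natDegree = 2 := by
  rw [hf]
  exact natDegree_X_pow_add_C

theorem SG_root (hf : f = X ^ 2 + C c) : (AdjoinRoot.root f) ^ 2 = -AdjoinRoot.of f c := by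
  have h := AdjoinRoot.eval₂_root f
  rw [hf, eval₂_add, eval₂_pow, eval₂_X, eval₂_C, ← hf] at h
  exact eq_neg_of_add_eq_zero_left h

theorem SG_repr (hf : f = X ^ 2 + C c) (m : AdjoinRoot f) :
    ∃ a b : k, m = AdjoinRoot.of f a + AdjoinRoot.of f b * AdjoinRoot.root f := by
  have hm := SG_monic hf
  obtain ⟨p, rfl⟩ := AdjoinRoot.mk_surjective m
  have h1 : AdjoinRoot.mk f p = AdjoinRoot.mk f (p %ₘ f) := by
    conv_lhs => rw [← modByMonic_add_div p f]
    rw [map_add, map_mul, AdjoinRoot.mk_self, zero_mul, add_zero]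
  have h2 : (p %ₘ f).natDegree < 2 := by
    have := natDegree_modByMonic_lt p hm (by
      intro h
      have := SG_natDegree hf
      rw [h, natDegree_one] at this
      omega)
    rwa [SG_natDegree hf] at this
  have h3 : p %ₘ f = C ((p %ₘ f).coeff 0) + C ((p %ₘ f).coeff 1) * X := by
    have := as_sum_range' (p %ₘ f) 2 h2
    rw [Finset.sum_range_succ, Finset.sum_range_one] at this
    conv_lhs => rw [this]
    rw [← C_mul_X_pow_eq_monomial, ← C_mul_X_pow_eq_monomial]
    ring
  refine ⟨(p %ₘ f).coeff 0, (p %ₘ f).coeff 1, ?_⟩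
  rw [h1]
  conv_lhs => rw [h3]
  rw [map_add, map_mul, AdjoinRoot.mk_C, AdjoinRoot.mk_C, AdjoinRoot.mk_X]

theorem SG_indep (hf : f = X ^ 2 + C c) {a b : k}
    (h : AdjoinRoot.of f a + AdjoinRoot.of f b * AdjoinRoot.root f = 0) : a = 0 ∧ b = 0 := by
  have h1 : AdjoinRoot.mk f (C a + C b * X) = 0 := by
    rw [map_add, map_mul, AdjoinRoot.mk_C, AdjoinRoot.mk_C, AdjoinRoot.mk_X]
    exact h
  rw [AdjoinRoot.mk_eq_zero] at h1
  have h2 : C a + C b * X = 0 := by
    by_contra hne
    have h3 := natDegree_le_of_dvd h1 hne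
    rw [SG_natDegree hf] at h3
    have h4 : (C a + C b * X).natDegree ≤ 1 := by
      rw [add_comm]
      exact natDegree_linear_le
    omega
  have h0 := congrArg (fun p => coeff p 0) h2
  have h1 := congrArg (fun p => coeff p 1) h2
  simp at h0 h1
  exact ⟨h0, h1⟩

theorem SG_norm (hf : f = X ^ 2 + C c) (a b : k) :
    Algebra.norm k (AdjoinRoot.of f a + AdjoinRoot.of f b * AdjoinRoot.root f) =
      a ^ 2 + c * b ^ 2 := by
  have hm := SG_monic hf
  have hd : (AdjoinRoot.powerBasis' hm).dim = 2 := by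
    rw [AdjoinRoot.powerBasis'_dim, SG_natDegree hf]
  set B : Module.Basis (Fin 2) k (AdjoinRoot f) :=
    (AdjoinRoot.powerBasis' hm).basis.reindex (finCongr hd) with hB
  have hBi : ∀ i : Fin 2, B i = AdjoinRoot.root f ^ (i : ℕ) := by
    intro i
    rw [hB, Module.Basis.reindex_apply, PowerBasis.basis_eq_pow, AdjoinRoot.powerBasis'_gen]
    rfl
  have hroot := SG_root hf
  set m : AdjoinRoot f := AdjoinRoot.of f a + AdjoinRoot.of f b * AdjoinRoot.root f with hmm
  set D : Matrix (Fin 2) (Fin 2) k := !![a, -(c * b); b, a] with hD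
  have hM : Algebra.leftMulMatrix B m = D := by
    ext i j
    rw [Algebra.leftMulMatrix_eq_repr_mul]
    have h1 : m * B j = ∑ i, D i j • B i := by
      rw [Fin.sum_univ_two, hBi, hBi, hBi]
      simp only [Algebra.smul_def, AdjoinRoot.algebraMap_eq]
      fin_cases j
      · simp [hD, hmm]
      · simp [hD, hmm]
        linear_combination (AdjoinRoot.of f b) * hroot
    rw [h1]
    exact congrFun (B.repr_sum_self (fun i => D i j)) i
  rw [Algebra.norm_eq_matrix_det B, hM, Matrix.det_fin_two]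
  simp [hD]
  ring

end quad

section desc

variable {K₀ K : Type} [Field K₀] [Field K] [CharZero K₀] [Algebra K₀ K]
  {f₀ : K₀[X]} {f : K[X]} {c₀ : K₀} {c : K}

/-- Abstract descent: a unit which becomes a cube over a quadratic extension is a cube. -/
theorem SG_abstract {A₀ A : Type} [CommRing A₀] [CommRing A] (φ : A₀ →+* A)
    (hφ : Function.Injective φ) (σ : A →+* A) (hσ : ∀ z, σ (σ z) = z) (hσφ : ∀ z, σ (φ z) = φ z)
    (hfix : ∀ z, σ z = z → ∃ y, φ y = z) (m : A₀) (hm : IsUnit m) (h : ∃ b : A, φ m = b ^ 3) :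
    ∃ b : A₀, m = b ^ 3 := by
  obtain ⟨b, hb⟩ := h
  obtain ⟨d, hd⟩ := hfix (b * σ b) (by rw [map_mul, hσ, mul_comm])
  have h1 : d ^ 3 = m ^ 2 := by
    apply hφ
    rw [map_pow, map_pow, hd, mul_pow, ← map_pow, ← hb, hσφ]
    ring
  have hdu : IsUnit d := by
    have : IsUnit (d ^ 3) := h1 ▸ hm.pow 2
    exact (isUnit_pow_iff three_ne_zero).1 this
  obtain ⟨u, rfl⟩ := hdu
  refine ⟨m * ((u⁻¹ : A₀ˣ) : A₀), ?_⟩
  have h2 : (u : A₀) * ((u⁻¹ : A₀ˣ) : A₀) = 1 := Units.mul_inv u
  have h3 : (u : A₀) ^ 3 * ((u⁻¹ : A₀ˣ) : A₀) ^ 3 = 1 := by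
    rw [← mul_pow, h2, one_pow]
  have h4 : m ^ 2 * ((u⁻¹ : A₀ˣ) : A₀) ^ 3 = 1 := by
    rw [← h1]
    exact h3
  linear_combination (-m) * h4

theorem SG_desc (hd : Module.finrank K₀ K = 2) (hf₀ : f₀ = X ^ 2 + C c₀) (hf : f = X ^ 2 + C c)
    (hc : c = algebraMap K₀ K c₀) (φ : AdjoinRoot f₀ →+* AdjoinRoot f)
    (hφ : ∀ x, φ (AdjoinRoot.of f₀ x) = AdjoinRoot.of f (algebraMap K₀ K x))
    (hφr : φ (AdjoinRoot.root f₀) = AdjoinRoot.root f) (m : AdjoinRoot f₀) (hm : IsUnit m)
    (h : ∃ b, φ m = b ^ 3) : ∃ b, m = b ^ 3 := by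
  haveI : FiniteDimensional K₀ K := FiniteDimensional.of_finrank_pos (by omega)
  haveI : Algebra.IsSeparable K₀ K := Algebra.IsAlgebraic.isSeparable_of_perfectField
  haveI : Algebra.IsQuadraticExtension K₀ K := ⟨hd⟩
  haveI : IsGalois K₀ K := inferInstance
  have hcard : Nat.card (K ≃ₐ[K₀] K) = 2 := by
    rw [IsGalois.card_aut_eq_finrank, hd]
  haveI : Finite (K ≃ₐ[K₀] K) := Nat.finite_of_card_ne_zero (by omega)
  obtain ⟨g, hg⟩ : ∃ g : K ≃ₐ[K₀] K, g ≠ 1 := by
    haveI : Nontrivial (K ≃ₐ[K₀] K) := (Finite.one_lt_card_iff_nontrivial).1 (by omega)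
    exact exists_ne 1
  have hgg : g * g = 1 := by
    have := pow_card_eq_one' (x := g)
    rwa [hcard, pow_two] at this
  have hall : ∀ h : K ≃ₐ[K₀] K, h = 1 ∨ h = g := by
    intro h
    rcases (Nat.card_eq_two_iff' (1 : K ≃ₐ[K₀] K)).1 hcard with ⟨y, hy, hu⟩
    by_cases h1 : h = 1
    · exact Or.inl h1
    · right
      rw [hu h h1, hu g hg]
  have hfixg : ∀ x : K, g x = x → ∃ y : K₀, algebraMap K₀ K y = x := by
    intro x hx
    have := (IsGalois.mem_bot_iff_fixed (F := K₀) (E := K) x).2 (by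
      intro h
      rcases hall h with rfl | rfl
      · rfl
      · exact hx)
    rw [IntermediateField.mem_bot] at this
    exact this
  have hgc : g c = c := by
    rw [hc]
    exact g.commutes c₀
  have hroot := SG_root hf
  have hev : f.eval₂ ((AdjoinRoot.of f).comp (g : K →+* K)) (AdjoinRoot.root f) = 0 := by
    rw [hf, eval₂_add, eval₂_pow, eval₂_X, eval₂_C, ← hf, RingHom.comp_apply]
    rw [hroot]
    have : (g : K →+* K) c = c := hgc
    rw [this, neg_add_cancel]
  set σ : AdjoinRoot f →+* AdjoinRoot f :=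
    AdjoinRoot.lift ((AdjoinRoot.of f).comp (g : K →+* K)) (AdjoinRoot.root f) hev with hσdef
  have hσof : ∀ x, σ (AdjoinRoot.of f x) = AdjoinRoot.of f (g x) := by
    intro x
    rw [hσdef, AdjoinRoot.lift_of]
    rfl
  have hσr : σ (AdjoinRoot.root f) = AdjoinRoot.root f := by
    rw [hσdef, AdjoinRoot.lift_root]
  have hggx : ∀ x, g (g x) = x := fun x => by
    have := congrArg (fun h : K ≃ₐ[K₀] K => h x) hgg
    exact this
  apply SG_abstract φ ?_ σ ?_ ?_ ?_ m hm h
  · rw [injective_iff_map_eq_zero]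
    intro z hz
    obtain ⟨a, b, rfl⟩ := SG_repr hf₀ z
    rw [map_add, map_mul, hφ, hφ, hφr] at hz
    obtain ⟨ha, hb⟩ := SG_indep hf hz
    rw [map_eq_zero] at ha hb
    rw [ha, hb, map_zero, zero_mul, add_zero]
  · intro z
    obtain ⟨a, b, rfl⟩ := SG_repr hf z
    rw [map_add, map_mul, hσof, hσof, hσr, map_add, map_mul, hσof, hσof, hσr, hggx, hggx]
  · intro z
    obtain ⟨a, b, rfl⟩ := SG_repr hf₀ z
    rw [map_add, map_mul, hφ, hφ, hφr, map_add, map_mul, hσof, hσof, hσr, g.commutes, g.commutes]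
  · intro z hz
    obtain ⟨a, b, rfl⟩ := SG_repr hf z
    rw [map_add, map_mul, hσof, hσof, hσr] at hz
    have h1 : AdjoinRoot.of f (g a - a) + AdjoinRoot.of f (g b - b) * AdjoinRoot.root f = 0 := by
      rw [map_sub, map_sub]
      linear_combination hz
    obtain ⟨ha, hb⟩ := SG_indep hf h1
    obtain ⟨a', ha'⟩ := hfixg a (sub_eq_zero.1 ha)
    obtain ⟨b', hb'⟩ := hfixg b (sub_eq_zero.1 hb)
    exact ⟨AdjoinRoot.of f₀ a' + AdjoinRoot.of f₀ b' * AdjoinRoot.root f₀, by
      rw [map_add, map_mul, hφ, hφ, hφr, ha', hb']⟩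

end desc

end H13E
end

-- from Lib.H55W.D
section

/-! # H55W: the Hecke characters of the curves with complex multiplication by the integers of the fields of discriminant -3, -4, -8: power residue characters -/

namespace H55W

/-- κ is the character x ↦ (n/x) of order m of the ring R: defined for x prime to c, periodic modulo k, trivial on the units and given by Euler's criterion
at the prime elements which do not divide c and m. -/
structure PRC (R : Type) [CommRing R] (m : ℕ) (n c k : ℤ) (κ : R → R) : Prop where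
  root : ∀ x, IsCoprime x (c : R) → κ x ^ m = 1
  mul : ∀ x y, IsCoprime x (c : R) → IsCoprime y (c : R) → κ (x * y) = κ x * κ y
  per : ∀ x y, IsCoprime x (c : R) → IsCoprime y (c : R) → (k : R) ∣ x - y → κ x = κ y
  unit : ∀ u, IsUnit u → κ u = 1
  euler : ∀ π : R, Prime π → ¬ π ∣ (c : R) → ¬ π ∣ (m : R) →
    π ∣ (n : R) ^ ((Nat.card (R ⧸ Ideal.span {π}) - 1) / m) - κ π

end H55W
end

-- from Lib.H55P.S12
section

open NumberField IsDedekindDomain WeierstrassCurve

namespace H55P

variable {F : Type} [Field F] [NumberField F] {Ω : Type} [Field Ω] [DecidableEq Ω] [Algebra F Ω]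
  [IsAlgClosed Ω] [Algebra.IsAlgebraic F Ω] [CharZero Ω]

/-! Chunk PS12 (M). The tower; PORT of exists_sub3 in Lib/H19T/A9b.lean (p = 3, base field F there) to a prime p and to fields between M and L inside Ω.
G = the group of automorphisms of L over M (L as an extension of M: IntermediateField.extendScalars, FR_galois in Lib/H16C/FR2.lean; order p^k), H' = the fixing subgroup of K, H = a subgroup containing H' with index p (Sylow.exists_subgroup_card_pow_succ), H' normal in H, N = the fixed field of H.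
Conclude with the restriction of automorphisms of Ω to L (normal): s in N.fixingSubgroup restricts to an element of H, which maps K to K. chain_types: the instances for the types of N and K: the algebra structure by IntermediateField.inclusion; IsGalois: normal since every
s in N.fixingSubgroup maps K to K (FR_galois), separable in characteristic 0; finrank from hdeg and finrank F K = finrank F N * finrank N K. PExt.sub: finrank of K over F divides. -/

/-- An automorphism of Ω over F which fixes K is an automorphism over K. -/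
noncomputable def S12_up {K : IntermediateField F Ω} (g : Ω ≃ₐ[F] Ω) (hg : g ∈ K.fixingSubgroup) :
    Ω ≃ₐ[K] Ω :=
  AlgEquiv.ofRingEquiv (f := (g : Ω ≃+* Ω)) (fun x => hg x)

theorem S12_fin (K L : IntermediateField F Ω) (hKL : K ≤ L) [FiniteDimensional F L] :
    FiniteDimensional K (IntermediateField.extendScalars hKL) := by
  have h1 : FiniteDimensional F (IntermediateField.extendScalars hKL) :=
    inferInstanceAs (FiniteDimensional F L)
  exact Module.Finite.of_restrictScalars_finite F K _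

theorem S12_galois (K L : IntermediateField F Ω) (hKL : K ≤ L) [FiniteDimensional F L]
    (hst : ∀ g ∈ K.fixingSubgroup, ∀ x ∈ L, g x ∈ L) :
    IsGalois K (IntermediateField.extendScalars hKL) := by
  have hfin := S12_fin K L hKL
  have hal : Algebra.IsAlgebraic K Ω := Algebra.IsAlgebraic.tower_top (K := F) K
  have hcl : IsAlgClosure K Ω := ⟨inferInstance, hal⟩
  have hno : Normal K Ω := IsAlgClosure.normal K Ω
  have : Normal K (IntermediateField.extendScalars hKL) := by
    rw [IntermediateField.normal_iff_forall_map_le']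
    intro σ
    rintro y ⟨x, hx, rfl⟩
    have hx' : x ∈ L := IntermediateField.mem_extendScalars hKL |>.1 hx
    have h2 := hst (σ.restrictScalars F) (fun z => σ.commutes z) x hx'
    exact (IntermediateField.mem_extendScalars hKL).2 h2
  have : CharZero K := charZero_of_injective_algebraMap (algebraMap F K).injective
  exact { }

theorem S12_restr {K : IntermediateField F Ω} (L : IntermediateField K Ω) [Normal K L] (g : Ω ≃ₐ[F] Ω)
    (hg : g ∈ K.fixingSubgroup) : ∃ s : Gal(L/K), ∀ x : L, ((s x : L) : Ω) = g (x : Ω) :=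
  ⟨(S12_up g hg).restrictNormal L, fun x => (S12_up g hg).restrictNormal_commutes L x⟩

theorem S12_rank (M K : IntermediateField F Ω) (h : M ≤ K) :
    Module.finrank F M * Module.finrank M (IntermediateField.extendScalars h) = Module.finrank F K := by
  rw [Module.finrank_mul_finrank]
  rfl

theorem S12_normal (p : ℕ) (hp : p.Prime) {G : Type} [Group G] [Finite G] (H' H : Subgroup G) (j : ℕ)
    (h1 : Nat.card H' = p ^ j) (h2 : Nat.card H = p ^ (j + 1)) (hle : H' ≤ H) :
    (H'.subgroupOf H).Normal := by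
  have hp0 := hp.pos
  have hidx : (H'.subgroupOf H).index = p := by
    have h3 := Subgroup.card_mul_index (H'.subgroupOf H)
    have h4 : Nat.card (H'.subgroupOf H) = Nat.card H' :=
      Nat.card_congr (Subgroup.subgroupOfEquivOfLe hle).toEquiv
    rw [h4, h1, h2, pow_succ] at h3
    exact Nat.eq_of_mul_eq_mul_left (by positivity) h3
  apply Subgroup.normal_of_index_eq_minFac_card
  rw [hidx, h2, Nat.pow_minFac (by omega)]
  exact hp.minFac_eq.symm

theorem chain_step (p : ℕ) (hp : p.Prime) (M K L : IntermediateField F Ω) (hL : PExt p M L) (hMK : M ≤ K)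
    (hKL : K ≤ L) (hne : K ≠ M) : ∃ N : IntermediateField F Ω, M ≤ N ∧ N ≤ K ∧
      Module.finrank F K = Module.finrank F N * p ∧ ∀ s ∈ N.fixingSubgroup, ∀ x ∈ K, s x ∈ K := by
  have hfinL := hL.fin
  have hp0 := hp.pos
  have hp' := Fact.mk hp
  obtain ⟨k, hk⟩ := hL.deg
  have hfin := S12_fin M L hL.le
  have hgal := S12_galois M L hL.le hL.norm
  obtain ⟨L', hL'⟩ : ∃ L' : IntermediateField M Ω, L' = IntermediateField.extendScalars hL.le :=
    ⟨_, rfl⟩
  rw [← hL'] at hfin hgal
  have hmem : ∀ x : Ω, x ∈ L' ↔ x ∈ L := by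
    intro x
    rw [hL']
    exact Iff.rfl
  have hKL' : IntermediateField.extendScalars hMK ≤ L' := fun x hx => (hmem x).2 (hKL hx)
  obtain ⟨K', hK'⟩ : ∃ K' : IntermediateField M L', K' = IntermediateField.restrict hKL' :=
    ⟨_, rfl⟩
  have hmemK : ∀ x : L', x ∈ K' ↔ (x : Ω) ∈ K := by
    intro x
    rw [hK', IntermediateField.mem_restrict]
    exact Iff.rfl
  have hrk : Module.finrank F M * Module.finrank M K' = Module.finrank F K := by
    rw [← S12_rank M K hMK, hK',
      (IntermediateField.restrictAlgEquiv hKL').toLinearEquiv.finrank_eq]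
  have hrl : Module.finrank F M * Module.finrank M L' = Module.finrank F L := by
    rw [hL']
    exact S12_rank M L hL.le
  have hM0 : 0 < Module.finrank F M := by
    have : 0 < Module.finrank F L := Module.finrank_pos
    rw [← hrl] at this
    exact Nat.pos_of_mul_pos_right this
  have hLp : Module.finrank M L' = p ^ k := by
    rw [hk] at hrl
    exact Nat.eq_of_mul_eq_mul_left hM0 hrl
  have h2 : Module.finrank M K' * Module.finrank K' L' = p ^ k := by
    rw [Module.finrank_mul_finrank, hLp]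
  obtain ⟨j, hj, hj2⟩ := (Nat.dvd_prime_pow hp).1 (Dvd.intro_left _ h2 : Module.finrank K' L' ∣ p ^ k)
  have h3 : Nat.card K'.fixingSubgroup = p ^ j := by
    rw [IsGalois.card_fixingSubgroup_eq_finrank, hj2]
  have hcardG : Nat.card (L' ≃ₐ[M] L') = p ^ k := by
    rw [IsGalois.card_aut_eq_finrank, hLp]
  have hjk : j < k := by
    rcases lt_or_eq_of_le hj with h | h
    · exact h
    · exfalso
      apply hne
      rw [hj2, h] at h2
      have h5 : Module.finrank M K' = 1 := by
        have h4 : (0 : ℕ) < p ^ k := by positivity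
        exact Nat.eq_of_mul_eq_mul_right h4 (by rw [one_mul]; exact h2)
      have h6 : K' = ⊥ := IntermediateField.finrank_eq_one_iff.1 h5
      refine le_antisymm ?_ hMK
      intro x hx
      have h7 : (⟨x, hKL' hx⟩ : L') ∈ K' := (hmemK _).2 hx
      rw [h6, IntermediateField.mem_bot] at h7
      obtain ⟨y, hy⟩ := h7
      have h8 := congrArg (fun z : L' => (z : Ω)) hy
      have h9 : (y : Ω) = x := h8
      rw [← h9]
      exact y.2
  obtain ⟨H, hH, hle⟩ := Sylow.exists_subgroup_card_pow_succ (p := p) (G := L' ≃ₐ[M] L') (n := j)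
    (by rw [hcardG]; exact pow_dvd_pow p hjk) h3
  obtain ⟨N', hN'⟩ : ∃ N' : IntermediateField M L', N' = IntermediateField.fixedField H := ⟨_, rfl⟩
  have hNK : N' ≤ K' := by
    intro x hx
    rw [← IsGalois.fixedField_fixingSubgroup K', IntermediateField.mem_fixedField_iff]
    intro σ hσ
    rw [hN'] at hx
    exact (IntermediateField.mem_fixedField_iff H x).1 hx σ (hle hσ)
  have h6 : Module.finrank N' L' = p ^ (j + 1) := by
    rw [hN', IntermediateField.finrank_fixedField_eq_card, hH]
  have h7 : Module.finrank M N' * Module.finrank N' L' = p ^ k := by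
    rw [Module.finrank_mul_finrank, hLp]
  have h8 : Module.finrank M K' = Module.finrank M N' * p := by
    rw [hj2] at h2
    rw [h6, ← h2, pow_succ] at h7
    have h4 : (0 : ℕ) < p ^ j := by positivity
    refine Nat.eq_of_mul_eq_mul_right h4 ?_
    rw [← h7]
    ring
  obtain ⟨N, hN⟩ : ∃ N : IntermediateField F Ω,
      N = (IntermediateField.lift N').restrictScalars F := ⟨_, rfl⟩
  have hmemN : ∀ x : L', x ∈ N' ↔ (x : Ω) ∈ N := by
    intro x
    rw [hN, IntermediateField.mem_restrictScalars, IntermediateField.mem_lift]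
  have hMN : M ≤ N := by
    intro x hx
    rw [hN, IntermediateField.mem_restrictScalars]
    exact (IntermediateField.lift N').algebraMap_mem ⟨x, hx⟩
  have hNL : ∀ x ∈ N, x ∈ L' := by
    intro x hx
    rw [hN, IntermediateField.mem_restrictScalars] at hx
    exact IntermediateField.lift_le N' hx
  have hrn : Module.finrank F M * Module.finrank M N' = Module.finrank F N := by
    rw [← S12_rank M N hMN]
    congr 1
    rw [(IntermediateField.liftAlgEquiv N').toLinearEquiv.finrank_eq]
    have h9 : IntermediateField.lift N' = IntermediateField.extendScalars hMN := by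
      ext x
      rw [IntermediateField.mem_extendScalars, hN, IntermediateField.mem_restrictScalars]
    rw [h9]
  refine ⟨N, hMN, ?_, ?_, ?_⟩
  · intro x hx
    have h9 : (⟨x, hNL x hx⟩ : L') ∈ N' := (hmemN _).2 hx
    exact (hmemK _).1 (hNK h9)
  · rw [← hrk, ← hrn, h8, mul_assoc]
  · intro s hs x hx
    have hsM : s ∈ M.fixingSubgroup := by
      rw [IntermediateField.mem_fixingSubgroup_iff] at hs ⊢
      exact fun y hy => hs y (hMN hy)
    obtain ⟨t, ht⟩ := S12_restr L' s hsM
    have htH : t ∈ H := by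
      rw [← IntermediateField.fixingSubgroup_fixedField H, ← hN',
        IntermediateField.mem_fixingSubgroup_iff]
      intro y hy
      apply Subtype.ext
      rw [ht]
      rw [IntermediateField.mem_fixingSubgroup_iff] at hs
      exact hs _ ((hmemN y).1 hy)
    have hnorm := S12_normal p hp K'.fixingSubgroup H j h3 hH hle
    have hxL : x ∈ L' := hKL' hx
    have hxK : (⟨x, hxL⟩ : L') ∈ K' := (hmemK _).2 hx
    have hmem2 : t ⟨x, hxL⟩ ∈ K' := by
      rw [← IsGalois.fixedField_fixingSubgroup K', IntermediateField.mem_fixedField_iff]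
      intro τ hτ
      have h12 : (⟨τ, hle hτ⟩ : H) ∈ K'.fixingSubgroup.subgroupOf H := by
        rw [Subgroup.mem_subgroupOf]
        exact hτ
      have h13 := hnorm.conj_mem _ h12 (⟨t, htH⟩ : H)⁻¹
      rw [Subgroup.mem_subgroupOf] at h13
      have h14 : t⁻¹ * τ * t ∈ K'.fixingSubgroup := by
        simpa using h13
      have h15 : (t⁻¹ * τ * t) ⟨x, hxL⟩ = ⟨x, hxL⟩ :=
        (IntermediateField.mem_fixingSubgroup_iff K' _).1 h14 _ hxK
      have h16 : τ (t ⟨x, hxL⟩) = t ((t⁻¹ * τ * t) ⟨x, hxL⟩) := by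
        rw [← AlgEquiv.mul_apply, ← AlgEquiv.mul_apply]
        congr 1
        group
      rw [h16, h15]
    have h17 := (hmemK _).1 hmem2
    rw [ht] at h17
    exact h17

theorem chain_types (p : ℕ) (hp : p.Prime) (N K : IntermediateField F Ω) [FiniteDimensional F K]
    (hNK : N ≤ K) (hnorm : ∀ s ∈ N.fixingSubgroup, ∀ x ∈ K, s x ∈ K)
    (hdeg : Module.finrank F K = Module.finrank F N * p) :
    letI : Algebra N K := (IntermediateField.inclusion hNK).toRingHom.toAlgebra
    IsScalarTower F N K ∧ IsGalois N K ∧ Module.finrank N K = p := by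
  letI : Algebra N K := (IntermediateField.inclusion hNK).toRingHom.toAlgebra
  have ht : IsScalarTower F N K := IsScalarTower.of_algebraMap_eq fun x => rfl
  have hg := S12_galois N K hNK hnorm
  let E : (IntermediateField.extendScalars hNK) ≃ₐ[N] K :=
    { toFun := fun x => ⟨x.1, x.2⟩
      invFun := fun x => ⟨x.1, x.2⟩
      left_inv := fun _ => rfl
      right_inv := fun _ => rfl
      map_mul' := fun _ _ => rfl
      map_add' := fun _ _ => rfl
      commutes' := fun _ => rfl }
  refine ⟨ht, IsGalois.of_algEquiv E, ?_⟩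
  have h1 : Module.finrank F N * Module.finrank N K = Module.finrank F K :=
    Module.finrank_mul_finrank F N K
  rw [hdeg] at h1
  have h0 : 0 < Module.finrank F N := by
    have : 0 < Module.finrank F K := Module.finrank_pos
    rw [hdeg] at this
    exact Nat.pos_of_mul_pos_right this
  exact Nat.eq_of_mul_eq_mul_left h0 h1

/-- For every s in the group of M a power s^(p^k) fixes L. -/
theorem PExt.pow (p : ℕ) (hp : p.Prime) (M L : IntermediateField F Ω) (hL : PExt p M L) :
    ∃ k : ℕ, ∀ s ∈ M.fixingSubgroup, s ^ p ^ k ∈ L.fixingSubgroup := by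
  have hfinL := hL.fin
  obtain ⟨k, hk⟩ := hL.deg
  have hfin := S12_fin M L hL.le
  have hgal := S12_galois M L hL.le hL.norm
  have hrl := S12_rank M L hL.le
  have hM0 : 0 < Module.finrank F M := by
    have : 0 < Module.finrank F L := Module.finrank_pos
    rw [← hrl] at this
    exact Nat.pos_of_mul_pos_right this
  have hLp : Module.finrank M (IntermediateField.extendScalars hL.le) = p ^ k := by
    rw [hk] at hrl
    exact Nat.eq_of_mul_eq_mul_left hM0 hrl
  refine ⟨k, ?_⟩
  intro s hs
  obtain ⟨t, ht⟩ := S12_restr (IntermediateField.extendScalars hL.le) s hs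
  have hpow : ∀ (n : ℕ) (x : IntermediateField.extendScalars hL.le),
      (((t ^ n) x : IntermediateField.extendScalars hL.le) : Ω) = (s ^ n) (x : Ω) := by
    intro n
    induction n with
    | zero => intro x; rfl
    | succ n ih =>
      intro x
      rw [pow_succ, pow_succ, AlgEquiv.mul_apply, AlgEquiv.mul_apply, ih, ht]
  have h1 : t ^ p ^ k = 1 := by
    have h2 : Nat.card (IntermediateField.extendScalars hL.le ≃ₐ[M]
        IntermediateField.extendScalars hL.le) = p ^ k := by
      rw [IsGalois.card_aut_eq_finrank, hLp]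
    rw [← h2]
    exact pow_card_eq_one'
  rw [IntermediateField.mem_fixingSubgroup_iff]
  intro x hx
  have h3 := hpow (p ^ k) ⟨x, hx⟩
  rw [h1] at h3
  exact h3.symm

theorem PExt.conj (p : ℕ) (M L : IntermediateField F Ω) (hL : PExt p M L) (s : Ω ≃ₐ[F] Ω)
    (hs : s ∈ M.fixingSubgroup) (t : Ω ≃ₐ[F] Ω) (ht : t ∈ L.fixingSubgroup) :
    s * t * s⁻¹ ∈ L.fixingSubgroup := by
  rw [IntermediateField.mem_fixingSubgroup_iff] at ht ⊢
  intro x hx
  have h1 : s⁻¹ x ∈ L := hL.norm s⁻¹ (inv_mem hs) x hx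
  rw [AlgEquiv.mul_apply, AlgEquiv.mul_apply, ht _ h1]
  exact s.apply_symm_apply x

end H55P
end
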