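import Mathlib
import Pool.Agent.Lib.H1M.PP.D_H55B_Defs
import Pool.Agent.Lib.H1M.PP.D_H55P_Sel

/-! Merged copies (to shorten the build) of Lib.H13E.Q7, Lib.H13Y.GN5, Lib.H55W.S0, Lib.H55W.S1, Lib.H55W.S2, Lib.H55K.NA4, Lib.H55W.S3, Lib.H13Z.CZ4, Lib.H55K.NA3, Lib.H55C.Y32. -/

-- from Lib.H13E.Q7
section

namespace H13E

/-! Chunk Q7 (S, only Mathlib): uniqueness of the square root of an arithmetic function. Strong induction on n: (f * f) n = 2 f 1 f n + sum over the proper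
factorizations, which agree by induction; n = 0 is f 0 = 0. -/

theorem sqrt_unique {f g : ArithmeticFunction ℂ} (hf : f 1 = 1) (hg : g 1 = 1)
    (h : ∀ n, (f * f) n = (g * g) n) : f = g := by
  ext n
  induction n using Nat.strong_induction_on with
  | _ n ih =>
    by_cases h0 : n = 0
    · subst h0
      simp
    by_cases h1 : n = 1
    · rw [h1, hf, hg]
    have hn := h n
    rw [ArithmeticFunction.mul_apply, ArithmeticFunction.mul_apply] at hn
    have hmem1 : (1, n) ∈ n.divisorsAntidiagonal := by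
      simp [h0]
    have hmem2 : (n, 1) ∈ n.divisorsAntidiagonal.erase (1, n) := by
      rw [Finset.mem_erase]
      refine ⟨?_, by simp [h0]⟩
      intro h2
      exact h1 (congrArg Prod.fst h2)
    rw [← Finset.add_sum_erase _ _ hmem1, ← Finset.add_sum_erase _ _ hmem2,
      ← Finset.add_sum_erase _ (fun x : ℕ × ℕ => g x.1 * g x.2) hmem1,
      ← Finset.add_sum_erase _ (fun x : ℕ × ℕ => g x.1 * g x.2) hmem2] at hn
    have hrest : ∑ x ∈ (n.divisorsAntidiagonal.erase (1, n)).erase (n, 1), f x.1 * f x.2 =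
        ∑ x ∈ (n.divisorsAntidiagonal.erase (1, n)).erase (n, 1), g x.1 * g x.2 := by
      apply Finset.sum_congr rfl
      rintro ⟨a, b⟩ hx
      rw [Finset.mem_erase, Finset.mem_erase, Nat.mem_divisorsAntidiagonal] at hx
      obtain ⟨hx1, hx2, hx3, _⟩ := hx
      simp only at hx3
      have ha0 : a ≠ 0 := by
        rintro rfl
        simp at hx3
        exact h0 hx3.symm
      have hb0 : b ≠ 0 := by
        rintro rfl
        simp at hx3
        exact h0 hx3.symm
      have ha : a < n := by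
        rcases Nat.lt_or_ge 1 b with hb | hb
        · rw [← hx3]
          exact lt_mul_of_one_lt_right (Nat.pos_of_ne_zero ha0) hb
        · exfalso
          have hb1 : b = 1 := by omega
          subst hb1
          rw [mul_one] at hx3
          subst hx3
          exact hx1 rfl
      have hb : b < n := by
        rcases Nat.lt_or_ge 1 a with ha' | ha'
        · rw [← hx3]
          exact lt_mul_of_one_lt_left (Nat.pos_of_ne_zero hb0) ha'
        · exfalso
          have ha1 : a = 1 := by omega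
          subst ha1
          rw [one_mul] at hx3
          subst hx3
          exact hx2 rfl
      rw [ih a ha, ih b hb]
    rw [hrest, hf, hg] at hn
    linear_combination hn / 2

end H13E
end

-- from Lib.H13Y.GN5
section

open NumberField

namespace H13Y

theorem gn5_real {L : Type} [Field L] [NumberField L] (hc : ∀ w : InfinitePlace L, w.IsComplex)
    (b : InfinitePlace L → ℝ)
    (h : ∀ u : (𝓞 L)ˣ, ∑ w : InfinitePlace L, b w * Real.log (w ((u : 𝓞 L) : L)) = 0)
    (w w' : InfinitePlace L) : b w = b w' := by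
  classical
  obtain ⟨w₁, hw₁⟩ := Finite.exists_max b
  obtain ⟨u, hu⟩ := NumberField.Units.dirichletUnitTheorem.exists_unit L w₁
  have h0 : ∑ w : InfinitePlace L, Real.log (w ((u : 𝓞 L) : L)) = 0 := by
    have h1 := NumberField.Units.sum_mult_mul_log u
    have h2 : ∀ w : InfinitePlace L, (w.mult : ℝ) * Real.log (w ((u : 𝓞 L) : L)) = 2 * Real.log (w ((u : 𝓞 L) : L)) := by
      intro w
      rw [InfinitePlace.mult, if_neg (InfinitePlace.not_isReal_iff_isComplex.2 (hc w))]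
      norm_num
    simp only [h2] at h1
    rw [← Finset.mul_sum] at h1
    linarith
  have h3 : ∑ w : InfinitePlace L, (b w - b w₁) * Real.log (w ((u : 𝓞 L) : L)) = 0 := by
    simp only [sub_mul]
    rw [Finset.sum_sub_distrib, h u, ← Finset.mul_sum, h0]
    ring
  have h4 : ∀ w ∈ (Finset.univ : Finset (InfinitePlace L)), 0 ≤ (b w - b w₁) * Real.log (w ((u : 𝓞 L) : L)) := by
    intro w _
    by_cases e : w = w₁
    · rw [e, sub_self, zero_mul]
    · exact mul_nonneg_of_nonpos_of_nonpos (sub_nonpos.2 (hw₁ w)) (hu w e).le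
  have h5 : ∀ w, b w = b w₁ := by
    intro w
    by_cases e : w = w₁
    · rw [e]
    · have h6 := (Finset.sum_eq_zero_iff_of_nonneg h4).1 h3 w (Finset.mem_univ w)
      rcases mul_eq_zero.1 h6 with h7 | h7
      · linarith
      · exact absurd h7 (hu w e).ne
  rw [h5 w, h5 w']

/-- Chunk GN5 (S/M). The only relations between the logarithms of units. First b real: w₁ with b w₁ maximal (Finite (InfinitePlace L)), Mathlib NumberField.Units.dirichletUnitTheorem.exists_unit w₁: a unit u with log (w u) < 0 for all w ≠ w₁. Product formula for units (NumberField.InfinitePlace.prod_eq_abs_norm and Units.norm / sum_mult_mul_log; mult = 2 at complex places): sum over w of log (w u) = 0.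
So 0 = sum of b w log (w u) = sum over w ≠ w₁ of (b w - b w₁) log (w u), a sum of terms ≥ 0: all are 0 and b w = b w₁. For complex b take real and imaginary parts. -/
theorem dir_rel {L : Type} [Field L] [NumberField L] (hc : ∀ w : InfinitePlace L, w.IsComplex)
    (b : InfinitePlace L → ℂ)
    (h : ∀ u : (𝓞 L)ˣ, ∑ w : InfinitePlace L, b w * (Real.log (w ((u : 𝓞 L) : L)) : ℂ) = 0)
    (w w' : InfinitePlace L) : b w = b w' := by
  apply Complex.ext
  · refine gn5_real hc (fun w => (b w).re) (fun u => ?_) w w'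
    have h1 := congrArg Complex.re (h u)
    rw [Complex.re_sum] at h1
    simpa using h1
  · refine gn5_real hc (fun w => (b w).im) (fun u => ?_) w w'
    have h1 := congrArg Complex.im (h u)
    rw [Complex.im_sum] at h1
    simpa using h1

end H13Y
end

-- from Lib.H55W.S0
section

/-! # H55W, part S: power residue symbols over the integers of a number field (definitions) -/

open NumberField

namespace H55W

variable {F : Type} [Field F] [NumberField F]

open Classical in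
/-- The m-th power residue symbol at the prime ideal P (ζ a primitive m-th root of unity): the power of ζ congruent to
x^((N - 1)/m) modulo P, and 0 if there is none. -/
noncomputable def ps (m : ℕ) (ζ : 𝓞 F) (P : Ideal (𝓞 F)) (x : 𝓞 F) : 𝓞 F :=
  if h : ∃ i : ℕ, x ^ ((Ideal.absNorm P - 1) / m) - ζ ^ i ∈ P then ζ ^ h.choose else 0

/-- The product of the symbols over the prime factors of the ideal J. -/
noncomputable def pj (m : ℕ) (ζ : 𝓞 F) (J : Ideal (𝓞 F)) (x : 𝓞 F) : 𝓞 F :=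
  ((UniqueFactorizationMonoid.normalizedFactors J).map fun P => ps m ζ P x).prod

/-- P is a nonzero prime ideal which does not contain m, ζ is a primitive m-th root of unity, 2 ≤ m. -/
structure PP (m : ℕ) (ζ : 𝓞 F) (P : Ideal (𝓞 F)) : Prop where
  pr : P.IsPrime
  ne : P ≠ ⊥
  nm : (m : 𝓞 F) ∉ P
  root : IsPrimitiveRoot ζ m
  two : 2 ≤ m

/-- J is a nonzero ideal prime to m, ζ is a primitive m-th root of unity, 2 ≤ m. -/
structure PJ (m : ℕ) (ζ : 𝓞 F) (J : Ideal (𝓞 F)) : Prop where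
  ne : J ≠ ⊥
  cop : IsCoprime J (Ideal.span {(m : 𝓞 F)})
  root : IsPrimitiveRoot ζ m
  two : 2 ≤ m

end H55W
end

-- from Lib.H55W.S1
section

/-! # H55W, part S: power residue symbols -/

open NumberField

namespace H55W

variable {F : Type} [Field F] [NumberField F] {m : ℕ} {ζ : 𝓞 F} {P : Ideal (𝓞 F)}

/-- Chunk S1 (S). ζ^i is a unit. -/
theorem s1_unit (h : PP m ζ P) (i : ℕ) : ζ ^ i ∉ P := by
  intro hi
  have h1 : (ζ ^ i) ^ m ∈ P := P.pow_mem_of_mem hi m (by have := h.two; omega)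
  rw [← pow_mul, mul_comm, pow_mul, h.root.pow_eq_one, one_pow] at h1
  exact h.pr.ne_top ((Ideal.eq_top_iff_one P).2 h1)

theorem s1_one (h : PP m ζ P) {k : ℕ} (hk : 1 - ζ ^ k ∈ P) : ζ ^ k = 1 := by
  have hm := h.two
  rw [← pow_mod_orderOf, ← h.root.eq_orderOf] at hk ⊢
  set r := k % m with hr
  have hrm : r < m := Nat.mod_lt _ (by omega)
  rcases Nat.eq_zero_or_pos r with h0 | h0
  · rw [h0, pow_zero]
  · exfalso
    obtain ⟨n, rfl⟩ : ∃ n, m = n + 1 := ⟨m - 1, by omega⟩
    have h1 := h.root.prod_one_sub_pow_eq_order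
    apply h.nm
    have h2 : ((n + 1 : ℕ) : 𝓞 F) = ∏ k ∈ Finset.range n, (1 - ζ ^ (k + 1)) := by
      rw [h1]
      push_cast
      rfl
    rw [h2]
    refine Ideal.mem_of_dvd P (Finset.dvd_prod_of_mem (fun k => 1 - ζ ^ (k + 1)) (Finset.mem_range.2 (show r - 1 < n by omega))) ?_
    have h3 : r - 1 + 1 = r := by omega
    simp only [h3]
    exact hk

/-- Chunk S1 (S). Suppose ζ^i ≠ ζ^j. Then ζ^i - ζ^j = ζ^j (ζ^(i-j) - 1) up to sign (take i ≤ j or j ≤ i), with ζ^k ≠ 1, k reduced modulo m, 0 < k < m; the product of 1 - ζ^k over 0 < k < m is m: IsPrimitiveRoot.prod_one_sub_pow_eq_order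
(Mathlib.RingTheory.RootsOfUnity.Lemmas). So m is in P (a factor of the product is in P; ζ^j is a unit: ζ^m = 1): contradiction to h.nm. -/
theorem ps_inj (h : PP m ζ P) {i j : ℕ} (hij : ζ ^ i - ζ ^ j ∈ P) : ζ ^ i = ζ ^ j := by
  have key : ∀ i j : ℕ, i ≤ j → ζ ^ i - ζ ^ j ∈ P → ζ ^ i = ζ ^ j := by
    intro i j hle h1
    obtain ⟨k, rfl⟩ := Nat.exists_eq_add_of_le hle
    have h2 : ζ ^ i - ζ ^ (i + k) = ζ ^ i * (1 - ζ ^ k) := by ring
    rw [h2] at h1
    have h3 := (h.pr.mem_or_mem h1).resolve_left (s1_unit h i)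
    rw [pow_add, s1_one h h3, mul_one]
  rcases le_total i j with h1 | h1
  · exact key i j h1 hij
  · refine (key j i h1 ?_).symm
    have h2 : ζ ^ j - ζ ^ i = -(ζ ^ i - ζ ^ j) := by ring
    rw [h2]
    exact P.neg_mem hij

/-- Chunk S1 (S). ζ^i is a unit. -/
theorem ps_unit (h : PP m ζ P) (i : ℕ) : ζ ^ i ∉ P := s1_unit h i

/-- Fermat in the residue field, and its cardinality. -/
theorem s1_field (h : PP m ζ P) : 1 < Ideal.absNorm P ∧
    ∀ x : 𝓞 F, x ∉ P → (Ideal.Quotient.mk P x) ^ (Ideal.absNorm P - 1) = 1 := by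
  have hmax : P.IsMaximal := h.pr.isMaximal h.ne
  have hfin : Finite (𝓞 F ⧸ P) := Ideal.finiteQuotientOfFreeOfNeBot P h.ne
  let _ : Field (𝓞 F ⧸ P) := Ideal.Quotient.field P
  let _ : Fintype (𝓞 F ⧸ P) := Fintype.ofFinite _
  have hc : Ideal.absNorm P = Fintype.card (𝓞 F ⧸ P) := by
    rw [Ideal.absNorm_apply, Submodule.cardQuot_apply, Nat.card_eq_fintype_card]
  refine ⟨?_, fun x hx => ?_⟩
  · rw [hc]
    exact Fintype.one_lt_card
  · rw [hc]
    apply FiniteField.pow_card_sub_one_eq_one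
    intro h1
    exact hx (Ideal.Quotient.eq_zero_iff_mem.1 h1)

/-- Chunk S1 (S/M). k = 𝓞 F ⧸ P is a finite field (P is maximal: Ideal.IsPrime.isMaximal; Ideal.Quotient.field; finite: Ideal.finiteQuotientOfFreeOfNeBot or Ideal.fintypeQuotientOfFreeOfNeBot), with absNorm P elements (Ideal.absNorm_apply, Submodule.cardQuot_apply); the class of ζ has order exactly m in the unit group (ps_inj), so m divides the order N - 1 of the
unit group (orderOf_dvd_card); N - 1 > 0. -/
theorem ps_dvd (h : PP m ζ P) : m ∣ Ideal.absNorm P - 1 ∧ 0 < (Ideal.absNorm P - 1) / m ∧ 1 < Ideal.absNorm P := by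
  obtain ⟨h1, h2⟩ := s1_field h
  have hz : ζ ∉ P := by
    have h3 := s1_unit h 1
    rwa [pow_one] at h3
  have h3 := h2 ζ hz
  rw [← map_pow, ← map_one (Ideal.Quotient.mk P), Ideal.Quotient.eq] at h3
  have h4 : ζ ^ (Ideal.absNorm P - 1) = ζ ^ 0 := by
    apply ps_inj h
    rw [pow_zero]
    exact h3
  rw [pow_zero] at h4
  have h5 : m ∣ Ideal.absNorm P - 1 := h.root.dvd_of_pow_eq_one _ h4
  have hm := h.two
  refine ⟨h5, Nat.div_pos (Nat.le_of_dvd (by omega) h5) (by omega), h1⟩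

/-- Chunk S1 (S). x^(N-1) is 1 in the field 𝓞 F ⧸ P (FiniteField.pow_card_sub_one_eq_one). -/
theorem ps_fermat (h : PP m ζ P) {x : 𝓞 F} (hx : x ∉ P) : x ^ (Ideal.absNorm P - 1) - 1 ∈ P := by
  have h3 := (s1_field h).2 x hx
  rwa [← map_pow, ← map_one (Ideal.Quotient.mk P), Ideal.Quotient.eq] at h3

/-- Chunk S1 (S/M). w = x^((N-1)/m) satisfies w^m - 1 in P (ps_fermat, ps_dvd). X^m - 1 = product of (X - ζ^i) over i in range m (X_pow_sub_one_eq_prod, IsPrimitiveRoot.card_nthRoots..; or Polynomial.nthRoots; evaluate at w): the product is in P, so one factor is. -/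
theorem ps_ex (h : PP m ζ P) {x : 𝓞 F} (hx : x ∉ P) : ∃ i : ℕ, x ^ ((Ideal.absNorm P - 1) / m) - ζ ^ i ∈ P := by
  have hm := h.two
  set w := x ^ ((Ideal.absNorm P - 1) / m) with hw
  have h1 : w ^ m - 1 ∈ P := by
    have h2 := ps_fermat h hx
    rwa [hw, ← pow_mul, Nat.div_mul_cancel (ps_dvd h).1]
  have h2 := congrArg (Polynomial.eval w) (Polynomial.X_pow_sub_one_eq_prod (show 0 < m by omega) h.root)
  rw [Polynomial.eval_prod] at h2
  simp only [Polynomial.eval_sub, Polynomial.eval_pow, Polynomial.eval_X, Polynomial.eval_one, Polynomial.eval_C] at h2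
  rw [h2] at h1
  obtain ⟨η, hη, h3⟩ := (h.pr.prod_mem_iff).1 h1
  have h4 : η ^ m = 1 := (Polynomial.mem_nthRootsFinset (by omega) 1).1 hη
  have : NeZero m := ⟨by omega⟩
  obtain ⟨i, _, hi⟩ := h.root.eq_pow_of_pow_eq_one h4
  exact ⟨i, by rw [hi]; exact h3⟩

end H55W
end

-- from Lib.H55W.S2
section

/-! # H55W, part S: power residue symbols -/

open NumberField

namespace H55W

variable {F : Type} [Field F] [NumberField F] {m : ℕ} {ζ : 𝓞 F} {P : Ideal (𝓞 F)}

/-- Chunk S2 (S). ps_ex and the definition (dif_pos, choose_spec). -/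
theorem ps_spec (h : PP m ζ P) {x : 𝓞 F} (hx : x ∉ P) : (∃ i : ℕ, ps m ζ P x = ζ ^ i) ∧ x ^ ((Ideal.absNorm P - 1) / m) - ps m ζ P x ∈ P := by
  have h' := ps_ex h hx
  unfold ps
  rw [dif_pos h']
  exact ⟨⟨_, rfl⟩, h'.choose_spec⟩

/-- Chunk S2 (S). x is not in P (else ζ^i is: ps_unit; the exponent is positive: ps_dvd); ps_spec, ps_inj. -/
theorem ps_uniq (h : PP m ζ P) {x : 𝓞 F} {i : ℕ} (hi : x ^ ((Ideal.absNorm P - 1) / m) - ζ ^ i ∈ P) : ps m ζ P x = ζ ^ i := by
  have h' : ∃ i : ℕ, x ^ ((Ideal.absNorm P - 1) / m) - ζ ^ i ∈ P := ⟨i, hi⟩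
  unfold ps
  rw [dif_pos h']
  have h1 := P.sub_mem hi h'.choose_spec
  rw [sub_sub_sub_cancel_left] at h1
  exact ps_inj h h1

/-- Chunk S2 (S). The condition of the definition fails: ζ^i would be in P. -/
theorem ps_zero (h : PP m ζ P) {x : 𝓞 F} (hx : x ∈ P) : ps m ζ P x = 0 := by
  unfold ps
  rw [dif_neg]
  rintro ⟨i, hi⟩
  have h1 : x ^ ((Ideal.absNorm P - 1) / m) ∈ P := Ideal.pow_mem_of_mem P hx _ (ps_dvd h).2.1
  have h2 := P.sub_mem h1 hi
  rw [sub_sub_cancel] at h2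
  exact ps_unit h i h2

/-- Chunk S2 (S). Cases x in P, y in P (ps_zero); otherwise ps_uniq. -/
theorem ps_mul (h : PP m ζ P) (x y : 𝓞 F) : ps m ζ P (x * y) = ps m ζ P x * ps m ζ P y := by
  by_cases hx : x ∈ P
  · rw [ps_zero h (P.mul_mem_right y hx), ps_zero h hx, zero_mul]
  by_cases hy : y ∈ P
  · rw [ps_zero h (P.mul_mem_left x hy), ps_zero h hy, mul_zero]
  obtain ⟨⟨i, hi⟩, h1⟩ := ps_spec h hx
  obtain ⟨⟨j, hj⟩, h2⟩ := ps_spec h hy
  rw [hi] at h1 ⊢
  rw [hj] at h2 ⊢
  rw [← pow_add]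
  apply ps_uniq h
  have h3 : (x * y) ^ ((Ideal.absNorm P - 1) / m) - ζ ^ (i + j) = (x ^ ((Ideal.absNorm P - 1) / m) - ζ ^ i) * y ^ ((Ideal.absNorm P - 1) / m) +
      ζ ^ i * (y ^ ((Ideal.absNorm P - 1) / m) - ζ ^ j) := by
    rw [mul_pow, pow_add]
    ring
  rw [h3]
  exact P.add_mem (P.mul_mem_right _ h1) (P.mul_mem_left _ h2)

/-- Chunk S2 (S). ps_uniq, sub_dvd_pow_sub_pow; or ps_zero. -/
theorem ps_congr (h : PP m ζ P) {x y : 𝓞 F} (hxy : x - y ∈ P) : ps m ζ P x = ps m ζ P y := by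
  by_cases hx : x ∈ P
  · have hy : y ∈ P := by
      have := P.sub_mem hx hxy
      rwa [sub_sub_cancel] at this
    rw [ps_zero h hx, ps_zero h hy]
  · obtain ⟨⟨i, hi⟩, h1⟩ := ps_spec h hx
    rw [hi] at h1 ⊢
    symm
    apply ps_uniq h
    obtain ⟨c, hc⟩ := sub_dvd_pow_sub_pow x y ((Ideal.absNorm P - 1) / m)
    have h2 : x ^ ((Ideal.absNorm P - 1) / m) - y ^ ((Ideal.absNorm P - 1) / m) ∈ P := by
      rw [hc]
      exact P.mul_mem_right _ hxy
    have h3 := P.sub_mem h1 h2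
    have e : x ^ ((Ideal.absNorm P - 1) / m) - ζ ^ i - (x ^ ((Ideal.absNorm P - 1) / m) - y ^ ((Ideal.absNorm P - 1) / m)) =
        y ^ ((Ideal.absNorm P - 1) / m) - ζ ^ i := by ring
    rwa [e] at h3

/-- Chunk S2 (S). -/
theorem ps_one (h : PP m ζ P) : ps m ζ P 1 = 1 := by
  have h1 : ps m ζ P 1 = ζ ^ 0 := ps_uniq h (by
    rw [one_pow, pow_zero, sub_self]
    exact P.zero_mem)
  rw [h1, pow_zero]

/-- Chunk S2 (S). From ps_mul, ps_one, induction. -/
theorem ps_pow (h : PP m ζ P) (x : 𝓞 F) (n : ℕ) : ps m ζ P (x ^ n) = ps m ζ P x ^ n := by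
  induction n with
  | zero => rw [pow_zero, pow_zero, ps_one h]
  | succ n ih => rw [pow_succ, pow_succ, ps_mul h, ih]

/-- Chunk S2 (S). -/
theorem ps_root (h : PP m ζ P) {x : 𝓞 F} (hx : x ∉ P) : ps m ζ P x ^ m = 1 := by
  obtain ⟨⟨i, hi⟩, -⟩ := ps_spec h hx
  rw [hi, ← pow_mul, mul_comm, pow_mul, h.root.pow_eq_one, one_pow]

/-- Chunk S2 (S). ps_uniq with i = (N - 1)/m. -/
theorem ps_zeta (h : PP m ζ P) : ps m ζ P ζ = ζ ^ ((Ideal.absNorm P - 1) / m) := by
  apply ps_uniq h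
  rw [sub_self]
  exact P.zero_mem

omit [NumberField F] in
theorem s2_mem (P : Ideal (𝓞 F)) (e : 𝓞 F ≃+* 𝓞 F) (x : 𝓞 F) : e x ∈ P.map (e : 𝓞 F →+* 𝓞 F) ↔ x ∈ P := by
  constructor
  · intro h
    have h1 := (Ideal.mem_map_of_equiv e (e x)).1 h
    obtain ⟨y, hy, hxy⟩ := h1
    rwa [← e.injective hxy]
  · intro h
    exact Ideal.mem_map_of_mem _ h

theorem s2_norm (P : Ideal (𝓞 F)) (e : 𝓞 F ≃+* 𝓞 F) : Ideal.absNorm (P.map (e : 𝓞 F →+* 𝓞 F)) = Ideal.absNorm P := by
  rw [Ideal.absNorm_apply, Ideal.absNorm_apply, Submodule.cardQuot_apply, Submodule.cardQuot_apply]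
  exact Nat.card_congr (Ideal.quotientEquiv P (P.map (e : 𝓞 F →+* 𝓞 F)) e rfl).toEquiv.symm

theorem s2_pp (h : PP m ζ P) (e : 𝓞 F ≃+* 𝓞 F) : PP m (e ζ) (P.map (e : 𝓞 F →+* 𝓞 F)) := by
  have hp := h.pr
  refine ⟨?_, ?_, ?_, h.root.map_of_injective e.injective, h.two⟩
  · exact Ideal.map_isPrime_of_equiv e
  · intro h1
    apply h.ne
    rw [eq_bot_iff]
    intro x hx
    have h2 : e x ∈ P.map (e : 𝓞 F →+* 𝓞 F) := (s2_mem P e x).2 hx
    rw [h1, Ideal.mem_bot] at h2
    rw [Ideal.mem_bot]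
    exact (map_eq_zero_iff e e.injective).1 h2
  · intro h1
    apply h.nm
    rw [← s2_mem P e, map_natCast]
    exact h1

/-- Chunk S2 (S/M). e is an automorphism of the ring. absNorm (P.map e) = absNorm P (Ideal.absNorm_map or the quotients are isomorphic: Ideal.quotientEquiv, Nat.card_congr); x in P iff e x in P.map e (Ideal.mem_map_of_equiv or Ideal.map_comap_of_equiv). Both sides are 0 if x is in P; otherwise ps_uniq for P.map e and e ζ (a primitive m-th root, IsPrimitiveRoot.map_of_injective). -/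
theorem ps_map (h : PP m ζ P) (e : 𝓞 F ≃+* 𝓞 F) (x : 𝓞 F) : ps m (e ζ) (P.map (e : 𝓞 F →+* 𝓞 F)) (e x) = e (ps m ζ P x) := by
  have h' := s2_pp h e
  by_cases hx : x ∈ P
  · rw [ps_zero h hx, ps_zero h' ((s2_mem P e x).2 hx), map_zero]
  · obtain ⟨⟨i, hi⟩, h1⟩ := ps_spec h hx
    rw [hi] at h1 ⊢
    rw [map_pow]
    apply ps_uniq h'
    rw [s2_norm, ← map_pow, ← map_pow, ← map_sub, s2_mem]
    exact h1

/-- Chunk S2 (S/M). ζ' = ζ^(m-1) is the inverse of ζ, its powers are the powers of ζ: the symbol does not depend on the choice of ζ among the primitive roots. -/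
theorem ps_inv (h : PP m ζ P) {ζ' : 𝓞 F} (h' : ζ' * ζ = 1) (x : 𝓞 F) : ps m ζ' P x = ps m ζ P x := by
  have hm : ζ ^ (m - 1) * ζ = 1 := by
    rw [← pow_succ, Nat.sub_add_cancel (by have := h.two; omega), h.root.pow_eq_one]
  have hz0 : ζ ≠ 0 := by
    rintro rfl
    rw [mul_zero] at h'
    exact zero_ne_one h'
  have he : ζ' = ζ ^ (m - 1) := mul_right_cancel₀ hz0 (h'.trans hm.symm)
  have hr : IsPrimitiveRoot ζ' m := by
    rw [he]
    refine h.root.pow_of_coprime _ ?_
    have h2 := h.two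
    obtain ⟨k, rfl⟩ : ∃ k, m = k + 1 := ⟨m - 1, by omega⟩
    rw [Nat.add_sub_cancel]
    simp
  have h2 : PP m ζ' P := ⟨h.pr, h.ne, h.nm, hr, h.two⟩
  have he2 : ζ = ζ' ^ (m - 1) := by
    have h3 : ζ' ^ (m - 1) * ζ' = 1 := by
      rw [← pow_succ, Nat.sub_add_cancel (by have := h.two; omega), hr.pow_eq_one]
    have h4 : ζ' ≠ 0 := by
      rintro rfl
      rw [zero_mul] at h'
      exact zero_ne_one h'
    rw [mul_comm] at h'
    exact mul_right_cancel₀ h4 (h'.trans h3.symm)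
  by_cases hx : x ∈ P
  · rw [ps_zero h hx, ps_zero h2 hx]
  · obtain ⟨⟨i, hi⟩, h1⟩ := ps_spec h hx
    rw [hi] at h1 ⊢
    rw [he2, ← pow_mul] at h1 ⊢
    exact ps_uniq h2 h1

end H55W
end

-- from Lib.H55K.NA4
section

/-! # H55K, part N: wild inertia has order prime to p (V(p) = 1) -/

open NumberField IsDedekindDomain WeierstrassCurve

namespace H55K.NB

open H55P

variable {F : Type} [Field F] {Ω : Type} [Field Ω] [Algebra F Ω]

theorem nq_dec (V : ValuationSubring Ω) (s : Ω ≃ₐ[F] Ω) (hs : Inert V s) (x : Ω) : s x ∈ V ↔ x ∈ V := by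
  constructor
  · intro hx
    by_contra hcon
    have h1 : 1 < V.valuation x := by
      rw [← not_le, V.valuation_le_one_iff]
      exact hcon
    have x0 : V.valuation x ≠ 0 := (zero_lt_one.trans h1).ne'
    have h2 : V.valuation x⁻¹ < 1 := by
      rw [map_inv₀]
      exact inv_lt_one_of_one_lt₀ h1
    have h3 := hs x⁻¹ ((V.valuation_le_one_iff _).1 h2.le)
    have h4 : V.valuation (s x⁻¹) < 1 := by
      have h5 := V.valuation.map_add_lt h3 h2
      rwa [sub_add_cancel] at h5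
    rw [map_inv₀ s, map_inv₀] at h4
    have h6 : V.valuation (s x) ≤ 1 := (V.valuation_le_one_iff _).2 hx
    have hx0 : x ≠ 0 := by
      rintro rfl
      exact x0 (map_zero _)
    have h7 : V.valuation (s x) ≠ 0 := (V.valuation.ne_zero_iff).2 ((map_ne_zero s).2 hx0)
    exact absurd h4 (not_lt.2 ((one_le_inv₀ (zero_lt_iff.2 h7)).2 h6))
  · intro hx
    have h1 : s x - x ∈ V := (V.valuation_le_one_iff _).1 (hs x hx).le
    have h2 := V.add_mem _ _ h1 hx
    rwa [sub_add_cancel] at h2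

theorem nq_le (V : ValuationSubring Ω) (s : Ω ≃ₐ[F] Ω) (hs : Inert V s) (a b : Ω) (hb : b ≠ 0) :
    V.valuation (s a) ≤ V.valuation (s b) ↔ V.valuation a ≤ V.valuation b := by
  have h1 := nq_dec V s hs (a / b)
  have h2 : 0 < V.valuation b := zero_lt_iff.2 ((Valuation.ne_zero_iff _).2 hb)
  have h3 : 0 < V.valuation (s b) := zero_lt_iff.2 ((Valuation.ne_zero_iff _).2 ((map_ne_zero s).2 hb))
  rw [← V.valuation_le_one_iff, ← V.valuation_le_one_iff, map_div₀ s, map_div₀, map_div₀,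
    div_le_one₀ h3, div_le_one₀ h2] at h1
  exact h1

theorem nq_orb [Algebra.IsAlgebraic F Ω] (s : Ω ≃ₐ[F] Ω) (x : Ω) : ∃ n : ℕ, 0 < n ∧ (s ^ n) x = x := by
  have hx : IsIntegral F x := (Algebra.IsAlgebraic.isAlgebraic x).isIntegral
  have hroot : ∀ k : ℕ, (s ^ k) x ∈ (minpoly F x).rootSet Ω := by
    intro k
    rw [Polynomial.mem_rootSet]
    refine ⟨minpoly.ne_zero hx, ?_⟩
    have h1 := Polynomial.aeval_algHom_apply ((s ^ k : Ω ≃ₐ[F] Ω) : Ω →ₐ[F] Ω) x (minpoly F x)
    rw [minpoly.aeval, map_zero] at h1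
    exact h1
  obtain ⟨i, j, hij, he⟩ := Finite.exists_ne_map_eq_of_infinite
    (fun k : ℕ => (⟨(s ^ k) x, hroot k⟩ : (minpoly F x).rootSet Ω))
  have he' : (s ^ i) x = (s ^ j) x := congrArg Subtype.val he
  have key : ∀ i j : ℕ, i < j → (s ^ i) x = (s ^ j) x → ∃ n : ℕ, 0 < n ∧ (s ^ n) x = x := by
    intro i j hlt he
    refine ⟨j - i, by omega, ?_⟩
    apply (s ^ i).injective
    rw [← AlgEquiv.mul_apply, ← pow_add, he]
    congr 2
    omega
  rcases lt_or_gt_of_ne hij with h | h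
  · exact key i j h he'
  · exact key j i h he'.symm

theorem nq_val [Algebra.IsAlgebraic F Ω] (V : ValuationSubring Ω) (s : Ω ≃ₐ[F] Ω) (hs : Inert V s)
    (x : Ω) : V.valuation (s x) = V.valuation x := by
  by_cases hx : x = 0
  · rw [hx, map_zero]
  obtain ⟨n, hn, hnx⟩ := nq_orb s x
  have hne : ∀ k : ℕ, (s ^ k) x ≠ 0 := fun k => (map_ne_zero (s ^ k)).2 hx
  have hs1 : ∀ k : ℕ, (s ^ (k + 1)) x = s ((s ^ k) x) := fun k => by
    rw [pow_succ', AlgEquiv.mul_apply]
  have h0 : (s ^ 0) x = x := by rw [pow_zero]; rfl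
  rcases lt_trichotomy (V.valuation (s x)) (V.valuation x) with h | h | h
  · exfalso
    have hstep : ∀ k : ℕ, V.valuation ((s ^ (k + 1)) x) < V.valuation ((s ^ k) x) := by
      intro k
      induction k with
      | zero =>
        rw [hs1, h0]
        exact h
      | succ k ih =>
        rw [hs1 (k + 1)]
        conv_rhs => rw [hs1 k]
        rw [← not_le] at ih ⊢
        rwa [nq_le V s hs _ _ (hne _)]
    have h1 := strictAnti_nat_of_succ_lt (f := fun k => V.valuation ((s ^ k) x)) hstep hn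
    simp only [hnx, h0] at h1
    exact lt_irrefl _ h1
  · exact h
  · exfalso
    have hstep : ∀ k : ℕ, V.valuation ((s ^ k) x) < V.valuation ((s ^ (k + 1)) x) := by
      intro k
      induction k with
      | zero =>
        rw [hs1, h0]
        exact h
      | succ k ih =>
        rw [hs1 (k + 1)]
        conv_lhs => rw [hs1 k]
        rw [← not_le] at ih ⊢
        rwa [nq_le V s hs _ _ (hne _)]
    have h1 := strictMono_nat_of_lt_succ (f := fun k => V.valuation ((s ^ k) x)) hstep hn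
    simp only [hnx, h0] at h1
    exact lt_irrefl _ h1


/-- The element u acts trivially on the leading terms. -/
def Wild (V : ValuationSubring Ω) (u : Ω ≃ₐ[F] Ω) : Prop :=
  ∀ x : Ω, x ≠ 0 → V.valuation (u x - x) < V.valuation x

theorem na4_dec (V : ValuationSubring Ω) (s : Ω ≃ₐ[F] Ω) (hs : ∀ x, V.valuation (s x) = V.valuation x)
    {x y : Ω} (h : V.valuation x < V.valuation y) : V.valuation (s x) < V.valuation y := by
  rwa [hs]

/-- Commutators of inertia elements are wild. -/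
theorem wild_comm [Algebra.IsAlgebraic F Ω] (V : ValuationSubring Ω) (s t : Ω ≃ₐ[F] Ω) (hs : Inert V s)
    (ht : Inert V t) : Wild V (s * t * s⁻¹ * t⁻¹) := by
  have vs := nq_val V s hs
  have vt := nq_val V t ht
  intro x hx
  -- x = t s y
  obtain ⟨y, rfl⟩ : ∃ y, x = t (s y) := ⟨s⁻¹ (t⁻¹ x), by
    have h1 : s (s⁻¹ (t⁻¹ x)) = t⁻¹ x := s.apply_symm_apply _
    have h2 : t (t⁻¹ x) = x := t.apply_symm_apply _
    rw [h1, h2]⟩
  have hy : y ≠ 0 := by
    rintro rfl
    rw [map_zero, map_zero] at hx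
    exact hx rfl
  have e1 : (s * t * s⁻¹ * t⁻¹) (t (s y)) = s (t y) := by
    have h1 : t⁻¹ (t (s y)) = s y := t.symm_apply_apply _
    have h2 : s⁻¹ (s y) = y := s.symm_apply_apply _
    rw [AlgEquiv.mul_apply, AlgEquiv.mul_apply, AlgEquiv.mul_apply, h1, h2]
  rw [e1, vt, vs]
  have hvy : V.valuation y ≠ 0 := (V.valuation.ne_zero_iff).2 hy
  have hpos : (0 : V.ValueGroup) < V.valuation y := zero_lt_iff.2 hvy
  set a : Ω := s y / y with ha
  set b : Ω := t y / y with hb
  have hsy : s y = a * y := by rw [ha, div_mul_cancel₀ _ hy]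
  have hty : t y = b * y := by rw [hb, div_mul_cancel₀ _ hy]
  have hva : V.valuation a = 1 := by rw [ha, map_div₀, vs, div_self hvy]
  have hvb : V.valuation b = 1 := by rw [hb, map_div₀, vt, div_self hvy]
  have haV : a ∈ V := (V.valuation_le_one_iff a).1 hva.le
  have hbV : b ∈ V := (V.valuation_le_one_iff b).1 hvb.le
  have h1 : s (t y) - t (s y) = ((s b - b) * a - (t a - a) * b) * y := by
    rw [hty, hsy, map_mul, map_mul, hsy, hty]
    ring
  rw [h1, map_mul]
  have h2 : V.valuation ((s b - b) * a - (t a - a) * b) < 1 := by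
    refine Valuation.map_sub_lt _ ?_ ?_
    · rw [map_mul, hva, mul_one]
      exact hs b hbV
    · rw [map_mul, hvb, mul_one]
      exact ht a haV
  calc V.valuation ((s b - b) * a - (t a - a) * b) * V.valuation y < 1 * V.valuation y :=
        mul_lt_mul_of_pos_right h2 hpos
    _ = V.valuation y := one_mul _

theorem wild_val (V : ValuationSubring Ω) {u : Ω ≃ₐ[F] Ω} (hu : Wild V u) (x : Ω) :
    V.valuation (u x) = V.valuation x := by
  by_cases hx : x = 0
  · rw [hx, map_zero]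
  have h := hu x hx
  have e : u x = x + (u x - x) := by ring
  rw [e]
  exact Valuation.map_add_eq_of_lt_left _ h

theorem wild_pow (V : ValuationSubring Ω) {u : Ω ≃ₐ[F] Ω} (hu : Wild V u) (n : ℕ) : Wild V (u ^ n) := by
  induction n with
  | zero =>
    intro x hx
    rw [pow_zero, AlgEquiv.one_apply, sub_self, map_zero]
    exact zero_lt_iff.2 ((V.valuation.ne_zero_iff).2 hx)
  | succ n ih =>
    intro x hx
    have e : (u ^ (n + 1)) x - x = ((u ^ n) (u x) - u x) + (u x - x) := by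
      rw [pow_succ, AlgEquiv.mul_apply]
      ring
    rw [e]
    refine Valuation.map_add_lt _ ?_ (hu x hx)
    have h := ih (u x) ((map_ne_zero u).2 hx)
    rwa [wild_val V hu] at h

/-- A wild element whose m-th power fixes x fixes x, if V(m) = 1. -/
theorem wild_fix (V : ValuationSubring Ω) {u : Ω ≃ₐ[F] Ω} (hu : Wild V u) (m : ℕ)
    (hm : V.valuation (m : Ω) = 1) (x : Ω) (hx : (u ^ m) x = x) : u x = x := by
  by_contra hne
  set δ : Ω := u x - x with hδ
  have hδ0 : δ ≠ 0 := sub_ne_zero.2 hne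
  have h1 : ∀ k : ℕ, ∑ i ∈ Finset.range k, (u ^ i) δ = (u ^ k) x - x := by
    intro k
    induction k with
    | zero => rw [Finset.range_zero, Finset.sum_empty, pow_zero, AlgEquiv.one_apply, sub_self]
    | succ k ih =>
      rw [Finset.sum_range_succ, ih, hδ, map_sub, pow_succ, AlgEquiv.mul_apply]
      ring
  have h2 : ∀ k : ℕ, V.valuation (∑ i ∈ Finset.range k, ((u ^ i) δ - δ)) < V.valuation δ := by
    intro k
    induction k with
    | zero =>
      rw [Finset.range_zero, Finset.sum_empty, map_zero]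
      exact zero_lt_iff.2 ((V.valuation.ne_zero_iff).2 hδ0)
    | succ k ih =>
      rw [Finset.sum_range_succ]
      exact Valuation.map_add_lt _ ih (wild_pow V hu k δ hδ0)
  have h3 : ∑ i ∈ Finset.range m, ((u ^ i) δ - δ) = - ((m : Ω) * δ) := by
    rw [Finset.sum_sub_distrib, h1 m, hx, sub_self, Finset.sum_const, Finset.card_range, nsmul_eq_mul, zero_sub]
  have h4 := h2 m
  rw [h3, Valuation.map_neg, map_mul, hm, one_mul] at h4
  exact lt_irrefl _ h4

/-- A power of u fixes L, L finite. -/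
theorem pow_fix [Algebra.IsAlgebraic F Ω] (u : Ω ≃ₐ[F] Ω) (L : IntermediateField F Ω) [FiniteDimensional F L] :
    ∃ n : ℕ, 0 < n ∧ u ^ n ∈ L.fixingSubgroup := by
  classical
  let b := Module.finBasis F L
  have h1 : ∀ i, ∃ n : ℕ, 0 < n ∧ (u ^ n) ((b i : L) : Ω) = ((b i : L) : Ω) := fun i => nq_orb u _
  choose n hn hb using h1
  refine ⟨∏ i, n i, Finset.prod_pos fun i _ => hn i, ?_⟩
  have h2 : ∀ i, (u ^ ∏ i, n i) ((b i : L) : Ω) = ((b i : L) : Ω) := by
    intro i
    obtain ⟨k, hk⟩ : n i ∣ ∏ i, n i := Finset.dvd_prod_of_mem _ (Finset.mem_univ i)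
    rw [hk, pow_mul]
    have h3 : ∀ k : ℕ, ((u ^ n i) ^ k) ((b i : L) : Ω) = ((b i : L) : Ω) := by
      intro k
      induction k with
      | zero => rw [pow_zero, AlgEquiv.one_apply]
      | succ k ih => rw [pow_succ, AlgEquiv.mul_apply, hb, ih]
    exact h3 k
  rw [IntermediateField.mem_fixingSubgroup_iff]
  intro x hx
  have h4 : (⟨x, hx⟩ : L) = ∑ i, (b.repr ⟨x, hx⟩) i • b i := (b.sum_repr _).symm
  have h5 : x = ∑ i, (b.repr ⟨x, hx⟩) i • ((b i : L) : Ω) := by
    calc x = L.val ⟨x, hx⟩ := rfl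
      _ = L.val (∑ i, (b.repr ⟨x, hx⟩) i • b i) := by rw [← h4]
      _ = ∑ i, (b.repr ⟨x, hx⟩) i • ((b i : L) : Ω) := by
        rw [map_sum]
        exact Finset.sum_congr rfl fun i _ => map_smul _ _ _
  rw [h5, map_sum]
  refine Finset.sum_congr rfl fun i _ => ?_
  rw [map_smul, h2]

/-- A power of a wild element, with exponent prime to p, fixes L. -/
theorem wild_coprime [Algebra.IsAlgebraic F Ω] (V : ValuationSubring Ω) {u : Ω ≃ₐ[F] Ω} (hu : Wild V u) {p : ℕ}
    (hp : p.Prime) (hV : V.valuation (p : Ω) = 1) (L : IntermediateField F Ω) [FiniteDimensional F L] :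
    ∃ a : ℕ, ¬ p ∣ a ∧ u ^ a ∈ L.fixingSubgroup := by
  obtain ⟨n, hn, hfix⟩ := pow_fix u L
  obtain ⟨e, a, hpa, he⟩ := Nat.exists_eq_pow_mul_and_not_dvd hn.ne' p hp.ne_one
  refine ⟨a, hpa, ?_⟩
  rw [IntermediateField.mem_fixingSubgroup_iff] at hfix ⊢
  intro x hx
  refine wild_fix V (wild_pow V hu a) (p ^ e) ?_ x ?_
  · rw [Nat.cast_pow, map_pow, hV, one_pow]
  · rw [← pow_mul, mul_comm, ← he]
    exact hfix x hx

end H55K.NB
end

-- from Lib.H55W.S3
section

/-! # H55W, part S: the residue symbol as a multiplicative character -/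

open NumberField

namespace H55W

variable {F : Type} [Field F] [NumberField F] {m : ℕ} {ζ : 𝓞 F} {P : Ideal (𝓞 F)}

/-- Chunk S3 (S). 𝓞 F ⧸ P is isomorphic to k (RingHom.quotientKerEquivOfSurjective). -/
theorem card_k (k : Type) [Field k] [Fintype k] (φ : 𝓞 F →+* k) (hφ : Function.Surjective φ) (hker : RingHom.ker φ = P) :
    Fintype.card k = Ideal.absNorm P := by
  subst hker
  rw [Ideal.absNorm_apply, Submodule.cardQuot_apply, ← Nat.card_eq_fintype_card]
  exact Nat.card_congr (RingHom.quotientKerEquivOfSurjective hφ).toEquiv.symm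

/-- Chunk S3 (M). χ y = ps m ζ P (a lift of y) (Function.surjInv hφ; independent of the lift by ps_congr; MulChar with toFun, map_one', map_mul' (ps_mul, ps_congr), map_nonunit' (the only nonunit is 0: ps_zero)). χ^m = 1 (MulChar.ext: ps_root, MulChar.pow_apply'). orderOf χ = m: if χ^j = 1 with 0 < j < m, take y a generator of the cyclic unit group of k
(IsCyclic kˣ), x a lift: ps(x)^j = 1, so x^(j (N-1)/m) - 1 is in P (ps_spec, powers), so N - 1 divides j (N-1)/m < N - 1: contradiction (orderOf_dvd_iff_pow_eq_one). -/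
theorem exists_char (h : PP m ζ P) (k : Type) [Field k] [Fintype k] (φ : 𝓞 F →+* k) (hφ : Function.Surjective φ)
    (hker : RingHom.ker φ = P) : ∃ χ : MulChar k (𝓞 F), χ ^ m = 1 ∧ orderOf χ = m ∧ ∀ x : 𝓞 F, χ (φ x) = ps m ζ P x := by
  have hmem : ∀ x : 𝓞 F, φ x = 0 ↔ x ∈ P := by
    intro x
    rw [← hker]
    exact RingHom.mem_ker.symm
  have hs : ∀ y : k, φ (Function.surjInv hφ y) = y := Function.surjInv_eq hφ
  have hcg : ∀ x y : 𝓞 F, φ x = φ y → ps m ζ P x = ps m ζ P y := by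
    intro x y hxy
    apply ps_congr h
    rw [← hmem, map_sub, hxy, sub_self]
  let χ : MulChar k (𝓞 F) :=
    { toFun := fun y => ps m ζ P (Function.surjInv hφ y)
      map_one' := by
        rw [hcg _ 1 (by rw [hs, map_one]), ps_one h]
      map_mul' := fun y z => by
        rw [← ps_mul h]
        apply hcg
        rw [hs, map_mul, hs, hs]
      map_nonunit' := fun y hy => by
        have h0 : y = 0 := by
          by_contra h1
          exact hy (isUnit_iff_ne_zero.2 h1)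
        show ps m ζ P (Function.surjInv hφ y) = 0
        apply ps_zero h
        rw [← hmem, hs, h0] }
  have hχ : ∀ x : 𝓞 F, χ (φ x) = ps m ζ P x := by
    intro x
    show ps m ζ P (Function.surjInv hφ (φ x)) = ps m ζ P x
    apply hcg
    rw [hs]
  have hu : ∀ (a : kˣ) (x : 𝓞 F), φ x = (a : k) → x ∉ P := by
    intro a x hx hxP
    rw [← hmem, hx] at hxP
    exact a.ne_zero hxP
  have h1 : χ ^ m = 1 := by
    ext a
    obtain ⟨x, hx⟩ := hφ (a : k)
    rw [MulChar.pow_apply_coe, MulChar.one_apply_coe, ← hx, hχ, ps_root h (hu a x hx)]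
  refine ⟨χ, h1, Nat.dvd_antisymm (orderOf_dvd_of_pow_eq_one h1) ?_, hχ⟩
  obtain ⟨y, hy⟩ := IsCyclic.exists_generator (α := kˣ)
  obtain ⟨x, hx⟩ := hφ (y : k)
  have hxP := hu y x hx
  obtain ⟨-, h2⟩ := ps_spec h hxP
  have h3 : ps m ζ P x ^ orderOf χ = 1 := by
    have h4 : (χ ^ orderOf χ) (y : k) = 1 := by rw [pow_orderOf_eq_one, MulChar.one_apply_coe]
    rw [MulChar.pow_apply_coe, ← hx, hχ] at h4
    exact h4
  obtain ⟨hd1, hd2, hd3⟩ := ps_dvd h
  have h5 : x ^ ((Ideal.absNorm P - 1) / m * orderOf χ) - 1 ∈ P := by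
    rw [← h3, pow_mul]
    obtain ⟨c, hc⟩ := sub_dvd_pow_sub_pow (x ^ ((Ideal.absNorm P - 1) / m)) (ps m ζ P x) (orderOf χ)
    rw [hc]
    exact P.mul_mem_right _ h2
  have h6 : y ^ ((Ideal.absNorm P - 1) / m * orderOf χ) = 1 := by
    apply Units.ext
    rw [Units.val_pow_eq_pow_val, Units.val_one, ← hx, ← map_pow, ← sub_eq_zero, ← map_one φ, ← map_sub, hmem]
    exact h5
  have h7 : orderOf y = Ideal.absNorm P - 1 := by
    rw [orderOf_eq_card_of_forall_mem_zpowers hy, Nat.card_units, Nat.card_eq_fintype_card, card_k k φ hφ hker]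
  have h8 := orderOf_dvd_of_pow_eq_one h6
  rw [h7] at h8
  have h9 : (Ideal.absNorm P - 1) / m * m ∣ (Ideal.absNorm P - 1) / m * orderOf χ := by
    rw [Nat.div_mul_cancel hd1]
    exact h8
  exact (Nat.mul_dvd_mul_iff_left hd2).1 h9

end H55W
end

-- from Lib.H13Z.CZ4
section

namespace H13Z

/-- Chunk CZ4 (M), pure group theory: extension of a cocycle from a normal subgroup N of finite index prime to l. Corestriction: choose representatives r q of the left cosets (q in G/N, s r q = r (s q) n(s, q), n(s, q) in N; Quotient.out). cor(s) = sum over q of a (r (s q)) (c₀ (n(s, q))).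
It is a cocycle: n(s t, q) = n(s, t q) n(t, q). For s in N: s q = q (N normal), n(s, q) = (r q)⁻¹ s (r q), so cor s = sum of a (r q) (c₀ ((r q)⁻¹ s (r q))) = index c₀ s + a s X - X, X = sum of the X_(r q) (hconj). c = u cor with u index = 1 modulo l (hl: values in B, killed by l).
If U is normal in G, contained in N, c₀ = 0 on U and U acts trivially on B then c = 0 on U. (Lib/H16C/C1, C2 contain a corestriction; look whether they can be used.) -/
theorem ext_cocycle {G M : Type} [Group G] [AddCommGroup M] (a : G → M →+ M)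
    (ha1 : ∀ m, a 1 m = m) (ha : ∀ s t m, a (s * t) m = a s (a t m)) (B : AddSubgroup M)
    (haB : ∀ g, ∀ m ∈ B, a g m ∈ B) (l : ℕ) (hl : ∀ m ∈ B, l • m = 0) (N : Subgroup G) [N.Normal]
    (hN : N.index ≠ 0) (hlN : l.Coprime N.index) (c₀ : G → M) (hB : ∀ s ∈ N, c₀ s ∈ B)
    (hc : ∀ s ∈ N, ∀ t ∈ N, c₀ (s * t) = c₀ s + a s (c₀ t))
    (hconj : ∀ g, ∃ X ∈ B, ∀ s ∈ N, a g (c₀ (g⁻¹ * s * g)) = c₀ s + a s X - X) :
    ∃ c : G → M, (∀ s, c s ∈ B) ∧ (∀ s t, c (s * t) = c s + a s (c t)) ∧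
      (∃ X ∈ B, ∀ s ∈ N, c s = c₀ s + a s X - X) ∧
      ∀ U : Subgroup G, U.Normal → U ≤ N → (∀ s ∈ U, c₀ s = 0) → (∀ s ∈ U, ∀ m ∈ B, a s m = m) →
        ∀ s ∈ U, c s = 0 := by
  classical
  have : Fintype (G ⧸ N) := Subgroup.fintypeOfIndexNeZero hN
  have hcard : Fintype.card (G ⧸ N) = N.index := by
    rw [Subgroup.index, Nat.card_eq_fintype_card]
  obtain ⟨r, hr⟩ : ∃ r : G ⧸ N → G, ∀ q, ((r q : G) : G ⧸ N) = q :=
    ⟨Quotient.out, fun q => Quotient.out_eq' q⟩
  obtain ⟨n, hn⟩ : ∃ n : G → G ⧸ N → G, ∀ s q, n s q = (r ((s : G ⧸ N) * q))⁻¹ * s * r q :=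
    ⟨fun s q => (r ((s : G ⧸ N) * q))⁻¹ * s * r q, fun _ _ => rfl⟩
  have hnN : ∀ s q, n s q ∈ N := by
    intro s q
    rw [hn, ← QuotientGroup.eq_one_iff]
    simp [hr]
  have hnr : ∀ (s : G) (q : G ⧸ N), r ((s : G ⧸ N) * q) * n s q = s * r q := by
    intro s q
    rw [hn]; group
  have hnm : ∀ (s t : G) (q : G ⧸ N), n (s * t) q = n s ((t : G ⧸ N) * q) * n t q := by
    intro s t q
    rw [hn, hn, hn]
    have : (((s * t : G) : G ⧸ N)) * q = (s : G ⧸ N) * ((t : G ⧸ N) * q) := by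
      rw [QuotientGroup.mk_mul, mul_assoc]
    rw [this]; group
  let cor : G → M := fun s => ∑ q : G ⧸ N, a (r ((s : G ⧸ N) * q)) (c₀ (n s q))
  have hcorB : ∀ s, cor s ∈ B := fun s => AddSubgroup.sum_mem _ fun q _ =>
    haB _ _ (hB _ (hnN s q))
  have hcor : ∀ s t, cor (s * t) = cor s + a s (cor t) := by
    intro s t
    have h1 : cor s = ∑ q : G ⧸ N, a (r ((s : G ⧸ N) * ((t : G ⧸ N) * q)))
        (c₀ (n s ((t : G ⧸ N) * q))) := by
      exact (Equiv.sum_comp (Equiv.mulLeft (t : G ⧸ N))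
        (fun q => a (r ((s : G ⧸ N) * q)) (c₀ (n s q)))).symm
    have h2 : a s (cor t) = ∑ q : G ⧸ N, a s (a (r ((t : G ⧸ N) * q)) (c₀ (n t q))) :=
      map_sum _ _ _
    rw [h1, h2, ← Finset.sum_add_distrib]
    refine Finset.sum_congr rfl fun q _ => ?_
    rw [hnm, hc _ (hnN _ _) _ (hnN _ _), map_add]
    have h3 : (((s * t : G) : G ⧸ N)) * q = (s : G ⧸ N) * ((t : G ⧸ N) * q) := by
      rw [QuotientGroup.mk_mul, mul_assoc]
    rw [h3]
    congr 1
    rw [← ha, hnr, ha]
  have hs1 : ∀ s ∈ N, ∀ q : G ⧸ N, (s : G ⧸ N) * q = q := by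
    intro s hs q
    rw [(QuotientGroup.eq_one_iff s).2 hs, one_mul]
  choose X hXB hX using hconj
  have hcorN : ∀ s ∈ N, cor s = (N.index : ℤ) • c₀ s +
      a s (∑ q : G ⧸ N, X (r q)) - ∑ q : G ⧸ N, X (r q) := by
    intro s hs
    have h1 : cor s = ∑ q : G ⧸ N, (c₀ s + a s (X (r q)) - X (r q)) := by
      refine Finset.sum_congr rfl fun q _ => ?_
      rw [hn, hs1 s hs q, hX (r q) s hs]
    rw [h1, Finset.sum_sub_distrib, Finset.sum_add_distrib, Finset.sum_const, map_sum,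
      Finset.card_univ, hcard, natCast_zsmul]
  obtain ⟨u, v, huv⟩ := Nat.isCoprime_iff_coprime.2 hlN
  have hu : ∀ m ∈ B, v • ((N.index : ℤ) • m) = m := by
    intro m hm
    have h1 : u • ((l : ℤ) • m) = 0 := by rw [natCast_zsmul, hl m hm, smul_zero]
    calc v • ((N.index : ℤ) • m) = u • ((l : ℤ) • m) + v • ((N.index : ℤ) • m) := by
          rw [h1, zero_add]
      _ = (u * l + v * N.index) • m := by rw [add_smul, mul_smul, mul_smul]
      _ = m := by rw [huv, one_smul]
  refine ⟨fun s => v • cor s, fun s => AddSubgroup.zsmul_mem _ (hcorB s) _, fun s t => ?_,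
    ⟨v • ∑ q : G ⧸ N, X (r q), AddSubgroup.zsmul_mem _ (AddSubgroup.sum_mem _ fun q _ => hXB _) _,
      fun s hs => ?_⟩, fun U hU hUN hc0 _ s hs => ?_⟩
  · show v • cor (s * t) = v • cor s + a s (v • cor t)
    rw [hcor, smul_add, map_zsmul]
  · show v • cor s = _
    rw [hcorN s hs, smul_sub, smul_add, hu _ (hB s hs), map_zsmul]
  · show v • cor s = 0
    have : cor s = 0 := by
      refine Finset.sum_eq_zero fun q _ => ?_
      rw [hn, hs1 s (hUN hs) q]
      have h1 : (r q)⁻¹ * s * r q ∈ U := by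
        have := hU.conj_mem s hs (r q)⁻¹
        simpa using this
      rw [hc0 _ h1, map_zero]
    rw [this, smul_zero]

end H13Z
end

-- from Lib.H55K.NA3
section

/-! # H55K, part N: Sah's lemma for a commuting action without fixed points (pure algebra) -/

namespace H55K.NB

/-- Commutative algebra: an ideal without nonzero killed elements in a finite module contains an element acting as 1. -/
theorem na3_one {R A : Type*} [CommRing R] [AddCommGroup A] [Module R A] [Finite A] (J : Ideal R)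
    (h0 : ∀ x : A, (∀ j ∈ J, j • x = 0) → x = 0) : ∃ j ∈ J, ∀ x : A, j • x = x := by
  -- the decreasing chain J^k A is stationary
  have hanti : Antitone fun k : ℕ => (J ^ k • (⊤ : Submodule R A)) := by
    intro a b hab
    exact Submodule.smul_mono_left (Ideal.pow_le_pow_right hab)
  have hfinS : Finite (Submodule R A) := Finite.of_injective (fun N : Submodule R A => (N : Set A)) SetLike.coe_injective
  obtain ⟨k, hk⟩ : ∃ k : ℕ, (J ^ k • (⊤ : Submodule R A)) = J ^ (k + 1) • ⊤ := by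
    obtain ⟨a, b, hab, he⟩ := Finite.exists_ne_map_eq_of_infinite fun k : ℕ => (J ^ k • (⊤ : Submodule R A))
    have key : ∀ a b : ℕ, a < b → J ^ a • (⊤ : Submodule R A) = J ^ b • ⊤ →
        J ^ a • (⊤ : Submodule R A) = J ^ (a + 1) • ⊤ :=
      fun a b hab he => le_antisymm (he.le.trans (hanti (Nat.succ_le_of_lt hab))) (hanti (Nat.le_succ a))
    rcases lt_or_gt_of_ne hab with h | h
    · exact ⟨a, key a b h he⟩
    · exact ⟨b, key b a h he.symm⟩
  set B : Submodule R A := J ^ k • (⊤ : Submodule R A) with hB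
  have hBfg : B.FG := (Submodule.fg_def).2 ⟨(B : Set A), Set.toFinite _, Submodule.span_eq B⟩
  have hle : B ≤ J • B := by
    rw [hB, ← mul_smul, ← pow_succ', ← hk]
  obtain ⟨r, hr1, hr2⟩ := Submodule.exists_sub_one_mem_and_smul_eq_zero_of_fg_of_le_smul J B hBfg hle
  have hkill : ∀ (i : ℕ) (y : A), (∀ a ∈ J ^ i, a • y = 0) → y = 0 := by
    intro i
    induction i with
    | zero =>
      intro y hy
      have := hy 1 (by rw [pow_zero, Ideal.one_eq_top]; exact Submodule.mem_top)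
      rwa [one_smul] at this
    | succ i ih =>
      intro y hy
      apply ih
      intro a ha
      apply h0
      intro j hj
      rw [← mul_smul]
      exact hy _ (by rw [pow_succ']; exact Ideal.mul_mem_mul hj ha)
  refine ⟨1 - r, by rw [← neg_sub]; exact J.neg_mem hr1, fun x => ?_⟩
  rw [sub_smul, one_smul, sub_eq_self]
  apply hkill k
  intro a ha
  rw [← mul_smul, mul_comm, mul_smul]
  exact hr2 _ (Submodule.smul_mem_smul ha Submodule.mem_top)

variable {G M : Type} [Group G] [AddCommGroup M]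

/-- Sah's lemma. -/
theorem sah (ρ : G →* AddMonoid.End M) (p : ℕ) (hfin : {T : M | p • T = 0}.Finite) (I : Subgroup G)
    (hcomm : ∀ s ∈ I, ∀ t ∈ I, ∀ T : M, p • T = 0 → ρ s (ρ t T) = ρ t (ρ s T))
    (h0 : ∀ T : M, p • T = 0 → (∀ s ∈ I, ρ s T = T) → T = 0) (c : G → M)
    (hc : ∀ s ∈ I, ∀ t ∈ I, c (s * t) = c s + ρ s (c t)) (hpc : ∀ s ∈ I, p • c s = 0)
    (hk : ∀ s ∈ I, ∀ t ∈ I, c (s * t * s⁻¹ * t⁻¹) = 0) :
    ∃ P : M, p • P = 0 ∧ ∀ s ∈ I, c s = ρ s P - P := by
  classical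
  have hMul : ∀ (a b : G) (x : M), ρ (a * b) x = ρ a (ρ b x) := by
    intro a b x
    rw [map_mul]
    rfl
  have hone : ∀ x : M, ρ 1 x = x := fun x => by rw [map_one]; rfl
  let A : AddSubgroup M :=
    { carrier := {T | p • T = 0}
      add_mem' := fun {a b} ha hb => by
        change p • (a + b) = 0
        rw [smul_add, show p • a = 0 from ha, show p • b = 0 from hb, add_zero]
      zero_mem' := smul_zero p
      neg_mem' := fun {a} ha => by
        change p • (-a) = 0
        rw [smul_neg, show p • a = 0 from ha, neg_zero] }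
  have : Finite A := hfin.to_subtype
  have hA : ∀ (g : G) (x : A), p • ρ g (x : M) = 0 := by
    intro g x
    rw [← map_nsmul, show p • (x : M) = 0 from x.2, map_zero]
  let ψ : G → AddMonoid.End A := fun g =>
    { toFun := fun x => ⟨ρ g x, hA g x⟩
      map_zero' := Subtype.ext (map_zero (ρ g))
      map_add' := fun x y => Subtype.ext (map_add (ρ g) _ _) }
  have hψ : ∀ g (x : A), ((ψ g x : A) : M) = ρ g x := fun _ _ => rfl
  let S : Set (AddMonoid.End A) := ψ '' (I : Set G)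
  have hS : ∀ x ∈ S, ∀ y ∈ S, x * y = y * x := by
    rintro _ ⟨s, hs, rfl⟩ _ ⟨t, ht, rfl⟩
    ext x
    exact hcomm s hs t ht x x.2
  let _ : CommRing (Subring.closure S) := Subring.closureCommRingOfComm hS
  let e : G → Subring.closure S := fun g => if h : g ∈ I then ⟨ψ g, Subring.subset_closure ⟨g, h, rfl⟩⟩ else 0
  have he : ∀ g ∈ I, ∀ x : A, e g • x = ψ g x := by
    intro g hg x
    have : e g = ⟨ψ g, Subring.subset_closure ⟨g, hg, rfl⟩⟩ := dif_pos hg
    rw [this]
    rfl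
  let J : Ideal (Subring.closure S) := Ideal.span {a | ∃ g ∈ I, a = e g - 1}
  have hJ0 : ∀ x : A, (∀ j ∈ J, j • x = 0) → x = 0 := by
    intro x hx
    apply Subtype.ext
    apply h0 _ x.2
    intro s hs
    have h1 := hx (e s - 1) (Ideal.subset_span ⟨s, hs, rfl⟩)
    rw [sub_smul, one_smul, he s hs, sub_eq_zero] at h1
    rw [← hψ, h1]
  obtain ⟨j, hjJ, hj⟩ := na3_one J hJ0
  -- the elements of J act on the class of c by zero
  let cA : G → A := fun g => if h : g ∈ I then ⟨c g, hpc g h⟩ else 0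
  have hcA : ∀ g ∈ I, ((cA g : A) : M) = c g := by
    intro g hg
    have : cA g = ⟨c g, hpc g hg⟩ := dif_pos hg
    rw [this]
  have key : ∀ a ∈ J, ∃ P : A, ∀ t ∈ I, a • cA t = (e t - 1) • P := by
    intro a ha
    refine Submodule.span_induction ?_ ?_ ?_ ?_ ha
    · rintro _ ⟨g, hg, rfl⟩
      refine ⟨cA g, fun t ht => ?_⟩
      have q1 : (e g - 1) • cA t = ψ g (cA t) - cA t := by
        rw [← he g hg, sub_smul, one_smul]
      have q2 : (e t - 1) • cA g = ψ t (cA g) - cA g := by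
        rw [← he t ht, sub_smul, one_smul]
      rw [q1, q2]
      apply Subtype.ext
      rw [AddSubgroup.coe_sub, AddSubgroup.coe_sub, hψ, hψ, hcA t ht, hcA g hg]
      have h1 : c (g * t) = c g + ρ g (c t) := hc g hg t ht
      have h2 : c (t * g) = c t + ρ t (c g) := hc t ht g hg
      have h3 : c (g * t) = c (t * g) := by
        have e1 : g * t = (g * t * g⁻¹ * t⁻¹) * (t * g) := by group
        have hm : g * t * g⁻¹ * t⁻¹ ∈ I :=
          I.mul_mem (I.mul_mem (I.mul_mem hg ht) (I.inv_mem hg)) (I.inv_mem ht)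
        have hx := hpc _ (I.mul_mem ht hg)
        have e2 : ρ (g * t * g⁻¹ * t⁻¹) (c (t * g)) = c (t * g) := by
          rw [hMul, hMul, hMul]
          have q1 : p • ρ t⁻¹ (c (t * g)) = 0 := by rw [← map_nsmul, hx, map_zero]
          rw [hcomm g hg t ht _ (by rw [← map_nsmul, q1, map_zero]), ← hMul g g⁻¹, mul_inv_cancel, hone, ← hMul,
            mul_inv_cancel, hone]
        calc c (g * t) = c ((g * t * g⁻¹ * t⁻¹) * (t * g)) := by rw [← e1]
          _ = c (g * t * g⁻¹ * t⁻¹) + ρ (g * t * g⁻¹ * t⁻¹) (c (t * g)) := hc _ hm _ (I.mul_mem ht hg)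
          _ = c (t * g) := by rw [hk g hg t ht, zero_add, e2]
      rw [h1, h2] at h3
      rw [sub_eq_sub_iff_add_eq_add, add_comm (ρ g (c t)), h3, add_comm]
    · exact ⟨0, fun t _ => by rw [zero_smul, smul_zero]⟩
    · rintro a b _ _ ⟨P, hP⟩ ⟨Q, hQ⟩
      exact ⟨P + Q, fun t ht => by rw [add_smul, hP t ht, hQ t ht, smul_add]⟩
    · rintro r a _ ⟨P, hP⟩
      refine ⟨r • P, fun t ht => ?_⟩
      rw [smul_assoc, hP t ht, ← mul_smul, ← mul_smul, mul_comm]
  obtain ⟨P, hP⟩ := key j hjJ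
  refine ⟨P, P.2, fun s hs => ?_⟩
  have h1 := hP s hs
  rw [hj, sub_smul, one_smul, he s hs] at h1
  have h2 := congrArg Subtype.val h1
  rw [hcA s hs] at h2
  rw [h2]
  rfl

end H55K.NB
end

-- from Lib.H55C.Y32
section

open NumberField IsDedekindDomain

namespace H55C

open H55B

/-! Chunk Y32: inertia groups and Frobenius elements. -/

theorem Y32_card {K : Type} [Field K] [NumberField K] [Algebra F K] [IsGalois F K]
    (w : HeightOneSpectrum (𝓞 K)) :
    Nat.card (w.asIdeal.inertia (K ≃ₐ[F] K)) = w.asIdeal.ramificationIdx O := by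
  have hwm := w.isMaximal
  have hwp := w.isPrime
  have hp : (w.asIdeal.under O).IsPrime := inferInstance
  have hne : w.asIdeal.under O ≠ ⊥ := by
    intro h
    exact w.ne_bot (Ideal.eq_bot_of_comap_eq_bot (R := O) (I := w.asIdeal) h)
  let v : HeightOneSpectrum O := ⟨w.asIdeal.under O, hp, hne⟩
  have hvm := v.isMaximal
  have hl : w.asIdeal.LiesOver v.asIdeal := ⟨rfl⟩
  rw [Ideal.card_inertia_eq_ramificationIdxIn (G := K ≃ₐ[F] K) v.asIdeal w.asIdeal,
    Ideal.ramificationIdxIn_eq_ramificationIdx v.asIdeal w.asIdeal (K ≃ₐ[F] K)]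

/-- The inertia group is trivial if and only if the ramification index is 1
(Ideal.card_inertia_eq_ramificationIdxIn with ramificationIdxIn_eq_ramificationIdx, compare H55B.G5.val_three). -/
theorem inertia_iff {K : Type} [Field K] [NumberField K] [Algebra F K] [IsGalois F K]
    (w : HeightOneSpectrum (𝓞 K)) : w.asIdeal.ramificationIdx O = 1 ↔
      ∀ g : K ≃ₐ[F] K, (∀ y : 𝓞 K, g • y - y ∈ w.asIdeal) → g = 1 := by
  rw [← Y32_card w, Subgroup.card_eq_one, Subgroup.eq_bot_iff_forall]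
  rfl

/-- Frobenius elements at unramified primes are unique: with y = h⁻¹ • z, (g h⁻¹) • z - z = g • y - h • y is in w. -/
theorem frob_uniq {K : Type} [Field K] [NumberField K] [Algebra F K] [IsGalois F K]
    (w : HeightOneSpectrum (𝓞 K)) (h1 : w.asIdeal.ramificationIdx O = 1) (g h : K ≃ₐ[F] K) (q : ℕ)
    (hg : ∀ y : 𝓞 K, g • y - y ^ q ∈ w.asIdeal) (hh : ∀ y : 𝓞 K, h • y - y ^ q ∈ w.asIdeal) : g = h := by
  have h2 : g * h⁻¹ = 1 := by
    apply (inertia_iff w).1 h1
    intro z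
    have h3 := w.asIdeal.sub_mem (hg (h⁻¹ • z)) (hh (h⁻¹ • z))
    rw [smul_inv_smul, ← mul_smul] at h3
    have h4 : (g * h⁻¹) • z - (h⁻¹ • z) ^ q - (z - (h⁻¹ • z) ^ q) = (g * h⁻¹) • z - z := by ring
    rw [h4] at h3
    exact h3
  exact mul_inv_eq_one.1 h2

/-- Frobenius elements exist (IsArithFrobAt.exists_of_isInvariant, compare H55B.G5.dec). -/
theorem exists_frob {K : Type} [Field K] [NumberField K] [Algebra F K] [IsGalois F K]
    (w : HeightOneSpectrum (𝓞 K)) :
    ∃ g : K ≃ₐ[F] K, ∀ y : 𝓞 K, g • y - y ^ Nat.card (O ⧸ w.asIdeal.under O) ∈ w.asIdeal := by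
  have hwp := w.isPrime
  have hwm := w.isMaximal
  obtain ⟨φ, hφ0⟩ := IsArithFrobAt.exists_of_isInvariant O (K ≃ₐ[F] K) w.asIdeal
  exact ⟨φ, fun y => hφ0 y⟩

/-- Restriction to a normal subextension (AlgEquiv.restrictNormal_commutes; the map 𝓞 K₁ -> 𝓞 K is compatible with the action). -/
theorem restrict_frob {K K₁ : Type} [Field K] [NumberField K] [Algebra F K] [Field K₁] [NumberField K₁]
    [Algebra F K₁] [Algebra K₁ K] [IsScalarTower F K₁ K] [IsGalois F K₁] (w : HeightOneSpectrum (𝓞 K))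
    (w₁ : HeightOneSpectrum (𝓞 K₁)) (hw : w₁.asIdeal = w.asIdeal.under (𝓞 K₁)) (g : K ≃ₐ[F] K) (q : ℕ)
    (hg : ∀ y : 𝓞 K, g • y - y ^ q ∈ w.asIdeal) (y : 𝓞 K₁) :
    AlgEquiv.restrictNormalHom K₁ g • y - y ^ q ∈ w₁.asIdeal := by
  rw [hw]
  show algebraMap (𝓞 K₁) (𝓞 K) (AlgEquiv.restrictNormalHom K₁ g • y - y ^ q) ∈ w.asIdeal
  have h1 : algebraMap (𝓞 K₁) (𝓞 K) (AlgEquiv.restrictNormalHom K₁ g • y) =
      g • algebraMap (𝓞 K₁) (𝓞 K) y := by
    apply NumberField.RingOfIntegers.ext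
    show algebraMap K₁ K (AlgEquiv.restrictNormal g K₁ (y : K₁)) = g (algebraMap K₁ K (y : K₁))
    exact AlgEquiv.restrictNormal_commutes g K₁ _
  rw [map_sub, h1, map_pow]
  exact hg _

end H55C
end
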