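import Mathlib
import Pool.Agent.Lib.H1M.PP.M001
import Pool.Agent.Lib.H1M.PP.M005

/-! Merged copies (to shorten the build) of Lib.H16A.M1, Lib.H16C.MW2, Lib.H16C.R1, Lib.H16A.U3, Lib.H16C.MW1, Lib.H16C.D3, Lib.H16C.D4, Lib.H16C.D5, Lib.H16C.D6, Lib.H16C.T1, Lib.H16C.T3, Lib.H16C.SE3, Lib.H16C.MW3, Lib.H55P.S5. -/

-- from Lib.H16A.M1
section

/-!
# M1 (M): the addition-and-subtraction map on x-coordinates

Mathlib (`AlgebraicGeometry/EllipticCurve/Affine/AddSubMap.lean`) defines `addSubMap W` and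
`Point.sym2x P Q = ![x(P)x(Q), x(P)+x(Q), 1]` (with the obvious modifications at the point `0`), but does
not prove that `addSubMap` maps `sym2x P Q` to a multiple of `sym2x (P + Q) (P - Q)`.
Proof for `y² = x³ + a x² + b x + c` by cases.
* `P = 0` or `Q = 0`: `sym2x 0 Q = ![x, 1, 0]`, `addSubMap = ![x², 2x, 1]`, `P ± Q = ± Q`.
* `x(P) ≠ x(Q)`: `x(P ± Q) = ((y_P ∓ y_Q)/(x_P - x_Q))² - a - x_P - x_Q`; the sum and the product are
  rational functions of `x_P, x_Q` (use `y² = f(x)`), the factor is `(x_P - x_Q)²`.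
* `x(P) = x(Q)`, so `Q = ± P`: one of `P ± Q` is `0` and the other is `2P`; `sym2x = ![x(2P), 1, 0]` if
  `2P ≠ 0` (`x(2P) = (f'(x)/(2y))² - a - 2x`, factor `4 f(x)`), `![1, 0, 0]` if `2P = 0`, i.e. `y = 0`
  (factor `f'(x)² ≠ 0`).
-/

open WeierstrassCurve

namespace H16A
namespace Cub

section M1

variable {K : Type*} [Field K] [DecidableEq K] (W : WeierstrassCurve.Affine K)

omit [DecidableEq K] in
theorem M1_eval (s t u : K) :
    (fun i => (addSubMap W i).eval ![s, t, u]) =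
      ![s ^ 2 - W.b₄ * s * u - W.b₆ * t * u - W.b₈ * u ^ 2,
        2 * t * s + W.b₂ * s * u + W.b₄ * t * u + W.b₆ * u ^ 2, t ^ 2 - 4 * s * u] := by
  funext i
  fin_cases i <;> simp [addSubMap]

variable {W} (ha1 : W.a₁ = 0) (ha3 : W.a₃ = 0)
include ha1 ha3

omit [DecidableEq K] in
theorem M1_eval' (s t u : K) :
    (fun i => (addSubMap W i).eval ![s, t, u]) =
      ![s ^ 2 - 2 * W.a₄ * s * u - 4 * W.a₆ * t * u - (4 * W.a₂ * W.a₆ - W.a₄ ^ 2) * u ^ 2,
        2 * t * s + 4 * W.a₂ * s * u + 2 * W.a₄ * t * u + 4 * W.a₆ * u ^ 2,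
        t ^ 2 - 4 * s * u] := by
  rw [M1_eval]
  have e2 : W.b₂ = 4 * W.a₂ := by rw [WeierstrassCurve.b₂, ha1]; ring
  have e4 : W.b₄ = 2 * W.a₄ := by rw [WeierstrassCurve.b₄, ha1]; ring
  have e6 : W.b₆ = 4 * W.a₆ := by rw [WeierstrassCurve.b₆, ha3]; ring
  have e8 : W.b₈ = 4 * W.a₂ * W.a₆ - W.a₄ ^ 2 := by rw [WeierstrassCurve.b₈, ha1, ha3]; ring
  rw [e2, e4, e6, e8]

omit [DecidableEq K] in
theorem M1_equation {x y : K} (h : W.Nonsingular x y) :
    y ^ 2 = x ^ 3 + W.a₂ * x ^ 2 + W.a₄ * x + W.a₆ := by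
  have := (W.equation_iff x y).1 h.1
  rw [ha1, ha3] at this
  linear_combination this

omit [DecidableEq K] in
theorem M1_negY (x y : K) : W.negY x y = -y := by
  rw [WeierstrassCurve.Affine.negY, ha1, ha3]; ring

theorem M1_ne {x1 y1 x2 y2 : K} (h1 : W.Nonsingular x1 y1) (h2 : W.Nonsingular x2 y2)
    (hx : x1 ≠ x2) : ∃ t : K, t ≠ 0 ∧
      (fun i => (addSubMap W i).eval
        ((WeierstrassCurve.Affine.Point.some x1 y1 h1).sym2x
          (WeierstrassCurve.Affine.Point.some x2 y2 h2))) =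
        t • ((WeierstrassCurve.Affine.Point.some x1 y1 h1 +
          WeierstrassCurve.Affine.Point.some x2 y2 h2).sym2x
          (WeierstrassCurve.Affine.Point.some x1 y1 h1 -
          WeierstrassCurve.Affine.Point.some x2 y2 h2)) := by
  have hxy : x1 - x2 ≠ 0 := sub_ne_zero.2 hx
  refine ⟨(x1 - x2) ^ 2, pow_ne_zero 2 hxy, ?_⟩
  rw [sub_eq_add_neg (WeierstrassCurve.Affine.Point.some x1 y1 h1),
    WeierstrassCurve.Affine.Point.neg_some,
    WeierstrassCurve.Affine.Point.add_of_X_ne hx, WeierstrassCurve.Affine.Point.add_of_X_ne hx,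
    WeierstrassCurve.Affine.Point.sym2x_some_some, WeierstrassCurve.Affine.Point.sym2x_some_some,
    M1_eval' ha1 ha3, WeierstrassCurve.Affine.slope_of_X_ne hx,
    WeierstrassCurve.Affine.slope_of_X_ne hx, M1_negY ha1 ha3]
  have E1 := M1_equation ha1 ha3 h1
  have E2 := M1_equation ha1 ha3 h2
  simp only [WeierstrassCurve.Affine.addX, ha1]
  have key0 : (y1 ^ 2 + y2 ^ 2 - (W.a₂ + x1 + x2) * (x1 - x2) ^ 2) ^ 2 - 4 * y1 ^ 2 * y2 ^ 2 =
      (x1 - x2) ^ 2 * ((x1 * x2) ^ 2 - 2 * W.a₄ * (x1 * x2) * 1 - 4 * W.a₆ * (x1 + x2) * 1 -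
        (4 * W.a₂ * W.a₆ - W.a₄ ^ 2) * 1 ^ 2) := by
    rw [E1, E2]; ring
  have key1 : 2 * (y1 ^ 2 + y2 ^ 2 - (W.a₂ + x1 + x2) * (x1 - x2) ^ 2) =
      2 * (x1 + x2) * (x1 * x2) + 4 * W.a₂ * (x1 * x2) * 1 + 2 * W.a₄ * (x1 + x2) * 1 +
        4 * W.a₆ * 1 ^ 2 := by
    rw [E1, E2]; ring
  have f0 : (x1 - x2) ^ 2 * ((((y1 - y2) / (x1 - x2)) ^ 2 + 0 * ((y1 - y2) / (x1 - x2)) - W.a₂ -
      x1 - x2) * (((y1 - -y2) / (x1 - x2)) ^ 2 + 0 * ((y1 - -y2) / (x1 - x2)) - W.a₂ - x1 - x2)) =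
      (x1 * x2) ^ 2 - 2 * W.a₄ * (x1 * x2) * 1 - 4 * W.a₆ * (x1 + x2) * 1 -
        (4 * W.a₂ * W.a₆ - W.a₄ ^ 2) * 1 ^ 2 := by
    have h3 : (x1 - x2) ^ 2 * ((x1 - x2) ^ 2 * ((((y1 - y2) / (x1 - x2)) ^ 2 +
        0 * ((y1 - y2) / (x1 - x2)) - W.a₂ - x1 - x2) * (((y1 - -y2) / (x1 - x2)) ^ 2 +
        0 * ((y1 - -y2) / (x1 - x2)) - W.a₂ - x1 - x2))) =
        (y1 ^ 2 + y2 ^ 2 - (W.a₂ + x1 + x2) * (x1 - x2) ^ 2) ^ 2 - 4 * y1 ^ 2 * y2 ^ 2 := by
      field_simp
      ring
    rw [key0] at h3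
    exact mul_left_cancel₀ (pow_ne_zero 2 hxy) h3
  have f1 : (x1 - x2) ^ 2 * ((((y1 - y2) / (x1 - x2)) ^ 2 + 0 * ((y1 - y2) / (x1 - x2)) - W.a₂ -
      x1 - x2) + (((y1 - -y2) / (x1 - x2)) ^ 2 + 0 * ((y1 - -y2) / (x1 - x2)) - W.a₂ - x1 - x2)) =
      2 * (x1 + x2) * (x1 * x2) + 4 * W.a₂ * (x1 * x2) * 1 + 2 * W.a₄ * (x1 + x2) * 1 +
        4 * W.a₆ * 1 ^ 2 := by
    rw [← key1]
    field_simp
    ring
  rw [Matrix.smul_vec3, smul_eq_mul, smul_eq_mul, smul_eq_mul, f0, f1]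
  congr 3
  ring

theorem M1_same (h2 : (2 : K) ≠ 0) {x y : K} (h : W.Nonsingular x y) : ∃ t : K, t ≠ 0 ∧
      (fun i => (addSubMap W i).eval ![x * x, x + x, 1]) =
        t • ((WeierstrassCurve.Affine.Point.some x y h +
          WeierstrassCurve.Affine.Point.some x y h).sym2x 0) := by
  have E1 := M1_equation ha1 ha3 h
  rw [M1_eval' ha1 ha3]
  by_cases hy : y = 0
  · subst hy
    have hy' : (0 : K) = W.negY x 0 := by rw [M1_negY ha1 ha3, neg_zero]
    rw [WeierstrassCurve.Affine.Point.add_self_of_Y_eq hy',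
      WeierstrassCurve.Affine.Point.sym2x_zero_zero]
    have hd : 3 * x ^ 2 + 2 * W.a₂ * x + W.a₄ ≠ 0 := by
      rcases ((W.nonsingular_iff x 0).1 h).2 with h3 | h3
      · rw [ha1, zero_mul] at h3
        exact h3.symm
      · rw [ha1, ha3] at h3
        exact absurd (by ring) h3
    refine ⟨(3 * x ^ 2 + 2 * W.a₂ * x + W.a₄) ^ 2, pow_ne_zero 2 hd, ?_⟩
    rw [Matrix.smul_vec3, smul_eq_mul, smul_eq_mul]
    have e6 : W.a₆ = -(x ^ 3 + W.a₂ * x ^ 2 + W.a₄ * x) := by linear_combination -E1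
    rw [e6]
    congr 1
    · ring
    · congr 1
      · ring
      · congr 1
        ring
  · have hy2 : y ≠ W.negY x y := by
      rw [M1_negY ha1 ha3]
      intro h3
      apply hy
      have : 2 * y = 0 := by linear_combination h3
      exact (mul_eq_zero.1 this).resolve_left h2
    rw [WeierstrassCurve.Affine.Point.add_self_of_Y_ne hy2,
      WeierstrassCurve.Affine.Point.sym2x_some_zero,
      WeierstrassCurve.Affine.slope_of_Y_ne rfl hy2, M1_negY ha1 ha3]
    refine ⟨4 * y ^ 2, mul_ne_zero (by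
      have : (4 : K) = 2 * 2 := by norm_num
      rw [this]; exact mul_ne_zero h2 h2) (pow_ne_zero 2 hy), ?_⟩
    simp only [WeierstrassCurve.Affine.addX, ha1]
    have f0 : 4 * y ^ 2 * (((3 * x ^ 2 + 2 * W.a₂ * x + W.a₄ - 0 * y) / (y - -y)) ^ 2 +
        0 * ((3 * x ^ 2 + 2 * W.a₂ * x + W.a₄ - 0 * y) / (y - -y)) - W.a₂ - x - x) =
        (x * x) ^ 2 - 2 * W.a₄ * (x * x) * 1 - 4 * W.a₆ * (x + x) * 1 -
        (4 * W.a₂ * W.a₆ - W.a₄ ^ 2) * 1 ^ 2 := by
      have h4 : y - -y = 2 * y := by ring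
      rw [h4]
      have h5 : 4 * y ^ 2 * (((3 * x ^ 2 + 2 * W.a₂ * x + W.a₄ - 0 * y) / (2 * y)) ^ 2 +
        0 * ((3 * x ^ 2 + 2 * W.a₂ * x + W.a₄ - 0 * y) / (2 * y)) - W.a₂ - x - x) =
        (3 * x ^ 2 + 2 * W.a₂ * x + W.a₄) ^ 2 - 4 * (W.a₂ + 2 * x) * y ^ 2 := by
        field_simp
        ring
      rw [h5, E1]
      ring
    rw [Matrix.smul_vec3, smul_eq_mul, smul_eq_mul, smul_eq_mul, f0]
    congr 1
    congr 1
    · have h6 : 4 * y ^ 2 * 1 = 4 * (x ^ 3 + W.a₂ * x ^ 2 + W.a₄ * x + W.a₆) := by rw [E1]; ring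
      rw [h6]
      ring
    · congr 1
      ring

theorem M1_gen (h2 : (2 : K) ≠ 0) (P Q : W.Point) : ∃ t : K, t ≠ 0 ∧
      (fun i => (addSubMap W i).eval (P.sym2x Q)) = t • ((P + Q).sym2x (P - Q)) := by
  rcases P with _ | ⟨x1, y1, h1⟩
  · rw [← WeierstrassCurve.Affine.Point.zero_def, zero_add, zero_sub]
    refine ⟨1, one_ne_zero, ?_⟩
    rw [one_smul, WeierstrassCurve.Affine.Point.sym2x_neg_right]
    rcases Q with _ | ⟨x2, y2, h2'⟩
    · rw [← WeierstrassCurve.Affine.Point.zero_def,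
        WeierstrassCurve.Affine.Point.sym2x_zero_zero, M1_eval' ha1 ha3]
      congr 1
      · ring
      · congr 1
        · ring
        · congr 1
          ring
    · rw [WeierstrassCurve.Affine.Point.sym2x_zero_some,
        WeierstrassCurve.Affine.Point.sym2x_some_some, M1_eval' ha1 ha3]
      congr 1
      · ring
      · congr 1
        · ring
        · congr 1
          ring
  · rcases Q with _ | ⟨x2, y2, h2'⟩
    · rw [← WeierstrassCurve.Affine.Point.zero_def, add_zero, sub_zero]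
      refine ⟨1, one_ne_zero, ?_⟩
      rw [one_smul, WeierstrassCurve.Affine.Point.sym2x_some_zero,
        WeierstrassCurve.Affine.Point.sym2x_some_some, M1_eval' ha1 ha3]
      congr 1
      · ring
      · congr 1
        · ring
        · congr 1
          ring
    · by_cases hx : x1 = x2
      · rcases WeierstrassCurve.Affine.Point.X_eq_iff.1 hx with h3 | h3
        · rw [← h3, sub_self, WeierstrassCurve.Affine.Point.sym2x_some_some]
          exact M1_same ha1 ha3 h2 h1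
        · have h4 : WeierstrassCurve.Affine.Point.some x2 y2 h2' =
              -WeierstrassCurve.Affine.Point.some x1 y1 h1 := by rw [h3, neg_neg]
          rw [h4, sub_neg_eq_add, add_neg_cancel, WeierstrassCurve.Affine.Point.sym2x_neg_right,
            WeierstrassCurve.Affine.Point.sym2x_comm 0,
            WeierstrassCurve.Affine.Point.sym2x_some_some]
          exact M1_same ha1 ha3 h2 h1
      · exact M1_ne ha1 ha3 h1 h2' hx

end M1

variable (E : Cub)

theorem addSub_sym2x {K : Type*} [Field K] [DecidableEq K] (h2 : (2 : K) ≠ 0) (P Q : E.Pt K) :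
    ∃ t : K, t ≠ 0 ∧
      (fun i => (addSubMap (WeierstrassCurve.Affine.baseChange E.W K) i).eval (P.sym2x Q)) =
        t • ((P + Q).sym2x (P - Q)) :=
  M1_gen (W := WeierstrassCurve.Affine.baseChange E.W K) (by simp [W]) (by simp [W]) h2 P Q

end Cub
end H16A
end

-- from Lib.H16C.MW2
section

/-!
# MW2 (S/M): Mordell-Weil theorem from the weak one (copy of H16A/M2)

The proof of `H16A.Cub.mordell_weil` (file H16A/M2.lean: `m2_par`, `m2_northcott`, `mordell_weil`) for a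
general short elliptic curve over a number field: replace `E.Pt K` by `W.Point`,
`E.addSub_sym2x` by `H16A.Cub.M1_gen (W := W) ha1 ha3 two_ne_zero P Q` (H16A/M1.lean, with
`W.a₁ = W.a₃ = 0`: `a₁_of_isShortNF`, `a₃_of_isShortNF`), and `E.m2_elliptic` by the instance.
-/

open WeierstrassCurve NumberField

namespace H16C

open Height

/-- the naive height -/
noncomputable def mw2_h {L : Type*} [Field L] [AdmissibleAbsValues L]
    {W : WeierstrassCurve.Affine L} (P : W.Point) : ℝ :=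
  logHeight P.xRep

theorem mw2_par {L : Type*} [Field L] [NumberField L] [DecidableEq L]
    (W : WeierstrassCurve.Affine L) [W.IsShortNF] [W.IsElliptic] :
    ∃ C : ℝ, ∀ P Q : W.Point,
      |mw2_h (P + Q) + mw2_h (P - Q) - 2 * (mw2_h P + mw2_h Q)| ≤ C := by
  obtain ⟨C₁, h1⟩ := abs_logHeight_addSubMap_sub_two_mul_logHeight_le W
  obtain ⟨C₂, h2⟩ := abs_logHeight_sym2_sub_le L
  have hx : ∀ P : W.Point, P.xRep = ![P.xRep 0, P.xRep 1] := by
    intro P
    funext i
    fin_cases i <;> rfl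
  have h3 : ∀ P Q : W.Point, |logHeight (P.sym2x Q) - (mw2_h P + mw2_h Q)| ≤ C₂ := by
    intro P Q
    have h4 := h2 (a := P.xRep 0) (b := P.xRep 1) (c := Q.xRep 0) (d := Q.xRep 1)
      (by rw [← hx]; exact P.xRep_ne_zero) (by rw [← hx]; exact Q.xRep_ne_zero)
    rw [← hx, ← hx] at h4
    exact h4
  refine ⟨C₁ + 3 * C₂, fun P Q => ?_⟩
  obtain ⟨t, ht, h5⟩ := H16A.Cub.M1_gen (W := W) (a₁_of_isShortNF W) (a₃_of_isShortNF W)
    two_ne_zero P Q
  have h6 := h1 (P.sym2x Q)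
  rw [h5, logHeight_smul_eq_logHeight _ ht] at h6
  have h7 := h3 P Q
  have h8 := h3 (P + Q) (P - Q)
  rw [abs_le] at h6 h7 h8 ⊢
  constructor <;> linarith [h6.1, h6.2, h7.1, h7.2, h8.1, h8.2]

theorem mw2_northcott {L : Type*} [Field L] [NumberField L] (W : WeierstrassCurve.Affine L) :
    Northcott (fun P : W.Point => mw2_h P) := by
  refine ⟨fun B => ?_⟩
  have h1 := NumberField.finite_setOfPred_logHeight₁_le L B
  have h2 : ((fun x : L => ![x, 1]) '' {x : L | logHeight₁ x ≤ B} ∪ {![1, 0]}).Finite :=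
    (h1.image _).union (Set.finite_singleton _)
  refine Set.Finite.subset (Set.Finite.preimage' (f := fun P : W.Point => P.xRep) h2 ?_) ?_
  · intro b _
    by_cases h : ∃ P : W.Point, P.xRep = b
    · obtain ⟨P, rfl⟩ := h
      refine Set.Finite.subset (Set.toFinite {P, -P}) ?_
      intro Q hQ
      exact WeierstrassCurve.Affine.Point.xRep_eq_xRep_iff.1 hQ
    · refine Set.Finite.subset Set.finite_empty ?_
      intro Q hQ
      exact h ⟨Q, hQ⟩
  · intro P hP
    rcases P with _ | ⟨x, y, h⟩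
    · exact Or.inr rfl
    · refine Or.inl ⟨x, ?_, rfl⟩
      change logHeight₁ x ≤ B
      rw [logHeight₁_eq_logHeight]
      exact hP

theorem mordell_weil {L : Type*} [Field L] [NumberField L] [DecidableEq L]
    (W : WeierstrassCurve.Affine L) [W.IsShortNF] [W.IsElliptic]
    (hw : (H16A.twoG W.Point).index ≠ 0) : Module.Finite ℤ W.Point := by
  obtain ⟨C, hC⟩ := mw2_par W
  have hN := mw2_northcott W
  have h1 : AddGroup.FG W.Point := by
    refine AddCommGroup.fg_of_descent' (h := fun P : W.Point => mw2_h P) (C := C) ⟨hw⟩ ?_ hC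
    intro P
    unfold mw2_h
    rw [logHeight_eq_log_mulHeight]
    exact Real.log_nonneg (one_le_mulHeight _)
  exact Module.Finite.iff_addGroup_fg.2 h1

end H16C
end

-- from Lib.H16C.R1
section

/-!
# R1 (M): the group `E₁(v)` and congruent points

`v` a valuation of `F` with `v(a₄), v(a₆) ≤ 1`; `W` short.
`e1_neg`: `xc (-P) = xc P`.
`red_aux`: `R = (x, y)` with `v x ≤ 1` (so `v y ≤ 1`: `y² = x³ + a₄ x + a₆`), `Q = (X, Y) ∈ E₁`,
`Q ≠ O`: `v(Y)² = v(X)³`.  Then `R - Q ≠ O`, and its abscissa is `x'' = λ² - x - X`,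
`λ = (y + Y)/(x - X)`:
`x'' - x = ((3x² + a₄) X + 2 y Y + a₄ x + 2 a₆ - x³) / (X - x)²`, `v(X - x) = v X`, and the
numerator has valuation `≤ max(v X, v Y) < v(X)²` (`v(Y)² = v(X)³ < v(X)⁴`).  So `v(x'') ≤ 1`.
`e1_add`: `P, Q ∈ E₁`, both `≠ O`, `R = P + Q ≠ O`, if `v(xc R) ≤ 1` then `P = R - Q` has
`v(xc P) ≤ 1` by `red_aux`, contradiction.
`congr_mem`: `v(Δ) = 1`.  `P = (x, y)`, `P' = (x', y')`, `v x, v x' ≤ 1`, `v(x - x') < 1`,
`v(y - y') < 1`: `P - P' ∈ E₁`.  Note `Δ = -16(4a₄³ + 27a₆²)`, so `v(2) = 1`.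
`x ≠ x'`: `x(P - P') = λ² - x - x'`, `λ = (y + y')/(x - x')`.  If `v(y + y') = 1`: `v λ > 1`.
If `v(y + y') < 1`: `v(2y) < 1`, `v y < 1`, so `v(f(x)) < 1` and `v(f'(x)) = 1`, `f' = 3x² + a₄`
(otherwise `v(Δ) < 1`: `4a₄³ + 27a₆²` is a combination of `f(x)` and `f'(x)` with coefficients in
`ℤ[x, a₄, a₆]`), and `(y - y')(y + y') = f(x) - f(x') = (x - x')(f'(x) + (x - x')(...))`, so
`v(y-y') v(y+y') = v(x-x')`, `v λ = 1/v(y - y') > 1` (`y ≠ y'` as `x ≠ x'`).
`x = x'`: `y' = y` (then `P - P' = O`) or `y' = -y`, `v(2y) < 1`, `P - P' = 2P`,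
`x(2P) = (f'(x)/(2y))² - 2x`, `v > 1` (`y ≠ 0` or `P - P' = O`).
-/

open WeierstrassCurve

namespace H16C

variable {F : Type*} [Field F] [DecidableEq F] {W : WeierstrassCurve.Affine F} [W.IsShortNF]
  {Γ : Type*} [LinearOrderedCommGroupWithZero Γ] {v : Valuation F Γ}

omit [DecidableEq F] [W.IsShortNF] in
theorem R1_inE1 {P : W.Point} : InE1 v P ↔ P = 0 ∨ 1 < v (xc P) := by
  cases P with
  | zero =>
    constructor
    · intro _
      exact Or.inl rfl
    · intro _
      trivial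
  | some x y h =>
    constructor
    · intro h1
      exact Or.inr h1
    · rintro (h1 | h1)
      · exact absurd h1 (WeierstrassCurve.Affine.Point.some_ne_zero _)
      · exact h1

theorem R1_sub {P Q : W.Point} (hP : P ≠ 0) (hQ : Q ≠ 0) (h : xc P ≠ xc Q) :
    (xc P - xc Q) ^ 2 * xc (P - Q) = (yc P + yc Q) ^ 2 - (xc P + xc Q) * (xc P - xc Q) ^ 2 := by
  cases P with
  | zero => exact absurd rfl hP
  | some x₁ y₁ h₁ =>
    cases Q with
    | zero => exact absurd rfl hQ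
    | some x₂ y₂ h₂ =>
      have hx : x₁ ≠ x₂ := h
      have hx' : x₁ - x₂ ≠ 0 := sub_ne_zero.2 hx
      rw [sub_eq_add_neg (WeierstrassCurve.Affine.Point.some x₁ y₁ h₁),
        WeierstrassCurve.Affine.Point.neg_some,
        WeierstrassCurve.Affine.Point.add_of_X_ne hx]
      change (x₁ - x₂) ^ 2 * (W.addX x₁ x₂ (W.slope x₁ x₂ y₁ (W.negY x₂ y₂))) =
        (y₁ + y₂) ^ 2 - (x₁ + x₂) * (x₁ - x₂) ^ 2
      rw [WeierstrassCurve.Affine.slope_of_X_ne hx, WeierstrassCurve.Affine.addX,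
        WeierstrassCurve.Affine.negY, a₁_of_isShortNF, a₂_of_isShortNF, a₃_of_isShortNF]
      field_simp
      ring

omit [DecidableEq F] in
theorem R1_nat (n : ℕ) : v (n : F) ≤ 1 := by
  induction n with
  | zero => simp
  | succ m ih =>
    rw [Nat.cast_succ]
    exact v.map_add_le ih (le_of_eq v.map_one)

omit [DecidableEq F] in
theorem R1_y {P : W.Point} (h4 : v W.a₄ ≤ 1) (h6 : v W.a₆ ≤ 1) (hP : P ≠ 0) (hx : v (xc P) ≤ 1) :
    v (yc P) ≤ 1 := by
  have h1 : v (yc P ^ 2) ≤ 1 := by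
    rw [eqn hP]
    refine v.map_add_le (v.map_add_le ?_ ?_) h6
    · rw [map_pow]
      exact pow_le_one' hx 3
    · rw [map_mul]
      exact mul_le_one' h4 hx
  rw [map_pow] at h1
  by_contra hcon
  push Not at hcon
  exact absurd h1 (not_le.2 (one_lt_pow₀ hcon two_ne_zero))

omit [DecidableEq F] in
theorem R1_Y {Q : W.Point} (h4 : v W.a₄ ≤ 1) (h6 : v W.a₆ ≤ 1) (hQ : Q ≠ 0) (hX : 1 < v (xc Q)) :
    v (yc Q) < v (xc Q) ^ 2 := by
  have hX0 : 0 < v (xc Q) := zero_lt_one.trans hX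
  have h1 : v (yc Q ^ 2) = v (xc Q) ^ 3 := by
    rw [eqn hQ, add_assoc, add_comm, ← map_pow]
    refine v.map_add_eq_of_lt_right ?_
    have h2 : v (W.a₄ * xc Q + W.a₆) ≤ v (xc Q) := by
      refine v.map_add_le ?_ (h6.trans hX.le)
      rw [map_mul]
      exact mul_le_of_le_one_left' h4
    refine h2.trans_lt ?_
    rw [map_pow]
    exact lt_self_pow₀ hX (by norm_num)
  rw [map_pow] at h1
  by_contra hcon
  push Not at hcon
  have h3 : (v (xc Q) ^ 2) ^ 2 ≤ v (yc Q) ^ 2 := pow_le_pow_left₀ zero_le hcon 2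
  rw [h1, ← pow_mul] at h3
  exact absurd h3 (not_le.2 (pow_lt_pow_right₀ hX (by norm_num)))

theorem red_aux (h4 : v W.a₄ ≤ 1) (h6 : v W.a₆ ≤ 1) {R Q : W.Point} (hR : R ≠ 0) (hQ : Q ≠ 0)
    (hx : v (xc R) ≤ 1) (hX : 1 < v (xc Q)) : v (xc (R - Q)) ≤ 1 := by
  have hX0 : 0 < v (xc Q) := zero_lt_one.trans hX
  have hne : xc R ≠ xc Q := by
    intro h
    rw [h] at hx
    exact absurd hx (not_le.2 hX)
  have hy := R1_y h4 h6 hR hx
  have hY := R1_Y h4 h6 hQ hX
  have hs := R1_sub hR hQ hne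
  have e1 := eqn hR
  have e2 := eqn hQ
  have hkey : (xc Q - xc R) ^ 2 * (xc (R - Q) - xc R) =
      (((3 : ℕ) : F) * xc R ^ 2 + W.a₄) * xc Q + ((2 : ℕ) : F) * (yc R * yc Q) +
        (W.a₄ * xc R + ((2 : ℕ) : F) * W.a₆ - xc R ^ 3) := by
    push_cast
    linear_combination hs + e1 + e2
  have hvX : v (xc Q - xc R) = v (xc Q) := by
    rw [sub_eq_add_neg, add_comm]
    refine v.map_add_eq_of_lt_right ?_
    rw [v.map_neg]
    exact hx.trans_lt hX
  have hX2 : v (xc Q) < v (xc Q) ^ 2 := lt_self_pow₀ hX (by norm_num)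
  have h12 : 1 < v (xc Q) ^ 2 := hX.trans hX2
  have hnum : v ((((3 : ℕ) : F) * xc R ^ 2 + W.a₄) * xc Q + ((2 : ℕ) : F) * (yc R * yc Q) +
        (W.a₄ * xc R + ((2 : ℕ) : F) * W.a₆ - xc R ^ 3)) < v (xc Q) ^ 2 := by
    refine v.map_add_lt (v.map_add_lt ?_ ?_) ?_
    · rw [map_mul]
      refine lt_of_le_of_lt (mul_le_of_le_one_left' ?_) hX2
      refine v.map_add_le ?_ h4
      rw [map_mul, map_pow]
      exact mul_le_one' (R1_nat 3) (pow_le_one' hx 2)
    · rw [map_mul, map_mul]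
      refine lt_of_le_of_lt ?_ hY
      exact (mul_le_of_le_one_left' (R1_nat 2)).trans (mul_le_of_le_one_left' hy)
    · refine lt_of_le_of_lt ?_ h12
      refine v.map_sub_le (v.map_add_le ?_ ?_) ?_
      · rw [map_mul]
        exact mul_le_one' h4 hx
      · rw [map_mul]
        exact mul_le_one' (R1_nat 2) h6
      · rw [map_pow]
        exact pow_le_one' hx 3
  rw [← hkey, map_mul, map_pow, hvX] at hnum
  have h5 : v (xc (R - Q) - xc R) < 1 := by
    by_contra hcon
    push Not at hcon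
    exact absurd hnum (not_lt.2 (le_mul_of_one_le_right' hcon))
  have h6' : xc (R - Q) = (xc (R - Q) - xc R) + xc R := by ring
  rw [h6']
  exact v.map_add_le h5.le hx

omit [DecidableEq F] in
theorem e1_neg {P : W.Point} (h : InE1 v P) : InE1 v (-P) := by
  rw [R1_inE1] at h ⊢
  rcases h with h | h
  · left
    rw [h]
    rfl
  · right
    rwa [xc_neg]

theorem e1_add (h4 : v W.a₄ ≤ 1) (h6 : v W.a₆ ≤ 1) {P Q : W.Point} (hP : InE1 v P)
    (hQ : InE1 v Q) : InE1 v (P + Q) := by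
  by_cases hP0 : P = 0
  · rw [hP0, zero_add]
    exact hQ
  by_cases hQ0 : Q = 0
  · rw [hQ0, add_zero]
    exact hP
  rw [R1_inE1] at hP hQ ⊢
  have hP1 := hP.resolve_left hP0
  have hQ1 := hQ.resolve_left hQ0
  by_cases hR : P + Q = 0
  · exact Or.inl hR
  · right
    by_contra hcon
    push Not at hcon
    have h1 := red_aux h4 h6 hR hQ0 hcon hQ1
    rw [add_sub_cancel_right] at h1
    exact absurd h1 (not_le.2 hP1)

theorem e1_sub (h4 : v W.a₄ ≤ 1) (h6 : v W.a₆ ≤ 1) {P Q : W.Point} (hP : InE1 v P)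
    (hQ : InE1 v Q) : InE1 v (P - Q) := by
  rw [sub_eq_add_neg]
  exact e1_add h4 h6 hP (e1_neg hQ)

theorem congr_mem (h4 : v W.a₄ ≤ 1) (h6 : v W.a₆ ≤ 1) (hΔ : v W.Δ = 1) {P Q : W.Point}
    (hP : P ≠ 0) (hQ : Q ≠ 0) (hxP : v (xc P) ≤ 1) (hxQ : v (xc Q) ≤ 1)
    (hx : v (xc P - xc Q) < 1) (hy : v (yc P - yc Q) < 1) : InE1 v (P - Q) := by
  have hyP := R1_y h4 h6 hP hxP
  have hyQ := R1_y h4 h6 hQ hxQ
  have e1 := eqn hP
  have e2 := eqn hQ
  -- the discriminant
  have hdle : v (4 * W.a₄ ^ 3 + 27 * W.a₆ ^ 2) ≤ 1 := by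
    refine v.map_add_le ?_ ?_
    · rw [map_mul, map_pow]
      exact mul_le_one' (by exact_mod_cast R1_nat (v := v) 4) (pow_le_one' h4 3)
    · rw [map_mul, map_pow]
      exact mul_le_one' (by exact_mod_cast R1_nat (v := v) 27) (pow_le_one' h6 2)
  have h2le : v (2 : F) ≤ 1 := by exact_mod_cast R1_nat (v := v) 2
  have hΔ' : v (2 : F) ^ 4 * v (4 * W.a₄ ^ 3 + 27 * W.a₆ ^ 2) = 1 := by
    rw [← hΔ, Δ_of_isShortNF, ← map_pow, ← map_mul, ← v.map_neg]
    congr 1
    ring
  have hv2 : v (2 : F) = 1 := by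
    refine le_antisymm h2le ?_
    by_contra hcon
    push Not at hcon
    have h1 : v (2 : F) ^ 4 < 1 := pow_lt_one₀ zero_le hcon (by norm_num)
    have h2 : v (2 : F) ^ 4 * v (4 * W.a₄ ^ 3 + 27 * W.a₆ ^ 2) < 1 :=
      lt_of_le_of_lt (mul_le_of_le_one_right' hdle) h1
    rw [hΔ'] at h2
    exact lt_irrefl _ h2
  have hvd : v (4 * W.a₄ ^ 3 + 27 * W.a₆ ^ 2) = 1 := by
    rwa [hv2, one_pow, one_mul] at hΔ'
  have h20 : (2 : F) ≠ 0 := by
    intro h
    rw [h, map_zero] at hv2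
    exact zero_ne_one hv2
  -- if `v y < 1` then `v (f' x) = 1`
  have hf' : v (yc P) < 1 → v (3 * xc P ^ 2 + W.a₄) = 1 := by
    intro hy1
    have hfle : v (3 * xc P ^ 2 + W.a₄) ≤ 1 := by
      refine v.map_add_le ?_ h4
      rw [map_mul, map_pow]
      exact mul_le_one' (by exact_mod_cast R1_nat (v := v) 3) (pow_le_one' hxP 2)
    refine le_antisymm hfle ?_
    by_contra hcon
    push Not at hcon
    have hf0 : v (yc P ^ 2) < 1 := by
      rw [map_pow]
      exact pow_lt_one₀ zero_le hy1 two_ne_zero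
    have hid : 4 * W.a₄ ^ 3 + 27 * W.a₆ ^ 2 =
        (((3 : ℕ) : F) * xc P ^ 2 + ((4 : ℕ) : F) * W.a₄) * (3 * xc P ^ 2 + W.a₄) *
          (3 * xc P ^ 2 + W.a₄) -
        (((3 : ℕ) : F) * xc P ^ 3 - ((5 : ℕ) : F) * W.a₄ * xc P - ((27 : ℕ) : F) * W.a₆ +
          ((8 : ℕ) : F) * xc P * (((3 : ℕ) : F) * xc P ^ 2 + ((4 : ℕ) : F) * W.a₄)) *
          yc P ^ 2 := by
      rw [e1]
      push_cast
      ring
    have hA : v (((3 : ℕ) : F) * xc P ^ 2 + ((4 : ℕ) : F) * W.a₄) ≤ 1 := by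
      refine v.map_add_le ?_ ?_
      · rw [map_mul, map_pow]
        exact mul_le_one' (R1_nat 3) (pow_le_one' hxP 2)
      · rw [map_mul]
        exact mul_le_one' (R1_nat 4) h4
    have h7 : v (4 * W.a₄ ^ 3 + 27 * W.a₆ ^ 2) < 1 := by
      rw [hid]
      refine v.map_sub_lt ?_ ?_
      · rw [map_mul, map_mul]
        exact lt_of_le_of_lt (mul_le_of_le_one_left' (mul_le_one' hA hfle)) hcon
      · rw [map_mul]
        refine lt_of_le_of_lt (mul_le_of_le_one_left' ?_) hf0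
        refine v.map_add_le (v.map_sub_le (v.map_sub_le ?_ ?_) ?_) ?_
        · rw [map_mul, map_pow]
          exact mul_le_one' (R1_nat 3) (pow_le_one' hxP 3)
        · rw [map_mul, map_mul]
          exact mul_le_one' (mul_le_one' (R1_nat 5) h4) hxP
        · rw [map_mul]
          exact mul_le_one' (R1_nat 27) h6
        · rw [map_mul, map_mul]
          exact mul_le_one' (mul_le_one' (R1_nat 8) hxP) hA
    rw [hvd] at h7
    exact lt_irrefl _ h7
  by_cases hxx : xc P = xc Q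
  · -- same abscissa
    rcases xc_eq hP hQ hxx with h | h
    · rw [h, sub_self]
      rw [R1_inE1]
      exact Or.inl rfl
    · have hQP : Q = -P := by rw [h, neg_neg]
      have hyQP : yc Q = -yc P := by rw [hQP, yc_neg]
      have hy2 : v (yc P) < 1 := by
        have h1 : yc P - yc Q = 2 * yc P := by rw [hyQP]; ring
        rw [h1, map_mul, hv2, one_mul] at hy
        exact hy
      have hPQ : P - Q = 2 • P := by rw [hQP, sub_neg_eq_add, two_smul]
      rw [hPQ, R1_inE1]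
      by_cases hy0 : yc P = 0
      · left
        exact (two_smul_eq_zero_iff h20 hP).2 hy0
      · right
        have hd := xc_dbl h20 hP hy0
        have hv1 : v (4 * yc P ^ 2 * xc (2 • P)) = 1 := by
          rw [hd]
          have hid : (xc P ^ 2 - W.a₄) ^ 2 - 8 * W.a₆ * xc P =
              -(((8 : ℕ) : F) * xc P * yc P ^ 2) + (3 * xc P ^ 2 + W.a₄) ^ 2 := by
            rw [e1]
            push_cast
            ring
          rw [hid]
          have h8 : v ((3 * xc P ^ 2 + W.a₄) ^ 2) = 1 := by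
            rw [map_pow, hf' hy2, one_pow]
          rw [← h8]
          refine v.map_add_eq_of_lt_right ?_
          rw [h8, v.map_neg, map_mul, map_mul, map_pow]
          refine lt_of_le_of_lt (mul_le_of_le_one_left' (mul_le_one' (R1_nat 8) hxP)) ?_
          exact pow_lt_one₀ zero_le hy2 two_ne_zero
        have h42 : v (4 : F) = 1 := by
          have : (4 : F) = 2 ^ 2 := by norm_num
          rw [this, map_pow, hv2, one_pow]
        rw [map_mul, map_mul, h42, one_mul, map_pow] at hv1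
        by_contra hcon
        push Not at hcon
        have h9 : v (yc P) ^ 2 * v (xc (2 • P)) < 1 :=
          lt_of_le_of_lt (mul_le_of_le_one_right' hcon) (pow_lt_one₀ zero_le hy2 two_ne_zero)
        rw [hv1] at h9
        exact lt_irrefl _ h9
  · -- different abscissas
    have hxs : xc P - xc Q ≠ 0 := sub_ne_zero.2 hxx
    have hvx0 : 0 < v (xc P - xc Q) := by
      rw [zero_lt_iff]
      exact (Valuation.ne_zero_iff v).2 hxs
    have hs := R1_sub hP hQ hxx
    rw [R1_inE1]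
    right
    by_contra hcon
    push Not at hcon
    have hle : v (yc P + yc Q) ≤ 1 := v.map_add_le hyP hyQ
    -- `v (y + y') ≤ v (x - x')`
    have h10 : v (yc P + yc Q) ≤ v (xc P - xc Q) := by
      have h11 : v ((yc P + yc Q) ^ 2) ≤ v (xc P - xc Q) ^ 2 := by
        have : (yc P + yc Q) ^ 2 = (xc P - xc Q) ^ 2 * (xc (P - Q) + (xc P + xc Q)) := by
          linear_combination -hs
        rw [this, map_mul, map_pow]
        exact mul_le_of_le_one_right' (v.map_add_le hcon (v.map_add_le hxP hxQ))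
      rw [map_pow] at h11
      by_contra h12
      push Not at h12
      exact absurd h11 (not_le.2 (pow_lt_pow_left₀ h12 zero_le two_ne_zero))
    have h13 : v (yc P + yc Q) < 1 := h10.trans_lt hx
    have hyP1 : v (yc P) < 1 := by
      have h14 : v (2 * yc P) < 1 := by
        have : 2 * yc P = (yc P + yc Q) + (yc P - yc Q) := by ring
        rw [this]
        exact v.map_add_lt h13 hy
      rwa [map_mul, hv2, one_mul] at h14
    have hfp := hf' hyP1
    have hfac : (yc P - yc Q) * (yc P + yc Q) = (xc P - xc Q) *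
        ((xc P - xc Q) * (xc P - xc Q - ((3 : ℕ) : F) * xc P) + (3 * xc P ^ 2 + W.a₄)) := by
      push_cast
      linear_combination e1 - e2
    have hone : v ((xc P - xc Q) * (xc P - xc Q - ((3 : ℕ) : F) * xc P) +
        (3 * xc P ^ 2 + W.a₄)) = 1 := by
      rw [← hfp]
      refine v.map_add_eq_of_lt_right ?_
      rw [hfp, map_mul]
      refine lt_of_le_of_lt (mul_le_of_le_one_right' ?_) hx
      refine v.map_sub_le hx.le ?_
      rw [map_mul]
      exact mul_le_one' (R1_nat 3) hxP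
    have h15 := congrArg v hfac
    rw [map_mul, map_mul, hone, mul_one] at h15
    have h16 : v (yc P - yc Q) * v (yc P + yc Q) < v (xc P - xc Q) := by
      calc v (yc P - yc Q) * v (yc P + yc Q) ≤ v (yc P - yc Q) * v (xc P - xc Q) :=
            mul_le_mul_right h10 _
        _ < 1 * v (xc P - xc Q) := by
            exact mul_lt_mul_of_pos_right hy hvx0
        _ = v (xc P - xc Q) := one_mul _
    rw [h15] at h16
    exact lt_irrefl _ h16

end H16C
end

-- from Lib.H16A.U3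
section

/-!
# U3 (M): finiteness of the group of square classes unramified outside a finite set

`F` a number field, `B` a finite set of primes.  The subgroup `{x ∈ Fˣ/squares : par w x = 1 for all
w ∉ B}` is finite.  Proof.  The map to `(ℤ/2)^B` (parities at `B`) has finite target; its kernel consists
of the classes of `x` with all orders even: `(x) = J²`, and the class of `J` is in the finite group
`ClassGroup (𝓞 F)`; if `J` and `J'` are in the same class then `x/x' = (unit) · square`, and the group of units modulo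
squares is finite (`NumberField.Units`: finitely generated).  (Mathlib: `IsDedekindDomain.selmerGroup`,
`fromUnit`.)  Equivalently: the subgroup `F⟮B, 2⟯` is finite.
-/

open Polynomial IsDedekindDomain NumberField

namespace H16A

variable (F : Type*) [Field F] [NumberField F]

open Classical in
theorem U3_ord_eq_count (w : HeightOneSpectrum (𝓞 F)) (a : 𝓞 F) (ha : a ≠ 0) :
    ord w (a : F) =
      ((Associates.mk w.asIdeal).count (Associates.mk (Ideal.span {a})).factors : ℤ) := by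
  unfold ord
  have h : w.valuation F (a : F) = w.intValuation a := w.valuation_of_algebraMap a
  rw [h, w.intValuation_if_neg ha, WithZero.log_exp, neg_neg]

open Classical in
theorem U3_even_sq (a : 𝓞 F) (ha : a ≠ 0)
    (h : ∀ w : HeightOneSpectrum (𝓞 F), Even (ord w (a : F))) :
    ∃ J : Ideal (𝓞 F), J ≠ 0 ∧ Ideal.span {a} = J ^ 2 := by
  set I : Ideal (𝓞 F) := Ideal.span {a} with hI
  have hI0 : I ≠ 0 := by
    rw [hI, Ideal.zero_eq_bot, Ne, Ideal.span_singleton_eq_bot]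
    exact ha
  set n : HeightOneSpectrum (𝓞 F) → ℕ := fun w =>
    (Associates.mk w.asIdeal).count (Associates.mk I).factors with hn
  have hev : ∀ w, Even (n w) := by
    intro w
    have := h w
    rw [U3_ord_eq_count F w a ha] at this
    exact_mod_cast this
  have hfin : (Function.mulSupport fun w : HeightOneSpectrum (𝓞 F) =>
      w.asIdeal ^ (n w / 2)).Finite := by
    have h1 := Associates.finite_factors hI0
    rw [Filter.eventually_cofinite] at h1
    refine h1.subset ?_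
    intro w hw
    rw [Function.mem_mulSupport] at hw
    intro h2
    apply hw
    have h3 : n w = 0 := by exact_mod_cast h2
    rw [h3]
    simp
  have hJ : I = (∏ᶠ w : HeightOneSpectrum (𝓞 F), w.asIdeal ^ (n w / 2)) ^ 2 := by
    rw [finprod_pow hfin]
    conv_lhs => rw [← Ideal.finprod_heightOneSpectrum_factorization hI0]
    refine finprod_congr fun w => ?_
    rw [← pow_mul, Nat.div_mul_cancel (hev w).two_dvd]
    rfl
  refine ⟨_, ?_, hJ⟩
  intro h0
  apply hI0
  rw [hJ, h0]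
  simp

/-- the homomorphism from the units of the ring of integers to the square classes -/
noncomputable def U3_unitMap : (𝓞 F)ˣ →* SqC F :=
  (sqMk F).comp (Units.map (algebraMap (𝓞 F) F : 𝓞 F →* F))

theorem U3_unitMap_eq (u : (𝓞 F)ˣ) : U3_unitMap F u = cls ((u : 𝓞 F) : F) := by
  have h : ((u : 𝓞 F) : F) ≠ 0 := by
    simp
  rw [cls_eq h]
  unfold U3_unitMap
  rw [MonoidHom.comp_apply]
  congr 1
  ext
  rfl

theorem U3_range_finite : (Set.range (U3_unitMap F)).Finite := by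
  have h1 : Monoid.FG (U3_unitMap F).range := by
    have h2 : Group.FG (𝓞 F)ˣ := by
      rw [Group.fg_iff_monoid_fg]
      infer_instance
    have h3 : Group.FG (U3_unitMap F).range := Group.fg_range _
    rwa [Group.fg_iff_monoid_fg] at h3
  have h4 : Group.FG (U3_unitMap F).range := by
    rwa [Group.fg_iff_monoid_fg]
  have h5 : Finite (U3_unitMap F).range := by
    refine CommGroup.finite_of_fg_isMulTorsion _ ?_
    rintro ⟨x, hx⟩
    rw [isOfFinOrder_iff_pow_eq_one]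
    refine ⟨2, by norm_num, ?_⟩
    ext
    simp [pow_two, sqC_mul_self]
  exact Set.toFinite ((U3_unitMap F).range : Set (SqC F))

theorem U3_exists_int (x : SqC F) : ∃ a : 𝓞 F, a ≠ 0 ∧ cls (a : F) = x := by
  obtain ⟨m, hm, rfl⟩ := cls_surj x
  obtain ⟨a, b, hb, hab⟩ := IsFractionRing.div_surjective (A := 𝓞 F) m
  have hb0 : b ≠ 0 := nonZeroDivisors.ne_zero hb
  have hb1 : (b : F) ≠ 0 := by
    simpa using hb0
  have hab' : (a : F) / (b : F) = m := hab
  have ha1 : (a : F) ≠ 0 := by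
    intro h
    rw [h, zero_div] at hab'
    exact hm hab'.symm
  have ha0 : a ≠ 0 := by
    intro h
    rw [h] at ha1
    simp at ha1
  refine ⟨a * b, mul_ne_zero ha0 hb0, ?_⟩
  have h2 : (((a * b : 𝓞 F)) : F) = (a : F) * (b : F) := by simp
  rw [h2, cls_eq_cls_iff (mul_ne_zero ha1 hb1) hm, ← hab']
  exact ⟨(a : F), by field_simp⟩

theorem U3_kernel_finite : {x : SqC F | ∀ w, par w x = 1}.Finite := by
  classical
  have hcover : {x : SqC F | ∀ w, par w x = 1} ⊆
      ⋃ c : ClassGroup (𝓞 F), {x : SqC F | ∃ (J : nonZeroDivisors (Ideal (𝓞 F))) (a : 𝓞 F),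
        ClassGroup.mk0 J = c ∧ a ≠ 0 ∧ cls (a : F) = x ∧ Ideal.span {a} = (J : Ideal (𝓞 F)) ^ 2} := by
    intro x hx
    obtain ⟨a, ha, rfl⟩ := U3_exists_int F x
    have ha1 : (a : F) ≠ 0 := by simpa using ha
    obtain ⟨J, hJ, hJ2⟩ := U3_even_sq F a ha fun w => (par_cls_eq_one_iff w ha1).mp (hx w)
    rw [Set.mem_iUnion]
    exact ⟨ClassGroup.mk0 ⟨J, mem_nonZeroDivisors_of_ne_zero hJ⟩, ⟨J, mem_nonZeroDivisors_of_ne_zero hJ⟩,
      a, rfl, ha, rfl, hJ2⟩
  refine Set.Finite.subset (Set.finite_iUnion fun c => ?_) hcover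
  rcases Set.eq_empty_or_nonempty {x : SqC F | ∃ (J : nonZeroDivisors (Ideal (𝓞 F))) (a : 𝓞 F),
        ClassGroup.mk0 J = c ∧ a ≠ 0 ∧ cls (a : F) = x ∧
          Ideal.span {a} = (J : Ideal (𝓞 F)) ^ 2} with h | ⟨x0, J0, a0, hJ0, ha0, hx0, hs0⟩
  · rw [h]
    exact Set.finite_empty
  · refine ((U3_range_finite F).image (fun u => x0 * u)).subset ?_
    rintro x ⟨J, a, hJ, ha, hx, hs⟩
    obtain ⟨y, z, hy, hz, hyz⟩ := (ClassGroup.mk0_eq_mk0_iff).mp (hJ0.trans hJ.symm)
    have h1 : Ideal.span {y ^ 2 * a0} = Ideal.span {z ^ 2 * a} := by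
      rw [← Ideal.span_singleton_mul_span_singleton, ← Ideal.span_singleton_mul_span_singleton,
        ← Ideal.span_singleton_pow, ← Ideal.span_singleton_pow, hs0, hs, ← mul_pow, ← mul_pow, hyz]
    obtain ⟨u, hu⟩ := Ideal.span_singleton_eq_span_singleton.mp h1
    refine ⟨U3_unitMap F u, ⟨u, rfl⟩, ?_⟩
    have hy1 : (y : F) ≠ 0 := by simpa using hy
    have hz1 : (z : F) ≠ 0 := by simpa using hz
    have ha1 : (a : F) ≠ 0 := by simpa using ha
    have ha01 : (a0 : F) ≠ 0 := by simpa using ha0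
    have hu1 : ((u : 𝓞 F) : F) ≠ 0 := by
      simp
    have hu' : (y : F) ^ 2 * (a0 : F) * ((u : 𝓞 F) : F) = (z : F) ^ 2 * (a : F) := by
      exact_mod_cast congrArg (fun t : 𝓞 F => (t : F)) hu
    change x0 * U3_unitMap F u = x
    rw [← hx0, ← hx, U3_unitMap_eq, ← cls_mul ha01 hu1, cls_eq_cls_iff (mul_ne_zero ha01 hu1) ha1]
    refine ⟨(z : F) * (a : F) / (y : F), ?_⟩
    field_simp
    linear_combination hu'

theorem finite_unramified (B : Set (HeightOneSpectrum (𝓞 F))) (hB : B.Finite) :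
    {x : SqC F | ∀ w, w ∉ B → par w x = 1}.Finite := by
  classical
  have : Finite B := hB.to_subtype
  have hcover : {x : SqC F | ∀ w, w ∉ B → par w x = 1} ⊆
      ⋃ f : B → Multiplicative (ZMod 2), {x : SqC F | (∀ w, w ∉ B → par w x = 1) ∧
        ∀ w : B, par w.1 x = f w} := by
    intro x hx
    rw [Set.mem_iUnion]
    exact ⟨fun w => par w.1 x, hx, fun w => rfl⟩
  refine Set.Finite.subset (Set.finite_iUnion fun f => ?_) hcover
  rcases Set.eq_empty_or_nonempty {x : SqC F | (∀ w, w ∉ B → par w x = 1) ∧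
        ∀ w : B, par w.1 x = f w} with h | ⟨x0, h0, h0'⟩
  · rw [h]
    exact Set.finite_empty
  · refine ((U3_kernel_finite F).image (fun u => x0 * u)).subset ?_
    rintro x ⟨hx, hx'⟩
    refine ⟨x0⁻¹ * x, ?_, by simp⟩
    intro w
    rw [map_mul, map_inv]
    by_cases hw : w ∈ B
    · rw [h0' ⟨w, hw⟩, hx' ⟨w, hw⟩, inv_mul_cancel]
    · rw [h0 w hw, hx w hw, inv_mul_cancel]

/-- finitely many primes above the divisors of a nonzero integer -/
theorem finite_above {n : ℤ} (hn : n ≠ 0) :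
    {w : HeightOneSpectrum (𝓞 F) | ∃ p : ℕ, p.Prime ∧ (p : 𝓞 F) ∈ w.asIdeal ∧ (p : ℤ) ∣ n}.Finite := by
  have hn0 : ((n : ℤ) : 𝓞 F) ≠ 0 := by exact_mod_cast hn
  have hI : Ideal.span {((n : ℤ) : 𝓞 F)} ≠ 0 := by
    rw [Ideal.zero_eq_bot, Ne, Ideal.span_singleton_eq_bot]
    exact hn0
  refine (Ideal.finite_factors hI).subset ?_
  rintro w ⟨p, -, hp, k, hk⟩
  rw [Set.mem_ofPred_eq, Ideal.dvd_span_singleton, hk]
  push_cast
  exact Ideal.mul_mem_right _ _ hp

end H16A
end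

-- from Lib.H16C.MW1
section

/-!
# MW1 (M): weak Mordell-Weil theorem for the multiplication by 2, full 2-torsion

`L` a number field, `W` short and elliptic, `x³ + a₄ x + a₆ = (x - e₁)(x - e₂)(x - e₃)` with
`e_i ∈ L` (`e` injective since `Δ ≠ 0`; `e₁ + e₂ + e₃ = 0`).
(1) Halving: `P ≠ O`, `x - e_i = s_i²`, after a change of the sign of `s₁`: `y = s₁ s₂ s₃`
(`y² = ∏ (x - e_i)`; if `y = 0` any sign).  Put `D = (s₁+s₂)(s₁+s₃)(s₂+s₃)`, `D ≠ 0`
(`s_i² ≠ s_j²`), `x_Q = x + s₁s₂ + s₁s₃ + s₂s₃`, `y_Q = D`: `x_Q - e₁ = (s₁+s₂)(s₁+s₃)`, ..., so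
`Q ∈ E(L)`, `f'(x_Q) = 2 (s₁+s₂+s₃) D`, the tangent has the slope `s₁+s₂+s₃`, and `2 Q = P`.
(`xc_dbl`, `yc_dbl` or `Point.add_self`; a direct computation with `linear_combination`.)
(2) `P, P' ≠ O`, `x(P) - e_i`, `x(P') - e_i ≠ 0`, and `(x(P) - e_i)(x(P') - e_i)` is a square for
`i = 1, 2, 3`.  Then `P - P' ∈ 2 E(L)`: if `R = P - P' ≠ O` and `x(P) ≠ x(P')`: the three points
`P, -P', -R` lie on a line `Y = λ X + μ`, `f(X) - (λX + μ)² = (X - x(P))(X - x(P'))(X - x(R))`, at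
`X = e_i`: `(x(P) - e_i)(x(P') - e_i)(x(R) - e_i) = (λ e_i + μ)²`; so `x(R) - e_i` is a square for all
`i` and (1) applies.  If `x(P) = x(P')`: `P' = P`, `R = O`, or `P' = -P`, `R = 2P`.
(3) For `P ≠ O` with `y(P) ≠ 0` let `β_i(P)` = the class of `x(P) - e_i` in `H16A.SqC L`.  Let `B` be
the set of the primes `w` at which some `e_i` or some `(e_i - e_j)⁻¹` has a negative order: finite
(`HeightOneSpectrum.Support.finite`, cf. `H16A.finite_above`).  For `w ∉ B`: `ord_w(x - e_i)` is even: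
if `ord x < 0` then `ord(x - e_i) = ord x` for the three `i` and the sum is `2 ord y`; if `ord x ≥ 0`
at most one of the three orders is `> 0` (their differences are units), the others are `0`, the sum
is even (the same proof as `H16A.u1_par`).  So `β(P)` takes finitely many values
(`H16A.finite_unramified`, `H16A.par`), and by (2) the number of the classes of `E(L)/2E(L)` is at most
that number plus 4 (the points `O`, `(e_i, 0)`).
-/

open WeierstrassCurve NumberField IsDedekindDomain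

namespace H16C

section Alg

variable {L : Type*} [Field L] [DecidableEq L] {W : WeierstrassCurve.Affine L} [W.IsShortNF]
  {e : Fin 3 → L}

theorem MW1_coef [CharZero L]
    (he : ∀ x : L, x ^ 3 + W.a₄ * x + W.a₆ = (x - e 0) * (x - e 1) * (x - e 2)) :
    e 0 + e 1 + e 2 = 0 ∧ W.a₄ = e 0 * e 1 + e 0 * e 2 + e 1 * e 2 ∧ W.a₆ = -(e 0 * e 1 * e 2) := by
  have h0 := he 0
  have h1 := he 1
  have h2 := he (-1)
  have a6 : W.a₆ = -(e 0 * e 1 * e 2) := by linear_combination h0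
  have s1 : e 0 + e 1 + e 2 = 0 := by
    have h3 : (2 : L) * (e 0 + e 1 + e 2) = 0 := by linear_combination h1 + h2 - 2 * a6
    exact (mul_eq_zero.1 h3).resolve_left two_ne_zero
  have a4 : W.a₄ = e 0 * e 1 + e 0 * e 2 + e 1 * e 2 := by
    have h4 : (2 : L) * (W.a₄ - (e 0 * e 1 + e 0 * e 2 + e 1 * e 2)) = 0 := by
      linear_combination h1 - h2
    exact sub_eq_zero.1 ((mul_eq_zero.1 h4).resolve_left two_ne_zero)
  exact ⟨s1, a4, a6⟩

theorem MW1_disc [CharZero L]
    (he : ∀ x : L, x ^ 3 + W.a₄ * x + W.a₆ = (x - e 0) * (x - e 1) * (x - e 2)) :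
    W.Δ = 16 * ((e 0 - e 1) * (e 0 - e 2) * (e 1 - e 2)) ^ 2 := by
  obtain ⟨s1, a4, a6⟩ := MW1_coef he
  have h2 : e 2 = -e 0 - e 1 := by linear_combination s1
  rw [Δ_of_isShortNF, a4, a6, h2]
  ring

theorem MW1_inj [CharZero L] [W.IsElliptic]
    (he : ∀ x : L, x ^ 3 + W.a₄ * x + W.a₆ = (x - e 0) * (x - e 1) * (x - e 2)) :
    e 0 ≠ e 1 ∧ e 0 ≠ e 2 ∧ e 1 ≠ e 2 := by
  have hΔ : W.Δ ≠ 0 := W.isUnit_Δ.ne_zero
  rw [MW1_disc he] at hΔ
  refine ⟨fun h => hΔ ?_, fun h => hΔ ?_, fun h => hΔ ?_⟩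
  · rw [h]; ring
  · rw [h]; ring
  · rw [h]; ring

/-- halving -/
theorem MW1_halve [CharZero L] [W.IsElliptic]
    (he : ∀ x : L, x ^ 3 + W.a₄ * x + W.a₆ = (x - e 0) * (x - e 1) * (x - e 2))
    {P : W.Point} (hP : P ≠ 0) {a b c : L} (h0 : xc P - e 0 = a ^ 2) (h1 : xc P - e 1 = b ^ 2)
    (h2 : xc P - e 2 = c ^ 2) : P ∈ H16A.twoG W.Point := by
  obtain ⟨n01, n02, n12⟩ := MW1_inj he
  obtain ⟨s1, a4, a6⟩ := MW1_coef he
  have e0 : e 0 = xc P - a ^ 2 := by linear_combination -h0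
  have e1 : e 1 = xc P - b ^ 2 := by linear_combination -h1
  have e2 : e 2 = xc P - c ^ 2 := by linear_combination -h2
  have hx : 3 * xc P = a ^ 2 + b ^ 2 + c ^ 2 := by linear_combination h0 + h1 + h2 + s1
  have hab : a + b ≠ 0 := by
    intro h
    apply n01
    have : a = -b := by linear_combination h
    rw [e0, e1, this]
    ring
  have hac : a + c ≠ 0 := by
    intro h
    apply n02
    have : a = -c := by linear_combination h
    rw [e0, e2, this]
    ring
  have hbc : b + c ≠ 0 := by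
    intro h
    apply n12
    have : b = -c := by linear_combination h
    rw [e1, e2, this]
    ring
  have hD : (a + b) * (a + c) * (b + c) ≠ 0 := mul_ne_zero (mul_ne_zero hab hac) hbc
  obtain ⟨Q, hQ, hxQ, hyQ⟩ := exists_pt (W := W) (xc P + a * b + a * c + b * c)
    ((a + b) * (a + c) * (b + c)) (by
      rw [he, e0, e1, e2]
      ring)
  have h20 : (2 : L) ≠ 0 := two_ne_zero
  have hy0 : yc Q ≠ 0 := by rwa [hyQ]
  have h2Q : 2 • Q ≠ 0 := by
    intro h
    exact hy0 ((two_smul_eq_zero_iff h20 hQ).1 h)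
  have hd := xc_dbl h20 hQ hy0
  have hxx : xc (2 • Q) = xc P := by
    have h4 : (4 * yc Q ^ 2) ≠ 0 := mul_ne_zero (by norm_num) (pow_ne_zero 2 hy0)
    apply mul_left_cancel₀ h4
    rw [hd, hxQ, hyQ, a4, a6, e0, e1, e2]
    have hxP : xc P = (a ^ 2 + b ^ 2 + c ^ 2) / 3 := by
      rw [← hx]
      field_simp
    rw [hxP]
    ring
  rcases xc_eq h2Q hP hxx with h | h
  · exact ⟨Q, h⟩
  · refine ⟨-Q, ?_⟩
    change 2 • (-Q) = P
    rw [smul_neg, h, neg_neg]

theorem MW1_sub {P Q : W.Point} (hP : P ≠ 0) (hQ : Q ≠ 0) (h : xc P ≠ xc Q) :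
    (xc P - xc Q) ^ 2 * xc (P - Q) = (yc P + yc Q) ^ 2 - (xc P + xc Q) * (xc P - xc Q) ^ 2 := by
  cases P with
  | zero => exact absurd rfl hP
  | some x₁ y₁ h₁ =>
    cases Q with
    | zero => exact absurd rfl hQ
    | some x₂ y₂ h₂ =>
      have hx : x₁ ≠ x₂ := h
      have hx' : x₁ - x₂ ≠ 0 := sub_ne_zero.2 hx
      rw [sub_eq_add_neg (WeierstrassCurve.Affine.Point.some x₁ y₁ h₁),
        WeierstrassCurve.Affine.Point.neg_some,
        WeierstrassCurve.Affine.Point.add_of_X_ne hx]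
      change (x₁ - x₂) ^ 2 * (W.addX x₁ x₂ (W.slope x₁ x₂ y₁ (W.negY x₂ y₂))) =
        (y₁ + y₂) ^ 2 - (x₁ + x₂) * (x₁ - x₂) ^ 2
      rw [WeierstrassCurve.Affine.slope_of_X_ne hx, WeierstrassCurve.Affine.addX,
        WeierstrassCurve.Affine.negY, a₁_of_isShortNF, a₂_of_isShortNF, a₃_of_isShortNF]
      field_simp
      ring

theorem MW1_line {P Q : W.Point} (hP : P ≠ 0) (hQ : Q ≠ 0) (h : xc P ≠ xc Q) {r : L}
    (hr : r ^ 3 + W.a₄ * r + W.a₆ = 0) :
    (xc P - r) * (xc Q - r) * (xc (P - Q) - r) * (xc P - xc Q) ^ 2 =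
      (yc P * (xc Q - r) + yc Q * (xc P - r)) ^ 2 := by
  have h1 := MW1_sub hP hQ h
  have h2 := eqn hP
  have h3 := eqn hQ
  have h4 : (xc P - r) * (xc Q - r) * (xc (P - Q) - r) * (xc P - xc Q) ^ 2 =
      (xc P - r) * (xc Q - r) * ((yc P + yc Q) ^ 2 - (xc P + xc Q + r) * (xc P - xc Q) ^ 2) := by
    linear_combination (xc P - r) * (xc Q - r) * h1
  rw [h4]
  have h5 : yc P ^ 2 = (xc P - r) * (xc P ^ 2 + xc P * r + r ^ 2 + W.a₄) := by
    linear_combination h2 + hr
  have h6 : yc Q ^ 2 = (xc Q - r) * (xc Q ^ 2 + xc Q * r + r ^ 2 + W.a₄) := by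
    linear_combination h3 + hr
  linear_combination ((xc P - r) * (xc Q - r) - (xc Q - r) ^ 2) * h5 +
    ((xc P - r) * (xc Q - r) - (xc P - r) ^ 2) * h6

theorem MW1_diff [CharZero L] [W.IsElliptic]
    (he : ∀ x : L, x ^ 3 + W.a₄ * x + W.a₆ = (x - e 0) * (x - e 1) * (x - e 2))
    {P Q : W.Point} (hP : P ≠ 0) (hQ : Q ≠ 0) (hPe : ∀ i, xc P ≠ e i) (hQe : ∀ i, xc Q ≠ e i)
    (hs : ∀ i, IsSquare ((xc P - e i) * (xc Q - e i))) : P - Q ∈ H16A.twoG W.Point := by
  by_cases h : xc P = xc Q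
  · rcases xc_eq hP hQ h with h1 | h1
    · rw [h1, sub_self]
      exact zero_mem _
    · have h2 : P - Q = 2 • P := by
        have : Q = -P := by rw [h1, neg_neg]
        rw [this, sub_neg_eq_add, two_smul]
      rw [h2]
      exact ⟨P, rfl⟩
  · have hne := (ne_zero_of_xc_ne hP hQ h).2
    have hroot : ∀ i, e i ^ 3 + W.a₄ * e i + W.a₆ = 0 := by
      intro i
      rw [he]
      fin_cases i <;> simp
    have hsq : ∀ i, ∃ s, xc (P - Q) - e i = s ^ 2 := by
      intro i
      obtain ⟨r, hr⟩ := hs i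
      have h1 := MW1_line hP hQ h (hroot i)
      have hr0 : r ≠ 0 := by
        rintro rfl
        rw [mul_zero] at hr
        exact mul_ne_zero (sub_ne_zero.2 (hPe i)) (sub_ne_zero.2 (hQe i)) hr
      have hx0 : xc P - xc Q ≠ 0 := sub_ne_zero.2 h
      refine ⟨(yc P * (xc Q - e i) + yc Q * (xc P - e i)) / (r * (xc P - xc Q)), ?_⟩
      rw [div_pow, eq_div_iff (pow_ne_zero 2 (mul_ne_zero hr0 hx0)), ← h1, hr]
      ring
    obtain ⟨a, ha⟩ := hsq 0
    obtain ⟨b, hb⟩ := hsq 1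
    obtain ⟨c, hc⟩ := hsq 2
    exact MW1_halve he hne ha hb hc

end Alg

section Ord

open H16A

variable {F : Type*} [Field F] [NumberField F] (w : HeightOneSpectrum (𝓞 F))

theorem MW1_sub_nonneg {x y : F} (hx : 0 ≤ ord w x) (hy : 0 ≤ ord w y) : 0 ≤ ord w (x - y) := by
  by_cases h : x - y = 0
  · rw [h, v1_ord_zero]
  by_cases hx0 : x = 0
  · rw [hx0, zero_sub, ord_neg]
    exact hy
  by_cases hy0 : y = 0
  · rw [hy0, sub_zero]
    exact hx
  · rw [sub_eq_add_neg] at h ⊢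
    have h1 := le_ord_add w h hx0 (neg_ne_zero.2 hy0)
    rw [ord_neg] at h1
    exact le_trans (le_min hx hy) h1

theorem MW1_sub_of_neg {x y : F} (hx : ord w x < 0) (hy : 0 ≤ ord w y) :
    ord w (x - y) = ord w x := by
  have hx0 : x ≠ 0 := by
    rintro rfl
    rw [v1_ord_zero] at hx
    exact lt_irrefl _ hx
  by_cases hy0 : y = 0
  · rw [hy0, sub_zero]
  · rw [sub_eq_add_neg]
    exact (ord_add_of_lt w hx0 (neg_ne_zero.2 hy0) (by rw [ord_neg]; omega)).2

theorem MW1_even {r : Fin 3 → F} (h0 : ∀ i, 0 ≤ ord w (r i))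
    (hne : ∀ i j, i ≠ j → r i - r j ≠ 0) (h1 : ∀ i j, i ≠ j → ord w (r i - r j) = 0)
    {x y : F} (hprod : y ^ 2 = (x - r 0) * (x - r 1) * (x - r 2)) (hj : ∀ j, x ≠ r j)
    (i : Fin 3) : Even (ord w (x - r i)) := by
  have n0 := sub_ne_zero.2 (hj 0)
  have n1 := sub_ne_zero.2 (hj 1)
  have n2 := sub_ne_zero.2 (hj 2)
  have hsum : 2 * ord w y = ord w (x - r 0) + ord w (x - r 1) + ord w (x - r 2) := by
    have h2 := congrArg (ord w) hprod
    rw [ord_pow, ord_mul w (mul_ne_zero n0 n1) n2, ord_mul w n0 n1] at h2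
    exact_mod_cast h2
  by_cases hxn : ord w x < 0
  · rw [MW1_sub_of_neg w hxn (h0 i)]
    rw [MW1_sub_of_neg w hxn (h0 0), MW1_sub_of_neg w hxn (h0 1),
      MW1_sub_of_neg w hxn (h0 2)] at hsum
    exact ⟨ord w y - ord w x, by omega⟩
  · push Not at hxn
    have hnn : ∀ j, 0 ≤ ord w (x - r j) := fun j => MW1_sub_nonneg w hxn (h0 j)
    have hone : ∀ j k : Fin 3, j ≠ k → 0 < ord w (x - r j) → ord w (x - r k) = 0 := by
      intro j k hjk hpos
      by_contra hk
      have hk' : 0 < ord w (x - r k) := lt_of_le_of_ne (hnn k) (Ne.symm hk)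
      have h3 : r j - r k = (x - r k) + -(x - r j) := by ring
      have h4 : (x - r k) + -(x - r j) ≠ 0 := h3 ▸ hne j k hjk
      have h5 := le_ord_add w h4 (sub_ne_zero.2 (hj k)) (neg_ne_zero.2 (sub_ne_zero.2 (hj j)))
      rw [← h3, h1 j k hjk, ord_neg] at h5
      rcases min_le_iff.1 h5 with h6 | h6 <;> omega
    have a0 := hnn 0
    have a1 := hnn 1
    have a2 := hnn 2
    have b01 := hone 0 1 (by decide)
    have b02 := hone 0 2 (by decide)
    have b10 := hone 1 0 (by decide)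
    have b12 := hone 1 2 (by decide)
    have b20 := hone 2 0 (by decide)
    have b21 := hone 2 1 (by decide)
    fin_cases i
    · change Even (ord w (x - r 0))
      rcases eq_or_lt_of_le a0 with h6 | h6
      · rw [← h6]; exact Even.zero
      · exact ⟨ord w y, by have := b01 h6; have := b02 h6; omega⟩
    · change Even (ord w (x - r 1))
      rcases eq_or_lt_of_le a1 with h6 | h6
      · rw [← h6]; exact Even.zero
      · exact ⟨ord w y, by have := b10 h6; have := b12 h6; omega⟩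
    · change Even (ord w (x - r 2))
      rcases eq_or_lt_of_le a2 with h6 | h6
      · rw [← h6]; exact Even.zero
      · exact ⟨ord w y, by have := b20 h6; have := b21 h6; omega⟩

variable (F) in
theorem MW1_fin (z : F) : {w : HeightOneSpectrum (𝓞 F) | ord w z < 0}.Finite := by
  by_cases hz : z = 0
  · refine Set.Finite.subset Set.finite_empty ?_
    intro w hw
    rw [hz] at hw
    exact absurd hw (by
      change ¬ ord w 0 < 0
      rw [v1_ord_zero]
      exact lt_irrefl _)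
  · obtain ⟨a, b, hb, hab⟩ := IsFractionRing.div_surjective (A := 𝓞 F) z
    have hb0 : b ≠ 0 := nonZeroDivisors.ne_zero hb
    have hI : Ideal.span {b} ≠ 0 := by
      rw [Ideal.zero_eq_bot, Ne, Ideal.span_singleton_eq_bot]
      exact hb0
    refine (Ideal.finite_factors hI).subset ?_
    intro w hw
    rw [Set.mem_ofPred_eq, Ideal.dvd_span_singleton]
    by_contra hcon
    have hb1 : (b : F) ≠ 0 := fun h => hb0 (RingOfIntegers.ext h)
    have hab' : (a : F) / (b : F) = z := hab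
    have ha1 : (a : F) ≠ 0 := by
      intro h
      rw [h, zero_div] at hab'
      exact hz hab'.symm
    have h1 : ord w (b : F) = 0 := by
      have h2 := ord_int_nonneg w b
      have h3 : ¬ 0 < ord w (b : F) := fun h => hcon ((ord_int_pos_iff w hb0).1 h)
      omega
    have h4 : 0 ≤ ord w z := by
      rw [← hab', ord_div w ha1 hb1, h1, sub_zero]
      exact ord_int_nonneg w a
    exact absurd hw (not_lt.2 h4)

end Ord

theorem weak_mw {L : Type*} [Field L] [NumberField L] [DecidableEq L] (W : WeierstrassCurve.Affine L)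
    [W.IsShortNF] [W.IsElliptic] (e : Fin 3 → L)
    (he : ∀ x : L, x ^ 3 + W.a₄ * x + W.a₆ = (x - e 0) * (x - e 1) * (x - e 2)) :
    (H16A.twoG W.Point).index ≠ 0 := by
  classical
  obtain ⟨n01, n02, n12⟩ := MW1_inj he
  have hne : ∀ i j : Fin 3, i ≠ j → e i - e j ≠ 0 := by
    intro i j hij
    fin_cases i <;> fin_cases j
    · exact absurd rfl hij
    · exact sub_ne_zero.2 n01
    · exact sub_ne_zero.2 n02
    · exact sub_ne_zero.2 n01.symm
    · exact absurd rfl hij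
    · exact sub_ne_zero.2 n12
    · exact sub_ne_zero.2 n02.symm
    · exact sub_ne_zero.2 n12.symm
    · exact absurd rfl hij
  set B : Set (HeightOneSpectrum (𝓞 L)) :=
    (⋃ i : Fin 3, {w | H16A.ord w (e i) < 0}) ∪
      ⋃ p : Fin 3 × Fin 3, {w | H16A.ord w ((e p.1 - e p.2)⁻¹) < 0} with hB
  have hBfin : B.Finite :=
    (Set.finite_iUnion fun i => MW1_fin L (e i)).union (Set.finite_iUnion fun p => MW1_fin L _)
  set S : Set (H16A.SqC L) := {x | ∀ w, w ∉ B → H16A.par w x = 1} with hS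
  have hSfin : S.Finite := H16A.finite_unramified L B hBfin
  have hpi : (Set.pi Set.univ fun _ : Fin 3 => S).Finite := Set.Finite.pi fun _ => hSfin
  -- the generic points
  set A : Set W.Point := {P | P ≠ 0 ∧ ∀ i, xc P ≠ e i} with hA
  set beta : W.Point → Fin 3 → H16A.SqC L := fun P i => H16A.cls (xc P - e i) with hbeta
  have hβ : ∀ P ∈ A, beta P ∈ Set.pi Set.univ fun _ : Fin 3 => S := by
    rintro P ⟨hP, hPe⟩ i -
    intro w hw
    have h0 : ∀ i, 0 ≤ H16A.ord w (e i) := by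
      intro i
      by_contra hcon
      exact hw (Or.inl (Set.mem_iUnion.2 ⟨i, not_le.1 hcon⟩))
    have h1 : ∀ i j, i ≠ j → H16A.ord w (e i - e j) = 0 := by
      intro i j hij
      have h2 : 0 ≤ H16A.ord w (e i - e j) := MW1_sub_nonneg w (h0 i) (h0 j)
      have h3 : 0 ≤ H16A.ord w ((e i - e j)⁻¹) := by
        by_contra hcon
        exact hw (Or.inr (Set.mem_iUnion.2 ⟨(i, j), not_le.1 hcon⟩))
      rw [H16A.ord_inv] at h3
      omega
    change H16A.par w (H16A.cls (xc P - e i)) = 1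
    rw [H16A.par_cls_eq_one_iff w (sub_ne_zero.2 (hPe i))]
    refine MW1_even w h0 hne h1 (y := yc P) ?_ hPe i
    rw [eqn hP, he]
  set q : W.Point → W.Point ⧸ H16A.twoG W.Point := QuotientAddGroup.mk with hq
  have hgen : (q '' A).Finite := by
    have hfac : ∀ P ∈ A, ∀ P' ∈ A, beta P = beta P' → q P = q P' := by
      rintro P ⟨hP, hPe⟩ P' ⟨hP', hPe'⟩ h
      have h1 : P' - P ∈ H16A.twoG W.Point := by
        refine MW1_diff he hP' hP hPe' hPe fun i => ?_
        have h2 := congrFun h i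
        rw [eq_comm] at h2
        exact (H16A.cls_eq_cls_iff (sub_ne_zero.2 (hPe' i)) (sub_ne_zero.2 (hPe i))).1 h2
      rw [hq, QuotientAddGroup.eq]
      rwa [neg_add_eq_sub]
    have hex : ∀ b : Fin 3 → H16A.SqC L, ∃ c : W.Point ⧸ H16A.twoG W.Point,
        ∀ P ∈ A, beta P = b → q P = c := by
      intro b
      by_cases h : ∃ P ∈ A, beta P = b
      · obtain ⟨P, hP, hb⟩ := h
        exact ⟨q P, fun P' hP' hb' => hfac P' hP' P hP (hb'.trans hb.symm)⟩
      · exact ⟨0, fun P hP hb => absurd ⟨P, hP, hb⟩ h⟩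
    choose k hk using hex
    refine (hpi.image k).subset ?_
    rintro c ⟨P, hP, rfl⟩
    exact ⟨beta P, hβ P hP, (hk (beta P) P hP rfl).symm⟩
  have hroot : ∀ i, {P : W.Point | P ≠ 0 ∧ xc P = e i}.Finite := by
    intro i
    refine Set.Subsingleton.finite ?_
    rintro P ⟨hP, hPe⟩ P' ⟨hP', hPe'⟩
    have hy : ∀ R : W.Point, R ≠ 0 → xc R = e i → yc R = 0 := by
      intro R hR hx
      have h1 := eqn hR
      rw [he, hx] at h1
      have h2 : (e i - e 0) * (e i - e 1) * (e i - e 2) = 0 := by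
        fin_cases i <;> simp
      rw [h2] at h1
      exact pow_eq_zero_iff (two_ne_zero) |>.1 h1
    exact pt_ext hP hP' (hPe.trans hPe'.symm) ((hy P hP hPe).trans (hy P' hP' hPe').symm)
  have hall : (Set.univ : Set (W.Point ⧸ H16A.twoG W.Point)) ⊆
      (q '' A) ∪ ({q 0} ∪ ⋃ i : Fin 3, q '' {P : W.Point | P ≠ 0 ∧ xc P = e i}) := by
    intro c _
    obtain ⟨P, rfl⟩ := QuotientAddGroup.mk_surjective c
    by_cases h0 : P = 0
    · right; left
      rw [h0]
      rfl
    · by_cases hi : ∀ i, xc P ≠ e i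
      · left
        exact ⟨P, ⟨h0, hi⟩, rfl⟩
      · push Not at hi
        obtain ⟨i, hi⟩ := hi
        right; right
        exact Set.mem_iUnion.2 ⟨i, P, ⟨h0, hi⟩, rfl⟩
  have hfin : (Set.univ : Set (W.Point ⧸ H16A.twoG W.Point)).Finite :=
    (hgen.union ((Set.finite_singleton _).union
      (Set.finite_iUnion fun i => (hroot i).image q))).subset hall
  have : Finite (W.Point ⧸ H16A.twoG W.Point) := Set.finite_univ_iff.1 hfin
  exact AddSubgroup.index_ne_zero_of_finite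

end H16C
end

-- from Lib.H16C.D3
section

/-!
# D3 (M): `x(kP) = x - ψ_{k+1} ψ_{k-1} / ψ_k²` and rank of apparition

Notation: `P = (x, y)`, `g_k = psi W x y k`, `x_k = xc (k • P)`, `h_k = 2 yc (k • P)`.  Assume
`k • P ≠ 0` for `0 < k < N`.  By strong induction on `k` prove, for `0 < k < N`:
  (a) `g_k ≠ 0`,   (b) `g_k² (x_1 - x_k) = g_{k+1} g_{k-1}`.
`k = 1`: `g_1 = 1`, `g_0 = 0`.
`k = 2`: `g_2 = 2y ≠ 0` (`two_smul_eq_zero_iff`), (b) is `(2y)² (x - x(2P)) = g_3`: `xc_dbl`,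
`psi_three`, `eqn`.
(a) for `k ≥ 3`: (b) for `k - 1` gives `g_k g_{k-2} = g_{k-1}² (x_1 - x_{k-1})`, and
`x_1 ≠ x_{k-1}` because `P ± (k-1) P ≠ 0` (`xc_ne`).
If (b) holds for `m` and `m + 1` then (`psi_odd`, `m ≥ 1`)
  (c_m) `g_{2m+1} = g_{m+2} g_m³ - g_{m-1} g_{m+1}³ = (g_m g_{m+1})² (x_m - x_{m+1})`.
If (b) holds for `m - 1` and `m + 1`, `m ≥ 2` then (`psi_even`)
  (c'_m) `g_{2m} g_2 = g_m (g_{m+2} g_{m-1}² - g_{m-2} g_{m+1}²) = (g_{m-1} g_{m+1})² (x_{m-1} - x_{m+1})`,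
and with `xc_sub_sub_add` for `(mP, P)`: `h_m h_1 = (x_{m-1} - x_{m+1}) (x_m - x_1)²`, (b) for `m`:
`(x_1 - x_m)² g_m⁴ = (g_{m+1} g_{m-1})²`, `g_2 = h_1 ≠ 0`:
  (d_m) `g_{2m} = g_m⁴ h_m`   (`m = 1`: `g_2 = h_1`; `m = 2` directly: `psi_four`, `yc_dbl`).
(b) for `k = 2m`, `m ≥ 2` (`m + 1 < k`): `xdbl` for `(mP, P)`:
`(x_m - x_1)² (x_m - x_{m+1}) (x_m - x_{m-1}) = h_m² (x_{2m} - x_1)`; multiply by `g_m⁸`, use (b_m),
(c_m), (c_{m-1}), (d_m): `g_{2m}² (x_1 - x_{2m}) = g_{2m+1} g_{2m-1}` (after cancelling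
`(g_{m+1} g_{m-1})²`).
(b) for `k = 2m - 1`, `m ≥ 2` (for `m ≥ 3`: `m + 1 < k`, so (d_m) is available; `m = 2`: (d_2)
directly): `xc_sub_sub_add` for `(mP, (m-1)P)`: `h_m h_{m-1} = (x_1 - x_{2m-1}) (x_m - x_{m-1})²`;
multiply by `(g_m g_{m-1})⁴`, use (d_m), (d_{m-1}), (c_{m-1}):
`g_{2m} g_{2m-2} = (x_1 - x_{2m-1}) g_{2m-1}²`.
The points `m P, (m ± 1) P, ...` that occur are `≠ 0` and have different `x`-coordinates since all
`j P ≠ 0` for `0 < j < N` (`xc_ne`).
Second statement: `N • P = 0`, `N ≥ 3`: (b) for `k = N - 1`: `g_N g_{N-2} = g_{N-1}² (x_1 - x_{N-1})`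
`= 0` because `(N-1) P = -P`, and `g_{N-2} ≠ 0`.  `N = 2`: `g_2 = 2y = 0`.
-/

open WeierstrassCurve

namespace H16C

variable {F : Type*} [Field F] [DecidableEq F] {W : WeierstrassCurve.Affine F} [W.IsShortNF]

theorem D3_two {P : W.Point} (h2 : (2 : F) ≠ 0) (hP : P ≠ 0) (hy : yc P ≠ 0) :
    psi W (xc P) (yc P) 4 = psi W (xc P) (yc P) 2 ^ 4 * (2 * yc (2 • P)) := by
  have h1 := yc_dbl h2 hP hy
  rw [psi_four, psi_two, ← h1]
  ring

theorem psi_main (h2 : (2 : F) ≠ 0) {P : W.Point} (hP : P ≠ 0) (N : ℕ)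
    (hN : ∀ k : ℕ, 0 < k → k < N → k • P ≠ 0) (k : ℕ) (hk : 0 < k) (hkN : k < N) :
    psi W (xc P) (yc P) k ≠ 0 ∧
      psi W (xc P) (yc P) k ^ 2 * (xc P - xc (k • P)) =
        psi W (xc P) (yc P) (k + 1) * psi W (xc P) (yc P) (k - 1) := by
  obtain ⟨g, hg⟩ : ∃ g : ℤ → F, g = psi W (xc P) (yc P) := ⟨_, rfl⟩
  obtain ⟨X, hX⟩ : ∃ X : ℕ → F, X = fun j => xc (j • P) := ⟨_, rfl⟩
  obtain ⟨Y, hY⟩ : ∃ Y : ℕ → F, Y = fun j => yc (j • P) := ⟨_, rfl⟩
  have hX' : ∀ j : ℕ, xc (j • P) = X j := fun j => by rw [hX]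
  have hY' : ∀ j : ℕ, yc (j • P) = Y j := fun j => by rw [hY]
  have hX1 : xc P = X 1 := by rw [hX]; simp
  have hY1 : yc P = Y 1 := by rw [hY]; simp
  have g0 : g 0 = 0 := by rw [hg]; exact psi_zero W
  have g1 : g 1 = 1 := by rw [hg]; exact psi_one W
  have g2 : g 2 = 2 * Y 1 := by rw [hg, ← hY1]; exact psi_two W
  have godd : ∀ m : ℤ, g (2 * m + 1) = g (m + 2) * g m ^ 3 - g (m - 1) * g (m + 1) ^ 3 := by
    rw [hg]; exact psi_odd W
  have geven : ∀ m : ℤ, g (2 * m) * (2 * Y 1) =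
      g (m - 1) ^ 2 * g m * g (m + 2) - g (m - 2) * g m * g (m + 1) ^ 2 := by
    rw [hg, ← hY1]; exact psi_even W
  -- main claim
  suffices H : ∀ k : ℕ, 0 < k → k < N → g k ≠ 0 ∧ g k ^ 2 * (X 1 - X k) = g (k + 1) * g (k - 1) by
    have := H k hk hkN
    rw [← hg, hX1, hX']
    exact this
  clear hk hkN k
  intro k
  induction k using Nat.strong_induction_on with
  | _ k ih =>
  intro hk hkN
  -- the cases `k = 1`
  rcases Nat.lt_or_ge k 2 with hk2 | hk2
  · have : k = 1 := by omega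
    subst this
    refine ⟨?_, ?_⟩
    · rw [Nat.cast_one, g1]
      exact one_ne_zero
    · rw [Nat.cast_one, sub_self, sub_self, g0]
      ring
  -- `2 P ≠ 0`
  have h2P : 2 • P ≠ 0 := hN 2 (by norm_num) (by omega)
  have hy0 : yc P ≠ 0 := fun h => h2P ((two_smul_eq_zero_iff h2 hP).mpr h)
  have hY10 : Y 1 ≠ 0 := by rwa [← hY1]
  have hg20 : g 2 ≠ 0 := by
    rw [g2]
    exact mul_ne_zero h2 hY10
  rcases Nat.lt_or_ge k 3 with hk3 | hk3
  · have : k = 2 := by omega
    subst this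
    refine ⟨?_, ?_⟩
    · exact_mod_cast hg20
    · have e1 := xc_dbl h2 hP hy0
      have e2 := eqn hP
      have e3 : g 3 = 3 * X 1 ^ 4 + 6 * W.a₄ * X 1 ^ 2 + 12 * W.a₆ * X 1 - W.a₄ ^ 2 := by
        rw [hg, ← hX1]
        exact psi_three W
      rw [show ((2 : ℕ) : ℤ) + 1 = 3 by norm_num, show ((2 : ℕ) : ℤ) - 1 = 1 by norm_num,
        show ((2 : ℕ) : ℤ) = 2 by norm_num, g1, g2, e3]
      rw [hX1, hY1, hX'] at e1
      rw [hX1, hY1] at e2
      linear_combination -e1 + 4 * X 1 * e2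
  -- the main case
  have ih' : ∀ j : ℕ, 0 < j → j < k →
      g j ≠ 0 ∧ g j ^ 2 * (X 1 - X j) = g (j + 1) * g (j - 1) :=
    fun j hj hjk => ih j hjk hj (hjk.trans hkN)
  -- the points
  have hsm : ∀ i j : ℕ, j ≤ i → i • P - j • P = (i - j) • P := by
    intro i j h
    rw [sub_nsmul P h, sub_eq_add_neg]
  have hne : ∀ i j : ℕ, 0 < j → j < i → i + j < N → X i ≠ X j := by
    intro i j hj hji hij
    rw [← hX', ← hX']
    apply xc_ne (hN i (by omega) (by omega)) (hN j hj (by omega))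
    · rw [← add_smul]
      exact hN _ (by omega) hij
    · rw [hsm i j hji.le]
      exact hN _ (by omega) (by omega)
  have hsub : ∀ i j : ℕ, 0 < j → j < i → i + j < N →
      (X i - X j) ^ 2 * (X (i - j) - X (i + j)) = (2 * Y i) * (2 * Y j) := by
    intro i j hj hji hij
    have e := xc_sub_sub_add (hN i (by omega) (by omega)) (hN j hj (by omega))
      (by rw [hX', hX']; exact hne i j hj hji hij)
    rw [← add_smul, hsm i j hji.le, hX', hX', hX', hX', hY', hY'] at e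
    rw [e]
    ring
  -- (c)
  have hc : ∀ n : ℕ, 0 < n → n + 1 < k →
      g (2 * n + 1) = (g n * g (n + 1)) ^ 2 * (X n - X (n + 1)) := by
    intro n hn hnk
    have b1 := (ih' n hn (by omega)).2
    have b2 := (ih' (n + 1) (by omega) hnk).2
    push_cast at b2
    rw [show (n : ℤ) + 1 + 1 = n + 2 by ring, show (n : ℤ) + 1 - 1 = n by ring] at b2
    rw [godd]
    linear_combination - g n ^ 2 * b2 + g (n + 1) ^ 2 * b1
  -- (d)
  have hd : ∀ m : ℕ, 0 < m → m < k → (m = 1 ∨ m = 2 ∨ m + 1 < k) →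
      g (2 * m) = g m ^ 4 * (2 * Y m) := by
    intro m hm hmk hcase
    rcases Nat.lt_or_ge m 2 with hm2 | hm2
    · have : m = 1 := by omega
      subst this
      rw [Nat.cast_one, mul_one, g1, g2]
      ring
    rcases Nat.lt_or_ge m 3 with hm3 | hm3
    · have : m = 2 := by omega
      subst this
      have := D3_two h2 hP hy0
      rw [← hg, hY'] at this
      exact this
    · have hmk1 : m + 1 < k := by omega
      obtain ⟨n, rfl⟩ : ∃ n, m = n + 1 := ⟨m - 1, by omega⟩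
      have b1 := (ih' n (by omega) (by omega)).2
      have b2 := (ih' (n + 1) (by omega) (by omega)).2
      have b3 := (ih' (n + 2) (by omega) (by omega)).2
      have hs := hsub (n + 1) 1 (by norm_num) (by omega) (by omega)
      rw [Nat.add_sub_cancel, show n + 1 + 1 = n + 2 by ring] at hs
      have he := geven (n + 1)
      push_cast at *
      rw [show (n : ℤ) + 1 + 1 = n + 2 by ring, show (n : ℤ) + 1 - 1 = n by ring] at b2
      rw [show (n : ℤ) + 2 + 1 = n + 3 by ring, show (n : ℤ) + 2 - 1 = n + 1 by ring] at b3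
      rw [show (n : ℤ) + 1 + 1 = n + 2 by ring, show (n : ℤ) + 1 - 1 = n by ring,
        show (n : ℤ) + 1 - 2 = n - 1 by ring, show (n : ℤ) + 1 + 2 = n + 3 by ring] at he
      apply mul_right_cancel₀ (mul_ne_zero h2 hY10)
      rw [he]
      have e1 : g n ^ 2 * g (n + 1) * g (n + 3) - g (n - 1) * g (n + 1) * g (n + 2) ^ 2 =
          (g (n + 2) * g n) ^ 2 * (X n - X (n + 2)) := by
        linear_combination -g n ^ 2 * b3 + g (n + 2) ^ 2 * b1
      rw [e1, ← b2]
      linear_combination g (n + 1) ^ 4 * hs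
  -- (a)
  have ha : g k ≠ 0 := by
    obtain ⟨n, rfl⟩ : ∃ n, k = n + 2 := ⟨k - 2, by omega⟩
    have b := ih' (n + 1) (by omega) (by omega)
    have hx := hne (n + 1) 1 (by norm_num) (by omega) (by omega)
    intro h0
    have b2 := b.2
    push_cast at b2 h0
    rw [show (n : ℤ) + 1 + 1 = n + 2 by ring, h0, zero_mul] at b2
    rcases mul_eq_zero.mp b2 with h3 | h3
    · apply b.1
      push_cast
      exact pow_eq_zero_iff (two_ne_zero) |>.mp h3
    · exact hx (sub_eq_zero.mp h3).symm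
  refine ⟨ha, ?_⟩
  rcases Nat.even_or_odd' k with ⟨m, hm | hm⟩
  · -- even
    obtain ⟨n, rfl⟩ : ∃ n, m = n + 1 := ⟨m - 1, by omega⟩
    have b2 := (ih' (n + 1) (by omega) (by omega)).2
    have c1 := hc n (by omega) (by omega)
    have c2 := hc (n + 1) (by omega) (by omega)
    have d := hd (n + 1) (by omega) (by omega) (by omega)
    have hx := hne (n + 1) 1 (by norm_num) (by omega) (by omega)
    have hmP : (n + 1) • P ≠ 0 := hN _ (by omega) (by omega)
    have hY2 : yc ((n + 1) • P) ≠ 0 := by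
      intro h
      have h3 := (two_smul_eq_zero_iff h2 hmP).mpr h
      rw [← mul_smul, ← hm] at h3
      exact hN k hk hkN h3
    have hdb := xdbl h2 hmP hP (by rw [hX', hX1]; exact hx) hY2
    rw [← mul_smul, ← hm] at hdb
    have e1 : (n + 1) • P + P = (n + 2) • P := by
      rw [show n + 2 = n + 1 + 1 by ring, add_smul (n + 1) 1 P, one_smul]
    have e2 : (n + 1) • P - P = n • P := by
      rw [add_smul, one_smul, add_sub_cancel_right]
    rw [e1, e2, hX', hX', hX', hX', hX1, hY'] at hdb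
    have hkz : (k : ℤ) = 2 * (n + 1) := by
      rw [hm]; push_cast; ring
    have hkz1 : (k : ℤ) + 1 = 2 * (n + 1) + 1 := by rw [hkz]
    have hkz2 : (k : ℤ) - 1 = 2 * n + 1 := by rw [hkz]; ring
    push_cast at *
    rw [show (n : ℤ) + 1 + 1 = n + 2 by ring, show (n : ℤ) + 1 - 1 = n by ring] at b2
    rw [show (n : ℤ) + 1 + 1 = n + 2 by ring] at c2
    rw [hkz1, hkz2, hkz, c1, c2, d]
    have e3 : (g (n + 1) * g (n + 2)) ^ 2 * (X (n + 1) - X (n + 1 + 1)) *
        ((g n * g (n + 1)) ^ 2 * (X n - X (n + 1))) =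
        g (n + 1) ^ 4 * (g (n + 2) * g n) ^ 2 * ((X (n + 1) - X (n + 2)) * (X n - X (n + 1))) := by
      ring
    rw [e3, ← b2]
    linear_combination g (n + 1) ^ 8 * hdb
  · -- odd
    obtain ⟨n, rfl⟩ : ∃ n, m = n + 1 := ⟨m - 1, by omega⟩
    have c1 := hc (n + 1) (by omega) (by omega)
    have d1 := hd (n + 1) (by omega) (by omega) (by omega)
    have d2 := hd (n + 2) (by omega) (by omega) (by omega)
    have hs := hsub (n + 2) (n + 1) (by omega) (by omega) (by omega)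
    rw [show n + 2 - (n + 1) = 1 by omega, show n + 2 + (n + 1) = k by omega] at hs
    have hkz : (k : ℤ) = 2 * (n + 1) + 1 := by
      rw [hm]; push_cast; ring
    have hkz1 : (k : ℤ) + 1 = 2 * (n + 2) := by rw [hkz]; ring
    have hkz2 : (k : ℤ) - 1 = 2 * (n + 1) := by rw [hkz]; ring
    push_cast at *
    rw [show (n : ℤ) + 1 + 1 = n + 2 by ring] at c1
    rw [hkz1, hkz2, hkz, c1, d1, d2]
    linear_combination g (n + 1) ^ 4 * g (n + 2) ^ 4 * hs

theorem psi_order (h2 : (2 : F) ≠ 0) {P : W.Point} (hP : P ≠ 0) (N : ℕ) (hN2 : 2 ≤ N)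
    (hN : ∀ k : ℕ, 0 < k → k < N → k • P ≠ 0) (hNP : N • P = 0) :
    psi W (xc P) (yc P) N = 0 := by
  rcases Nat.lt_or_ge N 3 with h3 | h3
  · have : N = 2 := by omega
    subst this
    have := psi_two W (x := xc P) (y := yc P)
    rw [(two_smul_eq_zero_iff h2 hP).mp hNP, mul_zero] at this
    rw [(two_smul_eq_zero_iff h2 hP).mp hNP]
    exact_mod_cast this
  · obtain ⟨n, rfl⟩ : ∃ n, N = n + 2 := ⟨N - 2, by omega⟩
    have b := (psi_main h2 hP (n + 2) hN (n + 1) (by omega) (by omega)).2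
    have b' := (psi_main h2 hP (n + 2) hN n (by omega) (by omega)).1
    have e : (n + 1) • P = -P := by
      apply eq_neg_of_add_eq_zero_left
      rw [show n + 2 = n + 1 + 1 by ring, add_smul (n + 1) 1 P, one_smul] at hNP
      exact hNP
    rw [e, xc_neg, sub_self, mul_zero] at b
    push_cast at b ⊢
    rw [show (n : ℤ) + 1 + 1 = n + 2 by ring, show (n : ℤ) + 1 - 1 = n by ring] at b
    exact (mul_eq_zero.mp b.symm).resolve_right b'

end H16C
end

-- from Lib.H16C.D4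
section

/-!
# D4 (S/M): the elliptic relation at a point of large order

Notation of D3.  If `k • P ≠ 0` for `0 < k ≤ i + j` then, for `0 < j < i`,
  `D(i, j) : g_{i+j} g_{i-j} = g_i² g_j² (x_j - x_i)`.
Induction on `i`.  `i = j + 1`: (c_j) of D3, i.e. `psi_odd` for `m = j` and (b) (= `psi_main`) for
`j`, `j + 1`.  `i = j + 2`: `psi_even` for `m = j + 1` and (b) for `j`, `j + 2`:
`g_{2m} g_2 = g_m (g_{m+2} g_{m-1}² - g_{m-2} g_{m+1}²) = (g_{m-1} g_{m+1})² (x_{m-1} - x_{m+1})`.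
`i → i + 1` for `i ≥ j + 2`: `xsym` for `(iP, jP, P)`:
`(x_i-x_j)² (x_1-x_{i+j}) (x_1-x_{i-j}) = (x_i-x_1)² (x_j-x_{i+1}) (x_j-x_{i-1})`; insert `D(i, j)`,
`D(i-1, j)` and (b) for `i`, `i + j`, `i - j` and cancel the nonzero factors
(`x_j ≠ x_{i-1}`, `g_k ≠ 0` for `0 < k ≤ i + j`):
`g_{i+j+1} g_{i-j+1} = g_{i+1}² g_j² (x_j - x_{i+1})`.
The statement follows from `D(i, j)` and (b) for `i`, `j`:
`g_i² g_j² (x_j - x_i) = g_j² g_i² (x_1 - x_i) - g_i² g_j² (x_1 - x_j)`.
-/

open WeierstrassCurve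

namespace H16C

variable {F : Type*} [Field F] [DecidableEq F] {W : WeierstrassCurve.Affine F} [W.IsShortNF]

theorem D4_b (h2 : (2 : F) ≠ 0) {P : W.Point} (hP : P ≠ 0) (M : ℕ)
    (hN : ∀ k : ℕ, 0 < k → k ≤ M → k • P ≠ 0) (k : ℕ) (a b c : ℤ) (hk : 0 < k) (hkM : k ≤ M)
    (ha : a = k) (hb : b = k + 1) (hc : c = k - 1) :
    psi W (xc P) (yc P) a ≠ 0 ∧
      psi W (xc P) (yc P) a ^ 2 * (xc P - xc (k • P)) =
        psi W (xc P) (yc P) b * psi W (xc P) (yc P) c := by
  subst ha hb hc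
  exact psi_main h2 hP (M + 1) (fun k h1 h3 => hN k h1 (Nat.lt_succ_iff.1 h3)) k hk
    (Nat.lt_succ_iff.2 hkM)

theorem D4_D (h2 : (2 : F) ≠ 0) {P : W.Point} (hP : P ≠ 0) (j : ℕ) (hj : 0 < j) (d : ℕ) :
    (∀ k : ℕ, 0 < k → k ≤ 2 * j + d + 1 → k • P ≠ 0) →
    psi W (xc P) (yc P) (2 * j + d + 1) * psi W (xc P) (yc P) (d + 1) =
      psi W (xc P) (yc P) (j + d + 1) ^ 2 * psi W (xc P) (yc P) j ^ 2 *
        (xc (j • P) - xc ((j + d + 1) • P)) := by
  induction d using Nat.twoStepInduction with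
  | zero =>
    intro hN
    obtain ⟨_, b1⟩ := D4_b h2 hP _ hN j j (j + 1) (j - 1) hj (by omega) rfl rfl rfl
    obtain ⟨_, b2⟩ := D4_b h2 hP _ hN (j + 1) (j + 1) (j + 2) j (by omega) (by omega)
      (by push_cast; ring) (by push_cast; ring) (by push_cast; ring)
    have h3 := psi_odd W (x := xc P) (y := yc P) (j : ℤ)
    simp only [Nat.cast_zero, add_zero, zero_add]
    rw [psi_one, h3]
    linear_combination (-psi W (xc P) (yc P) j ^ 2) * b2 + psi W (xc P) (yc P) (j + 1) ^ 2 * b1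
  | one =>
    intro hN
    obtain ⟨_, b1⟩ := D4_b h2 hP _ hN j j (j + 1) (j - 1) hj (by omega) rfl rfl rfl
    obtain ⟨_, b2⟩ := D4_b h2 hP _ hN (j + 1 + 1) (j + 1 + 1) (j + 3) (j + 1) (by omega) (by omega)
      (by push_cast; ring) (by push_cast; ring) (by push_cast; ring)
    have h3 := psi_even W (x := xc P) (y := yc P) ((j : ℤ) + 1)
    have e1 : 2 * ((j : ℤ) + 1) = 2 * (j : ℤ) + 1 + 1 := by ring
    have e2 : (j : ℤ) + 1 - 1 = j := by ring
    have e3 : (j : ℤ) + 1 + 2 = j + 3 := by ring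
    have e4 : (j : ℤ) + 1 - 2 = j - 1 := by ring
    rw [e1, e2, e3, e4] at h3
    simp only [Nat.cast_one]
    have e5 : (1 : ℤ) + 1 = 2 := by norm_num
    rw [e5, psi_two]
    linear_combination h3 + (-psi W (xc P) (yc P) j ^ 2) * b2 +
      psi W (xc P) (yc P) (j + 1 + 1) ^ 2 * b1
  | more d ih1 ih2 =>
    intro hN
    have hD1 := ih1 (fun k h1 h3 => hN k h1 (by omega))
    have hD2 := ih2 (fun k h1 h3 => hN k h1 (by omega))
    have z : ∀ k : ℕ, 0 < k → k ≤ 2 * j + (d + 2) + 1 → k • P ≠ 0 := hN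
    -- the points
    have p1 : (j + d + 2) • P + j • P = (2 * j + d + 2) • P := by
      rw [← add_nsmul]
      congr 1
      ring
    have p2 : (j + d + 2) • P - j • P = (d + 2) • P := by
      rw [sub_eq_iff_eq_add, ← add_nsmul]
      congr 1
      ring
    have p3 : (j + d + 2) • P + P = (j + d + 3) • P := by
      rw [← succ_nsmul]
    have p4 : (j + d + 2) • P - P = (j + d + 1) • P := by
      rw [sub_eq_iff_eq_add, ← succ_nsmul]
    have z1 := z (j + d + 2) (by omega) (by omega)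
    have z2 := z j hj (by omega)
    have x1 : xc ((j + d + 2) • P) ≠ xc (j • P) := xc_ne z1 z2
      (by rw [p1]; exact z _ (by omega) (by omega)) (by rw [p2]; exact z _ (by omega) (by omega))
    have x2 : xc ((j + d + 2) • P) ≠ xc P := xc_ne z1 hP
      (by rw [p3]; exact z _ (by omega) (by omega)) (by rw [p4]; exact z _ (by omega) (by omega))
    have hx := xsym z1 z2 hP x1 x2
    rw [p1, p2, p3, p4] at hx
    obtain ⟨_, b3⟩ := D4_b h2 hP _ hN (j + d + 2) (j + d + 2) (j + d + 3) (j + d + 1) (by omega)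
      (by omega) (by push_cast; ring) (by push_cast; ring) (by push_cast; ring)
    obtain ⟨_, b4⟩ := D4_b h2 hP _ hN (2 * j + d + 2) (2 * j + d + 2) (2 * j + d + 3)
      (2 * j + d + 1) (by omega) (by omega) (by push_cast; ring) (by push_cast; ring)
      (by push_cast; ring)
    obtain ⟨_, b5⟩ := D4_b h2 hP _ hN (d + 2) (d + 2) (d + 3) (d + 1) (by omega) (by omega)
      (by push_cast; ring) (by push_cast; ring) (by push_cast; ring)
    obtain ⟨n1, _⟩ := D4_b h2 hP _ hN (2 * j + d + 1) (2 * j + d + 1) (2 * j + d + 2)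
      (2 * j + d) (by omega) (by omega) (by push_cast; ring) (by push_cast; ring)
      (by push_cast; ring)
    obtain ⟨n2, _⟩ := D4_b h2 hP _ hN (d + 1) (d + 1) (d + 2) d (by omega) (by omega)
      (by push_cast; ring) (by push_cast; ring) (by push_cast; ring)
    -- normal forms of the indices
    have c1 : (2 * (j : ℤ) + ((d + 1 : ℕ) : ℤ) + 1) = 2 * j + d + 2 := by push_cast; ring
    have c2 : (((d + 1 : ℕ) : ℤ) + 1) = d + 2 := by push_cast; ring
    have c3 : ((j : ℤ) + ((d + 1 : ℕ) : ℤ) + 1) = j + d + 2 := by push_cast; ring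
    have c4 : (2 * (j : ℤ) + ((d + 2 : ℕ) : ℤ) + 1) = 2 * j + d + 3 := by push_cast; ring
    have c5 : (((d + 2 : ℕ) : ℤ) + 1) = d + 3 := by push_cast; ring
    have c6 : ((j : ℤ) + ((d + 2 : ℕ) : ℤ) + 1) = j + d + 3 := by push_cast; ring
    have c7 : j + (d + 1) + 1 = j + d + 2 := by ring
    have c8 : j + (d + 2) + 1 = j + d + 3 := by ring
    rw [c1, c2, c3, c7] at hD2
    rw [c4, c5, c6, c8]
    generalize psi W (xc P) (yc P) (2 * j + d + 1) = A1 at *
    generalize psi W (xc P) (yc P) (2 * j + d + 2) = A2 at *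
    generalize psi W (xc P) (yc P) (2 * j + d + 3) = A3 at *
    generalize psi W (xc P) (yc P) (d + 1) = B1 at *
    generalize psi W (xc P) (yc P) (d + 2) = B2 at *
    generalize psi W (xc P) (yc P) (d + 3) = B3 at *
    generalize psi W (xc P) (yc P) (j + d + 1) = C1 at *
    generalize psi W (xc P) (yc P) (j + d + 2) = C2 at *
    generalize psi W (xc P) (yc P) (j + d + 3) = C3 at *
    generalize psi W (xc P) (yc P) j = G at *
    generalize xc P = X at *
    generalize xc (j • P) = Xj at *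
    generalize xc ((j + d + 1) • P) = X1 at *
    generalize xc ((j + d + 2) • P) = X2 at *
    generalize xc ((j + d + 3) • P) = X3 at *
    generalize xc ((2 * j + d + 2) • P) = Y2 at *
    generalize xc ((d + 2) • P) = Z2 at *
    have hn : X2 - Xj ≠ 0 := sub_ne_zero.mpr x1
    -- hD1 : A1 * B1 = C1 ^ 2 * G ^ 2 * (Xj - X1)
    -- hD2 : A2 * B2 = C2 ^ 2 * G ^ 2 * (Xj - X2)
    have k1 : (X2 - Xj) ^ 2 * (A1 * B1) * (A3 * B3 - C3 ^ 2 * G ^ 2 * (Xj - X3)) = 0 := by
      have e1 : (X2 - Xj) ^ 2 * (A3 * A1 * (B3 * B1)) =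
          (A2 * B2) ^ 2 * ((X2 - Xj) ^ 2 * ((X - Y2) * (X - Z2))) := by
        rw [← b4, ← b5]
        ring
      rw [hx, hD2] at e1
      have e2 : (C2 ^ 2 * G ^ 2 * (Xj - X2)) ^ 2 * ((X2 - X) ^ 2 * ((Xj - X3) * (Xj - X1))) =
          (X2 - Xj) ^ 2 * (C2 ^ 2 * (X - X2)) ^ 2 * G ^ 4 * ((Xj - X3) * (Xj - X1)) := by ring
      rw [e2, b3] at e1
      have e3 : (X2 - Xj) ^ 2 * (A1 * B1) * (A3 * B3 - C3 ^ 2 * G ^ 2 * (Xj - X3)) =
          (X2 - Xj) ^ 2 * (A3 * A1 * (B3 * B1)) -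
            (X2 - Xj) ^ 2 * (A1 * B1) * (C3 ^ 2 * G ^ 2 * (Xj - X3)) := by ring
      rw [e3, e1, hD1]
      ring
    rcases mul_eq_zero.mp k1 with h | h
    · exact absurd h (mul_ne_zero (pow_ne_zero 2 hn) (mul_ne_zero n1 n2))
    · exact sub_eq_zero.mp h

theorem ell_generic (h2 : (2 : F) ≠ 0) {P : W.Point} (hP : P ≠ 0) (i j : ℕ) (hj : 0 < j)
    (hij : j < i) (hN : ∀ k : ℕ, 0 < k → k ≤ i + j → k • P ≠ 0) :
    psi W (xc P) (yc P) (i + j) * psi W (xc P) (yc P) (i - j) =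
      psi W (xc P) (yc P) (i + 1) * psi W (xc P) (yc P) (i - 1) * psi W (xc P) (yc P) j ^ 2 -
        psi W (xc P) (yc P) (j + 1) * psi W (xc P) (yc P) (j - 1) * psi W (xc P) (yc P) i ^ 2 := by
  obtain ⟨d, rfl⟩ : ∃ d, i = j + d + 1 := ⟨i - j - 1, by omega⟩
  have hD := D4_D h2 hP j hj d (fun k h1 h3 => hN k h1 (by omega))
  obtain ⟨_, b1⟩ := D4_b h2 hP _ hN j j (j + 1) (j - 1) hj (by omega) rfl rfl rfl
  obtain ⟨_, b2⟩ := D4_b h2 hP _ hN (j + d + 1) (j + d + 1) (j + d + 1 + 1) (j + d + 1 - 1)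
    (by omega) (by omega) (by push_cast; ring) (by push_cast; ring) (by push_cast; ring)
  have c1 : (((j + d + 1 : ℕ) : ℤ) + j) = 2 * j + d + 1 := by push_cast; ring
  have c2 : (((j + d + 1 : ℕ) : ℤ) - j) = d + 1 := by push_cast; ring
  have c3 : (((j + d + 1 : ℕ) : ℤ)) = j + d + 1 := by push_cast; ring
  rw [c1, c2, c3, hD]
  linear_combination (-psi W (xc P) (yc P) (j + d + 1) ^ 2) * b1 +
    psi W (xc P) (yc P) j ^ 2 * b2

end H16C
end

-- from Lib.H16C.D5
section

/-!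
# D5 (M): the elliptic relation at every point (universal point)

Characteristic `0`, `W` elliptic.  `R = W.CoordinateRing = F[X, Y]/(Y² - f(X))` is a domain with
fraction field `K = W.FunctionField`.  The curve over `K` (`WeierstrassCurve.Affine.baseChange W K`,
short and elliptic) has the universal point `U = (X, Y)` (`exists_pt`).
`U` has infinite order: otherwise let `N ≥ 2` be its exact order; `psi_order` gives
`psi (X) (Y) N = 0`, so `(W.ΨSq N)(X) = 0` in `K` (`psi_sq`, `map_ΨSq`); but `F[X] → R` is injective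
(Mathlib: `CoordinateRing` has basis `1, Y` over `F[X]`, `CoordinateRing.basis`, `XYIdeal` file;
e.g. `AdjoinRoot.of` is injective since `polynomial` is monic of degree `2 > 0`) and
`W.ΨSq N ≠ 0` (`ΨSq_ne_zero`, characteristic `0`).
So `ell_generic` holds for `U` and all `i > j > 0`: an identity in `K` between elements of `R`
(`psi` of the images of `X, Y ∈ R` is the image of `normEDS (2Y) (Ψ₃(X)) (preΨ₄(X)) n ∈ R`,
`map_normEDS`), so an identity in `R` (`R → K` injective).  Apply the ring homomorphism `R → F`,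
`X ↦ x`, `Y ↦ y` (`AdjoinRoot.lift`, `AdjoinRoot.evalEval` or `CoordinateRing.map`; `(x, y)` on the
curve) and `map_normEDS` again.
-/

open WeierstrassCurve

namespace H16C

variable {F : Type*} [Field F] [CharZero F] {W : WeierstrassCurve.Affine F} [W.IsShortNF]
  [W.IsElliptic] {x y : F}

section D5aux

open Polynomial

omit [CharZero F] [W.IsShortNF] [W.IsElliptic] in
theorem D5_aeval (p : F[X]) :
    aeval (algebraMap F[X] W.CoordinateRing X) p = algebraMap F[X] W.CoordinateRing p := by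
  rw [aeval_algebraMap_apply, aeval_X_left_apply]

/-- the value of the division polynomial at the universal point -/
noncomputable def D5psi (W : WeierstrassCurve.Affine F) (n : ℤ) : W.CoordinateRing :=
  normEDS (2 * AdjoinRoot.root W.polynomial) (algebraMap F[X] W.CoordinateRing W.Ψ₃)
    (algebraMap F[X] W.CoordinateRing W.preΨ₄) n

omit [CharZero F] [W.IsElliptic] in
theorem D5_poly : W.polynomial = X ^ 2 - C (X ^ 3 + C W.a₄ * X + C W.a₆) := by
  rw [WeierstrassCurve.Affine.polynomial]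
  simp

omit [CharZero F] [W.IsElliptic] in
theorem D5_eqn : (AdjoinRoot.root W.polynomial : W.CoordinateRing) ^ 2 =
    algebraMap F[X] W.CoordinateRing X ^ 3 +
      algebraMap F W.CoordinateRing W.a₄ * algebraMap F[X] W.CoordinateRing X +
      algebraMap F W.CoordinateRing W.a₆ := by
  have h := AdjoinRoot.eval₂_root W.polynomial
  have h2 : eval₂ (AdjoinRoot.of W.polynomial) (AdjoinRoot.root W.polynomial)
      (X ^ 2 - C (X ^ 3 + C W.a₄ * X + C W.a₆) : F[X][X]) = 0 := by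
    rw [← D5_poly]
    exact h
  simp only [eval₂_add, eval₂_sub, eval₂_mul, eval₂_pow, eval₂_X, eval₂_C, map_add, map_mul,
    map_pow] at h2
  have e1 : ∀ a : F, algebraMap F W.CoordinateRing a = AdjoinRoot.of W.polynomial (C a) := by
    intro a
    rfl
  have e2 : ∀ p : F[X], algebraMap F[X] W.CoordinateRing p = AdjoinRoot.of W.polynomial p := by
    intro p
    rfl
  rw [e1, e1, e2]
  linear_combination h2

omit [CharZero F] [W.IsElliptic] in
/-- the evaluation at a point of the curve -/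
theorem D5_ev (h : y ^ 2 = x ^ 3 + W.a₄ * x + W.a₆) :
    ∃ f : W.CoordinateRing →+* F, ∀ n : ℤ, f (D5psi W n) = psi W x y n := by
  have h0 : eval₂ (evalRingHom x) y W.polynomial = 0 := by
    rw [D5_poly]
    simp only [eval₂_add, eval₂_sub, eval₂_mul, eval₂_pow, eval₂_X, eval₂_C, coe_evalRingHom,
      eval_add, eval_mul, eval_pow, eval_X, eval_C]
    linear_combination h
  refine ⟨AdjoinRoot.lift (evalRingHom x) y h0, fun n => ?_⟩
  have e2 : ∀ p : F[X], AdjoinRoot.lift (evalRingHom x) y h0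
      (algebraMap F[X] W.CoordinateRing p) = p.eval x := by
    intro p
    change AdjoinRoot.lift (evalRingHom x) y h0 (AdjoinRoot.of W.polynomial p) = p.eval x
    rw [AdjoinRoot.lift_of]
    rfl
  have e3 : AdjoinRoot.lift (evalRingHom x) y h0 (AdjoinRoot.root W.polynomial) = y :=
    AdjoinRoot.lift_root h0
  rw [D5psi, psi, map_normEDS, e2, e2, map_mul, e3, map_ofNat]

open Classical in
/-- the relation at the universal point -/
theorem D5_univ (i j : ℕ) (hj : 0 < j) (hij : j < i) :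
    D5psi W (i + j) * D5psi W (i - j) =
      D5psi W (i + 1) * D5psi W (i - 1) * D5psi W j ^ 2 -
        D5psi W (j + 1) * D5psi W (j - 1) * D5psi W i ^ 2 := by
  have hinj : Function.Injective (algebraMap W.CoordinateRing W.FunctionField) :=
    IsFractionRing.injective _ _
  haveI : CharZero W.FunctionField := charZero_of_injective_algebraMap
    (FaithfulSMul.algebraMap_injective F W.FunctionField)
  set W' : WeierstrassCurve.Affine W.FunctionField :=
    WeierstrassCurve.Affine.baseChange W W.FunctionField with hW'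
  set X' : W.FunctionField := algebraMap W.CoordinateRing W.FunctionField
    (algebraMap F[X] W.CoordinateRing X) with hX'
  set Y' : W.FunctionField := algebraMap W.CoordinateRing W.FunctionField
    (AdjoinRoot.root W.polynomial) with hY'
  have hW4 : W'.a₄ = algebraMap W.CoordinateRing W.FunctionField
      (algebraMap F W.CoordinateRing W.a₄) := by
    rw [← IsScalarTower.algebraMap_apply]
    rfl
  have hW6 : W'.a₆ = algebraMap W.CoordinateRing W.FunctionField
      (algebraMap F W.CoordinateRing W.a₆) := by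
    rw [← IsScalarTower.algebraMap_apply]
    rfl
  have hXY : Y' ^ 2 = X' ^ 3 + W'.a₄ * X' + W'.a₆ := by
    rw [hW4, hW6, hX', hY', ← map_pow, ← map_pow, ← map_mul, ← map_add, ← map_add, D5_eqn]
  have hpe : ∀ p : F[X], (p.map (algebraMap F W.FunctionField)).eval X' =
      algebraMap W.CoordinateRing W.FunctionField (algebraMap F[X] W.CoordinateRing p) := by
    intro p
    rw [eval_map, ← aeval_def, hX', aeval_algebraMap_apply, D5_aeval]
  have hpsi : ∀ n : ℤ, psi W' X' Y' n =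
      algebraMap W.CoordinateRing W.FunctionField (D5psi W n) := by
    intro n
    rw [D5psi, psi, map_normEDS, map_mul, map_ofNat]
    have e3 : W'.Ψ₃.eval X' = algebraMap W.CoordinateRing W.FunctionField
        (algebraMap F[X] W.CoordinateRing W.Ψ₃) := by
      rw [← hpe]
      exact congrArg (fun p => eval X' p) (map_Ψ₃ W (algebraMap F W.FunctionField))
    have e4 : W'.preΨ₄.eval X' = algebraMap W.CoordinateRing W.FunctionField
        (algebraMap F[X] W.CoordinateRing W.preΨ₄) := by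
      rw [← hpe]
      exact congrArg (fun p => eval X' p) (map_preΨ₄ W (algebraMap F W.FunctionField))
    rw [e3, e4]
  obtain ⟨U, hU0, hUx, hUy⟩ := exists_pt (W := W') X' Y' hXY
  have hinf : ∀ N : ℕ, 0 < N → N • U ≠ 0 := by
    intro N
    induction N using Nat.strong_induction_on with
    | _ N ih =>
      intro hN hNU
      have hN2 : 2 ≤ N := by
        rcases Nat.lt_or_ge N 2 with h | h
        · have : N = 1 := by omega
          subst this
          rw [one_smul] at hNU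
          exact absurd hNU hU0
        · exact h
      have h1 := psi_order (W := W') (two_ne_zero) hU0 N hN2
        (fun k hk hkN => ih k hkN hk) hNU
      rw [hUx, hUy] at h1
      have h2 := psi_sq W' hXY (N : ℤ)
      rw [h1] at h2
      have h3 : W'.ΨSq N = (W.ΨSq N).map (algebraMap F W.FunctionField) :=
        map_ΨSq W (algebraMap F W.FunctionField) N
      rw [h3, hpe, zero_pow two_ne_zero] at h2
      have h4 : algebraMap F[X] W.CoordinateRing (W.ΨSq N) = 0 := by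
        apply hinj
        rw [← h2, map_zero]
      have h5 : W.ΨSq (N : ℤ) = 0 := by
        apply FaithfulSMul.algebraMap_injective F[X] W.CoordinateRing
        rw [h4, map_zero]
      exact W.ΨSq_ne_zero (n := (N : ℤ)) (by exact_mod_cast (by omega : N ≠ 0)) h5
  have key := ell_generic (W := W') two_ne_zero hU0 i j hj hij (fun k hk _ => hinf k hk)
  rw [hUx, hUy] at key
  simp only [hpsi, ← map_mul, ← map_pow, ← map_sub] at key
  exact hinj key

end D5aux

theorem ell_rel (h : y ^ 2 = x ^ 3 + W.a₄ * x + W.a₆) (i j : ℕ) (hj : 0 < j) (hij : j < i) :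
    psi W x y (i + j) * psi W x y (i - j) =
      psi W x y (i + 1) * psi W x y (i - 1) * psi W x y j ^ 2 -
        psi W x y (j + 1) * psi W x y (j - 1) * psi W x y i ^ 2 := by
  obtain ⟨f, hf⟩ := D5_ev (W := W) h
  have key := congrArg f (D5_univ (W := W) i j hj hij)
  simp only [map_mul, map_pow, map_sub, hf] at key
  exact key

end H16C
end

-- from Lib.H16C.D6
section

/-!
# D6 (S/M): `ψ_m(P) = 0` implies `mP = O`

If `P` has infinite order: `psi_main`.  Let `N ≥ 2` be the exact order of `P` (`addOrderOf P`),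
`g_k = psi W x y k`: `g_k ≠ 0` for `0 < k < N` (`psi_main`), `g_N = 0` (`psi_order`).
(1) `g_{N+1} ≠ 0`.  `N = 2`: `y = 0` and, with `a₆ = -x³ - a₄ x`, `g_3 = -(3x² + a₄)²`
(`psi_three`); `3x² + a₄ ≠ 0` because `Δ = -16(4a₄³ + 27a₆²) ≠ 0` (if `3x² + a₄ = 0` then
`a₆ = 2x³`, `a₄ = -3x²`, `Δ = 0`).  `N = 3`: `2P = -P`, `y(2P) = -y ≠ 0`, and
`g_4 = 4y · (...) = 4y · 8y³ y(2P) = -32 y⁵ ≠ 0` (`psi_four`, `yc_dbl`).  `N ≥ 4`: `ell_rel` for
`(N-1, 2)`: `g_{N+1} g_{N-3} = g_N g_{N-2} g_2² - g_3 g_1 g_{N-1}² = - g_3 g_{N-1}² ≠ 0`.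
(2) Suppose `g_m = 0`, `m > 0`, `N ∤ m`, `m` minimal.  Then `m > N`.  If `m < 2N`: `ell_rel` for
`(N, m - N)`: `g_m g_{2N-m} = g_{N+1} g_{N-1} g_{m-N}² - g_{m-N+1} g_{m-N-1} g_N² ≠ 0` (as
`g_N = 0`), contradiction.  If `m > 2N`: `ell_rel` for `(m - N, N)`:
`0 = g_m g_{m-2N} = g_{m-N+1} g_{m-N-1} g_N² - g_{N+1} g_{N-1} g_{m-N}²`, so `g_{m-N} = 0`, and
`N ∣ m - N` by minimality.
-/

open WeierstrassCurve

namespace H16C

variable {F : Type*} [Field F] [DecidableEq F] [CharZero F] {W : WeierstrassCurve.Affine F}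
  [W.IsShortNF] [W.IsElliptic]

omit [DecidableEq F] [CharZero F] in
theorem D6_deriv {x y : F} (h : y ^ 2 = x ^ 3 + W.a₄ * x + W.a₆) (hy : y = 0) :
    3 * x ^ 2 + W.a₄ ≠ 0 := by
  intro h0
  apply W.isUnit_Δ.ne_zero
  rw [W.Δ_of_isShortNF]
  rw [hy] at h
  have h1 : W.a₄ = -3 * x ^ 2 := by linear_combination h0
  have h2 : W.a₆ = 2 * x ^ 3 := by
    rw [h1] at h
    linear_combination -h
  rw [h1, h2]
  ring

/-- the facts on the values at a point of exact order `N ≥ 2` -/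
theorem D6_succ {P : W.Point} (hP : P ≠ 0) (N : ℕ) (hN2 : 2 ≤ N)
    (hN : ∀ k : ℕ, 0 < k → k < N → k • P ≠ 0) (hNP : N • P = 0) :
    psi W (xc P) (yc P) (N + 1) ≠ 0 := by
  have h2 : (2 : F) ≠ 0 := two_ne_zero
  have hE := eqn hP
  have hN0 := psi_order h2 hP N hN2 hN hNP
  have hne : ∀ k : ℕ, 0 < k → k < N → psi W (xc P) (yc P) k ≠ 0 := fun k h1 h3 =>
    (psi_main h2 hP N hN k h1 h3).1
  rcases Nat.lt_or_ge N 4 with h4 | h4
  · interval_cases N
    · have hy : yc P = 0 := (two_smul_eq_zero_iff h2 hP).mp hNP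
      have hd := D6_deriv hE hy
      have e : (((2 : ℕ) : ℤ) + 1) = 3 := by norm_num
      rw [e, psi_three]
      rw [hy] at hE
      have h6 : W.a₆ = -xc P ^ 3 - W.a₄ * xc P := by linear_combination -hE
      have e1 : 3 * xc P ^ 4 + 6 * W.a₄ * xc P ^ 2 + 12 * W.a₆ * xc P - W.a₄ ^ 2 =
          -(3 * xc P ^ 2 + W.a₄) ^ 2 := by
        rw [h6]
        ring
      rw [e1]
      exact neg_ne_zero.mpr (pow_ne_zero 2 hd)
    · have h2P : 2 • P ≠ 0 := hN 2 (by norm_num) (by norm_num)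
      have hy : yc P ≠ 0 := fun h => h2P ((two_smul_eq_zero_iff h2 hP).mpr h)
      have e : (((3 : ℕ) : ℤ) + 1) = 4 := by norm_num
      rw [e, psi_four, ← yc_dbl h2 hP hy]
      have h3 : 2 • P = -P := by
        rw [eq_neg_iff_add_eq_zero, ← succ_nsmul]
        exact hNP
      rw [h3, yc_neg]
      have e1 : 4 * yc P * (8 * yc P ^ 3 * -yc P) = -32 * yc P ^ 5 := by ring
      rw [e1]
      exact mul_ne_zero (by norm_num) (pow_ne_zero 5 hy)
  · obtain ⟨M, rfl⟩ : ∃ M, N = M + 4 := ⟨N - 4, by omega⟩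
    have h := ell_rel hE (M + 3) 2 (by norm_num) (by omega)
    have c1 : (((M + 3 : ℕ) : ℤ) + ((2 : ℕ) : ℤ)) = ((M + 4 : ℕ) : ℤ) + 1 := by push_cast; ring
    have c2 : (((M + 3 : ℕ) : ℤ) + 1) = ((M + 4 : ℕ) : ℤ) := by push_cast; ring
    have c3 : (((2 : ℕ) : ℤ) + 1) = ((3 : ℕ) : ℤ) := by norm_num
    have c4 : (((2 : ℕ) : ℤ) - 1) = 1 := by norm_num
    rw [c1, c2, c3, c4, hN0, psi_one] at h
    intro h0
    rw [h0] at h
    have h5 := hne 3 (by norm_num) (by omega)
    have h6 := hne (M + 3) (by omega) (by omega)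
    have h7 : psi W (xc P) (yc P) ((3 : ℕ) : ℤ) * psi W (xc P) (yc P) ((M + 3 : ℕ) : ℤ) ^ 2 = 0 := by
      linear_combination h
    exact mul_ne_zero h5 (pow_ne_zero 2 h6) h7

theorem D6_dvd {P : W.Point} (hP : P ≠ 0) (N : ℕ) (hN2 : 2 ≤ N)
    (hN : ∀ k : ℕ, 0 < k → k < N → k • P ≠ 0) (hNP : N • P = 0) (m : ℕ) :
    0 < m → psi W (xc P) (yc P) m = 0 → N ∣ m := by
  have h2 : (2 : F) ≠ 0 := two_ne_zero
  have hE := eqn hP
  have hN0 := psi_order h2 hP N hN2 hN hNP
  have hN1 := D6_succ hP N hN2 hN hNP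
  have hne : ∀ k : ℕ, 0 < k → k < N → psi W (xc P) (yc P) k ≠ 0 := fun k h1 h3 =>
    (psi_main h2 hP N hN k h1 h3).1
  have hNm : psi W (xc P) (yc P) ((N : ℤ) - 1) ≠ 0 := by
    have := hne (N - 1) (by omega) (by omega)
    rwa [Nat.cast_sub (by omega), Nat.cast_one] at this
  induction m using Nat.strong_induction_on with
  | _ m ih =>
    intro hm h
    rcases Nat.lt_trichotomy m N with hlt | rfl | hgt
    · exact absurd h (hne m hm hlt)
    · exact dvd_rfl
    · rcases Nat.lt_trichotomy m (2 * N) with h3 | rfl | h3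
      · exfalso
        obtain ⟨j, rfl⟩ : ∃ j, m = N + j := ⟨m - N, by omega⟩
        have h4 := ell_rel hE N j (by omega) (by omega)
        rw [Nat.cast_add] at h
        rw [h, hN0, zero_mul] at h4
        have h5 : psi W (xc P) (yc P) (N + 1) * psi W (xc P) (yc P) (N - 1) *
            psi W (xc P) (yc P) j ^ 2 = 0 := by
          linear_combination -h4
        exact mul_ne_zero (mul_ne_zero hN1 hNm) (pow_ne_zero 2 (hne j (by omega) (by omega))) h5
      · exact Dvd.intro_left 2 rfl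
      · obtain ⟨i, rfl⟩ : ∃ i, m = i + N := ⟨m - N, by omega⟩
        have h4 := ell_rel hE i N (by omega) (by omega)
        rw [Nat.cast_add] at h
        rw [h, hN0, zero_mul] at h4
        have h5 : psi W (xc P) (yc P) (N + 1) * psi W (xc P) (yc P) (N - 1) *
            psi W (xc P) (yc P) i ^ 2 = 0 := by
          linear_combination h4
        have h6 : psi W (xc P) (yc P) i = 0 := by
          by_contra h7
          exact mul_ne_zero (mul_ne_zero hN1 hNm) (pow_ne_zero 2 h7) h5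
        exact dvd_add (ih i (by omega) (by omega) h6) dvd_rfl

theorem smul_eq_zero_of_psi {P : W.Point} (hP : P ≠ 0) (m : ℕ) (hm : 0 < m)
    (h : psi W (xc P) (yc P) m = 0) : m • P = 0 := by
  have h2 : (2 : F) ≠ 0 := two_ne_zero
  by_cases h0 : addOrderOf P = 0
  · exfalso
    have hk : ∀ k : ℕ, 0 < k → k < m + 1 → k • P ≠ 0 := by
      intro k hk _ h1
      rw [addOrderOf_eq_zero_iff'] at h0
      exact h0 k hk h1
    exact (psi_main h2 hP (m + 1) hk m hm (Nat.lt_succ_self m)).1 h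
  · have h1 : addOrderOf P ≠ 1 := by
      intro h1
      exact hP (AddMonoid.addOrderOf_eq_one_iff.mp h1)
    rw [← addOrderOf_dvd_iff_nsmul_eq_zero]
    refine D6_dvd hP (addOrderOf P) (by omega) ?_ (addOrderOf_nsmul_eq_zero P) m hm h
    intro k hk hk2 h3
    exact absurd (addOrderOf_le_of_nsmul_eq_zero hk h3) (not_le.mpr hk2)

end H16C
end

-- from Lib.H16C.T1
section

/-!
# T1 (M): torsion and divisibility of `E(F)`, `F` algebraically closed of characteristic `0`

`tors_finite`: (any field of characteristic 0) if `n • P = 0`, `P ≠ 0`, let `N = addOrderOf P`,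
`2 ≤ N ∣ n`: `psi_order` and `psi_sq` give `(W.ΨSq N)(xc P) = 0`, and `ΨSq N ≠ 0` (`ΨSq_ne_zero`).
So `xc P` is in a finite set and for every `x` there are at most 2 points (`xc_eq`).
`no_common_root`: `F` algebraically closed.  Let `y² = f(x)`, `P = (x, y)` (`exists_pt`).  If
`ΨSq n (x) = 0` then `psi n = 0` (`psi_sq`), so `n • P = 0` (`smul_eq_zero_of_psi`).  If also
`Φ n (x) = 0` then `psi (n+1) psi (n-1) = 0` (`psi_phi`), so `(n+1) • P = 0` or
(`n ≥ 2`) `(n-1) • P = 0`; so `P = 0`, contradiction.  (`n = 1`: `ΨSq 1 = 1`.)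
`xc_smul`: if `k • P ≠ 0` for `0 < k ≤ n`: `psi_main` and `psi_phi`.
`divisible`: `n ≥ 1`.  Let `B` be the finite set of the `xc P` with `P ≠ 0` and `k • P = 0` for some
`0 < k ≤ n`.  For `c ∈ F` the polynomial `h_c = Φ n - c ΨSq n` is monic of degree `n²`
(`natDegree_Φ`, `leadingCoeff_Φ`, `natDegree_ΨSq_le`).  Let `C` be the set of the `c` such that some
element of `B` is a root of `h_c`: finite, because for `x ∈ B` either `ΨSq n (x) ≠ 0` and
`c = Φ n (x)/ΨSq n (x)` or `Φ n (x) ≠ 0` and there is no such `c` (`no_common_root`).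
If `R ≠ 0`, `c = xc R ∉ C`: a root `x'` of `h_c`, `P' = (x', y')` (`exists_pt`), `xc_smul`:
`xc (n • P') ΨSq n (x') = Φ n (x') = c ΨSq n (x')`, so `xc (n • P') = c` and `n • P' = ± R`
(`xc_eq`).  Hence only finitely many points are not in `n E(F)`.  `E(F)` is infinite (`exists_pt`),
so `n E(F)` is infinite; if `R ∉ n E(F)` then the infinite coset `R + n E(F)` is disjoint from
`n E(F)`, contradiction.
-/

open WeierstrassCurve Polynomial

namespace H16C

variable {F : Type*} [Field F] [DecidableEq F] [CharZero F] (W : WeierstrassCurve.Affine F)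
  [W.IsShortNF] [W.IsElliptic]

variable {W} in
omit [DecidableEq F] [CharZero F] [W.IsElliptic] in
theorem T1_fiber (x : F) : {P : W.Point | P ≠ 0 ∧ xc P = x}.Finite := by
  by_cases h : ∃ P : W.Point, P ≠ 0 ∧ xc P = x
  · obtain ⟨P, hP, hx⟩ := h
    apply Set.Finite.subset (Set.toFinite ({P, -P} : Set W.Point))
    rintro Q ⟨hQ, hxQ⟩
    rcases xc_eq hQ hP (hxQ.trans hx.symm) with h1 | h1
    · exact Or.inl h1
    · exact Or.inr h1
  · convert Set.finite_empty
    ext P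
    constructor
    · intro hP
      exact absurd ⟨P, hP⟩ h
    · intro hP
      exact absurd hP (Set.notMem_empty _)

variable {W} in
omit [CharZero F] [W.IsElliptic] in
theorem T1_fin {S : Set F} (hS : S.Finite) : {P : W.Point | P ≠ 0 ∧ xc P ∈ S}.Finite := by
  apply Set.Finite.subset (hS.biUnion (fun x _ => T1_fiber (W := W) x))
  rintro P ⟨hP, hx⟩
  rw [Set.mem_iUnion₂]
  exact ⟨xc P, hx, hP, rfl⟩

omit [W.IsElliptic] in
theorem tors_finite (n : ℕ) (hn : 0 < n) : {P : W.Point | n • P = 0}.Finite := by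
  have h2 : (2 : F) ≠ 0 := two_ne_zero
  have hS : (⋃ N ∈ Finset.Icc 1 n, {x : F | (W.ΨSq N).eval x = 0}).Finite := by
    apply Set.Finite.biUnion (Finset.finite_toSet _)
    intro N hN
    rw [Finset.mem_coe, Finset.mem_Icc] at hN
    have h0 : W.ΨSq N ≠ 0 := W.ΨSq_ne_zero (by
      rw [Int.cast_natCast]
      exact_mod_cast (by omega : N ≠ 0))
    apply Set.Finite.subset (W.ΨSq N).roots.toFinset.finite_toSet
    intro x hx
    rw [Finset.mem_coe, Multiset.mem_toFinset, mem_roots h0]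
    exact hx
  apply Set.Finite.subset ((Set.finite_singleton (0 : W.Point)).union (T1_fin (W := W) hS))
  intro P hP
  by_cases h0 : P = 0
  · exact Or.inl h0
  · right
    refine ⟨h0, ?_⟩
    rw [Set.mem_iUnion₂]
    have hN0 : addOrderOf P ≠ 0 := by
      intro h1
      rw [addOrderOf_eq_zero_iff'] at h1
      exact h1 n hn hP
    have hN1 : addOrderOf P ≠ 1 := by
      intro h1
      exact h0 (AddMonoid.addOrderOf_eq_one_iff.mp h1)
    have hNn : addOrderOf P ≤ n := addOrderOf_le_of_nsmul_eq_zero hn hP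
    refine ⟨addOrderOf P, Finset.mem_Icc.mpr ⟨by omega, hNn⟩, ?_⟩
    have h3 := psi_order h2 h0 (addOrderOf P) (by omega) (fun k hk hk2 h3 =>
      absurd (addOrderOf_le_of_nsmul_eq_zero hk h3) (not_le.mpr hk2)) (addOrderOf_nsmul_eq_zero P)
    show (W.ΨSq (addOrderOf P : ℕ)).eval (xc P) = 0
    rw [← psi_sq W (eqn h0), h3]
    ring

theorem no_common_root [IsAlgClosed F] (n : ℕ) (hn : 0 < n) (x : F) (h : (W.ΨSq n).eval x = 0) :
    (W.Φ n).eval x ≠ 0 := by
  intro hΦ
  obtain ⟨y, hy⟩ := IsAlgClosed.exists_pow_nat_eq (x ^ 3 + W.a₄ * x + W.a₆) (n := 2) (by norm_num)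
  obtain ⟨P, hP, rfl, rfl⟩ := exists_pt x y hy
  rw [← psi_sq W hy, sq_eq_zero_iff] at h
  have h1 : n • P = 0 := smul_eq_zero_of_psi hP n hn h
  rw [← psi_phi W hy, h] at hΦ
  have h3 : psi W (xc P) (yc P) (n + 1) * psi W (xc P) (yc P) (n - 1) = 0 := by
    linear_combination -hΦ
  rcases mul_eq_zero.mp h3 with h4 | h4
  · have h5 : (n + 1) • P = 0 := smul_eq_zero_of_psi hP (n + 1) (by omega) (by
      rw [Nat.cast_add, Nat.cast_one]
      exact h4)
    rw [succ_nsmul, h1, zero_add] at h5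
    exact hP h5
  · obtain ⟨m, rfl⟩ : ∃ m, n = m + 1 := ⟨n - 1, by omega⟩
    rw [Nat.cast_add, Nat.cast_one, add_sub_cancel_right] at h4
    rcases Nat.eq_zero_or_pos m with rfl | hm
    · rw [zero_add, one_nsmul] at h1
      exact hP h1
    · have h5 : m • P = 0 := smul_eq_zero_of_psi hP m hm h4
      rw [succ_nsmul, h5, zero_add] at h1
      exact hP h1

variable {W} in
omit [W.IsElliptic] in
theorem xc_smul (n : ℕ) (hn : 0 < n) {P : W.Point} (hP : ∀ k : ℕ, 0 < k → k ≤ n → k • P ≠ 0) :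
    (W.ΨSq n).eval (xc P) ≠ 0 ∧ xc (n • P) * (W.ΨSq n).eval (xc P) = (W.Φ n).eval (xc P) := by
  have h2 : (2 : F) ≠ 0 := two_ne_zero
  have h0 : P ≠ 0 := by
    have := hP 1 (by norm_num) hn
    rwa [one_nsmul] at this
  have hE := eqn h0
  obtain ⟨h3, h4⟩ := psi_main h2 h0 (n + 1) (fun k h1 h3 => hP k h1 (Nat.lt_succ_iff.mp h3)) n hn
    (Nat.lt_succ_self n)
  rw [← psi_sq W hE, ← psi_phi W hE]
  refine ⟨pow_ne_zero 2 h3, ?_⟩
  linear_combination -h4

variable {W} in
theorem divisible [IsAlgClosed F] (n : ℕ) (hn : 0 < n) (R : W.Point) : ∃ P : W.Point, n • P = R := by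
  by_contra hR
  push Not at hR
  -- the points of small order
  have hB : {P : W.Point | ∃ k : ℕ, 0 < k ∧ k ≤ n ∧ k • P = 0}.Finite := by
    apply Set.Finite.subset (Set.Finite.biUnion (Finset.finite_toSet (Finset.Icc 1 n))
      (fun k (hk : k ∈ ((Finset.Icc 1 n : Finset ℕ) : Set ℕ)) => tors_finite W k (by
        rw [Finset.mem_coe, Finset.mem_Icc] at hk
        omega)))
    rintro P ⟨k, h1, h2, h3⟩
    rw [Set.mem_iUnion₂]
    exact ⟨k, Finset.mem_coe.mpr (Finset.mem_Icc.mpr ⟨h1, h2⟩), h3⟩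
  have hBx : (xc '' {P : W.Point | ∃ k : ℕ, 0 < k ∧ k ≤ n ∧ k • P = 0}).Finite := hB.image _
  -- the exceptional values
  have hC : {c : F | ∃ x ∈ (xc '' {P : W.Point | ∃ k : ℕ, 0 < k ∧ k ≤ n ∧ k • P = 0}),
      (W.Φ n).eval x = c * (W.ΨSq n).eval x}.Finite := by
    apply Set.Finite.subset (hBx.image (fun x => (W.Φ n).eval x / (W.ΨSq n).eval x))
    rintro c ⟨x, hx, hc⟩
    refine ⟨x, hx, ?_⟩
    have h1 : (W.ΨSq n).eval x ≠ 0 := by
      intro h1
      have h2 := no_common_root W n hn x h1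
      rw [hc, h1, mul_zero] at h2
      exact h2 rfl
    show (W.Φ n).eval x / (W.ΨSq n).eval x = c
    rw [hc, mul_div_assoc, div_self h1, mul_one]
  have hsurj : ∀ Q : W.Point, Q ≠ 0 → xc Q ∉ {c : F | ∃ x ∈
      (xc '' {P : W.Point | ∃ k : ℕ, 0 < k ∧ k ≤ n ∧ k • P = 0}),
      (W.Φ n).eval x = c * (W.ΨSq n).eval x} → ∃ P : W.Point, n • P = Q := by
    intro Q hQ hc
    obtain ⟨c, hcQ⟩ : ∃ c, c = xc Q := ⟨_, rfl⟩
    rw [← hcQ] at hc
    have hdeg : (W.Φ n - C c * W.ΨSq n).degree ≠ 0 := by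
      have h1 : (W.Φ n - C c * W.ΨSq n).coeff (n ^ 2) = 1 := by
        have h2 := W.coeff_Φ n
        rw [Int.natAbs_natCast] at h2
        have h3 : (C c * W.ΨSq n).coeff (n ^ 2) = 0 := by
          apply coeff_eq_zero_of_natDegree_lt
          refine (natDegree_C_mul_le _ _).trans_lt ((W.natDegree_ΨSq_le n).trans_lt ?_)
          rw [Int.natAbs_natCast]
          have : 0 < n ^ 2 := by positivity
          omega
        rw [coeff_sub, h2, h3, sub_zero]
      have h2 : n ^ 2 ≤ (W.Φ n - C c * W.ΨSq n).natDegree :=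
        le_natDegree_of_ne_zero (by rw [h1]; exact one_ne_zero)
      have h3 : 0 < n ^ 2 := by positivity
      intro h4
      have h5 : (W.Φ n - C c * W.ΨSq n).natDegree = 0 := natDegree_eq_of_degree_eq_some h4
      rw [h5] at h2
      omega
    obtain ⟨x, hx⟩ := IsAlgClosed.exists_root _ hdeg
    rw [IsRoot.def, eval_sub, eval_mul, eval_C, sub_eq_zero] at hx
    obtain ⟨y, hy⟩ := IsAlgClosed.exists_pow_nat_eq (x ^ 3 + W.a₄ * x + W.a₆) (n := 2)
      (by norm_num)
    obtain ⟨P, hP, rfl, rfl⟩ := exists_pt x y hy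
    have hPk : ∀ k : ℕ, 0 < k → k ≤ n → k • P ≠ 0 := by
      intro k h1 h2 h3
      exact hc ⟨xc P, ⟨P, ⟨k, h1, h2, h3⟩, rfl⟩, hx⟩
    obtain ⟨h1, h2⟩ := xc_smul n hn hPk
    rw [hx] at h2
    have h3 := mul_right_cancel₀ h1 h2
    rcases xc_eq (hPk n hn le_rfl) hQ (h3.trans hcQ) with h4 | h4
    · exact ⟨P, h4⟩
    · exact ⟨-P, by rw [smul_neg, h4, neg_neg]⟩
  have hbad : {Q : W.Point | ∀ P : W.Point, n • P ≠ Q}.Finite := by
    apply Set.Finite.subset ((Set.finite_singleton (0 : W.Point)).union (T1_fin (W := W) hC))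
    intro Q hQ
    by_cases h0 : Q = 0
    · exact Or.inl h0
    · right
      refine ⟨h0, ?_⟩
      by_contra h1
      obtain ⟨P, hP⟩ := hsurj Q h0 h1
      exact hQ P hP
  have hinf : Infinite W.Point := by
    have h1 : ∀ x : F, ∃ P : W.Point, xc P = x := by
      intro x
      obtain ⟨y, hy⟩ := IsAlgClosed.exists_pow_nat_eq (x ^ 3 + W.a₄ * x + W.a₆) (n := 2)
        (by norm_num)
      obtain ⟨P, -, hP, -⟩ := exists_pt x y hy
      exact ⟨P, hP⟩
    exact Infinite.of_surjective xc h1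
  have hrange : (Set.range (fun P : W.Point => n • P)).Infinite := by
    intro hfin
    apply (Set.infinite_univ (α := W.Point))
    apply (hfin.union hbad).subset
    intro Q _
    by_cases h : ∃ P : W.Point, n • P = Q
    · exact Or.inl h
    · push Not at h
      exact Or.inr h
  apply (hrange.image (f := fun Q => R + Q) (add_right_injective R).injOn)
  apply hbad.subset
  rintro _ ⟨_, ⟨P, rfl⟩, rfl⟩ P' hP'
  apply hR (P' - P)
  change n • P' = R + n • P at hP'
  rw [nsmul_sub, hP']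
  abel

end H16C
end

-- from Lib.H16C.T3
section

/-!
# T3 (M): torsion and `E₁(v)`

`F` of characteristic `0`, `v(a₄), v(a₆) ≤ 1`, `v(n) = 1`.
`coeff_int`: the coefficients of `Φ n`, `ΨSq n` have `v ≤ 1`: let `W₀` be the curve over the
subring `v.integer` (or `v.valuationSubring`) with `a₁ = a₂ = a₃ = 0` and the given `a₄`, `a₆`; then
`W = W₀.map (algebraMap)` (`a₁, a₂, a₃ = 0`) and `map_Φ`, `map_ΨSq`.
`tors_inj`: `n • P = 0`, `P ∈ E₁(v)` implies `P = O`: otherwise let `2 ≤ N = addOrderOf P ∣ n`;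
`v N = 1` (`N ∣ n` and integers have `v ≤ 1`); `psi_order`, `psi_sq`: `(ΨSq N)(xc P) = 0`, all the
coefficients have `v ≤ 1`, the leading one is `N²` (`coeff_ΨSq`, degree `N² - 1`, `natDegree_ΨSq_le`),
`v(N²) = 1`: a root with `v > 1` is impossible (the leading term dominates).
`tors_surj`: `F` algebraically closed; `n • Z ∈ E₁(v)`.  Then there is `T` with `n • T = 0` and
`Z - T ∈ E₁(v)`.  If `R = n • Z = 0`: `T = Z`.  Otherwise `v(xc R) > 1`.  Let `C` be the finite set of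
`c` such that `h_c = Φ n - c ΨSq n` has a root `xc P`, `P ≠ 0`, `k • P = 0`, some `0 < k ≤ n` (as in
the proof of `divisible`: `tors_finite`, `no_common_root`).  The points `U ∈ E₁(v)` are infinitely
many (abscissae `(xc R)^j`, `exists_pt`), so the points `n • U` are infinitely many (`tors_finite`:
finite fibres), and only finitely many points have abscissa in `C`: choose `U ∈ E₁(v)` with
`R' = R + n • U ≠ 0`, `c = xc R' ∉ C`.  `R' ∈ E₁(v)` (`e1_add`), so `v c > 1`.
The monic `h_c` of degree `n²` has the coefficient `-n² c + ...` of `X^(n²-1)`, of valuation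
`v c > 1`, so it has a root `x'` with `v x' > 1`, `P' = (x', y') ∈ E₁(v)` (`exists_pt`), and `x'` is
not the abscissa of a point killed by some `0 < k ≤ n`; `xc_smul` gives `xc (n • P') = c`,
`n • P' = ± R'` (`xc_eq`); changing the sign of `P'`: `n • P' = R' = n • (Z + U)`.
`T = Z + U - P'`.
-/

open WeierstrassCurve Polynomial

namespace H16C

variable {F : Type*} [Field F] [DecidableEq F] [CharZero F] {W : WeierstrassCurve.Affine F}
  [W.IsShortNF] [W.IsElliptic] {Γ : Type*} [LinearOrderedCommGroupWithZero Γ] {v : Valuation F Γ}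

omit [DecidableEq F] [CharZero F] [W.IsElliptic] in
theorem coeff_int (h4 : v W.a₄ ≤ 1) (h6 : v W.a₆ ≤ 1) (n i : ℕ) :
    v ((W.Φ n).coeff i) ≤ 1 ∧ v ((W.ΨSq n).coeff i) ≤ 1 := by
  let W₀ : WeierstrassCurve v.integer := ⟨0, 0, 0, ⟨W.a₄, h4⟩, ⟨W.a₆, h6⟩⟩
  have hW : W = W₀.map (algebraMap v.integer F) := by
    refine WeierstrassCurve.ext ?_ ?_ ?_ ?_ ?_
    · rw [a₁_of_isShortNF]
      exact (map_zero _).symm
    · rw [a₂_of_isShortNF]
      exact (map_zero _).symm
    · rw [a₃_of_isShortNF]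
      exact (map_zero _).symm
    · rfl
    · rfl
  have h1 : W.Φ n = (W₀.Φ n).map (algebraMap v.integer F) := by
    rw [← WeierstrassCurve.map_Φ, ← hW]
  have h2 : W.ΨSq n = (W₀.ΨSq n).map (algebraMap v.integer F) := by
    rw [← WeierstrassCurve.map_ΨSq, ← hW]
  rw [h1, h2, coeff_map, coeff_map]
  exact ⟨((W₀.Φ n).coeff i).2, ((W₀.ΨSq n).coeff i).2⟩

omit [DecidableEq F] [CharZero F] in
theorem T3_nat (m : ℕ) : v (m : F) ≤ 1 := natCast_mem v.integer m

omit [DecidableEq F] [CharZero F] in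
theorem T3_dom (p : F[X]) (d : ℕ) (hp : ∀ i, v (p.coeff i) ≤ 1) (hd : p.natDegree ≤ d)
    (h1 : v (p.coeff d) = 1) {x : F} (hx : 1 < v x) : p.eval x ≠ 0 := by
  intro h0
  rw [eval_eq_sum_range' (Nat.lt_succ_of_le hd), Finset.sum_range_succ] at h0
  have h2 : v (∑ i ∈ Finset.range d, p.coeff i * x ^ i) < v x ^ d := by
    refine v.map_sum_lt (pow_ne_zero _ (zero_lt_one.trans hx).ne') ?_
    intro i hi
    rw [map_mul, map_pow]
    calc v (p.coeff i) * v x ^ i ≤ 1 * v x ^ i := mul_le_mul_left (hp i) _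
      _ = v x ^ i := one_mul _
      _ < v x ^ d := pow_lt_pow_right₀ hx (Finset.mem_range.mp hi)
  have h3 : v (∑ i ∈ Finset.range d, p.coeff i * x ^ i) = v x ^ d := by
    rw [eq_neg_of_add_eq_zero_left h0, Valuation.map_neg, map_mul, map_pow, h1, one_mul]
  exact h2.ne h3

omit [DecidableEq F] [CharZero F] in
theorem T3_dvd {n N : ℕ} (hn : v (n : F) = 1) (h : N ∣ n) : v (N : F) = 1 := by
  obtain ⟨M, rfl⟩ := h
  rw [Nat.cast_mul, map_mul] at hn
  refine le_antisymm (T3_nat N) ?_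
  calc (1 : Γ) = v (N : F) * v (M : F) := hn.symm
    _ ≤ v (N : F) * 1 := mul_le_mul_right (T3_nat M) _
    _ = v (N : F) := mul_one _

omit [DecidableEq F] [CharZero F] in
theorem T3_ne {n : ℕ} (hn : v (n : F) = 1) : n ≠ 0 := by
  rintro rfl
  rw [Nat.cast_zero, map_zero] at hn
  exact zero_ne_one hn

theorem tors_inj (h4 : v W.a₄ ≤ 1) (h6 : v W.a₆ ≤ 1) (n : ℕ) (hn : v (n : F) = 1) {P : W.Point}
    (hP : n • P = 0) (h1 : InE1 v P) : P = 0 := by
  by_contra h0
  have hn0 := T3_ne hn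
  have hN := addOrderOf_dvd_of_nsmul_eq_zero hP
  set N := addOrderOf P with hNdef
  have hN0 : N ≠ 0 := by
    intro h
    rw [h] at hN
    exact hn0 (Nat.eq_zero_of_zero_dvd hN)
  have hN1 : N ≠ 1 := by
    intro h
    exact h0 (AddMonoid.addOrderOf_eq_one_iff.mp h)
  have hN2 : 2 ≤ N := by omega
  have hvN := T3_dvd hn hN
  have h2 : psi W (xc P) (yc P) N = 0 := by
    refine psi_order two_ne_zero h0 N hN2 ?_ (addOrderOf_nsmul_eq_zero P)
    intro k hk hkN hkP
    have := Nat.le_of_dvd hk (addOrderOf_dvd_of_nsmul_eq_zero hkP)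
    omega
  have h3 := psi_sq W (eqn h0) (N : ℤ)
  rw [h2] at h3
  have h5 : 1 < v (xc P) := by
    rcases P with _ | ⟨x, y, h⟩
    · exact absurd rfl h0
    · exact h1
  refine T3_dom (W.ΨSq N) (N ^ 2 - 1) (fun i => (coeff_int h4 h6 N i).2) ?_ ?_ h5 ?_
  · simpa using W.natDegree_ΨSq_le (N : ℤ)
  · have h7 := W.coeff_ΨSq (N : ℤ)
    simp only [Int.natAbs_natCast, Int.cast_natCast] at h7
    rw [h7, map_pow, hvN, one_pow]
  · rw [← h3]
    ring

omit [DecidableEq F] [CharZero F] [W.IsElliptic] in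
theorem T3_lt {P : W.Point} (h0 : P ≠ 0) (h1 : InE1 v P) : 1 < v (xc P) := by
  rcases P with _ | ⟨x, y, h⟩
  · exact absurd rfl h0
  · exact h1

omit [DecidableEq F] [CharZero F] [W.IsElliptic] in
theorem T3_mem {P : W.Point} (h1 : 1 < v (xc P)) : InE1 v P := by
  rcases P with _ | ⟨x, y, h⟩
  · trivial
  · exact h1

theorem T3_nsmul (h4 : v W.a₄ ≤ 1) (h6 : v W.a₆ ≤ 1) {U : W.Point} (hU : InE1 v U) (m : ℕ) :
    InE1 v (m • U) := by
  induction m with
  | zero =>
    rw [zero_smul]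
    trivial
  | succ m ih =>
    rw [succ_nsmul]
    exact e1_add h4 h6 ih hU

omit [CharZero F] in
theorem T3_fin_xc (C : Set F) (hC : C.Finite) : {Q : W.Point | Q = 0 ∨ xc Q ∈ C}.Finite := by
  have h1 : {Q : W.Point | Q = 0 ∨ xc Q ∈ C} ⊆ {0} ∪ ⋃ c ∈ C, {Q : W.Point | Q ≠ 0 ∧ xc Q = c} := by
    intro Q hQ
    by_cases h0 : Q = 0
    · exact Or.inl h0
    · rcases hQ with h | h
      · exact absurd h h0
      · exact Or.inr (Set.mem_biUnion h ⟨h0, rfl⟩)
  refine Set.Finite.subset ((Set.finite_singleton _).union (hC.biUnion fun c _ => ?_)) h1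
  by_cases h2 : ∃ Q₀ : W.Point, Q₀ ≠ 0 ∧ xc Q₀ = c
  · obtain ⟨Q₀, h3, h5⟩ := h2
    refine Set.Finite.subset (Set.toFinite {Q₀, -Q₀}) ?_
    rintro Q ⟨h6, h7⟩
    exact xc_eq h6 h3 (h7.trans h5.symm)
  · refine Set.Finite.subset Set.finite_empty ?_
    rintro Q ⟨h6, h7⟩
    exact h2 ⟨Q, h6, h7⟩

theorem T3_exists_U [IsAlgClosed F] (n : ℕ) (hn : 0 < n) {X : F} (hX : 1 < v X) (R : W.Point)
    (C : Set F) (hC : C.Finite) :
    ∃ U : W.Point, InE1 v U ∧ R + n • U ≠ 0 ∧ xc (R + n • U) ∉ C := by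
  by_contra hcon
  push Not at hcon
  -- the points of E₁
  have h1 : ∀ j : ℕ, ∃ U : W.Point, U ≠ 0 ∧ xc U = X ^ (j + 1) := by
    intro j
    obtain ⟨y, hy⟩ := IsAlgClosed.exists_pow_nat_eq
      ((X ^ (j + 1)) ^ 3 + W.a₄ * X ^ (j + 1) + W.a₆) (n := 2) (by norm_num)
    obtain ⟨P, hP, hPx, -⟩ := exists_pt (W := W) _ y hy
    exact ⟨P, hP, hPx⟩
  choose U hU0 hUx using h1
  have hvU : ∀ j, v (xc (U j)) = v X ^ (j + 1) := fun j => by rw [hUx, map_pow]
  have hUinj : Function.Injective U := by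
    intro i j hij
    have h2 : v X ^ (i + 1) = v X ^ (j + 1) := by rw [← hvU, ← hvU, hij]
    have h3 := pow_right_injective₀ (zero_lt_one.trans hX) hX.ne' h2
    omega
  have hUE : ∀ j, InE1 v (U j) := fun j => T3_mem (by
    rw [hvU]
    exact one_lt_pow₀ hX (Nat.succ_ne_zero j))
  have hBad := T3_fin_xc (W := W) C hC
  have hmem : ∀ j, R + n • U j ∈ {Q : W.Point | Q = 0 ∨ xc Q ∈ C} := by
    intro j
    by_cases h0 : R + n • U j = 0
    · exact Or.inl h0
    · exact Or.inr (hcon (U j) (hUE j) h0)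
  have hfin : (Set.range U).Finite := by
    have h5 : Set.range U ⊆ ⋃ Q ∈ {Q : W.Point | Q = 0 ∨ xc Q ∈ C}, {V : W.Point | R + n • V = Q} := by
      rintro _ ⟨j, rfl⟩
      exact Set.mem_biUnion (hmem j) rfl
    refine Set.Finite.subset (hBad.biUnion fun Q _ => ?_) h5
    by_cases h2 : ∃ V₀ : W.Point, R + n • V₀ = Q
    · obtain ⟨V₀, hV₀⟩ := h2
      refine Set.Finite.subset ((tors_finite W n hn).image fun t => V₀ + t) ?_
      intro V hV
      refine ⟨V - V₀, ?_, add_sub_cancel _ _⟩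
      change n • (V - V₀) = 0
      rw [nsmul_sub, sub_eq_zero]
      exact add_left_cancel (hV.trans hV₀.symm)
    · refine Set.Finite.subset Set.finite_empty ?_
      intro V hV
      exact h2 ⟨V, hV⟩
  exact Set.infinite_range_of_injective hUinj hfin

theorem tors_surj [IsAlgClosed F] (h4 : v W.a₄ ≤ 1) (h6 : v W.a₆ ≤ 1) (n : ℕ)
    (hn : v (n : F) = 1) {Z : W.Point} (h : InE1 v (n • Z)) :
    ∃ T : W.Point, n • T = 0 ∧ InE1 v (Z - T) := by
  by_cases hR : n • Z = 0
  · exact ⟨Z, hR, by rw [sub_self]; trivial⟩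
  have hn0 : 0 < n := Nat.pos_of_ne_zero (T3_ne hn)
  have hX := T3_lt hR h
  set C : Set F := (fun P : W.Point => (W.Φ n).eval (xc P) / (W.ΨSq n).eval (xc P)) ''
    (⋃ k ∈ Finset.Icc 1 n, {P : W.Point | k • P = 0}) with hCdef
  have hC : C.Finite := by
    refine Set.Finite.image _ (Set.Finite.biUnion (Finset.finite_toSet _) fun k hk => ?_)
    have hk' := Finset.mem_Icc.mp (Finset.mem_coe.mp hk)
    exact tors_finite W k (by omega)
  obtain ⟨U, hU, hR0, hc⟩ := T3_exists_U n hn0 hX (n • Z) C hC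
  set R' := n • Z + n • U with hR'
  have hR'E : InE1 v R' := e1_add h4 h6 h (T3_nsmul h4 h6 hU n)
  have hvc := T3_lt hR0 hR'E
  set c := xc R' with hcdef
  -- the polynomial h_c
  have hΦ : (W.Φ n).natDegree = n ^ 2 := by simp
  have hΦ1 : (W.Φ n).Monic := W.leadingCoeff_Φ (n : ℤ)
  have hΨ : (W.ΨSq n).natDegree ≤ n ^ 2 - 1 := by simpa using W.natDegree_ΨSq_le (n : ℤ)
  have hn2 : 0 < n ^ 2 := pow_pos hn0 2
  have hdeg : (Polynomial.C c * W.ΨSq n).degree < (W.Φ n).degree := by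
    rw [degree_eq_natDegree hΦ1.ne_zero, hΦ]
    refine lt_of_le_of_lt degree_le_natDegree ?_
    have h7 : (Polynomial.C c * W.ΨSq n).natDegree ≤ n ^ 2 - 1 :=
      (natDegree_C_mul_le _ _).trans hΨ
    exact_mod_cast (show (Polynomial.C c * W.ΨSq n).natDegree < n ^ 2 by omega)
  set p : F[X] := W.Φ n - Polynomial.C c * W.ΨSq n with hp
  have hpm : p.Monic := hΦ1.sub_of_left hdeg
  have hpd : p.natDegree = n ^ 2 := by
    rw [hp, natDegree_sub_eq_left_of_natDegree_lt, hΦ]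
    rw [hΦ]
    exact lt_of_le_of_lt ((natDegree_C_mul_le _ _).trans hΨ) (by omega)
  have hnext : 1 < v p.nextCoeff := by
    rw [nextCoeff_of_natDegree_pos (by rw [hpd]; exact hn2), hpd, hp, coeff_sub, coeff_C_mul]
    have h7 := W.coeff_ΨSq (n : ℤ)
    simp only [Int.natAbs_natCast, Int.cast_natCast] at h7
    rw [h7]
    have h8 : v (c * (n : F) ^ 2) = v c := by
      rw [map_mul, map_pow, hn, one_pow, mul_one]
    have h9 : v ((W.Φ n).coeff (n ^ 2 - 1)) < v (c * (n : F) ^ 2) := by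
      rw [h8]
      exact lt_of_le_of_lt (coeff_int h4 h6 n _).1 hvc
    rw [v.map_sub_eq_of_lt_right h9, h8]
    exact hvc
  obtain ⟨x', hx', hvx⟩ : ∃ x' ∈ p.roots, 1 < v x' := by
    by_contra hcon
    push Not at hcon
    have h7 := (IsAlgClosed.splits p).nextCoeff_eq_neg_sum_roots_of_monic hpm
    have h8 : p.roots.sum ∈ v.integer := multiset_sum_mem _ fun a ha => hcon a ha
    have h9 : v p.roots.sum ≤ 1 := h8
    rw [h7, Valuation.map_neg] at hnext
    exact absurd h9 (not_le.mpr hnext)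
  have hroot : p.eval x' = 0 := (mem_roots hpm.ne_zero).mp hx'
  have hroot' : (W.Φ n).eval x' = c * (W.ΨSq n).eval x' := by
    rw [hp, eval_sub, eval_mul, eval_C, sub_eq_zero] at hroot
    exact hroot
  obtain ⟨y', hy'⟩ := IsAlgClosed.exists_pow_nat_eq (x' ^ 3 + W.a₄ * x' + W.a₆) (n := 2)
    (by norm_num)
  obtain ⟨P', hP', hPx, -⟩ := exists_pt (W := W) x' y' hy'
  have hP'E : InE1 v P' := T3_mem (by rw [hPx]; exact hvx)
  have hk : ∀ k : ℕ, 0 < k → k ≤ n → k • P' ≠ 0 := by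
    intro k hk hkn hkP
    apply hc
    refine ⟨P', Set.mem_biUnion (Finset.mem_coe.mpr (Finset.mem_Icc.mpr ⟨hk, hkn⟩)) hkP, ?_⟩
    change (W.Φ n).eval (xc P') / (W.ΨSq n).eval (xc P') = c
    rw [hPx, hroot']
    refine mul_div_cancel_right₀ _ ?_
    intro h7
    refine no_common_root W n hn0 x' h7 ?_
    rw [hroot', h7, mul_zero]
  obtain ⟨h7, h8⟩ := xc_smul n hn0 hk
  rw [hPx, hroot'] at h8
  rw [hPx] at h7
  have h9 : xc (n • P') = xc R' := mul_right_cancel₀ h7 h8
  obtain ⟨P'', hE'', hn''⟩ : ∃ P'' : W.Point, InE1 v P'' ∧ n • P'' = R' := by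
    rcases xc_eq (hk n hn0 le_rfl) hR0 h9 with h10 | h10
    · exact ⟨P', hP'E, h10⟩
    · exact ⟨-P', e1_neg hP'E, by rw [smul_neg, h10, neg_neg]⟩
  refine ⟨Z + U - P'', ?_, ?_⟩
  · rw [nsmul_sub, nsmul_add, hn'', hR', sub_self]
  · have h11 : Z - (Z + U - P'') = P'' - U := by abel
    rw [h11]
    exact e1_sub h4 h6 hE'' hU

end H16C
end

-- from Lib.H16C.SE3
section

/-!
# SE3 (M): points over `L`; elements that are inert at a good place are in `N`

`mem_L`: `Ω/k` is Galois (`Ω` algebraically closed and algebraic over `k`, characteristic `0`), so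
the fixed field of `N = Gal(Ω/L)` is `L` (`InfiniteGalois.fixedField_fixingSubgroup`).
`coord_mem`: `rho W g P = P` for `g ∈ N` means that `g` fixes the coordinates; `mem_L`.
`mem_of_inert`: `v = A.valuation`, `v(b) = 1`, so `v(n) = v(2) = 1` (`6 n ∣ b`; integers have
`v ≤ 1`), `v(a₄), v(a₆) ≤ 1`, `v(Δ) = 1` (`Bad`).  `g` is inert on `L`.  `ζ, I ∈ L` (`mem_L`,
`S.fix`).  `(g ζ)^n = ζ^n` and `v(g ζ - ζ) < 1`: `g ζ = ζ` (`fixed_of_unit`; `v ζ = 1`).
`g I = ± I`; `- I ≠ I` modulo `v` since `v(2 I) = 1`.  `(2n) • P = 0`, `P ≠ 0`: the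
coordinates are in `L` (`S.fix`, `coord_mem`), `v(xc P) ≤ 1` (otherwise `P ∈ E₁`, `tors_inj` for
`2n`), `v(yc P) ≤ 1` by the equation; `g P` has the coordinates `g (xc P)`, `g (yc P)`, congruent to
those of `P`: `congr_mem`: `g P - P ∈ E₁`, and it is killed by `2n`: `g P = P`.  Conclude by
`S.gen`.
`rho_sub_mem`: `F ∋ xc P, yc P`, `g` inert on `F`: `g P - P ∈ E₁`: if `v(xc P) ≤ 1` as before; if
`v(xc P) > 1`: `z = (xc P)⁻¹ ∈ F`, `v z < 1`, `v(g z) < 1`, so `g P ∈ E₁`, `e1_sub`.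
`rho_mem`: `F ∋ xc P`, `Frob A F q φ`, `P ∈ E₁`: `v(φ z) = v(φ z - z^q + z^q) < 1` for
`z = (xc P)⁻¹`.
-/

open WeierstrassCurve

namespace H16C

variable {k : Type*} [Field k] {Ω : Type*} [Field Ω] [Algebra k Ω] [IsAlgClosed Ω]
  [Algebra.IsAlgebraic k Ω] [CharZero Ω] [DecidableEq Ω] {W : WeierstrassCurve.Affine k}
  [W.IsShortNF] [W.IsElliptic] {n b : ℕ} [NeZero n] (S : Setup W Ω n)

omit [IsAlgClosed Ω] [Algebra.IsAlgebraic k Ω] [CharZero Ω] [W.IsShortNF] [W.IsElliptic] in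
theorem SE3_xc (g : Ω ≃ₐ[k] Ω) (P : Pt W Ω) : xc (rho W g P) = g (xc P) := by
  cases P with
  | zero => exact (map_zero g).symm
  | some x y h => rfl

omit [IsAlgClosed Ω] [Algebra.IsAlgebraic k Ω] [CharZero Ω] [W.IsShortNF] [W.IsElliptic] in
theorem SE3_yc (g : Ω ≃ₐ[k] Ω) (P : Pt W Ω) : yc (rho W g P) = g (yc P) := by
  cases P with
  | zero => exact (map_zero g).symm
  | some x y h => rfl

omit [IsAlgClosed Ω] [Algebra.IsAlgebraic k Ω] [CharZero Ω] [W.IsShortNF] [W.IsElliptic] in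
theorem SE3_ne {g : Ω ≃ₐ[k] Ω} {P : Pt W Ω} (h : P ≠ 0) : rho W g P ≠ 0 := by
  cases P with
  | zero => exact absurd rfl h
  | some x y h1 => exact WeierstrassCurve.Affine.Point.some_ne_zero _

omit [W.IsShortNF] [W.IsElliptic] [NeZero n] in
theorem Setup.mem_L {x : Ω} (h : ∀ g ∈ S.N, g x = x) : x ∈ S.L := by
  have h0 : CharZero k := ((algebraMap k Ω).charZero_iff (algebraMap k Ω).injective).mpr
    inferInstance
  have h1 : IsAlgClosure k Ω := ⟨inferInstance, inferInstance⟩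
  have h2 : Normal k Ω := IsAlgClosure.normal k Ω
  have h3 : IsGalois k Ω := { }
  rw [← InfiniteGalois.fixedField_fixingSubgroup S.L, IntermediateField.mem_fixedField_iff]
  exact h

omit [W.IsShortNF] [W.IsElliptic] [NeZero n] in
theorem Setup.coord_mem {P : Pt W Ω} (h : ∀ g ∈ S.N, rho W g P = P) : xc P ∈ S.L ∧ yc P ∈ S.L := by
  refine ⟨S.mem_L fun g hg => ?_, S.mem_L fun g hg => ?_⟩
  · rw [← SE3_xc, h g hg]
  · rw [← SE3_yc, h g hg]

omit [IsAlgClosed Ω] [Algebra.IsAlgebraic k Ω] [CharZero Ω] [DecidableEq Ω] [Algebra k Ω] in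
theorem SE3_dvd {A : ValuationSubring Ω} {b m : ℕ} (hb : A.valuation (b : Ω) = 1) (h : m ∣ b) :
    A.valuation (m : Ω) = 1 := by
  obtain ⟨c, rfl⟩ := h
  rw [Nat.cast_mul, map_mul] at hb
  refine le_antisymm (R1_nat m) ?_
  rw [← hb]
  exact mul_le_of_le_one_right' (R1_nat c)

omit [IsAlgClosed Ω] [Algebra.IsAlgebraic k Ω] [W.IsElliptic] [NeZero n] in
/-- congruent points -/
theorem SE3_congr (hb : Bad W Ω n b) {A : ValuationSubring Ω} (hAb : A.valuation (b : Ω) = 1)
    {F : IntermediateField k Ω} {g : Ω ≃ₐ[k] Ω} (hg : Inert A F g) {P : Pt W Ω} (hx : xc P ∈ F)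
    (hy : yc P ∈ F) (hP : P ≠ 0) (h1 : A.valuation (xc P) ≤ 1) :
    InE1 A.valuation (rho W g P - P) := by
  obtain ⟨h4, h6, hΔ⟩ := hb.good A hAb
  have hΔ' : A.valuation (WeierstrassCurve.Affine.baseChange W Ω).Δ = 1 := by
    change A.valuation (WeierstrassCurve.map W (algebraMap k Ω)).Δ = 1
    rw [WeierstrassCurve.map_Δ]
    exact hΔ
  have hy1 := R1_y (W := WeierstrassCurve.Affine.baseChange W Ω) h4 h6 hP h1
  have hgx := hg _ hx h1
  have hgy := hg _ hy hy1
  refine congr_mem h4 h6 hΔ' (SE3_ne hP) hP ?_ h1 ?_ ?_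
  · rw [SE3_xc]
    have h2 : g (xc P) = (g (xc P) - xc P) + xc P := by ring
    rw [h2]
    exact A.valuation.map_add_le hgx.le h1
  · rw [SE3_xc]
    exact hgx
  · rw [SE3_yc]
    exact hgy

theorem Setup.mem_of_inert (hb : Bad W Ω n b) {A : ValuationSubring Ω}
    (hAb : A.valuation (b : Ω) = 1) {g : Ω ≃ₐ[k] Ω} (hg : Inert A S.L g) : g ∈ S.N := by
  have hn0 : n ≠ 0 := NeZero.ne n
  have hvn : A.valuation (n : Ω) = 1 := SE3_dvd hAb ((Dvd.intro_left 6 rfl).trans hb.dvd)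
  have hv2 : A.valuation ((2 : ℕ) : Ω) = 1 :=
    SE3_dvd hAb (((by norm_num : 2 ∣ 6).trans (Dvd.intro n rfl)).trans hb.dvd)
  have hv2n : A.valuation ((2 * n : ℕ) : Ω) = 1 := by
    rw [Nat.cast_mul, map_mul, hv2, hvn, one_mul]
  have hfix := S.fix
  have hvζ : A.valuation S.ζ = 1 := by
    have h1 : A.valuation S.ζ ^ n = 1 := by rw [← map_pow, S.hζ.pow_eq_one, map_one]
    exact (pow_eq_one_iff.mp h1).resolve_right hn0
  have hvI : A.valuation S.I = 1 := by
    have h1 : A.valuation S.I ^ 2 = 1 := by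
      rw [← map_pow, S.hI, Valuation.map_neg, map_one]
    exact (pow_eq_one_iff.mp h1).resolve_right (by norm_num)
  have hζL : S.ζ ∈ S.L := S.mem_L fun g hg => (hfix g hg).1
  have hIL : S.I ∈ S.L := S.mem_L fun g hg => (hfix g hg).2.1
  refine S.gen g ?_ ?_ ?_
  · refine fixed_of_unit A.valuation hvn hvζ ?_ (hg _ hζL hvζ.le)
    rw [← map_pow, S.hζ.pow_eq_one, map_one]
  · refine fixed_of_unit A.valuation (n := 2) hv2 hvI ?_ (hg _ hIL hvI.le)
    rw [← map_pow, S.hI, map_neg, map_one]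
  · intro P hP
    by_cases hP0 : P = 0
    · rw [hP0, map_zero]
    obtain ⟨h4, h6, hΔ⟩ := hb.good A hAb
    obtain ⟨hxL, hyL⟩ := S.coord_mem (P := P) fun g hg => (hfix g hg).2.2 P hP
    have hx1 : A.valuation (xc P) ≤ 1 := by
      by_contra hcon
      push Not at hcon
      exact hP0 (tors_inj (W := WeierstrassCurve.Affine.baseChange W Ω) h4 h6 (2 * n) hv2n hP
        (R1_inE1.mpr (Or.inr hcon)))
    have h1 := SE3_congr hb hAb hg hxL hyL hP0 hx1
    have h2 : (2 * n) • (rho W g P - P) = 0 := by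
      rw [nsmul_sub, ← map_nsmul, hP, map_zero, sub_zero]
    exact sub_eq_zero.mp (tors_inj (W := WeierstrassCurve.Affine.baseChange W Ω) h4 h6 (2 * n)
      hv2n h2 h1)

omit [IsAlgClosed Ω] [Algebra.IsAlgebraic k Ω] [CharZero Ω] [W.IsShortNF] [W.IsElliptic] in
theorem SE3_gt {A : ValuationSubring Ω} {g : Ω ≃ₐ[k] Ω} {P : Pt W Ω}
    (h : A.valuation (g (xc P)⁻¹) < 1) (hx : xc P ≠ 0) : InE1 A.valuation (rho W g P) := by
  rw [R1_inE1]
  right
  rw [SE3_xc]
  have h0 : A.valuation (g (xc P)) ≠ 0 := (Valuation.ne_zero_iff _).mpr ((map_ne_zero g).mpr hx)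
  rw [map_inv₀, map_inv₀] at h
  exact (inv_lt_one₀ (zero_lt_iff.mpr h0)).mp h

omit [NeZero n] in
theorem rho_sub_mem (hb : Bad W Ω n b) {A : ValuationSubring Ω} (hAb : A.valuation (b : Ω) = 1)
    {F : IntermediateField k Ω} {g : Ω ≃ₐ[k] Ω} (hg : Inert A F g) {P : Pt W Ω} (hx : xc P ∈ F)
    (hy : yc P ∈ F) : InE1 A.valuation (rho W g P - P) := by
  by_cases hP0 : P = 0
  · rw [hP0, map_zero, sub_zero]
    trivial
  rcases le_or_gt (A.valuation (xc P)) 1 with h1 | h1
  · exact SE3_congr hb hAb hg hx hy hP0 h1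
  · obtain ⟨h4, h6, hΔ⟩ := hb.good A hAb
    have hx0 : xc P ≠ 0 := by
      intro h0
      rw [h0, map_zero] at h1
      exact absurd h1 (not_lt.mpr zero_le)
    have hz : A.valuation (xc P)⁻¹ < 1 := by
      rw [map_inv₀]
      exact inv_lt_one_of_one_lt₀ h1
    have h2 := hg _ (inv_mem hx) hz.le
    have h3 : A.valuation (g (xc P)⁻¹) < 1 := by
      have h5 : g (xc P)⁻¹ = (g (xc P)⁻¹ - (xc P)⁻¹) + (xc P)⁻¹ := by ring
      rw [h5]
      exact A.valuation.map_add_lt h2 hz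
    exact e1_sub (W := WeierstrassCurve.Affine.baseChange W Ω) h4 h6 (SE3_gt h3 hx0)
      (R1_inE1.mpr (Or.inr h1))

omit [IsAlgClosed Ω] [Algebra.IsAlgebraic k Ω] [W.IsShortNF] [W.IsElliptic] [NeZero n] in
theorem rho_mem {A : ValuationSubring Ω} {F : IntermediateField k Ω} {q : ℕ} (hq : 0 < q)
    {g : Ω ≃ₐ[k] Ω} (hg : Frob A F q g) {P : Pt W Ω} (hx : xc P ∈ F)
    (hP : InE1 A.valuation P) : InE1 A.valuation (rho W g P) := by
  rw [R1_inE1] at hP
  rcases hP with hP | h1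
  · rw [hP, map_zero]
    trivial
  · have hx0 : xc P ≠ 0 := by
      intro h0
      rw [h0, map_zero] at h1
      exact absurd h1 (not_lt.mpr zero_le)
    have hz : A.valuation (xc P)⁻¹ < 1 := by
      rw [map_inv₀]
      exact inv_lt_one_of_one_lt₀ h1
    have h2 := hg _ (inv_mem hx) hz.le
    refine SE3_gt ?_ hx0
    have h5 : g (xc P)⁻¹ = (g (xc P)⁻¹ - (xc P)⁻¹ ^ q) + (xc P)⁻¹ ^ q := by ring
    rw [h5]
    refine A.valuation.map_add_lt h2 ?_
    rw [map_pow]
    exact pow_lt_one₀ zero_le hz (by omega)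

end H16C
end

-- from Lib.H16C.MW3
section

/-!
# MW3 (M): `E(L)/n E(L)` is finite

`E(L)` = the points `P ∈ E(Ω)` with `rho W g P = P` for `g ∈ N`: their coordinates are in `L`
(`Setup.coord_mem`); `L` is a number field (`S.fin`).  The three points `(e_i, 0)`, `e_i` the roots of
`x³ + a₄ x + a₆` in `Ω`, are killed by `2`, so by `2n`, so fixed by `N` (`S.fix`): `e_i ∈ L`.  The
curve `W_L = WeierstrassCurve.Affine.baseChange W S.L` is short and elliptic (instances), so
`weak_mw` and `mordell_weil` apply: `E(L) = W_L.Point` is finitely generated, and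
`E(L)/n E(L)` is finite (a finitely generated abelian group killed by `n > 0`).
`WeierstrassCurve.Affine.Point.map` (inclusion `L → Ω` over `k`) identifies `W_L.Point` with the points
fixed by `N` (a point with coordinates in `L` comes from `W_L.Point`; `Point.map_some`).
`cl P` = the class of `P` (any value for the points that are not over `L`).
-/

open WeierstrassCurve NumberField

namespace H16C

theorem MW3_cubic {Ω : Type*} [Field Ω] [IsAlgClosed Ω] (a b : Ω) : ∃ e : Fin 3 → Ω,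
    ∀ x : Ω, x ^ 3 + a * x + b = (x - e 0) * (x - e 1) * (x - e 2) := by
  obtain ⟨r, hr⟩ : ∃ r : Ω, r ^ 3 + a * r + b = 0 := by
    have h := IsAlgClosed.exists_root (Polynomial.X ^ 3 + Polynomial.C a * Polynomial.X +
      Polynomial.C b : Polynomial Ω) (by
        have : (Polynomial.X ^ 3 + Polynomial.C a * Polynomial.X +
          Polynomial.C b : Polynomial Ω).degree = 3 := by compute_degree!
        rw [this]
        norm_num)
    obtain ⟨r, hr⟩ := h
    refine ⟨r, ?_⟩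
    simpa [Polynomial.IsRoot] using hr
  obtain ⟨s, hs⟩ : ∃ s : Ω, s ^ 2 + r * s + (r ^ 2 + a) = 0 := by
    have h := IsAlgClosed.exists_root (Polynomial.X ^ 2 + Polynomial.C r * Polynomial.X +
      Polynomial.C (r ^ 2 + a) : Polynomial Ω) (by
        have : (Polynomial.X ^ 2 + Polynomial.C r * Polynomial.X +
          Polynomial.C (r ^ 2 + a) : Polynomial Ω).degree = 2 := by compute_degree!
        rw [this]
        norm_num)
    obtain ⟨s, hs⟩ := h
    refine ⟨s, ?_⟩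
    simpa [Polynomial.IsRoot] using hs
  refine ⟨![r, s, -r - s], fun x => ?_⟩
  change x ^ 3 + a * x + b = (x - r) * (x - s) * (x - (-r - s))
  linear_combination hr + (x - r) * hs

section

variable {k : Type*} [Field k] {Ω : Type*} [Field Ω] [Algebra k Ω]
  [DecidableEq Ω] {W : WeierstrassCurve.Affine k}

noncomputable def MW3_map (W : WeierstrassCurve.Affine k) (L : IntermediateField k Ω) :
    Pt W L →+ Pt W Ω := WeierstrassCurve.Affine.Point.map (L.val : L →ₐ[k] Ω)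

theorem MW3_xc (L : IntermediateField k Ω) (P : Pt W L) : xc (MW3_map W L P) = ((xc P : L) : Ω) := by
  cases P with
  | zero => rfl
  | some x y h => rfl

theorem MW3_yc (L : IntermediateField k Ω) (P : Pt W L) : yc (MW3_map W L P) = ((yc P : L) : Ω) := by
  cases P with
  | zero => rfl
  | some x y h => rfl

theorem MW3_ne {L : IntermediateField k Ω} {P : Pt W L} (h : P ≠ 0) : MW3_map W L P ≠ 0 := by
  cases P with
  | zero => exact absurd rfl h
  | some x y h1 => exact WeierstrassCurve.Affine.Point.some_ne_zero _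

theorem MW3_fix [W.IsShortNF] {L : IntermediateField k Ω} (P : Pt W L) {g : Ω ≃ₐ[k] Ω}
    (hg : g ∈ L.fixingSubgroup) : rho W g (MW3_map W L P) = MW3_map W L P := by
  by_cases hP : P = 0
  · rw [hP, map_zero, map_zero]
  · have h1 : ∀ x : L, g (x : Ω) = x := fun x =>
      (IntermediateField.mem_fixingSubgroup_iff L g).1 hg x x.2
    refine pt_ext (SE3_ne (MW3_ne hP)) (MW3_ne hP) ?_ ?_
    · rw [SE3_xc, MW3_xc, h1]
    · rw [SE3_yc, MW3_yc, h1]

theorem MW3_lift [W.IsShortNF] [W.IsElliptic] {L : IntermediateField k Ω} {P : Pt W Ω}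
    (hx : xc P ∈ L) (hy : yc P ∈ L) : ∃ Q : Pt W L, MW3_map W L Q = P := by
  by_cases hP : P = 0
  · exact ⟨0, by rw [hP, map_zero]⟩
  · have h1 := eqn hP
    have h2 : (⟨yc P, hy⟩ : L) ^ 2 = (⟨xc P, hx⟩ : L) ^ 3 +
        (WeierstrassCurve.Affine.baseChange W L).a₄ * (⟨xc P, hx⟩ : L) +
        (WeierstrassCurve.Affine.baseChange W L).a₆ := by
      apply Subtype.ext
      push_cast
      exact h1
    obtain ⟨Q, hQ, hxQ, hyQ⟩ := exists_pt (W := WeierstrassCurve.Affine.baseChange W L) _ _ h2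
    refine ⟨Q, pt_ext (MW3_ne hQ) hP ?_ ?_⟩
    · rw [MW3_xc, hxQ]
    · rw [MW3_yc, hyQ]

end

variable {k : Type*} [Field k] [NumberField k] {Ω : Type*} [Field Ω] [Algebra k Ω] [IsAlgClosed Ω]
  [Algebra.IsAlgebraic k Ω] [CharZero Ω] [DecidableEq Ω] {W : WeierstrassCurve.Affine k}
  [W.IsShortNF] [W.IsElliptic] {n b : ℕ} [NeZero n] {S : Setup W Ω n}

theorem MW3_fg (S : Setup W Ω n) : Module.Finite ℤ (Pt W S.L) := by
  have hfin : FiniteDimensional k S.L := S.fin
  have hnf : NumberField S.L := NumberField.of_module_finite k S.L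
  obtain ⟨e, he⟩ := MW3_cubic (WeierstrassCurve.Affine.baseChange W Ω).a₄
    (WeierstrassCurve.Affine.baseChange W Ω).a₆
  have hmem : ∀ i, e i ∈ S.L := by
    intro i
    obtain ⟨P, hP, hxP, hyP⟩ := exists_pt (W := WeierstrassCurve.Affine.baseChange W Ω) (e i) 0 (by
      rw [he]
      fin_cases i <;> simp)
    have h2 : 2 • P = 0 := (two_smul_eq_zero_iff two_ne_zero hP).2 hyP
    have h3 := S.coord_mem (P := P) fun g hg => (S.fix g hg).2.2 P (by
      rw [mul_comm, mul_smul, h2, smul_zero])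
    rw [← hxP]
    exact h3.1
  have hw := weak_mw (WeierstrassCurve.Affine.baseChange W S.L) (fun i => (⟨e i, hmem i⟩ : S.L))
    (fun x => by
      apply Subtype.ext
      push_cast
      exact he x)
  exact mordell_weil (WeierstrassCurve.Affine.baseChange W S.L) hw

theorem MW3_quot {G : Type*} [AddCommGroup G] [Module.Finite ℤ G] (n : ℕ) (hn : n ≠ 0) :
    Finite (G ⧸ (nsmulAddMonoidHom n : G →+ G).range) := by
  have h1 : AddGroup.FG G := Module.Finite.iff_addGroup_fg.1 inferInstance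
  have h2 : AddGroup.FG (G ⧸ (nsmulAddMonoidHom n : G →+ G).range) := inferInstance
  refine AddCommGroup.finite_of_fg_isAddTorsion _ ?_
  intro x
  obtain ⟨y, rfl⟩ := QuotientAddGroup.mk_surjective x
  rw [isOfFinAddOrder_iff_nsmul_eq_zero]
  refine ⟨n, Nat.pos_of_ne_zero hn, ?_⟩
  rw [← QuotientAddGroup.mk_nsmul, QuotientAddGroup.eq_zero_iff]
  exact ⟨y, rfl⟩

theorem mw_class (S : Setup W Ω n) : ∃ (h : ℕ) (cl : Pt W Ω → Fin h), ∀ P P' : Pt W Ω,
    (∀ g ∈ S.N, rho W g P = P) → (∀ g ∈ S.N, rho W g P' = P') → cl P = cl P' →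
      ∃ P₂ : Pt W Ω, (∀ g ∈ S.N, rho W g P₂ = P₂) ∧ P - P' = n • P₂ := by
  classical
  have hfg := MW3_fg S
  have hq : Finite (Pt W S.L ⧸ (nsmulAddMonoidHom n : Pt W S.L →+ Pt W S.L).range) :=
    MW3_quot n (NeZero.ne n)
  obtain ⟨h, ⟨φ⟩⟩ := Finite.exists_equiv_fin
    (Pt W S.L ⧸ (nsmulAddMonoidHom n : Pt W S.L →+ Pt W S.L).range)
  have hlift : ∀ P : Pt W Ω, (∀ g ∈ S.N, rho W g P = P) → ∃ Q : Pt W S.L, MW3_map W S.L Q = P := by
    intro P hP
    obtain ⟨hx, hy⟩ := S.coord_mem hP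
    exact MW3_lift hx hy
  refine ⟨h, fun P => φ (QuotientAddGroup.mk
    (if hP : ∃ Q : Pt W S.L, MW3_map W S.L Q = P then hP.choose else 0)), ?_⟩
  intro P P' hP hP' hcl
  have h1 := hlift P hP
  have h2 := hlift P' hP'
  rw [φ.apply_eq_iff_eq, dif_pos h1, dif_pos h2, eq_comm, QuotientAddGroup.eq] at hcl
  obtain ⟨R, hR⟩ := hcl
  refine ⟨MW3_map W S.L R, fun g hg => MW3_fix R hg, ?_⟩
  have h3 := h1.choose_spec
  have h4 := h2.choose_spec
  have h5 : h1.choose - h2.choose = n • R := by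
    rw [sub_eq_neg_add]
    exact hR.symm
  rw [← h3, ← h4, ← map_sub, h5, map_nsmul]

end H16C
end

-- from Lib.H55P.S5
section

open NumberField IsDedekindDomain WeierstrassCurve

namespace H55P

variable {F : Type} [Field F] [NumberField F] {Ω : Type} [Field Ω] [DecidableEq Ω] [Algebra F Ω]
  [IsAlgClosed Ω] [Algebra.IsAlgebraic F Ω] [CharZero Ω]

/-! Chunk PS5 (M). Divisibility, torsion, Mordell-Weil, fixed points.
div_pt, tors_fin: exists_short (S4) and divisible, tors_finite of Lib/H16C/T1.lean (short curves; Pt of H16C is the same type). fix_iff: P = 0 or (x, y) with x, y fixed by K.fixingSubgroup, so in K (Ω/F is Galois, characteristic 0: InfiniteGalois.fixedField_fixingSubgroup;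
see Setup.mem_L in Lib/H16C/SE3.lean, MW3_lift in MW3.lean). mw: short curve by exists_short; E the splitting field over K of x^3 + a4 x + a6 (number field), weak_mw (Lib/H16C/MW1.lean), mordell_weil (MW2.lean) for the curve over E; Pt W K embeds into Pt W E
(Affine.Point.map_injective) and subgroups of finitely generated abelian groups are finitely generated (Module.Finite over the noetherian ring ℤ: Module.Finite.of_injective). Model: MW3_fg in Lib/H16C/MW3.lean (the types Pt W E and the points of the curve over E agree: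
baseChange_baseChange or map_map, see there). -/

theorem div_pt (W : WeierstrassCurve F) [W.IsElliptic] (n : ℕ) (hn : 0 < n) (P : Pt W Ω) :
    ∃ Q : Pt W Ω, n • Q = P := by
  obtain ⟨W', hs, he, φ, -⟩ := exists_short W
  obtain ⟨Q, hQ⟩ := H16C.divisible (W := (W'⁄Ω).toAffine) n hn (φ Ω P)
  refine ⟨(φ Ω).symm Q, ?_⟩
  rw [← map_nsmul, hQ, AddEquiv.symm_apply_apply]

theorem tors_fin (W : WeierstrassCurve F) [W.IsElliptic] (n : ℕ) (hn : 0 < n) :
    {P : Pt W Ω | n • P = 0}.Finite := by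
  obtain ⟨W', hs, he, φ, -⟩ := exists_short W
  have h1 := H16C.tors_finite (W'⁄Ω).toAffine n hn
  refine Set.Finite.subset (h1.preimage (φ Ω).injective.injOn) ?_
  intro P hP
  have hP' : n • P = 0 := hP
  show n • (φ Ω P) = 0
  rw [← map_nsmul, hP', map_zero]

omit [NumberField F] [DecidableEq Ω] in
theorem ps5_mem [CharZero F] (K : IntermediateField F Ω) {x : Ω}
    (h : ∀ g ∈ K.fixingSubgroup, g x = x) : x ∈ K := by
  have h1 : IsAlgClosure F Ω := ⟨inferInstance, inferInstance⟩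
  have h2 : Normal F Ω := IsAlgClosure.normal F Ω
  have h3 : IsGalois F Ω := { }
  rw [← InfiniteGalois.fixedField_fixingSubgroup K, IntermediateField.mem_fixedField_iff]
  exact h

theorem fix_iff (W : WeierstrassCurve F) [W.IsElliptic] (K : IntermediateField F Ω) [DecidableEq K]
    (P : Pt W Ω) : (∀ s ∈ K.fixingSubgroup, ac W s P = P) ↔
      ∃ Q : Pt W K, Affine.Point.map (W' := W.toAffine) K.val Q = P := by
  constructor
  · intro h
    cases P with
    | zero => exact ⟨0, map_zero _⟩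
    | some x y hxy =>
      have hx : x ∈ K := by
        refine ps5_mem K fun g hg => ?_
        have h1 := h g hg
        unfold ac at h1
        rw [Affine.Point.map_some] at h1
        exact (Affine.Point.some.inj h1).1
      have hy : y ∈ K := by
        refine ps5_mem K fun g hg => ?_
        have h1 := h g hg
        unfold ac at h1
        rw [Affine.Point.map_some] at h1
        exact (Affine.Point.some.inj h1).2
      have h2 : (W⁄K).toAffine.Nonsingular ⟨x, hx⟩ ⟨y, hy⟩ := by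
        have h3 := Affine.baseChange_nonsingular W.toAffine (f := K.val)
          (RingHom.injective K.val.toRingHom) (⟨x, hx⟩ : K) (⟨y, hy⟩ : K)
        exact h3.1 hxy
      exact ⟨.some _ _ h2, rfl⟩
  · rintro ⟨Q, rfl⟩ s hs
    unfold ac
    rw [Affine.Point.map_map]
    congr 2
    ext x
    exact (IntermediateField.mem_fixingSubgroup_iff K s).1 hs x x.2

theorem mw (W : WeierstrassCurve F) [W.IsElliptic] (K : Type) [Field K] [NumberField K] [DecidableEq K]
    [Algebra F K] : Module.Finite ℤ (Pt W K) := by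
  classical
  obtain ⟨W', hs, he, φ, -⟩ := exists_short W
  obtain ⟨e, he'⟩ := H16C.MW3_cubic (algebraMap F (AlgebraicClosure K) W'.a₄)
    (algebraMap F (AlgebraicClosure K) W'.a₆)
  let L : IntermediateField K (AlgebraicClosure K) := IntermediateField.adjoin K (Set.range e)
  have hL : FiniteDimensional K L := by
    refine IntermediateField.finiteDimensional_adjoin fun x _ => ?_
    exact Algebra.IsIntegral.isIntegral x
  have hN : NumberField L := NumberField.of_module_finite K L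
  have hw := H16C.weak_mw (W'⁄L).toAffine
    (fun i => (⟨e i, IntermediateField.subset_adjoin K _ (Set.mem_range_self i)⟩ : L)) (fun x => by
      apply Subtype.ext
      push_cast
      exact he' x)
  have h1 : Module.Finite ℤ (Pt W' L) := H16C.mordell_weil _ hw
  have h2 : Module.Finite ℤ (Pt W' K) := by
    refine Module.Finite.of_injective
      (Affine.Point.map (W' := W'.toAffine) (IsScalarTower.toAlgHom F K L)).toIntLinearMap ?_
    exact Affine.Point.map_injective _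
  exact Module.Finite.equiv (φ K).symm.toIntLinearEquiv

end H55P
end
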