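import Mathlib
import Pool.Agent.Lib.H1M.PP.M005
import Pool.Agent.Lib.H1M.PP.M006
import Pool.Agent.Lib.H1M.PP.M010
import Pool.Agent.Lib.H1M.PP.M013

/-! Merged copies (to shorten the build) of Lib.H13E.Defs, Lib.H13E.Q1, Lib.H55R.HA8, Lib.H55R.HA9, Lib.H55R.HA6, Lib.H55R.HA7, Lib.H55R.HA10, Lib.H55R.HA11, Lib.H55R.HA12, Lib.H55R.HC4, Lib.H55R.HC5, Lib.H55R.HB2, Lib.H55R.HC3, Lib.H55R.HC6, Lib.H55R.HC7, Lib.H55R.HC8. -/

-- from Lib.H13E.Defs
section

/-!
# H13E: definitions

The Birch and Swinnerton-Dyer conjecture (rank part and 3-part) for y^2 = x^3 - 1 over number fields which do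
not contain the cube roots of unity. See PROOF.md. The curve E144, the Selmer group Sel, the function Om and
3-adic units Unit3 are those of H35T.
-/

open NumberField IsDedekindDomain Polynomial

namespace H13E

open H55B H35T

/-- K is the quadratic extension of K₀ generated by the cube roots of unity. -/
structure Quad (K₀ K : Type) [Field K₀] [NumberField K₀] [Field K] [NumberField K] [Algebra F K]
    [Algebra K₀ K] : Prop where
  rank : Module.finrank K₀ K = 2
  noroot : ∀ x : K₀, x ^ 2 + x + 1 ≠ 0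

open Classical in
/-- Points of E144 over the completion with nonsingular reduction (of the minimal equation
y^2 = x^3 - 1): the partial derivatives 3x^2 and 2y do not both reduce to 0. -/
def E0 (K : Type) [Field K] [NumberField K] (w : HeightOneSpectrum (𝓞 K)) :
    Set (E144.baseChange (w.adicCompletion K)).toAffine.Point :=
  {P | P = 0 ∨ ∃ (x y : w.adicCompletion K)
    (h : (E144.baseChange (w.adicCompletion K)).toAffine.Nonsingular x y),
    P = WeierstrassCurve.Affine.Point.some x y h ∧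
      (1 ≤ Valued.v (3 * x ^ 2) ∨ 1 ≤ Valued.v (2 * y))}

open Classical in
/-- The Tamagawa number: the index of the subgroup of points with nonsingular reduction. -/
noncomputable def tam (K : Type) [Field K] [NumberField K] (w : HeightOneSpectrum (𝓞 K)) : ℕ :=
  (AddSubgroup.closure (E0 K w)).index

/-- The real period: the smallest positive real number in the period lattice. -/
noncomputable def Omr (L : PeriodPair) : ℝ := sInf {x : ℝ | 0 < x ∧ (x : ℂ) ∈ L.lattice}

open Classical in
/-- The analytic order of the Tate-Shafarevich group of E144 over K predicted by the formula of Birch and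
Swinnerton-Dyer in rank 0, for a number field K with real and complex places; L1 is the value of the
L-function at 1. -/
noncomputable def shaAn (K : Type) [Field K] [NumberField K] (L : PeriodPair) (L1 : ℂ) : ℂ :=
  L1 * (Real.sqrt |(NumberField.discr K : ℝ)| : ℝ) *
    (Nat.card (E144.baseChange K).toAffine.Point : ℂ) ^ 2 /
    ((Omr L : ℂ) ^ NumberField.InfinitePlace.nrRealPlaces K *
      (Om L : ℂ) ^ NumberField.InfinitePlace.nrComplexPlaces K *
      ∏ᶠ w : HeightOneSpectrum (𝓞 K), (tam K w : ℂ))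

/-- The quadratic algebra k[T]/(T^2 - 27). -/
abbrev Qe (k : Type) [Field k] : Type := AdjoinRoot (X ^ 2 - C 27 : k[X])

/-- Functoriality of the quadratic algebra. -/
noncomputable def emap {k k' : Type} [Field k] [Field k'] (f : k →+* k') : Qe k →+* Qe k' :=
  AdjoinRoot.map f _ _ (by
    rw [Polynomial.map_sub, Polynomial.map_pow, Polynomial.map_X, Polynomial.map_C, map_ofNat f])

/-- The image of the local Kummer map for the curve y^2 = x^3 + 27 (the other curve of the isogeny of degree 3):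
m is y - T up to cubes for a point (x, y) with x nonzero. -/
def LocImE (k : Type) [Field k] (m : Qe k) : Prop :=
  ∃ x y : k, y ^ 2 = x ^ 3 + 27 ∧ x ≠ 0 ∧
    ∃ b : Qe k, m * (AdjoinRoot.of _ y - AdjoinRoot.root _) = b ^ 3

/-- Representatives of the Selmer group over K of the isogeny of degree 3 from y^2 = x^3 - 1 to y^2 = x^3 + 27. Over a
field which does not contain the cube roots of unity Sel K is the Selmer group of the dual isogeny, from
y^2 = x^3 + 27 to y^2 = x^3 - 1. -/
def SelE (K : Type) [Field K] [NumberField K] : Set (Qe K) :=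
  {m | IsUnit m ∧ (∃ n : K, Algebra.norm K m = n ^ 3) ∧
    ∀ w : HeightOneSpectrum (𝓞 K),
      LocImE (w.adicCompletion K) (emap (algebraMap K (w.adicCompletion K)) m)}

/-- The conclusion: analytic continuation, non-vanishing at 1, the 3-part of the formula, triviality of the
Selmer groups of the two isogenies of degree 3 (whose composition is multiplication by 3 or -3), finiteness and
order of the group of points. -/
def BSD3 (K : Type) [Field K] [NumberField K] : Prop :=
  (∃ Λ : ℂ → ℂ, AnalyticOnNhd ℂ Λ {s | 1 / 2 < s.re} ∧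
    (∀ s : ℂ, 3 / 2 < s.re →
      LSeriesSummable (fun n => (((E144.baseChange K).LFunction n : ℤ) : ℂ)) s ∧
      Λ s = (E144.baseChange K).LSeries s) ∧ Λ 1 ≠ 0 ∧
    ∀ L : PeriodPair, L.g₂ = 0 → L.g₃ = 4 → Unit3 (shaAn K L (Λ 1))) ∧
  (∀ m ∈ Sel K, ∃ b : Qd K, m = b ^ 3) ∧ (∀ m ∈ SelE K, ∃ b : Qe K, m = b ^ 3) ∧
  Finite (E144.baseChange K).toAffine.Point ∧
    ¬ 3 ∣ Nat.card (E144.baseChange K).toAffine.Point

end H13E
end

-- from Lib.H13E.Q1
section

open NumberField IsDedekindDomain

namespace H13E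

open H55B H35T

variable {K₀ K : Type} [Field K₀] [NumberField K₀] [Field K] [NumberField K] [Algebra F K] [Algebra K₀ K]

/-! Chunk Q1 (M): the quadratic extension K/K₀. z = algebraMap O K om is a root of X^2 + X + 1 (om_rel), which has no root in K₀ and so is
irreducible over K₀ (degree 2): it is the minimal polynomial of z, K₀(z) has degree 2, so K = K₀(z): every element is a + b z (quad_span).
The other root is z^2 = -1 - z. K/K₀ is Galois of degree 2 (separable, splitting field of X^2 + X + 1), the nontrivial automorphism c sends z to z^2 = image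
of cj om (cj_om), so c (algebraMap O K x) = algebraMap O K (cj x) for x = a + b om (exists_repr; cj is a ring homomorphism). -/

omit [NumberField K] in
theorem q1_rel : (algebraMap O K om) ^ 2 + algebraMap O K om + 1 = 0 := by
  have h := congrArg (algebraMap O K) om_rel
  rwa [map_add, map_add, map_pow, map_one, map_zero] at h

theorem quad_span (hQ : Quad K₀ K) (x : K) : ∃ a b : K₀,
    x = algebraMap K₀ K a + algebraMap K₀ K b * algebraMap O K om := by
  have hz := q1_rel (K := K)
  generalize algebraMap O K om = z at hz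
  have hinj : Function.Injective (algebraMap K₀ K) := (algebraMap K₀ K).injective
  have hli : LinearIndependent K₀ ![(1 : K), z] := by
    rw [LinearIndependent.pair_iff]
    intro s t hst
    rw [Algebra.smul_def, Algebra.smul_def, mul_one] at hst
    have ht : t = 0 := by
      by_contra ht
      have ht' : algebraMap K₀ K t ≠ 0 := by
        rw [Ne, map_eq_zero]
        exact ht
      apply hQ.noroot (-s / t)
      apply hinj
      rw [map_add, map_add, map_pow, map_one, map_zero, map_div₀, map_neg]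
      have h1 : -(algebraMap K₀ K s) / algebraMap K₀ K t = z := by
        rw [div_eq_iff ht']
        linear_combination -hst
      rw [h1]
      exact hz
    refine ⟨?_, ht⟩
    rw [ht, map_zero, zero_mul, add_zero] at hst
    exact hinj (by rw [hst, map_zero])
  have hspan := hli.span_eq_top_of_card_eq_finrank' (by rw [hQ.rank]; rfl)
  have hx : x ∈ Submodule.span K₀ (Set.range ![(1 : K), z]) := by
    rw [hspan]
    exact Submodule.mem_top
  rw [Matrix.range_cons, Matrix.range_cons, Matrix.range_empty, Set.union_empty,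
    Set.singleton_union, Submodule.mem_span_pair] at hx
  obtain ⟨a, b, hab⟩ := hx
  refine ⟨a, b, ?_⟩
  rw [← hab, Algebra.smul_def, Algebra.smul_def, mul_one]

theorem q1_quad (hQ : Quad K₀ K) : Algebra.IsQuadraticExtension K₀ K where
  finrank_eq_two' := hQ.rank

theorem quad_galois (hQ : Quad K₀ K) : IsGalois K₀ K := by
  have := q1_quad hQ
  infer_instance

theorem exists_c (hQ : Quad K₀ K) : ∃ c : K ≃ₐ[K₀] K, c ≠ 1 ∧
    (∀ x : O, c (algebraMap O K x) = algebraMap O K (cj x)) ∧ (∀ z, c (c z) = z) ∧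
    (∀ g : K ≃ₐ[K₀] K, g = 1 ∨ g = c) ∧ ∀ z : K, c z = z → ∃ x : K₀, algebraMap K₀ K x = z := by
  have hq := q1_quad hQ
  have hG := quad_galois hQ
  have hcard : Nat.card (K ≃ₐ[K₀] K) = 2 := by
    rw [IsGalois.card_aut_eq_finrank, hQ.rank]
  obtain ⟨c, hc, hu⟩ := (Nat.card_eq_two_iff' (1 : K ≃ₐ[K₀] K)).1 hcard
  have hall : ∀ g : K ≃ₐ[K₀] K, g = 1 ∨ g = c := by
    intro g
    by_cases h : g = 1
    · exact Or.inl h
    · exact Or.inr (hu g h)
  have hz := q1_rel (K := K)
  have hne : c (algebraMap O K om) ≠ algebraMap O K om := by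
    intro h
    apply hc
    ext x
    obtain ⟨a, b, rfl⟩ := quad_span hQ x
    rw [map_add, map_mul, AlgEquiv.commutes, AlgEquiv.commutes, h]
    rfl
  have hcz : c (algebraMap O K om) = (algebraMap O K om) ^ 2 := by
    have h1 := congrArg c hz
    rw [map_add, map_add, map_pow, map_one, map_zero] at h1
    have h2 : (c (algebraMap O K om) - algebraMap O K om) *
        (c (algebraMap O K om) + algebraMap O K om + 1) = 0 := by
      linear_combination h1 - hz
    rcases mul_eq_zero.1 h2 with h3 | h3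
    · exact absurd (sub_eq_zero.1 h3) hne
    · linear_combination h3 - hz
  refine ⟨c, hc, ?_, ?_, hall, ?_⟩
  · intro x
    obtain ⟨a, b, rfl⟩ := exists_repr x
    simp only [map_add, map_mul, map_intCast]
    rw [hcz, cj_om, map_pow]
  · intro z
    have h1 : c * c = 1 := by
      rcases hall (c * c) with h | h
      · exact h
      · exact absurd (mul_eq_left.1 h) hc
    have h2 := congrArg (fun g : K ≃ₐ[K₀] K => g z) h1
    exact h2
  · intro x hx
    obtain ⟨a, b, rfl⟩ := quad_span hQ x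
    refine ⟨a, ?_⟩
    rw [map_add, map_mul, AlgEquiv.commutes, AlgEquiv.commutes] at hx
    have h1 : algebraMap K₀ K b * (c (algebraMap O K om) - algebraMap O K om) = 0 := by
      linear_combination hx
    rcases mul_eq_zero.1 h1 with h2 | h2
    · rw [h2, zero_mul, add_zero]
    · exact absurd (sub_eq_zero.1 h2) hne

end H13E
end

-- from Lib.H55R.HA8
section

open NumberField IsDedekindDomain

namespace H55R

variable {K L : Type} [Field K] [NumberField K] [Field L] [NumberField L] [Algebra K L]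

/-- The permutation τ is the action of σ on the primes in T and on the infinite places. -/
structure Tau (σ : Gal(L/K)) (T : Finset (Pl L)) (τ : Equiv.Perm (T ⊕ InfinitePlace L)) : Prop where
  fin : ∀ W : T, ∃ W' : T, τ (Sum.inl W) = Sum.inl W' ∧ W'.1 = smulP σ W.1
  inf : ∀ V : InfinitePlace L, τ (Sum.inr V) = Sum.inr (σ • V)

/-! Chunk HA8 (M): the equivariant family. n = [L : K]. exists_tau: T is stable under σ (under_smulP), σ has order dividing n
(pow_card_eq_one, IsGalois.card_aut_eq_finrank), smulP_mul, smulP_one, mul_smul. sg_pow: (sg σ)^n = 1 for the same reason.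
exists_eta: eq_family (HA4) with R (inl W) y: 0 < ord W y and ord W' y = 0 for W' <> W; R (inr V) y: ord = 0 everywhere and V' y < 1 for V' <> V.
hadd: ord of a product is the sum, V' (y z) = V' y V' z. heq: ord_smul (for W' <> σ W write W' = σ W'' with W'' = σ^-1 W' <> W) and
InfinitePlace.smul_apply: (σ • V')(σ y) = V' y. hex: unit_place, prime_unit (HA5; for a unit y of 𝓞 L the orders are 0). n > 0. -/

theorem HA8_pow [IsGalois K L] (σ : Gal(L/K)) : σ ^ Module.finrank K L = 1 := by
  rw [← IsGalois.card_aut_eq_finrank]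
  exact pow_card_eq_one'

omit [NumberField K] [NumberField L] in
theorem HA8_sg_pow (σ : Gal(L/K)) (i : ℕ) : (sg σ) ^ i = sg (σ ^ i) := by
  induction i with
  | zero =>
    rw [pow_zero, pow_zero]
    ext a
    rfl
  | succ i ih =>
    rw [pow_succ, ih, pow_succ]
    ext a
    rfl

theorem HA8_smulP_inv (σ : Gal(L/K)) (W : Pl L) : smulP σ⁻¹ (smulP σ W) = W := by
  rw [← smulP_mul, inv_mul_cancel, smulP_one]

theorem HA8_smulP_inv' (σ : Gal(L/K)) (W : Pl L) : smulP σ (smulP σ⁻¹ W) = W := by
  rw [← smulP_mul, mul_inv_cancel, smulP_one]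

theorem sg_pow [IsGalois K L] (σ : Gal(L/K)) : (sg σ) ^ Module.finrank K L = 1 := by
  rw [HA8_sg_pow, HA8_pow]
  ext a
  rfl

theorem exists_tau [IsGalois K L] (σ : Gal(L/K)) (S : Set (Pl K)) (T : Finset (Pl L))
    (hT : ∀ W, W ∈ T ↔ W.under (𝓞 K) ∈ S) :
    ∃ τ : Equiv.Perm (T ⊕ InfinitePlace L), Tau σ T τ ∧ τ ^ Module.finrank K L = 1 := by
  have hst : ∀ (ρ : Gal(L/K)) (W : Pl L), W ∈ T → smulP ρ W ∈ T := by
    intro ρ W hW
    rw [hT, under_smulP]
    exact (hT W).mp hW
  let e : Equiv.Perm T :=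
    { toFun := fun W => ⟨smulP σ W.1, hst σ W.1 W.2⟩
      invFun := fun W => ⟨smulP σ⁻¹ W.1, hst σ⁻¹ W.1 W.2⟩
      left_inv := fun W => Subtype.ext (HA8_smulP_inv σ W.1)
      right_inv := fun W => Subtype.ext (HA8_smulP_inv' σ W.1) }
  let f : Equiv.Perm (InfinitePlace L) := MulAction.toPerm σ
  refine ⟨Equiv.sumCongr e f, ⟨fun W => ⟨e W, rfl, rfl⟩, fun V => rfl⟩, ?_⟩
  have h1 : ∀ (i : ℕ) (W : T), ∃ h, ((Equiv.sumCongr e f) ^ i) (Sum.inl W) =
      Sum.inl ⟨smulP (σ ^ i) W.1, h⟩ := by
    intro i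
    induction i with
    | zero =>
      intro W
      refine ⟨hst _ _ W.2, ?_⟩
      rw [pow_zero, Equiv.Perm.one_apply]
      congr 1
      exact Subtype.ext (show W.1 = smulP (σ ^ 0) W.1 by rw [pow_zero, smulP_one])
    | succ i ih =>
      intro W
      refine ⟨hst _ _ W.2, ?_⟩
      obtain ⟨h, hi⟩ := ih W
      rw [pow_succ', Equiv.Perm.mul_apply, hi]
      show Sum.inl (e _) = _
      congr 1
      exact Subtype.ext (show smulP σ (smulP (σ ^ i) W.1) = smulP (σ ^ (i + 1)) W.1 by
        rw [pow_succ', smulP_mul])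
  have h2 : ∀ (i : ℕ) (V : InfinitePlace L), ((Equiv.sumCongr e f) ^ i) (Sum.inr V) =
      Sum.inr ((σ ^ i) • V) := by
    intro i
    induction i with
    | zero =>
      intro V
      rw [pow_zero, Equiv.Perm.one_apply, pow_zero, one_smul]
    | succ i ih =>
      intro V
      rw [pow_succ', Equiv.Perm.mul_apply, ih]
      show Sum.inr (f _) = _
      congr 1
      show σ • (σ ^ i • V) = _
      rw [← mul_smul, pow_succ']
  ext p
  rcases p with W | V
  · obtain ⟨h, hi⟩ := h1 (Module.finrank K L) W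
    rw [hi, Equiv.Perm.one_apply]
    congr 1
    exact Subtype.ext (show smulP (σ ^ Module.finrank K L) W.1 = W.1 by rw [HA8_pow, smulP_one])
  · rw [h2, HA8_pow, one_smul, Equiv.Perm.one_apply]

theorem exists_eta [IsGalois K L] (σ : Gal(L/K)) (T : Finset (Pl L))
    (τ : Equiv.Perm (T ⊕ InfinitePlace L)) (hτ : Tau σ T τ) (hn : τ ^ Module.finrank K L = 1) :
    ∃ η : T ⊕ InfinitePlace L → Additive Lˣ, Eta T η ∧ ∀ p, η (τ p) = sg σ (η p) := by
  let R : T ⊕ InfinitePlace L → Additive Lˣ → Prop := fun p y =>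
    match p with
    | Sum.inl W => 0 < ord W.1 y.toMul ∧ ∀ W' : Pl L, W' ≠ W.1 → ord W' y.toMul = 0
    | Sum.inr V => (∀ W : Pl L, ord W y.toMul = 0) ∧
        ∀ V' : InfinitePlace L, V' ≠ V → V' (y.toMul : L) < 1
  have hpos : 0 < Module.finrank K L := Module.finrank_pos
  have hsg : ∀ y : Additive Lˣ, (sg σ y).toMul =
      Units.map ((σ : L ≃ₐ[K] L) : L →* L) y.toMul := fun y => rfl
  have hordσ : ∀ (W : Pl L) (y : Lˣ),
      ord W (Units.map ((σ : L ≃ₐ[K] L) : L →* L) y) = ord (smulP σ⁻¹ W) y := by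
    intro W y
    rw [← ord_smul σ (smulP σ⁻¹ W) y, HA8_smulP_inv']
  obtain ⟨η, h1, h2⟩ := eq_family (Module.finrank K L) hpos τ hn (sg σ) (sg_pow σ) R
    (by
      rintro (W | V) a b ha hb
      · refine ⟨?_, fun W' hW' => ?_⟩
        · rw [toMul_add, ord_mul]
          exact add_pos ha.1 hb.1
        · rw [toMul_add, ord_mul, ha.2 W' hW', hb.2 W' hW', add_zero]
      · refine ⟨fun W => ?_, fun V' hV' => ?_⟩
        · rw [toMul_add, ord_mul, ha.1 W, hb.1 W, add_zero]
        · rw [toMul_add, Units.val_mul, map_mul]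
          exact mul_lt_one_of_nonneg_of_lt_one_left (apply_nonneg _ _) (ha.2 V' hV') (hb.2 V' hV').le)
    (by
      rintro (W | V) a ha
      · obtain ⟨W', h1, h2⟩ := hτ.fin W
        rw [h1]
        refine ⟨?_, fun W'' hW'' => ?_⟩
        · rw [hsg, h2, ord_smul]
          exact ha.1
        · rw [hsg, hordσ]
          refine ha.2 _ fun h => hW'' ?_
          rw [h2, ← h, HA8_smulP_inv']
      · rw [hτ.inf V]
        refine ⟨fun W => ?_, fun V' hV' => ?_⟩
        · rw [hsg, hordσ]
          exact ha.1 _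
        · rw [hsg]
          have h3 := ha.2 (σ⁻¹ • V') (fun h => hV' (by rw [← h, smul_inv_smul]))
          rw [InfinitePlace.smul_apply] at h3
          exact h3)
    (by
      rintro (W | V)
      · obtain ⟨y, h1, h2⟩ := prime_unit L W.1
        exact ⟨Additive.ofMul y, h1, h2⟩
      · obtain ⟨y, hy⟩ := unit_place L V
        refine ⟨Additive.ofMul (Units.map (algebraMap (𝓞 L) L : 𝓞 L →* L) y), fun W => ?_,
          fun V' hV' => hy V' hV'⟩
        rw [toMul_ofMul]
        have h1 := (ord_int W (y : 𝓞 L) (Units.map (algebraMap (𝓞 L) L : 𝓞 L →* L) y) rfl 0).mpr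
          (by rw [pow_zero, Ideal.one_eq_top]; trivial)
        have h2 := (ord_int W ((y⁻¹ : (𝓞 L)ˣ) : 𝓞 L)
          (Units.map (algebraMap (𝓞 L) L : 𝓞 L →* L) y⁻¹) rfl 0).mpr
          (by rw [pow_zero, Ideal.one_eq_top]; trivial)
        rw [map_inv, ord_inv] at h2
        rw [Nat.cast_zero] at h1 h2
        omega)
  refine ⟨η, ⟨fun W => h1 (Sum.inl W), fun V => h1 (Sum.inr V)⟩, h2⟩

end H55R
end

-- from Lib.H55R.HA9
section

open NumberField IsDedekindDomain

namespace H55R

variable {K L : Type} [Field K] [NumberField K] [Field L] [NumberField L] [Algebra K L]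

/-! Chunk HA9 (M): the permutation module of the places. Apply herb_perm (HA3) with P = T ⊕ infinite places of L, Q = S ⊕ infinite places of K,
π = the place below (W.under (𝓞 K), V.comap (algebraMap K L)). Surjective: under_exists, InfinitePlace.comap_surjective. Orbits: two primes over the
same prime are conjugate under a power of the generator σ (smulP_trans; every element of the group is a power σ^i with i a natural number because the
group is finite), the action of τ^i is the action of σ^i (smulP_mul, mul_smul, Tau); two infinite places with the same restriction are conjugate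
(InfinitePlace.exists_smul_eq_of_comap_eq). Fibres: above v in S: card_above, so n / card = e f; above an infinite place of K, which is
complex: the fibre is an orbit with trivial stabiliser (Mathlib: a complex place is unramified: InfinitePlace.isUnramified_iff,
InfinitePlace.card_stabilizer or even a direct argument: V.comap = V.comap for σ with σ V = V means that σ fixes the
embedding of L or conjugates it, and conjugation is not K-linear since the place of K is complex), so it has n
elements and n / card = 1. The product over Q is the product over S. -/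

theorem HA9_pow_fin (σ : Gal(L/K)) (T : Finset (Pl L)) (τ : Equiv.Perm (T ⊕ InfinitePlace L))
    (hτ : Tau σ T τ) (i : ℕ) (W : T) :
    ∃ W' : T, (τ ^ i) (Sum.inl W) = Sum.inl W' ∧ W'.1 = smulP (σ ^ i) W.1 := by
  induction i with
  | zero => exact ⟨W, rfl, by rw [pow_zero, smulP_one]⟩
  | succ i ih =>
    obtain ⟨W₁, h1, h2⟩ := ih
    obtain ⟨W₂, h3, h4⟩ := hτ.fin W₁
    refine ⟨W₂, ?_, ?_⟩
    · rw [pow_succ', Equiv.Perm.mul_apply, h1, h3]
    · rw [h4, h2, pow_succ', smulP_mul]

theorem HA9_pow_inf (σ : Gal(L/K)) (T : Finset (Pl L)) (τ : Equiv.Perm (T ⊕ InfinitePlace L))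
    (hτ : Tau σ T τ) (i : ℕ) (V : InfinitePlace L) :
    (τ ^ i) (Sum.inr V) = Sum.inr (σ ^ i • V) := by
  induction i with
  | zero => rw [pow_zero, pow_zero, one_smul]; rfl
  | succ i ih =>
    rw [pow_succ', Equiv.Perm.mul_apply, ih, hτ.inf, pow_succ', mul_smul]

theorem HA9_card_inf [IsGalois K L] (V : InfinitePlace K) (hV : V.IsComplex)
    (s : Finset (InfinitePlace L)) (hs : ∀ w, w ∈ s ↔ w.comap (algebraMap K L) = V) :
    s.card = Module.finrank K L := by
  classical
  obtain ⟨w₀, hw₀⟩ := InfinitePlace.comap_surjective (K := L) V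
  have hw₀' : w₀.comap (algebraMap K L) = V := hw₀
  have hun : w₀.IsUnramified K := by
    rw [InfinitePlace.isUnramified_iff]
    right
    rw [hw₀']
    exact hV
  have hst := hun.stabilizer_eq_bot
  have hinj : Function.Injective (fun g : Gal(L/K) => g • w₀) := by
    intro g h hgh
    have h1 : g • w₀ = h • w₀ := hgh
    have h2 : h⁻¹ * g ∈ MulAction.stabilizer Gal(L/K) w₀ := by
      rw [MulAction.mem_stabilizer_iff, mul_smul, h1, inv_smul_smul]
    rw [hst, Subgroup.mem_bot] at h2
    exact (inv_mul_eq_one.1 h2).symm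
  have hs' : s = Finset.univ.image (fun g : Gal(L/K) => g • w₀) := by
    ext w
    rw [hs, Finset.mem_image]
    constructor
    · intro h
      obtain ⟨g, hg⟩ := InfinitePlace.exists_smul_eq_of_comap_eq (k := K) (w := w₀) (w' := w)
        (by rw [hw₀', h])
      exact ⟨g, Finset.mem_univ _, hg⟩
    · rintro ⟨g, -, rfl⟩
      have h1 := InfinitePlace.mem_orbit_iff (k := K) (w := w₀) (w' := g • w₀) |>.1 ⟨g, rfl⟩
      rw [← h1, hw₀']
  rw [hs', Finset.card_image_of_injective _ hinj, Finset.card_univ, ← Nat.card_eq_fintype_card,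
    IsGalois.card_aut_eq_finrank]

theorem herb_places [IsGalois K L] (σ : Gal(L/K)) (hσ : ∀ g : Gal(L/K), g ∈ Subgroup.zpowers σ)
    (hK : ∀ v : InfinitePlace K, v.IsComplex) (S : Finset (Pl K)) (T : Finset (Pl L))
    (hT : ∀ W, W ∈ T ↔ W.under (𝓞 K) ∈ S) (τ : Equiv.Perm (T ⊕ InfinitePlace L))
    (hτ : Tau σ T τ) (hn : τ ^ Module.finrank K L = 1) :
    h1 (Module.finrank K L) (pe τ) ⊤ = 1 ∧
      h0 (Module.finrank K L) (pe τ) ⊤ = ∏ v ∈ S, (es K L v * fs K L v) := by
  classical
  have hn0 : 0 < Module.finrank K L := Module.finrank_pos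
  have hpow : ∀ g : Gal(L/K), ∃ i : ℕ, σ ^ i = g := by
    intro g
    have h1 := hσ g
    rw [← mem_powers_iff_mem_zpowers] at h1
    exact h1
  let π : T ⊕ InfinitePlace L → S ⊕ InfinitePlace K :=
    Sum.map (fun W => ⟨W.1.under (𝓞 K), (hT W.1).1 W.2⟩) (fun V => V.comap (algebraMap K L))
  have hs : Function.Surjective π := by
    rintro (v | V)
    · obtain ⟨W, hW⟩ := under_exists (K := K) (L := L) v.1
      refine ⟨Sum.inl ⟨W, (hT W).2 (by rw [hW]; exact v.2)⟩, ?_⟩
      show Sum.inl _ = Sum.inl v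
      congr 1
      exact Subtype.ext hW
    · obtain ⟨w₀, hw₀⟩ := InfinitePlace.comap_surjective (K := L) V
      exact ⟨Sum.inr w₀, congrArg Sum.inr hw₀⟩
  have ho : ∀ p p', π p = π p' ↔ ∃ i : ℕ, (τ ^ i) p = p' := by
    rintro (W | V) (W' | V')
    · constructor
      · intro h
        have h1 : W.1.under (𝓞 K) = W'.1.under (𝓞 K) := congrArg Subtype.val (Sum.inl_injective h)
        obtain ⟨g, hg⟩ := smulP_trans W.1 W'.1 h1
        obtain ⟨i, hi⟩ := hpow g
        obtain ⟨W₁, h2, h3⟩ := HA9_pow_fin σ T τ hτ i W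
        refine ⟨i, ?_⟩
        rw [h2]
        congr 1
        apply Subtype.ext
        rw [h3, hi, hg]
      · rintro ⟨i, hi⟩
        obtain ⟨W₁, h2, h3⟩ := HA9_pow_fin σ T τ hτ i W
        rw [h2] at hi
        have h4 := Sum.inl_injective hi
        show Sum.inl _ = Sum.inl _
        congr 1
        apply Subtype.ext
        show W.1.under (𝓞 K) = W'.1.under (𝓞 K)
        rw [← h4, h3, under_smulP]
    · constructor
      · intro h
        exact absurd h Sum.inl_ne_inr
      · rintro ⟨i, hi⟩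
        obtain ⟨W₁, h2, h3⟩ := HA9_pow_fin σ T τ hτ i W
        rw [h2] at hi
        exact absurd hi Sum.inl_ne_inr
    · constructor
      · intro h
        exact absurd h Sum.inr_ne_inl
      · rintro ⟨i, hi⟩
        rw [HA9_pow_inf σ T τ hτ] at hi
        exact absurd hi Sum.inr_ne_inl
    · constructor
      · intro h
        have h1 : V.comap (algebraMap K L) = V'.comap (algebraMap K L) := Sum.inr_injective h
        obtain ⟨g, hg⟩ := InfinitePlace.exists_smul_eq_of_comap_eq (k := K) h1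
        obtain ⟨i, hi⟩ := hpow g
        exact ⟨i, by rw [HA9_pow_inf σ T τ hτ, hi, hg]⟩
      · rintro ⟨i, hi⟩
        rw [HA9_pow_inf σ T τ hτ] at hi
        have h4 := Sum.inr_injective hi
        show Sum.inr _ = Sum.inr _
        congr 1
        exact InfinitePlace.mem_orbit_iff (k := K) |>.1 ⟨σ ^ i, h4⟩
  obtain ⟨h1, h2⟩ := herb_perm τ _ hn0 hn π hs ho
  refine ⟨h1, ?_⟩
  rw [h2, Fintype.prod_sum_type]
  have h3 : ∀ V : InfinitePlace K, Module.finrank K L /
      (Finset.univ.filter fun p => π p = Sum.inr V).card = 1 := by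
    intro V
    have h4 : (Finset.univ.filter fun p => π p = Sum.inr V).card = Module.finrank K L := by
      rw [← HA9_card_inf (L := L) V (hK V)
        (Finset.univ.filter fun w : InfinitePlace L => w.comap (algebraMap K L) = V) (by simp)]
      symm
      apply Finset.card_bij (fun w _ => Sum.inr w)
      · intro w hw
        rw [Finset.mem_filter] at hw ⊢
        exact ⟨Finset.mem_univ _, congrArg Sum.inr hw.2⟩
      · intro a _ b _ hab
        exact Sum.inr_injective hab
      · rintro (W | w) hb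
        · rw [Finset.mem_filter] at hb
          exact absurd hb.2 Sum.inl_ne_inr
        · rw [Finset.mem_filter] at hb
          refine ⟨w, ?_, rfl⟩
          rw [Finset.mem_filter]
          exact ⟨Finset.mem_univ _, Sum.inr_injective hb.2⟩
    rw [h4, Nat.div_self hn0]
  rw [Finset.prod_congr rfl (fun V _ => h3 V), Finset.prod_const_one, mul_one,
    ← Finset.prod_coe_sort S]
  apply Finset.prod_congr rfl
  intro v _
  have h4 : (Finset.univ.filter fun p => π p = Sum.inl v).card =
      (T.filter fun W => W.under (𝓞 K) = v.1).card := by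
    symm
    apply Finset.card_bij (fun W hW => Sum.inl ⟨W, (Finset.mem_filter.1 hW).1⟩)
    · intro W hW
      rw [Finset.mem_filter] at hW ⊢
      exact ⟨Finset.mem_univ _, congrArg Sum.inl (Subtype.ext hW.2)⟩
    · intro a _ b _ hab
      exact congrArg Subtype.val (Sum.inl_injective hab)
    · rintro (W | w) hb
      · rw [Finset.mem_filter] at hb
        refine ⟨W.1, ?_, rfl⟩
        rw [Finset.mem_filter]
        exact ⟨W.2, congrArg Subtype.val (Sum.inl_injective hb.2)⟩
      · rw [Finset.mem_filter] at hb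
        exact absurd hb.2 Sum.inr_ne_inl
  have h5 := card_above (K := K) (L := L) v.1 (T.filter fun W => W.under (𝓞 K) = v.1) (by
    intro W
    rw [Finset.mem_filter, hT]
    constructor
    · exact fun h => h.2
    · intro h
      exact ⟨by rw [h]; exact v.2, h⟩)
  rw [h4]
  have h6 : 0 < (T.filter fun W => W.under (𝓞 K) = v.1).card := by
    rcases Nat.eq_zero_or_pos (T.filter fun W => W.under (𝓞 K) = v.1).card with h | h
    · rw [h, zero_mul] at h5
      omega
    · exact h
  rw [← h5, Nat.mul_div_cancel_left _ h6]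

end H55R
end

-- from Lib.H55R.HA6
section

open NumberField IsDedekindDomain

namespace H55R

/-! Chunk HA6 (M): the map Th is injective. Let Th T η a = 0. (1) a (inl W) = 0 for W in T: apply ord W (a homomorphism Lˣ -> ℤ) to
the product of the η p ^ a p: only η (inl W) has nonzero order at W. (2) So the product over V of η(inr V)^(a V) is 1 and
the sum of the a V is 0. With μ V V' = mult(V') log V'(η (inr V)): for V' <> V negative (the value is > 0, < 1), the sum over V' is 0 (the element
η(inr V) has order 0 at all primes, so it is a unit of O_L, |N| = 1 : InfinitePlace.prod_eq_abs_norm, or the product formula in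
Mathlib/NumberTheory/NumberField/ProductFormula.lean), and sum_V a V μ V V' = mult(V') log V'(1) = 0. Then
pos_lemma (chunk HA4) gives a V = 0. -/

/-- ord as a homomorphism. -/
noncomputable def HA6_ordH {L : Type} [Field L] [NumberField L] (W : Pl L) : Additive Lˣ →+ ℤ where
  toFun y := ord W y.toMul
  map_zero' := ord_one W
  map_add' a b := ord_mul W a.toMul b.toMul

/-- The logarithm of an infinite place. -/
noncomputable def HA6_lg {L : Type} [Field L] [NumberField L] (V : InfinitePlace L) :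
    Additive Lˣ →+ ℝ where
  toFun y := V.mult * Real.log (V (y.toMul : L))
  map_zero' := by
    rw [toMul_zero, Units.val_one, map_one, Real.log_one, mul_zero]
  map_add' a b := by
    rw [toMul_add, Units.val_mul, map_mul, Real.log_mul, mul_add]
    · exact (map_ne_zero V).mpr a.toMul.ne_zero
    · exact (map_ne_zero V).mpr b.toMul.ne_zero

theorem HA6_val {L : Type} [Field L] [NumberField L] (W : Pl L) (y : Lˣ) (h : ord W y = 0) :
    W.valuation L (y : L) = 1 := by
  rw [← HeightOneSpectrum.valuationOfNeZero_eq]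
  have h1 : W.valuationOfNeZero y = 1 := by
    unfold ord at h
    have h2 : Multiplicative.toAdd (W.valuationOfNeZero y) = 0 := neg_eq_zero.mp h
    exact Multiplicative.toAdd.injective h2
  rw [h1]
  rfl

theorem HA6_unit {L : Type} [Field L] [NumberField L] (y : Lˣ) (h : ∀ W : Pl L, ord W y = 0) :
    ∃ u : (𝓞 L)ˣ, ((u : 𝓞 L) : L) = y := by
  obtain ⟨x, hx⟩ := HeightOneSpectrum.mem_integers_of_valuation_le_one L (y : L)
    (fun W => (HA6_val W y (h W)).le)
  obtain ⟨x', hx'⟩ := HeightOneSpectrum.mem_integers_of_valuation_le_one L ((y⁻¹ : Lˣ) : L)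
    (fun W => (HA6_val W y⁻¹ (by rw [ord_inv, h W, neg_zero])).le)
  have h1 : x * x' = 1 := by
    apply RingOfIntegers.coe_injective
    rw [map_mul, map_one]
    show algebraMap (𝓞 L) L x * algebraMap (𝓞 L) L x' = 1
    rw [hx, hx']
    exact y.mul_inv
  exact ⟨⟨x, x', h1, by rw [mul_comm, h1]⟩, hx⟩

theorem theta_inj {L : Type} [Field L] [NumberField L] (T : Finset (Pl L))
    (η : T ⊕ InfinitePlace L → Additive Lˣ) (hη : Eta T η) : Function.Injective (Th T η) := by
  classical
  rw [injective_iff_map_eq_zero]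
  intro a ha
  have h1 : ∑ p, a p • η p = 0 := congrArg Prod.fst ha
  have h2 : ∑ V : InfinitePlace L, a (Sum.inr V) = 0 := congrArg Prod.snd ha
  have h3 : ∀ W : T, a (Sum.inl W) = 0 := by
    intro W
    have h := congrArg (HA6_ordH W.1) h1
    rw [map_sum, map_zero, Fintype.sum_sum_type] at h
    have h4 : ∑ V : InfinitePlace L, (HA6_ordH W.1) (a (Sum.inr V) • η (Sum.inr V)) = 0 := by
      refine Finset.sum_eq_zero fun V _ => ?_
      rw [map_zsmul]
      have : (HA6_ordH W.1) (η (Sum.inr V)) = 0 := (hη.inf V).1 W.1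
      rw [this, smul_zero]
    have h5 : ∑ W' : T, (HA6_ordH W.1) (a (Sum.inl W') • η (Sum.inl W')) =
        a (Sum.inl W) * ord W.1 (η (Sum.inl W)).toMul := by
      rw [Finset.sum_eq_single W]
      · rw [map_zsmul, smul_eq_mul]
        rfl
      · intro W' _ hne
        rw [map_zsmul]
        have : (HA6_ordH W.1) (η (Sum.inl W')) = 0 :=
          (hη.fin W').2 W.1 fun h => hne (Subtype.ext h.symm)
        rw [this, smul_zero]
      · intro h
        exact absurd (Finset.mem_univ _) h
    rw [h4, h5, add_zero] at h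
    rcases mul_eq_zero.mp h with h | h
    · exact h
    · exact absurd h (hη.fin W).1.ne'
  have h4 : ∑ V : InfinitePlace L, a (Sum.inr V) • η (Sum.inr V) = 0 := by
    rw [Fintype.sum_sum_type] at h1
    rw [← h1, eq_comm, add_eq_right]
    exact Finset.sum_eq_zero fun W _ => by rw [h3 W, zero_smul]
  have h5 := pos_lemma (fun V V' : InfinitePlace L => HA6_lg V' (η (Sum.inr V)))
    (fun V V' hne => ?_) (fun V => ?_) (fun V => a (Sum.inr V)) (fun V' => ?_) h2
  · funext p
    rcases p with W | V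
    · exact h3 W
    · exact congrFun h5 V
  · show (V'.mult : ℝ) * Real.log (V' ((η (Sum.inr V)).toMul : L)) < 0
    refine mul_neg_of_pos_of_neg ?_ ?_
    · exact_mod_cast InfinitePlace.mult_pos
    · refine Real.log_neg ?_ ((hη.inf V).2 V' hne.symm)
      exact InfinitePlace.pos_iff.mpr (Units.ne_zero _)
  · obtain ⟨u, hu⟩ := HA6_unit (η (Sum.inr V)).toMul (hη.inf V).1
    have := Units.sum_mult_mul_log u
    rw [← this]
    refine Finset.sum_congr rfl fun V' _ => ?_
    show (V'.mult : ℝ) * Real.log (V' ((η (Sum.inr V)).toMul : L)) = _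
    rw [← hu]
  · have h := congrArg (HA6_lg V') h4
    rw [map_sum, map_zero] at h
    rw [← h]
    refine Finset.sum_congr rfl fun V _ => ?_
    rw [map_zsmul, zsmul_eq_mul]

end H55R
end

-- from Lib.H55R.HA7
section

open NumberField IsDedekindDomain

namespace H55R

/-! Chunk HA7 (M/L): the image of Th has finite index in (T-units) x Z. Let G = (TUa T).prod ⊤ and H = (Th T η).range <= G
(ord and the definition of SU; the images are T-units).
(a) The units: the subgroup U of elements x of Lˣ with ord = 0 everywhere is the image of (𝓞 L)ˣ, finitely generated of rank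
r = (number of infinite places) - 1 (NumberField.Units.rank, Dirichlet: (𝓞 L)ˣ modulo torsion is free of rank r, torsion finite). The map
Z^(infinite places) -> U × Z, a -> (sum a V η(inr V), sum a V) is injective (theta_inj restricted), and both sides
have rank r + 1, so its image has finite index: every element (x, k) of U × Z has a positive multiple in the image (if not, (x, k) and the
images of the r + 1 basis vectors would be r + 2 independent elements of a group of rank r + 1).
(b) Every (x, k) in G has a positive multiple in H: with N = the product of the ord W η(inl W), W in T, put a W = N ord W x / ord W η(inl W); then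
N x - sum a W η(inl W) has order 0 at all primes, i.e. is in U; apply (a).
(c) G is finitely generated (U is, and G/(U × Z) embeds in Z^T by the orders), so G/H is a finitely generated torsion group,
hence finite (for example Module.finite_of_fg_torsion or AddCommGroup.finite_of_fg_torsion), i.e. H.relIndex G <> 0. -/

/-- The order as an additive homomorphism. -/
noncomputable def HA7_ord {L : Type} [Field L] [NumberField L] (v : Pl L) : Additive Lˣ →+ ℤ where
  toFun x := ord v x.toMul
  map_zero' := ord_one v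
  map_add' x y := ord_mul v x.toMul y.toMul

theorem HA7_ord_apply {L : Type} [Field L] [NumberField L] (v : Pl L) (x : Additive Lˣ) :
    HA7_ord v x = ord v x.toMul := rfl

theorem theta_mem {L : Type} [Field L] [NumberField L] (T : Finset (Pl L))
    (η : T ⊕ InfinitePlace L → Additive Lˣ) (hη : Eta T η) :
    (Th T η).range ≤ (TUa T).prod (⊤ : AddSubgroup ℤ) := by
  classical
  rintro _ ⟨a, rfl⟩
  rw [AddSubgroup.mem_prod]
  refine ⟨?_, trivial⟩
  show ∀ v : Pl L, v ∉ (T : Set (Pl L)) → HA7_ord v (∑ p, a p • η p) = 0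
  intro v hv
  rw [map_sum]
  refine Finset.sum_eq_zero fun p _ => ?_
  rw [map_zsmul, HA7_ord_apply]
  rcases p with W | V
  · rw [(hη.fin W).2 v (fun h => hv (by rw [h]; exact W.2)), smul_zero]
  · rw [(hη.inf V).1 v, smul_zero]

theorem HA7_unit {L : Type} [Field L] [NumberField L] (x : Lˣ) (h : ∀ v : Pl L, ord v x = 0) :
    ∃ u : (𝓞 L)ˣ, Units.map (algebraMap (𝓞 L) L : 𝓞 L →* L) u = x := by
  have hval : ∀ v : Pl L, v.valuation L (x : L) = 1 := by
    intro v
    have h1 := h v
    unfold ord at h1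
    have h2 : v.valuationOfNeZero x = 1 := by
      rw [neg_eq_zero] at h1
      exact Multiplicative.toAdd.injective h1
    rw [← v.valuationOfNeZero_eq x, h2]
    rfl
  obtain ⟨a, ha⟩ := HeightOneSpectrum.mem_integers_of_valuation_le_one (R := 𝓞 L) L (x : L)
    (fun v => (hval v).le)
  obtain ⟨b, hb⟩ := HeightOneSpectrum.mem_integers_of_valuation_le_one (R := 𝓞 L) L ((x : L)⁻¹)
    (fun v => by rw [map_inv₀, hval v, inv_one])
  have hab : a * b = 1 := by
    apply FaithfulSMul.algebraMap_injective (𝓞 L) L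
    rw [map_mul, ha, hb, map_one, mul_inv_cancel₀ x.ne_zero]
  exact ⟨⟨a, b, hab, (mul_comm b a).trans hab⟩, Units.ext ha⟩

theorem HA7_ord_unit {L : Type} [Field L] [NumberField L] (u : (𝓞 L)ˣ) (v : Pl L) :
    ord v (Units.map (algebraMap (𝓞 L) L : 𝓞 L →* L) u) = 0 := by
  unfold ord
  rw [HeightOneSpectrum.valuation_of_unit_eq, toAdd_one, neg_zero]

theorem theta_index {L : Type} [Field L] [NumberField L] (T : Finset (Pl L))
    (η : T ⊕ InfinitePlace L → Additive Lˣ) (hη : Eta T η) :
    (Th T η).range.relIndex ((TUa T).prod (⊤ : AddSubgroup ℤ)) ≠ 0 := by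
  classical
  set G : AddSubgroup (Additive Lˣ × ℤ) := (TUa T).prod (⊤ : AddSubgroup ℤ) with hG
  -- the orders
  let ρ : G →ₗ[ℤ] (T → ℤ) × ℤ :=
    { toFun := fun x => (fun W => HA7_ord W.1 x.1.1, x.1.2)
      map_add' := fun x y => by
        ext
        · exact map_add (HA7_ord _) _ _
        · rfl
      map_smul' := fun c x => by
        ext
        · exact map_zsmul (HA7_ord _) _ _
        · rfl }
  -- the units
  let ε : Additive (𝓞 L)ˣ →ₗ[ℤ] LinearMap.ker ρ :=
    { toFun := fun u => ⟨⟨(Additive.ofMul (Units.map (algebraMap (𝓞 L) L : 𝓞 L →* L) u.toMul), 0),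
        AddSubgroup.mem_prod.2 ⟨fun v _ => HA7_ord_unit u.toMul v, trivial⟩⟩, by
          rw [LinearMap.mem_ker]
          ext W
          · exact HA7_ord_unit u.toMul W.1
          · rfl⟩
      map_add' := fun x y => by
        apply Subtype.ext
        apply Subtype.ext
        refine Prod.ext ?_ ?_
        · exact congrArg Additive.ofMul (map_mul (Units.map (algebraMap (𝓞 L) L : 𝓞 L →* L))
            x.toMul y.toMul)
        · exact (add_zero (0 : ℤ)).symm
      map_smul' := fun c x => by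
        apply Subtype.ext
        apply Subtype.ext
        refine Prod.ext ?_ ?_
        · exact congrArg Additive.ofMul (map_zpow (Units.map (algebraMap (𝓞 L) L : 𝓞 L →* L))
            x.toMul c)
        · exact (smul_zero c).symm }
  have hε : Function.Surjective ε := by
    rintro ⟨⟨⟨x, k⟩, hx⟩, hk⟩
    rw [LinearMap.mem_ker] at hk
    have hk1 : ∀ W : T, ord W.1 x.toMul = 0 := fun W => congrFun (congrArg Prod.fst hk) W
    have hk2 : k = 0 := congrArg Prod.snd hk
    have h1 : ∀ v : Pl L, ord v x.toMul = 0 := by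
      intro v
      by_cases hv : v ∈ T
      · exact hk1 ⟨v, hv⟩
      · exact (AddSubgroup.mem_prod.1 hx).1 v hv
    obtain ⟨u, hu⟩ := HA7_unit x.toMul h1
    refine ⟨Additive.ofMul u, ?_⟩
    apply Subtype.ext
    apply Subtype.ext
    refine Prod.ext ?_ ?_
    · exact congrArg Additive.ofMul hu
    · exact hk2.symm
  have hfinker : Module.Finite ℤ (LinearMap.ker ρ) := Module.Finite.of_surjective ε hε
  have hfinG : Module.Finite ℤ G := by
    have h1 : Module.Finite ℤ (G ⧸ LinearMap.ker ρ) :=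
      Module.Finite.equiv ρ.quotKerEquivRange.symm
    exact Module.Finite.of_submodule_quotient (LinearMap.ker ρ)
  have hrank1 : Module.finrank ℤ (LinearMap.ker ρ) ≤ Fintype.card (InfinitePlace L) - 1 := by
    have h1 := LinearMap.finrank_le_finrank_of_surjective hε
    rwa [NumberField.Units.finrank_eq] at h1
  have hrank2 : Module.finrank ℤ (G ⧸ LinearMap.ker ρ) ≤ T.card + 1 := by
    rw [LinearEquiv.finrank_eq ρ.quotKerEquivRange]
    refine (Submodule.finrank_le _).trans ?_
    rw [Module.finrank_prod, Module.finrank_fintype_fun_eq_card, Module.finrank_self,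
      Fintype.card_coe]
  have hrankG : Module.finrank ℤ G ≤ T.card + Fintype.card (InfinitePlace L) := by
    have h1 := Submodule.finrank_quotient_add_finrank (LinearMap.ker ρ)
    have h2 : 0 < Fintype.card (InfinitePlace L) := Fintype.card_pos
    omega
  let Θ : (T ⊕ InfinitePlace L → ℤ) →ₗ[ℤ] G :=
    ((Th T η).codRestrict G (fun a => theta_mem T η hη ⟨a, rfl⟩)).toIntLinearMap
  have hΘ : Function.Injective Θ := by
    intro a b hab
    exact theta_inj T η hη (congrArg Subtype.val hab)
  have hrankH : Module.finrank ℤ (LinearMap.range Θ) = T.card + Fintype.card (InfinitePlace L) := by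
    rw [LinearMap.finrank_range_of_inj hΘ, Module.finrank_fintype_fun_eq_card, Fintype.card_sum,
      Fintype.card_coe]
  have hq : Module.finrank ℤ (G ⧸ LinearMap.range Θ) = 0 := by
    have h1 := Submodule.finrank_quotient_add_finrank (LinearMap.range Θ)
    omega
  have hfin : Finite (G ⧸ LinearMap.range Θ) :=
    Module.finite_of_fg_torsion _ (Module.finrank_eq_zero_iff_isTorsion.1 hq)
  have heq : (LinearMap.range Θ).toAddSubgroup = (Th T η).range.addSubgroupOf G := by
    ext x
    rw [Submodule.mem_toAddSubgroup, LinearMap.mem_range, AddSubgroup.mem_addSubgroupOf]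
    constructor
    · rintro ⟨a, rfl⟩
      exact ⟨a, rfl⟩
    · rintro ⟨a, ha⟩
      exact ⟨a, Subtype.ext ha⟩
  show ((Th T η).range.addSubgroupOf G).index ≠ 0
  rw [← heq]
  have hfin' : Finite (G ⧸ (LinearMap.range Θ).toAddSubgroup) := hfin
  exact AddSubgroup.index_ne_zero_of_finite

end H55R
end

-- from Lib.H55R.HA10
section

open NumberField IsDedekindDomain

namespace H55R

variable {K L : Type} [Field K] [NumberField K] [Field L] [NumberField L] [Algebra K L]

/-! Chunk HA10 (M): the Herbrand quotient of the T-units. Take τ, η from HA8. Apply herb_fi (HA1) to φ = Th T η, A' = Additive Lˣ × ℤ,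
σ' = (sg σ).prodMap 1, B' = (TUa T).prod ⊤: φ (pe τ a) = σ' (φ a): sum_p a(τ^-1 p) η p = sum_p a p η (τ p) = sg σ (sum_p a p η p)
(Equiv.sum_comp), and the second component is invariant because τ permutes the infinite places; injective: theta_inj; finite index:
theta_mem, theta_index; T-units are stable under σ (ord_smul, under_smulP). With herb_places, herb_prod and
herb_Z: h0(A) = product of the e f, h1(A) = 1, h0(B') = h0(TUa) n, h1(B') = h1(TUa). -/

theorem HA10_mul {A : Type} [AddCommGroup A] (f g : AddMonoid.End A) (a : A) :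
    (f * g) a = f (g a) := rfl

theorem HA10_pe_pow {P : Type} (τ : Equiv.Perm P) (k : ℕ) (a : P → ℤ) :
    ((pe τ) ^ k) a = fun p => a ((τ ^ k).symm p) := by
  induction k with
  | zero =>
    rw [pow_zero, pow_zero]
    rfl
  | succ k ih =>
    rw [pow_succ', HA10_mul, ih]
    funext p
    change a ((τ ^ k).symm (τ.symm p)) = a ((τ ^ (k + 1)).symm p)
    rw [pow_succ']
    rfl

theorem HA10_pe {P : Type} (τ : Equiv.Perm P) (n : ℕ) (h : τ ^ n = 1) : (pe τ) ^ n = 1 := by
  ext a p
  rw [HA10_pe_pow, h]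
  rfl

/-- σ on the first factor -/
def HA10_P {A : Type} [AddCommGroup A] (σ : AddMonoid.End A) : AddMonoid.End (A × ℤ) :=
  AddMonoidHom.prodMap σ (1 : AddMonoid.End ℤ)

theorem HA10_prod_pow {A : Type} [AddCommGroup A] (σ : AddMonoid.End A) (k : ℕ) (x : A × ℤ) :
    ((HA10_P σ) ^ k) x = ((σ ^ k) x.1, x.2) := by
  induction k with
  | zero => rfl
  | succ k ih =>
    rw [pow_succ', HA10_mul, ih, pow_succ', HA10_mul]
    rfl

theorem HA10_stable (σ : Gal(L/K)) (S : Finset (Pl K)) (T : Finset (Pl L))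
    (hT : ∀ W, W ∈ T ↔ W.under (𝓞 K) ∈ S) (y : Additive Lˣ) (hy : y ∈ TUa T) :
    sg σ y ∈ TUa T := by
  intro W hW
  have h := ord_smul σ (smulP σ⁻¹ W) y.toMul
  rw [← smulP_mul, mul_inv_cancel, smulP_one] at h
  have h1 : ord W (Units.map ((σ : L ≃ₐ[K] L) : L →* L) y.toMul) = 0 := by
    rw [h]
    refine hy _ ?_
    intro h2
    have h3 := (hT _).mp h2
    rw [under_smulP] at h3
    exact hW ((hT W).mpr h3)
  exact h1

theorem HA10_comm (σ : Gal(L/K)) (T : Finset (Pl L)) (τ : Equiv.Perm (T ⊕ InfinitePlace L))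
    (hτ : Tau σ T τ) (η : T ⊕ InfinitePlace L → Additive Lˣ) (hη : ∀ p, η (τ p) = sg σ (η p))
    (a : T ⊕ InfinitePlace L → ℤ) : Th T η (pe τ a) = HA10_P (sg σ) (Th T η a) := by
  classical
  refine Prod.ext ?_ ?_
  · change ∑ p, a (τ.symm p) • η p = sg σ (∑ p, a p • η p)
    rw [map_sum, ← Equiv.sum_comp τ]
    refine Finset.sum_congr rfl fun p _ => ?_
    rw [Equiv.symm_apply_apply, map_zsmul, hη]
  · change ∑ V : InfinitePlace L, a (τ.symm (Sum.inr V)) = ∑ V : InfinitePlace L, a (Sum.inr V)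
    have h1 : ∀ V : InfinitePlace L, τ.symm (Sum.inr V) = Sum.inr (σ⁻¹ • V) := by
      intro V
      rw [Equiv.symm_apply_eq, hτ.inf, smul_inv_smul]
    simp only [h1]
    exact Equiv.sum_comp (MulAction.toPerm (σ⁻¹)) fun V : InfinitePlace L => a (Sum.inr V)

theorem herbrand [IsGalois K L] (σ : Gal(L/K)) (hσ : ∀ g : Gal(L/K), g ∈ Subgroup.zpowers σ)
    (hK : ∀ v : InfinitePlace K, v.IsComplex) (S : Finset (Pl K)) (T : Finset (Pl L))
    (hT : ∀ W, W ∈ T ↔ W.under (𝓞 K) ∈ S) :
    h0 (Module.finrank K L) (sg σ) (TUa T) ≠ 0 ∧ h1 (Module.finrank K L) (sg σ) (TUa T) ≠ 0 ∧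
      h0 (Module.finrank K L) (sg σ) (TUa T) * Module.finrank K L =
        h1 (Module.finrank K L) (sg σ) (TUa T) * ∏ v ∈ S, (es K L v * fs K L v) := by
  obtain ⟨τ, hτ, hτn⟩ := exists_tau σ (S : Set (Pl K)) T (fun W => by rw [hT W]; rfl)
  obtain ⟨η, hη, hηe⟩ := exists_eta σ T τ hτ hτn
  obtain ⟨hp1, hp0⟩ := herb_places σ hσ hK S T hT τ hτ hτn
  have hn0 : Module.finrank K L ≠ 0 := Module.finrank_pos.ne'
  have hprod : ∏ v ∈ S, (es K L v * fs K L v) ≠ 0 :=
    Finset.prod_ne_zero_iff.mpr fun v _ => mul_ne_zero (es_pos v).ne' (fs_pos v).ne'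
  have hσ'n : (HA10_P (sg (K := K) (L := L) σ)) ^ Module.finrank K L = 1 := by
    refine AddMonoidHom.ext fun x => ?_
    have h := HA10_prod_pow (sg σ) (Module.finrank K L) x
    rw [sg_pow] at h
    exact h
  obtain ⟨g1, g2, g3⟩ := herb_fi (Module.finrank K L) (pe τ) (HA10_P (sg σ)) (HA10_pe τ _ hτn) hσ'n (Th T η)
    (HA10_comm σ T τ hτ η hηe) (theta_inj T η hη) ((TUa T).prod (⊤ : AddSubgroup ℤ))
    (fun b hb => ⟨HA10_stable σ S T hT b.1 hb.1, trivial⟩) (theta_mem T η hη) (theta_index T η hη)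
    (by rw [hp0]; exact hprod) (by rw [hp1]; exact one_ne_zero)
  obtain ⟨h4, h5⟩ : h0 (Module.finrank K L) (HA10_P (sg σ)) ((TUa T).prod (⊤ : AddSubgroup ℤ)) =
      h0 (Module.finrank K L) (sg σ) (TUa T) *
        h0 (Module.finrank K L) (1 : AddMonoid.End ℤ) (⊤ : AddSubgroup ℤ) ∧
      h1 (Module.finrank K L) (HA10_P (sg σ)) ((TUa T).prod (⊤ : AddSubgroup ℤ)) =
      h1 (Module.finrank K L) (sg σ) (TUa T) *
        h1 (Module.finrank K L) (1 : AddMonoid.End ℤ) (⊤ : AddSubgroup ℤ) :=
    herb_prod (Module.finrank K L) (sg σ) (1 : AddMonoid.End ℤ) (TUa T) (⊤ : AddSubgroup ℤ)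
  obtain ⟨h6, h7⟩ := herb_Z (Module.finrank K L) hn0
  rw [h6] at h4
  rw [h7, mul_one] at h5
  rw [h4] at g1
  rw [h5] at g2
  rw [hp0, hp1, h4, h5, mul_one] at g3
  exact ⟨left_ne_zero_of_mul g1, g2, by rw [← g3, mul_comm]⟩

end H55R
end

-- from Lib.H55R.HA11
section

open NumberField IsDedekindDomain

namespace H55R

variable {K L : Type} [Field K] [NumberField K] [Field L] [NumberField L] [Algebra K L]

/-! Chunk HA11 (M/L): the ambiguous ideals. n = [L : K], σ a generator. Nm n (sg σ) y = algebraMap (N y) (Algebra.norm_eq_prod_automorphisms; the powers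
σ^i, i < n, are all elements of the group, once each). Let y in TUa T with norm 1. Hilbert 90 (groupCohomology.exists_div_of_norm_eq_one):
y = z / σ z, z in Lˣ. For W not in T: 0 = ord W y = ord W z - ord W (σ z), and ord (σ W') (σ z) = ord W' z (ord_smul), so the function W -> ord W z is
invariant under σ outside T, hence constant = a_v on the primes above v (smulP_trans), v not in S. Map y to (a_v mod e_v) in the product of ZMod (e_v) over
v in R, v not in S. Well defined: z is unique up to Kˣ (z / z' fixed by σ), ord W k = e_v ord v k (ord_map). A homomorphism from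
TUa ∩ ker Nm. If y is in the kernel: a_v = e_v b_v for all v not in S (for v not in R: e_v = 1), almost all b_v = 0. Let x = product of (x_v)^(b_v), x_v
from hS (GenS S): ord u x = b_u for u not in S. Then z / x is a T-unit and y = (z/x) / σ(z/x) is in the image of TUa under Dm. So
(TUa ∩ ker Nm) / Dm(TUa) embeds in the product: its order is at most the product of the e_v, v in R (e_v >= 1). (An injective map between finite
sets is enough, or AddSubgroup.relIndex of the kernel.) -/

/-- the Galois action on the units -/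
noncomputable def HA11_m (σ : Gal(L/K)) : Lˣ →* Lˣ := Units.map ((σ : L ≃ₐ[K] L) : L →* L)

theorem HA11_sg (σ : Gal(L/K)) (y : Lˣ) :
    (sg σ (Additive.ofMul y)).toMul = HA11_m σ y := rfl

theorem HA11_pow (σ : Gal(L/K)) (i : ℕ) (y : Lˣ) :
    (((sg σ) ^ i : AddMonoid.End (Additive Lˣ)) (Additive.ofMul y)).toMul = HA11_m (σ ^ i) y := by
  induction i with
  | zero =>
    rw [pow_zero, pow_zero]
    exact Units.ext rfl
  | succ i ih =>
    rw [pow_succ', pow_succ']
    change (sg σ (((sg σ) ^ i : AddMonoid.End (Additive Lˣ)) (Additive.ofMul y))).toMul = _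
    have h1 : ((sg σ) ^ i : AddMonoid.End (Additive Lˣ)) (Additive.ofMul y) =
        Additive.ofMul (HA11_m (σ ^ i) y) := by
      rw [← ih]
      rfl
    rw [h1, HA11_sg]
    exact Units.ext rfl

theorem norm_eq_Nm [IsGalois K L] (σ : Gal(L/K)) (hσ : ∀ g : Gal(L/K), g ∈ Subgroup.zpowers σ)
    (y : Lˣ) : (Nm (Module.finrank K L) (sg σ) (Additive.ofMul y)).toMul =
      Units.map (algebraMap K L : K →* L) (nrm K L y) := by
  classical
  apply Units.ext
  have h1 : (Nm (Module.finrank K L) (sg σ) (Additive.ofMul y)).toMul =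
      ∏ i ∈ Finset.range (Module.finrank K L), HA11_m (σ ^ i) y := by
    have h2 : Nm (Module.finrank K L) (sg σ) (Additive.ofMul y) =
        ∑ i ∈ Finset.range (Module.finrank K L),
          ((sg σ) ^ i : AddMonoid.End (Additive Lˣ)) (Additive.ofMul y) :=
      AddMonoidHom.finsetSum_apply _ _ _
    rw [h2, toMul_sum]
    exact Finset.prod_congr rfl fun i _ => HA11_pow σ i y
  rw [h1]
  have hcard : Nat.card Gal(L/K) = Module.finrank K L := IsGalois.card_aut_eq_finrank K L
  have h3 : (Algebra.norm K (y : L) : K) = nrm K L y := rfl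
  change _ = algebraMap K L (Algebra.norm K (y : L))
  rw [Algebra.norm_eq_prod_automorphisms, ← IsCyclic.image_range_card hσ, hcard,
    Finset.prod_image, Units.coe_prod]
  · rfl
  · intro i hi j hj hij
    rw [Finset.mem_coe, Finset.mem_range] at hi hj
    have h4 : orderOf σ = Module.finrank K L := by
      rw [← hcard]
      exact orderOf_eq_card_of_forall_mem_zpowers hσ
    rw [← h4] at hi hj
    exact pow_injOn_Iio_orderOf hi hj hij

theorem HA11_Dm (σ : Gal(L/K)) (y : Lˣ) :
    Dm (sg σ) (Additive.ofMul y) = Additive.ofMul (y / HA11_m σ y) := rfl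

/-- invariance outside `T` -/
theorem HA11_inv (σ : Gal(L/K)) (hσ : ∀ g : Gal(L/K), g ∈ Subgroup.zpowers σ)
    (S : Finset (Pl K)) (T : Finset (Pl L)) (hT : ∀ W, W ∈ T ↔ W.under (𝓞 K) ∈ S) (z : Lˣ)
    (hz : z / HA11_m σ z ∈ SU (T : Set (Pl L))) (g : Gal(L/K)) (W : Pl L) (hW : W ∉ T) :
    ord (smulP g W) z = ord W z := by
  have hTs : ∀ (g : Gal(L/K)) (W : Pl L), W ∉ T → smulP g W ∉ T := by
    intro g W hW
    rw [hT, under_smulP, ← hT]
    exact hW
  let A : Subgroup Gal(L/K) :=
    { carrier := {g | ∀ W : Pl L, W ∉ T → ord (smulP g W) z = ord W z}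
      mul_mem' := by
        intro a b ha hb W hW
        rw [smulP_mul, ha _ (hTs b W hW), hb W hW]
      one_mem' := by
        intro W _
        rw [smulP_one]
      inv_mem' := by
        intro a ha W hW
        have h1 := ha (smulP a⁻¹ W) (hTs _ W hW)
        rw [← smulP_mul, mul_inv_cancel, smulP_one] at h1
        exact h1.symm }
  have hσA : σ ∈ A := by
    intro W hW
    have h1 := hz (smulP σ W) (hTs σ W hW)
    rw [div_eq_mul_inv, ord_mul, ord_inv] at h1
    have h2 : ord (smulP σ W) (HA11_m σ z) = ord W z := ord_smul σ W z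
    rw [h2] at h1
    linarith
  have h1 : Subgroup.zpowers σ ≤ A := by
    rw [Subgroup.zpowers_le]
    exact hσA
  exact h1 (hσ g) W hW

theorem HA11_finite (z : Lˣ) : {W : Pl L | ord W z ≠ 0}.Finite := by
  have h1 := HeightOneSpectrum.Support.finite (𝓞 L) (z : L)
  have h2 := HeightOneSpectrum.Support.finite (𝓞 L) ((z⁻¹ : Lˣ) : L)
  refine (h1.union h2).subset ?_
  intro W hW
  have key : ∀ x : Lˣ, ord W x < 0 → 1 < W.valuation L (x : L) := by
    intro x hx
    rw [← HeightOneSpectrum.valuationOfNeZero_eq]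
    unfold ord at hx
    have h3 : 0 < Multiplicative.toAdd (W.valuationOfNeZero x) := by linarith
    rw [← WithZero.coe_one, WithZero.coe_lt_coe]
    exact h3
  rcases lt_or_gt_of_ne hW with h | h
  · left
    exact key z h
  · right
    apply key
    rw [ord_inv]
    linarith

theorem HA11_ord_prod {ι : Type} (F : Finset ι) (f : ι → Kˣ) (u : Pl K) :
    ord u (∏ v ∈ F, f v) = ∑ v ∈ F, ord u (f v) := by
  classical
  induction F using Finset.induction_on with
  | empty => rw [Finset.prod_empty, Finset.sum_empty, ord_one]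
  | insert a F ha ih => rw [Finset.prod_insert ha, Finset.sum_insert ha, ord_mul, ih]

/-- elements of the kernel -/
theorem HA11_ker [IsGalois K L] (σ : Gal(L/K)) (hσ : ∀ g : Gal(L/K), g ∈ Subgroup.zpowers σ)
    (S : Finset (Pl K)) (T : Finset (Pl L)) (hT : ∀ W, W ∈ T ↔ W.under (𝓞 K) ∈ S)
    (hS : GenS (S : Set (Pl K))) (Wv : Pl K → Pl L) (hWv : ∀ v, (Wv v).under (𝓞 K) = v) (z : Lˣ)
    (hz : z / HA11_m σ z ∈ SU (T : Set (Pl L)))
    (hdvd : ∀ v, v ∉ S → (es K L v : ℤ) ∣ ord (Wv v) z) :
    ∃ t ∈ SU (T : Set (Pl L)), t / HA11_m σ t = z / HA11_m σ z := by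
  classical
  choose b hb using hdvd
  choose x hx1 hx2 using hS
  have hinj : Function.Injective Wv := by
    intro v v' h
    rw [← hWv v, h, hWv v']
  have hfin : {v : Pl K | ord (Wv v) z ≠ 0}.Finite :=
    (HA11_finite z).preimage (hinj.injOn)
  set F : Finset (Pl K) := hfin.toFinset with hF
  set B : Pl K → ℤ := fun v => if h : v ∉ S then b v h else 0 with hB
  set X : Kˣ := ∏ v ∈ F, x v ^ B v with hX
  have hordX : ∀ u : Pl K, u ∉ S → (es K L u : ℤ) * ord u X = ord (Wv u) z := by
    intro u hu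
    rw [hX, HA11_ord_prod]
    have h1 : ∑ v ∈ F, ord u (x v ^ B v) = if u ∈ F then B u else 0 := by
      have h2 : ∀ v ∈ F, ord u (x v ^ B v) = if u = v then B u else 0 := by
        intro v _
        rw [ord_zpow]
        split_ifs with h
        · rw [← h, hx1 u hu, mul_one]
        · rw [hx2 v u hu h, mul_zero]
      rw [Finset.sum_congr rfl h2, Finset.sum_ite_eq]
    rw [h1]
    split_ifs with h
    · have h3 : B u = b u hu := by
        rw [hB]
        exact dif_pos hu
      rw [h3, ← hb u hu]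
    · rw [hF, Set.Finite.mem_toFinset, Set.mem_setOf_eq, not_not] at h
      rw [h, mul_zero]
  refine ⟨z / Units.map (algebraMap K L : K →* L) X, ?_, ?_⟩
  · intro W hW
    have hW' : W ∉ T := hW
    have hu : W.under (𝓞 K) ∉ S := fun h => hW' ((hT W).2 h)
    rw [div_eq_mul_inv, ord_mul, ord_inv, ord_map W _ rfl, hordX _ hu]
    have h1 : Wv (W.under (𝓞 K)) ∉ T := by
      rw [hT, hWv]
      exact hu
    obtain ⟨g, hg⟩ := smulP_trans (Wv (W.under (𝓞 K))) W (hWv _)
    have h2 := HA11_inv σ hσ S T hT z hz g _ h1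
    rw [hg] at h2
    rw [h2]
    ring
  · have h1 : HA11_m σ (Units.map (algebraMap K L : K →* L) X) =
        Units.map (algebraMap K L : K →* L) X := by
      apply Units.ext
      exact σ.commutes (X : K)
    rw [map_div, h1, div_div_div_cancel_right]

theorem h1_le [IsGalois K L] (σ : Gal(L/K)) (hσ : ∀ g : Gal(L/K), g ∈ Subgroup.zpowers σ)
    (S : Finset (Pl K)) (T : Finset (Pl L)) (hT : ∀ W, W ∈ T ↔ W.under (𝓞 K) ∈ S)
    (hS : GenS (S : Set (Pl K))) (R : Finset (Pl K)) (hR : ∀ v, v ∉ R → es K L v = 1) :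
    h1 (Module.finrank K L) (sg σ) (TUa T) ≤ ∏ v ∈ R, es K L v := by
  classical
  have hcyc : IsCyclic Gal(L/K) := ⟨σ, hσ⟩
  choose Wv hWv using under_exists (K := K) (L := L)
  unfold h1
  set Q : AddSubgroup (Additive Lˣ) := TUa T ⊓ (Nm (Module.finrank K L) (sg σ)).ker with hQ
  -- Hilbert 90
  have h90 : ∀ y : Q, ∃ z : Lˣ, z / HA11_m σ z = (y : Additive Lˣ).toMul := by
    intro y
    have h1 : Nm (Module.finrank K L) (sg σ) (y : Additive Lˣ) = 0 := y.2.2
    have h2 := norm_eq_Nm σ hσ (y : Additive Lˣ).toMul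
    have h3 : Additive.ofMul (y : Additive Lˣ).toMul = (y : Additive Lˣ) := rfl
    rw [h3, h1, toMul_zero] at h2
    have h4 : algebraMap K L (Algebra.norm K (((y : Additive Lˣ).toMul : Lˣ) : L)) = 1 := by
      have := congrArg (fun u : Lˣ => (u : L)) h2
      exact this.symm
    have h5 : Algebra.norm K (((y : Additive Lˣ).toMul : Lˣ) : L) = 1 := by
      apply (algebraMap K L).injective
      rw [h4, map_one]
    obtain ⟨z, hz⟩ := groupCohomology.exists_div_of_norm_eq_one hσ h5
    refine ⟨z, Units.ext ?_⟩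
    rw [← hz, Units.val_div_eq_div_val]
    rfl
  choose z hz using h90
  -- the map
  let f : Q → (∀ v : R, ZMod (es K L v)) := fun y v => (ord (Wv v) (z y) : ZMod (es K L v))
  have hf : ∀ y y' : Q, f y = f y' →
      (y : Additive Lˣ) - (y' : Additive Lˣ) ∈ (TUa T).map (Dm (sg σ)) := by
    intro y y' h
    have h1 : z y / z y' / HA11_m σ (z y / z y') =
        ((y : Additive Lˣ) - (y' : Additive Lˣ)).toMul := by
      rw [map_div, toMul_sub, ← hz y, ← hz y', div_div_div_comm]
    have h2 : z y / z y' / HA11_m σ (z y / z y') ∈ SU (T : Set (Pl L)) := by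
      rw [h1]
      exact (TUa T).sub_mem y.2.1 y'.2.1
    have h3 : ∀ v, v ∉ S → (es K L v : ℤ) ∣ ord (Wv v) (z y / z y') := by
      intro v _
      by_cases hv : v ∈ R
      · have h4 : (ord (Wv v) (z y) : ZMod (es K L v)) = (ord (Wv v) (z y') : ZMod (es K L v)) :=
          congrFun h ⟨v, hv⟩
        rw [ZMod.intCast_eq_intCast_iff_dvd_sub] at h4
        rw [div_eq_mul_inv, ord_mul, ord_inv, ← dvd_neg]
        have h5 : -(ord (Wv v) (z y) + -ord (Wv v) (z y')) = ord (Wv v) (z y') - ord (Wv v) (z y) := by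
          ring
        rw [h5]
        exact h4
      · rw [hR v hv]
        exact one_dvd _
    obtain ⟨t, ht, htz⟩ := HA11_ker σ hσ S T hT hS Wv hWv _ h2 h3
    refine ⟨Additive.ofMul t, ht, ?_⟩
    rw [HA11_Dm, htz, h1]
    rfl
  have hfin : Finite (∀ v : R, ZMod (es K L v)) := by
    have : ∀ v : R, NeZero (es K L v) := fun v => ⟨(es_pos (v : Pl K)).ne'⟩
    infer_instance
  have hcard : Nat.card (∀ v : R, ZMod (es K L v)) = ∏ v ∈ R, es K L v := by
    rw [Nat.card_pi]
    simp only [Nat.card_zmod]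
    exact Finset.prod_coe_sort R (fun v => es K L v)
  unfold AddSubgroup.relIndex AddSubgroup.index
  rw [← hcard]
  apply Nat.card_le_card_of_injective
    (fun q : Q ⧸ ((TUa T).map (Dm (sg σ))).addSubgroupOf Q => f q.out)
  intro q q' h
  have h1 := hf _ _ h
  rw [← QuotientAddGroup.out_eq' q, ← QuotientAddGroup.out_eq' q']
  rw [QuotientAddGroup.eq]
  rw [AddSubgroup.mem_addSubgroupOf]
  have h2 := AddSubgroup.neg_mem _ h1
  have h3 : -((q.out : Additive Lˣ) - (q'.out : Additive Lˣ)) =
      ((-q.out + q'.out : Q) : Additive Lˣ) := by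
    rw [AddSubgroup.coe_add, AddSubgroup.coe_neg]
    abel
  rw [h3] at h2
  exact h2

end H55R
end

-- from Lib.H55R.HA12
section

open NumberField IsDedekindDomain

namespace H55R

variable {K L : Type} [Field K] [NumberField K] [Field L] [NumberField L] [Algebra K L]

/-! Chunk HA12 (S/M): h0 is the index of the norms of the T-units in the S-units of K. TUa ∩ ker Dm = the T-units fixed by σ, i.e. the elements of Kˣ
which are T-units, i.e. the image of the S-units of K (ord_map, es_pos, under_exists); the image of TUa under Nm is the image of the norms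
(norm_eq_Nm). The map Kˣ -> Lˣ is injective, so the relative indices agree (Subgroup.relIndex of maps under an injective map; pass between Additive
and multiplicative). norm_mem: the norm of a T-unit is an S-unit. index_bound: herbrand, h1_le. -/

/-- units of K in L -/
noncomputable abbrev HA12_i (K L : Type) [Field K] [Field L] [Algebra K L] : Kˣ →* Lˣ :=
  Units.map (algebraMap K L : K →* L)

theorem HA12_inj : Function.Injective (HA12_i K L) :=
  Units.map_injective (algebraMap K L).injective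

theorem HA12_smul (σ : Gal(L/K)) (W : Pl L) (y : Lˣ) :
    ord W (Units.map ((σ : L ≃ₐ[K] L) : L →* L) y) = ord (smulP σ⁻¹ W) y := by
  have h := ord_smul σ (smulP σ⁻¹ W) y
  rw [← smulP_mul, mul_inv_cancel, smulP_one] at h
  exact h

theorem HA12_norm_prod [IsGalois K L] (y : Lˣ) : HA12_i K L (nrm K L y) =
    ∏ σ : Gal(L/K), Units.map ((σ : L ≃ₐ[K] L) : L →* L) y := by
  ext
  rw [Units.coe_prod]
  exact Algebra.norm_eq_prod_automorphisms K (y : L)

theorem norm_mem [IsGalois K L] (S : Finset (Pl K)) (T : Finset (Pl L))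
    (hT : ∀ W, W ∈ T ↔ W.under (𝓞 K) ∈ S) :
    (SU (T : Set (Pl L))).map (nrm K L) ≤ SU (S : Set (Pl K)) := by
  rintro x ⟨y, hy, rfl⟩ v hv
  obtain ⟨W, hW⟩ := under_exists (K := K) (L := L) v
  have h1 := ord_map W v hW (nrm K L y)
  have h2 : ord W (HA12_i K L (nrm K L y)) = 0 := by
    rw [HA12_norm_prod]
    refine Finset.prod_induction _ (fun x => ord W x = 0) ?_ (ord_one W) ?_
    · intro a b ha hb
      rw [ord_mul, ha, hb, add_zero]
    · intro σ _
      rw [HA12_smul]
      refine hy _ ?_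
      intro h3
      have h4 := (hT _).mp h3
      rw [under_smulP, hW] at h4
      exact hv h4
  have h3 : (es K L v : ℤ) * ord v (nrm K L y) = 0 := by
    rw [← h1]
    exact h2
  rcases mul_eq_zero.mp h3 with h4 | h4
  · exact absurd (by exact_mod_cast h4) (es_pos (K := K) (L := L) v).ne'
  · exact h4

theorem HA12_map [IsGalois K L] (σ : Gal(L/K)) (hσ : ∀ g : Gal(L/K), g ∈ Subgroup.zpowers σ)
    (T : Finset (Pl L)) : (TUa T).map (Nm (Module.finrank K L) (sg σ)) =
      Subgroup.toAddSubgroup (((SU (T : Set (Pl L))).map (nrm K L)).map (HA12_i K L)) := by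
  ext x
  constructor
  · rintro ⟨y, hy, rfl⟩
    exact ⟨nrm K L y.toMul, ⟨y.toMul, hy, rfl⟩, (norm_eq_Nm σ hσ y.toMul).symm⟩
  · rintro ⟨z, ⟨y, hy, rfl⟩, hz⟩
    refine ⟨Additive.ofMul y, hy, ?_⟩
    have h := norm_eq_Nm σ hσ y
    apply Additive.toMul.injective
    rw [h]
    exact hz

theorem HA12_fixed [IsGalois K L] (σ : Gal(L/K)) (hσ : ∀ g : Gal(L/K), g ∈ Subgroup.zpowers σ)
    (x : Lˣ) (hx : σ (x : L) = x) : ∃ k : Kˣ, HA12_i K L k = x := by
  have h1 : ∀ g : Gal(L/K), g (x : L) = x := by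
    intro g
    have h2 : Subgroup.zpowers σ ≤ MulAction.stabilizer (Gal(L/K)) (x : L) := by
      rw [Subgroup.zpowers_le]
      exact hx
    exact h2 (hσ g)
  obtain ⟨k, hk⟩ := (IsGalois.mem_range_algebraMap_iff_fixed (F := K) (x : L)).mpr h1
  have hk0 : k ≠ 0 := by
    rintro rfl
    rw [map_zero] at hk
    exact x.ne_zero hk.symm
  refine ⟨Units.mk0 k hk0, ?_⟩
  ext
  exact hk

theorem HA12_ker [IsGalois K L] (σ : Gal(L/K)) (hσ : ∀ g : Gal(L/K), g ∈ Subgroup.zpowers σ)
    (S : Finset (Pl K)) (T : Finset (Pl L)) (hT : ∀ W, W ∈ T ↔ W.under (𝓞 K) ∈ S) :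
    TUa T ⊓ (Dm (sg σ)).ker =
      Subgroup.toAddSubgroup ((SU (S : Set (Pl K))).map (HA12_i K L)) := by
  ext x
  constructor
  · rintro ⟨hx, hx2⟩
    have h1 : x - sg σ x = 0 := hx2
    have h2 : sg σ x = x := (sub_eq_zero.mp h1).symm
    have h3 : σ (x.toMul : L) = x.toMul := by
      have h4 := congrArg (fun z : Additive Lˣ => ((z.toMul : Lˣ) : L)) h2
      exact h4
    obtain ⟨k, hk⟩ := HA12_fixed σ hσ x.toMul h3
    refine ⟨k, ?_, hk⟩
    intro v hv
    obtain ⟨W, hW⟩ := under_exists (K := K) (L := L) v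
    have h4 := ord_map W v hW k
    have h5 : ord W (HA12_i K L k) = 0 := by
      rw [hk]
      refine hx W ?_
      intro h6
      have h7 := (hT _).mp h6
      rw [hW] at h7
      exact hv h7
    have h6 : (es K L v : ℤ) * ord v k = 0 := by
      rw [← h4]
      exact h5
    rcases mul_eq_zero.mp h6 with h7 | h7
    · exact absurd (by exact_mod_cast h7) (es_pos (K := K) (L := L) v).ne'
    · exact h7
  · rintro ⟨k, hk, hkx⟩
    have hkx' : HA12_i K L k = x.toMul := hkx
    refine ⟨?_, ?_⟩
    · intro W hW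
      change ord W x.toMul = 0
      rw [← hkx', ord_map W _ rfl k, hk _ (fun h => hW ((hT W).mpr h)), mul_zero]
    · change x - sg σ x = 0
      rw [sub_eq_zero]
      apply Additive.toMul.injective
      ext
      change (x.toMul : L) = σ (x.toMul : L)
      rw [← hkx']
      exact (σ.commutes (k : K)).symm

theorem h0_eq [IsGalois K L] (σ : Gal(L/K)) (hσ : ∀ g : Gal(L/K), g ∈ Subgroup.zpowers σ)
    (S : Finset (Pl K)) (T : Finset (Pl L)) (hT : ∀ W, W ∈ T ↔ W.under (𝓞 K) ∈ S) :
    h0 (Module.finrank K L) (sg σ) (TUa T) =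
      ((SU (T : Set (Pl L))).map (nrm K L)).relIndex (SU (S : Set (Pl K))) := by
  unfold h0
  rw [HA12_map σ hσ T, HA12_ker σ hσ S T hT, Subgroup.relIndex_toAddSubgroup,
    Subgroup.relIndex_map_map_of_injective _ _ HA12_inj]

theorem index_bound [IsGalois K L] (σ : Gal(L/K)) (hσ : ∀ g : Gal(L/K), g ∈ Subgroup.zpowers σ)
    (hK : ∀ v : InfinitePlace K, v.IsComplex) (S : Finset (Pl K)) (T : Finset (Pl L))
    (hT : ∀ W, W ∈ T ↔ W.under (𝓞 K) ∈ S) (hS : GenS (S : Set (Pl K))) (R : Finset (Pl K))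
    (hR : ∀ v, v ∉ R → es K L v = 1) :
    ((SU (T : Set (Pl L))).map (nrm K L)).relIndex (SU (S : Set (Pl K))) ≠ 0 ∧
    ((SU (T : Set (Pl L))).map (nrm K L)).relIndex (SU (S : Set (Pl K))) * Module.finrank K L ≤
      (∏ v ∈ R, es K L v) * ∏ v ∈ S, (es K L v * fs K L v) := by
  obtain ⟨h1, h2, h3⟩ := herbrand σ hσ hK S T hT
  rw [← h0_eq σ hσ S T hT]
  refine ⟨h1, ?_⟩
  rw [h3]
  exact Nat.mul_le_mul_right _ (h1_le σ hσ S T hT hS R hR)

end H55R
end

-- from Lib.H55R.HC4
section

open NumberField IsDedekindDomain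

namespace H55R

variable {K : Type} [Field K] [NumberField K]

/-! Chunk HC4 (M): values at principal ideals. pv_elem: the multiset of prime factors of (x) contains v exactly ord v x times
(ord_int of chunk BF1, or the count of v in the factorisation; Finset/Multiset.prod over the distinct factors, Finset.prod_multiset_map_count);
the factors v in U not containing x have order 0.
phi_elem: let U be the set of the primes containing x; none contains f. By pv_elem pv φ (x) = product over v in U of φ(v)^(ord v y). Let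
z = y * product over v in U, v not in S, of (xs v)^(- ord v y); z is an S-unit (GenX; for u in neither U nor S all orders are 0), so Psi z = 1:
Psi y = product over v in U minus S of Psi (xs v)^(ord v y). With phi_of_mem and phi_of_not_mem pv φ (x) = (product over s in S of
q.2 s ^ ord s y) * (Psi y)^-1 = (product over R of q.1 w (resv w y))^-1 (Psi_apply; ord s y = 0 for s in S not in U). -/

theorem HC4_prod {ι : Type} (W : Pl K) (s : Finset ι) (f : ι → Kˣ) :
    ord W (∏ i ∈ s, f i) = ∑ i ∈ s, ord W (f i) := by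
  classical
  induction s using Finset.induction_on with
  | empty => rw [Finset.prod_empty, Finset.sum_empty, ord_one]
  | insert a s ha ih => rw [Finset.prod_insert ha, Finset.sum_insert ha, ord_mul, ih]

open Classical in
theorem HC4_count (x : 𝓞 K) (y : Kˣ) (h : (y : K) = x) (v : Pl K) :
    ((UniqueFactorizationMonoid.normalizedFactors (Ideal.span {x})).count v.asIdeal : ℤ) =
      ord v y := by
  have h0 : (0 : ℤ) ≤ ord v y := by
    have := (ord_int v x y h 0).2 (by simp)
    exact_mod_cast this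
  obtain ⟨n, hn⟩ := Int.eq_ofNat_of_zero_le h0
  have hp := v.isPrime
  rw [hn]
  congr 1
  apply Ideal.count_normalizedFactors_eq
  · rw [Ideal.span_singleton_le_iff_mem, ← ord_int v x y h, hn]
  · rw [Ideal.span_singleton_le_iff_mem, ← ord_int v x y h, hn]
    push_cast
    omega

theorem HC4_zero (x : 𝓞 K) (y : Kˣ) (h : (y : K) = x) (v : Pl K) (hv : x ∉ v.asIdeal) :
    ord v y = 0 := by
  have h0 : (0 : ℤ) ≤ ord v y := by
    have := (ord_int v x y h 0).2 (by simp)
    exact_mod_cast this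
  have h1 : ¬ ((1 : ℕ) : ℤ) ≤ ord v y := by
    rw [ord_int v x y h, pow_one]
    exact hv
  push_cast at h1
  omega

theorem HC4_ne (x : 𝓞 K) (y : Kˣ) (h : (y : K) = x) : x ≠ 0 := by
  rintro rfl
  apply y.ne_zero
  rw [h]
  simp

theorem pv_elem (φ : Pl K → ℂˣ) (x : 𝓞 K) (y : Kˣ) (h : (y : K) = x) (U : Finset (Pl K))
    (hU : ∀ v : Pl K, x ∈ v.asIdeal → v ∈ U) :
    pv φ (Ideal.span {x}) = ∏ v ∈ U, φ v ^ ord v y := by
  classical
  unfold pv
  rw [Finset.prod_multiset_map_count]
  have h1 : (UniqueFactorizationMonoid.normalizedFactors (Ideal.span {x})).toFinset ⊆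
      U.image HeightOneSpectrum.asIdeal := by
    intro P hP
    rw [Multiset.mem_toFinset] at hP
    have hpr := UniqueFactorizationMonoid.prime_of_normalized_factor P hP
    have hdvd := UniqueFactorizationMonoid.dvd_of_mem_normalizedFactors hP
    have hP1 : P.IsPrime := Ideal.isPrime_of_prime hpr
    rw [Finset.mem_image]
    refine ⟨⟨P, hP1, hpr.ne_zero⟩, hU _ ?_, rfl⟩
    exact Ideal.dvd_span_singleton.1 hdvd
  rw [Finset.prod_subset h1]
  · rw [Finset.prod_image]
    · refine Finset.prod_congr rfl fun v _ => ?_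
      have hv : v.asIdeal.IsPrime ∧ v.asIdeal ≠ ⊥ := ⟨v.isPrime, v.ne_bot⟩
      rw [dif_pos hv, ← HC4_count x y h v, zpow_natCast]
    · intro v _ w _ hvw
      exact HeightOneSpectrum.ext hvw
  · intro P _ hP
    rw [Multiset.mem_toFinset] at hP
    rw [Multiset.count_eq_zero_of_notMem hP, pow_zero]

theorem phi_elem (f : Ideal (𝓞 K)) (R S : Finset (Pl K)) (xs : Pl K → Kˣ) (q : XX R S)
    (hR : ∀ v : Pl K, v ∈ R ↔ f ≤ v.asIdeal) (hS : ∀ v ∈ S, ¬ f ≤ v.asIdeal)
    (hxs : GenX S xs) (hq : ∀ x ∈ SU (S : Set (Pl K)), Psi R S q x = 1) (x : 𝓞 K) (y : Kˣ)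
    (h : (y : K) = x) (hx : IsCoprime (Ideal.span {x}) f) :
    pv (phi f R S xs q) (Ideal.span {x}) = (∏ w : R, q.1 w (resv w.1 y))⁻¹ := by
  classical
  have hx0 := HC4_ne x y h
  have hfin : {v : Pl K | x ∈ v.asIdeal}.Finite := by
    have h1 := Ideal.finite_factors (I := Ideal.span {x}) (by
      intro h2
      exact hx0 (Ideal.span_singleton_eq_bot.1 h2))
    refine h1.subset fun v hv => ?_
    exact Ideal.dvd_span_singleton.2 hv
  set U := hfin.toFinset with hUdef
  have hU : ∀ v : Pl K, v ∈ U ↔ x ∈ v.asIdeal := fun v => by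
    rw [hUdef, Set.Finite.mem_toFinset]
    rfl
  have hUf : ∀ v ∈ U, ¬ f ≤ v.asIdeal := by
    intro v hv hf
    rw [Ideal.isCoprime_iff_sup_eq] at hx
    apply v.isPrime.ne_top
    rw [eq_top_iff, ← hx]
    exact sup_le ((Ideal.span_singleton_le_iff_mem _).2 ((hU v).1 hv)) hf
  rw [pv_elem _ x y h U fun v hv => (hU v).2 hv,
    ← Finset.prod_filter_mul_prod_filter_not U (fun v => v ∈ S)]
  have e1 : ∏ v ∈ U.filter (fun v => v ∈ S), phi f R S xs q v ^ ord v y =
      ∏ s : S, q.2 s ^ ord s.1 y := by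
    have e2 : ∏ s : S, q.2 s ^ ord s.1 y = ∏ s : S, phi f R S xs q s.1 ^ ord s.1 y := by
      refine Finset.prod_congr rfl fun s _ => ?_
      rw [phi_of_mem f R S xs q s.1 (hS s.1 s.2) s.2]
    rw [e2, Finset.prod_coe_sort S fun v => phi f R S xs q v ^ ord v y]
    refine Finset.prod_subset (fun v hv => (Finset.mem_filter.1 hv).2) ?_
    intro v hv hv2
    rw [HC4_zero x y h v, zpow_zero]
    intro h3
    exact hv2 (Finset.mem_filter.2 ⟨(hU v).2 h3, hv⟩)
  have hz : y * ∏ v ∈ U.filter (fun v => v ∉ S), (xs v) ^ (-ord v y) ∈ SU (S : Set (Pl K)) := by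
    intro u hu
    rw [Finset.mem_coe] at hu
    rw [ord_mul, HC4_prod]
    simp only [ord_zpow]
    by_cases huU : u ∈ U
    · rw [Finset.sum_eq_single u, (hxs u).1 hu]
      · ring
      · intro v _ hne
        rw [(hxs v).2 u hu hne.symm, mul_zero]
      · intro h3
        exact absurd (Finset.mem_filter.2 ⟨huU, hu⟩) h3
    · rw [HC4_zero x y h u fun h3 => huU ((hU u).2 h3), zero_add]
      refine Finset.sum_eq_zero fun v hv => ?_
      rw [(hxs v).2 u hu, mul_zero]
      rintro rfl
      exact huU (Finset.mem_filter.1 hv).1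
  have h4 := hq _ hz
  rw [map_mul, map_prod] at h4
  have e3 : ∏ v ∈ U.filter (fun v => ¬ v ∈ S), phi f R S xs q v ^ ord v y = (Psi R S q y)⁻¹ := by
    rw [← mul_eq_one_iff_eq_inv, mul_comm, ← h4]
    congr 1
    refine Finset.prod_congr rfl fun v hv => ?_
    rw [Finset.mem_filter] at hv
    rw [phi_of_not_mem f R S xs q v (hUf v hv.1) hv.2, map_zpow, inv_zpow, zpow_neg]
  rw [e1, e3, Psi_apply, mul_inv, mul_comm, mul_assoc, inv_mul_cancel, mul_one]

end H55R
end

-- from Lib.H55R.HC5
section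

open NumberField IsDedekindDomain

namespace H55R

variable {K : Type} [Field K] [NumberField K]

/-! Chunk HC5 (M). phi_RC: by phi_elem; if x - y is in f, x prime to f, then y is prime to f and for w in R, x and y have the same nonzero residue
modulo w, so resv w x = resv w y (resv_apply, Units.ext). phi_inj: let phi q = 1. For s in S: q.2 s = phi q s = 1. For w0 in R and u in
(𝓞 K ⧸ w0)ˣ choose x in 𝓞 K with x = u mod w0 and x = 1 mod w for the other w in R (Chinese remainder theorem, the w are distinct maximal ideals), x <> 0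
(not in w0); x is prime to f (a prime containing f is in R and does not contain x). By phi_elem 1 = pv 1 (x) = (q.1 w0 u)^-1
(resv w x = 1 for w <> w0). If R is empty nothing is to be shown for R. -/

theorem HC5_notMem {f : Ideal (𝓞 K)} {x : 𝓞 K} (hx : IsCoprime (Ideal.span {x}) f) (v : Pl K)
    (hv : f ≤ v.asIdeal) : x ∉ v.asIdeal := by
  intro h
  rw [Ideal.isCoprime_iff_sup_eq] at hx
  apply v.isPrime.ne_top
  rw [eq_top_iff, ← hx]
  exact sup_le ((Ideal.span_singleton_le_iff_mem _).2 h) hv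

theorem HC5_coe {x : 𝓞 K} (hx : x ≠ 0) : (x : K) ≠ 0 := by
  intro h
  exact hx (by exact_mod_cast h)

theorem phi_RC (f : Ideal (𝓞 K)) (R S : Finset (Pl K)) (xs : Pl K → Kˣ) (q : XX R S)
    (hR : ∀ v : Pl K, v ∈ R ↔ f ≤ v.asIdeal) (hS : ∀ v ∈ S, ¬ f ≤ v.asIdeal)
    (hxs : GenX S xs) (hq : ∀ x ∈ SU (S : Set (Pl K)), Psi R S q x = 1) :
    phi f R S xs q ∈ RC f := by
  refine ⟨fun v hv => phi_of_dvd f R S xs q v hv, fun x y hx hy hc hxy => ?_⟩
  have hc' : IsCoprime (Ideal.span {y}) f := by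
    rw [Ideal.isCoprime_iff_sup_eq] at hc ⊢
    rw [eq_top_iff, ← hc]
    refine sup_le ?_ le_sup_right
    rw [Ideal.span_singleton_le_iff_mem]
    have h1 : x = y + (x - y) := by ring
    rw [h1]
    exact Ideal.add_mem _ (Ideal.mem_sup_left (Ideal.mem_span_singleton_self y))
      (Ideal.mem_sup_right hxy)
  rw [phi_elem f R S xs q hR hS hxs hq x (Units.mk0 (x : K) (HC5_coe hx)) rfl hc,
    phi_elem f R S xs q hR hS hxs hq y (Units.mk0 (y : K) (HC5_coe hy)) rfl hc']
  congr 1
  refine Finset.prod_congr rfl fun w _ => ?_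
  congr 1
  apply Units.ext
  have hw := (hR w.1).1 w.2
  rw [resv_apply w.1 x _ rfl (HC5_notMem hc w.1 hw), resv_apply w.1 y _ rfl (HC5_notMem hc' w.1 hw),
    Ideal.Quotient.eq]
  exact hw hxy

theorem phi_inj (f : Ideal (𝓞 K)) (R S : Finset (Pl K)) (xs : Pl K → Kˣ) (q : XX R S)
    (hR : ∀ v : Pl K, v ∈ R ↔ f ≤ v.asIdeal) (hS : ∀ v ∈ S, ¬ f ≤ v.asIdeal)
    (hxs : GenX S xs) (hq : ∀ x ∈ SU (S : Set (Pl K)), Psi R S q x = 1)
    (h1 : phi f R S xs q = 1) : q = 1 := by
  classical
  refine Prod.ext ?_ ?_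
  swap
  · funext s
    rw [← phi_of_mem f R S xs q s.1 (hS s.1 s.2) s.2, h1]
    rfl
  funext w₀
  apply MonoidHom.ext
  intro u
  obtain ⟨r, hr⟩ := Ideal.Quotient.mk_surjective (I := w₀.1.asIdeal) (u : 𝓞 K ⧸ w₀.1.asIdeal)
  obtain ⟨x, hx⟩ := IsDedekindDomain.exists_forall_sub_mem_ideal (s := R)
    (fun w : Pl K => w.asIdeal) (fun _ => 1) (fun w _ => w.prime)
    (fun w _ w' _ hne h => hne (HeightOneSpectrum.ext h)) (fun w => if w = w₀ then r else 1)
  have hx1 : x - r ∈ w₀.1.asIdeal := by
    have := hx w₀.1 w₀.2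
    rwa [pow_one, if_pos rfl] at this
  have hx2 : ∀ w : R, w ≠ w₀ → x - 1 ∈ w.1.asIdeal := by
    intro w hw
    have := hx w.1 w.2
    rwa [pow_one, if_neg hw] at this
  have hxu : Ideal.Quotient.mk w₀.1.asIdeal x = (u : 𝓞 K ⧸ w₀.1.asIdeal) := by
    rw [← hr, Ideal.Quotient.eq]
    exact hx1
  have hnot : ∀ w : R, x ∉ w.1.asIdeal := by
    intro w hw
    have hnt : Nontrivial (𝓞 K ⧸ w.1.asIdeal) := Ideal.Quotient.nontrivial_iff.2 w.1.isPrime.ne_top
    by_cases hww : w = w₀
    · subst hww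
      have h2 : Ideal.Quotient.mk w.1.asIdeal x = 0 := Ideal.Quotient.eq_zero_iff_mem.2 hw
      rw [hxu] at h2
      exact u.ne_zero h2
    · have h3 := hx2 w hww
      have h4 : (1 : 𝓞 K) ∈ w.1.asIdeal := by
        have : (1 : 𝓞 K) = x - (x - 1) := by ring
        rw [this]
        exact Ideal.sub_mem _ hw h3
      exact w.1.isPrime.ne_top ((Ideal.eq_top_iff_one _).2 h4)
  have hx0 : x ≠ 0 := by
    rintro rfl
    exact hnot w₀ (Ideal.zero_mem _)
  have hcop : IsCoprime (Ideal.span {x}) f := by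
    rw [Ideal.isCoprime_iff_sup_eq]
    by_contra hne
    obtain ⟨M, hM, hle⟩ := Ideal.exists_le_maximal _ hne
    have hxM : x ∈ M := hle (Ideal.mem_sup_left (Ideal.mem_span_singleton_self x))
    have hM0 : M ≠ ⊥ := by
      rintro rfl
      exact hx0 (by simpa using hxM)
    have hfM : f ≤ M := le_sup_right.trans hle
    exact hnot ⟨⟨M, hM.isPrime, hM0⟩, (hR _).2 hfM⟩ hxM
  have h5 := phi_elem f R S xs q hR hS hxs hq x (Units.mk0 (x : K) (HC5_coe hx0)) rfl hcop
  rw [h1, pv_one_fun] at h5
  have h6 : ∏ w : R, q.1 w (resv w.1 (Units.mk0 (x : K) (HC5_coe hx0))) = q.1 w₀ u := by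
    rw [Finset.prod_eq_single w₀]
    · congr 1
      apply Units.ext
      rw [resv_apply w₀.1 x _ rfl (hnot w₀), hxu]
    · intro w _ hw
      have h7 : resv w.1 (Units.mk0 (x : K) (HC5_coe hx0)) = 1 := by
        apply Units.ext
        rw [resv_apply w.1 x _ rfl (hnot w), Units.val_one, ← map_one (Ideal.Quotient.mk _),
          Ideal.Quotient.eq]
        exact hx2 w hw
      rw [h7, map_one]
    · intro h
      exact absurd (Finset.mem_univ _) h
  rw [h6] at h5
  exact (inv_eq_one.1 h5.symm)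

end H55R
end

-- from Lib.H55R.HB2
section

open NumberField IsDedekindDomain
open scoped Pointwise

namespace H55R

variable {K L : Type} [Field K] [NumberField K] [Field L] [NumberField L] [Algebra K L]

/-! Chunk HB2 (M/L): norms of elements prime to v are e-th powers modulo v. G = Gal(L/K) commutative.
(a) y = a/b with a, b in 𝓞 L not in any prime W above v: there are finitely many such W; (y) = I/J with coprime integral ideals, J is contained in no W
above v; choose b in J outside all W above v (prime avoidance, Ideal.subset_union_prime or the Chinese remainder theorem), a = y b. So it is enough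
to treat y = a in 𝓞 L (resv and nrm are homomorphisms); N a = product of the g a is in 𝓞 K (Algebra.intNorm or RingOfIntegers.norm), not in v.
(b) Fix W above v, k_W = 𝓞 L / W, k_v = 𝓞 K / v, I = inertia group of W (W.asIdeal.inertia G, i x - x in W for all x in 𝓞 L), |I| = e
(Ideal.card_inertia_eq_ramificationIdxIn), D = stabilizer. Choose representatives c of G/I: in k_W: [N a] = product over g of [g a] = (product over c of [c a])^e
because [i c a] = [c a]. The element z = product over c of [c a] of k_W does not depend on the choice of the representatives, and an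
element d of D maps it to the product of the [d c a], i.e. to z (d c runs through representatives again; G commutative). D acts on k_W through
a surjection to Gal(k_W/k_v) (Ideal.Quotient.stabilizerHom_surjective), so z is in k_v, z <> 0 (a is not in c^-1 W).
k_v -> k_W is injective: N a = z^e in k_v. -/

theorem HB2_fib {G M : Type} [Group G] [Fintype G] [CommMonoid M] (I : Subgroup G) (φ : G → M)
    [Fintype (G ⧸ I)] (φ' : G ⧸ I → M) (h : ∀ g, φ' (QuotientGroup.mk g) = φ g) :
    ∏ g, φ g = (∏ q, φ' q) ^ Nat.card I := by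
  classical
  rw [← Finset.prod_fiberwise Finset.univ (fun g : G => (QuotientGroup.mk g : G ⧸ I)) φ,
    ← Finset.prod_pow]
  refine Finset.prod_congr rfl fun q _ => ?_
  obtain ⟨c, rfl⟩ := QuotientGroup.mk_surjective q
  have h1 : ∀ i ∈ Finset.univ.filter (fun g : G => (QuotientGroup.mk g : G ⧸ I) = QuotientGroup.mk c),
      φ i = φ' (QuotientGroup.mk c) := by
    intro i hi
    rw [← h i, (Finset.mem_filter.1 hi).2]
  rw [Finset.prod_congr rfl h1, Finset.prod_const]
  congr 1
  rw [Nat.card_eq_fintype_card, ← Finset.card_univ]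
  symm
  apply Finset.card_bij (fun (i : I) _ => c * i.1)
  · intro i _
    rw [Finset.mem_filter]
    refine ⟨Finset.mem_univ _, ?_⟩
    rw [eq_comm, QuotientGroup.eq, inv_mul_cancel_left]
    exact i.2
  · intro i _ j _ hij
    exact Subtype.ext (mul_left_cancel hij)
  · intro b hb
    rw [Finset.mem_filter] at hb
    have h2 := hb.2
    rw [eq_comm, QuotientGroup.eq] at h2
    exact ⟨⟨c⁻¹ * b, h2⟩, Finset.mem_univ _, mul_inv_cancel_left _ _⟩

theorem HB2_under (σ : Gal(L/K)) (W : Pl L) (v : Pl K) (h : W.under (𝓞 K) = v) (a : 𝓞 L)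
    (ha : ∀ W : Pl L, W.under (𝓞 K) = v → a ∉ W.asIdeal) : σ • a ∉ W.asIdeal := by
  intro h1
  apply ha (smulP σ⁻¹ W) (by rw [under_smulP, h])
  show a ∈ σ⁻¹ • W.asIdeal
  rw [Ideal.mem_inv_pointwise_smul_iff]
  exact h1

theorem HB2_int [IsGalois K L] (hc : ∀ g h : Gal(L/K), g * h = h * g) (v : Pl K) (a : 𝓞 L)
    (ha : ∀ W : Pl L, W.under (𝓞 K) = v → a ∉ W.asIdeal) :
    RingOfIntegers.norm K a ∉ v.asIdeal ∧ ∃ z : (𝓞 K ⧸ v.asIdeal)ˣ,
      Ideal.Quotient.mk v.asIdeal (RingOfIntegers.norm K a) =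
        (z : 𝓞 K ⧸ v.asIdeal) ^ es K L v := by
  classical
  obtain ⟨W, hW⟩ := under_exists (K := K) (L := L) v
  have hWv : v.asIdeal = W.asIdeal.under (𝓞 K) := by rw [← hW]; rfl
  have hl : W.asIdeal.LiesOver v.asIdeal := ⟨hWv⟩
  have hvm := v.isMaximal
  have hwm := W.isMaximal
  have hprod : algebraMap (𝓞 K) (𝓞 L) (RingOfIntegers.norm K a) = ∏ g : Gal(L/K), g • a := by
    apply RingOfIntegers.ext
    rw [RingOfIntegers.coe_algebraMap_norm K a, Algebra.norm_eq_prod_automorphisms]
    show _ = algebraMap (𝓞 L) L (∏ g : Gal(L/K), g • a)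
    rw [map_prod]
    rfl
  have hnot : RingOfIntegers.norm K a ∉ v.asIdeal := by
    intro h1
    rw [hWv] at h1
    have h2 : algebraMap (𝓞 K) (𝓞 L) (RingOfIntegers.norm K a) ∈ W.asIdeal := h1
    rw [hprod, W.isPrime.prod_mem_iff] at h2
    obtain ⟨g, -, hg⟩ := h2
    exact HB2_under g W v hW a ha hg
  refine ⟨hnot, ?_⟩
  letI : Field (𝓞 K ⧸ v.asIdeal) := Ideal.Quotient.field v.asIdeal
  letI : Field (𝓞 L ⧸ W.asIdeal) := Ideal.Quotient.field W.asIdeal
  have hfin : Finite (𝓞 L ⧸ W.asIdeal) := Ideal.finiteQuotientOfFreeOfNeBot W.asIdeal W.ne_bot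
  set I : Subgroup Gal(L/K) := W.asIdeal.inertia Gal(L/K) with hI
  have hcard : Nat.card I = es K L v :=
    Ideal.card_inertia_eq_ramificationIdxIn (G := Gal(L/K)) v.asIdeal W.asIdeal
  let φ : Gal(L/K) → 𝓞 L ⧸ W.asIdeal := fun g => Ideal.Quotient.mk W.asIdeal (g • a)
  have hφ : ∀ g h : Gal(L/K), g⁻¹ * h ∈ I → φ g = φ h := by
    intro g h hgh
    have h1 := hgh (g • a)
    rw [smul_smul, mul_assoc, hc h g, inv_mul_cancel_left] at h1
    exact (Ideal.Quotient.eq.2 h1).symm
  let φ' : Gal(L/K) ⧸ I → 𝓞 L ⧸ W.asIdeal :=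
    Quotient.lift φ fun g h hgh => hφ g h (QuotientGroup.leftRel_apply.1 hgh)
  have hφ' : ∀ g, φ' (QuotientGroup.mk g) = φ g := fun g => rfl
  set z : 𝓞 L ⧸ W.asIdeal := ∏ q, φ' q with hz
  have hN : Ideal.Quotient.mk W.asIdeal (algebraMap (𝓞 K) (𝓞 L) (RingOfIntegers.norm K a)) =
      z ^ es K L v := by
    rw [hprod, map_prod, ← hcard]
    exact HB2_fib I φ φ' hφ'
  have hfix : ∀ f : (𝓞 L ⧸ W.asIdeal) ≃ₐ[𝓞 K ⧸ v.asIdeal] (𝓞 L ⧸ W.asIdeal), f z = z := by
    intro f
    obtain ⟨d, rfl⟩ := Ideal.Quotient.stabilizerHom_surjective Gal(L/K) v.asIdeal W.asIdeal f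
    have hnorm : I.Normal := ⟨fun i hi g => by rwa [hc g i, mul_inv_cancel_right]⟩
    rw [hz, map_prod]
    have h1 : ∀ q, Ideal.Quotient.stabilizerHom W.asIdeal v.asIdeal Gal(L/K) d (φ' q) =
        φ' (QuotientGroup.mk d.1 * q) := by
      intro q
      obtain ⟨g, rfl⟩ := QuotientGroup.mk_surjective q
      rw [hφ', ← QuotientGroup.mk_mul, hφ']
      show Ideal.Quotient.mk W.asIdeal (d.1 • (g • a)) = Ideal.Quotient.mk W.asIdeal ((d.1 * g) • a)
      rw [mul_smul]
    rw [Finset.prod_congr rfl fun q _ => h1 q]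
    exact Fintype.prod_equiv (Equiv.mulLeft (QuotientGroup.mk d.1 : Gal(L/K) ⧸ I)) _ _ fun q => rfl
  have hzbot : z ∈ (⊥ : IntermediateField (𝓞 K ⧸ v.asIdeal) (𝓞 L ⧸ W.asIdeal)) := by
    rw [IsGalois.mem_bot_iff_fixed]
    exact hfix
  rw [IntermediateField.mem_bot] at hzbot
  obtain ⟨z₀, hz₀⟩ := hzbot
  have h1 : Ideal.Quotient.mk v.asIdeal (RingOfIntegers.norm K a) = z₀ ^ es K L v := by
    apply (algebraMap (𝓞 K ⧸ v.asIdeal) (𝓞 L ⧸ W.asIdeal)).injective
    rw [map_pow, hz₀, ← hN]
    rfl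
  have h2 : z₀ ≠ 0 := by
    rintro rfl
    rw [zero_pow (es_pos (L := L) v).ne', Ideal.Quotient.eq_zero_iff_mem] at h1
    exact hnot h1
  exact ⟨Units.mk0 z₀ h2, h1⟩

theorem norm_res [IsGalois K L] (hc : ∀ g h : Gal(L/K), g * h = h * g) (v : Pl K) (y : Lˣ)
    (hy : ∀ W : Pl L, W.under (𝓞 K) = v → ord W y = 0) :
    ∃ z : (𝓞 K ⧸ v.asIdeal)ˣ, resv v (nrm K L y) = z ^ es K L v := by
  classical
  have hT : {W : Pl L | W.under (𝓞 K) = v}.Finite := above_finite v
  let J : Ideal (𝓞 L) :=
    { carrier := {b | ∃ a : 𝓞 L, algebraMap (𝓞 L) L a = algebraMap (𝓞 L) L b * y}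
      add_mem' := by
        rintro b b' ⟨a, h⟩ ⟨a', h'⟩
        exact ⟨a + a', by rw [map_add, map_add, h, h']; ring⟩
      zero_mem' := ⟨0, by rw [map_zero]; ring⟩
      smul_mem' := by
        rintro c b ⟨a, h⟩
        exact ⟨c * a, by rw [smul_eq_mul, map_mul, map_mul, h]; ring⟩ }
  have hfrac : ∀ W : Pl L, W.under (𝓞 K) = v → ∃ a b : 𝓞 L, a ∉ W.asIdeal ∧ b ∉ W.asIdeal ∧
      algebraMap (𝓞 L) L a = algebraMap (𝓞 L) L b * y := by
    intro W hW
    obtain ⟨a, b, ha, hb, hab⟩ := exists_frac W y (hy W hW)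
    refine ⟨a, b, ha, hb, ?_⟩
    rw [hab]
    show (a : L) = (b : L) * ((a : L) / (b : L))
    have hb0 : (b : L) ≠ 0 := by
      intro h
      apply hb
      have : b = 0 := RingOfIntegers.ext h
      rw [this]
      exact W.asIdeal.zero_mem
    rw [mul_div_cancel₀ _ hb0]
  obtain ⟨b, hbJ, hbW⟩ : ∃ b ∈ J, ∀ W : Pl L, W.under (𝓞 K) = v → b ∉ W.asIdeal := by
    by_contra hcon
    push Not at hcon
    have h1 : (J : Set (𝓞 L)) ⊆ ⋃ W ∈ (↑hT.toFinset : Set (Pl L)), (W.asIdeal : Set (𝓞 L)) := by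
      intro b hb
      obtain ⟨W, hW, hbW⟩ := hcon b hb
      rw [Set.mem_iUnion₂]
      exact ⟨W, by rw [Set.Finite.coe_toFinset]; exact hW, hbW⟩
    obtain ⟨W₀, hW₀⟩ := under_exists (K := K) (L := L) v
    rw [Ideal.subset_union_prime W₀ W₀ (fun W _ _ _ => W.isPrime)] at h1
    obtain ⟨W, hW, hJW⟩ := h1
    rw [Set.Finite.mem_toFinset] at hW
    obtain ⟨a, b, ha, hb, hab⟩ := hfrac W hW
    exact hb (hJW ⟨a, hab⟩)
  obtain ⟨a, hab⟩ := hbJ
  have haW : ∀ W : Pl L, W.under (𝓞 K) = v → a ∉ W.asIdeal := by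
    intro W hW ha
    obtain ⟨a', b', ha', hb', hab'⟩ := hfrac W hW
    have h1 : a * b' = b * a' := by
      apply RingOfIntegers.ext
      show algebraMap (𝓞 L) L (a * b') = algebraMap (𝓞 L) L (b * a')
      rw [map_mul, map_mul, hab, hab']
      ring
    have h2 : b * a' ∈ W.asIdeal := by
      rw [← h1]
      exact Ideal.mul_mem_right _ _ ha
    rcases W.isPrime.mem_or_mem h2 with h3 | h3
    · exact hbW W hW h3
    · exact ha' h3
  obtain ⟨W₀, hW₀⟩ := under_exists (K := K) (L := L) v
  have hne : ∀ c : 𝓞 L, (∀ W : Pl L, W.under (𝓞 K) = v → c ∉ W.asIdeal) → (c : L) ≠ 0 := by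
    intro c hcW h
    apply hcW W₀ hW₀
    have : c = 0 := RingOfIntegers.ext h
    rw [this]
    exact W₀.asIdeal.zero_mem
  have key : ∀ c : 𝓞 L, (hcW : ∀ W : Pl L, W.under (𝓞 K) = v → c ∉ W.asIdeal) →
      ∃ z : (𝓞 K ⧸ v.asIdeal)ˣ, resv v (nrm K L (Units.mk0 (c : L) (hne c hcW))) =
        z ^ es K L v := by
    intro c hcW
    obtain ⟨h1, z, hz⟩ := HB2_int hc v c hcW
    refine ⟨z, ?_⟩
    apply Units.ext
    rw [resv_apply v (RingOfIntegers.norm K c) _ rfl h1, hz, Units.val_pow_eq_pow_val]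
  obtain ⟨z₁, hz₁⟩ := key a haW
  obtain ⟨z₂, hz₂⟩ := key b hbW
  refine ⟨z₁ / z₂, ?_⟩
  have h1 : y = Units.mk0 (a : L) (hne a haW) / Units.mk0 (b : L) (hne b hbW) := by
    apply Units.ext
    rw [Units.val_div_eq_div_val]
    show (y : L) = algebraMap (𝓞 L) L a / algebraMap (𝓞 L) L b
    rw [hab, mul_comm]
    exact (mul_div_cancel_right₀ _ (hne b hbW)).symm
  rw [h1, map_div, map_div, hz₁, hz₂, div_pow]

end H55R
end

-- from Lib.H55R.HC3
section

open NumberField IsDedekindDomain

namespace H55R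

/-! Chunk HC3 (S): local data are trivial on norms. Psi_apply. For w in R: norm_res gives resv w (N y) = z^(e_w), so the factor is
(q.1 w z)^(e_w) = 1. For s in S: ord_norm gives ord s (N y) = f_s k, so the factor is ((q.2 s)^(f_s))^k = 1. -/

theorem Psi_norm {K L : Type} [Field K] [NumberField K] [Field L] [NumberField L] [Algebra K L]
    [IsGalois K L] (hc : ∀ g h : Gal(L/K), g * h = h * g) (R S : Finset (Pl K)) (q : XX R S)
    (hq : q ∈ X0 K L R S) (y : Lˣ) (hy : ∀ W : Pl L, W.under (𝓞 K) ∈ R → ord W y = 0) :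
    Psi R S q (nrm K L y) = 1 := by
  obtain ⟨hq1, hq2⟩ := hq
  rw [Psi_apply]
  have h1 : ∏ w : R, q.1 w (resv w.1 (nrm K L y)) = 1 := by
    refine Finset.prod_eq_one fun w _ => ?_
    obtain ⟨z, hz⟩ := norm_res hc w.1 y fun W hW => hy W (by rw [hW]; exact w.2)
    rw [hz, map_pow]
    exact hq1 w z
  have h2 : ∏ s : S, q.2 s ^ ord s.1 (nrm K L y) = 1 := by
    refine Finset.prod_eq_one fun s _ => ?_
    have hfin := above_finite (L := L) s.1
    have hT : ∀ W : Pl L, W ∈ hfin.toFinset ↔ W.under (𝓞 K) = s.1 := fun W => by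
      rw [Set.Finite.mem_toFinset]
      rfl
    rw [ord_norm s.1 hfin.toFinset hT y, zpow_mul, zpow_natCast, hq2 s, one_zpow]
  rw [h1, h2, mul_one]

end H55R
end

-- from Lib.H55R.HC6
section

open NumberField IsDedekindDomain

namespace H55R

variable {K L : Type} [Field K] [NumberField K] [Field L] [NumberField L] [Algebra K L] [IsGalois K L]

/-! Chunk HC6 (M). phi_split: v does not contain f, e_v = f_v = 1. If v is in S: phi v = q.2 v and q.2 v ^ (f_v) = 1. If v is not in S: choose a prime W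
above v (under_exists) and y in Lˣ with ord W y = 1 and ord U y = 0 for all U not in T, U <> W (hGT; W is not in T). For x = nrm y: by
ord_norm ord v x = f_v * 1 = 1 and ord u x = 0 for u not in S, u <> v, so x / xs v is an S-unit and Psi (xs v) = Psi x. Psi x = 1 by Psi_norm:
for W' above w in R: ord W' y = 0 because w is not in S (w contains f) and w <> v. So phi v = (Psi (xs v))^-1 = 1.
phi_pow: q^n = 1 for q in X0, n = [L : K]: e_w and f_s divide n (card_above with any finite set of the primes above). -/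

theorem HC6_dvd (v : Pl K) : es K L v ∣ Module.finrank K L ∧ fs K L v ∣ Module.finrank K L := by
  have h := card_above v (above_finite (L := L) v).toFinset (fun W => by
    rw [Set.Finite.mem_toFinset]
    rfl)
  rw [← h]
  exact ⟨Dvd.dvd.mul_left (Dvd.intro _ rfl) _, Dvd.dvd.mul_left (Dvd.intro_left _ rfl) _⟩

theorem phi_split (hc : ∀ g h : Gal(L/K), g * h = h * g) (f : Ideal (𝓞 K)) (R S : Finset (Pl K))
    (T : Finset (Pl L)) (hT : ∀ W, W ∈ T ↔ W.under (𝓞 K) ∈ S) (hGT : GenS (T : Set (Pl L)))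
    (xs : Pl K → Kˣ) (q : XX R S) (hR : ∀ v : Pl K, v ∈ R ↔ f ≤ v.asIdeal)
    (hS : ∀ v ∈ S, ¬ f ≤ v.asIdeal) (hxs : GenX S xs)
    (hq : ∀ x ∈ SU (S : Set (Pl K)), Psi R S q x = 1) (hq0 : q ∈ X0 K L R S) (v : Pl K)
    (hv : ¬ f ≤ v.asIdeal) (hs : Spl K L v) : phi f R S xs q v = 1 := by
  by_cases hvS : v ∈ S
  · rw [phi_of_mem f R S xs q v hv hvS]
    have h1 : q.2 ⟨v, hvS⟩ ^ fs K L v = 1 := hq0.2 ⟨v, hvS⟩
    rwa [hs.2, pow_one] at h1
  · rw [phi_of_not_mem f R S xs q v hv hvS]
    obtain ⟨W, hW⟩ := under_exists (L := L) v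
    have hWT : W ∉ T := by
      rw [hT, hW]
      exact hvS
    obtain ⟨y, hy1, hy2⟩ := hGT W
    have hy1' : ord W y = 1 := hy1 (by rw [Finset.mem_coe]; exact hWT)
    have hy2' : ∀ U : Pl L, U.under (𝓞 K) ∉ S → U ≠ W → ord U y = 0 := by
      intro U hU hne
      refine hy2 U ?_ hne
      rw [Finset.mem_coe, hT]
      exact hU
    have hfin : ∀ u : Pl K, ∀ U : Pl L, U ∈ (above_finite (L := L) u).toFinset ↔
        U.under (𝓞 K) = u := by
      intro u U
      rw [Set.Finite.mem_toFinset]
      rfl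
    have hx1 : ord v (nrm K L y) = 1 := by
      rw [ord_norm v _ (hfin v) y, hs.2, Finset.sum_eq_single W, hy1']
      · norm_num
      · intro U hU hne
        rw [hfin] at hU
        exact hy2' U (by rw [hU]; exact hvS) hne
      · intro h
        exact absurd ((hfin v W).2 hW) h
    have hx2 : ∀ u : Pl K, u ∉ S → u ≠ v → ord u (nrm K L y) = 0 := by
      intro u hu hne
      rw [ord_norm u _ (hfin u) y, Finset.sum_eq_zero, mul_zero]
      intro U hU
      rw [hfin] at hU
      refine hy2' U (by rw [hU]; exact hu) ?_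
      rintro rfl
      exact hne (hU.symm.trans hW)
    have hz : nrm K L y * (xs v)⁻¹ ∈ SU (S : Set (Pl K)) := by
      intro u hu
      rw [Finset.mem_coe] at hu
      rw [ord_mul, ord_inv]
      by_cases huv : u = v
      · rw [huv, hx1, (hxs v).1 hvS]
        norm_num
      · rw [hx2 u hu huv, (hxs v).2 u hu huv]
        norm_num
    have h1 := hq _ hz
    rw [map_mul, map_inv, Psi_norm hc R S q hq0 y, one_mul] at h1
    · exact h1
    · intro W' hW'
      refine hy2' W' ?_ ?_
      · intro h2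
        exact hS _ h2 ((hR _).1 hW')
      · rintro rfl
        rw [hW] at hW'
        exact hv ((hR v).1 hW')

theorem phi_pow (R S : Finset (Pl K)) (q : XX R S) (hq0 : q ∈ X0 K L R S) :
    q ^ Module.finrank K L = 1 := by
  refine Prod.ext ?_ ?_
  · rw [Prod.pow_fst]
    funext w
    apply MonoidHom.ext
    intro x
    obtain ⟨k, hk⟩ := (HC6_dvd (L := L) w.1).1
    have h1 : (q.1 ^ Module.finrank K L) w x = q.1 w x ^ Module.finrank K L := rfl
    rw [h1, hk, pow_mul, hq0.1 w x, one_pow]
    rfl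
  · rw [Prod.pow_snd]
    funext s
    obtain ⟨k, hk⟩ := (HC6_dvd (L := L) s.1).2
    rw [Pi.pow_apply, hk, pow_mul, hq0.2 s, one_pow]
    rfl

end H55R
end

-- from Lib.H55R.HC7
section

open NumberField IsDedekindDomain

namespace H55R

/-! Chunk HC7 (M): existence of S. gens: for a number field M and an ideal g <> 0 there is a finite set U of primes not containing g such that every
finite set (indeed every set) U' containing U satisfies GenS U': for every ideal class choose an integral ideal b prime to g in it (copy the proofs of exists_mem_cop and exists_rep from Pool/Agent/Lib/H55N/H11.lean, they need only Mathlib),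
U = the primes containing one of these b (finitely many classes: Fintype (ClassGroup), each b has finitely many prime divisors). GenS: for a prime
v let b be the representative of the inverse class: v b = (x) (ClassGroup.mk0_eq_one_iff), ord u x = multiplicity of u in v b: for u not in U it is 1 if
u = v and 0 otherwise. (If v is in U the first condition is empty.) exists_S: U1 for K and f, U2 for L and f O_L;
S = U1 and the primes below U2 (if W does not contain f O_L the prime below does not contain f), T = the primes above S (finite). -/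

theorem HC7_ord {K : Type} [Field K] [NumberField K] (v : Pl K) (u : Kˣ) (x : 𝓞 K) (hx : x ≠ 0)
    (hu : (u : K) = algebraMap (𝓞 K) K x) :
    ord v u = ((Associates.mk v.asIdeal).count (Associates.mk (Ideal.span {x} : Ideal (𝓞 K))).factors : ℤ) := by
  have h1 := v.valuationOfNeZero_eq (K := K) u
  rw [hu, HeightOneSpectrum.valuation_of_algebraMap, HeightOneSpectrum.intValuation_if_neg v hx] at h1
  have h2 : v.valuationOfNeZero u = Multiplicative.ofAdd
      (-(Associates.mk v.asIdeal).count (Associates.mk (Ideal.span {x} : Ideal (𝓞 K))).factors : ℤ) := by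
    rw [← WithZero.coe_inj]
    exact h1
  unfold ord
  rw [h2, toAdd_ofAdd, neg_neg]

theorem HC7_exists_mem_cop {K : Type} [Field K] [NumberField K] (J g : Ideal (𝓞 K)) (hJ : J ≠ ⊥)
    (hg : g ≠ ⊥) :
    ∃ x ∈ J, ∃ b : Ideal (𝓞 K), x ≠ 0 ∧ Ideal.span {x} = J * b ∧ IsCoprime b g := by
  obtain ⟨x, hx⟩ := IsDedekindDomain.exists_sup_span_eq (I := J * g) (J := J) Ideal.mul_le_left
    (mul_ne_zero hJ hg)
  by_cases hx0 : x = 0
  · subst hx0
    have h1 : J * g = J := by
      rw [Ideal.span_singleton_eq_bot.2 rfl, sup_bot_eq] at hx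
      exact hx
    have h2 : g = ⊤ := by
      have h3 : J * g = J * 1 := by rw [h1, mul_one]
      have h4 := mul_left_cancel₀ (show J ≠ 0 from hJ) h3
      rw [h4]
      exact Ideal.one_eq_top
    obtain ⟨y, hy, hy0⟩ := Submodule.exists_mem_ne_zero_of_ne_bot hJ
    have h3 : J ∣ Ideal.span {y} := by
      rw [Ideal.dvd_iff_le, Ideal.span_singleton_le_iff_mem]
      exact hy
    obtain ⟨b, hb⟩ := h3
    refine ⟨y, hy, b, hy0, hb, ?_⟩
    rw [h2, ← Ideal.one_eq_top]
    exact isCoprime_one_right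
  · have hxJ : x ∈ J := by
      rw [← hx]
      exact Ideal.mem_sup_right (Ideal.mem_span_singleton_self x)
    have h3 : J ∣ Ideal.span {x} := by
      rw [Ideal.dvd_iff_le, Ideal.span_singleton_le_iff_mem]
      exact hxJ
    obtain ⟨b, hb⟩ := h3
    refine ⟨x, hxJ, b, hx0, hb, ?_⟩
    rw [hb] at hx
    have h4 : J * (g ⊔ b) = J * 1 := by
      rw [Ideal.mul_sup, hx, mul_one]
    have h5 := mul_left_cancel₀ (show J ≠ 0 from hJ) h4
    rw [Ideal.isCoprime_iff_sup_eq, sup_comm, h5]
    exact Ideal.one_eq_top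

theorem HC7_exists_rep {K : Type} [Field K] [NumberField K] (g : Ideal (𝓞 K)) (hg : g ≠ ⊥)
    (κ : ClassGroup (𝓞 K)) :
    ∃ (b : Ideal (𝓞 K)) (hb : b ≠ ⊥), IsCoprime b g ∧
      ClassGroup.mk0 ⟨b, mem_nonZeroDivisors_iff_ne_zero.2 hb⟩ = κ := by
  obtain ⟨J, hJ⟩ := ClassGroup.mk0_surjective κ⁻¹
  have hJ0 : (J : Ideal (𝓞 K)) ≠ ⊥ := mem_nonZeroDivisors_iff_ne_zero.1 J.2
  obtain ⟨x, hx, b, hx0, hb, hcop⟩ := HC7_exists_mem_cop (J : Ideal (𝓞 K)) g hJ0 hg
  have hb0 : b ≠ ⊥ := by
    rintro rfl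
    apply hx0
    rw [← Ideal.span_singleton_eq_bot, hb]
    exact mul_zero _
  refine ⟨b, hb0, hcop, ?_⟩
  have h1 : ClassGroup.mk0 (J * ⟨b, mem_nonZeroDivisors_iff_ne_zero.2 hb0⟩) = 1 := by
    rw [ClassGroup.mk0_eq_one_iff]
    refine ⟨⟨x, ?_⟩⟩
    show (J : Ideal (𝓞 K)) * b = _
    rw [← hb]
  rw [map_mul, hJ] at h1
  exact (inv_mul_eq_one.1 h1).symm

theorem gens {M : Type} [Field M] [NumberField M] (g : Ideal (𝓞 M)) (hg : g ≠ ⊥) :
    ∃ U : Finset (Pl M), (∀ v ∈ U, ¬ g ≤ v.asIdeal) ∧
      ∀ U' : Set (Pl M), (U : Set (Pl M)) ⊆ U' → GenS U' := by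
  classical
  choose b hb hcop hmk using HC7_exists_rep (K := M) g hg
  have hfin : ∀ κ : ClassGroup (𝓞 M), {v : Pl M | v.asIdeal ∣ b κ}.Finite := fun κ =>
    Ideal.finite_factors (hb κ)
  have hfinU : (⋃ κ : ClassGroup (𝓞 M), {v : Pl M | v.asIdeal ∣ b κ}).Finite :=
    Set.finite_iUnion hfin
  refine ⟨hfinU.toFinset, ?_, ?_⟩
  · intro v hv hgv
    rw [Set.Finite.mem_toFinset, Set.mem_iUnion] at hv
    obtain ⟨κ, hκ⟩ := hv
    have h1 : b κ ≤ v.asIdeal := Ideal.dvd_iff_le.1 hκ
    have h2 := Ideal.isCoprime_iff_sup_eq.1 (hcop κ)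
    have h3 : (⊤ : Ideal (𝓞 M)) ≤ v.asIdeal := by
      rw [← h2]
      exact sup_le h1 hgv
    exact v.isPrime.ne_top (top_le_iff.1 h3)
  · intro U' hU' v
    have hnot : ∀ w : Pl M, w ∉ U' → ∀ κ, ¬ w.asIdeal ∣ b κ := by
      intro w hw κ hd
      apply hw
      apply hU'
      rw [Set.Finite.coe_toFinset, Set.mem_iUnion]
      exact ⟨κ, hd⟩
    have hv : v.asIdeal ∈ nonZeroDivisors (Ideal (𝓞 M)) :=
      mem_nonZeroDivisors_iff_ne_zero.2 v.ne_bot
    set κ : ClassGroup (𝓞 M) := (ClassGroup.mk0 (⟨v.asIdeal, hv⟩ : nonZeroDivisors (Ideal (𝓞 M))))⁻¹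
      with hκ
    have h1 : ClassGroup.mk0 ((⟨v.asIdeal, hv⟩ : nonZeroDivisors (Ideal (𝓞 M))) *
        ⟨b κ, mem_nonZeroDivisors_iff_ne_zero.2 (hb κ)⟩) = 1 := by
      rw [map_mul, hmk κ, hκ, mul_inv_cancel]
    rw [ClassGroup.mk0_eq_one_iff] at h1
    obtain ⟨x, hx⟩ := h1
    have hx' : v.asIdeal * b κ = Ideal.span {x} := hx
    have hx0 : x ≠ 0 := by
      rintro rfl
      apply mul_ne_zero (show v.asIdeal ≠ 0 from v.ne_bot) (show b κ ≠ 0 from hb κ)
      rw [hx']
      exact Ideal.span_singleton_eq_bot.2 rfl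
    have hxL : algebraMap (𝓞 M) M x ≠ 0 := by
      rw [Ne, FaithfulSMul.algebraMap_eq_zero_iff]
      exact hx0
    have hmkx : Associates.mk (Ideal.span {x} : Ideal (𝓞 M)) =
        Associates.mk v.asIdeal * Associates.mk (b κ) := by
      rw [← hx', Associates.mk_mul_mk]
    have hcount : ∀ w : Pl M, w ∉ U' →
        (Associates.mk w.asIdeal).count (Associates.mk (b κ)).factors = 0 := by
      intro w hw
      by_contra hne
      exact hnot w hw κ ((Associates.count_ne_zero_iff_dvd (hb κ) w.irreducible).1 hne)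
    have hord : ∀ w : Pl M, w ∉ U' → ord w (Units.mk0 _ hxL) =
        ((Associates.mk w.asIdeal).count (Associates.mk v.asIdeal).factors : ℤ) := by
      intro w hw
      rw [HC7_ord w _ x hx0 rfl, hmkx, Associates.count_mul (Associates.mk_ne_zero.2 v.ne_bot)
        (Associates.mk_ne_zero.2 (hb κ)) w.associates_irreducible, hcount w hw, add_zero]
    refine ⟨Units.mk0 _ hxL, fun hvU => ?_, fun w hw hwv => ?_⟩
    · rw [hord v hvU, Associates.count_self v.associates_irreducible, Nat.cast_one]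
    · rw [hord w hw, Associates.count_eq_zero_of_ne w.associates_irreducible
        v.associates_irreducible, Nat.cast_zero]
      intro he
      apply hwv
      apply HeightOneSpectrum.ext
      rwa [Associates.mk_eq_mk_iff_associated, associated_iff_eq] at he

theorem exists_S (K L : Type) [Field K] [NumberField K] [Field L] [NumberField L] [Algebra K L]
    (f : Ideal (𝓞 K)) (hf : f ≠ ⊥) : ∃ (S : Finset (Pl K)) (T : Finset (Pl L)),
      (∀ W, W ∈ T ↔ W.under (𝓞 K) ∈ S) ∧ (∀ v ∈ S, ¬ f ≤ v.asIdeal) ∧ GenS (S : Set (Pl K)) ∧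
      GenS (T : Set (Pl L)) := by
  classical
  have hinj : Function.Injective (algebraMap (𝓞 K) (𝓞 L)) := FaithfulSMul.algebraMap_injective _ _
  have hmap : ∀ I : Ideal (𝓞 K), I ≠ ⊥ → I.map (algebraMap (𝓞 K) (𝓞 L)) ≠ ⊥ := by
    intro I hI h
    apply hI
    exact (Ideal.map_eq_bot_iff_of_injective hinj).1 h
  obtain ⟨U1, h1, h1'⟩ := gens (M := K) f hf
  obtain ⟨U2, h2, h2'⟩ := gens (M := L) (f.map (algebraMap (𝓞 K) (𝓞 L))) (hmap f hf)
  set S : Finset (Pl K) := U1 ∪ U2.image (fun W => W.under (𝓞 K)) with hS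
  have hfin : {W : Pl L | W.under (𝓞 K) ∈ S}.Finite := by
    refine Set.Finite.subset (s := ⋃ v ∈ S, {W : Pl L | W.asIdeal ∣ v.asIdeal.map (algebraMap (𝓞 K) (𝓞 L))})
      (Set.Finite.biUnion S.finite_toSet fun v _ => Ideal.finite_factors (hmap _ v.ne_bot)) ?_
    intro W hW
    rw [Set.mem_iUnion₂]
    refine ⟨W.under (𝓞 K), hW, ?_⟩
    show W.asIdeal ∣ _
    rw [Ideal.dvd_iff_le, Ideal.map_le_iff_le_comap]
    exact le_refl _
  refine ⟨S, hfin.toFinset, fun W => ?_, ?_, ?_, ?_⟩
  · rw [Set.Finite.mem_toFinset]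
    exact Iff.rfl
  · intro v hv hfv
    rw [hS, Finset.mem_union, Finset.mem_image] at hv
    rcases hv with hv | ⟨W, hW, rfl⟩
    · exact h1 v hv hfv
    · apply h2 W hW
      rw [Ideal.map_le_iff_le_comap]
      exact hfv
  · apply h1'
    intro v hv
    rw [hS, Finset.coe_union]
    exact Or.inl hv
  · apply h2'
    intro W hW
    rw [Set.Finite.coe_toFinset]
    show W.under (𝓞 K) ∈ S
    rw [hS, Finset.mem_union, Finset.mem_image]
    exact Or.inr ⟨W, hW, rfl⟩

end H55R
end

-- from Lib.H55R.HC8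
section

open NumberField IsDedekindDomain

namespace H55R

/-! The first inequality for cyclic extensions (assembly). -/

/-- The local data trivial on the S-units. -/
def Y0 (K L : Type) [Field K] [NumberField K] [Field L] [NumberField L] [Algebra K L]
    (R S : Finset (Pl K)) : Subgroup (XX R S) where
  carrier := {q | q ∈ X0 K L R S ∧ ∀ x ∈ SU (S : Set (Pl K)), Psi R S q x = 1}
  mul_mem' := by
    rintro q r ⟨h1, h2⟩ ⟨h3, h4⟩
    refine ⟨mul_mem h1 h3, fun x hx => ?_⟩
    rw [map_mul, MonoidHom.mul_apply, h2 x hx, h4 x hx, mul_one]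
  one_mem' := ⟨one_mem _, fun x _ => by rw [map_one, MonoidHom.one_apply]⟩
  inv_mem' := by
    rintro q ⟨h1, h2⟩
    refine ⟨inv_mem h1, fun x hx => ?_⟩
    rw [map_inv, MonoidHom.inv_apply, h2 x hx, inv_one]

theorem primes_finite {K : Type} [Field K] [NumberField K] (f : Ideal (𝓞 K)) (hf : f ≠ ⊥) :
    {v : Pl K | f ≤ v.asIdeal}.Finite := by
  have h := Ideal.finite_factors hf
  refine h.subset fun v hv => ?_
  exact Ideal.dvd_iff_le.2 hv

theorem first_ineq {K L : Type} [Field K] [NumberField K] [Field L] [NumberField L] [Algebra K L]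
    [IsGalois K L] (σ : Gal(L/K)) (hσ : ∀ g : Gal(L/K), g ∈ Subgroup.zpowers σ)
    (hK : ∀ v : InfinitePlace K, v.IsComplex) (f : Ideal (𝓞 K)) (hf : f ≠ ⊥)
    (hram : ∀ v : Pl K, ¬ f ≤ v.asIdeal → es K L v = 1)
    (htame : ∀ v : Pl K, es K L v ∣ Ideal.absNorm v.asIdeal - 1) :
    ∃ Y : Subgroup (Pl K → ℂˣ), Finite Y ∧ Y ≤ RC f ∧ Module.finrank K L ≤ Nat.card Y ∧
      (∀ φ ∈ Y, φ ^ Module.finrank K L = 1) ∧
      ∀ φ ∈ Y, ∀ v : Pl K, ¬ f ≤ v.asIdeal → Spl K L v → φ v = 1 := by
  classical
  have hc : ∀ g h : Gal(L/K), g * h = h * g := by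
    intro g h
    obtain ⟨i, rfl⟩ := hσ g
    obtain ⟨j, rfl⟩ := hσ h
    exact (Commute.zpow_zpow (Commute.refl σ) i j)
  obtain ⟨S, T, hT, hS, hGS, hGT⟩ := exists_S K L f hf
  obtain ⟨R, hR⟩ : ∃ R : Finset (Pl K), ∀ v, v ∈ R ↔ f ≤ v.asIdeal :=
    ⟨(primes_finite f hf).toFinset, fun v => by simp⟩
  choose xs hxs using hGS
  have hxs' : GenX S xs := fun v => ⟨fun h => (hxs v).1 (by simpa using h),
    fun u hu huv => (hxs v).2 u (by simpa using hu) huv⟩
  have hR1 : ∀ v, v ∉ R → es K L v = 1 := fun v hv => hram v fun h => hv ((hR v).2 h)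
  obtain ⟨hfin, hcard⟩ := card_X0 K L R S fun w _ => htame w
  obtain ⟨hi1, hi2⟩ := index_bound σ hσ hK S T hT (fun v => ⟨xs v, hxs v⟩) R hR1
  set N := (SU (T : Set (Pl L))).map (nrm K L) with hN
  set U := SU (S : Set (Pl K)) with hU
  have hdc := dual_count (X := X0 K L R S) U N (norm_mem S T hT) hi1
    ((Psi R S).comp (X0 K L R S).subtype) (by
      rintro ⟨q, hq⟩ g hg
      obtain ⟨y, hy, rfl⟩ := hg
      refine Psi_norm hc R S q hq y fun W hW => ?_
      refine hy W fun hWT => ?_
      have h1 : W.under (𝓞 K) ∈ S := (hT W).1 (by simpa using hWT)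
      exact hS _ h1 ((hR _).1 hW))
  -- the number of elements of Y0
  let e : {x : X0 K L R S // ∀ g ∈ U, ((Psi R S).comp (X0 K L R S).subtype) x g = 1} ≃
      Y0 K L R S :=
    { toFun := fun x => ⟨x.1.1, x.1.2, x.2⟩
      invFun := fun q => ⟨⟨q.1, q.2.1⟩, q.2.2⟩
      left_inv := fun _ => rfl
      right_inv := fun _ => rfl }
  have hfinY : Finite (Y0 K L R S) := Finite.of_equiv _ e
  have hcY : Nat.card (Y0 K L R S) = Nat.card {x : X0 K L R S //
      ∀ g ∈ U, ((Psi R S).comp (X0 K L R S).subtype) x g = 1} := (Nat.card_congr e).symm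
  have hSe : ∏ v ∈ S, (es K L v * fs K L v) = ∏ v ∈ S, fs K L v := by
    refine Finset.prod_congr rfl fun v hv => ?_
    rw [hram v (hS v hv), one_mul]
  have hle : Module.finrank K L ≤ Nat.card (Y0 K L R S) := by
    rw [hSe, ← hcard] at hi2
    have h1 : N.relIndex U * Module.finrank K L ≤ N.relIndex U * Nat.card (Y0 K L R S) := by
      rw [hcY]
      exact hi2.trans hdc
    exact Nat.le_of_mul_le_mul_left h1 (Nat.pos_of_ne_zero hi1)
  have hinj : Function.Injective fun q : Y0 K L R S => phi f R S xs q.1 := by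
    intro q r hqr
    have h1 : phi f R S xs (q.1 * r.1⁻¹) = 1 := by
      have h2 : phi f R S xs q.1 = phi f R S xs r.1 := hqr
      have h5 : q.1 * r.1⁻¹ * r.1 = q.1 := inv_mul_cancel_right q.1 r.1
      have h3 : phi f R S xs (q.1 * r.1⁻¹) * phi f R S xs r.1 = 1 * phi f R S xs r.1 := by
        rw [← map_mul, h5, one_mul, h2]
      exact mul_right_cancel h3
    have h3 : q.1 * r.1⁻¹ ∈ Y0 K L R S := mul_mem q.2 (inv_mem r.2)
    have h4 := phi_inj f R S xs (q.1 * r.1⁻¹) hR hS hxs' h3.2 h1
    exact Subtype.ext (mul_inv_eq_one.1 h4)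
  have hmap : ∀ φ, φ ∈ (Y0 K L R S).map (phi f R S xs) ↔ ∃ q : Y0 K L R S, phi f R S xs q.1 = φ := by
    intro φ
    constructor
    · rintro ⟨q, hq, rfl⟩
      exact ⟨⟨q, hq⟩, rfl⟩
    · rintro ⟨q, rfl⟩
      exact ⟨q.1, q.2, rfl⟩
  let e2 : Y0 K L R S ≃ (Y0 K L R S).map (phi f R S xs) :=
    Equiv.ofBijective (fun q => ⟨phi f R S xs q.1, ⟨q.1, q.2, rfl⟩⟩)
      ⟨fun q r h => hinj (congrArg Subtype.val h), fun φ => by
        obtain ⟨q, hq⟩ := (hmap φ.1).1 φ.2
        exact ⟨q, Subtype.ext hq⟩⟩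
  refine ⟨(Y0 K L R S).map (phi f R S xs), Finite.of_equiv _ e2, ?_, ?_, ?_, ?_⟩
  · intro φ hφ
    obtain ⟨q, rfl⟩ := (hmap φ).1 hφ
    exact phi_RC f R S xs q.1 hR hS hxs' q.2.2
  · rw [← Nat.card_congr e2]
    exact hle
  · intro φ hφ
    obtain ⟨q, rfl⟩ := (hmap φ).1 hφ
    rw [← map_pow, phi_pow (K := K) (L := L) R S q.1 q.2.1, map_one]
  · intro φ hφ v hv hs
    obtain ⟨q, rfl⟩ := (hmap φ).1 hφ
    exact phi_split hc f R S T hT hGT xs q.1 hR hS hxs' q.2.2 q.2.1 v hv hs

end H55R
end
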