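import Mathlib
import Pool.Agent.Lib.H1M.PP.D_H55B_Defs
import Pool.Agent.Lib.H1M.PP.D_H55P_SD
import Pool.Agent.Lib.H1M.PP.D_H55P_Sel
import Pool.Agent.Lib.H1M.PP.M001
import Pool.Agent.Lib.H1M.PP.M005
import Pool.Agent.Lib.H1M.PP.M006
import Pool.Agent.Lib.H1M.PP.M010
import Pool.Agent.Lib.H1M.PP.M011
import Pool.Agent.Lib.H1M.PP.M013

/-! Merged copies (to shorten the build) of Lib.H13S.IN2, Lib.H13S.FR, Lib.H55P.S13, Lib.H55P.T11, Lib.H16C.GE3, Lib.H55P.Z11, Lib.H99B.A2, Lib.H99B.E1, Lib.H55N.TW1, Lib.H55R.CH2, Lib.H55R.X12, Lib.H55R.X8, Lib.H55R.X7. -/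

-- from Lib.H13S.IN2
section

open NumberField IsDedekindDomain
open scoped Pointwise

namespace H13S

open H55P

/-- fixed points of the Frobenius map -/
theorem in2_fin {k L : Type} [Field k] [Fintype k] [Field L] (i : k →+* L) (y : L)
    (hy : y ^ Fintype.card k = y) : ∃ a : k, i a = y := by
  classical
  set f : Polynomial L := Polynomial.X ^ Fintype.card k - Polynomial.X with hf
  have hf0 : f ≠ 0 := FiniteField.X_pow_card_sub_X_ne_zero L Fintype.one_lt_card
  have hroot : ∀ z : L, z ∈ f.roots.toFinset ↔ z ^ Fintype.card k = z := by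
    intro z
    rw [Multiset.mem_toFinset, Polynomial.mem_roots hf0, Polynomial.IsRoot.def, hf, Polynomial.eval_sub,
      Polynomial.eval_pow, Polynomial.eval_X, sub_eq_zero]
  have hsub : (Finset.univ.image i) ⊆ f.roots.toFinset := by
    intro z hz
    obtain ⟨a, -, rfl⟩ := Finset.mem_image.1 hz
    rw [hroot, ← map_pow, FiniteField.pow_card]
  have hcard : f.roots.toFinset.card ≤ (Finset.univ.image i).card := by
    rw [Finset.card_image_of_injective _ i.injective, Finset.card_univ]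
    calc f.roots.toFinset.card ≤ Multiset.card f.roots := Multiset.toFinset_card_le _
      _ ≤ f.natDegree := Polynomial.card_roots' f
      _ = Fintype.card k := FiniteField.X_pow_card_sub_X_natDegree_eq L Fintype.one_lt_card
  have heq := Finset.eq_of_subset_of_card_le hsub hcard
  have hy' : y ∈ Finset.univ.image i := by
    rw [heq, hroot]
    exact hy
  obtain ⟨a, -, ha⟩ := Finset.mem_image.1 hy'
  exact ⟨a, ha⟩

section general

variable {K : Type} [Field K] [NumberField K] {Ω : Type} [Field Ω] [Algebra K Ω]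

theorem in2_mem (V : ValuationSubring Ω) (z : 𝓞 Ω) : (z : Ω) ∈ V := by
  have h1 : IsIntegral V (z : Ω) := z.isIntegral_coe.tower_top
  obtain ⟨y, hy⟩ := (IsIntegrallyClosed.isIntegral_iff (R := V) (K := Ω)).1 h1
  rw [← hy]
  exact y.2

theorem in2_le (V : ValuationSubring Ω) {x : Ω} (hx : IsIntegral ℤ x) : V.valuation x ≤ 1 :=
  (V.valuation_le_one_iff _).2 (in2_mem V ⟨x, hx⟩)

/-- the map to V -/
noncomputable def in2c (V : ValuationSubring Ω) : 𝓞 Ω →+* V :=
  (algebraMap (𝓞 Ω) Ω).codRestrict V (fun x => in2_mem V x)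

/-- the prime of the algebraic integers below V -/
noncomputable def in2Q (V : ValuationSubring Ω) : Ideal (𝓞 Ω) :=
  (IsLocalRing.maximalIdeal V).comap (in2c V)

theorem in2Q_lt (V : ValuationSubring Ω) (z : 𝓞 Ω) : z ∈ in2Q V ↔ V.valuation (z : Ω) < 1 := by
  unfold in2Q
  rw [Ideal.mem_comap, ValuationSubring.valuation_lt_one_iff]
  rfl

theorem in2Q_prime (V : ValuationSubring Ω) : (in2Q V).IsPrime := by
  unfold in2Q
  infer_instance

theorem in2Q_one (V : ValuationSubring Ω) (z : 𝓞 Ω) : z ∉ in2Q V ↔ V.valuation (z : Ω) = 1 := by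
  rw [in2Q_lt, not_lt]
  have h := (V.valuation_le_one_iff _).2 (in2_mem V z)
  exact ⟨fun h1 => le_antisymm h h1, fun h1 => h1.ge⟩

/-- fractions -/
theorem in2_frac (K : Type) [Field K] [NumberField K] [Algebra K Ω] [Algebra.IsAlgebraic K Ω]
    (V : ValuationSubring Ω) (q : ℕ) (hq : q.Prime) (hV : V.valuation (q : Ω) < 1) (x : Ω)
    (hx : x ∈ V) : ∃ a c : 𝓞 Ω, V.valuation (c : Ω) = 1 ∧ x = (a : Ω) / (c : Ω) := by
  have hint : IsIntegral K x := Algebra.IsIntegral.isIntegral x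
  have hfd : FiniteDimensional K (IntermediateField.adjoin K {x}) :=
    IntermediateField.adjoin.finiteDimensional hint
  obtain ⟨a, c, -, -, ha, hc, hc1, hxac⟩ := H16C.frac_rep (IntermediateField.adjoin K {x}) V q hq hV
    (IntermediateField.mem_adjoin_simple_self K x) ((V.valuation_le_one_iff _).2 hx)
  exact ⟨⟨a, ha⟩, ⟨c, hc⟩, hc1, hxac⟩

theorem in2_inv [IsAlgClosure K Ω] : Algebra.IsInvariant (𝓞 K) (𝓞 Ω) Gal(Ω/K) := by
  have hG : IsGalois K Ω := IsAlgClosure.isGalois K Ω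
  refine ⟨fun x hx => ?_⟩
  have h1 : ∀ g : Gal(Ω/K), g (x : Ω) = x := fun g =>
    congrArg (fun y : 𝓞 Ω => (y : Ω)) (hx g)
  have h2 : (x : Ω) ∈ (⊥ : IntermediateField K Ω) := by
    rw [← InfiniteGalois.fixedField_bot]
    rw [IntermediateField.mem_fixedField_iff]
    intro g _
    exact h1 g
  obtain ⟨y, hy⟩ := IntermediateField.mem_bot.1 h2
  have h3 : IsIntegral ℤ y := by
    have h4 : IsIntegral ℤ (algebraMap K Ω y) := by
      rw [hy]; exact x.isIntegral_coe
    exact (isIntegral_algebraMap_iff (algebraMap K Ω).injective).1 h4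
  refine ⟨⟨y, h3⟩, ?_⟩
  apply RingOfIntegers.coe_injective
  exact hy

theorem in2_dec [Algebra.IsAlgebraic K Ω] (q : ℕ) (hq : q.Prime) (V : ValuationSubring Ω)
    (hV : V.valuation (q : Ω) < 1) (s : Ω ≃ₐ[K] Ω)
    (hs : ∀ z : 𝓞 Ω, ∀ w : 𝓞 Ω, (w : Ω) = s (z : Ω) → (w ∈ in2Q V ↔ z ∈ in2Q V)) (x : Ω)
    (hx : x ∈ V) : s x ∈ V := by
  obtain ⟨a, c, hc, rfl⟩ := in2_frac K V q hq hV x hx
  have hint : ∀ z : 𝓞 Ω, IsIntegral ℤ (s (z : Ω)) := fun z => z.isIntegral_coe.map (s.toAlgHom.restrictScalars ℤ)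
  have h1 : V.valuation (s (c : Ω)) = 1 := by
    have h2 := (hs c ⟨s (c : Ω), hint c⟩ rfl)
    have h3 := (in2Q_one V c).2 hc
    exact (in2Q_one V ⟨s (c : Ω), hint c⟩).1 (fun h4 => h3 (h2.1 h4))
  rw [← V.valuation_le_one_iff, map_div₀ s, map_div₀, h1, div_one]
  exact in2_le V (hint a)

/-- Frobenius elements of infinite extensions. -/
theorem in2_gen [IsAlgClosure K Ω] (q : ℕ) (hq : q.Prime) (V : ValuationSubring Ω)
    (hV : V.valuation (q : Ω) < 1) : ∃ s : Ω ≃ₐ[K] Ω, (∀ x : Ω, s x ∈ V ↔ x ∈ V) ∧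
      ∀ x ∈ V, V.valuation (s x - x ^ Nat.card (𝓞 K ⧸ (in2Q V).comap (algebraMap (𝓞 K) (𝓞 Ω)))) < 1 := by
  classical
  have hac : IsAlgClosed Ω := IsAlgClosure.isAlgClosed K
  have hal : Algebra.IsAlgebraic K Ω := IsAlgClosure.isAlgebraic
  have hG : IsGalois K Ω := IsAlgClosure.isGalois K Ω
  have hc0 : CharZero Ω := charZero_of_injective_algebraMap (algebraMap K Ω).injective
  set Q : Ideal (𝓞 Ω) := in2Q V with hQ
  have hQp : Q.IsPrime := in2Q_prime V
  set P : Ideal (𝓞 K) := Q.comap (algebraMap (𝓞 K) (𝓞 Ω)) with hP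
  have hPp : P.IsPrime := Ideal.IsPrime.comap _
  have hqP : (q : 𝓞 K) ∈ P := by
    rw [hP, Ideal.mem_comap, map_natCast, hQ, in2Q_lt]
    simpa using hV
  have hPb : P ≠ ⊥ := by
    intro h
    rw [h, Ideal.mem_bot] at hqP
    exact hq.ne_zero (by exact_mod_cast hqP)
  have hvm : P.IsMaximal := Ideal.IsPrime.isMaximal hPp hPb
  let _ : Field (𝓞 K ⧸ P) := Ideal.Quotient.field P
  have hfin : Finite (𝓞 K ⧸ P) := Ideal.finiteQuotientOfFreeOfNeBot _ hPb
  let _ : Fintype (𝓞 K ⧸ P) := Fintype.ofFinite _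
  have hlo : Q.LiesOver P := ⟨rfl⟩
  have hinv := in2_inv (K := K) (Ω := Ω)
  have hsc : SMulCommClass Gal(Ω/K) (𝓞 K) (𝓞 Ω) := by
    constructor
    intro g a z
    rw [Algebra.smul_def, Algebra.smul_def, smul_mul']
    congr 1
    apply RingOfIntegers.ext
    exact g.commutes (a : K)
  let _ : TopologicalSpace (𝓞 Ω) := ⊥
  have : DiscreteTopology (𝓞 Ω) := ⟨rfl⟩
  have hcont : ContinuousSMul Gal(Ω/K) (𝓞 Ω) := by
    rw [continuousSMul_iff_stabilizer_isOpen]
    intro z
    have h1 := stabilizer_isOpen_of_isIntegral (K := K) (z : Ω)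
    convert! h1 using 1
    ext g
    simp only [SetLike.mem_coe, MulAction.mem_stabilizer_iff]
    constructor
    · intro h
      exact congrArg (fun y : 𝓞 Ω => (y : Ω)) h
    · intro h
      exact RingOfIntegers.coe_injective h
  have hint : Algebra.IsIntegral (𝓞 K) (𝓞 Ω) := Algebra.IsInvariant.isIntegral_of_profinite (G := Gal(Ω/K))
  have hQm : Q.IsMaximal := Ideal.isMaximal_of_isIntegral_of_isMaximal_comap Q hvm
  let _ : Field (𝓞 Ω ⧸ Q) := Ideal.Quotient.field Q
  have halg : Algebra.IsAlgebraic (𝓞 K ⧸ P) (𝓞 Ω ⧸ Q) := by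
    have : Algebra.IsIntegral (𝓞 K ⧸ P) (𝓞 Ω ⧸ Q) := inferInstance
    infer_instance
  obtain ⟨σ, hσ⟩ := Ideal.Quotient.stabilizerHom_surjective_of_profinite (G := Gal(Ω/K)) P Q
    (FiniteField.frobeniusAlgEquivOfAlgebraic (𝓞 K ⧸ P) (𝓞 Ω ⧸ Q))
  have hσ1 : ∀ z : 𝓞 Ω, (σ : Gal(Ω/K)) • z - z ^ Fintype.card (𝓞 K ⧸ P) ∈ Q := by
    intro z
    rw [← Ideal.Quotient.eq]
    exact DFunLike.congr_fun hσ (Ideal.Quotient.mk Q z)
  set s : Ω ≃ₐ[K] Ω := (σ : Gal(Ω/K)) with hs
  have hsz : ∀ z : 𝓞 Ω, ((((σ : Gal(Ω/K)) • z : 𝓞 Ω)) : Ω) = s (z : Ω) := fun z => rfl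
  have hmem : ∀ (τ : MulAction.stabilizer Gal(Ω/K) Q) (z : 𝓞 Ω), (τ : Gal(Ω/K)) • z ∈ Q ↔ z ∈ Q := by
    rintro ⟨g, hg⟩ z
    have h1 : g • Q = Q := hg
    have h2 : g • z ∈ g • Q ↔ z ∈ Q := Ideal.smul_mem_pointwise_smul_iff
    rwa [h1] at h2
  have hdec1 : ∀ (τ : MulAction.stabilizer Gal(Ω/K) Q) (y : Ω), y ∈ V → (τ : Gal(Ω/K)) y ∈ V := by
    intro τ y hy
    refine in2_dec q hq V hV _ ?_ y hy
    intro z w hw
    have h1 : w = (τ : Gal(Ω/K)) • z := RingOfIntegers.coe_injective hw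
    rw [h1]
    exact hmem τ z
  refine ⟨s, ?_, ?_⟩
  · intro y
    refine ⟨fun h => ?_, hdec1 σ y⟩
    have h1 := hdec1 σ⁻¹ (s y) h
    have h2 : ((σ⁻¹ : MulAction.stabilizer Gal(Ω/K) Q) : Gal(Ω/K)) (s y) = y :=
      (σ : Gal(Ω/K)).symm_apply_apply y
    rwa [h2] at h1
  · intro x hx
    obtain ⟨a, c, hc, hxac⟩ := in2_frac K V q hq hV x hx
    rw [Nat.card_eq_fintype_card]
    set N := Fintype.card (𝓞 K ⧸ P) with hN
    have key : ∀ z : 𝓞 Ω, V.valuation (s (z : Ω) - (z : Ω) ^ N) < 1 := by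
      intro z
      have h1 := (in2Q_lt V _).1 (hσ1 z)
      rw [← hsz z]
      simpa using h1
    have h1 : V.valuation (s (a : Ω) / s (c : Ω) - (a : Ω) ^ N / (c : Ω) ^ N) < 1 := by
      refine H16C.FR_div_congr V (key a) (key c) ?_ ?_
      · rw [map_pow]
        exact pow_le_one' (in2_le V a.isIntegral_coe) _
      · rw [map_pow, hc, one_pow]
    rw [← map_div₀ s, ← div_pow, ← hxac] at h1
    exact h1

end general

/-- a proper valuation ring lies above a prime number -/
theorem in2_prime {Ω : Type} [Field Ω] [CharZero Ω] [Algebra.IsAlgebraic ℤ Ω] (V : ValuationSubring Ω)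
    (hV : V ≠ ⊤) : ∃ q : ℕ, q.Prime ∧ V.valuation (q : Ω) < 1 := by
  obtain ⟨y, hy⟩ : ∃ y : Ω, y ∉ V := by
    by_contra hcon
    apply hV
    rw [eq_top_iff]
    intro y _
    by_contra hy
    exact hcon ⟨y, hy⟩
  have hy1 : 1 < V.valuation y := by
    rw [← not_le, V.valuation_le_one_iff]
    exact hy
  have hy0 : y ≠ 0 := by
    rintro rfl
    exact hy V.zero_mem
  set z : Ω := y⁻¹ with hz
  have hz1 : V.valuation z < 1 := by
    rw [hz, map_inv₀]
    exact inv_lt_one_of_one_lt₀ hy1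
  have hz0 : z ≠ 0 := inv_ne_zero hy0
  have hzV : z ∈ V := (V.valuation_le_one_iff _).1 hz1.le
  obtain ⟨p, hp0, hp⟩ := (Algebra.IsAlgebraic.isAlgebraic (R := ℤ) z).exists_nonzero_coeff_and_aeval_eq_zero
    (mem_nonZeroDivisors_of_ne_zero hz0)
  have h1 : Polynomial.aeval z p.divX * z + ((p.coeff 0 : ℤ) : Ω) = 0 := by
    have h2 := congrArg (Polynomial.aeval z) (Polynomial.divX_mul_X_add p)
    rw [hp, map_add, map_mul, Polynomial.aeval_X, Polynomial.aeval_C] at h2
    simpa using h2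
  have h3 : V.valuation (Polynomial.aeval z p.divX) ≤ 1 := by
    rw [V.valuation_le_one_iff]
    have h4 : Polynomial.aeval z p.divX = ((Polynomial.aeval (⟨z, hzV⟩ : V) p.divX : V) : Ω) := by
      have h5 := Polynomial.aeval_algebraMap_apply Ω (⟨z, hzV⟩ : V) p.divX
      exact h5
    rw [h4]
    exact (Polynomial.aeval (⟨z, hzV⟩ : V) p.divX).2
  have h5 : V.valuation ((p.coeff 0 : ℤ) : Ω) < 1 := by
    have h6 : ((p.coeff 0 : ℤ) : Ω) = -(Polynomial.aeval z p.divX * z) := by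
      rw [← sub_eq_zero, sub_neg_eq_add, add_comm]
      exact h1
    rw [h6, Valuation.map_neg, map_mul]
    exact lt_of_le_of_lt (mul_le_of_le_one_left' h3) hz1
  have h7 : V.valuation (((p.coeff 0).natAbs : ℕ) : Ω) < 1 := by
    rcases Int.natAbs_eq (p.coeff 0) with h | h
    · rw [h] at h5
      simpa using h5
    · rw [h] at h5
      simpa [Valuation.map_neg] using h5
  have key : ∀ n : ℕ, n ≠ 0 → V.valuation (n : Ω) < 1 → ∃ q : ℕ, q.Prime ∧ V.valuation (q : Ω) < 1 := by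
    intro n
    induction n using Nat.recOnMul with
    | zero => intro h; exact absurd rfl h
    | one => intro _ h; simp at h
    | prime p hp => intro _ h; exact ⟨p, hp, h⟩
    | mul a b iha ihb =>
      intro hab h
      have ha : a ≠ 0 := left_ne_zero_of_mul hab
      have hb : b ≠ 0 := right_ne_zero_of_mul hab
      by_contra hcon
      have h8 : ¬ V.valuation (a : Ω) < 1 := fun h9 => hcon (iha ha h9)
      have h9 : ¬ V.valuation (b : Ω) < 1 := fun h9 => hcon (ihb hb h9)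
      rw [Nat.cast_mul, map_mul] at h
      refine absurd h (not_lt.2 ((not_lt.1 h8).trans ?_))
      exact le_mul_of_one_le_right' (not_lt.1 h9)
  exact key _ (Int.natAbs_ne_zero.2 hp0) h7

/-- Chunk IN2 (M/L). The residue field of the decomposition field. Notation of IN1 with K in place of N: B = all
algebraic integers of Ω, A = integers of K, G = Gal(Ω/K), Wb = {x in B : V.valuation x < 1}. If V = ⊤ then T is fixed by all of
G (Dec is trivial), so T lies in K; T need not be an integer, but then V.valuation (T - a) < 1 means T = a; so this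
case is excluded by the hypothesis hV (V lies above a prime). T = b/d with b, d in B, d not in Wb (see IN1), and B/Wb is a field (algebraic over
the finite field A/(Wb ∩ A)), so there is b' in B with V.valuation (T - b') < 1. Every automorphism of B/Wb over A/(Wb ∩ A) comes from some
s in G with s Wb = Wb (Ideal.Quotient.stabilizerHom_surjective_of_profinite), that is from s with Dec V s; s T = T, so the class of b' is
invariant under all automorphisms of B/Wb over the finite field A/(Wb ∩ A); an algebraic extension of a finite field is Galois, so the class of b' is the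
class of some a in A. -/
theorem residue_fixed {F₀ : Type} [Field F₀] [NumberField F₀] {Ω : Type} [Field Ω] [Algebra F₀ Ω]
    [IsAlgClosure F₀ Ω] (K : IntermediateField F₀ Ω) [NumberField K] (V : ValuationSubring Ω) (hV : V ≠ ⊤)
    (T : Ω) (hT : T ∈ V) (h : ∀ s ∈ K.fixingSubgroup, Dec V s → s T = T) :
    ∃ a : 𝓞 K, V.valuation (T - ((a : K) : Ω)) < 1 := by
  classical
  have hac : IsAlgClosed Ω := IsAlgClosure.isAlgClosed F₀
  have hal0 : Algebra.IsAlgebraic F₀ Ω := IsAlgClosure.isAlgebraic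
  have hc0 : CharZero Ω := charZero_of_injective_algebraMap (algebraMap F₀ Ω).injective
  have hal : Algebra.IsAlgebraic K Ω := Algebra.IsAlgebraic.tower_top (K := F₀) K
  have hcl : IsAlgClosure K Ω := ⟨inferInstance, hal⟩
  have halQ : Algebra.IsAlgebraic ℚ Ω := Algebra.IsAlgebraic.trans ℚ F₀ Ω
  have halZ : Algebra.IsAlgebraic ℤ Ω := (IsFractionRing.comap_isAlgebraic_iff (K := ℚ)).2 halQ
  obtain ⟨q, hq, hVq⟩ := in2_prime V hV
  obtain ⟨s, hs1, hs2⟩ := in2_gen (K := K) q hq V hVq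
  have hfix : s T = T := h (s.restrictScalars F₀) (fun y => s.commutes y) hs1
  have hQp : (in2Q V).IsPrime := in2Q_prime V
  set P : Ideal (𝓞 K) := (in2Q V).comap (algebraMap (𝓞 K) (𝓞 Ω)) with hP
  have hPp : P.IsPrime := Ideal.IsPrime.comap _
  have hqP : (q : 𝓞 K) ∈ P := by
    rw [hP, Ideal.mem_comap, map_natCast, in2Q_lt]
    simpa using hVq
  have hPb : P ≠ ⊥ := by
    intro h
    rw [h, Ideal.mem_bot] at hqP
    exact hq.ne_zero (by exact_mod_cast hqP)
  have hvm : P.IsMaximal := Ideal.IsPrime.isMaximal hPp hPb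
  let _ : Field (𝓞 K ⧸ P) := Ideal.Quotient.field P
  have hfin : Finite (𝓞 K ⧸ P) := Ideal.finiteQuotientOfFreeOfNeBot _ hPb
  let _ : Fintype (𝓞 K ⧸ P) := Fintype.ofFinite _
  have hxN := hs2 T hT
  rw [hfix, Nat.card_eq_fintype_card] at hxN
  let i : (𝓞 K ⧸ P) →+* IsLocalRing.ResidueField V :=
    Ideal.Quotient.lift P ((IsLocalRing.residue V).comp ((in2c V).comp (algebraMap (𝓞 K) (𝓞 Ω)))) (by
      intro z hz
      rw [RingHom.comp_apply, IsLocalRing.residue_eq_zero_iff, ValuationSubring.valuation_lt_one_iff]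
      exact (in2Q_lt V _).1 hz)
  obtain ⟨y, hy⟩ := in2_fin i (IsLocalRing.residue V ⟨T, hT⟩) (by
    rw [← map_pow, ← sub_eq_zero, ← map_sub, IsLocalRing.residue_eq_zero_iff,
      ValuationSubring.valuation_lt_one_iff]
    rw [← Valuation.map_neg]
    have h1 : -(((⟨T, hT⟩ : V) ^ Fintype.card (𝓞 K ⧸ P) - ⟨T, hT⟩ : V) : Ω) =
        T - T ^ Fintype.card (𝓞 K ⧸ P) := by
      push_cast
      ring
    rw [h1]
    exact hxN)
  obtain ⟨b, rfl⟩ := Ideal.Quotient.mk_surjective y
  refine ⟨b, ?_⟩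
  have h1 : IsLocalRing.residue V (in2c V (algebraMap (𝓞 K) (𝓞 Ω) b)) = IsLocalRing.residue V ⟨T, hT⟩ := hy
  rw [eq_comm, ← sub_eq_zero, ← map_sub, IsLocalRing.residue_eq_zero_iff,
    ValuationSubring.valuation_lt_one_iff] at h1
  exact h1

end H13S
end

-- from Lib.H13S.FR
section

open NumberField IsDedekindDomain
open scoped Pointwise

namespace H13S

open H55P H28G H55B



/-- Chunk FR (M). Frobenius elements. B = all algebraic integers of Ω, A = 𝓞 F₀, G = Gal(Ω/F₀), Wb = {x in B :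
V.valuation x < 1}, Wb ∩ A = v. B/Wb is an algebraic extension of the finite field A/v; x -> x^q (q = card A/v) is an
automorphism of it over A/v (surjective: every element lies in a finite field). Ideal.Quotient.stabilizerHom_surjective_of_profinite
gives s in G with s Wb = Wb inducing it. Every x in V is b/d with b, d in B, d not in Wb, so s x = s b/s d is congruent to b^q/d^q. Dec V s:
x = b/d in V iff ... (s d not in Wb). -/
theorem exists_frob {F₀ : Type} [Field F₀] [NumberField F₀] {Ω : Type} [Field Ω] [Algebra F₀ Ω]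
    [IsAlgClosure F₀ Ω] (v : HeightOneSpectrum (𝓞 F₀)) (V : ValuationSubring Ω)
    (hv : ∀ a : 𝓞 F₀, a ∈ v.asIdeal → V.valuation (algebraMap F₀ Ω (a : F₀)) < 1) :
    ∃ s : Ω ≃ₐ[F₀] Ω, Dec V s ∧ ∀ x ∈ V, V.valuation (s x - x ^ Ideal.absNorm v.asIdeal) < 1 := by
  have hvm := v.isMaximal
  let _ : Field (𝓞 F₀ ⧸ v.asIdeal) := Ideal.Quotient.field v.asIdeal
  have hfin : Finite (𝓞 F₀ ⧸ v.asIdeal) := Ideal.finiteQuotientOfFreeOfNeBot _ v.ne_bot
  obtain ⟨q, hqc⟩ := CharP.exists (𝓞 F₀ ⧸ v.asIdeal)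
  have hq : q.Prime := by
    rcases CharP.char_is_prime_or_zero (𝓞 F₀ ⧸ v.asIdeal) q with h | h
    · exact h
    · exact absurd h (CharP.char_ne_zero_of_finite (𝓞 F₀ ⧸ v.asIdeal) q)
  have hqv : (q : 𝓞 F₀) ∈ v.asIdeal := by
    rw [← Ideal.Quotient.eq_zero_iff_mem, map_natCast]
    exact CharP.cast_eq_zero _ q
  have hV : V.valuation (q : Ω) < 1 := by
    have h1 := hv (q : 𝓞 F₀) hqv
    simpa using h1
  obtain ⟨s, hs1, hs2⟩ := in2_gen (K := F₀) q hq V hV
  refine ⟨s, hs1, ?_⟩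
  have h1 : v.asIdeal = (in2Q V).comap (algebraMap (𝓞 F₀) (𝓞 Ω)) := by
    have h2 : (in2Q V).IsPrime := in2Q_prime V
    apply hvm.eq_of_le (Ideal.IsPrime.ne_top (Ideal.IsPrime.comap _))
    intro z hz
    rw [Ideal.mem_comap, in2Q_lt]
    exact hv z hz
  rw [← h1] at hs2
  have h3 : Ideal.absNorm v.asIdeal = Nat.card (𝓞 F₀ ⧸ v.asIdeal) := rfl
  rw [h3]
  exact hs2

end H13S
end

-- from Lib.H55P.S13
section

open NumberField IsDedekindDomain WeierstrassCurve

namespace H55P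

/-- Ramification index different from 1: the image of v is in the square. -/
theorem s13_le_sq {A B : Type} [Field A] [NumberField A] [Field B] [NumberField B] [Algebra A B]
    (v : Ideal (𝓞 A)) (hv : v ≠ ⊥) (W : Ideal (𝓞 B)) [W.IsPrime] [W.LiesOver v]
    (h : W.ramificationIdx (𝓞 A) ≠ 1) (x : 𝓞 A) (hx : x ∈ v) :
    algebraMap (𝓞 A) (𝓞 B) x ∈ W ^ 2 := by
  have h1 : 0 < W.ramificationIdx (𝓞 A) := Ideal.ramificationIdx_pos W (𝓞 A)
  have h2 : 2 ≤ v.ramificationIdx' W := by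
    rw [Ideal.ramificationIdx'_eq_ramificationIdx v W hv]
    omega
  exact (Ideal.le_pow_of_le_ramificationIdx' h2) (Ideal.mem_map_of_mem _ hx)

theorem s13_inertia (p : ℕ) (hp : p.Prime) {M L : Type} [Field M] [NumberField M] [Field L]
    [NumberField L] [Algebra M L] [IsGalois M L] (k : ℕ) (hk : Module.finrank M L = p ^ k)
    (W : Ideal (𝓞 L)) [W.IsPrime] (hW : W ≠ ⊥) : ∃ j : ℕ, W.inertiaDeg (𝓞 M) = p ^ j := by
  have hl : W.LiesOver (W.under (𝓞 M)) := ⟨rfl⟩
  have hne : W.under (𝓞 M) ≠ ⊥ := fun h => hW (Ideal.eq_bot_of_comap_eq_bot (R := 𝓞 M) (I := W) h)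
  have hp' : (W.under (𝓞 M)).IsPrime := inferInstance
  have hmax : (W.under (𝓞 M)).IsMaximal := hp'.isMaximal hne
  have h1 := Ideal.ncard_primesOver_mul_ramificationIdxIn_mul_inertiaDegIn (W.under (𝓞 M)) (𝓞 L)
    Gal(L/M)
  rw [IsGalois.card_aut_eq_finrank, hk,
    Ideal.inertiaDegIn_eq_inertiaDeg (W.under (𝓞 M)) W Gal(L/M)] at h1
  have h2 : W.inertiaDeg (𝓞 M) ∣ p ^ k := by
    rw [← h1]
    exact Dvd.intro_left _ (by rw [← mul_assoc])
  obtain ⟨j, _, hj⟩ := (Nat.dvd_prime_pow hp).1 h2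
  exact ⟨j, hj⟩

theorem s13_down (p : ℕ) (hp : p.Prime) {M N K L : Type} [Field M] [NumberField M] [Field N]
    [NumberField N] [Field K] [NumberField K] [Field L] [NumberField L] [Algebra M N] [Algebra N K]
    [Algebra K L] [Algebra M L] [Algebra N L] [IsScalarTower M N L] [IsScalarTower N K L]
    [IsGalois N K] [IsGalois M L] (k : ℕ) (hk : Module.finrank M L = p ^ k)
    (w : HeightOneSpectrum (𝓞 N)) (h : w.asIdeal.ramificationIdxIn (𝓞 K) ≠ 1) :
    ∃ v : HeightOneSpectrum (𝓞 M), w.asIdeal.under (𝓞 M) = v.asIdeal ∧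
      (∃ W : Ideal (𝓞 L), W.IsPrime ∧ ∀ x ∈ v.asIdeal, algebraMap (𝓞 M) (𝓞 L) x ∈ W ^ 2) ∧
      ∃ j : ℕ, w.asIdeal.inertiaDeg (𝓞 M) = p ^ j := by
  have hwm := w.isMaximal
  obtain ⟨Q, hQ1, hQ2⟩ := Ideal.exists_maximal_ideal_liesOver_of_isIntegral (S := 𝓞 K) w.asIdeal
  obtain ⟨W, hW1, hW2⟩ := Ideal.exists_maximal_ideal_liesOver_of_isIntegral (S := 𝓞 L) Q
  have hQp := hQ1.isPrime
  have hWp := hW1.isPrime
  have hQb : Q ≠ ⊥ := Ideal.ne_bot_of_liesOver_of_ne_bot w.ne_bot Q
  have hWb : W ≠ ⊥ := Ideal.ne_bot_of_liesOver_of_ne_bot hQb W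
  have hWw : W.LiesOver w.asIdeal := Ideal.LiesOver.trans W Q w.asIdeal
  have hvb : w.asIdeal.under (𝓞 M) ≠ ⊥ := fun h0 =>
    w.ne_bot (Ideal.eq_bot_of_comap_eq_bot (R := 𝓞 M) (I := w.asIdeal) h0)
  have hvp : (w.asIdeal.under (𝓞 M)).IsPrime := inferInstance
  refine ⟨⟨w.asIdeal.under (𝓞 M), hvp, hvb⟩, rfl, ⟨W, hWp, ?_⟩, ?_⟩
  · intro x hx
    have h1 : algebraMap (𝓞 M) (𝓞 N) x ∈ w.asIdeal := hx
    rw [Ideal.ramificationIdxIn_eq_ramificationIdx w.asIdeal Q Gal(K/N)] at h
    have h2 := s13_le_sq w.asIdeal w.ne_bot Q h _ h1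
    have h3 : algebraMap (𝓞 K) (𝓞 L) (algebraMap (𝓞 N) (𝓞 K) (algebraMap (𝓞 M) (𝓞 N) x)) ∈ W ^ 2 := by
      have h4 : (Q ^ 2).map (algebraMap (𝓞 K) (𝓞 L)) ≤ W ^ 2 := by
        rw [Ideal.map_pow]
        exact Ideal.pow_right_mono (Ideal.map_le_of_le_comap hW2.over.le) 2
      exact h4 (Ideal.mem_map_of_mem _ h2)
    have h5 : algebraMap (𝓞 M) (𝓞 L) x =
        algebraMap (𝓞 K) (𝓞 L) (algebraMap (𝓞 N) (𝓞 K) (algebraMap (𝓞 M) (𝓞 N) x)) := by
      apply RingOfIntegers.ext
      show algebraMap M L (x : M) = algebraMap K L (algebraMap N K (algebraMap M N (x : M)))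
      rw [← IsScalarTower.algebraMap_apply N K L, ← IsScalarTower.algebraMap_apply M N L]
    rw [h5]
    exact h3
  · obtain ⟨j, hj⟩ := s13_inertia p hp k hk W hWb
    have h2 := Ideal.inertiaDeg_tower (R := 𝓞 M) w.asIdeal W
    have h3 : w.asIdeal.inertiaDeg (𝓞 M) ∣ p ^ j := by
      rw [← hj, h2]
      exact dvd_mul_right _ _
    obtain ⟨i, -, hi⟩ := (Nat.dvd_prime_pow hp).1 h3
    exact ⟨i, hi⟩

variable {F : Type} [Field F] [NumberField F] {Ω : Type} [Field Ω] [DecidableEq Ω] [Algebra F Ω]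
  [IsAlgClosed Ω] [Algebra.IsAlgebraic F Ω] [CharZero Ω]

/-! Chunk PS13 (M). Ramification.
below_cases: the ideal of the x in 𝓞 M with V.valuation x < 1 is prime (plc in Lib/H16C/FR1.lean); if it is zero then all nonzero elements of M (quotients of integers) have value 1, and V contains every element of Ω (x algebraic over M, coefficients in V: V is
integrally closed, x is integral over M), so value < 1 means 0 and Inert V s gives s x = x for all x.
inert_mem: if there is no v below V: trivial case. Otherwise L/M is Galois (FR_galois), W = the ideal of the x in 𝓞 L with V.valuation x < 1, above v. The restriction of s to L is in the inertia group of W (Ideal.inertia, mem_inertia: s x - x in W for x in 𝓞 L) for Gal(L/M) acting on 𝓞 L, of order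
the ramification index (Ideal.card_inertia_eq_ramificationIdxIn), which is 1: by hunr the image of v is not contained in W^2 (Ram), and ramificationIdx >= 2 would give it (Ideal.le_pow_ramificationIdx). So s is trivial on L.
ram_down: es N K w <> 1: by the Galois case all primes of K above w have ramification index >= 2 over w: W' in K with w 𝓞 K contained in W'^2; take a prime W of L above W'; x in v = w ∩ M is mapped into W^2. Inertia degree: inertiaDeg(W over v) is a power of p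
(IsGalois M L of degree p^k: Ideal.ncard_primesOver_mul_ramificationIdxIn_mul_inertiaDegIn, see inertia_pow3 in Lib/H19T/A9a.lean) and inertiaDeg(w over v) divides it (Ideal.inertiaDeg_algebra_tower). -/

/-- The algebra structure given by the inclusion. -/
@[reducible] noncomputable def s13_alg {A B : IntermediateField F Ω} (h : A ≤ B) : Algebra A B :=
  (IntermediateField.inclusion h).toRingHom.toAlgebra

omit [DecidableEq Ω] in
theorem s13_galois (A B : IntermediateField F Ω) (h : A ≤ B) [FiniteDimensional F B]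
    (hst : ∀ g ∈ A.fixingSubgroup, ∀ x ∈ B, g x ∈ B) :
    letI := s13_alg h
    IsGalois A B := by
  let _ := s13_alg h
  have h1 := H16C.FR_galois A B h hst
  let e : (IntermediateField.extendScalars h) ≃+* B :=
    { toFun := fun x => ⟨x.1, (IntermediateField.mem_extendScalars h).1 x.2⟩
      invFun := fun x => ⟨x.1, (IntermediateField.mem_extendScalars h).2 x.2⟩
      left_inv := fun x => rfl
      right_inv := fun x => rfl
      map_mul' := fun x y => rfl
      map_add' := fun x y => rfl }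
  exact IsGalois.of_algEquiv (AlgEquiv.ofRingEquiv (f := e) (fun x => rfl))

omit [NumberField F] [DecidableEq Ω] [IsAlgClosed Ω] [Algebra.IsAlgebraic F Ω] [CharZero Ω] in
theorem s13_fin {A B : IntermediateField F Ω} (h : A ≤ B) [FiniteDimensional F B] :
    FiniteDimensional F A :=
  FiniteDimensional.of_injective (IntermediateField.inclusion h).toLinearMap
    (IntermediateField.inclusion_injective h)

omit [DecidableEq Ω] [IsAlgClosed Ω] in
theorem s13_top (M : IntermediateField F Ω) [FiniteDimensional F M] (V : ValuationSubring Ω)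
    (h : ∀ z : 𝓞 M, z ≠ 0 → V.valuation ((z : M) : Ω) = 1) (x : Ω) : x ∈ V := by
  have hMn : NumberField M := H16C.FR_numberField M
  have hM : ∀ y : M, (y : Ω) ∈ V := by
    intro y
    obtain ⟨a, b, hb, hab⟩ := IsFractionRing.div_surjective (A := 𝓞 M) y
    have hb0 : b ≠ 0 := nonZeroDivisors.ne_zero hb
    have hbv := h b hb0
    have hav : V.valuation ((a : M) : Ω) ≤ 1 := H16C.FR_le_one V (H16C.FR_isIntegral M a)
    have hy : (y : Ω) = ((a : M) : Ω) / ((b : M) : Ω) := by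
      rw [← hab]
      rfl
    rw [← ValuationSubring.valuation_le_one_iff, hy, map_div₀, hbv, div_one]
    exact hav
  have halg : IsAlgebraic M x := Algebra.IsAlgebraic.isAlgebraic (R := M) x
  have hint : IsIntegral M x := halg.isIntegral
  obtain ⟨f, hf, hfx⟩ := hint
  let g : M →+* V :=
    { toFun := fun y => ⟨(y : Ω), hM y⟩
      map_one' := rfl
      map_mul' := fun a b => rfl
      map_zero' := rfl
      map_add' := fun a b => rfl }
  have hintV : IsIntegral V x := by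
    refine ⟨f.map g, hf.map g, ?_⟩
    rw [Polynomial.eval₂_map]
    exact hfx
  obtain ⟨y, hy⟩ := (IsIntegrallyClosed.isIntegral_iff (R := V) (K := Ω)).1 hintV
  rw [← hy]
  exact y.2

theorem below_cases (M : IntermediateField F Ω) [FiniteDimensional F M] (V : ValuationSubring Ω) :
    (∃ v : HeightOneSpectrum (𝓞 M), Below V M v.asIdeal) ∨ ∀ s : Ω ≃ₐ[F] Ω, Inert V s → s = 1 := by
  by_cases h : H16C.plc M V = ⊥
  · right
    have h1 : ∀ z : 𝓞 M, z ≠ 0 → V.valuation ((z : M) : Ω) = 1 := by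
      intro z hz
      apply H16C.not_mem_plc.1
      rw [h, Ideal.mem_bot]
      exact hz
    have htop := s13_top M V h1
    have hval : ∀ x : Ω, V.valuation x < 1 → x = 0 := by
      intro x hx
      by_contra hx0
      have h2 := (V.valuation_le_one_iff x⁻¹).2 (htop x⁻¹)
      rw [map_inv₀] at h2
      have h3 : V.valuation x ≠ 0 := (Valuation.ne_zero_iff _).2 hx0
      have h4 : 1 < (V.valuation x)⁻¹ := (one_lt_inv₀ (zero_lt_iff.2 h3)).2 hx
      exact absurd (lt_of_lt_of_le h4 h2) (lt_irrefl _)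
    intro s hs
    apply AlgEquiv.ext
    intro x
    exact sub_eq_zero.1 (hval _ (hs x (htop x)))
  · left
    exact ⟨⟨H16C.plc M V, inferInstance, h⟩, fun x => Iff.rfl⟩

theorem inert_mem (M L : IntermediateField F Ω) [FiniteDimensional F L] (hML : M ≤ L)
    (hnorm : ∀ s ∈ M.fixingSubgroup, ∀ x ∈ L, s x ∈ L) (V : ValuationSubring Ω)
    (hunr : ∀ v : HeightOneSpectrum (𝓞 M), Below V M v.asIdeal → ¬ Ram M L v.asIdeal) :
    ∀ s ∈ M.fixingSubgroup, Inert V s → s ∈ L.fixingSubgroup := by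
  intro s hs hin
  have hMf : FiniteDimensional F M := s13_fin hML
  rcases below_cases M V with ⟨v, hv⟩ | h
  · have hMn : NumberField M := H16C.FR_numberField M
    have hLn : NumberField L := H16C.FR_numberField L
    let _ := s13_alg hML
    have hgal : IsGalois M L := s13_galois M L hML hnorm
    have hvm := v.isMaximal
    have hvp := v.isPrime
    have hl : (H16C.plc L V).LiesOver v.asIdeal := by
      constructor
      ext x
      rw [hv x]
      rfl
    have hidx : v.asIdeal.ramificationIdxIn (𝓞 L) = 1 := by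
      by_contra hcon
      rw [Ideal.ramificationIdxIn_eq_ramificationIdx v.asIdeal (H16C.plc L V) Gal(L/M)] at hcon
      apply hunr v hv
      refine ⟨H16C.plc L V, inferInstance, fun x y hx hxy => ?_⟩
      have h1 := s13_le_sq v.asIdeal v.ne_bot (H16C.plc L V) hcon x hx
      have h2 : y = algebraMap (𝓞 M) (𝓞 L) x := by
        apply RingOfIntegers.ext
        apply Subtype.ext
        exact hxy
      rw [h2]
      exact h1
    have hcard := Ideal.card_inertia_eq_ramificationIdxIn (G := Gal(L/M)) v.asIdeal (H16C.plc L V)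
    rw [hidx] at hcard
    have hbot := Subgroup.card_eq_one.1 hcard
    let e : L ≃+* L :=
      { toFun := fun x => ⟨s x.1, hnorm s hs x.1 x.2⟩
        invFun := fun x => ⟨s⁻¹ x.1, hnorm s⁻¹ (inv_mem hs) x.1 x.2⟩
        left_inv := fun x => Subtype.ext (s.symm_apply_apply x.1)
        right_inv := fun x => Subtype.ext (s.apply_symm_apply x.1)
        map_mul' := fun x y => Subtype.ext (map_mul s x.1 y.1)
        map_add' := fun x y => Subtype.ext (map_add s x.1 y.1) }
    let t : Gal(L/M) := AlgEquiv.ofRingEquiv (f := e) (fun x => Subtype.ext (hs x))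
    have ht : t ∈ (H16C.plc L V).inertia Gal(L/M) := by
      intro x
      show V.valuation (s ((x : L) : Ω) - ((x : L) : Ω)) < 1
      apply hin
      rw [← ValuationSubring.valuation_le_one_iff]
      exact H16C.FR_le_one V (H16C.FR_isIntegral L x)
    rw [hbot, Subgroup.mem_bot] at ht
    intro x
    have h3 := DFunLike.congr_fun ht x
    exact congrArg Subtype.val h3
  · rw [h s hin]
    exact one_mem _

theorem ram_down (p : ℕ) (hp : p.Prime) (M N K L : IntermediateField F Ω) (hL : PExt p M L)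
    [NumberField M] [NumberField N] [NumberField K] (hMN : M ≤ N) (hNK : N ≤ K) (hKL : K ≤ L)
    (hnorm : ∀ s ∈ N.fixingSubgroup, ∀ x ∈ K, s x ∈ K) :
    letI : Algebra N K := (IntermediateField.inclusion hNK).toRingHom.toAlgebra
    letI : Algebra M N := (IntermediateField.inclusion hMN).toRingHom.toAlgebra
    ∀ w : HeightOneSpectrum (𝓞 N), H55R.es N K w ≠ 1 → ∃ v : HeightOneSpectrum (𝓞 M),
      w.asIdeal.under (𝓞 M) = v.asIdeal ∧ Ram M L v.asIdeal ∧
        ∃ j : ℕ, w.asIdeal.inertiaDeg (𝓞 M) = p ^ j := by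
  let _ : Algebra N K := (IntermediateField.inclusion hNK).toRingHom.toAlgebra
  let _ : Algebra M N := (IntermediateField.inclusion hMN).toRingHom.toAlgebra
  let _ : Algebra K L := s13_alg hKL
  let _ : Algebra M L := s13_alg (hMN.trans (hNK.trans hKL))
  let _ : Algebra N L := s13_alg (hNK.trans hKL)
  have hLf := hL.fin
  have hLn : NumberField L := H16C.FR_numberField L
  have hKf : FiniteDimensional F K := s13_fin hKL
  have hMf : FiniteDimensional F M := s13_fin (hMN.trans (hNK.trans hKL))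
  have t1 : IsScalarTower M N L := IsScalarTower.of_algebraMap_eq fun x => rfl
  have t2 : IsScalarTower N K L := IsScalarTower.of_algebraMap_eq fun x => rfl
  have g1 : IsGalois N K := s13_galois N K hNK hnorm
  have g2 : IsGalois M L := s13_galois M L (hMN.trans (hNK.trans hKL)) hL.norm
  obtain ⟨k, hk⟩ := hL.deg
  have t3 : IsScalarTower F M L := IsScalarTower.of_algebraMap_eq fun x => rfl
  have hk' : Module.finrank M L = p ^ k := by
    have h1 := Module.finrank_mul_finrank F M L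
    rw [hk] at h1
    exact Nat.eq_of_mul_eq_mul_left Module.finrank_pos h1
  intro w hw
  obtain ⟨v, hv, ⟨W, hW1, hW2⟩, hj⟩ := s13_down p hp (M := M) (N := N) (K := K) (L := L) k hk' w hw
  refine ⟨v, hv, ⟨W, hW1, fun x y hx hxy => ?_⟩, hj⟩
  have h2 : y = algebraMap (𝓞 M) (𝓞 L) x := by
    apply RingOfIntegers.ext
    apply Subtype.ext
    exact hxy
  rw [h2]
  exact hW2 x hx

end H55P
end

-- from Lib.H55P.T11
section

open NumberField IsDedekindDomain

namespace H55P

open H55N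
open H55B (g)



/-! Chunk PT11 (M). Tame ramification in a cyclic extension of prime degree p.
PROOF. v is ramified, not above p. e = p, f = 1, one prime W above v; every s in G = Gal(K'/K) fixes W and acts trivially on O'/W (f = 1: O/v -> O'/W is surjective; or inertia group = G as its order is e). Choose Π in W not in W^2. For s in G: s Π in W.
The quotient W/W^2 is a one-dimensional vector space over k = O'/W; s acts on it k-linearly (s(a x) = s(a) s(x), s(a) = a mod W), by a scalar θ(s) in k^*: s Π = a_s Π mod W^2; θ is a homomorphism from G to k^*. θ is not trivial: otherwise the sum over s in G of s Π, an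
element y of 𝓞 K (Algebra.trace / fixed), is p Π modulo W^2, and p is not in W, so y is in W and not in W^2; but y in 𝓞 K and y in W give y in v, and v O' = W^p <= W^2 (p >= 2), contradiction. G has prime order p, so θ is injective, so p divides #k^* = absNorm W - 1 = absNorm v - 1
(absNorm W = absNorm v^f, f = 1). To avoid W/W^2 one may work with a_s directly: choose a_s in O' with s Π - a_s Π in W^2 (Π generates W modulo W^2: W = (Π) + W^2). -/

section aux

variable {K K' : Type} [Field K] [NumberField K] [Field K'] [NumberField K'] [Algebra K K']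
    [IsGalois K K']

open scoped Pointwise

/-- if v is totally ramified, the elements of the Galois group fix the prime above v -/
theorem pt11_stab {v : H55R.Pl K} {W : H55R.Pl K'} (hW : W.under (𝓞 K) = v)
    (h1 : (v.asIdeal.primesOver (𝓞 K')).ncard = 1) (σ : Gal(K'/K)) :
    σ • W.asIdeal = W.asIdeal := by
  obtain ⟨Q, hQ⟩ := Set.ncard_eq_one.mp h1
  have h2 := H55R.BF2_mem v W hW
  have h3 := H55R.BF2_mem v (H55R.smulP σ W) (by rw [H55R.under_smulP, hW])
  rw [hQ, Set.mem_singleton_iff] at h2 h3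
  exact (show σ • W.asIdeal = Q from h3).trans h2.symm

omit [IsGalois K K'] in
theorem pt11_mem {W : H55R.Pl K'} {σ : Gal(K'/K)} (hσ : σ • W.asIdeal = W.asIdeal) {x : 𝓞 K'}
    (hx : x ∈ W.asIdeal) : σ • x ∈ W.asIdeal := by
  rw [← hσ]
  exact Ideal.smul_mem_pointwise_smul σ x W.asIdeal hx

omit [IsGalois K K'] in
theorem pt11_mem2 {W : H55R.Pl K'} {σ : Gal(K'/K)} (hσ : σ • W.asIdeal = W.asIdeal) {x : 𝓞 K'}
    (hx : x ∈ W.asIdeal ^ 2) : σ • x ∈ W.asIdeal ^ 2 := by
  have h1 : W.asIdeal ^ 2 ≤ (W.asIdeal ^ 2).comap (MulSemiringAction.toRingHom Gal(K'/K) (𝓞 K') σ) := by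
    rw [pow_two, Ideal.mul_le]
    intro a ha b hb
    rw [Ideal.mem_comap, map_mul]
    exact Ideal.mul_mem_mul (pt11_mem hσ ha) (pt11_mem hσ hb)
  exact h1 hx

end aux

open scoped Pointwise

theorem tame_dvd (K K' : Type) [Field K] [NumberField K] [Field K'] [NumberField K'] [Algebra K K']
    [IsGalois K K'] (p : ℕ) (hp : p.Prime) (hn : Module.finrank K K' = p) (v : H55R.Pl K)
    (hv : (p : 𝓞 K) ∉ v.asIdeal) (he : H55R.es K K' v ≠ 1) : p ∣ Ideal.absNorm v.asIdeal - 1 := by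
  by_contra hnd
  have hvp := v.isPrime
  have hvm := v.isMaximal
  obtain ⟨W, hW⟩ := H55R.under_exists (L := K') v
  have hWp := W.isPrime
  have hWm := W.isMaximal
  have hl : W.asIdeal.LiesOver v.asIdeal := (H55R.BF2_mem v W hW).2
  have hcard := Ideal.ncard_primesOver_mul_ramificationIdxIn_mul_inertiaDegIn v.asIdeal (𝓞 K')
    Gal(K'/K)
  rw [IsGalois.card_aut_eq_finrank, hn] at hcard
  have hes : v.asIdeal.ramificationIdxIn (𝓞 K') = p := by
    have h1 : v.asIdeal.ramificationIdxIn (𝓞 K') ∣ p :=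
      ⟨(v.asIdeal.primesOver (𝓞 K')).ncard * v.asIdeal.inertiaDegIn (𝓞 K'),
        hcard.symm.trans (by ring)⟩
    rcases (Nat.dvd_prime hp).1 h1 with h | h
    · exact absurd h he
    · exact h
  rw [hes] at hcard
  have hmul : (v.asIdeal.primesOver (𝓞 K')).ncard * v.asIdeal.inertiaDegIn (𝓞 K') = 1 := by
    apply Nat.eq_of_mul_eq_mul_left hp.pos
    rw [mul_one]
    conv_rhs => rw [← hcard]
    ring
  have hnc : (v.asIdeal.primesOver (𝓞 K')).ncard = 1 := Nat.eq_one_of_mul_eq_one_right hmul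
  have hf : v.asIdeal.inertiaDegIn (𝓞 K') = 1 := Nat.eq_one_of_mul_eq_one_left hmul
  have hst : ∀ σ : Gal(K'/K), σ • W.asIdeal = W.asIdeal := pt11_stab hW hnc
  -- the residue fields
  rw [Ideal.inertiaDegIn_eq_inertiaDeg v.asIdeal W.asIdeal Gal(K'/K),
    Ideal.inertiaDeg_eq_of_isMaximal v.asIdeal W.asIdeal] at hf
  let i1 : Field (𝓞 K ⧸ v.asIdeal) := Ideal.Quotient.field _
  let i2 : Field (𝓞 K' ⧸ W.asIdeal) := Ideal.Quotient.field _
  have hsurj : ∀ x : 𝓞 K', ∃ a : 𝓞 K, x - algebraMap (𝓞 K) (𝓞 K') a ∈ W.asIdeal := by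
    intro x
    obtain ⟨c, hc⟩ := (finrank_eq_one_iff_of_nonzero' (1 : 𝓞 K' ⧸ W.asIdeal) one_ne_zero).1 hf
      (Ideal.Quotient.mk W.asIdeal x)
    obtain ⟨a, rfl⟩ := Ideal.Quotient.mk_surjective c
    refine ⟨a, ?_⟩
    rw [← Ideal.Quotient.eq, ← hc, Algebra.smul_def, mul_one]
    rfl
  have htriv : ∀ (σ : Gal(K'/K)) (x : 𝓞 K'), σ • x - x ∈ W.asIdeal := by
    intro σ x
    obtain ⟨a, ha⟩ := hsurj x
    have h1 := pt11_mem (hst σ) ha
    have h2 : σ • algebraMap (𝓞 K) (𝓞 K') a = algebraMap (𝓞 K) (𝓞 K') a := by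
      apply RingOfIntegers.ext
      exact σ.commutes (a : K)
    rw [smul_sub, h2] at h1
    have h3 : σ • x - x = (σ • x - algebraMap (𝓞 K) (𝓞 K') a) - (x - algebraMap (𝓞 K) (𝓞 K') a) := by
      ring
    rw [h3]
    exact W.asIdeal.sub_mem h1 ha
  have hfin : Finite (𝓞 K' ⧸ W.asIdeal) := Ideal.finiteQuotientOfFreeOfNeBot W.asIdeal W.ne_bot
  have hcards : Nat.card (𝓞 K' ⧸ W.asIdeal) = Ideal.absNorm v.asIdeal := by
    have h1 := Module.natCard_eq_pow_finrank (K := 𝓞 K ⧸ v.asIdeal) (V := 𝓞 K' ⧸ W.asIdeal)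
    rw [hf, pow_one] at h1
    rw [h1, Ideal.absNorm_apply]
    rfl
  -- the uniformizer
  obtain ⟨ϖ, hϖ1, hϖ2⟩ : ∃ ϖ : 𝓞 K', ϖ ∈ W.asIdeal ∧ ϖ ∉ W.asIdeal ^ 2 := by
    obtain ⟨x, hx1, hx2⟩ := Ideal.exists_mem_pow_notMem_pow_succ W.asIdeal W.ne_bot hWm.ne_top 1
    rw [pow_one] at hx1
    exact ⟨x, hx1, hx2⟩
  have hcancel : ∀ u : 𝓞 K', u * ϖ ∈ W.asIdeal ^ 2 → u ∈ W.asIdeal := by
    intro u hu
    exact (Ideal.IsPrime.mul_mem_pow W.asIdeal hu).resolve_right hϖ2
  have hone : ∀ σ : Gal(K'/K), σ • ϖ - ϖ ∈ W.asIdeal ^ 2 := by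
    intro σ
    obtain ⟨a, e, he2, hae⟩ := Ideal.exists_mul_add_mem_pow_succ (P := W.asIdeal) W.ne_bot
      (i := 1) ϖ (σ • ϖ) (by rwa [pow_one]) hϖ2 (by rw [pow_one]; exact pt11_mem (hst σ) hϖ1)
    have ha : σ • ϖ - a * ϖ ∈ W.asIdeal ^ 2 := by
      rw [← hae]
      have : ϖ * a + e - a * ϖ = e := by ring
      rw [this]
      exact he2
    have hk : ∀ k : ℕ, (σ ^ k) • ϖ - a ^ k * ϖ ∈ W.asIdeal ^ 2 := by
      intro k
      induction k with
      | zero => rw [pow_zero, pow_zero, one_smul, one_mul, sub_self]; exact zero_mem _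
      | succ k ih =>
        have h1 := pt11_mem2 (hst σ) ih
        rw [smul_sub, smul_mul', ← mul_smul, ← pow_succ'] at h1
        have h2 : σ • (a ^ k) - a ^ k ∈ W.asIdeal := htriv σ _
        have h3 : (σ • (a ^ k) - a ^ k) * (σ • ϖ) ∈ W.asIdeal ^ 2 := by
          rw [pow_two]
          exact Ideal.mul_mem_mul h2 (pt11_mem (hst σ) hϖ1)
        have h4 : a ^ k * (σ • ϖ - a * ϖ) ∈ W.asIdeal ^ 2 := Ideal.mul_mem_left _ _ ha
        have h5 : (σ ^ (k + 1)) • ϖ - a ^ (k + 1) * ϖ =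
            ((σ ^ (k + 1)) • ϖ - (σ • (a ^ k)) * (σ • ϖ)) +
            ((σ • (a ^ k) - a ^ k) * (σ • ϖ) + a ^ k * (σ • ϖ - a * ϖ)) := by ring
        rw [h5]
        exact add_mem h1 (add_mem h3 h4)
    have hσp : σ ^ p = 1 := by
      rw [← hn, ← IsGalois.card_aut_eq_finrank K K']
      exact pow_card_eq_one'
    have hap : a ^ p - 1 ∈ W.asIdeal := by
      apply hcancel
      have h1 := hk p
      rw [hσp, one_smul] at h1
      have h2 : (a ^ p - 1) * ϖ = -(ϖ - a ^ p * ϖ) := by ring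
      rw [h2]
      exact neg_mem h1
    have hb : (Ideal.Quotient.mk W.asIdeal a) ^ p = 1 := by
      rw [← map_pow, ← map_one (Ideal.Quotient.mk W.asIdeal), Ideal.Quotient.eq]
      exact hap
    have hb0 : Ideal.Quotient.mk W.asIdeal a ≠ 0 := by
      intro h0
      rw [h0, zero_pow hp.ne_zero] at hb
      exact zero_ne_one hb
    have hb2 : (Ideal.Quotient.mk W.asIdeal a) ^ (Ideal.absNorm v.asIdeal - 1) = 1 := by
      have h1 : (Units.mk0 _ hb0) ^ (Nat.card (𝓞 K' ⧸ W.asIdeal)ˣ) = 1 := pow_card_eq_one'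
      rw [Nat.card_units, hcards] at h1
      have h2 := congrArg Units.val h1
      rwa [Units.val_pow_eq_pow_val, Units.val_mk0, Units.val_one] at h2
    have hcop : p.gcd (Ideal.absNorm v.asIdeal - 1) = 1 := (Nat.Prime.coprime_iff_not_dvd hp).2 hnd
    have hb3 : (Ideal.Quotient.mk W.asIdeal a) = 1 := by
      have h1 := pow_gcd_eq_one.2 ⟨hb, hb2⟩
      rwa [hcop, pow_one] at h1
    have ha1 : a - 1 ∈ W.asIdeal := by
      rw [← Ideal.Quotient.eq, hb3, map_one]
    have h5 : σ • ϖ - ϖ = (σ • ϖ - a * ϖ) + (a - 1) * ϖ := by ring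
    rw [h5]
    refine add_mem ha ?_
    rw [pow_two]
    exact Ideal.mul_mem_mul ha1 hϖ1
  -- the trace
  let i3 : Fintype Gal(K'/K) := Fintype.ofFinite _
  have hcG : Fintype.card Gal(K'/K) = p := by
    rw [← Nat.card_eq_fintype_card, IsGalois.card_aut_eq_finrank, hn]
  have hy : (∑ σ : Gal(K'/K), σ • ϖ) - (p : 𝓞 K') * ϖ ∈ W.asIdeal ^ 2 := by
    have h1 : (∑ σ : Gal(K'/K), σ • ϖ) - (p : 𝓞 K') * ϖ = ∑ σ : Gal(K'/K), (σ • ϖ - ϖ) := by
      rw [Finset.sum_sub_distrib, Finset.sum_const, Finset.card_univ, hcG, nsmul_eq_mul]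
    rw [h1]
    exact sum_mem fun σ _ => hone σ
  obtain ⟨x, hx⟩ := Algebra.IsInvariant.isInvariant (A := 𝓞 K) (B := 𝓞 K') (G := Gal(K'/K))
    (∑ σ : Gal(K'/K), σ • ϖ) (by
      intro τ
      rw [Finset.smul_sum]
      exact Fintype.sum_equiv (Equiv.mulLeft τ) _ _ (fun σ => (mul_smul τ σ ϖ).symm))
  have hyW : algebraMap (𝓞 K) (𝓞 K') x ∈ W.asIdeal := by
    rw [hx]
    exact sum_mem fun σ _ => pt11_mem (hst σ) hϖ1
  have hxv : x ∈ v.asIdeal := by
    rw [hl.over]
    exact hyW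
  have hpW : (p : 𝓞 K') ∉ W.asIdeal := by
    intro h
    apply hv
    rw [hl.over, Ideal.mem_under, map_natCast]
    exact h
  have hy2 : algebraMap (𝓞 K) (𝓞 K') x ∈ W.asIdeal ^ 2 := by
    have h1 := HeightOneSpectrum.valuation_liesOver K' v W ((x : 𝓞 K) : K)
    rw [Ideal.ramificationIdx'_eq_ramificationIdx v.asIdeal W.asIdeal v.ne_bot,
      ← Ideal.ramificationIdxIn_eq_ramificationIdx v.asIdeal W.asIdeal Gal(K'/K), hes] at h1
    have h2 : v.valuation K ((x : 𝓞 K) : K) ≤ WithZero.exp (-1 : ℤ) := by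
      have h3 : v.valuation K ((algebraMap (𝓞 K) K) x) = v.intValuation x :=
        v.valuation_of_algebraMap x
      have h4 := (v.intValuation_le_pow_iff_mem x 1).2 (by rwa [pow_one])
      change v.valuation K ((algebraMap (𝓞 K) K) x) ≤ _
      rw [h3]
      exact_mod_cast h4
    rw [← W.intValuation_le_pow_iff_mem, ← W.valuation_of_algebraMap (K := K')]
    change W.valuation K' (algebraMap K K' ((x : 𝓞 K) : K)) ≤ _
    rw [← h1]
    calc v.valuation K ((x : 𝓞 K) : K) ^ p ≤ WithZero.exp (-1 : ℤ) ^ p :=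
          pow_le_pow_left₀ zero_le h2 p
      _ ≤ WithZero.exp (-((2 : ℕ) : ℤ)) := by
          rw [← WithZero.exp_nsmul, WithZero.exp_le_exp, nsmul_eq_mul]
          have := hp.two_le
          push_cast
          omega
  have h6 : (p : 𝓞 K') * ϖ ∈ W.asIdeal ^ 2 := by
    rw [← hx] at hy
    have h7 := sub_mem hy2 hy
    rwa [sub_sub_cancel] at h7
  exact hpW (hcancel _ h6)

end H55P
end

-- from Lib.H16C.GE3
section

/-!
# GE3 (M): the places of `Ω` on a number field; extension of a prime to `Ω`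

`F` a subfield of `Ω` of finite degree over the number field `k` (so a number field; instances:
`FiniteDimensional k F` gives `NumberField F`), `A` a valuation subring of `Ω`, `v = A.valuation`.
`val_cases`: `𝔭 = {z ∈ 𝓞 F | v z < 1}` is a prime ideal.  If `𝔭 = 0`: `v z = 1` for `0 ≠ z ∈ 𝓞 F` and
hence for all `0 ≠ x ∈ F` (fractions).  Otherwise let `w` be the corresponding
`HeightOneSpectrum (𝓞 F)`.  For `0 ≠ x ∈ F`: if `ord_w x ≥ 0` then `x = a/c`, `c ∉ 𝔭`
(`w.valuation F x ≤ 1`; the localisation at `w`), so `v x = v a/v c ≤ 1`; if `ord_w x > 0` then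
`a ∈ 𝔭`, so `v x < 1`; apply this to `x` and `x⁻¹`: `v x ≤ 1 ↔ 0 ≤ ord w x`, `v x < 1 ↔ 0 < ord w x`,
`v x = 1 ↔ ord w x = 0`.
(`ord w x = - (w.valuation F x).log`, `w.valuation F x ≠ 0` for `x ≠ 0`.)
`exists_above`: for `w : HeightOneSpectrum (𝓞 F)` there is a valuation subring `A` of `Ω` such that,
for `0 ≠ x ∈ F`, `v x ≤ 1 ↔ 0 ≤ ord w x`: the local subring of `Ω` image of the localisation
of `𝓞 F` at `w` is dominated by a valuation subring (Mathlib: `LocalSubring.exists_le_valuationSubring`,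
`exists_factor_valuationRing`, Zorn); its maximal ideal contracts to `w`, then `val_cases`.
-/

open NumberField IsDedekindDomain H16A

namespace H16C

variable {k : Type*} [Field k] [NumberField k] {Ω : Type*} [Field Ω] [Algebra k Ω]

omit [NumberField k] in
theorem ge3_dom {F : IntermediateField k Ω} [NumberField F] (A : ValuationSubring Ω)
    (w : HeightOneSpectrum (𝓞 F)) (hw : w.asIdeal = plc F A) {x : F} (hx : x ≠ 0)
    (h : 0 ≤ ord w x) :
    A.valuation (x : Ω) ≤ 1 ∧ (0 < ord w x → A.valuation (x : Ω) < 1) := by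
  obtain ⟨a, b, hb, hxab⟩ := exists_div_of_ord_nonneg w h
  have hb1 : A.valuation ((b : F) : Ω) = 1 := by
    rw [hw] at hb
    exact not_mem_plc.1 hb
  have hb0 : (b : F) ≠ 0 := by
    intro h0
    rw [h0, div_zero] at hxab
    exact hx hxab
  have hb0' : b ≠ 0 := by
    intro h0
    apply hb0
    rw [h0]
    simp
  have hval : A.valuation (x : Ω) = A.valuation ((a : F) : Ω) := by
    have h1 : (x : Ω) * ((b : F) : Ω) = ((a : F) : Ω) := by
      have h2 : x * (b : F) = (a : F) := by rw [hxab, div_mul_cancel₀ _ hb0]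
      have := congrArg (fun z : F => (z : Ω)) h2
      simpa using this
    rw [← h1, map_mul, hb1, mul_one]
  refine ⟨by rw [hval]; exact FR_le_one A (FR_isIntegral F a), fun hpos => ?_⟩
  have ha0 : a ≠ 0 := by
    intro h0
    apply hx
    rw [hxab, h0]
    simp
  have ha0F : (a : F) ≠ 0 := fun h => ha0 (RingOfIntegers.ext h)
  have hob : ord w (b : F) = 0 := by
    have h1 := ord_int_nonneg w b
    have h2 : ¬ 0 < ord w (b : F) := fun h => hb ((ord_int_pos_iff w hb0').1 h)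
    omega
  have hoa : 0 < ord w (a : F) := by
    rw [hxab, ord_div w ha0F hb0, hob] at hpos
    omega
  have hmem := (ord_int_pos_iff w ha0).1 hoa
  rw [hw, mem_plc] at hmem
  rw [hval]
  exact hmem

omit [NumberField k] in
theorem ge3_iff {F : IntermediateField k Ω} [NumberField F] (A : ValuationSubring Ω)
    (w : HeightOneSpectrum (𝓞 F)) (hw : w.asIdeal = plc F A) {x : F} (hx : x ≠ 0) :
    (A.valuation (x : Ω) ≤ 1 ↔ 0 ≤ ord w x) ∧ (A.valuation (x : Ω) < 1 ↔ 0 < ord w x) ∧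
      (A.valuation (x : Ω) = 1 ↔ ord w x = 0) := by
  have hxi : x⁻¹ ≠ 0 := inv_ne_zero hx
  have hxO : (x : Ω) ≠ 0 := by
    intro h0
    exact hx (by exact_mod_cast h0)
  have hv0 : A.valuation (x : Ω) ≠ 0 := (Valuation.ne_zero_iff _).2 hxO
  have hinv : A.valuation ((x⁻¹ : F) : Ω) = (A.valuation (x : Ω))⁻¹ := by
    have h1 : ((x⁻¹ : F) : Ω) = (x : Ω)⁻¹ := by simp
    rw [h1, map_inv₀]
  have h1 := ge3_dom A w hw hx
  have h2 := ge3_dom A w hw hxi
  rw [hinv, ord_inv] at h2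
  have hneg : ord w x < 0 → 1 < A.valuation (x : Ω) := by
    intro h
    have h3 := (h2 (by omega)).2 (by omega)
    exact (inv_lt_one₀ (zero_lt_iff.2 hv0)).1 h3
  have hzero : ord w x = 0 → A.valuation (x : Ω) = 1 := by
    intro h
    have h3 := (h2 (by omega)).1
    have h4 := (h1 (by omega)).1
    exact le_antisymm h4 ((inv_le_one₀ (zero_lt_iff.2 hv0)).1 h3)
  have hposi : 0 < ord w x → A.valuation (x : Ω) < 1 := fun h => (h1 h.le).2 h
  rcases lt_trichotomy (ord w x) 0 with h | h | h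
  · have h5 := hneg h
    refine ⟨⟨fun h6 => absurd h6 (not_le.2 h5), fun h6 => absurd h (not_lt.2 h6)⟩,
      ⟨fun h6 => absurd h6 (not_lt.2 h5.le), fun h6 => absurd h (not_lt.2 h6.le)⟩,
      ⟨fun h6 => absurd h6 h5.ne', fun h6 => absurd h6 h.ne⟩⟩
  · have h5 := hzero h
    refine ⟨⟨fun _ => h.ge, fun _ => h5.le⟩, ⟨fun h6 => absurd h5 h6.ne, fun h6 => absurd h h6.ne'⟩,
      ⟨fun _ => h, fun _ => h5⟩⟩
  · have h5 := hposi h
    refine ⟨⟨fun _ => h.le, fun _ => h5.le⟩, ⟨fun _ => h, fun _ => h5⟩,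
      ⟨fun h6 => absurd h6 h5.ne, fun h6 => absurd h6 h.ne'⟩⟩

omit [NumberField k] in
theorem ge3_triv {F : IntermediateField k Ω} [NumberField F] (A : ValuationSubring Ω)
    (hw : plc F A = ⊥) {x : F} (hx : x ≠ 0) : A.valuation (x : Ω) = 1 := by
  have hint : ∀ z : 𝓞 F, z ≠ 0 → A.valuation ((z : F) : Ω) = 1 := by
    intro z hz
    apply not_mem_plc.1
    rw [hw, Ideal.mem_bot]
    exact hz
  obtain ⟨a, b, hb, hxab⟩ := IsFractionRing.div_surjective (A := 𝓞 F) x
  have hb0 : b ≠ 0 := nonZeroDivisors.ne_zero hb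
  have ha0 : a ≠ 0 := by
    intro h0
    apply hx
    rw [← hxab, h0]
    simp
  have h1 : (x : Ω) = ((a : F) : Ω) / ((b : F) : Ω) := by
    have := congrArg (fun z : F => (z : Ω)) hxab
    simpa using this.symm
  rw [h1, map_div₀, hint a ha0, hint b hb0, div_one]

omit [NumberField k] in
theorem val_cases' (F : IntermediateField k Ω) [NumberField F] (A : ValuationSubring Ω) :
    (∀ x : F, x ≠ 0 → A.valuation (x : Ω) = 1) ∨
    ∃ w : HeightOneSpectrum (𝓞 F), w.asIdeal = plc F A ∧ ∀ x : F, x ≠ 0 →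
      (A.valuation (x : Ω) ≤ 1 ↔ 0 ≤ ord w x) ∧ (A.valuation (x : Ω) < 1 ↔ 0 < ord w x) ∧
      (A.valuation (x : Ω) = 1 ↔ ord w x = 0) := by
  by_cases h : plc F A = ⊥
  · exact Or.inl fun x hx => ge3_triv A h hx
  · exact Or.inr ⟨⟨plc F A, inferInstance, h⟩, rfl, fun x hx => ge3_iff A _ rfl hx⟩

theorem val_cases (F : IntermediateField k Ω) [NumberField F] (A : ValuationSubring Ω) :
    (∀ x : F, x ≠ 0 → A.valuation (x : Ω) = 1) ∨
    ∃ w : HeightOneSpectrum (𝓞 F), ∀ x : F, x ≠ 0 →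
      (A.valuation (x : Ω) ≤ 1 ↔ 0 ≤ ord w x) ∧ (A.valuation (x : Ω) < 1 ↔ 0 < ord w x) ∧
      (A.valuation (x : Ω) = 1 ↔ ord w x = 0) := by
  rcases val_cases' F A with h | ⟨w, -, h⟩
  · exact Or.inl h
  · exact Or.inr ⟨w, h⟩

theorem exists_above (F : IntermediateField k Ω) [NumberField F] (w : HeightOneSpectrum (𝓞 F)) :
    ∃ A : ValuationSubring Ω, ∀ x : F, x ≠ 0 →
      (A.valuation (x : Ω) ≤ 1 ↔ 0 ≤ ord w x) ∧ (A.valuation (x : Ω) < 1 ↔ 0 < ord w x) ∧
      (A.valuation (x : Ω) = 1 ↔ ord w x = 0) := by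
  let φ : 𝓞 F →+* Ω := (algebraMap F Ω).comp (algebraMap (𝓞 F) F)
  have hφ : Function.Injective φ := (algebraMap F Ω).injective.comp RingOfIntegers.coe_injective
  let e : 𝓞 F ≃+* φ.range := RingEquiv.ofBijective φ.rangeRestrict
    ⟨fun a b h => hφ (congrArg (fun z : φ.range => (z : Ω)) h), φ.rangeRestrict_surjective⟩
  let I : Ideal φ.range := w.asIdeal.comap e.symm.toRingHom
  have hI : I ≠ ⊤ := by
    intro h
    have h1 : (1 : φ.range) ∈ I := by rw [h]; trivial
    have h2 : (1 : 𝓞 F) ∈ w.asIdeal := by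
      have h3 : e.symm.toRingHom 1 ∈ w.asIdeal := h1
      rwa [map_one] at h3
    exact w.isPrime.ne_top ((Ideal.eq_top_iff_one _).2 h2)
  obtain ⟨A, -, hA⟩ := Ideal.image_subset_nonunits_valuationSubring I hI
  have hle : w.asIdeal ≤ plc F A := by
    intro z hz
    rw [mem_plc]
    have h1 : e z ∈ I := by
      change e.symm (e z) ∈ w.asIdeal
      rwa [e.symm_apply_apply]
    have h2 := hA ⟨e z, h1, rfl⟩
    exact (ValuationSubring.mem_nonunits_iff A).1 h2
  have hmax : w.asIdeal = plc F A :=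
    w.isMaximal.eq_of_le (plc_isPrime F A).ne_top hle
  exact ⟨A, fun x hx => ge3_iff A w hmax hx⟩

end H16C
end

-- from Lib.H55P.Z11
section

open NumberField IsDedekindDomain WeierstrassCurve

namespace H55P

variable {k F Ω : Type} [Field k] [Field F] [Field Ω] [DecidableEq Ω] [Algebra k F] [Algebra k Ω]
  [Algebra F Ω] [IsScalarTower k F Ω]

/-! Chunk PZ11 (M). Change of the base field and descent for SelZero.
base_iso: W⁄Ω and (W⁄F)⁄Ω are the same curve (WeierstrassCurve.map_map, IsScalarTower.algebraMap_eq); the identity on coordinates (a general lemma: an equality W1 = W2 of curves gives an additive equivalence preserving coordinates: subst; see TR3_act in Lib/H16C/TR3.lean). The action commutes.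
sel_base: c on Gal(Ω/k) for K.restrictScalars k; c' s = φ (c (s.restrictScalars k)) on Gal(Ω/F) for K. Coc: continuity: L/k finite, L' = the field generated by L over F, finite over F. Inert, fixingSubgroup: same condition on functions. SelZero for F gives T'; T = φ⁻¹ T'. Every s in
(K.restrictScalars k).fixingSubgroup fixes the image of F (contained in K), so it is t.restrictScalars k for some t in K.fixingSubgroup (AlgEquiv over F with the same function).
tors_base: the same for the points fixed by the group.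
sel_down: c on K₀, its restriction to K₁ is killed by T: c' = c - (ac W s T - T) is zero on the group of K₁. For s in the group of K₀ and t in the group of K₁: c' (t s) = ac W t (c' s), c' (s t') = c' s with t' = s⁻¹ t s in the group of K₁; so c' s is fixed by the group of K₁, and
p c' s = 0; c' s = 0 by h0. -/

omit [DecidableEq Ω] in
theorem Z11_curve (W : WeierstrassCurve k) : (W⁄F)⁄Ω = W⁄Ω := by
  have h : ((algebraMap F Ω).comp (algebraMap k F)) = algebraMap k Ω :=
    (IsScalarTower.algebraMap_eq k F Ω).symm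
  exact congrArg W.map h

/-- The identity on coordinates for equal curves. -/
noncomputable def z11_cast {W₁ W₂ : WeierstrassCurve Ω} (h : W₁ = W₂) :
    W₁.toAffine.Point ≃+ W₂.toAffine.Point := by
  subst h
  exact AddEquiv.refl _

theorem z11_cast_some {W₁ W₂ : WeierstrassCurve Ω} (h : W₁ = W₂) (x y : Ω)
    (hn : W₁.toAffine.Nonsingular x y) :
    z11_cast h (Affine.Point.some x y hn) = Affine.Point.some x y (h ▸ hn) := by
  subst h
  rfl

theorem base_iso (W : WeierstrassCurve k) : ∃ φ : Pt W Ω ≃+ Pt (W⁄F) Ω,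
    ∀ (s : Ω ≃ₐ[F] Ω) (P : Pt W Ω), φ (ac W (s.restrictScalars k) P) = ac (W⁄F) s (φ P) := by
  refine ⟨z11_cast (Z11_curve (F := F) W).symm, ?_⟩
  intro s P
  rcases P with _ | ⟨x, y, h⟩
  · show z11_cast _ (ac W (s.restrictScalars k) 0) = ac (W⁄F) s (z11_cast _ 0)
    rw [map_zero, map_zero, map_zero]
  · have e1 : ac W (s.restrictScalars k) (Affine.Point.some x y h) = Affine.Point.some (s x) (s y)
        ((Affine.baseChange_nonsingular (W := W.toAffine) (f := (s.restrictScalars k).toAlgHom)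
          (s.restrictScalars k).toAlgHom.injective ..).2 h) := rfl
    rw [e1, z11_cast_some, z11_cast_some]
    rfl

omit [DecidableEq Ω] in
theorem Z11_lift (K : IntermediateField F Ω) (s : Ω ≃ₐ[k] Ω)
    (hs : s ∈ (K.restrictScalars k).fixingSubgroup) :
    ∃ t : Ω ≃ₐ[F] Ω, t.restrictScalars k = s ∧ t ∈ K.fixingSubgroup := by
  rw [IntermediateField.mem_fixingSubgroup_iff] at hs
  have h1 : ∀ x : F, s (algebraMap F Ω x) = algebraMap F Ω x := fun x =>
    hs _ (K.algebraMap_mem x)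
  refine ⟨AlgEquiv.ofRingEquiv (f := (s : Ω ≃+* Ω)) h1, AlgEquiv.ext fun x => rfl, ?_⟩
  rw [IntermediateField.mem_fixingSubgroup_iff]
  exact hs

omit [DecidableEq Ω] in
theorem Z11_mem (K : IntermediateField F Ω) (s : Ω ≃ₐ[F] Ω) (hs : s ∈ K.fixingSubgroup) :
    s.restrictScalars k ∈ (K.restrictScalars k).fixingSubgroup := by
  rw [IntermediateField.mem_fixingSubgroup_iff] at hs ⊢
  exact hs

omit [DecidableEq Ω] in
theorem Z11_field (L : IntermediateField k Ω) [FiniteDimensional k L] :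
    ∃ L' : IntermediateField F Ω, FiniteDimensional F L' ∧
      ∀ g ∈ L'.fixingSubgroup, g.restrictScalars k ∈ L.fixingSubgroup := by
  let b := Module.finBasis k L
  refine ⟨IntermediateField.adjoin F (Set.range fun i => ((b i : L) : Ω)), ?_, ?_⟩
  · refine IntermediateField.finiteDimensional_adjoin fun x hx => ?_
    obtain ⟨i, rfl⟩ := hx
    have h1 : IsIntegral k (b i) := IsIntegral.of_finite k (b i)
    have h2 : IsIntegral k ((b i : L) : Ω) := h1.map L.val
    exact IsIntegral.tower_top (R := k) h2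
  · intro g hg
    rw [IntermediateField.mem_fixingSubgroup_iff] at hg ⊢
    intro x hx
    have h1 := congrArg (algebraMap L Ω) (b.sum_repr ⟨x, hx⟩)
    rw [map_sum] at h1
    have h2 : x = ∑ i, b.repr ⟨x, hx⟩ i • ((b i : L) : Ω) := by
      refine Eq.trans ?_ (h1.symm.trans ?_)
      · rfl
      · rfl
    rw [h2, map_sum]
    refine Finset.sum_congr rfl fun i _ => ?_
    rw [map_smul]
    congr 1
    exact hg _ (IntermediateField.subset_adjoin F _ ⟨i, rfl⟩)

theorem sel_base [FiniteDimensional k F] (W : WeierstrassCurve k) (p : ℕ) (K : IntermediateField F Ω)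
    [FiniteDimensional F K] (hS : SelZero (W⁄F) p K) : SelZero W p (K.restrictScalars k) := by
  intro c hc hp hV
  obtain ⟨φ, hφ⟩ := base_iso (F := F) (Ω := Ω) W
  have g1 : Coc (W⁄F) K (fun s => φ (c (s.restrictScalars k))) := by
    refine ⟨?_, ?_⟩
    · intro s hs t ht
      have h1 := hc.mul _ (Z11_mem (k := k) K s hs) _ (Z11_mem (k := k) K t ht)
      have h2 : (s * t).restrictScalars k = s.restrictScalars k * t.restrictScalars k := rfl
      show φ (c ((s * t).restrictScalars k)) = _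
      rw [h2, h1, map_add, hφ]
    · obtain ⟨L, hL, hLc⟩ := hc.cont
      obtain ⟨L', hL', hg⟩ := Z11_field (F := F) L
      refine ⟨L', hL', ?_⟩
      intro s hs hsL
      show φ (c (s.restrictScalars k)) = 0
      rw [hLc _ (Z11_mem K s hs) (hg s hsL), map_zero]
  have g2 : ∀ s ∈ K.fixingSubgroup, p • (fun s => φ (c (s.restrictScalars k))) s = 0 := by
    intro s hs
    show p • φ (c (s.restrictScalars k)) = 0
    rw [← map_nsmul, hp _ (Z11_mem K s hs), map_zero]
  obtain ⟨T', hT', hcT⟩ := hS (fun s => φ (c (s.restrictScalars k))) g1 g2 (by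
    intro V
    obtain ⟨P, hP⟩ := hV V
    refine ⟨φ P, ?_⟩
    intro s hs hI
    show φ (c (s.restrictScalars k)) = _
    rw [hP _ (Z11_mem K s hs) hI, map_sub, hφ])
  refine ⟨φ.symm T', ?_, ?_⟩
  · rw [← map_nsmul, hT', map_zero]
  · intro s hs
    obtain ⟨t, rfl, ht⟩ := Z11_lift K s hs
    apply φ.injective
    rw [map_sub, hφ, AddEquiv.apply_symm_apply]
    exact hcT t ht

theorem tors_base (W : WeierstrassCurve k) (p : ℕ) (K : IntermediateField F Ω)
    (h : ∀ T : Pt (W⁄F) Ω, p • T = 0 → (∀ s ∈ K.fixingSubgroup, ac (W⁄F) s T = T) → T = 0)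
    (T : Pt W Ω) (hT : p • T = 0) (hf : ∀ s ∈ (K.restrictScalars k).fixingSubgroup, ac W s T = T) :
    T = 0 := by
  obtain ⟨φ, hφ⟩ := base_iso (F := F) (Ω := Ω) W
  apply φ.injective
  rw [map_zero]
  apply h
  · rw [← map_nsmul, hT, map_zero]
  · intro s hs
    rw [← hφ, hf _ (Z11_mem K s hs)]

theorem sel_down (W : WeierstrassCurve k) (p : ℕ) (K₀ K₁ : IntermediateField k Ω) (h : K₀ ≤ K₁)
    [FiniteDimensional k K₁]
    (hn : ∀ s ∈ K₀.fixingSubgroup, ∀ t ∈ K₁.fixingSubgroup, s * t * s⁻¹ ∈ K₁.fixingSubgroup)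
    (h0 : ∀ T : Pt W Ω, p • T = 0 → (∀ s ∈ K₁.fixingSubgroup, ac W s T = T) → T = 0)
    (hS : SelZero W p K₁) : SelZero W p K₀ := by
  intro c hc hp hV
  have hle : ∀ s ∈ K₁.fixingSubgroup, s ∈ K₀.fixingSubgroup := by
    intro s hs
    rw [IntermediateField.mem_fixingSubgroup_iff] at hs ⊢
    exact fun x hx => hs x (h hx)
  have hac : ∀ (s t : Ω ≃ₐ[k] Ω) (P : Pt W Ω), ac W (s * t) P = ac W s (ac W t P) := by
    intro s t P
    have h1 := (acR W).map_mul s t
    have h2 := DFunLike.congr_fun h1 P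
    exact h2
  obtain ⟨T, hT, hcT⟩ := hS c ⟨fun s hs t ht => hc.mul s (hle s hs) t (hle t ht), by
      obtain ⟨L, hL, hLc⟩ := hc.cont
      exact ⟨L, hL, fun s hs hsL => hLc s (hle s hs) hsL⟩⟩ (fun s hs => hp s (hle s hs)) (by
      intro V
      obtain ⟨P, hP⟩ := hV V
      exact ⟨P, fun s hs hI => hP s (hle s hs) hI⟩)
  refine ⟨T, hT, ?_⟩
  intro s hs
  have hd : c s - (ac W s T - T) = 0 := by
    apply h0
    · rw [nsmul_sub, nsmul_sub, hp s hs, ← map_nsmul, hT, map_zero, sub_zero, sub_zero]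
    · intro t ht
      have ht' : s⁻¹ * t * s ∈ K₁.fixingSubgroup := by
        have h1 := hn s⁻¹ (inv_mem hs) t ht
        rwa [inv_inv] at h1
      have e1 : s * (s⁻¹ * t * s) = t * s := by group
      have h2 := hc.mul s hs _ (hle _ ht')
      have h3 := hc.mul t (hle t ht) s hs
      rw [e1] at h2
      rw [h2, hcT t ht, hcT _ ht', map_sub, ← hac, e1, hac] at h3
      rw [map_sub, map_sub]
      -- h3 : c s + (ac t (ac s T) - ac s T) = (ac t T - T) + ac t (c s)
      have h4 : ac W t (c s) = c s + (ac W t (ac W s T) - ac W s T) - (ac W t T - T) := by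
        rw [h3]
        abel
      rw [h4]
      abel
  rw [← sub_eq_zero]
  exact hd

end H55P
end

-- from Lib.H99B.A2
section

/-!
Chunk A2 (S/M). Rules for pw (action of the integral group ring on a multiplicative group), conv and chs.
PROOFS. pw_mul, pw_npow, pw_add, pw_smul: Finset.prod_mul_distrib, map_mul, zpow_add, zpow_mul. pw_conv: expand
pw ac α (pw ac β x) = prod_h ac h (prod_g (ac g x)^(β g))^(α h) = prod_h prod_g (ac (h g) x)^(α h β g) (map_prod, map_zpow for the monoid endomorphism ac h,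
ac (h g) = ac h * ac g), substitute g -> h⁻¹ g (Equiv.mulLeft), exchange the products, collect exponents. chs_conv: the same computation in k with χ (h g) = χ h χ g.
chs_single: one term. chs_el: IsRho for a = -1 (IsRho.sum) transported along the bijection χ: chs χ (cf χ ρ a) = sum_g ρ(a χ(g)⁻¹).val χ(g) =
sum_c ρ(a c⁻¹).val c = -a. el_conv: for g: (conv α β)(g) with α = cf χ ρ (-1), modulo l: substitute h -> g h⁻¹ : the sum of α(g h⁻¹) β(h), and in ZMod l:
α(g h⁻¹) = ρ(-(χ g)⁻¹ χ h) (ZMod.natCast_zmod_val), ρ additive, so the sum is ρ(-(χ g)⁻¹ * sum_h β(h) χ(h)) = ρ 0 = 0; (ZMod.intCast_zmod_eq_zero_iff_dvd).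
-/

namespace H99B

variable {G : Type} [Group G] [Fintype G] {A : Type} [CommGroup A] (ac : G →* Monoid.End A)

omit [Group G] [Fintype G] in
theorem a2_zsum (s : Finset G) (f : G → ℤ) (x : A) : x ^ (∑ h ∈ s, f h) = ∏ h ∈ s, x ^ f h := by
  classical
  induction s using Finset.induction_on with
  | empty => simp
  | insert a s ha ih => rw [Finset.sum_insert ha, Finset.prod_insert ha, zpow_add, ih]

theorem pw_mul (α : G → ℤ) (x y : A) : pw ac α (x * y) = pw ac α x * pw ac α y := by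
  unfold pw
  rw [← Finset.prod_mul_distrib]
  refine Finset.prod_congr rfl fun g _ => ?_
  rw [map_mul, mul_zpow]

theorem pw_zpow (α : G → ℤ) (x : A) (n : ℤ) : pw ac α (x ^ n) = pw ac α x ^ n := by
  unfold pw
  rw [← Finset.prod_zpow]
  refine Finset.prod_congr rfl fun g _ => ?_
  rw [map_zpow, ← zpow_mul, ← zpow_mul, mul_comm]

theorem pw_pow (α : G → ℤ) (x : A) (n : ℕ) : pw ac α (x ^ n) = pw ac α x ^ n := by
  have h := pw_zpow ac α x n
  rwa [zpow_natCast, zpow_natCast] at h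

theorem pw_inv (α : G → ℤ) (x : A) : pw ac α x⁻¹ = (pw ac α x)⁻¹ := by
  have h := pw_zpow ac α x (-1)
  rwa [zpow_neg_one, zpow_neg_one] at h

theorem pw_smul (α : G → ℤ) (x : A) (n : ℤ) : pw ac (fun g => n * α g) x = pw ac α x ^ n := by
  unfold pw
  rw [← Finset.prod_zpow]
  refine Finset.prod_congr rfl fun g _ => ?_
  rw [← zpow_mul, mul_comm]

theorem pw_conv (α β : G → ℤ) (x : A) : pw ac (conv α β) x = pw ac α (pw ac β x) := by
  have h1 : ∀ h : G, (ac h (pw ac β x)) ^ α h = ∏ g, (ac g x) ^ (α h * β (h⁻¹ * g)) := by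
    intro h
    unfold pw
    rw [map_prod, ← Finset.prod_zpow, ← Equiv.prod_comp (Equiv.mulLeft h) (fun g => (ac g x) ^ (α h * β (h⁻¹ * g)))]
    refine Finset.prod_congr rfl fun g _ => ?_
    rw [map_zpow, ← zpow_mul, Equiv.coe_mulLeft, inv_mul_cancel_left, mul_comm (β g), map_mul]
    rfl
  unfold conv
  change ∏ g, (ac g x) ^ (∑ h, α h * β (h⁻¹ * g)) = ∏ h, (ac h (pw ac β x)) ^ α h
  simp only [h1]
  rw [Finset.prod_comm]
  refine Finset.prod_congr rfl fun g _ => ?_
  rw [a2_zsum]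

theorem pw_ac (α : G → ℤ) (x : A) (g : G) (hc : ∀ a b : G, a * b = b * a) :
    pw ac α (ac g x) = ac g (pw ac α x) := by
  unfold pw
  rw [map_prod]
  refine Finset.prod_congr rfl fun h _ => ?_
  rw [map_zpow]
  congr 1
  have h1 : ac h (ac g x) = ac (h * g) x := by rw [map_mul]; rfl
  have h2 : ac g (ac h x) = ac (g * h) x := by rw [map_mul]; rfl
  rw [h1, h2, hc]

/-- Elements of finite order are stable. -/
theorem pw_fin (α : G → ℤ) (x : A) (hx : IsOfFinOrder x) : IsOfFinOrder (pw ac α x) := by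
  unfold pw
  refine Subgroup.prod_mem (CommGroup.torsion A) fun g _ => ?_
  refine Subgroup.zpow_mem _ ?_ _
  exact MonoidHom.isOfFinOrder (ac g : A →* A) hx

variable {l : ℕ} [Fact l.Prime] {k : Type} [Field k] (χ : G →* kˣ)

omit [Fact l.Prime] in
theorem chs_conv (α β : G → ℤ) : chs χ (conv α β) = chs χ α * chs χ β := by
  unfold chs conv
  rw [Finset.sum_mul]
  have h1 : ∀ h : G, (α h : k) * (χ h : k) * ∑ g, (β g : k) * (χ g : k) =
      ∑ g, (α h : k) * (β (h⁻¹ * g) : k) * (χ g : k) := by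
    intro h
    rw [Finset.mul_sum, ← Equiv.sum_comp (Equiv.mulLeft h) (fun g => (α h : k) * (β (h⁻¹ * g) : k) * (χ g : k))]
    refine Finset.sum_congr rfl fun g _ => ?_
    rw [Equiv.coe_mulLeft, inv_mul_cancel_left, map_mul, Units.val_mul]
    ring
  simp only [h1]
  rw [Finset.sum_comm]
  refine Finset.sum_congr rfl fun g _ => ?_
  rw [Int.cast_sum, Finset.sum_mul]
  refine Finset.sum_congr rfl fun h _ => ?_
  rw [Int.cast_mul]

theorem conv_comm (hc : ∀ a b : G, a * b = b * a) (α β : G → ℤ) : conv α β = conv β α := by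
  funext g
  unfold conv
  rw [← Equiv.sum_comp ((Equiv.inv G).trans (Equiv.mulLeft g)) (fun h => α h * β (h⁻¹ * g))]
  refine Finset.sum_congr rfl fun h _ => ?_
  simp only [Equiv.trans_apply, Equiv.inv_apply, Equiv.coe_mulLeft, mul_inv_rev, inv_inv]
  rw [mul_comm, hc g h⁻¹, mul_assoc, inv_mul_cancel, mul_one]

theorem chs_single [DecidableEq G] (g : G) : chs χ (Pi.single g 1) = χ g := by
  unfold chs
  rw [Finset.sum_eq_single g]
  · rw [Pi.single_eq_same, Int.cast_one, one_mul]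
  · intro h _ hh
    rw [Pi.single_eq_of_ne hh, Int.cast_zero, zero_mul]
  · intro h
    exact absurd (Finset.mem_univ g) h

theorem pw_single [DecidableEq G] (g : G) (x : A) : pw ac (Pi.single g 1) x = ac g x := by
  unfold pw
  rw [Finset.prod_eq_single g]
  · rw [Pi.single_eq_same, zpow_one]
  · intro h _ hh
    rw [Pi.single_eq_of_ne hh, zpow_zero]
  · intro h
    exact absurd (Finset.mem_univ g) h

variable [Fintype k] [DecidableEq k] [CharP k l] (ρ : k →+ ZMod l)

theorem chs_nn (hχ : Function.Bijective χ) (hρ : IsRho l ρ) (a : k) :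
    chs χ (cf χ ρ a) = -a := by
  rw [← hρ.sum a]
  unfold chs cf
  rw [← Equiv.sum_comp (Equiv.ofBijective χ hχ) (fun c : kˣ => ((ρ (a * (c⁻¹ : kˣ))).val : k) * (c : k))]
  refine Finset.sum_congr rfl fun g _ => ?_
  rw [Equiv.ofBijective_apply, Int.cast_natCast]

theorem el_conv (β : G → ℤ) (hβ : chs χ β = 0) (g : G) :
    (l : ℤ) ∣ conv (cf χ ρ (-1)) β g := by
  have : NeZero l := ⟨(Fact.out : l.Prime).ne_zero⟩
  rw [← ZMod.intCast_zmod_eq_zero_iff_dvd]
  unfold conv
  rw [← Equiv.sum_comp ((Equiv.inv G).trans (Equiv.mulLeft g)) (fun h => cf χ ρ (-1) h * β (h⁻¹ * g)), Int.cast_sum]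
  have h1 : ∀ h : G, ((cf χ ρ (-1) (((Equiv.inv G).trans (Equiv.mulLeft g)) h) *
      β ((((Equiv.inv G).trans (Equiv.mulLeft g)) h)⁻¹ * g) : ℤ) : ZMod l) =
      ρ (-((χ g)⁻¹ : kˣ) * ((β h : k) * (χ h : k))) := by
    intro h
    simp only [Equiv.trans_apply, Equiv.inv_apply, Equiv.coe_mulLeft, mul_inv_rev, inv_inv]
    rw [mul_assoc, inv_mul_cancel, mul_one]
    unfold cf
    rw [Int.cast_mul, Int.cast_natCast, ZMod.natCast_zmod_val]
    have e : -((χ g)⁻¹ : kˣ) * ((β h : k) * (χ h : k)) = (β h) • (-1 * (((χ (g * h⁻¹))⁻¹ : kˣ) : k)) := by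
      rw [zsmul_eq_mul, map_mul, map_inv, mul_inv_rev, inv_inv, Units.val_mul]
      ring
    rw [e, map_zsmul, zsmul_eq_mul, mul_comm]
  rw [Finset.sum_congr rfl fun h _ => h1 h, ← map_sum, ← Finset.mul_sum]
  have h2 : ∑ h, (β h : k) * (χ h : k) = 0 := hβ
  rw [h2, mul_zero, map_zero]

end H99B
end

-- from Lib.H99B.E1
section

/-!
Chunk E1 (M). The level one component of eta_a(ξ) is not trivial.
PROOF. Notation: v = the order at w (valuation exp(-n)); x ≡ y means that x - y has order at least 2. Lifts: for b : k let b' ∈ 𝓞 F with r b' = b (Loc.surj). ξ = a0 (1 + c t + O(2)), c, a0 in F,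
c of order 0 at w. σ ξ = a0 (1 + c σ t + O(2)) (σ w = w, so σ preserves the order: ord_smul) ≡ a0 (1 + c (χ σ)' t) up to the factor a0 (Loc.act). So, with n σ = cf χ ρ a σ and N = sum n σ:
eta χ ρ a ξ = prod (σ ξ)^(n σ) = a0^N (1 + c t sum n σ (χ σ)' + O(2)) (products of elements 1 + O(1): (1+x)(1+y) ≡ 1 + x + y), and r(sum n σ (χ σ)') = chs χ (cf χ ρ a) = -a (chs_nn), so
with e ∈ 𝓞 F, r e = -a c ≠ 0: eta = a0^N (1 + e t + O(2)) (an element of 𝓞 F with r = 0 has order at least 2: Loc.ram).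
l divides N: in ZMod l: N = sum_σ ρ(a χ(σ)⁻¹) = ρ(a sum_{c ∈ kˣ} c⁻¹) = ρ 0 = 0 (FiniteField.sum_pow_units or sum_units_eq_zero-type lemma; card k > 2). N = l N'.
Suppose Lev: eta = z^l (1 + O(2)). With y = z / a0^N': y^l = 1 + e t + O(2). Then y has order 0. There is y0 ∈ 𝓞 F with v(y - y0) ≥ 1 (y is a fraction of elements of 𝓞 L prime to w,
H55R.exists_frac; reduce them by Loc.surj), y0 of order 0. y = y0 (1 + s), v(s) ≥ 1, and (1 + s)^l ≡ 1: the binomial terms are l s (..), order ≥ 2 because l ∈ 𝓞 F, r l = 0 (CharP k l, Loc.ram),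
and s^l, order ≥ l ≥ 2 (use (1+s)^l = 1 + l s g + s^l with g integral at w: e.g. add_pow_prime / exists_add_pow_prime_eq). So y0^l ≡ 1 + e t. Hence v(y0^l - 1) ≥ 1, y0^l - 1 ∈ 𝓞 F, r(..) = 0 (Loc.ker), so
y0^l - 1 has order ≥ 2 (Loc.ram), so e t has order ≥ 2; but its order is 1 (r e ≠ 0, Loc.unif). Contradiction.
-/

open NumberField IsDedekindDomain

namespace H99B

open H55B H55R

open scoped WithZero

/-- Products of elements congruent to 1 + e t. -/
theorem e1_mul {L : Type} [Field L] (v : Valuation L ℤᵐ⁰) {t x y e f : L}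
    (ht : v t ≤ WithZero.exp (-1 : ℤ)) (he : v e ≤ 1) (hf : v f ≤ 1)
    (hx : v (x - 1 - e * t) ≤ WithZero.exp (-2 : ℤ)) (hy : v (y - 1 - f * t) ≤ WithZero.exp (-2 : ℤ)) :
    v (x * y - 1 - (e + f) * t) ≤ WithZero.exp (-2 : ℤ) := by
  have h21 : WithZero.exp (-2 : ℤ) ≤ (1 : ℤᵐ⁰) := by
    rw [← WithZero.exp_zero, WithZero.exp_le_exp]
    norm_num
  have h11 : WithZero.exp (-1 : ℤ) ≤ (1 : ℤᵐ⁰) := by
    rw [← WithZero.exp_zero, WithZero.exp_le_exp]
    norm_num
  have ht1 : v t ≤ 1 := ht.trans h11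
  have hy1 : v y ≤ 1 := by
    have e1 : y = (y - 1 - f * t) + (1 + f * t) := by ring
    rw [e1]
    refine v.map_add_le (hy.trans h21) (v.map_add_le (by rw [map_one]) ?_)
    rw [map_mul]
    exact mul_le_one' hf ht1
  have e2 : x * y - 1 - (e + f) * t = (x - 1 - e * t) * y + (1 + e * t) * (y - 1 - f * t) +
      e * f * (t * t) := by ring
  rw [e2]
  refine v.map_add_le (v.map_add_le ?_ ?_) ?_
  · rw [map_mul]
    calc v (x - 1 - e * t) * v y ≤ WithZero.exp (-2 : ℤ) * 1 := mul_le_mul' hx hy1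
      _ = _ := mul_one _
  · rw [map_mul]
    have h3 : v (1 + e * t) ≤ 1 := by
      refine v.map_add_le (by rw [map_one]) ?_
      rw [map_mul]
      exact mul_le_one' he ht1
    calc v (1 + e * t) * v (y - 1 - f * t) ≤ 1 * WithZero.exp (-2 : ℤ) := mul_le_mul' h3 hy
      _ = _ := one_mul _
  · rw [map_mul, map_mul, map_mul]
    calc v e * v f * (v t * v t) ≤ 1 * (WithZero.exp (-1 : ℤ) * WithZero.exp (-1 : ℤ)) :=
          mul_le_mul' (mul_le_one' he hf) (mul_le_mul' ht ht)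
      _ = WithZero.exp (-2 : ℤ) := by
          rw [one_mul, ← WithZero.exp_add]
          norm_num

theorem e1_pow {L : Type} [Field L] (v : Valuation L ℤᵐ⁰) {t x e : L}
    (ht : v t ≤ WithZero.exp (-1 : ℤ)) (he : v e ≤ 1)
    (hx : v (x - 1 - e * t) ≤ WithZero.exp (-2 : ℤ)) (n : ℕ) :
    v (x ^ n - 1 - ((n : L) * e) * t) ≤ WithZero.exp (-2 : ℤ) ∧ v ((n : L) * e) ≤ 1 := by
  induction n with
  | zero =>
    have : x ^ 0 - 1 - (((0 : ℕ) : L) * e) * t = 0 := by
      rw [Nat.cast_zero]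
      ring
    rw [this, map_zero]
    refine ⟨zero_le, ?_⟩
    rw [Nat.cast_zero, zero_mul, map_zero]
    exact zero_le
  | succ n ih =>
    obtain ⟨h1, h2⟩ := ih
    have h3 : (((n + 1 : ℕ) : L) * e) = (n : L) * e + e := by
      push_cast
      ring
    rw [h3, pow_succ]
    exact ⟨e1_mul v ht h2 he h1 hx, v.map_add_le h2 he⟩

theorem e1_prod {L : Type} [Field L] (v : Valuation L ℤᵐ⁰) {ι : Type} [DecidableEq ι]
    (s : Finset ι) {t : L} (x e : ι → L) (n : ι → ℕ)
    (ht : v t ≤ WithZero.exp (-1 : ℤ)) (he : ∀ i ∈ s, v (e i) ≤ 1)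
    (hx : ∀ i ∈ s, v (x i - 1 - e i * t) ≤ WithZero.exp (-2 : ℤ)) :
    v (∏ i ∈ s, x i ^ n i - 1 - (∑ i ∈ s, (n i : L) * e i) * t) ≤ WithZero.exp (-2 : ℤ) ∧
      v (∑ i ∈ s, (n i : L) * e i) ≤ 1 := by
  induction s using Finset.induction_on with
  | empty =>
    rw [Finset.prod_empty, Finset.sum_empty, sub_self, zero_mul, sub_zero, map_zero]
    exact ⟨zero_le, zero_le⟩
  | insert i s hi ih =>
    obtain ⟨h1, h2⟩ := ih (fun j hj => he j (Finset.mem_insert_of_mem hj))
      (fun j hj => hx j (Finset.mem_insert_of_mem hj))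
    obtain ⟨h3, h4⟩ := e1_pow v ht (he i (Finset.mem_insert_self i s)) (hx i (Finset.mem_insert_self i s)) (n i)
    rw [Finset.prod_insert hi, Finset.sum_insert hi]
    exact ⟨e1_mul v ht h4 h2 h3 h1, v.map_add_le h4 h2⟩

/-- The l-th power of y0 + s. -/
theorem e1_lpow {L : Type} [Field L] (v : Valuation L ℤᵐ⁰) {l : ℕ} (hl : l.Prime)
    (hvl : v (l : L) ≤ WithZero.exp (-2 : ℤ)) {y s : L} (hy : v y ≤ 1)
    (hs : v s ≤ WithZero.exp (-1 : ℤ)) : v ((y + s) ^ l - y ^ l) ≤ WithZero.exp (-2 : ℤ) := by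
  have h11 : WithZero.exp (-1 : ℤ) ≤ (1 : ℤᵐ⁰) := by
    rw [← WithZero.exp_zero, WithZero.exp_le_exp]
    norm_num
  have hs1 : v s ≤ 1 := hs.trans h11
  obtain ⟨r, hr⟩ := exists_add_pow_prime_eq hl (⟨y, hy⟩ : v.integer) (⟨s, hs1⟩ : v.integer)
  have hr2 := congrArg (Subtype.val) hr
  have hr3 : (y + s) ^ l = y ^ l + s ^ l + (l : L) * y * s * (r : L) := by
    push_cast at hr2
    exact hr2
  have e1 : (y + s) ^ l - y ^ l = s ^ l + (l : L) * (y * s * (r : L)) := by
    rw [hr3]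
    ring
  rw [e1]
  refine v.map_add_le ?_ ?_
  · rw [map_pow]
    calc v s ^ l ≤ v s ^ 2 := pow_le_pow_right_of_le_one' hs1 hl.two_le
      _ ≤ (WithZero.exp (-1 : ℤ)) ^ 2 := pow_le_pow_left₀ zero_le hs 2
      _ = WithZero.exp (-2 : ℤ) := by
        rw [sq, ← WithZero.exp_add]
        norm_num
  · rw [map_mul]
    have h3 : v (y * s * (r : L)) ≤ 1 := by
      rw [map_mul, map_mul]
      exact mul_le_one' (mul_le_one' hy hs1) r.2
    calc v (l : L) * v (y * s * (r : L)) ≤ WithZero.exp (-2 : ℤ) * 1 := mul_le_mul' hvl h3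
      _ = _ := mul_one _

theorem e1_lt {x : ℤᵐ⁰} (h : x < 1) : x ≤ WithZero.exp (-1 : ℤ) := by
  by_cases hx : x = 0
  · rw [hx]
    exact zero_le
  · rw [← WithZero.exp_log hx] at h ⊢
    rw [← WithZero.exp_zero, WithZero.exp_lt_exp] at h
    rw [WithZero.exp_le_exp]
    omega

variable {L : Type} [Field L] [NumberField L] [Algebra F L]

theorem e1_gal {w : Pl L} {σ : Gal(L/F)} (h : smulP σ w = w) (x : L) :
    w.valuation L (σ x) = w.valuation L x := by
  by_cases hx : x = 0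
  · rw [hx, map_zero]
  · have h1 := ord_smul σ w (Units.mk0 x hx)
    rw [h] at h1
    have h2 := BF1_val w (Units.map ((σ : L ≃ₐ[F] L) : L →* L) (Units.mk0 x hx))
    rw [h1, ← BF1_val w (Units.mk0 x hx)] at h2
    exact h2

theorem e1_val {k : Type} [Field k] {χ : Gal(L/F) →* kˣ} {w : Pl L} {t : Lˣ} {r : 𝓞 L →+* k}
    (hloc : Loc χ w t r) (y : 𝓞 F) :
    w.valuation L (algebraMap F L (y : F)) ≤ 1 ∧
    (w.valuation L (algebraMap F L (y : F)) < 1 → r (algebraMap (𝓞 F) (𝓞 L) y) = 0) := by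
  have e : algebraMap F L (y : F) = algebraMap (𝓞 L) L (algebraMap (𝓞 F) (𝓞 L) y) := by
    rfl
  rw [e]
  refine ⟨w.valuation_le_one _, fun h => ?_⟩
  rw [hloc.ker]
  exact (w.valuation_lt_one_iff_mem _).1 h

/-- The exponents sum to a multiple of l. -/
theorem e1_sum {l : ℕ} [Fact l.Prime] {G : Type} [Group G] [Fintype G]
    {k : Type} [Field k] [Fintype k] [DecidableEq k] (hq : 2 < Fintype.card k)
    {χ : G →* kˣ} (hχ : Function.Bijective χ) (ρ : k →+ ZMod l) (a : k) :
    l ∣ ∑ σ : G, (ρ (a * ((χ σ)⁻¹ : kˣ))).val := by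
  rw [← ZMod.natCast_eq_zero_iff, Nat.cast_sum]
  have h1 : ∀ σ : G, (((ρ (a * ((χ σ)⁻¹ : kˣ))).val : ℕ) : ZMod l) = ρ (a * ((χ σ)⁻¹ : kˣ)) :=
    fun σ => ZMod.natCast_zmod_val _
  simp only [h1]
  rw [← map_sum, ← Finset.mul_sum]
  have h2 : ∑ σ : G, (((χ σ)⁻¹ : kˣ) : k) = ∑ c : kˣ, ((c⁻¹ : kˣ) : k) :=
    Function.Bijective.sum_comp hχ (fun c : kˣ => ((c⁻¹ : kˣ) : k))
  have h3 : ∑ c : kˣ, ((c⁻¹ : kˣ) : k) = ∑ c : kˣ, (c : k) :=
    Equiv.sum_comp (Equiv.inv kˣ) (fun c : kˣ => (c : k))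
  have h4 : ∑ c : kˣ, (c : k) = 0 := by
    have h5 := FiniteField.sum_pow_units k 1
    have h6 : ¬ (Fintype.card k - 1 ∣ 1) := by
      intro h
      have := Nat.le_of_dvd one_pos h
      omega
    rw [if_neg h6] at h5
    simpa using h5
  rw [h2, h3, h4, mul_zero, map_zero]

theorem lev_eta {L : Type} [Field L] [NumberField L] [Algebra F L] {l : ℕ} [Fact l.Prime]
    {k : Type} [Field k] [Fintype k] [DecidableEq k] [CharP k l] (hq : 2 < Fintype.card k)
    {χ : Gal(L/F) →* kˣ} (hχ : Function.Bijective χ) (ρ : k →+ ZMod l) (hρ : IsRho l ρ)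
    {w : Pl L} {t : Lˣ} {r : 𝓞 L →+* k} (hloc : Loc χ w t r) (ξ : Lˣ) (a0 : F) (ha0 : a0 ≠ 0)
    (c : 𝓞 F) (hc : r (algebraMap (𝓞 F) (𝓞 L) c) ≠ 0)
    (hξ : w.valuation L ((ξ : L) / algebraMap F L a0 - 1 - algebraMap F L (c : F) * (t : L)) ≤
      WithZero.exp (-2 : ℤ)) (a : k) (ha : a ≠ 0) : ¬ Lev l w (eta χ ρ a ξ) := by
  classical
  have hlp : l.Prime := Fact.out
  have h21 : WithZero.exp (-2 : ℤ) ≤ (1 : ℤᵐ⁰) := by
    rw [← WithZero.exp_zero, WithZero.exp_le_exp]
    norm_num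
  have h2l : WithZero.exp (-2 : ℤ) < (1 : ℤᵐ⁰) := by
    rw [← WithZero.exp_zero, WithZero.exp_lt_exp]
    norm_num
  have h1l : WithZero.exp (-1 : ℤ) < (1 : ℤᵐ⁰) := by
    rw [← WithZero.exp_zero, WithZero.exp_lt_exp]
    norm_num
  have ht : w.valuation L (t : L) = WithZero.exp (-1 : ℤ) := by
    rw [BF1_val, hloc.unif]
  have hA0 : algebraMap F L a0 ≠ 0 := by
    rw [Ne, map_eq_zero]
    exact ha0
  -- lifts of the values of χ
  choose X hX using fun σ : Gal(L/F) => hloc.surj (χ σ : k)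
  -- the elements σ ξ / a0
  have hψ : ∀ σ : Gal(L/F), w.valuation L ((σ (ξ : L)) / algebraMap F L a0 - 1 -
      (algebraMap F L ((c * X σ : 𝓞 F) : F)) * (t : L)) ≤ WithZero.exp (-2 : ℤ) := by
    intro σ
    have h1 : w.valuation L (σ ((ξ : L) / algebraMap F L a0 - 1 - algebraMap F L (c : F) * (t : L))) ≤
        WithZero.exp (-2 : ℤ) := by
      rw [e1_gal (hloc.inv σ)]
      exact hξ
    have h0 : σ ((ξ : L) / algebraMap F L a0 - 1 - algebraMap F L (c : F) * (t : L)) =
        σ (ξ : L) / algebraMap F L a0 - 1 - algebraMap F L (c : F) * σ (t : L) := by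
      rw [map_sub, map_sub, map_div₀, map_mul, map_one, AlgEquiv.commutes, AlgEquiv.commutes]
    rw [h0] at h1
    have h2 := hloc.act σ (X σ) (hX σ)
    have e : (σ (ξ : L)) / algebraMap F L a0 - 1 -
        (algebraMap F L ((c * X σ : 𝓞 F) : F)) * (t : L) =
        ((σ (ξ : L)) / algebraMap F L a0 - 1 - algebraMap F L (c : F) * σ (t : L)) +
        algebraMap F L (c : F) * (σ (t : L) - algebraMap F L (X σ : F) * (t : L)) := by
      have : ((c * X σ : 𝓞 F) : F) = (c : F) * (X σ : F) := rfl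
      rw [this, map_mul]
      ring
    rw [e]
    refine Valuation.map_add_le _ h1 ?_
    rw [map_mul]
    calc _ ≤ 1 * WithZero.exp (-2 : ℤ) := mul_le_mul' (e1_val hloc c).1 h2
      _ = _ := one_mul _
  -- the product
  let n : Gal(L/F) → ℕ := fun σ => (ρ (a * ((χ σ)⁻¹ : kˣ))).val
  obtain ⟨hP, hE1⟩ := e1_prod (w.valuation L) Finset.univ
    (fun σ : Gal(L/F) => (σ (ξ : L)) / algebraMap F L a0)
    (fun σ : Gal(L/F) => algebraMap F L ((c * X σ : 𝓞 F) : F)) n ht.le
    (fun σ _ => (e1_val hloc _).1) (fun σ _ => hψ σ)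
  set Pr : L := ∏ σ : Gal(L/F), ((σ (ξ : L)) / algebraMap F L a0) ^ n σ with hPr
  obtain ⟨E, hE⟩ : ∃ E : 𝓞 F, E = ∑ σ : Gal(L/F), (n σ : 𝓞 F) * (c * X σ) := ⟨_, rfl⟩
  have hEmap : (∑ σ : Gal(L/F), (n σ : L) * algebraMap F L ((c * X σ : 𝓞 F) : F)) =
      algebraMap F L (E : F) := by
    have e1 : (E : F) = ∑ σ : Gal(L/F), (n σ : F) * ((c * X σ : 𝓞 F) : F) := by
      rw [hE]
      have := map_sum (algebraMap (𝓞 F) F) (fun σ : Gal(L/F) => (n σ : 𝓞 F) * (c * X σ)) Finset.univ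
      rw [show ((∑ σ : Gal(L/F), (n σ : 𝓞 F) * (c * X σ) : 𝓞 F) : F) =
        algebraMap (𝓞 F) F (∑ σ : Gal(L/F), (n σ : 𝓞 F) * (c * X σ)) from rfl, this]
      refine Finset.sum_congr rfl fun σ _ => ?_
      rw [map_mul, map_natCast]
    rw [e1, map_sum]
    refine Finset.sum_congr rfl fun σ _ => ?_
    rw [map_mul, map_natCast]
  rw [hEmap] at hP hE1
  -- the reduction of E
  have hrE : r (algebraMap (𝓞 F) (𝓞 L) E) ≠ 0 := by
    have e1 : r (algebraMap (𝓞 F) (𝓞 L) E) = r (algebraMap (𝓞 F) (𝓞 L) c) * (-a) := by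
      rw [← chs_nn χ ρ hχ hρ a, hE, map_sum, map_sum]
      unfold chs
      rw [Finset.mul_sum]
      refine Finset.sum_congr rfl fun σ _ => ?_
      have h9 : ((cf χ ρ a σ : ℤ) : k) = (n σ : k) := Int.cast_natCast _
      rw [map_mul, map_mul, map_mul, map_mul, map_natCast, map_natCast, hX, h9]
      ring
    rw [e1]
    exact mul_ne_zero hc (neg_ne_zero.2 ha)
  have hvE : w.valuation L (algebraMap F L (E : F)) = 1 := by
    refine le_antisymm hE1 (not_lt.1 fun h => hrE ((e1_val hloc E).2 h))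
  -- eta
  obtain ⟨N', hN'⟩ := e1_sum hq hχ ρ a
  have hN : ∑ σ : Gal(L/F), n σ = l * N' := hN'
  have heta : ((eta χ ρ a ξ : Lˣ) : L) = (algebraMap F L a0 ^ N') ^ l * Pr := by
    have e1 : ((eta χ ρ a ξ : Lˣ) : L) = ∏ σ : Gal(L/F), (σ (ξ : L)) ^ n σ := by
      unfold eta pw
      rw [Units.coe_prod]
      refine Finset.prod_congr rfl fun σ _ => ?_
      have : cf χ ρ a σ = ((n σ : ℕ) : ℤ) := rfl
      rw [this, zpow_natCast, Units.val_pow_eq_pow_val, gu_apply]
    rw [e1, ← pow_mul, mul_comm N' l, ← hN, ← Finset.prod_pow_eq_pow_sum, hPr, ← Finset.prod_mul_distrib]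
    refine Finset.prod_congr rfl fun σ _ => ?_
    rw [← mul_pow, mul_div_cancel₀ _ hA0]
  rintro ⟨z, hz⟩
  -- y = z / a0^N'
  obtain ⟨y, hy⟩ : ∃ y : L, y = (z : L) / algebraMap F L a0 ^ N' := ⟨_, rfl⟩
  have hz0 : (z : L) ≠ 0 := z.ne_zero
  have hA0N : algebraMap F L a0 ^ N' ≠ 0 := pow_ne_zero _ hA0
  have hy0 : y ≠ 0 := by
    rw [hy]
    exact div_ne_zero hz0 hA0N
  have hyz : (((eta χ ρ a ξ) * (z ^ l)⁻¹ : Lˣ) : L) = Pr / y ^ l := by
    rw [Units.val_mul, Units.val_inv_eq_inv_val, Units.val_pow_eq_pow_val, heta, hy, div_pow]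
    field_simp
  rw [hyz] at hz
  have htE : w.valuation L (algebraMap F L (E : F) * (t : L)) = WithZero.exp (-1 : ℤ) := by
    rw [map_mul, hvE, one_mul, ht]
  have hvP : w.valuation L Pr = 1 := by
    have e1 : Pr = 1 + ((Pr - 1 - algebraMap F L (E : F) * (t : L)) + algebraMap F L (E : F) * (t : L)) := by
      ring
    rw [e1]
    apply Valuation.map_one_add_of_lt
    refine Valuation.map_add_lt _ (lt_of_le_of_lt hP h2l) ?_
    rw [htE]
    exact h1l
  have hvyl : w.valuation L (y ^ l) = 1 := by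
    have e1 : w.valuation L (Pr / y ^ l) = 1 := by
      have e2 : Pr / y ^ l = 1 + (Pr / y ^ l - 1) := by ring
      rw [e2]
      exact Valuation.map_one_add_of_lt _ (lt_of_le_of_lt hz h2l)
    rw [map_div₀, hvP] at e1
    have h3 : w.valuation L (y ^ l) ≠ 0 := by
      rw [Ne, map_eq_zero]
      exact pow_ne_zero _ hy0
    rw [div_eq_one_iff_eq h3] at e1
    exact e1.symm
  have hvy : w.valuation L y = 1 := by
    rw [map_pow] at hvyl
    exact (pow_eq_one_iff_of_nonneg zero_le hlp.ne_zero).1 hvyl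
  have hPy : w.valuation L (Pr - y ^ l) ≤ WithZero.exp (-2 : ℤ) := by
    have e1 : Pr - y ^ l = (Pr / y ^ l - 1) * y ^ l := by
      field_simp
    rw [e1, map_mul, hvyl, mul_one]
    exact hz
  -- y0
  obtain ⟨p, q, hp, hq', hpq⟩ := exists_frac w (Units.mk0 y hy0) (by
    have h3 := BF1_val w (Units.mk0 y hy0)
    rw [Units.val_mk0, hvy, ← WithZero.exp_zero] at h3
    have := WithZero.exp_injective h3
    omega)
  rw [Units.val_mk0] at hpq
  obtain ⟨y0, hy0'⟩ := hloc.surj (r p / r q)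
  have hrq : r q ≠ 0 := fun h => hq' ((hloc.ker q).1 h)
  have hmem : p - q * algebraMap (𝓞 F) (𝓞 L) y0 ∈ w.asIdeal := by
    rw [← hloc.ker, map_sub, map_mul, hy0', mul_div_cancel₀ _ hrq, sub_self]
  have hvq : w.valuation L (q : L) = 1 := (HeightOneSpectrum.valuation_eq_one_iff_notMem (K := L) w).2 hq'
  have hq0 : (q : L) ≠ 0 := by
    intro h
    rw [h, map_zero] at hvq
    exact zero_ne_one hvq
  have hs : w.valuation L (y - algebraMap F L (y0 : F)) ≤ WithZero.exp (-1 : ℤ) := by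
    apply e1_lt
    have e1 : y - algebraMap F L (y0 : F) = ((p - q * algebraMap (𝓞 F) (𝓞 L) y0 : 𝓞 L) : L) / (q : L) := by
      rw [hpq, eq_div_iff hq0]
      have : ((p - q * algebraMap (𝓞 F) (𝓞 L) y0 : 𝓞 L) : L) = (p : L) - (q : L) * algebraMap F L (y0 : F) := rfl
      rw [this]
      field_simp
    rw [e1, map_div₀, hvq, div_one]
    exact (w.valuation_lt_one_iff_mem _).2 hmem
  have hvl : w.valuation L ((l : ℕ) : L) ≤ WithZero.exp (-2 : ℤ) := by
    have h3 := hloc.ram ((l : ℕ) : 𝓞 F) (by rw [map_natCast, map_natCast, CharP.cast_eq_zero])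
    have e1 : algebraMap F L (((l : ℕ) : 𝓞 F) : F) = ((l : ℕ) : L) := by
      have : (((l : ℕ) : 𝓞 F) : F) = ((l : ℕ) : F) := map_natCast (algebraMap (𝓞 F) F) l
      rw [this, map_natCast]
    rw [e1] at h3
    exact h3
  have hpow := e1_lpow (w.valuation L) hlp hvl (e1_val hloc y0).1 hs
  have e3 : algebraMap F L (y0 : F) + (y - algebraMap F L (y0 : F)) = y := by ring
  rw [e3] at hpow
  have hfin : w.valuation L (algebraMap F L (y0 : F) ^ l - 1 - algebraMap F L (E : F) * (t : L)) ≤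
      WithZero.exp (-2 : ℤ) := by
    have e4 : algebraMap F L (y0 : F) ^ l - 1 - algebraMap F L (E : F) * (t : L) =
        (Pr - 1 - algebraMap F L (E : F) * (t : L)) - (Pr - y ^ l) - (y ^ l - algebraMap F L (y0 : F) ^ l) := by
      ring
    rw [e4]
    exact Valuation.map_sub_le _ (Valuation.map_sub_le _ hP hPy) hpow
  have e5 : algebraMap F L (y0 : F) ^ l - 1 = algebraMap F L ((y0 ^ l - 1 : 𝓞 F) : F) := by
    have : ((y0 ^ l - 1 : 𝓞 F) : F) = (y0 : F) ^ l - 1 := rfl
    rw [this, map_sub, map_pow, map_one]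
  have hlt : w.valuation L (algebraMap F L ((y0 ^ l - 1 : 𝓞 F) : F)) < 1 := by
    rw [← e5]
    have e6 : algebraMap F L (y0 : F) ^ l - 1 = (algebraMap F L (y0 : F) ^ l - 1 -
        algebraMap F L (E : F) * (t : L)) + algebraMap F L (E : F) * (t : L) := by ring
    rw [e6]
    refine Valuation.map_add_lt _ (lt_of_le_of_lt hfin h2l) ?_
    rw [htE]
    exact h1l
  have h7 := hloc.ram _ ((e1_val hloc _).2 hlt)
  rw [← e5] at h7
  have h8 : w.valuation L (algebraMap F L (E : F) * (t : L)) ≤ WithZero.exp (-2 : ℤ) := by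
    have e7 : algebraMap F L (E : F) * (t : L) = (algebraMap F L (y0 : F) ^ l - 1) -
        (algebraMap F L (y0 : F) ^ l - 1 - algebraMap F L (E : F) * (t : L)) := by ring
    rw [e7]
    exact Valuation.map_sub_le _ h7 hfin
  rw [htE, WithZero.exp_le_exp] at h8
  norm_num at h8

end H99B
end

-- from Lib.H55N.TW1
section

open NumberField IsDedekindDomain

namespace H55N

open H55B H55C

theorem TW1_halfplane_preconnected (d : ℝ) : IsPreconnected {s : ℂ | d < s.re} :=
  (convex_halfSpace_re_gt d).isPreconnected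

theorem TW1_isOpen (d : ℝ) : IsOpen {s : ℂ | d < s.re} :=
  isOpen_lt continuous_const Complex.continuous_re

/-- Identity theorem on a half plane. -/
theorem TW1_ident (d : ℝ) (A B : ℂ → ℂ) (hA : AnalyticOnNhd ℂ A {s | d < s.re})
    (hB : AnalyticOnNhd ℂ B {s | d < s.re}) (h : ∀ s : ℂ, 3 / 2 < s.re → A s = B s)
    (hd : d < 2) (s : ℂ) (hs : d < s.re) : A s = B s := by
  have h1 : (2 : ℂ) ∈ {s : ℂ | d < s.re} := by simpa using hd
  have h2 : A =ᶠ[nhds (2 : ℂ)] B := by
    have h3 : {s : ℂ | 3 / 2 < s.re} ∈ nhds (2 : ℂ) :=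
      (TW1_isOpen (3 / 2)).mem_nhds (by simp; norm_num)
    filter_upwards [h3] with z hz
    exact h z hz
  exact hA.eqOn_of_preconnected_of_eventuallyEq hB (TW1_halfplane_preconnected d) h1 h2 hs

/-- Chunk TW1 (M), gluing. Put d0 = max(1/2, 3/2 - delta). On the half plane Re s > d0 the functions G and P * Z are analytic and agree for
Re s > 3/2, so they agree (AnalyticOnNhd.eqOn_of_preconnected_of_eventuallyEq; the half plane is convex). Define Lam s = Z s if
Re s > d0, and G s / P s otherwise. For d0 < Re s < 3/2 both formulas agree (P s <> 0). So Lam is analytic at every point with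
Re s > 1/2: near points with Re s > d0 it is Z, near points with 1/2 < Re s < 3/2 it is G/P. -/
theorem glue (δ : ℝ) (hδ : 0 < δ) (G Z P : ℂ → ℂ) (hG : AnalyticOnNhd ℂ G {s | 1 / 2 < s.re})
    (hZ : AnalyticOnNhd ℂ Z {s | 3 / 2 - δ < s.re}) (hP : AnalyticOnNhd ℂ P {s | 1 / 2 < s.re})
    (hP0 : ∀ s : ℂ, s.re < 3 / 2 → P s ≠ 0)
    (h : ∀ s : ℂ, 3 / 2 < s.re → G s = P s * Z s) :
    ∃ Λ : ℂ → ℂ, AnalyticOnNhd ℂ Λ {s | 1 / 2 < s.re} ∧ (∀ s : ℂ, 3 / 2 < s.re → Λ s = Z s) ∧
      ∀ s : ℂ, 1 / 2 < s.re → G s = P s * Λ s := by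
  classical
  set d := max (1 / 2) (3 / 2 - δ) with hd
  have hd1 : 1 / 2 ≤ d := le_max_left _ _
  have hd2 : 3 / 2 - δ ≤ d := le_max_right _ _
  have hd3 : d < 3 / 2 := max_lt (by norm_num) (by linarith)
  have hGd : AnalyticOnNhd ℂ G {s | d < s.re} := hG.mono fun s hs => lt_of_le_of_lt hd1 hs
  have hZd : AnalyticOnNhd ℂ Z {s | d < s.re} := hZ.mono fun s hs => lt_of_le_of_lt hd2 hs
  have hPd : AnalyticOnNhd ℂ P {s | d < s.re} := hP.mono fun s hs => lt_of_le_of_lt hd1 hs
  have key : ∀ s : ℂ, d < s.re → G s = P s * Z s :=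
    fun s hs => TW1_ident d G (fun s => P s * Z s) hGd (hPd.mul hZd) h (by linarith) s hs
  refine ⟨fun s => if d < s.re then Z s else G s / P s, ?_, ?_, ?_⟩
  · intro s hs
    by_cases hs' : d < s.re
    · refine (hZd s hs').congr ?_
      filter_upwards [(TW1_isOpen d).mem_nhds hs'] with z hz
      have hz' : d < z.re := hz
      rw [if_pos hz']
    · have h1 : s.re < 3 / 2 := lt_of_le_of_lt (not_lt.1 hs') hd3
      have h2 : AnalyticAt ℂ (fun z => G z / P z) s := (hG s hs).div (hP s hs) (hP0 s h1)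
      refine h2.congr ?_
      have h3 : {z : ℂ | z.re < 3 / 2} ∈ nhds s :=
        (isOpen_lt Complex.continuous_re continuous_const).mem_nhds h1
      filter_upwards [h3] with z hz
      by_cases hz' : d < z.re
      · rw [if_pos hz', key z hz', mul_comm, mul_div_assoc, div_self (hP0 z hz), mul_one]
      · rw [if_neg hz']
  · intro s hs
    have h1 : d < s.re := lt_trans hd3 hs
    exact if_pos h1
  · intro s hs
    by_cases hs' : d < s.re
    · simp only [if_pos hs']
      exact key s hs'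
    · have h1 : s.re < 3 / 2 := lt_of_le_of_lt (not_lt.1 hs') hd3
      simp only [if_neg hs']
      rw [mul_div_cancel₀ _ (hP0 s h1)]

/-- Identity theorem on the half plane. -/
theorem ident (A B : ℂ → ℂ) (hA : AnalyticOnNhd ℂ A {s | 1 / 2 < s.re})
    (hB : AnalyticOnNhd ℂ B {s | 1 / 2 < s.re}) (h : ∀ s : ℂ, 3 / 2 < s.re → A s = B s) (s : ℂ)
    (hs : 1 / 2 < s.re) : A s = B s :=
  TW1_ident (1 / 2) A B hA hB h (by norm_num) s hs

end H55N
end

-- from Lib.H55R.CH2
section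

open NumberField IsDedekindDomain

namespace H55R

/-! Chunk CH2 (M): the decomposition law in a Galois extension of degree 3. By card_above (number of primes above w) * (e f) = 3. The prime W has relNorm W = w^f
(Ideal.relNorm_eq_pow_of_isMaximal, Ideal.inertiaDegIn_eq_inertiaDeg). The set of primes above w is finite (above_finite). -/

theorem CH2_norm {K K' : Type} [Field K] [NumberField K] [Field K'] [NumberField K']
    [Algebra K K'] [IsGalois K K'] (w : Pl K) (W : Pl K') (h : W.asIdeal.under (𝓞 K) = w.asIdeal) :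
    Ideal.relNorm (𝓞 K) W.asIdeal = w.asIdeal ^ fs K K' w := by
  have hl : W.asIdeal.LiesOver w.asIdeal := ⟨h.symm⟩
  have hw := w.isMaximal
  have hwp := w.isPrime
  have hW := W.isMaximal
  have hWp := W.isPrime
  have h1 := Ideal.relNorm_eq_pow_of_isMaximal W.asIdeal w.asIdeal
  have h2 := Ideal.inertiaDegIn_eq_inertiaDeg w.asIdeal W.asIdeal Gal(K'/K)
  rw [h1, ← h2]
  rfl

theorem CH2_card {K K' : Type} [Field K] [NumberField K] [Field K'] [NumberField K']
    [Algebra K K'] [IsGalois K K'] (h3 : Module.finrank K K' = 3) (w : Pl K) :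
    ∃ T : Finset (Pl K'), (∀ W, W ∈ T ↔ W.asIdeal.under (𝓞 K) = w.asIdeal) ∧
      T.card * (es K K' w * fs K K' w) = 3 := by
  have hf := above_finite (L := K') w
  have hT : ∀ W : Pl K', W ∈ hf.toFinset ↔ W.under (𝓞 K) = w := by
    intro W
    rw [Set.Finite.mem_toFinset]
    exact Iff.rfl
  refine ⟨hf.toFinset, fun W => ?_, ?_⟩
  · rw [hT]
    exact ⟨fun h => congrArg HeightOneSpectrum.asIdeal h, fun h => HeightOneSpectrum.ext h⟩
  · rw [card_above w hf.toFinset hT, h3]

theorem CH2_one {K K' : Type} [Field K] [NumberField K] [Field K'] [NumberField K']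
    [Algebra K K'] (w : Pl K) (T : Finset (Pl K'))
    (hT : ∀ W, W ∈ T ↔ W.asIdeal.under (𝓞 K) = w.asIdeal) (hc : T.card = 1) :
    ∃ W : Pl K', {W : Pl K' | W.asIdeal.under (𝓞 K) = w.asIdeal} = {W} ∧
      W.asIdeal.under (𝓞 K) = w.asIdeal := by
  obtain ⟨W, hW⟩ := Finset.card_eq_one.1 hc
  have hWT : W ∈ T := by
    rw [hW]
    exact Finset.mem_singleton_self W
  refine ⟨W, ?_, (hT W).1 hWT⟩
  ext W'
  rw [Set.mem_ofPred_eq, ← hT W', hW, Finset.mem_singleton, Set.mem_singleton_iff]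

theorem cubic_spl {K K' : Type} [Field K] [NumberField K] [Field K'] [NumberField K'] [Algebra K K']
    [IsGalois K K'] (h3 : Module.finrank K K' = 3) (w : Pl K) (h : Spl K K' w) :
    ∃ W₁ W₂ W₃ : HeightOneSpectrum (𝓞 K'), W₁ ≠ W₂ ∧ W₁ ≠ W₃ ∧ W₂ ≠ W₃ ∧
      {W : HeightOneSpectrum (𝓞 K') | W.asIdeal.under (𝓞 K) = w.asIdeal} = {W₁, W₂, W₃} ∧
      Ideal.relNorm (𝓞 K) W₁.asIdeal = w.asIdeal ∧ Ideal.relNorm (𝓞 K) W₂.asIdeal = w.asIdeal ∧
      Ideal.relNorm (𝓞 K) W₃.asIdeal = w.asIdeal := by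
  classical
  obtain ⟨T, hT, hc⟩ := CH2_card h3 w
  rw [h.1, h.2, mul_one, mul_one] at hc
  obtain ⟨W₁, W₂, W₃, h12, h13, h23, hTe⟩ := Finset.card_eq_three.1 hc
  have hn : ∀ W, W ∈ T → Ideal.relNorm (𝓞 K) W.asIdeal = w.asIdeal := by
    intro W hW
    rw [CH2_norm w W ((hT W).1 hW), h.2, pow_one]
  refine ⟨W₁, W₂, W₃, h12, h13, h23, ?_, hn W₁ (by rw [hTe]; simp), hn W₂ (by rw [hTe]; simp),
    hn W₃ (by rw [hTe]; simp)⟩
  ext W
  rw [Set.mem_ofPred_eq, ← hT W, hTe]
  simp

theorem cubic_inert {K K' : Type} [Field K] [NumberField K] [Field K'] [NumberField K']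
    [Algebra K K'] [IsGalois K K'] (h3 : Module.finrank K K' = 3) (w : Pl K) (h : ¬ Spl K K' w)
    (he : es K K' w = 1) : ∃ W : HeightOneSpectrum (𝓞 K'),
      {W : HeightOneSpectrum (𝓞 K') | W.asIdeal.under (𝓞 K) = w.asIdeal} = {W} ∧
      Ideal.relNorm (𝓞 K) W.asIdeal = w.asIdeal ^ 3 := by
  obtain ⟨T, hT, hc⟩ := CH2_card h3 w
  have hf : fs K K' w ≠ 1 := fun hf => h ⟨he, hf⟩
  rw [he, one_mul] at hc
  have hdvd : fs K K' w ∣ 3 := ⟨T.card, by rw [← hc]; ring⟩
  have hf3 : fs K K' w = 3 := ((Nat.dvd_prime Nat.prime_three).1 hdvd).resolve_left hf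
  rw [hf3] at hc
  have hc1 : T.card = 1 := by omega
  obtain ⟨W, hW1, hW2⟩ := CH2_one w T hT hc1
  exact ⟨W, hW1, by rw [CH2_norm w W hW2, hf3]⟩

theorem cubic_ram {K K' : Type} [Field K] [NumberField K] [Field K'] [NumberField K']
    [Algebra K K'] [IsGalois K K'] (h3 : Module.finrank K K' = 3) (w : Pl K)
    (he : es K K' w ≠ 1) : ∃ W : HeightOneSpectrum (𝓞 K'),
      {W : HeightOneSpectrum (𝓞 K') | W.asIdeal.under (𝓞 K) = w.asIdeal} = {W} ∧
      Ideal.relNorm (𝓞 K) W.asIdeal = w.asIdeal := by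
  obtain ⟨T, hT, hc⟩ := CH2_card h3 w
  have hdvd : es K K' w ∣ 3 := ⟨T.card * fs K K' w, by rw [← hc]; ring⟩
  have he3 : es K K' w = 3 := ((Nat.dvd_prime Nat.prime_three).1 hdvd).resolve_left he
  rw [he3] at hc
  have hc1 : T.card * fs K K' w = 1 := by
    have : T.card * (3 * fs K K' w) = 3 * (T.card * fs K K' w) := by ring
    omega
  have hcT : T.card = 1 := Nat.eq_one_of_mul_eq_one_right hc1
  have hf1 : fs K K' w = 1 := Nat.eq_one_of_mul_eq_one_left hc1
  obtain ⟨W, hW1, hW2⟩ := CH2_one w T hT hcT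
  exact ⟨W, hW1, by rw [CH2_norm w W hW2, hf1, pow_one]⟩

end H55R
end

-- from Lib.H55R.X12
section

open NumberField IsDedekindDomain

namespace H55R

/-! Chunk X12 (M): the modulus. Only finitely many primes v of K are ramified in L: e.g. es K L v <> 1 implies that the prime number below v divides the discriminant
of L (Mathlib: NumberField.not_dvd_discr_iff_forall_mem, es divides the absolute ramification index of the primes above), or that a prime W above v divides the
different of L/K; a nonzero ideal has finitely many prime divisors. f = product of the ramified v.asIdeal over the finite set: f <> 0, squarefree (product of distinct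
primes), f <= v.asIdeal iff v.asIdeal is one of the factors (Ideal.IsPrime.prod_le, maximal ideals). -/

theorem ram_fin (K L : Type) [Field K] [NumberField K] [Field L] [NumberField L] [Algebra K L]
    [IsGalois K L] : {v : Pl K | es K L v ≠ 1}.Finite := by
  have hD : differentIdeal (𝓞 K) (𝓞 L) ≠ ⊥ := differentIdeal_ne_bot
  refine Set.Finite.subset (Set.Finite.image (fun W : Pl L => W.under (𝓞 K))
    (Ideal.finite_factors (I := differentIdeal (𝓞 K) (𝓞 L)) hD)) ?_
  intro v hv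
  obtain ⟨W, hW⟩ := under_exists (L := L) v
  refine ⟨W, ?_, hW⟩
  have hp := v.isPrime
  have hm := v.isMaximal
  have hWp := W.isPrime
  have hl : W.asIdeal.LiesOver v.asIdeal := (BF2_mem v W hW).2
  have h1 : es K L v = Ideal.ramificationIdx' v.asIdeal W.asIdeal := by
    rw [Ideal.ramificationIdx'_eq_ramificationIdx v.asIdeal W.asIdeal v.ne_bot,
      ← Ideal.ramificationIdxIn_eq_ramificationIdx v.asIdeal W.asIdeal Gal(L/K)]
    rfl
  have h2 : W.asIdeal ^ es K L v ∣ v.asIdeal.map (algebraMap (𝓞 K) (𝓞 L)) := by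
    rw [Ideal.dvd_iff_le, h1]
    exact Ideal.le_pow_ramificationIdx'
  have h3 := pow_sub_one_dvd_differentIdeal (𝓞 K) W.asIdeal _ v.ne_bot h2
  have h4 : es K L v - 1 ≠ 0 := by
    have h5 := es_pos (L := L) v
    have h6 : es K L v ≠ 1 := hv
    omega
  exact (dvd_pow_self _ h4).trans h3

theorem exists_mod (K L : Type) [Field K] [NumberField K] [Field L] [NumberField L] [Algebra K L]
    [IsGalois K L] : ∃ f : Ideal (𝓞 K), f ≠ ⊥ ∧ Squarefree f ∧
      ∀ v : Pl K, f ≤ v.asIdeal ↔ es K L v ≠ 1 := by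
  classical
  have hfin := ram_fin K L
  refine ⟨∏ v ∈ hfin.toFinset, v.asIdeal, ?_, ?_, fun v => ?_⟩
  · exact Finset.prod_ne_zero_iff.2 fun v _ => v.ne_bot
  · refine Finset.squarefree_prod_of_pairwise_isCoprime ?_ fun v _ => ?_
    · intro v _ w _ hvw
      have hvm := v.isMaximal
      have hwm := w.isMaximal
      exact (Ideal.isCoprime_of_isMaximal fun h => hvw (HeightOneSpectrum.ext h)).isRelPrime
    · exact v.irreducible.squarefree
  · have hp := v.isPrime
    rw [hp.prod_le]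
    constructor
    · rintro ⟨w, hw, hle⟩
      rw [Set.Finite.mem_toFinset] at hw
      have hwm := w.isMaximal
      have h1 : w = v := HeightOneSpectrum.ext (hwm.eq_of_le hp.ne_top hle)
      rw [← h1]
      exact hw
    · intro h
      exact ⟨v, by rw [Set.Finite.mem_toFinset]; exact h, le_refl _⟩

end H55R
end

-- from Lib.H55R.X8
section

open NumberField IsDedekindDomain
open scoped Pointwise

namespace H55R

variable (K L N : Type) [Field K] [NumberField K] [Field L] [NumberField L] [Field N]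
  [NumberField N] [Algebra K L] [Algebra L N] [Algebra K N] [IsScalarTower K L N]
  [IsGalois K L] [IsGalois K N]

/-! Chunk X8 (M): ramification in N = L(zeta_p). I = inertia group of a prime W of N above v in Gal(N/K) (g x - x in W for all x in 𝓞 N), of order es K N v
(Ideal.card_inertia_eq_ramificationIdxIn). Restriction maps I to the inertia group I1 of W.under (𝓞 L) in Gal(L/K), of order es K L v.
es_N: p not in v. The map I -> I1 is injective: if g in I fixes L pointwise, g ζ = ζ^a with ζ^a - ζ in W; if ζ^a <> ζ then p is in W, hence in v; so g ζ = ζ and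
g = 1 (hN). So the order of I divides the order of I1 (Subgroup.card_dvd_of_injective or card_range_dvd).
es_N': es K L v = 1: then I fixes L pointwise, and g -> a (g ζ = ζ^a, IsPrimitiveRoot.autToPow) is an injective homomorphism from I to (ZMod p)ˣ, of order
p - 1. -/

omit [NumberField K] [NumberField L] [NumberField N] [IsGalois K N] in
theorem X8_res (σ : Gal(N/K)) (x : L) :
    algebraMap L N (AlgEquiv.restrictNormalHom L σ x) = σ (algebraMap L N x) :=
  AlgEquiv.restrictNormal_commutes σ L x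

omit [NumberField K] [NumberField L] [IsGalois K L] [IsGalois K N] [Algebra K L] [Algebra L N]
  [IsScalarTower K L N] in
theorem X8_zeta (p : ℕ) (hp : p.Prime) (ζ : N) (hζ : IsPrimitiveRoot ζ p) (W : Pl N)
    (σ : Gal(N/K)) (hσ : σ ∈ W.asIdeal.inertia Gal(N/K)) (hne : σ ζ ≠ ζ) :
    (p : 𝓞 N) ∈ W.asIdeal := by
  have : NeZero p := ⟨hp.ne_zero⟩
  have hint : IsIntegral ℤ ζ := hζ.isIntegral hp.pos
  set z : 𝓞 N := ⟨ζ, hint⟩ with hz
  have hzp : z ^ p = 1 := by
    apply RingOfIntegers.ext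
    exact hζ.pow_eq_one
  have hs : ((σ • z : 𝓞 N) : N) = σ ζ := rfl
  have hsp : (σ • z) ^ p = 1 := by
    rw [← smul_pow', hzp, smul_one]
  set η : 𝓞 N := (σ • z) * z ^ (p - 1) with hη
  have hηp : η ^ p = 1 := by
    rw [hη, mul_pow, hsp, one_mul, ← pow_mul, mul_comm, pow_mul, hzp, one_pow]
  have hpp : z ^ (p - 1) * z = 1 := by
    rw [← pow_succ, Nat.sub_add_cancel hp.one_le, hzp]
  have hη1 : η ≠ 1 := by
    intro h
    apply hne
    have h1 : σ • z = z := by
      calc σ • z = (σ • z) * (z ^ (p - 1) * z) := by rw [hpp, mul_one]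
        _ = η * z := by rw [hη, mul_assoc]
        _ = z := by rw [h, one_mul]
    rw [← hs, h1]
    rfl
  have hord : orderOf η = p := by
    have : Fact p.Prime := ⟨hp⟩
    exact orderOf_eq_prime hηp hη1
  have hprim : IsPrimitiveRoot η p := by
    rw [← hord]
    exact IsPrimitiveRoot.orderOf η
  have hsum := hprim.geom_sum_eq_zero hp.one_lt
  have hmem : η - 1 ∈ W.asIdeal := by
    have h1 : σ • z - z ∈ W.asIdeal := hσ z
    have h2 : η - 1 = z ^ (p - 1) * (σ • z - z) := by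
      rw [mul_sub, hpp, hη]
      ring
    rw [h2]
    exact Ideal.mul_mem_left _ _ h1
  have hq : Ideal.Quotient.mk W.asIdeal η = 1 := by
    rw [← map_one (Ideal.Quotient.mk W.asIdeal), Ideal.Quotient.eq]
    exact hmem
  rw [← Ideal.Quotient.eq_zero_iff_mem, map_natCast]
  have h3 := congrArg (Ideal.Quotient.mk W.asIdeal) hsum
  rw [map_sum, map_zero] at h3
  simp only [map_pow, hq, one_pow, Finset.sum_const, Finset.card_range, nsmul_eq_mul, mul_one] at h3
  exact h3

omit [IsGalois K N] in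
theorem X8_inertia (W : Pl N) (σ : Gal(N/K))
    (hσ : σ ∈ W.asIdeal.inertia Gal(N/K)) :
    AlgEquiv.restrictNormalHom L σ ∈ (W.under (𝓞 L)).asIdeal.inertia Gal(L/K) := by
  intro x
  show algebraMap (𝓞 L) (𝓞 N) ((AlgEquiv.restrictNormalHom L σ) • x - x) ∈ W.asIdeal
  have h1 : algebraMap (𝓞 L) (𝓞 N) ((AlgEquiv.restrictNormalHom L σ) • x) =
      σ • algebraMap (𝓞 L) (𝓞 N) x := by
    apply RingOfIntegers.ext
    exact X8_res K L N σ (x : L)
  rw [map_sub, h1]
  exact hσ _

theorem X8_card (W : Pl N) (v : Pl K) (h : W.under (𝓞 K) = v) :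
    Nat.card (W.asIdeal.inertia Gal(N/K)) = es K N v := by
  have hp := v.isPrime
  have hW := W.isPrime
  have hl : W.asIdeal.LiesOver v.asIdeal := (BF2_mem v W h).2
  exact Ideal.card_inertia_eq_ramificationIdxIn (G := Gal(N/K)) v.asIdeal W.asIdeal

theorem X8_under (W : Pl N) (v : Pl K) (h : W.under (𝓞 K) = v) :
    (W.under (𝓞 L)).under (𝓞 K) = v := by
  rw [← h]
  apply HeightOneSpectrum.ext
  show (W.asIdeal.under (𝓞 L)).under (𝓞 K) = W.asIdeal.under (𝓞 K)
  rw [Ideal.under_under]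

theorem es_N (p : ℕ) (hp : p.Prime) (ζ : N) (hζ : IsPrimitiveRoot ζ p)
    (hN : ∀ g : Gal(N/K), g ζ = ζ → (∀ x : L, g (algebraMap L N x) = algebraMap L N x) → g = 1)
    (v : Pl K) (hv : (p : 𝓞 K) ∉ v.asIdeal) : es K N v ∣ es K L v := by
  obtain ⟨W, hW⟩ := under_exists (L := N) v
  rw [← X8_card K N W v hW, ← X8_card K L (W.under (𝓞 L)) v (X8_under K L N W v hW)]
  let f : (W.asIdeal.inertia Gal(N/K)) →* ((W.under (𝓞 L)).asIdeal.inertia Gal(L/K)) :=
    ((AlgEquiv.restrictNormalHom L : Gal(N/K) →* Gal(L/K)).comp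
      (W.asIdeal.inertia Gal(N/K)).subtype).codRestrict _
      (fun σ => X8_inertia K L N W σ.1 σ.2)
  refine Subgroup.card_dvd_of_injective f ?_
  rw [injective_iff_map_eq_one]
  rintro ⟨σ, hσ⟩ h1
  have h2 : (AlgEquiv.restrictNormalHom L σ : Gal(L/K)) = 1 := congrArg Subtype.val h1
  apply Subtype.ext
  apply hN
  · by_contra hne
    apply hv
    have h3 := X8_zeta K N p hp ζ hζ W σ hσ hne
    have h4 : v.asIdeal = W.asIdeal.under (𝓞 K) := (congrArg HeightOneSpectrum.asIdeal hW).symm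
    rw [h4, Ideal.under, Ideal.mem_comap, map_natCast]
    exact h3
  · intro x
    rw [← X8_res K L N σ x, h2]
    rfl

theorem X8_pow (p : ℕ) (hp : p.Prime) (ζ : N) (hζ : IsPrimitiveRoot ζ p) [NeZero p] (σ : Gal(N/K))
    (h : hζ.autToPow K σ = 1) : σ ζ = ζ := by
  have h1 := hζ.autToPow_spec K σ
  have : Fact (1 < p) := ⟨hp.one_lt⟩
  rw [h, Units.val_one, ZMod.val_one, pow_one] at h1
  exact h1.symm

theorem es_N' (p : ℕ) (hp : p.Prime) (ζ : N) (hζ : IsPrimitiveRoot ζ p)
    (hN : ∀ g : Gal(N/K), g ζ = ζ → (∀ x : L, g (algebraMap L N x) = algebraMap L N x) → g = 1)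
    (v : Pl K) (hv : es K L v = 1) : es K N v ∣ p - 1 := by
  have : NeZero p := ⟨hp.ne_zero⟩
  have : Fact p.Prime := ⟨hp⟩
  obtain ⟨W, hW⟩ := under_exists (L := N) v
  have hc := X8_card K L (W.under (𝓞 L)) v (X8_under K L N W v hW)
  rw [hv] at hc
  have hu : Nat.card (ZMod p)ˣ = p - 1 := by
    rw [Nat.card_eq_fintype_card, ZMod.card_units]
  rw [← X8_card K N W v hW, ← hu]
  let f : (W.asIdeal.inertia Gal(N/K)) →* (ZMod p)ˣ :=
    (hζ.autToPow K).comp (W.asIdeal.inertia Gal(N/K)).subtype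
  refine Subgroup.card_dvd_of_injective f ?_
  rw [injective_iff_map_eq_one]
  rintro ⟨σ, hσ⟩ h1
  have h2 : hζ.autToPow K σ = 1 := h1
  have h3 : (AlgEquiv.restrictNormalHom L σ : Gal(L/K)) = 1 := by
    have h4 := X8_inertia K L N W σ hσ
    have h5 : Subsingleton ((W.under (𝓞 L)).asIdeal.inertia Gal(L/K)) :=
      (Nat.card_eq_one_iff_unique.1 hc).1
    exact congrArg Subtype.val (h5.elim (⟨_, h4⟩ : ((W.under (𝓞 L)).asIdeal.inertia Gal(L/K))) 1)
  apply Subtype.ext
  apply hN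
  · exact X8_pow K N p hp ζ hζ σ h2
  · intro x
    rw [← X8_res K L N σ x, h3]
    rfl

/-- The kernel of the restriction to L is cyclic (it embeds in (ZMod p)ˣ) of index [L : K]. -/
theorem ker_cyclic (p : ℕ) (hp : p.Prime) (ζ : N) (hζ : IsPrimitiveRoot ζ p)
    (hN : ∀ g : Gal(N/K), g ζ = ζ → (∀ x : L, g (algebraMap L N x) = algebraMap L N x) → g = 1) :
    IsCyclic (AlgEquiv.restrictNormalHom L : Gal(N/K) →* Gal(L/K)).ker ∧
      (AlgEquiv.restrictNormalHom L : Gal(N/K) →* Gal(L/K)).ker.index = Module.finrank K L := by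
  have : NeZero p := ⟨hp.ne_zero⟩
  have : Fact p.Prime := ⟨hp⟩
  constructor
  · refine isCyclic_of_injective ((hζ.autToPow K).comp
      (AlgEquiv.restrictNormalHom L : Gal(N/K) →* Gal(L/K)).ker.subtype) ?_
    rw [injective_iff_map_eq_one]
    rintro ⟨σ, hσ⟩ h1
    have h2 : hζ.autToPow K σ = 1 := h1
    apply Subtype.ext
    apply hN
    · exact X8_pow K N p hp ζ hζ σ h2
    · intro x
      rw [← X8_res K L N σ x, MonoidHom.mem_ker.1 hσ]
      rfl
  · rw [Subgroup.index_ker, MonoidHom.range_eq_top.2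
      (AlgEquiv.restrictNormalHom_surjective (F := K) (K₁ := L) N), Subgroup.card_top,
      IsGalois.card_aut_eq_finrank]

end H55R
end

-- from Lib.H55R.X7
section

open NumberField IsDedekindDomain
open scoped Pointwise

namespace H55R

/-! Chunk X7 (M): Frobenius elements of an abelian extension N/K at an unramified prime v. Let W be above v, g an arithmetic Frobenius at W (Mathlib:
IsArithFrobAt, IsArithFrobAt.exists_of_isInvariant, arithFrobAt): g x = x^q mod W for x in 𝓞 N, q = absNorm v; g is in the stabiliser D of W (mem_stabilizer). The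
inertia group is trivial (Ideal.card_inertia_eq_ramificationIdxIn), so |D| = f (card_stab), D injects into the automorphisms of the finite field
𝓞 N / W over 𝓞 K / v (a field with q elements, extension of degree f), and g maps to the q-power Frobenius, of order f: so D is generated by g. The
stabilisers of the other primes above v are conjugate, hence equal to D (commutative). So SplA A v iff D <= A iff g is in A.
Roots of unity: g ζ = ζ^a, and ζ^a - ζ^q is in W. If ζ^a <> ζ^q, then p is in W (p = product of the 1 - ζ^i, 0 < i < p, up to units: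
IsPrimitiveRoot; or X^p - 1 is separable modulo W), so p is in v, excluded. -/

theorem X7_inj {K N : Type} [Field K] [NumberField K] [Field N] [NumberField N] [Algebra K N]
    [IsGalois K N] (v : Pl K) (hv : es K N v = 1) (W : Pl N) [hl : W.asIdeal.LiesOver v.asIdeal]
    [hc : SMulCommClass Gal(N/K) (𝓞 K) (𝓞 N)] :
    Function.Injective (Ideal.Quotient.stabilizerHom W.asIdeal v.asIdeal Gal(N/K)) := by
  have hW := W.isPrime
  have hp := v.isPrime
  rw [injective_iff_map_eq_one]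
  intro σ hσ
  have h1 : (σ : Gal(N/K)) ∈ W.asIdeal.inertia Gal(N/K) := by
    rw [← Ideal.Quotient.map_ker_stabilizer_subtype W.asIdeal v.asIdeal Gal(N/K)]
    exact ⟨σ, hσ, rfl⟩
  have h2 : Nat.card (W.asIdeal.inertia Gal(N/K)) = 1 := by
    rw [Ideal.card_inertia_eq_ramificationIdxIn (G := Gal(N/K)) v.asIdeal W.asIdeal]
    exact hv
  rw [Subgroup.card_eq_one.1 h2, Subgroup.mem_bot] at h1
  exact Subtype.ext h1

theorem X7_pow {K N : Type} [Field K] [NumberField K] [Field N] [NumberField N] [Algebra K N]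
    [IsGalois K N] (v : Pl K) (hv : es K N v = 1) (W : Pl N) [hl : W.asIdeal.LiesOver v.asIdeal]
    [hc : SMulCommClass Gal(N/K) (𝓞 K) (𝓞 N)] (g : Gal(N/K)) (hg : IsArithFrobAt (𝓞 K) g W.asIdeal)
    (σ : Gal(N/K)) (hσ : σ • W.asIdeal = W.asIdeal) : ∃ n : ℕ, σ = g ^ n := by
  have hW := W.isPrime
  have hp := v.isPrime
  have hWm := W.isMaximal
  have hpm := v.isMaximal
  have hfin : Finite (𝓞 N ⧸ W.asIdeal) := Ideal.finiteQuotientOfFreeOfNeBot _ W.ne_bot
  have hfin' : Finite (𝓞 K ⧸ v.asIdeal) := Ideal.finiteQuotientOfFreeOfNeBot _ v.ne_bot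
  let _ := Ideal.Quotient.field v.asIdeal
  let _ := Ideal.Quotient.field W.asIdeal
  let _ := Fintype.ofFinite (𝓞 K ⧸ v.asIdeal)
  have hgs := hg.mem_stabilizer
  obtain ⟨⟨n, hn⟩, hn2⟩ := (FiniteField.bijective_frobeniusAlgEquivOfAlgebraic_pow (𝓞 K ⧸ v.asIdeal)
    (𝓞 N ⧸ W.asIdeal)).2 (Ideal.Quotient.stabilizerHom W.asIdeal v.asIdeal Gal(N/K) ⟨σ, hσ⟩)
  have hF : Ideal.Quotient.stabilizerHom W.asIdeal v.asIdeal Gal(N/K) ⟨g, hgs⟩ =
      FiniteField.frobeniusAlgEquivOfAlgebraic (𝓞 K ⧸ v.asIdeal) (𝓞 N ⧸ W.asIdeal) := by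
    apply AlgEquiv.ext
    intro y
    obtain ⟨x, rfl⟩ := Ideal.Quotient.mk_surjective y
    rw [FiniteField.coe_frobeniusAlgEquivOfAlgebraic]
    have h1 := hg.mk_apply x
    rw [← hl.over, Nat.card_eq_fintype_card] at h1
    exact h1
  refine ⟨n, ?_⟩
  have h2 : Ideal.Quotient.stabilizerHom W.asIdeal v.asIdeal Gal(N/K) ⟨σ, hσ⟩ =
      Ideal.Quotient.stabilizerHom W.asIdeal v.asIdeal Gal(N/K) (⟨g, hgs⟩ ^ n) := by
    rw [map_pow, hF]
    exact hn2.symm
  exact congrArg Subtype.val (X7_inj v hv W h2)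

theorem exists_frob (K N : Type) [Field K] [NumberField K] [Field N] [NumberField N] [Algebra K N]
    [IsGalois K N] (hc : ∀ g h : Gal(N/K), g * h = h * g) (v : Pl K) (hv : es K N v = 1) :
    ∃ g : Gal(N/K), (∀ A : Subgroup Gal(N/K), SplA A v ↔ g ∈ A) ∧
      ∀ (p : ℕ) (ζ : N), p.Prime → IsPrimitiveRoot ζ p → (p : 𝓞 K) ∉ v.asIdeal →
        g ζ = ζ ^ Ideal.absNorm v.asIdeal := by
  classical
  have hcomm := BF1_comm (K := K) (L := N)
  obtain ⟨W, hW⟩ := under_exists (L := N) v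
  have hl : W.asIdeal.LiesOver v.asIdeal := (BF2_mem v W hW).2
  have hWp := W.isPrime
  have hfin : Finite (𝓞 N ⧸ W.asIdeal) := Ideal.finiteQuotientOfFreeOfNeBot _ W.ne_bot
  obtain ⟨g, hg⟩ := IsArithFrobAt.exists_of_isInvariant (𝓞 K) Gal(N/K) W.asIdeal
  refine ⟨g, fun A => ⟨fun h => h W hW g hg.mem_stabilizer, fun h => ?_⟩, ?_⟩
  · intro W' hW' σ hσ
    obtain ⟨τ, hτ⟩ := smulP_trans W W' (hW.trans hW'.symm)
    have h1 : W'.asIdeal = τ • W.asIdeal := (congrArg HeightOneSpectrum.asIdeal hτ).symm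
    rw [h1, ← mul_smul, hc σ τ, mul_smul] at hσ
    have h2 := smul_left_cancel τ hσ
    obtain ⟨n, hn⟩ := X7_pow v hv W g hg σ h2
    rw [hn]
    exact A.pow_mem h n
  · intro p ζ hp hζ hpv
    have hint : IsIntegral ℤ ζ := hζ.isIntegral hp.pos
    obtain ⟨z, hz⟩ : ∃ z : 𝓞 N, (z : N) = ζ := ⟨⟨ζ, hint⟩, rfl⟩
    have hz1 : z ^ p = 1 := by
      apply RingOfIntegers.coe_injective
      rw [map_pow, map_one]
      change (z : N) ^ p = 1
      rw [hz, hζ.pow_eq_one]
    have hpW : (p : 𝓞 N) ∉ W.asIdeal := by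
      intro h
      apply hpv
      rw [hl.over, Ideal.under, Ideal.mem_comap, map_natCast]
      exact h
    have h1 := AlgHom.IsArithFrobAt.apply_of_pow_eq_one hg hz1 hpW
    have h2 : g • z = z ^ Ideal.absNorm v.asIdeal := by
      rw [Ideal.absNorm_apply, Submodule.cardQuot_apply, hl.over]
      exact h1
    have h3 : ((g • z : 𝓞 N) : N) = ((z ^ Ideal.absNorm v.asIdeal : 𝓞 N) : N) := by rw [h2]
    rw [BF1_coe, hz] at h3
    rw [h3, ← hz]
    exact map_pow (algebraMap (𝓞 N) N) z _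

end H55R
end
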