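import Mathlib
import Pool.Agent.Lib.H1M.PP.D_H55P_Sel

/-! Merged copies (to shorten the build) of Lib.H13Z.LF1, Lib.H55R.X1, Lib.H55R.X3, Lib.H55K.D3, Lib.H55P.SA2, Lib.H55R.X11, Lib.H55R.X2, Lib.H55P.SA1. -/

-- from Lib.H13Z.LF1
section

open NumberField IsDedekindDomain

namespace H13Z

open H55P

theorem lf1_one {G : Type} [LinearOrderedCommGroupWithZero G] (a : G) (n : ℕ) (hn : n ≠ 0)
    (h : a ^ n = 1) : a = 1 := by
  have h0 : (0 : G) ≤ a := zero_le
  exact (pow_eq_one_iff_of_nonneg h0 hn).1 h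

/-- lower bound for the value of ζ - 1 -/
theorem lf1_root {Ω : Type} [Field Ω] (V : ValuationSubring Ω) (l : ℕ) (hl : l.Prime)
    (ζ : Ω) (hζ : ζ ^ l = 1) (h1 : ζ ≠ 1) : V.valuation (l : Ω) ≤ V.valuation (ζ - 1) ^ (l - 1) := by
  have hl2 := hl.two_le
  have hv1 : V.valuation ζ = 1 := by
    apply lf1_one _ l hl.ne_zero
    rw [← map_pow, hζ, map_one]
  have hpr : IsPrimitiveRoot ζ l := by
    have : Fact l.Prime := ⟨hl⟩
    have := orderOf_eq_prime hζ h1
    rw [← this]
    exact IsPrimitiveRoot.orderOf ζ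
  have key : ∀ j ∈ Finset.range (l - 1), V.valuation (1 - ζ ^ (j + 1)) ≤ V.valuation (1 - ζ) := by
    intro j _
    have e1 : (1 - ζ ^ (j + 1) : Ω) = (1 - ζ) * ∑ i ∈ Finset.range (j + 1), ζ ^ i := by
      rw [mul_comm, geom_sum_mul_neg]
    rw [e1, map_mul]
    have e2 : V.valuation (∑ i ∈ Finset.range (j + 1), ζ ^ i) ≤ 1 := by
      apply Valuation.map_sum_le
      intro i _
      rw [map_pow, hv1, one_pow]
    calc V.valuation (1 - ζ) * V.valuation (∑ i ∈ Finset.range (j + 1), ζ ^ i)
        ≤ V.valuation (1 - ζ) * 1 := by gcongr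
      _ = _ := mul_one _
  have hprod : ∏ k ∈ Finset.range (l - 1), (1 - ζ ^ (k + 1)) = (l : Ω) := by
    have hpr' : IsPrimitiveRoot ζ ((l - 1) + 1) := by
      have : l - 1 + 1 = l := by omega
      rw [this]; exact hpr
    rw [hpr'.prod_one_sub_pow_eq_order]
    have : ((l - 1 : ℕ) : Ω) + 1 = ((l - 1 + 1 : ℕ) : Ω) := by push_cast; ring
    rw [this]
    congr 1
    omega
  rw [← hprod, map_prod, Valuation.map_sub_swap]
  calc ∏ k ∈ Finset.range (l - 1), V.valuation (1 - ζ ^ (k + 1))
      ≤ ∏ _k ∈ Finset.range (l - 1), V.valuation (1 - ζ) := Finset.prod_le_prod' key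
    _ = _ := by rw [Finset.prod_const, Finset.card_range]

theorem fix_eq {F₀ Ω : Type} [Field F₀] [Field Ω] [Algebra F₀ Ω] [CharZero Ω] (V : ValuationSubring Ω)
    {l : ℕ} (hl : l.Prime) (h3 : 3 ≤ l) (hV : V.valuation (l : Ω) < 1) {τ u y : Ω}
    (hτ : V.valuation τ ^ (l - 1) = V.valuation (l : Ω)) (hy : y ^ l = u)
    (hu : V.valuation (u - 1) ≤ V.valuation τ ^ l) {s : Ω ≃ₐ[F₀] Ω} (hs : Inert V s) (h1 : s τ = τ)
    (h2 : s u = u) : s y = y := by
  have hl0 : V.valuation (l : Ω) ≠ 0 := by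
    rw [Valuation.ne_zero_iff]
    exact_mod_cast hl.ne_zero
  have hτ0 : V.valuation τ ≠ 0 := by
    intro h
    rw [h, zero_pow (by omega)] at hτ
    exact hl0 hτ.symm
  have hτne : τ ≠ 0 := (Valuation.ne_zero_iff _).1 hτ0
  have hτ1 : V.valuation τ < 1 := by
    by_contra h
    have := one_le_pow₀ (not_lt.1 h) (n := l - 1)
    rw [hτ] at this
    exact absurd hV (not_lt.2 this)
  have hu1 : V.valuation u = 1 := by
    have h4 : V.valuation (u - 1) < V.valuation 1 := by
      rw [map_one]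
      exact lt_of_le_of_lt hu (pow_lt_one₀ zero_le hτ1 hl.ne_zero)
    rw [Valuation.map_eq_of_sub_lt _ h4, map_one]
  have hy1 : V.valuation y = 1 := by
    apply lf1_one _ l hl.ne_zero
    rw [← map_pow, hy, hu1]
  have hy0 : y ≠ 0 := by
    rintro rfl
    rw [map_zero] at hy1
    exact zero_ne_one hy1
  by_contra hne
  have hζ : (s y / y) ^ l = 1 := by
    rw [div_pow, ← map_pow, hy, h2, div_self]
    rw [← hy]
    exact pow_ne_zero _ hy0
  have hζ1 : s y / y ≠ 1 := by
    intro h
    rw [div_eq_one_iff_eq hy0] at h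
    exact hne h
  have hroot := lf1_root V l hl _ hζ hζ1
  have hge : V.valuation τ ≤ V.valuation (s y / y - 1) := by
    by_contra h
    push Not at h
    have h5 := pow_lt_pow_left₀ h zero_le (n := l - 1) (by omega)
    rw [hτ] at h5
    exact absurd hroot (not_le.2 h5)
  obtain ⟨Z, hZ⟩ : ∃ Z, Z = y - 1 := ⟨_, rfl⟩
  have hZV : Z ∈ V := by
    rw [← V.valuation_le_one_iff, hZ]
    refine (Valuation.map_sub _ _ _).trans ?_
    rw [hy1, map_one, max_self]
  have hZτ : V.valuation Z ≤ V.valuation τ := by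
    by_contra h
    push Not at h
    obtain ⟨r, hr⟩ := exists_add_pow_prime_eq hl (⟨Z, hZV⟩ : V) 1
    have hr' := congrArg (fun x : V => (x : Ω)) hr
    push_cast at hr'
    have e1 : Z ^ l = (u - 1) - (l : Ω) * Z * (r : Ω) := by
      have e2 : Z + 1 = y := by rw [hZ]; ring
      rw [e2, hy, one_pow] at hr'
      linear_combination -hr'
    have hZ0 : V.valuation Z ≠ 0 := (lt_of_le_of_lt zero_le h).ne'
    have h6 : V.valuation (Z ^ l) < V.valuation Z ^ l := by
      rw [e1]
      apply Valuation.map_sub_lt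
      · exact lt_of_le_of_lt hu (pow_lt_pow_left₀ h zero_le hl.ne_zero)
      · rw [map_mul, map_mul]
        have hr1 : V.valuation (r : Ω) ≤ 1 := V.valuation_le_one r
        have h7 : V.valuation (l : Ω) < V.valuation Z ^ (l - 1) := by
          rw [← hτ]
          exact pow_lt_pow_left₀ h zero_le (by omega)
        calc V.valuation (l : Ω) * V.valuation Z * V.valuation (r : Ω)
            ≤ V.valuation (l : Ω) * V.valuation Z * 1 := by gcongr
          _ = V.valuation (l : Ω) * V.valuation Z := mul_one _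
          _ < V.valuation Z ^ (l - 1) * V.valuation Z :=
            mul_lt_mul_of_pos_right h7 (zero_lt_iff.2 hZ0)
          _ = V.valuation Z ^ l := by
            rw [← pow_succ]
            congr 1
            omega
    rw [map_pow] at h6
    exact lt_irrefl _ h6
  have hx : Z / τ ∈ V := by
    rw [← V.valuation_le_one_iff, map_div₀]
    exact div_le_one_of_le₀ hZτ zero_le
  have h8 := hs _ hx
  have e3 : s (Z / τ) - Z / τ = (s y / y - 1) * y / τ := by
    rw [map_div₀, h1, hZ, map_sub, map_one]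
    field_simp
    ring
  rw [e3, map_div₀, map_mul, hy1, mul_one, div_lt_one₀ (zero_lt_iff.2 hτ0)] at h8
  exact absurd hge (not_le.2 h8)

end H13Z
end

-- from Lib.H55R.X1
section

namespace H55R

/-! Chunk X1 (M, pure Mathlib, elementary number theory). For j >= 1 let y = q^(l^(j-1)), A = 1 + y + ... + y^(l-1), (y - 1) A = y^l - 1. A prime p <> l dividing A
does not divide q (A = 1 mod y, q | y), y^l = 1 mod p, and y <> 1 mod p (otherwise A = l mod p, p = l); so the order of q mod p divides l^j but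
not l^(j-1): it is l^j, l divides it, and l^j <= p - 1. Such a p exists for all large j: A has a prime factor other than l, because otherwise A is a power of l,
A > l >= 2 (A >= 1 + y + ... , y >= 2^(l^(j-1))), so l^2 | A; but: for l odd, l | A gives y^l = 1 mod l, y = 1 mod l (Fermat), y = 1 + l t and
A = sum (1 + l t)^i = sum (1 + i l t) = l + l t l (l-1)/2 = l mod l^2, contradiction; for l = 2 take j >= 2: y is a square, A = 1 + y = 1 or 2 mod 4, so 4
does not divide A. Choose j with l^j larger than all elements of bad. -/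

/-- `l ^ 2` does not divide `1 + y + ... + y ^ (l - 1)`. -/
theorem X1_not_sq_dvd (l y : ℕ) (hl : l.Prime) (h2 : l = 2 → ∃ z, y = z ^ 2) :
    ¬ l ^ 2 ∣ ∑ i ∈ Finset.range l, y ^ i := by
  intro h
  have := Fact.mk hl
  rcases hl.eq_two_or_odd' with h2' | hodd
  · obtain ⟨z, hz⟩ := h2 h2'
    subst h2'
    rw [Finset.sum_range_succ, Finset.sum_range_one, pow_zero, pow_one, hz] at h
    have h4 : (z ^ 2) % 4 = 0 ∨ (z ^ 2) % 4 = 1 := by
      rcases Nat.even_or_odd' z with ⟨c, hc | hc⟩
      · left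
        rw [hc]
        ring_nf
        omega
      · right
        rw [hc]
        ring_nf
        omega
    omega
  · -- `l` divides `y - 1`
    have hdvd : l ∣ ∑ i ∈ Finset.range l, y ^ i := (dvd_pow_self l two_ne_zero).trans h
    have h1 : ((∑ i ∈ Finset.range l, y ^ i : ℕ) : ZMod l) = 0 :=
      (ZMod.natCast_eq_zero_iff _ _).2 hdvd
    push_cast at h1
    have h2 := mul_geom_sum (y : ZMod l) l
    rw [h1, mul_zero, ZMod.pow_card] at h2
    have h3 : (y : ZMod l) = 1 := (sub_eq_zero.1 h2.symm)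
    have h4 : (l : ℤ) ∣ (y : ℤ) - 1 := by
      rw [← ZMod.intCast_zmod_eq_zero_iff_dvd]
      push_cast
      rw [h3, sub_self]
    obtain ⟨t, ht⟩ := h4
    have h5 := odd_sq_dvd_geom_sum₂_sub (R := ℤ) (a := 1) t hodd
    simp only [one_pow, mul_one] at h5
    have h6 : (1 : ℤ) + l * t = y := by
      rw [← ht]
      ring
    rw [h6] at h5
    have h7 : ((l : ℤ) ^ 2) ∣ ∑ i ∈ Finset.range l, (y : ℤ) ^ i := by
      exact_mod_cast h
    have h8 : ((l : ℤ) ^ 2) ∣ (l : ℤ) := by
      have := dvd_sub h7 h5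
      rwa [sub_sub_cancel] at this
    have h9 : l ^ 2 ∣ l := by exact_mod_cast h8
    have h10 := Nat.le_of_dvd hl.pos h9
    have := hl.two_le
    nlinarith

theorem exists_p (q l : ℕ) (hq : 1 < q) (hl : l.Prime) (bad : Finset ℕ) :
    ∃ p : ℕ, p.Prime ∧ ¬ p ∣ q ∧ p ∉ bad ∧ l ∣ orderOf (q : ZMod p) := by
  set j : ℕ := bad.sup id + 1 with hj
  have hj1 : 1 ≤ j := by omega
  set y : ℕ := q ^ l ^ j with hy
  have hl2 := hl.two_le
  have hlj : 1 ≤ l ^ j := Nat.one_le_pow _ _ hl.pos
  have hy1 : 1 < y := Nat.one_lt_pow (by omega) hq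
  set A : ℕ := ∑ i ∈ Finset.range l, y ^ i with hA
  have hsq : ¬ l ^ 2 ∣ A := by
    refine X1_not_sq_dvd l y hl fun h => ⟨q ^ l ^ (j - 1), ?_⟩
    rw [hy, ← pow_mul]
    congr 1
    rw [h, ← pow_succ]
    congr 1
  have hAl : l < A := by
    have h1 : ∑ i ∈ Finset.range l, 1 < ∑ i ∈ Finset.range l, y ^ i := by
      refine Finset.sum_lt_sum (fun i _ => Nat.one_le_pow _ _ (by omega)) ⟨1, ?_, ?_⟩
      · rw [Finset.mem_range]
        omega
      · rw [pow_one]
        exact hy1
    simpa using h1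
  -- a prime factor different from `l`
  obtain ⟨p, hp, hpA, hpl⟩ : ∃ p : ℕ, p.Prime ∧ p ∣ A ∧ p ≠ l := by
    by_contra hcon
    push Not at hcon
    have h1 := Nat.eq_prime_pow_of_unique_prime_dvd (n := A) (p := l) (by omega)
      fun {d} hd hdA => hcon d hd hdA
    rcases Nat.lt_or_ge A.primeFactorsList.length 2 with h2 | h2
    · have h3 : A ≤ l := by
        rw [h1]
        calc l ^ A.primeFactorsList.length ≤ l ^ 1 :=
              Nat.pow_le_pow_right hl.pos (by omega)
          _ = l := pow_one l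
      omega
    · refine hsq ?_
      rw [h1]
      exact pow_dvd_pow l h2
  have hpf := Fact.mk hp
  have hA0 : ((A : ℕ) : ZMod p) = 0 := (ZMod.natCast_eq_zero_iff _ _).2 hpA
  have hyl : ((y : ℕ) : ZMod p) ^ l = 1 := by
    have h2 := mul_geom_sum (y : ZMod p) l
    rw [hA] at hA0
    push_cast at hA0
    rw [hA0, mul_zero] at h2
    exact (sub_eq_zero.1 h2.symm)
  have hy1' : ((y : ℕ) : ZMod p) ≠ 1 := by
    intro h
    rw [hA] at hA0
    push_cast at hA0
    rw [h] at hA0
    simp only [one_pow, Finset.sum_const, Finset.card_range, nsmul_eq_mul, mul_one] at hA0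
    have h3 : p ∣ l := (ZMod.natCast_eq_zero_iff _ _).1 hA0
    exact hpl ((Nat.prime_dvd_prime_iff_eq hp hl).1 h3)
  have hord : orderOf (q : ZMod p) = l ^ (j + 1) := by
    have := Fact.mk hl
    refine orderOf_eq_prime_pow ?_ ?_
    · intro h
      apply hy1'
      rw [hy]
      push_cast
      exact h
    · rw [pow_succ, pow_mul]
      rw [hy] at hyl
      push_cast at hyl
      exact hyl
  have hq0 : (q : ZMod p) ≠ 0 := by
    intro h
    rw [hy] at hyl
    push_cast at hyl
    rw [h, zero_pow (by omega), zero_pow hl.ne_zero] at hyl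
    exact zero_ne_one hyl
  refine ⟨p, hp, ?_, ?_, ?_⟩
  · intro h
    exact hq0 ((ZMod.natCast_eq_zero_iff _ _).2 h)
  · intro hbad
    have h1 : orderOf (q : ZMod p) ∣ p - 1 := ZMod.orderOf_dvd_card_sub_one hq0
    rw [hord] at h1
    have h2 := Nat.le_of_dvd (by have := hp.two_le; omega) h1
    have h3 : p ≤ bad.sup id := Finset.le_sup (f := id) hbad
    have h4 : j + 1 < l ^ (j + 1) := (Nat.lt_two_pow_self).trans_le (Nat.pow_le_pow_left hl2 _)
    omega
  · rw [hord]
    exact dvd_pow_self l (by omega)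

end H55R
end

-- from Lib.H55R.X3
section

open NumberField IsDedekindDomain

namespace H55R

/-! Chunk X3 (M): the field N = L(zeta_p). Take N = CyclotomicField p L (a number field, IsCyclotomicExtension {p} L N, ζ = IsCyclotomicExtension.zeta),
Algebra K N by composition (toAlgebra), scalar tower. N/K is normal: the splitting field of f (X^p - 1) if L is the splitting field
of f over K (IsGalois.of_isSplittingField..., or: every K-embedding of N into an algebraic closure maps L to L (normal) and ζ to a p-th root of unity,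
hence N to N: Normal via AlgHom.fieldRange), separable in characteristic 0. An automorphism fixing L and ζ is the identity (N is generated by ζ over L).
Commutative: (g h)(x) = (h g)(x) for x in L (restrictions to L commute by hc; AlgEquiv.restrictNormal) and for ζ: g ζ = ζ^a, h ζ = ζ^b;
so (g h)(h g)^-1 fixes L and ζ. -/

theorem exists_N (K L : Type) [Field K] [NumberField K] [Field L] [NumberField L] [Algebra K L]
    [IsGalois K L] (hc : ∀ g h : Gal(L/K), g * h = h * g) (p : ℕ) (hp : p.Prime) :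
    ∃ (N : Type) (_ : Field N) (_ : NumberField N) (_ : Algebra K N) (_ : Algebra L N)
      (_ : IsScalarTower K L N) (ζ : N), IsPrimitiveRoot ζ p ∧ IsGalois K N ∧
      (∀ g h : Gal(N/K), g * h = h * g) ∧
      (∀ g : Gal(N/K), g ζ = ζ → (∀ x : L, g (algebraMap L N x) = algebraMap L N x) → g = 1) := by
  have : NeZero p := ⟨hp.ne_zero⟩
  have hζ : IsPrimitiveRoot (IsCyclotomicExtension.zeta p L (CyclotomicField p L)) p :=
    IsCyclotomicExtension.zeta_spec p L (CyclotomicField p L)
  have hgal : IsGalois K (CyclotomicField p L) := by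
    have hff : ∃ f : Polynomial K, f ≠ 0 ∧ Polynomial.IsSplittingField K L f := by
      obtain ⟨f, hf⟩ := Normal.exists_isSplittingField K L
      rcases ne_or_eq f 0 with h0 | h0
      · exact ⟨f, h0, hf⟩
      · refine ⟨1, one_ne_zero, ⟨?_, ?_⟩⟩
        · rw [Polynomial.map_one]
          exact Polynomial.Splits.one
        · have h1 := hf.adjoin_rootSet
          rw [h0, Polynomial.rootSet_zero] at h1
          rw [Polynomial.rootSet_one]
          exact h1
    obtain ⟨f, hf0, hf⟩ := hff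
    have hg0 : ((Polynomial.X : Polynomial K) ^ p - 1) ≠ 0 :=
      Polynomial.X_pow_sub_C_ne_zero hp.pos (1 : K)
    have h2 : Polynomial.IsSplittingField L (CyclotomicField p L)
        (((Polynomial.X : Polynomial K) ^ p - 1).map (algebraMap K L)) := by
      rw [Polynomial.map_sub, Polynomial.map_pow, Polynomial.map_X, Polynomial.map_one]
      exact IsCyclotomicExtension.isSplittingField_X_pow_sub_one p L (CyclotomicField p L)
    have h3 : Normal K (CyclotomicField p L) := by
      have h4 := Polynomial.IsSplittingField.mul (F := K) (K := L) (CyclotomicField p L) f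
        ((Polynomial.X : Polynomial K) ^ p - 1) hf0 hg0
      exact Normal.of_isSplittingField (f * ((Polynomial.X : Polynomial K) ^ p - 1))
    exact ⟨⟩
  have hfix : ∀ g : Gal((CyclotomicField p L)/K),
      g (IsCyclotomicExtension.zeta p L (CyclotomicField p L)) =
        IsCyclotomicExtension.zeta p L (CyclotomicField p L) →
      (∀ x : L, g (algebraMap L (CyclotomicField p L) x) = algebraMap L (CyclotomicField p L) x) →
      g = 1 := by
    intro g h1 h2
    let g' : (CyclotomicField p L) →ₐ[L] (CyclotomicField p L) :=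
      { ((g : (CyclotomicField p L) ≃ₐ[K] (CyclotomicField p L)) :
          (CyclotomicField p L) →+* (CyclotomicField p L)) with
        commutes' := h2 }
    have h3 : g' = AlgHom.id L (CyclotomicField p L) := by
      refine AlgHom.ext_of_adjoin_eq_top
        (IsCyclotomicExtension.adjoin_primitive_root_eq_top (A := L) hζ) ?_
      intro x hx
      rw [Set.mem_singleton_iff] at hx
      rw [hx]
      exact h1
    ext x
    exact DFunLike.congr_fun h3 x
  refine ⟨CyclotomicField p L, inferInstance, inferInstance, inferInstance, inferInstance,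
    inferInstance, IsCyclotomicExtension.zeta p L (CyclotomicField p L), hζ, hgal, ?_, hfix⟩
  intro g h
  have hres : ∀ (k : Gal((CyclotomicField p L)/K)) (x : L),
      k (algebraMap L (CyclotomicField p L) x) =
        algebraMap L (CyclotomicField p L) (AlgEquiv.restrictNormal k L x) := fun k x =>
    (AlgEquiv.restrictNormal_commutes k L x).symm
  have h1 : (h * g)⁻¹ * (g * h) = 1 := by
    apply hfix
    · have h2 : (g * h) (IsCyclotomicExtension.zeta p L (CyclotomicField p L)) =
          (h * g) (IsCyclotomicExtension.zeta p L (CyclotomicField p L)) := by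
        rw [AlgEquiv.mul_apply, AlgEquiv.mul_apply, ← hζ.autToPow_spec K h, ← hζ.autToPow_spec K g,
          map_pow, map_pow, ← hζ.autToPow_spec K g, ← hζ.autToPow_spec K h, ← pow_mul, ← pow_mul,
          mul_comm]
      rw [AlgEquiv.mul_apply, h2, ← AlgEquiv.mul_apply, inv_mul_cancel]
      rfl
    · intro x
      have h2 : (g * h) (algebraMap L (CyclotomicField p L) x) =
          (h * g) (algebraMap L (CyclotomicField p L) x) := by
        rw [AlgEquiv.mul_apply, AlgEquiv.mul_apply, hres h x, hres g x, hres, hres]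
        congr 1
        exact DFunLike.congr_fun (hc (AlgEquiv.restrictNormal g L) (AlgEquiv.restrictNormal h L)) x
      rw [AlgEquiv.mul_apply, h2, ← AlgEquiv.mul_apply, inv_mul_cancel]
      rfl
  exact (inv_mul_eq_one.1 h1).symm

end H55R
end

-- from Lib.H55K.D3
section

/-! # H55K, part D: the local polynomial at a prime of additive reduction -/

open WeierstrassCurve

namespace H55K.DD

/-- Chunk D3 (S/M), PORT of H55B.bad_local (Lib/H55B/F2.lean). W.minimal R = C • W is integral. Not good: hbad. Not multiplicative: c₄' = u^-4 c₄ and Δ' = u^-12 Δ (variableChange_c₄, variableChange_Δ), so c₄'^3 = j₀ Δ'; if the valuation of c₄' is 1 and that of Δ' is < 1 then 1 = v(j₀) v(Δ') < 1 (v(j₀) ≤ 1: HeightOneSpectrum.valuation_le_one). -/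
theorem bad_loc (R : Type) [CommRing R] [IsDomain R] [IsDiscreteValuationRing R] (K : Type) [Field K] [Algebra R K]
    [IsFractionRing R K] (W : WeierstrassCurve K) (j₀ : R) (hj : W.c₄ ^ 3 = algebraMap R K j₀ * W.Δ)
    (hbad : ∀ C : VariableChange K, IsIntegral R (C • W) →
      (IsDiscreteValuationRing.maximalIdeal R).valuation K (C • W).Δ ≠ 1) : W.localPolynomial R = 1 := by
  obtain ⟨C, hC⟩ : ∃ C : WeierstrassCurve.VariableChange K, W.minimal R = C • W :=
    ⟨_, rfl⟩
  have hint : IsIntegral R (C • W) := by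
    rw [← hC]
    infer_instance
  have hgood : ¬ (W.minimal R).HasGoodReduction R := by
    intro hg
    have h1 := hg.goodReduction
    rw [hC] at h1
    exact hbad C hint h1
  have hmult : ¬ (W.minimal R).HasMultiplicativeReduction R := by
    intro hm
    have h1 := hm.multiplicativeReduction
    have h2 := hm.badReduction
    rw [hC] at h1 h2
    have h3 : (C • W).c₄ ^ 3 = algebraMap R K j₀ * (C • W).Δ := by
      rw [WeierstrassCurve.variableChange_c₄, WeierstrassCurve.variableChange_Δ, mul_pow, hj]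
      ring
    have h4 := congrArg ((IsDiscreteValuationRing.maximalIdeal R).valuation K) h3
    rw [map_pow, h1, one_pow, map_mul] at h4
    have h5 : (IsDiscreteValuationRing.maximalIdeal R).valuation K (algebraMap R K j₀) ≤ 1 :=
      IsDedekindDomain.HeightOneSpectrum.valuation_le_one _ _
    have h6 : (IsDiscreteValuationRing.maximalIdeal R).valuation K (algebraMap R K j₀) *
        (IsDiscreteValuationRing.maximalIdeal R).valuation K (C • W).Δ < 1 :=
      by rw [mul_comm]; exact mul_lt_one_of_lt_of_le h2 h5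
    rw [← h4] at h6
    exact lt_irrefl _ h6
  have hsplit : ¬ (W.minimal R).HasSplitMultiplicativeReduction R := fun hs =>
    hmult hs.toHasMultiplicativeReduction
  unfold WeierstrassCurve.localPolynomial
  rw [if_neg hgood, if_neg hsplit, if_neg hmult]

end H55K.DD
end

-- from Lib.H55P.SA2
section

namespace H55P

/-! Chunk PSA2 (M). Pure group theory: a cocycle on N whose class is invariant under H extends to H.
PROOF. For g in H choose T_g (hinv), unique by h0 (the difference of two is fixed by N and killed by p). c' g = T_g for g in H (0 outside). For g in N: ρ g (c (g⁻¹ s g)) - c s = ρ s (c g) - c g: expand c (g⁻¹ s g) = c (g⁻¹) + ρ g⁻¹ (c (s g)),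
ρ g (c g⁻¹) = - c g (from c 1 = 0), c (s g) = c s + ρ s (c g); so T_g = c g by uniqueness. For g, h in H: with g.c = the function s -> ρ g (c (g⁻¹ s g)): (gh).c - c = g.(h.c - c) + (g.c - c), and g.(∂T)(s) = ρ g (ρ (g⁻¹ s g) T - T) = ρ s (ρ g T) - ρ g T;
so ρ g T_h + T_g has the property of T_(gh): T_(gh) = T_g + ρ g T_h. -/

theorem ext_coc {G M : Type} [Group G] [AddCommGroup M] (ρ : G →* AddMonoid.End M) (p : ℕ)
    (N H : Subgroup G) (hNH : N ≤ H) (hn : ∀ h ∈ H, ∀ n ∈ N, h * n * h⁻¹ ∈ N)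
    (h0 : ∀ T : M, p • T = 0 → (∀ n ∈ N, ρ n T = T) → T = 0) (c : G → M)
    (hc : ∀ s ∈ N, ∀ t ∈ N, c (s * t) = c s + ρ s (c t)) (hpc : ∀ s ∈ N, p • c s = 0)
    (hinv : ∀ g ∈ H, ∃ T : M, p • T = 0 ∧ ∀ s ∈ N, ρ g (c (g⁻¹ * s * g)) - c s = ρ s T - T) :
    ∃ c' : G → M, (∀ s ∈ H, ∀ t ∈ H, c' (s * t) = c' s + ρ s (c' t)) ∧ (∀ s ∈ H, p • c' s = 0) ∧
      ∀ s ∈ N, c' s = c s := by
  choose! T hpT hT using hinv
  have hmul : ∀ (a b : G) (x : M), ρ (a * b) x = ρ a (ρ b x) := by
    intro a b x
    rw [map_mul]; rfl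
  have hcj : ∀ g ∈ H, ∀ s ∈ N, g⁻¹ * s * g ∈ N := by
    intro g hg s hs
    have := hn g⁻¹ (H.inv_mem hg) s hs
    simpa using this
  have huniq : ∀ g ∈ H, ∀ T' : M, p • T' = 0 →
      (∀ s ∈ N, ρ g (c (g⁻¹ * s * g)) - c s = ρ s T' - T') → T g = T' := by
    intro g hg T' hp' hT'
    rw [← sub_eq_zero]
    apply h0
    · rw [smul_sub, hpT g hg, hp', sub_zero]
    · intro n hnN
      have h1 := hT g hg n hnN
      rw [hT' n hnN] at h1
      rw [map_sub, sub_eq_sub_iff_sub_eq_sub]
      exact h1.symm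
  refine ⟨T, ?_, hpT, ?_⟩
  · intro g hg h hh
    apply huniq _ (H.mul_mem hg hh)
    · rw [smul_add, hpT g hg, ← map_nsmul, hpT h hh, map_zero, add_zero]
    · intro s hs
      have hs' := hcj g hg s hs
      have e1 : (g * h)⁻¹ * s * (g * h) = h⁻¹ * (g⁻¹ * s * g) * h := by group
      have e2 : ρ h (c (h⁻¹ * (g⁻¹ * s * g) * h)) =
          c (g⁻¹ * s * g) + (ρ (g⁻¹ * s * g) (T h) - T h) := by
        rw [← hT h hh _ hs']
        abel
      have e3 : ρ g (c (g⁻¹ * s * g)) = c s + (ρ s (T g) - T g) := by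
        rw [← hT g hg s hs]
        abel
      have e4 : ρ g (ρ (g⁻¹ * s * g) (T h)) = ρ s (ρ g (T h)) := by
        rw [← hmul, ← hmul]
        congr 2
        group
      rw [e1, hmul, e2, map_add, map_sub, e3, e4, map_add]
      abel
  · intro s hs
    apply huniq s (hNH hs) _ (hpc s hs)
    intro t ht
    have hs' := hcj s (hNH hs) t ht
    have e1 : c (s * (s⁻¹ * t * s)) = c s + ρ s (c (s⁻¹ * t * s)) := hc s hs _ hs'
    have e2 : c (t * s) = c t + ρ t (c s) := hc t ht s hs
    have e3 : s * (s⁻¹ * t * s) = t * s := by group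
    rw [e3, e2] at e1
    rw [sub_eq_sub_iff_add_eq_add, add_comm (ρ s _), ← e1, add_comm]

end H55P
end

-- from Lib.H55R.X11
section

namespace H55R

/-! Chunk X11 (S, group theory). fin_adjoin: the product map Y × zpowers φ -> Y ⊔ zpowers φ is surjective (commutative group, Subgroup.mem_sup).
card_adjoin: zpowers φ has prime order l (φ <> 1 as φ is not in Y) and meets Y in 1 (its subgroups are trivial or everything), so the product map is injective too.
mem_adjoin: elements of Y ⊔ zpowers φ are μ φ^j. -/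

theorem X11_map {P : Type} [CommGroup P] (Y : Subgroup P) (φ : P) :
    Function.Surjective (fun q : Y × Subgroup.zpowers φ =>
      (⟨q.1.1 * q.2.1, Subgroup.mul_mem_sup q.1.2 q.2.2⟩ : (Y ⊔ Subgroup.zpowers φ : Subgroup P))) := by
  rintro ⟨x, hx⟩
  obtain ⟨y, hy, z, hz, h⟩ := Subgroup.mem_sup.1 hx
  exact ⟨(⟨y, hy⟩, ⟨z, hz⟩), Subtype.ext h⟩

theorem fin_adjoin {P : Type} [CommGroup P] (Y : Subgroup P) (hY : Finite Y) (φ : P) (k : ℕ)
    (hk : 0 < k) (hφ : φ ^ k = 1) : Finite (Y ⊔ Subgroup.zpowers φ : Subgroup P) := by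
  have h1 : Finite (Subgroup.zpowers φ) :=
    (finite_zpowers.2 (isOfFinOrder_iff_pow_eq_one.2 ⟨k, hk, hφ⟩)).to_subtype
  exact Finite.of_surjective _ (X11_map Y φ)

theorem card_adjoin {P : Type} [CommGroup P] (Y : Subgroup P) (hY : Finite Y) (φ : P) (l : ℕ)
    (hl : l.Prime) (hφ : φ ^ l = 1) (hn : φ ∉ Y) :
    l * Nat.card Y ≤ Nat.card (Y ⊔ Subgroup.zpowers φ : Subgroup P) := by
  have hfin := fin_adjoin Y hY φ l hl.pos hφ
  have hf : Fact l.Prime := ⟨hl⟩
  have h1 : φ ≠ 1 := fun h => hn (by rw [h]; exact Y.one_mem)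
  have hord : orderOf φ = l := orderOf_eq_prime hφ h1
  have hcard : Nat.card (Subgroup.zpowers φ) = l := by rw [Nat.card_zpowers, hord]
  have hinj : Function.Injective (fun q : Y × Subgroup.zpowers φ =>
      (⟨q.1.1 * q.2.1, Subgroup.mul_mem_sup q.1.2 q.2.2⟩ : (Y ⊔ Subgroup.zpowers φ : Subgroup P))) := by
    rintro ⟨⟨y, hy⟩, ⟨z, hz⟩⟩ ⟨⟨y', hy'⟩, ⟨z', hz'⟩⟩ h
    have h2 : y * z = y' * z' := congrArg Subtype.val h
    have h3 : z * z'⁻¹ ∈ Y := by
      have : z * z'⁻¹ = y⁻¹ * y' := by
        calc z * z'⁻¹ = y⁻¹ * (y * z) * z'⁻¹ := by group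
          _ = y⁻¹ * y' := by rw [h2]; group
      rw [this]
      exact Y.mul_mem (Y.inv_mem hy) hy'
    have h4 : z * z'⁻¹ = 1 := by
      by_contra hne
      have h5 : z * z'⁻¹ ∈ Subgroup.zpowers φ :=
        (Subgroup.zpowers φ).mul_mem hz ((Subgroup.zpowers φ).inv_mem hz')
      -- a nontrivial element of a group of prime order generates
      have hf' : Fact (Nat.card (Subgroup.zpowers φ)).Prime := ⟨by rw [hcard]; exact hl⟩
      have h6 : (⟨φ, Subgroup.mem_zpowers φ⟩ : Subgroup.zpowers φ) ∈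
          Subgroup.zpowers (⟨z * z'⁻¹, h5⟩ : Subgroup.zpowers φ) :=
        mem_zpowers_of_prime_card hcard (by
          intro h
          exact hne (congrArg Subtype.val h))
      obtain ⟨j, hj⟩ := Subgroup.mem_zpowers_iff.1 h6
      have h7 : (z * z'⁻¹) ^ j = φ := congrArg Subtype.val hj
      apply hn
      rw [← h7]
      exact Y.zpow_mem h3 j
    have h5 : z = z' := mul_inv_eq_one.1 h4
    have h6 : y = y' := by
      rw [h5] at h2
      exact mul_right_cancel h2
    simp only [h5, h6]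
  have h2 := Nat.card_le_card_of_injective _ hinj
  rw [Nat.card_prod, hcard] at h2
  rwa [mul_comm]

theorem mem_adjoin {P : Type} [CommGroup P] (Y : Subgroup P) (φ θ : P)
    (h : θ ∈ Y ⊔ Subgroup.zpowers φ) : ∃ μ ∈ Y, ∃ j : ℤ, θ = μ * φ ^ j := by
  obtain ⟨y, hy, z, hz, h⟩ := Subgroup.mem_sup.1 h
  obtain ⟨j, rfl⟩ := Subgroup.mem_zpowers_iff.1 hz
  exact ⟨y, hy, j, h.symm⟩

end H55R
end

-- from Lib.H55R.X2
section

namespace H55R

/-! Chunk X2 (S/M, pure group theory). exists_theta: u is not in the subgroup H generated by u^l (l divides the order of u, so orderOf (u^l) < orderOf u);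
the finite commutative group (ZMod p)ˣ / H has a character which is not 1 on the class of u (CommGroup.exists_apply_ne_one_of_hasEnoughRootsOfUnity).
gen_exists: σ a generator of B; G/B has prime order and g is not in B, so every x is g^k b, b in B = <σ>, b = σ^i.
index_pow: l divides orderOf g, so the subgroup generated by g^l has index l in that generated by g; Subgroup.relIndex_mul_index.
pow_mem: B normal of index l: g^l is in B (the quotient has order l). -/

theorem exists_theta (p l : ℕ) [Fact p.Prime] (hl : l.Prime) (u : (ZMod p)ˣ) (h : l ∣ orderOf u) :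
    ∃ θ : (ZMod p)ˣ →* ℂˣ, θ u ≠ 1 ∧ θ (u ^ l) = 1 := by
  have hpos : 0 < orderOf u := orderOf_pos u
  have hu : u ∉ Subgroup.zpowers (u ^ l) := by
    intro hu
    have h1 : orderOf u ∣ orderOf (u ^ l) := orderOf_dvd_of_mem_zpowers hu
    rw [orderOf_pow_of_dvd hl.ne_zero h] at h1
    have h2 : 0 < orderOf u / l := Nat.div_pos (Nat.le_of_dvd hpos h) hl.pos
    have h3 := Nat.le_of_dvd h2 h1
    have h4 : orderOf u / l < orderOf u := Nat.div_lt_self hpos hl.one_lt
    omega
  have hne : (QuotientGroup.mk u : (ZMod p)ˣ ⧸ Subgroup.zpowers (u ^ l)) ≠ 1 := by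
    intro h1
    exact hu ((QuotientGroup.eq_one_iff u).1 h1)
  have : NeZero (Monoid.exponent ((ZMod p)ˣ ⧸ Subgroup.zpowers (u ^ l))) :=
    ⟨Monoid.exponent_ne_zero_of_finite⟩
  obtain ⟨φ, hφ⟩ := CommGroup.exists_apply_ne_one_of_hasEnoughRootsOfUnity
    ((ZMod p)ˣ ⧸ Subgroup.zpowers (u ^ l)) ℂ hne
  refine ⟨φ.comp (QuotientGroup.mk' _), hφ, ?_⟩
  have h1 : (QuotientGroup.mk' (Subgroup.zpowers (u ^ l))) (u ^ l) = 1 :=
    (QuotientGroup.eq_one_iff _).2 (Subgroup.mem_zpowers _)
  rw [MonoidHom.comp_apply, h1, map_one]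

theorem gen_exists {G : Type} [Group G] [Finite G] (hc : ∀ g h : G, g * h = h * g) (l : ℕ)
    (hl : l.Prime) (g : G) (B : Subgroup G) (hB : B.index = l) (hBc : IsCyclic B) (hg : g ∉ B) :
    ∃ σ : G, ∀ x : G, ∃ i : ℤ, x * (σ ^ i)⁻¹ ∈ Subgroup.zpowers g := by
  obtain ⟨σ, hσ⟩ := hBc.exists_generator
  refine ⟨σ, fun x => ?_⟩
  have hn : B.Normal := ⟨fun b hb y => by rwa [hc y b, mul_assoc, mul_inv_cancel, mul_one]⟩
  have := Fact.mk hl
  have hcard : Nat.card (G ⧸ B) = l := hB
  have hgne : (QuotientGroup.mk g : G ⧸ B) ≠ 1 := fun h => hg ((QuotientGroup.eq_one_iff g).1 h)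
  have hmem : (QuotientGroup.mk x : G ⧸ B) ∈ Subgroup.zpowers (QuotientGroup.mk g : G ⧸ B) :=
    mem_zpowers_of_prime_card hcard hgne
  obtain ⟨k, hk⟩ := hmem
  have h1 : (g ^ k)⁻¹ * x ∈ B := by
    rw [← QuotientGroup.eq]
    exact_mod_cast hk
  obtain ⟨i, hi⟩ := hσ ⟨_, h1⟩
  have h2 : (σ : G) ^ i = (g ^ k)⁻¹ * x := by
    have := congrArg Subtype.val hi
    simpa using this
  refine ⟨i, k, ?_⟩
  rw [h2]
  change g ^ k = _
  group

theorem index_pow {G : Type} [Group G] [Finite G] (l : ℕ) (hl : l.Prime) (g : G)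
    (h : l ∣ orderOf g) :
    (Subgroup.zpowers (g ^ l)).index = l * (Subgroup.zpowers g).index := by
  have h1 := Subgroup.card_mul_index (Subgroup.zpowers (g ^ l))
  have h2 := Subgroup.card_mul_index (Subgroup.zpowers g)
  rw [Nat.card_zpowers] at h1 h2
  rw [orderOf_pow_of_dvd hl.ne_zero h] at h1
  obtain ⟨o, ho⟩ := h
  have hpos : 0 < orderOf g := orderOf_pos g
  have ho0 : 0 < o := by
    rcases Nat.eq_zero_or_pos o with h0 | h0
    · rw [ho, h0] at hpos
      simp at hpos
    · exact h0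
  rw [ho, Nat.mul_div_cancel_left o hl.pos] at h1
  rw [ho] at h2
  refine Nat.eq_of_mul_eq_mul_left ho0 ?_
  rw [h1, ← h2]
  ring

theorem pow_mem_index {G : Type} [Group G] [Finite G] (hc : ∀ g h : G, g * h = h * g) (l : ℕ)
    (g : G) (B : Subgroup G) (hB : B.index = l) : g ^ l ∈ B := by
  have hn : B.Normal := ⟨fun b hb y => by rwa [hc y b, mul_assoc, mul_inv_cancel, mul_one]⟩
  rw [← hB]
  exact Subgroup.pow_index_mem B g

end H55R
end

-- from Lib.H55P.SA1
section

namespace H55P

/-! Chunk PSA1 (S/M). Pure group theory.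
op_zero: work in the ring AddMonoid.End X. (σ - 1)^p = σ^p - 1 + p * r for a polynomial r in σ (Commute.add_pow / exists_add_pow_prime_eq with x = σ, y = -1, and for p = 2 the sign: (-1)^p = -1 + 2 or so; r maps Z to Z since it is an
integer polynomial in σ). So for z in Z: (σ - 1)^p z = (σ^p z - z) + p r z (+ p z) is in B (hσ, hZ). If (σ - 1)^(j+1) z is in B then (σ - 1)^j z is in Z and in B by h0 (apply h0 to (σ-1)^j z); descend from p to 0. (σ^[p] is the iterate, AddMonoid.End.coe_pow.)
fix_up: X = the set of T with p T = 0 fixed by N, finite, an additive subgroup stable under H (T in X, h in H, n in N: n h T = h (h^-1 n h) T = h T). H acts on X; the subgroup N acts trivially, so the image H' of H in Equiv.Perm X satisfies h^(p^k) = 1,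
so it is a p-group (IsPGroup). IsPGroup.card_modEq_card_fixedPoints: card X = number of fixed points = 1 mod p (h0). If X <> 0 then p divides card X (an element T of order p, Lagrange), contradiction. -/

theorem op_zero {X : Type} [AddCommGroup X] (p : ℕ) (hp : p.Prime) (Z B : AddSubgroup X)
    (hZ : ∀ z ∈ Z, p • z ∈ B) (σ : X →+ X) (hσZ : ∀ z ∈ Z, σ z ∈ Z) (hσB : ∀ b ∈ B, σ b ∈ B)
    (hσ : ∀ z ∈ Z, σ^[p] z - z ∈ B) (h0 : ∀ z ∈ Z, σ z - z ∈ B → z ∈ B) : ∀ z ∈ Z, z ∈ B := by
  classical
  -- the subring of endomorphisms preserving `Z`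
  let S : Subring (AddMonoid.End X) :=
    { carrier := {f | ∀ z ∈ Z, f z ∈ Z}
      mul_mem' := fun {f g} hf hg z hz => hf _ (hg z hz)
      one_mem' := fun z hz => hz
      add_mem' := fun {f g} hf hg z hz => Z.add_mem (hf z hz) (hg z hz)
      zero_mem' := fun z _ => Z.zero_mem
      neg_mem' := fun {f} hf z hz => Z.neg_mem (hf z hz) }
  let s : AddMonoid.End X := σ
  have hsS : s ∈ S := fun z hz => hσZ z hz
  let x : S := ⟨s, hsS⟩
  obtain ⟨r, hr⟩ := Commute.exists_add_pow_prime_eq hp (Commute.neg_right (Commute.one_right x))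
  have hsign : ∃ e : S, (-1 : S) ^ p = -1 + (p : S) * e := by
    rcases hp.eq_two_or_odd' with h2 | hodd
    · subst h2
      refine ⟨1, ?_⟩
      push_cast
      ring_nf
      norm_num
    · exact ⟨0, by rw [hodd.neg_one_pow]; simp⟩
  obtain ⟨e, he⟩ := hsign
  obtain ⟨r', hr'⟩ : ∃ r' : S, (x + -1) ^ p = x ^ p + (-1) ^ p + (p : S) * r' :=
    ⟨x * -1 * r, by rw [hr]; simp only [mul_assoc]⟩
  have hmain : (x + -1) ^ p = x ^ p - 1 + (p : S) * (e + r') := by
    rw [hr', he, mul_add]
    abel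
  have hMul : ∀ (f g : AddMonoid.End X) (z : X), (f * g) z = f (g z) := fun _ _ _ => rfl
  have hAdd : ∀ (f g : AddMonoid.End X) (z : X), (f + g) z = f z + g z := fun _ _ _ => rfl
  have hSub : ∀ (f g : AddMonoid.End X) (z : X), (f - g) z = f z - g z := fun _ _ _ => rfl
  have hmul : ∀ (q : AddMonoid.End X) (z : X), ((p : AddMonoid.End X) * q) z = p • q z := by
    intro q z
    rw [hMul, AddMonoid.End.natCast_apply]
  have htop : ∀ z ∈ Z, ((s + -1) ^ p) z ∈ B := by
    intro z hz
    have h1 : ((s + -1) ^ p : AddMonoid.End X) = s ^ p - 1 + (p : AddMonoid.End X) * ((e : AddMonoid.End X) + r') := by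
      have := congrArg (Subtype.val) hmain
      simpa using this
    rw [h1]
    have h2 : ((s ^ p - 1 + (p : AddMonoid.End X) * ((e : AddMonoid.End X) + r')) : AddMonoid.End X) z
        = (σ^[p] z - z) + p • (((e : AddMonoid.End X) + r') z) := by
      rw [hAdd, hmul, hSub, AddMonoid.End.coe_pow]
      rfl
    rw [h2]
    exact B.add_mem (hσ z hz) (hZ _ ((e + r').2 z hz))
  have hpowZ : ∀ j : ℕ, ∀ z ∈ Z, ((s + -1) ^ j) z ∈ Z := by
    intro j z hz
    have : (s + -1) ^ j ∈ S := S.pow_mem (S.add_mem hsS (S.neg_mem S.one_mem)) j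
    exact this z hz
  intro z hz
  have hdesc : ∀ j : ℕ, ((s + -1) ^ j) z ∈ B → z ∈ B := by
    intro j
    induction j with
    | zero => intro h; simpa using h
    | succ j ih =>
      intro h
      apply ih
      apply h0 _ (hpowZ j z hz)
      rw [pow_succ', hMul, hAdd] at h
      have : (s (((s + -1) ^ j) z)) + (-1 : AddMonoid.End X) (((s + -1) ^ j) z)
          = σ (((s + -1) ^ j) z) - ((s + -1) ^ j) z := by
        rw [sub_eq_add_neg]
        rfl
      rw [this] at h
      exact h
  exact hdesc p (htop z hz)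

theorem fix_up {G M : Type} [Group G] [AddCommGroup M] (ρ : G →* AddMonoid.End M) (p : ℕ) (hp : p.Prime)
    (hfin : {T : M | p • T = 0}.Finite) (N H : Subgroup G) (hNH : N ≤ H)
    (hn : ∀ h ∈ H, ∀ n ∈ N, h * n * h⁻¹ ∈ N) (k : ℕ) (hk : ∀ h ∈ H, h ^ p ^ k ∈ N)
    (h0 : ∀ T : M, p • T = 0 → (∀ h ∈ H, ρ h T = T) → T = 0) (T : M) (hT : p • T = 0)
    (hf : ∀ n ∈ N, ρ n T = T) : T = 0 := by
  classical
  have : Fact p.Prime := ⟨hp⟩
  have hMul : ∀ (f g : AddMonoid.End M) (z : M), (f * g) z = f (g z) := fun _ _ _ => rfl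
  let X : AddSubgroup M :=
    { carrier := {T | p • T = 0 ∧ ∀ n ∈ N, ρ n T = T}
      add_mem' := fun {a b} ha hb => ⟨by rw [smul_add, ha.1, hb.1, add_zero],
        fun n hn => by rw [map_add, ha.2 n hn, hb.2 n hn]⟩
      zero_mem' := ⟨by simp, fun n _ => map_zero _⟩
      neg_mem' := fun {a} ha => ⟨by rw [smul_neg, ha.1, neg_zero],
        fun n hn => by rw [map_neg, ha.2 n hn]⟩ }
  have : Finite X := (hfin.subset (fun T hT => hT.1)).to_subtype
  have hstab : ∀ h ∈ H, ∀ T ∈ X, ρ h T ∈ X := by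
    intro h hh T hT
    refine ⟨?_, ?_⟩
    · rw [← map_nsmul, hT.1, map_zero]
    · intro n hnN
      have h1 : h⁻¹ * n * h ∈ N := by
        have := hn h⁻¹ (H.inv_mem hh) n hnN
        simpa using this
      have h2 : ρ n (ρ h T) = ρ h (ρ (h⁻¹ * n * h) T) := by
        rw [← hMul, ← hMul, ← map_mul, ← map_mul]
        congr 2
        group
      rw [h2, hT.2 _ h1]
  have hinv : ∀ (h : G) (T : M), ρ h⁻¹ (ρ h T) = T := by
    intro h T
    rw [← hMul, ← map_mul, inv_mul_cancel, map_one]
    rfl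
  have hinv' : ∀ (h : G) (T : M), ρ h (ρ h⁻¹ T) = T := by
    intro h T
    rw [← hMul, ← map_mul, mul_inv_cancel, map_one]
    rfl
  let φ : H →* Equiv.Perm X :=
    { toFun := fun h =>
        { toFun := fun x => ⟨ρ (h : G) x.1, hstab h h.2 _ x.2⟩
          invFun := fun x => ⟨ρ (h : G)⁻¹ x.1, hstab _ (H.inv_mem h.2) _ x.2⟩
          left_inv := fun x => Subtype.ext (hinv _ _)
          right_inv := fun x => Subtype.ext (hinv' _ _) }
      map_one' := by
        ext x
        simp
      map_mul' := fun a b => by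
        ext x
        simp [map_mul, hMul] }
  have hφ : ∀ (h : H) (x : X), ((φ h x : X) : M) = ρ (h : G) x := fun h x => rfl
  have hP : IsPGroup p φ.range := by
    rintro ⟨_, ⟨h, rfl⟩⟩
    refine ⟨k, ?_⟩
    apply Subtype.ext
    rw [SubgroupClass.coe_pow, ← map_pow]
    ext x
    show ((φ (h ^ p ^ k) x : X) : M) = x
    rw [hφ]
    have := x.2.2 _ (hk h h.2)
    simpa using this
  by_contra hne
  let t : X := ⟨T, hT, hf⟩
  have ht : t ≠ 0 := fun h => hne (congrArg Subtype.val h)
  have hord : addOrderOf t = p := by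
    apply addOrderOf_eq_prime
    · apply Subtype.ext
      exact hT
    · exact ht
  have hdvd : p ∣ Nat.card X := by
    rw [← hord]
    exact addOrderOf_dvd_natCard t
  have h0fix : (0 : X) ∈ MulAction.fixedPoints φ.range X := by
    rintro ⟨_, ⟨h, rfl⟩⟩
    apply Subtype.ext
    show ((φ h 0 : X) : M) = 0
    rw [hφ]
    exact map_zero _
  obtain ⟨b, hb, hb0⟩ := hP.exists_fixed_point_of_prime_dvd_card_of_fixed_point X hdvd h0fix
  apply hb0
  symm
  apply Subtype.ext
  apply h0 _ b.2.1
  intro h hh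
  have := hb ⟨φ ⟨h, hh⟩, ⟨⟨h, hh⟩, rfl⟩⟩
  have h3 := congrArg Subtype.val this
  exact h3

end H55P
end
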