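import Mathlib
import Pool.Agent.Lib.H1M.PP.D_H55C_Defs
import Pool.Agent.Lib.H1M.PP.D_H55K_D2
import Pool.Agent.Lib.H1M.PP.D_H55P_Sel
import Pool.Agent.Lib.H1M.PP.M003
import Pool.Agent.Lib.H1M.PP.M004
import Pool.Agent.Lib.H1M.PP.M005
import Pool.Agent.Lib.H1M.PP.M006
import Pool.Agent.Lib.H1M.PP.M009

/-! Merged copies (to shorten the build) of Lib.H13Z.LF3, Lib.H55W.S4, Lib.H35T.A5, Lib.H55N.WD, Lib.H55C.A6, Lib.H55K.D2A, Lib.H55K.D2C, Lib.H55K.D4, Lib.H55P.SA3, Lib.H55K.NA1, Lib.H55P.S3, Lib.H55K.NA2. -/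

-- from Lib.H13Z.LF3
section

open NumberField IsDedekindDomain

namespace H13Z

open H55P

/-- Chunk LF3 (S). At the places outside l. s y = ζ y, ζ^l = 1; z = y/x has value 1, s z - z = (ζ - 1) z: V (ζ - 1) < 1. If ζ ≠ 1 then l = product of the 1 - ζ^j (0 < j < l) has value < 1 (all factors have value ≤ 1; V (1 - ζ) < 1), contradiction. -/
theorem unr_val {F₀ Ω : Type} [Field F₀] [Field Ω] [Algebra F₀ Ω] [CharZero Ω] (V : ValuationSubring Ω)
    {l : ℕ} (hl : l.Prime) (hV : V.valuation (l : Ω) = 1) {x y : Ω} (hy : y ≠ 0)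
    (hxy : V.valuation y = V.valuation x) {s : Ω ≃ₐ[F₀] Ω} (hs : Inert V s) (h1 : s x = x)
    (h2 : s (y ^ l) = y ^ l) : s y = y := by
  have hvy : V.valuation y ≠ 0 := by
    rw [Ne, map_eq_zero]
    exact hy
  have hx : x ≠ 0 := by
    rintro rfl
    rw [map_zero] at hxy
    exact hvy hxy
  obtain ⟨ζ, hζ⟩ : ∃ ζ : Ω, ζ = s y / y := ⟨_, rfl⟩
  have hsy : s y = ζ * y := by rw [hζ, div_mul_cancel₀ _ hy]
  have hζl : ζ ^ l = 1 := by
    rw [hζ, div_pow, ← map_pow, h2, div_self (pow_ne_zero l hy)]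
  have hz1 : V.valuation (y / x) = 1 := by
    rw [map_div₀, hxy, div_self]
    rw [← hxy]
    exact hvy
  have hzV : y / x ∈ V := by
    rw [← V.valuation_le_one_iff, hz1]
  have h3 := hs _ hzV
  have h4 : s (y / x) - y / x = (ζ - 1) * (y / x) := by
    rw [map_div₀, h1, hsy]
    ring
  rw [h4, map_mul, hz1, mul_one] at h3
  have hv1 : V.valuation ζ = 1 := by
    have h5 : V.valuation ζ ^ l = 1 := by rw [← map_pow, hζl, map_one]
    exact (pow_eq_one_iff_of_nonneg zero_le hl.ne_zero).1 h5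
  by_cases hne : ζ = 1
  · rw [hsy, hne, one_mul]
  · exfalso
    have hsum : ∑ i ∈ Finset.range l, ζ ^ i = 0 := by
      have h5 := geom_sum_mul ζ l
      rw [hζl, sub_self] at h5
      exact (mul_eq_zero.1 h5).resolve_right (sub_ne_zero.2 hne)
    have hlt : ∀ i ∈ Finset.range l, V.valuation (ζ ^ i - 1) < 1 := by
      intro i _
      rw [← geom_sum_mul, map_mul]
      have h6 : V.valuation (∑ j ∈ Finset.range i, ζ ^ j) ≤ 1 := by
        apply Valuation.map_sum_le
        intro j _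
        rw [map_pow, hv1, one_pow]
      calc V.valuation (∑ j ∈ Finset.range i, ζ ^ j) * V.valuation (ζ - 1)
          ≤ 1 * V.valuation (ζ - 1) := by gcongr
        _ = V.valuation (ζ - 1) := one_mul _
        _ < 1 := h3
    have h7 : V.valuation (∑ i ∈ Finset.range l, (ζ ^ i - 1)) < 1 :=
      Valuation.map_sum_lt _ one_ne_zero hlt
    rw [Finset.sum_sub_distrib, hsum, Finset.sum_const, Finset.card_range, nsmul_eq_mul, mul_one,
      zero_sub, Valuation.map_neg, hV] at h7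
    exact lt_irrefl _ h7

end H13Z
end

-- from Lib.H55W.S4
section

/-! # H55W, part S: products of residue symbols -/

open NumberField UniqueFactorizationMonoid

namespace H55W

variable {F : Type} [Field F] [NumberField F] {m : ℕ} {ζ : 𝓞 F} {J K P : Ideal (𝓞 F)}

theorem s4_le (hP : P ∈ normalizedFactors J) : J ≤ P := Ideal.le_of_dvd (dvd_of_mem_normalizedFactors hP)

theorem s4_pr (hP : P ∈ normalizedFactors J) : P.IsPrime := Ideal.isPrime_of_prime (prime_of_normalized_factor P hP)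

/-- Chunk S4 (S). P divides J (dvd_of_mem_normalizedFactors), prime (prime_of_normalized_factor, Ideal.isPrime_of_prime), not bottom; if m is in P then J and (m) are in P, so P = top: contradiction. -/
theorem pp_of (h : PJ m ζ J) (hP : P ∈ normalizedFactors J) : PP m ζ P := by
  have hpr := s4_pr hP
  refine ⟨hpr, (prime_of_normalized_factor P hP).ne_zero, fun hm => ?_, h.root, h.two⟩
  apply hpr.ne_top
  have h1 := Ideal.isCoprime_iff_sup_eq.1 h.cop
  rw [eq_top_iff, ← h1]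
  refine sup_le (s4_le hP) ?_
  rw [Ideal.span_singleton_le_iff_mem]
  exact hm

/-- Chunk S4 (S). normalizedFactors_mul. -/
theorem pj_mul_left (hJ : J ≠ ⊥) (hK : K ≠ ⊥) (x : 𝓞 F) : pj m ζ (J * K) x = pj m ζ J x * pj m ζ K x := by
  unfold pj
  rw [normalizedFactors_mul hJ hK, Multiset.map_add, Multiset.prod_add]

/-- Chunk S4 (S). -/
theorem pj_mul (h : PJ m ζ J) (x y : 𝓞 F) : pj m ζ J (x * y) = pj m ζ J x * pj m ζ J y := by
  unfold pj
  rw [← Multiset.prod_map_mul]
  congr 1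
  exact Multiset.map_congr rfl fun P hP => ps_mul (pp_of h hP) x y

/-- Chunk S4 (S). J ≤ P for the factors P (Ideal.le_of_dvd): ps_congr. -/
theorem pj_congr (h : PJ m ζ J) {x y : 𝓞 F} (hxy : x - y ∈ J) : pj m ζ J x = pj m ζ J y := by
  unfold pj
  congr 1
  exact Multiset.map_congr rfl fun P hP => ps_congr (pp_of h hP) (s4_le hP hxy)

/-- Chunk S4 (S). normalizedFactors_irreducible: P is irreducible and normalized (the normalization of ideals is trivial: normalize_eq). -/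
theorem pj_prime (h : PP m ζ P) (x : 𝓞 F) : pj m ζ P x = ps m ζ P x := by
  unfold pj
  rw [normalizedFactors_irreducible (Ideal.prime_of_isPrime h.ne h.pr).irreducible, normalize_eq, Multiset.map_singleton, Multiset.prod_singleton]

/-- Chunk S4 (S). normalizedFactors 1 = 0, ⊤ = 1. -/
theorem pj_top (x : 𝓞 F) : pj m ζ (⊤ : Ideal (𝓞 F)) x = 1 := by
  unfold pj
  rw [← Ideal.one_eq_top, normalizedFactors_one, Multiset.map_zero, Multiset.prod_zero]

/-- Chunk S4 (S). x is in no factor P (J ≤ P and x in P would give P = top): ps_root; the product of the m-th powers. -/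
theorem pj_root (h : PJ m ζ J) {x : 𝓞 F} (hx : IsCoprime (Ideal.span {x}) J) : pj m ζ J x ^ m = 1 := by
  unfold pj
  rw [← Multiset.prod_map_pow]
  apply Multiset.prod_eq_one
  intro z hz
  obtain ⟨P, hP, rfl⟩ := Multiset.mem_map.1 hz
  apply ps_root (pp_of h hP)
  intro hxP
  apply (s4_pr hP).ne_top
  have h1 := Ideal.isCoprime_iff_sup_eq.1 hx
  rw [eq_top_iff, ← h1]
  refine sup_le ?_ (s4_le hP)
  rw [Ideal.span_singleton_le_iff_mem]
  exact hxP

/-- Chunk S4 (S). -/
theorem pj_one (h : PJ m ζ J) : pj m ζ J 1 = 1 := by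
  unfold pj
  apply Multiset.prod_eq_one
  intro z hz
  obtain ⟨P, hP, rfl⟩ := Multiset.mem_map.1 hz
  exact ps_one (pp_of h hP)

/-- Chunk S4 (S/M). For each factor ps(ζ) = ζ^((N - 1)/m) (ps_zeta). Multiset induction: (N N' - 1)/m is congruent to (N - 1)/m + (N' - 1)/m modulo m, because N, N' are 1 modulo m and (N - 1)(N' - 1)/m is divisible by m. Use induction over J (UniqueFactorizationMonoid.induction_on_prime or the multiset of factors: J = product of its
normalized factors), map_mul of Ideal.absNorm; ζ^m = 1. Also m divides absNorm J - 1. -/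
theorem pj_zeta (h : PJ m ζ J) : m ∣ Ideal.absNorm J - 1 ∧ pj m ζ J ζ = ζ ^ ((Ideal.absNorm J - 1) / m) := by
  have hm : 0 < m := by have := h.two; omega
  have key : ∀ s : Multiset (Ideal (𝓞 F)), (∀ P ∈ s, PP m ζ P) →
      ∃ a : ℕ, Ideal.absNorm s.prod = 1 + m * a ∧ (s.map fun P => ps m ζ P ζ).prod = ζ ^ a := by
    intro s
    induction s using Multiset.induction_on with
    | empty =>
      intro _
      exact ⟨0, by simp, by simp⟩
    | cons P s ih =>
      intro hs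
      obtain ⟨a, ha1, ha2⟩ := ih fun Q hQ => hs Q (Multiset.mem_cons_of_mem hQ)
      have hP := hs P (Multiset.mem_cons_self P s)
      obtain ⟨⟨b, hb⟩, -, hb2⟩ := ps_dvd hP
      have hb3 : Ideal.absNorm P = 1 + m * b := by omega
      have hb4 : (Ideal.absNorm P - 1) / m = b := by
        rw [hb]
        exact Nat.mul_div_cancel_left b hm
      refine ⟨b + a + m * (b * a), ?_, ?_⟩
      · rw [Multiset.prod_cons, map_mul, ha1, hb3]
        ring
      · rw [Multiset.map_cons, Multiset.prod_cons, ha2, ps_zeta hP, hb4, pow_add, pow_mul, h.root.pow_eq_one, one_pow, mul_one, pow_add]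
  obtain ⟨a, h1, h2⟩ := key (normalizedFactors J) fun P hP => pp_of h hP
  rw [Ideal.prod_normalizedFactors_eq_self h.ne] at h1
  have h3 : Ideal.absNorm J - 1 = m * a := by omega
  refine ⟨⟨a, h3⟩, ?_⟩
  unfold pj
  rw [h2, h3, Nat.mul_div_cancel_left a hm]

end H55W
end

-- from Lib.H35T.A5
section

open NumberField IsDedekindDomain

namespace H35T

open H55B

/-! Chunk A5 (M): construction of the fields. Adapt H55C.A5 and H55B.J0. M = AdjoinRoot (X^2 + 1 : F[X]), N = Qd K = AdjoinRoot (X^2 + C 1 : K[X]).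
-1 is not a square in F: a root y of y^2 = -1 is integral, y in O, a unit, and unit_cases gives y^2 = 1, om or om^2.
-1 is not a square in K: a root would have minimal polynomial X^2 + 1 over F, so 2 would divide [K : F] = 3^k. So both
polynomials are irreducible. tau: root -> -root over F; T: root -> -root over K; M -> N: root -> root over F -> K (qmap of the algebra map);
act g = map of g, root -> root. mspan/span: reduction modulo X^2 + 1; mindep/indep: degree. phi = identity. -/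

section A5gen

open Polynomial

variable (K : Type) [Field K]

/-- The polynomial X^2 + 1. -/
noncomputable abbrev A5_q : K[X] := X ^ 2 + C 1

theorem A5_monic : (A5_q K).Monic := monic_X_pow_add_C _ (by norm_num)

theorem A5_natDegree : (A5_q K).natDegree = 2 := natDegree_X_pow_add_C

theorem A5_eval {S : Type} [CommRing S] (i : K →+* S) (x : S) (hx : x ^ 2 = -1) :
    (A5_q K).eval₂ i x = 0 := by
  rw [eval₂_add, eval₂_X_pow, eval₂_C, map_one, hx]
  ring

theorem A5_root_sq : (AdjoinRoot.root (A5_q K)) ^ 2 = -1 := by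
  have h := AdjoinRoot.eval₂_root (A5_q K)
  rw [eval₂_add, eval₂_X_pow, eval₂_C, map_one] at h
  exact eq_neg_of_add_eq_zero_left h

theorem A5_span (z : AdjoinRoot (A5_q K)) : ∃ a b : K, z = AdjoinRoot.of (A5_q K) a +
    AdjoinRoot.of (A5_q K) b * AdjoinRoot.root (A5_q K) := by
  obtain ⟨p, rfl⟩ := AdjoinRoot.mk_surjective z
  have h1 : AdjoinRoot.mk (A5_q K) p = AdjoinRoot.mk (A5_q K) (p %ₘ A5_q K) := by
    rw [AdjoinRoot.mk_eq_mk]
    exact ⟨p /ₘ A5_q K, by
      have := modByMonic_add_div p (A5_q K)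
      linear_combination -this⟩
  have h2 : (p %ₘ A5_q K).natDegree < 2 := by
    have := natDegree_modByMonic_lt p (A5_monic K) (by
      intro h
      have h3 := A5_natDegree K
      rw [h, natDegree_one] at h3
      omega)
    rwa [A5_natDegree] at this
  refine ⟨(p %ₘ A5_q K).coeff 0, (p %ₘ A5_q K).coeff 1, ?_⟩
  rw [h1]
  conv_lhs => rw [(p %ₘ A5_q K).as_sum_range' 2 h2]
  simp only [Finset.sum_range_succ, Finset.sum_range_zero, zero_add, map_add]
  simp only [← C_mul_X_pow_eq_monomial, map_mul, AdjoinRoot.mk_C, map_pow, AdjoinRoot.mk_X,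
    pow_zero, mul_one, pow_one]

theorem A5_indep (a b : K) (h : AdjoinRoot.of (A5_q K) a +
    AdjoinRoot.of (A5_q K) b * AdjoinRoot.root (A5_q K) = 0) : a = 0 ∧ b = 0 := by
  have h1 : AdjoinRoot.mk (A5_q K) (C a + C b * X) = 0 := by
    simp only [map_add, map_mul, AdjoinRoot.mk_C, AdjoinRoot.mk_X]
    exact h
  rw [AdjoinRoot.mk_eq_zero] at h1
  have h2 : (C a + C b * X : K[X]) = 0 := by
    by_contra hne
    have h3 := natDegree_le_of_dvd h1 hne
    rw [A5_natDegree] at h3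
    have h4 : (C a + C b * X : K[X]).natDegree ≤ 1 := by compute_degree
    omega
  refine ⟨?_, ?_⟩
  · have := congrArg (fun q : K[X] => q.coeff 0) h2
    simpa using this
  · have := congrArg (fun q : K[X] => q.coeff 1) h2
    simpa [coeff_X, coeff_C] using this

theorem A5_irr (h : ∀ y : K, y ^ 2 ≠ -1) : Irreducible (A5_q K) := by
  have h1 : A5_q K = X ^ 2 - C (-1) := by
    rw [C_neg, sub_neg_eq_add]
  rw [h1]
  exact X_pow_sub_C_irreducible_of_prime Nat.prime_two h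

/-- root -> -root -/
noncomputable def A5_neg0 : AdjoinRoot (A5_q K) →+* AdjoinRoot (A5_q K) :=
  AdjoinRoot.lift (AdjoinRoot.of (A5_q K)) (-AdjoinRoot.root (A5_q K)) (A5_eval K _ _ (by
    rw [neg_sq, A5_root_sq]))

theorem A5_neg0_of (x : K) : A5_neg0 K (AdjoinRoot.of (A5_q K) x) = AdjoinRoot.of (A5_q K) x :=
  AdjoinRoot.lift_of _

theorem A5_neg0_root : A5_neg0 K (AdjoinRoot.root (A5_q K)) = -AdjoinRoot.root (A5_q K) :=
  AdjoinRoot.lift_root _

theorem A5_neg0_neg0 (z : AdjoinRoot (A5_q K)) : A5_neg0 K (A5_neg0 K z) = z := by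
  obtain ⟨a, b, rfl⟩ := A5_span K z
  simp only [map_add, map_mul, map_neg, A5_neg0_of, A5_neg0_root]
  ring

/-- root -> -root -/
noncomputable def A5_neg : AdjoinRoot (A5_q K) ≃+* AdjoinRoot (A5_q K) :=
  { A5_neg0 K with
    invFun := fun z => A5_neg0 K z
    left_inv := fun z => A5_neg0_neg0 K z
    right_inv := fun z => A5_neg0_neg0 K z }

theorem A5_neg_apply (z : AdjoinRoot (A5_q K)) : A5_neg K z = A5_neg0 K z := rfl

end A5gen

theorem A5_no_F (b : F) : b ^ 2 ≠ -1 := by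
  intro hb
  have hint : IsIntegral O b := by
    refine ⟨Polynomial.X ^ 2 + Polynomial.C 1, Polynomial.monic_X_pow_add_C _ (by norm_num), ?_⟩
    rw [Polynomial.eval₂_add, Polynomial.eval₂_X_pow, Polynomial.eval₂_C, map_one, hb]
    ring
  obtain ⟨x, hx⟩ := IsIntegrallyClosed.isIntegral_iff.1 hint
  have h1 : x ^ 2 = -1 := by
    have h : algebraMap O F (x ^ 2) = algebraMap O F (-1) := by
      rw [map_pow, hx, hb, map_neg, map_one]
    exact IsFractionRing.injective O F h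
  have c1 : (1 : O) ≠ -1 := by
    intro h
    have h2 : (2 : O) = 0 := by linear_combination h
    exact two_prime.ne_zero h2
  have c2 : (om : O) ^ 2 ≠ -1 := by
    intro h
    have h2 : om = 0 := by
      have := om_rel
      linear_combination this - h
    rw [h2] at h
    norm_num at h
  have c3 : (om : O) ≠ -1 := by
    intro h
    have := om_rel
    rw [h] at this
    norm_num at this
  have h3 : om ^ 3 = 1 := by
    have := om_rel
    linear_combination (om - 1) * this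
  have h4 : ((om : O) ^ 2) ^ 2 = om := by linear_combination om * h3
  let u : Oˣ := ⟨x, -x, by linear_combination -h1, by linear_combination -h1⟩
  have hu : (u : O) = x := rfl
  rcases unit_cases u with h | h | h | h | h | h <;> rw [hu] at h <;> rw [h] at h1
  · rw [one_pow] at h1; exact c1 h1
  · rw [neg_sq, one_pow] at h1; exact c1 h1
  · exact c2 h1
  · rw [neg_sq] at h1; exact c2 h1
  · rw [h4] at h1; exact c3 h1
  · rw [neg_sq, h4] at h1; exact c3 h1

instance A5_fact : Fact (Irreducible (A5_q F)) := ⟨A5_irr F A5_no_F⟩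

theorem no_i (K : Type) [Field K] [NumberField K] [Algebra F K] (k : ℕ)
    (hk : Module.finrank F K = 3 ^ k) (y : K) : y ^ 2 ≠ -1 := by
  intro hy
  have hfin : FiniteDimensional F K := Module.finite_of_finrank_pos (by rw [hk]; positivity)
  have h1 : A5_q F = minpoly F y := by
    apply minpoly.eq_of_irreducible_of_monic A5_fact.out _ (A5_monic F)
    rw [Polynomial.aeval_def]
    exact A5_eval F _ _ hy
  have h2 : (minpoly F y).natDegree ∣ Module.finrank F K := minpoly.degree_dvd (IsIntegral.of_finite F y)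
  rw [← h1, A5_natDegree, hk] at h2
  have h3 := (Nat.prime_dvd_prime_iff_eq Nat.prime_two Nat.prime_three).1
    (Nat.prime_two.dvd_of_dvd_pow h2)
  omega

theorem exists_comp (K : Type) [Field K] [NumberField K] [Algebra F K] (k : ℕ)
    (hk : Module.finrank F K = 3 ^ k) :
    ∃ (M : Type) (_ : Field M) (_ : NumberField M) (_ : Algebra F M)
      (N : Type) (_ : Field N) (_ : NumberField N) (_ : Algebra K N) (_ : Algebra M N)
      (ι : M) (τ : M ≃+* M) (T : N ≃+* N) (act : (K ≃ₐ[F] K) → (N ≃+* N))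
      (φ : Qd K ≃+* N),
      Comp K M N ι τ T act ∧ (∀ x : K, φ (AdjoinRoot.of _ x) = algebraMap K N x) ∧
        φ (AdjoinRoot.root _) = algebraMap M N ι := by
  have hirr : Fact (Irreducible (A5_q K)) := ⟨A5_irr K (no_i K k hk)⟩
  have hfin : Module.Finite K (AdjoinRoot (A5_q K)) :=
    (AdjoinRoot.powerBasis' (A5_monic K)).finite
  have hNF : NumberField (AdjoinRoot (A5_q K)) :=
    NumberField.of_module_finite K (AdjoinRoot (A5_q K))
  have hfinM : Module.Finite F (AdjoinRoot (A5_q F)) :=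
    (AdjoinRoot.powerBasis' (A5_monic F)).finite
  have hMF : NumberField (AdjoinRoot (A5_q F)) :=
    NumberField.of_module_finite F (AdjoinRoot (A5_q F))
  have hrt : (AdjoinRoot.root (A5_q K)) ^ 2 = -1 := A5_root_sq K
  let j : AdjoinRoot (A5_q F) →+* AdjoinRoot (A5_q K) :=
    AdjoinRoot.lift ((AdjoinRoot.of (A5_q K)).comp (algebraMap F K)) (AdjoinRoot.root (A5_q K))
      (A5_eval F _ _ hrt)
  have j_of : ∀ x, j (AdjoinRoot.of (A5_q F) x) = AdjoinRoot.of (A5_q K) (algebraMap F K x) :=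
    fun x => AdjoinRoot.lift_of _
  have j_root : j (AdjoinRoot.root (A5_q F)) = AdjoinRoot.root (A5_q K) := AdjoinRoot.lift_root _
  -- the action
  let A0 : (K ≃ₐ[F] K) → (AdjoinRoot (A5_q K) →+* AdjoinRoot (A5_q K)) := fun g =>
    AdjoinRoot.lift ((AdjoinRoot.of (A5_q K)).comp (g : K →+* K)) (AdjoinRoot.root (A5_q K))
      (A5_eval K _ _ hrt)
  have A_of : ∀ g x, A0 g (AdjoinRoot.of (A5_q K) x) = AdjoinRoot.of (A5_q K) (g x) :=
    fun g x => AdjoinRoot.lift_of _
  have A_root : ∀ g, A0 g (AdjoinRoot.root (A5_q K)) = AdjoinRoot.root (A5_q K) :=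
    fun g => AdjoinRoot.lift_root _
  have A_inv : ∀ (g h : K ≃ₐ[F] K), (∀ x, g (h x) = x) → ∀ z, A0 g (A0 h z) = z := by
    intro g h hgh z
    obtain ⟨a, b, rfl⟩ := A5_span K z
    simp only [map_add, map_mul, A_of, A_root, hgh]
  let act : (K ≃ₐ[F] K) → (AdjoinRoot (A5_q K) ≃+* AdjoinRoot (A5_q K)) := fun g =>
    { A0 g with
      invFun := fun z => A0 g.symm z
      left_inv := fun z => A_inv g.symm g (fun x => g.symm_apply_apply x) z
      right_inv := fun z => A_inv g g.symm (fun x => g.apply_symm_apply x) z }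
  refine ⟨AdjoinRoot (A5_q F), inferInstance, hMF, inferInstance, AdjoinRoot (A5_q K),
    inferInstance, hNF, inferInstance, j.toAlgebra, AdjoinRoot.root (A5_q F), A5_neg F, A5_neg K,
    act, RingEquiv.refl _, ?_, fun x => rfl, ?_⟩
  swap
  · exact j_root.symm
  refine @Comp.mk K (AdjoinRoot (A5_q F)) (AdjoinRoot (A5_q K)) _ _ _ _ _ _ _ _ _ j.toAlgebra
    (AdjoinRoot.root (A5_q F)) (A5_neg F) (A5_neg K) act ?_ ?_ ?_ ?_ ?_ ?_ ?_ ?_ ?_ ?_ ?_ ?_
  · exact A5_root_sq F
  · exact A5_neg0_root F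
  · intro x
    exact A5_neg0_of F x
  · intro z
    exact A5_span F z
  · intro a b h
    exact A5_indep F a b h
  · intro x
    exact (j_of x).symm
  · intro z
    obtain ⟨a, b, h⟩ := A5_span K z
    refine ⟨a, b, ?_⟩
    change z = AdjoinRoot.of (A5_q K) a + AdjoinRoot.of (A5_q K) b * j (AdjoinRoot.root (A5_q F))
    rw [j_root]
    exact h
  · intro a b h
    change AdjoinRoot.of (A5_q K) a + AdjoinRoot.of (A5_q K) b *
      j (AdjoinRoot.root (A5_q F)) = 0 at h
    rw [j_root] at h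
    exact A5_indep K a b h
  · intro x
    exact A5_neg0_of K x
  · intro z
    change A5_neg0 K (j z) = j (A5_neg0 F z)
    obtain ⟨a, b, rfl⟩ := A5_span F z
    simp only [map_add, map_mul, map_neg, j_of, j_root, A5_neg0_of, A5_neg0_root]
  · intro g x
    exact A_of g x
  · intro g z
    change A0 g (j z) = j z
    obtain ⟨a, b, rfl⟩ := A5_span F z
    simp only [map_add, map_mul, j_of, j_root, A_of, A_root, AlgEquiv.commutes]

end H35T
end

-- from Lib.H55N.WD
section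

open NumberField IsDedekindDomain

namespace H55N

open H55B H55C

/-! Definitions for the wreath product part (helper19). -/

variable (K K' : Type) [Field K] [NumberField K] [Algebra F K] [Field K'] [NumberField K']
  [Algebra F K'] [Algebra K K']

/-- beta = 1 mod 4 has odd valuation exactly at w, w', two primes above different good primes, w split over F. -/
structure Beta (β : 𝓞 K) (w w' : HeightOneSpectrum (𝓞 K)) : Prop where
  four : (4 : 𝓞 K) ∣ β - 1
  odd : ∃ k : ℤ, w.valuation K (β : K) = WithZero.exp (2 * k + 1)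
  even : ∀ p : HeightOneSpectrum (𝓞 K), p ≠ w → p ≠ w' →
    ∃ k : ℤ, p.valuation K (β : K) = WithZero.exp (2 * k)
  ne : w.asIdeal.under O ≠ w'.asIdeal.under O
  deg : w.asIdeal.inertiaDeg O = 1
  unr : w.asIdeal.ramificationIdx O = 1
  good : ∀ v : HeightOneSpectrum O, v.asIdeal = w.asIdeal.under O → H55C.Good v
  good' : ∀ v : HeightOneSpectrum O, v.asIdeal = w'.asIdeal.under O → H55C.Good v

/-- K' is generated over K by the square roots r g of the conjugates of beta. -/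
structure Wr (β : 𝓞 K) (r : (K ≃ₐ[F] K) → K') : Prop where
  sq : ∀ g, r g ^ 2 = algebraMap K K' (g (β : K))
  gen : Algebra.adjoin K (Set.range r) = ⊤
  gal : IsGalois F K'

/-- The cyclic group of order 2. -/
abbrev C2 : Type := Multiplicative (ZMod 2)

end H55N
end

-- from Lib.H55C.A6
section

open NumberField IsDedekindDomain

namespace H55C

open H55B

/-! Chunk A6 (M): consequences of Comp. Everything from span: an additive/multiplicative map is determined by its values on K and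
theta. act g (a + b theta + c theta^2) = g a + g b theta + g c theta^2; T(a + b theta + c theta^2) =
a + b om theta + c om^2 theta^2. fixT: T z = z forces b om = b, c om^2 = c, b = c = 0 (indep, om <> 1).
fixed: g a = a for all g, K/F Galois, so a, b, c are in F, and z is the image of a + b theta + c theta^2 in M.
norm_K: z T(z) T(T z) is fixed by T. -/

variable {K M L N : Type} [Field K] [NumberField K] [Algebra F K] [Field M] [NumberField M]
  [Algebra F M] [Field L] [NumberField L] [Algebra L M] [Field N] [NumberField N] [Algebra K N]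
  [Algebra M N] {θ : M} {t : L} {τ σ : M ≃+* M} {T : N ≃+* N} {act : (K ≃ₐ[F] K) → (N ≃+* N)}

theorem A6_om (C : Comp K M L N θ t τ σ T act) : algebraMap M N (algebraMap O M om) =
    algebraMap K N (algebraMap O K om) := by
  have h1 : algebraMap O M om = algebraMap F M (algebraMap O F om) :=
    IsScalarTower.algebraMap_apply O F M om
  have h2 : algebraMap O K om = algebraMap F K (algebraMap O F om) :=
    IsScalarTower.algebraMap_apply O F K om
  rw [h1, h2, C.tower]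

theorem A6_rel : (algebraMap O K om) ^ 2 + algebraMap O K om + 1 = 0 := by
  rw [← map_pow, ← map_add, ← map_one (algebraMap O K), ← map_add, om_rel, map_zero]

theorem A6_ne1 : algebraMap O K om ≠ 1 := by
  intro h
  have h1 := A6_rel (K := K)
  rw [h] at h1
  norm_num at h1

theorem A6_ne2 : (algebraMap O K om) ^ 2 ≠ 1 := by
  intro h
  have h1 := A6_rel (K := K)
  rw [h] at h1
  have h2 : algebraMap O K om = -2 := by linear_combination h1
  rw [h2] at h
  norm_num at h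

theorem T_theta (C : Comp K M L N θ t τ σ T act) :
    T (algebraMap M N θ) = algebraMap K N (algebraMap O K om) * algebraMap M N θ := by
  rw [C.T_M, C.sex.tau_theta, map_mul, A6_om C]

/-- Additive and multiplicative maps agree if they agree on K and theta. -/
theorem A6_ext (C : Comp K M L N θ t τ σ T act) {R : Type} [Ring R] (f g : N →+* R)
    (h1 : ∀ x : K, f (algebraMap K N x) = g (algebraMap K N x))
    (h2 : f (algebraMap M N θ) = g (algebraMap M N θ)) (z : N) : f z = g z := by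
  obtain ⟨a, b, c, rfl⟩ := C.span z
  simp only [map_add, map_mul, map_pow, h1, h2]

theorem T_T_T (C : Comp K M L N θ t τ σ T act) (z : N) : T (T (T z)) = z := by
  have h := A6_ext C ((T.trans T).trans T : N ≃+* N).toRingHom (RingHom.id N)
    (fun x => by
      show T (T (T (algebraMap K N x))) = algebraMap K N x
      rw [C.T_K, C.T_K, C.T_K]) (by
      show T (T (T (algebraMap M N θ))) = algebraMap M N θ
      rw [T_theta C, map_mul, C.T_K, T_theta C, map_mul, map_mul, C.T_K, T_theta C]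
      have hr : (algebraMap K N (algebraMap O K om)) ^ 2 + algebraMap K N (algebraMap O K om) + 1 =
          0 := by
        have := congrArg (algebraMap K N) (A6_rel (K := K))
        simpa only [map_add, map_pow, map_one, map_zero] using this
      linear_combination (algebraMap K N (algebraMap O K om) - 1) * algebraMap M N θ * hr) z
  exact h

theorem act_mul (C : Comp K M L N θ t τ σ T act) (g h : K ≃ₐ[F] K) (z : N) :
    act (g * h) z = act g (act h z) := by
  have h' := A6_ext C (act (g * h)).toRingHom ((act h).trans (act g) : N ≃+* N).toRingHom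
    (fun x => by
      show act (g * h) (algebraMap K N x) = act g (act h (algebraMap K N x))
      rw [C.act_K, C.act_K, C.act_K]
      rfl) (by
      show act (g * h) (algebraMap M N θ) = act g (act h (algebraMap M N θ))
      rw [C.act_M, C.act_M, C.act_M]) z
  exact h'

theorem act_one (C : Comp K M L N θ t τ σ T act) (z : N) : act 1 z = z := by
  have h' := A6_ext C (act 1).toRingHom (RingHom.id N)
    (fun x => by
      show act 1 (algebraMap K N x) = algebraMap K N x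
      rw [C.act_K]
      rfl) (by
      show act 1 (algebraMap M N θ) = algebraMap M N θ
      rw [C.act_M]) z
  exact h'

theorem act_T (C : Comp K M L N θ t τ σ T act) (g : K ≃ₐ[F] K) (z : N) :
    act g (T z) = T (act g z) := by
  have h' := A6_ext C (T.trans (act g) : N ≃+* N).toRingHom ((act g).trans T : N ≃+* N).toRingHom
    (fun x => by
      show act g (T (algebraMap K N x)) = T (act g (algebraMap K N x))
      rw [C.T_K, C.act_K, C.T_K]) (by
      show act g (T (algebraMap M N θ)) = T (act g (algebraMap M N θ))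
      rw [C.act_M, C.T_M, C.act_M]) z
  exact h'

theorem fixT (C : Comp K M L N θ t τ σ T act) (z : N) (hz : T z = z) :
    ∃ x : K, algebraMap K N x = z := by
  obtain ⟨a, b, c, rfl⟩ := C.span z
  simp only [map_add, map_mul, map_pow, C.T_K, T_theta C] at hz
  obtain ⟨-, hb, hc⟩ := C.indep 0 (b * (algebraMap O K om - 1)) (c * ((algebraMap O K om) ^ 2 - 1))
    (by
      simp only [map_zero, map_mul, map_sub, map_pow, map_one]
      linear_combination hz)
  have hb' : b = 0 := (mul_eq_zero.1 hb).resolve_right (sub_ne_zero.2 A6_ne1)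
  have hc' : c = 0 := (mul_eq_zero.1 hc).resolve_right (sub_ne_zero.2 A6_ne2)
  exact ⟨a, by rw [hb', hc']; simp⟩

theorem norm_K (C : Comp K M L N θ t τ σ T act) (z : N) :
    ∃ x : K, z * T z * T (T z) = algebraMap K N x := by
  obtain ⟨x, hx⟩ := fixT C (z * T z * T (T z)) (by
    rw [map_mul, map_mul, T_T_T C]
    ring)
  exact ⟨x, hx.symm⟩

theorem fixed (C : Comp K M L N θ t τ σ T act) (hG : IsGalois F K) (z : N)
    (hz : ∀ g, act g z = z) : ∃ m : M, algebraMap M N m = z := by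
  obtain ⟨a, b, c, rfl⟩ := C.span z
  have key : ∀ g : K ≃ₐ[F] K, g a = a ∧ g b = b ∧ g c = c := by
    intro g
    have h := hz g
    simp only [map_add, map_mul, map_pow, C.act_K, C.act_M] at h
    obtain ⟨h1, h2, h3⟩ := C.indep (g a - a) (g b - b) (g c - c) (by
      simp only [map_sub]
      linear_combination h)
    exact ⟨sub_eq_zero.1 h1, sub_eq_zero.1 h2, sub_eq_zero.1 h3⟩
  obtain ⟨a', ha⟩ := (IsGalois.mem_range_algebraMap_iff_fixed a).2 fun g => (key g).1
  obtain ⟨b', hb⟩ := (IsGalois.mem_range_algebraMap_iff_fixed b).2 fun g => (key g).2.1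
  obtain ⟨c', hc⟩ := (IsGalois.mem_range_algebraMap_iff_fixed c).2 fun g => (key g).2.2
  refine ⟨algebraMap F M a' + algebraMap F M b' * θ + algebraMap F M c' * θ ^ 2, ?_⟩
  simp only [map_add, map_mul, map_pow, ← C.tower, ha, hb, hc]

end H55C
end

-- from Lib.H55K.D2A
section

/-! # H55K, part D: two good models differ by an integral change of variables -/

open WeierstrassCurve

namespace H55K.DD

theorem d2a_good (R : Type) [CommRing R] [IsDomain R] [IsDiscreteValuationRing R] (K : Type)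
    [Field K] [Algebra R K] [IsFractionRing R K] (W : WeierstrassCurve R) (hΔ : IsUnit W.Δ) :
    ((W⁄K).minimal R).HasGoodReduction R := by
  obtain ⟨C, hC⟩ : ∃ C : VariableChange K, (W⁄K).minimal R = C • (W⁄K) := ⟨_, rfl⟩
  have hmin : IsMinimal R ((W⁄K).minimal R) := inferInstance
  rw [hasGoodReduction_iff]
  refine ⟨hmin, ?_⟩
  have hWint : IsIntegral R (W⁄K) := ⟨⟨W, rfl⟩⟩
  have hback : C⁻¹ • (W⁄K).minimal R = (W⁄K) := by rw [hC, inv_smul_smul]
  have hmax := hmin.val_Δ_maximal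
  have hj : IsIntegral R (C⁻¹ • (W⁄K).minimal R) := by rw [hback]; exact hWint
  have hval : (valuation_Δ_aux R (C⁻¹ • (W⁄K).minimal R)).1 = 1 := by
    rw [hback]
    rw [valuation_Δ_aux_eq_of_isIntegral]
    have h1 : (W⁄K).Δ = algebraMap R K W.Δ := map_Δ W (algebraMap R K)
    rw [h1]
    exact H55B.F1_val_unit R K hΔ
  have hle : valuation_Δ_aux R ((1 : VariableChange K) •
      (W⁄K).minimal R) ≤ valuation_Δ_aux R (C⁻¹ • (W⁄K).minimal R) := by
    rw [← Subtype.coe_le_coe, hval]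
    exact (valuation_Δ_aux R _).2
  have hge := hmax.2 hj hle
  rw [← Subtype.coe_le_coe, hval] at hge
  change 1 ≤ (valuation_Δ_aux R ((1 : VariableChange K) •
      (W⁄K).minimal R)).1 at hge
  rw [one_smul, valuation_Δ_aux_eq_of_isIntegral] at hge
  refine le_antisymm ?_ hge
  obtain ⟨r, hr⟩ := Δ_integral_of_isIntegral R ((W⁄K).minimal R)
  rw [← hr]
  exact IsDedekindDomain.HeightOneSpectrum.valuation_le_one _ _

/-- Chunk D2A (M), PORT of H55B.F1_good and F1_core (Lib/H55B/F1.lean) to a general integral model W with unit discriminant. F1_good: W⁄K is integral with valuation of the discriminant 1 (F1_val_unit), so the minimal model has valuation of the discriminant 1. core: (W⁄K).minimal R = C • (W⁄K), C = (u, r, s, t) over K; I = integral model, unit discriminant.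
u^12 is a unit times a unit (variableChange_Δ): u and u⁻¹ are in R (IsIntegrallyClosed.exists_algebraMap_eq_of_isIntegral_pow). r: with b₆' = b₆(I), b₈' = b₈(I): u^6 b₆' = b₆ + 2 r b₄ + r^2 b₂ + 4 r^3 and u^8 b₈' = b₈ + 3 r b₆ + 3 r^2 b₄ + r^3 b₂ + 3 r^4 (variableChange_b₆, variableChange_b₈), so
r u^6 b₆' - u^8 b₈' = r^4 - b₄ r^2 - 2 b₆ r - b₈: r is a root of the monic polynomial X^4 - b₄ X^2 - (2 b₆ + u^6 b₆') X + (u^8 b₈' - b₈) over R, so r is in R (IsIntegrallyClosed.isIntegral_iff). s: u^2 a₂' = a₂ - s a₁ + 3 r - s^2 (monic in s). t: u^6 a₆' = a₆ + r a₄ + r^2 a₂ + r^3 - t a₃ - t^2 - r t a₁ (monic in t). The end is as in F1_core. -/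
theorem core (R : Type) [CommRing R] [IsDomain R] [IsDiscreteValuationRing R] (K : Type) [Field K] [Algebra R K]
    [IsFractionRing R K] (W : WeierstrassCurve R) (hΔ : IsUnit W.Δ) :
    ((W⁄K).minimal R).HasGoodReduction R ∧
      ∃ C : VariableChange R, integralModel R ((W⁄K).minimal R) = C • W := by
  refine ⟨d2a_good R K W hΔ, ?_⟩
  obtain ⟨C, hC⟩ : ∃ C : VariableChange K, (W⁄K).minimal R = C • (W⁄K) := ⟨_, rfl⟩
  set I := integralModel R ((W⁄K).minimal R) with hI
  have inj : Function.Injective (algebraMap R K) := IsFractionRing.injective R K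
  -- the discriminant of the integral model is a unit
  have hΔI : IsUnit I.Δ := by
    have hg := (d2a_good R K W hΔ).goodReduction
    rw [← integralModel_Δ_eq R] at hg
    by_contra h
    have := (IsDedekindDomain.HeightOneSpectrum.valuation_lt_one_iff_mem
      (K := K) (IsDiscreteValuationRing.maximalIdeal R) I.Δ).2
      ((IsLocalRing.mem_maximalIdeal _).2 h)
    exact absurd hg this.ne
  have mΔ : (W⁄K).Δ = algebraMap R K W.Δ := map_Δ W (algebraMap R K)
  have mb₂ : (W⁄K).b₂ = algebraMap R K W.b₂ := map_b₂ W (algebraMap R K)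
  have mb₄ : (W⁄K).b₄ = algebraMap R K W.b₄ := map_b₄ W (algebraMap R K)
  have mb₆ : (W⁄K).b₆ = algebraMap R K W.b₆ := map_b₆ W (algebraMap R K)
  have mb₈ : (W⁄K).b₈ = algebraMap R K W.b₈ := map_b₈ W (algebraMap R K)
  have ma₁ : (W⁄K).a₁ = algebraMap R K W.a₁ := rfl
  have ma₂ : (W⁄K).a₂ = algebraMap R K W.a₂ := rfl
  have ma₃ : (W⁄K).a₃ = algebraMap R K W.a₃ := rfl
  have ma₄ : (W⁄K).a₄ = algebraMap R K W.a₄ := rfl
  have ma₆ : (W⁄K).a₆ = algebraMap R K W.a₆ := rfl
  have eΔ : algebraMap R K I.Δ = ((C.u⁻¹ : Kˣ) : K) ^ 12 * algebraMap R K W.Δ := by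
    rw [hI, integralModel_Δ_eq, hC, variableChange_Δ, mΔ]
  have eb₆ : algebraMap R K I.b₆ = ((C.u⁻¹ : Kˣ) : K) ^ 6 * (algebraMap R K W.b₆ +
      2 * C.r * algebraMap R K W.b₄ + C.r ^ 2 * algebraMap R K W.b₂ + 4 * C.r ^ 3) := by
    rw [hI, integralModel_b₆_eq, hC, variableChange_b₆, mb₆, mb₄, mb₂]
  have eb₈ : algebraMap R K I.b₈ = ((C.u⁻¹ : Kˣ) : K) ^ 8 * (algebraMap R K W.b₈ +
      3 * C.r * algebraMap R K W.b₆ + 3 * C.r ^ 2 * algebraMap R K W.b₄ + C.r ^ 3 * algebraMap R K W.b₂ +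
      3 * C.r ^ 4) := by
    rw [hI, integralModel_b₈_eq, hC, variableChange_b₈, mb₈, mb₆, mb₄, mb₂]
  have ea₂ : algebraMap R K I.a₂ = ((C.u⁻¹ : Kˣ) : K) ^ 2 * (algebraMap R K W.a₂ - C.s * algebraMap R K W.a₁ +
      3 * C.r - C.s ^ 2) := by
    rw [hI, integralModel_a₂_eq, hC, variableChange_a₂, ma₂, ma₁]
  have ea₆ : algebraMap R K I.a₆ = ((C.u⁻¹ : Kˣ) : K) ^ 6 * (algebraMap R K W.a₆ + C.r * algebraMap R K W.a₄ +
      C.r ^ 2 * algebraMap R K W.a₂ + C.r ^ 3 - C.t * algebraMap R K W.a₃ - C.t ^ 2 -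
      C.r * C.t * algebraMap R K W.a₁) := by
    rw [hI, integralModel_a₆_eq, hC, variableChange_a₆, ma₆, ma₄, ma₂, ma₃, ma₁]
  set u : K := (C.u : K) with hu
  have hu0 : u ≠ 0 := C.u.ne_zero
  have huinv : ((C.u⁻¹ : Kˣ) : K) = u⁻¹ := Units.val_inv_eq_inv_val _
  rw [huinv] at eΔ eb₆ eb₈ ea₂ ea₆
  obtain ⟨d, hd⟩ := hΔI
  obtain ⟨m, hm⟩ := hΔ
  -- u is integral
  have hdm : algebraMap R K d = u⁻¹ ^ 12 * algebraMap R K m := by
    rw [hd, eΔ, hm]
  have hu12 : u ^ 12 = algebraMap R K ((m : R) * ((d⁻¹ : Rˣ) : R)) := by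
    rw [map_mul]
    have h1 : algebraMap R K d * algebraMap R K ((d⁻¹ : Rˣ) : R) = 1 := by
      rw [← map_mul, Units.mul_inv, map_one]
    have h2 : u ^ 12 * algebraMap R K d = algebraMap R K m := by
      rw [hdm, inv_pow, mul_inv_cancel_left₀ (pow_ne_zero _ hu0)]
    calc u ^ 12 = u ^ 12 * (algebraMap R K d * algebraMap R K ((d⁻¹ : Rˣ) : R)) := by rw [h1, mul_one]
      _ = (u ^ 12 * algebraMap R K d) * algebraMap R K ((d⁻¹ : Rˣ) : R) := by ring
      _ = _ := by rw [h2]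
  have huinv12 : u⁻¹ ^ 12 = algebraMap R K ((d : R) * ((m⁻¹ : Rˣ) : R)) := by
    rw [map_mul]
    have h1 : algebraMap R K m * algebraMap R K ((m⁻¹ : Rˣ) : R) = 1 := by
      rw [← map_mul, Units.mul_inv, map_one]
    rw [hdm, mul_assoc, h1, mul_one]
  obtain ⟨u₀, hu₀⟩ : ∃ u₀ : R, algebraMap R K u₀ = u := by
    apply IsIntegrallyClosed.exists_algebraMap_eq_of_isIntegral_pow (n := 12) (by norm_num)
    rw [hu12]; exact isIntegral_algebraMap
  obtain ⟨v₀, hv₀⟩ : ∃ v₀ : R, algebraMap R K v₀ = u⁻¹ := by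
    apply IsIntegrallyClosed.exists_algebraMap_eq_of_isIntegral_pow (n := 12) (by norm_num)
    rw [huinv12]; exact isIntegral_algebraMap
  have huv : u₀ * v₀ = 1 := by
    apply inj
    rw [map_mul, hu₀, hv₀, map_one, mul_inv_cancel₀ hu0]
  -- r
  obtain ⟨r₀, hr₀⟩ : ∃ r₀ : R, algebraMap R K r₀ = C.r := by
    rw [← IsIntegrallyClosed.isIntegral_iff]
    refine ⟨Polynomial.X ^ 4 - Polynomial.C W.b₄ * Polynomial.X ^ 2 -
      Polynomial.C (2 * W.b₆ + u₀ ^ 6 * I.b₆) * Polynomial.X + Polynomial.C (u₀ ^ 8 * I.b₈ - W.b₈), ?_, ?_⟩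
    · monicity!
    · simp only [Polynomial.eval₂_sub, Polynomial.eval₂_add, Polynomial.eval₂_pow, Polynomial.eval₂_mul,
        Polynomial.eval₂_X, Polynomial.eval₂_C]
      rw [map_add, map_mul, map_mul, map_sub, map_mul, map_pow, map_pow, hu₀, eb₆, eb₈, map_ofNat]
      have h6 : u ^ 6 * (u⁻¹ ^ 6 * (algebraMap R K W.b₆ +
          2 * C.r * algebraMap R K W.b₄ + C.r ^ 2 * algebraMap R K W.b₂ + 4 * C.r ^ 3)) =
          algebraMap R K W.b₆ + 2 * C.r * algebraMap R K W.b₄ + C.r ^ 2 * algebraMap R K W.b₂ + 4 * C.r ^ 3 := by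
        rw [inv_pow, mul_inv_cancel_left₀ (pow_ne_zero _ hu0)]
      have h8 : u ^ 8 * (u⁻¹ ^ 8 * (algebraMap R K W.b₈ +
          3 * C.r * algebraMap R K W.b₆ + 3 * C.r ^ 2 * algebraMap R K W.b₄ + C.r ^ 3 * algebraMap R K W.b₂ +
          3 * C.r ^ 4)) = algebraMap R K W.b₈ +
          3 * C.r * algebraMap R K W.b₆ + 3 * C.r ^ 2 * algebraMap R K W.b₄ + C.r ^ 3 * algebraMap R K W.b₂ +
          3 * C.r ^ 4 := by
        rw [inv_pow, mul_inv_cancel_left₀ (pow_ne_zero _ hu0)]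
      rw [h6, h8]
      ring
  obtain ⟨s₀, hs₀⟩ : ∃ s₀ : R, algebraMap R K s₀ = C.s := by
    rw [← IsIntegrallyClosed.isIntegral_iff]
    refine ⟨Polynomial.X ^ 2 + Polynomial.C W.a₁ * Polynomial.X -
      Polynomial.C (W.a₂ + 3 * r₀ - u₀ ^ 2 * I.a₂), ?_, ?_⟩
    · monicity!
    · simp only [Polynomial.eval₂_sub, Polynomial.eval₂_add, Polynomial.eval₂_pow, Polynomial.eval₂_mul,
        Polynomial.eval₂_X, Polynomial.eval₂_C]
      rw [map_sub, map_add, map_mul, map_mul, map_pow, hu₀, hr₀, ea₂, map_ofNat]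
      have h2 : u ^ 2 * (u⁻¹ ^ 2 * (algebraMap R K W.a₂ - C.s * algebraMap R K W.a₁ + 3 * C.r - C.s ^ 2)) =
          algebraMap R K W.a₂ - C.s * algebraMap R K W.a₁ + 3 * C.r - C.s ^ 2 := by
        rw [inv_pow, mul_inv_cancel_left₀ (pow_ne_zero _ hu0)]
      rw [h2]
      ring
  obtain ⟨t₀, ht₀⟩ : ∃ t₀ : R, algebraMap R K t₀ = C.t := by
    rw [← IsIntegrallyClosed.isIntegral_iff]
    refine ⟨Polynomial.X ^ 2 + Polynomial.C (W.a₃ + r₀ * W.a₁) * Polynomial.X -
      Polynomial.C (W.a₆ + r₀ * W.a₄ + r₀ ^ 2 * W.a₂ + r₀ ^ 3 - u₀ ^ 6 * I.a₆), ?_, ?_⟩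
    · monicity!
    · simp only [Polynomial.eval₂_sub, Polynomial.eval₂_add, Polynomial.eval₂_pow, Polynomial.eval₂_mul,
        Polynomial.eval₂_X, Polynomial.eval₂_C, map_sub, map_add, map_mul, map_pow, hu₀, hr₀, ea₆]
      have h6 : u ^ 6 * (u⁻¹ ^ 6 * (algebraMap R K W.a₆ + C.r * algebraMap R K W.a₄ +
          C.r ^ 2 * algebraMap R K W.a₂ + C.r ^ 3 - C.t * algebraMap R K W.a₃ - C.t ^ 2 -
          C.r * C.t * algebraMap R K W.a₁)) = algebraMap R K W.a₆ + C.r * algebraMap R K W.a₄ +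
          C.r ^ 2 * algebraMap R K W.a₂ + C.r ^ 3 - C.t * algebraMap R K W.a₃ - C.t ^ 2 -
          C.r * C.t * algebraMap R K W.a₁ := by
        rw [inv_pow, mul_inv_cancel_left₀ (pow_ne_zero _ hu0)]
      rw [h6]
      ring
  refine ⟨⟨⟨u₀, v₀, huv, by rw [mul_comm]; exact huv⟩, r₀, s₀, t₀⟩, ?_⟩
  have hmapinj : Function.Injective
      (fun E : WeierstrassCurve R => E.map (algebraMap R K)) := map_injective inj
  apply hmapinj
  show I.map (algebraMap R K) = (_ : WeierstrassCurve R).map (algebraMap R K)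
  rw [← map_variableChange]
  have e1 : I.map (algebraMap R K) = (W⁄K).minimal R := baseChange_integralModel_eq R _
  rw [e1, hC]
  congr 1
  ext
  · show u = algebraMap R K u₀
    rw [hu₀]
  · exact hr₀.symm
  · exact hs₀.symm
  · exact ht₀.symm

end H55K.DD
end

-- from Lib.H55K.D2C
section

/-! # H55K, part D: the local polynomial of a good model -/

open WeierstrassCurve Polynomial

namespace H55K.DD

/-- The local polynomial of a model with unit discriminant. -/
theorem good_loc (R : Type) [CommRing R] [IsDomain R] [IsDiscreteValuationRing R] (K : Type) [Field K] [Algebra R K]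
    [IsFractionRing R K] (W : WeierstrassCurve R) (hΔ : IsUnit W.Δ) :
    (W⁄K).localPolynomial R = 1 - C ((Nat.card (IsLocalRing.ResidueField R) : ℤ) + 1 -
      (Nat.card (W.map (IsLocalRing.residue R)).toAffine.Point : ℤ)) * X +
        C (Nat.card (IsLocalRing.ResidueField R) : ℤ) * X ^ 2 := by
  obtain ⟨hg, D, hD⟩ := core R K W hΔ
  have hred : ((W⁄K).minimal R).reduction R = (D.map (IsLocalRing.residue R)) • (W.map (IsLocalRing.residue R)) := by
    unfold WeierstrassCurve.reduction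
    rw [hD, ← WeierstrassCurve.map_variableChange]
  have h0 : (W.map (IsLocalRing.residue R)).Δ ≠ 0 := by
    rw [WeierstrassCurve.map_Δ]
    exact (hΔ.map (IsLocalRing.residue R)).ne_zero
  unfold WeierstrassCurve.localPolynomial
  rw [if_pos hg, hred, card_vc _ _ _ h0]

end H55K.DD
end

-- from Lib.H55K.D4
section

/-! # H55K, part D: good reduction over the completion -/

open NumberField IsDedekindDomain WeierstrassCurve

namespace H55K.DD

theorem d4_approx (K : Type) [Field K] [NumberField K] (w : HeightOneSpectrum (𝓞 K))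
    (y ε : w.adicCompletion K) (hε : ε ≠ 0) :
    ∃ k : K, Valued.v (y - (k : w.adicCompletion K)) ≤ Valued.v ε := by
  have hopen : IsOpen {z : w.adicCompletion K | (y - z) * ε⁻¹ ∈ w.adicCompletionIntegers K} := by
    have h1 : IsOpen ((w.adicCompletionIntegers K : Set (w.adicCompletion K))) :=
      Valued.isOpen_valuationSubring (w.adicCompletion K)
    exact h1.preimage ((continuous_const.sub continuous_id).mul continuous_const)
  obtain ⟨k, hk⟩ := (HeightOneSpectrum.denseRange_algebraMap K w).exists_mem_open hopen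
    ⟨y, by
      show (y - y) * ε⁻¹ ∈ w.adicCompletionIntegers K
      rw [sub_self, zero_mul]
      exact zero_mem _⟩
  refine ⟨k, ?_⟩
  have hk' : Valued.v ((y - (k : w.adicCompletion K)) * ε⁻¹) ≤ 1 := hk
  have h2 : y - (k : w.adicCompletion K) = ((y - (k : w.adicCompletion K)) * ε⁻¹) * ε := by
    rw [mul_assoc, inv_mul_cancel₀ hε, mul_one]
  rw [h2, map_mul]
  calc Valued.v ((y - (k : w.adicCompletion K)) * ε⁻¹) * Valued.v ε
      ≤ 1 * Valued.v ε := mul_le_mul_left hk' _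
    _ = Valued.v ε := one_mul _

theorem d4_quot (K : Type) [Field K] [NumberField K] (w : HeightOneSpectrum (𝓞 K))
    (y ε k : w.adicCompletion K) (hε : ε ≠ 0) (h : Valued.v (y - k) ≤ Valued.v ε) :
    Valued.v ((k - y) * ε⁻¹) ≤ 1 := by
  have h0 : Valued.v ε ≠ 0 := (Valuation.ne_zero_iff _).2 hε
  rw [map_mul, map_inv₀, Valuation.map_sub_swap]
  calc Valued.v (y - k) * (Valued.v ε)⁻¹ ≤ Valued.v ε * (Valued.v ε)⁻¹ := mul_le_mul_left h _
    _ = 1 := mul_inv_cancel₀ h0

theorem d4_val (K : Type) [Field K] [NumberField K] (w : HeightOneSpectrum (𝓞 K)) (x : K)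
    (r : w.adicCompletionIntegers K)
    (h : algebraMap K (w.adicCompletion K) x = algebraMap (w.adicCompletionIntegers K) (w.adicCompletion K) r) :
    w.valuation K x = Valued.v (r : w.adicCompletion K) := by
  have h1 : Valued.v (x : w.adicCompletion K) = w.valuation K x :=
    HeightOneSpectrum.valuedAdicCompletion_eq_valuation' w x
  rw [← h1]
  exact congrArg Valued.v h

/-- Chunk D4 (M), approximation. Suppose C = (u, r, s, t) over K_w = w.adicCompletion K and C • (W⁄K_w) is integral with discriminant of valuation 1. K is dense in K_w (H55B.F3_approx, HeightOneSpectrum.denseRange_algebraMap; F3_approx scaled: for y and ε ≠ 0 in K_w there is k in K with v(y - k) ≤ v(ε)). Choose u₀ in K with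
v(u₀ - u) < v(u), so u₀ ≠ 0 and v(u₀/u) = 1; s₀ with v(s₀ - s) ≤ v(u); r₀ with v(r₀ - r) ≤ v(u)^2 and v((r₀ - r) s) ≤ v(u)^3; t₀ with v(t₀ - t) ≤ v(u)^3. C₀ = (u₀, r₀, s₀, t₀). D = C₀ * C⁻¹ (product of variable changes) is (u₀/u, (r₀ - r)/u^2, (s₀ - s)/u, (t₀ - t - (r₀ - r) s)/u^3): all v-integral, v(D.u) = 1
(D * C = C₀: VariableChange mul formulas), so C₀ • (W⁄K_w) = D • (C • (W⁄K_w)) has integral coefficients (variableChange_a₁ .. a₆: polynomials in u⁻¹, r, s, t and the coefficients) and discriminant of valuation v(D.u)^-12 = 1. C₀ • (W⁄K_w) = (C₀ • W)⁄K_w (map_variableChange); the valuation of K_w restricted to K is w.valuation K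
(HeightOneSpectrum.valuedAdicCompletion_eq_valuation'): GoodAt W w. The valuation of the maximal ideal of the discrete valuation ring adicCompletionIntegers: value 1 iff unit iff Valued.v = 1 (see H55B valuation_compl, F3_mem_maximalIdeal, Lib/H55B/F3.lean, F4.lean); IsIntegral: coefficients in w.adicCompletionIntegers K, i.e. Valued.v ≤ 1. -/
theorem bad_compl {K : Type} [Field K] [NumberField K] (W : WeierstrassCurve K) (w : HeightOneSpectrum (𝓞 K))
    (h : ¬ GoodAt W w) (C : VariableChange (w.adicCompletion K))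
    (hC : IsIntegral (w.adicCompletionIntegers K) (C • (W⁄(w.adicCompletion K)))) :
    (IsDiscreteValuationRing.maximalIdeal (w.adicCompletionIntegers K)).valuation (w.adicCompletion K)
      (C • (W⁄(w.adicCompletion K))).Δ ≠ 1 := by
  intro hΔ1
  apply h
  obtain ⟨Wi, hWi⟩ := hC.integral
  have hΔu : Valued.v ((Wi.Δ : w.adicCompletionIntegers K) : w.adicCompletion K) = 1 := by
    rw [hWi] at hΔ1
    have h1 : (Wi⁄(w.adicCompletion K)).Δ =
      algebraMap (w.adicCompletionIntegers K) (w.adicCompletion K) Wi.Δ := WeierstrassCurve.map_Δ _ _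
    rw [h1, HeightOneSpectrum.valuation_of_algebraMap, HeightOneSpectrum.intValuation_eq_one_iff] at hΔ1
    have h2 : Wi.Δ ∉ IsLocalRing.maximalIdeal (w.adicCompletionIntegers K) := hΔ1
    rw [H55B.F3_mem_maximalIdeal] at h2
    exact le_antisymm (Wi.Δ).2 (not_lt.1 h2)
  obtain ⟨π, hπ⟩ := w.valuation_exists_uniformizer K
  have hπv : Valued.v (π : w.adicCompletion K) = w.valuation K π :=
    HeightOneSpectrum.valuedAdicCompletion_eq_valuation' w π
  have hπ1 : w.valuation K π < 1 := by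
    rw [hπ, ← WithZero.exp_zero]
    exact WithZero.exp_lt_exp.mpr (by norm_num)
  have hπ0 : w.valuation K π ≠ 0 := by
    rw [hπ]
    exact WithZero.exp_ne_zero
  have hπ' : (π : w.adicCompletion K) ≠ 0 := by
    intro h
    apply hπ0
    rw [← hπv, h, map_zero]
  have hu0 : (C.u : w.adicCompletion K) ≠ 0 := C.u.ne_zero
  have hvu : Valued.v (C.u : w.adicCompletion K) ≠ 0 := (Valuation.ne_zero_iff _).2 hu0
  obtain ⟨u₀, hu₀⟩ := d4_approx K w (C.u : w.adicCompletion K) ((C.u : w.adicCompletion K) * π)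
    (mul_ne_zero hu0 hπ')
  have hlt : Valued.v ((C.u : w.adicCompletion K) - (u₀ : w.adicCompletion K)) <
      Valued.v (C.u : w.adicCompletion K) := by
    refine lt_of_le_of_lt hu₀ ?_
    rw [map_mul, hπv]
    calc Valued.v (C.u : w.adicCompletion K) * w.valuation K π
        < Valued.v (C.u : w.adicCompletion K) * 1 :=
          mul_lt_mul_of_pos_left hπ1 (zero_lt_iff.2 hvu)
      _ = _ := mul_one _
  have hvu₀ : Valued.v (u₀ : w.adicCompletion K) = Valued.v (C.u : w.adicCompletion K) := by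
    have h1 : (u₀ : w.adicCompletion K) = (C.u : w.adicCompletion K) - (C.u - u₀) := by ring
    rw [h1]
    exact Valuation.map_sub_eq_of_lt_left _ hlt
  have hu₀0 : u₀ ≠ 0 := by
    rintro rfl
    apply hvu
    rw [← hvu₀, HeightOneSpectrum.adicCompletion.coe_zero, map_zero]
  obtain ⟨s₀, hs₀⟩ := d4_approx K w C.s (C.u : w.adicCompletion K) hu0
  obtain ⟨r₀, hr₀⟩ := d4_approx K w C.r ((C.u : w.adicCompletion K) ^ 2) (pow_ne_zero 2 hu0)
  obtain ⟨t₀, ht₀⟩ := d4_approx K w (C.t + ((r₀ : w.adicCompletion K) - C.r) * C.s)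
    ((C.u : w.adicCompletion K) ^ 3) (pow_ne_zero 3 hu0)
  have hxu : Valued.v ((u₀ : w.adicCompletion K) * (C.u : w.adicCompletion K)⁻¹) = 1 := by
    rw [map_mul, map_inv₀, hvu₀, mul_inv_cancel₀ hvu]
  have hunit : IsUnit (⟨(u₀ : w.adicCompletion K) * (C.u : w.adicCompletion K)⁻¹, hxu.le⟩ :
      w.adicCompletionIntegers K) := by
    rw [HeightOneSpectrum.adicCompletionIntegers.isUnit_iff_valued_eq_one]
    exact hxu
  set D : VariableChange (w.adicCompletionIntegers K) :=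
    ⟨hunit.unit, ⟨_, d4_quot K w _ _ _ (pow_ne_zero 2 hu0) hr₀⟩, ⟨_, d4_quot K w _ _ _ hu0 hs₀⟩,
      ⟨_, d4_quot K w _ _ _ (pow_ne_zero 3 hu0) ht₀⟩⟩ with hD
  set C₀ : VariableChange K := ⟨Units.mk0 u₀ hu₀0, r₀, s₀, t₀⟩ with hC₀
  have hDu : algebraMap (w.adicCompletionIntegers K) (w.adicCompletion K) (D.u : w.adicCompletionIntegers K) =
    (u₀ : w.adicCompletion K) * (C.u : w.adicCompletion K)⁻¹ := rfl
  have hDr : algebraMap (w.adicCompletionIntegers K) (w.adicCompletion K) D.r =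
    ((r₀ : w.adicCompletion K) - C.r) * ((C.u : w.adicCompletion K) ^ 2)⁻¹ := rfl
  have hDs : algebraMap (w.adicCompletionIntegers K) (w.adicCompletion K) D.s =
    ((s₀ : w.adicCompletion K) - C.s) * (C.u : w.adicCompletion K)⁻¹ := rfl
  have hDt : algebraMap (w.adicCompletionIntegers K) (w.adicCompletion K) D.t =
    ((t₀ : w.adicCompletion K) - (C.t + ((r₀ : w.adicCompletion K) - C.r) * C.s)) *
      ((C.u : w.adicCompletion K) ^ 3)⁻¹ := rfl
  have hprod : C₀.map (algebraMap K (w.adicCompletion K)) =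
      D.map (algebraMap (w.adicCompletionIntegers K) (w.adicCompletion K)) * C := by
    rw [VariableChange.mul_def]
    refine VariableChange.ext (Units.ext ?_) ?_ ?_ ?_
    · show (u₀ : w.adicCompletion K) =
        algebraMap (w.adicCompletionIntegers K) (w.adicCompletion K) (D.u : w.adicCompletionIntegers K) * C.u
      rw [hDu, mul_assoc, inv_mul_cancel₀ hu0, mul_one]
    · show (r₀ : w.adicCompletion K) =
        algebraMap (w.adicCompletionIntegers K) (w.adicCompletion K) D.r * C.u ^ 2 + C.r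
      rw [hDr, mul_assoc, inv_mul_cancel₀ (pow_ne_zero 2 hu0), mul_one, sub_add_cancel]
    · show (s₀ : w.adicCompletion K) =
        C.u * algebraMap (w.adicCompletionIntegers K) (w.adicCompletion K) D.s + C.s
      rw [hDs, mul_comm, mul_assoc, inv_mul_cancel₀ hu0, mul_one, sub_add_cancel]
    · show (t₀ : w.adicCompletion K) =
        algebraMap (w.adicCompletionIntegers K) (w.adicCompletion K) D.t * C.u ^ 3 +
          algebraMap (w.adicCompletionIntegers K) (w.adicCompletion K) D.r * C.s * C.u ^ 2 + C.t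
      rw [hDt, hDr]
      have h2 := inv_mul_cancel₀ (pow_ne_zero 2 hu0)
      have h3 := inv_mul_cancel₀ (pow_ne_zero 3 hu0)
      linear_combination (-((t₀ : w.adicCompletion K) - (C.t + ((r₀ : w.adicCompletion K) - C.r) * C.s))) * h3 -
        ((r₀ : w.adicCompletion K) - C.r) * C.s * h2
  have hmodel : (C₀ • W).map (algebraMap K (w.adicCompletion K)) =
      (D • Wi).map (algebraMap (w.adicCompletionIntegers K) (w.adicCompletion K)) := by
    rw [← map_variableChange, ← map_variableChange, hprod, mul_smul]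
    congr 1
  have ha1 := congrArg WeierstrassCurve.a₁ hmodel
  have ha2 := congrArg WeierstrassCurve.a₂ hmodel
  have ha3 := congrArg WeierstrassCurve.a₃ hmodel
  have ha4 := congrArg WeierstrassCurve.a₄ hmodel
  have ha6 := congrArg WeierstrassCurve.a₆ hmodel
  have hdd := congrArg WeierstrassCurve.Δ hmodel
  rw [map_a₁, map_a₁] at ha1
  rw [map_a₂, map_a₂] at ha2
  rw [map_a₃, map_a₃] at ha3
  rw [map_a₄, map_a₄] at ha4
  rw [map_a₆, map_a₆] at ha6
  rw [map_Δ, map_Δ] at hdd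
  refine ⟨C₀, ?_, ?_, ?_, ?_, ?_, ?_⟩
  · rw [d4_val K w _ _ ha1]; exact (D • Wi).a₁.2
  · rw [d4_val K w _ _ ha2]; exact (D • Wi).a₂.2
  · rw [d4_val K w _ _ ha3]; exact (D • Wi).a₃.2
  · rw [d4_val K w _ _ ha4]; exact (D • Wi).a₄.2
  · rw [d4_val K w _ _ ha6]; exact (D • Wi).a₆.2
  · rw [d4_val K w _ _ hdd, variableChange_Δ]
    have h1 : IsUnit ((↑D.u⁻¹ : w.adicCompletionIntegers K) ^ 12 * Wi.Δ) := by
      refine IsUnit.mul (IsUnit.pow 12 (Units.isUnit _)) ?_
      rw [HeightOneSpectrum.adicCompletionIntegers.isUnit_iff_valued_eq_one]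
      exact hΔu
    rw [HeightOneSpectrum.adicCompletionIntegers.isUnit_iff_valued_eq_one] at h1
    exact h1

end H55K.DD
end

-- from Lib.H55P.SA3
section

namespace H55P

/-- The Selmer group of H (classes killed by p, trivial on the groups I v) is zero. -/
def SelA {G M Vs : Type} [Group G] [AddCommGroup M] (ρ : G →* AddMonoid.End M) (p : ℕ)
    (U : Set (Subgroup G)) (I : Vs → Subgroup G) (H : Subgroup G) : Prop :=
  ∀ c : G → M, (∀ s ∈ H, ∀ t ∈ H, c (s * t) = c s + ρ s (c t)) →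
    (∃ O ∈ U, ∀ s ∈ H, s ∈ O → c s = 0) → (∀ s ∈ H, p • c s = 0) →
    (∀ v, ∃ P : M, ∀ s ∈ H, s ∈ I v → c s = ρ s P - P) →
    ∃ T : M, p • T = 0 ∧ ∀ s ∈ H, c s = ρ s T - T

/-! Chunk PSA3 (M). Pure group theory, the step of the Selmer group in a cyclic extension of degree p (N = the smaller group).
PROOF. X = G → M, Z = the cocycles on N which are killed by p on N, continuous (zero on N ⊓ O for some O in U) and trivial on N ⊓ I v for each v: a subgroup (P adds, hUi). B = the elements z of Z with z s = ρ s T - T on N for some T, p T = 0.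
Φ c s = ρ σ (c (σ⁻¹ s σ)), additive; Φ Z <= Z: cocycle: direct (N is normalized by σ: from hcomm: σ n σ⁻¹ = (σ n σ⁻¹ n⁻¹) n); continuity hUc; local conditions: v' from hconj with g = σ⁻¹ (which is in H): s in I v, then σ⁻¹ s σ in I v', P becomes ρ σ P.
Φ B <= B. Φ^p c s = ρ (σ^p) (c (σ^(-p) s σ^p)) = c s + ρ s (c σ^p) - c σ^p (computation in PSA2), so in B + c with T = c (σ^p). op_zero reduces the claim (every c in Z is in B) to: z in Z, Φ z - z in B implies z in B.
For such z = c: hinv of ext_coc holds for g = σ, for g in N (computation in PSA2) and for products, so for all g in H (hgen; for g = σ^i n: induction). ext_coc gives c' on H. c' is continuous: c' s = c s = 0 for s in N ⊓ O (N ⊓ O is in U by hN, hUi). Local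
conditions for c' at v: in the first case of hloc H ⊓ I v <= N, clear. In the second case: (1) s in H ⊓ I v acts trivially on the T with p T = 0; (2) for u in N ⊓ I v: c u = ρ u P - P is killed by p, so it is 0. (3) for t in H ⊓ I v and φ in H ⊓ D v:
u = φ t φ⁻¹ t⁻¹ is in N (hcomm) and in I v (hDI), c' (φ t φ⁻¹) = c' (u t) = c' u + ρ u (c' t) = c' t; on the other hand c' (φ t φ⁻¹) = c' φ + ρ φ (c' t) - ρ (φ t φ⁻¹) (c' φ) = ρ φ (c' t) by (1). So ρ φ (c' t) = c' t for all φ, and c' t = 0 by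
hloc: P = 0. So SelA for H gives c' = ∂T, and c = ∂T on N. -/

section SA3

variable {G M Vs : Type} [Group G] [AddCommGroup M] (ρ : G →* AddMonoid.End M)

theorem sa3_mul (s t : G) (x : M) : ρ (s * t) x = ρ s (ρ t x) := by
  rw [map_mul]
  rfl

theorem sa3_inv (s : G) (x : M) : ρ s (ρ s⁻¹ x) = x := by
  rw [← sa3_mul, mul_inv_cancel, map_one]
  rfl

theorem sa3_one (x : M) : ρ 1 x = x := by
  rw [map_one]
  rfl

theorem sa3_nsmul (p : ℕ) (s : G) (x : M) (h : p • x = 0) : p • ρ s x = 0 := by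
  rw [← map_nsmul, h, map_zero]

/-- Coboundaries under the action. -/
theorem sa3_bd (g s : G) (T : M) : ρ g (ρ (g⁻¹ * s * g) T - T) = ρ s (ρ g T) - ρ g T := by
  rw [map_sub, ← sa3_mul, ← sa3_mul]
  congr 2
  congr 1
  group

/-- The local conditions. -/
def sa3_P (p : ℕ) (U : Set (Subgroup G)) (I : Vs → Subgroup G) (N : Subgroup G) (c : G → M) : Prop :=
  (∀ s ∈ N, ∀ t ∈ N, c (s * t) = c s + ρ s (c t)) ∧ (∃ O ∈ U, ∀ s ∈ N, s ∈ O → c s = 0) ∧
    (∀ s ∈ N, p • c s = 0) ∧ ∀ v, ∃ P : M, ∀ s ∈ N, s ∈ I v → c s = ρ s P - P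

/-- The group of cocycles. -/
def sa3_Z (p : ℕ) (U : Set (Subgroup G)) (I : Vs → Subgroup G) (N : Subgroup G) (hN : N ∈ U)
    (hUi : ∀ O ∈ U, ∀ O' ∈ U, O ⊓ O' ∈ U) : AddSubgroup (G → M) where
  carrier := {c | sa3_P ρ p U I N c}
  add_mem' := by
    rintro a b ⟨a1, ⟨O, hO, a2⟩, a3, a4⟩ ⟨b1, ⟨O', hO', b2⟩, b3, b4⟩
    refine ⟨fun s hs t ht => ?_, ⟨O ⊓ O', hUi O hO O' hO', fun s hs h => ?_⟩, fun s hs => ?_, fun v => ?_⟩
    · rw [Pi.add_apply, Pi.add_apply, Pi.add_apply, a1 s hs t ht, b1 s hs t ht, map_add]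
      abel
    · rw [Pi.add_apply, a2 s hs h.1, b2 s hs h.2, add_zero]
    · rw [Pi.add_apply, smul_add, a3 s hs, b3 s hs, add_zero]
    · obtain ⟨P, hP⟩ := a4 v
      obtain ⟨Q, hQ⟩ := b4 v
      refine ⟨P + Q, fun s hs h => ?_⟩
      rw [Pi.add_apply, hP s hs h, hQ s hs h, map_add]
      abel
  zero_mem' := by
    refine ⟨fun s _ t _ => ?_, ⟨N, hN, fun s _ _ => rfl⟩, fun s _ => ?_, fun v => ⟨0, fun s _ _ => ?_⟩⟩
    · rw [Pi.zero_apply, Pi.zero_apply, Pi.zero_apply, map_zero, add_zero]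
    · rw [Pi.zero_apply, smul_zero]
    · rw [Pi.zero_apply, map_zero, sub_zero]
  neg_mem' := by
    rintro a ⟨a1, ⟨O, hO, a2⟩, a3, a4⟩
    refine ⟨fun s hs t ht => ?_, ⟨O, hO, fun s hs h => ?_⟩, fun s hs => ?_, fun v => ?_⟩
    · rw [Pi.neg_apply, Pi.neg_apply, Pi.neg_apply, a1 s hs t ht, map_neg]
      abel
    · rw [Pi.neg_apply, a2 s hs h, neg_zero]
    · rw [Pi.neg_apply, smul_neg, a3 s hs, neg_zero]
    · obtain ⟨P, hP⟩ := a4 v
      refine ⟨-P, fun s hs h => ?_⟩
      rw [Pi.neg_apply, hP s hs h, map_neg]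
      abel

/-- The group of coboundaries. -/
def sa3_B (p : ℕ) (N : Subgroup G) : AddSubgroup (G → M) where
  carrier := {c | ∃ T : M, p • T = 0 ∧ ∀ s ∈ N, c s = ρ s T - T}
  add_mem' := by
    rintro a b ⟨P, hp, hP⟩ ⟨Q, hq, hQ⟩
    refine ⟨P + Q, by rw [smul_add, hp, hq, add_zero], fun s hs => ?_⟩
    rw [Pi.add_apply, hP s hs, hQ s hs, map_add]
    abel
  zero_mem' := ⟨0, smul_zero _, fun s _ => by rw [Pi.zero_apply, map_zero, sub_zero]⟩
  neg_mem' := by
    rintro a ⟨P, hp, hP⟩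
    refine ⟨-P, by rw [smul_neg, hp, neg_zero], fun s hs => ?_⟩
    rw [Pi.neg_apply, hP s hs, map_neg]
    abel

/-- The action of an element. -/
def sa3_F (σ : G) : (G → M) →+ (G → M) where
  toFun c := fun s => ρ σ (c (σ⁻¹ * s * σ))
  map_zero' := by
    funext s
    exact map_zero (ρ σ)
  map_add' a b := by
    funext s
    exact map_add (ρ σ) _ _

theorem sa3_F_apply (σ : G) (c : G → M) (s : G) : sa3_F ρ σ c s = ρ σ (c (σ⁻¹ * s * σ)) := rfl

theorem sa3_iter (σ : G) (i : ℕ) (c : G → M) (s : G) :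
    (sa3_F ρ σ)^[i] c s = ρ (σ ^ i) (c ((σ ^ i)⁻¹ * s * σ ^ i)) := by
  induction i generalizing s with
  | zero =>
    rw [Function.iterate_zero, id, pow_zero, sa3_one, inv_one, one_mul, mul_one]
  | succ i ih =>
    rw [Function.iterate_succ_apply', sa3_F_apply, ih, ← sa3_mul, ← pow_succ', pow_succ']
    congr 2
    group

variable {ρ}

/-- A cocycle is invariant under its own group, up to a coboundary. -/
theorem sa3_self {N : Subgroup G} {c : G → M} (hc : ∀ s ∈ N, ∀ t ∈ N, c (s * t) = c s + ρ s (c t))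
    (n : G) (hn : n ∈ N) (s : G) (hs : s ∈ N) :
    ρ n (c (n⁻¹ * s * n)) - c s = ρ s (c n) - c n := by
  have h1 : c 1 = 0 := by
    have := hc 1 N.one_mem 1 N.one_mem
    rw [mul_one, sa3_one] at this
    exact left_eq_add.1 this
  have h2 : c n + ρ n (c n⁻¹) = 0 := by
    rw [← hc n hn n⁻¹ (N.inv_mem hn), mul_inv_cancel, h1]
  rw [mul_assoc, hc n⁻¹ (N.inv_mem hn) (s * n) (N.mul_mem hs hn), map_add, sa3_inv, hc s hs n hn]
  have h3 : ρ n (c n⁻¹) = -c n := (neg_eq_of_add_eq_zero_right h2).symm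
  rw [h3]
  abel

theorem sa3_norm {N H : Subgroup G} (hNH : N ≤ H)
    (hcomm : ∀ a ∈ H, ∀ b ∈ H, a * b * a⁻¹ * b⁻¹ ∈ N) (h : G) (hh : h ∈ H) (n : G) (hn : n ∈ N) :
    h * n * h⁻¹ ∈ N := by
  have h1 := N.mul_mem (hcomm h hh n (hNH hn)) hn
  rwa [inv_mul_cancel_right] at h1

theorem sa3_norm' {N H : Subgroup G} (hNH : N ≤ H)
    (hcomm : ∀ a ∈ H, ∀ b ∈ H, a * b * a⁻¹ * b⁻¹ ∈ N) (h : G) (hh : h ∈ H) (n : G) (hn : n ∈ N) :
    h⁻¹ * n * h ∈ N := by
  have h1 := sa3_norm hNH hcomm h⁻¹ (H.inv_mem hh) n hn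
  rwa [inv_inv] at h1

theorem sa3_FZ (p : ℕ) (U : Set (Subgroup G)) (I : Vs → Subgroup G) (N H : Subgroup G)
    (hUc : ∀ O ∈ U, ∀ g : G, ∃ O' ∈ U, ∀ s ∈ O', g * s * g⁻¹ ∈ O) (hNH : N ≤ H)
    (hcomm : ∀ a ∈ H, ∀ b ∈ H, a * b * a⁻¹ * b⁻¹ ∈ N) (σ : G) (hσ : σ ∈ H)
    (hconj : ∀ g ∈ H, ∀ v, ∃ v', ∀ s, s ∈ I v' ↔ g * s * g⁻¹ ∈ I v) (c : G → M)
    (hc : sa3_P ρ p U I N c) : sa3_P ρ p U I N (sa3_F ρ σ c) := by
  obtain ⟨c1, ⟨O, hO, c2⟩, c3, c4⟩ := hc
  have hn := sa3_norm' hNH hcomm σ hσ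
  refine ⟨fun s hs t ht => ?_, ?_, fun s hs => ?_, fun v => ?_⟩
  · rw [sa3_F_apply, sa3_F_apply, sa3_F_apply]
    have e : σ⁻¹ * (s * t) * σ = (σ⁻¹ * s * σ) * (σ⁻¹ * t * σ) := by group
    rw [e, c1 _ (hn s hs) _ (hn t ht), map_add, ← sa3_mul, ← sa3_mul]
    congr 3
    group
  · obtain ⟨O', hO', h⟩ := hUc O hO σ⁻¹
    refine ⟨O', hO', fun s hs hsO => ?_⟩
    have h1 := h s hsO
    rw [inv_inv] at h1
    rw [sa3_F_apply, c2 _ (hn s hs) h1, map_zero]
  · exact sa3_nsmul ρ p σ _ (c3 _ (hn s hs))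
  · obtain ⟨v', hv'⟩ := hconj σ hσ v
    obtain ⟨P, hP⟩ := c4 v'
    refine ⟨ρ σ P, fun s hs h => ?_⟩
    have h1 : σ⁻¹ * s * σ ∈ I v' := by
      rw [hv']
      have e : σ * (σ⁻¹ * s * σ) * σ⁻¹ = s := by group
      rw [e]
      exact h
    rw [sa3_F_apply, hP _ (hn s hs) h1, sa3_bd]

/-- Invariance under an element, up to a coboundary. -/
def sa3_I (ρ : G →* AddMonoid.End M) (p : ℕ) (N : Subgroup G) (c : G → M) (g : G) : Prop :=
  ∃ T : M, p • T = 0 ∧ ∀ s ∈ N, ρ g (c (g⁻¹ * s * g)) - c s = ρ s T - T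

theorem sa3_I_mul {p : ℕ} {N : Subgroup G} {c : G → M} {g h : G} (hn : ∀ n ∈ N, g⁻¹ * n * g ∈ N)
    (h1 : sa3_I ρ p N c g) (h2 : sa3_I ρ p N c h) : sa3_I ρ p N c (g * h) := by
  obtain ⟨T, hT, h3⟩ := h1
  obtain ⟨S, hS, h4⟩ := h2
  refine ⟨ρ g S + T, by rw [smul_add, hT, sa3_nsmul ρ p g S hS, add_zero], fun s hs => ?_⟩
  have e : (g * h)⁻¹ * s * (g * h) = h⁻¹ * (g⁻¹ * s * g) * h := by group
  have h5 := h4 _ (hn s hs)
  have h6 := h3 s hs
  have h7 : ρ h (c (h⁻¹ * (g⁻¹ * s * g) * h)) = c (g⁻¹ * s * g) + (ρ (g⁻¹ * s * g) S - S) := by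
    rw [← h5]
    abel
  rw [e, sa3_mul, h7, map_add, sa3_bd, map_add]
  have h8 : ρ g (c (g⁻¹ * s * g)) = c s + (ρ s T - T) := by
    rw [← h6]
    abel
  rw [h8]
  abel

/-- The local conditions for the extended cocycle. -/
theorem sa3_loc (p : ℕ) (I D : Vs → Subgroup G) (N H : Subgroup G) (hNH : N ≤ H)
    (hcomm : ∀ a ∈ H, ∀ b ∈ H, a * b * a⁻¹ * b⁻¹ ∈ N)
    (hDI : ∀ v, ∀ φ ∈ D v, ∀ s ∈ I v, φ * s * φ⁻¹ ∈ I v) (v : Vs)
    (hloc : (∀ s ∈ H, s ∈ I v → s ∈ N) ∨
      ((∀ s ∈ H, s ∈ I v → ∀ P : M, p • (ρ s P - P) = 0 → ρ s P = P) ∧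
        ∀ T : M, p • T = 0 → (∀ s ∈ H, s ∈ D v → ρ s T = T) → T = 0))
    (c c' : G → M) (hc : ∃ P : M, ∀ s ∈ N, s ∈ I v → c s = ρ s P - P) (hpc : ∀ s ∈ N, p • c s = 0)
    (h1 : ∀ s ∈ H, ∀ t ∈ H, c' (s * t) = c' s + ρ s (c' t)) (h2 : ∀ s ∈ H, p • c' s = 0)
    (h3 : ∀ s ∈ N, c' s = c s) : ∃ P : M, ∀ s ∈ H, s ∈ I v → c' s = ρ s P - P := by
  obtain ⟨P, hP⟩ := hc
  rcases hloc with h | ⟨ha, hb⟩
  · exact ⟨P, fun s hs hI => by rw [h3 s (h s hs hI), hP s (h s hs hI) hI]⟩
  · have triv : ∀ s ∈ H, s ∈ I v → ∀ T : M, p • T = 0 → ρ s T = T := by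
      intro s hs hI T hT
      refine ha s hs hI T ?_
      rw [smul_sub, sa3_nsmul ρ p s T hT, hT, sub_zero]
    have hzero : ∀ u ∈ N, u ∈ I v → c u = 0 := by
      intro u hu hI
      have e := hP u hu hI
      have := ha u (hNH hu) hI P (by rw [← e]; exact hpc u hu)
      rw [e, this, sub_self]
    refine ⟨0, fun t ht hI => ?_⟩
    rw [map_zero, sub_zero]
    refine hb _ (h2 t ht) ?_
    intro φ hφ hD
    have hφi := H.inv_mem hφ
    have ht' : φ * t * φ⁻¹ ∈ H := H.mul_mem (H.mul_mem hφ ht) hφi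
    have hI' : φ * t * φ⁻¹ ∈ I v := hDI v φ hD t hI
    have hu : φ * t * φ⁻¹ * t⁻¹ ∈ N := hcomm φ hφ t ht
    have huI : φ * t * φ⁻¹ * t⁻¹ ∈ I v := (I v).mul_mem hI' ((I v).inv_mem hI)
    have e1 : c' (φ * t * φ⁻¹) = c' t := by
      have := h1 _ (hNH hu) t ht
      rw [inv_mul_cancel_right, h3 _ hu, hzero _ hu huI, zero_add,
        triv _ (hNH hu) huI _ (h2 t ht)] at this
      exact this
    have h4 : c' 1 = 0 := by
      have := h1 1 H.one_mem 1 H.one_mem
      rw [mul_one, sa3_one] at this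
      exact left_eq_add.1 this
    have e2 : c' (φ * t * φ⁻¹) = ρ φ (c' t) := by
      have h5 : c' φ + ρ φ (c' φ⁻¹) = 0 := by
        rw [← h1 φ hφ φ⁻¹ hφi, mul_inv_cancel, h4]
      have h6 : ρ (φ * t * φ⁻¹) (c' φ) = c' φ := triv _ ht' hI' _ (h2 φ hφ)
      have h7 : ρ (φ * t) (c' φ⁻¹) = -c' φ := by
        have h8 : c' φ⁻¹ = ρ φ⁻¹ (-c' φ) := by
          have h9 : ρ φ (c' φ⁻¹) = -c' φ := (neg_eq_of_add_eq_zero_right h5).symm
          rw [← h9, ← sa3_mul, inv_mul_cancel, sa3_one]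
        rw [h8, ← sa3_mul, map_neg, h6]
      rw [h1 _ (H.mul_mem hφ ht) _ hφi, h1 φ hφ t ht, h7]
      abel
    rw [← e2, e1]

end SA3

theorem abs_step {G M Vs : Type} [Group G] [AddCommGroup M] (ρ : G →* AddMonoid.End M) (p : ℕ)
    (hp : p.Prime) (U : Set (Subgroup G)) (I D : Vs → Subgroup G) (N H : Subgroup G)
    (hUi : ∀ O ∈ U, ∀ O' ∈ U, O ⊓ O' ∈ U) (hUc : ∀ O ∈ U, ∀ g : G, ∃ O' ∈ U, ∀ s ∈ O', g * s * g⁻¹ ∈ O)
    (hN : N ∈ U) (hNH : N ≤ H) (hcomm : ∀ a ∈ H, ∀ b ∈ H, a * b * a⁻¹ * b⁻¹ ∈ N) (σ : G) (hσ : σ ∈ H)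
    (hgen : ∀ h ∈ H, ∃ i : ℕ, ∃ n ∈ N, h = σ ^ i * n) (hσp : σ ^ p ∈ N)
    (hconj : ∀ g ∈ H, ∀ v, ∃ v', ∀ s, s ∈ I v' ↔ g * s * g⁻¹ ∈ I v)
    (hDI : ∀ v, ∀ φ ∈ D v, ∀ s ∈ I v, φ * s * φ⁻¹ ∈ I v)
    (h0 : ∀ T : M, p • T = 0 → (∀ s ∈ N, ρ s T = T) → T = 0)
    (hloc : ∀ v, (∀ s ∈ H, s ∈ I v → s ∈ N) ∨
      ((∀ s ∈ H, s ∈ I v → ∀ P : M, p • (ρ s P - P) = 0 → ρ s P = P) ∧
        ∀ T : M, p • T = 0 → (∀ s ∈ H, s ∈ D v → ρ s T = T) → T = 0))
    (hS : SelA ρ p U I H) : SelA ρ p U I N := by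
  intro c hc1 hc2 hc3 hc4
  have hn := sa3_norm hNH hcomm
  have hn' := sa3_norm' hNH hcomm
  refine op_zero p hp (sa3_Z ρ p U I N hN hUi) (sa3_B ρ p N) ?_ (sa3_F ρ σ)
    (fun z hz => sa3_FZ p U I N H hUc hNH hcomm σ hσ hconj z hz) ?_ ?_ ?_ c ⟨hc1, hc2, hc3, hc4⟩
  · rintro z ⟨-, -, hz, -⟩
    exact ⟨0, smul_zero _, fun s hs => by rw [Pi.smul_apply, hz s hs, map_zero, sub_zero]⟩
  · rintro b ⟨T, hT, hb⟩
    refine ⟨ρ σ T, sa3_nsmul ρ p σ T hT, fun s hs => ?_⟩
    rw [sa3_F_apply, hb _ (hn' σ hσ s hs), sa3_bd]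
  · rintro z ⟨z1, -, z3, -⟩
    refine ⟨z (σ ^ p), z3 _ hσp, fun s hs => ?_⟩
    rw [Pi.sub_apply, sa3_iter]
    exact sa3_self z1 _ hσp s hs
  · rintro z ⟨z1, ⟨O, hO, z2⟩, z3, z4⟩ ⟨T, hT, hb⟩
    have hI : sa3_I ρ p N z σ := ⟨T, hT, fun s hs => hb s hs⟩
    have hI1 : ∀ n ∈ N, sa3_I ρ p N z n := fun n hn => ⟨z n, z3 n hn, fun s hs => sa3_self z1 n hn s hs⟩
    have hI2 : ∀ i : ℕ, sa3_I ρ p N z (σ ^ i) := by
      intro i
      induction i with
      | zero =>
        rw [pow_zero]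
        exact hI1 1 N.one_mem
      | succ i ih =>
        rw [pow_succ']
        exact sa3_I_mul (hn' σ hσ) hI ih
    have hinv : ∀ g ∈ H, sa3_I ρ p N z g := by
      intro g hg
      obtain ⟨i, n, hnN, rfl⟩ := hgen g hg
      exact sa3_I_mul (hn' _ (H.pow_mem hσ i)) (hI2 i) (hI1 n hnN)
    obtain ⟨c', e1, e2, e3⟩ := ext_coc ρ p N H hNH hn h0 z z1 z3 hinv
    obtain ⟨T', hT', h5⟩ := hS c' e1 ⟨N ⊓ O, hUi N hN O hO, fun s _ h => by rw [e3 s h.1, z2 s h.1 h.2]⟩ e2
      (fun v => sa3_loc p I D N H hNH hcomm hDI v (hloc v) z c' (z4 v) z3 e1 e2 e3)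
    exact ⟨T', hT', fun s hs => by rw [← e3 s hs, h5 s (hNH hs)]⟩

end H55P
end

-- from Lib.H55K.NA1
section

/-! # H55K, part N: the step of the Selmer group with a third local alternative -/

namespace H55K.NB

open H55P

/-- The step of the Selmer group in a cyclic extension of degree p, with a third local alternative: every continuous
cocycle killed by p is a coboundary on the inertia group. -/
theorem abs_stepB {G M Vs : Type} [Group G] [AddCommGroup M] (ρ : G →* AddMonoid.End M) (p : ℕ)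
    (hp : p.Prime) (U : Set (Subgroup G)) (I D : Vs → Subgroup G) (N H : Subgroup G)
    (hUi : ∀ O ∈ U, ∀ O' ∈ U, O ⊓ O' ∈ U) (hUc : ∀ O ∈ U, ∀ g : G, ∃ O' ∈ U, ∀ s ∈ O', g * s * g⁻¹ ∈ O)
    (hN : N ∈ U) (hNH : N ≤ H) (hcomm : ∀ a ∈ H, ∀ b ∈ H, a * b * a⁻¹ * b⁻¹ ∈ N) (σ : G) (hσ : σ ∈ H)
    (hgen : ∀ h ∈ H, ∃ i : ℕ, ∃ n ∈ N, h = σ ^ i * n) (hσp : σ ^ p ∈ N)
    (hconj : ∀ g ∈ H, ∀ v, ∃ v', ∀ s, s ∈ I v' ↔ g * s * g⁻¹ ∈ I v)
    (hDI : ∀ v, ∀ φ ∈ D v, ∀ s ∈ I v, φ * s * φ⁻¹ ∈ I v)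
    (h0 : ∀ T : M, p • T = 0 → (∀ s ∈ N, ρ s T = T) → T = 0)
    (hloc : ∀ v, (∀ s ∈ H, s ∈ I v → s ∈ N) ∨
      ((∀ s ∈ H, s ∈ I v → ∀ P : M, p • (ρ s P - P) = 0 → ρ s P = P) ∧
        ∀ T : M, p • T = 0 → (∀ s ∈ H, s ∈ D v → ρ s T = T) → T = 0) ∨
      (∀ c' : G → M, (∀ s ∈ H, ∀ t ∈ H, c' (s * t) = c' s + ρ s (c' t)) → (∀ s ∈ H, p • c' s = 0) →
        (∃ O ∈ U, ∀ s ∈ H, s ∈ O → c' s = 0) → ∃ P : M, ∀ s ∈ H, s ∈ I v → c' s = ρ s P - P))
    (hS : SelA ρ p U I H) : SelA ρ p U I N := by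
  intro c hc1 hc2 hc3 hc4
  have hn := sa3_norm hNH hcomm
  have hn' := sa3_norm' hNH hcomm
  refine op_zero p hp (sa3_Z ρ p U I N hN hUi) (sa3_B ρ p N) ?_ (sa3_F ρ σ)
    (fun z hz => sa3_FZ p U I N H hUc hNH hcomm σ hσ hconj z hz) ?_ ?_ ?_ c ⟨hc1, hc2, hc3, hc4⟩
  · rintro z ⟨-, -, hz, -⟩
    exact ⟨0, smul_zero _, fun s hs => by rw [Pi.smul_apply, hz s hs, map_zero, sub_zero]⟩
  · rintro b ⟨T, hT, hb⟩
    refine ⟨ρ σ T, sa3_nsmul ρ p σ T hT, fun s hs => ?_⟩
    rw [sa3_F_apply, hb _ (hn' σ hσ s hs), sa3_bd]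
  · rintro z ⟨z1, -, z3, -⟩
    refine ⟨z (σ ^ p), z3 _ hσp, fun s hs => ?_⟩
    rw [Pi.sub_apply, sa3_iter]
    exact sa3_self z1 _ hσp s hs
  · rintro z ⟨z1, ⟨O, hO, z2⟩, z3, z4⟩ ⟨T, hT, hb⟩
    have hI : sa3_I ρ p N z σ := ⟨T, hT, fun s hs => hb s hs⟩
    have hI1 : ∀ n ∈ N, sa3_I ρ p N z n := fun n hn => ⟨z n, z3 n hn, fun s hs => sa3_self z1 n hn s hs⟩
    have hI2 : ∀ i : ℕ, sa3_I ρ p N z (σ ^ i) := by
      intro i
      induction i with
      | zero =>
        rw [pow_zero]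
        exact hI1 1 N.one_mem
      | succ i ih =>
        rw [pow_succ']
        exact sa3_I_mul (hn' σ hσ) hI ih
    have hinv : ∀ g ∈ H, sa3_I ρ p N z g := by
      intro g hg
      obtain ⟨i, n, hnN, rfl⟩ := hgen g hg
      exact sa3_I_mul (hn' _ (H.pow_mem hσ i)) (hI2 i) (hI1 n hnN)
    obtain ⟨c', e1, e2, e3⟩ := ext_coc ρ p N H hNH hn h0 z z1 z3 hinv
    have hcont : ∃ O' ∈ U, ∀ s ∈ H, s ∈ O' → c' s = 0 :=
      ⟨N ⊓ O, hUi N hN O hO, fun s _ h => by rw [e3 s h.1, z2 s h.1 h.2]⟩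
    obtain ⟨T', hT', h5⟩ := hS c' e1 hcont e2
      (fun v => by
        rcases hloc v with h | h | h
        · exact sa3_loc p I D N H hNH hcomm hDI v (Or.inl h) z c' (z4 v) z3 e1 e2 e3
        · exact sa3_loc p I D N H hNH hcomm hDI v (Or.inr h) z c' (z4 v) z3 e1 e2 e3
        · exact h c' e1 e2 hcont)
    exact ⟨T', hT', fun s hs => by rw [← e3 s hs, h5 s (hNH hs)]⟩

end H55K.NB
end

-- from Lib.H55P.S3
section

open NumberField IsDedekindDomain WeierstrassCurve

namespace H55P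

variable {F : Type} [Field F] [NumberField F] {Ω : Type} [Field Ω] [DecidableEq Ω] [Algebra F Ω]
  [IsAlgClosed Ω] [Algebra.IsAlgebraic F Ω] [CharZero Ω]

/-! Chunk PS3 (M). abs_step of Lib/H55P/SA3.lean for the Galois groups. sel_iff: unfold; U = the set of the fixing subgroups of the L with FiniteDimensional F L.
sel_step: H = N.fixingSubgroup, the smaller group is K.fixingSubgroup. hUi: fixing subgroup of the sup (IntermediateField.fixingSubgroup_sup or le arguments: the elements fixing L and L' fix L ⊔ L'; finite). hUc: L.map g⁻¹. hcomm, σ: the restriction r : N.fixingSubgroup → Gal(K/N) (K as an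
extension of N: IntermediateField.extendScalars; see FR_restr, FR_galois in Lib/H16C/FR2.lean; normal by hnorm), kernel = K.fixingSubgroup, the group has order [K : N] = p (IsGalois.card_aut_eq_finrank, finrank F K = finrank F N * finrank N K), so it is cyclic and
commutative (isCyclic_of_prime_card). If r is trivial take σ = 1, otherwise any σ with r σ <> 1: r σ is a generator. hconj, hDI: S1. -/

theorem s3_fin (N K : IntermediateField F Ω) (hNK : N ≤ K) [FiniteDimensional F K] :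
    FiniteDimensional N (IntermediateField.extendScalars hNK) := by
  have h1 : FiniteDimensional F (IntermediateField.extendScalars hNK) :=
    inferInstanceAs (FiniteDimensional F K)
  exact Module.Finite.of_restrictScalars_finite F N _

theorem s3_galois (N K : IntermediateField F Ω) (hNK : N ≤ K) [FiniteDimensional F K]
    (hst : ∀ g ∈ N.fixingSubgroup, ∀ x ∈ K, g x ∈ K) :
    IsGalois N (IntermediateField.extendScalars hNK) := by
  have hfin := s3_fin N K hNK
  have hal : Algebra.IsAlgebraic N Ω := Algebra.IsAlgebraic.tower_top (K := F) N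
  have hcl : IsAlgClosure N Ω := ⟨inferInstance, hal⟩
  have hno : Normal N Ω := IsAlgClosure.normal N Ω
  have : Normal N (IntermediateField.extendScalars hNK) := by
    rw [IntermediateField.normal_iff_forall_map_le']
    intro σ
    rintro y ⟨x, hx, rfl⟩
    have hx' : x ∈ K := IntermediateField.mem_extendScalars hNK |>.1 hx
    have h2 := hst (σ.restrictScalars F) (fun z => σ.commutes z) x hx'
    exact (IntermediateField.mem_extendScalars hNK).2 h2
  have : CharZero N := charZero_of_injective_algebraMap (algebraMap F N).injective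
  exact { }

theorem s3_lift {N : IntermediateField F Ω} (E : IntermediateField N Ω) [Normal N E] (s : Gal(E/N)) :
    ∃ φ : Ω ≃ₐ[F] Ω, φ ∈ N.fixingSubgroup ∧ ∀ x : E, φ (x : Ω) = ((s x : E) : Ω) := by
  have hal : Algebra.IsAlgebraic N Ω := Algebra.IsAlgebraic.tower_top (K := F) N
  have hcl : IsAlgClosure N Ω := ⟨inferInstance, hal⟩
  have hno : Normal N Ω := IsAlgClosure.normal N Ω
  refine ⟨(s.liftNormal Ω).restrictScalars F, fun x => (s.liftNormal Ω).commutes x, fun x => ?_⟩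
  exact s.liftNormal_commutes Ω x

theorem s3_restr {N : IntermediateField F Ω} (E : IntermediateField N Ω) [Normal N E] (g : Ω ≃ₐ[F] Ω)
    (hg : g ∈ N.fixingSubgroup) : ∃ s : Gal(E/N), ∀ x : E, ((s x : E) : Ω) = g (x : Ω) :=
  ⟨(AlgEquiv.ofRingEquiv (f := (g : Ω ≃+* Ω)) (fun x => hg x) : Ω ≃ₐ[N] Ω).restrictNormal E,
    fun x => (AlgEquiv.ofRingEquiv (f := (g : Ω ≃+* Ω)) (fun x => hg x) : Ω ≃ₐ[N] Ω).restrictNormal_commutes E x⟩

theorem sel_iff (W : WeierstrassCurve F) (p : ℕ) (K : IntermediateField F Ω) :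
    SelZero W p K ↔ SelA (acR W) p {O | ∃ L : IntermediateField F Ω, FiniteDimensional F L ∧
      O = L.fixingSubgroup} (fun V : ValuationSubring Ω => inS F V) K.fixingSubgroup := by
  constructor
  · intro h c h1 h2 h3 h4
    obtain ⟨O, ⟨L, hL, rfl⟩, hO⟩ := h2
    exact h c ⟨h1, L, hL, hO⟩ h3 h4
  · intro h c h1 h3 h4
    obtain ⟨L, hL, hO⟩ := h1.cont
    exact h c h1.mul ⟨L.fixingSubgroup, ⟨L, hL, rfl⟩, hO⟩ h3 h4

theorem s3_mem (K : IntermediateField F Ω) (s : Ω ≃ₐ[F] Ω) :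
    s ∈ K.fixingSubgroup ↔ ∀ x ∈ K, s x = x :=
  IntermediateField.mem_fixingSubgroup_iff K s

theorem sel_step (W : WeierstrassCurve F) (p : ℕ) (hp : p.Prime) (N K : IntermediateField F Ω)
    [FiniteDimensional F K] (hNK : N ≤ K) (hnorm : ∀ s ∈ N.fixingSubgroup, ∀ x ∈ K, s x ∈ K)
    (hdeg : Module.finrank F K = Module.finrank F N * p)
    (h0 : ∀ T : Pt W Ω, p • T = 0 → (∀ s ∈ K.fixingSubgroup, ac W s T = T) → T = 0)
    (hloc : ∀ V : ValuationSubring Ω, (∀ s ∈ N.fixingSubgroup, Inert V s → s ∈ K.fixingSubgroup) ∨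
      ((∀ s ∈ N.fixingSubgroup, Inert V s → ∀ P : Pt W Ω, p • (ac W s P - P) = 0 → ac W s P = P) ∧
        ∀ T : Pt W Ω, p • T = 0 → (∀ s ∈ N.fixingSubgroup, Dec V s → ac W s T = T) → T = 0))
    (hS : SelZero W p N) : SelZero W p K := by
  rw [sel_iff] at hS ⊢
  have hfin := s3_fin N K hNK
  have hgal := s3_galois N K hNK hnorm
  have hdN : Module.finrank F N ≠ 0 := by
    intro h
    rw [h, zero_mul] at hdeg
    exact (Module.finrank_pos (R := F) (M := K)).ne' hdeg
  have hfr : Module.finrank N (IntermediateField.extendScalars hNK) = p := by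
    have h1 := Module.finrank_mul_finrank F N (IntermediateField.extendScalars hNK)
    have h2 : Module.finrank F (IntermediateField.extendScalars hNK) = Module.finrank F K := rfl
    rw [h2, hdeg] at h1
    exact Nat.eq_of_mul_eq_mul_left (Nat.pos_of_ne_zero hdN) h1
  have hcard : Nat.card Gal((IntermediateField.extendScalars hNK)/N) = p := by
    rw [IsGalois.card_aut_eq_finrank, hfr]
  have : Fact p.Prime := ⟨hp⟩
  have hcyc : IsCyclic Gal((IntermediateField.extendScalars hNK)/N) := isCyclic_of_prime_card hcard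
  obtain ⟨τ, hτ⟩ := hcyc.exists_generator
  obtain ⟨σ, hσ, hστ⟩ := s3_lift (IntermediateField.extendScalars hNK) τ
  have hpow : ∀ (i : ℕ) (x : IntermediateField.extendScalars hNK),
      (σ ^ i) (x : Ω) = (((τ ^ i) x : IntermediateField.extendScalars hNK) : Ω) := by
    intro i
    induction i with
    | zero => intro x; rfl
    | succ n ih =>
      intro x
      rw [pow_succ', pow_succ', AlgEquiv.mul_apply, AlgEquiv.mul_apply, ih, hστ]
  refine abs_step (acR W) p hp _ (fun V : ValuationSubring Ω => inS F V)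
    (fun V : ValuationSubring Ω => decS F V) K.fixingSubgroup N.fixingSubgroup ?_ ?_ ?_ ?_ ?_ σ hσ
    ?_ ?_ ?_ ?_ ?_ ?_ hS
  · rintro _ ⟨L, hL, rfl⟩ _ ⟨L', hL', rfl⟩
    exact ⟨L ⊔ L', IntermediateField.finiteDimensional_sup L L',
      (IntermediateField.fixingSubgroup_sup).symm⟩
  · rintro _ ⟨L, hL, rfl⟩ g
    refine ⟨(L.map (g⁻¹ : Ω ≃ₐ[F] Ω).toAlgHom).fixingSubgroup, ⟨_, ?_, rfl⟩, ?_⟩
    · exact LinearEquiv.finiteDimensional
        (IntermediateField.equivMap L (g⁻¹ : Ω ≃ₐ[F] Ω).toAlgHom).toLinearEquiv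
    · intro s hs
      rw [s3_mem] at hs ⊢
      intro x hx
      have h1 : g (g⁻¹ x) = x := g.apply_symm_apply x
      have h2 : s (g⁻¹ x) = g⁻¹ x := hs _ ⟨x, hx, rfl⟩
      rw [AlgEquiv.mul_apply, AlgEquiv.mul_apply, h2, h1]
  · exact ⟨K, inferInstance, rfl⟩
  · exact IntermediateField.fixingSubgroup_le hNK
  · intro a ha b hb
    obtain ⟨sa, hsa⟩ := s3_restr (IntermediateField.extendScalars hNK) a ha
    obtain ⟨sb, hsb⟩ := s3_restr (IntermediateField.extendScalars hNK) b hb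
    have hcm : sa * sb = sb * sa := by
      obtain ⟨i, hi⟩ := Subgroup.mem_zpowers_iff.1 (hτ sa)
      obtain ⟨j, hj⟩ := Subgroup.mem_zpowers_iff.1 (hτ sb)
      rw [← hi, ← hj, ← zpow_add, ← zpow_add, add_comm]
    rw [s3_mem]
    intro x hx
    have hy : a⁻¹ (b⁻¹ x) ∈ K :=
      hnorm _ (inv_mem ha) _ (hnorm _ (inv_mem hb) _ hx)
    have h3 : a (b (a⁻¹ (b⁻¹ x))) = b (a (a⁻¹ (b⁻¹ x))) := by
      have h4 := hsb ⟨a⁻¹ (b⁻¹ x), hy⟩
      have h5 := hsa ⟨a⁻¹ (b⁻¹ x), hy⟩
      have h6 := hsa (sb ⟨a⁻¹ (b⁻¹ x), hy⟩)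
      have h7 := hsb (sa ⟨a⁻¹ (b⁻¹ x), hy⟩)
      have h8 : sa (sb ⟨a⁻¹ (b⁻¹ x), hy⟩) = sb (sa ⟨a⁻¹ (b⁻¹ x), hy⟩) := by
        rw [← AlgEquiv.mul_apply, hcm, AlgEquiv.mul_apply]
      rw [h8, h7, h4, h5] at h6
      exact h6.symm
    have h1 : a (a⁻¹ (b⁻¹ x)) = b⁻¹ x := a.apply_symm_apply _
    have h2 : b (b⁻¹ x) = x := b.apply_symm_apply _
    rw [AlgEquiv.mul_apply, AlgEquiv.mul_apply, AlgEquiv.mul_apply, h3, h1, h2]
  · intro h hh
    obtain ⟨sh, hsh⟩ := s3_restr (IntermediateField.extendScalars hNK) h hh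
    have h1 : sh ∈ Submonoid.powers τ := by
      have := hτ sh
      rwa [← mem_powers_iff_mem_zpowers] at this
    obtain ⟨i, hi⟩ := h1
    refine ⟨i, (σ ^ i)⁻¹ * h, ?_, by group⟩
    rw [s3_mem]
    intro x hx
    have h2 : h x = (σ ^ i) x := by
      have h3 := hsh ⟨x, hx⟩
      have h4 := hpow i ⟨x, hx⟩
      have hi' : τ ^ i = sh := hi
      rw [hi', h3] at h4
      exact h4.symm
    rw [AlgEquiv.mul_apply, h2]
    exact (σ ^ i).symm_apply_apply x
  · rw [s3_mem]
    intro x hx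
    have h4 := hpow p ⟨x, hx⟩
    have h5 : τ ^ p = 1 := by
      rw [← hcard]
      exact pow_card_eq_one'
    rw [h5] at h4
    exact h4
  · intro g _ v
    exact inS_conj v g
  · intro v φ hφ s hs
    exact inS_dec v φ hφ s hs
  · exact h0
  · exact hloc

end H55P
end

-- from Lib.H55K.NA2
section

/-! # H55K, part N: the step of the Selmer group over the fields, with a third local alternative -/

open NumberField IsDedekindDomain WeierstrassCurve

namespace H55K.NB

open H55P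

variable {F : Type} [Field F] [NumberField F] {Ω : Type} [Field Ω] [DecidableEq Ω] [Algebra F Ω]
  [IsAlgClosed Ω] [Algebra.IsAlgebraic F Ω] [CharZero Ω]

theorem sel_stepB (W : WeierstrassCurve F) (p : ℕ) (hp : p.Prime) (N K : IntermediateField F Ω)
    [FiniteDimensional F K] (hNK : N ≤ K) (hnorm : ∀ s ∈ N.fixingSubgroup, ∀ x ∈ K, s x ∈ K)
    (hdeg : Module.finrank F K = Module.finrank F N * p)
    (h0 : ∀ T : Pt W Ω, p • T = 0 → (∀ s ∈ K.fixingSubgroup, ac W s T = T) → T = 0)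
    (hloc : ∀ V : ValuationSubring Ω, (∀ s ∈ N.fixingSubgroup, Inert V s → s ∈ K.fixingSubgroup) ∨
      ((∀ s ∈ N.fixingSubgroup, Inert V s → ∀ P : Pt W Ω, p • (ac W s P - P) = 0 → ac W s P = P) ∧
        ∀ T : Pt W Ω, p • T = 0 → (∀ s ∈ N.fixingSubgroup, Dec V s → ac W s T = T) → T = 0) ∨
      (∀ c : (Ω ≃ₐ[F] Ω) → Pt W Ω, Coc W N c → (∀ s ∈ N.fixingSubgroup, p • c s = 0) →
        ∃ P : Pt W Ω, ∀ s ∈ N.fixingSubgroup, Inert V s → c s = ac W s P - P))
    (hS : SelZero W p N) : SelZero W p K := by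
  rw [sel_iff] at hS ⊢
  have hfin := s3_fin N K hNK
  have hgal := s3_galois N K hNK hnorm
  have hdN : Module.finrank F N ≠ 0 := by
    intro h
    rw [h, zero_mul] at hdeg
    exact (Module.finrank_pos (R := F) (M := K)).ne' hdeg
  have hfr : Module.finrank N (IntermediateField.extendScalars hNK) = p := by
    have h1 := Module.finrank_mul_finrank F N (IntermediateField.extendScalars hNK)
    have h2 : Module.finrank F (IntermediateField.extendScalars hNK) = Module.finrank F K := rfl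
    rw [h2, hdeg] at h1
    exact Nat.eq_of_mul_eq_mul_left (Nat.pos_of_ne_zero hdN) h1
  have hcard : Nat.card Gal((IntermediateField.extendScalars hNK)/N) = p := by
    rw [IsGalois.card_aut_eq_finrank, hfr]
  have : Fact p.Prime := ⟨hp⟩
  have hcyc : IsCyclic Gal((IntermediateField.extendScalars hNK)/N) := isCyclic_of_prime_card hcard
  obtain ⟨τ, hτ⟩ := hcyc.exists_generator
  obtain ⟨σ, hσ, hστ⟩ := s3_lift (IntermediateField.extendScalars hNK) τ
  have hpow : ∀ (i : ℕ) (x : IntermediateField.extendScalars hNK),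
      (σ ^ i) (x : Ω) = (((τ ^ i) x : IntermediateField.extendScalars hNK) : Ω) := by
    intro i
    induction i with
    | zero => intro x; rfl
    | succ n ih =>
      intro x
      rw [pow_succ', pow_succ', AlgEquiv.mul_apply, AlgEquiv.mul_apply, ih, hστ]
  refine abs_stepB (acR W) p hp _ (fun V : ValuationSubring Ω => inS F V)
    (fun V : ValuationSubring Ω => decS F V) K.fixingSubgroup N.fixingSubgroup ?_ ?_ ?_ ?_ ?_ σ hσ
    ?_ ?_ ?_ ?_ ?_ ?_ hS
  · rintro _ ⟨L, hL, rfl⟩ _ ⟨L', hL', rfl⟩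
    exact ⟨L ⊔ L', IntermediateField.finiteDimensional_sup L L',
      (IntermediateField.fixingSubgroup_sup).symm⟩
  · rintro _ ⟨L, hL, rfl⟩ g
    refine ⟨(L.map (g⁻¹ : Ω ≃ₐ[F] Ω).toAlgHom).fixingSubgroup, ⟨_, ?_, rfl⟩, ?_⟩
    · exact LinearEquiv.finiteDimensional
        (IntermediateField.equivMap L (g⁻¹ : Ω ≃ₐ[F] Ω).toAlgHom).toLinearEquiv
    · intro s hs
      rw [s3_mem] at hs ⊢
      intro x hx
      have h1 : g (g⁻¹ x) = x := g.apply_symm_apply x
      have h2 : s (g⁻¹ x) = g⁻¹ x := hs _ ⟨x, hx, rfl⟩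
      rw [AlgEquiv.mul_apply, AlgEquiv.mul_apply, h2, h1]
  · exact ⟨K, inferInstance, rfl⟩
  · exact IntermediateField.fixingSubgroup_le hNK
  · intro a ha b hb
    obtain ⟨sa, hsa⟩ := s3_restr (IntermediateField.extendScalars hNK) a ha
    obtain ⟨sb, hsb⟩ := s3_restr (IntermediateField.extendScalars hNK) b hb
    have hcm : sa * sb = sb * sa := by
      obtain ⟨i, hi⟩ := Subgroup.mem_zpowers_iff.1 (hτ sa)
      obtain ⟨j, hj⟩ := Subgroup.mem_zpowers_iff.1 (hτ sb)
      rw [← hi, ← hj, ← zpow_add, ← zpow_add, add_comm]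
    rw [s3_mem]
    intro x hx
    have hy : a⁻¹ (b⁻¹ x) ∈ K :=
      hnorm _ (inv_mem ha) _ (hnorm _ (inv_mem hb) _ hx)
    have h3 : a (b (a⁻¹ (b⁻¹ x))) = b (a (a⁻¹ (b⁻¹ x))) := by
      have h4 := hsb ⟨a⁻¹ (b⁻¹ x), hy⟩
      have h5 := hsa ⟨a⁻¹ (b⁻¹ x), hy⟩
      have h6 := hsa (sb ⟨a⁻¹ (b⁻¹ x), hy⟩)
      have h7 := hsb (sa ⟨a⁻¹ (b⁻¹ x), hy⟩)
      have h8 : sa (sb ⟨a⁻¹ (b⁻¹ x), hy⟩) = sb (sa ⟨a⁻¹ (b⁻¹ x), hy⟩) := by
        rw [← AlgEquiv.mul_apply, hcm, AlgEquiv.mul_apply]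
      rw [h8, h7, h4, h5] at h6
      exact h6.symm
    have h1 : a (a⁻¹ (b⁻¹ x)) = b⁻¹ x := a.apply_symm_apply _
    have h2 : b (b⁻¹ x) = x := b.apply_symm_apply _
    rw [AlgEquiv.mul_apply, AlgEquiv.mul_apply, AlgEquiv.mul_apply, h3, h1, h2]
  · intro h hh
    obtain ⟨sh, hsh⟩ := s3_restr (IntermediateField.extendScalars hNK) h hh
    have h1 : sh ∈ Submonoid.powers τ := by
      have := hτ sh
      rwa [← mem_powers_iff_mem_zpowers] at this
    obtain ⟨i, hi⟩ := h1
    refine ⟨i, (σ ^ i)⁻¹ * h, ?_, by group⟩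
    rw [s3_mem]
    intro x hx
    have h2 : h x = (σ ^ i) x := by
      have h3 := hsh ⟨x, hx⟩
      have h4 := hpow i ⟨x, hx⟩
      have hi' : τ ^ i = sh := hi
      rw [hi', h3] at h4
      exact h4.symm
    rw [AlgEquiv.mul_apply, h2]
    exact (σ ^ i).symm_apply_apply x
  · rw [s3_mem]
    intro x hx
    have h4 := hpow p ⟨x, hx⟩
    have h5 : τ ^ p = 1 := by
      rw [← hcard]
      exact pow_card_eq_one'
    rw [h5] at h4
    exact h4
  · intro g _ v
    exact inS_conj v g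
  · intro v φ hφ s hs
    exact inS_dec v φ hφ s hs
  · exact h0
  · intro V
    rcases hloc V with h | h | h
    · exact Or.inl h
    · exact Or.inr (Or.inl h)
    · refine Or.inr (Or.inr ?_)
      rintro c' h1 h2 ⟨_, ⟨L, hL, rfl⟩, h3⟩
      exact h c' ⟨h1, L, hL, h3⟩ h2

end H55K.NB
end
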