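import Mathlib
import Pool.Agent.Lib.H1M.PP.D_H55C_Defs
import Pool.Agent.Lib.H1M.PP.M009
import Pool.Agent.Lib.H1M.PP.M011
import Pool.Agent.Lib.H1M.PP.M013
import Pool.Agent.Lib.H1M.PP.M019

/-! Merged copies (to shorten the build) of Lib.H55C.W10, Lib.H55C.W11, Lib.H55D.T1, Lib.H55K.A.T2, Lib.H55R.X4, Lib.H55K.A.Defs, Lib.H55K.A.A2, Lib.H55K.A.A5, Lib.H55K.A.B2, Lib.H55K.A.A4, Lib.H55K.A.B1, Lib.H55K.A.B4, Lib.H55N.B4, Lib.H55N.C4, Lib.H55N.I0, Lib.H55N.C5, Lib.H55N.C6, Lib.H55N.C7, Lib.H55N.C0, Lib.H55N.C2, Lib.H55N.C1, Lib.H55N.C3. -/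

-- from Lib.H55C.W10
section

open NumberField IsDedekindDomain

namespace H55C

open H55B

theorem W10_coeffs (k : Type*) [Field k] [Algebra ℚ k] :
    (E27.baseChange k).toAffine.a₁ = 0 ∧ (E27.baseChange k).toAffine.a₂ = 0 ∧
    (E27.baseChange k).toAffine.a₃ = 1 ∧ (E27.baseChange k).toAffine.a₄ = 0 ∧
    (E27.baseChange k).toAffine.a₆ = 0 := by
  refine ⟨?_, ?_, ?_, ?_, ?_⟩ <;>
  simp [E27, WeierstrassCurve.baseChange, WeierstrassCurve.toAffine, WeierstrassCurve.map]

theorem W10_eqn (k : Type*) [Field k] [Algebra ℚ k] (x y : k)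
    (h : (E27.baseChange k).toAffine.Nonsingular x y) : y ^ 2 + y = x ^ 3 := by
  obtain ⟨h1, h2, h3, h4, h6⟩ := W10_coeffs k
  rw [WeierstrassCurve.Affine.nonsingular_iff', WeierstrassCurve.Affine.equation_iff,
    h1, h2, h3, h4, h6] at h
  linear_combination h.1

theorem W10_gen {k : Type*} [Field k] {Γ : Type*} [LinearOrderedCommGroupWithZero Γ] (v : Valuation k Γ)
    (x y : k) (h3 : v 3 = 1) (hE : y ^ 2 + y = x ^ 3) : 1 ≤ v (3 * x ^ 2) ∨ 1 ≤ v (2 * y + 1) := by
  by_contra hno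
  push Not at hno
  obtain ⟨h1, h2⟩ := hno
  rw [map_mul, h3, one_mul, map_pow] at h1
  have hx : v x < 1 := by
    by_contra hc
    exact absurd h1 (not_lt.mpr (one_le_pow₀ (not_lt.mp hc)))
  have h4 : (1 : k) = (2 * y + 1) ^ 2 - 4 * x ^ 3 := by
    linear_combination -4 * hE
  have hv4 : v (4 : k) ≤ 1 := by
    have h0 := v.map_add_le (x := (1 : k)) (y := 1) (g := 1) (by rw [map_one]) (by rw [map_one])
    have h2' : v (2 : k) ≤ 1 := by
      rw [one_add_one_eq_two] at h0
      exact h0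
    have e : (4 : k) = 2 * 2 := by norm_num
    rw [e, map_mul]
    exact mul_le_one' h2' h2'
  have h5 : v (1 : k) < 1 := by
    conv_lhs => rw [h4]
    refine lt_of_le_of_lt (Valuation.map_sub _ _ _) (max_lt ?_ ?_)
    · rw [map_pow]
      exact pow_lt_one₀ zero_le h2 (by norm_num)
    · rw [map_mul, map_pow]
      exact lt_of_le_of_lt (mul_le_of_le_one_left' hv4) (pow_lt_one₀ zero_le hx (by norm_num))
  rw [map_one] at h5
  exact lt_irrefl _ h5

theorem W10_v3 (K : Type) [Field K] [NumberField K] (w : HeightOneSpectrum (𝓞 K))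
    (h : (3 : 𝓞 K) ∉ w.asIdeal) : Valued.v (3 : w.adicCompletion K) = 1 := by
  have h1 := HeightOneSpectrum.valuedAdicCompletion_eq_valuation' w (3 : K)
  have h2 : ((3 : K) : w.adicCompletion K) = 3 := map_ofNat (algebraMap K (w.adicCompletion K)) 3
  rw [h2] at h1
  rw [h1]
  have h3 : (3 : K) = algebraMap (𝓞 K) K (3 : 𝓞 K) := (map_ofNat (algebraMap (𝓞 K) K) 3).symm
  rw [h3]
  refine le_antisymm (w.valuation_le_one 3) ?_
  by_contra h4
  exact h ((w.valuation_lt_one_iff_mem (K := K) (3 : 𝓞 K)).mp (not_le.mp h4))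

theorem W10_E0 (K : Type) [Field K] [NumberField K] [Algebra F K] (w : HeightOneSpectrum (𝓞 K))
    (h : (3 : 𝓞 K) ∉ w.asIdeal) : E0 K w = Set.univ := by
  rw [Set.eq_univ_iff_forall]
  intro P
  rcases P with _ | ⟨x, y, hP⟩
  · left
    rfl
  · right
    exact ⟨x, y, hP, rfl, W10_gen _ x y (W10_v3 K w h) (W10_eqn (w.adicCompletion K) x y hP)⟩

/-! Chunk W10: the Tamagawa number is 1 at primes not above 3.
v = Valued.v on the completion, v(3) = 1 (valuation_compl in H55B/F3, 3 not in w). E0 is everything: for a point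
(x, y), (2y+1)^2 - 4x^3 = 1 (nonsing_iff or equation_iff), so if v(3x^2) < 1 and v(2y+1) < 1 then v(x) < 1 and
1 = v((2y+1)^2 - 4x^3) < 1 (v(4) <= 1), contradiction. So the closure is the whole group, of index 1. -/
theorem tam_one (K : Type) [Field K] [NumberField K] [Algebra F K] (w : HeightOneSpectrum (𝓞 K))
    (h : (3 : 𝓞 K) ∉ w.asIdeal) : tam K w = 1 := by
  classical
  unfold tam
  rw [W10_E0 K w h, AddSubgroup.closure_univ, AddSubgroup.index_top]

end H55C
end

-- from Lib.H55C.W11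
section

open NumberField IsDedekindDomain

namespace H55C

open H55B

/-- The points of nonsingular reduction, for a valuation on a field. -/
def W11_S {k : Type*} [Field k] [Algebra ℚ k] (v : Valuation k (WithZero (Multiplicative ℤ))) :
    Set (E27.baseChange k).toAffine.Point :=
  {P | P = 0 ∨ ∃ (x y : k) (h : (E27.baseChange k).toAffine.Nonsingular x y),
    P = WeierstrassCurve.Affine.Point.some x y h ∧ (1 ≤ v (3 * x ^ 2) ∨ 1 ≤ v (2 * y + 1))}

open WeierstrassCurve in
theorem W11_add {k : Type*} [Field k] [CharZero k] [DecidableEq k]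
    (v : Valuation k (WithZero (Multiplicative ℤ))) (w u x y : k) (hw : w ^ 2 + w + 1 = 0)
    (hu : u ^ 2 + u + 1 = 0)
    (h3 : v 3 = WithZero.exp (-2 : ℤ)) (h : (E27.baseChange k).toAffine.Nonsingular x y)
    (hT : (E27.baseChange k).toAffine.Nonsingular (-1) u) (hx : v (x + 1) < 1)
    (hy : v (y - u) = WithZero.exp (-1 : ℤ)) :
    (Affine.Point.some x y h : (E27.baseChange k).toAffine.Point) + Affine.Point.some (-1) u hT ∈ W11_S v := by
  obtain ⟨h1, h2, h3', h4, h6⟩ := K2_coeffs k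
  have hE := (nonsing_iff k x y).mp h
  by_cases hx0 : x = -1
  · left
    refine Affine.Point.add_of_Y_eq hx0 ?_
    have hne : y - u ≠ 0 := by
      intro h0
      rw [h0, map_zero] at hy
      exact WithZero.exp_ne_zero hy.symm
    have hp : (y - u) * (y + u + 1) = 0 := by
      rw [hx0] at hE
      linear_combination hE - hu
    rcases mul_eq_zero.mp hp with h0 | h0
    · exact absurd h0 hne
    · rw [Affine.negY, h1, h3']
      linear_combination h0
  · right
    have hne : x + 1 ≠ 0 := fun h0 => hx0 (by linear_combination h0)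
    have hsl : (E27.baseChange k).toAffine.slope x (-1) y u = (y - u) / (x + 1) := by
      rw [Affine.slope_of_X_ne hx0, sub_neg_eq_add]
    have hX : (E27.baseChange k).toAffine.addX x (-1) ((E27.baseChange k).toAffine.slope x (-1) y u) =
        ((y - u) / (x + 1)) ^ 2 - x + 1 := by
      rw [hsl, Affine.addX, h1, h2]
      ring
    have hns := Affine.nonsingular_add h hT fun hxy => hx0 hxy.left
    refine ⟨_, _, hns, Affine.Point.add_of_X_ne hx0, ?_⟩
    by_contra hno
    push Not at hno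
    have hE' := (nonsing_iff k _ _).mp hns
    have hc := (cusp v w _ _ hw h3 hE' hno.2).1
    rw [hX] at hc
    exact absurd hc (not_lt.mpr (cusp_slope v u x y h3 hx hne hy))

open WeierstrassCurve in
theorem W11_gen {k : Type*} [Field k] [CharZero k] [DecidableEq k]
    (v : Valuation k (WithZero (Multiplicative ℤ))) (w : k) (hw : w ^ 2 + w + 1 = 0)
    (h3 : v 3 = WithZero.exp (-2 : ℤ)) :
    ∃ T : (E27.baseChange k).toAffine.Point, 3 • T = 0 ∧
      ∀ P, P ∈ W11_S v ∨ P - T ∈ W11_S v ∨ P + T ∈ W11_S v := by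
  obtain ⟨h1, h2, h3', h4, h6⟩ := K2_coeffs k
  have hT : (E27.baseChange k).toAffine.Nonsingular (-1) w := by
    rw [nonsing_iff]
    linear_combination hw
  have hT' : (E27.baseChange k).toAffine.Nonsingular (-1) (w ^ 2) := by
    rw [nonsing_iff]
    linear_combination (w ^ 2 - w + 1) * hw
  have hw2 : (w ^ 2) ^ 2 + w ^ 2 + 1 = 0 := by
    linear_combination (w ^ 2 - w + 1) * hw
  have hneg : -(Affine.Point.some (-1) w hT : (E27.baseChange k).toAffine.Point) =
      Affine.Point.some (-1) (w ^ 2) hT' := by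
    rw [Affine.Point.neg_some]
    have e : (E27.baseChange k).toAffine.negY (-1) w = w ^ 2 := by
      rw [Affine.negY, h1, h3']
      linear_combination -hw
    simp only [e]
  have h20 : (2 : k) * w + 1 ≠ 0 := by
    intro h0
    have : (3 : k) = 0 := by linear_combination 4 * hw - (2 * w + 1) * h0
    norm_num at this
  obtain ⟨h'', hd⟩ := dbl_point k (-1) w (-1) (w ^ 2) hT h20 (by ring) (by linear_combination 2 * (2 * w + 1) * hw)
  refine ⟨Affine.Point.some (-1) w hT, ?_, ?_⟩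
  · rw [show (3 : ℕ) = 2 + 1 from rfl, add_nsmul, one_nsmul, hd, ← hneg, neg_add_cancel]
  · intro P
    rcases P with _ | ⟨x, y, hP⟩
    · left; left; rfl
    · by_cases hS : (Affine.Point.some x y hP : (E27.baseChange k).toAffine.Point) ∈ W11_S v
      · left; exact hS
      · right
        have hno : v (3 * x ^ 2) < 1 ∧ v (2 * y + 1) < 1 := by
          by_contra hc
          apply hS
          right
          refine ⟨x, y, hP, rfl, ?_⟩
          by_contra h0
          push Not at h0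
          exact hc h0
        have hE := (nonsing_iff k x y).mp hP
        obtain ⟨hx, ⟨-, hy⟩ | ⟨-, hy⟩⟩ := cusp v w x y hw h3 hE hno.2
        · left
          rw [sub_eq_add_neg, hneg]
          exact W11_add v w (w ^ 2) x y hw hw2 h3 hP hT' hx hy
        · right
          exact W11_add v w w x y hw hw h3 hP hT hx hy

theorem W11_gen' {k : Type*} [Field k] [inst : Algebra ℚ k] [DecidableEq k]
    (v : Valuation k (WithZero (Multiplicative ℤ))) (w : k) (hw : w ^ 2 + w + 1 = 0)
    (h3 : v 3 = WithZero.exp (-2 : ℤ)) :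
    ∃ T : (E27.baseChange k).toAffine.Point, 3 • T = 0 ∧
      ∀ P, P ∈ W11_S v ∨ P - T ∈ W11_S v ∨ P + T ∈ W11_S v := by
  have hc : CharZero k := charZero_of_injective_algebraMap (algebraMap ℚ k).injective
  obtain rfl : inst = DivisionRing.toRatAlgebra := Subsingleton.elim _ _
  exact W11_gen v w hw h3

theorem W11_om : (om : O) ^ 2 + om + 1 = 0 := by
  have h := zeta_spec.toInteger_isPrimitiveRoot
  have h2 := h.geom_sum_eq_zero (by norm_num)
  have : (om : O) = zeta_spec.toInteger := rfl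
  rw [this]
  simp only [Finset.sum_range_succ, Finset.sum_range_zero, pow_zero, pow_one, zero_add] at h2
  linear_combination h2

/-! Chunk W11: the points with singular reduction form two cosets.
w1 = image of om in the completion. By cusp a point P = (x, y) outside E0 satisfies v(2y+1) < 1, hence v(x+1) < 1 and one
of the two alternatives. Say v(y - w1) <= exp(-2), v(y - w1^2) = exp(-1). Let T = (-1, w1); -T = (-1, w1^2)
(negY: -y - 1 = -w1 - 1 = w1^2). If x = -1 then (y - w1)(y - w1^2) = x^3 + 1 = 0, so y = w1 and P = T, P - T = 0 in E0.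
If x is not -1 then P + (-T) has x-coordinate s^2 - x + 1 with s = (y - w1^2)/(x + 1) (Affine.slope_of_X_ne, addX,
coefficients K2_coeffs), and cusp_slope gives v(X + 1) >= 1, so P - T is in E0 by cusp (contrapositive).
The other alternative: P + T in E0. -/
theorem cosets (K : Type) [Field K] [NumberField K] [Algebra F K] (w : HeightOneSpectrum (𝓞 K))
    [DecidableEq (w.adicCompletion K)] (h : w.valuation K (3 : K) = WithZero.exp (-2 : ℤ)) :
    ∃ T : (E27.baseChange (w.adicCompletion K)).toAffine.Point, 3 • T = 0 ∧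
      ∀ P, P ∈ E0 K w ∨ P - T ∈ E0 K w ∨ P + T ∈ E0 K w := by
  have h3 : Valued.v (3 : w.adicCompletion K) = WithZero.exp (-2 : ℤ) := by
    have h1 := HeightOneSpectrum.valuedAdicCompletion_eq_valuation' w (3 : K)
    have h2 : ((3 : K) : w.adicCompletion K) = 3 := map_ofNat (algebraMap K (w.adicCompletion K)) 3
    rw [h2] at h1
    rw [h1, h]
  have hom : ((algebraMap K (w.adicCompletion K)) ((algebraMap F K) ((algebraMap O F) om))) ^ 2 +
      (algebraMap K (w.adicCompletion K)) ((algebraMap F K) ((algebraMap O F) om)) + 1 = 0 := by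
    rw [← map_pow, ← map_pow, ← map_pow, ← map_add, ← map_add, ← map_add]
    have e1 : (1 : w.adicCompletion K) =
        (algebraMap K (w.adicCompletion K)) ((algebraMap F K) ((algebraMap O F) 1)) := by
      rw [map_one, map_one, map_one]
    rw [e1, ← map_add, ← map_add, ← map_add, W11_om, map_zero, map_zero, map_zero]
  exact W11_gen' (Valued.v (R := w.adicCompletion K)) _ hom h3

end H55C
end

-- from Lib.H55D.T1
section

open NumberField IsDedekindDomain

namespace H55D

open H55B H55C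

/-! Chunk T1 (M): COPY/ADAPT of H13E/T1 + T2 for E27: the set W11_S v (points with nonsingular reduction) is a subgroup when v(3) < 1, and the index for a subfield divides the index for the field.
v(3) < 1 gives v(2) = 1. Membership: for a point (x, y), y^2 + y = x^3: v(3x^2) >= 1 or v(2y+1) >= 1 iff v(x+1) >= 1 ((2y+1)^2 = 4x^3 + 1 = 4(x+1)^3 - 12(x+1)^2 + 12(x+1) - 3; if v(x+1) < 1 then v(2y+1) < 1 and v(x) = 1, v(3x^2) < 1; if
v(x+1) = m >= 1 then v(4x^3 + 1) = m^3 >= 1). Closed under addition: three points (x_i, y_i) on a line Y = l X + c, t_i = x_i + 1, satisfy, with s1, s2, s3 the elementary symmetric functions of the t_i and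
Y = 2y + 1: l^2 = 4(s1 - 3), c'^2 = 4 s3 - 3, l c' = 6 - 2 s2, hence (3 - s2)^2 = (s1 - 3)(4 s3 - 3). If v(t1), v(t2) >= 1 > v(t3), m = max(v t1, v t2): v(s2) = v(t1 t2) > v(3), so the left side has valuation v(t1 t2)^2,
v(s1 - 3) <= m <= v(t1 t2) and v(4 s3 - 3) < v(t1 t2): contradiction. (The sum of P1 and P2 is the negative of the third point, same x.) Negation: x is unchanged. -/

theorem DT1_big {k : Type} [Field k] (v : Valuation k (WithZero (Multiplicative ℤ))) (t1 t2 t3 : k)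
    (h3 : v 3 < 1) (h2 : v 2 = 1) (h1' : 1 ≤ v t1) (h2' : 1 ≤ v t2)
    (h : (t1 * t2 + t3 * (t1 + t2) - 3) ^ 2 = (t1 + t2 + t3 - 3) * (4 * (t1 * t2) * t3 - 3)) :
    1 ≤ v t3 := by
  by_contra hlt
  rw [not_le] at hlt
  obtain ⟨p, hpd⟩ : ∃ p, p = t1 * t2 := ⟨_, rfl⟩
  obtain ⟨s, hsd⟩ : ∃ s, s = t1 + t2 := ⟨_, rfl⟩
  obtain ⟨m, hmd⟩ : ∃ m, m = max (v t1) (v t2) := ⟨_, rfl⟩
  rw [← hpd, ← hsd] at h
  have hp : v p = v t1 * v t2 := by rw [hpd, map_mul]
  have hm1 : 1 ≤ m := by rw [hmd]; exact le_max_of_le_left h1'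
  have hmp : m ≤ v p := by
    rw [hmd, hp]
    apply max_le
    · exact le_mul_of_one_le_right' h2'
    · exact le_mul_of_one_le_left' h1'
  have hs : v s ≤ m := by rw [hmd, hsd]; exact v.map_add t1 t2
  have hm0 : 0 < m := lt_of_lt_of_le zero_lt_one hm1
  have hp0 : 0 < v p := lt_of_lt_of_le hm0 hmp
  have hts : v (t3 * s) < m := by
    rw [map_mul]
    calc v t3 * v s ≤ v t3 * m := mul_le_mul_right hs _
      _ < 1 * m := by
          exact mul_lt_mul_of_pos_right hlt hm0
      _ = m := one_mul m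
  have h4 : v (t3 * s - 3) < v p := by
    refine lt_of_le_of_lt (v.map_sub _ _) (max_lt (hts.trans_le hmp) ?_)
    exact h3.trans_le (hm1.trans hmp)
  have h5 : v (p + t3 * s - 3) = v p := by
    have e : p + t3 * s - 3 = p + (t3 * s - 3) := by ring
    rw [e]
    exact Valuation.map_add_eq_of_lt_left v h4
  have h6 := congrArg v h
  rw [map_pow, h5, map_mul] at h6
  have h7 : v 4 = 1 := by
    have e : (4 : k) = 2 * 2 := by norm_num
    rw [e, map_mul, h2, one_mul]
  have h8 : v (s + t3 - 3) ≤ m := by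
    refine (v.map_sub _ _).trans (max_le ((v.map_add _ _).trans (max_le hs ?_)) ?_)
    · exact hlt.le.trans hm1
    · exact h3.le.trans hm1
  have h9 : v (4 * p * t3 - 3) < v p := by
    refine lt_of_le_of_lt (v.map_sub _ _) (max_lt ?_ (h3.trans_le (hm1.trans hmp)))
    rw [map_mul, map_mul, h7, one_mul]
    calc v p * v t3 < v p * 1 := mul_lt_mul_of_pos_left hlt hp0
      _ = v p := mul_one _
  have h10 : v (s + t3 - 3) * v (4 * p * t3 - 3) < v p ^ 2 := by
    calc v (s + t3 - 3) * v (4 * p * t3 - 3) ≤ m * v (4 * p * t3 - 3) := mul_le_mul_left h8 _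
      _ < m * v p := mul_lt_mul_of_pos_left h9 hm0
      _ ≤ v p * v p := mul_le_mul_left hmp _
      _ = v p ^ 2 := (sq _).symm
  rw [← h6] at h10
  exact lt_irrefl _ h10

theorem DT1_two {k : Type} [Field k] (v : Valuation k (WithZero (Multiplicative ℤ))) (h3 : v 3 < 1) :
    v 2 = 1 := by
  have h1 : v 2 ≤ 1 := by
    have e : (2 : k) = 1 + 1 := by norm_num
    rw [e]
    refine (v.map_add _ _).trans ?_
    rw [map_one, max_self]
  refine le_antisymm h1 ?_
  by_contra h
  rw [not_le] at h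
  have e : (1 : k) = 3 - 2 := by norm_num
  have h4 : v 1 < 1 := by
    rw [e]
    exact lt_of_le_of_lt (v.map_sub _ _) (max_lt h3 h)
  rw [map_one] at h4
  exact lt_irrefl _ h4

theorem DT1_mem {k : Type} [Field k] (v : Valuation k (WithZero (Multiplicative ℤ))) (h3 : v 3 < 1)
    (x y : k) (h : y ^ 2 + y = x ^ 3) :
    (1 ≤ v (3 * x ^ 2) ∨ 1 ≤ v (2 * y + 1)) ↔ 1 ≤ v (x + 1) := by
  have h2 := DT1_two v h3
  have h4 : v 4 = 1 := by
    have e : (4 : k) = 2 * 2 := by norm_num
    rw [e, map_mul, h2, one_mul]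
  have hy : (2 * y + 1) ^ 2 = 4 * (x + 1) ^ 3 + 3 * (-(4 * (x + 1) ^ 2) + (4 * (x + 1) + (-1))) := by
    linear_combination 4 * h
  constructor
  · intro h0
    by_contra hlt
    rw [not_le] at hlt
    have hx : v x = 1 := by
      have e : x = -1 + (x + 1) := by ring
      rw [e, Valuation.map_add_eq_of_lt_left v (by rw [Valuation.map_neg, map_one]; exact hlt),
        Valuation.map_neg, map_one]
    rcases h0 with h0 | h0
    · rw [map_mul, map_pow, hx, one_pow, mul_one] at h0
      exact absurd h3 (not_lt.2 h0)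
    · have h5 : 1 ≤ v (2 * y + 1) ^ 2 := one_le_pow₀ h0
      rw [← map_pow, hy] at h5
      refine absurd h5 (not_le.2 ?_)
      refine lt_of_le_of_lt (v.map_add _ _) (max_lt ?_ ?_)
      · rw [map_mul, h4, one_mul, map_pow]
        exact pow_lt_one₀ zero_le hlt three_ne_zero
      · rw [map_mul]
        refine lt_of_le_of_lt (mul_le_of_le_one_right' ?_) h3
        refine (v.map_add _ _).trans (max_le ?_ ((v.map_add _ _).trans (max_le ?_ ?_)))
        · rw [Valuation.map_neg, map_mul, h4, one_mul, map_pow]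
          exact pow_le_one₀ zero_le hlt.le
        · rw [map_mul, h4, one_mul]
          exact hlt.le
        · rw [Valuation.map_neg, map_one]
  · intro h0
    right
    have h0' : 0 < v (x + 1) := lt_of_lt_of_le zero_lt_one h0
    have hcu : 1 ≤ v (x + 1) ^ 3 := one_le_pow₀ h0
    have hsq : v (x + 1) ^ 2 ≤ v (x + 1) ^ 3 := pow_le_pow_right₀ h0 (by norm_num)
    have hli : v (x + 1) ≤ v (x + 1) ^ 3 := le_self_pow₀ h0 (by norm_num)
    have h5 : v (3 * (-(4 * (x + 1) ^ 2) + (4 * (x + 1) + (-1)))) < v (4 * (x + 1) ^ 3) := by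
      rw [map_mul, map_mul, h4, one_mul, map_pow]
      have h6 : v (-(4 * (x + 1) ^ 2) + (4 * (x + 1) + (-1))) ≤ v (x + 1) ^ 3 := by
        refine (v.map_add _ _).trans (max_le ?_ ((v.map_add _ _).trans (max_le ?_ ?_)))
        · rw [Valuation.map_neg, map_mul, h4, one_mul, map_pow]
          exact hsq
        · rw [map_mul, h4, one_mul]
          exact hli
        · rw [Valuation.map_neg, map_one]
          exact hcu
      calc v 3 * v (-(4 * (x + 1) ^ 2) + (4 * (x + 1) + (-1))) ≤ v 3 * v (x + 1) ^ 3 :=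
            mul_le_mul_right h6 _
        _ < 1 * v (x + 1) ^ 3 := mul_lt_mul_of_pos_right h3 (lt_of_lt_of_le zero_lt_one hcu)
        _ = v (x + 1) ^ 3 := one_mul _
    have h6 : v (2 * y + 1) ^ 2 = v (x + 1) ^ 3 := by
      rw [← map_pow, hy, Valuation.map_add_eq_of_lt_left v h5, map_mul, h4, one_mul, map_pow]
    have h7 : 1 ≤ v (2 * y + 1) ^ 2 := by
      rw [h6]
      exact hcu
    by_contra hlt
    rw [not_le] at hlt
    exact absurd (pow_lt_one₀ zero_le hlt two_ne_zero) (not_lt.2 h7)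

theorem DT1_rel {k : Type} [Field k] [CharZero k] (x1 y1 x2 y2 l : k) (h1 : y1 ^ 2 + y1 = x1 ^ 3)
    (h2 : y2 ^ 2 + y2 = x2 ^ 3)
    (hl : (x1 ≠ x2 ∧ l * (x1 - x2) = y1 - y2) ∨ (x1 = x2 ∧ l * (2 * y1 + 1) = 3 * x1 ^ 2)) :
    ((x1 + 1) * (x2 + 1) + (l ^ 2 - x1 - x2 + 1) * ((x1 + 1) + (x2 + 1)) - 3) ^ 2 =
      ((x1 + 1) + (x2 + 1) + (l ^ 2 - x1 - x2 + 1) - 3) *
        (4 * ((x1 + 1) * (x2 + 1)) * (l ^ 2 - x1 - x2 + 1) - 3) := by
  obtain ⟨c, hc⟩ : ∃ c, c = 2 * (y1 - l * x1 - l) + 1 := ⟨_, rfl⟩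
  obtain ⟨α, hα⟩ : ∃ α, α = 3 - l * c -
    ((x1 + 1) * (x2 + 1) + (l ^ 2 - x1 - x2 + 1) * ((x1 + 1) + (x2 + 1))) := ⟨_, rfl⟩
  obtain ⟨β, hβ⟩ : ∃ β, β = 4 * ((x1 + 1) * (x2 + 1)) * (l ^ 2 - x1 - x2 + 1) - 3 - c ^ 2 :=
    ⟨_, rfl⟩
  have e1 : 4 * α * (x1 + 1) + β = 0 := by
    rw [hα, hβ, hc]
    linear_combination (-4) * h1
  have hα0 : α = 0 := by
    rcases hl with ⟨hne, hl⟩ | ⟨hx, hl⟩
    · have e2 : 4 * α * (x2 + 1) + β = 0 := by
        rw [hα, hβ, hc]
        linear_combination (-4) * h2 + 4 * (y1 - l * (x1 - x2) + y2 + 1) * hl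
      have e3 : α * (x1 - x2) = 0 := by
        have e4 : (4 : k) * (α * (x1 - x2)) = 0 := by linear_combination e1 - e2
        exact (mul_eq_zero.1 e4).resolve_left (by norm_num)
      exact (mul_eq_zero.1 e3).resolve_right (sub_ne_zero.2 hne)
    · subst hx
      rw [hα, hc]
      linear_combination -hl
  rw [hα0, mul_zero, zero_mul, zero_add] at e1
  have e4 : (x1 + 1) * (x2 + 1) + (l ^ 2 - x1 - x2 + 1) * ((x1 + 1) + (x2 + 1)) - 3 =
      -(l * c) := by
    linear_combination hα - hα0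
  rw [e4]
  linear_combination l ^ 2 * (hβ - e1)

open WeierstrassCurve in
theorem DT1_add {k : Type} [Field k] [CharZero k] [DecidableEq k]
    (v : Valuation k (WithZero (Multiplicative ℤ))) (h3 : v 3 < 1)
    {P Q : (E27.baseChange k).toAffine.Point} (hP : P ∈ W11_S v) (hQ : Q ∈ W11_S v) :
    P + Q ∈ W11_S v := by
  obtain ⟨a1, a2, a3, a4, a6⟩ := K2_coeffs k
  rcases hP with rfl | ⟨x1, y1, h1, rfl, hv1⟩
  · rw [zero_add]
    exact hQ
  rcases hQ with rfl | ⟨x2, y2, h2, rfl, hv2⟩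
  · rw [add_zero]
    exact Or.inr ⟨x1, y1, h1, rfl, hv1⟩
  have e1 := (nonsing_iff k x1 y1).1 h1
  have e2 := (nonsing_iff k x2 y2).1 h2
  rw [DT1_mem v h3 x1 y1 e1] at hv1
  rw [DT1_mem v h3 x2 y2 e2] at hv2
  have hneg : (E27.baseChange k).toAffine.negY x2 y2 = -y2 - 1 := by
    rw [Affine.negY, a1, a3]
    ring
  by_cases hxy : x1 = x2 ∧ y1 = (E27.baseChange k).toAffine.negY x2 y2
  · left
    exact Affine.Point.add_of_Y_eq hxy.1 hxy.2
  · right
    obtain ⟨l, hl⟩ : ∃ l, l = (E27.baseChange k).toAffine.slope x1 x2 y1 y2 := ⟨_, rfl⟩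
    have hns := Affine.nonsingular_add h1 h2 hxy
    refine ⟨_, _, hns, Affine.Point.add_some hxy, ?_⟩
    rw [DT1_mem v h3 _ _ ((nonsing_iff k _ _).1 hns)]
    have hX : (E27.baseChange k).toAffine.addX x1 x2
        ((E27.baseChange k).toAffine.slope x1 x2 y1 y2) + 1 = l ^ 2 - x1 - x2 + 1 := by
      rw [← hl, Affine.addX, a1, a2]
      ring
    rw [hX]
    refine DT1_big v (x1 + 1) (x2 + 1) _ h3 (DT1_two v h3) hv1 hv2
      (DT1_rel x1 y1 x2 y2 l e1 e2 ?_)
    by_cases hx : x1 = x2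
    · right
      refine ⟨hx, ?_⟩
      have hy : y1 ≠ -y2 - 1 := fun h => hxy ⟨hx, by rw [hneg]; exact h⟩
      have hyy : y1 = y2 := by
        have e : (y1 - y2) * (y1 + y2 + 1) = 0 := by
          rw [← hx] at e2
          linear_combination e1 - e2
        rcases mul_eq_zero.1 e with h | h
        · exact sub_eq_zero.1 h
        · exact absurd (by linear_combination h) hy
      have hy0 : 2 * y1 + 1 ≠ 0 := by
        intro h
        apply hy
        rw [← hyy]
        linear_combination h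
      have hs : l = (3 * x1 ^ 2) / (2 * y1 + 1) := by
        rw [hl, Affine.slope_of_Y_ne hx (fun h => hxy ⟨hx, h⟩), Affine.negY, a1, a2, a3, a4]
        congr 1 <;> ring
      rw [hs, div_mul_cancel₀ _ hy0]
    · left
      refine ⟨hx, ?_⟩
      rw [hl, Affine.slope_of_X_ne hx, div_mul_cancel₀]
      exact sub_ne_zero.2 hx

open WeierstrassCurve in
theorem DT1_neg {k : Type} [Field k] [CharZero k] [DecidableEq k]
    (v : Valuation k (WithZero (Multiplicative ℤ))) (h3 : v 3 < 1)
    {P : (E27.baseChange k).toAffine.Point} (hP : P ∈ W11_S v) : -P ∈ W11_S v := by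
  rcases hP with rfl | ⟨x1, y1, h1, rfl, hv1⟩
  · left
    exact neg_zero
  · right
    rw [DT1_mem v h3 x1 y1 ((nonsing_iff k x1 y1).1 h1)] at hv1
    have hns := (Affine.nonsingular_neg (W' := (E27.baseChange k).toAffine) x1 y1).2 h1
    refine ⟨x1, _, hns, Affine.Point.neg_some h1, ?_⟩
    rw [DT1_mem v h3 _ _ ((nonsing_iff k _ _).1 hns)]
    exact hv1

theorem DT1_closure {k : Type} [Field k] [CharZero k] [DecidableEq k]
    (v : Valuation k (WithZero (Multiplicative ℤ))) (h3 : v 3 < 1)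
    (P : (E27.baseChange k).toAffine.Point) :
    P ∈ AddSubgroup.closure (W11_S v) ↔ P ∈ W11_S v := by
  constructor
  · intro h
    let S : AddSubgroup (E27.baseChange k).toAffine.Point :=
      { carrier := W11_S v
        zero_mem' := Or.inl rfl
        add_mem' := fun ha hb => DT1_add v h3 ha hb
        neg_mem' := fun ha => DT1_neg v h3 ha }
    have h1 : AddSubgroup.closure (W11_S v) ≤ S := (AddSubgroup.closure_le S).2 (fun x hx => hx)
    exact h1 h
  · intro h
    exact AddSubgroup.subset_closure h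

theorem DT1_closure' {k : Type} [Field k] [inst : Algebra ℚ k] [DecidableEq k]
    (v : Valuation k (WithZero (Multiplicative ℤ))) (h3 : v 3 < 1)
    (P : (E27.baseChange k).toAffine.Point) :
    P ∈ AddSubgroup.closure (W11_S v) ↔ P ∈ W11_S v := by
  have hc : CharZero k := charZero_of_injective_algebraMap (algebraMap ℚ k).injective
  obtain rfl : inst = DivisionRing.toRatAlgebra := Subsingleton.elim _ _
  exact DT1_closure v h3 P

theorem closure_S {k : Type} [Field k] [Algebra ℚ k] [DecidableEq k]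
    (v : Valuation k (WithZero (Multiplicative ℤ))) (h3 : v 3 < 1)
    (P : (E27.baseChange k).toAffine.Point) :
    P ∈ AddSubgroup.closure (W11_S v : Set (E27.baseChange k).toAffine.Point) ↔ P ∈ W11_S v :=
  DT1_closure' v h3 P

theorem DT1_mem' {k : Type} [Field k] [Algebra ℚ k]
    (v : Valuation k (WithZero (Multiplicative ℤ))) (h3 : v 3 < 1) (x y : k)
    (h : (E27.baseChange k).toAffine.Nonsingular x y) :
    (WeierstrassCurve.Affine.Point.some x y h : (E27.baseChange k).toAffine.Point) ∈ W11_S v ↔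
      1 ≤ v (x + 1) := by
  have hE := W10_eqn k x y h
  rw [← DT1_mem v h3 x y hE]
  constructor
  · rintro (h0 | ⟨x', y', h', he, hv⟩)
    · exact absurd h0 (by intro h; cases h)
    · obtain ⟨rfl, rfl⟩ := WeierstrassCurve.Affine.Point.some.inj he
      exact hv
  · intro hv
    exact Or.inr ⟨x, y, h, rfl, hv⟩

theorem index_dvd {k k' : Type} [Field k] [Field k'] [Algebra ℚ k] [Algebra ℚ k'] [DecidableEq k]
    [DecidableEq k'] (v : Valuation k (WithZero (Multiplicative ℤ)))
    (v' : Valuation k' (WithZero (Multiplicative ℤ))) (h3 : v 3 < 1) (h3' : v' 3 < 1)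
    (ι : k →+* k') (e : ℕ) (he : 0 < e) (hv : ∀ z, v' (ι z) = v z ^ e) :
    (AddSubgroup.closure (W11_S v : Set (E27.baseChange k).toAffine.Point)).index ∣
      (AddSubgroup.closure (W11_S v' : Set (E27.baseChange k').toAffine.Point)).index := by
  let f := WeierstrassCurve.Affine.Point.map (W' := E27) ι.toRatAlgHom
  have hcomap : AddSubgroup.closure (W11_S v : Set (E27.baseChange k).toAffine.Point) =
      (AddSubgroup.closure (W11_S v' : Set (E27.baseChange k').toAffine.Point)).comap f := by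
    ext P
    rw [closure_S v h3, AddSubgroup.mem_comap, closure_S v' h3']
    rcases P with _ | ⟨x, y, h⟩
    · exact ⟨fun _ => Or.inl rfl, fun _ => Or.inl rfl⟩
    · have h1 := DT1_mem' v h3 x y h
      have h2 : f (WeierstrassCurve.Affine.Point.some x y h) ∈ W11_S v' ↔ 1 ≤ v' (ι x + 1) :=
        DT1_mem' v' h3' (ι x) (ι y) _
      rw [h1]
      refine Iff.trans ?_ h2.symm
      have e1 : ι x + 1 = ι (x + 1) := by rw [map_add, map_one]
      rw [e1, hv, one_le_pow_iff he.ne']
  rw [hcomap, AddSubgroup.index_comap]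
  exact AddSubgroup.relIndex_dvd_index_of_normal _ _

end H55D
end

-- from Lib.H55K.A.T2
section

/-!
Chunk T2 (M). Tame residues. v a prime of L, totally ramified in B (es L B v = card Gal(B/L), so fs = 1 and there is one prime W above v).
PROOF. card_above: card T * (es * fs) = finrank = card Gal = es, so fs L B v = 1. h acts trivially on the residue field: every x ∈ 𝓞 B is congruent modulo W to an element x0 of 𝓞 L (residue
degree 1: Ideal.inertiaDeg = finrank of the residue extension = 1, the algebra map 𝓞 L / v → 𝓞 B / W is surjective), h x = x0 modulo smulP h W = W (W is the only prime above v), so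
W.valuation (h x - x) < 1; for u = x/y of order 0 at W with x, y ∈ 𝓞 B prime to W (exists_frac): W.valuation (h u / u - 1) < 1.
Let j = ord W b, u = b / t^j (ord 0). al = h b / b = (h t / t)^j * (h u / u). From tame: W.valuation (h t / t - κ) ≤ exp(-1) < 1 (W.valuation t = exp(-1), BF1_val), W.valuation (h t / t) = 1
(ord_smul, h W = W), so W.valuation κ = 1 and (h t / t)^j / κ^j is congruent to 1. So al / κ^j is congruent to 1, and with congr: W.valuation (ξ - κ^j) < 1 in B. The element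
ξ - κ^j lies in L: by ord_map (or valuation_liesOver) its valuation at v is < 1. Also ord v κ = 0.
-/

open NumberField IsDedekindDomain

namespace H55K.Ab

open H55R

variable {F : Type} [Field F] [NumberField F]

section T2

/-- A principal unit has value one. -/
theorem T2_val {K Γ : Type*} [Field K] [LinearOrderedCommGroupWithZero Γ] (v : Valuation K Γ) {x : K}
    (h : v (x - 1) < 1) : v x = 1 := by
  have h1 := v.map_one_add_of_lt h
  rwa [add_sub_cancel] at h1

/-- The principal units of a valuation. -/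
def T2_U {K Γ : Type*} [Field K] [LinearOrderedCommGroupWithZero Γ] (v : Valuation K Γ) : Subgroup Kˣ where
  carrier := {x | v ((x : K) - 1) < 1}
  mul_mem' := by
    intro a b ha hb
    show v (((a * b : Kˣ) : K) - 1) < 1
    have e : ((a * b : Kˣ) : K) - 1 = (a : K) * ((b : K) - 1) + ((a : K) - 1) := by
      rw [Units.val_mul]
      ring
    rw [e]
    refine v.map_add_lt ?_ ha
    rw [map_mul, T2_val v ha, one_mul]
    exact hb
  one_mem' := by
    show v (((1 : Kˣ) : K) - 1) < 1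
    rw [Units.val_one, sub_self, map_zero]
    exact zero_lt_one
  inv_mem' := by
    intro a ha
    show v (((a⁻¹ : Kˣ) : K) - 1) < 1
    have e : ((a⁻¹ : Kˣ) : K) - 1 = -(((a : K)⁻¹) * ((a : K) - 1)) := by
      rw [Units.val_inv_eq_inv_val]
      have := a.ne_zero
      field_simp
      ring
    rw [e, Valuation.map_neg, map_mul, map_inv₀, T2_val v ha, inv_one, one_mul]
    exact ha

theorem T2_mem {K Γ : Type*} [Field K] [LinearOrderedCommGroupWithZero Γ] (v : Valuation K Γ) (x : Kˣ) :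
    x ∈ T2_U v ↔ v ((x : K) - 1) < 1 := Iff.rfl

/-- The quotient is a principal unit if the difference is small. -/
theorem T2_div {K Γ : Type*} [Field K] [LinearOrderedCommGroupWithZero Γ] (v : Valuation K Γ) (x y : Kˣ)
    (h : v ((x : K) - y) < v (y : K)) : x / y ∈ T2_U v := by
  rw [T2_mem]
  have hy : v (y : K) ≠ 0 := (v.ne_zero_iff).2 y.ne_zero
  have e : ((x / y : Kˣ) : K) - 1 = ((x : K) - y) / y := by
    rw [Units.val_div_eq_div_val, sub_div, div_self y.ne_zero]
  rw [e, map_div₀]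
  exact (div_lt_one₀ (zero_lt_iff.2 hy)).2 h

theorem T2_div' {K Γ : Type*} [Field K] [LinearOrderedCommGroupWithZero Γ] (v : Valuation K Γ) (x y : Kˣ)
    (hy : v (y : K) = 1) (h : x / y ∈ T2_U v) : v ((x : K) - y) < 1 := by
  rw [T2_mem] at h
  have e : (x : K) - y = (y : K) * (((x / y : Kˣ) : K) - 1) := by
    rw [Units.val_div_eq_div_val]
    have := y.ne_zero
    field_simp
  rw [e, map_mul, hy, one_mul]
  exact h

theorem T2_add {A : Type*} [AddCommGroup A] (a b x y z : A) :
    a - z = (a + b + -y - (b + -x)) + (y - (z + x)) := by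
  abel

theorem T2_grp {A : Type*} [CommGroup A] (a b x y z : A) :
    a / z = (a * b * y⁻¹ / (b * x⁻¹)) * (y / (z * x)) :=
  T2_add (A := Additive A) (Additive.ofMul a) (Additive.ofMul b) (Additive.ofMul x) (Additive.ofMul y)
    (Additive.ofMul z)

variable {L B : Type} [Field L] [NumberField L] [Field B] [NumberField B] [Algebra L B] [IsGalois L B]

/-- The Galois group is the inertia group of a totally ramified prime. -/
theorem T2_inertia (v : Pl L) (W : Pl B) (hW : W.under (𝓞 L) = v)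
    (hr : es L B v = Nat.card Gal(B/L)) (h : Gal(B/L)) (x : 𝓞 B) : h • x - x ∈ W.asIdeal := by
  have hvm := v.isMaximal
  have hp := v.isPrime
  have hWp := W.isPrime
  have hl : W.asIdeal.LiesOver v.asIdeal := (BF2_mem v W hW).2
  have h1 := Ideal.card_inertia_eq_ramificationIdxIn (G := Gal(B/L)) v.asIdeal W.asIdeal
  have h2 : Nat.card (W.asIdeal.inertia Gal(B/L)) = Nat.card Gal(B/L) := h1.trans hr
  have h3 : W.asIdeal.inertia Gal(B/L) = ⊤ := Subgroup.eq_top_of_card_eq _ h2
  have h4 : h ∈ W.asIdeal.inertia Gal(B/L) := by rw [h3]; exact Subgroup.mem_top h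
  exact h4 x

open scoped Pointwise in
theorem T2_fix (v : Pl L) (W : Pl B) (hW : W.under (𝓞 L) = v)
    (hr : es L B v = Nat.card Gal(B/L)) (h : Gal(B/L)) : smulP h W = W := by
  apply HeightOneSpectrum.ext
  have h1 : ∀ (g : Gal(B/L)) (x : 𝓞 B), x ∈ W.asIdeal → g • x ∈ W.asIdeal := by
    intro g x hx
    have := add_mem (T2_inertia v W hW hr g x) hx
    rwa [sub_add_cancel] at this
  show h • W.asIdeal = W.asIdeal
  ext x
  rw [Ideal.mem_pointwise_smul_iff_inv_smul_mem]
  refine ⟨fun h2 => ?_, fun h2 => h1 _ _ h2⟩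
  have := h1 h _ h2
  rwa [smul_inv_smul] at this

theorem T2_ord (v : Pl L) (W : Pl B) (hW : W.under (𝓞 L) = v)
    (hr : es L B v = Nat.card Gal(B/L)) (h : Gal(B/L)) (y : Bˣ) :
    ord W (Units.map ((h : B ≃ₐ[L] B) : B →* B) y) = ord W y := by
  have := ord_smul h W y
  rwa [T2_fix v W hW hr h] at this

/-- The Galois group acts trivially on the residue field. -/
theorem T2_res (v : Pl L) (W : Pl B) (hW : W.under (𝓞 L) = v)
    (hr : es L B v = Nat.card Gal(B/L)) (h : Gal(B/L)) (u : Bˣ) (hu : ord W u = 0) :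
    Units.map ((h : B ≃ₐ[L] B) : B →* B) u / u ∈ T2_U (W.valuation B) := by
  apply T2_div
  rw [(HB1_ord_zero W u).1 hu]
  obtain ⟨x, y, hx, hy, hxy⟩ := exists_frac W u hu
  have hint : ∀ a : 𝓞 B, a ∈ W.asIdeal → W.valuation B (algebraMap (𝓞 B) B a) < 1 := fun a ha =>
    (HeightOneSpectrum.valuation_lt_one_iff_mem (K := B) W a).2 ha
  have hy1 : W.valuation B (algebraMap (𝓞 B) B y) = 1 :=
    (HeightOneSpectrum.valuation_eq_one_iff_notMem (K := B) W).2 hy
  have hx1 : W.valuation B (algebraMap (𝓞 B) B x) ≤ 1 := W.valuation_le_one x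
  have hhy : h • y ∉ W.asIdeal := by
    intro h1
    apply hy
    have := sub_mem h1 (T2_inertia v W hW hr h y)
    rwa [sub_sub_cancel] at this
  have hhy1 : W.valuation B (algebraMap (𝓞 B) B (h • y)) = 1 :=
    (HeightOneSpectrum.valuation_eq_one_iff_notMem (K := B) W).2 hhy
  have hy0 : (algebraMap (𝓞 B) B y) ≠ 0 := by
    intro h0
    rw [h0, map_zero] at hy1
    exact zero_ne_one hy1
  have hhy0 : (algebraMap (𝓞 B) B (h • y)) ≠ 0 := by
    intro h0
    rw [h0, map_zero] at hhy1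
    exact zero_ne_one hhy1
  have e1 : ((Units.map ((h : B ≃ₐ[L] B) : B →* B) u : Bˣ) : B) =
      algebraMap (𝓞 B) B (h • x) / algebraMap (𝓞 B) B (h • y) := by
    show h (u : B) = _
    rw [hxy, map_div₀]
    rfl
  have e2 : (u : B) = algebraMap (𝓞 B) B x / algebraMap (𝓞 B) B y := hxy
  have e3 : ((Units.map ((h : B ≃ₐ[L] B) : B →* B) u : Bˣ) : B) - (u : B) =
      (algebraMap (𝓞 B) B (h • x - x) * algebraMap (𝓞 B) B y -
        algebraMap (𝓞 B) B x * algebraMap (𝓞 B) B (h • y - y)) /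
        (algebraMap (𝓞 B) B (h • y) * algebraMap (𝓞 B) B y) := by
    rw [e1, e2, map_sub, map_sub]
    field_simp
    ring
  rw [e3, map_div₀, map_mul, hhy1, hy1, one_mul, div_one]
  refine (W.valuation B).map_sub_lt ?_ ?_
  · rw [map_mul, hy1, mul_one]
    exact hint _ (T2_inertia v W hW hr h x)
  · rw [map_mul]
    exact (mul_le_of_le_one_left' hx1).trans_lt (hint _ (T2_inertia v W hW hr h y))

end T2

theorem tame_res {L B : Type} [Field L] [NumberField L] [Field B] [NumberField B] [Algebra L B]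
    [IsGalois L B] (v : Pl L) (W : Pl B) (hW : W.under (𝓞 L) = v)
    (hr : es L B v = Nat.card Gal(B/L)) (h : Gal(B/L)) (al b t : Bˣ)
    (hb : Units.map ((h : B ≃ₐ[L] B) : B →* B) b = al * b) (ht : ord W t = 1) (κ : ℤ)
    (hκ : W.valuation B (h (t : B) - κ * (t : B)) ≤ WithZero.exp (-2 : ℤ)) (ξ : Lˣ)
    (hξ : W.valuation B ((al : B) - algebraMap L B (ξ : L)) < 1) :
    v.valuation L (κ : L) = 1 ∧ v.valuation L ((ξ : L) - (κ : L) ^ ord W b) < 1 := by
  set σ : Bˣ →* Bˣ := Units.map ((h : B ≃ₐ[L] B) : B →* B) with hσ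
  have hvt : W.valuation B (t : B) = WithZero.exp (-1 : ℤ) := by rw [BF1_val, ht]
  have hvst : W.valuation B ((σ t : Bˣ) : B) = WithZero.exp (-1 : ℤ) := by
    rw [BF1_val, T2_ord v W hW hr h t, ht]
  have h12 : (WithZero.exp (-2 : ℤ)) < WithZero.exp (-1 : ℤ) := by
    rw [WithZero.exp_lt_exp]
    norm_num
  -- the integer is a unit
  have hvκt : W.valuation B ((κ : B) * (t : B)) = WithZero.exp (-1 : ℤ) := by
    have e : (κ : B) * (t : B) = ((σ t : Bˣ) : B) - (h (t : B) - κ * (t : B)) := by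
      show _ = h (t : B) - _
      ring
    rw [e, Valuation.map_sub_eq_of_lt_left, hvst]
    rw [hvst]
    exact lt_of_le_of_lt hκ h12
  have hvκ : W.valuation B (κ : B) = 1 := by
    rw [map_mul, hvt] at hvκt
    have h3 : (WithZero.exp (-1 : ℤ)) ≠ (0 : WithZero (Multiplicative ℤ)) := WithZero.exp_ne_zero
    exact mul_right_cancel₀ h3 (hvκt.trans (one_mul _).symm)
  have hκB : (κ : B) ≠ 0 := by
    intro h0
    rw [h0, map_zero] at hvκ
    exact zero_ne_one hvκ
  have hκ0 : κ ≠ 0 := by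
    rintro rfl
    exact hκB Int.cast_zero
  have hκL : (κ : L) ≠ 0 := Int.cast_ne_zero.2 hκ0
  let kB : Bˣ := Units.mk0 _ hκB
  let kL : Lˣ := Units.mk0 _ hκL
  have hkm : Units.map (algebraMap L B : L →* B) kL = kB := by
    ext
    show algebraMap L B (κ : L) = (κ : B)
    exact map_intCast _ _
  have hvL : v.valuation L (κ : L) = 1 := by
    have h4 : ord W kB = 0 := (HB1_ord_zero W kB).2 hvκ
    rw [← hkm, ord_map W v hW kL] at h4
    have h5 : (es L B v : ℤ) ≠ 0 := by
      have := es_pos (L := B) v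
      exact_mod_cast this.ne'
    exact (HB1_ord_zero v kL).1 ((mul_eq_zero.1 h4).resolve_left h5)
  refine ⟨hvL, ?_⟩
  -- the congruences
  set U := T2_U (W.valuation B) with hU
  have c1 : σ t / (kB * t) ∈ U := by
    apply T2_div
    have e : ((kB * t : Bˣ) : B) = (κ : B) * (t : B) := rfl
    rw [e, hvκt]
    exact lt_of_le_of_lt hκ h12
  have hu : ord W (b * (t ^ ord W b)⁻¹) = 0 := by
    rw [ord_mul, ord_inv, ord_zpow, ht]
    ring
  have c2 := T2_res v W hW hr h (b * (t ^ ord W b)⁻¹) hu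
  rw [← hσ, ← hU, map_mul, map_inv, map_zpow, hb] at c2
  have c3 : al / kB ^ ord W b ∈ U := by
    have e : al / kB ^ ord W b = (al * b * (σ t ^ ord W b)⁻¹ / (b * (t ^ ord W b)⁻¹)) *
        (σ t / (kB * t)) ^ ord W b := by
      rw [div_zpow, mul_zpow]
      exact T2_grp _ _ _ _ _
    rw [e]
    exact mul_mem c2 (zpow_mem c1 _)
  have hv1 : W.valuation B ((kB ^ ord W b : Bˣ) : B) = 1 := by
    rw [Units.val_zpow_eq_zpow_val, map_zpow₀]
    show (W.valuation B (κ : B)) ^ _ = 1
    rw [hvκ, one_zpow]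
  have c4 := T2_div' _ _ _ hv1 c3
  have c5 : W.valuation B (algebraMap L B ((ξ : L) - (κ : L) ^ ord W b)) < 1 := by
    have e : algebraMap L B ((ξ : L) - (κ : L) ^ ord W b) =
        ((al : B) - ((kB ^ ord W b : Bˣ) : B)) - ((al : B) - algebraMap L B (ξ : L)) := by
      rw [map_sub, map_zpow₀, map_intCast, Units.val_zpow_eq_zpow_val]
      show _ - (κ : B) ^ _ = ((al : B) - (κ : B) ^ _) - _
      ring
    rw [e]
    exact (W.valuation B).map_sub_lt c4 hξ
  have hp := v.isPrime
  have hWp := W.isPrime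
  have hl : W.asIdeal.LiesOver v.asIdeal := (BF2_mem v W hW).2
  have h6 := HeightOneSpectrum.valuation_liesOver B v W ((ξ : L) - (κ : L) ^ ord W b)
  rw [← h6] at c5
  by_contra hc
  push Not at hc
  exact absurd c5 (not_lt.2 (one_le_pow₀ hc))

end H55K.Ab
end

-- from Lib.H55R.X4
section

open NumberField IsDedekindDomain
open scoped Pointwise

namespace H55R

/-! Chunk X4 (M): decomposition groups in towers. spl_bot: in L/K Galois, Spl K L v iff all decomposition groups above v are trivial (card_stab,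
es_pos, fs_pos; conjugate groups, under_exists). spl_iff (K < L < N, L/K and N/K Galois): (->) σ in Gal(N/K) with σ W = W (W a prime of N) restricts to an
element of Gal(L/K) fixing W.under (𝓞 L), which is 1. (<-) let W be a prime of N above v, W1 = W.under (𝓞 L), τ in Gal(L/K) with τ W1 = W1. Extend τ to
τ' in Gal(N/K) (AlgEquiv.restrictNormalHom_surjective). τ' W and W lie above W1, so ρ τ' W = W for some ρ in Gal(N/L) (smulP_trans
for N/L), as an element ρ of Gal(N/K) (restrictScalars) it is in the kernel of the restriction; ρ τ' is in the decomposition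
group of W, so in the kernel, so τ = 1. es_dvd: es K N = es K L * es of N/L (Ideal.ramificationIdx tower formula; ramificationIdxIn_eq_ramificationIdx). -/

theorem spl_bot (K L : Type) [Field K] [NumberField K] [Field L] [NumberField L] [Algebra K L]
    [IsGalois K L] (v : Pl K) : Spl K L v ↔ SplA (⊥ : Subgroup Gal(L/K)) v := by
  constructor
  · rintro ⟨he, hf⟩ W hW σ hσ
    have h1 := card_stab W v hW
    rw [he, hf, mul_one, Nat.card_eq_one_iff_unique] at h1
    obtain ⟨h2, -⟩ := h1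
    have h3 : (⟨σ, HeightOneSpectrum.ext hσ⟩ : {σ : Gal(L/K) // smulP σ W = W}) =
        ⟨1, smulP_one W⟩ := Subsingleton.elim _ _
    rw [Subgroup.mem_bot]
    exact congrArg Subtype.val h3
  · intro h
    obtain ⟨W, hW⟩ := under_exists (L := L) v
    have h1 := card_stab W v hW
    have h2 : Nat.card {σ : Gal(L/K) // smulP σ W = W} = 1 := by
      rw [Nat.card_eq_one_iff_unique]
      refine ⟨⟨fun a b => ?_⟩, ⟨⟨1, smulP_one W⟩⟩⟩
      have ha := h W hW a.1 (congrArg HeightOneSpectrum.asIdeal a.2)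
      have hb := h W hW b.1 (congrArg HeightOneSpectrum.asIdeal b.2)
      rw [Subgroup.mem_bot] at ha hb
      exact Subtype.ext (ha.trans hb.symm)
    rw [h2] at h1
    exact ⟨Nat.eq_one_of_mul_eq_one_right h1.symm, Nat.eq_one_of_mul_eq_one_left h1.symm⟩

theorem X4_coe (K L N : Type) [Field K] [NumberField K] [Field L] [NumberField L] [Field N]
    [NumberField N] [Algebra K L] [Algebra L N] [Algebra K N] [IsScalarTower K L N]
    [IsGalois K L] [IsGalois K N] (σ : Gal(N/K)) (x : 𝓞 L) :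
    algebraMap (𝓞 L) (𝓞 N) ((AlgEquiv.restrictNormalHom L σ : Gal(L/K)) • x) =
      σ • algebraMap (𝓞 L) (𝓞 N) x := by
  apply RingOfIntegers.ext
  exact AlgEquiv.restrictNormal_commutes σ L (x : L)

theorem X4_under (K L N : Type) [Field K] [NumberField K] [Field L] [NumberField L] [Field N]
    [NumberField N] [Algebra K L] [Algebra L N] [Algebra K N] [IsScalarTower K L N]
    [IsGalois K L] [IsGalois K N] (σ : Gal(N/K)) (W : Pl N) :
    (smulP σ W).under (𝓞 L) =
      smulP (AlgEquiv.restrictNormalHom L σ : Gal(L/K)) (W.under (𝓞 L)) := by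
  apply HeightOneSpectrum.ext
  change Ideal.comap (algebraMap (𝓞 L) (𝓞 N)) (σ • W.asIdeal) =
    (AlgEquiv.restrictNormalHom L σ : Gal(L/K)) •
      Ideal.comap (algebraMap (𝓞 L) (𝓞 N)) W.asIdeal
  ext x
  rw [Ideal.mem_comap, Ideal.mem_pointwise_smul_iff_inv_smul_mem,
    Ideal.mem_pointwise_smul_iff_inv_smul_mem, Ideal.mem_comap, ← map_inv, X4_coe]

theorem spl_iff (K L N : Type) [Field K] [NumberField K] [Field L] [NumberField L] [Field N]
    [NumberField N] [Algebra K L] [Algebra L N] [Algebra K N] [IsScalarTower K L N]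
    [IsGalois K L] [IsGalois K N] (v : Pl K) :
    Spl K L v ↔ SplA (AlgEquiv.restrictNormalHom L : Gal(N/K) →* Gal(L/K)).ker v := by
  have hunder : ∀ W : Pl N, (W.under (𝓞 L)).under (𝓞 K) = W.under (𝓞 K) := by
    intro W
    apply HeightOneSpectrum.ext
    exact Ideal.under_under W.asIdeal
  rw [spl_bot]
  constructor
  · intro h W hW σ hσ
    rw [MonoidHom.mem_ker]
    have h1 : smulP σ W = W := HeightOneSpectrum.ext hσ
    have h2 := X4_under K L N σ W
    rw [h1] at h2
    have h3 := h (W.under (𝓞 L)) ((hunder W).trans hW) (AlgEquiv.restrictNormalHom L σ)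
      (congrArg HeightOneSpectrum.asIdeal h2).symm
    rwa [Subgroup.mem_bot] at h3
  · intro h W₁ hW₁ τ hτ
    have hLN : IsGalois L N := IsGalois.tower_top_of_isGalois K L N
    obtain ⟨W, hW⟩ := under_exists (L := N) W₁
    obtain ⟨τ', hτ'⟩ := AlgEquiv.restrictNormalHom_surjective (F := K) (K₁ := L) (E := N) τ
    have h1 : (smulP τ' W).under (𝓞 L) = W.under (𝓞 L) := by
      rw [X4_under K L N, hτ', hW]
      exact HeightOneSpectrum.ext hτ
    obtain ⟨ρ, hρ⟩ := smulP_trans (K := L) (smulP τ' W) W h1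
    have h2 : (smulP ((ρ.restrictScalars K : Gal(N/K)) * τ') W) = W := by
      rw [smulP_mul]
      exact hρ
    have h3 : (AlgEquiv.restrictNormalHom L (ρ.restrictScalars K : Gal(N/K)) : Gal(L/K)) = 1 := by
      ext x
      apply (algebraMap L N).injective
      exact (AlgEquiv.restrictNormal_commutes (ρ.restrictScalars K : Gal(N/K)) L x).trans
        (ρ.commutes x)
    have h4 := h W ((hunder W).symm.trans (by rw [hW, hW₁])) _
      (congrArg HeightOneSpectrum.asIdeal h2)
    rw [MonoidHom.mem_ker, map_mul, h3, one_mul, hτ'] at h4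
    rw [Subgroup.mem_bot]
    exact h4

theorem es_dvd (K L N : Type) [Field K] [NumberField K] [Field L] [NumberField L] [Field N]
    [NumberField N] [Algebra K L] [Algebra L N] [Algebra K N] [IsScalarTower K L N]
    [IsGalois K L] [IsGalois K N] (v : Pl K) : es K L v ∣ es K N v := by
  have hLN : IsGalois L N := IsGalois.tower_top_of_isGalois K L N
  obtain ⟨W, hW⟩ := under_exists (L := L) v
  have hp := v.isPrime
  have hP := W.isPrime
  have hl : W.asIdeal.LiesOver v.asIdeal := ⟨(congrArg HeightOneSpectrum.asIdeal hW).symm⟩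
  refine Dvd.intro (W.asIdeal.ramificationIdxIn (𝓞 N)) ?_
  exact Ideal.ramificationIdxIn_mul_ramificationIdxIn (p := v.asIdeal) W.asIdeal Gal(L/K) (𝓞 N)
    Gal(N/K) Gal(N/L)

end H55R
end

-- from Lib.H55K.A.Defs
section

/-!
# H55K part A (port of H99B): the abstract theorem of Kolyvagin and Rubin over an arbitrary base field F (definitions)

L/F is a finite Galois extension with group Δ = Gal(L/F), χ : Δ → kˣ is bijective, k a finite field of
characteristic l. See PROOF.md.
-/

open NumberField IsDedekindDomain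

namespace H55K.Ab

open H55R

variable {F : Type} [Field F] [NumberField F]

section lin

/-- A linear form ρ on k with sum over c of ρ(a/c) c = -a. -/
structure IsRho (l : ℕ) {k : Type} [Field k] [Fintype k] [DecidableEq k] (ρ : k →+ ZMod l) :
    Prop where
  sum : ∀ a : k, ∑ c : kˣ, ((ρ (a * (c⁻¹ : kˣ))).val : k) * (c : k) = -a

variable {l : ℕ} {k : Type} [Field k]

/-- The exponents of the group ring element M_a. -/
def cf {D : Type} [Group D] (χ : D →* kˣ) (ρ : k →+ ZMod l) (a : k) (d : D) : ℤ :=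
  ((ρ (a * ((χ d)⁻¹ : kˣ))).val : ℤ)

variable {G : Type} [Group G] [Fintype G]

/-- The action of the integral group ring on a multiplicative group. -/
noncomputable def pw {A : Type} [CommGroup A] (ac : G →* Monoid.End A) (α : G → ℤ) (x : A) : A :=
  ∏ g, (ac g x) ^ α g

/-- The action of the integral group ring on an additive group. -/
noncomputable def pa {A : Type} [AddCommGroup A] (ac : G →* AddMonoid.End A) (α : G → ℤ) (x : A) :
    A :=
  ∑ g, α g • ac g x

/-- The product of the group ring. -/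
def conv (α β : G → ℤ) : G → ℤ := fun g => ∑ h, α h * β (h⁻¹ * g)

/-- The ring homomorphism from the integral group ring to k given by χ. -/
def chs (χ : G →* kˣ) (α : G → ℤ) : k := ∑ g, (α g : k) * (χ g : k)

end lin

section act

variable {L : Type} [Field L] [NumberField L] [Algebra F L]

/-- The Galois action on the multiplicative group of L. -/
noncomputable def gu : Gal(L/F) →* Monoid.End Lˣ where
  toFun σ := Units.map ((σ : L ≃ₐ[F] L) : L →* L)
  map_one' := by
    ext x
    rfl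
  map_mul' σ τ := by
    ext x
    rfl

theorem gu_apply (σ : Gal(L/F)) (x : Lˣ) : ((gu σ x : Lˣ) : L) = σ (x : L) := rfl

variable {l : ℕ} {k : Type} [Field k]

/-- The element M_a x. -/
noncomputable def eta (χ : Gal(L/F) →* kˣ) (ρ : k →+ ZMod l) (a : k) (x : Lˣ) : Lˣ :=
  pw gu (cf χ ρ a) x

/-- Equivariant homomorphisms from k to Lˣ modulo l-th powers, given by representatives. -/
structure EqHom (l : ℕ) (χ : Gal(L/F) →* kˣ) (m : k → Lˣ) : Prop where
  add : ∀ a b : k, ∃ z : Lˣ, m (a + b) = m a * m b * z ^ l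
  equiv : ∀ (σ : Gal(L/F)) (a : k), ∃ z : Lˣ, m (χ σ * a) = gu σ (m a) * z ^ l

/-- The level one component at w is trivial: x is an l-th power times an element congruent to 1 modulo
the square of w. -/
def Lev (l : ℕ) (w : Pl L) (x : Lˣ) : Prop :=
  ∃ z : Lˣ, w.valuation L (((x * (z ^ l)⁻¹ : Lˣ) : L) - 1) ≤ WithZero.exp (-2 : ℤ)

/-- x is an l-th power modulo v (x prime to v). -/
def PowMod (l : ℕ) (v : Pl L) (x : Lˣ) : Prop :=
  ∃ z : Lˣ, v.valuation L (((x * (z ^ l)⁻¹ : Lˣ) : L) - 1) < 1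

end act

section cls

variable {L : Type} [Field L] [NumberField L] [Algebra F L] {k : Type} [Field k]

/-- Functions on the primes of L given by the equivariant homomorphisms from the class group of L to k. -/
structure IsTh (χ : Gal(L/F) →* kˣ) (θ : Pl L → k) : Prop where
  equiv : ∀ (σ : Gal(L/F)) (v : Pl L), θ (smulP σ v) = χ σ * θ v
  princ : ∀ x : Lˣ, ∑ᶠ v : Pl L, (ord v x : k) * θ v = 0

end cls

section loc

variable {L : Type} [Field L] [NumberField L] [Algebra F L] {k : Type} [Field k]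

/-- Local data at the totally ramified prime w of L: r is the reduction modulo w with values in k, every
element of k is the reduction of an element of 𝓞 F, t is a uniformizer on which the Galois group acts through
χ modulo the square of w. -/
structure Loc (χ : Gal(L/F) →* kˣ) (w : Pl L) (t : Lˣ) (r : 𝓞 L →+* k) : Prop where
  ker : ∀ x : 𝓞 L, r x = 0 ↔ x ∈ w.asIdeal
  surj : ∀ b : k, ∃ y : 𝓞 F, r (algebraMap (𝓞 F) (𝓞 L) y) = b
  ram : ∀ y : 𝓞 F, r (algebraMap (𝓞 F) (𝓞 L) y) = 0 →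
    w.valuation L (algebraMap F L (y : F)) ≤ WithZero.exp (-2 : ℤ)
  inv : ∀ σ : Gal(L/F), smulP σ w = w
  unif : ord w t = 1
  act : ∀ (σ : Gal(L/F)) (y : 𝓞 F), r (algebraMap (𝓞 F) (𝓞 L) y) = χ σ →
    w.valuation L (σ (t : L) - algebraMap F L (y : F) * (t : L)) ≤ WithZero.exp (-2 : ℤ)

end loc

section thaine

/-- The auxiliary field of Kolyvagin and Thaine for the prime Q of L: B/L is cyclic of degree q - 1,
q = N Q, totally tamely ramified at the conjugates of Q, with one element t which is a uniformizer at all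
these primes and on which the Galois group acts through the character κ (modulo squares), unramified outside
the conjugates of Q; al is a unit of B, of norm 1, congruent to ξ at the primes above the
conjugates of Q. -/
structure Aux (F L : Type) [Field F] [NumberField F] [Field L] [NumberField L] [Algebra F L] (Q : Pl L)
    (ξ : Lˣ) (B : Type) [Field B] [NumberField B] [Algebra L B] (κ : Gal(B/L) → ℤ) (t al : Bˣ) :
    Prop where
  gal : IsGalois L B
  cyc : IsCyclic Gal(B/L)
  card : Nat.card Gal(B/L) = Ideal.absNorm Q.asIdeal - 1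
  ram : ∀ σ : Gal(L/F), es L B (smulP σ Q) = Ideal.absNorm Q.asIdeal - 1
  unr : ∀ v : Pl L, (∀ σ : Gal(L/F), v ≠ smulP σ Q) → es L B v = 1
  unif : ∀ (σ : Gal(L/F)) (W : Pl B), W.under (𝓞 L) = smulP σ Q → ord W t = 1
  tame : ∀ (σ : Gal(L/F)) (W : Pl B), W.under (𝓞 L) = smulP σ Q → ∀ g : Gal(B/L),
    W.valuation B (g (t : B) - κ g * (t : B)) ≤ WithZero.exp (-2 : ℤ)
  norm : Algebra.norm L (al : B) = 1
  unit : ∀ W : Pl B, ord W al = 0
  congr : ∀ (σ : Gal(L/F)) (W : Pl B), W.under (𝓞 L) = smulP σ Q →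
    W.valuation B ((al : B) - algebraMap L B (ξ : L)) < 1

end thaine

end H55K.Ab
end

-- from Lib.H55K.A.A2
section

/-!
Chunk A2 (S/M). Rules for pw (action of the integral group ring on a multiplicative group), conv and chs.
PROOFS. pw_mul, pw_npow, pw_add, pw_smul: Finset.prod_mul_distrib, map_mul, zpow_add, zpow_mul. pw_conv: expand
pw ac α (pw ac β x) = prod_h ac h (prod_g (ac g x)^(β g))^(α h) = prod_h prod_g (ac (h g) x)^(α h β g) (map_prod, map_zpow for the monoid endomorphism ac h,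
ac (h g) = ac h * ac g), substitute g -> h⁻¹ g (Equiv.mulLeft), exchange the products, collect exponents. chs_conv: the same computation in k with χ (h g) = χ h χ g.
chs_single: one term. chs_el: IsRho for a = -1 (IsRho.sum) transported along the bijection χ: chs χ (cf χ ρ a) = sum_g ρ(a χ(g)⁻¹).val χ(g) =
sum_c ρ(a c⁻¹).val c = -a. el_conv: for g: (conv α β)(g) with α = cf χ ρ (-1), modulo l: substitute h -> g h⁻¹ : the sum of α(g h⁻¹) β(h), and in ZMod l:
α(g h⁻¹) = ρ(-(χ g)⁻¹ χ h) (ZMod.natCast_zmod_val), ρ additive, so the sum is ρ(-(χ g)⁻¹ * sum_h β(h) χ(h)) = ρ 0 = 0; (ZMod.intCast_zmod_eq_zero_iff_dvd).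
-/

namespace H55K.Ab

variable {G : Type} [Group G] [Fintype G] {A : Type} [CommGroup A] (ac : G →* Monoid.End A)

omit [Group G] [Fintype G] in
theorem a2_zsum (s : Finset G) (f : G → ℤ) (x : A) : x ^ (∑ h ∈ s, f h) = ∏ h ∈ s, x ^ f h := by
  classical
  induction s using Finset.induction_on with
  | empty => simp
  | insert a s ha ih => rw [Finset.sum_insert ha, Finset.prod_insert ha, zpow_add, ih]

theorem pw_mul (α : G → ℤ) (x y : A) : pw ac α (x * y) = pw ac α x * pw ac α y := by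
  unfold pw
  rw [← Finset.prod_mul_distrib]
  refine Finset.prod_congr rfl fun g _ => ?_
  rw [map_mul, mul_zpow]

theorem pw_zpow (α : G → ℤ) (x : A) (n : ℤ) : pw ac α (x ^ n) = pw ac α x ^ n := by
  unfold pw
  rw [← Finset.prod_zpow]
  refine Finset.prod_congr rfl fun g _ => ?_
  rw [map_zpow, ← zpow_mul, ← zpow_mul, mul_comm]

theorem pw_pow (α : G → ℤ) (x : A) (n : ℕ) : pw ac α (x ^ n) = pw ac α x ^ n := by
  have h := pw_zpow ac α x n
  rwa [zpow_natCast, zpow_natCast] at h

theorem pw_inv (α : G → ℤ) (x : A) : pw ac α x⁻¹ = (pw ac α x)⁻¹ := by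
  have h := pw_zpow ac α x (-1)
  rwa [zpow_neg_one, zpow_neg_one] at h

theorem pw_smul (α : G → ℤ) (x : A) (n : ℤ) : pw ac (fun g => n * α g) x = pw ac α x ^ n := by
  unfold pw
  rw [← Finset.prod_zpow]
  refine Finset.prod_congr rfl fun g _ => ?_
  rw [← zpow_mul, mul_comm]

theorem pw_conv (α β : G → ℤ) (x : A) : pw ac (conv α β) x = pw ac α (pw ac β x) := by
  have h1 : ∀ h : G, (ac h (pw ac β x)) ^ α h = ∏ g, (ac g x) ^ (α h * β (h⁻¹ * g)) := by
    intro h
    unfold pw
    rw [map_prod, ← Finset.prod_zpow, ← Equiv.prod_comp (Equiv.mulLeft h) (fun g => (ac g x) ^ (α h * β (h⁻¹ * g)))]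
    refine Finset.prod_congr rfl fun g _ => ?_
    rw [map_zpow, ← zpow_mul, Equiv.coe_mulLeft, inv_mul_cancel_left, mul_comm (β g), map_mul]
    rfl
  unfold conv
  change ∏ g, (ac g x) ^ (∑ h, α h * β (h⁻¹ * g)) = ∏ h, (ac h (pw ac β x)) ^ α h
  simp only [h1]
  rw [Finset.prod_comm]
  refine Finset.prod_congr rfl fun g _ => ?_
  rw [a2_zsum]

theorem pw_ac (α : G → ℤ) (x : A) (g : G) (hc : ∀ a b : G, a * b = b * a) :
    pw ac α (ac g x) = ac g (pw ac α x) := by
  unfold pw
  rw [map_prod]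
  refine Finset.prod_congr rfl fun h _ => ?_
  rw [map_zpow]
  congr 1
  have h1 : ac h (ac g x) = ac (h * g) x := by rw [map_mul]; rfl
  have h2 : ac g (ac h x) = ac (g * h) x := by rw [map_mul]; rfl
  rw [h1, h2, hc]

/-- Elements of finite order are stable. -/
theorem pw_fin (α : G → ℤ) (x : A) (hx : IsOfFinOrder x) : IsOfFinOrder (pw ac α x) := by
  unfold pw
  refine Subgroup.prod_mem (CommGroup.torsion A) fun g _ => ?_
  refine Subgroup.zpow_mem _ ?_ _
  exact MonoidHom.isOfFinOrder (ac g : A →* A) hx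

variable {l : ℕ} [Fact l.Prime] {k : Type} [Field k] (χ : G →* kˣ)

omit [Fact l.Prime] in
theorem chs_conv (α β : G → ℤ) : chs χ (conv α β) = chs χ α * chs χ β := by
  unfold chs conv
  rw [Finset.sum_mul]
  have h1 : ∀ h : G, (α h : k) * (χ h : k) * ∑ g, (β g : k) * (χ g : k) =
      ∑ g, (α h : k) * (β (h⁻¹ * g) : k) * (χ g : k) := by
    intro h
    rw [Finset.mul_sum, ← Equiv.sum_comp (Equiv.mulLeft h) (fun g => (α h : k) * (β (h⁻¹ * g) : k) * (χ g : k))]
    refine Finset.sum_congr rfl fun g _ => ?_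
    rw [Equiv.coe_mulLeft, inv_mul_cancel_left, map_mul, Units.val_mul]
    ring
  simp only [h1]
  rw [Finset.sum_comm]
  refine Finset.sum_congr rfl fun g _ => ?_
  rw [Int.cast_sum, Finset.sum_mul]
  refine Finset.sum_congr rfl fun h _ => ?_
  rw [Int.cast_mul]

theorem conv_comm (hc : ∀ a b : G, a * b = b * a) (α β : G → ℤ) : conv α β = conv β α := by
  funext g
  unfold conv
  rw [← Equiv.sum_comp ((Equiv.inv G).trans (Equiv.mulLeft g)) (fun h => α h * β (h⁻¹ * g))]
  refine Finset.sum_congr rfl fun h _ => ?_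
  simp only [Equiv.trans_apply, Equiv.inv_apply, Equiv.coe_mulLeft, mul_inv_rev, inv_inv]
  rw [mul_comm, hc g h⁻¹, mul_assoc, inv_mul_cancel, mul_one]

theorem chs_single [DecidableEq G] (g : G) : chs χ (Pi.single g 1) = χ g := by
  unfold chs
  rw [Finset.sum_eq_single g]
  · rw [Pi.single_eq_same, Int.cast_one, one_mul]
  · intro h _ hh
    rw [Pi.single_eq_of_ne hh, Int.cast_zero, zero_mul]
  · intro h
    exact absurd (Finset.mem_univ g) h

theorem pw_single [DecidableEq G] (g : G) (x : A) : pw ac (Pi.single g 1) x = ac g x := by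
  unfold pw
  rw [Finset.prod_eq_single g]
  · rw [Pi.single_eq_same, zpow_one]
  · intro h _ hh
    rw [Pi.single_eq_of_ne hh, zpow_zero]
  · intro h
    exact absurd (Finset.mem_univ g) h

variable [Fintype k] [DecidableEq k] [CharP k l] (ρ : k →+ ZMod l)

theorem chs_nn (hχ : Function.Bijective χ) (hρ : IsRho l ρ) (a : k) :
    chs χ (cf χ ρ a) = -a := by
  rw [← hρ.sum a]
  unfold chs cf
  rw [← Equiv.sum_comp (Equiv.ofBijective χ hχ) (fun c : kˣ => ((ρ (a * (c⁻¹ : kˣ))).val : k) * (c : k))]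
  refine Finset.sum_congr rfl fun g _ => ?_
  rw [Equiv.ofBijective_apply, Int.cast_natCast]

theorem el_conv (β : G → ℤ) (hβ : chs χ β = 0) (g : G) :
    (l : ℤ) ∣ conv (cf χ ρ (-1)) β g := by
  have : NeZero l := ⟨(Fact.out : l.Prime).ne_zero⟩
  rw [← ZMod.intCast_zmod_eq_zero_iff_dvd]
  unfold conv
  rw [← Equiv.sum_comp ((Equiv.inv G).trans (Equiv.mulLeft g)) (fun h => cf χ ρ (-1) h * β (h⁻¹ * g)), Int.cast_sum]
  have h1 : ∀ h : G, ((cf χ ρ (-1) (((Equiv.inv G).trans (Equiv.mulLeft g)) h) *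
      β ((((Equiv.inv G).trans (Equiv.mulLeft g)) h)⁻¹ * g) : ℤ) : ZMod l) =
      ρ (-((χ g)⁻¹ : kˣ) * ((β h : k) * (χ h : k))) := by
    intro h
    simp only [Equiv.trans_apply, Equiv.inv_apply, Equiv.coe_mulLeft, mul_inv_rev, inv_inv]
    rw [mul_assoc, inv_mul_cancel, mul_one]
    unfold cf
    rw [Int.cast_mul, Int.cast_natCast, ZMod.natCast_zmod_val]
    have e : -((χ g)⁻¹ : kˣ) * ((β h : k) * (χ h : k)) = (β h) • (-1 * (((χ (g * h⁻¹))⁻¹ : kˣ) : k)) := by
      rw [zsmul_eq_mul, map_mul, map_inv, mul_inv_rev, inv_inv, Units.val_mul]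
      ring
    rw [e, map_zsmul, zsmul_eq_mul, mul_comm]
  rw [Finset.sum_congr rfl fun h _ => h1 h, ← map_sum, ← Finset.mul_sum]
  have h2 : ∑ h, (β h : k) * (χ h : k) = 0 := hβ
  rw [h2, mul_zero, map_zero]

end H55K.Ab
end

-- from Lib.H55K.A.A5
section

/-!
Chunk A5 (M/L). Duality for a finite abelian group C with an action of G (χ : G → kˣ bijective).
PROOF. Suppose that no such θ exists. For λ : C →+ ZMod l put θ_λ(x) = sum_g ((λ (ac g⁻¹ x)).val : k) χ(g): the map ZMod l → k, c ↦ (c.val : k) is the ring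
homomorphism ZMod.castHom (dvd_refl l) k (CharP k l), so θ_λ is additive, and θ_λ (ac h x) = χ(h) θ_λ(x) (substitute g → h g). Hence θ_λ = 0 for all λ.
Let n(g) = (ρ(-χ(g)⁻¹)).val = cf χ ρ (-1) g. ρ is additive, so ρ((c.val : k) * b) = c * ρ b in ZMod l for c : ZMod l, and
0 = ρ(-θ_λ(x)) = sum_g λ(ac g⁻¹ x) ρ(-χ(g)) = λ(sum_g n(g⁻¹) ac g⁻¹ x) = λ(M x) with M x = pa ac (cf χ ρ (-1)) x. So λ (M x) = 0 for all λ : C →+ ZMod l, hence M x ∈ lC: C/lC is a
vector space over ZMod l (AddCommGroup.zmodModule), and linear forms separate points (Module.forall_dual_apply_eq_zero_iff or exists basis), composed with C → C/lC.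
M is additive and commutes with multiplication by l, so M^j x ∈ l^j C for all j. On the other hand M (m b) = sum_g n(g) m(χ(g) b) = m(sum_g n(g) χ(g) b) = m(-(-1) b) = m b
(IsRho for a = -1, χ bijective, integer multiples: (n : k) b = n • b). So m b ∈ l^j C for every j, and l • m b = m(l • b) = 0. With j = card C:
m b = l^j • x, the order of x divides l^(j+1) and card C, so it is l^i with l^i ≤ card C < l^(card C), i ≤ j, so m b = 0. Contradiction.
-/

namespace H55K.Ab

section A5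

variable {G : Type} [Group G] [Fintype G] {C : Type} [AddCommGroup C]
  (ac : G →* AddMonoid.End C) {l : ℕ} [Fact l.Prime] {k : Type} [Field k] [CharP k l]

/-- The homomorphism of a linear form. -/
noncomputable def A5_th (χ : G →* kˣ) (f : C →+ ZMod l) : C →+ k :=
  ∑ g : G, (AddMonoidHom.mulRight ((χ g : kˣ) : k)).comp
    (((ZMod.castHom (dvd_refl l) k : ZMod l →+* k) : ZMod l →+ k).comp (f.comp (ac g⁻¹ : C →+ C)))

theorem A5_th_apply (χ : G →* kˣ) (f : C →+ ZMod l) (x : C) :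
    A5_th ac χ f x = ∑ g : G, ((f (ac g⁻¹ x)).val : k) * (χ g : k) := by
  unfold A5_th
  rw [AddMonoidHom.finsetSum_apply]
  refine Finset.sum_congr rfl fun g _ => ?_
  show (ZMod.castHom (dvd_refl l) k) (f (ac g⁻¹ x)) * (χ g : k) = _
  rw [ZMod.castHom_apply, ZMod.natCast_val]

theorem A5_equiv (χ : G →* kˣ) (f : C →+ ZMod l) (h : G) (x : C) :
    A5_th ac χ f (ac h x) = χ h * A5_th ac χ f x := by
  rw [A5_th_apply, A5_th_apply, ← Equiv.sum_comp (Equiv.mulLeft h), Finset.mul_sum]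
  refine Finset.sum_congr rfl fun g _ => ?_
  have e1 : ac (h * g)⁻¹ (ac h x) = ac g⁻¹ x := by
    have e2 : ac g⁻¹ = ac (h * g)⁻¹ * ac h := by
      rw [← map_mul]
      congr 1
      group
    rw [e2]
    rfl
  show ((f (ac (h * g)⁻¹ (ac h x))).val : k) * (χ (h * g) : k) = _
  rw [e1, map_mul, Units.val_mul]
  ring

omit [CharP k l] in
theorem A5_rho (ρ : k →+ ZMod l) (y : ZMod l) (b : k) : ρ ((y.val : k) * b) = y * ρ b := by
  rw [← nsmul_eq_mul, map_nsmul, nsmul_eq_mul, ZMod.natCast_val, ZMod.cast_id]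

/-- The group ring element of value one. -/
noncomputable def A5_M (χ : G →* kˣ) (ρ : k →+ ZMod l) (x : C) : C := pa ac (cf χ ρ (-1)) x

omit [CharP k l] in
theorem A5_M_nsmul (χ : G →* kˣ) (ρ : k →+ ZMod l) (n : ℕ) (x : C) :
    A5_M ac χ ρ (n • x) = n • A5_M ac χ ρ x := by
  unfold A5_M pa
  rw [Finset.smul_sum]
  refine Finset.sum_congr rfl fun g _ => ?_
  rw [map_nsmul, smul_comm]

theorem A5_lam (χ : G →* kˣ) (ρ : k →+ ZMod l) (f : C →+ ZMod l) (x : C) :
    f (A5_M ac χ ρ x) = ρ (-A5_th ac χ f x) := by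
  rw [A5_th_apply, map_neg, map_sum]
  unfold A5_M pa
  rw [map_sum, ← Finset.sum_neg_distrib, ← Equiv.sum_comp (Equiv.inv G)]
  refine Finset.sum_congr rfl fun g _ => ?_
  rw [A5_rho, map_zsmul, zsmul_eq_mul]
  show ((cf χ ρ (-1) g⁻¹ : ℤ) : ZMod l) * f (ac g⁻¹ x) = _
  unfold cf
  rw [map_inv, inv_inv, Int.cast_natCast, ZMod.natCast_val, ZMod.cast_id, neg_one_mul, map_neg]
  ring

theorem A5_sep0 {Q : Type} [AddCommGroup Q] [Module (ZMod l) Q] (y : Q)
    (h : ∀ f : Q →+ ZMod l, f y = 0) : y = 0 := by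
  refine (Module.forall_dual_apply_eq_zero_iff (ZMod l) y).1 ?_
  intro φ
  exact h φ.toAddMonoidHom

theorem A5_sep {Q : Type} [AddCommGroup Q] (hS : ∀ q : Q, l • q = 0) (y : Q)
    (h : ∀ f : Q →+ ZMod l, f y = 0) : y = 0 :=
  @A5_sep0 l _ Q _ (AddCommGroup.zmodModule hS) y h

theorem A5_div (y : C) (h : ∀ f : C →+ ZMod l, f y = 0) : ∃ z : C, y = l • z := by
  let S : AddSubgroup C := (nsmulAddMonoidHom l : C →+ C).range
  have hS : ∀ q : C ⧸ S, l • q = 0 := by
    intro q
    obtain ⟨x, rfl⟩ := QuotientAddGroup.mk_surjective q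
    rw [← QuotientAddGroup.mk_nsmul, QuotientAddGroup.eq_zero_iff]
    exact ⟨x, rfl⟩
  have h1 : (QuotientAddGroup.mk y : C ⧸ S) = 0 :=
    A5_sep hS _ fun φ => h (φ.comp (QuotientAddGroup.mk' S))
  rw [QuotientAddGroup.eq_zero_iff] at h1
  obtain ⟨z, hz⟩ := h1
  exact ⟨z, hz.symm⟩

theorem A5_tors [Finite C] (y : C) (h1 : l • y = 0) (h2 : ∀ j : ℕ, ∃ z : C, y = l ^ j • z) :
    y = 0 := by
  have hp : l.Prime := Fact.out
  obtain ⟨z, hz⟩ := h2 (Nat.card C)
  have h3 : l ^ (Nat.card C + 1) • z = 0 := by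
    rw [pow_succ', mul_smul, ← hz, h1]
  obtain ⟨i, hi, hi'⟩ := (Nat.dvd_prime_pow hp).1 (addOrderOf_dvd_of_nsmul_eq_zero h3)
  have h4 : addOrderOf z ≤ Nat.card C := addOrderOf_le_card
  have h5 : Nat.card C < l ^ Nat.card C := Nat.lt_pow_self hp.one_lt
  have h6 : i ≤ Nat.card C := by
    by_contra hc
    push Not at hc
    have h7 : l ^ Nat.card C ≤ l ^ i := Nat.pow_le_pow_right hp.pos hc.le
    rw [← hi'] at h7
    omega
  rw [hz]
  apply addOrderOf_dvd_iff_nsmul_eq_zero.1
  rw [hi']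
  exact pow_dvd_pow _ h6

end A5

theorem dual_hom {G : Type} [Group G] [Fintype G] {C : Type} [AddCommGroup C] [Finite C]
    (ac : G →* AddMonoid.End C) {l : ℕ} [Fact l.Prime] {k : Type} [Field k] [Fintype k]
    [DecidableEq k] [CharP k l] (χ : G →* kˣ) (hχ : Function.Bijective χ) (ρ : k →+ ZMod l)
    (hρ : IsRho l ρ) (m : k →+ C) (hm : ∀ (g : G) (a : k), m (χ g * a) = ac g (m a))
    (hm0 : ∃ a, m a ≠ 0) :
    ∃ θ : C →+ k, (∀ (g : G) (x : C), θ (ac g x) = χ g * θ x) ∧ ∃ x, θ x ≠ 0 := by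
  by_contra hcon
  push Not at hcon
  have h0 : ∀ (f : C →+ ZMod l) (x : C), A5_th ac χ f x = 0 := fun f =>
    hcon (A5_th ac χ f) (A5_equiv ac χ f)
  have h1 : ∀ x : C, ∃ z : C, A5_M ac χ ρ x = l • z := fun x =>
    A5_div _ fun f => by rw [A5_lam, h0, neg_zero, map_zero]
  obtain ⟨b, hb⟩ := hm0
  apply hb
  have h2 : A5_M ac χ ρ (m b) = m b := by
    have e1 : ∀ g : G, cf χ ρ (-1) g • ac g (m b) = m (((cf χ ρ (-1) g : ℤ) : k) * (χ g : k) * b) := by
      intro g
      rw [mul_assoc, ← zsmul_eq_mul, map_zsmul, hm]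
    have e2 : ∑ g : G, ((cf χ ρ (-1) g : ℤ) : k) * (χ g : k) = 1 := by
      have := chs_nn χ ρ hχ hρ (-1)
      rw [neg_neg] at this
      exact this
    unfold A5_M pa
    rw [Finset.sum_congr rfl fun g _ => e1 g, ← map_sum, ← Finset.sum_mul, e2, one_mul]
  have h3 : ∀ j : ℕ, ∃ z : C, m b = l ^ j • z := by
    intro j
    induction j with
    | zero => exact ⟨m b, by rw [pow_zero, one_smul]⟩
    | succ j ih =>
      obtain ⟨z, hz⟩ := ih
      obtain ⟨z', hz'⟩ := h1 z
      refine ⟨z', ?_⟩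
      rw [← h2, hz, A5_M_nsmul, hz', smul_smul, ← pow_succ]
  refine A5_tors (m b) ?_ h3
  rw [← map_nsmul, nsmul_eq_mul, CharP.cast_eq_zero, zero_mul, map_zero]

end H55K.Ab
end

-- from Lib.H55K.A.B2
section

/-!
Chunk B2 (S/M). Rules for Lev and PowMod.
PROOFS. Lev l w x means: x / z^l - 1 has order at least 2 at w. lev_mul: (x y)/(z z')^l - 1 = (x/z^l - 1)(y/z'^l) + (y/z'^l - 1), where y/z'^l has valuation 1
(its difference to 1 has valuation < 1). lev_inv: x⁻¹ z^l - 1 = -(x/z^l - 1) * (z^l / x), valuation of z^l/x is 1. lev_pow (x = z^l): x/z^l - 1 = 0. lev_lpow: Lev x iff Lev (x y^l).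
The same for PowMod (< 1 instead of <= exp(-2)). powmod_of_lpow.
-/

open NumberField IsDedekindDomain

namespace H55K.Ab

open H55R

variable {F : Type} [Field F] [NumberField F]

variable {L : Type} [Field L] [NumberField L] {l : ℕ} {w : Pl L}

theorem B2_mul {Γ : Type} [LinearOrderedCommGroupWithZero Γ] (v : Valuation L Γ) {γ : Γ} (hγ : γ < 1)
    {u u' : Lˣ} (h : v ((u : L) - 1) ≤ γ) (h' : v ((u' : L) - 1) ≤ γ) :
    v (((u * u' : Lˣ) : L) - 1) ≤ γ := by
  have h1 : v (u' : L) ≤ 1 := by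
    have e1 : (u' : L) = ((u' : L) - 1) + 1 := by ring
    rw [e1]
    exact v.map_add_le (h'.trans hγ.le) (by rw [map_one])
  have e2 : ((u * u' : Lˣ) : L) - 1 = ((u : L) - 1) * u' + ((u' : L) - 1) := by
    rw [Units.val_mul]
    ring
  rw [e2]
  refine v.map_add_le ?_ h'
  rw [map_mul]
  calc v ((u : L) - 1) * v (u' : L) ≤ γ * 1 := mul_le_mul' h h1
    _ = γ := mul_one γ

theorem B2_inv {Γ : Type} [LinearOrderedCommGroupWithZero Γ] (v : Valuation L Γ) {γ : Γ} (hγ : γ < 1)
    {u : Lˣ} (h : v ((u : L) - 1) ≤ γ) : v (((u⁻¹ : Lˣ) : L) - 1) ≤ γ := by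
  have h1 : v (u : L) = 1 := by
    have e1 : (u : L) = 1 + ((u : L) - 1) := by ring
    rw [e1]
    exact v.map_one_add_of_lt (lt_of_le_of_lt h hγ)
  have e2 : ((u⁻¹ : Lˣ) : L) - 1 = -(((u : L) - 1) * ((u⁻¹ : Lˣ) : L)) := by
    rw [sub_mul, one_mul, Units.mul_inv]
    ring
  have h2 : v ((u⁻¹ : Lˣ) : L) = 1 := by
    have h3 : v ((u : L) * ((u⁻¹ : Lˣ) : L)) = 1 := by rw [Units.mul_inv, map_one]
    rwa [map_mul, h1, one_mul] at h3
  rw [e2, Valuation.map_neg, map_mul, h2, mul_one]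
  exact h

theorem B2_exp : (WithZero.exp (-2 : ℤ) : WithZero (Multiplicative ℤ)) < 1 := by
  rw [← WithZero.exp_zero, WithZero.exp_lt_exp]
  norm_num

theorem B2_rw (x y z z' : Lˣ) : x * y * ((z * z') ^ l)⁻¹ = x * (z ^ l)⁻¹ * (y * (z' ^ l)⁻¹) := by
  rw [mul_pow, mul_inv]
  exact mul_mul_mul_comm _ _ _ _

theorem B2_rw2 (x z : Lˣ) : x⁻¹ * (z⁻¹ ^ l)⁻¹ = (x * (z ^ l)⁻¹)⁻¹ := by
  rw [mul_inv, inv_pow, inv_inv]

theorem lev_mul {x y : Lˣ} (hx : Lev l w x) (hy : Lev l w y) : Lev l w (x * y) := by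
  obtain ⟨z, hz⟩ := hx
  obtain ⟨z', hz'⟩ := hy
  refine ⟨z * z', ?_⟩
  rw [B2_rw]
  exact B2_mul (w.valuation L) B2_exp hz hz'

theorem lev_inv {x : Lˣ} (hx : Lev l w x) : Lev l w x⁻¹ := by
  obtain ⟨z, hz⟩ := hx
  refine ⟨z⁻¹, ?_⟩
  rw [B2_rw2]
  exact B2_inv (w.valuation L) B2_exp hz

theorem lev_pow (z : Lˣ) : Lev l w (z ^ l) := by
  refine ⟨z, ?_⟩
  rw [mul_inv_cancel, Units.val_one, sub_self, map_zero]
  exact zero_le

theorem B2_lt {Γ : Type} [LinearOrderedCommGroupWithZero Γ] (v : Valuation L Γ) {a b : L}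
    (ha : v a < 1) (hb : v b < 1) : max (v a) (v b) < 1 := max_lt ha hb

theorem powMod_mul {x y : Lˣ} (hx : PowMod l w x) (hy : PowMod l w y) : PowMod l w (x * y) := by
  obtain ⟨z, hz⟩ := hx
  obtain ⟨z', hz'⟩ := hy
  refine ⟨z * z', ?_⟩
  rw [B2_rw]
  have h := B2_lt (w.valuation L) hz hz'
  exact lt_of_le_of_lt (B2_mul (w.valuation L) h (le_max_left _ _) (le_max_right _ _)) h

theorem powMod_inv {x : Lˣ} (hx : PowMod l w x) : PowMod l w x⁻¹ := by
  obtain ⟨z, hz⟩ := hx
  refine ⟨z⁻¹, ?_⟩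
  rw [B2_rw2]
  exact lt_of_le_of_lt (B2_inv (w.valuation L) hz le_rfl) hz

theorem powMod_pow (z : Lˣ) : PowMod l w (z ^ l) := by
  refine ⟨z, ?_⟩
  rw [mul_inv_cancel, Units.val_one, sub_self, map_zero]
  exact zero_lt_one

end H55K.Ab
end

-- from Lib.H55K.A.A4
section

/-!
Chunk A4 (M). The dimension lemma. G is commutative because χ is injective.
PROOF by strong induction on n, for all x, y, α, β. Write = for equality up to elements of finite order (they form a subgroup stable under pw, pw_fin).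
Case chs α ≠ 0 or chs β ≠ 0: take γ = β, γ' = α, w = 1: (pw β x)^n = pw β (x^n) = pw β (pw α z) = pw α (pw β z) = (pw α y)^n, so
(pw β x / pw α y)^n has finite order, hence pw β x / pw α y too (n > 0).
Case chs α = chs β = 0: ε = cf χ ρ (-1) (chs ε = 1 by chs_nn), conv ε α = l α', conv ε β = l β' (el_conv), so (pw ε x)^n = pw (conv ε α) z = (pw α' z)^l,
(pw ε y)^n = (pw β' z)^l. If n = l n1 (n1 < n, n1 > 0): ((pw ε x)^n1 / pw α' z)^l has finite order, so (pw ε x)^n1 = pw α' z, the same for y: the induction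
hypothesis for (pw ε x, pw ε y, n1, α', β') gives γ, γ', w; then conv γ ε, conv γ' ε do for x, y (chs_conv, chs ε = 1). If l does not divide n: u n + v l = 1:
pw ε x = (pw ε x)^(u n) (pw ε x)^(v l) = ((pw α' z)^u (pw ε x)^v)^l: take γ = ε, γ' = 0 (pw 0 y = 1, chs 0 = 0).
-/

namespace H55K.Ab

/-- Equality up to elements of finite order. -/
theorem a4_trans {A : Type} [CommGroup A] {x y z : A} (h1 : IsOfFinOrder (x * y⁻¹)) (h2 : IsOfFinOrder (y * z⁻¹)) :
    IsOfFinOrder (x * z⁻¹) := by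
  have h := Subgroup.mul_mem (CommGroup.torsion A) h1 h2
  have e : x * y⁻¹ * (y * z⁻¹) = x * z⁻¹ := by group
  rwa [e] at h

theorem a4_symm {A : Type} [CommGroup A] {x y : A} (h1 : IsOfFinOrder (x * y⁻¹)) : IsOfFinOrder (y * x⁻¹) := by
  have h := Subgroup.inv_mem (CommGroup.torsion A) h1
  have e : (x * y⁻¹)⁻¹ = y * x⁻¹ := by group
  rwa [e] at h

theorem a4_root {A : Type} [CommGroup A] {x : A} {n : ℕ} (hn : 0 < n) (h : IsOfFinOrder (x ^ n)) : IsOfFinOrder x := by
  rw [isOfFinOrder_iff_pow_eq_one] at h ⊢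
  obtain ⟨m, hm, h1⟩ := h
  exact ⟨n * m, Nat.mul_pos hn hm, by rw [pow_mul, h1]⟩

theorem a4_pow {A : Type} [CommGroup A] {x : A} (n : ℤ) (h : IsOfFinOrder x) : IsOfFinOrder (x ^ n) :=
  Subgroup.zpow_mem (CommGroup.torsion A) h n

theorem dim_lemma {G : Type} [Group G] [Fintype G] {A : Type} [CommGroup A]
    (ac : G →* Monoid.End A) {l : ℕ} [Fact l.Prime] {k : Type} [Field k] [Fintype k]
    [DecidableEq k] [CharP k l] (χ : G →* kˣ) (hχ : Function.Bijective χ) (ρ : k →+ ZMod l)
    (hρ : IsRho l ρ) (n : ℕ) (hn : 0 < n) (x y z : A) (α β : G → ℤ)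
    (hx : IsOfFinOrder (x ^ n * (pw ac α z)⁻¹)) (hy : IsOfFinOrder (y ^ n * (pw ac β z)⁻¹)) :
    ∃ (γ γ' : G → ℤ) (w : A), (chs χ γ ≠ 0 ∨ chs χ γ' ≠ 0) ∧
      IsOfFinOrder (pw ac γ x * (pw ac γ' y)⁻¹ * w ^ l) := by
  have hl : l.Prime := Fact.out
  have hc : ∀ a b : G, a * b = b * a := by
    intro a b
    apply hχ.1
    rw [map_mul, map_mul, mul_comm]
  have hε : chs χ (cf χ ρ (-1)) = 1 := by rw [chs_nn χ ρ hχ hρ, neg_neg]
  -- the action respects equality up to torsion
  have hpw : ∀ (δ : G → ℤ) {u v : A}, IsOfFinOrder (u * v⁻¹) → IsOfFinOrder (pw ac δ u * (pw ac δ v)⁻¹) := by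
    intro δ u v h
    have h1 := pw_fin ac δ _ h
    rwa [pw_mul, pw_inv] at h1
  induction n using Nat.strong_induction_on generalizing x y α β with
  | _ n ih =>
    by_cases hαβ : chs χ α ≠ 0 ∨ chs χ β ≠ 0
    · -- the first case
      refine ⟨β, α, 1, hαβ.symm, ?_⟩
      rw [one_pow, mul_one]
      refine a4_root hn ?_
      rw [mul_pow, inv_pow]
      have h1 : IsOfFinOrder (pw ac β x ^ n * (pw ac β (pw ac α z))⁻¹) := by
        have := hpw β hx
        rwa [pw_pow] at this
      have h2 : IsOfFinOrder (pw ac α y ^ n * (pw ac α (pw ac β z))⁻¹) := by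
        have := hpw α hy
        rwa [pw_pow] at this
      have h3 : pw ac β (pw ac α z) = pw ac α (pw ac β z) := by
        rw [← pw_conv, ← pw_conv, conv_comm hc]
      rw [h3] at h1
      exact a4_trans h1 (a4_symm h2)
    · push Not at hαβ
      obtain ⟨hα, hβ⟩ := hαβ
      set ε := cf χ ρ (-1) with hεd
      have hα' : ∃ α' : G → ℤ, conv ε α = fun g => (l : ℤ) * α' g := by
        choose α' h using fun g => el_conv χ ρ α hα g
        exact ⟨α', funext h⟩
      have hβ' : ∃ β' : G → ℤ, conv ε β = fun g => (l : ℤ) * β' g := by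
        choose β' h using fun g => el_conv χ ρ β hβ g
        exact ⟨β', funext h⟩
      obtain ⟨α', hα'⟩ := hα'
      obtain ⟨β', hβ'⟩ := hβ'
      have h1 : IsOfFinOrder (pw ac ε x ^ n * ((pw ac α' z) ^ l)⁻¹) := by
        have := hpw ε hx
        rwa [pw_pow, ← pw_conv, hα', pw_smul, zpow_natCast] at this
      have h2 : IsOfFinOrder (pw ac ε y ^ n * ((pw ac β' z) ^ l)⁻¹) := by
        have := hpw ε hy
        rwa [pw_pow, ← pw_conv, hβ', pw_smul, zpow_natCast] at this
      by_cases hdiv : l ∣ n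
      · obtain ⟨n1, hn1⟩ := hdiv
        have hn1pos : 0 < n1 := by
          rcases Nat.eq_zero_or_pos n1 with h | h
          · rw [h, mul_zero] at hn1
            omega
          · exact h
        have hlt : n1 < n := by
          rw [hn1]
          have := hl.two_le
          nlinarith
        have h3 : IsOfFinOrder ((pw ac ε x) ^ n1 * (pw ac α' z)⁻¹) := by
          refine a4_root hl.pos ?_
          rw [mul_pow, inv_pow, ← pow_mul, mul_comm n1 l, ← hn1]
          exact h1
        have h4 : IsOfFinOrder ((pw ac ε y) ^ n1 * (pw ac β' z)⁻¹) := by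
          refine a4_root hl.pos ?_
          rw [mul_pow, inv_pow, ← pow_mul, mul_comm n1 l, ← hn1]
          exact h2
        obtain ⟨γ, γ', w, h5, h6⟩ := ih n1 hlt hn1pos (pw ac ε x) (pw ac ε y) α' β' h3 h4
        refine ⟨conv γ ε, conv γ' ε, w, ?_, ?_⟩
        · rw [chs_conv, chs_conv, hε, mul_one, mul_one]
          exact h5
        · rw [pw_conv, pw_conv]
          exact h6
      · -- l does not divide n
        have hcop : Nat.Coprime n l := ((Nat.Prime.coprime_iff_not_dvd hl).2 hdiv).symm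
        have hab := Nat.gcd_eq_gcd_ab n l
        rw [hcop.gcd_eq_one] at hab
        set u := Nat.gcdA n l with hu
        set v := Nat.gcdB n l with hv
        set X := pw ac ε x with hX
        set P := pw ac α' z with hP
        refine ⟨ε, 0, (P ^ u * X ^ v)⁻¹, Or.inl (by rw [hε]; exact one_ne_zero), ?_⟩
        have h0 : pw ac 0 y = 1 := by
          unfold pw
          simp
        rw [h0, inv_one, mul_one]
        have h3 := a4_pow u h1
        have e : (X ^ n * ((P ^ l))⁻¹) ^ u = X * ((P ^ u * X ^ v)⁻¹) ^ l := by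
          have e1 : X = X ^ (((n : ℤ) * u + (l : ℤ) * v)) := by
            rw [← hab, Nat.cast_one, zpow_one]
          have e2 : X ^ (((n : ℤ) * u + (l : ℤ) * v)) * ((P ^ u * X ^ v)⁻¹) ^ l = (X ^ n * ((P ^ l))⁻¹) ^ u := by
            rw [zpow_add, zpow_mul, zpow_mul, zpow_natCast, zpow_natCast, mul_zpow, inv_zpow, inv_pow, mul_pow, mul_inv]
            have e3 : (X ^ l) ^ v = (X ^ v) ^ l := by
              rw [← zpow_natCast, ← zpow_natCast, ← zpow_mul, ← zpow_mul, mul_comm]
            have e4 : (P ^ l) ^ u = (P ^ u) ^ l := by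
              rw [← zpow_natCast, ← zpow_natCast, ← zpow_mul, ← zpow_mul, mul_comm]
            rw [e3, e4]
            set a := (X ^ n) ^ u
            set b := (X ^ v) ^ l
            set c := (P ^ u) ^ l
            rw [mul_assoc, mul_comm c⁻¹ b⁻¹, mul_inv_cancel_left]
          rw [← e2, ← e1]
        rw [← e]
        exact h3

end H55K.Ab
end

-- from Lib.H55K.A.B1
section

/-!
Chunk B1 (S/M). Equivariant homomorphisms k → Lˣ modulo l-th powers.
PROOFS. Write x ~ y for: exists z, x = y z^l (an equivalence relation, compatible with products, inverses, powers, gu σ and pw gu α by pw_mul, pw_pow). m induces an additive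
map k → Lˣ/~ with m(χ σ a) ~ gu σ (m a). eq_zero: m(0) ~ m(0)^2. eq_neg, eq_zsmul: from add. eq_pw: m b ^ .. : pw gu α (m b) = prod (gu σ (m b))^(α σ) ~ prod m(χ σ b)^(α σ)
~ m(sum α(σ) χ(σ) b). eta_hom: eta χ ρ (a+b) x: cf χ ρ (a+b) σ = cf χ ρ a σ + cf χ ρ b σ modulo l (ρ additive, ZMod.natCast_zmod_val), so the quotient
of the two sides is prod (gu σ x)^(l t σ) = z^l. eta_equiv: cf χ ρ (χ τ a) σ = cf χ ρ a (τ⁻¹ σ) exactly (χ(τ) χ(σ)⁻¹ = χ(τ⁻¹ σ)⁻¹, k commutative), so
eta χ ρ (χ τ a) x = prod_σ (gu σ x)^(n(τ⁻¹ σ)) = prod_σ' (gu τ (gu σ' x))^(n σ') = gu τ (eta χ ρ a x), z = 1.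
eta_pw: pw gu α (eta χ ρ 1 x) ~ eta χ ρ (chs χ α) x: eq_pw for the homomorphism eta. lpow_of_coprime: u n + v l = 1.
trans_comb: combination a ↦ m(c a) * (m'(c' a))⁻¹ of two equivariant homomorphisms is one (k commutative).
-/

open NumberField IsDedekindDomain

namespace H55K.Ab

open H55R

variable {F : Type} [Field F] [NumberField F]

section b1aux

variable {A : Type} [CommGroup A] {l : ℕ}

/-- Equality up to l-th powers. -/
private def b1R (l : ℕ) (x y : A) : Prop := ∃ z : A, x = y * z ^ l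

private theorem b1_refl (x : A) : b1R l x x := ⟨1, by simp⟩

private theorem b1_symm {x y : A} (h : b1R l x y) : b1R l y x := by
  obtain ⟨z, rfl⟩ := h
  exact ⟨z⁻¹, by simp⟩

private theorem b1_trans {x y w : A} (h : b1R l x y) (h' : b1R l y w) : b1R l x w := by
  obtain ⟨z, rfl⟩ := h
  obtain ⟨v, rfl⟩ := h'
  exact ⟨v * z, by rw [mul_pow, mul_assoc]⟩

private theorem b1_mul {x y x' y' : A} (h : b1R l x y) (h' : b1R l x' y') : b1R l (x * x') (y * y') := by
  obtain ⟨z, rfl⟩ := h
  obtain ⟨v, rfl⟩ := h'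
  exact ⟨z * v, by rw [mul_pow, mul_mul_mul_comm]⟩

private theorem b1_inv {x y : A} (h : b1R l x y) : b1R l x⁻¹ y⁻¹ := by
  obtain ⟨z, rfl⟩ := h
  exact ⟨z⁻¹, by rw [mul_inv, inv_pow]⟩

private theorem b1_zpow {x y : A} (h : b1R l x y) (n : ℤ) : b1R l (x ^ n) (y ^ n) := by
  obtain ⟨z, rfl⟩ := h
  refine ⟨z ^ n, ?_⟩
  rw [mul_zpow, ← zpow_natCast z, ← zpow_natCast (z ^ n), ← zpow_mul, ← zpow_mul, mul_comm n]

private theorem b1_map (f : Monoid.End A) {x y : A} (h : b1R l x y) : b1R l (f x) (f y) := by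
  obtain ⟨z, rfl⟩ := h
  exact ⟨f z, by rw [map_mul, map_pow]⟩

private theorem b1_prod {ι : Type} (s : Finset ι) {f g : ι → A} (h : ∀ i ∈ s, b1R l (f i) (g i)) :
    b1R l (∏ i ∈ s, f i) (∏ i ∈ s, g i) := by
  classical
  induction s using Finset.induction_on with
  | empty => exact b1_refl _
  | insert a s ha ih =>
    rw [Finset.prod_insert ha, Finset.prod_insert ha]
    exact b1_mul (h a (Finset.mem_insert_self a s)) (ih fun i hi => h i (Finset.mem_insert_of_mem hi))

private theorem b1_one {x : A} (h : b1R l x 1) : ∃ z : A, x = z ^ l := by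
  obtain ⟨z, hz⟩ := h
  exact ⟨z, by rw [hz, one_mul]⟩

private theorem b1_of_pow (z : A) : b1R l (z ^ l) 1 := ⟨z, by rw [one_mul]⟩

end b1aux

variable {L : Type} [Field L] [NumberField L] [Algebra F L] {l : ℕ} {k : Type} [Field k]
  {χ : Gal(L/F) →* kˣ} {m : k → Lˣ}

theorem eq_zero (hm : EqHom l χ m) : ∃ z : Lˣ, m 0 = z ^ l := by
  obtain ⟨z, hz⟩ := hm.add 0 0
  rw [add_zero] at hz
  refine ⟨z⁻¹, ?_⟩
  rw [inv_pow]
  refine eq_inv_of_mul_eq_one_left ?_
  have h2 : m 0 * (m 0 * z ^ l) = m 0 * 1 := by rw [mul_one, ← mul_assoc, ← hz]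
  exact mul_left_cancel h2

theorem eq_neg (hm : EqHom l χ m) (a : k) : ∃ z : Lˣ, m (-a) = (m a)⁻¹ * z ^ l := by
  obtain ⟨w, hw⟩ := eq_zero hm
  obtain ⟨z, hz⟩ := hm.add (-a) a
  rw [neg_add_cancel, hw] at hz
  refine ⟨w * z⁻¹, ?_⟩
  rw [mul_pow, hz, inv_pow, mul_inv_cancel_right, mul_comm (m (-a)), inv_mul_cancel_left]

theorem eq_zsmul (hm : EqHom l χ m) (n : ℤ) (a : k) : ∃ z : Lˣ, m (n • a) = m a ^ n * z ^ l := by
  have h0 : b1R l (m 0) 1 := by
    obtain ⟨w, hw⟩ := eq_zero hm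
    rw [hw]
    exact b1_of_pow w
  change b1R l (m (n • a)) (m a ^ n)
  induction n using Int.induction_on with
  | zero =>
    rw [zero_smul, zpow_zero]
    exact h0
  | succ i ih =>
    rw [add_smul, one_smul, zpow_add, zpow_one]
    exact b1_trans (hm.add _ _) (b1_mul ih (b1_refl _))
  | pred i ih =>
    rw [sub_smul, one_smul, sub_eq_add_neg ((-(i : ℤ)) • a), zpow_sub, zpow_one]
    exact b1_trans (hm.add _ _) (b1_mul ih (eq_neg hm a))

theorem eq_sum (hm : EqHom l χ m) {ι : Type} (s : Finset ι) (f : ι → k) :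
    ∃ z : Lˣ, m (∑ i ∈ s, f i) = (∏ i ∈ s, m (f i)) * z ^ l := by
  classical
  change b1R l (m (∑ i ∈ s, f i)) (∏ i ∈ s, m (f i))
  induction s using Finset.induction_on with
  | empty =>
    rw [Finset.sum_empty, Finset.prod_empty]
    obtain ⟨w, hw⟩ := eq_zero hm
    rw [hw]
    exact b1_of_pow w
  | insert a s ha ih =>
    rw [Finset.sum_insert ha, Finset.prod_insert ha]
    exact b1_trans (hm.add _ _) (b1_mul (b1_refl _) ih)

theorem eq_pw (hm : EqHom l χ m) (α : Gal(L/F) → ℤ) (b : k) :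
    ∃ z : Lˣ, pw gu α (m b) = m (chs χ α * b) * z ^ l := by
  have e : chs χ α * b = ∑ g, α g • ((χ g : k) * b) := by
    unfold chs
    rw [Finset.sum_mul]
    exact Finset.sum_congr rfl fun g _ => by rw [zsmul_eq_mul, mul_assoc]
  change b1R l (pw gu α (m b)) (m (chs χ α * b))
  refine b1_symm ?_
  rw [e]
  refine b1_trans (eq_sum hm _ _) ?_
  unfold pw
  refine b1_prod _ fun g _ => ?_
  exact b1_trans (eq_zsmul hm (α g) ((χ g : k) * b)) (b1_zpow (hm.equiv g b) (α g))

theorem trans_comb (hm : EqHom l χ m) {m' : k → Lˣ} (hm' : EqHom l χ m') (c c' : k) :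
    EqHom l χ fun a => m (c * a) * (m' (c' * a))⁻¹ := by
  constructor
  · intro a b
    change b1R l (m (c * (a + b)) * (m' (c' * (a + b)))⁻¹) ((m (c * a) * (m' (c' * a))⁻¹) * (m (c * b) * (m' (c' * b))⁻¹))
    rw [mul_add, mul_add]
    have h1 : b1R l (m (c * a + c * b)) (m (c * a) * m (c * b)) := hm.add _ _
    have h2 : b1R l (m' (c' * a + c' * b)) (m' (c' * a) * m' (c' * b)) := hm'.add _ _
    have h3 := b1_mul h1 (b1_inv h2)
    have e : m (c * a) * (m' (c' * a))⁻¹ * (m (c * b) * (m' (c' * b))⁻¹) =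
        m (c * a) * m (c * b) * (m' (c' * a) * m' (c' * b))⁻¹ := by
      rw [mul_inv, mul_mul_mul_comm]
    rw [e]
    exact h3
  · intro σ a
    change b1R l (m (c * (χ σ * a)) * (m' (c' * (χ σ * a)))⁻¹) (gu σ (m (c * a) * (m' (c' * a))⁻¹))
    rw [map_mul, map_inv, mul_left_comm c, mul_left_comm c']
    exact b1_mul (hm.equiv σ _) (b1_inv (hm'.equiv σ _))

theorem eta_hom [Fact l.Prime] (ρ : k →+ ZMod l) (x : Lˣ) :
    EqHom l χ fun a => eta χ ρ a x := by
  constructor
  · intro a b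
    have hcf : ∀ g, ∃ t : ℤ, cf χ ρ (a + b) g = cf χ ρ a g + cf χ ρ b g + t * l := by
      intro g
      have h : ((cf χ ρ a g + cf χ ρ b g : ℤ) : ZMod l) = ((cf χ ρ (a + b) g : ℤ) : ZMod l) := by
        unfold cf
        push_cast
        simp only [ZMod.natCast_zmod_val]
        rw [← map_add, ← add_mul]
      rw [ZMod.intCast_eq_intCast_iff_dvd_sub] at h
      obtain ⟨t, ht⟩ := h
      exact ⟨t, by rw [mul_comm t, ← ht]; ring⟩
    choose t ht using hcf
    refine ⟨∏ g, (gu g x) ^ t g, ?_⟩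
    change pw gu (cf χ ρ (a + b)) x = pw gu (cf χ ρ a) x * pw gu (cf χ ρ b) x * _
    unfold pw
    rw [← Finset.prod_mul_distrib, ← Finset.prod_pow, ← Finset.prod_mul_distrib]
    refine Finset.prod_congr rfl fun g _ => ?_
    rw [ht g, zpow_add, zpow_add, zpow_mul, zpow_natCast]
  · intro τ a
    refine ⟨1, ?_⟩
    rw [one_pow, mul_one]
    change pw gu (cf χ ρ (χ τ * a)) x = gu τ (pw gu (cf χ ρ a) x)
    unfold pw
    rw [map_prod]
    refine (Fintype.prod_equiv (Equiv.mulLeft τ) _ _ fun g => ?_).symm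
    simp only [Equiv.coe_mulLeft]
    rw [map_zpow, map_mul]
    have e : cf χ ρ ((χ τ : k) * a) (τ * g) = cf χ ρ a g := by
      unfold cf
      congr 3
      rw [map_mul, mul_inv, Units.val_mul]
      have h : (χ τ : k) * (((χ τ)⁻¹ : kˣ) : k) = 1 := Units.mul_inv _
      linear_combination (a * (((χ g)⁻¹ : kˣ) : k)) * h
    rw [e]
    rfl

theorem lpow_of_coprime {A : Type} [CommGroup A] (n : ℤ) (x : A) (h : IsCoprime n (l : ℤ))
    (hx : ∃ z : A, x ^ n = z ^ l) : ∃ z : A, x = z ^ l := by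
  obtain ⟨u, v, huv⟩ := h
  obtain ⟨z, hz⟩ := hx
  refine ⟨z ^ u * x ^ v, ?_⟩
  rw [mul_pow, ← zpow_natCast (z ^ u), ← zpow_mul, mul_comm u, zpow_mul, zpow_natCast, ← hz, ← zpow_mul,
    ← zpow_natCast (x ^ v), ← zpow_mul, ← zpow_add, mul_comm n, huv, zpow_one]

end H55K.Ab
end

-- from Lib.H55K.A.B4
section

/-!
Chunk B4 (M). No torsion: an equivariant homomorphism k → Lˣ/l whose values are torsion modulo l-th powers is trivial, if the Galois group does not act on the l-th
roots of unity in L (if there are any) through χ.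
PROOF. Choose τ a of finite order with m a = τ a z^l; τ is again EqHom. The elements of finite order of Lˣ form a finite cyclic group μ (NumberField: rootsOfUnity / torsion;
a subgroup of Lˣ of finite order is cyclic; finiteness: NumberField.Units torsion, or Units.finite_of.. for CommGroup.torsion) of order N, generated by g.
If l does not divide N: every element of μ is an l-th power in μ (lpow_of_coprime with n = N, x^N = 1 = 1^l). If l | N: τ a = g^(t a), t a in Z modulo N. Let K0 = {a : τ a is an l-th power in Lˣ}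
= {a : l | t a} (if g^t = z^l then z is of finite order, z = g^s, t = l s modulo N). K0 is a subgroup of k stable under multiplication by χ σ for all σ, i.e. by all units of k
(χ bijective), so K0 = k or K0 = 0. If K0 = k: done. If K0 = 0: a ↦ t a mod l is an injective additive map k → ZMod l, so t 1 ≠ 0. Let ζ = g^(N/l), a primitive
l-th root of unity. For σ and n with (n : k) = χ σ: τ(χ σ * 1) = τ(n • 1) ~ τ(1)^n and ~ gu σ (τ 1). gu σ g = g^r for some r (g generates); then gu σ (τ 1) = g^(r t 1), and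
g^(r t 1) ~ g^(n t 1) gives r t1 = n t1 mod l, r = n mod l, hence gu σ ζ = g^(r N/l) = g^(n N/l) = ζ^n. This holds for all σ, n: contradiction to hcyc.
-/

open NumberField IsDedekindDomain

namespace H55K.Ab

open H55R

variable {F : Type} [Field F] [NumberField F]

theorem b4_finite (L : Type) [Field L] [NumberField L] : Finite (CommGroup.torsion Lˣ) := by
  have h := NumberField.Embeddings.finite_of_norm_le L ℂ 1
  have h2 : Set.Finite ((CommGroup.torsion Lˣ : Set Lˣ)) := by
    refine Set.Finite.of_finite_image (f := fun x : Lˣ => (x : L)) (h.subset ?_) (fun x _ y _ hxy => Units.ext hxy)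
    rintro _ ⟨x, hx, rfl⟩
    obtain ⟨n, hn, h1⟩ := isOfFinOrder_iff_pow_eq_one.1 hx
    have h2 : (x : L) ^ n = 1 := by rw [← Units.val_pow_eq_pow_val, h1, Units.val_one]
    refine ⟨IsIntegral.of_pow hn (by rw [h2]; exact isIntegral_one), fun φ => ?_⟩
    have h3 : (φ (x : L)) ^ n = 1 := by rw [← map_pow, h2, map_one]
    exact (Complex.norm_eq_one_of_pow_eq_one h3 hn.ne').le
  exact h2.to_subtype

theorem torsion_triv {L : Type} [Field L] [NumberField L] [Algebra F L] {l : ℕ} [Fact l.Prime]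
    {k : Type} [Field k] [CharP k l] {χ : Gal(L/F) →* kˣ} (hχ : Function.Bijective χ)
    (hcyc : ∀ ζ : Lˣ, IsPrimitiveRoot ζ l →
      ¬ ∀ (σ : Gal(L/F)) (n : ℕ), (n : k) = χ σ → gu σ ζ = ζ ^ n)
    {m : k → Lˣ} (hm : EqHom l χ m)
    (ht : ∀ a, ∃ τ z : Lˣ, IsOfFinOrder τ ∧ m a = τ * z ^ l) (a : k) : ∃ z : Lˣ, m a = z ^ l := by
  have hl : l.Prime := Fact.out
  have hfin := b4_finite L
  choose τ z hτ hz using ht
  obtain ⟨g, hg⟩ := IsCyclic.exists_generator (α := CommGroup.torsion Lˣ)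
  set N := Nat.card (CommGroup.torsion Lˣ) with hN
  have hN0 : 0 < N := Nat.card_pos
  have hgN : orderOf (g : Lˣ) = N := by
    rw [Subgroup.orderOf_coe, orderOf_eq_card_of_forall_mem_zpowers hg]
  -- every torsion element is a power of g
  have hpow : ∀ x : Lˣ, IsOfFinOrder x → ∃ t : ℤ, x = (g : Lˣ) ^ t := by
    intro x hx
    obtain ⟨t, h⟩ := hg ⟨x, hx⟩
    exact ⟨t, (congrArg (Subtype.val) h).symm⟩
  by_cases hlN : l ∣ N
  · -- powers of g which are l-th powers
    have key : ∀ t : ℤ, (∃ w : Lˣ, (g : Lˣ) ^ t = w ^ l) → (l : ℤ) ∣ t := by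
      rintro t ⟨w, hw⟩
      have hwf : IsOfFinOrder w := by
        have h1 : IsOfFinOrder ((g : Lˣ) ^ t) := Subgroup.zpow_mem (CommGroup.torsion Lˣ) g.2 t
        rw [hw] at h1
        rw [isOfFinOrder_iff_pow_eq_one] at h1 ⊢
        obtain ⟨q, hq, h2⟩ := h1
        exact ⟨l * q, Nat.mul_pos hl.pos hq, by rw [pow_mul, h2]⟩
      obtain ⟨s, hs⟩ := hpow w hwf
      have h1 : (g : Lˣ) ^ (t - s * l) = 1 := by
        rw [zpow_sub, hw, hs, zpow_mul, zpow_natCast, mul_inv_cancel]
      have h2 : (N : ℤ) ∣ t - s * l := by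
        rw [← hgN]
        exact orderOf_dvd_iff_zpow_eq_one.2 h1
      have h3 : (l : ℤ) ∣ t - s * l := (Int.natCast_dvd_natCast.2 hlN).trans h2
      have h4 := dvd_add h3 (dvd_mul_left (l : ℤ) s)
      rwa [sub_add_cancel] at h4
    choose t htt using fun a => hpow (τ a) (hτ a)
    -- additivity
    have hadd : ∀ a b : k, ((t (a + b) : ℤ) : ZMod l) = (t a : ZMod l) + (t b : ZMod l) := by
      intro a b
      obtain ⟨w, hw⟩ := hm.add a b
      have h1 : (l : ℤ) ∣ t (a + b) - (t a + t b) := by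
        refine key _ ⟨z a * z b * w * (z (a + b))⁻¹, ?_⟩
        rw [hz, hz a, hz b, htt, htt a, htt b] at hw
        rw [zpow_sub, zpow_add, mul_pow, mul_pow, mul_pow, inv_pow, mul_inv_eq_iff_eq_mul]
        have e : (g : Lˣ) ^ t (a + b) = (g : Lˣ) ^ t a * z a ^ l * ((g : Lˣ) ^ t b * z b ^ l) * w ^ l * (z (a + b) ^ l)⁻¹ := by
          rw [← hw, mul_inv_cancel_right]
        rw [e]
        ac_rfl
      have h2 := (ZMod.intCast_zmod_eq_zero_iff_dvd _ l).2 h1
      push_cast at h2
      linear_combination h2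
    set ψ : k →+ ZMod l := AddMonoidHom.mk' (fun a => ((t a : ℤ) : ZMod l)) hadd with hψ
    have hψa : ∀ a, ψ a = ((t a : ℤ) : ZMod l) := fun a => rfl
    choose r hr using fun σ : Gal(L/F) => hpow (gu σ (g : Lˣ)) (MonoidHom.isOfFinOrder (gu σ : Lˣ →* Lˣ) g.2)
    have hequiv : ∀ (σ : Gal(L/F)) (a : k), ψ (χ σ * a) = (r σ : ZMod l) * ψ a := by
      intro σ a
      obtain ⟨w, hw⟩ := hm.equiv σ a
      have h1 : (l : ℤ) ∣ t (χ σ * a) - r σ * t a := by
        refine key _ ⟨gu σ (z a) * w * (z (χ σ * a))⁻¹, ?_⟩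
        rw [hz, hz a, htt, htt a, map_mul, map_zpow, map_pow, hr, ← zpow_mul] at hw
        rw [zpow_sub, mul_pow, mul_pow, inv_pow, mul_inv_eq_iff_eq_mul]
        have e : (g : Lˣ) ^ t (χ σ * a) = (g : Lˣ) ^ (r σ * t a) * gu σ (z a) ^ l * w ^ l * (z (χ σ * a) ^ l)⁻¹ := by
          rw [← hw, mul_inv_cancel_right]
        rw [e]
        ac_rfl
      have h2 := (ZMod.intCast_zmod_eq_zero_iff_dvd _ l).2 h1
      push_cast at h2
      rw [hψa, hψa]
      linear_combination h2
    by_cases h1 : ψ 1 = 0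
    · -- everything is trivial
      have h2 : ψ a = 0 := by
        by_cases ha : a = 0
        · rw [ha, map_zero]
        · obtain ⟨σ, hσ⟩ := hχ.2 (Units.mk0 a ha)
          have h3 := hequiv σ 1
          rw [hσ, h1, mul_zero, Units.val_mk0, mul_one] at h3
          exact h3
      rw [hψa, ZMod.intCast_zmod_eq_zero_iff_dvd] at h2
      obtain ⟨s, hs⟩ := h2
      refine ⟨(g : Lˣ) ^ s * z a, ?_⟩
      rw [hz a, htt a, hs, mul_pow, ← zpow_natCast ((g : Lˣ) ^ s), ← zpow_mul, mul_comm s]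
    · exfalso
      obtain ⟨M, hM⟩ := hlN
      have hM0 : 0 < M := by
        rcases Nat.eq_zero_or_pos M with h | h
        · rw [h, mul_zero] at hM
          omega
        · exact h
      have hprim : IsPrimitiveRoot ((g : Lˣ) ^ M) l := by
        have h2 : IsPrimitiveRoot (g : Lˣ) N := by
          rw [← hgN]
          exact IsPrimitiveRoot.orderOf _
        exact h2.pow hN0 (by rw [hM, mul_comm])
      refine hcyc _ hprim fun σ n hn => ?_
      have h2 := hequiv σ 1
      rw [mul_one, ← hn] at h2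
      have h3 : ψ (n : k) = (n : ZMod l) * ψ 1 := by
        have h4 : (n : k) = n • (1 : k) := by rw [nsmul_eq_mul, mul_one]
        rw [h4, map_nsmul, nsmul_eq_mul]
      rw [h3] at h2
      have h4 : (n : ZMod l) = (r σ : ZMod l) := mul_right_cancel₀ h1 h2
      have h5 : (l : ℤ) ∣ (r σ) - n := by
        rw [← ZMod.intCast_zmod_eq_zero_iff_dvd]
        push_cast
        rw [h4, sub_self]
      obtain ⟨c, hc⟩ := h5
      rw [map_pow, hr]
      have h6 : r σ = (n : ℤ) + l * c := by linarith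
      have h7 : (((g : Lˣ) ^ M) ^ (l : ℤ)) = 1 := by
        rw [zpow_natCast, hprim.pow_eq_one]
      calc ((g : Lˣ) ^ r σ) ^ M = ((g : Lˣ) ^ M) ^ (r σ) := by
            rw [← zpow_natCast, ← zpow_natCast, ← zpow_mul, ← zpow_mul, mul_comm]
        _ = ((g : Lˣ) ^ M) ^ n := by
            rw [h6, zpow_add, zpow_mul, h7, one_zpow, mul_one, zpow_natCast]
  · have h1 : ∃ w : Lˣ, τ a = w ^ l := by
      refine lpow_of_coprime (l := l) (N : ℤ) (τ a) ?_ ⟨1, ?_⟩
      · rw [Nat.isCoprime_iff_coprime]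
        exact ((Nat.Prime.coprime_iff_not_dvd hl).2 hlN).symm
      · obtain ⟨t, ht⟩ := hpow (τ a) (hτ a)
        rw [one_pow, ht, ← zpow_mul, mul_comm, zpow_mul, zpow_natCast, ← hgN, pow_orderOf_eq_one, one_zpow]
    obtain ⟨w, hw⟩ := h1
    exact ⟨w * z a, by rw [hz a, hw, mul_pow]⟩

end H55K.Ab
end

-- from Lib.H55N.B4
section

open NumberField IsDedekindDomain

namespace H55N

open H55B H55C

variable {K : Type} [Field K] [NumberField K] [Algebra F K] {m : ℕ}

/-! Chunk B4 (M). Summation by parts: existence of G.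
For every i, c_i is a prime ideal with residue field of p_i elements (absNorm = p_i prime), w_i not in c_i. So for x in O_K there
is a unique t_i(x) in {1..p_i} with x - t_i(x) w_i in c_i (the residues t w_i, t = 1..p_i, are distinct: (t-t') w_i in
c_i implies t - t' in c_i, c_i meets Z in p_i Z; pigeonhole). Then t_i(x + w_i) - t_i(x) = 1 if t_i(x) < p_i, and = 1 - p_i if t_i(x) = p_i, i.e. iff x
in c_i (p_i w_i in c_i). So t_i(x+w_i) - t_i(x) = 1 - p_i [x in c_i], the i-th factor of g; and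
t_i(x + w_k) = t_i(x) for k <> i since w_k in c_i (Dirs.oth). Let G(x) = prod_i t_i(x) (complex numbers, bounded by prod p_i). Then
prod_i (t_i(x+w_i) - t_i(x)) = sum_T (-1)^(|I|-|T|) G(x + w_T), |I| = 2(m+1) even, so g(x) = sum_T (-1)^|T| G(x+w_T)
(Finset.prod_sub or induction). For h absolutely summable on X: sum_X g h = sum_T (-1)^|T| sum_{x in X} G(x+w_T) h(x) =
sum_T (-1)^|T| sum_{x in X} G(x) h(x - w_T) (translation by w_T in I is a bijection of X; all sums are absolutely convergent as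
G is bounded) = sum_X G Dif h. -/

omit [Algebra F K] in
/-- The normalised residue map of a prime ideal of degree one. -/
theorem B4_map (c : Ideal (𝓞 K)) (p : ℕ) (hp : p.Prime) (hc : Ideal.absNorm c = p) (w : 𝓞 K)
    (hw : w ∉ c) : ∃ u : 𝓞 K → ZMod p, (∀ x y, u (x + y) = u x + u y) ∧ (∀ x, u x = 0 ↔ x ∈ c) ∧
      u w = 1 := by
  classical
  have hp' : Fact p.Prime := ⟨hp⟩
  have hcard : Nat.card (𝓞 K ⧸ c) = p := by
    rw [← hc, Ideal.absNorm_apply, Submodule.cardQuot_apply]
  have hfin : Finite (𝓞 K ⧸ c) := Nat.finite_of_card_ne_zero (by rw [hcard]; exact hp.ne_zero)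
  have hft : Fintype (𝓞 K ⧸ c) := Fintype.ofFinite _
  have hcard2 : Fintype.card (𝓞 K ⧸ c) = p := by
    rw [← Nat.card_eq_fintype_card, hcard]
  let e : ZMod p ≃+* (𝓞 K ⧸ c) := ZMod.ringEquivOfPrime _ hp hcard2
  let φ : 𝓞 K → ZMod p := fun x => e.symm (Ideal.Quotient.mk c x)
  have hφ : ∀ x, φ x = 0 ↔ x ∈ c := by
    intro x
    change e.symm (Ideal.Quotient.mk c x) = 0 ↔ x ∈ c
    rw [map_eq_zero_iff e.symm e.symm.injective, Ideal.Quotient.eq_zero_iff_mem]
  have hw0 : φ w ≠ 0 := fun h => hw ((hφ w).1 h)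
  refine ⟨fun x => φ x * (φ w)⁻¹, ?_, ?_, ?_⟩
  · intro x y
    have : φ (x + y) = φ x + φ y := by
      change e.symm (Ideal.Quotient.mk c (x + y)) = _
      rw [map_add, map_add]
    simp only [this, add_mul]
  · intro x
    simp only [mul_eq_zero, inv_eq_zero, hw0, or_false]
    exact hφ x
  · exact mul_inv_cancel₀ hw0

theorem B4_val (p : ℕ) (hp : p.Prime) (a : ZMod p) :
    ((a.val : ℕ) : ℂ) - (((a - 1).val : ℕ) : ℂ) = if a = 0 then 1 - (p : ℂ) else 1 := by
  have hp' : Fact p.Prime := ⟨hp⟩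
  obtain ⟨n, rfl⟩ : ∃ n, p = n + 1 := ⟨p - 1, by have := hp.one_lt; omega⟩
  split_ifs with h
  · rw [h, zero_sub, ZMod.val_neg_one, ZMod.val_zero]
    push_cast
    ring
  · have h1 : (1 : ZMod (n + 1)).val = 1 := by
      have := ZMod.val_one (n + 1)
      exact this
    have h2 : 1 ≤ a.val := by
      rcases Nat.eq_zero_or_pos a.val with h' | h'
      · exact absurd ((ZMod.val_eq_zero a).1 h') h
      · exact h'
    rw [ZMod.val_sub (by rw [h1]; exact h2), h1, Nat.cast_sub h2]
    push_cast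
    ring

theorem gspec_exists (D : Ctx K m) (hD : D.Ok) (A : Fin (m + 1) → K)
    (w : Fin (m + 1) × Fin 2 → 𝓞 K) (h : D.Dirs A w) : ∃ G : 𝓞 K → ℂ, D.GSpec w G := by
  classical
  choose u hu_add hu_zero hu_one using fun i => B4_map (D.c i) (D.p i) (hD.smooth.prime i)
    (hD.smooth.norm i) (w i) (h.self i)
  -- the functions t_i
  let t : Fin (m + 1) × Fin 2 → 𝓞 K → ℂ := fun i x => (((u i x - 1).val : ℕ) : ℂ)
  have hbd : ∀ i x, ‖t i x‖ ≤ (D.p i : ℝ) := by
    intro i x
    have hpi : Fact (D.p i).Prime := ⟨hD.smooth.prime i⟩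
    change ‖(((u i x - 1).val : ℕ) : ℂ)‖ ≤ _
    rw [Complex.norm_natCast]
    exact_mod_cast (ZMod.val_lt _).le
  have hself : ∀ i x, t i (x + w i) - t i x = if x ∈ D.c i then 1 - (D.p i : ℂ) else 1 := by
    intro i x
    change (((u i (x + w i) - 1).val : ℕ) : ℂ) - (((u i x - 1).val : ℕ) : ℂ) = _
    rw [hu_add, hu_one, add_sub_cancel_right, B4_val _ (hD.smooth.prime i)]
    by_cases hx : x ∈ D.c i
    · rw [if_pos hx, if_pos ((hu_zero i x).2 hx)]
    · rw [if_neg hx, if_neg (fun h' => hx ((hu_zero i x).1 h'))]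
  have hoth : ∀ i k x, k ≠ i → t i (x + w k) = t i x := by
    intro i k x hk
    change (((u i (x + w k) - 1).val : ℕ) : ℂ) = (((u i x - 1).val : ℕ) : ℂ)
    rw [hu_add, (hu_zero i (w k)).2 (h.oth k i (Ne.symm hk)), add_zero]
  let G : 𝓞 K → ℂ := fun x => ∏ i, t i x
  -- values at shifted points
  have hshift : ∀ (T : Finset (Fin (m + 1) × Fin 2)) (i : Fin (m + 1) × Fin 2) (x : 𝓞 K),
      t i (x + ∑ k ∈ T, w k) = if i ∈ T then t i (x + w i) else t i x := by
    intro T
    induction T using Finset.induction_on with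
    | empty => intro i x; simp
    | insert a T ha ih =>
      intro i x
      rw [Finset.sum_insert ha, ← add_assoc, ih i (x + w a)]
      by_cases hia : i = a
      · subst hia
        rw [if_neg ha, if_pos (Finset.mem_insert_self _ _)]
      · by_cases hiT : i ∈ T
        · rw [if_pos hiT, if_pos (Finset.mem_insert_of_mem hiT)]
          rw [show x + w a + w i = (x + w i) + w a by ring, hoth i a _ (Ne.symm hia)]
        · rw [if_neg hiT, if_neg (by simp [hia, hiT]), hoth i a _ (Ne.symm hia)]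
  have hG : ∀ (T : Finset (Fin (m + 1) × Fin 2)) (x : 𝓞 K), G (x + ∑ k ∈ T, w k) =
      (∏ i ∈ T, t i (x + w i)) * ∏ i ∈ Finset.univ \ T, t i x := by
    intro T x
    change ∏ i, t i (x + ∑ k ∈ T, w k) = _
    rw [← Finset.prod_sdiff (Finset.subset_univ T), mul_comm]
    congr 1
    · exact Finset.prod_congr rfl fun i hi => by rw [hshift, if_pos hi]
    · exact Finset.prod_congr rfl fun i hi => by
        rw [hshift, if_neg (Finset.mem_sdiff.1 hi).2]
  have hg : ∀ x, D.g x = ∑ T ∈ (Finset.univ : Finset (Fin (m + 1) × Fin 2)).powerset,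
      (-1) ^ T.card * G (x + ∑ k ∈ T, w k) := by
    intro x
    have h1 : D.g x = ∏ i, (t i (x + w i) - t i x) := by
      change ∏ i, _ = _
      refine Finset.prod_congr rfl fun i _ => ?_
      rw [hself]
    rw [h1]
    simp only [sub_eq_add_neg]
    rw [Finset.prod_add]
    refine Finset.sum_congr rfl fun T _ => ?_
    rw [hG, Finset.prod_neg]
    have hcard : (Finset.univ \ T).card + T.card = (m + 1) * 2 := by
      rw [Finset.card_sdiff_add_card_eq_card (Finset.subset_univ T)]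
      simp
    have hpar : (-1 : ℂ) ^ (Finset.univ \ T).card = (-1) ^ T.card := by
      have h2 : (-1 : ℂ) ^ ((Finset.univ \ T).card + T.card) = 1 := by
        rw [hcard, mul_comm, pow_mul]
        norm_num
      rw [pow_add] at h2
      have h3 : (-1 : ℂ) ^ T.card * (-1) ^ T.card = 1 := by
        rw [← mul_pow]; norm_num
      calc (-1 : ℂ) ^ (Finset.univ \ T).card
          = (-1) ^ (Finset.univ \ T).card * ((-1) ^ T.card * (-1) ^ T.card) := by
            rw [h3, mul_one]
        _ = ((-1) ^ (Finset.univ \ T).card * (-1) ^ T.card) * (-1) ^ T.card := by ring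
        _ = (-1) ^ T.card := by rw [h2, one_mul]
    rw [hpar]
    ring
  refine ⟨G, ⟨∏ i, (D.p i : ℝ), ?_⟩, ?_⟩
  · intro x
    change ‖∏ i, t i x‖ ≤ _
    rw [norm_prod]
    exact Finset.prod_le_prod (fun i _ => norm_nonneg _) fun i _ => hbd i x
  · intro f hf
    have hGb : ∀ x, ‖G x‖ ≤ ∏ i, (D.p i : ℝ) := by
      intro x
      change ‖∏ i, t i x‖ ≤ _
      rw [norm_prod]
      exact Finset.prod_le_prod (fun i _ => norm_nonneg _) fun i _ => hbd i x
    have hmemT : ∀ T : Finset (Fin (m + 1) × Fin 2), ∑ k ∈ T, w k ∈ D.I := fun T =>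
      D.I.sum_mem fun k _ => h.mem k
    -- translation
    let tr : Finset (Fin (m + 1) × Fin 2) → D.X ≃ D.X := fun T =>
      { toFun := fun x => ⟨x.1 + ∑ k ∈ T, w k, D.X_add x.2 (hmemT T)⟩
        invFun := fun x => ⟨x.1 - ∑ k ∈ T, w k, D.X_sub x.2 (hmemT T)⟩
        left_inv := fun x => by
          apply Subtype.ext
          change x.1 + ∑ k ∈ T, w k - ∑ k ∈ T, w k = x.1
          ring
        right_inv := fun x => by
          apply Subtype.ext
          change x.1 - ∑ k ∈ T, w k + ∑ k ∈ T, w k = x.1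
          ring }
    have hs1 : ∀ T : Finset (Fin (m + 1) × Fin 2),
        Summable fun x : D.X => (-1 : ℂ) ^ T.card * G (x.1 + ∑ k ∈ T, w k) * f x := by
      intro T
      refine Summable.of_norm_bounded (g := fun x : D.X => (∏ i, (D.p i : ℝ)) * ‖f x‖)
        (hf.mul_left _) fun x => ?_
      rw [norm_mul, norm_mul, norm_pow, norm_neg, norm_one, one_pow, one_mul]
      exact mul_le_mul_of_nonneg_right (hGb _) (norm_nonneg _)
    have hs2 : ∀ T : Finset (Fin (m + 1) × Fin 2),
        Summable fun x : D.X => G x.1 * ((-1 : ℂ) ^ T.card * f (x.1 - ∑ k ∈ T, w k)) := by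
      intro T
      have := (Equiv.summable_iff (tr T).symm).2 (hs1 T)
      refine this.congr fun x => ?_
      change (-1 : ℂ) ^ T.card * G (x.1 - ∑ k ∈ T, w k + ∑ k ∈ T, w k) *
          f (x.1 - ∑ k ∈ T, w k) = G x.1 * ((-1 : ℂ) ^ T.card * f (x.1 - ∑ k ∈ T, w k))
      rw [sub_add_cancel]
      ring
    calc ∑' x : D.X, D.g x * f x
        = ∑' x : D.X, ∑ T ∈ (Finset.univ : Finset (Fin (m + 1) × Fin 2)).powerset,
            (-1 : ℂ) ^ T.card * G (x.1 + ∑ k ∈ T, w k) * f x := by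
          refine tsum_congr fun x => ?_
          rw [hg, Finset.sum_mul]
      _ = ∑ T ∈ (Finset.univ : Finset (Fin (m + 1) × Fin 2)).powerset,
            ∑' x : D.X, (-1 : ℂ) ^ T.card * G (x.1 + ∑ k ∈ T, w k) * f x :=
          Summable.tsum_finsetSum fun T _ => hs1 T
      _ = ∑ T ∈ (Finset.univ : Finset (Fin (m + 1) × Fin 2)).powerset,
            ∑' x : D.X, G x.1 * ((-1 : ℂ) ^ T.card * f (x.1 - ∑ k ∈ T, w k)) := by
          refine Finset.sum_congr rfl fun T _ => ?_
          rw [← Equiv.tsum_eq (tr T).symm]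
          refine tsum_congr fun x => ?_
          change (-1 : ℂ) ^ T.card * G (x.1 - ∑ k ∈ T, w k + ∑ k ∈ T, w k) *
              f (x.1 - ∑ k ∈ T, w k) = _
          rw [sub_add_cancel]
          ring
      _ = ∑' x : D.X, ∑ T ∈ (Finset.univ : Finset (Fin (m + 1) × Fin 2)).powerset,
            G x.1 * ((-1 : ℂ) ^ T.card * f (x.1 - ∑ k ∈ T, w k)) :=
          (Summable.tsum_finsetSum fun T _ => hs2 T).symm
      _ = ∑' x : D.X, G x * Dif w Finset.univ f x := by
          refine tsum_congr fun x => ?_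
          rw [Dif, Finset.mul_sum]

end H55N
end

-- from Lib.H55N.C4
section

namespace H55N

/-! Chunk C4 (M). The floor labelling. For a in the box and π: if a_k < N - 1 for some k = π(j), then the label does not change from the vertex j to the
vertex j+1 of the simplex: kv a π (j+1) = kv a π j + e_k and the coordinate k goes from a_k to a_k + 1 <= N - 1, so its quotient by N
stays 0; the other coordinates are equal. So J = 0 by hJ (with j : Fin m). If a = (N-1, .., N-1): (N - 1 + ε)/N = ε for ε = 0, 1, so L0 (kv a π j / N) =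
L0 (kv 0 π j), the term of CN 1 (Fin 1 has one element). -/

theorem c4_kv {m : ℕ} (a : Fin m → ℤ) (π : Equiv.Perm (Fin m)) (j : Fin m) (k' : Fin m)
    (h : k' ≠ π j) : kv a π ((j : ℕ) + 1) k' = kv a π j k' := by
  unfold kv
  congr 1
  have h1 : ((π.symm k' : Fin m) : ℕ) ≠ j := by
    intro h2
    apply h
    have := Fin.ext h2
    rw [← this, Equiv.apply_symm_apply]
  by_cases h3 : ((π.symm k' : Fin m) : ℕ) < j
  · rw [if_pos h3, if_pos (by omega)]
  · rw [if_neg h3, if_neg (by omega)]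

theorem CN_floor {Λ : Type} {m : ℕ} (N : ℕ) (hN : 0 < N) (J : (Fin (m + 1) → Λ) → ℂ)
    (hJ : ∀ l : Fin (m + 1) → Λ, (∃ j : Fin m, l j.castSucc = l j.succ) → J l = 0)
    (L0 : (Fin m → ℤ) → Λ) : CN N J (fun a => L0 fun k => a k / (N : ℤ)) = CN 1 J L0 := by
  unfold CN
  have hN1 : N - 1 < N := by omega
  rw [Finset.sum_eq_single (fun _ => (⟨N - 1, hN1⟩ : Fin N)),
    Finset.sum_eq_single (fun _ => (0 : Fin 1))]
  · refine Finset.sum_congr rfl fun π _ => ?_
    congr 2
    funext j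
    show L0 _ = L0 _
    congr 1
    funext k
    unfold kv
    simp only [Fin.val_zero, Nat.cast_zero, zero_add]
    have hc : ((N - 1 : ℕ) : ℤ) = (N : ℤ) - 1 := by
      rw [Nat.cast_sub (by omega)]
      simp
    rw [hc]
    have hN' : (0 : ℤ) < N := by exact_mod_cast hN
    split_ifs with h
    · rw [sub_add_cancel, Int.ediv_self hN'.ne']
    · rw [add_zero]
      exact Int.ediv_eq_zero_of_lt (by omega) (by omega)
  · intro b _ hb
    exact absurd (funext fun k => Subsingleton.elim _ _) hb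
  · intro h
    exact absurd (Finset.mem_univ _) h
  · intro a _ ha
    refine Finset.sum_eq_zero fun π _ => ?_
    rw [hJ, mul_zero]
    obtain ⟨k, hk⟩ := Function.ne_iff.1 ha
    have hk' : (a k : ℕ) + 1 < N := by
      have h1 := (a k).2
      have h2 : (a k : ℕ) ≠ N - 1 := fun h => hk (Fin.ext h)
      omega
    refine ⟨π.symm k, ?_⟩
    simp only [Fin.val_castSucc, Fin.val_succ]
    congr 1
    funext k'
    by_cases hkk : k' = k
    · subst hkk
      unfold kv
      have e1 : ∀ ε : ℤ, 0 ≤ ε → ε ≤ 1 → (((a k' : ℕ) : ℤ) + ε) / (N : ℤ) = 0 := by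
        intro ε h0 h1
        apply Int.ediv_eq_zero_of_lt
        · positivity
        · have : (((a k' : ℕ) : ℤ)) + 1 < N := by exact_mod_cast hk'
          omega
      rw [e1 _ (by split_ifs <;> norm_num) (by split_ifs <;> norm_num),
        e1 _ (by split_ifs <;> norm_num) (by split_ifs <;> norm_num)]
    · rw [c4_kv _ π (π.symm k) k' (by rw [Equiv.apply_symm_apply]; exact hkk)]
  · intro h
    exact absurd (Finset.mem_univ _) h

end H55N
end

-- from Lib.H55N.I0
section

namespace H55N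

theorem Int2.mul {x y : ℂ} (hx : Int2 x) (hy : Int2 y) : Int2 (x * y) := by
  intro V hV
  rw [map_mul]
  exact mul_le_one' (hx V hV) (hy V hV)

theorem Int2.add {x y : ℂ} (hx : Int2 x) (hy : Int2 y) : Int2 (x + y) := by
  intro V hV
  exact (V.valuation.map_add x y).trans (max_le (hx V hV) (hy V hV))

theorem Int2.neg {x : ℂ} (hx : Int2 x) : Int2 (-x) := by
  intro V hV
  rw [Valuation.map_neg]
  exact hx V hV

theorem Int2.zero : Int2 0 := by
  intro V _
  rw [map_zero]
  exact zero_le'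

theorem Int2.one : Int2 1 := by
  intro V _
  rw [map_one]

theorem Int2.intCast (n : ℤ) : Int2 (n : ℂ) := by
  intro V _
  exact (V.valuation_le_one_iff _).2 (intCast_mem V n)

theorem Int2.natCast (n : ℕ) : Int2 (n : ℂ) := by
  intro V _
  exact (V.valuation_le_one_iff _).2 (natCast_mem V n)

theorem Int2.sum {κ : Type*} (s : Finset κ) (f : κ → ℂ) (h : ∀ i ∈ s, Int2 (f i)) :
    Int2 (∑ i ∈ s, f i) := by
  intro V hV
  exact V.valuation.map_sum_le fun i hi => h i hi V hV

theorem Int2.prod {κ : Type*} (s : Finset κ) (f : κ → ℂ) (h : ∀ i ∈ s, Int2 (f i)) :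
    Int2 (∏ i ∈ s, f i) := by
  classical
  induction s using Finset.induction_on with
  | empty => simpa using Int2.one
  | insert a s ha ih =>
    rw [Finset.prod_insert ha]
    exact (h a (Finset.mem_insert_self _ _)).mul (ih fun i hi => h i (Finset.mem_insert_of_mem hi))

theorem Int2.pow {x : ℂ} (hx : Int2 x) (n : ℕ) : Int2 (x ^ n) := by
  intro V hV
  rw [map_pow]
  exact pow_le_one' (hx V hV) n

theorem Int2.div_odd {x : ℂ} (hx : Int2 x) (n : ℕ) (hn : Odd n) : Int2 (x / n) := by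
  intro V hV
  rw [map_div₀, H55B.val_odd V hV n hn, div_one]
  exact hx V hV

theorem Int2.det {n : ℕ} (M : Matrix (Fin n) (Fin n) ℂ) (h : ∀ i j, Int2 (M i j)) :
    Int2 M.det := by
  rw [Matrix.det_apply']
  refine Int2.sum _ _ fun π _ => ?_
  exact (Int2.intCast _).mul (Int2.prod _ _ fun i _ => h _ _)

end H55N
end

-- from Lib.H55N.C5
section

namespace H55N

/-! Chunk C5 (M). The determinant of the points of a small Kuhn simplex. v = kv a π, row j = tt lm (v_j/N).
tt lm (v_j/N) i = tt lm (a/N) i * exp(sum_{l<j} lm i (π l) / N), and prod_i tt lm (a/N) i = exp(sum_k (a_k/N) sum_i lm i k) = 1 (h0).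
So det = det E_N, E_N(j,i) = exp(sum_{l<j} lm i (π l)/N) (Matrix.det_mul_row / det_mul_column), which does not depend on a. Subtract from each row the previous one
(Matrix.det_eq_of_forall_row_eq_smul_add_pred): det E_N = det E'_N with E'(0,i) = 1, E'(j+1,i) = E_N(j,i) (exp(lm i (π j)/N) - 1).
N^m det E'_N = det of the matrix with rows 1 and N E'(j+1,i) (Matrix.det_mul_column..., multiply the m rows by N), whose entries tend to lm i (π j) (N(exp(x/N)-1) -> x);
the limit of the determinant is det(1; lm i (π j)) = sign π * Delta lm (Matrix.det_transpose, permute columns with Equiv extending π to Fin (m+1) fixing 0: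
Equiv.Perm.decomposeFin or Matrix.det_succ_column_zero and det_permute; or use Matrix.det_apply). η π N := N^m sign π det E_N. -/

/-- Partial sums of the logarithms. -/
private noncomputable def C5S {m : ℕ} (lm : Fin (m + 1) → Fin m → ℝ) (π : Equiv.Perm (Fin m))
    (i : Fin (m + 1)) (j : ℕ) : ℝ := ∑ l : Fin m, if (l : ℕ) < j then lm i (π l) else 0

private lemma C5S_zero {m : ℕ} (lm : Fin (m + 1) → Fin m → ℝ) (π : Equiv.Perm (Fin m))
    (i : Fin (m + 1)) : C5S lm π i 0 = 0 := by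
  unfold C5S
  simp

private lemma C5S_succ {m : ℕ} (lm : Fin (m + 1) → Fin m → ℝ) (π : Equiv.Perm (Fin m))
    (i : Fin (m + 1)) (j : Fin m) : C5S lm π i (j + 1) = C5S lm π i j + lm i (π j) := by
  unfold C5S
  have h : lm i (π j) = ∑ l : Fin m, if l = j then lm i (π l) else 0 := by
    rw [Finset.sum_ite_eq' Finset.univ j]
    simp
  rw [h, ← Finset.sum_add_distrib]
  refine Finset.sum_congr rfl fun l _ => ?_
  by_cases h1 : (l : ℕ) < j
  · have h2 : (l : ℕ) < j + 1 := by omega
    have h3 : l ≠ j := by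
      intro h
      rw [h] at h1
      omega
    simp [h1, h2, h3]
  · by_cases h4 : l = j
    · subst h4
      simp
    · have h5 : ¬ (l : ℕ) < j + 1 := by
        intro h
        apply h4
        apply Fin.ext
        omega
      simp [h1, h4, h5]

/-- The matrix E_N. -/
private noncomputable def C5E {m : ℕ} (lm : Fin (m + 1) → Fin m → ℝ) (π : Equiv.Perm (Fin m))
    (N : ℕ) : Matrix (Fin (m + 1)) (Fin (m + 1)) ℝ :=
  Matrix.of fun j i => Real.exp (C5S lm π i j / N)

/-- The matrix with the differences multiplied by N. -/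
private noncomputable def C5F {m : ℕ} (lm : Fin (m + 1) → Fin m → ℝ) (π : Equiv.Perm (Fin m))
    (N : ℕ) : Matrix (Fin (m + 1)) (Fin (m + 1)) ℝ :=
  Matrix.of fun j i => (Fin.cons 1 (fun j' : Fin m => (N : ℝ) *
    (Real.exp (C5S lm π i j' / N) * (Real.exp (lm i (π j') / N) - 1))) : Fin (m + 1) → ℝ) j

private lemma C5_tt {m : ℕ} (lm : Fin (m + 1) → Fin m → ℝ) (N : ℕ) (a : Fin m → ℤ)
    (π : Equiv.Perm (Fin m)) (i : Fin (m + 1)) (j : ℕ) :
    tt lm (fun k => (kv a π j k : ℝ) / N) i =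
      Real.exp ((∑ k, a k * lm i k) / N) * Real.exp (C5S lm π i j / N) := by
  unfold tt
  rw [← Real.exp_add]
  congr 1
  have h : C5S lm π i j = ∑ k : Fin m, if ((π.symm k : Fin m) : ℕ) < j then lm i k else 0 := by
    unfold C5S
    rw [← Equiv.sum_comp π (fun k => if ((π.symm k : Fin m) : ℕ) < j then lm i k else 0)]
    refine Finset.sum_congr rfl fun l _ => ?_
    rw [Equiv.symm_apply_apply]
  rw [h, Finset.sum_div, Finset.sum_div, ← Finset.sum_add_distrib]
  refine Finset.sum_congr rfl fun k _ => ?_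
  unfold kv
  by_cases h1 : ((π.symm k : Fin m) : ℕ) < j
  · simp [h1]
    ring
  · simp [h1]
    ring

private lemma C5_det {m : ℕ} (lm : Fin (m + 1) → Fin m → ℝ) (h0 : ∀ j, ∑ i, lm i j = 0) (N : ℕ)
    (a : Fin m → ℤ) (π : Equiv.Perm (Fin m)) :
    Matrix.det (Matrix.of fun j i : Fin (m + 1) => tt lm (fun k => (kv a π j k : ℝ) / N) i) =
      (C5E lm π N).det := by
  have h1 : (Matrix.of fun j i : Fin (m + 1) => tt lm (fun k => (kv a π j k : ℝ) / N) i) =
      Matrix.of fun j i : Fin (m + 1) =>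
        (fun i : Fin (m + 1) => Real.exp ((∑ k, a k * lm i k) / N)) i * C5E lm π N j i := by
    ext j i
    simp only [Matrix.of_apply, C5E]
    exact C5_tt lm N a π i j
  rw [h1, Matrix.det_mul_row]
  have h2 : ∏ i : Fin (m + 1), Real.exp ((∑ k, a k * lm i k) / N) = 1 := by
    rw [← Real.exp_sum, ← Finset.sum_div, Finset.sum_comm]
    have h3 : ∑ k : Fin m, ∑ i : Fin (m + 1), (a k : ℝ) * lm i k = 0 := by
      refine Finset.sum_eq_zero fun k _ => ?_
      rw [← Finset.mul_sum, h0, mul_zero]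
    rw [h3]
    simp
  rw [h2, one_mul]

private lemma C5_det2 {m : ℕ} (lm : Fin (m + 1) → Fin m → ℝ) (N : ℕ)
    (π : Equiv.Perm (Fin m)) :
    (C5F lm π N).det = (N : ℝ) ^ m * (C5E lm π N).det := by
  have h1 : (C5E lm π N).det = (Matrix.of fun j i : Fin (m + 1) =>
      (Fin.cons 1 (fun j' : Fin m =>
    (Real.exp (C5S lm π i j' / N) * (Real.exp (lm i (π j') / N) - 1))) :
      Fin (m + 1) → ℝ) j).det := by
    apply Matrix.det_eq_of_forall_row_eq_smul_add_pred (fun _ => 1)
    · intro i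
      simp [C5E, C5S_zero]
    · intro j i
      simp only [C5E, Matrix.of_apply, Fin.cons_succ, Fin.val_succ, Fin.val_castSucc]
      rw [C5S_succ, add_div, Real.exp_add]
      ring
  rw [h1]
  have h2 : C5F lm π N = Matrix.of fun j i : Fin (m + 1) =>
      (fun j : Fin (m + 1) => (Fin.cons 1 (fun _ : Fin m => (N : ℝ)) : Fin (m + 1) → ℝ) j) j *
      (Matrix.of fun j i : Fin (m + 1) =>
      (Fin.cons 1 (fun j' : Fin m =>
    (Real.exp (C5S lm π i j' / N) * (Real.exp (lm i (π j') / N) - 1))) :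
      Fin (m + 1) → ℝ) j) j i := by
    ext j i
    simp only [C5F, Matrix.of_apply]
    refine Fin.cases ?_ (fun j' => ?_) j
    · simp
    · simp
  rw [h2, Matrix.det_mul_column]
  congr 1
  rw [Fin.prod_univ_succ]
  simp

private lemma C5_lim (x : ℝ) :
    Filter.Tendsto (fun N : ℕ => (N : ℝ) * (Real.exp (x / N) - 1)) Filter.atTop (nhds x) := by
  have h1 : HasDerivAt (fun t : ℝ => Real.exp (x * t)) x 0 := by
    have h := ((hasDerivAt_id (0 : ℝ)).const_mul x).exp
    simpa using h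
  have h2 := h1.tendsto_slope_zero_right
  have h3 : Filter.Tendsto (fun N : ℕ => ((N : ℝ))⁻¹) Filter.atTop (nhdsWithin 0 (Set.Ioi 0)) := by
    rw [tendsto_nhdsWithin_iff]
    refine ⟨tendsto_inv_atTop_nhds_zero_nat, ?_⟩
    filter_upwards [Filter.eventually_gt_atTop 0] with N hN
    simp only [Set.mem_Ioi]
    positivity
  have h4 := h2.comp h3
  refine h4.congr fun N => ?_
  simp only [Function.comp_apply, inv_inv, zero_add, mul_zero, Real.exp_zero, smul_eq_mul]
  rfl

private lemma C5_lim2 (x : ℝ) :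
    Filter.Tendsto (fun N : ℕ => Real.exp (x / N)) Filter.atTop (nhds 1) := by
  have h1 : Filter.Tendsto (fun N : ℕ => x / (N : ℝ)) Filter.atTop (nhds 0) :=
    tendsto_const_div_atTop_nhds_zero_nat x
  have h2 := (Real.continuous_exp.tendsto 0).comp h1
  rw [Real.exp_zero] at h2
  exact h2

private lemma C5_detlim {m : ℕ} (lm : Fin (m + 1) → Fin m → ℝ) (π : Equiv.Perm (Fin m)) :
    Filter.Tendsto (fun N : ℕ => (C5F lm π N).det) Filter.atTop
      (nhds (Matrix.det (Matrix.of fun j i : Fin (m + 1) =>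
        (Fin.cons 1 (fun j' : Fin m => lm i (π j')) : Fin (m + 1) → ℝ) j))) := by
  have h1 : Continuous fun M : Matrix (Fin (m + 1)) (Fin (m + 1)) ℝ => M.det :=
    Continuous.matrix_det continuous_id
  refine (h1.tendsto _).comp ?_
  refine tendsto_pi_nhds.mpr fun j => tendsto_pi_nhds.mpr fun i => ?_
  simp only [C5F, Matrix.of_apply]
  refine Fin.cases ?_ (fun j' => ?_) j
  · simp
  · simp only [Fin.cons_succ]
    have h2 := (C5_lim2 (C5S lm π i j')).mul (C5_lim (lm i (π j')))
    rw [one_mul] at h2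
    refine h2.congr fun N => ?_
    ring

private lemma C5_limdet {m : ℕ} (lm : Fin (m + 1) → Fin m → ℝ) (π : Equiv.Perm (Fin m)) :
    Matrix.det (Matrix.of fun j i : Fin (m + 1) =>
        (Fin.cons 1 (fun j' : Fin m => lm i (π j')) : Fin (m + 1) → ℝ) j) =
      ((Equiv.Perm.sign π : ℤ) : ℝ) * Delta lm := by
  rw [← Matrix.det_transpose]
  have h1 : (Matrix.of fun j i : Fin (m + 1) =>
        (Fin.cons 1 (fun j' : Fin m => lm i (π j')) : Fin (m + 1) → ℝ) j).transpose =
      (Matrix.of fun i j : Fin (m + 1) => (Fin.cons 1 (lm i) : Fin (m + 1) → ℝ) j).submatrix id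
        (Equiv.Perm.decomposeFin.symm (0, π)) := by
    ext i j
    simp only [Matrix.transpose_apply, Matrix.of_apply, Matrix.submatrix_apply, id]
    refine Fin.cases ?_ (fun j' => ?_) j
    · simp
    · simp
  rw [h1, Matrix.det_permute', Equiv.Perm.decomposeFin.symm_sign]
  simp [Delta]

theorem det_asym (m : ℕ) (lm : Fin (m + 1) → Fin m → ℝ) (h0 : ∀ j, ∑ i, lm i j = 0) :
    ∃ η : Equiv.Perm (Fin m) → ℕ → ℝ,
      (∀ π, Filter.Tendsto (η π) Filter.atTop (nhds (Delta lm))) ∧
      ∀ N : ℕ, 0 < N → ∀ (a : Fin m → ℤ) (π : Equiv.Perm (Fin m)),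
        ((Equiv.Perm.sign π : ℤ) : ℝ) * Matrix.det (Matrix.of fun j i : Fin (m + 1) =>
          tt lm (fun k => (kv a π j k : ℝ) / N) i) = η π N / (N : ℝ) ^ m := by
  refine ⟨fun π N => ((Equiv.Perm.sign π : ℤ) : ℝ) * (C5F lm π N).det, fun π => ?_,
    fun N hN a π => ?_⟩
  · have h1 := (C5_detlim lm π).const_mul ((Equiv.Perm.sign π : ℤ) : ℝ)
    rw [C5_limdet] at h1
    have h2 : ((Equiv.Perm.sign π : ℤ) : ℝ) * (((Equiv.Perm.sign π : ℤ) : ℝ) * Delta lm) =
        Delta lm := by
      rw [← mul_assoc, ← Int.cast_mul, ← Units.val_mul, Int.units_mul_self]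
      simp
    rw [h2] at h1
    exact h1
  · have hN' : (N : ℝ) ≠ 0 := by
      have : (0 : ℝ) < N := by exact_mod_cast hN
      exact this.ne'
    rw [C5_det lm h0]
    show _ = ((Equiv.Perm.sign π : ℤ) : ℝ) * (C5F lm π N).det / (N : ℝ) ^ m
    rw [C5_det2]
    field_simp

end H55N
end

-- from Lib.H55N.C6
section

namespace H55N

open MeasureTheory

/-! Chunk C6 (M). Riemann sums. The points kv a π j / N differ from a/N by at most 1/N in each coordinate and lie in [0, 2]^m. Φ is uniformly continuous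
on the compact set of families of points of [0,2]^m; so for ε > 0 and N large |Φ(kv a π j/N) - Φ(fun _ => z)| <= ε for all z in the cube
a/N + [0,1/N]^m. The cubes a/N + [0,1/N)^m, a in the box, partition [0,1)^m, each of volume N^(-m); hence |N^(-m) sum_a Φ(..) - int_[0,1)^m Φ(z)| <= ε.
(Or use BoxIntegral.unitPartition.tendsto_tsum_div_pow_atTop_integral.) -/

/-- the half open unit cube -/
def C6_box (m : ℕ) : Set (Fin m → ℝ) := Set.univ.pi fun _ => Set.Ico (0 : ℝ) 1

/-- the small cubes -/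
def C6_cube (m N : ℕ) (a : Fin m → Fin N) : Set (Fin m → ℝ) :=
  Set.univ.pi fun k => Set.Ico (((a k : ℕ) : ℝ) / N) ((((a k : ℕ) : ℝ) + 1) / N)

theorem C6_mem_cube {m N : ℕ} (hN : 0 < N) (a : Fin m → Fin N) (z : Fin m → ℝ) :
    z ∈ C6_cube m N a ↔ ∀ k, ⌊(N : ℝ) * z k⌋ = ((a k : ℕ) : ℤ) := by
  have hN' : (0 : ℝ) < N := by exact_mod_cast hN
  simp only [C6_cube, Set.mem_pi, Set.mem_univ, true_implies, Set.mem_Ico]
  refine forall_congr' (fun k => ?_)
  rw [Int.floor_eq_iff, div_le_iff₀ hN', lt_div_iff₀ hN', mul_comm (z k)]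
  push_cast
  rfl

theorem C6_union {m N : ℕ} (hN : 0 < N) : C6_box m = ⋃ a : Fin m → Fin N, C6_cube m N a := by
  have hN' : (0 : ℝ) < N := by exact_mod_cast hN
  ext z
  rw [Set.mem_iUnion]
  constructor
  · intro hz
    have h1 : ∀ k, 0 ≤ z k ∧ z k < 1 := fun k => hz k (Set.mem_univ k)
    have h2 : ∀ k, 0 ≤ ⌊(N : ℝ) * z k⌋ := fun k =>
      Int.floor_nonneg.2 (mul_nonneg hN'.le (h1 k).1)
    have h3 : ∀ k, ⌊(N : ℝ) * z k⌋ < (N : ℤ) := by
      intro k
      rw [Int.floor_lt]
      have := mul_lt_mul_of_pos_left (h1 k).2 hN'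
      simpa using this
    refine ⟨fun k => ⟨⌊(N : ℝ) * z k⌋.toNat, by have := h2 k; have := h3 k; omega⟩, ?_⟩
    rw [C6_mem_cube hN]
    intro k
    simp only
    rw [Int.toNat_of_nonneg (h2 k)]
  · rintro ⟨a, ha⟩
    rw [C6_mem_cube hN] at ha
    intro k _
    have h1 := ha k
    rw [Int.floor_eq_iff] at h1
    have h2 : (((a k : ℕ) : ℤ) : ℝ) + 1 ≤ N := by
      have : (a k : ℕ) + 1 ≤ N := (a k).isLt
      exact_mod_cast this
    have h3 : (0 : ℝ) ≤ (((a k : ℕ) : ℤ) : ℝ) := by positivity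
    constructor
    · by_contra h
      rw [not_le] at h
      nlinarith
    · by_contra h
      rw [not_lt] at h
      nlinarith

theorem C6_disj {m N : ℕ} (hN : 0 < N) :
    Pairwise (Function.onFun Disjoint (C6_cube m N)) := by
  intro a b hab
  rw [Function.onFun, Set.disjoint_left]
  intro z hz hz'
  rw [C6_mem_cube hN] at hz hz'
  apply hab
  funext k
  have := (hz k).symm.trans (hz' k)
  exact Fin.ext (by exact_mod_cast this)

theorem C6_meas {m N : ℕ} (a : Fin m → Fin N) : MeasurableSet (C6_cube m N a) :=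
  MeasurableSet.univ_pi fun _ => measurableSet_Ico

theorem C6_vol {m N : ℕ} (hN : 0 < N) (a : Fin m → Fin N) :
    volume.real (C6_cube m N a) = 1 / (N : ℝ) ^ m := by
  have hN' : (0 : ℝ) < N := by exact_mod_cast hN
  rw [Measure.real, C6_cube, Real.volume_pi_Ico_toReal]
  · have : ∀ k : Fin m, (((a k : ℕ) : ℝ) + 1) / N - ((a k : ℕ) : ℝ) / N = 1 / N := by
      intro k; field_simp; ring
    rw [Finset.prod_congr rfl (fun k _ => this k), Finset.prod_const, Finset.card_univ,
      Fintype.card_fin, div_pow, one_pow]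
  · intro k
    have h1 : ((a k : ℕ) : ℝ) ≤ ((a k : ℕ) : ℝ) + 1 := by linarith
    exact div_le_div_of_nonneg_right h1 hN'.le

/-- the step function -/
noncomputable def C6_pt (m : ℕ) (π : Equiv.Perm (Fin m)) (N : ℕ) (z : Fin m → ℝ) :
    Fin (m + 1) → Fin m → ℝ :=
  fun j k => ((kv (fun k => ⌊(N : ℝ) * z k⌋) π j k : ℤ) : ℝ) / N

theorem C6_pt_near {m : ℕ} (π : Equiv.Perm (Fin m)) {N : ℕ} (hN : 0 < N) (z : Fin m → ℝ)
    (j : Fin (m + 1)) (k : Fin m) : |C6_pt m π N z j k - z k| ≤ 1 / N := by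
  have hN' : (0 : ℝ) < N := by exact_mod_cast hN
  have h1 : ((kv (fun k => ⌊(N : ℝ) * z k⌋) π j k : ℤ) : ℝ) ≤ N * z k + 1 ∧
      N * z k - 1 ≤ ((kv (fun k => ⌊(N : ℝ) * z k⌋) π j k : ℤ) : ℝ) := by
    have h2 := Int.floor_le ((N : ℝ) * z k)
    have h3 := (Int.sub_one_lt_floor ((N : ℝ) * z k)).le
    simp only [kv]
    split_ifs
    · push_cast
      constructor <;> linarith
    · push_cast
      constructor <;> linarith
  have h4 : C6_pt m π N z j k - z k =
      (((kv (fun k => ⌊(N : ℝ) * z k⌋) π j k : ℤ) : ℝ) - N * z k) / N := by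
    rw [C6_pt]
    field_simp
  rw [h4, abs_div, abs_of_pos hN']
  refine div_le_div_of_nonneg_right ?_ hN'.le
  rw [abs_le]
  constructor <;> linarith [h1.1, h1.2]

theorem C6_pt_mem {m : ℕ} (π : Equiv.Perm (Fin m)) (N : ℕ) (z : Fin m → ℝ) (hz : z ∈ C6_box m)
    (j : Fin (m + 1)) (k : Fin m) : C6_pt m π N z j k ∈ Set.Icc (-2 : ℝ) 2 := by
  rcases Nat.eq_zero_or_pos N with h0 | h0
  · subst h0
    simp [C6_pt]
  · have h1 := C6_pt_near π h0 z j k
    have h2 : 0 ≤ z k ∧ z k < 1 := hz k (Set.mem_univ k)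
    have h3 : (1 : ℝ) / N ≤ 1 := by
      rw [div_le_one (by exact_mod_cast h0)]
      exact_mod_cast h0
    rw [abs_le] at h1
    constructor <;> linarith [h1.1, h1.2, h2.1, h2.2]

theorem C6_pt_tendsto {m : ℕ} (π : Equiv.Perm (Fin m)) (z : Fin m → ℝ) :
    Filter.Tendsto (fun N : ℕ => C6_pt m π N z) Filter.atTop (nhds (fun _ => z)) := by
  rw [tendsto_pi_nhds]
  intro j
  rw [tendsto_pi_nhds]
  intro k
  rw [tendsto_iff_norm_sub_tendsto_zero]
  refine squeeze_zero' (Filter.Eventually.of_forall (fun _ => norm_nonneg _)) ?_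
    tendsto_one_div_atTop_nhds_zero_nat
  filter_upwards [Filter.eventually_gt_atTop 0] with N hN
  rw [Real.norm_eq_abs]
  exact C6_pt_near π hN z j k

theorem C6_measurable {m : ℕ} (Φ : (Fin (m + 1) → Fin m → ℝ) → ℂ) (π : Equiv.Perm (Fin m))
    (N : ℕ) : Measurable (fun z : Fin m → ℝ => Φ (C6_pt m π N z)) := by
  have h1 : Measurable (fun z : Fin m → ℝ => (fun k => ⌊(N : ℝ) * z k⌋ : Fin m → ℤ)) := by
    refine measurable_pi_lambda _ (fun k => ?_)
    exact Int.measurable_floor.comp ((measurable_pi_apply k).const_mul _)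
  have h2 : Measurable (fun b : Fin m → ℤ =>
      Φ (fun j k => ((kv b π j k : ℤ) : ℝ) / N)) := Measurable.of_discrete
  exact h2.comp h1

theorem C6_integral {m : ℕ} (Φ : (Fin (m + 1) → Fin m → ℝ) → ℂ) (π : Equiv.Perm (Fin m))
    {N : ℕ} (hN : 0 < N) : ∫ z in C6_box m, Φ (C6_pt m π N z) =
      (∑ a : Fin m → Fin N,
      Φ (fun j k => (kv (fun k => ((a k : ℕ) : ℤ)) π j k : ℝ) / N)) / (N : ℂ) ^ m := by
  have hc : ∀ a : Fin m → Fin N, ∀ z ∈ C6_cube m N a, Φ (C6_pt m π N z) =
      Φ (fun j k => (kv (fun k => ((a k : ℕ) : ℤ)) π j k : ℝ) / N) := by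
    intro a z hz
    rw [C6_mem_cube hN] at hz
    have h9 : (fun k => ⌊(N : ℝ) * z k⌋) = fun k => ((a k : ℕ) : ℤ) := funext hz
    refine congrArg Φ ?_
    funext j k
    unfold C6_pt
    rw [h9]
  have hvol : ∀ a : Fin m → Fin N, volume (C6_cube m N a) ≠ ⊤ := by
    intro a h
    have h1 := C6_vol hN a
    rw [Measure.real, h] at h1
    have : (0 : ℝ) < 1 / (N : ℝ) ^ m := by
      have : (0 : ℝ) < N := by exact_mod_cast hN
      positivity
    rw [ENNReal.toReal_top] at h1
    linarith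
  rw [C6_union hN, integral_iUnion_fintype (fun a => C6_meas a) (C6_disj hN)]
  · rw [Finset.sum_div]
    refine Finset.sum_congr rfl (fun a _ => ?_)
    rw [setIntegral_congr_fun (C6_meas a) (hc a), setIntegral_const, C6_vol hN a]
    rw [Complex.real_smul]
    push_cast
    ring
  · intro a
    refine (integrableOn_congr_fun (hc a) (C6_meas a)).2 ?_
    exact integrableOn_const (hvol a)

theorem riemann_sum (m : ℕ) (Φ : (Fin (m + 1) → Fin m → ℝ) → ℂ) (hΦ : Continuous Φ)
    (π : Equiv.Perm (Fin m)) : Filter.Tendsto (fun N : ℕ => (∑ a : Fin m → Fin N,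
      Φ (fun j k => (kv (fun k => ((a k : ℕ) : ℤ)) π j k : ℝ) / N)) / (N : ℂ) ^ m) Filter.atTop
      (nhds (∫ z in Set.Icc (0 : Fin m → ℝ) 1, Φ (fun _ => z))) := by
  have h1 : ∫ z in Set.Icc (0 : Fin m → ℝ) 1, Φ (fun _ => z) =
      ∫ z in C6_box m, Φ (fun _ => z) := by
    refine setIntegral_congr_set ?_
    exact (Measure.univ_pi_Ico_ae_eq_Icc (μ := fun _ : Fin m => (volume : Measure ℝ))
      (f := (0 : Fin m → ℝ)) (g := 1)).symm
  rw [h1]
  have hfin : volume (C6_box m) ≠ ⊤ := by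
    have h2 : volume (C6_box m) ≤ volume (Set.Icc (0 : Fin m → ℝ) 1) := by
      refine measure_mono ?_
      intro z hz
      exact ⟨fun k => (hz k (Set.mem_univ k)).1, fun k => (hz k (Set.mem_univ k)).2.le⟩
    exact ne_top_of_le_ne_top (isCompact_Icc.measure_lt_top).ne h2
  have hK : IsCompact {x : Fin (m + 1) → Fin m → ℝ | ∀ j, x j ∈
      {y : Fin m → ℝ | ∀ k, y k ∈ Set.Icc (-2 : ℝ) 2}} := by
    refine isCompact_pi_infinite (fun j => ?_)
    exact isCompact_pi_infinite (fun k => isCompact_Icc)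
  obtain ⟨C, hC⟩ := hK.exists_bound_of_continuousOn hΦ.continuousOn
  have hmeas : MeasurableSet (C6_box m) := MeasurableSet.univ_pi fun _ => measurableSet_Ico
  have h3 : Filter.Tendsto (fun N : ℕ => ∫ z in C6_box m, Φ (C6_pt m π N z)) Filter.atTop
      (nhds (∫ z in C6_box m, Φ (fun _ => z))) := by
    refine tendsto_integral_of_dominated_convergence (fun _ => C) ?_ ?_ ?_ ?_
    · intro N
      exact (C6_measurable Φ π N).aestronglyMeasurable
    · exact integrableOn_const hfin
    · intro N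
      rw [ae_restrict_iff' hmeas]
      exact Filter.Eventually.of_forall (fun z hz => hC _ (fun j k => C6_pt_mem π N z hz j k))
    · refine Filter.Eventually.of_forall (fun z => ?_)
      exact (hΦ.tendsto _).comp (C6_pt_tendsto π z)
  refine h3.congr' ?_
  filter_upwards [Filter.eventually_gt_atTop 0] with N hN
  exact C6_integral Φ π hN

end H55N
end

-- from Lib.H55N.C7
section

namespace H55N

open MeasureTheory

/-! Chunk C7 (S/M). The limit of the alternating sums. Exchange the sums over a and π; for fixed π the sum over a is η π N / N^m * sum_a Φ(kv a π j / N) with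
Φ(z_0..z_m) = B(fun j => tt lm (z_j)) (det_asym; continuous because tt lm z > 0 and z -> tt lm z is continuous), which tends to Delta * int Φ(z,..,z)
(riemann_sum); there are m! permutations (Fintype.card_perm). -/

theorem riemann (m : ℕ) (lm : Fin (m + 1) → Fin m → ℝ) (h0 : ∀ j, ∑ i, lm i j = 0)
    (B : (Fin (m + 1) → Fin (m + 1) → ℝ) → ℂ) (hB : ContinuousOn B {t | ∀ j i, 0 < t j i}) :
    Filter.Tendsto (fun N : ℕ => ∑ a : Fin m → Fin N, ∑ π : Equiv.Perm (Fin m),
      ((Equiv.Perm.sign π : ℤ) : ℂ) * (((Matrix.det (Matrix.of fun j i : Fin (m + 1) =>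
        tt lm (fun k => (kv (fun k => ((a k : ℕ) : ℤ)) π j k : ℝ) / N) i) : ℝ) : ℂ) *
        B fun j => tt lm (fun k => (kv (fun k => ((a k : ℕ) : ℤ)) π j k : ℝ) / N))) Filter.atTop
      (nhds ((m.factorial : ℂ) * ((Delta lm : ℝ) : ℂ) *
        ∫ z in Set.Icc (0 : Fin m → ℝ) 1, B (fun _ => tt lm z))) := by
  obtain ⟨η, hη, hη2⟩ := det_asym m lm h0
  have hc : Continuous fun z : Fin (m + 1) → Fin m → ℝ => B (fun j => tt lm (z j)) := by
    refine hB.comp_continuous ?_ ?_
    · refine continuous_pi fun j => continuous_pi fun i => ?_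
      unfold tt
      fun_prop
    · intro z j i
      exact Real.exp_pos _
  have h1 : ∀ π : Equiv.Perm (Fin m), Filter.Tendsto (fun N : ℕ => ((η π N : ℝ) : ℂ) *
      ((∑ a : Fin m → Fin N,
      B (fun j => tt lm (fun k => (kv (fun k => ((a k : ℕ) : ℤ)) π j k : ℝ) / N))) /
        (N : ℂ) ^ m)) Filter.atTop
      (nhds (((Delta lm : ℝ) : ℂ) *
        ∫ z in Set.Icc (0 : Fin m → ℝ) 1, B (fun _ => tt lm z))) := by
    intro π
    have h2 : Filter.Tendsto (fun N : ℕ => ((η π N : ℝ) : ℂ)) Filter.atTop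
        (nhds ((Delta lm : ℝ) : ℂ)) := (Complex.continuous_ofReal.tendsto _).comp (hη π)
    exact h2.mul (riemann_sum m _ hc π)
  have h2 := tendsto_finsetSum (Finset.univ : Finset (Equiv.Perm (Fin m))) fun π _ => h1 π
  have h3 : ∑ π : Equiv.Perm (Fin m), ((Delta lm : ℝ) : ℂ) *
      ∫ z in Set.Icc (0 : Fin m → ℝ) 1, B (fun _ => tt lm z) =
      (m.factorial : ℂ) * ((Delta lm : ℝ) : ℂ) *
        ∫ z in Set.Icc (0 : Fin m → ℝ) 1, B (fun _ => tt lm z) := by
    rw [Finset.sum_const, Finset.card_univ, Fintype.card_perm, Fintype.card_fin, nsmul_eq_mul]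
    ring
  rw [h3] at h2
  refine h2.congr' ?_
  filter_upwards [Filter.eventually_gt_atTop 0] with N hN
  rw [Finset.sum_comm]
  refine Finset.sum_congr rfl fun π _ => ?_
  rw [Finset.sum_div, Finset.mul_sum]
  refine Finset.sum_congr rfl fun a _ => ?_
  have h4 := hη2 N hN (fun k => ((a k : ℕ) : ℤ)) π
  have h5 : ((Equiv.Perm.sign π : ℤ) : ℂ) * ((Matrix.det (Matrix.of fun j i : Fin (m + 1) =>
        tt lm (fun k => (kv (fun k => ((a k : ℕ) : ℤ)) π j k : ℝ) / N) i) : ℝ) : ℂ) =
      ((η π N : ℝ) : ℂ) / (N : ℂ) ^ m := by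
    have h6 : ((Equiv.Perm.sign π : ℤ) : ℂ) = (((Equiv.Perm.sign π : ℤ) : ℝ) : ℂ) := by
      push_cast
      rfl
    rw [h6, ← Complex.ofReal_mul, h4]
    push_cast
    rfl
  rw [← mul_assoc, h5]
  ring

end H55N
end

-- from Lib.H55N.C0
section

namespace H55N

/-- Faces of a simplex. -/
def face {V : Type} (v : ℕ → V) (j k : ℕ) : V := if k < j then v k else v (k + 1)

/-- The prism operator. -/
noncomputable def Hp {Λ V : Type} {m : ℕ} (J : (Fin (m + 1) → Λ) → ℂ) (L L' : V → Λ) (f : ℕ → V) :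
    ℂ := ∑ i ∈ Finset.range m, (-1) ^ i * J fun k : Fin (m + 1) => prism L L' f i k

end H55N
end

-- from Lib.H55N.C2
section

namespace H55N

/-! Chunk C2 (M/L). Cancellation of the faces of the Kuhn triangulation of the torus Z^m / N Z^m.
v = kv a π: v_i = a + sum_{l<i} e_{π l} (kv a π i k = a k + 1 iff k = π l for some l < i).
* 0 < j < m: π' = π * swap (j-1) j has sign - sign π, and face (kv a π) j = face (kv a π') j (for i <= j-1: {π l : l < i} = {π' l : l < i};
  for i >= j+1 too). So the terms with j cancel for fixed a (Finset.sum_involution, or: the sum over π equals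
  minus itself by Equiv.sum_comp of right multiplication by the swap).
* j = 0 and j = m: let ρ be the rotation l -> l+1 (finRotate m), sign (finRotate m) = (-1)^(m-1); π' = π * ρ (π' l = π (l+1)), a' = a + e_{π 0}. Then
  kv a' π' i = kv a π (i+1) for i <= m-1, so face (kv a π) 0 and face (kv a' π') m agree on 0..m-1. For fixed π the function
  a -> H (face (kv a π) 0) of a in Z^m is N-periodic (hT, hH), so is φ(a) = H(face (kv a π') m), and the sum of φ over the box equals the sum of φ(a + e) over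
  the box (change of variables a -> a + e modulo N on Fin N; Finset.sum_equiv with Equiv.addRight in the group Fin N or ZMod N, coordinate π 0).
  So sum_a sum_π sgn π H(face 0) = sum_a sum_π sgn π H(face (kv a (πρ)) m) = (-1)^(m-1) sum_a sum_π' sgn π' H(face (kv a π') m), and
  the total of the terms j = 0 and j = m is ((-1)^(m-1) + (-1)^m) (...) = 0. -/

/-- inner faces -/
theorem C2_inner (m : ℕ) (H : (ℕ → Fin m → ℤ) → ℂ)
    (hH : ∀ f f' : ℕ → Fin m → ℤ, (∀ k < m, f k = f' k) → H f = H f') (a : Fin m → ℤ) (j : ℕ)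
    (hj0 : 0 < j) (hjm : j < m) :
    ∑ π : Equiv.Perm (Fin m), ((Equiv.Perm.sign π : ℤ) : ℂ) * H (face (kv a π) j) = 0 := by
  obtain ⟨x, hx⟩ : ∃ x : Fin m, (x : ℕ) = j - 1 := ⟨⟨j - 1, by omega⟩, rfl⟩
  obtain ⟨y, hy⟩ : ∃ y : Fin m, (y : ℕ) = j := ⟨⟨j, hjm⟩, rfl⟩
  have hxy : x ≠ y := by
    rintro rfl
    omega
  have h1 : ∀ π : Equiv.Perm (Fin m),
      H (face (kv a (π * Equiv.swap x y)) j) = H (face (kv a π) j) := by
    intro π
    apply hH
    intro k hk
    have h2 : ∀ i : ℕ, i ≠ j → kv a (π * Equiv.swap x y) i = kv a π i := by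
      intro i hi
      funext z
      unfold kv
      have h3 : (π * Equiv.swap x y).symm z = Equiv.swap x y (π.symm z) := by
        rw [Equiv.symm_apply_eq, Equiv.Perm.mul_apply, Equiv.swap_apply_self,
          Equiv.apply_symm_apply]
      rw [h3]
      congr 1
      obtain ⟨l, hl⟩ : ∃ l, l = π.symm z := ⟨_, rfl⟩
      rw [← hl]
      by_cases hlx : l = x
      · rw [hlx, Equiv.swap_apply_left]
        have : ((y : ℕ) < i) ↔ ((x : ℕ) < i) := by omega
        simp only [this]
      · by_cases hly : l = y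
        · rw [hly, Equiv.swap_apply_right]
          have : ((x : ℕ) < i) ↔ ((y : ℕ) < i) := by omega
          simp only [this]
        · rw [Equiv.swap_apply_of_ne_of_ne hlx hly]
    unfold face
    split_ifs with h4
    · exact h2 k (by omega)
    · exact h2 (k + 1) (by omega)
  have h2 : ∑ π : Equiv.Perm (Fin m), ((Equiv.Perm.sign π : ℤ) : ℂ) * H (face (kv a π) j) =
      -∑ π : Equiv.Perm (Fin m), ((Equiv.Perm.sign π : ℤ) : ℂ) * H (face (kv a π) j) := by
    conv_lhs => rw [← Equiv.sum_comp (Equiv.mulRight (Equiv.swap x y))]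
    rw [← Finset.sum_neg_distrib]
    apply Finset.sum_congr rfl
    intro π _
    rw [Equiv.coe_mulRight, h1, map_mul, Equiv.Perm.sign_swap hxy]
    push_cast
    ring
  have h3 : (2 : ℂ) * ∑ π : Equiv.Perm (Fin m), ((Equiv.Perm.sign π : ℤ) : ℂ) *
      H (face (kv a π) j) = 0 := by linear_combination h2
  rcases mul_eq_zero.1 h3 with h | h
  · norm_num at h
  · exact h

/-- translation of a periodic function -/
theorem C2_shift (m : ℕ) (N : ℕ) (hN : 0 < N) (φ : (Fin m → ℤ) → ℂ)
    (hφ : ∀ b z : Fin m → ℤ, φ (b + (N : ℤ) • z) = φ b) (i : Fin m) :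
    ∑ a : Fin m → Fin N, φ (fun k => ((a k : ℕ) : ℤ) + if k = i then 1 else 0) =
      ∑ a : Fin m → Fin N, φ (fun k => ((a k : ℕ) : ℤ)) := by
  have : NeZero N := ⟨hN.ne'⟩
  obtain ⟨s, hs⟩ : ∃ s : Fin m → Fin N, s = fun k => if k = i then Fin.ofNat N 1 else 0 :=
    ⟨_, rfl⟩
  conv_rhs => rw [← Equiv.sum_comp (Equiv.addRight s)]
  apply Finset.sum_congr rfl
  intro a _
  have h1 : ∀ k, ∃ z : ℤ, ((a k : ℕ) : ℤ) + (if k = i then 1 else 0) =
      (((a + s) k : Fin N) : ℕ) + (N : ℤ) * z := by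
    intro k
    have h2 : (((a + s) k : Fin N) : ℕ) = ((a k : ℕ) + (s k : ℕ)) % N := by
      rw [Pi.add_apply, Fin.val_add]
    have h3 : ∃ t : ℕ, (if k = i then 1 else 0) = (s k : ℕ) + N * t := by
      rw [hs]
      by_cases hk : k = i
      · simp only [hk, if_true]
        refine ⟨1 / N, ?_⟩
        rw [Fin.val_ofNat]
        exact (Nat.mod_add_div 1 N).symm
      · simp only [hk, if_false]
        exact ⟨0, by simp⟩
    obtain ⟨t, ht⟩ := h3
    have h4 := Nat.mod_add_div ((a k : ℕ) + (s k : ℕ)) N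
    refine ⟨(((a k : ℕ) + (s k : ℕ)) / N : ℕ) + t, ?_⟩
    rw [h2]
    have h5 : ((if k = i then 1 else 0 : ℕ) : ℤ) = (if k = i then 1 else 0 : ℤ) := by
      split_ifs <;> simp
    rw [← h5, ht]
    have h6 : (((a k : ℕ) : ℤ) + ((s k : ℕ) : ℤ)) =
        ((((a k : ℕ) + (s k : ℕ)) % N : ℕ) : ℤ) +
          (N : ℤ) * ((((a k : ℕ) + (s k : ℕ)) / N : ℕ) : ℤ) := by
      exact_mod_cast h4.symm
    push_cast at h6 ⊢
    linear_combination h6
  choose z hz using h1
  have h2 : (fun k => ((a k : ℕ) : ℤ) + if k = i then 1 else 0) =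
      (fun k => ((((a + s) k : Fin N) : ℕ) : ℤ)) + (N : ℤ) • z := by
    funext k
    rw [Pi.add_apply, Pi.smul_apply, smul_eq_mul]
    exact hz k
  rw [h2, hφ]
  rfl

/-- the two outer faces -/
theorem C2_outer (m' : ℕ) (N : ℕ) (hN : 0 < N) (H : (ℕ → Fin (m' + 1) → ℤ) → ℂ)
    (hH : ∀ f f' : ℕ → Fin (m' + 1) → ℤ, (∀ k < m' + 1, f k = f' k) → H f = H f')
    (hT : ∀ (f : ℕ → Fin (m' + 1) → ℤ) (z : Fin (m' + 1) → ℤ),
      H (fun k => f k + (N : ℤ) • z) = H f) :
    ∑ a : Fin (m' + 1) → Fin N, ∑ π : Equiv.Perm (Fin (m' + 1)),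
      ((Equiv.Perm.sign π : ℤ) : ℂ) * H (face (kv (fun k => ((a k : ℕ) : ℤ)) π) 0) =
    (-1) ^ m' * ∑ a : Fin (m' + 1) → Fin N, ∑ π : Equiv.Perm (Fin (m' + 1)),
      ((Equiv.Perm.sign π : ℤ) : ℂ) * H (face (kv (fun k => ((a k : ℕ) : ℤ)) π) (m' + 1)) := by
  obtain ⟨ρ, hρ⟩ : ∃ ρ : Equiv.Perm (Fin (m' + 1)), ρ = finRotate (m' + 1) := ⟨_, rfl⟩
  have hsign : ((Equiv.Perm.sign ρ : ℤ) : ℂ) = (-1) ^ m' := by
    rw [hρ, sign_finRotate]
    push_cast
    rfl
  have h1 : ∀ (a : Fin (m' + 1) → ℤ) (π : Equiv.Perm (Fin (m' + 1))),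
      H (face (kv a π) 0) =
        H (face (kv (fun k => a k + if k = π 0 then 1 else 0) (π * ρ)) (m' + 1)) := by
    intro a π
    apply hH
    intro k hk
    unfold face
    rw [if_neg (by omega), if_pos hk]
    funext x
    unfold kv
    obtain ⟨t, ht⟩ : ∃ t, t = (π * ρ).symm x := ⟨_, rfl⟩
    have h2 : π.symm x = ρ t := by
      rw [Equiv.symm_apply_eq, ← Equiv.Perm.mul_apply, ht, Equiv.apply_symm_apply]
    rw [← ht, h2]
    have h3 : (x = π 0) ↔ ρ t = 0 := by
      rw [← h2, Equiv.symm_apply_eq]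
    have h4 : ((ρ t : Fin (m' + 1)) : ℕ) = if t = Fin.last m' then 0 else (t : ℕ) + 1 := by
      rw [hρ]
      exact coe_finRotate t
    beta_reduce
    by_cases hlast : t = Fin.last m'
    · rw [if_pos hlast] at h4
      have h5 : ρ t = 0 := Fin.ext h4
      rw [if_pos (by rw [h4]; omega), if_pos (h3.2 h5), if_neg (by rw [hlast, Fin.val_last]; omega)]
      ring
    · rw [if_neg hlast] at h4
      have h5 : ρ t ≠ 0 := by
        intro h
        rw [h] at h4
        simp at h4
      rw [if_neg (fun h => h5 (h3.1 h)), h4, add_zero]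
      congr 1
      have : ((t : ℕ) + 1 < k + 1) ↔ ((t : ℕ) < k) := by omega
      simp only [this]
  have h2 : ∀ π : Equiv.Perm (Fin (m' + 1)),
      ∑ a : Fin (m' + 1) → Fin N, H (face (kv (fun k => ((a k : ℕ) : ℤ)) π) 0) =
      ∑ a : Fin (m' + 1) → Fin N, H (face (kv (fun k => ((a k : ℕ) : ℤ)) (π * ρ)) (m' + 1)) := by
    intro π
    rw [← C2_shift (m' + 1) N hN (fun b => H (face (kv b (π * ρ)) (m' + 1))) ?_ (π 0)]
    · apply Finset.sum_congr rfl
      intro a _
      exact h1 _ π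
    · intro b z
      rw [← hT (face (kv b (π * ρ)) (m' + 1)) z]
      congr 1
      funext k
      unfold face kv
      split_ifs
      · funext x
        simp only [Pi.add_apply]
        ring
      · funext x
        simp only [Pi.add_apply]
        ring
  rw [Finset.sum_comm, Finset.sum_comm (s := (Finset.univ : Finset (Fin (m' + 1) → Fin N)))
    (t := (Finset.univ : Finset (Equiv.Perm (Fin (m' + 1)))))
    (f := fun a π => ((Equiv.Perm.sign π : ℤ) : ℂ) *
      H (face (kv (fun k => ((a k : ℕ) : ℤ)) π) (m' + 1)))]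
  conv_rhs => rw [← Equiv.sum_comp (Equiv.mulRight ρ)]
  rw [Finset.mul_sum]
  apply Finset.sum_congr rfl
  intro π _
  rw [← Finset.mul_sum, ← Finset.mul_sum, h2 π, Equiv.coe_mulRight, map_mul]
  have h3 : ((Equiv.Perm.sign ρ : ℤ) : ℂ) * ((Equiv.Perm.sign ρ : ℤ) : ℂ) = 1 := by
    rw [hsign, ← pow_add, ← two_mul, pow_mul]
    norm_num
  have h4 : (((Equiv.Perm.sign π * Equiv.Perm.sign ρ : ℤˣ) : ℤ) : ℂ) =
      ((Equiv.Perm.sign π : ℤ) : ℂ) * ((Equiv.Perm.sign ρ : ℤ) : ℂ) := by
    push_cast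
    ring
  rw [h4, ← hsign]
  linear_combination (-((Equiv.Perm.sign π : ℤ) : ℂ) *
    ∑ a : Fin (m' + 1) → Fin N, H (face (kv (fun k => ((a k : ℕ) : ℤ)) (π * ρ)) (m' + 1))) * h3

theorem face_cancel (m : ℕ) (hm : 0 < m) (N : ℕ) (hN : 0 < N) (H : (ℕ → Fin m → ℤ) → ℂ)
    (hH : ∀ f f' : ℕ → Fin m → ℤ, (∀ k < m, f k = f' k) → H f = H f')
    (hT : ∀ (f : ℕ → Fin m → ℤ) (z : Fin m → ℤ), H (fun k => f k + (N : ℤ) • z) = H f) :
    ∑ a : Fin m → Fin N, ∑ π : Equiv.Perm (Fin m), ((Equiv.Perm.sign π : ℤ) : ℂ) *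
      ∑ j ∈ Finset.range (m + 1), (-1) ^ j * H (face (kv (fun k => ((a k : ℕ) : ℤ)) π) j) = 0 := by
  obtain ⟨m', rfl⟩ : ∃ m', m = m' + 1 := ⟨m - 1, by omega⟩
  have h1 : ∀ a : Fin (m' + 1) → Fin N, ∑ π : Equiv.Perm (Fin (m' + 1)),
      ((Equiv.Perm.sign π : ℤ) : ℂ) *
      ∑ j ∈ Finset.range (m' + 1 + 1), (-1) ^ j *
        H (face (kv (fun k => ((a k : ℕ) : ℤ)) π) j) =
      ∑ π : Equiv.Perm (Fin (m' + 1)), ((Equiv.Perm.sign π : ℤ) : ℂ) *
        H (face (kv (fun k => ((a k : ℕ) : ℤ)) π) 0) +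
      (-1) ^ (m' + 1) * ∑ π : Equiv.Perm (Fin (m' + 1)), ((Equiv.Perm.sign π : ℤ) : ℂ) *
        H (face (kv (fun k => ((a k : ℕ) : ℤ)) π) (m' + 1)) := by
    intro a
    have h2 : ∑ π : Equiv.Perm (Fin (m' + 1)), ((Equiv.Perm.sign π : ℤ) : ℂ) *
        ∑ j ∈ Finset.range (m' + 1 + 1), (-1) ^ j *
          H (face (kv (fun k => ((a k : ℕ) : ℤ)) π) j) =
        ∑ j ∈ Finset.range (m' + 1 + 1), (-1) ^ j *
          ∑ π : Equiv.Perm (Fin (m' + 1)), ((Equiv.Perm.sign π : ℤ) : ℂ) *
          H (face (kv (fun k => ((a k : ℕ) : ℤ)) π) j) := by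
      simp only [Finset.mul_sum]
      rw [Finset.sum_comm]
      apply Finset.sum_congr rfl
      intro j _
      apply Finset.sum_congr rfl
      intro π _
      ring
    rw [h2, Finset.sum_range_succ, Finset.sum_range_succ']
    have h3 : ∑ j ∈ Finset.range m', (-1 : ℂ) ^ (j + 1) *
        ∑ π : Equiv.Perm (Fin (m' + 1)), ((Equiv.Perm.sign π : ℤ) : ℂ) *
          H (face (kv (fun k => ((a k : ℕ) : ℤ)) π) (j + 1)) = 0 := by
      apply Finset.sum_eq_zero
      intro j hj
      rw [Finset.mem_range] at hj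
      rw [C2_inner (m' + 1) H hH _ (j + 1) (by omega) (by omega), mul_zero]
    rw [h3]
    ring
  rw [Finset.sum_congr rfl fun a _ => h1 a, Finset.sum_add_distrib, ← Finset.mul_sum,
    C2_outer m' N hN H hH hT]
  ring

end H55N
end

-- from Lib.H55N.C1
section

namespace H55N

/-! Chunk C1 (M). The prism identity. Write P_i(j) = J (prism i with the entry j omitted), i = 0..m, j = 0..m+1; the entries
0..i of the prism i are L v_0, .., L v_i and the entries i+1..m+1 are L' v_i, .., L' v_m. Sum over i of (-1)^i times hcoc: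
* j = i: P_i(i) = J Q_i, Q_i = (L v_0..L v_{i-1}, L' v_i..L' v_m), sign +; j = i+1: P_i(i+1) = J Q_{i+1}, sign -. The sum over i telescopes to
  J Q_0 - J Q_{m+1} = J(L' v) - J(L v).
* j < i: P_i(j) = J (prism L L' (face v j) (i-1)), sign (-1)^(i+j) = -(-1)^j (-1)^(i-1);
* j > i+1: P_i(j) = J (prism L L' (face v (j-1)) i), sign (-1)^(i+j) = -(-1)^(j-1) (-1)^i.
For fixed j the two families give all i in range m of Hp (face v j). (Suggestion: replace the sums over Fin (m+2) by sums over range (m+2) and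
j.succAbove k by: if k < j then k else k+1.) -/

/-- The index with `j` skipped. -/
def c1s (j k : ℕ) : ℕ := if k < j then k else k + 1

theorem c1_succAbove {m : ℕ} (j : Fin (m + 2)) (k : Fin (m + 1)) :
    ((j.succAbove k : Fin (m + 2)) : ℕ) = c1s j k := by
  unfold c1s Fin.succAbove
  by_cases h : (k : ℕ) < j
  · have h' : k.castSucc < j := h
    rw [if_pos h, if_pos h']
    rfl
  · have h' : ¬ k.castSucc < j := h
    rw [if_neg h, if_neg h']
    rfl

theorem c1_lt {Λ V : Type} (L L' : V → Λ) (v : ℕ → V) (i j k : ℕ) (h : j < i) :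
    prism L L' v i (c1s j k) = prism L L' (face v j) (i - 1) k := by
  unfold prism c1s face
  rcases lt_or_ge k j with h1 | h1
  · rw [if_pos h1, if_pos (by omega), if_pos (by omega), if_pos h1]
  · rw [if_neg (by omega : ¬ k < j)]
    rcases le_or_gt (k + 1) i with h2 | h2
    · rw [if_pos h2, if_pos (by omega), if_neg (by omega)]
    · rw [if_neg (by omega), if_neg (by omega), if_neg (by omega)]
      congr 2
      omega

theorem c1_gt {Λ V : Type} (L L' : V → Λ) (v : ℕ → V) (i j k : ℕ) (h : i < j) :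
    prism L L' v i (c1s (j + 1) k) = prism L L' (face v j) i k := by
  unfold prism c1s face
  rcases le_or_gt k j with h1 | h1
  · rw [if_pos (by omega : k < j + 1)]
    rcases le_or_gt k i with h2 | h2
    · rw [if_pos h2, if_pos h2, if_pos (by omega)]
    · rw [if_neg (by omega), if_neg (by omega), if_pos (by omega)]
  · rw [if_neg (by omega : ¬ k < j + 1), if_neg (by omega), if_neg (by omega), if_neg (by omega)]
    congr 2
    omega

theorem c1_eq {Λ V : Type} (L L' : V → Λ) (v : ℕ → V) (i k : ℕ) :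
    prism L L' v i (c1s i k) = if k < i then L (v k) else L' (v k) := by
  unfold prism c1s
  rcases lt_or_ge k i with h1 | h1
  · rw [if_pos h1, if_pos (by omega), if_pos h1]
  · rw [if_neg (by omega : ¬ k < i), if_neg (by omega), if_neg (by omega), Nat.add_sub_cancel]

theorem c1_eq' {Λ V : Type} (L L' : V → Λ) (v : ℕ → V) (i k : ℕ) :
    prism L L' v i (c1s (i + 1) k) = if k < i + 1 then L (v k) else L' (v k) := by
  unfold prism c1s
  rcases lt_or_ge k (i + 1) with h1 | h1
  · rw [if_pos h1, if_pos (by omega), if_pos h1]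
  · rw [if_neg (by omega : ¬ k < i + 1), if_neg (by omega), if_neg (by omega), Nat.add_sub_cancel]

theorem c1_split (f : ℕ → ℂ) (i m : ℕ) (hi : i ≤ m) :
    ∑ j ∈ Finset.range (m + 2), f j = ∑ j ∈ Finset.range i, f j + f i + f (i + 1) +
      ∑ j ∈ Finset.Ico (i + 1) (m + 1), f (j + 1) := by
  rw [Finset.sum_Ico_add' f (i + 1) (m + 1) 1, ← Finset.sum_range_succ, ← Finset.sum_range_succ,
    Finset.sum_range_add_sum_Ico _ (by omega)]

theorem prism_id {Λ V : Type} {m : ℕ} (J : (Fin (m + 1) → Λ) → ℂ) (L L' : V → Λ) (v : ℕ → V)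
    (hcoc : ∀ i ≤ m, ∑ j : Fin (m + 2), (-1) ^ (j : ℕ) *
      J (fun k : Fin (m + 1) => prism L L' v i (j.succAbove k : Fin (m + 2))) = 0) :
    J (fun k => L' (v k)) - J (fun k => L (v k)) =
      ∑ j ∈ Finset.range (m + 1), (-1) ^ j * Hp J L L' (face v j) := by
  set PP : ℕ → ℕ → ℂ := fun i j => J fun k : Fin (m + 1) => prism L L' v i (c1s j k) with hPP
  set Q : ℕ → ℂ := fun i => J fun k : Fin (m + 1) => if (k : ℕ) < i then L (v k) else L' (v k)
    with hQ
  set R : ℕ → ℕ → ℂ := fun j i => J fun k : Fin (m + 1) => prism L L' (face v j) i k with hR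
  set a : ℕ → ℕ → ℂ := fun j i => (-1) ^ j * ((-1) ^ i * R j i) with ha
  have h1 : ∀ i ≤ m, ∑ j ∈ Finset.range (m + 2), (-1) ^ j * PP i j = 0 := by
    intro i hi
    rw [← hcoc i hi, ← Fin.sum_univ_eq_sum_range (fun j => (-1 : ℂ) ^ j * PP i j) (m + 2)]
    refine Finset.sum_congr rfl fun j _ => ?_
    simp only [hPP, c1_succAbove]
  have h2 : ∀ i ≤ m, Q i - Q (i + 1) - ∑ j ∈ Finset.range i, a j (i - 1) -
      ∑ j ∈ Finset.Ico (i + 1) (m + 1), a j i = 0 := by
    intro i hi
    have h3 := h1 i hi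
    rw [c1_split _ i m hi] at h3
    have e1 : (-1 : ℂ) ^ i * ((-1) ^ i * PP i i) = Q i := by
      rw [← mul_assoc, ← pow_add, ← two_mul, pow_mul]
      simp only [hPP, hQ, c1_eq]
      norm_num
    have e2 : (-1 : ℂ) ^ i * ((-1) ^ (i + 1) * PP i (i + 1)) = - Q (i + 1) := by
      rw [← mul_assoc, ← pow_add, ← add_assoc, pow_succ, ← two_mul, pow_mul]
      simp only [hPP, hQ, c1_eq']
      norm_num
    have e3 : (-1 : ℂ) ^ i * ∑ j ∈ Finset.range i, (-1) ^ j * PP i j =
        - ∑ j ∈ Finset.range i, a j (i - 1) := by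
      rw [Finset.mul_sum, ← Finset.sum_neg_distrib]
      refine Finset.sum_congr rfl fun j hj => ?_
      rw [Finset.mem_range] at hj
      have : PP i j = R j (i - 1) := by
        simp only [hPP, hR, c1_lt L L' v i j _ hj]
      rw [this]
      simp only [ha]
      obtain ⟨i', rfl⟩ : ∃ i', i = i' + 1 := ⟨i - 1, by omega⟩
      rw [Nat.add_sub_cancel, pow_succ]
      ring
    have e4 : (-1 : ℂ) ^ i * ∑ j ∈ Finset.Ico (i + 1) (m + 1), (-1) ^ (j + 1) * PP i (j + 1) =
        - ∑ j ∈ Finset.Ico (i + 1) (m + 1), a j i := by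
      rw [Finset.mul_sum, ← Finset.sum_neg_distrib]
      refine Finset.sum_congr rfl fun j hj => ?_
      rw [Finset.mem_Ico] at hj
      have : PP i (j + 1) = R j i := by
        simp only [hPP, hR, c1_gt L L' v i j _ (by omega : i < j)]
      rw [this]
      simp only [ha]
      rw [pow_succ]
      ring
    have h4 := congrArg (fun x : ℂ => (-1) ^ i * x) h3
    simp only [mul_add, mul_zero] at h4
    rw [e1, e2, e3, e4] at h4
    rw [← h4]
    ring
  have h5 : ∑ i ∈ Finset.range (m + 1), (Q i - Q (i + 1) - ∑ j ∈ Finset.range i, a j (i - 1) -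
      ∑ j ∈ Finset.Ico (i + 1) (m + 1), a j i) = 0 :=
    Finset.sum_eq_zero fun i hi => h2 i (by rw [Finset.mem_range] at hi; omega)
  rw [Finset.sum_sub_distrib, Finset.sum_sub_distrib, Finset.sum_range_sub',
    Finset.sum_range_succ' (fun i => ∑ j ∈ Finset.range i, a j (i - 1)),
    Finset.sum_range_succ (fun i => ∑ j ∈ Finset.Ico (i + 1) (m + 1), a j i),
    Finset.range_zero, Finset.sum_empty, Finset.Ico_self, Finset.sum_empty, add_zero, add_zero,
    sub_sub, ← Finset.sum_add_distrib] at h5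
  have h6 : ∑ i ∈ Finset.range m, (∑ j ∈ Finset.range (i + 1), a j (i + 1 - 1) +
      ∑ j ∈ Finset.Ico (i + 1) (m + 1), a j i) =
      ∑ j ∈ Finset.range (m + 1), (-1) ^ j * Hp J L L' (face v j) := by
    have : ∀ i ∈ Finset.range m, (∑ j ∈ Finset.range (i + 1), a j (i + 1 - 1) +
      ∑ j ∈ Finset.Ico (i + 1) (m + 1), a j i) = ∑ j ∈ Finset.range (m + 1), a j i := by
      intro i hi
      rw [Finset.mem_range] at hi
      rw [Nat.add_sub_cancel, Finset.sum_range_add_sum_Ico _ (by omega)]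
    rw [Finset.sum_congr rfl this, Finset.sum_comm]
    refine Finset.sum_congr rfl fun j _ => ?_
    unfold Hp
    rw [Finset.mul_sum]
  rw [h6] at h5
  have e5 : Q 0 = J fun k => L' (v k) := by
    simp [hQ]
  have e6 : Q (m + 1) = J fun k => L (v k) := by
    simp only [hQ]
    congr 1
    funext k
    rw [if_pos k.2]
  rw [e5, e6] at h5
  exact sub_eq_zero.1 h5

end H55N
end

-- from Lib.H55N.C3
section

namespace H55N

/-! Chunk C3 (S/M). Invariance of C_N. CN N J L' - CN N J L = sum_a sum_π sgn π (J(L' v) - J(L v)), v = kv a π; prism_id turns this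
into the sum in face_cancel with H = Hp J L L' (m > 0). hH: Hp depends only on f 0 .. f (m-1) (prism L L' f i k with k <= m, i <= m-1
uses f k for k <= i and f (k-1)). hT: prism L L' (f + N z) i k = τ z (prism L L' f i k) by hL, hL', then hJ. For m = 0: Hp = 0 (empty sum), so
prism_id gives J(L' v) = J(L v). -/

theorem c3_congr {Λ V : Type} {m : ℕ} (J : (Fin (m + 1) → Λ) → ℂ) (L L' : V → Λ) (f f' : ℕ → V)
    (h : ∀ k < m, f k = f' k) : Hp J L L' f = Hp J L L' f' := by
  unfold Hp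
  refine Finset.sum_congr rfl fun i hi => ?_
  rw [Finset.mem_range] at hi
  congr 2
  funext k
  unfold prism
  split_ifs with h1
  · rw [h k (by omega)]
  · rw [h ((k : ℕ) - 1) (by have := k.2; omega)]

theorem CN_eq {Λ : Type} {m : ℕ} (N : ℕ) (hN : 0 < N) (J : (Fin (m + 1) → Λ) → ℂ)
    (L L' : (Fin m → ℤ) → Λ) (τ : (Fin m → ℤ) → Λ → Λ)
    (hJ : ∀ z (l : Fin (m + 1) → Λ), J (fun j => τ z (l j)) = J l)
    (hL : ∀ a z, L (a + (N : ℤ) • z) = τ z (L a)) (hL' : ∀ a z, L' (a + (N : ℤ) • z) = τ z (L' a))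
    (hcoc : ∀ (a : Fin m → Fin N) (π : Equiv.Perm (Fin m)), ∀ i ≤ m,
      ∑ j : Fin (m + 2), (-1) ^ (j : ℕ) * J (fun k : Fin (m + 1) =>
        prism L L' (kv (fun k => ((a k : ℕ) : ℤ)) π) i (j.succAbove k : Fin (m + 2))) = 0) :
    CN N J L = CN N J L' := by
  have hT : ∀ (f : ℕ → Fin m → ℤ) (z : Fin m → ℤ),
      Hp J L L' (fun k => f k + (N : ℤ) • z) = Hp J L L' f := by
    intro f z
    unfold Hp
    refine Finset.sum_congr rfl fun i _ => ?_
    congr 1
    rw [← hJ z (fun k : Fin (m + 1) => prism L L' f i k)]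
    congr 1
    funext k
    unfold prism
    split_ifs with h1
    · exact hL _ _
    · exact hL' _ _
  have h1 : CN N J L' - CN N J L = ∑ a : Fin m → Fin N, ∑ π : Equiv.Perm (Fin m),
      ((Equiv.Perm.sign π : ℤ) : ℂ) *
      ∑ j ∈ Finset.range (m + 1), (-1) ^ j *
        Hp J L L' (face (kv (fun k => ((a k : ℕ) : ℤ)) π) j) := by
    unfold CN
    rw [← Finset.sum_sub_distrib]
    refine Finset.sum_congr rfl fun a _ => ?_
    rw [← Finset.sum_sub_distrib]
    refine Finset.sum_congr rfl fun π _ => ?_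
    rw [← mul_sub]
    congr 1
    exact prism_id J L L' (kv (fun k => ((a k : ℕ) : ℤ)) π) (hcoc a π)
  have h2 : CN N J L' - CN N J L = 0 := by
    rw [h1]
    rcases Nat.eq_zero_or_pos m with hm | hm
    · refine Finset.sum_eq_zero fun a _ => Finset.sum_eq_zero fun π _ => ?_
      rw [Finset.sum_eq_zero, mul_zero]
      intro j _
      unfold Hp
      subst hm
      rw [Finset.range_zero, Finset.sum_empty, mul_zero]
    · exact face_cancel m hm N hN (Hp J L L') (c3_congr J L L') hT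
  exact (sub_eq_zero.1 h2).symm

end H55N
end
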