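import Mathlib
import Pool.Agent.Lib.H1M.PP.M012
import Pool.Agent.Lib.H1M.PP.M016
import Pool.Agent.Lib.H1M.PP.M023
import Pool.Agent.Lib.H1M.PP.M028

/-! Merged copies (to shorten the build) of Lib.H13S.GI0, Lib.H28G.GD1, Lib.H28G.GV5, Lib.H28G.GV2, Lib.H28G.GV3, Lib.H28G.GV6, Lib.H28G.GV7, Lib.H13S.GIA, Lib.H13S.GIF, Lib.H13S.QI. -/

-- from Lib.H13S.GI0
section

/-! # H13S: reduction (definitions). Kr is E1 of H28G for the valuation of a valuation ring. -/

open NumberField IsDedekindDomain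

namespace H13S

open H55P H28G H55B

variable {Ω : Type} [Field Ω] [DecidableEq Ω] [Algebra F Ω]

/-- The kernel of reduction. -/
def Kr (V : ValuationSubring Ω) (P : P27 Ω) : Prop := P = 0 ∨ 1 < V.valuation (xc P)

/-- The value of an element of O. -/
noncomputable abbrev vo (V : ValuationSubring Ω) (a : O) : V.ValueGroup :=
  V.valuation (algebraMap F Ω (a : F))

theorem vo_eq (V : ValuationSubring Ω) (a : O) : V.valuation (ak Ω a) = vo V a := rfl

theorem kr_zero (V : ValuationSubring Ω) : Kr V (0 : P27 Ω) := Or.inl rfl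

end H13S
end

-- from Lib.H28G.GD1
section

open NumberField IsDedekindDomain WeierstrassCurve

namespace H28G

open H55B

/-! Chunk GD1 (M): the torsion points are algebraic. alg_coord: let R in Tor b C, R <> 0, x = xc R, and suppose x is transcendental over F. M0 = F(x) (IntermediateField.adjoin F {x}), M1 = the algebraic closure of M0 in C
(algebraicClosure M0 C or the integral closure; algebraically closed is not needed, only algebraic over M0, and it contains y = yc R since y^2 + y = x^3). For n in N there is an F-algebra homomorphism s_n : M0 -> C with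
s_n x = x + n (x + n is transcendental: IsFractionRing/RatFunc lift, or AlgebraicIndependent.aevalEquiv, IntermediateField.algHomAdjoinIntegralEquiv is only for algebraic x; use
RatFunc/FractionRing F[X] ≃ F(x): IntermediateField.adjoin of a transcendental element, Transcendental), extended to M1 -> C by IsAlgClosed.lift. R comes from a point R1 over M1 (coordinates in M1), act b R1 = 0 (mp_mem_Tor for the inclusion); its image
under mp s_n is in Tor b C and has x-coordinate x + n: infinitely many elements in the finite group Tor b C (Full.finite (full_C)). Contradiction. So x and y are algebraic over F.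
full_Om: j : Om -> C over F (IsAlgClosed.lift). Every R in Tor b C, R <> 0, has algebraic coordinates, so they are in j(Om) (Om algebraically closed: the minimal polynomial of x over F splits in Om, its image under j has the roots
j(roots), x is one of them: e.g. via algebraicClosure F C = range of j, or Polynomial.Splits.image_rootSet), hence R = mp j S with S = pt of the preimages (the equation holds by injectivity of j). So mp j is a bijection from Tor b Om to Tor b C
(mp_mem_Tor) and the cardinalities agree. -/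

open IntermediateField in
/-- The embedding of F(x) with x to x + n. -/
noncomputable def GD1_s (x : ℂ) (h : Transcendental F x) (n : ℕ) (h' : Transcendental F (x + n)) : F⟮x⟯ →ₐ[F] ℂ :=
  (F⟮x + n⟯).val.comp (((RatFunc.algEquivOfTranscendental (x + n) h').toAlgHom).comp
    (RatFunc.algEquivOfTranscendental x h).symm.toAlgHom)

open IntermediateField in
theorem GD1_s_gen (x : ℂ) (h : Transcendental F x) (n : ℕ) (h' : Transcendental F (x + n)) :
    GD1_s x h n h' (AdjoinSimple.gen F x) = x + n := by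
  change (F⟮x + n⟯).val ((RatFunc.algEquivOfTranscendental (x + n) h') ((RatFunc.algEquivOfTranscendental x h).symm
    (AdjoinSimple.gen F x))) = x + n
  rw [RatFunc.algEquivOfTranscendental_symm_gen]
  exact RatFunc.algEquivOfTranscendental_X (x + n) h'

theorem GD1_y (P : P27 ℂ) (h : IsAlgebraic F (xc P)) : IsAlgebraic F (yc P) := by
  have h1 : IsAlgebraic F (4 * xc P ^ 3 + 1) := by
    have h4 : IsAlgebraic F (4 : ℂ) := by
      have := isAlgebraic_algebraMap (R := F) (A := ℂ) (4 : F)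
      rwa [map_ofNat] at this
    have h5 : IsAlgebraic F (1 : ℂ) := isAlgebraic_one
    exact (h4.mul (h.pow 3)).add h5
  rw [← fc_sq] at h1
  have h2 : IsAlgebraic F (fc P) := IsAlgebraic.of_pow (by norm_num) h1
  have h3 : yc P = (algebraMap F ℂ (1 / 2)) * (fc P - 1) := by
    unfold fc
    rw [map_div₀, map_one, map_ofNat]
    ring
  rw [h3]
  exact (isAlgebraic_algebraMap _).mul (h2.sub isAlgebraic_one)

open IntermediateField in
theorem GD1_x (b : O) (hb : b ≠ 0) (R : P27 ℂ) (hR : R ∈ Tor b ℂ) : IsAlgebraic F (xc R) := by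
  classical
  by_contra htr
  have h : Transcendental F (xc R) := htr
  have hR0 : R ≠ 0 := by
    rintro rfl
    exact htr (by rw [xc_zero]; exact isAlgebraic_zero)
  have hn : ∀ n : ℕ, Transcendental F (xc R + n) := by
    intro n h1
    apply htr
    have h2 : xc R = (xc R + n) - algebraMap F ℂ (n : F) := by
      rw [map_natCast]
      ring
    rw [h2]
    exact h1.sub (isAlgebraic_algebraMap _)
  have hfin : Finite (Tor b ℂ) := (full_C b hb).finite hb
  let M0 := F⟮xc R⟯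
  let M1 := algebraicClosure M0 ℂ
  have hx1 : xc R ∈ M1 := by
    rw [mem_algebraicClosure_iff]
    exact isAlgebraic_algebraMap (R := M0) (A := ℂ) (AdjoinSimple.gen F (xc R))
  have hy1 : yc R ∈ M1 := by
    rw [mem_algebraicClosure_iff]
    have h1 : IsAlgebraic M0 (fc R) := by
      refine IsAlgebraic.of_pow (n := 2) (by norm_num) ?_
      rw [fc_sq]
      have e : (4 * xc R ^ 3 + 1 : ℂ) = algebraMap M0 ℂ (4 * (AdjoinSimple.gen F (xc R)) ^ 3 + 1) := by
        rw [map_add, map_mul, map_pow, map_one, map_ofNat]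
        rfl
      rw [e]
      exact isAlgebraic_algebraMap _
    have h3 : yc R = (algebraMap M0 ℂ (1 / 2)) * (fc R - 1) := by
      unfold fc
      rw [map_div₀, map_one, map_ofNat]
      ring
    rw [h3]
    exact (isAlgebraic_algebraMap _).mul (h1.sub isAlgebraic_one)
  let j : M1 →ₐ[F] ℂ := AlgHom.restrictScalars F M1.val
  have hinj : Function.Injective j := j.toRingHom.injective
  have hE : (⟨yc R, hy1⟩ : M1) ^ 2 + ⟨yc R, hy1⟩ = (⟨xc R, hx1⟩ : M1) ^ 3 := by
    apply hinj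
    rw [map_add, map_pow, map_pow]
    exact eqn R
  let R1 : P27 M1 := pt ⟨xc R, hx1⟩ ⟨yc R, hy1⟩ hE
  have hR1 : mp j R1 = R := by
    refine pt_ext (mp_ne j (pt_ne _ _ _)) hR0 ?_ ?_
    · rw [xc_mp]
      rfl
    · rw [yc_mp]
      rfl
  have hT1 : R1 ∈ Tor b M1 := by
    rw [← mp_mem_Tor j, hR1]
    exact hR
  have hext : ∀ n : ℕ, ∃ φ : M1 →ₐ[F] ℂ, φ (⟨xc R, hx1⟩ : M1) = xc R + n := by
    intro n
    obtain ⟨φ, hφ⟩ := IsAlgClosed.surjective_domRestrict_of_isAlgebraic (K := F) (L := M0) (M := ℂ) (E := M1)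
      (GD1_s (xc R) h n (hn n))
    refine ⟨φ, ?_⟩
    have h1 := congrArg (fun f : M0 →ₐ[F] ℂ => f (AdjoinSimple.gen F (xc R))) hφ
    exact h1.trans (GD1_s_gen (xc R) h n (hn n))
  choose φ hφ using hext
  have hmem : ∀ n, mp (φ n) R1 ∈ Tor b ℂ := fun n => (mp_mem_Tor (φ n) b R1).2 hT1
  have hinj2 : Function.Injective (fun n : ℕ => (⟨mp (φ n) R1, hmem n⟩ : Tor b ℂ)) := by
    intro m n hmn
    have h1 := congrArg (fun P : Tor b ℂ => xc P.1) hmn
    simp only at h1
    rw [xc_mp, xc_mp] at h1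
    have e : xc R1 = (⟨xc R, hx1⟩ : M1) := rfl
    rw [e, hφ, hφ] at h1
    have h2 : (m : ℂ) = n := add_left_cancel h1
    exact_mod_cast h2
  exact not_injective_infinite_finite _ hinj2

theorem alg_coord (b : O) (hb : b ≠ 0) (R : P27 ℂ) (hR : R ∈ Tor b ℂ) :
    IsAlgebraic F (xc R) ∧ IsAlgebraic F (yc R) :=
  ⟨GD1_x b hb R hR, GD1_y R (GD1_x b hb R hR)⟩

theorem GD1_range (Ω : Type) [Field Ω] [Algebra F Ω] [IsAlgClosed Ω] (j : Ω →ₐ[F] ℂ) (x : ℂ) (hx : IsAlgebraic F x) :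
    ∃ z : Ω, j z = x := by
  let _ : Algebra Ω ℂ := j.toRingHom.toAlgebra
  have : IsScalarTower F Ω ℂ := IsScalarTower.of_algebraMap_eq fun y => (j.commutes y).symm
  have h1 : IsIntegral Ω x := (hx.tower_top (L := Ω)).isIntegral
  have h2 : (minpoly Ω x).degree = 1 := IsAlgClosed.degree_eq_one_of_irreducible Ω (minpoly.irreducible h1)
  obtain ⟨z, hz⟩ := minpoly.mem_range_of_degree_eq_one Ω x h2
  exact ⟨z, hz⟩

theorem full_Om (Ω : Type) [Field Ω] [DecidableEq Ω] [Algebra F Ω] [IsAlgClosed Ω]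
    [Algebra.IsAlgebraic F Ω] (b : O) (hb : b ≠ 0) : Full b Ω := by
  let j : Ω →ₐ[F] ℂ := IsAlgClosed.lift
  have hC := full_C b hb
  let ψ : Tor b Ω → Tor b ℂ := fun S => ⟨mp j S.1, (mp_mem_Tor j b S.1).2 S.2⟩
  have hψ : Function.Bijective ψ := by
    constructor
    · intro S T h
      exact Subtype.ext (mp_inj j (congrArg Subtype.val h))
    · rintro ⟨R, hR⟩
      by_cases hR0 : R = 0
      · refine ⟨0, Subtype.ext ?_⟩
        change mp j 0 = R
        rw [hR0, map_zero]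
      · obtain ⟨hx, hy⟩ := alg_coord b hb R hR
        obtain ⟨x, hx⟩ := GD1_range Ω j _ hx
        obtain ⟨y, hy⟩ := GD1_range Ω j _ hy
        have hE : y ^ 2 + y = x ^ 3 := by
          apply j.toRingHom.injective
          change j (y ^ 2 + y) = j (x ^ 3)
          rw [map_add, map_pow, map_pow, hx, hy]
          exact eqn R
        have h1 : mp j (pt x y hE) = R := by
          refine pt_ext (mp_ne j (pt_ne _ _ _)) hR0 ?_ ?_
          · rw [xc_mp, xc_pt, hx]
          · rw [yc_mp, yc_pt, hy]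
        refine ⟨⟨pt x y hE, ?_⟩, Subtype.ext h1⟩
        rw [← mp_mem_Tor j, h1]
        exact hR
  unfold Full at hC ⊢
  rw [← hC]
  exact Nat.card_eq_of_bijective ψ hψ

end H28G
end

-- from Lib.H28G.GV5
section

open NumberField IsDedekindDomain WeierstrassCurve

namespace H28G

open H55B

/-! Chunk GV5 (M): P + R for P integral and R near infinity, to first order in t = tt R. (x0,y0) = P, (t,w) coordinates of R, w(1-w) = t^3, x(R) = t/w <> x0 since v(t/w) > 1. add_coords for P and R (or R and P: P + R = R + P):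
s = (y0 + 1/w)/(x0 - t/w) = -(1 + y0 w)/(t - x0 w). Put a = w/t = t^2/(1-w), v(a) = v(t)^2. Then s = -(1 + y0 w)/(t (1 - x0 a)), t/w = (1-w)/t^2 and
x(P+R) + x0 = s^2 - t/w = [ (1+y0w)^2 - (1-w)(1-x0a)^2 ] / (t^2 (1-x0a)^2) = [ 2x0 + (2y0+1) w/t^2 - x0^2 a + y0^2 w^2/t^2 ] / (1-x0a)^2, w/t^2 = t/(1-w).
So X1 := x(P+R) - x0 = [ (2y0+1) t/(1-w) - x0^2 a + y0^2 w^2/t^2 + 2x0 (1 - (1-x0a)^2) ]/(1-x0a)^2 = (2y0+1) t + 3 x0^2 t^2 + (terms of valuation <= v(t)^3)
(a = t^2 + a w, 2x0 (2 x0 a - x0^2a^2)). This gives the statement for x and v(X1 - (2y0+1)t - 3x0^2t^2) <= v(t)^3. y(P+R) = -1 - (s X1 + y0), s = -(1/t)(1 + y0w)/(1-x0a) = -(1/t)(1 + O(t^2)):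
s X1 = -(2y0+1) - 3x0^2 t + (valuation <= v(t)^2), so y(P+R) = y0 + 3x0^2 t + (valuation <= v(t)^2). R = 0: tt 0 = 0, trivial. -/

variable {k : Type} [Field k] [DecidableEq k] [Algebra F k]
  {Γ : Type} [LinearOrderedCommGroupWithZero Γ] (v : Valuation k Γ)

omit [DecidableEq k] [Algebra F k] in
/-- The algebra: t, w = t^3 g, a = t^2 g, b = 1/(1 - x0 t^2 g). -/
theorem GV5_alg {x y t w s X Y : k} (ht0 : t ≠ 0) (hw0 : w ≠ 0) (hw : w = t ^ 3 + w ^ 2)
    (hx : v x ≤ 1) (hy : v y ≤ 1) (ht : v t < 1) (hvw : v w = v t ^ 3)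
    (hs : s = (y - -1 / w) / (x - t / w)) (hX : X = s ^ 2 - x - t / w) (hY : Y = -1 - (s * (X - x) + y)) :
    v X ≤ 1 ∧ v (X - x - (2 * y + 1) * t) ≤ v t ^ 2 ∧ v (Y - y - 3 * x ^ 2 * t) ≤ v t ^ 2 := by
  have hvt0 : 0 < v t := by
    rw [zero_lt_iff]
    exact (Valuation.ne_zero_iff v).2 ht0
  have hw1 : v w < 1 := by
    rw [hvw]
    exact pow_lt_one₀ zero_le ht (by norm_num)
  have hγ : v (1 - w) = 1 := by
    rw [Valuation.map_sub_eq_of_lt_left v (by rwa [map_one]), map_one]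
  have hγ0 : 1 - w ≠ 0 := by
    intro h
    rw [h, map_zero] at hγ
    exact zero_ne_one hγ
  obtain ⟨g, hg⟩ : ∃ g, g = (1 - w)⁻¹ := ⟨_, rfl⟩
  have hvg : v g ≤ 1 := by rw [hg, map_inv₀, hγ, inv_one]
  have hg1 : g * (1 - w) = 1 := by rw [hg, inv_mul_cancel₀ hγ0]
  have ew : w = t ^ 3 * g := by
    have h1 : w * (1 - w) = t ^ 3 := by linear_combination hw
    have h2 : w = w * (1 - w) * g := by linear_combination (-w) * hg1
    rw [h2, h1]
  have hg2 : g = 1 + t ^ 3 * g ^ 2 := by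
    rw [ew] at hg1
    linear_combination hg1
  have hβ : v (1 - x * (t ^ 2 * g)) = 1 := by
    have h1 : v (x * (t ^ 2 * g)) < 1 := by
      rw [map_mul, map_mul, map_pow]
      have h2 : v t ^ 2 < 1 := pow_lt_one₀ zero_le ht (by norm_num)
      have h3 : v t ^ 2 * v g < 1 := (mul_le_of_le_one_right zero_le hvg).trans_lt h2
      exact (mul_le_of_le_one_left zero_le hx).trans_lt h3
    rw [Valuation.map_sub_eq_of_lt_left v (by rwa [map_one]), map_one]
  have hβ0 : 1 - x * (t ^ 2 * g) ≠ 0 := by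
    intro h
    rw [h, map_zero] at hβ
    exact zero_ne_one hβ
  obtain ⟨b, hb⟩ : ∃ b, b = (1 - x * (t ^ 2 * g))⁻¹ := ⟨_, rfl⟩
  have hvb : v b ≤ 1 := by rw [hb, map_inv₀, hβ, inv_one]
  have hb1 : b * (1 - x * (t ^ 2 * g)) = 1 := by rw [hb, inv_mul_cancel₀ hβ0]
  have hg0 : g ≠ 0 := by
    rw [hg]
    exact inv_ne_zero hγ0
  -- the slope
  have es : s * t = -((1 + y * (t ^ 3 * g)) * b) := by
    have hD : x - t / w = -(t * (1 - x * (t ^ 2 * g))) / w := by
      rw [ew]
      field_simp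
      ring
    rw [hs, hD, hb]
    rw [ew]
    field_simp
    ring
  have etw : t / w * t ^ 2 = 1 - w := by
    have h1 : t / w * t ^ 2 = t ^ 3 / w := by ring
    rw [h1, div_eq_iff hw0]
    linear_combination -hw
  -- the integers
  let t' : v.integer := ⟨t, ht.le⟩
  let g' : v.integer := ⟨g, hvg⟩
  let b' : v.integer := ⟨b, hvb⟩
  let x' : v.integer := ⟨x, hx⟩
  let y' : v.integer := ⟨y, hy⟩
  obtain ⟨M3, hM3⟩ : ∃ M : v.integer, M = (2 * y' + 1) * t' * g' ^ 2 + x' ^ 2 * t' ^ 2 * (3 * g' ^ 2 - g' ^ 3) +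
    (y' ^ 2 * t' * g' ^ 2 - 2 * x' ^ 3 * t' * g' ^ 2 + x' ^ 2 * t' ^ 2 * g' ^ 3) := ⟨_, rfl⟩
  have hM3' : (M3 : k) = (2 * y + 1) * t * g ^ 2 + x ^ 2 * t ^ 2 * (3 * g ^ 2 - g ^ 3) +
    (y ^ 2 * t * g ^ 2 - 2 * x ^ 3 * t * g ^ 2 + x ^ 2 * t ^ 2 * g ^ 3) := by rw [hM3]; rfl
  obtain ⟨M1, hM1⟩ : ∃ M : v.integer, M = (2 * y' + 1) + 3 * x' ^ 2 * t' + t' ^ 2 * M3 := ⟨_, rfl⟩
  have hM1' : (M1 : k) = (2 * y + 1) + 3 * x ^ 2 * t + t ^ 2 * M3 := by rw [hM1]; rfl
  obtain ⟨Q, hQ⟩ : ∃ M : v.integer, M = M3 + x' * g' * b' * (b' + 1) * M1 := ⟨_, rfl⟩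
  have hQ' : (Q : k) = M3 + x * g * b * (b + 1) * M1 := by rw [hQ]; rfl
  obtain ⟨B, hB⟩ : ∃ M : v.integer, M = x' * g' * b' + y' * t' * g' * b' := ⟨_, rfl⟩
  have hB' : (B : k) = x * g * b + y * t * g * b := by rw [hB]; rfl
  -- X
  have eX0 : (X - x) * t ^ 2 = (1 + y * (t ^ 3 * g)) ^ 2 * b ^ 2 - 2 * x * t ^ 2 - (1 - w) := by
    have h1 : (s * t) ^ 2 = (1 + y * (t ^ 3 * g)) ^ 2 * b ^ 2 := by rw [es]; ring
    rw [hX]
    linear_combination h1 - etw
  obtain ⟨β, hβd⟩ : ∃ β, β = 1 - x * (t ^ 2 * g) := ⟨_, rfl⟩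
  rw [← hβd] at hb1
  obtain ⟨T, hT⟩ : ∃ T : k, T = (2 * y + 1) * t + 3 * x ^ 2 * t ^ 2 + t ^ 3 * M3 := ⟨_, rfl⟩
  have hbr : (1 + y * (t ^ 3 * g)) ^ 2 - 2 * x * t ^ 2 * β ^ 2 - (1 - t ^ 3 * g) * β ^ 2 = t ^ 2 * T := by
    rw [hT, hM3', hβd]
    linear_combination t ^ 2 * (2 * x + (2 * y + 1) * t + x ^ 2 * t ^ 2 * (3 - g)) * hg2
  have hTM : T = t * M1 := by
    rw [hT, hM1']
    ring
  have hb2 : b - 1 = x * t ^ 2 * g * b := by
    rw [hβd] at hb1
    linear_combination hb1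
  have eX : X - x = T + t ^ 3 * (x * g * b * (b + 1) * M1) := by
    have ht2 : t ^ 2 ≠ 0 := pow_ne_zero 2 ht0
    apply mul_right_cancel₀ ht2
    have h1 : (X - x) * t ^ 2 = b ^ 2 * (t ^ 2 * T) := by
      rw [ew] at eX0
      linear_combination eX0 + b ^ 2 * hbr + (2 * x * t ^ 2 + (1 - t ^ 3 * g)) * (b * β + 1) * hb1
    rw [h1, hTM]
    linear_combination t ^ 3 * M1 * (b + 1) * hb2
  have eX2 : X - x = (2 * y + 1) * t + 3 * x ^ 2 * t ^ 2 + t ^ 3 * Q := by
    rw [eX, hT, hQ']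
    ring
  have vt2 : ∀ z : v.integer, v (t ^ 2 * z) ≤ v t ^ 2 := fun z => by
    rw [map_mul, map_pow]
    exact mul_le_of_le_one_right zero_le z.2
  have hvt2 : v t ^ 2 ≤ 1 := pow_le_one₀ zero_le ht.le
  refine ⟨?_, ?_, ?_⟩
  · have e : X = ((x' + ((2 * y' + 1) * t' + 3 * x' ^ 2 * t' ^ 2 + t' ^ 3 * Q) : v.integer) : k) := by
      change X = x + ((2 * y + 1) * t + 3 * x ^ 2 * t ^ 2 + t ^ 3 * (Q : k))
      rw [← eX2]
      ring
    rw [e]
    exact (x' + ((2 * y' + 1) * t' + 3 * x' ^ 2 * t' ^ 2 + t' ^ 3 * Q)).2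
  · have e : X - x - (2 * y + 1) * t = t ^ 2 * ((3 * x' ^ 2 + t' * Q : v.integer) : k) := by
      change X - x - (2 * y + 1) * t = t ^ 2 * (3 * x ^ 2 + t * (Q : k))
      rw [eX2]
      ring
    rw [e]
    exact vt2 _
  · have e : Y - y - 3 * x ^ 2 * t = t ^ 2 * ((Q + B * ((2 * y' + 1) + 3 * x' ^ 2 * t' + t' ^ 2 * Q) : v.integer) : k) := by
      change Y - y - 3 * x ^ 2 * t = t ^ 2 * ((Q : k) + (B : k) * ((2 * y + 1) + 3 * x ^ 2 * t + t ^ 2 * (Q : k)))
      apply mul_right_cancel₀ ht0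
      have h2 : (1 + y * (t ^ 3 * g)) * b = 1 + t ^ 2 * (B : k) := by
        rw [hB']
        linear_combination hb2
      have h3 : Y * t = (-1 - y) * t - (s * t) * (X - x) := by
        rw [hY]
        ring
      have h4 : (Y - y - 3 * x ^ 2 * t) * t = Y * t - y * t - 3 * x ^ 2 * t * t := by ring
      rw [h4, h3, es, eX2, h2]
      ring
    rw [e]
    exact vt2 _

theorem transl {P R : P27 k} (hP : P ≠ 0) (h : v (xc P) ≤ 1) (hR : E1 v R) :
    P + R ≠ 0 ∧ v (xc (P + R)) ≤ 1 ∧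
    v (xc (P + R) - xc P - fc P * tt R) ≤ v (tt R) ^ 2 ∧
    v (yc (P + R) - yc P - 3 * xc P ^ 2 * tt R) ≤ v (tt R) ^ 2 := by
  by_cases hR0 : R = 0
  · subst hR0
    have e : tt (0 : P27 k) = 0 := by
      unfold tt
      rw [xc_zero, neg_zero, zero_div]
    rw [add_zero, e]
    refine ⟨hP, h, ?_, ?_⟩ <;> simp
  · have h1 : 1 < v (xc R) := hR.resolve_left hR0
    obtain ⟨ht1, ht2, _, _⟩ := tt_val v h1
    obtain ⟨hw0, hvw, hw, hxR, hyR⟩ := ww_val v h1
    have ht0 : tt R ≠ 0 := (Valuation.ne_zero_iff v).1 ht2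
    have hne : xc P ≠ xc R := by
      intro he
      rw [he] at h
      exact absurd h1 (not_lt.2 h)
    obtain ⟨a1, a2, a3⟩ := add_coords hP hR0 hne
    have h5 := GV5_alg v (x := xc P) (y := yc P) (t := tt R) (w := ww R) (s := (yc P - yc R) / (xc P - xc R))
      (X := xc (P + R)) (Y := yc (P + R)) ht0 hw0 hw h (int_y v h) ht1 hvw (by rw [← hxR, ← hyR])
      (by rw [a2, ← hxR]) a3
    refine ⟨a1, h5.1, ?_, h5.2.2⟩
    unfold fc
    exact h5.2.1

end H28G
end

-- from Lib.H28G.GV2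
section

open NumberField IsDedekindDomain WeierstrassCurve

namespace H28G

open H55B

/-! Chunk GV2 (M/L): addition near infinity. m = max (v tt P) (v tt Q) < 1. add_cases. P = 0 or Q = 0: trivial. P = -Q: P + Q = 0, tt Q + tt(-Q) = - 1/x(Q)^2 (tt(-Q) = x/(1+y)), of valuation v(tt Q)^4.
P, Q <> 0 otherwise, both with v x > 1 (GV1). t_i, w_i coordinates, w_i = t_i^3 + w_i^2. Let
L = (t1^2 + t1 t2 + t2^2)/(1 - w1 - w2), v(1 - w1 - w2) = 1, v(L) <= m^2; (w1 - w2)(1 - w1 - w2) = (t1 - t2)(t1^2 + t1 t2 + t2^2), so w1 - w2 = L (t1 - t2). N = w1 - L t1 = w2 - L t2, v(N) <= m^3.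
t3 = -L^2 - t1 - t2, w3 = L t3 + N. Claim: t1+t2+t3 = -L^2, t1t2+t1t3+t2t3 = 2 L N - L, t1t2t3 = N - N^2 (the cubic t^3 + (Lt+N)^2 - (Lt+N) has the roots t1, t2, hence t3; for t1 <> t2 subtract the
equations of t1 and t2 and divide by t1 - t2; t1 = t2 implies w1 = w2, P = Q, and there the derivative 3t^2 + 2LN' .. vanishes by the definition of L = 3t^2/(1-2w)). Consequences (pure algebra):
w1 w2 w3 = N^3 and t1 w2 w3 + t2 w1 w3 + t3 w1 w2 = L^2 N, w3 = t3^3 + w3^2.
Case x(P) <> x(Q) (add_coords): slope s = (y1-y2)/(x1-x2) with x = t/w, y = -1/w. N <> 0: if N = 0 then w_i = L t_i, so x1 = 1/L = x2. s = L/N (1 = L x_i - N y_i). w3 <> 0 (w1w2w3 = N^3). So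
x(P+Q) = s^2 - x1 - x2 = L^2/N^2 - t1/w1 - t2/w2 = t3/w3, and y(-(P+Q)) = s (x3 - x1) + y1 = -1/w3 (from 1 = L x3 - N y3). v(t3) <= m, v(w3) <= m^3 < 1, w3 = t3^3 + w3^2 gives v(w3) = v(t3)^3, v(x3) = v(t3)^(-2) > 1: E1.
tt(P+Q) = x3/(1 + y3) = - t3/(1 - w3), y3 = -1/w3, so tt(P+Q) - t1 - t2 = (L^2 + (t1+t2) w3)/(1 - w3), of valuation <= m^4 <= m^2.
Case P = Q, fc P <> 0 (dbl_coords): the same with s = 3x^2/(2y+1) = L/N: (1-2w)w - 3t^3 = w(w-2) (N (1-2w) = w(w-2)), N <> 0. -/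

theorem GV2_alg {k : Type} [Field k] {t1 w1 t2 w2 L N : k} (h1 : w1 = t1 ^ 3 + w1 ^ 2)
    (hL : L * (1 - w1 - w2) = t1 ^ 2 + t1 * t2 + t2 ^ 2) (hw1 : w1 = L * t1 + N)
    (hw2 : w2 = L * t2 + N) {t3 w3 : k} (ht3 : t3 = -L ^ 2 - t1 - t2) (hw3 : w3 = L * t3 + N) :
    w1 * w2 * w3 = N ^ 3 ∧ t1 * w2 * w3 + t2 * w1 * w3 + t3 * w1 * w2 = L ^ 2 * N ∧
      w3 = t3 ^ 3 + w3 ^ 2 := by
  have E1 : t1 + t2 + t3 = -L ^ 2 := by rw [ht3]; ring
  have E2 : t1 * t2 + t1 * t3 + t2 * t3 = 2 * L * N - L := by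
    rw [hw1, hw2] at hL
    rw [ht3]
    linear_combination hL
  have E3 : t1 * t2 * t3 = N - N ^ 2 := by
    have h1' : L * t1 + N = t1 ^ 3 + (L * t1 + N) ^ 2 := by rw [← hw1]; exact h1
    linear_combination t1 * E2 - t1 ^ 2 * E1 - h1'
  rw [hw1, hw2, hw3]
  refine ⟨?_, ?_, ?_⟩
  · linear_combination L ^ 3 * E3 + L ^ 2 * N * E2 + L * N ^ 2 * E1
  · linear_combination 3 * L ^ 2 * E3 + 2 * L * N * E2 + N ^ 2 * E1
  · linear_combination -t3 ^ 2 * E1 + t3 * E2 - E3

variable {k : Type} [Field k] [DecidableEq k] [Algebra F k]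
  {Γ : Type} [LinearOrderedCommGroupWithZero Γ] (v : Valuation k Γ)

theorem GV2_aux {m : Γ} (hm : m < 1) {n : ℕ} (hn : 1 ≤ n) {a : Γ} (ha : a ≤ m ^ n) : a ≤ m :=
  ha.trans (by
    calc m ^ n ≤ m ^ 1 := pow_le_pow_right_of_le_one' hm.le hn
      _ = m := pow_one m)

/-- The addition in the coordinates t, w. -/
theorem GV2_core {P Q : P27 k} (hP : 1 < v (xc P)) (hQ : 1 < v (xc Q)) (s : k)
    (hs : ∀ L N : k, L * (1 - ww P - ww Q) = tt P ^ 2 + tt P * tt Q + tt Q ^ 2 →
      ww P = L * tt P + N → ww Q = L * tt Q + N → N ≠ 0 ∧ s * N = L)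
    (hx : xc (P + Q) = s ^ 2 - xc P - xc Q)
    (hy : yc (P + Q) = -1 - (s * (xc (P + Q) - xc P) + yc P)) :
    E1 v (P + Q) ∧ v (tt (P + Q) - tt P - tt Q) ≤ (max (v (tt P)) (v (tt Q))) ^ 2 := by
  obtain ⟨a1, a2, -, -⟩ := tt_val v hP
  obtain ⟨b1, b2, -, -⟩ := tt_val v hQ
  obtain ⟨c1, c2, c3, c4, c5⟩ := ww_val v hP
  obtain ⟨d1, d2, d3, d4, d5⟩ := ww_val v hQ
  generalize tt P = t1 at *
  generalize tt Q = t2 at *
  generalize ww P = w1 at *
  generalize ww Q = w2 at *
  set m : Γ := max (v t1) (v t2) with hmdef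
  have hm : m < 1 := max_lt a1 b1
  have hm1 : v t1 ≤ m := le_max_left _ _
  have hm2 : v t2 ≤ m := le_max_right _ _
  have hw1m : v w1 ≤ m ^ 3 := by rw [c2]; exact pow_le_pow_left₀ zero_le hm1 3
  have hw2m : v w2 ≤ m ^ 3 := by rw [d2]; exact pow_le_pow_left₀ zero_le hm2 3
  have hw1l : v w1 < 1 := lt_of_le_of_lt (GV2_aux hm (by norm_num) hw1m) hm
  have hw2l : v w2 < 1 := lt_of_le_of_lt (GV2_aux hm (by norm_num) hw2m) hm
  have hu : v (1 - w1 - w2) = 1 := by
    have : (1 : k) - w1 - w2 = 1 - (w1 + w2) := by ring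
    rw [this]
    exact v.map_one_sub_of_lt (v.map_add_lt hw1l hw2l)
  have hu0 : (1 : k) - w1 - w2 ≠ 0 := by
    intro h
    rw [h, map_zero] at hu
    exact zero_ne_one hu
  obtain ⟨L, hLdef⟩ : ∃ L : k, L = (t1 ^ 2 + t1 * t2 + t2 ^ 2) / (1 - w1 - w2) := ⟨_, rfl⟩
  have hL : L * (1 - w1 - w2) = t1 ^ 2 + t1 * t2 + t2 ^ 2 := by
    rw [hLdef, div_mul_cancel₀ _ hu0]
  obtain ⟨N, hNdef⟩ : ∃ N : k, N = w1 - L * t1 := ⟨_, rfl⟩
  have hw1 : w1 = L * t1 + N := by rw [hNdef]; ring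
  have hw2 : w2 = L * t2 + N := by
    have h : (w1 - w2 - L * (t1 - t2)) * (1 - w1 - w2) = 0 := by
      linear_combination c3 - d3 - (t1 - t2) * hL
    rcases mul_eq_zero.1 h with h | h
    · rw [hNdef]
      linear_combination -h
    · exact absurd h hu0
  obtain ⟨hN0, hsN⟩ := hs L N hL hw1 hw2
  obtain ⟨t3, ht3⟩ : ∃ t3 : k, t3 = -L ^ 2 - t1 - t2 := ⟨_, rfl⟩
  obtain ⟨w3, hw3⟩ : ∃ w3 : k, w3 = L * t3 + N := ⟨_, rfl⟩
  obtain ⟨A1, A2, A3⟩ := GV2_alg c3 hL hw1 hw2 ht3 hw3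
  have hw30 : w3 ≠ 0 := by
    intro h
    rw [h, mul_zero] at A1
    exact hN0 (pow_eq_zero_iff (by norm_num) |>.1 A1.symm)
  -- coordinates of the sum
  have hX : xc (P + Q) = t3 / w3 := by
    have hs' : s = L / N := by rw [eq_div_iff hN0]; exact hsN
    rw [hx, c4, d4, hs']
    have h : L ^ 2 * (w1 * w2 * w3) = N ^ 2 * (t1 * w2 * w3 + t2 * w1 * w3 + t3 * w1 * w2) := by
      rw [A1, A2]; ring
    field_simp
    linear_combination h
  have hY : yc (P + Q) = -1 + 1 / w3 := by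
    have hs' : s = L / N := by rw [eq_div_iff hN0]; exact hsN
    rw [hy, hX, c4, c5, hs']
    have h : L * (t3 * w1 - t1 * w3) = N * (w3 - w1) := by
      rw [hw3, hw1]; ring
    field_simp
    linear_combination -h
  -- valuations
  have hLm : v L ≤ m ^ 2 := by
    have e : v L = v (t1 ^ 2 + t1 * t2 + t2 ^ 2) := by
      rw [← hL, map_mul, hu, mul_one]
    rw [e]
    refine v.map_add_le (v.map_add_le ?_ ?_) ?_
    · rw [map_pow]; exact pow_le_pow_left₀ zero_le hm1 2
    · rw [map_mul, sq]; exact mul_le_mul' hm1 hm2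
    · rw [map_pow]; exact pow_le_pow_left₀ zero_le hm2 2
  have hNm : v N ≤ m ^ 3 := by
    rw [hNdef]
    refine v.map_sub_le hw1m ?_
    rw [map_mul, pow_succ]
    exact mul_le_mul' hLm hm1
  have hL4 : v (L ^ 2) ≤ m ^ 4 := by
    rw [map_pow]
    calc v L ^ 2 ≤ (m ^ 2) ^ 2 := pow_le_pow_left₀ zero_le hLm 2
      _ = m ^ 4 := by rw [← pow_mul]
  have ht3m : v t3 ≤ m := by
    rw [ht3]
    refine v.map_sub_le (v.map_sub_le ?_ hm1) hm2
    rw [Valuation.map_neg]
    exact GV2_aux hm (by norm_num) hL4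
  have hw3m : v w3 ≤ m ^ 3 := by
    rw [hw3]
    refine v.map_add_le ?_ hNm
    rw [map_mul, pow_succ]
    exact mul_le_mul' hLm ht3m
  have hw3l : v w3 < 1 := lt_of_le_of_lt (GV2_aux hm (by norm_num) hw3m) hm
  have hu3 : v (1 - w3) = 1 := v.map_one_sub_of_lt hw3l
  have hu30 : (1 : k) - w3 ≠ 0 := by
    intro h
    rw [h, map_zero] at hu3
    exact zero_ne_one hu3
  have hvw3 : v w3 = v t3 ^ 3 := by
    have h : w3 * (1 - w3) = t3 ^ 3 := by linear_combination A3
    have h2 := congrArg v h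
    rw [map_mul, hu3, mul_one, map_pow] at h2
    exact h2
  have hvt3 : v t3 ≠ 0 := by
    intro h
    rw [h, zero_pow (by norm_num)] at hvw3
    exact hw30 ((v.zero_iff).1 hvw3)
  have ht3l : v t3 < 1 := lt_of_le_of_lt ht3m hm
  have hE : 1 < v (xc (P + Q)) := by
    rw [hX, map_div₀, hvw3]
    rw [lt_div_iff₀ (pow_pos (zero_lt_iff.2 hvt3) 3), one_mul]
    calc v t3 ^ 3 < v t3 ^ 1 := pow_lt_pow_right_of_lt_one₀ (zero_lt_iff.2 hvt3) ht3l (by norm_num)
      _ = v t3 := pow_one _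
  refine ⟨Or.inr hE, ?_⟩
  have hT : tt (P + Q) - t1 - t2 = (L ^ 2 + (t1 + t2) * w3) / (1 - w3) := by
    unfold tt
    rw [hX, hY]
    have h1 : (-1 : k) + 1 / w3 = (1 - w3) / w3 := by field_simp; ring
    rw [h1]
    have h2 : -(t3 / w3) / ((1 - w3) / w3) = -t3 / (1 - w3) := by field_simp
    rw [h2, eq_div_iff hu30, ht3]
    field_simp
    ring
  rw [hT, map_div₀, hu3, div_one]
  have hm42 : m ^ 4 ≤ m ^ 2 := pow_le_pow_right_of_le_one' hm.le (by norm_num)
  refine v.map_add_le (hL4.trans hm42) ?_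
  rw [map_mul]
  calc v (t1 + t2) * v w3 ≤ m * m ^ 3 := mul_le_mul' (v.map_add_le hm1 hm2) hw3m
    _ = m ^ 4 := by rw [← pow_succ']
    _ ≤ m ^ 2 := hm42

theorem E1_add {P Q : P27 k} (hP : E1 v P) (hQ : E1 v Q) :
    E1 v (P + Q) ∧ v (tt (P + Q) - tt P - tt Q) ≤ (max (v (tt P)) (v (tt Q))) ^ 2 := by
  have ht0 : tt (0 : P27 k) = 0 := by
    unfold tt
    rw [xc_zero, neg_zero, zero_div]
  rcases add_cases P Q with h | h | h | ⟨hP0, h, hf⟩ | ⟨hP0, hQ0, h⟩
  · rw [h, zero_add, ht0, sub_zero, sub_self, map_zero]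
    exact ⟨hQ, zero_le⟩
  · rw [h, add_zero, ht0, sub_zero, sub_self, map_zero]
    exact ⟨hP, zero_le⟩
  · rcases hQ with hQ | hQ
    · have hP0 : P = 0 := by rw [h, hQ, neg_zero]
      rw [hP0, hQ, add_zero, ht0, sub_zero, sub_self, map_zero]
      exact ⟨Or.inl rfl, zero_le⟩
    · have hQ0 : Q ≠ 0 := by
        rintro rfl
        rw [xc_zero, map_zero] at hQ
        exact absurd hQ (not_lt.2 zero_le)
      refine ⟨?_, ?_⟩
      · rw [h, neg_add_cancel]
        exact Or.inl rfl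
      obtain ⟨b1, b2, b3, b4⟩ := tt_val v hQ
      have hxne : xc Q ≠ 0 := by
        intro h0
        rw [h0, map_zero] at hQ
        exact absurd hQ (not_lt.2 zero_le)
      have hvx : v (xc Q) ≠ 0 := (v.ne_zero_iff).2 hxne
      have hy0 : yc Q ≠ 0 := by
        intro h0
        have := eqn Q
        rw [h0] at this
        apply hxne
        apply pow_eq_zero_iff (three_ne_zero) |>.1
        rw [← this]
        ring
      have hy1 : 1 + yc Q ≠ 0 := by
        intro h0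
        have := eqn Q
        apply hxne
        apply pow_eq_zero_iff (three_ne_zero) |>.1
        rw [← this]
        linear_combination yc Q * h0
      have hsum : tt (P + Q) - tt P - tt Q = 1 / xc Q ^ 2 := by
        rw [h, neg_add_cancel, ht0]
        unfold tt
        rw [xc_neg, yc_neg hQ0]
        have h1 : (-1 : k) - yc Q ≠ 0 := by
          intro h0
          apply hy1
          linear_combination -h0
        rw [eq_div_iff (pow_ne_zero 2 hxne)]
        field_simp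
        linear_combination eqn Q
      rw [hsum, map_div₀, map_one, map_pow]
      have h4 : v (tt Q) ^ 4 = 1 / v (xc Q) ^ 2 := by
        rw [eq_div_iff (pow_ne_zero 2 hvx)]
        calc v (tt Q) ^ 4 * v (xc Q) ^ 2 = (v (tt Q) ^ 2 * v (xc Q)) ^ 2 := by
              rw [mul_pow, ← pow_mul]
          _ = 1 := by rw [b3, one_pow]
      rw [← h4]
      calc v (tt Q) ^ 4 ≤ v (tt Q) ^ 2 := pow_le_pow_right_of_le_one' b1.le (by norm_num)
        _ ≤ _ := pow_le_pow_left₀ zero_le (le_max_right _ _) 2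
  · subst h
    have hP1 : 1 < v (xc P) := hP.resolve_left hP0
    obtain ⟨e1, e2, e3⟩ := dbl_coords hP0 hf
    refine GV2_core v hP1 hP1 (3 * xc P ^ 2 / fc P) ?_ (by rw [e2]; ring) e3
    intro L N hL hw _
    obtain ⟨c1, c2, c3, c4, c5⟩ := ww_val v hP1
    have hf2 : fc P = (ww P - 2) / ww P := by
      unfold fc
      rw [c5]
      field_simp
      ring
    have hw2 : ww P - 2 ≠ 0 := by
      intro h0
      apply hf
      rw [hf2, h0, zero_div]
    have hvw : v (ww P) < 1 := by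
      rw [c2]
      exact pow_lt_one' (tt_val v hP1).1 (by norm_num)
    have hu : v (1 - ww P - ww P) = 1 := by
      have : (1 : k) - ww P - ww P = 1 - (ww P + ww P) := by ring
      rw [this]
      exact v.map_one_sub_of_lt (v.map_add_lt hvw hvw)
    have hu0 : (1 : k) - ww P - ww P ≠ 0 := by
      intro h
      rw [h, map_zero] at hu
      exact zero_ne_one hu
    have hNu : N * (1 - ww P - ww P) = ww P * (ww P - 2) := by
      linear_combination (1 - ww P - ww P) * (-hw) - tt P * hL + 3 * c3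
    refine ⟨?_, ?_⟩
    · intro hN
      rw [hN, zero_mul] at hNu
      exact mul_ne_zero c1 hw2 hNu.symm
    · have h3 : (3 * xc P ^ 2 / fc P) = 3 * tt P ^ 2 / (ww P * (ww P - 2)) := by
        rw [hf2, c4]
        field_simp
      rw [h3]
      apply mul_right_cancel₀ hu0
      rw [hL, mul_assoc, hNu, div_mul_cancel₀ _ (mul_ne_zero c1 hw2)]
      ring
  · have hP1 : 1 < v (xc P) := hP.resolve_left hP0
    have hQ1 : 1 < v (xc Q) := hQ.resolve_left hQ0
    obtain ⟨e1, e2, e3⟩ := add_coords hP0 hQ0 h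
    refine GV2_core v hP1 hQ1 ((yc P - yc Q) / (xc P - xc Q)) ?_ e2 e3
    intro L N hL hw1 hw2
    obtain ⟨c1, c2, c3, c4, c5⟩ := ww_val v hP1
    obtain ⟨d1, d2, d3, d4, d5⟩ := ww_val v hQ1
    have hx : (xc P - xc Q) * (ww P * ww Q) = N * (tt P - tt Q) := by
      have : (xc P - xc Q) * (ww P * ww Q) = tt P * ww Q - tt Q * ww P := by
        rw [c4, d4]
        field_simp
      rw [this, hw1, hw2]
      ring
    have hy : (yc P - yc Q) * (ww P * ww Q) = L * (tt P - tt Q) := by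
      have : (yc P - yc Q) * (ww P * ww Q) = ww P - ww Q := by
        rw [c5, d5]
        field_simp
        ring
      rw [this, hw1, hw2]
      ring
    have hd : xc P - xc Q ≠ 0 := sub_ne_zero.2 h
    have hne : N * (tt P - tt Q) ≠ 0 := by
      rw [← hx]
      exact mul_ne_zero hd (mul_ne_zero c1 d1)
    refine ⟨left_ne_zero_of_mul hne, ?_⟩
    have ht : tt P - tt Q ≠ 0 := right_ne_zero_of_mul hne
    rw [div_mul_eq_mul_div, div_eq_iff hd]
    apply mul_right_cancel₀ (mul_ne_zero c1 d1)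
    apply mul_right_cancel₀ ht
    linear_combination (N * (tt P - tt Q)) * hy - L * (tt P - tt Q) * hx

end H28G
end

-- from Lib.H28G.GV3
section

open NumberField IsDedekindDomain WeierstrassCurve

namespace H28G

open H55B

/-! Chunk GV3 (S/M): multiplication by c near infinity. If v(tt P) = 0 or P = 0: P = 0, trivial (tt 0 = 0). tt_int: for n in N by induction: E1 (nP), v(tt(nP) - n tt P) <= v(tt P)^2, hence v(tt(nP)) <= v(tt P) (v(n) <= 1, v(tt P) < 1), E1_add with
max = v(tt P). For negative n: tt(-P) + tt P = -1/x^2 (or E1_add for P and -P). c = a + b om: E1_om, tt(omP P) = ok tt P, act_apply, E1_add once more (all the valuations are <= v(tt P)); ak c = a + b ok.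
act_val: if c' c = 1 mod the annihilator (act c' (act c P) = P): v(tt(act c P)) <= v(tt P) <= v(tt(act c P)). -/

variable {k : Type} [Field k] [DecidableEq k] [Algebra F k]
  {Γ : Type} [LinearOrderedCommGroupWithZero Γ] (v : Valuation k Γ)

omit [DecidableEq k] in
theorem GV3_tt0 : tt (0 : P27 k) = 0 := by
  unfold tt
  rw [xc_zero, neg_zero, zero_div]

theorem GV3_tt_lt {P : P27 k} (hP : E1 v P) : v (tt P) < 1 := by
  rcases hP with h | h
  · rw [h, GV3_tt0, map_zero]
    exact zero_lt_one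
  · exact (tt_val v h).1

theorem GV3_tt_neg {P : P27 k} (hP : E1 v P) : v (tt (-P)) = v (tt P) := by
  rcases hP with h | h
  · rw [h]
    rfl
  · have h1 : 1 < v (xc (-P)) := by rw [xc_neg]; exact h
    obtain ⟨-, -, a3, -⟩ := tt_val v h
    obtain ⟨-, -, b3, -⟩ := tt_val v h1
    rw [xc_neg] at b3
    have hx : v (xc P) ≠ 0 := by
      intro h0
      rw [h0] at h
      exact absurd h (not_lt.2 zero_le)
    have h2 : v (tt (-P)) ^ 2 = v (tt P) ^ 2 := by
      apply mul_right_cancel₀ hx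
      rw [a3, b3]
    exact (pow_left_inj₀ zero_le zero_le two_ne_zero).1 h2

/-- P is in E1 and tt P = a T up to squares. -/
def GV3_R (T : k) (P : P27 k) (a : k) : Prop := E1 v P ∧ v a ≤ 1 ∧ v (tt P - a * T) ≤ v T ^ 2

omit [DecidableEq k] in
theorem GV3_le {T : k} (hT : v T < 1) {P : P27 k} {a : k} (h : GV3_R v T P a) : v (tt P) ≤ v T := by
  have e1 : tt P = (tt P - a * T) + a * T := by ring
  rw [e1]
  refine v.map_add_le (h.2.2.trans ?_) ?_
  · rw [sq]
    exact mul_le_of_le_one_left' hT.le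
  · rw [map_mul]
    exact mul_le_of_le_one_left' h.2.1

theorem GV3_add {T : k} (hT : v T < 1) {P Q : P27 k} {a b : k} (h : GV3_R v T P a)
    (h' : GV3_R v T Q b) : GV3_R v T (P + Q) (a + b) := by
  obtain ⟨h1, h2⟩ := E1_add v h.1 h'.1
  refine ⟨h1, v.map_add_le h.2.1 h'.2.1, ?_⟩
  have e1 : tt (P + Q) - (a + b) * T = (tt (P + Q) - tt P - tt Q) + (tt P - a * T) +
      (tt Q - b * T) := by ring
  rw [e1]
  refine v.map_add_le (v.map_add_le (h2.trans ?_) h.2.2) h'.2.2
  exact pow_le_pow_left₀ zero_le (max_le (GV3_le v hT h) (GV3_le v hT h')) 2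

theorem GV3_neg {T : k} (hT : v T < 1) {P : P27 k} {a : k} (h : GV3_R v T P a) :
    GV3_R v T (-P) (-a) := by
  have hn := E1_neg v h.1
  obtain ⟨h1, h2⟩ := E1_add v h.1 hn
  refine ⟨hn, by rw [Valuation.map_neg]; exact h.2.1, ?_⟩
  rw [add_neg_cancel, GV3_tt0, GV3_tt_neg v h.1, max_self] at h2
  have e1 : tt (-P) - -a * T = -(0 - tt P - tt (-P)) - (tt P - a * T) := by ring
  rw [e1]
  refine v.map_sub_le ?_ h.2.2
  rw [Valuation.map_neg]
  exact h2.trans (pow_le_pow_left₀ zero_le (GV3_le v hT h) 2)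

theorem GV3_nsmul {T : k} (hT : v T < 1) {P : P27 k} {a : k} (h : GV3_R v T P a) (n : ℕ) :
    GV3_R v T (n • P) ((n : k) * a) := by
  induction n with
  | zero =>
    rw [zero_smul, Nat.cast_zero, zero_mul]
    refine ⟨E1_zero v, ?_, ?_⟩
    · rw [map_zero]
      exact zero_le
    · rw [GV3_tt0, zero_mul, sub_zero, map_zero]
      exact zero_le
  | succ n ih =>
    have h1 := GV3_add v hT ih h
    rw [succ_nsmul]
    have e1 : ((n + 1 : ℕ) : k) * a = (n : k) * a + a := by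
      push_cast
      ring
    rw [e1]
    exact h1

theorem GV3_zsmul {T : k} (hT : v T < 1) {P : P27 k} {a : k} (h : GV3_R v T P a) (n : ℤ) :
    GV3_R v T (n • P) ((n : k) * a) := by
  obtain ⟨m, rfl | rfl⟩ := n.eq_nat_or_neg
  · have h1 := GV3_nsmul v hT h m
    rw [natCast_zsmul, Int.cast_natCast]
    exact h1
  · have h1 := GV3_neg v hT (GV3_nsmul v hT h m)
    rw [neg_smul, natCast_zsmul, Int.cast_neg, Int.cast_natCast, neg_mul]
    exact h1

theorem E1_act {P : P27 k} (hP : E1 v P) (c : O) :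
    E1 v (act c P) ∧ v (tt (act c P) - ak k c * tt P) ≤ v (tt P) ^ 2 ∧ v (tt (act c P)) ≤ v (tt P) := by
  have hT := GV3_tt_lt v hP
  have h1 : GV3_R v (tt P) P 1 := by
    refine ⟨hP, by rw [map_one], ?_⟩
    rw [one_mul, sub_self, map_zero]
    exact zero_le
  have h2 : GV3_R v (tt P) (omP P) (ok k) := by
    obtain ⟨h3, h4⟩ := E1_om v hP
    refine ⟨h3, (ok_val v).le, ?_⟩
    rw [h4, sub_self, map_zero]
    exact zero_le
  obtain ⟨a, b, rfl⟩ := exists_repr c
  have h3 := GV3_add v hT (GV3_zsmul v hT h1 a) (GV3_zsmul v hT h2 b)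
  rw [← act_apply] at h3
  have e1 : ak k ((a : O) + b * om) = (a : k) * 1 + (b : k) * ok k := by
    unfold ak ok
    simp
  rw [← e1] at h3
  exact ⟨h3.1, h3.2.2, GV3_le v hT h3⟩

theorem act_val {P : P27 k} (hP : E1 v P) (c c' : O) (h : act c' (act c P) = P) :
    v (tt (act c P)) = v (tt P) := by
  have h1 := E1_act v hP c
  have h2 := E1_act v h1.1 c'
  rw [h] at h2
  exact le_antisymm h1.2.2 h2.2.2

/-- The points which reduce to infinity form a subgroup. -/
theorem E1_sub {P Q : P27 k} (hP : E1 v P) (hQ : E1 v Q) : E1 v (P - Q) := by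
  rw [sub_eq_add_neg]
  exact (E1_add v hP (E1_neg v hQ)).1

end H28G
end

-- from Lib.H28G.GV6
section

open NumberField IsDedekindDomain WeierstrassCurve

namespace H28G

open H55B

/-! Chunk GV6 (M): points killed by c. tor_unit: R in E1, act c R = 0: E1_act gives v(tt 0 - ak c * tt R) <= v(tt R)^2, tt 0 = 0, so v(tt R) <= v(tt R)^2 with v(tt R) < 1 (tt_val) unless R = 0.
tor_val (b a prime element, 3 | b - 1): dist_x: the product over R <> 0 in Tor b of v(xc R) is v(C)/v(b)^2 = v(b)^(-2) > 1 (C^6 = 1 gives v(C) = 1; v(ak b) <> 0; Full.finite, finprod_eq_prod_of_fintype, map_prod), so some R0 <> 0 has v(xc R0) > 1. Every R <> 0 in Tor b is act c R0 (tor_gen) and R0 = act c' R, so E1 (E1_act)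
and v(tt R) = v(tt R0) (act_val), v(tt R)^2 v(xc R) = 1 (tt_val). The number of the R <> 0 is Nm b - 1 (Full). So v(tt R)^(2 (Nm b - 1)) = v(b)^2, and squares are injective in a linearly ordered commutative group with zero (pow_left_injective, or compare with lt). -/

variable {k : Type} [Field k] [DecidableEq k] [Algebra F k]
  {Γ : Type} [LinearOrderedCommGroupWithZero Γ] (v : Valuation k Γ)

theorem tor_unit {c : O} (hc : v (ak k c) = 1) {R : P27 k} (hR : R ∈ Tor c k) (h1 : E1 v R) : R = 0 := by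
  by_contra h0
  have h2 : 1 < v (xc R) := by
    rcases h1 with h | h
    · exact absurd h h0
    · exact h
  obtain ⟨h3, h4, -, -⟩ := tt_val v h2
  have h5 := (E1_act v h1 c).2.1
  have h6 : act c R = 0 := hR
  have ht0 : tt (0 : P27 k) = 0 := by
    unfold tt
    rw [xc_zero, neg_zero, zero_div]
  rw [h6, ht0, zero_sub, Valuation.map_neg, map_mul, hc, one_mul, sq] at h5
  have h7 : v (tt R) * v (tt R) < 1 * v (tt R) :=
    mul_lt_mul_of_pos_right h3 (zero_lt_iff.2 h4)
  rw [one_mul] at h7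
  exact absurd h5 (not_le.2 h7)

theorem GV6_ak_ne {b : O} (hb : b ≠ 0) : ak k b ≠ 0 := by
  intro h
  apply hb
  unfold ak at h
  rw [RingHom.comp_apply] at h
  have h1 : algebraMap O F b = 0 := (algebraMap F k).injective (by rw [h, map_zero])
  exact FaithfulSMul.algebraMap_injective O F (by rw [h1, map_zero])

theorem tor_val (j : k →ₐ[F] ℂ) {b : O} (hp : Prime b) (hb : Prim b) (hf : Full b k)
    (hv : v (ak k b) < 1) {R : P27 k} (hR : R ∈ Tor b k) (h0 : R ≠ 0) :
    1 < v (xc R) ∧ v (tt R) ^ (Nm b - 1) = v (ak k b) := by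
  classical
  have hb0 : b ≠ 0 := hp.ne_zero
  have hfin : Finite (Tor b k) := hf.finite hb0
  have : Fintype (Tor b k) := Fintype.ofFinite _
  obtain ⟨C, hC6, -, hC⟩ := dist_x j b hb hf
  have hak : v (ak k b) ≠ 0 := (Valuation.ne_zero_iff v).2 (GV6_ak_ne hb0)
  have hvC : v C = 1 := by
    have h1 : v C ^ 6 = 1 := by rw [← map_pow, hC6, map_one]
    exact (pow_eq_one_iff.1 h1).resolve_right (by norm_num)
  rw [finprod_eq_prod_of_fintype] at hC
  have hprod : ∏ S : {R : Tor b k // R ≠ 0}, v (xc (S.1 : P27 k)) = (v (ak k b) ^ 2)⁻¹ := by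
    rw [← map_prod, hC, map_div₀, hvC, map_pow, one_div]
  have hgt : 1 < (v (ak k b) ^ 2)⁻¹ := by
    rw [one_lt_inv₀ (pow_pos (zero_lt_iff.2 hak) 2)]
    exact pow_lt_one₀ zero_le hv two_ne_zero
  obtain ⟨S0, hS0⟩ : ∃ S0 : {R : Tor b k // R ≠ 0}, 1 < v (xc (S0.1 : P27 k)) := by
    by_contra hcon
    push Not at hcon
    have h1 : ∏ S : {R : Tor b k // R ≠ 0}, v (xc (S.1 : P27 k)) ≤ 1 :=
      Finset.prod_le_one' fun S _ => hcon S
    rw [hprod] at h1
    exact absurd h1 (not_le.2 hgt)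
  have hS0' : ((S0.1 : Tor b k) : P27 k) ≠ 0 := fun h => S0.2 (Subtype.ext h)
  have hE : E1 v (S0.1 : P27 k) := Or.inr hS0
  have hall : ∀ R : P27 k, R ∈ Tor b k → R ≠ 0 →
      1 < v (xc R) ∧ v (tt R) = v (tt (S0.1 : P27 k)) := by
    intro R hR h0
    obtain ⟨c, hc⟩ := tor_gen hp hf S0.1.2 hR hS0'
    obtain ⟨c', hc'⟩ := tor_gen hp hf hR S0.1.2 h0
    have h1 := (E1_act v hE c).1
    have h2 := act_val v hE c c' (by rw [hc, hc'])
    rw [hc] at h1 h2
    refine ⟨?_, h2⟩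
    rcases h1 with h | h
    · exact absurd h h0
    · exact h
  obtain ⟨h1, h2⟩ := hall R hR h0
  refine ⟨h1, ?_⟩
  have hcard : Fintype.card {R : Tor b k // R ≠ 0} = Nm b - 1 := by
    have h3 : Nat.card (Tor b k) = Nm b := hf
    rw [Nat.card_eq_fintype_card] at h3
    have h4 := Fintype.card_subtype_compl (fun R : Tor b k => R = 0)
    rw [Fintype.card_subtype_eq, h3] at h4
    exact h4
  obtain ⟨t, ht⟩ : ∃ t, t = v (tt R) := ⟨_, rfl⟩
  have hconst : ∀ S : {R : Tor b k // R ≠ 0}, v (xc (S.1 : P27 k)) = (t ^ 2)⁻¹ := by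
    intro S
    have hS : ((S.1 : Tor b k) : P27 k) ≠ 0 := fun h => S.2 (Subtype.ext h)
    obtain ⟨h3, h4⟩ := hall S.1 S.1.2 hS
    have h5 := (tt_val v h3).2.2.1
    rw [h4, ← h2, ← ht] at h5
    exact (eq_inv_of_mul_eq_one_right h5)
  rw [Finset.prod_congr rfl fun S _ => hconst S, Finset.prod_const, Finset.card_univ, hcard,
    inv_pow, inv_inj, ← pow_mul, mul_comm, pow_mul] at hprod
  rw [← ht]
  exact (pow_left_inj₀ zero_le zero_le two_ne_zero).1 hprod

end H28G
end

-- from Lib.H28G.GV7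
section

open NumberField IsDedekindDomain WeierstrassCurve

namespace H28G

open H55B

/-! Chunk GV7 (M): Kronecker congruence: multiplication by b is the Frobenius modulo b. q = Nm b. For R in Tor b: E1 (tor_val, or R = 0), so for X integral (X <> 0, v(xc X) <= 1): by transl xc(X+R) = xc X + (something of valuation < 1), same for yc (v(fc X), v(3 xc X^2) <= 1, v(tt R) < 1).
act b X <> 0: otherwise X in Tor b, X in E1. So prod_R xc(X+R) = (xc X)^q + (valuation < 1) (finite product of q factors: congruences modulo the ideal of the valuation ring; Full.finite, finprod_eq_prod_of_fintype; card = Nm b). dist_x: = C xc(act b X).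
C = 1 + (valuation < 1): apply this to X = Spt: xc Spt = -1, act b Spt = Spt: (-1)^q = -C + small; q is odd, or q = 4 and then v(2) < 1 (Nm b = q even: b | 2 up to units, v b < 1 gives v 2 < 1) so that -1 = 1 + small. For y: C_y yc(Spt) = yc(Spt)^q + small, yc Spt = ok, ok^q = ok because
q = Nm b = 1 mod 3 (Prim b: Nm b = b * cj b, both = 1 mod 3; or Nm_repr) so C_y = 1 + small (v(ok) = 1). Hence v(xc(act b X) - (xc X)^q) < 1 and the same for y (v(C) = 1). -/

variable {k : Type} [Field k] [DecidableEq k] [Algebra F k]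
  {Γ : Type} [LinearOrderedCommGroupWithZero Γ] (v : Valuation k Γ)

section GV7aux
variable {k : Type} [Field k] {Γ : Type} [LinearOrderedCommGroupWithZero Γ] (v : Valuation k Γ)

theorem GV7_nat (n : ℕ) : v (n : k) ≤ 1 := by
  induction n with
  | zero => simp
  | succ n ih =>
    rw [Nat.cast_succ]
    exact (v.map_add _ _).trans (max_le ih (le_of_eq v.map_one))

theorem GV7_mul_lt {x y : k} (hx : v x ≤ 1) (hy : v y < 1) : v (x * y) < 1 := by
  rw [map_mul]
  exact mul_lt_one_of_nonneg_of_lt_one_right hx zero_le hy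

theorem GV7_add_lt {x y : k} (hx : v x < 1) (hy : v y < 1) : v (x + y) < 1 :=
  (v.map_add _ _).trans_lt (max_lt hx hy)

theorem GV7_sub_lt {x y : k} (hx : v x < 1) (hy : v y < 1) : v (x - y) < 1 :=
  (v.map_sub _ _).trans_lt (max_lt hx hy)

theorem GV7_le_one {x y : k} (hx : v x ≤ 1) (hy : v (y - x) < 1) : v y ≤ 1 := by
  have h : y = x + (y - x) := by ring
  rw [h]
  exact (v.map_add _ _).trans (max_le hx (le_of_lt hy))

/-- A product of elements congruent to a. -/
theorem GV7_prod {ι : Type} (s : Finset ι) (f : ι → k) (a : k) (ha : v a ≤ 1)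
    (hf : ∀ i ∈ s, v (f i - a) < 1) : v (∏ i ∈ s, f i - a ^ s.card) < 1 := by
  classical
  induction s using Finset.induction_on with
  | empty => simp
  | insert i s hi ih =>
    have h1 := ih (fun j hj => hf j (Finset.mem_insert_of_mem hj))
    have h2 := hf i (Finset.mem_insert_self i s)
    rw [Finset.prod_insert hi, Finset.card_insert_of_notMem hi, pow_succ]
    have hP : v (∏ j ∈ s, f j) ≤ 1 := GV7_le_one v (x := a ^ s.card) (by
      rw [map_pow]
      exact pow_le_one' ha _) h1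
    have e : f i * ∏ j ∈ s, f j - a ^ s.card * a = (∏ j ∈ s, f j) * (f i - a) + a * (∏ j ∈ s, f j - a ^ s.card) := by
      ring
    rw [e]
    exact GV7_add_lt v (GV7_mul_lt v hP h2) (GV7_mul_lt v ha h1)

theorem GV7_finprod {ι : Type} [Finite ι] (f : ι → k) (a : k) (ha : v a ≤ 1)
    (hf : ∀ i, v (f i - a) < 1) : v (∏ᶠ i, f i - a ^ Nat.card ι) < 1 := by
  have := Fintype.ofFinite ι
  rw [finprod_eq_prod_of_fintype, Nat.card_eq_fintype_card]
  exact GV7_prod v Finset.univ f a ha fun i _ => hf i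

end GV7aux

theorem GV7_tt_lt {P : P27 k} (h : E1 v P) : v (tt P) < 1 := by
  rcases h with h | h
  · rw [h]
    have : tt (0 : P27 k) = 0 := by
      unfold tt
      rw [xc_zero, neg_zero, zero_div]
    rw [this, map_zero]
    exact zero_lt_one
  · exact (tt_val v h).1

theorem GV7_fc_le {P : P27 k} (h : v (xc P) ≤ 1) : v (fc P) ≤ 1 := by
  unfold fc
  refine (v.map_add _ _).trans (max_le ?_ (le_of_eq v.map_one))
  rw [map_mul]
  exact mul_le_one' (by simpa using GV7_nat v 2) (int_y v h)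

/-- Congruences of the coordinates of X + R. -/
theorem GV7_cong {X R : P27 k} (hX : X ≠ 0) (h1 : v (xc X) ≤ 1) (hR : E1 v R) :
    v (xc (X + R) - xc X) < 1 ∧ v (yc (X + R) - yc X) < 1 := by
  obtain ⟨_, _, h2, h3⟩ := transl v hX h1 hR
  have ht := GV7_tt_lt v hR
  have ht2 : v (tt R) ^ 2 < 1 := pow_lt_one' ht two_ne_zero
  constructor
  · have e : xc (X + R) - xc X = (xc (X + R) - xc X - fc X * tt R) + fc X * tt R := by ring
    rw [e]
    exact GV7_add_lt v (h2.trans_lt ht2) (GV7_mul_lt v (GV7_fc_le v h1) ht)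
  · have e : yc (X + R) - yc X = (yc (X + R) - yc X - 3 * xc X ^ 2 * tt R) + 3 * xc X ^ 2 * tt R := by ring
    rw [e]
    refine GV7_add_lt v (h3.trans_lt ht2) (GV7_mul_lt v ?_ ht)
    rw [map_mul, map_pow]
    exact mul_le_one' (by simpa using GV7_nat v 3) (pow_le_one' h1 2)

/-- The norm of a primary element is 1 modulo 3. -/
theorem GV7_Nm_mod {b : O} (hb : Prim b) : ∃ n : ℕ, Nm b = 3 * n + 1 := by
  obtain ⟨c, hc⟩ := hb
  obtain ⟨x, y, rfl⟩ := exists_repr c
  have h1 : b = ((1 + 3 * x : ℤ) : O) + ((3 * y : ℤ) : O) * om := by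
    push_cast
    linear_combination hc
  have h2 := Nm_repr (1 + 3 * x) (3 * y)
  rw [← h1] at h2
  have h3 : (Nm b : ℤ) = 3 * (2 * x + 3 * x ^ 2 - y - 3 * x * y + 3 * y ^ 2) + 1 := by
    rw [h2]
    ring
  have h4 : 0 ≤ 2 * x + 3 * x ^ 2 - y - 3 * x * y + 3 * y ^ 2 := by
    by_contra hneg
    push Not at hneg
    have : (0 : ℤ) ≤ Nm b := Int.natCast_nonneg _
    omega
  refine ⟨(2 * x + 3 * x ^ 2 - y - 3 * x * y + 3 * y ^ 2).toNat, ?_⟩
  zify
  rw [Int.toNat_of_nonneg h4]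
  exact h3

/-- If the norm of the prime b is even then b divides 2. -/
theorem GV7_even {b : O} (hp : Prime b) (he : Even (Nm b)) : b ∣ 2 := by
  obtain ⟨x, y, rfl⟩ := exists_repr b
  have h2 := Nm_repr x y
  have h3 : (2 : ℤ) ∣ x ^ 2 - x * y + y ^ 2 := by
    rw [← h2]
    obtain ⟨m, hm⟩ := he
    exact ⟨m, by rw [hm]; push_cast; ring⟩
  have hxy : (2 : ℤ) ∣ x ∧ (2 : ℤ) ∣ y := by
    rcases Int.even_or_odd' x with ⟨c, hc | hc⟩ <;> rcases Int.even_or_odd' y with ⟨d, hd | hd⟩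
    · exact ⟨⟨c, hc⟩, ⟨d, hd⟩⟩
    all_goals
      exfalso
      obtain ⟨m, hm⟩ := h3
      subst hc hd
      ring_nf at hm
      omega
  obtain ⟨⟨c, hc⟩, ⟨d, hd⟩⟩ := hxy
  have e : ((x : O) + y * om) = 2 * ((c : O) + d * om) := by
    rw [hc, hd]
    push_cast
    ring
  have hirr := hp.irreducible
  rcases hirr.isUnit_or_isUnit e with h | h
  · exfalso
    have h5 : Nm (2 : O) = 4 := by
      have := Nm_repr 2 0
      have e2 : ((2 : ℤ) : O) + ((0 : ℤ) : O) * om = 2 := by push_cast; ring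
      rw [e2] at this
      have h6 : (Nm (2 : O) : ℤ) = 4 := by rw [this]; norm_num
      exact_mod_cast h6
    have h7 : Nm (2 : O) = 1 := by
      unfold Nm
      rw [Ideal.span_singleton_eq_top.2 h, Ideal.absNorm_top]
    omega
  · obtain ⟨u, hu⟩ := h
    refine ⟨((u⁻¹ : Oˣ) : O), ?_⟩
    rw [e, ← hu, mul_assoc, Units.mul_inv, mul_one]

theorem kron (j : k →ₐ[F] ℂ) {b : O} (hp : Prime b) (hb : Prim b) (hf : Full b k)
    (hv : v (ak k b) < 1) {X : P27 k} (hX : X ≠ 0) (h1 : v (xc X) ≤ 1) :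
    act b X ≠ 0 ∧ v (xc (act b X)) ≤ 1 ∧ v (xc (act b X) - xc X ^ Nm b) < 1 ∧
      v (yc (act b X) - yc X ^ Nm b) < 1 := by
  have hfin : Finite (Tor b k) := hf.finite hp.ne_zero
  have hcard : Nat.card (Tor b k) = Nm b := hf
  have hE : ∀ R : Tor b k, E1 v (R : P27 k) := by
    intro R
    by_cases h0 : (R : P27 k) = 0
    · exact Or.inl h0
    · exact Or.inr (tor_val v j hp hb hf hv R.2 h0).1
  have hact : ∀ {Y : P27 k}, Y ≠ 0 → v (xc Y) ≤ 1 → act b Y ≠ 0 := by
    intro Y hY hY1 h0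
    exact absurd (tor_val v j hp hb hf hv (mem_Tor.2 h0) hY).1 (not_lt.2 hY1)
  have hxX : ∀ {Y : P27 k}, Y ≠ 0 → v (xc Y) ≤ 1 →
      v (∏ᶠ R : Tor b k, xc (Y + (R : P27 k)) - xc Y ^ Nm b) < 1 := by
    intro Y hY hY1
    rw [← hcard]
    exact GV7_finprod v _ _ hY1 fun R => (GV7_cong v hY hY1 (hE R)).1
  have hyX : ∀ {Y : P27 k}, Y ≠ 0 → v (xc Y) ≤ 1 →
      v (∏ᶠ R : Tor b k, yc (Y + (R : P27 k)) - yc Y ^ Nm b) < 1 := by
    intro Y hY hY1
    rw [← hcard]
    exact GV7_finprod v _ _ (int_y v hY1) fun R => (GV7_cong v hY hY1 (hE R)).2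
  obtain ⟨C, hC6, hC, _⟩ := dist_x j b hb hf
  obtain ⟨D, hD0, hD⟩ := dist_y j b hb hf
  have hS0 : Spt k ≠ 0 := pt_ne _ _ _
  have hSx : xc (Spt k) = -1 := rfl
  have hSy : yc (Spt k) = ok k := rfl
  have hS1 : v (xc (Spt k)) ≤ 1 := by
    rw [hSx, Valuation.map_neg, map_one]
  have haS := act_Spt (k := k) b hb
  have hC1 : v (C - 1) < 1 := by
    have h2 := hxX hS0 hS1
    rw [hC (Spt k) (by rw [haS]; exact hS0), haS, hSx] at h2
    rcases Nat.even_or_odd (Nm b) with he | ho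
    · rw [he.neg_one_pow] at h2
      have h3 : v (2 : k) < 1 := by
        obtain ⟨c, hc⟩ := GV7_even hp he
        have h4 : (2 : k) = ak k c * ak k b := by
          rw [← map_mul, mul_comm, ← hc]
          exact (map_ofNat (ak k) 2).symm
        rw [h4]
        exact GV7_mul_lt v (ak_le v c) hv
      have e : C - 1 = -((C * -1 - 1) + 2) := by ring
      rw [e, Valuation.map_neg]
      exact GV7_add_lt v h2 h3
    · rw [ho.neg_one_pow] at h2
      have e : C - 1 = -(C * -1 - -1) := by ring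
      rw [e, Valuation.map_neg]
      exact h2
  have hD1 : v (D - 1) < 1 := by
    have h2 := hyX hS0 hS1
    rw [hD (Spt k) (by rw [haS]; exact hS0), haS, hSy] at h2
    obtain ⟨n, hn⟩ := GV7_Nm_mod hb
    have h3 : ok k ^ Nm b = ok k := by
      rw [hn, pow_succ, pow_mul, ok_cube, one_pow, one_mul]
    rw [h3] at h2
    have e : D * ok k - ok k = (D - 1) * ok k := by ring
    rw [e, map_mul, ok_val, mul_one] at h2
    exact h2
  have hone : ∀ c : k, v (c - 1) < 1 → v c = 1 := by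
    intro c hc
    have e : c = 1 + (c - 1) := by ring
    rw [e, Valuation.map_add_eq_of_lt_left v (by rw [map_one]; exact hc), map_one]
  have hCv := hone C hC1
  have hDv := hone D hD1
  have hX2 := hact hX h1
  have fin : ∀ (c z w : k), v (c - 1) < 1 → v c = 1 → v w ≤ 1 → v (c * z - w) < 1 → v (z - w) < 1 := by
    intro c z w h2 h3 h4 h5
    have e : c * (z - w) = (c * z - w) - w * (c - 1) := by ring
    have h6 : v (c * (z - w)) < 1 := by
      rw [e]
      exact GV7_sub_lt v h5 (GV7_mul_lt v h4 h2)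
    rw [map_mul, h3, one_mul] at h6
    exact h6
  have hxw : v (xc X ^ Nm b) ≤ 1 := by
    rw [map_pow]
    exact pow_le_one' h1 _
  have hyw : v (yc X ^ Nm b) ≤ 1 := by
    rw [map_pow]
    exact pow_le_one' (int_y v h1) _
  have r1 : v (xc (act b X) - xc X ^ Nm b) < 1 := by
    refine fin C _ _ hC1 hCv hxw ?_
    rw [← hC X hX2]
    exact hxX hX h1
  have r2 : v (yc (act b X) - yc X ^ Nm b) < 1 := by
    refine fin D _ _ hD1 hDv hyw ?_
    rw [← hD X hX2]
    exact hyX hX h1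
  exact ⟨hX2, GV7_le_one v hxw r1, r1, r2⟩

end H28G
end

-- from Lib.H13S.GIA
section

open NumberField IsDedekindDomain

namespace H13S

open H55P H28G H55B

/-! Chunk GIA (M): translations of the statements of H28G for the valuation V.valuation of a valuation ring V of Ω (Kr V P is E1 V.valuation P by definition, vo V a is V.valuation (ak Ω a) by definition;
j : Ω →ₐ[F] ℂ is IsAlgClosed.lift, algebra structure H28G.algC; IsAlgClosure F Ω gives IsAlgClosed Ω and Algebra.IsAlgebraic F Ω).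
gi_gen: full_Om, tor_gen, act_eq_zero (Nm β ≥ 2 so there is a nonzero point, Full, Nat.card). kr_add, kr_tt_add: E1_add (the case P = -Q etc. is included). kr_act, kr_tt_act: E1_act. kr_tt_lt, kr_tt_zero: tt_val. kr_congr: red_sub
(V.valuation (xc Q) ≤ 1 follows from the congruence). kr_tor: tor_unit. kr_tor_ram: tor_val. kr_kron: kron. kr_prod: if act β Q ≠ 0: dist_x for X = Q: product over R of V(xc (Q+R)) = V(C) V(xc (act β Q)), V(C) = 1 as C^6 = 1; Q + R is in Kr (kr_tor_ram, kr_add), not 0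
(act β (Q + R) = act β Q ≠ 0), and V(tt P)^2 V(xc P) = 1 (tt_val): take the product (finprod over a finite type: finprod_eq_prod_of_fintype, Finset.prod_pow), squares are injective. If act β Q = 0: Q is in Tor β, the factor R = -Q is tt 0 = 0 and the right side is 0 too. -/

variable {Ω : Type} [Field Ω] [DecidableEq Ω] [Algebra F Ω]

theorem gia_j (Ω : Type) [Field Ω] [Algebra F Ω] [IsAlgClosure F Ω] : Nonempty (Ω →ₐ[F] ℂ) := by
  have hal : Algebra.IsAlgebraic F Ω := IsAlgClosure.isAlgebraic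
  exact ⟨IsAlgClosed.lift⟩

theorem gia_full (Ω : Type) [Field Ω] [DecidableEq Ω] [Algebra F Ω] [IsAlgClosure F Ω] {β : O} (hβ : β ≠ 0) :
    Full β Ω := by
  have hal : Algebra.IsAlgebraic F Ω := IsAlgClosure.isAlgebraic
  have hac : IsAlgClosed Ω := IsAlgClosure.isAlgClosed F
  exact full_Om Ω β hβ

theorem gia_Nm {β : O} (hβ : Prime β) : 2 ≤ H55B.Nm β := by
  have h0 : H55B.Nm β ≠ 0 := fun h => hβ.ne_zero (H55B.Nm_eq_zero.1 h)
  have h1 : H55B.Nm β ≠ 1 := by
    intro h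
    unfold H55B.Nm at h
    rw [Ideal.absNorm_eq_one_iff, Ideal.span_singleton_eq_top] at h
    exact hβ.not_unit h
  omega

theorem gi_gen [IsAlgClosure F Ω] (β : O) (hβ : Prime β) (h3 : Prim β) :
    Nat.card (Tor β Ω) = H55B.Nm β ∧ ∃ T₀ ∈ Tor β Ω, (∀ T ∈ Tor β Ω, ∃ a : O, T = act a T₀) ∧
      ∀ a : O, act a T₀ = 0 ↔ β ∣ a := by
  have hf := gia_full Ω hβ.ne_zero
  refine ⟨hf, ?_⟩
  have hfin := hf.finite hβ.ne_zero
  have h2 : 1 < Nat.card (Tor β Ω) := by
    rw [show Nat.card (Tor β Ω) = H55B.Nm β from hf]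
    exact gia_Nm hβ
  have h4 : Nontrivial (Tor β Ω) := Finite.one_lt_card_iff_nontrivial.1 h2
  obtain ⟨T, hT⟩ := exists_ne (0 : Tor β Ω)
  have hT0 : (T : P27 Ω) ≠ 0 := fun h => hT (Subtype.ext h)
  refine ⟨T, T.2, ?_, ?_⟩
  · intro T' hT'
    obtain ⟨c, hc⟩ := tor_gen hβ hf T.2 hT' hT0
    exact ⟨c, hc.symm⟩
  · intro a
    exact act_eq_zero hβ T.2 hT0 a

theorem kr_add (V : ValuationSubring Ω) {P Q : P27 Ω} (hP : Kr V P) (hQ : Kr V Q) : Kr V (P + Q) :=
  (E1_add V.valuation hP hQ).1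

theorem kr_act (V : ValuationSubring Ω) (a : O) {P : P27 Ω} (hP : Kr V P) : Kr V (act a P) :=
  (E1_act V.valuation hP a).1

/-- t is additive modulo squares. -/
theorem kr_tt_add (V : ValuationSubring Ω) {P Q : P27 Ω} (hP : Kr V P) (hQ : Kr V Q) (c : V.ValueGroup)
    (h1 : V.valuation (tt P) ≤ c) (h2 : V.valuation (tt Q) ≤ c) :
    V.valuation (tt (P + Q) - tt P - tt Q) ≤ c ^ 2 :=
  ((E1_add V.valuation hP hQ).2).trans (pow_le_pow_left' (max_le h1 h2) 2)

/-- t(a P) = a t(P) modulo squares. -/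
theorem kr_tt_act (V : ValuationSubring Ω) (a : O) {P : P27 Ω} (hP : Kr V P) :
    V.valuation (tt (act a P) - algebraMap F Ω (a : F) * tt P) ≤ V.valuation (tt P) ^ 2 :=
  (E1_act V.valuation hP a).2.1

theorem kr_tt_lt (V : ValuationSubring Ω) {P : P27 Ω} (hP : Kr V P) : V.valuation (tt P) < 1 :=
  GV7_tt_lt V.valuation hP

theorem gia_tt0 : tt (0 : P27 Ω) = 0 := by
  unfold tt
  rw [xc_zero, neg_zero, zero_div]

theorem kr_tt_zero (V : ValuationSubring Ω) {P : P27 Ω} (hP : Kr V P) : tt P = 0 ↔ P = 0 := by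
  constructor
  · intro h
    rcases hP with h1 | h1
    · exact h1
    · exfalso
      have h2 := (tt_val V.valuation h1).2.1
      rw [h, map_zero] at h2
      exact h2 rfl
  · rintro rfl
    exact gia_tt0

/-- Congruent integral points differ by a point of the kernel of reduction (good reduction outside 3). -/
theorem kr_congr (V : ValuationSubring Ω) (h3 : V.valuation (3 : Ω) = 1) {P Q : P27 Ω} (hP : P ≠ 0)
    (hQ : Q ≠ 0) (hP1 : V.valuation (xc P) ≤ 1) (hx : V.valuation (xc P - xc Q) < 1)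
    (hy : V.valuation (yc P - yc Q) < 1) : Kr V (P - Q) := by
  refine red_sub V.valuation h3 hP hQ hP1 ?_ hx hy
  have e : xc Q = xc P - (xc P - xc Q) := by ring
  rw [e]
  exact (Valuation.map_sub _ _ _).trans (max_le hP1 hx.le)

/-- Points killed by an element which is a unit are not in the kernel of reduction. -/
theorem kr_tor (V : ValuationSubring Ω) (β : O) (hβ : vo V β = 1) {T : P27 Ω} (hT : T ∈ Tor β Ω)
    (hK : Kr V T) : T = 0 :=
  tor_unit V.valuation hβ hT hK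

/-- The points killed by a prime element below V. -/
theorem kr_tor_ram [IsAlgClosure F Ω] (β : O) (hβ : Prime β) (h3 : Prim β) (V : ValuationSubring Ω)
    (hV : vo V β < 1) {T : P27 Ω} (hT : T ∈ Tor β Ω) (h0 : T ≠ 0) :
    Kr V T ∧ V.valuation (tt T) ^ (H55B.Nm β - 1) = vo V β := by
  obtain ⟨j⟩ := gia_j Ω
  obtain ⟨h1, h2⟩ := tor_val V.valuation j hβ h3 (gia_full Ω hβ.ne_zero) hV hT h0
  exact ⟨Or.inr h1, h2⟩

/-- The product formula. -/
theorem kr_prod [IsAlgClosure F Ω] (β : O) (hβ : Prime β) (h3 : Prim β) (V : ValuationSubring Ω)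
    (hV : vo V β < 1) {Q : P27 Ω} (hQ : Kr V Q) :
    ∏ᶠ R : Tor β Ω, V.valuation (tt (Q + (R : P27 Ω))) = V.valuation (tt (act β Q)) := by
  obtain ⟨j⟩ := gia_j Ω
  have hf := gia_full Ω hβ.ne_zero
  have hfin := hf.finite hβ.ne_zero
  have hfi : Fintype (Tor β Ω) := Fintype.ofFinite _
  have hKr : ∀ R : Tor β Ω, Kr V (Q + (R : P27 Ω)) := by
    intro R
    by_cases h0 : (R : P27 Ω) = 0
    · rw [h0, add_zero]
      exact hQ
    · exact kr_add V hQ (kr_tor_ram β hβ h3 V hV R.2 h0).1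
  by_cases hz : act β Q = 0
  · rw [hz, gia_tt0, map_zero]
    rw [finprod_eq_prod_of_fintype]
    apply Finset.prod_eq_zero (Finset.mem_univ (-⟨Q, mem_Tor.2 hz⟩ : Tor β Ω))
    show V.valuation (tt (Q + -Q)) = 0
    rw [add_neg_cancel, gia_tt0, map_zero]
  · obtain ⟨C, hC6, hC, -⟩ := dist_x j β h3 hf
    have hCv : V.valuation C = 1 := by
      have h1 : V.valuation C ^ 6 = 1 := by rw [← map_pow, hC6, map_one]
      exact (pow_eq_one_iff_of_nonneg zero_le (by norm_num)).1 h1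
    have h1 := hC Q hz
    have hne : ∀ R : Tor β Ω, Q + (R : P27 Ω) ≠ 0 := by
      intro R h
      apply hz
      have h2 : act β (Q + (R : P27 Ω)) = act β Q := by
        rw [map_add, mem_Tor.1 R.2, add_zero]
      rw [← h2, h, map_zero]
    have hgt : ∀ P : P27 Ω, Kr V P → P ≠ 0 → V.valuation (tt P) ^ 2 * V.valuation (xc P) = 1 := by
      intro P hP hP0
      rcases hP with h | h
      · exact absurd h hP0
      · exact (tt_val V.valuation h).2.2.1
    have h2 : (∏ R : Tor β Ω, V.valuation (tt (Q + (R : P27 Ω)))) ^ 2 *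
        ∏ R : Tor β Ω, V.valuation (xc (Q + (R : P27 Ω))) = 1 := by
      rw [← Finset.prod_pow, ← Finset.prod_mul_distrib]
      exact Finset.prod_eq_one fun R _ => hgt _ (hKr R) (hne R)
    have h3' : ∏ R : Tor β Ω, V.valuation (xc (Q + (R : P27 Ω))) = V.valuation (xc (act β Q)) := by
      rw [finprod_eq_prod_of_fintype] at h1
      rw [← map_prod, h1, map_mul, hCv, one_mul]
    have h4 := hgt _ (kr_act V β hQ) hz
    rw [h3'] at h2
    rw [finprod_eq_prod_of_fintype]
    have hx0 : V.valuation (xc (act β Q)) ≠ 0 := by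
      intro h0
      rw [h0, mul_zero] at h4
      exact zero_ne_one h4
    have h5 : (∏ R : Tor β Ω, V.valuation (tt (Q + (R : P27 Ω)))) ^ 2 = V.valuation (tt (act β Q)) ^ 2 :=
      mul_right_cancel₀ hx0 (h2.trans h4.symm)
    exact (pow_left_inj₀ zero_le zero_le two_ne_zero).1 h5

/-- Kronecker congruence. -/
theorem kr_kron [IsAlgClosure F Ω] (β : O) (hβ : Prime β) (h3 : Prim β) (V : ValuationSubring Ω)
    (hV : vo V β < 1) {X : P27 Ω} (hX : X ≠ 0) (h1 : V.valuation (xc X) ≤ 1) :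
    act β X ≠ 0 ∧ V.valuation (xc (act β X)) ≤ 1 ∧ V.valuation (xc (act β X) - xc X ^ H55B.Nm β) < 1 ∧
      V.valuation (yc (act β X) - yc X ^ H55B.Nm β) < 1 := by
  obtain ⟨j⟩ := gia_j Ω
  exact kron V.valuation j hβ h3 (gia_full Ω hβ.ne_zero) hV hX h1

end H13S
end

-- from Lib.H13S.GIF
section

open NumberField IsDedekindDomain

namespace H13S

open H55P H28G H55B

variable {Ω : Type} [Field Ω] [DecidableEq Ω] [Algebra F Ω]

theorem gif_le (V : ValuationSubring Ω) (a : O) : vo V a ≤ 1 := by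
  rw [← vo_eq]
  exact ak_le V.valuation a

theorem gif_comb (V : ValuationSubring Ω) (a b c d : O) (h : a * b + c * d = 1) (hb : vo V b < 1) :
    vo V d = 1 := by
  refine le_antisymm (gif_le V d) ?_
  by_contra hd
  push Not at hd
  have h1 : algebraMap F Ω ((a * b + c * d : O) : F) = 1 := by rw [h]; simp
  have h2 : V.valuation (algebraMap F Ω ((a * b + c * d : O) : F)) < 1 := by
    have e : algebraMap F Ω ((a * b + c * d : O) : F) =
        algebraMap F Ω (a : F) * algebraMap F Ω (b : F) + algebraMap F Ω (c : F) * algebraMap F Ω (d : F) := by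
      simp
    rw [e]
    refine lt_of_le_of_lt (V.valuation.map_add _ _) (max_lt ?_ ?_)
    · rw [map_mul]
      exact lt_of_le_of_lt (mul_le_of_le_one_left' (gif_le V a)) hb
    · rw [map_mul]
      exact lt_of_le_of_lt (mul_le_of_le_one_left' (gif_le V c)) hd
  rw [h1, map_one] at h2
  exact lt_irrefl _ h2

/-- Chunk GIF (M). Kronecker: Frobenius elements act as multiplication. Let q = Nm γ. If T = 0 clear. V.valuation 3 = 1: γ is primary, so 3 divides γ - 1 and vo V γ < 1 excludes V.valuation 3 < 1. vo V β = 1: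
γ and β are coprime (prime elements, γ does not divide β; both primary), 1 = u γ + v β, so vo V β = 1. T ≠ 0 is not in Kr (kr_tor), so V.valuation (xc T) ≤ 1, and yc T in V (H28G.int_y).
kr_kron for γ and X = T: xc (act γ T) is congruent to (xc T)^q, and hs: s (xc T) = xc (ac W27 s T) (H28G.ac_eq, xc_mp) is congruent to (xc T)^q; same for yc. So ac W27 s T and act γ T (both ≠ 0) are congruent: kr_congr: their difference is in
Kr V, and it is killed by β (ac_mem; act β (act γ T) = 0): kr_tor: it is 0. -/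
theorem gi_frob [IsAlgClosure F Ω] (β γ : O) (hβ : Prime β) (hβ3 : Prim β) (hγ : Prime γ) (hγ3 : Prim γ)
    (hne : ¬ γ ∣ β) (V : ValuationSubring Ω) (hV : vo V γ < 1) (s : Ω ≃ₐ[F] Ω)
    (hs : ∀ x ∈ V, V.valuation (s x - x ^ H55B.Nm γ) < 1) (T : P27 Ω) (hT : T ∈ Tor β Ω) :
    ac W27 s T = act γ T := by
  by_cases hT0 : T = 0
  · rw [hT0, map_zero, map_zero]
  have h3 : V.valuation (3 : Ω) = 1 := by
    obtain ⟨w, hw⟩ := hγ3
    have h1 := gif_comb V 1 γ (-w) 3 (by linear_combination hw) hV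
    have h2 : algebraMap F Ω ((3 : O) : F) = (3 : Ω) := by
      have e : ((3 : O) : F) = 3 := rfl
      rw [e]
      exact map_ofNat _ 3
    rwa [vo, h2] at h1
  have hβv : vo V β = 1 := by
    have hmax : (Ideal.span {γ}).IsMaximal := by
      apply Ring.DimensionLEOne.maximalOfPrime
      · rw [Ne, Ideal.span_singleton_eq_bot]
        exact hγ.ne_zero
      · exact (Ideal.span_singleton_prime hγ.ne_zero).2 hγ
    have htop : Ideal.span {γ} ⊔ Ideal.span {β} = ⊤ := by
      apply hmax.1.2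
      refine lt_of_le_of_ne le_sup_left ?_
      intro hc
      apply hne
      have : β ∈ Ideal.span {γ} := by
        rw [hc]
        exact Ideal.mem_sup_right (Ideal.mem_span_singleton_self β)
      exact Ideal.mem_span_singleton.1 this
    have hcop : IsCoprime γ β := by
      rw [← Ideal.isCoprime_span_singleton_iff, Ideal.isCoprime_iff_sup_eq]
      exact htop
    obtain ⟨a, b, hab⟩ := hcop
    exact gif_comb V a γ b β hab hV
  have hKr : ¬ Kr V T := fun hK => hT0 (kr_tor V β hβv hT hK)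
  have hx1 : V.valuation (xc T) ≤ 1 := by
    by_contra hc
    push Not at hc
    exact hKr (Or.inr hc)
  have hy1 : V.valuation (yc T) ≤ 1 := int_y V.valuation hx1
  obtain ⟨hg0, hg1, hgx, hgy⟩ := kr_kron γ hγ hγ3 V hV hT0 hx1
  have hsx := hs (xc T) ((V.valuation_le_one_iff _).1 hx1)
  have hsy := hs (yc T) ((V.valuation_le_one_iff _).1 hy1)
  have hxs : xc (ac W27 s T) = s (xc T) := by rw [ac_eq, xc_mp]; rfl
  have hys : yc (ac W27 s T) = s (yc T) := by rw [ac_eq, yc_mp]; rfl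
  have hQ0 : ac W27 s T ≠ 0 := by
    rw [ac_eq]
    exact mp_ne _ hT0
  have hx : V.valuation (xc (act γ T) - xc (ac W27 s T)) < 1 := by
    rw [hxs]
    have e : xc (act γ T) - s (xc T) = (xc (act γ T) - xc T ^ H55B.Nm γ) - (s (xc T) - xc T ^ H55B.Nm γ) := by ring
    rw [e]
    exact V.valuation.map_sub_lt hgx hsx
  have hy : V.valuation (yc (act γ T) - yc (ac W27 s T)) < 1 := by
    rw [hys]
    have e : yc (act γ T) - s (yc T) = (yc (act γ T) - yc T ^ H55B.Nm γ) - (s (yc T) - yc T ^ H55B.Nm γ) := by ring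
    rw [e]
    exact V.valuation.map_sub_lt hgy hsy
  have hK := kr_congr V h3 hg0 hQ0 hg1 hx hy
  have hgT : act γ T ∈ Tor β Ω := by
    rw [mem_Tor, ← act_mul, mul_comm, act_mul, mem_Tor.1 hT, map_zero]
  have hmem : act γ T - ac W27 s T ∈ Tor β Ω := sub_mem hgT (ac_mem s hT)
  have h0 := kr_tor V β hβv hmem hK
  exact (sub_eq_zero.1 h0).symm

end H13S
end

-- from Lib.H13S.QI
section

open NumberField IsDedekindDomain

namespace H13S

open H55P H28G H55B

theorem qi_nat {Ω : Type} [Field Ω] (V : ValuationSubring Ω) (n : ℕ) : V.valuation (n : Ω) ≤ 1 :=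
  (V.valuation_le_one_iff _).2 (natCast_mem V n)

theorem qi_pow {Ω : Type} [Field Ω] (V : ValuationSubring Ω) {a b : Ω} (ha : V.valuation a ≤ 1)
    (hb : V.valuation b ≤ 1) (h : V.valuation (a - b) < 1) (n : ℕ) : V.valuation (a ^ n - b ^ n) < 1 := by
  have ha' : a ∈ V := (V.valuation_le_one_iff _).1 ha
  have hb' : b ∈ V := (V.valuation_le_one_iff _).1 hb
  obtain ⟨c, hc⟩ := sub_dvd_pow_sub_pow (⟨a, ha'⟩ : V) ⟨b, hb'⟩ n
  have h1 := congrArg (fun z : V => (z : Ω)) hc
  push_cast at h1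
  rw [h1, map_mul]
  exact mul_lt_one_of_lt_of_le h ((V.valuation_le_one_iff _).2 c.2)

/-- Powers in the residue field: x is congruent to a power of x. -/
theorem qi_res {Ω : Type} [Field Ω] [Algebra F Ω] [IsAlgClosure F Ω] (V : ValuationSubring Ω) (l : ℕ)
    (hl : l.Prime) (hV : V.valuation (l : Ω) < 1) (x : Ω) (hx : V.valuation x ≤ 1) :
    ∃ k, 0 < k ∧ ∀ m, V.valuation (x ^ ((l ^ k) ^ m) - x) < 1 := by
  have hcz : CharZero Ω := charZero_of_injective_algebraMap (algebraMap F Ω).injective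
  have hal : Algebra.IsAlgebraic F Ω := IsAlgClosure.isAlgebraic
  have hal0 : Algebra.IsAlgebraic ℚ F := inferInstance
  have hal1 : Algebra.IsAlgebraic ℚ Ω := Algebra.IsAlgebraic.trans ℚ F Ω
  have hxz : IsAlgebraic ℤ x := (IsFractionRing.isAlgebraic_iff ℤ ℚ Ω).2 (hal1.isAlgebraic x)
  obtain ⟨p, hp0, hp⟩ := hxz
  have hpp : Polynomial.aeval x p.primPart = 0 := Polynomial.aeval_primPart_eq_zero hp0 hp
  have hprim : p.primPart.IsPrimitive := Polynomial.isPrimitive_primPart p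
  generalize p.primPart = P at hpp hprim
  have hx' : x ∈ V := (V.valuation_le_one_iff _).1 hx
  let r : V →+* IsLocalRing.ResidueField V := IsLocalRing.residue V
  have hlk : (l : IsLocalRing.ResidueField V) = 0 := by
    have h1 : ((l : V) : Ω) = (l : Ω) := by push_cast; rfl
    have h2 : (l : V) ∈ IsLocalRing.maximalIdeal V := by
      rw [V.valuation_lt_one_iff, h1]
      exact hV
    have h3 := (IsLocalRing.residue_eq_zero_iff (l : V)).2 h2
    rw [map_natCast] at h3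
    exact h3
  have hfl : Fact l.Prime := ⟨hl⟩
  have hch : CharP (IsLocalRing.ResidueField V) l := (CharP.charP_iff_prime_eq_zero hl).2 hlk
  letI : Algebra (ZMod l) (IsLocalRing.ResidueField V) := ZMod.algebra _ l
  have hPl : P.map (Int.castRingHom (ZMod l)) ≠ 0 := by
    intro h0
    have h1 : Polynomial.C (l : ℤ) ∣ P := by
      rw [Polynomial.C_dvd_iff_dvd_coeff]
      intro i
      have h2 := congrArg (fun q => Polynomial.coeff q i) h0
      simp only [Polynomial.coeff_map, Polynomial.coeff_zero] at h2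
      exact (ZMod.intCast_zmod_eq_zero_iff_dvd _ _).1 h2
    have h3 := hprim _ h1
    rw [Int.isUnit_iff] at h3
    have := hl.two_le
    omega
  have hPx : Polynomial.eval₂ (Int.castRingHom V) ⟨x, hx'⟩ P = 0 := by
    apply Subtype.ext
    have h1 := Polynomial.hom_eval₂ P (Int.castRingHom V) V.subtype ⟨x, hx'⟩
    have h2 : V.subtype.comp (Int.castRingHom V) = algebraMap ℤ Ω := RingHom.ext_int _ _
    rw [h2] at h1
    exact h1.trans hpp
  have hPr : Polynomial.aeval (r ⟨x, hx'⟩) (P.map (Int.castRingHom (ZMod l))) = 0 := by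
    rw [Polynomial.aeval_def, Polynomial.eval₂_map]
    have h1 := Polynomial.hom_eval₂ P (Int.castRingHom V) r ⟨x, hx'⟩
    have h2 : r.comp (Int.castRingHom V) =
        (algebraMap (ZMod l) (IsLocalRing.ResidueField V)).comp (Int.castRingHom (ZMod l)) :=
      RingHom.ext_int _ _
    rw [h2, hPx, map_zero] at h1
    exact h1.symm
  have hint : IsIntegral (ZMod l) (r ⟨x, hx'⟩) := IsAlgebraic.isIntegral ⟨_, hPl, hPr⟩
  have hfd : FiniteDimensional (ZMod l) (IntermediateField.adjoin (ZMod l) {r ⟨x, hx'⟩}) :=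
    IntermediateField.adjoin.finiteDimensional hint
  have hfin : Finite (IntermediateField.adjoin (ZMod l) {r ⟨x, hx'⟩}) := Module.finite_of_finite (ZMod l)
  have hft : Fintype (IntermediateField.adjoin (ZMod l) {r ⟨x, hx'⟩}) := Fintype.ofFinite _
  have hcard := Module.card_eq_pow_finrank (K := ZMod l)
    (V := IntermediateField.adjoin (ZMod l) {r ⟨x, hx'⟩})
  rw [ZMod.card] at hcard
  have hpw := FiniteField.pow_card (⟨r ⟨x, hx'⟩, IntermediateField.mem_adjoin_simple_self _ _⟩ :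
    IntermediateField.adjoin (ZMod l) {r ⟨x, hx'⟩})
  rw [hcard] at hpw
  have hpw' : r ⟨x, hx'⟩ ^ l ^ Module.finrank (ZMod l) (IntermediateField.adjoin (ZMod l) {r ⟨x, hx'⟩}) =
      r ⟨x, hx'⟩ := congrArg Subtype.val hpw
  refine ⟨Module.finrank (ZMod l) (IntermediateField.adjoin (ZMod l) {r ⟨x, hx'⟩}), Module.finrank_pos, ?_⟩
  intro m
  have hit : ∀ m, r ⟨x, hx'⟩ ^ ((l ^ Module.finrank (ZMod l)
      (IntermediateField.adjoin (ZMod l) {r ⟨x, hx'⟩})) ^ m) = r ⟨x, hx'⟩ := by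
    intro m
    induction m with
    | zero => rw [pow_zero, pow_one]
    | succ m ih => rw [pow_succ, pow_mul, ih, hpw']
  have h4 : ((⟨x, hx'⟩ : V) ^ ((l ^ Module.finrank (ZMod l)
      (IntermediateField.adjoin (ZMod l) {r ⟨x, hx'⟩})) ^ m) - ⟨x, hx'⟩) ∈ IsLocalRing.maximalIdeal V := by
    rw [← IsLocalRing.residue_eq_zero_iff, map_sub, map_pow, sub_eq_zero]
    exact hit m
  rw [V.valuation_lt_one_iff] at h4
  exact h4

variable {Ω : Type} [Field Ω] [DecidableEq Ω] [Algebra F Ω] [IsAlgClosure F Ω]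

theorem qi_vo (V : ValuationSubring Ω) (b : O) : vo V b ≤ 1 := by
  have h1 : IsIntegral ℤ (algebraMap F Ω (b : F)) :=
    (RingOfIntegers.isIntegral_coe b).map ((Algebra.ofId F Ω).restrictScalars ℤ)
  have h2 : IsIntegral V (algebraMap F Ω (b : F)) := h1.tower_top
  obtain ⟨y, hy⟩ := IsIntegrallyClosed.isIntegral_iff.1 h2
  rw [vo, ← hy]
  exact (V.valuation_le_one_iff _).2 y.2

theorem qi_three (V : ValuationSubring Ω) (l : ℕ) (hl : l.Prime) (h5 : 5 ≤ l)
    (hV : V.valuation (l : Ω) < 1) : V.valuation (3 : Ω) = 1 := by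
  have h3 : V.valuation (3 : Ω) ≤ 1 := by
    have := qi_nat V 3
    push_cast at this
    exact this
  by_contra hne
  have hlt : V.valuation (3 : Ω) < 1 := lt_of_le_of_ne h3 hne
  have hco : IsCoprime (3 : ℤ) (l : ℤ) := by
    have h4 : Nat.Coprime 3 l := (Nat.coprime_primes Nat.prime_three hl).2 (by omega)
    exact_mod_cast Nat.isCoprime_iff_coprime.2 h4
  obtain ⟨a, b, hab⟩ := hco
  have h6 : ((a : Ω) * 3 + b * l) = 1 := by exact_mod_cast congrArg (fun z : ℤ => (z : Ω)) hab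
  have h7 : ∀ z : ℤ, V.valuation (z : Ω) ≤ 1 := fun z => (V.valuation_le_one_iff _).2 (intCast_mem V z)
  have h8 : V.valuation ((a : Ω) * 3 + b * l) < 1 := by
    refine lt_of_le_of_lt (V.valuation.map_add _ _) (max_lt ?_ ?_)
    · rw [map_mul, mul_comm]
      exact mul_lt_one_of_lt_of_le hlt (h7 a)
    · rw [map_mul, mul_comm]
      exact mul_lt_one_of_lt_of_le hV (h7 b)
  rw [h6, map_one] at h8
  exact lt_irrefl _ h8

theorem qi_iter {π : O} (hp : Prime π) (hpr : Prim π) (V : ValuationSubring Ω) (hV : vo V π < 1)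
    {P : P27 Ω} (hP : P ≠ 0) (h1 : V.valuation (xc P) ≤ 1) (f : ℕ) :
    act (π ^ f) P ≠ 0 ∧ V.valuation (xc (act (π ^ f) P)) ≤ 1 ∧
      V.valuation (xc (act (π ^ f) P) - xc P ^ H55B.Nm π ^ f) < 1 ∧
      V.valuation (yc (act (π ^ f) P) - yc P ^ H55B.Nm π ^ f) < 1 := by
  have hy1 : V.valuation (yc P) ≤ 1 := int_y V.valuation h1
  induction f with
  | zero =>
    rw [pow_zero, pow_zero, act_one, pow_one, pow_one, sub_self, sub_self, map_zero]
    exact ⟨hP, h1, zero_lt_one, zero_lt_one⟩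
  | succ f ih =>
    obtain ⟨i1, i2, i3, i4⟩ := ih
    obtain ⟨j1, j2, j3, j4⟩ := kr_kron π hp hpr V hV i1 i2
    rw [pow_succ', act_mul]
    refine ⟨j1, j2, ?_, ?_⟩
    · have h2 := qi_pow V i2 (by rw [map_pow]; exact pow_le_one' h1 _) i3 (H55B.Nm π)
      have h3 : xc (act π (act (π ^ f) P)) - xc P ^ H55B.Nm π ^ (f + 1) =
          (xc (act π (act (π ^ f) P)) - xc (act (π ^ f) P) ^ H55B.Nm π) +
          (xc (act (π ^ f) P) ^ H55B.Nm π - (xc P ^ H55B.Nm π ^ f) ^ H55B.Nm π) := by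
        rw [← pow_mul, ← pow_succ]
        ring
      rw [h3]
      exact lt_of_le_of_lt (V.valuation.map_add _ _) (max_lt j3 h2)
    · have h2 := qi_pow V (int_y V.valuation i2) (by rw [map_pow]; exact pow_le_one' hy1 _) i4 (H55B.Nm π)
      have h3 : yc (act π (act (π ^ f) P)) - yc P ^ H55B.Nm π ^ (f + 1) =
          (yc (act π (act (π ^ f) P)) - yc (act (π ^ f) P) ^ H55B.Nm π) +
          (yc (act (π ^ f) P) ^ H55B.Nm π - (yc P ^ H55B.Nm π ^ f) ^ H55B.Nm π) := by
        rw [← pow_mul, ← pow_succ]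
        ring
      rw [h3]
      exact lt_of_le_of_lt (V.valuation.map_add _ _) (max_lt j4 h2)

theorem qi_ac_sub (s : Ω ≃ₐ[F] Ω) (P Q : P27 Ω) : ac W27 s (P - Q) = ac W27 s P - ac W27 s Q := by
  exact map_sub (mp s.toAlgHom) P Q

/-- Chunk QI (M). In the inert case the local point can be taken in the kernel of reduction. C.loc: c s = ac s P - P. If P is in the kernel of reduction take Q = P. If
P = 0 also. Otherwise xc P, yc P are in V, and their classes lie in a finite field (P has coordinates in a number field; V lies above a prime because vo V pi < 1): x^(q^f) = x, y^(q^f) = y modulo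
the maximal ideal for some f ≥ 1, q = Nm pi. kr_kron f times: act (pi^f) P is congruent to (x^(q^f), y^(q^f)) = (x, y), so P' = act (pi^f) P - P = act (pi^f - 1) P is in the kernel of
reduction (kr_congr). ac s P' - P' = act (pi^f - 1) (c s) = - c s, because act pi (c s) = 0 (C.val with cj pi = pi). Q = -P'. -/
theorem inert_point {π : O} {l : ℕ} {c : (Ω ≃ₐ[F] Ω) → P27 Ω} (C : Cl π l c) (hin : cj π = π)
    (V : ValuationSubring Ω) (hV : vo V π < 1) :
    ∃ Q : P27 Ω, Kr V Q ∧ ∀ s, Inert V s → c s = ac W27 s Q - Q := by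
  have hl := C.hl
  have hVl : V.valuation (l : Ω) < 1 := by
    obtain ⟨b, hb⟩ := C.dvd
    have h1 : vo V (l : O) = vo V π * vo V b := by
      rw [hb]
      rw [← vo_eq, ← vo_eq, ← vo_eq, map_mul, map_mul]
    have h2 : vo V (l : O) = V.valuation (l : Ω) := by
      change V.valuation (algebraMap F Ω ((l : O) : F)) = _
      push_cast
      rfl
    rw [← h2, h1]
    exact mul_lt_one_of_lt_of_le hV (qi_vo V b)
  have hV3 : V.valuation (3 : Ω) = 1 := qi_three V l hl C.five hVl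
  obtain ⟨P, hP⟩ := C.loc V
  by_cases hK : Kr V P
  · exact ⟨P, hK, hP⟩
  have hP0 : P ≠ 0 := fun h => hK (Or.inl h)
  have hx1 : V.valuation (xc P) ≤ 1 := not_lt.1 fun h => hK (Or.inr h)
  have hy1 : V.valuation (yc P) ≤ 1 := int_y V.valuation hx1
  obtain ⟨k1, hk1, h1⟩ := qi_res V l hl hVl (xc P) hx1
  obtain ⟨k2, hk2, h2⟩ := qi_res V l hl hVl (yc P) hy1
  obtain ⟨a, ha⟩ : ∃ a, H55B.Nm π = l ^ a := by
    have h3 : H55B.Nm π ∣ l ^ 2 := by
      obtain ⟨b, hb⟩ := C.dvd
      refine ⟨H55B.Nm b, ?_⟩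
      rw [← Nm_mul, ← hb]
      have := Nm_repr (l : ℤ) 0
      push_cast at this
      rw [zero_mul, add_zero] at this
      zify
      rw [this]
      ring
    obtain ⟨a, _, ha⟩ := (Nat.dvd_prime_pow hl).1 h3
    exact ⟨a, ha⟩
  have hkr := qi_iter C.pr C.prim V hV hP0 hx1
  obtain ⟨e1, e2, e3, e4⟩ := hkr (k1 * k2)
  have hq1 : (H55B.Nm π) ^ (k1 * k2) = (l ^ k1) ^ (a * k2) := by
    rw [ha, ← pow_mul, ← pow_mul]
    congr 1
    ring
  have hq2 : (H55B.Nm π) ^ (k1 * k2) = (l ^ k2) ^ (a * k1) := by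
    rw [ha, ← pow_mul, ← pow_mul]
    congr 1
    ring
  have hcx : V.valuation (xc (act (π ^ (k1 * k2)) P) - xc P) < 1 := by
    have h5 := h1 (a * k2)
    rw [← hq1] at h5
    have h6 : xc (act (π ^ (k1 * k2)) P) - xc P = (xc (act (π ^ (k1 * k2)) P) - xc P ^ H55B.Nm π ^ (k1 * k2)) +
        (xc P ^ H55B.Nm π ^ (k1 * k2) - xc P) := by ring
    rw [h6]
    exact lt_of_le_of_lt (V.valuation.map_add _ _) (max_lt e3 h5)
  have hcy : V.valuation (yc (act (π ^ (k1 * k2)) P) - yc P) < 1 := by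
    have h5 := h2 (a * k1)
    rw [← hq2] at h5
    have h6 : yc (act (π ^ (k1 * k2)) P) - yc P = (yc (act (π ^ (k1 * k2)) P) - yc P ^ H55B.Nm π ^ (k1 * k2)) +
        (yc P ^ H55B.Nm π ^ (k1 * k2) - yc P) := by ring
    rw [h6]
    exact lt_of_le_of_lt (V.valuation.map_add _ _) (max_lt e4 h5)
  have hK' := kr_congr V hV3 e1 hP0 e2 hcx hcy
  refine ⟨P - act (π ^ (k1 * k2)) P, ?_, ?_⟩
  · have h7 := kr_act V (-1 : O) hK'
    rw [act_neg, act_one, neg_sub] at h7
    exact h7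
  · intro s hs
    have h8 := hP s hs
    have h9 : act π (c s) = 0 := by
      have h10 := C.val s
      rw [hin] at h10
      exact h10
    have h11 : act (π ^ (k1 * k2)) (c s) = 0 := by
      obtain ⟨m, hm⟩ := Nat.exists_eq_succ_of_ne_zero (Nat.mul_pos hk1 hk2).ne'
      rw [hm, Nat.succ_eq_add_one, pow_succ, act_mul, h9, map_zero]
    have h12 : ac W27 s (P - act (π ^ (k1 * k2)) P) = ac W27 s P - act (π ^ (k1 * k2)) (ac W27 s P) := by
      rw [qi_ac_sub, ac_act]
    rw [h12]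
    have h13 : act (π ^ (k1 * k2)) (ac W27 s P) = act (π ^ (k1 * k2)) P := by
      have h14 : ac W27 s P = c s + P := by rw [h8, sub_add_cancel]
      rw [h14, map_add, h11, zero_add]
    rw [h13, h8]
    abel

end H13S
end
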