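import Mathlib
import Pool.Agent.Lib.H1M.PP.M010
import Pool.Agent.Lib.H1M.PP.M011
import Pool.Agent.Lib.H1M.PP.M016
import Pool.Agent.Lib.H1M.PP.M019
import Pool.Agent.Lib.H1M.PP.M028

/-! Merged copies (to shorten the build) of Lib.H13S.LA, Lib.H55N.D1, Lib.H55N.L1, Lib.H55N.L2, Lib.H55N.E9. -/

-- from Lib.H13S.LA
section

open NumberField IsDedekindDomain

namespace H13S

open H55P H28G H55B

private theorem LA_one {G : Type} [LinearOrderedCommGroupWithZero G] (a : G) (n : ℕ) (hn : n ≠ 0)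
    (h : a ^ n = 1) : a = 1 := by
  have h0 : (0 : G) ≤ a := zero_le
  exact (pow_eq_one_iff_of_nonneg h0 hn).1 h

private theorem LA_root {Ω : Type} [Field Ω] (V : ValuationSubring Ω) (l : ℕ) (hl : l.Prime)
    (ζ : Ω) (hζ : ζ ^ l = 1) : V.valuation (ζ - 1) ^ (l - 1) ≤ V.valuation (l : Ω) := by
  have hl2 := hl.two_le
  by_cases h1 : ζ = 1
  · rw [h1, sub_self, map_zero, zero_pow (by omega)]
    exact zero_le
  have hv1 : V.valuation ζ = 1 := by
    apply LA_one _ l hl.ne_zero
    rw [← map_pow, hζ, map_one]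
  have hpr : IsPrimitiveRoot ζ l := by
    have : Fact l.Prime := ⟨hl⟩
    have := orderOf_eq_prime hζ h1
    rw [← this]
    exact IsPrimitiveRoot.orderOf ζ
  have key : ∀ j ∈ Finset.range (l - 1), V.valuation (1 - ζ) ≤ V.valuation (1 - ζ ^ (j + 1)) := by
    intro j hj
    rw [Finset.mem_range] at hj
    have hcop : Nat.Coprime (j + 1) l := by
      rw [Nat.coprime_comm]
      refine (Nat.Prime.coprime_iff_not_dvd hl).2 ?_
      intro hd
      have := Nat.le_of_dvd (by omega) hd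
      omega
    obtain ⟨k, hk⟩ := Nat.exists_mul_mod_eq_one_of_coprime hcop (by omega)
    have hz : ζ = (ζ ^ (j + 1)) ^ k := by
      rw [← pow_mul]
      conv_lhs => rw [← pow_one ζ, ← hk.2]
      exact (pow_eq_pow_mod _ hζ).symm
    have e1 : (1 - ζ : Ω) = (1 - ζ ^ (j + 1)) * ∑ i ∈ Finset.range k, (ζ ^ (j + 1)) ^ i := by
      rw [mul_comm, geom_sum_mul_neg, ← hz]
    rw [e1, map_mul]
    have e2 : V.valuation (∑ i ∈ Finset.range k, (ζ ^ (j + 1)) ^ i) ≤ 1 := by
      apply Valuation.map_sum_le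
      intro i _
      rw [map_pow, map_pow, hv1, one_pow, one_pow]
    calc V.valuation (1 - ζ ^ (j + 1)) * V.valuation (∑ i ∈ Finset.range k, (ζ ^ (j + 1)) ^ i)
        ≤ V.valuation (1 - ζ ^ (j + 1)) * 1 := by gcongr
      _ = _ := mul_one _
  have hprod : ∏ k ∈ Finset.range (l - 1), (1 - ζ ^ (k + 1)) = (l : Ω) := by
    have hpr' : IsPrimitiveRoot ζ ((l - 1) + 1) := by
      have : l - 1 + 1 = l := by omega
      rw [this]; exact hpr
    rw [hpr'.prod_one_sub_pow_eq_order]
    have : ((l - 1 : ℕ) : Ω) + 1 = ((l - 1 + 1 : ℕ) : Ω) := by push_cast; ring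
    rw [this]
    congr 1
    omega
  rw [← hprod, map_prod, Valuation.map_sub_swap]
  calc V.valuation (1 - ζ) ^ (l - 1) = ∏ _k ∈ Finset.range (l - 1), V.valuation (1 - ζ) := by
        rw [Finset.prod_const, Finset.card_range]
    _ ≤ _ := Finset.prod_le_prod' key

private theorem LA_eq {F₀ : Type} [Field F₀] {Ω : Type} [Field Ω] [Algebra F₀ Ω]
    {L : IntermediateField F₀ Ω} [NumberField L] {V : ValuationSubring Ω}
    {w : HeightOneSpectrum (𝓞 L)} (hw : Abv L V w) (x y : L) :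
    V.valuation (x : Ω) = V.valuation (y : Ω) ↔ w.valuation L x = w.valuation L y := by
  rw [le_antisymm_iff, le_antisymm_iff, hw.le, hw.le]

/-- The l-th powers: solving u = b^l modulo w. -/
private theorem LA_frob {L : Type} [Field L] [NumberField L] (w : HeightOneSpectrum (𝓞 L))
    (l : ℕ) (hl : l.Prime) (hV : w.valuation L (l : L) < 1) (u : L) (hu : w.valuation L u = 1) :
    ∃ b : L, w.valuation L b = 1 ∧ w.valuation L (u - b ^ l) < 1 := by
  obtain ⟨x, hx⟩ := w.exists_valuation_sub_lt_of_integer (K := L) hu.le 1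
  rw [Units.val_one] at hx
  have : Fact l.Prime := ⟨hl⟩
  have hlm : ((l : ℕ) : 𝓞 L) ∈ w.asIdeal := by
    have e0 : algebraMap (𝓞 L) L ((l : ℕ) : 𝓞 L) = (l : L) := map_natCast _ _
    have e1 : w.valuation L (algebraMap (𝓞 L) L ((l : ℕ) : 𝓞 L)) < 1 := by rw [e0]; exact hV
    exact (w.valuation_lt_one_iff_mem (K := L) _).1 e1
  have : Finite (𝓞 L ⧸ w.asIdeal) := Ideal.finiteQuotientOfFreeOfNeBot _ w.ne_bot
  have : IsDomain (𝓞 L ⧸ w.asIdeal) := Ideal.Quotient.isDomain _
  have : CharP (𝓞 L ⧸ w.asIdeal) l := by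
    rw [CharP.charP_iff_prime_eq_zero hl]
    have := Ideal.Quotient.eq_zero_iff_mem.2 hlm
    simpa using this
  have hsur : Function.Surjective (frobenius (𝓞 L ⧸ w.asIdeal) l) :=
    Finite.injective_iff_surjective.1 (frobenius_inj _ _)
  obtain ⟨q, hq⟩ := hsur (Ideal.Quotient.mk w.asIdeal x)
  obtain ⟨c, rfl⟩ := Ideal.Quotient.mk_surjective q
  rw [frobenius_def, ← map_pow, Ideal.Quotient.eq] at hq
  have h2 : w.valuation L (algebraMap (𝓞 L) L (c ^ l - x)) < 1 :=
    (w.valuation_lt_one_iff_mem (K := L) _).2 hq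
  have h3 : w.valuation L (u - (algebraMap (𝓞 L) L c) ^ l) < 1 := by
    have e1 : u - (algebraMap (𝓞 L) L c) ^ l = -((algebraMap (𝓞 L) L x - u) +
        algebraMap (𝓞 L) L (c ^ l - x)) := by
      rw [map_sub, map_pow]; ring
    rw [e1, Valuation.map_neg]
    exact Valuation.map_add_lt _ hx h2
  refine ⟨algebraMap (𝓞 L) L c, ?_, h3⟩
  apply LA_one _ l hl.ne_zero
  rw [← map_pow]
  have e2 : (algebraMap (𝓞 L) L c) ^ l = u - (u - (algebraMap (𝓞 L) L c) ^ l) := by ring
  rw [e2, Valuation.map_sub_eq_of_lt_left, hu]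
  rw [hu]; exact h3

/-- Chunk LA (M). Step A: an element Z for a Kummer generator of level at most one. nu = the exponent of w.valuation m. Case 1: l does not divide nu. a' nu + l b' = 1 (a' in {1..l-1} modulo l, b' integer), t a uniformizer of w in
L: Z = y^a' t^(b') up to sign of the exponents so that V.valuation Z ^ l = V.valuation t; s Z - Z = (zeta^a' - 1) Z, zeta = s y/y, and V.valuation (zeta^a' - 1)^(l-1) ≤ V.valuation l (equality if zeta^a' ≠ 1:
product of (1 - zeta^j) = l, all of the same value; every (1 - zeta^j)/(1 - zeta) is in V and conversely); y^i is in L Z^j, j = a'' i modulo l, because Z^l is in L. Case 2: l divides nu: y₁ = y/a, a = power of t,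
y₁^l = u a w-unit, b with u = b^l modulo w (finite residue field of characteristic l, hl : value of l < 1), y₂ = y₁/b, u₂ = y₂^l = 1 modulo w, and by hlev u₂ - 1 is not of value ≤ exp(-2), so it has value
exp(-1) : it is a uniformizer t. Z = y₂ - 1: V.valuation Z < 1, u₂ - 1 = (1+Z)^l - 1 = Z^l + l Z (..), V.valuation (l Z ..) < V.valuation t (value of l ≤ value of t), so V.valuation Z^l = V.valuation t. s Z - Z = (zeta - 1) y₂; y^i = (a b)^i (1 + Z)^i. -/
theorem step_a {F₀ : Type} [Field F₀] [NumberField F₀] {Ω : Type} [Field Ω] [Algebra F₀ Ω]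
    [IsAlgClosure F₀ Ω] (L : IntermediateField F₀ Ω) [NumberField L] (V : ValuationSubring Ω)
    (w : HeightOneSpectrum (𝓞 L)) (hw : Abv L V w) (l : ℕ) (hl : l.Prime) (h3 : 3 ≤ l)
    (hV : V.valuation (l : Ω) < 1)
    (hμ : ∀ ζ : Ω, ζ ^ l = 1 → ζ ∈ L) (m : L) (hm : m ≠ 0) (y : Ω) (hy : y ^ l = (m : Ω))
    (hlev : ¬ ∃ z : L, z ≠ 0 ∧ w.valuation L (m / z ^ l - 1) ≤ WithZero.exp (-2 : ℤ)) :
    ∃ Z : Ω, (∃ t : L, w.valuation L t = WithZero.exp (-1 : ℤ) ∧ V.valuation Z ^ l = V.valuation (t : Ω)) ∧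
      (∀ s ∈ L.fixingSubgroup, s y = y → s Z = Z) ∧
      (∀ s ∈ L.fixingSubgroup, V.valuation (s Z - Z) ^ (l - 1) ≤ V.valuation (l : Ω)) ∧
      ∀ i < l, ∃ a : ℕ → L, y ^ i = ∑ j ∈ Finset.range l, (a j : Ω) * Z ^ j := by
  have hl2 := hl.two_le
  have hy0 : y ≠ 0 := by
    rintro rfl
    rw [zero_pow hl.ne_zero] at hy
    exact hm (Subtype.ext (by simpa using hy.symm))
  have hl0 : (l : L) ≠ 0 := by exact_mod_cast hl.ne_zero
  have hwl : w.valuation L (l : L) < 1 := by
    rw [← hw.lt]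
    simpa using hV
  have hfix : ∀ s ∈ L.fixingSubgroup, ∀ x : L, s (x : Ω) = x := by
    intro s hs x
    exact (IntermediateField.mem_fixingSubgroup_iff _ _).1 hs x x.2
  have hzeta : ∀ s ∈ L.fixingSubgroup, (s y / y) ^ l = 1 := by
    intro s hs
    rw [div_pow, ← map_pow, hy, hfix s hs, div_self]
    rw [← hy]; exact pow_ne_zero _ hy0
  have hmv : w.valuation L m ≠ 0 := (Valuation.ne_zero_iff _).2 hm
  obtain ⟨ν, hν⟩ : ∃ ν : ℤ, w.valuation L m = WithZero.exp ν :=
    ⟨WithZero.log (w.valuation L m), (WithZero.exp_log hmv).symm⟩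
  obtain ⟨t, ht⟩ := w.valuation_exists_uniformizer L
  have ht' : w.valuation L t = WithZero.exp (-1 : ℤ) := by
    rw [ht]
  have ht0 : t ≠ 0 := by
    rintro rfl
    rw [map_zero] at ht'
    exact WithZero.exp_ne_zero ht'.symm
  have hyl : V.valuation y ^ l = V.valuation (m : Ω) := by rw [← map_pow, hy]
  by_cases hdv : (l : ℤ) ∣ ν
  · -- case 2
    obtain ⟨ν', rfl⟩ := hdv
    have ha0 : t ^ (-ν') ≠ 0 := zpow_ne_zero _ ht0
    have hwa : w.valuation L (t ^ (-ν')) = WithZero.exp ν' := by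
      rw [map_zpow₀, ht', ← WithZero.exp_zsmul]
      congr 1
      simp
    have hwu : w.valuation L (m / (t ^ (-ν')) ^ l) = 1 := by
      rw [map_div₀, map_pow, hwa, hν, ← WithZero.exp_nsmul]
      rw [nsmul_eq_mul]
      exact div_self WithZero.exp_ne_zero
    obtain ⟨b, hb1, hb2⟩ := LA_frob w l hl hwl _ hwu
    have hb0 : b ≠ 0 := by
      rintro rfl
      rw [map_zero] at hb1
      exact zero_ne_one hb1
    set a : L := t ^ (-ν') with ha
    set c : L := a * b with hc
    have hc0 : c ≠ 0 := mul_ne_zero ha0 hb0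
    have hcΩ : (c : Ω) ≠ 0 := by exact_mod_cast hc0
    set τ : L := m / c ^ l - 1 with hτ
    have hτ1 : w.valuation L τ < 1 := by
      have e1 : τ = (m / a ^ l - b ^ l) * (b ^ l)⁻¹ := by
        rw [hτ, hc, mul_pow]
        field_simp
      rw [e1, map_mul, map_inv₀, map_pow, hb1, one_pow, inv_one, mul_one]
      exact hb2
    have hτ2 : ¬ w.valuation L τ ≤ WithZero.exp (-2 : ℤ) := fun h => hlev ⟨c, hc0, h⟩
    have hτv : w.valuation L τ = WithZero.exp (-1 : ℤ) := by
      have h0 : w.valuation L τ ≠ 0 := by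
        intro h0
        apply hτ2
        rw [h0]
        exact zero_le
      rw [← WithZero.exp_log h0] at hτ1 hτ2 ⊢
      rw [WithZero.exp_le_exp, not_le] at hτ2
      rw [← WithZero.exp_zero, WithZero.exp_lt_exp] at hτ1
      congr 1
      omega
    have hτV : V.valuation (τ : Ω) < 1 := by
      rw [hw.lt]; exact hτ1
    -- y₂
    set y₂ : Ω := y / c with hy₂
    have hy₂l : y₂ ^ l = (τ : Ω) + 1 := by
      rw [hy₂, div_pow, hy, hτ]
      push_cast
      ring
    have hvy₂ : V.valuation y₂ = 1 := by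
      apply LA_one _ l hl.ne_zero
      rw [← map_pow, hy₂l, Valuation.map_add_eq_of_lt_right, map_one]
      rw [map_one]; exact hτV
    have hlτ : V.valuation (l : Ω) ≤ V.valuation (τ : Ω) := by
      have h1 : w.valuation L (l : L) ≤ w.valuation L τ := by
        rw [hτv]
        have h0 : w.valuation L (l : L) ≠ 0 := (Valuation.ne_zero_iff _).2 hl0
        rw [← WithZero.exp_log h0] at hwl ⊢
        rw [← WithZero.exp_zero, WithZero.exp_lt_exp] at hwl
        rw [WithZero.exp_le_exp]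
        omega
      have := (hw.le (l : L) τ).2 h1
      simpa using this
    have hlΩ : V.valuation (l : Ω) ≠ 0 := by
      rw [Valuation.ne_zero_iff]
      intro h
      apply hl0
      exact Subtype.ext (by simpa using h)
    set Z : Ω := y₂ - 1 with hZ
    have hZV : Z ∈ V := by
      rw [← V.valuation_le_one_iff, hZ]
      refine (Valuation.map_sub _ _ _).trans ?_
      rw [hvy₂, map_one, max_self]
    have hexp : V.valuation ((τ : Ω) - Z ^ l) ≤ V.valuation (l : Ω) * V.valuation Z := by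
      obtain ⟨r, hr⟩ := exists_add_pow_prime_eq hl (⟨Z, hZV⟩ : V) 1
      have hr' := congrArg (fun x : V => (x : Ω)) hr
      push_cast at hr'
      have e1 : (τ : Ω) - Z ^ l = (l : Ω) * Z * (r : Ω) := by
        have e2 : Z + 1 = y₂ := by rw [hZ]; ring
        rw [e2, hy₂l, one_pow] at hr'
        linear_combination hr'
      rw [e1, map_mul, map_mul]
      have hr1 : V.valuation (r : Ω) ≤ 1 := V.valuation_le_one r
      calc V.valuation (l : Ω) * V.valuation Z * V.valuation (r : Ω)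
          ≤ V.valuation (l : Ω) * V.valuation Z * 1 := by gcongr
        _ = _ := mul_one _
    have hZ1 : V.valuation Z < 1 := by
      have hZle : V.valuation Z ≤ 1 := (V.valuation_le_one_iff _).2 hZV
      have h1 : V.valuation (Z ^ l) < 1 := by
        have e1 : Z ^ l = (τ : Ω) - ((τ : Ω) - Z ^ l) := by ring
        rw [e1]
        apply Valuation.map_sub_lt _ hτV
        refine lt_of_le_of_lt hexp ?_
        calc V.valuation (l : Ω) * V.valuation Z ≤ V.valuation (l : Ω) * 1 := by gcongr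
          _ = V.valuation (l : Ω) := mul_one _
          _ < 1 := hV
      rw [map_pow] at h1
      by_contra h2
      have h3 : V.valuation Z = 1 := le_antisymm hZle (not_lt.1 h2)
      rw [h3, one_pow] at h1
      exact lt_irrefl _ h1
    have hZτ : V.valuation Z ^ l = V.valuation (τ : Ω) := by
      rw [← map_pow]
      have h1 : V.valuation ((τ : Ω) - Z ^ l) < V.valuation (τ : Ω) := by
        refine lt_of_le_of_lt hexp ?_
        refine lt_of_lt_of_le ?_ hlτ
        calc V.valuation (l : Ω) * V.valuation Z < V.valuation (l : Ω) * 1 := by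
              apply mul_lt_mul_of_pos_left hZ1
              exact zero_lt_iff.2 hlΩ
          _ = V.valuation (l : Ω) := mul_one _
      have e1 : Z ^ l = (τ : Ω) - ((τ : Ω) - Z ^ l) := by ring
      rw [e1, Valuation.map_sub_eq_of_lt_left _ h1]
    refine ⟨Z, ⟨τ, hτv, hZτ⟩, ?_, ?_, ?_⟩
    · intro s hs hsy
      rw [hZ, hy₂, map_sub, map_div₀, hsy, hfix s hs, map_one]
    · intro s hs
      have e1 : s Z - Z = (s y / y - 1) * y₂ := by
        rw [hZ, hy₂, map_sub, map_div₀, hfix s hs, map_one]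
        field_simp
        ring
      rw [e1, map_mul, hvy₂, mul_one]
      exact LA_root V l hl _ (hzeta s hs)
    · intro i hi
      refine ⟨fun j => c ^ i * (i.choose j : L), ?_⟩
      have e1 : y = (c : Ω) * (Z + 1) := by
        rw [hZ, hy₂]
        field_simp
        ring
      have e2 : y ^ i = (c : Ω) ^ i * (Z + 1) ^ i := by
        rw [← mul_pow, ← e1]
      rw [e2, add_pow, Finset.mul_sum]
      rw [← Finset.sum_subset (Finset.range_subset_range.2 (show i + 1 ≤ l by omega))]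
      · apply Finset.sum_congr rfl
        intro j _
        push_cast
        ring
      · intro j _ hj
        rw [Finset.mem_range, not_lt] at hj
        have h0 : i.choose j = 0 := Nat.choose_eq_zero_of_lt (by omega)
        simp only [h0]
        push_cast
        ring
  · -- case 1
    have hcop : IsCoprime (l : ℤ) ν := (Nat.prime_iff_prime_int.1 hl).coprime_iff_not_dvd.2 hdv
    obtain ⟨p, q, hpq⟩ := hcop
    set Z : Ω := y ^ (-q) * (t : Ω) ^ p with hZ
    set d : L := m ^ (-q) * (t ^ p) ^ l with hd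
    have hmΩ : (m : Ω) ≠ 0 := by exact_mod_cast hm
    have htΩ : (t : Ω) ≠ 0 := by exact_mod_cast ht0
    have hz : ∀ (x : L) (n : ℤ), ((x ^ n : L) : Ω) = (x : Ω) ^ n :=
      fun x n => map_zpow₀ (algebraMap L Ω) x n
    have hZ0 : Z ≠ 0 := mul_ne_zero (zpow_ne_zero _ hy0) (zpow_ne_zero _ htΩ)
    have hZl : Z ^ l = (d : Ω) := by
      rw [hZ, hd, mul_pow]
      push_cast
      rw [hz, hz, ← hy, ← zpow_natCast (y ^ (-q)), ← zpow_natCast y, ← zpow_mul, ← zpow_mul,
        mul_comm (-q) (l : ℤ)]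
    have hwd : w.valuation L d = w.valuation L t := by
      rw [hd, map_mul, map_zpow₀, map_pow, map_zpow₀, ht', hν, ← WithZero.exp_zsmul,
        ← WithZero.exp_zsmul, ← WithZero.exp_nsmul, ← WithZero.exp_add]
      congr 1
      simp only [smul_eq_mul, nsmul_eq_mul]
      linear_combination -hpq
    have hvZ : V.valuation Z ^ l = V.valuation (t : Ω) := by
      rw [← map_pow, hZl]
      exact (LA_eq hw _ _).2 hwd
    have hZ1 : V.valuation Z ≤ 1 := by
      by_contra h
      have h1 : 1 < V.valuation Z ^ l := one_lt_pow₀ (not_le.1 h) hl.ne_zero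
      rw [hvZ] at h1
      have h2 : V.valuation (t : Ω) < 1 := by
        rw [hw.lt, ht', ← WithZero.exp_zero, WithZero.exp_lt_exp]
        norm_num
      exact lt_asymm h1 h2
    have hst : ∀ s ∈ L.fixingSubgroup, s Z = (s y) ^ (-q) * (t : Ω) ^ p := by
      intro s hs
      rw [hZ, map_mul, map_zpow₀, map_zpow₀, hfix s hs]
    refine ⟨Z, ⟨t, ht', hvZ⟩, ?_, ?_, ?_⟩
    · intro s hs hsy
      rw [hst s hs, hsy]
    · intro s hs
      have e1 : s Z - Z = ((s y / y) ^ (-q) - 1) * Z := by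
        rw [hst s hs, div_zpow, sub_mul, one_mul, hZ]
        congr 1
        field_simp
      rw [e1, map_mul, mul_pow]
      calc V.valuation ((s y / y) ^ (-q) - 1) ^ (l - 1) * V.valuation Z ^ (l - 1)
          ≤ V.valuation ((s y / y) ^ (-q) - 1) ^ (l - 1) * 1 ^ (l - 1) := by gcongr
        _ = V.valuation ((s y / y) ^ (-q) - 1) ^ (l - 1) := by rw [one_pow, mul_one]
        _ ≤ _ := by
          apply LA_root V l hl
          rw [← zpow_natCast, ← zpow_mul, mul_comm, zpow_mul, zpow_natCast, hzeta s hs, one_zpow]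
    · intro i hi
      have hl0' : (l : ℤ) ≠ 0 := by exact_mod_cast hl.ne_zero
      have hlpos : (0 : ℤ) < l := by exact_mod_cast hl.pos
      set r : ℤ := (-ν * i) % l with hr
      set k : ℤ := (-ν * i) / l with hk
      have hrk : -ν * i = l * k + r := by
        rw [hr, hk]
        have := Int.emod_add_mul_ediv (-ν * i) l
        linarith
      have hr0 : 0 ≤ r := Int.emod_nonneg _ hl0'
      have hrl : r < l := Int.emod_lt_of_pos _ hlpos
      have e1 : y = Z ^ (-ν) * ((m : Ω) ^ p * (t : Ω) ^ (p * ν)) := by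
        rw [hZ, mul_zpow, ← zpow_mul, ← zpow_mul]
        rw [← hy, ← zpow_natCast, ← zpow_mul]
        have e3 : y ^ (-q * -ν) * (t : Ω) ^ (p * -ν) * (y ^ ((l : ℤ) * p) * (t : Ω) ^ (p * ν)) =
            (y ^ (-q * -ν) * y ^ ((l : ℤ) * p)) * ((t : Ω) ^ (p * -ν) * (t : Ω) ^ (p * ν)) := by ring
        rw [e3, ← zpow_add₀ hy0, ← zpow_add₀ htΩ]
        have e4 : -q * -ν + (l : ℤ) * p = 1 := by linear_combination hpq
        have e5 : p * -ν + p * ν = 0 := by ring
        rw [e4, e5, zpow_one, zpow_zero, mul_one]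
      have e2 : y ^ i = ((d ^ k * (m ^ p * t ^ (p * ν)) ^ i : L) : Ω) * Z ^ r.toNat := by
        conv_lhs => rw [e1]
        rw [mul_pow, ← zpow_natCast (Z ^ (-ν)), ← zpow_mul, hrk, zpow_add₀ hZ0, zpow_mul, zpow_natCast,
          hZl]
        have : Z ^ r = Z ^ r.toNat := by
          rw [← zpow_natCast, Int.toNat_of_nonneg hr0]
        rw [this]
        push_cast
        rw [hz, hz, hz]
        ring
      refine ⟨fun j => if j = r.toNat then (d ^ k * (m ^ p * t ^ (p * ν)) ^ i : L) else 0, ?_⟩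
      rw [Finset.sum_eq_single r.toNat]
      · simp only [if_true]
        rw [e2]
      · intro j _ hj
        simp only [if_neg hj]
        push_cast
        ring
      · intro h
        exfalso
        apply h
        rw [Finset.mem_range]
        omega

end H13S
end

-- from Lib.H55N.D1
section

open NumberField IsDedekindDomain

namespace H55N

open H55B H55C

variable {K : Type} [Field K] [NumberField K] [Algebra F K] {m : ℕ}

/-! Chunk D1 (M/L). The units u = 1 mod J, J contained in 6 O_K, J nonzero. rank K = m: K has 0 real and m+1 complex places (complex_places in H55C/W8; F has no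
real place). Let U = {u : u - 1 in J} (a subgroup), the kernel of the map of O_K^* to the units of the finite ring O_K/J: finite index.
U is torsion free: if ζ in U has prime order l then ζ - 1 divides l in O_K (l = prod_{k=1}^{l-1} (1 - ζ^k)), so 6 divides l in O_K, so 6 divides l in Z (norms, or
Z is integrally closed), impossible. So U injects into (O_K^* / torsion), free of rank m (basisModTorsion / fundSystem), with image of finite index (finiteIndex_iff...): U
is free of rank m: choose a Z-basis of the image (Submodule.smithNormalForm or Module.Free + finrank: a submodule of finite index has the same rank; Module.finBasis), lift to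
units u_j in U. (Or: exist_unique_eq_mul_prod.) -/

omit [Algebra F K] in
lemma D1_six {J : Ideal (𝓞 K)} (hJ6 : J ≤ Ideal.span {6}) {ζ : (𝓞 K)ˣ}
    (hζ : (ζ : 𝓞 K) - 1 ∈ J) {l : ℕ} (hl : l.Prime) (h1 : ζ ^ l = 1) : ζ = 1 := by
  by_contra hne
  have hs : ∑ i ∈ Finset.range l, (ζ : 𝓞 K) ^ i = 0 := by
    have h := mul_geom_sum (ζ : 𝓞 K) l
    have h2 : (ζ : 𝓞 K) ^ l = 1 := by
      have h0 := congrArg Units.val h1
      simpa using h0
    rw [h2, sub_self] at h
    rcases mul_eq_zero.1 h with h3 | h3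
    · exact absurd (Units.ext (sub_eq_zero.1 h3)) hne
    · exact h3
  have h3 : (l : 𝓞 K) ∈ Ideal.span {(6 : 𝓞 K)} := by
    have h4 : (l : 𝓞 K) = - ∑ i ∈ Finset.range l, ((ζ : 𝓞 K) ^ i - 1) := by
      rw [Finset.sum_sub_distrib, hs]
      simp
    rw [h4]
    refine (Ideal.neg_mem_iff _).2 (Ideal.sum_mem _ fun i _ => ?_)
    have h5 := sub_dvd_pow_sub_pow (ζ : 𝓞 K) 1 i
    rw [one_pow] at h5
    exact Ideal.mem_of_dvd _ h5 (hJ6 hζ)
  obtain ⟨y, hy⟩ := Ideal.mem_span_singleton.1 h3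
  set b := RingOfIntegers.basis K
  have hn1 : Algebra.norm ℤ ((algebraMap ℤ (𝓞 K)) (l : ℤ)) =
      (l : ℤ) ^ Fintype.card (Module.Free.ChooseBasisIndex ℤ (𝓞 K)) :=
    Algebra.norm_algebraMap_of_basis b _
  have hn2 : Algebra.norm ℤ ((algebraMap ℤ (𝓞 K)) (6 : ℤ)) =
      (6 : ℤ) ^ Fintype.card (Module.Free.ChooseBasisIndex ℤ (𝓞 K)) :=
    Algebra.norm_algebraMap_of_basis b _
  have hy2 : (algebraMap ℤ (𝓞 K)) (l : ℤ) = (algebraMap ℤ (𝓞 K)) (6 : ℤ) * y := by
    rw [map_natCast, hy]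
    simp
  have hy3 := congrArg (Algebra.norm ℤ) hy2
  rw [map_mul, hn1, hn2] at hy3
  have hpos : Fintype.card (Module.Free.ChooseBasisIndex ℤ (𝓞 K)) ≠ 0 := by
    rw [← Module.finrank_eq_card_basis b]
    exact (Module.finrank_pos (R := ℤ) (M := 𝓞 K)).ne'
  have h6 : (6 : ℤ) ∣ (l : ℤ) := (Int.pow_dvd_pow_iff hpos).1 ⟨_, hy3⟩
  have h7 : 6 ∣ l := by exact_mod_cast h6
  have h8 : 2 ∣ l := dvd_trans (by norm_num) h7
  have h9 : 3 ∣ l := dvd_trans (by norm_num) h7
  have h10 := (Nat.prime_dvd_prime_iff_eq Nat.prime_two hl).1 h8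
  have h11 := (Nat.prime_dvd_prime_iff_eq Nat.prime_three hl).1 h9
  omega

theorem units_basis (hm : Module.finrank F K = m + 1) (J : Ideal (𝓞 K)) (hJ : J ≠ ⊥)
    (hJ6 : J ≤ Ideal.span {6}) : ∃ u : Fin m → (𝓞 K)ˣ, (∀ j, (u j : 𝓞 K) - 1 ∈ J) ∧
      (∀ z, (uu u z : 𝓞 K) - 1 ∈ J) ∧
      (∀ v : (𝓞 K)ˣ, (v : 𝓞 K) - 1 ∈ J → ∃! z : Fin m → ℤ, v = uu u z) ∧
      (Subgroup.closure (Set.range u)).FiniteIndex := by
  classical
  have hrank : Units.rank K = m := by
    have h1 := complex_places K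
    have h2 := InfinitePlace.card_eq_nrRealPlaces_add_nrComplexPlaces (K := K)
    have h3 : InfinitePlace.nrRealPlaces K = 0 := by
      have h4 := InfinitePlace.card_add_two_mul_card_eq_rank K
      have h5 := Module.finrank_mul_finrank ℚ F K
      have h6 : Module.finrank ℚ F = 2 := by
        have h := IsCyclotomicExtension.finrank (n := 3) F
          (Polynomial.cyclotomic.irreducible_rat (by norm_num))
        rw [h]
        decide
      rw [h6] at h5
      omega
    unfold Units.rank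
    omega
  let φ : (𝓞 K)ˣ →* (𝓞 K ⧸ J)ˣ := Units.map (Ideal.Quotient.mk J).toMonoidHom
  haveI : Finite (𝓞 K ⧸ J) := Ideal.finiteQuotientOfFreeOfNeBot J hJ
  have hV : ∀ v : (𝓞 K)ˣ, v ∈ φ.ker ↔ (v : 𝓞 K) - 1 ∈ J := by
    intro v
    rw [MonoidHom.mem_ker, Units.ext_iff, ← Ideal.Quotient.mk_eq_mk_iff_sub_mem]
    exact Iff.rfl
  haveI hVfi : φ.ker.FiniteIndex := inferInstance
  let N : Submodule ℤ (Additive (𝓞 K)ˣ) := AddSubgroup.toIntSubmodule (Subgroup.toAddSubgroup φ.ker)
  have hmemN : ∀ x : Additive (𝓞 K)ˣ, x ∈ N ↔ Additive.toMul x ∈ φ.ker := fun x => Iff.rfl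
  -- torsion free
  have htf : ∀ v ∈ φ.ker, ∀ n : ℕ, 0 < n → v ^ n = 1 → v = 1 := by
    intro v hv n hn h1
    by_contra hne
    have h2 : orderOf v ≠ 1 := fun h => hne (orderOf_eq_one_iff.1 h)
    obtain ⟨l, hl, hdvd⟩ := Nat.exists_prime_and_dvd h2
    have hfo : IsOfFinOrder v := isOfFinOrder_iff_pow_eq_one.2 ⟨n, hn, h1⟩
    have hpos := hfo.orderOf_pos
    obtain ⟨k, hk⟩ := hdvd
    have h3 : (v ^ k) ^ l = 1 := by
      rw [← pow_mul, mul_comm, ← hk, pow_orderOf_eq_one]
    have h4 := D1_six hJ6 ((hV _).1 (Subgroup.pow_mem _ hv k)) hl h3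
    have h5 := orderOf_dvd_of_pow_eq_one h4
    have hk0 : 0 < k := Nat.pos_of_ne_zero (fun h => by rw [hk, h, mul_zero] at hpos; exact lt_irrefl _ hpos)
    have h6 := Nat.le_of_dvd hk0 h5
    have h7 := hl.two_le
    nlinarith
  haveI hN : Module.Finite ℤ N := inferInstance
  haveI hNt : Module.IsTorsionFree ℤ N := by
    apply Module.IsTorsionFree.of_smul_eq_zero
    intro r x hx
    by_contra hcon
    push Not at hcon
    obtain ⟨hr, hx0⟩ := hcon
    apply hx0
    apply Subtype.ext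
    have h1 : r • (x : Additive (𝓞 K)ˣ) = 0 := congrArg Subtype.val hx
    have h2 : (r.natAbs) • (x : Additive (𝓞 K)ˣ) = 0 := by
      rcases Int.natAbs_eq r with h | h
      · rw [h, natCast_zsmul] at h1
        exact h1
      · rw [h, neg_smul, natCast_zsmul, neg_eq_zero] at h1
        exact h1
    exact congrArg Additive.ofMul (htf (Additive.toMul (x : Additive (𝓞 K)ˣ)) ((hmemN _).1 x.2)
      r.natAbs (Int.natAbs_pos.2 hr) (congrArg Additive.toMul h2))
  haveI hNf : Module.Free ℤ N := Module.free_of_finite_type_torsion_free'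
  have hfr : Module.finrank ℤ N = m := by
    have h1 := Submodule.finrank_quotient_add_finrank N
    have h2 : Module.finrank ℤ (Additive (𝓞 K)ˣ ⧸ N) = 0 := by
      rw [Module.finrank_eq_zero_iff]
      intro x
      obtain ⟨y, rfl⟩ := Submodule.Quotient.mk_surjective N x
      refine ⟨(φ.ker.index : ℤ), by exact_mod_cast hVfi.index_ne_zero, ?_⟩
      rw [← Submodule.Quotient.mk_smul, Submodule.Quotient.mk_eq_zero, hmemN, natCast_zsmul]
      exact φ.ker.pow_index_mem (Additive.toMul y)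
    rw [h2, zero_add, Units.finrank_eq, hrank] at h1
    exact h1
  let b : Module.Basis (Fin m) ℤ N := Module.finBasisOfFinrankEq ℤ N hfr
  let u : Fin m → (𝓞 K)ˣ := fun j => Additive.toMul (b j : Additive (𝓞 K)ˣ)
  have huV : ∀ j, u j ∈ φ.ker := fun j => (hmemN _).1 (b j).2
  have huu : ∀ z : Fin m → ℤ, Additive.ofMul (uu u z) = ((∑ j, z j • b j : N) : Additive (𝓞 K)ˣ) := by
    intro z
    unfold uu
    rw [ofMul_prod, AddSubmonoidClass.coe_finset_sum]
    rfl
  have huz : ∀ z : Fin m → ℤ, uu u z ∈ φ.ker := fun z =>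
    Subgroup.prod_mem _ fun j _ => Subgroup.zpow_mem _ (huV j) _
  have hex : ∀ v : (𝓞 K)ˣ, v ∈ φ.ker → ∃! z : Fin m → ℤ, v = uu u z := by
    intro v hv
    have hvN : Additive.ofMul v ∈ N := (hmemN _).2 hv
    refine ⟨b.equivFun ⟨Additive.ofMul v, hvN⟩, ?_, ?_⟩
    · have h1 := huu (b.equivFun ⟨Additive.ofMul v, hvN⟩)
      rw [b.sum_equivFun] at h1
      exact (Additive.ofMul.injective h1).symm
    · intro z hz
      have h1 := huu z
      rw [← hz] at h1
      have h2 : (⟨Additive.ofMul v, hvN⟩ : N) = ∑ j, z j • b j := Subtype.ext h1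
      rw [h2, ← b.equivFun_symm_apply, LinearEquiv.apply_symm_apply]
  refine ⟨u, fun j => (hV _).1 (huV j), fun z => (hV _).1 (huz z),
    fun v hv => hex v ((hV v).2 hv), ?_⟩
  apply Subgroup.finiteIndex_of_le (H := φ.ker)
  intro v hv
  obtain ⟨z, hz, -⟩ := hex v hv
  rw [hz]
  exact Subgroup.prod_mem _ fun j _ =>
    Subgroup.zpow_mem _ (Subgroup.subset_closure (Set.mem_range_self j)) _

end H55N
end

-- from Lib.H55N.L1
section

open NumberField IsDedekindDomain

namespace H55N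

open H55B H55C

variable {K : Type} [Field K] [NumberField K] [Algebra F K] {m : ℕ}

/-! Chunk L1 (M). Dual bases. b is a finitely generated torsion free O-module, O is a principal ideal domain (instPID), so b is free; its rank is finrank F K = m+1 (b spans K over F: for
n0 in b nonzero and x in O_K, n0 x in b). β = a basis. β' = the dual basis of β for the trace form of K/F (traceForm_nondegenerate, BilinForm.dualBasis), β linearly independent over
F (an F-relation gives an O-relation after clearing denominators). -/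

theorem L1_coe (y : O) : ((algebraMap O (𝓞 K) y : 𝓞 K) : K) = algebraMap F K (y : F) := rfl

theorem L1_smul (y : O) (x : 𝓞 K) : y • x = algebraMap O (𝓞 K) y * x := Algebra.smul_def y x

theorem L1_int_mem (b : Ideal (𝓞 K)) (hb : b ≠ ⊥) : ∃ N : ℕ, N ≠ 0 ∧ (N : 𝓞 K) ∈ b :=
  ⟨Ideal.absNorm b, fun h => hb (Ideal.absNorm_eq_zero_iff.1 h), Ideal.absNorm_mem b⟩

theorem L1_int_mul (x : K) : ∃ (M : ℤ) (z : 𝓞 K), M ≠ 0 ∧ (z : K) = (M : K) * x := by
  have hx : IsAlgebraic ℤ x := by
    have h1 : IsAlgebraic ℚ x := Algebra.IsAlgebraic.isAlgebraic x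
    exact (IsFractionRing.isAlgebraic_iff ℤ ℚ K).2 h1
  obtain ⟨M, hM, h⟩ := hx.exists_integral_multiple
  refine ⟨M, ⟨M • x, h⟩, hM, ?_⟩
  show M • x = _
  rw [zsmul_eq_mul]

theorem L1_basis (hm : Module.finrank F K = m + 1) (b : Ideal (𝓞 K)) (hb : b ≠ ⊥) :
    ∃ (β : Fin (m + 1) → 𝓞 K), (∀ j, β j ∈ b) ∧
      (∀ x ∈ b, ∃ y : Fin (m + 1) → O, x = ∑ j, algebraMap O (𝓞 K) (y j) * β j) ∧
      LinearIndependent F (fun j => (β j : K)) := by
  have := a1_fin hm
  have : Module.Finite O (𝓞 K) := inferInstance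
  have : Module.Free O (b.restrictScalars O) := by
    have : Module.IsTorsionFree O (𝓞 K) := inferInstance
    exact Module.free_of_finite_type_torsion_free'
  let B := Module.finBasis O (b.restrictScalars O)
  -- the images in K
  have hli0 : LinearIndependent O (fun j => ((B j : 𝓞 K) : K)) := by
    have h1 := B.linearIndependent
    have h2 : LinearIndependent O (fun j => ((B j : 𝓞 K))) :=
      h1.map' (Submodule.subtype _) (Submodule.ker_subtype _)
    have h3 := h2.map' (Algebra.linearMap (𝓞 K) K |>.restrictScalars O) (by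
      rw [LinearMap.ker_eq_bot]
      exact RingOfIntegers.coe_injective)
    exact h3
  have hli : LinearIndependent F (fun j => ((B j : 𝓞 K) : K)) :=
    LinearIndependent.localization F (nonZeroDivisors O) hli0
  have hrep : ∀ x ∈ b, ∃ y : Fin (Module.finrank O (b.restrictScalars O)) → O,
      x = ∑ j, algebraMap O (𝓞 K) (y j) * (B j : 𝓞 K) := by
    intro x hx
    have hx' : x ∈ b.restrictScalars O := hx
    refine ⟨fun j => B.repr ⟨x, hx'⟩ j, ?_⟩
    have h1 := B.sum_repr ⟨x, hx'⟩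
    have h2 := congrArg (Submodule.subtype (b.restrictScalars O)) h1
    rw [map_sum] at h2
    have h3 : x = ∑ j, (b.restrictScalars O).subtype (B.repr ⟨x, hx'⟩ j • B j) := h2.symm
    refine h3.trans (Finset.sum_congr rfl fun j _ => ?_)
    rw [map_smul, L1_smul]
    rfl
  have hspan : ⊤ ≤ Submodule.span F (Set.range fun j => ((B j : 𝓞 K) : K)) := by
    intro x _
    obtain ⟨N, hN, hNb⟩ := L1_int_mem b hb
    obtain ⟨M, z, hM, hz⟩ := L1_int_mul x
    obtain ⟨y, hy⟩ := hrep (N * z) (b.mul_mem_right z hNb)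
    have h1 := congrArg (algebraMap (𝓞 K) K) hy
    rw [map_mul, map_natCast, map_sum] at h1
    have hzK : algebraMap (𝓞 K) K z = (M : K) * x := hz
    rw [hzK] at h1
    have hc : (algebraMap F K ((N : F) * (M : F))) ≠ 0 := by
      rw [Ne, map_eq_zero]
      exact mul_ne_zero (Nat.cast_ne_zero.2 hN) (Int.cast_ne_zero.2 hM)
    have h2 : ((N : F) * (M : F)) • x ∈ Submodule.span F (Set.range fun j => ((B j : 𝓞 K) : K)) := by
      have h3 : ((N : F) * (M : F)) • x = (N : K) * ((M : K) * x) := by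
        rw [Algebra.smul_def, map_mul, map_natCast, map_intCast, mul_assoc]
      rw [h3, h1]
      refine Submodule.sum_mem _ fun j _ => ?_
      rw [map_mul]
      have h4 : algebraMap (𝓞 K) K (algebraMap O (𝓞 K) (y j)) * algebraMap (𝓞 K) K (B j : 𝓞 K) =
          (y j : F) • ((B j : 𝓞 K) : K) := by
        rw [Algebra.smul_def]
        rfl
      rw [h4]
      exact Submodule.smul_mem _ _ (Submodule.subset_span ⟨j, rfl⟩)
    have hc' : ((N : F) * (M : F)) ≠ 0 := fun h => hc (by rw [h, map_zero])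
    exact (Submodule.smul_mem_iff _ hc').1 h2
  have hcard : Module.finrank O (b.restrictScalars O) = m + 1 := by
    rw [← hm]
    have h := Module.finrank_eq_card_basis (Module.Basis.mk hli hspan)
    rw [h, Fintype.card_fin]
  let E : Fin (m + 1) ≃ Fin (Module.finrank O (b.restrictScalars O)) := finCongr hcard.symm
  refine ⟨fun j => (B (E j) : 𝓞 K), fun j => (B (E j)).2, ?_, ?_⟩
  · intro x hx
    obtain ⟨y, hy⟩ := hrep x hx
    refine ⟨fun j => y (E j), ?_⟩
    rw [hy]
    exact (E.sum_comp fun j => algebraMap O (𝓞 K) (y j) * (B j : 𝓞 K)).symm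
  · exact hli.comp E E.injective

/-- The dual basis for the trace form. -/
theorem L1_dual (hm : Module.finrank F K = m + 1) (A : Fin (m + 1) → K)
    (hA : LinearIndependent F A) :
    ∃ A' : Fin (m + 1) → K, LinearIndependent F A' ∧
      ∀ j k, Algebra.trace F K (A j * A' k) = if j = k then 1 else 0 := by
  have := a1_fin hm
  let B : Module.Basis (Fin (m + 1)) F K :=
    basisOfLinearIndependentOfCardEqFinrank hA (by rw [hm, Fintype.card_fin])
  have hB : ∀ j, B j = A j := fun j => by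
    rw [coe_basisOfLinearIndependentOfCardEqFinrank]
  let B' := (Algebra.traceForm F K).dualBasis (traceForm_nondegenerate F K) B
  refine ⟨B', B'.linearIndependent, fun j k => ?_⟩
  have h := LinearMap.BilinForm.apply_dualBasis_left (B := Algebra.traceForm F K)
    (hB := traceForm_nondegenerate F K) (b := B) k j
  rw [Algebra.traceForm_apply, hB] at h
  rw [mul_comm]
  exact h

theorem dual_basis (hm : Module.finrank F K = m + 1) (b : Ideal (𝓞 K)) (hb : b ≠ ⊥) :
    ∃ (β : Fin (m + 1) → 𝓞 K) (β' : Fin (m + 1) → K), (∀ j, β j ∈ b) ∧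
      (∀ j k, Algebra.trace F K ((β j : K) * β' k) = if j = k then 1 else 0) ∧
      (∀ x ∈ b, ∃ y : Fin (m + 1) → O, x = ∑ j, algebraMap O (𝓞 K) (y j) * β j) ∧
      LinearIndependent F β' := by
  obtain ⟨β, h1, h2, h3⟩ := L1_basis hm b hb
  obtain ⟨β', h4, h5⟩ := L1_dual hm _ h3
  exact ⟨β, β', h1, h5, h2, h4⟩

/-- Dual bases and directions: for a basis A of K/F and a nonzero ideal I there are nonzero d_j in I with Tr(d_j A_k) = 0 for k <> j. PROOF. The dual basis A* of A
for the trace form; multiply A*_j by a nonzero integer M with M A*_j in O_K (exists_integral_multiple) and by a nonzero element of I. -/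
theorem directions (hm : Module.finrank F K = m + 1) (A : Fin (m + 1) → K)
    (hA : LinearIndependent F A) (I : Ideal (𝓞 K)) (hI : I ≠ ⊥) :
    ∃ d : Fin (m + 1) → 𝓞 K, (∀ j, d j ∈ I) ∧ (∀ j, d j ≠ 0) ∧
      ∀ j k, k ≠ j → Algebra.trace F K ((d j : K) * A k) = 0 := by
  obtain ⟨A', h1, h2⟩ := L1_dual hm A hA
  obtain ⟨N, hN, hNI⟩ := L1_int_mem I hI
  choose M z hM hz using fun j => L1_int_mul (A' j)
  refine ⟨fun j => N * z j, fun j => I.mul_mem_right _ hNI, fun j => ?_, fun j k hjk => ?_⟩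
  · refine mul_ne_zero (Nat.cast_ne_zero.2 hN) ?_
    intro h
    have h3 : ((z j : 𝓞 K) : K) = 0 := by rw [h]; rfl
    rw [hz j] at h3
    rcases mul_eq_zero.1 h3 with h4 | h4
    · exact hM j (Int.cast_eq_zero.1 h4)
    · exact h1.ne_zero j h4
  · have h3 : (((N : 𝓞 K) * z j : 𝓞 K) : K) * A k = ((N : F) * (M j : F)) • (A k * A' j) := by
      rw [Algebra.smul_def, map_mul, map_natCast, map_intCast]
      have h4 : (((N : 𝓞 K) * z j : 𝓞 K) : K) = (N : K) * ((z j : 𝓞 K) : K) := by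
        rw [← map_natCast (algebraMap (𝓞 K) K) N]
        exact map_mul (algebraMap (𝓞 K) K) _ _
      rw [h4, hz j]
      ring
    rw [h3, map_smul, h2 k j, if_neg hjk, smul_zero]


theorem L1_odd (b : Ideal (𝓞 K)) (hb : IsCoprime b (Ideal.span {2})) :
    ∃ N : ℕ, ¬ 2 ∣ N ∧ (N : 𝓞 K) ∈ b := by
  have hb0 : b ≠ ⊥ := by
    rintro rfl
    obtain ⟨x, hx, y, hy, h⟩ := Ideal.isCoprime_iff_exists.1 hb
    rw [Ideal.mem_bot] at hx
    rw [hx, zero_add] at h
    rw [h, Ideal.mem_span_singleton] at hy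
    obtain ⟨c, hc⟩ := hy
    have h1 := congrArg (Algebra.norm ℤ) hc
    rw [map_one, map_mul] at h1
    have h2 : Algebra.norm ℤ (2 : 𝓞 K) = 2 ^ Module.finrank ℤ (𝓞 K) := by
      have := Algebra.norm_algebraMap (S := 𝓞 K) (2 : ℤ)
      rw [map_ofNat] at this
      exact this
    rw [h2] at h1
    have h3 : 0 < Module.finrank ℤ (𝓞 K) := Module.finrank_pos
    have h4 : (2 : ℤ) ∣ 1 := by
      rw [h1]
      exact Dvd.dvd.mul_right (dvd_pow_self 2 h3.ne') _
    norm_num at h4
  refine ⟨Ideal.absNorm b, ?_, Ideal.absNorm_mem b⟩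
  intro h2
  rw [Ideal.absNorm_apply, Submodule.cardQuot_apply] at h2
  have : Finite (𝓞 K ⧸ b) := Ideal.finiteQuotientOfFreeOfNeBot b hb0
  have : Fact (Nat.Prime 2) := ⟨Nat.prime_two⟩
  obtain ⟨z, hz⟩ := exists_prime_addOrderOf_dvd_card' (G := 𝓞 K ⧸ b) 2 h2
  obtain ⟨t, rfl⟩ := Ideal.Quotient.mk_surjective z
  have hz0 : Ideal.Quotient.mk b t ≠ 0 := by
    intro h
    rw [h, addOrderOf_zero] at hz
    norm_num at hz
  have hz2 : 2 * t ∈ b := by
    have h3 := addOrderOf_nsmul_eq_zero (Ideal.Quotient.mk b t)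
    rw [hz] at h3
    rw [← Ideal.Quotient.eq_zero_iff_mem, map_mul, map_ofNat]
    rw [nsmul_eq_mul] at h3
    exact_mod_cast h3
  obtain ⟨x, hx, y, hy, h⟩ := Ideal.isCoprime_iff_exists.1 hb
  obtain ⟨c, hc⟩ := Ideal.mem_span_singleton.1 hy
  apply hz0
  rw [Ideal.Quotient.eq_zero_iff_mem]
  have h5 : t = x * t + c * (2 * t) := by
    rw [hc] at h
    linear_combination (-t) * h
  rw [h5]
  exact b.add_mem (b.mul_mem_right _ hx) (b.mul_mem_left _ hz2)

theorem L1_dual_int (a : K)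
    (ha : ∀ x : 𝓞 K, ∃ z : ℤ, Algebra.trace ℚ K ((x : K) * a) = z) :
    ∃ y : 𝓞 K, (y : K) = (NumberField.discr K : K) * a := by
  have hone : (1 : FractionalIdeal (nonZeroDivisors (𝓞 K)) K) ≠ 0 := one_ne_zero
  have h1 : a ∈ FractionalIdeal.dual ℤ ℚ (1 : FractionalIdeal (nonZeroDivisors (𝓞 K)) K) := by
    rw [FractionalIdeal.mem_dual hone]
    intro x hx
    rw [FractionalIdeal.mem_one_iff] at hx
    obtain ⟨x, rfl⟩ := hx
    obtain ⟨z, hz⟩ := ha x
    refine ⟨z, ?_⟩
    rw [Algebra.traceForm_apply, mul_comm]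
    rw [eq_intCast]
    exact hz.symm
  have h2 : ((NumberField.discr K : ℤ) : 𝓞 K) ∈ differentIdeal ℤ (𝓞 K) := by
    have h3 := Ideal.absNorm_mem (differentIdeal ℤ (𝓞 K))
    rw [NumberField.absNorm_differentIdeal K (𝓞 K), ← Int.cast_natCast] at h3
    rcases Int.natAbs_eq (NumberField.discr K) with h4 | h4
    · rw [h4]
      exact h3
    · rw [h4, Int.cast_neg]
      exact neg_mem h3
  have h3 : algebraMap (𝓞 K) K ((NumberField.discr K : ℤ) : 𝓞 K) ∈
      ((differentIdeal ℤ (𝓞 K) : Ideal (𝓞 K)) : FractionalIdeal (nonZeroDivisors (𝓞 K)) K) :=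
    (FractionalIdeal.mem_coeIdeal (nonZeroDivisors (𝓞 K))).2 ⟨_, h2, rfl⟩
  have h4 := FractionalIdeal.mul_mem_mul h3 h1
  rw [coeIdeal_differentIdeal (K := ℚ), inv_mul_cancel₀ (FractionalIdeal.dual_ne_zero ℤ ℚ hone),
    FractionalIdeal.mem_one_iff] at h4
  obtain ⟨y, hy⟩ := h4
  refine ⟨y, ?_⟩
  rw [map_intCast] at hy
  exact hy

theorem L1_trace_O (y : O) : ∃ z : ℤ, Algebra.trace ℚ F (y : F) = z := by
  have h : IsIntegral ℤ (Algebra.trace ℚ F (y : F)) := Algebra.isIntegral_trace y.2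
  obtain ⟨z, hz⟩ := IsIntegrallyClosed.isIntegral_iff.1 h
  exact ⟨z, by rw [← hz, eq_intCast]⟩

/-- 2-integrality of the labels. Let b be prime to 2 and the discriminant of K odd (odd_discr in H55C/W7). If Tr_{K/F}(x a) is in O for all x in b then σ(a) is integral for every
valuation ring V of C above 2 and every embedding σ. PROOF. b contains an odd natural number N (b + (2) = O_K: the finite ring O_K/b has odd characteristic; e.g. N = absNorm b is in b and odd).
Then Tr_{K/Q}(x N a) is in Z for all x in O_K, so with an integral basis ω of O_K and the trace matrix T (det T = discr K, odd), N a = sum c_j ω_j, T c in Z^r, c in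
discr^(-1) Z^r. So discr * N * a is in O_K, σ of it is integral over Z, hence in V, and the odd integer discr * N is a unit of V. -/
theorem label_int2 (hK : UnrOut K) (b : Ideal (𝓞 K)) (hb : IsCoprime b (Ideal.span {2})) (a : K)
    (ha : ∀ x ∈ b, ∃ y : O, Algebra.trace F K ((x : K) * a) = algebraMap O F y) (τ : K →+* ℂ) :
    Int2 (τ a) := by
  obtain ⟨N, hN, hNb⟩ := L1_odd b hb
  obtain ⟨y, hy⟩ := L1_dual_int (K := K) ((N : K) * a) (by
    intro x
    obtain ⟨y, hy⟩ := ha (N * x) (b.mul_mem_right x hNb)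
    obtain ⟨z, hz⟩ := L1_trace_O y
    refine ⟨z, ?_⟩
    have h1 : (x : K) * ((N : K) * a) = (((N : 𝓞 K) * x : 𝓞 K) : K) * a := by
      have h4 : (((N : 𝓞 K) * x : 𝓞 K) : K) = (N : K) * (x : K) := by
        rw [← map_natCast (algebraMap (𝓞 K) K) N]
        exact map_mul (algebraMap (𝓞 K) K) _ _
      rw [h4]
      ring
    rw [h1, ← Algebra.trace_trace (S := F), hy]
    exact hz)
  intro V hV
  have hd := H55C.odd_discr K hK
  have h1 : V.valuation (τ (y : K)) ≤ 1 := by
    have h2 : IsIntegral ℤ (τ (y : K)) := map_isIntegral_int τ y.2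
    have h3 : IsIntegral V (τ (y : K)) := h2.tower_top
    obtain ⟨t, ht⟩ := IsIntegrallyClosed.isIntegral_iff.1 h3
    rw [← ht]
    exact V.valuation_le_one t
  have hodd : ∀ n : ℤ, Odd n → V.valuation (n : ℂ) = 1 := by
    intro n hn
    have h1 := val_odd V hV n.natAbs (Int.natAbs_odd.2 hn)
    rw [← Int.cast_natCast] at h1
    rcases Int.natAbs_eq n with h2 | h2
    · rw [h2]
      exact h1
    · rw [h2, Int.cast_neg, Valuation.map_neg]
      exact h1
  rw [hy, map_mul, map_intCast, map_mul, hodd _ hd, one_mul, map_mul, map_natCast, map_mul] at h1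
  have h3 : V.valuation ((N : ℕ) : ℂ) = 1 := by
    have := hodd (N : ℤ) (by
      rw [← Int.not_even_iff_odd, even_iff_two_dvd]
      exact_mod_cast hN)
    exact_mod_cast this
  rw [h3, one_mul] at h1
  exact h1

end H55N
end

-- from Lib.H55N.L2
section

open NumberField IsDedekindDomain

namespace H55N

open H55B H55C

variable {K : Type} [Field K] [NumberField K] [Algebra F K] {m : ℕ}

/-! Chunk L2 (M/L). Existence of the labels, n = m+1. β, β' as in dual_basis; c₀ = sum_j c_j β_j with c_j in O; some c_{j0} is not divisible by lam (else c₀ = lam * (sum (c_j/lam) β_j) is in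
lam b). For r in the box {0..n-1}^m let s = (sum_i r_i) mod n (the colour) and L(r) = sum_j y_j β'_j, y = e_s + 2 q e_{j0}, q in O with
c_s + 2 q c_{j0} = 1 mod lam (2 c_{j0} is invertible mod lam: lam is a prime element of O; or use IsCoprime). For general a = r + n z (r_i = a_i mod n, z_i = a_i / n) put L(a) = u^z L(r): equi
(uu is multiplicative in z). int: Tr(x L(a)) = Tr((u^z x) L(r)) and u^z x in b. one: c₀ u^z = c₀ + (element of 6 b) (hu6), so Tr(c₀ L(a)) = Tr(c₀ L(r)) + 6(..) =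
sum_j y_j c_j + 6(..) = 1 mod lam (3 is divisible by lam). odd: write L(kv a π k) = sum_j Y_{kj} β'_j, Y_{kj} = Tr(β_j L(..)) in O; Y_k = e_{colour} mod 2 (u^z = 1 mod 6 changes the
coordinates by multiples of 6: Tr(β_j (u^z - 1) L(r)) in 6 O), where the colour of kv a π k is (sum a_i + k) mod n (kv a π k has coordinate sum sum a_i + k). So Y mod 2 is a
permutation matrix and d = det Y is congruent to ±1 mod 2: IsCoprime d 2. For y in O^n take the vector x' = adjugate(Y) y: Y x' = d y, and x = sum_j x'_j β_j: Tr(x L_k) = sum_j x'_j Y_{kj} = d y_k. -/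

/-- Rational labels. -/
structure LabOk (b : Ideal (𝓞 K)) (c₀ : 𝓞 K) (u : Fin m → (𝓞 K)ˣ) (L : (Fin m → ℤ) → K) : Prop where
  equi : ∀ a z : Fin m → ℤ, L (a + ((m + 1 : ℕ) : ℤ) • z) = ((uu u z : 𝓞 K) : K) * L a
  int : ∀ a, ∀ x ∈ b, ∃ y : O, Algebra.trace F K ((x : K) * L a) = algebraMap O F y
  one : ∀ a, ∃ y : O, Algebra.trace F K ((c₀ : K) * L a) = algebraMap O F (1 + lam * y)
  odd : ∀ (a : Fin m → ℤ) (π : Equiv.Perm (Fin m)), ∃ d : O, IsCoprime d 2 ∧
    ∀ y : Fin (m + 1) → O, ∃ x ∈ b, ∀ k : Fin (m + 1),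
      Algebra.trace F K ((x : K) * L (kv a π k)) = algebraMap O F (d * y k)

/-- The colour of an integral vector. -/
def L2_col (a : Fin m → ℤ) : Fin (m + 1) :=
  ⟨((∑ i, a i) % ((m + 1 : ℕ) : ℤ)).toNat, by
    have h1 : 0 ≤ (∑ i, a i) % ((m + 1 : ℕ) : ℤ) := Int.emod_nonneg _ (by positivity)
    have h2 : (∑ i, a i) % ((m + 1 : ℕ) : ℤ) < ((m + 1 : ℕ) : ℤ) :=
      Int.emod_lt_of_pos _ (by positivity)
    omega⟩

theorem L2_col_val (a : Fin m → ℤ) : ((L2_col a : ℕ) : ℤ) = (∑ i, a i) % ((m + 1 : ℕ) : ℤ) := by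
  unfold L2_col
  have h1 : 0 ≤ (∑ i, a i) % ((m + 1 : ℕ) : ℤ) := Int.emod_nonneg _ (by positivity)
  exact Int.toNat_of_nonneg h1

theorem L2_col_eq {a a' : Fin m → ℤ}
    (h : (∑ i, a i) % ((m + 1 : ℕ) : ℤ) = (∑ i, a' i) % ((m + 1 : ℕ) : ℤ)) :
    L2_col a = L2_col a' := by
  apply Fin.ext
  have h1 := L2_col_val a
  have h2 := L2_col_val a'
  rw [h, ← h2] at h1
  exact_mod_cast h1

theorem L2_sum_kv (a : Fin m → ℤ) (π : Equiv.Perm (Fin m)) (k : Fin (m + 1)) :
    ∑ i, kv a π k i = ∑ i, a i + ((k : ℕ) : ℤ) := by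
  unfold kv
  rw [Finset.sum_add_distrib]
  congr 1
  rw [π.symm.sum_comp (fun i : Fin m => if ((i : Fin m) : ℕ) < (k : ℕ) then (1 : ℤ) else 0)]
  rw [Fin.sum_univ_eq_sum_range (fun i => if i < (k : ℕ) then (1 : ℤ) else 0) m]
  rw [Finset.sum_ite, Finset.sum_const_zero, add_zero, Finset.sum_const, nsmul_eq_mul, mul_one]
  have h : (Finset.range m).filter (fun i => i < (k : ℕ)) = Finset.range k := by
    ext i
    simp only [Finset.mem_filter, Finset.mem_range]
    have := k.2
    omega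
  rw [h, Finset.card_range]

theorem L2_bij (a : Fin m → ℤ) (π : Equiv.Perm (Fin m)) :
    Function.Bijective (fun k : Fin (m + 1) => L2_col (kv a π k)) := by
  rw [Fintype.bijective_iff_injective_and_card]
  refine ⟨fun k k' h => ?_, rfl⟩
  have h1 : ((L2_col (kv a π k) : ℕ) : ℤ) = ((L2_col (kv a π k') : ℕ) : ℤ) := by
    have : L2_col (kv a π k) = L2_col (kv a π k') := h
    rw [this]
  rw [L2_col_val, L2_col_val, L2_sum_kv, L2_sum_kv] at h1
  have h2 := Int.ModEq.add_left_cancel' _ h1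
  have h3 : (((k : ℕ) : ℤ)) % ((m + 1 : ℕ) : ℤ) = ((k' : ℕ) : ℤ) % ((m + 1 : ℕ) : ℤ) := h2
  rw [Int.emod_eq_of_lt (by positivity) (by exact_mod_cast k.2),
    Int.emod_eq_of_lt (by positivity) (by exact_mod_cast k'.2)] at h3
  apply Fin.ext
  exact_mod_cast h3

theorem L2_lam_three : ∃ t : O, (3 : O) = lam * t := by
  refine ⟨-om ^ 2 * (om - 1), ?_⟩
  unfold lam
  rw [three_eq]
  ring

theorem L2_lam_prime : Prime (lam : O) := lam_prime

theorem L2_trace_mul (t : O) (x : K) :
    Algebra.trace F K (((algebraMap O (𝓞 K) t : 𝓞 K) : K) * x) =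
      algebraMap O F t * Algebra.trace F K x := by
  have h : ((algebraMap O (𝓞 K) t : 𝓞 K) : K) * x = (algebraMap O F t) • x := by
    rw [Algebra.smul_def]
    rfl
  rw [h, map_smul, smul_eq_mul]

theorem L2_coe_mul (x y : 𝓞 K) : ((x * y : 𝓞 K) : K) = (x : K) * (y : K) := rfl

theorem L2_coe_add (x y : 𝓞 K) : ((x + y : 𝓞 K) : K) = (x : K) + (y : K) := rfl

theorem L2_coe_sum {ι : Type} (s : Finset ι) (f : ι → 𝓞 K) :
    ((∑ i ∈ s, f i : 𝓞 K) : K) = ∑ i ∈ s, (f i : K) := map_sum (algebraMap (𝓞 K) K) f s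

/-- The trace pairing of two vectors in dual bases. -/
theorem L2_pair (β : Fin (m + 1) → 𝓞 K) (β' : Fin (m + 1) → K)
    (hdual : ∀ j k, Algebra.trace F K ((β j : K) * β' k) = if j = k then 1 else 0)
    (x y : Fin (m + 1) → O) :
    Algebra.trace F K (((∑ j, algebraMap O (𝓞 K) (x j) * β j : 𝓞 K) : K) *
      ∑ k, (algebraMap O F (y k)) • β' k) = algebraMap O F (∑ j, x j * y j) := by
  rw [L2_coe_sum, Finset.sum_mul, map_sum, map_sum]
  refine Finset.sum_congr rfl fun j _ => ?_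
  rw [L2_coe_mul, mul_assoc, L2_trace_mul, map_mul (algebraMap O F)]
  congr 1
  rw [Finset.mul_sum, map_sum, Finset.sum_eq_single j]
  · rw [mul_smul_comm, map_smul, hdual, if_pos rfl, smul_eq_mul, mul_one]
  · intro k _ hk
    rw [mul_smul_comm, map_smul, hdual, if_neg hk.symm, smul_zero]
  · intro h
    exact absurd (Finset.mem_univ j) h

theorem L2_uu_add (u : Fin m → (𝓞 K)ˣ) (z z' : Fin m → ℤ) : uu u (z + z') = uu u z * uu u z' := by
  unfold uu
  rw [← Finset.prod_mul_distrib]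
  exact Finset.prod_congr rfl fun j _ => by rw [Pi.add_apply, zpow_add]

theorem L2_coprime_of_sq {d : O} (h : Ideal.Quotient.mk (Ideal.span {(2 : O)}) (d * d) = 1) :
    IsCoprime d 2 := by
  rw [← map_one (Ideal.Quotient.mk (Ideal.span {(2 : O)})), Ideal.Quotient.eq,
    Ideal.mem_span_singleton] at h
  obtain ⟨t, ht⟩ := h
  exact ⟨d, -t, by linear_combination ht⟩

/-- A matrix congruent to a permutation matrix modulo 2 has odd determinant. -/
theorem L2_det (s : Equiv.Perm (Fin (m + 1))) (Y W : Matrix (Fin (m + 1)) (Fin (m + 1)) O)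
    (hY : ∀ k j, Y k j = (if s k = j then 1 else 0) + 2 * W k j) : IsCoprime Y.det 2 := by
  apply L2_coprime_of_sq
  set φ := Ideal.Quotient.mk (Ideal.span {(2 : O)}) with hφ
  have h2 : φ 2 = 0 := by
    rw [hφ, Ideal.Quotient.eq_zero_iff_mem]
    exact Ideal.mem_span_singleton_self 2
  have h1 : φ.mapMatrix Y = (1 : Matrix (Fin (m + 1)) (Fin (m + 1)) (O ⧸ Ideal.span {(2 : O)})).submatrix s id := by
    ext k j
    rw [RingHom.mapMatrix_apply, Matrix.map_apply, hY, map_add, map_mul, h2, zero_mul, add_zero,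
      Matrix.submatrix_apply, Matrix.one_apply]
    rw [id_eq]
    by_cases h : s k = j
    · rw [if_pos h, if_pos h, map_one]
    · rw [if_neg h, if_neg h, map_zero]
  rw [map_mul, RingHom.map_det, h1, Matrix.det_permute, Matrix.det_one, mul_one]
  rcases Int.units_eq_one_or (Equiv.Perm.sign s) with h | h <;> rw [h] <;> simp

theorem labels_exist (hm : Module.finrank F K = m + 1) (b f : Ideal (𝓞 K)) (hb : b ≠ ⊥)
    (c₀ : 𝓞 K) (hc : c₀ ∈ b) (hc' : c₀ ∉ Ideal.span {algebraMap O (𝓞 K) lam} * b)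
    (u : Fin m → (𝓞 K)ˣ) (hu6 : ∀ z, (uu u z : 𝓞 K) - 1 ∈ Ideal.span {6}) :
    ∃ L : (Fin m → ℤ) → K, LabOk b c₀ u L := by
  classical
  obtain ⟨β, β', hβ, hdual, hrep, hind⟩ := dual_basis hm b hb
  obtain ⟨c, hcc⟩ := hrep c₀ hc
  -- a coordinate not divisible by lam
  obtain ⟨j₀, hj₀⟩ : ∃ j₀, ¬ lam ∣ c j₀ := by
    by_contra hcon
    push Not at hcon
    choose c' hc'' using hcon
    apply hc'
    rw [Ideal.mem_span_singleton_mul]
    refine ⟨∑ j, algebraMap O (𝓞 K) (c' j) * β j, b.sum_mem fun j _ => b.mul_mem_left _ (hβ j), ?_⟩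
    rw [hcc, Finset.mul_sum]
    refine Finset.sum_congr rfl fun j _ => ?_
    rw [hc'' j, map_mul]
    ring
  have hlam := L2_lam_prime
  obtain ⟨t3, ht3⟩ := L2_lam_three
  have hl2 : ¬ lam ∣ (2 : O) := by
    rintro ⟨t, ht⟩
    apply hlam.not_isUnit
    apply isUnit_of_dvd_one
    exact ⟨t3 - t, by linear_combination ht3 - ht⟩
  have hcop : IsCoprime lam (2 * c j₀) := by
    rw [Prime.coprime_iff_not_dvd hlam]
    intro h
    rcases hlam.dvd_or_dvd h with h1 | h1
    · exact hl2 h1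
    · exact hj₀ h1
  obtain ⟨a', b', hab⟩ := hcop
  -- the coordinate vectors
  let Yv : Fin (m + 1) → Fin (m + 1) → O := fun s j =>
    (if s = j then 1 else 0) + 2 * (b' * (1 - c s) * if j₀ = j then 1 else 0)
  have hYone : ∀ s, ∑ j, c j * Yv s j = 1 + lam * (-(a' * (1 - c s))) := by
    intro s
    have h1 : ∑ j, c j * Yv s j = c s + 2 * (b' * (1 - c s)) * c j₀ := by
      simp only [Yv, mul_add, Finset.sum_add_distrib]
      congr 1
      · simp
      · rw [Finset.sum_eq_single j₀]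
        · rw [if_pos rfl]; ring
        · intro j _ hj
          rw [if_neg hj.symm]; ring
        · intro h
          exact absurd (Finset.mem_univ _) h
    rw [h1]
    linear_combination (1 - c s) * hab
  let L0 : Fin (m + 1) → K := fun s => ∑ k, (algebraMap O F (Yv s k)) • β' k
  have hL0 : ∀ (x : Fin (m + 1) → O) (s : Fin (m + 1)),
      Algebra.trace F K (((∑ j, algebraMap O (𝓞 K) (x j) * β j : 𝓞 K) : K) * L0 s) =
        algebraMap O F (∑ j, x j * Yv s j) := fun x s => L2_pair β β' hdual x (Yv s)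
  have hL0b : ∀ x ∈ b, ∀ s, ∃ y : O, Algebra.trace F K ((x : K) * L0 s) = algebraMap O F y := by
    intro x hx s
    obtain ⟨y, hy⟩ := hrep x hx
    exact ⟨_, by rw [hy]; exact hL0 y s⟩
  let L : (Fin m → ℤ) → K := fun a =>
    ((uu u (fun i => a i / ((m + 1 : ℕ) : ℤ)) : 𝓞 K) : K) * L0 (L2_col a)
  -- the action of the units modulo 6
  have hmod : ∀ (x : 𝓞 K) (_ : x ∈ b) (z : Fin m → ℤ) (s : Fin (m + 1)), ∃ w : O,
      Algebra.trace F K ((x : K) * (((uu u z : 𝓞 K) : K) * L0 s)) =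
        Algebra.trace F K ((x : K) * L0 s) + algebraMap O F (6 * w) := by
    intro x hx z s
    obtain ⟨t, ht⟩ := Ideal.mem_span_singleton.1 (hu6 z)
    obtain ⟨w, hw⟩ := hL0b (t * x) (b.mul_mem_left _ hx) s
    refine ⟨w, ?_⟩
    have h1 : (uu u z : 𝓞 K) = 1 + 6 * t := by linear_combination ht
    have h2 : (x : K) * (((uu u z : 𝓞 K) : K) * L0 s) =
        (x : K) * L0 s + ((algebraMap O (𝓞 K) 6 : 𝓞 K) : K) * (((t * x : 𝓞 K) : K) * L0 s) := by
      rw [h1, map_ofNat]
      have h3 : ((1 + 6 * t : 𝓞 K) : K) = 1 + ((6 : 𝓞 K) : K) * (t : K) := by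
        rw [L2_coe_add, L2_coe_mul]
        rfl
      rw [h3, L2_coe_mul]
      ring
    rw [h2, map_add, L2_trace_mul, hw, map_mul (algebraMap O F)]
  refine ⟨L, ⟨?_, ?_, ?_, ?_⟩⟩
  · intro a z
    have hn : ((m + 1 : ℕ) : ℤ) ≠ 0 := by positivity
    have h1 : L2_col (a + ((m + 1 : ℕ) : ℤ) • z) = L2_col a := by
      apply L2_col_eq
      have : ∑ i, (a + ((m + 1 : ℕ) : ℤ) • z) i = ∑ i, a i + ((m + 1 : ℕ) : ℤ) * ∑ i, z i := by
        simp only [Pi.add_apply, Pi.smul_apply, smul_eq_mul, Finset.sum_add_distrib, Finset.mul_sum]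
      rw [this, Int.add_mul_emod_self_left]
    have h2 : (fun i => (a + ((m + 1 : ℕ) : ℤ) • z) i / ((m + 1 : ℕ) : ℤ)) =
        (fun i => a i / ((m + 1 : ℕ) : ℤ)) + z := by
      funext i
      simp only [Pi.add_apply, Pi.smul_apply, smul_eq_mul]
      rw [Int.add_mul_ediv_left _ _ hn]
    show ((uu u (fun i => (a + ((m + 1 : ℕ) : ℤ) • z) i / ((m + 1 : ℕ) : ℤ)) : 𝓞 K) : K) *
      L0 (L2_col (a + ((m + 1 : ℕ) : ℤ) • z)) = _
    rw [h1, h2, L2_uu_add, Units.val_mul, L2_coe_mul]
    show _ = ((uu u z : 𝓞 K) : K) *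
      (((uu u (fun i => a i / ((m + 1 : ℕ) : ℤ)) : 𝓞 K) : K) * L0 (L2_col a))
    ring
  · intro a x hx
    have h1 : (x : K) * L a =
        ((x * (uu u (fun i => a i / ((m + 1 : ℕ) : ℤ)) : 𝓞 K) : 𝓞 K) : K) * L0 (L2_col a) := by
      rw [L2_coe_mul, mul_assoc]
    rw [h1]
    exact hL0b _ (b.mul_mem_right _ hx) _
  · intro a
    obtain ⟨w, hw⟩ := hmod c₀ hc (fun i => a i / ((m + 1 : ℕ) : ℤ)) (L2_col a)
    have h1 := hL0 c (L2_col a)
    rw [← hcc, hYone] at h1
    refine ⟨-(a' * (1 - c (L2_col a))) + 2 * t3 * w, ?_⟩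
    show Algebra.trace F K ((c₀ : K) *
      (((uu u (fun i => a i / ((m + 1 : ℕ) : ℤ)) : 𝓞 K) : K) * L0 (L2_col a))) = _
    rw [hw, h1, ← map_add]
    congr 1
    linear_combination 2 * w * ht3
  · intro a π
    let s : Equiv.Perm (Fin (m + 1)) := Equiv.ofBijective _ (L2_bij a π)
    have hs : ∀ k, s k = L2_col (kv a π k) := fun k => rfl
    -- the matrix of the coordinates
    have hY : ∀ k j : Fin (m + 1), ∃ W : O, Algebra.trace F K ((β j : K) * L (kv a π k)) =
        algebraMap O F ((if s k = j then 1 else 0) + 2 * W) := by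
      intro k j
      obtain ⟨w, hw⟩ := hmod (β j) (hβ j) (fun i => kv a π k i / ((m + 1 : ℕ) : ℤ))
        (L2_col (kv a π k))
      have h1 := hL0 (Pi.single j 1) (L2_col (kv a π k))
      have h2 : ∑ i, algebraMap O (𝓞 K) ((Pi.single j 1 : Fin (m + 1) → O) i) * β i = β j := by
        rw [Finset.sum_eq_single j]
        · rw [Pi.single_eq_same, map_one, one_mul]
        · intro i _ hi
          rw [Pi.single_eq_of_ne hi, map_zero, zero_mul]
        · intro h
          exact absurd (Finset.mem_univ _) h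
      have h3 : ∑ i, (Pi.single j 1 : Fin (m + 1) → O) i * Yv (L2_col (kv a π k)) i =
          Yv (L2_col (kv a π k)) j := by
        rw [Finset.sum_eq_single j]
        · rw [Pi.single_eq_same, one_mul]
        · intro i _ hi
          rw [Pi.single_eq_of_ne hi, zero_mul]
        · intro h
          exact absurd (Finset.mem_univ _) h
      rw [h2, h3] at h1
      refine ⟨b' * (1 - c (L2_col (kv a π k))) * (if j₀ = j then 1 else 0) + 3 * w, ?_⟩
      show Algebra.trace F K ((β j : K) *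
        (((uu u (fun i => kv a π k i / ((m + 1 : ℕ) : ℤ)) : 𝓞 K) : K) * L0 (L2_col (kv a π k)))) = _
      rw [hw, h1, ← map_add]
      congr 1
      rw [hs]
      simp only [Yv]
      ring
    choose W hW using hY
    let Y : Matrix (Fin (m + 1)) (Fin (m + 1)) O := fun k j => (if s k = j then 1 else 0) + 2 * W k j
    refine ⟨Y.det, L2_det s Y W fun k j => rfl, fun y => ?_⟩
    refine ⟨∑ j, algebraMap O (𝓞 K) ((Y.adjugate.mulVec y) j) * β j,
      b.sum_mem fun j _ => b.mul_mem_left _ (hβ j), fun k => ?_⟩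
    rw [L2_coe_sum, Finset.sum_mul, map_sum]
    have h1 : ∀ j, Algebra.trace F K
        (((algebraMap O (𝓞 K) ((Y.adjugate.mulVec y) j) * β j : 𝓞 K) : K) * L (kv a π k)) =
          algebraMap O F (Y k j * (Y.adjugate.mulVec y) j) := by
      intro j
      rw [L2_coe_mul, mul_assoc, L2_trace_mul, hW k j, mul_comm, ← map_mul]
    rw [Finset.sum_congr rfl fun j _ => h1 j, ← map_sum]
    congr 1
    have h2 : Y.mulVec (Y.adjugate.mulVec y) = Y.det • y := by
      rw [Matrix.mulVec_mulVec, Matrix.mul_adjugate, Matrix.smul_mulVec, Matrix.one_mulVec]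
    exact congrFun h2 k

/-- The labels of a simplex are linearly independent over F: if sum_k f_k L_k = 0, multiply by x in b with Tr(x L_k) = d y_k and take traces: sum_k f_k d y_k = 0 for all y in
O^n, d <> 0 (2 is not a unit of O). -/
theorem labels_indep (b : Ideal (𝓞 K)) (c₀ : 𝓞 K) (u : Fin m → (𝓞 K)ˣ) (L : (Fin m → ℤ) → K)
    (hL : LabOk b c₀ u L) (a : Fin m → ℤ) (π : Equiv.Perm (Fin m)) :
    LinearIndependent F fun k : Fin (m + 1) => L (kv a π k) := by
  rw [Fintype.linearIndependent_iff]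
  intro g hg k₀
  obtain ⟨d, hd, h⟩ := hL.odd a π
  obtain ⟨x, _, hx⟩ := h (Pi.single k₀ 1)
  have hd0 : d ≠ 0 := by
    rintro rfl
    exact two_prime.not_isUnit (isCoprime_zero_left.1 hd)
  have h1 := congrArg (fun t => Algebra.trace F K ((x : K) * t)) hg
  simp only [Finset.mul_sum, map_sum, mul_zero, map_zero, mul_smul_comm, map_smul, smul_eq_mul,
    hx] at h1
  rw [Finset.sum_eq_single k₀] at h1
  · rw [Pi.single_eq_same, mul_one] at h1
    rcases mul_eq_zero.1 h1 with h2 | h2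
    · exact h2
    · exfalso
      apply hd0
      exact RingOfIntegers.coe_injective (h2.trans (map_zero _).symm)
  · intro k _ hk
    rw [Pi.single_eq_of_ne hk, mul_zero, map_zero, mul_zero]
  · intro h
    exact absurd (Finset.mem_univ _) h

/-- The values on the class X = c₀ + 3 f b. -/
theorem labels_low (D : Ctx K m) (hE : Emb D.σ) (b f : Ideal (𝓞 K)) (c₀ : 𝓞 K)
    (hD : D.I = Ideal.span {3} * f * b ∧ D.c₀ = c₀) (u : Fin m → (𝓞 K)ˣ) (L : (Fin m → ℤ) → K)
    (hL : LabOk b c₀ u L) (a : Fin m → ℤ) :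
    ∀ x ∈ D.X, (∃ y : O, D.Tr (L a) x = e (1 + lam * y)) ∧ 1 ≤ ‖D.Tr (L a) x‖ := by
  intro x hx
  have key : ∃ y : O, D.Tr (L a) x = e (1 + lam * y) := by
    have hx1 : x - c₀ ∈ Ideal.span {(3 : 𝓞 K)} * (f * b) := by
      have h0 : Ideal.span {(3 : 𝓞 K)} * (f * b) = D.I := by
        rw [hD.1]
        exact (mul_assoc _ _ _).symm
      rw [h0, ← hD.2]
      exact hx
    obtain ⟨t, ht, hxt⟩ := Ideal.mem_span_singleton_mul.1 hx1
    have htb : t ∈ b := Ideal.mul_le_right ht
    obtain ⟨y, hy⟩ := hL.one a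
    obtain ⟨w, hw⟩ := hL.int a t htb
    obtain ⟨t3, ht3⟩ := L2_lam_three
    refine ⟨y + t3 * w, ?_⟩
    rw [Tr_eq D hE]
    have h1 : (x : K) * L a = (c₀ : K) * L a +
        ((algebraMap O (𝓞 K) 3 : 𝓞 K) : K) * ((t : K) * L a) := by
      have h2 : x = c₀ + 3 * t := by linear_combination -hxt
      rw [h2, map_ofNat, L2_coe_add, L2_coe_mul]
      ring
    rw [h1, map_add, L2_trace_mul, hy, hw, ← map_mul (algebraMap O F), ← map_add (algebraMap O F)]
    show e _ = e _
    congr 1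
    linear_combination w * ht3
  refine ⟨key, ?_⟩
  obtain ⟨y, hy⟩ := key
  rw [hy]
  have h1 := Nm_eq (1 + lam * y)
  have h2 : 1 ≤ Nm (1 + lam * y) := by
    rw [Nat.one_le_iff_ne_zero]
    intro h0
    have h3 := Nm_eq_zero.1 h0
    apply L2_lam_prime.not_isUnit
    apply isUnit_of_dvd_one
    exact ⟨-y, by linear_combination h3⟩
  have h3 : (1 : ℝ) ≤ Nm (1 + lam * y) := by exact_mod_cast h2
  rw [h1] at h3
  nlinarith [norm_nonneg (e (1 + lam * y))]

end H55N
end

-- from Lib.H55N.E9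
section

open NumberField IsDedekindDomain

namespace H55N

open H55B H55C

variable {K : Type} [Field K] [NumberField K] [Algebra F K] {m : ℕ}

/-! Chunk E9 (M). The integer m₀. f is prime to 2, so it contains an odd natural number N_f (absNorm f, odd: f + (2) = O_K); p_i in c_i, p_i odd (hp). LabOk.odd gives d in O prime
to 2 with: for every y there is x in b with Tr(x L_k) = d y_k. Let N_d = Nm d (odd, divisible by d: Nm d = d conj d; IsCoprime d 2 implies that Nm d is odd). Put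
m₀ = 3 N_f (prod p_i) N_d: for y in O^n choose x' in b with Tr(x' L_k) = d (N_d/d) y_k = N_d y_k; x = 3 N_f (prod p_i) x' is in 3 f b = D.I and in all c_i, Tr(x L_k) = m₀ y_k. -/

theorem E9_not_unit (K : Type) [Field K] [NumberField K] : ¬ IsUnit (2 : 𝓞 K) := by
  intro h
  have h1 : Ideal.absNorm (Ideal.span {(2 : 𝓞 K)}) = 1 := by
    rw [Ideal.span_singleton_eq_top.2 h, Ideal.absNorm_top]
  rw [Ideal.absNorm_span_singleton] at h1
  have h2 : (2 : 𝓞 K) = algebraMap ℤ (𝓞 K) 2 := (map_ofNat _ 2).symm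
  rw [h2, Algebra.norm_algebraMap, Int.natAbs_pow] at h1
  have h3 : Module.finrank ℤ (𝓞 K) ≠ 0 := by
    rw [RingOfIntegers.rank]
    exact Module.finrank_pos.ne'
  have h4 : Int.natAbs 2 = 2 := rfl
  rw [h4] at h1
  exact absurd h1 (Nat.one_lt_two_pow h3).ne'

theorem E9_odd {K : Type} [Field K] [NumberField K] (J : Ideal (𝓞 K))
    (h : IsCoprime J (Ideal.span {2})) : Odd (Ideal.absNorm J) := by
  obtain ⟨a, ha, c, hc, hac⟩ := Ideal.isCoprime_iff_exists.1 h
  obtain ⟨c', rfl⟩ := Ideal.mem_span_singleton.1 hc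
  have hJ : J ≠ ⊥ := by
    rintro rfl
    rw [Ideal.mem_bot] at ha
    rw [ha, zero_add] at hac
    exact E9_not_unit K (IsUnit.of_mul_eq_one _ hac)
  rw [← Nat.not_even_iff_odd]
  intro hev
  have hfin : Finite (𝓞 K ⧸ J) := Ideal.finiteQuotientOfFreeOfNeBot J hJ
  have hcard : 2 ∣ Nat.card (𝓞 K ⧸ J) := by
    have : Ideal.absNorm J = Nat.card (𝓞 K ⧸ J) := rfl
    rw [← this]
    exact hev.two_dvd
  haveI : Fact (Nat.Prime 2) := ⟨Nat.prime_two⟩
  obtain ⟨x, hx⟩ := exists_prime_addOrderOf_dvd_card' 2 hcard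
  have h2 : (2 : ℕ) • x = 0 := by rw [← hx]; exact addOrderOf_nsmul_eq_zero x
  have h3 : (Ideal.Quotient.mk J) a = 0 := Ideal.Quotient.eq_zero_iff_mem.2 ha
  have h4 : (Ideal.Quotient.mk J) (a + 2 * c') = 1 := by rw [hac, map_one]
  rw [map_add, h3, zero_add, map_mul] at h4
  have h5 : x = 0 := by
    have h6 : (Ideal.Quotient.mk J) 2 = 2 := map_ofNat _ 2
    rw [h6] at h4
    calc x = (2 * (Ideal.Quotient.mk J) c') * x := by rw [h4, one_mul]
      _ = (Ideal.Quotient.mk J) c' * ((2 : ℕ) • x) := by rw [nsmul_eq_mul]; push_cast; ring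
      _ = 0 := by rw [h2, mul_zero]
  rw [h5, addOrderOf_zero] at hx
  exact absurd hx (by norm_num)

theorem m0_exists (D : Ctx K m) (hD : D.Ok) (b f : Ideal (𝓞 K)) (hf2 : IsCoprime f (Ideal.span {2}))
    (hI : D.I = Ideal.span {3} * f * b) (hp : ∀ i, D.p i ≠ 2) (u : Fin m → (𝓞 K)ˣ)
    (L : (Fin m → ℤ) → K) (hL : LabOk b D.c₀ u L) (a : Fin m → ℤ) (π : Equiv.Perm (Fin m)) :
    ∃ m₀ : ℕ, Odd m₀ ∧ 3 ∣ m₀ ∧ ∀ y : Fin (m + 1) → O, ∃ x : 𝓞 K, x ∈ D.I ∧ (∀ i, x ∈ D.c i) ∧
      ∀ k : Fin (m + 1), D.Tr (L (kv a π k)) x = m₀ * e (y k) := by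
  classical
  obtain ⟨d, hd2, hd⟩ := hL.odd a π
  have hNf := E9_odd f hf2
  have hNd : Odd (Nm d) := by
    refine E9_odd (K := F) (Ideal.span {d}) ?_
    rw [Ideal.isCoprime_span_singleton_iff]
    exact hd2
  have hP : Odd (∏ i, D.p i) := by
    refine Finset.prod_induction _ Odd (fun _ _ => Odd.mul) odd_one fun i _ => ?_
    exact (hD.smooth.prime i).odd_of_ne_two (hp i)
  refine ⟨3 * Ideal.absNorm f * (∏ i, D.p i) * Nm d, ?_, ?_, fun y => ?_⟩
  · exact (((by decide : Odd 3).mul hNf).mul hP).mul hNd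
  · exact ⟨Ideal.absNorm f * (∏ i, D.p i) * Nm d, by ring⟩
  · obtain ⟨x, hx, hxk⟩ := hd fun k => cj d * y k
    refine ⟨((3 * Ideal.absNorm f * (∏ i, D.p i) : ℕ) : 𝓞 K) * x, ?_, ?_, ?_⟩
    · rw [hI]
      refine Ideal.mul_mem_mul ?_ hx
      have h1 : (3 : 𝓞 K) * (Ideal.absNorm f : 𝓞 K) ∈ Ideal.span {3} * f :=
        Ideal.mul_mem_mul (Ideal.mem_span_singleton_self _) (Ideal.absNorm_mem f)
      have h2 : ((3 * Ideal.absNorm f * (∏ i, D.p i) : ℕ) : 𝓞 K) =
          ((∏ i, D.p i : ℕ) : 𝓞 K) * ((3 : 𝓞 K) * (Ideal.absNorm f : 𝓞 K)) := by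
        push_cast; ring
      rw [h2]
      exact Ideal.mul_mem_left _ _ h1
    · intro i
      refine Ideal.mul_mem_right _ _ ?_
      have h1 : ((D.p i : ℕ) : 𝓞 K) ∈ D.c i := by
        rw [← hD.smooth.norm i]
        exact Ideal.absNorm_mem _
      obtain ⟨t, ht⟩ : D.p i ∣ 3 * Ideal.absNorm f * (∏ i, D.p i) :=
        (Finset.dvd_prod_of_mem _ (Finset.mem_univ i)).mul_left _
      rw [ht, Nat.cast_mul]
      exact Ideal.mul_mem_right _ _ h1
    · intro k
      rw [Tr_eq D hD.emb]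
      have h1 : ((((3 * Ideal.absNorm f * (∏ i, D.p i) : ℕ) : 𝓞 K) * x : 𝓞 K) : K) *
          L (kv a π k) = ((3 * Ideal.absNorm f * (∏ i, D.p i) : ℕ) : F) • ((x : K) * L (kv a π k)) := by
        have h2 : ((((3 * Ideal.absNorm f * (∏ i, D.p i) : ℕ) : 𝓞 K) * x : 𝓞 K) : K) =
            ((3 * Ideal.absNorm f * (∏ i, D.p i) : ℕ) : K) * (x : K) := by
          have h := map_mul (algebraMap (𝓞 K) K)
            ((3 * Ideal.absNorm f * (∏ i, D.p i) : ℕ) : 𝓞 K) x
          rw [map_natCast] at h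
          exact h
        rw [h2, Algebra.smul_def, map_natCast]
        ring
      rw [h1, map_smul, hxk k, smul_eq_mul, map_mul, map_natCast]
      have h3 : d * (cj d * y k) = (Nm d : O) * y k := by rw [← mul_assoc, mul_cj]
      rw [h3]
      have h4 : emb ((algebraMap O F) ((Nm d : O) * y k)) = (Nm d : ℂ) * e (y k) := by
        show e ((Nm d : O) * y k) = _
        rw [map_mul, map_natCast]
      rw [h4]
      push_cast
      ring

end H55N
end
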