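import Mathlib
import Pool.Agent.Lib.H1M.PP.M001
import Pool.Agent.Lib.H1M.PP.M011
import Pool.Agent.Lib.H1M.PP.M019

/-! Merged copies (to shorten the build) of Lib.H55B.H3, Lib.H55B.H4, Lib.H55B.G0, Lib.H55B.G1, Lib.H55B.H5, Lib.H55N.B11. -/

-- from Lib.H55B.H3
section

open NumberField IsDedekindDomain

namespace H55B

/-! Chunk H3: quadratic reciprocity for two primes of O.
Multiplying p by a power of om changes neither its ideal nor the symbols (Sym_om), so p = 1 + 2s mod 4,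
q = 1 + 2t mod 4, s = s0 + s1 om, t = t0 + t1 om.
Both split: p = a + b om, q = c + d om, a = 1 + 2 s0, b = 2 s1, c = 1 + 2 t0, d = 2 t1 mod 4, norms l, l'.
Put X = ac + bd - ad, Y = bc - ad: p (cj q) = X + Y om, l l' = X^2 - XY + Y^2, X odd, Y even, coprime (p, q are
not associated). By H1.sym_split sym P q sym Q p = J(Y|l) J(b|l) J(-Y|l') J(d|l')
= J(Y | l l') J(-1|l') J(b|l) J(d|l'). By H2.jac (three times; J(-1|l') = (-1)^(t1)): exponent
[b1 + d1 odd](X+1)/2 + [b1 odd](a+1)/2 + [d1 odd](c+1)/2 + d1 with b = 2 b1, d = 2 d1, and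
(X+1)/2 = 1 + s0 + t0 + d1, (a+1)/2 = 1 + s0, (c+1)/2 = 1 + t0 mod 2; the sum is b1 t0 + d1 s0 + b1 d1.
One inert (Q = (q0), q0 = 2 mod 3 odd): q = unit * q0; units: om^i are squares, and the sign: if
q = -q0 om^i use sym P (-1) = (-1)^((l-1)/2) = (-1)^(s1), consistent with t -> t + 1.
sym P q0 = (q0/l), sym Q p = (l/q0), product (-1)^((q0-1)/2 (l-1)/2), t0 = (q0-1)/2, t1 = 0, (l-1)/2 = s1 mod 2.
Both inert: all symbols are 1 (rational integers prime to q0 are squares in F_(q0^2)), s1 = t1 = 0. -/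

/-- The class of an odd element modulo 4 and powers of om. -/
def Cl (x t : O) : Prop := ∃ i : ℕ, (4 : O) ∣ x - om ^ i * (1 + 2 * t)

theorem H3_pow (n : ℤ) : (-1 : ℤ) ^ n.natAbs = if Even n then 1 else -1 := by
  split_ifs with h
  · exact (Int.natAbs_even.2 h).neg_one_pow
  · exact (Int.natAbs_odd.2 (Int.not_even_iff_odd.1 h)).neg_one_pow

theorem H3_neg_one {l : ℕ} {s : ℤ} {u : ℤ} (h : (l : ℤ) = 1 - 2 * s + 4 * u) :
    jacobiSym (-1) l = if Even s then 1 else -1 := by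
  have hodd : Odd l := by
    rw [← Int.odd_coe_nat, h]
    exact ⟨-s + 2 * u, by ring⟩
  rw [jacobiSym.at_neg_one hodd]
  split_ifs with hs
  · obtain ⟨k, hk⟩ := hs
    exact ZMod.χ₄_nat_one_mod_four (by omega)
  · obtain ⟨k, hk⟩ := Int.not_even_iff_odd.1 hs
    exact ZMod.χ₄_nat_three_mod_four (by omega)

theorem H3_natAbs {l : ℕ} {m : ℤ} (h : (l : ℤ) = m) : m.natAbs = l := by
  rw [← h]; exact Int.natAbs_natCast l

theorem H3_coprime {l : ℕ} (hl : l.Prime) {a b : ℤ} (h : (l : ℤ) = a ^ 2 - a * b + b ^ 2) :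
    IsCoprime a b := by
  rw [Int.isCoprime_iff_gcd_eq_one]
  by_contra hne
  have h1 : ((Int.gcd a b : ℤ)) ∣ a := Int.gcd_dvd_left ..
  have h2 : ((Int.gcd a b : ℤ)) ∣ b := Int.gcd_dvd_right ..
  generalize Int.gcd a b = g at hne h1 h2
  obtain ⟨a', ha'⟩ := h1
  obtain ⟨b', hb'⟩ := h2
  have h3 : ((g * g : ℕ) : ℤ) ∣ (l : ℤ) := by
    refine ⟨a' ^ 2 - a' * b' + b' ^ 2, ?_⟩
    rw [h, ha', hb']
    push_cast
    ring
  have h4 : g * g ∣ l := by exact_mod_cast h3
  have h5 : g ∣ l := (Dvd.intro _ rfl).trans h4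
  rcases (Nat.dvd_prime hl).1 h5 with h6 | h6
  · exact hne h6
  · rw [h6] at h4
    have h7 := Nat.le_of_dvd hl.pos h4
    have h8 := hl.two_le
    nlinarith

/-- both split, integer part -/
theorem H3_core (s0 s1 t0 t1 a' b' c' d' a b c d : ℤ) (ha : a = 1 + 2 * s0 + 4 * a')
    (hb : b = 2 * s1 + 4 * b') (hc : c = 1 + 2 * t0 + 4 * c') (hd : d = 2 * t1 + 4 * d')
    (l l' : ℕ) (hlp : l.Prime) (hlp' : l'.Prime) (hl : (l : ℤ) = a ^ 2 - a * b + b ^ 2)
    (hl' : (l' : ℤ) = c ^ 2 - c * d + d ^ 2)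
    (hXY : IsCoprime (a * c + b * d - a * d) (b * c - a * d)) :
    (jacobiSym (b * c - a * d) l * jacobiSym b l) *
      (jacobiSym (d * a - c * b) l' * jacobiSym d l') =
      if Even (s0 * t1 + s1 * t0 + s1 * t1) then 1 else -1 := by
  set X := a * c + b * d - a * d with hX
  set Y := b * c - a * d with hY
  obtain ⟨v, hv⟩ : ∃ v, X = 1 + 2 * (s0 + t0 - t1) + 4 * v :=
    ⟨s0 * t0 + a' * (1 + 2 * t0) + c' * (1 + 2 * s0) + 4 * a' * c' + (s1 + 2 * b') * (t1 + 2 * d') -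
      (s0 * t1 + 2 * a' * t1 + d' * (1 + 2 * s0 + 4 * a')), by rw [hX, ha, hb, hc, hd]; ring⟩
  obtain ⟨w, hw⟩ : ∃ w, Y = 2 * (s1 - t1) + 4 * w :=
    ⟨s1 * t0 + 2 * s1 * c' + b' * (1 + 2 * t0 + 4 * c') -
      (s0 * t1 + 2 * a' * t1 + d' * (1 + 2 * s0 + 4 * a')), by rw [hY, ha, hb, hc, hd]; ring⟩
  have hll : ((l * l' : ℕ) : ℤ) = X ^ 2 - X * Y + Y ^ 2 := by
    push_cast
    rw [hl, hl', hX, hY]; ring
  have hXodd : Odd X := ⟨s0 + t0 - t1 + 2 * v, by rw [hv]; ring⟩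
  have hYeven : Even Y := ⟨s1 - t1 + 2 * w, by rw [hw]; ring⟩
  have haodd : Odd a := ⟨s0 + 2 * a', by rw [ha]; ring⟩
  have hbeven : Even b := ⟨s1 + 2 * b', by rw [hb]; ring⟩
  have hcodd : Odd c := ⟨t0 + 2 * c', by rw [hc]; ring⟩
  have hdeven : Even d := ⟨t1 + 2 * d', by rw [hd]; ring⟩
  have j1 := jac X Y hXodd hYeven hXY
  rw [H3_natAbs hll, jacobiSym.mul_right' Y hlp.ne_zero hlp'.ne_zero] at j1
  have j2 := jac a b haodd hbeven (H3_coprime hlp hl)
  rw [H3_natAbs hl] at j2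
  have j3 := jac c d hcodd hdeven (H3_coprime hlp' hl')
  rw [H3_natAbs hl'] at j3
  obtain ⟨u, hu⟩ : ∃ u, (l' : ℤ) = 1 - 2 * t1 + 4 * u := by
    refine ⟨(t0 + t0 ^ 2 + 2 * c' + 4 * t0 * c' + 4 * c' ^ 2) -
      (d' + t0 * t1 + 2 * t0 * d' + 2 * c' * t1 + 4 * c' * d') + (t1 + 2 * d') ^ 2, ?_⟩
    rw [hl', hc, hd]; ring
  have j4 := H3_neg_one hu
  have e1 : d * a - c * b = (-1) * Y := by rw [hY]; ring
  rw [e1, jacobiSym.mul_left (-1) Y l']
  have e2 : (jacobiSym Y l * jacobiSym b l) * ((jacobiSym (-1) l' * jacobiSym Y l') * jacobiSym d l') =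
      (jacobiSym Y l * jacobiSym Y l') * jacobiSym b l * jacobiSym (-1) l' * jacobiSym d l' := by ring
  rw [e2, j1, j2, j3, j4, hv, hw, ha, hb, hc, hd]
  have p1 : (4 : ℤ) ∣ 2 * (s1 - t1) + 4 * w ↔ Even (s1 - t1) := by
    rw [Int.even_iff]; omega
  have p2 : (1 + 2 * (s0 + t0 - t1) + 4 * v) % 4 = 3 ↔ ¬ Even (s0 + t0 - t1) := by
    rw [Int.even_iff]; omega
  have p3 : (4 : ℤ) ∣ 2 * s1 + 4 * b' ↔ Even s1 := by
    rw [Int.even_iff]; omega
  have p4 : (1 + 2 * s0 + 4 * a') % 4 = 3 ↔ ¬ Even s0 := by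
    rw [Int.even_iff]; omega
  have p5 : (4 : ℤ) ∣ 2 * t1 + 4 * d' ↔ Even t1 := by
    rw [Int.even_iff]; omega
  have p6 : (1 + 2 * t0 + 4 * c') % 4 = 3 ↔ ¬ Even t0 := by
    rw [Int.even_iff]; omega
  simp only [p1, p2, p3, p4, p5, p6]
  by_cases q0 : Even s0 <;> by_cases q1 : Even s1 <;> by_cases q2 : Even t0 <;>
    by_cases q3 : Even t1 <;> simp [Int.even_add, Int.even_sub, Int.even_mul, q0, q1, q2, q3]

/-- representation modulo 4 -/
theorem H3_repr {p : O} {s0 s1 : ℤ} (h : (4 : O) ∣ p - (1 + 2 * ((s0 : O) + s1 * om))) :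
    ∃ a' b' : ℤ, p = ((1 + 2 * s0 + 4 * a' : ℤ) : O) + ((2 * s1 + 4 * b' : ℤ) : O) * om := by
  obtain ⟨z, hz⟩ := h
  obtain ⟨a', b', hz'⟩ := exists_repr z
  refine ⟨a', b', ?_⟩
  rw [hz'] at hz
  push_cast
  linear_combination hz

theorem H3_absNorm {P : HeightOneSpectrum O} {a b : ℤ} {p : O} (hP : P.asIdeal = Ideal.span {p})
    (hp : p = (a : O) + (b : O) * om) : ((Ideal.absNorm P.asIdeal : ℕ) : ℤ) = a ^ 2 - a * b + b ^ 2 := by
  rw [hP, hp]
  exact Nm_repr a b

theorem H3_two_mul_ne (z : ℤ) : (2 * z + 1 : ℤ) ≠ 0 := by omega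

/-- inert primes -/
theorem H3_inert {P : HeightOneSpectrum O} {p : O} {a b : ℤ} (hP : P.asIdeal = Ideal.span {p})
    (hp : p = (a : O) + (b : O) * om) (ha : Odd a) (hb : Even b) {q : ℕ} (hq : q.Prime)
    (hPq : P.asIdeal = Ideal.span {(q : O)}) : b = 0 ∧ (a = q ∨ a = -q) ∧ q ≠ 2 := by
  have h1 : Ideal.span {p} = Ideal.span {(q : O)} := hP.symm.trans hPq
  rw [Ideal.span_singleton_eq_span_singleton] at h1
  obtain ⟨u, hu⟩ := h1.symm
  have hq' : ∀ x y : ℤ, ((q : O)) * ((x : O) + y * om) = ((q * x : ℤ) : O) + ((q * y : ℤ) : O) * om := by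
    intro x y; push_cast; ring
  have key : ∀ x y : ℤ, (u : O) = (x : O) + (y : O) * om → a = q * x ∧ b = q * y := by
    intro x y hxy
    rw [hxy, hq'] at hu
    have := repr_unique (hu.trans hp)
    exact ⟨this.1.symm, this.2.symm⟩
  have hom2 : om ^ 2 = ((-1 : ℤ) : O) + ((-1 : ℤ) : O) * om := by
    push_cast
    linear_combination om_rel
  rcases unit_cases u with h | h | h | h | h | h
  · obtain ⟨e1, e2⟩ := key 1 0 (by rw [h]; push_cast; ring)
    refine ⟨by rw [e2]; ring, Or.inl (by rw [e1]; ring), ?_⟩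
    rintro rfl
    rw [e1] at ha
    exact absurd ha (by decide)
  · obtain ⟨e1, e2⟩ := key (-1) 0 (by rw [h]; push_cast; ring)
    refine ⟨by rw [e2]; ring, Or.inr (by rw [e1]; ring), ?_⟩
    rintro rfl
    rw [e1] at ha
    exact absurd ha (by decide)
  · obtain ⟨e1, e2⟩ := key 0 1 (by rw [h]; push_cast; ring)
    rw [e1] at ha
    simp at ha
  · obtain ⟨e1, e2⟩ := key 0 (-1) (by rw [h]; push_cast; ring)
    rw [e1] at ha
    simp at ha
  · obtain ⟨e1, e2⟩ := key (-1) (-1) (by rw [h, hom2])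
    rw [e1] at ha
    rw [e2] at hb
    exact absurd hb (Int.not_even_iff_odd.2 ha)
  · obtain ⟨e1, e2⟩ := key 1 1 (by rw [h]; push_cast; linear_combination (-1 : O) * om_rel)
    rw [e1] at ha
    rw [e2] at hb
    exact absurd hb (Int.not_even_iff_odd.2 ha)

/-- two primes, both split: `X`, `Y` are coprime -/
theorem H3_XY {P Q : HeightOneSpectrum O} {p q : O} {a b c d : ℤ} (hP : P.asIdeal = Ideal.span {p})
    (hQ : Q.asIdeal = Ideal.span {q}) (hp : p = (a : O) + (b : O) * om)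
    (hq : q = (c : O) + (d : O) * om) (hPQ : P ≠ Q) {l l' : ℕ} (hl : l.Prime) (hl' : l'.Prime)
    (hN : (l : ℤ) = a ^ 2 - a * b + b ^ 2) (hN' : (l' : ℤ) = c ^ 2 - c * d + d ^ 2) :
    IsCoprime (a * c + b * d - a * d) (b * c - a * d) := by
  rw [Int.isCoprime_iff_gcd_eq_one]
  by_contra hne
  obtain ⟨r, hr, hrX⟩ := Nat.exists_prime_and_dvd hne
  have h1 : (r : ℤ) ∣ a * c + b * d - a * d := (Int.natCast_dvd_natCast.2 hrX).trans (Int.gcd_dvd_left ..)
  have h2 : (r : ℤ) ∣ b * c - a * d := (Int.natCast_dvd_natCast.2 hrX).trans (Int.gcd_dvd_right ..)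
  obtain ⟨x, hx⟩ := h1
  obtain ⟨y, hy⟩ := h2
  have h3 : ((r * r : ℕ) : ℤ) ∣ ((l * l' : ℕ) : ℤ) := by
    refine ⟨x ^ 2 - x * y + y ^ 2, ?_⟩
    push_cast
    rw [hN, hN']
    have : (a ^ 2 - a * b + b ^ 2) * (c ^ 2 - c * d + d ^ 2) =
      (a * c + b * d - a * d) ^ 2 - (a * c + b * d - a * d) * (b * c - a * d) + (b * c - a * d) ^ 2 := by ring
    rw [this, hx, hy]; ring
  have h4 : r * r ∣ l * l' := by exact_mod_cast h3
  have hrl : r = l ∧ r = l' := by
    have h5 : r ∣ l * l' := (Dvd.intro _ rfl).trans h4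
    rcases (hr.dvd_mul).1 h5 with h6 | h6
    · have h7 := (Nat.prime_dvd_prime_iff_eq hr hl).1 h6
      subst h7
      have h8 : r ∣ l' := Nat.dvd_of_mul_dvd_mul_left hr.pos h4
      exact ⟨rfl, (Nat.prime_dvd_prime_iff_eq hr hl').1 h8⟩
    · have h7 := (Nat.prime_dvd_prime_iff_eq hr hl').1 h6
      subst h7
      rw [mul_comm l r] at h4
      have h8 : r ∣ l := Nat.dvd_of_mul_dvd_mul_left hr.pos h4
      exact ⟨(Nat.prime_dvd_prime_iff_eq hr hl).1 h8, rfl⟩
  -- r divides p * cj q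
  have hcq : p * cj q = (r : O) * ((x : O) + (y : O) * om) := by
    have e1 : cj q = (c : O) + (d : O) * om ^ 2 := by
      rw [hq, map_add, map_mul, map_intCast, map_intCast, cj_om]
    have e2 : om ^ 2 = -1 - om := by linear_combination om_rel
    have hx' : ((a * c + b * d - a * d : ℤ) : O) = ((r * x : ℤ) : O) := by rw [hx]
    have hy' : ((b * c - a * d : ℤ) : O) = ((r * y : ℤ) : O) := by rw [hy]
    push_cast at hx' hy'
    rw [e1, e2, hp]
    linear_combination hx' + om * hy' + (-(b : O) * d) * om_rel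
  have hpp : p * cj p = (r : O) := by
    rw [mul_cj, hp]
    have h9 := Nm_repr a b
    rw [← hN] at h9
    rw [hrl.1]
    exact_mod_cast congrArg (fun z : ℤ => (z : O)) h9
  have hp0 : p ≠ 0 := by
    rintro rfl
    exact P.ne_bot (by rw [hP]; simp)
  have hdvd : cj p ∣ cj q := by
    refine ⟨(x : O) + (y : O) * om, ?_⟩
    apply mul_left_cancel₀ hp0
    rw [hcq, ← hpp]; ring
  have hdvd' : p ∣ q := by
    obtain ⟨z, hz⟩ := hdvd
    refine ⟨cj z, ?_⟩
    have := congrArg cj hz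
    rw [map_mul, cj_cj, cj_cj] at this
    exact this
  have hle : Q.asIdeal ≤ P.asIdeal := by
    rw [hP, hQ, Ideal.span_singleton_le_span_singleton]
    exact hdvd'
  have hmax : Q.asIdeal.IsMaximal := Q.isMaximal
  have := hmax.eq_of_le P.isPrime.ne_top hle
  exact hPQ (HeightOneSpectrum.ext this.symm)

theorem H3_odd1 (s a' : ℤ) : Odd (1 + 2 * s + 4 * a') := ⟨s + 2 * a', by ring⟩

theorem H3_even1 (s a' : ℤ) : Even (2 * s + 4 * a') := ⟨s + 2 * a', by ring⟩

/-- `gcd (b, l) = 1` -/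
theorem H3_sq_one {l : ℕ} (hl : l.Prime) {a b : ℤ} (h : (l : ℤ) = a ^ 2 - a * b + b ^ 2) :
    jacobiSym b l * jacobiSym b l = 1 := by
  have h1 : b.gcd l = 1 := by
    rw [← Int.isCoprime_iff_gcd_eq_one, h]
    have h2 := (H3_coprime hl h).symm
    have h3 : IsCoprime b (a ^ 2) := h2.pow_right
    have h4 : a ^ 2 - a * b + b ^ 2 = a ^ 2 + b * (b - a) := by ring
    rw [h4]
    exact (IsCoprime.add_mul_left_right_iff).2 h3
  have h5 := jacobiSym.sq_one h1
  rwa [sq] at h5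

/-- one split, one inert prime -/
theorem H3_mixed {P Q : HeightOneSpectrum O} {p q : O} {s0 s1 t0 t1 a' b' c' d' : ℤ}
    (hP : P.asIdeal = Ideal.span {p}) (hQ : Q.asIdeal = Ideal.span {q})
    (hp : p = ((1 + 2 * s0 + 4 * a' : ℤ) : O) + ((2 * s1 + 4 * b' : ℤ) : O) * om)
    (hq : q = ((1 + 2 * t0 + 4 * c' : ℤ) : O) + ((2 * t1 + 4 * d' : ℤ) : O) * om)
    {l : ℕ} (hl : l.Prime) (hl3 : 3 < l) (hN : Ideal.absNorm P.asIdeal = l) {r : ℕ}
    (hr : r.Prime) (hr3 : r % 3 = 2) (hQr : Q.asIdeal = Ideal.span {(r : O)}) (hPQ : P ≠ Q) :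
    sym P q * sym Q p = if Even (s0 * t1 + s1 * t0 + s1 * t1) then 1 else -1 := by
  have := Fact.mk hl
  have := Fact.mk hr
  have hN' : (l : ℤ) = (1 + 2 * s0 + 4 * a') ^ 2 - (1 + 2 * s0 + 4 * a') * (2 * s1 + 4 * b') +
      (2 * s1 + 4 * b') ^ 2 := by
    rw [← H3_absNorm hP hp, hN]
  obtain ⟨e1, e2, hr2⟩ := H3_inert hQ hq (H3_odd1 t0 c') (H3_even1 t1 d') hr hQr
  have hrodd : Odd r := hr.odd_of_ne_two hr2
  obtain ⟨u, hu⟩ : ∃ u, (l : ℤ) = 1 - 2 * s1 + 4 * u := by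
    refine ⟨(s0 + s0 ^ 2 + 2 * a' + 4 * s0 * a' + 4 * a' ^ 2) -
      (b' + s0 * s1 + 2 * s0 * b' + 2 * a' * s1 + 4 * a' * b') + (s1 + 2 * b') ^ 2, ?_⟩
    rw [hN']; ring
  have j1 := H3_neg_one hu
  have hlodd : Odd l := by
    rw [← Int.odd_coe_nat, hu]
    exact ⟨-s1 + 2 * u, by ring⟩
  have hsp := sym_split P (1 + 2 * s0 + 4 * a') (2 * s1 + 4 * b') l hl3 (by rw [hP, hp]) hN'
    (1 + 2 * t0 + 4 * c') (2 * t1 + 4 * d')
  have h1 : sym P q = jacobiSym (1 + 2 * t0 + 4 * c') l := by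
    rw [hq, hsp, jacobiSym.legendreSym.to_jacobiSym, jacobiSym.legendreSym.to_jacobiSym, e1, mul_zero, sub_zero,
      jacobiSym.mul_left, mul_comm (jacobiSym (2 * s1 + 4 * b') l), mul_assoc, H3_sq_one hl hN', mul_one]
  have h2 : sym Q p = jacobiSym l r := by
    rw [sym_inert Q r hr2 (by omega) hQr, jacobiSym.legendreSym.to_jacobiSym]
    have : Nm p = l := by
      rw [← hN, hP]; rfl
    rw [this]
  rw [h1, h2]
  have ht1 : Even t1 := ⟨-d', by omega⟩
  have hrec := jacobiSym.quadratic_reciprocity' hlodd hrodd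
  -- J(l | r) = sign * J(r | l)
  have hqr : jacobiSym (r : ℤ) l * jacobiSym (l : ℤ) r =
      if l % 4 = 3 ∧ r % 4 = 3 then -1 else 1 := by
    have h3 := jacobiSym.quadratic_reciprocity_if (a := l) (b := r) (Nat.odd_iff.1 hlodd) (Nat.odd_iff.1 hrodd)
    have h4 : jacobiSym (r : ℤ) l * jacobiSym (r : ℤ) l = 1 := by
      have hcop : (r : ℤ).gcd l = 1 := by
        rw [Int.gcd_natCast_natCast]
        refine (Nat.coprime_primes hr hl).2 ?_
        rintro rfl
        -- r = l: the norm of P is r, the ideal Q = (r) has norm r^2; P contains r, so P = Q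
        have h5 : ((r : O)) ∈ P.asIdeal := by
          have := Ideal.absNorm_mem P.asIdeal
          rwa [hN] at this
        have hle : Q.asIdeal ≤ P.asIdeal := by
          rw [hQr, Ideal.span_singleton_le_iff_mem]
          exact h5
        have := Q.isMaximal.eq_of_le P.isPrime.ne_top hle
        exact hPQ (HeightOneSpectrum.ext this.symm)
      have := jacobiSym.sq_one hcop
      rwa [sq] at this
    rw [← h3]
    split_ifs with h6
    · linear_combination (-1 : ℤ) * h4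
    · exact h4
  have hl4 : l % 4 = 3 ↔ ¬ Even s1 := by rw [Int.even_iff]; omega
  rcases e2 with e2 | e2
  · have hr4 : r % 4 = 3 ↔ ¬ Even t0 := by rw [Int.even_iff]; omega
    rw [e2, hqr]
    simp only [hl4, hr4]
    by_cases q1 : Even s1 <;> by_cases q2 : Even t0 <;>
      simp [Int.even_add, Int.even_mul, q1, q2, ht1]
  · have hr4 : r % 4 = 3 ↔ Even t0 := by rw [Int.even_iff]; omega
    have e3 : (1 + 2 * t0 + 4 * c' : ℤ) = (-1) * (r : ℤ) := by rw [e2]; ring
    rw [e3, jacobiSym.mul_left, j1, mul_assoc, hqr]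
    simp only [hl4, hr4]
    by_cases q1 : Even s1 <;> by_cases q2 : Even t0 <;>
      simp [Int.even_add, Int.even_mul, q1, q2, ht1]

theorem H3_Nm_int (a : ℤ) : (Nm (a : O) : ℤ) = a ^ 2 := by
  have := Nm_repr a 0
  push_cast at this
  rw [zero_mul, add_zero] at this
  rw [this]; ring

/-- inert primes: rational integers are squares -/
theorem H3_inert_int {P : HeightOneSpectrum O} {r : ℕ} (hr : r.Prime) (hr2 : r ≠ 2) (hr3 : r % 3 = 2)
    (hPr : P.asIdeal = Ideal.span {(r : O)}) {c : ℤ} (hc : ¬ (r : ℤ) ∣ c) : sym P (c : O) = 1 := by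
  have := Fact.mk hr
  rw [sym_inert P r hr2 (by omega) hPr, H3_Nm_int]
  apply legendreSym.sq_one'
  rwa [Ne, ZMod.intCast_zmod_eq_zero_iff_dvd]

theorem H3_main {P Q : HeightOneSpectrum O} {p q : O} {s0 s1 t0 t1 : ℤ}
    (hP : P.asIdeal = Ideal.span {p}) (hQ : Q.asIdeal = Ideal.span {q})
    (hP3 : (3 : O) ∉ P.asIdeal) (hQ3 : (3 : O) ∉ Q.asIdeal) (hPQ : P ≠ Q)
    (hs : (4 : O) ∣ p - (1 + 2 * ((s0 : O) + s1 * om)))
    (ht : (4 : O) ∣ q - (1 + 2 * ((t0 : O) + t1 * om))) :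
    sym P q * sym Q p = if Even (s0 * t1 + s1 * t0 + s1 * t1) then 1 else -1 := by
  obtain ⟨a', b', hp⟩ := H3_repr hs
  obtain ⟨c', d', hq⟩ := H3_repr ht
  rcases prime_types P hP3 with ⟨l, hl, hl3, hN⟩ | ⟨r, hr, hr3, hPr⟩ <;>
    rcases prime_types Q hQ3 with ⟨l', hl', hl3', hN'⟩ | ⟨r', hr', hr3', hQr'⟩
  · have := Fact.mk hl
    have := Fact.mk hl'
    have e1 := H3_absNorm hP hp
    have e2 := H3_absNorm hQ hq
    rw [hN] at e1
    rw [hN'] at e2
    have h1 := sym_split P _ _ l hl3 (by rw [hP, hp]) e1 (1 + 2 * t0 + 4 * c') (2 * t1 + 4 * d')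
    have h2 := sym_split Q _ _ l' hl3' (by rw [hQ, hq]) e2 (1 + 2 * s0 + 4 * a') (2 * s1 + 4 * b')
    rw [← hq] at h1
    rw [← hp] at h2
    rw [h1, h2, jacobiSym.legendreSym.to_jacobiSym, jacobiSym.legendreSym.to_jacobiSym,
      jacobiSym.legendreSym.to_jacobiSym, jacobiSym.legendreSym.to_jacobiSym]
    exact H3_core s0 s1 t0 t1 a' b' c' d' _ _ _ _ rfl rfl rfl rfl l l' hl hl' e1 e2
      (H3_XY hP hQ hp hq hPQ hl hl' e1 e2)
  · exact H3_mixed hP hQ hp hq hl hl3 hN hr' hr3' hQr' hPQ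
  · have h := H3_mixed hQ hP hq hp hl' hl3' hN' hr hr3 hPr (Ne.symm hPQ)
    rw [mul_comm, h]
    have : t0 * s1 + t1 * s0 + t1 * s1 = s0 * t1 + s1 * t0 + s1 * t1 := by ring
    rw [this]
  · obtain ⟨e1, e2, hr2⟩ := H3_inert hP hp (H3_odd1 s0 a') (H3_even1 s1 b') hr hPr
    obtain ⟨e1', e2', hr2'⟩ := H3_inert hQ hq (H3_odd1 t0 c') (H3_even1 t1 d') hr' hQr'
    have hs1 : Even s1 := ⟨-b', by omega⟩
    have ht1 : Even t1 := ⟨-d', by omega⟩
    have hne : r ≠ r' := by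
      rintro rfl
      exact hPQ (HeightOneSpectrum.ext (hPr.trans hQr'.symm))
    have hp' : p = ((1 + 2 * s0 + 4 * a' : ℤ) : O) := by rw [hp, e1]; push_cast; ring
    have hq' : q = ((1 + 2 * t0 + 4 * c' : ℤ) : O) := by rw [hq, e1']; push_cast; ring
    have h1 : sym P q = 1 := by
      rw [hq']
      refine H3_inert_int hr hr2 hr3 hPr ?_
      intro hdvd
      apply hne
      have : (r : ℤ) ∣ (r' : ℤ) := by
        rcases e2' with e | e
        · rwa [e] at hdvd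
        · rw [e] at hdvd; exact (dvd_neg).1 hdvd
      exact (Nat.prime_dvd_prime_iff_eq hr hr').1 (by exact_mod_cast this)
    have h2 : sym Q p = 1 := by
      rw [hp']
      refine H3_inert_int hr' hr2' hr3' hQr' ?_
      intro hdvd
      apply hne
      have : (r' : ℤ) ∣ (r : ℤ) := by
        rcases e2 with e | e
        · rwa [e] at hdvd
        · rw [e] at hdvd; exact (dvd_neg).1 hdvd
      exact ((Nat.prime_dvd_prime_iff_eq hr' hr).1 (by exact_mod_cast this)).symm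
    rw [h1, h2, if_pos]
    · norm_num
    · simp [Int.even_add, hs1, ht1]

theorem H3_om3 (i : ℕ) : om ^ (2 * i) * om ^ i = 1 := by
  have : om ^ 3 = 1 := by linear_combination (om - 1) * om_rel
  rw [← pow_add, show 2 * i + i = 3 * i by ring, pow_mul, this, one_pow]

theorem H3_sym_pow (v : HeightOneSpectrum O) (i : ℕ) (x : O) : sym v (om ^ i * x) = sym v x := by
  induction i with
  | zero => rw [pow_zero, one_mul]
  | succ i ih => rw [pow_succ, mul_comm (om ^ i) om, mul_assoc, sym_mul, sym_om, one_mul, ih]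

/-- removing the power of `om` -/
theorem H3_reduce {P : HeightOneSpectrum O} {p : O} (hP : P.asIdeal = Ideal.span {p}) {t : O}
    (h : Cl p t) : ∃ p' : O, P.asIdeal = Ideal.span {p'} ∧ (4 : O) ∣ p' - (1 + 2 * t) ∧
      ∀ v, sym v p' = sym v p := by
  obtain ⟨i, z, hz⟩ := h
  refine ⟨om ^ (2 * i) * p, ?_, ⟨om ^ (2 * i) * z, ?_⟩, fun v => H3_sym_pow v _ _⟩
  · rw [hP, Ideal.span_singleton_eq_span_singleton]
    exact ⟨⟨om ^ (2 * i), om ^ i, H3_om3 i, by rw [mul_comm]; exact H3_om3 i⟩, by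
      rw [mul_comm]⟩
  · linear_combination om ^ (2 * i) * hz + (1 + 2 * t) * H3_om3 i

theorem qrec (p q : O) (P Q : HeightOneSpectrum O) (hP : P.asIdeal = Ideal.span {p})
    (hQ : Q.asIdeal = Ideal.span {q}) (hP3 : (3 : O) ∉ P.asIdeal) (hQ3 : (3 : O) ∉ Q.asIdeal)
    (hPQ : P ≠ Q) (s0 s1 t0 t1 : ℤ)
    (hs : Cl p (s0 + s1 * om)) (ht : Cl q (t0 + t1 * om)) :
    sym P q * sym Q p = (-1) ^ (s0 * t1 + s1 * t0 + s1 * t1).natAbs := by
  obtain ⟨p', hP', hs', hsp⟩ := H3_reduce hP hs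
  obtain ⟨q', hQ', ht', htq⟩ := H3_reduce hQ ht
  rw [H3_pow, ← H3_main hP' hQ' hP3 hQ3 hPQ hs' ht', hsp, htq]

/-- Supplementary law: sym P (-1) = (-1)^(s1). -/
theorem sym_neg_one (p : O) (P : HeightOneSpectrum O) (hP : P.asIdeal = Ideal.span {p})
    (hP3 : (3 : O) ∉ P.asIdeal) (s0 s1 : ℤ) (hs : Cl p (s0 + s1 * om)) :
    sym P (-1) = (-1) ^ s1.natAbs := by
  obtain ⟨p', hP', hs', -⟩ := H3_reduce hP hs
  obtain ⟨a', b', hp⟩ := H3_repr hs'
  rw [H3_pow]
  rcases prime_types P hP3 with ⟨l, hl, hl3, hN⟩ | ⟨r, hr, hr3, hPr⟩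
  · have := Fact.mk hl
    have e1 := H3_absNorm hP' hp
    rw [hN] at e1
    have h1 := sym_split P _ _ l hl3 (by rw [hP', hp]) e1 (-1) 0
    obtain ⟨u, hu⟩ : ∃ u, (l : ℤ) = 1 - 2 * s1 + 4 * u := by
      refine ⟨(s0 + s0 ^ 2 + 2 * a' + 4 * s0 * a' + 4 * a' ^ 2) -
        (b' + s0 * s1 + 2 * s0 * b' + 2 * a' * s1 + 4 * a' * b') + (s1 + 2 * b') ^ 2, ?_⟩
      rw [e1]; ring
    have e3 : (-1 : O) = ((-1 : ℤ) : O) + ((0 : ℤ) : O) * om := by push_cast; ring
    rw [e3, h1, jacobiSym.legendreSym.to_jacobiSym, jacobiSym.legendreSym.to_jacobiSym, mul_zero,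
      sub_zero, jacobiSym.mul_left, mul_comm (jacobiSym (2 * s1 + 4 * b') l), mul_assoc,
      H3_sq_one hl e1, mul_one]
    exact H3_neg_one hu
  · obtain ⟨e1, e2, hr2⟩ := H3_inert hP' hp (H3_odd1 s0 a') (H3_even1 s1 b') hr hPr
    have hs1 : Even s1 := ⟨-b', by omega⟩
    rw [if_pos hs1]
    have e3 : (-1 : O) = ((-1 : ℤ) : O) := by push_cast; ring
    rw [e3]
    refine H3_inert_int hr hr2 hr3 hPr ?_
    intro hdvd
    rw [dvd_neg] at hdvd
    have h5 : r ∣ 1 := by exact_mod_cast hdvd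
    exact hr.one_lt.ne' (Nat.dvd_one.1 h5)

end H55B
end

-- from Lib.H55B.H4
section

open NumberField IsDedekindDomain

namespace H55B

/-! Chunk H4: reciprocity for admissible elements.
Write a = p_1 ... p_k with prime elements (k >= 1; if a is a unit, a = om^i since a is a square mod 4 and
-1 is not, so sym v a = 1 = Sym a). Each p_i is odd (a is: if 2 | a then 2 | b, 4 | b^2, 4 | a, not
squarefree) so Cl p_i s_i for some s_i; Cl is additive: Cl x s, Cl y t imply Cl (xy) (s + t) (mod 4); a square is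
Cl 0 (b = om^i(1 + 2s) mod 4 gives b^2 = om^(2i) mod 4), and Cl x s, Cl x s' imply s = s' mod 2. So sum s_i = 0
mod 2. Apply qrec for each pair (p_i, gen v) and multiply: exponent is additive in s.
Sym_neg_one: multiply sym_neg_one over the p_i. -/

theorem Adm.odd {a : O} (ha : Adm a) : IsCoprime a 2 := by
  obtain ⟨hsq, ⟨b, hb⟩, -⟩ := ha
  by_contra hc
  have h2 : (2 : O) ∣ a := by
    by_contra h
    exact hc ((two_prime.irreducible.coprime_iff_not_dvd.mpr h).symm)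
  have h3 : (2 : O) ∣ b ^ 2 := by
    have h4 : (2 : O) ∣ a - b ^ 2 := dvd_trans ⟨2, by norm_num⟩ hb
    exact (dvd_sub_right h2).mp h4
  have h5 : (2 : O) ∣ b := two_prime.dvd_of_dvd_pow h3
  obtain ⟨c, rfl⟩ := h5
  have h6 : (4 : O) ∣ a := by
    have h7 : (4 : O) ∣ (2 * c) ^ 2 := ⟨c ^ 2, by ring⟩
    exact (dvd_sub_left h7).mp hb
  have h8 : (2 : O) * 2 ∣ a := by
    have : (2 : O) * 2 = 4 := by norm_num
    rw [this]
    exact h6
  exact two_prime.not_isUnit (hsq 2 h8)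

theorem Adm.coprime3 {a : O} (ha : Adm a) : IsCoprime a 3 := by
  apply isCoprime_of_prime_dvd
  · rintro ⟨-, h⟩
    have h3 : ((3 : ℕ) : O) ≠ 0 := Nat.cast_ne_zero.mpr (by norm_num)
    exact h3 (by exact_mod_cast h)
  · intro z hz hza
    exact (ha.2.2 z hz hza).1

theorem H4_om_cube : om ^ 3 = 1 := by
  have h := om_rel
  linear_combination (om - 1) * h

theorem H4_dvd {n A B : ℤ} (h : (n : O) ∣ A + B * om) : n ∣ A ∧ n ∣ B := by
  obtain ⟨c, hc⟩ := h
  obtain ⟨x, y, rfl⟩ := exists_repr c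
  have h1 : (A : O) + B * om = ((n * x : ℤ) : O) + ((n * y : ℤ) : O) * om := by
    rw [hc]; push_cast; ring
  obtain ⟨h2, h3⟩ := repr_unique h1
  exact ⟨⟨x, h2⟩, ⟨y, h3⟩⟩

theorem H4_Cl_mul {x y s t : O} (hx : Cl x s) (hy : Cl y t) : Cl (x * y) (s + t) := by
  obtain ⟨i, c, hc⟩ := hx
  obtain ⟨j, d, hd⟩ := hy
  refine ⟨i + j, ?_⟩
  have h1 : x = om ^ i * (1 + 2 * s) + 4 * c := by rw [← hc]; ring
  have h2 : y = om ^ j * (1 + 2 * t) + 4 * d := by rw [← hd]; ring
  refine ⟨om ^ (i + j) * s * t + om ^ i * (1 + 2 * s) * d + om ^ j * (1 + 2 * t) * c +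
    4 * c * d, ?_⟩
  rw [h1, h2, pow_add]
  ring

theorem H4_Cl_one : Cl 1 0 := ⟨0, 0, by ring⟩

/-- every odd element has a class -/
theorem H4_exists_Cl {x : O} (hx : ¬ (2 : O) ∣ x) : ∃ s0 s1 : ℤ, Cl x (s0 + s1 * om) := by
  have h : ∃ (i : ℕ) (c : O), x = om ^ i + 2 * c := by
    obtain ⟨a, b, rfl⟩ := exists_repr x
    rcases Int.even_or_odd a with ⟨m, hm⟩ | ⟨m, hm⟩ <;> rcases Int.even_or_odd b with ⟨n, hn⟩ | ⟨n, hn⟩
    · exfalso
      apply hx
      refine ⟨m + n * om, ?_⟩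
      rw [hm, hn]; push_cast; ring
    · refine ⟨1, m + n * om, ?_⟩
      rw [hm, hn]; push_cast; ring
    · refine ⟨0, m + n * om, ?_⟩
      rw [hm, hn]; push_cast; ring
    · refine ⟨2, m + n * om + 1 + om, ?_⟩
      rw [hm, hn]; push_cast
      linear_combination (-1 : O) * om_rel
  obtain ⟨i, c, hc⟩ := h
  obtain ⟨s0, s1, hs⟩ := exists_repr (c * om ^ (2 * i))
  refine ⟨s0, s1, i, ?_⟩
  rw [← hs, hc]
  have h3 : om ^ i * om ^ (2 * i) = 1 := by
    rw [← pow_add, show i + 2 * i = 3 * i by ring, pow_mul, H4_om_cube, one_pow]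
  refine ⟨0, ?_⟩
  linear_combination (-2 * c) * h3

/-- factorization of a squarefree element -/
theorem H4_factor (a : O) : Squarefree a → (∀ p : O, Prime p → p ∣ a → ¬ p ∣ 3) →
    ∃ (T : Finset (HeightOneSpectrum O)) (u : Oˣ),
      (∀ v, v ∈ T ↔ a ∈ v.asIdeal) ∧ a = u * ∏ v ∈ T, gen v := by
  classical
  induction a using UniqueFactorizationMonoid.induction_on_prime with
  | h₁ => intro h; exact absurd h not_squarefree_zero
  | h₂ x hx =>
    intro _ _
    obtain ⟨u, rfl⟩ := hx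
    refine ⟨∅, u, ?_, by simp⟩
    intro v
    simp only [Finset.notMem_empty, false_iff]
    intro h
    exact v.isPrime.ne_top (Ideal.eq_top_of_isUnit_mem _ h u.isUnit)
  | h₃ a p ha hp ih =>
    intro hsq h3
    have hsq' : Squarefree a := hsq.squarefree_of_dvd (Dvd.intro_left p rfl)
    obtain ⟨T, u, hT, hau⟩ := ih hsq' (fun q hq hqa => h3 q hq (hqa.mul_left p))
    have hp3 : ¬ p ∣ 3 := h3 p hp (Dvd.intro a rfl)
    have hpI : (Ideal.span {p}).IsPrime := (Ideal.span_singleton_prime hp.ne_zero).mpr hp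
    set w : HeightOneSpectrum O := ⟨Ideal.span {p}, hpI, by
      rw [ne_eq, Ideal.span_singleton_eq_bot]; exact hp.ne_zero⟩ with hw
    have hw3 : (3 : O) ∉ w.asIdeal := by
      intro h
      exact hp3 (Ideal.mem_span_singleton.mp h)
    obtain ⟨hg1, hg2⟩ := gen_spec w hw3
    have hg3 : Associated p (gen w) := by
      have h4 : Ideal.span {p} = Ideal.span {gen w} := hg1
      exact Ideal.span_singleton_eq_span_singleton.mp h4
    obtain ⟨u', hu'⟩ := hg3.symm
    have hpa : ¬ p ∣ a := by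
      intro h
      have h5 : p * p ∣ p * a := mul_dvd_mul_left p h
      exact hp.not_isUnit (hsq p h5)
    have hwT : w ∉ T := by
      rw [hT]
      intro h
      exact hpa (Ideal.mem_span_singleton.mp h)
    refine ⟨insert w T, u' * u, ?_, ?_⟩
    · intro v
      rw [Finset.mem_insert, hT]
      constructor
      · rintro (h | h)
        · rw [h]
          exact Ideal.mem_span_singleton.mpr (Dvd.intro a rfl)
        · exact v.asIdeal.mul_mem_left p h
      · intro h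
        rcases v.isPrime.mem_or_mem h with h4 | h4
        · left
          have h5 : w.asIdeal ≤ v.asIdeal := by
            show Ideal.span {p} ≤ v.asIdeal
            rw [Ideal.span_singleton_le_iff_mem]
            exact h4
          have h6 : w.asIdeal = v.asIdeal :=
            (w.isPrime.isMaximal w.ne_bot).eq_of_le v.isPrime.ne_top h5
          exact (HeightOneSpectrum.ext h6).symm
        · exact Or.inr h4
    · rw [Finset.prod_insert hwT, Units.val_mul]
      have h7 : p = gen w * u' := hu'.symm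
      conv_lhs => rw [h7, hau]
      ring

theorem H4_Sym_prod {a : O} {T : Finset (HeightOneSpectrum O)}
    (hT : ∀ v, v ∈ T ↔ a ∈ v.asIdeal) (x : O) : Sym a x = ∏ v ∈ T, sym v x := by
  have h : Sym a x = ∏ᶠ v ∈ (T : Set (HeightOneSpectrum O)), sym v x := by
    unfold Sym
    apply finprod_congr
    intro v
    apply finprod_congr_Prop
    · intro _; rfl
    · rw [Finset.mem_coe, hT]
  rw [h, finprod_mem_coe_finset]

theorem H4_sym_one (v : HeightOneSpectrum O) : sym v 1 = 1 := by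
  unfold sym
  rw [if_neg, if_pos]
  · exact ⟨1, by simp⟩
  · intro h
    exact v.isPrime.ne_top ((Ideal.eq_top_iff_one _).mpr h)

theorem H4_sym_prod (v : HeightOneSpectrum O) {ι : Type*} (T : Finset ι) (f : ι → O) :
    sym v (∏ i ∈ T, f i) = ∏ i ∈ T, sym v (f i) := by
  classical
  induction T using Finset.induction_on with
  | empty => simp [H4_sym_one]
  | insert i T hi ih => rw [Finset.prod_insert hi, Finset.prod_insert hi, sym_mul, ih]

theorem H4_sign (n : ℤ) : (-1 : ℤ) ^ n.natAbs = if Even n then 1 else -1 := by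
  split_ifs with h
  · exact (Int.natAbs_even.mpr h).neg_one_pow
  · rw [Int.not_even_iff_odd] at h
    exact (Int.natAbs_odd.mpr h).neg_one_pow

theorem H4_sign_add (m n : ℤ) :
    (-1 : ℤ) ^ (m + n).natAbs = (-1 : ℤ) ^ m.natAbs * (-1 : ℤ) ^ n.natAbs := by
  rw [H4_sign, H4_sign, H4_sign]
  by_cases hm : Even m <;> by_cases hn : Even n <;> simp [hm, hn, Int.even_add]

theorem H4_sign_sum {ι : Type*} (T : Finset ι) (f : ι → ℤ) :
    ∏ i ∈ T, (-1 : ℤ) ^ (f i).natAbs = (-1 : ℤ) ^ (∑ i ∈ T, f i).natAbs := by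
  classical
  induction T using Finset.induction_on with
  | empty => simp
  | insert i T hi ih => rw [Finset.prod_insert hi, Finset.sum_insert hi, H4_sign_add, ih]

theorem H4_Cl_prod {ι : Type*} (T : Finset ι) (f : ι → O) (s0 s1 : ι → ℤ)
    (h : ∀ i ∈ T, Cl (f i) (s0 i + s1 i * om)) :
    Cl (∏ i ∈ T, f i) ((∑ i ∈ T, s0 i : ℤ) + (∑ i ∈ T, s1 i : ℤ) * om) := by
  classical
  induction T using Finset.induction_on with
  | empty => simpa using H4_Cl_one
  | insert i T hi ih =>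
    rw [Finset.prod_insert hi, Finset.sum_insert hi, Finset.sum_insert hi]
    have h1 := H4_Cl_mul (h i (Finset.mem_insert_self _ _))
      (ih (fun j hj => h j (Finset.mem_insert_of_mem hj)))
    have h2 : (s0 i : O) + s1 i * om + (((∑ i ∈ T, s0 i : ℤ) : O) + ((∑ i ∈ T, s1 i : ℤ) : O) * om) =
      ((s0 i + ∑ i ∈ T, s0 i : ℤ) : O) + ((s1 i + ∑ i ∈ T, s1 i : ℤ) : O) * om := by
      push_cast; ring
    rw [← h2]
    exact h1

/-- units are plus or minus a power of om -/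
theorem H4_unit (u : Oˣ) : ∃ i : ℕ, (u : O) = om ^ i ∨ (u : O) = -om ^ i := by
  rcases unit_cases u with h | h | h | h | h | h
  · exact ⟨0, Or.inl (by rw [h, pow_zero])⟩
  · exact ⟨0, Or.inr (by rw [h, pow_zero])⟩
  · exact ⟨1, Or.inl (by rw [h, pow_one])⟩
  · exact ⟨1, Or.inr (by rw [h, pow_one])⟩
  · exact ⟨2, Or.inl h⟩
  · exact ⟨2, Or.inr h⟩

theorem H4_sym_om_pow (v : HeightOneSpectrum O) (i : ℕ) : sym v (om ^ i) = 1 := by
  induction i with
  | zero => rw [pow_zero, H4_sym_one]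
  | succ i ih => rw [pow_succ, sym_mul, ih, sym_om, one_mul]

/-- the key congruence -/
theorem H4_key {e : ℤ} {n m : ℕ} {S0 S1 : ℤ} (he : e = 1 ∨ e = -1)
    (h : (4 : O) ∣ e * (om ^ n * (1 + 2 * (S0 + S1 * om))) - om ^ m) :
    Even S1 ∧ (Even S0 ↔ e = 1) := by
  have hee : (e : O) * e = 1 := by
    rcases he with rfl | rfl <;> norm_num
  -- multiply by e om^(2n)
  have h1 : (4 : O) ∣ (1 + 2 * (S0 + S1 * om)) - e * om ^ (m + 2 * n) := by
    have h2 : om ^ n * om ^ (2 * n) = 1 := by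
      rw [← pow_add, show n + 2 * n = 3 * n by ring, pow_mul, H4_om_cube, one_pow]
    obtain ⟨c, hc⟩ := h
    refine ⟨e * om ^ (2 * n) * c, ?_⟩
    have h3 : (1 + 2 * ((S0 : O) + S1 * om)) - e * om ^ (m + 2 * n) =
        e * om ^ (2 * n) * (e * (om ^ n * (1 + 2 * (S0 + S1 * om))) - om ^ m) := by
      rw [pow_add]
      linear_combination (-(1 + 2 * ((S0 : O) + S1 * om)) * (e * e)) * h2 +
        (-(1 + 2 * ((S0 : O) + S1 * om))) * hee
    rw [h3, hc]
    ring
  -- reduce the exponent modulo 3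
  have h4 : om ^ (m + 2 * n) = om ^ ((m + 2 * n) % 3) := by
    conv_lhs => rw [← Nat.div_add_mod (m + 2 * n) 3, pow_add, pow_mul, H4_om_cube, one_pow, one_mul]
  rw [h4] at h1
  have h5 : (m + 2 * n) % 3 = 0 ∨ (m + 2 * n) % 3 = 1 ∨ (m + 2 * n) % 3 = 2 := by omega
  rcases h5 with h5 | h5 | h5
  · rw [h5, pow_zero, mul_one] at h1
    have h6 : ((4 : ℤ) : O) ∣ ((1 + 2 * S0 - e : ℤ) : O) + ((2 * S1 : ℤ) : O) * om := by
      have h7 : ((1 + 2 * S0 - e : ℤ) : O) + ((2 * S1 : ℤ) : O) * om =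
        (1 + 2 * ((S0 : O) + S1 * om)) - e := by push_cast; ring
      rw [h7]
      exact_mod_cast h1
    obtain ⟨h8, h9⟩ := H4_dvd h6
    refine ⟨?_, ?_⟩
    · rw [Int.even_iff]
      omega
    · rw [Int.even_iff]
      rcases he with rfl | rfl
      · constructor
        · intro _; rfl
        · intro _; omega
      · constructor
        · intro h10; omega
        · intro h10; omega
  · exfalso
    rw [h5, pow_one] at h1
    have h6 : ((4 : ℤ) : O) ∣ ((1 + 2 * S0 : ℤ) : O) + ((2 * S1 - e : ℤ) : O) * om := by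
      have h7 : ((1 + 2 * S0 : ℤ) : O) + ((2 * S1 - e : ℤ) : O) * om =
        (1 + 2 * ((S0 : O) + S1 * om)) - e * om := by push_cast; ring
      rw [h7]
      exact_mod_cast h1
    obtain ⟨h8, h9⟩ := H4_dvd h6
    omega
  · exfalso
    rw [h5] at h1
    have h6 : ((4 : ℤ) : O) ∣ ((1 + 2 * S0 + e : ℤ) : O) + ((2 * S1 + e : ℤ) : O) * om := by
      have h7 : ((1 + 2 * S0 + e : ℤ) : O) + ((2 * S1 + e : ℤ) : O) * om =
        (1 + 2 * ((S0 : O) + S1 * om)) - e * om ^ 2 := by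
        push_cast
        linear_combination (-(e : O)) * (-1 : O) * om_rel
      rw [h7]
      exact_mod_cast h1
    obtain ⟨h8, h9⟩ := H4_dvd h6
    rcases he with rfl | rfl <;> omega

/-- All the data attached to an admissible element. -/
theorem H4_data {a : O} (ha : Adm a) : ∃ (T : Finset (HeightOneSpectrum O)) (e : ℤ) (i : ℕ)
    (s0 s1 : HeightOneSpectrum O → ℤ), (∀ v, v ∈ T ↔ a ∈ v.asIdeal) ∧ (e = 1 ∨ e = -1) ∧
      a = e * (om ^ i * ∏ v ∈ T, gen v) ∧ (∀ v ∈ T, (3 : O) ∉ v.asIdeal) ∧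
      (∀ v ∈ T, Cl (gen v) (s0 v + s1 v * om)) ∧ Even (∑ v ∈ T, s1 v) ∧
      (Even (∑ v ∈ T, s0 v) ↔ e = 1) := by
  classical
  obtain ⟨T, u, hT, hau⟩ := H4_factor a ha.1 (fun p hp hpa => (ha.2.2 p hp hpa).1)
  have h3 : ∀ v ∈ T, (3 : O) ∉ v.asIdeal := by
    intro v hv h
    rw [hT] at hv
    obtain ⟨c, d, hcd⟩ := ha.coprime3
    apply v.isPrime.ne_top
    rw [Ideal.eq_top_iff_one, ← hcd]
    exact v.asIdeal.add_mem (v.asIdeal.mul_mem_left c hv) (v.asIdeal.mul_mem_left d h)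
  have h2 : ∀ v ∈ T, ¬ (2 : O) ∣ gen v := by
    intro v hv h
    have h4 : (2 : O) ∣ a := by
      rw [hau]
      exact (h.trans (Finset.dvd_prod_of_mem gen hv)).mul_left _
    have h5 := ha.odd
    exact two_prime.irreducible.coprime_iff_not_dvd.mp h5.symm h4
  have hs : ∀ v : HeightOneSpectrum O, ∃ s : ℤ × ℤ, v ∈ T → Cl (gen v) (s.1 + s.2 * om) := by
    intro v
    by_cases hv : v ∈ T
    · obtain ⟨s0, s1, h⟩ := H4_exists_Cl (h2 v hv)
      exact ⟨(s0, s1), fun _ => h⟩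
    · exact ⟨(0, 0), fun h => absurd h hv⟩
  choose s hs using hs
  obtain ⟨i, hi⟩ := H4_unit u
  obtain ⟨e, he, hue⟩ : ∃ e : ℤ, (e = 1 ∨ e = -1) ∧ (u : O) = e * om ^ i := by
    rcases hi with hi | hi
    · exact ⟨1, Or.inl rfl, by rw [hi]; push_cast; ring⟩
    · exact ⟨-1, Or.inr rfl, by rw [hi]; push_cast; ring⟩
  have hae : a = e * (om ^ i * ∏ v ∈ T, gen v) := by
    rw [← mul_assoc, ← hue]
    exact hau
  have hCl := H4_Cl_prod T gen (fun v => (s v).1) (fun v => (s v).2) (fun v hv => hs v hv)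
  obtain ⟨j, c, hc⟩ := hCl
  -- a is congruent to a power of om
  obtain ⟨b, hb⟩ := ha.2.1
  have hb2 : ¬ (2 : O) ∣ b := by
    intro h
    have h4 : (2 : O) ∣ a := by
      have h5 : (2 : O) ∣ a - b ^ 2 := dvd_trans ⟨2, by norm_num⟩ hb
      exact (dvd_sub_left (h.trans (dvd_pow_self b two_ne_zero))).mp h5
    exact two_prime.irreducible.coprime_iff_not_dvd.mp ha.odd.symm h4
  obtain ⟨t0, t1, k, d, hd⟩ := H4_exists_Cl hb2
  have hbk : b = om ^ k * (1 + 2 * (t0 + t1 * om)) + 4 * d := by rw [← hd]; ring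
  have hb4 : (4 : O) ∣ a - om ^ (2 * k) := by
    obtain ⟨c', hc'⟩ := hb
    refine ⟨c' + (om ^ (2 * k) * ((t0 + t1 * om) + (t0 + t1 * om) ^ 2) +
      2 * om ^ k * (1 + 2 * (t0 + t1 * om)) * d + 4 * d ^ 2), ?_⟩
    have h6 : a = b ^ 2 + 4 * c' := by rw [← hc']; ring
    rw [h6, hbk, mul_comm 2 k, pow_mul]
    ring
  have hkey : (4 : O) ∣ e * (om ^ (i + j) * (1 + 2 * (((∑ v ∈ T, (s v).1 : ℤ) : O) +
      ((∑ v ∈ T, (s v).2 : ℤ) : O) * om))) - om ^ (2 * k) := by
    obtain ⟨c', hc'⟩ := hb4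
    refine ⟨c' - e * om ^ i * c, ?_⟩
    have h7 : ∏ v ∈ T, gen v = om ^ j * (1 + 2 * (((∑ v ∈ T, (s v).1 : ℤ) : O) +
      ((∑ v ∈ T, (s v).2 : ℤ) : O) * om)) + 4 * c := by rw [← hc]; ring
    have h8 : a - om ^ (2 * k) = 4 * c' := hc'
    rw [hae, h7] at h8
    rw [pow_add]
    linear_combination h8
  obtain ⟨h9, h10⟩ := H4_key he hkey
  exact ⟨T, e, i, fun v => (s v).1, fun v => (s v).2, hT, he, hae, h3, fun v hv => hs v hv,
    h9, h10⟩

theorem recip {a : O} (ha : Adm a) (v : HeightOneSpectrum O) (h3 : (3 : O) ∉ v.asIdeal)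
    (h2 : (2 : O) ∉ v.asIdeal) (hav : a ∉ v.asIdeal) : sym v a = Sym a (gen v) := by
  classical
  obtain ⟨T, e, i, s0, s1, hT, he, hae, hT3, hs, hev1, hev0⟩ := H4_data ha
  have hg := (gen_spec v h3).1
  have hg2 : ¬ (2 : O) ∣ gen v := by
    intro h
    obtain ⟨c, hc⟩ := h
    -- gen v prime, 2 prime: v = (2)
    have h4 : gen v ∈ v.asIdeal := by rw [hg]; exact Ideal.mem_span_singleton_self _
    rw [hc] at h4
    rcases v.isPrime.mem_or_mem h4 with h5 | h5
    · exact h2 h5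
    · have h6 : gen v ∣ c := (gen_dvd_iff v h3 c).mpr h5
      obtain ⟨d, hd⟩ := h6
      have h7 : gen v * 1 = gen v * (2 * d) := by
        rw [mul_one]
        calc gen v = 2 * c := hc
          _ = 2 * (gen v * d) := by rw [← hd]
          _ = gen v * (2 * d) := by ring
      have h8 := mul_left_cancel₀ (gen_prime v h3).ne_zero h7
      exact two_prime.not_isUnit (IsUnit.of_mul_eq_one d h8.symm)
  obtain ⟨t0, t1, ht⟩ := H4_exists_Cl hg2
  have hvT : v ∉ T := by rw [hT]; exact hav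
  have hprod : ∏ P ∈ T, (sym P (gen v) * sym v (gen P)) =
      (-1 : ℤ) ^ (∑ P ∈ T, (s0 P * t1 + s1 P * t0 + s1 P * t1)).natAbs := by
    rw [← H4_sign_sum]
    apply Finset.prod_congr rfl
    intro P hP
    have hPv : P ≠ v := fun h => hvT (h ▸ hP)
    exact qrec (gen P) (gen v) P v (gen_spec P (hT3 P hP)).1 hg (hT3 P hP) h3 hPv _ _ _ _
      (hs P hP) ht
  have hsum : ∑ P ∈ T, (s0 P * t1 + s1 P * t0 + s1 P * t1) =
      (∑ P ∈ T, s0 P) * t1 + (∑ P ∈ T, s1 P) * (t0 + t1) := by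
    rw [Finset.sum_add_distrib, Finset.sum_add_distrib, ← Finset.sum_mul, ← Finset.sum_mul,
      ← Finset.sum_mul]
    ring
  rw [hsum, H4_sign_add] at hprod
  have h5 : (-1 : ℤ) ^ ((∑ P ∈ T, s1 P) * (t0 + t1)).natAbs = 1 := by
    rw [H4_sign, if_pos (hev1.mul_right _)]
  rw [h5, mul_one, Finset.prod_mul_distrib, ← H4_Sym_prod hT, ← H4_sym_prod] at hprod
  -- the symbol of a at v
  have hva : sym v a = sym v (e : O) * sym v (∏ P ∈ T, gen P) := by
    rw [hae, sym_mul, sym_mul, H4_sym_om_pow, one_mul]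
  have hneg := sym_neg_one (gen v) v hg h3 t0 t1 ht
  have hsq1 : sym v a = 1 ∨ sym v a = -1 := sym_sq v hav
  have hmul : Sym a (gen v) * sym v a = 1 := by
    rw [hva]
    have h6 : Sym a (gen v) * (sym v (e : O) * sym v (∏ P ∈ T, gen P)) =
      sym v (e : O) * (Sym a (gen v) * sym v (∏ P ∈ T, gen P)) := by ring
    rw [h6, hprod]
    rcases he with h7 | h7
    · have h8 : Even (∑ P ∈ T, s0 P) := hev0.mpr h7
      rw [H4_sign, if_pos (h8.mul_right _), h7]
      push_cast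
      rw [H4_sym_one, one_mul]
    · have h8 : ¬ Even (∑ P ∈ T, s0 P) := by
        intro h
        have := hev0.mp h
        rw [h7] at this
        norm_num at this
      rw [h7]
      push_cast
      rw [hneg, H4_sign, H4_sign]
      by_cases h9 : Even t1
      · rw [if_pos h9, if_pos (h9.mul_left _)]
        norm_num
      · rw [if_neg h9, if_neg]
        · norm_num
        · rw [Int.even_mul]
          push Not
          exact ⟨h8, h9⟩
  rcases hsq1 with h | h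
  · rw [h, mul_one] at hmul
    rw [h, hmul]
  · rw [h] at hmul
    rw [h]
    linarith

theorem Sym_neg_one {a : O} (ha : Adm a) : Sym a (-1) = 1 := by
  classical
  obtain ⟨T, e, i, s0, s1, hT, he, hae, hT3, hs, hev1, hev0⟩ := H4_data ha
  rw [H4_Sym_prod hT]
  have h : ∏ v ∈ T, sym v (-1) = ∏ v ∈ T, (-1 : ℤ) ^ (s1 v).natAbs := by
    apply Finset.prod_congr rfl
    intro v hv
    exact sym_neg_one (gen v) v (gen_spec v (hT3 v hv)).1 (hT3 v hv) _ _ (hs v hv)
  rw [h, H4_sign_sum, H4_sign, if_pos hev1]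

end H55B
end

-- from Lib.H55B.G0
section

open NumberField IsDedekindDomain

namespace H55B

/-! Chunk G0: the extension generated by the square roots is Galois of exponent 2.
Every s in S is a root of X^2 - a, split in K, separable; K is generated by S, so K/F is a splitting field /
normal (IsGalois from Algebra.adjoin = top, all generators with split separable minimal polynomials), and g^2
fixes each s (g s = +- s) hence g^2 = 1. -/

variable {K : Type*} [Field K] [NumberField K] [Algebra F K]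

open Polynomial in
theorem isGalois (S : Set K)
    (hS : ∀ s ∈ S, ∃ a : O, Adm a ∧ s ^ 2 = algebraMap O K a) (hgen : Algebra.adjoin F S = ⊤) : IsGalois F K := by
  have : IsScalarTower ℚ F K := IsScalarTower.of_algebraMap_eq' (Subsingleton.elim _ _)
  have : FiniteDimensional F K := Module.Finite.of_restrictScalars_finite ℚ F K
  have hint : ∀ x : K, IsIntegral F x := fun x => Algebra.IsIntegral.isIntegral x
  have htop : ∀ x : K, x ∈ IntermediateField.adjoin F S := by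
    intro x
    have h1 : x ∈ Algebra.adjoin F S := hgen ▸ Algebra.mem_top
    exact IntermediateField.algebra_adjoin_le_adjoin F S h1
  have hsp : ∀ s ∈ S, ((minpoly F s).map (algebraMap F K)).Splits := by
    intro s hs
    obtain ⟨a, -, ha⟩ := hS s hs
    have h1 : minpoly F s ∣ X ^ 2 - C (algebraMap O F a) := by
      refine minpoly.dvd F s ?_
      rw [map_sub, map_pow, aeval_X, aeval_C, ha, ← IsScalarTower.algebraMap_apply O F K a,
        sub_self]
    have h2 : (X ^ 2 - C (algebraMap O F a)).map (algebraMap F K) = (X - C s) * (X - C (-s)) := by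
      rw [Polynomial.map_sub, Polynomial.map_pow, map_X, map_C,
        ← IsScalarTower.algebraMap_apply O F K a, ← ha, C_neg, C_pow]
      ring
    have h3 : (minpoly F s).map (algebraMap F K) ∣ (X - C s) * (X - C (-s)) := by
      rw [← h2]
      exact Polynomial.map_dvd _ h1
    exact ((Splits.X_sub_C s).mul (Splits.X_sub_C (-s))).of_dvd
      (mul_ne_zero (X_sub_C_ne_zero _) (X_sub_C_ne_zero _)) h3
  have hn : Normal F K := normal_iff.mpr fun x =>
    ⟨hint x, IntermediateField.splits_of_mem_adjoin F K (L := K) (S := S)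
      (fun s hs => ⟨hint s, hsp s hs⟩) (htop x)⟩
  exact ⟨⟩

theorem gal_sq (S : Set K)
    (hS : ∀ s ∈ S, ∃ a : O, Adm a ∧ s ^ 2 = algebraMap O K a) (hgen : Algebra.adjoin F S = ⊤) (g : K ≃ₐ[F] K) : g * g = 1 := by
  have h : ((g * g : K ≃ₐ[F] K) : K →ₐ[F] K) = AlgHom.id F K := by
    refine AlgHom.ext_of_adjoin_eq_top hgen fun s hs => ?_
    obtain ⟨a, -, ha⟩ := hS s hs
    have h1 : (g s) ^ 2 = s ^ 2 := by
      rw [← map_pow, ha, IsScalarTower.algebraMap_apply O F K a, AlgEquiv.commutes]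
    show g (g s) = s
    rcases sq_eq_sq_iff_eq_or_eq_neg.mp h1 with h2 | h2
    · rw [h2, h2]
    · rw [h2, map_neg, h2, neg_neg]
  ext x
  exact congrArg (fun f : K →ₐ[F] K => f x) h

theorem Adm_one : Adm 1 := by
  refine ⟨squarefree_one, ⟨1, by simp⟩, fun p hp h1 => ?_⟩
  exact absurd (isUnit_of_dvd_one h1) hp.not_isUnit

/-- Products of admissible elements are admissible up to squares: if A = a b then A = c d^2 with c
admissible (d = gcd; d is odd and so invertible mod 4). -/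
theorem Adm_mul {a b : O} (ha : Adm a) (hb : Adm b) : ∃ c d : O, Adm c ∧ d ≠ 0 ∧ a * b = c * d ^ 2 := by
  obtain ⟨x, y, hxy⟩ := IsBezout.gcd_eq_sum a b
  obtain ⟨a', ha'⟩ := IsBezout.gcd_dvd_left a b
  obtain ⟨b', hb'⟩ := IsBezout.gcd_dvd_right a b
  set d := IsBezout.gcd a b with hd
  have hd0 : d ≠ 0 := by
    intro h0
    rw [h0, zero_mul] at ha'
    exact ha.1.ne_zero ha'
  have hcop : IsCoprime a' b' := by
    refine ⟨x, y, mul_left_cancel₀ hd0 ?_⟩
    linear_combination hxy - x * ha' - y * hb'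
  have hsqa : Squarefree a' := ha.1.squarefree_of_dvd ⟨d, by rw [mul_comm]; exact ha'⟩
  have hsqb : Squarefree b' := hb.1.squarefree_of_dvd ⟨d, by rw [mul_comm]; exact hb'⟩
  refine ⟨a' * b', d, ⟨?_, ?_, ?_⟩, hd0, ?_⟩
  · exact squarefree_mul_iff.mpr ⟨hcop.isRelPrime, hsqa, hsqb⟩
  · obtain ⟨α, hα⟩ := ha.2.1
    obtain ⟨β, hβ⟩ := hb.2.1
    have hodd : IsCoprime d 4 := by
      have h1 : IsCoprime d 2 := (Adm.odd ha).of_isCoprime_of_dvd_left ⟨a', ha'⟩
      have h2 : (4 : O) = 2 ^ 2 := by norm_num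
      rw [h2]
      exact h1.pow_right
    obtain ⟨u, v, huv⟩ := hodd
    obtain ⟨s, hs⟩ := hα
    obtain ⟨t, ht⟩ := hβ
    refine ⟨α * β * u, ?_⟩
    have hab : a' * b' * d ^ 2 = a * b := by
      linear_combination (-b) * ha' - d * a' * hb'
    have e1 : a = α ^ 2 + 4 * s := by linear_combination hs
    have e2 : b = β ^ 2 + 4 * t := by linear_combination ht
    -- `(d u)^2 = 1` modulo `4`
    have e3 : a' * b' - (α * β * u) ^ 2 =
        4 * (a' * b' * (2 * v - 4 * v ^ 2) + u ^ 2 * (α ^ 2 * t + β ^ 2 * s + 4 * s * t)) := by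
      have e4 : u ^ 2 * (a' * b' * d ^ 2) = u ^ 2 * ((α ^ 2 + 4 * s) * (β ^ 2 + 4 * t)) := by
        rw [hab, ← e1, ← e2]
      have e5 : (u * d) ^ 2 = (1 - v * 4) ^ 2 := by
        rw [← huv]
        ring
      linear_combination e4 - a' * b' * e5
    exact ⟨_, e3⟩
  · intro p hp hpd
    rcases hp.dvd_or_dvd hpd with h | h
    · exact ha.2.2 p hp (h.trans ⟨d, by rw [mul_comm]; exact ha'⟩)
    · exact hb.2.2 p hp (h.trans ⟨d, by rw [mul_comm]; exact hb'⟩)
  · linear_combination b * ha' + d * a' * hb'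

end H55B
end

-- from Lib.H55B.G1
section

open NumberField IsDedekindDomain

namespace H55B

/-! Chunk G1: Kummer theory: every quadratic character of the Galois group comes from an admissible element.
For a finite T in S let s_T be the product; g s_T = chi_T(g) s_T, s_T^2 is a product of admissible elements, and
by Adm_mul (induction) s_T^2 = c d^2, c admissible; the element s_T/d works for chi_T. K is spanned over F by
the s_T (products of generators, squares in F). Suppose chi is not one of the chi_T: the operator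
e_chi = sum_g chi(g) g kills every s_T (sum_g chi(g) chi_T(g) = 0), so it is 0 on K, contradicting the
independence of automorphisms (linearIndependent_monoidHom). s_T <> 0 because a <> 0 (squarefree). -/

variable {K : Type*} [Field K] [NumberField K] [Algebra F K]

/-- products of generators -/
theorem G1_closure (S : Set K)
    (hS : ∀ s ∈ S, ∃ a : O, Adm a ∧ s ^ 2 = algebraMap O K a) (m : K)
    (hm : m ∈ Submonoid.closure S) :
    m ≠ 0 ∧ ∃ a d : O, Adm a ∧ d ≠ 0 ∧ m ^ 2 = algebraMap O K a * (algebraMap O K d) ^ 2 := by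
  have hinj : Function.Injective (algebraMap O K) := by
    rw [IsScalarTower.algebraMap_eq O F K]
    exact (algebraMap F K).injective.comp (IsFractionRing.injective O F)
  induction hm using Submonoid.closure_induction with
  | mem x hx =>
    obtain ⟨a, ha, hxa⟩ := hS x hx
    refine ⟨?_, a, 1, ha, one_ne_zero, by rw [hxa, map_one]; ring⟩
    rintro rfl
    have h0 : algebraMap O K a = algebraMap O K 0 := by
      rw [← hxa, map_zero]
      ring
    exact ha.1.ne_zero (hinj h0)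
  | one => exact ⟨one_ne_zero, 1, 1, Adm_one, one_ne_zero, by rw [map_one]; ring⟩
  | mul x y _ _ hx hy =>
    obtain ⟨hx0, a, d, ha, hd, hxa⟩ := hx
    obtain ⟨hy0, b, d', hb, hd', hyb⟩ := hy
    obtain ⟨c, e, hc, he, hab⟩ := Adm_mul ha hb
    refine ⟨mul_ne_zero hx0 hy0, c, e * d * d', hc, mul_ne_zero (mul_ne_zero he hd) hd', ?_⟩
    have h1 : algebraMap O K a * algebraMap O K b = algebraMap O K c * algebraMap O K e ^ 2 := by
      rw [← map_mul, hab, map_mul, map_pow]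
    rw [mul_pow, hxa, hyb, map_mul, map_mul]
    linear_combination (algebraMap O K d) ^ 2 * (algebraMap O K d') ^ 2 * h1

theorem kummer (S : Set K)
    (hS : ∀ s ∈ S, ∃ a : O, Adm a ∧ s ^ 2 = algebraMap O K a) (hgen : Algebra.adjoin F S = ⊤) (χ : (K ≃ₐ[F] K) →* ℤˣ) :
    ∃ (a : O) (s : K), Adm a ∧ s ≠ 0 ∧ s ^ 2 = algebraMap O K a ∧
      ∀ g : K ≃ₐ[F] K, g s = (((χ g : ℤˣ) : ℤ) : K) * s := by
  classical
  have : IsScalarTower ℚ F K := IsScalarTower.of_algebraMap_eq' (Subsingleton.elim _ _)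
  have : FiniteDimensional F K := Module.Finite.of_restrictScalars_finite ℚ F K
  have : Fintype (K ≃ₐ[F] K) := Fintype.ofFinite _
  have hinj : Function.Injective (algebraMap O K) := by
    rw [IsScalarTower.algebraMap_eq O F K]
    exact (algebraMap F K).injective.comp (IsFractionRing.injective O F)
  let E : K →ₗ[F] K := ∑ g : K ≃ₐ[F] K, ((χ g : ℤˣ) : ℤ) • g.toLinearMap
  have hE : ∀ x, E x = ∑ g : K ≃ₐ[F] K, (((χ g : ℤˣ) : ℤ) : K) * g x := by
    intro x
    rw [LinearMap.sum_apply]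
    refine Finset.sum_congr rfl fun g _ => ?_
    rw [LinearMap.smul_apply, AlgEquiv.toLinearMap_apply, zsmul_eq_mul]
  -- the operator is not zero
  have hE0 : ∃ x, E x ≠ 0 := by
    by_contra hno
    push Not at hno
    have hli := linearIndependent_monoidHom K K
    have hli2 := hli.comp (fun g : K ≃ₐ[F] K => ((g : K →ₐ[F] K) : K →* K)) (by
      intro g h hgh
      ext x
      exact congrArg (fun f : K →* K => f x) hgh)
    rw [Fintype.linearIndependent_iff] at hli2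
    have h1 := hli2 (fun g => (((χ g : ℤˣ) : ℤ) : K)) (by
      funext x
      rw [Finset.sum_apply, Pi.zero_apply, ← hno x, hE]
      rfl) 1
    rw [map_one, Units.val_one, Int.cast_one] at h1
    exact one_ne_zero h1
  -- a product of generators which is not killed
  have hm : ∃ m ∈ Submonoid.closure S, E m ≠ 0 := by
    by_contra hno
    push Not at hno
    obtain ⟨x, hx⟩ := hE0
    apply hx
    have hx' : x ∈ Submodule.span F (Submonoid.closure S : Set K) := by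
      rw [← Algebra.adjoin_eq_span, hgen]
      exact (Algebra.mem_top : x ∈ (⊤ : Subalgebra F K))
    refine Submodule.span_induction (p := fun x _ => E x = 0) (fun y hy => hno y hy) (map_zero E)
      (fun y z _ _ hy hz => by rw [map_add, hy, hz, add_zero])
      (fun c y _ hy => by rw [map_smul, hy, smul_zero]) hx'
  obtain ⟨m, hmS, hEm⟩ := hm
  obtain ⟨hm0, a, d, ha, hd, hmd⟩ := G1_closure S hS m hmS
  have hgO : ∀ (g : K ≃ₐ[F] K) (z : O), g (algebraMap O K z) = algebraMap O K z := by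
    intro g z
    rw [IsScalarTower.algebraMap_apply O F K z, AlgEquiv.commutes]
  have hpm : ∀ g : K ≃ₐ[F] K, ∃ ε : ℤ, g m = (ε : K) * m := by
    intro g
    have h1 : (g m) ^ 2 = m ^ 2 := by
      rw [← map_pow, hmd, map_mul, map_pow, hgO, hgO]
    rcases sq_eq_sq_iff_eq_or_eq_neg.mp h1 with h2 | h2
    · exact ⟨1, by rw [h2, Int.cast_one, one_mul]⟩
    · exact ⟨-1, by rw [h2, Int.cast_neg, Int.cast_one]; ring⟩
  choose ε hε using hpm
  -- `E m = c m`
  have hEm2 : E m = ((∑ g : K ≃ₐ[F] K, ((χ g : ℤˣ) : ℤ) * ε g : ℤ) : K) * m := by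
    rw [hE, Int.cast_sum, Finset.sum_mul]
    refine Finset.sum_congr rfl fun g _ => ?_
    rw [hε g]
    push_cast
    ring
  -- `h (E m) = χ h * E m`
  have hEm3 : ∀ h : K ≃ₐ[F] K, h (E m) = (((χ h : ℤˣ) : ℤ) : K) * E m := by
    intro h
    rw [hE, map_sum, Finset.mul_sum]
    refine Fintype.sum_equiv (Equiv.mulLeft h) _ _ fun g => ?_
    have h2 : ((χ h : ℤˣ) : ℤ) * ((χ h : ℤˣ) : ℤ) = 1 := by
      rw [← Units.val_mul, Int.units_mul_self, Units.val_one]
    have h3 : (((χ h : ℤˣ) : ℤ) : K) * (((χ h : ℤˣ) : ℤ) : K) = 1 := by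
      rw [← Int.cast_mul, h2, Int.cast_one]
    rw [Equiv.coe_mulLeft, map_mul, map_mul, map_intCast, Units.val_mul, Int.cast_mul]
    have h4 : (h * g) m = h (g m) := rfl
    rw [h4]
    linear_combination (-(((χ g : ℤˣ) : ℤ) : K) * h (g m)) * h3
  set c : ℤ := ∑ g : K ≃ₐ[F] K, ((χ g : ℤˣ) : ℤ) * ε g with hc
  have hc0 : (c : K) ≠ 0 := by
    intro h0
    rw [hEm2, h0, zero_mul] at hEm
    exact hEm rfl
  have hgm : ∀ g : K ≃ₐ[F] K, g m = (((χ g : ℤˣ) : ℤ) : K) * m := by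
    intro g
    have h1 := hEm3 g
    rw [hEm2, map_mul, map_intCast] at h1
    refine mul_left_cancel₀ hc0 ?_
    rw [h1]
    ring
  have hdK : algebraMap O K d ≠ 0 := by
    intro h0
    exact hd (hinj (by rw [h0, map_zero]))
  refine ⟨a, m / algebraMap O K d, ha, div_ne_zero hm0 hdK, ?_, fun g => ?_⟩
  · rw [div_pow, hmd, mul_div_cancel_right₀ _ (pow_ne_zero 2 hdK)]
  · rw [map_div₀, hgm, hgO, mul_div_assoc]

end H55B
end

-- from Lib.H55B.H5
section

open NumberField IsDedekindDomain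

namespace H55B

/-! Chunk H5: the prime 2.
Sym a 2 = jacobiSym 2 (Nm a): for P of prime norm l, sym P 2 = (2/l) (H1.sym_split with c = 2, d = 0, or
directly); for P = (q) inert sym P 2 = (2/q)^2 = 1 = J(2|q^2) (sym_inert, Nm 2 = 4). a = b^2 mod 4, b odd, so
a = b^2 (1 + 4t) mod 8 for some t = t0 + t1 om and Nm a = 1 + 4 Tr t = 1 + 4 t1 mod 8 (squares of odd norms are
1 mod 8; Tr t = 2 t0 - t1). So Sym a 2 = 1 iff t1 is even iff t = 0 or 1 mod 2. t = 0: a is a square mod 8.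
t = 1: 5 = (1 + 2 om)^2 mod 8 ((1 + 2 om)^2 = -3). Conversely a = y^2 mod 8 gives Nm a = (Nm y)^2 = 1 mod 8.
Sym a (-2) = Sym a (-1) Sym a 2, Sym_neg_one. -/

private lemma H5_sym_two (v : HeightOneSpectrum O) (h3 : (3 : O) ∉ v.asIdeal)
    (h2 : (2 : O) ∉ v.asIdeal) : sym v 2 = jacobiSym 2 (Ideal.absNorm v.asIdeal) := by
  rcases prime_types v h3 with ⟨l, hl, hl3, hN⟩ | ⟨q, hq, hq3, hv⟩
  · have := Fact.mk hl
    obtain ⟨a, b, hab⟩ := exists_repr (gen v)
    have hv := (gen_spec v h3).1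
    have e1 := H3_absNorm hv hab
    rw [hN] at e1
    have h := sym_split v a b l hl3 (by rw [hv, hab]) e1 2 0
    have e3 : (2 : O) = ((2 : ℤ) : O) + ((0 : ℤ) : O) * om := by push_cast; ring
    rw [e3, h, jacobiSym.legendreSym.to_jacobiSym, jacobiSym.legendreSym.to_jacobiSym, mul_zero,
      sub_zero, mul_comm b 2, jacobiSym.mul_left, mul_assoc, H3_sq_one hl e1, mul_one, hN]
  · have := Fact.mk hq
    have hq2 : q ≠ 2 := by
      rintro rfl
      apply h2
      rw [hv]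
      exact_mod_cast Ideal.mem_span_singleton_self _
    have hN : Ideal.absNorm v.asIdeal = q ^ 2 := by
      have e2 : (q : O) = ((q : ℤ) : O) + ((0 : ℤ) : O) * om := by push_cast; ring
      have e1 := H3_absNorm hv e2
      have e4 : ((Ideal.absNorm v.asIdeal : ℕ) : ℤ) = ((q ^ 2 : ℕ) : ℤ) := by
        rw [e1]; push_cast; ring
      exact_mod_cast e4
    have hN2 : (Nm (2 : O) : ℤ) = 2 * 2 := by
      have h := Nm_repr 2 0
      have h2 : ((2 : ℤ) : O) + ((0 : ℤ) : O) * om = 2 := by push_cast; ring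
      rw [h2] at h
      rw [h]; norm_num
    rw [sym_inert v q hq2 (by omega) hv, jacobiSym.legendreSym.to_jacobiSym, hN2,
      jacobiSym.mul_left, hN, jacobiSym.pow_right, pow_two]

private lemma H5_Sym_prime_mul {p a : O} (x : O) (ha : a ≠ 0) (hpa : ¬ p ∣ a)
    (v : HeightOneSpectrum O) (hv : v.asIdeal = Ideal.span {p}) :
    Sym (p * a) x = sym v x * Sym a x := by
  have hset : {w : HeightOneSpectrum O | p * a ∈ w.asIdeal} =
      insert v {w : HeightOneSpectrum O | a ∈ w.asIdeal} := by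
    ext w
    simp only [Set.mem_ofPred_eq, Set.mem_insert_iff]
    constructor
    · intro h
      rcases w.isPrime.mem_or_mem h with h | h
      · left
        have hle : v.asIdeal ≤ w.asIdeal := by
          rw [hv, Ideal.span_singleton_le_iff_mem]
          exact h
        have := v.isMaximal.eq_of_le w.isPrime.ne_top hle
        exact (HeightOneSpectrum.ext this).symm
      · right; exact h
    · rintro (h | h)
      · subst h
        rw [hv]
        exact Ideal.mul_mem_right _ _ (Ideal.mem_span_singleton_self p)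
      · exact Ideal.mul_mem_left _ _ h
  have hnot : v ∉ {w : HeightOneSpectrum O | a ∈ w.asIdeal} := by
    intro h
    simp only [Set.mem_ofPred_eq] at h
    rw [hv, Ideal.mem_span_singleton] at h
    exact hpa h
  have h1 : Sym (p * a) x = ∏ᶠ w ∈ {w : HeightOneSpectrum O | p * a ∈ w.asIdeal}, sym w x := rfl
  have h2 : Sym a x = ∏ᶠ w ∈ {w : HeightOneSpectrum O | a ∈ w.asIdeal}, sym w x := rfl
  rw [h1, hset, finprod_mem_insert _ hnot (finite_dvd ha), ← h2]

private lemma H5_Sym_two (a : O) : Squarefree a → IsCoprime a 2 → IsCoprime a 3 →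
    Sym a 2 = jacobiSym 2 (Nm a) := by
  refine UniqueFactorizationMonoid.induction_on_prime a ?_ ?_ ?_
  · intro h
    exact absurd h not_squarefree_zero
  · intro x hx _ _ _
    rw [Sym_unit hx, Nm_eq_one.mpr hx, jacobiSym.one_right]
  · intro a p ha hp ih hsq h2 h3
    have hpa : ¬ p ∣ a := by
      intro h
      have := hsq p (mul_dvd_mul_left p h)
      exact hp.not_unit this
    have hpI : (Ideal.span {p}).IsPrime := (Ideal.span_singleton_prime hp.ne_zero).mpr hp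
    have hpb : Ideal.span {p} ≠ ⊥ := by
      rw [Ne, Ideal.span_singleton_eq_bot]; exact hp.ne_zero
    let v : HeightOneSpectrum O := ⟨Ideal.span {p}, hpI, hpb⟩
    have hv : v.asIdeal = Ideal.span {p} := rfl
    have hv2 : (2 : O) ∉ v.asIdeal := by
      rw [hv, Ideal.mem_span_singleton]
      intro h
      have h4 : IsCoprime p 2 := h2.of_mul_left_left
      exact hp.not_unit (h4.isUnit_of_dvd' dvd_rfl h)
    have hv3 : (3 : O) ∉ v.asIdeal := by
      rw [hv, Ideal.mem_span_singleton]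
      intro h
      have h4 : IsCoprime p 3 := h3.of_mul_left_left
      exact hp.not_unit (h4.isUnit_of_dvd' dvd_rfl h)
    have hNp : Ideal.absNorm v.asIdeal = Nm p := rfl
    have hp0 : Nm p ≠ 0 := fun h => hp.ne_zero (Nm_eq_zero.mp h)
    have ha0 : Nm a ≠ 0 := fun h => ha (Nm_eq_zero.mp h)
    rw [H5_Sym_prime_mul 2 ha hpa v hv, H5_sym_two v hv3 hv2,
      ih (hsq.squarefree_of_dvd (Dvd.intro_left _ rfl)) h2.of_mul_left_right h3.of_mul_left_right,
      Nm_mul, jacobiSym.mul_right' 2 hp0 ha0, hNp]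

private lemma H5_Nm_odd {a : O} (h : IsCoprime a 2) : Odd (Nm a) := by
  rw [← Nat.not_even_iff_odd]
  intro he
  have h1 : (2 : O) ∣ a * cj a := by
    rw [mul_cj]
    obtain ⟨k, hk⟩ := he.two_dvd
    exact ⟨(k : O), by rw [hk]; push_cast; ring⟩
  have h2 : (2 : O) ∣ a := by
    rcases two_prime.dvd_or_dvd h1 with h | h
    · exact h
    · obtain ⟨z, hz⟩ := h
      refine ⟨cj z, ?_⟩
      have := congrArg cj hz
      rw [cj_cj, map_mul, map_ofNat] at this
      exact this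
  exact two_prime.not_unit (h.isUnit_of_dvd' h2 dvd_rfl)

private lemma H5_Nm_mod (x y : O) : ∃ k : ℤ, (Nm (x + 8 * y) : ℤ) = Nm x + 8 * k := by
  obtain ⟨a, b, rfl⟩ := exists_repr x
  obtain ⟨c, d, rfl⟩ := exists_repr y
  have e1 : (a : O) + b * om + 8 * (c + d * om) = ((a + 8 * c : ℤ) : O) + ((b + 8 * d : ℤ) : O) * om := by
    push_cast; ring
  rw [e1, Nm_repr, Nm_repr]
  exact ⟨2 * a * c + 8 * c ^ 2 - a * d - b * c - 8 * c * d + 2 * b * d + 8 * d ^ 2, by ring⟩

private lemma H5_sq_mod {n : ℕ} (h : Odd n) : ∃ k : ℤ, (n : ℤ) ^ 2 = 1 + 8 * k := by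
  obtain ⟨m, hm⟩ := h
  obtain ⟨j, hj⟩ := (Int.even_mul_succ_self (m : ℤ)).two_dvd
  refine ⟨j, ?_⟩
  rw [hm]
  push_cast
  linear_combination 4 * hj

theorem Sym_neg_two {a : O} (ha : Adm a) : Sym a (-2) = 1 ↔ ∃ y : O, (8 : O) ∣ a - y ^ 2 := by
  have ha0 : a ≠ 0 := ha.1.ne_zero
  have hodd := H5_Nm_odd ha.odd
  have h1 : Sym a (-2) = ZMod.χ₈ (Nm a : ℕ) := by
    have : (-2 : O) = (-1) * 2 := by ring
    rw [this, Sym_mul ha0, Sym_neg_one ha, one_mul, H5_Sym_two a ha.1 ha.odd ha.coprime3,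
      jacobiSym.at_two hodd]
  have hχ : ZMod.χ₈ (Nm a : ℕ) = 1 ↔ (Nm a % 8 = 1 ∨ Nm a % 8 = 7) := by
    rw [ZMod.χ₈_nat_eq_if_mod_eight]
    have : Nm a % 2 = 1 := Nat.odd_iff.mp hodd
    rw [if_neg (by omega)]
    split_ifs with h
    · simp [h]
    · simp [h]
  rw [h1, hχ]
  constructor
  · intro hN
    obtain ⟨b, d, hbd⟩ := ha.2.1
    have hb2 : IsCoprime b 2 := by
      have h2 : IsCoprime (b ^ 2) 2 := by
        have e1 : a = b ^ 2 + 2 * (2 * d) := by linear_combination hbd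
        have := ha.odd
        rw [e1] at this
        exact IsCoprime.of_add_mul_left_left this
      exact (IsCoprime.pow_left_iff (by norm_num)).mp h2
    have hb8 : IsCoprime (b ^ 2) 8 := by
      have : (8 : O) = 2 ^ 3 := by norm_num
      rw [this]
      exact hb2.pow
    obtain ⟨u, w, huw⟩ := hb8
    set t := u * d with ht
    have e2 : a = b ^ 2 * (1 + 4 * t) + 8 * (4 * d * w) := by
      rw [ht]
      linear_combination hbd - 4 * d * huw
    obtain ⟨t0, t1, ht'⟩ := exists_repr t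
    have e3 : ((1 : O) + 4 * t) = ((1 + 4 * t0 : ℤ) : O) + ((4 * t1 : ℤ) : O) * om := by
      rw [ht']; push_cast; ring
    have e4 : (Nm ((1 : O) + 4 * t) : ℤ) = 1 - 4 * t1 + 8 * (t0 + 2 * t0 ^ 2 - 2 * t0 * t1 + 2 * t1 ^ 2) := by
      rw [e3, Nm_repr]; ring
    obtain ⟨k1, hk1⟩ := H5_Nm_mod (b ^ 2 * (1 + 4 * t)) (4 * d * w)
    rw [← e2, Nm_mul, pow_two, Nm_mul] at hk1
    obtain ⟨k2, hk2⟩ := H5_sq_mod (H5_Nm_odd hb2)
    push_cast at hk1
    rw [← pow_two, hk2, e4] at hk1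
    have ht1 : Even t1 := by
      rw [Int.even_iff]
      set A := (t0 + 2 * t0 ^ 2 - 2 * t0 * t1 + 2 * t1 ^ 2) with hA
      have e5 : (Nm a : ℤ) = 1 - 4 * t1 + 8 * (A + k2 * (1 - 4 * t1 + 8 * A) + k1) := by
        rw [hk1]; ring
      omega
    obtain ⟨r, hr⟩ := ht1
    rcases Int.even_or_odd t0 with h0 | h0
    · obtain ⟨r0, hr0⟩ := h0
      refine ⟨b, b ^ 2 * (r0 + r * om) + 4 * d * w, ?_⟩
      rw [hr, hr0] at ht'
      push_cast at ht'
      linear_combination e2 + 4 * b ^ 2 * ht'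
    · obtain ⟨r0, hr0⟩ := h0
      refine ⟨b * (1 + 2 * om), b ^ 2 * (1 + r0 + r * om) + 4 * d * w, ?_⟩
      rw [hr, hr0] at ht'
      push_cast at ht'
      linear_combination e2 + 4 * b ^ 2 * ht' - 4 * b ^ 2 * om_rel
  · rintro ⟨y, z, hyz⟩
    left
    have e1 : a = y ^ 2 + 8 * z := by linear_combination hyz
    obtain ⟨k1, hk1⟩ := H5_Nm_mod (y ^ 2) z
    rw [← e1, pow_two, Nm_mul] at hk1
    have hy2 : IsCoprime y 2 := by
      have h2 : IsCoprime (y ^ 2) 2 := by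
        have e1 : a = y ^ 2 + 2 * (4 * z) := by linear_combination hyz
        have := ha.odd
        rw [e1] at this
        exact IsCoprime.of_add_mul_left_left this
      exact (IsCoprime.pow_left_iff (by norm_num)).mp h2
    obtain ⟨k2, hk2⟩ := H5_sq_mod (H5_Nm_odd hy2)
    push_cast at hk1
    rw [← pow_two, hk2] at hk1
    omega

end H55B
end

-- from Lib.H55N.B11
section

open NumberField IsDedekindDomain

namespace H55N

open H55B H55C

variable {K : Type} [Field K] [NumberField K] [Algebra F K] {m : ℕ}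
  {P ι : Type} [Fintype ι] [DecidableEq ι]

/-! Chunk B11 (M). The cutoff functions. cut = (1/h_R)^(m+2), h_R = 1 + q(x)/R^2, q(x) = sum_i |sum_j B_ij σ_j x|^2.
c sz^2 <= q(x) <= C sz^2 on Y: B is invertible, so |σ x| <= C |B σ x|, and sz_le. h_R is SV uniformly in R >= 1 (|y-w|^2 <= 2|y|^2+2|w|^2 for the vectors
B σ x). q is Good with weight sz^2 (products of additive functions with their conjugates, as in B9), so q/R^2 is Good with weight sz^2/R^2 <= C h_R, so h_R is Good with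
weight h_R (Good.add with the constant 1, Good.mono); Good.inv, Good.pow, Good.mono (h_R >= 1).
cut_le: 0 <= cut <= 1, and for R >= 1 cut <= C_R sz^(-2(m+2)) on Y. cut_tendsto: for fixed x, cut -> 1 as R -> infinity. -/

/-- The linear forms. -/
noncomputable def b11L (D : Ctx K m) (B : Matrix (Fin (m + 1)) (Fin (m + 1)) ℂ) (i : Fin (m + 1))
    (x : 𝓞 K) : ℂ := ∑ j, B i j * D.σ j x

/-- The quadratic form. -/
noncomputable def b11q (D : Ctx K m) (B : Matrix (Fin (m + 1)) (Fin (m + 1)) ℂ) (x : 𝓞 K) : ℝ :=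
  ∑ i, ‖b11L D B i x‖ ^ 2

theorem b11q_nonneg (D : Ctx K m) (B : Matrix (Fin (m + 1)) (Fin (m + 1)) ℂ) (x : 𝓞 K) :
    0 ≤ b11q D B x := Finset.sum_nonneg fun _ _ => by positivity

theorem b11_cut (D : Ctx K m) (B : Matrix (Fin (m + 1)) (Fin (m + 1)) ℂ) (R : ℝ) (x : 𝓞 K) :
    D.cut B R x = (R ^ 2 / (R ^ 2 + b11q D B x)) ^ (m + 2) := rfl

theorem b11_low (D : Ctx K m) (hE : Emb D.σ) (B : Matrix (Fin (m + 1)) (Fin (m + 1)) ℂ)
    (hB : B.det ≠ 0) : ∃ c : ℝ, 0 < c ∧ ∀ x : 𝓞 K, x ≠ 0 → c * D.sz x ^ 2 ≤ b11q D B x := by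
  set M : ℝ := ∑ j, ∑ i, ‖B⁻¹ j i‖ with hM
  have hM0 : 0 ≤ M := Finset.sum_nonneg fun _ _ => Finset.sum_nonneg fun _ _ => norm_nonneg _
  have hden : 0 < 4 * M ^ 2 * (m + 1) + 1 := by positivity
  refine ⟨(4 * M ^ 2 * (m + 1) + 1)⁻¹, inv_pos.2 hden, fun x hx => ?_⟩
  obtain ⟨h1, h2⟩ := sz_le D hE x hx
  have hu : IsUnit B.det := isUnit_iff_ne_zero.2 hB
  have h3 : ∀ j, D.σ j x = ∑ i, B⁻¹ j i * b11L D B i x := by
    intro j
    have e1 : (B⁻¹ * B).mulVec (fun j => D.σ j x) = fun j => D.σ j x := by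
      rw [Matrix.nonsing_inv_mul _ hu, Matrix.one_mulVec]
    rw [← Matrix.mulVec_mulVec] at e1
    have e2 := congrFun e1 j
    rw [← e2]
    rfl
  set S : ℝ := ∑ i, ‖b11L D B i x‖ with hS
  have hS0 : 0 ≤ S := Finset.sum_nonneg fun _ _ => norm_nonneg _
  have h4 : ∑ j, ‖D.σ j x‖ ≤ M * S := by
    rw [hM, Finset.sum_mul]
    refine Finset.sum_le_sum fun j _ => ?_
    rw [h3 j, Finset.sum_mul]
    refine (norm_sum_le _ _).trans (Finset.sum_le_sum fun i _ => ?_)
    rw [norm_mul]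
    exact mul_le_mul_of_nonneg_left
      (Finset.single_le_sum (f := fun i => ‖b11L D B i x‖) (fun _ _ => norm_nonneg _)
        (Finset.mem_univ i)) (norm_nonneg _)
  have h5 : S ^ 2 ≤ (m + 1) * b11q D B x := by
    have := sq_sum_le_card_mul_sum_sq (s := (Finset.univ : Finset (Fin (m + 1))))
      (f := fun i => ‖b11L D B i x‖)
    rw [Finset.card_univ, Fintype.card_fin] at this
    push_cast at this
    exact this
  have h6 : D.sz x ≤ 2 * (M * S) := by linarith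
  have h7 : D.sz x ^ 2 ≤ (2 * (M * S)) ^ 2 := pow_le_pow_left₀ (D.sz_pos x).le h6 2
  have h8 : (2 * (M * S)) ^ 2 ≤ 4 * M ^ 2 * ((m + 1) * b11q D B x) := by
    have : (2 * (M * S)) ^ 2 = 4 * M ^ 2 * S ^ 2 := by ring
    rw [this]
    exact mul_le_mul_of_nonneg_left h5 (by positivity)
  have h9 := b11q_nonneg D B x
  rw [inv_mul_le_iff₀ hden]
  nlinarith

theorem b11_scale {M' : Type} [AddCommGroup M'] {X : Set M'} {w : ι → M'} {γ : ι → M' → ℝ}
    {β : P → M' → ℝ} {h : P → M' → ℂ} (h1 : Good X w γ β h) (a : P → ℝ) (ha : ∀ q, 0 ≤ a q) :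
    Good X w γ (fun q x => a q * β q x) (fun q x => (a q : ℂ) * h q x) := by
  obtain ⟨C, hC⟩ := h1
  refine ⟨C, fun q S x hx => ?_⟩
  rw [dif_const_mul, norm_mul, Complex.norm_real, Real.norm_eq_abs, abs_of_nonneg (ha q)]
  have := mul_le_mul_of_nonneg_left (hC q S x hx) (ha q)
  calc a q * ‖Dif w S (h q) x‖ ≤ a q * (C * β q x * ∏ i ∈ S, γ i x) := this
    _ = C * (a q * β q x) * ∏ i ∈ S, γ i x := by ring

theorem b11_goodL (D : Ctx K m) (w : ι → 𝓞 K) (Y : Set (𝓞 K))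
    (B : Matrix (Fin (m + 1)) (Fin (m + 1)) ℂ) (i : Fin (m + 1)) :
    Good Y w D.gs (fun (_ : P) x => D.sz x) (fun _ x => b11L D B i x) := by
  have hg : ∀ (i : ι), ∀ x ∈ Y, 0 ≤ D.gs i x := fun _ x _ => (inv_pos.mpr (D.sz_pos x)).le
  unfold b11L
  exact Good.sum (P := P) (Finset.univ : Finset (Fin (m + 1))) (fun j _ (x : 𝓞 K) => B i j * D.σ j x)
    (fun j _ => Good.smul (good_sig D w Y j) hg (fun _ x _ => (D.sz_pos x).le) (fun _ => B i j)
      ‖B i j‖ (fun _ => le_rfl)) hg (fun _ x _ => (D.sz_pos x).le)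

theorem b11_goodq (D : Ctx K m) (w : ι → 𝓞 K) (Y : Set (𝓞 K)) (hY : ∀ x ∈ Y, ∀ i, x - w i ∈ Y)
    (B : Matrix (Fin (m + 1)) (Fin (m + 1)) ℂ) :
    Good Y w D.gs (fun (_ : P) x => D.sz x ^ 2) (fun _ x => (b11q D B x : ℂ)) := by
  have hg : ∀ (i : ι), ∀ x ∈ Y, 0 ≤ D.gs i x := fun _ x _ => (inv_pos.mpr (D.sz_pos x)).le
  have h1 : ∀ i : Fin (m + 1), Good Y w D.gs (fun (_ : P) x => D.sz x ^ 2)
      (fun (_ : P) (x : 𝓞 K) => b11L D B i x * (starRingEnd ℂ) (b11L D B i x)) := by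
    intro i
    have h2 := Good.mul hY (sv_gs D w Y) (sv_sz (P := P) D w Y) (sv_sz (P := P) D w Y)
      (b11_goodL D w Y B i) (Good.conj (b11_goodL D w Y B i))
    have h4 : (fun (_ : P) (x : 𝓞 K) => D.sz x ^ 2) = fun _ x => D.sz x * D.sz x := by
      funext _ x
      ring
    rw [h4]
    exact h2
  have h5 := Good.sum (Finset.univ : Finset (Fin (m + 1))) _ (fun i _ => h1 i) hg
    (fun _ x _ => by positivity)
  have h6 : (fun (_ : P) (x : 𝓞 K) => (b11q D B x : ℂ)) =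
      fun (_ : P) (x : 𝓞 K) => ∑ i, b11L D B i x * (starRingEnd ℂ) (b11L D B i x) := by
    funext q x
    unfold b11q
    rw [Complex.ofReal_sum]
    refine Finset.sum_congr rfl fun i _ => ?_
    rw [Complex.mul_conj, Complex.normSq_eq_norm_sq]
  rw [h6]
  exact h5

/-- The slowly varying weight. -/
noncomputable def b11b (D : Ctx K m) (R : P → ℝ) (q : P) (x : 𝓞 K) : ℝ :=
  1 + ((R q) ^ 2)⁻¹ * D.sz x ^ 2

theorem b11_sv (D : Ctx K m) (w : ι → 𝓞 K) (Y : Set (𝓞 K)) (hY : ∀ x ∈ Y, ∀ i, x - w i ∈ Y)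
    (R : P → ℝ) : SV Y w (b11b D R) := by
  obtain ⟨C, hC, h⟩ := B8_one hY (SV.pow hY (sv_sz (P := P) D w Y) 2)
  refine ⟨fun q x _ => by unfold b11b; have := D.sz_pos x; positivity, C, fun q x hx i => ?_⟩
  obtain ⟨h1, h2⟩ := h q x hx i
  have hR : 0 ≤ ((R q) ^ 2)⁻¹ := by positivity
  unfold b11b
  constructor
  · have := mul_le_mul_of_nonneg_left h1 hR
    nlinarith
  · have := mul_le_mul_of_nonneg_left h2 hR
    nlinarith

theorem good_cut (D : Ctx K m) (hE : Emb D.σ) (w : ι → 𝓞 K) (Y : Set (𝓞 K))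
    (hY : ∀ x ∈ Y, ∀ i, x - w i ∈ Y) (h0 : (0 : 𝓞 K) ∉ Y)
    (B : Matrix (Fin (m + 1)) (Fin (m + 1)) ℂ) (hB : B.det ≠ 0) (R : P → ℝ) (hR : ∀ q, 1 ≤ R q) :
    Good Y w D.gs (fun (_ : P) _ => (1 : ℝ)) (fun q x => (D.cut B (R q) x : ℂ)) := by
  have hg : ∀ (i : ι), ∀ x ∈ Y, 0 ≤ D.gs i x := fun _ x _ => (inv_pos.mpr (D.sz_pos x)).le
  have hb0 : ∀ q, ∀ x ∈ Y, 0 ≤ b11b D R q x := fun q x _ => by unfold b11b; positivity
  have h1 : Good Y w D.gs (b11b D R) (fun (_ : P) _ => (1 : ℂ)) :=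
    Good.const hb0 hg (fun _ => 1) 1 (fun q x _ => by
      unfold b11b
      rw [norm_one, one_mul]
      have : 0 ≤ ((R q) ^ 2)⁻¹ * D.sz x ^ 2 := by positivity
      linarith)
  have h2 := b11_scale (b11_goodq (P := P) D w Y hY B) (fun q => ((R q) ^ 2)⁻¹)
    (fun q => by positivity)
  have h3 : Good Y w D.gs (b11b D R)
      (fun (q : P) x => ((((R q) ^ 2)⁻¹ : ℝ) : ℂ) * (b11q D B x : ℂ)) := by
    refine Good.mono h2 hg 1 zero_le_one (fun q x _ => ⟨by positivity, ?_⟩) (fun i x _ => by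
      rw [one_mul])
    unfold b11b
    linarith
  have h4 := Good.add h1 h3
  obtain ⟨c, hc, hlow⟩ := b11_low D hE B hB
  have h5 := Good.inv hY (sv_gs D w Y) (b11_sv D w Y hY R) h4 (min 1 c) (lt_min one_pos hc) (by
    intro q x hx
    have hx0 : x ≠ 0 := by
      rintro rfl
      exact h0 hx
    have e1 := hlow x hx0
    have hR' : 0 ≤ ((R q) ^ 2)⁻¹ := by positivity
    have e2 : ‖(1 : ℂ) + ((((R q) ^ 2)⁻¹ : ℝ) : ℂ) * (b11q D B x : ℂ)‖ =
        1 + ((R q) ^ 2)⁻¹ * b11q D B x := by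
      rw [← Complex.ofReal_one, ← Complex.ofReal_mul, ← Complex.ofReal_add, Complex.norm_real,
        Real.norm_eq_abs, abs_of_nonneg]
      have := b11q_nonneg D B x
      positivity
    rw [e2]
    unfold b11b
    have e3 : min 1 c ≤ 1 := min_le_left _ _
    have e4 : min 1 c ≤ c := min_le_right _ _
    have e5 : min 1 c * D.sz x ^ 2 ≤ b11q D B x :=
      (mul_le_mul_of_nonneg_right e4 (by positivity)).trans e1
    have e6 := mul_le_mul_of_nonneg_left e5 hR'
    nlinarith)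
  have h6 := Good.pow hY (sv_gs D w Y) (SV.inv hY (b11_sv D w Y hY R)) h5 (m + 2)
  have h7 : (fun (q : P) (x : 𝓞 K) => (D.cut B (R q) x : ℂ)) = fun (q : P) (x : 𝓞 K) =>
      ((1 + ((((R q) ^ 2)⁻¹ : ℝ) : ℂ) * (b11q D B x : ℂ))⁻¹) ^ (m + 2) := by
    funext q x
    rw [b11_cut]
    push_cast
    congr 1
    have hq := b11q_nonneg D B x
    have hR2 : (0 : ℝ) < (R q) ^ 2 := by have := hR q; positivity
    have e1 : (1 + ((R q) ^ 2)⁻¹ * b11q D B x) ≠ 0 := by positivity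
    have e2 : (R q) ^ 2 + b11q D B x ≠ 0 := by positivity
    have e3' : (R q) ^ 2 + b11q D B x = (R q) ^ 2 * (1 + ((R q) ^ 2)⁻¹ * b11q D B x) := by
      rw [mul_add, mul_one, mul_inv_cancel_left₀ hR2.ne']
    have e3 : (R q) ^ 2 / ((R q) ^ 2 + b11q D B x) = (1 + ((R q) ^ 2)⁻¹ * b11q D B x)⁻¹ := by
      rw [e3', div_mul_cancel_left₀ hR2.ne']
    have e4 := congrArg (fun r : ℝ => (r : ℂ)) e3
    push_cast at e4
    exact e4
  rw [h7]
  refine Good.mono h6 hg 1 zero_le_one (fun q x _ => ⟨?_, ?_⟩) (fun i x _ => by rw [one_mul])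
  · have : 0 ≤ b11b D R q x := by unfold b11b; positivity
    positivity
  · rw [one_mul]
    apply pow_le_one₀
    · exact inv_nonneg.2 (by unfold b11b; positivity)
    · apply inv_le_one_of_one_le₀
      unfold b11b
      have : 0 ≤ ((R q) ^ 2)⁻¹ * D.sz x ^ 2 := by positivity
      linarith

theorem cut_le (D : Ctx K m) (hE : Emb D.σ) (B : Matrix (Fin (m + 1)) (Fin (m + 1)) ℂ)
    (hB : B.det ≠ 0) (R : ℝ) (hR : 1 ≤ R) : ∃ C : ℝ, ∀ x : 𝓞 K, x ≠ 0 →
      |D.cut B R x| ≤ C * D.sz x ^ (-(2 * (m + 2) : ℝ)) := by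
  obtain ⟨c, hc, hlow⟩ := b11_low D hE B hB
  refine ⟨(R ^ 2 / c) ^ (m + 2), fun x hx => ?_⟩
  have h1 := hlow x hx
  have hs := D.sz_pos x
  have hq := b11q_nonneg D B x
  rw [b11_cut, abs_of_nonneg (by positivity)]
  have e1 : D.sz x ^ (-(2 * (m + 2) : ℝ)) = ((D.sz x ^ 2)⁻¹) ^ (m + 2) := by
    rw [Real.rpow_neg hs.le, inv_pow, ← pow_mul, ← Real.rpow_natCast]
    push_cast
    rfl
  rw [e1, ← mul_pow]
  apply pow_le_pow_left₀ (by positivity)
  have e2 : R ^ 2 / c * (D.sz x ^ 2)⁻¹ = R ^ 2 / (c * D.sz x ^ 2) := by field_simp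
  rw [e2]
  apply div_le_div_of_nonneg_left (by positivity) (by positivity)
  nlinarith [sq_nonneg R]

theorem cut_tendsto (D : Ctx K m) (B : Matrix (Fin (m + 1)) (Fin (m + 1)) ℂ) (x : 𝓞 K) :
    Filter.Tendsto (fun R : ℝ => (D.cut B R x : ℂ)) Filter.atTop (nhds 1) := by
  have h1 : Filter.Tendsto (fun R : ℝ => R ^ 2 + b11q D B x) Filter.atTop Filter.atTop :=
    Filter.tendsto_atTop_add_const_right _ _ (Filter.tendsto_pow_atTop (by norm_num))
  have h2 : Filter.Tendsto (fun R : ℝ => b11q D B x / (R ^ 2 + b11q D B x)) Filter.atTop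
      (nhds 0) := tendsto_const_nhds.div_atTop h1
  have h3 : Filter.Tendsto (fun R : ℝ => (1 - b11q D B x / (R ^ 2 + b11q D B x)) ^ (m + 2))
      Filter.atTop (nhds ((1 - 0) ^ (m + 2))) := (tendsto_const_nhds.sub h2).pow _
  rw [sub_zero, one_pow] at h3
  have h4 : Filter.Tendsto (fun R : ℝ => D.cut B R x) Filter.atTop (nhds 1) := by
    refine h3.congr' ?_
    filter_upwards [Filter.eventually_ge_atTop 1] with R hR
    rw [b11_cut]
    congr 1
    have hq := b11q_nonneg D B x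
    have : R ^ 2 + b11q D B x ≠ 0 := by positivity
    field_simp
    ring
  have h5 := (Complex.continuous_ofReal.tendsto 1).comp h4
  rw [Complex.ofReal_one] at h5
  exact h5

end H55N
end
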