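import Mathlib
import Pool.Agent.Lib.H1M.PP.D_H55C_Defs
import Pool.Agent.Lib.H1M.PP.M001
import Pool.Agent.Lib.H1M.PP.M016
import Pool.Agent.Lib.H1M.PP.M019
import Pool.Agent.Lib.H1M.PP.M024
import Pool.Agent.Lib.H1M.PP.M028

/-! Merged copies (to shorten the build) of Lib.H55B.G3, Lib.H55B.G4, Lib.H55B.G5, Lib.H55C.A4, Lib.H55N.D3, Lib.H55B.I2, Lib.H55C.B8, Lib.H55N.H5. -/

-- from Lib.H55B.G3
section

open NumberField IsDedekindDomain

namespace H55B

/-! Chunk G3: inertia.
inertia_fix: g s = +- s. If g s = -s and v is not above 2: s is integral, g s - s = -2s in w, so s in w,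
a = s^2 in w, a in v: contradiction. If v is above 2: a = b^2 mod 4, b odd; beta = (b + s)/2 is integral (root
of X^2 - bX + (b^2 - a)/4), g beta - beta = -s in w: same contradiction.
inertia_move: suppose the inertia group I fixes s, a in v. For any character chi with Kummer data (a', s'):
if a' not in v, I fixes s'. If a' in v, then a a' = c d^2 with c admissible and v not dividing c (a, a'
squarefree, so v(a a') = 2), (s s'/d)^2 = c, I fixes s s'/d, hence s'. So all chi are trivial on I,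
I = 1 (G2.dual_sep with the trivial subgroup), so e(w/v) = 1 (Ideal.card_inertia_eq_ramificationIdxIn).
But w(s)^2 = w(a) = exp(-e), so e is even: contradiction. -/

variable {K : Type*} [Field K] [NumberField K] [Algebra F K]

/-- s and (b + s)/2 are algebraic integers. -/
lemma G3_int (a b c : O) (h : a = b ^ 2 + 4 * c) (s : K) (hs : s ^ 2 = algebraMap O K a) :
    ∃ β σ : 𝓞 K, (β : K) = (algebraMap O K b + s) / 2 ∧ (σ : K) = s ∧
      2 * β = algebraMap O (𝓞 K) b + σ ∧ β ^ 2 - algebraMap O (𝓞 K) b * β = algebraMap O (𝓞 K) c ∧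
      σ ^ 2 = algebraMap O (𝓞 K) a := by
  have h2 : (2 : K) ≠ 0 := two_ne_zero
  have hK : algebraMap O K a = algebraMap O K b ^ 2 + 4 * algebraMap O K c := by
    rw [h]
    rw [map_add, map_mul, map_pow, map_ofNat]
  have i1 : IsIntegral O ((algebraMap O K b + s) / 2) := by
    refine ⟨Polynomial.X ^ 2 - Polynomial.C b * Polynomial.X - Polynomial.C c, by monicity!, ?_⟩
    simp only [Polynomial.eval₂_sub, Polynomial.eval₂_pow, Polynomial.eval₂_X, Polynomial.eval₂_mul,
      Polynomial.eval₂_C]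
    field_simp
    linear_combination hs + hK
  have i2 : IsIntegral O s := by
    refine ⟨Polynomial.X ^ 2 - Polynomial.C a, by monicity!, ?_⟩
    simp [hs]
  have j1 : IsIntegral ℤ ((algebraMap O K b + s) / 2) := isIntegral_trans _ i1
  have j2 : IsIntegral ℤ s := isIntegral_trans _ i2
  refine ⟨⟨_, j1⟩, ⟨s, j2⟩, rfl, rfl, ?_, ?_, ?_⟩
  · apply RingOfIntegers.ext
    show 2 * ((algebraMap O K b + s) / 2) = algebraMap O K b + s
    field_simp
  · apply RingOfIntegers.ext
    show ((algebraMap O K b + s) / 2) ^ 2 - algebraMap O K b * ((algebraMap O K b + s) / 2) =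
      algebraMap O K c
    field_simp
    linear_combination hs + hK
  · apply RingOfIntegers.ext
    show s ^ 2 = algebraMap O K a
    exact hs

lemma G3_pm (a : O) (s : K) (hs : s ^ 2 = algebraMap O K a) (g : K ≃ₐ[F] K) : g s = s ∨ g s = -s := by
  have h1 : g (algebraMap O K a) = algebraMap O K a := by
    rw [IsScalarTower.algebraMap_apply O F K, g.commutes]
  have h2 : (g s) ^ 2 = s ^ 2 := by
    rw [← map_pow, hs, h1]
  exact sq_eq_sq_iff_eq_or_eq_neg.1 h2

lemma G3_mem (w : HeightOneSpectrum (𝓞 K)) (v : HeightOneSpectrum O)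
    (hv : v.asIdeal = w.asIdeal.under O) (a : O) (σ : 𝓞 K) (hσ : σ ^ 2 = algebraMap O (𝓞 K) a)
    (hav : a ∉ v.asIdeal) : σ ∉ w.asIdeal := by
  intro h
  apply hav
  rw [hv]
  show algebraMap O (𝓞 K) a ∈ w.asIdeal
  rw [← hσ, sq]
  exact Ideal.mul_mem_left _ _ h

theorem inertia_fix (w : HeightOneSpectrum (𝓞 K)) (v : HeightOneSpectrum O)
    (hv : v.asIdeal = w.asIdeal.under O) (a : O) (ha : Adm a) (s : K) (hs : s ^ 2 = algebraMap O K a)
    (hav : a ∉ v.asIdeal) (g : K ≃ₐ[F] K) (hg : g ∈ w.asIdeal.inertia (K ≃ₐ[F] K)) : g s = s := by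
  rcases G3_pm a s hs g with h | h
  · exact h
  exfalso
  obtain ⟨_, ⟨b, c, hbc⟩, _⟩ := ha
  obtain ⟨β, σ, h1, h2, h3, h4, h5⟩ := G3_int a b c (by linear_combination hbc) s hs
  apply G3_mem w v hv a σ h5 hav
  have h6 : g • β - β = -σ := by
    apply RingOfIntegers.ext
    show g (β : K) - (β : K) = -(σ : K)
    rw [h1, h2, map_div₀, map_add, h, IsScalarTower.algebraMap_apply O F K, g.commutes, map_ofNat]
    ring
  have h7 : g • β - β ∈ w.asIdeal := hg β
  rw [h6, Ideal.neg_mem_iff] at h7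
  exact h7

theorem inertia_move (S : Set K)
    (hS : ∀ s ∈ S, ∃ a : O, Adm a ∧ s ^ 2 = algebraMap O K a) (hgen : Algebra.adjoin F S = ⊤) (w : HeightOneSpectrum (𝓞 K)) (v : HeightOneSpectrum O)
    (hv : v.asIdeal = w.asIdeal.under O) (a : O) (ha : Adm a) (s : K) (hs : s ^ 2 = algebraMap O K a)
    (hav : a ∈ v.asIdeal) : ∃ g ∈ w.asIdeal.inertia (K ≃ₐ[F] K), g s = -s := by
  classical
  by_contra hcon
  push Not at hcon
  have hgal : IsGalois F K := isGalois S hS hgen
  have hG := gal_sq S hS hgen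
  have hvm := v.isMaximal
  have hwm := w.isMaximal
  have hl : w.asIdeal.LiesOver v.asIdeal := ⟨hv⟩
  have hfix : ∀ g ∈ w.asIdeal.inertia (K ≃ₐ[F] K), g s = s := by
    intro g hg
    rcases G3_pm a s hs g with h | h
    · exact h
    · exact absurd h (hcon g hg)
  obtain ⟨⟨p, hp⟩⟩ := IsPrincipalIdealRing.principal v.asIdeal
  have hp' : v.asIdeal = Ideal.span {p} := hp
  have hp0 : p ≠ 0 := by
    rintro rfl
    apply v.ne_bot
    rw [hp']
    simp
  have hpp : Prime p := by
    rw [← Ideal.span_singleton_prime hp0, ← hp']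
    exact v.isPrime
  have hmem : ∀ x : O, x ∈ v.asIdeal ↔ p ∣ x := by
    intro x
    rw [hp', Ideal.mem_span_singleton]
  have hsqf : ∀ x : O, Squarefree x → p ∣ x → ∃ y, x = p * y ∧ ¬ p ∣ y := by
    rintro x hx ⟨y, rfl⟩
    refine ⟨y, rfl, ?_⟩
    rintro ⟨z, rfl⟩
    exact hpp.not_isUnit (hx p ⟨z, by ring⟩)
  have hs0 : s ≠ 0 := by
    rintro rfl
    have h1 : algebraMap O K a = 0 := by
      rw [← hs]
      simp
    have h2 : a = 0 := by
      apply (injective_iff_map_eq_zero (algebraMap O K)).1 _ a h1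
      exact FaithfulSMul.algebraMap_injective O K
    exact ha.1.ne_zero h2
  have hI : w.asIdeal.inertia (K ≃ₐ[F] K) = ⊥ := by
    rw [eq_bot_iff]
    intro g hg
    rw [Subgroup.mem_bot]
    by_contra hg1
    obtain ⟨χ, -, hχ⟩ := dual_sep (K ≃ₐ[F] K) hG ⊥ g (by rwa [Subgroup.mem_bot])
    obtain ⟨a', s', ha', hs0', hs', hact⟩ := kummer S hS hgen χ
    have hgs' : g s' = s' := by
      by_cases hav' : a' ∈ v.asIdeal
      · obtain ⟨c, d, hc, hd, hcd⟩ := Adm_mul ha ha'
        have hpc : c ∉ v.asIdeal := by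
          rw [hmem]
          intro hpc
          obtain ⟨a1, rfl, ha1⟩ := hsqf a ha.1 ((hmem a).1 hav)
          obtain ⟨a1', rfl, ha1'⟩ := hsqf a' ha'.1 ((hmem a').1 hav')
          obtain ⟨c1, rfl, hc1⟩ := hsqf c hc.1 hpc
          have h1 : p * (a1 * a1') = c1 * d ^ 2 := by
            apply mul_left_cancel₀ hp0
            linear_combination hcd
          have h2 : p ∣ c1 * d ^ 2 := ⟨_, h1.symm⟩
          have h3 : p ∣ d := by
            rcases hpp.dvd_or_dvd h2 with h | h
            · exact absurd h hc1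
            · exact hpp.dvd_of_dvd_pow h
          obtain ⟨d1, rfl⟩ := h3
          have h4 : a1 * a1' = p * (c1 * d1 ^ 2) := by
            apply mul_left_cancel₀ hp0
            linear_combination h1
          rcases hpp.dvd_or_dvd ⟨_, h4⟩ with h | h
          · exact ha1 h
          · exact ha1' h
        have hdK : algebraMap O K d ≠ 0 := by
          intro h
          apply hd
          apply (injective_iff_map_eq_zero (algebraMap O K)).1 _ d h
          exact FaithfulSMul.algebraMap_injective O K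
        have ht : (s * s' / algebraMap O K d) ^ 2 = algebraMap O K c := by
          rw [div_pow, mul_pow, hs, hs', ← map_mul, hcd, map_mul, map_pow]
          field_simp
        have h1 := inertia_fix w v hv c hc _ ht hpc g hg
        rw [map_div₀, map_mul, hfix g hg, IsScalarTower.algebraMap_apply O F K, g.commutes,
          ← IsScalarTower.algebraMap_apply O F K] at h1
        field_simp at h1
        exact h1
      · exact inertia_fix w v hv a' ha' s' hs' hav' g hg
    rw [hact g, hχ] at hgs'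
    have h3 : (2 : K) * s' = 0 := by
      have : -s' = s' := by simpa using hgs'
      linear_combination - this
    rcases mul_eq_zero.1 h3 with h4 | h4
    · exact two_ne_zero h4
    · exact hs0' h4
  have hram : v.asIdeal.ramificationIdx' w.asIdeal = 1 := by
    rw [Ideal.ramificationIdx'_eq_ramificationIdx v.asIdeal w.asIdeal v.ne_bot,
      ← Ideal.ramificationIdxIn_eq_ramificationIdx v.asIdeal w.asIdeal (K ≃ₐ[F] K),
      ← Ideal.card_inertia_eq_ramificationIdxIn (G := K ≃ₐ[F] K) v.asIdeal w.asIdeal, hI]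
    simp
  have h4 := HeightOneSpectrum.valuation_liesOver K v w (algebraMap O F a)
  rw [hram, pow_one, HeightOneSpectrum.valuation_of_algebraMap, ← IsScalarTower.algebraMap_apply O F K,
    ← hs, map_pow] at h4
  obtain ⟨a1, rfl, ha1⟩ := hsqf a ha.1 ((hmem a).1 hav)
  have h7 : v.intValuation p = WithZero.exp (-1 : ℤ) :=
    HeightOneSpectrum.intValuation_singleton v hp0 hp'
  have h8 : v.intValuation a1 = 1 := by
    rw [HeightOneSpectrum.intValuation_eq_one_iff, hmem]
    exact ha1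
  rw [map_mul, h7, h8, mul_one] at h4
  have h9 : w.valuation K s ≠ 0 := (Valuation.ne_zero_iff _).2 hs0
  obtain ⟨k, hk⟩ : ∃ k : ℤ, w.valuation K s = WithZero.exp k := ⟨WithZero.log (w.valuation K s), by
    rw [WithZero.exp_log h9]⟩
  rw [hk, ← WithZero.exp_nsmul, WithZero.exp_inj] at h4
  simp at h4
  omega

end H55B
end

-- from Lib.H55B.G4
section

open NumberField IsDedekindDomain

namespace H55B

/-! Chunk G4: Frobenius.
phi s = +- s. v not above 2: phi s = s^N mod w, N = absNorm v, s^N = s a^((N-1)/2) = s sym v a mod w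
(H0.sym_euler), s not in w, 2 not in w, so phi s = sym v a s = Sym a (gen v) s by H4.recip.
v above 2: gen v = -2 (primary generator of (2)), N = 4. beta = (b + s)/2 as in G3, phi beta = beta^4 mod w and
phi beta = (b +- s)/2. If Sym a (-2) = 1, a = y^2 mod 8 (H5), choose b = y: (b^2 - a)/4 = 0 mod 2, so
beta(beta - b) in w, beta mod w is 0 or b, in the image of O/2, beta^4 = beta mod w, and
phi beta - beta in w forces phi s = s (otherwise -s in w, then a in w). If Sym a (-2) = -1 and phi s = s, then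
beta^4 = beta mod w so beta mod w is in the image of O/2 = F_4 (the roots of T^4 - T in the field O_K/w are
the images of the 4 classes of O/2), beta = t mod w, so t^2 - bt + (b^2-a)/4 in w, in v = (2), i.e.
(2t - b)^2 = a mod 8, contradiction with H5. -/

variable {K : Type*} [Field K] [NumberField K] [Algebra F K]

lemma G4_odd_card (v : HeightOneSpectrum O) (h2 : (2 : O) ∉ v.asIdeal) :
    ∃ m : ℕ, Ideal.absNorm v.asIdeal = 2 * m + 1 := by
  have hvm := v.isMaximal
  let : Field (O ⧸ v.asIdeal) := Ideal.Quotient.field _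
  have hfin : Finite (O ⧸ v.asIdeal) := inferInstance
  have hN : Ideal.absNorm v.asIdeal = Nat.card (O ⧸ v.asIdeal) := rfl
  rw [hN]
  rcases Nat.even_or_odd (Nat.card (O ⧸ v.asIdeal)) with h | h
  · exfalso
    have hft : Fintype (O ⧸ v.asIdeal) := Fintype.ofFinite _
    obtain ⟨x, hx⟩ := exists_prime_addOrderOf_dvd_card' (G := O ⧸ v.asIdeal) 2 h.two_dvd
    have h1 : (2 : ℕ) • x = 0 := by
      rw [← hx]
      exact addOrderOf_nsmul_eq_zero x
    have hx0 : x ≠ 0 := by
      rintro rfl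
      simp at hx
    have h3 : (2 : O ⧸ v.asIdeal) * x = 0 := by
      rw [← h1, nsmul_eq_mul]
      norm_num
    rcases mul_eq_zero.1 h3 with h4 | h4
    · apply h2
      rw [← Ideal.Quotient.eq_zero_iff_mem, map_ofNat]
      exact h4
    · exact hx0 h4
  · obtain ⟨m, hm⟩ := h
    exact ⟨m, hm⟩

lemma G4_two (v : HeightOneSpectrum O) (h3 : (3 : O) ∉ v.asIdeal) (h2 : (2 : O) ∈ v.asIdeal) :
    v.asIdeal = Ideal.span {2} ∧ gen v = -2 ∧ Ideal.absNorm v.asIdeal = 4 := by
  have h20 : (2 : O) ≠ 0 := two_ne_zero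
  have hsp : v.asIdeal = Ideal.span {2} := by
    have h4 : (Ideal.span {(2 : O)}).IsPrime := (Ideal.span_singleton_prime h20).2 two_prime
    have h5 : (Ideal.span {(2 : O)}).IsMaximal := h4.isMaximal (by simp)
    symm
    apply h5.eq_of_le v.isPrime.ne_top
    rw [Ideal.span_singleton_le_iff_mem]
    exact h2
  obtain ⟨hg1, hg2⟩ := gen_spec v h3
  have hgen : gen v = -2 := by
    apply Prim.eq_of_associated hg2
    · exact ⟨-1, by norm_num⟩
    · have h6 : Ideal.span {gen v} = Ideal.span {(2 : O)} := by rw [← hg1, hsp]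
      have h7 : Associated (gen v) 2 := Ideal.span_singleton_eq_span_singleton.1 h6
      exact h7.neg_right
  refine ⟨hsp, hgen, ?_⟩
  rw [absNorm_gen v h3, hgen]
  have h8 := Nm_repr (-2) 0
  have h9 : (((-2 : ℤ) : O) + ((0 : ℤ) : O) * om) = -2 := by push_cast; ring
  rw [h9] at h8
  norm_num at h8
  exact_mod_cast h8

theorem frob_char (w : HeightOneSpectrum (𝓞 K)) (v : HeightOneSpectrum O)
    (hv : v.asIdeal = w.asIdeal.under O) (h3 : (3 : O) ∉ v.asIdeal) (a : O) (ha : Adm a) (s : K)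
    (hs : s ^ 2 = algebraMap O K a) (hav : a ∉ v.asIdeal) (φ : K ≃ₐ[F] K)
    (hφ : ∀ y : 𝓞 K, φ • y - y ^ (Ideal.absNorm v.asIdeal) ∈ w.asIdeal) : φ s = (Sym a (gen v) : K) * s := by
  have hwp := w.isPrime
  have hvm := v.isMaximal
  have hmem : ∀ x : O, x ∈ v.asIdeal → algebraMap O (𝓞 K) x ∈ w.asIdeal := by
    intro x hx
    rw [hv] at hx
    exact hx
  have hmem' : ∀ x : O, algebraMap O (𝓞 K) x ∈ w.asIdeal → x ∈ v.asIdeal := by
    intro x hx
    rw [hv]
    exact hx
  by_cases h2 : (2 : O) ∈ v.asIdeal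
  · obtain ⟨hsp, hg, hN⟩ := G4_two v h3 h2
    rw [hN] at hφ
    rw [hg]
    by_cases hS : Sym a (-2) = 1
    · rw [hS]
      obtain ⟨y, c, hc⟩ := (Sym_neg_two ha).1 hS
      obtain ⟨β, σ, h1, h1', h3', h4, h5⟩ := G3_int a y (2 * c) (by linear_combination hc) s hs
      -- fourth powers
      have hpow : ∀ r : O, r ^ 4 - r ∈ v.asIdeal := by
        intro r
        let : Field (O ⧸ v.asIdeal) := Ideal.Quotient.field _
        have hfin : Finite (O ⧸ v.asIdeal) := inferInstance
        have hft : Fintype (O ⧸ v.asIdeal) := Fintype.ofFinite _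
        have h6 := FiniteField.pow_card (Ideal.Quotient.mk v.asIdeal r)
        have h7 : Fintype.card (O ⧸ v.asIdeal) = 4 := by
          rw [← Nat.card_eq_fintype_card]
          exact hN
        rw [h7, ← map_pow, Ideal.Quotient.eq] at h6
        exact h6
      have hr : ∃ r : O, β - algebraMap O (𝓞 K) r ∈ w.asIdeal := by
        have h6 : β * (β - algebraMap O (𝓞 K) y) ∈ w.asIdeal := by
          have h7 : β * (β - algebraMap O (𝓞 K) y) = algebraMap O (𝓞 K) (2 * c) := by
            rw [← h4]; ring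
          rw [h7]
          exact hmem _ (Ideal.mul_mem_right _ _ h2)
        rcases hwp.mem_or_mem h6 with h | h
        · exact ⟨0, by simpa using h⟩
        · exact ⟨y, h⟩
      obtain ⟨r, hr⟩ := hr
      have h6 : β ^ 4 - β ∈ w.asIdeal := by
        have e1 : β ^ 4 - β = (β - algebraMap O (𝓞 K) r) * (β ^ 3 + β ^ 2 * algebraMap O (𝓞 K) r +
            β * algebraMap O (𝓞 K) r ^ 2 + algebraMap O (𝓞 K) r ^ 3) +
            (algebraMap O (𝓞 K) (r ^ 4 - r)) - (β - algebraMap O (𝓞 K) r) := by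
          rw [map_sub, map_pow]; ring
        rw [e1]
        exact Ideal.sub_mem _ (Ideal.add_mem _ (Ideal.mul_mem_right _ _ hr) (hmem _ (hpow r))) hr
      have h7 : φ • β - β ∈ w.asIdeal := by
        have := Ideal.add_mem _ (hφ β) h6
        simpa using this
      rcases G3_pm a s hs φ with h | h
      · rw [h]; simp
      · exfalso
        apply G3_mem w v hv a σ h5 hav
        have h6 : φ • β - β = -σ := by
          apply RingOfIntegers.ext
          show φ (β : K) - (β : K) = -(σ : K)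
          rw [h1, h1', map_div₀, map_add, h, IsScalarTower.algebraMap_apply O F K, φ.commutes, map_ofNat]
          ring
        rw [h6, Ideal.neg_mem_iff] at h7
        exact h7
    · have hcop : IsCoprime (-2 : O) a := (Adm.odd ha).symm.neg_left
      have hS' : Sym a (-2) = -1 := by
        rcases Sym_coprime ha.1.ne_zero hcop with h | h
        · exact absurd h hS
        · exact h
      rw [hS']
      rcases G3_pm a s hs φ with h | h
      · exfalso
        apply hS
        rw [Sym_neg_two ha]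
        obtain ⟨b, c, hc⟩ := ha.2.1
        obtain ⟨β, σ, h1, h1', h3', h4, h5⟩ := G3_int a b c (by linear_combination hc) s hs
        have h6 : φ • β = β := by
          apply RingOfIntegers.ext
          show φ (β : K) = (β : K)
          rw [h1, map_div₀, map_add, h, IsScalarTower.algebraMap_apply O F K, φ.commutes, map_ofNat]
        have h7 := hφ β
        rw [h6] at h7
        have h8 : β * ((β - 1) * ((β - algebraMap O (𝓞 K) om) * (β - algebraMap O (𝓞 K) (om ^ 2)))) ∈
            w.asIdeal := by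
          have e1 : β * ((β - 1) * ((β - algebraMap O (𝓞 K) om) * (β - algebraMap O (𝓞 K) (om ^ 2)))) =
              -(β - β ^ 4) := by
            have h9 : algebraMap O (𝓞 K) om ^ 2 + algebraMap O (𝓞 K) om + 1 = 0 := by
              rw [← map_pow, ← map_add, ← map_one (algebraMap O (𝓞 K)), ← map_add, om_rel, map_zero]
            rw [map_pow]
            linear_combination (β * (β - 1) * (-β + (algebraMap O (𝓞 K) om - 1))) * h9
          rw [e1, Ideal.neg_mem_iff]
          exact h7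
        have hr : ∃ t : O, β - algebraMap O (𝓞 K) t ∈ w.asIdeal := by
          rcases hwp.mem_or_mem h8 with h | h
          · exact ⟨0, by simpa using h⟩
          rcases hwp.mem_or_mem h with h | h
          · exact ⟨1, by simpa using h⟩
          rcases hwp.mem_or_mem h with h | h
          · exact ⟨om, h⟩
          · exact ⟨om ^ 2, h⟩
        obtain ⟨t, ht⟩ := hr
        have h10 : algebraMap O (𝓞 K) (t ^ 2 - b * t - c) ∈ w.asIdeal := by
          have e1 : algebraMap O (𝓞 K) (t ^ 2 - b * t - c) = -((β - algebraMap O (𝓞 K) t) *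
              (β + algebraMap O (𝓞 K) t - algebraMap O (𝓞 K) b)) := by
            rw [map_sub, map_sub, map_mul, map_pow, ← h4]; ring
          rw [e1, Ideal.neg_mem_iff]
          exact Ideal.mul_mem_right _ _ ht
        have h11 := hmem' _ h10
        rw [hsp, Ideal.mem_span_singleton] at h11
        obtain ⟨k, hk⟩ := h11
        exact ⟨2 * t - b, -k, by linear_combination hc - 4 * hk⟩
      · rw [h]; simp
  · rw [← recip ha v h3 h2 hav]
    obtain ⟨b, c, hbc⟩ := ha.2.1
    obtain ⟨β, σ, h1, h1', h3', h4, h5⟩ := G3_int a b c (by linear_combination hbc) s hs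
    obtain ⟨m, hm⟩ := G4_odd_card v h2
    have h6 := sym_euler v h2 a
    have hm' : (Ideal.absNorm v.asIdeal - 1) / 2 = m := by omega
    rw [hm'] at h6
    have h7 : φ • σ - algebraMap O (𝓞 K) (sym v a : O) * σ ∈ w.asIdeal := by
      have e1 : φ • σ - algebraMap O (𝓞 K) (sym v a : O) * σ = (φ • σ - σ ^ (Ideal.absNorm v.asIdeal)) +
          algebraMap O (𝓞 K) (a ^ m - (sym v a : O)) * σ := by
        rw [hm, pow_succ, pow_mul, h5, map_sub, map_pow]; ring
      rw [e1]
      exact Ideal.add_mem _ (hφ σ) (Ideal.mul_mem_right _ _ (hmem _ h6))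
    have hσ : σ ∉ w.asIdeal := G3_mem w v hv a σ h5 hav
    have h2w : (2 : 𝓞 K) ∉ w.asIdeal := by
      intro h
      apply h2
      apply hmem'
      rw [map_ofNat]
      exact h
    have hφσ : φ • σ = σ ∧ φ s = s ∨ φ • σ = -σ ∧ φ s = -s := by
      rcases G3_pm a s hs φ with h | h
      · left
        refine ⟨?_, h⟩
        apply RingOfIntegers.ext
        show φ (σ : K) = (σ : K)
        rw [h1', h]
      · right
        refine ⟨?_, h⟩
        apply RingOfIntegers.ext
        show φ (σ : K) = -(σ : K)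
        rw [h1', h]
    have h2σ : ∀ z : 𝓞 K, z = 2 * σ ∨ z = -(2 * σ) → z ∈ w.asIdeal → False := by
      rintro z (rfl | rfl) hz
      · rcases hwp.mem_or_mem hz with h | h
        · exact h2w h
        · exact hσ h
      · rw [Ideal.neg_mem_iff] at hz
        rcases hwp.mem_or_mem hz with h | h
        · exact h2w h
        · exact hσ h
    rcases sym_sq v hav with hsym | hsym <;> rcases hφσ with ⟨h8, h9⟩ | ⟨h8, h9⟩
    · rw [h9, hsym]; simp
    · exfalso
      rw [hsym, h8] at h7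
      exact h2σ _ (Or.inr (by push_cast; ring)) h7
    · exfalso
      rw [hsym, h8] at h7
      exact h2σ _ (Or.inl (by push_cast; ring)) h7
    · rw [h9, hsym]; simp

end H55B
end

-- from Lib.H55B.G5
section

open NumberField IsDedekindDomain

namespace H55B

/-! Chunk G5: decomposition of primes, and the places above 3.
dec: choose w above v and a Frobenius phi (IsArithFrobAt.exists_of_isInvariant), I = inertia group. By G3 chi is
trivial on I iff a chi not in v; if so chi(phi) = Sym (a chi)(gen v) by G4; if a chi in v then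
Sym (a chi)(gen v) = 0 (H0.Sym_zero). |I| f g = |G| (Ideal.ncard_primesOver_mul_card_inertia_mul_finrank), the
decomposition group D is generated by I and phi (D/I = Gal(k_w/k_v) is generated by the Frobenius of k_v,
|D| = |I| f) and phi^2 = 1, so f = 1 and phi in I or f = 2 and phi not in I. Then G2.euler_group.
val_three: w above 3 lies above v = (om - 1); all admissible a are prime to 3, so I fixes all Kummer generators
(inertia_fix), I = 1, e(w/v) = 1, and 3 = unit (om - 1)^2. -/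

variable {K : Type*} [Field K] [NumberField K] [Algebra F K]

lemma G5_pow_all (k : Type*) [Field k] [Finite k] (m : ℕ) (hm : 1 < m) (h : ∀ x : k, x ^ m = x) :
    Nat.card k ≤ m := by
  obtain ⟨g, hg⟩ := IsCyclic.exists_generator (α := kˣ)
  have h1 : g ^ (m - 1) = 1 := by
    have h2 : (g : k) ^ m = g := h g
    have h3 : g ^ m = g := by
      ext
      simpa using h2
    have h4 : g ^ (m - 1) * g = 1 * g := by
      rw [← pow_succ, Nat.sub_add_cancel hm.le, one_mul, h3]
    exact mul_right_cancel h4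
  have h2 : orderOf g ∣ m - 1 := orderOf_dvd_of_pow_eq_one h1
  have h3 : orderOf g = Nat.card kˣ := orderOf_eq_card_of_forall_mem_zpowers hg
  have h4 : Nat.card kˣ = Nat.card k - 1 := Nat.card_units k
  rw [h3, h4] at h2
  have := Nat.le_of_dvd (by omega) h2
  omega

/-- The Frobenius dichotomy. -/
lemma G5_dich [IsGalois F K] (hG : ∀ g : K ≃ₐ[F] K, g * g = 1) (w : HeightOneSpectrum (𝓞 K))
    (v : HeightOneSpectrum O) [hl : w.asIdeal.LiesOver v.asIdeal] (φ : K ≃ₐ[F] K)
    (hφ : ∀ y : 𝓞 K, φ • y - y ^ (Nat.card (O ⧸ v.asIdeal)) ∈ w.asIdeal) :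
    (v.asIdeal.inertiaDegIn (𝓞 K) = 1 ∧ φ ∈ w.asIdeal.inertia (K ≃ₐ[F] K)) ∨
      (v.asIdeal.inertiaDegIn (𝓞 K) = 2 ∧ φ ∉ w.asIdeal.inertia (K ≃ₐ[F] K)) := by
  have hv := v.isMaximal
  have hw := w.isMaximal
  have hf : v.asIdeal.inertiaDegIn (𝓞 K) = Module.finrank (O ⧸ v.asIdeal) (𝓞 K ⧸ w.asIdeal) := by
    rw [Ideal.inertiaDegIn_eq_inertiaDeg v.asIdeal w.asIdeal (K ≃ₐ[F] K),
      Ideal.inertiaDeg_eq_of_isMaximal v.asIdeal w.asIdeal]
  set f := v.asIdeal.inertiaDegIn (𝓞 K) with hfdef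
  have hf0 : f ≠ 0 := Ideal.inertiaDegIn_ne_zero (K ≃ₐ[F] K)
  let : Field (O ⧸ v.asIdeal) := Ideal.Quotient.field _
  let : Field (𝓞 K ⧸ w.asIdeal) := Ideal.Quotient.field _
  have hfin : Finite (𝓞 K ⧸ w.asIdeal) := inferInstance
  have hfin2 : Finite (O ⧸ v.asIdeal) := inferInstance
  set N := Nat.card (O ⧸ v.asIdeal) with hN
  have hN1 : 1 < N := Finite.one_lt_card
  have hcard : Nat.card (𝓞 K ⧸ w.asIdeal) = N ^ f := by
    rw [hf]
    exact Module.natCard_eq_pow_finrank
  have hmem : φ ∈ w.asIdeal.inertia (K ≃ₐ[F] K) ↔ ∀ x : 𝓞 K ⧸ w.asIdeal, x ^ N = x := by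
    constructor
    · intro h x
      obtain ⟨y, rfl⟩ := Ideal.Quotient.mk_surjective x
      rw [← map_pow, Ideal.Quotient.eq]
      have h1 := hφ y
      have h2 : φ • y - y ∈ w.asIdeal := h y
      have h3 := w.asIdeal.sub_mem h2 h1
      simpa using h3
    · intro h y
      have h1 := hφ y
      have h2 := h (Ideal.Quotient.mk _ y)
      rw [← map_pow, Ideal.Quotient.eq] at h2
      have h3 := w.asIdeal.add_mem h1 h2
      simpa using h3
  by_cases hI : φ ∈ w.asIdeal.inertia (K ≃ₐ[F] K)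
  · left
    refine ⟨?_, hI⟩
    have h1 := G5_pow_all _ N hN1 (hmem.1 hI)
    rw [hcard] at h1
    by_contra hne
    have h2 : 2 ≤ f := by omega
    have h3 : N ^ 2 ≤ N ^ f := Nat.pow_le_pow_right (by omega) h2
    nlinarith
  · right
    refine ⟨?_, hI⟩
    have h1 : ∀ x : 𝓞 K ⧸ w.asIdeal, x ^ (N ^ 2) = x := by
      intro x
      obtain ⟨y, rfl⟩ := Ideal.Quotient.mk_surjective x
      have h2 : Ideal.Quotient.mk w.asIdeal (φ • y) = (Ideal.Quotient.mk w.asIdeal y) ^ N := by
        rw [← map_pow, Ideal.Quotient.eq]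
        exact hφ y
      have h3 : Ideal.Quotient.mk w.asIdeal (φ • (φ • y)) = (Ideal.Quotient.mk w.asIdeal (φ • y)) ^ N := by
        rw [← map_pow, Ideal.Quotient.eq]
        exact hφ _
      rw [← mul_smul, hG, one_smul, h2, ← pow_mul, ← sq] at h3
      exact h3.symm
    have h2 := G5_pow_all _ (N ^ 2) (by nlinarith) h1
    rw [hcard] at h2
    have h3 : f ≤ 2 := (Nat.pow_le_pow_iff_right hN1).1 h2
    have h4 : f ≠ 1 := by
      intro h5
      apply hI
      rw [hmem]
      intro x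
      have : Fintype (𝓞 K ⧸ w.asIdeal) := Fintype.ofFinite _
      have h6 := FiniteField.pow_card x
      rw [← Nat.card_eq_fintype_card, hcard, h5, pow_one] at h6
      exact h6
    omega

open Polynomial in
theorem dec (S : Set K)
    (hS : ∀ s ∈ S, ∃ a : O, Adm a ∧ s ^ 2 = algebraMap O K a) (hgen : Algebra.adjoin F S = ⊤) (v : HeightOneSpectrum O) (h3 : (3 : O) ∉ v.asIdeal)
    (a : ((K ≃ₐ[F] K) →* ℤˣ) → O) (s : ((K ≃ₐ[F] K) →* ℤˣ) → K)
    (hk : ∀ χ, Adm (a χ) ∧ s χ ≠ 0 ∧ s χ ^ 2 = algebraMap O K (a χ) ∧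
      ∀ g : K ≃ₐ[F] K, g (s χ) = (((χ g : ℤˣ) : ℤ) : K) * s χ) (x : ℂ) :
    ∏ᶠ χ : (K ≃ₐ[F] K) →* ℤˣ, (1 - C ((Sym (a χ) (gen v) : ℂ) * x) * X) =
      (1 - C (x ^ (v.asIdeal.inertiaDegIn (𝓞 K))) * X ^ (v.asIdeal.inertiaDegIn (𝓞 K))) ^
        (v.asIdeal.primesOver (𝓞 K)).ncard := by
  classical
  have hgal : IsGalois F K := isGalois S hS hgen
  have hG := gal_sq S hS hgen
  have hvm := v.isMaximal
  obtain ⟨W⟩ := (inferInstance : Nonempty (v.asIdeal.primesOver (𝓞 K)))
  have hWp : W.1.IsPrime := W.2.1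
  have hWl : W.1.LiesOver v.asIdeal := W.2.2
  have hWb : W.1 ≠ ⊥ := Ideal.ne_bot_of_liesOver_of_ne_bot v.ne_bot W.1
  let w : HeightOneSpectrum (𝓞 K) := ⟨W.1, hWp, hWb⟩
  have hl : w.asIdeal.LiesOver v.asIdeal := hWl
  have hv : v.asIdeal = w.asIdeal.under O := hl.over
  obtain ⟨φ, hφ0⟩ := IsArithFrobAt.exists_of_isInvariant O (K ≃ₐ[F] K) w.asIdeal
  have hφ : ∀ y : 𝓞 K, φ • y - y ^ (Nat.card (O ⧸ v.asIdeal)) ∈ w.asIdeal := by
    intro y
    have := hφ0 y
    rw [← hv] at this
    exact this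
  have hφ' : ∀ y : 𝓞 K, φ • y - y ^ (Ideal.absNorm v.asIdeal) ∈ w.asIdeal := hφ
  have hdich := G5_dich hG w v φ hφ
  have key := euler_group (K ≃ₐ[F] K) hG (w.asIdeal.inertia (K ≃ₐ[F] K)) φ
    (v.asIdeal.inertiaDegIn (𝓞 K)) hdich x
  have hexp : Nat.card (K ≃ₐ[F] K) / (Nat.card (w.asIdeal.inertia (K ≃ₐ[F] K)) *
      v.asIdeal.inertiaDegIn (𝓞 K)) = (v.asIdeal.primesOver (𝓞 K)).ncard := by
    have h1 := Ideal.ncard_primesOver_mul_card_inertia_mul_finrank (G := K ≃ₐ[F] K) v.asIdeal w.asIdeal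
    rw [← Ideal.inertiaDegIn_eq_inertiaDeg v.asIdeal w.asIdeal (K ≃ₐ[F] K), mul_assoc] at h1
    rw [← h1]
    apply Nat.mul_div_cancel
    apply Nat.mul_pos Nat.card_pos
    exact Nat.pos_of_ne_zero (Ideal.inertiaDegIn_ne_zero (K ≃ₐ[F] K))
  rw [hexp] at key
  rw [← key]
  apply finprod_congr
  intro χ
  congr 3
  obtain ⟨hA, hs0, hs2, hact⟩ := hk χ
  by_cases hav : a χ ∈ v.asIdeal
  · obtain ⟨g, hg, hgs⟩ := inertia_move S hS hgen w v hv (a χ) hA (s χ) hs2 hav
    have h1 : ¬ ∀ i ∈ w.asIdeal.inertia (K ≃ₐ[F] K), χ i = 1 := by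
      intro h
      have h2 := hact g
      rw [hgs, h g hg] at h2
      have h3 : (2 : K) * s χ = 0 := by
        have : -s χ = s χ := by simpa using h2
        linear_combination - this
      rcases mul_eq_zero.1 h3 with h4 | h4
      · exact two_ne_zero h4
      · exact hs0 h4
    rw [if_neg h1]
    have h2 : Sym (a χ) (gen v) = 0 := by
      apply Sym_zero hA.1.ne_zero
      rintro ⟨p, q, hpq⟩
      apply hvm.ne_top
      rw [Ideal.eq_top_iff_one, ← hpq]
      apply Ideal.add_mem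
      · exact Ideal.mul_mem_left _ _ ((gen_dvd_iff v h3 _).1 dvd_rfl)
      · exact Ideal.mul_mem_left _ _ hav
    rw [h2]
    simp
  · have h1 : ∀ i ∈ w.asIdeal.inertia (K ≃ₐ[F] K), χ i = 1 := by
      intro i hi
      have h2 := inertia_fix w v hv (a χ) hA (s χ) hs2 hav i hi
      rw [hact i] at h2
      have h3 : (((χ i : ℤˣ) : ℤ) : K) = 1 := by
        have : ((((χ i : ℤˣ) : ℤ) : K) - 1) * s χ = 0 := by linear_combination h2
        rcases mul_eq_zero.1 this with h4 | h4
        · linear_combination h4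
        · exact absurd h4 hs0
      have h4 : ((χ i : ℤˣ) : ℤ) = 1 := by exact_mod_cast h3
      exact Units.ext h4
    rw [if_pos h1]
    have h2 := frob_char w v hv h3 (a χ) hA (s χ) hs2 hav φ hφ'
    rw [hact φ] at h2
    have h4 : (((χ φ : ℤˣ) : ℤ) : K) = (Sym (a χ) (gen v) : K) := mul_right_cancel₀ hs0 h2
    have h5 : ((χ φ : ℤˣ) : ℤ) = Sym (a χ) (gen v) := by exact_mod_cast h4
    rw [h5]

lemma G5_om {R : Type*} [CommRing R] (ψ : O →+* R) (I : Ideal R) (hI : I ≠ ⊤) : ψ (om ^ 2) ∉ I := by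
  intro h1
  apply hI
  have hom3 : (om : O) ^ 2 * om = 1 := by
    have := om_rel
    linear_combination (om - 1) * this
  rw [Ideal.eq_top_iff_one, ← map_one ψ, ← hom3, map_mul]
  exact Ideal.mul_mem_right _ _ h1

theorem val_three (S : Set K)
    (hS : ∀ s ∈ S, ∃ a : O, Adm a ∧ s ^ 2 = algebraMap O K a) (hgen : Algebra.adjoin F S = ⊤) (w : HeightOneSpectrum (𝓞 K)) (h : (3 : 𝓞 K) ∈ w.asIdeal) :
    w.valuation K (3 : K) = WithZero.exp (-2 : ℤ) := by
  classical
  have hgal : IsGalois F K := isGalois S hS hgen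
  have hwm := w.isMaximal
  have hwp := w.isPrime
  have hlamp := lam_prime
  let v : HeightOneSpectrum O := ⟨Ideal.span {om - 1}, (Ideal.span_singleton_prime hlamp.ne_zero).2 hlamp,
    by simpa using hlamp.ne_zero⟩
  have hvm := v.isMaximal
  have hunder : v.asIdeal = w.asIdeal.under O := by
    apply hvm.eq_of_le (Ideal.IsPrime.ne_top inferInstance)
    show Ideal.span {om - 1} ≤ _
    rw [Ideal.span_singleton_le_iff_mem]
    show algebraMap O (𝓞 K) (om - 1) ∈ w.asIdeal
    have h1 : (3 : 𝓞 K) = algebraMap O (𝓞 K) 3 := (map_ofNat (algebraMap O (𝓞 K)) 3).symm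
    rw [h1, three_eq, neg_mul, map_neg, Ideal.neg_mem_iff, map_mul] at h
    rcases hwp.mem_or_mem h with h2 | h2
    · exact absurd h2 (G5_om _ _ hwm.ne_top)
    · rw [map_pow] at h2
      exact hwp.mem_of_pow_mem _ h2
  have hl : w.asIdeal.LiesOver v.asIdeal := ⟨hunder⟩
  have h3v : (3 : O) ∈ v.asIdeal := by
    rw [three_eq]
    show _ ∈ Ideal.span {om - 1}
    rw [Ideal.mem_span_singleton]
    exact Dvd.intro_left (-om ^ 2 * (om - 1)) (by ring)
  have hI : w.asIdeal.inertia (K ≃ₐ[F] K) = ⊥ := by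
    rw [eq_bot_iff]
    intro g hg
    rw [Subgroup.mem_bot]
    have h1 : (g : K →ₐ[F] K) = AlgHom.id F K := by
      apply AlgHom.ext_of_adjoin_eq_top hgen
      intro s hs
      obtain ⟨a, ha, hsa⟩ := hS s hs
      have hav : a ∉ v.asIdeal := by
        intro hav
        obtain ⟨p, q, hpq⟩ := Adm.coprime3 ha
        apply hvm.ne_top
        rw [Ideal.eq_top_iff_one, ← hpq]
        exact Ideal.add_mem _ (Ideal.mul_mem_left _ _ hav) (Ideal.mul_mem_left _ _ h3v)
      exact inertia_fix w v hunder a ha s hsa hav g hg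
    ext x
    exact DFunLike.congr_fun h1 x
  have hram : v.asIdeal.ramificationIdx' w.asIdeal = 1 := by
    rw [Ideal.ramificationIdx'_eq_ramificationIdx v.asIdeal w.asIdeal v.ne_bot,
      ← Ideal.ramificationIdxIn_eq_ramificationIdx v.asIdeal w.asIdeal (K ≃ₐ[F] K),
      ← Ideal.card_inertia_eq_ramificationIdxIn (G := K ≃ₐ[F] K) v.asIdeal w.asIdeal, hI]
    simp
  have h4 := HeightOneSpectrum.valuation_liesOver K v w (3 : F)
  rw [hram, pow_one] at h4
  have h5 : algebraMap F K 3 = 3 := map_ofNat (algebraMap F K) 3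
  rw [h5] at h4
  rw [← h4]
  have h6 : (3 : F) = algebraMap O F 3 := (map_ofNat (algebraMap O F) 3).symm
  rw [h6, HeightOneSpectrum.valuation_of_algebraMap, three_eq, neg_mul, Valuation.map_neg, map_mul, map_pow _ (om - 1)]
  have h7 : v.intValuation (om - 1) = WithZero.exp (-1 : ℤ) :=
    HeightOneSpectrum.intValuation_singleton v hlamp.ne_zero rfl
  have h8 : v.intValuation (om ^ 2) = 1 := by
    rw [HeightOneSpectrum.intValuation_eq_one_iff]
    exact G5_om (RingHom.id O) _ hvm.ne_top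
  rw [h7, h8, one_mul]
  rfl

end H55B
end

-- from Lib.H55C.A4
section

open NumberField IsDedekindDomain

namespace H55C

open H55B

/-! Chunk A4 (M): uniformizers at 2 and 3 in K. The prime v of O below w (Mathlib: Ideal.under; compare
H55B.I2_under) is (2) resp. (om - 1) (both are maximal, generated by prime elements two_prime, lam_prime), and is not
good, so w.ramificationIdx O = 1 by UnrOut, and HeightOneSpectrum.valuation_liesOver with
Ideal.ramificationIdx'_eq_ramificationIdx gives w.valuation K = v.valuation F on F (compare H55B.G5 val_three);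
intValuation_singleton. glob2, glob3: P.valuation N on K is the e-th power, e = ramification index of P over
w = P under K, e > 0, of w.valuation K (valuation_liesOver), values < 1 are <= exp(-1). -/

theorem A4_val {K : Type} [Field K] [NumberField K] [Algebra F K] (hU : UnrOut K)
    (w : HeightOneSpectrum (𝓞 K)) (π : O) (hπ : Prime π) (hw : algebraMap O (𝓞 K) π ∈ w.asIdeal)
    (hbad : ∀ v : HeightOneSpectrum O, v.asIdeal = Ideal.span {π} → ¬ Good v) :
    w.valuation K (algebraMap O K π) = WithZero.exp (-1 : ℤ) := by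
  have hwm := w.isMaximal
  have hwp := w.isPrime
  let v : HeightOneSpectrum O := ⟨Ideal.span {π}, (Ideal.span_singleton_prime hπ.ne_zero).2 hπ,
    by simpa using hπ.ne_zero⟩
  have hvm := v.isMaximal
  have hunder : v.asIdeal = w.asIdeal.under O := by
    apply hvm.eq_of_le (Ideal.IsPrime.ne_top inferInstance)
    show Ideal.span {π} ≤ _
    rw [Ideal.span_singleton_le_iff_mem]
    exact hw
  have hl : w.asIdeal.LiesOver v.asIdeal := ⟨hunder⟩
  have hram : v.asIdeal.ramificationIdx' w.asIdeal = 1 := by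
    rw [Ideal.ramificationIdx'_eq_ramificationIdx v.asIdeal w.asIdeal v.ne_bot]
    exact hU w v hunder (hbad v rfl)
  have h4 := HeightOneSpectrum.valuation_liesOver K v w (algebraMap O F π)
  rw [hram, pow_one] at h4
  rw [IsScalarTower.algebraMap_apply O F K, ← h4, HeightOneSpectrum.valuation_of_algebraMap]
  exact HeightOneSpectrum.intValuation_singleton v hπ.ne_zero rfl

theorem val_two {K : Type} [Field K] [NumberField K] [Algebra F K] (hU : UnrOut K)
    (w : HeightOneSpectrum (𝓞 K)) (h2 : (2 : 𝓞 K) ∈ w.asIdeal) :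
    w.valuation K (2 : K) = WithZero.exp (-1 : ℤ) := by
  have h := A4_val hU w 2 two_prime (by rw [map_ofNat]; exact h2) (fun v hv hg => hg.1 (by
    rw [hv]; exact Ideal.mem_span_singleton_self _))
  rwa [map_ofNat] at h

theorem val_lam {K : Type} [Field K] [NumberField K] [Algebra F K] (hU : UnrOut K)
    (w : HeightOneSpectrum (𝓞 K)) (h3 : (3 : 𝓞 K) ∈ w.asIdeal) :
    w.valuation K (algebraMap O K (om - 1)) = WithZero.exp (-1 : ℤ) := by
  have hwm := w.isMaximal
  have hwp := w.isPrime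
  apply A4_val hU w (om - 1) lam_prime
  · have h1 : (3 : 𝓞 K) = algebraMap O (𝓞 K) 3 := (map_ofNat (algebraMap O (𝓞 K)) 3).symm
    rw [h1, three_eq, neg_mul, map_neg, Ideal.neg_mem_iff, map_mul] at h3
    rcases hwp.mem_or_mem h3 with h2 | h2
    · exact absurd h2 (G5_om _ _ hwm.ne_top)
    · rw [map_pow] at h2
      exact hwp.mem_of_pow_mem _ h2
  · intro v hv hg
    apply hg.2.1
    rw [hv, three_eq, Ideal.mem_span_singleton]
    exact Dvd.intro_left (-om ^ 2 * (om - 1)) (by ring)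

theorem A4_lt {a : WithZero (Multiplicative ℤ)} (ha : a < 1) : a ≤ WithZero.exp (-1 : ℤ) := by
  rcases eq_or_ne a 0 with rfl | h0
  · exact zero_le
  · obtain ⟨n, rfl⟩ : ∃ n : ℤ, a = WithZero.exp n := ⟨WithZero.log a, (WithZero.exp_log h0).symm⟩
    rw [WithZero.exp_le_exp]
    rw [← WithZero.exp_zero, WithZero.exp_lt_exp] at ha
    omega

theorem A4_glob {K N : Type} [Field K] [NumberField K] [Field N] [NumberField N]
    [Algebra K N] (P : HeightOneSpectrum (𝓞 N)) :
    ∃ (w : HeightOneSpectrum (𝓞 K)) (e : ℕ), w.asIdeal = P.asIdeal.under (𝓞 K) ∧ e ≠ 0 ∧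
      ∀ z : K, P.valuation N (algebraMap K N z) = w.valuation K z ^ e := by
  let w : HeightOneSpectrum (𝓞 K) := ⟨P.asIdeal.under (𝓞 K), P.isPrime.under (𝓞 K),
    Ideal.IsIntegral.comap_ne_bot _ P.ne_bot⟩
  have hl : P.asIdeal.LiesOver w.asIdeal := ⟨rfl⟩
  refine ⟨w, w.asIdeal.ramificationIdx' P.asIdeal, rfl, ?_, fun z =>
    (HeightOneSpectrum.valuation_liesOver N w P z).symm⟩
  have hp := P.isPrime
  exact Ideal.IsDedekindDomain.ramificationIdx'_ne_zero_of_liesOver P.asIdeal w.ne_bot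

theorem glob2 (K N : Type) [Field K] [NumberField K] [Algebra F K] [Field N] [NumberField N]
    [Algebra K N] (hU : UnrOut K) (P : HeightOneSpectrum (𝓞 N)) (h2 : (2 : 𝓞 N) ∈ P.asIdeal) (z : K)
    (hz : P.valuation N (algebraMap K N z) < 1) :
    P.valuation N (algebraMap K N z) ≤ P.valuation N 2 := by
  obtain ⟨w, e, hw, he, hval⟩ := A4_glob (K := K) (N := N) P
  have h2w : (2 : 𝓞 K) ∈ w.asIdeal := by
    rw [hw, Ideal.mem_comap, map_ofNat]
    exact h2
  have h := val_two hU w h2w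
  have h5 : (2 : N) = algebraMap K N 2 := (map_ofNat (algebraMap K N) 2).symm
  rw [h5, hval, hval, h]
  rw [hval] at hz
  have hz1 : w.valuation K z < 1 := by
    by_contra hcon
    exact absurd hz (not_lt.mpr (one_le_pow₀ (not_lt.mp hcon)))
  exact pow_le_pow_left₀ zero_le (A4_lt hz1) e

theorem glob3 (K N : Type) [Field K] [NumberField K] [Algebra F K] [Field N] [NumberField N]
    [Algebra K N] (hU : UnrOut K) (P : HeightOneSpectrum (𝓞 N)) (h3 : (3 : 𝓞 N) ∈ P.asIdeal) (z : K)
    (hz : P.valuation N (algebraMap K N z) < 1) :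
    P.valuation N (algebraMap K N z) ≤ P.valuation N (algebraMap K N (algebraMap O K om - 1)) := by
  obtain ⟨w, e, hw, he, hval⟩ := A4_glob (K := K) (N := N) P
  have h3w : (3 : 𝓞 K) ∈ w.asIdeal := by
    rw [hw, Ideal.mem_comap, map_ofNat]
    exact h3
  have h := val_lam hU w h3w
  rw [map_sub, map_one] at h
  rw [hval, hval, h]
  rw [hval] at hz
  have hz1 : w.valuation K z < 1 := by
    by_contra hcon
    exact absurd hz (not_lt.mpr (one_le_pow₀ (not_lt.mp hcon)))
  exact pow_le_pow_left₀ zero_le (A4_lt hz1) e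

end H55C
end

-- from Lib.H55N.D3
section

open NumberField IsDedekindDomain

namespace H55N

open H55B H55C

variable {K : Type} [Field K] [NumberField K] [Algebra F K]

/-! Chunk D3 (M). Change of the group of units. U' = {u = 1 mod J'} < U = {u = 1 mod J}, J' = 2 J (J prime to 2). The map U -> (O_K/2)^* has kernel U'
(u - 1 in J and in (2), coprime, so in J (2) = J'), and (O_K/2)^* has odd order: 2 is unramified in K (odd_discr, or: UnrOut K says that the primes w above 2 have
ramification index 1 over O, and 2 is prime in O), so (2) is a product of distinct primes of O_K and O_K/2 is a product of finite fields of characteristic 2, whose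
unit groups have odd order 2^k - 1 (alternatively: an element of order 2 of (O_K/2)^* is 1 + y with y^2 = 0 in O_K/2, a reduced ring). So U/U' is finite of odd order ν.
Let T be a transversal of X/U and R0 a set of ν representatives of U/U'. Then T' = {v r : v in R0, r in T} is a transversal of X/U' and (v, r) -> v r is injective
(0 is not in X, U acts freely), and X is stable under U (hX). If φ is a function with φ(v x) = φ(x) for v in U, x in X, absolutely summable over T', with sum S', then it is absolutely summable over T with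
sum S'/ν. -/

/-- The units which are 1 modulo J. -/
def D3_U (J : Ideal (𝓞 K)) : Subgroup (𝓞 K)ˣ :=
  (Units.map (Ideal.Quotient.mk J).toMonoidHom : (𝓞 K)ˣ →* (𝓞 K ⧸ J)ˣ).ker

omit [NumberField K] [Algebra F K] in
lemma D3_mem (J : Ideal (𝓞 K)) (v : (𝓞 K)ˣ) : v ∈ D3_U J ↔ (v : 𝓞 K) - 1 ∈ J := by
  unfold D3_U
  rw [MonoidHom.mem_ker, Units.ext_iff, ← Ideal.Quotient.mk_eq_mk_iff_sub_mem]
  exact Iff.rfl

omit [Algebra F K] in
lemma D3_fin (J : Ideal (𝓞 K)) (hJ : J ≠ ⊥) : (D3_U J).FiniteIndex := by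
  haveI : Finite (𝓞 K ⧸ J) := Ideal.finiteQuotientOfFreeOfNeBot J hJ
  unfold D3_U
  infer_instance

lemma D3_rad (hK : UnrOut K) (x : 𝓞 K) (h : x ^ 2 ∈ Ideal.span {(2 : 𝓞 K)}) :
    x ∈ Ideal.span {(2 : 𝓞 K)} := by
  obtain ⟨y, hy⟩ := Ideal.mem_span_singleton.1 h
  have h20 : (2 : K) ≠ 0 := two_ne_zero
  have key : ∀ w : HeightOneSpectrum (𝓞 K), w.valuation K ((x : K) / 2) ≤ 1 := by
    intro w
    by_cases h2 : (2 : 𝓞 K) ∈ w.asIdeal
    · have hv := val_two hK w h2
      have hx : x ∈ w.asIdeal := by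
        apply w.isPrime.mem_of_pow_mem 2
        rw [hy]
        exact w.asIdeal.mul_mem_right _ h2
      have hx1 : w.valuation K (algebraMap (𝓞 K) K x) < 1 :=
        (HeightOneSpectrum.valuation_lt_one_iff_mem w x).2 hx
      rw [map_div₀, hv]
      have hx2 : w.valuation K (x : K) ≤ WithZero.exp (-1 : ℤ) := by
        by_cases h0 : w.valuation K (x : K) = 0
        · rw [h0]
          exact zero_le'
        · rw [← WithZero.exp_log h0] at hx1 ⊢
          rw [← WithZero.exp_zero, WithZero.exp_lt_exp] at hx1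
          rw [WithZero.exp_le_exp]
          omega
      exact div_le_one_of_le₀ hx2 zero_le'
    · have hv : w.valuation K (algebraMap (𝓞 K) K 2) = 1 := by
        rw [HeightOneSpectrum.valuation_of_algebraMap]
        exact (HeightOneSpectrum.intValuation_eq_one_iff).2 h2
      rw [map_ofNat] at hv
      rw [map_div₀, hv, div_one]
      exact w.valuation_le_one x
  obtain ⟨z, hz⟩ := HeightOneSpectrum.mem_integers_of_valuation_le_one K _ key
  refine Ideal.mem_span_singleton.2 ⟨z, ?_⟩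
  apply RingOfIntegers.ext
  show algebraMap (𝓞 K) K x = algebraMap (𝓞 K) K (2 * z)
  rw [map_mul, map_ofNat, hz]
  field_simp

omit [Algebra F K] in
lemma D3_main (J J' : Ideal (𝓞 K)) (hle : J' ≤ J) (X : Set (𝓞 K))
    (hfi : ((D3_U J').subgroupOf (D3_U J)).FiniteIndex)
    (hX0 : (0 : 𝓞 K) ∉ X) (hX : ∀ u : (𝓞 K)ˣ, (u : 𝓞 K) - 1 ∈ J → ∀ x ∈ X, (u : 𝓞 K) * x ∈ X)
    (T : Set (𝓞 K)) (hT : Transv J X T) : ∃ T', Transv J' X T' ∧
      ∀ (φ : 𝓞 K → ℂ) (S : ℂ), (∀ u : (𝓞 K)ˣ, (u : 𝓞 K) - 1 ∈ J → ∀ x ∈ X, φ ((u : 𝓞 K) * x) = φ x) →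
        HasSum (fun x : T' => φ x) S →
          HasSum (fun x : T => φ x) (S / (((D3_U J').subgroupOf (D3_U J)).index : ℕ)) := by
  classical
  set H := (D3_U J').subgroupOf (D3_U J) with hH
  let Q := (D3_U J) ⧸ H
  haveI : Finite Q := Subgroup.finite_quotient_of_finiteIndex
  let o : Q → (𝓞 K)ˣ := fun q => ((Quotient.out q : D3_U J) : (𝓞 K)ˣ)
  have ho : ∀ q, ((o q : 𝓞 K)) - 1 ∈ J := fun q => (D3_mem J _).1 (Quotient.out q : D3_U J).2
  have hoU : ∀ q, o q ∈ D3_U J := fun q => (Quotient.out q : D3_U J).2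
  have hmk : ∀ (a b : D3_U J), (QuotientGroup.mk a : Q) = QuotientGroup.mk b ↔
      (a : (𝓞 K)ˣ)⁻¹ * (b : (𝓞 K)ˣ) ∈ D3_U J' := by
    intro a b
    rw [QuotientGroup.eq]
    exact Subgroup.mem_subgroupOf
  have hmulJ : ∀ a b : (𝓞 K)ˣ, (a : 𝓞 K) - 1 ∈ J → (b : 𝓞 K) - 1 ∈ J →
      ((a * b : (𝓞 K)ˣ) : 𝓞 K) - 1 ∈ J := fun a b ha hb =>
    (D3_mem J _).1 (Subgroup.mul_mem _ ((D3_mem J a).2 ha) ((D3_mem J b).2 hb))
  have hinj : ∀ (q q' : Q) (r r' : 𝓞 K) (u : (𝓞 K)ˣ), r ∈ T → r' ∈ T → (u : 𝓞 K) - 1 ∈ J' →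
      (o q' : 𝓞 K) * r' = u * (o q * r) → q' = q ∧ r' = r := by
    intro q q' r r' u hr hr' hu he
    have hr0 : r ≠ 0 := fun h => hX0 (h ▸ hT.sub hr)
    have hw : (((o q')⁻¹ * u * o q : (𝓞 K)ˣ) : 𝓞 K) - 1 ∈ J := by
      apply (D3_mem J _).1
      exact Subgroup.mul_mem _ (Subgroup.mul_mem _ (Subgroup.inv_mem _ (hoU q'))
        ((D3_mem J u).2 (hle hu))) (hoU q)
    have he2 : r' = (((o q')⁻¹ * u * o q : (𝓞 K)ˣ) : 𝓞 K) * r := by
      have h1 : ((o q' : (𝓞 K)ˣ) : 𝓞 K) * r' =
          (o q' : 𝓞 K) * ((((o q')⁻¹ * u * o q : (𝓞 K)ˣ) : 𝓞 K) * r) := by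
        rw [he, Units.val_mul, Units.val_mul]
        have h2 : (o q' : 𝓞 K) * (((o q')⁻¹ : (𝓞 K)ˣ) : 𝓞 K) = 1 := Units.mul_inv _
        linear_combination (-(u : 𝓞 K) * (o q : 𝓞 K) * r) * h2
      exact (Units.mul_right_inj _).1 h1
    have he3 := hT.uniq r hr r' hr' _ hw he2
    refine ⟨?_, he3⟩
    rw [he3] at he
    have he4 : (o q' : 𝓞 K) = (u * o q : (𝓞 K)ˣ) := by
      apply mul_right_cancel₀ hr0
      rw [he, Units.val_mul]
      ring
    have he5 : o q' = u * o q := Units.ext he4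
    have h6 : (QuotientGroup.mk (Quotient.out q : D3_U J) : Q) =
        QuotientGroup.mk (Quotient.out q' : D3_U J) := by
      rw [hmk]
      show (o q)⁻¹ * o q' ∈ _
      rw [he5, mul_comm u, inv_mul_cancel_left]
      exact (D3_mem J' u).2 hu
    have h7 : ∀ q : Q, (QuotientGroup.mk (Quotient.out q : D3_U J) : Q) = q := fun q =>
      QuotientGroup.out_eq' q
    rw [h7, h7] at h6
    exact h6.symm
  let T' : Set (𝓞 K) := Set.range fun p : Q × T => (o p.1 : 𝓞 K) * (p.2 : 𝓞 K)
  have hT' : Transv J' X T' := by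
    refine ⟨?_, ?_, ?_⟩
    · rintro _ ⟨p, rfl⟩
      exact hX _ (ho _) _ (hT.sub p.2.2)
    · intro x hx
      obtain ⟨r, hr, u, hu, hxu⟩ := hT.cover x hx
      let a : D3_U J := ⟨u, (D3_mem J u).2 hu⟩
      let q : Q := QuotientGroup.mk a
      refine ⟨_, ⟨⟨q, ⟨r, hr⟩⟩, rfl⟩, (o q)⁻¹ * u, ?_, ?_⟩
      · apply (D3_mem J' _).1
        have h1 : (QuotientGroup.mk (Quotient.out q : D3_U J) : Q) = QuotientGroup.mk a :=
          QuotientGroup.out_eq' q
        exact (hmk _ _).1 h1
      · rw [hxu, Units.val_mul]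
        have h2 : (o q : 𝓞 K) * (((o q)⁻¹ : (𝓞 K)ˣ) : 𝓞 K) = 1 := Units.mul_inv _
        show (u : 𝓞 K) * r = _ * ((o q : 𝓞 K) * r)
        linear_combination (-(u : 𝓞 K) * r) * h2
    · rintro _ ⟨⟨q, r⟩, rfl⟩ _ ⟨⟨q', r'⟩, rfl⟩ u hu he
      obtain ⟨h1, h2⟩ := hinj q q' r r' u r.2 r'.2 hu he
      subst h1
      have h3 : r' = r := Subtype.ext h2
      subst h3
      rfl
  refine ⟨T', hT', ?_⟩
  intro φ S hφ hS
  let e : Q × T ≃ T' := Equiv.ofBijective (fun p => ⟨(o p.1 : 𝓞 K) * (p.2 : 𝓞 K), ⟨p, rfl⟩⟩) (by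
    constructor
    · rintro ⟨q, r⟩ ⟨q', r'⟩ h
      have h1 : (o q' : 𝓞 K) * (r' : 𝓞 K) = ((1 : (𝓞 K)ˣ) : 𝓞 K) * ((o q : 𝓞 K) * (r : 𝓞 K)) := by
        rw [Units.val_one, one_mul]
        exact (congrArg Subtype.val h).symm
      obtain ⟨h2, h3⟩ := hinj q q' r r' 1 r.2 r'.2 (by simp) h1
      rw [h2, Subtype.ext h3]
    · rintro ⟨_, ⟨p, rfl⟩⟩
      exact ⟨p, rfl⟩)
  have hS2 : HasSum (fun p : Q × T => φ (p.2 : 𝓞 K)) S := by
    have h1 := (e.hasSum_iff).2 hS
    have h2 : ((fun x : T' => φ x) ∘ e) = fun p : Q × T => φ (p.2 : 𝓞 K) := by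
      funext p
      exact hφ _ (ho _) _ (hT.sub p.2.2)
    rw [← h2]
    exact h1
  have hsm : Summable (fun r : T => φ (r : 𝓞 K)) :=
    (hS2.summable.comp_injective (i := fun r : T => ((QuotientGroup.mk 1 : Q), r))
      (fun a b h => (Prod.ext_iff.1 h).2))
  have h3 : HasSum (fun _ : Q => ∑' r : T, φ (r : 𝓞 K)) S :=
    hS2.prod_fiberwise fun _ => hsm.hasSum
  haveI : Fintype Q := Fintype.ofFinite Q
  have h4 := h3.unique (hasSum_fintype _)
  rw [Finset.sum_const, Finset.card_univ, nsmul_eq_mul] at h4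
  have h5 : (Fintype.card Q : ℕ) = H.index := by
    rw [← Nat.card_eq_fintype_card]
    rfl
  have h6 : (H.index : ℂ) ≠ 0 := by exact_mod_cast hfi.index_ne_zero
  rw [h5] at h4
  rw [h4, mul_div_cancel_left₀ _ h6]
  exact hsm.hasSum

theorem odd_change (hK : UnrOut K) (J J' : Ideal (𝓞 K)) (hJ : J ≠ ⊥)
    (hJ2 : IsCoprime J (Ideal.span {2})) (hJ' : J' = Ideal.span {2} * J) (X : Set (𝓞 K))
    (hX0 : (0 : 𝓞 K) ∉ X) (hX : ∀ u : (𝓞 K)ˣ, (u : 𝓞 K) - 1 ∈ J → ∀ x ∈ X, (u : 𝓞 K) * x ∈ X) :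
    ∃ ν : ℕ, Odd ν ∧ ∀ T, Transv J X T → ∃ T', Transv J' X T' ∧
      ∀ (φ : 𝓞 K → ℂ) (S : ℂ), (∀ u : (𝓞 K)ˣ, (u : 𝓞 K) - 1 ∈ J → ∀ x ∈ X, φ ((u : 𝓞 K) * x) = φ x) →
        HasSum (fun x : T' => φ x) S → HasSum (fun x : T => φ x) (S / ν) := by
  have hJ'0 : J' ≠ ⊥ := by
    rw [hJ']
    simp [hJ]
  have hle : J' ≤ J := hJ' ▸ Ideal.mul_le_right
  haveI := D3_fin J' hJ'0
  haveI hfi : ((D3_U J').subgroupOf (D3_U J)).FiniteIndex := inferInstance
  refine ⟨((D3_U J').subgroupOf (D3_U J)).index, ?_, D3_main J J' hle X hfi hX0 hX⟩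
  rw [← Nat.not_even_iff_odd]
  intro hev
  haveI : Finite ((D3_U J) ⧸ ((D3_U J').subgroupOf (D3_U J))) :=
    Subgroup.finite_quotient_of_finiteIndex
  haveI : Fact (Nat.Prime 2) := ⟨Nat.prime_two⟩
  obtain ⟨q, hq⟩ := exists_prime_orderOf_dvd_card' (G := (D3_U J) ⧸ ((D3_U J').subgroupOf (D3_U J)))
    2 hev.two_dvd
  obtain ⟨a, rfl⟩ := QuotientGroup.mk_surjective q
  have h1 := pow_orderOf_eq_one (QuotientGroup.mk a : (D3_U J) ⧸ ((D3_U J').subgroupOf (D3_U J)))
  rw [hq, ← QuotientGroup.mk_pow, QuotientGroup.eq_one_iff, Subgroup.mem_subgroupOf, D3_mem] at h1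
  have h2 : (((a : (𝓞 K)ˣ) : 𝓞 K) - 1) ^ 2 ∈ Ideal.span {(2 : 𝓞 K)} := by
    have h3 : (((a : (𝓞 K)ˣ) : 𝓞 K) - 1) ^ 2 =
        ((((a ^ 2 : D3_U J) : (𝓞 K)ˣ) : 𝓞 K) - 1) - 2 * (((a : (𝓞 K)ˣ) : 𝓞 K) - 1) := by
      rw [SubmonoidClass.coe_pow, Units.val_pow_eq_pow_val]
      ring
    rw [h3]
    refine Ideal.sub_mem _ ?_ (Ideal.mul_mem_right _ _ (Ideal.mem_span_singleton_self _))
    exact (hJ' ▸ Ideal.mul_le_left : J' ≤ Ideal.span {(2 : 𝓞 K)}) h1
  have h4 := D3_rad hK _ h2
  have h5 : ((a : (𝓞 K)ˣ) : 𝓞 K) - 1 ∈ J' := by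
    have h6 : ((a : (𝓞 K)ˣ) : 𝓞 K) - 1 ∈ Ideal.span {(2 : 𝓞 K)} ⊓ J := ⟨h4, (D3_mem J _).1 a.2⟩
    rw [hJ', Ideal.mul_eq_inf_of_coprime]
    · exact h6
    · exact (Ideal.isCoprime_iff_sup_eq.1 hJ2.symm)
  have h7 : (QuotientGroup.mk a : (D3_U J) ⧸ ((D3_U J').subgroupOf (D3_U J))) = 1 := by
    rw [QuotientGroup.eq_one_iff, Subgroup.mem_subgroupOf, D3_mem]
    exact h5
  rw [h7, orderOf_one] at hq
  omega

/-- The same for the unsmoothed series (2 may ramify): for arbitrary nonzero J' <= J the index is finite. -/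
theorem finite_change (J J' : Ideal (𝓞 K)) (hJ' : J' ≠ ⊥) (hle : J' ≤ J) (X : Set (𝓞 K))
    (hX0 : (0 : 𝓞 K) ∉ X) (hX : ∀ u : (𝓞 K)ˣ, (u : 𝓞 K) - 1 ∈ J → ∀ x ∈ X, (u : 𝓞 K) * x ∈ X) :
    ∃ ν : ℕ, 0 < ν ∧ ∀ T, Transv J X T → ∃ T', Transv J' X T' ∧
      ∀ (φ : 𝓞 K → ℂ) (S : ℂ), (∀ u : (𝓞 K)ˣ, (u : 𝓞 K) - 1 ∈ J → ∀ x ∈ X, φ ((u : 𝓞 K) * x) = φ x) →
        HasSum (fun x : T' => φ x) S → HasSum (fun x : T => φ x) (S / ν) := by
  haveI := D3_fin J' hJ'
  haveI hfi : ((D3_U J').subgroupOf (D3_U J)).FiniteIndex := inferInstance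
  exact ⟨((D3_U J').subgroupOf (D3_U J)).index, Nat.pos_of_ne_zero hfi.index_ne_zero,
    D3_main J J' hle X hfi hX0 hX⟩

end H55N
end

-- from Lib.H55B.I2
section

open NumberField IsDedekindDomain

namespace H55B

/-! Chunk I2: the L-function of E27 over K as a product.
Fix n. LFunction n = (product over a finite set s of places of K of the local Euler factors) n for all large s
(ArithmeticFunction.tendsTo_eulerProduct_ofPowerSeries, Northcott property of absNorm: finitely many ideals of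
bounded norm). Take s = places above t, t a large finite set of places v of F not above 3, together with the
places above 3 (Euler factor 1 by loc_bad, val_three). For w above v: F4.loc_good, f = inertiaDeg w =
inertiaDegIn v (Galois), absNorm w = absNorm v ^ f (F4.absNorm_inertia), ofPowerSeries_pow turns the factor at
absNorm v ^ f into a factor at absNorm v with X replaced by X^f; there are g = ncard primesOver of them. By
G5.dec (x = e(gen v) and x = conj e(gen v)) the product over w | v equals the product over chi of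
ofPowerSeries (absNorm v) (1/(1 - Sym(a chi)(gen v) e(gen v) X)) times the conjugate. Then EP for the completely
multiplicative functions Sym(a chi) e and Sym (a chi) conj e, and compatibility of finite convolution products
with eventual equality at all divisors of n. Casting Z -> C commutes with everything
(map of power series and of arithmetic functions). -/

theorem I2_mul_congr {f f' g g' : ArithmeticFunction ℂ} {n : ℕ} (hf : ∀ m ≤ n, f m = f' m)
    (hg : ∀ m ≤ n, g m = g' m) : ∀ m ≤ n, (f * g) m = (f' * g') m := by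
  intro m hm
  rw [ArithmeticFunction.mul_apply, ArithmeticFunction.mul_apply]
  refine Finset.sum_congr rfl fun k hk => ?_
  have h := (Nat.mem_divisorsAntidiagonal.mp hk)
  have h1 : k.1 ≤ n := (Nat.divisor_le (Nat.fst_mem_divisors_of_mem_antidiagonal hk)).trans hm
  have h2 : k.2 ≤ n := (Nat.divisor_le (Nat.snd_mem_divisors_of_mem_antidiagonal hk)).trans hm
  rw [hf _ h1, hg _ h2]

theorem I2_prod_congr {ι : Type*} (s : Finset ι) (f g : ι → ArithmeticFunction ℂ) {n : ℕ}
    (h : ∀ i ∈ s, ∀ m ≤ n, f i m = g i m) : ∀ m ≤ n, (∏ i ∈ s, f i) m = (∏ i ∈ s, g i) m := by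
  classical
  induction s using Finset.induction_on with
  | empty => intro m _; simp
  | insert i s hi ih =>
    rw [Finset.prod_insert hi, Finset.prod_insert hi]
    exact I2_mul_congr (h i (Finset.mem_insert_self _ _))
      (ih fun j hj => h j (Finset.mem_insert_of_mem hj))

theorem I2_cast_prod {ι : Type*} (s : Finset ι) (f : ι → ArithmeticFunction ℤ) :
    ((∏ i ∈ s, f i : ArithmeticFunction ℤ) : ArithmeticFunction ℂ) =
      ∏ i ∈ s, ((f i : ArithmeticFunction ℤ) : ArithmeticFunction ℂ) := by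
  classical
  induction s using Finset.induction_on with
  | empty => simp
  | insert i s hi ih =>
    rw [Finset.prod_insert hi, Finset.prod_insert hi, ArithmeticFunction.intCoe_mul, ih]

theorem I2_cast_ofPS {q : ℕ} (hq : 1 < q) (f : PowerSeries ℤ) :
    ((ArithmeticFunction.ofPowerSeries q f : ArithmeticFunction ℤ) : ArithmeticFunction ℂ) =
      ArithmeticFunction.ofPowerSeries q (PowerSeries.map (Int.castRingHom ℂ) f) := by
  ext n
  rw [ArithmeticFunction.intCoe_apply, ArithmeticFunction.ofPowerSeries_apply hq,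
    ArithmeticFunction.ofPowerSeries_apply hq]
  by_cases hn : ∃ k, q ^ k = n
  · obtain ⟨k, rfl⟩ := hn
    rw [(Nat.pow_right_injective hq).extend_apply, (Nat.pow_right_injective hq).extend_apply]
    simp
  · rw [Function.extend_apply' _ _ _ hn, Function.extend_apply' _ _ _ hn]
    simp

theorem I2_inv_unique {a b : PowerSeries ℂ} (ha : PowerSeries.constantCoeff a = 1)
    (h : a * b = 1) : b = a⁻¹ := by
  rw [PowerSeries.eq_inv_iff_mul_eq_one (by rw [ha]; exact one_ne_zero), mul_comm]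
  exact h

theorem I2_map_invOfUnit (P : Polynomial ℤ) (hP : P.coeff 0 = 1) :
    PowerSeries.map (Int.castRingHom ℂ) (PowerSeries.invOfUnit (P : PowerSeries ℤ) 1) =
      ((P.map (Int.castRingHom ℂ) : Polynomial ℂ) : PowerSeries ℂ)⁻¹ := by
  have h0 : PowerSeries.constantCoeff (P : PowerSeries ℤ) = ((1 : ℤˣ) : ℤ) := by
    simp [hP]
  apply I2_inv_unique
  · rw [Polynomial.polynomial_map_coe, ← PowerSeries.coeff_zero_eq_constantCoeff_apply,
      PowerSeries.coeff_map]
    simp [hP]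
  · rw [Polynomial.polynomial_map_coe, ← map_mul, PowerSeries.mul_invOfUnit _ _ h0, map_one]

theorem I2_subst_inv {k : ℕ} (hk : k ≠ 0) (a : PowerSeries ℂ)
    (ha : PowerSeries.constantCoeff a = 1) :
    (a⁻¹).subst (PowerSeries.X ^ k : PowerSeries ℂ) = (a.subst (PowerSeries.X ^ k : PowerSeries ℂ))⁻¹ := by
  apply I2_inv_unique
  · rw [PowerSeries.constantCoeff_subst_X_pow hk, ha]
    simp
  · rw [← PowerSeries.subst_mul (PowerSeries.HasSubst.X_pow hk),
      PowerSeries.mul_inv_cancel _ (by rw [ha]; exact one_ne_zero),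
      ← PowerSeries.coe_substAlgHom (PowerSeries.HasSubst.X_pow hk), map_one]

theorem I2_subst_lin {k : ℕ} (hk : k ≠ 0) (c : ℂ) :
    (1 - PowerSeries.C c * PowerSeries.X : PowerSeries ℂ).subst (PowerSeries.X ^ k : PowerSeries ℂ) =
      1 - PowerSeries.C c * PowerSeries.X ^ k := by
  have h := PowerSeries.HasSubst.X_pow (R := ℂ) hk
  have e1 : (1 - PowerSeries.C c * PowerSeries.X : PowerSeries ℂ).subst (PowerSeries.X ^ k : PowerSeries ℂ)
      = PowerSeries.substAlgHom (R := ℂ) h (1 - PowerSeries.C c * PowerSeries.X : PowerSeries ℂ) := by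
    rw [PowerSeries.coe_substAlgHom]
  rw [e1, map_sub, map_one, map_mul]
  congr 1
  have e2 : (PowerSeries.substAlgHom (R := ℂ) h) (PowerSeries.C c) = PowerSeries.C c := by
    have := (PowerSeries.substAlgHom (R := ℂ) h).commutes c
    simpa using this
  have e3 : (PowerSeries.substAlgHom (R := ℂ) h) (PowerSeries.X : PowerSeries ℂ) = PowerSeries.X ^ k :=
    PowerSeries.substAlgHom_X h
  rw [e2, e3]

theorem I2_ofPS_pow {q k : ℕ} (hk : k ≠ 0) (c d : ℂ) :
    ArithmeticFunction.ofPowerSeries (q ^ k)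
      (((1 - PowerSeries.C c * PowerSeries.X) * (1 - PowerSeries.C d * PowerSeries.X) :
        PowerSeries ℂ)⁻¹) =
    ArithmeticFunction.ofPowerSeries q ((1 - PowerSeries.C c * PowerSeries.X ^ k)⁻¹ *
      (1 - PowerSeries.C d * PowerSeries.X ^ k)⁻¹) := by
  rw [ArithmeticFunction.ofPowerSeries_pow q hk, I2_subst_inv hk _ (by simp),
    PowerSeries.subst_mul (PowerSeries.HasSubst.X_pow hk), I2_subst_lin hk, I2_subst_lin hk,
    PowerSeries.mul_inv_rev, mul_comm]

variable {K : Type*} [Field K] [NumberField K] [Algebra F K]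

theorem I2_local_good (w : HeightOneSpectrum (𝓞 K)) (h3 : (3 : 𝓞 K) ∉ w.asIdeal)
    (v : HeightOneSpectrum O) (hv : v.asIdeal = w.asIdeal.under O) (f : ℕ)
    (hf : w.asIdeal.inertiaDeg O = f) (hf0 : f ≠ 0) :
    ((((E27.baseChange K).baseChange (w.adicCompletion K)).localEulerFactor
      (w.adicCompletionIntegers K) : ArithmeticFunction ℤ) : ArithmeticFunction ℂ) =
      ArithmeticFunction.ofPowerSeries (Ideal.absNorm v.asIdeal)
       ((1 - PowerSeries.C (e (gen v) ^ f) * PowerSeries.X ^ f)⁻¹ *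
        (1 - PowerSeries.C ((starRingEnd ℂ) (e (gen v)) ^ f) * PowerSeries.X ^ f)⁻¹) := by
  have hq : 1 < Ideal.absNorm w.asIdeal := by
    have h1 : Ideal.absNorm w.asIdeal ≠ 1 := by
      rw [Ne, Ideal.absNorm_eq_one_iff]; exact w.isPrime.ne_top
    have h0 : Ideal.absNorm w.asIdeal ≠ 0 := by
      rw [Ne, Ideal.absNorm_eq_zero_iff]; exact w.ne_bot
    omega
  have hP := loc_good K w h3 v hv
  have hP0 : (((E27.baseChange K).baseChange (w.adicCompletion K)).localPolynomial
      (w.adicCompletionIntegers K)).coeff 0 = 1 := by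
    have := congrArg (fun P : Polynomial ℂ => P.coeff 0) hP
    simp only [Polynomial.coeff_map, Polynomial.mul_coeff_zero] at this
    simpa using this
  rw [WeierstrassCurve.localEulerFactor, (residue_card K w).2, I2_cast_ofPS hq,
    WeierstrassCurve.localPowerSeries, I2_map_invOfUnit _ hP0, hP, absNorm_inertia K w v hv, hf]
  rw [← I2_ofPS_pow hf0]
  congr 2
  simp

theorem I2_local_bad (w : HeightOneSpectrum (𝓞 K))
    (h3 : w.valuation K (3 : K) = WithZero.exp (-2 : ℤ)) :
    ((((E27.baseChange K).baseChange (w.adicCompletion K)).localEulerFactor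
      (w.adicCompletionIntegers K) : ArithmeticFunction ℤ) : ArithmeticFunction ℂ) = 1 := by
  rw [WeierstrassCurve.localEulerFactor, WeierstrassCurve.localPowerSeries, loc_bad K w h3]
  have : PowerSeries.invOfUnit ((1 : Polynomial ℤ) : PowerSeries ℤ) 1 = 1 := by
    have h := PowerSeries.mul_invOfUnit ((1 : Polynomial ℤ) : PowerSeries ℤ) 1 (by simp)
    simpa using h
  rw [this, map_one]
  simp

/-- The places above v. -/
theorem I2_over_finite (v : HeightOneSpectrum O) :
    {w : HeightOneSpectrum (𝓞 K) | v.asIdeal = w.asIdeal.under O}.Finite ∧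
      {w : HeightOneSpectrum (𝓞 K) | v.asIdeal = w.asIdeal.under O}.ncard =
        (v.asIdeal.primesOver (𝓞 K)).ncard := by
  have hv0 : v.asIdeal ≠ ⊥ := v.ne_bot
  have himg : (fun w : HeightOneSpectrum (𝓞 K) => w.asIdeal) ''
      {w : HeightOneSpectrum (𝓞 K) | v.asIdeal = w.asIdeal.under O} =
        v.asIdeal.primesOver (𝓞 K) := by
    ext P
    constructor
    · rintro ⟨w, hw, rfl⟩
      exact ⟨w.isPrime, ⟨hw⟩⟩
    · rintro ⟨hP, hPl⟩
      have hPne : P ≠ ⊥ := by
        rintro rfl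
        apply hv0
        rw [hPl.over]
        exact Ideal.under_bot O (𝓞 K)
      exact ⟨⟨P, hP, hPne⟩, hPl.over, rfl⟩
  have hinj : Function.Injective (fun w : HeightOneSpectrum (𝓞 K) => w.asIdeal) :=
    fun a b h => HeightOneSpectrum.ext h
  constructor
  · apply Set.Finite.of_finite_image (f := fun w : HeightOneSpectrum (𝓞 K) => w.asIdeal)
    · rw [himg]
      exact IsDedekindDomain.primesOver_finite v.asIdeal (𝓞 K)
    · exact hinj.injOn
  · rw [← himg, Set.ncard_image_of_injective _ hinj]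

theorem I2_bad_finite :
    {w : HeightOneSpectrum (𝓞 K) | (3 : 𝓞 K) ∈ w.asIdeal}.Finite := by
  have h := Ideal.finite_factors (R := 𝓞 K) (I := Ideal.span {(3 : 𝓞 K)}) (by
    rw [Ne, Ideal.zero_eq_bot, Ideal.span_singleton_eq_bot]; exact OfNat.ofNat_ne_zero 3)
  refine h.subset ?_
  intro w hw
  simp only [Set.mem_ofPred_eq] at hw ⊢
  rw [Ideal.dvd_span_singleton]
  exact hw

theorem I2_geo (c : ℂ) :
    PowerSeries.invOfUnit (1 - PowerSeries.C c * PowerSeries.X) 1 =
      (1 - PowerSeries.C c * PowerSeries.X : PowerSeries ℂ)⁻¹ := by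
  apply I2_inv_unique
  · simp
  · exact PowerSeries.mul_invOfUnit _ _ (by simp)

theorem I2_prod_inv {ι : Type*} (s : Finset ι) (f : ι → PowerSeries ℂ) :
    ∏ i ∈ s, (f i)⁻¹ = (∏ i ∈ s, f i)⁻¹ := by
  classical
  induction s using Finset.induction_on with
  | empty =>
    rw [Finset.prod_empty, Finset.prod_empty]
    exact I2_inv_unique (by simp) (by simp)
  | insert i s hi ih =>
    rw [Finset.prod_insert hi, Finset.prod_insert hi, ih, PowerSeries.mul_inv_rev, mul_comm]

theorem I2_coe_lin (c : ℂ) : ((1 - Polynomial.C c * Polynomial.X : Polynomial ℂ) : PowerSeries ℂ) =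
    1 - PowerSeries.C c * PowerSeries.X := by
  simp

/-- The local factors at the places above v. -/
theorem I2_place (S : Set K)
    (hS : ∀ s ∈ S, ∃ a : O, Adm a ∧ s ^ 2 = algebraMap O K a) (hgen : Algebra.adjoin F S = ⊤)
    (a : ((K ≃ₐ[F] K) →* ℤˣ) → O) (s : ((K ≃ₐ[F] K) →* ℤˣ) → K)
    (hk : ∀ χ, Adm (a χ) ∧ s χ ≠ 0 ∧ s χ ^ 2 = algebraMap O K (a χ) ∧
      ∀ g : K ≃ₐ[F] K, g (s χ) = (((χ g : ℤˣ) : ℤ) : K) * s χ)
    [Fintype ((K ≃ₐ[F] K) →* ℤˣ)]
    (v : HeightOneSpectrum O) (h3 : (3 : O) ∉ v.asIdeal)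
    (T : Finset (HeightOneSpectrum (𝓞 K)))
    (hT : ∀ w, w ∈ T ↔ v.asIdeal = w.asIdeal.under O) :
    ∏ w ∈ T, ((((E27.baseChange K).baseChange (w.adicCompletion K)).localEulerFactor
      (w.adicCompletionIntegers K) : ArithmeticFunction ℤ) : ArithmeticFunction ℂ) =
    ∏ χ : (K ≃ₐ[F] K) →* ℤˣ,
      (ArithmeticFunction.ofPowerSeries (Ideal.absNorm v.asIdeal)
        (PowerSeries.invOfUnit (1 - PowerSeries.C ((Sym (a χ) (gen v) : ℂ) * e (gen v)) *
          PowerSeries.X) 1) *
       ArithmeticFunction.ofPowerSeries (Ideal.absNorm v.asIdeal)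
        (PowerSeries.invOfUnit (1 - PowerSeries.C ((Sym (a χ) (gen v) : ℂ) *
          (starRingEnd ℂ) (e (gen v))) * PowerSeries.X) 1)) := by
  have : IsGalois F K := isGalois S hS hgen
  set f := v.asIdeal.inertiaDegIn (𝓞 K) with hfdef
  set g := (v.asIdeal.primesOver (𝓞 K)).ncard with hgdef
  have hcard : T.card = g := by
    rw [hgdef, ← (I2_over_finite (K := K) v).2, ← Set.ncard_coe_finset]
    congr 1
    ext w
    simp [hT w]
  have hf0 : f ≠ 0 := Ideal.inertiaDegIn_ne_zero (K ≃ₐ[F] K)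
  have hloc : ∀ w ∈ T, ((((E27.baseChange K).baseChange (w.adicCompletion K)).localEulerFactor
      (w.adicCompletionIntegers K) : ArithmeticFunction ℤ) : ArithmeticFunction ℂ) =
      ArithmeticFunction.ofPowerSeries (Ideal.absNorm v.asIdeal)
       ((1 - PowerSeries.C (e (gen v) ^ f) * PowerSeries.X ^ f)⁻¹ *
        (1 - PowerSeries.C ((starRingEnd ℂ) (e (gen v)) ^ f) * PowerSeries.X ^ f)⁻¹) := by
    intro w hw
    have hv := (hT w).1 hw
    have hw3 : (3 : 𝓞 K) ∉ w.asIdeal := by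
      intro h
      apply h3
      rw [hv, Ideal.mem_comap, map_ofNat]
      exact h
    have : w.asIdeal.LiesOver v.asIdeal := ⟨hv⟩
    have := w.isPrime
    apply I2_local_good w hw3 v hv f _ hf0
    rw [hfdef, Ideal.inertiaDegIn_eq_inertiaDeg v.asIdeal w.asIdeal (K ≃ₐ[F] K)]
  rw [Finset.prod_congr rfl hloc, Finset.prod_const, hcard, ← map_pow, mul_pow]
  have hA : ∀ x : ℂ, (((1 - PowerSeries.C (x ^ f) * PowerSeries.X ^ f : PowerSeries ℂ)⁻¹) ^ g) =
      ∏ χ : (K ≃ₐ[F] K) →* ℤˣ, PowerSeries.invOfUnit (1 - PowerSeries.C ((Sym (a χ) (gen v) : ℂ) * x) *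
          PowerSeries.X) 1 := by
    intro x
    have hd := dec S hS hgen v h3 a s hk x
    rw [finprod_eq_prod_of_fintype] at hd
    have hd2 := congrArg (fun P : Polynomial ℂ => (P : PowerSeries ℂ)) hd
    have e1 : ((∏ χ : (K ≃ₐ[F] K) →* ℤˣ, (1 - Polynomial.C ((Sym (a χ) (gen v) : ℂ) * x) *
        Polynomial.X) : Polynomial ℂ) : PowerSeries ℂ) =
        ∏ χ : (K ≃ₐ[F] K) →* ℤˣ, (1 - PowerSeries.C ((Sym (a χ) (gen v) : ℂ) * x) *
        PowerSeries.X) := by
      rw [← Polynomial.coeToPowerSeries.ringHom_apply, map_prod]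
      refine Finset.prod_congr rfl fun χ _ => ?_
      rw [Polynomial.coeToPowerSeries.ringHom_apply]
      exact I2_coe_lin _
    rw [e1] at hd2
    rw [← hfdef, ← hgdef] at hd2
    have e2 : (((1 - Polynomial.C (x ^ f) * Polynomial.X ^ f) ^ g : Polynomial ℂ) : PowerSeries ℂ) =
        (1 - PowerSeries.C (x ^ f) * PowerSeries.X ^ f) ^ g := by
      simp
    rw [e2] at hd2
    simp_rw [I2_geo]
    rw [I2_prod_inv, hd2, ← Finset.card_range g, ← Finset.prod_const, ← Finset.prod_const, I2_prod_inv]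
  rw [hA, hA, map_mul, map_prod, map_prod, Finset.prod_mul_distrib]

/-- The place below a place. -/
noncomputable def I2_under (w : HeightOneSpectrum (𝓞 K)) : HeightOneSpectrum O :=
  ⟨w.asIdeal.under O, w.isPrime.under O, by
    exact Ideal.IsIntegral.comap_ne_bot _ w.ne_bot⟩

theorem I2_under_three (w : HeightOneSpectrum (𝓞 K)) :
    (3 : O) ∈ (I2_under w).asIdeal ↔ (3 : 𝓞 K) ∈ w.asIdeal := by
  change (3 : O) ∈ Ideal.comap (algebraMap O (𝓞 K)) w.asIdeal ↔ _
  rw [Ideal.mem_comap, map_ofNat]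

theorem LFunction_eq (S : Set K)
    (hS : ∀ s ∈ S, ∃ a : O, Adm a ∧ s ^ 2 = algebraMap O K a) (hgen : Algebra.adjoin F S = ⊤)
    (a : ((K ≃ₐ[F] K) →* ℤˣ) → O) (s : ((K ≃ₐ[F] K) →* ℤˣ) → K)
    (hk : ∀ χ, Adm (a χ) ∧ s χ ≠ 0 ∧ s χ ^ 2 = algebraMap O K (a χ) ∧
      ∀ g : K ≃ₐ[F] K, g (s χ) = (((χ g : ℤˣ) : ℤ) : K) * s χ) (n : ℕ) :
    (((E27.baseChange K).LFunction n : ℤ) : ℂ) =
      (∏ᶠ χ : (K ≃ₐ[F] K) →* ℤˣ, (Ac (fun x => (Sym (a χ) x : ℂ) * e x) *
        Ac (fun x => (Sym (a χ) x : ℂ) * (starRingEnd ℂ) (e x)))) n := by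
  classical
  have : IsGalois F K := isGalois S hS hgen
  have hfin : Finite ((K ≃ₐ[F] K) →* ℤˣ) := (card_dual _ (gal_sq S hS hgen)).1
  have := Fintype.ofFinite ((K ≃ₐ[F] K) →* ℤˣ)
  rw [finprod_eq_prod_of_fintype]
  set L : HeightOneSpectrum (𝓞 K) → ArithmeticFunction ℤ := fun w =>
    ((E27.baseChange K).baseChange (w.adicCompletion K)).localEulerFactor
      (w.adicCompletionIntegers K) with hLdef
  have hL : ∀ᶠ T in Filter.atTop, (∏ w ∈ T, L w) n = (E27.baseChange K).LFunction n := by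
    have hN : Northcott (fun w : HeightOneSpectrum (𝓞 K) =>
        Nat.card (IsLocalRing.ResidueField (w.adicCompletionIntegers K))) := by
      have h1 : (fun w : HeightOneSpectrum (𝓞 K) =>
        Nat.card (IsLocalRing.ResidueField (w.adicCompletionIntegers K))) =
          fun w => Ideal.absNorm w.asIdeal := funext fun w => (residue_card K w).2
      rw [h1]
      infer_instance
    exact ArithmeticFunction.tendsTo_eulerProduct_ofPowerSeries
      (fun w : HeightOneSpectrum (𝓞 K) =>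
        Nat.card (IsLocalRing.ResidueField (w.adicCompletionIntegers K)))
      (fun w => ((E27.baseChange K).baseChange (w.adicCompletion K)).localPowerSeries
        (w.adicCompletionIntegers K))
      (fun w => by simp [WeierstrassCurve.localPowerSeries]) n
  obtain ⟨s0, hs0⟩ := Filter.eventually_atTop.1 hL
  have hmulA : ∀ (x : ℂ → ℂ) (hx : ∀ y z, x (y * z) = x y * x z) (χ : (K ≃ₐ[F] K) →* ℤˣ) (y z : O),
      (Sym (a χ) (y * z) : ℂ) * x (e (y * z)) =
        ((Sym (a χ) y : ℂ) * x (e y)) * ((Sym (a χ) z : ℂ) * x (e z)) := by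
    intro x hx χ y z
    rw [Sym_mul (hk χ).1.1.ne_zero, map_mul, hx]
    push_cast
    ring
  have hR : ∀ᶠ t : Finset {v : HeightOneSpectrum O // (3 : O) ∉ v.asIdeal} in Filter.atTop,
      ∀ m ∈ Finset.range (n + 1), ∀ χ : (K ≃ₐ[F] K) →* ℤˣ,
      (∏ v ∈ t, ArithmeticFunction.ofPowerSeries (Ideal.absNorm v.1.asIdeal)
        (PowerSeries.invOfUnit (1 - PowerSeries.C ((Sym (a χ) (gen v.1) : ℂ) * e (gen v.1)) *
          PowerSeries.X) 1)) m = Ac (fun x => (Sym (a χ) x : ℂ) * e x) m ∧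
      (∏ v ∈ t, ArithmeticFunction.ofPowerSeries (Ideal.absNorm v.1.asIdeal)
        (PowerSeries.invOfUnit (1 - PowerSeries.C ((Sym (a χ) (gen v.1) : ℂ) *
          (starRingEnd ℂ) (e (gen v.1))) * PowerSeries.X) 1)) m =
          Ac (fun x => (Sym (a χ) x : ℂ) * (starRingEnd ℂ) (e x)) m := by
    rw [Filter.eventually_all_finset]
    intro m _
    rw [Filter.eventually_all]
    intro χ
    refine (EP (fun x => (Sym (a χ) x : ℂ) * e x) (hmulA id (fun _ _ => rfl) χ)
      (by simp [Sym_one]) m).and ?_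
    exact EP (fun x => (Sym (a χ) x : ℂ) * (starRingEnd ℂ) (e x))
      (hmulA (starRingEnd ℂ) (map_mul _) χ) (by simp [Sym_one]) m
  obtain ⟨t0, ht0⟩ := Filter.eventually_atTop.1 hR
  set ov : HeightOneSpectrum O → Finset (HeightOneSpectrum (𝓞 K)) :=
    fun v => (I2_over_finite (K := K) v).1.toFinset with hov
  have hmo : ∀ v w, w ∈ ov v ↔ v.asIdeal = w.asIdeal.under O := by
    intro v w
    simp [hov]
  set bad : Finset (HeightOneSpectrum (𝓞 K)) := (I2_bad_finite (K := K)).toFinset with hbad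
  have hmb : ∀ w, w ∈ bad ↔ (3 : 𝓞 K) ∈ w.asIdeal := by
    intro w
    simp [hbad]
  set t : Finset {v : HeightOneSpectrum O // (3 : O) ∉ v.asIdeal} :=
    t0 ∪ ((s0.image I2_under).subtype (fun v => (3 : O) ∉ v.asIdeal)) with ht
  set T : Finset (HeightOneSpectrum (𝓞 K)) := (t.biUnion fun v => ov v.1) ∪ bad with hTdef
  have hsub : s0 ⊆ T := by
    intro w hw
    by_cases h3 : (3 : 𝓞 K) ∈ w.asIdeal
    · exact Finset.mem_union_right _ ((hmb w).2 h3)
    · apply Finset.mem_union_left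
      rw [Finset.mem_biUnion]
      refine ⟨⟨I2_under w, fun h => h3 ((I2_under_three w).1 h)⟩, ?_, ?_⟩
      · rw [ht]
        apply Finset.mem_union_right
        rw [Finset.mem_subtype]
        exact Finset.mem_image_of_mem _ hw
      · rw [hmo]
        rfl
  have h1 := hs0 T hsub
  rw [← h1, ← ArithmeticFunction.intCoe_apply, I2_cast_prod]
  have hdisj : Disjoint (t.biUnion fun v => ov v.1) bad := by
    rw [Finset.disjoint_left]
    intro w hw hb
    rw [Finset.mem_biUnion] at hw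
    obtain ⟨v, _, hv⟩ := hw
    rw [hmo] at hv
    apply v.2
    rw [hv, Ideal.mem_comap, map_ofNat]
    exact (hmb w).1 hb
  rw [hTdef, Finset.prod_union hdisj]
  have hbadprod : ∏ w ∈ bad, ((L w : ArithmeticFunction ℤ) : ArithmeticFunction ℂ) = 1 := by
    apply Finset.prod_eq_one
    intro w hw
    exact I2_local_bad w (val_three S hS hgen w ((hmb w).1 hw))
  rw [hbadprod, mul_one, Finset.prod_biUnion]
  · have h2 : ∀ v ∈ t, ∏ w ∈ ov v.1, ((L w : ArithmeticFunction ℤ) : ArithmeticFunction ℂ) = _ :=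
      fun v _ => I2_place S hS hgen a s hk v.1 v.2 (ov v.1) (hmo v.1)
    rw [Finset.prod_congr rfl h2, Finset.prod_comm]
    have hts : t0 ⊆ t := Finset.subset_union_left
    refine I2_prod_congr Finset.univ _ _ ?_ n le_rfl
    intro χ _ m hm
    rw [Finset.prod_mul_distrib]
    refine I2_mul_congr ?_ ?_ m hm
    · intro m' hm'
      exact (ht0 t hts m' (Finset.mem_range.2 (by omega)) χ).1
    · intro m' hm'
      exact (ht0 t hts m' (Finset.mem_range.2 (by omega)) χ).2
  · intro v _ v' _ hne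
    rw [Function.onFun, Finset.disjoint_left]
    intro w hw hw'
    rw [hmo] at hw hw'
    apply hne
    apply Subtype.ext
    apply HeightOneSpectrum.ext
    rw [hw, hw']

end H55B
end

-- from Lib.H55C.B8
section

open NumberField IsDedekindDomain

namespace H55C

open H55B

/-! Chunk B8 (M): Dirichlet series of the local Euler factors. LEF K w = ofPowerSeries q (1/((1 - aX)(1 - bX))), q = absNorm w,
a = e(gen v)^f, b = conj a (loc_good, residue_card, I2_cast_ofPS, I2_map_invOfUnit as in H55B.I2 I2_local_good), |a|^2 = |b|^2 = q.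
The Dirichlet series of ofPowerSeries q (1/(1 - aX)) is sum a^n q^(-ns) = 1/(1 - a q^(-s)), absolutely convergent for
Re s > 1/2; product of the two: ArithmeticFunction.LSeriesHasSum_mul. EF_analytic: |a q^(-s)| < 1, so the
denominators do not vanish. -/

theorem b8_pow (q k : ℕ) (s : ℂ) : (((q ^ k : ℕ) : ℂ)) ^ s = ((q : ℂ) ^ s) ^ k := by
  induction k with
  | zero => simp
  | succ k ih =>
    rw [pow_succ, Nat.cast_mul, Complex.natCast_mul_natCast_cpow, ih, pow_succ]

theorem b8_ps (c : ℂ) : (1 - PowerSeries.C c * PowerSeries.X : PowerSeries ℂ)⁻¹ =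
    PowerSeries.mk (fun n => c^n) := by
  rw [eq_comm, PowerSeries.eq_inv_iff_mul_eq_one (by simp)]
  ext n
  rw [mul_sub, mul_one, map_sub, PowerSeries.coeff_mk]
  rcases n with _ | n
  · simp
  · simp
    rw [← mul_assoc, PowerSeries.coeff_succ_mul_X]
    simp [pow_succ]

/-- the geometric series as a Dirichlet series -/
theorem b8_geo {q : ℕ} (hq : 1 < q) (c s : ℂ) (hc : ‖c * (q : ℂ) ^ (-s)‖ < 1) :
    LSeriesHasSum (fun n => (ArithmeticFunction.ofPowerSeries q
      ((1 - PowerSeries.C c * PowerSeries.X : PowerSeries ℂ)⁻¹) : ArithmeticFunction ℂ) n) s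
      ((1 - c * (q : ℂ) ^ (-s))⁻¹) := by
  have hinj := Nat.pow_right_injective hq
  have hgeo := hasSum_geometric_of_norm_lt_one hc
  have hfun : (LSeries.term (fun n => (ArithmeticFunction.ofPowerSeries q
      ((1 - PowerSeries.C c * PowerSeries.X : PowerSeries ℂ)⁻¹) : ArithmeticFunction ℂ) n) s) ∘
      (fun x => q ^ x) = fun k => (c * (q : ℂ) ^ (-s)) ^ k := by
    funext k
    have hk : q ^ k ≠ 0 := pow_ne_zero _ (by omega)
    rw [Function.comp_apply, LSeries.term_of_ne_zero hk, ArithmeticFunction.ofPowerSeries_apply hq,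
      b8_ps, b8_pow]
    have h1 : Function.extend (fun x => q ^ x)
        (fun x => (PowerSeries.coeff x) (PowerSeries.mk (fun n => c^n))) 0 (q ^ k) =
        (PowerSeries.coeff k) (PowerSeries.mk (fun n => c^n)) :=
      hinj.extend_apply (fun x => (PowerSeries.coeff x) (PowerSeries.mk (fun n => c^n))) 0 k
    rw [h1]
    simp only [PowerSeries.coeff_mk]
    rw [Complex.cpow_neg, mul_pow, inv_pow, div_eq_mul_inv]
  unfold LSeriesHasSum
  rw [← hinj.hasSum_iff, hfun]
  · exact hgeo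
  · intro n hn
    by_cases hn0 : n = 0
    · rw [hn0, LSeries.term_zero]
    · rw [LSeries.term_of_ne_zero hn0, ArithmeticFunction.ofPowerSeries_apply hq,
        Function.extend_apply' _ _ _ (fun h => hn h)]
      simp

variable {K : Type} [Field K] [NumberField K] [Algebra F K]

omit [Algebra F K] in
theorem b8_one_lt (w : HeightOneSpectrum (𝓞 K)) : 1 < Ideal.absNorm w.asIdeal := by
  have h1 : Ideal.absNorm w.asIdeal ≠ 1 := by
    rw [Ne, Ideal.absNorm_eq_one_iff]; exact w.isPrime.ne_top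
  have h0 : Ideal.absNorm w.asIdeal ≠ 0 := by
    rw [Ne, Ideal.absNorm_eq_zero_iff]; exact w.ne_bot
  omega

theorem b8_LEF (w : HeightOneSpectrum (𝓞 K)) (h3 : (3 : 𝓞 K) ∉ w.asIdeal)
    (v : HeightOneSpectrum O) (hv : v.asIdeal = w.asIdeal.under O) :
    LEF K w = ArithmeticFunction.ofPowerSeries (Ideal.absNorm w.asIdeal)
        ((1 - PowerSeries.C (e (gen v) ^ (w.asIdeal.inertiaDeg O)) * PowerSeries.X)⁻¹) *
      ArithmeticFunction.ofPowerSeries (Ideal.absNorm w.asIdeal)
        ((1 - PowerSeries.C ((starRingEnd ℂ) (e (gen v)) ^ (w.asIdeal.inertiaDeg O)) *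
          PowerSeries.X)⁻¹) := by
  have hin := absNorm_inertia K w v hv
  have hf0 : w.asIdeal.inertiaDeg O ≠ 0 := by
    intro h0
    rw [h0, pow_zero] at hin
    have h1 := b8_one_lt w
    omega
  unfold LEF
  rw [I2_local_good w h3 v hv _ rfl hf0, ← I2_ofPS_pow hf0, ← hin, PowerSeries.mul_inv_rev, map_mul,
    mul_comm]

theorem b8_norm (w : HeightOneSpectrum (𝓞 K)) (h3 : (3 : 𝓞 K) ∉ w.asIdeal)
    (v : HeightOneSpectrum O) (hv : v.asIdeal = w.asIdeal.under O) {s : ℂ} (hs : 1 / 2 < s.re)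
    {c : ℂ} (hc : ‖c‖ = ‖e (gen v)‖ ^ (w.asIdeal.inertiaDeg O)) :
    ‖c * (Ideal.absNorm w.asIdeal : ℂ) ^ (-s)‖ < 1 := by
  have hv3 : (3 : O) ∉ v.asIdeal := by
    intro h
    apply h3
    rw [hv, Ideal.mem_comap, map_ofNat] at h
    exact h
  have hq := b8_one_lt w
  have hq0 : (0 : ℝ) < (Ideal.absNorm w.asIdeal : ℝ) := by
    have : 0 < Ideal.absNorm w.asIdeal := by omega
    exact_mod_cast this
  have hsq : ‖c‖ ^ 2 = (Ideal.absNorm w.asIdeal : ℝ) := by
    rw [hc, absNorm_inertia K w v hv, absNorm_gen v hv3]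
    push_cast
    rw [Nm_eq, ← pow_mul, ← pow_mul, mul_comm]
  have hc2 : ‖c‖ = (Ideal.absNorm w.asIdeal : ℝ) ^ (1 / 2 : ℝ) := by
    rw [← hsq, ← Real.sqrt_eq_rpow, Real.sqrt_sq (norm_nonneg _)]
  rw [norm_mul, hc2, Complex.norm_natCast_cpow_of_pos (by omega), Complex.neg_re,
    ← Real.rpow_add hq0]
  apply Real.rpow_lt_one_of_one_lt_of_neg
  · exact_mod_cast hq
  · linarith

theorem LEF_series (w : HeightOneSpectrum (𝓞 K)) (h3 : (3 : 𝓞 K) ∉ w.asIdeal)
    (v : HeightOneSpectrum O) (hv : v.asIdeal = w.asIdeal.under O) (s : ℂ) (hs : 1 / 2 < s.re) :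
    LSeriesHasSum (fun n => LEF K w n) s
      (((1 - e (gen v) ^ (w.asIdeal.inertiaDeg O) * (Ideal.absNorm w.asIdeal : ℂ) ^ (-s)) *
        (1 - (starRingEnd ℂ) (e (gen v)) ^ (w.asIdeal.inertiaDeg O) *
          (Ideal.absNorm w.asIdeal : ℂ) ^ (-s)))⁻¹) := by
  rw [b8_LEF w h3 v hv, mul_inv]
  apply ArithmeticFunction.LSeriesHasSum_mul
  · exact b8_geo (b8_one_lt w) _ _ (b8_norm w h3 v hv hs (norm_pow _ _))
  · refine b8_geo (b8_one_lt w) _ _ (b8_norm w h3 v hv hs ?_)
    rw [norm_pow, RCLike.norm_conj]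

theorem EF_analytic (w : HeightOneSpectrum (𝓞 K)) (h3 : (3 : 𝓞 K) ∉ w.asIdeal)
    (v : HeightOneSpectrum O) (hv : v.asIdeal = w.asIdeal.under O) :
    AnalyticOnNhd ℂ (fun s : ℂ =>
      (((1 - e (gen v) ^ (w.asIdeal.inertiaDeg O) * (Ideal.absNorm w.asIdeal : ℂ) ^ (-s)) *
        (1 - (starRingEnd ℂ) (e (gen v)) ^ (w.asIdeal.inertiaDeg O) *
          (Ideal.absNorm w.asIdeal : ℂ) ^ (-s)))⁻¹)) {s | 1 / 2 < s.re} := by
  have hop : IsOpen {s : ℂ | 1 / 2 < s.re} := isOpen_lt continuous_const Complex.continuous_re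
  apply DifferentiableOn.analyticOnNhd _ hop
  have hq := b8_one_lt w
  have hq0 : (Ideal.absNorm w.asIdeal : ℂ) ≠ 0 := by
    have : Ideal.absNorm w.asIdeal ≠ 0 := by omega
    exact_mod_cast this
  have hd : Differentiable ℂ (fun s : ℂ => (Ideal.absNorm w.asIdeal : ℂ) ^ (-s)) := fun s =>
    (differentiableAt_id.neg).const_cpow (Or.inl hq0)
  intro s hs
  have hs' : 1 / 2 < s.re := hs
  refine DifferentiableAt.differentiableWithinAt (DifferentiableAt.inv ?_ ?_)
  · exact ((differentiableAt_const _).sub ((differentiableAt_const _).mul (hd s))).mul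
      ((differentiableAt_const _).sub ((differentiableAt_const _).mul (hd s)))
  · refine mul_ne_zero ?_ ?_
    · intro h0
      have h1 := b8_norm w h3 v hv hs' (c := e (gen v) ^ (w.asIdeal.inertiaDeg O)) (norm_pow _ _)
      rw [sub_eq_zero] at h0
      rw [← h0, norm_one] at h1
      exact lt_irrefl _ h1
    · intro h0
      have h1 := b8_norm w h3 v hv hs' (c := (starRingEnd ℂ) (e (gen v)) ^ (w.asIdeal.inertiaDeg O))
        (by rw [norm_pow, RCLike.norm_conj])
      rw [sub_eq_zero] at h0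
      rw [← h0, norm_one] at h1
      exact lt_irrefl _ h1

end H55C
end

-- from Lib.H55N.H5
section

open NumberField IsDedekindDomain

namespace H55N

open H55B H55C

section H5

variable {K : Type} [Field K] [NumberField K]

/-- The ideals of norm n. -/
noncomputable def H5_fs (K : Type) [Field K] [NumberField K] (n : ℕ) : Finset (Ideal (𝓞 K)) :=
  (Ideal.finite_setOf_absNorm_eq n).toFinset

theorem H5_mem_fs {n : ℕ} {a : Ideal (𝓞 K)} : a ∈ H5_fs K n ↔ Ideal.absNorm a = n := by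
  unfold H5_fs
  rw [Set.Finite.mem_toFinset]
  rfl

/-- All prime divisors of a are in S. -/
def H5_sp (S : Finset (HeightOneSpectrum (𝓞 K))) (a : Ideal (𝓞 K)) : Prop :=
  ∀ w : HeightOneSpectrum (𝓞 K), a ≤ w.asIdeal → w ∈ S

open Classical in
/-- The partial Euler products. -/
noncomputable def H5_B (h : Ideal (𝓞 K) →*₀ ℂ) (S : Finset (HeightOneSpectrum (𝓞 K))) :
    ArithmeticFunction ℂ where
  toFun n := if n = 0 then 0 else ∑ a ∈ (H5_fs K n).filter (H5_sp S), h a
  map_zero' := if_pos rfl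

open Classical in
theorem H5_B_apply (h : Ideal (𝓞 K) →*₀ ℂ) (S : Finset (HeightOneSpectrum (𝓞 K))) {n : ℕ}
    (hn : n ≠ 0) : H5_B h S n = ∑ a ∈ (H5_fs K n).filter (H5_sp S), h a := if_neg hn

theorem H5_ne_bot {n : ℕ} (hn : n ≠ 0) {a : Ideal (𝓞 K)} (ha : Ideal.absNorm a = n) :
    a ≠ ⊥ := by
  rintro rfl
  apply hn
  rw [← ha]
  exact Ideal.absNorm_bot

theorem H5_B_empty (h : Ideal (𝓞 K) →*₀ ℂ) : H5_B h ∅ = 1 := by
  classical
  ext n
  by_cases hn : n = 0
  · subst hn
    rw [ArithmeticFunction.map_zero, ArithmeticFunction.map_zero]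
  rw [H5_B_apply h ∅ hn]
  by_cases h1 : n = 1
  · subst h1
    rw [ArithmeticFunction.one_one]
    have h2 : (H5_fs K 1).filter (H5_sp ∅) = {1} := by
      ext a
      rw [Finset.mem_filter, Finset.mem_singleton, H5_mem_fs, Ideal.absNorm_eq_one_iff,
        Ideal.one_eq_top]
      constructor
      · exact fun h => h.1
      · rintro rfl
        refine ⟨rfl, ?_⟩
        intro w hw
        exact absurd (top_le_iff.1 hw) w.isPrime.ne_top
    rw [h2, Finset.sum_singleton, map_one]
  · rw [ArithmeticFunction.one_apply_ne h1]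
    apply Finset.sum_eq_zero
    intro a ha
    exfalso
    rw [Finset.mem_filter, H5_mem_fs] at ha
    obtain ⟨ha1, ha2⟩ := ha
    have hat : a ≠ ⊤ := by
      rintro rfl
      rw [Ideal.absNorm_top] at ha1
      exact h1 ha1.symm
    obtain ⟨M, hM, hM2⟩ := Ideal.exists_le_maximal _ hat
    have hM0 : M ≠ ⊥ := by
      rintro rfl
      exact H5_ne_bot hn ha1 (le_bot_iff.1 hM2)
    exact absurd (ha2 ⟨M, hM.isPrime, hM0⟩ hM2) (Finset.notMem_empty _)

theorem H5_le {w v : HeightOneSpectrum (𝓞 K)} (h : w.asIdeal ≤ v.asIdeal) : w = v :=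
  HeightOneSpectrum.ext
    ((w.isPrime.isMaximal w.ne_bot).eq_of_le v.isPrime.ne_top h)

theorem H5_sp_mul (S : Finset (HeightOneSpectrum (𝓞 K))) (w : HeightOneSpectrum (𝓞 K))
    [DecidableEq (HeightOneSpectrum (𝓞 K))] (a : Ideal (𝓞 K)) :
    H5_sp (insert w S) (w.asIdeal * a) ↔ H5_sp (insert w S) a := by
  constructor
  · intro h v hv
    exact h v (Ideal.mul_le_right.trans hv)
  · intro h v hv
    rcases v.isPrime.mul_le.1 hv with h1 | h1
    · rw [H5_le h1]
      exact Finset.mem_insert_self _ _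
    · exact h v h1

theorem H5_rec [DecidableEq (HeightOneSpectrum (𝓞 K))] (h : Ideal (𝓞 K) →*₀ ℂ)
    (S : Finset (HeightOneSpectrum (𝓞 K)))
    (w : HeightOneSpectrum (𝓞 K)) (hw : w ∉ S) {n : ℕ} (hn : n ≠ 0) :
    H5_B h (insert w S) n = (if Ideal.absNorm w.asIdeal ∣ n then
      h w.asIdeal * H5_B h (insert w S) (n / Ideal.absNorm w.asIdeal) else 0) + H5_B h S n := by
  classical
  rw [H5_B_apply h _ hn, H5_B_apply h S hn]
  rw [← Finset.sum_filter_add_sum_filter_not _ (fun a : Ideal (𝓞 K) => a ≤ w.asIdeal)]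
  congr 1
  · split_ifs with hd
    · obtain ⟨k, rfl⟩ := hd
      have hq : Ideal.absNorm w.asIdeal ≠ 0 := left_ne_zero_of_mul hn
      have hk : k ≠ 0 := right_ne_zero_of_mul hn
      rw [Nat.mul_div_cancel_left k (Nat.pos_of_ne_zero hq), H5_B_apply h _ hk, Finset.mul_sum]
      symm
      refine Finset.sum_nbij (fun a => w.asIdeal * a) ?_ ?_ ?_ ?_
      · intro a ha
        rw [Finset.mem_filter, H5_mem_fs] at ha
        rw [Finset.mem_filter, Finset.mem_filter, H5_mem_fs]
        refine ⟨⟨?_, ?_⟩, Ideal.mul_le_left⟩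
        · rw [map_mul, ha.1]
        · exact (H5_sp_mul S w a).2 ha.2
      · intro a _ b _ hab
        exact mul_left_cancel₀ (show w.asIdeal ≠ 0 from w.ne_bot) hab
      · intro a ha
        rw [Finset.mem_coe, Finset.mem_filter, Finset.mem_filter, H5_mem_fs] at ha
        obtain ⟨⟨h1, h2⟩, h3⟩ := ha
        obtain ⟨b, hb⟩ := Ideal.dvd_iff_le.2 h3
        refine ⟨b, ?_, hb.symm⟩
        rw [Finset.mem_coe, Finset.mem_filter, H5_mem_fs]
        rw [hb, map_mul] at h1
        refine ⟨Nat.eq_of_mul_eq_mul_left (Nat.pos_of_ne_zero hq) h1, ?_⟩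
        rw [hb, H5_sp_mul] at h2
        exact h2
      · intro a _
        rw [map_mul]
    · apply Finset.sum_eq_zero
      intro a ha
      exfalso
      rw [Finset.mem_filter, Finset.mem_filter, H5_mem_fs] at ha
      apply hd
      rw [← ha.1.1]
      exact Ideal.absNorm_dvd_absNorm_of_le ha.2
  · refine Finset.sum_congr ?_ fun _ _ => rfl
    ext a
    rw [Finset.mem_filter, Finset.mem_filter, Finset.mem_filter]
    constructor
    · rintro ⟨⟨h1, h2⟩, h3⟩
      refine ⟨h1, fun v hv => ?_⟩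
      rcases Finset.mem_insert.1 (h2 v hv) with h4 | h4
      · exact absurd (h4 ▸ hv) h3
      · exact h4
    · rintro ⟨h1, h2⟩
      refine ⟨⟨h1, fun v hv => Finset.mem_insert_of_mem (h2 v hv)⟩, fun h3 => hw (h2 w h3)⟩

theorem H5_X {q : ℕ} (hq : 1 < q) (B : ArithmeticFunction ℂ) {n : ℕ} (hn : n ≠ 0) :
    (ArithmeticFunction.ofPowerSeries q (PowerSeries.X : PowerSeries ℂ) * B) n =
      if q ∣ n then B (n / q) else 0 := by
  have hX : ∀ d : ℕ, ArithmeticFunction.ofPowerSeries q (PowerSeries.X : PowerSeries ℂ) d =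
      if d = q then 1 else 0 := by
    intro d
    by_cases hd : ∃ k, q ^ k = d
    · obtain ⟨k, rfl⟩ := hd
      rw [ArithmeticFunction.ofPowerSeries_apply_pow hq, PowerSeries.coeff_X]
      by_cases hk : k = 1
      · subst hk
        simp
      · rw [if_neg hk, if_neg]
        intro h
        apply hk
        have h2 : q ^ k = q ^ 1 := by rw [h, pow_one]
        exact Nat.pow_right_injective hq h2
    · rw [ArithmeticFunction.ofPowerSeries_apply hq, Function.extend_apply' _ _ _ hd, if_neg]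
      · rfl
      · intro h
        exact hd ⟨1, by rw [pow_one, h]⟩
  rw [ArithmeticFunction.mul_apply]
  simp only [hX, ite_mul, one_mul, zero_mul]
  split_ifs with hd
  · obtain ⟨k, rfl⟩ := hd
    rw [Nat.mul_div_cancel_left k (by omega)]
    rw [Finset.sum_eq_single (q, k)]
    · simp
    · rintro ⟨d, e⟩ h1 h2
      rw [Nat.mem_divisorsAntidiagonal] at h1
      rw [if_neg]
      rintro rfl
      apply h2
      have h3 : e = k := Nat.eq_of_mul_eq_mul_left (by omega) h1.1
      rw [h3]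
    · intro h1
      exfalso
      apply h1
      rw [Nat.mem_divisorsAntidiagonal]
      exact ⟨rfl, hn⟩
  · apply Finset.sum_eq_zero
    rintro ⟨d, e⟩ h1
    rw [Nat.mem_divisorsAntidiagonal] at h1
    rw [if_neg]
    rintro rfl
    exact hd ⟨e, h1.1.symm⟩

theorem H5_step [DecidableEq (HeightOneSpectrum (𝓞 K))] (h : Ideal (𝓞 K) →*₀ ℂ)
    (S : Finset (HeightOneSpectrum (𝓞 K)))
    (w : HeightOneSpectrum (𝓞 K)) (hw : w ∉ S) :
    ArithmeticFunction.ofPowerSeries (Ideal.absNorm w.asIdeal)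
        ((1 - PowerSeries.C (h w.asIdeal) * PowerSeries.X)⁻¹ : PowerSeries ℂ) * H5_B h S =
      H5_B h (insert w S) := by
  have hq := b8_one_lt w
  have h1 : H5_B h S = ArithmeticFunction.ofPowerSeries (Ideal.absNorm w.asIdeal)
        ((1 - PowerSeries.C (h w.asIdeal) * PowerSeries.X) : PowerSeries ℂ) *
        H5_B h (insert w S) := by
    have h2 : (1 - PowerSeries.C (h w.asIdeal) * PowerSeries.X : PowerSeries ℂ) =
        1 - (h w.asIdeal) • PowerSeries.X := by
      rw [PowerSeries.smul_eq_C_mul]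
    rw [h2, map_sub, map_one, map_smul, sub_mul, one_mul, smul_mul_assoc]
    ext n
    by_cases hn : n = 0
    · subst hn
      rw [ArithmeticFunction.map_zero, ArithmeticFunction.map_zero]
    have h3 := H5_rec h S w hw hn
    have h4 := H5_X hq (H5_B h (insert w S)) hn
    have h5 : (H5_B h (insert w S) - h w.asIdeal •
        (ArithmeticFunction.ofPowerSeries (Ideal.absNorm w.asIdeal)
          (PowerSeries.X : PowerSeries ℂ) * H5_B h (insert w S))) n =
        H5_B h (insert w S) n - h w.asIdeal *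
        (ArithmeticFunction.ofPowerSeries (Ideal.absNorm w.asIdeal)
          (PowerSeries.X : PowerSeries ℂ) * H5_B h (insert w S)) n := by
      rw [sub_eq_add_neg, ArithmeticFunction.add_apply, ArithmeticFunction.neg_apply,
        ArithmeticFunction.smul_map, smul_eq_mul, sub_eq_add_neg]
    rw [h5, h4]
    have h6 : H5_B h (insert w S) n = (if Ideal.absNorm w.asIdeal ∣ n then
      h w.asIdeal * H5_B h (insert w S) (n / Ideal.absNorm w.asIdeal) else 0) +
        H5_B h S n := by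
      exact h3
    rw [h6]
    split_ifs <;> ring
  rw [h1, ← mul_assoc, ← map_mul, PowerSeries.inv_mul_cancel _ (by simp), map_one, one_mul]

/-- Chunk H5 (M/L), formal Euler product. For a finite set S of primes put B_S(n) = the sum of h a over the ideals a of norm n all of
whose prime factors are in S (n <> 0). By induction on S the finite product over S is B_S: the factor of w is the arithmetic function
with value h(w)^k at N(w)^k and 0 elsewhere (b8_ps in H55C.B8, ArithmeticFunction.ofPowerSeries_apply), and every ideal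
a supported on S + w is uniquely w^k a' with a' supported on S, N(a) = N(w)^k N(a'), h(a) = h(w)^k h(a'). If S contains
all primes of norm <= n (finitely many: Ideal.finite_setOf_absNorm_le and injectivity of asIdeal), then B_S(n) = AI h n for
n <> 0. For n = 0 both sides are 0. Compare the Euler product for O in H55B.I1. -/
theorem AI_euler {K : Type} [Field K] [NumberField K] (h : Ideal (𝓞 K) →*₀ ℂ) (n : ℕ) :
    ∀ᶠ S : Finset (HeightOneSpectrum (𝓞 K)) in Filter.atTop,
      (∏ w ∈ S, ArithmeticFunction.ofPowerSeries (Ideal.absNorm w.asIdeal)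
        ((1 - PowerSeries.C (h w.asIdeal) * PowerSeries.X)⁻¹ : PowerSeries ℂ)) n = AI h n := by
  classical
  have hprod : ∀ S : Finset (HeightOneSpectrum (𝓞 K)),
      (∏ w ∈ S, ArithmeticFunction.ofPowerSeries (Ideal.absNorm w.asIdeal)
        ((1 - PowerSeries.C (h w.asIdeal) * PowerSeries.X)⁻¹ : PowerSeries ℂ)) = H5_B h S := by
    intro S
    induction S using Finset.induction_on with
    | empty => rw [Finset.prod_empty, H5_B_empty]
    | insert w S hw ih => rw [Finset.prod_insert hw, ih, H5_step h S w hw]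
  by_cases hn : n = 0
  · subst hn
    filter_upwards with S
    rw [ArithmeticFunction.map_zero, ArithmeticFunction.map_zero]
  have hfin : {w : HeightOneSpectrum (𝓞 K) | Ideal.absNorm w.asIdeal ≤ n}.Finite := by
    have h1 := Ideal.finite_setOf_absNorm_le (S := 𝓞 K) n
    exact h1.preimage (f := fun w : HeightOneSpectrum (𝓞 K) => w.asIdeal)
      (fun v _ w _ hvw => HeightOneSpectrum.ext hvw)
  filter_upwards [Filter.eventually_ge_atTop hfin.toFinset] with S hS
  rw [hprod, H5_B_apply h S hn]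
  have h2 : AI h n = ∑ᶠ (a : Ideal (𝓞 K)) (_ : Ideal.absNorm a = n), h a := if_neg hn
  rw [h2]
  have h3 : ∑ᶠ (a : Ideal (𝓞 K)) (_ : Ideal.absNorm a = n), h a =
      ∑ a ∈ H5_fs K n, h a := by
    rw [← finsum_mem_finset_eq_sum]
    refine finsum_congr fun a => ?_
    simp only [H5_mem_fs]
  rw [h3]
  refine Finset.sum_congr ?_ fun _ _ => rfl
  rw [Finset.filter_eq_self]
  intro a ha w hw
  rw [H5_mem_fs] at ha
  apply hS
  rw [Set.Finite.mem_toFinset, Set.mem_setOf_eq]
  have h4 := Ideal.absNorm_dvd_absNorm_of_le hw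
  rw [ha] at h4
  exact Nat.le_of_dvd (Nat.pos_of_ne_zero hn) h4

end H5

end H55N
end
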