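import Mathlib
import Pool.Agent.Lib.H1M.PP.D_H28R_Defs
import Pool.Agent.Lib.H1M.PP.D_H55D_Defs
import Pool.Agent.Lib.H1M.PP.D_H55P_Defs
import Pool.Agent.Lib.H1M.PP.D_H55P_Stm
import Pool.Agent.Lib.H1M.PP.M002
import Pool.Agent.Lib.H1M.PP.M003
import Pool.Agent.Lib.H1M.PP.M005
import Pool.Agent.Lib.H1M.PP.M008
import Pool.Agent.Lib.H1M.PP.M009
import Pool.Agent.Lib.H1M.PP.M010
import Pool.Agent.Lib.H1M.PP.M013
import Pool.Agent.Lib.H1M.PP.M014
import Pool.Agent.Lib.H1M.PP.M015
import Pool.Agent.Lib.H1M.PP.M016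
import Pool.Agent.Lib.H1M.PP.M017
import Pool.Agent.Lib.H1M.PP.M018
import Pool.Agent.Lib.H1M.PP.M021
import Pool.Agent.Lib.H1M.PP.M022
import Pool.Agent.Lib.H1M.PP.M025
import Pool.Agent.Lib.H1M.PP.M027
import Pool.Agent.Lib.H1M.PP.M028
import Pool.Agent.Lib.H1M.PP.M029
import Pool.Agent.Lib.H1M.PP.M031
import Pool.Agent.Lib.H1M.PP.M033

/-! Merged copies (to shorten the build) of Lib.H13S.QV, Lib.H19T.Defs, Lib.H55K.A.B3, Lib.H55K.A.B5, Lib.H35N.I0, Lib.H35T.A4, Lib.H35N.U3, Lib.H55C.B0, Lib.H55C.W12, Lib.H55C.W13, Lib.H55D.T2, Lib.H13Z.LF2, Lib.H28R.W1, Lib.H55K.NA5, Lib.H55P.S8, Lib.H55P.S10, Lib.H55P.S14, Lib.H55K.NA6, Lib.H55P.Z12, Lib.H55P.S6. -/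

-- from Lib.H13S.QV
section

open NumberField IsDedekindDomain

namespace H13S

open H55P H28G H55B

variable {Ω : Type} [Field Ω] [DecidableEq Ω] [Algebra F Ω] [IsAlgClosure F Ω]

omit [DecidableEq Ω] [IsAlgClosure F Ω] in
theorem qv_dec (V : ValuationSubring Ω) (s : Ω ≃ₐ[F] Ω) (hs : Inert V s) (x : Ω) : s x ∈ V ↔ x ∈ V := by
  constructor
  · intro hx
    by_contra hcon
    have h1 : 1 < V.valuation x := by
      rw [← not_le, V.valuation_le_one_iff]
      exact hcon
    have x0 : V.valuation x ≠ 0 := (zero_lt_one.trans h1).ne'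
    have h2 : V.valuation x⁻¹ < 1 := by
      rw [map_inv₀]
      exact inv_lt_one_of_one_lt₀ h1
    have h3 := hs x⁻¹ ((V.valuation_le_one_iff _).1 h2.le)
    have h4 : V.valuation (s x⁻¹) < 1 := by
      have h5 := V.valuation.map_add_lt h3 h2
      rwa [sub_add_cancel] at h5
    rw [map_inv₀ s, map_inv₀] at h4
    have h6 : V.valuation (s x) ≤ 1 := (V.valuation_le_one_iff _).2 hx
    have hx0 : x ≠ 0 := by
      rintro rfl
      exact x0 (map_zero _)
    have h7 : V.valuation (s x) ≠ 0 := (V.valuation.ne_zero_iff).2 ((map_ne_zero s).2 hx0)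
    exact absurd h4 (not_lt.2 ((one_le_inv₀ (zero_lt_iff.2 h7)).2 h6))
  · intro hx
    have h1 : s x - x ∈ V := (V.valuation_le_one_iff _).1 (hs x hx).le
    have h2 := V.add_mem _ _ h1 hx
    rwa [sub_add_cancel] at h2

omit [DecidableEq Ω] [IsAlgClosure F Ω] in
theorem qv_le (V : ValuationSubring Ω) (s : Ω ≃ₐ[F] Ω) (hs : Inert V s) (a b : Ω) (hb : b ≠ 0) :
    V.valuation (s a) ≤ V.valuation (s b) ↔ V.valuation a ≤ V.valuation b := by
  have h1 := qv_dec V s hs (a / b)
  have h2 : 0 < V.valuation b := zero_lt_iff.2 ((Valuation.ne_zero_iff _).2 hb)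
  have h3 : 0 < V.valuation (s b) := zero_lt_iff.2 ((Valuation.ne_zero_iff _).2 ((map_ne_zero s).2 hb))
  rw [← V.valuation_le_one_iff, ← V.valuation_le_one_iff, map_div₀ s, map_div₀, map_div₀,
    div_le_one₀ h3, div_le_one₀ h2] at h1
  exact h1

omit [DecidableEq Ω] [IsAlgClosure F Ω] in
theorem qv_orb [Algebra.IsAlgebraic F Ω] (s : Ω ≃ₐ[F] Ω) (x : Ω) : ∃ n : ℕ, 0 < n ∧ (s ^ n) x = x := by
  have hx : IsIntegral F x := (Algebra.IsAlgebraic.isAlgebraic x).isIntegral
  have hroot : ∀ k : ℕ, (s ^ k) x ∈ (minpoly F x).rootSet Ω := by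
    intro k
    rw [Polynomial.mem_rootSet]
    refine ⟨minpoly.ne_zero hx, ?_⟩
    have h1 := Polynomial.aeval_algHom_apply ((s ^ k : Ω ≃ₐ[F] Ω) : Ω →ₐ[F] Ω) x (minpoly F x)
    rw [minpoly.aeval, map_zero] at h1
    exact h1
  obtain ⟨i, j, hij, he⟩ := Finite.exists_ne_map_eq_of_infinite
    (fun k : ℕ => (⟨(s ^ k) x, hroot k⟩ : (minpoly F x).rootSet Ω))
  have he' : (s ^ i) x = (s ^ j) x := congrArg Subtype.val he
  have key : ∀ i j : ℕ, i < j → (s ^ i) x = (s ^ j) x → ∃ n : ℕ, 0 < n ∧ (s ^ n) x = x := by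
    intro i j hlt he
    refine ⟨j - i, by omega, ?_⟩
    apply (s ^ i).injective
    rw [← AlgEquiv.mul_apply, ← pow_add, he]
    congr 2
    omega
  rcases lt_or_gt_of_ne hij with h | h
  · exact key i j h he'
  · exact key j i h he'.symm

theorem qv_val [Algebra.IsAlgebraic F Ω] (V : ValuationSubring Ω) (s : Ω ≃ₐ[F] Ω) (hs : Inert V s)
    (x : Ω) : V.valuation (s x) = V.valuation x := by
  by_cases hx : x = 0
  · rw [hx, map_zero]
  obtain ⟨n, hn, hnx⟩ := qv_orb s x
  have hne : ∀ k : ℕ, (s ^ k) x ≠ 0 := fun k => (map_ne_zero (s ^ k)).2 hx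
  have hs1 : ∀ k : ℕ, (s ^ (k + 1)) x = s ((s ^ k) x) := fun k => by
    rw [pow_succ', AlgEquiv.mul_apply]
  have h0 : (s ^ 0) x = x := by rw [pow_zero]; rfl
  rcases lt_trichotomy (V.valuation (s x)) (V.valuation x) with h | h | h
  · exfalso
    have hstep : ∀ k : ℕ, V.valuation ((s ^ (k + 1)) x) < V.valuation ((s ^ k) x) := by
      intro k
      induction k with
      | zero =>
        rw [hs1, h0]
        exact h
      | succ k ih =>
        rw [hs1 (k + 1)]
        conv_rhs => rw [hs1 k]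
        rw [← not_le] at ih ⊢
        rwa [qv_le V s hs _ _ (hne _)]
    have h1 := strictAnti_nat_of_succ_lt (f := fun k => V.valuation ((s ^ k) x)) hstep hn
    simp only [hnx, h0] at h1
    exact lt_irrefl _ h1
  · exact h
  · exfalso
    have hstep : ∀ k : ℕ, V.valuation ((s ^ k) x) < V.valuation ((s ^ (k + 1)) x) := by
      intro k
      induction k with
      | zero =>
        rw [hs1, h0]
        exact h
      | succ k ih =>
        rw [hs1 (k + 1)]
        conv_lhs => rw [hs1 k]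
        rw [← not_le] at ih ⊢
        rwa [qv_le V s hs _ _ (hne _)]
    have h1 := strictMono_nat_of_lt_succ (f := fun k => V.valuation ((s ^ k) x)) hstep hn
    simp only [hnx, h0] at h1
    exact lt_irrefl _ h1

omit [DecidableEq Ω] [IsAlgClosure F Ω] in
theorem qv_O (V : ValuationSubring Ω) (x : O) : vo V x ≤ 1 := by
  obtain ⟨a, b, rfl⟩ := exists_repr x
  have h1 : ∀ n : ℤ, vo V (n : O) ≤ 1 := by
    intro n
    have e : algebraMap F Ω (((n : O) : O) : F) = (n : Ω) := by
      have : (((n : O) : O) : F) = (n : F) := map_intCast (algebraMap O F) n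
      rw [this, map_intCast]
    unfold vo
    rw [e, V.valuation_le_one_iff]
    exact intCast_mem V n
  have h2 : vo V om ≤ 1 := by
    have h3 : vo V om ^ 3 = 1 := by
      unfold vo
      rw [← map_pow]
      have := ok_cube (k := Ω)
      unfold ok at this
      rw [this, map_one]
    exact ((pow_eq_one_iff.1 h3).resolve_right (by norm_num)).le
  have e : vo V ((a : O) + b * om) =
      V.valuation (algebraMap F Ω ((a : O) : F) + algebraMap F Ω ((b : O) : F) * algebraMap F Ω ((om : O) : F)) := by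
    unfold vo
    rw [← map_mul, ← map_add]
    rfl
  rw [e]
  refine Valuation.map_add_le _ (h1 a) ?_
  rw [map_mul]
  exact (mul_le_mul' (h1 b) h2).trans_eq (mul_one 1)

omit [DecidableEq Ω] [IsAlgClosure F Ω] in
theorem qv_mul (V : ValuationSubring Ω) (x y : O) : vo V (x * y) = vo V x * vo V y := by
  unfold vo
  rw [← map_mul, ← map_mul]
  rfl

omit [DecidableEq Ω] [IsAlgClosure F Ω] in
theorem qv_powO (V : ValuationSubring Ω) (x : O) (n : ℕ) : vo V (x ^ n) = vo V x ^ n := by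
  unfold vo
  rw [← map_pow, ← map_pow]
  rfl

omit [DecidableEq Ω] [IsAlgClosure F Ω] in
theorem qv_unit (V : ValuationSubring Ω) {π x : O} (hπ : Prime π) (hV : vo V π < 1) (hx : ¬ π ∣ x) :
    vo V x = 1 := by
  obtain ⟨u, v, huv⟩ := (hπ.irreducible.coprime_iff_not_dvd).2 hx
  refine le_antisymm (qv_O V x) ?_
  by_contra hcon
  push Not at hcon
  have h1 : V.valuation (algebraMap F Ω ((u * π : O) : F) + algebraMap F Ω ((v * x : O) : F)) < 1 := by
    refine Valuation.map_add_lt _ ?_ ?_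
    · change vo V (u * π) < 1
      rw [qv_mul]
      exact lt_of_le_of_lt (mul_le_mul' (qv_O V u) le_rfl) (by rwa [one_mul])
    · change vo V (v * x) < 1
      rw [qv_mul]
      exact lt_of_le_of_lt (mul_le_mul' (qv_O V v) le_rfl) (by rwa [one_mul])
  have h2 : algebraMap F Ω ((u * π : O) : F) + algebraMap F Ω ((v * x : O) : F) = 1 := by
    rw [← map_add]
    have : ((u * π : O) : F) + ((v * x : O) : F) = ((u * π + v * x : O) : F) := rfl
    rw [this, huv]
    exact map_one _
  rw [h2, map_one] at h1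
  exact lt_irrefl _ h1

omit [DecidableEq Ω] [IsAlgClosure F Ω] in
theorem qv_pos (V : ValuationSubring Ω) {x : O} (hx : x ≠ 0) : vo V x ≠ 0 := by
  unfold vo
  rw [Valuation.ne_zero_iff]
  refine (map_ne_zero _).2 ?_
  exact fun h => hx (RingOfIntegers.coe_injective (h.trans (map_zero (algebraMap O F)).symm))

theorem qv_intpow (V : ValuationSubring Ω) {π : O} (hπ : Prime π) (hV : vo V π < 1) (a : F)
    (ha : a ≠ 0) : ∃ k : ℤ, V.valuation (algebraMap F Ω a) = vo V π ^ k := by
  have key : ∀ x : O, x ≠ 0 → ∃ n : ℕ, vo V x = vo V π ^ n := by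
    intro x hx
    obtain ⟨n, x', hx', he⟩ := WfDvdMonoid.max_power_factor hx hπ.irreducible
    refine ⟨n, ?_⟩
    rw [he, qv_mul, qv_powO, qv_unit V hπ hV hx', mul_one]
  obtain ⟨x, y, hy, rfl⟩ := IsFractionRing.div_surjective (A := O) a
  have hy0 : y ≠ 0 := nonZeroDivisors.ne_zero hy
  have hx0 : x ≠ 0 := by
    rintro rfl
    rw [map_zero, zero_div] at ha
    exact ha rfl
  obtain ⟨n, hn⟩ := key x hx0
  obtain ⟨m, hm⟩ := key y hy0
  have hp0 := qv_pos V hπ.ne_zero
  refine ⟨(n : ℤ) - m, ?_⟩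
  rw [map_div₀, map_div₀, zpow_sub₀ hp0, zpow_natCast, zpow_natCast, ← hn, ← hm]

omit [IsAlgClosure F Ω] in
theorem qv_tt (s : Ω ≃ₐ[F] Ω) (P : P27 Ω) : tt (ac W27 s P) = s (tt P) := tt_mp s.toAlgHom P

theorem qv_kr [Algebra.IsAlgebraic F Ω] (V : ValuationSubring Ω) (s : Ω ≃ₐ[F] Ω) (hs : Inert V s)
    {P : P27 Ω} (hP : Kr V P) : Kr V (ac W27 s P) := by
  rcases hP with h | h
  · rw [h, map_zero]
    exact kr_zero V
  · right
    have e : xc (ac W27 s P) = s (xc P) := xc_mp s.toAlgHom P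
    rwa [e, qv_val V s hs]

omit [IsAlgClosure F Ω] in
theorem qv_add (V : ValuationSubring Ω) {P Q : P27 Ω} (hP : Kr V P) (hQ : Kr V Q) (c : V.ValueGroup)
    (hc : c ≤ 1) (h1 : V.valuation (tt P) ≤ c) (h2 : V.valuation (tt Q) ≤ c) :
    V.valuation (tt (P + Q)) ≤ c := by
  have h3 := kr_tt_add V hP hQ c h1 h2
  have h4 : c ^ 2 ≤ c := by
    rw [sq]
    exact (mul_le_mul' le_rfl hc).trans_eq (mul_one c)
  have e : tt (P + Q) = (tt (P + Q) - tt P - tt Q) + tt P + tt Q := by ring
  rw [e]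
  exact Valuation.map_add_le _ (Valuation.map_add_le _ (h3.trans h4) h1) h2

omit [IsAlgClosure F Ω] in
theorem qv_neg (V : ValuationSubring Ω) {P : P27 Ω} (hP : Kr V P) :
    Kr V (-P) ∧ V.valuation (tt (-P)) ≤ V.valuation (tt P) := by
  have e : act (-1 : O) P = -P := by rw [act_neg, act_one]
  have h1 := kr_act V (-1) hP
  have h2 := kr_tt_act V (-1) hP
  rw [e] at h1 h2
  refine ⟨h1, ?_⟩
  have h3 : algebraMap F Ω (((-1 : O) : O) : F) = -1 := by
    have : (((-1 : O) : O) : F) = -1 := by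
      have h4 := map_neg (algebraMap O F) 1
      rw [map_one] at h4
      exact h4
    rw [this, map_neg, map_one]
  rw [h3] at h2
  have h5 : V.valuation (tt P) ≤ 1 := (kr_tt_lt V hP).le
  have h6 : V.valuation (tt P) ^ 2 ≤ V.valuation (tt P) := by
    rw [sq]
    exact (mul_le_mul' le_rfl h5).trans_eq (mul_one _)
  have e2 : tt (-P) = (tt (-P) - -1 * tt P) + -tt P := by ring
  rw [e2]
  refine Valuation.map_add_le _ (h2.trans h6) ?_
  rw [Valuation.map_neg]

omit [IsAlgClosure F Ω] in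
theorem qv_q {π : O} {l : ℕ} {c : (Ω ≃ₐ[F] Ω) → P27 Ω} (C : Cl π l c) : 3 ≤ H55B.Nm π := by
  have hmem : π ∣ ((H55B.Nm π : ℕ) : O) := by
    rw [← Ideal.mem_span_singleton]
    exact Ideal.absNorm_mem _
  have h0 : H55B.Nm π ≠ 0 := fun h => C.pr.ne_zero (H55B.Nm_eq_zero.1 h)
  have h1 : H55B.Nm π ≠ 1 := fun h => C.pr.not_isUnit (Nm_eq_one.1 h)
  have h2 : H55B.Nm π ≠ 2 := by
    intro h
    rw [h] at hmem
    have h5 := C.five
    have hodd : Odd l := C.hl.odd_of_ne_two (by omega)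
    obtain ⟨m, hm⟩ := hodd
    have h6 : π ∣ 1 := by
      have e : (1 : O) = (l : O) - ((2 : ℕ) : O) * m := by
        rw [hm]
        push_cast
        ring
      rw [e]
      exact dvd_sub C.dvd (Dvd.dvd.mul_right hmem _)
    exact C.pr.not_isUnit (isUnit_of_dvd_one h6)
  omega

/-- Chunk QV (M). The size of the local point. q = Nm pi ≥ 25 (pi divides l ≥ 5, cj pi = pi), tau = V.valuation (tt R) for R ≠ 0 in Tor pi: tau^(q-1) = vo V pi
(kr_tor_ram). X₀ = act pi Q is in the kernel of reduction (kr_act) and fixed by all s with Inert V s (act pi (c s) = 0), so its coordinates and tt X₀ are fixed; value_fixed for the bottom field: V.valuation (tt X₀) is the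
value of an element of F, so (vo V pi)^n with n an integer (pi generates the prime of F below V), n ≥ 1, or tt X₀ = 0. R₀ = c s₀ ≠ 0 is in Tor pi, R₀ = ac s₀ (Q + R) - (Q + R) for every
R in Tor pi (s₀ fixes Tor pi), V.valuation (tt (ac s₀ P)) = V.valuation (tt P) for P in the kernel of reduction, so tau = V.valuation (tt R₀) ≤ V.valuation (tt (Q + R)) for all R (kr_tt_add with c = V.valuation (tt (Q+R)); tt (-P): use
kr_tt_act with a = -1). In particular tt X₀ ≠ 0 (kr_prod: the product of q nonzero values). If V.valuation (tt Q) > tau: V.valuation (tt (Q + R)) = V.valuation (tt Q) for all R (kr_tt_add), kr_prod: V.valuation (tt Q)^q = (vo V pi)^n,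
> tau^q, so (vo V pi)^(n (q-1)) > (vo V pi)^q, n (q - 1) < q, n = 1: done. If V.valuation (tt Q) = tau: all V.valuation (tt (Q + R)) are ≤ tau (kr_tt_add), hence = tau, tau^q = (vo V pi)^n, tau = (vo V pi)^(n-1), tau^(q-1) = vo V pi
= (vo V pi)^((n-1)(q-1)): impossible. -/
theorem val_point {π : O} {l : ℕ} {c : (Ω ≃ₐ[F] Ω) → P27 Ω} (C : Cl π l c) (hin : cj π = π)
    (V : ValuationSubring Ω) (hV : vo V π < 1) (Q : P27 Ω) (hQ : Kr V Q)
    (hc : ∀ s, Inert V s → c s = ac W27 s Q - Q) (L : IntermediateField F Ω) (hL : IsTF π L)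
    (s₀ : Ω ≃ₐ[F] Ω) (h1 : s₀ ∈ L.fixingSubgroup) (h2 : Inert V s₀) (h3 : c s₀ ≠ 0) :
    V.valuation (tt Q) ^ H55B.Nm π = vo V π := by
  have hF : IsAlgClosed Ω := IsAlgClosure.isAlgClosed F
  have hA : Algebra.IsAlgebraic F Ω := IsAlgClosure.isAlgebraic
  have hval : ∀ s, c s ∈ Tor π Ω := fun s => by
    have := C.val s
    rwa [hin] at this
  set ϖ := vo V π with hϖ
  set q := H55B.Nm π with hq
  have hq3 : 3 ≤ q := qv_q C
  have hϖ0 : ϖ ≠ 0 := qv_pos V C.pr.ne_zero
  have hϖp : 0 < ϖ := zero_lt_iff.2 hϖ0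
  -- the value of the points killed by pi
  set R₀ := c s₀ with hR₀
  obtain ⟨hR₀K, hR₀q⟩ := kr_tor_ram π C.pr C.prim V hV (hval s₀) h3
  set τ := V.valuation (tt R₀) with hτ
  have hτ0 : 0 < τ := by
    rw [zero_lt_iff]
    intro h
    have h4 : τ ^ (q - 1) = ϖ := hR₀q
    rw [h, zero_pow (by omega)] at h4
    exact hϖ0 h4.symm
  have hτ1 : τ < 1 := kr_tt_lt V hR₀K
  have hTor : ∀ R ∈ Tor π Ω, Kr V R ∧ V.valuation (tt R) ≤ τ := by
    intro R hR
    by_cases h0 : R = 0
    · rw [h0]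
      refine ⟨kr_zero V, ?_⟩
      have : tt (0 : P27 Ω) = 0 := (kr_tt_zero V (kr_zero V)).2 rfl
      rw [this, map_zero]
      exact zero_le
    · obtain ⟨h4, h5⟩ := kr_tor_ram π C.pr C.prim V hV hR h0
      refine ⟨h4, le_of_eq ?_⟩
      have h6 : V.valuation (tt R) ^ (q - 1) = τ ^ (q - 1) := h5.trans hR₀q.symm
      exact (pow_left_inj₀ zero_le zero_le (by omega)).1 h6
  -- translates
  have hs₀ : ∀ R ∈ Tor π Ω, ac W27 s₀ R = R := (hL.2 s₀).1 h1
  have hlow : ∀ R ∈ Tor π Ω, Kr V (Q + R) ∧ τ ≤ V.valuation (tt (Q + R)) := by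
    intro R hR
    have hK := kr_add V hQ (hTor R hR).1
    refine ⟨hK, ?_⟩
    have e : R₀ = ac W27 s₀ (Q + R) + -(Q + R) := by
      rw [hR₀, hc s₀ h2, map_add, hs₀ R hR]
      abel
    obtain ⟨n1, n2⟩ := qv_neg V hK
    have e2 : V.valuation (tt (ac W27 s₀ (Q + R))) = V.valuation (tt (Q + R)) := by
      rw [qv_tt, qv_val V s₀ h2]
    rw [hτ, e]
    exact qv_add V (qv_kr V s₀ h2 hK) n1 _ (kr_tt_lt V hK).le e2.le n2
  -- the point X₀
  have hX₀K := kr_act V π hQ
  have hprod := kr_prod π C.pr C.prim V hV hQ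
  obtain ⟨hcard, -⟩ := gi_gen (Ω := Ω) π C.pr C.prim
  have hfin : Finite (Tor π Ω) := by
    apply Nat.finite_of_card_ne_zero
    rw [hcard]
    omega
  let _ : Fintype (Tor π Ω) := Fintype.ofFinite _
  rw [finprod_eq_prod_of_fintype] at hprod
  have hX₀v : V.valuation (tt (act π Q)) ≠ 0 := by
    rw [← hprod]
    refine Finset.prod_ne_zero_iff.2 fun R _ => ?_
    exact (hτ0.trans_le (hlow R.1 R.2).2).ne'
  have hX₀t : tt (act π Q) ≠ 0 := (Valuation.ne_zero_iff _).1 hX₀v
  have hfix : ∀ s ∈ (⊥ : IntermediateField F Ω).fixingSubgroup, Inert V s →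
      s (tt (act π Q)) = tt (act π Q) := by
    intro s _ hs
    have e1 : ac W27 s Q = Q + c s := by
      rw [hc s hs]
      abel
    rw [← qv_tt, ac_act, e1, map_add, mem_Tor.1 (hval s), add_zero]
  have hNF : NumberField (⊥ : IntermediateField F Ω) := NumberField.of_module_finite F _
  obtain ⟨a, ha, hva⟩ := value_fixed (⊥ : IntermediateField F Ω) V _ hX₀t hfix
  obtain ⟨a', ha'⟩ := IntermediateField.mem_bot.1 a.2
  have ha'0 : a' ≠ 0 := by
    rintro rfl
    rw [map_zero] at ha'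
    exact ha (Subtype.ext ha'.symm)
  obtain ⟨k, hk⟩ := qv_intpow V C.pr hV a' ha'0
  rw [ha'] at hk
  have hXk : V.valuation (tt (act π Q)) = ϖ ^ k := hva.trans hk
  have hk1 : 0 < k := by
    by_contra hcon
    push Not at hcon
    have h4 : V.valuation (tt (act π Q)) < 1 := kr_tt_lt V hX₀K
    rw [hXk] at h4
    have h5 : 1 ≤ ϖ ^ k := by
      rw [← neg_neg k, zpow_neg]
      have h6 : 0 < ϖ ^ (-k) := zpow_pos hϖp _
      rw [one_le_inv₀ h6]
      obtain ⟨n, hn⟩ := Int.eq_ofNat_of_zero_le (neg_nonneg.2 hcon)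
      rw [hn]
      exact pow_le_one' hV.le n
    exact absurd h4 (not_lt.2 h5)
  obtain ⟨n, rfl⟩ := Int.eq_ofNat_of_zero_le hk1.le
  have hn1 : 0 < n := by exact_mod_cast hk1
  have hXn : V.valuation (tt (act π Q)) = ϖ ^ n := hXk
  -- strict monotonicity of the powers
  have hlt : ∀ i j : ℕ, ϖ ^ i < ϖ ^ j → j < i := by
    intro i j h
    by_contra hcon
    push Not at hcon
    exact absurd h (not_lt.2 (pow_le_pow_right_of_le_one' hV.le hcon))
  have heq : ∀ i j : ℕ, ϖ ^ i = ϖ ^ j → i = j := by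
    have hanti : StrictAnti (fun i : ℕ => ϖ ^ i) := by
      refine strictAnti_nat_of_succ_lt fun i => ?_
      rw [pow_succ]
      calc ϖ ^ i * ϖ < ϖ ^ i * 1 := mul_lt_mul_of_pos_left hV (pow_pos hϖp i)
        _ = ϖ ^ i := mul_one _
    exact fun i j h => hanti.injective h
  have hcard' : Fintype.card (Tor π Ω) = q := by
    rw [← Nat.card_eq_fintype_card]
    exact hcard
  have hQlow : τ ≤ V.valuation (tt Q) := by
    have := (hlow 0 (Tor π Ω).zero_mem).2
    rwa [add_zero] at this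
  have hQ1 : V.valuation (tt Q) < 1 := kr_tt_lt V hQ
  rcases hQlow.lt_or_eq with hgt | heq'
  · have hall : ∀ R : Tor π Ω, V.valuation (tt (Q + (R : P27 Ω))) = V.valuation (tt Q) := by
      intro R
      have h4 := (hTor R.1 R.2).2
      have h5 := kr_tt_add V hQ (hTor R.1 R.2).1 (V.valuation (tt Q)) le_rfl (h4.trans hQlow)
      have h6 : V.valuation (tt Q) ^ 2 < V.valuation (tt Q) := by
        rw [sq]
        calc V.valuation (tt Q) * V.valuation (tt Q) < V.valuation (tt Q) * 1 :=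
              mul_lt_mul_of_pos_left hQ1 (hτ0.trans hgt)
          _ = _ := mul_one _
      have e : tt (Q + (R : P27 Ω)) = tt Q + ((tt (Q + (R : P27 Ω)) - tt Q - tt (R : P27 Ω)) + tt (R : P27 Ω)) := by
        ring
      rw [e]
      exact Valuation.map_add_eq_of_lt_left _ (Valuation.map_add_lt _ (h5.trans_lt h6) (h4.trans_lt hgt))
    rw [Finset.prod_congr rfl fun R _ => hall R, Finset.prod_const, Finset.card_univ, hcard', hXn] at hprod
    have h7 : τ ^ (q * (q - 1)) < V.valuation (tt Q) ^ (q * (q - 1)) :=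
      pow_lt_pow_left₀ hgt zero_le (Nat.mul_ne_zero (by omega) (by omega))
    have h8 : ϖ ^ q < ϖ ^ (n * (q - 1)) := by
      calc ϖ ^ q = τ ^ (q * (q - 1)) := by
            rw [mul_comm, pow_mul]
            exact congrArg (fun z => z ^ q) hR₀q.symm
        _ < V.valuation (tt Q) ^ (q * (q - 1)) := h7
        _ = ϖ ^ (n * (q - 1)) := by rw [pow_mul, hprod, ← pow_mul]
    have h9 := hlt _ _ h8
    have hn : n = 1 := by
      by_contra hne
      have hn2 : 2 ≤ n := by omega
      have h10 : 2 * (q - 1) ≤ n * (q - 1) := Nat.mul_le_mul_right _ hn2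
      omega
    rw [hn, pow_one] at hprod
    exact hprod
  · exfalso
    have hall : ∀ R : Tor π Ω, V.valuation (tt (Q + (R : P27 Ω))) = τ := by
      intro R
      refine le_antisymm ?_ (hlow R.1 R.2).2
      exact qv_add V hQ (hTor R.1 R.2).1 τ hτ1.le heq'.symm.le (hTor R.1 R.2).2
    rw [Finset.prod_congr rfl fun R _ => hall R, Finset.prod_const, Finset.card_univ, hcard', hXn] at hprod
    have h8 : ϖ ^ q = ϖ ^ (n * (q - 1)) := by
      calc ϖ ^ q = τ ^ (q * (q - 1)) := by
            rw [mul_comm, pow_mul]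
            exact congrArg (fun z => z ^ q) hR₀q.symm
        _ = ϖ ^ (n * (q - 1)) := by rw [pow_mul, hprod, ← pow_mul]
    have h9 := heq _ _ h8
    have h10 : (q - 1) ∣ q := ⟨n, h9.trans (mul_comm _ _)⟩
    have h11 : (q - 1) ∣ 1 := by
      have h12 := Nat.dvd_sub h10 (dvd_refl (q - 1))
      have e : q - (q - 1) = 1 := by omega
      rwa [e] at h12
    have h12 := Nat.le_of_dvd one_pos h11
    omega

end H13S
end

-- from Lib.H19T.Defs
section

/-!
# H19T: the tower for p = 3. Definitions (compare H55N/HD.lean). See PROOF.md.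
-/

open NumberField IsDedekindDomain

namespace H19T

open H55B H35T H55N

/-- eta 1 = 1. -/
theorem eta_one : eta 1 = 1 := by
  have h1 : kap 1 = 1 := (kap_one 1).2 (by rw [sub_self]; exact dvd_zero _)
  have h2 : Nm (1 : O) = 1 := Nm_eq_one.2 isUnit_one
  unfold eta
  rw [h1, h2, Nat.cast_one, map_one, Int.cast_one, one_mul]

/-- The conjugate of the Hecke character of E144 over F, as a function on ideals. -/
noncomputable def psiT : Ideal O →*₀ ℂ where
  toFun J := e (eta (pg J)) * (starRingEnd ℂ) (e (pg J))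
  map_zero' := by
    have : ¬ ∃ x : O, (0 : Ideal O) = Ideal.span {x} ∧ Prim x := by
      rintro ⟨x, hx, hp⟩
      exact hp.ne_zero (Ideal.span_singleton_eq_bot.1 hx.symm)
    rw [pg_of_not this, map_zero, map_zero, mul_zero]
  map_one' := by
    have : (1 : Ideal O) = Ideal.span {1} := by simp
    rw [this, pg_span prim_one, eta_one, map_one, map_one, mul_one]
  map_mul' J J' := by
    rw [pg_mul, eta_mul, map_mul, map_mul, map_mul]
    ring

theorem psiT_apply (J : Ideal O) :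
    psiT J = e (eta (pg J)) * (starRingEnd ℂ) (e (pg J)) := rfl

variable (K : Type) [Field K] [NumberField K] [Algebra F K]

/-- The conjugate of the Hecke character of E144 over K, as a function on ideals. -/
noncomputable def PsiT : Ideal (𝓞 K) →*₀ ℂ :=
  psiT.comp (Ideal.relNorm O : Ideal (𝓞 K) →*₀ Ideal O)

variable {K}

/-- The L-series of h converges for Re s > 3/2, continues to Re s > 1/2 and its value at 1, divided by
the power of the period, is a 3-adic unit. -/
def LVT (h : Ideal (𝓞 K) →*₀ ℂ) : Prop :=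
  ∃ Λ : ℂ → ℂ, AnalyticOnNhd ℂ Λ {s | 1 / 2 < s.re} ∧
    (∀ s : ℂ, 3 / 2 < s.re → HasSum (tm h s) (Λ s)) ∧
    Unit3 (Λ 1 / (e sq3 * R0) ^ Module.finrank F K)

/-- Cubic characters with conductor dividing f, on ideals, trivial on principal ideals of
elements congruent to 1 modulo f; f is a product of primes above good primes. -/
structure CChr (f : Ideal (𝓞 K)) (χ : Ideal (𝓞 K) →*₀ ℂ) : Prop where
  ne : f ≠ ⊥
  good : ∀ (w : HeightOneSpectrum (𝓞 K)) (v : HeightOneSpectrum O), f ≤ w.asIdeal →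
    v.asIdeal = w.asIdeal.under O → H35T.Good v
  val : ∀ a : Ideal (𝓞 K), a ≠ ⊥ → IsCoprime a f → χ a ^ 3 = 1
  zero : ∀ a : Ideal (𝓞 K), ¬ IsCoprime a f → χ a = 0
  per : ∀ x y : 𝓞 K, x ≠ 0 → y ≠ 0 → IsCoprime (Ideal.span {x}) f → x - y ∈ f →
    χ (Ideal.span {x}) = χ (Ideal.span {y})

/-- The decomposition law in a cyclic cubic extension K'/K with character chi. -/
def SplitC (K K' : Type) [Field K] [NumberField K] [Field K'] [NumberField K'] [Algebra K K']
    (χ : Ideal (𝓞 K) →*₀ ℂ) : Prop :=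
  ∀ w : HeightOneSpectrum (𝓞 K),
    (χ w.asIdeal = 1 ∧ ∃ W₁ W₂ W₃ : HeightOneSpectrum (𝓞 K'), W₁ ≠ W₂ ∧ W₁ ≠ W₃ ∧ W₂ ≠ W₃ ∧
      {W : HeightOneSpectrum (𝓞 K') | W.asIdeal.under (𝓞 K) = w.asIdeal} = {W₁, W₂, W₃} ∧
      Ideal.relNorm (𝓞 K) W₁.asIdeal = w.asIdeal ∧ Ideal.relNorm (𝓞 K) W₂.asIdeal = w.asIdeal ∧
      Ideal.relNorm (𝓞 K) W₃.asIdeal = w.asIdeal) ∨
    (χ w.asIdeal ≠ 1 ∧ χ w.asIdeal ^ 3 = 1 ∧ ∃ W : HeightOneSpectrum (𝓞 K'),
      {W : HeightOneSpectrum (𝓞 K') | W.asIdeal.under (𝓞 K) = w.asIdeal} = {W} ∧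
      Ideal.relNorm (𝓞 K) W.asIdeal = w.asIdeal ^ 3) ∨
    (χ w.asIdeal = 0 ∧ ∃ W : HeightOneSpectrum (𝓞 K'),
      {W : HeightOneSpectrum (𝓞 K') | W.asIdeal.under (𝓞 K) = w.asIdeal} = {W} ∧
      Ideal.relNorm (𝓞 K) W.asIdeal = w.asIdeal)

/-- Data of the class decomposition modulo 4f: representatives b of the ideal classes, of the classes
modulo 4fb, and transversals modulo the units congruent to 1 modulo 4f. -/
structure CDT (f : Ideal (𝓞 K)) (ι : Type) (b : ι → Ideal (𝓞 K)) (c₀ : ι → 𝓞 K)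
    (T : ι → Set (𝓞 K)) : Prop where
  ne : ∀ i, b i ≠ ⊥
  cop : ∀ i, IsCoprime (b i) (Ideal.span {6} * f)
  mem : ∀ i, c₀ i ∈ b i
  prim : ∀ i, ∀ w : HeightOneSpectrum (𝓞 K), Ideal.span {4} * f ≤ w.asIdeal →
    c₀ i ∉ w.asIdeal * b i
  trans : ∀ i, Transv (Ideal.span {4} * f) (XS (Ideal.span {4} * f * b i) (c₀ i)) (T i)
  bij : ∀ a : Ideal (𝓞 K), a ≠ ⊥ → IsCoprime a (Ideal.span {4} * f) →
    ∃! q : Σ i, T i, a * b q.1 = Ideal.span {(q.2 : 𝓞 K)}

open Classical in
/-- The quadratic character modulo the prime above 3. -/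
noncomputable def kl (y : O) : ℂ := if lam ∣ y - 1 then 1 else if lam ∣ y + 1 then -1 else 0

/-- The summand kl (N x) conj N(x) |N(x)|^(-2s). -/
noncomputable def nfT (s : ℂ) (x : 𝓞 K) : ℂ := kl (Algebra.intNorm O (𝓞 K) x) * nf s x

/-- Integrality above 3. -/
def Int3 (z : ℂ) : Prop := ∀ V : ValuationSubring ℂ, V.valuation 3 < 1 → V.valuation z ≤ 1

/-- The class of fields: subfields of Galois extensions L/F of 3-power degree, unramified outside the
good primes, as extensions of F. -/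
def Sub3 (K : Type) [Field K] [NumberField K] [Algebra F K] : Prop :=
  ∃ (L : Type) (_ : Field L) (_ : NumberField L) (_ : Algebra F L) (_ : Algebra K L)
    (_ : IsScalarTower F K L), ThreeExt L ∧ H35T.UnrOut L

end H19T
end

-- from Lib.H55K.A.B3
section

/-!
Chunk B3 (M). The Minkowski unit. L/F Galois, F = Q(om) has exactly one infinite place, which is complex.
PROOF. Fix an infinite place V0 of L. H55R.unit_place gives a unit y with V y < 1 for all V ≠ V0; z = its image in Lˣ (ord v z = 0: HA7_ord_unit).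
The Galois group Gal(L/F) acts on the infinite places (σ • V), transitively on those above a place of F (NumberField.InfinitePlace.exists_smul_eq_of_comap_eq or the
like; F has only one place: card (InfinitePlace F) = nrRealPlaces + nrComplexPlaces = 0 + 1, IsCyclotomicExtension.Rat.nrComplexPlaces_eq_totient_div_two for n = 3, or
Fintype.card_eq from finrank 2 and no real place), and simply: |Gal(L/F)| = [L:F] and L has exactly [L:F] infinite places (all complex: complexF, finrank_eq: 2 r2 = [L:Q] = 2 [L:F]).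
So σ ↦ σ • V0 is a bijection. For T = ∅ define η (inr (σ • V0)) = gu σ z. Then Eta ∅ η: ord v (gu σ z) = 0 (ord_smul), and V' (gu σ z) = (σ⁻¹ • V') z < 1 for
V' ≠ σ • V0 (InfinitePlace.smul_apply: (σ • V) x = V (σ⁻¹ x)). H55R.theta_index for T = ∅: the range of Th has finite nonzero relative index n in (TUa ∅) × Z;
for a unit u: n • (u, 0) is in the range (the relative index kills the quotient: AddSubgroup.relIndex, pow_mem / nsmul_mem of index; for an additive commutative group: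
AddSubgroup.nsmul_index_mem): n u = sum_V a_V η_V, i.e. u^n = prod_σ (gu σ z)^(a (σ • V0)). So even u ^ n = pw gu α z. n = that relative index.
-/

open NumberField IsDedekindDomain

namespace H55K.Ab

open H55R


open H55P in
theorem b3_real (F : Type) [Field F] [NumberField F] [IQ F] : InfinitePlace.nrRealPlaces F = 0 := by
  classical
  have h2 := InfinitePlace.card_add_two_mul_card_eq_rank F
  have h3 : Module.finrank ℚ F = 2 := IQ.deg
  have h4 : 0 < InfinitePlace.nrComplexPlaces F := by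
    refine Fintype.card_pos_iff.2 ⟨⟨InfinitePlace.mk (embF F), ?_⟩⟩
    rw [InfinitePlace.isComplex_mk_iff]
    intro h
    obtain ⟨x, hx⟩ := IQ.im (F := F)
    apply hx
    have h5 := congrArg (fun φ : F →+* ℂ => φ x) h
    have h6 : (starRingEnd ℂ) (embF F x) = embF F x := h5
    exact Complex.conj_eq_iff_im.1 h6
  omega

open H55P in
theorem b3_sub (F : Type) [Field F] [NumberField F] [IQ F] : Subsingleton (InfinitePlace F) := by
  have h1 := b3_real F
  have h2 := InfinitePlace.card_add_two_mul_card_eq_rank F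
  have h3 : Module.finrank ℚ F = 2 := IQ.deg
  have h4 := InfinitePlace.card_eq_nrRealPlaces_add_nrComplexPlaces F
  have h5 : Fintype.card (InfinitePlace F) ≤ 1 := by omega
  exact Fintype.card_le_one_iff_subsingleton.1 h5

open H55P in
theorem b3_cpx (F K : Type) [Field F] [NumberField F] [IQ F] [Field K] [NumberField K] [Algebra F K]
    (v : InfinitePlace K) : v.IsComplex := by
  classical
  rw [← InfinitePlace.not_isReal_iff_isComplex]
  intro h
  have h1 : (v.comap (algebraMap F K)).IsReal := h.comap (algebraMap F K)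
  have h2 := b3_real F
  have h3 : 0 < InfinitePlace.nrRealPlaces F := Fintype.card_pos_iff.2 ⟨⟨_, h1⟩⟩
  omega

open H55P in
theorem b3_card (F L : Type) [Field F] [NumberField F] [IQ F] [Field L] [NumberField L] [Algebra F L] :
    Fintype.card (InfinitePlace L) = Module.finrank F L := by
  classical
  have h0 : InfinitePlace.nrRealPlaces L = 0 := by
    rw [InfinitePlace.nrRealPlaces, Fintype.card_eq_zero_iff]
    exact ⟨fun v => (InfinitePlace.not_isReal_iff_isComplex.2 (b3_cpx F L v.1)) v.2⟩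
  have h2 := InfinitePlace.card_add_two_mul_card_eq_rank L
  have h4 := InfinitePlace.card_eq_nrRealPlaces_add_nrComplexPlaces L
  have h5 := Module.finrank_mul_finrank ℚ F L
  rw [IQ.deg (F := F)] at h5
  omega

open H55P in
theorem minkowski (F L : Type) [Field F] [NumberField F] [IQ F] [Field L] [NumberField L]
    [Algebra F L] [IsGalois F L] :
    ∃ (z : Lˣ) (n : ℕ), 0 < n ∧ (∀ v : Pl L, ord v z = 0) ∧
      ∀ u : Lˣ, (∀ v : Pl L, ord v u = 0) → ∃ α : Gal(L/F) → ℤ, u ^ n = pw gu α z := by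
  classical
  obtain ⟨V0⟩ : Nonempty (InfinitePlace L) := inferInstance
  obtain ⟨y, hy⟩ := unit_place L V0
  set z : Lˣ := Units.map (algebraMap (𝓞 L) L : 𝓞 L →* L) y with hzd
  have hz : ∀ v : Pl L, ord v z = 0 := HA7_ord_unit y
  have hsub := b3_sub F
  have hbij : Function.Bijective (fun σ : Gal(L/F) => σ • V0) := by
    rw [Fintype.bijective_iff_surjective_and_card]
    refine ⟨fun V => InfinitePlace.exists_smul_eq_of_comap_eq (Subsingleton.elim _ _), ?_⟩
    rw [b3_card F L, ← IsGalois.card_aut_eq_finrank, Nat.card_eq_fintype_card]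
  let e : Gal(L/F) ≃ InfinitePlace L := Equiv.ofBijective _ hbij
  have he : ∀ σ : Gal(L/F), e σ = σ • V0 := fun σ => rfl
  let η : (∅ : Finset (Pl L)) ⊕ InfinitePlace L → Additive Lˣ :=
    Sum.elim (fun _ => 0) (fun V => Additive.ofMul (gu (e.symm V) z))
  have hη : Eta ∅ η := by
    constructor
    · rintro ⟨W, hW⟩
      exact absurd hW (Finset.notMem_empty W)
    · intro V
      set σ := e.symm V with hσ
      have hV : V = σ • V0 := by rw [← he, hσ, Equiv.apply_symm_apply]
      constructor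
      · intro W
        show ord W (gu σ z) = 0
        have h1 := ord_smul σ (smulP σ⁻¹ W) z
        rw [← smulP_mul, mul_inv_cancel, smulP_one] at h1
        have h2 : ord W (gu σ z) = ord (smulP σ⁻¹ W) z := h1
        rw [h2, hz]
      · intro V' hV'
        show V' (σ (z : L)) < 1
        have h1 : σ⁻¹ • V' ≠ V0 := by
          intro h2
          apply hV'
          rw [hV, ← h2, smul_inv_smul]
        have h2 := hy _ h1
        rw [InfinitePlace.smul_apply] at h2
        exact h2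
  have hidx := theta_index ∅ η hη
  refine ⟨z, _, Nat.pos_of_ne_zero hidx, hz, ?_⟩
  intro u hu
  have hmem : ((Additive.ofMul u, 0) : Additive Lˣ × ℤ) ∈ (TUa (∅ : Finset (Pl L))).prod (⊤ : AddSubgroup ℤ) := by
    rw [AddSubgroup.mem_prod]
    exact ⟨fun v _ => hu v, trivial⟩
  have h1 : (Th ∅ η).range.relIndex ((TUa ∅).prod (⊤ : AddSubgroup ℤ)) • ((Additive.ofMul u, 0) : Additive Lˣ × ℤ) ∈ (Th ∅ η).range := by
    have h2 := AddSubgroup.nsmul_index_mem ((Th ∅ η).range.addSubgroupOf ((TUa ∅).prod (⊤ : AddSubgroup ℤ)))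
      ⟨((Additive.ofMul u, 0) : Additive Lˣ × ℤ), hmem⟩
    exact AddSubgroup.mem_addSubgroupOf.1 h2
  obtain ⟨a, ha⟩ := h1
  refine ⟨fun σ => a (Sum.inr (e σ)), ?_⟩
  have h2 := congrArg Prod.fst ha
  have h3 : (∑ p, a p • η p) = (Th ∅ η).range.relIndex ((TUa ∅).prod (⊤ : AddSubgroup ℤ)) • Additive.ofMul u := h2
  rw [Fintype.sum_sum_type, Finset.univ_eq_empty, Finset.sum_empty, zero_add, ← e.sum_comp] at h3
  apply Additive.ofMul.injective
  rw [ofMul_pow, ← h3]
  unfold pw
  rw [ofMul_prod]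
  refine Finset.sum_congr rfl fun σ _ => ?_
  show a (Sum.inr (e σ)) • Additive.ofMul (gu (e.symm (e σ)) z) = _
  rw [Equiv.symm_apply_apply]
  rfl

end H55K.Ab
end

-- from Lib.H55K.A.B5
section

/-!
Chunk B5 (M). The step with the units. See PROOF.md, B5.
PROOF. (z, n) from minkowski. x = m 1, y = eta χ ρ 1 ξ are units (ord v (pw gu α ξ) = sum α(σ) ord v (gu σ ξ) = 0, ord_smul), so x^n = pw gu α z, y^n = pw gu β z
(minkowski). dim_lemma (hχ makes the group commutative) gives γ, γ', w with IsOfFinOrder (pw γ x (pw γ' y)⁻¹ w^l). Let c = chs χ γ, c' = chs χ γ', (c, c') ≠ 0, and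
h a = m (c a) (eta χ ρ (c' a) ξ)⁻¹ (EqHom by trans_comb, eta_hom). h 1 ~ pw γ x (pw γ' y)⁻¹ (eq_pw for m and for eta) is torsion modulo l-th powers; for a ≠ 0, a = χ σ and
h a = h (χ σ * 1) ~ gu σ (h 1) is torsion modulo l-th powers; h 0 ~ 1 (eq_zero). torsion_triv: every h a is an l-th power.
If c = 0 then c' ≠ 0 and, for a = 1: m 0 is an l-th power, so eta χ ρ c' ξ is an l-th power, hence Lev (lev_pow), contradiction to hlev. So c ≠ 0. If c' ≠ 0: a = 1: eta χ ρ c' ξ = m c * (l-th power)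
is Lev (lev_mul, hL), contradiction. So c' = 0: m (c a) ~ eta χ ρ 0 ξ ~ 1 for all a (eq_zero), and every element of k is c a.
-/

open NumberField IsDedekindDomain

namespace H55K.Ab

open H55R

variable {F : Type} [Field F] [NumberField F]

private theorem b5_ord_gu {L : Type} [Field L] [NumberField L] [Algebra F L] (v : Pl L) (σ : Gal(L/F)) (x : Lˣ) :
    ord v (gu σ x) = ord (smulP σ⁻¹ v) x := by
  have h := ord_smul σ (smulP σ⁻¹ v) x
  rw [← smulP_mul, mul_inv_cancel, smulP_one] at h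
  exact h

private theorem b5_e {A : Type} [CommGroup A] (a b x y w : A) :
    a * b⁻¹ = a * x * (b⁻¹ * y⁻¹) * w * (x⁻¹ * y * w⁻¹) := by
  apply (Additive.ofMul : A ≃ Additive A).injective
  simp only [ofMul_mul, ofMul_inv]
  abel

private theorem b5_ord_prod {L : Type} [Field L] [NumberField L] (v : Pl L) {ι : Type} (s : Finset ι) (f : ι → Lˣ)
    (h : ∀ i ∈ s, ord v (f i) = 0) : ord v (∏ i ∈ s, f i) = 0 := by
  classical
  induction s using Finset.induction_on with
  | empty => exact ord_one v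
  | insert a s ha ih =>
    rw [Finset.prod_insert ha, ord_mul, h a (Finset.mem_insert_self a s),
      ih fun i hi => h i (Finset.mem_insert_of_mem hi), add_zero]

private theorem b5_ord_pw {L : Type} [Field L] [NumberField L] [Algebra F L] (v : Pl L) (α : Gal(L/F) → ℤ) (x : Lˣ)
    (hx : ∀ v : Pl L, ord v x = 0) : ord v (pw gu α x) = 0 := by
  unfold pw
  refine b5_ord_prod v _ _ fun σ _ => ?_
  rw [ord_zpow, b5_ord_gu, hx, mul_zero]

theorem unit_step [H55P.IQ F] {L : Type} [Field L] [NumberField L] [Algebra F L] [IsGalois F L] {l : ℕ}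
    [Fact l.Prime] {k : Type} [Field k] [Fintype k] [DecidableEq k] [CharP k l]
    {χ : Gal(L/F) →* kˣ} (hχ : Function.Bijective χ) (ρ : k →+ ZMod l) (hρ : IsRho l ρ)
    (hcyc : ∀ ζ : Lˣ, IsPrimitiveRoot ζ l →
      ¬ ∀ (σ : Gal(L/F)) (n : ℕ), (n : k) = χ σ → gu σ ζ = ζ ^ n)
    (w : Pl L) (ξ : Lˣ) (hξ : ∀ v : Pl L, ord v ξ = 0)
    (hlev : ∀ a : k, a ≠ 0 → ¬ Lev l w (eta χ ρ a ξ))
    {m : k → Lˣ} (hm : EqHom l χ m) (hu : ∀ (a : k) (v : Pl L), ord v (m a) = 0)
    (hL : ∀ a, Lev l w (m a)) (a : k) : ∃ z : Lˣ, m a = z ^ l := by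
  obtain ⟨z, n, hn, hz, hall⟩ := minkowski F L
  have heta := eta_hom (χ := χ) ρ ξ
  obtain ⟨α, hα⟩ := hall (m 1) (hu 1)
  obtain ⟨β, hβ⟩ := hall (eta χ ρ 1 ξ) (fun v => b5_ord_pw v _ ξ hξ)
  have hone : ∀ x y : Lˣ, x = y → IsOfFinOrder (x * y⁻¹) := by
    rintro x _ rfl
    rw [mul_inv_cancel]
    exact IsOfFinOrder.one
  have hx1 : IsOfFinOrder (m 1 ^ n * (pw gu α z)⁻¹) := hone _ _ hα
  have hy1 : IsOfFinOrder (eta χ ρ 1 ξ ^ n * (pw gu β z)⁻¹) := hone _ _ hβ
  obtain ⟨γ, γ', w', hne, hfin⟩ := dim_lemma (G := Gal(L/F)) (A := Lˣ) gu χ hχ ρ hρ n hn (m 1) (eta χ ρ 1 ξ) z α β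
    hx1 hy1
  set c := chs χ γ with hc
  set c' := chs χ γ' with hc'
  have hh := trans_comb hm heta c c'
  obtain ⟨z1, hz1⟩ := eq_pw hm γ 1
  obtain ⟨z2, hz2⟩ := eq_pw heta γ' 1
  set τ0 : Lˣ := pw gu γ (m 1) * (pw gu γ' (eta χ ρ 1 ξ))⁻¹ * w' ^ l with hτ0
  have h1 : m (c * 1) * (eta χ ρ (c' * 1) ξ)⁻¹ = τ0 * (z1⁻¹ * z2 * w'⁻¹) ^ l := by
    rw [hτ0, hz1, hz2, mul_inv, mul_pow, mul_pow, inv_pow, inv_pow]
    rw [← hc, ← hc']
    exact b5_e _ _ _ _ _
  have ht : ∀ b : k, ∃ τ zz : Lˣ, IsOfFinOrder τ ∧ m (c * b) * (eta χ ρ (c' * b) ξ)⁻¹ = τ * zz ^ l := by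
    intro b
    by_cases hb : b = 0
    · obtain ⟨zz, hzz⟩ := eq_zero hh
      refine ⟨1, zz, IsOfFinOrder.one, ?_⟩
      rw [hb, one_mul]
      exact hzz
    · obtain ⟨σ, hσ⟩ := hχ.2 (Units.mk0 b hb)
      obtain ⟨zz, hzz⟩ := hh.equiv σ 1
      have hb' : ((χ σ : kˣ) : k) * 1 = b := by
        rw [hσ, mul_one]
        rfl
      rw [hb'] at hzz
      refine ⟨gu σ τ0, gu σ (z1⁻¹ * z2 * w'⁻¹) * zz, ?_, ?_⟩
      · exact MonoidHom.isOfFinOrder (gu σ) hfin
      · rw [hzz, h1, map_mul, map_pow, mul_pow, mul_assoc]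
  have htriv := fun b => torsion_triv hχ hcyc hh ht b
  by_cases h0 : c' = 0
  · have hc0 : c ≠ 0 := hne.resolve_right (fun h => h h0)
    obtain ⟨z3, hz3⟩ := eq_zero heta
    obtain ⟨z4, hz4⟩ := htriv (c⁻¹ * a)
    have e1 : c * (c⁻¹ * a) = a := by rw [← mul_assoc, mul_inv_cancel₀ hc0, one_mul]
    simp only [e1, h0, zero_mul] at hz4
    refine ⟨z4 * z3, ?_⟩
    rw [mul_pow, ← hz4, ← hz3, inv_mul_cancel_right]
  · exfalso
    obtain ⟨z4, hz4⟩ := htriv 1
    simp only [mul_one] at hz4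
    have e : eta χ ρ c' ξ = m c * (z4⁻¹) ^ l := by
      rw [inv_pow, ← hz4]
      simp
    apply hlev c' h0
    rw [e]
    exact lev_mul (hL c) (lev_pow _)

end H55K.Ab
end

-- from Lib.H35N.I0
section

open NumberField IsDedekindDomain

namespace H35N

open H55B H55N H19T

/-! ### Integrality above 3 -/

theorem i3_mul {a b : ℂ} (ha : Int3 a) (hb : Int3 b) : Int3 (a * b) := by
  intro V hV
  rw [map_mul]
  exact mul_le_one' (ha V hV) (hb V hV)

theorem i3_add {a b : ℂ} (ha : Int3 a) (hb : Int3 b) : Int3 (a + b) := fun V hV =>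
  (Valuation.map_add _ _ _).trans (max_le (ha V hV) (hb V hV))

theorem i3_neg {a : ℂ} (ha : Int3 a) : Int3 (-a) := by
  intro V hV
  rw [Valuation.map_neg]
  exact ha V hV

theorem i3_sub {a b : ℂ} (ha : Int3 a) (hb : Int3 b) : Int3 (a - b) := by
  rw [sub_eq_add_neg]
  exact i3_add ha (i3_neg hb)

theorem i3_zero : Int3 0 := fun V _ => by
  rw [map_zero]
  exact zero_le

theorem i3_one : Int3 1 := fun V _ => by
  rw [map_one]

theorem i3_sum {ι : Type*} (s : Finset ι) (a : ι → ℂ) (ha : ∀ i ∈ s, Int3 (a i)) :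
    Int3 (∑ i ∈ s, a i) :=
  Finset.sum_induction _ Int3 (fun _ _ => i3_add) i3_zero ha

theorem i3_prod {ι : Type*} (s : Finset ι) (a : ι → ℂ) (ha : ∀ i ∈ s, Int3 (a i)) :
    Int3 (∏ i ∈ s, a i) :=
  Finset.prod_induction _ Int3 (fun _ _ => i3_mul) i3_one ha

theorem i3_pow {a : ℂ} (ha : Int3 a) (n : ℕ) : Int3 (a ^ n) := by
  intro V hV
  rw [map_pow]
  exact pow_le_one' (ha V hV) n

theorem i3_intCast (n : ℤ) : Int3 (n : ℂ) := by
  intro V hV
  rw [ValuationSubring.valuation_le_one_iff]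
  exact intCast_mem V n

theorem i3_natCast (n : ℕ) : Int3 (n : ℂ) := by
  intro V hV
  rw [ValuationSubring.valuation_le_one_iff]
  exact natCast_mem V n

theorem i3_e (x : O) : Int3 (e x) := fun V _ => val_e_le V x

theorem i3_unit {a : ℂ} (ha : H35T.Unit3 a) : Int3 a := fun V hV => (ha V hV).le

theorem i3_div_unit {a b : ℂ} (ha : Int3 a) (hb : H35T.Unit3 b) : Int3 (a / b) := by
  intro V hV
  rw [map_div₀, hb V hV, div_one]
  exact ha V hV

theorem i3_det {n : ℕ} (M : Matrix (Fin n) (Fin n) ℂ) (h : ∀ i j, Int3 (M i j)) :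
    Int3 M.det := by
  rw [Matrix.det_apply]
  refine i3_sum _ _ fun s _ => ?_
  rcases Int.units_eq_one_or (Equiv.Perm.sign s) with h1 | h1
  · rw [h1, one_smul]
    exact i3_prod _ _ fun i _ => h _ _
  · rw [h1, Units.neg_smul, one_smul]
    exact i3_neg (i3_prod _ _ fun i _ => h _ _)

theorem unit3_nat {n : ℕ} (hn : ¬ 3 ∣ n) : H35T.Unit3 (n : ℂ) := fun V hV => H35T.val_nat V hV n hn

theorem unit3_om : H35T.Unit3 (e om) := fun V _ => H35T.L3_om V.valuation

/-- The relation between lam and the square root of -3. -/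
theorem sq3_lam : H35T.sq3 = -om * lam := by
  unfold H35T.sq3 lam
  linear_combination om_rel

theorem three_lam : (3 : O) = -(om ^ 2) * lam ^ 2 := by
  have h := om_rel
  unfold lam
  linear_combination (om ^ 2 - 3 * om + 3) * h

theorem e_lam_ne : e lam ≠ 0 := by
  intro h
  have h1 := congrArg e three_lam
  rw [map_mul, map_pow, h, map_ofNat] at h1
  norm_num at h1

theorem lam_prime' : Prime (lam : O) := H55N.L2_lam_prime

/-- 3 / (lam sqrt(-3)) is a unit. -/
theorem unit3_c : H35T.Unit3 (3 / (e lam * e H35T.sq3)) := by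
  have h : (3 : ℂ) / (e lam * e H35T.sq3) = e om := by
    have h0 := e_lam_ne
    have h1 := congrArg e sq3_lam
    have h2 := congrArg e three_lam
    rw [map_mul, map_neg] at h1
    rw [map_mul, map_neg, map_pow, map_pow, map_ofNat] at h2
    have h3 : e om ≠ 0 := by
      intro h
      have := e_om_rel
      rw [h] at this
      norm_num at this
    rw [h1, h2]
    field_simp
  rw [h]
  exact unit3_om

theorem int3_q {q : ℂ} (hq : q ^ 4 = 3) : Int3 q := by
  intro V hV
  by_contra hcon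
  push Not at hcon
  have h1 : 1 < V.valuation q ^ 4 := one_lt_pow₀ hcon (by norm_num)
  rw [← map_pow, hq] at h1
  exact absurd hV (not_lt.2 h1.le)

end H35N
end

-- from Lib.H35T.A4
section

open NumberField IsDedekindDomain

namespace H35T

open H55B

/-! Chunk A4 (M): primes above 2 and 3 in K. val_two, val_lam, glob2, glob3: copy of H55C.A4 (the primes (2) and (om - 1) are not good
here either; A4_val there must be restated with the present Good). res3: w above 3, R = adicCompletionIntegers; its residue field k has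
absNorm w elements (H55B.residue_card), absNorm w = 3^f (absNorm_inertia, the prime below is (om - 1), of norm 3), f = inertiaDeg
is a power of 3 (H55C.inertia_pow is the case of 2: g e f = [K : F] for Galois extensions), so the number of elements is 3 mod 4 and -1 is
not a square in k (FiniteField.isSquare_neg_one_iff). If v(z) <= 1 and v(z^2 + 1) < 1 the residue class of z has square -1.
globres: the same for the values of P.valuation N on K (A4_glob in H55C.A4: e-th power of w.valuation K; HeightOneSpectrum.valuedAdicCompletion_eq_valuation'). -/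

theorem A4_val {K : Type} [Field K] [NumberField K] [Algebra F K] (hU : UnrOut K)
    (w : HeightOneSpectrum (𝓞 K)) (π : O) (hπ : Prime π) (hw : algebraMap O (𝓞 K) π ∈ w.asIdeal)
    (hbad : ∀ v : HeightOneSpectrum O, v.asIdeal = Ideal.span {π} → ¬ Good v) :
    w.valuation K (algebraMap O K π) = WithZero.exp (-1 : ℤ) := by
  have hwm := w.isMaximal
  have hwp := w.isPrime
  let v : HeightOneSpectrum O := ⟨Ideal.span {π}, (Ideal.span_singleton_prime hπ.ne_zero).2 hπ,
    by simpa using hπ.ne_zero⟩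
  have hvm := v.isMaximal
  have hunder : v.asIdeal = w.asIdeal.under O := by
    apply hvm.eq_of_le (Ideal.IsPrime.ne_top inferInstance)
    show Ideal.span {π} ≤ _
    rw [Ideal.span_singleton_le_iff_mem]
    exact hw
  have hl : w.asIdeal.LiesOver v.asIdeal := ⟨hunder⟩
  have hram : v.asIdeal.ramificationIdx' w.asIdeal = 1 := by
    rw [Ideal.ramificationIdx'_eq_ramificationIdx v.asIdeal w.asIdeal v.ne_bot]
    exact hU w v hunder (hbad v rfl)
  have h4 := HeightOneSpectrum.valuation_liesOver K v w (algebraMap O F π)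
  rw [hram, pow_one] at h4
  rw [IsScalarTower.algebraMap_apply O F K, ← h4, HeightOneSpectrum.valuation_of_algebraMap]
  exact HeightOneSpectrum.intValuation_singleton v hπ.ne_zero rfl

theorem A4_lam {K : Type} [Field K] [NumberField K] [Algebra F K]
    (w : HeightOneSpectrum (𝓞 K)) (h3 : (3 : 𝓞 K) ∈ w.asIdeal) :
    algebraMap O (𝓞 K) (om - 1) ∈ w.asIdeal := by
  have hwm := w.isMaximal
  have hwp := w.isPrime
  have h1 : (3 : 𝓞 K) = algebraMap O (𝓞 K) 3 := (map_ofNat (algebraMap O (𝓞 K)) 3).symm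
  rw [h1, three_eq, neg_mul, map_neg, Ideal.neg_mem_iff, map_mul] at h3
  rcases hwp.mem_or_mem h3 with h2 | h2
  · exact absurd h2 (G5_om _ _ hwm.ne_top)
  · rw [map_pow] at h2
    exact hwp.mem_of_pow_mem _ h2

theorem val_two {K : Type} [Field K] [NumberField K] [Algebra F K] (hU : UnrOut K)
    (w : HeightOneSpectrum (𝓞 K)) (h2 : (2 : 𝓞 K) ∈ w.asIdeal) :
    w.valuation K (2 : K) = WithZero.exp (-1 : ℤ) := by
  have h := A4_val hU w 2 two_prime (by rw [map_ofNat]; exact h2) (fun v hv hg => hg.1 (by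
    rw [hv]; exact Ideal.mem_span_singleton_self _))
  rwa [map_ofNat] at h

theorem val_lam {K : Type} [Field K] [NumberField K] [Algebra F K] (hU : UnrOut K)
    (w : HeightOneSpectrum (𝓞 K)) (h3 : (3 : 𝓞 K) ∈ w.asIdeal) :
    w.valuation K (algebraMap O K (om - 1)) = WithZero.exp (-1 : ℤ) := by
  apply A4_val hU w (om - 1) lam_prime (A4_lam w h3)
  intro v hv hg
  apply hg.2.1
  rw [hv, three_eq, Ideal.mem_span_singleton]
  exact Dvd.intro_left (-om ^ 2 * (om - 1)) (by ring)

theorem val_three {K : Type} [Field K] [NumberField K] [Algebra F K] (hU : UnrOut K)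
    (w : HeightOneSpectrum (𝓞 K)) (h3 : (3 : 𝓞 K) ∈ w.asIdeal) :
    w.valuation K (3 : K) = WithZero.exp (-2 : ℤ) := by
  have h := val_lam hU w h3
  have h1 : (3 : K) = algebraMap O K 3 := (map_ofNat (algebraMap O K) 3).symm
  have hom : w.valuation K (algebraMap O K om) = 1 := by
    have hom3 : (om : O) ^ 3 = 1 := by linear_combination (om - 1) * om_rel
    have h2 : w.valuation K (algebraMap O K om) ^ 3 = 1 := by
      rw [← map_pow, ← map_pow, hom3, map_one, map_one]
    exact (pow_eq_one_iff.1 h2).resolve_right (by norm_num)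
  rw [h1, three_eq, neg_mul, map_neg, Valuation.map_neg, map_mul, map_mul, map_pow, map_pow, map_pow,
    map_pow, hom, h, one_pow, one_mul, ← WithZero.exp_nsmul]
  norm_num

theorem inertia_pow {K : Type} [Field K] [NumberField K] [Algebra F K] (hG : IsGalois F K) (k : ℕ)
    (hk : Module.finrank F K = 3 ^ k) (w : HeightOneSpectrum (𝓞 K)) :
    ∃ j : ℕ, w.asIdeal.inertiaDeg O = 3 ^ j := by
  have hp : (w.asIdeal.under O).IsPrime := inferInstance
  have hl : w.asIdeal.LiesOver (w.asIdeal.under O) := ⟨rfl⟩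
  have hne : w.asIdeal.under O ≠ ⊥ := by
    intro h
    have h1 := Ideal.eq_bot_of_comap_eq_bot (R := O) (I := w.asIdeal) h
    exact w.ne_bot h1
  have hmax : (w.asIdeal.under O).IsMaximal := hp.isMaximal hne
  have h1 := Ideal.ncard_primesOver_mul_ramificationIdxIn_mul_inertiaDegIn (w.asIdeal.under O) (𝓞 K)
    (K ≃ₐ[F] K)
  rw [IsGalois.card_aut_eq_finrank, hk,
    Ideal.inertiaDegIn_eq_inertiaDeg (w.asIdeal.under O) w.asIdeal (K ≃ₐ[F] K)] at h1
  have h2 : w.asIdeal.inertiaDeg O ∣ 3 ^ k := by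
    rw [← h1]
    exact Dvd.intro_left _ (by rw [← mul_assoc])
  obtain ⟨j, _, hj⟩ := (Nat.dvd_prime_pow Nat.prime_three).1 h2
  exact ⟨j, hj⟩

theorem A4_nm : Nm (om - 1 : O) = 3 := by
  have h := Nm_repr (-1) 1
  have h2 : ((-1 : ℤ) : O) + ((1 : ℤ) : O) * om = om - 1 := by push_cast; ring
  rw [h2] at h
  norm_num at h
  exact_mod_cast h

theorem A4_mod (f : ℕ) (hf : Odd f) : 3 ^ f % 4 = 3 := by
  obtain ⟨m, rfl⟩ := hf
  rw [pow_succ, pow_mul, Nat.mul_mod, Nat.pow_mod]
  norm_num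

theorem res3 {K : Type} [Field K] [NumberField K] [Algebra F K] (hG : IsGalois F K) (k : ℕ)
    (hk : Module.finrank F K = 3 ^ k) (w : HeightOneSpectrum (𝓞 K)) (h3 : (3 : 𝓞 K) ∈ w.asIdeal)
    (z : w.adicCompletion K) (hz : Valued.v z ≤ 1) : Valued.v (z ^ 2 + 1) = 1 := by
  have hle : Valued.v (z ^ 2 + 1) ≤ 1 := by
    refine Valuation.map_add_le _ ?_ (by rw [map_one])
    rw [map_pow]
    exact pow_le_one₀ zero_le hz
  by_contra hcon
  have hlt : Valued.v (z ^ 2 + 1) < 1 := lt_of_le_of_ne hle hcon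
  let z' : w.adicCompletionIntegers K := ⟨z, hz⟩
  have hmem : z' ^ 2 + 1 ∈ IsLocalRing.maximalIdeal (w.adicCompletionIntegers K) := by
    rw [F3_mem_maximalIdeal]
    exact hlt
  have hres : IsLocalRing.residue (w.adicCompletionIntegers K) z' ^ 2 = -1 := by
    have h := (IsLocalRing.residue_eq_zero_iff (z' ^ 2 + 1)).2 hmem
    rw [map_add, map_pow, map_one] at h
    linear_combination h
  have hsq : IsSquare (-1 : IsLocalRing.ResidueField (w.adicCompletionIntegers K)) :=
    ⟨_, by rw [← pow_two]; exact hres.symm⟩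
  obtain ⟨hfin, hcard⟩ := residue_card K w
  have := Fintype.ofFinite (IsLocalRing.ResidueField (w.adicCompletionIntegers K))
  rw [FiniteField.isSquare_neg_one_iff] at hsq
  apply hsq
  rw [Fintype.card_eq_nat_card, hcard]
  have hwm := w.isMaximal
  let v : HeightOneSpectrum O := ⟨Ideal.span {om - 1},
    (Ideal.span_singleton_prime lam_prime.ne_zero).2 lam_prime, by simpa using lam_prime.ne_zero⟩
  have hvm := v.isMaximal
  have hunder : v.asIdeal = w.asIdeal.under O := by
    apply hvm.eq_of_le (Ideal.IsPrime.ne_top inferInstance)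
    show Ideal.span {om - 1} ≤ _
    rw [Ideal.span_singleton_le_iff_mem]
    exact A4_lam w h3
  obtain ⟨j, hj⟩ := inertia_pow hG k hk w
  rw [absNorm_inertia K w v hunder, hj]
  have hN : Ideal.absNorm v.asIdeal = 3 := A4_nm
  rw [hN]
  exact A4_mod _ (Odd.pow (by decide))

theorem glob2 (K N : Type) [Field K] [NumberField K] [Algebra F K] [Field N] [NumberField N]
    [Algebra K N] (hU : UnrOut K) (P : HeightOneSpectrum (𝓞 N)) (h2 : (2 : 𝓞 N) ∈ P.asIdeal) (z : K)
    (hz : P.valuation N (algebraMap K N z) < 1) :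
    P.valuation N (algebraMap K N z) ≤ P.valuation N 2 := by
  obtain ⟨w, e, hw, he, hval⟩ := H55C.A4_glob (K := K) (N := N) P
  have h2w : (2 : 𝓞 K) ∈ w.asIdeal := by
    rw [hw, Ideal.mem_comap, map_ofNat]
    exact h2
  have h := val_two hU w h2w
  have h5 : (2 : N) = algebraMap K N 2 := (map_ofNat (algebraMap K N) 2).symm
  rw [h5, hval, hval, h]
  rw [hval] at hz
  have hz1 : w.valuation K z < 1 := by
    by_contra hcon
    exact absurd hz (not_lt.mpr (one_le_pow₀ (not_lt.mp hcon)))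
  exact pow_le_pow_left₀ zero_le (H55C.A4_lt hz1) e

theorem glob3 (K N : Type) [Field K] [NumberField K] [Algebra F K] [Field N] [NumberField N]
    [Algebra K N] (hU : UnrOut K) (P : HeightOneSpectrum (𝓞 N)) (h3 : (3 : 𝓞 N) ∈ P.asIdeal) (z : K)
    (hz : P.valuation N (algebraMap K N z) < 1) :
    P.valuation N (algebraMap K N z) ≤ P.valuation N (algebraMap K N (algebraMap O K om - 1)) := by
  obtain ⟨w, e, hw, he, hval⟩ := H55C.A4_glob (K := K) (N := N) P
  have h3w : (3 : 𝓞 K) ∈ w.asIdeal := by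
    rw [hw, Ideal.mem_comap, map_ofNat]
    exact h3
  have h := val_lam hU w h3w
  rw [map_sub, map_one] at h
  rw [hval, hval, h]
  rw [hval] at hz
  have hz1 : w.valuation K z < 1 := by
    by_contra hcon
    exact absurd hz (not_lt.mpr (one_le_pow₀ (not_lt.mp hcon)))
  exact pow_le_pow_left₀ zero_le (H55C.A4_lt hz1) e

theorem globres (K N : Type) [Field K] [NumberField K] [Algebra F K] [Field N] [NumberField N]
    [Algebra K N] (hG : IsGalois F K) (k : ℕ) (hk : Module.finrank F K = 3 ^ k)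
    (P : HeightOneSpectrum (𝓞 N)) (h3 : (3 : 𝓞 N) ∈ P.asIdeal) (z : K)
    (hz : P.valuation N (algebraMap K N z) ≤ 1) :
    P.valuation N (algebraMap K N z ^ 2 + 1) = 1 := by
  obtain ⟨w, e, hw, he, hval⟩ := H55C.A4_glob (K := K) (N := N) P
  have h3w : (3 : 𝓞 K) ∈ w.asIdeal := by
    rw [hw, Ideal.mem_comap, map_ofNat]
    exact h3
  have hz1 : w.valuation K z ≤ 1 := by
    rw [hval] at hz
    by_contra hcon
    exact absurd hz (not_le.mpr (one_lt_pow₀ (not_le.mp hcon) he))
  have h1 := HeightOneSpectrum.valuedAdicCompletion_eq_valuation' w z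
  have h2 := HeightOneSpectrum.valuedAdicCompletion_eq_valuation' w (z ^ 2 + 1)
  have h4 := res3 hG k hk w h3w (z : w.adicCompletion K) (by rw [h1]; exact hz1)
  have h5 : ((z ^ 2 + 1 : K) : w.adicCompletion K) = (z : w.adicCompletion K) ^ 2 + 1 := by
    show algebraMap K (w.adicCompletion K) (z ^ 2 + 1) = algebraMap K (w.adicCompletion K) z ^ 2 + 1
    rw [map_add, map_pow, map_one]
  rw [h5, h4] at h2
  have h6 : algebraMap K N z ^ 2 + 1 = algebraMap K N (z ^ 2 + 1) := by
    rw [map_add, map_pow, map_one]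
  rw [h6, hval, ← h2, one_pow]

end H35T
end

-- from Lib.H35N.U3
section

open NumberField IsDedekindDomain

namespace H35N

open H55B H55N H19T

/-- K/F is unramified at the primes above 3. -/
def Unr3 (K : Type) [Field K] [NumberField K] [Algebra F K] : Prop :=
  ∀ w : HeightOneSpectrum (𝓞 K), (3 : 𝓞 K) ∈ w.asIdeal → w.asIdeal.ramificationIdx O = 1

variable {K : Type} [Field K] [NumberField K] [Algebra F K]

theorem under_ne (w : HeightOneSpectrum (𝓞 K)) (h3 : (3 : 𝓞 K) ∈ w.asIdeal) :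
    (3 : O) ∈ w.asIdeal.under O ∧ w.asIdeal.under O ≠ ⊥ := by
  have h3v : (3 : O) ∈ w.asIdeal.under O := by
    rw [Ideal.under_def, Ideal.mem_comap, map_ofNat]
    exact h3
  refine ⟨h3v, ?_⟩
  intro h
  rw [h, Ideal.mem_bot] at h3v
  norm_num at h3v

theorem unr3_of (hK : H35T.UnrOut K) : Unr3 K := by
  intro w h3
  have hwp := w.isPrime
  obtain ⟨h3v, hvne⟩ := under_ne w h3
  let v : HeightOneSpectrum O := ⟨w.asIdeal.under O, inferInstance, hvne⟩
  exact hK w v rfl (fun h => h.2.1 h3v)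

theorem val_lam3 (hU : Unr3 K) (w : HeightOneSpectrum (𝓞 K)) (h3 : (3 : 𝓞 K) ∈ w.asIdeal) :
    w.valuation K (algebraMap O K lam) = WithZero.exp (-1 : ℤ) := by
  have hwm := w.isMaximal
  have hwp := w.isPrime
  have hπ : Prime lam := lam_prime'
  let v : HeightOneSpectrum O := ⟨Ideal.span {lam}, (Ideal.span_singleton_prime hπ.ne_zero).2 hπ,
    by simpa using hπ.ne_zero⟩
  have hvm := v.isMaximal
  have hunder : v.asIdeal = w.asIdeal.under O := by
    apply hvm.eq_of_le (Ideal.IsPrime.ne_top inferInstance)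
    show Ideal.span {lam} ≤ _
    rw [Ideal.span_singleton_le_iff_mem]
    exact H35T.A4_lam w h3
  have hl : w.asIdeal.LiesOver v.asIdeal := ⟨hunder⟩
  have hram : v.asIdeal.ramificationIdx' w.asIdeal = 1 := by
    rw [Ideal.ramificationIdx'_eq_ramificationIdx v.asIdeal w.asIdeal v.ne_bot]
    exact hU w h3
  have h4 := HeightOneSpectrum.valuation_liesOver K v w (algebraMap O F lam)
  rw [hram, pow_one] at h4
  rw [IsScalarTower.algebraMap_apply O F K, ← h4, HeightOneSpectrum.valuation_of_algebraMap]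
  exact HeightOneSpectrum.intValuation_singleton v hπ.ne_zero rfl

end H35N
end

-- from Lib.H55C.B0
section

open NumberField IsDedekindDomain

namespace H55C

open H55B

/-! Chunk B0 (S): consequences of the modulus. unrOut_of_modulus: if the prime v below w is not good then alpha is not in v
(GoodMod), so alpha is not in w. val_three: 3 = -om^2 (om - 1)^2 and val_lam. alpha is prime to 6 because the
primes (2) and (om - 1) are not good. -/

variable {K : Type} [Field K] [NumberField K] [Algebra F K]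

theorem unrOut_of_modulus {α : O} (hα : GoodMod α) (hM : IsModulus K α) : UnrOut K := by
  intro w v hv hg
  apply hM.1 w
  intro hmem
  apply hg
  apply hα.2.2 v
  rw [hv]
  exact hmem

theorem val_three (hU : UnrOut K) (w : HeightOneSpectrum (𝓞 K)) (h3 : (3 : 𝓞 K) ∈ w.asIdeal) :
    w.valuation K (3 : K) = WithZero.exp (-2 : ℤ) := by
  have h1 := val_lam hU w h3
  have h2 : (3 : K) = algebraMap O K 3 := (map_ofNat (algebraMap O K) 3).symm
  have hu : IsUnit (algebraMap O (𝓞 K) (om ^ 2)) := by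
    have hom3 : (om : O) ^ 2 * om = 1 := by
      have := om_rel
      linear_combination (om - 1) * this
    exact (IsUnit.of_mul_eq_one om hom3).map _
  have h4 : w.valuation K (algebraMap O K (om ^ 2)) = 1 := by
    have h5 : algebraMap O K (om ^ 2) = algebraMap (𝓞 K) K (algebraMap O (𝓞 K) (om ^ 2)) :=
      IsScalarTower.algebraMap_apply O (𝓞 K) K _
    rw [h5, HeightOneSpectrum.valuation_of_algebraMap, HeightOneSpectrum.intValuation_eq_one_iff]
    intro h6
    exact w.isPrime.ne_top (Ideal.eq_top_of_isUnit_mem _ h6 hu)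
  rw [h2, three_eq, neg_mul, map_neg, Valuation.map_neg, map_mul, map_mul, h4, map_pow _ (om - 1), map_pow, h1, one_mul]
  rfl

theorem GoodMod.coprime_two {α : O} (hα : GoodMod α) : IsCoprime α 2 := by
  have hp : Prime (2 : O) := two_prime
  rw [isCoprime_comm, hp.coprime_iff_not_dvd]
  intro hd
  let v : HeightOneSpectrum O := ⟨Ideal.span {2}, (Ideal.span_singleton_prime hp.ne_zero).2 hp,
    by simpa using hp.ne_zero⟩
  have h1 : α ∈ v.asIdeal := Ideal.mem_span_singleton.mpr hd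
  exact (hα.2.2 v h1).1 (Ideal.mem_span_singleton_self _)

theorem GoodMod.coprime_three {α : O} (hα : GoodMod α) : IsCoprime α 3 := by
  have hp : Prime (om - 1 : O) := lam_prime
  have h0 : IsCoprime α (om - 1) := by
    rw [isCoprime_comm, hp.coprime_iff_not_dvd]
    intro hd
    let v : HeightOneSpectrum O := ⟨Ideal.span {om - 1}, (Ideal.span_singleton_prime hp.ne_zero).2 hp,
      by simpa using hp.ne_zero⟩
    have h1 : α ∈ v.asIdeal := Ideal.mem_span_singleton.mpr hd
    apply (hα.2.2 v h1).2.1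
    rw [three_eq]
    show _ ∈ Ideal.span {om - 1}
    rw [Ideal.mem_span_singleton]
    exact Dvd.intro_left (-om ^ 2 * (om - 1)) (by ring)
  have hu : IsCoprime α (-om ^ 2) := by
    have hom3 : (om : O) ^ 2 * om = 1 := by
      have := om_rel
      linear_combination (om - 1) * this
    exact ⟨0, -om, by linear_combination hom3⟩
  have h3 : (3 : O) = -om ^ 2 * (om - 1) ^ 2 := three_eq
  rw [h3]
  exact hu.mul_right (h0.pow_right)

theorem GoodMod.ne_zero {α : O} (hα : GoodMod α) : α ≠ 0 := hα.1.ne_zero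

theorem GoodMod.odd_norm {α : O} (hα : GoodMod α) : Odd (Nm α) := by
  rw [← Nat.not_even_iff_odd]
  intro he
  have h1 : (2 : O) ∣ α * cj α := by
    rw [mul_cj]
    obtain ⟨k, hk⟩ := he.two_dvd
    exact ⟨(k : O), by rw [hk]; push_cast; ring⟩
  have h2 : (2 : O) ∣ α := by
    rcases two_prime.dvd_or_dvd h1 with h | h
    · exact h
    · obtain ⟨z, hz⟩ := h
      refine ⟨cj z, ?_⟩
      have := congrArg cj hz
      rw [cj_cj, map_mul, map_ofNat] at this
      exact this
  exact two_prime.not_isUnit (hα.coprime_two.isUnit_of_dvd' h2 dvd_rfl)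

end H55C
end

-- from Lib.H55C.W12
section

open NumberField IsDedekindDomain

namespace H55C

open H55B

/-- Pure group theory: if every element of A lies in H, T + H or -T + H and 3T = 0 then the index of H is odd
(the quotient is generated by the class of T, of order dividing 3: Nat.card of the quotient is addOrderOf). -/
theorem W12_index {A : Type*} [AddCommGroup A] (H : AddSubgroup A) (T : A) (h3 : 3 • T = 0)
    (h : ∀ P, P ∈ H ∨ P - T ∈ H ∨ P + T ∈ H) : Odd H.index := by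
  have h1 : AddSubgroup.zmultiples (QuotientAddGroup.mk T : A ⧸ H) = ⊤ := by
    rw [eq_top_iff]
    intro q _
    obtain ⟨P, rfl⟩ := QuotientAddGroup.mk_surjective q
    rw [AddSubgroup.mem_zmultiples_iff]
    rcases h P with hP | hP | hP
    · exact ⟨0, by rw [zero_smul]; exact ((QuotientAddGroup.eq_zero_iff P).2 hP).symm⟩
    · refine ⟨1, ?_⟩
      rw [one_smul]
      have h2 := (QuotientAddGroup.eq_zero_iff (P - T)).2 hP
      rw [QuotientAddGroup.mk_sub] at h2
      exact (sub_eq_zero.1 h2).symm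
    · refine ⟨-1, ?_⟩
      rw [neg_smul, one_smul]
      have h2 := (QuotientAddGroup.eq_zero_iff (P + T)).2 hP
      rw [QuotientAddGroup.mk_add] at h2
      exact (eq_neg_of_add_eq_zero_left h2).symm
  have h2 : H.index = addOrderOf (QuotientAddGroup.mk T : A ⧸ H) := by
    rw [← Nat.card_zmultiples, h1, AddSubgroup.card_top]
    rfl
  rw [h2]
  have h3' : addOrderOf (QuotientAddGroup.mk T : A ⧸ H) ∣ 3 := by
    apply addOrderOf_dvd_of_nsmul_eq_zero
    rw [← QuotientAddGroup.mk_nsmul, h3]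
    rfl
  rcases (Nat.dvd_prime Nat.prime_three).1 h3' with h4 | h4 <;> rw [h4]
  · exact odd_one
  · exact ⟨1, rfl⟩

/-! Chunk W12: the Tamagawa number is odd at primes above 3 (B0.val_three, cosets, W12_index). -/
theorem tam_odd (K : Type) [Field K] [NumberField K] [Algebra F K] (hK : UnrOut K)
    (w : HeightOneSpectrum (𝓞 K)) (h : (3 : 𝓞 K) ∈ w.asIdeal) : Odd (tam K w) := by
  classical
  obtain ⟨T, h3, hT⟩ := cosets K w (val_three hK w h)
  unfold tam
  refine W12_index _ T h3 fun P => ?_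
  rcases hT P with h1 | h1 | h1
  · exact Or.inl (AddSubgroup.subset_closure h1)
  · exact Or.inr (Or.inl (AddSubgroup.subset_closure h1))
  · exact Or.inr (Or.inr (AddSubgroup.subset_closure h1))

end H55C
end

-- from Lib.H55C.W13
section

open NumberField IsDedekindDomain

namespace H55C

open H55B

theorem W13_div {a b : ℂ} (ha : Unit2 a) (hb : Unit2 b) : Unit2 (a / b) := by
  rw [div_eq_mul_inv]
  exact ha.mul hb.inv

theorem W13_nat {n : ℕ} (h : Odd n) : Unit2 (n : ℂ) := fun A hA => val_odd A hA n h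

/-- Chunk W13. The square root of the absolute value of an odd integer is a 2-adic unit (its square is an odd
natural number). -/
theorem W13_sqrt (D : ℤ) (h : Odd D) : Unit2 ((Real.sqrt |(D : ℝ)| : ℝ) : ℂ) := by
  intro A hA
  have h1 : (((Real.sqrt |(D : ℝ)| : ℝ) : ℂ)) ^ 2 = ((D.natAbs : ℕ) : ℂ) := by
    rw [← Complex.ofReal_pow, Real.sq_sqrt (abs_nonneg _), ← Int.cast_abs, Int.abs_eq_natAbs]
    simp only [Int.cast_natCast, Complex.ofReal_natCast]
  have h2 := val_odd A hA D.natAbs (Int.natAbs_odd.2 h)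
  rw [← h1, map_pow] at h2
  exact (pow_eq_one_iff_of_nonneg zero_le two_ne_zero).1 h2

/-- Chunk W13. The product of the Tamagawa numbers is a 2-adic unit (finprod_induction, tam_one, tam_odd). -/
theorem W13_tam (K : Type) [Field K] [NumberField K] [Algebra F K] (hK : UnrOut K) :
    Unit2 (∏ᶠ w : HeightOneSpectrum (𝓞 K), (tam K w : ℂ)) := by
  refine finprod_induction Unit2 ?_ (fun x y hx hy => hx.mul hy) fun w => ?_
  · have h := W13_nat odd_one
    rwa [Nat.cast_one] at h
  · apply W13_nat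
    by_cases h : (3 : 𝓞 K) ∈ w.asIdeal
    · exact tam_odd K hK w h
    · rw [tam_one K w h]
      exact odd_one

/-! Chunk W13: assembly. shaAn = (L1/(R0 conj R0)^m) * (R0 conj R0/Om L)^m * sqrt|D| * #E^2 / prod tam with
m = Nat.card Gal = finrank F K = nrComplexPlaces K (IsGalois.card_aut_eq_finrank, complex_places); the hypothesis hL, period_unit,
W13_sqrt with odd_discr, W13_nat, W13_tam. (R0 is nonzero: exists_X in H55B/A3.) -/
theorem shaAn_unit (K : Type) [Field K] [NumberField K] [Algebra F K] [IsGalois F K] (hK : UnrOut K)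
    (hE : Odd (Nat.card (E27.baseChange K).toAffine.Point)) (L1 : ℂ)
    (hL : Unit2 (L1 / (R (e om - 1) * (starRingEnd ℂ) (R (e om - 1))) ^ Nat.card (K ≃ₐ[F] K)))
    (L : PeriodPair) (h2 : L.g₂ = 0) (h3 : L.g₃ = -1) : Unit2 (shaAn K L L1) := by
  obtain ⟨X, hR0, -⟩ := exists_X
  have hm : Nat.card (K ≃ₐ[F] K) = InfinitePlace.nrComplexPlaces K := by
    rw [complex_places, IsGalois.card_aut_eq_finrank]
  rw [hm] at hL
  have hp := period_unit L h2 h3
  have hc : R (e om - 1) * (starRingEnd ℂ) (R (e om - 1)) ≠ 0 :=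
    mul_ne_zero hR0 ((map_ne_zero _).2 hR0)
  have hE' := (W13_nat hE).pow 2
  have hs := W13_sqrt _ (odd_discr K hK)
  have ht := W13_tam K hK
  have hall := W13_div ((((hL.mul (hp.pow (InfinitePlace.nrComplexPlaces K))).mul hs).mul hE')) ht
  have heq : shaAn K L L1 = L1 / (R (e om - 1) * (starRingEnd ℂ) (R (e om - 1))) ^
      InfinitePlace.nrComplexPlaces K *
      (R (e om - 1) * (starRingEnd ℂ) (R (e om - 1)) / (Om L : ℂ)) ^
        InfinitePlace.nrComplexPlaces K * ((Real.sqrt |(NumberField.discr K : ℝ)| : ℝ) : ℂ) *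
      (Nat.card (E27.baseChange K).toAffine.Point : ℂ) ^ 2 /
      (∏ᶠ w : HeightOneSpectrum (𝓞 K), (tam K w : ℂ)) := by
    unfold shaAn
    have hc' := pow_ne_zero (InfinitePlace.nrComplexPlaces K) hc
    rw [div_pow, div_mul_div_comm, mul_comm (_ ^ _) ((Om L : ℂ) ^ _),
      mul_div_mul_right _ _ hc']
    rw [← div_div]
    congr 1
    ring
  rw [heq]
  exact hall

end H55C
end

-- from Lib.H55D.T2
section

open NumberField IsDedekindDomain

namespace H55D

open H55B H55C

variable {K₀ K : Type} [Field K₀] [NumberField K₀] [Field K] [NumberField K] [Algebra F K] [Algebra K₀ K]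

/-! Chunk T2 (M): COPY/ADAPT of H13E/T2 (tam0_three) and T3 (tam0_one). tam0_three: w a prime of K above w', H55C.exists_iota, index_dvd, H55C.tam_odd (the sets E0 are W11_S for Valued.v). tam0_one: H55C.W10_gen as in
W10_E0 (no roots of unity needed). tam0_prod as in H55C.W13_tam. -/

theorem DT2_val3 (K : Type) [Field K] [NumberField K] (w : HeightOneSpectrum (𝓞 K))
    (h3 : (3 : 𝓞 K) ∈ w.asIdeal) : Valued.v (3 : w.adicCompletion K) < 1 := by
  have h1 := HeightOneSpectrum.valuedAdicCompletion_eq_valuation' w (3 : K)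
  have h2 : ((3 : K) : w.adicCompletion K) = 3 := map_ofNat (algebraMap K (w.adicCompletion K)) 3
  rw [h2] at h1
  rw [h1]
  have h4 : w.valuation K (algebraMap (𝓞 K) K 3) < 1 :=
    (HeightOneSpectrum.valuation_lt_one_iff_mem w (K := K) (3 : 𝓞 K)).2 h3
  rwa [map_ofNat] at h4

theorem tam0_three (K : Type) [Field K] [NumberField K] [Algebra F K] [Algebra K₀ K] (hU : UnrOut K)
    (w' : HeightOneSpectrum (𝓞 K₀)) (h : (3 : 𝓞 K₀) ∈ w'.asIdeal) : Odd (tam K₀ w') := by
  classical
  obtain ⟨Q, hQ, hQl⟩ := Ideal.exists_maximal_ideal_liesOver_of_isIntegral (S := 𝓞 K) w'.asIdeal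
  have hunder : w'.asIdeal = Q.under (𝓞 K₀) := hQl.over
  have hQ0 : Q ≠ ⊥ := by
    rintro rfl
    apply w'.ne_bot
    rw [hunder]
    exact Ideal.under_bot (𝓞 K₀) (𝓞 K)
  obtain ⟨w, hw⟩ : ∃ w : HeightOneSpectrum (𝓞 K), w.asIdeal = Q := ⟨⟨Q, hQ.isPrime, hQ0⟩, rfl⟩
  rw [← hw] at hunder
  have h3w : (3 : 𝓞 K) ∈ w.asIdeal := by
    have h1 : (3 : 𝓞 K₀) ∈ w.asIdeal.under (𝓞 K₀) := hunder ▸ h
    rw [Ideal.mem_under] at h1
    rwa [map_ofNat] at h1
  obtain ⟨ι, e, he, -, hv⟩ := H55C.exists_iota K₀ K w w' hunder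
  refine Odd.of_dvd_nat (tam_odd K hU w h3w) ?_
  exact index_dvd (Valued.v (R := w'.adicCompletion K₀)) (Valued.v (R := w.adicCompletion K))
    (DT2_val3 K₀ w' h) (DT2_val3 K w h3w) ι e he hv

theorem DT2_E0 (w' : HeightOneSpectrum (𝓞 K₀)) (h : (3 : 𝓞 K₀) ∉ w'.asIdeal) :
    E0 K₀ w' = Set.univ := by
  rw [Set.eq_univ_iff_forall]
  intro P
  rcases P with _ | ⟨x, y, hP⟩
  · left
    rfl
  · right
    exact ⟨x, y, hP, rfl, W10_gen _ x y (W10_v3 K₀ w' h)
      (W10_eqn (w'.adicCompletion K₀) x y hP)⟩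

theorem tam0_one (w' : HeightOneSpectrum (𝓞 K₀)) (h : (3 : 𝓞 K₀) ∉ w'.asIdeal) : tam K₀ w' = 1 := by
  classical
  unfold tam
  rw [DT2_E0 w' h, AddSubgroup.closure_univ, AddSubgroup.index_top]

theorem tam0_prod (K : Type) [Field K] [NumberField K] [Algebra F K] [Algebra K₀ K] (hU : UnrOut K) :
    Unit2 (∏ᶠ w : HeightOneSpectrum (𝓞 K₀), (tam K₀ w : ℂ)) := by
  refine finprod_induction Unit2 ?_ (fun x y hx hy => hx.mul hy) fun w => ?_
  · have h := W13_nat odd_one
    rwa [Nat.cast_one] at h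
  · apply W13_nat
    by_cases h : (3 : 𝓞 K₀) ∈ w.asIdeal
    · exact tam0_three K hU w h
    · rw [tam0_one w h]
      exact odd_one

end H55D
end

-- from Lib.H13Z.LF2
section

open NumberField IsDedekindDomain

namespace H13Z

open H55P

theorem lf2_one {Ω : Type} [Field Ω] (V : ValuationSubring Ω) {l : ℕ} (hl : l ≠ 0) {ζ : Ω}
    (h : ζ ^ l = 1) : V.valuation ζ = 1 := by
  have h5 : V.valuation ζ ^ l = 1 := by rw [← map_pow, h, map_one]
  exact (pow_eq_one_iff_of_nonneg zero_le hl).1 h5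

/-- all nontrivial roots of unity have the same distance from one -/
theorem lf2_le {Ω : Type} [Field Ω] (V : ValuationSubring Ω) {l : ℕ} (hl : l.Prime) {ζ ξ : Ω}
    (hζ : IsPrimitiveRoot ζ l) (hξ : ξ ^ l = 1) : V.valuation (ξ - 1) ≤ V.valuation (ζ - 1) := by
  have hNZ : NeZero l := ⟨hl.ne_zero⟩
  obtain ⟨i, _, hi⟩ := hζ.eq_pow_of_pow_eq_one hξ
  rw [← hi, ← geom_sum_mul, map_mul]
  have h6 : V.valuation (∑ j ∈ Finset.range i, ζ ^ j) ≤ 1 := by
    apply Valuation.map_sum_le
    intro j _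
    rw [map_pow, lf2_one V hl.ne_zero hζ.pow_eq_one, one_pow]
  calc V.valuation (∑ j ∈ Finset.range i, ζ ^ j) * V.valuation (ζ - 1)
      ≤ 1 * V.valuation (ζ - 1) := by gcongr
    _ = V.valuation (ζ - 1) := one_mul _

theorem lf2_prim {Ω : Type} [Field Ω] {l : ℕ} (hl : l.Prime) {ξ : Ω} (hξ : ξ ^ l = 1) (h1 : ξ ≠ 1) :
    IsPrimitiveRoot ξ l := by
  have : Fact l.Prime := ⟨hl⟩
  have h2 := orderOf_eq_prime hξ h1
  rw [← h2]
  exact IsPrimitiveRoot.orderOf ξ

/-- the value of l -/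
theorem lf2_l {Ω : Type} [Field Ω] [CharZero Ω] (V : ValuationSubring Ω) {l : ℕ} (hl : l.Prime) {ζ : Ω}
    (hζ : IsPrimitiveRoot ζ l) : V.valuation (l : Ω) = V.valuation (ζ - 1) ^ (l - 1) := by
  have hprod : ∏ k ∈ Finset.range (l - 1), (1 - ζ ^ (k + 1)) = (l : Ω) := by
    have hl2 := hl.two_le
    have hpr' : IsPrimitiveRoot ζ ((l - 1) + 1) := by
      have : l - 1 + 1 = l := by omega
      rw [this]; exact hζ
    rw [hpr'.prod_one_sub_pow_eq_order]
    have : ((l - 1 : ℕ) : Ω) + 1 = ((l - 1 + 1 : ℕ) : Ω) := by push_cast; ring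
    rw [this]
    congr 1
    omega
  rw [← hprod, map_prod]
  have h : ∀ k ∈ Finset.range (l - 1), V.valuation (1 - ζ ^ (k + 1)) = V.valuation (ζ - 1) := by
    intro k hk
    rw [Finset.mem_range] at hk
    have h1 : (ζ ^ (k + 1)) ^ l = 1 := by rw [← pow_mul, mul_comm, pow_mul, hζ.pow_eq_one, one_pow]
    have h2 : ζ ^ (k + 1) ≠ 1 := hζ.pow_ne_one_of_pos_of_lt (by omega) (by omega)
    rw [Valuation.map_sub_swap]
    exact le_antisymm (lf2_le V hl hζ h1) (lf2_le V hl (lf2_prim hl h1 h2) hζ.pow_eq_one)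
  rw [Finset.prod_congr rfl h, Finset.prod_const, Finset.card_range]

/-- Chunk LF2 (M). A root of higher level is fixed by the decomposition group, if the l-th roots of unity are. V (y - 1) < 1: (y - 1)^l = y^l - 1 modulo l. λ = V (1 - ζ) for all ζ ≠ 1, ζ^l = 1; λ^(l-1) = V l, so V l < λ (l ≥ 3). y^l - 1 = product of the (y - ζ) over ζ^l = 1 (X^l - 1 splits: Ω algebraically closed; X_pow_sub_one_eq_prod), value ≤ V l^2 < λ^l
(λ^l = V l * λ), so some V (y - ζ₀) < λ. s y = ξ y, ξ^l = 1. V (s y - ζ₀) < V (s (1 - ζ)) = λ (Dec preserves inequalities, s fixes the roots of unity). ξ y - ζ₀ and ξ (y - ζ₀) have values < λ, so V (ξ ζ₀ - ζ₀) < λ, ξ = 1. -/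
theorem fix_strict {F₀ Ω : Type} [Field F₀] [Field Ω] [Algebra F₀ Ω] [CharZero Ω] [IsAlgClosed Ω]
    (V : ValuationSubring Ω) {l : ℕ} (hl : l.Prime) (h3 : 3 ≤ l) (hV : V.valuation (l : Ω) < 1) {u y : Ω}
    (hy : y ^ l = u) (hu : V.valuation (u - 1) ≤ V.valuation (l : Ω) ^ 2) {s : Ω ≃ₐ[F₀] Ω} (hs : Dec V s)
    (h1 : ∀ ζ : Ω, ζ ^ l = 1 → s ζ = ζ) (h2 : s u = u) : s y = y := by
  have hlz : ((l : ℕ) : Ω) ≠ 0 := by exact_mod_cast hl.ne_zero
  have hNZ : NeZero ((l : ℕ) : Ω) := ⟨hlz⟩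
  obtain ⟨ζ, hζ0⟩ := IsAlgClosed.exists_root (Polynomial.cyclotomic l Ω) (by
    rw [Polynomial.degree_cyclotomic]
    have := Nat.totient_pos.2 hl.pos
    intro h
    have h' : Nat.totient l = 0 := by exact_mod_cast h
    omega)
  have hζ : IsPrimitiveRoot ζ l := Polynomial.isRoot_cyclotomic_iff.1 hζ0
  have hvl := lf2_l V hl hζ
  obtain ⟨c, hc⟩ : ∃ c, c = V.valuation (ζ - 1) := ⟨_, rfl⟩
  have hvl0 : V.valuation (l : Ω) ≠ 0 := by
    rw [Ne, map_eq_zero]
    exact hlz
  rw [← hc] at hvl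
  have hc0 : c ≠ 0 := by
    intro h
    rw [h, zero_pow (by omega)] at hvl
    exact hvl0 hvl
  have hcpos : 0 < c := zero_lt_iff.2 hc0
  have hc1 : c < 1 := by
    by_contra hcon
    rw [not_lt] at hcon
    rw [hvl] at hV
    exact absurd (one_le_pow₀ hcon) (not_le.2 hV)
  -- some root of unity is close to y
  have hlt : V.valuation (l : Ω) ^ 2 < c ^ l := by
    rw [hvl, ← pow_mul]
    exact pow_lt_pow_right_of_lt_one₀ hcpos hc1 (by omega)
  have hprod := hζ.pow_sub_pow_eq_prod_sub_mul y 1 hl.pos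
  rw [one_pow, hy] at hprod
  have hclose : ∃ ζ₀ : Ω, ζ₀ ^ l = 1 ∧ V.valuation (y - ζ₀) < c := by
    by_contra hcon
    push Not at hcon
    have h4 : c ^ l ≤ V.valuation (u - 1) := by
      rw [hprod, map_prod]
      calc c ^ l = ∏ _ζ ∈ Polynomial.nthRootsFinset l (1 : Ω), c := by
            rw [Finset.prod_const, hζ.card_nthRootsFinset]
        _ ≤ _ := by
          apply Finset.prod_le_prod'
          intro ξ hξ
          rw [mul_one]
          exact hcon ξ ((Polynomial.mem_nthRootsFinset hl.pos _).1 hξ)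
    exact absurd (h4.trans hu) (not_le.2 hlt)
  obtain ⟨ζ₀, hζ₀, hcl⟩ := hclose
  have hy0 : y ≠ 0 := by
    rintro rfl
    rw [zero_pow hl.ne_zero] at hy
    rw [← hy, zero_sub, Valuation.map_neg, map_one] at hu
    have h4 : V.valuation (l : Ω) ^ 2 < 1 := pow_lt_one₀ zero_le hV (by norm_num)
    exact absurd hu (not_le.2 h4)
  obtain ⟨ξ, hξ⟩ : ∃ ξ : Ω, ξ = s y / y := ⟨_, rfl⟩
  have hsy : s y = ξ * y := by rw [hξ, div_mul_cancel₀ _ hy0]
  have hξl : ξ ^ l = 1 := by
    rw [hξ, div_pow, ← map_pow, hy, h2, div_self]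
    rw [← hy]
    exact pow_ne_zero l hy0
  have h5 : V.valuation (ξ * y - ζ₀) < c := by
    have h6 : V.valuation (s (y - ζ₀)) < V.valuation (s (ζ - 1)) := by
      rw [← not_le, H13S.dv_le s hs, not_le, ← hc]
      exact hcl
    have e1 : s (y - ζ₀) = ξ * y - ζ₀ := by rw [map_sub s, hsy, h1 ζ₀ hζ₀]
    have e2 : s (ζ - 1) = ζ - 1 := by rw [map_sub s, h1 ζ hζ.pow_eq_one, map_one]
    rw [e1, e2, ← hc] at h6
    exact h6
  have h7 : V.valuation (ξ * (y - ζ₀)) < c := by
    rw [map_mul, lf2_one V hl.ne_zero hξl, one_mul]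
    exact hcl
  have h8 : V.valuation ((ξ - 1) * ζ₀) < c := by
    have h9 : (ξ - 1) * ζ₀ = (ξ * y - ζ₀) - ξ * (y - ζ₀) := by ring
    rw [h9]
    exact (V.valuation.map_sub _ _).trans_lt (max_lt h5 h7)
  rw [map_mul, lf2_one V hl.ne_zero hζ₀, mul_one] at h8
  by_cases hne : ξ = 1
  · rw [hsy, hne, one_mul]
  · exfalso
    have h9 := lf2_le V hl (lf2_prim hl hξl hne) hζ.pow_eq_one
    rw [← hc] at h9
    exact absurd h9 (not_le.2 h8)

end H13Z
end

-- from Lib.H28R.W1
section

open NumberField IsDedekindDomain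

namespace H28R

open H55B (F O om Prim gen)
open H55P H55R

/-! Chunk W1 (M): the field C = K(ζ). C = CyclotomicField p K (or K(ζ) inside AlgebraicClosure K): IsCyclotomicExtension {p} K C, ζ = zeta. C/F is Galois: C is the splitting field over K of X^p - 1, which has coefficients in F, and K/F is normal:
every F-embedding of C into an algebraic closure maps K to K and ζ to a power of ζ (for example realise C as IntermediateField.adjoin K {ζ} in AlgebraicClosure K and use IntermediateField.normal_iff_forall_map_le over F, or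
Normal of a compositum). gen: C = K(ζ). deg: the group of C/K embeds in (ZMod p)ˣ (IsPrimitiveRoot.autToPow_injective or IsCyclotomicExtension), of order p - 1. Let Γ = group of C/F, |Γ| = p^k d, d = [C:K] dividing p - 1;
ω : Γ -> (ZMod p)ˣ (IsPrimitiveRoot.autToPow), kernel FixZ F ζ, so |FixZ| * |image| = p^k d, |image| divides p - 1, prime to p: p^k divides |FixZ|. The restriction FixZ -> group of K/F (restrictNormalHom) is injective (an element in the kernel is in the group of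
C/K and fixes ζ: gen), so |FixZ| <= p^k and it is bijective: iso. comm: σ in FixZ, δ in the group of C/K: σ δ σ⁻¹ δ⁻¹ fixes K (res is a homomorphism and δ restricts to 1) and fixes ζ (δ ζ = ζ^a, σ ζ = ζ), so it is 1. dec: given s, let σ in FixZ have the same
restriction to K, δ = σ⁻¹ s fixes K. -/

theorem W1_normal (p : ℕ) [NeZero p] (K : Type) [Field K] [NumberField K] [Algebra F K] [IsGalois F K]
    (C : Type) [Field C] [NumberField C] [Algebra F C] [Algebra K C] [IsScalarTower F K C]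
    [IsCyclotomicExtension {p} K C] : Normal F C := by
  let Ω := AlgebraicClosure C
  have hF : IsScalarTower ℚ F C := IsScalarTower.of_algebraMap_eq' (Subsingleton.elim _ _)
  have hfin : FiniteDimensional F C := Module.Finite.of_restrictScalars_finite ℚ F C
  let ζ : C := IsCyclotomicExtension.zeta p K C
  have hζ : IsPrimitiveRoot ζ p := IsCyclotomicExtension.zeta_spec p K C
  have hζ' : IsPrimitiveRoot (algebraMap C Ω ζ) p :=
    hζ.map_of_injective (algebraMap C Ω).injective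
  let i : C →ₐ[F] Ω := IsScalarTower.toAlgHom F C Ω
  have key : ∀ (σ : Ω →ₐ[F] Ω) (x : C), ∃ y : C, σ (algebraMap C Ω x) = algebraMap C Ω y := by
    intro σ x
    have hx : x ∈ Algebra.adjoin K {ζ} := by
      rw [IsCyclotomicExtension.adjoin_primitive_root_eq_top hζ]
      exact Algebra.mem_top
    refine Algebra.adjoin_induction (p := fun x _ => ∃ y : C, σ (algebraMap C Ω x) = algebraMap C Ω y)
      ?_ ?_ ?_ ?_ hx
    · rintro x hx
      rw [Set.mem_singleton_iff] at hx
      subst hx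
      have h1 : σ (algebraMap C Ω ζ) ^ p = 1 := by
        rw [← map_pow, ← map_pow, hζ.pow_eq_one, map_one, map_one]
      obtain ⟨j, -, hj⟩ := hζ'.eq_pow_of_pow_eq_one h1
      exact ⟨ζ ^ j, by rw [map_pow]; exact hj.symm⟩
    · intro a
      refine ⟨algebraMap K C (σ.restrictNormal K a), ?_⟩
      rw [← IsScalarTower.algebraMap_apply K C Ω, ← IsScalarTower.algebraMap_apply K C Ω]
      exact (AlgHom.restrictNormal_commutes σ K a).symm
    · rintro x y _ _ ⟨x', hx'⟩ ⟨y', hy'⟩
      exact ⟨x' + y', by rw [map_add, map_add, hx', hy', map_add]⟩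
    · rintro x y _ _ ⟨x', hx'⟩ ⟨y', hy'⟩
      exact ⟨x' * y', by rw [map_mul, map_mul, hx', hy', map_mul]⟩
  have hΩ : Normal F Ω := by
    have h1 : Algebra.IsAlgebraic F Ω := Algebra.IsAlgebraic.trans F C Ω
    have h2 : IsAlgClosure F Ω := ⟨inferInstance, inferInstance⟩
    exact IsAlgClosure.normal F Ω
  have h3 : Normal F i.fieldRange := by
    rw [IntermediateField.normal_iff_forall_map_le]
    intro σ
    rintro _ ⟨_, ⟨x, rfl⟩, rfl⟩
    obtain ⟨y, hy⟩ := key σ x
    exact ⟨y, hy.symm⟩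
  let j : C →ₐ[F] i.fieldRange := i.codRestrict i.fieldRange.toSubalgebra fun x => ⟨x, rfl⟩
  let e : C ≃ₐ[F] i.fieldRange := AlgEquiv.ofBijective j ⟨j.injective, by
    rintro ⟨_, x, rfl⟩
    exact ⟨x, rfl⟩⟩
  exact Normal.of_algEquiv e.symm

theorem W1_ex (p : ℕ) [NeZero p] (K : Type) [Field K] [NumberField K] :
    ∃ (C : Type) (_ : Field C) (_ : NumberField C) (_ : Algebra K C),
      IsCyclotomicExtension {p} K C :=
  ⟨CyclotomicField p K, inferInstance, IsCyclotomicExtension.numberField {p} K _, inferInstance,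
    inferInstance⟩

theorem exists_cyc (p : ℕ) (hp : p.Prime) (h5 : 5 ≤ p) (K : Type) [Field K] [NumberField K]
    [Algebra F K] (hG : IsGalois F K) (hk : ∃ k : ℕ, Module.finrank F K = p ^ k) :
    ∃ (C : Type) (_ : Field C) (_ : NumberField C) (_ : Algebra F C) (_ : Algebra K C)
      (_ : IsScalarTower F K C) (ζ : C), Cyc p K C ζ := by
  classical
  have hpF : Fact p.Prime := ⟨hp⟩
  have hp0 : NeZero p := ⟨hp.ne_zero⟩
  obtain ⟨C, iC, hC, iK, hCy⟩ := W1_ex p K
  let iF : Algebra F C := ((algebraMap K C).comp (algebraMap F K)).toAlgebra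
  have hT : IsScalarTower F K C := IsScalarTower.of_algebraMap_eq fun x => rfl
  have hQ : IsScalarTower ℚ F C := IsScalarTower.of_algebraMap_eq' (Subsingleton.elim _ _)
  have hQK : IsScalarTower ℚ F K := IsScalarTower.of_algebraMap_eq' (Subsingleton.elim _ _)
  have hfin : FiniteDimensional F C := Module.Finite.of_restrictScalars_finite ℚ F C
  have hfinK : FiniteDimensional F K := Module.Finite.of_restrictScalars_finite ℚ F K
  have hN : Normal F C := W1_normal p K C
  have hGC : IsGalois F C := { to_normal := hN }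
  have hGKC : IsGalois K C := IsCyclotomicExtension.isGalois {p} K C
  let ζ : C := IsCyclotomicExtension.zeta p K C
  have hζ : IsPrimitiveRoot ζ p := IsCyclotomicExtension.zeta_spec p K C
  have hgen : ∀ σ : C ≃ₐ[K] C, σ ζ = ζ → σ = 1 := by
    intro σ hσ
    have h1 : (σ : C →ₐ[K] C) = AlgHom.id K C := by
      apply AlgHom.ext_of_adjoin_eq_top (IsCyclotomicExtension.adjoin_primitive_root_eq_top hζ)
      intro x hx
      rw [Set.mem_singleton_iff] at hx
      rw [hx]
      exact hσ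
    ext x
    exact congrArg (fun f : C →ₐ[K] C => f x) h1
  have hdeg : Module.finrank K C ∣ p - 1 := by
    rw [← IsGalois.card_aut_eq_finrank K C, ← ZMod.card_units p, ← Nat.card_eq_fintype_card]
    refine Subgroup.card_dvd_of_injective (hζ.autToPow K) ?_
    exact IsPrimitiveRoot.autToPow_injective K hζ
  -- restriction
  let res : (C ≃ₐ[F] C) →* (K ≃ₐ[F] K) := AlgEquiv.restrictNormalHom K
  have hres : ∀ (s : C ≃ₐ[F] C) (x : K), s (algebraMap K C x) = algebraMap K C (res s x) := fun s x =>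
    (AlgEquiv.restrictNormal_commutes s K x).symm
  have hlift : ∀ s : C ≃ₐ[F] C, res s = 1 → ∃ δ : C ≃ₐ[K] C, ∀ x, δ x = s x := by
    intro s hs
    refine ⟨AlgEquiv.ofRingEquiv (f := (s : C ≃+* C)) fun x => ?_, fun x => rfl⟩
    show s (algebraMap K C x) = algebraMap K C x
    rw [hres, hs]
    rfl
  have hinj1 : ∀ s : C ≃ₐ[F] C, res s = 1 → s ζ = ζ → s = 1 := by
    intro s hs hsζ
    obtain ⟨δ, hδ⟩ := hlift s hs
    have h1 : δ = 1 := hgen δ (by rw [hδ, hsζ])
    ext x
    rw [← hδ, h1]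
    rfl
  let ρ : FixZ F ζ →* (K ≃ₐ[F] K) := res.comp (FixZ F ζ).subtype
  have hρ : Function.Injective ρ := by
    rw [injective_iff_map_eq_one]
    intro σ hσ
    exact Subtype.ext (hinj1 _ hσ σ.2)
  -- counting
  have hker : (hζ.autToPow F).ker = FixZ F ζ := by
    ext f
    rw [MonoidHom.mem_ker, mem_FixZ]
    have h1 := hζ.autToPow_spec F f
    constructor
    · intro h
      rw [h, Units.val_one, ZMod.val_one, pow_one] at h1
      exact h1.symm
    · intro h
      rw [h] at h1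
      have h2 : ((hζ.autToPow F f : (ZMod p)ˣ) : ZMod p).val = 1 := by
        refine hζ.pow_inj (ZMod.val_lt _) hp.one_lt ?_
        rw [h1, pow_one]
      apply Units.ext
      rw [Units.val_one]
      have h3 := ZMod.natCast_zmod_val ((hζ.autToPow F f : (ZMod p)ˣ) : ZMod p)
      rw [h2, Nat.cast_one] at h3
      exact h3.symm
  obtain ⟨k, hk'⟩ := hk
  have hcardK : Nat.card (K ≃ₐ[F] K) = p ^ k := by rw [IsGalois.card_aut_eq_finrank, hk']
  have hcardF : Nat.card (FixZ F ζ) = p ^ k := by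
    have h1 := Subgroup.card_mul_index (hζ.autToPow F).ker
    rw [Subgroup.index_ker, hker, IsGalois.card_aut_eq_finrank,
      ← Module.finrank_mul_finrank F K C, hk'] at h1
    have h2 : Nat.card (hζ.autToPow F).range ∣ p - 1 := by
      rw [← ZMod.card_units p, ← Nat.card_eq_fintype_card]
      exact Subgroup.card_subgroup_dvd_card _
    have h3 : (p ^ k).Coprime (Nat.card (hζ.autToPow F).range) := by
      apply Nat.Coprime.pow_left
      apply Nat.Coprime.coprime_dvd_right h2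
      have := (Nat.coprime_self_add_left (m := p - 1) (n := 1)).2 (Nat.coprime_one_left _)
      rwa [Nat.sub_add_cancel hp.one_le] at this
    have h4 : p ^ k ∣ Nat.card (FixZ F ζ) :=
      h3.dvd_of_dvd_mul_right (h1 ▸ Dvd.intro _ rfl)
    have h5 : Nat.card (FixZ F ζ) ≤ p ^ k := by
      rw [← hcardK]
      exact Nat.card_le_card_of_injective ρ hρ
    exact le_antisymm h5 (Nat.le_of_dvd Nat.card_pos h4)
  have hbij : Function.Bijective ρ := by
    have := Fintype.ofFinite (FixZ F ζ)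
    have := Fintype.ofFinite (K ≃ₐ[F] K)
    rw [Fintype.bijective_iff_injective_and_card]
    refine ⟨hρ, ?_⟩
    rw [← Nat.card_eq_fintype_card, ← Nat.card_eq_fintype_card, hcardF, hcardK]
  let e : FixZ F ζ ≃* (K ≃ₐ[F] K) := MulEquiv.ofBijective ρ hbij
  have he : ∀ (σ : FixZ F ζ) (x : K),
      (σ : C ≃ₐ[F] C) (algebraMap K C x) = algebraMap K C (e σ x) := fun σ x => hres _ _
  refine ⟨C, iC, hC, iF, iK, hT, ζ, hG, hGC, hζ, hgen, hdeg, ⟨k, hk'⟩,
    ⟨e, he⟩, ?_, ?_⟩
  · intro σ δ x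
    let δ' : C ≃ₐ[F] C := δ.restrictScalars F
    have h1 : (σ : C ≃ₐ[F] C) * δ' * (σ : C ≃ₐ[F] C)⁻¹ * δ'⁻¹ = 1 := by
      apply hinj1
      · have h2 : res δ' = 1 := by
          ext y
          apply (algebraMap K C).injective
          rw [← hres]
          exact δ.commutes y
        rw [map_mul, map_mul, map_mul, map_inv, map_inv, h2, inv_one, mul_one, mul_one,
          mul_inv_cancel]
      · have h3 := hζ.autToPow_spec K δ
        have hσ : (σ : C ≃ₐ[F] C) ζ = ζ := σ.2
        have hσ' : (σ : C ≃ₐ[F] C)⁻¹ ζ = ζ := (FixZ F ζ).inv_mem σ.2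
        -- δ'⁻¹ ζ = ζ ^ m
        have h5 := hζ.autToPow_spec K δ⁻¹
        set m := ((hζ.autToPow K δ⁻¹ : (ZMod p)ˣ) : ZMod p).val with hm
        have h6 : δ'⁻¹ ζ = ζ ^ m := h5.symm
        show (σ : C ≃ₐ[F] C) (δ' ((σ : C ≃ₐ[F] C)⁻¹ (δ'⁻¹ ζ))) = ζ
        rw [h6, map_pow, hσ', ← h6]
        show (σ : C ≃ₐ[F] C) (δ' (δ'⁻¹ ζ)) = ζ
        rw [show δ' (δ'⁻¹ ζ) = ζ from AlgEquiv.apply_symm_apply δ' ζ, hσ]
    have h2 : (σ : C ≃ₐ[F] C) * δ' = δ' * (σ : C ≃ₐ[F] C) := by
      rw [mul_inv_eq_one, mul_inv_eq_iff_eq_mul] at h1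
      exact h1
    exact congrArg (fun f : C ≃ₐ[F] C => f x) h2
  · intro s
    obtain ⟨σ, hσ⟩ := hbij.2 (res s)
    obtain ⟨δ, hδ⟩ := hlift ((σ : C ≃ₐ[F] C)⁻¹ * s) (by
      rw [map_mul, map_inv]
      have : res (σ : C ≃ₐ[F] C) = res s := hσ
      rw [this, inv_mul_cancel])
    refine ⟨σ, δ, fun x => ?_⟩
    rw [hδ]
    show s x = (σ : C ≃ₐ[F] C) ((σ : C ≃ₐ[F] C)⁻¹ (s x))
    exact (AlgEquiv.apply_symm_apply (σ : C ≃ₐ[F] C) (s x)).symm

/-- The group FixZ F ζ has p-power order. -/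
theorem Cyc.card {p : ℕ} {K C : Type} [Field K] [NumberField K] [Field C] [NumberField C]
    [Algebra F K] [Algebra F C] [Algebra K C] [IsScalarTower F K C] {ζ : C} (h : Cyc p K C ζ) :
    Nat.card (FixZ F ζ) = Module.finrank F K := by
  have := h.galK
  obtain ⟨e, -⟩ := h.iso
  rw [Nat.card_congr e.toEquiv, IsGalois.card_aut_eq_finrank]

end H28R
end

-- from Lib.H55K.NA5
section

/-! # H55K, part N: cocycles are trivial on the inertia group at a bad prime -/

open NumberField IsDedekindDomain WeierstrassCurve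

namespace H55K.NB

open H55P

variable {F : Type} [Field F] [NumberField F] {Ω : Type} [Field Ω] [DecidableEq Ω] [Algebra F Ω]
  [IsAlgClosed Ω] [Algebra.IsAlgebraic F Ω] [CharZero Ω]

/-- If no p-torsion point is fixed by the inertia group of N at V (V(p) = 1) and the action on the p-torsion is
commutative, then every continuous cocycle of N killed by p is a coboundary on inertia. -/
theorem inert_cob (W : WeierstrassCurve F) [W.IsElliptic] (p : ℕ) (hp : p.Prime) (N : IntermediateField F Ω)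
    (V : ValuationSubring Ω) (hV : V.valuation (p : Ω) = 1)
    (hcomm : ∀ s ∈ N.fixingSubgroup, ∀ t ∈ N.fixingSubgroup, ∀ T : Pt W Ω, p • T = 0 →
      ac W s (ac W t T) = ac W t (ac W s T))
    (h0 : ∀ T : Pt W Ω, p • T = 0 → (∀ s ∈ N.fixingSubgroup, Inert V s → ac W s T = T) → T = 0)
    (c : (Ω ≃ₐ[F] Ω) → Pt W Ω) (hc : Coc W N c) (hpc : ∀ s ∈ N.fixingSubgroup, p • c s = 0) :
    ∃ P : Pt W Ω, ∀ s ∈ N.fixingSubgroup, Inert V s → c s = ac W s P - P := by
  have hI : ∀ s : Ω ≃ₐ[F] Ω, s ∈ N.fixingSubgroup ⊓ inS F V ↔ s ∈ N.fixingSubgroup ∧ Inert V s := fun s => Iff.rfl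
  have hMul : ∀ (a b : Ω ≃ₐ[F] Ω) (x : Pt W Ω), ac W (a * b) x = ac W a (ac W b x) := by
    intro a b x
    rw [← acR_apply, map_mul]
    rfl
  have hone : ∀ x : Pt W Ω, ac W 1 x = x := fun x => by rw [← acR_apply, map_one]; rfl
  have hk : ∀ s ∈ N.fixingSubgroup ⊓ inS F V, ∀ t ∈ N.fixingSubgroup ⊓ inS F V, c (s * t * s⁻¹ * t⁻¹) = 0 := by
    intro s hs t ht
    obtain ⟨L, hLf, hL⟩ := hc.cont
    set u : Ω ≃ₐ[F] Ω := s * t * s⁻¹ * t⁻¹ with hu
    have huN : u ∈ N.fixingSubgroup := by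
      exact mul_mem (mul_mem (mul_mem hs.1 ht.1) (inv_mem hs.1)) (inv_mem ht.1)
    have hw : Wild V u := wild_comm V s t hs.2 ht.2
    obtain ⟨a, hpa, hfix⟩ := wild_coprime V hw hp hV L
    -- u acts trivially on the p-torsion
    have htriv : ∀ T : Pt W Ω, p • T = 0 → ac W u T = T := by
      intro T hT
      have q : ∀ g : Ω ≃ₐ[F] Ω, p • ac W g T = 0 := fun g => by rw [← map_nsmul, hT, map_zero]
      rw [hu, hMul, hMul, hMul, hcomm s hs.1 t ht.1 _ (by rw [← map_nsmul, q, map_zero]), ← hMul s s⁻¹,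
        mul_inv_cancel, hone, ← hMul, mul_inv_cancel, hone]
    have hpow : ∀ k : ℕ, c (u ^ k) = k • c u := by
      intro k
      induction k with
      | zero =>
        rw [pow_zero, zero_smul]
        have h1 := hc.mul 1 (one_mem _) 1 (one_mem _)
        rw [mul_one, hone] at h1
        exact left_eq_add.1 h1
      | succ k ih =>
        rw [pow_succ', hc.mul u huN _ (pow_mem huN k), htriv _ (hpc _ (pow_mem huN k)), ih, succ_nsmul']
    have h1 : a • c u = 0 := by
      rw [← hpow]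
      exact hL _ (pow_mem huN a) hfix
    have h2 : p • c u = 0 := hpc u huN
    have hcop : IsCoprime (a : ℤ) (p : ℤ) := by
      rw [Nat.isCoprime_iff_coprime, Nat.coprime_comm]
      exact (Nat.Prime.coprime_iff_not_dvd hp).2 hpa
    obtain ⟨x, y, hxy⟩ := hcop
    have h3 : (1 : ℤ) • c u = 0 := by
      rw [← hxy, add_smul, mul_smul, mul_smul, natCast_zsmul, natCast_zsmul, h1, h2, smul_zero, smul_zero, add_zero]
    rwa [one_smul] at h3
  obtain ⟨P, -, hP⟩ := sah (acR W) p (tors_fin (Ω := Ω) W p hp.pos) (N.fixingSubgroup ⊓ inS F V)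
    (fun s hs t ht T hT => hcomm s hs.1 t ht.1 T hT)
    (fun T hT h => h0 T hT fun s hs hi => h s ⟨hs, hi⟩) c
    (fun s hs t ht => hc.mul s hs.1 t ht.1) (fun s hs => hpc s hs.1) hk
  exact ⟨P, fun s hs hi => hP s ⟨hs, hi⟩⟩

end H55K.NB
end

-- from Lib.H55P.S8
section

open NumberField IsDedekindDomain WeierstrassCurve

namespace H55P

/-! Chunk PS8 (M). Reduction (with the lemmas of Lib/H35P, valid for general Weierstrass equations).
red_fix: P = 0 trivial. If x(P) is not in V then s x(P) is not in V (inert_dec), so P and s P are in Ker, s P - P in Ker (ker_sub). If x is in V then y is in V (H35P.int_y or the equation) and s P, P are congruent (Inert), so s P - P in Ker (rd). It is killed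
by p, so zero (fg).
exists_red: f T = 0 for T = 0 and f (x, y) = (r x, r y) with x, y in V (torsion_int); the reduced point satisfies the equation of W', which has discriminant r Δ <> 0, so is nonsingular (equation_iff_nonsingular). f (-T) = - f T. Additivity for T1, T2, T1 + T2 nonzero: slope_int
(SL.lean): the slope l of T1, T2 is in V. If r x1 <> r x2: the slope of the reduced points is r l (slope_of_X_ne), and addX, addY are polynomials. If r x1 = r x2: then r y1 = r y2 or r y1 = negY (both are roots of the quadratic equation in y at r x1; reduced curve). In the second case T1 and -T2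
are congruent, so T1 = -T2 (inj), contradiction. In the first case T1 = T2 (inj), x1 = x2; slope = (3x^2+...)/(y - negY), y - negY is a unit of V (otherwise T1 and -T1 are congruent, T1 = -T1), so the reduced slope is r l. For T1 + T2 = 0: f T2 = - f T1. -/

theorem red_fix {F : Type} [Field F] {Ω : Type} [Field Ω] [DecidableEq Ω] [Algebra F Ω]
    (W : WeierstrassCurve F) (V : ValuationSubring Ω) (hG : H35P.GoodW (W⁄Ω) V) (p : ℕ)
    (hp : V.valuation (p : Ω) = 1) (s : Ω ≃ₐ[F] Ω) (hs : Inert V s) (P : Pt W Ω)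
    (h : p • (ac W s P - P) = 0) : ac W s P = P := by
  have hdec := inert_dec V s hs
  have key : H35P.Ker V (ac W s P - P) := by
    rcases P with _ | ⟨x, y, hP⟩
    · have e : ac W s Affine.Point.zero - Affine.Point.zero = (0 : Pt W Ω) := by
        show ac W s 0 - 0 = 0
        rw [map_zero, sub_zero]
      rw [e]
      trivial
    · by_cases hx : x ∈ V
      · have hy : y ∈ V := (V.valuation_le_one_iff y).1
          (H35P.int_y hG.toIntW hP.1 ((V.valuation_le_one_iff x).2 hx))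
        exact H35P.rd hG _ _ ⟨s x, s y, _, x, y, hP, rfl, rfl, (hdec x).2 hx, (hdec y).2 hy, hx, hy,
          hs x hx, hs y hy⟩
      · refine H35P.ker_sub hG.toIntW _ _ ?_ ?_
        · show 1 < V.valuation (s x)
          rw [← not_le, V.valuation_le_one_iff]
          exact fun hc => hx ((hdec x).1 hc)
        · show 1 < V.valuation x
          rw [← not_le, V.valuation_le_one_iff]
          exact hx
  exact sub_eq_zero.1 (H35P.fg hG.toIntW _ p hp h key)

section S8

variable {k : Type} [Field k] {W : WeierstrassCurve k} {V : ValuationSubring k}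

/-- The equation over the valuation ring. -/
def s8_WV (hI : H35P.IntW W V) : WeierstrassCurve V :=
  ⟨⟨W.a₁, hI.a1⟩, ⟨W.a₂, hI.a2⟩, ⟨W.a₃, hI.a3⟩, ⟨W.a₄, hI.a4⟩, ⟨W.a₆, hI.a6⟩⟩

theorem s8_map (hI : H35P.IntW W V) : (s8_WV hI).map V.subtype = W := rfl

theorem s8_negY (hI : H35P.IntW W V) (X Y : V) :
    W.toAffine.negY (X : k) (Y : k) = (((s8_WV hI).toAffine.negY X Y : V) : k) :=
  Affine.map_negY (W' := (s8_WV hI).toAffine) V.subtype X Y

theorem s8_addX (hI : H35P.IntW W V) (X Y l : V) :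
    W.toAffine.addX (X : k) (Y : k) (l : k) = (((s8_WV hI).toAffine.addX X Y l : V) : k) :=
  Affine.map_addX (W' := (s8_WV hI).toAffine) V.subtype X Y l

theorem s8_addY (hI : H35P.IntW W V) (X Y Z l : V) :
    W.toAffine.addY (X : k) (Y : k) (Z : k) (l : k) = (((s8_WV hI).toAffine.addY X Y Z l : V) : k) :=
  Affine.map_addY (W' := (s8_WV hI).toAffine) V.subtype X Z Y l

variable {κ : Type} [Field κ] (r : V →+* κ) (hr : ∀ x : V, r x = 0 ↔ V.valuation (x : k) < 1)

include hr in
theorem s8_ns (hG : H35P.GoodW W V) (X Y : V) (h : W.toAffine.Nonsingular (X : k) (Y : k)) :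
    ((s8_WV hG.toIntW).map r).toAffine.Nonsingular (r X) (r Y) := by
  have h1 : (s8_WV hG.toIntW).toAffine.Equation X Y :=
    (Affine.map_equation (s8_WV hG.toIntW).toAffine (f := V.subtype) Subtype.coe_injective X Y).1 h.1
  have h2 : ((s8_WV hG.toIntW).map r).toAffine.Equation (r X) (r Y) := h1.map r
  have h3 : ((s8_WV hG.toIntW).map r).Δ ≠ 0 := by
    rw [WeierstrassCurve.map_Δ]
    intro h0
    rw [hr] at h0
    have h4 : (((s8_WV hG.toIntW).Δ : V) : k) = W.Δ :=
      (WeierstrassCurve.map_Δ (s8_WV hG.toIntW) V.subtype).symm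
    rw [h4, hG.disc] at h0
    exact lt_irrefl _ h0
  exact (Affine.equation_iff_nonsingular_of_Δ_ne_zero h3).1 h2

open Classical in
/-- The reduction map. -/
noncomputable def s8_f (hG : H35P.GoodW W V) :
    W.toAffine.Point → ((s8_WV hG.toIntW).map r).toAffine.Point
  | .zero => .zero
  | .some x y h => if hx : x ∈ V ∧ y ∈ V then
      .some (r ⟨x, hx.1⟩) (r ⟨y, hx.2⟩) (s8_ns r hr hG ⟨x, hx.1⟩ ⟨y, hx.2⟩ h) else .zero

theorem s8_f_zero (hG : H35P.GoodW W V) : s8_f r hr hG 0 = 0 := rfl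

theorem s8_f_some (hG : H35P.GoodW W V) (X Y : V) (h : W.toAffine.Nonsingular (X : k) (Y : k)) :
    s8_f r hr hG (.some (X : k) (Y : k) h) = .some (r X) (r Y) (s8_ns r hr hG X Y h) :=
  dif_pos ⟨X.2, Y.2⟩

theorem s8_some_congr {W' : WeierstrassCurve κ} {a b c d : κ} {h : W'.toAffine.Nonsingular a b}
    {h' : W'.toAffine.Nonsingular c d} (e1 : a = c) (e2 : b = d) :
    (Affine.Point.some a b h : W'.toAffine.Point) = .some c d h' := by
  subst e1
  subst e2
  rfl

include hr in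
theorem s8_eq_iff (X Y : V) : r X = r Y ↔ V.valuation ((X : k) - (Y : k)) < 1 := by
  rw [← sub_eq_zero, ← map_sub, hr]
  rfl

variable [DecidableEq k]

include hr in
/-- Torsion points with equal reduction are equal. -/
theorem s8_inj (hG : H35P.GoodW W V) (n : ℕ) (hn : V.valuation (n : k) = 1) (X₁ Y₁ X₂ Y₂ : V)
    (h₁ : W.toAffine.Nonsingular (X₁ : k) (Y₁ : k)) (h₂ : W.toAffine.Nonsingular (X₂ : k) (Y₂ : k))
    (hP : n • (Affine.Point.some _ _ h₁ : W.toAffine.Point) = 0)
    (hQ : n • (Affine.Point.some _ _ h₂ : W.toAffine.Point) = 0)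
    (hX : r X₁ = r X₂) (hY : r Y₁ = r Y₂) : X₁ = X₂ ∧ Y₁ = Y₂ := by
  have h := H35P.inj hG _ _ n hn hP hQ ⟨X₁, Y₁, h₁, X₂, Y₂, h₂, rfl, rfl, X₁.2, Y₁.2, X₂.2, Y₂.2,
    (s8_eq_iff r hr X₁ X₂).1 hX, (s8_eq_iff r hr Y₁ Y₂).1 hY⟩
  simp only [Affine.Point.some.injEq] at h
  exact ⟨Subtype.ext h.1, Subtype.ext h.2⟩

include hr in
/-- Torsion points with opposite reduction are opposite. -/
theorem s8_inj' (hG : H35P.GoodW W V) (n : ℕ) (hn : V.valuation (n : k) = 1) (X₁ Y₁ X₂ Y₂ : V)
    (h₁ : W.toAffine.Nonsingular (X₁ : k) (Y₁ : k)) (h₂ : W.toAffine.Nonsingular (X₂ : k) (Y₂ : k))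
    (hP : n • (Affine.Point.some _ _ h₁ : W.toAffine.Point) = 0)
    (hQ : n • (Affine.Point.some _ _ h₂ : W.toAffine.Point) = 0)
    (hX : r X₁ = r X₂) (hY : r Y₁ = ((s8_WV hG.toIntW).map r).toAffine.negY (r X₂) (r Y₂)) :
    (X₁ : k) = X₂ ∧ (Y₁ : k) = W.toAffine.negY (X₂ : k) (Y₂ : k) := by
  have h3 : W.toAffine.Nonsingular (X₂ : k) (((s8_WV hG.toIntW).toAffine.negY X₂ Y₂ : V) : k) := by
    rw [← s8_negY]
    exact (Affine.nonsingular_neg ..).2 h₂
  have hQ' : n • (Affine.Point.some _ _ h3 : W.toAffine.Point) = 0 := by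
    have e : (Affine.Point.some _ _ h3 : W.toAffine.Point) = -Affine.Point.some _ _ h₂ := by
      rw [Affine.Point.neg_some]
      exact s8_some_congr rfl (s8_negY hG.toIntW X₂ Y₂).symm
    rw [e, smul_neg, hQ, neg_zero]
  have hY' : r Y₁ = r ((s8_WV hG.toIntW).toAffine.negY X₂ Y₂) := by
    rw [hY]
    exact Affine.map_negY (W' := (s8_WV hG.toIntW).toAffine) r X₂ Y₂
  obtain ⟨e1, e2⟩ := s8_inj r hr hG n hn X₁ Y₁ X₂ _ h₁ h3 hP hQ' hX hY'
  rw [s8_negY hG.toIntW]
  exact ⟨congrArg _ e1, congrArg _ e2⟩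

variable [DecidableEq κ]

include hr in
/-- The slope is compatible with the reduction. -/
theorem s8_slope (hG : H35P.GoodW W V) (n : ℕ) (hn : V.valuation (n : k) = 1) (X₁ Y₁ X₂ Y₂ : V)
    (h₁ : W.toAffine.Nonsingular (X₁ : k) (Y₁ : k)) (h₂ : W.toAffine.Nonsingular (X₂ : k) (Y₂ : k))
    (hP : n • (Affine.Point.some _ _ h₁ : W.toAffine.Point) = 0)
    (hQ : n • (Affine.Point.some _ _ h₂ : W.toAffine.Point) = 0)
    (hc : ¬((X₁ : k) = X₂ ∧ (Y₁ : k) = W.toAffine.negY (X₂ : k) (Y₂ : k))) :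
    ∃ l : V, W.toAffine.slope (X₁ : k) X₂ Y₁ Y₂ = l ∧
      ((s8_WV hG.toIntW).map r).toAffine.slope (r X₁) (r X₂) (r Y₁) (r Y₂) = r l := by
  have hl := H35P.slope_int hG h₁ h₂ n hn hP hQ hc
  rw [V.valuation_le_one_iff] at hl
  refine ⟨⟨_, hl⟩, rfl, ?_⟩
  have hc' : ¬(r X₁ = r X₂ ∧ r Y₁ = ((s8_WV hG.toIntW).map r).toAffine.negY (r X₂) (r Y₂)) :=
    fun h => hc (s8_inj' r hr hG n hn X₁ Y₁ X₂ Y₂ h₁ h₂ hP hQ h.1 h.2)
  by_cases hx : r X₁ = r X₂
  · have hy := fun h => hc' ⟨hx, h⟩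
    have hyy : r Y₁ = r Y₂ :=
      Affine.Y_eq_of_Y_ne (s8_ns r hr hG X₁ Y₁ h₁).1 (s8_ns r hr hG X₂ Y₂ h₂).1 hx hy
    obtain ⟨rfl, rfl⟩ := s8_inj r hr hG n hn X₁ Y₁ X₂ Y₂ h₁ h₂ hP hQ hx hyy
    have hyk : (Y₁ : k) ≠ W.toAffine.negY (X₁ : k) (Y₁ : k) := fun h => hc ⟨rfl, h⟩
    rw [Affine.slope_of_Y_ne rfl hy, div_eq_iff (sub_ne_zero.2 hy)]
    have e1 : (⟨W.toAffine.slope (X₁ : k) X₁ Y₁ Y₁, hl⟩ : V) *
        (Y₁ - (s8_WV hG.toIntW).toAffine.negY X₁ Y₁) =
        3 * X₁ ^ 2 + 2 * (s8_WV hG.toIntW).a₂ * X₁ + (s8_WV hG.toIntW).a₄ -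
          (s8_WV hG.toIntW).a₁ * Y₁ := by
      apply Subtype.ext
      have e2 := s8_negY hG.toIntW X₁ Y₁
      show W.toAffine.slope (X₁ : k) X₁ Y₁ Y₁ * ((Y₁ : k) -
        (((s8_WV hG.toIntW).toAffine.negY X₁ Y₁ : V) : k)) =
        3 * (X₁ : k) ^ 2 + 2 * W.a₂ * X₁ + W.a₄ - W.a₁ * Y₁
      rw [← e2, Affine.slope_of_Y_ne rfl hyk, div_mul_cancel₀ _ (sub_ne_zero.2 hyk)]
    have e3 := congrArg r e1
    rw [map_mul, map_sub, ← Affine.map_negY] at e3
    rw [e3, map_sub, map_add, map_add, map_mul, map_mul, map_mul, map_mul, map_pow, map_ofNat,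
      map_ofNat]
    rfl
  · have hxk : (X₁ : k) ≠ X₂ := fun h => hx (congrArg r (Subtype.ext h))
    rw [Affine.slope_of_X_ne hx, div_eq_iff (sub_ne_zero.2 hx)]
    have e1 : (⟨W.toAffine.slope (X₁ : k) X₂ Y₁ Y₂, hl⟩ : V) * (X₁ - X₂) = Y₁ - Y₂ := by
      apply Subtype.ext
      show W.toAffine.slope (X₁ : k) X₂ Y₁ Y₂ * ((X₁ : k) - X₂) = (Y₁ : k) - Y₂
      rw [Affine.slope_of_X_ne hxk, div_mul_cancel₀ _ (sub_ne_zero.2 hxk)]
    have e3 := congrArg r e1
    rw [map_mul, map_sub, map_sub] at e3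
    exact e3.symm

/-- Additivity. -/
theorem s8_add (hG : H35P.GoodW W V) (n : ℕ) (hn : V.valuation (n : k) = 1) (P Q : W.toAffine.Point)
    (hP : n • P = 0) (hQ : n • Q = 0) :
    s8_f r hr hG (P + Q) = s8_f r hr hG P + s8_f r hr hG Q := by
  rcases P with _ | ⟨x₁, y₁, h₁⟩
  · show s8_f r hr hG (0 + Q) = 0 + s8_f r hr hG Q
    rw [zero_add, zero_add]
  rcases Q with _ | ⟨x₂, y₂, h₂⟩
  · show s8_f r hr hG (_ + 0) = s8_f r hr hG _ + 0
    rw [add_zero, add_zero]
  obtain ⟨hx1, hy1⟩ := H35P.SL_mem hG h₁ n hn hP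
  obtain ⟨hx2, hy2⟩ := H35P.SL_mem hG h₂ n hn hQ
  lift x₁ to V using hx1
  lift y₁ to V using hy1
  lift x₂ to V using hx2
  lift y₂ to V using hy2
  rw [s8_f_some, s8_f_some]
  by_cases hc : (x₁ : k) = x₂ ∧ (y₁ : k) = W.toAffine.negY (x₂ : k) (y₂ : k)
  · rw [Affine.Point.add_of_Y_eq hc.1 hc.2, s8_f_zero, Affine.Point.add_of_Y_eq]
    · exact congrArg r (Subtype.ext hc.1)
    · have e := hc.2
      rw [s8_negY hG.toIntW] at e
      rw [Subtype.ext e]
      exact (Affine.map_negY (W' := (s8_WV hG.toIntW).toAffine) r x₂ y₂).symm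
  · have hc' : ¬(r x₁ = r x₂ ∧ r y₁ = ((s8_WV hG.toIntW).map r).toAffine.negY (r x₂) (r y₂)) :=
      fun h => hc (s8_inj' r hr hG n hn x₁ y₁ x₂ y₂ h₁ h₂ hP hQ h.1 h.2)
    obtain ⟨l, hl, hl'⟩ := s8_slope r hr hG n hn x₁ y₁ x₂ y₂ h₁ h₂ hP hQ hc
    rw [Affine.Point.add_some hc, Affine.Point.add_some hc']
    have hns : W.toAffine.Nonsingular (((s8_WV hG.toIntW).toAffine.addX x₁ x₂ l : V) : k)
        (((s8_WV hG.toIntW).toAffine.addY x₁ x₂ y₁ l : V) : k) := by
      rw [← s8_addX, ← s8_addY, ← hl]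
      exact Affine.nonsingular_add h₁ h₂ hc
    have e : (Affine.Point.some _ _ (Affine.nonsingular_add h₁ h₂ hc) : W.toAffine.Point) =
        Affine.Point.some _ _ hns := by
      refine s8_some_congr ?_ ?_
      · rw [hl, s8_addX hG.toIntW]
      · rw [hl, s8_addY hG.toIntW]
    rw [e, s8_f_some]
    refine s8_some_congr ?_ ?_
    · rw [hl']
      exact (Affine.map_addX (W' := (s8_WV hG.toIntW).toAffine) r x₁ x₂ l).symm
    · rw [hl']
      exact (Affine.map_addY (W' := (s8_WV hG.toIntW).toAffine) r x₁ y₁ x₂ l).symm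

end S8

theorem exists_red {k : Type} [Field k] [DecidableEq k] {W : WeierstrassCurve k} {V : ValuationSubring k}
    (hG : H35P.GoodW W V) {κ : Type} [Field κ] [DecidableEq κ] (r : V →+* κ)
    (hr : ∀ x : V, r x = 0 ↔ V.valuation (x : k) < 1) (W' : WeierstrassCurve κ)
    (h1 : r ⟨W.a₁, hG.a1⟩ = W'.a₁) (h2 : r ⟨W.a₂, hG.a2⟩ = W'.a₂) (h3 : r ⟨W.a₃, hG.a3⟩ = W'.a₃)
    (h4 : r ⟨W.a₄, hG.a4⟩ = W'.a₄) (h6 : r ⟨W.a₆, hG.a6⟩ = W'.a₆) (n : ℕ)
    (hn : V.valuation (n : k) = 1) :
    ∃ f : (nsmulAddMonoidHom n : W.toAffine.Point →+ W.toAffine.Point).ker →+ W'.toAffine.Point,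
      (∀ T, f T = 0 → T = 0) ∧
      ∀ (x y : k) (h : W.toAffine.Nonsingular x y)
        (hT : (Affine.Point.some x y h : W.toAffine.Point) ∈
          (nsmulAddMonoidHom n : W.toAffine.Point →+ W.toAffine.Point).ker) (hx : x ∈ V) (hy : y ∈ V),
        ∃ h' : W'.toAffine.Nonsingular (r ⟨x, hx⟩) (r ⟨y, hy⟩),
          f ⟨Affine.Point.some x y h, hT⟩ = Affine.Point.some _ _ h' := by
  have hW' : W' = (s8_WV hG.toIntW).map r :=
    WeierstrassCurve.ext h1.symm h2.symm h3.symm h4.symm h6.symm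
  subst hW'
  refine ⟨{ toFun := fun T => s8_f r hr hG T.1
            map_zero' := rfl
            map_add' := fun P Q => s8_add r hr hG n hn P.1 Q.1 P.2 Q.2 }, ?_, ?_⟩
  · rintro ⟨T, hT⟩ h0
    apply Subtype.ext
    rcases T with _ | ⟨x, y, h⟩
    · rfl
    · exfalso
      obtain ⟨hx, hy⟩ := H35P.SL_mem hG h n hn hT
      have h5 : s8_f r hr hG (.some x y h) = 0 := h0
      have h7 : s8_f r hr hG (.some x y h) = .some (r ⟨x, hx⟩) (r ⟨y, hy⟩)
          (s8_ns r hr hG ⟨x, hx⟩ ⟨y, hy⟩ h) := s8_f_some r hr hG ⟨x, hx⟩ ⟨y, hy⟩ h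
      rw [h7] at h5
      exact Affine.Point.some_ne_zero _ h5
  · intro x y h hT hx hy
    exact ⟨s8_ns r hr hG ⟨x, hx⟩ ⟨y, hy⟩ h, s8_f_some r hr hG ⟨x, hx⟩ ⟨y, hy⟩ h⟩

end H55P
end

-- from Lib.H55P.S10
section

open NumberField IsDedekindDomain WeierstrassCurve

namespace H55P

variable {F : Type} [Field F] [NumberField F] {Ω : Type} [Field Ω] [DecidableEq Ω] [Algebra F Ω]
  [IsAlgClosed Ω] [Algebra.IsAlgebraic F Ω] [CharZero Ω]

/-! Chunk PS10 (M). Good reduction and no point of order p on the reduced curve: no p-torsion point fixed by the decomposition group.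
good_below: the coefficients of W₀ are algebraic integers, so in V; Δ: Below. val_below: V.valuation (n) <= 1 for natural numbers and the case < 1 means n in v. 
fix_local: suppose T <> 0; T = (x, y) with x, y in V (torsion_int). x and y are fixed by the s in Dec V fixing M (ac W s T = T), so there are a, b in 𝓞 M congruent to x, y (res_descent). κ = the residue field of V, r the residue map (or any), ι : 𝓞 M / v → κ the induced injective homomorphism,
W' = (W₀⁄(𝓞 M ⧸ v)) mapped by ι. exists_red gives f with f T = (r x, r y) = (ι a, ι b) <> 0, p f T = 0. (a, b) is a point T' of the curve over the field 𝓞 M / v (injectivity of ι: Affine.map_equation, map_nonsingular), f T = the image of T' under the injective homomorphism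
Affine.Point.map (or the ring homomorphism version), so p T' = 0, T' <> 0: an element of order p in the finite group of points (finite field, v <> 0), so p divides its order (addOrderOf_dvd_natCard). -/

omit [DecidableEq Ω] [NumberField F] [IsAlgClosed Ω] [Algebra.IsAlgebraic F Ω] [CharZero Ω] in
theorem S10_mem (M : IntermediateField F Ω) (V : ValuationSubring Ω) (z : 𝓞 M) :
    ((z : M) : Ω) ∈ V := by
  rw [← V.valuation_le_one_iff]
  exact H16C.FR_le_one V (H16C.FR_isIntegral M z)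

omit [DecidableEq Ω] [NumberField F] [IsAlgClosed Ω] [Algebra.IsAlgebraic F Ω] [CharZero Ω] in
theorem S10_coe (M : IntermediateField F Ω) (z : 𝓞 F) :
    algebraMap F Ω (algebraMap (𝓞 F) F z) = ((algebraMap (𝓞 F) (𝓞 M) z : M) : Ω) := rfl

omit [DecidableEq Ω] [NumberField F] [IsAlgClosed Ω] [Algebra.IsAlgebraic F Ω] [CharZero Ω] in
theorem S10_val (M : IntermediateField F Ω) (V : ValuationSubring Ω) (v : HeightOneSpectrum (𝓞 M))
    (hv : Below V M v.asIdeal) (z : 𝓞 M) (hz : z ∉ v.asIdeal) : V.valuation ((z : M) : Ω) = 1 := by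
  refine le_antisymm ((V.valuation_le_one_iff _).2 (S10_mem M V z)) ?_
  rw [← not_lt]
  exact fun h => hz ((hv z).2 h)

theorem good_below (W₀ : WeierstrassCurve (𝓞 F)) (M : IntermediateField F Ω) (V : ValuationSubring Ω)
    (v : HeightOneSpectrum (𝓞 M)) (hv : Below V M v.asIdeal)
    (hΔ : algebraMap (𝓞 F) (𝓞 M) W₀.Δ ∉ v.asIdeal) : H35P.GoodW ((W₀⁄F)⁄Ω) V where
  a1 := S10_mem M V (algebraMap (𝓞 F) (𝓞 M) W₀.a₁)
  a2 := S10_mem M V (algebraMap (𝓞 F) (𝓞 M) W₀.a₂)
  a3 := S10_mem M V (algebraMap (𝓞 F) (𝓞 M) W₀.a₃)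
  a4 := S10_mem M V (algebraMap (𝓞 F) (𝓞 M) W₀.a₄)
  a6 := S10_mem M V (algebraMap (𝓞 F) (𝓞 M) W₀.a₆)
  disc := by
    have h1 : ((W₀⁄F)⁄Ω).Δ = ((algebraMap (𝓞 F) (𝓞 M) W₀.Δ : M) : Ω) := by
      exact (WeierstrassCurve.map_Δ (W₀⁄F) (algebraMap F Ω)).trans
        ((congrArg (algebraMap F Ω) (WeierstrassCurve.map_Δ W₀ (algebraMap (𝓞 F) F))).trans
          (S10_coe M W₀.Δ))
    rw [h1]
    exact S10_val M V v hv _ hΔ

theorem val_below (M : IntermediateField F Ω) (V : ValuationSubring Ω) (v : HeightOneSpectrum (𝓞 M))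
    (hv : Below V M v.asIdeal) (n : ℕ) (hn : (n : 𝓞 M) ∉ v.asIdeal) : V.valuation (n : Ω) = 1 := by
  have h := S10_val M V v hv _ hn
  have e1 : ((((n : ℕ) : 𝓞 M) : M) : Ω) = (n : Ω) := by simp
  rwa [e1] at h

theorem fix_local (W₀ : WeierstrassCurve (𝓞 F)) (p : ℕ) (hp : p.Prime) (M : IntermediateField F Ω)
    [FiniteDimensional F M] (V : ValuationSubring Ω) (v : HeightOneSpectrum (𝓞 M))
    (hv : Below V M v.asIdeal) (hΔ : algebraMap (𝓞 F) (𝓞 M) W₀.Δ ∉ v.asIdeal)
    (hpv : (p : 𝓞 M) ∉ v.asIdeal) (hc : ¬ p ∣ Nat.card (W₀⁄(𝓞 M ⧸ v.asIdeal)).toAffine.Point)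
    (T : Pt (W₀⁄F) Ω) (hT : p • T = 0)
    (hf : ∀ s ∈ M.fixingSubgroup, Dec V s → ac (W₀⁄F) s T = T) : T = 0 := by
  classical
  by_contra hT0
  have hG := good_below W₀ M V v hv hΔ
  have hpV := val_below M V v hv p hpv
  have hnf : NumberField M := H16C.FR_numberField M
  have hmax : v.asIdeal.IsMaximal := v.isMaximal
  let _ : Field (𝓞 M ⧸ v.asIdeal) := Ideal.Quotient.field v.asIdeal
  obtain ⟨r, hr⟩ : ∃ r : V →+* IsLocalRing.ResidueField V, r = IsLocalRing.residue V := ⟨_, rfl⟩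
  have hr0 : ∀ x : V, r x = 0 ↔ V.valuation (x : Ω) < 1 := by
    intro x
    rw [hr, IsLocalRing.residue_eq_zero_iff]
    exact V.valuation_lt_one_iff x
  obtain ⟨φ, hφ⟩ : ∃ φ : 𝓞 M →+* V, ∀ z, ((φ z : V) : Ω) = ((z : M) : Ω) :=
    ⟨((algebraMap M Ω).comp (algebraMap (𝓞 M) M)).codRestrict V.toSubring (S10_mem M V),
      fun z => rfl⟩
  have hker : ∀ z ∈ v.asIdeal, (r.comp φ) z = 0 := by
    intro z hz
    rw [RingHom.comp_apply, hr0, hφ]
    exact (hv z).1 hz
  obtain ⟨ι, hι⟩ : ∃ ι : (𝓞 M ⧸ v.asIdeal) →+* IsLocalRing.ResidueField V,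
      ∀ z, ι (Ideal.Quotient.mk v.asIdeal z) = r (φ z) :=
    ⟨Ideal.Quotient.lift v.asIdeal (r.comp φ) hker, fun z => Ideal.Quotient.lift_mk _ _ _⟩
  let algκ : Algebra (𝓞 F) (IsLocalRing.ResidueField V) :=
    (ι.comp (algebraMap (𝓞 F) (𝓞 M ⧸ v.asIdeal))).toAlgebra
  let ιA : (𝓞 M ⧸ v.asIdeal) →ₐ[𝓞 F] IsLocalRing.ResidueField V :=
    { ι with commutes' := fun z => rfl }
  have hcoef : ∀ (z : 𝓞 F) (h : algebraMap F Ω (algebraMap (𝓞 F) F z) ∈ V),
      r ⟨algebraMap F Ω (algebraMap (𝓞 F) F z), h⟩ =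
        algebraMap (𝓞 F) (IsLocalRing.ResidueField V) z := by
    intro z h
    have e1 : algebraMap (𝓞 F) (IsLocalRing.ResidueField V) z =
        ι (Ideal.Quotient.mk v.asIdeal (algebraMap (𝓞 F) (𝓞 M) z)) := rfl
    rw [e1, hι]
    congr 1
    apply Subtype.ext
    rw [hφ]
    rfl
  obtain ⟨f, hf0, hfs⟩ := exists_red hG r hr0 (W₀⁄(IsLocalRing.ResidueField V))
    (hcoef W₀.a₁ _) (hcoef W₀.a₂ _) (hcoef W₀.a₃ _) (hcoef W₀.a₄ _) (hcoef W₀.a₆ _) p hpV
  rcases T with _ | ⟨x, y, h⟩
  · exact hT0 rfl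
  obtain ⟨hx, hy⟩ := H35P.SL_mem hG h p hpV hT
  have hfix : ∀ s ∈ M.fixingSubgroup, Dec V s → s x = x ∧ s y = y := by
    intro s hs hd
    have h1 := hf s hs hd
    have h2 : ac (W₀⁄F) s (Affine.Point.some x y h) = Affine.Point.some (s x) (s y)
        ((Affine.baseChange_nonsingular (W := (W₀⁄F).toAffine) (f := s.toAlgHom)
          s.toAlgHom.injective ..).2 h) := rfl
    rw [h2] at h1
    simp only [Affine.Point.some.injEq] at h1
    exact h1
  obtain ⟨a, ha⟩ := res_descent M V v hv x hx fun s hs hd => (hfix s hs hd).1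
  obtain ⟨b, hb⟩ := res_descent M V v hv y hy fun s hs hd => (hfix s hs hd).2
  have hra : r ⟨x, hx⟩ = ι (Ideal.Quotient.mk v.asIdeal a) := by
    rw [hι, ← sub_eq_zero, ← map_sub, hr0]
    have e1 : ((⟨x, hx⟩ - φ a : V) : Ω) = x - ((a : M) : Ω) := by
      rw [← hφ]
      rfl
    rw [e1]
    exact ha
  have hrb : r ⟨y, hy⟩ = ι (Ideal.Quotient.mk v.asIdeal b) := by
    rw [hι, ← sub_eq_zero, ← map_sub, hr0]
    have e1 : ((⟨y, hy⟩ - φ b : V) : Ω) = y - ((b : M) : Ω) := by
      rw [← hφ]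
      rfl
    rw [e1]
    exact hb
  obtain ⟨h', hfT⟩ := hfs x y h hT hx hy
  have hns : (W₀⁄(𝓞 M ⧸ v.asIdeal)).toAffine.Nonsingular (Ideal.Quotient.mk v.asIdeal a)
      (Ideal.Quotient.mk v.asIdeal b) := by
    have h3 := h'
    rw [hra, hrb] at h3
    exact (Affine.baseChange_nonsingular (W := W₀.toAffine) (f := ιA) ι.injective _ _).1 h3
  have hmap : Affine.Point.map (W' := W₀.toAffine) ιA (Affine.Point.some _ _ hns) =
      f ⟨Affine.Point.some x y h, hT⟩ := by
    rw [hfT]
    exact s8_some_congr hra.symm hrb.symm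
  have hp0 : p • (Affine.Point.some _ _ hns : (W₀⁄(𝓞 M ⧸ v.asIdeal)).toAffine.Point) = 0 := by
    apply Affine.Point.map_injective (W' := W₀.toAffine) (f := ιA)
    rw [map_nsmul, hmap, ← map_nsmul, map_zero]
    have e2 : (p • (⟨Affine.Point.some x y h, hT⟩ :
        (nsmulAddMonoidHom p : Pt (W₀⁄F) Ω →+ Pt (W₀⁄F) Ω).ker)) = 0 := Subtype.ext hT
    rw [e2, map_zero]
  have hord : addOrderOf (Affine.Point.some _ _ hns : (W₀⁄(𝓞 M ⧸ v.asIdeal)).toAffine.Point) = p :=
    addOrderOf_eq_prime hp0 (Affine.Point.some_ne_zero _) (hp := ⟨hp⟩)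
  apply hc
  rw [← hord]
  exact addOrderOf_dvd_natCard _

end H55P
end

-- from Lib.H55P.S14
section

open NumberField IsDedekindDomain WeierstrassCurve

namespace H55P

variable {F : Type} [Field F] [NumberField F] {Ω : Type} [Field Ω] [DecidableEq Ω] [Algebra F Ω]
  [IsAlgClosed Ω] [Algebra.IsAlgebraic F Ω] [CharZero Ω]

/-! Assembly of the Selmer part: the tower theorem. -/

omit [NumberField F] [DecidableEq Ω] [IsAlgClosed Ω] [Algebra.IsAlgebraic F Ω] [CharZero Ω] in
theorem fixing_anti {K L : IntermediateField F Ω} (h : K ≤ L) {s : Ω ≃ₐ[F] Ω}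
    (hs : s ∈ L.fixingSubgroup) : s ∈ K.fixingSubgroup := by
  rw [IntermediateField.mem_fixingSubgroup_iff] at hs ⊢
  exact fun x hx => hs x (h hx)

omit [DecidableEq Ω] [IsAlgClosed Ω] [Algebra.IsAlgebraic F Ω] [CharZero Ω] in
/-- There is a valuation ring above each prime. -/
theorem exists_below (M : IntermediateField F Ω) [FiniteDimensional F M]
    (v : HeightOneSpectrum (𝓞 M)) : ∃ V : ValuationSubring Ω, Below V M v.asIdeal := by
  have : NumberField M := H16C.FR_numberField M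
  obtain ⟨A, hA⟩ := H16C.exists_above M v
  refine ⟨A, fun x => ?_⟩
  rcases eq_or_ne x 0 with rfl | hx
  · simp
  · rw [← H16A.ord_int_pos_iff v hx]
    exact ((hA (x : M) (by exact_mod_cast hx)).2.1).symm

/-- No p-torsion over M if there is a good prime without p-torsion. -/
theorem tors_of_prime (W₀ : WeierstrassCurve (𝓞 F)) (p : ℕ) (hp : p.Prime) (M : IntermediateField F Ω)
    [FiniteDimensional F M] (v : HeightOneSpectrum (𝓞 M))
    (hΔ : algebraMap (𝓞 F) (𝓞 M) W₀.Δ ∉ v.asIdeal) (hpv : (p : 𝓞 M) ∉ v.asIdeal)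
    (hc : ¬ p ∣ Nat.card (W₀⁄(𝓞 M ⧸ v.asIdeal)).toAffine.Point) (T : Pt (W₀⁄F) Ω) (hT : p • T = 0)
    (hf : ∀ s ∈ M.fixingSubgroup, ac (W₀⁄F) s T = T) : T = 0 := by
  obtain ⟨V, hV⟩ := exists_below M v
  exact fix_local W₀ p hp M V v hV hΔ hpv hc T hT fun s hs _ => hf s hs

/-- No p-torsion over the fields between M and L. -/
theorem tors_tower (W : WeierstrassCurve F) [W.IsElliptic] (p : ℕ) (hp : p.Prime)
    (M L : IntermediateField F Ω) (hL : PExt p M L)
    (h0 : ∀ T : Pt W Ω, p • T = 0 → (∀ s ∈ M.fixingSubgroup, ac W s T = T) → T = 0)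
    (K : IntermediateField F Ω) (hKL : K ≤ L) (T : Pt W Ω) (hT : p • T = 0)
    (hf : ∀ s ∈ K.fixingSubgroup, ac W s T = T) : T = 0 := by
  obtain ⟨k, hk⟩ := hL.pow p hp M L
  exact fix_up (acR W) p hp (tors_fin (Ω := Ω) W p hp.pos) L.fixingSubgroup M.fixingSubgroup
    (fun s hs => fixing_anti hL.le hs) (fun s hs t ht => hL.conj p M L s hs t ht) k hk h0 T hT
    fun s hs => hf s (fixing_anti hKL hs)

theorem sel_tower (W₀ : WeierstrassCurve (𝓞 F)) [(W₀⁄F).IsElliptic] (p : ℕ) (hp : p.Prime)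
    (M L : IntermediateField F Ω) (hL : PExt p M L)
    (h0 : ∀ T : Pt (W₀⁄F) Ω, p • T = 0 → (∀ s ∈ M.fixingSubgroup, ac (W₀⁄F) s T = T) → T = 0)
    (hram : ∀ v : HeightOneSpectrum (𝓞 M), Ram M L v.asIdeal →
      algebraMap (𝓞 F) (𝓞 M) W₀.Δ ∉ v.asIdeal ∧ (p : 𝓞 M) ∉ v.asIdeal ∧
        ¬ p ∣ Nat.card (W₀⁄(𝓞 M ⧸ v.asIdeal)).toAffine.Point)
    (hS : SelZero (W₀⁄F) p M) (K : IntermediateField F Ω) (hMK : M ≤ K) (hKL : K ≤ L) :
    SelZero (W₀⁄F) p K := by
  have hLf : FiniteDimensional F L := hL.fin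
  have hMf : FiniteDimensional F M :=
    (Module.Finite.of_injective (IntermediateField.inclusion hL.le).toLinearMap
      (IntermediateField.inclusion hL.le).injective)
  obtain ⟨k, hk⟩ := hL.pow p hp M L
  have hconj : ∀ s ∈ M.fixingSubgroup, ∀ t ∈ L.fixingSubgroup, s * t * s⁻¹ ∈ L.fixingSubgroup :=
    fun s hs t ht => hL.conj p M L s hs t ht
  have hfin := tors_fin (Ω := Ω) (W₀⁄F) p hp.pos
  -- no torsion over L
  have htL : ∀ T : Pt (W₀⁄F) Ω, p • T = 0 → (∀ s ∈ L.fixingSubgroup, ac (W₀⁄F) s T = T) → T = 0 := by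
    intro T hT hf
    exact fix_up (acR (W₀⁄F)) p hp hfin L.fixingSubgroup M.fixingSubgroup
      (fun s hs => fixing_anti hL.le hs) hconj k hk h0 T hT hf
  induction hn : Module.finrank F K using Nat.strong_induction_on generalizing K with
  | _ n ih =>
    rcases eq_or_ne K M with rfl | hne
    · exact hS
    obtain ⟨N, hMN, hNK, hdeg, hnorm⟩ := chain_step p hp M K L hL hMK hKL hne
    have hKf : FiniteDimensional F K :=
      (Module.Finite.of_injective (IntermediateField.inclusion hKL).toLinearMap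
        (IntermediateField.inclusion hKL).injective)
    have hNf : FiniteDimensional F N :=
      (Module.Finite.of_injective (IntermediateField.inclusion hNK).toLinearMap
        (IntermediateField.inclusion hNK).injective)
    have hNpos : 0 < Module.finrank F N := Module.finrank_pos
    have hlt : Module.finrank F N < n := by
      rw [← hn, hdeg]
      exact lt_mul_of_one_lt_right hNpos hp.one_lt
    have hSN := ih _ hlt N hMN (hNK.trans hKL) rfl
    refine sel_step (W₀⁄F) p hp N K hNK hnorm hdeg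
      (fun T hT hf => htL T hT fun s hs => hf s (fixing_anti hKL hs)) (fun V => ?_) hSN
    rcases below_cases M V with ⟨v, hv⟩ | htriv
    · by_cases hr : Ram M L v.asIdeal
      · right
        obtain ⟨hΔ, hpv, hc⟩ := hram v hr
        refine ⟨fun s _ hI P hP => ?_, fun T hT hf => ?_⟩
        · exact red_fix (W₀⁄F) V (good_below W₀ M V v hv hΔ) p (val_below M V v hv p hpv) s hI P hP
        · refine fix_up (acR (W₀⁄F)) p hp hfin (L.fixingSubgroup ⊓ decS F V)
            (M.fixingSubgroup ⊓ decS F V) ?_ ?_ k ?_ ?_ T hT ?_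
          · exact inf_le_inf_right _ fun s hs => fixing_anti hL.le hs
          · intro s hs t ht
            exact ⟨hconj s hs.1 t ht.1,
              (decS F V).mul_mem ((decS F V).mul_mem hs.2 ht.2) ((decS F V).inv_mem hs.2)⟩
          · intro s hs
            exact ⟨hk s hs.1, (decS F V).pow_mem hs.2 _⟩
          · intro T' hT' hf'
            exact fix_local W₀ p hp M V v hv hΔ hpv hc T' hT' fun s hs hd => hf' s ⟨hs, hd⟩
          · intro s hs
            exact hf s (fixing_anti (hNK.trans hKL) hs.1) hs.2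
      · left
        intro s hs hI
        refine fixing_anti hKL (inert_mem M L hL.le hL.norm V ?_ s (fixing_anti hMN hs) hI)
        intro v' hv' hr'
        apply hr
        have : v' = v := by
          apply HeightOneSpectrum.ext
          ext x
          rw [hv' x, hv x]
        rwa [← this]
    · left
      intro s _ hI
      rw [htriv s hI]
      exact one_mem _

end H55P
end

-- from Lib.H55K.NA6
section

/-! # H55K, part N: the tower theorem with bad ramified primes -/

open NumberField IsDedekindDomain WeierstrassCurve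

namespace H55K.NB

open H55P

variable {F : Type} [Field F] [NumberField F] {Ω : Type} [Field Ω] [DecidableEq Ω] [Algebra F Ω]
  [IsAlgClosed Ω] [Algebra.IsAlgebraic F Ω] [CharZero Ω]

/-- As H55P.sel_tower, but bad primes without p-torsion fixed by inertia may be ramified. -/
theorem sel_towerB (W₀ : WeierstrassCurve (𝓞 F)) [(W₀⁄F).IsElliptic] (p : ℕ) (hp : p.Prime)
    (M L : IntermediateField F Ω) (hL : PExt p M L)
    (h0 : ∀ T : Pt (W₀⁄F) Ω, p • T = 0 → (∀ s ∈ M.fixingSubgroup, ac (W₀⁄F) s T = T) → T = 0)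
    (hcomm : ∀ s ∈ M.fixingSubgroup, ∀ t ∈ M.fixingSubgroup, ∀ T : Pt (W₀⁄F) Ω, p • T = 0 →
      ac (W₀⁄F) s (ac (W₀⁄F) t T) = ac (W₀⁄F) t (ac (W₀⁄F) s T))
    (hram : ∀ v : HeightOneSpectrum (𝓞 M), Ram M L v.asIdeal → (p : 𝓞 M) ∉ v.asIdeal ∧
      ((algebraMap (𝓞 F) (𝓞 M) W₀.Δ ∉ v.asIdeal ∧
        ¬ p ∣ Nat.card (W₀⁄(𝓞 M ⧸ v.asIdeal)).toAffine.Point) ∨
      ∀ V : ValuationSubring Ω, Below V M v.asIdeal → ∀ T : Pt (W₀⁄F) Ω, p • T = 0 →
        (∀ s ∈ L.fixingSubgroup, Inert V s → ac (W₀⁄F) s T = T) → T = 0))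
    (hS : SelZero (W₀⁄F) p M) (K : IntermediateField F Ω) (hMK : M ≤ K) (hKL : K ≤ L) :
    SelZero (W₀⁄F) p K := by
  have hLf : FiniteDimensional F L := hL.fin
  have hMf : FiniteDimensional F M :=
    (Module.Finite.of_injective (IntermediateField.inclusion hL.le).toLinearMap
      (IntermediateField.inclusion hL.le).injective)
  obtain ⟨k, hk⟩ := hL.pow p hp M L
  have hconj : ∀ s ∈ M.fixingSubgroup, ∀ t ∈ L.fixingSubgroup, s * t * s⁻¹ ∈ L.fixingSubgroup :=
    fun s hs t ht => hL.conj p M L s hs t ht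
  have hfin := tors_fin (Ω := Ω) (W₀⁄F) p hp.pos
  -- no torsion over L
  have htL : ∀ T : Pt (W₀⁄F) Ω, p • T = 0 → (∀ s ∈ L.fixingSubgroup, ac (W₀⁄F) s T = T) → T = 0 := by
    intro T hT hf
    exact fix_up (acR (W₀⁄F)) p hp hfin L.fixingSubgroup M.fixingSubgroup
      (fun s hs => fixing_anti hL.le hs) hconj k hk h0 T hT hf
  induction hn : Module.finrank F K using Nat.strong_induction_on generalizing K with
  | _ n ih =>
    rcases eq_or_ne K M with rfl | hne
    · exact hS
    obtain ⟨N, hMN, hNK, hdeg, hnorm⟩ := chain_step p hp M K L hL hMK hKL hne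
    have hKf : FiniteDimensional F K :=
      (Module.Finite.of_injective (IntermediateField.inclusion hKL).toLinearMap
        (IntermediateField.inclusion hKL).injective)
    have hNf : FiniteDimensional F N :=
      (Module.Finite.of_injective (IntermediateField.inclusion hNK).toLinearMap
        (IntermediateField.inclusion hNK).injective)
    have hNpos : 0 < Module.finrank F N := Module.finrank_pos
    have hlt : Module.finrank F N < n := by
      rw [← hn, hdeg]
      exact lt_mul_of_one_lt_right hNpos hp.one_lt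
    have hSN := ih _ hlt N hMN (hNK.trans hKL) rfl
    refine sel_stepB (W₀⁄F) p hp N K hNK hnorm hdeg
      (fun T hT hf => htL T hT fun s hs => hf s (fixing_anti hKL hs)) (fun V => ?_) hSN
    rcases below_cases M V with ⟨v, hv⟩ | htriv
    · by_cases hr : Ram M L v.asIdeal
      · right
        obtain ⟨hpv, ⟨hΔ, hc⟩ | hbad⟩ := hram v hr
        swap
        · right
          intro c hc hpc
          exact inert_cob (W₀⁄F) p hp N V (val_below M V v hv p hpv)
            (fun s hs t ht T hT => hcomm s (fixing_anti hMN hs) t (fixing_anti hMN ht) T hT)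
            (fun T hT hf => hbad V hv T hT fun s hs hi => hf s (fixing_anti (hNK.trans hKL) hs) hi) c hc hpc
        left
        refine ⟨fun s _ hI P hP => ?_, fun T hT hf => ?_⟩
        · exact red_fix (W₀⁄F) V (good_below W₀ M V v hv hΔ) p (val_below M V v hv p hpv) s hI P hP
        · refine fix_up (acR (W₀⁄F)) p hp hfin (L.fixingSubgroup ⊓ decS F V)
            (M.fixingSubgroup ⊓ decS F V) ?_ ?_ k ?_ ?_ T hT ?_
          · exact inf_le_inf_right _ fun s hs => fixing_anti hL.le hs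
          · intro s hs t ht
            exact ⟨hconj s hs.1 t ht.1,
              (decS F V).mul_mem ((decS F V).mul_mem hs.2 ht.2) ((decS F V).inv_mem hs.2)⟩
          · intro s hs
            exact ⟨hk s hs.1, (decS F V).pow_mem hs.2 _⟩
          · intro T' hT' hf'
            exact fix_local W₀ p hp M V v hv hΔ hpv hc T' hT' fun s hs hd => hf' s ⟨hs, hd⟩
          · intro s hs
            exact hf s (fixing_anti (hNK.trans hKL) hs.1) hs.2
      · left
        intro s hs hI
        refine fixing_anti hKL (inert_mem M L hL.le hL.norm V ?_ s (fixing_anti hMN hs) hI)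
        intro v' hv' hr'
        apply hr
        have : v' = v := by
          apply HeightOneSpectrum.ext
          ext x
          rw [hv' x, hv x]
        rwa [← this]
    · left
      intro s _ hI
      rw [htriv s hI]
      exact one_mem _

end H55K.NB
end

-- from Lib.H55P.Z12
section

open NumberField IsDedekindDomain WeierstrassCurve

namespace H55P

/-! Chunk PZ12 (M). From fields inside Ω to abstract fields.
PROOF. The field Ω with the algebra structure over K given by ι is an algebraic closure of K (IsAlgClosed Ω, algebraic over k hence over K), so there is an isomorphism θ : AlgebraicClosure K → Ω of K-algebras (IsAlgClosure.equiv). It gives the bijection s -> θ s θ⁻¹ from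
Gal(AlgebraicClosure K / K) to the automorphisms of Ω over k fixing ι.fieldRange, the bijection V -> V.comap of the valuation rings, and an additive equivalence Φ : Pt (W⁄K) (AlgebraicClosure K) ≃+ Pt W Ω (the curves (W⁄K)⁄(AlgebraicClosure K) and W⁄(AlgebraicClosure K) agree: base_iso in Z11.lean with F = K; then
Affine.Point.map θ restricted to k, bijective), compatible with the actions. Given a cocycle c for K put c' t = Φ (c (θ⁻¹ t θ)) for t in ι.fieldRange.fixingSubgroup (0 otherwise). Coc: continuity: the image of L under θ is finite over K, hence over k (K finite over k). Inert V t iff Inert (comap V) (θ⁻¹ t θ).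
The set of all s corresponds to the fixing subgroup. Transport the conclusion back by Φ⁻¹. DecidableEq instances: Subsingleton.elim (the group law of the points depends on them; open Classical in the statement, DecidableEq Ω arbitrary: use Subsingleton.elim to rewrite). -/
section z12

variable {k : Type} [Field k]

/-- The isomorphism on points given by an isomorphism of fields. -/
noncomputable def z12_pt (W : WeierstrassCurve k) {A B : Type} [Field A] [Field B] [DecidableEq A]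
    [DecidableEq B] [Algebra k A] [Algebra k B] (θ : A ≃ₐ[k] B) : Pt W A ≃+ Pt W B where
  toFun := Affine.Point.map (W' := W.toAffine) θ.toAlgHom
  invFun := Affine.Point.map (W' := W.toAffine) θ.symm.toAlgHom
  left_inv := by
    intro P
    rw [Affine.Point.map_map]
    have h : (θ.symm.toAlgHom.comp θ.toAlgHom) = AlgHom.id k A := by
      ext x
      exact θ.symm_apply_apply x
    rw [h]
    cases P <;> rfl
  right_inv := by
    intro P
    rw [Affine.Point.map_map]
    have h : (θ.toAlgHom.comp θ.symm.toAlgHom) = AlgHom.id k B := by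
      ext x
      exact θ.apply_symm_apply x
    rw [h]
    cases P <;> rfl
  map_add' P Q := map_add _ P Q

/-- Conjugation with θ. -/
noncomputable def z12_hat {K : Type} [Field K] [Algebra k K] {A B : Type} [Field A] [Field B]
    [Algebra k A] [Algebra K A] [IsScalarTower k K A] [Algebra k B] (θ : A ≃ₐ[k] B) (s : A ≃ₐ[K] A) :
    B ≃ₐ[k] B := (θ.symm.trans (s.restrictScalars k)).trans θ

theorem z12_hat_apply {K : Type} [Field K] [Algebra k K] {A B : Type} [Field A] [Field B]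
    [Algebra k A] [Algebra K A] [IsScalarTower k K A] [Algebra k B] (θ : A ≃ₐ[k] B) (s : A ≃ₐ[K] A)
    (x : B) : z12_hat θ s x = θ (s (θ.symm x)) := rfl

theorem z12_core (W : WeierstrassCurve k) (K : Type) [Field K]
    [Algebra k K] [FiniteDimensional k K] {Ω : Type} [Field Ω] [DecidableEq Ω] [Algebra k Ω]
    [IsAlgClosed Ω] [Algebra.IsAlgebraic k Ω] (ι : K →ₐ[k] Ω) [DecidableEq (AlgebraicClosure K)] :
    ∃ (Φ : Pt (W⁄K) (AlgebraicClosure K) ≃+ Pt W Ω)
      (hat : (AlgebraicClosure K ≃ₐ[K] AlgebraicClosure K) → (Ω ≃ₐ[k] Ω)),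
      Function.Injective hat ∧ (∀ s t, hat (s * t) = hat s * hat t) ∧
      (∀ t, t ∈ ι.fieldRange.fixingSubgroup ↔ ∃ s, hat s = t) ∧
      (∀ s P, Φ (ac (W⁄K) s P) = ac W (hat s) (Φ P)) ∧
      (∀ L : IntermediateField K (AlgebraicClosure K), FiniteDimensional K L →
        ∃ L' : IntermediateField k Ω, FiniteDimensional k L' ∧
          ∀ s, hat s ∈ L'.fixingSubgroup → s ∈ L.fixingSubgroup) ∧
      (∀ V : ValuationSubring Ω, ∃ V' : ValuationSubring (AlgebraicClosure K), (V ≠ ⊤ → V' ≠ ⊤) ∧ ∀ s,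
        (Inert V' s → Inert V (hat s)) ∧ (Inert V (hat s) → Inert V' s) ∧
        (Dec V (hat s) → Dec V' s)) := by
  let algKΩ : Algebra K Ω := ι.toRingHom.toAlgebra
  have htow : IsScalarTower k K Ω := IsScalarTower.of_algebraMap_eq fun x => (ι.commutes x).symm
  have halg : Algebra.IsAlgebraic K Ω := Algebra.IsAlgebraic.tower_top (K := k) K
  have hcl : IsAlgClosure K Ω := ⟨inferInstance, halg⟩
  let θ : AlgebraicClosure K ≃ₐ[K] Ω := IsAlgClosure.equiv K (AlgebraicClosure K) Ω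
  let θk : AlgebraicClosure K ≃ₐ[k] Ω := θ.restrictScalars k
  obtain ⟨φ, hφ⟩ := base_iso (k := k) (F := K) (Ω := AlgebraicClosure K) W
  refine ⟨φ.symm.trans (z12_pt W θk), z12_hat θk, ?_, ?_, ?_, ?_, ?_, ?_⟩
  · intro s t hst
    apply AlgEquiv.ext
    intro x
    have h1 := DFunLike.congr_fun hst (θk x)
    rw [z12_hat_apply, z12_hat_apply, θk.symm_apply_apply] at h1
    exact θk.injective h1
  · intro s t
    apply AlgEquiv.ext
    intro x
    rw [AlgEquiv.mul_apply, z12_hat_apply, z12_hat_apply, z12_hat_apply, θk.symm_apply_apply,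
      AlgEquiv.mul_apply]
  · intro t
    rw [IntermediateField.mem_fixingSubgroup_iff]
    constructor
    · intro ht
      have h1 : ∀ x : K, t (algebraMap K Ω x) = algebraMap K Ω x := fun x => ht _ ⟨x, rfl⟩
      let tK : Ω ≃ₐ[K] Ω := AlgEquiv.ofRingEquiv (f := (t : Ω ≃+* Ω)) h1
      refine ⟨(θ.trans tK).trans θ.symm, AlgEquiv.ext fun x => ?_⟩
      rw [z12_hat_apply]
      show θ (θ.symm (t (θ (θ.symm x)))) = t x
      rw [θ.apply_symm_apply, θ.apply_symm_apply]
    · rintro ⟨s, rfl⟩ x ⟨y, rfl⟩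
      rw [z12_hat_apply]
      show θ (s (θ.symm (algebraMap K Ω y))) = algebraMap K Ω y
      rw [θ.symm.commutes, s.commutes, θ.commutes]
  · intro s P
    have h1 : φ.symm (ac (W⁄K) s P) = ac W (s.restrictScalars k) (φ.symm P) := by
      apply φ.injective
      rw [hφ, φ.apply_symm_apply, φ.apply_symm_apply]
    show z12_pt W θk (φ.symm (ac (W⁄K) s P)) = ac W (z12_hat θk s) (z12_pt W θk (φ.symm P))
    rw [h1]
    generalize φ.symm P = Q
    show Affine.Point.map (W' := W.toAffine) θk.toAlgHom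
      (Affine.Point.map (W' := W.toAffine) (s.restrictScalars k).toAlgHom Q) =
      Affine.Point.map (W' := W.toAffine) (z12_hat θk s).toAlgHom
        (Affine.Point.map (W' := W.toAffine) θk.toAlgHom Q)
    rw [Affine.Point.map_map, Affine.Point.map_map]
    congr 1
    congr 1
    ext x
    show θk (s x) = z12_hat θk s (θk x)
    rw [z12_hat_apply, θk.symm_apply_apply]
  · intro L hL
    have h1 : FiniteDimensional k (L.restrictScalars k) := FiniteDimensional.trans k K L
    let e := IntermediateField.intermediateFieldMap θk (L.restrictScalars k)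
    refine ⟨(L.restrictScalars k).map θk.toAlgHom, Module.Finite.equiv e.toLinearEquiv, ?_⟩
    intro s hs
    rw [IntermediateField.mem_fixingSubgroup_iff] at hs ⊢
    intro x hx
    have h2 := hs (θk x) ⟨x, hx, rfl⟩
    rw [z12_hat_apply, θk.symm_apply_apply] at h2
    exact θk.injective h2
  · intro V
    have hm : ∀ x, x ∈ V.comap (θk : AlgebraicClosure K →+* Ω) ↔ θk x ∈ V := fun x =>
      ValuationSubring.mem_comap
    refine ⟨V.comap (θk : AlgebraicClosure K →+* Ω), fun hV h => hV ?_, fun s => ?_⟩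
    · refine eq_top_iff.2 fun x _ => ?_
      have h1 : θk.symm x ∈ V.comap (θk : AlgebraicClosure K →+* Ω) := by
        rw [h]
        exact ValuationSubring.mem_top _
      rwa [hm, θk.apply_symm_apply] at h1
    have hlt : ∀ x, (V.comap (θk : AlgebraicClosure K →+* Ω)).valuation x < 1 ↔
        V.valuation (θk x) < 1 := by
      intro x
      rw [lt1_iff, lt1_iff, hm, map_inv₀]
      simp
    refine ⟨fun h x hx => ?_, fun h x hx => ?_, fun h x => ?_⟩
    · have h1 := h (θk.symm x) ((hm _).2 (by rwa [θk.apply_symm_apply]))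
      rw [hlt, map_sub, θk.apply_symm_apply] at h1
      exact h1
    · have h1 := h (θk x) ((hm _).1 hx)
      rw [z12_hat_apply, θk.symm_apply_apply] at h1
      rw [hlt, map_sub]
      exact h1
    · have h1 := h (θk x)
      rw [z12_hat_apply, θk.symm_apply_apply] at h1
      rw [hm, hm]
      exact h1

end z12

theorem sel_transport {k : Type} [Field k] (W : WeierstrassCurve k) (p : ℕ) (K : Type) [Field K]
    [Algebra k K] [FiniteDimensional k K] {Ω : Type} [Field Ω] [DecidableEq Ω] [Algebra k Ω]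
    [IsAlgClosed Ω] [Algebra.IsAlgebraic k Ω] (ι : K →ₐ[k] Ω) (hS : SelZero W p ι.fieldRange) :
    SelTriv (W⁄K) p := by
  classical
  unfold SelTriv
  intro c hc hp hV
  obtain ⟨Φ, hat, hinj, hmul, hfix, hact, hfield, hval⟩ := z12_core W K ι
  have hinv : ∀ s, Function.invFun hat (hat s) = s := Function.leftInverse_invFun hinj
  have g1 : Coc W ι.fieldRange (fun t => Φ (c (Function.invFun hat t))) := by
    refine ⟨?_, ?_⟩
    · intro s hs t ht
      obtain ⟨s, rfl⟩ := (hfix _).1 hs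
      obtain ⟨t, rfl⟩ := (hfix _).1 ht
      simp only [← hmul, hinv]
      rw [hc.mul, map_add, hact]
    · obtain ⟨L, hL, hLc⟩ := hc.cont
      obtain ⟨L', hL', h1⟩ := hfield L hL
      refine ⟨L', hL', ?_⟩
      intro s hs hsL
      obtain ⟨s, rfl⟩ := (hfix _).1 hs
      simp only [hinv]
      rw [hLc s (h1 s hsL), map_zero]
  have g2 : ∀ s ∈ ι.fieldRange.fixingSubgroup,
      p • (fun t => Φ (c (Function.invFun hat t))) s = 0 := by
    intro s hs
    simp only
    rw [← map_nsmul, hp, map_zero]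
  have g3 : ∀ V : ValuationSubring Ω, ∃ P : Pt W Ω, ∀ s ∈ ι.fieldRange.fixingSubgroup,
      Inert V s → (fun t => Φ (c (Function.invFun hat t))) s = ac W s P - P := by
    intro V
    obtain ⟨V', -, hV'⟩ := hval V
    obtain ⟨P, hP⟩ := hV V'
    refine ⟨Φ P, ?_⟩
    intro s hs hI
    obtain ⟨s, rfl⟩ := (hfix _).1 hs
    simp only [hinv]
    rw [hP s ((hV' s).2.1 hI), map_sub, hact]
  obtain ⟨T, hT, hcT⟩ := hS _ g1 g2 g3
  refine ⟨Φ.symm T, ?_, fun s => ?_⟩
  · rw [← map_nsmul, hT, map_zero]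
  · have h1 := hcT (hat s) ((hfix _).2 ⟨s, rfl⟩)
    simp only [hinv] at h1
    apply Φ.injective
    rw [h1, map_sub, hact, Φ.apply_symm_apply]

theorem sha_transport {k : Type} [Field k] (W : WeierstrassCurve k) (p : ℕ) (K : Type) [Field K]
    [Algebra k K] [FiniteDimensional k K] {Ω : Type} [Field Ω] [DecidableEq Ω] [Algebra k Ω]
    [IsAlgClosed Ω] [Algebra.IsAlgebraic k Ω] (ι : K →ₐ[k] Ω) (hS : ShaZero W p ι.fieldRange) :
    ShaTriv (W⁄K) p := by
  classical
  unfold ShaTriv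
  intro c hc hQ hV
  obtain ⟨Φ, hat, hinj, hmul, hfix, hact, hfield, hval⟩ := z12_core W K ι
  have hinv : ∀ s, Function.invFun hat (hat s) = s := Function.leftInverse_invFun hinj
  have g1 : Coc W ι.fieldRange (fun t => Φ (c (Function.invFun hat t))) := by
    refine ⟨?_, ?_⟩
    · intro s hs t ht
      obtain ⟨s, rfl⟩ := (hfix _).1 hs
      obtain ⟨t, rfl⟩ := (hfix _).1 ht
      simp only [← hmul, hinv]
      rw [hc.mul, map_add, hact]
    · obtain ⟨L, hL, hLc⟩ := hc.cont
      obtain ⟨L', hL', h1⟩ := hfield L hL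
      refine ⟨L', hL', ?_⟩
      intro s hs hsL
      obtain ⟨s, rfl⟩ := (hfix _).1 hs
      simp only [hinv]
      rw [hLc s (h1 s hsL), map_zero]
  have g2 : ∃ Q : Pt W Ω, ∀ s ∈ ι.fieldRange.fixingSubgroup,
      p • (fun t => Φ (c (Function.invFun hat t))) s = ac W s Q - Q := by
    obtain ⟨Q, hQ⟩ := hQ
    refine ⟨Φ Q, ?_⟩
    intro s hs
    obtain ⟨s, rfl⟩ := (hfix _).1 hs
    simp only [hinv]
    rw [← map_nsmul, hQ s, map_sub, hact]
  have g3 : ∀ V : ValuationSubring Ω, V ≠ ⊤ → ∃ P : Pt W Ω, ∀ s ∈ ι.fieldRange.fixingSubgroup,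
      Dec V s → (fun t => Φ (c (Function.invFun hat t))) s = ac W s P - P := by
    intro V hVt
    obtain ⟨V', hV't, hV'⟩ := hval V
    obtain ⟨P, hP⟩ := hV V' (hV't hVt)
    refine ⟨Φ P, ?_⟩
    intro s hs hI
    obtain ⟨s, rfl⟩ := (hfix _).1 hs
    simp only [hinv]
    rw [hP s ((hV' s).2.2 hI), map_sub, hact]
  obtain ⟨T, hcT⟩ := hS _ g1 g2 g3
  refine ⟨Φ.symm T, fun s => ?_⟩
  have h1 := hcT (hat s) ((hfix _).2 ⟨s, rfl⟩)
  simp only [hinv] at h1
  apply Φ.injective
  rw [h1, map_sub, hact, Φ.apply_symm_apply]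

end H55P
end

-- from Lib.H55P.S6
section

open NumberField IsDedekindDomain WeierstrassCurve

namespace H55P

variable {F : Type} [Field F] [NumberField F] {Ω : Type} [Field Ω] [DecidableEq Ω] [Algebra F Ω]
  [IsAlgClosed Ω] [Algebra.IsAlgebraic F Ω] [CharZero Ω]

/-! Chunk PS6 (S/M). Consequences of SelZero.
pts_div: Q with p Q = P (div_pt), c s = ac W s Q - Q, a cocycle, killed by p, continuous (pt_open), locally trivial with the point Q. So c s = ac W s T - T with p T = 0: Q - T. sha_zero: Q = p R, c' s = c s - (ac W s R - R): killed by p,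
continuous, trivial on inertia (inert_dec, point P - R); c' s = ac W s T - T; the point T + R. pts_fin: M = Pt W K is a finitely generated ℤ-module (mw) with p M = M (fix_iff, pts_div, injectivity of the map): by Nakayama (Submodule.exists_sub_one_mem_and_smul_eq_zero_of_fg_of_le_smul with
the ideal (p)) there is r = 1 mod p with r M = 0, so M is finite (finitely generated torsion: Module.finite_of_fg_torsion or AddCommGroup.finite_of_fg_torsion) and has no element of order p (Cauchy: exists_prime_addOrderOf_dvd_card). -/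

omit [NumberField F] [DecidableEq Ω] [IsAlgClosed Ω] [Algebra.IsAlgebraic F Ω] [CharZero Ω] in
theorem ps6_fix {K : IntermediateField F Ω} {s : Ω ≃ₐ[F] Ω} {L : IntermediateField F Ω}
    (h : s ∈ (K ⊔ L).fixingSubgroup) : s ∈ K.fixingSubgroup ∧ s ∈ L.fixingSubgroup :=
  ⟨IntermediateField.fixingSubgroup_antitone le_sup_left h,
    IntermediateField.fixingSubgroup_antitone le_sup_right h⟩

omit [NumberField F] [IsAlgClosed Ω] [CharZero Ω] in
theorem ps6_cob (W : WeierstrassCurve F) (K : IntermediateField F Ω) (Q : Pt W Ω) :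
    Coc W K fun s => ac W s Q - Q := by
  constructor
  · intro s _ t _
    have h1 : ac W (s * t) Q = ac W s (ac W t Q) := by
      rw [← acR_apply, ← acR_apply, ← acR_apply, map_mul]
      rfl
    rw [h1, map_sub]
    abel
  · obtain ⟨L, hL, h⟩ := pt_open W Q
    exact ⟨L, hL, fun s _ hs => by rw [h s hs, sub_self]⟩

omit [NumberField F] [IsAlgClosed Ω] [CharZero Ω] [Algebra.IsAlgebraic F Ω] in
theorem ps6_sub (W : WeierstrassCurve F) (K : IntermediateField F Ω) {c d : (Ω ≃ₐ[F] Ω) → Pt W Ω}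
    (hc : Coc W K c) (hd : Coc W K d) : Coc W K fun s => c s - d s := by
  constructor
  · intro s hs t ht
    rw [hc.mul s hs t ht, hd.mul s hs t ht, map_sub]
    abel
  · obtain ⟨L, hL, h⟩ := hc.cont
    obtain ⟨L', hL', h'⟩ := hd.cont
    refine ⟨L ⊔ L', inferInstance, fun s hs hs' => ?_⟩
    obtain ⟨h1, h2⟩ := ps6_fix hs'
    rw [h s hs h1, h' s hs h2, sub_self]

theorem pts_div (W : WeierstrassCurve F) [W.IsElliptic] (p : ℕ) (hp : p.Prime) (K : IntermediateField F Ω)
    (hS : SelZero W p K) (P : Pt W Ω) (hP : ∀ s ∈ K.fixingSubgroup, ac W s P = P) :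
    ∃ Q : Pt W Ω, p • Q = P ∧ ∀ s ∈ K.fixingSubgroup, ac W s Q = Q := by
  obtain ⟨Q, hQ⟩ := div_pt W p hp.pos P
  obtain ⟨T, hT, hT'⟩ := hS (fun s => ac W s Q - Q) (ps6_cob W K Q) (fun s hs => by
    rw [smul_sub, ← map_nsmul, hQ, hP s hs, sub_self]) fun V => ⟨Q, fun s _ _ => rfl⟩
  refine ⟨Q - T, ?_, fun s hs => ?_⟩
  · rw [smul_sub, hQ, hT, sub_zero]
  · rw [map_sub]
    have h1 : ac W s Q - Q = ac W s T - T := hT' s hs
    rw [sub_eq_sub_iff_sub_eq_sub] at h1
    exact h1

theorem sha_zero (W : WeierstrassCurve F) [W.IsElliptic] (p : ℕ) (hp : p.Prime) (K : IntermediateField F Ω)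
    (hS : SelZero W p K) : ShaZero W p K := by
  rintro c hc ⟨Q, hQ⟩ hloc
  obtain ⟨R, hR⟩ := div_pt W p hp.pos Q
  obtain ⟨T, hT, hT'⟩ := hS (fun s => c s - (ac W s R - R)) (ps6_sub W K hc (ps6_cob W K R))
    (fun s hs => by
      rw [smul_sub, hQ s hs, smul_sub, ← map_nsmul, hR, sub_self]) fun V => by
    by_cases hV : V = ⊤
    · refine ⟨0, fun s hs hi => ?_⟩
      have h1 : s = 1 := by
        refine AlgEquiv.ext fun x => ?_
        have h2 := hi x (hV ▸ ValuationSubring.mem_top x)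
        rw [hV] at h2
        have h3 : s x - x = 0 := by
          by_contra h3
          have h4 : (⊤ : ValuationSubring Ω).valuation (s x - x)⁻¹ ≤ 1 :=
            ((⊤ : ValuationSubring Ω).valuation_le_one_iff _).2 (ValuationSubring.mem_top _)
          rw [map_inv₀] at h4
          have h5 : 1 < ((⊤ : ValuationSubring Ω).valuation (s x - x))⁻¹ :=
            (one_lt_inv₀ (by
              rw [Valuation.pos_iff]
              exact h3)).2 h2
          exact absurd h4 (not_le.2 h5)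
        exact sub_eq_zero.1 h3
      have h2 : c 1 = 0 := by
        have h3 := hc.mul 1 (one_mem _) 1 (one_mem _)
        rw [one_mul] at h3
        have h4 : ac W (1 : Ω ≃ₐ[F] Ω) (c 1) = c 1 := by
          cases c 1 <;> rfl
        rw [h4] at h3
        exact left_eq_add.1 h3
      have h5 : ∀ P : Pt W Ω, ac W (1 : Ω ≃ₐ[F] Ω) P = P := fun P => by cases P <;> rfl
      subst h1
      show c 1 - (ac W 1 R - R) = _
      rw [h2, h5, h5, sub_self, sub_self]
    obtain ⟨P, hP⟩ := hloc V hV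
    refine ⟨P - R, fun s hs hi => ?_⟩
    show c s - (ac W s R - R) = _
    rw [hP s hs (inert_dec V s hi), map_sub]
    abel
  refine ⟨T + R, fun s hs => ?_⟩
  have h1 : c s - (ac W s R - R) = ac W s T - T := hT' s hs
  rw [map_add, sub_eq_iff_eq_add.1 h1]
  abel

theorem pts_fin (W : WeierstrassCurve F) [W.IsElliptic] (p : ℕ) (hp : p.Prime) (K : IntermediateField F Ω)
    [FiniteDimensional F K] [DecidableEq K] (hS : SelZero W p K) :
    Finite (Pt W K) ∧ ¬ p ∣ Nat.card (Pt W K) := by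
  have hN : NumberField K := NumberField.of_module_finite F K
  have hfg : Module.Finite ℤ (Pt W K) := mw W K
  have hinj : Function.Injective (Affine.Point.map (W' := W.toAffine) K.val) :=
    Affine.Point.map_injective _
  have hdiv : ∀ P : Pt W K, ∃ Q : Pt W K, p • Q = P := by
    intro P
    obtain ⟨Q', hQ', hQ2⟩ := pts_div W p hp K hS (Affine.Point.map (W' := W.toAffine) K.val P)
      ((fix_iff W K _).2 ⟨P, rfl⟩)
    obtain ⟨Q, hQ⟩ := (fix_iff W K Q').1 hQ2
    refine ⟨Q, hinj ?_⟩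
    rw [map_nsmul, hQ, hQ']
  obtain ⟨r, hr, hr'⟩ := Submodule.exists_sub_one_mem_and_smul_eq_zero_of_fg_of_le_smul
    (Ideal.span {(p : ℤ)}) (⊤ : Submodule ℤ (Pt W K)) hfg.fg_top (by
      intro P _
      obtain ⟨Q, hQ⟩ := hdiv P
      rw [← hQ, ← natCast_zsmul]
      exact Submodule.smul_mem_smul (Ideal.mem_span_singleton_self _) Submodule.mem_top)
  have hr0 : r ≠ 0 := by
    rintro rfl
    rw [Ideal.mem_span_singleton, zero_sub, dvd_neg] at hr
    exact hp.one_lt.ne' (by exact_mod_cast Int.natAbs_dvd_natAbs.2 hr |> Nat.dvd_one.1)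
  have hfin : Finite (Pt W K) := by
    have h1 : AddGroup.FG (Pt W K) := Module.Finite.iff_addGroup_fg.1 inferInstance
    refine AddCommGroup.finite_of_fg_isAddTorsion _ fun P => ?_
    rw [isOfFinAddOrder_iff_zsmul_eq_zero]
    exact ⟨r, hr0, hr' P Submodule.mem_top⟩
  refine ⟨hfin, fun hd => ?_⟩
  haveI := Fact.mk hp
  obtain ⟨P, hP⟩ := exists_prime_addOrderOf_dvd_card' (G := Pt W K) p hd
  have hsurj : Function.Surjective fun Q : Pt W K => p • Q := hdiv
  have hinj' := Finite.injective_iff_surjective.2 hsurj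
  have h1 : p • P = 0 := by
    rw [← hP]
    exact addOrderOf_nsmul_eq_zero P
  have h2 : P = 0 := hinj' (by
    show p • P = p • 0
    rw [h1, smul_zero])
  rw [h2, addOrderOf_zero] at hP
  exact hp.one_lt.ne hP

end H55P
end
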