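import Mathlib
import Pool.Agent.Lib.H1M.PP.M036

open NumberField IsDedekindDomain WeierstrassCurve

namespace H13Z

open H55P

/-- There is a class in the classical p-Selmer group of W over K (local conditions on the decomposition groups at the finite places) which is not the class of a point killed by p. -/
def SelNon {F₀ : Type} [Field F₀] {Ω : Type} [Field Ω] [DecidableEq Ω] [Algebra F₀ Ω]
    (W : WeierstrassCurve F₀) (p : ℕ) (K : IntermediateField F₀ Ω) : Prop :=
  ∃ c : (Ω ≃ₐ[F₀] Ω) → Pt W Ω, Coc W K c ∧ (∀ s ∈ K.fixingSubgroup, p • c s = 0) ∧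
    (∀ V : ValuationSubring Ω, V ≠ ⊤ → ∃ P : Pt W Ω, ∀ s ∈ K.fixingSubgroup, Dec V s →
      c s = ac W s P - P) ∧
    ¬ ∃ T : Pt W Ω, p • T = 0 ∧ ∀ s ∈ K.fixingSubgroup, c s = ac W s T - T

open Classical in
/-- The same with the algebraic closure of K. -/
def SelNonT {K : Type} [Field K] (W : WeierstrassCurve K) (p : ℕ) : Prop :=
  ∃ c : (AlgebraicClosure K ≃ₐ[K] AlgebraicClosure K) → Pt W (AlgebraicClosure K), Cocycle W c ∧
    (∀ s, p • c s = 0) ∧
    (∀ V : ValuationSubring (AlgebraicClosure K), V ≠ ⊤ → ∃ P, ∀ s, Dec V s → c s = ac W s P - P) ∧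
    ¬ ∃ T, p • T = 0 ∧ ∀ s, c s = ac W s T - T

theorem tr_core {k : Type} [Field k] (W : WeierstrassCurve k) (K : Type) [Field K]
    [Algebra k K] [FiniteDimensional k K] {Ω : Type} [Field Ω] [DecidableEq Ω] [Algebra k Ω]
    [IsAlgClosed Ω] [Algebra.IsAlgebraic k Ω] (ι : K →ₐ[k] Ω) [DecidableEq (AlgebraicClosure K)] :
    ∃ (Φ : Pt (W⁄K) (AlgebraicClosure K) ≃+ Pt W Ω)
      (hat : (AlgebraicClosure K ≃ₐ[K] AlgebraicClosure K) → (Ω ≃ₐ[k] Ω)),
      (∀ s t, hat (s * t) = hat s * hat t) ∧
      (∀ t, t ∈ ι.fieldRange.fixingSubgroup ↔ ∃ s, hat s = t) ∧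
      (∀ s P, Φ (ac (W⁄K) s P) = ac W (hat s) (Φ P)) ∧
      (∀ L' : IntermediateField k Ω, FiniteDimensional k L' →
        ∃ L : IntermediateField K (AlgebraicClosure K), FiniteDimensional K L ∧
          ∀ s ∈ L.fixingSubgroup, hat s ∈ L'.fixingSubgroup) ∧
      (∀ V' : ValuationSubring (AlgebraicClosure K), V' ≠ ⊤ → ∃ V : ValuationSubring Ω, V ≠ ⊤ ∧ ∀ s,
        Dec V' s → Dec V (hat s)) := by
  let algKΩ : Algebra K Ω := ι.toRingHom.toAlgebra
  have htow : IsScalarTower k K Ω := IsScalarTower.of_algebraMap_eq fun x => (ι.commutes x).symm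
  have halg : Algebra.IsAlgebraic K Ω := Algebra.IsAlgebraic.tower_top (K := k) K
  have hcl : IsAlgClosure K Ω := ⟨inferInstance, halg⟩
  let θ : AlgebraicClosure K ≃ₐ[K] Ω := IsAlgClosure.equiv K (AlgebraicClosure K) Ω
  let θk : AlgebraicClosure K ≃ₐ[k] Ω := θ.restrictScalars k
  obtain ⟨φ, hφ⟩ := base_iso (k := k) (F := K) (Ω := AlgebraicClosure K) W
  refine ⟨φ.symm.trans (z12_pt W θk), z12_hat θk, ?_, ?_, ?_, ?_, ?_⟩
  · intro s t
    apply AlgEquiv.ext
    intro x
    rw [AlgEquiv.mul_apply, z12_hat_apply, z12_hat_apply, z12_hat_apply, θk.symm_apply_apply,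
      AlgEquiv.mul_apply]
  · intro t
    rw [IntermediateField.mem_fixingSubgroup_iff]
    constructor
    · intro ht
      have h1 : ∀ x : K, t (algebraMap K Ω x) = algebraMap K Ω x := fun x => ht _ ⟨x, rfl⟩
      let tK : Ω ≃ₐ[K] Ω := AlgEquiv.ofRingEquiv (f := (t : Ω ≃+* Ω)) h1
      refine ⟨(θ.trans tK).trans θ.symm, AlgEquiv.ext fun x => ?_⟩
      rw [z12_hat_apply]
      show θ (θ.symm (t (θ (θ.symm x)))) = t x
      rw [θ.apply_symm_apply, θ.apply_symm_apply]
    · rintro ⟨s, rfl⟩ x ⟨y, rfl⟩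
      rw [z12_hat_apply]
      show θ (s (θ.symm (algebraMap K Ω y))) = algebraMap K Ω y
      rw [θ.symm.commutes, s.commutes, θ.commutes]
  · intro s P
    have h1 : φ.symm (ac (W⁄K) s P) = ac W (s.restrictScalars k) (φ.symm P) := by
      apply φ.injective
      rw [hφ, φ.apply_symm_apply, φ.apply_symm_apply]
    show z12_pt W θk (φ.symm (ac (W⁄K) s P)) = ac W (z12_hat θk s) (z12_pt W θk (φ.symm P))
    rw [h1]
    generalize φ.symm P = Q
    show Affine.Point.map (W' := W.toAffine) θk.toAlgHom
      (Affine.Point.map (W' := W.toAffine) (s.restrictScalars k).toAlgHom Q) =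
      Affine.Point.map (W' := W.toAffine) (z12_hat θk s).toAlgHom
        (Affine.Point.map (W' := W.toAffine) θk.toAlgHom Q)
    rw [Affine.Point.map_map, Affine.Point.map_map]
    congr 1
    congr 1
    ext x
    show θk (s x) = z12_hat θk s (θk x)
    rw [z12_hat_apply, θk.symm_apply_apply]
  · intro L' hL'
    obtain ⟨L'', hL'', h1⟩ := Z11_field (F := K) L'
    let e := IntermediateField.intermediateFieldMap θ.symm L''
    refine ⟨L''.map θ.symm.toAlgHom, Module.Finite.equiv e.toLinearEquiv, ?_⟩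
    intro s hs
    rw [IntermediateField.mem_fixingSubgroup_iff] at hs
    have h2 := h1 ((θ.symm.trans s).trans θ) (by
      rw [IntermediateField.mem_fixingSubgroup_iff]
      intro x hx
      show θ (s (θ.symm x)) = x
      rw [hs (θ.symm x) ⟨x, hx, rfl⟩, θ.apply_symm_apply])
    exact h2
  · intro V' hV'
    have hm : ∀ x, x ∈ V'.comap (θk.symm : Ω →+* AlgebraicClosure K) ↔ θk.symm x ∈ V' := fun x =>
      ValuationSubring.mem_comap
    refine ⟨V'.comap (θk.symm : Ω →+* AlgebraicClosure K), fun h => hV' ?_, fun s h x => ?_⟩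
    · refine eq_top_iff.2 fun x _ => ?_
      have h1 : θk x ∈ V'.comap (θk.symm : Ω →+* AlgebraicClosure K) := by
        rw [h]
        exact ValuationSubring.mem_top _
      rwa [hm, θk.symm_apply_apply] at h1
    · rw [hm, hm, z12_hat_apply, θk.symm_apply_apply]
      exact h (θk.symm x)

/-- Chunk TR1 (S/M, port of z12_core and sel_transport in H55P/Z12.lean, in the other direction: c' s = Φ⁻¹ (c (hat s)); the valuation ring V' of the algebraic closure of K corresponds to V = its image under θk (comap of θk.symm), Dec V' s iff Dec V (hat s); a finite subfield of Ω over k corresponds to one of the algebraic closure over K: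
adjoin K of the images of a basis under θk.symm (as Z11_field)). -/
theorem non_transport {k : Type} [Field k] (W : WeierstrassCurve k) (p : ℕ) (K : Type) [Field K]
    [Algebra k K] [FiniteDimensional k K] {Ω : Type} [Field Ω] [DecidableEq Ω] [Algebra k Ω]
    [IsAlgClosed Ω] [Algebra.IsAlgebraic k Ω] (ι : K →ₐ[k] Ω) (hS : SelNon W p ι.fieldRange) :
    SelNonT (W⁄K) p := by
  classical
  unfold SelNonT
  obtain ⟨c, hc, hp, hV, hT⟩ := hS
  obtain ⟨Φ, hat, hmul, hfix, hact, hfield, hval⟩ := tr_core W K ι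
  have hmem : ∀ s, hat s ∈ ι.fieldRange.fixingSubgroup := fun s => (hfix _).2 ⟨s, rfl⟩
  have hact' : ∀ s P, Φ.symm (ac W (hat s) P) = ac (W⁄K) s (Φ.symm P) := by
    intro s P
    apply Φ.injective
    rw [hact, Φ.apply_symm_apply, Φ.apply_symm_apply]
  refine ⟨fun s => Φ.symm (c (hat s)), ⟨?_, ?_⟩, ?_, ?_, ?_⟩
  · intro s t
    show Φ.symm (c (hat (s * t))) = Φ.symm (c (hat s)) + ac (W⁄K) s (Φ.symm (c (hat t)))
    rw [hmul, hc.mul _ (hmem s) _ (hmem t), map_add, hact']
  · obtain ⟨L', hL', hLc⟩ := hc.cont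
    obtain ⟨L, hL, h1⟩ := hfield L' hL'
    refine ⟨L, hL, ?_⟩
    intro s hs
    show Φ.symm (c (hat s)) = 0
    rw [hLc _ (hmem s) (h1 s hs), map_zero]
  · intro s
    show p • Φ.symm (c (hat s)) = 0
    rw [← map_nsmul, hp _ (hmem s), map_zero]
  · intro V' hV'
    obtain ⟨V, hVt, h1⟩ := hval V' hV'
    obtain ⟨P, hP⟩ := hV V hVt
    refine ⟨Φ.symm P, ?_⟩
    intro s hs
    show Φ.symm (c (hat s)) = _
    rw [hP _ (hmem s) (h1 s hs), map_sub, hact']
  · rintro ⟨T, hpT, hcT⟩
    apply hT
    refine ⟨Φ T, ?_, ?_⟩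
    · rw [← map_nsmul, hpT, map_zero]
    · intro t ht
      obtain ⟨s, rfl⟩ := (hfix _).1 ht
      have h1 : Φ.symm (c (hat s)) = ac (W⁄K) s T - T := hcT s
      have h2 := congrArg Φ h1
      rwa [Φ.apply_symm_apply, map_sub, hact] at h2

/-- Chunk TR2 (S). A nonzero classical class excludes SelTriv: Inert V s implies Dec V s (H13S.git_dec or qv_dec, here for general fields: if x in V then s x = x + (s x - x) in V; conversely if s x in V and x not in V then x⁻¹ in V with value < 1 and s x⁻¹ = x⁻¹ + small has value < 1); for V = ⊤ Inert V s means s = 1 and c 1 = 0 (see S6.lean). -/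
theorem not_selTriv {K : Type} [Field K] (W : WeierstrassCurve K) (p : ℕ) (h : SelNonT W p) :
    ¬ SelTriv W p := by
  classical
  intro hS
  obtain ⟨c, hc, hp, hV, hT⟩ := h
  apply hT
  apply hS c hc hp
  intro V
  by_cases hVt : V = ⊤
  · refine ⟨0, fun s hi => ?_⟩
    have h1 : s = 1 := by
      refine AlgEquiv.ext fun x => ?_
      have h2 := hi x (hVt ▸ ValuationSubring.mem_top x)
      rw [lt1_iff, hVt] at h2
      rcases h2 with h2 | h2
      · exact sub_eq_zero.1 h2
      · exact absurd (ValuationSubring.mem_top _) h2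
    obtain ⟨L, hL, hLc⟩ := hc.cont
    rw [h1, hLc 1 (one_mem _), map_zero, sub_zero]
  · obtain ⟨P, hP⟩ := hV V hVt
    exact ⟨P, fun s hi => hP s (inert_dec V s hi)⟩

open Classical in
theorem tr_fixed {K : Type} [Field K] [CharZero K] (W : WeierstrassCurve K) (P : Pt W (AlgebraicClosure K))
    (h : ∀ s, ac W s P = P) :
    ∃ Q : Pt W K, Affine.Point.map (W' := W.toAffine) (Algebra.ofId K (AlgebraicClosure K)) Q = P := by
  have hgal : IsGalois K (AlgebraicClosure K) := { }
  have hfx : ∀ x : AlgebraicClosure K, (∀ s : AlgebraicClosure K ≃ₐ[K] AlgebraicClosure K, s x = x) →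
      ∃ x0 : K, algebraMap K (AlgebraicClosure K) x0 = x := by
    intro x hx
    have h1 : x ∈ IntermediateField.fixedField (⊤ : Subgroup (AlgebraicClosure K ≃ₐ[K] AlgebraicClosure K)) := by
      rw [IntermediateField.mem_fixedField_iff]
      intro s _
      exact hx s
    have h2 := InfiniteGalois.fixedField_fixingSubgroup (⊥ : IntermediateField K (AlgebraicClosure K))
    rw [IntermediateField.fixingSubgroup_bot] at h2
    rw [h2] at h1
    exact IntermediateField.mem_bot.1 h1
  cases P with
  | zero => exact ⟨0, map_zero _⟩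
  | some x y hxy =>
    obtain ⟨x0, rfl⟩ := hfx x (fun s => by
      have h1 := h s
      unfold ac at h1
      rw [Affine.Point.map_some] at h1
      exact (Affine.Point.some.inj h1).1)
    obtain ⟨y0, rfl⟩ := hfx y (fun s => by
      have h1 := h s
      unfold ac at h1
      rw [Affine.Point.map_some] at h1
      exact (Affine.Point.some.inj h1).2)
    have h2 : (W⁄K).toAffine.Nonsingular x0 y0 := by
      have h3 := Affine.baseChange_nonsingular W.toAffine (f := Algebra.ofId K (AlgebraicClosure K))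
        (RingHom.injective (Algebra.ofId K (AlgebraicClosure K)).toRingHom) x0 y0
      exact h3.1 hxy
    exact ⟨.some _ _ h2, rfl⟩

open Classical in
theorem tr_divp {K : Type} [Field K] (W : WeierstrassCurve K) (p : ℕ) (hp : p.Prime)
    (hf : Finite W.toAffine.Point) (hc : ¬ p ∣ Nat.card W.toAffine.Point) (Q : Pt W K) :
    ∃ R : Pt W K, p • R = Q := by
  have hW : W⁄K = W := WeierstrassCurve.map_id W
  have hf' : Finite (Pt W K) := by
    have : Finite (W⁄K).toAffine.Point := by rw [hW]; exact hf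
    exact this
  have hc' : ¬ p ∣ Nat.card (Pt W K) := by
    have : Nat.card (W⁄K).toAffine.Point = Nat.card W.toAffine.Point := by rw [hW]
    rw [← this] at hc
    exact hc
  have hco : (Nat.card (Pt W K)).Coprime p := ((Nat.Prime.coprime_iff_not_dvd hp).2 hc').symm
  exact ⟨_, (nsmulCoprime hco).apply_symm_apply Q⟩

open Classical in
/-- Chunk TR3 (S/M). The class is either in the image of a point of infinite order or gives a nonzero element of order p of the Tate-Shafarevich group: if ShaTriv W p then (c is killed by p: Q = 0) c s = ac s P - P for all s; p • P =: Q is fixed by all s. If the group of points over K is finite of order prime to p: Q comes from a point Q' over K (fixed points of the Galois group are the points over K: see pts_fin in H55P, or coordinates fixed by the Galois group lie in K),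
Q' = p • R' with R' over K, T = P - R: p • T = 0, c s = ac s T - T: contradiction. -/
theorem sha_or_point {K : Type} [Field K] [CharZero K] (W : WeierstrassCurve K) (p : ℕ) (hp : p.Prime)
    (h : SelNonT W p) (hf : Finite W.toAffine.Point) (hc : ¬ p ∣ Nat.card W.toAffine.Point) :
    ¬ ShaTriv W p := by
  intro hS
  obtain ⟨c, hco, hpc, hV, hT⟩ := h
  obtain ⟨P, hP⟩ := hS c hco ⟨0, fun s => by rw [hpc, map_zero, sub_zero]⟩ hV
  have hfix : ∀ s, ac W s (p • P) = p • P := by
    intro s
    have h1 := hpc s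
    rw [hP s, smul_sub, sub_eq_zero] at h1
    rw [map_nsmul]
    exact h1
  obtain ⟨Q, hQ⟩ := tr_fixed W (p • P) hfix
  obtain ⟨R, hR⟩ := tr_divp W p hp hf hc Q
  apply hT
  refine ⟨P - Affine.Point.map (W' := W.toAffine) (Algebra.ofId K (AlgebraicClosure K)) R, ?_, ?_⟩
  · rw [smul_sub, ← map_nsmul, hR, hQ, sub_self]
  · intro s
    have h2 : ac W s (Affine.Point.map (W' := W.toAffine) (Algebra.ofId K (AlgebraicClosure K)) R) =
        Affine.Point.map (W' := W.toAffine) (Algebra.ofId K (AlgebraicClosure K)) R := by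
      unfold ac
      rw [Affine.Point.map_map]
      congr 2
      exact Subsingleton.elim _ _
    rw [hP s, map_sub, h2]
    abel

end H13Z
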