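import Mathlib
import Pool.Agent.Lib.H1M.PP.D_H55P_Sel
import Pool.Agent.Lib.H1M.PP.M002
import Pool.Agent.Lib.H1M.PP.M003
import Pool.Agent.Lib.H1M.PP.M005
import Pool.Agent.Lib.H1M.PP.M006
import Pool.Agent.Lib.H1M.PP.M009
import Pool.Agent.Lib.H1M.PP.M010
import Pool.Agent.Lib.H1M.PP.M011
import Pool.Agent.Lib.H1M.PP.M014
import Pool.Agent.Lib.H1M.PP.M016

/-! Merged copies (to shorten the build) of Lib.H13E.S2, Lib.H13E.S3, Lib.H55N.S1, Lib.H55D.X3, Lib.H55P.Z14. -/

-- from Lib.H13E.S2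
section

open NumberField IsDedekindDomain

namespace H13E

open H55B H35T

/-! Chunk S2 (M): the Selmer group Sel over K₀, K/K₀ of degree 2. m in Sel K₀; m' = qmap (algebraMap K₀ K) m is in Sel K: unit; norm: Algebra.norm of a + b T is a^2 + b^2 (basis 1, T of
AdjoinRoot (X^2 + 1)), so the norm of m' is the image of the norm of m; local condition at a prime w of K: w' below, iota : completion of K₀ at w' -> completion of K at w
(H55C.exists_iota) maps a point (x, y) and b (by qmap iota) for m to such a point for m' (qmap is functorial: compare on of x and root; iota (algebraMap x) = algebraMap (algebraMap x)). So m' = b'^3 in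
Qd K. descend: K = K₀ + K₀ z with z any element outside K₀; the algebra Qd K is free of rank 2 over Qd K₀ and has the involution c on coefficients (c the nontrivial automorphism of
K/K₀; K/K₀ of degree 2 in characteristic 0 is Galois); m' is fixed by it, so m'^2 = (b' c(b'))^3 and b' c(b') is fixed, so it is the image of an element d of Qd K₀ (coefficients in K fixed by c are in K₀); so
m^2 = d^3 (injectivity of Qd K₀ -> Qd K) and m = m^3/m^2 = (m d⁻¹)^3 (m, hence d, is a unit). -/

theorem S2_qmap_of {k k' : Type} [Field k] [Field k'] (f : k →+* k') (x : k) :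
    qmap f (AdjoinRoot.of _ x) = AdjoinRoot.of _ (f x) := by
  unfold qmap
  exact AdjoinRoot.map_of _ _ _ _ x

theorem S2_qmap_root {k k' : Type} [Field k] [Field k'] (f : k →+* k') :
    qmap f (AdjoinRoot.root _) = AdjoinRoot.root _ := by
  unfold qmap
  exact AdjoinRoot.map_root _ _ _ _

theorem S2_qmap_comp {k k' k'' : Type} [Field k] [Field k'] [Field k''] (f : k →+* k')
    (g : k' →+* k'') (h : k →+* k'') (hh : ∀ x, g (f x) = h x) (m : Qd k) :
    qmap g (qmap f m) = qmap h m := by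
  obtain ⟨a, b, rfl⟩ := SG_repr (c := (1 : k)) rfl m
  rw [map_add, map_mul, S2_qmap_of, S2_qmap_of, S2_qmap_root, map_add, map_mul, S2_qmap_of,
    S2_qmap_of, S2_qmap_root, map_add, map_mul, S2_qmap_of, S2_qmap_of, S2_qmap_root, hh, hh]

theorem S2_norm {k k' : Type} [Field k] [Field k'] (f : k →+* k') (m : Qd k) :
    Algebra.norm k' (qmap f m) = f (Algebra.norm k m) := by
  obtain ⟨a, b, rfl⟩ := SG_repr (c := (1 : k)) rfl m
  rw [map_add (qmap f), map_mul (qmap f), S2_qmap_of, S2_qmap_of, S2_qmap_root,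
    SG_norm (c := (1 : k')) rfl, SG_norm (c := (1 : k)) rfl, map_add, map_mul, map_pow, map_pow,
    map_one]

/-- The prime below. -/
theorem S2_below (K₀ K : Type) [Field K₀] [NumberField K₀] [Field K] [NumberField K] [Algebra K₀ K]
    (w : HeightOneSpectrum (𝓞 K)) :
    ∃ w' : HeightOneSpectrum (𝓞 K₀), w'.asIdeal = w.asIdeal.under (𝓞 K₀) := by
  haveI := w.isPrime
  refine ⟨⟨w.asIdeal.under (𝓞 K₀), inferInstance, ?_⟩, rfl⟩
  exact Ideal.under_ne_bot (𝓞 K₀) w.ne_bot

theorem sel_sub (K₀ K : Type) [Field K₀] [NumberField K₀] [Field K] [NumberField K] [Algebra K₀ K]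
    (hd : Module.finrank K₀ K = 2) (h : ∀ m ∈ Sel K, ∃ b : Qd K, m = b ^ 3) :
    ∀ m ∈ Sel K₀, ∃ b : Qd K₀, m = b ^ 3 := by
  intro m hm
  obtain ⟨hu, ⟨n, hn⟩, hloc⟩ := hm
  have hm' : qmap (algebraMap K₀ K) m ∈ Sel K := by
    refine ⟨hu.map _, ⟨algebraMap K₀ K n, ?_⟩, ?_⟩
    · rw [S2_norm, hn, map_pow]
    · intro w
      obtain ⟨w', hw'⟩ := S2_below K₀ K w
      obtain ⟨ι, e, he, hι, -⟩ := H55C.exists_iota K₀ K w w' hw'
      obtain ⟨x, y, hxy, hx, b, hb⟩ := hloc w'
      refine ⟨ι x, ι y, ?_, ?_, qmap ι b, ?_⟩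
      · rw [← map_pow, hxy, map_sub, map_pow, map_one]
      · exact (map_ne_zero ι).2 hx
      · rw [← map_pow, ← hb, map_mul, map_sub, S2_qmap_of, S2_qmap_root]
        congr 1
        rw [S2_qmap_comp (algebraMap K₀ (w'.adicCompletion K₀)) ι
          (ι.comp (algebraMap K₀ (w'.adicCompletion K₀))) (fun _ => rfl)]
        rw [S2_qmap_comp (algebraMap K₀ K) (algebraMap K (w.adicCompletion K))
          (ι.comp (algebraMap K₀ (w'.adicCompletion K₀))) (fun x => (hι x).symm)]
  exact SG_desc hd (c₀ := (1 : K₀)) (c := (1 : K)) rfl rfl (map_one _).symm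
    (qmap (algebraMap K₀ K)) (S2_qmap_of _) (S2_qmap_root _) m hu (h _ hm')

end H13E
end

-- from Lib.H13E.S3
section

open NumberField IsDedekindDomain

namespace H13E

open H55B H35T

/-! Chunk S3 (M): the Selmer group SelE. selE_K: over a field K which contains om (s = image of sq3 = 2 om + 1, s^2 = -3): the K-algebra isomorphism psi : Qe K -> Qd K, root -> s^3 root (s^6 = -27,
(s^3 T)^2 = -27 * (-1) = 27), inverse root -> s^(-3) root. m in SelE K: psi m is in Sel K: unit; norm (AlgEquiv preserves the norm: Algebra.norm_eq_of_algEquiv); locally: the same isomorphism over the completion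
(compatible with emap and qmap); a point (x, y) on y^2 = x^3 + 27 gives (x/s^2, y/s^3) on y^2 = x^3 - 1 ((x/s^2)^3 = x^3/s^6 = -x^3/27, (y/s^3)^2 = -y^2/27), x/s^2 nonzero, and y - s^3 T = s^3 (y/s^3 - T) with
s^3 a cube: psi(m (y - root)) = b^3 gives psi m (y/s^3 - T) = (b/s)^3. So psi m is a cube and m is a cube. selE_sub: as in chunk S2 for Qe (norm of a + b T is a^2 - 27 b^2). -/

theorem S3_poly (k : Type) [Field k] :
    (Polynomial.X ^ 2 - Polynomial.C 27 : Polynomial k) = Polynomial.X ^ 2 + Polynomial.C (-27) := by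
  rw [map_neg, sub_eq_add_neg]

theorem S3_emap_of {k k' : Type} [Field k] [Field k'] (f : k →+* k') (x : k) :
    emap f (AdjoinRoot.of _ x) = AdjoinRoot.of _ (f x) := by
  unfold emap
  exact AdjoinRoot.map_of _ _ _ _ x

theorem S3_emap_root {k k' : Type} [Field k] [Field k'] (f : k →+* k') :
    emap f (AdjoinRoot.root _) = AdjoinRoot.root _ := by
  unfold emap
  exact AdjoinRoot.map_root _ _ _ _

theorem S3_emap_comp {k k' k'' : Type} [Field k] [Field k'] [Field k''] (f : k →+* k')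
    (g : k' →+* k'') (h : k →+* k'') (hh : ∀ x, g (f x) = h x) (m : Qe k) :
    emap g (emap f m) = emap h m := by
  obtain ⟨a, b, rfl⟩ := SG_repr (S3_poly k) m
  rw [map_add, map_mul, S3_emap_of, S3_emap_of, S3_emap_root, map_add, map_mul, S3_emap_of,
    S3_emap_of, S3_emap_root, map_add, map_mul, S3_emap_of, S3_emap_of, S3_emap_root, hh, hh]

theorem S3_norm {k k' : Type} [Field k] [Field k'] (f : k →+* k') (m : Qe k) :
    Algebra.norm k' (emap f m) = f (Algebra.norm k m) := by
  obtain ⟨a, b, rfl⟩ := SG_repr (S3_poly k) m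
  rw [map_add (emap f), map_mul (emap f), S3_emap_of, S3_emap_of, S3_emap_root,
    SG_norm (S3_poly k'), SG_norm (S3_poly k), map_add, map_mul, map_pow, map_pow,
    map_neg, map_ofNat]

theorem S3_ev {k : Type} [Field k] (s : k) (hs : s ^ 2 = -3) :
    (Polynomial.X ^ 2 - Polynomial.C 27 : Polynomial k).eval₂
      (AdjoinRoot.of (Polynomial.X ^ 2 + Polynomial.C 1 : Polynomial k))
      (AdjoinRoot.of _ (s ^ 3) * AdjoinRoot.root _) = 0 := by
  rw [Polynomial.eval₂_sub, Polynomial.eval₂_pow, Polynomial.eval₂_X, Polynomial.eval₂_C, mul_pow,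
    SG_root (c := (1 : k)) rfl, ← map_pow]
  have : (s ^ 3) ^ 2 = (-27 : k) := by
    have : (s ^ 3) ^ 2 = (s ^ 2) ^ 3 := by ring
    rw [this, hs]
    norm_num
  have h1 : AdjoinRoot.of (Polynomial.X ^ 2 + Polynomial.C 1 : Polynomial k) 1 = 1 := map_one _
  rw [this, h1, map_neg]
  ring

/-- The map psi. -/
noncomputable def psi {k : Type} [Field k] (s : k) (hs : s ^ 2 = -3) : Qe k →+* Qd k :=
  AdjoinRoot.lift (AdjoinRoot.of _) (AdjoinRoot.of _ (s ^ 3) * AdjoinRoot.root _) (S3_ev s hs)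

theorem psi_of {k : Type} [Field k] (s : k) (hs : s ^ 2 = -3) (x : k) :
    psi s hs (AdjoinRoot.of _ x) = AdjoinRoot.of _ x := by
  unfold psi
  rw [AdjoinRoot.lift_of]

theorem psi_root {k : Type} [Field k] (s : k) (hs : s ^ 2 = -3) :
    psi s hs (AdjoinRoot.root _) = AdjoinRoot.of _ (s ^ 3) * AdjoinRoot.root _ := by
  unfold psi
  rw [AdjoinRoot.lift_root]

theorem psi_norm {k : Type} [Field k] (s : k) (hs : s ^ 2 = -3) (m : Qe k) :
    Algebra.norm k (psi s hs m) = Algebra.norm k m := by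
  obtain ⟨a, b, rfl⟩ := SG_repr (S3_poly k) m
  have h1 : psi s hs (AdjoinRoot.of _ a + AdjoinRoot.of _ b * AdjoinRoot.root _) =
      AdjoinRoot.of _ a + AdjoinRoot.of _ (b * s ^ 3) * AdjoinRoot.root _ := by
    rw [map_add, map_mul, psi_of, psi_of, psi_root, map_mul, mul_assoc]
  rw [h1, SG_norm (c := (1 : k)) rfl, SG_norm (S3_poly k)]
  have : (s ^ 3) ^ 2 = (-27 : k) := by
    have : (s ^ 3) ^ 2 = (s ^ 2) ^ 3 := by ring
    rw [this, hs]
    norm_num
  rw [mul_pow, this]
  ring

theorem psi_cube {k : Type} [Field k] [CharZero k] (s : k) (hs : s ^ 2 = -3) (m : Qe k)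
    (h : ∃ b, psi s hs m = b ^ 3) : ∃ b, m = b ^ 3 := by
  have hs0 : s ≠ 0 := by
    rintro rfl
    have : (3 : k) = 0 := by linear_combination hs
    exact three_ne_zero this
  obtain ⟨b, hb⟩ := h
  obtain ⟨c, d, rfl⟩ := SG_repr (c := (1 : k)) rfl b
  refine ⟨AdjoinRoot.of _ c + AdjoinRoot.of _ (d / s ^ 3) * AdjoinRoot.root _, ?_⟩
  have hinj : Function.Injective (psi s hs) := by
    rw [injective_iff_map_eq_zero]
    intro z hz
    obtain ⟨a, b, rfl⟩ := SG_repr (S3_poly k) z
    have h1 : AdjoinRoot.of (Polynomial.X ^ 2 + Polynomial.C 1 : Polynomial k) a +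
        AdjoinRoot.of _ (b * s ^ 3) * AdjoinRoot.root _ = 0 := by
      rw [map_mul (AdjoinRoot.of _) b, ← hz, map_add (psi s hs), map_mul (psi s hs), psi_of, psi_of,
        psi_root, mul_assoc]
    obtain ⟨ha, hb⟩ := SG_indep (c := (1 : k)) rfl h1
    have hb' : b = 0 := by
      rcases mul_eq_zero.1 hb with h | h
      · exact h
      · exact absurd h (pow_ne_zero 3 hs0)
    rw [ha, hb', map_zero, zero_mul, add_zero]
  apply hinj
  rw [hb, map_pow, map_add, map_mul, psi_of, psi_of, psi_root]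
  have h2 : d = d / s ^ 3 * s ^ 3 := by
    field_simp
  conv_lhs => rw [h2]
  rw [map_mul (AdjoinRoot.of _) (d / s ^ 3), mul_assoc]

theorem psi_comp {k k' : Type} [Field k] [Field k'] (f : k →+* k') (s : k) (hs : s ^ 2 = -3)
    (s' : k') (hs' : s' ^ 2 = -3) (h : f s = s') (m : Qe k) :
    qmap f (psi s hs m) = psi s' hs' (emap f m) := by
  obtain ⟨a, b, rfl⟩ := SG_repr (S3_poly k) m
  rw [map_add, map_mul, psi_of, psi_of, psi_root, map_add, map_mul, map_mul, S2_qmap_of, S2_qmap_of,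
    S2_qmap_of, S2_qmap_root, map_add, map_mul, S3_emap_of, S3_emap_of, S3_emap_root, map_add,
    map_mul, psi_of, psi_of, psi_root, map_pow f, h]

theorem selE_K (K : Type) [Field K] [NumberField K] [Algebra F K]
    (h : ∀ m ∈ Sel K, ∃ b : Qd K, m = b ^ 3) : ∀ m ∈ SelE K, ∃ b : Qe K, m = b ^ 3 := by
  obtain ⟨s, hs⟩ : ∃ s : K, s ^ 2 = -3 := by
    refine ⟨algebraMap F K (algebraMap O F (2 * om + 1)), ?_⟩
    rw [← map_pow, ← map_pow]
    have : (2 * om + 1 : O) ^ 2 = -3 := by
      have := om_rel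
      linear_combination 4 * this
    rw [this, map_neg, map_neg, map_ofNat, map_ofNat]
  intro m hm
  obtain ⟨hu, ⟨n, hn⟩, hloc⟩ := hm
  apply psi_cube s hs
  apply h
  refine ⟨hu.map _, ⟨n, ?_⟩, ?_⟩
  · rw [psi_norm, hn]
  · intro w
    obtain ⟨x, y, hxy, hx, b, hb⟩ := hloc w
    set f := algebraMap K (w.adicCompletion K) with hf
    have hs' : (f s) ^ 2 = -3 := by
      rw [← map_pow, hs, map_neg, map_ofNat]
    have h3 : (3 : w.adicCompletion K) ≠ 0 := by
      have : (3 : w.adicCompletion K) = f 3 := (map_ofNat f 3).symm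
      rw [this]
      exact (map_ne_zero f).2 three_ne_zero
    have hs0 : f s ≠ 0 := by
      intro h0
      rw [h0] at hs'
      apply h3
      linear_combination hs'
    have h6 : (f s) ^ 6 = -27 := by
      have : (f s) ^ 6 = ((f s) ^ 2) ^ 3 := by ring
      rw [this, hs']
      norm_num
    refine ⟨x / (f s) ^ 2, y / (f s) ^ 3, ?_, div_ne_zero hx (pow_ne_zero 2 hs0),
      psi (f s) hs' b * AdjoinRoot.of _ (f s)⁻¹, ?_⟩
    · rw [div_pow, div_pow, ← pow_mul, ← pow_mul, hxy, h6]
      have h27 : (27 : w.adicCompletion K) ≠ 0 := by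
        have : (27 : w.adicCompletion K) = 3 ^ 3 := by norm_num
        rw [this]
        exact pow_ne_zero 3 h3
      field_simp
      ring
    · have h1 := congrArg (psi (f s) hs') hb
      rw [map_mul, map_sub, psi_of, psi_root, map_pow (psi (f s) hs'),
        ← psi_comp f s hs (f s) hs' rfl] at h1
      rw [mul_pow, ← h1]
      have h2 : AdjoinRoot.of (Polynomial.X ^ 2 + Polynomial.C 1 : Polynomial (w.adicCompletion K)) y =
          AdjoinRoot.of _ ((f s) ^ 3) * AdjoinRoot.of _ (y / (f s) ^ 3) := by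
        rw [← map_mul]
        congr 1
        field_simp
      have h4 : AdjoinRoot.of (Polynomial.X ^ 2 + Polynomial.C 1 : Polynomial (w.adicCompletion K))
          ((f s) ^ 3) * AdjoinRoot.of _ (f s)⁻¹ ^ 3 = 1 := by
        rw [← map_pow (AdjoinRoot.of _) (f s)⁻¹ 3, ← map_mul, inv_pow,
          mul_inv_cancel₀ (pow_ne_zero 3 hs0)]
        exact map_one _
      rw [h2]
      linear_combination (-(qmap f (psi s hs m)) * (AdjoinRoot.of _ (y / (f s) ^ 3) -
        AdjoinRoot.root _)) * h4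

theorem selE_sub (K₀ K : Type) [Field K₀] [NumberField K₀] [Field K] [NumberField K] [Algebra K₀ K]
    (hd : Module.finrank K₀ K = 2) (h : ∀ m ∈ SelE K, ∃ b : Qe K, m = b ^ 3) :
    ∀ m ∈ SelE K₀, ∃ b : Qe K₀, m = b ^ 3 := by
  intro m hm
  obtain ⟨hu, ⟨n, hn⟩, hloc⟩ := hm
  have hm' : emap (algebraMap K₀ K) m ∈ SelE K := by
    refine ⟨hu.map _, ⟨algebraMap K₀ K n, ?_⟩, ?_⟩
    · rw [S3_norm, hn, map_pow]
    · intro w
      obtain ⟨w', hw'⟩ := S2_below K₀ K w
      obtain ⟨ι, e, he, hι, -⟩ := H55C.exists_iota K₀ K w w' hw'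
      obtain ⟨x, y, hxy, hx, b, hb⟩ := hloc w'
      refine ⟨ι x, ι y, ?_, ?_, emap ι b, ?_⟩
      · rw [← map_pow, hxy, map_add, map_pow, map_ofNat]
      · exact (map_ne_zero ι).2 hx
      · rw [← map_pow, ← hb, map_mul, map_sub, S3_emap_of, S3_emap_root]
        congr 1
        rw [S3_emap_comp (algebraMap K₀ (w'.adicCompletion K₀)) ι
          (ι.comp (algebraMap K₀ (w'.adicCompletion K₀))) (fun _ => rfl)]
        rw [S3_emap_comp (algebraMap K₀ K) (algebraMap K (w.adicCompletion K))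
          (ι.comp (algebraMap K₀ (w'.adicCompletion K₀))) (fun x => (hι x).symm)]
  exact SG_desc hd (S3_poly K₀) (S3_poly K) (by rw [map_neg, map_ofNat])
    (emap (algebraMap K₀ K)) (S3_emap_of _) (S3_emap_root _) m hu (h _ hm')

end H13E
end

-- from Lib.H55N.S1
section

open NumberField IsDedekindDomain

namespace H55N

open H55B H55C

theorem S1_elt {K : Type} [Field K] [NumberField K] [Algebra F K] (θ : 𝓞 K)
    (hθ : Algebra.adjoin F {(θ : K)} = ⊤) (z : 𝓞 K) :
    ∃ d : O, d ≠ 0 ∧ ∃ P : Polynomial O, algebraMap O (𝓞 K) d * z = Polynomial.aeval θ P := by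
  have hz : (z : K) ∈ Algebra.adjoin F {(θ : K)} := by rw [hθ]; trivial
  rw [Algebra.adjoin_singleton_eq_range_aeval] at hz
  obtain ⟨p, hp⟩ := hz
  obtain ⟨b, hb0, hb⟩ := IsLocalization.integerNormalization_spec (nonZeroDivisors O) p
  refine ⟨b, nonZeroDivisors.ne_zero hb0, IsLocalization.integerNormalization (nonZeroDivisors O) p, ?_⟩
  apply RingOfIntegers.coe_injective
  have h1 : algebraMap (𝓞 K) K (Polynomial.aeval θ
      (IsLocalization.integerNormalization (nonZeroDivisors O) p)) =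
      Polynomial.aeval (θ : K) (IsLocalization.integerNormalization (nonZeroDivisors O) p) :=
    (Polynomial.aeval_algebraMap_apply K θ _).symm
  have h2 : (Polynomial.aeval (θ : K)) p = (z : K) := hp
  have h3 : Polynomial.map (algebraMap O F)
      (IsLocalization.integerNormalization (nonZeroDivisors O) p) =
      Polynomial.C (algebraMap O F b) * p := by
    rw [hb]
    ext n
    rw [Polynomial.coeff_smul, Polynomial.coeff_C_mul, Algebra.smul_def]
  rw [h1, ← Polynomial.aeval_map_algebraMap F, h3, map_mul, map_mul, Polynomial.aeval_C, h2]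
  rfl

theorem S1_fg {K : Type} [Field K] [NumberField K] [Algebra F K] (θ : 𝓞 K)
    (hθ : Algebra.adjoin F {(θ : K)} = ⊤) :
    ∃ d : O, d ≠ 0 ∧ ∀ z : 𝓞 K, ∃ P : Polynomial O,
      algebraMap O (𝓞 K) d * z = Polynomial.aeval θ P := by
  have h := Submodule.fg_induction (R := O) (M := 𝓞 K)
      (motive := fun N _ => ∃ d : O, d ≠ 0 ∧ ∀ z ∈ N, ∃ P : Polynomial O,
      algebraMap O (𝓞 K) d * z = Polynomial.aeval θ P) ?_ ?_ ⊤ Module.Finite.fg_top
  · obtain ⟨d, hd, h⟩ := h
    exact ⟨d, hd, fun z => h z trivial⟩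
  · intro x
    obtain ⟨d, hd, P, hP⟩ := S1_elt θ hθ x
    refine ⟨d, hd, fun z hz => ?_⟩
    obtain ⟨c, rfl⟩ := Submodule.mem_span_singleton.1 hz
    refine ⟨Polynomial.C c * P, ?_⟩
    rw [map_mul, Polynomial.aeval_C, ← hP, Algebra.smul_def]
    ring
  · rintro M₁ M₂ _ _ ⟨d₁, hd₁, h₁⟩ ⟨d₂, hd₂, h₂⟩
    refine ⟨d₁ * d₂, mul_ne_zero hd₁ hd₂, fun z hz => ?_⟩
    obtain ⟨x, hx, y, hy, rfl⟩ := Submodule.mem_sup.1 hz
    obtain ⟨P, hP⟩ := h₁ x hx
    obtain ⟨Q, hQ⟩ := h₂ y hy
    refine ⟨Polynomial.C d₂ * P + Polynomial.C d₁ * Q, ?_⟩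
    have e1 : Polynomial.aeval θ (Polynomial.C d₂ * P) =
        algebraMap O (𝓞 K) d₂ * (algebraMap O (𝓞 K) d₁ * x) := by
      rw [map_mul, Polynomial.aeval_C, hP]
    have e2 : Polynomial.aeval θ (Polynomial.C d₁ * Q) =
        algebraMap O (𝓞 K) d₁ * (algebraMap O (𝓞 K) d₂ * y) := by
      rw [map_mul, Polynomial.aeval_C, hQ]
    rw [map_add, e1, e2, map_mul]
    ring

/-- Chunk S1 (M), residue degree one. There is d in O, d <> 0, such that for all z in 𝓞 K: d z = P(theta) with P in O[X] (𝓞 K is a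
finitely generated O-module, each generator is a polynomial in theta with coefficients in F; take a common denominator). If w contains
theta + a and v (below w) does not contain d, then z = d^(-1) P(-a) modulo w, so O -> 𝓞 K / w is surjective, and
O/v -> 𝓞 K/w is an isomorphism: the inertia degree is 1 (Ideal.inertiaDeg is the finrank of the residue extension; here
w.asIdeal.inertiaDeg O is defined with the ideal below; see how H55C or H35T compute inertia degrees, or use
absNorm_inertia: absNorm w = (absNorm v)^inertiaDeg). -/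
theorem deg_one {K : Type} [Field K] [NumberField K] [Algebra F K] (θ : 𝓞 K)
    (hθ : Algebra.adjoin F {(θ : K)} = ⊤) :
    ∃ d : O, d ≠ 0 ∧ ∀ (w : HeightOneSpectrum (𝓞 K)) (v : HeightOneSpectrum O),
      v.asIdeal = w.asIdeal.under O → d ∉ v.asIdeal →
      ∀ a : O, θ + algebraMap O (𝓞 K) a ∈ w.asIdeal → w.asIdeal.inertiaDeg O = 1 := by
  obtain ⟨d, hd, h⟩ := S1_fg θ hθ
  refine ⟨d, hd, fun w v hv hdv a ha => ?_⟩
  let ψ : O →+* 𝓞 K ⧸ w.asIdeal := (Ideal.Quotient.mk w.asIdeal).comp (algebraMap O (𝓞 K))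
  have hker : RingHom.ker ψ = v.asIdeal := by
    rw [hv]
    ext x
    rw [RingHom.mem_ker, RingHom.comp_apply, Ideal.Quotient.eq_zero_iff_mem, Ideal.under_def,
      Ideal.mem_comap]
  have hsurj : Function.Surjective ψ := by
    intro t
    obtain ⟨z, rfl⟩ := Ideal.Quotient.mk_surjective t
    obtain ⟨P, hP⟩ := h z
    have hm := v.isMaximal
    obtain ⟨d', i, hi, hd'⟩ := Ideal.IsMaximal.exists_inv hm hdv
    refine ⟨d' * P.eval (-a), ?_⟩
    have h1 : Ideal.Quotient.mk w.asIdeal (Polynomial.aeval θ P) =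
        Ideal.Quotient.mk w.asIdeal (algebraMap O (𝓞 K) (P.eval (-a))) := by
      rw [Ideal.Quotient.eq]
      have h2 : algebraMap O (𝓞 K) (P.eval (-a)) = Polynomial.aeval (algebraMap O (𝓞 K) (-a)) P := by
        rw [Polynomial.aeval_algebraMap_apply, Polynomial.coe_aeval_eq_eval]
      rw [h2, Polynomial.aeval_def, Polynomial.aeval_def, Polynomial.eval₂_eq_eval_map,
        Polynomial.eval₂_eq_eval_map]
      have h3 := Polynomial.sub_dvd_eval_sub θ (algebraMap O (𝓞 K) (-a))
        (P.map (algebraMap O (𝓞 K)))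
      have h4 : θ - algebraMap O (𝓞 K) (-a) ∈ w.asIdeal := by
        rw [map_neg, sub_neg_eq_add]
        exact ha
      exact Ideal.mem_of_dvd _ h3 h4
    have h5 : ψ (d' * d) = 1 := by
      have : ψ (d' * d - 1) = 0 := by
        rw [← RingHom.mem_ker, hker]
        have h6 : d' * d - 1 = -i := by linear_combination hd'
        rw [h6]
        exact neg_mem hi
      rw [map_sub, map_one] at this
      exact sub_eq_zero.1 this
    calc ψ (d' * P.eval (-a)) = ψ d' * Ideal.Quotient.mk w.asIdeal (Polynomial.aeval θ P) := by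
          rw [map_mul, h1]; rfl
      _ = ψ d' * (ψ d * Ideal.Quotient.mk w.asIdeal z) := by
          rw [← hP, map_mul]; rfl
      _ = ψ (d' * d) * Ideal.Quotient.mk w.asIdeal z := by rw [map_mul]; ring
      _ = Ideal.Quotient.mk w.asIdeal z := by rw [h5, one_mul]
  have hcard : Ideal.absNorm w.asIdeal = Ideal.absNorm v.asIdeal := by
    rw [← hker, Ideal.absNorm_apply, Ideal.absNorm_apply, Submodule.cardQuot_apply,
      Submodule.cardQuot_apply]
    exact (Nat.card_congr (RingHom.quotientKerEquivOfSurjective hsurj).toEquiv).symm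
  have h1 := absNorm_inertia K w v hv
  rw [hcard] at h1
  have h2 : 2 ≤ Ideal.absNorm v.asIdeal := by
    have h3 : Ideal.absNorm v.asIdeal ≠ 0 := by
      rw [Ne, Ideal.absNorm_eq_zero_iff]
      exact v.ne_bot
    have h4 : Ideal.absNorm v.asIdeal ≠ 1 := by
      rw [Ne, Ideal.absNorm_eq_one_iff]
      exact v.isPrime.ne_top
    omega
  have h3 : Ideal.absNorm v.asIdeal ^ (w.asIdeal.inertiaDeg O) = Ideal.absNorm v.asIdeal ^ 1 := by
    rw [pow_one]; exact h1.symm
  exact Nat.pow_right_injective h2 h3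

end H55N
end

-- from Lib.H55D.X3
section

open NumberField IsDedekindDomain

namespace H55D

open H55B H55C

/-- K₀/ℚ is unramified outside the prime numbers l = 1 mod 3 modulo which 2 is not a cube. -/
def UnrQ (K₀ : Type) [Field K₀] [NumberField K₀] : Prop :=
  ∀ (w : HeightOneSpectrum (𝓞 K₀)) (l : ℕ), l.Prime → (l : 𝓞 K₀) ∈ w.asIdeal →
    ¬ (l % 3 = 1 ∧ ¬ ∃ x : ZMod l, x ^ 3 = 2) → w.asIdeal.ramificationIdx ℤ = 1

/-! Chunk X3 (L): K = K₀(om), e.g. the subfield generated by K₀ and F in an algebraic closure, or the splitting field of X^2 + X + 1 over K₀ (AdjoinRoot if irreducible), with Algebra F K.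
K₀ contains no root ζ of x^2 + x + 1: K₀ would contain Q(ζ), ramified at 3 (-3 = (2ζ+1)^2: for w above 3 the valuation of 3 would be even, so w would be ramified over Z), but 3 is not 1 mod 3, so K₀/ℚ is unramified at 3. So Quad K₀ K.
K/F is Galois (K = K₀ F), restriction Gal(K/F) -> Gal(K₀/ℚ) is injective, so the order is a power of 2. UnrOut K: let w be a prime of K above v not Good, v in O above the prime number l (or v above 2 or 3), w₀ = w ∩ K₀. Then l is
not an admissible number: if l = 1 mod 3 and 2 is not a cube mod l then v is good (O/v has l elements: H1/prime_types; x^3 = 2 in O/v = Z/l; 2, 3 not in v) (if l = 2 mod 3 the first condition fails; l = 3: fails). So w₀ is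
unramified over Z; the inertia group of w in Gal(K/F) restricts injectively into the inertia group of w₀ in Gal(K₀/ℚ), which is trivial (its order is the ramification index). Hence e(w|v) = 1. -/

theorem X3_card {K : Type} [Field K] [NumberField K] [IsGalois ℚ K]
    (w : HeightOneSpectrum (𝓞 K)) :
    Nat.card (w.asIdeal.inertia (K ≃ₐ[ℚ] K)) = w.asIdeal.ramificationIdx ℤ := by
  have hwm := w.isMaximal
  have hwp := w.isPrime
  have hp : (w.asIdeal.under ℤ).IsPrime := inferInstance
  have hne : w.asIdeal.under ℤ ≠ ⊥ := by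
    intro h
    exact w.ne_bot (Ideal.eq_bot_of_comap_eq_bot (R := ℤ) (I := w.asIdeal) h)
  have hvm : (w.asIdeal.under ℤ).IsMaximal := hp.isMaximal hne
  have hl : w.asIdeal.LiesOver (w.asIdeal.under ℤ) := ⟨rfl⟩
  rw [Ideal.card_inertia_eq_ramificationIdxIn (G := K ≃ₐ[ℚ] K) (w.asIdeal.under ℤ) w.asIdeal,
    Ideal.ramificationIdxIn_eq_ramificationIdx (w.asIdeal.under ℤ) w.asIdeal (K ≃ₐ[ℚ] K)]

theorem X3_inertia {K : Type} [Field K] [NumberField K] [IsGalois ℚ K]
    (w : HeightOneSpectrum (𝓞 K)) (h : w.asIdeal.ramificationIdx ℤ = 1) (g : K ≃ₐ[ℚ] K)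
    (hg : ∀ y : 𝓞 K, g • y - y ∈ w.asIdeal) : g = 1 := by
  rw [← X3_card w, Subgroup.card_eq_one, Subgroup.eq_bot_iff_forall] at h
  exact h g hg

theorem X3_prime {R : Type} [CommRing R] (P : Ideal R) [hP : P.IsPrime] :
    ∀ n : ℕ, n ≠ 0 → (n : R) ∈ P → ∃ r : ℕ, r.Prime ∧ (r : R) ∈ P := by
  intro n
  induction n using Nat.strong_induction_on with
  | _ n ih =>
    intro hn0 hn
    have hn1 : n ≠ 1 := by
      rintro rfl
      apply hP.ne_top
      rw [Ideal.eq_top_iff_one]
      exact_mod_cast hn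
    obtain ⟨p, hp, k, hk⟩ := Nat.exists_prime_and_dvd hn1
    rw [hk] at hn
    push_cast at hn
    rcases hP.mem_or_mem hn with h | h
    · exact ⟨p, hp, h⟩
    · have hk0 : k ≠ 0 := by rintro rfl; exact hn0 (by rw [hk, mul_zero])
      refine ih k ?_ hk0 h
      rw [hk]
      have := hp.two_le
      have := Nat.pos_of_ne_zero hk0
      nlinarith

theorem X3_good (v : HeightOneSpectrum O) (l : ℕ) (hl : l.Prime) (hlv : (l : O) ∈ v.asIdeal)
    (h1 : l % 3 = 1) (hc : ¬ ∃ x : ZMod l, x ^ 3 = 2) : Good v := by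
  have h2v : (2 : O) ∉ v.asIdeal := by
    intro h
    have h1 := (H1_int_mem hl hlv 2).1 (by exact_mod_cast h)
    have h2 : l ∣ 2 := by exact_mod_cast h1
    have h3 := (Nat.prime_dvd_prime_iff_eq hl Nat.prime_two).1 h2
    omega
  have h3v : (3 : O) ∉ v.asIdeal := by
    intro h
    have h1 := (H1_int_mem hl hlv 3).1 (by exact_mod_cast h)
    have h2 : l ∣ 3 := by exact_mod_cast h1
    have h3 := (Nat.prime_dvd_prime_iff_eq hl Nat.prime_three).1 h2
    omega
  refine ⟨h2v, h3v, ?_⟩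
  rintro ⟨x, hx⟩
  apply hc
  have hcard : Ideal.absNorm v.asIdeal = l := by
    rcases prime_types v h3v with ⟨l', hl', -, hN⟩ | ⟨q, hq, hq3, hv⟩
    · have h4 := Ideal.absNorm_mem v.asIdeal
      rw [hN] at h4
      have h5 := (H1_int_mem hl hlv l').1 (by exact_mod_cast h4)
      have h6 : l ∣ l' := by exact_mod_cast h5
      rw [hN, (Nat.prime_dvd_prime_iff_eq hl hl').1 h6]
    · exfalso
      have h4 : (q : O) ∈ v.asIdeal := by
        rw [hv]
        exact Ideal.mem_span_singleton_self _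
      have h5 := (H1_int_mem hl hlv q).1 (by exact_mod_cast h4)
      have h6 : l ∣ q := by exact_mod_cast h5
      have h7 := (Nat.prime_dvd_prime_iff_eq hl hq).1 h6
      omega
  have hcard' : Nat.card (O ⧸ v.asIdeal) = l := hcard
  have hfin : Finite (O ⧸ v.asIdeal) :=
    Nat.finite_of_card_ne_zero (by rw [hcard']; exact hl.ne_zero)
  let _ : Fintype (O ⧸ v.asIdeal) := Fintype.ofFinite _
  have hc' : Fintype.card (O ⧸ v.asIdeal) = l := by rw [← Nat.card_eq_fintype_card, hcard']
  let f : ZMod l ≃+* O ⧸ v.asIdeal := ZMod.ringEquivOfPrime _ hl hc'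
  refine ⟨f.symm (Ideal.Quotient.mk v.asIdeal x), ?_⟩
  rw [← map_pow]
  have h8 := Ideal.Quotient.eq_zero_iff_mem.2 hx
  rw [map_sub, map_pow, map_ofNat, sub_eq_zero] at h8
  rw [h8, map_ofNat]

theorem X3_noroot {K₀ : Type} [Field K₀] [NumberField K₀] (hU : UnrQ K₀) (x : K₀) :
    x ^ 2 + x + 1 ≠ 0 := by
  intro hx
  have hint : IsIntegral ℤ (2 * x + 1) := by
    refine ⟨Polynomial.X ^ 2 + 3, by monicity!, ?_⟩
    simp only [Polynomial.eval₂_add, Polynomial.eval₂_pow, Polynomial.eval₂_X,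
      Polynomial.eval₂_ofNat]
    linear_combination 4 * hx
  let y : 𝓞 K₀ := ⟨2 * x + 1, hint⟩
  have hy : (3 : 𝓞 K₀) = -(y ^ 2) := by
    apply RingOfIntegers.ext
    show (3 : K₀) = -((2 * x + 1) ^ 2)
    linear_combination 4 * hx
  have h3p : (Ideal.span {(3 : ℤ)}).IsPrime :=
    (Ideal.span_singleton_prime (by norm_num)).2 Int.prime_three
  have h3b : Ideal.span {(3 : ℤ)} ≠ ⊥ := by
    rw [Ne, Ideal.span_singleton_eq_bot]
    norm_num
  have h3m : (Ideal.span {(3 : ℤ)}).IsMaximal := h3p.isMaximal h3b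
  obtain ⟨P, hPm, hPl⟩ := Ideal.exists_maximal_ideal_liesOver_of_isIntegral (S := 𝓞 K₀)
    (Ideal.span {(3 : ℤ)})
  have hPp := hPm.isPrime
  have hPb : P ≠ ⊥ := Ideal.ne_bot_of_liesOver_of_ne_bot h3b P
  have h3P : ((3 : ℕ) : 𝓞 K₀) ∈ P := by
    have h1 : (3 : ℤ) ∈ P.under ℤ := by
      rw [← hPl.over]
      exact Ideal.mem_span_singleton_self _
    have h2 : algebraMap ℤ (𝓞 K₀) 3 ∈ P := h1
    simpa using h2
  have he := hU ⟨P, hPp, hPb⟩ 3 Nat.prime_three h3P (by omega)
  have hyP : y ∈ P := by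
    have h1 : y ^ 2 ∈ P := by
      have h2 : y ^ 2 = -((3 : ℕ) : 𝓞 K₀) := by
        have : ((3 : ℕ) : 𝓞 K₀) = 3 := by norm_num
        rw [this, hy, neg_neg]
      rw [h2]
      exact P.neg_mem h3P
    exact hPp.mem_of_pow_mem 2 h1
  have hle : (Ideal.span {(3 : ℤ)}).map (algebraMap ℤ (𝓞 K₀)) ≤ P ^ 2 := by
    rw [Ideal.map_span, Set.image_singleton, Ideal.span_singleton_le_iff_mem]
    have h1 : algebraMap ℤ (𝓞 K₀) 3 = -(y ^ 2) := by
      rw [← hy]
      simp
    rw [h1]
    exact (P ^ 2).neg_mem (Ideal.pow_mem_pow hyP 2)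
  have hne := (Ideal.ramificationIdx'_ne_one_iff (hle.trans (Ideal.pow_le_self two_ne_zero))).2 hle
  rw [Ideal.ramificationIdx'_eq_ramificationIdx (Ideal.span {(3 : ℤ)}) P h3b] at hne
  exact hne he

/-- The image of the cube root of unity of F in an F-algebra. -/
noncomputable def X3_z (L : Type) [Field L] [Algebra F L] : L := algebraMap F L (om : F)

theorem X3_z_root (L : Type) [Field L] [Algebra F L] : X3_z L ^ 2 + X3_z L + 1 = 0 := by
  have h1 : ((om : F)) ^ 2 + (om : F) + 1 = 0 := by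
    have h := congrArg (algebraMap O F) om_rel
    simpa only [map_add, map_pow, map_one, map_zero] using h
  have h2 := congrArg (algebraMap F L) h1
  simp only [map_add, map_pow, map_one, map_zero] at h2
  exact h2

theorem X3_range (K₀ L : Type) [Field K₀] [Field L] [Algebra F L] [Algebra K₀ L]
    (S : IntermediateField K₀ L) (h : X3_z L ∈ S) (x : F) : algebraMap F L x ∈ S := by
  obtain ⟨a, b, hb, rfl⟩ := IsFractionRing.div_surjective (A := O) x
  have h1 : ∀ a : O, algebraMap F L (algebraMap O F a) ∈ S := by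
    intro a
    obtain ⟨m, n, rfl⟩ := exists_repr a
    have h2 : algebraMap F L (algebraMap O F (m + n * om)) = m + n * X3_z L := by
      simp only [map_add, map_mul, map_intCast]
      rfl
    rw [h2]
    exact S.add_mem (intCast_mem S m) (S.mul_mem (intCast_mem S n) h)
  rw [map_div₀]
  exact S.div_mem (h1 a) (h1 b)

theorem X3_rank (K₀ L : Type) [Field K₀] [Field L] [Algebra K₀ L] (z : L)
    (hz : z ^ 2 + z + 1 = 0) (hn : ∀ x : K₀, x ^ 2 + x + 1 ≠ 0) :
    Module.finrank K₀ (IntermediateField.adjoin K₀ {z}) = 2 := by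
  let q : Polynomial K₀ := Polynomial.X ^ 2 + Polynomial.X + 1
  have hq1 : q.Monic := by
    show (Polynomial.X ^ 2 + Polynomial.X + 1 : Polynomial K₀).Monic
    monicity!
  have hq2 : q.natDegree = 2 := by
    show (Polynomial.X ^ 2 + Polynomial.X + 1 : Polynomial K₀).natDegree = 2
    compute_degree!
  have hq3 : Polynomial.aeval z q = 0 := by
    show Polynomial.aeval z (Polynomial.X ^ 2 + Polynomial.X + 1 : Polynomial K₀) = 0
    simp only [map_add, map_pow, Polynomial.aeval_X, map_one]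
    exact hz
  have hq4 : Irreducible q := by
    apply Polynomial.irreducible_of_degree_le_three_of_not_isRoot
    · rw [hq2]
      simp
    · intro x hx
      apply hn x
      have h1 : Polynomial.eval x (Polynomial.X ^ 2 + Polynomial.X + 1 : Polynomial K₀) = 0 := hx
      simpa only [Polynomial.eval_add, Polynomial.eval_pow, Polynomial.eval_X,
        Polynomial.eval_one] using h1
  have h5 : minpoly K₀ z = q := (minpoly.eq_of_irreducible_of_monic hq4 hq3 hq1).symm
  have h6 : IsIntegral K₀ z := ⟨q, hq1, hq3⟩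
  rw [IntermediateField.adjoin.finrank h6, h5, hq2]

theorem X3_finrank : Module.finrank ℚ F = 2 := by
  have h := IsCyclotomicExtension.finrank (n := 3) F
    (Polynomial.cyclotomic.irreducible_rat (by norm_num))
  rw [h]
  decide

theorem X3_normal (K₀ : Type) [Field K₀] [NumberField K₀] (hG : IsGalois ℚ K₀)
    (z : AlgebraicClosure K₀) (hz : z ^ 2 + z + 1 = 0) :
    Normal ℚ (IntermediateField.adjoin K₀ {z}) := by
  have halg : Algebra.IsAlgebraic ℚ (AlgebraicClosure K₀) :=
    Algebra.IsAlgebraic.trans ℚ K₀ (AlgebraicClosure K₀)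
  have hac : IsAlgClosure ℚ (AlgebraicClosure K₀) := ⟨inferInstance, halg⟩
  have hnorm : Normal ℚ (AlgebraicClosure K₀) := IsAlgClosure.normal ℚ _
  let E := IntermediateField.adjoin K₀ {z}
  have hmem : z ∈ E := IntermediateField.mem_adjoin_simple_self K₀ z
  have hE0 : ∀ (σ : AlgebraicClosure K₀ →ₐ[ℚ] AlgebraicClosure K₀) (x : AlgebraicClosure K₀),
      x ∈ E → σ x ∈ E := by
    intro σ x hx
    refine IntermediateField.adjoin_induction K₀ (p := fun x _ => σ x ∈ E) ?_ ?_ ?_ ?_ ?_ hx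
    · rintro x rfl
      have h1 : σ x ^ 2 + σ x + 1 = 0 := by
        have h := congrArg σ hz
        simpa only [map_add, map_pow, map_one, map_zero] using h
      have h2 : (σ x - x) * (σ x + x + 1) = 0 := by linear_combination h1 - hz
      rcases mul_eq_zero.1 h2 with h | h
      · rw [sub_eq_zero.1 h]
        exact hmem
      · have h3 : σ x = -x - 1 := by linear_combination h
        rw [h3]
        exact E.sub_mem (E.neg_mem hmem) E.one_mem
    · intro x
      rw [← AlgHom.restrictNormal_commutes σ K₀ x]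
      exact E.algebraMap_mem _
    · intro x y _ _ h1 h2
      rw [map_add]
      exact add_mem h1 h2
    · intro x _ h1
      rw [map_inv₀]
      exact inv_mem h1
    · intro x y _ _ h1 h2
      rw [map_mul]
      exact mul_mem h1 h2
  have hE : @Normal ℚ (E.restrictScalars ℚ) _ _
      (IntermediateField.algebra' (E.restrictScalars ℚ)) := by
    rw [IntermediateField.normal_iff_forall_map_le]
    intro σ
    rintro _ ⟨x, hx, rfl⟩
    exact hE0 σ x hx
  have h2 : (IntermediateField.algebra' (E.restrictScalars ℚ) :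
      Algebra ℚ (E.restrictScalars ℚ)) = DivisionRing.toRatAlgebra := Subsingleton.elim _ _
  rw [h2] at hE
  exact hE

theorem X3_unr (K₀ E : Type) [Field K₀] [NumberField K₀] (hG : IsGalois ℚ K₀) (hU : UnrQ K₀)
    [Field E] [NumberField E] [Algebra F E] [Algebra K₀ E] (hGE : IsGalois F E)
    (htop : IntermediateField.adjoin K₀ {X3_z E} = ⊤) : UnrOut E := by
  have htow : IsScalarTower ℚ F E := IsScalarTower.of_algebraMap_eq' (Subsingleton.elim _ _)
  have htow' : IsScalarTower ℚ K₀ E := IsScalarTower.of_algebraMap_eq' (Subsingleton.elim _ _)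
  intro w v hv hbad
  rw [inertia_iff w]
  intro g hg
  let g' : E ≃ₐ[ℚ] E := g.restrictScalars ℚ
  let g₀ : K₀ ≃ₐ[ℚ] K₀ := g'.restrictNormal K₀
  have hg₀ : ∀ x : K₀, algebraMap K₀ E (g₀ x) = g (algebraMap K₀ E x) := fun x =>
    AlgEquiv.restrictNormal_commutes g' K₀ x
  have hwp := w.isPrime
  have hp : (w.asIdeal.under (𝓞 K₀)).IsPrime := inferInstance
  have hne : w.asIdeal.under (𝓞 K₀) ≠ ⊥ := by
    intro h
    exact w.ne_bot (Ideal.eq_bot_of_comap_eq_bot (R := 𝓞 K₀) (I := w.asIdeal) h)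
  let w₀ : HeightOneSpectrum (𝓞 K₀) := ⟨w.asIdeal.under (𝓞 K₀), hp, hne⟩
  have h1 : ∀ y : 𝓞 K₀, g₀ • y - y ∈ w₀.asIdeal := by
    intro y
    show algebraMap (𝓞 K₀) (𝓞 E) (g₀ • y - y) ∈ w.asIdeal
    have h2 : algebraMap (𝓞 K₀) (𝓞 E) (g₀ • y) = g • algebraMap (𝓞 K₀) (𝓞 E) y := by
      apply NumberField.RingOfIntegers.ext
      exact hg₀ _
    rw [map_sub, h2]
    exact hg _
  -- the prime number below
  have hvp := v.isPrime
  obtain ⟨l, hl, hlv⟩ : ∃ l : ℕ, l.Prime ∧ (l : O) ∈ v.asIdeal := by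
    refine X3_prime v.asIdeal (Ideal.absNorm v.asIdeal) ?_ (Ideal.absNorm_mem _)
    rw [Ne, Ideal.absNorm_eq_zero_iff]
    exact v.ne_bot
  have hlw : (l : 𝓞 E) ∈ w.asIdeal := by
    rw [hv] at hlv
    have h3 : algebraMap O (𝓞 E) (l : O) ∈ w.asIdeal := hlv
    rwa [map_natCast] at h3
  have hlw₀ : (l : 𝓞 K₀) ∈ w₀.asIdeal := by
    show algebraMap (𝓞 K₀) (𝓞 E) (l : 𝓞 K₀) ∈ w.asIdeal
    rwa [map_natCast]
  have hr := hU w₀ l hl hlw₀ (fun h => hbad (X3_good v l hl hlv h.1 h.2))
  have hg1 : g₀ = 1 := X3_inertia w₀ hr g₀ h1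
  have hfix : ∀ x : K₀, g (algebraMap K₀ E x) = algebraMap K₀ E x := by
    intro x
    rw [← hg₀, hg1]
    rfl
  have hz : g (X3_z E) = X3_z E := g.commutes _
  ext x
  have hx : x ∈ IntermediateField.adjoin K₀ {X3_z E} := by
    rw [htop]
    exact IntermediateField.mem_top
  show g x = x
  refine IntermediateField.adjoin_induction K₀ (p := fun x _ => g x = x) ?_ hfix ?_ ?_ ?_ hx
  · rintro x rfl
    exact hz
  · intro x y _ _ h1 h2
    rw [map_add, h1, h2]
  · intro x _ h1
    rw [map_inv₀, h1]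
  · intro x y _ _ h1 h2
    rw [map_mul, h1, h2]

theorem of_rat (K₀ : Type) [Field K₀] [NumberField K₀] (hG : IsGalois ℚ K₀) (k : ℕ)
    (hk : Module.finrank ℚ K₀ = 2 ^ k) (hU : UnrQ K₀) :
    ∃ (K : Type) (_ : Field K) (_ : NumberField K) (_ : Algebra F K) (_ : Algebra K₀ K),
      H13E.Quad K₀ K ∧ TwoExt K ∧ UnrOut K := by
  classical
  let φ : F →ₐ[ℚ] AlgebraicClosure K₀ := IsAlgClosed.lift
  let _ : Algebra F (AlgebraicClosure K₀) := φ.toRingHom.toAlgebra
  have hz := X3_z_root (AlgebraicClosure K₀)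
  let E : IntermediateField K₀ (AlgebraicClosure K₀) :=
    IntermediateField.adjoin K₀ {X3_z (AlgebraicClosure K₀)}
  have hmem : X3_z (AlgebraicClosure K₀) ∈ E := IntermediateField.mem_adjoin_simple_self K₀ _
  have hint : ∀ x ∈ ({X3_z (AlgebraicClosure K₀)} : Set (AlgebraicClosure K₀)),
      IsIntegral K₀ x := by
    intro x _
    exact (Algebra.IsAlgebraic.isAlgebraic x).isIntegral
  have hEfin : FiniteDimensional K₀ E := IntermediateField.finiteDimensional_adjoin hint
  have hnf : NumberField E := NumberField.of_module_finite K₀ E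
  let ψ : F →+* E := (algebraMap F (AlgebraicClosure K₀)).codRestrict E
    (X3_range K₀ (AlgebraicClosure K₀) E hmem)
  let hFE : Algebra F E := ψ.toAlgebra
  have htow : IsScalarTower ℚ F E := IsScalarTower.of_algebraMap_eq' (Subsingleton.elim _ _)
  have htow' : IsScalarTower ℚ K₀ E := IsScalarTower.of_algebraMap_eq' (Subsingleton.elim _ _)
  have hzE : ((X3_z E : E) : AlgebraicClosure K₀) = X3_z (AlgebraicClosure K₀) := rfl
  have hrank : Module.finrank K₀ E = 2 := X3_rank K₀ _ _ hz (X3_noroot hU)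
  have hN : Normal ℚ E := X3_normal K₀ hG _ hz
  have hGQ : IsGalois ℚ E := { to_normal := hN }
  have hGF : IsGalois F E := IsGalois.tower_top_of_isGalois ℚ F E
  have htop : IntermediateField.adjoin K₀ {X3_z E} = ⊤ := by
    have h1 : IntermediateField.map E.val (IntermediateField.adjoin K₀ {X3_z E}) =
        IntermediateField.map E.val ⊤ := by
      rw [IntermediateField.adjoin_map, Set.image_singleton]
      show IntermediateField.adjoin K₀ {X3_z (AlgebraicClosure K₀)} = _
      rw [← AlgHom.fieldRange_eq_map, IntermediateField.fieldRange_val]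
    exact IntermediateField.map_injective E.val h1
  refine ⟨E, inferInstance, hnf, hFE, inferInstance, ⟨hrank, X3_noroot hU⟩, ⟨hGF, k, ?_⟩,
    X3_unr K₀ E hG hU hGF htop⟩
  have h1 := Module.finrank_mul_finrank ℚ F E
  have h2 := Module.finrank_mul_finrank ℚ K₀ E
  rw [X3_finrank] at h1
  rw [hk, hrank] at h2
  omega

end H55D
end

-- from Lib.H55P.Z14
section

open NumberField IsDedekindDomain WeierstrassCurve

namespace H55P

open H55B (F O om E27)

variable {Ω : Type} [Field Ω] [Algebra F Ω] [Algebra ℚ Ω] [IsScalarTower ℚ F Ω]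

/-- The field generated by K and the cube roots of unity. -/
noncomputable def KF (K : Type) [Field K] [NumberField K] (ι : K →ₐ[ℚ] Ω) : IntermediateField F Ω :=
  IntermediateField.adjoin F (Set.range ι)

/-- K as a subfield of KF. -/
noncomputable def KFmap (K : Type) [Field K] [NumberField K] (ι : K →ₐ[ℚ] Ω) : K →+* KF K ι where
  toFun x := ⟨ι x, IntermediateField.subset_adjoin F _ ⟨x, rfl⟩⟩
  map_one' := Subtype.ext (map_one ι)
  map_mul' x y := Subtype.ext (map_mul ι x y)
  map_zero' := Subtype.ext (map_zero ι)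
  map_add' x y := Subtype.ext (map_add ι x y)

/-! Chunk PZ14 (M). The composite field of K and F inside Ω.
kf_quad: z = the image of om in Ω, z^2 + z + 1 = 0, not in the range of ι. Every element of KF is ι a + ι b z: this set is a subring containing the image of F (F = ℚ + ℚ om) and the range of ι, and it is a field (finite dimensional over ι K); 1, z are independent over ι K since x^2 + x + 1 has no root in K.
So KF has dimension 2 over K (see X3_rank, X3_range in Lib/H55D/X3.lean). The algebra structure over K is KFmap.toAlgebra.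
exists_F: if x^2 + x + 1 = 0 has a root x in K then ι x is z or z^2 = -1 - z, so the image of F in Ω is contained in the range of ι; f = the composite of F → range ι and the inverse of ι.
kf_iso: with the algebra structure f.toAlgebra on K the range of ι is the carrier of KF, so KFmap is bijective and commutes with the algebra maps from F.
kf_norm: s in the group of K fixes ι K and maps z to z or z^2 (a root of x^2 + x + 1), so it maps KF to itself (adjoin induction), and s⁻¹ too; then s t s⁻¹ fixes KF if t does. -/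

theorem pz14_z_mem (K : Type) [Field K] [NumberField K] (ι : K →ₐ[ℚ] Ω) :
    H55D.X3_z Ω ∈ KF K ι := (KF K ι).algebraMap_mem _

theorem pz14_mem (K : Type) [Field K] [NumberField K] (ι : K →ₐ[ℚ] Ω) (x : K) : ι x ∈ KF K ι :=
  IntermediateField.subset_adjoin F _ ⟨x, rfl⟩

theorem kf_quad (K : Type) [Field K] [NumberField K] (ι : K →ₐ[ℚ] Ω) [NumberField (KF K ι)]
    (hn : ∀ x : K, x ^ 2 + x + 1 ≠ 0) :
    letI : Algebra K (KF K ι) := (KFmap K ι).toAlgebra
    H13E.Quad K (KF K ι) := by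
  letI : Algebra K (KF K ι) := (KFmap K ι).toAlgebra
  letI : Algebra K Ω := ι.toRingHom.toAlgebra
  refine ⟨?_, hn⟩
  have hz := H55D.X3_z_root Ω
  have h2 := H55D.X3_rank K Ω (H55D.X3_z Ω) hz hn
  -- the carriers agree
  have hle1 : ∀ x ∈ IntermediateField.adjoin K {H55D.X3_z Ω}, x ∈ KF K ι := by
    intro x hx
    refine IntermediateField.adjoin_induction K (p := fun x _ => x ∈ KF K ι) ?_ ?_ ?_ ?_ ?_ hx
    · rintro x rfl
      exact pz14_z_mem K ι
    · intro x
      exact pz14_mem K ι x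
    · intro x y _ _ h1 h2
      exact add_mem h1 h2
    · intro x _ h1
      exact inv_mem h1
    · intro x y _ _ h1 h2
      exact mul_mem h1 h2
  have hle2 : ∀ x ∈ KF K ι, x ∈ IntermediateField.adjoin K {H55D.X3_z Ω} := by
    intro x hx
    refine IntermediateField.adjoin_induction F
      (p := fun x _ => x ∈ IntermediateField.adjoin K {H55D.X3_z Ω}) ?_ ?_ ?_ ?_ ?_ hx
    · rintro _ ⟨y, rfl⟩
      exact (IntermediateField.adjoin K {H55D.X3_z Ω}).algebraMap_mem y
    · intro x
      exact H55D.X3_range K Ω _ (IntermediateField.mem_adjoin_simple_self K _) x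
    · intro x y _ _ h1 h2
      exact add_mem h1 h2
    · intro x _ h1
      exact inv_mem h1
    · intro x y _ _ h1 h2
      exact mul_mem h1 h2
  let e : IntermediateField.adjoin K {H55D.X3_z Ω} ≃ₗ[K] KF K ι :=
    { toFun := fun x => ⟨x.1, hle1 x.1 x.2⟩
      invFun := fun x => ⟨x.1, hle2 x.1 x.2⟩
      left_inv := fun x => rfl
      right_inv := fun x => rfl
      map_add' := fun x y => rfl
      map_smul' := fun c x => by
        apply Subtype.ext
        rw [Algebra.smul_def, Algebra.smul_def]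
        rfl }
  rw [← h2]
  exact (LinearEquiv.finrank_eq e).symm

/-- K and its image -/
theorem pz14_e (K : Type) [Field K] [Algebra ℚ K] (ι : K →ₐ[ℚ] Ω) :
    ∃ e : K ≃ₐ[ℚ] ι.fieldRange, ∀ x, ((e x : ι.fieldRange) : Ω) = ι x := by
  let e0 : K →+* ι.fieldRange :=
    { toFun := fun x => ⟨ι x, ⟨x, rfl⟩⟩
      map_one' := Subtype.ext (map_one ι)
      map_mul' := fun x y => Subtype.ext (map_mul ι x y)
      map_zero' := Subtype.ext (map_zero ι)
      map_add' := fun x y => Subtype.ext (map_add ι x y) }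
  have hs : Function.Surjective e0 := by
    rintro ⟨_, y, rfl⟩
    exact ⟨y, rfl⟩
  let e1 : K ≃+* ι.fieldRange := RingEquiv.ofBijective e0 ⟨e0.injective, hs⟩
  exact ⟨AlgEquiv.ofRingEquiv (f := e1) (fun q => by
    rw [eq_ratCast, map_ratCast, eq_ratCast]), fun x => rfl⟩

/-- the inverse of ι on its range -/
theorem pz14_lift (K : Type) [Field K] [NumberField K] (ι : K →ₐ[ℚ] Ω) (R : Type) [Ring R]
    (g : R →+* Ω) (hg : ∀ y, g y ∈ ι.fieldRange) : ∃ f : R →+* K, ∀ y, ι (f y) = g y := by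
  obtain ⟨e, he⟩ := pz14_e K ι
  let g' : R →+* ι.fieldRange := g.codRestrict ι.fieldRange hg
  refine ⟨(e.symm : ι.fieldRange →+* K).comp g', fun y => ?_⟩
  have h1 : e (e.symm (g' y)) = g' y := e.apply_symm_apply _
  have h2 := he (e.symm (g' y))
  rw [h1] at h2
  exact h2.symm

theorem exists_F (K : Type) [Field K] [NumberField K] (ι : K →ₐ[ℚ] Ω) (x : K)
    (hx : x ^ 2 + x + 1 = 0) : ∃ f : F →+* K, ∀ y : F, ι (f y) = algebraMap F Ω y := by
  refine pz14_lift K ι F (algebraMap F Ω) fun y => ?_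
  refine H55D.X3_range ℚ Ω ι.fieldRange ?_ y
  have hz := H55D.X3_z_root Ω
  have h1 : ι x ^ 2 + ι x + 1 = 0 := by
    have h := congrArg ι hx
    simpa only [map_add, map_pow, map_one, map_zero] using h
  have h2 : (H55D.X3_z Ω - ι x) * (H55D.X3_z Ω + ι x + 1) = 0 := by linear_combination hz - h1
  rcases mul_eq_zero.1 h2 with h | h
  · exact ⟨x, (sub_eq_zero.1 h).symm⟩
  · refine ⟨-x - 1, ?_⟩
    have h3 : H55D.X3_z Ω = -ι x - 1 := by linear_combination h
    rw [h3]
    change ι (-x - 1) = _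
    rw [map_sub, map_neg, map_one]

theorem kf_iso (K : Type) [Field K] [NumberField K] (ι : K →ₐ[ℚ] Ω) (f : F →+* K)
    (hf : ∀ y : F, ι (f y) = algebraMap F Ω y) :
    letI : Algebra F K := f.toAlgebra
    Nonempty (K ≃ₐ[F] KF K ι) := by
  letI : Algebra F K := f.toAlgebra
  let g : K →ₐ[F] KF K ι :=
    { KFmap K ι with
      commutes' := fun y => Subtype.ext (hf y) }
  have hsurj : Function.Surjective g := by
    rintro ⟨x, hx⟩
    have h1 : ∃ y : K, ι y = x := by
      refine IntermediateField.adjoin_induction F (p := fun x _ => ∃ y : K, ι y = x) ?_ ?_ ?_ ?_ ?_ hx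
      · rintro _ ⟨y, rfl⟩
        exact ⟨y, rfl⟩
      · intro x
        exact ⟨f x, hf x⟩
      · rintro x y _ _ ⟨a, rfl⟩ ⟨b, rfl⟩
        exact ⟨a + b, map_add ι a b⟩
      · rintro x _ ⟨a, rfl⟩
        exact ⟨a⁻¹, map_inv₀ ι a⟩
      · rintro x y _ _ ⟨a, rfl⟩ ⟨b, rfl⟩
        exact ⟨a * b, map_mul ι a b⟩
    obtain ⟨y, hy⟩ := h1
    exact ⟨y, Subtype.ext hy⟩
  exact ⟨AlgEquiv.ofBijective g ⟨g.toRingHom.injective, hsurj⟩⟩

theorem pz14_stable (K : Type) [Field K] [NumberField K] (ι : K →ₐ[ℚ] Ω)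
    (s : Ω ≃ₐ[ℚ] Ω) (hs : ∀ x : K, s (ι x) = ι x) (y : Ω) (hy : y ∈ KF K ι) : s y ∈ KF K ι := by
  have hz := H55D.X3_z_root Ω
  have hsz : s (H55D.X3_z Ω) ∈ KF K ι := by
    have h1 : s (H55D.X3_z Ω) ^ 2 + s (H55D.X3_z Ω) + 1 = 0 := by
      have h := congrArg s hz
      simpa only [map_add, map_pow, map_one, map_zero] using h
    have h2 : (s (H55D.X3_z Ω) - H55D.X3_z Ω) * (s (H55D.X3_z Ω) + H55D.X3_z Ω + 1) = 0 := by
      linear_combination h1 - hz
    have hzm := pz14_z_mem K ι
    rcases mul_eq_zero.1 h2 with h | h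
    · rw [sub_eq_zero.1 h]
      exact hzm
    · have h3 : s (H55D.X3_z Ω) = -H55D.X3_z Ω - 1 := by linear_combination h
      rw [h3]
      exact sub_mem (neg_mem hzm) (one_mem _)
  refine IntermediateField.adjoin_induction F (p := fun x _ => s x ∈ KF K ι) ?_ ?_ ?_ ?_ ?_ hy
  · rintro _ ⟨x, rfl⟩
    rw [hs x]
    exact pz14_mem K ι x
  · intro x
    let S : IntermediateField ℚ Ω := ((KF K ι).restrictScalars ℚ).comap s.toAlgHom
    have h1 : algebraMap F Ω x ∈ S := H55D.X3_range ℚ Ω S hsz x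
    exact h1
  · intro x y _ _ h1 h2
    rw [map_add]
    exact add_mem h1 h2
  · intro x _ h1
    rw [map_inv₀]
    exact inv_mem h1
  · intro x y _ _ h1 h2
    rw [map_mul]
    exact mul_mem h1 h2

theorem kf_norm (K : Type) [Field K] [NumberField K] (ι : K →ₐ[ℚ] Ω)
    (s : Ω ≃ₐ[ℚ] Ω) (hs : s ∈ ι.fieldRange.fixingSubgroup) (t : Ω ≃ₐ[ℚ] Ω)
    (ht : t ∈ ((KF K ι).restrictScalars ℚ).fixingSubgroup) :
    s * t * s⁻¹ ∈ ((KF K ι).restrictScalars ℚ).fixingSubgroup := by
  rw [IntermediateField.mem_fixingSubgroup_iff] at hs ht ⊢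
  intro y hy
  have hs' : ∀ x : K, s⁻¹ (ι x) = ι x := by
    intro x
    have h1 : s (ι x) = ι x := hs (ι x) ⟨x, rfl⟩
    have h2 : s⁻¹ (s (ι x)) = ι x := s.symm_apply_apply _
    rwa [h1] at h2
  have h1 : s⁻¹ y ∈ KF K ι := pz14_stable K ι s⁻¹ hs' y hy
  have h2 : t (s⁻¹ y) = s⁻¹ y := ht (s⁻¹ y) h1
  change s (t (s⁻¹ y)) = y
  rw [h2]
  exact s.apply_symm_apply _

theorem kf_le (K : Type) [Field K] [NumberField K] (ι : K →ₐ[ℚ] Ω) :
    ι.fieldRange ≤ (KF K ι).restrictScalars ℚ := by
  rintro _ ⟨x, rfl⟩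
  exact pz14_mem K ι x

/-- The groups of points over K and over its image. -/
theorem pts_congr (W : WeierstrassCurve ℚ) (K : Type) [Field K] [Algebra ℚ K] (ι : K →ₐ[ℚ] Ω) (p : ℕ)
    (h : Finite (Pt W ι.fieldRange) ∧ ¬ p ∣ Nat.card (Pt W ι.fieldRange)) :
    Finite (Pt W K) ∧ ¬ p ∣ Nat.card (Pt W K) := by
  classical
  obtain ⟨e, -⟩ := pz14_e K ι
  have h1 : Function.Injective (Affine.Point.map (W' := W.toAffine) e.toAlgHom) :=
    Affine.Point.map_injective _
  have h2 : Function.Injective (Affine.Point.map (W' := W.toAffine) e.symm.toAlgHom) :=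
    Affine.Point.map_injective _
  have hf : Finite (Pt W K) := by
    have := h.1
    exact Finite.of_injective _ h1
  refine ⟨hf, ?_⟩
  have := h.1
  have h3 : Nat.card (Pt W K) = Nat.card (Pt W ι.fieldRange) :=
    le_antisymm (Nat.card_le_card_of_injective _ h1) (Nat.card_le_card_of_injective _ h2)
  rw [h3]
  exact h.2

end H55P
end
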