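import Mathlib
import Pool.Agent.Lib.H1M.PP.D_H55P_GD
import Pool.Agent.Lib.H1M.PP.D_H55P_Sel
import Pool.Agent.Lib.H1M.PP.D_H55P_Stm
import Pool.Agent.Lib.H1M.PP.M001
import Pool.Agent.Lib.H1M.PP.M010
import Pool.Agent.Lib.H1M.PP.M013
import Pool.Agent.Lib.H1M.PP.M016
import Pool.Agent.Lib.H1M.PP.M023
import Pool.Agent.Lib.H1M.PP.M027
import Pool.Agent.Lib.H1M.PP.M028
import Pool.Agent.Lib.H1M.PP.M029
import Pool.Agent.Lib.H1M.PP.M033
import Pool.Agent.Lib.H1M.PP.M034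
import Pool.Agent.Lib.H1M.PP.M037

/-! Merged copies (to shorten the build) of Lib.H28G.KDefs, Lib.H28G.K4, Lib.H55K.GF, Lib.H55K.KOk, Lib.H55P.L1, Lib.H55P.E9, Lib.H55P.D3, Lib.H55P.T1, Lib.H55P.D1, Lib.H55P.D2, Lib.H55P.T7, Lib.H55P.N1, Lib.H55K.A.D1, Lib.H55K.D8, Lib.H55K.UA2A, Lib.H55K.Z1B, Lib.H55K.Z1A, Lib.H55K.Y7B, Lib.H55K.J10, Lib.H55K.Y1, Lib.H55K.Y3, Lib.H55P.GenStm, Lib.H55K.UD, Lib.H55K.UB2. -/

-- from Lib.H28G.KDefs
section

/-!
# H28G: torsion fields (number fields)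

N/K are number fields over F. `sp σ` is the action of σ in Gal(N/K) on the points over N. `TFld K N b` says that
N is the field generated over K by the points killed by b.
-/

open NumberField IsDedekindDomain WeierstrassCurve

namespace H28G

open H55B H55R H99B

section
variable {K N : Type} [Field K] [Field N] [DecidableEq N] [Algebra F K] [Algebra K N] [Algebra F N]
  [IsScalarTower F K N]

/-- The action of the Galois group on the points. -/
noncomputable def sp (σ : Gal(N/K)) : P27 N →+ P27 N :=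
  mp ((AlgEquiv.restrictScalars F σ : N ≃ₐ[F] N) : N →ₐ[F] N)

theorem xc_sp (σ : Gal(N/K)) (P : P27 N) : xc (sp σ P) = σ (xc P) := xc_mp _ P

theorem yc_sp (σ : Gal(N/K)) (P : P27 N) : yc (sp σ P) = σ (yc P) := yc_mp _ P

theorem fc_sp (σ : Gal(N/K)) (P : P27 N) : fc (sp σ P) = σ (fc P) := fc_mp _ P

theorem tt_sp (σ : Gal(N/K)) (P : P27 N) : tt (sp σ P) = σ (tt P) := tt_mp _ P

theorem sp_ne (σ : Gal(N/K)) {P : P27 N} (hP : P ≠ 0) : sp σ P ≠ 0 := mp_ne _ hP

theorem sp_act (σ : Gal(N/K)) (c : O) (P : P27 N) : sp σ (act c P) = act c (sp σ P) := mp_act _ c P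

theorem sp_inj (σ : Gal(N/K)) : Function.Injective (sp σ) := mp_inj _

theorem sp_mem (σ : Gal(N/K)) (c : O) (P : P27 N) : sp σ P ∈ Tor c N ↔ P ∈ Tor c N :=
  mp_mem_Tor _ c P

theorem sp_one (P : P27 N) : sp (1 : Gal(N/K)) P = P := by
  by_cases hP : P = 0
  · rw [hP, map_zero]
  · exact pt_ext (sp_ne _ hP) hP (xc_sp _ P) (yc_sp _ P)

theorem sp_mul (σ τ : Gal(N/K)) (P : P27 N) : sp (σ * τ) P = sp σ (sp τ P) := by
  by_cases hP : P = 0
  · rw [hP, map_zero, map_zero, map_zero]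
  · refine pt_ext (sp_ne _ hP) (sp_ne _ (sp_ne _ hP)) ?_ ?_
    · rw [xc_sp, xc_sp, xc_sp]
      rfl
    · rw [yc_sp, yc_sp, yc_sp]
      rfl

/-- A point is fixed if its coordinates are. -/
theorem sp_fix (σ : Gal(N/K)) {P : P27 N} (hx : σ (xc P) = xc P) (hy : σ (yc P) = yc P) :
    sp σ P = P := by
  by_cases hP : P = 0
  · rw [hP, map_zero]
  · exact pt_ext (sp_ne _ hP) hP ((xc_sp _ P).trans hx) ((yc_sp _ P).trans hy)

theorem sp_Spt (σ : Gal(N/K)) : sp σ (Spt N) = Spt N := by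
  refine sp_fix σ ?_ ?_
  · have h : xc (Spt N) = -1 := rfl
    rw [h, map_neg, map_one]
  · have h : yc (Spt N) = algebraMap K N (algebraMap F K (om : F)) := by
      rw [← IsScalarTower.algebraMap_apply]
      rfl
    rw [h, σ.commutes]

end

section
variable (K N : Type) [Field K] [Field N] [DecidableEq N] [Algebra F K] [Algebra K N] [Algebra F N]
  [IsScalarTower F K N]

/-- N is the field generated over K by the points killed by b. -/
structure TFld (b : O) : Prop where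
  gal : IsGalois K N
  full : Full b N
  gen : ∀ σ : Gal(N/K), (∀ R ∈ Tor b N, sp σ R = R) → σ = 1

end

section
variable (K : Type) [Field K] (Ω : Type) [Field Ω] [DecidableEq Ω] [Algebra F Ω] [Algebra K Ω]

/-- The field generated over K by the coordinates of the points over Ω killed by b. -/
noncomputable def TF (b : O) : IntermediateField K Ω :=
  IntermediateField.adjoin K {x | ∃ R ∈ Tor b Ω, x = xc R ∨ x = yc R}

end

section
variable {N : Type} [Field N] [Algebra F N]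

/-- The map to k at a number field over F: a k-valued residue map of 𝓞 N compatible with q. -/
theorem exists_emb [NumberField N] : Nonempty (N →ₐ[F] ℂ) := by
  have h1 : Algebra.IsAlgebraic ℚ N := inferInstance
  have h2 : Algebra.IsAlgebraic F N := Algebra.IsAlgebraic.tower_top (K := ℚ) F
  exact ⟨IsAlgClosed.lift⟩

/-- The value of b at a prime not containing it. -/
theorem ak_int (c : O) [NumberField N] : ak N c = ((algebraMap O (𝓞 N) c : 𝓞 N) : N) := by
  unfold ak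
  exact (IsScalarTower.algebraMap_apply O (𝓞 N) N c).symm.trans rfl |>.symm ▸ rfl

end

end H28G
end

-- from Lib.H28G.K4
section

open NumberField IsDedekindDomain WeierstrassCurve

namespace H28G

open H55B H55R H99B

/-! Chunk K4 (M): congruences between torsion points, unramified primes. val_one: c in O, c not in W: W.valuation N (ak N c) = 1 (ak_int, HeightOneSpectrum.valuation_eq_one_iff or intValuation). fix_of_cong: W a prime of N with 3, b not in W. R, R' in Tor b N,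
with xc R = xc R', yc R = yc R' modulo W: R = R'. (If one of them is 0, both are 0, is not implied by the coordinates, so R, R' <> 0 is assumed.) R - R' is in E1 (red_sub: xc R is W-integral, otherwise R in E1 and R = 0 by tor_unit) and in Tor b N, so it is 0 by
tor_unit. unram: let W be a prime above v. The inertia group of W (Ideal.inertia, Mathlib.NumberTheory.RamificationInertia.Galois: card_inertia_eq_ramificationIdxIn) has es K N v elements. σ in the inertia group: σ x - x in W for all x in 𝓞 N, so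
W.valuation (σ x - x) < 1 for every W-integral x in N: write x = a/s with a, s in 𝓞 N, s not in W (H55R.exists_frac or similar in HB1/HB2; σ s - s in W so σ s not in W). Hence for R in Tor b N, R <> 0: sp σ R = R by fix_of_cong (xc_sp, yc_sp, sp_ne). So σ = 1 (h.gen). -/

theorem val_one {N : Type} [Field N] [NumberField N] [Algebra F N] (W : Pl N) (c : O)
    (h : algebraMap O (𝓞 N) c ∉ W.asIdeal) : W.valuation N (ak N c) = 1 := by
  rw [ak_int]
  exact (HeightOneSpectrum.valuation_eq_one_iff_notMem (K := N) W).2 h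

theorem val_three {N : Type} [Field N] [NumberField N] (W : Pl N) (h : (3 : 𝓞 N) ∉ W.asIdeal) :
    W.valuation N 3 = 1 := by
  have e : (3 : N) = algebraMap (𝓞 N) N 3 := by
    rw [map_ofNat]
  rw [e]
  exact (HeightOneSpectrum.valuation_eq_one_iff_notMem (K := N) W).2 h

/-- Torsion points of order prime to W are W-integral. -/
theorem tor_int {N : Type} [Field N] [NumberField N] [DecidableEq N] [Algebra F N] (W : Pl N) {b : O}
    (hb : algebraMap O (𝓞 N) b ∉ W.asIdeal) {R : P27 N} (hR : R ∈ Tor b N) (h0 : R ≠ 0) :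
    W.valuation N (xc R) ≤ 1 := by
  by_contra h
  rw [not_le] at h
  exact h0 (tor_unit (W.valuation N) (val_one W b hb) hR (Or.inr h))

theorem fix_of_cong {N : Type} [Field N] [NumberField N] [DecidableEq N] [Algebra F N] (W : Pl N)
    (h3 : (3 : 𝓞 N) ∉ W.asIdeal) {b : O} (hb : algebraMap O (𝓞 N) b ∉ W.asIdeal) {R R' : P27 N}
    (hR : R ∈ Tor b N) (hR' : R' ∈ Tor b N) (h0 : R ≠ 0) (h0' : R' ≠ 0)
    (hx : W.valuation N (xc R - xc R') < 1) (hy : W.valuation N (yc R - yc R') < 1) : R = R' := by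
  have h1 := red_sub (W.valuation N) (val_three W h3) h0 h0' (tor_int W hb hR h0)
    (tor_int W hb hR' h0') hx hy
  exact sub_eq_zero.1 (tor_unit (W.valuation N) (val_one W b hb) (sub_mem hR hR') h1)

/-- An element of the inertia group moves integral elements by elements of W. -/
theorem K4_iner {K N : Type} [Field K] [NumberField K] [Field N] [NumberField N] [Algebra K N]
    (W : Pl N) (σ : Gal(N/K)) (hσ : ∀ x : 𝓞 N, σ • x - x ∈ W.asIdeal) (x : N)
    (hx : W.valuation N x ≤ 1) : W.valuation N (σ x - x) < 1 := by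
  obtain ⟨a, d, h⟩ := HeightOneSpectrum.exists_primeCompl_mul_eq_of_integer W x hx
  have hd : (d : 𝓞 N) ∉ W.asIdeal := d.2
  have hsd : (σ • (d : 𝓞 N)) ∉ W.asIdeal := by
    intro h1
    apply hd
    have h2 := sub_mem h1 (hσ (d : 𝓞 N))
    rw [sub_sub_cancel] at h2
    exact h2
  have hd1 : W.valuation N (((d : 𝓞 N)) : N) = 1 :=
    (HeightOneSpectrum.valuation_eq_one_iff_notMem (K := N) W).2 hd
  have hsd1 : W.valuation N (σ (((d : 𝓞 N)) : N)) = 1 :=
    (HeightOneSpectrum.valuation_eq_one_iff_notMem (K := N) W).2 hsd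
  have hd0 : (((d : 𝓞 N)) : N) ≠ 0 := by
    intro h0
    rw [h0, map_zero] at hd1
    exact zero_ne_one hd1
  have hsd0 : σ (((d : 𝓞 N)) : N) ≠ 0 := by
    intro h0
    rw [h0, map_zero] at hsd1
    exact zero_ne_one hsd1
  have hxa : x * (((d : 𝓞 N)) : N) = (a : N) := h
  have hsx : σ x * σ (((d : 𝓞 N)) : N) = σ (a : N) := by
    rw [← map_mul, hxa]
  have ha1 : W.valuation N (σ (a : N) - (a : N)) < 1 :=
    (W.valuation_lt_one_iff_mem (σ • a - a)).2 (hσ a)
  have hdd : W.valuation N (σ (((d : 𝓞 N)) : N) - (((d : 𝓞 N)) : N)) < 1 :=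
    (W.valuation_lt_one_iff_mem (σ • (d : 𝓞 N) - (d : 𝓞 N))).2 (hσ _)
  have e : (σ x - x) * σ (((d : 𝓞 N)) : N) =
      (σ (a : N) - (a : N)) - x * (σ (((d : 𝓞 N)) : N) - (((d : 𝓞 N)) : N)) := by
    linear_combination hsx - hxa
  have h5 : W.valuation N (σ x - x) = W.valuation N ((σ x - x) * σ (((d : 𝓞 N)) : N)) := by
    rw [map_mul, hsd1, mul_one]
  rw [h5, e]
  refine Valuation.map_sub_lt _ ha1 ?_
  rw [map_mul]
  exact (mul_le_of_le_one_left zero_le hx).trans_lt hdd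

theorem unram {K N : Type} [Field K] [NumberField K] [Field N] [NumberField N] [DecidableEq N]
    [Algebra F K] [Algebra K N] [Algebra F N] [IsScalarTower F K N] {b : O} (h : TFld K N b)
    (v : Pl K) (h3 : (3 : 𝓞 K) ∉ v.asIdeal) (hb : algebraMap O (𝓞 K) b ∉ v.asIdeal) :
    es K N v = 1 := by
  have hgal := h.gal
  obtain ⟨W, hW⟩ := under_exists (L := N) v
  have hp := v.isPrime
  have hWp := W.isPrime
  have hl : W.asIdeal.LiesOver v.asIdeal := (BF2_mem v W hW).2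
  have h1 := Ideal.card_inertia_eq_ramificationIdxIn (G := Gal(N/K)) v.asIdeal W.asIdeal
  have hmem : ∀ x : 𝓞 K, algebraMap (𝓞 K) (𝓞 N) x ∈ W.asIdeal ↔ x ∈ v.asIdeal := by
    intro x
    rw [← hW]
    exact Iff.rfl
  have h3' : (3 : 𝓞 N) ∉ W.asIdeal := by
    intro h4
    apply h3
    rw [← hmem, map_ofNat]
    exact h4
  have hb' : algebraMap O (𝓞 N) b ∉ W.asIdeal := by
    intro h4
    apply hb
    rw [← hmem]
    have e : algebraMap (𝓞 K) (𝓞 N) (algebraMap O (𝓞 K) b) = algebraMap O (𝓞 N) b := by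
      apply RingOfIntegers.ext
      rw [← ak_int (N := N) b]
      show algebraMap K N ((algebraMap O (𝓞 K) b : 𝓞 K) : K) = ak N b
      rw [← ak_int (N := K) b]
      exact (IsScalarTower.algebraMap_apply F K N _).symm
    rw [e]
    exact h4
  have hbot : W.asIdeal.inertia Gal(N/K) = ⊥ := by
    rw [eq_bot_iff]
    intro σ hσ
    rw [Subgroup.mem_bot]
    apply h.gen
    intro R hR
    by_cases hR0 : R = 0
    · rw [hR0, map_zero]
    · have hx1 := tor_int W hb' hR hR0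
      have hy1 := int_y (W.valuation N) hx1
      refine fix_of_cong W h3' hb' ((sp_mem σ b R).2 hR) hR (sp_ne σ hR0) hR0 ?_ ?_
      · rw [xc_sp]
        exact K4_iner W σ hσ _ hx1
      · rw [yc_sp]
        exact K4_iner W σ hσ _ hy1
  rw [hbot] at h1
  have h2 : Nat.card (⊥ : Subgroup Gal(N/K)) = 1 := Subgroup.card_bot
  rw [h2] at h1
  exact h1.symm

end H28G
end

-- from Lib.H55K.GF
section

/-! # H55K: inertia at the other places -/

open NumberField IsDedekindDomain WeierstrassCurve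

namespace H55K

open H55P (IQ embF eF LF Per IsHecke Pt ac Inert Dec Nm)
open H35P (WAB Ker tt)


variable {F : Type} [Field F] [NumberField F] [IQ F] {A B : F} {Om : ℂ} {Ω : Type} [Field Ω] [DecidableEq Ω]
  [Algebra F Ω] {j : Ω →+* ℂ} {act : 𝓞 F →+* AddMonoid.End (Pt (WAB A B) Ω)} {V : ValuationSubring Ω}

theorem gf_Nm {l : ℕ} (hl : l.Prime) {π : 𝓞 F} (hπ : Prime π) (hd : π ∣ (l : 𝓞 F)) : l ≤ Nm π := by
  obtain ⟨c, hc⟩ := hd
  have h1 : Nm π ∣ l ^ 2 := ⟨Nm c, by rw [← Nm_mul, ← hc, Nm_nat]⟩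
  have h2 : Nm π ≠ 1 := by
    intro h
    unfold H55P.Nm at h
    rw [Ideal.absNorm_eq_one_iff, Ideal.span_singleton_eq_top] at h
    exact hπ.not_isUnit h
  obtain ⟨i, hi, h3⟩ := (Nat.dvd_prime_pow hl).1 h1
  have hi0 : i ≠ 0 := by
    rintro rfl
    exact h2 (by rw [h3, pow_zero])
  rw [h3]
  exact Nat.le_self_pow hi0 l

/-- Chunk GF (S/M). At least five points are killed by π (tor_card: Nm π ≥ 5, a power of l, l ≥ 5: π divides l, Nm π divides Nm l = l^2, Nm π ≠ 1): take T₁ ≠ 0 in Tor act π and T₂ in Tor act π, not in {0, T₁, -T₁}. Then T₁, T₂, T₁ - T₂, T₁ + T₂, T₁ + T₁ (l odd) are nonzero points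
killed by l (l = π * c; act l T = l • T), so they are not in Kg (hG.tors l hV). hG.inert: sP - P in Kg for every P; hG.tors n. -/
theorem inert_fix (h : CMA F A B Om j act) {l : ℕ} (hl : l.Prime) (h5 : 5 ≤ l) {π : 𝓞 F} (hπ : Prime π)
    (hd : π ∣ (l : 𝓞 F)) {Kg : AddSubgroup (Pt (WAB A B) Ω)} {u : Ω} (hG : GMod (WAB A B) V Kg u)
    (hV : V.valuation (l : Ω) = 1) (s : Ω ≃ₐ[F] Ω) (hs : Inert V s)
    (hf : ∀ T ∈ Tor act π, ac (WAB A B) s T = T) (n : ℕ) (hn : V.valuation (n : Ω) = 1) (P : Pt (WAB A B) Ω)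
    (hP : n • (ac (WAB A B) s P - P) = 0) : ac (WAB A B) s P = P := by
  have hN := gf_Nm hl hπ hd
  have hcard := tor_card h hπ.ne_zero
  obtain ⟨c, hc⟩ := hd
  have hkill : ∀ T ∈ Tor act π, l • T = 0 := by
    intro T hT
    have h1 : act (l : 𝓞 F) T = 0 := by
      rw [hc, mul_comm, map_mul]
      change act c (act π T) = 0
      rw [show act π T = 0 from hT, map_zero]
    rw [map_natCast] at h1
    exact h1
  have hnc : ((Tor act π : AddSubgroup (Pt (WAB A B) Ω)) : Set (Pt (WAB A B) Ω)).ncard = Nm π := hcard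
  obtain ⟨T₁, hT₁, hT₁'⟩ := Set.exists_mem_notMem_of_ncard_lt_ncard
    (s := ({0} : Set (Pt (WAB A B) Ω))) (t := ((Tor act π : AddSubgroup (Pt (WAB A B) Ω)) : Set (Pt (WAB A B) Ω)))
    (by rw [hnc, Set.ncard_singleton]; omega) (Set.toFinite _)
  have h3 : ({0, T₁, -T₁} : Set (Pt (WAB A B) Ω)).ncard ≤ 3 := by
    have h4 := Set.ncard_insert_le (0 : Pt (WAB A B) Ω) {T₁, -T₁}
    have h6 := Set.ncard_insert_le T₁ {-T₁}
    rw [Set.ncard_singleton] at h6
    omega
  obtain ⟨T₂, hT₂, hT₂'⟩ := Set.exists_mem_notMem_of_ncard_lt_ncard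
    (s := ({0, T₁, -T₁} : Set (Pt (WAB A B) Ω)))
    (t := ((Tor act π : AddSubgroup (Pt (WAB A B) Ω)) : Set (Pt (WAB A B) Ω)))
    (by rw [hnc]; omega) (Set.toFinite _)
  have hno : ∀ T ∈ Tor act π, T ≠ 0 → T ∉ Kg := fun T hT h0 hK => h0 (hG.tors l hV T hK (hkill T hT))
  have hm₁ : T₁ ∈ Tor act π := hT₁
  have hm₂ : T₂ ∈ Tor act π := hT₂
  have hn₁ : T₁ ≠ 0 := hT₁'
  have hn₂ : T₂ ≠ 0 := fun h0 => hT₂' (Or.inl h0)
  have hn₃ : T₁ - T₂ ≠ 0 := fun h0 => hT₂' (Or.inr (Or.inl (sub_eq_zero.1 h0).symm))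
  have hn₄ : T₁ + T₂ ≠ 0 := fun h0 => hT₂' (Or.inr (Or.inr (eq_neg_of_add_eq_zero_right h0)))
  have hn₅ : T₁ + T₁ ≠ 0 := by
    intro h0
    obtain ⟨k, hk⟩ := hl.odd_of_ne_two (by omega)
    apply hn₁
    have h7 := hkill T₁ hm₁
    rw [hk, add_smul, mul_comm, mul_smul, two_smul, h0, smul_zero, one_smul, zero_add] at h7
    exact h7
  have h8 := hG.inert s hs ⟨T₁, T₂, hno T₁ hm₁ hn₁, hno T₂ hm₂ hn₂, hno _ (sub_mem hm₁ hm₂) hn₃,
    hno _ (add_mem hm₁ hm₂) hn₄, hno _ (add_mem hm₁ hm₁) hn₅, hf T₁ hm₁, hf T₂ hm₂⟩ P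
  exact sub_eq_zero.1 (hG.tors n hn _ h8 hP)

end H55K
end

-- from Lib.H55K.KOk
section

open NumberField IsDedekindDomain WeierstrassCurve

namespace H55K

open H55P (IQ embF eF LF Per IsHecke Pt ac Inert Dec Nm)
open H35P (WAB Ker tt)
open H55R (Pl ord es fs smulP)

/-! The good primes of degree one of F (definition). -/

variable {F : Type} [Field F] [NumberField F] [IQ F] {A B : F} {Om : ℂ} {Ω : Type} [Field Ω] [DecidableEq Ω]
  [Algebra F Ω] {j : Ω →+* ℂ} {act : 𝓞 F →+* AddMonoid.End (Pt (WAB A B) Ω)}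

/-- The prime v of F of degree one is good for the construction of the auxiliary field. -/
structure Okv (A B : F) {Ω : Type} [Field Ω] [DecidableEq Ω] [Algebra F Ω]
    (act : 𝓞 F →+* AddMonoid.End (Pt (WAB A B) Ω)) (m : Ideal (𝓞 F)) (ψ : Ideal (𝓞 F) →*₀ 𝓞 F) (l : ℕ)
    (π : 𝓞 F) (Ξ : Pt (WAB A B) Ω → Ω) (v : Pl F) : Prop where
  deg : (Ideal.absNorm v.asIdeal).Prime
  nl : (l : 𝓞 F) ∉ v.asIdeal
  cop : IsCoprime v.asIdeal m
  gv : ∀ V : ValuationSubring Ω, V.valuation ((Ideal.absNorm v.asIdeal : ℕ) : Ω) < 1 → GV A B V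
  frob : ∀ V : ValuationSubring Ω, (∀ a : 𝓞 F, a ∈ v.asIdeal → V.valuation (ak Ω a) < 1) →
      ∀ s : Ω ≃ₐ[F] Ω, (∀ x ∈ V, V.valuation (s x - x ^ Ideal.absNorm v.asIdeal) < 1) →
        ∀ n : ℕ, V.valuation (n : Ω) = 1 → ∀ T : Pt (WAB A B) Ω, n • T = 0 →
          ac (WAB A B) s T = act (ψ v.asIdeal) T
  xi : ∀ T ∈ Tor act π, T ≠ 0 →
      (∀ R ∈ Tor act (ψ v.asIdeal), ∀ V : ValuationSubring Ω, V.valuation (Ξ (T + R)) = 1) ∧
      (∀ R ∈ Tor act (ψ v.asIdeal), ∀ V : ValuationSubring Ω, V.valuation (ak Ω (ψ v.asIdeal)) < 1 →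
        V.valuation (Ξ (T + R) - Ξ T) < 1) ∧
      (act (ψ v.asIdeal) T = T → ∀ S' : Finset (Pt (WAB A B) Ω), TN act (ψ v.asIdeal) S' →
        ∏ R ∈ S', Ξ (T + R) = 1)

end H55K
end

-- from Lib.H55P.L1
section

open NumberField IsDedekindDomain

namespace H55P

open H55N
open H55B (g)

variable {F : Type} [Field F] [NumberField F] [IQ F] {K : Type} [Field K] [NumberField K]
  [Algebra F K] {m : ℕ}

/-! Chunk PL1 (M), PORT of Lib/H55N/L1.lean, the same with general F (O is a principal ideal domain: instPIDF; L1_trace_O etc.). label_int: the discriminant of K is prime to p: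
NumberField.not_dvd_discr_iff_forall_mem (see odd_discr in H55C/W7.lean) and UnrP: for a prime P above p, P^2 does not divide (p), so the ramification index is 1
(Ideal.ramificationIdx' / Ideal.IsDedekindDomain.ramificationIdx_eq_multiplicity ...). b contains a natural number N prime to p (absNorm b, as L1_odd). V(n) = 1 for integers n prime to
p: a n + b p = 1. -/

theorem pl1_coe (y : (𝓞 F)) : ((algebraMap (𝓞 F) (𝓞 K) y : 𝓞 K) : K) = algebraMap F K (y : F) := rfl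

theorem pl1_smul (y : (𝓞 F)) (x : 𝓞 K) : y • x = algebraMap (𝓞 F) (𝓞 K) y * x := Algebra.smul_def y x

theorem pl1_int_mem (b : Ideal (𝓞 K)) (hb : b ≠ ⊥) : ∃ N : ℕ, N ≠ 0 ∧ (N : 𝓞 K) ∈ b :=
  ⟨Ideal.absNorm b, fun h => hb (Ideal.absNorm_eq_zero_iff.1 h), Ideal.absNorm_mem b⟩

theorem pl1_int_mul (x : K) : ∃ (M : ℤ) (z : 𝓞 K), M ≠ 0 ∧ (z : K) = (M : K) * x := by
  have hx : IsAlgebraic ℤ x := by
    have h1 : IsAlgebraic ℚ x := Algebra.IsAlgebraic.isAlgebraic x
    exact (IsFractionRing.isAlgebraic_iff ℤ ℚ K).2 h1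
  obtain ⟨M, hM, h⟩ := hx.exists_integral_multiple
  refine ⟨M, ⟨M • x, h⟩, hM, ?_⟩
  show M • x = _
  rw [zsmul_eq_mul]

theorem pl1_basis (hm : Module.finrank F K = m + 1) (b : Ideal (𝓞 K)) (hb : b ≠ ⊥) :
    ∃ (β : Fin (m + 1) → 𝓞 K), (∀ j, β j ∈ b) ∧
      (∀ x ∈ b, ∃ y : Fin (m + 1) → (𝓞 F), x = ∑ j, algebraMap (𝓞 F) (𝓞 K) (y j) * β j) ∧
      LinearIndependent F (fun j => (β j : K)) := by
  have := a1_fin hm
  have : Module.Finite (𝓞 F) (𝓞 K) := inferInstance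
  have : Module.Free (𝓞 F) (b.restrictScalars (𝓞 F)) := by
    have : Module.IsTorsionFree (𝓞 F) (𝓞 K) := inferInstance
    exact Module.free_of_finite_type_torsion_free'
  let B := Module.finBasis (𝓞 F) (b.restrictScalars (𝓞 F))
  -- the images in K
  have hli0 : LinearIndependent (𝓞 F) (fun j => ((B j : 𝓞 K) : K)) := by
    have h1 := B.linearIndependent
    have h2 : LinearIndependent (𝓞 F) (fun j => ((B j : 𝓞 K))) :=
      h1.map' (Submodule.subtype _) (Submodule.ker_subtype _)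
    have h3 := h2.map' (Algebra.linearMap (𝓞 K) K |>.restrictScalars (𝓞 F)) (by
      rw [LinearMap.ker_eq_bot]
      exact RingOfIntegers.coe_injective)
    exact h3
  have hli : LinearIndependent F (fun j => ((B j : 𝓞 K) : K)) :=
    LinearIndependent.localization F (nonZeroDivisors (𝓞 F)) hli0
  have hrep : ∀ x ∈ b, ∃ y : Fin (Module.finrank (𝓞 F) (b.restrictScalars (𝓞 F))) → (𝓞 F),
      x = ∑ j, algebraMap (𝓞 F) (𝓞 K) (y j) * (B j : 𝓞 K) := by
    intro x hx
    have hx' : x ∈ b.restrictScalars (𝓞 F) := hx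
    refine ⟨fun j => B.repr ⟨x, hx'⟩ j, ?_⟩
    have h1 := B.sum_repr ⟨x, hx'⟩
    have h2 := congrArg (Submodule.subtype (b.restrictScalars (𝓞 F))) h1
    rw [map_sum] at h2
    have h3 : x = ∑ j, (b.restrictScalars (𝓞 F)).subtype (B.repr ⟨x, hx'⟩ j • B j) := h2.symm
    refine h3.trans (Finset.sum_congr rfl fun j _ => ?_)
    rw [map_smul, pl1_smul]
    rfl
  have hspan : ⊤ ≤ Submodule.span F (Set.range fun j => ((B j : 𝓞 K) : K)) := by
    intro x _
    obtain ⟨N, hN, hNb⟩ := pl1_int_mem b hb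
    obtain ⟨M, z, hM, hz⟩ := pl1_int_mul x
    obtain ⟨y, hy⟩ := hrep (N * z) (b.mul_mem_right z hNb)
    have h1 := congrArg (algebraMap (𝓞 K) K) hy
    rw [map_mul, map_natCast, map_sum] at h1
    have hzK : algebraMap (𝓞 K) K z = (M : K) * x := hz
    rw [hzK] at h1
    have hc : (algebraMap F K ((N : F) * (M : F))) ≠ 0 := by
      rw [Ne, map_eq_zero]
      exact mul_ne_zero (Nat.cast_ne_zero.2 hN) (Int.cast_ne_zero.2 hM)
    have h2 : ((N : F) * (M : F)) • x ∈ Submodule.span F (Set.range fun j => ((B j : 𝓞 K) : K)) := by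
      have h3 : ((N : F) * (M : F)) • x = (N : K) * ((M : K) * x) := by
        rw [Algebra.smul_def, map_mul, map_natCast, map_intCast, mul_assoc]
      rw [h3, h1]
      refine Submodule.sum_mem _ fun j _ => ?_
      rw [map_mul]
      have h4 : algebraMap (𝓞 K) K (algebraMap (𝓞 F) (𝓞 K) (y j)) * algebraMap (𝓞 K) K (B j : 𝓞 K) =
          (y j : F) • ((B j : 𝓞 K) : K) := by
        rw [Algebra.smul_def]
        rfl
      rw [h4]
      exact Submodule.smul_mem _ _ (Submodule.subset_span ⟨j, rfl⟩)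
    have hc' : ((N : F) * (M : F)) ≠ 0 := fun h => hc (by rw [h, map_zero])
    exact (Submodule.smul_mem_iff _ hc').1 h2
  have hcard : Module.finrank (𝓞 F) (b.restrictScalars (𝓞 F)) = m + 1 := by
    rw [← hm]
    have h := Module.finrank_eq_card_basis (Module.Basis.mk hli hspan)
    rw [h, Fintype.card_fin]
  let E : Fin (m + 1) ≃ Fin (Module.finrank (𝓞 F) (b.restrictScalars (𝓞 F))) := finCongr hcard.symm
  refine ⟨fun j => (B (E j) : 𝓞 K), fun j => (B (E j)).2, ?_, ?_⟩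
  · intro x hx
    obtain ⟨y, hy⟩ := hrep x hx
    refine ⟨fun j => y (E j), ?_⟩
    rw [hy]
    exact (E.sum_comp fun j => algebraMap (𝓞 F) (𝓞 K) (y j) * (B j : 𝓞 K)).symm
  · exact hli.comp E E.injective

/-- The dual basis for the trace form. -/
theorem pl1_dual (hm : Module.finrank F K = m + 1) (A : Fin (m + 1) → K)
    (hA : LinearIndependent F A) :
    ∃ A' : Fin (m + 1) → K, LinearIndependent F A' ∧
      ∀ j k, Algebra.trace F K (A j * A' k) = if j = k then 1 else 0 := by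
  have := a1_fin hm
  let B : Module.Basis (Fin (m + 1)) F K :=
    basisOfLinearIndependentOfCardEqFinrank hA (by rw [hm, Fintype.card_fin])
  have hB : ∀ j, B j = A j := fun j => by
    rw [coe_basisOfLinearIndependentOfCardEqFinrank]
  let B' := (Algebra.traceForm F K).dualBasis (traceForm_nondegenerate F K) B
  refine ⟨B', B'.linearIndependent, fun j k => ?_⟩
  have h := LinearMap.BilinForm.apply_dualBasis_left (B := Algebra.traceForm F K)
    (hB := traceForm_nondegenerate F K) (b := B) k j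
  rw [Algebra.traceForm_apply, hB] at h
  rw [mul_comm]
  exact h

theorem dual_basis (hm : Module.finrank F K = m + 1) (b : Ideal (𝓞 K)) (hb : b ≠ ⊥) :
    ∃ (β : Fin (m + 1) → 𝓞 K) (β' : Fin (m + 1) → K), (∀ j, β j ∈ b) ∧
      (∀ j k, Algebra.trace F K ((β j : K) * β' k) = if j = k then 1 else 0) ∧
      (∀ x ∈ b, ∃ y : Fin (m + 1) → (𝓞 F), x = ∑ j, algebraMap (𝓞 F) (𝓞 K) (y j) * β j) ∧
      LinearIndependent F β' := by
  obtain ⟨β, h1, h2, h3⟩ := pl1_basis hm b hb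
  obtain ⟨β', h4, h5⟩ := pl1_dual hm _ h3
  exact ⟨β, β', h1, h5, h2, h4⟩

/-- Dual bases and directions: for a basis A of K/F and a nonzero ideal I there are nonzero d_j in I with Tr(d_j A_k) = 0 for k <> j. PROOF. The dual basis A* of A
for the trace form; multiply A*_j by a nonzero integer M with M A*_j in O_K (exists_integral_multiple) and by a nonzero element of I. -/
theorem directions (hm : Module.finrank F K = m + 1) (A : Fin (m + 1) → K)
    (hA : LinearIndependent F A) (I : Ideal (𝓞 K)) (hI : I ≠ ⊥) :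
    ∃ d : Fin (m + 1) → 𝓞 K, (∀ j, d j ∈ I) ∧ (∀ j, d j ≠ 0) ∧
      ∀ j k, k ≠ j → Algebra.trace F K ((d j : K) * A k) = 0 := by
  obtain ⟨A', h1, h2⟩ := pl1_dual hm A hA
  obtain ⟨N, hN, hNI⟩ := pl1_int_mem I hI
  choose M z hM hz using fun j => pl1_int_mul (A' j)
  refine ⟨fun j => N * z j, fun j => I.mul_mem_right _ hNI, fun j => ?_, fun j k hjk => ?_⟩
  · refine mul_ne_zero (Nat.cast_ne_zero.2 hN) ?_
    intro h
    have h3 : ((z j : 𝓞 K) : K) = 0 := by rw [h]; rfl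
    rw [hz j] at h3
    rcases mul_eq_zero.1 h3 with h4 | h4
    · exact hM j (Int.cast_eq_zero.1 h4)
    · exact h1.ne_zero j h4
  · have h3 : (((N : 𝓞 K) * z j : 𝓞 K) : K) * A k = ((N : F) * (M j : F)) • (A k * A' j) := by
      rw [Algebra.smul_def, map_mul, map_natCast, map_intCast]
      have h4 : (((N : 𝓞 K) * z j : 𝓞 K) : K) = (N : K) * ((z j : 𝓞 K) : K) := by
        rw [← map_natCast (algebraMap (𝓞 K) K) N]
        exact map_mul (algebraMap (𝓞 K) K) _ _
      rw [h4, hz j]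
      ring
    rw [h3, map_smul, h2 k j, if_neg hjk, smul_zero]


theorem absNorm_cop (p : ℕ) (hp : p.Prime) (b : Ideal (𝓞 K)) (hb : IsCoprime b (Ideal.span {(p : 𝓞 K)})) :
    ¬ p ∣ Ideal.absNorm b := by
  have hb0 : b ≠ ⊥ := by
    rintro rfl
    obtain ⟨x, hx, y, hy, h⟩ := Ideal.isCoprime_iff_exists.1 hb
    rw [Ideal.mem_bot] at hx
    rw [hx, zero_add] at h
    rw [h, Ideal.mem_span_singleton] at hy
    obtain ⟨c, hc⟩ := hy
    have h1 := congrArg (Algebra.norm ℤ) hc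
    rw [map_one, map_mul] at h1
    have h2 : Algebra.norm ℤ (p : 𝓞 K) = p ^ Module.finrank ℤ (𝓞 K) := by
      have := Algebra.norm_algebraMap (S := 𝓞 K) (p : ℤ)
      rw [map_natCast] at this
      exact this
    rw [h2] at h1
    have h3 : 0 < Module.finrank ℤ (𝓞 K) := Module.finrank_pos
    have h4 : (p : ℤ) ∣ 1 := by
      rw [h1]
      exact Dvd.dvd.mul_right (dvd_pow_self _ h3.ne') _
    exact hp.one_lt.ne' (by exact_mod_cast Int.eq_one_of_dvd_one (by positivity) h4)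
  intro h2
  rw [Ideal.absNorm_apply, Submodule.cardQuot_apply] at h2
  have : Finite (𝓞 K ⧸ b) := Ideal.finiteQuotientOfFreeOfNeBot b hb0
  have : Fact (Nat.Prime p) := ⟨hp⟩
  obtain ⟨z, hz⟩ := exists_prime_addOrderOf_dvd_card' (G := 𝓞 K ⧸ b) p h2
  obtain ⟨t, rfl⟩ := Ideal.Quotient.mk_surjective z
  have hz0 : Ideal.Quotient.mk b t ≠ 0 := by
    intro h
    rw [h, addOrderOf_zero] at hz
    exact hp.one_lt.ne hz
  have hz2 : (p : 𝓞 K) * t ∈ b := by
    have h3 := addOrderOf_nsmul_eq_zero (Ideal.Quotient.mk b t)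
    rw [hz] at h3
    rw [← Ideal.Quotient.eq_zero_iff_mem, map_mul, map_natCast]
    rw [nsmul_eq_mul] at h3
    exact h3
  obtain ⟨x, hx, y, hy, h⟩ := Ideal.isCoprime_iff_exists.1 hb
  obtain ⟨c, hc⟩ := Ideal.mem_span_singleton.1 hy
  apply hz0
  rw [Ideal.Quotient.eq_zero_iff_mem]
  have h5 : t = x * t + c * (p * t) := by
    rw [hc] at h
    linear_combination (-t) * h
  rw [h5]
  exact b.add_mem (b.mul_mem_right _ hx) (b.mul_mem_left _ hz2)

theorem val_nat (p : ℕ) (hp : p.Prime) (V : ValuationSubring ℂ) (hV : V.valuation (p : ℂ) < 1) (n : ℕ)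
    (hn : ¬ p ∣ n) : V.valuation (n : ℂ) = 1 := by
  have hint : ∀ k : ℤ, V.valuation (k : ℂ) ≤ 1 := fun k => by
    have h := V.valuation_le_one (k : V)
    exact_mod_cast h
  have h1 : IsCoprime (n : ℤ) (p : ℤ) := Nat.isCoprime_iff_coprime.2
    (((Nat.Prime.coprime_iff_not_dvd hp).2 hn).symm)
  obtain ⟨a, b, h⟩ := h1
  refine le_antisymm (by exact_mod_cast hint n) ?_
  by_contra hcon
  push Not at hcon
  have h2 : (1 : ℂ) = (a : ℂ) * (n : ℂ) + (b : ℂ) * (p : ℂ) := by exact_mod_cast h.symm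
  have h3 : V.valuation ((a : ℂ) * (n : ℂ)) < 1 := by
    rw [map_mul]
    exact mul_lt_one_of_nonneg_of_lt_one_right (hint a) (zero_le) hcon
  have h4 : V.valuation ((b : ℂ) * (p : ℂ)) < 1 := by
    rw [map_mul]
    exact mul_lt_one_of_nonneg_of_lt_one_right (hint b) (zero_le) hV
  have h5 := Valuation.map_add_lt V.valuation h3 h4
  rw [← h2, map_one] at h5
  exact lt_irrefl _ h5

theorem pl1_discr (p : ℕ) (hp : p.Prime) {K : Type} [Field K] [NumberField K] (hK : UnrP p K) :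
    ¬ (p : ℤ) ∣ NumberField.discr K := by
  have hpp : Prime (p : ℤ) := Nat.prime_iff_prime_int.1 hp
  rw [NumberField.not_dvd_discr_iff_forall_mem K (𝓞 K) hpp]
  intro P hP h2
  have h2' : (p : 𝓞 K) ∈ P := by exact_mod_cast h2
  have hp0 : (p : 𝓞 K) ≠ 0 := Nat.cast_ne_zero.2 hp.ne_zero
  have hPne : P ≠ ⊥ := by
    rintro rfl
    rw [Ideal.mem_bot] at h2'
    exact hp0 h2'
  have hle : Ideal.map (algebraMap ℤ (𝓞 K)) (Ideal.span {(p : ℤ)}) = Ideal.span {(p : 𝓞 K)} := by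
    rw [Ideal.map_span, Set.image_singleton, map_natCast]
  have hover : P.under ℤ = Ideal.span {(p : ℤ)} := by
    have hmax : (Ideal.span {(p : ℤ)}).IsMaximal :=
      PrincipalIdealRing.isMaximal_of_irreducible hpp.irreducible
    refine (hmax.eq_of_le (Ideal.IsPrime.ne_top inferInstance) ?_).symm
    rw [Ideal.span_singleton_le_iff_mem, Ideal.under_def, Ideal.mem_comap, map_natCast]
    exact h2'
  have : P.LiesOver (Ideal.span {(p : ℤ)}) := ⟨hover.symm⟩
  have he : (Ideal.span {(p : ℤ)}).ramificationIdx' P = 1 := by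
    refine Ideal.ramificationIdx'_spec ?_ ?_
    · rw [hle, pow_one, Ideal.span_singleton_le_iff_mem]
      exact h2'
    · rw [hle]
      intro h
      have h3 : P * P ∣ Ideal.span {(p : 𝓞 K)} := by
        rw [Ideal.dvd_iff_le, ← pow_two]
        exact h
      have h4 := hK P h3
      rw [Ideal.isUnit_iff] at h4
      exact hP.ne_top h4
  have hne : Ideal.span {(p : ℤ)} ≠ ⊥ := by
    rw [Ne, Ideal.span_singleton_eq_bot]
    exact hpp.ne_zero
  rw [Ideal.ramificationIdx'_eq_ramificationIdx (Ideal.span {(p : ℤ)}) P hne] at he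
  exact Ideal.ramificationIdx_eq_one_iff.1 he

theorem pl1_dual_int (a : K)
    (ha : ∀ x : 𝓞 K, ∃ z : ℤ, Algebra.trace ℚ K ((x : K) * a) = z) :
    ∃ y : 𝓞 K, (y : K) = (NumberField.discr K : K) * a := by
  have hone : (1 : FractionalIdeal (nonZeroDivisors (𝓞 K)) K) ≠ 0 := one_ne_zero
  have h1 : a ∈ FractionalIdeal.dual ℤ ℚ (1 : FractionalIdeal (nonZeroDivisors (𝓞 K)) K) := by
    rw [FractionalIdeal.mem_dual hone]
    intro x hx
    rw [FractionalIdeal.mem_one_iff] at hx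
    obtain ⟨x, rfl⟩ := hx
    obtain ⟨z, hz⟩ := ha x
    refine ⟨z, ?_⟩
    rw [Algebra.traceForm_apply, mul_comm]
    rw [eq_intCast]
    exact hz.symm
  have h2 : ((NumberField.discr K : ℤ) : 𝓞 K) ∈ differentIdeal ℤ (𝓞 K) := by
    have h3 := Ideal.absNorm_mem (differentIdeal ℤ (𝓞 K))
    rw [NumberField.absNorm_differentIdeal K (𝓞 K), ← Int.cast_natCast] at h3
    rcases Int.natAbs_eq (NumberField.discr K) with h4 | h4
    · rw [h4]
      exact h3
    · rw [h4, Int.cast_neg]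
      exact neg_mem h3
  have h3 : algebraMap (𝓞 K) K ((NumberField.discr K : ℤ) : 𝓞 K) ∈
      ((differentIdeal ℤ (𝓞 K) : Ideal (𝓞 K)) : FractionalIdeal (nonZeroDivisors (𝓞 K)) K) :=
    (FractionalIdeal.mem_coeIdeal (nonZeroDivisors (𝓞 K))).2 ⟨_, h2, rfl⟩
  have h4 := FractionalIdeal.mul_mem_mul h3 h1
  rw [coeIdeal_differentIdeal (K := ℚ), inv_mul_cancel₀ (FractionalIdeal.dual_ne_zero ℤ ℚ hone),
    FractionalIdeal.mem_one_iff] at h4
  obtain ⟨y, hy⟩ := h4
  refine ⟨y, ?_⟩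
  rw [map_intCast] at hy
  exact hy

theorem pl1_trace_O (y : (𝓞 F)) : ∃ z : ℤ, Algebra.trace ℚ F (y : F) = z := by
  have h : IsIntegral ℤ (Algebra.trace ℚ F (y : F)) := Algebra.isIntegral_trace y.2
  obtain ⟨z, hz⟩ := IsIntegrallyClosed.isIntegral_iff.1 h
  exact ⟨z, by rw [← hz, eq_intCast]⟩

theorem label_int (p : ℕ) (hp : p.Prime) (hK : UnrP p K) (b : Ideal (𝓞 K))
    (hb : IsCoprime b (Ideal.span {(p : 𝓞 K)})) (a : K)
    (ha : ∀ x ∈ b, ∃ y : 𝓞 F, Algebra.trace F K ((x : K) * a) = algebraMap (𝓞 F) F y) (τ : K →+* ℂ)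
    (V : ValuationSubring ℂ) (hV : V.valuation (p : ℂ) < 1) : V.valuation (τ a) ≤ 1 := by
  have hN := absNorm_cop p hp b hb
  have hNb := Ideal.absNorm_mem b
  obtain ⟨N, hNdef⟩ : ∃ N : ℕ, N = Ideal.absNorm b := ⟨_, rfl⟩
  rw [← hNdef] at hN hNb
  obtain ⟨y, hy⟩ := pl1_dual_int (K := K) ((N : K) * a) (by
    intro x
    obtain ⟨y, hy⟩ := ha (N * x) (b.mul_mem_right x hNb)
    obtain ⟨z, hz⟩ := pl1_trace_O y
    refine ⟨z, ?_⟩
    have h1 : (x : K) * ((N : K) * a) = (((N : 𝓞 K) * x : 𝓞 K) : K) * a := by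
      have h4 : (((N : 𝓞 K) * x : 𝓞 K) : K) = (N : K) * (x : K) := by
        rw [← map_natCast (algebraMap (𝓞 K) K) N]
        exact map_mul (algebraMap (𝓞 K) K) _ _
      rw [h4]
      ring
    rw [h1, ← Algebra.trace_trace (S := F), hy]
    exact hz)
  have hd := pl1_discr p hp hK
  have h1 : V.valuation (τ (y : K)) ≤ 1 := by
    have h2 : IsIntegral ℤ (τ (y : K)) := map_isIntegral_int τ y.2
    have h3 : IsIntegral V (τ (y : K)) := h2.tower_top
    obtain ⟨t, ht⟩ := IsIntegrallyClosed.isIntegral_iff.1 h3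
    rw [← ht]
    exact V.valuation_le_one t
  have hodd : ∀ n : ℤ, ¬ (p : ℤ) ∣ n → V.valuation (n : ℂ) = 1 := by
    intro n hn
    have h1 := val_nat p hp V hV n.natAbs (fun h => hn (Int.natCast_dvd.2 h))
    rw [← Int.cast_natCast] at h1
    rcases Int.natAbs_eq n with h2 | h2
    · rw [h2]
      exact h1
    · rw [h2, Int.cast_neg, Valuation.map_neg]
      exact h1
  rw [hy, map_mul, map_intCast, map_mul, hodd _ hd, one_mul, map_mul, map_natCast, map_mul] at h1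
  have h3 : V.valuation ((N : ℕ) : ℂ) = 1 := by
    exact val_nat p hp V hV N hN
  rw [h3, one_mul] at h1
  exact h1

end H55P
end

-- from Lib.H55P.E9
section

open NumberField IsDedekindDomain

namespace H55P

open H55N
open H55B (g)

variable {F : Type} [Field F] [NumberField F] [IQ F] {K : Type} [Field K] [NumberField K]
  [Algebra F K] {m : ℕ}

/-! Chunk PE9 (S/M), PORT of Lib/H55N/E9.lean. m0 = absNorm (mK K M * f) * prod p_i * Nm d, where Nm d = absNorm (span {d}) (H55P/F0.lean); d divides Nm d in O (Ideal.absNorm_mem), which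
replaces cj d * d. ¬ p ∣ m0: absNorm_cop (H55P/L1.lean) for mK K M * f (coprime to p: M is coprime to p, map the relation) and for span {d}, p_i <> p. l divides m0: absNorm (mK K M * f) is in mK K M <= (l) O_K, and
(l) O_K contracts to (l) (for x in O, l divides x in O_K implies l divides x in O: O integrally closed: x/l is in F and integral). -/

theorem pe9_cop {M : Ideal (𝓞 F)} {p : ℕ} (h : IsCoprime M (Ideal.span {(p : 𝓞 F)})) :
    IsCoprime (mK K M) (Ideal.span {(p : 𝓞 K)}) := by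
  obtain ⟨a, ha, c, hc, hac⟩ := Ideal.isCoprime_iff_exists.1 h
  obtain ⟨c', rfl⟩ := Ideal.mem_span_singleton.1 hc
  refine Ideal.isCoprime_iff_exists.2 ⟨algebraMap (𝓞 F) (𝓞 K) a, Ideal.mem_map_of_mem _ ha,
    algebraMap (𝓞 F) (𝓞 K) ((p : 𝓞 F) * c'), ?_, ?_⟩
  · rw [map_mul, map_natCast]
    exact Ideal.mul_mem_right _ _ (Ideal.mem_span_singleton_self _)
  · rw [← map_add, hac, map_one]

theorem pe9_dvd {M : Ideal (𝓞 F)} {l : 𝓞 F} (hl : l ≠ 0) (hM : M ≤ Ideal.span {l}) {n : ℕ}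
    (hn : (n : 𝓞 K) ∈ mK K M) : l ∣ (n : 𝓞 F) := by
  have h1 : mK K M ≤ Ideal.span {algebraMap (𝓞 F) (𝓞 K) l} := by
    unfold mK
    rw [Ideal.map_le_iff_le_comap]
    intro x hx
    obtain ⟨t, rfl⟩ := Ideal.mem_span_singleton.1 (hM hx)
    rw [Ideal.mem_comap, map_mul]
    exact Ideal.mul_mem_right _ _ (Ideal.mem_span_singleton_self _)
  obtain ⟨t, ht⟩ := Ideal.mem_span_singleton.1 (h1 hn)
  have hl' : (l : F) ≠ 0 := by
    intro h0
    exact hl (RingOfIntegers.coe_injective (h0.trans (map_zero (algebraMap (𝓞 F) F)).symm))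
  have h2 : ((n : ℕ) : K) = algebraMap F K (l : F) * (t : K) := by
    have h3 := congrArg (algebraMap (𝓞 K) K) ht
    rw [map_natCast, map_mul] at h3
    exact h3
  have h4 : algebraMap F K ((n : F) / (l : F)) = (t : K) := by
    rw [map_div₀, map_natCast, h2, mul_div_cancel_left₀]
    exact (map_ne_zero _).2 hl'
  have h5 : IsIntegral ℤ ((n : F) / (l : F)) := by
    rw [← isIntegral_algebraMap_iff (algebraMap F K).injective, h4]
    exact t.2
  refine ⟨⟨_, h5⟩, ?_⟩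
  apply RingOfIntegers.coe_injective
  rw [map_natCast, map_mul]
  change (n : F) = (l : F) * ((n : F) / (l : F))
  field_simp

theorem m0_exists (D : Ctx F K m) (hD : D.Ok) (p : ℕ) (hp : p.Prime) {M : Ideal (𝓞 F)} {l : 𝓞 F}
    (hM : Mod p M l) (b f : Ideal (𝓞 K)) (hf : f ≠ ⊥) (hfp : IsCoprime f (Ideal.span {(p : 𝓞 K)}))
    (hI : D.I = mK K M * f * b) (hpi : ∀ i, D.p i ≠ p) (u : Fin m → (𝓞 K)ˣ)
    (L : (Fin m → ℤ) → K) (hL : LabP p l b D.c₀ u L) (a : Fin m → ℤ) (π : Equiv.Perm (Fin m)) :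
    ∃ m₀ : ℕ, m₀ ≠ 0 ∧ ¬ p ∣ m₀ ∧ l ∣ (m₀ : 𝓞 F) ∧
      ∀ y : Fin (m + 1) → 𝓞 F, ∃ x : 𝓞 K, x ∈ D.I ∧ (∀ i, x ∈ D.c i) ∧
        ∀ k : Fin (m + 1), D.Tr (L (kv a π k)) x = m₀ * eF F (y k) := by
  classical
  obtain ⟨d, hd2, hd⟩ := hL.cop a π
  have hN1 : ¬ p ∣ Ideal.absNorm (mK K M * f) :=
    absNorm_cop p hp _ ((pe9_cop hM.cop).mul_left hfp)
  have hNd : ¬ p ∣ Nm d := by
    refine absNorm_cop (K := F) p hp (Ideal.span {d}) ?_
    rw [Ideal.isCoprime_span_singleton_iff]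
    exact hd2
  have hP : ¬ p ∣ ∏ i, D.p i := by
    intro h
    obtain ⟨i, -, hi⟩ := (Prime.dvd_finset_prod_iff hp.prime _).1 h
    exact hpi i ((Nat.prime_dvd_prime_iff_eq hp (hD.smooth.prime i)).1 hi).symm
  obtain ⟨N, hN⟩ : ∃ N : ℕ, N = Ideal.absNorm (mK K M * f) := ⟨_, rfl⟩
  have hNmem : (N : 𝓞 K) ∈ mK K M * f := by
    rw [hN]
    exact Ideal.absNorm_mem _
  rw [← hN] at hN1
  have hm0 : ¬ p ∣ N * (∏ i, D.p i) * Nm d := by
    intro h
    rcases (hp.dvd_mul).1 h with h | h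
    · rcases (hp.dvd_mul).1 h with h | h
      · exact hN1 h
      · exact hP h
    · exact hNd h
  obtain ⟨d', hd'⟩ : d ∣ (Nm d : 𝓞 F) := by
    rw [← Ideal.mem_span_singleton]
    exact Ideal.absNorm_mem _
  refine ⟨N * (∏ i, D.p i) * Nm d, ?_, hm0, ?_, fun y => ?_⟩
  · intro h0
    rw [h0] at hm0
    exact hm0 (dvd_zero p)
  · have h1 : l ∣ (N : 𝓞 F) := pe9_dvd (K := K) hM.prime.ne_zero hM.le
      (Ideal.mul_le_left hNmem)
    rw [Nat.cast_mul, Nat.cast_mul]
    exact (h1.mul_right _).mul_right _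
  · obtain ⟨x, hx, hxk⟩ := hd fun k => d' * y k
    refine ⟨((N * (∏ i, D.p i) : ℕ) : 𝓞 K) * x, ?_, ?_, ?_⟩
    · rw [hI]
      refine Ideal.mul_mem_mul ?_ hx
      rw [Nat.cast_mul]
      exact Ideal.mul_mem_right _ _ hNmem
    · intro i
      refine Ideal.mul_mem_right _ _ ?_
      have h1 : ((D.p i : ℕ) : 𝓞 K) ∈ D.c i := by
        rw [← hD.smooth.norm i]
        exact Ideal.absNorm_mem _
      obtain ⟨t, ht⟩ : D.p i ∣ N * (∏ i, D.p i) :=
        (Finset.dvd_prod_of_mem _ (Finset.mem_univ i)).mul_left _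
      rw [ht, Nat.cast_mul]
      exact Ideal.mul_mem_right _ _ h1
    · intro k
      rw [Tr_eq D hD.emb]
      have h1 : ((((N * (∏ i, D.p i) : ℕ) : 𝓞 K) * x : 𝓞 K) : K) *
          L (kv a π k) = ((N * (∏ i, D.p i) : ℕ) : F) • ((x : K) * L (kv a π k)) := by
        have h2 : ((((N * (∏ i, D.p i) : ℕ) : 𝓞 K) * x : 𝓞 K) : K) =
            ((N * (∏ i, D.p i) : ℕ) : K) * (x : K) := by
          have h := map_mul (algebraMap (𝓞 K) K) ((N * (∏ i, D.p i) : ℕ) : 𝓞 K) x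
          rw [map_natCast] at h
          exact h
        rw [h2, Algebra.smul_def, map_natCast]
        ring
      rw [h1, map_smul, hxk k, smul_eq_mul, map_mul, map_natCast]
      have h3 : d * (d' * y k) = (Nm d : 𝓞 F) * y k := by rw [hd', mul_assoc]
      rw [h3]
      have h4 : embF F ((algebraMap (𝓞 F) F) ((Nm d : 𝓞 F) * y k)) = (Nm d : ℂ) * eF F (y k) := by
        show eF F ((Nm d : 𝓞 F) * y k) = _
        rw [map_mul, map_natCast]
      rw [h4]
      push_cast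
      ring

end H55P
end

-- from Lib.H55P.D3
section

open NumberField IsDedekindDomain

namespace H55P

open H55N
open H55B (g)

variable {F : Type} [Field F] [NumberField F] [IQ F] {K : Type} [Field K] [NumberField K]
  [Algebra F K] {m : ℕ}

/-! Chunk PD3 (M), PORT of Lib/H55N/D3.lean (D3_U, D3_mem, D3_fin, D3_main do not use the field F of H55N: import and use them; if they do, copy them with other names). D3_rad becomes:
x^p in (p) implies x in (p), because the ideal (p) is squarefree (UnrP; isRadical_iff_squarefree_of_ne_zero, Ideal.dvd_span_singleton). The index nu of U' in U is prime to p: otherwise there is an element of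
order p in U/U' (Cauchy, exists_prime_orderOf_dvd_card'), i.e. v in U, v^p in U', v not in U': (v - 1)^p = v^p - 1 modulo p (sub_pow_char_pow_of_commute or
add_pow_char / exists_add_pow_prime_eq), so (v-1)^p is in (p), v - 1 is in (p) and in J, which are coprime, so v - 1 is in (p) J = J'. -/

theorem pd3_rad {p : ℕ} (hp : p.Prime) (hK : UnrP p K) (x : 𝓞 K)
    (h : x ^ p ∈ Ideal.span {(p : 𝓞 K)}) : x ∈ Ideal.span {(p : 𝓞 K)} := by
  have h0 : Ideal.span {(p : 𝓞 K)} ≠ 0 := by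
    rw [Ne, Ideal.zero_eq_bot, Ideal.span_singleton_eq_bot]
    exact_mod_cast hp.ne_zero
  have h1 : IsRadical (Ideal.span {(p : 𝓞 K)}) := (isRadical_iff_squarefree_of_ne_zero h0).2 hK
  have h2 : Ideal.span {(p : 𝓞 K)} ∣ Ideal.span {x} := by
    apply h1 p
    rw [Ideal.span_singleton_pow, Ideal.dvd_span_singleton]
    exact h
  rwa [Ideal.dvd_span_singleton] at h2

theorem prime_change (p : ℕ) (hp : p.Prime) (hK : UnrP p K) (J J' : Ideal (𝓞 K)) (hJ : J ≠ ⊥)
    (hJ2 : IsCoprime J (Ideal.span {(p : 𝓞 K)})) (hJ' : J' = Ideal.span {(p : 𝓞 K)} * J)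
    (X : Set (𝓞 K)) (hX0 : (0 : 𝓞 K) ∉ X)
    (hX : ∀ u : (𝓞 K)ˣ, (u : 𝓞 K) - 1 ∈ J → ∀ x ∈ X, (u : 𝓞 K) * x ∈ X) :
    ∃ ν : ℕ, ¬ p ∣ ν ∧ ∀ T, Transv J X T → ∃ T', Transv J' X T' ∧
      ∀ (φ : 𝓞 K → ℂ) (S : ℂ), (∀ u : (𝓞 K)ˣ, (u : 𝓞 K) - 1 ∈ J → ∀ x ∈ X, φ ((u : 𝓞 K) * x) = φ x) →
        HasSum (fun x : T' => φ x) S → HasSum (fun x : T => φ x) (S / ν) := by
  have hp0 : (p : 𝓞 K) ≠ 0 := by exact_mod_cast hp.ne_zero
  have hJ'0 : J' ≠ ⊥ := by
    rw [hJ', Ne, Ideal.mul_eq_bot, Ideal.span_singleton_eq_bot]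
    exact fun h => h.elim hp0 hJ
  have hle : J' ≤ J := hJ' ▸ Ideal.mul_le_right
  haveI := D3_fin J' hJ'0
  haveI hfi : ((D3_U J').subgroupOf (D3_U J)).FiniteIndex := inferInstance
  refine ⟨((D3_U J').subgroupOf (D3_U J)).index, ?_, D3_main J J' hle X hfi hX0 hX⟩
  intro hev
  haveI : Finite ((D3_U J) ⧸ ((D3_U J').subgroupOf (D3_U J))) :=
    Subgroup.finite_quotient_of_finiteIndex
  haveI : Fact (Nat.Prime p) := ⟨hp⟩
  obtain ⟨q, hq⟩ := exists_prime_orderOf_dvd_card' (G := (D3_U J) ⧸ ((D3_U J').subgroupOf (D3_U J)))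
    p hev
  obtain ⟨a, rfl⟩ := QuotientGroup.mk_surjective q
  have h1 := pow_orderOf_eq_one (QuotientGroup.mk a : (D3_U J) ⧸ ((D3_U J').subgroupOf (D3_U J)))
  rw [hq, ← QuotientGroup.mk_pow, QuotientGroup.eq_one_iff, Subgroup.mem_subgroupOf, D3_mem] at h1
  have h2 : (((a : (𝓞 K)ˣ) : 𝓞 K) - 1) ^ p ∈ Ideal.span {(p : 𝓞 K)} := by
    obtain ⟨r, hr⟩ := exists_add_pow_prime_eq hp (((a : (𝓞 K)ˣ) : 𝓞 K) - 1) 1
    have h3 : (((a : (𝓞 K)ˣ) : 𝓞 K) - 1) ^ p =
        ((((a ^ p : D3_U J) : (𝓞 K)ˣ) : 𝓞 K) - 1) -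
          (p : 𝓞 K) * ((((a : (𝓞 K)ˣ) : 𝓞 K) - 1) * 1 * r) := by
      rw [SubmonoidClass.coe_pow, Units.val_pow_eq_pow_val]
      rw [sub_add_cancel, one_pow] at hr
      linear_combination -hr
    rw [h3]
    refine Ideal.sub_mem _ ?_ (Ideal.mul_mem_right _ _ (Ideal.mem_span_singleton_self _))
    exact (hJ' ▸ Ideal.mul_le_left : J' ≤ Ideal.span {(p : 𝓞 K)}) h1
  have h4 := pd3_rad hp hK _ h2
  have h5 : ((a : (𝓞 K)ˣ) : 𝓞 K) - 1 ∈ J' := by
    have h6 : ((a : (𝓞 K)ˣ) : 𝓞 K) - 1 ∈ Ideal.span {(p : 𝓞 K)} ⊓ J := ⟨h4, (D3_mem J _).1 a.2⟩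
    rw [hJ', Ideal.mul_eq_inf_of_coprime]
    · exact h6
    · exact (Ideal.isCoprime_iff_sup_eq.1 hJ2.symm)
  have h7 : (QuotientGroup.mk a : (D3_U J) ⧸ ((D3_U J').subgroupOf (D3_U J))) = 1 := by
    rw [QuotientGroup.eq_one_iff, Subgroup.mem_subgroupOf, D3_mem]
    exact h5
  rw [h7, orderOf_one] at hq
  exact hp.one_lt.ne hq

theorem finite_change (J J' : Ideal (𝓞 K)) (hJ' : J' ≠ ⊥) (hle : J' ≤ J) (X : Set (𝓞 K))
    (hX0 : (0 : 𝓞 K) ∉ X) (hX : ∀ u : (𝓞 K)ˣ, (u : 𝓞 K) - 1 ∈ J → ∀ x ∈ X, (u : 𝓞 K) * x ∈ X) :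
    ∃ ν : ℕ, 0 < ν ∧ ∀ T, Transv J X T → ∃ T', Transv J' X T' ∧
      ∀ (φ : 𝓞 K → ℂ) (S : ℂ), (∀ u : (𝓞 K)ˣ, (u : 𝓞 K) - 1 ∈ J → ∀ x ∈ X, φ ((u : 𝓞 K) * x) = φ x) →
        HasSum (fun x : T' => φ x) S → HasSum (fun x : T => φ x) (S / ν) := by
  haveI := D3_fin J' hJ'
  haveI hfi : ((D3_U J').subgroupOf (D3_U J)).FiniteIndex := inferInstance
  exact ⟨((D3_U J').subgroupOf (D3_U J)).index, Nat.pos_of_ne_zero hfi.index_ne_zero,
    D3_main J J' hle X hfi hX0 hX⟩

end H55P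
end

-- from Lib.H55P.T1
section

open NumberField IsDedekindDomain

namespace H55P

open H55N
open H55B (g)

variable {F : Type} [Field F] [NumberField F] [IQ F] {K : Type} [Field K] [NumberField K]
  [Algebra F K] {m : ℕ}

/-! Chunk PT1 (M). Properties of PsiP. Models: Lib/H55N/H1.lean (Psi_ne, Psi_norm). relNorm a is coprime to M iff a is coprime to mK K M (for a <> 0): both multiplicative / check on primes: relNorm w = v^f
(Ideal.relNorm_eq_pow_of_isMaximal), f > 0, w.under = v; w is coprime to mK K M iff M is not contained in v (mK K M <= w iff M <= comap w = v). The absolute value: |e ψ(J)|^2 = absNorm (span {ψ J}) = absNorm J by IsHecke.gen and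
Nm_eq (H55P/F0.lean), absNorm (relNorm a) = absNorm a. PsiP_unit: b coprime to p: absNorm b is prime to p (absNorm_cop in H55P/L1.lean), PsiP b * conj (PsiP b) = absNorm b; both factors are algebraic integers,
so in V (see label_int), and V(absNorm b) = 1 (val_nat), so both are units. PsiP_top: Ideal.relNorm_relNorm. -/

theorem PT1_max {R : Type} [CommRing R] (P I : Ideal R) (hP : P.IsMaximal) :
    IsCoprime P I ↔ ¬ I ≤ P := by
  rw [Ideal.isCoprime_iff_sup_eq]
  constructor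
  · intro h hI
    rw [sup_eq_left.2 hI] at h
    exact hP.ne_top h
  · intro h
    refine hP.out.2 _ (lt_of_le_of_ne le_sup_left ?_)
    intro he
    apply h
    rw [he]
    exact le_sup_right

omit [IQ F] in
theorem PT1_prime (M : Ideal (𝓞 F)) (w : HeightOneSpectrum (𝓞 K)) :
    IsCoprime (Ideal.relNorm (𝓞 F) w.asIdeal) M ↔ IsCoprime w.asIdeal (mK K M) := by
  have hwm := w.isMaximal
  have hv0 : w.asIdeal.under (𝓞 F) ≠ ⊥ := mt Ideal.eq_bot_of_comap_eq_bot w.ne_bot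
  have hvp : (w.asIdeal.under (𝓞 F)).IsPrime := inferInstance
  have hvm : (w.asIdeal.under (𝓞 F)).IsMaximal := hvp.isMaximal hv0
  have hover : w.asIdeal.LiesOver (w.asIdeal.under (𝓞 F)) := ⟨rfl⟩
  rw [Ideal.relNorm_eq_pow_of_isMaximal w.asIdeal (w.asIdeal.under (𝓞 F)),
    IsCoprime.pow_left_iff (Ideal.inertiaDeg_pos w.asIdeal (𝓞 F)), PT1_max _ _ hvm, PT1_max _ _ hwm]
  unfold mK
  rw [Ideal.map_le_iff_le_comap]

omit [IQ F] in
theorem PT1_cop (M : Ideal (𝓞 F)) (a : Ideal (𝓞 K))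
    (ha : a ≠ ⊥) : IsCoprime (Ideal.relNorm (𝓞 F) a) M ↔ IsCoprime a (mK K M) := by
  induction a using UniqueFactorizationMonoid.induction_on_prime with
  | h₁ => exact absurd rfl ha
  | h₂ x hx =>
    rw [Ideal.isUnit_iff] at hx
    rw [hx, ← Ideal.one_eq_top, map_one]
    exact ⟨fun _ => isCoprime_one_left, fun _ => isCoprime_one_left⟩
  | h₃ x p hx hp ih =>
    have h1 := PT1_prime (K := K) M ⟨p, Ideal.isPrime_of_prime hp, hp.ne_zero⟩
    simp only at h1
    rw [map_mul, IsCoprime.mul_left_iff, h1, ih hx, IsCoprime.mul_left_iff]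

theorem PsiP_cop {M : Ideal (𝓞 F)} {ψ : Ideal (𝓞 F) →*₀ 𝓞 F} (h : IsHecke M ψ) (a : Ideal (𝓞 K))
    (ha : a ≠ ⊥) : IsCoprime (Ideal.relNorm (𝓞 F) a) M ↔ IsCoprime a (mK K M) := PT1_cop M a ha

theorem PsiP_ne {M : Ideal (𝓞 F)} {ψ : Ideal (𝓞 F) →*₀ 𝓞 F} (h : IsHecke M ψ) (a : Ideal (𝓞 K))
    (ha : a ≠ ⊥) : PsiP K ψ a ≠ 0 ↔ IsCoprime a (mK K M) := by
  rw [← PsiP_cop h a ha, PsiP_apply, map_ne_zero, Ne, map_eq_zero_iff (eF F) eF_inj]
  constructor
  · intro h1
    by_contra h2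
    exact h1 (h.zero _ h2)
  · intro h1 h2
    have h3 := h.gen _ h1
    rw [h2, Ideal.span_singleton_eq_bot.2 rfl] at h3
    exact ha (Ideal.relNorm_eq_bot_iff.1 h3.symm)

theorem PsiP_norm {M : Ideal (𝓞 F)} {ψ : Ideal (𝓞 F) →*₀ 𝓞 F} (h : IsHecke M ψ) (a : Ideal (𝓞 K))
    (ha : a ≠ ⊥) (hc : IsCoprime a (mK K M)) : ‖PsiP K ψ a‖ ^ 2 = Ideal.absNorm a := by
  have h1 := (PsiP_cop h a ha).2 hc
  rw [PsiP_apply, RCLike.norm_conj, ← Nm_eq]
  unfold Nm
  rw [h.gen _ h1, Ideal.absNorm_relNorm (𝓞 F) (𝓞 K) a]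

theorem PsiP_norm_le {M : Ideal (𝓞 F)} {ψ : Ideal (𝓞 F) →*₀ 𝓞 F} (h : IsHecke M ψ)
    (a : Ideal (𝓞 K)) : ‖PsiP K ψ a‖ ^ 2 ≤ Ideal.absNorm a := by
  by_cases ha : a = ⊥
  · rw [ha]
    have : PsiP K ψ ⊥ = 0 := (PsiP K ψ).map_zero
    rw [this]
    simp
  · by_cases h3 : IsCoprime a (mK K M)
    · exact (PsiP_norm h a ha h3).le
    · have h1 : PsiP K ψ a = 0 := not_not.1 (mt (PsiP_ne h a ha).1 h3)
      rw [h1]
      simp

omit [IQ F] [NumberField F] in
theorem PT1_int (τ : 𝓞 F →+* ℂ) (y : 𝓞 F) (V : ValuationSubring ℂ) : V.valuation (τ y) ≤ 1 := by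
  have h2 : IsIntegral ℤ (τ y) := map_isIntegral_int τ (RingOfIntegers.isIntegral y)
  have h3 : IsIntegral V (τ y) := h2.tower_top
  obtain ⟨t, ht⟩ := IsIntegrallyClosed.isIntegral_iff.1 h3
  rw [← ht]
  exact V.valuation_le_one t

theorem PsiP_int (ψ : Ideal (𝓞 F) →*₀ 𝓞 F) (a : Ideal (𝓞 K)) (V : ValuationSubring ℂ) :
    V.valuation (PsiP K ψ a) ≤ 1 ∧ V.valuation ((starRingEnd ℂ) (PsiP K ψ a)) ≤ 1 := by
  rw [PsiP_apply]
  refine ⟨PT1_int ((starRingEnd ℂ).comp (eF F)) _ V, ?_⟩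
  rw [Complex.conj_conj]
  exact PT1_int (eF F) _ V

theorem PsiP_unit (p : ℕ) (hp : p.Prime) {M : Ideal (𝓞 F)} {ψ : Ideal (𝓞 F) →*₀ 𝓞 F} (h : IsHecke M ψ)
    (b : Ideal (𝓞 K)) (hb : b ≠ ⊥) (hbM : IsCoprime b (mK K M))
    (hbp : IsCoprime b (Ideal.span {(p : 𝓞 K)})) (V : ValuationSubring ℂ)
    (hV : V.valuation (p : ℂ) < 1) : V.valuation (PsiP K ψ b) = 1 ∧
      V.valuation ((starRingEnd ℂ) (PsiP K ψ b)) = 1 := by
  obtain ⟨h1, h2⟩ := PsiP_int ψ b V
  have h3 : PsiP K ψ b * (starRingEnd ℂ) (PsiP K ψ b) = (Ideal.absNorm b : ℂ) := by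
    rw [Complex.mul_conj, Complex.normSq_eq_norm_sq, PsiP_norm h b hb hbM, Complex.ofReal_natCast]
  have h4 := val_nat p hp V hV _ (absNorm_cop p hp b hbp)
  rw [← h3, map_mul] at h4
  constructor
  · refine le_antisymm h1 ?_
    by_contra hlt
    have h5 := mul_lt_one_of_nonneg_of_lt_one_left zero_le (not_le.1 hlt) h2
    rw [h4] at h5
    exact lt_irrefl _ h5
  · refine le_antisymm h2 ?_
    by_contra hlt
    have h5 := mul_lt_one_of_nonneg_of_lt_one_right h1 zero_le (not_le.1 hlt)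
    rw [h4] at h5
    exact lt_irrefl _ h5

theorem PsiP_top (ψ : Ideal (𝓞 F) →*₀ 𝓞 F) (K' : Type) [Field K'] [NumberField K'] [Algebra F K']
    [Algebra K K'] [IsScalarTower F K K'] (W : Ideal (𝓞 K')) :
    PsiP K' ψ W = PsiP K ψ (Ideal.relNorm (𝓞 K) W) := by
  rw [PsiP_apply, PsiP_apply, Ideal.relNorm_relNorm (𝓞 F) (𝓞 K) W]

/-- A Hecke character gives the data of the analytic core. η = 1 modulo M: per with x = η, y = 1, ψ(1) = 1. -/
theorem IsHecke.toMod {M : Ideal (𝓞 F)} {ψ : Ideal (𝓞 F) →*₀ 𝓞 F} (h : IsHecke M ψ) (p : ℕ)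
    (hMp : IsCoprime M (Ideal.span {(p : 𝓞 F)})) : ∃ l : 𝓞 F, Mod p M l := by
  obtain ⟨P, hP, hMP⟩ := Ideal.exists_le_maximal M h.ntop
  have hP0 : P ≠ ⊥ := by
    rintro rfl
    exact h.ne (le_bot_iff.1 hMP)
  obtain ⟨l, hl⟩ := (IsPrincipalIdealRing.principal P).principal
  have hl' : P = Ideal.span {l} := hl
  refine ⟨l, ⟨h.ne, hMp, ?_, hl' ▸ hMP, ?_⟩⟩
  · rw [hl'] at hP hP0
    rw [Ne, Ideal.span_singleton_eq_bot] at hP0
    exact (Ideal.span_singleton_prime hP0).1 hP.isPrime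
  · intro η hη
    have h1 : Ideal.span {(η : 𝓞 F)} = 1 := by
      rw [Ideal.span_singleton_eq_top.2 η.isUnit, Ideal.one_eq_top]
    have h2 : Ideal.span {(1 : 𝓞 F)} = 1 := by
      rw [Ideal.span_singleton_eq_top.2 isUnit_one, Ideal.one_eq_top]
    have h3 := h.per (η : 𝓞 F) 1 (by rw [h1]; exact isCoprime_one_left)
      (by rw [h2]; exact isCoprime_one_left) hη
    rw [h1, h2, map_one, one_mul, one_mul] at h3
    exact Units.ext h3.symm

end H55P
end

-- from Lib.H55P.D1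
section

open NumberField IsDedekindDomain

namespace H55P

open H55N
open H55B (g)

variable {F : Type} [Field F] [NumberField F] [IQ F] {K : Type} [Field K] [NumberField K]
  [Algebra F K] {m : ℕ}

/-! Chunk PD1 (S/M), PORT of Lib/H55N/D1.lean. Changes: the unit congruence J <= (6) is replaced by the hypothesis htf (used in the proof of htf there), the rank of K is m because F has
no real and one complex place (F0_card in H55P/F0.lean) and finrank Q F = 2 (IQ.deg): K has no real place (a real place of K restricts to a real place of F), then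
InfinitePlace.card_add_two_mul_card_eq_rank. Everything else is copied. -/

theorem D1_rank (hm : Module.finrank F K = m + 1) : NumberField.Units.rank K = m := by
  classical
  have h0 : InfinitePlace.nrRealPlaces K = 0 := by
    unfold InfinitePlace.nrRealPlaces
    rw [Fintype.card_eq_zero_iff]
    refine ⟨fun w => ?_⟩
    have h1 : (w.1.comap (algebraMap F K)).IsReal := w.2.comap (algebraMap F K)
    have h2 : 0 < InfinitePlace.nrRealPlaces F := by
      unfold InfinitePlace.nrRealPlaces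
      rw [Fintype.card_pos_iff]
      exact ⟨⟨_, h1⟩⟩
    rw [F0_card.1] at h2
    exact lt_irrefl _ h2
  have h2 := InfinitePlace.card_eq_nrRealPlaces_add_nrComplexPlaces (K := K)
  have h4 := InfinitePlace.card_add_two_mul_card_eq_rank K
  have h5 := Module.finrank_mul_finrank ℚ F K
  have h6 : Module.finrank ℚ F = 2 := IQ.deg
  rw [h6, hm] at h5
  unfold Units.rank
  omega

theorem units_basis (hm : Module.finrank F K = m + 1) (J : Ideal (𝓞 K)) (hJ : J ≠ ⊥)
    (htf : ∀ ζ : (𝓞 K)ˣ, (ζ : 𝓞 K) - 1 ∈ J → ∀ q : ℕ, q.Prime → ζ ^ q = 1 → ζ = 1) :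
    ∃ u : Fin m → (𝓞 K)ˣ, (∀ j, (u j : 𝓞 K) - 1 ∈ J) ∧
      (∀ z, (uu u z : 𝓞 K) - 1 ∈ J) ∧
      (∀ v : (𝓞 K)ˣ, (v : 𝓞 K) - 1 ∈ J → ∃! z : Fin m → ℤ, v = uu u z) ∧
      (Subgroup.closure (Set.range u)).FiniteIndex := by
  classical
  have hrank : Units.rank K = m := D1_rank hm
  let φ : (𝓞 K)ˣ →* (𝓞 K ⧸ J)ˣ := Units.map (Ideal.Quotient.mk J).toMonoidHom
  haveI : Finite (𝓞 K ⧸ J) := Ideal.finiteQuotientOfFreeOfNeBot J hJ
  have hV : ∀ v : (𝓞 K)ˣ, v ∈ φ.ker ↔ (v : 𝓞 K) - 1 ∈ J := by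
    intro v
    rw [MonoidHom.mem_ker, Units.ext_iff, ← Ideal.Quotient.mk_eq_mk_iff_sub_mem]
    exact Iff.rfl
  haveI hVfi : φ.ker.FiniteIndex := inferInstance
  let N : Submodule ℤ (Additive (𝓞 K)ˣ) := AddSubgroup.toIntSubmodule (Subgroup.toAddSubgroup φ.ker)
  have hmemN : ∀ x : Additive (𝓞 K)ˣ, x ∈ N ↔ Additive.toMul x ∈ φ.ker := fun x => Iff.rfl
  -- torsion free
  have htf2 : ∀ v ∈ φ.ker, ∀ n : ℕ, 0 < n → v ^ n = 1 → v = 1 := by
    intro v hv n hn h1
    by_contra hne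
    have h2 : orderOf v ≠ 1 := fun h => hne (orderOf_eq_one_iff.1 h)
    obtain ⟨l, hl, hdvd⟩ := Nat.exists_prime_and_dvd h2
    have hfo : IsOfFinOrder v := isOfFinOrder_iff_pow_eq_one.2 ⟨n, hn, h1⟩
    have hpos := hfo.orderOf_pos
    obtain ⟨k, hk⟩ := hdvd
    have h3 : (v ^ k) ^ l = 1 := by
      rw [← pow_mul, mul_comm, ← hk, pow_orderOf_eq_one]
    have h4 := htf (v ^ k) ((hV _).1 (Subgroup.pow_mem _ hv k)) l hl h3
    have h5 := orderOf_dvd_of_pow_eq_one h4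
    have hk0 : 0 < k := Nat.pos_of_ne_zero (fun h => by rw [hk, h, mul_zero] at hpos; exact lt_irrefl _ hpos)
    have h6 := Nat.le_of_dvd hk0 h5
    have h7 := hl.two_le
    nlinarith
  haveI hN : Module.Finite ℤ N := inferInstance
  haveI hNt : Module.IsTorsionFree ℤ N := by
    apply Module.IsTorsionFree.of_smul_eq_zero
    intro r x hx
    by_contra hcon
    push Not at hcon
    obtain ⟨hr, hx0⟩ := hcon
    apply hx0
    apply Subtype.ext
    have h1 : r • (x : Additive (𝓞 K)ˣ) = 0 := congrArg Subtype.val hx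
    have h2 : (r.natAbs) • (x : Additive (𝓞 K)ˣ) = 0 := by
      rcases Int.natAbs_eq r with h | h
      · rw [h, natCast_zsmul] at h1
        exact h1
      · rw [h, neg_smul, natCast_zsmul, neg_eq_zero] at h1
        exact h1
    exact congrArg Additive.ofMul (htf2 (Additive.toMul (x : Additive (𝓞 K)ˣ)) ((hmemN _).1 x.2)
      r.natAbs (Int.natAbs_pos.2 hr) (congrArg Additive.toMul h2))
  haveI hNf : Module.Free ℤ N := Module.free_of_finite_type_torsion_free'
  have hfr : Module.finrank ℤ N = m := by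
    have h1 := Submodule.finrank_quotient_add_finrank N
    have h2 : Module.finrank ℤ (Additive (𝓞 K)ˣ ⧸ N) = 0 := by
      rw [Module.finrank_eq_zero_iff]
      intro x
      obtain ⟨y, rfl⟩ := Submodule.Quotient.mk_surjective N x
      refine ⟨(φ.ker.index : ℤ), by exact_mod_cast hVfi.index_ne_zero, ?_⟩
      rw [← Submodule.Quotient.mk_smul, Submodule.Quotient.mk_eq_zero, hmemN, natCast_zsmul]
      exact φ.ker.pow_index_mem (Additive.toMul y)
    rw [h2, zero_add, Units.finrank_eq, hrank] at h1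
    exact h1
  let b : Module.Basis (Fin m) ℤ N := Module.finBasisOfFinrankEq ℤ N hfr
  let u : Fin m → (𝓞 K)ˣ := fun j => Additive.toMul (b j : Additive (𝓞 K)ˣ)
  have huV : ∀ j, u j ∈ φ.ker := fun j => (hmemN _).1 (b j).2
  have huu : ∀ z : Fin m → ℤ, Additive.ofMul (uu u z) = ((∑ j, z j • b j : N) : Additive (𝓞 K)ˣ) := by
    intro z
    unfold uu
    rw [ofMul_prod, AddSubmonoidClass.coe_finset_sum]
    rfl
  have huz : ∀ z : Fin m → ℤ, uu u z ∈ φ.ker := fun z =>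
    Subgroup.prod_mem _ fun j _ => Subgroup.zpow_mem _ (huV j) _
  have hex : ∀ v : (𝓞 K)ˣ, v ∈ φ.ker → ∃! z : Fin m → ℤ, v = uu u z := by
    intro v hv
    have hvN : Additive.ofMul v ∈ N := (hmemN _).2 hv
    refine ⟨b.equivFun ⟨Additive.ofMul v, hvN⟩, ?_, ?_⟩
    · have h1 := huu (b.equivFun ⟨Additive.ofMul v, hvN⟩)
      rw [b.sum_equivFun] at h1
      exact (Additive.ofMul.injective h1).symm
    · intro z hz
      have h1 := huu z
      rw [← hz] at h1
      have h2 : (⟨Additive.ofMul v, hvN⟩ : N) = ∑ j, z j • b j := Subtype.ext h1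
      rw [h2, ← b.equivFun_symm_apply, LinearEquiv.apply_symm_apply]
  refine ⟨u, fun j => (hV _).1 (huV j), fun z => (hV _).1 (huz z),
    fun v hv => hex v ((hV v).2 hv), ?_⟩
  apply Subgroup.finiteIndex_of_le (H := φ.ker)
  intro v hv
  obtain ⟨z, hz, -⟩ := hex v hv
  rw [hz]
  exact Subgroup.prod_mem _ fun j _ =>
    Subgroup.zpow_mem _ (Subgroup.subset_closure (Set.mem_range_self j)) _

/-- No torsion. If ζ^q = 1, ζ <> 1, then q = - sum (ζ^i - 1) is in J (as in D1_six), so p divides q in O_K, hence in Z (norms), q = p; and l divides q = p in O_K. But a l + b p = 1 in O, so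
l divides 1 in O_K, so its norm to O is a unit (Algebra.intNorm, or: (l) = (1) in O_K implies (l) = (1) in O by Ideal.comap_map_eq_self_of_faithfullyFlat / relNorm_algebraMap), contradiction. -/
theorem torsion_free (p : ℕ) (hp : p.Prime) (l : 𝓞 F) (hl : Prime l) (hlp : IsCoprime l (p : 𝓞 F))
    (J : Ideal (𝓞 K)) (h1 : J ≤ Ideal.span {(p : 𝓞 K)})
    (h2 : J ≤ Ideal.span {algebraMap (𝓞 F) (𝓞 K) l}) (ζ : (𝓞 K)ˣ) (hζ : (ζ : 𝓞 K) - 1 ∈ J) (q : ℕ)
    (hq : q.Prime) (h : ζ ^ q = 1) : ζ = 1 := by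
  by_contra hne
  have hs : ∑ i ∈ Finset.range q, (ζ : 𝓞 K) ^ i = 0 := by
    have h := mul_geom_sum (ζ : 𝓞 K) q
    have h2 : (ζ : 𝓞 K) ^ q = 1 := by
      have h0 := congrArg Units.val ‹ζ ^ q = 1›
      simpa using h0
    rw [h2, sub_self] at h
    rcases mul_eq_zero.1 h with h3 | h3
    · exact absurd (Units.ext (sub_eq_zero.1 h3)) hne
    · exact h3
  have h3 : (q : 𝓞 K) ∈ J := by
    have h4 : (q : 𝓞 K) = - ∑ i ∈ Finset.range q, ((ζ : 𝓞 K) ^ i - 1) := by
      rw [Finset.sum_sub_distrib, hs]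
      simp
    rw [h4]
    refine (Ideal.neg_mem_iff _).2 (Ideal.sum_mem _ fun i _ => ?_)
    have h5 := sub_dvd_pow_sub_pow (ζ : 𝓞 K) 1 i
    rw [one_pow] at h5
    exact Ideal.mem_of_dvd _ h5 hζ
  obtain ⟨y, hy⟩ := Ideal.mem_span_singleton.1 (h1 h3)
  have hnorm : ∀ k : ℕ, Algebra.norm ℤ (k : 𝓞 K) = (k : ℤ) ^ Module.finrank ℤ (𝓞 K) := by
    intro k
    have := Algebra.norm_algebraMap (S := 𝓞 K) (k : ℤ)
    rw [map_natCast] at this
    exact this
  have hy3 := congrArg (Algebra.norm ℤ) hy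
  rw [map_mul, hnorm, hnorm] at hy3
  have hpos : Module.finrank ℤ (𝓞 K) ≠ 0 := (Module.finrank_pos (R := ℤ) (M := 𝓞 K)).ne'
  have h6 : (p : ℤ) ∣ (q : ℤ) := (Int.pow_dvd_pow_iff hpos).1 ⟨_, hy3⟩
  have h7 : p = q := (Nat.prime_dvd_prime_iff_eq hp hq).1 (by exact_mod_cast h6)
  subst h7
  have h8 : (p : 𝓞 K) ∈ Ideal.span {algebraMap (𝓞 F) (𝓞 K) l} := h2 h3
  obtain ⟨a, b, hab⟩ := hlp
  have h9 : (1 : 𝓞 K) ∈ Ideal.span {algebraMap (𝓞 F) (𝓞 K) l} := by
    have h10 := congrArg (algebraMap (𝓞 F) (𝓞 K)) hab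
    rw [map_add, map_mul, map_mul, map_one, map_natCast] at h10
    rw [← h10]
    exact Ideal.add_mem _ (Ideal.mul_mem_left _ _ (Ideal.mem_span_singleton_self _))
      (Ideal.mul_mem_left _ _ h8)
  have h11 : IsUnit (algebraMap (𝓞 F) (𝓞 K) l) := by
    rw [← Ideal.span_singleton_eq_top]
    exact (Ideal.eq_top_iff_one _).2 h9
  have h12 : IsUnit (Algebra.intNorm (𝓞 F) (𝓞 K) (algebraMap (𝓞 F) (𝓞 K) l)) := h11.map _
  have : IsScalarTower ℚ F K := IsScalarTower.of_algebraMap_eq' (Subsingleton.elim _ _)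
  have : Module.Finite F K := Module.Finite.of_restrictScalars_finite ℚ F K
  have h13 : Algebra.intNorm (𝓞 F) (𝓞 K) (algebraMap (𝓞 F) (𝓞 K) l) = l ^ Module.finrank F K := by
    apply RingOfIntegers.coe_injective
    rw [Algebra.algebraMap_intNorm (A := 𝓞 F) (K := F) (L := K) (B := 𝓞 K), map_pow]
    exact Algebra.norm_algebraMap (S := K) (algebraMap (𝓞 F) F l)
  rw [h13] at h12
  exact hl.not_isUnit ((isUnit_pow_iff Module.finrank_pos.ne').1 h12)

end H55P
end

-- from Lib.H55P.D2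
section

open NumberField IsDedekindDomain

namespace H55P

open H55N
open H55B (g)

variable {F : Type} [Field F] [NumberField F] [IQ F] {K : Type} [Field K] [NumberField K]
  [Algebra F K] {m : ℕ}

/-! Chunk PD2 (M), PORT of Lib/H55N/D2.lean. Changes: D1_rank from H55P/D1.lean; the places of F: F0_place in H55P/F0.lean (every infinite place of F is mk (embF F)). norm_one: O is a
principal ideal domain (instPIDF), M = (μ), so v = 1 + μ w and the norm of v is 1 + μ y with y in O (as in D2_prod with 3 replaced by the complex number eF F μ, or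
algebraically: intNorm v - 1 is in M because modulo M ... Algebra.norm of 1 + μ w is the determinant of 1 + μ W, = 1 modulo μ); it is a unit of O, so it is 1 by h.unit. -/

theorem D2_placeF (φ : F →+* ℂ) : φ = embF F ∨ ComplexEmbedding.conjugate φ = embF F :=
  InfinitePlace.mk_eq_iff.1 (F0_place (InfinitePlace.mk φ))

theorem D2_place (D : Ctx F K m) (hE : Emb F D.σ) (w : InfinitePlace K) :
    ∃ i, ∀ x : K, w x = ‖D.σ i x‖ := by
  rcases D2_placeF (w.embedding.comp (algebraMap F K)) with h | h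
  · obtain ⟨i, hi⟩ := emb_all hE w.embedding (fun x => by rw [← h]; rfl)
    refine ⟨i, fun x => ?_⟩
    rw [← hi, InfinitePlace.norm_embedding_eq]
  · obtain ⟨i, hi⟩ := emb_all hE (ComplexEmbedding.conjugate w.embedding) (fun x => by rw [← h]; rfl)
    refine ⟨i, fun x => ?_⟩
    rw [← hi, ComplexEmbedding.conjugate_coe_eq]
    rw [RCLike.norm_conj, InfinitePlace.norm_embedding_eq]

theorem D2_normU (D : Ctx F K m) (hE : Emb F D.σ) (v : (𝓞 K)ˣ) :
    ∏ i, D.σ i ((v : 𝓞 K) : K) = eF F ((Units.map (RingOfIntegers.norm F) v : (𝓞 F)ˣ) : 𝓞 F) := by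
  rw [norm_eq hE]
  rfl

theorem D2_norm_abs (D : Ctx F K m) (hE : Emb F D.σ) (v : (𝓞 K)ˣ) :
    ∏ i, ‖D.σ i ((v : 𝓞 K) : K)‖ = 1 := by
  rw [← norm_prod, D2_normU D hE]
  have h1 := Nm_eq ((Units.map (RingOfIntegers.norm F) v : (𝓞 F)ˣ) : 𝓞 F)
  have h0 : Nm ((Units.map (RingOfIntegers.norm F) v : (𝓞 F)ˣ) : 𝓞 F) = 1 := by
    unfold Nm
    rw [Ideal.absNorm_eq_one_iff, Ideal.span_singleton_eq_top]
    exact Units.isUnit _
  rw [h0] at h1
  have h2 : ‖eF F ((Units.map (RingOfIntegers.norm F) v : (𝓞 F)ˣ) : 𝓞 F)‖ ^ 2 = 1 := by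
    rw [← h1]; norm_num
  exact (pow_eq_one_iff_of_nonneg (norm_nonneg _) two_ne_zero).1 h2

theorem delta_ne (D : Ctx F K m) (hE : Emb F D.σ) (u : Fin m → (𝓞 K)ˣ)
    (hu : (Subgroup.closure (Set.range u)).FiniteIndex) : Delta (D.lm u) ≠ 0 := by
  have hr : NumberField.Units.rank K = m := D1_rank (F := F) hE.fin
  subst hr
  have hmax := NumberField.Units.isMaxRank_iff_closure_finiteIndex.2 hu
  intro h0
  unfold Delta at h0
  rw [← Matrix.exists_mulVec_eq_zero_iff] at h0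
  obtain ⟨c, hc0, hc⟩ := h0
  have hrow : ∀ i, c 0 + ∑ j, D.lm u i j * c j.succ = 0 := by
    intro i
    have := congrFun hc i
    simp only [Matrix.mulVec, dotProduct, Fin.sum_univ_succ, Matrix.of_apply, Fin.cons_zero,
      Fin.cons_succ, Pi.zero_apply, one_mul] at this
    exact this
  have hcol : ∀ j, ∑ i, D.lm u i j = 0 := by
    intro j
    unfold Ctx.lm
    rw [← Finset.mul_sum, ← Real.log_prod, D2_norm_abs D hE, Real.log_one, mul_zero]
    intro i _
    rw [norm_ne_zero_iff]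
    exact (map_ne_zero _).2 (NumberField.Units.coe_ne_zero _)
  have hc00 : c 0 = 0 := by
    have h1 : ∑ i : Fin (NumberField.Units.rank K + 1),
        (c 0 + ∑ j, D.lm u i j * c j.succ) = 0 := Finset.sum_eq_zero fun i _ => hrow i
    rw [Finset.sum_add_distrib, Finset.sum_comm] at h1
    simp_rw [← Finset.sum_mul] at h1
    rw [Finset.sum_eq_zero (s := Finset.univ) (f := fun j => (∑ i, D.lm u i j) * c j.succ)
      (fun j _ => by rw [hcol j, zero_mul]), add_zero, Finset.sum_const, Finset.card_univ,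
      Fintype.card_fin, nsmul_eq_mul] at h1
    rcases mul_eq_zero.1 h1 with h2 | h2
    · exact absurd h2 (by positivity)
    · exact h2
  have hind := Fintype.linearIndependent_iff.1 hmax (fun j => c j.succ) (by
    funext w
    rw [Finset.sum_apply]
    simp only [Pi.smul_apply, NumberField.Units.dirichletUnitTheorem.logEmbedding_component,
      smul_eq_mul, Pi.zero_apply]
    obtain ⟨i, hi⟩ := D2_place D hE w.val
    have h1 := hrow i
    rw [hc00, zero_add] at h1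
    have h2 : ∀ j, c j.succ * ((w.val.mult : ℝ) * Real.log (w.val ((u j : 𝓞 K) : K))) =
        ((w.val.mult : ℝ) / 2) * (D.lm u i j * c j.succ) := by
      intro j
      unfold Ctx.lm
      rw [hi]
      ring
    rw [Finset.sum_congr rfl (fun j _ => h2 j), ← Finset.mul_sum, h1, mul_zero])
  apply hc0
  funext j
  refine Fin.cases hc00 (fun j => hind j) j

/-- The coordinates of an element of M O_K are in M. -/
theorem D2_coord {ι : Type*} (b : Module.Basis ι (𝓞 F) (𝓞 K)) (M : Ideal (𝓞 F)) (z : 𝓞 K)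
    (hz : z ∈ mK K M) : ∀ (t : 𝓞 K) (i : ι), b.repr (z * t) i ∈ M := by
  unfold mK Ideal.map at hz
  induction hz using Submodule.span_induction with
  | mem x hx =>
    obtain ⟨a, ha, rfl⟩ := hx
    intro t i
    rw [← Algebra.smul_def, map_smul, Finsupp.smul_apply, smul_eq_mul]
    exact M.mul_mem_right _ ha
  | zero =>
    intro t i
    rw [zero_mul, map_zero]
    exact M.zero_mem
  | add x y _ _ hx hy =>
    intro t i
    rw [add_mul, map_add, Finsupp.add_apply]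
    exact M.add_mem (hx t i) (hy t i)
  | smul a x _ hx =>
    intro t i
    have h1 : a • x * t = x * (a * t) := by
      rw [smul_eq_mul]
      ring
    rw [h1]
    exact hx _ i

/-- The norm of an element congruent to 1 modulo an ideal of O. -/
theorem intNorm_cong (M : Ideal (𝓞 F)) (x y : 𝓞 K) (h : x - y ∈ mK K M) :
    Algebra.intNorm (𝓞 F) (𝓞 K) x - Algebra.intNorm (𝓞 F) (𝓞 K) y ∈ M := by
  classical
  have hfree : Module.Free (𝓞 F) (𝓞 K) := inferInstance
  let b := Module.Free.chooseBasis (𝓞 F) (𝓞 K)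
  rw [Algebra.intNorm_eq_norm, Algebra.norm_eq_matrix_det b, Algebra.norm_eq_matrix_det b,
    ← Ideal.Quotient.eq, RingHom.map_det, RingHom.map_det]
  congr 1
  ext i j
  rw [RingHom.mapMatrix_apply, RingHom.mapMatrix_apply, Matrix.map_apply, Matrix.map_apply,
    Ideal.Quotient.eq, Algebra.leftMulMatrix_eq_repr_mul, Algebra.leftMulMatrix_eq_repr_mul,
    ← Finsupp.sub_apply, ← map_sub, ← sub_mul]
  exact D2_coord b M _ h _ _

theorem norm_one (D : Ctx F K m) (hE : Emb F D.σ) {p : ℕ} {M : Ideal (𝓞 F)} {l : 𝓞 F}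
    (h : Mod p M l) (v : (𝓞 K)ˣ) (hv : (v : 𝓞 K) - 1 ∈ mK K M) :
    ∏ i, D.σ i ((v : 𝓞 K) : K) = 1 := by
  have h0 := D2_normU D hE v
  set n : (𝓞 F)ˣ := Units.map (RingOfIntegers.norm F) v with hn
  have h1 : (n : 𝓞 F) = Algebra.intNorm (𝓞 F) (𝓞 K) (v : 𝓞 K) := by
    apply FaithfulSMul.algebraMap_injective (𝓞 F) F
    rw [Algebra.algebraMap_intNorm (K := F) (L := K)]
    rfl
  have h2 := intNorm_cong M (v : 𝓞 K) 1 hv
  rw [map_one, ← h1] at h2
  rw [h0, h.unit n h2, Units.val_one, map_one]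

end H55P
end

-- from Lib.H55P.T7
section

open NumberField IsDedekindDomain

namespace H55P

open H55N
open H55B (g)

variable {F : Type} [Field F] [NumberField F] [IQ F] {K : Type} [Field K] [NumberField K]
  [Algebra F K] {m : ℕ}

/-! Chunk PT7 (M). The reduction of Ψ modulo V as a ray class character.
PROOF. g = span {p} * mK K M. R = the residue field of V (IsLocalRing.ResidueField V). For x in O the number conj(e x) is an algebraic integer, so in V; let r(x) be its residue: a ring homomorphism r : O -> R with r(p) = 0, so its image k' is a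
finite ring without zero divisors (finite image since O/p is finite), k'^* is a finite subgroup of the units of the field R, so cyclic. There is an injective homomorphism j of the finite cyclic group C = (image of) units into ℂˣ: for
instance C is isomorphic to Multiplicative (ZMod n), and rootsOfUnity n ℂ is cyclic of order n (Complex.card_rootsOfUnity; mulEquivOfCyclicCardEq). For a prime v not containing g: ψ(relNorm v) is prime to p (PsiP_unit), so r(ψ(relNorm v)) <> 0;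
φ v = j(r(ψ(relNorm v))), and φ v = 1 for g <= v. For an ideal a <> 0 coprime to g: pv φ a = j(r(ψ(relNorm a))) (pv_mul, pv_prime, induction on the factorisation; see how H55R proves membership in RC, for instance
theta_RC in H55R/X9.lean). RC g: for x, y nonzero, coprime to g, x - y in g: N x - N y in M and in p O (intNorm_cong), and ψ((N x)) N y = ψ((N y)) N x; r(N x) = r(N y) <> 0, so r(ψ((N x))) = r(ψ((N y))).
φ has finite order dividing #C. φ c <> 1 means that the residue of Ψ(c) = conj(e ψ(relNorm c)) is not 1, i.e. V(1 - Ψ(c)) = 1. φ <> 1: the ideal a of NTP has r(ψ(relNorm a)) <> 1, so pv φ a <> 1, so φ <> 1 (pv_one_fun). -/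

/-- algebraic integers are in V -/
theorem pt7_int (V : ValuationSubring ℂ) (z : ℂ) (hz : IsIntegral ℤ z) : z ∈ V := by
  have h1 : IsIntegral V z := hz.tower_top
  obtain ⟨y, hy⟩ := (IsIntegrallyClosed.isIntegral_iff (R := V) (K := ℂ)).1 h1
  rw [← hy]
  exact y.2

theorem pt7_mem (V : ValuationSubring ℂ) (x : 𝓞 F) : (starRingEnd ℂ) (eF F x) ∈ V := by
  apply pt7_int
  have h1 : IsIntegral ℤ x := RingOfIntegers.isIntegral x
  exact (h1.map ((eF F).toIntAlgHom)).map ((starRingEnd ℂ).toIntAlgHom)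

/-- the map to V -/
noncomputable def pt7c (F : Type) [Field F] [NumberField F] [IQ F] (V : ValuationSubring ℂ) : 𝓞 F →+* V :=
  ((starRingEnd ℂ).comp (eF F)).codRestrict V (fun x => pt7_mem V x)

/-- the prime below V -/
noncomputable def pt7P (F : Type) [Field F] [NumberField F] [IQ F] (V : ValuationSubring ℂ) : Ideal (𝓞 F) :=
  (IsLocalRing.maximalIdeal V).comap (pt7c F V)

theorem pt7_lt (V : ValuationSubring ℂ) (x : 𝓞 F) :
    x ∈ pt7P F V ↔ V.valuation ((starRingEnd ℂ) (eF F x)) < 1 := by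
  unfold pt7P
  rw [Ideal.mem_comap, ValuationSubring.valuation_lt_one_iff]
  rfl

theorem pt7_eq (V : ValuationSubring ℂ) (x : 𝓞 F) :
    x ∉ pt7P F V ↔ V.valuation ((starRingEnd ℂ) (eF F x)) = 1 := by
  rw [pt7_lt, not_lt]
  have h := (V.valuation_le_one_iff _).2 (pt7_mem (F := F) V x)
  exact ⟨fun h1 => le_antisymm h h1, fun h1 => h1.ge⟩

instance pt7_prime (V : ValuationSubring ℂ) : (pt7P F V).IsPrime := by
  unfold pt7P
  infer_instance

theorem pt7_nat (p : ℕ) (V : ValuationSubring ℂ) (hV : V.valuation (p : ℂ) < 1) : (p : 𝓞 F) ∈ pt7P F V := by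
  rw [pt7_lt, map_natCast, map_natCast]
  exact hV

theorem pt7_bot (p : ℕ) (hp : p.Prime) (V : ValuationSubring ℂ) (hV : V.valuation (p : ℂ) < 1) :
    pt7P F V ≠ ⊥ := by
  intro h
  have h1 := pt7_nat (F := F) p V hV
  rw [h, Ideal.mem_bot] at h1
  exact hp.ne_zero (by exact_mod_cast h1)

/-- a finite cyclic group embeds in the complex numbers -/
theorem pt7_emb (G : Type) [CommGroup G] [Finite G] [IsCyclic G] : ∃ j : G →* ℂˣ, Function.Injective j := by
  have : NeZero (Nat.card G) := ⟨Nat.card_pos.ne'⟩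
  have hc : Nat.card G = Nat.card (rootsOfUnity (Nat.card G) ℂ) := (Complex.card_rootsOfUnity _).symm
  refine ⟨(rootsOfUnity (Nat.card G) ℂ).subtype.comp (mulEquivOfCyclicCardEq hc).toMonoidHom, ?_⟩
  exact Subtype.val_injective.comp (mulEquivOfCyclicCardEq hc).injective


/-- the residue of the Hecke character -/
theorem pt7_ne (p : ℕ) (hp : p.Prime) {M : Ideal (𝓞 F)} {ψ : Ideal (𝓞 F) →*₀ 𝓞 F}
    (h : IsHecke M ψ) (V : ValuationSubring ℂ) (hV : V.valuation (p : ℂ) < 1) (a : Ideal (𝓞 K))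
    (ha : a ≠ ⊥) (hc : IsCoprime a (Ideal.span {(p : 𝓞 K)} * mK K M)) :
    ψ (Ideal.relNorm (𝓞 F) a) ∉ pt7P F V := by
  rw [pt7_eq, ← PsiP_apply]
  exact (PsiP_unit p hp h a ha hc.of_mul_right_right hc.of_mul_right_left V hV).1

theorem exists_theta (p : ℕ) (hp : p.Prime) {M : Ideal (𝓞 F)} {ψ : Ideal (𝓞 F) →*₀ 𝓞 F}
    (h : IsHecke M ψ) (hMp : IsCoprime M (Ideal.span {(p : 𝓞 F)})) (V : ValuationSubring ℂ)
    (hV : V.valuation (p : ℂ) < 1) (hNT : NTP K p M ψ V) :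
    ∃ (φ : H55R.Pl K → ℂˣ), φ ∈ H55R.RC (Ideal.span {(p : 𝓞 K)} * mK K M) ∧ φ ≠ 1 ∧ IsOfFinOrder φ ∧
      ∀ c : H55R.Pl K, ¬ Ideal.span {(p : 𝓞 K)} * mK K M ≤ c.asIdeal → φ c ≠ 1 →
        V.valuation (1 - PsiP K ψ c.asIdeal) = 1 := by
  classical
  set gg : Ideal (𝓞 K) := Ideal.span {(p : 𝓞 K)} * mK K M with hgg
  have hbot := pt7_bot (F := F) p hp V hV
  have hPm : (pt7P F V).IsMaximal := Ring.DimensionLEOne.maximalOfPrime hbot inferInstance
  let _ : Field (𝓞 F ⧸ pt7P F V) := Ideal.Quotient.field _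
  have _ : Finite (𝓞 F ⧸ pt7P F V) := Ideal.finiteQuotientOfFreeOfNeBot _ hbot
  obtain ⟨j, hj⟩ := pt7_emb (𝓞 F ⧸ pt7P F V)ˣ
  -- the residue
  let R : Ideal (𝓞 K) →*₀ 𝓞 F ⧸ pt7P F V :=
    ((Ideal.Quotient.mk (pt7P F V)).toMonoidWithZeroHom.comp ψ).comp
      (Ideal.relNorm (𝓞 F) : Ideal (𝓞 K) →*₀ Ideal (𝓞 F))
  have hR : ∀ a, R a = Ideal.Quotient.mk (pt7P F V) (ψ (Ideal.relNorm (𝓞 F) a)) := fun a => rfl
  have hR0 : ∀ a : Ideal (𝓞 K), a ≠ ⊥ → IsCoprime a gg → R a ≠ 0 := by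
    intro a ha hc h0
    rw [hR, Ideal.Quotient.eq_zero_iff_mem] at h0
    exact pt7_ne p hp h V hV a ha hc h0
  let Φ : Ideal (𝓞 K) → ℂˣ := fun a => if h0 : R a ≠ 0 then j (Units.mk0 (R a) h0) else 1
  have hΦ : ∀ (a : Ideal (𝓞 K)) (h0 : R a ≠ 0), Φ a = j (Units.mk0 (R a) h0) := fun a h0 => dif_pos h0
  let φ : H55R.Pl K → ℂˣ := fun v => if gg ≤ v.asIdeal then 1 else Φ v.asIdeal
  have hφ : ∀ v : H55R.Pl K, ¬ gg ≤ v.asIdeal → φ v = Φ v.asIdeal := fun v hv => if_neg hv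
  have hcop : ∀ v : H55R.Pl K, ¬ gg ≤ v.asIdeal → IsCoprime v.asIdeal gg := by
    intro v hv
    rw [Ideal.isCoprime_iff_sup_eq]
    have hvm := v.isMaximal
    by_contra hne
    have h1 := hvm.eq_of_le hne le_sup_left
    exact hv (h1 ▸ le_sup_right)
  have hmul : ∀ a b : Ideal (𝓞 K), a ≠ ⊥ → b ≠ ⊥ → IsCoprime a gg → IsCoprime b gg → Φ (a * b) = Φ a * Φ b := by
    intro a b ha hb hac hbc
    rw [hΦ a (hR0 a ha hac), hΦ b (hR0 b hb hbc), hΦ (a * b) (hR0 _ (mul_ne_zero ha hb) (hac.mul_left hbc)),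
      ← map_mul]
    congr 1
    ext
    simp [map_mul]
  have hpv : ∀ a : Ideal (𝓞 K), a ≠ ⊥ → IsCoprime a gg → H55R.pv φ a = Φ a := by
    intro a
    induction a using UniqueFactorizationMonoid.induction_on_prime with
    | h₁ => intro ha; exact absurd rfl ha
    | h₂ x hx =>
      intro ha hc
      rw [Ideal.isUnit_iff] at hx
      subst hx
      have h1 : (⊤ : Ideal (𝓞 K)) = 1 := Ideal.one_eq_top.symm
      have h2 : R 1 ≠ 0 := by rw [map_one]; exact one_ne_zero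
      rw [h1, H55R.pv_one, hΦ 1 h2]
      have h3 : Units.mk0 (R 1) h2 = 1 := Units.ext (map_one R)
      rw [h3, map_one]
    | h₃ a q ha hq ih =>
      intro hab hc
      have hq0 : q ≠ ⊥ := hq.ne_zero
      have hqc : IsCoprime q gg := hc.of_mul_left_left
      have hac : IsCoprime a gg := hc.of_mul_left_right
      have hqp := Ideal.isPrime_of_prime hq
      let v : H55R.Pl K := ⟨q, hqp, hq0⟩
      have hv : ¬ gg ≤ v.asIdeal := H55R.X9_not_le hqc v le_rfl
      rw [H55R.pv_mul φ hq0 ha, hmul q a hq0 ha hqc hac, ih ha hac]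
      congr 1
      rw [show q = v.asIdeal from rfl, H55R.pv_prime, hφ v hv]
  have hval : ∀ a : Ideal (𝓞 K), a ≠ ⊥ → IsCoprime a gg → Φ a ≠ 1 →
      V.valuation (1 - PsiP K ψ a) = 1 := by
    intro a ha hac hne
    have h1 : (1 : 𝓞 F) - ψ (Ideal.relNorm (𝓞 F) a) ∉ pt7P F V := by
      intro hmem
      apply hne
      rw [hΦ a (hR0 a ha hac)]
      have h2 : Units.mk0 (R a) (hR0 a ha hac) = 1 := by
        apply Units.ext
        show R a = 1
        rw [hR, ← map_one (Ideal.Quotient.mk (pt7P F V)), eq_comm, Ideal.Quotient.eq]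
        exact hmem
      rw [h2, map_one]
    rw [pt7_eq, map_sub, map_sub, map_one, map_one] at h1
    exact h1
  refine ⟨φ, ⟨fun v hv => if_pos hv, ?_⟩, ?_, ?_, ?_⟩
  · intro x y hx hy hcx hxy
    have hcy : IsCoprime (Ideal.span {y}) gg := by
      rw [Ideal.isCoprime_iff_sup_eq] at hcx ⊢
      refine top_unique (hcx ▸ sup_le ?_ le_sup_right)
      rw [Ideal.span_singleton_le_iff_mem]
      have e : x = y + (x - y) := by ring
      rw [e]
      exact Ideal.add_mem _ (Ideal.mem_sup_left (Ideal.mem_span_singleton_self y)) (Ideal.mem_sup_right hxy)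
    have hxb : Ideal.span {x} ≠ ⊥ := by simpa using hx
    have hyb : Ideal.span {y} ≠ ⊥ := by simpa using hy
    rw [hpv _ hxb hcx, hpv _ hyb hcy, hΦ _ (hR0 _ hxb hcx), hΦ _ (hR0 _ hyb hcy)]
    congr 1
    apply Units.ext
    show R (Ideal.span {x}) = R (Ideal.span {y})
    have hMx := (PsiP_cop h _ hxb).2 hcx.of_mul_right_right
    have hMy := (PsiP_cop h _ hyb).2 hcy.of_mul_right_right
    have hnx := pt7_ne p hp h V hV _ hxb hcx
    have hny := pt7_ne p hp h V hV _ hyb hcy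
    rw [hR, hR]
    rw [Ideal.relNorm_singleton] at hMx hMy hnx hny ⊢
    rw [Ideal.relNorm_singleton]
    set nx := Algebra.intNorm (𝓞 F) (𝓞 K) x with hnxd
    set ny := Algebra.intNorm (𝓞 F) (𝓞 K) y with hnyd
    have h1 : nx - ny ∈ M := intNorm_cong M x y (Ideal.mul_le_right hxy)
    have h2 : nx - ny ∈ Ideal.span {(p : 𝓞 F)} := by
      apply intNorm_cong (Ideal.span {(p : 𝓞 F)}) x y
      unfold mK
      rw [Ideal.map_span, Set.image_singleton, map_natCast]
      exact Ideal.mul_le_left hxy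
    have h3 : nx - ny ∈ pt7P F V := (Ideal.span_singleton_le_iff_mem (pt7P F V)).2 (pt7_nat p V hV) h2
    have h4 : Ideal.Quotient.mk (pt7P F V) nx = Ideal.Quotient.mk (pt7P F V) ny := Ideal.Quotient.eq.2 h3
    have h5 : ny ∉ pt7P F V := by
      intro h6
      apply hny
      have h7 := h.gen _ hMy
      have h8 : ψ (Ideal.span {ny}) ∈ Ideal.span {ψ (Ideal.span {ny})} := Ideal.mem_span_singleton_self _
      rw [h7] at h8
      exact (Ideal.span_singleton_le_iff_mem (pt7P F V)).2 h6 h8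
    have h6 := congrArg (Ideal.Quotient.mk (pt7P F V)) (h.per nx ny hMx hMy h1)
    rw [map_mul, map_mul, h4] at h6
    exact mul_right_cancel₀ (fun h7 => h5 (Ideal.Quotient.eq_zero_iff_mem.1 h7)) h6
  · obtain ⟨a, hap, haM, hav⟩ := hNT
    have ha : a ≠ ⊥ := by
      rintro rfl
      apply absNorm_cop p hp ⊥ hap
      rw [Ideal.absNorm_bot]
      exact dvd_zero p
    have hac : IsCoprime a gg := hap.mul_right haM
    intro h1
    have h2 := hpv a ha hac
    rw [h1, H55R.pv_one_fun, hΦ a (hR0 a ha hac)] at h2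
    have h3 : (1 : (𝓞 F ⧸ pt7P F V)ˣ) = Units.mk0 (R a) (hR0 a ha hac) := by
      apply hj
      rw [map_one]
      exact h2
    have h4 : R a = 1 := (congrArg Units.val h3).symm
    rw [hR, ← map_one (Ideal.Quotient.mk (pt7P F V)), eq_comm, Ideal.Quotient.eq] at h4
    rw [pt7_lt, map_sub, map_sub, map_one, map_one] at h4
    exact absurd hav (ne_of_lt h4)
  · rw [isOfFinOrder_iff_pow_eq_one]
    refine ⟨Nat.card (𝓞 F ⧸ pt7P F V)ˣ, Nat.card_pos, ?_⟩
    funext v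
    show φ v ^ _ = 1
    by_cases hv : gg ≤ v.asIdeal
    · rw [show φ v = 1 from if_pos hv, one_pow]
    · rw [hφ v hv]
      by_cases h0 : R v.asIdeal ≠ 0
      · rw [hΦ _ h0, ← map_pow, pow_card_eq_one', map_one]
      · rw [show Φ v.asIdeal = 1 from dif_neg h0, one_pow]
  · intro c hc hne
    rw [hφ c hc] at hne
    exact hval _ c.ne_bot (hcop c hc) hne

end H55P
end

-- from Lib.H55P.N1
section

open NumberField IsDedekindDomain

namespace H55P

open H55N
open H55B (g)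

variable {F : Type} [Field F] [NumberField F] [IQ F] {K : Type} [Field K] [NumberField K]
  [Algebra F K] {m : ℕ}

/-! Chunk PN1 (S/M). absNorm_spanF: port of absNorm_span in H55N/H2.lean (Nm_eq in H55P/F0.lean, absNorm (span {x}) = absNorm (span {intNorm x}) by Ideal.absNorm_relNorm / relNorm_singleton). term_classF: PORT of Lib/H55R/D10.lean
(replace emb by embF F, nn by nnF F). norm_one3: units congruent to 1 modulo 3: the norm η to F is a unit of O congruent to 1 modulo 3 (intNorm_cong with M = (3)); if η <> 1 then 9 divides Nm (η - 1)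
(Nm multiplicative, Nm 3 = 9) but Nm (η - 1) = |e η - 1|^2 <= 4 (|e η| = 1), contradiction. -/

theorem pn1_norm (x : 𝓞 K) :
    eF F (Algebra.intNorm (𝓞 F) (𝓞 K) x) = embF F (Algebra.norm F (x : K)) := by
  show embF F (algebraMap (𝓞 F) F (Algebra.intNorm (𝓞 F) (𝓞 K) x)) = _
  rw [Algebra.algebraMap_intNorm (A := 𝓞 F) (K := F) (L := K) (B := 𝓞 K)]

theorem absNorm_spanF (x : 𝓞 K) :
    (Ideal.absNorm (Ideal.span {x}) : ℝ) = nnF F x ^ 2 := by
  unfold nnF
  rw [← Ideal.absNorm_relNorm (𝓞 F), Ideal.relNorm_singleton, ← pn1_norm]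
  exact Nm_eq _

theorem norm_one3 (D : Ctx F K m) (hE : Emb F D.σ) (v : (𝓞 K)ˣ)
    (hv : (v : 𝓞 K) - 1 ∈ Ideal.span {(3 : 𝓞 K)}) : ∏ i, D.σ i ((v : 𝓞 K) : K) = 1 := by
  rw [norm_eq hE, ← pn1_norm]
  obtain ⟨η, hη⟩ : ∃ η : 𝓞 F, η = Algebra.intNorm (𝓞 F) (𝓞 K) (v : 𝓞 K) := ⟨_, rfl⟩
  rw [← hη]
  have hu : IsUnit η := by
    rw [hη]
    exact v.isUnit.map _
  have h1 : Nm η = 1 := by
    unfold Nm
    rw [Ideal.span_singleton_eq_top.2 hu]
    exact Ideal.absNorm_top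
  have h2 : ‖eF F η‖ = 1 := by
    have h3 := Nm_eq η
    rw [h1, Nat.cast_one] at h3
    have h4 := norm_nonneg (eF F η)
    nlinarith
  have h3 : η - 1 ∈ Ideal.span {(3 : 𝓞 F)} := by
    have h4 := intNorm_cong (K := K) (Ideal.span {(3 : 𝓞 F)}) (v : 𝓞 K) 1 (by
      unfold mK
      rw [Ideal.map_span, Set.image_singleton, map_ofNat]
      exact hv)
    rw [map_one, ← hη] at h4
    exact h4
  obtain ⟨y, hy⟩ := Ideal.mem_span_singleton.1 h3
  by_contra hne
  have hy0 : y ≠ 0 := by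
    rintro rfl
    apply hne
    rw [mul_zero, sub_eq_zero] at hy
    rw [hy, map_one]
  have h5 := one_le_e hy0
  have h6 : eF F η - 1 = 3 * eF F y := by
    have := congrArg (eF F) hy
    rw [map_sub, map_one, map_mul, map_ofNat] at this
    exact this
  have h7 : ‖eF F η - 1‖ ≤ 2 := by
    refine (norm_sub_le _ _).trans ?_
    rw [h2]
    norm_num
  rw [h6, norm_mul] at h7
  norm_num at h7
  linarith

theorem term_classF (f b : Ideal (𝓞 K))
    (hf : f ≠ ⊥) (hb : b ≠ ⊥) (φ : H55R.Pl K → ℂˣ) (hφ : φ ∈ H55R.RC f)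
    (hbf : IsCoprime b (Ideal.span {6} * f)) (c₀ : 𝓞 K) (hc : c₀ ∈ b)
    (hp : ∀ w : HeightOneSpectrum (𝓞 K), Ideal.span {3} * f ≤ w.asIdeal → c₀ ∉ w.asIdeal * b) :
    ∃ κ : ℂ, ∀ c : H55R.Pl K, IsCoprime b c.asIdeal → ∀ x ∈ XS (Ideal.span {3} * f * b) c₀,
      ∀ a : Ideal (𝓞 K), a * b = Ideal.span {x} → ∀ s : ℝ,
        tm (H55R.tI (Ideal.span {3} * f) φ) s a *
            (open Classical in if a ≤ c.asIdeal then 1 - (Ideal.absNorm c.asIdeal : ℂ) else 1) =
          κ * (((Ideal.absNorm b : ℝ) ^ s : ℝ) : ℂ) *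
            (H55R.wt c.asIdeal x * ((nnF F x ^ (-2 * s) : ℝ) : ℂ)) := by
  classical
  have key : ∀ x ∈ XS (Ideal.span {3} * f * b) c₀, ∀ w : HeightOneSpectrum (𝓞 K),
      Ideal.span {3} * f ≤ w.asIdeal → x ∉ w.asIdeal * b := by
    intro x hx w hw hxw
    have h1 : x - c₀ ∈ Ideal.span {3} * f * b := hx
    apply hp w hw
    have h2 : x - c₀ ∈ w.asIdeal * b := Ideal.mul_mono_left hw h1
    have h3 := Ideal.sub_mem _ hxw h2
    rwa [sub_sub_cancel] at h3
  have hc₀XS : c₀ ∈ XS (Ideal.span {3} * f * b) c₀ := by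
    show c₀ - c₀ ∈ Ideal.span {3} * f * b
    rw [sub_self]
    exact Ideal.zero_mem _
  have hne : ∀ x ∈ XS (Ideal.span {3} * f * b) c₀, x ≠ 0 := by
    rintro x hx rfl
    obtain ⟨w, hw⟩ := H13_prime (K := K)
    exact key 0 hx w (Ideal.mul_le_left.trans hw) (Ideal.zero_mem _)
  have hcop : ∀ x ∈ XS (Ideal.span {3} * f * b) c₀, ∀ a : Ideal (𝓞 K),
      a * b = Ideal.span {x} → a ≠ ⊥ ∧ IsCoprime a (Ideal.span {3} * f) := by
    intro x hx a hab
    have ha0 : a ≠ ⊥ := by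
      rintro rfl
      apply hne x hx
      rw [← Ideal.span_singleton_eq_bot, ← hab]
      exact zero_mul b
    refine ⟨ha0, ?_⟩
    by_contra hc'
    rw [Ideal.isCoprime_iff_sup_eq] at hc'
    obtain ⟨M, hM, hM2⟩ := Ideal.exists_le_maximal _ hc'
    have hM0 : M ≠ ⊥ := by
      rintro rfl
      exact ha0 (le_bot_iff.1 (le_sup_left.trans hM2))
    refine key x hx ⟨M, hM.isPrime, hM0⟩ (le_sup_right.trans hM2) ?_
    have h4 : x ∈ a * b := by
      rw [hab]
      exact Ideal.mem_span_singleton_self x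
    exact Ideal.mul_mono_left (le_sup_left.trans hM2) h4
  have hbf' : IsCoprime b f := hbf.of_mul_right_right
  refine ⟨(H55R.pv φ (Ideal.span {c₀}) : ℂ) * ((H55R.pv φ b : ℂ))⁻¹, fun c hbc x hx a hab s => ?_⟩
  obtain ⟨ha0, hac⟩ := hcop x hx a hab
  have hx0 := hne x hx
  have hc0 := hne c₀ hc₀XS
  have hxf : IsCoprime (Ideal.span {x}) f := by
    rw [← hab]
    exact hac.of_mul_right_right.mul_left hbf'
  have hxc : x - c₀ ∈ f := by
    have h1 : x - c₀ ∈ Ideal.span {3} * f * b := hx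
    exact Ideal.mul_le_right (Ideal.mul_le_left h1)
  have hpv : H55R.pv φ a * H55R.pv φ b = H55R.pv φ (Ideal.span {c₀}) := by
    rw [← H55R.pv_mul φ ha0 hb, hab]
    exact hφ.2 x c₀ hx0 hc0 hxf hxc
  have hpva : ((H55R.pv φ a : ℂˣ) : ℂ) = (H55R.pv φ (Ideal.span {c₀}) : ℂ) * ((H55R.pv φ b : ℂ))⁻¹ := by
    rw [← hpv, Units.val_mul, mul_assoc, mul_inv_cancel₀ (H55R.pv φ b).ne_zero, mul_one]
  -- norms
  have hNa : (0 : ℝ) < Ideal.absNorm a := by
    have : Ideal.absNorm a ≠ 0 := fun h => ha0 (Ideal.absNorm_eq_zero_iff.1 h)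
    exact_mod_cast Nat.pos_of_ne_zero this
  have hNb : (0 : ℝ) < Ideal.absNorm b := by
    have : Ideal.absNorm b ≠ 0 := fun h => hb (Ideal.absNorm_eq_zero_iff.1 h)
    exact_mod_cast Nat.pos_of_ne_zero this
  have hNab : (Ideal.absNorm a : ℝ) * Ideal.absNorm b = nnF F x ^ 2 := by
        rw [← absNorm_spanF (F := F), ← hab, map_mul, Nat.cast_mul]
  have hnn0 : 0 ≤ nnF F x := norm_nonneg _
  have hpow : (Ideal.absNorm a : ℝ) ^ (-s) = (Ideal.absNorm b : ℝ) ^ s * nnF F x ^ (-2 * s) := by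
    have h1 : nnF F x ^ (-2 * s) = (nnF F x ^ 2) ^ (-s) := by
      rw [← Real.rpow_natCast, ← Real.rpow_mul hnn0]
      congr 1
      push_cast
      ring
    rw [h1, ← hNab, Real.mul_rpow hNa.le hNb.le, mul_comm ((Ideal.absNorm a : ℝ) ^ (-s)),
      ← mul_assoc, ← Real.rpow_add hNb, add_neg_cancel, Real.rpow_zero, one_mul]
  have htm : tm (H55R.tI (Ideal.span {3} * f) φ) s a = (H55R.pv φ (Ideal.span {c₀}) : ℂ) * ((H55R.pv φ b : ℂ))⁻¹ *
      (((Ideal.absNorm b : ℝ) ^ s : ℝ) : ℂ) * ((nnF F x ^ (-2 * s) : ℝ) : ℂ) := by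
    unfold tm
    rw [H55R.tI_apply _ φ ha0 hac, hpva]
    have h1 : (Ideal.absNorm a : ℂ) ^ (-(s : ℂ)) = (((Ideal.absNorm a : ℝ) ^ (-s) : ℝ) : ℂ) := by
      rw [Complex.ofReal_cpow hNa.le]
      push_cast
      rfl
    rw [h1, hpow]
    push_cast
    ring
  have hwt : H55R.wt c.asIdeal x = if a ≤ c.asIdeal then 1 - (Ideal.absNorm c.asIdeal : ℂ) else 1 := by
    unfold H55R.wt
    have h1 : x ∈ c.asIdeal ↔ a ≤ c.asIdeal := by
      constructor
      · intro h
        have h2 : a * b ≤ c.asIdeal := by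
          rw [hab, Ideal.span_singleton_le_iff_mem]
          exact h
        rcases c.isPrime.mul_le.1 h2 with h3 | h3
        · exact h3
        · exfalso
          rw [Ideal.isCoprime_iff_sup_eq, sup_eq_right.2 h3] at hbc
          exact c.isPrime.ne_top hbc
      · intro h
        have h2 : x ∈ a * b := by
          rw [hab]
          exact Ideal.mem_span_singleton_self x
        exact h (Ideal.mul_le_left h2)
    simp only [h1]
  rw [htm, hwt]
  ring

end H55P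
end

-- from Lib.H55K.A.D1
section

/-!
Chunk D1 (M). Primes of degree greater than one are negligible.
PROOF. If N v is not prime then N v ≥ p² for the prime number p below v (N v = p^f, f ≥ 2), so N v^(-s) ≤ p^(-2s) ≤ p^(-2) for s ≥ 1, and at most [K:ℚ] primes lie above p. So the sum over any finite
set of such primes is at most [K:ℚ] sum_p p^(-2) = C (Real.summable_one_div_nat_pow); hence PS ≤ C (tsum_le_of_sum_le). Compare H55R.D5 (split_cmp), where the same estimate is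
made; it may contain a lemma which can be cited.
stab_triv: absNorm Q prime gives fs F L (Q.under) = 1 (absNorm Q = absNorm(v)^f: H55R.D5_norm), with es = 1 the stabiliser is trivial (card_stab), so σ ↦ smulP σ Q is injective.
-/

open NumberField IsDedekindDomain

namespace H55K.Ab

open H55R

variable {F : Type} [Field F] [NumberField F]

section d1

variable {K : Type} [Field K] [NumberField K]

theorem d1_pow (v : Pl K) : ∃ q f : ℕ, q.Prime ∧ 0 < f ∧ Ideal.absNorm v.asIdeal = q ^ f ∧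
    (q : 𝓞 K) ∈ v.asIdeal := by
  have hm : v.asIdeal.IsMaximal := v.isMaximal
  have h0 : Ideal.absNorm v.asIdeal ≠ 0 := fun h => v.ne_bot (Ideal.absNorm_eq_zero_iff.1 h)
  let _ : Field (𝓞 K ⧸ v.asIdeal) := Ideal.Quotient.field v.asIdeal
  have hfin : Finite (𝓞 K ⧸ v.asIdeal) := by
    apply Nat.finite_of_card_ne_zero
    exact h0
  let _ : Fintype (𝓞 K ⧸ v.asIdeal) := Fintype.ofFinite _
  obtain ⟨q, hq⟩ := CharP.exists (𝓞 K ⧸ v.asIdeal)
  obtain ⟨n, hp, hc⟩ := FiniteField.card (𝓞 K ⧸ v.asIdeal) q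
  refine ⟨q, n, hp, n.pos, ?_, ?_⟩
  · show Nat.card (𝓞 K ⧸ v.asIdeal) = _
    rw [Nat.card_eq_fintype_card, hc]
  · rw [← Ideal.Quotient.eq_zero_iff_mem, map_natCast]
    exact CharP.cast_eq_zero _ q

/-- The primes above a rational prime. -/
theorem d1_count (q : ℕ) (hq : q.Prime) (U : Finset (Pl K))
    (hU : ∀ v ∈ U, (q : 𝓞 K) ∈ v.asIdeal) (hU2 : ∀ v ∈ U, q ≤ Ideal.absNorm v.asIdeal) :
    U.card ≤ Module.finrank ℚ K := by
  classical
  have h1 : ∏ v ∈ U, v.asIdeal ∣ Ideal.span {(q : 𝓞 K)} := by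
    apply Finset.prod_dvd_of_coprime
    · intro v _ w _ hvw
      refine Ideal.isCoprime_of_isMaximal ?_
      intro h
      exact hvw (HeightOneSpectrum.ext h)
    · intro v hv
      rw [Ideal.dvd_span_singleton]
      exact hU v hv
  have h2 := map_dvd Ideal.absNorm h1
  rw [map_prod] at h2
  have h3 : Ideal.absNorm (Ideal.span {(q : 𝓞 K)}) = q ^ Module.finrank ℚ K := by
    rw [Ideal.absNorm_span_singleton]
    have h4 := Algebra.norm_algebraMap (S := 𝓞 K) (q : ℤ)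
    rw [map_natCast, RingOfIntegers.rank] at h4
    rw [h4, Int.natAbs_pow, Int.natAbs_natCast]
  rw [h3] at h2
  have h5 : ∏ v ∈ U, q ≤ ∏ v ∈ U, Ideal.absNorm v.asIdeal := Finset.prod_le_prod' hU2
  rw [Finset.prod_const] at h5
  have h6 := Nat.le_of_dvd (pow_pos hq.pos _) h2
  exact (Nat.pow_le_pow_iff_right hq.one_lt).1 (h5.trans h6)

theorem d1_norm (q : ℕ) :
    Ideal.absNorm (Ideal.span {(q : 𝓞 K)}) = q ^ Module.finrank ℚ K := by
  rw [Ideal.absNorm_span_singleton]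
  have h4 := Algebra.norm_algebraMap (S := 𝓞 K) (q : ℤ)
  rw [map_natCast, RingOfIntegers.rank] at h4
  rw [h4, Int.natAbs_pow, Int.natAbs_natCast]

theorem d1_one_le (v : Pl K) : (1 : ℝ) ≤ (Ideal.absNorm v.asIdeal : ℝ) := by
  have h0 : Ideal.absNorm v.asIdeal ≠ 0 := fun h => v.ne_bot (Ideal.absNorm_eq_zero_iff.1 h)
  exact_mod_cast Nat.one_le_iff_ne_zero.2 h0

theorem d1_summable (s : ℝ) (hs : 1 < s) :
    Summable fun v : Pl K => (Ideal.absNorm v.asIdeal : ℝ) ^ (-s) :=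
  (H55N.ideal_summable (K := K) s hs).comp_injective (i := fun v : Pl K => v.asIdeal)
    fun _ _ h => HeightOneSpectrum.ext h

theorem d1_sum (S : Set (Pl K)) (s : ℝ) (hs : 1 < s) :
    Summable (S.indicator fun v : Pl K => (Ideal.absNorm v.asIdeal : ℝ) ^ (-s)) :=
  (d1_summable s hs).indicator S

theorem d1_mono {S T : Set (Pl K)} (h : S ⊆ T) (s : ℝ) (hs : 1 < s) :
    PS S s ≤ PS T s := by
  unfold PS
  refine (d1_sum S s hs).tsum_le_tsum (fun v => ?_) (d1_sum T s hs)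
  exact Set.indicator_le_indicator_of_subset h (fun v => by positivity) v

theorem d1_nonneg (S : Set (Pl K)) (s : ℝ) : 0 ≤ PS S s := by
  unfold PS
  exact tsum_nonneg fun v => Set.indicator_nonneg (fun v _ => by positivity) v

theorem d1_union (S T : Set (Pl K)) (s : ℝ) (hs : 1 < s) :
    PS (S ∪ T) s ≤ PS S s + PS T s := by
  have h1 : PS (S ∪ T) s + PS (S ∩ T) s = PS S s + PS T s := by
    unfold PS
    rw [← (d1_sum (S ∪ T) s hs).tsum_add (d1_sum (S ∩ T) s hs),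
      ← (d1_sum S s hs).tsum_add (d1_sum T s hs)]
    exact tsum_congr fun v => Set.indicator_union_add_inter_apply _ S T v
  have h2 := d1_nonneg (S ∩ T) s
  linarith

theorem d1_fin {S : Set (Pl K)} (hS : S.Finite) (s : ℝ) (hs : 1 < s) :
    PS S s ≤ hS.toFinset.card := by
  unfold PS
  rw [tsum_eq_sum (s := hS.toFinset) fun v hv => by
    rw [Set.indicator_of_notMem]
    exact fun h => hv (hS.mem_toFinset.2 h)]
  have h1 : ∀ v ∈ hS.toFinset, S.indicator (fun v : Pl K => (Ideal.absNorm v.asIdeal : ℝ) ^ (-s)) v ≤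
      1 := by
    intro v hv
    rw [Set.indicator_of_mem (hS.mem_toFinset.1 hv)]
    apply Real.rpow_le_one_of_one_le_of_nonpos (d1_one_le v)
    linarith
  calc _ ≤ ∑ v ∈ hS.toFinset, (1 : ℝ) := Finset.sum_le_sum h1
    _ = _ := by simp

/-- The primes whose norm is not a prime number. -/
theorem d1_np : ∃ C : ℝ, ∀ s : ℝ, 1 < s →
    PS {v : Pl K | ¬ (Ideal.absNorm v.asIdeal).Prime} s ≤ C := by
  classical
  have hz : Summable fun q : ℕ => (Module.finrank ℚ K : ℝ) * ((q : ℝ) ^ 2)⁻¹ :=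
    (Real.summable_nat_pow_inv.2 one_lt_two).mul_left _
  refine ⟨∑' q : ℕ, (Module.finrank ℚ K : ℝ) * ((q : ℝ) ^ 2)⁻¹, fun s hs => ?_⟩
  unfold PS
  refine (d1_sum _ s hs).tsum_le_of_sum_le fun U => ?_
  choose q f hq hf hn hm using fun v : Pl K => d1_pow v
  have h1 : ∑ v ∈ U, ({v : Pl K | ¬ (Ideal.absNorm v.asIdeal).Prime}.indicator
      (fun v => (Ideal.absNorm v.asIdeal : ℝ) ^ (-s))) v =
      ∑ r ∈ U.image q, ∑ v ∈ U with q v = r, ({v : Pl K | ¬ (Ideal.absNorm v.asIdeal).Prime}.indicator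
      (fun v => (Ideal.absNorm v.asIdeal : ℝ) ^ (-s))) v := by
    rw [Finset.sum_fiberwise_of_maps_to]
    intro v hv
    exact Finset.mem_image_of_mem q hv
  rw [h1]
  have h2 : ∀ v : Pl K, ({v : Pl K | ¬ (Ideal.absNorm v.asIdeal).Prime}.indicator
      (fun v => (Ideal.absNorm v.asIdeal : ℝ) ^ (-s))) v ≤ ((q v : ℝ) ^ 2)⁻¹ := by
    intro v
    by_cases hv : (Ideal.absNorm v.asIdeal).Prime
    · rw [Set.indicator_of_notMem (show v ∉ {v : Pl K | ¬ (Ideal.absNorm v.asIdeal).Prime} from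
        fun h => h hv)]
      positivity
    · rw [Set.indicator_of_mem (show v ∈ {v : Pl K | ¬ (Ideal.absNorm v.asIdeal).Prime} from hv)]
      have h3 : 2 ≤ f v := by
        by_contra h4
        have h5 : f v = 1 := by
          have := hf v
          omega
        apply hv
        rw [hn v, h5, pow_one]
        exact hq v
      have h6 : (Ideal.absNorm v.asIdeal : ℝ) ^ (-s) ≤ (Ideal.absNorm v.asIdeal : ℝ) ^ (-(1 : ℝ)) :=
        Real.rpow_le_rpow_of_exponent_le (d1_one_le v) (by linarith)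
      refine h6.trans ?_
      rw [Real.rpow_neg_one, hn v]
      have hq1 : (1 : ℝ) ≤ (q v : ℝ) := by exact_mod_cast (hq v).one_lt.le
      push_cast
      apply inv_anti₀ (by positivity)
      exact pow_le_pow_right₀ hq1 h3
  have h3 : ∀ r ∈ U.image q, ∑ v ∈ U with q v = r, ({v : Pl K | ¬ (Ideal.absNorm v.asIdeal).Prime}.indicator
      (fun v => (Ideal.absNorm v.asIdeal : ℝ) ^ (-s))) v ≤ (Module.finrank ℚ K : ℝ) * ((r : ℝ) ^ 2)⁻¹ := by
    intro r hr
    obtain ⟨v₀, -, hv₀⟩ := Finset.mem_image.1 hr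
    have hrp : r.Prime := hv₀ ▸ hq v₀
    have h4 : ∀ v ∈ U.filter (fun v => q v = r), ({v : Pl K | ¬ (Ideal.absNorm v.asIdeal).Prime}.indicator
      (fun v => (Ideal.absNorm v.asIdeal : ℝ) ^ (-s))) v ≤ ((r : ℝ) ^ 2)⁻¹ := by
      intro v hv
      have h5 := h2 v
      rw [(Finset.mem_filter.1 hv).2] at h5
      exact h5
    refine (Finset.sum_le_sum h4).trans ?_
    rw [Finset.sum_const, nsmul_eq_mul]
    refine mul_le_mul_of_nonneg_right ?_ (by positivity)
    have h6 : (U.filter (fun v => q v = r)).card ≤ Module.finrank ℚ K := by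
      apply d1_count r hrp
      · intro v hv
        have h7 := hm v
        rw [(Finset.mem_filter.1 hv).2] at h7
        exact h7
      · intro v hv
        have h7 := hn v
        rw [(Finset.mem_filter.1 hv).2] at h7
        rw [h7]
        exact Nat.le_self_pow (hf v).ne' r
    exact_mod_cast h6
  refine (Finset.sum_le_sum h3).trans ?_
  exact hz.sum_le_tsum _ fun r _ => by positivity

end d1

theorem deg_bound (K : Type) [Field K] [NumberField K] :
    ∃ C : ℝ, ∀ s ∈ Set.Ioc (1 : ℝ) 2, PS {v : Pl K | ¬ (Ideal.absNorm v.asIdeal).Prime} s ≤ C := by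
  obtain ⟨C, hC⟩ := d1_np (K := K)
  exact ⟨C, fun s hs => hC s hs.1⟩

theorem stab_triv {K L : Type} [Field K] [NumberField K] [Field L] [NumberField L] [Algebra K L]
    [IsGalois K L] (Q : Pl L) (hQ : (Ideal.absNorm Q.asIdeal).Prime)
    (he : es K L (Q.under (𝓞 K)) = 1) : Function.Injective fun σ : Gal(L/K) => smulP σ Q := by
  have h1 := D5_norm (Q.under (𝓞 K)) Q rfl
  have hf : fs K L (Q.under (𝓞 K)) = 1 := by
    rw [h1] at hQ
    by_contra hne
    exact Nat.Prime.not_prime_pow' hne hQ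
  have h2 := card_stab Q (Q.under (𝓞 K)) rfl
  rw [he, hf, mul_one, Nat.card_eq_one_iff_unique] at h2
  have h3 := h2.1
  intro σ τ hστ
  have h4 : smulP (τ⁻¹ * σ) Q = Q := by
    rw [smulP_mul]
    have h5 : smulP σ Q = smulP τ Q := hστ
    rw [h5, ← smulP_mul, inv_mul_cancel, smulP_one]
  have h6 : (⟨τ⁻¹ * σ, h4⟩ : {σ : Gal(L/K) // smulP σ Q = Q}) = ⟨1, smulP_one Q⟩ := Subsingleton.elim _ _
  have h7 := congrArg Subtype.val h6
  exact (inv_mul_eq_one.1 h7).symm

end H55K.Ab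
end

-- from Lib.H55K.D8
section

/-! # H55K, part D: the values of the Hecke character -/

open NumberField IsDedekindDomain WeierstrassCurve

namespace H55K.DD

open H55P (IQ embF eF IsHecke Nm PsiP mK)

variable {F : Type} [Field F] [NumberField F] [IQ F] {K : Type} [Field K] [NumberField K] [Algebra F K]
  {m : Ideal (𝓞 F)} {ψ : Ideal (𝓞 F) →*₀ 𝓞 F}

/-- Chunk D8 (S/M). The prime below w; relNorm w = v^f (Ideal.relNorm_eq_pow_of_isMaximal, see H55N.Psi_prime in Lib/H55N/H1.lean). -/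
theorem below (w : HeightOneSpectrum (𝓞 K)) : ∃ v : HeightOneSpectrum (𝓞 F), v.asIdeal = w.asIdeal.under (𝓞 F) ∧
    Ideal.relNorm (𝓞 F) w.asIdeal = v.asIdeal ^ (w.asIdeal.inertiaDeg (𝓞 F)) ∧ 0 < w.asIdeal.inertiaDeg (𝓞 F) ∧
    (mK K m ≤ w.asIdeal ↔ m ≤ v.asIdeal) := by
  refine ⟨⟨w.asIdeal.under (𝓞 F), inferInstance, mt Ideal.eq_bot_of_comap_eq_bot w.ne_bot⟩, rfl, ?_, ?_, ?_⟩
  · have h0 : w.asIdeal.LiesOver (w.asIdeal.under (𝓞 F)) := ⟨rfl⟩
    have h1 := w.isMaximal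
    have h2 : (w.asIdeal.under (𝓞 F)).IsMaximal := Ideal.IsMaximal.under (𝓞 F) w.asIdeal
    exact Ideal.relNorm_eq_pow_of_isMaximal w.asIdeal (w.asIdeal.under (𝓞 F))
  · have h1 := w.isMaximal
    exact Ideal.inertiaDeg_pos w.asIdeal (𝓞 F)
  · show m.map (algebraMap (𝓞 F) (𝓞 K)) ≤ w.asIdeal ↔ m ≤ w.asIdeal.under (𝓞 F)
    rw [Ideal.under_def, Ideal.map_le_iff_le_comap]

theorem d8_cop {v : HeightOneSpectrum (𝓞 F)} (hv : ¬ m ≤ v.asIdeal) : IsCoprime v.asIdeal m := by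
  rw [Ideal.isCoprime_iff_sup_eq]
  have hm := v.isMaximal
  refine hm.out.2 _ (lt_of_le_of_ne le_sup_left ?_)
  intro he
  apply hv
  rw [he]
  exact le_sup_right

/-- Chunk D8. α = eF (ψ v), β its complex conjugate, v prime to m (so v = span {ψ v}, hecke.gen): α β = Nm (ψ v) = absNorm v and α + β = absNorm v + 1 - Nm (1 - ψ v) (mul_cj / Nm_eq: Nm x = ‖eF x‖^2 = eF x * conj (eF x)). -/
theorem trc (hψ : IsHecke m ψ) {v : HeightOneSpectrum (𝓞 F)} (hv : ¬ m ≤ v.asIdeal) :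
    eF F (ψ v.asIdeal) * (starRingEnd ℂ) (eF F (ψ v.asIdeal)) = (Ideal.absNorm v.asIdeal : ℂ) ∧
    eF F (ψ v.asIdeal) + (starRingEnd ℂ) (eF F (ψ v.asIdeal)) =
      (Ideal.absNorm v.asIdeal : ℂ) + 1 - (Nm (1 - ψ v.asIdeal) : ℂ) := by
  have h1 : Ideal.span {ψ v.asIdeal} = v.asIdeal := hψ.gen _ (d8_cop hv)
  have h2 : (Ideal.absNorm v.asIdeal : ℂ) = eF F (ψ v.asIdeal) * (starRingEnd ℂ) (eF F (ψ v.asIdeal)) := by
    have h3 : Nm (ψ v.asIdeal) = Ideal.absNorm v.asIdeal := by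
      conv_rhs => rw [← h1]
      rfl
    have h4 := congrArg (eF F) (mul_cj (ψ v.asIdeal))
    rw [map_mul, e_cj, map_natCast, h3] at h4
    exact h4.symm
  have h5 : (Nm (1 - ψ v.asIdeal) : ℂ) = (1 - eF F (ψ v.asIdeal)) * (1 - (starRingEnd ℂ) (eF F (ψ v.asIdeal))) := by
    have h4 := congrArg (eF F) (mul_cj (1 - ψ v.asIdeal))
    rw [map_mul, e_cj, map_natCast, map_sub, map_one, map_sub, map_one] at h4
    exact h4.symm
  refine ⟨h2.symm, ?_⟩
  rw [h5, h2]
  ring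

/-- Chunk D8. hecke.zero: v contains m, so v is not coprime to m, ψ v = 0; PsiP_apply, map_pow, f > 0. -/
theorem psi_bad (hψ : IsHecke m ψ) (w : HeightOneSpectrum (𝓞 K)) (hw : mK K m ≤ w.asIdeal) : PsiP K ψ w.asIdeal = 0 := by
  obtain ⟨v, h1, h2, h3, h4⟩ := below (m := m) w
  have h5 : ψ v.asIdeal = 0 := by
    apply hψ.zero
    intro hc
    have h6 := Ideal.isCoprime_iff_sup_eq.1 hc
    rw [sup_eq_left.2 (h4.1 hw)] at h6
    exact v.isPrime.ne_top h6
  rw [H55P.PsiP_apply, h2, map_pow, h5, zero_pow h3.ne', map_zero, map_zero]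

end H55K.DD
end

-- from Lib.H55K.UA2A
section

/-! # H55K: the sum of the second differences is analytic -/

open NumberField IsDedekindDomain WeierstrassCurve

namespace H55K

open H55P (IQ embF eF LF Per IsHecke Pt ac Inert Dec Nm)
open H35P (WAB Ker tt)


variable {F : Type} [Field F] [NumberField F] [IQ F]

theorem ua2a_fin (F : Type) [Field F] [NumberField F] [IQ F] (C : ℝ) :
    {x : 𝓞 F | ‖eF F x‖ ≤ C}.Finite := by
  rcases lt_or_ge C 0 with hC | hC
  · refine Set.Finite.subset Set.finite_empty fun x hx => ?_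
    have h1 : ‖eF F x‖ ≤ C := hx
    exact absurd (norm_nonneg (eF F x)) (by linarith)
  · have h1 := (H55P.summable_e (F := F) (r := 3) (by norm_num)).tendsto_cofinite_zero
    have h2 : (0 : ℝ) < (1 + C) ^ (-(3 : ℝ)) := Real.rpow_pos_of_pos (by linarith) _
    have h3 := h1.eventually (gt_mem_nhds h2)
    rw [Filter.eventually_cofinite] at h3
    refine h3.subset fun x hx => ?_
    have h4 : ‖eF F x‖ ≤ C := hx
    change ¬ ((1 + ‖eF F x‖) ^ (-(3 : ℝ)) < (1 + C) ^ (-(3 : ℝ)))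
    rw [not_lt]
    exact Real.rpow_le_rpow_of_nonpos (by have := norm_nonneg (eF F x); linarith) (by linarith) (by norm_num)

/-- Chunk UA2A (S). summable_e (H55P/F0.lean), comparison outside the finite set of the x with ‖eF F x‖ small (finite: H55P.pe8_fin, or from summable_e): 1 + ‖eF F x‖ ≤ C ‖z + eF F x‖ if ‖eF F x‖ ≥ 2‖z‖ + 1. -/
theorem sum_shift (F : Type) [Field F] [NumberField F] [IQ F] (z : ℂ) (κ : ℝ) (hκ : 2 < κ) :
    Summable fun x : 𝓞 F => ‖z + eF F x‖ ^ (-κ) := by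
  have h0 : Summable fun x : 𝓞 F => (2 : ℝ) ^ κ * (1 + ‖eF F x‖) ^ (-κ) := (H55P.summable_e (F := F) hκ).mul_left _
  refine h0.of_norm_bounded_eventually ?_
  rw [Filter.eventually_cofinite]
  refine (ua2a_fin F (2 * ‖z‖ + 1)).subset fun x hx => ?_
  by_contra hne
  apply hx
  have hxC : 2 * ‖z‖ + 1 < ‖eF F x‖ := not_le.1 hne
  have h1 : ‖eF F x‖ ≤ ‖z + eF F x‖ + ‖z‖ := by
    have := norm_sub_le (z + eF F x) z
    rwa [add_sub_cancel_left] at this
  have h2 : (1 + ‖eF F x‖) / 2 ≤ ‖z + eF F x‖ := by linarith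
  have h3 : 0 < (1 + ‖eF F x‖) / 2 := by
    have := norm_nonneg (eF F x)
    linarith
  have h4 := Real.rpow_le_rpow_of_nonpos h3 h2 (by linarith : -κ ≤ 0)
  rw [Real.norm_eq_abs, abs_of_nonneg (Real.rpow_nonneg (norm_nonneg _) _)]
  refine h4.trans (le_of_eq ?_)
  rw [Real.div_rpow (by have := norm_nonneg (eF F x); linarith) (by norm_num), Real.rpow_neg (by norm_num : (0 : ℝ) ≤ 2)]
  field_simp

/-- Chunk UA2A (S). {x : ‖z + eF F x‖ < c} is finite (from sum_shift, or H55P.pe8_fin in H55P/E8.lean). -/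
theorem fin_shift (F : Type) [Field F] [NumberField F] [IQ F] (z : ℂ) (c : ℝ) :
    {x : 𝓞 F | ‖z + eF F x‖ < c}.Finite := by
  refine (ua2a_fin F (c + ‖z‖)).subset fun x hx => ?_
  have hx' : ‖z + eF F x‖ < c := hx
  have h1 : ‖eF F x‖ ≤ ‖z + eF F x‖ + ‖z‖ := by
    have := norm_sub_le (z + eF F x) z
    rwa [add_sub_cancel_left] at this
  show ‖eF F x‖ ≤ c + ‖z‖
  linarith

end H55K
end

-- from Lib.H55K.Z1B
section

/-! # H55K: the lattice is determined by g2 and g3 -/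

open NumberField IsDedekindDomain WeierstrassCurve

namespace H55K

open H55P (IQ embF eF LF Per IsHecke Pt ac Inert Dec Nm)
open H35P (WAB Ker tt)


variable {F : Type} [Field F] [NumberField F] [IQ F] {A B : F} {Om : ℂ}

theorem z1b_indep (L : PeriodPair) (c : ℂ) (hc : c ≠ 0) : LinearIndependent ℝ ![c * L.ω₁, c * L.ω₂] := by
  have h := L.indep.map' (LinearMap.mulLeft ℝ c) (by
    rw [LinearMap.ker_eq_bot]
    exact mul_right_injective₀ hc)
  have e : (LinearMap.mulLeft ℝ c) ∘ ![L.ω₁, L.ω₂] = ![c * L.ω₁, c * L.ω₂] := by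
    ext i
    fin_cases i <;> rfl
  rwa [e] at h

theorem z1b_G (L L' : PeriodPair) (c : ℂ) (hc : c ≠ 0) (h : ∀ z, z ∈ L'.lattice ↔ ∃ l ∈ L.lattice, z = c * l)
    (n : ℕ) : L'.G n = L.G n / c ^ n := by
  have hf : ∀ l : L.lattice, c * (l : ℂ) ∈ L'.lattice := fun l => (h _).2 ⟨l, l.2, rfl⟩
  have hb : Function.Bijective (fun l : L.lattice => (⟨c * l, hf l⟩ : L'.lattice)) := by
    constructor
    · intro a b hab
      exact Subtype.ext (mul_right_injective₀ hc (congrArg Subtype.val hab))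
    · rintro ⟨z, hz⟩
      obtain ⟨l, hl, e⟩ := (h z).1 hz
      exact ⟨⟨l, hl⟩, Subtype.ext e.symm⟩
  unfold PeriodPair.G
  rw [← (Equiv.ofBijective _ hb).tsum_eq, div_eq_mul_inv, ← tsum_mul_right]
  refine tsum_congr fun l => ?_
  show ((c * (l : ℂ)) ^ n)⁻¹ = _
  rw [mul_pow, mul_inv, mul_comm]

/-- Chunk Z1B (S/M). Scaling: the period pair c L; g₂(cL) = c^-4 g₂(L), g₃(cL) = c^-6 g₃(L) (tsum over the lattice, Equiv by multiplication by c). -/
theorem lat_scale (L : PeriodPair) (c : ℂ) (hc : c ≠ 0) : ∃ L' : PeriodPair,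
    (∀ z, z ∈ L'.lattice ↔ ∃ l ∈ L.lattice, z = c * l) ∧ L'.g₂ = L.g₂ / c ^ 4 ∧ L'.g₃ = L.g₃ / c ^ 6 := by
  have h : ∀ z, z ∈ (⟨c * L.ω₁, c * L.ω₂, z1b_indep L c hc⟩ : PeriodPair).lattice ↔
      ∃ l ∈ L.lattice, z = c * l := by
    intro z
    rw [PeriodPair.mem_lattice]
    constructor
    · rintro ⟨m, n, rfl⟩
      exact ⟨m * L.ω₁ + n * L.ω₂, PeriodPair.mem_lattice.2 ⟨m, n, rfl⟩, by ring⟩
    · rintro ⟨l, hl, rfl⟩
      obtain ⟨m, n, rfl⟩ := PeriodPair.mem_lattice.1 hl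
      exact ⟨m, n, by ring⟩
  refine ⟨⟨c * L.ω₁, c * L.ω₂, z1b_indep L c hc⟩, h, ?_, ?_⟩
  · unfold PeriodPair.g₂
    rw [z1b_G L _ c hc h, mul_div_assoc]
  · unfold PeriodPair.g₃
    rw [z1b_G L _ c hc h, mul_div_assoc]

end H55K
end

-- from Lib.H55K.Z1A
section

/-! # H55K: the lattice is determined by g2 and g3 -/

open NumberField IsDedekindDomain WeierstrassCurve

namespace H55K

open H55P (IQ embF eF LF Per IsHecke Pt ac Inert Dec Nm)
open H35P (WAB Ker tt)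


variable {F : Type} [Field F] [NumberField F] [IQ F] {A B : F} {Om : ℂ}

theorem z1a_alg {a b x y u v w1 w2 z G g2 g3 m g' : ℂ} (n : ℕ) (hz : z ≠ 0) (ha : a = (z ^ 2)⁻¹ + u) (hb : b = (z ^ 2)⁻¹ + v)
    (hx : x = -2 * (z ^ 3)⁻¹ + w1) (hy : y = -2 * (z ^ 3)⁻¹ + w2) (h1 : x ^ 2 = 4 * a ^ 3 - g2 * a - g3)
    (h2 : y ^ 2 = 4 * b ^ 3 - g2 * b - g3) (hD : u - v = z ^ n * G) (hD' : z * (w1 - w2) = z ^ n * (m * G + z * g')) :
    (m * G + z * g') * (-4 + z ^ 3 * (w1 + w2)) - G * (4 * ((1 + z ^ 2 * u) ^ 2 + (1 + z ^ 2 * u) * (1 + z ^ 2 * v) +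
      (1 + z ^ 2 * v) ^ 2) - g2 * z ^ 4) = 0 := by
  have hA : z ^ 2 * a = 1 + z ^ 2 * u := by
    rw [ha, mul_add, mul_inv_cancel₀ (pow_ne_zero 2 hz)]
  have hB : z ^ 2 * b = 1 + z ^ 2 * v := by
    rw [hb, mul_add, mul_inv_cancel₀ (pow_ne_zero 2 hz)]
  have hX : z ^ 3 * x = -2 + z ^ 3 * w1 := by
    rw [hx]
    field_simp
  have hY : z ^ 3 * y = -2 + z ^ 3 * w2 := by
    rw [hy]
    field_simp
  have e1 : (z ^ 3 * x) ^ 2 = 4 * (z ^ 2 * a) ^ 3 - g2 * z ^ 4 * (z ^ 2 * a) - g3 * z ^ 6 := by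
    linear_combination z ^ 6 * h1
  have e2 : (z ^ 3 * y) ^ 2 = 4 * (z ^ 2 * b) ^ 3 - g2 * z ^ 4 * (z ^ 2 * b) - g3 * z ^ 6 := by
    linear_combination z ^ 6 * h2
  rw [hA, hX] at e1
  rw [hB, hY] at e2
  have hzn : z ^ 2 * z ^ n ≠ 0 := mul_ne_zero (pow_ne_zero 2 hz) (pow_ne_zero n hz)
  apply mul_left_cancel₀ hzn
  rw [mul_zero]
  linear_combination e1 - e2 - z ^ 2 * (-4 + z ^ 3 * (w1 + w2)) * hD' +
    z ^ 2 * (4 * ((1 + z ^ 2 * u) ^ 2 + (1 + z ^ 2 * u) * (1 + z ^ 2 * v) + (1 + z ^ 2 * v) ^ 2) - g2 * z ^ 4) * hD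

theorem z1a_dv (L : PeriodPair) {u : ℂ → ℂ} (hu : AnalyticAt ℂ u 0) (hU : ∀ z : ℂ, z ≠ 0 → L.weierstrassP z = (z ^ 2)⁻¹ + u z) :
    ∀ᶠ z in nhdsWithin (0 : ℂ) {0}ᶜ, L.derivWeierstrassP z = -2 * (z ^ 3)⁻¹ + deriv u z := by
  filter_upwards [H35P.ev_compl L 0, self_mem_nhdsWithin, hu.eventually_analyticAt.filter_mono nhdsWithin_le_nhds] with z h1 h2 h3
  have hz : z ≠ 0 := h2
  have d1 := H35P.wp_hasDeriv L z h1
  have d2 : HasDerivAt (fun z : ℂ => (z ^ 2)⁻¹ + u z) (-(2 * z) / (z ^ 2) ^ 2 + deriv u z) z := by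
    exact (((hasDerivAt_pow 2 z).inv (pow_ne_zero 2 hz)).add h3.differentiableAt.hasDerivAt).congr_deriv (by simp)
  have e : L.weierstrassP =ᶠ[nhds z] fun z : ℂ => (z ^ 2)⁻¹ + u z := by
    filter_upwards [isOpen_ne.mem_nhds hz] with w hw
    exact hU w hw
  rw [d1.unique (d2.congr_of_eventuallyEq e)]
  congr 1
  field_simp

/-- The two functions agree near `0`. -/
theorem z1a_near (L L' : PeriodPair) (h2 : L.g₂ = L'.g₂) (h3 : L.g₃ = L'.g₃) :
    ∀ᶠ z in nhdsWithin (0 : ℂ) {0}ᶜ, L.weierstrassP z = L'.weierstrassP z := by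
  obtain ⟨u, hu, hu0, hU⟩ := H35P.wp_zero L
  obtain ⟨v, hv, hv0, hV⟩ := H35P.wp_zero L'
  have hD : AnalyticAt ℂ (fun z => u z - v z) 0 := hu.sub hv
  by_cases h : ∀ᶠ z in nhds (0 : ℂ), u z - v z = 0
  · filter_upwards [h.filter_mono nhdsWithin_le_nhds, self_mem_nhdsWithin] with z hz hz0
    rw [hU z hz0, hV z hz0, sub_eq_zero.1 hz]
  · exfalso
    obtain ⟨n, g, hg, hg0, hgD⟩ := hD.exists_eventuallyEq_pow_smul_nonzero_iff.2 h
    simp only [sub_zero, smul_eq_mul] at hgD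
    have hev : ∀ᶠ z in nhdsWithin (0 : ℂ) {0}ᶜ, ((n : ℂ) * g z + z * deriv g z) * (-4 + z ^ 3 * (deriv u z + deriv v z)) -
        g z * (4 * ((1 + z ^ 2 * u z) ^ 2 + (1 + z ^ 2 * u z) * (1 + z ^ 2 * v z) + (1 + z ^ 2 * v z) ^ 2) - L.g₂ * z ^ 4) = 0 := by
      filter_upwards [H35P.ev_compl L 0, H35P.ev_compl L' 0, self_mem_nhdsWithin, z1a_dv L hu hU, z1a_dv L' hv hV,
        hgD.eventually_nhds.filter_mono nhdsWithin_le_nhds, hu.eventually_analyticAt.filter_mono nhdsWithin_le_nhds,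
        hv.eventually_analyticAt.filter_mono nhdsWithin_le_nhds, hg.eventually_analyticAt.filter_mono nhdsWithin_le_nhds]
        with z a1 a2 a3 a4 a5 a6 a7 a8 a9
      have hz : z ≠ 0 := a3
      have o1 := L.derivWeierstrassP_sq z a1
      have o2 := L'.derivWeierstrassP_sq z a2
      rw [← h2, ← h3] at o2
      have d1 : HasDerivAt (fun z => u z - v z) (deriv u z - deriv v z) z :=
        a7.differentiableAt.hasDerivAt.sub a8.differentiableAt.hasDerivAt
      have d2 : HasDerivAt (fun z => z ^ n * g z) ((n : ℂ) * z ^ (n - 1) * g z + z ^ n * deriv g z) z :=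
        (hasDerivAt_pow n z).mul a9.differentiableAt.hasDerivAt
      have d3 := d1.unique (d2.congr_of_eventuallyEq a6)
      have d4 : z * (deriv u z - deriv v z) = z ^ n * ((n : ℂ) * g z + z * deriv g z) := by
        rw [d3]
        rcases n with _ | n
        · simp
        · rw [Nat.add_sub_cancel, pow_succ]
          ring
      exact z1a_alg n hz (hU z hz) (hV z hz) a4 a5 o1 o2 a6.self_of_nhds d4
    have hc : ContinuousAt (fun z => ((n : ℂ) * g z + z * deriv g z) * (-4 + z ^ 3 * (deriv u z + deriv v z)) -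
        g z * (4 * ((1 + z ^ 2 * u z) ^ 2 + (1 + z ^ 2 * u z) * (1 + z ^ 2 * v z) + (1 + z ^ 2 * v z) ^ 2) - L.g₂ * z ^ 4)) 0 := by
      have c1 := hg.continuousAt
      have c2 := hg.deriv.continuousAt
      have c3 := hu.continuousAt
      have c4 := hu.deriv.continuousAt
      have c5 := hv.continuousAt
      have c6 := hv.deriv.continuousAt
      fun_prop
    have t1 := hc.tendsto.mono_left (nhdsWithin_le_nhds (s := {0}ᶜ))
    have t2 : Filter.Tendsto (fun _ : ℂ => (0 : ℂ)) (nhdsWithin (0 : ℂ) {0}ᶜ) (nhds 0) := tendsto_const_nhds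
    have t3 := tendsto_nhds_unique (t2.congr' (hev.mono fun z hz => hz.symm)) t1
    have h5 : ((n : ℂ) + 3) * g 0 = 0 := by
      have h6 : (0 : ℂ) = (n : ℂ) * g 0 * -4 - g 0 * (4 * (1 + 1 + 1)) := by
        simpa using t3
      linear_combination (-(1 / 4) : ℂ) * h6.symm
    rcases mul_eq_zero.1 h5 with h6 | h6
    · have : ((n + 3 : ℕ) : ℂ) = 0 := by
        push_cast
        exact h6
      exact absurd (Nat.cast_eq_zero.1 this) (by omega)
    · exact hg0 h6

theorem z1a_conn (L L' : PeriodPair) : IsPreconnected (((L.lattice : Set ℂ) ∪ (L'.lattice : Set ℂ))ᶜ) := by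
  have h1 : (L.lattice : Set ℂ).Countable := countable_of_Lindelof_of_discrete (X := L.lattice)
  have h2 : (L'.lattice : Set ℂ).Countable := countable_of_Lindelof_of_discrete (X := L'.lattice)
  exact ((h1.union h2).isConnected_compl_of_one_lt_rank (by simp)).isPreconnected

theorem z1a_eq (L L' : PeriodPair) (h2 : L.g₂ = L'.g₂) (h3 : L.g₃ = L'.g₃) :
    Set.EqOn L.weierstrassP L'.weierstrassP (((L.lattice : Set ℂ) ∪ (L'.lattice : Set ℂ))ᶜ) := by
  have hn := z1a_near L L' h2 h3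
  have hn2 : ∀ᶠ z in nhdsWithin (0 : ℂ) {0}ᶜ, ∀ᶠ w in nhds z, L.weierstrassP w = L'.weierstrassP w := by
    filter_upwards [eventually_eventually_nhdsWithin.2 hn, self_mem_nhdsWithin] with z h4 h5
    have hz : z ≠ 0 := h5
    rwa [isOpen_compl_singleton.nhdsWithin_eq hz] at h4
  obtain ⟨z, a1, a2, a3⟩ := (hn2.and ((H35P.ev_compl L 0).and (H35P.ev_compl L' 0))).exists
  have hz : z ∈ (((L.lattice : Set ℂ) ∪ (L'.lattice : Set ℂ))ᶜ) := fun h => h.elim a2 a3
  refine AnalyticOnNhd.eqOn_of_preconnected_of_eventuallyEq (fun w hw => L.analyticOnNhd_weierstrassP w fun h => hw (Or.inl h))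
    (fun w hw => L'.analyticOnNhd_weierstrassP w fun h => hw (Or.inr h)) (z1a_conn L L') hz a1

theorem z1a_sub (L L' : PeriodPair) (h2 : L.g₂ = L'.g₂) (h3 : L.g₃ = L'.g₃) {l : ℂ} (hl : l ∈ L.lattice) : l ∈ L'.lattice := by
  by_contra hl'
  have he := z1a_eq L L' h2 h3
  obtain ⟨u, hu, hu0, hU⟩ := H35P.wp_zero L
  have t1 : Filter.Tendsto (fun z => (z - l) ^ 2 * L'.weierstrassP z) (nhdsWithin l {l}ᶜ) (nhds 0) := by
    have hc : ContinuousAt (fun z => (z - l) ^ 2 * L'.weierstrassP z) l := by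
      have := (L'.analyticOnNhd_weierstrassP l hl').continuousAt
      fun_prop
    have := hc.tendsto.mono_left (nhdsWithin_le_nhds (s := {l}ᶜ))
    simpa using this
  have t2 : Filter.Tendsto (fun z => 1 + (z - l) ^ 2 * u (z - l)) (nhdsWithin l {l}ᶜ) (nhds 1) := by
    have hu' : ContinuousAt u (l - l) := by
      rw [sub_self]
      exact hu.continuousAt
    have hc : ContinuousAt (fun z => 1 + (z - l) ^ 2 * u (z - l)) l := by
      have h4 : ContinuousAt (fun z => u (z - l)) l :=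
        ContinuousAt.comp (g := u) (f := fun z => z - l) hu' (by fun_prop)
      fun_prop
    have := hc.tendsto.mono_left (nhdsWithin_le_nhds (s := {l}ᶜ))
    simpa using this
  have hev : (fun z => 1 + (z - l) ^ 2 * u (z - l)) =ᶠ[nhdsWithin l {l}ᶜ] fun z => (z - l) ^ 2 * L'.weierstrassP z := by
    filter_upwards [H35P.ev_compl L l, H35P.ev_compl L' l, self_mem_nhdsWithin] with z a1 a2 a3
    have hz : z - l ≠ 0 := sub_ne_zero.2 a3
    have h4 : L.weierstrassP z = L'.weierstrassP z := he fun h => h.elim a1 a2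
    have h5 : L.weierstrassP (z - l) = L.weierstrassP z := L.weierstrassP_sub_coe z ⟨l, hl⟩
    rw [← h4, ← h5, hU _ hz, mul_add, mul_inv_cancel₀ (pow_ne_zero 2 hz)]
  exact one_ne_zero (tendsto_nhds_unique t2 (t1.congr' hev.symm))

/-- Chunk Z1A (M). A lattice is determined by g2 and g3. Put p = L.weierstrassP, p' = L'.weierstrassP. H35P.wp_zero: p = z^-2 + u, p' = z^-2 + u', u, u' analytic at 0, u(0) = u'(0) = 0. Both satisfy p_z^2 = 4p^3 - g₂ p - g₃ (derivWeierstrassP_sq) near 0 (z ≠ 0, z not in the lattices), the derivative of p is derivWeierstrassP. D = u - u' is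
analytic at 0. Subtract: (-4 z^-3 + u_z + u'_z) D_z = D (12 z^-4 + 12 z^-2 (u + u') + 4 (u^2 + u u' + u'^2) - g₂). If D is not identically 0 near 0, D = z^n h(z), h(0) ≠ 0, n ≥ 0 (AnalyticAt.exists_eventuallyEq_pow_smul_nonzero_iff, order): multiply by z^(4-n) and let z tend to 0: -4 n h(0) = 12 h(0), absurd. So p = p' near 0 (z ≠ 0), hence on the
complement of both lattices, which is connected (identity theorem; see H28G/GA2.lean, GA2_conn for the complement of a countable closed set: IsPreconnected via Set.Countable.isPathConnected_compl_of_one_lt_rank). If l is in L but not in L': p tends to infinity at l, p' is bounded near l: absurd. -/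
theorem lat_eq (L L' : PeriodPair) (h2 : L.g₂ = L'.g₂) (h3 : L.g₃ = L'.g₃) : L.lattice = L'.lattice := by
  ext z
  exact ⟨fun h => z1a_sub L L' h2 h3 h, fun h => z1a_sub L' L h2.symm h3.symm h⟩

end H55K
end

-- from Lib.H55K.Y7B
section

/-! # H55K: a good prime exists -/

open NumberField IsDedekindDomain WeierstrassCurve

namespace H55K

open H55P (IQ embF eF LF Per IsHecke Pt ac Inert Dec Nm)
open H35P (WAB Ker tt)


variable {F : Type} [Field F] [NumberField F] [IQ F]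

theorem y7b_jac {D q : ℕ} (hD : 0 < D) (hm : q % (4 * D) = 4 * D - 1) : jacobiSym (-(D : ℤ)) q = -1 := by
  have h4 : q % 4 = 3 := by
    have h := Nat.mod_mod_of_dvd q (Dvd.intro D rfl : 4 ∣ 4 * D)
    rw [hm] at h
    omega
  have hodd : Odd q := Nat.odd_iff.2 (by omega)
  have h1 : jacobiSym (D : ℤ) q = 1 := by
    rw [jacobiSym.mod_right' D hodd, hm]
    have hodd2 : Odd (4 * D - 1) := Nat.odd_iff.2 (by omega)
    have e1 : jacobiSym ((4 : ℤ) * D) (4 * D - 1) = 1 := by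
      have e2 : ((4 : ℤ) * D) % ((4 * D - 1 : ℕ) : ℤ) = 1 % ((4 * D - 1 : ℕ) : ℤ) := by
        rw [Nat.cast_sub (by omega)]
        push_cast
        rw [Int.emod_eq_emod_iff_emod_sub_eq_zero, Int.emod_self]
      rw [jacobiSym.mod_left, e2, ← jacobiSym.mod_left, jacobiSym.one_left]
    rw [jacobiSym.mul_left] at e1
    have e4 : jacobiSym (4 : ℤ) (4 * D - 1) = 1 := by
      have : (4 : ℤ) = 2 ^ 2 := by norm_num
      rw [this]
      refine jacobiSym.sq_one' ?_
      have h5 : Nat.gcd 2 (4 * D - 1) = 1 := Nat.coprime_two_left.2 hodd2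
      exact_mod_cast h5
    rw [e4, one_mul] at e1
    exact e1
  rw [neg_eq_neg_one_mul, jacobiSym.mul_left, h1, mul_one, jacobiSym.at_neg_one hodd,
    ZMod.χ₄_nat_three_mod_four h4]

theorem y7b_field {R : Type} [CommRing R] {q : ℕ} (hq : q.Prime) (hc : Nat.card R = q) {D : ℕ} {z : R}
    (hz : z ^ 2 = -(D : R)) : IsSquare (-(D : ZMod q)) := by
  have : Finite R := Nat.finite_of_card_ne_zero (by rw [hc]; exact hq.ne_zero)
  have := Fintype.ofFinite R
  rw [Nat.card_eq_fintype_card] at hc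
  let e : ZMod q ≃+* R := ZMod.ringEquivOfPrime R hq hc
  refine ⟨e.symm z, ?_⟩
  rw [← map_mul, ← sq, hz, map_neg, map_natCast]

/-- Chunk Y7B (M). If (q) is not prime in 𝓞 F: a prime v containing q (q is not a unit), q = x y with x a prime element generating v, y not a unit (if y is a unit then q is prime), Nm x * Nm y = q^2 (Nm_mul, Nm_nat), both > 1, so absNorm v = q, 𝓞 F ⧸ v is isomorphic to ZMod q (card a prime number, or: every element is congruent to a natural number), so -D is a square in ZMod q.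
But the Jacobi symbol J(-D | q) with q congruent to -1 modulo 4 D is -1: jacobiSym.mod_right (q replaced by 4D - 1), J(-1 | 4D-1) = -1 (4D - 1 is 3 modulo 4), J(D | 4D-1) = J(4D | 4D-1) = J(1 | 4D-1) = 1; jacobiSym.legendreSym.to_jacobiSym, legendreSym.eq_neg_one_iff. -/
theorem inert_q {F : Type} [Field F] [NumberField F] [IQ F] {D : ℕ} {δ : 𝓞 F} (hD : 0 < D)
    (hδ : δ ^ 2 = -(D : 𝓞 F)) {q : ℕ} (hq : q.Prime) (hm : q % (4 * D) = 4 * D - 1) : Prime (q : 𝓞 F) := by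
  have hq0 : (q : 𝓞 F) ≠ 0 := Nat.cast_ne_zero.2 hq.ne_zero
  have hu : ∀ x : 𝓞 F, Nm x = 1 → IsUnit x := by
    intro x hx
    unfold H55P.Nm at hx
    rwa [Ideal.absNorm_eq_one_iff, Ideal.span_singleton_eq_top] at hx
  have hq1 : ¬ IsUnit (q : 𝓞 F) := by
    intro h
    have h1 : Nm (q : 𝓞 F) = 1 := by
      unfold H55P.Nm
      rw [Ideal.absNorm_eq_one_iff, Ideal.span_singleton_eq_top]
      exact h
    rw [Nm_nat] at h1
    exact hq.one_lt.ne' (by nlinarith [hq.one_lt])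
  by_contra hnp
  obtain ⟨x, hx, y, hxy⟩ := WfDvdMonoid.exists_irreducible_factor hq1 hq0
  have hxp : Prime x := hx.prime
  have hy : ¬ IsUnit y := by
    intro h
    apply hnp
    have : Associated x (q : 𝓞 F) := ⟨h.unit, hxy.symm⟩
    exact this.prime hxp
  have hN : Nm x * Nm y = q ^ 2 := by rw [← Nm_mul, ← hxy, Nm_nat]
  have hx1 : Nm x ≠ 1 := fun h => hxp.not_isUnit (hu _ h)
  have hy1 : Nm y ≠ 1 := fun h => hy (hu _ h)
  have hxq : Nm x = q := by
    obtain ⟨i, hi, e⟩ := (Nat.dvd_prime_pow hq).1 (Dvd.intro _ hN)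
    have hi3 : i = 0 ∨ i = 1 ∨ i = 2 := by omega
    rcases hi3 with rfl | rfl | rfl
    · rw [pow_zero] at e
      exact absurd e hx1
    · rwa [pow_one] at e
    · rw [e] at hN
      have : q ^ 2 * Nm y = q ^ 2 * 1 := by rw [hN, mul_one]
      exact absurd (Nat.eq_of_mul_eq_mul_left (pow_pos hq.pos 2) this) hy1
  have hcard : Nat.card (𝓞 F ⧸ Ideal.span {x}) = q := by
    rw [← hxq]
    unfold H55P.Nm
    rw [Ideal.absNorm_apply, Submodule.cardQuot_apply]
  have hsq : IsSquare (-(D : ZMod q)) := by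
    refine y7b_field hq hcard (z := Ideal.Quotient.mk _ δ) ?_
    rw [← map_pow, hδ, map_neg, map_natCast]
  have := Fact.mk hq
  have h1 : legendreSym q (-(D : ℤ)) = -1 := by
    rw [jacobiSym.legendreSym.to_jacobiSym, y7b_jac hD hm]
  rw [legendreSym.eq_neg_one_iff] at h1
  apply h1
  push_cast
  exact hsq

end H55K
end

-- from Lib.H55K.J10
section

open NumberField IsDedekindDomain

namespace H55K.JJ

open H55P (IQ embF eF LF Per Pt ac Nm)

/-! Chunk J10 (M). δ = x - cj x, x from H55P.F0_im: cj δ = -δ, δ^2 = -D, D = Nm δ > 0 (see the beginning of the proof of exists_delta in Y7A.lean). m = 1 if V(D + 1) = 1, otherwise m = D + 1 (V(m) < 1, so V(m^2 D + 1) = 1). b = m δ + 1: b * cj b = m^2 D + 1 = Nm b (mul_cj).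
l: a prime, l = -1 modulo 4D, l > D + 1, V(l) = 1: take two such primes l1 < l2 (Nat.forall_exists_prime_gt_and_eq_mod / setOf_prime_and_eq_mod_infinite, y7c_q for the style); if V(l1) < 1 and V(l2) < 1 then V(1) < 1 (u l1 + v l2 = 1). Prime (l : 𝓞 F): inert_q (Y7B).
If l | b - n = m δ + k (k = 1 - n): apply cj: l | -m δ + k; sum: l | 2k in 𝓞 F, so l | 2k in ℤ (norm, or Nm; (l : 𝓞 F) | (z : 𝓞 F) iff l | z), l odd, so l | k, l | m δ; l prime: l | m (0 < m ≤ D + 1 < l: no) or l | δ, then l^2 | D, no. -/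

theorem j10_nat {Ω : Type} [Field Ω] (V : ValuationSubring Ω) (n : ℕ) : V.valuation (n : Ω) ≤ 1 :=
  (V.valuation_le_one_iff _).2 (natCast_mem V n)

theorem j10_int {Ω : Type} [Field Ω] (V : ValuationSubring Ω) (n : ℤ) : V.valuation (n : Ω) ≤ 1 :=
  (V.valuation_le_one_iff _).2 (intCast_mem V n)

theorem j10_mul {Ω : Type} [Field Ω] (V : ValuationSubring Ω) {x y : Ω} (hx : V.valuation x < 1)
    (hy : V.valuation y ≤ 1) : V.valuation (x * y) < 1 := by
  rw [map_mul]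
  exact mul_lt_one_of_lt_of_le hx hy

theorem j10_dvd {F : Type} [Field F] [NumberField F] [IQ F] {l k : ℕ} (h : (l : 𝓞 F) ∣ (k : 𝓞 F)) : l ∣ k := by
  obtain ⟨c, hc⟩ := h
  have h1 := congrArg (fun z : 𝓞 F => Nm z) hc
  simp only [Nm_mul, Nm_nat] at h1
  exact (Nat.pow_dvd_pow_iff two_ne_zero).1 ⟨_, h1⟩

theorem choose_lb (F : Type) [Field F] [NumberField F] [IQ F] {Ω : Type} [Field Ω] [CharZero Ω]
    (V : ValuationSubring Ω) : ∃ (l : ℕ) (b : 𝓞 F), l.Prime ∧ Prime (l : 𝓞 F) ∧ V.valuation (l : Ω) = 1 ∧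
      V.valuation ((Nm b : ℕ) : Ω) = 1 ∧ ∀ n : ℤ, ¬ (l : 𝓞 F) ∣ b - n := by
  classical
  obtain ⟨δ, hδ0, hcj⟩ : ∃ δ : 𝓞 F, δ ≠ 0 ∧ cj δ = -δ := by
    obtain ⟨x, hx⟩ := H55P.F0_im (F := F)
    refine ⟨x - cj x, ?_, ?_⟩
    · intro h
      have h1 : x = cj x := sub_eq_zero.1 h
      have h2 := congrArg (eF F) h1
      rw [e_cj] at h2
      exact hx (Complex.conj_eq_iff_im.1 h2.symm)
    · rw [map_sub, cj_cj]
      ring
  obtain ⟨D, hD, hδ⟩ : ∃ D : ℕ, 0 < D ∧ δ ^ 2 = -(D : 𝓞 F) := by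
    refine ⟨Nm δ, Nat.pos_of_ne_zero fun h => hδ0 (H55P.Nm_eq_zero.1 h), ?_⟩
    rw [← mul_cj, hcj]
    ring
  obtain ⟨m, hm0, hm1, hmV⟩ : ∃ m : ℕ, 0 < m ∧ m ≤ D + 1 ∧ V.valuation ((m ^ 2 * D + 1 : ℕ) : Ω) = 1 := by
    by_cases hV : V.valuation ((D + 1 : ℕ) : Ω) = 1
    · refine ⟨1, one_pos, by omega, ?_⟩
      rw [one_pow, one_mul]
      exact hV
    · refine ⟨D + 1, by omega, le_rfl, ?_⟩
      have h1 : V.valuation ((D + 1 : ℕ) : Ω) < 1 := lt_of_le_of_ne (j10_nat V _) hV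
      have h2 : V.valuation (((D + 1) ^ 2 * D : ℕ) : Ω) < 1 := by
        have e : (((D + 1) ^ 2 * D : ℕ) : Ω) = ((D + 1 : ℕ) : Ω) * (((D + 1) * D : ℕ) : Ω) := by
          push_cast
          ring
        rw [e]
        exact j10_mul V h1 (j10_nat V _)
      rw [Nat.cast_add, Nat.cast_one]
      rw [Valuation.map_add_eq_of_lt_right _ (by rw [map_one]; exact h2)]
      exact map_one _
  obtain ⟨l, hl, hlD, hlm, hlV⟩ : ∃ l : ℕ, l.Prime ∧ D + 1 < l ∧ l % (4 * D) = 4 * D - 1 ∧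
      V.valuation (l : Ω) = 1 := by
    have hex : ∀ X : ℕ, ∃ l : ℕ, l.Prime ∧ X < l ∧ l % (4 * D) = 4 * D - 1 := by
      intro X
      have hc : Nat.Coprime (4 * D - 1) (4 * D) := by
        obtain ⟨n, hn⟩ : ∃ n, 4 * D = n + 1 := ⟨4 * D - 1, by omega⟩
        rw [hn, Nat.add_sub_cancel]
        simp
      obtain ⟨q, h1, h2, h3⟩ := Nat.forall_exists_prime_gt_and_modEq X (q := 4 * D) (by omega) hc
      refine ⟨q, h2, h1, ?_⟩
      rw [h3, Nat.mod_eq_of_lt (by omega)]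
    obtain ⟨l1, p1, g1, m1⟩ := hex (D + 1)
    obtain ⟨l2, p2, g2, m2⟩ := hex l1
    by_cases hV1 : V.valuation (l1 : Ω) = 1
    · exact ⟨l1, p1, g1, m1, hV1⟩
    · by_cases hV2 : V.valuation (l2 : Ω) = 1
      · exact ⟨l2, p2, g1.trans g2, m2, hV2⟩
      · exfalso
        have v1 : V.valuation (l1 : Ω) < 1 := lt_of_le_of_ne (j10_nat V _) hV1
        have v2 : V.valuation (l2 : Ω) < 1 := lt_of_le_of_ne (j10_nat V _) hV2
        have hc : IsCoprime (l1 : ℤ) (l2 : ℤ) := by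
          rw [Nat.isCoprime_iff_coprime, Nat.coprime_primes p1 p2]
          omega
        obtain ⟨a, b, hab⟩ := hc
        have h6 : (l1 : Ω) * (a : Ω) + (l2 : Ω) * (b : Ω) = 1 := by
          have := congrArg (fun z : ℤ => (z : Ω)) hab
          push_cast at this
          rw [← this]
          ring
        have h7 : V.valuation (1 : Ω) < 1 := by
          rw [← h6]
          exact Valuation.map_add_lt _ (j10_mul V v1 (j10_int V _)) (j10_mul V v2 (j10_int V _))
        rw [map_one] at h7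
        exact lt_irrefl _ h7
  have hlp : Prime (l : 𝓞 F) := inert_q hD hδ hl hlm
  refine ⟨l, (m : 𝓞 F) * δ + 1, hl, hlp, hlV, ?_, ?_⟩
  · have h1 : Nm ((m : 𝓞 F) * δ + 1) = m ^ 2 * D + 1 := by
      have h2 : ((Nm ((m : 𝓞 F) * δ + 1) : ℕ) : 𝓞 F) = ((m ^ 2 * D + 1 : ℕ) : 𝓞 F) := by
        rw [← mul_cj, map_add, map_mul, map_one, cj_nat, hcj]
        push_cast
        linear_combination (-(m : 𝓞 F) ^ 2) * hδ
      exact_mod_cast h2
    rw [h1]
    exact hmV
  · intro n hn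
    obtain ⟨c, hc⟩ := hn
    have h1 := congrArg cj hc
    rw [map_mul, map_sub, map_add, map_mul, map_one, cj_nat, cj_nat, hcj, map_intCast] at h1
    have h2 : (l : 𝓞 F) ∣ ((2 * m : ℕ) : 𝓞 F) * δ := by
      refine ⟨c - cj c, ?_⟩
      push_cast
      linear_combination hc - h1
    rcases hlp.dvd_or_dvd h2 with h3 | h3
    · have h4 := j10_dvd h3
      rcases hl.dvd_mul.1 h4 with h5 | h5
      · have := Nat.le_of_dvd two_pos h5
        omega
      · have := Nat.le_of_dvd hm0 h5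
        omega
    · have h4 : (l : 𝓞 F) ∣ (D : 𝓞 F) := by
        have h5 : (l : 𝓞 F) ∣ δ ^ 2 := dvd_pow h3 two_ne_zero
        rw [hδ] at h5
        exact (dvd_neg).1 h5
      have h6 := Nat.le_of_dvd hD (j10_dvd h4)
      omega

end H55K.JJ
end

-- from Lib.H55K.Y1
section

/-! # H55K: a complex embedding of the algebraic closure -/

open NumberField IsDedekindDomain WeierstrassCurve

namespace H55K

open H55P (IQ embF eF LF Per IsHecke Pt ac Inert Dec Nm)
open H35P (WAB Ker tt)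


variable {F : Type} [Field F] [NumberField F]
omit [NumberField F] in
/-- Chunk Y1 (S). ℂ is an algebraically closed extension of F by embF F (RingHom.toAlgebra); IsAlgClosed.lift. -/
theorem exists_j (F : Type) [Field F] [NumberField F] [IQ F] (Ω : Type) [Field Ω] [Algebra F Ω]
    [Algebra.IsAlgebraic F Ω] : ∃ j : Ω →+* ℂ, ∀ x : F, j (algebraMap F Ω x) = embF F x := by
  letI : Algebra F ℂ := (embF F).toAlgebra
  let j : Ω →ₐ[F] ℂ := IsAlgClosed.lift
  exact ⟨j.toRingHom, fun x => j.commutes x⟩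

end H55K
end

-- from Lib.H55K.Y3
section

/-! # H55K: the short equation -/

open NumberField IsDedekindDomain WeierstrassCurve

namespace H55K

open H55P (IQ embF eF LF Per IsHecke Pt ac Inert Dec Nm)
open H35P (WAB Ker tt)


variable {F : Type} [Field F] [NumberField F] [IQ F]

omit [IQ F] in
theorem y3_le {Ω : Type} [Field Ω] [Algebra F Ω] (V : ValuationSubring Ω) (x : 𝓞 F) :
    V.valuation (ak Ω x) ≤ 1 := by
  rw [V.valuation_le_one_iff]
  have h1 : IsIntegral ℤ (ak Ω x) := by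
    have h2 : IsIntegral ℤ (x : F) := RingOfIntegers.isIntegral_coe x
    exact h2.map ((algebraMap F Ω).toIntAlgHom)
  have h3 : IsIntegral V (ak Ω x) := h1.tower_top
  obtain ⟨y, hy⟩ := IsIntegrallyClosed.isIntegral_iff.1 h3
  rw [← hy]
  exact y.2

omit [IQ F] in
theorem y3_cop {Ω : Type} [Field Ω] [Algebra F Ω] (V : ValuationSubring Ω) {p : ℕ}
    (hV : V.valuation (p : Ω) < 1) {z : 𝓞 F} (hz : IsCoprime z (p : 𝓞 F)) :
    V.valuation (ak Ω z) = 1 := by
  obtain ⟨a, b, hab⟩ := hz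
  have h1 : ak Ω a * ak Ω z + ak Ω b * (p : Ω) = 1 := by
    have h4 := congrArg (fun t : 𝓞 F => algebraMap F Ω (t : F)) hab
    simpa using h4
  refine le_antisymm (y3_le V z) (not_lt.1 fun hlt => ?_)
  have h5 : V.valuation (ak Ω a * ak Ω z + ak Ω b * (p : Ω)) < 1 := by
    refine Valuation.map_add_lt _ ?_ ?_
    · rw [map_mul]
      exact mul_lt_one_of_nonneg_of_lt_one_right (y3_le V a) zero_le hlt
    · rw [map_mul]
      exact mul_lt_one_of_nonneg_of_lt_one_right (y3_le V b) zero_le hV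
  rw [h1, map_one] at h5
  exact lt_irrefl _ h5

omit [NumberField F] [IQ F] in
theorem y3_nat {Ω : Type} [Field Ω] (V : ValuationSubring Ω) {p : ℕ}
    (hV : V.valuation (p : Ω) < 1) {n : ℕ} (hn : Nat.Coprime n p) : V.valuation (n : Ω) = 1 := by
  have hle : ∀ k : ℤ, V.valuation (k : Ω) ≤ 1 := by
    intro k
    rw [V.valuation_le_one_iff]
    exact intCast_mem V k
  have h0 := Nat.gcd_eq_gcd_ab n p
  rw [hn.gcd_eq_one] at h0
  have h1 : (n : Ω) * ((n.gcdA p : ℤ) : Ω) + (p : Ω) * ((n.gcdB p : ℤ) : Ω) = 1 := by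
    have h2 := congrArg (fun t : ℤ => (t : Ω)) h0
    push_cast at h2
    exact h2.symm
  have hn1 : V.valuation (n : Ω) ≤ 1 := by
    have := hle n
    rwa [Int.cast_natCast] at this
  refine le_antisymm hn1 (not_lt.1 fun hlt => ?_)
  have h5 : V.valuation ((n : Ω) * ((n.gcdA p : ℤ) : Ω) + (p : Ω) * ((n.gcdB p : ℤ) : Ω)) < 1 := by
    refine Valuation.map_add_lt _ ?_ ?_
    · rw [map_mul, mul_comm]
      exact mul_lt_one_of_nonneg_of_lt_one_right (hle _) zero_le hlt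
    · rw [map_mul, mul_comm]
      exact mul_lt_one_of_nonneg_of_lt_one_right (hle _) zero_le hV
  rw [h1, map_one] at h5
  exact lt_irrefl _ h5

omit [IQ F] in
/-- Chunk Y3 (S/M). W₀.c_relation: 1728 Δ = c₄^3 - c₆^2 (see H55P.gen_good in Gen.lean). -/
theorem y3_disc (W₀ : WeierstrassCurve (𝓞 F)) {A B : F} (hA : A = -(algebraMap (𝓞 F) F W₀.c₄) / 48)
    (hB : B = -(algebraMap (𝓞 F) F W₀.c₆) / 864) :
    4 * A ^ 3 + 27 * B ^ 2 = -(algebraMap (𝓞 F) F W₀.Δ) / 16 := by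
  have h1 : (1728 : F) * algebraMap (𝓞 F) F W₀.Δ =
      algebraMap (𝓞 F) F W₀.c₄ ^ 3 - algebraMap (𝓞 F) F W₀.c₆ ^ 2 := by
    have := congrArg (algebraMap (𝓞 F) F) W₀.c_relation
    rw [map_mul, map_sub, map_pow, map_pow, map_ofNat] at this
    exact this
  rw [hA, hB]
  linear_combination (1 / 27648 : F) * h1

omit [IQ F] in
/-- Chunk Y3. -/
theorem y3_ne (W₀ : WeierstrassCurve (𝓞 F)) {A B : F} (hA : A = -(algebraMap (𝓞 F) F W₀.c₄) / 48)
    (hB : B = -(algebraMap (𝓞 F) F W₀.c₆) / 864) (h : W₀.Δ ≠ 0) : 4 * A ^ 3 + 27 * B ^ 2 ≠ 0 := by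
  rw [y3_disc W₀ hA hB]
  refine div_ne_zero (neg_ne_zero.2 fun h0 => h ?_) (by norm_num)
  exact (map_eq_zero_iff _ (FaithfulSMul.algebraMap_injective (𝓞 F) F)).1 h0

omit [IQ F] in
/-- Chunk Y3. The same j₀. -/
theorem y3_j (W₀ : WeierstrassCurve (𝓞 F)) {A B : F} (hA : A = -(algebraMap (𝓞 F) F W₀.c₄) / 48)
    (hB : B = -(algebraMap (𝓞 F) F W₀.c₆) / 864) (h : ∃ j₀ : 𝓞 F, W₀.c₄ ^ 3 = j₀ * W₀.Δ) :
    ∃ j₀ : 𝓞 F, (j₀ : F) * (4 * A ^ 3 + 27 * B ^ 2) = 6912 * A ^ 3 := by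
  obtain ⟨j₀, hj⟩ := h
  refine ⟨j₀, ?_⟩
  have h1 : algebraMap (𝓞 F) F W₀.c₄ ^ 3 = (j₀ : F) * algebraMap (𝓞 F) F W₀.Δ := by
    have := congrArg (algebraMap (𝓞 F) F) hj
    rw [map_mul, map_pow] at this
    exact this
  rw [y3_disc W₀ hA hB, hA]
  linear_combination (1 / 16 : F) * h1

omit [IQ F] in
/-- Chunk Y3. Port of H55P.gen_good (Gen.lean) from ℂ to Ω: V(2) = V(3) = 1 (p ≥ 5, V(p) < 1), the coefficients are integral, V(Δ) = 1 because Δ is prime to p. -/
theorem gv_l {p : ℕ} (hp : p.Prime) (h5 : 5 ≤ p) (W₀ : WeierstrassCurve (𝓞 F))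
    (hΔ : IsCoprime (Ideal.span {W₀.Δ}) (Ideal.span {(p : 𝓞 F)})) {A B : F}
    (hA : A = -(algebraMap (𝓞 F) F W₀.c₄) / 48) (hB : B = -(algebraMap (𝓞 F) F W₀.c₆) / 864)
    {Ω : Type} [Field Ω] [Algebra F Ω] (V : ValuationSubring Ω) (hV : V.valuation (p : Ω) < 1) :
    GV A B V := by
  have h2 : V.valuation (2 : Ω) = 1 := by
    have h1 := y3_nat V hV (n := 2) ((Nat.coprime_primes Nat.prime_two hp).2 (by omega))
    exact_mod_cast h1
  have h3 : V.valuation (3 : Ω) = 1 := by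
    have h1 := y3_nat V hV (n := 3) ((Nat.coprime_primes Nat.prime_three hp).2 (by omega))
    exact_mod_cast h1
  have h48 : V.valuation (48 : Ω) = 1 := by
    have e : (48 : Ω) = 2 * 2 * 2 * 2 * 3 := by norm_num
    rw [e]
    simp only [map_mul, h2, h3, one_mul]
  have h864 : V.valuation (864 : Ω) = 1 := by
    have e : (864 : Ω) = 2 * 2 * 2 * 2 * 2 * 3 * 3 * 3 := by norm_num
    rw [e]
    simp only [map_mul, h2, h3, one_mul]
  have h16 : V.valuation (16 : Ω) = 1 := by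
    have e : (16 : Ω) = 2 * 2 * 2 * 2 := by norm_num
    rw [e]
    simp only [map_mul, h2, one_mul]
  refine ⟨?_, ?_, h2, h3, ?_⟩
  · rw [← V.valuation_le_one_iff, hA, map_div₀, map_neg, map_ofNat, map_div₀, Valuation.map_neg, h48,
      div_one]
    exact y3_le V _
  · rw [← V.valuation_le_one_iff, hB, map_div₀, map_neg, map_ofNat, map_div₀, Valuation.map_neg, h864,
      div_one]
    exact y3_le V _
  · rw [y3_disc W₀ hA hB, map_div₀, map_neg, map_ofNat, map_div₀, Valuation.map_neg, h16, div_one]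
    exact y3_cop V hV ((Ideal.isCoprime_span_singleton_iff _ _).1 hΔ)

end H55K
end

-- from Lib.H55P.GenStm
section

/-!
# H55P: the statement for all curves with complex multiplication by the integers of a field of class number one

F is an imaginary quadratic field of class number one, Ω = AlgebraicClosure F, W₀ a Weierstrass equation over the
integers of F, M and K number fields between F and Ω.
-/

open NumberField IsDedekindDomain WeierstrassCurve

namespace H55P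

/-- W₀ is an elliptic curve over F with complex multiplication by the integers of F: its period lattice is Om times the
lattice of integers (y^2 = x^3 - (c4/48) x - (c6/864) is isomorphic to W₀); ψ is a Hecke character of F of type (1,0)
with values in F and modulus m. -/
structure CMData (F : Type) [Field F] [NumberField F] [IQ F] (W₀ : WeierstrassCurve (𝓞 F)) (Om : ℂ)
    (m : Ideal (𝓞 F)) (ψ : Ideal (𝓞 F) →*₀ 𝓞 F) : Prop where
  ell : W₀.Δ ≠ 0
  per : Per F (-(eF F W₀.c₄) / 48) (-(eF F W₀.c₆) / 864) Om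
  hecke : IsHecke m ψ

section fields

variable {F : Type} [Field F] [NumberField F] [IQ F]

/-- The prime v of M divides neither the discriminant of W₀ nor the modulus m nor p, and p divides neither the number
of points of W₀ over the residue field nor the norm of 1 - ψ(N v), N the norm from M to F (by a theorem of Deuring these two
numbers are equal if ψ is the Hecke character of W₀). -/
structure GoodG (p : ℕ) (W₀ : WeierstrassCurve (𝓞 F)) (m : Ideal (𝓞 F)) (ψ : Ideal (𝓞 F) →*₀ 𝓞 F)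
    (M : IntermediateField F (AlgebraicClosure F)) [NumberField M] (v : HeightOneSpectrum (𝓞 M)) : Prop where
  disc : algebraMap (𝓞 F) (𝓞 M) W₀.Δ ∉ v.asIdeal
  modulus : ¬ mK M m ≤ v.asIdeal
  res : (p : 𝓞 M) ∉ v.asIdeal
  pts : ¬ p ∣ Nat.card (W₀⁄(𝓞 M ⧸ v.asIdeal)).toAffine.Point
  hecke : ¬ p ∣ Ideal.absNorm (Ideal.span {1 - ψ (Ideal.relNorm (𝓞 F) v.asIdeal)})

open Classical in
/-- The p-Selmer group of W₀ over M is zero (cocycles on the absolute Galois group of M). -/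
def SelG (p : ℕ) (W₀ : WeierstrassCurve (𝓞 F)) (M : IntermediateField F (AlgebraicClosure F)) : Prop :=
  SelZero (W₀⁄F) p M

open Classical in
/-- The p-torsion of the Tate-Shafarevich group of W₀ over M is zero. -/
def ShaG (p : ℕ) (W₀ : WeierstrassCurve (𝓞 F)) (M : IntermediateField F (AlgebraicClosure F)) : Prop :=
  ShaZero (W₀⁄F) p M

/-- The Hecke L-series of the complex conjugate of ψ ∘ N over M, absolutely convergent for Re s > 3/2, continues to
Re s > 1/2, does not vanish at 1 and its value at 1 divided by the power of the period is a p-adic unit. -/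
def ValG (p : ℕ) (Om : ℂ) (ψ : Ideal (𝓞 F) →*₀ 𝓞 F) (M : IntermediateField F (AlgebraicClosure F))
    [NumberField M] : Prop :=
  ∃ Λ : ℂ → ℂ, AnalyticOnNhd ℂ Λ {s | 1 / 2 < s.re} ∧
    (∀ s : ℂ, 3 / 2 < s.re → HasSum (H55N.tm (PsiP M ψ) s) (Λ s)) ∧ Λ 1 ≠ 0 ∧
    UnitP p (Λ 1 / Om ^ Module.finrank F M)

/-- The Hecke L-series of the complex conjugate of ψ ∘ N over M, absolutely convergent for Re s > 3/2, continues to
Re s > 1/2, and its value at 1 divided by the power of the period is integral above p: in all valuation rings of the complex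
numbers above p (in particular it is an algebraic number). -/
def IntG (p : ℕ) (Om : ℂ) (ψ : Ideal (𝓞 F) →*₀ 𝓞 F) (M : IntermediateField F (AlgebraicClosure F))
    [NumberField M] : Prop :=
  ∃ Λ : ℂ → ℂ, AnalyticOnNhd ℂ Λ {s | 1 / 2 < s.re} ∧
    (∀ s : ℂ, 3 / 2 < s.re → HasSum (H55N.tm (PsiP M ψ) s) (Λ s)) ∧
    ∀ A : ValuationSubring ℂ, A.valuation (p : ℂ) < 1 → Λ 1 / Om ^ Module.finrank F M ∈ A

/-- The group of points of W₀ over M is finite of order prime to p. -/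
def PtsG (p : ℕ) (W₀ : WeierstrassCurve (𝓞 F)) (M : IntermediateField F (AlgebraicClosure F)) : Prop :=
  Finite ((W₀⁄F)⁄M).toAffine.Point ∧ ¬ p ∣ Nat.card ((W₀⁄F)⁄M).toAffine.Point

/-- The Euler product of the L-function of W₀ over M is the one of ψ and its conjugate (a theorem of Deuring if ψ is
the Hecke character of W₀ and the primes dividing m remain of bad reduction over M). -/
def DeuG (W₀ : WeierstrassCurve (𝓞 F)) (ψ : Ideal (𝓞 F) →*₀ 𝓞 F)
    (M : IntermediateField F (AlgebraicClosure F)) [NumberField M] : Prop :=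
  ∀ n : ℕ, ((((W₀⁄F)⁄M).LFunction n : ℤ) : ℂ) =
    (H55N.AI (PsiP M ψ) * H55N.AI (fun a => (starRingEnd ℂ) (PsiP M ψ a))) n

/-- The L-series of W₀ over M converges absolutely for Re s > 3/2, continues to Re s > 1/2, does not vanish at 1, and its
value at 1 divided by the power of the square of the absolute value of the period is a p-adic unit. -/
def LvalG (p : ℕ) (W₀ : WeierstrassCurve (𝓞 F)) (Om : ℂ) (M : IntermediateField F (AlgebraicClosure F))
    [NumberField M] : Prop :=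
  ∃ Λ : ℂ → ℂ, AnalyticOnNhd ℂ Λ {s | 1 / 2 < s.re} ∧
    (∀ s : ℂ, 3 / 2 < s.re →
      LSeriesSummable (fun n => ((((W₀⁄F)⁄M).LFunction n : ℤ) : ℂ)) s ∧
      Λ s = ((W₀⁄F)⁄M).LSeries s) ∧ Λ 1 ≠ 0 ∧
    UnitP p (Λ 1 / ((‖Om‖ ^ 2 : ℝ) : ℂ) ^ Module.finrank F M)

end fields

end H55P
end

-- from Lib.H55K.UD
section

/-! # H55K: elliptic units: definitions -/

open NumberField IsDedekindDomain WeierstrassCurve

namespace H55K

open H55P (IQ embF eF LF Per IsHecke Pt ac Inert Dec Nm)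
open H35P (WAB Ker tt)


variable {F : Type} [Field F] [NumberField F] [IQ F]

/-- conj w |w|^(-2s). -/
noncomputable def ff (s w : ℂ) : ℂ := (starRingEnd ℂ) w * ((‖w‖ ^ 2 : ℝ) : ℂ) ^ (-s)

/-- The second difference. -/
noncomputable def dd (s w q : ℂ) : ℂ := ff s (w + q) + ff s (w - q) - 2 * ff s w

/-- The Eisenstein-Kronecker series. -/
noncomputable def Ff (F : Type) [Field F] [NumberField F] [IQ F] (z s : ℂ) : ℂ := ∑' x : 𝓞 F, ff s (z + eF F x)

/-- R is a system of representatives of the integers modulo b, containing 0. -/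
structure Rep (b : 𝓞 F) (R : Finset (𝓞 F)) : Prop where
  zero : (0 : 𝓞 F) ∈ R
  ex : ∀ x : 𝓞 F, ∃ r ∈ R, b ∣ x - r
  un : ∀ r ∈ R, ∀ r' ∈ R, b ∣ r - r' → r = r'

/-- h is the generator of its ideal given by the Hecke character. -/
def Prm (m : Ideal (𝓞 F)) (ψ : Ideal (𝓞 F) →*₀ 𝓞 F) (h : 𝓞 F) : Prop :=
  IsCoprime (Ideal.span {h}) m ∧ ψ (Ideal.span {h}) = h

/-- H is a system of representatives modulo μ of the h with Prm. -/
structure HRep (m : Ideal (𝓞 F)) (ψ : Ideal (𝓞 F) →*₀ 𝓞 F) (μ : 𝓞 F) (H : Finset (𝓞 F)) : Prop where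
  prm : ∀ h ∈ H, Prm m ψ h
  ex : ∀ y : 𝓞 F, Prm m ψ y → ∃ h ∈ H, μ ∣ y - h
  un : ∀ h ∈ H, ∀ h' ∈ H, μ ∣ h - h' → h = h'

/-- The value at 1 of the L-series of the conjugate of ψ, divided by the period, is a unit above l (Λ is the L-function). -/
structure LU (l : ℕ) (Om : ℂ) (ψ : Ideal (𝓞 F) →*₀ 𝓞 F) (Λ : ℂ → ℂ) : Prop where
  an : AnalyticOnNhd ℂ Λ {s | 1 / 2 < s.re}
  sum : ∀ s : ℂ, 3 / 2 < s.re → HasSum (fun J : Ideal (𝓞 F) => (starRingEnd ℂ) (eF F (ψ J)) *
    (Ideal.absNorm J : ℂ) ^ (-s)) (Λ s)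
  val : ∀ V : ValuationSubring ℂ, V.valuation (l : ℂ) < 1 → V.valuation (Λ 1 / Om) = 1

section pts

variable {A B : F} {Ω : Type} [Field Ω] [DecidableEq Ω] [Algebra F Ω]

/-- The product of the x(P) - x(Q), Q in S. -/
noncomputable def Phi (S : Finset (Pt (WAB A B) Ω)) (P : Pt (WAB A B) Ω) : Ω := ∏ Q ∈ S, (xc P - xc Q)

/-- The elliptic unit. -/
noncomputable def Xi (D S : Finset (Pt (WAB A B) Ω)) (P : Pt (WAB A B) Ω) : Ω :=
  ∏ X ∈ D, Phi S (X + P) / Phi S (X - P)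

/-- The data for the elliptic units: m = (μ), a is congruent to 1 modulo M = Nm μ and to 2 modulo l, ρ is a generator of the points killed by μ,
D is the set of the points h ρ with Prm h, S the set of the nonzero points killed by a. -/
structure UDat (Om : ℂ) (j : Ω →+* ℂ) (act : 𝓞 F →+* AddMonoid.End (Pt (WAB A B) Ω)) (m : Ideal (𝓞 F))
    (ψ : Ideal (𝓞 F) →*₀ 𝓞 F) (l : ℕ) (μ : 𝓞 F) (a : ℕ) (ρ τ : Pt (WAB A B) Ω) (H R : Finset (𝓞 F))
    (D S : Finset (Pt (WAB A B) Ω)) : Prop where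
  mu : Ideal.span {μ} = m
  mu0 : μ ≠ 0
  a0 : 1 < a
  a1 : ∃ k, a = 1 + Nm μ * k
  a2 : ∃ k, a = 2 + l * k
  cop : Nat.Coprime (Nm μ) l
  rho : act μ ρ = 0
  rhog : ∀ T, act μ T = 0 → ∃ b, T = act b ρ
  rho0 : ∀ b, act b ρ = 0 ↔ μ ∣ b
  rhox : ∀ b, ¬ μ ∣ b → j (xc (act b ρ)) = (LF F).weierstrassP (eF F b / eF F μ) / Om ^ 2 ∧
    j (yc (act b ρ)) = (LF F).derivWeierstrassP (eF F b / eF F μ) / (2 * Om ^ 3)
  hrep : HRep m ψ μ H
  rep : Rep (a : 𝓞 F) R
  memD : ∀ X, X ∈ D ↔ ∃ h, Prm m ψ h ∧ X = act h ρ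
  memD' : ∀ X, X ∈ D ↔ ∃ h ∈ H, X = act h ρ
  tau : ∀ b, act b τ = 0 ↔ (a : 𝓞 F) ∣ b
  taux : ∀ b, ¬ (a : 𝓞 F) ∣ b → j (xc (act b τ)) = (LF F).weierstrassP (eF F b / (a : ℂ)) / Om ^ 2
  memS : TN act (a : 𝓞 F) S
  memS' : ∀ Q, Q ∈ S ↔ ∃ b ∈ R, b ≠ 0 ∧ Q = act b τ

end pts

end H55K
end

-- from Lib.H55K.UB2
section

/-! # H55K: elliptic units: first facts -/

open NumberField IsDedekindDomain WeierstrassCurve

namespace H55K

open H55P (IQ embF eF LF Per IsHecke Pt ac Inert Dec Nm)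
open H35P (WAB Ker tt)


variable {F : Type} [Field F] [NumberField F] [IQ F] {A B : F} {Om : ℂ} {Ω : Type} [Field Ω] [DecidableEq Ω]
  [Algebra F Ω] {j : Ω →+* ℂ} {act : 𝓞 F →+* AddMonoid.End (Pt (WAB A B) Ω)} {m : Ideal (𝓞 F)}
  {ψ : Ideal (𝓞 F) →*₀ 𝓞 F} {l : ℕ} {μ : 𝓞 F} {a : ℕ} {ρ τ : Pt (WAB A B) Ω} {H R : Finset (𝓞 F)}
  {D S : Finset (Pt (WAB A B) Ω)}

omit [NumberField F] [IQ F] in
theorem ub2_nsmul (act : 𝓞 F →+* AddMonoid.End (Pt (WAB A B) Ω)) (n : ℕ) (P : Pt (WAB A B) Ω) :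
    n • P = act (n : 𝓞 F) P := by
  rw [map_natCast, AddMonoid.End.natCast_apply]

omit [NumberField F] [IQ F] in
theorem ub2_mul (act : 𝓞 F →+* AddMonoid.End (Pt (WAB A B) Ω)) (x y : 𝓞 F) (P : Pt (WAB A B) Ω) :
    act x (act y P) = act (x * y) P := by
  rw [map_mul]
  rfl

omit [NumberField F] [IQ F] in
theorem ub2_sub (act : 𝓞 F →+* AddMonoid.End (Pt (WAB A B) Ω)) (x y : 𝓞 F) (P : Pt (WAB A B) Ω) :
    act (x - y) P = act x P - act y P := by
  rw [map_sub]
  rfl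

omit [NumberField F] [IQ F] in
theorem ub2_add (act : 𝓞 F →+* AddMonoid.End (Pt (WAB A B) Ω)) (x y : 𝓞 F) (P : Pt (WAB A B) Ω) :
    act (x + y) P = act x P + act y P := by
  rw [map_add]
  rfl

omit [NumberField F] [IQ F] in
theorem ub2_one (act : 𝓞 F →+* AddMonoid.End (Pt (WAB A B) Ω)) (P : Pt (WAB A B) Ω) :
    act 1 P = P := by
  rw [map_one]
  rfl

omit [NumberField F] [IQ F] in
theorem ub2_cop (act : 𝓞 F →+* AddMonoid.End (Pt (WAB A B) Ω)) {x y : 𝓞 F} (h : IsCoprime x y)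
    {P : Pt (WAB A B) Ω} (hx : act x P = 0) (hy : act y P = 0) : P = 0 := by
  obtain ⟨u, v, huv⟩ := h
  rw [← ub2_one act P, ← huv, ub2_add, ← ub2_mul, ← ub2_mul, hx, hy, map_zero, map_zero, add_zero]

theorem ub2_perm {α M : Type} [CommMonoid M] (D : Finset α) (g : α → α) (hm : ∀ x ∈ D, g x ∈ D)
    (hi : Set.InjOn g (D : Set α)) (f : α → M) : ∏ X ∈ D, f (g X) = ∏ X ∈ D, f X := by
  classical
  have h1 : D.image g = D :=
    Finset.eq_of_subset_of_card_le (Finset.image_subset_iff.2 hm) (Finset.card_image_of_injOn hi).ge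
  conv_rhs => rw [← h1]
  rw [Finset.prod_image hi]

/-- Chunk UB2 (S/M). X = act h ρ; if X = 0 then μ divides h, but h is prime to m = span {μ} ≠ top (hecke.ntop). -/
theorem D_ne (h : Dta A B Om j act m ψ l) (hU : UDat Om j act m ψ l μ a ρ τ H R D S) {X : Pt (WAB A B) Ω}
    (hX : X ∈ D) : X ≠ 0 ∧ Nm μ • X = 0 := by
  obtain ⟨x, hx, rfl⟩ := (hU.memD X).1 hX
  constructor
  · intro h0
    have h1 := (hU.rho0 x).1 h0
    have h2 := hx.1
    rw [Ideal.isCoprime_iff_sup_eq] at h2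
    apply h.hecke.ntop
    rw [eq_top_iff, ← h2]
    refine sup_le ?_ le_rfl
    rw [← hU.mu]
    exact Ideal.span_singleton_le_span_singleton.2 h1
  · rw [ub2_nsmul act, ub2_mul, hU.rho0, ← mul_cj]
    exact ⟨cj μ * x, by ring⟩

/-- Chunk UB2. -/
theorem S_ne (hU : UDat Om j act m ψ l μ a ρ τ H R D S) {Q : Pt (WAB A B) Ω} (hQ : Q ∈ S) :
    Q ≠ 0 ∧ a • Q = 0 := by
  have h1 := (hU.memS Q).1 hQ
  exact ⟨h1.2, by rw [ub2_nsmul act]; exact h1.1⟩

/-- Chunk UB2. Prm is multiplicative (ψ is multiplicative, span_singleton_mul_span_singleton). -/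
theorem Prm_mul {x y : 𝓞 F} (hx : Prm m ψ x) (hy : Prm m ψ y) : Prm m ψ (x * y) := by
  refine ⟨?_, ?_⟩
  · rw [← Ideal.span_singleton_mul_span_singleton]
    exact IsCoprime.mul_left hx.1 hy.1
  · rw [← Ideal.span_singleton_mul_span_singleton, map_mul, hx.2, hy.2]

theorem Prm_one : Prm m ψ (1 : 𝓞 F) := by
  have h1 : Ideal.span {(1 : 𝓞 F)} = 1 := by
    rw [Ideal.one_eq_top]
    exact Ideal.span_singleton_one
  refine ⟨?_, ?_⟩
  · rw [h1]
    exact isCoprime_one_left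
  · rw [h1, map_one]

/-- Chunk UB2. act β maps D to itself and is injective on the points killed by μ (β is prime to m): a permutation of the finite set D (Finset.prod_bij / surj_on_of_inj_on). -/
theorem prod_D (hU : UDat Om j act m ψ l μ a ρ τ H R D S) {β : 𝓞 F} (hβ : Prm m ψ β)
    (f : Pt (WAB A B) Ω → Ω) : ∏ X ∈ D, f (act β X) = ∏ X ∈ D, f X := by
  refine ub2_perm D (fun X => act β X) ?_ ?_ f
  · intro X hX
    obtain ⟨x, hx, rfl⟩ := (hU.memD X).1 hX
    exact (hU.memD _).2 ⟨β * x, Prm_mul hβ hx, ub2_mul act _ _ _⟩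
  · intro X hX Y hY hXY
    obtain ⟨x, hx, rfl⟩ := (hU.memD X).1 hX
    obtain ⟨y, hy, rfl⟩ := (hU.memD Y).1 hY
    have h1 : act (β * (x - y)) ρ = 0 := by
      rw [← ub2_mul, ub2_sub, map_sub]
      exact sub_eq_zero.2 hXY
    have h2 := (hU.rho0 _).1 h1
    have h3 : IsCoprime β μ := by
      rw [← Ideal.isCoprime_span_singleton_iff, hU.mu]
      exact hβ.1
    have h4 : μ ∣ x - y := h3.symm.dvd_of_dvd_mul_left h2
    have h5 := (hU.rho0 _).2 h4
    rw [ub2_sub] at h5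
    exact sub_eq_zero.1 h5

/-- Chunk UB2. The same for S and β prime to a. -/
theorem prod_S (hU : UDat Om j act m ψ l μ a ρ τ H R D S) {β : 𝓞 F} (hβ : IsCoprime β (a : 𝓞 F))
    (f : Pt (WAB A B) Ω → Ω) : ∏ Q ∈ S, f (act β Q) = ∏ Q ∈ S, f Q := by
  have hk : ∀ T : Pt (WAB A B) Ω, act (a : 𝓞 F) T = 0 → act β T = 0 → T = 0 := fun T h1 h2 =>
    ub2_cop act hβ h2 h1
  refine ub2_perm S (fun X => act β X) ?_ ?_ f
  · intro Q hQ
    have h1 := (hU.memS Q).1 hQ
    refine (hU.memS _).2 ⟨?_, ?_⟩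
    · rw [ub2_mul, mul_comm, ← ub2_mul, h1.1, map_zero]
    · intro h2
      exact h1.2 (hk Q h1.1 h2)
  · intro X hX Y hY hXY
    have h1 := (hU.memS X).1 hX
    have h2 := (hU.memS Y).1 hY
    refine sub_eq_zero.1 (hk _ ?_ ?_)
    · rw [map_sub, h1.1, h2.1, sub_zero]
    · rw [map_sub]
      exact sub_eq_zero.2 hXY

/-- Chunk UB2. S is stable under the negation. -/
theorem prod_neg {β : 𝓞 F} {S' : Finset (Pt (WAB A B) Ω)} (hS : TN act β S') (f : Pt (WAB A B) Ω → Ω) :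
    ∏ Q ∈ S', f (-Q) = ∏ Q ∈ S', f Q := by
  refine ub2_perm S' (fun X => -X) ?_ ?_ f
  · intro Q hQ
    have h1 := (hS Q).1 hQ
    refine (hS _).2 ⟨?_, neg_ne h1.2⟩
    rw [map_neg, h1.1, neg_zero]
  · intro X _ Y _ hXY
    exact neg_injective hXY

/-- Chunk UB2. A point of order prime to n killed by n is 0. -/
theorem cop_zero {G : Type} [AddCommGroup G] {a b : ℕ} (hab : Nat.Coprime a b) {x : G} (ha : a • x = 0)
    (hb : b • x = 0) : x = 0 := by
  have h1 := Nat.dvd_gcd (addOrderOf_dvd_of_nsmul_eq_zero ha) (addOrderOf_dvd_of_nsmul_eq_zero hb)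
  rw [hab.gcd_eq_one, Nat.dvd_one, AddMonoid.addOrderOf_eq_one_iff] at h1
  exact h1

end H55K
end
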