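import Mathlib
import Pool.Agent.Lib.H1M.PP.D_H55P_Sel
import Pool.Agent.Lib.H1M.PP.D_H55P_Z10
import Pool.Agent.Lib.H1M.PP.M001
import Pool.Agent.Lib.H1M.PP.M005
import Pool.Agent.Lib.H1M.PP.M016
import Pool.Agent.Lib.H1M.PP.M037

/-! Merged copies (to shorten the build) of Lib.H13D.D, Lib.H13D.A1, Lib.H13D.A2, Lib.H13D.A3, Lib.H13D.A4, Lib.H55K.UB9D, Lib.H55K.G10A, Lib.H55K.G8B, Lib.H55K.G10B, Lib.H55K.G8A, Lib.H55K.G7A, Lib.H55K.G7B, Lib.H55K.Y6, Lib.H55K.Y9, Lib.H55W.L8A. -/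

-- from Lib.H13D.D
section

/-! # H13D: the Hecke character of an elliptic curve over the rational numbers with complex multiplication (Deuring): definitions -/

open NumberField IsDedekindDomain WeierstrassCurve

namespace H13D

open H55P (IQ embF eF LF Per IsHecke Pt ac Inert Dec Nm)
open H35P (WAB Ker tt GoodW IntW)
open H55K

section

variable {F : Type} [Field F] {Ω : Type} [Field Ω] [DecidableEq Ω] [Algebra F Ω]

/-- The normalised x-coordinate: x = u^2 xn + r. -/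
noncomputable def xn {W : WeierstrassCurve F} (u r : Ω) (P : Pt W Ω) : Ω := (xc P - r) / u ^ 2

/-- The points of y^2 = x^3 + A x + B over Ω have good reduction at V: Kg is the kernel of reduction, xn the x-coordinate of a good equation. -/
structure RM (A B : F) (V : ValuationSubring Ω) (Kg : AddSubgroup (Pt (WAB A B) Ω)) (u r : Ω) : Prop where
  une : u ≠ 0
  tors : ∀ n : ℕ, V.valuation (n : Ω) = 1 → ∀ T ∈ Kg, n • T = 0 → T = 0
  int : ∀ P, P ∉ Kg → V.valuation (xn u r P) ≤ 1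
  big : ∀ P ∈ Kg, P ≠ 0 → 1 < V.valuation (xn u r P)
  diff : ∀ P Q, P ∉ Kg → Q ∉ Kg → P - Q ∉ Kg → P + Q ∉ Kg → V.valuation (xn u r P - xn u r Q) = 1
  conv : ∀ P Q, P ∉ Kg → Q - P ∈ Kg → V.valuation (xn u r Q - xn u r P) < 1

/-- S is the set of the nonzero points killed by b in the kernel of reduction. -/
def KN {W : WeierstrassCurve F} (act : 𝓞 F →+* AddMonoid.End (Pt W Ω)) (b : 𝓞 F) (Kg : AddSubgroup (Pt W Ω)) (S : Finset (Pt W Ω)) :
    Prop := ∀ T, T ∈ S ↔ act b T = 0 ∧ T ≠ 0 ∧ T ∈ Kg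

end

end H13D
end

-- from Lib.H13D.A1
section

/-! # H13D, part A: good reduction (generic) -/

open NumberField IsDedekindDomain WeierstrassCurve

namespace H13D

open H55P (IQ embF eF LF Per IsHecke Pt ac Inert Dec Nm)
open H35P (WAB Ker tt GoodW IntW)
open H55K

variable {F : Type} [Field F] [NumberField F] [IQ F] {A B : F} {Om : ℂ} {Ω : Type} [Field Ω] [DecidableEq Ω]
  [Algebra F Ω] {j : Ω →+* ℂ} {act : 𝓞 F →+* AddMonoid.End (Pt (WAB A B) Ω)} {V : ValuationSubring Ω}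
  {Kg : AddSubgroup (Pt (WAB A B) Ω)} {u r : Ω}

/-- Chunk A1 (S). Definition of xn. -/
theorem xn_sub (hu : u ≠ 0) (P Q : Pt (WAB A B) Ω) : xc P - xc Q = u ^ 2 * (xn u r P - xn u r Q) := by
  unfold xn
  field_simp
  ring

/-- Chunk A1 (S). h.e2 with xn_sub everywhere; divide by (u^2)^(S.card + 1) (Finset.prod_mul_distrib, Finset.prod_const). -/
theorem e2n (h : CMA F A B Om j act) (hu : u ≠ 0) {b : 𝓞 F} {S : Finset (Pt (WAB A B) Ω)} (hb : b ≠ 0) (hS : TN act b S)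
    {X Y : Pt (WAB A B) Ω} (hX : act b X ≠ 0) (hY : act b Y ≠ 0) :
    ak Ω b ^ 2 * (xn u r (act b X) - xn u r (act b Y)) * ∏ R ∈ S, (xn u r R - xn u r Y) =
      (xn u r X - xn u r Y) * ∏ R ∈ S, (xn u r (X + R) - xn u r Y) := by
  have h1 := h.e2 b S hb hS X Y hX hY
  simp only [xn_sub (u := u) (r := r) hu, Finset.prod_mul_distrib, Finset.prod_const] at h1
  have hu2 : u ^ 2 * (u ^ 2) ^ S.card ≠ 0 := mul_ne_zero (pow_ne_zero _ hu) (pow_ne_zero _ (pow_ne_zero _ hu))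
  apply mul_left_cancel₀ hu2
  linear_combination h1

/-- Chunk A1 (S). hR.int, hR.big. -/
theorem mem_iff (hR : RM A B V Kg u r) {P : Pt (WAB A B) Ω} (h0 : P ≠ 0) : P ∈ Kg ↔ 1 < V.valuation (xn u r P) := by
  constructor
  · intro hP
    exact hR.big P hP h0
  · intro h1
    by_contra hP
    exact absurd (hR.int P hP) (not_le.2 h1)

/-- Chunk A1 (S). hR.diff: otherwise the value would be 1. -/
theorem cls_of (hR : RM A B V Kg u r) {P Q : Pt (WAB A B) Ω} (hP : P ∉ Kg) (hQ : Q ∉ Kg)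
    (h : V.valuation (xn u r P - xn u r Q) < 1) : P - Q ∈ Kg ∨ P + Q ∈ Kg := by
  by_contra hcon
  push Not at hcon
  have h1 := hR.diff P Q hP hQ hcon.1 hcon.2
  rw [h1] at h
  exact lt_irrefl _ h

end H13D
end

-- from Lib.H13D.A2
section

/-! # H13D, part A: good reduction (generic) -/

open NumberField IsDedekindDomain WeierstrassCurve
open scoped Pointwise

namespace H13D

open H55P (IQ embF eF LF Per IsHecke Pt ac Inert Dec Nm)
open H35P (WAB Ker tt GoodW IntW)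
open H55K

/-- Chunk A2 (S/M), pure group theory. A group is not a finite union of cosets of subgroups of infinite index (B. H. Neumann): Mathlib.GroupTheory.CosetCover,
Subgroup.exists_index_le_card_of_leftCoset_cover / AddSubgroup version or Subgroup.exists_finiteIndex_of_leftCoset_cover: the cosets c + H (c in C) and c + K (c in E);
use the index set C ⊕ E (or Sum of subtypes). If every X lies in one of these cosets then one of the subgroups has finite index: contradiction to index = 0. -/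
theorem avoid {G : Type} [AddCommGroup G] (H K : AddSubgroup G) (hH : H.index = 0) (hK : K.index = 0) (C E : Finset G) :
    ∃ X : G, (∀ c ∈ C, X - c ∉ H) ∧ ∀ c ∈ E, X - c ∉ K := by
  classical
  by_contra hcon
  push Not at hcon
  have hcov : ⋃ i ∈ (C.disjSum E : Finset (G ⊕ G)), (Sum.elim id id i : G) +ᵥ ((Sum.elim (fun _ => H) (fun _ => K) i : AddSubgroup G) : Set G) =
      Set.univ := by
    rw [Set.eq_univ_iff_forall]
    intro X
    rw [Set.mem_iUnion₂]
    by_cases hX : ∃ c ∈ C, X - c ∈ H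
    · obtain ⟨c, hc, hcH⟩ := hX
      refine ⟨Sum.inl c, Finset.inl_mem_disjSum.2 hc, ?_⟩
      rw [Set.mem_vadd_set]
      exact ⟨X - c, hcH, by simp⟩
    · push Not at hX
      obtain ⟨c, hc, hcK⟩ := hcon X hX
      refine ⟨Sum.inr c, Finset.inr_mem_disjSum.2 hc, ?_⟩
      rw [Set.mem_vadd_set]
      exact ⟨X - c, hcK, by simp⟩
  obtain ⟨i, _, hfin⟩ := AddSubgroup.exists_finiteIndex_of_leftCoset_cover hcov
  rcases i with c | c
  · exact hfin.index_ne_zero hH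
  · exact hfin.index_ne_zero hK

variable {F : Type} [Field F] [NumberField F] [IQ F] {A B : F} {Om : ℂ} {Ω : Type} [Field Ω] [DecidableEq Ω]
  [Algebra F Ω] {j : Ω →+* ℂ} {act : 𝓞 F →+* AddMonoid.End (Pt (WAB A B) Ω)} {V : ValuationSubring Ω}
  {Kg : AddSubgroup (Pt (WAB A B) Ω)} {u r : Ω}

/-- Chunk A2 (M). Port of H55K/G5A.lean (inf_cls). l = 2 or l = 3 with V(l) = 1 (if V(2) < 1 and V(3) < 1 then V(1) = V(3 - 2) < 1; V(n) ≤ 1 for natural numbers n). Tor act (l^k) has Nm (l^k) = l^(2k) elements (tor_card, Nm_nat), pairwise different modulo Kg: the difference T is in Kg and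
l^k • T = 0 (act n T = n • T: cu_nat or tor_nm), V(l^k) = 1: hR.tors. So the quotient has at least l^(2k) elements for all k: it is infinite, index 0 (AddSubgroup.index = Nat.card of the quotient). -/
theorem kg_index (h : CMA F A B Om j act) (hR : RM A B V Kg u r) : Kg.index = 0 := by
  classical
  have hle1 : ∀ n : ℕ, V.valuation (n : Ω) ≤ 1 := fun n => by
    have h1 : (n : Ω) ∈ V := natCast_mem V n
    exact (V.valuation_le_one_iff _).2 h1
  obtain ⟨l, hl2, hl⟩ : ∃ l : ℕ, 2 ≤ l ∧ V.valuation (l : Ω) = 1 := by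
    by_contra hcon
    push Not at hcon
    have h2 := lt_of_le_of_ne (hle1 2) (hcon 2 le_rfl)
    have h3 := lt_of_le_of_ne (hle1 3) (hcon 3 (by norm_num))
    have h4 : V.valuation ((3 : ℕ) - (2 : ℕ) : Ω) < 1 := lt_of_le_of_lt (Valuation.map_sub _ _ _) (max_lt h3 h2)
    have h5 : ((3 : ℕ) - (2 : ℕ) : Ω) = 1 := by push_cast; ring
    rw [h5, map_one] at h4
    exact lt_irrefl _ h4
  have hkey : ∀ k : ℕ, Kg.index ≠ 0 → (l ^ k) ^ 2 ≤ Kg.index := by
    intro k hi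
    have hfin : Finite ((Pt (WAB A B) Ω) ⧸ Kg) := by
      have : Kg.FiniteIndex := ⟨hi⟩
      exact AddSubgroup.finite_quotient_of_finiteIndex
    have hb0 : ((l ^ k : ℕ) : 𝓞 F) ≠ 0 := by exact_mod_cast (pow_ne_zero k (by omega : l ≠ 0))
    have hcard := tor_card h hb0
    rw [Nm_nat] at hcard
    have hinj : Function.Injective (fun T : Tor act ((l ^ k : ℕ) : 𝓞 F) => (QuotientAddGroup.mk (T : Pt (WAB A B) Ω) : (Pt (WAB A B) Ω) ⧸ Kg)) := by
      intro T T' hTT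
      have h1 : -(T : Pt (WAB A B) Ω) + (T' : Pt (WAB A B) Ω) ∈ Kg := QuotientAddGroup.eq.1 hTT
      have h5 : (l ^ k : ℕ) • (-(T : Pt (WAB A B) Ω) + T') = 0 := by
        have h6 : -(T : Pt (WAB A B) Ω) + T' ∈ Tor act ((l ^ k : ℕ) : 𝓞 F) :=
          AddSubgroup.add_mem _ (AddSubgroup.neg_mem _ T.2) T'.2
        have h7 : act ((l ^ k : ℕ) : 𝓞 F) (-(T : Pt (WAB A B) Ω) + T') = 0 := h6
        rw [map_natCast act] at h7
        exact h7
      have h6 : V.valuation (((l ^ k : ℕ) : ℕ) : Ω) = 1 := by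
        rw [Nat.cast_pow, map_pow, hl, one_pow]
      have h7 := hR.tors _ h6 _ h1 h5
      exact Subtype.ext (neg_add_eq_zero.1 h7)
    have hle := Nat.card_le_card_of_injective _ hinj
    rw [hcard] at hle
    exact hle
  by_contra hi
  have h1 := hkey Kg.index hi
  have h2 : Kg.index < l ^ Kg.index := Nat.lt_pow_self (by omega)
  have h3 : l ^ Kg.index ≤ (l ^ Kg.index) ^ 2 := Nat.le_self_pow (by norm_num) _
  omega

/-- Chunk A2 (S). act b is surjective (h.surj): AddSubgroup.index_comap_of_surjective. -/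
theorem kgb_index (h : CMA F A B Om j act) (hR : RM A B V Kg u r) {b : 𝓞 F} (hb : b ≠ 0) :
    (Kg.comap (act b : Pt (WAB A B) Ω →+ Pt (WAB A B) Ω)).index = 0 := by
  rw [AddSubgroup.index_comap_of_surjective _ (fun P => h.surj b hb P)]
  exact kg_index h hR

end H13D
end

-- from Lib.H13D.A3
section

/-! # H13D, part A: good reduction (generic) -/

open NumberField IsDedekindDomain WeierstrassCurve

namespace H13D

open H55P (IQ embF eF LF Per IsHecke Pt ac Inert Dec Nm)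
open H35P (WAB Ker tt GoodW IntW)
open H55K

variable {F : Type} [Field F] [NumberField F] [IQ F] {A B : F} {Om : ℂ} {Ω : Type} [Field Ω] [DecidableEq Ω]
  [Algebra F Ω] {j : Ω →+* ℂ} {act : 𝓞 F →+* AddMonoid.End (Pt (WAB A B) Ω)} {V : ValuationSubring Ω}
  {Kg : AddSubgroup (Pt (WAB A B) Ω)} {u r : Ω}

/-- Chunk A3 (M). Generic point. Let H = Kg.comap (act b) (index 0: kgb_index; kg_index). avoid with C = {0} for H and for Kg the finite set E = {0} together with R and -R for R in S: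
Y is not in Kg, act b Y is not in Kg, Y - R and Y + R are not in Kg. Then, for R in S: xn R - xn Y has value 1 if R is not in Kg (hR.diff for R and Y: R - Y = -(Y - R), R + Y), and value V(xn R) if R is in Kg (R ≠ 0: V(xn R) > 1 ≥ V(xn Y)). -/
theorem exists_gen (h : CMA F A B Om j act) (hR : RM A B V Kg u r) {b : 𝓞 F} (hb : b ≠ 0) {S : Finset (Pt (WAB A B) Ω)}
    (hS : TN act b S) : ∃ Y : Pt (WAB A B) Ω, Y ∉ Kg ∧ act b Y ∉ Kg ∧ (∀ R ∈ S, Y - R ∉ Kg ∧ Y + R ∉ Kg) ∧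
      (∀ R ∈ S, R ∉ Kg → V.valuation (xn u r R - xn u r Y) = 1) ∧
      ∀ R ∈ S, R ∈ Kg → V.valuation (xn u r R - xn u r Y) = V.valuation (xn u r R) := by
  classical
  obtain ⟨Y, hY1, hY2⟩ := avoid (Kg.comap (act b : Pt (WAB A B) Ω →+ Pt (WAB A B) Ω)) Kg (kgb_index h hR hb) (kg_index h hR)
    {0} (insert 0 (S ∪ S.image fun R => -R))
  have h0 : Y ∉ Kg := by
    have := hY2 0 (Finset.mem_insert_self _ _)
    rwa [sub_zero] at this
  have h1 : act b Y ∉ Kg := by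
    have := hY1 0 (Finset.mem_singleton_self _)
    rw [sub_zero] at this
    exact this
  have h2 : ∀ R ∈ S, Y - R ∉ Kg ∧ Y + R ∉ Kg := by
    intro R hR'
    refine ⟨hY2 R (Finset.mem_insert_of_mem (Finset.mem_union_left _ hR')), ?_⟩
    have := hY2 (-R) (Finset.mem_insert_of_mem (Finset.mem_union_right _ (Finset.mem_image_of_mem _ hR')))
    rwa [sub_neg_eq_add] at this
  refine ⟨Y, h0, h1, h2, fun R hR' hRK => ?_, fun R hR' hRK => ?_⟩
  · refine hR.diff R Y hRK h0 ?_ ?_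
    · intro h3
      exact (h2 R hR').1 (by rw [← neg_sub]; exact Kg.neg_mem h3)
    · rw [add_comm]
      exact (h2 R hR').2
  · have hR0 : R ≠ 0 := ((hS R).1 hR').2
    exact Valuation.map_sub_eq_of_lt_left _ (lt_of_le_of_lt (hR.int Y h0) (hR.big R hRK hR0))

/-- Chunk A3 (M). THE PRODUCT FORMULA. S = all nonzero points killed by b (exists_TN), S₁ the points of S in Kg. Y from exists_gen. Now avoid again, with H and C = {0, Y, -Y}, Kg and E = the set of 0, Y, -Y, -R, Y - R, -Y - R for R in S (Finset.image): X with act b X, act b (X - Y), act b (X + Y) not in Kg and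
X, X - Y, X + Y, X + R, X + R - Y, X + R + Y not in Kg (R in S). e2n for X, Y (act b X, act b Y ≠ 0 because they are not in Kg). Values: V(xn (act b X) - xn (act b Y)) = 1 (hR.diff; act b X - act b Y = act b (X - Y)), the product over S of V(xn R - xn Y) is the product over S₁ of V(xn R) (exists_gen; split S, Finset.prod_subset or
Finset.prod_filter), V(xn X - xn Y) = 1, V(xn (X + R) - xn Y) = 1. -/
theorem kprod (h : CMA F A B Om j act) (hR : RM A B V Kg u r) {b : 𝓞 F} (hb : b ≠ 0) {S₁ : Finset (Pt (WAB A B) Ω)}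
    (hS₁ : KN act b Kg S₁) : V.valuation (ak Ω b) ^ 2 * ∏ R ∈ S₁, V.valuation (xn u r R) = 1 := by
  classical
  obtain ⟨S, hS, _⟩ := exists_TN h hb
  obtain ⟨Y, hY0, hbY, hYR, hYv, hYk⟩ := exists_gen h hR hb hS
  obtain ⟨X, hX1, hX2⟩ := avoid (Kg.comap (act b : Pt (WAB A B) Ω →+ Pt (WAB A B) Ω)) Kg (kgb_index h hR hb) (kg_index h hR)
    {0, Y, -Y} ({0, Y, -Y} ∪ (S.image fun R => -R) ∪ (S.image fun R => Y - R) ∪ S.image fun R => -Y - R)
  have hbX : act b X ∉ Kg := by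
    have := hX1 0 (by simp)
    rw [sub_zero] at this
    exact this
  have hbXY : act b (X - Y) ∉ Kg := hX1 Y (by simp)
  have hbXY' : act b (X + Y) ∉ Kg := by
    have := hX1 (-Y) (by simp)
    rw [sub_neg_eq_add] at this
    exact this
  have hX0 : X ∉ Kg := by
    have := hX2 0 (by simp)
    rwa [sub_zero] at this
  have hXY : X - Y ∉ Kg := hX2 Y (by simp)
  have hXY' : X + Y ∉ Kg := by
    have := hX2 (-Y) (by simp)
    rwa [sub_neg_eq_add] at this
  have hXR : ∀ R ∈ S, X + R ∉ Kg := by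
    intro R hR'
    have := hX2 (-R) (Finset.mem_union_left _ (Finset.mem_union_left _ (Finset.mem_union_right _ (Finset.mem_image_of_mem _ hR'))))
    rwa [sub_neg_eq_add] at this
  have hXRY : ∀ R ∈ S, X + R - Y ∉ Kg := by
    intro R hR'
    have := hX2 (Y - R) (Finset.mem_union_left _ (Finset.mem_union_right _ (Finset.mem_image_of_mem (fun R => Y - R) hR')))
    have e : X - (Y - R) = X + R - Y := by abel
    rwa [e] at this
  have hXRY' : ∀ R ∈ S, X + R + Y ∉ Kg := by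
    intro R hR'
    have := hX2 (-Y - R) (Finset.mem_union_right _ (Finset.mem_image_of_mem (fun R => -Y - R) hR'))
    have e : X - (-Y - R) = X + R + Y := by abel
    rwa [e] at this
  have hne : ∀ {P : Pt (WAB A B) Ω}, P ∉ Kg → P ≠ 0 := fun hP h0 => hP (h0 ▸ Kg.zero_mem)
  have key := congrArg V.valuation (e2n (u := u) (r := r) h hR.une hb hS (hne hbX) (hne hbY))
  rw [map_mul, map_mul, map_mul, map_prod, map_prod, map_pow] at key
  have v1 : V.valuation (xn u r (act b X) - xn u r (act b Y)) = 1 := by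
    refine hR.diff _ _ hbX hbY ?_ ?_
    · rw [← map_sub]
      exact hbXY
    · rw [← map_add]
      exact hbXY'
  have v2 : V.valuation (xn u r X - xn u r Y) = 1 := hR.diff _ _ hX0 hY0 hXY hXY'
  have v3 : ∏ R ∈ S, V.valuation (xn u r (X + R) - xn u r Y) = 1 :=
    Finset.prod_eq_one fun R hR' => hR.diff _ _ (hXR R hR') hY0 (hXRY R hR') (hXRY' R hR')
  have v4 : ∏ R ∈ S, V.valuation (xn u r R - xn u r Y) = ∏ R ∈ S₁, V.valuation (xn u r R) := by
    have hsub : S₁ ⊆ S := fun R hR' => by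
      have := (hS₁ R).1 hR'
      exact (hS R).2 ⟨this.1, this.2.1⟩
    rw [← Finset.prod_subset hsub]
    · refine Finset.prod_congr rfl fun R hR' => ?_
      exact hYk R (hsub hR') ((hS₁ R).1 hR').2.2
    · intro R hR' hR''
      refine hYv R hR' fun hK => hR'' ?_
      have := (hS R).1 hR'
      exact (hS₁ R).2 ⟨this.1, this.2, hK⟩
  rw [v1, v2, v3, v4, mul_one, one_mul] at key
  exact key

end H13D
end

-- from Lib.H13D.A4
section

/-! # H13D, part A: good reduction (generic) -/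

open NumberField IsDedekindDomain WeierstrassCurve

namespace H13D

open H55P (IQ embF eF LF Per IsHecke Pt ac Inert Dec Nm)
open H35P (WAB Ker tt GoodW IntW)
open H55K

variable {F : Type} [Field F] [NumberField F] [IQ F] {A B : F} {Om : ℂ} {Ω : Type} [Field Ω] [DecidableEq Ω]
  [Algebra F Ω] {j : Ω →+* ℂ} {act : 𝓞 F →+* AddMonoid.End (Pt (WAB A B) Ω)} {V : ValuationSubring Ω}
  {Kg : AddSubgroup (Pt (WAB A B) Ω)} {u r : Ω}

/-- Chunk A4 (M). The kernel of reduction is stable. b = 0 and act b X = 0 are clear (then the image is 0). So b ≠ 0, X ≠ 0, act b X ≠ 0. S, S₁ as in kprod (S₁ = S.filter (in Kg), classical), Y from exists_gen; act b Y ≠ 0. e2n for X, Y. Left side: V(b)^2 V(xn (act b X) - xn (act b Y)) times the product over S₁ of V(xn R) = V(xn (act b X) - xn (act b Y)) by kprod.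
Right side: V(xn X - xn Y) = V(xn X) > 1 (hR.big, V(xn Y) ≤ 1); for R in S₁: X + R is in Kg and not 0 (else act b X = - act b R = 0), so V(xn (X + R) - xn Y) = V(xn (X + R)) > 1; for R in S not in Kg: X + R is not in Kg, X + R - Y and X + R + Y are not in Kg (X in Kg, exists_gen), so the value is 1. So V(xn (act b X) - xn (act b Y)) > 1,
and V(xn (act b Y)) ≤ 1 (act b Y not in Kg), so V(xn (act b X)) > 1 and act b X is in Kg (hR.int). -/
theorem act_mem (h : CMA F A B Om j act) (hR : RM A B V Kg u r) (b : 𝓞 F) {X : Pt (WAB A B) Ω} (hX : X ∈ Kg) : act b X ∈ Kg := by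
  classical
  by_cases hb : b = 0
  · subst hb
    rw [map_zero]
    exact Kg.zero_mem
  by_cases hbX : act b X = 0
  · rw [hbX]
    exact Kg.zero_mem
  by_cases hX0 : X = 0
  · rw [hX0, map_zero]
    exact Kg.zero_mem
  obtain ⟨S, hS, -⟩ := exists_TN h hb
  obtain ⟨S₁, hS₁e⟩ : ∃ S₁ : Finset (Pt (WAB A B) Ω), S₁ = S.filter fun R => R ∈ Kg := ⟨_, rfl⟩
  have hS₁ : KN act b Kg S₁ := by
    intro T
    rw [hS₁e, Finset.mem_filter, hS T, and_assoc]
  obtain ⟨Y, hY0, hbY, hYR, hYv, hYk⟩ := exists_gen h hR hb hS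
  have hne : ∀ {P : Pt (WAB A B) Ω}, P ∉ Kg → P ≠ 0 := fun hP h0 => hP (h0 ▸ Kg.zero_mem)
  have key := congrArg V.valuation (e2n (u := u) (r := r) h hR.une hb hS hbX (hne hbY))
  rw [map_mul, map_mul, map_mul, map_prod, map_prod, map_pow] at key
  have v4 : ∏ R ∈ S, V.valuation (xn u r R - xn u r Y) = ∏ R ∈ S₁, V.valuation (xn u r R) := by
    have hsub : S₁ ⊆ S := by
      rw [hS₁e]
      exact Finset.filter_subset _ _
    rw [← Finset.prod_subset hsub]
    · refine Finset.prod_congr rfl fun R hR' => ?_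
      exact hYk R (hsub hR') ((hS₁ R).1 hR').2.2
    · intro R hR' hR''
      refine hYv R hR' fun hK => hR'' ?_
      have := (hS R).1 hR'
      exact (hS₁ R).2 ⟨this.1, this.2, hK⟩
  have hk := kprod h hR hb hS₁
  rw [v4, mul_right_comm, hk, one_mul] at key
  have w1 : V.valuation (xn u r X - xn u r Y) = V.valuation (xn u r X) :=
    Valuation.map_sub_eq_of_lt_left _ (lt_of_le_of_lt (hR.int Y hY0) (hR.big X hX hX0))
  have w2 : 1 < V.valuation (xn u r X) := hR.big X hX hX0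
  have w3 : 1 ≤ ∏ R ∈ S, V.valuation (xn u r (X + R) - xn u r Y) := by
    refine Finset.one_le_prod' ?_
    intro R hR'
    have hb0 := (hS R).1 hR'
    by_cases hRK : R ∈ Kg
    · have h1 : X + R ∈ Kg := Kg.add_mem hX hRK
      have h2 : X + R ≠ 0 := by
        intro h0
        apply hbX
        have h3 : act b (X + R) = 0 := by rw [h0, map_zero]
        rwa [map_add, hb0.1, add_zero] at h3
      have h4 := hR.big _ h1 h2
      rw [Valuation.map_sub_eq_of_lt_left _ (lt_of_le_of_lt (hR.int Y hY0) h4)]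
      exact h4.le
    · refine le_of_eq (hR.diff (X + R) Y ?_ hY0 ?_ ?_).symm
      · intro h1
        exact hRK ((Kg.add_mem_cancel_left hX).1 h1)
      · intro h1
        have e : X + R - Y = X + (R - Y) := by abel
        rw [e] at h1
        have h2 := (Kg.add_mem_cancel_left hX).1 h1
        exact (hYR R hR').1 (by rw [← neg_sub]; exact Kg.neg_mem h2)
      · intro h1
        have e : X + R + Y = X + (Y + R) := by abel
        rw [e] at h1
        exact (hYR R hR').2 ((Kg.add_mem_cancel_left hX).1 h1)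
  by_contra hcon
  have w4 : V.valuation (xn u r (act b X) - xn u r (act b Y)) ≤ 1 :=
    (Valuation.map_sub _ _ _).trans (max_le (hR.int _ hcon) (hR.int _ hbY))
  rw [key, w1] at w4
  have w5 : V.valuation (xn u r X) * 1 ≤ V.valuation (xn u r X) * ∏ R ∈ S, V.valuation (xn u r (X + R) - xn u r Y) :=
    mul_le_mul_right w3 _
  rw [mul_one] at w5
  exact absurd (w2.trans_le (w5.trans w4)) (lt_irrefl _)

end H13D
end

-- from Lib.H55K.UB9D
section

/-! # H55K: elliptic units: the coefficient -/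

open NumberField IsDedekindDomain WeierstrassCurve

namespace H55K

open H55P (IQ embF eF LF Per IsHecke Pt ac Inert Dec Nm)
open H35P (WAB Ker tt)


variable {F : Type} [Field F] [NumberField F] [IQ F] {A B : F} {Om : ℂ} {Ω : Type} [Field Ω] [DecidableEq Ω]
  [Algebra F Ω] {j : Ω →+* ℂ} {act : 𝓞 F →+* AddMonoid.End (Pt (WAB A B) Ω)} {m : Ideal (𝓞 F)}
  {ψ : Ideal (𝓞 F) →*₀ 𝓞 F} {l : ℕ} {μ : 𝓞 F} {a : ℕ} {ρ τ : Pt (WAB A B) Ω} {H R : Finset (𝓞 F)}
  {D S : Finset (Pt (WAB A B) Ω)}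

omit [IQ F] [DecidableEq Ω] in
theorem ub9d_unit {π : 𝓞 F} (hπ : Prime π) {V : ValuationSubring Ω} (hV : V.valuation (ak Ω π) < 1) {x : 𝓞 F}
    (hx : ¬ π ∣ x) : (∃ u w : 𝓞 F, u * x + π * w = 1) ∧ V.valuation (ak Ω x) = 1 := by
  have hp : (Ideal.span {π} : Ideal (𝓞 F)).IsPrime := (Ideal.span_singleton_prime hπ.ne_zero).2 hπ
  have hm : (Ideal.span {π} : Ideal (𝓞 F)).IsMaximal :=
    hp.isMaximal fun h0 => hπ.ne_zero (Ideal.span_singleton_eq_bot.1 h0)
  have hx' : x ∉ (Ideal.span {π} : Ideal (𝓞 F)) := fun h0 => hx (Ideal.mem_span_singleton.1 h0)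
  obtain ⟨u, i, hi, h1⟩ := hm.exists_inv hx'
  obtain ⟨w, rfl⟩ := Ideal.mem_span_singleton.1 hi
  refine ⟨⟨u, w, h1⟩, ?_⟩
  have h2 : ak Ω u * ak Ω x + ak Ω π * ak Ω w = 1 := by
    have h3 := congrArg (ak Ω) h1
    simpa only [ak, map_add, map_mul, map_one] using h3
  have h4 : V.valuation (ak Ω π * ak Ω w) < 1 := by
    rw [map_mul]
    exact mul_lt_one_of_lt_of_le hV (ak_le V w)
  have h5 : V.valuation (ak Ω u * ak Ω x) = 1 := by
    have h6 : ak Ω u * ak Ω x = 1 - ak Ω π * ak Ω w := by rw [← h2]; ring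
    rw [h6, Valuation.map_one_sub_of_lt _ h4]
  rw [map_mul] at h5
  refine le_antisymm (ak_le V x) ?_
  rw [← h5]
  exact mul_le_of_le_one_left' (ak_le V u)

omit [NumberField F] [IQ F] [DecidableEq Ω] in
/-- Chunk UB9D (S/M). Some V₀ lies above π (H13S.exists_above, or 1: if there is none take c = 1). c₁ = x/y with x, y in 𝓞 F, π not dividing y (principal ideal domain: cancel powers of π; V₀(c₁) = 1, V₀(y) < 1 if π divides y), π does not divide x. c with y c + x in span {π} (y is invertible modulo π). V(c + c₁) = V(y c + x)/V(y) ≤ V(π) for every V with V(π) < 1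
(V(y) = 1: u y + w π = 1). -/
theorem int_repl {F : Type} [Field F] [NumberField F] [IQ F] {Ω : Type} [Field Ω] [Algebra F Ω]
    [IsAlgClosure F Ω] {π : 𝓞 F} (hπ : Prime π) (c₁ : F)
    (hc : ∀ V : ValuationSubring Ω, V.valuation (ak Ω π) < 1 → V.valuation (algebraMap F Ω c₁) = 1) :
    ∃ c : 𝓞 F, ¬ π ∣ c ∧ ∀ V : ValuationSubring Ω, V.valuation (ak Ω π) < 1 →
      V.valuation (ak Ω c + algebraMap F Ω c₁) ≤ V.valuation (ak Ω π) := by
  classical
  by_cases hV : ∃ V₀ : ValuationSubring Ω, V₀.valuation (ak Ω π) < 1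
  swap
  · exact ⟨1, hπ.not_dvd_one, fun V h => absurd ⟨V, h⟩ hV⟩
  obtain ⟨V₀, hV₀⟩ := hV
  have hv1 := hc V₀ hV₀
  obtain ⟨x0, y0, hy0, hxy⟩ := IsFractionRing.div_surjective (𝓞 F) c₁
  have hy0' : y0 ≠ 0 := nonZeroDivisors.ne_zero hy0
  have hx0 : x0 ≠ 0 := by
    rintro rfl
    rw [map_zero, zero_div] at hxy
    rw [← hxy, map_zero, map_zero] at hv1
    exact zero_ne_one hv1
  obtain ⟨n, x, hx, rfl⟩ := WfDvdMonoid.max_power_factor hx0 hπ.irreducible
  obtain ⟨m, y, hy, rfl⟩ := WfDvdMonoid.max_power_factor hy0' hπ.irreducible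
  have hπ0 : ak Ω π ≠ 0 := by
    intro h0
    apply hπ.ne_zero
    have h1 : algebraMap F Ω (π : F) = algebraMap F Ω 0 := by rw [map_zero]; exact h0
    have h2 := (algebraMap F Ω).injective h1
    exact_mod_cast h2
  have hxv := (ub9d_unit (Ω := Ω) hπ hV₀ hx).2
  have hyv := (ub9d_unit (Ω := Ω) hπ hV₀ hy).2
  have hnm : n = m := by
    have h1 : algebraMap F Ω c₁ = (ak Ω π ^ n * ak Ω x) / (ak Ω π ^ m * ak Ω y) := by
      rw [← hxy]
      simp only [ak, map_div₀, map_mul, map_pow]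
    rw [h1, map_div₀, map_mul, map_mul, map_pow, map_pow, hxv, hyv, mul_one, mul_one] at hv1
    have h2 : 0 < V₀.valuation (ak Ω π) := by
      rw [zero_lt_iff]
      exact (V₀.valuation).ne_zero_iff.2 hπ0
    have h3 : V₀.valuation (ak Ω π) ^ m ≠ 0 := pow_ne_zero _ h2.ne'
    rw [div_eq_one_iff_eq h3] at hv1
    exact (pow_right_strictAnti₀ h2 hV₀).injective hv1
  subst hnm
  obtain ⟨⟨u, w, h1⟩, -⟩ := ub9d_unit (Ω := Ω) hπ hV₀ hy
  have hπF : (algebraMap (𝓞 F) F π) ^ n ≠ 0 := by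
    apply pow_ne_zero
    intro h0
    exact hπ.ne_zero ((IsFractionRing.injective (𝓞 F) F) (by rw [h0, map_zero]))
  have hyF : algebraMap (𝓞 F) F y ≠ 0 := by
    intro h0
    apply hy
    have h2 : y = 0 := (IsFractionRing.injective (𝓞 F) F) (by rw [h0, map_zero])
    rw [h2]
    exact dvd_zero _
  have hc1 : c₁ = algebraMap (𝓞 F) F x / algebraMap (𝓞 F) F y := by
    rw [← hxy, map_mul, map_mul, map_pow, mul_div_mul_left _ _ hπF]
  refine ⟨-(x * u), ?_, fun V hV => ?_⟩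
  · rw [dvd_neg]
    intro h2
    rcases hπ.dvd_or_dvd h2 with h3 | h3
    · exact hx h3
    · apply hπ.not_dvd_one
      rw [← h1]
      exact dvd_add (h3.mul_right _) (dvd_mul_right _ _)
  · have h2 : ak Ω (-(x * u)) + algebraMap F Ω c₁ = ak Ω x * ak Ω w * ak Ω π / ak Ω y := by
      have h3 : algebraMap (𝓞 F) F (-(x * u)) + c₁ = algebraMap (𝓞 F) F x * algebraMap (𝓞 F) F w *
          algebraMap (𝓞 F) F π / algebraMap (𝓞 F) F y := by
        rw [hc1, eq_div_iff hyF, add_mul, div_mul_cancel₀ _ hyF]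
        have h4 := congrArg (algebraMap (𝓞 F) F) h1
        rw [map_add, map_mul, map_mul, map_one] at h4
        rw [map_neg, map_mul]
        linear_combination (-(algebraMap (𝓞 F) F x)) * h4
      have h5 := congrArg (algebraMap F Ω) h3
      simpa only [ak, map_add, map_mul, map_div₀] using h5
    have hyv' := (ub9d_unit (Ω := Ω) hπ hV hy).2
    rw [h2, map_div₀, map_mul, map_mul, hyv', div_one]
    exact mul_le_of_le_one_left' (mul_le_one' (ak_le V x) (ak_le V w))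

end H55K
end

-- from Lib.H55K.G10A
section

/-! # H55K: the Frobenius elements are the values of the Hecke character -/

open NumberField IsDedekindDomain WeierstrassCurve

namespace H55K

open H55P (IQ embF eF LF Per IsHecke Pt ac Inert Dec Nm)
open H35P (WAB Ker tt)


variable {F : Type} [Field F] [NumberField F] [IQ F] {A B : F} {Om : ℂ} {Ω : Type} [Field Ω] [DecidableEq Ω]
  [Algebra F Ω] {j : Ω →+* ℂ} {act : 𝓞 F →+* AddMonoid.End (Pt (WAB A B) Ω)} {V : ValuationSubring Ω}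

theorem g10a_D (F : Type) [Field F] [NumberField F] [IQ F] :
    H55P.bF F 0 * cj (H55P.bF F 1) - H55P.bF F 1 * cj (H55P.bF F 0) ≠ 0 := by
  intro h
  have hi := H55P.LF_indep (F := F)
  rw [LinearIndependent.pair_iff] at hi
  obtain ⟨e0, he0⟩ : ∃ e0, e0 = eF F (H55P.bF F 0) := ⟨_, rfl⟩
  obtain ⟨e1, he1⟩ : ∃ e1, e1 = eF F (H55P.bF F 1) := ⟨_, rfl⟩
  rw [← he0, ← he1] at hi
  have h1 : e0 * (starRingEnd ℂ) e1 - e1 * (starRingEnd ℂ) e0 = 0 := by
    have := congrArg (eF F) h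
    rw [map_sub, map_mul, map_mul, e_cj, e_cj, ← he0, ← he1] at this
    rw [this]
    exact map_zero (eF F)
  have hne : e0 ≠ 0 := by
    rw [he0]
    exact H55P.eF_ne ((H55P.bF F).ne_zero 0)
  have h2 := hi (-(e1 * (starRingEnd ℂ) e0).re) (Complex.normSq e0) (by
    rw [Complex.real_smul, Complex.real_smul]
    have h3 : (((e1 * (starRingEnd ℂ) e0).re : ℝ) : ℂ) = e1 * (starRingEnd ℂ) e0 := by
      apply Complex.conj_eq_iff_re.1
      rw [map_mul, Complex.conj_conj]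
      linear_combination h1
    rw [Complex.ofReal_neg, h3, Complex.normSq_eq_conj_mul_self]
    ring)
  have h3 := h2.2
  rw [map_eq_zero] at h3
  exact hne h3

/-- Chunk G10A (M), arithmetic. There is a finite set S of primes of F such that for v outside S of degree one: if ψ generates v, γ is associated to ψ and Nm (γ - 1) = Nm (1 - ψ) then γ = ψ. b₀, b₁ an integral basis (H55P.bF, bF_repr), D = b₀ cj b₁ - b₁ cj b₀ ≠ 0 (else cj x = x for all x: cj (b₀)/b₀ = cj (b₁)/b₁ =: r, cj x = r x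
for all x, r = 1 for x = 1, against IQ.im, e_cj). S = {v : D in v}. Nm γ = Nm ψ and Nm (γ - 1) = Nm γ - (γ + cj γ) + 1 (mul_cj), so γ + cj γ = ψ + cj ψ and γ cj γ = ψ cj ψ: (γ - ψ)(γ - cj ψ) = 0. If γ = cj ψ: v contains ψ and cj ψ. ψ = m₀ b₀ + m₁ b₁ (integers): D m₀ = ψ cj b₁ - cj ψ b₁ (up to sign) is in v, so m₀ is in v, m₁ too; the
integers in v are the multiples of the prime q = absNorm v, so q divides ψ, Nm ψ = q is divisible by q^2: absurd. -/
theorem gam_eq (F : Type) [Field F] [NumberField F] [IQ F] : ∃ S : Set (HeightOneSpectrum (𝓞 F)), S.Finite ∧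
    ∀ v ∉ S, (Ideal.absNorm v.asIdeal).Prime → ∀ ψ γ : 𝓞 F, Ideal.span {ψ} = v.asIdeal → Associated ψ γ →
      Nm (γ - 1) = Nm (1 - ψ) → γ = ψ := by
  obtain ⟨b0, hb0⟩ : ∃ b0, b0 = H55P.bF F 0 := ⟨_, rfl⟩
  obtain ⟨b1, hb1⟩ : ∃ b1, b1 = H55P.bF F 1 := ⟨_, rfl⟩
  have hD := g10a_D F
  rw [← hb0, ← hb1] at hD
  obtain ⟨D, hDd⟩ : ∃ D, D = b0 * cj b1 - b1 * cj b0 := ⟨_, rfl⟩
  rw [← hDd] at hD
  refine ⟨{v | D ∈ v.asIdeal}, ?_, ?_⟩
  · have h := Ideal.finite_factors (R := 𝓞 F) (I := Ideal.span {D}) (by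
      rw [Ideal.zero_eq_bot, Ne, Ideal.span_singleton_eq_bot]
      exact hD)
    refine h.subset fun v hv => ?_
    exact Ideal.dvd_span_singleton.2 hv
  · intro v hvS hq ψ γ hψ hass hN
    have hvD : D ∉ v.asIdeal := hvS
    obtain ⟨q, hqd⟩ : ∃ q, q = Ideal.absNorm v.asIdeal := ⟨_, rfl⟩
    rw [← hqd] at hq
    have hNN : Nm γ = Nm ψ := by
      unfold H55P.Nm
      rw [Ideal.span_singleton_eq_span_singleton.2 hass.symm]
    have h1 := mul_cj (γ - 1)
    have h2 := mul_cj (1 - ψ)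
    have h3 := mul_cj γ
    have h4 := mul_cj ψ
    rw [hN] at h1
    rw [hNN] at h3
    rw [map_sub, map_one] at h1 h2
    have htr : γ + cj γ = ψ + cj ψ := by linear_combination h2 - h1 + h3 - h4
    have hprod : (γ - ψ) * (γ - cj ψ) = 0 := by linear_combination γ * htr + (h4 - h3)
    rcases mul_eq_zero.1 hprod with h | h
    · exact sub_eq_zero.1 h
    · exfalso
      have hγ : γ = cj ψ := sub_eq_zero.1 h
      have hψv : ψ ∈ v.asIdeal := by
        rw [← hψ]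
        exact Ideal.mem_span_singleton_self ψ
      have hcv : cj ψ ∈ v.asIdeal := by
        rw [← hψ, ← hγ, Ideal.span_singleton_eq_span_singleton.2 hass]
        exact Ideal.mem_span_singleton_self γ
      obtain ⟨m0, hm0⟩ : ∃ m0, m0 = (H55P.bF F).repr ψ 0 := ⟨_, rfl⟩
      obtain ⟨m1, hm1⟩ : ∃ m1, m1 = (H55P.bF F).repr ψ 1 := ⟨_, rfl⟩
      have e1 : ψ = (m0 : 𝓞 F) * b0 + (m1 : 𝓞 F) * b1 := by
        rw [hm0, hm1, hb0, hb1]
        exact H55P.bF_repr ψ
      have e2 : cj ψ = (m0 : 𝓞 F) * cj b0 + (m1 : 𝓞 F) * cj b1 := by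
        conv_lhs => rw [e1]
        rw [map_add, map_mul, map_mul, cj_int, cj_int]
      have hpr : v.asIdeal.IsPrime := v.isPrime
      have hm : ∀ m : ℤ, (D * (m : 𝓞 F)) ∈ v.asIdeal → (q : ℤ) ∣ m := by
        intro m hDm
        have hmv : (m : 𝓞 F) ∈ v.asIdeal := (hpr.mem_or_mem hDm).resolve_left hvD
        by_contra hndvd
        have hcop : IsCoprime (q : ℤ) m := (Nat.prime_iff_prime_int.1 hq).coprime_iff_not_dvd.2 hndvd
        obtain ⟨a, b, hab⟩ := hcop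
        apply hpr.ne_top
        rw [Ideal.eq_top_iff_one]
        have hqv : ((q : ℕ) : 𝓞 F) ∈ v.asIdeal := by
          rw [hqd]
          exact Ideal.absNorm_mem v.asIdeal
        have h5 : (1 : 𝓞 F) = (a : 𝓞 F) * ((q : ℕ) : 𝓞 F) + (b : 𝓞 F) * (m : 𝓞 F) := by
          have := congrArg (fun z : ℤ => (z : 𝓞 F)) hab
          push_cast at this
          exact this.symm
        rw [h5]
        exact Ideal.add_mem _ (Ideal.mul_mem_left _ _ hqv) (Ideal.mul_mem_left _ _ hmv)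
      obtain ⟨n0, hn0⟩ := hm m0 (by
        have : D * (m0 : 𝓞 F) = cj b1 * ψ - b1 * cj ψ := by
          rw [hDd, e2]
          conv_rhs => rw [e1]
          ring
        rw [this]
        exact Ideal.sub_mem _ (Ideal.mul_mem_left _ _ hψv) (Ideal.mul_mem_left _ _ hcv))
      obtain ⟨n1, hn1⟩ := hm m1 (by
        have : D * (m1 : 𝓞 F) = b0 * cj ψ - cj b0 * ψ := by
          rw [hDd, e2]
          conv_rhs => rw [e1]
          ring
        rw [this]
        exact Ideal.sub_mem _ (Ideal.mul_mem_left _ _ hcv) (Ideal.mul_mem_left _ _ hψv))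
      have hqψ : ((q : ℕ) : 𝓞 F) ∣ ψ := by
        refine ⟨(n0 : 𝓞 F) * b0 + (n1 : 𝓞 F) * b1, ?_⟩
        rw [e1, hn0, hn1]
        push_cast
        ring
      have hvq : v.asIdeal = Ideal.span {((q : ℕ) : 𝓞 F)} := by
        apply le_antisymm
        · rw [← hψ, Ideal.span_singleton_le_span_singleton]
          exact hqψ
        · rw [Ideal.span_singleton_le_iff_mem, hqd]
          exact Ideal.absNorm_mem v.asIdeal
      have hNq : Nm ((q : ℕ) : 𝓞 F) = q * q := by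
        have := mul_cj ((q : ℕ) : 𝓞 F)
        rw [cj_nat, ← Nat.cast_mul] at this
        exact (Nat.cast_injective this).symm
      have hqq : q = q * q := by
        conv_lhs => rw [hqd, hvq]
        exact hNq
      have := hq.one_lt
      nlinarith

end H55K
end

-- from Lib.H55K.G8B
section

/-! # H55K: Frobenius elements: the generator -/

open NumberField IsDedekindDomain WeierstrassCurve

namespace H55K

open H55P (IQ embF eF LF Per IsHecke Pt ac Inert Dec Nm)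
open H35P (WAB Ker tt)


variable {F : Type} [Field F] [NumberField F] [IQ F] {A B : F} {Om : ℂ} {Ω : Type} [Field Ω] [DecidableEq Ω]
  [Algebra F Ω] {j : Ω →+* ℂ} {act : 𝓞 F →+* AddMonoid.End (Pt (WAB A B) Ω)} {V : ValuationSubring Ω}

/-- Chunk G8B (S). e1x with S = the empty set (TN act u ∅ for a unit u). -/
theorem act_unit_x (h : CMA F A B Om j act) (u : (𝓞 F)ˣ) (P : Pt (WAB A B) Ω) :
    ak Ω (u : 𝓞 F) ^ 2 * xc (act (u : 𝓞 F) P) = xc P := by
  have hinv : ∀ T : Pt (WAB A B) Ω, act (u : 𝓞 F) T = 0 → T = 0 := by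
    intro T hT
    have h1 : act ((u⁻¹ : (𝓞 F)ˣ) : 𝓞 F) (act (u : 𝓞 F) T) = T := by
      change (act ((u⁻¹ : (𝓞 F)ˣ) : 𝓞 F) * act (u : 𝓞 F)) T = T
      rw [← map_mul, Units.inv_mul, map_one]
      rfl
    rw [← h1, hT, map_zero]
  by_cases hP : P = 0
  · rw [hP, map_zero, xc_zero, mul_zero]
  · have hTN : TN act (u : 𝓞 F) (∅ : Finset (Pt (WAB A B) Ω)) := by
      intro T
      constructor
      · intro hT
        exact absurd hT (Finset.notMem_empty T)
      · rintro ⟨hT, h0⟩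
        exact absurd (hinv T hT) h0
    have h1 := h.e1x (u : 𝓞 F) ∅ u.ne_zero hTN P fun h0 => hP (hinv P h0)
    rw [Finset.sum_empty, add_zero] at h1
    exact h1

omit [NumberField F] [IQ F] in
/-- Chunk G8B (S). Two endomorphisms f, g of an abelian group with f x = g x or f x = - g x modulo a subgroup K for every x: the sets {x : f x - g x in K}, {x : f x + g x in K} are subgroups with union everything. -/
theorem two_sub {M : Type} [AddCommGroup M] (K : AddSubgroup M) (f g : M →+ M)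
    (hfg : ∀ x, f x - g x ∈ K ∨ f x + g x ∈ K) : (∀ x, f x - g x ∈ K) ∨ ∀ x, f x + g x ∈ K := by
  by_contra hc
  push Not at hc
  obtain ⟨⟨x, hx⟩, y, hy⟩ := hc
  have hx' := (hfg x).resolve_left hx
  have hy' := (hfg y).resolve_right hy
  rcases hfg (x + y) with h1 | h1
  · apply hx
    have e : f x - g x = f (x + y) - g (x + y) - (f y - g y) := by
      rw [map_add, map_add]
      abel
    rw [e]
    exact K.sub_mem h1 hy'
  · apply hy
    have e : f y + g y = f (x + y) + g (x + y) - (f x + g x) := by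
      rw [map_add, map_add]
      abel
    rw [e]
    exact K.sub_mem h1 hx'

end H55K
end

-- from Lib.H55K.G10B
section

/-! # H55K: the Frobenius elements are the values of the Hecke character -/

open NumberField IsDedekindDomain WeierstrassCurve

namespace H55K

open H55P (IQ embF eF LF Per IsHecke Pt ac Inert Dec Nm)
open H35P (WAB Ker tt)


variable {F : Type} [Field F] [NumberField F] [IQ F] {A B : F} {Om : ℂ} {Ω : Type} [Field Ω] [DecidableEq Ω]
  [Algebra F Ω] {j : Ω →+* ℂ} {act : 𝓞 F →+* AddMonoid.End (Pt (WAB A B) Ω)} {V : ValuationSubring Ω}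

theorem g10b_fin {F : Type} [Field F] [NumberField F] (a : 𝓞 F) (ha : a ≠ 0) :
    {v : HeightOneSpectrum (𝓞 F) | a ∈ v.asIdeal}.Finite := by
  have h := Ideal.finite_factors (I := Ideal.span {a}) (by
    rw [Ne, Ideal.zero_eq_bot, Ideal.span_singleton_eq_bot]
    exact ha)
  refine h.subset fun v hv => ?_
  exact Ideal.dvd_span_singleton.2 hv

theorem g10b_one {F : Type} [Field F] [NumberField F] {Ω : Type} [Field Ω] [Algebra F Ω] (V : ValuationSubring Ω)
    (v : HeightOneSpectrum (𝓞 F)) (hv : ∀ a : 𝓞 F, a ∈ v.asIdeal → V.valuation (ak Ω a) < 1) (a : 𝓞 F)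
    (ha : a ∉ v.asIdeal) : V.valuation (ak Ω a) = 1 := by
  have hmax : v.asIdeal.IsMaximal := v.isMaximal
  obtain ⟨c, i, hi, hc⟩ := hmax.exists_inv ha
  have h1 : V.valuation (ak Ω i) < 1 := hv i hi
  have h2 : ak Ω c * ak Ω a = 1 - ak Ω i := by
    rw [eq_sub_iff_add_eq]
    show algebraMap F Ω (algebraMap (𝓞 F) F c) * algebraMap F Ω (algebraMap (𝓞 F) F a) +
      algebraMap F Ω (algebraMap (𝓞 F) F i) = 1
    rw [← map_mul, ← map_mul, ← map_add, ← map_add, hc, map_one, map_one]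
  have h3 : V.valuation (ak Ω c) * V.valuation (ak Ω a) = 1 := by
    rw [← map_mul, h2, Valuation.map_one_sub_of_lt _ h1]
  have h4 := ak_le V a
  refine le_antisymm h4 ?_
  rw [← h3]
  exact mul_le_of_le_one_left' (ak_le V c)

/-- Chunk G10B (S/M). For x ≠ 0 in F only finitely many v have a valuation ring V above v with V(x) ≠ 1: x = a/b, v contains a or b (Abv-like argument: hv; if v does not contain a then a c - 1 is in v for some c, so V(a) = 1). -/
theorem fin_unit (Ω : Type) [Field Ω] [Algebra F Ω] (x : F) (hx : x ≠ 0) :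
    ∃ S : Set (HeightOneSpectrum (𝓞 F)), S.Finite ∧ ∀ v ∉ S, ∀ V : ValuationSubring Ω,
      (∀ a : 𝓞 F, a ∈ v.asIdeal → V.valuation (ak Ω a) < 1) → V.valuation (algebraMap F Ω x) = 1 := by
  obtain ⟨a, b, hb, rfl⟩ := IsFractionRing.div_surjective (A := 𝓞 F) x
  have hb0 : b ≠ 0 := nonZeroDivisors.ne_zero hb
  have ha0 : a ≠ 0 := by
    rintro rfl
    apply hx
    rw [map_zero, zero_div]
  refine ⟨{v | a ∈ v.asIdeal} ∪ {v | b ∈ v.asIdeal}, (g10b_fin a ha0).union (g10b_fin b hb0), ?_⟩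
  intro v hvS V hv
  rw [Set.mem_union, not_or] at hvS
  have h1 := g10b_one V v hv a hvS.1
  have h2 := g10b_one V v hv b hvS.2
  rw [map_div₀, map_div₀]
  change V.valuation (ak Ω a) / V.valuation (ak Ω b) = 1
  rw [h1, h2, div_one]

end H55K
end

-- from Lib.H55K.G8A
section

/-! # H55K: Frobenius elements: the generator -/

open NumberField IsDedekindDomain WeierstrassCurve

namespace H55K

open H55P (IQ embF eF LF Per IsHecke Pt ac Inert Dec Nm)
open H35P (WAB Ker tt)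


variable {F : Type} [Field F] [NumberField F] [IQ F] {A B : F} {Om : ℂ} {Ω : Type} [Field Ω] [DecidableEq Ω]
  [Algebra F Ω] {j : Ω →+* ℂ} {act : 𝓞 F →+* AddMonoid.End (Pt (WAB A B) Ω)} {V : ValuationSubring Ω}

omit [NumberField F] [IQ F] [DecidableEq Ω] in
/-- Chunk G8A (S/M). κ is congruent to the square of a unit of 𝓞 F. A ≠ 0 and B ≠ 0: V(κ^2 - 1) < 1, V(κ^3 - 1) < 1, so V(κ - 1) < 1 (κ^3 - 1 - κ (κ^2 - 1) = κ - 1): u = 1. A = 0 (then V(B) = 1): V(κ^3 - 1) < 1, κ^3 - 1 = (κ - 1)(κ - w)(κ - w^2), w from hA0: κ is congruent to 1, w = (w^2)^2 or w^2.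
B = 0: V(κ^2 - 1) < 1: κ is congruent to 1 or -1 = i^2. -/
theorem unit_sq {F : Type} [Field F] [NumberField F] {A B : F} {Ω : Type} [Field Ω] [Algebra F Ω]
    (V : ValuationSubring Ω) (hA : A = 0 ∨ V.valuation (algebraMap F Ω A) = 1)
    (hB : B = 0 ∨ V.valuation (algebraMap F Ω B) = 1) (hAB : ¬ (A = 0 ∧ B = 0))
    (hA0 : A = 0 → ∃ w : 𝓞 F, w ^ 2 + w + 1 = 0) (hB0 : B = 0 → ∃ w : 𝓞 F, w ^ 2 + 1 = 0) (κ : Ω)
    (hκ : V.valuation κ = 1) (h2 : V.valuation (κ ^ 2 * algebraMap F Ω A - algebraMap F Ω A) < 1)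
    (h3 : V.valuation (κ ^ 3 * algebraMap F Ω B - algebraMap F Ω B) < 1) :
    ∃ u : (𝓞 F)ˣ, V.valuation (κ - ak Ω (u : 𝓞 F) ^ 2) < 1 := by
  have hk2 : B = 0 ∨ A ≠ 0 → A = 0 ∨ V.valuation (κ ^ 2 - 1) < 1 := by
    intro _
    rcases hA with h | h
    · exact Or.inl h
    · right
      have e : κ ^ 2 * algebraMap F Ω A - algebraMap F Ω A = (κ ^ 2 - 1) * algebraMap F Ω A := by ring
      rw [e, map_mul, h, mul_one] at h2
      exact h2
  have hk3 : B = 0 ∨ V.valuation (κ ^ 3 - 1) < 1 := by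
    rcases hB with h | h
    · exact Or.inl h
    · right
      have e : κ ^ 3 * algebraMap F Ω B - algebraMap F Ω B = (κ ^ 3 - 1) * algebraMap F Ω B := by ring
      rw [e, map_mul, h, mul_one] at h3
      exact h3
  have hak1 : ak Ω (((1 : (𝓞 F)ˣ) : 𝓞 F)) = 1 := by
    show algebraMap F Ω (((1 : (𝓞 F)ˣ) : 𝓞 F) : F) = 1
    rw [Units.val_one]
    simp
  have hone : V.valuation (κ - 1) < 1 → ∃ u : (𝓞 F)ˣ, V.valuation (κ - ak Ω (u : 𝓞 F) ^ 2) < 1 := by
    intro h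
    refine ⟨1, ?_⟩
    rw [hak1, one_pow]
    exact h
  have hmulp : ∀ a b : Ω, V.valuation (a * b) < 1 → V.valuation a < 1 ∨ V.valuation b < 1 := by
    intro a b hab
    by_contra hcon
    push Not at hcon
    rw [map_mul] at hab
    exact absurd hab (not_lt.2 (one_le_mul hcon.1 hcon.2))
  by_cases hA1 : A = 0
  · have hB1 : B ≠ 0 := fun h => hAB ⟨hA1, h⟩
    have hk := hk3.resolve_left hB1
    obtain ⟨w, hw⟩ := hA0 hA1
    have hw3 : w * w ^ 2 = 1 := by linear_combination (w - 1) * hw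
    have hw3' : w ^ 2 * w = 1 := by rw [mul_comm]; exact hw3
    have hwΩ : (ak Ω w) ^ 2 + ak Ω w + 1 = 0 := by
      have h5 := congrArg (fun z : 𝓞 F => algebraMap F Ω (z : F)) hw
      simpa [ak] using h5
    have hf : κ ^ 3 - 1 = (κ - 1) * ((κ - ak Ω w) * (κ - (ak Ω w) ^ 2)) := by
      linear_combination (κ - 1) * (κ + 1 - ak Ω w) * hwΩ
    rw [hf] at hk
    rcases hmulp _ _ hk with h | h
    · exact hone h
    · rcases hmulp _ _ h with h | h
      · refine ⟨⟨w ^ 2, w, hw3', hw3⟩, ?_⟩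
        have e : ak Ω (((⟨w ^ 2, w, hw3', hw3⟩ : (𝓞 F)ˣ)) : 𝓞 F) = (ak Ω w) ^ 2 := by
          simp [ak]
        rw [e]
        have e2 : κ - ((ak Ω w) ^ 2) ^ 2 = κ - ak Ω w := by
          linear_combination (-(ak Ω w) ^ 2 + ak Ω w) * hwΩ
        rw [e2]
        exact h
      · refine ⟨⟨w, w ^ 2, hw3, hw3'⟩, ?_⟩
        exact h
  · have hk2' := (hk2 (Or.inr hA1)).resolve_left hA1
    by_cases hB1 : B = 0
    · obtain ⟨i, hi⟩ := hB0 hB1
      have hi1 : i * (-i) = 1 := by linear_combination -hi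
      have hi2 : (-i) * i = 1 := by linear_combination -hi
      have e : κ ^ 2 - 1 = (κ - 1) * (κ + 1) := by ring
      rw [e] at hk2'
      rcases hmulp _ _ hk2' with h | h
      · exact hone h
      · refine ⟨⟨i, -i, hi1, hi2⟩, ?_⟩
        have hiΩ : (ak Ω i) ^ 2 + 1 = 0 := by
          have h5 := congrArg (fun z : 𝓞 F => algebraMap F Ω (z : F)) hi
          simpa [ak] using h5
        have e2 : κ - (ak Ω (((⟨i, -i, hi1, hi2⟩ : (𝓞 F)ˣ)) : 𝓞 F)) ^ 2 = κ + 1 := by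
          show κ - (ak Ω i) ^ 2 = κ + 1
          linear_combination -hiΩ
        rw [e2]
        exact h
    · have hk3' := hk3.resolve_left hB1
      apply hone
      have e : κ - 1 = (κ ^ 3 - 1) - κ * (κ ^ 2 - 1) := by ring
      rw [e]
      refine V.valuation.map_sub_lt hk3' ?_
      rw [map_mul, hκ, one_mul]
      exact hk2'

end H55K
end

-- from Lib.H55K.G7A
section

/-! # H55K: Frobenius elements: the x-coordinate -/

open NumberField IsDedekindDomain WeierstrassCurve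

namespace H55K

open H55P (IQ embF eF LF Per IsHecke Pt ac Inert Dec Nm)
open H35P (WAB Ker tt)


variable {F : Type} [Field F] [NumberField F] [IQ F] {A B : F} {Om : ℂ} {Ω : Type} [Field Ω] [DecidableEq Ω]
  [Algebra F Ω] {j : Ω →+* ℂ} {act : 𝓞 F →+* AddMonoid.End (Pt (WAB A B) Ω)} {V : ValuationSubring Ω}

theorem g7a_ml {V : ValuationSubring Ω} {a b : V.ValueGroup} (ha : a ≤ 1) (hb : b < 1) : a * b < 1 :=
  (mul_le_of_le_one_left' ha).trans_lt hb

theorem g7a_mr {V : ValuationSubring Ω} {a b : V.ValueGroup} (ha : a < 1) (hb : b ≤ 1) : a * b < 1 :=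
  (mul_le_of_le_one_right' hb).trans_lt ha

/-- An integer not divisible by β is a unit at V. -/
theorem g7a_unit {V : ValuationSubring Ω} {β : 𝓞 F} (hβ : Prime β) (hv : V.valuation (ak Ω β) < 1) {c : 𝓞 F}
    (hc : ¬ β ∣ c) : V.valuation (ak Ω c) = 1 := by
  have h1 : IsCoprime β c := (Irreducible.coprime_iff_not_dvd hβ.irreducible).2 hc
  obtain ⟨u, w, huw⟩ := h1
  have h2 : ak Ω u * ak Ω β + ak Ω w * ak Ω c = 1 := by
    have h0 : (u : F) * (β : F) + (w : F) * (c : F) = 1 := by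
      exact_mod_cast congrArg (fun z : 𝓞 F => (z : F)) huw
    have h00 := congrArg (algebraMap F Ω) h0
    rw [map_add, map_mul, map_mul, map_one] at h00
    exact h00
  refine le_antisymm (ak_le V c) ?_
  by_contra hlt
  rw [not_le] at hlt
  have h3 : V.valuation (ak Ω u * ak Ω β) < 1 := by
    rw [map_mul]
    exact g7a_ml (ak_le V u) hv
  have h4 : V.valuation (ak Ω w * ak Ω c) < 1 := by
    rw [map_mul]
    exact g7a_ml (ak_le V w) hlt
  have h5 := Valuation.map_add_lt V.valuation h3 h4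
  rw [h2, map_one] at h5
  exact lt_irrefl _ h5

/-- Fermat in the ring of integers. -/
theorem g7a_int {β : 𝓞 F} (hβ : Prime β) (a : 𝓞 F) : β ∣ a ^ Nm β - a := by
  have hI : (Ideal.span {β}).IsPrime := (Ideal.span_singleton_prime hβ.ne_zero).2 hβ
  have hne : Ideal.span {β} ≠ ⊥ := by
    rw [Ne, Ideal.span_singleton_eq_bot]
    exact hβ.ne_zero
  have hM : (Ideal.span {β}).IsMaximal := hI.isMaximal hne
  let _ : Field (𝓞 F ⧸ Ideal.span {β}) := Ideal.Quotient.field _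
  have _ : Finite (𝓞 F ⧸ Ideal.span {β}) := Ideal.finiteQuotientOfFreeOfNeBot _ hne
  let _ : Fintype (𝓞 F ⧸ Ideal.span {β}) := Fintype.ofFinite _
  have h1 : Fintype.card (𝓞 F ⧸ Ideal.span {β}) = Nm β := by
    rw [← Nat.card_eq_fintype_card, Nm, Ideal.absNorm_apply, Submodule.cardQuot_apply]
  have h2 := FiniteField.pow_card (Ideal.Quotient.mk (Ideal.span {β}) a)
  rw [h1] at h2
  rw [← Ideal.mem_span_singleton, ← Ideal.Quotient.eq_zero_iff_mem, map_sub, map_pow, h2, sub_self]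

/-- Chunk G7A (S/M). Fermat: x = a/b with a, b in 𝓞 F, β not dividing b (V(β) < 1, V(x) ≤ 1: if x = a/b with V(b) < 1 cancel powers of β: the ring 𝓞 F is a principal ideal domain; V(c) = 1 for c not divisible by β). For a in 𝓞 F: β divides a^(Nm β) - a
(𝓞 F ⧸ span {β} is a field with Nm β elements). -/
theorem fermat {V : ValuationSubring Ω} {β : 𝓞 F} (hβ : Prime β) (hv : V.valuation (ak Ω β) < 1) (x : F)
    (hx : V.valuation (algebraMap F Ω x) ≤ 1) :
    V.valuation (algebraMap F Ω x ^ Nm β - algebraMap F Ω x) < 1 := by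
  obtain ⟨a, ⟨b, hb⟩, hab, hx'⟩ := IsFractionRing.exists_reduced_fraction (A := 𝓞 F) (K := F) x
  have hb0 : b ≠ 0 := nonZeroDivisors.ne_zero hb
  have hbF : (b : F) ≠ 0 := by exact_mod_cast hb0
  have hxab : x * (b : F) = (a : F) := by
    rw [← hx']
    exact IsLocalization.mk'_spec F a ⟨b, hb⟩
  have hbu : V.valuation (ak Ω b) = 1 := by
    refine g7a_unit hβ hv fun hdb => ?_
    have hda : ¬ β ∣ a := fun hda => hβ.not_isUnit (hab hda hdb)
    have h1 := g7a_unit hβ hv hda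
    have h2 : ak Ω a = algebraMap F Ω x * ak Ω b := by
      unfold ak
      rw [← map_mul, hxab]
    rw [h2, map_mul] at h1
    obtain ⟨c, hc⟩ := hdb
    have h3 : V.valuation (ak Ω b) < 1 := by
      have h4 : ak Ω b = ak Ω β * ak Ω c := by
        unfold ak
        rw [← map_mul, hc]
        rfl
      rw [h4, map_mul]
      exact g7a_mr hv (ak_le V c)
    have h5 := g7a_ml hx h3
    rw [h1] at h5
    exact lt_irrefl _ h5
  have hN : Nm β ≠ 0 := by
    rw [Ne, H55P.Nm_eq_zero]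
    exact hβ.ne_zero
  obtain ⟨n, hn⟩ : ∃ n, Nm β = n + 1 := ⟨Nm β - 1, by omega⟩
  obtain ⟨c, hc⟩ := g7a_int hβ a
  obtain ⟨e, he⟩ := g7a_int hβ b
  rw [hn] at hc he ⊢
  have hak : ak Ω a = algebraMap F Ω x * ak Ω b := by
    unfold ak
    rw [← map_mul, hxab]
  have hc' : ak Ω a ^ (n + 1) - ak Ω a = ak Ω β * ak Ω c := by
    unfold ak
    rw [← map_pow, ← map_sub, ← map_mul]
    congr 1
    exact_mod_cast congrArg (fun z : 𝓞 F => (z : F)) hc
  have he' : ak Ω b ^ (n + 1) - ak Ω b = ak Ω β * ak Ω e := by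
    unfold ak
    rw [← map_pow, ← map_sub, ← map_mul]
    congr 1
    exact_mod_cast congrArg (fun z : 𝓞 F => (z : F)) he
  have key : (algebraMap F Ω x ^ (n + 1) - algebraMap F Ω x) * ak Ω b ^ (n + 1) =
      ak Ω β * (ak Ω c - algebraMap F Ω x * ak Ω e) := by
    rw [hak] at hc'
    linear_combination hc' - algebraMap F Ω x * he'
  have h6 := congrArg V.valuation key
  rw [map_mul, map_mul, map_pow, hbu, one_pow, mul_one] at h6
  rw [h6]
  refine g7a_mr hv ?_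
  refine Valuation.map_sub_le _ (ak_le V c) ?_
  rw [map_mul]
  exact mul_le_one' hx (ak_le V e)

end H55K
end

-- from Lib.H55K.G7B
section

/-! # H55K: Frobenius elements: the x-coordinate -/

open NumberField IsDedekindDomain WeierstrassCurve

namespace H55K

open H55P (IQ embF eF LF Per IsHecke Pt ac Inert Dec Nm)
open H35P (WAB Ker tt)


variable {F : Type} [Field F] [NumberField F] [IQ F] {A B : F} {Om : ℂ} {Ω : Type} [Field Ω] [DecidableEq Ω]
  [Algebra F Ω] {j : Ω →+* ℂ} {act : 𝓞 F →+* AddMonoid.End (Pt (WAB A B) Ω)} {V : ValuationSubring Ω}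

omit [NumberField F] [IQ F] in
theorem g7b_act2 (T : Pt (WAB A B) Ω) : act 2 T = T + T := by
  have h1 : (2 : 𝓞 F) = 1 + 1 := by norm_num
  rw [h1, map_add, map_one]
  rfl

theorem g7b_vieta {k : Type} [Field k] {a b x y z : k} (hx : 0 = x ^ 3 + a * x + b)
    (hy : 0 = y ^ 3 + a * y + b) (hz : 0 = z ^ 3 + a * z + b) (h1 : x ≠ y) (h2 : x ≠ z) (h3 : y ≠ z) :
    x + y + z = 0 ∧ x * y + x * z + y * z = a ∧ x * y * z = -b := by
  have e1 : x ^ 2 + x * y + y ^ 2 + a = 0 := by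
    have : (x - y) * (x ^ 2 + x * y + y ^ 2 + a) = 0 := by linear_combination hy - hx
    rcases mul_eq_zero.1 this with h | h
    · exact absurd (sub_eq_zero.1 h) h1
    · exact h
  have e2 : x ^ 2 + x * z + z ^ 2 + a = 0 := by
    have : (x - z) * (x ^ 2 + x * z + z ^ 2 + a) = 0 := by linear_combination hz - hx
    rcases mul_eq_zero.1 this with h | h
    · exact absurd (sub_eq_zero.1 h) h2
    · exact h
  have e3 : x + y + z = 0 := by
    have : (y - z) * (x + y + z) = 0 := by linear_combination e1 - e2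
    rcases mul_eq_zero.1 this with h | h
    · exact absurd (sub_eq_zero.1 h) h3
    · exact h
  have hz' : z = -(x + y) := by linear_combination e3
  have ha : a = -(x ^ 2 + x * y + y ^ 2) := by linear_combination e1
  refine ⟨e3, ?_, ?_⟩
  · rw [hz', ha]
    ring
  · have hb : b = -x ^ 3 - a * x := by linear_combination -hx
    rw [hb, hz', ha]
    ring

/-- Chunk G7B (S/M). The three points of order 2: y = 0 (2 T = 0: T = -T, yc_neg), the x-coordinates are the three different roots of x^3 + A x + B (eqnA): Vieta. exists_TN for b = 2, Nm 2 = 4 (Nm_nat), act 2 T = 2 • T. -/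
theorem two_tors (h : CMA F A B Om j act) : ∃ e₁ e₂ e₃ : Pt (WAB A B) Ω,
    (∀ T, act 2 T = 0 ∧ T ≠ 0 ↔ T = e₁ ∨ T = e₂ ∨ T = e₃) ∧ e₁ ≠ e₂ ∧ e₁ ≠ e₃ ∧ e₂ ≠ e₃ ∧
    xc e₁ + xc e₂ + xc e₃ = 0 ∧
    xc e₁ * xc e₂ + xc e₁ * xc e₃ + xc e₂ * xc e₃ = algebraMap F Ω A ∧
    xc e₁ * xc e₂ * xc e₃ = -algebraMap F Ω B := by
  have hc : CharZero Ω := charZero_of_injective_algebraMap (algebraMap F Ω).injective
  have h20 : (2 : 𝓞 F) ≠ 0 := two_ne_zero
  obtain ⟨S, hS, hcard⟩ := exists_TN h h20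
  have hN : Nm (2 : 𝓞 F) = 4 := by
    have := Nm_nat (F := F) 2
    rw [Nat.cast_ofNat] at this
    rw [this]
    norm_num
  rw [hN] at hcard
  obtain ⟨e₁, e₂, e₃, h12, h13, h23, hS3⟩ := Finset.card_eq_three.1 hcard
  have hmem : ∀ T, act 2 T = 0 ∧ T ≠ 0 ↔ T = e₁ ∨ T = e₂ ∨ T = e₃ := by
    intro T
    rw [← hS T, hS3, Finset.mem_insert, Finset.mem_insert, Finset.mem_singleton]
  have hself : ∀ T, (T = e₁ ∨ T = e₂ ∨ T = e₃) → T ≠ 0 ∧ -T = T ∧
      0 = xc T ^ 3 + algebraMap F Ω A * xc T + algebraMap F Ω B := by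
    intro T hT
    obtain ⟨hT2, hT0⟩ := (hmem T).2 hT
    rw [g7b_act2] at hT2
    have hneg : -T = T := neg_eq_of_add_eq_zero_left hT2
    refine ⟨hT0, hneg, ?_⟩
    have hy : yc T = 0 := by
      have h1 := yc_neg T
      rw [hneg] at h1
      have h2 : (2 : Ω) * yc T = 0 := by linear_combination h1
      rcases mul_eq_zero.1 h2 with h3 | h3
      · exact absurd h3 two_ne_zero
      · exact h3
    have := eqnA hT0
    rw [hy] at this
    rw [← this]
    ring
  obtain ⟨z1, n1, q1⟩ := hself e₁ (Or.inl rfl)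
  obtain ⟨z2, n2, q2⟩ := hself e₂ (Or.inr (Or.inl rfl))
  obtain ⟨z3, n3, q3⟩ := hself e₃ (Or.inr (Or.inr rfl))
  have hx : ∀ {P Q : Pt (WAB A B) Ω}, P ≠ 0 → Q ≠ 0 → -Q = Q → P ≠ Q → xc P ≠ xc Q := by
    intro P Q hP hQ hn hne hxx
    rcases xc_eq hP hQ hxx with h1 | h1
    · exact hne h1
    · exact hne (h1.trans hn)
  obtain ⟨v1, v2, v3⟩ := g7b_vieta q1 q2 q3 (hx z1 z2 n2 h12) (hx z1 z3 n3 h13) (hx z2 z3 n3 h23)
  exact ⟨e₁, e₂, e₃, hmem, h12, h13, h23, v1, v2, v3⟩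

end H55K
end

-- from Lib.H55K.Y6
section

/-! # H55K: Selmer groups of the two equations -/

open NumberField IsDedekindDomain WeierstrassCurve

namespace H55K

open H55P (IQ embF eF LF Per IsHecke Pt ac Inert Dec Nm)
open H35P (WAB Ker tt)


variable {F : Type} [Field F] [NumberField F] [IQ F]

omit [NumberField F] [IQ F] in
theorem y6_transport {Ω : Type} [Field Ω] [DecidableEq Ω] [Algebra F Ω] {W W' : WeierstrassCurve F} (p : ℕ)
    (K : IntermediateField F Ω) (φ : Pt W Ω ≃+ Pt W' Ω) (hφ : ∀ s P, φ (ac W s P) = ac W' s (φ P))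
    (h : H55P.SelZero W' p K) : H55P.SelZero W p K := by
  intro c hc hp hV
  have h1 : H55P.Coc W' K (fun s => φ (c s)) := by
    refine ⟨?_, ?_⟩
    · intro s hs t ht
      show φ (c (s * t)) = φ (c s) + ac W' s (φ (c t))
      rw [hc.mul s hs t ht, map_add, hφ]
    · obtain ⟨L, hL, hL2⟩ := hc.cont
      refine ⟨L, hL, fun s hs hs2 => ?_⟩
      show φ (c s) = 0
      rw [hL2 s hs hs2, map_zero]
  obtain ⟨T, hT1, hT2⟩ := h (fun s => φ (c s)) h1 (fun s hs => by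
      show p • φ (c s) = 0
      rw [← map_nsmul, hp s hs, map_zero]) (fun V => by
      obtain ⟨P, hP⟩ := hV V
      refine ⟨φ P, fun s hs hI => ?_⟩
      show φ (c s) = ac W' s (φ P) - φ P
      rw [hP s hs hI, map_sub, hφ])
  refine ⟨φ.symm T, ?_, fun s hs => ?_⟩
  · apply φ.injective
    rw [map_nsmul, φ.apply_symm_apply, hT1, map_zero]
  · apply φ.injective
    rw [map_sub, hφ, φ.apply_symm_apply]
    exact hT2 s hs

theorem y6_delta {k : Type} [Field k] {W : WeierstrassCurve k} {A B s t β : k}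
    (D : H55P.PS4_D W (WAB A B) β s t) : (WAB A B).Δ = W.Δ := by
  have h1 := D.h1
  have h3 := D.h3
  have h2 : W.a₂ = 3 * β - s ^ 2 := by linear_combination -D.h2
  have h4' : A = W.a₄ + 2 * s * t - 3 * β ^ 2 := D.h4
  have h6' : B = W.a₆ + t ^ 2 - β ^ 3 - A * β := D.h6
  have h4 : W.a₄ = A - 2 * s * t + 3 * β ^ 2 := by rw [h4']; ring
  have h6 : W.a₆ = B - t ^ 2 + β ^ 3 + A * β := by linear_combination -h6'
  simp only [WeierstrassCurve.Δ, WeierstrassCurve.b₂, WeierstrassCurve.b₄, WeierstrassCurve.b₆,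
    WeierstrassCurve.b₈]
  rw [← h1, ← h3, h2, h4, h6]
  simp only [WAB]
  ring

/-- Chunk Y6 (S/M). PS4_D (W₀⁄F) (WAB A B) β s t (H55P/S4.lean) with s = a₁/2, t = a₃/2, β = (a₂ + s^2)/3; PS4_map, PS4_iso over Ω: the isomorphism φ adds elements of F to the coordinates, so φ (ac s P) = ac s (φ P). A cocycle c of W₀ gives φ ∘ c; all the conditions of SelZero are transported. (Both curves are elliptic: hΔ.) -/
theorem sel_short {F : Type} [Field F] [NumberField F] (W₀ : WeierstrassCurve (𝓞 F)) {A B : F}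
    (hA : A = -(algebraMap (𝓞 F) F W₀.c₄) / 48) (hB : B = -(algebraMap (𝓞 F) F W₀.c₆) / 864)
    (hΔ : W₀.Δ ≠ 0) {Ω : Type} [Field Ω] [DecidableEq Ω] [Algebra F Ω] (p : ℕ) (K : IntermediateField F Ω)
    (h : H55P.SelZero (WAB A B) p K) : H55P.SelZero (W₀⁄F) p K := by
  obtain ⟨W, hW⟩ : ∃ W : WeierstrassCurve F, W = (W₀⁄F) := ⟨_, rfl⟩
  have hc4 : W.c₄ = algebraMap (𝓞 F) F W₀.c₄ := by
    rw [hW]
    exact W₀.map_c₄ (algebraMap (𝓞 F) F)
  have hc6 : W.c₆ = algebraMap (𝓞 F) F W₀.c₆ := by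
    rw [hW]
    exact W₀.map_c₆ (algebraMap (𝓞 F) F)
  have hWΔ : W.Δ ≠ 0 := by
    rw [hW]
    intro h0
    apply hΔ
    have h1 : (W₀⁄F).Δ = algebraMap (𝓞 F) F W₀.Δ := W₀.map_Δ (algebraMap (𝓞 F) F)
    rw [h1] at h0
    exact (map_eq_zero_iff _ (IsFractionRing.injective (𝓞 F) F)).1 h0
  rw [← hc4] at hA
  rw [← hc6] at hB
  have D : H55P.PS4_D W (WAB A B) ((W.a₂ + (W.a₁ / 2) ^ 2) / 3) (W.a₁ / 2) (W.a₃ / 2) := by
    refine ⟨rfl, rfl, rfl, ?_, ?_, ?_, ?_, ?_⟩
    · field_simp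
    · field_simp
    · field_simp
    · show A = _
      rw [hA, WeierstrassCurve.c₄, WeierstrassCurve.b₂, WeierstrassCurve.b₄]
      ring
    · show B = _ - A * _
      rw [hB, hA, WeierstrassCurve.c₄, WeierstrassCurve.c₆, WeierstrassCurve.b₂, WeierstrassCurve.b₄, WeierstrassCurve.b₆]
      ring
  have hd := y6_delta D
  have i1 : W.IsElliptic := ⟨isUnit_iff_ne_zero.2 hWΔ⟩
  have i2 : (WAB A B).IsElliptic := ⟨isUnit_iff_ne_zero.2 (by rw [hd]; exact hWΔ)⟩
  have i3 : (W⁄Ω).IsElliptic := inferInstanceAs (W.map (algebraMap F Ω)).IsElliptic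
  have i4 : ((WAB A B)⁄Ω).IsElliptic := inferInstanceAs ((WAB A B).map (algebraMap F Ω)).IsElliptic
  rw [← hW]
  refine y6_transport p K (H55P.PS4_iso (H55P.PS4_map (Ω := Ω) D)) ?_ h
  intro f P
  rcases P with _ | ⟨x, y, h'⟩
  · rfl
  · have e1 : f (algebraMap F Ω ((W.a₂ + (W.a₁ / 2) ^ 2) / 3)) = algebraMap F Ω ((W.a₂ + (W.a₁ / 2) ^ 2) / 3) :=
      f.commutes _
    have e2 : f (algebraMap F Ω (W.a₁ / 2)) = algebraMap F Ω (W.a₁ / 2) := f.commutes _
    have e3 : f (algebraMap F Ω (W.a₃ / 2)) = algebraMap F Ω (W.a₃ / 2) := f.commutes _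
    change Affine.Point.some _ _ _ = Affine.Point.some _ _ _
    rw [Affine.Point.some.injEq]
    constructor
    · change f x + algebraMap F Ω ((W.a₂ + (W.a₁ / 2) ^ 2) / 3) = f (x + algebraMap F Ω ((W.a₂ + (W.a₁ / 2) ^ 2) / 3))
      rw [map_add, e1]
    · change f y + algebraMap F Ω (W.a₁ / 2) * f x + algebraMap F Ω (W.a₃ / 2) =
        f (y + algebraMap F Ω (W.a₁ / 2) * x + algebraMap F Ω (W.a₃ / 2))
      rw [map_add, map_add, map_mul, e2, e3]

end H55K
end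

-- from Lib.H55K.Y9
section

/-! # H55K: primes of F and of the bottom field -/

open NumberField IsDedekindDomain WeierstrassCurve

namespace H55K

open H55P (IQ embF eF LF Per IsHecke Pt ac Inert Dec Nm Ram RamF)

variable {F : Type} [Field F] [NumberField F] {Ω : Type} [Field Ω] [Algebra F Ω]

theorem y9_surj : Function.Surjective (algebraMap (𝓞 F) (𝓞 (⊥ : IntermediateField F Ω))) := by
  intro x
  obtain ⟨y, hy⟩ := IntermediateField.mem_bot.1 ((x : (⊥ : IntermediateField F Ω))).2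
  have hyi : IsIntegral ℤ y := by
    have h2 : IsIntegral ℤ ((x : (⊥ : IntermediateField F Ω)) : Ω) :=
      (RingOfIntegers.isIntegral_coe x).map
        ((⊥ : IntermediateField F Ω).val.toRingHom.toIntAlgHom)
    rw [← hy] at h2
    exact (isIntegral_algebraMap_iff (algebraMap F Ω).injective).1 h2
  refine ⟨⟨y, hyi⟩, ?_⟩
  apply RingOfIntegers.ext
  apply Subtype.ext
  rw [← hy]
  rfl

theorem y9_inj : Function.Injective (algebraMap (𝓞 F) (𝓞 (⊥ : IntermediateField F Ω))) := by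
  intro x y hxy
  have h1 : algebraMap F Ω (x : F) = algebraMap F Ω (y : F) :=
    congrArg (fun z : 𝓞 (⊥ : IntermediateField F Ω) => ((z : (⊥ : IntermediateField F Ω)) : Ω)) hxy
  exact RingOfIntegers.ext ((algebraMap F Ω).injective h1)

/-- The prime of the bottom field above a prime of F. -/
theorem y9_up (v₀ : HeightOneSpectrum (𝓞 F)) :
    ∃ v : HeightOneSpectrum (𝓞 (⊥ : IntermediateField F Ω)),
      ∀ x : 𝓞 F, x ∈ v₀.asIdeal ↔ algebraMap (𝓞 F) (𝓞 (⊥ : IntermediateField F Ω)) x ∈ v.asIdeal := by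
  obtain ⟨gE, hgE⟩ : ∃ gE : 𝓞 F ≃+* 𝓞 (⊥ : IntermediateField F Ω), ∀ x, gE x = algebraMap (𝓞 F) _ x :=
    ⟨RingEquiv.ofBijective _ ⟨y9_inj, y9_surj⟩, fun _ => rfl⟩
  have hp : (v₀.asIdeal.comap (gE.symm : 𝓞 (⊥ : IntermediateField F Ω) →+* 𝓞 F)).IsPrime :=
    Ideal.IsPrime.comap (gE.symm : 𝓞 (⊥ : IntermediateField F Ω) →+* 𝓞 F)
  have hne : v₀.asIdeal.comap (gE.symm : 𝓞 (⊥ : IntermediateField F Ω) →+* 𝓞 F) ≠ ⊥ := by
    intro h0
    apply v₀.ne_bot
    rw [eq_bot_iff]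
    intro x hx
    have h1 : gE x ∈ v₀.asIdeal.comap (gE.symm : 𝓞 (⊥ : IntermediateField F Ω) →+* 𝓞 F) := by
      rw [Ideal.mem_comap]
      show gE.symm (gE x) ∈ _
      rw [gE.symm_apply_apply]
      exact hx
    rw [h0, Ideal.mem_bot] at h1
    rw [Ideal.mem_bot]
    exact gE.injective (h1.trans (map_zero gE).symm)
  refine ⟨⟨_, hp, hne⟩, fun x => ?_⟩
  rw [Ideal.mem_comap]
  show _ ↔ gE.symm (algebraMap (𝓞 F) _ x) ∈ _
  rw [← hgE, gE.symm_apply_apply]

variable {v₀ : HeightOneSpectrum (𝓞 F)} {v : HeightOneSpectrum (𝓞 (⊥ : IntermediateField F Ω))}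

theorem y9_map (h : ∀ x : 𝓞 F, x ∈ v₀.asIdeal ↔
    algebraMap (𝓞 F) (𝓞 (⊥ : IntermediateField F Ω)) x ∈ v.asIdeal) :
    v.asIdeal = v₀.asIdeal.map (algebraMap (𝓞 F) (𝓞 (⊥ : IntermediateField F Ω))) := by
  have h1 : v₀.asIdeal = v.asIdeal.comap (algebraMap (𝓞 F) (𝓞 (⊥ : IntermediateField F Ω))) := by
    ext x
    rw [Ideal.mem_comap]
    exact h x
  rw [h1, Ideal.map_comap_of_surjective _ y9_surj]

theorem y9_norm [NumberField (⊥ : IntermediateField F Ω)] (h : ∀ x : 𝓞 F, x ∈ v₀.asIdeal ↔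
    algebraMap (𝓞 F) (𝓞 (⊥ : IntermediateField F Ω)) x ∈ v.asIdeal) :
    Ideal.relNorm (𝓞 F) v.asIdeal = v₀.asIdeal := by
  have h1 : Module.finrank F (⊥ : IntermediateField F Ω) = 1 := IntermediateField.finrank_bot
  have hr : Module.finrank (𝓞 F) (𝓞 (⊥ : IntermediateField F Ω)) = 1 := by
    rw [← h1]
    exact (IsFractionRing.finrank_eq (𝓞 F) F (𝓞 (⊥ : IntermediateField F Ω)) (⊥ : IntermediateField F Ω)).symm
  rw [y9_map h, Ideal.relNorm_algebraMap (𝓞 (⊥ : IntermediateField F Ω)) v₀.asIdeal, hr, pow_one]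

theorem y9_ram (h : ∀ x : 𝓞 F, x ∈ v₀.asIdeal ↔
    algebraMap (𝓞 F) (𝓞 (⊥ : IntermediateField F Ω)) x ∈ v.asIdeal) (L : IntermediateField F Ω) :
    Ram (⊥ : IntermediateField F Ω) L v.asIdeal ↔ RamF L v₀.asIdeal := by
  constructor
  · rintro ⟨W, hW, hr⟩
    refine ⟨W, hW, ?_⟩
    rw [Ideal.map_le_iff_le_comap]
    intro x hx
    rw [Ideal.mem_comap]
    exact hr _ (algebraMap (𝓞 F) (𝓞 L) x) ((h x).1 hx) rfl
  · rintro ⟨W, hW, hr⟩
    refine ⟨W, hW, fun x y hx hxy => ?_⟩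
    obtain ⟨z, rfl⟩ := y9_surj x
    have h1 : y = algebraMap (𝓞 F) (𝓞 L) z := by
      apply RingOfIntegers.ext
      apply Subtype.ext
      rw [hxy]
      rfl
    rw [h1]
    exact hr (Ideal.mem_map_of_mem _ ((h z).2 hx))

omit [NumberField F] in
/-- If p is unramified in K then no prime above p is ramified in K. -/
theorem y9_unr {p : ℕ} (K : IntermediateField F Ω) [NumberField K] (hU : H55P.UnrP p K) {v : Ideal (𝓞 F)}
    (hr : RamF K v) : (p : 𝓞 F) ∉ v := by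
  intro hpv
  obtain ⟨W, hW, hr⟩ := hr
  have h1 : (p : 𝓞 K) ∈ W ^ 2 := by
    have h2 := hr (Ideal.mem_map_of_mem (algebraMap (𝓞 F) (𝓞 K)) hpv)
    rwa [map_natCast] at h2
  have h3 : W * W ∣ Ideal.span {(p : 𝓞 K)} := by
    rw [Ideal.dvd_span_singleton, ← pow_two]
    exact h1
  exact hW.ne_top (Ideal.isUnit_iff.1 (hU W h3))

end H55K
end

-- from Lib.H55W.L8A
section

/-! # H55W, part L: the integers a + b sqrt(-2) -/

open NumberField IsDedekindDomain

namespace H55W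

open H55P (IQ embF eF Nm)
open H55K (cj)

/-- φ is a square root of -2 in the integers of F and every integer is a + b φ. -/
structure TI {F : Type} [Field F] [NumberField F] (φ : 𝓞 F) : Prop where
  sq : φ ^ 2 = -2
  rep : ∀ x : 𝓞 F, ∃ a b : ℤ, x = (a : 𝓞 F) + (b : 𝓞 F) * φ

/-- The residue modulo 2φ attached to a norm. -/
noncomputable def kap {F : Type} [Field F] [NumberField F] (φ : 𝓞 F) (N : ℕ) : 𝓞 F :=
  if N % 16 = 1 then 1 else if N % 16 = 9 then -1 else if N % 16 = 3 then -(1 + φ) else 1 + φ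

/-- The residues modulo 16 of the norms. -/
def NR (N : ℕ) : Prop := N % 16 = 1 ∨ N % 16 = 3 ∨ N % 16 = 9 ∨ N % 16 = 11

variable {F : Type} [Field F] [NumberField F] [IQ F] {φ : 𝓞 F}

/-- Chunk L8A (S). cj φ = -φ (like gi_cj in G0.lean: (cj φ)^2 = -2; not real), mul_cj: Nm (a + b φ) = a^2 + 2 b^2. -/
theorem ti_nm (h : TI φ) (a b : ℤ) : cj φ = -φ ∧ ((Nm ((a : 𝓞 F) + (b : 𝓞 F) * φ) : ℕ) : ℤ) = a ^ 2 + 2 * b ^ 2 := by
  have hc : cj φ = -φ := by
    have h1 : (cj φ) ^ 2 = φ ^ 2 := by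
      rw [← map_pow, h.sq, map_neg]
      have h2 := H55K.cj_int (F := F) 2
      push_cast at h2
      rw [h2]
    rcases sq_eq_sq_iff_eq_or_eq_neg.1 h1 with h2 | h2
    · exfalso
      have h3 := H55K.e_cj φ
      rw [h2] at h3
      have h4 : (eF F φ).im = 0 := Complex.conj_eq_iff_im.1 h3.symm
      have h5 : (eF F φ) ^ 2 = -2 := by
        rw [← map_pow, h.sq, map_neg, map_ofNat]
      have h6 := congrArg Complex.re h5
      rw [pow_two, Complex.mul_re, h4, mul_zero, sub_zero, Complex.neg_re] at h6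
      have h7 : (2 : ℂ).re = 2 := by simp
      rw [h7] at h6
      nlinarith [mul_self_nonneg (eF F φ).re]
    · exact h2
  refine ⟨hc, ?_⟩
  have h1 := H55K.mul_cj ((a : 𝓞 F) + (b : 𝓞 F) * φ)
  rw [map_add, map_mul, H55K.cj_int, H55K.cj_int, hc] at h1
  apply Int.cast_injective (α := 𝓞 F)
  rw [Int.cast_natCast, ← h1]
  push_cast
  linear_combination (-(b : 𝓞 F) ^ 2) * h.sq

theorem l8a_nmu {u : 𝓞 F} (hu : IsUnit u) : Nm u = 1 := by
  unfold Nm
  rw [Ideal.span_singleton_eq_top.2 hu, Ideal.absNorm_top]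

theorem l8a_co (h : TI φ) {a b c d : ℤ} (he : (a : 𝓞 F) + (b : 𝓞 F) * φ = (c : 𝓞 F) + (d : 𝓞 F) * φ) :
    a = c ∧ b = d := by
  have h1 : ((a - c : ℤ) : 𝓞 F) + ((b - d : ℤ) : 𝓞 F) * φ = 0 := by
    push_cast
    linear_combination he
  have h2 := (ti_nm h (a - c) (b - d)).2
  rw [h1, H55P.Nm_eq_zero.2 rfl] at h2
  push_cast at h2
  have h3 : (a - c) ^ 2 = 0 := by nlinarith [sq_nonneg (a - c), sq_nonneg (b - d)]
  have h4 : (b - d) ^ 2 = 0 := by nlinarith [sq_nonneg (a - c), sq_nonneg (b - d)]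
  constructor
  · have h5 := pow_eq_zero_iff (two_ne_zero) |>.1 h3
    omega
  · have h5 := pow_eq_zero_iff (two_ne_zero) |>.1 h4
    omega

/-- Chunk L8A (S). Nm u = 1: a^2 + 2b^2 = 1. -/
theorem ti_unit (h : TI φ) {u : 𝓞 F} (hu : IsUnit u) : u = 1 ∨ u = -1 := by
  obtain ⟨a, b, hab⟩ := h.rep u
  have h1 := (ti_nm h a b).2
  rw [← hab, l8a_nmu hu] at h1
  push_cast at h1
  have hb : b = 0 := by
    by_contra hb
    have h2 : 1 ≤ b ^ 2 := by
      have h3 : 0 < b ^ 2 := by positivity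
      omega
    nlinarith [sq_nonneg a]
  have ha : a = 1 ∨ a = -1 := by
    rw [hb] at h1
    have h2 : (a - 1) * (a + 1) = 0 := by linear_combination -h1
    rcases mul_eq_zero.1 h2 with h3 | h3
    · exact Or.inl (by omega)
    · exact Or.inr (by omega)
  rcases ha with ha | ha
  · left
    rw [hab, ha, hb]
    push_cast
    ring
  · right
    rw [hab, ha, hb]
    push_cast
    ring

/-- Chunk L8A (S). (2φ)(c + d φ) = -4d + 2c φ; coordinates are unique (characteristic 0, φ is not rational: eF φ is not real, or compare norms). -/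
theorem ti_dvd (h : TI φ) (a b : ℤ) : (2 * φ ∣ (a : 𝓞 F) + (b : 𝓞 F) * φ ↔ 4 ∣ a ∧ 2 ∣ b) ∧ (φ ∣ (a : 𝓞 F) + (b : 𝓞 F) * φ ↔ 2 ∣ a) := by
  refine ⟨⟨?_, ?_⟩, ⟨?_, ?_⟩⟩
  · rintro ⟨z, hz⟩
    obtain ⟨c, d, hcd⟩ := h.rep z
    have h1 : (a : 𝓞 F) + (b : 𝓞 F) * φ = ((-4 * d : ℤ) : 𝓞 F) + ((2 * c : ℤ) : 𝓞 F) * φ := by
      rw [hz, hcd]
      push_cast
      linear_combination (2 * (d : 𝓞 F)) * h.sq
    obtain ⟨h2, h3⟩ := l8a_co h h1
    exact ⟨⟨-d, by omega⟩, ⟨c, h3⟩⟩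
  · rintro ⟨⟨m, rfl⟩, ⟨n, rfl⟩⟩
    refine ⟨(n : 𝓞 F) - (m : 𝓞 F) * φ, ?_⟩
    push_cast
    linear_combination (2 * (m : 𝓞 F)) * h.sq
  · rintro ⟨z, hz⟩
    obtain ⟨c, d, hcd⟩ := h.rep z
    have h1 : (a : 𝓞 F) + (b : 𝓞 F) * φ = ((-2 * d : ℤ) : 𝓞 F) + ((c : ℤ) : 𝓞 F) * φ := by
      rw [hz, hcd]
      push_cast
      linear_combination ((d : 𝓞 F)) * h.sq
    obtain ⟨h2, h3⟩ := l8a_co h h1
    exact ⟨-d, by omega⟩
  · rintro ⟨m, rfl⟩
    refine ⟨(b : 𝓞 F) - (m : 𝓞 F) * φ, ?_⟩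
    push_cast
    linear_combination ((m : 𝓞 F)) * h.sq

theorem l8a_kap (φ : 𝓞 F) (N : ℕ) : (N % 16 = 1 → kap φ N = 1) ∧ (N % 16 = 9 → kap φ N = -1) ∧
    (N % 16 = 3 → kap φ N = -(1 + φ)) ∧ (N % 16 = 11 → kap φ N = 1 + φ) := by
  unfold kap
  refine ⟨?_, ?_, ?_, ?_⟩ <;> intro h1 <;> simp [h1]

theorem l8a_four (φ : 𝓞 F) (N : ℕ) : kap φ N = 1 ∨ kap φ N = -1 ∨ kap φ N = -(1 + φ) ∨ kap φ N = 1 + φ := by
  unfold kap
  split_ifs <;> simp

/-- Chunk L8A (S/M). x = a + b φ, a odd (ti_dvd). N = a^2 + 2b^2. b even: N = a^2 or a^2 + 8 mod 16 is 1 or 9, kap = 1 or -1, and x ≡ a ≡ 1 or -1 modulo 2φ. b odd: 2b^2 = 2 mod 16, N = a^2 + 2 is 3 or 11 mod 16, x ≡ ±1 + φ, and -1 + φ ≡ -(1 + φ). -/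
theorem ti_kap (h : TI φ) {x : 𝓞 F} (hx : ¬ φ ∣ x) : NR (Nm x) ∧ (2 * φ ∣ x - kap φ (Nm x) ∨ 2 * φ ∣ x + kap φ (Nm x)) := by
  obtain ⟨a, b, hab⟩ := h.rep x
  have ha : ¬ (2 : ℤ) ∣ a := by
    intro h1
    apply hx
    rw [hab]
    exact (ti_dvd h a b).2.2 h1
  have hN := (ti_nm h a b).2
  rw [← hab] at hN
  obtain ⟨k1, k9, k3, k11⟩ := l8a_kap φ (Nm x)
  obtain ⟨p, ε, hε, hp⟩ : ∃ p ε : ℤ, (ε = 1 ∨ ε = -1) ∧ a = 4 * p + ε := by
    have h1 : a % 4 = 1 ∨ a % 4 = 3 := by omega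
    rcases h1 with h1 | h1
    · exact ⟨a / 4, 1, Or.inl rfl, by omega⟩
    · exact ⟨a / 4 + 1, -1, Or.inr rfl, by omega⟩
  have hε2 : ε ^ 2 = 1 := by rcases hε with rfl | rfl <;> norm_num
  rcases Int.even_or_odd' b with ⟨q, hq | hq⟩
  · obtain ⟨T, hT⟩ : ∃ T, T = 2 * p ^ 2 + p * ε + q ^ 2 := ⟨_, rfl⟩
    have h1 : ((Nm x : ℕ) : ℤ) = 8 * T + 1 := by
      rw [hN, hp, hq, hT]
      linear_combination hε2
    have h2 : Nm x % 16 = 1 ∨ Nm x % 16 = 9 := by omega
    have h3 : 2 * φ ∣ x - 1 ∨ 2 * φ ∣ x + 1 := by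
      rcases hε with h4 | h4
      · left
        have h5 : x - 1 = ((a - 1 : ℤ) : 𝓞 F) + (b : 𝓞 F) * φ := by
          rw [hab]
          push_cast
          ring
        rw [h5]
        exact (ti_dvd h _ _).1.2 ⟨⟨p, by omega⟩, ⟨q, hq⟩⟩
      · right
        have h5 : x + 1 = ((a + 1 : ℤ) : 𝓞 F) + (b : 𝓞 F) * φ := by
          rw [hab]
          push_cast
          ring
        rw [h5]
        exact (ti_dvd h _ _).1.2 ⟨⟨p, by omega⟩, ⟨q, hq⟩⟩
    rcases h2 with h2 | h2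
    · exact ⟨Or.inl h2, by rw [k1 h2]; exact h3⟩
    · refine ⟨Or.inr (Or.inr (Or.inl h2)), ?_⟩
      rw [k9 h2, sub_neg_eq_add, ← sub_eq_add_neg]
      exact h3.symm
  · obtain ⟨T, hT⟩ : ∃ T, T = 2 * p ^ 2 + p * ε + q * (q + 1) := ⟨_, rfl⟩
    have h1 : ((Nm x : ℕ) : ℤ) = 8 * T + 3 := by
      rw [hN, hp, hq, hT]
      linear_combination hε2
    have h2 : Nm x % 16 = 3 ∨ Nm x % 16 = 11 := by omega
    have h3 : 2 * φ ∣ x - (1 + φ) ∨ 2 * φ ∣ x + (1 + φ) := by
      rcases hε with h4 | h4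
      · left
        have h5 : x - (1 + φ) = ((a - 1 : ℤ) : 𝓞 F) + ((b - 1 : ℤ) : 𝓞 F) * φ := by
          rw [hab]
          push_cast
          ring
        rw [h5]
        exact (ti_dvd h _ _).1.2 ⟨⟨p, by omega⟩, ⟨q, by omega⟩⟩
      · right
        have h5 : x + (1 + φ) = ((a + 1 : ℤ) : 𝓞 F) + ((b + 1 : ℤ) : 𝓞 F) * φ := by
          rw [hab]
          push_cast
          ring
        rw [h5]
        exact (ti_dvd h _ _).1.2 ⟨⟨p, by omega⟩, ⟨q + 1, by omega⟩⟩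
    rcases h2 with h2 | h2
    · refine ⟨Or.inr (Or.inl h2), ?_⟩
      rw [k3 h2, sub_neg_eq_add, ← sub_eq_add_neg]
      exact h3.symm
    · exact ⟨Or.inr (Or.inr (Or.inr h2)), by rw [k11 h2]; exact h3⟩

/-- Chunk L8A (S). Cases modulo 16; (1 + φ)^2 = -1 + 2φ. -/
theorem kap_mul (h : TI φ) {N M : ℕ} (hN : NR N) (hM : NR M) : NR (N * M) ∧ 2 * φ ∣ kap φ N * kap φ M - kap φ (N * M) := by
  obtain ⟨a1, a9, a3, a11⟩ := l8a_kap φ N
  obtain ⟨b1, b9, b3, b11⟩ := l8a_kap φ M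
  obtain ⟨c1, c9, c3, c11⟩ := l8a_kap φ (N * M)
  rcases hN with hN | hN | hN | hN <;> rcases hM with hM | hM | hM | hM
  · have e : N * M % 16 = 1 := by rw [Nat.mul_mod, hN, hM]
    exact ⟨Or.inl e, ⟨0, by rw [a1 hN, b1 hM, c1 e]; ring⟩⟩
  · have e : N * M % 16 = 3 := by rw [Nat.mul_mod, hN, hM]
    exact ⟨Or.inr (Or.inl e), ⟨0, by rw [a1 hN, b3 hM, c3 e]; ring⟩⟩
  · have e : N * M % 16 = 9 := by rw [Nat.mul_mod, hN, hM]
    exact ⟨Or.inr (Or.inr (Or.inl e)), ⟨0, by rw [a1 hN, b9 hM, c9 e]; ring⟩⟩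
  · have e : N * M % 16 = 11 := by rw [Nat.mul_mod, hN, hM]
    exact ⟨Or.inr (Or.inr (Or.inr e)), ⟨0, by rw [a1 hN, b11 hM, c11 e]; ring⟩⟩
  · have e : N * M % 16 = 3 := by rw [Nat.mul_mod, hN, hM]
    exact ⟨Or.inr (Or.inl e), ⟨0, by rw [a3 hN, b1 hM, c3 e]; ring⟩⟩
  · have e : N * M % 16 = 9 := by rw [Nat.mul_mod, hN, hM]
    exact ⟨Or.inr (Or.inr (Or.inl e)), ⟨1, by rw [a3 hN, b3 hM, c9 e]; linear_combination h.sq⟩⟩
  · have e : N * M % 16 = 11 := by rw [Nat.mul_mod, hN, hM]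
    exact ⟨Or.inr (Or.inr (Or.inr e)), ⟨0, by rw [a3 hN, b9 hM, c11 e]; ring⟩⟩
  · have e : N * M % 16 = 1 := by rw [Nat.mul_mod, hN, hM]
    exact ⟨Or.inl e, ⟨-1, by rw [a3 hN, b11 hM, c1 e]; linear_combination -h.sq⟩⟩
  · have e : N * M % 16 = 9 := by rw [Nat.mul_mod, hN, hM]
    exact ⟨Or.inr (Or.inr (Or.inl e)), ⟨0, by rw [a9 hN, b1 hM, c9 e]; ring⟩⟩
  · have e : N * M % 16 = 11 := by rw [Nat.mul_mod, hN, hM]
    exact ⟨Or.inr (Or.inr (Or.inr e)), ⟨0, by rw [a9 hN, b3 hM, c11 e]; ring⟩⟩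
  · have e : N * M % 16 = 1 := by rw [Nat.mul_mod, hN, hM]
    exact ⟨Or.inl e, ⟨0, by rw [a9 hN, b9 hM, c1 e]; ring⟩⟩
  · have e : N * M % 16 = 3 := by rw [Nat.mul_mod, hN, hM]
    exact ⟨Or.inr (Or.inl e), ⟨0, by rw [a9 hN, b11 hM, c3 e]; ring⟩⟩
  · have e : N * M % 16 = 11 := by rw [Nat.mul_mod, hN, hM]
    exact ⟨Or.inr (Or.inr (Or.inr e)), ⟨0, by rw [a11 hN, b1 hM, c11 e]; ring⟩⟩
  · have e : N * M % 16 = 1 := by rw [Nat.mul_mod, hN, hM]
    exact ⟨Or.inl e, ⟨-1, by rw [a11 hN, b3 hM, c1 e]; linear_combination -h.sq⟩⟩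
  · have e : N * M % 16 = 3 := by rw [Nat.mul_mod, hN, hM]
    exact ⟨Or.inr (Or.inl e), ⟨0, by rw [a11 hN, b9 hM, c3 e]; ring⟩⟩
  · have e : N * M % 16 = 9 := by rw [Nat.mul_mod, hN, hM]
    exact ⟨Or.inr (Or.inr (Or.inl e)), ⟨1, by rw [a11 hN, b11 hM, c9 e]; linear_combination h.sq⟩⟩

/-- Chunk L8A (S). Otherwise 2φ divides 2 kap: kap is 1, -1, 1 + φ, -(1 + φ), and 2φ does not divide 2, 2 + 2φ (ti_dvd). -/
theorem kap_ne (h : TI φ) {N : ℕ} {x : 𝓞 F} (h1 : 2 * φ ∣ x - kap φ N) (h2 : 2 * φ ∣ x + kap φ N) : False := by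
  have h3 : 2 * φ ∣ 2 * kap φ N := by
    have h4 := dvd_sub h2 h1
    have h5 : x + kap φ N - (x - kap φ N) = 2 * kap φ N := by ring
    rwa [h5] at h4
  have h6 : ¬ 2 * φ ∣ (2 : 𝓞 F) := by
    intro h7
    have h8 : (2 : 𝓞 F) = ((2 : ℤ) : 𝓞 F) + ((0 : ℤ) : 𝓞 F) * φ := by
      push_cast
      ring
    rw [h8] at h7
    have h9 := ((ti_dvd h 2 0).1.1 (by
      have h10 : (2 * φ : 𝓞 F) = (((2 : ℤ) : 𝓞 F) + ((0 : ℤ) : 𝓞 F) * φ) * φ := by
        push_cast
        ring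
      rw [h10]
      exact h7)).1
    omega
  have h11 : ¬ 2 * φ ∣ 2 * (1 + φ) := by
    intro h7
    have h8 : 2 * (1 + φ) = ((2 : ℤ) : 𝓞 F) + ((2 : ℤ) : 𝓞 F) * φ := by
      push_cast
      ring
    rw [h8] at h7
    have h9 := ((ti_dvd h 2 2).1.1 h7).1
    omega
  rcases l8a_four φ N with h4 | h4 | h4 | h4
  · rw [h4, mul_one] at h3
    exact h6 h3
  · rw [h4, mul_neg, mul_one, dvd_neg] at h3
    exact h6 h3
  · rw [h4, mul_neg, dvd_neg] at h3
    exact h11 h3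
  · rw [h4] at h3
    exact h11 h3

/-- Chunk L8A (S). x = y + 8 z: x cj x - y cj y = 8 (z cj y + y cj z) + 64 z cj z, z cj y + cj (z cj y) = 2 a: divisible by 16. -/
theorem ti_per (h : TI φ) {x y : 𝓞 F} (hxy : (8 : 𝓞 F) ∣ x - y) : Nm x % 16 = Nm y % 16 := by
  obtain ⟨z, hz⟩ := hxy
  obtain ⟨c, d, hy⟩ := h.rep y
  obtain ⟨e, f, he⟩ := h.rep z
  have hx : x = ((c + 8 * e : ℤ) : 𝓞 F) + ((d + 8 * f : ℤ) : 𝓞 F) * φ := by
    push_cast
    linear_combination hz + hy + 8 * he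
  have h1 := (ti_nm h (c + 8 * e) (d + 8 * f)).2
  have h2 := (ti_nm h c d).2
  rw [← hx] at h1
  rw [← hy] at h2
  obtain ⟨T, hT⟩ : ∃ T, T = c * e + 4 * e ^ 2 + 2 * d * f + 8 * f ^ 2 := ⟨_, rfl⟩
  have h3 : ((Nm x : ℕ) : ℤ) = ((Nm y : ℕ) : ℤ) + 16 * T := by
    rw [h1, h2, hT]
    ring
  omega

end H55W
end
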