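import Mathlib
import Pool.Agent.Lib.H1M.PP.M001
import Pool.Agent.Lib.H1M.PP.M009
import Pool.Agent.Lib.H1M.PP.M010
import Pool.Agent.Lib.H1M.PP.M011
import Pool.Agent.Lib.H1M.PP.M013
import Pool.Agent.Lib.H1M.PP.M014
import Pool.Agent.Lib.H1M.PP.M015
import Pool.Agent.Lib.H1M.PP.M016
import Pool.Agent.Lib.H1M.PP.M017
import Pool.Agent.Lib.H1M.PP.M022
import Pool.Agent.Lib.H1M.PP.M023
import Pool.Agent.Lib.H1M.PP.M025
import Pool.Agent.Lib.H1M.PP.M028

/-! Merged copies (to shorten the build) of Lib.H13S.KU1, Lib.H13Z.Defs, Lib.H35T.L13, Lib.H55K.W4C, Lib.H55K.W6A, Lib.H55K.W6B, Lib.H55K.WM, Lib.H55K.D5, Lib.H55K.A.A1, Lib.H28G.GV10, Lib.H55N.T2, Lib.H13Y.GN0, Lib.H13Y.GN8a, Lib.H13Y.GN1, Lib.H99B.C1, Lib.H13Y.GN7a, Lib.H13Y.GN7c, Lib.H13Z.GA4, Lib.H13Y.GN2, Lib.H13Y.GN8b, Lib.H13Y.GN3, Lib.H13Y.GN6a, Lib.H99B.A1, Lib.H13Y.GN4, Lib.H99B.B3, Lib.H13Y.GN6c. -/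

-- from Lib.H13S.KU1
section

open NumberField IsDedekindDomain

namespace H13S

open H55P H28G H55B

/-- Hilbert 90 for a cocycle which is trivial on the automorphisms fixing a finite set. -/
theorem ku1_h90 {k Ω : Type} [Field k] [Field Ω] [Algebra k Ω] [Normal k Ω]
    (u : (Ω ≃ₐ[k] Ω) → Ω) (hu0 : ∀ s, u s ≠ 0) (hcoc : ∀ s t, u (s * t) = u s * s (u t))
    (S : Set Ω) [Finite S] (hS1 : ∀ s, u s ∈ S)
    (hS2 : ∀ n : Ω ≃ₐ[k] Ω, (∀ x ∈ S, n x = x) → u n = 1) :
    ∃ y : Ω, y ≠ 0 ∧ ∀ s : Ω ≃ₐ[k] Ω, s y = u s * y := by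
  classical
  have hfin : FiniteDimensional k (IntermediateField.adjoin k S) :=
    IntermediateField.finiteDimensional_adjoin fun x _ => Normal.isIntegral inferInstance x
  let N : IntermediateField k Ω :=
    IntermediateField.normalClosure k (IntermediateField.adjoin k S) Ω
  have hNn : Normal k N := normalClosure.normal k (IntermediateField.adjoin k S) Ω
  have hNf : FiniteDimensional k N := normalClosure.is_finiteDimensional k (IntermediateField.adjoin k S) Ω
  have hSN : ∀ x ∈ S, x ∈ N := fun x hx =>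
    (IntermediateField.le_normalClosure (IntermediateField.adjoin k S))
      (IntermediateField.subset_adjoin k S hx)
  have hres : ∀ (s : Ω ≃ₐ[k] Ω) (x : N), ((AlgEquiv.restrictNormalHom N s x : N) : Ω) = s x :=
    fun s x => s.restrictNormal_commutes N x
  have hsur := AlgEquiv.restrictNormalHom_surjective (F := k) (K₁ := N) Ω
  choose g hg using hsur
  -- u depends only on the restriction
  have hdep : ∀ s t : Ω ≃ₐ[k] Ω, AlgEquiv.restrictNormalHom N s = AlgEquiv.restrictNormalHom N t →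
      u s = u t := by
    intro s t hst
    have h1 : u (t⁻¹ * s) = 1 := by
      apply hS2
      intro x hx
      have h2 : AlgEquiv.restrictNormalHom N (t⁻¹ * s) = 1 := by
        rw [map_mul, map_inv, hst, inv_mul_cancel]
      have h3 := hres (t⁻¹ * s) ⟨x, hSN x hx⟩
      rw [h2] at h3
      exact h3.symm
    have h2 := hcoc t (t⁻¹ * s)
    rw [h1, map_one, mul_one, mul_inv_cancel_left] at h2
    exact h2
  let f : (N ≃ₐ[k] N) → Nˣ := fun σ => Units.mk0 ⟨u (g σ), hSN _ (hS1 _)⟩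
    (fun h => hu0 (g σ) (congrArg Subtype.val h))
  have hf : groupCohomology.IsMulCocycle₁ f := by
    intro σ τ
    apply Units.ext
    apply Subtype.ext
    show u (g (σ * τ)) = ((σ ⟨u (g τ), hSN _ (hS1 _)⟩ : N) : Ω) * u (g σ)
    rw [hdep (g (σ * τ)) (g σ * g τ) (by rw [hg, map_mul, hg, hg]), hcoc, mul_comm]
    congr 1
    have h1 := hres (g σ) ⟨u (g τ), hSN _ (hS1 _)⟩
    rw [hg] at h1
    exact h1.symm
  obtain ⟨β, hβ⟩ := groupCohomology.isMulCoboundary₁_of_isMulCocycle₁_of_aut_to_units f hf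
  refine ⟨((β : N) : Ω), ?_, fun s => ?_⟩
  · intro h
    exact β.ne_zero (Subtype.ext h)
  · have h1 := hβ (AlgEquiv.restrictNormalHom N s)
    rw [div_eq_iff_eq_mul] at h1
    have h2 : (((AlgEquiv.restrictNormalHom N s) • β : Nˣ) : N) = AlgEquiv.restrictNormalHom N s (β : N) := rfl
    have h3 := congrArg (fun z : Nˣ => ((z : N) : Ω)) h1
    simp only [h2] at h3
    rw [hres] at h3
    rw [h3]
    show u (g (AlgEquiv.restrictNormalHom N s)) * ((β : N) : Ω) = _
    rw [hdep (g (AlgEquiv.restrictNormalHom N s)) s (hg _)]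

variable {Ω : Type} [Field Ω] [DecidableEq Ω] [Algebra F Ω] [IsAlgClosure F Ω]

/-- Chunk KU1 (M). Kummer generators by Hilbert 90. E₁ = the field of C.cont; zeta = a primitive l-th root of unity; N = normal closure over F of the compositum of
E₁, L, F(zeta): finite Galois over F, N ≥ L. For n in N.fixingSubgroup: c n = 0; so c (s n) = c s. For s in L.fixingSubgroup put u s = e (c s) T: an l-th root of
unity (he.root, C.val), in N. u (s t) = e (c s + ac s (c t)) T = u s * e (ac s (c t)) (ac s T) = u s * s (u t), because ac s T = T (IsTF), he.add_left, he.act. So u induces a multiplicative 1-cocycle of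
Gal(N/L) (elements of Gal(N/L) lift to L.fixingSubgroup, u does not depend on the lift) with values in N^*. Hilbert 90
(groupCohomology.isMulCoboundary₁_of_isMulCocycle₁_of_aut_to_units, or Dedekind independence by hand) gives y in N^* with s y = u s * y. -/
theorem exists_kum {π : O} {l : ℕ} {c : (Ω ≃ₐ[F] Ω) → P27 Ω} (C : Cl π l c) {e : P27 Ω → P27 Ω → Ω}
    (he : Pairing π l e) {L : IntermediateField F Ω} (hL : IsTF π L) {T : P27 Ω} (hT : T ∈ Tor π Ω) :
    ∃ y : Ω, Kum L e c T y := by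
  classical
  obtain ⟨E₁, hE₁, hc₁⟩ := C.cont
  have hNF : Normal F Ω := IsAlgClosure.normal F Ω
  have hNL : Normal L Ω := Normal.tower_top_of_normal F L Ω
  let b := Module.finBasis F E₁
  let S : Set Ω := Set.range (fun i => ((b i : E₁) : Ω)) ∪ {x : Ω | x ^ l = 1}
  have hl0 : 0 < l := C.hl.pos
  have hfr : {x : Ω | x ^ l = 1}.Finite := by
    have h1 := (Polynomial.nthRoots l (1 : Ω)).toFinset.finite_toSet
    refine h1.subset fun x hx => ?_
    rw [Finset.mem_coe, Multiset.mem_toFinset, Polynomial.mem_nthRoots hl0]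
    exact hx
  have hSf : Finite S := ((Set.finite_range _).union hfr).to_subtype
  -- the inclusion of the automorphism groups
  have hmem : ∀ s : Ω ≃ₐ[L] Ω, s.restrictScalars F ∈ L.fixingSubgroup := by
    intro s
    rw [IntermediateField.mem_fixingSubgroup_iff]
    intro x hx
    exact s.commutes ⟨x, hx⟩
  have hacT : ∀ s : Ω ≃ₐ[L] Ω, ac W27 (s.restrictScalars F) T = T := fun s =>
    (hL.2 _).1 (hmem s) T hT
  have h0 : ∀ s : Ω ≃ₐ[L] Ω, e (c (s.restrictScalars F)) T ≠ 0 := by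
    intro s h0
    have h1 := he.root _ (C.val (s.restrictScalars F)) T hT
    rw [h0, zero_pow hl0.ne'] at h1
    exact zero_ne_one h1
  have hcoc : ∀ s t : Ω ≃ₐ[L] Ω, e (c ((s * t).restrictScalars F)) T =
      e (c (s.restrictScalars F)) T * s (e (c (t.restrictScalars F)) T) := by
    intro s t
    have h1 : (s * t).restrictScalars F = s.restrictScalars F * t.restrictScalars F := rfl
    rw [h1, C.mul, he.add_left _ (C.val _) _ (ac_mem _ (C.val _)) T hT]
    congr 1
    have h2 := he.act (s.restrictScalars F) _ (C.val (t.restrictScalars F)) T hT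
    rw [hacT] at h2
    exact h2.symm
  have htriv : ∀ n : Ω ≃ₐ[L] Ω, (∀ x ∈ S, n x = x) → e (c (n.restrictScalars F)) T = 1 := by
    intro n hn
    have h1 : n.restrictScalars F ∈ E₁.fixingSubgroup := by
      rw [IntermediateField.mem_fixingSubgroup_iff]
      intro x hx
      have h2 := b.sum_repr ⟨x, hx⟩
      have h3 : x = ∑ i, (b.repr ⟨x, hx⟩ i) • ((b i : E₁) : Ω) := by
        have h4 := congrArg (fun z : E₁ => (z : Ω)) h2
        refine h4.symm.trans ?_
        push_cast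
        rfl
      rw [h3, map_sum]
      refine Finset.sum_congr rfl fun i _ => ?_
      rw [map_smul]
      congr 1
      exact hn _ (Or.inl ⟨i, rfl⟩)
    have h2 := hc₁ _ h1
    rw [h2]
    have h3 := he.add_left 0 (zero_mem _) 0 (zero_mem _) T hT
    rw [add_zero] at h3
    have h4 := he.root 0 (zero_mem _) T hT
    have h5 : e 0 T ≠ 0 := by
      intro h0
      rw [h0, zero_pow hl0.ne'] at h4
      exact zero_ne_one h4
    exact (mul_eq_left₀ h5).1 h3.symm
  obtain ⟨y, hy0, hy⟩ := ku1_h90 (k := L) (Ω := Ω) (fun s => e (c (s.restrictScalars F)) T) h0 hcoc S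
    (fun s => Or.inr (he.root _ (C.val _) T hT)) htriv
  refine ⟨y, hy0, fun s hs => ?_⟩
  exact hy (IntermediateField.fixingSubgroupEquiv L ⟨s, hs⟩)

end H13S
end

-- from Lib.H13Z.Defs
section

/-!
# H13Z: definitions

The algebraic half of the exact criterion for every prime l at least 5 (problem MP_f50388): a prime v of F with
l | #E(k_v) that ramifies in a Galois extension K/F of l-power degree gives a nonzero element of the l-Selmer group
of E over K. See PROOF.md.
-/

open NumberField IsDedekindDomain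

namespace H13Z

open H55P H28G H55B H13S

variable {Ω : Type} [Field Ω] [DecidableEq Ω] [Algebra F Ω]

/-- pi is a primary prime element of O above the prime number l at least 5. -/
structure Dat (π : O) (l : ℕ) : Prop where
  hl : l.Prime
  five : 5 ≤ l
  pr : Prime π
  prim : Prim π
  dvd : π ∣ (l : O)

/-- c is a continuous cocycle on the group of B with values in the points killed by the conjugate of pi. -/
structure Cc (π : O) (B : IntermediateField F Ω) (c : (Ω ≃ₐ[F] Ω) → P27 Ω) : Prop where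
  mul : ∀ s ∈ B.fixingSubgroup, ∀ t ∈ B.fixingSubgroup, c (s * t) = c s + ac W27 s (c t)
  cont : ∃ N : IntermediateField F Ω, FiniteDimensional F N ∧
    ∀ s ∈ B.fixingSubgroup, s ∈ N.fixingSubgroup → c s = 0
  val : ∀ s ∈ B.fixingSubgroup, c s ∈ Tor (cj π) Ω

/-- L is the field generated over B by the points killed by pi. -/
structure IsTB (π : O) (B L : IntermediateField F Ω) : Prop where
  fin : FiniteDimensional F L
  le : B ≤ L
  fix : ∀ s : Ω ≃ₐ[F] Ω, s ∈ L.fixingSubgroup ↔ s ∈ B.fixingSubgroup ∧ ∀ T ∈ Tor π Ω, ac W27 s T = T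

theorem fix_bot (s : Ω ≃ₐ[F] Ω) : s ∈ (⊥ : IntermediateField F Ω).fixingSubgroup := by
  rw [IntermediateField.fixingSubgroup_bot]
  exact Subgroup.mem_top s

theorem IsTB.mono {π : O} {B L : IntermediateField F Ω} (h : IsTB π B L) {s : Ω ≃ₐ[F] Ω}
    (hs : s ∈ L.fixingSubgroup) : s ∈ B.fixingSubgroup := ((h.fix s).1 hs).1

theorem Cc.one {π : O} {B : IntermediateField F Ω} {c : (Ω ≃ₐ[F] Ω) → P27 Ω} (h : Cc π B c) : c 1 = 0 := by
  have h1 := h.mul 1 (Subgroup.one_mem _) 1 (Subgroup.one_mem _)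
  rw [mul_one, ac_one] at h1
  exact left_eq_add.mp h1

theorem Cc.inv {π : O} {B : IntermediateField F Ω} {c : (Ω ≃ₐ[F] Ω) → P27 Ω} (h : Cc π B c)
    {s : Ω ≃ₐ[F] Ω} (hs : s ∈ B.fixingSubgroup) : ac W27 s (c s⁻¹) = -c s := by
  have h1 := h.mul s hs s⁻¹ (Subgroup.inv_mem _ hs)
  rw [mul_inv_cancel, h.one] at h1
  exact (neg_eq_of_add_eq_zero_right h1.symm).symm

/-- The cocycle b c, b in O. -/
theorem Cc.act {π : O} {B : IntermediateField F Ω} {c : (Ω ≃ₐ[F] Ω) → P27 Ω} (h : Cc π B c) (b : O) :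
    Cc π B fun s => H28G.act b (c s) := by
  refine ⟨fun s hs t ht => ?_, ?_, fun s hs => ?_⟩
  · rw [h.mul s hs t ht, map_add, ac_act]
  · obtain ⟨N, hN, h1⟩ := h.cont
    refine ⟨N, hN, fun s hs hsN => ?_⟩
    rw [h1 s hs hsN, map_zero]
  · have h1 := h.val s hs
    rw [mem_Tor] at h1 ⊢
    rw [← act_mul, mul_comm, act_mul, h1, map_zero]

end H13Z
end

-- from Lib.H35T.L13
section

open NumberField IsDedekindDomain

namespace H35T

open H55B

/-! Chunk L13 (S): good primes. norm_good: O/v is a finite field with absNorm v elements, of odd characteristic, in which -1 is not a square, so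
absNorm v = 3 mod 4 (FiniteField.isSquare_neg_one_iff; H0_finite). eta_good: absNorm v = Nm (gen v) (absNorm_gen), chi4 = -1; kap (gen v)
is a power of om. fac_unit: x = gen v - eta (gen v) is congruent to 1 + 1 = 2 modulo om - 1 (gen v is 1 mod 3), so om - 1
does not divide x (x and -1... 2 - 3 = -1) and Nm x is prime to 3 (Nm x = x cj x, om - 1 prime, cj (om - 1) associated to om - 1); val_e_unit. -/

theorem norm_good {v : HeightOneSpectrum O} (hv : Good v) : Ideal.absNorm v.asIdeal % 4 = 3 := by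
  classical
  have hfin := H0_finite v
  letI := Ideal.Quotient.field v.asIdeal
  letI := Fintype.ofFinite (O ⧸ v.asIdeal)
  have h1 : ¬ IsSquare (-1 : O ⧸ v.asIdeal) := by
    rintro ⟨y, hy⟩
    obtain ⟨x, rfl⟩ := Ideal.Quotient.mk_surjective y
    apply hv.2.2
    refine ⟨x, ?_⟩
    rw [← Ideal.Quotient.eq_zero_iff_mem, map_add, map_pow, map_one, pow_two, ← hy]
    ring
  rw [FiniteField.isSquare_neg_one_iff, not_not] at h1
  have h2 : Ideal.absNorm v.asIdeal = Fintype.card (O ⧸ v.asIdeal) := by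
    rw [Ideal.absNorm_apply, Submodule.cardQuot_apply, Nat.card_eq_fintype_card]
  rw [h2]
  exact h1

theorem L13_chi {v : HeightOneSpectrum O} (hv : Good v) : ZMod.χ₄ (Nm (gen v) : ZMod 4) = -1 := by
  have h1 := norm_good hv
  rw [absNorm_gen v hv.2.1] at h1
  have h2 : ((Nm (gen v) : ℕ) : ZMod 4) = ((Nm (gen v) % 4 : ℕ) : ZMod 4) := (ZMod.natCast_mod _ 4).symm
  rw [h2, h1]
  decide

theorem L13_odd {v : HeightOneSpectrum O} (hv : Good v) : ¬ (2 : O) ∣ gen v := by
  intro h
  have h1 := norm_good hv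
  rw [absNorm_gen v hv.2.1] at h1
  obtain ⟨c, hc⟩ := h
  have h2 : (Nm (2 : O) : ℤ) = 4 := by
    have h3 : (2 : O) = ((2 : ℤ) : O) + ((0 : ℤ) : O) * om := by push_cast; ring
    rw [h3, Nm_repr]
    norm_num
  have h3 : Nm (2 : O) = 4 := by exact_mod_cast h2
  rw [hc, Nm_mul, h3] at h1
  omega

theorem eta_good {v : HeightOneSpectrum O} (hv : Good v) : ∃ j : ℕ, eta (gen v) = -om ^ j := by
  have h1 := L13_chi hv
  have h2 : ∃ j : ℕ, kap (gen v) = om ^ j := by
    rcases (kap_spec (gen v)).2 with h | h | h | h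
    · exact absurd ((kap_zero _).1 h) (L13_odd hv)
    · exact ⟨0, by rw [h, pow_zero]⟩
    · exact ⟨1, by rw [h, pow_one]⟩
    · exact ⟨2, h⟩
  obtain ⟨j, hj⟩ := h2
  refine ⟨j, ?_⟩
  unfold eta
  rw [h1, hj]
  push_cast
  ring

theorem L13_Nm (c d : ℤ) (j : ℕ) : ¬ 3 ∣ Nm (1 + 3 * ((c : O) + d * om) + om ^ j) := by
  have h3 : om ^ j = 1 ∨ om ^ j = om ∨ om ^ j = om ^ 2 := by
    have e1 : om ^ j = om ^ (j % 3) := by
      conv_lhs => rw [← Nat.div_add_mod j 3]
      rw [pow_add, pow_mul, L5_om_cube, one_pow, one_mul]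
    have h4 : j % 3 = 0 ∨ j % 3 = 1 ∨ j % 3 = 2 := by omega
    rw [e1]
    rcases h4 with h4 | h4 | h4 <;> rw [h4]
    · exact Or.inl (pow_zero _)
    · exact Or.inr (Or.inl (pow_one _))
    · exact Or.inr (Or.inr rfl)
  have key : ∀ a b : ℤ, (a + b) % 3 = 2 → ¬ 3 ∣ Nm ((a : O) + b * om) := by
    intro a b hab hd
    have h5 := Nm_repr a b
    have h6 : ((3 : ℕ) : ℤ) ∣ (Nm ((a : O) + b * om) : ℤ) := by exact_mod_cast hd
    rw [h5] at h6
    obtain ⟨k, hk⟩ := h6
    obtain ⟨m, hm⟩ : ∃ m : ℤ, a + b = 3 * m + 2 := ⟨(a + b) / 3, by omega⟩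
    have h7 : (3 * m + 2) ^ 2 - 3 * (a * b) = 3 * k := by
      rw [← hm]
      push_cast at hk
      linear_combination hk
    have h8 : (1 : ℤ) = 3 * (k + a * b - 3 * m ^ 2 - 4 * m - 1) := by linear_combination h7
    omega
  rcases h3 with h | h | h <;> rw [h]
  · have e1 : 1 + 3 * ((c : O) + d * om) + 1 = ((2 + 3 * c : ℤ) : O) + ((3 * d : ℤ) : O) * om := by
      push_cast; ring
    rw [e1]
    exact key _ _ (by omega)
  · have e1 : 1 + 3 * ((c : O) + d * om) + om = ((1 + 3 * c : ℤ) : O) + ((1 + 3 * d : ℤ) : O) * om := by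
      push_cast; ring
    rw [e1]
    exact key _ _ (by omega)
  · have e1 : 1 + 3 * ((c : O) + d * om) + om ^ 2 =
        ((3 * c : ℤ) : O) + ((-1 + 3 * d : ℤ) : O) * om := by
      rw [L5_om_sq]; push_cast; ring
    rw [e1]
    exact key _ _ (by omega)

theorem fac_unit {v : HeightOneSpectrum O} (hv : Good v) : Unit3 (e (gen v) - e (eta (gen v))) := by
  intro A h3
  obtain ⟨j, hj⟩ := eta_good hv
  have hp := (gen_spec v hv.2.1).2
  obtain ⟨y, hy⟩ := hp
  obtain ⟨c, d, rfl⟩ := exists_repr y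
  have h1 : gen v = 1 + 3 * ((c : O) + d * om) := by linear_combination hy
  rw [← map_sub, hj, sub_neg_eq_add, h1]
  exact val_e_unit A h3 _ (L13_Nm c d j)

end H35T
end

-- from Lib.H55K.W4C
section

set_option autoImplicit false

/-! # H55K, part W: the number of ideals of given degree -/

open Polynomial

open scoped Polynomial.Bivariate

namespace H55K.WZ

open WeierstrassCurve (Affine)

variable {k : Type} [Field k] (W : Affine k)

/-- the affine points -/
noncomputable def w4c_equiv (hΔ : W.Δ ≠ 0) :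
    W.Point ≃ Option {p : k × k // W.Equation p.1 p.2} where
  toFun P := match P with
    | .zero => none
    | .some x y h => some ⟨(x, y), h.1⟩
  invFun o := match o with
    | none => .zero
    | some p => .some p.1.1 p.1.2 ((Affine.equation_iff_nonsingular_of_Δ_ne_zero hΔ).1 p.2)
  left_inv P := by
    cases P with
    | zero => rfl
    | some x y h => rfl
  right_inv o := by
    cases o with
    | none => rfl
    | some p => rfl

theorem w4c_card (hΔ : W.Δ ≠ 0) [Finite k] :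
    Nat.card W.Point = Nat.card {p : k × k // W.Equation p.1 p.2} + 1 := by
  rw [Nat.card_congr (w4c_equiv W hΔ), Finite.card_option]

theorem idn_two (hΔ : W.Δ ≠ 0) [Finite k] (n : ℕ) (hn : 2 ≤ n) : idn W n = Nat.card W.Point * Nat.card k ^ (n - 1) := by
  classical
  set E := {p : k × k // W.Equation p.1 p.2} with hE
  haveI : Fintype E := Fintype.ofFinite E
  have hq : 0 < Nat.card k ^ (n - 1) := pow_pos Nat.card_pos _
  let A := {I : Ideal W.CoordinateRing // ∃ f, f ≠ 0 ∧ nd W f = n ∧ I = Ideal.span {f}}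
  let B : E → Type := fun e => {I : Ideal W.CoordinateRing // I ≠ ⊥ ∧ dg W I = n ∧
    ∃ f, f ≠ 0 ∧ I * PI W e.1.1 e.1.2 = Ideal.span {f}}
  have hA : Nat.card A = Nat.card k ^ (n - 1) := card_pr W n hn
  have hB : ∀ e, Nat.card (B e) = Nat.card k ^ (n - 1) := fun e =>
    card_prP W hΔ e.2 n (by omega)
  haveI fA : Finite A := Nat.finite_of_card_ne_zero (by rw [hA]; exact hq.ne')
  haveI fB : ∀ e, Finite (B e) := fun e => Nat.finite_of_card_ne_zero (by rw [hB e]; exact hq.ne')
  let φ : A ⊕ (Σ e, B e) → {I : Ideal W.CoordinateRing // I ≠ ⊥ ∧ dg W I = n} := fun s =>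
    match s with
    | Sum.inl a => ⟨a.1, by
        obtain ⟨f, hf, hfn, hI⟩ := a.2
        rw [hI]
        exact ⟨fun h => hf (Ideal.span_singleton_eq_bot.1 h), by rw [dg_span W hf, hfn]⟩⟩
    | Sum.inr s => ⟨s.2.1, s.2.2.1, s.2.2.2.1⟩
  have hφ : Function.Bijective φ := by
    constructor
    · rintro (a | ⟨e, b⟩) (a' | ⟨e', b'⟩) h
      · have h1 : (φ (Sum.inl a)).1 = (φ (Sum.inl a')).1 := congrArg Subtype.val h
        have h2 : a = a' := Subtype.ext h1
        rw [h2]
      · exfalso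
        have h1 : a.1 = b'.1 := congrArg Subtype.val h
        obtain ⟨f, hf, _, hI⟩ := a.2
        obtain ⟨g, hg, hJ⟩ := b'.2.2.2
        rw [← h1, hI] at hJ
        exact pr_PI W hΔ e'.2 hf hg hJ
      · exfalso
        have h1 : b.1 = a'.1 := congrArg Subtype.val h
        obtain ⟨f, hf, _, hI⟩ := a'.2
        obtain ⟨g, hg, hJ⟩ := b.2.2.2
        rw [h1, hI] at hJ
        exact pr_PI W hΔ e.2 hf hg hJ
      · have h1 : b.1 = b'.1 := congrArg Subtype.val h
        obtain ⟨f, hf, hI⟩ := b.2.2.2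
        obtain ⟨g, hg, hJ⟩ := b'.2.2.2
        rw [← h1] at hJ
        have h2 := pr_uniq W hΔ e.2 e'.2 hf hg hI hJ
        have h3 : e = e' := Subtype.ext (Prod.ext h2.1 h2.2)
        subst h3
        rw [Subtype.ext h1]
    · rintro ⟨I, hI, hIn⟩
      obtain ⟨f, hf, h1 | ⟨x, y, hxy, h1⟩⟩ := exists_comp W hΔ hI
      · refine ⟨Sum.inl ⟨I, f, hf, ?_, h1⟩, rfl⟩
        rw [← hIn, h1, dg_span W hf]
      · exact ⟨Sum.inr ⟨⟨(x, y), hxy⟩, ⟨I, hI, hIn, f, hf, h1⟩⟩, rfl⟩
  have h1 : idn W n = Nat.card (A ⊕ (Σ e, B e)) := (Nat.card_congr (Equiv.ofBijective φ hφ)).symm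
  rw [h1, Nat.card_sum, Nat.card_sigma, hA, w4c_card W hΔ]
  have h2 : ∑ e, Nat.card (B e) = Nat.card E * Nat.card k ^ (n - 1) := by
    rw [Finset.sum_congr rfl fun e _ => hB e, Finset.sum_const, smul_eq_mul, Finset.card_univ,
      ← Nat.card_eq_fintype_card (α := E)]
  rw [h2]
  ring

theorem w4c_PI_inj (hΔ : W.Δ ≠ 0) {x y x' y' : k} (h : W.Equation x y) (h' : W.Equation x' y')
    (hP : PI W x y = PI W x' y') : x = x' ∧ y = y' := by
  obtain ⟨f, hf, h1 | ⟨a, b, hab, h1⟩⟩ := exists_comp W hΔ (dg_PI W h).1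
  · exfalso
    refine pr_PI W hΔ h (f := 1) (g := f) one_ne_zero hf ?_
    rw [Ideal.span_singleton_one, Ideal.top_mul, h1]
  · have h2 : PI W a b * PI W x y = Ideal.span {f} := by rw [mul_comm, h1]
    have h3 : PI W a b * PI W x' y' = Ideal.span {f} := by rw [← hP, h2]
    exact pr_uniq W hΔ h h' hf hf h2 h3

theorem idn_one (hΔ : W.Δ ≠ 0) [Finite k] : idn W 1 + 1 = Nat.card W.Point := by
  rw [w4c_card W hΔ]
  congr 1
  let φ : {p : k × k // W.Equation p.1 p.2} →
      {I : Ideal W.CoordinateRing // I ≠ ⊥ ∧ dg W I = 1} := fun e =>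
    ⟨PI W e.1.1 e.1.2, dg_PI W e.2⟩
  have hφ : Function.Bijective φ := by
    constructor
    · intro e e' h
      have h1 : PI W e.1.1 e.1.2 = PI W e'.1.1 e'.1.2 := congrArg Subtype.val h
      have h2 := w4c_PI_inj W hΔ e.2 e'.2 h1
      exact Subtype.ext (Prod.ext h2.1 h2.2)
    · rintro ⟨I, hI, hI1⟩
      obtain ⟨x, y, hxy, h1⟩ := PI_of_dg W hI hI1
      exact ⟨⟨(x, y), hxy⟩, Subtype.ext h1.symm⟩
  exact (Nat.card_congr (Equiv.ofBijective φ hφ)).symm

theorem idn_zero : idn W 0 = 1 := by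
  unfold idn
  have h0 : (⊤ : Ideal W.CoordinateRing) ≠ ⊥ := top_ne_bot
  haveI : Unique {I : Ideal W.CoordinateRing // I ≠ ⊥ ∧ dg W I = 0} :=
    { default := ⟨⊤, h0, (dg_zero W h0).2 rfl⟩
      uniq := fun I => Subtype.ext ((dg_zero W I.2.1).1 I.2.2) }
  exact Nat.card_unique

end H55K.WZ
end

-- from Lib.H55K.W6A
section

/-! # H55K, part W: the logarithmic derivative of the zeta function -/

open Polynomial

open scoped Polynomial.Bivariate

namespace H55K.WZ

open WeierstrassCurve (Affine)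

variable {k : Type} [Field k] (W : Affine k)

theorem w6a_top : dg W ⊤ = 0 := (dg_zero W (bot_lt_top.ne' : (⊤ : Ideal W.CoordinateRing) ≠ ⊥)).2 rfl

theorem w6a_pow (hΔ : W.Δ ≠ 0) {P : Ideal W.CoordinateRing} (hP : P ≠ ⊥) (j : ℕ) :
    P ^ j ≠ ⊥ ∧ dg W (P ^ j) = j * dg W P := by
  induction j with
  | zero =>
    rw [pow_zero, Ideal.one_eq_top, zero_mul]
    exact ⟨bot_lt_top.ne', w6a_top W⟩
  | succ j ih =>
    rw [pow_succ]
    refine ⟨?_, ?_⟩
    · intro h
      rcases Ideal.mul_eq_bot.1 h with h1 | h1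
      · exact ih.1 h1
      · exact hP h1
    · rw [dg_mul W hΔ ih.1 hP, ih.2]
      ring

open Classical in
theorem w6a_ind (hΔ : W.Δ ≠ 0) {n : ℕ} (T : Finset (Ideal W.CoordinateRing)) (hT : ∀ P ∈ T, P.IsPrime ∧ P ≠ ⊥)
    (hT' : ∀ P : Ideal W.CoordinateRing, P.IsPrime → P ≠ ⊥ → dg W P ≤ n → P ∈ T) (I : Ideal W.CoordinateRing) :
    I ≠ ⊥ → dg W I ≤ n → dg W I = ∑ P ∈ T, dg W P * ((Finset.Icc 1 n).filter (fun j => P ^ j ∣ I)).card := by
  have hDed := dedekind W hΔ
  induction I using UniqueFactorizationMonoid.induction_on_prime with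
  | h₁ => intro h; exact absurd rfl h
  | h₂ I hu =>
    intro _ _
    have hI : I = ⊤ := by
      have h1 := isUnit_iff_eq_one.1 hu
      rwa [Ideal.one_eq_top] at h1
    subst hI
    rw [w6a_top]
    symm
    refine Finset.sum_eq_zero fun P hP => ?_
    have h1 : ((Finset.Icc 1 n).filter (fun j => P ^ j ∣ (⊤ : Ideal W.CoordinateRing))) = ∅ := by
      rw [Finset.filter_eq_empty_iff]
      intro j hj hd
      rw [Finset.mem_Icc] at hj
      have h2 : P ∣ (⊤ : Ideal W.CoordinateRing) := (dvd_pow_self P (by omega)).trans hd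
      have h3 := Ideal.dvd_iff_le.1 h2
      exact (hT P hP).1.ne_top (top_le_iff.1 h3)
    rw [h1, Finset.card_empty, mul_zero]
  | h₃ J Q hJ hQ ih =>
    intro hQJ hn
    have hJ' : J ≠ ⊥ := hJ
    have hQ' : Q ≠ ⊥ := hQ.ne_zero
    have hQp : Q.IsPrime := Ideal.isPrime_of_prime hQ
    have hdg : dg W (Q * J) = dg W Q + dg W J := dg_mul W hΔ hQ' hJ'
    have hQ1 : 1 ≤ dg W Q := by
      by_contra hlt
      have h0 : dg W Q = 0 := by omega
      exact hQp.ne_top ((dg_zero W hQ').1 h0)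
    have ih' := ih hJ' (by omega)
    have hQT : Q ∈ T := hT' Q hQp hQ' (by omega)
    have hne : ∀ P ∈ T.erase Q, ((Finset.Icc 1 n).filter (fun j => P ^ j ∣ Q * J)) =
        ((Finset.Icc 1 n).filter (fun j => P ^ j ∣ J)) := by
      intro P hP
      rw [Finset.mem_erase] at hP
      have hPp : Prime P := Ideal.prime_of_isPrime (hT P hP.2).2 (hT P hP.2).1
      have hPQ : ¬ P ∣ Q := by
        intro h
        exact hP.1 (associated_iff_eq.1 ((hPp.dvd_prime_iff_associated hQ).1 h))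
      refine Finset.filter_congr fun j _ => ?_
      exact ⟨fun h => hPp.pow_dvd_of_dvd_mul_left j hPQ h, fun h => h.mul_left Q⟩
    have hQn : ¬ Q ^ n ∣ J := by
      intro h
      have h1 := (dg_le W hJ' (Ideal.dvd_iff_le.1 h)).1
      rw [(w6a_pow W hΔ hQ' n).2] at h1
      have h2 : n * 1 ≤ n * dg W Q := Nat.mul_le_mul_left n hQ1
      omega
    have heq : ((Finset.Icc 1 n).filter (fun j => Q ^ j ∣ Q * J)).card =
        1 + ((Finset.Icc 1 n).filter (fun j => Q ^ j ∣ J)).card := by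
      have e1 : (Finset.Icc 1 n).filter (fun j => Q ^ j ∣ Q * J) =
          (insert 0 ((Finset.Icc 1 n).filter (fun j => Q ^ j ∣ J))).image Nat.succ := by
        ext j
        simp only [Finset.mem_filter, Finset.mem_image, Finset.mem_insert, Finset.mem_Icc]
        constructor
        · rintro ⟨⟨h1, h2⟩, h3⟩
          obtain ⟨i, rfl⟩ : ∃ i, j = i + 1 := ⟨j - 1, by omega⟩
          rw [pow_succ', mul_dvd_mul_iff_left hQ.ne_zero] at h3
          refine ⟨i, ?_, rfl⟩
          by_cases h4 : i = 0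
          · exact Or.inl h4
          · exact Or.inr ⟨⟨by omega, by omega⟩, h3⟩
        · rintro ⟨i, h1, rfl⟩
          have h3 : Q ^ i ∣ J := by
            rcases h1 with h1 | h1
            · rw [h1, pow_zero]
              exact one_dvd J
            · exact h1.2
          have h4 : i ≠ n := by
            rintro rfl
            exact hQn h3
          have h5 : i ≤ n := by
            rcases h1 with h1 | h1
            · omega
            · exact h1.1.2
          refine ⟨⟨by omega, by omega⟩, ?_⟩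
          rw [Nat.succ_eq_add_one, pow_succ', mul_dvd_mul_iff_left hQ.ne_zero]
          exact h3
      have e2 : (0 : ℕ) ∉ (Finset.Icc 1 n).filter (fun j => Q ^ j ∣ J) := by
        simp
      rw [e1, Finset.card_image_of_injective _ Nat.succ_injective, Finset.card_insert_of_notMem e2, add_comm]
    rw [← Finset.add_sum_erase T _ hQT] at ih' ⊢
    rw [hdg, heq, ih', mul_add, mul_one, add_assoc]
    congr 2
    refine Finset.sum_congr rfl fun P hP => ?_
    rw [hne P hP]

open Classical in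
/-- Chunk W6A (M). Let T be a finite set of primes containing all prime ideals ≠ ⊥ of degree ≤ n. For I ≠ ⊥ with dg I = n: n = sum over P in T of dg P times the number of j in [1, n] with P^j | I. (I is the product of its prime factors, UniqueFactorizationMonoid.normalizedFactors; dg is additive (dg_mul), so dg I is the sum of dg P times the
multiplicity; every prime factor has degree ≤ n (dg_le / additivity) and degree ≥ 1 (dg_zero), multiplicities ≤ n; P^j | I iff j ≤ multiplicity (emultiplicity / count).) -/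
theorem dg_sum (hΔ : W.Δ ≠ 0) {n : ℕ} (T : Finset (Ideal W.CoordinateRing)) (hT : ∀ P ∈ T, P.IsPrime ∧ P ≠ ⊥)
    (hT' : ∀ P : Ideal W.CoordinateRing, P.IsPrime → P ≠ ⊥ → dg W P ≤ n → P ∈ T) {I : Ideal W.CoordinateRing} (hI : I ≠ ⊥)
    (h : dg W I = n) : n = ∑ P ∈ T, dg W P * ((Finset.Icc 1 n).filter (fun j => P ^ j ∣ I)).card := by
  have h1 := w6a_ind W hΔ T hT hT' I hI h.le
  rw [h] at h1
  exact h1

/-- Chunk W6A. The ideals of degree n divisible by P^j are P^j I', dg I' = n - j dg P (dg_mul, cancellation). -/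
theorem card_dvd (hΔ : W.Δ ≠ 0) {P : Ideal W.CoordinateRing} (hP : P ≠ ⊥) (j n : ℕ) :
    Nat.card {I : Ideal W.CoordinateRing // I ≠ ⊥ ∧ dg W I = n ∧ P ^ j ∣ I} =
      if j * dg W P ≤ n then idn W (n - j * dg W P) else 0 := by
  have hDed := dedekind W hΔ
  obtain ⟨hPj, hdP⟩ := w6a_pow W hΔ hP j
  split_ifs with hjn
  · unfold idn
    symm
    refine Nat.card_congr (Equiv.ofBijective (fun I' => ⟨P ^ j * I'.1, ?_, ?_, Dvd.intro _ rfl⟩) ⟨?_, ?_⟩)
    · intro h
      rcases Ideal.mul_eq_bot.1 h with h1 | h1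
      · exact hPj h1
      · exact I'.2.1 h1
    · rw [dg_mul W hΔ hPj I'.2.1, hdP, I'.2.2]
      omega
    · intro A B hAB
      have h1 : P ^ j * A.1 = P ^ j * B.1 := congrArg Subtype.val hAB
      exact Subtype.ext (mul_left_cancel₀ hPj h1)
    · rintro ⟨I, hI, hdI, J, rfl⟩
      have hJ : J ≠ ⊥ := by
        rintro rfl
        exact hI (Ideal.mul_bot _)
      have h1 := dg_mul W hΔ hPj hJ
      rw [hdP, hdI] at h1
      exact ⟨⟨J, hJ, by omega⟩, rfl⟩
  · have hE : IsEmpty {I : Ideal W.CoordinateRing // I ≠ ⊥ ∧ dg W I = n ∧ P ^ j ∣ I} := by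
      refine ⟨?_⟩
      rintro ⟨I, hI, hdI, J, rfl⟩
      have hJ : J ≠ ⊥ := by
        rintro rfl
        exact hI (Ideal.mul_bot _)
      have h1 := dg_mul W hΔ hPj hJ
      rw [hdP, hdI] at h1
      omega
    exact Nat.card_of_isEmpty

end H55K.WZ
end

-- from Lib.H55K.W6B
section

/-! # H55K, part W: the logarithmic derivative of the zeta function -/

open Polynomial

open scoped Polynomial.Bivariate

namespace H55K.WZ

open WeierstrassCurve (Affine)

variable {k : Type} [Field k] (W : Affine k)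

theorem w6b_div (d n : ℕ) (hd : 1 ≤ d) (f : ℕ → ℕ) :
    ∑ j ∈ Finset.Icc 1 n, (if j * d ≤ n then f (n - j * d) else 0) =
      ∑ m ∈ Finset.Icc 1 n, (if d ∣ m then f (n - m) else 0) := by
  rw [← Finset.sum_filter, ← Finset.sum_filter]
  refine Finset.sum_nbij' (fun j => j * d) (fun m => m / d) ?_ ?_ ?_ ?_ ?_
  · intro j hj
    simp only [Finset.mem_filter, Finset.mem_Icc] at hj ⊢
    exact ⟨⟨Nat.mul_pos hj.1.1 hd, hj.2⟩, Dvd.intro_left j rfl⟩
  · intro m hm
    simp only [Finset.mem_filter, Finset.mem_Icc] at hm ⊢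
    obtain ⟨⟨h1, h2⟩, h3⟩ := hm
    have h4 : m / d * d = m := Nat.div_mul_cancel h3
    refine ⟨⟨Nat.div_pos (Nat.le_of_dvd h1 h3) hd, le_trans (Nat.div_le_self m d) h2⟩, ?_⟩
    rw [h4]
    exact h2
  · intro j _
    exact Nat.mul_div_cancel j hd
  · intro m hm
    simp only [Finset.mem_filter, Finset.mem_Icc] at hm
    exact Nat.div_mul_cancel hm.2
  · intro j _
    rfl

open Classical in
theorem w6b_prs {n d : ℕ} (hd : d ≤ n) (T : Finset (Ideal W.CoordinateRing))
    (hT : ∀ P, P ∈ T ↔ P.IsPrime ∧ P ≠ ⊥ ∧ dg W P ≤ n) :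
    pn W d = (T.filter (fun P => dg W P = d)).card := by
  unfold pn
  have h : prs W d = ↑(T.filter (fun P => dg W P = d)) := by
    ext P
    simp only [prs, Set.mem_setOf_eq, Finset.coe_filter, hT]
    constructor
    · rintro ⟨h1, h2, h3⟩
      exact ⟨⟨h1, h2, by omega⟩, h3⟩
    · rintro ⟨⟨h1, h2, _⟩, h3⟩
      exact ⟨h1, h2, h3⟩
  rw [h, Set.ncard_coe_finset]

/-- Chunk W6B (M). Sum dg_sum over the ideals I of degree n (finite set, fin_id; T = the primes of degree ≤ n, finite by fin_id): n idn n = sum over P in T, j in [1, n] of dg P #{I of degree n, P^j | I} = sum over P, j with j dg P ≤ n of dg P idn (n - j dg P) (card_dvd); collect the terms with j dg P = m: the primes P with dg P | m (dg P ≥ 1, dg_zero; j ≤ n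
automatic), number pn d for each divisor d of m. (Finset.sum_comm, Finset.sum_fiberwise.) -/
theorem recur (hΔ : W.Δ ≠ 0) [Finite k] (n : ℕ) :
    n * idn W n = ∑ m ∈ Finset.Icc 1 n, (∑ d ∈ m.divisors, d * pn W d) * idn W (n - m) := by
  classical
  have hfT : {P : Ideal W.CoordinateRing | P.IsPrime ∧ P ≠ ⊥ ∧ dg W P ≤ n}.Finite := by
    have h1 : (⋃ d ∈ Finset.range (n + 1), {I : Ideal W.CoordinateRing | I ≠ ⊥ ∧ dg W I = d}).Finite :=
      (Finset.range (n + 1)).finite_toSet.biUnion fun d _ => fin_id W d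
    refine h1.subset ?_
    rintro P ⟨_, h2, h3⟩
    simp only [Set.mem_iUnion, Finset.mem_range]
    exact ⟨dg W P, by omega, h2, rfl⟩
  obtain ⟨T, hT⟩ : ∃ T : Finset (Ideal W.CoordinateRing), ∀ P, P ∈ T ↔ P.IsPrime ∧ P ≠ ⊥ ∧ dg W P ≤ n :=
    ⟨hfT.toFinset, fun P => by rw [Set.Finite.mem_toFinset]; rfl⟩
  obtain ⟨S, hS⟩ : ∃ S : Finset (Ideal W.CoordinateRing), ∀ I, I ∈ S ↔ I ≠ ⊥ ∧ dg W I = n :=
    ⟨(fin_id W n).toFinset, fun P => by rw [Set.Finite.mem_toFinset]; rfl⟩
  have hcS : ∀ (p : Ideal W.CoordinateRing → Prop),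
      Nat.card {I : Ideal W.CoordinateRing // I ≠ ⊥ ∧ dg W I = n ∧ p I} = (S.filter p).card := by
    intro p
    refine Nat.subtype_card _ fun I => ?_
    rw [Finset.mem_filter, hS, and_assoc]
  have hidn : idn W n = S.card := by
    refine Nat.subtype_card _ fun I => hS I
  have hdg : ∀ P ∈ T, 1 ≤ dg W P := by
    intro P hP
    rw [hT] at hP
    by_contra hlt
    have h0 : dg W P = 0 := by omega
    exact hP.1.ne_top ((dg_zero W hP.2.1).1 h0)
  have hI : ∀ I ∈ S, n = ∑ P ∈ T, dg W P * ((Finset.Icc 1 n).filter (fun j => P ^ j ∣ I)).card := by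
    intro I hI
    rw [hS] at hI
    exact dg_sum W hΔ T (fun P hP => ⟨((hT P).1 hP).1, ((hT P).1 hP).2.1⟩)
      (fun P h1 h2 h3 => (hT P).2 ⟨h1, h2, h3⟩) hI.1 hI.2
  have hL : n * idn W n = ∑ P ∈ T, dg W P * ∑ j ∈ Finset.Icc 1 n,
      (if j * dg W P ≤ n then idn W (n - j * dg W P) else 0) := by
    have e1 : n * idn W n = ∑ I ∈ S, n := by
      rw [hidn, Finset.sum_const, smul_eq_mul, mul_comm]
    have e2 : ∑ I ∈ S, n = ∑ I ∈ S, ∑ P ∈ T, dg W P * ((Finset.Icc 1 n).filter (fun j => P ^ j ∣ I)).card :=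
      Finset.sum_congr rfl hI
    rw [e1, e2, Finset.sum_comm]
    refine Finset.sum_congr rfl fun P hP => ?_
    rw [← Finset.mul_sum]
    congr 1
    have e3 : ∀ I, ((Finset.Icc 1 n).filter (fun j => P ^ j ∣ I)).card =
        ∑ j ∈ Finset.Icc 1 n, if P ^ j ∣ I then 1 else 0 := fun I => Finset.card_filter _ _
    simp only [e3]
    rw [Finset.sum_comm]
    refine Finset.sum_congr rfl fun j _ => ?_
    rw [← Finset.card_filter, ← hcS (fun I => P ^ j ∣ I)]
    exact card_dvd W hΔ ((hT P).1 hP).2.1 j n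
  have hR : ∀ m ∈ Finset.Icc 1 n, (∑ d ∈ m.divisors, d * pn W d) =
      ∑ P ∈ T, if dg W P ∣ m then dg W P else 0 := by
    intro m hm
    rw [Finset.mem_Icc] at hm
    rw [← Finset.sum_filter]
    have hmap : ∀ P ∈ T.filter (fun P => dg W P ∣ m), dg W P ∈ m.divisors := by
      intro P hP
      rw [Finset.mem_filter] at hP
      rw [Nat.mem_divisors]
      exact ⟨hP.2, by omega⟩
    rw [← Finset.sum_fiberwise_of_maps_to hmap]
    refine Finset.sum_congr rfl fun d hd => ?_
    rw [Nat.mem_divisors] at hd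
    have hdn : d ≤ n := le_trans (Nat.le_of_dvd hm.1 hd.1) hm.2
    rw [w6b_prs W hdn T hT]
    have hf : (T.filter (fun P => dg W P ∣ m)).filter (fun P => dg W P = d) =
        T.filter (fun P => dg W P = d) := by
      ext P
      simp only [Finset.mem_filter]
      constructor
      · rintro ⟨⟨h1, _⟩, h3⟩
        exact ⟨h1, h3⟩
      · rintro ⟨h1, h3⟩
        exact ⟨⟨h1, h3 ▸ hd.1⟩, h3⟩
    rw [hf, Finset.sum_congr rfl (g := fun _ => d) (fun P hP => (Finset.mem_filter.1 hP).2),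
      Finset.sum_const, smul_eq_mul, mul_comm]
  rw [hL, Finset.sum_congr rfl (g := fun m => ∑ P ∈ T, dg W P * (if dg W P ∣ m then idn W (n - m) else 0))]
  · rw [Finset.sum_comm]
    refine Finset.sum_congr rfl fun P hP => ?_
    rw [w6b_div (dg W P) n (hdg P hP) (idn W), Finset.mul_sum]
  · intro m hm
    rw [hR m hm, Finset.sum_mul]
    refine Finset.sum_congr rfl fun P _ => ?_
    split_ifs
    · rfl
    · simp

end H55K.WZ
end

-- from Lib.H55K.WM
section

/-! # H55K, part W: the number of points of an elliptic curve over the extensions of a finite field -/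

namespace H55K

open WZ

/-- THE NUMBER OF POINTS OVER AN EXTENSION (Artin, Hasse, F. K. Schmidt). W is an elliptic curve over a finite field k, α and β are the complex numbers with
α + β = #k + 1 - #W(k) and α β = #k. Then #W(K) = #K + 1 - α^n - β^n for every extension K of degree n. -/
theorem weil {k K : Type} [Field k] [Finite k] [Field K] [Finite K] [Algebra k K] (W : WeierstrassCurve k) (hΔ : W.Δ ≠ 0)
    (α β : ℂ) (h1 : α + β = (Nat.card k : ℂ) + 1 - (Nat.card W.toAffine.Point : ℂ)) (h2 : α * β = (Nat.card k : ℂ)) :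
    (Nat.card (WeierstrassCurve.baseChange W K).toAffine.Point : ℂ) =
      (Nat.card K : ℂ) + 1 - α ^ Module.finrank k K - β ^ Module.finrank k K := by
  have hfin : Module.Finite k K := Module.Finite.of_finite
  have hn : 1 ≤ Module.finrank k K := Module.finrank_pos
  have hK : Nat.card K = Nat.card k ^ Module.finrank k K := Module.natCard_eq_pow_finrank
  have key := alg (Nat.card k : ℂ) α β (fun n => (idn W.toAffine n : ℂ))
    (fun m => ((∑ d ∈ m.divisors, d * pn W.toAffine d : ℕ) : ℂ)) (by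
      show (idn W.toAffine 0 : ℂ) = 1
      rw [idn_zero, Nat.cast_one]) (by
      have h3 := idn_one W.toAffine hΔ
      show (idn W.toAffine 1 : ℂ) = _
      have h4 : (Nat.card W.toAffine.Point : ℂ) = (idn W.toAffine 1 : ℂ) + 1 := by
        rw [← h3]
        push_cast
        ring
      rw [h1, h4]
      ring) (by
      intro n hn'
      show (idn W.toAffine n : ℂ) = _
      rw [idn_two W.toAffine hΔ n hn', h1]
      push_cast
      ring) h2 (by
      intro n _
      show (n : ℂ) * (idn W.toAffine n : ℂ) = _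
      rw [← Nat.cast_mul, recur W.toAffine hΔ n]
      push_cast
      rfl) (Module.finrank k K) hn
  have h5 := card_pt W.toAffine hΔ K
  rw [hom_card W.toAffine hΔ K] at h5
  have h6 : (Nat.card (WeierstrassCurve.baseChange W K).toAffine.Point : ℂ) =
      1 + ((∑ d ∈ (Module.finrank k K).divisors, d * pn W.toAffine d : ℕ) : ℂ) := by
    have h7 := congrArg (fun z : ℕ => (z : ℂ)) h5
    rw [Nat.cast_add, Nat.cast_one] at h7
    exact h7
  have h8 : ((∑ d ∈ (Module.finrank k K).divisors, d * pn W.toAffine d : ℕ) : ℂ) =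
      (Nat.card k : ℂ) ^ Module.finrank k K - α ^ Module.finrank k K - β ^ Module.finrank k K := key
  rw [h6, h8, hK]
  push_cast
  ring

end H55K
end

-- from Lib.H55K.D5
section

/-! # H55K, part D: the number of points over the residue fields -/

open NumberField IsDedekindDomain WeierstrassCurve

namespace H55K.DD

/-- Chunk D5 (M). k = 𝓞 F ⧸ v.asIdeal is a finite field (Ideal.Quotient.field, finiteQuotientOfFreeOfNeBot), card absNorm v; κ = φ ∘ algebraMap : 𝓞 F → k' has kernel v.asIdeal (hv, hker), so it factors through k (Ideal.Quotient.lift): k' is a k-algebra (RingHom.toAlgebra), card k' = absNorm w = (absNorm v)^f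
(φ surjective with kernel w; H55B.absNorm_inertia in Lib/H55B/F4.lean is the model: Ideal.absNorm_eq_pow_inertiaDeg'_of_liesOver, Ideal.inertiaDeg_eq_of_isMaximal), so finrank k k' = f (Module.natCard_eq_pow_finrank, Nat.pow_right_injective). H55K.weil for W = W₀⁄k (discriminant the image of W₀.Δ, nonzero by hΔ; map_Δ),
(W₀⁄k)⁄k' = W₀.map κ (map_map). -/
theorem pts_res {F K : Type} [Field F] [NumberField F] [Field K] [NumberField K] [Algebra F K]
    (W₀ : WeierstrassCurve (𝓞 F)) (w : HeightOneSpectrum (𝓞 K)) (v : HeightOneSpectrum (𝓞 F))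
    (hv : v.asIdeal = w.asIdeal.under (𝓞 F)) (hΔ : W₀.Δ ∉ v.asIdeal) (α β : ℂ)
    (h1 : α + β = (Ideal.absNorm v.asIdeal : ℂ) + 1 - (Nat.card (W₀⁄(𝓞 F ⧸ v.asIdeal)).toAffine.Point : ℂ))
    (h2 : α * β = (Ideal.absNorm v.asIdeal : ℂ)) (k' : Type) [Field k'] (φ : 𝓞 K →+* k')
    (hφ : Function.Surjective φ) (hker : RingHom.ker φ = w.asIdeal) :
    (Nat.card (W₀.map (φ.comp (algebraMap (𝓞 F) (𝓞 K)))).toAffine.Point : ℂ) =
      (Ideal.absNorm w.asIdeal : ℂ) + 1 - α ^ (w.asIdeal.inertiaDeg (𝓞 F)) - β ^ (w.asIdeal.inertiaDeg (𝓞 F)) := by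
  have hlies : w.asIdeal.LiesOver v.asIdeal := ⟨hv⟩
  have hmax : v.asIdeal.IsMaximal := v.isMaximal
  letI : Field (𝓞 F ⧸ v.asIdeal) := Ideal.Quotient.field v.asIdeal
  haveI : Finite (𝓞 F ⧸ v.asIdeal) := v.asIdeal.finiteQuotientOfFreeOfNeBot v.ne_bot
  have e1 : (𝓞 K ⧸ RingHom.ker φ) ≃+* k' := RingHom.quotientKerEquivOfSurjective hφ
  have e2 : (𝓞 K ⧸ w.asIdeal) ≃+* (𝓞 K ⧸ RingHom.ker φ) := Ideal.quotEquivOfEq hker.symm
  have hf : Finite (𝓞 K ⧸ w.asIdeal) := w.asIdeal.finiteQuotientOfFreeOfNeBot w.ne_bot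
  haveI : Finite k' := Finite.of_equiv _ (e2.trans e1).toEquiv
  have hcard' : Nat.card k' = Ideal.absNorm w.asIdeal := by
    rw [← Nat.card_congr (e2.trans e1).toEquiv, Ideal.absNorm_apply, Submodule.cardQuot_apply]
  have hcard : Nat.card (𝓞 F ⧸ v.asIdeal) = Ideal.absNorm v.asIdeal := by
    rw [Ideal.absNorm_apply, Submodule.cardQuot_apply]
  have hnorm : Ideal.absNorm w.asIdeal = Ideal.absNorm v.asIdeal ^ (w.asIdeal.inertiaDeg (𝓞 F)) := by
    rw [Ideal.inertiaDeg_eq_of_isMaximal v.asIdeal w.asIdeal]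
    have h := Ideal.absNorm_eq_pow_inertiaDeg'_of_liesOver w.asIdeal v.asIdeal v.isPrime v.ne_bot
    rw [Ideal.inertiaDeg'_algebraMap] at h
    exact h
  have hκ : ∀ a ∈ v.asIdeal, (φ.comp (algebraMap (𝓞 F) (𝓞 K))) a = 0 := by
    intro a ha
    rw [hv, Ideal.mem_comap, ← hker, RingHom.mem_ker] at ha
    exact ha
  let ι : (𝓞 F ⧸ v.asIdeal) →+* k' := Ideal.Quotient.lift v.asIdeal (φ.comp (algebraMap (𝓞 F) (𝓞 K))) hκ
  letI : Algebra (𝓞 F ⧸ v.asIdeal) k' := ι.toAlgebra
  haveI : Module.Finite (𝓞 F ⧸ v.asIdeal) k' := Module.Finite.of_finite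
  have hfin : Module.finrank (𝓞 F ⧸ v.asIdeal) k' = w.asIdeal.inertiaDeg (𝓞 F) := by
    have h3 : Nat.card k' = Nat.card (𝓞 F ⧸ v.asIdeal) ^ Module.finrank (𝓞 F ⧸ v.asIdeal) k' :=
      Module.natCard_eq_pow_finrank
    rw [hcard', hcard, hnorm] at h3
    have h4 : 2 ≤ Ideal.absNorm v.asIdeal := by
      rw [← hcard]
      exact Finite.one_lt_card
    exact (Nat.pow_right_injective h4 h3).symm
  have hmap : W₀.map (φ.comp (algebraMap (𝓞 F) (𝓞 K))) =
      WeierstrassCurve.baseChange (W₀.map (Ideal.Quotient.mk v.asIdeal)) k' := by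
    rw [WeierstrassCurve.baseChange, WeierstrassCurve.map_map]
    congr 1
  have hD : (W₀.map (Ideal.Quotient.mk v.asIdeal)).Δ ≠ 0 := by
    rw [WeierstrassCurve.map_Δ, Ne, Ideal.Quotient.eq_zero_iff_mem]
    exact hΔ
  have key := H55K.weil (k := 𝓞 F ⧸ v.asIdeal) (K := k') (W₀.map (Ideal.Quotient.mk v.asIdeal)) hD α β
    (by rw [hcard]; exact h1) (by rw [hcard]; exact h2)
  rw [hmap, key, hfin, hcard']

end H55K.DD
end

-- from Lib.H55K.A.A1
section

/-!
Chunk A1 (M, pure Mathlib). The trace form.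
PROOF. k is a finite field of characteristic l, so it is an algebra over ZMod l (ZMod.algebra k l; use letI), q = card k = l^f,
f = finrank (ZMod l) k. ρ = Algebra.trace (ZMod l) k as an additive map. FiniteField.algebraMap_trace_eq_sum_pow (or the statement with this
content): algebraMap (Tr x) = sum over i < f of x^(l^i). The cast of (ρ b).val to k is algebraMap (ZMod l) k (ρ b) (ZMod.natCast_val / ZMod.cast_id /
map_natCast). Hence the sum is sum_{i<f} sum_c (a c^-1)^(l^i) c = sum_{i<f} a^(l^i) sum_c c^(1 - l^i). The term i = 0 is a (q - 1) = -a.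
For 0 < i < f: sum_c c^(1-l^i) = sum_c (c^-1)^(l^i - 1) = 0 by FiniteField.sum_pow_units, because q - 1 does not divide l^i - 1
(0 < l^i - 1 < q - 1; l >= 2).
-/

namespace H55K.Ab

theorem a1_inner {k : Type} [Field k] [Fintype k] [DecidableEq k] (m : ℕ) (hm : 0 < m) :
    ∑ c : kˣ, ((c⁻¹ : kˣ) : k) ^ m * (c : k) = if Fintype.card k - 1 ∣ m - 1 then -1 else 0 := by
  rw [← FiniteField.sum_pow_units k (m - 1), ← Equiv.sum_comp (Equiv.inv kˣ) (fun c : kˣ => (c : k) ^ (m - 1))]
  refine Finset.sum_congr rfl fun c _ => ?_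
  rw [Equiv.inv_apply]
  obtain ⟨r, rfl⟩ : ∃ r, m = r + 1 := ⟨m - 1, by omega⟩
  rw [Nat.add_sub_cancel, pow_succ, mul_assoc, Units.inv_mul, mul_one]

theorem exists_rho (l : ℕ) [Fact l.Prime] (k : Type) [Field k] [Fintype k] [DecidableEq k]
    [CharP k l] : ∃ ρ : k →+ ZMod l, IsRho l ρ := by
  have hl : l.Prime := Fact.out
  let _ := ZMod.algebra k l
  have hNe : NeZero l := ⟨hl.ne_zero⟩
  refine ⟨(Algebra.trace (ZMod l) k).toAddMonoidHom, ⟨fun a => ?_⟩⟩
  set f := Module.finrank (ZMod l) k with hf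
  have hcard : Fintype.card k = l ^ f := by
    have h := Module.card_eq_pow_finrank (K := ZMod l) (V := k)
    rwa [ZMod.card] at h
  have hf0 : 0 < f := Module.finrank_pos
  have h1 : ∀ b : k, (((Algebra.trace (ZMod l) k).toAddMonoidHom b).val : k) = ∑ i ∈ Finset.range f, b ^ (l ^ i) := by
    intro b
    have h2 := FiniteField.algebraMap_trace_eq_sum_pow (ZMod l) k b
    rw [Nat.card_zmod] at h2
    rw [← h2]
    have h3 := ZMod.natCast_zmod_val (Algebra.trace (ZMod l) k b)
    conv_rhs => rw [← h3]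
    rw [map_natCast]
    rfl
  simp only [h1, Finset.sum_mul]
  rw [Finset.sum_comm]
  have h2 : ∀ i ∈ Finset.range f, ∑ c : kˣ, (a * ((c⁻¹ : kˣ) : k)) ^ (l ^ i) * (c : k) =
      if i = 0 then -a else 0 := by
    intro i hi
    have h3 : ∑ c : kˣ, (a * ((c⁻¹ : kˣ) : k)) ^ (l ^ i) * (c : k) =
        a ^ (l ^ i) * ∑ c : kˣ, ((c⁻¹ : kˣ) : k) ^ (l ^ i) * (c : k) := by
      rw [Finset.mul_sum]
      refine Finset.sum_congr rfl fun c _ => ?_
      rw [mul_pow]
      ring
    rw [h3, a1_inner _ (pow_pos hl.pos i)]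
    by_cases h0 : i = 0
    · subst h0
      simp
    · rw [if_neg h0, if_neg, mul_zero]
      intro hd
      have hi' := Finset.mem_range.1 hi
      have h4 : l ^ i < l ^ f := Nat.pow_lt_pow_right hl.one_lt hi'
      have h5 : 1 < l ^ i := Nat.one_lt_pow h0 hl.one_lt
      have h6 := Nat.le_of_dvd (by omega) hd
      rw [hcard] at h6
      omega
  rw [Finset.sum_congr rfl h2, Finset.sum_ite_eq' , if_pos (Finset.mem_range.2 hf0)]

end H55K.Ab
end

-- from Lib.H28G.GV10
section

open NumberField IsDedekindDomain WeierstrassCurve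

namespace H28G

open H55B

/-! Chunk GV10 (M): torsion points above 3. D = (fc P)^2, s = 2 om + 1, s^2 = -3, D_rec.
D_val: W = v 3 < 1 (W <> 0). For T in Tor n, T <> 0, n prime to 6 (IsCoprime n 6): the points T_i = act (s^i) T, i >= 0, are <> 0 with xc <> 0 and fc <> 0: (fc = 0 => 2 T_i = 0; xc = 0 => act (om - 1) T_i = 0 (omF fixes the point), and n kills T_i: coprime), s is prime to n, so a combination
s^m = 1 mod n exists (m >= 1: s is a unit of the finite ring O/(n)): T_(i+m) = T_i. a_i = v(D_i) <> 0. (1) a < W^2: a' = a W (v(D-9) = W^2, v(D-1) = 1, v 27 = W^3). (2) a = W^2: a' <= W^3 < W^2. (3) W^2 < a < 1: v(D-9) = a, a' = a^3/W^3. (4) a = 1: a' >= W^(-3) > 1. (5) a > 1: v(D-9) = v(D-1) = a,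
a' = a/W^3 > a. So once a_i <= W^2 the sequence strictly decreases and stays there, once a_i >= 1 it strictly increases and stays: both contradict a_(i+m) = a_i. So always (3); r_i = a_i^2/W^3 satisfies r_(i+1) = r_i^3, r_0^(3^m) = r_0, hence r_0 = 1 (a linearly ordered group is torsion free): a^2 = W^3.
D_val_S: X = S + T (S of order 3, T as before, T <> 0): act s (act s X) = -3 X = -3 T, which is <> 0 and killed by n, so a'' = v(D(3T)) satisfies a''^2 = W^3, so W^2 < a'' < 1. Backwards: if a' ^2 = W^3 for P' = act s P then P is in case (3) (the other cases give a' <= W^3.. or a' > 1 or a' < W^3) and a^6 = W^9, so a^2 = W^3. Twice.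
(X, act s X have xc <> 0 and fc <> 0: otherwise 6-torsion, but then 6 T.. = 0.) -/

variable {k : Type} [Field k] [DecidableEq k] [Algebra F k]
  {Γ : Type} [LinearOrderedCommGroupWithZero Γ] (v : Valuation k Γ)

omit [DecidableEq k] [Algebra F k] in
theorem GV10_rec [CharZero k] (h3 : v 3 < 1) (x x' : k) (hx : x ≠ 0)
    (h : 27 * (x - 1) ^ 2 * x' = -(x * (x - 9) ^ 2)) :
    (v x ^ 2 < v 3 ^ 3 → v x' < v x) ∧ (v 3 ^ 3 < v x ^ 2 → v x < v x') := by
  have hW0 : v 3 ≠ 0 := by
    rw [Valuation.ne_zero_iff]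
    norm_num
  have hWp : 0 < v 3 := zero_lt_iff.2 hW0
  have ha0 : v x ≠ 0 := (Valuation.ne_zero_iff v).2 hx
  have hap : 0 < v x := zero_lt_iff.2 ha0
  have h9 : v 9 = v 3 ^ 2 := by
    rw [← map_pow]
    norm_num
  have h27 : v 27 = v 3 ^ 3 := by
    rw [← map_pow]
    norm_num
  have hrec : v 3 ^ 3 * v (x - 1) ^ 2 * v x' = v x * v (x - 9) ^ 2 := by
    have h1 := congrArg v h
    rw [map_mul, map_mul, map_pow, Valuation.map_neg, map_mul, map_pow, h27] at h1
    exact h1
  have hW3 : v 3 ^ 3 ≠ 0 := pow_ne_zero 3 hW0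
  have hW3p : 0 < v 3 ^ 3 := zero_lt_iff.2 hW3
  have hW21 : v 3 ^ 2 < 1 := pow_lt_one₀ (zero_le) h3 two_ne_zero
  have hW31 : v 3 ^ 3 < 1 := pow_lt_one₀ (zero_le) h3 three_ne_zero
  have hW32 : v 3 ^ 3 < v 3 ^ 2 := by
    rw [pow_succ (v 3) 2]
    exact mul_lt_of_lt_one_right (zero_lt_iff.2 (pow_ne_zero 2 hW0)) h3
  have hW43 : v 3 ^ 4 < v 3 ^ 3 := by
    rw [pow_succ (v 3) 3]
    exact mul_lt_of_lt_one_right hW3p h3
  -- case (3)
  have c3 : v 3 ^ 2 < v x → v x < 1 → v 3 ^ 3 * v x' = v x ^ 2 * v x := by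
    intro h1 h2
    have e1 : v (x - 9) = v x := Valuation.map_sub_eq_of_lt_left v (by rw [h9]; exact h1)
    have e2 : v (x - 1) = 1 := by
      rw [Valuation.map_sub_eq_of_lt_right v (by rw [map_one]; exact h2), map_one]
    rw [e1, e2, one_pow, mul_one, mul_comm (v x)] at hrec
    exact hrec
  constructor
  · intro hlt
    have hx1 : v x < 1 := by
      by_contra hc
      have h1 : 1 ≤ v x ^ 2 := one_le_pow₀ (not_lt.1 hc)
      exact absurd (lt_of_le_of_lt h1 (lt_trans hlt hW31)) (lt_irrefl _)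
    have e2 : v (x - 1) = 1 := by
      rw [Valuation.map_sub_eq_of_lt_right v (by rw [map_one]; exact hx1), map_one]
    rcases lt_trichotomy (v x) (v 3 ^ 2) with h1 | h1 | h1
    · have e1 : v (x - 9) = v 3 ^ 2 := by
        rw [Valuation.map_sub_eq_of_lt_right v (by rw [h9]; exact h1), h9]
      rw [e1, e2, one_pow, mul_one] at hrec
      have e3 : v x' = v x * v 3 := by
        apply mul_left_cancel₀ hW3
        rw [hrec, ← pow_mul, mul_left_comm, ← pow_succ]
      rw [e3]
      exact mul_lt_of_lt_one_right hap h3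
    · have e1 : v (x - 9) ≤ v 3 ^ 2 := by
        refine le_trans (Valuation.map_sub v x 9) ?_
        rw [h9, h1, max_self]
      rw [e2, one_pow, mul_one] at hrec
      have e4 : v 3 ^ 3 * v x' ≤ v x * (v 3 ^ 2) ^ 2 := by
        rw [hrec]
        exact mul_le_mul_right (pow_le_pow_left₀ zero_le e1 2) _
      have e5 : v x * (v 3 ^ 2) ^ 2 < v 3 ^ 3 * v x := by
        rw [mul_comm (v x), ← pow_mul]
        exact mul_lt_mul_of_pos_right hW43 hap
      exact lt_of_mul_lt_mul_left (lt_of_le_of_lt e4 e5) zero_le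
    · have e3 := c3 h1 hx1
      refine lt_of_mul_lt_mul_left (a := v 3 ^ 3) ?_ zero_le
      rw [e3]
      exact mul_lt_mul_of_pos_right hlt hap
  · intro hgt
    rcases lt_trichotomy (v x) 1 with h1 | h1 | h1
    · have h2 : v 3 ^ 2 < v x := by
        by_contra hc
        have h4 : v x ^ 2 ≤ (v 3 ^ 2) ^ 2 := pow_le_pow_left₀ zero_le (not_lt.1 hc) 2
        rw [← pow_mul] at h4
        exact absurd (lt_of_lt_of_le hgt h4) (not_lt.2 hW43.le)
      have e3 := c3 h2 h1
      refine lt_of_mul_lt_mul_left (a := v 3 ^ 3) ?_ zero_le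
      rw [e3]
      exact mul_lt_mul_of_pos_right hgt hap
    · have e1 : v (x - 9) = 1 := by
        rw [Valuation.map_sub_eq_of_lt_left v (by rw [h9, h1]; exact hW21), h1]
      have e2 : v (x - 1) ≤ 1 := by
        refine le_trans (Valuation.map_sub v x 1) ?_
        rw [h1, map_one, max_self]
      rw [e1, h1, one_pow, mul_one] at hrec
      rw [h1]
      by_contra hc
      have hc' := not_lt.1 hc
      have h5 : v 3 ^ 3 * v (x - 1) ^ 2 * v x' ≤ v 3 ^ 3 := by
        calc v 3 ^ 3 * v (x - 1) ^ 2 * v x' ≤ v 3 ^ 3 * 1 * 1 := by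
              apply mul_le_mul' (mul_le_mul' le_rfl (pow_le_one₀ zero_le e2)) hc'
          _ = v 3 ^ 3 := by rw [mul_one, mul_one]
      rw [hrec] at h5
      exact absurd (lt_of_le_of_lt h5 hW31) (lt_irrefl _)
    · have h2 : v 3 ^ 2 < v x := lt_trans hW21 h1
      have e1 : v (x - 9) = v x := Valuation.map_sub_eq_of_lt_left v (by rw [h9]; exact h2)
      have e2 : v (x - 1) = v x := Valuation.map_sub_eq_of_lt_left v (by rw [map_one]; exact h1)
      rw [e1, e2] at hrec
      have e3 : v 3 ^ 3 * v x' = v x := by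
        apply mul_left_cancel₀ (pow_ne_zero 2 ha0)
        rw [mul_comm (v x ^ 2) (v x), ← hrec, mul_left_comm, mul_assoc]
      have hx'0 : 0 < v x' := by
        rw [zero_lt_iff]
        intro h0
        rw [h0, mul_zero] at e3
        exact ha0 e3.symm
      rw [← e3]
      exact mul_lt_of_lt_one_left hx'0 hW31

/-- Points whose multiple by 6 is not 0. -/
theorem GV10_good {Y : P27 k} (h6 : act 6 Y ≠ 0) : Y ≠ 0 ∧ xc Y ≠ 0 ∧ fc Y ≠ 0 := by
  have h0 : Y ≠ 0 := by
    intro h
    apply h6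
    rw [h, map_zero]
  refine ⟨h0, ?_, ?_⟩
  · intro hx
    apply h6
    have e1 : omP Y = Y := pt_ext (omF_ne h0) h0 (by rw [xc_omP, hx, mul_zero]) (yc_omP Y)
    have e3 := omP_rel Y
    rw [e1, e1] at e3
    have h2 : (6 : O) = ((6 : ℤ) : O) := by norm_num
    rw [h2, act_int]
    have : (6 : ℤ) • Y = (Y + Y + Y) + (Y + Y + Y) := by abel
    rw [this, e3, add_zero]
  · intro hf
    apply h6
    have e1 := fc_eq_zero h0 hf
    have h2 : (6 : O) = ((6 : ℤ) : O) := by norm_num
    have e2 : Y + Y = 0 := by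
      nth_rewrite 1 [e1]
      exact neg_add_cancel Y
    rw [h2, act_int]
    have : (6 : ℤ) • Y = (Y + Y) + (Y + Y) + (Y + Y) := by abel
    rw [this, e2, add_zero, add_zero]

theorem GV10_step (h3 : v 3 < 1) {Y : P27 k} (h6 : act 6 Y ≠ 0) :
    (v (fc Y ^ 2) ^ 2 < v 3 ^ 3 → v (fc (act (2 * om + 1) Y) ^ 2) < v (fc Y ^ 2)) ∧
    (v 3 ^ 3 < v (fc Y ^ 2) ^ 2 → v (fc Y ^ 2) < v (fc (act (2 * om + 1) Y) ^ 2)) := by
  have := char0 (k := k)
  obtain ⟨g0, g1, g2⟩ := GV10_good h6
  exact GV10_rec v h3 _ _ (pow_ne_zero 2 g2) (D_rec g0 g1).2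

/-- The number sqrt(-3). -/
theorem GV10_s_sq : (2 * om + 1 : O) ^ 2 = -3 := by linear_combination 4 * om_rel

theorem GV10_six {n : O} (hn : IsCoprime n 6) {T : P27 k} (hT : T ∈ Tor n k) (h0 : T ≠ 0) :
    act 6 T ≠ 0 := by
  obtain ⟨a, b, hab⟩ := hn
  intro h
  apply h0
  rw [← act_one T, ← hab, act_add, act_mul, act_mul, mem_Tor.1 hT, h, map_zero, map_zero, add_zero]

theorem GV10_s_cop {n : O} (hn : IsCoprime n 6) : IsCoprime n (2 * om + 1) := by
  apply hn.of_isCoprime_of_dvd_right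
  refine ⟨-2 * (2 * om + 1), ?_⟩
  linear_combination (8 : O) * om_rel

theorem GV10_s_mem {n : O} (hn : IsCoprime n 6) {T : P27 k} (hT : T ∈ Tor n k) (h0 : T ≠ 0) (i : ℕ) :
    act ((2 * om + 1) ^ i) T ∈ Tor n k ∧ act ((2 * om + 1) ^ i) T ≠ 0 := by
  constructor
  · rw [mem_Tor, ← act_mul, mul_comm, act_mul, mem_Tor.1 hT, map_zero]
  · obtain ⟨a, b, hab⟩ := (GV10_s_cop hn).pow_right (n := i)
    intro h
    apply h0
    rw [← act_one T, ← hab, act_add, act_mul, act_mul, mem_Tor.1 hT, h, map_zero, map_zero, add_zero]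

theorem GV10_period {n : O} (hn : IsCoprime n 6) : ∃ m : ℕ, 0 < m ∧ n ∣ (2 * om + 1) ^ m - 1 := by
  have hn0 : n ≠ 0 := by
    intro h
    rw [h, isCoprime_zero_left] at hn
    have h1 : Nm (6 : O) = 1 := Nm_eq_one.2 hn
    have h2 := Nm_repr 6 0
    have h3 : (((6 : ℤ) : O) + ((0 : ℤ) : O) * om) = 6 := by push_cast; ring
    rw [h3, h1] at h2
    norm_num at h2
  have hfin : Finite (O ⧸ Ideal.span {n}) := Ideal.finiteQuotientOfFreeOfNeBot _ (by
    rw [Ne, Ideal.span_singleton_eq_bot]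
    exact hn0)
  obtain ⟨a, b, hab⟩ := GV10_s_cop hn
  have hu : IsUnit (Ideal.Quotient.mk (Ideal.span {n}) (2 * om + 1)) := by
    refine IsUnit.of_mul_eq_one (Ideal.Quotient.mk (Ideal.span {n}) b) ?_
    rw [← map_mul, ← map_one (Ideal.Quotient.mk (Ideal.span {n})), Ideal.Quotient.eq,
      Ideal.mem_span_singleton]
    exact ⟨-a, by linear_combination hab⟩
  obtain ⟨u, hu⟩ := hu
  obtain ⟨m, hm, hm1⟩ := (isOfFinOrder_of_finite u).exists_pow_eq_one
  refine ⟨m, hm, ?_⟩
  rw [← Ideal.mem_span_singleton, ← Ideal.Quotient.eq, map_pow, ← hu, map_one, ← Units.val_pow_eq_pow_val,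
    hm1, Units.val_one]

theorem D_val (h3 : v 3 < 1) {n : O} (hn : IsCoprime n 6) {T : P27 k} (hT : T ∈ Tor n k) (h0 : T ≠ 0) :
    v (fc T) ^ 4 = v 3 ^ 3 := by
  have hs : ∀ i, act ((2 * om + 1) ^ (i + 1)) T = act (2 * om + 1) (act ((2 * om + 1) ^ i) T) := by
    intro i
    rw [pow_succ', act_mul]
  have h6 : ∀ i, act 6 (act ((2 * om + 1) ^ i) T) ≠ 0 := fun i =>
    GV10_six hn (GV10_s_mem hn hT h0 i).1 (GV10_s_mem hn hT h0 i).2
  obtain ⟨m, hm, c, hc⟩ := GV10_period hn
  have hper : act ((2 * om + 1) ^ m) T = T := by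
    have e1 : (2 * om + 1 : O) ^ m = c * n + 1 := by linear_combination hc
    rw [e1, act_add, act_mul, mem_Tor.1 hT, map_zero, act_one, zero_add]
  set f : ℕ → Γ := fun i => v (fc (act ((2 * om + 1) ^ i) T) ^ 2) with hf
  have hf0 : f 0 = v (fc T ^ 2) := by
    show v (fc (act ((2 * om + 1) ^ 0) T) ^ 2) = _
    rw [pow_zero, act_one]
  have hfm : f m = v (fc T ^ 2) := by
    show v (fc (act ((2 * om + 1) ^ m) T) ^ 2) = _
    rw [hper]
  have hstep : ∀ i, (f i ^ 2 < v 3 ^ 3 → f (i + 1) < f i) ∧ (v 3 ^ 3 < f i ^ 2 → f i < f (i + 1)) := by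
    intro i
    have := GV10_step v h3 (h6 i)
    rw [← hs] at this
    exact this
  have key : f 0 ^ 2 = v 3 ^ 3 := by
    rcases lt_trichotomy (f 0 ^ 2) (v 3 ^ 3) with h1 | h1 | h1
    · exfalso
      have hind : ∀ i, f (i + 1) < f 0 := by
        intro i
        induction i with
        | zero => exact (hstep 0).1 h1
        | succ i ih =>
          have h2 : f (i + 1) ^ 2 < v 3 ^ 3 :=
            lt_of_le_of_lt (pow_le_pow_left₀ zero_le ih.le 2) h1
          exact lt_trans ((hstep (i + 1)).1 h2) ih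
      obtain ⟨j, rfl⟩ : ∃ j, m = j + 1 := ⟨m - 1, by omega⟩
      have := hind j
      rw [hfm, hf0] at this
      exact lt_irrefl _ this
    · exact h1
    · exfalso
      have hind : ∀ i, f 0 < f (i + 1) := by
        intro i
        induction i with
        | zero => exact (hstep 0).2 h1
        | succ i ih =>
          have h2 : v 3 ^ 3 < f (i + 1) ^ 2 :=
            lt_of_lt_of_le h1 (pow_le_pow_left₀ zero_le ih.le 2)
          exact lt_trans ih ((hstep (i + 1)).2 h2)
      obtain ⟨j, rfl⟩ : ∃ j, m = j + 1 := ⟨m - 1, by omega⟩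
      have := hind j
      rw [hfm, hf0] at this
      exact lt_irrefl _ this
  rw [hf0, map_pow, ← pow_mul] at key
  exact key

/-- Backwards. -/
theorem GV10_back (h3 : v 3 < 1) {Y : P27 k} (h6 : act 6 Y ≠ 0)
    (h : v (fc (act (2 * om + 1) Y)) ^ 4 = v 3 ^ 3) : v (fc Y) ^ 4 = v 3 ^ 3 := by
  have hst := GV10_step v h3 h6
  have e1 : ∀ a : k, v (a ^ 2) ^ 2 = v a ^ 4 := fun a => by rw [map_pow, ← pow_mul]
  rw [← e1] at h ⊢
  rcases lt_trichotomy (v (fc Y ^ 2) ^ 2) (v 3 ^ 3) with h1 | h1 | h1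
  · exfalso
    have h2 := pow_lt_pow_left₀ (hst.1 h1) zero_le (two_ne_zero)
    rw [h] at h2
    exact absurd (lt_trans h1 h2) (lt_irrefl _)
  · exact h1
  · exfalso
    have h2 := pow_lt_pow_left₀ (hst.2 h1) zero_le (two_ne_zero)
    rw [h] at h2
    exact absurd (lt_trans h1 h2) (lt_irrefl _)

theorem D_val_S (h3 : v 3 < 1) {n : O} (hn : IsCoprime n 6) {T : P27 k} (hT : T ∈ Tor n k) (h0 : T ≠ 0)
    {S : P27 k} (hS : S = Spt k ∨ S = -Spt k) : v (fc (S + T)) ^ 4 = v 3 ^ 3 := by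
  have hS3 : act 3 S = 0 := by
    have h2 : (3 : O) = ((3 : ℤ) : O) := by norm_num
    rw [h2, act_int]
    rcases hS with h | h
    · rw [h, three_Spt]
    · rw [h, zsmul_neg, three_Spt, neg_zero]
  have hX3 : act 3 (S + T) = act 3 T := by rw [map_add, hS3, zero_add]
  have hX6 : act 6 (S + T) = act 6 T := by
    have h2 : (6 : O) = 2 * 3 := by norm_num
    rw [h2, act_mul, act_mul, hX3]
  have g1 : act 6 (S + T) ≠ 0 := by
    rw [hX6]
    exact GV10_six hn hT h0
  have hsm := GV10_s_mem hn hT h0 1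
  rw [pow_one] at hsm
  have g2 : act 6 (act (2 * om + 1) (S + T)) ≠ 0 := by
    rw [← act_mul, mul_comm, act_mul, hX6, ← act_mul, mul_comm, act_mul]
    exact GV10_six hn hsm.1 hsm.2
  have hsm2 := GV10_s_mem hn hT h0 2
  have e1 : act (2 * om + 1) (act (2 * om + 1) (S + T)) = act ((2 * om + 1) ^ 2) T := by
    rw [← act_mul, ← sq, GV10_s_sq, act_neg, act_neg, hX3]
  apply GV10_back v h3 g1
  apply GV10_back v h3 g2
  rw [e1]
  exact D_val v h3 hn hsm2.1 hsm2.2

end H28G
end

-- from Lib.H55N.T2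
section

open NumberField IsDedekindDomain

namespace H55N

open H55B H55C

/-- the ideals of `O` and those of `𝓞 K` -/
theorem T2_equiv (K : Type) [Field K] [NumberField K] [Algebra F K] (h1 : Module.finrank F K = 1) :
    ∃ ε : Ideal O ≃ Ideal (𝓞 K), ∀ J : Ideal O, Ideal.relNorm O (ε J) = J ∧
      Ideal.absNorm (ε J) = Ideal.absNorm J := by
  have hsurj : Function.Surjective (algebraMap F K) := by
    intro x
    obtain ⟨c, hc⟩ := (finrank_eq_one_iff_of_nonzero' (1 : K) one_ne_zero).1 h1 x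
    exact ⟨c, by rw [← hc, Algebra.smul_def, mul_one]⟩
  have hinj : Function.Injective (algebraMap O (𝓞 K)) := FaithfulSMul.algebraMap_injective O (𝓞 K)
  have hsurjO : Function.Surjective (algebraMap O (𝓞 K)) := by
    intro x
    obtain ⟨y, hy⟩ := hsurj (x : K)
    have hyi : IsIntegral ℤ y := by
      have h2 : IsIntegral ℤ (algebraMap F K y) := by
        rw [hy]
        exact RingOfIntegers.isIntegral_coe x
      exact (isIntegral_algebraMap_iff (algebraMap F K).injective).1 h2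
    refine ⟨⟨y, hyi⟩, ?_⟩
    apply RingOfIntegers.ext
    rw [← hy]
    rfl
  let ε₀ : O ≃+* 𝓞 K := RingEquiv.ofBijective (algebraMap O (𝓞 K)) ⟨hinj, hsurjO⟩
  have hr : Module.finrank O (𝓞 K) = 1 := by
    rw [← h1]
    exact (IsFractionRing.finrank_eq O F (𝓞 K) K).symm
  have key : ∀ J : Ideal O, Ideal.relNorm O (J.map (algebraMap O (𝓞 K))) = J := by
    intro J
    rw [Ideal.relNorm_algebraMap (𝓞 K) J, hr, pow_one]
  refine ⟨(ε₀.idealComapOrderIso.symm).toEquiv, fun J => ?_⟩
  have h3 : (ε₀.idealComapOrderIso.symm).toEquiv J = J.map (algebraMap O (𝓞 K)) := rfl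
  rw [h3]
  refine ⟨key J, ?_⟩
  rw [← Ideal.absNorm_relNorm O (𝓞 K), key J]

theorem T2_cpow (r : ℝ) (hr : 0 < r) (s : ℂ) : ((r ^ 2 : ℝ) : ℂ) ^ (-s) = (r : ℂ) ^ (-2 * s) := by
  have h0 : ((r ^ 2 : ℝ) : ℂ) ≠ 0 := by
    exact_mod_cast (pow_pos hr 2).ne'
  have h1 : (r : ℂ) ≠ 0 := by exact_mod_cast hr.ne'
  rw [Complex.cpow_def_of_ne_zero h0, Complex.cpow_def_of_ne_zero h1, ← Complex.ofReal_log (by positivity),
    ← Complex.ofReal_log hr.le, Real.log_pow]
  congr 1
  push_cast
  ring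

theorem T2_term (y : O) (s : ℂ) :
    psiF (Ideal.span {1 + 3 * y}) * (Ideal.absNorm (Ideal.span {1 + 3 * y} : Ideal O) : ℂ) ^ (-s) =
      g s (1 + 3 * e y) := by
  have hp : Prim (1 + 3 * y) := ⟨y, by ring⟩
  have he : e (1 + 3 * y) = 1 + 3 * e y := by
    rw [map_add, map_mul, map_one, map_ofNat]
  have hne : e (1 + 3 * y) ≠ 0 := by
    rw [Ne, map_eq_zero_iff e e_injective]
    exact hp.ne_zero
  rw [psiF_apply, pg_span hp, ← he]
  unfold g
  congr 1
  have h1 : ((Ideal.absNorm (Ideal.span {1 + 3 * y} : Ideal O) : ℕ) : ℝ) = ‖e (1 + 3 * y)‖ ^ 2 :=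
    Nm_eq (1 + 3 * y)
  rw [← T2_cpow _ (norm_pos_iff.2 hne), ← h1]
  rfl

theorem T2_hasSum (s : ℂ) (hs : 3 / 2 < s.re) :
    HasSum (fun J : Ideal O => psiF J * (Ideal.absNorm J : ℂ) ^ (-s)) (Kf 1 s) := by
  have hinj : Function.Injective (fun y : O => (Ideal.span {1 + 3 * y} : Ideal O)) := by
    intro y z h
    have h1 : Prim (1 + 3 * y) := ⟨y, by ring⟩
    have h2 : Prim (1 + 3 * z) := ⟨z, by ring⟩
    have h3 : 1 + 3 * y = 1 + 3 * z :=
      h1.eq_of_associated h2 (Ideal.span_singleton_eq_span_singleton.1 h)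
    have h4 : (3 : O) ≠ 0 := by norm_num
    exact mul_left_cancel₀ h4 (add_left_cancel h3)
  rw [← hinj.hasSum_iff]
  · have h1 : (fun J : Ideal O => psiF J * (Ideal.absNorm J : ℂ) ^ (-s)) ∘
        (fun y : O => (Ideal.span {1 + 3 * y} : Ideal O)) = fun y : O => g s (1 + 3 * e y) := by
      funext y
      exact T2_term y s
    rw [h1]
    exact (Kf_summable 1 s hs).hasSum
  · intro J hJ
    have h1 : psiF J = 0 := by
      rw [psiF_apply, pg_of_not, map_zero, map_zero]
      rintro ⟨x, hx, y, hy⟩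
      apply hJ
      refine ⟨y, ?_⟩
      show Ideal.span {1 + 3 * y} = J
      rw [hx]
      congr 2
      linear_combination -hy
    show psiF J * _ = 0
    rw [h1, zero_mul]

theorem T2_unit : Unit2 (-(1 / 3 : ℂ)) := by
  intro A hA
  have h1 : A.valuation (3 : ℂ) = 1 := by
    have h2 : (3 : ℂ) = 1 + 2 := by norm_num
    rw [h2, Valuation.map_add_eq_of_lt_left]
    · exact map_one _
    · rw [map_one]
      exact hA
  rw [Valuation.map_neg, one_div, map_inv₀, h1, inv_one]

/-- Chunk T2 (M), the base of the induction: K = F. algebraMap F K is bijective, hence O -> 𝓞 K too, and J -> J.map is a bijection of the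
ideals (Ideal.map/comap of a ring equivalence), relNorm O (J.map) = J^1 (Ideal.relNorm_algebraMap), absNorm (J.map) = absNorm J
(Ideal.absNorm_relNorm). So the series is the sum over the ideals J of O of psiF J * (absNorm J)^(-s); psiF J is not 0 only for J = span {x}, x
primary (unique: x = pg J), x = 1 + 3 y, and the term is conj(e x) (Nm x)^(-s) = g s (1 + 3 e y) (Nm_eq: Nm x = |e x|^2).
The sum over y is Kf 1 s, absolutely convergent for Re s > 3/2 (H55B, see B1), Kf_one: Kf 1 s = -(1/3) G (e om - 1) s, G_analytic, G_one: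
the value at 1 is -(1/3) R0. -1/3 is a 2-adic unit. -/
theorem LV_base (K : Type) [Field K] [NumberField K] [Algebra F K] (h1 : Module.finrank F K = 1) :
    LV (Psi K) := by
  obtain ⟨ε, hε⟩ := T2_equiv K h1
  refine ⟨fun s => -(1 / 3) * G (e om - 1) s, ?_, ?_, ?_⟩
  · exact analyticOnNhd_const.mul (G_analytic (e om - 1))
  · intro s hs
    have h2 := T2_hasSum s hs
    rw [Kf_one s hs] at h2
    rw [← ε.hasSum_iff]
    refine h2.congr_fun fun J => ?_
    show psiF (Ideal.relNorm O (ε J)) * (Ideal.absNorm (ε J) : ℂ) ^ (-s) = _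
    rw [(hε J).1, (hε J).2]
  · have h3 := E5_R0.2
    have h4 : (fun s => -(1 / 3) * G (e om - 1) s) 1 / R0 ^ Module.finrank F K = -(1 / 3) := by
      rw [h1, pow_one]
      show -(1 / 3) * G (e om - 1) 1 / R0 = _
      rw [G_one]
      have h5 : R (e om - 1) = R0 := rfl
      rw [h5, mul_div_assoc, div_self h3, mul_one]
    rw [h4]
    exact T2_unit

end H55N
end

-- from Lib.H13Y.GN0
section

/-!
# H13Y, part GN: the global class over an arbitrary base field N (definitions)

L = N(E[π]), w a prime of N over γ with Nm w = Nm γ^f, π | γ^f - 1: there is a nonzero element of the χ-part of Lˣ modulo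
l-th powers, a unit outside w modulo l-th powers, trivial of level one at all primes above π. The proof counts: the
χ-part of the w-units has rank [N : F] + 1 (one for each infinite place of N and one for w) and the level at the primes
above π has values in a space of dimension at most [N : F] over k = O/π.
-/

open NumberField IsDedekindDomain

namespace H13Y

open H55B H55R H28G H99B

section gn

variable {N L : Type} [Field N] [Field L] [Algebra N L]

/-- The Galois action on the multiplicative group of L. -/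
noncomputable def guN : Gal(L/N) →* Monoid.End Lˣ where
  toFun σ := Units.map ((σ : L ≃ₐ[N] L) : L →* L)
  map_one' := by
    ext x
    rfl
  map_mul' σ τ := by
    ext x
    rfl

theorem guN_apply (σ : Gal(L/N)) (x : Lˣ) : ((guN σ x : Lˣ) : L) = σ (x : L) := rfl

/-- Equivariant homomorphisms from k to Lˣ modulo l-th powers, given by representatives. -/
structure EqHomN {k : Type} [Field k] (l : ℕ) (χ : Gal(L/N) →* kˣ) (m : k → Lˣ) : Prop where
  add : ∀ a b : k, ∃ z : Lˣ, m (a + b) = m a * m b * z ^ l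
  equiv : ∀ (σ : Gal(L/N)) (a : k), ∃ z : Lˣ, m (χ σ * a) = guN σ (m a) * z ^ l

variable [NumberField N] [NumberField L]

theorem ord_guN (v : Pl L) (σ : Gal(L/N)) (x : Lˣ) : ord v (guN σ x) = ord (smulP σ⁻¹ v) x := by
  have h := ord_smul σ (smulP σ⁻¹ v) x
  rw [← smulP_mul, mul_inv_cancel, smulP_one] at h
  exact h

/-- Local data at the totally ramified prime W of L: r is the reduction modulo W with values in κ, every element of κ is the
reduction of an element of 𝓞 N, t is a uniformizer on which the Galois group acts through χ modulo the square of W. -/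
structure LocN {k κ : Type} [Field k] [Field κ] (j : k →+* κ) (χ : Gal(L/N) →* kˣ) (W : Pl L) (t : Lˣ)
    (r : 𝓞 L →+* κ) : Prop where
  ker : ∀ x : 𝓞 L, r x = 0 ↔ x ∈ W.asIdeal
  surj : ∀ b : κ, ∃ y : 𝓞 N, r (algebraMap (𝓞 N) (𝓞 L) y) = b
  ram : ∀ y : 𝓞 N, r (algebraMap (𝓞 N) (𝓞 L) y) = 0 →
    W.valuation L (algebraMap N L (y : N)) ≤ WithZero.exp (-2 : ℤ)
  inv : ∀ σ : Gal(L/N), smulP σ W = W
  unif : ord W t = 1
  act : ∀ (σ : Gal(L/N)) (y : 𝓞 N), r (algebraMap (𝓞 N) (𝓞 L) y) = j (χ σ : k) →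
    W.valuation L (σ (t : L) - algebraMap N L (y : N) * (t : L)) ≤ WithZero.exp (-2 : ℤ)

/-- The residue field of a prime of L. -/
def Kap (W : Pl L) : Type := 𝓞 L ⧸ W.asIdeal

noncomputable instance instFieldKap (W : Pl L) : Field (Kap W) := @Ideal.Quotient.field _ _ W.asIdeal W.isMaximal

instance instFiniteKap (W : Pl L) : Finite (Kap W) := Ideal.finiteQuotientOfFreeOfNeBot W.asIdeal W.ne_bot

/-- The reduction. -/
noncomputable def kmk (W : Pl L) : 𝓞 L →+* Kap W := Ideal.Quotient.mk W.asIdeal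

theorem kmk_zero (W : Pl L) (x : 𝓞 L) : kmk W x = 0 ↔ x ∈ W.asIdeal := Ideal.Quotient.eq_zero_iff_mem

theorem kmk_surj (W : Pl L) : Function.Surjective (kmk W) := Ideal.Quotient.mk_surjective

/-- The units of L outside the primes above w. -/
def SU (L : Type) [Field L] [NumberField L] [Algebra N L] (w : Pl N) : Subgroup Lˣ where
  carrier := {x | ∀ v : Pl L, v.under (𝓞 N) ≠ w → ord v x = 0}
  mul_mem' := fun {x y} hx hy v hv => by
    rw [ord_mul, hx v hv, hy v hv, add_zero]
  one_mem' := fun v _ => ord_one v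
  inv_mem' := fun {x} hx v hv => by
    rw [ord_inv, hx v hv, neg_zero]

theorem mem_SU {w : Pl N} {x : Lˣ} : x ∈ SU L w ↔ ∀ v : Pl L, v.under (𝓞 N) ≠ w → ord v x = 0 := Iff.rfl

theorem SU_act {w : Pl N} (σ : Gal(L/N)) {x : Lˣ} (hx : x ∈ SU L w) : guN σ x ∈ SU L w := by
  intro v hv
  rw [ord_guN]
  exact hx _ (by rwa [under_smulP])

end gn

end H13Y
end

-- from Lib.H13Y.GN8a
section

open NumberField IsDedekindDomain

namespace H13Y

open H55B H55R H28G H99B

/-- Chunk GN8a (S/M). The product of the different prime ideals v in T divides the ideal π 𝓞 N (Finset.prod_primes_dvd or coprimality), so the product of their norms divides the absolute norm of π 𝓞 N = |Norm_{N/ℚ} π| = |Norm_{F/ℚ} π|^[N : F] = (Nm π)^[N : F] (Ideal.absNorm_span_singleton, Algebra.norm_norm, Algebra.norm_algebraMap; Nm π = absNorm (span {π})), which is not 0. -/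
theorem prod_norm_le {N : Type} [Field N] [NumberField N] [Algebra F N] {π : O} (h0 : π ≠ 0)
    (T : Finset (Pl N)) (hT : ∀ v ∈ T, algebraMap O (𝓞 N) π ∈ v.asIdeal) :
    ∏ v ∈ T, Ideal.absNorm v.asIdeal ≤ Nm π ^ Module.finrank F N := by
  classical
  have hinj : Function.Injective (algebraMap O (𝓞 N)) := FaithfulSMul.algebraMap_injective O (𝓞 N)
  have hπ : algebraMap O (𝓞 N) π ≠ 0 := by
    intro h
    exact h0 (hinj (by rw [h, map_zero]))
  have hdvd : ∏ v ∈ T, v.asIdeal ∣ Ideal.span {algebraMap O (𝓞 N) π} := by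
    have h1 : ∏ v ∈ T, v.asIdeal = ∏ P ∈ T.image (fun v => v.asIdeal), P := by
      rw [Finset.prod_image]
      intro v _ w _ hvw
      exact HeightOneSpectrum.ext hvw
    rw [h1]
    apply Finset.prod_primes_dvd
    · intro P hP
      rw [Finset.mem_image] at hP
      obtain ⟨v, -, rfl⟩ := hP
      exact v.prime
    · intro P hP
      rw [Finset.mem_image] at hP
      obtain ⟨v, hv, rfl⟩ := hP
      rw [Ideal.dvd_span_singleton]
      exact hT v hv
  have hnorm : Ideal.absNorm (Ideal.span {algebraMap O (𝓞 N) π}) = Nm π ^ Module.finrank F N := by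
    rw [Ideal.absNorm_span_singleton]
    unfold H55B.Nm
    rw [Ideal.absNorm_span_singleton, ← Int.natAbs_pow]
    congr 1
    have h1 : ((Algebra.norm ℤ (algebraMap O (𝓞 N) π) : ℤ) : ℚ) = ((Algebra.norm ℤ π ^ Module.finrank F N : ℤ) : ℚ) := by
      rw [Algebra.coe_norm_int]
      push_cast
      rw [Algebra.coe_norm_int]
      have h2 : ((algebraMap O (𝓞 N) π : 𝓞 N) : N) = algebraMap F N (π : F) := rfl
      rw [h2, ← Algebra.norm_norm (S := F), Algebra.norm_algebraMap, map_pow]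
    exact_mod_cast h1
  have h1 : Ideal.absNorm (∏ v ∈ T, v.asIdeal) ∣ Ideal.absNorm (Ideal.span {algebraMap O (𝓞 N) π}) :=
    Ideal.absNorm_dvd_absNorm_of_le (Ideal.le_of_dvd hdvd)
  rw [map_prod, hnorm] at h1
  apply Nat.le_of_dvd _ h1
  rw [← hnorm]
  apply Nat.pos_of_ne_zero
  rw [Ne, Ideal.absNorm_eq_zero_iff, Ideal.span_singleton_eq_bot]
  exact hπ

end H13Y
end

-- from Lib.H13Y.GN1
section

open NumberField IsDedekindDomain

namespace H13Y

open H55B H55R H28G H99B

section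

variable {N L : Type} [Field N] [NumberField N] [Field L] [NumberField L] [Algebra N L]
variable {l : ℕ} {k : Type} [Field k]

/-- Chunk GN1 (S/M), PORT of H99B.eta_hom (B5.lean) to the base field N: the maps a -> M_a x. (Look at B5.lean; the abstract lemmas on pw and cf there are general or copy them with guN for gu.) -/
theorem etaN_hom [Fact l.Prime] [Fintype k] [DecidableEq k] [CharP k l] (χ : Gal(L/N) →* kˣ)
    (ρ : k →+ ZMod l) (x : Lˣ) : EqHomN l χ fun a => pw guN (cf χ ρ a) x := by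
  constructor
  · intro a b
    have hcf : ∀ g, ∃ t : ℤ, cf χ ρ (a + b) g = cf χ ρ a g + cf χ ρ b g + t * l := by
      intro g
      have h : ((cf χ ρ a g + cf χ ρ b g : ℤ) : ZMod l) = ((cf χ ρ (a + b) g : ℤ) : ZMod l) := by
        unfold cf
        push_cast
        simp only [ZMod.natCast_zmod_val]
        rw [← map_add, ← add_mul]
      rw [ZMod.intCast_eq_intCast_iff_dvd_sub] at h
      obtain ⟨t, ht⟩ := h
      exact ⟨t, by rw [mul_comm t, ← ht]; ring⟩
    choose t ht using hcf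
    refine ⟨∏ g, (guN g x) ^ t g, ?_⟩
    change pw guN (cf χ ρ (a + b)) x = pw guN (cf χ ρ a) x * pw guN (cf χ ρ b) x * _
    unfold pw
    rw [← Finset.prod_mul_distrib, ← Finset.prod_pow, ← Finset.prod_mul_distrib]
    refine Finset.prod_congr rfl fun g _ => ?_
    rw [ht g, zpow_add, zpow_add, zpow_mul, zpow_natCast]
  · intro τ a
    refine ⟨1, ?_⟩
    rw [one_pow, mul_one]
    change pw guN (cf χ ρ (χ τ * a)) x = guN τ (pw guN (cf χ ρ a) x)
    unfold pw
    rw [map_prod]
    refine (Fintype.prod_equiv (Equiv.mulLeft τ) _ _ fun g => ?_).symm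
    simp only [Equiv.coe_mulLeft]
    rw [map_zpow, map_mul]
    have e : cf χ ρ ((χ τ : k) * a) (τ * g) = cf χ ρ a g := by
      unfold cf
      congr 3
      rw [map_mul, mul_inv, Units.val_mul]
      have h : (χ τ : k) * (((χ τ)⁻¹ : kˣ) : k) = 1 := Units.mul_inv _
      linear_combination (a * (((χ g)⁻¹ : kˣ) : k)) * h
    rw [e]
    rfl

theorem pwN_mem {w : Pl N} (α : Gal(L/N) → ℤ) {x : Lˣ} (hx : x ∈ SU L w) : pw guN α x ∈ SU L w := by
  unfold pw
  exact Subgroup.prod_mem _ fun σ _ => Subgroup.zpow_mem _ (SU_act σ hx) _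

/-- An l-th power in Lˣ of an element of SU is the l-th power of an element of SU. -/
theorem SU_pow {w : Pl N} (hl : l ≠ 0) {x z : Lˣ} (hx : x ∈ SU L w) (h : x = z ^ l) : z ∈ SU L w := by
  intro v hv
  have h1 := hx v hv
  rw [h, ← zpow_natCast, ord_zpow, mul_eq_zero] at h1
  rcases h1 with h1 | h1
  · exact absurd (by exact_mod_cast h1) hl
  · exact h1

end

end H13Y
end

-- from Lib.H99B.C1
section

/-!
Chunk C1 (M). The group of divisors and the class group with the action of the Galois group.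
Div = Pl L →₀ ℤ. divF x = the divisor of x (finite support: H55R.HA11_finite). gD σ = Finsupp.mapDomain (smulP σ) (a monoid homomorphism by smulP_mul, smulP_one;
mapDomain_comp). gD_div: gD σ (divF x) = divF (gu σ x): at smulP σ v both are ord v x (mapDomain_apply with the injectivity of smulP σ, ord_smul; every prime is
smulP σ v). gD_apply: value at smulP σ v.
fin_class: the quotient of Div by the principal divisors is finite: the additive map Div → Additive (ClassGroup (𝓞 L)) sending the basis vector of v to the class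
of v.asIdeal (ClassGroup.mk0) has kernel contained in the principal divisors: for D = D1 - D2 with D1, D2 ≥ 0 in the kernel, the ideals a1, a2 (products of primes) have the same
class, so x a1 = y a2 with integers x, y (ClassGroup.mk0_eq_mk0_iff), and D = div(y/x) (counting orders; ord of an integral element is the multiplicity in its ideal: H55R.ord_int
or HA5_ord). So Div / principal injects into the finite ClassGroup (or: it is a quotient of .. choose what is easiest; one can also prove that the index of the range of divF is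
not 0 by AddSubgroup.index / AddMonoidHom.ker, index_ker, index_antitone).
-/

open NumberField IsDedekindDomain

namespace H99B

open H55B H55R

variable {L : Type} [Field L] [NumberField L]

/-- The divisor of an element. -/
noncomputable def divF : Additive Lˣ →+ (Pl L →₀ ℤ) where
  toFun x := Finsupp.ofSupportFinite (fun v => ord v x.toMul) (HA11_finite x.toMul)
  map_zero' := by
    ext v
    exact ord_one v
  map_add' x y := by
    ext v
    exact ord_mul v x.toMul y.toMul

theorem divF_apply (x : Lˣ) (v : Pl L) : divF (Additive.ofMul x) v = ord v x := rfl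

open scoped nonZeroDivisors

/-- The fractional ideal of a prime. -/
noncomputable def c1_U (v : Pl L) : (FractionalIdeal (𝓞 L)⁰ L)ˣ :=
  Units.mk0 (v.asIdeal : FractionalIdeal (𝓞 L)⁰ L) (FractionalIdeal.coeIdeal_ne_zero.mpr v.ne_bot)

/-- The class of a divisor. -/
noncomputable def c1_phi : (Pl L →₀ ℤ) →+ Additive (ClassGroup (𝓞 L)) where
  toFun D := Additive.ofMul (ClassGroup.mk (K := L) (D.prod fun v n => c1_U v ^ n))
  map_zero' := by
    rw [Finsupp.prod_zero_index, map_one]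
    rfl
  map_add' D D' := by
    rw [Finsupp.prod_add_index' (fun v => zpow_zero _) (fun v m n => zpow_add _ _ _), map_mul]
    rfl

theorem c1_coe (D : Pl L →₀ ℤ) : (((D.prod fun v n => c1_U v ^ n : (FractionalIdeal (𝓞 L)⁰ L)ˣ)) :
    FractionalIdeal (𝓞 L)⁰ L) = D.prod fun v n => ((v.asIdeal : FractionalIdeal (𝓞 L)⁰ L)) ^ n := by
  unfold Finsupp.prod
  rw [Units.coe_prod]
  refine Finset.prod_congr rfl fun v _ => ?_
  rw [Units.val_zpow_eq_zpow_val]
  rfl

open Classical in
theorem c1_count (v : Pl L) (x : Lˣ) :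
    FractionalIdeal.count L v (FractionalIdeal.spanSingleton (𝓞 L)⁰ (x : L)) = ord v x := by
  obtain ⟨a, b, hb, hab⟩ := IsFractionRing.div_surjective (A := 𝓞 L) (x : L)
  have hinj : Function.Injective (algebraMap (𝓞 L) L) := IsFractionRing.injective (𝓞 L) L
  have hb0 : b ≠ 0 := nonZeroDivisors.ne_zero hb
  have ha0 : a ≠ 0 := by
    rintro rfl
    rw [map_zero, zero_div] at hab
    exact x.ne_zero hab.symm
  have hab0 : algebraMap (𝓞 L) L a ≠ 0 := by rwa [Ne, map_eq_zero_iff _ hinj]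
  have hbb0 : algebraMap (𝓞 L) L b ≠ 0 := by rwa [Ne, map_eq_zero_iff _ hinj]
  have h1 : FractionalIdeal.spanSingleton (𝓞 L)⁰ (x : L) =
      FractionalIdeal.spanSingleton (𝓞 L)⁰ ((algebraMap (𝓞 L) L b))⁻¹ * ((Ideal.span {a} : Ideal (𝓞 L)) : FractionalIdeal (𝓞 L)⁰ L) := by
    rw [FractionalIdeal.coeIdeal_span_singleton, FractionalIdeal.spanSingleton_mul_spanSingleton, ← hab, div_eq_inv_mul]
  have h0 : FractionalIdeal.spanSingleton (𝓞 L)⁰ (x : L) ≠ 0 :=
    FractionalIdeal.spanSingleton_ne_zero_iff.2 x.ne_zero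
  rw [FractionalIdeal.count_well_defined L v h0 h1]
  have e1 := HA5_ord v (Units.mk0 _ hab0) a ha0 rfl
  have e2 := HA5_ord v (Units.mk0 _ hbb0) b hb0 rfl
  have e3 : x * Units.mk0 _ hbb0 = Units.mk0 _ hab0 := by
    ext
    change (x : L) * algebraMap (𝓞 L) L b = algebraMap (𝓞 L) L a
    rw [← hab, div_mul_cancel₀ _ hbb0]
  have e4 := ord_mul v x (Units.mk0 _ hbb0)
  rw [e3, e1, e2] at e4
  linarith

theorem fin_class : Finite ((Pl L →₀ ℤ) ⧸ (divF (L := L)).range) := by
  classical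
  have hle : (c1_phi (L := L)).ker ≤ (divF (L := L)).range := by
    intro D hD
    rw [AddMonoidHom.mem_ker] at hD
    have h1 : ClassGroup.mk (K := L) (D.prod fun v n => c1_U v ^ n) = 1 := hD
    rw [ClassGroup.mk_eq_one_iff, FractionalIdeal.isPrincipal_iff] at h1
    obtain ⟨x, hx⟩ := h1
    have hx0 : x ≠ 0 := by
      rintro rfl
      rw [FractionalIdeal.spanSingleton_zero] at hx
      exact Units.ne_zero _ hx
    refine ⟨Additive.ofMul (Units.mk0 x hx0), ?_⟩
    ext v
    rw [divF_apply, ← c1_count v (Units.mk0 x hx0), Units.val_mk0, ← hx, c1_coe]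
    exact FractionalIdeal.count_finsuppProd L v D
  have h2 : (c1_phi (L := L)).ker.FiniteIndex := inferInstance
  have h3 : (divF (L := L)).range.FiniteIndex := AddSubgroup.finiteIndex_of_le hle
  infer_instance

variable [Algebra F L]

/-- The Galois action on the divisors. -/
noncomputable def gD : Gal(L/F) →* AddMonoid.End (Pl L →₀ ℤ) where
  toFun σ := Finsupp.mapDomain.addMonoidHom (smulP σ)
  map_one' := by
    refine AddMonoidHom.ext fun D => ?_
    change Finsupp.mapDomain (smulP (1 : Gal(L/F))) D = D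
    have h : (smulP (1 : Gal(L/F)) : Pl L → Pl L) = id := funext fun v => smulP_one v
    rw [h, Finsupp.mapDomain_id]
  map_mul' σ τ := by
    refine AddMonoidHom.ext fun D => ?_
    change Finsupp.mapDomain (smulP (σ * τ)) D = Finsupp.mapDomain (smulP σ) (Finsupp.mapDomain (smulP τ) D)
    have h : (smulP (σ * τ) : Pl L → Pl L) = smulP σ ∘ smulP τ := funext fun v => smulP_mul σ τ v
    rw [h, Finsupp.mapDomain_comp]

theorem c1_inj (σ : Gal(L/F)) : Function.Injective (smulP σ : Pl L → Pl L) := by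
  intro v w h
  have h1 := congrArg (smulP σ⁻¹) h
  rwa [← smulP_mul, ← smulP_mul, inv_mul_cancel, smulP_one, smulP_one] at h1

theorem gD_apply (σ : Gal(L/F)) (D : Pl L →₀ ℤ) (v : Pl L) : gD σ D (smulP σ v) = D v :=
  Finsupp.mapDomain_apply (c1_inj σ) D v

theorem gD_single (σ : Gal(L/F)) (v : Pl L) (n : ℤ) :
    gD σ (Finsupp.single v n) = Finsupp.single (smulP σ v) n :=
  Finsupp.mapDomain_single

theorem gD_div (σ : Gal(L/F)) (x : Lˣ) :
    gD σ (divF (Additive.ofMul x)) = divF (Additive.ofMul (gu σ x)) := by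
  ext v
  have h1 : v = smulP σ (smulP σ⁻¹ v) := by rw [← smulP_mul, mul_inv_cancel, smulP_one]
  rw [h1, gD_apply, divF_apply, divF_apply]
  exact (ord_smul σ (smulP σ⁻¹ v) x).symm

end H99B
end

-- from Lib.H13Y.GN7a
section

open NumberField IsDedekindDomain

namespace H13Y

open H55B H55R H28G H99B

/-- Chunk GN7a (S). Q^h is principal, h = the class number of L (or use the finiteness H99B.fin_class of divisors modulo principal divisors: h = the order of that group; divF). -/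
theorem exists_zQ {L : Type} [Field L] [NumberField L] (Q : Pl L) :
    ∃ (h : ℕ) (z : Lˣ), h ≠ 0 ∧ ord Q z = h ∧ ∀ v : Pl L, v ≠ Q → ord v z = 0 := by
  classical
  have hfin := fin_class (L := L)
  obtain ⟨h, hh, he⟩ := isOfFinAddOrder_iff_nsmul_eq_zero.1
    (isOfFinAddOrder_of_finite (QuotientAddGroup.mk (s := (divF (L := L)).range) (Finsupp.single Q (1 : ℤ))))
  have h1 : QuotientAddGroup.mk (s := (divF (L := L)).range) (h • Finsupp.single Q (1 : ℤ)) = 0 := he
  rw [QuotientAddGroup.eq_zero_iff] at h1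
  obtain ⟨z, hz⟩ := h1
  refine ⟨h, z.toMul, hh.ne', ?_, ?_⟩
  · have h2 := DFunLike.congr_fun hz Q
    have h3 : ord Q z.toMul = (h • Finsupp.single Q (1 : ℤ)) Q := h2
    rw [h3, Finsupp.smul_apply, Finsupp.single_eq_same, nsmul_eq_mul, mul_one]
  · intro v hv
    have h2 := DFunLike.congr_fun hz v
    have h3 : ord v z.toMul = (h • Finsupp.single Q (1 : ℤ)) v := h2
    rw [h3, Finsupp.smul_apply, Finsupp.single_eq_of_ne hv, smul_zero]

/-- Second lemma of the chunk GN7a (S). An element of Lˣ with ord v x = 0 for all v comes from a unit of 𝓞 L. -/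
theorem unit_of_ord {L : Type} [Field L] [NumberField L] {x : Lˣ} (hx : ∀ v : Pl L, ord v x = 0) :
    ∃ u : (𝓞 L)ˣ, ((u : 𝓞 L) : L) = (x : L) := by
  obtain ⟨u, hu⟩ := HA7_unit x hx
  exact ⟨u, congrArg Units.val hu⟩

end H13Y
end

-- from Lib.H13Y.GN7c
section

open NumberField IsDedekindDomain

namespace H13Y

open H55B H55R H28G H99B

theorem gn7c_above {N L : Type} [Field N] [NumberField N] [Field L] [NumberField L] [Algebra N L] (w : Pl N) :
    {W : Pl L | W.under (𝓞 N) = w}.Finite := by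
  have hm := w.isMaximal
  have h1 : (w.asIdeal.primesOver (𝓞 L)).Finite := IsDedekindDomain.primesOver_finite w.asIdeal (𝓞 L)
  refine Set.Finite.of_finite_image (f := fun W : Pl L => W.asIdeal) (h1.subset ?_) ?_
  · rintro _ ⟨W, hW, rfl⟩
    exact ⟨W.isPrime, ⟨(congrArg HeightOneSpectrum.asIdeal hW).symm⟩⟩
  · intro W _ W' _ h
    exact HeightOneSpectrum.ext h

theorem gn7c_ord {L : Type} [Field L] [NumberField L] (T : Finset (Pl L)) (z : Pl L → Lˣ) (k : Pl L → ℤ) (v : Pl L) :
    ord v (∏ Q ∈ T, z Q ^ (k Q)) = ∑ Q ∈ T, k Q * ord v (z Q) := by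
  classical
  induction T using Finset.induction_on with
  | empty => simp [ord_one]
  | insert a s ha ih => rw [Finset.prod_insert ha, Finset.sum_insert ha, ord_mul, ord_zpow, ih]

/-- Chunk GN7c (S/M). The primes of L above w are finitely many (Q₁, ..., Q_n). h = the product of the h of exists_zQ for the Q_i (or a common h), z_i with (z_i) = Q_i^h. x in SU: x^h times the product of z_i^(- ord Q_i x) has all orders 0: a unit (unit_of_ord). B = the subgroup generated by the image of the units (finitely generated: Mathlib, Monoid.FG of (𝓞 L)ˣ; Subgroup.FG.map or Subgroup.fg_range) and the z_i. -/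
theorem SU_fg {N L : Type} [Field N] [NumberField N] [Field L] [NumberField L] [Algebra N L] (w : Pl N) :
    ∃ (h : ℕ) (B : Subgroup Lˣ), h ≠ 0 ∧ B.FG ∧ B ≤ SU L w ∧ ∀ x ∈ SU L w, x ^ h ∈ B := by
  classical
  have hfin : {W : Pl L | W.under (𝓞 N) = w}.Finite := gn7c_above w
  set T : Finset (Pl L) := hfin.toFinset with hT
  have hmT : ∀ W : Pl L, W ∈ T ↔ W.under (𝓞 N) = w := fun W => by simp [hT]
  choose hh z hz0 hz1 hz2 using fun Q : Pl L => exists_zQ Q
  let U : Subgroup Lˣ := (Units.map (algebraMap (𝓞 L) L : 𝓞 L →* L)).range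
  have hUfg : U.FG := by
    rw [← Group.fg_iff_subgroup_fg]
    have h1 : Group.FG (𝓞 L)ˣ := Group.fg_iff_monoid_fg.2 inferInstance
    exact Group.fg_of_surjective (f := (Units.map (algebraMap (𝓞 L) L : 𝓞 L →* L)).rangeRestrict)
      (MonoidHom.rangeRestrict_surjective _)
  let C : Subgroup Lˣ := Subgroup.closure (T.image z : Set Lˣ)
  have hCfg : C.FG := ⟨T.image z, rfl⟩
  refine ⟨∏ Q ∈ T, hh Q, U ⊔ C, Finset.prod_ne_zero_iff.2 fun Q _ => hz0 Q, hUfg.sup hCfg, ?_, ?_⟩
  · apply sup_le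
    · rintro _ ⟨u, rfl⟩ v _
      exact HA7_ord_unit u v
    · rw [Subgroup.closure_le]
      intro y hy
      rw [Finset.mem_coe, Finset.mem_image] at hy
      obtain ⟨Q, hQ, rfl⟩ := hy
      intro v hv
      apply hz2 Q v
      rintro rfl
      exact hv ((hmT v).1 hQ)
  · intro x hx
    let k : Pl L → ℤ := fun Q => ord Q x * ∏ P ∈ T.erase Q, (hh P : ℤ)
    have hu : ∀ v : Pl L, ord v (x ^ (∏ Q ∈ T, hh Q) * (∏ Q ∈ T, z Q ^ (k Q))⁻¹) = 0 := by
      intro v
      have e1 := gn7c_ord T z k v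
      have e2 : ord v (x ^ (∏ Q ∈ T, hh Q)) = ((∏ Q ∈ T, hh Q : ℕ) : ℤ) * ord v x := by
        rw [← zpow_natCast, ord_zpow]
      rw [ord_mul, ord_inv, e1, e2]
      by_cases hv : v ∈ T
      · rw [Finset.sum_eq_single_of_mem v hv]
        · rw [hz1 v, ← Finset.mul_prod_erase T hh hv]
          simp only [k]
          push_cast
          ring
        · intro Q _ hQv
          rw [hz2 Q v (Ne.symm hQv), mul_zero]
      · have h1 : ord v x = 0 := hx v (fun h => hv ((hmT v).2 h))
        rw [h1, mul_zero, zero_add, neg_eq_zero]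
        apply Finset.sum_eq_zero
        intro Q hQ
        rw [hz2 Q v (fun h => hv (h ▸ hQ)), mul_zero]
    obtain ⟨u, hu'⟩ := HA7_unit _ hu
    have hx2 : x ^ (∏ Q ∈ T, hh Q) = Units.map (algebraMap (𝓞 L) L : 𝓞 L →* L) u * ∏ Q ∈ T, z Q ^ (k Q) := by
      rw [hu', inv_mul_cancel_right]
    rw [hx2]
    apply Subgroup.mul_mem
    · exact Subgroup.mem_sup_left ⟨u, rfl⟩
    · apply Subgroup.mem_sup_right
      apply Subgroup.prod_mem
      intro Q hQ
      apply Subgroup.zpow_mem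
      apply Subgroup.subset_closure
      rw [Finset.mem_coe]
      exact Finset.mem_image_of_mem z hQ

end H13Y
end

-- from Lib.H13Z.GA4
section

open NumberField IsDedekindDomain

namespace H13Z

open H55B H55R H99B

open scoped WithZero

theorem GA4_g1 {G : Type} [CommGroup G] (p q x : G) : p * q * (x * p⁻¹) = x * q := by
  have h : p * q * (x * p⁻¹) = x * q * (p * p⁻¹) := by ac_rfl
  rw [h, mul_inv_cancel, mul_one]

theorem GA4_g2 {G : Type} [CommGroup G] (p q s u v : G) :
    p * q * s * (u⁻¹ * v⁻¹ * s⁻¹) = p * u⁻¹ * (q * v⁻¹) := by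
  have h : p * q * s * (u⁻¹ * v⁻¹ * s⁻¹) = p * u⁻¹ * (q * v⁻¹) * (s * s⁻¹) := by ac_rfl
  rw [h, mul_inv_cancel, mul_one]

theorem GA4_g3 {G : Type} [CommGroup G] (x p q : G) : x * (p⁻¹ * q⁻¹) * q = x * p⁻¹ := by
  have h : x * (p⁻¹ * q⁻¹) * q = x * p⁻¹ * (q * q⁻¹) := by ac_rfl
  rw [h, mul_inv_cancel, mul_one]
theorem GA4_lift {L : Type} [Field L] [NumberField L] [Algebra F L]
    {k : Type} [Field k] {χ : Gal(L/F) →* kˣ} {w : Pl L} {t : Lˣ}
    {r : 𝓞 L →+* k} (hloc : Loc χ w t r) (x : L) (hx : w.valuation L x ≤ 1) :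
    ∃ y0 : 𝓞 F, w.valuation L (x - algebraMap F L (y0 : F)) ≤ WithZero.exp (-1 : ℤ) := by
  obtain ⟨n, d, h⟩ := HeightOneSpectrum.exists_primeCompl_mul_eq_of_integer w x hx
  have hd : (d : 𝓞 L) ∉ w.asIdeal := d.2
  have hd1 : w.valuation L (algebraMap (𝓞 L) L (d : 𝓞 L)) = 1 :=
    (HeightOneSpectrum.valuation_eq_one_iff_notMem (K := L) w).2 hd
  have hrd : r (d : 𝓞 L) ≠ 0 := fun h => hd ((hloc.ker _).1 h)
  obtain ⟨y0, hy0⟩ := hloc.surj (r n / r (d : 𝓞 L))
  refine ⟨y0, e1_lt ?_⟩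
  have hmem : n - (d : 𝓞 L) * algebraMap (𝓞 F) (𝓞 L) y0 ∈ w.asIdeal := by
    rw [← hloc.ker, map_sub, map_mul, hy0, mul_div_cancel₀ _ hrd, sub_self]
  have hlt : w.valuation L (algebraMap (𝓞 L) L (n - (d : 𝓞 L) * algebraMap (𝓞 F) (𝓞 L) y0)) < 1 :=
    (w.valuation_lt_one_iff_mem (K := L) _).2 hmem
  have e : algebraMap (𝓞 L) L (n - (d : 𝓞 L) * algebraMap (𝓞 F) (𝓞 L) y0) =
      (x - algebraMap F L (y0 : F)) * algebraMap (𝓞 L) L (d : 𝓞 L) := by
    have h2 : algebraMap (𝓞 L) L (algebraMap (𝓞 F) (𝓞 L) y0) = algebraMap F L (y0 : F) := rfl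
    rw [map_sub, map_mul, ← h, h2]
    ring
  rw [e, map_mul, hd1, mul_one] at hlt
  exact hlt

theorem GA4_vl {L : Type} [Field L] [NumberField L] [Algebra F L] {l : ℕ}
    {k : Type} [Field k] [CharP k l] {χ : Gal(L/F) →* kˣ} {w : Pl L} {t : Lˣ}
    {r : 𝓞 L →+* k} (hloc : Loc χ w t r) :
    w.valuation L ((l : ℕ) : L) ≤ WithZero.exp (-2 : ℤ) := by
  have h3 := hloc.ram ((l : ℕ) : 𝓞 F) (by rw [map_natCast, map_natCast, CharP.cast_eq_zero])
  have e1 : algebraMap F L (((l : ℕ) : 𝓞 F) : F) = ((l : ℕ) : L) := by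
    have : (((l : ℕ) : 𝓞 F) : F) = ((l : ℕ) : F) := map_natCast (algebraMap (𝓞 F) F) l
    rw [this, map_natCast]
  rw [e1] at h3
  exact h3

theorem GA4_21 : WithZero.exp (-2 : ℤ) ≤ WithZero.exp (-1 : ℤ) := by
  rw [WithZero.exp_le_exp]
  norm_num

theorem GA4_1 : WithZero.exp (-1 : ℤ) < 1 := by
  rw [← WithZero.exp_zero, WithZero.exp_lt_exp]
  norm_num

theorem GA4_t {L : Type} [Field L] [NumberField L] [Algebra F L]
    {k : Type} [Field k] {χ : Gal(L/F) →* kˣ} {w : Pl L} {t : Lˣ}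
    {r : 𝓞 L →+* k} (hloc : Loc χ w t r) : w.valuation L (t : L) = WithZero.exp (-1 : ℤ) := by
  rw [BF1_val, hloc.unif]

/-- An l-th power congruent to 1 modulo w is congruent to 1 modulo the square. -/
theorem GA4_root {L : Type} [Field L] [NumberField L] [Algebra F L] {l : ℕ} [Fact l.Prime]
    {k : Type} [Field k] [CharP k l] {χ : Gal(L/F) →* kˣ} {w : Pl L} {t : Lˣ}
    {r : 𝓞 L →+* k} (hloc : Loc χ w t r) (y : L) (hy : w.valuation L y ≤ 1)
    (h : w.valuation L (y ^ l - 1) ≤ WithZero.exp (-1 : ℤ)) :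
    w.valuation L (y ^ l - 1) ≤ WithZero.exp (-2 : ℤ) := by
  obtain ⟨y0, hy0⟩ := GA4_lift hloc y hy
  have hpow := e1_lpow (w.valuation L) (Fact.out : l.Prime) (GA4_vl hloc) (e1_val hloc y0).1 hy0
  have e3 : algebraMap F L (y0 : F) + (y - algebraMap F L (y0 : F)) = y := by ring
  rw [e3] at hpow
  have e5 : algebraMap F L (y0 : F) ^ l - 1 = algebraMap F L ((y0 ^ l - 1 : 𝓞 F) : F) := by
    have : ((y0 ^ l - 1 : 𝓞 F) : F) = (y0 : F) ^ l - 1 := rfl
    rw [this, map_sub, map_pow, map_one]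
  have hlt : w.valuation L (algebraMap F L ((y0 ^ l - 1 : 𝓞 F) : F)) < 1 := by
    rw [← e5]
    have e6 : algebraMap F L (y0 : F) ^ l - 1 = (y ^ l - 1) -
        (y ^ l - algebraMap F L (y0 : F) ^ l) := by ring
    rw [e6]
    exact lt_of_le_of_lt (Valuation.map_sub_le _ h (hpow.trans GA4_21)) GA4_1
  have h7 := hloc.ram _ ((e1_val hloc _).2 hlt)
  rw [← e5] at h7
  have e6 : y ^ l - 1 = (y ^ l - algebraMap F L (y0 : F) ^ l) + (algebraMap F L (y0 : F) ^ l - 1) := by
    ring
  rw [e6]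
  exact Valuation.map_add_le _ hpow h7

/-- An element congruent to 1 + c t is a unit, congruent to 1. -/
theorem GA4_one {L : Type} [Field L] [NumberField L] [Algebra F L]
    {k : Type} [Field k] {χ : Gal(L/F) →* kˣ} {w : Pl L} {t : Lˣ}
    {r : 𝓞 L →+* k} (hloc : Loc χ w t r) (u : L) (c : 𝓞 F)
    (h : w.valuation L (u - 1 - algebraMap F L (c : F) * (t : L)) ≤ WithZero.exp (-2 : ℤ)) :
    w.valuation L (u - 1) ≤ WithZero.exp (-1 : ℤ) ∧ w.valuation L u = 1 := by
  have h1 : w.valuation L (u - 1) ≤ WithZero.exp (-1 : ℤ) := by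
    have e : u - 1 = (u - 1 - algebraMap F L (c : F) * (t : L)) + algebraMap F L (c : F) * (t : L) := by
      ring
    rw [e]
    refine Valuation.map_add_le _ (h.trans GA4_21) ?_
    rw [map_mul, GA4_t hloc]
    calc _ ≤ 1 * WithZero.exp (-1 : ℤ) := mul_le_mul' (e1_val hloc c).1 le_rfl
      _ = _ := one_mul _
  refine ⟨h1, ?_⟩
  have e : u = 1 + (u - 1) := by ring
  rw [e]
  exact Valuation.map_one_add_of_lt _ (lt_of_le_of_lt h1 GA4_1)

/-- Chunk GA4 (M), three lemmas on the level one component c of an element x = z^l (1 + c t + ..), c in 𝓞 F modulo w. First: existence. y = x/s^l with ord w y = 0 (s = power of t, hloc.unif); y or its inverse is a unit at w; the residue field is k (finite of characteristic l, Frobenius surjective, hloc.surj): b in 𝓞 F,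
b not in w, with w.valuation (y - b^l) < 1 (write y as a quotient of integers prime to w: H55R.HB1, or exists_frac). u = y/b^l is congruent to 1; (u - 1)/t is w-integral, congruent to an element c of 𝓞 F (hloc.surj, hloc.ker; again through a quotient of integers). -/
theorem lev_exists {L : Type} [Field L] [NumberField L] [Algebra F L] {l : ℕ} [Fact l.Prime]
    {k : Type} [Field k] [Fintype k] [DecidableEq k] [CharP k l] {χ : Gal(L/F) →* kˣ} {w : Pl L} {t : Lˣ}
    {r : 𝓞 L →+* k} (hloc : Loc χ w t r) (x : Lˣ) (hx : (l : ℤ) ∣ ord w x) :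
    ∃ (c : 𝓞 F) (z : Lˣ), w.valuation L (((x * (z ^ l)⁻¹ : Lˣ) : L) - 1 -
      algebraMap F L (c : F) * (t : L)) ≤ WithZero.exp (-2 : ℤ) := by
  have hlp : l.Prime := Fact.out
  obtain ⟨n, hn⟩ := hx
  have ht := GA4_t hloc
  obtain ⟨y, hy⟩ : ∃ y : Lˣ, y = x * ((t ^ n) ^ l)⁻¹ := ⟨_, rfl⟩
  have hoy : ord w y = 0 := by
    rw [hy, ord_mul, ord_inv, ← zpow_natCast, ← zpow_mul, ord_zpow, hloc.unif, hn]
    ring
  have hvy : w.valuation L (y : L) = 1 := by
    rw [BF1_val, hoy, neg_zero, WithZero.exp_zero]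
  obtain ⟨y0, hy0⟩ := GA4_lift hloc (y : L) hvy.le
  have hvy0 : w.valuation L (algebraMap F L (y0 : F)) = 1 := by
    have e : algebraMap F L (y0 : F) = (y : L) - ((y : L) - algebraMap F L (y0 : F)) := by ring
    refine le_antisymm (e1_val hloc y0).1 (not_lt.1 fun hlt => ?_)
    have e2 : (y : L) = ((y : L) - algebraMap F L (y0 : F)) + algebraMap F L (y0 : F) := by ring
    have h3 := Valuation.map_add_lt _ (lt_of_le_of_lt hy0 GA4_1) hlt
    rw [← e2, hvy] at h3
    exact lt_irrefl _ h3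
  obtain ⟨b0, hb0⟩ : ∃ b0 : k, b0 ^ l = r (algebraMap (𝓞 F) (𝓞 L) y0) := by
    have : ExpChar k l := ExpChar.prime hlp
    have hsur : Function.Surjective (frobenius k l) :=
      Finite.surjective_of_injective (frobenius k l).injective
    obtain ⟨b0, hb0⟩ := hsur (r (algebraMap (𝓞 F) (𝓞 L) y0))
    exact ⟨b0, hb0⟩
  obtain ⟨b, hb⟩ := hloc.surj b0
  have e5 : algebraMap F L (b : F) ^ l - algebraMap F L (y0 : F) =
      algebraMap F L ((b ^ l - y0 : 𝓞 F) : F) := by
    have : ((b ^ l - y0 : 𝓞 F) : F) = (b : F) ^ l - (y0 : F) := rfl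
    rw [this, map_sub, map_pow]
  have hby := hloc.ram (b ^ l - y0) (by rw [map_sub, map_sub, map_pow, map_pow, hb, hb0, sub_self])
  rw [← e5] at hby
  have hyb : w.valuation L ((y : L) - algebraMap F L (b : F) ^ l) ≤ WithZero.exp (-1 : ℤ) := by
    have e : (y : L) - algebraMap F L (b : F) ^ l = ((y : L) - algebraMap F L (y0 : F)) -
        (algebraMap F L (b : F) ^ l - algebraMap F L (y0 : F)) := by ring
    rw [e]
    exact Valuation.map_sub_le _ hy0 (hby.trans GA4_21)
  have hvbl : w.valuation L (algebraMap F L (b : F) ^ l) = 1 := by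
    have h1 : w.valuation L (algebraMap F L (b : F) ^ l) ≤ 1 := by
      rw [map_pow]
      exact pow_le_one' (e1_val hloc b).1 l
    refine le_antisymm h1 (not_lt.1 fun hlt => ?_)
    have e2 : (y : L) = ((y : L) - algebraMap F L (b : F) ^ l) + algebraMap F L (b : F) ^ l := by ring
    have h3 := Valuation.map_add_lt _ (lt_of_le_of_lt hyb GA4_1) hlt
    rw [← e2, hvy] at h3
    exact lt_irrefl _ h3
  have hb0' : algebraMap F L (b : F) ≠ 0 := by
    intro h0
    rw [h0, zero_pow hlp.ne_zero, map_zero] at hvbl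
    exact zero_ne_one hvbl
  obtain ⟨B, hB⟩ : ∃ B : Lˣ, (B : L) = algebraMap F L (b : F) := ⟨Units.mk0 _ hb0', rfl⟩
  obtain ⟨u, hu⟩ : ∃ u : Lˣ, u = x * ((t ^ n * B) ^ l)⁻¹ := ⟨_, rfl⟩
  have huy : (u : L) * algebraMap F L (b : F) ^ l = (y : L) := by
    have h1 : u * B ^ l = y := by
      rw [hu, hy, mul_pow, mul_inv]
      exact GA4_g3 _ _ _
    rw [← h1, Units.val_mul, Units.val_pow_eq_pow_val, hB]
  have hu1 : w.valuation L ((u : L) - 1) ≤ WithZero.exp (-1 : ℤ) := by
    have e : ((u : L) - 1) * algebraMap F L (b : F) ^ l = (y : L) - algebraMap F L (b : F) ^ l := by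
      rw [← huy]
      ring
    have h2 := congrArg (w.valuation L) e
    rw [map_mul, hvbl, mul_one] at h2
    rw [h2]
    exact hyb
  have ht0 : (t : L) ≠ 0 := t.ne_zero
  have hvt0 : w.valuation L (t : L) ≠ 0 := by
    rw [ht]
    exact WithZero.exp_ne_zero
  have hut : w.valuation L (((u : L) - 1) / (t : L)) ≤ 1 := by
    rw [map_div₀]
    refine div_le_one_of_le₀ ?_ zero_le
    rw [ht]
    exact hu1
  obtain ⟨c, hc⟩ := GA4_lift hloc (((u : L) - 1) / (t : L)) hut
  refine ⟨c, t ^ n * B, ?_⟩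
  rw [← hu]
  have e : (u : L) - 1 - algebraMap F L (c : F) * (t : L) =
      (((u : L) - 1) / (t : L) - algebraMap F L (c : F)) * (t : L) := by
    rw [sub_mul, div_mul_cancel₀ _ ht0]
  rw [e, map_mul, ht]
  calc _ ≤ WithZero.exp (-1 : ℤ) * WithZero.exp (-1 : ℤ) := mul_le_mul' hc le_rfl
    _ = _ := by
      rw [← WithZero.exp_add]
      norm_num

/-- Uniqueness: (z'/z)^l = u/u' is congruent to 1 modulo w, so z'/z is congruent to 1 modulo w (Frobenius injective: (z'/z - 1)^l = (z'/z)^l - 1 modulo l), (z'/z)^l is congruent to 1 modulo the square (e1_lpow, hloc.ram for l), so u = u' modulo the square. -/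
theorem lev_unique {L : Type} [Field L] [NumberField L] [Algebra F L] {l : ℕ} [Fact l.Prime]
    {k : Type} [Field k] [Fintype k] [DecidableEq k] [CharP k l] {χ : Gal(L/F) →* kˣ} {w : Pl L} {t : Lˣ}
    {r : 𝓞 L →+* k} (hloc : Loc χ w t r) (x : Lˣ) (c c' : 𝓞 F) (z z' : Lˣ)
    (h : w.valuation L (((x * (z ^ l)⁻¹ : Lˣ) : L) - 1 - algebraMap F L (c : F) * (t : L)) ≤
      WithZero.exp (-2 : ℤ))
    (h' : w.valuation L (((x * (z' ^ l)⁻¹ : Lˣ) : L) - 1 - algebraMap F L (c' : F) * (t : L)) ≤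
      WithZero.exp (-2 : ℤ)) :
    r (algebraMap (𝓞 F) (𝓞 L) c) = r (algebraMap (𝓞 F) (𝓞 L) c') := by
  have hlp : l.Prime := Fact.out
  obtain ⟨u, hu⟩ : ∃ u : Lˣ, u = x * (z ^ l)⁻¹ := ⟨_, rfl⟩
  obtain ⟨u', hu'⟩ : ∃ u' : Lˣ, u' = x * (z' ^ l)⁻¹ := ⟨_, rfl⟩
  rw [← hu] at h
  rw [← hu'] at h'
  obtain ⟨h1, h2⟩ := GA4_one hloc (u : L) c h
  obtain ⟨h1', h2'⟩ := GA4_one hloc (u' : L) c' h'
  obtain ⟨y, hy⟩ : ∃ y : Lˣ, y = z' * z⁻¹ := ⟨_, rfl⟩
  have hyu : (y : L) ^ l * (u' : L) = (u : L) := by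
    have h3 : y ^ l * u' = u := by
      rw [hy, hu, hu', mul_pow, inv_pow]
      exact GA4_g1 _ _ _
    rw [← h3, Units.val_mul, Units.val_pow_eq_pow_val]
  have hvyl : w.valuation L ((y : L) ^ l) = 1 := by
    have h4 := congrArg (w.valuation L) hyu
    rw [map_mul, h2', mul_one, h2] at h4
    exact h4
  have hvy : w.valuation L (y : L) = 1 := by
    rw [map_pow] at hvyl
    exact (pow_eq_one_iff_of_nonneg zero_le hlp.ne_zero).1 hvyl
  have huu : ((y : L) ^ l - 1) * (u' : L) = (u : L) - (u' : L) := by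
    rw [← hyu]
    ring
  have hvuu := congrArg (w.valuation L) huu
  rw [map_mul, h2', mul_one] at hvuu
  have h5 : w.valuation L ((y : L) ^ l - 1) ≤ WithZero.exp (-1 : ℤ) := by
    rw [hvuu]
    have e : (u : L) - (u' : L) = ((u : L) - 1) - ((u' : L) - 1) := by ring
    rw [e]
    exact Valuation.map_sub_le _ h1 h1'
  have h6 := GA4_root hloc (y : L) hvy.le h5
  rw [hvuu] at h6
  have h7 : w.valuation L (algebraMap F L ((c - c' : 𝓞 F) : F) * (t : L)) ≤ WithZero.exp (-2 : ℤ) := by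
    have e : algebraMap F L ((c - c' : 𝓞 F) : F) * (t : L) = (((u : L) - (u' : L)) -
        ((u : L) - 1 - algebraMap F L (c : F) * (t : L))) +
        ((u' : L) - 1 - algebraMap F L (c' : F) * (t : L)) := by
      have : ((c - c' : 𝓞 F) : F) = (c : F) - (c' : F) := rfl
      rw [this, map_sub]
      ring
    rw [e]
    exact Valuation.map_add_le _ (Valuation.map_sub_le _ h6 h) h'
  have h8 : w.valuation L (algebraMap F L ((c - c' : 𝓞 F) : F)) < 1 := by
    rw [map_mul, GA4_t hloc] at h7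
    refine not_le.1 fun hge => ?_
    have h9 : WithZero.exp (-1 : ℤ) ≤ WithZero.exp (-2 : ℤ) := by
      calc WithZero.exp (-1 : ℤ) = 1 * WithZero.exp (-1 : ℤ) := (one_mul _).symm
        _ ≤ w.valuation L (algebraMap F L ((c - c' : 𝓞 F) : F)) * WithZero.exp (-1 : ℤ) :=
          mul_le_mul' hge le_rfl
        _ ≤ _ := h7
    rw [WithZero.exp_le_exp] at h9
    norm_num at h9
  have h10 := (e1_val hloc _).2 h8
  rw [map_sub, map_sub] at h10
  exact sub_eq_zero.1 h10

/-- The level map of an equivariant homomorphism is k-linear: there is f in k with: x = m a implies r c = f a. Put g a = the level of m a (lev_exists, well defined by lev_unique). Additive: hm.add, products (e1_mul), l-th powers have level 0 (or use z z'). Equivariant: hm.equiv, σ(1 + c t + ..) = 1 + c σ t + ..,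
σ t = y t modulo the square with r y = χ σ (hloc.act, hloc.surj), hloc.inv for the valuation (e1_gal). So g(χ σ a) = χ σ g a, χ is surjective onto kˣ: g a = g 1 * a. -/
theorem lev_linear {L : Type} [Field L] [NumberField L] [Algebra F L] {l : ℕ} [Fact l.Prime]
    {k : Type} [Field k] [Fintype k] [DecidableEq k] [CharP k l] {χ : Gal(L/F) →* kˣ}
    (hχ : Function.Bijective χ) {w : Pl L} {t : Lˣ} {r : 𝓞 L →+* k} (hloc : Loc χ w t r) {m : k → Lˣ}
    (hm : EqHom l χ m) (hw : ∀ a, (l : ℤ) ∣ ord w (m a)) :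
    ∃ f : k, ∀ (a : k) (c : 𝓞 F) (z : Lˣ),
      w.valuation L (((m a * (z ^ l)⁻¹ : Lˣ) : L) - 1 - algebraMap F L (c : F) * (t : L)) ≤
        WithZero.exp (-2 : ℤ) → r (algebraMap (𝓞 F) (𝓞 L) c) = f * a := by
  choose C Z hC using fun a => lev_exists hloc (m a) (hw a)
  have ht := GA4_t hloc
  have hadd : ∀ a b : k, r (algebraMap (𝓞 F) (𝓞 L) (C (a + b))) =
      r (algebraMap (𝓞 F) (𝓞 L) (C a)) + r (algebraMap (𝓞 F) (𝓞 L) (C b)) := by
    intro a b
    obtain ⟨z, hz⟩ := hm.add a b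
    have e1 : m (a + b) * ((Z a * Z b * z) ^ l)⁻¹ = (m a * (Z a ^ l)⁻¹) * (m b * (Z b ^ l)⁻¹) := by
      rw [hz, mul_pow, mul_pow, mul_inv, mul_inv]
      exact GA4_g2 _ _ _ _ _
    have h1 := e1_mul (w.valuation L) ht.le (e1_val hloc (C a)).1 (e1_val hloc (C b)).1 (hC a) (hC b)
    rw [← Units.val_mul, ← e1] at h1
    have e2 : algebraMap F L (C a : F) + algebraMap F L (C b : F) =
        algebraMap F L ((C a + C b : 𝓞 F) : F) := by
      have : ((C a + C b : 𝓞 F) : F) = (C a : F) + (C b : F) := rfl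
      rw [this, map_add]
    rw [e2] at h1
    have h2 := lev_unique hloc (m (a + b)) (C (a + b)) (C a + C b) (Z (a + b)) (Z a * Z b * z)
      (hC (a + b)) h1
    rw [h2, map_add, map_add]
  have hequiv : ∀ (σ : Gal(L/F)) (a : k), r (algebraMap (𝓞 F) (𝓞 L) (C (χ σ * a))) =
      (χ σ : k) * r (algebraMap (𝓞 F) (𝓞 L) (C a)) := by
    intro σ a
    obtain ⟨z, hz⟩ := hm.equiv σ a
    obtain ⟨X, hX⟩ := hloc.surj (χ σ : k)
    have e1 : m (χ σ * a) * ((gu σ (Z a) * z) ^ l)⁻¹ = gu σ (m a * (Z a ^ l)⁻¹) := by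
      rw [hz, map_mul, map_inv, map_pow, mul_pow, mul_inv, mul_assoc]
      congr 1
      rw [mul_comm ((gu σ (Z a) ^ l)⁻¹), mul_inv_cancel_left]
    have h1 : w.valuation L (σ (((m a * (Z a ^ l)⁻¹ : Lˣ) : L) - 1 -
        algebraMap F L (C a : F) * (t : L))) ≤ WithZero.exp (-2 : ℤ) := by
      rw [e1_gal (hloc.inv σ)]
      exact hC a
    have h0 : σ (((m a * (Z a ^ l)⁻¹ : Lˣ) : L) - 1 - algebraMap F L (C a : F) * (t : L)) =
        σ ((m a * (Z a ^ l)⁻¹ : Lˣ) : L) - 1 - algebraMap F L (C a : F) * σ (t : L) := by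
      rw [map_sub, map_sub, map_mul, map_one, AlgEquiv.commutes]
    rw [h0, ← gu_apply, ← e1] at h1
    have h2 := hloc.act σ X hX
    have h3 : w.valuation L (((m (χ σ * a) * ((gu σ (Z a) * z) ^ l)⁻¹ : Lˣ) : L) - 1 -
        algebraMap F L ((C a * X : 𝓞 F) : F) * (t : L)) ≤ WithZero.exp (-2 : ℤ) := by
      have e : ((m (χ σ * a) * ((gu σ (Z a) * z) ^ l)⁻¹ : Lˣ) : L) - 1 -
          algebraMap F L ((C a * X : 𝓞 F) : F) * (t : L) =
          (((m (χ σ * a) * ((gu σ (Z a) * z) ^ l)⁻¹ : Lˣ) : L) - 1 -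
          algebraMap F L (C a : F) * σ (t : L)) +
          algebraMap F L (C a : F) * (σ (t : L) - algebraMap F L (X : F) * (t : L)) := by
        have : ((C a * X : 𝓞 F) : F) = (C a : F) * (X : F) := rfl
        rw [this, map_mul]
        ring
      rw [e]
      refine Valuation.map_add_le _ h1 ?_
      rw [map_mul]
      calc _ ≤ 1 * WithZero.exp (-2 : ℤ) := mul_le_mul' (e1_val hloc (C a)).1 h2
        _ = _ := one_mul _
    have h4 := lev_unique hloc (m (χ σ * a)) (C (χ σ * a)) (C a * X) (Z (χ σ * a)) (gu σ (Z a) * z)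
      (hC (χ σ * a)) h3
    rw [h4, map_mul, map_mul, hX, mul_comm]
  have h0 : r (algebraMap (𝓞 F) (𝓞 L) (C 0)) = 0 := by
    have h1 := hadd 0 0
    rw [add_zero] at h1
    exact left_eq_add.1 h1
  refine ⟨r (algebraMap (𝓞 F) (𝓞 L) (C 1)), fun a c z h => ?_⟩
  rw [lev_unique hloc (m a) c (C a) z (Z a) h (hC a)]
  by_cases ha : a = 0
  · rw [ha, h0, mul_zero]
  · obtain ⟨σ, hσ⟩ := hχ.2 (Units.mk0 a ha)
    have h1 := hequiv σ 1
    rw [hσ, Units.val_mk0, mul_one] at h1
    rw [h1, mul_comm]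

end H13Z
end

-- from Lib.H13Y.GN2
section

open NumberField IsDedekindDomain

namespace H13Y

open H55B H55R H28G H99B

open scoped WithZero

theorem gn2_gal {N L : Type} [Field N] [NumberField N] [Field L] [NumberField L] [Algebra N L] {w : Pl L} {σ : Gal(L/N)}
    (h : smulP σ w = w) (x : L) : w.valuation L (σ x) = w.valuation L x := by
  by_cases hx : x = 0
  · rw [hx, map_zero]
  · have h1 := ord_smul σ w (Units.mk0 x hx)
    rw [h] at h1
    have h2 := BF1_val w (Units.map ((σ : L ≃ₐ[N] L) : L →* L) (Units.mk0 x hx))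
    rw [h1, ← BF1_val w (Units.mk0 x hx)] at h2
    exact h2

theorem gn2_val {N L : Type} [Field N] [NumberField N] [Field L] [NumberField L] [Algebra N L]
    {k κ : Type} [Field k] [Field κ] {j : k →+* κ} {χ : Gal(L/N) →* kˣ} {w : Pl L} {t : Lˣ} {r : 𝓞 L →+* κ}
    (hloc : LocN j χ w t r) (y : 𝓞 N) :
    w.valuation L (algebraMap N L (y : N)) ≤ 1 ∧
    (w.valuation L (algebraMap N L (y : N)) < 1 → r (algebraMap (𝓞 N) (𝓞 L) y) = 0) := by
  have e : algebraMap N L (y : N) = algebraMap (𝓞 L) L (algebraMap (𝓞 N) (𝓞 L) y) := by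
    rfl
  rw [e]
  refine ⟨w.valuation_le_one _, fun h => ?_⟩
  rw [hloc.ker]
  exact (w.valuation_lt_one_iff_mem _).1 h

theorem gn2_lift {N L : Type} [Field N] [NumberField N] [Field L] [NumberField L] [Algebra N L]
    {k κ : Type} [Field k] [Field κ] {j : k →+* κ} {χ : Gal(L/N) →* kˣ} {w : Pl L} {t : Lˣ}
    {r : 𝓞 L →+* κ} (hloc : LocN j χ w t r) (x : L) (hx : w.valuation L x ≤ 1) :
    ∃ y0 : 𝓞 N, w.valuation L (x - algebraMap N L (y0 : N)) ≤ WithZero.exp (-1 : ℤ) := by
  obtain ⟨n, d, h⟩ := HeightOneSpectrum.exists_primeCompl_mul_eq_of_integer w x hx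
  have hd : (d : 𝓞 L) ∉ w.asIdeal := d.2
  have hd1 : w.valuation L (algebraMap (𝓞 L) L (d : 𝓞 L)) = 1 :=
    (HeightOneSpectrum.valuation_eq_one_iff_notMem (K := L) w).2 hd
  have hrd : r (d : 𝓞 L) ≠ 0 := fun h => hd ((hloc.ker _).1 h)
  obtain ⟨y0, hy0⟩ := hloc.surj (r n / r (d : 𝓞 L))
  refine ⟨y0, e1_lt ?_⟩
  have hmem : n - (d : 𝓞 L) * algebraMap (𝓞 N) (𝓞 L) y0 ∈ w.asIdeal := by
    rw [← hloc.ker, map_sub, map_mul, hy0, mul_div_cancel₀ _ hrd, sub_self]
  have hlt : w.valuation L (algebraMap (𝓞 L) L (n - (d : 𝓞 L) * algebraMap (𝓞 N) (𝓞 L) y0)) < 1 :=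
    (w.valuation_lt_one_iff_mem (K := L) _).2 hmem
  have e : algebraMap (𝓞 L) L (n - (d : 𝓞 L) * algebraMap (𝓞 N) (𝓞 L) y0) =
      (x - algebraMap N L (y0 : N)) * algebraMap (𝓞 L) L (d : 𝓞 L) := by
    have h2 : algebraMap (𝓞 L) L (algebraMap (𝓞 N) (𝓞 L) y0) = algebraMap N L (y0 : N) := rfl
    rw [map_sub, map_mul, ← h, h2]
    ring
  rw [e, map_mul, hd1, mul_one] at hlt
  exact hlt

theorem gn2_vl {N L : Type} [Field N] [NumberField N] [Field L] [NumberField L] [Algebra N L] {l : ℕ}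
    {k κ : Type} [Field k] [Field κ] [CharP κ l] {j : k →+* κ} {χ : Gal(L/N) →* kˣ} {w : Pl L} {t : Lˣ}
    {r : 𝓞 L →+* κ} (hloc : LocN j χ w t r) :
    w.valuation L ((l : ℕ) : L) ≤ WithZero.exp (-2 : ℤ) := by
  have h3 := hloc.ram ((l : ℕ) : 𝓞 N) (by rw [map_natCast, map_natCast, CharP.cast_eq_zero])
  have e1 : algebraMap N L (((l : ℕ) : 𝓞 N) : N) = ((l : ℕ) : L) := by
    have : (((l : ℕ) : 𝓞 N) : N) = ((l : ℕ) : N) := map_natCast (algebraMap (𝓞 N) N) l
    rw [this, map_natCast]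
  rw [e1] at h3
  exact h3

theorem gn2_t {N L : Type} [Field N] [NumberField N] [Field L] [NumberField L] [Algebra N L]
    {k κ : Type} [Field k] [Field κ] {j : k →+* κ} {χ : Gal(L/N) →* kˣ} {w : Pl L} {t : Lˣ}
    {r : 𝓞 L →+* κ} (hloc : LocN j χ w t r) : w.valuation L (t : L) = WithZero.exp (-1 : ℤ) := by
  rw [BF1_val, hloc.unif]

/-- An l-th power congruent to 1 modulo w is congruent to 1 modulo the square. -/
theorem gn2_root {N L : Type} [Field N] [NumberField N] [Field L] [NumberField L] [Algebra N L] {l : ℕ} [Fact l.Prime]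
    {k κ : Type} [Field k] [Field κ] [CharP κ l] {j : k →+* κ} {χ : Gal(L/N) →* kˣ} {w : Pl L} {t : Lˣ}
    {r : 𝓞 L →+* κ} (hloc : LocN j χ w t r) (y : L) (hy : w.valuation L y ≤ 1)
    (h : w.valuation L (y ^ l - 1) ≤ WithZero.exp (-1 : ℤ)) :
    w.valuation L (y ^ l - 1) ≤ WithZero.exp (-2 : ℤ) := by
  obtain ⟨y0, hy0⟩ := gn2_lift hloc y hy
  have hpow := e1_lpow (w.valuation L) (Fact.out : l.Prime) (gn2_vl hloc) (gn2_val hloc y0).1 hy0
  have e3 : algebraMap N L (y0 : N) + (y - algebraMap N L (y0 : N)) = y := by ring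
  rw [e3] at hpow
  have e5 : algebraMap N L (y0 : N) ^ l - 1 = algebraMap N L ((y0 ^ l - 1 : 𝓞 N) : N) := by
    have : ((y0 ^ l - 1 : 𝓞 N) : N) = (y0 : N) ^ l - 1 := rfl
    rw [this, map_sub, map_pow, map_one]
  have hlt : w.valuation L (algebraMap N L ((y0 ^ l - 1 : 𝓞 N) : N)) < 1 := by
    rw [← e5]
    have e6 : algebraMap N L (y0 : N) ^ l - 1 = (y ^ l - 1) -
        (y ^ l - algebraMap N L (y0 : N) ^ l) := by ring
    rw [e6]
    exact lt_of_le_of_lt (Valuation.map_sub_le _ h (hpow.trans H13Z.GA4_21)) H13Z.GA4_1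
  have h7 := hloc.ram _ ((gn2_val hloc _).2 hlt)
  rw [← e5] at h7
  have e6 : y ^ l - 1 = (y ^ l - algebraMap N L (y0 : N) ^ l) + (algebraMap N L (y0 : N) ^ l - 1) := by
    ring
  rw [e6]
  exact Valuation.map_add_le _ hpow h7

/-- An element congruent to 1 + c t is a unit, congruent to 1. -/
theorem gn2_one {N L : Type} [Field N] [NumberField N] [Field L] [NumberField L] [Algebra N L]
    {k κ : Type} [Field k] [Field κ] {j : k →+* κ} {χ : Gal(L/N) →* kˣ} {w : Pl L} {t : Lˣ}
    {r : 𝓞 L →+* κ} (hloc : LocN j χ w t r) (u : L) (c : 𝓞 N)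
    (h : w.valuation L (u - 1 - algebraMap N L (c : N) * (t : L)) ≤ WithZero.exp (-2 : ℤ)) :
    w.valuation L (u - 1) ≤ WithZero.exp (-1 : ℤ) ∧ w.valuation L u = 1 := by
  have h1 : w.valuation L (u - 1) ≤ WithZero.exp (-1 : ℤ) := by
    have e : u - 1 = (u - 1 - algebraMap N L (c : N) * (t : L)) + algebraMap N L (c : N) * (t : L) := by
      ring
    rw [e]
    refine Valuation.map_add_le _ (h.trans H13Z.GA4_21) ?_
    rw [map_mul, gn2_t hloc]
    calc _ ≤ 1 * WithZero.exp (-1 : ℤ) := mul_le_mul' (gn2_val hloc c).1 le_rfl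
      _ = _ := one_mul _
  refine ⟨h1, ?_⟩
  have e : u = 1 + (u - 1) := by ring
  rw [e]
  exact Valuation.map_one_add_of_lt _ (lt_of_le_of_lt h1 H13Z.GA4_1)

/-- Chunk GA4 (M), three lemmas on the level one component c of an element x = z^l (1 + c t + ..), c in 𝓞 N modulo w. First: existence. y = x/s^l with ord w y = 0 (s = power of t, hloc.unif); y or its inverse is a unit at w; the residue field is k (finite of characteristic l, Frobenius surjective, hloc.surj): b in 𝓞 N,
b not in w, with w.valuation (y - b^l) < 1 (write y as a quotient of integers prime to w: H55R.HB1, or exists_frac). u = y/b^l is congruent to 1; (u - 1)/t is w-integral, congruent to an element c of 𝓞 N (hloc.surj, hloc.ker; again through a quotient of integers). -/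
theorem gn2_ex {N L : Type} [Field N] [NumberField N] [Field L] [NumberField L] [Algebra N L] {l : ℕ} [Fact l.Prime]
    {k κ : Type} [Field k] [Field κ] [Finite κ] [CharP κ l] {j : k →+* κ} {χ : Gal(L/N) →* kˣ} {w : Pl L} {t : Lˣ}
    {r : 𝓞 L →+* κ} (hloc : LocN j χ w t r) (x : Lˣ) (hx : (l : ℤ) ∣ ord w x) :
    ∃ (c : 𝓞 N) (z : Lˣ), w.valuation L (((x * (z ^ l)⁻¹ : Lˣ) : L) - 1 -
      algebraMap N L (c : N) * (t : L)) ≤ WithZero.exp (-2 : ℤ) := by
  have hlp : l.Prime := Fact.out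
  obtain ⟨n, hn⟩ := hx
  have ht := gn2_t hloc
  obtain ⟨y, hy⟩ : ∃ y : Lˣ, y = x * ((t ^ n) ^ l)⁻¹ := ⟨_, rfl⟩
  have hoy : ord w y = 0 := by
    rw [hy, ord_mul, ord_inv, ← zpow_natCast, ← zpow_mul, ord_zpow, hloc.unif, hn]
    ring
  have hvy : w.valuation L (y : L) = 1 := by
    rw [BF1_val, hoy, neg_zero, WithZero.exp_zero]
  obtain ⟨y0, hy0⟩ := gn2_lift hloc (y : L) hvy.le
  have hvy0 : w.valuation L (algebraMap N L (y0 : N)) = 1 := by
    have e : algebraMap N L (y0 : N) = (y : L) - ((y : L) - algebraMap N L (y0 : N)) := by ring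
    refine le_antisymm (gn2_val hloc y0).1 (not_lt.1 fun hlt => ?_)
    have e2 : (y : L) = ((y : L) - algebraMap N L (y0 : N)) + algebraMap N L (y0 : N) := by ring
    have h3 := Valuation.map_add_lt _ (lt_of_le_of_lt hy0 H13Z.GA4_1) hlt
    rw [← e2, hvy] at h3
    exact lt_irrefl _ h3
  obtain ⟨b0, hb0⟩ : ∃ b0 : κ, b0 ^ l = r (algebraMap (𝓞 N) (𝓞 L) y0) := by
    have : ExpChar κ l := ExpChar.prime hlp
    have hsur : Function.Surjective (frobenius κ l) :=
      Finite.surjective_of_injective (frobenius κ l).injective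
    obtain ⟨b0, hb0⟩ := hsur (r (algebraMap (𝓞 N) (𝓞 L) y0))
    exact ⟨b0, hb0⟩
  obtain ⟨b, hb⟩ := hloc.surj b0
  have e5 : algebraMap N L (b : N) ^ l - algebraMap N L (y0 : N) =
      algebraMap N L ((b ^ l - y0 : 𝓞 N) : N) := by
    have : ((b ^ l - y0 : 𝓞 N) : N) = (b : N) ^ l - (y0 : N) := rfl
    rw [this, map_sub, map_pow]
  have hby := hloc.ram (b ^ l - y0) (by rw [map_sub, map_sub, map_pow, map_pow, hb, hb0, sub_self])
  rw [← e5] at hby
  have hyb : w.valuation L ((y : L) - algebraMap N L (b : N) ^ l) ≤ WithZero.exp (-1 : ℤ) := by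
    have e : (y : L) - algebraMap N L (b : N) ^ l = ((y : L) - algebraMap N L (y0 : N)) -
        (algebraMap N L (b : N) ^ l - algebraMap N L (y0 : N)) := by ring
    rw [e]
    exact Valuation.map_sub_le _ hy0 (hby.trans H13Z.GA4_21)
  have hvbl : w.valuation L (algebraMap N L (b : N) ^ l) = 1 := by
    have h1 : w.valuation L (algebraMap N L (b : N) ^ l) ≤ 1 := by
      rw [map_pow]
      exact pow_le_one' (gn2_val hloc b).1 l
    refine le_antisymm h1 (not_lt.1 fun hlt => ?_)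
    have e2 : (y : L) = ((y : L) - algebraMap N L (b : N) ^ l) + algebraMap N L (b : N) ^ l := by ring
    have h3 := Valuation.map_add_lt _ (lt_of_le_of_lt hyb H13Z.GA4_1) hlt
    rw [← e2, hvy] at h3
    exact lt_irrefl _ h3
  have hb0' : algebraMap N L (b : N) ≠ 0 := by
    intro h0
    rw [h0, zero_pow hlp.ne_zero, map_zero] at hvbl
    exact zero_ne_one hvbl
  obtain ⟨B, hB⟩ : ∃ B : Lˣ, (B : L) = algebraMap N L (b : N) := ⟨Units.mk0 _ hb0', rfl⟩
  obtain ⟨u, hu⟩ : ∃ u : Lˣ, u = x * ((t ^ n * B) ^ l)⁻¹ := ⟨_, rfl⟩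
  have huy : (u : L) * algebraMap N L (b : N) ^ l = (y : L) := by
    have h1 : u * B ^ l = y := by
      rw [hu, hy, mul_pow, mul_inv]
      exact H13Z.GA4_g3 _ _ _
    rw [← h1, Units.val_mul, Units.val_pow_eq_pow_val, hB]
  have hu1 : w.valuation L ((u : L) - 1) ≤ WithZero.exp (-1 : ℤ) := by
    have e : ((u : L) - 1) * algebraMap N L (b : N) ^ l = (y : L) - algebraMap N L (b : N) ^ l := by
      rw [← huy]
      ring
    have h2 := congrArg (w.valuation L) e
    rw [map_mul, hvbl, mul_one] at h2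
    rw [h2]
    exact hyb
  have ht0 : (t : L) ≠ 0 := t.ne_zero
  have hvt0 : w.valuation L (t : L) ≠ 0 := by
    rw [ht]
    exact WithZero.exp_ne_zero
  have hut : w.valuation L (((u : L) - 1) / (t : L)) ≤ 1 := by
    rw [map_div₀]
    refine div_le_one_of_le₀ ?_ zero_le
    rw [ht]
    exact hu1
  obtain ⟨c, hc⟩ := gn2_lift hloc (((u : L) - 1) / (t : L)) hut
  refine ⟨c, t ^ n * B, ?_⟩
  rw [← hu]
  have e : (u : L) - 1 - algebraMap N L (c : N) * (t : L) =
      (((u : L) - 1) / (t : L) - algebraMap N L (c : N)) * (t : L) := by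
    rw [sub_mul, div_mul_cancel₀ _ ht0]
  rw [e, map_mul, ht]
  calc _ ≤ WithZero.exp (-1 : ℤ) * WithZero.exp (-1 : ℤ) := mul_le_mul' hc le_rfl
    _ = _ := by
      rw [← WithZero.exp_add]
      norm_num

/-- Uniqueness: (z'/z)^l = u/u' is congruent to 1 modulo w, so z'/z is congruent to 1 modulo w (Frobenius injective: (z'/z - 1)^l = (z'/z)^l - 1 modulo l), (z'/z)^l is congruent to 1 modulo the square (e1_lpow, hloc.ram for l), so u = u' modulo the square. -/
theorem gn2_un {N L : Type} [Field N] [NumberField N] [Field L] [NumberField L] [Algebra N L] {l : ℕ} [Fact l.Prime]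
    {k κ : Type} [Field k] [Field κ] [Finite κ] [CharP κ l] {j : k →+* κ} {χ : Gal(L/N) →* kˣ} {w : Pl L} {t : Lˣ}
    {r : 𝓞 L →+* κ} (hloc : LocN j χ w t r) (x : Lˣ) (c c' : 𝓞 N) (z z' : Lˣ)
    (h : w.valuation L (((x * (z ^ l)⁻¹ : Lˣ) : L) - 1 - algebraMap N L (c : N) * (t : L)) ≤
      WithZero.exp (-2 : ℤ))
    (h' : w.valuation L (((x * (z' ^ l)⁻¹ : Lˣ) : L) - 1 - algebraMap N L (c' : N) * (t : L)) ≤
      WithZero.exp (-2 : ℤ)) :
    r (algebraMap (𝓞 N) (𝓞 L) c) = r (algebraMap (𝓞 N) (𝓞 L) c') := by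
  have hlp : l.Prime := Fact.out
  obtain ⟨u, hu⟩ : ∃ u : Lˣ, u = x * (z ^ l)⁻¹ := ⟨_, rfl⟩
  obtain ⟨u', hu'⟩ : ∃ u' : Lˣ, u' = x * (z' ^ l)⁻¹ := ⟨_, rfl⟩
  rw [← hu] at h
  rw [← hu'] at h'
  obtain ⟨h1, h2⟩ := gn2_one hloc (u : L) c h
  obtain ⟨h1', h2'⟩ := gn2_one hloc (u' : L) c' h'
  obtain ⟨y, hy⟩ : ∃ y : Lˣ, y = z' * z⁻¹ := ⟨_, rfl⟩
  have hyu : (y : L) ^ l * (u' : L) = (u : L) := by
    have h3 : y ^ l * u' = u := by
      rw [hy, hu, hu', mul_pow, inv_pow]
      exact H13Z.GA4_g1 _ _ _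
    rw [← h3, Units.val_mul, Units.val_pow_eq_pow_val]
  have hvyl : w.valuation L ((y : L) ^ l) = 1 := by
    have h4 := congrArg (w.valuation L) hyu
    rw [map_mul, h2', mul_one, h2] at h4
    exact h4
  have hvy : w.valuation L (y : L) = 1 := by
    rw [map_pow] at hvyl
    exact (pow_eq_one_iff_of_nonneg zero_le hlp.ne_zero).1 hvyl
  have huu : ((y : L) ^ l - 1) * (u' : L) = (u : L) - (u' : L) := by
    rw [← hyu]
    ring
  have hvuu := congrArg (w.valuation L) huu
  rw [map_mul, h2', mul_one] at hvuu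
  have h5 : w.valuation L ((y : L) ^ l - 1) ≤ WithZero.exp (-1 : ℤ) := by
    rw [hvuu]
    have e : (u : L) - (u' : L) = ((u : L) - 1) - ((u' : L) - 1) := by ring
    rw [e]
    exact Valuation.map_sub_le _ h1 h1'
  have h6 := gn2_root hloc (y : L) hvy.le h5
  rw [hvuu] at h6
  have h7 : w.valuation L (algebraMap N L ((c - c' : 𝓞 N) : N) * (t : L)) ≤ WithZero.exp (-2 : ℤ) := by
    have e : algebraMap N L ((c - c' : 𝓞 N) : N) * (t : L) = (((u : L) - (u' : L)) -
        ((u : L) - 1 - algebraMap N L (c : N) * (t : L))) +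
        ((u' : L) - 1 - algebraMap N L (c' : N) * (t : L)) := by
      have : ((c - c' : 𝓞 N) : N) = (c : N) - (c' : N) := rfl
      rw [this, map_sub]
      ring
    rw [e]
    exact Valuation.map_add_le _ (Valuation.map_sub_le _ h6 h) h'
  have h8 : w.valuation L (algebraMap N L ((c - c' : 𝓞 N) : N)) < 1 := by
    rw [map_mul, gn2_t hloc] at h7
    refine not_le.1 fun hge => ?_
    have h9 : WithZero.exp (-1 : ℤ) ≤ WithZero.exp (-2 : ℤ) := by
      calc WithZero.exp (-1 : ℤ) = 1 * WithZero.exp (-1 : ℤ) := (one_mul _).symm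
        _ ≤ w.valuation L (algebraMap N L ((c - c' : 𝓞 N) : N)) * WithZero.exp (-1 : ℤ) :=
          mul_le_mul' hge le_rfl
        _ ≤ _ := h7
    rw [WithZero.exp_le_exp] at h9
    norm_num at h9
  have h10 := (gn2_val hloc _).2 h8
  rw [map_sub, map_sub] at h10
  exact sub_eq_zero.1 h10


/-- Chunk GN2 (M), PORT of H13Z/GA4.lean to the base field N: the level one component. lev_exists (GA4, and GA4_lift, GA4_vl, GA4_t, GA4_root, GA4_one) and lev_unique with 𝓞 N for 𝓞 F and LocN for Loc (e1_val, e1_gal of H99B/E1.lean are stated over F: port the two lines; e1_mul, e1_lpow are general); additivity and equivariance as in lev_linear.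
Then c x = r (algebraMap (the element of 𝓞 N of lev_exists)) if l | ord W x, 0 otherwise. c x = 0: x z^-l - 1 = c t + .. with c of valuation at most exp(-2) (ram), so Lev (as hzero in GA5.lean). -/
theorem exists_lev {N L : Type} [Field N] [NumberField N] [Field L] [NumberField L] [Algebra N L] {l : ℕ}
    [Fact l.Prime] {k κ : Type} [Field k] [Field κ] [Finite κ] [CharP κ l] {j : k →+* κ}
    {χ : Gal(L/N) →* kˣ} {W : Pl L} {t : Lˣ} {r : 𝓞 L →+* κ} (hloc : LocN j χ W t r) :
    ∃ c : Lˣ → κ,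
      (∀ x y : Lˣ, (l : ℤ) ∣ ord W x → (l : ℤ) ∣ ord W y → c (x * y) = c x + c y) ∧
      (∀ (σ : Gal(L/N)) (x : Lˣ), (l : ℤ) ∣ ord W x → c (guN σ x) = j (χ σ : k) * c x) ∧
      ∀ x : Lˣ, (l : ℤ) ∣ ord W x → c x = 0 → Lev l W x := by
  have ht := gn2_t hloc
  have hex : ∀ x : Lˣ, ∃ (c : 𝓞 N) (z : Lˣ), (l : ℤ) ∣ ord W x →
      W.valuation L (((x * (z ^ l)⁻¹ : Lˣ) : L) - 1 - algebraMap N L (c : N) * (t : L)) ≤ WithZero.exp (-2 : ℤ) := by
    intro x
    by_cases hx : (l : ℤ) ∣ ord W x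
    · obtain ⟨c, z, h⟩ := gn2_ex hloc x hx
      exact ⟨c, z, fun _ => h⟩
    · exact ⟨0, 1, fun h => absurd h hx⟩
  choose C Z hC using hex
  refine ⟨fun x => r (algebraMap (𝓞 N) (𝓞 L) (C x)), ?_, ?_, ?_⟩
  · intro x y hx hy
    have hxy : (l : ℤ) ∣ ord W (x * y) := by
      rw [ord_mul]
      exact dvd_add hx hy
    have e1 : (x * y) * ((Z x * Z y) ^ l)⁻¹ = (x * (Z x ^ l)⁻¹) * (y * (Z y ^ l)⁻¹) := by
      rw [mul_pow, mul_inv]
      exact mul_mul_mul_comm x y _ _
    have h1 := e1_mul (W.valuation L) ht.le (gn2_val hloc (C x)).1 (gn2_val hloc (C y)).1 (hC x hx) (hC y hy)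
    rw [← Units.val_mul, ← e1] at h1
    have e2 : algebraMap N L (C x : N) + algebraMap N L (C y : N) = algebraMap N L ((C x + C y : 𝓞 N) : N) := by
      have : ((C x + C y : 𝓞 N) : N) = (C x : N) + (C y : N) := rfl
      rw [this, map_add]
    rw [e2] at h1
    have h2 := gn2_un hloc (x * y) (C (x * y)) (C x + C y) (Z (x * y)) (Z x * Z y) (hC _ hxy) h1
    show r (algebraMap (𝓞 N) (𝓞 L) (C (x * y))) = _
    rw [h2, map_add, map_add]
  · intro σ x hx
    obtain ⟨X, hX⟩ := hloc.surj (j (χ σ : k))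
    have hsx : (l : ℤ) ∣ ord W (guN σ x) := by
      rw [ord_guN, hloc.inv]
      exact hx
    have e1 : guN σ x * ((guN σ (Z x)) ^ l)⁻¹ = guN σ (x * (Z x ^ l)⁻¹) := by
      rw [map_mul, map_inv, map_pow]
    have h1 : W.valuation L (σ (((x * (Z x ^ l)⁻¹ : Lˣ) : L) - 1 -
        algebraMap N L (C x : N) * (t : L))) ≤ WithZero.exp (-2 : ℤ) := by
      rw [gn2_gal (hloc.inv σ)]
      exact hC x hx
    have h0 : σ (((x * (Z x ^ l)⁻¹ : Lˣ) : L) - 1 - algebraMap N L (C x : N) * (t : L)) =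
        σ ((x * (Z x ^ l)⁻¹ : Lˣ) : L) - 1 - algebraMap N L (C x : N) * σ (t : L) := by
      rw [map_sub, map_sub, map_mul, map_one, AlgEquiv.commutes]
    rw [h0, ← guN_apply, ← e1] at h1
    have h2 := hloc.act σ X hX
    have h3 : W.valuation L (((guN σ x * ((guN σ (Z x)) ^ l)⁻¹ : Lˣ) : L) - 1 -
        algebraMap N L ((C x * X : 𝓞 N) : N) * (t : L)) ≤ WithZero.exp (-2 : ℤ) := by
      have e : ((guN σ x * ((guN σ (Z x)) ^ l)⁻¹ : Lˣ) : L) - 1 -
          algebraMap N L ((C x * X : 𝓞 N) : N) * (t : L) =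
          (((guN σ x * ((guN σ (Z x)) ^ l)⁻¹ : Lˣ) : L) - 1 -
          algebraMap N L (C x : N) * σ (t : L)) +
          algebraMap N L (C x : N) * (σ (t : L) - algebraMap N L (X : N) * (t : L)) := by
        have : ((C x * X : 𝓞 N) : N) = (C x : N) * (X : N) := rfl
        rw [this, map_mul]
        ring
      rw [e]
      refine Valuation.map_add_le _ h1 ?_
      rw [map_mul]
      calc _ ≤ 1 * WithZero.exp (-2 : ℤ) := mul_le_mul' (gn2_val hloc (C x)).1 h2
        _ = _ := one_mul _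
    have h4 := gn2_un hloc (guN σ x) (C (guN σ x)) (C x * X) (Z (guN σ x)) (guN σ (Z x)) (hC _ hsx) h3
    show r (algebraMap (𝓞 N) (𝓞 L) (C (guN σ x))) = _
    rw [h4, map_mul, map_mul, hX, mul_comm]
  · intro x hx h0
    refine ⟨Z x, ?_⟩
    have e1 : ((x * (Z x ^ l)⁻¹ : Lˣ) : L) - 1 = (((x * (Z x ^ l)⁻¹ : Lˣ) : L) - 1 -
        algebraMap N L (C x : N) * (t : L)) + algebraMap N L (C x : N) * (t : L) := by
      ring
    rw [e1]
    refine Valuation.map_add_le _ (hC x hx) ?_
    rw [map_mul]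
    have h11 : WithZero.exp (-1 : ℤ) ≤ (1 : WithZero (Multiplicative ℤ)) := by
      rw [← WithZero.exp_zero, WithZero.exp_le_exp]
      norm_num
    calc W.valuation L (algebraMap N L (C x : N)) * W.valuation L (t : L) ≤ WithZero.exp (-2 : ℤ) * 1 :=
          mul_le_mul' (hloc.ram _ h0) (ht.le.trans h11)
      _ = _ := mul_one _

end H13Y
end

-- from Lib.H13Y.GN8b
section

open NumberField IsDedekindDomain

namespace H13Y

open H55B H55R H28G H99B

theorem gn8b_norm {N L : Type} [Field N] [NumberField N] [Field L] [NumberField L] [Algebra N L] (W : Pl L)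
    (hs : ∀ b : Kap W, ∃ y : 𝓞 N, kmk W (algebraMap (𝓞 N) (𝓞 L) y) = b) :
    Nat.card (Kap W) = Ideal.absNorm (W.under (𝓞 N)).asIdeal := by
  set f : 𝓞 N →+* Kap W := (kmk W).comp (algebraMap (𝓞 N) (𝓞 L)) with hf
  have hsur : Function.Surjective f := hs
  have hker : RingHom.ker f = (W.under (𝓞 N)).asIdeal := by
    ext y
    rw [RingHom.mem_ker, hf, RingHom.comp_apply, kmk_zero]
    rfl
  rw [Ideal.absNorm_apply, Submodule.cardQuot_apply, ← hker]
  exact Nat.card_congr (RingHom.quotientKerEquivOfSurjective hsur).symm.toEquiv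

theorem gn8b_fin {L : Type} [Field L] [NumberField L] [Algebra F L] {π : O} (h0 : π ≠ 0) :
    Finite {W : Pl L // algebraMap O (𝓞 L) π ∈ W.asIdeal} := by
  have h1 : algebraMap O (𝓞 L) π ≠ 0 := by
    intro h
    apply h0
    exact (FaithfulSMul.algebraMap_injective O (𝓞 L)) (by rw [h, map_zero])
  have h2 : Ideal.span {algebraMap O (𝓞 L) π} ≠ 0 := by
    simpa [Ideal.span_singleton_eq_bot] using h1
  have h3 := Ideal.finite_factors h2
  refine Set.Finite.to_subtype (h3.subset ?_)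
  intro W hW
  show W.asIdeal ∣ _
  rw [Ideal.dvd_span_singleton]
  exact hW

/-- Chunk GN8b (M). The levels at all primes above π. T = the finite type of the W with algebraMap O (𝓞 L) π ∈ W.asIdeal. Λ = (W : T) → Kap W, a k-vector space through the j W (letI := (j W).toAlgebra; Pi), f x = fun W => c W x with c W of exists_lev (CharP (Kap W) l: l = 0 in Kap W through j W, charP of the field k; Finite (Kap W): instance).
Dimension: card Λ = product of card (Kap W); 𝓞 N → Kap W is surjective (LocN.surj), so card (Kap W) = absNorm of W.under (𝓞 N) (Submodule.cardQuot / Ideal.absNorm_apply), the W.under (𝓞 N) are different (hone) and contain π: prod_norm_le gives card Λ ≤ (Nm π)^[N : F] = (card k)^[N : F]; card Λ = (card k)^(finrank Λ) (Module.card_eq_pow_finrank), 1 < card k. -/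
theorem exists_Lam {l : ℕ} [Fact l.Prime] {π : O} (h0 : π ≠ 0) {N L : Type} [Field N] [NumberField N]
    [Field L] [NumberField L] [Algebra F N] [Algebra N L] [Algebra F L] [IsScalarTower F N L] {k : Type}
    [Field k] [Fintype k] [CharP k l] (hcard : Fintype.card k = Nm π) (χ : Gal(L/N) →* kˣ)
    (hone : ∀ W W' : Pl L, algebraMap O (𝓞 L) π ∈ W.asIdeal → W.under (𝓞 N) = W'.under (𝓞 N) → W = W')
    (hloc : ∀ W : Pl L, algebraMap O (𝓞 L) π ∈ W.asIdeal →
      ∃ (j : k →+* Kap W) (t : Lˣ), LocN j χ W t (kmk W)) :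
    ∃ (Λ : Type) (_ : AddCommGroup Λ) (_ : Module k Λ) (_ : Module.Finite k Λ) (f : Lˣ → Λ),
      Module.finrank k Λ ≤ Module.finrank F N ∧
      (∀ x y : Lˣ, (∀ W : Pl L, algebraMap O (𝓞 L) π ∈ W.asIdeal → (l : ℤ) ∣ ord W x) →
        (∀ W : Pl L, algebraMap O (𝓞 L) π ∈ W.asIdeal → (l : ℤ) ∣ ord W y) → f (x * y) = f x + f y) ∧
      (∀ (σ : Gal(L/N)) (x : Lˣ), (∀ W : Pl L, algebraMap O (𝓞 L) π ∈ W.asIdeal → (l : ℤ) ∣ ord W x) →
        f (guN σ x) = (χ σ : k) • f x) ∧
      ∀ x : Lˣ, (∀ W : Pl L, algebraMap O (𝓞 L) π ∈ W.asIdeal → (l : ℤ) ∣ ord W x) → f x = 0 →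
        ∀ W : Pl L, algebraMap O (𝓞 L) π ∈ W.asIdeal → Lev l W x := by
  classical
  let S := {W : Pl L // algebraMap O (𝓞 L) π ∈ W.asIdeal}
  haveI : Finite S := gn8b_fin h0
  haveI : Fintype S := Fintype.ofFinite S
  choose j t hl using fun W : S => hloc W.1 W.2
  have hch : ∀ W : S, CharP (Kap W.1) l := fun W => charP_of_injective_ringHom (j W).injective l
  choose c hc1 hc2 hc3 using fun W : S => haveI := hch W; exists_lev (hl W)
  let Λ := (W : S) → Kap W.1
  letI m : ∀ W : S, Module k (Kap W.1) := fun W => Module.compHom _ (j W)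
  have hsm : ∀ (W : S) (a : k) (x : Kap W.1), a • x = j W a * x := fun W a x => rfl
  haveI : Finite Λ := Pi.finite
  haveI hfin : Module.Finite k Λ := Module.Finite.of_finite
  refine ⟨Λ, inferInstance, inferInstance, hfin, fun x W => c W x, ?_, ?_, ?_, ?_⟩
  · have h1 : Nat.card Λ = ∏ W : S, Nat.card (Kap W.1) := Nat.card_pi
    have h2 : Nat.card Λ = Nat.card k ^ Module.finrank k Λ := Module.natCard_eq_pow_finrank
    have hinj : Set.InjOn (fun W : S => W.1.under (𝓞 N)) (Finset.univ : Finset S) := by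
      intro W _ W' _ h
      exact Subtype.ext (hone W.1 W'.1 W.2 h)
    have h3 : ∏ W : S, Nat.card (Kap W.1) = ∏ v ∈ Finset.univ.image (fun W : S => W.1.under (𝓞 N)), Ideal.absNorm v.asIdeal := by
      rw [Finset.prod_image hinj]
      exact Finset.prod_congr rfl fun W _ => gn8b_norm W.1 (hl W).surj
    have h4 := prod_norm_le (N := N) h0 (Finset.univ.image (fun W : S => W.1.under (𝓞 N))) (by
      intro v hv
      obtain ⟨W, -, rfl⟩ := Finset.mem_image.1 hv
      show algebraMap (𝓞 N) (𝓞 L) (algebraMap O (𝓞 N) π) ∈ W.1.asIdeal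
      have : algebraMap (𝓞 N) (𝓞 L) (algebraMap O (𝓞 N) π) = algebraMap O (𝓞 L) π := by
        rw [← IsScalarTower.algebraMap_apply]
      rw [this]
      exact W.2)
    rw [← h3, ← h1, h2, ← hcard, Nat.card_eq_fintype_card] at h4
    exact (Nat.pow_le_pow_iff_right Fintype.one_lt_card).1 h4
  · intro x y hx hy
    funext W
    exact hc1 W x y (hx W.1 W.2) (hy W.1 W.2)
  · intro σ x hx
    funext W
    exact hc2 W σ x (hx W.1 W.2)
  · intro x hx h W hW
    exact hc3 ⟨W, hW⟩ x (hx W hW) (congrFun h ⟨W, hW⟩)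

end H13Y
end

-- from Lib.H13Y.GN3
section

open NumberField IsDedekindDomain

namespace H13Y

open H99B

/-- Chunk GN3a (S). isIntegral_of_smul_mem_submodule for R = ℤ (B as a ℤ-submodule), and V is integrally closed: V.valuation θ ≤ 1. -/
theorem val_le_one_of_stable (V : ValuationSubring ℂ) (B : AddSubgroup ℂ) (hB : B.FG) (h0 : B ≠ ⊥)
    (θ : ℂ) (h : ∀ x ∈ B, θ * x ∈ B) : V.valuation θ ≤ 1 := by
  have h1 : IsIntegral ℤ θ := by
    refine isIntegral_of_smul_mem_submodule (AddSubgroup.toIntSubmodule B) ?_ ?_ θ ?_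
    · intro h2
      refine h0 ((AddSubgroup.eq_bot_iff_forall B).2 fun x hx => ?_)
      have h3 : x ∈ AddSubgroup.toIntSubmodule B := hx
      rw [h2] at h3
      exact (Submodule.mem_bot ℤ).1 h3
    · rw [Submodule.fg_iff_addSubgroup_fg]
      exact hB
    · intro n hn
      exact h n hn
  have h2 : IsIntegral V θ := h1.tower_top
  obtain ⟨y, hy⟩ := (IsIntegrallyClosed.isIntegral_iff (R := V) (K := ℂ)).1 h2
  rw [← hy]
  exact (V.valuation_le_one_iff _).2 y.2

/-- Chunk GN3b (M). The counting argument. Suppose that for every x in A with f x = 0 the element M x = pw ac (cf χ ρ 1) x is z^l with z in A.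
ψ i (M x) = ω(M) ψ i x, ω(M) = sum over g of cf χ ρ 1 g * ω g, chs χ (cf χ ρ 1) = -1 (IsRho.sum with a = 1, χ bijective), so ω(M) is a unit of V (hω), in particular not 0.
The k-span of f '' A is spanned by finitely many f (y 1), ..., f (y d) with y i in A, d ≤ finrank Λ < card ι (a basis chosen in the spanning set). The vectors (ψ i (y j))_i, j = 1..d, do not span ℂ^ι: there is c : ι → ℂ, c ≠ 0, with sum over i of c i * ψ i (y j) = 0 for all j (more unknowns than equations: exists_mulVec_eq_zero / Module.exists_nontrivial_relation / LinearMap.exists_ne_zero_of.. finrank_lt). ψ := sum over i of c i * ψ i : additive on A, ψ (ac g x) = ω g ψ x, not identically 0 on A (p3).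
For x in A: f x = sum of a j • f (y j), a j in k is 0 or χ (g j) (χ surjective), so x' = x / product of ac (g j) (y j) (over the j with a j ≠ 0) lies in A, f x' = 0 (f additive on A, f 1 = 0, f of inverses), ψ x' = ψ x. M x' = z^l: ω(M) ψ x = ψ(M x') = l ψ z.
So θ = ω(M)/l maps the group B' = ψ(A) into itself. B' is finitely generated: hfg gives h ψ(A) inside ψ(B), a finitely generated group; ψ(A) is isomorphic to h ψ(A) (ℂ has no torsion), a subgroup of a finitely generated commutative group. B' ≠ ⊥. val_le_one_of_stable: V(θ) ≤ 1, but V(θ) = 1/V(l) > 1. -/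
theorem gn_alg {l : ℕ} [Fact l.Prime] {k : Type} [Field k] [Fintype k] [DecidableEq k] [CharP k l]
    {G : Type} [Group G] [Fintype G] (χ : G →* kˣ) (hχ : Function.Bijective χ) (ρ : k →+ ZMod l)
    (hρ : IsRho l ρ) {M : Type} [CommGroup M] (ac : G →* Monoid.End M) (A : Subgroup M)
    (hA : ∀ g, ∀ x ∈ A, ac g x ∈ A) {Λ : Type} [AddCommGroup Λ] [Module k Λ] [Module.Finite k Λ]
    (f : M → Λ) (f1 : ∀ x ∈ A, ∀ y ∈ A, f (x * y) = f x + f y)
    (f2 : ∀ g, ∀ x ∈ A, f (ac g x) = (χ g : k) • f x) {ι : Type} [Fintype ι]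
    (hΛ : Module.finrank k Λ < Fintype.card ι) (V : ValuationSubring ℂ) (hV : V.valuation (l : ℂ) < 1)
    (ω : G →* ℂˣ)
    (hω : ∀ α : G → ℤ, chs χ α ≠ 0 → V.valuation (∑ g, (α g : ℂ) * (ω g : ℂ)) = 1)
    (ψ : ι → M → ℂ) (p1 : ∀ i, ∀ x ∈ A, ∀ y ∈ A, ψ i (x * y) = ψ i x + ψ i y)
    (p2 : ∀ i g, ∀ x ∈ A, ψ i (ac g x) = (ω g : ℂ) * ψ i x)
    (p3 : ∀ c : ι → ℂ, (∀ x ∈ A, ∑ i, c i * ψ i x = 0) → c = 0)
    (hfg : ∃ (h : ℕ) (B : Subgroup M), h ≠ 0 ∧ B.FG ∧ B ≤ A ∧ ∀ x ∈ A, x ^ h ∈ B) :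
    ∃ x ∈ A, f x = 0 ∧ ∀ y ∈ A, pw ac (cf χ ρ 1) x ≠ y ^ l := by
  classical
  by_contra hcon
  push Not at hcon
  -- the unit ω(M)
  have hch : chs χ (cf χ ρ 1) = -1 := by
    have h1 := hρ.sum 1
    rw [← h1]
    unfold chs cf
    rw [← (Equiv.ofBijective χ hχ).sum_comp]
    refine Finset.sum_congr rfl fun g _ => ?_
    rw [Equiv.ofBijective_apply]
    push_cast
    rfl
  set wM : ℂ := ∑ g, (cf χ ρ 1 g : ℂ) * (ω g : ℂ) with hwM
  have hwM1 : V.valuation wM = 1 := hω _ (by rw [hch]; exact neg_ne_zero.2 one_ne_zero)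
  -- f as a homomorphism
  let fA : A →* Multiplicative Λ :=
    MonoidHom.mk' (fun x => Multiplicative.ofAdd (f x)) fun x y => by
      show Multiplicative.ofAdd (f (x * y)) = _
      rw [f1 _ x.2 _ y.2]; rfl
  have hfA : ∀ x : A, f x = Multiplicative.toAdd (fA x) := fun _ => rfl
  -- spanning elements
  obtain ⟨d, v, y, hd, hv2, hy1, hy2⟩ : ∃ (d : ℕ) (v : Fin d → Λ) (y : Fin d → M),
      d < Module.finrank ℂ (ι → ℂ) ∧ Submodule.span k (Set.range v) = Submodule.span k (f '' A) ∧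
      (∀ j, y j ∈ A) ∧ ∀ j, f (y j) = v j := by
    obtain ⟨v, hv1, hv2, -⟩ := Submodule.exists_fun_fin_finrank_span_eq k (f '' A)
    choose y hy1 hy2 using hv1
    refine ⟨_, v, y, ?_, hv2, hy1, hy2⟩
    rw [Module.finrank_fintype_fun_eq_card]
    exact lt_of_le_of_lt (Submodule.finrank_le _) hΛ
  let T : (ι → ℂ) →ₗ[ℂ] (Fin d → ℂ) :=
    { toFun := fun c j => ∑ i, c i * ψ i (y j)
      map_add' := by
        intro c c'
        funext j
        simp only [Pi.add_apply, add_mul, Finset.sum_add_distrib]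
      map_smul' := by
        intro r c
        funext j
        simp only [Pi.smul_apply, smul_eq_mul, RingHom.id_apply, Finset.mul_sum, mul_assoc] }
  have hT : LinearMap.ker T ≠ ⊥ := by
    refine LinearMap.ker_ne_bot_of_finrank_lt ?_
    rw [Module.finrank_fin_fun]
    exact hd
  obtain ⟨c, hcT, hc0⟩ := Submodule.exists_mem_ne_zero_of_ne_bot hT
  have hcy : ∀ j, ∑ i, c i * ψ i (y j) = 0 := fun j => congrFun (LinearMap.mem_ker.1 hcT) j
  -- the function Ψ
  let Ψ : M → ℂ := fun x => ∑ i, c i * ψ i x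
  have hΨ1 : ∀ x ∈ A, ∀ y ∈ A, Ψ (x * y) = Ψ x + Ψ y := by
    intro x hx y hy
    show ∑ i, c i * ψ i (x * y) = ∑ i, c i * ψ i x + ∑ i, c i * ψ i y
    rw [← Finset.sum_add_distrib]
    refine Finset.sum_congr rfl fun i _ => ?_
    rw [p1 i x hx y hy, mul_add]
  have hΨ2 : ∀ g, ∀ x ∈ A, Ψ (ac g x) = (ω g : ℂ) * Ψ x := by
    intro g x hx
    show ∑ i, c i * ψ i (ac g x) = (ω g : ℂ) * ∑ i, c i * ψ i x
    rw [Finset.mul_sum]
    refine Finset.sum_congr rfl fun i _ => ?_
    rw [p2 i g x hx]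
    ring
  let ΨA : A →* Multiplicative ℂ :=
    MonoidHom.mk' (fun x => Multiplicative.ofAdd (Ψ x)) fun x y => by
      show Multiplicative.ofAdd (Ψ (x * y)) = _
      rw [hΨ1 _ x.2 _ y.2]; rfl
  have hΨA : ∀ x : A, Ψ x = Multiplicative.toAdd (ΨA x) := fun _ => rfl
  have hΨpow : ∀ x ∈ A, ∀ n : ℕ, Ψ (x ^ n) = n * Ψ x := by
    intro x hx n
    have h1 := hΨA ((⟨x, hx⟩ : A) ^ n)
    rw [map_pow, toAdd_pow, ← hΨA] at h1
    rw [← nsmul_eq_mul]
    exact h1
  have hΨinv : ∀ x ∈ A, Ψ x⁻¹ = -Ψ x := by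
    intro x hx
    have h1 := hΨA ((⟨x, hx⟩ : A)⁻¹)
    rw [map_inv, toAdd_inv, ← hΨA] at h1
    exact h1
  have hpwA : ∀ x ∈ A, pw ac (cf χ ρ 1) x ∈ A := fun x hx =>
    Subgroup.prod_mem _ fun g _ => Subgroup.zpow_mem _ (hA g x hx) _
  have hΨpw : ∀ x ∈ A, Ψ (pw ac (cf χ ρ 1) x) = wM * Ψ x := by
    intro x hx
    have h1 : (⟨pw ac (cf χ ρ 1) x, hpwA x hx⟩ : A) =
        ∏ g, (⟨ac g x, hA g x hx⟩ : A) ^ (cf χ ρ 1 g) := by
      apply Subtype.ext
      rw [Subgroup.val_finsetProd]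
      rfl
    have h2 : Ψ (pw ac (cf χ ρ 1) x) = Multiplicative.toAdd (ΨA (∏ g, (⟨ac g x, hA g x hx⟩ : A) ^ (cf χ ρ 1 g))) := by
      rw [← h1]; rfl
    rw [map_prod, toAdd_prod] at h2
    refine h2.trans ?_
    rw [hwM, Finset.sum_mul]
    refine Finset.sum_congr rfl fun g _ => ?_
    rw [map_zpow, toAdd_zpow, ← hΨA, zsmul_eq_mul, hΨ2 g x hx, mul_assoc]
  -- the key claim
  have key : ∀ x ∈ A, ∃ x' ∈ A, f x' = 0 ∧ Ψ x' = Ψ x := by
    intro x hx
    have h1 : f x ∈ Submodule.span k (Set.range v) := by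
      rw [hv2]
      exact Submodule.subset_span ⟨x, hx, rfl⟩
    obtain ⟨a, ha⟩ := (Submodule.mem_span_range_iff_exists_fun k).1 h1
    have h2 : ∀ j, ∃ u ∈ A, f u = a j • v j ∧ Ψ u = 0 := by
      intro j
      by_cases h0 : a j = 0
      · refine ⟨1, A.one_mem, ?_, ?_⟩
        · rw [h0, zero_smul]
          have := hfA 1
          rw [map_one] at this
          exact this
        · have := hΨA 1
          rw [map_one] at this
          exact this
      · obtain ⟨g, hg⟩ := hχ.2 (Units.mk0 (a j) h0)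
        refine ⟨ac g (y j), hA g _ (hy1 j), ?_, ?_⟩
        · rw [f2 g _ (hy1 j), hg, Units.val_mk0, hy2]
        · rw [hΨ2 g _ (hy1 j)]
          show _ * ∑ i, c i * ψ i (y j) = 0
          rw [hcy, mul_zero]
    choose u hu1 hu2 hu3 using h2
    have h3 : Ψ (∏ j, u j) = 0 ∧ f (∏ j, u j) = f x := by
      have h4 : (⟨∏ j, u j, Subgroup.prod_mem _ fun j _ => hu1 j⟩ : A) = ∏ j, (⟨u j, hu1 j⟩ : A) := by
        apply Subtype.ext
        rw [Subgroup.val_finsetProd]
      constructor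
      · have h5 : Ψ (∏ j, u j) = Multiplicative.toAdd (ΨA (∏ j, (⟨u j, hu1 j⟩ : A))) := by
          rw [← h4]; rfl
        rw [map_prod, toAdd_prod] at h5
        refine h5.trans (Finset.sum_eq_zero fun j _ => ?_)
        rw [← hΨA]
        exact hu3 j
      · have h5 : f (∏ j, u j) = Multiplicative.toAdd (fA (∏ j, (⟨u j, hu1 j⟩ : A))) := by
          rw [← h4]; rfl
        rw [map_prod, toAdd_prod] at h5
        refine h5.trans ?_
        rw [← ha]
        refine Finset.sum_congr rfl fun j _ => ?_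
        rw [← hfA]
        exact hu2 j
    have hPA : ∏ j, u j ∈ A := Subgroup.prod_mem _ fun j _ => hu1 j
    refine ⟨x * (∏ j, u j)⁻¹, A.mul_mem hx (A.inv_mem hPA), ?_, ?_⟩
    · rw [f1 _ hx _ (A.inv_mem hPA)]
      have h6 := hfA ((⟨∏ j, u j, hPA⟩ : A)⁻¹)
      rw [map_inv, toAdd_inv, ← hfA] at h6
      have h7 : f (∏ j, u j)⁻¹ = -f (∏ j, u j) := h6
      rw [h7, h3.2, add_neg_cancel]
    · rw [hΨ1 _ hx _ (A.inv_mem hPA), hΨinv _ hPA, h3.1, neg_zero, add_zero]
  -- stability
  have hl0 : (l : ℂ) ≠ 0 := Nat.cast_ne_zero.2 (Fact.out : l.Prime).ne_zero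
  have hst : ∀ x ∈ A, ∃ z ∈ A, wM / l * Ψ x = Ψ z := by
    intro x hx
    obtain ⟨x', hx', hf0, hΨx⟩ := key x hx
    obtain ⟨z, hz, hzp⟩ := hcon x' hx' hf0
    refine ⟨z, hz, ?_⟩
    have h1 := hΨpw x' hx'
    rw [hzp, hΨpow z hz l, hΨx] at h1
    field_simp
    linear_combination -h1
  -- the group
  let N : Submodule ℤ ℂ :=
    { carrier := {z | ∃ x ∈ A, Ψ x = z}
      add_mem' := by
        rintro _ _ ⟨x, hx, rfl⟩ ⟨x', hx', rfl⟩
        exact ⟨x * x', A.mul_mem hx hx', hΨ1 x hx x' hx'⟩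
      zero_mem' := by
        refine ⟨1, A.one_mem, ?_⟩
        have := hΨA 1
        rw [map_one] at this
        exact this
      smul_mem' := by
        rintro n _ ⟨x, hx, rfl⟩
        refine ⟨x ^ n, A.zpow_mem hx n, ?_⟩
        have h1 := hΨA ((⟨x, hx⟩ : A) ^ n)
        rw [map_zpow, toAdd_zpow, ← hΨA] at h1
        exact h1 }
  have hN0 : N ≠ ⊥ := by
    intro h
    apply hc0
    apply p3
    intro x hx
    have h1 : Ψ x ∈ N := ⟨x, hx, rfl⟩
    rw [h, Submodule.mem_bot] at h1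
    exact h1
  have hNfg : N.FG := by
    obtain ⟨h, B, hh0, ⟨S, hS⟩, hBA, hpow⟩ := hfg
    let NB : Submodule ℤ ℂ := Submodule.span ℤ (Ψ '' (S : Set M))
    have hNB : NB.FG := Submodule.fg_span (S.finite_toSet.image _)
    have hBN : ∀ x ∈ B, x ∈ A ∧ Ψ x ∈ NB := by
      intro x hx
      rw [← hS] at hx
      induction hx using Subgroup.closure_induction with
      | mem x hx =>
        refine ⟨hBA ?_, Submodule.subset_span ⟨x, hx, rfl⟩⟩
        rw [← hS]
        exact Subgroup.subset_closure hx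
      | one =>
        refine ⟨A.one_mem, ?_⟩
        have := hΨA 1
        rw [map_one] at this
        have h2 : Ψ 1 = 0 := this
        rw [h2]
        exact NB.zero_mem
      | mul x y _ _ hx hy => exact ⟨A.mul_mem hx.1 hy.1, by rw [hΨ1 x hx.1 y hy.1]; exact NB.add_mem hx.2 hy.2⟩
      | inv x _ hx => exact ⟨A.inv_mem hx.1, by rw [hΨinv x hx.1]; exact NB.neg_mem hx.2⟩
    let m1 : ℂ →ₗ[ℤ] ℂ := (LinearMap.mulLeft ℤ (h : ℂ))
    let m2 : ℂ →ₗ[ℤ] ℂ := (LinearMap.mulLeft ℤ ((h : ℂ)⁻¹))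
    have h1 : N.map m1 ≤ NB := by
      rintro _ ⟨_, ⟨x, hx, rfl⟩, rfl⟩
      show (h : ℂ) * Ψ x ∈ NB
      rw [← hΨpow x hx h]
      exact (hBN _ (hpow x hx)).2
    have hNoeth : IsNoetherian ℤ NB := isNoetherian_of_fg_of_noetherian NB hNB
    have h2 : (N.map m1).FG := isNoetherian_submodule.1 hNoeth _ h1
    have h3 : N = (N.map m1).map m2 := by
      rw [← Submodule.map_comp]
      have h4 : m2.comp m1 = LinearMap.id := by
        refine LinearMap.ext fun z => ?_
        show (h : ℂ)⁻¹ * ((h : ℂ) * z) = z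
        rw [← mul_assoc, inv_mul_cancel₀ (Nat.cast_ne_zero.2 hh0), one_mul]
      rw [h4, Submodule.map_id]
    rw [h3]
    exact h2.map _
  have hfin := val_le_one_of_stable V N.toAddSubgroup ((Submodule.fg_iff_addSubgroup_fg N).1 hNfg)
    (fun h => hN0 ((Submodule.eq_bot_iff N).2 fun x hx => by
      have h3 : x ∈ N.toAddSubgroup := hx
      rw [h] at h3
      exact AddSubgroup.mem_bot.1 h3)) (wM / l) (by
      rintro _ ⟨x, hx, rfl⟩
      obtain ⟨z, hz, hzz⟩ := hst x hx
      exact ⟨z, hz, hzz.symm⟩)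
  have h1 : V.valuation (wM / l * l) < 1 := by
    rw [map_mul]
    exact lt_of_le_of_lt (mul_le_of_le_one_left' hfin) hV
  rw [div_mul_cancel₀ _ hl0, hwM1] at h1
  exact lt_irrefl _ h1

end H13Y
end

-- from Lib.H13Y.GN6a
section

open NumberField IsDedekindDomain

namespace H13Y

open H55B H55R H28G H99B

theorem gn6a_comap {N L : Type} [Field N] [Field L] [Algebra N L] (w : InfinitePlace L) (σ : Gal(L/N)) :
    (w.comap ((σ : L ≃ₐ[N] L) : L →+* L)).comap (algebraMap N L) = w.comap (algebraMap N L) := by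
  rw [← InfinitePlace.comap_comp]
  congr 1
  ext x
  exact σ.commutes x

theorem gn6a_smul {N L : Type} [Field N] [Field L] [Algebra N L] (w : InfinitePlace L) (σ : Gal(L/N)) :
    w.comap ((σ : L ≃ₐ[N] L) : L →+* L) = σ⁻¹ • w := rfl

/-- Chunk GN6a (M). The infinite places of a Galois extension L of a totally complex field N: u v = a place above v (InfinitePlace.comap_surjective); Galois is transitive on the places above v (InfinitePlace.exists_smul_eq_of_comap_eq) and the stabilizers are trivial (v is complex, so v is unramified in L: InfinitePlace.IsUnramified, isUnramified_iff.. / card_stabilizer = 1). σ • w = w.comap σ.symm (InfinitePlace.smul_eq_comap). -/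
theorem places_bij {N L : Type} [Field N] [NumberField N] [Field L] [NumberField L] [Algebra N L]
    [IsGalois N L] (hc : ∀ v : InfinitePlace N, v.IsComplex) :
    ∃ u : InfinitePlace N → InfinitePlace L,
      Function.Bijective fun p : Gal(L/N) × InfinitePlace N => (u p.2).comap ((p.1 : L ≃ₐ[N] L) : L →+* L) := by
  choose u hu using fun v : InfinitePlace N => InfinitePlace.comap_surjective (K := L) v
  have hu' : ∀ v, (u v).comap (algebraMap N L) = v := hu
  refine ⟨u, ?_, ?_⟩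
  · rintro ⟨σ, v⟩ ⟨τ, v'⟩ h
    have h1 : (u v).comap ((σ : L ≃ₐ[N] L) : L →+* L) = (u v').comap ((τ : L ≃ₐ[N] L) : L →+* L) := h
    have h2 := congrArg (fun w => InfinitePlace.comap w (algebraMap N L)) h1
    simp only [gn6a_comap, hu'] at h2
    subst h2
    rw [gn6a_smul, gn6a_smul] at h1
    have h3 : (τ * σ⁻¹) • u v = u v := by
      rw [mul_smul, h1, smul_inv_smul]
    have h4 : InfinitePlace.IsUnramified N (u v) := by
      rw [InfinitePlace.isUnramified_iff]
      right
      rw [hu']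
      exact hc v
    rw [InfinitePlace.isUnramified_iff_stabilizer_eq_bot] at h4
    have h5 : τ * σ⁻¹ ∈ MulAction.stabilizer Gal(L/N) (u v) := h3
    rw [h4, Subgroup.mem_bot, mul_inv_eq_one] at h5
    rw [h5]
  · intro w
    obtain ⟨σ, hσ⟩ := InfinitePlace.exists_smul_eq_of_comap_eq (k := N) (w := u (w.comap (algebraMap N L))) (w' := w)
      (hu' _)
    refine ⟨(σ⁻¹, w.comap (algebraMap N L)), ?_⟩
    show (u (w.comap (algebraMap N L))).comap (((σ⁻¹ : Gal(L/N)) : L ≃ₐ[N] L) : L →+* L) = w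
    rw [gn6a_smul, inv_inv, hσ]

end H13Y
end

-- from Lib.H99B.A1
section

/-!
Chunk A1 (M, pure Mathlib). The trace form.
PROOF. k is a finite field of characteristic l, so it is an algebra over ZMod l (ZMod.algebra k l; use letI), q = card k = l^f,
f = finrank (ZMod l) k. ρ = Algebra.trace (ZMod l) k as an additive map. FiniteField.algebraMap_trace_eq_sum_pow (or the statement with this
content): algebraMap (Tr x) = sum over i < f of x^(l^i). The cast of (ρ b).val to k is algebraMap (ZMod l) k (ρ b) (ZMod.natCast_val / ZMod.cast_id /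
map_natCast). Hence the sum is sum_{i<f} sum_c (a c^-1)^(l^i) c = sum_{i<f} a^(l^i) sum_c c^(1 - l^i). The term i = 0 is a (q - 1) = -a.
For 0 < i < f: sum_c c^(1-l^i) = sum_c (c^-1)^(l^i - 1) = 0 by FiniteField.sum_pow_units, because q - 1 does not divide l^i - 1
(0 < l^i - 1 < q - 1; l >= 2).
-/

namespace H99B

theorem a1_inner {k : Type} [Field k] [Fintype k] [DecidableEq k] (m : ℕ) (hm : 0 < m) :
    ∑ c : kˣ, ((c⁻¹ : kˣ) : k) ^ m * (c : k) = if Fintype.card k - 1 ∣ m - 1 then -1 else 0 := by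
  rw [← FiniteField.sum_pow_units k (m - 1), ← Equiv.sum_comp (Equiv.inv kˣ) (fun c : kˣ => (c : k) ^ (m - 1))]
  refine Finset.sum_congr rfl fun c _ => ?_
  rw [Equiv.inv_apply]
  obtain ⟨r, rfl⟩ : ∃ r, m = r + 1 := ⟨m - 1, by omega⟩
  rw [Nat.add_sub_cancel, pow_succ, mul_assoc, Units.inv_mul, mul_one]

theorem exists_rho (l : ℕ) [Fact l.Prime] (k : Type) [Field k] [Fintype k] [DecidableEq k]
    [CharP k l] : ∃ ρ : k →+ ZMod l, IsRho l ρ := by
  have hl : l.Prime := Fact.out
  let _ := ZMod.algebra k l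
  have hNe : NeZero l := ⟨hl.ne_zero⟩
  refine ⟨(Algebra.trace (ZMod l) k).toAddMonoidHom, ⟨fun a => ?_⟩⟩
  set f := Module.finrank (ZMod l) k with hf
  have hcard : Fintype.card k = l ^ f := by
    have h := Module.card_eq_pow_finrank (K := ZMod l) (V := k)
    rwa [ZMod.card] at h
  have hf0 : 0 < f := Module.finrank_pos
  have h1 : ∀ b : k, (((Algebra.trace (ZMod l) k).toAddMonoidHom b).val : k) = ∑ i ∈ Finset.range f, b ^ (l ^ i) := by
    intro b
    have h2 := FiniteField.algebraMap_trace_eq_sum_pow (ZMod l) k b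
    rw [Nat.card_zmod] at h2
    rw [← h2]
    have h3 := ZMod.natCast_zmod_val (Algebra.trace (ZMod l) k b)
    conv_rhs => rw [← h3]
    rw [map_natCast]
    rfl
  simp only [h1, Finset.sum_mul]
  rw [Finset.sum_comm]
  have h2 : ∀ i ∈ Finset.range f, ∑ c : kˣ, (a * ((c⁻¹ : kˣ) : k)) ^ (l ^ i) * (c : k) =
      if i = 0 then -a else 0 := by
    intro i hi
    have h3 : ∑ c : kˣ, (a * ((c⁻¹ : kˣ) : k)) ^ (l ^ i) * (c : k) =
        a ^ (l ^ i) * ∑ c : kˣ, ((c⁻¹ : kˣ) : k) ^ (l ^ i) * (c : k) := by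
      rw [Finset.mul_sum]
      refine Finset.sum_congr rfl fun c _ => ?_
      rw [mul_pow]
      ring
    rw [h3, a1_inner _ (pow_pos hl.pos i)]
    by_cases h0 : i = 0
    · subst h0
      simp
    · rw [if_neg h0, if_neg, mul_zero]
      intro hd
      have hi' := Finset.mem_range.1 hi
      have h4 : l ^ i < l ^ f := Nat.pow_lt_pow_right hl.one_lt hi'
      have h5 : 1 < l ^ i := Nat.one_lt_pow h0 hl.one_lt
      have h6 := Nat.le_of_dvd (by omega) hd
      rw [hcard] at h6
      omega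
  rw [Finset.sum_congr rfl h2, Finset.sum_ite_eq' , if_pos (Finset.mem_range.2 hf0)]

end H99B
end

-- from Lib.H13Y.GN4
section

open NumberField IsDedekindDomain

namespace H13Y

open H99B

/-- Chunk GN4 (M). The complex Teichmueller character. V: a valuation subring of ℂ in which l is not a unit (LocalSubring.exists_le_valuationSubring for the local ring ℤ localized at l, or ValuationSubring from an extension of the l-adic valuation; or: a maximal element of the set of pairs (subring, prime over l); look in Mathlib for `exists_le_valuationSubring` or `bijective_rangeRestrict_comp_of_valuationRing`, and in Lib/H55N, Lib/H55P, Lib/H13S for an existing construction of a ValuationSubring with V l < 1).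
The residue field kV of V is algebraically closed (a monic polynomial over kV lifts to a monic polynomial over V, its roots in ℂ lie in V: V is integrally closed) and has characteristic l. So there is a ring homomorphism i : k →+* kV (IsAlgClosed.lift, k algebraic over ZMod l). q = card k. The (q - 1)-th roots of unity of ℂ lie in V, and two different ones are different in kV
(X^(q-1) - 1 is separable over kV because q - 1 = -1 in kV; or: the product of 1 - ζ over ζ ≠ 1 is q - 1, a unit of V). They are q - 1 in number, so the reduction is a bijection onto the (q - 1)-th roots of unity of kV, and i (c), c in kˣ, is such a root: ω g = the lift of i (χ g), multiplicative by uniqueness, injective as χ and i are.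
The sum over g of α g ω g lies in V and reduces to i (chs χ α) ≠ 0, so it is a unit of V. -/
theorem exists_teich (l : ℕ) [Fact l.Prime] {k : Type} [Field k] [Fintype k] [CharP k l] {G : Type}
    [Group G] [Fintype G] (χ : G →* kˣ) (hχ : Function.Injective χ) :
    ∃ (V : ValuationSubring ℂ) (ω : G →* ℂˣ), V.valuation (l : ℂ) < 1 ∧ Function.Injective ω ∧
      ∀ α : G → ℤ, chs χ α ≠ 0 → V.valuation (∑ g, (α g : ℂ) * (ω g : ℂ)) = 1 := by
  classical
  have hcyc : IsCyclic G := isCyclic_of_injective χ hχ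
  obtain ⟨g0, hg0⟩ := IsCyclic.exists_generator (α := G)
  set m := orderOf g0 with hm
  have hmpos : 0 < m := orderOf_pos g0
  have hζ := Complex.isPrimitiveRoot_exp m hmpos.ne'
  set ζ : ℂ := Complex.exp (2 * Real.pi * Complex.I / m) with hζd
  let ζu : ℂˣ := (hζ.isUnit hmpos.ne').unit
  have hζc : (ζu : ℂ) = ζ := rfl
  have hζu : IsPrimitiveRoot ζu m := by
    rw [← IsPrimitiveRoot.coe_units_iff]; exact hζ
  have hord : orderOf ζu = m := hζu.eq_orderOf.symm
  have hdv : orderOf ζu ∣ orderOf g0 := by rw [hord]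
  let ω : G →* ℂˣ := monoidHomOfForallMemZpowers hg0 hdv
  have hω0 : ω g0 = ζu := monoidHomOfForallMemZpowers_apply_gen hg0 _
  let φ : Polynomial ℤ →+* ℂ := Polynomial.eval₂RingHom (Int.castRingHom ℂ) ζ
  let ψ : Polynomial ℤ →+* k := Polynomial.eval₂RingHom (Int.castRingHom k) (χ g0 : k)
  have hχ0 : IsPrimitiveRoot (χ g0 : k) m := by
    rw [IsPrimitiveRoot.coe_units_iff]
    have : orderOf (χ g0) = m := orderOf_injective χ hχ g0
    exact this ▸ IsPrimitiveRoot.orderOf (χ g0)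
  have hker : ∀ p : Polynomial ℤ, φ p = 0 → ψ p = 0 := by
    intro p hp
    have h1 : minpoly ℤ ζ ∣ p :=
      minpoly.isIntegrallyClosed_dvd (hζ.isIntegral hmpos) (by rw [Polynomial.aeval_def]; exact hp)
    rw [← Polynomial.cyclotomic_eq_minpoly hζ hmpos] at h1
    obtain ⟨r, rfl⟩ := h1
    rw [map_mul]
    have h2 : ψ (Polynomial.cyclotomic m ℤ) = 0 := by
      show Polynomial.eval₂ _ _ _ = 0
      rw [← Polynomial.eval_map, Polynomial.map_cyclotomic]
      exact hχ0.isRoot_cyclotomic hmpos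
    rw [h2, zero_mul]
  let I : Ideal φ.range := Ideal.map φ.rangeRestrict (RingHom.ker ψ)
  have hI : I ≠ ⊤ := by
    intro h
    have h1 : (1 : φ.range) ∈ I := by rw [h]; trivial
    obtain ⟨p, hp, hp1⟩ := (Ideal.mem_map_iff_of_surjective _ φ.rangeRestrict_surjective).1 h1
    have h2 : φ p = 1 := congrArg Subtype.val hp1
    have h3 : ψ (p - 1) = 0 := hker _ (by rw [map_sub, map_one, h2, sub_self])
    rw [map_sub, map_one, (RingHom.mem_ker).1 hp, zero_sub, neg_eq_zero] at h3
    exact one_ne_zero h3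
  obtain ⟨V, hV1, hV2⟩ := Ideal.image_subset_nonunits_valuationSubring I hI
  have hle : ∀ p, V.valuation (φ p) ≤ 1 := fun p => (V.valuation_le_one_iff _).2 (hV1 ⟨p, rfl⟩)
  have hlt : ∀ p, ψ p = 0 → V.valuation (φ p) < 1 := by
    intro p hp
    rw [← ValuationSubring.mem_nonunits_iff]
    exact hV2 ⟨φ.rangeRestrict p, Ideal.mem_map_of_mem _ ((RingHom.mem_ker).2 hp), rfl⟩
  have hone : ∀ p, ψ p ≠ 0 → V.valuation (φ p) = 1 := by
    intro p hp
    have h1 : ψ (p ^ (Fintype.card k - 1) - 1) = 0 := by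
      rw [map_sub, map_pow, map_one, FiniteField.pow_card_sub_one_eq_one _ hp, sub_self]
    have h2 := hlt _ h1
    refine le_antisymm (hle p) (not_lt.1 fun h3 => ?_)
    have hc : Fintype.card k - 1 ≠ 0 := by
      have := Fintype.one_lt_card (α := k)
      omega
    have h4 : V.valuation (φ (p ^ (Fintype.card k - 1))) < 1 := by
      rw [map_pow, map_pow]
      exact pow_lt_one₀ zero_le h3 hc
    have h5 : V.valuation (φ (p ^ (Fintype.card k - 1)) - φ (p ^ (Fintype.card k - 1) - 1)) < 1 :=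
      lt_of_le_of_lt (Valuation.map_sub _ _ _) (max_lt h4 h2)
    rw [← map_sub, sub_sub_cancel, map_one, map_one] at h5
    exact lt_irrefl _ h5
  refine ⟨V, ω, ?_, ?_, ?_⟩
  · have h1 : ψ (l : Polynomial ℤ) = 0 := by
      rw [map_natCast, CharP.cast_eq_zero]
    have h2 := hlt _ h1
    rwa [map_natCast] at h2
  · rw [injective_iff_map_eq_one]
    intro x hx
    obtain ⟨j, rfl⟩ := hg0 x
    have h1 : ζu ^ j = 1 := by rw [← hω0, ← map_zpow]; exact hx
    rw [← orderOf_dvd_iff_zpow_eq_one, hord] at h1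
    exact orderOf_dvd_iff_zpow_eq_one.1 h1
  · intro α hα
    have hj : ∀ g : G, ∃ j : ℕ, g0 ^ j = g := fun g => by
      have := hg0 g
      rw [← mem_powers_iff_mem_zpowers] at this
      exact this
    choose j hj using hj
    have h1 : ψ (∑ g, Polynomial.C (α g) * Polynomial.X ^ j g) = chs χ α := by
      rw [map_sum]
      refine Finset.sum_congr rfl fun g _ => ?_
      rw [map_mul, map_pow]
      show Polynomial.eval₂ _ _ _ * Polynomial.eval₂ _ _ _ ^ _ = _
      rw [Polynomial.eval₂_C, Polynomial.eval₂_X, ← Units.val_pow_eq_pow_val, ← map_pow, hj]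
      rfl
    have h2 : φ (∑ g, Polynomial.C (α g) * Polynomial.X ^ j g) = ∑ g, (α g : ℂ) * (ω g : ℂ) := by
      rw [map_sum]
      refine Finset.sum_congr rfl fun g _ => ?_
      rw [map_mul, map_pow]
      show Polynomial.eval₂ _ _ _ * Polynomial.eval₂ _ _ _ ^ _ = _
      rw [Polynomial.eval₂_C, Polynomial.eval₂_X, ← hζc, ← hω0, ← Units.val_pow_eq_pow_val, ← map_pow, hj]
      rfl
    rw [← h2]
    exact hone _ (by rw [h1]; exact hα)

end H13Y
end

-- from Lib.H99B.B3
section

/-!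
Chunk B3 (M). The Minkowski unit. L/F Galois, F = Q(om) has exactly one infinite place, which is complex.
PROOF. Fix an infinite place V0 of L. H55R.unit_place gives a unit y with V y < 1 for all V ≠ V0; z = its image in Lˣ (ord v z = 0: HA7_ord_unit).
The Galois group Gal(L/F) acts on the infinite places (σ • V), transitively on those above a place of F (NumberField.InfinitePlace.exists_smul_eq_of_comap_eq or the
like; F has only one place: card (InfinitePlace F) = nrRealPlaces + nrComplexPlaces = 0 + 1, IsCyclotomicExtension.Rat.nrComplexPlaces_eq_totient_div_two for n = 3, or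
Fintype.card_eq from finrank 2 and no real place), and simply: |Gal(L/F)| = [L:F] and L has exactly [L:F] infinite places (all complex: complexF, finrank_eq: 2 r2 = [L:Q] = 2 [L:F]).
So σ ↦ σ • V0 is a bijection. For T = ∅ define η (inr (σ • V0)) = gu σ z. Then Eta ∅ η: ord v (gu σ z) = 0 (ord_smul), and V' (gu σ z) = (σ⁻¹ • V') z < 1 for
V' ≠ σ • V0 (InfinitePlace.smul_apply: (σ • V) x = V (σ⁻¹ x)). H55R.theta_index for T = ∅: the range of Th has finite nonzero relative index n in (TUa ∅) × Z;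
for a unit u: n • (u, 0) is in the range (the relative index kills the quotient: AddSubgroup.relIndex, pow_mem / nsmul_mem of index; for an additive commutative group:
AddSubgroup.nsmul_index_mem): n u = sum_V a_V η_V, i.e. u^n = prod_σ (gu σ z)^(a (σ • V0)). So even u ^ n = pw gu α z. n = that relative index.
-/

open NumberField IsDedekindDomain

namespace H99B

open H55B H55R

theorem b3_rankF : Module.finrank ℚ F = 2 := by
  have h := IsCyclotomicExtension.finrank (n := 3) F
    (Polynomial.cyclotomic.irreducible_rat (by norm_num))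
  rw [h]
  decide

theorem b3_sub : Subsingleton (InfinitePlace F) := by
  have h1 : InfinitePlace.nrRealPlaces F = 0 :=
    IsCyclotomicExtension.Rat.nrRealPlaces_eq_zero (n := 3) F (by norm_num)
  have h2 := InfinitePlace.card_add_two_mul_card_eq_rank F
  have h3 := b3_rankF
  have h4 := InfinitePlace.card_eq_nrRealPlaces_add_nrComplexPlaces F
  have h5 : Fintype.card (InfinitePlace F) ≤ 1 := by omega
  exact Fintype.card_le_one_iff_subsingleton.1 h5

theorem b3_cpx (K : Type) [Field K] [NumberField K] [Algebra F K] (v : InfinitePlace K) :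
    v.IsComplex := by
  classical
  rw [← InfinitePlace.not_isReal_iff_isComplex]
  intro h
  have h1 : (v.comap (algebraMap F K)).IsReal := h.comap (algebraMap F K)
  have h2 : InfinitePlace.nrRealPlaces F = 0 :=
    IsCyclotomicExtension.Rat.nrRealPlaces_eq_zero (n := 3) F (by norm_num)
  have h3 : 0 < InfinitePlace.nrRealPlaces F := Fintype.card_pos_iff.2 ⟨⟨_, h1⟩⟩
  omega

theorem b3_card (L : Type) [Field L] [NumberField L] [Algebra F L] :
    Fintype.card (InfinitePlace L) = Module.finrank F L := by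
  classical
  have h0 : InfinitePlace.nrRealPlaces L = 0 := by
    rw [InfinitePlace.nrRealPlaces, Fintype.card_eq_zero_iff]
    exact ⟨fun v => (InfinitePlace.not_isReal_iff_isComplex.2 (b3_cpx L v.1)) v.2⟩
  have h2 := InfinitePlace.card_add_two_mul_card_eq_rank L
  have h4 := InfinitePlace.card_eq_nrRealPlaces_add_nrComplexPlaces L
  have h5 := Module.finrank_mul_finrank ℚ F L
  rw [b3_rankF] at h5
  omega

theorem minkowski (L : Type) [Field L] [NumberField L] [Algebra F L] [IsGalois F L] :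
    ∃ (z : Lˣ) (n : ℕ), 0 < n ∧ (∀ v : Pl L, ord v z = 0) ∧
      ∀ u : Lˣ, (∀ v : Pl L, ord v u = 0) → ∃ α : Gal(L/F) → ℤ, u ^ n = pw gu α z := by
  classical
  obtain ⟨V0⟩ : Nonempty (InfinitePlace L) := inferInstance
  obtain ⟨y, hy⟩ := unit_place L V0
  set z : Lˣ := Units.map (algebraMap (𝓞 L) L : 𝓞 L →* L) y with hzd
  have hz : ∀ v : Pl L, ord v z = 0 := HA7_ord_unit y
  have hsub := b3_sub
  have hbij : Function.Bijective (fun σ : Gal(L/F) => σ • V0) := by
    rw [Fintype.bijective_iff_surjective_and_card]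
    refine ⟨fun V => InfinitePlace.exists_smul_eq_of_comap_eq (Subsingleton.elim _ _), ?_⟩
    rw [b3_card L, ← IsGalois.card_aut_eq_finrank, Nat.card_eq_fintype_card]
  let e : Gal(L/F) ≃ InfinitePlace L := Equiv.ofBijective _ hbij
  have he : ∀ σ : Gal(L/F), e σ = σ • V0 := fun σ => rfl
  let η : (∅ : Finset (Pl L)) ⊕ InfinitePlace L → Additive Lˣ :=
    Sum.elim (fun _ => 0) (fun V => Additive.ofMul (gu (e.symm V) z))
  have hη : Eta ∅ η := by
    constructor
    · rintro ⟨W, hW⟩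
      exact absurd hW (Finset.notMem_empty W)
    · intro V
      set σ := e.symm V with hσ
      have hV : V = σ • V0 := by rw [← he, hσ, Equiv.apply_symm_apply]
      constructor
      · intro W
        show ord W (gu σ z) = 0
        have h1 := ord_smul σ (smulP σ⁻¹ W) z
        rw [← smulP_mul, mul_inv_cancel, smulP_one] at h1
        have h2 : ord W (gu σ z) = ord (smulP σ⁻¹ W) z := h1
        rw [h2, hz]
      · intro V' hV'
        show V' (σ (z : L)) < 1
        have h1 : σ⁻¹ • V' ≠ V0 := by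
          intro h2
          apply hV'
          rw [hV, ← h2, smul_inv_smul]
        have h2 := hy _ h1
        rw [InfinitePlace.smul_apply] at h2
        exact h2
  have hidx := theta_index ∅ η hη
  refine ⟨z, _, Nat.pos_of_ne_zero hidx, hz, ?_⟩
  intro u hu
  have hmem : ((Additive.ofMul u, 0) : Additive Lˣ × ℤ) ∈ (TUa (∅ : Finset (Pl L))).prod (⊤ : AddSubgroup ℤ) := by
    rw [AddSubgroup.mem_prod]
    exact ⟨fun v _ => hu v, trivial⟩
  have h1 : (Th ∅ η).range.relIndex ((TUa ∅).prod (⊤ : AddSubgroup ℤ)) • ((Additive.ofMul u, 0) : Additive Lˣ × ℤ) ∈ (Th ∅ η).range := by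
    have h2 := AddSubgroup.nsmul_index_mem ((Th ∅ η).range.addSubgroupOf ((TUa ∅).prod (⊤ : AddSubgroup ℤ)))
      ⟨((Additive.ofMul u, 0) : Additive Lˣ × ℤ), hmem⟩
    exact AddSubgroup.mem_addSubgroupOf.1 h2
  obtain ⟨a, ha⟩ := h1
  refine ⟨fun σ => a (Sum.inr (e σ)), ?_⟩
  have h2 := congrArg Prod.fst ha
  have h3 : (∑ p, a p • η p) = (Th ∅ η).range.relIndex ((TUa ∅).prod (⊤ : AddSubgroup ℤ)) • Additive.ofMul u := h2
  rw [Fintype.sum_sum_type, Finset.univ_eq_empty, Finset.sum_empty, zero_add, ← e.sum_comp] at h3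
  apply Additive.ofMul.injective
  rw [ofMul_pow, ← h3]
  unfold pw
  rw [ofMul_prod]
  refine Finset.sum_congr rfl fun σ _ => ?_
  show a (Sum.inr (e σ)) • Additive.ofMul (gu (e.symm (e σ)) z) = _
  rw [Equiv.symm_apply_apply]
  rfl

end H99B
end

-- from Lib.H13Y.GN6c
section

open NumberField IsDedekindDomain

namespace H13Y

open H55B H55R H28G H99B

/-- Chunk GN6c (S). F ⊆ N is not real, so N is totally complex: the number of infinite places is [N : F] (InfinitePlace.card_add_two_mul_card_eq_rank, nrRealPlaces = 0; Module.finrank_mul_finrank ℚ F N, finrank ℚ F = 2). -/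
theorem places_card (N : Type) [Field N] [NumberField N] [Algebra F N] :
    (∀ v : InfinitePlace N, v.IsComplex) ∧ Fintype.card (InfinitePlace N) = Module.finrank F N := ⟨b3_cpx N, b3_card N⟩

end H13Y
end
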