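import Mathlib
import Pool.Agent.Lib.H1M.PP.D_H55K_D2
import Pool.Agent.Lib.H1M.PP.D_H55P_SD
import Pool.Agent.Lib.H1M.PP.D_H55P_Stm
import Pool.Agent.Lib.H1M.PP.D_H55P_Z10
import Pool.Agent.Lib.H1M.PP.M001
import Pool.Agent.Lib.H1M.PP.M009
import Pool.Agent.Lib.H1M.PP.M021
import Pool.Agent.Lib.H1M.PP.M029
import Pool.Agent.Lib.H1M.PP.M030
import Pool.Agent.Lib.H1M.PP.M033
import Pool.Agent.Lib.H1M.PP.M037
import Pool.Agent.Lib.H1M.PP.M041
import Pool.Agent.Lib.H1M.PP.M042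

/-! Merged copies (to shorten the build) of Lib.H13Z.LDefs, Lib.H55K.QD2, Lib.H55K.QH4A, Lib.H55K.QE2A, Lib.H55K.QC1B, Lib.H55K.QC1C, Lib.H55K.QC1D, Lib.H55K.T7A, Lib.H55K.BH, Lib.H55K.Z1C, Lib.H55K.RG, Lib.H55K.QB1A, Lib.H55K.T9D, Lib.H55K.UA3, Lib.H55K.T2, Lib.H55K.T9A, Lib.H55K.T3A, Lib.H55K.T3B. -/

-- from Lib.H13Z.LDefs
section

/-!
# H13Z: definitions for the local theory

V is a valuation ring of Ω. DT = the elements of the decomposition group which fix the points killed by pi,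
Hx = the elements of Ω fixed by DT (the henselization of F(E[pi]) at V). See PROOF.md.
-/

open NumberField IsDedekindDomain

namespace H13Z

open H55P H28G H55B H13S

variable {Ω : Type} [Field Ω] [DecidableEq Ω] [Algebra F Ω]

/-- s lies in the decomposition group of V and fixes the points killed by pi. -/
def DT (π : O) (V : ValuationSubring Ω) (s : Ω ≃ₐ[F] Ω) : Prop :=
  Dec V s ∧ ∀ T ∈ Tor π Ω, ac W27 s T = T

/-- x is fixed by these automorphisms. -/
def Hx (π : O) (V : ValuationSubring Ω) (x : Ω) : Prop := ∀ s, DT π V s → s x = x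

/-- s lies in the inertia group of V and fixes the points killed by pi and by its conjugate. -/
def JV (π : O) (V : ValuationSubring Ω) (s : Ω ≃ₐ[F] Ω) : Prop :=
  Inert V s ∧ (∀ T ∈ Tor π Ω, ac W27 s T = T) ∧ ∀ T ∈ Tor (cj π) Ω, ac W27 s T = T

/-- c is a cocycle on the decomposition group of V with values in the points killed by the conjugate of pi. -/
structure Dc (π : O) (V : ValuationSubring Ω) (c : (Ω ≃ₐ[F] Ω) → P27 Ω) : Prop where
  mul : ∀ s, Dec V s → ∀ t, Dec V t → c (s * t) = c s + ac W27 s (c t)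
  val : ∀ s, Dec V s → c s ∈ Tor (cj π) Ω

/-- The y T are Kummer generators for c over the henselization. -/
structure KS (π : O) (V : ValuationSubring Ω) (e : P27 Ω → P27 Ω → Ω) (c : (Ω ≃ₐ[F] Ω) → P27 Ω)
    (y : P27 Ω → Ω) : Prop where
  ne : ∀ T ∈ Tor π Ω, y T ≠ 0
  act : ∀ T ∈ Tor π Ω, ∀ s, DT π V s → s (y T) = e (c s) T * y T

/-- An additive and equivariant system of elements of the henselization modulo l-th powers. -/
structure Sys (π : O) (l : ℕ) (V : ValuationSubring Ω) (m : P27 Ω → Ω) : Prop where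
  ne : ∀ T ∈ Tor π Ω, m T ≠ 0
  fx : ∀ T ∈ Tor π Ω, Hx π V (m T)
  add : ∀ T ∈ Tor π Ω, ∀ T' ∈ Tor π Ω, ∃ z, Hx π V z ∧ z ≠ 0 ∧ m (T + T') = m T * m T' * z ^ l
  act : ∀ s, Dec V s → ∀ T ∈ Tor π Ω, ∃ z, Hx π V z ∧ z ≠ 0 ∧ m (ac W27 s T) = s (m T) * z ^ l

/-- The level: m is an l-th power times an element which differs from 1 by at most r. -/
def Lv (π : O) (l : ℕ) (V : ValuationSubring Ω) (r : V.ValueGroup) (m : Ω) : Prop :=
  ∃ z, Hx π V z ∧ z ≠ 0 ∧ V.valuation (m / z ^ l - 1) ≤ r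

/-- The coefficient a of m at the level i: m = z^l (1 + a t^i + smaller terms). -/
def Co (π : O) (l : ℕ) (V : ValuationSubring Ω) (t : Ω) (i : ℕ) (m : Ω) (a : O) : Prop :=
  ∃ z, Hx π V z ∧ z ≠ 0 ∧ V.valuation (m / z ^ l - 1 - algebraMap F Ω (a : F) * t ^ i) ≤
    V.valuation t ^ (i + 1)

/-- The ramified case: V lies above pi, t is the parameter of a point killed by pi, q = Nm pi, e0 (l - 1) = q - 1. -/
structure RV (π : O) (l : ℕ) (V : ValuationSubring Ω) (t : Ω) (e0 : ℕ) : Prop where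
  D : Dat π l
  above : vo V π < 1
  pt : ∃ T ∈ Tor π Ω, T ≠ 0 ∧ t = tt T
  e0 : e0 * (l - 1) = H55B.Nm π - 1

/-- A pairing for which the adjoint of a is its conjugate. -/
structure PairA (π : O) (l : ℕ) (e : P27 Ω → P27 Ω → Ω) : Prop where
  pair : Pairing π l e
  adj : ∀ (a : O), ∀ X ∈ Tor (cj π) Ω, ∀ T ∈ Tor π Ω, e (H28G.act a X) T = e X (H28G.act (cj a) T)

end H13Z
end

-- from Lib.H55K.QD2
section

/-! # H55K: points over the base field -/

open NumberField IsDedekindDomain WeierstrassCurve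

namespace H55K.TQ

open H55P (IQ embF eF LF Per IsHecke Pt ac Inert Dec Nm UnitP)
open H35P (WAB Ker tt GoodW IntW)
open H55K.MG (VC Crd)

/-- The identity on coordinates for equal curves. -/
noncomputable def qd2_cast {k : Type} [Field k] [DecidableEq k] {W₁ W₂ : WeierstrassCurve k} (h : W₁ = W₂) :
    W₁.toAffine.Point ≃+ W₂.toAffine.Point := by
  subst h
  exact AddEquiv.refl _

theorem qd2_cast_some {k : Type} [Field k] [DecidableEq k] {W₁ W₂ : WeierstrassCurve k} (h : W₁ = W₂) (x y : k)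
    (hn : W₁.toAffine.Nonsingular x y) :
    qd2_cast h (Affine.Point.some x y hn) = Affine.Point.some x y (h ▸ hn) := by
  subst h
  rfl

theorem qd2_base {k : Type} [Field k] (W : WeierstrassCurve k) : W⁄k = W := by
  cases W
  rfl

/-- φ is the inclusion of the points over k in the points over Ω. -/
def Inc {k : Type} [Field k] [DecidableEq k] {Ω : Type} [Field Ω] [DecidableEq Ω] [Algebra k Ω] (W : WeierstrassCurve k)
    (φ : W.toAffine.Point →+ Pt W Ω) : Prop :=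
  ∀ P, P ≠ 0 → φ P ≠ 0 ∧ xc (φ P) = algebraMap k Ω (xc P) ∧ yc (φ P) = algebraMap k Ω (yc P)

/-- Chunk QD2 (S/M). Affine.Point.map for the algebra map k → Ω (base change of W from k to k is W: W.map (algebraMap k k) = W; use Affine.Point.map (Algebra.ofId k Ω) and the identification W⁄k = W, see H55P.z11_cast in Z11.lean, or Affine.Point.map for W with R = k, F = k if W⁄k unfolds). -/
theorem exists_inc {k : Type} [Field k] [DecidableEq k] {Ω : Type} [Field Ω] [DecidableEq Ω] [Algebra k Ω]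
    (W : WeierstrassCurve k) : ∃ φ : W.toAffine.Point →+ Pt W Ω, Inc W φ := by
  refine ⟨(Affine.Point.map (W' := W.toAffine) (Algebra.ofId k Ω)).comp
    (qd2_cast (qd2_base W).symm).toAddMonoidHom, ?_⟩
  intro P hP
  rcases P with _ | ⟨x, y, h⟩
  · exact absurd rfl hP
  · have e1 : ((Affine.Point.map (W' := W.toAffine) (Algebra.ofId k Ω)).comp
        (qd2_cast (qd2_base W).symm).toAddMonoidHom) (Affine.Point.some x y h) =
        Affine.Point.map (W' := W.toAffine) (Algebra.ofId k Ω) (qd2_cast (qd2_base W).symm (Affine.Point.some x y h)) := rfl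
    rw [e1, qd2_cast_some]
    exact ⟨Affine.Point.some_ne_zero _, rfl, rfl⟩

end H55K.TQ
end

-- from Lib.H55K.QH4A
section

/-! # H55K: the factors of the discriminant are p-adic units -/

open NumberField IsDedekindDomain WeierstrassCurve

namespace H55K.TQ

open H55P (IQ embF eF LF Per IsHecke Pt ac Inert Dec Nm UnitP)
open H35P (WAB Ker tt GoodW IntW)
open H55K.MG (VC Crd)

variable {K : Type} [Field K] [NumberField K] (w : HeightOneSpectrum (𝓞 K))

/-- Chunk QH4A (S/M). The norm of the completion: ‖x‖ = N^k for x ≠ 0, N = absNorm w, k an integer (NumberField.FinitePlace.norm_def or the instance; Valued.v x = exp k). -/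
theorem norm_w (x : w.adicCompletion K) (hx : x ≠ 0) :
    ∃ k : ℤ, ‖x‖ = (Ideal.absNorm w.asIdeal : ℝ) ^ k ∧ Valued.v x = WithZero.exp k := by
  have hv : (Valued.v x : WithZero (Multiplicative ℤ)) ≠ 0 := (Valuation.ne_zero_iff _).2 hx
  obtain ⟨k, hk⟩ : ∃ k : ℤ, (Valued.v x : WithZero (Multiplicative ℤ)) = WithZero.exp k :=
    ⟨WithZero.log (Valued.v x), (WithZero.exp_log hv).symm⟩
  refine ⟨k, ?_, hk⟩
  rw [FinitePlace.norm_def, hk, WithZeroMulInt.toNNReal_neg_apply _ WithZero.exp_ne_zero]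
  have h1 : WithZero.unzero (WithZero.exp_ne_zero (a := k)) = Multiplicative.ofAdd k :=
    WithZero.unzero_coe _
  rw [h1]
  simp

end H55K.TQ
end

-- from Lib.H55K.QE2A
section

/-! # H55K: the parameter x/y is additive modulo squares -/

open NumberField IsDedekindDomain WeierstrassCurve

namespace H55K.TQ

open H55P (IQ embF eF LF Per IsHecke Pt ac Inert Dec Nm UnitP)
open H35P (WAB Ker tt GoodW IntW)
open H55K.MG (VC Crd)

variable {k : Type} [Field k] [DecidableEq k] {W : WeierstrassCurve k} {V : ValuationSubring k}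

theorem qe2a_mon {Γ : Type*} [LinearOrderedCommGroupWithZero Γ] {a b c u w : Γ} (ha : a ≤ c) (hb : b ≤ c)
    (hu : u ≤ 1) (hw : w ≤ 1) : u * (a * b) * w ≤ c ^ 2 := by
  calc u * (a * b) * w ≤ 1 * (c * c) * 1 := mul_le_mul' (mul_le_mul' hu (mul_le_mul' ha hb)) hw
    _ = c ^ 2 := by rw [one_mul, mul_one, sq]

theorem qe2a_ord {Γ : Type*} [LinearOrderedCommGroupWithZero Γ] {a b d c L M n : Γ} (ha : a ≤ c) (hb : b ≤ c)
    (hd : d ≤ c) (hc : c ≤ 1) (hM : M * (a * b * d) = 1) (hL : L * a ≤ 1 ∨ L * b ≤ 1 ∨ L * d ≤ 1)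
    (hn : n ≤ max (max (L ^ 2 * M) (L * M ^ 2)) (M ^ 2)) : n * (a * b * d) ^ 3 ≤ c ^ 2 := by
  have ha1 : a ≤ 1 := ha.trans hc
  have hb1 : b ≤ 1 := hb.trans hc
  have hd1 : d ≤ 1 := hd.trans hc
  have p : ∀ {x : Γ} (m : ℕ), x ≤ 1 → x ^ m ≤ 1 := fun m hx => pow_le_one₀ zero_le hx
  rcases le_max_iff.1 hn with h | h
  · rcases le_max_iff.1 h with h | h
    · refine (mul_le_mul_left h _).trans ?_
      have e : L ^ 2 * M * (a * b * d) ^ 3 = L ^ 2 * (a * b * d) ^ 2 := by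
        calc L ^ 2 * M * (a * b * d) ^ 3 = L ^ 2 * (a * b * d) ^ 2 * (M * (a * b * d)) := by
              simp only [pow_succ, pow_zero, one_mul]; ac_rfl
          _ = L ^ 2 * (a * b * d) ^ 2 := by rw [hM, mul_one]
      rw [e]
      rcases hL with h1 | h1 | h1
      · calc L ^ 2 * (a * b * d) ^ 2 = (L * a) ^ 2 * (b * d) * (b * d) := by
              simp only [pow_succ, pow_zero, one_mul]; ac_rfl
          _ ≤ c ^ 2 := qe2a_mon hb hd (p 2 h1) (mul_le_one' hb1 hd1)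
      · calc L ^ 2 * (a * b * d) ^ 2 = (L * b) ^ 2 * (a * d) * (a * d) := by
              simp only [pow_succ, pow_zero, one_mul]; ac_rfl
          _ ≤ c ^ 2 := qe2a_mon ha hd (p 2 h1) (mul_le_one' ha1 hd1)
      · calc L ^ 2 * (a * b * d) ^ 2 = (L * d) ^ 2 * (a * b) * (a * b) := by
              simp only [pow_succ, pow_zero, one_mul]; ac_rfl
          _ ≤ c ^ 2 := qe2a_mon ha hb (p 2 h1) (mul_le_one' ha1 hb1)
    · refine (mul_le_mul_left h _).trans ?_
      have e : L * M ^ 2 * (a * b * d) ^ 3 = L * (a * b * d) := by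
        calc L * M ^ 2 * (a * b * d) ^ 3 = L * (a * b * d) * (M * (a * b * d)) ^ 2 := by
              simp only [pow_succ, pow_zero, one_mul]; ac_rfl
          _ = L * (a * b * d) := by rw [hM, one_pow, mul_one]
      rw [e]
      rcases hL with h1 | h1 | h1
      · calc L * (a * b * d) = (L * a) * (b * d) * 1 := by
              rw [mul_one]; ac_rfl
          _ ≤ c ^ 2 := qe2a_mon hb hd h1 le_rfl
      · calc L * (a * b * d) = (L * b) * (a * d) * 1 := by
              rw [mul_one]; ac_rfl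
          _ ≤ c ^ 2 := qe2a_mon ha hd h1 le_rfl
      · calc L * (a * b * d) = (L * d) * (a * b) * 1 := by
              rw [mul_one]; ac_rfl
          _ ≤ c ^ 2 := qe2a_mon ha hb h1 le_rfl
  · refine (mul_le_mul_left h _).trans ?_
    have e : M ^ 2 * (a * b * d) ^ 3 = a * b * d := by
      calc M ^ 2 * (a * b * d) ^ 3 = (a * b * d) * (M * (a * b * d)) ^ 2 := by
            simp only [pow_succ, pow_zero, one_mul]; ac_rfl
        _ = a * b * d := by rw [hM, one_pow, mul_one]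
    rw [e]
    calc a * b * d = 1 * (a * b) * d := by rw [one_mul]
      _ ≤ c ^ 2 := qe2a_mon ha hb le_rfl hd1

/-- The size of a root of z^2 + a z = s. -/
theorem qe2a_root {k : Type*} [Field k] {Γ : Type*} [LinearOrderedCommGroupWithZero Γ] (v : Valuation k Γ)
    {z a b s : k} (h : z ^ 2 + a * z = s + b) (ha : v a ≤ 1) (hb : v b ≤ 1) (hs : 1 < v s) :
    1 < v z ∧ v z ^ 2 = v s := by
  have hsb : v (s + b) = v s := Valuation.map_add_eq_of_lt_left v (hb.trans_lt hs)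
  have hz : 1 < v z := by
    by_contra hcon
    have hz1 := not_lt.1 hcon
    have h1 : v (z ^ 2 + a * z) ≤ 1 := by
      refine (v.map_add _ _).trans (max_le ?_ ?_)
      · rw [map_pow]
        exact pow_le_one₀ zero_le hz1
      · rw [map_mul]
        exact mul_le_one' ha hz1
    rw [h, hsb] at h1
    exact absurd hs (not_lt.2 h1)
  refine ⟨hz, ?_⟩
  have h2 : v (a * z) < v (z ^ 2) := by
    rw [map_mul, map_pow, sq]
    calc v a * v z ≤ 1 * v z := mul_le_mul_left ha _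
      _ = v z := one_mul _
      _ < v z * v z := by
        calc v z = 1 * v z := (one_mul _).symm
          _ < v z * v z := mul_lt_mul_of_pos_right hz (zero_lt_one.trans hz)
  rw [← map_pow, ← hsb, ← h, Valuation.map_add_eq_of_lt_left v h2]

theorem qe2a_val {k : Type*} [Field k] {Γ : Type*} [LinearOrderedCommGroupWithZero Γ] (v : Valuation k Γ)
    {x₁ x₂ x₃ y₁ y₂ y₃ l m a₁ a₂ a₃ a₄ a₆ : k} {c : Γ} (h1 : 1 < v x₁) (h2 : 1 < v x₂) (h3 : 1 < v x₃)
    (s1 : x₁ + x₂ + x₃ = l ^ 2 + a₁ * l - a₂) (s3 : x₁ * x₂ * x₃ = m ^ 2 + a₃ * m - a₆)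
    (g1 : v a₁ ≤ 1) (g2 : v a₂ ≤ 1) (g3 : v a₃ ≤ 1) (g4 : v a₄ ≤ 1) (g6 : v a₆ ≤ 1)
    (v1 : v y₁ ^ 2 = v x₁ ^ 3) (v2 : v y₂ ^ 2 = v x₂ ^ 3) (v3 : v y₃ ^ 2 = v x₃ ^ 3)
    (i3 : v (3 : k) ≤ 1) (i2 : v (2 : k) ≤ 1)
    (hN : x₁ * y₂ * y₃ + x₂ * y₁ * y₃ + x₃ * y₁ * y₂ =
      a₃ * l ^ 2 * m - 3 * a₆ * l ^ 2 + 2 * a₄ * l * m - a₁ * l * m ^ 2 - a₂ * m ^ 2)
    (c1 : v (x₁ / y₁) ≤ c) (c2 : v (x₂ / y₂) ≤ c) (c3 : v (x₃ / y₃) ≤ c) (hc : c ≤ 1) :
    v (x₁ / y₁ + x₂ / y₂ + x₃ / y₃) ≤ c ^ 2 := by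
  have key : ∀ x y : k, 1 < v x → v y ^ 2 = v x ^ 3 →
      v (x / y) ^ 2 * v x = 1 ∧ v (x / y) ^ 3 * v y = 1 ∧ y ≠ 0 := by
    intro x y hx hxy
    have hx0 : v x ≠ 0 := (zero_lt_one.trans hx).ne'
    have hy0 : v y ≠ 0 := by
      intro h
      rw [h, zero_pow two_ne_zero] at hxy
      exact pow_ne_zero 3 hx0 hxy.symm
    refine ⟨?_, ?_, fun h => hy0 (by rw [h, map_zero])⟩
    · rw [map_div₀, div_pow, hxy, ← mul_div_right_comm, ← pow_succ, div_self (pow_ne_zero _ hx0)]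
    · rw [map_div₀, div_pow, ← hxy, ← mul_div_right_comm, ← pow_succ, div_self (pow_ne_zero _ hy0)]
  obtain ⟨e1, f1, n1⟩ := key _ _ h1 v1
  obtain ⟨e2, f2, n2⟩ := key _ _ h2 v2
  obtain ⟨e3, f3, n3⟩ := key _ _ h3 v3
  have h123 : 1 < v (x₁ * x₂ * x₃) := by
    rw [map_mul, map_mul]
    exact one_lt_mul'' (one_lt_mul'' h1 h2) h3
  obtain ⟨hm1, hm2⟩ := qe2a_root v (z := m) (a := a₃) (b := a₆) (s := x₁ * x₂ * x₃) (by rw [s3]; ring) g3 g6 h123
  have hb : v m ^ 2 = v x₁ * v x₂ * v x₃ := by rw [hm2, map_mul, map_mul]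
  have hM : v m * (v (x₁ / y₁) * v (x₂ / y₂) * v (x₃ / y₃)) = 1 := by
    have h : (v m * (v (x₁ / y₁) * v (x₂ / y₂) * v (x₃ / y₃))) ^ 2 = 1 := by
      calc (v m * (v (x₁ / y₁) * v (x₂ / y₂) * v (x₃ / y₃))) ^ 2
          = v m ^ 2 * (v (x₁ / y₁) ^ 2 * v (x₂ / y₂) ^ 2 * v (x₃ / y₃) ^ 2) := by
            simp only [mul_pow]
        _ = (v (x₁ / y₁) ^ 2 * v x₁) * (v (x₂ / y₂) ^ 2 * v x₂) * (v (x₃ / y₃) ^ 2 * v x₃) := by
            rw [hb]; ac_rfl
        _ = 1 := by rw [e1, e2, e3, one_mul, one_mul]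
    exact (pow_eq_one_iff_of_nonneg zero_le two_ne_zero).1 h
  have le1 : ∀ x y : k, v l ^ 2 ≤ v x → v (x / y) ^ 2 * v x = 1 → v l * v (x / y) ≤ 1 := by
    intro x y hl he
    refine (pow_le_one_iff_of_nonneg zero_le two_ne_zero).1 ?_
    calc (v l * v (x / y)) ^ 2 = v (x / y) ^ 2 * v l ^ 2 := by rw [mul_pow, mul_comm]
      _ ≤ v (x / y) ^ 2 * v x := mul_le_mul_right hl _
      _ = 1 := he
  have hL : v l * v (x₁ / y₁) ≤ 1 ∨ v l * v (x₂ / y₂) ≤ 1 ∨ v l * v (x₃ / y₃) ≤ 1 := by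
    have h : v l ^ 2 ≤ max (max (v x₁) (v x₂)) (v x₃) := by
      have hle : v (x₁ + x₂ + x₃) ≤ max (max (v x₁) (v x₂)) (v x₃) :=
        (v.map_add _ _).trans (max_le_max (v.map_add _ _) le_rfl)
      by_cases hs : 1 < v (x₁ + x₂ + x₃)
      · rw [(qe2a_root v (z := l) (a := a₁) (b := a₂) (s := x₁ + x₂ + x₃) (by rw [s1]; ring) g1 g2 hs).2]
        exact hle
      · have hmx : 1 ≤ max (max (v x₁) (v x₂)) (v x₃) := h3.le.trans (le_max_right _ _)
        refine le_trans ?_ hmx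
        have hl1 : v l ≤ 1 := by
          by_contra hcon
          have hl := not_le.1 hcon
          have e : l ^ 2 + a₁ * l = (x₁ + x₂ + x₃) + a₂ := by rw [s1]; ring
          have hlt : v (a₁ * l) < v (l ^ 2) := by
            rw [map_mul, map_pow, sq]
            calc v a₁ * v l ≤ 1 * v l := mul_le_mul_left g1 _
              _ < v l * v l := mul_lt_mul_of_pos_right hl (zero_lt_one.trans hl)
          have h5 : v (l ^ 2 + a₁ * l) = v (l ^ 2) := Valuation.map_add_eq_of_lt_left v hlt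
          have h6 : v (l ^ 2) ≤ 1 := by
            rw [← h5, e]
            exact (v.map_add _ _).trans (max_le (not_lt.1 hs) g2)
          rw [map_pow] at h6
          exact absurd (one_lt_pow₀ hl two_ne_zero) (not_lt.2 h6)
        exact pow_le_one₀ zero_le hl1
    rcases le_max_iff.1 h with h | h
    · rcases le_max_iff.1 h with h | h
      · exact Or.inl (le1 _ _ h e1)
      · exact Or.inr (Or.inl (le1 _ _ h e2))
    · exact Or.inr (Or.inr (le1 _ _ h e3))
  have hn : v (a₃ * l ^ 2 * m - 3 * a₆ * l ^ 2 + 2 * a₄ * l * m - a₁ * l * m ^ 2 - a₂ * m ^ 2) ≤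
      max (max (v l ^ 2 * v m) (v l * v m ^ 2)) (v m ^ 2) := by
    have t1 : v (a₃ * l ^ 2 * m) ≤ v l ^ 2 * v m := by
      rw [map_mul, map_mul, map_pow, mul_assoc]
      exact mul_le_of_le_one_left' g3
    have t2 : v (3 * a₆ * l ^ 2) ≤ v l ^ 2 * v m := by
      rw [map_mul, map_mul, map_pow]
      exact (mul_le_of_le_one_left' (mul_le_one' i3 g6)).trans (le_mul_of_one_le_right' hm1.le)
    have t3 : v (2 * a₄ * l * m) ≤ v l * v m ^ 2 := by
      rw [map_mul, map_mul, map_mul, mul_assoc]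
      refine (mul_le_of_le_one_left' (mul_le_one' i2 g4)).trans (mul_le_mul_right ?_ _)
      rw [sq]
      exact le_mul_of_one_le_right' hm1.le
    have t4 : v (a₁ * l * m ^ 2) ≤ v l * v m ^ 2 := by
      rw [map_mul, map_mul, map_pow, mul_assoc]
      exact mul_le_of_le_one_left' g1
    have t5 : v (a₂ * m ^ 2) ≤ v m ^ 2 := by
      rw [map_mul, map_pow]
      exact mul_le_of_le_one_left' g2
    have m1 : v l ^ 2 * v m ≤ max (max (v l ^ 2 * v m) (v l * v m ^ 2)) (v m ^ 2) :=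
      (le_max_left _ _).trans (le_max_left _ _)
    have m2 : v l * v m ^ 2 ≤ max (max (v l ^ 2 * v m) (v l * v m ^ 2)) (v m ^ 2) :=
      (le_max_right _ _).trans (le_max_left _ _)
    refine Valuation.map_sub_le _ (Valuation.map_sub_le _ (Valuation.map_add_le _ (Valuation.map_sub_le _
      (t1.trans m1) (t2.trans m1)) (t3.trans m2)) (t4.trans m2)) (t5.trans (le_max_right _ _))
  have hT : x₁ / y₁ + x₂ / y₂ + x₃ / y₃ =
      (a₃ * l ^ 2 * m - 3 * a₆ * l ^ 2 + 2 * a₄ * l * m - a₁ * l * m ^ 2 - a₂ * m ^ 2) / (y₁ * y₂ * y₃) := by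
    rw [← hN]
    field_simp
  have hv : v (x₁ / y₁ + x₂ / y₂ + x₃ / y₃) =
      v (a₃ * l ^ 2 * m - 3 * a₆ * l ^ 2 + 2 * a₄ * l * m - a₁ * l * m ^ 2 - a₂ * m ^ 2) *
        (v (x₁ / y₁) * v (x₂ / y₂) * v (x₃ / y₃)) ^ 3 := by
    rw [hT, map_div₀, div_eq_mul_inv]
    congr 1
    refine inv_eq_of_mul_eq_one_right ?_
    rw [map_mul, map_mul]
    calc v y₁ * v y₂ * v y₃ * (v (x₁ / y₁) * v (x₂ / y₂) * v (x₃ / y₃)) ^ 3 =
        (v (x₁ / y₁) ^ 3 * v y₁) * (v (x₂ / y₂) ^ 3 * v y₂) * (v (x₃ / y₃) ^ 3 * v y₃) := by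
          rw [mul_pow, mul_pow]; ac_rfl
      _ = 1 := by rw [f1, f2, f3, one_mul, one_mul]
  rw [hv]
  exact qe2a_ord c1 c2 c3 hc hM hL hn

/-- Chunk QE2A (M/L), port of H55K.g2_gen, g2_val, g2_ord (G2.lean; there a₁ = a₂ = a₃ = 0) to a general integral equation. P = 0, Q = 0, P + Q = 0 (H35P.tt_neg: V(tt (-P) + tt P) ≤ V(tt P)^2) are clear; let c be ≤ 1 and V(tt P), V(tt Q) ≤ c. Let (x₁, y₁), (x₂, y₂), (x₃, y₃ = l x₃ + m) be the three points on the line (H35P.vieta in R2.lean; P + Q = -(x₃, y₃)),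
T_i = x_i/y_i, a = V(T₁), b = V(T₂), d = V(T₃), all < 1, V(x_i) = V(T_i)^-2, V(y_i) = V(T_i)^-3 (H35P.tt_sq, val_y), a, b ≤ c. First d ≤ c if c < 1: H35P.tt_add for the points P, Q (V(tt (P + Q) - tt P - tt Q) < c) and tt_neg; or without: see the end. s3: x₁ x₂ x₃ = m^2 + a₃ m - a₆ has value > 1, so V(m)^2 = (a b d)^-2, V(m) a b d = 1.
s1: x₁ + x₂ + x₃ = l^2 + a₁ l - a₂: if V(l) > 1 then V(l)^2 ≤ max of the V(x_i), so V(l) e ≤ 1 with e = min a b d. The last relation of vieta divided by y₁ y₂ y₃: T₁ + T₂ + T₃ = (a₃ l^2 m - 3 a₆ l^2 + 2 a₄ l m - a₁ l m^2 - a₂ m^2)/(y₁ y₂ y₃); values of the five terms: V(l)^2 V(m) (abd)^3 = V(l)^2 (abd)^2, V(l)^2 (abd)^3, V(l) (abd)^2, V(l) (abd), (abd).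
With V(l) ≤ 1/e and e one of a, b, d the worst is (abd)/e = product of the two others ≤ c^2 (using d ≤ c), and abd ≤ c^2. So V(T₁ + T₂ + T₃) ≤ c^2; tt(P + Q) = -T₃ up to d^2 ≤ c^2 (tt_neg). The case c = 1: all values are < 1 (tt_lt), the claim is V(..) ≤ 1: clear. -/
theorem tt_add2g (hI : IntW W V) (P Q : W.toAffine.Point) (hP : Ker V P) (hQ : Ker V Q) (c : V.ValueGroup)
    (h1 : c ≤ 1) (hPc : V.valuation (tt P) ≤ c) (hQc : V.valuation (tt Q) ≤ c) :
    V.valuation (tt (P + Q) - tt P - tt Q) ≤ c ^ 2 := by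
  rcases P with _ | ⟨x₁, y₁, h₁⟩
  · have e : tt (W := W) (Affine.Point.zero + Q) - tt (W := W) Affine.Point.zero - tt Q = 0 := by
      change tt (0 + Q) - 0 - tt Q = 0
      rw [zero_add, sub_zero, sub_self]
    rw [e, map_zero]
    exact zero_le
  rcases Q with _ | ⟨x₂, y₂, h₂⟩
  · have e : tt (W := W) (Affine.Point.some x₁ y₁ h₁ + Affine.Point.zero) -
        tt (W := W) (Affine.Point.some x₁ y₁ h₁) - tt (W := W) Affine.Point.zero = 0 := by
      change tt (Affine.Point.some x₁ y₁ h₁ + 0) - tt (W := W) (Affine.Point.some x₁ y₁ h₁) - 0 = 0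
      rw [add_zero, sub_zero, sub_self]
    rw [e, map_zero]
    exact zero_le
  by_cases hxy : x₁ = x₂ ∧ y₁ = W.toAffine.negY x₂ y₂
  · have e0 : (Affine.Point.some x₁ y₁ h₁ : W.toAffine.Point) + Affine.Point.some x₂ y₂ h₂ = 0 :=
      Affine.Point.add_of_Y_eq hxy.1 hxy.2
    have e1 : (Affine.Point.some x₁ y₁ h₁ : W.toAffine.Point) = -Affine.Point.some x₂ y₂ h₂ :=
      eq_neg_of_add_eq_zero_left e0
    have e2 := H35P.tt_neg hI _ hQ
    have e3 : tt (0 : W.toAffine.Point) = 0 := rfl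
    rw [e0, e1, e3, zero_sub, sub_eq_add_neg, ← neg_add, Valuation.map_neg]
    exact e2.trans (pow_le_pow_left' hQc 2)
  · obtain ⟨s1, s2, s3, p1, p2, p3, hN⟩ := H35P.vieta h₁.1 h₂.1 hxy _ _ _ rfl rfl rfl
    set l : k := W.toAffine.slope x₁ x₂ y₁ y₂ with hl
    set x₃ : k := W.toAffine.addX x₁ x₂ l with hx₃
    set m : k := y₁ - l * x₁ with hm
    set y₃ : k := W.toAffine.negAddY x₁ x₂ y₁ l with hy₃
    have h₃ : W.toAffine.Nonsingular x₃ y₃ := Affine.nonsingular_negAdd h₁ h₂ hxy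
    have hd : 1 < V.valuation x₃ := H35P.third_big hI.a1 hI.a2 hI.a3 hI.a4 hI.a6 s1 s2 s3 hP hQ
    have v1 := (H35P.val_y hI h₁.1 hP).1
    have v2 := (H35P.val_y hI h₂.1 hQ).1
    have v3 := (H35P.val_y hI h₃.1 hd).1
    have hR : Ker V (Affine.Point.some x₃ y₃ h₃ : W.toAffine.Point) := hd
    have hsum : (Affine.Point.some x₁ y₁ h₁ : W.toAffine.Point) + Affine.Point.some x₂ y₂ h₂ =
        -Affine.Point.some x₃ y₃ h₃ := by
      rw [Affine.Point.add_some hxy, Affine.Point.neg_some]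
      rfl
    have hPc' : V.valuation (x₁ / y₁) ≤ c := hPc
    have hQc' : V.valuation (x₂ / y₂) ≤ c := hQc
    have key : V.valuation (x₁ / y₁ + x₂ / y₂ + x₃ / y₃) < c := by
      have v1' := v1
      have v2' := v2
      have v3' := v3
      have hPc'' := hPc'
      have hQc'' := hQc'
      rw [p1] at v1' hPc''
      rw [p2] at v2' hQc''
      rw [p3] at v3'
      rw [p1, p2, p3]
      exact H35P.third_tt hI.a1 hI.a2 hI.a3 hI.a4 hI.a6 s1 s2 s3 hN hP hQ v1' v2' v3' c hPc'' hQc''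
    have hRc : V.valuation (x₃ / y₃) ≤ c := by
      have e : x₃ / y₃ = (x₁ / y₁ + x₂ / y₂ + x₃ / y₃) - x₁ / y₁ - x₂ / y₂ := by ring
      rw [e]
      exact Valuation.map_sub_le _ (Valuation.map_sub_le _ key.le hPc') hQc'
    have hRc' : V.valuation (tt (W := W) (Affine.Point.some x₃ y₃ h₃)) ≤ c := hRc
    have hneg := H35P.tt_neg hI _ hR
    have hmain : V.valuation (x₁ / y₁ + x₂ / y₂ + x₃ / y₃) ≤ c ^ 2 := by
      have hN' := hN
      rw [← p1, ← p2, ← p3] at hN'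
      refine qe2a_val V.valuation hP hQ hd s1 s3 ((V.valuation_le_one_iff _).2 hI.a1) ((V.valuation_le_one_iff _).2 hI.a2)
        ((V.valuation_le_one_iff _).2 hI.a3) ((V.valuation_le_one_iff _).2 hI.a4) ((V.valuation_le_one_iff _).2 hI.a6)
        v1 v2 v3 ?_ ?_ hN' hPc' hQc' hRc h1
      · have := H35P.r3_nat (V := V) 3
        rwa [Nat.cast_ofNat] at this
      · have := H35P.r3_nat (V := V) 2
        rwa [Nat.cast_ofNat] at this
    have e : tt (W := W) (-Affine.Point.some x₃ y₃ h₃) - tt (W := W) (Affine.Point.some x₁ y₁ h₁) -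
        tt (W := W) (Affine.Point.some x₂ y₂ h₂) =
        (tt (W := W) (-Affine.Point.some x₃ y₃ h₃) + tt (W := W) (Affine.Point.some x₃ y₃ h₃)) -
          (x₁ / y₁ + x₂ / y₂ + x₃ / y₃) := by
      change tt (W := W) (-Affine.Point.some x₃ y₃ h₃) - x₁ / y₁ - x₂ / y₂ =
        (tt (W := W) (-Affine.Point.some x₃ y₃ h₃) + x₃ / y₃) - (x₁ / y₁ + x₂ / y₂ + x₃ / y₃)
      ring
    rw [hsum, e]
    exact Valuation.map_sub_le _ (hneg.trans (pow_le_pow_left' hRc' 2)) hmain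

end H55K.TQ
end

-- from Lib.H55K.QC1B
section

/-! # H55K: the good model of a curve with integral j-invariant -/

open NumberField IsDedekindDomain WeierstrassCurve

namespace H55K.TQ

open H55P (IQ embF eF LF Per IsHecke Pt ac Inert Dec Nm UnitP)
open H35P (WAB Ker tt GoodW IntW)
open H55K.MG (VC Crd)

/-- Chunk QC1B (S/M). Composition of changes of variables. -/
theorem vc_comp {k : Type} [Field k] {W W' W'' : WeierstrassCurve k} {u r s t u' r' s' t' : k} (h : VC W W' u r s t)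
    (h' : VC W' W'' u' r' s' t') :
    VC W W'' (u * u') (u ^ 2 * r' + r) (u * s' + s) (u ^ 3 * t' + s * u ^ 2 * r' + t) := by
  obtain ⟨hu, e1, e2, e3, e4, e6⟩ := h
  obtain ⟨hu', f1, f2, f3, f4, f6⟩ := h'
  refine ⟨mul_ne_zero hu hu', ?_, ?_, ?_, ?_, ?_⟩
  · linear_combination u * f1 + e1
  · linear_combination u ^ 2 * f2 + e2 - u * s' * e1
  · linear_combination u ^ 3 * f3 + e3 + u ^ 2 * r' * e1
  · linear_combination u ^ 4 * f4 + e4 - u * s' * e3 + 2 * r' * u ^ 2 * e2 - (t' + r' * s') * u ^ 3 * e1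
  · linear_combination u ^ 6 * f6 + e6 + r' * u ^ 2 * e4 + r' ^ 2 * u ^ 4 * e2 - t' * u ^ 3 * e3 -
      r' * t' * u ^ 5 * e1

/-- Chunk QC1B (S/M). The inverse. -/
theorem vc_inv {k : Type} [Field k] {W W' : WeierstrassCurve k} {u r s t : k} (h : VC W W' u r s t) :
    VC W' W u⁻¹ (-(r / u ^ 2)) (-(s / u)) ((s * r - t) / u ^ 3) := by
  obtain ⟨hu, e1, e2, e3, e4, e6⟩ := h
  refine ⟨inv_ne_zero hu, ?_, ?_, ?_, ?_, ?_⟩
  · apply mul_left_cancel₀ hu
    field_simp
    linear_combination -e1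
  · apply mul_left_cancel₀ (pow_ne_zero 2 hu)
    field_simp
    linear_combination -e2 - s * e1
  · apply mul_left_cancel₀ (pow_ne_zero 3 hu)
    field_simp
    linear_combination -e3 + r * e1
  · apply mul_left_cancel₀ (pow_ne_zero 4 hu)
    field_simp
    linear_combination -e4 - s * e3 + 2 * r * e2 + (2 * s * r - t) * e1
  · apply mul_left_cancel₀ (pow_ne_zero 6 hu)
    field_simp
    linear_combination -e6 + r * e4 - r ^ 2 * e2 + (s * r - t) * e3 - r * (s * r - t) * e1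

/-- Chunk QC1B (S). Existence: divide. -/
theorem vc_ex {k : Type} [Field k] (W : WeierstrassCurve k) {u : k} (hu : u ≠ 0) (r s t : k) :
    ∃ W', VC W W' u r s t := by
  refine ⟨⟨(W.a₁ + 2 * s) / u, (W.a₂ - s * W.a₁ + 3 * r - s ^ 2) / u ^ 2, (W.a₃ + r * W.a₁ + 2 * t) / u ^ 3,
    (W.a₄ - s * W.a₃ + 2 * r * W.a₂ - (t + r * s) * W.a₁ + 3 * r ^ 2 - 2 * s * t) / u ^ 4,
    (W.a₆ + r * W.a₄ + r ^ 2 * W.a₂ + r ^ 3 - t * W.a₃ - t ^ 2 - r * t * W.a₁) / u ^ 6⟩, hu, ?_, ?_, ?_, ?_, ?_⟩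
  · exact mul_div_cancel₀ _ hu
  · exact mul_div_cancel₀ _ (pow_ne_zero 2 hu)
  · exact mul_div_cancel₀ _ (pow_ne_zero 3 hu)
  · exact mul_div_cancel₀ _ (pow_ne_zero 4 hu)
  · exact mul_div_cancel₀ _ (pow_ne_zero 6 hu)

/-- Chunk QC1B (S). Uniqueness. -/
theorem vc_uniq {k : Type} [Field k] {W W₁ W₂ : WeierstrassCurve k} {u r s t : k} (h₁ : VC W W₁ u r s t)
    (h₂ : VC W W₂ u r s t) : W₁ = W₂ := by
  have hu := h₁.une
  apply WeierstrassCurve.ext
  · exact mul_left_cancel₀ hu (h₁.h1.trans h₂.h1.symm)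
  · exact mul_left_cancel₀ (pow_ne_zero 2 hu) (h₁.h2.trans h₂.h2.symm)
  · exact mul_left_cancel₀ (pow_ne_zero 3 hu) (h₁.h3.trans h₂.h3.symm)
  · exact mul_left_cancel₀ (pow_ne_zero 4 hu) (h₁.h4.trans h₂.h4.symm)
  · exact mul_left_cancel₀ (pow_ne_zero 6 hu) (h₁.h6.trans h₂.h6.symm)

end H55K.TQ
end

-- from Lib.H55K.QC1C
section

/-! # H55K: the good model of a curve with integral j-invariant -/

open NumberField IsDedekindDomain WeierstrassCurve

namespace H55K.TQ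

open H55P (IQ embF eF LF Per IsHecke Pt ac Inert Dec Nm UnitP)
open H35P (WAB Ker tt GoodW IntW)
open H55K.MG (VC Crd)

theorem qc1c_smul {k : Type} [Field k] (W : WeierstrassCurve k) (C : VariableChange k) :
    VC W (C • W) (C.u : k) C.r C.s C.t := by
  have hu : (C.u : k) ≠ 0 := C.u.ne_zero
  have hi : (C.u : k) * ((C.u⁻¹ : kˣ) : k) = 1 := Units.mul_inv C.u
  have hp : ∀ n : ℕ, (C.u : k) ^ n * ((C.u⁻¹ : kˣ) : k) ^ n = 1 := by
    intro n
    rw [← mul_pow, hi, one_pow]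
  refine ⟨hu, ?_, ?_, ?_, ?_, ?_⟩
  · rw [variableChange_a₁, ← mul_assoc, hi, one_mul]
  · rw [variableChange_a₂, ← mul_assoc, hp, one_mul]
  · rw [variableChange_a₃, ← mul_assoc, hp, one_mul]
  · rw [variableChange_a₄, ← mul_assoc, hp, one_mul]
  · rw [variableChange_a₆, ← mul_assoc, hp, one_mul]

/-- Chunk QC1C (S/M). The discriminant and c₄ (VariableChange: variableChange_Δ in Mathlib, or ring after multiplying with powers of u). -/
theorem vc_disc {k : Type} [Field k] {W W' : WeierstrassCurve k} {u r s t : k} (h : VC W W' u r s t) :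
    u ^ 12 * W'.Δ = W.Δ ∧ u ^ 4 * W'.c₄ = W.c₄ ∧ u ^ 6 * W'.c₆ = W.c₆ := by
  have hW : W' = (⟨Units.mk0 u h.une, r, s, t⟩ : VariableChange k) • W :=
    vc_uniq h (qc1c_smul W ⟨Units.mk0 u h.une, r, s, t⟩)
  have hp : ∀ n : ℕ, u ^ n * (((Units.mk0 u h.une)⁻¹ : kˣ) : k) ^ n = 1 := by
    intro n
    rw [← mul_pow]
    have h1 : u * (((Units.mk0 u h.une)⁻¹ : kˣ) : k) = 1 := Units.mul_inv (Units.mk0 u h.une)
    rw [h1, one_pow]
  refine ⟨?_, ?_, ?_⟩
  · rw [hW, variableChange_Δ, ← mul_assoc, hp, one_mul]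
  · rw [hW, variableChange_c₄, ← mul_assoc, hp, one_mul]
  · rw [hW, variableChange_c₆, ← mul_assoc, hp, one_mul]

/-- Chunk QC1C (S/M). The relation with the changes of variables of Mathlib (VariableChange, C • W): coefficients of variableChange_def. -/
theorem vc_smul {k : Type} [Field k] (W : WeierstrassCurve k) (C : VariableChange k) :
    VC W (C • W) (C.u : k) C.r C.s C.t := by
  exact qc1c_smul W C

/-- Chunk QC1C (S). Base change. -/
theorem vc_map {k k' : Type} [Field k] [Field k'] (f : k →+* k') {W W' : WeierstrassCurve k} {u r s t : k} (h : VC W W' u r s t) :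
    VC (W.map f) (W'.map f) (f u) (f r) (f s) (f t) := by
  obtain ⟨hu, e1, e2, e3, e4, e6⟩ := h
  refine ⟨(map_ne_zero f).2 hu, ?_, ?_, ?_, ?_, ?_⟩
  · have := congrArg f e1
    simp only [map_mul, map_add, map_sub, map_pow, map_ofNat] at this
    exact this
  · have := congrArg f e2
    simp only [map_mul, map_add, map_sub, map_pow, map_ofNat] at this
    exact this
  · have := congrArg f e3
    simp only [map_mul, map_add, map_sub, map_pow, map_ofNat] at this
    exact this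
  · have := congrArg f e4
    simp only [map_mul, map_add, map_sub, map_pow, map_ofNat] at this
    exact this
  · have := congrArg f e6
    simp only [map_mul, map_add, map_sub, map_pow, map_ofNat] at this
    exact this

end H55K.TQ
end

-- from Lib.H55K.QC1D
section

/-! # H55K: the good model of a curve with integral j-invariant -/

open NumberField IsDedekindDomain WeierstrassCurve

namespace H55K.TQ

open H55P (IQ embF eF LF Per IsHecke Pt ac Inert Dec Nm UnitP)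
open H35P (WAB Ker tt GoodW IntW)
open H55K.MG (VC Crd)

theorem qc1d_two {k : Type} [Field k] {V : ValuationSubring k} {x b c : k} (hb : b ∈ V) (hc : c ∈ V)
    (h : x ^ 2 + b * x = c) : x ∈ V := by
  rcases V.mem_or_inv_mem x with h1 | h1
  · exact h1
  · by_cases h0 : x = 0
    · rw [h0]
      exact V.zero_mem
    · have e : x = c * x⁻¹ - b := by
        field_simp
        linear_combination h
      rw [e]
      exact sub_mem (V.mul_mem _ _ hc h1) hb

theorem qc1d_four {k : Type} [Field k] {V : ValuationSubring k} {x b c d : k} (hb : b ∈ V) (hc : c ∈ V)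
    (hd : d ∈ V) (h : x ^ 4 = b * x ^ 2 + c * x + d) : x ∈ V := by
  rcases V.mem_or_inv_mem x with h1 | h1
  · exact h1
  · by_cases h0 : x = 0
    · rw [h0]
      exact V.zero_mem
    · have e : x = b * x⁻¹ + c * (x⁻¹ * x⁻¹) + d * (x⁻¹ * x⁻¹ * x⁻¹) := by
        field_simp
        linear_combination h
      rw [e]
      exact V.add_mem _ _ (V.add_mem _ _ (V.mul_mem _ _ hb h1) (V.mul_mem _ _ hc (V.mul_mem _ _ h1 h1)))
        (V.mul_mem _ _ hd (V.mul_mem _ _ (V.mul_mem _ _ h1 h1) h1))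

theorem qc1d_nat {k : Type} [Field k] (V : ValuationSubring k) (n : ℕ) : (n : k) ∈ V := by
  exact natCast_mem V n

theorem qc1d_inv {k : Type} [Field k] {V : ValuationSubring k} {u : k} (hu : V.valuation u = 1) :
    u ∈ V ∧ u⁻¹ ∈ V := by
  constructor
  · rw [← V.valuation_le_one_iff, hu]
  · rw [← V.valuation_le_one_iff, map_inv₀, hu, inv_one]

theorem qc1d_div {k : Type} [Field k] {V : ValuationSubring k} {u x y : k} (hu : V.valuation u = 1) (n : ℕ)
    (h : u ^ n * x = y) (hy : y ∈ V) : x ∈ V := by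
  rw [← V.valuation_le_one_iff] at hy ⊢
  rw [← h, map_mul, map_pow, hu, one_pow, one_mul] at hy
  exact hy

/-- Chunk QC1D (S). Integral change of variables with a unit u: W' is good if W is. -/
theorem vc_good {k : Type} [Field k] {V : ValuationSubring k} {W W' : WeierstrassCurve k} {u r s t : k} (h : VC W W' u r s t)
    (hG : GoodW W V) (hu : V.valuation u = 1) (hr : r ∈ V) (hs : s ∈ V) (ht : t ∈ V) : GoodW W' V := by
  have h2 : (2 : k) ∈ V := by exact_mod_cast qc1d_nat V 2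
  have h3 : (3 : k) ∈ V := by exact_mod_cast qc1d_nat V 3
  have m : ∀ {x y : k}, x ∈ V → y ∈ V → x * y ∈ V := fun hx hy => V.mul_mem _ _ hx hy
  have a : ∀ {x y : k}, x ∈ V → y ∈ V → x + y ∈ V := fun hx hy => V.add_mem _ _ hx hy
  have b : ∀ {x y : k}, x ∈ V → y ∈ V → x - y ∈ V := fun hx hy => sub_mem hx hy
  have p : ∀ {x : k} (n : ℕ), x ∈ V → x ^ n ∈ V := fun n hx => pow_mem hx n
  have a1 := hG.a1
  have a2 := hG.a2
  have a3 := hG.a3
  have a4 := hG.a4
  have a6 := hG.a6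
  refine ⟨⟨?_, ?_, ?_, ?_, ?_⟩, ?_⟩
  · exact qc1d_div hu 1 (by rw [pow_one]; exact h.h1) (a a1 (m h2 hs))
  · exact qc1d_div hu 2 h.h2 (b (a (b a2 (m hs a1)) (m h3 hr)) (p 2 hs))
  · exact qc1d_div hu 3 h.h3 (a (a a3 (m hr a1)) (m h2 ht))
  · exact qc1d_div hu 4 h.h4 (b (a (b (a (b a4 (m hs a3)) (m (m h2 hr) a2)) (m (a ht (m hr hs)) a1))
      (m h3 (p 2 hr))) (m (m h2 hs) ht))
  · exact qc1d_div hu 6 h.h6 (b (b (b (a (a (a a6 (m hr a4)) (m (p 2 hr) a2)) (p 3 hr)) (m ht a3)) (p 2 ht))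
      (m (m hr ht) a1))
  · have h4 := (vc_disc h).1
    have h5 := congrArg V.valuation h4
    rw [map_mul, map_pow, hu, one_pow, one_mul, hG.disc] at h5
    exact h5

/-- Chunk QC1D (S/M). Two good equations: the change of variables is integral with a unit u. u: u^12 Δ' = Δ. Then (u = unit): 2s and 3 r - s^2 - s a₁ are in V from h1, h2, h3.. and from h4, h6: r satisfies an integral equation (the standard argument: Silverman VII.1.3 (d)):
b₂: u^2 b₂' = b₂ + 12 r, b₄: u^4 b₄' = b₄ + r b₂ + 6 r^2, b₆: u^6 b₆' = b₆ + 2 r b₄ + r^2 b₂ + 4 r^3, b₈: u^8 b₈' = b₈ + 3 r b₆ + 3 r^2 b₄ + r^3 b₂ + 3 r^4. The b₆ and b₈ relations give monic-like equations: if V(r) > 1 then V(4 r^3) ≤ V(r)^2 and V(3 r^4) ≤ V(r)^3, so V(4) V(r) ≤ 1 and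
V(3) V(r) ≤ 1, 4 - 3 = 1: V(r) ≤ 1. Then s: s^2 + s a₁ = (integral) (h2), so s is in V; t: t^2 + t (a₃ + r a₁) = integral (h6), so t is in V. -/
theorem vc_int {k : Type} [Field k] {V : ValuationSubring k} {W W' : WeierstrassCurve k} {u r s t : k} (h : VC W W' u r s t)
    (hG : IntW W V) (hG' : IntW W' V) (hu : V.valuation u = 1) : r ∈ V ∧ s ∈ V ∧ t ∈ V := by
  have h2 : (2 : k) ∈ V := by exact_mod_cast qc1d_nat V 2
  have h3 : (3 : k) ∈ V := by exact_mod_cast qc1d_nat V 3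
  have h4 : (4 : k) ∈ V := by exact_mod_cast qc1d_nat V 4
  have m : ∀ {x y : k}, x ∈ V → y ∈ V → x * y ∈ V := fun hx hy => V.mul_mem _ _ hx hy
  have a : ∀ {x y : k}, x ∈ V → y ∈ V → x + y ∈ V := fun hx hy => V.add_mem _ _ hx hy
  have b : ∀ {x y : k}, x ∈ V → y ∈ V → x - y ∈ V := fun hx hy => sub_mem hx hy
  have p : ∀ {x : k} (n : ℕ), x ∈ V → x ^ n ∈ V := fun n hx => pow_mem hx n
  have hb : ∀ {X : WeierstrassCurve k}, IntW X V → X.b₄ ∈ V ∧ X.b₆ ∈ V ∧ X.b₈ ∈ V := by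
    intro X hX
    have a1 := hX.a1
    have a2 := hX.a2
    have a3 := hX.a3
    have a4 := hX.a4
    have a6 := hX.a6
    refine ⟨?_, ?_, ?_⟩
    · unfold WeierstrassCurve.b₄
      exact a (m h2 a4) (m a1 a3)
    · unfold WeierstrassCurve.b₆
      exact a (p 2 a3) (m h4 a6)
    · unfold WeierstrassCurve.b₈
      exact b (a (b (a (m (p 2 a1) a6) (m (m h4 a2) a6)) (m (m a1 a3) a4)) (m a2 (p 2 a3))) (p 2 a4)
  obtain ⟨b4, b6, b8⟩ := hb hG
  obtain ⟨b4', b6', b8'⟩ := hb hG'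
  have hu1 := (qc1d_inv hu).1
  have e6 : u ^ 6 * W'.b₆ = W.b₆ + 2 * r * W.b₄ + r ^ 2 * W.b₂ + 4 * r ^ 3 := by
    have e : u ^ 6 * W'.b₆ = (u ^ 3 * W'.a₃) ^ 2 + 4 * (u ^ 6 * W'.a₆) := by
      unfold WeierstrassCurve.b₆
      ring
    rw [e, h.h3, h.h6]
    unfold WeierstrassCurve.b₆ WeierstrassCurve.b₄ WeierstrassCurve.b₂
    ring
  have e8 : u ^ 8 * W'.b₈ = W.b₈ + 3 * r * W.b₆ + 3 * r ^ 2 * W.b₄ + r ^ 3 * W.b₂ + 3 * r ^ 4 := by
    have e : u ^ 8 * W'.b₈ = (u * W'.a₁) ^ 2 * (u ^ 6 * W'.a₆) + 4 * (u ^ 2 * W'.a₂) * (u ^ 6 * W'.a₆) -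
        (u * W'.a₁) * (u ^ 3 * W'.a₃) * (u ^ 4 * W'.a₄) + (u ^ 2 * W'.a₂) * (u ^ 3 * W'.a₃) ^ 2 -
        (u ^ 4 * W'.a₄) ^ 2 := by
      unfold WeierstrassCurve.b₈
      ring
    rw [e, h.h1, h.h2, h.h3, h.h4, h.h6]
    unfold WeierstrassCurve.b₈ WeierstrassCurve.b₆ WeierstrassCurve.b₄ WeierstrassCurve.b₂
    ring
  have hr : r ∈ V := by
    refine qc1d_four (b := W.b₄) (c := 2 * W.b₆ + u ^ 6 * W'.b₆) (d := W.b₈ - u ^ 8 * W'.b₈) b4
      (a (m h2 b6) (m (p 6 hu1) b6')) (b b8 (m (p 8 hu1) b8')) ?_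
    rw [e6, e8]
    ring
  have hs : s ∈ V := by
    refine qc1d_two (b := W.a₁) (c := W.a₂ + 3 * r - u ^ 2 * W'.a₂) hG.a1
      (b (a hG.a2 (m h3 hr)) (m (p 2 hu1) hG'.a2)) ?_
    rw [h.h2]
    ring
  refine ⟨hr, hs, ?_⟩
  refine qc1d_two (b := W.a₃ + r * W.a₁) (c := W.a₆ + r * W.a₄ + r ^ 2 * W.a₂ + r ^ 3 - u ^ 6 * W'.a₆)
    (a hG.a3 (m hr hG.a1)) (b (a (a (a hG.a6 (m hr hG.a4)) (m (p 2 hr) hG.a2)) (p 3 hr))
      (m (p 6 hu1) hG'.a6)) ?_
  rw [h.h6]
  ring

/-- Chunk QC1D (S). Two good equations: u^12 Δ' = Δ and both discriminants are units. -/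
theorem vc_unit {k : Type} [Field k] {V : ValuationSubring k} {W W' : WeierstrassCurve k} {u r s t : k} (h : VC W W' u r s t)
    (hG : GoodW W V) (hG' : GoodW W' V) : V.valuation u = 1 ∧ r ∈ V ∧ s ∈ V ∧ t ∈ V := by
  have hu : V.valuation u = 1 := by
    have h4 := (vc_disc h).1
    have h5 := congrArg V.valuation h4
    rw [map_mul, map_pow, hG.disc, hG'.disc, mul_one] at h5
    rcases lt_trichotomy (V.valuation u) 1 with h6 | h6 | h6
    · exact absurd h5 (pow_lt_one₀ zero_le h6 (by norm_num)).ne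
    · exact h6
    · exact absurd h5 (one_lt_pow₀ h6 (by norm_num)).ne'
  exact ⟨hu, vc_int h hG.toIntW hG'.toIntW hu⟩

end H55K.TQ
end

-- from Lib.H55K.T7A
section

/-! # H55K: descent of a good equation from the inertia field -/

open NumberField IsDedekindDomain WeierstrassCurve

namespace H55K.TQ

open H55P (IQ embF eF LF Per IsHecke Pt ac Inert Dec Nm UnitP)
open H35P (WAB Ker tt GoodW IntW)
open H55K.MG (VC Crd)

variable {F : Type} [Field F] [NumberField F] {Ω : Type} [Field Ω] [Algebra F Ω] [IsAlgClosure F Ω] {V : ValuationSubring Ω}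

/-- Chunk T7A (S/M). g in the decomposition group maps V to V, so the curve W'^g (coefficients g (a_i)) is good at V and VC (W⁄Ω) (W'^g) (g u) (g r) (g s) (g t) (vc_map for g; g fixes the coefficients of W). With g u = u: vc_inv and vc_comp: VC W' (W'^g) 1 ((g r - r)/u^2) ((g s - s)/u) _ ; vc_int. -/
theorem dec_int {W : WeierstrassCurve F} {W' : WeierstrassCurve Ω} {u r s t : Ω} (h : VC (W⁄Ω) W' u r s t)
    (hG : GoodW W' V) (g : Ω ≃ₐ[F] Ω) (hg : Dec V g) (hu : g u = u) :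
    V.valuation (g r - r) ≤ V.valuation (u ^ 2) ∧ V.valuation (g s - s) ≤ V.valuation u ∧
      (g r = r → g s = s → V.valuation (g t - t) ≤ V.valuation (u ^ 3)) := by


  have hu0 : u ≠ 0 := h.une
  have hmap : (W⁄Ω).map (g : Ω →+* Ω) = W⁄Ω := by
    have hcomp : ((g : Ω →+* Ω)).comp (algebraMap F Ω) = algebraMap F Ω := by
      ext x
      exact g.commutes x
    rw [WeierstrassCurve.baseChange, WeierstrassCurve.map_map, hcomp]
  have hg1 := vc_map (g : Ω →+* Ω) h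
  rw [hmap] at hg1
  have hgV : ∀ x : Ω, x ∈ V → (g : Ω →+* Ω) x ∈ V := fun x hx => (hg x).2 hx
  have hint : IntW (W'.map (g : Ω →+* Ω)) V :=
    ⟨hgV _ hG.a1, hgV _ hG.a2, hgV _ hG.a3, hgV _ hG.a4, hgV _ hG.a6⟩
  have hc := vc_comp (vc_inv h) hg1
  have hgu : (g : Ω →+* Ω) u = u := hu
  rw [hgu] at hc
  obtain ⟨i1, i2, i3⟩ := vc_int hc hG.toIntW hint (by rw [inv_mul_cancel₀ hu0, map_one])
  have e1 : (g : Ω →+* Ω) r = g r := rfl
  have e2 : (g : Ω →+* Ω) s = g s := rfl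
  have e3 : (g : Ω →+* Ω) t = g t := rfl
  rw [e1] at i1
  rw [e2] at i2
  rw [e1, e3] at i3
  have key : ∀ a b : Ω, b ≠ 0 → a / b ∈ V → V.valuation a ≤ V.valuation b := by
    intro a b hb hab
    rw [← V.valuation_le_one_iff, map_div₀] at hab
    have hb' : V.valuation b ≠ 0 := (map_ne_zero _).2 hb
    rwa [div_le_one₀ (zero_lt_iff.2 hb')] at hab
  refine ⟨key _ _ (pow_ne_zero 2 hu0) ?_, key _ _ hu0 ?_, ?_⟩
  · convert i1 using 1
    field_simp
    ring
  · convert i2 using 1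
    field_simp
    ring
  · intro hr hs
    refine key _ _ (pow_ne_zero 3 hu0) ?_
    rw [hr] at i3
    convert i3 using 1
    field_simp
    ring

end H55K.TQ
end

-- from Lib.H55K.BH
section

/-! # H55K: the hypotheses on the curve -/

open NumberField IsDedekindDomain WeierstrassCurve

namespace H55K.TQ

open H55P (IQ embF eF LF Per IsHecke Pt ac Inert Dec Nm UnitP)
open H35P (WAB Ker tt GoodW IntW)
open H55K.MG (VC Crd)

/-- W₀ is an equation over the integers of F of an elliptic curve with complex multiplication by the integers of F and ψ is its Hecke character: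
the period lattice is Om times the lattice of integers, the numbers of points modulo the primes v not dividing the discriminant are the norms of 1 - ψ(v), the prime divisors of the
modulus are those of the discriminant, and they are primes of bad reduction. -/
structure BaseH (F : Type) [Field F] [NumberField F] [IQ F] (W₀ : WeierstrassCurve (𝓞 F)) (Om : ℂ)
    (m : Ideal (𝓞 F)) (ψ : Ideal (𝓞 F) →*₀ 𝓞 F) : Prop where
  data : H55P.CMData F W₀ Om m ψ
  deu : ∀ v : HeightOneSpectrum (𝓞 F), W₀.Δ ∉ v.asIdeal →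
    Nat.card (W₀⁄(𝓞 F ⧸ v.asIdeal)).toAffine.Point = Nm (1 - ψ v.asIdeal)
  supp : ∀ v : HeightOneSpectrum (𝓞 F), W₀.Δ ∈ v.asIdeal ↔ m ≤ v.asIdeal
  bad : ∀ v : HeightOneSpectrum (𝓞 F), W₀.Δ ∈ v.asIdeal → ¬ GoodAt (W₀⁄F) v

/-- p is a prime number ≥ 5, unramified in F, prime to the discriminant of W₀. -/
structure PrimeH (F : Type) [Field F] [NumberField F] (W₀ : WeierstrassCurve (𝓞 F)) (p : ℕ) : Prop where
  prime : p.Prime
  five : 5 ≤ p
  unr : H55P.UnrP p F
  cop : IsCoprime (Ideal.span {W₀.Δ}) (Ideal.span {(p : 𝓞 F)})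

/-- No prime of F which does not divide the discriminant and at which the number of points is divisible by p is ramified in K. -/
def NoAn {F : Type} [Field F] [NumberField F] {Ω : Type} [Field Ω] [Algebra F Ω] (p : ℕ) (W₀ : WeierstrassCurve (𝓞 F))
    (K : IntermediateField F Ω) : Prop :=
  ∀ v : HeightOneSpectrum (𝓞 F), H55P.RamF K v.asIdeal → W₀.Δ ∉ v.asIdeal →
    ¬ p ∣ Nat.card (W₀⁄(𝓞 F ⧸ v.asIdeal)).toAffine.Point

end H55K.TQ
end

-- from Lib.H55K.Z1C
section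

/-! # H55K: the lattice is determined by g2 and g3 -/

open NumberField IsDedekindDomain WeierstrassCurve

namespace H55K

open H55P (IQ embF eF LF Per IsHecke Pt ac Inert Dec Nm)
open H35P (WAB Ker tt)


variable {F : Type} [Field F] [NumberField F] [IQ F] {A B : F} {Om : ℂ}

theorem z1c_mem (F : Type) [Field F] [NumberField F] [IQ F] (c : ℂ) (hc : c ≠ 0)
    (h2 : (LF F).g₂ / c ^ 4 = (LF F).g₂) (h3 : (LF F).g₃ / c ^ 6 = (LF F).g₃) : ∃ w : 𝓞 F, c = eF F w := by
  obtain ⟨L', hL, h4, h5⟩ := lat_scale (LF F) c hc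
  have h6 : L'.lattice = (LF F).lattice := lat_eq L' (LF F) (h4.trans h2) (h5.trans h3)
  have h7 : c ∈ L'.lattice := (hL c).2 ⟨1, (H55P.mem_LF 1).2 ⟨1, (map_one _).symm⟩, (mul_one c).symm⟩
  rw [h6] at h7
  exact (H55P.mem_LF c).1 h7

/-- Chunk Z1C (S). A = 0: g₂(LF F) = 0 (Per.g2; embF F A = 0). c = a primitive cube root of unity in ℂ: g₂(c LF) = 0, g₃(c LF) = g₃(LF). lat_eq: c * 1 is in the lattice of LF F, so c = eF F w (mem_LF), w^2 + w + 1 = 0 (eF_inj). -/
theorem zero_A (hp : H55P.Per F (embF F A) (embF F B) Om) (hA : A = 0) : ∃ w : 𝓞 F, w ^ 2 + w + 1 = 0 := by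
  have hg2 : (LF F).g₂ = 0 := by
    rw [hp.g2, hA, map_zero, mul_zero, zero_mul]
  have hprim : IsPrimitiveRoot (Complex.exp (2 * Real.pi * Complex.I / (3 : ℕ))) 3 :=
    Complex.isPrimitiveRoot_exp 3 (by norm_num)
  set c : ℂ := Complex.exp (2 * Real.pi * Complex.I / (3 : ℕ)) with hcdef
  have h3 : c ^ 3 = 1 := hprim.pow_eq_one
  have hne : c ≠ 1 := hprim.ne_one (by norm_num)
  have hc0 : c ≠ 0 := Complex.exp_ne_zero _
  have hq : c ^ 2 + c + 1 = 0 := by
    have h4 : (c - 1) * (c ^ 2 + c + 1) = 0 := by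
      linear_combination h3
    rcases mul_eq_zero.1 h4 with h5 | h5
    · exact absurd (sub_eq_zero.1 h5) hne
    · exact h5
  have h6 : c ^ 6 = 1 := by
    have : c ^ 6 = (c ^ 3) ^ 2 := by ring
    rw [this, h3, one_pow]
  obtain ⟨w, hw⟩ := z1c_mem F c hc0 (by rw [hg2, zero_div]) (by rw [h6, div_one])
  refine ⟨w, H55P.eF_inj ?_⟩
  rw [map_add, map_add, map_pow, ← hw, map_one, map_zero]
  exact hq

/-- Chunk Z1C. B = 0: the same with c = I. -/
theorem zero_B (hp : H55P.Per F (embF F A) (embF F B) Om) (hB : B = 0) : ∃ w : 𝓞 F, w ^ 2 + 1 = 0 := by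
  have hg3 : (LF F).g₃ = 0 := by
    rw [hp.g3, hB, map_zero, mul_zero, zero_mul]
  obtain ⟨w, hw⟩ := z1c_mem F Complex.I Complex.I_ne_zero (by rw [Complex.I_pow_four, div_one])
    (by rw [hg3, zero_div])
  refine ⟨w, H55P.eF_inj ?_⟩
  rw [map_add, map_pow, ← hw, map_one, map_zero, Complex.I_sq]
  norm_num

end H55K
end

-- from Lib.H55K.RG
section

/-! # H55K: good reduction over an extension -/

open NumberField IsDedekindDomain WeierstrassCurve

namespace H55K.TQ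

open H55P (IQ embF eF LF Per IsHecke Pt ac Inert Dec Nm UnitP)
open H35P (WAB Ker tt GoodW IntW)
open H55K.MG (VC Crd)

/-- Chunk RG (S/M). The same change of variables over K; w.valuation K (algebraMap x) ≤ 1 iff v.valuation K₀ x ≤ 1, = 1 iff = 1 (x = a/b with b not in v if v-integral; HeightOneSpectrum.valuation_le_one_iff.. or the comparison of valuations for w above v, see H13E.q5_above). (C • W₀)⁄K = (C mapped) • (W₀⁄K): map_variableChange. -/
theorem good_up {K₀ K : Type} [Field K₀] [NumberField K₀] [Field K] [NumberField K] [Algebra K₀ K] {W : WeierstrassCurve K₀}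
    {v : HeightOneSpectrum (𝓞 K₀)} {w : HeightOneSpectrum (𝓞 K)} (hv : v.asIdeal = w.asIdeal.under (𝓞 K₀))
    (h : GoodAt W v) : GoodAt (W⁄K) w := by
  obtain ⟨C, h1, h2, h3, h4, h6, hD⟩ := h
  obtain ⟨v', e, hv', he, hval⟩ := H55C.A4_glob (K := K₀) (N := K) w
  have hvv : v' = v := HeightOneSpectrum.ext (hv'.trans hv.symm)
  subst hvv
  have hle : ∀ z : K₀, v'.valuation K₀ z ≤ 1 → w.valuation K (algebraMap K₀ K z) ≤ 1 := by
    intro z hz
    rw [hval]
    exact pow_le_one' hz e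
  have hC : (C.map (algebraMap K₀ K)) • (W⁄K) = (C • W).map (algebraMap K₀ K) := WeierstrassCurve.map_variableChange _ _ _
  refine ⟨C.map (algebraMap K₀ K), ?_⟩
  rw [hC]
  refine ⟨hle _ h1, hle _ h2, hle _ h3, hle _ h4, hle _ h6, ?_⟩
  rw [WeierstrassCurve.map_Δ, hval, hD, one_pow]

end H55K.TQ
end

-- from Lib.H55K.QB1A
section

/-! # H55K: extension of the valuation ring to an algebraic closure -/

open NumberField IsDedekindDomain WeierstrassCurve

namespace H55K.TQ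

open H55P (IQ embF eF LF Per IsHecke Pt ac Inert Dec Nm UnitP)
open H35P (WAB Ker tt GoodW IntW)
open H55K.MG (VC Crd)

variable {k : Type} [Field k] {Ω : Type} [Field Ω] [Algebra k Ω]

/-- Chunk QB1A (S/M). The image of V₀ in Ω is a local subring (V₀ as a LocalSubring: ValuationSubring.toLocalSubring, its image under algebraMap: LocalSubring.map or by hand); LocalSubring.exists_le_valuationSubring
gives V dominating it: V₀ maps into V and the maximal ideal of V₀ maps into the elements of value < 1. So x in V₀ implies x in V, and if x is not in V₀ then 1/x has value < 1 in V₀, so 1/x has value < 1 in V and x is not in V. -/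
theorem exists_ext (V₀ : ValuationSubring k) :
    ∃ V : ValuationSubring Ω, ∀ x : k, algebraMap k Ω x ∈ V ↔ x ∈ V₀ := by
  obtain ⟨V, hV⟩ := LocalSubring.exists_le_valuationSubring (V₀.toLocalSubring.map (algebraMap k Ω))
  have hmem : ∀ x ∈ V₀, algebraMap k Ω x ∈ V := fun x hx => hV.1 ⟨x, hx, rfl⟩
  refine ⟨V, fun x => ⟨fun hx => ?_, hmem x⟩⟩
  by_contra hn
  have hx0 : x ≠ 0 := by
    rintro rfl
    exact hn V₀.zero_mem
  have hinv : x⁻¹ ∈ V₀ := (V₀.mem_or_inv_mem x).resolve_left hn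
  -- the image of x⁻¹ is a unit of V, so of the image of V₀
  have hu : IsUnit (Subring.inclusion hV.1 ⟨algebraMap k Ω x⁻¹, ⟨x⁻¹, hinv, rfl⟩⟩) := by
    refine isUnit_iff_exists_inv.mpr ⟨⟨algebraMap k Ω x, hx⟩, Subtype.ext ?_⟩
    show algebraMap k Ω x⁻¹ * algebraMap k Ω x = 1
    rw [← map_mul, inv_mul_cancel₀ hx0, map_one]
  obtain ⟨y, hy⟩ := isUnit_iff_exists_inv.mp (hV.2.1 _ hu)
  obtain ⟨z, hz, hzy⟩ := y.2
  have h1 : algebraMap k Ω x⁻¹ * (y : Ω) = 1 := congrArg Subtype.val hy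
  rw [← hzy] at h1
  have h2 : algebraMap k Ω (x⁻¹ * z) = algebraMap k Ω 1 := by
    rw [map_mul, map_one]
    exact h1
  have h3 := (algebraMap k Ω).injective h2
  have h4 : z = x := by
    field_simp at h3
    exact h3
  rw [h4] at hz
  exact hn hz

/-- Chunk QB1A (S). The values correspond. -/
theorem ext_val {V₀ : ValuationSubring k} {V : ValuationSubring Ω}
    (h : ∀ x : k, algebraMap k Ω x ∈ V ↔ x ∈ V₀) (x y : k) :
    (V.valuation (algebraMap k Ω x) ≤ V.valuation (algebraMap k Ω y) ↔ V₀.valuation x ≤ V₀.valuation y) ∧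
    (V.valuation (algebraMap k Ω x) < V.valuation (algebraMap k Ω y) ↔ V₀.valuation x < V₀.valuation y) := by
  have hle : ∀ x y : k, (V.valuation (algebraMap k Ω x) ≤ V.valuation (algebraMap k Ω y) ↔ V₀.valuation x ≤ V₀.valuation y) := by
    intro x y
    by_cases hy : y = 0
    · subst hy
      rw [map_zero, map_zero, map_zero, le_zero_iff, le_zero_iff, map_eq_zero, map_eq_zero, map_eq_zero]
    · have hy' : algebraMap k Ω y ≠ 0 := (map_ne_zero _).2 hy
      have h1 : V.valuation (algebraMap k Ω x) ≤ V.valuation (algebraMap k Ω y) ↔ algebraMap k Ω (x / y) ∈ V := by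
        rw [← V.valuation_le_one_iff, map_div₀, map_div₀, div_le_one₀]
        exact zero_lt_iff.2 ((map_ne_zero _).2 hy')
      have h2 : V₀.valuation x ≤ V₀.valuation y ↔ x / y ∈ V₀ := by
        rw [← V₀.valuation_le_one_iff, map_div₀, div_le_one₀]
        exact zero_lt_iff.2 ((map_ne_zero _).2 hy)
      rw [h1, h2]
      exact h _
  refine ⟨hle x y, ?_⟩
  rw [← not_le, ← not_le, hle y x]

end H55K.TQ
end

-- from Lib.H55K.T9D
section

/-! # H55K: good reduction over a subfield and valuation rings of the algebraic closure -/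

open NumberField IsDedekindDomain WeierstrassCurve

namespace H55K.TQ

open H55P (IQ embF eF LF Per IsHecke Pt ac Inert Dec Nm UnitP)
open H35P (WAB Ker tt GoodW IntW)
open H55K.MG (VC Crd)

/-- Chunk T9D (S/M). A valuation ring of Ω above a prime w of M: exists_ext (QB1A) for the valuation subring of w.valuation M. -/
theorem exists_V {F : Type} [Field F] [NumberField F] {Ω : Type} [Field Ω] [Algebra F Ω]
    (M : IntermediateField F Ω) [NumberField M] (w : HeightOneSpectrum (𝓞 M)) :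
    ∃ V : ValuationSubring Ω, ∀ a : 𝓞 M, a ∈ w.asIdeal → V.valuation ((a : M) : Ω) < 1 := by
  obtain ⟨V, hV⟩ := exists_ext (k := M) (Ω := Ω) (w.valuation M).valuationSubring
  refine ⟨V, fun a ha => ?_⟩
  have h1 := (ext_val hV (a : M) 1).2
  rw [map_one, map_one, map_one] at h1
  refine h1.2 ?_
  have h2 := (Valuation.isEquiv_valuation_valuationSubring (w.valuation M)).lt_one_iff_lt_one (x := (a : M))
  rw [← h2]
  have h3 : w.valuation M (algebraMap (𝓞 M) M a) < 1 := (HeightOneSpectrum.valuation_lt_one_iff_mem w a).2 ha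
  exact h3

end H55K.TQ
end

-- from Lib.H55K.UA3
section

/-! # H55K: the value at 1 -/

open NumberField IsDedekindDomain WeierstrassCurve

namespace H55K

open H55P (IQ embF eF LF Per IsHecke Pt ac Inert Dec Nm)
open H35P (WAB Ker tt)


variable {F : Type} [Field F] [NumberField F] [IQ F]

theorem ua3_ff (w : ℂ) : ff 1 w = w⁻¹ := by
  unfold ff
  by_cases hw : w = 0
  · rw [hw]; simp
  · have h1 : (starRingEnd ℂ) w ≠ 0 := by
      intro h
      apply hw
      simpa using h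
    have h2 : ((‖w‖ ^ 2 : ℝ) : ℂ) = w * (starRingEnd ℂ) w := by
      rw [Complex.mul_conj, Complex.normSq_eq_norm_sq]
    rw [Complex.cpow_neg_one, h2]
    field_simp

/-- Chunk UA3 (S). ff 1 w = 1/w for w ≠ 0 (conj w/‖w‖^2), also for w = 0. So dd 1 (z + eF F x) q is the term tT (LF F) z q of H35P.T2 at the lattice point eF F x (LF_equiv F : 𝓞 F ≃ lattice, H55P/F0.lean); H35P.T_formula (H35P/A4.lean). -/
theorem dd_one (F : Type) [Field F] [NumberField F] [IQ F] (z q : ℂ) (hz : z ∉ (LF F).lattice)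
    (hq : q ∉ (LF F).lattice) (h1 : z + q ∉ (LF F).lattice) (h2 : z - q ∉ (LF F).lattice) :
    (∑' x : 𝓞 F, dd 1 (z + eF F x) q) * ((LF F).weierstrassP z - (LF F).weierstrassP q) =
      (LF F).derivWeierstrassP z := by
  have h3 : ∑' x : 𝓞 F, dd 1 (z + eF F x) q = H35P.T2 (LF F) z q := by
    unfold H35P.T2
    rw [← (H55P.LF_equiv F).tsum_eq]
    refine tsum_congr (fun x => ?_)
    unfold dd H35P.tT
    rw [ua3_ff, ua3_ff, ua3_ff, H55P.LF_equiv_coe]
    have e1 : z + eF F x + q = z + q + eF F x := by ring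
    have e2 : z + eF F x - q = z - q + eF F x := by ring
    rw [e1, e2]
  rw [h3]
  exact H35P.T_formula (LF F) z q hz hq h1 h2

end H55K
end

-- from Lib.H55K.T2
section

/-! # H55K: the p-power of an automorphism fixes a p-extension -/

open NumberField IsDedekindDomain WeierstrassCurve

namespace H55K.TQ

open H55P (IQ embF eF LF Per IsHecke Pt ac Inert Dec Nm UnitP)
open H35P (WAB Ker tt GoodW IntW)
open H55K.MG (VC Crd)

variable {F : Type} [Field F] [NumberField F] {Ω : Type} [Field Ω] [Algebra F Ω]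

/-- Chunk T2 (S/M). The restriction of g to L (normal over F: hL.norm with the bottom field) is an element of a group of order p^k (hL.deg; IsGalois as in H55P s3_galois, or: the restriction map to L ≃ₐ[F] L; its cardinality is finrank F L = p^k because L/F is Galois in characteristic 0). -/
theorem pow_fix {p : ℕ} {L : IntermediateField F Ω} [IsAlgClosed Ω] [Algebra.IsAlgebraic F Ω]
    (hL : H55P.PExt p ⊥ L) : ∃ k : ℕ, ∀ g : Ω ≃ₐ[F] Ω, g ^ (p ^ k) ∈ L.fixingSubgroup := by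
  have hfin := hL.fin
  have hcl : IsAlgClosure F Ω := ⟨inferInstance, inferInstance⟩
  have hno : Normal F Ω := IsAlgClosure.normal F Ω
  have hL' : Normal F L := by
    rw [IntermediateField.normal_iff_forall_map_le']
    rintro σ _ ⟨x, hx, rfl⟩
    refine hL.norm σ ?_ x hx
    rw [IntermediateField.mem_fixingSubgroup_iff]
    intro y hy
    obtain ⟨z, rfl⟩ := IntermediateField.mem_bot.1 hy
    exact σ.commutes z
  have hG : IsGalois F L := ⟨⟩
  obtain ⟨k, hk⟩ := hL.deg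
  rw [IntermediateField.finrank_bot, one_mul] at hk
  refine ⟨k, fun g => ?_⟩
  rw [IntermediateField.mem_fixingSubgroup_iff]
  intro x hx
  have h1 : (AlgEquiv.restrictNormalHom L g : L ≃ₐ[F] L) ^ (p ^ k) = 1 := by
    rw [← hk, ← IsGalois.card_aut_eq_finrank]
    exact pow_card_eq_one'
  rw [← map_pow] at h1
  have h2 := (g ^ (p ^ k)).restrictNormal_commutes L ⟨x, hx⟩
  have h3 : (g ^ (p ^ k)).restrictNormal L = 1 := h1
  rw [h3] at h2
  exact h2.symm

end H55K.TQ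
end

-- from Lib.H55K.T9A
section

/-! # H55K: good reduction over a subfield and valuation rings of the algebraic closure -/

open NumberField IsDedekindDomain WeierstrassCurve

namespace H55K.TQ

open H55P (IQ embF eF LF Per IsHecke Pt ac Inert Dec Nm UnitP)
open H35P (WAB Ker tt GoodW IntW)
open H55K.MG (VC Crd)

/-- Chunk T9A (S/M). The short equation: W₀⁄F is obtained from y^2 = x^3 + A x + B by a change of variables with u = 1 over F (x = x' + b₂/12, y = y' + (a₁ x' + a₃)/2; see PS4_D, exists_short in H55P/S4.lean): VC W W' 1 r s t means x = x' + r, y = y' + s x' + t; check h1 .. h6 with hA, hB by ring (field_simp). -/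
theorem vc_short {F : Type} [Field F] [NumberField F] (W₀ : WeierstrassCurve (𝓞 F)) {A B : F} (hA : A = -(algebraMap (𝓞 F) F W₀.c₄) / 48)
    (hB : B = -(algebraMap (𝓞 F) F W₀.c₆) / 864) : ∃ r s t : F, VC (WAB A B) (W₀⁄F) 1 r s t := by
  have hc4 : algebraMap (𝓞 F) F W₀.c₄ = (W₀⁄F).c₄ := (W₀.map_c₄ (algebraMap (𝓞 F) F)).symm
  have hc6 : algebraMap (𝓞 F) F W₀.c₆ = (W₀⁄F).c₆ := (W₀.map_c₆ (algebraMap (𝓞 F) F)).symm
  rw [hc4] at hA
  rw [hc6] at hB
  generalize W₀⁄F = W at hA hB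
  refine ⟨(W.a₂ + (W.a₁ / 2) ^ 2) / 3, W.a₁ / 2, W.a₃ / 2, one_ne_zero, ?_, ?_, ?_, ?_, ?_⟩
  · show 1 * W.a₁ = 0 + 2 * (W.a₁ / 2)
    ring
  · show 1 ^ 2 * W.a₂ = 0 - W.a₁ / 2 * 0 + 3 * ((W.a₂ + (W.a₁ / 2) ^ 2) / 3) - (W.a₁ / 2) ^ 2
    ring
  · show 1 ^ 3 * W.a₃ = 0 + (W.a₂ + (W.a₁ / 2) ^ 2) / 3 * 0 + 2 * (W.a₃ / 2)
    ring
  · show 1 ^ 4 * W.a₄ = A - W.a₁ / 2 * 0 + 2 * ((W.a₂ + (W.a₁ / 2) ^ 2) / 3) * 0 -
      (W.a₃ / 2 + (W.a₂ + (W.a₁ / 2) ^ 2) / 3 * (W.a₁ / 2)) * 0 +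
      3 * ((W.a₂ + (W.a₁ / 2) ^ 2) / 3) ^ 2 - 2 * (W.a₁ / 2) * (W.a₃ / 2)
    rw [hA]
    unfold WeierstrassCurve.c₄ WeierstrassCurve.b₂ WeierstrassCurve.b₄
    ring
  · show 1 ^ 6 * W.a₆ = B + (W.a₂ + (W.a₁ / 2) ^ 2) / 3 * A +
      ((W.a₂ + (W.a₁ / 2) ^ 2) / 3) ^ 2 * 0 + ((W.a₂ + (W.a₁ / 2) ^ 2) / 3) ^ 3 - W.a₃ / 2 * 0 -
      (W.a₃ / 2) ^ 2 - (W.a₂ + (W.a₁ / 2) ^ 2) / 3 * (W.a₃ / 2) * 0
    rw [hA, hB]
    unfold WeierstrassCurve.c₄ WeierstrassCurve.c₆ WeierstrassCurve.b₂ WeierstrassCurve.b₄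
      WeierstrassCurve.b₆
    ring

end H55K.TQ
end

-- from Lib.H55K.T3A
section

/-! # H55K: the Frobenius map is injective modulo an unramified prime number -/

open NumberField IsDedekindDomain WeierstrassCurve

namespace H55K.TQ

open H55P (IQ embF eF LF Per IsHecke Pt ac Inert Dec Nm UnitP)
open H35P (WAB Ker tt GoodW IntW)
open H55K.MG (VC Crd)

/-- Chunk T3A (S/M). (a - 1)^(p^k) - (a^(p^k) - 1) is divisible by p (add_pow_char_pow modulo p, or in the quotient ring of characteristic p), so p divides (a - 1)^(p^k). The ideal (p) is a product of distinct primes (hunr: no v^2 divides (p)), so it is radical: every prime v containing p contains a - 1,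
and (p) is the intersection (product) of these v (squarefree ideal in a Dedekind domain: Ideal.IsRadical or UniqueFactorizationMonoid: Squarefree.dvd_pow_iff_dvd). -/
theorem frob_inj {F : Type} [Field F] [NumberField F] {p : ℕ} (hp : p.Prime)
    (hunr : ∀ v : HeightOneSpectrum (𝓞 F), (p : 𝓞 F) ∉ v.asIdeal ^ 2) {a : 𝓞 F} {k : ℕ}
    (h : (p : 𝓞 F) ∣ a ^ (p ^ k) - 1) : (p : 𝓞 F) ∣ a - 1 := by
  have hp0 : (p : 𝓞 F) ≠ 0 := by exact_mod_cast hp.ne_zero
  have hsq : Squarefree (Ideal.span {(p : 𝓞 F)}) := by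
    have hne : Ideal.span {(p : 𝓞 F)} ≠ 0 := by
      rw [Ne, Ideal.zero_eq_bot, Ideal.span_singleton_eq_bot]
      exact hp0
    rw [squarefree_iff_irreducible_sq_not_dvd_of_ne_zero hne]
    intro I hI hdvd
    have hpr : Prime I := UniqueFactorizationMonoid.irreducible_iff_prime.1 hI
    refine hunr ⟨I, Ideal.isPrime_of_prime hpr, hpr.ne_zero⟩ ?_
    rw [Ideal.dvd_iff_le, Ideal.span_singleton_le_iff_mem, ← sq] at hdvd
    exact hdvd
  obtain ⟨r, hr⟩ := exists_add_pow_prime_pow_eq hp (a - 1) 1 k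
  rw [sub_add_cancel, one_pow] at hr
  have h1 : (p : 𝓞 F) ∣ (a - 1) ^ (p ^ k) := by
    have e : (a - 1) ^ (p ^ k) = (a ^ (p ^ k) - 1) - (p : 𝓞 F) * ((a - 1) * 1 * r) := by
      rw [hr]
      ring
    rw [e]
    exact dvd_sub h (Dvd.intro _ rfl)
  have h2 : Ideal.span {(p : 𝓞 F)} ∣ (Ideal.span {a - 1}) ^ (p ^ k) := by
    rw [Ideal.span_singleton_pow, Ideal.dvd_iff_le, Ideal.span_singleton_le_span_singleton]
    exact h1
  rw [hsq.dvd_pow_iff_dvd (pow_ne_zero k hp.ne_zero), Ideal.dvd_iff_le,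
    Ideal.span_singleton_le_span_singleton] at h2
  exact h2

end H55K.TQ
end

-- from Lib.H55K.T3B
section

/-! # H55K: the Frobenius map is injective modulo an unramified prime number -/

open NumberField IsDedekindDomain WeierstrassCurve

namespace H55K.TQ

open H55P (IQ embF eF LF Per IsHecke Pt ac Inert Dec Nm UnitP)
open H35P (WAB Ker tt GoodW IntW)
open H55K.MG (VC Crd)

/-- Chunk T3B (S/M). T₀ from h.gen for b = p: every T in Tor act p is act a T₀, act a T₀ = 0 iff p divides a. g T₀ is in Tor (h.gal: act p (g T₀) = g (act p T₀)), so g T₀ = act a T₀, g (act b T₀) = act b (act a T₀); g^(p^k) T₀ = act (a^(p^k)) T₀ = T₀, so p divides a^(p^k) - 1; frob_inj. -/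
theorem fix_all {F : Type} [Field F] [NumberField F] [IQ F] {A B : F} {Om : ℂ} {Ω : Type} [Field Ω] [DecidableEq Ω]
    [Algebra F Ω] {j : Ω →+* ℂ} {act : 𝓞 F →+* AddMonoid.End (Pt (WAB A B) Ω)} (h : CMA F A B Om j act) {p : ℕ}
    (hp : p.Prime) (hunr : ∀ v : HeightOneSpectrum (𝓞 F), (p : 𝓞 F) ∉ v.asIdeal ^ 2) (g : Ω ≃ₐ[F] Ω) {k : ℕ}
    (hg : ∀ T : Pt (WAB A B) Ω, p • T = 0 → ac (WAB A B) (g ^ (p ^ k)) T = T) (T : Pt (WAB A B) Ω)
    (hT : p • T = 0) : ac (WAB A B) g T = T := by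
  have hp0 : (p : 𝓞 F) ≠ 0 := by exact_mod_cast hp.ne_zero
  obtain ⟨T₀, hT₀, hgen, hz, -⟩ := h.gen (p : 𝓞 F) hp0
  have hact : ∀ P : Pt (WAB A B) Ω, act (p : 𝓞 F) P = p • P := by
    intro P
    rw [map_natCast]
    rfl
  have hmem : ∀ P : Pt (WAB A B) Ω, p • P = 0 → P ∈ Tor act (p : 𝓞 F) := by
    intro P hP
    show act (p : 𝓞 F) P = 0
    rw [hact, hP]
  have hT₀' : act (p : 𝓞 F) T₀ = 0 := hT₀
  have hgT : act (p : 𝓞 F) (ac (WAB A B) g T₀) = 0 := by
    rw [← h.gal, hT₀', map_zero]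
  obtain ⟨a, ha⟩ := hgen (ac (WAB A B) g T₀) hgT
  have hmul : ∀ (b c : 𝓞 F) (P : Pt (WAB A B) Ω), act (b * c) P = act b (act c P) := by
    intro b c P
    rw [map_mul]
    rfl
  have hpow : ∀ n : ℕ, ac (WAB A B) (g ^ n) T₀ = act (a ^ n) T₀ := by
    intro n
    induction n with
    | zero =>
      rw [pow_zero, pow_zero, map_one]
      cases T₀ <;> rfl
    | succ n ih =>
      have h1 : ac (WAB A B) (g ^ (n + 1)) T₀ = ac (WAB A B) g (ac (WAB A B) (g ^ n) T₀) := by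
        rw [pow_succ']
        cases T₀ <;> rfl
      rw [h1, ih, h.gal, ha, ← hmul, pow_succ]
  have h2 := hg T₀ (by rw [← hact]; exact hT₀')
  rw [hpow] at h2
  have h3 : (p : 𝓞 F) ∣ a ^ (p ^ k) - 1 := by
    rw [← hz]
    have : act (a ^ (p ^ k) - 1) T₀ = act (a ^ (p ^ k)) T₀ - T₀ := by
      rw [map_sub, map_one]
      rfl
    rw [this, h2, sub_self]
  have h4 := frob_inj hp hunr h3
  rw [← hz] at h4
  have h5 : act a T₀ = T₀ := by
    have : act (a - 1) T₀ = act a T₀ - T₀ := by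
      rw [map_sub, map_one]
      rfl
    rw [this, sub_eq_zero] at h4
    exact h4
  obtain ⟨b, rfl⟩ := hgen T (hmem T hT)
  rw [h.gal, ha, h5]

end H55K.TQ
end
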