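import Mathlib
import Pool.Agent.Lib.H1M.PP.M009
import Pool.Agent.Lib.H1M.PP.M010
import Pool.Agent.Lib.H1M.PP.M011
import Pool.Agent.Lib.H1M.PP.M012
import Pool.Agent.Lib.H1M.PP.M016
import Pool.Agent.Lib.H1M.PP.M017
import Pool.Agent.Lib.H1M.PP.M019
import Pool.Agent.Lib.H1M.PP.M024
import Pool.Agent.Lib.H1M.PP.M028

/-! Merged copies (to shorten the build) of Lib.H35T.L2, Lib.H35T.L6, Lib.H55N.H6, Lib.H55B.D3, Lib.H35T.L7, Lib.H55B.AN, Lib.H55N.D2, Lib.H55N.L4, Lib.H55N.H12, Lib.H55R.D9. -/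

-- from Lib.H35T.L2
section

open NumberField IsDedekindDomain

namespace H35T

open H55B

/-- The normalised Weierstrass function. -/
noncomputable def xw (w : ℂ) : ℂ := wp w / wp 1

/-! Chunk L2 (S): properties of xw. wp 1 is nonzero (A3_wp_one_ne), g3 = (wp 1)^3 (A3_g3). xw_per, xw_neg, xw_om: wp_per, wp_neg, wp_om.
xw_R: R_identity at w and at om - 1 (wp (om - 1) = 0, A3_n1, A3_n2, A3_n3): R w (1 - xw w) = wpd 1 / wp 1 = R0, wpd 1 nonzero (A3_wpd_ne).
xw_sq3: wp_sq3 divided by (wp 1)^3. xw_dbl: wp_double divided by (wp 1)^4. xw_half: 2 w in Lam, w not in Lam: wpd w = 0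
because wpd(-w) = -wpd w (A0_wpd_neg) and -w = w - 2 w (A0_wpd_per), then wp_ode. -/

theorem xw_per (w : ℂ) (y : O) : xw (w + 3 * e y) = xw w := by
  unfold xw
  rw [wp_per]

theorem xw_neg (w : ℂ) : xw (-w) = xw w := by
  unfold xw
  rw [wp_neg]

theorem xw_om (w : ℂ) : xw (e om * w) = e om * xw w := by
  unfold xw
  rw [wp_om, mul_div_assoc]

theorem L2_R0 : R (e om - 1) * wp 1 = wpd 1 := by
  have h1 := R_identity (e om - 1) A3_n1 A3_n2 A3_n3
  rwa [wp_zero_at, sub_zero] at h1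

theorem L2_mul (w : ℂ) : xw w * wp 1 = wp w := div_mul_cancel₀ _ A3_wp_one_ne

theorem R0_ne : R (e om - 1) ≠ 0 := by
  intro h
  have h1 := L2_R0
  rw [h, zero_mul] at h1
  exact A3_wpd_ne h1.symm

theorem xw_R (w : ℂ) (h0 : w ∉ Lam) (h1 : 1 + w ∉ Lam) (h2 : 1 - w ∉ Lam) :
    R w * (1 - xw w) = R (e om - 1) := by
  have h3 := R_identity w h0 h1 h2
  have h4 := L2_R0
  have h5 := L2_mul w
  apply mul_right_cancel₀ A3_wp_one_ne
  calc R w * (1 - xw w) * wp 1 = R w * (wp 1 - xw w * wp 1) := by ring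
    _ = R w * (wp 1 - wp w) := by rw [h5]
    _ = wpd 1 := h3
    _ = R (e om - 1) * wp 1 := h4.symm

theorem xw_sq3 (w : ℂ) (h0 : w ∉ Lam) (h1 : e sq3 * w ∉ Lam) :
    3 * xw w ^ 2 * xw (e sq3 * w) = 1 - xw w ^ 3 := by
  have h3 := wp_sq3 w h0 h1
  rw [A3_g3, ← L2_mul w, ← L2_mul (e sq3 * w)] at h3
  apply mul_right_cancel₀ (pow_ne_zero 3 A3_wp_one_ne)
  linear_combination h3

theorem xw_dbl (w : ℂ) (h0 : w ∉ Lam) (h1 : 2 * w ∉ Lam) :
    xw (2 * w) * (4 * xw w ^ 3 - 1) = xw w ^ 4 + 2 * xw w := by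
  have h3 := wp_double w h0 h1
  rw [A3_g3, ← L2_mul w, ← L2_mul (2 * w)] at h3
  apply mul_right_cancel₀ (pow_ne_zero 4 A3_wp_one_ne)
  linear_combination h3

theorem xw_half (w : ℂ) (h0 : w ∉ Lam) (h1 : 2 * w ∈ Lam) : 4 * xw w ^ 3 = 1 := by
  obtain ⟨y, hy⟩ := h1
  have h2 : wpd w = 0 := by
    have h3 := A0_wpd_per (-w) y
    have h4 : -w + 3 * e y = w := by rw [← hy]; ring
    rw [h4, A0_wpd_neg] at h3
    have h5 : 2 * wpd w = 0 := by linear_combination h3
    exact (mul_eq_zero.1 h5).resolve_left two_ne_zero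
  have h3 := wp_ode w h0
  rw [h2, A3_g3, ← L2_mul w] at h3
  apply mul_right_cancel₀ (pow_ne_zero 3 A3_wp_one_ne)
  linear_combination -h3

/-- R0^2 = 3 wp 1 and g3 = (wp 1)^3 (R0 = wpd 1 / wp 1, wp_ode at 1). -/
theorem R0_sq : R (e om - 1) ^ 2 = 3 * wp 1 ∧ LL.g₃ = wp 1 ^ 3 ∧ wp 1 ≠ 0 := by
  refine ⟨?_, A3_g3, A3_wp_one_ne⟩
  have h1 := wp_ode 1 A1_one_notMem
  rw [A3_g3, ← L2_R0] at h1
  apply mul_right_cancel₀ (pow_ne_zero 2 A3_wp_one_ne)
  linear_combination h1

end H35T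
end

-- from Lib.H35T.L6
section

open NumberField IsDedekindDomain

namespace H35T

open H55B

/-! Chunk L6 (S): sums over O/(beta). reindex: multiplication by u permutes O/(beta) and H(u c.out) = H((u c).out) (C2_out; compare C2_three).
orbit_sum: every c with T(c.out) nonzero is coprime to 2, so congruent to exactly one of 1, om, om^2 modulo 2 (O/2 has four elements
0, 1, om, om^2: exists_repr); the classes congruent to om^j are om^j times those congruent to 1 (reindex with u = om^j applied to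
x -> if 2 | x - om^j then T x else 0, which is periodic modulo beta because 2 | beta). -/

theorem reindex {β : O} (hβ : β ≠ 0) {u : O} (hu : IsCoprime u β) {H : O → ℂ}
    (hper : ∀ x y, H (x + β * y) = H x) :
    ∑ᶠ c : O ⧸ Ideal.span {β}, H (u * c.out) = ∑ᶠ c : O ⧸ Ideal.span {β}, H c.out := by
  have _ := hβ
  obtain ⟨a, b, hab⟩ := hu
  have h1 : (Ideal.Quotient.mk (Ideal.span {β}) a) * Ideal.Quotient.mk (Ideal.span {β}) u = 1 := by
    rw [← map_mul, ← map_one (Ideal.Quotient.mk (Ideal.span {β})),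
      Ideal.Quotient.eq, Ideal.mem_span_singleton]
    exact ⟨-b, by linear_combination hab⟩
  have h2 : Ideal.Quotient.mk (Ideal.span {β}) u * (Ideal.Quotient.mk (Ideal.span {β}) a) = 1 := by
    rw [mul_comm, h1]
  let σ : (O ⧸ Ideal.span {β}) ≃ (O ⧸ Ideal.span {β}) :=
    { toFun := fun c => Ideal.Quotient.mk (Ideal.span {β}) u * c
      invFun := fun c => (Ideal.Quotient.mk (Ideal.span {β}) a) * c
      left_inv := fun c => by simp only; rw [← mul_assoc, h1, one_mul]
      right_inv := fun c => by simp only; rw [← mul_assoc, h2, one_mul] }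
  rw [← finsum_comp_equiv σ (f := fun c : O ⧸ Ideal.span {β} => H c.out)]
  refine finsum_congr fun c => ?_
  have h3 : σ c = Ideal.Quotient.mk (Ideal.span {β}) (u * c.out) := by
    rw [map_mul, Ideal.Quotient.mk_out]
    rfl
  rw [h3, C2_out hper]

theorem L6_ne1 : (1 : O) ≠ om := by
  intro h
  have h1 : ((1 : ℤ) : O) + ((0 : ℤ) : O) * om = ((0 : ℤ) : O) + ((1 : ℤ) : O) * om := by
    push_cast; linear_combination h
  have := (repr_unique h1).1
  omega

theorem L6_ne2 : (1 : O) ≠ om ^ 2 := by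
  intro h
  rw [L5_om_sq] at h
  have h1 : ((1 : ℤ) : O) + ((0 : ℤ) : O) * om = ((-1 : ℤ) : O) + ((-1 : ℤ) : O) * om := by
    push_cast; linear_combination h
  have := (repr_unique h1).1
  omega

theorem L6_ne3 : om ≠ om ^ 2 := by
  intro h
  rw [L5_om_sq] at h
  have h1 : ((0 : ℤ) : O) + ((1 : ℤ) : O) * om = ((-1 : ℤ) : O) + ((-1 : ℤ) : O) * om := by
    push_cast; linear_combination h
  have := (repr_unique h1).1
  omega

theorem L6_iff {z x : O} (hz : z = 0 ∨ z = 1 ∨ z = om ∨ z = om ^ 2) : (2 : O) ∣ x - z ↔ kap x = z := by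
  constructor
  · exact fun h => kap_uniq x hz h
  · intro h
    rw [← h]
    exact (kap_spec x).1

open Classical in
theorem L6_split {T : O → ℂ} (h0 : ∀ x, ¬ IsCoprime x 2 → T x = 0) (x : O) :
    T x = (if (2 : O) ∣ x - 1 then T x else 0) + (if (2 : O) ∣ x - om then T x else 0) +
      (if (2 : O) ∣ x - om ^ 2 then T x else 0) := by
  rw [if_congr (L6_iff (Or.inr (Or.inl rfl))) rfl rfl,
    if_congr (L6_iff (Or.inr (Or.inr (Or.inl rfl)))) rfl rfl,
    if_congr (L6_iff (Or.inr (Or.inr (Or.inr rfl)))) rfl rfl]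
  rcases (kap_spec x).2 with h | h | h | h
  · have h1 : T x = 0 := h0 x (fun h2 => L5_not_dvd h2 ((kap_zero x).1 h))
    rw [h1]
    simp
  · rw [h, if_pos rfl, if_neg L6_ne1, if_neg L6_ne2]
    ring
  · rw [h, if_pos rfl, if_neg (Ne.symm L6_ne1), if_neg L6_ne3]
    ring
  · rw [h, if_pos rfl, if_neg (Ne.symm L6_ne2), if_neg (Ne.symm L6_ne3)]
    ring

theorem L6_unit (j : ℕ) : IsUnit (om ^ j) := by
  have h : IsUnit om := IsUnit.of_mul_eq_one (om ^ 2) (by linear_combination L5_om_cube)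
  exact h.pow j

open Classical in
theorem L6_part {β : O} (hβ : β ≠ 0) (h2 : (2 : O) ∣ β) {T : O → ℂ}
    (hper : ∀ x y, T (x + β * y) = T x) (j : ℕ) :
    ∑ᶠ c : O ⧸ Ideal.span {β}, (if (2 : O) ∣ c.out - om ^ j then T c.out else 0) =
      ∑ᶠ c : O ⧸ Ideal.span {β}, (if (2 : O) ∣ c.out - 1 then T (om ^ j * c.out) else 0) := by
  have hu := L6_unit j
  have h3 := reindex (u := om ^ j) hβ (isCoprime_one_left.of_isCoprime_of_dvd_left hu.dvd) (H := fun x => if (2 : O) ∣ x - om ^ j then T x else 0) (by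
    intro x y
    rw [hper]
    refine if_congr ?_ rfl rfl
    have h4 : x + β * y - om ^ j = (x - om ^ j) + β * y := by ring
    rw [h4]
    exact dvd_add_left (Dvd.dvd.mul_right h2 y))
  rw [← h3]
  refine finsum_congr fun c => ?_
  refine if_congr ?_ rfl rfl
  have h4 : om ^ j * c.out - om ^ j = om ^ j * (c.out - 1) := by ring
  rw [h4]
  exact hu.dvd_mul_left

open Classical in
theorem orbit_sum {β : O} (hβ : β ≠ 0) (h2 : (2 : O) ∣ β) {T : O → ℂ}
    (hper : ∀ x y, T (x + β * y) = T x) (h0 : ∀ x, ¬ IsCoprime x 2 → T x = 0) :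
    ∑ᶠ c : O ⧸ Ideal.span {β}, T c.out = ∑ᶠ c : O ⧸ Ideal.span {β},
      (if (2 : O) ∣ c.out - 1 then T c.out + T (om * c.out) + T (om ^ 2 * c.out) else 0) := by
  have := C1_finite hβ
  have := Fintype.ofFinite (O ⧸ Ideal.span {β})
  have e1 := L6_part hβ h2 hper 1
  have e2 := L6_part hβ h2 hper 2
  rw [pow_one] at e1
  rw [finsum_eq_sum_of_fintype, finsum_eq_sum_of_fintype] at e1 e2 ⊢
  calc ∑ c : O ⧸ Ideal.span {β}, T c.out = ∑ c : O ⧸ Ideal.span {β},
        ((if (2 : O) ∣ c.out - 1 then T c.out else 0) + (if (2 : O) ∣ c.out - om then T c.out else 0) +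
      (if (2 : O) ∣ c.out - om ^ 2 then T c.out else 0)) :=
        Finset.sum_congr rfl fun c _ => L6_split h0 c.out
    _ = _ := by
        rw [Finset.sum_add_distrib, Finset.sum_add_distrib, e1, e2, ← Finset.sum_add_distrib,
          ← Finset.sum_add_distrib]
        refine Finset.sum_congr rfl fun c _ => ?_
        split_ifs <;> simp

end H35T
end

-- from Lib.H55N.H6
section

open NumberField IsDedekindDomain

namespace H55N

open H55B H55C

/-- Chunk H6 (S/M), Dirichlet series of AI h: sum over the fibres of the absolute norm. The fibre over n = 0 is the zero ideal,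
where h vanishes. For n <> 0 the fibre is finite (Ideal.finite_setOf_absNorm_eq) and the partial sum is
(sum h a) n^(-s) = LSeries.term. Use HasSum.sigma (Equiv.sigmaFiberEquiv Ideal.absNorm) or HasSum of fibres. -/
theorem AI_LSeries {K : Type} [Field K] [NumberField K] (h : Ideal (𝓞 K) → ℂ) (h0 : h ⊥ = 0) (s : ℂ)
    (hs : Summable fun a => ‖tm h s a‖) :
    LSeriesHasSum (fun n => AI h n) s (∑' a, tm h s a) := by
  have h1 : HasSum (fun p : Σ n : ℕ, {a : Ideal (𝓞 K) // Ideal.absNorm a = n} => tm h s p.2.1)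
      (∑' a, tm h s a) := by
    have h2 := (Equiv.sigmaFiberEquiv (fun a : Ideal (𝓞 K) => Ideal.absNorm a)).hasSum_iff
      (f := tm h s) (a := ∑' a, tm h s a)
    exact h2.2 hs.of_norm.hasSum
  refine h1.sigma fun n => ?_
  by_cases hn : n = 0
  · subst hn
    rw [LSeries.term_zero]
    have h3 : (fun c : {a : Ideal (𝓞 K) // Ideal.absNorm a = 0} => tm h s c.1) = fun _ => 0 := by
      funext c
      have h4 : c.1 = ⊥ := Ideal.absNorm_eq_zero_iff.1 c.2
      unfold tm
      rw [h4, h0, zero_mul]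
    show HasSum (fun c : {a : Ideal (𝓞 K) // Ideal.absNorm a = 0} => tm h s c.1) 0
    rw [h3]
    exact hasSum_zero
  · have hfin : Finite {a : Ideal (𝓞 K) // Ideal.absNorm a = n} :=
      Ideal.finite_setOfPred_absNorm_eq n
    let _ : Fintype {a : Ideal (𝓞 K) // Ideal.absNorm a = n} := Fintype.ofFinite _
    rw [LSeries.term_of_ne_zero hn]
    have h3 : AI h n = ∑ a : {a : Ideal (𝓞 K) // Ideal.absNorm a = n}, h a.1 := by
      show (if n = 0 then (0 : ℂ) else ∑ᶠ (a : Ideal (𝓞 K)) (_ : Ideal.absNorm a = n), h a) = _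
      rw [if_neg hn, ← finsum_subtype_eq_finsum_cond, finsum_eq_sum_of_fintype]
    have h4 : AI h n / (n : ℂ) ^ s =
        ∑ a : {a : Ideal (𝓞 K) // Ideal.absNorm a = n}, tm h s a.1 := by
      rw [h3, div_eq_mul_inv, ← Complex.cpow_neg, Finset.sum_mul]
      refine Finset.sum_congr rfl fun a _ => ?_
      unfold tm
      rw [a.2]
    show HasSum (fun c : {a : Ideal (𝓞 K) // Ideal.absNorm a = n} => tm h s c.1) _
    rw [h4]
    exact hasSum_fintype _

end H55N
end

-- from Lib.H55B.D3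
section

open NumberField IsDedekindDomain

namespace H55B

/-! Chunk D3: nonvanishing modulo 2.
w_c = 3 e(c.out)/e(alpha), c in the unit group U of O/(alpha) (alpha not a unit, odd, prime to 3). w_c is not in
3O, 1 +- w_c is not in 3O (alpha +- 3c would be divisible by 3 alpha, so 3 | alpha), 2 w_c is not in 3O,
and 2 w_c = w_(2c) + lattice. So X_c := X(w_c), c in U, satisfies the hypotheses of D1.dyn with
dbl c = 2c. R(w_c) = 3 R0 rho_c, rho_c = 1/(3 - X_c), v(rho_c) <= 1. By R_neg, R_per: rho_(-c) = rho_c, and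
c <> -c (alpha odd and not a unit). Suppose S = sum f(3c) R(w_c) = 0. f(3c) = f(3) f(c), f(3) = +-1, so
sum f(c) rho_c = 0, i.e. sum_{f = 1} rho_c = sum_{f = -1} rho_c = B, and sum_units gives
3 R0 (2B) = (2/3) R0 (phi - P), P = prod (e(gen v) - 1), i.e. 9 B = phi - P. By half_sum on
{c in U : f(c) = -1} (stable under c -> -c since f is even), B = 2 B', v(B') <= 1, so v(9B) < 1. But
phi = |U| is even (even_card), v(phi) < 1, and v(P) = 1 by val_e_odd (v(e(gen v - 1)) = 1). So
v(phi - P) = 1: contradiction. -/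

theorem D3_three_not_unit : ¬ IsUnit (3 : O) := by
  intro h
  rw [three_eq] at h
  have h1 : IsUnit ((om - 1 : O) ^ 2) := isUnit_of_mul_isUnit_right h
  exact lam_prime.not_isUnit ((isUnit_pow_iff two_ne_zero).mp h1)

theorem D3_three_not_dvd {α : O} (hp : Prim α) : ¬ (3 : O) ∣ α := fun h =>
  D3_three_not_unit (hp.coprime.isUnit_of_dvd' h dvd_rfl)

/-- the division points -/
noncomputable def D3_w (α x : O) : ℂ := 3 * e x / e α

theorem D3_e_ne {α : O} (hα : α ≠ 0) : e α ≠ 0 := fun h => hα (e_injective (by rw [h, map_zero]))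

theorem D3_w_per {α : O} (hα : α ≠ 0) (x y : O) : D3_w α (x + α * y) = D3_w α x + 3 * e y := by
  unfold D3_w
  have := D3_e_ne hα
  rw [map_add, map_mul]
  field_simp

theorem D3_w_neg (α x : O) : D3_w α (-x) = -D3_w α x := by
  unfold D3_w
  rw [map_neg]
  ring

theorem D3_w_two (α x : O) : D3_w α (2 * x) = 2 * D3_w α x := by
  unfold D3_w
  rw [map_mul, map_ofNat]
  ring

theorem D3_w_notmem {α : O} (hα : α ≠ 0) (hnu : ¬ IsUnit α) {x : O} (hx : IsCoprime x α) :
    D3_w α x ∉ Lam := by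
  rintro ⟨y, hy⟩
  unfold D3_w at hy
  have h0 := D3_e_ne hα
  rw [div_eq_iff h0] at hy
  have h1 : e x = e (α * y) := by
    rw [map_mul]
    linear_combination (1 / 3) * hy
  have h2 := e_injective h1
  exact hnu (hx.isUnit_of_dvd' ⟨y, h2⟩ dvd_rfl)

theorem D3_w_add_notmem {α : O} (hα : α ≠ 0) (hp : Prim α) (x : O) :
    1 + D3_w α x ∉ Lam := by
  rintro ⟨y, hy⟩
  unfold D3_w at hy
  have h0 := D3_e_ne hα
  have h1 : e (α + 3 * x) = e (3 * (α * y)) := by
    rw [map_add, map_mul, map_mul, map_mul, map_ofNat]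
    have h2 : 1 + 3 * e x / e α = (e α + 3 * e x) / e α := by
      field_simp
    rw [h2, div_eq_iff h0] at hy
    rw [hy]
    ring
  have h2 := e_injective h1
  exact D3_three_not_dvd hp ⟨α * y - x, by linear_combination h2⟩

theorem D3_w_sub_notmem {α : O} (hα : α ≠ 0) (hp : Prim α) (x : O) :
    1 - D3_w α x ∉ Lam := by
  have := D3_w_add_notmem hα hp (-x)
  rwa [D3_w_neg, ← sub_eq_add_neg] at this

theorem D3_coprime_out {α x : O} (hx : IsCoprime x α) :
    IsCoprime (Ideal.Quotient.mk (Ideal.span {α}) x).out α := by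
  obtain ⟨y, hy⟩ := C1_out α x
  rw [hy] at hx
  exact (IsCoprime.add_mul_left_left_iff).mp hx

theorem nonvan (α : O) (hsq : Squarefree α) (hp : Prim α) (h2 : IsCoprime α 2) (hnu : ¬ IsUnit α)
    (hodd : ∀ v : HeightOneSpectrum O, α ∈ v.asIdeal → Odd (Nm (gen v - 1)))
    (f : O → ℤ) (hper : ∀ x y, f (x + α * y) = f x) (heven : ∀ x, f (-x) = f x)
    (hmul : ∀ x y, f (x * y) = f x * f y)
    (hval : ∀ x, IsCoprime x α → f x = 1 ∨ f x = -1) (hval0 : ∀ x, ¬ IsCoprime x α → f x = 0) :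
    ∑ᶠ c : O ⧸ Ideal.span {α}, (f (3 * c.out) : ℂ) * R (3 * e c.out / e α) ≠ 0 := by
  classical
  have hα : α ≠ 0 := hp.ne_zero
  have hfin := C1_finite hα
  let _ := Fintype.ofFinite (O ⧸ Ideal.span {α})
  obtain ⟨A, hA2⟩ := exists_val
  obtain ⟨X, hR0, hXper, hXR, hXd⟩ := exists_X
  set R0 := R (e om - 1) with hR0def
  intro hS
  rw [finsum_eq_sum_of_fintype] at hS
  have hSU := sum_units α hsq hp
  rw [finsum_eq_sum_of_fintype] at hSU
  -- the functions on O
  set rho : O → ℂ := fun x => R (D3_w α x) / (3 * R0) with hrho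
  have hRper : ∀ x y, R (D3_w α (x + α * y)) = R (D3_w α x) := by
    intro x y
    rw [D3_w_per hα, R_per]
  have hrper : ∀ x y, rho (x + α * y) = rho x := by
    intro x y
    simp only [hrho, hRper]
  have hrneg : ∀ x, rho (-x) = rho x := by
    intro x
    simp only [hrho, D3_w_neg, R_neg]
  have hrX : ∀ x, IsCoprime x α → X (D3_w α x) ≠ 3 ∧ rho x = 1 / (3 - X (D3_w α x)) := by
    intro x hx
    obtain ⟨h1, h2⟩ := hXR (D3_w α x) (D3_w_notmem hα hnu hx) (D3_w_add_notmem hα hp x)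
      (D3_w_sub_notmem hα hp x)
    refine ⟨h1, ?_⟩
    simp only [hrho]
    rw [h2]
    have h3 : 3 - X (D3_w α x) ≠ 0 := sub_ne_zero.mpr (Ne.symm h1)
    field_simp
  have hRrho : ∀ x, R (D3_w α x) = 3 * R0 * rho x := by
    intro x
    simp only [hrho]
    field_simp
  -- valuations
  have hXXper : ∀ x y, X (D3_w α (x + α * y)) = X (D3_w α x) := by
    intro x y
    rw [D3_w_per hα, hXper]
  have hval1 : ∀ c : {c : O ⧸ Ideal.span {α} // IsCoprime c.out α}, A.valuation (rho c.1.out) ≤ 1 := by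
    have hc2 : ∀ c : {c : O ⧸ Ideal.span {α} // IsCoprime c.out α},
        IsCoprime (2 * c.1.out) α := fun c => IsCoprime.mul_left h2.symm c.2
    have hd := dyn A.valuation hA2 (ι := {c : O ⧸ Ideal.span {α} // IsCoprime c.out α})
      (fun c => X (D3_w α c.1.out))
      (fun c => ⟨Ideal.Quotient.mk (Ideal.span {α}) (2 * c.1.out), D3_coprime_out (hc2 c)⟩)
      (fun c => (hrX c.1.out c.2).1) (by
        intro c
        have h5 := C2_out (H := fun x => X (D3_w α x)) hXXper (2 * c.1.out)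
        simp only at h5 ⊢
        rw [h5, D3_w_two]
        apply hXd
        · exact D3_w_notmem hα hnu c.2
        · rw [← D3_w_two]
          exact D3_w_notmem hα hnu (hc2 c))
    intro c
    rw [(hrX c.1.out c.2).2]
    exact hd c
  -- `f 3`
  have hf3 : (f 3 : ℂ) ≠ 0 := by
    rcases hval 3 hp.coprime.symm with h | h <;> rw [h] <;> norm_num
  have hcop3 : ∀ x : O, IsCoprime (3 * x) α ↔ IsCoprime x α := by
    intro x
    constructor
    · intro h
      exact h.of_mul_left_right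
    · intro h
      exact IsCoprime.mul_left hp.coprime.symm h
  -- the vanishing sum
  have hT : ∑ c : O ⧸ Ideal.span {α}, (f c.out : ℂ) * rho c.out = 0 := by
    have h1 : ∑ c : O ⧸ Ideal.span {α}, (f (3 * c.out) : ℂ) * R (3 * e c.out / e α) =
        (f 3 : ℂ) * (3 * R0) * ∑ c : O ⧸ Ideal.span {α}, (f c.out : ℂ) * rho c.out := by
      rw [Finset.mul_sum]
      apply Finset.sum_congr rfl
      intro c _
      have h2 := hRrho c.out
      unfold D3_w at h2
      rw [hmul, h2]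
      push_cast
      ring
    rw [h1] at hS
    have h2 : (f 3 : ℂ) * (3 * R0) ≠ 0 := mul_ne_zero hf3 (mul_ne_zero (by norm_num) hR0)
    exact (mul_eq_zero.mp hS).resolve_left h2
  set φ : ℕ := Nat.card (O ⧸ Ideal.span {α})ˣ with hφ
  set P : ℂ := ∏ᶠ (v : HeightOneSpectrum O) (_ : α ∈ v.asIdeal), (e (gen v) - 1) with hP
  have hU : 9 * ∑ c : O ⧸ Ideal.span {α}, (if IsCoprime c.out α then (1 : ℂ) else 0) * rho c.out =
      2 * ((φ : ℂ) - P) := by
    have h1 : ∑ c : O ⧸ Ideal.span {α}, (if IsCoprime (3 * c.out) α then (1 : ℂ) else 0) *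
        R (3 * e c.out / e α) =
        (3 * R0) * ∑ c : O ⧸ Ideal.span {α}, (if IsCoprime c.out α then (1 : ℂ) else 0) *
          rho c.out := by
      rw [Finset.mul_sum]
      apply Finset.sum_congr rfl
      intro c _
      have h2 := hRrho c.out
      unfold D3_w at h2
      rw [h2]
      simp only [hcop3]
      ring
    rw [h1] at hSU
    have h3 : R0 * (9 * ∑ c : O ⧸ Ideal.span {α}, (if IsCoprime c.out α then (1 : ℂ) else 0) *
        rho c.out) = R0 * (2 * ((φ : ℂ) - P)) := by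
      linear_combination 3 * hSU
    exact mul_left_cancel₀ hR0 h3
  -- the negative part
  set B : ℂ := ∑ c : {c : O ⧸ Ideal.span {α} // IsCoprime c.out α ∧ f c.out = -1},
    rho c.1.out with hB
  have hB2 : ∑ c : O ⧸ Ideal.span {α}, (if IsCoprime c.out α then (1 : ℂ) else 0) * rho c.out -
      ∑ c : O ⧸ Ideal.span {α}, (f c.out : ℂ) * rho c.out = 2 * B := by
    have h1 : B = ∑ c : O ⧸ Ideal.span {α},
        if (IsCoprime c.out α ∧ f c.out = -1) then rho c.out else 0 := by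
      rw [hB, ← Finset.sum_filter]
      exact (Finset.sum_subtype (Finset.univ.filter fun c : O ⧸ Ideal.span {α} =>
        IsCoprime c.out α ∧ f c.out = -1) (by simp) (fun c => rho c.out)).symm
    rw [h1, ← Finset.sum_sub_distrib, Finset.mul_sum]
    apply Finset.sum_congr rfl
    intro c _
    by_cases hc : IsCoprime c.out α
    · rcases hval c.out hc with h | h
      · rw [if_pos hc, h, if_neg (by simp)]
        push_cast
        ring
      · rw [if_pos hc, h, if_pos ⟨hc, rfl⟩]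
        push_cast
        ring
    · rw [if_neg hc, hval0 c.out hc, if_neg (fun h => hc h.1)]
      push_cast
      ring
  rw [hT, sub_zero] at hB2
  rw [hB2] at hU
  have h9B : 9 * B = (φ : ℂ) - P := by linear_combination (1 / 2) * hU
  -- the involution
  have hneg_cop : ∀ c : O ⧸ Ideal.span {α}, IsCoprime c.out α → IsCoprime (-c).out α := by
    intro c hc
    have h1 := D3_coprime_out (hc.neg_left)
    rwa [map_neg, Ideal.Quotient.mk_out] at h1
  have hneg_out : ∀ {M : Type} (H : O → M), (∀ x y, H (x + α * y) = H x) → (∀ x, H (-x) = H x) →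
      ∀ c : O ⧸ Ideal.span {α}, H (-c).out = H c.out := by
    intro M H h1 h2 c
    obtain ⟨y, hy⟩ := C1_out α (-c.out)
    rw [map_neg, Ideal.Quotient.mk_out] at hy
    rw [← h1 (-c).out y, ← hy, h2]
  have h2ne : ∀ c : O ⧸ Ideal.span {α}, IsUnit c → -c ≠ c := by
    intro c hc h
    have h1 : (2 : O ⧸ Ideal.span {α}) * c = 0 := by
      linear_combination (-1 : O ⧸ Ideal.span {α}) * h
    have h4 : (2 : O ⧸ Ideal.span {α}) = 0 := by
      obtain ⟨u, rfl⟩ := hc
      exact (Units.mul_left_eq_zero u).mp h1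
    have h5 : Ideal.Quotient.mk (Ideal.span {α}) (2 : O) = 0 := by
      rw [map_ofNat]
      exact h4
    rw [Ideal.Quotient.eq_zero_iff_mem, Ideal.mem_span_singleton] at h5
    exact hnu (h2.isUnit_of_dvd' dvd_rfl h5)
  obtain ⟨s, hs⟩ := half_sum
    (ι := {c : O ⧸ Ideal.span {α} // IsCoprime c.out α ∧ f c.out = -1})
    (fun c => ⟨-c.1, hneg_cop c.1 c.2.1, by rw [hneg_out f hper heven]; exact c.2.2⟩)
    (fun c => Subtype.ext (neg_neg c.1))
    (fun c h => h2ne c.1 ((C4_isUnit c.1).mp c.2.1) (congrArg Subtype.val h))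
    (fun c => rho c.1.out) (fun c => hneg_out rho hrper hrneg c.1)
  have hvB : A.valuation (9 * B) < 1 := by
    rw [hB, hs]
    have h4 : A.valuation (∑ i ∈ s, rho i.1.out) ≤ 1 := by
      apply Valuation.map_sum_le
      intro i _
      exact hval1 ⟨i.1, i.2.1⟩
    have h5 : A.valuation (9 : ℂ) = 1 := by
      have := val_odd A hA2 9 (by decide)
      exact_mod_cast this
    rw [map_mul, map_mul, h5, one_mul]
    exact mul_lt_one_of_lt_of_le hA2 h4
  have hvφ : A.valuation (φ : ℂ) < 1 := by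
    apply val_even A hA2
    let _ := Fintype.ofFinite (O ⧸ Ideal.span {α})ˣ
    rw [hφ, Nat.card_eq_fintype_card]
    apply even_card (fun u : (O ⧸ Ideal.span {α})ˣ => -u) (fun u => neg_neg u)
    intro u h
    exact h2ne (u : O ⧸ Ideal.span {α}) u.isUnit (congrArg Units.val h)
  have hvP : A.valuation P = 1 := by
    rw [hP]
    apply finprod_induction (fun z : ℂ => A.valuation z = 1) (map_one _)
    · intro x y hx hy
      rw [map_mul, hx, hy, one_mul]
    · intro v
      apply finprod_induction (fun z : ℂ => A.valuation z = 1) (map_one _)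
      · intro x y hx hy
        rw [map_mul, hx, hy, one_mul]
      · intro hv
        have h6 : e (gen v) - 1 = e (gen v - 1) := by rw [map_sub, map_one]
        rw [h6]
        exact val_e_odd A hA2 _ (hodd v hv)
  have hfinal : A.valuation ((φ : ℂ) - P) = 1 := by
    rw [Valuation.map_sub_eq_of_lt_right _ (by rw [hvP]; exact hvφ), hvP]
  rw [← h9B] at hfinal
  exact absurd hfinal hvB.ne

end H55B
end

-- from Lib.H35T.L7
section

open NumberField IsDedekindDomain

namespace H35T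

open H55B

open Classical in
/-- The normalised division value sum. -/
noncomputable def SS (α : O) (f : O → ℂ) : ℂ :=
  ∑ᶠ c : O ⧸ Ideal.span {4 * α}, (if (2 : O) ∣ c.out - 1 then
    ((ZMod.χ₄ (Nm c.out : ZMod 4) : ℤ) : ℂ) * f (3 * c.out) / xw (D3_w (4 * α) (sq3 * c.out)) else 0)

/-! Chunk L7 (M): the sum of R over the division points. beta = 4 alpha is primary (4 = 1 + 3), not a unit, coprime to 3.
(a) modulus: for c coprime to beta: w = D3_w beta c is not in Lam, 1 + w, 1 - w not in Lam (D3_w_notmem, D3_w_add_notmem, D3_w_sub_notmem),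
e sq3 * w = D3_w beta (sq3 c) is not in Lam (sq3 is coprime to beta: sq3^2 = -3). x = xw w: x is not 1, x^3 is not 1 (apply
xw_R to om^j c as well, xw_om), 3 x^2 xw(e sq3 w) = 1 - x^3, so x and xw(e sq3 w) are nonzero.
(b) apply orbit_sum to T c = e(eta(3c)) f(3c) R(w_c) (periodic modulo beta: eta_per, hf.per, D3_w_per, R_per; zero if c is not coprime to 2:
eta_zero). T(om c) = e om * e(eta(3c)) f(3c) R(e om w_c) etc. (eta_om, hf.om), R(e om^j w) = R0/(1 - e om^j x) and with z = e om: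
1/(1-x) + z/(1 - z x) + z^2/(1 - z^2 x) = 3 x^2/(1 - x^3) = 1/xw(e sq3 w). For 2 | c - 1: eta(3c) = eta c = chi4(Nm c) (eta_three,
eta_odd). If c is not coprime to alpha both sides are 0 (hf.zero for 3c). -/

theorem Chr.one {α : O} {f : O → ℂ} (hf : Chr α f) : f 1 = 1 := by
  obtain ⟨k, hk⟩ := hf.root
  have h1 : f 1 = f 1 * f 1 := by
    conv_lhs => rw [← one_mul (1 : O), hf.mul]
  have h2 : f 1 ≠ 0 := by
    intro h0
    have h3 := hk 1 isCoprime_one_left
    rw [h0, zero_pow (by positivity)] at h3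
    exact zero_ne_one h3
  exact (mul_left_cancel₀ h2 (by rw [mul_one]; exact h1)).symm

theorem L7_prime_coprime {α : O} (hα : GoodMod α) {π : O} (hπ : Prime π)
    (h : π ∣ 2 ∨ π ∣ 3) : IsCoprime α π := by
  rw [isCoprime_comm, hπ.irreducible.coprime_iff_not_dvd]
  intro hd
  let v : HeightOneSpectrum O := ⟨Ideal.span {π}, (Ideal.span_singleton_prime hπ.ne_zero).2 hπ, by
    rw [Ne, Ideal.span_singleton_eq_bot]; exact hπ.ne_zero⟩
  have hg := hα.2 v (Ideal.mem_span_singleton.2 hd)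
  rcases h with h | h
  · exact hg.1 (Ideal.mem_span_singleton.2 h)
  · exact hg.2.1 (Ideal.mem_span_singleton.2 h)

theorem GoodMod.coprime_four {α : O} (hα : GoodMod α) : IsCoprime α 4 := by
  have h := L7_prime_coprime hα two_prime (Or.inl dvd_rfl)
  have e4 : (4 : O) = 2 ^ 2 := by norm_num
  rw [e4]
  exact h.pow_right

theorem GoodMod.coprime_three {α : O} (hα : GoodMod α) : IsCoprime α 3 := by
  have h3 : (om - 1 : O) ∣ 3 := by
    rw [three_eq]
    exact Dvd.dvd.mul_left (dvd_pow_self _ two_ne_zero) _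
  have h := L7_prime_coprime hα lam_prime (Or.inr h3)
  rw [three_eq]
  refine IsCoprime.mul_right ?_ h.pow_right
  exact ⟨0, -om, by linear_combination (om - 1) * om_rel⟩

theorem GoodMod.ne_zero {α : O} (hα : GoodMod α) : α ≠ 0 := hα.1.ne_zero

theorem L7_prim {α : O} (hp : Prim α) : Prim (4 * α) := by
  obtain ⟨a, ha⟩ := hp
  exact ⟨4 * a + 1, by linear_combination 4 * ha⟩

theorem L7_not_unit {α : O} : ¬ IsUnit (4 * α : O) := by
  intro h
  have h1 := isUnit_of_mul_isUnit_left h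
  have e4 : (4 : O) = 2 ^ 2 := by norm_num
  rw [e4, isUnit_pow_iff two_ne_zero] at h1
  exact two_prime.not_isUnit h1

theorem L7_sq3_sq : sq3 * sq3 = -3 := by
  unfold sq3
  linear_combination 4 * om_rel

theorem L7_sq3_coprime {α : O} (hα : GoodMod α) : IsCoprime sq3 (4 * α) := by
  have h3 : IsCoprime (3 : O) (4 * α) :=
    IsCoprime.mul_right ⟨-1, 1, by norm_num⟩ hα.coprime_three.symm
  have h : IsCoprime (sq3 * sq3) (4 * α) := by
    rw [L7_sq3_sq]
    exact h3.neg_left
  exact h.of_mul_left_left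

theorem L7_w_mul (β a x : O) : D3_w β (a * x) = e a * D3_w β x := by
  unfold D3_w
  rw [map_mul]
  ring

theorem L7_four_ne {α : O} (hα : GoodMod α) : (4 * α : O) ≠ 0 :=
  mul_ne_zero (by
    have e4 : (4 : O) = 2 ^ 2 := by norm_num
    rw [e4]
    exact pow_ne_zero 2 two_prime.ne_zero) hα.ne_zero

/-- The division points satisfy the hypothesis of dyn3. -/
theorem div_points {α : O} (hα : GoodMod α) (hp : Prim α) (c : O) (hc : IsCoprime c (4 * α)) :
    IsCoprime (sq3 * c) (4 * α) ∧ 3 * xw (D3_w (4 * α) c) ^ 2 * xw (D3_w (4 * α) (sq3 * c)) =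
      1 - xw (D3_w (4 * α) c) ^ 3 := by
  have h1 : IsCoprime (sq3 * c) (4 * α) := IsCoprime.mul_left (L7_sq3_coprime hα) hc
  have h2 := D3_w_notmem (L7_four_ne hα) L7_not_unit hc
  have h3 := D3_w_notmem (L7_four_ne hα) L7_not_unit h1
  rw [L7_w_mul] at h3
  refine ⟨h1, ?_⟩
  rw [L7_w_mul]
  exact xw_sq3 _ h2 h3

/-- The sum over an orbit of the cube roots of unity. -/
theorem L7_orbit (z X X' A0 A1 A2 R0 : ℂ) (hz : z ^ 2 + z + 1 = 0) (hR : R0 ≠ 0)
    (h0 : A0 * (1 - X) = R0) (h1 : A1 * (1 - z * X) = R0) (h2 : A2 * (1 - z ^ 2 * X) = R0)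
    (hX : 3 * X ^ 2 * X' = 1 - X ^ 3) : A0 + z * A1 + z ^ 2 * A2 = R0 * (1 / X') := by
  have n0 : 1 - X ≠ 0 := fun h => hR (by rw [← h0, h, mul_zero])
  have n1 : 1 - z * X ≠ 0 := fun h => hR (by rw [← h1, h, mul_zero])
  have n2 : 1 - z ^ 2 * X ≠ 0 := fun h => hR (by rw [← h2, h, mul_zero])
  have hz3 : z ^ 3 = 1 := by linear_combination (z - 1) * hz
  have hprod : (1 - X) * (1 - z * X) * (1 - z ^ 2 * X) = 1 - X ^ 3 := by
    linear_combination (-X + X ^ 2 * z) * hz - X ^ 3 * hz3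
  have hne : 1 - X ^ 3 ≠ 0 := by
    rw [← hprod]
    exact mul_ne_zero (mul_ne_zero n0 n1) n2
  have hX'0 : X' ≠ 0 := by
    rintro rfl
    rw [mul_zero] at hX
    exact hne hX.symm
  have key : (A0 + z * A1 + z ^ 2 * A2) * (1 - X ^ 3) = R0 * (3 * X ^ 2) := by
    have e1 : (A0 + z * A1 + z ^ 2 * A2) * (1 - X ^ 3) =
        A0 * (1 - X) * ((1 - z * X) * (1 - z ^ 2 * X)) +
        z * (A1 * (1 - z * X)) * ((1 - X) * (1 - z ^ 2 * X)) +
        z ^ 2 * (A2 * (1 - z ^ 2 * X)) * ((1 - X) * (1 - z * X)) := by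
      rw [← hprod]
      ring
    rw [e1, h0, h1, h2]
    linear_combination R0 * (1 - 2 * X * z) * hz + 3 * R0 * X ^ 2 * hz3
  have h5 : (A0 + z * A1 + z ^ 2 * A2) * X' * (3 * X ^ 2) = R0 * (3 * X ^ 2) := by
    rw [← key, ← hX]
    ring
  have hX0 : (3 * X ^ 2 : ℂ) ≠ 0 := by
    intro h
    rw [h, zero_mul] at hX
    exact hne hX.symm
  have h6 := mul_right_cancel₀ hX0 h5
  rw [← h6]
  field_simp

theorem L7_term {α : O} (hα : GoodMod α) (hp : Prim α) {f : O → ℂ} (hf : Chr α f) (x : O)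
    (hx : (2 : O) ∣ x - 1) :
    e (eta (3 * x)) * f (3 * x) * R (D3_w (4 * α) x) +
      e (eta (3 * (om * x))) * f (3 * (om * x)) * R (D3_w (4 * α) (om * x)) +
      e (eta (3 * (om ^ 2 * x))) * f (3 * (om ^ 2 * x)) * R (D3_w (4 * α) (om ^ 2 * x)) =
    R (e om - 1) * (((ZMod.χ₄ (Nm x : ZMod 4) : ℤ) : ℂ) * f (3 * x) /
      xw (D3_w (4 * α) (sq3 * x))) := by
  have hf1 : f (3 * (om * x)) = f (3 * x) := by
    rw [show 3 * (om * x) = om * (3 * x) by ring, hf.om]
  have hf2 : f (3 * (om ^ 2 * x)) = f (3 * x) := by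
    rw [show 3 * (om ^ 2 * x) = om * (om * (3 * x)) by ring, hf.om, hf.om]
  have he0 : e (eta (3 * x)) = ((ZMod.χ₄ (Nm x : ZMod 4) : ℤ) : ℂ) := by
    rw [eta_three, eta_odd x hx, map_intCast]
  have he1 : e (eta (3 * (om * x))) = e om * ((ZMod.χ₄ (Nm x : ZMod 4) : ℤ) : ℂ) := by
    rw [eta_three, eta_om, eta_odd x hx, map_mul, map_intCast]
  have he2 : e (eta (3 * (om ^ 2 * x))) = e om ^ 2 * ((ZMod.χ₄ (Nm x : ZMod 4) : ℤ) : ℂ) := by
    rw [eta_three, show om ^ 2 * x = om * (om * x) by ring, eta_om, eta_om, eta_odd x hx, map_mul,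
      map_mul, map_intCast]
    ring
  rw [hf1, hf2, he0, he1, he2]
  by_cases hc : IsCoprime x α
  · have hx2 : IsCoprime x 2 := by
      obtain ⟨a, ha⟩ := hx
      exact ⟨1, -a, by linear_combination ha⟩
    have hx4 : IsCoprime x 4 := by
      have e4 : (4 : O) = 2 ^ 2 := by norm_num
      rw [e4]
      exact hx2.pow_right
    have hc0 : IsCoprime x (4 * α) := IsCoprime.mul_right hx4 hc
    have hom : IsCoprime om (4 * α) := ⟨om ^ 2, 0, by linear_combination (om - 1) * om_rel⟩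
    have hc1 : IsCoprime (om * x) (4 * α) := IsCoprime.mul_left hom hc0
    have hc2 : IsCoprime (om ^ 2 * x) (4 * α) := IsCoprime.mul_left hom.pow_left hc0
    have h4 := L7_four_ne hα
    have hR : ∀ y : O, IsCoprime y (4 * α) →
        R (D3_w (4 * α) y) * (1 - xw (D3_w (4 * α) y)) = R (e om - 1) := fun y hy =>
      xw_R _ (D3_w_notmem h4 L7_not_unit hy) (D3_w_add_notmem h4 (L7_prim hp) y)
        (D3_w_sub_notmem h4 (L7_prim hp) y)
    have r0 := hR x hc0
    have r1 := hR (om * x) hc1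
    have r2 := hR (om ^ 2 * x) hc2
    have q1 : xw (D3_w (4 * α) (om * x)) = e om * xw (D3_w (4 * α) x) := by
      rw [L7_w_mul, xw_om]
    have q2 : xw (D3_w (4 * α) (om ^ 2 * x)) = e om ^ 2 * xw (D3_w (4 * α) x) := by
      rw [show om ^ 2 * x = om * (om * x) by ring, L7_w_mul, L7_w_mul, xw_om, xw_om]
      ring
    rw [q1] at r1
    rw [q2] at r2
    have h9 := L7_orbit (e om) _ _ _ _ _ _ e_om_rel R0_ne r0 r1 r2 (div_points hα hp x hc0).2
    linear_combination (((ZMod.χ₄ (Nm x : ZMod 4) : ℤ) : ℂ) * f (3 * x)) * h9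
  · have hz : f (3 * x) = 0 := hf.zero _ (fun h => hc h.of_mul_left_right)
    rw [hz]
    simp

theorem S_formula {α : O} (hα : GoodMod α) (hp : Prim α) {f : O → ℂ} (hf : Chr α f) :
    ∑ᶠ c : O ⧸ Ideal.span {4 * α}, (e (eta (3 * c.out)) * f (3 * c.out)) *
      R (3 * e c.out / e (4 * α)) = R (e om - 1) * SS α f := by
  have h4 := L7_four_ne hα
  have hfin := C1_finite h4
  have := Fintype.ofFinite (O ⧸ Ideal.span {4 * α})
  set T : O → ℂ := fun x => e (eta (3 * x)) * f (3 * x) * R (D3_w (4 * α) x) with hT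
  have hper : ∀ x y, T (x + 4 * α * y) = T x := by
    intro x y
    simp only [hT]
    rw [D3_w_per h4, R_per, show 3 * (x + 4 * α * y) = 3 * x + 4 * (3 * α * y) by ring, eta_per,
      show 3 * x + 4 * (3 * α * y) = 3 * x + α * (12 * y) by ring, hf.per]
  have h0 : ∀ x, ¬ IsCoprime x 2 → T x = 0 := by
    intro x hx
    simp only [hT]
    rw [eta_three, eta_zero x hx, map_zero, zero_mul, zero_mul]
  have h5 := orbit_sum h4 ⟨2 * α, by ring⟩ hper h0
  have h6 : ∑ᶠ c : O ⧸ Ideal.span {4 * α}, (e (eta (3 * c.out)) * f (3 * c.out)) *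
      R (3 * e c.out / e (4 * α)) = ∑ᶠ c : O ⧸ Ideal.span {4 * α}, T c.out := rfl
  rw [h6, h5]
  unfold SS
  rw [finsum_eq_sum_of_fintype, finsum_eq_sum_of_fintype, Finset.mul_sum]
  refine Finset.sum_congr rfl fun c _ => ?_
  by_cases hc : (2 : O) ∣ c.out - 1
  · rw [if_pos hc, if_pos hc]
    exact L7_term hα hp hf c.out hc
  · rw [if_neg hc, if_neg hc, mul_zero]

end H35T
end

-- from Lib.H55B.AN
section

open NumberField IsDedekindDomain

namespace H55B

/-! Chunk AN: analytic continuation and nonvanishing for the characters Sym a, a admissible.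
a unit: Sym a = 1, Lf 1 s = Kf 1 s = -(1/3) G(e om - 1) s by Kf_one; value at 1: -(1/3) R(e om - 1) <> 0
(A3.exists_X). a not a unit: alpha = u a primary (exists_unit_prim, Adm.coprime3), squarefree, Sym alpha = Sym a.
f = Sym a is even (Sym_neg_one and Sym_mul), periodic modulo alpha, mean zero (H6), so Lf_even gives
Lf f s = (1/2) g s (e alpha) sum_c f(3c) G(w_c) s, analytic on Re s > 1/2 (finite sum; s -> g s u is
analytic for u <> 0). At s = 1: (1/2)(1/e alpha) sum f(3c) R(w_c), nonzero by D3.nonvan; hypothesis hodd: for v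
dividing alpha, with prime generator p: Adm gives p not dividing 3 and 2 not a cube mod p, so odd_norm applies
(2 is not in v since a is odd). -/

theorem analytic_main {a : O} (ha : Adm a) : ∃ Λ : ℂ → ℂ, AnalyticOnNhd ℂ Λ {s | 1 / 2 < s.re} ∧
    (∀ s : ℂ, 3 / 2 < s.re → Λ s = Lf (fun x => (Sym a x : ℂ)) s) ∧ Λ 1 ≠ 0 := by
  have ha0 : a ≠ 0 := ha.1.ne_zero
  by_cases hu : IsUnit a
  · obtain ⟨X, hR, -⟩ := exists_X
    refine ⟨fun s => -(1 / 3) * G (e om - 1) s, ?_, ?_, ?_⟩
    · exact analyticOnNhd_const.mul (G_analytic _)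
    · intro s hs
      have h1 : (fun x => (Sym a x : ℂ)) = fun _ => (1 : ℂ) := by
        funext x
        rw [Sym_unit hu]; simp
      rw [h1]
      change -(1 / 3) * G (e om - 1) s = _
      rw [← Kf_one s hs]
      unfold Kf Lf
      simp
    · simp only
      rw [G_one]
      exact mul_ne_zero (by norm_num) hR
  · obtain ⟨u, hp⟩ := exists_unit_prim ha.coprime3
    set α : O := u * a with hα
    have hSym : ∀ x, Sym α x = Sym a x := fun x => Sym_mul_unit a u x
    have hassoc : Associated a α := ⟨u, by rw [hα, mul_comm]⟩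
    have hα0 : α ≠ 0 := hp.ne_zero
    have hsq : Squarefree α := (hassoc.squarefree_iff).mp ha.1
    have h2 : IsCoprime α 2 := by
      rw [hα]
      exact (isCoprime_mul_unit_left_left u.isUnit a 2).mpr ha.odd
    have hnu : ¬ IsUnit α := fun h => hu (hassoc.isUnit_iff.mpr h)
    have hperZ : ∀ x y, Sym α (x + α * y) = Sym α x := fun x y => Sym_per hα0 x y
    have hevenZ : ∀ x, Sym α (-x) = Sym α x := by
      intro x
      have : -x = (-1) * x := by ring
      rw [this, Sym_mul hα0, hSym (-1), Sym_neg_one ha, one_mul]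
    set f : O → ℂ := fun x => (Sym α x : ℂ) with hf
    have hfa : (fun x => (Sym a x : ℂ)) = f := by
      funext x
      rw [hf]
      simp only
      rw [hSym]
    have hper : ∀ x y, f (x + α * y) = f x := fun x y => by simp only [hf, hperZ]
    have heven : ∀ x, f (-x) = f x := fun x => by simp only [hf, hevenZ]
    have hsum : ∑ᶠ c : O ⧸ Ideal.span {α}, f c.out = 0 := Sym_sum_zero hsq h2 hnu
    have := C1_finite hα0
    have := Fintype.ofFinite (O ⧸ Ideal.span {α})
    refine ⟨fun s => (1 / 2) * g s (e α) *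
      ∑ᶠ c : O ⧸ Ideal.span {α}, f (3 * c.out) * G (3 * e c.out / e α) s, ?_, ?_, ?_⟩
    · simp only [finsum_eq_sum_of_fintype]
      refine AnalyticOnNhd.mul (analyticOnNhd_const.mul ?_) ?_
      · intro s _
        exact (b1_diff (e α)).analyticAt s
      · refine Finset.analyticOnNhd_fun_sum _ fun c _ => ?_
        exact analyticOnNhd_const.mul (G_analytic _)
    · intro s hs
      rw [hfa, Lf_even α hα0 hp f hper heven hsum s hs]
    · simp only
      have h3 : ∀ v : HeightOneSpectrum O, α ∈ v.asIdeal → Odd (Nm (gen v - 1)) := by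
        intro v hv
        have hav : a ∈ v.asIdeal := by
          have h4 : (↑(u⁻¹) : O) * α = a := by rw [hα]; simp
          rw [← h4]
          exact Ideal.mul_mem_left _ _ hv
        have hv2 : (2 : O) ∉ v.asIdeal := by
          intro h
          obtain ⟨b, c, hbc⟩ := h2
          apply v.isPrime.ne_top
          rw [Ideal.eq_top_iff_one, ← hbc]
          exact v.asIdeal.add_mem (v.asIdeal.mul_mem_left _ hv) (v.asIdeal.mul_mem_left _ h)
        have hv3 : (3 : O) ∉ v.asIdeal := by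
          intro h
          obtain ⟨b, c, hbc⟩ := ha.coprime3
          apply v.isPrime.ne_top
          rw [Ideal.eq_top_iff_one, ← hbc]
          exact v.asIdeal.add_mem (v.asIdeal.mul_mem_left _ hav) (v.asIdeal.mul_mem_left _ h)
        apply odd_norm v hv3 hv2
        rintro ⟨x, hx⟩
        have hg := ha.2.2 (gen v) (gen_prime v hv3) ((gen_dvd_iff v hv3 a).mpr hav)
        exact hg.2 ⟨x, (gen_dvd_iff v hv3 _).mpr hx⟩
      have hnv := nonvan α hsq hp h2 hnu h3 (fun x => Sym α x) hperZ hevenZ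
        (fun x y => Sym_mul hα0 x y) (fun x hx => Sym_coprime hα0 hx) (fun x hx => Sym_zero hα0 hx)
      have hg1 : g 1 (e α) ≠ 0 := by
        rw [g_one]
        apply inv_ne_zero
        intro h
        exact hα0 (e_injective (by rw [h, map_zero]))
      refine mul_ne_zero (mul_ne_zero (by norm_num) hg1) ?_
      have h5 : ∀ w, G w 1 = R w := G_one
      simp only [h5]
      exact hnv

end H55B
end

-- from Lib.H55N.D2
section

open NumberField IsDedekindDomain

namespace H55N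

open H55B H55C

variable {K : Type} [Field K] [NumberField K] [Algebra F K] {m : ℕ}

/-! Chunk D2 (M). The regulator does not vanish. rank K = m (complex_places in H55C/W8, as in D1; transport u along the equality, Fin.cast). The map
i -> InfinitePlace.mk (σ i) is a bijection of Fin (m+1) with the infinite places: every complex embedding τ of K restricts to emb or to conj emb on F (F has two complex
embeddings), so τ or conj τ is over emb, hence a σ i (emb_all), exactly one of them. |σ_i x| = place value; mult = 2. By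
NumberField.Units.isMaxRank_iff_closure_finiteIndex and regOfFamily_ne_zero the regulator of the family u is nonzero, and by finrank_mul_regOfFamily_eq_det finrank * reg = |det| of the
matrix with rows (2)_w and (2 log |u_j|_w)_w; after reindexing and transposing this is 2 * |Delta lm|. -/

theorem D2_rank (hm : Module.finrank F K = m + 1) : NumberField.Units.rank K = m := by
  have h0 := complex_places K
  have h1 := InfinitePlace.card_add_two_mul_card_eq_rank K
  have h2 := Module.finrank_mul_finrank ℚ F K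
  have h3 : Module.finrank ℚ F = 2 := by
    have h := IsCyclotomicExtension.finrank (n := 3) F
      (Polynomial.cyclotomic.irreducible_rat (by norm_num))
    rw [h]
    decide
  have h4 := InfinitePlace.card_eq_nrRealPlaces_add_nrComplexPlaces K
  unfold NumberField.Units.rank
  rw [h3] at h2
  rw [hm] at h0 h2
  omega

theorem D2_placeF (φ : F →+* ℂ) : φ = emb ∨ ComplexEmbedding.conjugate φ = emb := by
  have h1 : InfinitePlace.nrRealPlaces F = 0 :=
    IsCyclotomicExtension.Rat.nrRealPlaces_eq_zero (n := 3) F (by norm_num)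
  have h2 := InfinitePlace.card_add_two_mul_card_eq_rank F
  have h3 : Module.finrank ℚ F = 2 := by
    have h := IsCyclotomicExtension.finrank (n := 3) F
      (Polynomial.cyclotomic.irreducible_rat (by norm_num))
    rw [h]
    decide
  have h4 := InfinitePlace.card_eq_nrRealPlaces_add_nrComplexPlaces F
  have h5 : Fintype.card (InfinitePlace F) ≤ 1 := by omega
  have h6 := Fintype.card_le_one_iff_subsingleton.1 h5
  exact InfinitePlace.mk_eq_iff.1 (Subsingleton.elim (InfinitePlace.mk φ) (InfinitePlace.mk emb))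

theorem D2_place (D : Ctx K m) (hE : Emb D.σ) (w : InfinitePlace K) :
    ∃ i, ∀ x : K, w x = ‖D.σ i x‖ := by
  rcases D2_placeF (w.embedding.comp (algebraMap F K)) with h | h
  · obtain ⟨i, hi⟩ := emb_all hE w.embedding (fun x => by rw [← h]; rfl)
    refine ⟨i, fun x => ?_⟩
    rw [← hi, InfinitePlace.norm_embedding_eq]
  · obtain ⟨i, hi⟩ := emb_all hE (ComplexEmbedding.conjugate w.embedding) (fun x => by rw [← h]; rfl)
    refine ⟨i, fun x => ?_⟩
    rw [← hi, ComplexEmbedding.conjugate_coe_eq]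
    rw [RCLike.norm_conj, InfinitePlace.norm_embedding_eq]

theorem D2_normU (D : Ctx K m) (hE : Emb D.σ) (v : (𝓞 K)ˣ) :
    ∏ i, D.σ i ((v : 𝓞 K) : K) = e ((Units.map (RingOfIntegers.norm F) v : Oˣ) : O) := by
  rw [norm_eq hE]
  rfl

theorem D2_norm_abs (D : Ctx K m) (hE : Emb D.σ) (v : (𝓞 K)ˣ) :
    ∏ i, ‖D.σ i ((v : 𝓞 K) : K)‖ = 1 := by
  rw [← norm_prod, D2_normU D hE]
  have h1 := Nm_eq ((Units.map (RingOfIntegers.norm F) v : Oˣ) : O)
  rw [Nm_eq_one.2 (Units.isUnit _)] at h1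
  have h2 : ‖e ((Units.map (RingOfIntegers.norm F) v : Oˣ) : O)‖ ^ 2 = 1 := by
    rw [← h1]; norm_num
  exact (pow_eq_one_iff_of_nonneg (norm_nonneg _) two_ne_zero).1 h2

theorem delta_ne (D : Ctx K m) (hE : Emb D.σ) (u : Fin m → (𝓞 K)ˣ)
    (hu : (Subgroup.closure (Set.range u)).FiniteIndex) : Delta (D.lm u) ≠ 0 := by
  have hr : NumberField.Units.rank K = m := D2_rank hE.fin
  subst hr
  have hmax := NumberField.Units.isMaxRank_iff_closure_finiteIndex.2 hu
  intro h0
  unfold Delta at h0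
  rw [← Matrix.exists_mulVec_eq_zero_iff] at h0
  obtain ⟨c, hc0, hc⟩ := h0
  have hrow : ∀ i, c 0 + ∑ j, D.lm u i j * c j.succ = 0 := by
    intro i
    have := congrFun hc i
    simp only [Matrix.mulVec, dotProduct, Fin.sum_univ_succ, Matrix.of_apply, Fin.cons_zero,
      Fin.cons_succ, Pi.zero_apply, one_mul] at this
    exact this
  have hcol : ∀ j, ∑ i, D.lm u i j = 0 := by
    intro j
    unfold Ctx.lm
    rw [← Finset.mul_sum, ← Real.log_prod, D2_norm_abs D hE, Real.log_one, mul_zero]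
    intro i _
    rw [norm_ne_zero_iff]
    exact (map_ne_zero _).2 (NumberField.Units.coe_ne_zero _)
  have hc00 : c 0 = 0 := by
    have h1 : ∑ i : Fin (NumberField.Units.rank K + 1),
        (c 0 + ∑ j, D.lm u i j * c j.succ) = 0 := Finset.sum_eq_zero fun i _ => hrow i
    rw [Finset.sum_add_distrib, Finset.sum_comm] at h1
    simp_rw [← Finset.sum_mul] at h1
    rw [Finset.sum_eq_zero (s := Finset.univ) (f := fun j => (∑ i, D.lm u i j) * c j.succ)
      (fun j _ => by rw [hcol j, zero_mul]), add_zero, Finset.sum_const, Finset.card_univ,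
      Fintype.card_fin, nsmul_eq_mul] at h1
    rcases mul_eq_zero.1 h1 with h2 | h2
    · exact absurd h2 (by positivity)
    · exact h2
  have hind := Fintype.linearIndependent_iff.1 hmax (fun j => c j.succ) (by
    funext w
    rw [Finset.sum_apply]
    simp only [Pi.smul_apply, NumberField.Units.dirichletUnitTheorem.logEmbedding_component,
      smul_eq_mul, Pi.zero_apply]
    obtain ⟨i, hi⟩ := D2_place D hE w.val
    have h1 := hrow i
    rw [hc00, zero_add] at h1
    have h2 : ∀ j, c j.succ * ((w.val.mult : ℝ) * Real.log (w.val ((u j : 𝓞 K) : K))) =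
        ((w.val.mult : ℝ) / 2) * (D.lm u i j * c j.succ) := by
      intro j
      unfold Ctx.lm
      rw [hi]
      ring
    rw [Finset.sum_congr rfl (fun j _ => h2 j), ← Finset.mul_sum, h1, mul_zero])
  apply hc0
  funext j
  refine Fin.cases hc00 (fun j => hind j) j

/-! The norm of a unit v = 1 mod 3 is 1: N = N_{K/F}(v) is a unit of O, so a power of - om (the units of O are the six roots of unity; see H55B), and N = 1 mod 3 O: N - 1 =
3 y with y = ((prod (1 + 3 σ_i x)) - 1)/3 an algebraic integer in F. Among the units only 1 is = 1 mod 3. Then norm_eq. -/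

theorem D2_prod {ι : Type} (s : Finset ι) (a : ι → ℂ) (ha : ∀ i, IsIntegral ℤ (a i)) :
    ∃ y : ℂ, IsIntegral ℤ y ∧ ∏ i ∈ s, (1 + 3 * a i) = 1 + 3 * y := by
  classical
  induction s using Finset.induction_on with
  | empty => exact ⟨0, isIntegral_zero, by simp⟩
  | insert i s his ih =>
    obtain ⟨y, hy, h⟩ := ih
    refine ⟨y + a i + 3 * (a i * y), ?_, ?_⟩
    · have h3 : IsIntegral ℤ (3 : ℂ) := by
        have := isIntegral_algebraMap (R := ℤ) (A := ℂ) (x := 3)
        simpa using this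
      exact (hy.add (ha i)).add (h3.mul ((ha i).mul hy))
    · rw [Finset.prod_insert his, h]; ring

theorem norm_one (D : Ctx K m) (hE : Emb D.σ) (v : (𝓞 K)ˣ) (hv : (v : 𝓞 K) - 1 ∈ Ideal.span {3}) :
    ∏ i, D.σ i ((v : 𝓞 K) : K) = 1 := by
  have h0 := D2_normU D hE v
  set n : Oˣ := Units.map (RingOfIntegers.norm F) v with hn
  obtain ⟨w, hw⟩ := Ideal.mem_span_singleton.1 hv
  have hv' : (v : 𝓞 K) = 1 + 3 * w := by linear_combination hw
  obtain ⟨y, hy, hy1⟩ := D2_prod Finset.univ (fun i => D.σ i (w : K)) (fun i => by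
    have h1 : IsIntegral ℤ (w : K) := RingOfIntegers.isIntegral_coe w
    exact h1.map (D.σ i).toIntAlgHom)
  have h1 : e (n : O) = 1 + 3 * y := by
    rw [← h0, ← hy1]
    refine Finset.prod_congr rfl fun i _ => ?_
    rw [hv']
    have h3' : (algebraMap (𝓞 K) K) 3 = 3 := map_ofNat _ 3
    have h3'' : (D.σ i) 3 = 3 := map_ofNat _ 3
    simp [h3', h3'']
  -- the element (n - 1)/3 of F
  have h2 : emb (((n : O) : F) - 1) = 3 * y := by
    rw [map_sub, map_one]
    have : emb ((n : O) : F) = e (n : O) := rfl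
    rw [this, h1]; ring
  have h3 : emb ((((n : O) : F) - 1) / 3) = y := by
    rw [map_div₀, h2]
    have : emb (3 : F) = 3 := map_ofNat emb 3
    rw [this]
    field_simp
  have h4 : IsIntegral ℤ ((((n : O) : F) - 1) / 3) := by
    rw [← h3] at hy
    exact (isIntegral_algHom_iff emb.toIntAlgHom emb.injective).1 hy
  obtain ⟨y', hy'⟩ : ∃ y' : O, (algebraMap O F) y' = (((n : O) : F) - 1) / 3 :=
    (IsIntegralClosure.isIntegral_iff (A := O)).1 h4
  have h5 : Prim (n : O) := by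
    refine ⟨y', ?_⟩
    apply FaithfulSMul.algebraMap_injective O F
    rw [map_sub, map_one, map_mul, hy']
    have : (algebraMap O F) (3 : O) = 3 := map_ofNat _ 3
    rw [this]
    field_simp
  have h6 : (n : O) = 1 :=
    Prim.eq_of_associated h5 prim_one (associated_one_iff_isUnit.2 n.isUnit)
  rw [h0, h6, map_one]

end H55N
end

-- from Lib.H55N.L4
section

open NumberField IsDedekindDomain

namespace H55N

open H55B H55C

variable {K : Type} [Field K] [NumberField K] [Algebra F K] {m : ℕ}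

/-! Chunk L4 (M). Direction data from directions d_j and smoothing primes c_i not containing the d_j: P = prod_k p_k, w_i = (P/p_i) d_{i.1}, i.e.
w_i = (prod_{k <> i} p_k) d_{i.1}. mem: d in I. oth: for k <> i the factor p_k is in c_k (absNorm c_k = p_k: Ideal.absNorm_mem). self: c_i is prime (Ideal.isPrime_of_irreducible_absNorm),
d_{i.1} not in c_i, and p_k not in c_i for k <> i: p_k and p_i are distinct primes, c_i contains p_i, so it would contain 1. orth: Tr_eq, linearity. int, low, ind: hypotheses. -/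

theorem dirs_of (D : Ctx K m) (hD : D.Ok) (A : Fin (m + 1) → K) (d : Fin (m + 1) → 𝓞 K)
    (hd : ∀ j, d j ∈ D.I) (hdc : ∀ i j, d j ∉ D.c i)
    (horth : ∀ j k, k ≠ j → Algebra.trace F K ((d j : K) * A k) = 0)
    (hint : ∀ x ∈ D.X, ∀ k, ∃ y : O, D.Tr (A k) x = e y)
    (hlow : ∀ x ∈ D.X, ∀ k, 1 ≤ ‖D.Tr (A k) x‖) (hA : LinearIndependent F A) :
    ∃ w, D.Dirs A w := by
  classical
  have hprime : ∀ i, (D.c i).IsPrime := fun i =>
    Ideal.isPrime_of_irreducible_absNorm (by
      rw [hD.smooth.norm i]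
      exact (hD.smooth.prime i))
  have hpc : ∀ i, (D.p i : 𝓞 K) ∈ D.c i := fun i => by
    have := Ideal.absNorm_mem (D.c i)
    rwa [hD.smooth.norm i] at this
  refine ⟨fun i => ((∏ k ∈ Finset.univ.erase i, D.p k : ℕ) : 𝓞 K) * d i.1, ?_, ?_, ?_, ?_, hint,
    hlow, hA⟩
  · intro i
    exact D.I.mul_mem_left _ (hd _)
  · intro i h
    rcases (hprime i).mem_or_mem h with h1 | h1
    · have hcop : Nat.Coprime (∏ k ∈ Finset.univ.erase i, D.p k) (D.p i) := by
        refine Nat.Coprime.prod_left fun k hk => ?_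
        rw [Nat.coprime_primes (hD.smooth.prime k) (hD.smooth.prime i)]
        intro h2
        exact (Finset.mem_erase.1 hk).1 (hD.smooth.inj h2)
      have h2 := Nat.isCoprime_iff_coprime.2 hcop
      obtain ⟨a, b, hab⟩ := h2
      apply (hprime i).ne_top
      rw [Ideal.eq_top_iff_one]
      have h3 := congrArg (Int.cast : ℤ → 𝓞 K) hab
      push_cast at h3
      rw [← h3]
      refine (D.c i).add_mem ((D.c i).mul_mem_left _ ?_) ((D.c i).mul_mem_left _ (hpc i))
      push_cast at h1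
      exact h1
    · exact hdc i i.1 h1
  · intro i k hk
    refine (D.c k).mul_mem_right _ ?_
    rw [← Finset.mul_prod_erase (Finset.univ.erase i) (fun k => D.p k)
      (Finset.mem_erase.2 ⟨hk, Finset.mem_univ k⟩)]
    push_cast
    exact (D.c k).mul_mem_right _ (hpc k)
  · intro i k hk
    rw [Tr_eq D hD.emb]
    have h1 : (((((∏ k ∈ Finset.univ.erase i, D.p k : ℕ) : 𝓞 K) * d i.1 : 𝓞 K)) : K) * A k =
        ((∏ k ∈ Finset.univ.erase i, D.p k : ℕ) : F) • ((d i.1 : K) * A k) := by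
      rw [Algebra.smul_def, map_natCast, ← mul_assoc]
      congr 1
    rw [h1, map_smul, horth i.1 k hk, smul_zero, map_zero]

/-- Finiteness of the set of ideals containing a nonzero element. -/
theorem finite_ideals (x : 𝓞 K) (hx : x ≠ 0) : {c : Ideal (𝓞 K) | x ∈ c}.Finite := by
  classical
  have h : Ideal.span {x} ≠ (0 : Ideal (𝓞 K)) := by
    rw [Ideal.zero_eq_bot, Ne, Ideal.span_singleton_eq_bot]
    exact hx
  have h1 : Fintype {c : Ideal (𝓞 K) // c ∣ Ideal.span {x}} :=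
    UniqueFactorizationMonoid.fintypeSubtypeDvd _ h
  have h2 : {c : Ideal (𝓞 K) | c ∣ Ideal.span {x}}.Finite := by
    rw [← Set.finite_coe_iff, Set.coe_ofPred]
    exact Finite.of_fintype _
  refine Set.Finite.subset h2 ?_
  intro c hc
  exact Ideal.dvd_iff_le.2 ((Ideal.span_singleton_le_iff_mem _).2 hc)

end H55N
end

-- from Lib.H55N.H12
section

open NumberField IsDedekindDomain

namespace H55N

open H55B H55C

/-! Chunk H12 (M/L): the class decomposition. unit_cong: (c0) = b d with d prime to 3f (if a prime w containing 3f contains d then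
c0 is in w b); (u - 1)(c0) <= 3f b gives (u - 1) d <= 3f (cancel b), hence (u - 1) <= 3f.
exists_CD: for every class kappa in the class group (finite) take b = b_kappa with class kappa, prime to 6f (exists_rep). On the set
P of primitive x in b (x not in w b for all w containing 3f) consider x ~ y iff some unit u has u x - y in 3fb (an equivalence
relation; primitivity only depends on the class modulo 3fb, since 3fb <= wb). As b/3fb is finite, there is a finite set of
representatives R. iota = the pairs (kappa, r), r in R_kappa. T(kappa, r) = a transversal of XS (3fb) r modulo the units = 1 mod 3f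
(choice of one element in every class of the equivalence relation x' = u x; note that 3f x <= 3fb so that u x stays in XS).
bij, existence: a prime to 3f; let kappa be the inverse of the class of a, so a b = (x) (ClassGroup.mk0_eq_one_iff), x in b, x is
primitive (x in w b gives a <= w); u x - r in 3fb for some r in R and unit u, and u x = u1 t with t in T, u1 = 1 mod 3f; (t) = (x).
Uniqueness: a b = (x) = (x') with x in T(kappa, r), x' in T(kappa, r') (the class kappa is determined by a): x' = u x, so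
r' = u r mod 3fb (u x - u r and x' - r' in 3fb), r = r'; (u - 1) r in 3fb, so u = 1 mod 3f by unit_cong, and x' = x by uniqueness in
the transversal. -/

variable {K : Type} [Field K] [NumberField K]

theorem h12_cong (J b : Ideal (𝓞 K)) (hJ : J ≠ ⊥) (hb : b ≠ ⊥) (c₀ : 𝓞 K) (hc : c₀ ∈ b)
    (hp : ∀ w : HeightOneSpectrum (𝓞 K), J ≤ w.asIdeal → c₀ ∉ w.asIdeal * b)
    (t : 𝓞 K) (ht : t * c₀ ∈ J * b) : t ∈ J := by
  obtain ⟨d, hd⟩ : b ∣ Ideal.span {c₀} := Ideal.dvd_span_singleton.2 hc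
  have hcop : IsCoprime d J := by
    rw [Ideal.isCoprime_iff_sup_eq]
    by_contra hne
    obtain ⟨P, hP, hle⟩ := Ideal.exists_le_maximal _ hne
    have hdP : d ≤ P := le_sup_left.trans hle
    have hJP : J ≤ P := le_sup_right.trans hle
    have hP0 : P ≠ ⊥ := fun h => hJ (le_bot_iff.1 (h ▸ hJP))
    refine hp ⟨P, hP.isPrime, hP0⟩ hJP ?_
    show c₀ ∈ P * b
    rw [← Ideal.span_singleton_le_iff_mem, hd, mul_comm P b]
    exact Ideal.mul_mono_right hdP
  have h1 : J * b ∣ Ideal.span {t} * Ideal.span {c₀} := by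
    rw [Ideal.span_singleton_mul_span_singleton]
    exact Ideal.dvd_span_singleton.2 ht
  rw [hd, mul_comm b d, ← mul_assoc] at h1
  have h2 : J ∣ Ideal.span {t} * d := (mul_dvd_mul_iff_right hb).1 h1
  exact Ideal.dvd_span_singleton.1 (hcop.symm.dvd_of_dvd_mul_right h2)

/-- Existence of transversals. -/
theorem h12_transv (J : Ideal (𝓞 K)) (X : Set (𝓞 K)) : ∃ T, Transv J X T := by
  let S : Setoid X :=
    { r := fun x y => ∃ u : (𝓞 K)ˣ, (u : 𝓞 K) - 1 ∈ J ∧ (y : 𝓞 K) = u * x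
      iseqv := by
        refine ⟨fun x => ⟨1, ?_, ?_⟩, ?_, ?_⟩
        · simp
        · simp
        · rintro x y ⟨u, hu, h⟩
          refine ⟨u⁻¹, ?_, ?_⟩
          · have : ((u⁻¹ : (𝓞 K)ˣ) : 𝓞 K) - 1 = -((u⁻¹ : (𝓞 K)ˣ) : 𝓞 K) * ((u : 𝓞 K) - 1) := by
              have h1 : ((u⁻¹ : (𝓞 K)ˣ) : 𝓞 K) * (u : 𝓞 K) = 1 := u.inv_mul
              linear_combination h1
            rw [this]
            exact J.mul_mem_left _ hu
          · rw [h, ← mul_assoc, u.inv_mul, one_mul]
        · rintro x y z ⟨u, hu, h⟩ ⟨v, hv, h'⟩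
          refine ⟨v * u, ?_, ?_⟩
          · have : ((v * u : (𝓞 K)ˣ) : 𝓞 K) - 1 = (v : 𝓞 K) * ((u : 𝓞 K) - 1) +
                ((v : 𝓞 K) - 1) := by
              push_cast
              ring
            rw [this]
            exact J.add_mem (J.mul_mem_left _ hu) hv
          · rw [h', h]
            push_cast
            ring }
  refine ⟨Set.range fun q : Quotient S => (q.out : 𝓞 K), ?_, ?_, ?_⟩
  · rintro _ ⟨q, rfl⟩
    exact q.out.2
  · intro x hx
    refine ⟨_, ⟨Quotient.mk S ⟨x, hx⟩, rfl⟩, ?_⟩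
    have h : S ((Quotient.mk S ⟨x, hx⟩).out) ⟨x, hx⟩ := Quotient.mk_out (s := S) ⟨x, hx⟩
    exact h
  · rintro _ ⟨q, rfl⟩ _ ⟨q', rfl⟩ u hu h
    have h1 : S q.out q'.out := ⟨u, hu, h⟩
    have h2 := Quotient.sound (s := S) h1
    rw [Quotient.out_eq, Quotient.out_eq] at h2
    simp only [h2]

/-- Congruence up to units. -/
def H12P (J b : Ideal (𝓞 K)) : Set (𝓞 K) :=
  {x | x ∈ b ∧ ∀ w : HeightOneSpectrum (𝓞 K), J ≤ w.asIdeal → x ∉ w.asIdeal * b}

/-- The setoid. -/
def h12S (J b : Ideal (𝓞 K)) : Setoid (H12P J b) where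
  r := fun x y => ∃ u : (𝓞 K)ˣ, (u : 𝓞 K) * x - y ∈ J * b
  iseqv := by
    refine ⟨fun x => ⟨1, ?_⟩, ?_, ?_⟩
    · simp
    · rintro x y ⟨u, hu⟩
      refine ⟨u⁻¹, ?_⟩
      have : ((u⁻¹ : (𝓞 K)ˣ) : 𝓞 K) * y - x = -((u⁻¹ : (𝓞 K)ˣ) : 𝓞 K) * ((u : 𝓞 K) * x - y) := by
        have h1 : ((u⁻¹ : (𝓞 K)ˣ) : 𝓞 K) * (u : 𝓞 K) = 1 := u.inv_mul
        linear_combination (x : 𝓞 K) * h1
      rw [this]
      exact (J * b).mul_mem_left _ hu
    · rintro x y z ⟨u, hu⟩ ⟨v, hv⟩
      refine ⟨v * u, ?_⟩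
      have : ((v * u : (𝓞 K)ˣ) : 𝓞 K) * x - z = (v : 𝓞 K) * ((u : 𝓞 K) * x - y) +
          ((v : 𝓞 K) * y - z) := by
        push_cast
        ring
      rw [this]
      exact (J * b).add_mem ((J * b).mul_mem_left _ hu) hv

theorem h12_finite (J b : Ideal (𝓞 K)) (hJ : J ≠ ⊥) (hb : b ≠ ⊥) :
    Finite (Quotient (h12S J b)) := by
  have hJb : J * b ≠ ⊥ := mul_ne_zero hJ hb
  have hfin : Finite (𝓞 K ⧸ (J * b)) := Ideal.finiteQuotientOfFreeOfNeBot (J * b) hJb
  have h1 : Function.Surjective fun y : {y : 𝓞 K ⧸ (J * b) // ∃ x : H12P J b,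
      Ideal.Quotient.mk (J * b) x = y} => Quotient.mk (h12S J b) y.2.choose := by
    intro q
    induction q using Quotient.inductionOn with
    | h x =>
      refine ⟨⟨Ideal.Quotient.mk (J * b) x, x, rfl⟩, ?_⟩
      refine Quotient.sound ?_
      refine ⟨1, ?_⟩
      have h2 := (⟨x, rfl⟩ : ∃ x' : H12P J b, Ideal.Quotient.mk (J * b) (x' : 𝓞 K) =
        Ideal.Quotient.mk (J * b) x).choose_spec
      rw [Units.val_one, one_mul]
      exact Ideal.Quotient.eq.1 h2
  exact Finite.of_surjective _ h1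

theorem h12_prim (J b a : Ideal (𝓞 K)) (hb : b ≠ ⊥) (ha : IsCoprime a J) (x : 𝓞 K)
    (hx : a * b = Ideal.span {x}) : x ∈ H12P J b := by
  constructor
  · rw [← Ideal.span_singleton_le_iff_mem, ← hx]
    exact (Ideal.mul_le_right : a * b ≤ b)
  · intro w hw hxw
    have h1 : a * b ≤ w.asIdeal * b := by
      rw [hx, Ideal.span_singleton_le_iff_mem]
      exact hxw
    have h2 : w.asIdeal ∣ a := (mul_dvd_mul_iff_right hb).1 (Ideal.dvd_iff_le.2 h1)
    have h3 : a ≤ w.asIdeal := Ideal.dvd_iff_le.1 h2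
    have h4 : a ⊔ J ≤ w.asIdeal := sup_le h3 hw
    rw [Ideal.isCoprime_iff_sup_eq.1 ha] at h4
    exact w.isPrime.ne_top (top_le_iff.1 h4)

variable [Algebra F K]

theorem unit_cong (f b : Ideal (𝓞 K)) (hf : f ≠ ⊥) (hb : b ≠ ⊥) (c₀ : 𝓞 K) (hc : c₀ ∈ b)
    (hp : ∀ w : HeightOneSpectrum (𝓞 K), Ideal.span {3} * f ≤ w.asIdeal → c₀ ∉ w.asIdeal * b)
    (t : 𝓞 K) (ht : t * c₀ ∈ Ideal.span {3} * f * b) : t ∈ Ideal.span {3} * f := by
  have h3 : (Ideal.span {(3 : 𝓞 K)}) ≠ ⊥ := by
    rw [Ne, Ideal.span_singleton_eq_bot]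
    exact OfNat.ofNat_ne_zero 3
  exact h12_cong _ b (mul_ne_zero h3 hf) hb c₀ hc hp t ht

theorem exists_CD (f : Ideal (𝓞 K)) (hf : f ≠ ⊥) :
    ∃ (ι : Type) (_ : Fintype ι) (b : ι → Ideal (𝓞 K)) (c₀ : ι → 𝓞 K) (T : ι → Set (𝓞 K)),
      CD f ι b c₀ T := by
  have h3 : (Ideal.span {(3 : 𝓞 K)}) ≠ ⊥ := by
    rw [Ne, Ideal.span_singleton_eq_bot]
    exact OfNat.ofNat_ne_zero 3
  have h6 : (Ideal.span {(6 : 𝓞 K)}) ≠ ⊥ := by
    rw [Ne, Ideal.span_singleton_eq_bot]
    exact OfNat.ofNat_ne_zero 6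
  have hJ : Ideal.span {(3 : 𝓞 K)} * f ≠ ⊥ := mul_ne_zero h3 hf
  choose b hb hcop hcl using fun κ : ClassGroup (𝓞 K) =>
    exists_rep (Ideal.span {(6 : 𝓞 K)} * f) (mul_ne_zero h6 hf) κ
  have hfin : ∀ κ, Finite (Quotient (h12S (Ideal.span {(3 : 𝓞 K)} * f) (b κ))) := fun κ =>
    h12_finite _ _ hJ (hb κ)
  have hfin2 : Finite (Σ κ : ClassGroup (𝓞 K),
    Quotient (h12S (Ideal.span {(3 : 𝓞 K)} * f) (b κ))) := inferInstance
  choose T hT using fun i : (Σ κ : ClassGroup (𝓞 K),
    Quotient (h12S (Ideal.span {(3 : 𝓞 K)} * f) (b κ))) =>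
      h12_transv (Ideal.span {(3 : 𝓞 K)} * f) (XS (Ideal.span {3} * f * b i.1) (i.2.out : 𝓞 K))
  refine ⟨Σ κ : ClassGroup (𝓞 K), Quotient (h12S (Ideal.span {(3 : 𝓞 K)} * f) (b κ)),
    Fintype.ofFinite _, fun i => b i.1, fun i => (i.2.out : 𝓞 K), T, ?_⟩
  refine ⟨fun i => hb i.1, fun i => hcop i.1, fun i => i.2.out.2.1, fun i => i.2.out.2.2, hT, ?_⟩
  intro a ha hac
  have hκ : ∀ κ, (∃ x : 𝓞 K, a * b κ = Ideal.span {x}) →
      κ = (ClassGroup.mk0 ⟨a, mem_nonZeroDivisors_iff_ne_zero.2 ha⟩)⁻¹ := by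
    rintro κ ⟨x, hx⟩
    have h1 : ClassGroup.mk0 (⟨a, mem_nonZeroDivisors_iff_ne_zero.2 ha⟩ *
        ⟨b κ, mem_nonZeroDivisors_iff_ne_zero.2 (hb κ)⟩) = 1 := by
      rw [ClassGroup.mk0_eq_one_iff]
      exact ⟨⟨x, hx⟩⟩
    rw [map_mul, hcl κ] at h1
    exact eq_inv_of_mul_eq_one_right h1
  obtain ⟨x, hx⟩ : ∃ x : 𝓞 K, a *
      b ((ClassGroup.mk0 ⟨a, mem_nonZeroDivisors_iff_ne_zero.2 ha⟩)⁻¹) = Ideal.span {x} := by
    set κ := (ClassGroup.mk0 ⟨a, mem_nonZeroDivisors_iff_ne_zero.2 ha⟩)⁻¹ with hκd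
    have h1 : ClassGroup.mk0 (⟨a, mem_nonZeroDivisors_iff_ne_zero.2 ha⟩ *
        ⟨b κ, mem_nonZeroDivisors_iff_ne_zero.2 (hb κ)⟩) = 1 := by
      rw [map_mul, hcl κ, hκd, mul_inv_cancel]
    rw [ClassGroup.mk0_eq_one_iff] at h1
    obtain ⟨x, hx⟩ := h1.principal
    exact ⟨x, hx⟩
  generalize (ClassGroup.mk0 ⟨a, mem_nonZeroDivisors_iff_ne_zero.2 ha⟩)⁻¹ = κ at hκ hx
  have hxP := h12_prim (Ideal.span {(3 : 𝓞 K)} * f) (b κ) a (hb κ) hac x hx
  set q := Quotient.mk (h12S (Ideal.span {(3 : 𝓞 K)} * f) (b κ)) ⟨x, hxP⟩ with hq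
  obtain ⟨u, hu⟩ : (h12S (Ideal.span {(3 : 𝓞 K)} * f) (b κ)) ⟨x, hxP⟩ q.out :=
    (h12S (Ideal.span {(3 : 𝓞 K)} * f) (b κ)).iseqv.symm
      (Quotient.mk_out (s := h12S (Ideal.span {(3 : 𝓞 K)} * f) (b κ)) ⟨x, hxP⟩)
  obtain ⟨t, htT, u1, hu1, hut⟩ := (hT ⟨κ, q⟩).cover ((u : 𝓞 K) * x) hu
  have hspan : Ideal.span {t} = Ideal.span {x} := by
    have h1 : Ideal.span {(u : 𝓞 K) * x} = Ideal.span {x} := by
      rw [mul_comm, Ideal.span_singleton_mul_right_unit u.isUnit]
    have h2 : Ideal.span {(u1 : 𝓞 K) * t} = Ideal.span {t} := by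
      rw [mul_comm, Ideal.span_singleton_mul_right_unit u1.isUnit]
    rw [← h1, hut, h2]
  refine ⟨⟨⟨κ, q⟩, ⟨t, htT⟩⟩, ?_, ?_⟩
  · show a * b κ = Ideal.span {t}
    rw [hspan, hx]
  · rintro ⟨⟨κ', q'⟩, ⟨t', ht'T⟩⟩ h'
    have h' : a * b κ' = Ideal.span {t'} := h'
    obtain rfl : κ' = κ := hκ κ' ⟨t', h'⟩
    have h2 : Ideal.span {t} = Ideal.span {t'} := by rw [hspan, ← hx, h']
    obtain ⟨v, hv⟩ := Ideal.span_singleton_eq_span_singleton.1 h2
    have hv' : t' = (v : 𝓞 K) * t := by rw [← hv, mul_comm]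
    have m1 : t - (q.out : 𝓞 K) ∈ Ideal.span {3} * f * b κ' := (hT ⟨κ', q⟩).sub htT
    have m2 : t' - (q'.out : 𝓞 K) ∈ Ideal.span {3} * f * b κ' := (hT ⟨κ', q'⟩).sub ht'T
    have m3 : (v : 𝓞 K) * (q.out : 𝓞 K) - (q'.out : 𝓞 K) ∈ Ideal.span {3} * f * b κ' := by
      have e1 : (v : 𝓞 K) * (q.out : 𝓞 K) - (q'.out : 𝓞 K) =
          -(v : 𝓞 K) * (t - (q.out : 𝓞 K)) + (t' - (q'.out : 𝓞 K)) := by
        rw [hv']
        ring
      rw [e1]
      exact Ideal.add_mem _ (Ideal.mul_mem_left _ _ m1) m2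
    obtain rfl : q = q' := by
      have e2 : (h12S (Ideal.span {(3 : 𝓞 K)} * f) (b κ')) q.out q'.out := ⟨v, m3⟩
      have e3 := Quotient.sound (s := h12S (Ideal.span {(3 : 𝓞 K)} * f) (b κ')) e2
      rwa [Quotient.out_eq, Quotient.out_eq] at e3
    have m4 : ((v : 𝓞 K) - 1) * (q.out : 𝓞 K) ∈ Ideal.span {3} * f * b κ' := by
      have e4 : ((v : 𝓞 K) - 1) * (q.out : 𝓞 K) = (v : 𝓞 K) * (q.out : 𝓞 K) - (q.out : 𝓞 K) := by
        ring
      rw [e4]
      exact m3
    have m5 := unit_cong f (b κ') hf (hb κ') q.out q.out.2.1 q.out.2.2 _ m4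
    have m6 := (hT ⟨κ', q⟩).uniq t htT t' ht'T v m5 hv'
    subst m6
    rfl

end H55N
end

-- from Lib.H55R.D9
section

namespace H55R

open H55N

/-! Chunk RD9 (S), two lower bounds by compactness. fac_low: the function s -> |1 - q zeta q^(-s)| is continuous on [1,2] (q > 0) and has no zero: a zero gives |q q^(-s)| = q^(1-s) = 1,
so s = 1 and zeta = 1. IsCompact.exists_isMinOn. cst_low: for real s > 0, cst_eq gives Gamma(n s) cst(s) |Delta| = Gamma(s)^n with Gamma(s), Gamma(n s) <> 0, so |cst(s)| = |Gamma(s)|^n / (|Gamma(n s)| |Delta|), a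
continuous positive function on the compact interval (Complex.differentiableAt_Gamma or Real.Gamma with Real.Gamma_pos_of_pos, Complex.Gamma_ofReal). -/

theorem d9_compact (a b : ℝ) (hab : a ≤ b) (φ : ℝ → ℝ) (hφ : ContinuousOn φ (Set.Icc a b))
    (hp : ∀ s ∈ Set.Icc a b, 0 < φ s) : ∃ δ : ℝ, 0 < δ ∧ ∀ s ∈ Set.Icc a b, δ ≤ φ s := by
  obtain ⟨s₀, h1, h2⟩ := isCompact_Icc.exists_isMinOn (Set.nonempty_Icc.2 hab) hφ
  exact ⟨φ s₀, hp s₀ h1, fun s hs => h2 hs⟩

theorem fac_low (q : ℕ) (hq : 2 ≤ q) (ζ : ℂ) (h1 : ‖ζ‖ = 1) (hζ : ζ ≠ 1) :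
    ∃ δ : ℝ, 0 < δ ∧ ∀ s ∈ Set.Icc (1 : ℝ) 2,
      δ ≤ ‖1 - (q : ℂ) * (ζ * (q : ℂ) ^ (-(s : ℂ)))‖ := by
  have hq0 : (q : ℂ) ≠ 0 := by
    have : q ≠ 0 := by omega
    exact_mod_cast this
  refine d9_compact 1 2 (by norm_num) _ ?_ ?_
  · have h2 : Continuous fun s : ℝ => (q : ℂ) ^ (-(s : ℂ)) :=
      Continuous.const_cpow (by fun_prop) (Or.inl hq0)
    exact (continuous_norm.comp (continuous_const.sub
      (continuous_const.mul (continuous_const.mul h2)))).continuousOn
  · intro s hs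
    rw [norm_pos_iff]
    intro h
    have h3 : (q : ℂ) * (ζ * (q : ℂ) ^ (-(s : ℂ))) = 1 := (sub_eq_zero.1 h).symm
    have hq' : (0 : ℝ) < q := by exact_mod_cast (by omega : 0 < q)
    have h4 : (q : ℝ) * (q : ℝ) ^ (-s) = 1 := by
      have h5 := congrArg norm h3
      rw [norm_mul, norm_mul, h1, one_mul, NormOneClass.norm_one, Complex.norm_natCast,
        Complex.norm_natCast_cpow_of_pos (by omega)] at h5
      simpa using h5
    have h5 : (q : ℝ) ^ (1 - s) = 1 := by
      rw [sub_eq_add_neg, Real.rpow_add hq', Real.rpow_one]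
      exact h4
    have h6 : s = 1 := by
      by_contra hne
      have h7 : 1 - s < 0 := by
        rcases lt_or_eq_of_le hs.1 with h | h
        · linarith
        · exact absurd h.symm hne
      have h8 : (q : ℝ) ^ (1 - s) < 1 := Real.rpow_lt_one_of_one_lt_of_neg
        (by exact_mod_cast (by omega : 1 < q)) h7
      linarith
    apply hζ
    rw [h6] at h3
    have h7 : (q : ℂ) ^ (-((1 : ℝ) : ℂ)) = (q : ℂ)⁻¹ := by
      rw [Complex.ofReal_one, Complex.cpow_neg_one]
    rw [h7] at h3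
    field_simp at h3
    exact h3

theorem cst_low {m : ℕ} (lm : Fin (m + 1) → Fin m → ℝ) (h0 : ∀ j, ∑ i, lm i j = 0)
    (hD : Delta lm ≠ 0) :
    ∃ δ : ℝ, 0 < δ ∧ ∀ s ∈ Set.Icc (3 / 2 : ℝ) (5 / 2), δ ≤ ‖cst lm (s : ℂ)‖ := by
  have hΔ : 0 < |Delta lm| := abs_pos.2 hD
  have key : ∀ s : ℝ, 0 < s → ‖cst lm (s : ℂ)‖ =
      Real.Gamma s ^ (m + 1) / (Real.Gamma ((m + 1 : ℕ) * s) * |Delta lm|) := by
    intro s hs
    have h1 := cst_eq lm h0 hD (s : ℂ) (by simpa using hs)
    have h2 := congrArg norm h1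
    have e1 : Complex.Gamma ((m + 1 : ℕ) * (s : ℂ)) = ((Real.Gamma ((m + 1 : ℕ) * s) : ℝ) : ℂ) := by
      rw [← Complex.Gamma_ofReal]
      push_cast
      rfl
    have hp1 : 0 < Real.Gamma s := Real.Gamma_pos_of_pos hs
    have hp2 : 0 < Real.Gamma ((m + 1 : ℕ) * s) := Real.Gamma_pos_of_pos (by positivity)
    rw [norm_mul, norm_mul, norm_pow, e1, Complex.Gamma_ofReal, Complex.norm_real, Complex.norm_real,
      Complex.norm_real, Real.norm_of_nonneg hp1.le, Real.norm_of_nonneg hp2.le,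
      Real.norm_of_nonneg hΔ.le] at h2
    rw [eq_div_iff (by positivity), ← h2]
    ring
  have hc : ∀ s : ℝ, 0 < s → ContinuousAt Real.Gamma s := fun s hs =>
    (Real.differentiableAt_Gamma fun n h => by
      have : (0 : ℝ) ≤ n := Nat.cast_nonneg n
      linarith).continuousAt
  obtain ⟨δ, hδ, h⟩ := d9_compact (3 / 2) (5 / 2) (by norm_num)
    (fun s => Real.Gamma s ^ (m + 1) / (Real.Gamma ((m + 1 : ℕ) * s) * |Delta lm|)) (by
      intro s hs
      have hs0 : 0 < s := by
        have := hs.1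
        linarith
      have hp2 : 0 < Real.Gamma ((m + 1 : ℕ) * s) := Real.Gamma_pos_of_pos (by positivity)
      refine ContinuousAt.continuousWithinAt ?_
      refine ((hc s hs0).pow _).div (ContinuousAt.mul ?_ continuousAt_const) (by positivity)
      exact ContinuousAt.comp (f := fun s : ℝ => ((m + 1 : ℕ) : ℝ) * s) (hc _ (by positivity))
        (by fun_prop)) (by
      intro s hs
      have hs0 : 0 < s := by
        have := hs.1
        linarith
      have hp1 : 0 < Real.Gamma s := Real.Gamma_pos_of_pos hs0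
      have hp2 : 0 < Real.Gamma ((m + 1 : ℕ) * s) := Real.Gamma_pos_of_pos (by positivity)
      positivity)
  refine ⟨δ, hδ, fun s hs => ?_⟩
  have hs0 : 0 < s := by
    have := hs.1
    linarith
  rw [key s hs0]
  exact h s hs

end H55R
end
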