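import Mathlib
import Pool.Agent.Lib.H1M.PP.M005
import Pool.Agent.Lib.H1M.PP.M012
import Pool.Agent.Lib.H1M.PP.M022
import Pool.Agent.Lib.H1M.PP.M024
import Pool.Agent.Lib.H1M.PP.M028

/-! Merged copies (to shorten the build) of Lib.H55N.R1, Lib.H55N.R5, Lib.H55N.U3, Lib.H55N.U5. -/

-- from Lib.H55N.R1
section

open NumberField IsDedekindDomain

namespace H55N

open H55B H55C

variable {K : Type} [Field K] [NumberField K] [Algebra F K] {m : ℕ}

/-! Chunk R1 (M). Rules for HasReg. g is bounded (gw is a finite product of 1 or 1 - p_i). summable_cut: for h bounded on X and R >= 1 the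
function g h cut is absolutely summable over X: |cut| <= C sz^(-2(m+2)) (cut_le; 0 is not in X), 2(m+2) > 2(m+1), sum_sz (restricted to the subtype X:
Summable.subtype / comp_injective). Then add, smul, sum: tsum_add etc. for R >= 1 (Filter.Tendsto.congr'). unique: B = 1, tendsto_nhds_unique. congr: only
values on X matter. Jv_eq: definition and unique; Jv_congr. -/

theorem g_bdd (D : Ctx K m) : ∃ C : ℝ, ∀ x, ‖D.g x‖ ≤ C := by
  refine ⟨∏ i, (1 + (D.p i : ℝ)), fun x => ?_⟩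
  unfold Ctx.g gw
  rw [norm_prod]
  refine Finset.prod_le_prod (fun i _ => norm_nonneg _) fun i _ => ?_
  split_ifs
  · refine (norm_sub_le _ _).trans ?_
    simp
  · simp

theorem summable_cut (D : Ctx K m) (hD : D.Ok) (h : 𝓞 K → ℂ) (hb : ∃ C : ℝ, ∀ x ∈ D.X, ‖h x‖ ≤ C)
    (B : Matrix (Fin (m + 1)) (Fin (m + 1)) ℂ) (hB : B.det ≠ 0) (R : ℝ) (hR : 1 ≤ R) :
    Summable fun x : D.X => ‖h x * (D.cut B R x : ℂ)‖ := by
  obtain ⟨C, hC⟩ := hb
  obtain ⟨C', hC'⟩ := cut_le D hD.emb B hB R hR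
  have h1 : Summable fun x : 𝓞 K => D.sz x ^ (-(2 * (m + 2) : ℝ)) :=
    sum_sz D hD.emb _ (by linarith)
  have h2 : Summable fun x : D.X => D.sz (x : 𝓞 K) ^ (-(2 * (m + 2) : ℝ)) :=
    h1.comp_injective Subtype.val_injective
  refine (h2.mul_left (|C| * C')).of_nonneg_of_le (fun x => norm_nonneg _) fun x => ?_
  rw [norm_mul, Complex.norm_real, Real.norm_eq_abs, mul_assoc]
  have h3 := hC' x (D.X_ne hD.ne x.2)
  exact mul_le_mul ((hC x x.2).trans (le_abs_self C)) h3 (abs_nonneg _) (abs_nonneg _)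

theorem r1_summable (D : Ctx K m) (hD : D.Ok) (h : 𝓞 K → ℂ) (hb : ∃ C : ℝ, ∀ x ∈ D.X, ‖h x‖ ≤ C)
    (B : Matrix (Fin (m + 1)) (Fin (m + 1)) ℂ) (hB : B.det ≠ 0) (R : ℝ) (hR : 1 ≤ R) :
    Summable fun x : D.X => D.g x * h x * (D.cut B R x : ℂ) := by
  apply Summable.of_norm
  apply summable_cut D hD (fun x => D.g x * h x) _ B hB R hR
  obtain ⟨C, hC⟩ := hb
  obtain ⟨C', hC'⟩ := g_bdd D
  refine ⟨C' * C, fun x hx => ?_⟩
  rw [norm_mul]
  exact mul_le_mul (hC' x) (hC x hx) (norm_nonneg _) ((norm_nonneg _).trans (hC' x))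

theorem HasReg.unique (D : Ctx K m) {h : 𝓞 K → ℂ} {S S' : ℂ} (h1 : D.HasReg h S)
    (h2 : D.HasReg h S') : S = S' := by
  have hB : (1 : Matrix (Fin (m + 1)) (Fin (m + 1)) ℂ).det ≠ 0 := by
    rw [Matrix.det_one]
    exact one_ne_zero
  exact tendsto_nhds_unique (h1.2 1 hB) (h2.2 1 hB)

theorem HasReg.congr (D : Ctx K m) {h k : 𝓞 K → ℂ} {S : ℂ} (h1 : D.HasReg h S)
    (hk : ∀ x ∈ D.X, h x = k x) : D.HasReg k S := by
  obtain ⟨⟨C, hC⟩, h2⟩ := h1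
  refine ⟨⟨C, fun x hx => by rw [← hk x hx]; exact hC x hx⟩, fun B hB => ?_⟩
  refine (h2 B hB).congr fun R => ?_
  exact tsum_congr fun x => by rw [hk x x.2]

theorem HasReg.smul (D : Ctx K m) {h : 𝓞 K → ℂ} {S : ℂ} (h1 : D.HasReg h S) (c : ℂ) :
    D.HasReg (fun x => c * h x) (c * S) := by
  obtain ⟨⟨C, hC⟩, h2⟩ := h1
  refine ⟨⟨‖c‖ * C, fun x hx => ?_⟩, fun B hB => ?_⟩
  · rw [norm_mul]
    exact mul_le_mul_of_nonneg_left (hC x hx) (norm_nonneg _)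
  · refine ((h2 B hB).const_mul c).congr fun R => ?_
    rw [← tsum_mul_left]
    exact tsum_congr fun x => by ring

theorem HasReg.add (D : Ctx K m) (hD : D.Ok) {h k : 𝓞 K → ℂ} {S S' : ℂ} (h1 : D.HasReg h S)
    (h2 : D.HasReg k S') : D.HasReg (fun x => h x + k x) (S + S') := by
  obtain ⟨⟨C, hC⟩, h3⟩ := h1
  obtain ⟨⟨C', hC'⟩, h4⟩ := h2
  refine ⟨⟨C + C', fun x hx => (norm_add_le _ _).trans (add_le_add (hC x hx) (hC' x hx))⟩,
    fun B hB => ?_⟩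
  refine ((h3 B hB).add (h4 B hB)).congr' ?_
  filter_upwards [Filter.eventually_ge_atTop 1] with R hR
  rw [← (r1_summable D hD h ⟨C, hC⟩ B hB R hR).tsum_add (r1_summable D hD k ⟨C', hC'⟩ B hB R hR)]
  exact tsum_congr fun x => by ring

theorem HasReg.zero (D : Ctx K m) : D.HasReg (fun _ => 0) 0 := by
  refine ⟨⟨0, fun x _ => by simp⟩, fun B _ => ?_⟩
  simp

theorem HasReg.sum (D : Ctx K m) (hD : D.Ok) {κ : Type} (s : Finset κ) (h : κ → 𝓞 K → ℂ)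
    (S : κ → ℂ) (h1 : ∀ i ∈ s, D.HasReg (h i) (S i)) :
    D.HasReg (fun x => ∑ i ∈ s, h i x) (∑ i ∈ s, S i) := by
  classical
  induction s using Finset.induction_on with
  | empty =>
    simp only [Finset.sum_empty]
    exact HasReg.zero D
  | insert a s ha ih =>
    simp only [Finset.sum_insert ha]
    exact HasReg.add D hD (h1 a (Finset.mem_insert_self a s))
      (ih fun i hi => h1 i (Finset.mem_insert_of_mem hi))

theorem Jv_eq (D : Ctx K m) {L : Fin (m + 1) → Lab K m} {S : ℂ} (h : D.HasReg (D.Idet L) S) :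
    D.Jv L = S := by
  have h1 : ∃ S, D.HasReg (D.Idet L) S := ⟨S, h⟩
  unfold Ctx.Jv
  rw [dif_pos h1]
  exact HasReg.unique D h1.choose_spec h

/-- Degenerate simplices: two equal rows. -/
theorem Jv_degenerate (D : Ctx K m) (L : Fin (m + 1) → Lab K m)
    (h : ∃ j : Fin m, L j.castSucc = L j.succ) : D.Jv L = 0 := by
  obtain ⟨j, hj⟩ := h
  apply Jv_eq
  refine HasReg.congr D (HasReg.zero D) fun x _ => ?_
  symm
  unfold Ctx.Idet
  have hne : j.castSucc ≠ j.succ := (Fin.castSucc_lt_succ).ne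
  refine Matrix.det_zero_of_row_eq hne ?_
  funext i
  simp only [Matrix.of_apply]
  rw [hj]

end H55N
end

-- from Lib.H55N.R5
section

open NumberField IsDedekindDomain

namespace H55N

open H55B H55C

variable {K : Type} [Field K] [NumberField K] [Algebra F K] {m : ℕ}

/-! Chunk R5 (M). Invariance under units v with v X = X and N(v) = 1.
Idet(v L)(x) = Idet(L)(v x): row(v.T t)(x)_i = conj(x_i)|v_i|^2 t_i / sum_k |v_k|^2 t_k |x_k|^2 = v_i row(T t)(v x)_i, and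
row(v.A a)(x)_i = v_i a_i/Tr(v a x) = v_i row(A a)(v x)_i; the columns give prod v_i = 1 (Matrix.det_mul_row). x -> v x is a bijection of X
(v x - c0 = v (x - c0) + (v - 1) c0; inverse v^(-1)), g(v x) = g(x) (x in c_i iff v x in c_i), and cut B R x = cut (B diag(σ_j v)^(-1)) R (v x). So
HasReg (Idet L) S implies HasReg (Idet (v L)) S (for B use B diag(σ_j v)^(-1), of nonzero determinant), and conversely with v^(-1)
(act v (act v^(-1) l) = l). Jv: by cases on existence. -/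

omit [NumberField K] [Algebra F K] in
theorem R5_mul (s : K →+* ℂ) (v x : 𝓞 K) : s ((v * x : 𝓞 K) : K) = s (v : K) * s (x : K) := by
  have h : ((v * x : 𝓞 K) : K) = (v : K) * (x : K) := map_mul (algebraMap (𝓞 K) K) v x
  rw [h, map_mul]

theorem R5_row (D : Ctx K m) (v : (𝓞 K)ˣ) (l : Lab K m) (x : 𝓞 K) (i : Fin (m + 1)) :
    D.row (D.act v l) x i = D.σ i ((v : 𝓞 K) : K) * D.row l (v * x) i := by
  cases l with
  | T t =>
    show (starRingEnd ℂ) (D.σ i x) * ((‖D.σ i ((v : 𝓞 K) : K)‖ ^ 2 * t i : ℝ) : ℂ) /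
        (D.Q (fun i => ‖D.σ i ((v : 𝓞 K) : K)‖ ^ 2 * t i) x : ℂ) =
      D.σ i ((v : 𝓞 K) : K) * ((starRingEnd ℂ) (D.σ i ((v * x : 𝓞 K) : K)) * t i / D.Q t (v * x))
    have hQ : D.Q (fun i => ‖D.σ i ((v : 𝓞 K) : K)‖ ^ 2 * t i) x = D.Q t (v * x) := by
      unfold Ctx.Q
      refine Finset.sum_congr rfl fun k _ => ?_
      have h := R5_mul (D.σ k) (v : 𝓞 K) x
      show ‖D.σ k ((v : 𝓞 K) : K)‖ ^ 2 * t k * ‖D.σ k (x : K)‖ ^ 2 =
        t k * ‖D.σ k (((v : 𝓞 K) * x : 𝓞 K) : K)‖ ^ 2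
      rw [h, norm_mul]
      ring
    rw [hQ]
    have h1 : ((‖D.σ i ((v : 𝓞 K) : K)‖ ^ 2 * t i : ℝ) : ℂ) =
        D.σ i ((v : 𝓞 K) : K) * (starRingEnd ℂ) (D.σ i ((v : 𝓞 K) : K)) * t i := by
      rw [Complex.mul_conj, Complex.normSq_eq_norm_sq]
      push_cast
      ring
    rw [h1, R5_mul (D.σ i) (v : 𝓞 K) x, map_mul]
    ring
  | A a =>
    show D.σ i (((v : 𝓞 K) : K) * a) / D.Tr (((v : 𝓞 K) : K) * a) x =
      D.σ i ((v : 𝓞 K) : K) * (D.σ i a / D.Tr a (v * x))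
    have hT : D.Tr (((v : 𝓞 K) : K) * a) x = D.Tr a (v * x) := by
      unfold Ctx.Tr
      refine Finset.sum_congr rfl fun k _ => ?_
      congr 1
      have h : (((v : 𝓞 K) * x : 𝓞 K) : K) = ((v : 𝓞 K) : K) * (x : K) :=
        map_mul (algebraMap (𝓞 K) K) (v : 𝓞 K) x
      rw [h]
      ring
    rw [hT, map_mul]
    ring

theorem R5_Idet (D : Ctx K m) (v : (𝓞 K)ˣ) (hN : ∏ i, D.σ i ((v : 𝓞 K) : K) = 1)
    (L : Fin (m + 1) → Lab K m) (x : 𝓞 K) :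
    D.Idet (fun j => D.act v (L j)) x = D.Idet L (v * x) := by
  unfold Ctx.Idet
  have h1 : (Matrix.of fun j i => D.row (D.act v (L j)) x i) =
      Matrix.of fun j i => D.σ i ((v : 𝓞 K) : K) * (Matrix.of fun j i => D.row (L j) (v * x) i) j i := by
    ext j i
    simp only [Matrix.of_apply]
    exact R5_row D v (L j) x i
  rw [h1, Matrix.det_mul_row, hN, one_mul]

theorem R5_inv (D : Ctx K m) (v : (𝓞 K)ˣ) (hv : ((v : 𝓞 K) - 1) * D.c₀ ∈ D.I) :
    (((v⁻¹ : (𝓞 K)ˣ) : 𝓞 K) - 1) * D.c₀ ∈ D.I := by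
  have h1 : (((v⁻¹ : (𝓞 K)ˣ) : 𝓞 K) - 1) * D.c₀ =
      -((v⁻¹ : (𝓞 K)ˣ) : 𝓞 K) * (((v : 𝓞 K) - 1) * D.c₀) := by
    have h2 : ((v⁻¹ : (𝓞 K)ˣ) : 𝓞 K) * (v : 𝓞 K) = 1 := v.inv_mul
    linear_combination (D.c₀) * h2
  rw [h1]
  exact D.I.mul_mem_left _ hv

theorem R5_memX (D : Ctx K m) (v : (𝓞 K)ˣ) (hv : ((v : 𝓞 K) - 1) * D.c₀ ∈ D.I) {x : 𝓞 K}
    (hx : x ∈ D.X) : (v : 𝓞 K) * x ∈ D.X := by
  rw [Ctx.mem_X] at hx ⊢
  have : (v : 𝓞 K) * x - D.c₀ = v * (x - D.c₀) + (v - 1) * D.c₀ := by ring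
  rw [this]
  exact D.I.add_mem (D.I.mul_mem_left _ hx) hv

/-- Multiplication by v as a permutation of X. -/
noncomputable def R5_equiv (D : Ctx K m) (v : (𝓞 K)ˣ) (hv : ((v : 𝓞 K) - 1) * D.c₀ ∈ D.I) :
    D.X ≃ D.X where
  toFun x := ⟨v * x, R5_memX D v hv x.2⟩
  invFun x := ⟨((v⁻¹ : (𝓞 K)ˣ) : 𝓞 K) * x, R5_memX D v⁻¹ (R5_inv D v hv) x.2⟩
  left_inv x := by
    apply Subtype.ext
    show ((v⁻¹ : (𝓞 K)ˣ) : 𝓞 K) * (v * x) = x
    rw [← mul_assoc, v.inv_mul, one_mul]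
  right_inv x := by
    apply Subtype.ext
    show (v : 𝓞 K) * (((v⁻¹ : (𝓞 K)ˣ) : 𝓞 K) * x) = x
    rw [← mul_assoc, v.mul_inv, one_mul]

theorem R5_g (D : Ctx K m) (v : (𝓞 K)ˣ) (x : 𝓞 K) : D.g (v * x) = D.g x := by
  classical
  unfold Ctx.g gw
  refine Finset.prod_congr rfl fun i _ => ?_
  have h : (v : 𝓞 K) * x ∈ D.c i ↔ x ∈ D.c i := by
    constructor
    · intro h
      have h2 := (D.c i).mul_mem_left ((v⁻¹ : (𝓞 K)ˣ) : 𝓞 K) h
      rwa [← mul_assoc, v.inv_mul, one_mul] at h2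
    · exact fun h => (D.c i).mul_mem_left _ h
  by_cases hx : x ∈ D.c i
  · rw [if_pos (h.2 hx), if_pos hx]
  · rw [if_neg (fun h' => hx (h.1 h')), if_neg hx]

theorem R5_ne (D : Ctx K m) (v : (𝓞 K)ˣ) (j : Fin (m + 1)) : D.σ j ((v : 𝓞 K) : K) ≠ 0 :=
  (map_ne_zero _).2 (NumberField.Units.coe_ne_zero _)

theorem R5_cut (D : Ctx K m) (v : (𝓞 K)ˣ) (B : Matrix (Fin (m + 1)) (Fin (m + 1)) ℂ) (R : ℝ)
    (x : 𝓞 K) : D.cut (B * Matrix.diagonal fun j => (D.σ j ((v : 𝓞 K) : K))⁻¹) R (v * x) =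
      D.cut B R x := by
  unfold Ctx.cut
  have h : ∀ i, ∑ j, (B * Matrix.diagonal fun j => (D.σ j ((v : 𝓞 K) : K))⁻¹) i j *
      D.σ j ((v * x : 𝓞 K) : K) = ∑ j, B i j * D.σ j x := by
    intro i
    refine Finset.sum_congr rfl fun j _ => ?_
    rw [Matrix.mul_diagonal, R5_mul (D.σ j) (v : 𝓞 K) x]
    have := R5_ne D v j
    field_simp
  simp only [h]

theorem R5_reg (D : Ctx K m) (v : (𝓞 K)ˣ) (hv : ((v : 𝓞 K) - 1) * D.c₀ ∈ D.I)
    {h : 𝓞 K → ℂ} {S : ℂ} (hS : D.HasReg h S) : D.HasReg (fun x => h (v * x)) S := by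
  obtain ⟨⟨C, hC⟩, hB⟩ := hS
  refine ⟨⟨C, fun x hx => hC _ (R5_memX D v hv hx)⟩, fun B hdet => ?_⟩
  have hd : (B * Matrix.diagonal fun j => (D.σ j ((v : 𝓞 K) : K))⁻¹).det ≠ 0 := by
    rw [Matrix.det_mul, Matrix.det_diagonal]
    exact mul_ne_zero hdet (Finset.prod_ne_zero_iff.2 fun j _ => inv_ne_zero (R5_ne D v j))
  have h1 := hB _ hd
  refine h1.congr fun R => ?_
  rw [← (R5_equiv D v hv).tsum_eq]
  refine tsum_congr fun x => ?_
  show D.g (v * x) * h (v * x) * (D.cut _ R (v * x) : ℂ) = _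
  rw [R5_g, R5_cut]

theorem reg_act (D : Ctx K m) (v : (𝓞 K)ˣ) (hv : ((v : 𝓞 K) - 1) * D.c₀ ∈ D.I)
    (hN : ∏ i, D.σ i ((v : 𝓞 K) : K) = 1) (L : Fin (m + 1) → Lab K m) (S : ℂ) :
    D.HasReg (D.Idet fun j => D.act v (L j)) S ↔ D.HasReg (D.Idet L) S := by
  have h1 : (D.Idet fun j => D.act v (L j)) = fun x => D.Idet L (v * x) :=
    funext fun x => R5_Idet D v hN L x
  rw [h1]
  constructor
  · intro h
    have h2 := R5_reg D v⁻¹ (R5_inv D v hv) h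
    have h3 : (fun x : 𝓞 K => D.Idet L (v * (((v⁻¹ : (𝓞 K)ˣ) : 𝓞 K) * x))) = D.Idet L := by
      funext x
      rw [← mul_assoc, v.mul_inv, one_mul]
    rwa [h3] at h2
  · exact fun h => R5_reg D v hv h

theorem Jv_act (D : Ctx K m) (v : (𝓞 K)ˣ) (hv : ((v : 𝓞 K) - 1) * D.c₀ ∈ D.I)
    (hN : ∏ i, D.σ i ((v : 𝓞 K) : K) = 1) (L : Fin (m + 1) → Lab K m) :
    D.Jv (fun j => D.act v (L j)) = D.Jv L := by
  by_cases h : ∃ S, D.HasReg (D.Idet L) S
  · obtain ⟨S, hS⟩ := h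
    rw [Jv_eq D hS, Jv_eq D ((reg_act D v hv hN L S).2 hS)]
  · have h' : ¬ ∃ S, D.HasReg (D.Idet fun j => D.act v (L j)) S :=
      fun ⟨S, hS⟩ => h ⟨S, (reg_act D v hv hN L S).1 hS⟩
    unfold Ctx.Jv
    rw [dif_neg h, dif_neg h']

/-- The units v with v X = X. -/
def R5_sub (D : Ctx K m) : Subgroup (𝓞 K)ˣ where
  carrier := {v | ((v : 𝓞 K) - 1) * D.c₀ ∈ D.I}
  one_mem' := by simp
  mul_mem' := by
    intro a b ha hb
    have : ((a * b : (𝓞 K)ˣ) : 𝓞 K) - 1 = a * (b - 1) + (a - 1) := by push_cast; ring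
    rw [Set.mem_ofPred_eq, this, add_mul, mul_assoc]
    exact D.I.add_mem (D.I.mul_mem_left _ hb) ha
  inv_mem' := fun {a} ha => R5_inv D a ha

/-- The units of norm one. -/
def R5_sub1 (D : Ctx K m) : Subgroup (𝓞 K)ˣ where
  carrier := {v | ∏ i, D.σ i ((v : 𝓞 K) : K) = 1}
  one_mem' := by simp
  mul_mem' := by
    intro a b ha hb
    rw [Set.mem_ofPred_eq] at ha hb ⊢
    simp only [Units.val_mul, map_mul, Finset.prod_mul_distrib, ha, hb, mul_one]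
  inv_mem' := by
    intro a ha
    rw [Set.mem_ofPred_eq] at ha ⊢
    have h : (∏ i, D.σ i ((a : 𝓞 K) : K)) * ∏ i, D.σ i (((a⁻¹ : (𝓞 K)ˣ) : 𝓞 K) : K) = 1 := by
      rw [← Finset.prod_mul_distrib]
      refine Finset.prod_eq_one fun i _ => ?_
      rw [← map_mul, ← map_mul, a.mul_inv, map_one, map_one]
    rwa [ha, one_mul] at h

omit [NumberField K] [Algebra F K] in
theorem R5_coe (u : Fin m → (𝓞 K)ˣ) (z : Fin m → ℤ) (s : K →+* ℂ) :
    s ((uu u z : 𝓞 K) : K) = ∏ j, (s ((u j : 𝓞 K) : K)) ^ z j := by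
  let f : (𝓞 K)ˣ →* ℂˣ := Units.map ((s.comp (algebraMap (𝓞 K) K) : 𝓞 K →+* ℂ) : 𝓞 K →* ℂ)
  have h1 : f (uu u z) = ∏ j, f (u j) ^ z j := by
    unfold uu
    rw [map_prod]
    exact Finset.prod_congr rfl fun j _ => map_zpow f _ _
  have h2 := congrArg (fun t : ℂˣ => (t : ℂ)) h1
  simp only [Units.coe_prod, Units.val_zpow_eq_zpow_val] at h2
  exact h2

/-- The group generated by the units u. -/
theorem uu_act (D : Ctx K m) (u : Fin m → (𝓞 K)ˣ) (hu : D.UOk u) (z : Fin m → ℤ) :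
    ((uu u z : 𝓞 K) - 1) * D.c₀ ∈ D.I ∧ ∏ i, D.σ i ((uu u z : 𝓞 K) : K) = 1 ∧
      ∀ i, ‖D.σ i ((uu u z : 𝓞 K) : K)‖ ^ 2 = Real.exp (∑ j, (z j : ℝ) * D.lm u i j) := by
  refine ⟨?_, ?_, ?_⟩
  · have : uu u z ∈ R5_sub D :=
      Subgroup.prod_mem _ fun j _ => Subgroup.zpow_mem _ (hu.act j) _
    exact this
  · have : uu u z ∈ R5_sub1 D :=
      Subgroup.prod_mem _ fun j _ => Subgroup.zpow_mem _ (hu.norm j) _
    exact this
  · intro i
    rw [R5_coe, norm_prod, ← Finset.prod_pow, Real.exp_sum]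
    refine Finset.prod_congr rfl fun j _ => ?_
    have h1 : 0 < ‖D.σ i ((u j : 𝓞 K) : K)‖ := norm_pos_iff.2 (R5_ne D (u j) i)
    have h2 : ‖D.σ i ((u j : 𝓞 K) : K) ^ z j‖ = Real.exp ((z j : ℝ) *
        Real.log ‖D.σ i ((u j : 𝓞 K) : K)‖) := by
      rw [norm_zpow, ← Real.log_zpow, Real.exp_log (zpow_pos h1 _)]
    rw [h2, ← Real.exp_nat_mul]
    congr 1
    unfold Ctx.lm
    push_cast
    ring

theorem lm_sum (D : Ctx K m) (u : Fin m → (𝓞 K)ˣ) (hu : D.UOk u) (j : Fin m) :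
    ∑ i, D.lm u i j = 0 := by
  unfold Ctx.lm
  rw [← Finset.mul_sum, ← Real.log_prod (fun i _ => norm_ne_zero_iff.2 (R5_ne D (u j) i)),
    ← norm_prod, hu.norm j, norm_one, Real.log_one, mul_zero]

end H55N
end

-- from Lib.H55N.U3
section

open NumberField IsDedekindDomain MeasureTheory

namespace H55N

open H55B H55C

variable {K : Type} [Field K] [NumberField K] [Algebra F K] {m : ℕ}

/-! Chunk U3 (L). Unfolding. n = m+1, r = Re s > 3/2, lm = D.lm u, Fz(x) = g(x) conj N(x) Q_{tt z}(x)^(-n s).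
(a) Q_{tt z}(u^a x) = Q_{tt(z+a)}(x) and N(u^a x) = N(x) (uu_act; tt lm (z + a) i = tt lm z i * |σ_i u^a|^2), g(u^a x) = g(x).
(b) sum_{x in X} int_[0,1]^m |Fz(x)| dz <= C sum_X sz^n sz^(-2 n r) < infinity (|N x| <= sz^n, Q >= c sz^2 uniformly for z in the cube (Q_low), 2nr - n > 2n, sum_sz).
So int_cube sum_X Fz(x) dz = sum_X int_cube Fz(x) dz (hasSum_integral_of_summable_integral_norm or integral_tsum).
(c) By the bijection (a, x) -> u^a x from Z^m x T to X (T as in hbij; it maps into X by uu_act) the last sum is sum_{x in T} sum_a int_cube F_{z+a}(x) dz =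
sum_{x in T} int_{R^m} Fz(x) dz (tiling) = sum_{x in T} g(x) conj N(x) (prod |x_i|^2)^(-s) cst(s) (shift_eq with y_i = |σ_i x|^2 > 0; x <> 0) and
(prod |x_i|^2)^(-s) conj N = |N x|^(-2s) conj N = nf s x (norm_eq; cpow of a positive real).
(d) Absolute convergence of the sum over T: the same with g, s replaced by |g|, r (use norms: |g(x) nf s x| cst(r) is the integral over R^m of |Fz(x)|, cst(r) > 0: cst_eq;
tiling_lintegral or tiling for the norm). -/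

theorem u3_sz_pos (D : Ctx K m) (x : 𝓞 K) : 1 ≤ D.sz x := by
  unfold Ctx.sz
  have : 0 ≤ ∑ i, ‖D.σ i x‖ := Finset.sum_nonneg fun i _ => norm_nonneg _
  linarith

theorem u3_N_le (D : Ctx K m) (x : 𝓞 K) : ‖D.N x‖ ≤ D.sz x ^ (m + 1) := by
  unfold Ctx.N
  rw [norm_prod]
  have h1 : ∀ i, ‖D.σ i x‖ ≤ D.sz x := by
    intro i
    unfold Ctx.sz
    have := Finset.single_le_sum (f := fun i => ‖D.σ i x‖) (fun i _ => norm_nonneg _)
      (Finset.mem_univ i)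
    linarith
  calc ∏ i, ‖D.σ i x‖ ≤ ∏ _i : Fin (m + 1), D.sz x :=
        Finset.prod_le_prod (fun i _ => norm_nonneg _) fun i _ => h1 i
    _ = D.sz x ^ (m + 1) := by simp

theorem u3_fs_le (D : Ctx K m) (t : Fin (m + 1) → ℝ) (s : ℂ) (hs : 0 < s.re) (c : ℝ) (hc : 0 < c)
    (x : 𝓞 K) (hx : c * D.sz x ^ 2 ≤ D.Q t x) :
    ‖D.fs t s x‖ ≤ c ^ (-((m + 1 : ℕ) * s.re)) * D.sz x ^ (-((2 * s.re - 1) * (m + 1 : ℝ))) := by
  have hsz := u3_sz_pos D x
  have hsz0 : 0 < D.sz x := by linarith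
  have hcs : 0 < c * D.sz x ^ 2 := by positivity
  have hQ : 0 < D.Q t x := lt_of_lt_of_le hcs hx
  unfold Ctx.fs
  rw [norm_mul, RCLike.norm_conj, Complex.norm_cpow_eq_rpow_re_of_pos hQ]
  have hre : (-(((m + 1 : ℕ) : ℂ) * s)).re = -(((m + 1 : ℕ) : ℝ) * s.re) := by
    rw [Complex.neg_re, ← Complex.ofReal_natCast, Complex.re_ofReal_mul]
  rw [hre]
  have hneg : -(((m + 1 : ℕ) : ℝ) * s.re) ≤ 0 := by
    have : 0 ≤ ((m + 1 : ℕ) : ℝ) * s.re := by positivity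
    linarith
  have h1 : D.Q t x ^ (-(((m + 1 : ℕ) : ℝ) * s.re)) ≤
      (c * D.sz x ^ 2) ^ (-(((m + 1 : ℕ) : ℝ) * s.re)) :=
    Real.rpow_le_rpow_of_nonpos hcs hx hneg
  have h2 : (c * D.sz x ^ 2) ^ (-(((m + 1 : ℕ) : ℝ) * s.re)) =
      c ^ (-(((m + 1 : ℕ) : ℝ) * s.re)) * D.sz x ^ (2 * (-(((m + 1 : ℕ) : ℝ) * s.re))) := by
    rw [Real.mul_rpow hc.le (by positivity), Real.rpow_mul hsz0.le]
    norm_cast
  have h3 : D.sz x ^ (m + 1) * D.sz x ^ (2 * (-(((m + 1 : ℕ) : ℝ) * s.re))) =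
      D.sz x ^ (-((2 * s.re - 1) * (m + 1 : ℝ))) := by
    rw [← Real.rpow_natCast, ← Real.rpow_add hsz0]
    congr 1
    push_cast
    ring
  calc ‖D.N x‖ * D.Q t x ^ (-(((m + 1 : ℕ) : ℝ) * s.re))
      ≤ D.sz x ^ (m + 1) * (c ^ (-(((m + 1 : ℕ) : ℝ) * s.re)) *
          D.sz x ^ (2 * (-(((m + 1 : ℕ) : ℝ) * s.re)))) := by
        rw [← h2]
        exact mul_le_mul (u3_N_le D x) h1 (Real.rpow_nonneg hQ.le _) (by positivity)
    _ = c ^ (-(((m + 1 : ℕ) : ℝ) * s.re)) * (D.sz x ^ (m + 1) *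
          D.sz x ^ (2 * (-(((m + 1 : ℕ) : ℝ) * s.re)))) := by ring
    _ = _ := by rw [h3]

theorem u3_sum (D : Ctx K m) (hE : Emb D.σ) (s : ℂ) (hs : 3 / 2 < s.re) :
    Summable fun x : D.X => D.sz (x : 𝓞 K) ^ (-((2 * s.re - 1) * (m + 1 : ℝ))) := by
  have h := sum_sz D hE ((2 * s.re - 1) * (m + 1 : ℝ)) (by
    have : (0 : ℝ) < m + 1 := by positivity
    nlinarith)
  exact h.subtype D.X

/-- For Re s > 3/2 the family fs is absolutely summable over X. -/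
theorem fs_summable (D : Ctx K m) (hE : Emb D.σ) (h0 : D.c₀ ∉ D.I) (t : Fin (m + 1) → ℝ)
    (ht : ∀ i, 0 < t i) (s : ℂ) (hs : 3 / 2 < s.re) :
    Summable fun x : D.X => ‖D.fs t s (x : 𝓞 K)‖ := by
  obtain ⟨a, ha, hat⟩ : ∃ a : ℝ, 0 < a ∧ ∀ i, a ≤ t i := by
    obtain ⟨i, hi⟩ := Finite.exists_min t
    exact ⟨t i, ht i, hi⟩
  obtain ⟨c, hc, hQ⟩ := Q_low D hE a ha
  refine Summable.of_nonneg_of_le (fun x => norm_nonneg _) (fun x => ?_)
    ((u3_sum D hE s hs).mul_left (c ^ (-((m + 1 : ℕ) * s.re))))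
  exact u3_fs_le D t s (by linarith) c hc x (hQ t hat x (D.X_ne h0 x.2))

theorem u3_countable (K : Type) [Field K] [NumberField K] : Countable (𝓞 K) := by
  have e := (NumberField.RingOfIntegers.basis K).equivFun
  exact e.toEquiv.countable_iff.2 inferInstance

/-- The translation of the parameter by the action of the units. -/
theorem u3_trans (D : Ctx K m) (u : Fin m → (𝓞 K)ˣ) (hu : D.UOk u) (s : ℂ) (z : Fin m → ℝ)
    (a : Fin m → ℤ) (x : 𝓞 K) :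
    D.fs (tt (D.lm u) z) s ((uu u a : 𝓞 K) * x) =
      D.fs (tt (D.lm u) fun k => z k + a k) s x := by
  obtain ⟨-, h2, h3⟩ := uu_act D u hu a
  have hσ : ∀ i, D.σ i (((uu u a : 𝓞 K) * x : 𝓞 K) : K) =
      D.σ i ((uu u a : 𝓞 K) : K) * D.σ i (x : K) := by
    intro i
    rw [← map_mul]
    norm_cast
  have hN : D.N ((uu u a : 𝓞 K) * x) = D.N x := by
    unfold Ctx.N
    rw [Finset.prod_congr rfl fun i _ => hσ i, Finset.prod_mul_distrib, h2, one_mul]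
  have hQ : D.Q (tt (D.lm u) z) ((uu u a : 𝓞 K) * x) =
      D.Q (tt (D.lm u) fun k => z k + a k) x := by
    unfold Ctx.Q
    refine Finset.sum_congr rfl fun i _ => ?_
    rw [hσ i, norm_mul, mul_pow, h3 i, ← mul_assoc]
    congr 1
    unfold tt
    rw [← Real.exp_add]
    congr 1
    rw [← Finset.sum_add_distrib]
    exact Finset.sum_congr rfl fun j _ => by ring
  unfold Ctx.fs
  rw [hN, hQ]

theorem u3_pos (D : Ctx K m) (x : 𝓞 K) (hx : x ≠ 0) (i : Fin (m + 1)) : 0 < ‖D.σ i x‖ ^ 2 := by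
  have h1 : (x : K) ≠ 0 := by exact_mod_cast hx
  have h2 : D.σ i x ≠ 0 := by
    rw [Ne, map_eq_zero]
    exact h1
  have := norm_pos_iff.2 h2
  positivity

theorem u3_integrable (D : Ctx K m) (u : Fin m → (𝓞 K)ˣ) (hu : D.UOk u) (s : ℂ) (hs : 0 < s.re)
    (x : 𝓞 K) (hx : x ≠ 0) : Integrable fun z : Fin m → ℝ => D.fs (tt (D.lm u) z) s x :=
  (shift_integrable (D.lm u) (lm_sum D u hu) hu.reg s hs (fun i => ‖D.σ i x‖ ^ 2)
    (u3_pos D x hx)).const_mul ((starRingEnd ℂ) (D.N x))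

theorem u3_nf (D : Ctx K m) (hE : Emb D.σ) (s : ℂ) (x : 𝓞 K) (hx : x ≠ 0) :
    (starRingEnd ℂ) (D.N x) * (((∏ i, ‖D.σ i x‖ ^ 2 : ℝ) : ℂ) ^ (-s)) = nf s x := by
  have hN : D.N x = emb (Algebra.norm F (x : K)) := norm_eq hE _
  have hpos : 0 < ‖D.N x‖ := by
    unfold Ctx.N
    rw [norm_prod]
    refine Finset.prod_pos fun i _ => ?_
    have := u3_pos D x hx i
    exact lt_of_le_of_ne (norm_nonneg _) fun h => by
      rw [← h] at this
      norm_num at this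
  have h1 : (∏ i, ‖D.σ i x‖ ^ 2 : ℝ) = ‖D.N x‖ * ‖D.N x‖ := by
    rw [Finset.prod_pow]
    unfold Ctx.N
    rw [norm_prod, sq]
  unfold nf H55B.g
  rw [← hN, h1, Complex.ofReal_mul, Complex.mul_cpow_ofReal_nonneg hpos.le hpos.le,
    ← Complex.cpow_add _ _ (by exact_mod_cast hpos.ne')]
  congr 2
  ring

theorem u3_integral (D : Ctx K m) (hE : Emb D.σ) (u : Fin m → (𝓞 K)ˣ) (hu : D.UOk u) (s : ℂ)
    (hs : 0 < s.re) (x : 𝓞 K) (hx : x ≠ 0) :
    ∫ z : Fin m → ℝ, D.fs (tt (D.lm u) z) s x = nf s x * cst (D.lm u) s := by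
  have h := shift_eq (D.lm u) (lm_sum D u hu) hu.reg s hs (fun i => ‖D.σ i x‖ ^ 2)
    (u3_pos D x hx)
  have h2 : ∫ z : Fin m → ℝ, D.fs (tt (D.lm u) z) s x =
      (starRingEnd ℂ) (D.N x) * ∫ z : Fin m → ℝ,
        ((∑ i, tt (D.lm u) z i * ‖D.σ i x‖ ^ 2 : ℝ) : ℂ) ^ (-((m + 1 : ℕ) * s)) := by
    rw [← integral_const_mul]
    rfl
  rw [h2, h, ← mul_assoc, u3_nf D hE s x hx]

theorem u3_mem (D : Ctx K m) (u : Fin m → (𝓞 K)ˣ) (hu : D.UOk u) (a : Fin m → ℤ) (x : 𝓞 K)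
    (hx : x ∈ D.X) : (uu u a : 𝓞 K) * x ∈ D.X := by
  obtain ⟨h1, -, -⟩ := uu_act D u hu a
  rw [D.mem_X] at hx ⊢
  have : (uu u a : 𝓞 K) * x - D.c₀ = (uu u a : 𝓞 K) * (x - D.c₀) +
      ((uu u a : 𝓞 K) - 1) * D.c₀ := by ring
  rw [this]
  exact D.I.add_mem (D.I.mul_mem_left _ hx) h1

/-- The bijection. -/
noncomputable def u3E (D : Ctx K m) (u : Fin m → (𝓞 K)ˣ) (hu : D.UOk u) (T : Set (𝓞 K))
    (hT : T ⊆ D.X)
    (hbij : ∀ x ∈ D.X, ∃! q : (Fin m → ℤ) × T, x = (uu u q.1 : 𝓞 K) * q.2) :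
    T × (Fin m → ℤ) ≃ D.X :=
  Equiv.ofBijective (fun q => ⟨(uu u q.2 : 𝓞 K) * q.1, u3_mem D u hu q.2 q.1 (hT q.1.2)⟩) (by
    constructor
    · rintro ⟨x, a⟩ ⟨y, b⟩ h
      have h1 : (uu u a : 𝓞 K) * x = (uu u b : 𝓞 K) * y := congrArg Subtype.val h
      obtain ⟨q, hq, hq'⟩ := hbij _ (u3_mem D u hu a x (hT x.2))
      have e1 := hq' (a, x) rfl
      have e2 := hq' (b, y) h1
      have e3 := e1.trans e2.symm
      rw [Prod.mk.injEq] at e3
      rw [Prod.mk.injEq]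
      exact ⟨e3.2, e3.1⟩
    · rintro ⟨x, hx⟩
      obtain ⟨q, hq, -⟩ := hbij x hx
      exact ⟨(q.2, q.1), Subtype.ext hq.symm⟩)

theorem u3_vol {m : ℕ} : volume.real (Set.Icc (0 : Fin m → ℝ) 1) = 1 := by
  rw [Measure.real, Real.volume_Icc_pi]
  simp

theorem u3_tt {m : ℕ} (lm : Fin (m + 1) → Fin m → ℝ) : ∃ a : ℝ, 0 < a ∧
    ∀ z ∈ Set.Icc (0 : Fin m → ℝ) 1, ∀ i, a ≤ tt lm z i := by
  obtain ⟨i0, h0⟩ := Finite.exists_max fun i : Fin (m + 1) => ∑ j, |lm i j|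
  refine ⟨Real.exp (-∑ j, |lm i0 j|), Real.exp_pos _, fun z hz i => ?_⟩
  unfold tt
  apply Real.exp_le_exp.2
  have h1 : -∑ j, |lm i j| ≤ ∑ j, z j * lm i j := by
    rw [← Finset.sum_neg_distrib]
    refine Finset.sum_le_sum fun j _ => ?_
    have hz0 : 0 ≤ z j := hz.1 j
    have hz1 : z j ≤ 1 := hz.2 j
    have h2 : |z j * lm i j| ≤ |lm i j| := by
      rw [abs_mul, abs_of_nonneg hz0]
      exact mul_le_of_le_one_left (abs_nonneg _) hz1
    have := (abs_le.1 h2).1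
    exact this
  have h3 : ∑ j, |lm i j| ≤ ∑ j, |lm i0 j| := h0 i
  linarith

theorem unfold (D : Ctx K m) (hE : Emb D.σ) (h0 : D.c₀ ∉ D.I) (u : Fin m → (𝓞 K)ˣ) (hu : D.UOk u)
    (g : 𝓞 K → ℂ) (hgb : ∃ C : ℝ, ∀ x, ‖g x‖ ≤ C)
    (hgu : ∀ x ∈ D.X, ∀ z, g ((uu u z : 𝓞 K) * x) = g x) (T : Set (𝓞 K)) (hT : T ⊆ D.X)
    (hbij : ∀ x ∈ D.X, ∃! q : (Fin m → ℤ) × T, x = (uu u q.1 : 𝓞 K) * q.2) (s : ℂ)
    (hs : 3 / 2 < s.re) :
    (Summable fun x : T => ‖g x * nf s (x : 𝓞 K)‖) ∧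
    (∑' x : T, g x * nf s (x : 𝓞 K)) * cst (D.lm u) s =
      ∫ z in Set.Icc (0 : Fin m → ℝ) 1, ∑' x : D.X, g x * D.fs (tt (D.lm u) z) s x := by
  have hs0 : 0 < s.re := by linarith
  have := u3_countable K
  obtain ⟨C, hC⟩ := hgb
  have hC0 : 0 ≤ C := (norm_nonneg _).trans (hC 0)
  obtain ⟨a, ha, hat⟩ := u3_tt (D.lm u)
  obtain ⟨c, hc, hQ⟩ := Q_low D hE a ha
  have hint : ∀ x : 𝓞 K, x ≠ 0 →
      Integrable fun z : Fin m → ℝ => g x * D.fs (tt (D.lm u) z) s x := fun x hx =>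
    (u3_integrable D u hu s hs0 x hx).const_mul (g x)
  -- the bound on the cube
  have hbd : ∀ x : D.X, ∫ z in Set.Icc (0 : Fin m → ℝ) 1, ‖g x * D.fs (tt (D.lm u) z) s x‖ ≤
      (C * c ^ (-((m + 1 : ℕ) * s.re))) * D.sz (x : 𝓞 K) ^ (-((2 * s.re - 1) * (m + 1 : ℝ))) := by
    intro x
    have hx := D.X_ne h0 x.2
    have h1 : ∫ z in Set.Icc (0 : Fin m → ℝ) 1, ‖g x * D.fs (tt (D.lm u) z) s x‖ ≤
        ∫ z in Set.Icc (0 : Fin m → ℝ) 1, (C * c ^ (-((m + 1 : ℕ) * s.re))) *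
          D.sz (x : 𝓞 K) ^ (-((2 * s.re - 1) * (m + 1 : ℝ))) := by
      refine setIntegral_mono_on (hint x hx).norm.integrableOn ?_ measurableSet_Icc ?_
      · exact integrableOn_const (by
          rw [Real.volume_Icc_pi]
          simp)
      · intro z hz
        rw [norm_mul, mul_assoc]
        refine mul_le_mul (hC x) ?_ (norm_nonneg _) hC0
        exact u3_fs_le D _ s hs0 c hc x (hQ _ (hat z hz) x hx)
    refine h1.trans (le_of_eq ?_)
    rw [setIntegral_const, u3_vol, one_smul]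
  have hsum1 : Summable fun x : D.X =>
      ∫ z in Set.Icc (0 : Fin m → ℝ) 1, ‖g x * D.fs (tt (D.lm u) z) s x‖ :=
    Summable.of_nonneg_of_le (fun x => integral_nonneg fun z => norm_nonneg _) hbd
      ((u3_sum D hE s hs).mul_left _)
  have hs1 := hasSum_integral_of_summable_integral_norm
    (μ := volume.restrict (Set.Icc (0 : Fin m → ℝ) 1))
    (F := fun (x : D.X) (z : Fin m → ℝ) => g x * D.fs (tt (D.lm u) z) s x)
    (fun x => (hint x (D.X_ne h0 x.2)).integrableOn) hsum1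
  have hs2 := (u3E D u hu T hT hbij).hasSum_iff.2 hs1
  have hs3 : HasSum (fun x : T => ∫ z : Fin m → ℝ, g x * D.fs (tt (D.lm u) z) s x)
      (∫ z in Set.Icc (0 : Fin m → ℝ) 1, ∑' x : D.X, g x * D.fs (tt (D.lm u) z) s x) := by
    refine hs2.prod_fiberwise fun x => ?_
    have hx := D.X_ne h0 (hT x.2)
    have h1 := tiling (fun z => g x * D.fs (tt (D.lm u) z) s x) (hint x hx)
    have h2 : (fun b : Fin m → ℤ => ((fun x : D.X => ∫ z in Set.Icc (0 : Fin m → ℝ) 1,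
        g x * D.fs (tt (D.lm u) z) s x) ∘ (u3E D u hu T hT hbij)) (x, b)) =
        fun b : Fin m → ℤ => ∫ z in Set.Icc (0 : Fin m → ℝ) 1,
          (fun z => g x * D.fs (tt (D.lm u) z) s x) (fun k => z k + b k) := by
      funext b
      show ∫ z in Set.Icc (0 : Fin m → ℝ) 1, g ((uu u b : 𝓞 K) * x) *
        D.fs (tt (D.lm u) z) s ((uu u b : 𝓞 K) * x) = _
      refine integral_congr_ae (Filter.Eventually.of_forall fun z => ?_)
      show g ((uu u b : 𝓞 K) * x) * D.fs (tt (D.lm u) z) s ((uu u b : 𝓞 K) * x) =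
        g x * D.fs (tt (D.lm u) fun k => z k + b k) s x
      rw [hgu x (hT x.2) b, u3_trans D u hu]
    rw [h2]
    exact h1
  have hcst : cst (D.lm u) s ≠ 0 := by
    intro h
    have h1 := cst_eq (D.lm u) (lm_sum D u hu) hu.reg s hs0
    rw [h, mul_zero, zero_mul] at h1
    exact pow_ne_zero (m + 1) (Complex.Gamma_ne_zero_of_re_pos hs0) h1.symm
  have hs4 : HasSum (fun x : T => (g x * nf s (x : 𝓞 K)) * cst (D.lm u) s)
      (∫ z in Set.Icc (0 : Fin m → ℝ) 1, ∑' x : D.X, g x * D.fs (tt (D.lm u) z) s x) := by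
    have h1 : (fun x : T => (g x * nf s (x : 𝓞 K)) * cst (D.lm u) s) =
        fun x : T => ∫ z : Fin m → ℝ, g x * D.fs (tt (D.lm u) z) s x := by
      funext x
      rw [integral_const_mul, u3_integral D hE u hu s hs0 x (D.X_ne h0 (hT x.2)), mul_assoc]
    rw [h1]
    exact hs3
  refine ⟨((summable_mul_right_iff hcst).1 hs4.summable).norm, ?_⟩
  rw [← tsum_mul_right]
  exact hs4.tsum_eq

end H55N
end

-- from Lib.H55N.U5
section

open NumberField IsDedekindDomain MeasureTheory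

namespace H55N

open H55B H55C

variable {K : Type} [Field K] [NumberField K] [Algebra F K] {m : ℕ}

/-! Chunk U5 (M). The smoothed partial zeta function. n = m+1, lm = D.lm u, Delta <> 0, lm_sum.
V(s) = int_cube sum_X G Dif(fs (tt lm z) s), analytic on Re s > 3/2 - 2n/(2n) = 1/2 (cont_analytic with ι = Fin n x Fin 2, I' = D.I). For Re s > 3/2
GSpec and fs_summable give sum_X g fs = sum_X G Dif fs, so V(s) = cst(s) sum_T g nf (unfold; g(u^z x) = g(x): a unit times x is in c_i iff x is). By cst_eq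
cst(s)^(-1) = |Delta| Gamma(ns)/Gamma(s)^n, so Z(s) := V(s) |Delta| Gamma(ns) / Gamma(s)^n, analytic on Re s > 1/2 (Gamma is analytic there, nonzero).
At s = 1: Gamma(n) = m!, Gamma(1) = 1, and fs t 1 x = conj N(x)/Q_t(x)^n for every x (cpow with exponent -(n : natural)), so
sum_X G Dif (fs t 1) = Bv w G (fun _ => t). -/

/-- The gamma factors. -/
theorem U5_gam (D : Ctx K m) (u : Fin m → (𝓞 K)ˣ) (hu : D.UOk u) (V : ℂ → ℂ) (r : ℝ) (hr : 0 ≤ r)
    (hV : AnalyticOnNhd ℂ V {s | r < s.re}) : AnalyticOnNhd ℂ (fun s => V s *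
      ((|Delta (D.lm u)| : ℝ) : ℂ) * Complex.Gamma ((m + 1 : ℕ) * s) / Complex.Gamma s ^ (m + 1))
      {s | r < s.re} ∧
    ∀ s : ℂ, 0 < s.re → ∀ S : ℂ, S * cst (D.lm u) s = V s → V s *
      ((|Delta (D.lm u)| : ℝ) : ℂ) * Complex.Gamma ((m + 1 : ℕ) * s) / Complex.Gamma s ^ (m + 1) =
        S := by
  have hopen : IsOpen {s : ℂ | r < s.re} := isOpen_lt continuous_const Complex.continuous_re
  have hpos : ∀ s : ℂ, r < s.re → 0 < s.re := fun s hs => lt_of_le_of_lt hr hs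
  have hne : ∀ s : ℂ, 0 < s.re → ∀ k : ℕ, s ≠ -(k : ℂ) := by
    intro s hs k hk
    rw [hk] at hs
    simp only [Complex.neg_re, Complex.natCast_re] at hs
    have : (0 : ℝ) ≤ k := Nat.cast_nonneg k
    linarith
  have hG : AnalyticOnNhd ℂ Complex.Gamma {s | r < s.re} := by
    apply DifferentiableOn.analyticOnNhd _ hopen
    intro s hs
    exact (Complex.differentiableAt_Gamma s (hne s (hpos s hs))).differentiableWithinAt
  have hG2 : AnalyticOnNhd ℂ (fun s => Complex.Gamma ((m + 1 : ℕ) * s)) {s | r < s.re} := by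
    apply DifferentiableOn.analyticOnNhd _ hopen
    intro s hs
    have h1 : 0 < (((m + 1 : ℕ) : ℂ) * s).re := by
      rw [← Complex.ofReal_natCast, Complex.re_ofReal_mul]
      have := hpos s hs
      positivity
    have h2 := Complex.differentiableAt_Gamma _ (hne _ h1)
    exact (h2.comp s ((differentiableAt_const _).mul differentiableAt_id)).differentiableWithinAt
  constructor
  · exact ((hV.mul analyticOnNhd_const).mul hG2).div (hG.pow _) fun s hs =>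
      pow_ne_zero _ (Complex.Gamma_ne_zero_of_re_pos (hpos s hs))
  · intro s hs S hS
    have h1 := cst_eq (D.lm u) (lm_sum D u hu) hu.reg s hs
    have h2 : Complex.Gamma s ^ (m + 1) ≠ 0 :=
      pow_ne_zero _ (Complex.Gamma_ne_zero_of_re_pos hs)
    rw [div_eq_iff h2, ← h1, ← hS]
    ring

theorem U5_fs_one (D : Ctx K m) (t : Fin (m + 1) → ℝ) (x : 𝓞 K) :
    D.fs t 1 x = (starRingEnd ℂ) (D.N x) / ∏ _j : Fin (m + 1), (D.Q t x : ℂ) := by
  unfold Ctx.fs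
  rw [mul_one, Complex.cpow_neg, Complex.cpow_natCast, Finset.prod_const, Finset.card_univ,
    Fintype.card_fin, div_eq_mul_inv]

theorem U5_om (D : Ctx K m) (hE : Emb D.σ) (x : 𝓞 K) (i : Fin (m + 1)) :
    D.σ i ((algebraMap O (𝓞 K) om * x : 𝓞 K) : K) = e om * D.σ i x := by
  have h1 : ((algebraMap O (𝓞 K) om * x : 𝓞 K) : K) =
      (algebraMap (𝓞 K) K (algebraMap O (𝓞 K) om)) * (x : K) := map_mul _ _ _
  rw [h1, map_mul, ← IsScalarTower.algebraMap_apply O (𝓞 K) K,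
    IsScalarTower.algebraMap_apply O F K, hE.ovr]
  rfl

theorem U5_fs_om (D : Ctx K m) (hE : Emb D.σ) (t : Fin (m + 1) → ℝ) (s : ℂ) (x : 𝓞 K) :
    D.fs t s (algebraMap O (𝓞 K) om * x) =
      (starRingEnd ℂ) (e om) ^ (m + 1) * D.fs t s x := by
  have hN : D.N (algebraMap O (𝓞 K) om * x) = e om ^ (m + 1) * D.N x := by
    unfold Ctx.N
    rw [Finset.prod_congr rfl fun i _ => U5_om D hE x i, Finset.prod_mul_distrib,
      Finset.prod_const, Finset.card_univ, Fintype.card_fin]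
  have hQ : D.Q t (algebraMap O (𝓞 K) om * x) = D.Q t x := by
    unfold Ctx.Q
    refine Finset.sum_congr rfl fun i _ => ?_
    rw [U5_om D hE x i, norm_mul, norm_e_om, one_mul]
  unfold Ctx.fs
  rw [hN, hQ, map_mul, map_pow, mul_assoc]

theorem zfun (D : Ctx K m) (hD : D.Ok) (u : Fin m → (𝓞 K)ˣ) (hu : D.UOk u)
    (A : Fin (m + 1) → K) (w : Fin (m + 1) × Fin 2 → 𝓞 K) (hdir : D.Dirs A w) (G : 𝓞 K → ℂ)
    (hG : D.GSpec w G) : ∃ Z : ℂ → ℂ, AnalyticOnNhd ℂ Z {s | 1 / 2 < s.re} ∧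
      (∀ T : Set (𝓞 K), T ⊆ D.X →
        (∀ x ∈ D.X, ∃! q : (Fin m → ℤ) × T, x = (uu u q.1 : 𝓞 K) * q.2) →
        ∀ s : ℂ, 3 / 2 < s.re → HasSum (fun x : T => D.g x * nf s (x : 𝓞 K)) (Z s)) ∧
      Z 1 = (m.factorial : ℂ) * ((|Delta (D.lm u)| : ℝ) : ℂ) *
        ∫ z in Set.Icc (0 : Fin m → ℝ) 1, D.Bv w G (fun _ => tt (D.lm u) z) := by
  set V : ℂ → ℂ := fun s => ∫ z in Set.Icc (0 : Fin m → ℝ) 1,
      ∑' x : D.X, G x * Dif w Finset.univ (D.fs (tt (D.lm u) z) s) x with hVdef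
  have hcard : Fintype.card (Fin (m + 1) × Fin 2) = 2 * (m + 1) := by
    rw [Fintype.card_prod, Fintype.card_fin, Fintype.card_fin, mul_comm]
  have hreg : 3 / 2 - (Fintype.card (Fin (m + 1) × Fin 2) : ℝ) / (2 * (m + 1)) = 1 / 2 := by
    rw [hcard]
    push_cast
    field_simp
    norm_num
  have hV : AnalyticOnNhd ℂ V {s | 1 / 2 < s.re} := by
    have h := cont_analytic D hD.emb D.I le_rfl hD.ne w hdir.mem hcard.le G hG.1 (D.lm u)
    rw [hreg] at h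
    exact h
  obtain ⟨hA1, hA2⟩ := U5_gam D u hu V (1 / 2) (by norm_num) hV
  refine ⟨_, hA1, ?_, ?_⟩
  · intro T hT hbij s hs
    obtain ⟨h1, h2⟩ := unfold D hD.emb hD.ne u hu D.g (g_bdd D)
      (fun x _ z => R5_g D (uu u z) x) T hT hbij s hs
    have h3 : (∑' x : T, D.g x * nf s (x : 𝓞 K)) * cst (D.lm u) s = V s := by
      rw [h2]
      refine integral_congr_ae (Filter.Eventually.of_forall fun z => ?_)
      exact hG.2 _ (fs_summable D hD.emb hD.ne _ (fun i => Real.exp_pos _) s hs)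
    have h4 := hA2 s (by linarith) _ h3
    rw [h4]
    exact h1.of_norm.hasSum
  · have h1 : V 1 = ∫ z in Set.Icc (0 : Fin m → ℝ) 1, D.Bv w G (fun _ => tt (D.lm u) z) := by
      refine integral_congr_ae (Filter.Eventually.of_forall fun z => ?_)
      show ∑' x : D.X, _ = ∑' x : D.X, _
      refine tsum_congr fun x => ?_
      congr 2
      funext y
      exact U5_fs_one D _ y
    show V 1 * _ * _ / _ = _
    rw [h1, mul_one, Complex.Gamma_one, one_pow, div_one]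
    have h2 : Complex.Gamma ((m + 1 : ℕ) : ℂ) = (m.factorial : ℂ) := by
      have := Complex.Gamma_nat_eq_factorial m
      rw [← this]
      push_cast
      rfl
    rw [h2]
    ring

/-- The unsmoothed version: I' is an ideal containing I and (1 - om) c₀, not containing c₀, 3 does not divide m+1.
PROOF. η := e om, E(t,s) := sum_{x in X} fs t s x for Re s > 3/2. Let w0 = (1 - om) c₀ (ι = Unit, Dif w univ h x = h x - h (x - w0)). x -> x - w0 is a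
bijection of X = c₀ + I onto om c₀ + I = om X (om a unit), so sum_{x in X} fs(x - w0) = sum_{x in X} fs(om x) = conj(η)^n sum_X fs: N(om x) = η^n N(x), Q_t(om x) = Q_t(x).
Hence sum_X Dif(fs) = (1 - conj(η)^n) sum_X fs, and conj(η)^n <> 1 because η has order 3 and 3 does not divide n. With G = 1: V(s) = int_cube sum_X Dif fs is
analytic on Re s > 3/2 - 1/(2n) (cont_analytic, card ι = 1) and equals (1 - conj(η)^n) cst(s) sum_T nf for Re s > 3/2 (unfold with g = 1). Divide. -/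
theorem zfun_one (D : Ctx K m) (hE : Emb D.σ) (h0 : D.c₀ ∉ D.I) (h3 : ¬ 3 ∣ m + 1)
    (u : Fin m → (𝓞 K)ˣ) (hu : D.UOk u) (I' : Ideal (𝓞 K)) (hI : D.I ≤ I') (h1 : D.c₀ ∉ I')
    (h2 : algebraMap O (𝓞 K) lam * D.c₀ ∈ I') :
    ∃ Z : ℂ → ℂ, AnalyticOnNhd ℂ Z {s | 3 / 2 - 1 / (2 * (m + 1)) < s.re} ∧
      ∀ T : Set (𝓞 K), T ⊆ D.X →
        (∀ x ∈ D.X, ∃! q : (Fin m → ℤ) × T, x = (uu u q.1 : 𝓞 K) * q.2) →
        ∀ s : ℂ, 3 / 2 < s.re → HasSum (fun x : T => nf s (x : 𝓞 K)) (Z s) := by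
  set ω : 𝓞 K := algebraMap O (𝓞 K) om with hω
  have hω1 : ω ^ 2 + ω + 1 = 0 := by
    have h := congrArg (algebraMap O (𝓞 K)) om_rel
    rw [map_add, map_add, map_pow, map_one, map_zero] at h
    exact h
  have hω3 : ω ^ 3 = 1 := by linear_combination (ω - 1) * hω1
  set w : Unit → 𝓞 K := fun _ => (1 - ω) * D.c₀ with hw
  have hlam : algebraMap O (𝓞 K) lam = ω - 1 := by
    unfold lam
    rw [map_sub, map_one]
  have hwI : ∀ i, w i ∈ I' := by
    intro i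
    have : w i = -(algebraMap O (𝓞 K) lam * D.c₀) := by
      rw [hlam, hw]
      ring
    rw [this]
    exact I'.neg_mem_iff.2 h2
  set κ : ℂ := 1 - (starRingEnd ℂ) (e om) ^ (m + 1) with hκ
  have hκ0 : κ ≠ 0 := by
    intro h
    have h4 : (starRingEnd ℂ) (e om) ^ (m + 1) = 1 := (sub_eq_zero.1 h).symm
    have h5 : e om ^ (m + 1) = 1 := by
      rw [← map_pow] at h4
      have h6 := congrArg (starRingEnd ℂ) h4
      rwa [Complex.conj_conj, map_one] at h6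
    have h6 : e om ^ 3 = 1 := A0_om_cube
    have h7 : e om ≠ 1 := by
      intro h8
      have h9 := e_om_rel
      rw [h8] at h9
      norm_num at h9
    have h8 := orderOf_eq_prime h6 h7
    have h9 := orderOf_dvd_of_pow_eq_one h5
    rw [h8] at h9
    exact h3 h9
  set V : ℂ → ℂ := fun s => ∫ z in Set.Icc (0 : Fin m → ℝ) 1,
      ∑' x : D.X, (1 : ℂ) * Dif w Finset.univ (D.fs (tt (D.lm u) z) s) x with hVdef
  have hV : AnalyticOnNhd ℂ V {s | 3 / 2 - 1 / (2 * (m + 1)) < s.re} := by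
    have h := cont_analytic D hE I' hI h1 w hwI (by simp; omega) (fun _ => 1)
      ⟨1, fun _ => by simp⟩ (D.lm u)
    rw [Fintype.card_unit, Nat.cast_one] at h
    exact h
  have hr : (0 : ℝ) ≤ 3 / 2 - 1 / (2 * (m + 1)) := by
    have h4 : (1 : ℝ) / (2 * (m + 1)) ≤ 1 / 2 := by
      rw [div_le_div_iff₀ (by positivity) (by norm_num)]
      have : (0 : ℝ) ≤ m := Nat.cast_nonneg m
      linarith
    linarith
  obtain ⟨hA1, hA2⟩ := U5_gam D u hu (fun s => V s * κ⁻¹) _ hr (hV.mul analyticOnNhd_const)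
  refine ⟨_, hA1, ?_⟩
  intro T hT hbij s hs
  obtain ⟨h4, h5⟩ := unfold D hE h0 u hu (fun _ => 1) ⟨1, fun _ => by simp⟩
    (fun x _ z => rfl) T hT hbij s hs
  have hdif : ∀ (h : 𝓞 K → ℂ) (x : 𝓞 K), Dif w Finset.univ h x = h x - h (x - (1 - ω) * D.c₀) := by
    intro h x
    have h6 : (Finset.univ : Finset Unit) = insert () ∅ := rfl
    rw [h6, dif_insert w ∅ () (Finset.notMem_empty _), dif_empty, dif_empty]
  have hmem : ∀ x : 𝓞 K, x ∈ D.X → ω ^ 2 * (x - (1 - ω) * D.c₀) ∈ D.X := by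
    intro x hx
    rw [D.mem_X] at hx ⊢
    have h6 : ω ^ 2 * (x - (1 - ω) * D.c₀) - D.c₀ = ω ^ 2 * (x - D.c₀) := by
      linear_combination (D.c₀) * hω3
    rw [h6]
    exact D.I.mul_mem_left _ hx
  have hmem2 : ∀ x : 𝓞 K, x ∈ D.X → ω * x + (1 - ω) * D.c₀ ∈ D.X := by
    intro x hx
    rw [D.mem_X] at hx ⊢
    have h6 : ω * x + (1 - ω) * D.c₀ - D.c₀ = ω * (x - D.c₀) := by ring
    rw [h6]
    exact D.I.mul_mem_left _ hx
  let ε : D.X ≃ D.X :=
    { toFun := fun x => ⟨ω ^ 2 * ((x : 𝓞 K) - (1 - ω) * D.c₀), hmem x x.2⟩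
      invFun := fun x => ⟨ω * (x : 𝓞 K) + (1 - ω) * D.c₀, hmem2 x x.2⟩
      left_inv := by
        intro x
        apply Subtype.ext
        show ω * (ω ^ 2 * ((x : 𝓞 K) - (1 - ω) * D.c₀)) + (1 - ω) * D.c₀ = x
        linear_combination ((x : 𝓞 K) - (1 - ω) * D.c₀) * hω3
      right_inv := by
        intro x
        apply Subtype.ext
        show ω ^ 2 * (ω * (x : 𝓞 K) + (1 - ω) * D.c₀ - (1 - ω) * D.c₀) = x
        linear_combination (x : 𝓞 K) * hω3 }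
  have hsum : ∀ t : Fin (m + 1) → ℝ, (∀ i, 0 < t i) →
      ∑' x : D.X, (1 : ℂ) * Dif w Finset.univ (D.fs t s) x = κ * ∑' x : D.X, D.fs t s x := by
    intro t ht
    have hsm := (fs_summable D hE h0 t ht s hs).of_norm
    have h6 : ∀ x : D.X, D.fs t s ((x : 𝓞 K) - (1 - ω) * D.c₀) =
        (starRingEnd ℂ) (e om) ^ (m + 1) * D.fs t s (ε x : 𝓞 K) := by
      intro x
      rw [← U5_fs_om D hE]
      congr 1
      show _ = ω * (ω ^ 2 * ((x : 𝓞 K) - (1 - ω) * D.c₀))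
      linear_combination (-((x : 𝓞 K) - (1 - ω) * D.c₀)) * hω3
    have h7 : Summable fun x : D.X => D.fs t s (ε x : 𝓞 K) := (ε.summable_iff).2 hsm
    have h8 : ∑' x : D.X, D.fs t s (ε x : 𝓞 K) = ∑' x : D.X, D.fs t s x :=
      ε.tsum_eq (fun x : D.X => D.fs t s x)
    simp only [one_mul, hdif, h6]
    rw [hsm.tsum_sub (h7.mul_left _), tsum_mul_left, h8, hκ]
    ring
  have h6 : (∑' x : T, (1 : ℂ) * nf s (x : 𝓞 K)) * cst (D.lm u) s = V s * κ⁻¹ := by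
    rw [h5, hVdef]
    simp only
    rw [← integral_mul_const]
    refine integral_congr_ae (Filter.Eventually.of_forall fun z => ?_)
    show ∑' x : D.X, (1 : ℂ) * D.fs (tt (D.lm u) z) s x =
      (∑' x : D.X, (1 : ℂ) * Dif w Finset.univ (D.fs (tt (D.lm u) z) s) x) * κ⁻¹
    rw [hsum (tt (D.lm u) z) fun i => Real.exp_pos _]
    simp only [one_mul]
    field_simp
  have h7 := hA2 s (by linarith) _ h6
  rw [h7]
  have h8 := h4.of_norm.hasSum
  simp only [one_mul] at h8 ⊢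
  exact h8

end H55N
end
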