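import Mathlib
import Pool.Agent.Lib.H1M.PP.M001
import Pool.Agent.Lib.H1M.PP.M010
import Pool.Agent.Lib.H1M.PP.M019
import Pool.Agent.Lib.H1M.PP.M022
import Pool.Agent.Lib.H1M.PP.M025
import Pool.Agent.Lib.H1M.PP.M027
import Pool.Agent.Lib.H1M.PP.M028
import Pool.Agent.Lib.H1M.PP.M031
import Pool.Agent.Lib.H1M.PP.M032
import Pool.Agent.Lib.H1M.PP.M034
import Pool.Agent.Lib.H1M.PP.M035
import Pool.Agent.Lib.H1M.PP.M037

/-! Merged copies (to shorten the build) of Lib.H13S.LC, Lib.H13S.LD2, Lib.H55P.B4, Lib.H13S.LU, Lib.H13S.OR1, Lib.H55P.L4, Lib.H55P.CD, Lib.H55N.H1, Lib.H55N.H15, Lib.H55N.TW2, Lib.H55P.B10, Lib.H55P.R4, Lib.H55N.R2, Lib.H55N.R7, Lib.H55N.R8, Lib.H55N.Z1, Lib.H55N.Z2, Lib.H55R.D11. -/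

-- from Lib.H13S.LC
section

open NumberField IsDedekindDomain

namespace H13S

open H55P H28G H55B

/-- In a finite sum whose nonzero terms have different values every term is at most the sum. -/
private theorem lc_max {Ω Γ : Type} [Field Ω] [LinearOrderedCommGroupWithZero Γ] (v : Valuation Ω Γ) (n : ℕ) (f : ℕ → Ω)
    (hd : ∀ i < n, ∀ j < n, f i ≠ 0 → f j ≠ 0 → v (f i) = v (f j) → i = j) (j : ℕ) (hj : j < n) :
    v (f j) ≤ v (∑ i ∈ Finset.range n, f i) := by
  classical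
  obtain ⟨m, hm, hmax⟩ := (Finset.range n).exists_max_image (fun i => v (f i)) ⟨j, Finset.mem_range.2 hj⟩
  by_cases h0 : f m = 0
  · have h1 := hmax j (Finset.mem_range.2 hj)
    rw [h0, map_zero] at h1
    exact h1.trans zero_le
  have hv0 : v (f m) ≠ 0 := (v.ne_zero_iff).2 h0
  have hlt : v (∑ i ∈ (Finset.range n).erase m, f i) < v (f m) := by
    refine v.map_sum_lt hv0 fun i hi => ?_
    rw [Finset.mem_erase] at hi
    by_cases hi0 : f i = 0
    · rw [hi0, map_zero]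
      exact zero_lt_iff.2 hv0
    · refine lt_of_le_of_ne (hmax i hi.2) fun h => hi.1 ?_
      exact hd i (Finset.mem_range.1 hi.2) m (Finset.mem_range.1 hm) hi0 h0 h
  have hsum : v (∑ i ∈ Finset.range n, f i) = v (f m) := by
    rw [← Finset.add_sum_erase _ _ hm, v.map_add_eq_of_lt_left hlt]
  rw [hsum]
  exact hmax j (Finset.mem_range.2 hj)

private theorem lc_mem {F₀ : Type} [Field F₀] {Ω : Type} [Field Ω] [Algebra F₀ Ω] {V : ValuationSubring Ω}
    {s : Ω ≃ₐ[F₀] Ω} (h : Inert V s) {x : Ω} (hx : x ∈ V) : s x ∈ V := by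
  have h1 : s x - x ∈ V := (V.valuation_le_one_iff _).1 (h x hx).le
  have h2 := V.add_mem _ _ h1 hx
  rwa [sub_add_cancel] at h2

/-- Chunk LC (M). Step C: valuations. V.valuation (g j) is 0 or the value of an element of L (value_fixed), that is an integral power of T = V.valuation t < 1 (t a uniformizer of w; T generates the values of
L^*: Abv.le). Put r = V.valuation Z, r^l = T, so r < 1. The values V.valuation (g j) r^j for j < l with g j ≠ 0 are pairwise different: T^a r^i = T^b r^j gives r^(l a + i) = r^(l b + j), l a + i = l b + j (r < 1), i = j. So the value of the sum is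
the maximum of V.valuation (g j) r^j (Finset induction or Valuation.map_sum_eq...), each is ≤ 1: T^a r^j ≤ 1 with j < l gives l a + j ≥ 0, a ≥ 0: V.valuation (g j) ≤ 1. s (sum) - sum = sum of g j ((s Z)^j - Z^j), and
(s Z)^j - Z^j = (s Z - Z) (...) with V.valuation (s Z) = V.valuation Z ≤ 1 (Inert V s preserves V). -/
theorem step_c {F₀ : Type} [Field F₀] [NumberField F₀] {Ω : Type} [Field Ω] [Algebra F₀ Ω]
    [IsAlgClosure F₀ Ω] (L : IntermediateField F₀ Ω) [NumberField L] (V : ValuationSubring Ω)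
    (w : HeightOneSpectrum (𝓞 L)) (hw : Abv L V w) (l : ℕ) (hl : 0 < l) (Z : Ω) (t : L)
    (ht : w.valuation L t = WithZero.exp (-1 : ℤ)) (hZ : V.valuation Z ^ l = V.valuation (t : Ω)) (g : ℕ → Ω)
    (hg : ∀ j, ∀ s ∈ L.fixingSubgroup, Inert V s → s (g j) = g j)
    (h1 : V.valuation (∑ j ∈ Finset.range l, g j * Z ^ j) ≤ 1) (s : Ω ≃ₐ[F₀] Ω) (hs : s ∈ L.fixingSubgroup)
    (hi : Inert V s) :
    V.valuation (s (∑ j ∈ Finset.range l, g j * Z ^ j) - ∑ j ∈ Finset.range l, g j * Z ^ j) ≤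
      V.valuation (s Z - Z) := by
  classical
  set v := V.valuation with hv
  set r := v Z with hr
  have ht0 : t ≠ 0 := by
    rintro rfl
    rw [map_zero] at ht
    exact (WithZero.exp_ne_zero (a := (-1 : ℤ))) ht.symm
  have htΩ : (t : Ω) ≠ 0 := by
    intro h
    exact ht0 (Subtype.ext h)
  have hT0 : v (t : Ω) ≠ 0 := (v.ne_zero_iff).2 htΩ
  have hT1 : v (t : Ω) < 1 := by
    rw [hv, hw.lt, ht, ← WithZero.exp_zero, WithZero.exp_lt_exp]
    norm_num
  have hr0 : 0 < r := by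
    rw [zero_lt_iff]
    intro h
    rw [h, zero_pow hl.ne'] at hZ
    exact hT0 hZ.symm
  have hr1 : r < 1 := by
    by_contra hcon
    rw [not_lt] at hcon
    have := one_le_pow₀ (n := l) hcon
    rw [hZ] at this
    exact absurd hT1 (not_lt.2 this)
  -- the values of the coefficients
  have hval : ∀ j, g j ≠ 0 → ∃ n : ℤ, v (g j) = r ^ ((l : ℤ) * n) := by
    intro j hj
    obtain ⟨a, ha0, ha⟩ := value_fixed L V (g j) hj (hg j)
    have hwa : w.valuation L a ≠ 0 := ((w.valuation L).ne_zero_iff).2 ha0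
    set m : ℤ := WithZero.log (w.valuation L a) with hm
    have h2 : w.valuation L a = w.valuation L (t ^ (-m)) := by
      rw [map_zpow₀, ht, ← WithZero.exp_zsmul, ← WithZero.exp_log hwa, ← hm]
      simp
    have h3 : v (a : Ω) = v ((t ^ (-m) : L) : Ω) :=
      le_antisymm ((hw.le _ _).2 h2.le) ((hw.le _ _).2 h2.ge)
    refine ⟨-m, ?_⟩
    rw [hv, ha, ← hv, h3, zpow_mul, zpow_natCast, hZ, ← map_zpow₀]
    rfl
  have hterm : ∀ j, g j ≠ 0 → ∃ n : ℤ, v (g j) = r ^ ((l : ℤ) * n) ∧ v (g j * Z ^ j) = r ^ ((l : ℤ) * n + j) := by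
    intro j hj
    obtain ⟨n, hn⟩ := hval j hj
    refine ⟨n, hn, ?_⟩
    rw [map_mul, map_pow, hn, ← hr, zpow_add₀ hr0.ne', zpow_natCast]
  have hinj := (zpow_right_strictAnti₀ hr0 hr1)
  have hmod : ∀ (n n' : ℤ) (i j : ℕ), i < l → j < l → (l : ℤ) * n + i = (l : ℤ) * n' + j → i = j := by
    intro n n' i j hi hj h
    have h2 : (i : ℤ) % l = (j : ℤ) % l := by
      have e1 : (i : ℤ) % l = ((l : ℤ) * n + i) % l := by rw [add_comm, Int.add_mul_emod_self_left]
      have e2 : (j : ℤ) % l = ((l : ℤ) * n' + j) % l := by rw [add_comm, Int.add_mul_emod_self_left]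
      rw [e1, e2, h]
    rw [Int.emod_eq_of_lt (by positivity) (by exact_mod_cast hi), Int.emod_eq_of_lt (by positivity) (by exact_mod_cast hj)] at h2
    exact_mod_cast h2
  have hdist : ∀ i < l, ∀ j < l, g i * Z ^ i ≠ 0 → g j * Z ^ j ≠ 0 → v (g i * Z ^ i) = v (g j * Z ^ j) → i = j := by
    intro i hi j hj h0i h0j h
    obtain ⟨n, -, hn⟩ := hterm i (left_ne_zero_of_mul h0i)
    obtain ⟨n', -, hn'⟩ := hterm j (left_ne_zero_of_mul h0j)
    rw [hn, hn'] at h
    exact hmod n n' i j hi hj (hinj.injective h)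
  have hle : ∀ j < l, v (g j) ≤ 1 := by
    intro j hj
    by_cases h0 : g j = 0
    · rw [h0, map_zero]
      exact zero_le_one
    obtain ⟨n, hn, hn'⟩ := hterm j h0
    have h2 := (lc_max v l (fun j => g j * Z ^ j) hdist j hj).trans h1
    rw [hn', ← zpow_zero r, hinj.le_iff_ge] at h2
    have h3 : 0 ≤ n := by
      by_contra hcon
      rw [not_le] at hcon
      have h4 : n ≤ -1 := by omega
      have h5 : (l : ℤ) * n ≤ (l : ℤ) * (-1) := mul_le_mul_of_nonneg_left h4 (by positivity)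
      have h6 : (j : ℤ) < l := by exact_mod_cast hj
      linarith
    rw [hn, ← zpow_zero r, hinj.le_iff_ge]
    positivity
  -- the difference
  have hZV : Z ∈ V := (V.valuation_le_one_iff _).1 hr1.le
  have hsZ : v (s Z) ≤ 1 := (V.valuation_le_one_iff _).2 (lc_mem hi hZV)
  have hdiff : s (∑ j ∈ Finset.range l, g j * Z ^ j) - ∑ j ∈ Finset.range l, g j * Z ^ j =
      ∑ j ∈ Finset.range l, g j * ((∑ i ∈ Finset.range j, (s Z) ^ i * Z ^ (j - 1 - i)) * (s Z - Z)) := by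
    rw [map_sum, ← Finset.sum_sub_distrib]
    refine Finset.sum_congr rfl fun j _ => ?_
    rw [map_mul, map_pow, hg j s hs hi, geom_sum₂_mul]
    ring
  rw [hdiff]
  refine v.map_sum_le fun j hj => ?_
  rw [map_mul, map_mul, ← mul_assoc]
  refine mul_le_of_le_one_left' ?_
  refine mul_le_one' (hle j (Finset.mem_range.1 hj)) ?_
  refine v.map_sum_le fun i _ => ?_
  rw [map_mul, map_pow, map_pow]
  exact mul_le_one' (pow_le_one' hsZ i) (pow_le_one' hr1.le _)

end H13S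
end

-- from Lib.H13S.LD2
section

open NumberField IsDedekindDomain

namespace H13S

open H55P H28G H55B

/-- Chunk LD2 (S/M). Steps A, B, C together. step_a gives Z; step_b: a = sum over j < l of g_j y^j; y^j = sum over i < l of a_(j,i) Z^i with a_(j,i) in L; so a = sum over i < l of (sum over j of g_j a_(j,i)) Z^i, the coefficients are fixed by every s in
L.fixingSubgroup with Inert V s. step_c: V.valuation (s a - a) ≤ V.valuation (s Z - Z), and step_a: (...)^(l-1) ≤ V.valuation l. -/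
theorem coef_bound {F₀ : Type} [Field F₀] [NumberField F₀] {Ω : Type} [Field Ω] [CharZero Ω] [Algebra F₀ Ω]
    [IsAlgClosure F₀ Ω] (L : IntermediateField F₀ Ω) [NumberField L] (V : ValuationSubring Ω)
    (w : HeightOneSpectrum (𝓞 L)) (hw : Abv L V w) (l : ℕ) (hl : l.Prime) (h3 : 3 ≤ l)
    (hV : V.valuation (l : Ω) < 1)
    (hμ : ∀ ζ : Ω, ζ ^ l = 1 → ζ ∈ L) (m : L) (hm : m ≠ 0) (y : Ω) (hy : y ^ l = (m : Ω))
    (hlev : ¬ ∃ z : L, z ≠ 0 ∧ w.valuation L (m / z ^ l - 1) ≤ WithZero.exp (-2 : ℤ))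
    (a : Ω) (ha : V.valuation a ≤ 1) (hf : ∀ s ∈ L.fixingSubgroup, Inert V s → s y = y → s a = a)
    (s : Ω ≃ₐ[F₀] Ω) (hs : s ∈ L.fixingSubgroup) (hi : Inert V s) :
    V.valuation (s a - a) ^ (l - 1) ≤ V.valuation (l : Ω) := by
  classical
  obtain ⟨Z, ⟨t, ht, hZt⟩, hZ1, hZ2, hZ3⟩ := step_a L V w hw l hl h3 hV hμ m hm y hy hlev
  have hy0 : y ≠ 0 := by
    rintro rfl
    rw [zero_pow hl.ne_zero] at hy
    exact hm (Subtype.ext hy.symm)
  have hyL : y ^ l ∈ L := by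
    rw [hy]
    exact m.2
  obtain ⟨g, hg, hag⟩ := step_b L V l hl hμ y hy0 hyL a hf
  have hex : ∀ j : ℕ, ∃ A : ℕ → L, j < l → y ^ j = ∑ i ∈ Finset.range l, (A i : Ω) * Z ^ i := by
    intro j
    by_cases hj : j < l
    · obtain ⟨A, hA⟩ := hZ3 j hj
      exact ⟨A, fun _ => hA⟩
    · exact ⟨fun _ => 0, fun h => absurd h hj⟩
  choose A hA using hex
  set g' : ℕ → Ω := fun i => ∑ j ∈ Finset.range l, g j * (A j i : Ω) with hg'
  have hfix : ∀ i, ∀ σ ∈ L.fixingSubgroup, Inert V σ → σ (g' i) = g' i := by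
    intro i σ hσ hσi
    rw [hg']
    show σ (∑ j ∈ Finset.range l, g j * (A j i : Ω)) = ∑ j ∈ Finset.range l, g j * (A j i : Ω)
    rw [map_sum]
    refine Finset.sum_congr rfl fun j _ => ?_
    rw [map_mul, hg j σ hσ hσi, (IntermediateField.mem_fixingSubgroup_iff _ _).1 hσ _ (A j i).2]
  have hsum : a = ∑ i ∈ Finset.range l, g' i * Z ^ i := by
    rw [hag]
    have h1 : ∀ j ∈ Finset.range l, g j * y ^ j = ∑ i ∈ Finset.range l, g j * (A j i : Ω) * Z ^ i := by
      intro j hj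
      rw [hA j (Finset.mem_range.1 hj), Finset.mul_sum]
      refine Finset.sum_congr rfl fun i _ => ?_
      ring
    rw [Finset.sum_congr rfl h1, Finset.sum_comm]
    refine Finset.sum_congr rfl fun i _ => ?_
    rw [hg']
    show _ = (∑ j ∈ Finset.range l, g j * (A j i : Ω)) * Z ^ i
    rw [Finset.sum_mul]
  rw [hsum] at ha ⊢
  have h1 := step_c L V w hw l hl.pos Z t ht hZt g' hfix ha s hs hi
  exact (pow_le_pow_left' h1 _).trans (hZ2 s hs)

end H13S
end

-- from Lib.H55P.B4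
section

open NumberField IsDedekindDomain

namespace H55P

open H55N
open H55B (g)

variable {F : Type} [Field F] [NumberField F] [IQ F] {K : Type} [Field K] [NumberField K] [Algebra F K] {m : ℕ}

/-! Chunk B4 (M). Summation by parts: existence of G.
For every i, c_i is a prime ideal with residue field of p_i elements (absNorm = p_i prime), w_i not in c_i. So for x in O_K there
is a unique t_i(x) in {1..p_i} with x - t_i(x) w_i in c_i (the residues t w_i, t = 1..p_i, are distinct: (t-t') w_i in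
c_i implies t - t' in c_i, c_i meets Z in p_i Z; pigeonhole). Then t_i(x + w_i) - t_i(x) = 1 if t_i(x) < p_i, and = 1 - p_i if t_i(x) = p_i, i.e. iff x
in c_i (p_i w_i in c_i). So t_i(x+w_i) - t_i(x) = 1 - p_i [x in c_i], the i-th factor of g; and
t_i(x + w_k) = t_i(x) for k <> i since w_k in c_i (Dirs.oth). Let G(x) = prod_i t_i(x) (complex numbers, bounded by prod p_i). Then
prod_i (t_i(x+w_i) - t_i(x)) = sum_T (-1)^(|I|-|T|) G(x + w_T), |I| = 2(m+1) even, so g(x) = sum_T (-1)^|T| G(x+w_T)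
(Finset.prod_sub or induction). For h absolutely summable on X: sum_X g h = sum_T (-1)^|T| sum_{x in X} G(x+w_T) h(x) =
sum_T (-1)^|T| sum_{x in X} G(x) h(x - w_T) (translation by w_T in I is a bijection of X; all sums are absolutely convergent as
G is bounded) = sum_X G Dif h. -/

omit [Algebra F K] in
/-- The normalised residue map of a prime ideal of degree one. -/
theorem B4_map (c : Ideal (𝓞 K)) (p : ℕ) (hp : p.Prime) (hc : Ideal.absNorm c = p) (w : 𝓞 K)
    (hw : w ∉ c) : ∃ u : 𝓞 K → ZMod p, (∀ x y, u (x + y) = u x + u y) ∧ (∀ x, u x = 0 ↔ x ∈ c) ∧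
      u w = 1 := by
  classical
  have hp' : Fact p.Prime := ⟨hp⟩
  have hcard : Nat.card (𝓞 K ⧸ c) = p := by
    rw [← hc, Ideal.absNorm_apply, Submodule.cardQuot_apply]
  have hfin : Finite (𝓞 K ⧸ c) := Nat.finite_of_card_ne_zero (by rw [hcard]; exact hp.ne_zero)
  have hft : Fintype (𝓞 K ⧸ c) := Fintype.ofFinite _
  have hcard2 : Fintype.card (𝓞 K ⧸ c) = p := by
    rw [← Nat.card_eq_fintype_card, hcard]
  let eq : ZMod p ≃+* (𝓞 K ⧸ c) := ZMod.ringEquivOfPrime _ hp hcard2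
  let φ : 𝓞 K → ZMod p := fun x => eq.symm (Ideal.Quotient.mk c x)
  have hφ : ∀ x, φ x = 0 ↔ x ∈ c := by
    intro x
    change eq.symm (Ideal.Quotient.mk c x) = 0 ↔ x ∈ c
    rw [map_eq_zero_iff eq.symm eq.symm.injective, Ideal.Quotient.eq_zero_iff_mem]
  have hw0 : φ w ≠ 0 := fun h => hw ((hφ w).1 h)
  refine ⟨fun x => φ x * (φ w)⁻¹, ?_, ?_, ?_⟩
  · intro x y
    have : φ (x + y) = φ x + φ y := by
      change eq.symm (Ideal.Quotient.mk c (x + y)) = _
      rw [map_add, map_add]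
    simp only [this, add_mul]
  · intro x
    simp only [mul_eq_zero, inv_eq_zero, hw0, or_false]
    exact hφ x
  · exact mul_inv_cancel₀ hw0

theorem B4_val (p : ℕ) (hp : p.Prime) (a : ZMod p) :
    ((a.val : ℕ) : ℂ) - (((a - 1).val : ℕ) : ℂ) = if a = 0 then 1 - (p : ℂ) else 1 := by
  have hp' : Fact p.Prime := ⟨hp⟩
  obtain ⟨n, rfl⟩ : ∃ n, p = n + 1 := ⟨p - 1, by have := hp.one_lt; omega⟩
  split_ifs with h
  · rw [h, zero_sub, ZMod.val_neg_one, ZMod.val_zero]
    push_cast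
    ring
  · have h1 : (1 : ZMod (n + 1)).val = 1 := by
      have := ZMod.val_one (n + 1)
      exact this
    have h2 : 1 ≤ a.val := by
      rcases Nat.eq_zero_or_pos a.val with h' | h'
      · exact absurd ((ZMod.val_eq_zero a).1 h') h
      · exact h'
    rw [ZMod.val_sub (by rw [h1]; exact h2), h1, Nat.cast_sub h2]
    push_cast
    ring

theorem gspec_exists (D : Ctx F K m) (hD : D.Ok) (A : Fin (m + 1) → K)
    (w : Fin (m + 1) × Fin 2 → 𝓞 K) (h : D.Dirs A w) : ∃ G : 𝓞 K → ℂ, D.GSpec w G := by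
  classical
  choose u hu_add hu_zero hu_one using fun i => B4_map (D.c i) (D.p i) (hD.smooth.prime i)
    (hD.smooth.norm i) (w i) (h.self i)
  -- the functions t_i
  let t : Fin (m + 1) × Fin 2 → 𝓞 K → ℂ := fun i x => (((u i x - 1).val : ℕ) : ℂ)
  have hbd : ∀ i x, ‖t i x‖ ≤ (D.p i : ℝ) := by
    intro i x
    have hpi : Fact (D.p i).Prime := ⟨hD.smooth.prime i⟩
    change ‖(((u i x - 1).val : ℕ) : ℂ)‖ ≤ _
    rw [Complex.norm_natCast]
    exact_mod_cast (ZMod.val_lt _).le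
  have hself : ∀ i x, t i (x + w i) - t i x = if x ∈ D.c i then 1 - (D.p i : ℂ) else 1 := by
    intro i x
    change (((u i (x + w i) - 1).val : ℕ) : ℂ) - (((u i x - 1).val : ℕ) : ℂ) = _
    rw [hu_add, hu_one, add_sub_cancel_right, B4_val _ (hD.smooth.prime i)]
    by_cases hx : x ∈ D.c i
    · rw [if_pos hx, if_pos ((hu_zero i x).2 hx)]
    · rw [if_neg hx, if_neg (fun h' => hx ((hu_zero i x).1 h'))]
  have hoth : ∀ i k x, k ≠ i → t i (x + w k) = t i x := by
    intro i k x hk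
    change (((u i (x + w k) - 1).val : ℕ) : ℂ) = (((u i x - 1).val : ℕ) : ℂ)
    rw [hu_add, (hu_zero i (w k)).2 (h.oth k i (Ne.symm hk)), add_zero]
  let G : 𝓞 K → ℂ := fun x => ∏ i, t i x
  -- values at shifted points
  have hshift : ∀ (T : Finset (Fin (m + 1) × Fin 2)) (i : Fin (m + 1) × Fin 2) (x : 𝓞 K),
      t i (x + ∑ k ∈ T, w k) = if i ∈ T then t i (x + w i) else t i x := by
    intro T
    induction T using Finset.induction_on with
    | empty => intro i x; simp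
    | insert a T ha ih =>
      intro i x
      rw [Finset.sum_insert ha, ← add_assoc, ih i (x + w a)]
      by_cases hia : i = a
      · subst hia
        rw [if_neg ha, if_pos (Finset.mem_insert_self _ _)]
      · by_cases hiT : i ∈ T
        · rw [if_pos hiT, if_pos (Finset.mem_insert_of_mem hiT)]
          rw [show x + w a + w i = (x + w i) + w a by ring, hoth i a _ (Ne.symm hia)]
        · rw [if_neg hiT, if_neg (by simp [hia, hiT]), hoth i a _ (Ne.symm hia)]
  have hG : ∀ (T : Finset (Fin (m + 1) × Fin 2)) (x : 𝓞 K), G (x + ∑ k ∈ T, w k) =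
      (∏ i ∈ T, t i (x + w i)) * ∏ i ∈ Finset.univ \ T, t i x := by
    intro T x
    change ∏ i, t i (x + ∑ k ∈ T, w k) = _
    rw [← Finset.prod_sdiff (Finset.subset_univ T), mul_comm]
    congr 1
    · exact Finset.prod_congr rfl fun i hi => by rw [hshift, if_pos hi]
    · exact Finset.prod_congr rfl fun i hi => by
        rw [hshift, if_neg (Finset.mem_sdiff.1 hi).2]
  have hg : ∀ x, D.g x = ∑ T ∈ (Finset.univ : Finset (Fin (m + 1) × Fin 2)).powerset,
      (-1) ^ T.card * G (x + ∑ k ∈ T, w k) := by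
    intro x
    have h1 : D.g x = ∏ i, (t i (x + w i) - t i x) := by
      change ∏ i, _ = _
      refine Finset.prod_congr rfl fun i _ => ?_
      rw [hself]
    rw [h1]
    simp only [sub_eq_add_neg]
    rw [Finset.prod_add]
    refine Finset.sum_congr rfl fun T _ => ?_
    rw [hG, Finset.prod_neg]
    have hcard : (Finset.univ \ T).card + T.card = (m + 1) * 2 := by
      rw [Finset.card_sdiff_add_card_eq_card (Finset.subset_univ T)]
      simp
    have hpar : (-1 : ℂ) ^ (Finset.univ \ T).card = (-1) ^ T.card := by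
      have h2 : (-1 : ℂ) ^ ((Finset.univ \ T).card + T.card) = 1 := by
        rw [hcard, mul_comm, pow_mul]
        norm_num
      rw [pow_add] at h2
      have h3 : (-1 : ℂ) ^ T.card * (-1) ^ T.card = 1 := by
        rw [← mul_pow]; norm_num
      calc (-1 : ℂ) ^ (Finset.univ \ T).card
          = (-1) ^ (Finset.univ \ T).card * ((-1) ^ T.card * (-1) ^ T.card) := by
            rw [h3, mul_one]
        _ = ((-1) ^ (Finset.univ \ T).card * (-1) ^ T.card) * (-1) ^ T.card := by ring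
        _ = (-1) ^ T.card := by rw [h2, one_mul]
    rw [hpar]
    ring
  refine ⟨G, ⟨∏ i, (D.p i : ℝ), ?_⟩, ?_⟩
  · intro x
    change ‖∏ i, t i x‖ ≤ _
    rw [norm_prod]
    exact Finset.prod_le_prod (fun i _ => norm_nonneg _) fun i _ => hbd i x
  · intro f hf
    have hGb : ∀ x, ‖G x‖ ≤ ∏ i, (D.p i : ℝ) := by
      intro x
      change ‖∏ i, t i x‖ ≤ _
      rw [norm_prod]
      exact Finset.prod_le_prod (fun i _ => norm_nonneg _) fun i _ => hbd i x
    have hmemT : ∀ T : Finset (Fin (m + 1) × Fin 2), ∑ k ∈ T, w k ∈ D.I := fun T =>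
      D.I.sum_mem fun k _ => h.mem k
    -- translation
    let tr : Finset (Fin (m + 1) × Fin 2) → D.X ≃ D.X := fun T =>
      { toFun := fun x => ⟨x.1 + ∑ k ∈ T, w k, D.X_add x.2 (hmemT T)⟩
        invFun := fun x => ⟨x.1 - ∑ k ∈ T, w k, D.X_sub x.2 (hmemT T)⟩
        left_inv := fun x => by
          apply Subtype.ext
          change x.1 + ∑ k ∈ T, w k - ∑ k ∈ T, w k = x.1
          ring
        right_inv := fun x => by
          apply Subtype.ext
          change x.1 - ∑ k ∈ T, w k + ∑ k ∈ T, w k = x.1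
          ring }
    have hs1 : ∀ T : Finset (Fin (m + 1) × Fin 2),
        Summable fun x : D.X => (-1 : ℂ) ^ T.card * G (x.1 + ∑ k ∈ T, w k) * f x := by
      intro T
      refine Summable.of_norm_bounded (g := fun x : D.X => (∏ i, (D.p i : ℝ)) * ‖f x‖)
        (hf.mul_left _) fun x => ?_
      rw [norm_mul, norm_mul, norm_pow, norm_neg, NormOneClass.norm_one, one_pow, one_mul]
      exact mul_le_mul_of_nonneg_right (hGb _) (norm_nonneg _)
    have hs2 : ∀ T : Finset (Fin (m + 1) × Fin 2),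
        Summable fun x : D.X => G x.1 * ((-1 : ℂ) ^ T.card * f (x.1 - ∑ k ∈ T, w k)) := by
      intro T
      have := (Equiv.summable_iff (tr T).symm).2 (hs1 T)
      refine this.congr fun x => ?_
      change (-1 : ℂ) ^ T.card * G (x.1 - ∑ k ∈ T, w k + ∑ k ∈ T, w k) *
          f (x.1 - ∑ k ∈ T, w k) = G x.1 * ((-1 : ℂ) ^ T.card * f (x.1 - ∑ k ∈ T, w k))
      rw [sub_add_cancel]
      ring
    calc ∑' x : D.X, D.g x * f x
        = ∑' x : D.X, ∑ T ∈ (Finset.univ : Finset (Fin (m + 1) × Fin 2)).powerset,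
            (-1 : ℂ) ^ T.card * G (x.1 + ∑ k ∈ T, w k) * f x := by
          refine tsum_congr fun x => ?_
          rw [hg, Finset.sum_mul]
      _ = ∑ T ∈ (Finset.univ : Finset (Fin (m + 1) × Fin 2)).powerset,
            ∑' x : D.X, (-1 : ℂ) ^ T.card * G (x.1 + ∑ k ∈ T, w k) * f x :=
          Summable.tsum_finsetSum fun T _ => hs1 T
      _ = ∑ T ∈ (Finset.univ : Finset (Fin (m + 1) × Fin 2)).powerset,
            ∑' x : D.X, G x.1 * ((-1 : ℂ) ^ T.card * f (x.1 - ∑ k ∈ T, w k)) := by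
          refine Finset.sum_congr rfl fun T _ => ?_
          rw [← Equiv.tsum_eq (tr T).symm]
          refine tsum_congr fun x => ?_
          change (-1 : ℂ) ^ T.card * G (x.1 - ∑ k ∈ T, w k + ∑ k ∈ T, w k) *
              f (x.1 - ∑ k ∈ T, w k) = _
          rw [sub_add_cancel]
          ring
      _ = ∑' x : D.X, ∑ T ∈ (Finset.univ : Finset (Fin (m + 1) × Fin 2)).powerset,
            G x.1 * ((-1 : ℂ) ^ T.card * f (x.1 - ∑ k ∈ T, w k)) :=
          (Summable.tsum_finsetSum fun T _ => hs2 T).symm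
      _ = ∑' x : D.X, G x * Dif w Finset.univ f x := by
          refine tsum_congr fun x => ?_
          rw [Dif, Finset.mul_sum]

end H55P
end

-- from Lib.H13S.LU
section

open NumberField IsDedekindDomain

namespace H13S

open H55P H28G H55B

/-- Every integral element is congruent to an l-th power modulo a prime above l. -/
theorem lu_frob {L : Type} [Field L] [NumberField L] (w : HeightOneSpectrum (𝓞 L)) (l : ℕ)
    (hl : l.Prime) (hlw : (l : 𝓞 L) ∈ w.asIdeal) (u : L) (hu : w.valuation L u ≤ 1) :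
    ∃ b : L, w.valuation L (u - b ^ l) < 1 := by
  obtain ⟨u₀, hu₀⟩ := w.exists_valuation_sub_lt_of_integer hu 1
  have hm := w.isMaximal
  let k := 𝓞 L ⧸ w.asIdeal
  let _ : Field k := Ideal.Quotient.field w.asIdeal
  have hfin : Finite k := Ring.HasFiniteQuotients.finiteQuotient w.ne_bot
  have hch : CharP k l := by
    rw [CharP.charP_iff_prime_eq_zero hl, ← map_natCast (Ideal.Quotient.mk w.asIdeal),
      Ideal.Quotient.eq_zero_iff_mem]
    exact hlw
  have hF : Fact l.Prime := ⟨hl⟩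
  obtain ⟨b', hb'⟩ := surjective_frobenius k l (Ideal.Quotient.mk w.asIdeal u₀)
  obtain ⟨b, rfl⟩ := Ideal.Quotient.mk_surjective b'
  rw [frobenius_def, ← map_pow, eq_comm, ← sub_eq_zero, ← map_sub, Ideal.Quotient.eq_zero_iff_mem] at hb'
  refine ⟨algebraMap (𝓞 L) L b, ?_⟩
  have h1 : w.valuation L (algebraMap (𝓞 L) L (u₀ - b ^ l)) < 1 := (w.valuation_lt_one_iff_mem _).2 hb'
  have h2 : w.valuation L (algebraMap (𝓞 L) L u₀ - u) < 1 := by
    simpa using hu₀
  have e : u - algebraMap (𝓞 L) L b ^ l =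
      algebraMap (𝓞 L) L (u₀ - b ^ l) - (algebraMap (𝓞 L) L u₀ - u) := by
    rw [map_sub, map_pow]
    ring
  rw [e]
  exact Valuation.map_sub_lt _ h1 h2

theorem lu_exp {x : WithZero (Multiplicative ℤ)} (hx : x < 1) : x ≤ WithZero.exp (-1 : ℤ) := by
  by_cases h0 : x = 0
  · rw [h0]
    exact zero_le
  · rw [← WithZero.exp_log h0] at hx ⊢
    rw [← WithZero.exp_zero, WithZero.exp_lt_exp] at hx
    rw [WithZero.exp_le_exp]
    omega

/-- Chunk LU (M). The level of a Kummer generator fixed by inertia, at a prime w above l. value_fixed: V.valuation y = V.valuation a, a in L; y₁ = y/a, u = y₁^l = m/a^l is a w-unit. The residue field of w is finite of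
characteristic l, so its Frobenius is surjective: b in L, a w-unit, with w.valuation (u - b^l) < 1. y₂ = y₁/b: y₂^l = u/b^l =: u₂, V.valuation (u₂ - 1) < 1, so V.valuation (y₂ - 1) < 1
((y₂ - 1)^l = y₂^l - 1 modulo l). Z = y₂ - 1 is fixed by the inertia group over L; if Z = 0 take z = a b. Otherwise value_fixed: V.valuation Z is the value of an element of L, < 1, so at most
the value of a uniformizer t of w. u₂ - 1 = (1 + Z)^l - 1 = Z^l + l Z (...): value at most max(value t^l, value l * value t) ≤ (value t)^2, as l ≥ 2 and value l ≤ value t. z = a b. -/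
theorem level_unr {F₀ : Type} [Field F₀] [NumberField F₀] {Ω : Type} [Field Ω] [Algebra F₀ Ω]
    [IsAlgClosure F₀ Ω] (L : IntermediateField F₀ Ω) [NumberField L] (V : ValuationSubring Ω)
    (w : HeightOneSpectrum (𝓞 L)) (hw : Abv L V w) (l : ℕ) (hl : l.Prime) (hV : V.valuation (l : Ω) < 1) (m : L)
    (hm : m ≠ 0) (y : Ω) (hy : y ^ l = (m : Ω)) (h : ∀ s ∈ L.fixingSubgroup, Inert V s → s y = y) :
    ∃ z : L, z ≠ 0 ∧ w.valuation L (m / z ^ l - 1) ≤ WithZero.exp (-2 : ℤ) := by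
  have hl0 : l ≠ 0 := hl.ne_zero
  have hmΩ : (m : Ω) ≠ 0 := fun h0 => hm (Subtype.ext h0)
  have hy0 : y ≠ 0 := by
    rintro rfl
    rw [zero_pow hl0] at hy
    exact hmΩ hy.symm
  obtain ⟨a, ha, hya⟩ := value_fixed L V y hy0 h
  have haΩ : (a : Ω) ≠ 0 := fun h0 => ha (Subtype.ext h0)
  have hva : V.valuation (a : Ω) ≠ 0 := (Valuation.ne_zero_iff _).2 haΩ
  set u : L := m / a ^ l with hu
  have huΩ : ((u : L) : Ω) = y ^ l / (a : Ω) ^ l := by
    rw [hu, hy]
    push_cast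
    rfl
  have hvu : V.valuation ((u : L) : Ω) = 1 := by
    rw [huΩ, map_div₀, map_pow, map_pow, hya, div_self (pow_ne_zero _ hva)]
  have h1Ω : (((1 : L) : L) : Ω) = 1 := rfl
  have hwu : w.valuation L u = 1 := by
    refine le_antisymm ?_ ?_
    · have := (hw.le u 1).1 (by rw [hvu, h1Ω, map_one])
      rwa [map_one] at this
    · have := (hw.le 1 u).1 (by rw [hvu, h1Ω, map_one])
      rwa [map_one] at this
  have hlL : (((l : L) : L) : Ω) = (l : Ω) := by push_cast; rfl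
  have hwl : w.valuation L (l : L) < 1 := (hw.lt _).1 (by rw [hlL]; exact hV)
  have hlw : (l : 𝓞 L) ∈ w.asIdeal := by
    rw [← w.valuation_lt_one_iff_mem (K := L)]
    change w.valuation L (algebraMap (𝓞 L) L (l : 𝓞 L)) < 1
    rw [map_natCast]
    exact hwl
  obtain ⟨b, hb⟩ := lu_frob w l hl hlw u hwu.le
  have hwbl : w.valuation L (b ^ l) = 1 := by
    have e : b ^ l = u + -(u - b ^ l) := by ring
    rw [e, Valuation.map_add_eq_of_lt_left, hwu]
    rw [Valuation.map_neg, hwu]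
    exact hb
  have hb0 : b ≠ 0 := by
    rintro rfl
    rw [zero_pow hl0, map_zero] at hwbl
    exact zero_ne_one hwbl
  have hbΩ : (b : Ω) ≠ 0 := fun h0 => hb0 (Subtype.ext h0)
  have hvbl : V.valuation ((b : Ω) ^ l) = 1 := by
    have e : (((b ^ l : L) : L) : Ω) = (b : Ω) ^ l := by push_cast; rfl
    rw [← e]
    refine le_antisymm ?_ ?_
    · have := (hw.le (b ^ l) 1).2 (by rw [hwbl, map_one])
      rwa [h1Ω, map_one] at this
    · have := (hw.le 1 (b ^ l)).2 (by rw [hwbl, map_one])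
      rwa [h1Ω, map_one] at this
  have hvb : V.valuation (b : Ω) = 1 := by
    rw [map_pow] at hvbl
    exact (pow_eq_one_iff.1 hvbl).resolve_right hl0
  set z : L := a * b with hz
  have hz0 : z ≠ 0 := mul_ne_zero ha hb0
  have hzΩ : (z : Ω) = (a : Ω) * b := rfl
  have hzΩ0 : (z : Ω) ≠ 0 := by
    rw [hzΩ]
    exact mul_ne_zero haΩ hbΩ
  set D : L := m / z ^ l - 1 with hD
  have hDu : D = (u - b ^ l) / b ^ l := by
    rw [hD, hu, hz, mul_pow]
    field_simp
  have hwD : w.valuation L D < 1 := by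
    rw [hDu, map_div₀, hwbl, div_one]
    exact hb
  have hvD : V.valuation ((D : L) : Ω) < 1 := (hw.lt D).2 hwD
  set Z : Ω := y / z - 1 with hZ
  have hvy2 : V.valuation (y / z) = 1 := by
    rw [hzΩ, map_div₀, map_mul, hvb, mul_one, hya, div_self hva]
  have hZV : Z ∈ V := by
    rw [← V.valuation_le_one_iff]
    exact Valuation.map_sub_le _ hvy2.le (by rw [map_one])
  obtain ⟨r, hr⟩ := exists_add_pow_prime_eq hl (⟨Z, hZV⟩ : V) 1
  have hrΩ : (Z + 1) ^ l = Z ^ l + 1 + l * Z * r := by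
    have := congrArg (fun x : V => (x : Ω)) hr
    push_cast at this
    rw [one_pow, mul_one] at this
    exact this
  have hDΩ : ((D : L) : Ω) = Z ^ l + l * Z * r := by
    have e1 : ((D : L) : Ω) = (y / z) ^ l - 1 := by
      rw [hD, div_pow, hy]
      push_cast
      rfl
    have e2 : y / (z : Ω) = Z + 1 := by rw [hZ]; ring
    rw [e1, e2, hrΩ]
    ring
  have hvZ : V.valuation Z < 1 := by
    have hvZ1 : V.valuation Z ≤ 1 := (V.valuation_le_one_iff _).2 hZV
    have hvr : V.valuation (r : Ω) ≤ 1 := (V.valuation_le_one_iff _).2 r.2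
    have e1 : V.valuation (l * Z * r) < 1 := by
      rw [map_mul, map_mul]
      calc V.valuation (l : Ω) * V.valuation Z * V.valuation (r : Ω) ≤ V.valuation (l : Ω) * 1 * 1 :=
            mul_le_mul' (mul_le_mul' le_rfl hvZ1) hvr
        _ < 1 := by rw [mul_one, mul_one]; exact hV
    have e2 : V.valuation (Z ^ l) < 1 := by
      have e3 : Z ^ l = ((D : L) : Ω) - l * Z * r := by rw [hDΩ]; ring
      rw [e3]
      exact Valuation.map_sub_lt _ hvD e1
    rw [map_pow] at e2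
    exact lt_of_not_ge fun h5 => not_lt.2 (one_le_pow_of_one_le' h5 l) e2
  refine ⟨z, hz0, ?_⟩
  rw [← hD]
  by_cases hZ0 : Z = 0
  · have hD0 : ((D : L) : Ω) = 0 := by
      rw [hDΩ, hZ0, zero_pow hl0]
      ring
    have hD0' : D = 0 := Subtype.ext hD0
    rw [hD0', map_zero]
    exact zero_le
  · have hfix : ∀ s ∈ L.fixingSubgroup, Inert V s → s Z = Z := by
      intro s hs hs'
      have e1 : s (z : Ω) = z := (IntermediateField.mem_fixingSubgroup_iff L s).1 hs _ z.2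
      rw [hZ, map_sub, map_div₀, h s hs hs', e1, map_one]
    obtain ⟨a', ha', hZa⟩ := value_fixed L V Z hZ0 hfix
    have hwa' : w.valuation L a' < 1 := (hw.lt a').1 (by rw [← hZa]; exact hvZ)
    have h6 := lu_exp hwa'
    have h7 := lu_exp hwl
    have hvr : V.valuation (r : Ω) ≤ 1 := (V.valuation_le_one_iff _).2 r.2
    have hmax : V.valuation ((D : L) : Ω) ≤
        max (V.valuation (((a' ^ 2 : L) : L) : Ω)) (V.valuation (((l * a' : L) : L) : Ω)) := by
      rw [hDΩ]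
      have e2 : (((a' ^ 2 : L) : L) : Ω) = (a' : Ω) ^ 2 := by push_cast; rfl
      have e3 : (((l * a' : L) : L) : Ω) = (l : Ω) * (a' : Ω) := by push_cast; rfl
      rw [e2, e3]
      refine Valuation.map_add_le _ (le_max_of_le_left ?_) (le_max_of_le_right ?_)
      · rw [map_pow, map_pow, hZa]
        rw [hZa] at hvZ
        exact pow_le_pow_right_of_le_one' hvZ.le hl.two_le
      · rw [map_mul, map_mul, map_mul, hZa]
        calc _ ≤ V.valuation (l : Ω) * V.valuation (a' : Ω) * 1 := mul_le_mul' le_rfl hvr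
          _ = _ := mul_one _
    have hexp : WithZero.exp (-2 : ℤ) = WithZero.exp (-1 : ℤ) * WithZero.exp (-1 : ℤ) := by
      rw [← WithZero.exp_add]
      norm_num
    rw [hexp]
    rcases max_choice (V.valuation (((a' ^ 2 : L) : L) : Ω)) (V.valuation (((l * a' : L) : L) : Ω)) with
      hc | hc
    · rw [hc] at hmax
      have h8 := (hw.le D (a' ^ 2)).1 hmax
      rw [map_pow, sq] at h8
      exact h8.trans (mul_le_mul' h6 h6)
    · rw [hc] at hmax
      have h8 := (hw.le D (l * a')).1 hmax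
      rw [map_mul] at h8
      exact h8.trans (mul_le_mul' h7 h6)

end H13S
end

-- from Lib.H13S.OR1
section

open NumberField IsDedekindDomain

namespace H13S

open H55P H28G H55B

/-- Chunk OR1 (S). value_fixed: V.valuation y = V.valuation a, so V.valuation m = V.valuation (a^l); Abv.le: w.valuation m = w.valuation (a^l) =
(w.valuation a)^l, w.valuation a = exp k. -/
theorem ord_of_unr {F₀ : Type} [Field F₀] [NumberField F₀] {Ω : Type} [Field Ω] [Algebra F₀ Ω]
    [IsAlgClosure F₀ Ω] (L : IntermediateField F₀ Ω) [NumberField L] (V : ValuationSubring Ω)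
    (w : HeightOneSpectrum (𝓞 L)) (hw : Abv L V w) (l : ℕ) (m : L) (hm : m ≠ 0) (y : Ω)
    (hy : y ^ l = (m : Ω)) (h : ∀ s ∈ L.fixingSubgroup, Inert V s → s y = y) :
    ∃ k : ℤ, w.valuation L m = WithZero.exp ((l : ℤ) * k) := by
  by_cases hl : l = 0
  · subst hl
    have h1 : m = 1 := Subtype.ext (by rw [← hy, pow_zero]; rfl)
    refine ⟨0, ?_⟩
    rw [h1, map_one, mul_zero, WithZero.exp_zero]
  have hy0 : y ≠ 0 := by
    rintro rfl
    rw [zero_pow hl] at hy
    exact hm (Subtype.ext hy.symm)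
  obtain ⟨a, ha0, ha⟩ := value_fixed L V y hy0 h
  have h1 : V.valuation (m : Ω) = V.valuation ((a ^ l : L) : Ω) := by
    rw [← hy, map_pow, ha]
    exact (map_pow V.valuation (a : Ω) l).symm
  have h2 : w.valuation L m = w.valuation L (a ^ l) :=
    le_antisymm ((hw.le m (a ^ l)).1 h1.le) ((hw.le (a ^ l) m).1 h1.ge)
  have h3 : w.valuation L a ≠ 0 := (Valuation.ne_zero_iff _).2 ha0
  refine ⟨WithZero.log (w.valuation L a), ?_⟩
  rw [h2, map_pow]
  conv_lhs => rw [← WithZero.exp_log h3]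
  rw [← WithZero.exp_nsmul, nsmul_eq_mul]

end H13S
end

-- from Lib.H55P.L4
section

open NumberField IsDedekindDomain

namespace H55P

open H55N
open H55B (g)

variable {F : Type} [Field F] [NumberField F] [IQ F] {K : Type} [Field K] [NumberField K] [Algebra F K] {m : ℕ}

/-! Chunk L4 (M). Direction data from directions d_j and smoothing primes c_i not containing the d_j: P = prod_k p_k, w_i = (P/p_i) d_{i.1}, i.e.
w_i = (prod_{k <> i} p_k) d_{i.1}. mem: d in I. oth: for k <> i the factor p_k is in c_k (absNorm c_k = p_k: Ideal.absNorm_mem). self: c_i is prime (Ideal.isPrime_of_irreducible_absNorm),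
d_{i.1} not in c_i, and p_k not in c_i for k <> i: p_k and p_i are distinct primes, c_i contains p_i, so it would contain 1. orth: Tr_eq, linearity. int, low, ind: hypotheses. -/

theorem dirs_of (D : Ctx F K m) (hD : D.Ok) (A : Fin (m + 1) → K) (d : Fin (m + 1) → 𝓞 K)
    (hd : ∀ j, d j ∈ D.I) (hdc : ∀ i j, d j ∉ D.c i)
    (horth : ∀ j k, k ≠ j → Algebra.trace F K ((d j : K) * A k) = 0)
    (hint : ∀ x ∈ D.X, ∀ k, ∃ y : (𝓞 F), D.Tr (A k) x = (eF F) y)
    (hlow : ∀ x ∈ D.X, ∀ k, 1 ≤ ‖D.Tr (A k) x‖) (hA : LinearIndependent F A) :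
    ∃ w, D.Dirs A w := by
  classical
  have hprime : ∀ i, (D.c i).IsPrime := fun i =>
    Ideal.isPrime_of_irreducible_absNorm (by
      rw [hD.smooth.norm i]
      exact (hD.smooth.prime i))
  have hpc : ∀ i, (D.p i : 𝓞 K) ∈ D.c i := fun i => by
    have := Ideal.absNorm_mem (D.c i)
    rwa [hD.smooth.norm i] at this
  refine ⟨fun i => ((∏ k ∈ Finset.univ.erase i, D.p k : ℕ) : 𝓞 K) * d i.1, ?_, ?_, ?_, ?_, hint,
    hlow, hA⟩
  · intro i
    exact D.I.mul_mem_left _ (hd _)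
  · intro i h
    rcases (hprime i).mem_or_mem h with h1 | h1
    · have hcop : Nat.Coprime (∏ k ∈ Finset.univ.erase i, D.p k) (D.p i) := by
        refine Nat.Coprime.prod_left fun k hk => ?_
        rw [Nat.coprime_primes (hD.smooth.prime k) (hD.smooth.prime i)]
        intro h2
        exact (Finset.mem_erase.1 hk).1 (hD.smooth.inj h2)
      have h2 := Nat.isCoprime_iff_coprime.2 hcop
      obtain ⟨a, b, hab⟩ := h2
      apply (hprime i).ne_top
      rw [Ideal.eq_top_iff_one]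
      have h3 := congrArg (Int.cast : ℤ → 𝓞 K) hab
      push_cast at h3
      rw [← h3]
      refine (D.c i).add_mem ((D.c i).mul_mem_left _ ?_) ((D.c i).mul_mem_left _ (hpc i))
      push_cast at h1
      exact h1
    · exact hdc i i.1 h1
  · intro i k hk
    refine (D.c k).mul_mem_right _ ?_
    rw [← Finset.mul_prod_erase (Finset.univ.erase i) (fun k => D.p k)
      (Finset.mem_erase.2 ⟨hk, Finset.mem_univ k⟩)]
    push_cast
    exact (D.c k).mul_mem_right _ (hpc k)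
  · intro i k hk
    rw [Tr_eq D hD.emb]
    have h1 : (((((∏ k ∈ Finset.univ.erase i, D.p k : ℕ) : 𝓞 K) * d i.1 : 𝓞 K)) : K) * A k =
        ((∏ k ∈ Finset.univ.erase i, D.p k : ℕ) : F) • ((d i.1 : K) * A k) := by
      rw [Algebra.smul_def, map_natCast, ← mul_assoc]
      congr 1
    rw [h1, map_smul, horth i.1 k hk, smul_zero, map_zero]

/-- Finiteness of the set of ideals containing a nonzero element. -/
theorem finite_ideals (x : 𝓞 K) (hx : x ≠ 0) : {c : Ideal (𝓞 K) | x ∈ c}.Finite := by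
  classical
  have h : Ideal.span {x} ≠ (0 : Ideal (𝓞 K)) := by
    rw [Ideal.zero_eq_bot, Ne, Ideal.span_singleton_eq_bot]
    exact hx
  have h1 : Fintype {c : Ideal (𝓞 K) // c ∣ Ideal.span {x}} :=
    UniqueFactorizationMonoid.fintypeSubtypeDvd _ h
  have h2 : {c : Ideal (𝓞 K) | c ∣ Ideal.span {x}}.Finite := by
    rw [← Set.finite_coe_iff, Set.coe_ofPred]
    exact Finite.of_fintype _
  refine Set.Finite.subset h2 ?_
  intro c hc
  exact Ideal.dvd_iff_le.2 ((Ideal.span_singleton_le_iff_mem _).2 hc)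

end H55P
end

-- from Lib.H55P.CD
section

open NumberField IsDedekindDomain

namespace H55P

open H55N
open H55B (g)



/-! Chunk PCD (M). Class decomposition modulo an arbitrary ideal J. PORT of Lib/H55N/H12.lean (exists_CD; h12_cong, h12_transv, h12S, h12_finite, h12_prim, exists_rep of H11 do not use the field F:
use them, with (3) f replaced by J and (6) f by g) and Lib/H55N/H13.lean (cd_hasSum; the hypothesis J <> top replaces H13_three: a prime w with J <= w exists). -/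

/-- Data of the class decomposition modulo J: representatives b of the ideal classes prime to g, of the classes
modulo J b, and transversals modulo the units congruent to 1 modulo J. -/
structure CDJ {K : Type} [Field K] [NumberField K] (J g : Ideal (𝓞 K)) (ι : Type)
    (b : ι → Ideal (𝓞 K)) (c₀ : ι → 𝓞 K) (T : ι → Set (𝓞 K)) : Prop where
  ne : ∀ i, b i ≠ ⊥
  cop : ∀ i, IsCoprime (b i) g
  mem : ∀ i, c₀ i ∈ b i
  prim : ∀ i, ∀ w : HeightOneSpectrum (𝓞 K), J ≤ w.asIdeal → c₀ i ∉ w.asIdeal * b i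
  trans : ∀ i, Transv J (XS (J * b i) (c₀ i)) (T i)
  bij : ∀ a : Ideal (𝓞 K), a ≠ ⊥ → IsCoprime a J →
    ∃! q : Σ i, T i, a * b q.1 = Ideal.span {(q.2 : 𝓞 K)}

theorem exists_CDJ {K : Type} [Field K] [NumberField K] (J g : Ideal (𝓞 K)) (hJ : J ≠ ⊥) (hg : g ≠ ⊥)
    (hgJ : g ≤ J) (hJ1 : J ≠ ⊤) :
    ∃ (ι : Type) (_ : Fintype ι) (b : ι → Ideal (𝓞 K)) (c₀ : ι → 𝓞 K) (T : ι → Set (𝓞 K)),
      CDJ J g ι b c₀ T := by
  choose b hb hcop hcl using fun κ : ClassGroup (𝓞 K) =>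
    exists_rep g hg κ
  have hfin : ∀ κ, Finite (Quotient (h12S J (b κ))) := fun κ =>
    h12_finite _ _ hJ (hb κ)
  have hfin2 : Finite (Σ κ : ClassGroup (𝓞 K),
    Quotient (h12S J (b κ))) := inferInstance
  choose T hT using fun i : (Σ κ : ClassGroup (𝓞 K),
    Quotient (h12S J (b κ))) =>
      h12_transv J (XS (J * b i.1) (i.2.out : 𝓞 K))
  refine ⟨Σ κ : ClassGroup (𝓞 K), Quotient (h12S J (b κ)),
    Fintype.ofFinite _, fun i => b i.1, fun i => (i.2.out : 𝓞 K), T, ?_⟩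
  refine ⟨fun i => hb i.1, fun i => hcop i.1, fun i => i.2.out.2.1, fun i => i.2.out.2.2, hT, ?_⟩
  intro a ha hac
  have hκ : ∀ κ, (∃ x : 𝓞 K, a * b κ = Ideal.span {x}) →
      κ = (ClassGroup.mk0 ⟨a, mem_nonZeroDivisors_iff_ne_zero.2 ha⟩)⁻¹ := by
    rintro κ ⟨x, hx⟩
    have h1 : ClassGroup.mk0 (⟨a, mem_nonZeroDivisors_iff_ne_zero.2 ha⟩ *
        ⟨b κ, mem_nonZeroDivisors_iff_ne_zero.2 (hb κ)⟩) = 1 := by
      rw [ClassGroup.mk0_eq_one_iff]
      exact ⟨⟨x, hx⟩⟩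
    rw [map_mul, hcl κ] at h1
    exact eq_inv_of_mul_eq_one_right h1
  obtain ⟨x, hx⟩ : ∃ x : 𝓞 K, a *
      b ((ClassGroup.mk0 ⟨a, mem_nonZeroDivisors_iff_ne_zero.2 ha⟩)⁻¹) = Ideal.span {x} := by
    set κ := (ClassGroup.mk0 ⟨a, mem_nonZeroDivisors_iff_ne_zero.2 ha⟩)⁻¹ with hκd
    have h1 : ClassGroup.mk0 (⟨a, mem_nonZeroDivisors_iff_ne_zero.2 ha⟩ *
        ⟨b κ, mem_nonZeroDivisors_iff_ne_zero.2 (hb κ)⟩) = 1 := by
      rw [map_mul, hcl κ, hκd, mul_inv_cancel]
    rw [ClassGroup.mk0_eq_one_iff] at h1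
    obtain ⟨x, hx⟩ := h1.principal
    exact ⟨x, hx⟩
  generalize (ClassGroup.mk0 ⟨a, mem_nonZeroDivisors_iff_ne_zero.2 ha⟩)⁻¹ = κ at hκ hx
  have hxP := h12_prim J (b κ) a (hb κ) hac x hx
  set q := Quotient.mk (h12S J (b κ)) ⟨x, hxP⟩ with hq
  obtain ⟨u, hu⟩ : (h12S J (b κ)) ⟨x, hxP⟩ q.out :=
    (h12S J (b κ)).iseqv.symm
      (Quotient.mk_out (s := h12S J (b κ)) ⟨x, hxP⟩)
  obtain ⟨t, htT, u1, hu1, hut⟩ := (hT ⟨κ, q⟩).cover ((u : 𝓞 K) * x) hu
  have hspan : Ideal.span {t} = Ideal.span {x} := by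
    have h1 : Ideal.span {(u : 𝓞 K) * x} = Ideal.span {x} := by
      rw [mul_comm, Ideal.span_singleton_mul_right_unit u.isUnit]
    have h2 : Ideal.span {(u1 : 𝓞 K) * t} = Ideal.span {t} := by
      rw [mul_comm, Ideal.span_singleton_mul_right_unit u1.isUnit]
    rw [← h1, hut, h2]
  refine ⟨⟨⟨κ, q⟩, ⟨t, htT⟩⟩, ?_, ?_⟩
  · show a * b κ = Ideal.span {t}
    rw [hspan, hx]
  · rintro ⟨⟨κ', q'⟩, ⟨t', ht'T⟩⟩ h'
    have h' : a * b κ' = Ideal.span {t'} := h'
    obtain rfl : κ' = κ := hκ κ' ⟨t', h'⟩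
    have h2 : Ideal.span {t} = Ideal.span {t'} := by rw [hspan, ← hx, h']
    obtain ⟨v, hv⟩ := Ideal.span_singleton_eq_span_singleton.1 h2
    have hv' : t' = (v : 𝓞 K) * t := by rw [← hv, mul_comm]
    have m1 : t - (q.out : 𝓞 K) ∈ J * b κ' := (hT ⟨κ', q⟩).sub htT
    have m2 : t' - (q'.out : 𝓞 K) ∈ J * b κ' := (hT ⟨κ', q'⟩).sub ht'T
    have m3 : (v : 𝓞 K) * (q.out : 𝓞 K) - (q'.out : 𝓞 K) ∈ J * b κ' := by
      have e1 : (v : 𝓞 K) * (q.out : 𝓞 K) - (q'.out : 𝓞 K) =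
          -(v : 𝓞 K) * (t - (q.out : 𝓞 K)) + (t' - (q'.out : 𝓞 K)) := by
        rw [hv']
        ring
      rw [e1]
      exact Ideal.add_mem _ (Ideal.mul_mem_left _ _ m1) m2
    obtain rfl : q = q' := by
      have e2 : (h12S J (b κ')) q.out q'.out := ⟨v, m3⟩
      have e3 := Quotient.sound (s := h12S J (b κ')) e2
      rwa [Quotient.out_eq, Quotient.out_eq] at e3
    have m4 : ((v : 𝓞 K) - 1) * (q.out : 𝓞 K) ∈ J * b κ' := by
      have e4 : ((v : 𝓞 K) - 1) * (q.out : 𝓞 K) = (v : 𝓞 K) * (q.out : 𝓞 K) - (q.out : 𝓞 K) := by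
        ring
      rw [e4]
      exact m3
    have m5 := h12_cong J (b κ') hJ (hb κ') q.out q.out.2.1 q.out.2.2 _ m4
    have m6 := (hT ⟨κ', q⟩).uniq t htT t' ht'T v m5 hv'
    subst m6
    rfl

/-- A prime containing J. -/
theorem PCD_prime {K : Type} [Field K] [NumberField K] (J : Ideal (𝓞 K)) (hJ1 : J ≠ ⊤) :
    ∃ w : HeightOneSpectrum (𝓞 K), J ≤ w.asIdeal := by
  by_cases hJ : J = ⊥
  · obtain ⟨w, _⟩ := H13_prime (K := K)
    exact ⟨w, hJ ▸ bot_le⟩
  obtain ⟨M, hM, hM2⟩ := Ideal.exists_le_maximal _ hJ1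
  refine ⟨⟨M, hM.isPrime, ?_⟩, hM2⟩
  rintro rfl
  exact hJ (le_bot_iff.1 hM2)

/-- The ideal attached to an element. -/
theorem PCD_ex {K : Type} [Field K] [NumberField K] (J g : Ideal (𝓞 K)) (hJ1 : J ≠ ⊤)
    (ι : Type) (b : ι → Ideal (𝓞 K)) (c₀ : ι → 𝓞 K) (T : ι → Set (𝓞 K))
    (h : CDJ J g ι b c₀ T) (q : Σ i, T i) :
    ∃ a : Ideal (𝓞 K), a * b q.1 = Ideal.span {(q.2 : 𝓞 K)} ∧ a ≠ ⊥ ∧
      IsCoprime a J := by
  obtain ⟨i, x, hx⟩ := q
  have h1 : x ∈ XS (J * b i) (c₀ i) := (h.trans i).sub hx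
  have h1' : x - c₀ i ∈ J * b i := h1
  have hxb : x ∈ b i := by
    have h2 : x - c₀ i ∈ b i := Ideal.mul_le_right h1'
    have h3 := Ideal.add_mem _ h2 (h.mem i)
    simpa using h3
  have key : ∀ w : HeightOneSpectrum (𝓞 K), J ≤ w.asIdeal →
      x ∉ w.asIdeal * b i := by
    intro w hw hxw
    apply h.prim i w hw
    have h2 : x - c₀ i ∈ w.asIdeal * b i := Ideal.mul_mono_left hw h1'
    have h3 := Ideal.sub_mem _ hxw h2
    simpa using h3
  have hx0 : x ≠ 0 := by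
    rintro rfl
    obtain ⟨w, hw⟩ := PCD_prime J hJ1
    exact key w hw (Ideal.zero_mem _)
  have h3 : b i ∣ Ideal.span {x} := by
    rw [Ideal.dvd_iff_le, Ideal.span_singleton_le_iff_mem]
    exact hxb
  obtain ⟨a, ha⟩ := h3
  refine ⟨a, by rw [mul_comm]; exact ha.symm, ?_, ?_⟩
  · rintro rfl
    apply hx0
    rw [← Ideal.span_singleton_eq_bot, ha]
    exact mul_zero _
  · have ha0 : a ≠ ⊥ := by
      rintro rfl
      apply hx0
      rw [← Ideal.span_singleton_eq_bot, ha]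
      exact mul_zero _
    by_contra hc
    rw [Ideal.isCoprime_iff_sup_eq] at hc
    obtain ⟨M, hM, hM2⟩ := Ideal.exists_le_maximal _ hc
    have hM0 : M ≠ ⊥ := by
      rintro rfl
      exact ha0 (le_bot_iff.1 (le_sup_left.trans hM2))
    refine key ⟨M, hM.isPrime, hM0⟩ (le_sup_right.trans hM2) ?_
    have h4 : x ∈ b i * a := by
      rw [← ha]
      exact Ideal.mem_span_singleton_self x
    rw [mul_comm] at h4
    exact Ideal.mul_mono_left (le_sup_left.trans hM2) h4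

theorem cdj_hasSum {K : Type} [Field K] [NumberField K] (J g : Ideal (𝓞 K)) (hgJ : g ≤ J) (hJ1 : J ≠ ⊤)
    (ι : Type) [Fintype ι] (b : ι → Ideal (𝓞 K)) (c₀ : ι → 𝓞 K) (T : ι → Set (𝓞 K))
    (h : CDJ J g ι b c₀ T) (φ : Ideal (𝓞 K) → ℂ)
    (hφ : ∀ a, φ a ≠ 0 → a ≠ ⊥ ∧ IsCoprime a J) (G : ι → 𝓞 K → ℂ)
    (hG : ∀ i, ∀ x ∈ T i, ∀ a, a * b i = Ideal.span {x} → φ a = G i x) (Z : ι → ℂ)
    (hZ : ∀ i, HasSum (fun x : T i => G i x) (Z i)) : HasSum φ (∑ i, Z i) := by
  classical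
  choose A hA1 hA2 hA3 using PCD_ex J g hJ1 ι b c₀ T h
  have hinj : Function.Injective A := by
    intro q q' hq
    obtain ⟨r, _, hr2⟩ := h.bij (A q) (hA2 q) (hA3 q)
    have h1 := hr2 q (hA1 q)
    have h2 := hr2 q' (by
      show A q * b q'.1 = Ideal.span {(q'.2 : 𝓞 K)}
      rw [hq]
      exact hA1 q')
    rw [h1, h2]
  have hran : ∀ a ∉ Set.range A, φ a = 0 := by
    intro a ha
    by_contra hne
    apply ha
    obtain ⟨h1, h2⟩ := hφ a hne
    obtain ⟨q, hq, _⟩ := h.bij a h1 h2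
    refine ⟨q, ?_⟩
    have h3 : A q * b q.1 = a * b q.1 := by
      rw [hA1 q]
      exact hq.symm
    exact mul_right_cancel₀ (show b q.1 ≠ 0 from h.ne q.1) h3
  rw [← hinj.hasSum_iff hran]
  have h1 : (φ ∘ A) = fun q : Σ i, T i => ∑ i, if q.1 = i then G q.1 q.2 else 0 := by
    funext q
    rw [Finset.sum_ite_eq Finset.univ q.1, if_pos (Finset.mem_univ _)]
    exact hG q.1 q.2 q.2.2 (A q) (hA1 q)
  rw [h1]
  refine hasSum_sum fun i _ => ?_
  have h2 : ∀ q ∉ Set.range (fun x : T i => (⟨i, x⟩ : Σ j, T j)),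
      (if q.1 = i then G q.1 q.2 else 0) = 0 := by
    rintro ⟨j, x⟩ hq
    rw [if_neg]
    rintro rfl
    exact hq ⟨x, rfl⟩
  have hinj2 : Function.Injective (fun x : T i => (⟨i, x⟩ : Σ j, T j)) := by
    intro x y hxy
    exact eq_of_heq (Sigma.mk.inj hxy).2
  rw [← hinj2.hasSum_iff h2]
  have h3 : ((fun q : Σ i, T i => if q.1 = i then G q.1 q.2 else 0) ∘
      (fun x : T i => (⟨i, x⟩ : Σ j, T j))) = fun x : T i => G i x := by
    funext x
    exact if_pos rfl
  rw [h3]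
  exact hZ i

end H55P
end

-- from Lib.H55N.H1
section

open NumberField IsDedekindDomain

namespace H55N

open H55B H55C

/-! Chunk H1 (M): the Hecke character on prime ideals and its absolute value.
psiF_prime: v.asIdeal = span {gen v} with gen v primary (gen_spec), pg_span. psiF_three: exists_prim_iff.
Psi_prime: Ideal.relNorm_eq_pow_of_isMaximal (relNorm w = v^(inertiaDeg)), v.asIdeal lies below w.
Psi_ne: relNorm a is prime to 3 iff a is: write a as a product of prime ideals (or: if w contains a and 3 then relNorm a is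
contained in v containing 3 and psiF v = 0, psiF is multiplicative, a = w * a'; conversely if a is prime to 3, so are all
prime factors w of a, and Psi w <> 0 by Psi_prime, gen v <> 0; induction with
UniqueFactorizationMonoid.induction_on_prime). Psi_norm: |e x|^2 = Nm x = absNorm (span {x}) (Nm_eq), so |psiF J|^2 = absNorm J for
J prime to 3, J nonzero; absNorm (relNorm a) = absNorm a (Ideal.absNorm_relNorm). -/

theorem psiF_prime (v : HeightOneSpectrum O) (h3 : (3 : O) ∉ v.asIdeal) :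
    psiF v.asIdeal = (starRingEnd ℂ) (e (gen v)) := by
  obtain ⟨h1, h2⟩ := gen_spec v h3
  rw [psiF_apply]
  conv_lhs => rw [h1]
  rw [pg_span h2]

theorem psiF_three (v : HeightOneSpectrum O) (h3 : (3 : O) ∈ v.asIdeal) : psiF v.asIdeal = 0 := by
  have h : ¬ ∃ x : O, v.asIdeal = Ideal.span {x} ∧ Prim x := by
    rw [exists_prim_iff v.ne_bot]
    intro hc
    have h1 : Ideal.span {(3 : O)} ≤ v.asIdeal := by
      rw [Ideal.span_singleton_le_iff_mem]; exact h3
    have h2 := Ideal.isCoprime_iff_sup_eq.1 hc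
    rw [sup_eq_left.2 h1] at h2
    exact v.isPrime.ne_top h2
  rw [psiF_apply, pg_of_not h, map_zero, map_zero]

variable {K : Type} [Field K] [NumberField K] [Algebra F K]

theorem Psi_prime (w : HeightOneSpectrum (𝓞 K)) (v : HeightOneSpectrum O)
    (hv : v.asIdeal = w.asIdeal.under O) :
    Psi K w.asIdeal = psiF v.asIdeal ^ w.asIdeal.inertiaDeg O := by
  have : w.asIdeal.LiesOver v.asIdeal := ⟨hv⟩
  have := w.isMaximal
  have := v.isMaximal
  show psiF (Ideal.relNorm O w.asIdeal) = _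
  rw [Ideal.relNorm_eq_pow_of_isMaximal w.asIdeal v.asIdeal, map_pow]

omit [NumberField K] in
theorem H1_below (w : HeightOneSpectrum (𝓞 K)) :
    ∃ v : HeightOneSpectrum O, v.asIdeal = w.asIdeal.under O := by
  refine ⟨⟨w.asIdeal.under O, inferInstance, ?_⟩, rfl⟩
  exact mt Ideal.eq_bot_of_comap_eq_bot w.ne_bot

omit [Algebra F K] in
theorem H1_coprime (w : HeightOneSpectrum (𝓞 K)) :
    IsCoprime w.asIdeal (Ideal.span {(3 : 𝓞 K)}) ↔ (3 : 𝓞 K) ∉ w.asIdeal := by
  rw [Ideal.isCoprime_iff_sup_eq]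
  constructor
  · intro h h3
    rw [sup_eq_left.2 ((Ideal.span_singleton_le_iff_mem _).2 h3)] at h
    exact w.isPrime.ne_top h
  · intro h
    have hm := w.isMaximal
    refine hm.out.2 _ (lt_of_le_of_ne le_sup_left ?_)
    intro he
    apply h
    rw [he]
    exact Ideal.mem_sup_right (Ideal.mem_span_singleton_self _)

theorem H1_Psi_prime (w : HeightOneSpectrum (𝓞 K)) :
    Psi K w.asIdeal ≠ 0 ↔ IsCoprime w.asIdeal (Ideal.span {(3 : 𝓞 K)}) := by
  obtain ⟨v, hv⟩ := H1_below w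
  have h3 : (3 : O) ∈ v.asIdeal ↔ (3 : 𝓞 K) ∈ w.asIdeal := by
    rw [hv, Ideal.under_def, Ideal.mem_comap, map_ofNat]
  rw [H1_coprime, Psi_prime w v hv]
  by_cases h : (3 : O) ∈ v.asIdeal
  · rw [psiF_three v h, ← h3]
    simp only [h, not_true_eq_false, iff_false, not_not]
    exact zero_pow (Ideal.inertiaDeg_pos w.asIdeal O).ne'
  · rw [psiF_prime v h, ← h3]
    simp only [h, not_false_eq_true, iff_true]
    apply pow_ne_zero
    rw [map_ne_zero, Ne, map_eq_zero_iff e e_injective]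
    exact (gen_spec v h).2.ne_zero

theorem Psi_ne (a : Ideal (𝓞 K)) (ha : a ≠ ⊥) :
    Psi K a ≠ 0 ↔ IsCoprime a (Ideal.span {(3 : 𝓞 K)}) := by
  induction a using UniqueFactorizationMonoid.induction_on_prime with
  | h₁ => exact absurd rfl ha
  | h₂ x hx =>
    rw [Ideal.isUnit_iff] at hx
    rw [hx, ← Ideal.one_eq_top, map_one]
    exact ⟨fun _ => isCoprime_one_left, fun _ => one_ne_zero⟩
  | h₃ x p hx hp ih =>
    have h1 := H1_Psi_prime (K := K) ⟨p, Ideal.isPrime_of_prime hp, hp.ne_zero⟩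
    simp only at h1
    rw [map_mul, mul_ne_zero_iff, h1, ih hx, IsCoprime.mul_left_iff]

theorem Psi_norm (a : Ideal (𝓞 K)) (ha : a ≠ ⊥) (h3 : IsCoprime a (Ideal.span {(3 : 𝓞 K)})) :
    ‖Psi K a‖ ^ 2 = Ideal.absNorm a := by
  have h1 := (Psi_ne a ha).2 h3
  have h2 : Psi K a = psiF (Ideal.relNorm O a) := rfl
  rw [h2] at h1 ⊢
  rw [psiF_apply] at h1 ⊢
  by_cases h : ∃ x : O, Ideal.relNorm O a = Ideal.span {x} ∧ Prim x
  · obtain ⟨x, hx, hp⟩ := h
    rw [hx, pg_span hp, RCLike.norm_conj, ← Nm_eq, ← Ideal.absNorm_relNorm O (𝓞 K) a, hx]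
    rfl
  · rw [pg_of_not h, map_zero, map_zero] at h1
    exact absurd rfl h1

theorem Psi_norm_le (a : Ideal (𝓞 K)) : ‖Psi K a‖ ^ 2 ≤ Ideal.absNorm a := by
  by_cases ha : a = ⊥
  · rw [ha]
    have : Psi K ⊥ = 0 := (Psi K).map_zero
    rw [this]
    simp
  · by_cases h3 : IsCoprime a (Ideal.span {(3 : 𝓞 K)})
    · exact (Psi_norm a ha h3).le
    · have h1 : Psi K a = 0 := not_not.1 (mt (Psi_ne a ha).1 h3)
      rw [h1]
      simp

end H55N
end

-- from Lib.H55N.H15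
section

open NumberField IsDedekindDomain

namespace H55N

open H55B H55C

theorem H15_cpow {r : ℝ} (hr : 0 < r) (w : ℂ) : (r : ℂ) ^ w = Complex.exp ((Real.log r : ℂ) * w) := by
  rw [Complex.cpow_def_of_ne_zero (by exact_mod_cast hr.ne'), Complex.ofReal_log hr.le]

open Classical in
/-- Chunk H15 (S), the terms. absNorm a * absNorm b = absNorm (span x) = |emb N x|^2 (absNorm_span), positive reals, so
absNorm(a)^(-s) = absNorm(b)^s |emb N x|^(-2s) (Complex.cpow on positive reals: write everything as exp of real logarithms, or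
Complex.mul_cpow_ofReal_nonneg, Complex.cpow_neg). nf s x = conj u |u|^(-2s), u = emb N x. For the weights: a <= c i iff x in c i:
x in c i gives a b <= c i, c i prime and b not <= c i (b + c i = 1, c i <> 1); conversely x in a b <= a <= c i. So the product is
gw c p x (if true then 1 - p else 1, Finset.prod_congr; gw uses classical decidability as well). -/
theorem term_eq {K : Type} [Field K] [NumberField K] [Algebra F K] {m : ℕ}
    (h : Ideal (𝓞 K) → ℂ) (κ : ℂ) (a b : Ideal (𝓞 K)) (x : 𝓞 K) (hx : x ≠ 0)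
    (hab : a * b = Ideal.span {x})
    (hh : h a = κ * (starRingEnd ℂ) (emb (Algebra.norm F (x : K)))) (s : ℂ) :
    tm h s a = κ * (Ideal.absNorm b : ℂ) ^ s * nf s x ∧
    ∀ (c : Fin (m + 1) × Fin 2 → Ideal (𝓞 K)) (p : Fin (m + 1) × Fin 2 → ℕ),
      (∀ i, (c i).IsPrime) → (∀ i, IsCoprime b (c i)) →
      tm h s a * ∏ i, (if a ≤ c i then 1 - (p i : ℂ) else 1) =
        κ * (Ideal.absNorm b : ℂ) ^ s * (gw c p x * nf s x) := by
  have hx0 : Ideal.span {x} ≠ ⊥ := fun h => hx (Ideal.span_singleton_eq_bot.1 h)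
  have ha0 : a ≠ ⊥ := by
    rintro rfl
    apply hx0
    rw [← hab]
    exact zero_mul b
  have hb0 : b ≠ ⊥ := by
    rintro rfl
    apply hx0
    rw [← hab]
    exact mul_zero a
  have hA : (0 : ℝ) < (Ideal.absNorm a : ℝ) := by
    have h1 : Ideal.absNorm a ≠ 0 := fun h => ha0 (Ideal.absNorm_eq_zero_iff.1 h)
    exact_mod_cast Nat.pos_of_ne_zero h1
  have hB : (0 : ℝ) < (Ideal.absNorm b : ℝ) := by
    have h1 : Ideal.absNorm b ≠ 0 := fun h => hb0 (Ideal.absNorm_eq_zero_iff.1 h)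
    exact_mod_cast Nat.pos_of_ne_zero h1
  have hAB : (Ideal.absNorm a : ℝ) * (Ideal.absNorm b : ℝ) =
      ‖emb (Algebra.norm F (x : K))‖ ^ 2 := by
    rw [← absNorm_span, ← hab, map_mul, Nat.cast_mul]
  set r : ℝ := ‖emb (Algebra.norm F (x : K))‖ with hr
  have hr0 : 0 < r := by
    have h1 : 0 ≤ r := norm_nonneg _
    have h2 : r ≠ 0 := by
      intro h3
      rw [h3] at hAB
      have : 0 < (Ideal.absNorm a : ℝ) * (Ideal.absNorm b : ℝ) := mul_pos hA hB
      rw [hAB] at this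
      norm_num at this
    exact lt_of_le_of_ne h1 (Ne.symm h2)
  have hlog : Real.log (Ideal.absNorm a : ℝ) = 2 * Real.log r - Real.log (Ideal.absNorm b : ℝ) := by
    have h1 := congrArg Real.log hAB
    rw [Real.log_mul hA.ne' hB.ne', Real.log_pow] at h1
    push_cast at h1
    linarith
  have hkey : (Ideal.absNorm a : ℂ) ^ (-s) = (Ideal.absNorm b : ℂ) ^ s * (r : ℂ) ^ (-2 * s) := by
    have e1 : (Ideal.absNorm a : ℂ) = ((Ideal.absNorm a : ℝ) : ℂ) := by push_cast; rfl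
    have e2 : (Ideal.absNorm b : ℂ) = ((Ideal.absNorm b : ℝ) : ℂ) := by push_cast; rfl
    rw [e1, e2, H15_cpow hA, H15_cpow hB, H15_cpow hr0, ← Complex.exp_add, hlog]
    congr 1
    push_cast
    ring
  have hmain : tm h s a = κ * (Ideal.absNorm b : ℂ) ^ s * nf s x := by
    unfold tm nf H55B.g
    rw [hh, hkey]
    ring
  refine ⟨hmain, fun c p hc hbc => ?_⟩
  have hprod : ∏ i, (if a ≤ c i then 1 - (p i : ℂ) else 1) = gw c p x := by
    unfold gw
    refine Finset.prod_congr rfl fun i _ => ?_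
    have hiff : a ≤ c i ↔ x ∈ c i := by
      constructor
      · intro h1
        apply h1
        have h2 : x ∈ a * b := by rw [hab]; exact Ideal.mem_span_singleton_self x
        exact Ideal.mul_le_left h2
      · intro h1
        have h2 : a * b ≤ c i := by
          rw [hab, Ideal.span_singleton_le_iff_mem]
          exact h1
        rcases (hc i).mul_le.1 h2 with h3 | h3
        · exact h3
        · exfalso
          have h4 := Ideal.isCoprime_iff_sup_eq.1 (hbc i)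
          rw [sup_eq_right.2 h3] at h4
          exact (hc i).ne_top h4
    by_cases h1 : a ≤ c i
    · rw [if_pos h1, if_pos (hiff.1 h1)]
    · rw [if_neg h1, if_neg fun h2 => h1 (hiff.2 h2)]
  rw [hprod, hmain]
  ring

end H55N
end

-- from Lib.H55N.TW2
section

open NumberField IsDedekindDomain

namespace H55N

open H55B H55C

theorem TW2_coprime {K : Type} [Field K] [NumberField K] (a f : Ideal (𝓞 K)) (ha : a ≠ ⊥)
    (S : Finset (HeightOneSpectrum (𝓞 K))) (hS : ∀ w, w ∈ S ↔ f ≤ w.asIdeal) :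
    IsCoprime a f ↔ ∀ w ∈ S, ¬ a ≤ w.asIdeal := by
  constructor
  · intro h w hw haw
    rw [Ideal.isCoprime_iff_sup_eq] at h
    have h1 : a ⊔ f ≤ w.asIdeal := sup_le haw ((hS w).1 hw)
    rw [h] at h1
    exact w.isPrime.ne_top (top_le_iff.1 h1)
  · intro h
    rw [Ideal.isCoprime_iff_sup_eq]
    by_contra hne
    obtain ⟨M, hM, hle⟩ := Ideal.exists_le_maximal _ hne
    have hM0 : M ≠ ⊥ := by
      rintro rfl
      exact ha (le_bot_iff.1 (le_sup_left.trans hle))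
    have hw : (⟨M, hM.isPrime, hM0⟩ : HeightOneSpectrum (𝓞 K)) ∈ S :=
      (hS _).2 (le_sup_right.trans hle)
    exact h _ hw (le_sup_left.trans hle)

/-- Chunk TW2 (S), the trivial character modulo f. The set of primes containing f is finite. smooth_sum with k = tmH (Psi K) s, the index type S, c w =
w.asIdeal (injective: HeightOneSpectrum.ext), p = 1: the product of (if a <= w then 0 else 1) is oneI f a for a <> 0 (a is prime to f iff no
prime contains both), and for a = 0 both sides vanish. -/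
theorem one_sum (K : Type) [Field K] [NumberField K] [Algebra F K] (f : Ideal (𝓞 K)) (hf : f ≠ ⊥) :
    ∃ S : Finset (HeightOneSpectrum (𝓞 K)), (∀ w, w ∈ S ↔ f ≤ w.asIdeal) ∧
      ∀ s : ℂ, 3 / 2 < s.re →
        HasSum (tm (Psi K * oneI f : Ideal (𝓞 K) →*₀ ℂ) s)
          ((∏ w ∈ S, (1 - tm (Psi K) s w.asIdeal)) * ∑' a, tm (Psi K) s a) := by
  classical
  have hfin : {w : HeightOneSpectrum (𝓞 K) | w.asIdeal ∣ f}.Finite := Ideal.finite_factors hf
  have hS : ∀ w, w ∈ hfin.toFinset ↔ f ≤ w.asIdeal := by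
    intro w
    rw [Set.Finite.mem_toFinset]
    exact Ideal.dvd_iff_le
  refine ⟨hfin.toFinset, hS, fun s hs => ?_⟩
  set S := hfin.toFinset with hSd
  have hk : Summable fun a => ‖tmH (Psi K) s a‖ := tm_summable (Psi K) Psi_norm_le s hs
  have h1 := smooth_sum (tmH (Psi K) s) hk (fun w : S => w.1.asIdeal) (fun w => w.1.isPrime)
    (fun w => w.1.ne_bot) (fun w w' h => Subtype.ext (HeightOneSpectrum.ext h)) (fun _ => 1)
  have h2 : (∏ w : S, (1 - 1 * (tmH (Psi K) s) w.1.asIdeal)) =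
      ∏ w ∈ S, (1 - tm (Psi K) s w.asIdeal) := by
    rw [← Finset.prod_coe_sort S]
    refine Finset.prod_congr rfl fun w _ => ?_
    rw [one_mul]
    rfl
  rw [h2] at h1
  refine h1.congr_fun fun a => ?_
  have h3 : tm (Psi K * oneI f : Ideal (𝓞 K) →*₀ ℂ) s a = tmH (Psi K) s a * oneI f a := by
    show (Psi K a * oneI f a) * (Ideal.absNorm a : ℂ) ^ (-s) =
      (Psi K a * (Ideal.absNorm a : ℂ) ^ (-s)) * oneI f a
    ring
  rw [h3]
  by_cases ha : a = ⊥
  · rw [ha]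
    have h4 : tmH (Psi K) s (⊥ : Ideal (𝓞 K)) = 0 := (tmH (Psi K) s).map_zero
    rw [h4, zero_mul, zero_mul]
  · congr 1
    have h5 : oneI f a = if a ≠ ⊥ ∧ IsCoprime a f then 1 else 0 := rfl
    rw [h5]
    by_cases hc : IsCoprime a f
    · rw [if_pos ⟨ha, hc⟩]
      symm
      refine Finset.prod_eq_one fun w _ => ?_
      rw [if_neg ((TW2_coprime a f ha S hS).1 hc w.1 w.2)]
    · rw [if_neg (fun h => hc h.2)]
      rw [TW2_coprime a f ha S hS] at hc
      push Not at hc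
      obtain ⟨w, hw, haw⟩ := hc
      symm
      refine Finset.prod_eq_zero (Finset.mem_univ (⟨w, hw⟩ : S)) ?_
      rw [if_pos haw, sub_self]

end H55N
end

-- from Lib.H55P.B10
section

open NumberField IsDedekindDomain

namespace H55P

open H55N
open H55B (g)

variable {F : Type} [Field F] [NumberField F] [IQ F] {K : Type} [Field K] [NumberField K] [Algebra F K] {m : ℕ} {P : Type}

/-! Chunk B10 (M). The functions 1/Tr(A_k x) and the product cutoffs. X = D.X is stable under x -> x - w_i (Dirs.mem).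
SV: 1 + |Tr(A_k, x - w)| <= (1 + C)(1 + |Tr(A_k, x)|) and conversely; gl is the inverse.
good_tr: Tr(A_k, .) is additive, |Tr(A_k, w_i)| = 0 if k <> i.1 (orth) and <= C = C (1 + |Tr(A_k, x)|) gl i x if k = i.1; so it is Good with weight
1 + |Tr(A_k,x)| and Good.inv applies: |Tr| >= (1 + |Tr|)/2 by low.
good_pcut: each factor is 1/h_R, h_R = 1 + |Tr(A_k,x)|^2/R^2 = β_R: SV uniformly in R >= 1 (|y - w|^2 <= 2|y|^2 + 2|w|^2), h_R is Good with weight β_R: it is
1 + R^(-2) Tr conj(Tr); differences: D_i for i.1 = k is O((1+|Tr|)/R^2) <= C β_R / (1+|Tr|) because (1+|Tr|)^2 <= 4 |Tr|^2 <= 4 R^2 β_R on X;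
second differences O(1/R^2) <= C β_R (1+|Tr|)^(-2); the others vanish. (Prove it by Good.mul for Tr * conj Tr with weight (1+|Tr|)^2, then multiply by R^(-2) and use
(1+|Tr|)^2 / R^2 <= 4 β_R and Good.mono, plus the constant 1.) Good.inv, then Good.prod over k, weights prod 1/β_R <= 1 (Good.mono).
gl_gs: 1/sz x <= C gl i x (Tr_le). -/

/-- A bound for the traces of the directions. -/
noncomputable def B10_C (D : Ctx F K m) (A : Fin (m + 1) → K) (w : Fin (m + 1) × Fin 2 → 𝓞 K) : ℝ :=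
  1 + ∑ k, ∑ i, ‖D.Tr (A k) (w i)‖

theorem B10_le_C (D : Ctx F K m) (A : Fin (m + 1) → K) (w : Fin (m + 1) × Fin 2 → 𝓞 K)
    (k : Fin (m + 1)) (i : Fin (m + 1) × Fin 2) : 1 + ‖D.Tr (A k) (w i)‖ ≤ B10_C D A w := by
  unfold B10_C
  have h1 : ‖D.Tr (A k) (w i)‖ ≤ ∑ i, ‖D.Tr (A k) (w i)‖ :=
    Finset.single_le_sum (f := fun i => ‖D.Tr (A k) (w i)‖) (fun i _ => norm_nonneg _)
      (Finset.mem_univ i)
  have h2 : ∑ i, ‖D.Tr (A k) (w i)‖ ≤ ∑ k, ∑ i, ‖D.Tr (A k) (w i)‖ :=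
    Finset.single_le_sum (f := fun k => ∑ i, ‖D.Tr (A k) (w i)‖)
      (fun k _ => Finset.sum_nonneg fun i _ => norm_nonneg _) (Finset.mem_univ k)
  linarith

theorem B10_one_le_C (D : Ctx F K m) (A : Fin (m + 1) → K) (w : Fin (m + 1) × Fin 2 → 𝓞 K) :
    1 ≤ B10_C D A w := by
  have h1 := B10_le_C D A w 0 (0, 0)
  have h2 := norm_nonneg (D.Tr (A 0) (w (0, 0)))
  linarith

theorem B10_tri (D : Ctx F K m) (a : K) (x y : 𝓞 K) :
    ‖D.Tr a (x - y)‖ ≤ ‖D.Tr a x‖ + ‖D.Tr a y‖ ∧ ‖D.Tr a x‖ ≤ ‖D.Tr a (x - y)‖ + ‖D.Tr a y‖ := by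
  rw [D.Tr_sub]
  refine ⟨norm_sub_le _ _, ?_⟩
  have h3 : D.Tr a x = (D.Tr a x - D.Tr a y) + D.Tr a y := by ring
  calc ‖D.Tr a x‖ = ‖(D.Tr a x - D.Tr a y) + D.Tr a y‖ := by rw [← h3]
    _ ≤ _ := norm_add_le _ _

theorem B10_b (D : Ctx F K m) (A : Fin (m + 1) → K) (w : Fin (m + 1) × Fin 2 → 𝓞 K)
    (k : Fin (m + 1)) (i : Fin (m + 1) × Fin 2) (x : 𝓞 K) :
    1 + ‖D.Tr (A k) (x - w i)‖ ≤ B10_C D A w * (1 + ‖D.Tr (A k) x‖) ∧
    1 + ‖D.Tr (A k) x‖ ≤ B10_C D A w * (1 + ‖D.Tr (A k) (x - w i)‖) := by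
  obtain ⟨h1, h2⟩ := B10_tri D (A k) x (w i)
  have h3 := B10_le_C D A w k i
  have h4 := norm_nonneg (D.Tr (A k) (w i))
  have h5 := norm_nonneg (D.Tr (A k) x)
  have h6 := norm_nonneg (D.Tr (A k) (x - w i))
  constructor <;> nlinarith

theorem B10_inv {a b C : ℝ} (ha : 0 < a) (hb : 0 < b) (h : b ≤ C * a) : a⁻¹ ≤ C * b⁻¹ := by
  rw [← div_eq_mul_inv, le_div_iff₀ hb, inv_mul_le_iff₀ ha]
  linarith

theorem sv_tr (D : Ctx F K m) (A : Fin (m + 1) → K) (w : Fin (m + 1) × Fin 2 → 𝓞 K)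
    (k : Fin (m + 1)) : SV D.X w fun (_ : P) x => 1 + ‖D.Tr (A k) x‖ := by
  refine ⟨fun _ x _ => by positivity, B10_C D A w, ?_⟩
  intro _ x _ i
  exact B10_b D A w k i x

theorem sv_gl (D : Ctx F K m) (A : Fin (m + 1) → K) (w : Fin (m + 1) × Fin 2 → 𝓞 K) :
    SV D.X w (D.gl A) := by
  refine ⟨fun q x _ => by unfold Ctx.gl; positivity, B10_C D A w, ?_⟩
  intro q x _ i
  obtain ⟨h1, h2⟩ := B10_b D A w q.1 i x
  unfold Ctx.gl
  exact ⟨B10_inv (by positivity) (by positivity) h2, B10_inv (by positivity) (by positivity) h1⟩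

theorem sv_bl (D : Ctx F K m) (A : Fin (m + 1) → K) (w : Fin (m + 1) × Fin 2 → 𝓞 K) :
    SV D.X w fun (_ : P) x => D.bl A x := by
  refine ⟨fun _ x _ => ?_, B10_C D A w ^ (m + 1), ?_⟩
  · unfold Ctx.bl
    exact Finset.prod_pos fun k _ => by positivity
  · intro _ x _ i
    unfold Ctx.bl
    have hc : B10_C D A w ^ (m + 1) = ∏ _k : Fin (m + 1), B10_C D A w := by
      rw [Finset.prod_const, Finset.card_univ, Fintype.card_fin]
    rw [hc, ← Finset.prod_mul_distrib, ← Finset.prod_mul_distrib]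
    constructor
    · apply Finset.prod_le_prod (fun k _ => by positivity)
      intro k _
      exact B10_inv (by positivity) (by positivity) (B10_b D A w k i x).2
    · apply Finset.prod_le_prod (fun k _ => by positivity)
      intro k _
      exact B10_inv (by positivity) (by positivity) (B10_b D A w k i x).1

theorem gs_le_gl (D : Ctx F K m) (A : Fin (m + 1) → K) : ∃ C : ℝ, 0 < C ∧
    (∀ x k, (D.sz x)⁻¹ ≤ C * (1 + ‖D.Tr (A k) x‖)⁻¹) ∧
    ∀ (i : Fin (m + 1) × Fin 2) x, D.gs i x ≤ C * D.gl A i x := by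
  choose C hC h using fun k => Tr_le D (A k)
  have h1 : ∀ k, C k ≤ ∑ k, C k := fun k =>
    Finset.single_le_sum (f := C) (fun k _ => (hC k).le) (Finset.mem_univ k)
  have h2 : 0 < ∑ k, C k := lt_of_lt_of_le (hC 0) (h1 0)
  have h3 : ∀ x k, (D.sz x)⁻¹ ≤ (∑ k, C k) * (1 + ‖D.Tr (A k) x‖)⁻¹ := by
    intro x k
    apply B10_inv (D.sz_pos x) (by positivity)
    exact (h k x).trans (mul_le_mul_of_nonneg_right (h1 k) (D.sz_pos x).le)
  exact ⟨∑ k, C k, h2, h3, fun i x => h3 x i.1⟩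

theorem B10_X (D : Ctx F K m) (A : Fin (m + 1) → K) (w : Fin (m + 1) × Fin 2 → 𝓞 K)
    (h : D.Dirs A w) : ∀ x ∈ D.X, ∀ i, x - w i ∈ D.X := fun _ hx i => D.X_sub hx (h.mem i)

theorem B10_T (D : Ctx F K m) (A : Fin (m + 1) → K) (w : Fin (m + 1) × Fin 2 → 𝓞 K)
    (h : D.Dirs A w) (k : Fin (m + 1)) : Good D.X w (D.gl A)
      (fun (_ : P) x => 1 + ‖D.Tr (A k) x‖) (fun _ x => D.Tr (A k) x) := by
  apply Good.additive (fun _ x _ => by positivity) (fun i x _ => by unfold Ctx.gl; positivity)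
    (fun _ x y => D.Tr_sub (A k) x y) (B10_C D A w)
  · intro _ x _
    have h1 := B10_one_le_C D A w
    have h2 := norm_nonneg (D.Tr (A k) x)
    nlinarith
  · intro _ x _ i
    have h0 := B10_one_le_C D A w
    by_cases hk : k = i.1
    · have h1 := B10_le_C D A w k i
      have h2 : B10_C D A w * (1 + ‖D.Tr (A k) x‖) * D.gl A i x = B10_C D A w := by
        unfold Ctx.gl
        rw [← hk]
        have : 0 < 1 + ‖D.Tr (A k) x‖ := by positivity
        field_simp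
      rw [h2]
      linarith
    · rw [h.orth i k hk, norm_zero]
      unfold Ctx.gl
      positivity

theorem good_tr (D : Ctx F K m) (A : Fin (m + 1) → K) (w : Fin (m + 1) × Fin 2 → 𝓞 K)
    (h : D.Dirs A w) (k : Fin (m + 1)) : Good D.X w (D.gl A)
      (fun (_ : P) x => (1 + ‖D.Tr (A k) x‖)⁻¹) (fun _ x => (D.Tr (A k) x)⁻¹) := by
  apply Good.inv (B10_X D A w h) (sv_gl D A w) (sv_tr D A w k) (B10_T D A w h k) (1 / 2)
    (by norm_num)
  intro _ x hx
  have h1 := h.low x hx k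
  linarith

/-- The functions 1 + |Tr|^2/R^2. -/
noncomputable def B10_h (D : Ctx F K m) (A : Fin (m + 1) → K) (k : Fin (m + 1)) (R : ℝ) (x : 𝓞 K) :
    ℝ := 1 + ‖D.Tr (A k) x‖ ^ 2 * (R ^ 2)⁻¹

theorem B10_h_pos (D : Ctx F K m) (A : Fin (m + 1) → K) (k : Fin (m + 1)) (R : ℝ) (x : 𝓞 K) :
    1 ≤ B10_h D A k R x := by
  unfold B10_h
  have : 0 ≤ ‖D.Tr (A k) x‖ ^ 2 * (R ^ 2)⁻¹ := by positivity
  linarith

theorem B10_num (a b c r C : ℝ) (ha : 0 ≤ a) (hb : 0 ≤ b) (hc : 0 ≤ c) (h : a ≤ b + c)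
    (hC : 1 + c ≤ C) (hr : 0 ≤ r) (hr1 : r ≤ 1) :
    1 + a ^ 2 * r ≤ (2 + 2 * C ^ 2) * (1 + b ^ 2 * r) := by
  have h1 : a ^ 2 ≤ 2 * b ^ 2 + 2 * c ^ 2 := by nlinarith [sq_nonneg (b - c)]
  have h2 : a ^ 2 * r ≤ (2 * b ^ 2 + 2 * c ^ 2) * r := mul_le_mul_of_nonneg_right h1 hr
  have h3 : c ^ 2 * r ≤ c ^ 2 := by nlinarith [sq_nonneg c]
  have h4 : c ^ 2 ≤ C ^ 2 := by nlinarith
  have h5 : 0 ≤ b ^ 2 * r := by positivity
  have h6 : 0 ≤ C ^ 2 * (b ^ 2 * r) := by positivity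
  nlinarith

theorem B10_sv_h (D : Ctx F K m) (A : Fin (m + 1) → K) (w : Fin (m + 1) × Fin 2 → 𝓞 K)
    (R : P → ℝ) (hR : ∀ q, 1 ≤ R q) (k : Fin (m + 1)) :
    SV D.X w fun (q : P) x => B10_h D A k (R q) x := by
  refine ⟨fun q x _ => lt_of_lt_of_le one_pos (B10_h_pos D A k (R q) x),
    2 + 2 * B10_C D A w ^ 2, ?_⟩
  intro q x _ i
  obtain ⟨h1, h2⟩ := B10_tri D (A k) x (w i)
  have h3 := B10_le_C D A w k i
  have h4 := norm_nonneg (D.Tr (A k) (w i))
  have h5 := norm_nonneg (D.Tr (A k) x)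
  have h6 := norm_nonneg (D.Tr (A k) (x - w i))
  have h7 : (0 : ℝ) ≤ (R q ^ 2)⁻¹ := by positivity
  have h8 : (R q ^ 2)⁻¹ ≤ 1 := by
    apply inv_le_one_of_one_le₀
    nlinarith [hR q]
  exact ⟨B10_num _ _ _ _ _ h6 h5 h4 h1 h3 h7 h8, B10_num _ _ _ _ _ h5 h6 h4 h2 h3 h7 h8⟩

theorem B10_fac (D : Ctx F K m) (A : Fin (m + 1) → K) (w : Fin (m + 1) × Fin 2 → 𝓞 K)
    (h : D.Dirs A w) (R : P → ℝ) (hR : ∀ q, 1 ≤ R q) (k : Fin (m + 1)) : Good D.X w (D.gl A)
      (fun (_ : P) _ => (1 : ℝ)) (fun q x => ((B10_h D A k (R q) x : ℂ))⁻¹) := by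
  have hX := B10_X D A w h
  have hgl := sv_gl D A w
  have hgl0 : ∀ i, ∀ x ∈ D.X, 0 ≤ D.gl A i x := fun i x _ => by unfold Ctx.gl; positivity
  have hR0 : ∀ q, 0 < R q := fun q => lt_of_lt_of_le one_pos (hR q)
  -- the square
  have g1 := Good.mul hX hgl (sv_tr (P := P) D A w k) (sv_tr (P := P) D A w k)
    (B10_T D A w h k) (Good.conj (B10_T D A w h k))
  have svR : SV D.X w fun (q : P) (_ : 𝓞 K) => (R q ^ 2)⁻¹ := by
    refine ⟨fun q x _ => by have := hR0 q; positivity, 1, ?_⟩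
    intro q x _ i
    constructor <;> linarith
  have g2 : Good D.X w (D.gl A) (fun (q : P) (_ : 𝓞 K) => (R q ^ 2)⁻¹)
      (fun q _ => (((R q ^ 2)⁻¹ : ℝ) : ℂ)) := by
    apply Good.const (fun q x _ => by positivity) hgl0 _ 1
    intro q x _
    rw [Complex.norm_real, Real.norm_eq_abs, abs_of_nonneg (by positivity), one_mul]
  have g3 := Good.mul hX hgl (SV.mul hX (sv_tr (P := P) D A w k) (sv_tr (P := P) D A w k)) svR g1 g2
  have g4 : Good D.X w (D.gl A) (fun (q : P) x => B10_h D A k (R q) x)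
      (fun q x => D.Tr (A k) x * (starRingEnd ℂ) (D.Tr (A k) x) * (((R q ^ 2)⁻¹ : ℝ) : ℂ)) := by
    apply Good.mono g3 hgl0 4 (by norm_num)
    · intro q x hx
      have h1 := h.low x hx k
      have h2 : (0 : ℝ) ≤ (R q ^ 2)⁻¹ := by positivity
      refine ⟨by positivity, ?_⟩
      unfold B10_h
      have h3 : (1 + ‖D.Tr (A k) x‖) * (1 + ‖D.Tr (A k) x‖) ≤ 4 * ‖D.Tr (A k) x‖ ^ 2 := by
        nlinarith
      have h4 := mul_le_mul_of_nonneg_right h3 h2
      nlinarith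
    · intro i x hx
      have := hgl0 i x hx
      linarith
  have g5 : Good D.X w (D.gl A) (fun (q : P) x => B10_h D A k (R q) x)
      (fun _ _ => (1 : ℂ)) := by
    apply Good.const (fun q x _ => (zero_le_one.trans (B10_h_pos D A k (R q) x))) hgl0 _ 1
    intro q x _
    rw [NormOneClass.norm_one, one_mul]
    exact B10_h_pos D A k (R q) x
  have g6 := Good.add g5 g4
  have g7 : Good D.X w (D.gl A) (fun (q : P) x => B10_h D A k (R q) x)
      (fun q x => (B10_h D A k (R q) x : ℂ)) := by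
    have eq1 : (fun (q : P) (x : 𝓞 K) => (B10_h D A k (R q) x : ℂ)) = fun (q : P) (x : 𝓞 K) =>
        (1 : ℂ) + D.Tr (A k) x * (starRingEnd ℂ) (D.Tr (A k) x) * (((R q ^ 2)⁻¹ : ℝ) : ℂ) := by
      funext q x
      unfold B10_h
      rw [Complex.mul_conj, Complex.normSq_eq_norm_sq]
      push_cast
      ring
    rw [eq1]
    exact g6
  have g8 := Good.inv hX hgl (B10_sv_h D A w R hR k) g7 1 one_pos (by
    intro q x _
    rw [Complex.norm_real, Real.norm_eq_abs, one_mul]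
    exact le_abs_self _)
  apply Good.mono g8 hgl0 1 zero_le_one
  · intro q x _
    have h1 := B10_h_pos D A k (R q) x
    refine ⟨by positivity, ?_⟩
    rw [mul_one]
    exact inv_le_one_of_one_le₀ h1
  · intro i x _
    rw [one_mul]

theorem good_pcut (D : Ctx F K m) (A : Fin (m + 1) → K) (w : Fin (m + 1) × Fin 2 → 𝓞 K)
    (h : D.Dirs A w) (R : P → ℝ) (hR : ∀ q, 1 ≤ R q) : Good D.X w (D.gl A)
      (fun (_ : P) _ => (1 : ℝ)) (fun q x => (D.pcut A (R q) x : ℂ)) := by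
  have h1 := Good.prod (B10_X D A w h) (sv_gl D A w) (Finset.univ : Finset (Fin (m + 1)))
    (fun _ (_ : P) _ => (1 : ℝ)) (fun k q x => ((B10_h D A k (R q) x : ℂ))⁻¹)
    (fun _ _ => SV.one) (fun k _ => B10_fac D A w h R hR k)
  simp only [Finset.prod_const_one] at h1
  have eq1 : (fun (q : P) (x : 𝓞 K) => (D.pcut A (R q) x : ℂ)) = fun (q : P) (x : 𝓞 K) =>
      ∏ k, ((B10_h D A k (R q) x : ℂ))⁻¹ := by
    funext q x
    unfold Ctx.pcut
    rw [Complex.ofReal_prod]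
    refine Finset.prod_congr rfl fun k _ => ?_
    rw [← Complex.ofReal_inv]
    congr 1
    unfold B10_h
    have hR0 : 0 < R q := lt_of_lt_of_le one_pos (hR q)
    field_simp
  rw [eq1]
  exact h1

end H55P
end

-- from Lib.H55P.R4
section

open NumberField IsDedekindDomain

namespace H55P

open H55N
open H55B (g)

variable {F : Type} [Field F] [NumberField F] [IQ F] {K : Type} [Field K] [NumberField K] [Algebra F K] {m : ℕ}

/-! Chunk R4 (M). The determinant of admissible labels is Good. Idet L x = sum over permutations of sign * prod_j row (L j) x (perm j) (Matrix.det_apply). For a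
label T t, t > 0: row is Good with weight sz^(-1) and gains gs (good_row with P = Unit, a, b = min, max of t; D.X stable, 0 not in D.X), hence with gains gl. For a label
A (A_k): row = σ_i(A_k) * (Tr(A_k x))^(-1), Good with weight (1+|Tr(A_k x)|)^(-1) (good_tr, Good.smul). Good.prod over j: weight
prod_{j of type T} sz^(-1) * prod_{j of type A} (1+|Tr(A_(κ j) x)|)^(-1) <= C bl A x: κ is injective on the indices of type A, so the complement of the image of
these indices has as many elements as there are indices of type T, and sz^(-1) <= C (1+|Tr(A_k x)|)^(-1) for every k (gs_le_gl). Good.mono, Good.sum, sv_sz, sv_tr. -/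

theorem r4_X (D : Ctx F K m) {A : Fin (m + 1) → K} {w : Fin (m + 1) × Fin 2 → 𝓞 K}
    (hdir : D.Dirs A w) : ∀ x ∈ D.X, ∀ i, x - w i ∈ D.X :=
  fun _ hx i => D.X_sub hx (hdir.mem i)

theorem r4_gl (D : Ctx F K m) (A : Fin (m + 1) → K) :
    ∀ (i : Fin (m + 1) × Fin 2), ∀ x ∈ D.X, 0 ≤ D.gl A i x :=
  fun i x _ => by unfold Ctx.gl; positivity

theorem r4_gs (D : Ctx F K m) :
    ∀ (i : Fin (m + 1) × Fin 2), ∀ x ∈ D.X, 0 ≤ D.gs i x :=
  fun _ x _ => (inv_pos.mpr (D.sz_pos x)).le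

/-- The weight of a label. -/
noncomputable def r4wt (D : Ctx F K m) (A : Fin (m + 1) → K) (l : Lab K m) (k : Fin (m + 1))
    (_ : Unit) (x : 𝓞 K) : ℝ :=
  match l with
  | .T _ => (D.sz x)⁻¹
  | .A _ => (1 + ‖D.Tr (A k) x‖)⁻¹

theorem r4wt_pos (D : Ctx F K m) (A : Fin (m + 1) → K) (l : Lab K m) (k : Fin (m + 1))
    (q : Unit) (x : 𝓞 K) : 0 < r4wt D A l k q x := by
  cases l with
  | T t => exact inv_pos.2 (D.sz_pos x)
  | A a =>
    show 0 < (1 + ‖D.Tr (A k) x‖)⁻¹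
    positivity

theorem r4_sv (D : Ctx F K m) (A : Fin (m + 1) → K) (w : Fin (m + 1) × Fin 2 → 𝓞 K)
    (hdir : D.Dirs A w) (l : Lab K m) (k : Fin (m + 1)) : SV D.X w (r4wt D A l k) := by
  cases l with
  | T t => exact SV.inv (r4_X D hdir) (sv_sz (P := Unit) D w D.X)
  | A a => exact SV.inv (r4_X D hdir) (sv_tr (P := Unit) D A w k)

theorem r4_row (D : Ctx F K m) (hD : D.Ok) (A : Fin (m + 1) → K)
    (w : Fin (m + 1) × Fin 2 → 𝓞 K) (hdir : D.Dirs A w) (l : Lab K m) (k : Fin (m + 1))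
    (hT : ∀ t, l = .T t → ∀ i, 0 < t i) (hA : ∀ a, l = .A a → a = A k) (i : Fin (m + 1)) :
    Good D.X w (D.gl A) (r4wt D A l k) (fun _ x => D.row l x i) := by
  have h0 : (0 : 𝓞 K) ∉ D.X := fun h => D.X_ne hD.ne h rfl
  cases l with
  | T t =>
    obtain ⟨i0, hi0⟩ := Finite.exists_min t
    obtain ⟨i1, hi1⟩ := Finite.exists_max t
    have h1 := good_row (P := Unit) D hD.emb w D.X (r4_X D hdir) h0 (fun _ => t) (t i0) (t i1)
      (hT t rfl i0) (fun _ i => ⟨hi0 i, hi1 i⟩) i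
    obtain ⟨C, hC, _, hC2⟩ := gs_le_gl D A
    refine Good.mono h1 (r4_gs D) (max 1 C) (by positivity) (fun q x _ => ⟨?_, ?_⟩)
      (fun j x hx => ?_)
    · exact (inv_pos.2 (D.sz_pos x)).le
    · show (D.sz x)⁻¹ ≤ max 1 C * (D.sz x)⁻¹
      have : 0 < (D.sz x)⁻¹ := inv_pos.2 (D.sz_pos x)
      have h2 := le_max_left 1 C
      nlinarith
    · exact (hC2 j x).trans (mul_le_mul_of_nonneg_right (le_max_right _ _) (r4_gl D A j x hx))
  | A a =>
    obtain rfl := hA a rfl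
    have h1 := Good.smul (good_tr (P := Unit) D A w hdir k) (r4_gl D A) (fun _ x _ => by
      positivity) (fun _ => D.σ i (A k)) ‖D.σ i (A k)‖ (fun _ => le_rfl)
    exact h1

theorem r4_prod (D : Ctx F K m) (A : Fin (m + 1) → K) (L : Fin (m + 1) → Lab K m)
    (κ : Fin (m + 1) → Fin (m + 1)) (hκ : Set.InjOn κ {j | ∃ a, L j = .A a}) :
    ∃ c : ℝ, 0 ≤ c ∧ ∀ x, ∏ j, r4wt D A (L j) (κ j) () x ≤ c * D.bl A x := by
  classical
  obtain ⟨C, hC, hC1, _⟩ := gs_le_gl D A
  set C' := max 1 C with hC'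
  refine ⟨C' ^ (m + 1), by positivity, fun x => ?_⟩
  set S : Finset (Fin (m + 1)) := Finset.univ.filter fun j => ∃ a, L j = .A a with hS
  have hcard : Fintype.card (Fin (m + 1)) = (Finset.univ : Finset (Fin (m + 1))).card := by
    rw [Finset.card_univ]
  obtain ⟨g, hg⟩ := Finset.exists_equiv_extend_of_card_eq (s := S) (f := κ) hcard
    (Finset.subset_univ _) (by
      intro i hi j hj hij
      rw [hS, Finset.coe_filter] at hi hj
      exact hκ hi.2 hj.2 hij)
  have h1 : ∀ j, r4wt D A (L j) (κ j) () x ≤ C' * (1 + ‖D.Tr (A (g j)) x‖)⁻¹ := by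
    intro j
    have hp : 0 ≤ (1 + ‖D.Tr (A (g j)) x‖)⁻¹ := by positivity
    by_cases hj : ∃ a, L j = .A a
    · have hj' : j ∈ S := by
        rw [hS, Finset.mem_filter]
        exact ⟨Finset.mem_univ _, hj⟩
      obtain ⟨a, ha⟩ := hj
      rw [hg j hj'] at hp ⊢
      rw [ha]
      show (1 + ‖D.Tr (A (κ j)) x‖)⁻¹ ≤ _
      have := le_max_left 1 C
      nlinarith
    · have : ∃ t, L j = .T t := by
        cases hl : L j with
        | T t => exact ⟨t, rfl⟩
        | A a => exact absurd ⟨a, hl⟩ hj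
      obtain ⟨t, ht⟩ := this
      rw [ht]
      show (D.sz x)⁻¹ ≤ _
      exact (hC1 x (g j)).trans (mul_le_mul_of_nonneg_right (le_max_right _ _) hp)
  calc ∏ j, r4wt D A (L j) (κ j) () x ≤ ∏ j, (C' * (1 + ‖D.Tr (A (g j)) x‖)⁻¹) :=
        Finset.prod_le_prod (fun j _ => (r4wt_pos D A _ _ _ x).le) fun j _ => h1 j
    _ = C' ^ (m + 1) * ∏ j, (1 + ‖D.Tr (A (g j)) x‖)⁻¹ := by
        rw [Finset.prod_mul_distrib, Finset.prod_const, Finset.card_univ, Fintype.card_fin]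
    _ = C' ^ (m + 1) * D.bl A x := by
        congr 1
        unfold Ctx.bl
        have h2 : ∏ j, (1 + ‖D.Tr (A (g j)) x‖)⁻¹ =
            ∏ k : (Finset.univ : Finset (Fin (m + 1))), (1 + ‖D.Tr (A k) x‖)⁻¹ :=
          g.prod_comp (fun k : (Finset.univ : Finset (Fin (m + 1))) => (1 + ‖D.Tr (A k) x‖)⁻¹)
        rw [h2, Finset.prod_coe_sort Finset.univ (fun k => (1 + ‖D.Tr (A k) x‖)⁻¹)]

theorem good_idet (D : Ctx F K m) (hD : D.Ok) (A : Fin (m + 1) → K)
    (w : Fin (m + 1) × Fin 2 → 𝓞 K) (hdir : D.Dirs A w) (L : Fin (m + 1) → Lab K m)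
    (κ : Fin (m + 1) → Fin (m + 1)) (hT : ∀ j t, L j = .T t → ∀ i, 0 < t i)
    (hA : ∀ j a, L j = .A a → a = A (κ j)) (hκ : Set.InjOn κ {j | ∃ a, L j = .A a}) :
    Good D.X w (D.gl A) (fun (_ : Unit) x => D.bl A x) (fun _ => D.Idet L) := by
  obtain ⟨c, hc, hle⟩ := r4_prod D A L κ hκ
  have hX := r4_X D hdir
  have hgl := r4_gl D A
  have h1 : ∀ τ : Equiv.Perm (Fin (m + 1)), Good D.X w (D.gl A)
      (fun q x => ∏ j, r4wt D A (L j) (κ j) q x)
      (fun (_ : Unit) x => ((Equiv.Perm.sign τ : ℤ) : ℂ) * ∏ j, D.row (L (τ j)) x j) := by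
    intro τ
    have h2 := Good.prod hX (sv_gl D A w) Finset.univ
      (fun j q x => r4wt D A (L (τ j)) (κ (τ j)) q x)
      (fun j (_ : Unit) x => D.row (L (τ j)) x j)
      (fun j _ => r4_sv D A w hdir (L (τ j)) (κ (τ j)))
      (fun j _ => r4_row D hD A w hdir (L (τ j)) (κ (τ j)) (hT (τ j)) (hA (τ j)) j)
    have h3 : (fun (q : Unit) (x : 𝓞 K) => ∏ j, r4wt D A (L (τ j)) (κ (τ j)) q x) =
        fun q x => ∏ j, r4wt D A (L j) (κ j) q x := by
      funext q x
      exact Equiv.prod_comp τ (fun j => r4wt D A (L j) (κ j) q x)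
    rw [h3] at h2
    exact Good.smul h2 hgl
      (fun q x _ => Finset.prod_nonneg fun j _ => (r4wt_pos D A _ _ _ x).le)
      (fun _ => ((Equiv.Perm.sign τ : ℤ) : ℂ)) ‖((Equiv.Perm.sign τ : ℤ) : ℂ)‖ (fun _ => le_rfl)
  have h4 := Good.sum (Finset.univ : Finset (Equiv.Perm (Fin (m + 1)))) _ (fun τ _ => h1 τ) hgl
    (fun q x _ => Finset.prod_nonneg fun j _ => (r4wt_pos D A _ _ _ x).le)
  have h5 : (fun (_ : Unit) => D.Idet L) = fun (_ : Unit) x =>
      ∑ τ : Equiv.Perm (Fin (m + 1)), ((Equiv.Perm.sign τ : ℤ) : ℂ) *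
        ∏ j, D.row (L (τ j)) x j := by
    funext _ x
    unfold Ctx.Idet
    rw [Matrix.det_apply']
    rfl
  rw [h5]
  refine Good.mono h4 hgl (max 1 c) (by positivity) (fun q x _ => ⟨?_, ?_⟩) (fun j x hx => ?_)
  · exact Finset.prod_nonneg fun j _ => (r4wt_pos D A _ _ _ x).le
  · refine (hle x).trans (mul_le_mul_of_nonneg_right (le_max_right _ _) ?_)
    unfold Ctx.bl
    exact Finset.prod_nonneg fun k _ => by positivity
  · have := hgl j x hx
    have h6 := le_max_left 1 c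
    nlinarith

end H55P
end

-- from Lib.H55N.R2
section

open NumberField IsDedekindDomain

namespace H55N

open H55B H55C

variable {K : Type} [Field K] [NumberField K] [Algebra F K] {m : ℕ}

/-! Chunk R2 (M/L). Existence of regularised sums, for h Good with weight bl = prod_k (1+|Tr(A_k x)|)^(-1) and gains gl. Index set I = Fin (m+1) x Fin 2.
The family h cut_{B,R}, R >= 1, is Good with weight bl and gains gl: Good.mul of hh (constant in the parameter) and good_cut (gains gs <= C gl: gs_le_gl, Good.mono; weight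
1: SV.one), sv_bl, sv_gl. For S = univ: |D(h cut_R)(x)| <= C bl(x) prod_{i in I} gl_i(x) = C prod_k (1+|Tr(A_k x)|)^(-3) (two i for each k), summable over
X (sum_l with r = 3; Dirs.int, Dirs.ind). By GSpec and summable_cut: sum_X g h cut_R = sum_X G D(h cut_R), and D(h cut_R)(x) -> D h(x) as R -> infinity for fixed x
(finite sum, cut_tendsto). Dominated convergence: tendsto_tsum_of_dominated_convergence. h is bounded on X: S = empty, bl <= 1.
R3: the same with pcut (good_pcut) instead of cut; g h pcut_R is absolutely summable over X: |h| <= C bl, pcut_R <= C_R prod_k (1+|Tr|)^(-2). -/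

theorem R2_prod (D : Ctx K m) (A : Fin (m + 1) → K) (x : 𝓞 K) :
    D.bl A x * ∏ i : Fin (m + 1) × Fin 2, D.gl A i x =
      ∏ k, (1 + ‖D.Tr (A k) x‖) ^ (-(3 : ℝ)) := by
  have h1 : ∏ i : Fin (m + 1) × Fin 2, D.gl A i x =
      ∏ k : Fin (m + 1), ((1 + ‖D.Tr (A k) x‖)⁻¹ * (1 + ‖D.Tr (A k) x‖)⁻¹) := by
    rw [Fintype.prod_prod_type]
    refine Finset.prod_congr rfl fun k _ => ?_
    rw [Fin.prod_univ_two]
    rfl
  rw [h1]
  unfold Ctx.bl
  rw [← Finset.prod_mul_distrib]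
  refine Finset.prod_congr rfl fun k _ => ?_
  have h2 : 0 < 1 + ‖D.Tr (A k) x‖ := by positivity
  rw [Real.rpow_neg h2.le, show (3 : ℝ) = ((3 : ℕ) : ℝ) by norm_num, Real.rpow_natCast]
  field_simp

theorem R2_summable (D : Ctx K m) (hD : D.Ok) (A : Fin (m + 1) → K)
    (w : Fin (m + 1) × Fin 2 → 𝓞 K) (hdir : D.Dirs A w) :
    Summable fun x : D.X => D.bl A x * ∏ i : Fin (m + 1) × Fin 2, D.gl A i x := by
  have h := sum_l D hD.emb D.X A hdir.ind hdir.int 3 (by norm_num)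
  exact h.congr fun x => (R2_prod D A x).symm

theorem R2_bl_nonneg (D : Ctx K m) (A : Fin (m + 1) → K) (x : 𝓞 K) : 0 ≤ D.bl A x := by
  unfold Ctx.bl
  positivity

theorem R2_gl_nonneg (D : Ctx K m) (A : Fin (m + 1) → K) (i : Fin (m + 1) × Fin 2) (x : 𝓞 K) :
    0 ≤ D.gl A i x := by
  unfold Ctx.gl
  positivity

theorem R2_bl_le (D : Ctx K m) (A : Fin (m + 1) → K) (x : 𝓞 K) : D.bl A x ≤ 1 := by
  unfold Ctx.bl
  apply Finset.prod_le_one
  · intro k _
    positivity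
  · intro k _
    apply inv_le_one_of_one_le₀
    have := norm_nonneg (D.Tr (A k) x)
    linarith

theorem R2_stab (D : Ctx K m) (A : Fin (m + 1) → K)
    (w : Fin (m + 1) × Fin 2 → 𝓞 K) (hdir : D.Dirs A w) : ∀ x ∈ D.X, ∀ i, x - w i ∈ D.X :=
  fun _ hx i => D.X_sub hx (hdir.mem i)

/-- Summability of the differences. -/
theorem R2_sumD (D : Ctx K m) (hD : D.Ok) (A : Fin (m + 1) → K)
    (w : Fin (m + 1) × Fin 2 → 𝓞 K) (hdir : D.Dirs A w) (G : 𝓞 K → ℂ) (hG : D.GSpec w G)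
    (h : 𝓞 K → ℂ) (hh : Good D.X w (D.gl A) (fun (_ : Unit) x => D.bl A x) (fun _ => h)) :
    Summable fun x : D.X => ‖G x * Dif w Finset.univ h x‖ := by
  obtain ⟨C, hC⟩ := hh
  obtain ⟨CG, hCG⟩ := hG.1
  have h1 := (R2_summable D hD A w hdir).mul_left (|CG| * |C|)
  refine Summable.of_nonneg_of_le (fun x => norm_nonneg _) (fun x => ?_) h1
  rw [norm_mul]
  have hp : 0 ≤ ∏ i : Fin (m + 1) × Fin 2, D.gl A i x :=
    Finset.prod_nonneg fun i _ => R2_gl_nonneg D A i x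
  have h2 : ‖Dif w Finset.univ h x‖ ≤ |C| * (D.bl A x * ∏ i : Fin (m + 1) × Fin 2, D.gl A i x) := by
    refine (hC () Finset.univ x x.2).trans ?_
    rw [mul_assoc]
    exact mul_le_mul_of_nonneg_right (le_abs_self C) (mul_nonneg (R2_bl_nonneg D A x) hp)
  calc ‖G x‖ * ‖Dif w Finset.univ h x‖
      ≤ |CG| * (|C| * (D.bl A x * ∏ i : Fin (m + 1) × Fin 2, D.gl A i x)) :=
        mul_le_mul ((hCG x).trans (le_abs_self _)) h2 (norm_nonneg _) (abs_nonneg _)
    _ = _ := by ring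

/-- The limit for a family of cutoff functions. -/
theorem R2_lim (D : Ctx K m) (hD : D.Ok) (A : Fin (m + 1) → K)
    (w : Fin (m + 1) × Fin 2 → 𝓞 K) (hdir : D.Dirs A w) (G : 𝓞 K → ℂ) (hG : D.GSpec w G)
    (h : 𝓞 K → ℂ) (hh : Good D.X w (D.gl A) (fun (_ : Unit) x => D.bl A x) (fun _ => h))
    (ψ : ℝ → 𝓞 K → ℝ)
    (h1 : Good D.X w (D.gl A) (fun (_ : {R : ℝ // 1 ≤ R}) _ => (1 : ℝ))
      (fun q x => (ψ q.1 x : ℂ)))
    (h2 : ∀ x, Filter.Tendsto (fun R : ℝ => (ψ R x : ℂ)) Filter.atTop (nhds 1))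
    (h3 : ∀ R : ℝ, 1 ≤ R → Summable fun x : D.X => ‖h x * (ψ R x : ℂ)‖) :
    Filter.Tendsto (fun R : ℝ => ∑' x : D.X, D.g x * h x * (ψ R x : ℂ)) Filter.atTop
      (nhds (∑' x : D.X, G x * Dif w Finset.univ h x)) := by
  obtain ⟨CG, hCG⟩ := hG.1
  have hh' : Good D.X w (D.gl A) (fun (_ : {R : ℝ // 1 ≤ R}) x => D.bl A x) (fun _ => h) := by
    obtain ⟨C, hC⟩ := hh
    exact ⟨C, fun q S x hx => hC () S x hx⟩
  obtain ⟨C, hC⟩ := Good.mul (R2_stab D A w hdir) (sv_gl D A w) (sv_bl D A w) SV.one hh' h1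
  have hev : (fun R : ℝ => ∑' x : D.X, G x * Dif w Finset.univ (fun y => h y * (ψ R y : ℂ)) x)
      =ᶠ[Filter.atTop] fun R : ℝ => ∑' x : D.X, D.g x * h x * (ψ R x : ℂ) := by
    filter_upwards [Filter.eventually_ge_atTop (1 : ℝ)] with R hR
    have := hG.2 (fun y => h y * (ψ R y : ℂ)) (h3 R hR)
    rw [← this]
    exact tsum_congr fun x => (mul_assoc _ _ _).symm
  refine Filter.Tendsto.congr' hev ?_
  refine tendsto_tsum_of_dominated_convergence
    (bound := fun x : D.X => (|CG| * |C|) *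
      (D.bl A x * ∏ i : Fin (m + 1) × Fin 2, D.gl A i x)) ?_ ?_ ?_
  · exact (R2_summable D hD A w hdir).mul_left _
  · intro x
    refine Filter.Tendsto.const_mul _ ?_
    unfold Dif
    refine tendsto_finsetSum _ fun T _ => ?_
    refine Filter.Tendsto.const_mul _ ?_
    have h4 := (h2 (x.1 - ∑ i ∈ T, w i)).const_mul (h (x.1 - ∑ i ∈ T, w i))
    rw [mul_one] at h4
    exact h4
  · filter_upwards [Filter.eventually_ge_atTop (1 : ℝ)] with R hR
    intro x
    rw [norm_mul]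
    have hp : 0 ≤ ∏ i : Fin (m + 1) × Fin 2, D.gl A i x :=
      Finset.prod_nonneg fun i _ => R2_gl_nonneg D A i x
    have h5 : ‖Dif w Finset.univ (fun y => h y * (ψ R y : ℂ)) x‖ ≤
        |C| * (D.bl A x * ∏ i : Fin (m + 1) × Fin 2, D.gl A i x) := by
      refine (hC ⟨R, hR⟩ Finset.univ x x.2).trans ?_
      change C * (D.bl A x * 1) * ∏ i : Fin (m + 1) × Fin 2, D.gl A i x ≤ _
      rw [mul_one, mul_assoc]
      exact mul_le_mul_of_nonneg_right (le_abs_self C) (mul_nonneg (R2_bl_nonneg D A x) hp)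
    calc ‖G x‖ * ‖Dif w Finset.univ (fun y => h y * (ψ R y : ℂ)) x‖
        ≤ |CG| * (|C| * (D.bl A x * ∏ i : Fin (m + 1) × Fin 2, D.gl A i x)) :=
          mul_le_mul ((hCG x).trans (le_abs_self _)) h5 (norm_nonneg _) (abs_nonneg _)
      _ = _ := by ring

theorem R2_bdd (D : Ctx K m) (A : Fin (m + 1) → K)
    (w : Fin (m + 1) × Fin 2 → 𝓞 K)
    (h : 𝓞 K → ℂ) (hh : Good D.X w (D.gl A) (fun (_ : Unit) x => D.bl A x) (fun _ => h)) :
    ∃ C : ℝ, 0 ≤ C ∧ ∀ x ∈ D.X, ‖h x‖ ≤ C * D.bl A x := by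
  obtain ⟨C, hC⟩ := hh
  refine ⟨|C|, abs_nonneg C, fun x hx => ?_⟩
  have h1 := hC () ∅ x hx
  rw [dif_empty, Finset.prod_empty, mul_one] at h1
  exact h1.trans (mul_le_mul_of_nonneg_right (le_abs_self C) (R2_bl_nonneg D A x))

theorem reg_of_good (D : Ctx K m) (hD : D.Ok) (A : Fin (m + 1) → K)
    (w : Fin (m + 1) × Fin 2 → 𝓞 K) (hdir : D.Dirs A w) (G : 𝓞 K → ℂ) (hG : D.GSpec w G)
    (h : 𝓞 K → ℂ) (hh : Good D.X w (D.gl A) (fun (_ : Unit) x => D.bl A x) (fun _ => h)) :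
    (Summable fun x : D.X => ‖G x * Dif w Finset.univ h x‖) ∧
      D.HasReg h (∑' x : D.X, G x * Dif w Finset.univ h x) := by
  refine ⟨R2_sumD D hD A w hdir G hG h hh, ?_, ?_⟩
  · obtain ⟨C, hC0, hC⟩ := R2_bdd D A w h hh
    refine ⟨C, fun x hx => (hC x hx).trans ?_⟩
    have := mul_le_mul_of_nonneg_left (R2_bl_le D A x) hC0
    linarith
  · intro B hB
    have hstab := R2_stab D A w hdir
    have h0 : (0 : 𝓞 K) ∉ D.X := fun h => D.X_ne hD.ne h rfl
    refine R2_lim D hD A w hdir G hG h hh (fun R x => D.cut B R x) ?_ ?_ ?_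
    · have h1 := good_cut (P := {R : ℝ // 1 ≤ R}) D hD.emb w D.X hstab h0 B hB (fun q => q.1)
        (fun q => q.2)
      obtain ⟨C, hC0, _, hC⟩ := gs_le_gl D A
      refine Good.mono h1 (fun i x _ => inv_nonneg.2 (D.sz_pos x).le) (max 1 C) (by positivity) ?_ ?_
      · intro q x _
        refine ⟨zero_le_one, ?_⟩
        rw [mul_one]
        exact le_max_left _ _
      · intro i x _
        exact (hC i x).trans (mul_le_mul_of_nonneg_right (le_max_right _ _)
          (R2_gl_nonneg D A i x))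
    · exact fun x => cut_tendsto D B x
    · intro R hR
      refine summable_cut D hD h ?_ B hB R hR
      obtain ⟨C, hC0, hC⟩ := R2_bdd D A w h hh
      refine ⟨C, fun x hx => (hC x hx).trans ?_⟩
      have := mul_le_mul_of_nonneg_left (R2_bl_le D A x) hC0
      linarith

theorem R2_pcut_tendsto (D : Ctx K m) (A : Fin (m + 1) → K) (x : 𝓞 K) :
    Filter.Tendsto (fun R : ℝ => (D.pcut A R x : ℂ)) Filter.atTop (nhds 1) := by
  have h1 : ∀ c : ℝ, Filter.Tendsto (fun R : ℝ => R ^ 2 / (R ^ 2 + c)) Filter.atTop (nhds 1) := by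
    intro c
    have h2 : Filter.Tendsto (fun R : ℝ => (1 + c / R ^ 2)⁻¹) Filter.atTop (nhds 1) := by
      have h3 : Filter.Tendsto (fun R : ℝ => c / R ^ 2) Filter.atTop (nhds 0) :=
        Filter.Tendsto.const_div_atTop (Filter.tendsto_pow_atTop (by norm_num)) c
      have h4 := (h3.const_add 1).inv₀ (by norm_num)
      simpa using h4
    refine h2.congr' ?_
    filter_upwards [Filter.eventually_gt_atTop (0 : ℝ)] with R hR
    have hR2 : R ^ 2 ≠ 0 := by positivity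
    rw [show 1 + c / R ^ 2 = (R ^ 2 + c) / R ^ 2 by field_simp, inv_div]
  have h5 : Filter.Tendsto (fun R : ℝ => D.pcut A R x) Filter.atTop (nhds 1) := by
    unfold Ctx.pcut
    have h6 := tendsto_finsetProd (Finset.univ : Finset (Fin (m + 1)))
      (fun k _ => h1 (‖D.Tr (A k) x‖ ^ 2))
    simpa using h6
  have h7 := (Complex.continuous_ofReal.tendsto 1).comp h5
  rw [Complex.ofReal_one] at h7
  exact h7

theorem R2_pcut_le (D : Ctx K m) (A : Fin (m + 1) → K) (R : ℝ) (hR : 1 ≤ R) (x : 𝓞 K) :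
    0 ≤ D.pcut A R x ∧
      D.pcut A R x ≤ (2 * R ^ 2) ^ (m + 1) * ∏ i : Fin (m + 1) × Fin 2, D.gl A i x := by
  have hR0 : 0 < R := by linarith
  constructor
  · unfold Ctx.pcut
    positivity
  · have h1 : ∏ i : Fin (m + 1) × Fin 2, D.gl A i x =
        ∏ k : Fin (m + 1), ((1 + ‖D.Tr (A k) x‖)⁻¹ * (1 + ‖D.Tr (A k) x‖)⁻¹) := by
      rw [Fintype.prod_prod_type]
      refine Finset.prod_congr rfl fun k _ => ?_
      rw [Fin.prod_univ_two]
      rfl
    rw [h1]
    unfold Ctx.pcut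
    have h2 : (2 * R ^ 2) ^ (m + 1) = ∏ _k : Fin (m + 1), (2 * R ^ 2) := by
      rw [Finset.prod_const, Finset.card_univ, Fintype.card_fin]
    rw [h2, ← Finset.prod_mul_distrib]
    apply Finset.prod_le_prod
    · intro k _
      positivity
    · intro k _
      have h3 := norm_nonneg (D.Tr (A k) x)
      have h4 : 0 < 1 + ‖D.Tr (A k) x‖ := by positivity
      have hR1 : 1 ≤ R ^ 2 := by nlinarith
      rw [← mul_inv, ← div_eq_mul_inv, div_le_div_iff₀ (by positivity) (by positivity)]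
      have h5 : (1 + ‖D.Tr (A k) x‖) * (1 + ‖D.Tr (A k) x‖) ≤
          2 * (R ^ 2 + ‖D.Tr (A k) x‖ ^ 2) := by
        nlinarith [sq_nonneg (1 - ‖D.Tr (A k) x‖)]
      calc R ^ 2 * ((1 + ‖D.Tr (A k) x‖) * (1 + ‖D.Tr (A k) x‖))
          ≤ R ^ 2 * (2 * (R ^ 2 + ‖D.Tr (A k) x‖ ^ 2)) :=
            mul_le_mul_of_nonneg_left h5 (by positivity)
        _ = _ := by ring

theorem pcut_of_good (D : Ctx K m) (hD : D.Ok) (A : Fin (m + 1) → K)
    (w : Fin (m + 1) × Fin 2 → 𝓞 K) (hdir : D.Dirs A w) (G : 𝓞 K → ℂ) (hG : D.GSpec w G)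
    (h : 𝓞 K → ℂ) (hh : Good D.X w (D.gl A) (fun (_ : Unit) x => D.bl A x) (fun _ => h)) :
    Filter.Tendsto (fun R : ℝ => ∑' x : D.X, D.g x * h x * (D.pcut A R x : ℂ)) Filter.atTop
      (nhds (∑' x : D.X, G x * Dif w Finset.univ h x)) := by
  have g1 : Good D.X w (D.gl A) (fun (_ : {R : ℝ // 1 ≤ R}) _ => (1 : ℝ))
      (fun q x => (D.pcut A q.1 x : ℂ)) :=
    good_pcut D A w hdir (fun q : {R : ℝ // 1 ≤ R} => q.1) (fun q => q.2)
  have g3 : ∀ R : ℝ, 1 ≤ R → Summable fun x : D.X => ‖h x * (D.pcut A R x : ℂ)‖ := by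
    intro R hR
    obtain ⟨C, hC0, hC⟩ := R2_bdd D A w h hh
    have h1 := (R2_summable D hD A w hdir).mul_left (C * (2 * R ^ 2) ^ (m + 1))
    refine Summable.of_nonneg_of_le (fun x => norm_nonneg _) (fun x => ?_) h1
    obtain ⟨h2, h3⟩ := R2_pcut_le D A R hR x
    rw [norm_mul, Complex.norm_real, Real.norm_eq_abs, abs_of_nonneg h2]
    calc ‖h x‖ * D.pcut A R x
        ≤ (C * D.bl A x) * ((2 * R ^ 2) ^ (m + 1) * ∏ i : Fin (m + 1) × Fin 2, D.gl A i x) :=
          mul_le_mul (hC x x.2) h3 h2 (mul_nonneg hC0 (R2_bl_nonneg D A x))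
      _ = _ := by ring
  exact R2_lim D hD A w hdir G hG h hh (fun R x => D.pcut A R x) g1
    (fun x => R2_pcut_tendsto D A x) g3

end H55N
end

-- from Lib.H55N.R7
section

open NumberField IsDedekindDomain

namespace H55N

open H55B H55C

variable {K : Type} [Field K] [NumberField K] [Algebra F K] {m : ℕ}

/-! Chunk R7 (M). The cocycle identity for the regularised sums on a prism.
row_sum: sum_i σ_i(x) row(l)(x)_i = 1 for x in X, l = T t with t > 0 (Q_t(x) <> 0) or l = A (A_k) (Tr <> 0, Dirs.low).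
prism_cocycle: the m+2 entries of the prism are L(v_0)..L(v_i) (label A (A_k) or a positive T label) and positive T labels. For every j the m+1
entries left satisfy the assumptions of good_idet: κ(k) := the number j.succAbove k if it is <= i (then the label is L(v_(that number)), A (A_that) or T), otherwise
anything (the label is of type T); injective on the indices of type A because succAbove is injective. So HasReg (Idet ..) by reg_of_good with a G from gspec_exists;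
Jv_eq; the alternating sum of the Idet is 0 on X (det_cocycle); HasReg.sum, HasReg.smul, HasReg.congr, HasReg.unique with HasReg.zero. -/

theorem r7_Q_pos (D : Ctx K m) (hE : Emb D.σ) (t : Fin (m + 1) → ℝ) (ht : ∀ i, 0 < t i)
    (x : 𝓞 K) (hx : x ≠ 0) : 0 < D.Q t x := by
  obtain ⟨i0, hi0⟩ := Finite.exists_min t
  obtain ⟨c, hc, h⟩ := Q_low D hE (t i0) (ht i0)
  have h1 := h t hi0 x hx
  have h2 := D.sz_pos x
  have h3 : 0 < c * D.sz x ^ 2 := by positivity
  linarith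

theorem row_sum (D : Ctx K m) (hD : D.Ok) (t : Fin (m + 1) → ℝ) (ht : ∀ i, 0 < t i) (x : 𝓞 K)
    (hx : x ∈ D.X) : ∑ i, D.σ i x * D.row (.T t) x i = 1 := by
  have hQ := r7_Q_pos D hD.emb t ht x (D.X_ne hD.ne hx)
  have hQ' : ((D.Q t x : ℝ) : ℂ) ≠ 0 := by exact_mod_cast hQ.ne'
  have h1 : ∀ i, D.σ i x * D.row (.T t) x i = ((t i * ‖D.σ i x‖ ^ 2 : ℝ) : ℂ) / (D.Q t x : ℂ) := by
    intro i
    show D.σ i x * ((starRingEnd ℂ) (D.σ i x) * t i / D.Q t x) = _
    rw [mul_div_assoc', ← mul_assoc, Complex.mul_conj, Complex.normSq_eq_norm_sq]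
    push_cast
    ring
  rw [Finset.sum_congr rfl fun i _ => h1 i, ← Finset.sum_div, ← Complex.ofReal_sum]
  exact div_self hQ'

theorem row_sum' (D : Ctx K m) (a : K) (x : 𝓞 K) (hx : D.Tr a x ≠ 0) :
    ∑ i, D.σ i x * D.row (.A a) x i = 1 := by
  have h1 : ∀ i, D.σ i x * D.row (.A a) x i = D.σ i ((x : K) * a) / D.Tr a x := by
    intro i
    show D.σ i x * (D.σ i a / D.Tr a x) = _
    rw [map_mul, mul_div_assoc]
  rw [Finset.sum_congr rfl fun i _ => h1 i, ← Finset.sum_div]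
  exact div_self hx

theorem prism_cocycle {V : Type} (D : Ctx K m) (hD : D.Ok) (A : Fin (m + 1) → K)
    (w : Fin (m + 1) × Fin 2 → 𝓞 K) (hdir : D.Dirs A w) (L L' : V → Lab K m) (v : ℕ → V)
    (hL : ∀ k : Fin (m + 1), L (v k) = .A (A k) ∨ ∃ t, L (v k) = .T t ∧ ∀ i, 0 < t i)
    (hL' : ∀ k ≤ m, ∃ t, L' (v k) = .T t ∧ ∀ i, 0 < t i) (i : ℕ) (hi : i ≤ m) :
    ∑ j : Fin (m + 2), (-1) ^ (j : ℕ) * D.Jv (fun k : Fin (m + 1) =>
      prism L L' v i (j.succAbove k : Fin (m + 2))) = 0 := by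
  obtain ⟨G, hG⟩ := gspec_exists D hD A w hdir
  -- the entries of the prism
  have hent : ∀ j : Fin (m + 2),
      (∃ t, prism L L' v i j = .T t ∧ ∀ i, 0 < t i) ∨
      ((j : ℕ) < m + 1 ∧ prism L L' v i j = .A (A (Fin.ofNat (m + 1) j))) := by
    intro j
    unfold prism
    by_cases hj : (j : ℕ) ≤ i
    · rw [if_pos hj]
      have hjm : (j : ℕ) < m + 1 := by omega
      have h1 := hL ⟨j, hjm⟩
      rcases h1 with h1 | ⟨t, h1, h2⟩
      · right
        refine ⟨hjm, ?_⟩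
        have : Fin.ofNat (m + 1) (j : ℕ) = ⟨j, hjm⟩ := by
          apply Fin.ext
          simp [Nat.mod_eq_of_lt hjm]
        rw [this]
        exact h1
      · left
        exact ⟨t, h1, h2⟩
    · rw [if_neg hj]
      left
      exact hL' ((j : ℕ) - 1) (by have := j.2; omega)
  set M : Fin (m + 2) → Lab K m := fun j => prism L L' v i j with hM
  set Lj : Fin (m + 2) → Fin (m + 1) → Lab K m := fun j k => M (j.succAbove k) with hLj
  have hreg : ∀ j : Fin (m + 2), D.HasReg (D.Idet (Lj j)) (D.Jv (Lj j)) := by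
    intro j
    have hgood := good_idet D hD A w hdir (Lj j)
      (fun k => Fin.ofNat (m + 1) (j.succAbove k : Fin (m + 2))) ?_ ?_ ?_
    · have h1 := (reg_of_good D hD A w hdir G hG _ hgood).2
      rw [Jv_eq D h1]
      exact h1
    · intro k t hk i'
      rcases hent (j.succAbove k) with ⟨t', h1, h2⟩ | ⟨_, h1⟩
      · have h3 : Lj j k = .T t' := h1
        rw [hk] at h3
        obtain rfl : t = t' := by injection h3
        exact h2 i'
      · have h3 : Lj j k = .A _ := h1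
        rw [hk] at h3
        exact absurd h3 (by simp)
    · intro k a hk
      rcases hent (j.succAbove k) with ⟨t', h1, h2⟩ | ⟨_, h1⟩
      · have h3 : Lj j k = .T t' := h1
        rw [hk] at h3
        exact absurd h3 (by simp)
      · have h3 : Lj j k = .A _ := h1
        rw [hk] at h3
        injection h3
    · have hlt : ∀ k, (∃ a, Lj j k = .A a) → ((j.succAbove k : Fin (m + 2)) : ℕ) < m + 1 := by
        rintro k ⟨a, hk⟩
        rcases hent (j.succAbove k) with ⟨t', h1, h2⟩ | ⟨h4, h1⟩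
        · have h3 : Lj j k = .T t' := h1
          rw [hk] at h3
          exact absurd h3 (by simp)
        · exact h4
      intro k hk k' hk' hkk
      have e1 := hlt k hk
      have e2 := hlt k' hk'
      have e3 := congrArg Fin.val hkk
      simp only [Fin.val_ofNat, Nat.mod_eq_of_lt e1, Nat.mod_eq_of_lt e2] at e3
      exact Fin.succAbove_right_injective (Fin.ext e3)
  have h1 := HasReg.sum D hD Finset.univ
    (fun (j : Fin (m + 2)) x => (-1) ^ (j : ℕ) * D.Idet (Lj j) x)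
    (fun (j : Fin (m + 2)) => (-1) ^ (j : ℕ) * D.Jv (Lj j))
    (fun j _ => HasReg.smul D (hreg j) ((-1) ^ (j : ℕ)))
  have h2 : ∀ x ∈ D.X, ∑ j : Fin (m + 2), (-1) ^ (j : ℕ) * D.Idet (Lj j) x = 0 := by
    intro x hx
    have h3 := det_cocycle (n := m + 1) (fun i => D.σ i x) (fun j i => D.row (M j) x i) ?_
    · exact h3
    · intro j
      rcases hent j with ⟨t, h4, h5⟩ | ⟨_, h4⟩
      · have : M j = .T t := h4
        rw [this]
        exact row_sum D hD t h5 x hx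
      · have : M j = .A (A (Fin.ofNat (m + 1) j)) := h4
        rw [this]
        apply row_sum'
        intro h0
        have h6 := hdir.low x hx (Fin.ofNat (m + 1) j)
        rw [h0, norm_zero] at h6
        linarith
  have h3 := HasReg.congr D h1 h2
  exact HasReg.unique D h3 (HasReg.zero D)

end H55N
end

-- from Lib.H55N.R8
section

open NumberField IsDedekindDomain

namespace H55N

open H55B H55C

variable {K : Type} [Field K] [NumberField K] [Algebra F K] {m : ℕ}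

/-! Chunk R8 (M). The T labels. On X: Idet(T t_j)(x) = det(t_j(i)) conj(N x)/prod_j Q_{t_j}(x) (columns: conj(σ_i x); rows: 1/Q). conj N/prod_j Q_{t_j} is Good with
weight bl: it is a product over j of conj(σ_j x)/Q_{t_j}(x), i.e. Good with weights sz^(-1) (as in R4: B9, gs_le_gl). So
HasReg (conj N/prod Q) (Bv w G t) by reg_of_good; Jv_T: HasReg.smul, Jv_eq (HasReg.congr).
Bv_cont: for t in a compact set a <= t <= b all bounds are uniform (parameter P = set of such t in good_row): |G D(conj N/prod Q_{t_j})(x)| <= C prod_k (1+|Tr(A_k x)|)^(-3),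
summable, each term continuous in t (Q_t(y) > 0 for y in X): continuousOn_tsum on the open sets {a < t < b}, every point of the positive set has such a neighbourhood.
Jv_A: Idet(A A_k)(x) = det(σ_i(A_k)) prod_k Tr(A_k x)^(-1), the last product is Good with weight bl (good_tr, Good.prod). -/

theorem r8_Q_pos (D : Ctx K m) (hE : Emb D.σ) (t : Fin (m + 1) → ℝ) (ht : ∀ i, 0 < t i)
    (x : 𝓞 K) (hx : x ≠ 0) : 0 < D.Q t x := by
  obtain ⟨i0, hi0⟩ := Finite.exists_min t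
  obtain ⟨c, hc, h⟩ := Q_low D hE (t i0) (ht i0)
  have h1 := h t hi0 x hx
  have h2 := D.sz_pos x
  have h3 : 0 < c * D.sz x ^ 2 := by positivity
  linarith

/-- The function conj N / prod Q. -/
noncomputable def r8h (D : Ctx K m) (t : Fin (m + 1) → Fin (m + 1) → ℝ) (x : 𝓞 K) : ℂ :=
  (starRingEnd ℂ) (D.N x) / ∏ j, (D.Q (t j) x : ℂ)

theorem r8_factor (D : Ctx K m) (hD : D.Ok) (A : Fin (m + 1) → K)
    (w : Fin (m + 1) × Fin 2 → 𝓞 K) (hdir : D.Dirs A w) {P : Type}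
    (t : P → Fin (m + 1) → ℝ) (a b : ℝ) (ha : 0 < a) (ht : ∀ q i, a ≤ t q i ∧ t q i ≤ b)
    (k : Fin (m + 1)) :
    Good D.X w (D.gl A) (fun (_ : P) x => (1 + ‖D.Tr (A k) x‖)⁻¹)
      (fun q x => (starRingEnd ℂ) (D.σ k x) / (D.Q (t q) x : ℂ)) := by
  have h0 : (0 : 𝓞 K) ∉ D.X := fun h => D.X_ne hD.ne h rfl
  have hX := R2_stab D A w hdir
  have hgs : ∀ (i : Fin (m + 1) × Fin 2), ∀ x ∈ D.X, 0 ≤ D.gs i x :=
    fun _ x _ => (inv_pos.mpr (D.sz_pos x)).le
  have hgl : ∀ (i : Fin (m + 1) × Fin 2), ∀ x ∈ D.X, 0 ≤ D.gl A i x :=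
    fun i x _ => R2_gl_nonneg D A i x
  have h1 := good_row (P := P) D hD.emb w D.X hX h0 t a b ha ht k
  have h2 := Good.smul h1 hgs (fun _ x _ => (inv_pos.2 (D.sz_pos x)).le)
    (fun q => ((t q k : ℝ) : ℂ)⁻¹) a⁻¹ (fun q => by
      rw [norm_inv, Complex.norm_real, Real.norm_eq_abs, abs_of_pos (ha.trans_le (ht q k).1)]
      exact inv_anti₀ ha (ht q k).1)
  obtain ⟨C, hC, hC1, hC2⟩ := gs_le_gl D A
  have h3 : (fun (q : P) (x : 𝓞 K) => (starRingEnd ℂ) (D.σ k x) / (D.Q (t q) x : ℂ)) =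
      fun (q : P) (x : 𝓞 K) => ((t q k : ℝ) : ℂ)⁻¹ * D.row (.T (t q)) x k := by
    funext q x
    show _ = ((t q k : ℝ) : ℂ)⁻¹ * ((starRingEnd ℂ) (D.σ k x) * (t q k) / D.Q (t q) x)
    have : ((t q k : ℝ) : ℂ) ≠ 0 := by exact_mod_cast (ha.trans_le (ht q k).1).ne'
    field_simp
  rw [h3]
  refine Good.mono h2 hgs C hC.le (fun q x _ => ⟨(inv_pos.2 (D.sz_pos x)).le, hC1 x k⟩)
    (fun i x _ => hC2 i x)

theorem r8_good (D : Ctx K m) (hD : D.Ok) (A : Fin (m + 1) → K)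
    (w : Fin (m + 1) × Fin 2 → 𝓞 K) (hdir : D.Dirs A w) {P : Type}
    (t : P → Fin (m + 1) → Fin (m + 1) → ℝ) (a b : ℝ) (ha : 0 < a)
    (ht : ∀ q j i, a ≤ t q j i ∧ t q j i ≤ b) :
    Good D.X w (D.gl A) (fun (_ : P) x => D.bl A x) (fun q => r8h D (t q)) := by
  have hX := R2_stab D A w hdir
  have h1 := Good.prod hX (sv_gl D A w) Finset.univ
    (fun k (_ : P) x => (1 + ‖D.Tr (A k) x‖)⁻¹)
    (fun k (q : P) x => (starRingEnd ℂ) (D.σ k x) / (D.Q (t q k) x : ℂ))
    (fun k _ => SV.inv hX (sv_tr (P := P) D A w k))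
    (fun k _ => r8_factor D hD A w hdir (fun q => t q k) a b ha (fun q i => ht q k i) k)
  have h2 : (fun (q : P) => r8h D (t q)) = fun (q : P) (x : 𝓞 K) =>
      ∏ k, ((starRingEnd ℂ) (D.σ k x) / (D.Q (t q k) x : ℂ)) := by
    funext q x
    unfold r8h Ctx.N
    rw [Finset.prod_div_distrib, map_prod]
  rw [h2]
  exact h1

theorem r8_idet (D : Ctx K m) (t : Fin (m + 1) → Fin (m + 1) → ℝ) (x : 𝓞 K) :
    D.Idet (fun j => .T (t j)) x = ((Matrix.det (Matrix.of t) : ℝ) : ℂ) * r8h D t x := by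
  have h1 : ((Matrix.det (Matrix.of t) : ℝ) : ℂ) =
      Matrix.det (Matrix.of fun j i => ((t j i : ℝ) : ℂ)) := by
    have := RingHom.map_det Complex.ofRealHom (Matrix.of t)
    exact this
  have h2 : D.Idet (fun j => .T (t j)) x = Matrix.det (Matrix.of fun j i : Fin (m + 1) =>
      ((D.Q (t j) x : ℂ))⁻¹ * (Matrix.of fun j i : Fin (m + 1) =>
        (starRingEnd ℂ) (D.σ i x) * (Matrix.of fun j i => ((t j i : ℝ) : ℂ)) j i) j i) := by
    unfold Ctx.Idet
    congr 1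
    ext j i
    show (starRingEnd ℂ) (D.σ i x) * (t j i) / D.Q (t j) x =
      ((D.Q (t j) x : ℂ))⁻¹ * ((starRingEnd ℂ) (D.σ i x) * (t j i : ℂ))
    rw [div_eq_inv_mul]
  rw [h2, Matrix.det_mul_column, Matrix.det_mul_row, ← h1]
  unfold r8h Ctx.N
  rw [Finset.prod_inv_distrib, map_prod]
  ring

theorem r8_reg (D : Ctx K m) (hD : D.Ok) (A : Fin (m + 1) → K)
    (w : Fin (m + 1) × Fin 2 → 𝓞 K) (hdir : D.Dirs A w) (G : 𝓞 K → ℂ) (hG : D.GSpec w G)
    (t : Fin (m + 1) → Fin (m + 1) → ℝ) (ht : ∀ j i, 0 < t j i) :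
    D.HasReg (r8h D t) (D.Bv w G t) := by
  have hex : ∃ a b : ℝ, 0 < a ∧ ∀ j i, a ≤ t j i ∧ t j i ≤ b := by
    obtain ⟨p0, hp0⟩ := Finite.exists_min fun p : Fin (m + 1) × Fin (m + 1) => t p.1 p.2
    obtain ⟨p1, hp1⟩ := Finite.exists_max fun p : Fin (m + 1) × Fin (m + 1) => t p.1 p.2
    exact ⟨t p0.1 p0.2, t p1.1 p1.2, ht _ _, fun j i => ⟨hp0 (j, i), hp1 (j, i)⟩⟩
  obtain ⟨a, b, ha, hab⟩ := hex
  have h1 := r8_good D hD A w hdir (fun (_ : Unit) => t) a b ha (fun _ => hab)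
  exact (reg_of_good D hD A w hdir G hG _ h1).2

theorem reg_T (D : Ctx K m) (hD : D.Ok) (A : Fin (m + 1) → K) (w : Fin (m + 1) × Fin 2 → 𝓞 K)
    (hdir : D.Dirs A w) (G : 𝓞 K → ℂ) (hG : D.GSpec w G) (t : Fin (m + 1) → Fin (m + 1) → ℝ)
    (ht : ∀ j i, 0 < t j i) :
    D.Jv (fun j => .T (t j)) = ((Matrix.det (Matrix.of t) : ℝ) : ℂ) * D.Bv w G t := by
  apply Jv_eq
  refine HasReg.congr D (HasReg.smul D (r8_reg D hD A w hdir G hG t ht)
    ((Matrix.det (Matrix.of t) : ℝ) : ℂ)) fun x _ => ?_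
  exact (r8_idet D t x).symm

theorem r8_cont (D : Ctx K m) (hE : Emb D.σ) (y : 𝓞 K) (hy : y ≠ 0) :
    ContinuousOn (fun t : Fin (m + 1) → Fin (m + 1) → ℝ => r8h D t y)
      {t | ∀ j i, 0 < t j i} := by
  unfold r8h
  apply ContinuousOn.div continuousOn_const
  · apply Continuous.continuousOn
    apply continuous_finsetProd
    intro j _
    apply Complex.continuous_ofReal.comp
    unfold Ctx.Q
    fun_prop
  · intro t ht
    rw [Finset.prod_ne_zero_iff]
    intro j _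
    exact_mod_cast (r8_Q_pos D hE (t j) (ht j) y hy).ne'

theorem r8_stab (D : Ctx K m) (A : Fin (m + 1) → K) (w : Fin (m + 1) × Fin 2 → 𝓞 K)
    (hdir : D.Dirs A w) (T : Finset (Fin (m + 1) × Fin 2)) (x : 𝓞 K) (hx : x ∈ D.X) :
    x - ∑ i ∈ T, w i ∈ D.X :=
  D.X_sub hx (D.I.sum_mem fun i _ => hdir.mem i)

theorem r8_contOn (D : Ctx K m) (hD : D.Ok) (A : Fin (m + 1) → K)
    (w : Fin (m + 1) × Fin 2 → 𝓞 K) (hdir : D.Dirs A w) (G : 𝓞 K → ℂ) (hG : D.GSpec w G)
    (a b : ℝ) (ha : 0 < a) :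
    ContinuousOn (D.Bv w G) {t | ∀ j i, a < t j i ∧ t j i < b} := by
  set P : Type := {t : Fin (m + 1) → Fin (m + 1) → ℝ // ∀ j i, a < t j i ∧ t j i < b} with hP
  obtain ⟨C, hC⟩ := r8_good D hD A w hdir (fun q : P => q.1) a b ha
    (fun q j i => ⟨(q.2 j i).1.le, (q.2 j i).2.le⟩)
  obtain ⟨CG, hCG⟩ := hG.1
  have h1 : (D.Bv w G) = fun t => ∑' x : D.X, G x * Dif w Finset.univ (r8h D t) x := rfl
  rw [h1]
  apply continuousOn_tsum (u := fun x : D.X => (|CG| * |C|) *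
      (D.bl A x * ∏ i : Fin (m + 1) × Fin 2, D.gl A i x))
  · intro x
    apply ContinuousOn.mul continuousOn_const
    unfold Dif
    apply continuousOn_finsetSum
    intro T _
    apply ContinuousOn.mul continuousOn_const
    refine (r8_cont D hD.emb _ (D.X_ne hD.ne (r8_stab D A w hdir T x x.2))).mono ?_
    intro t ht j i
    exact ha.trans (ht j i).1
  · exact (R2_summable D hD A w hdir).mul_left _
  · intro x t ht
    rw [norm_mul]
    have hp : 0 ≤ ∏ i : Fin (m + 1) × Fin 2, D.gl A i x :=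
      Finset.prod_nonneg fun i _ => R2_gl_nonneg D A i x
    have h2 : ‖Dif w Finset.univ (r8h D t) (x : 𝓞 K)‖ ≤
        |C| * (D.bl A x * ∏ i : Fin (m + 1) × Fin 2, D.gl A i x) := by
      refine (hC ⟨t, ht⟩ Finset.univ x x.2).trans ?_
      rw [mul_assoc]
      exact mul_le_mul_of_nonneg_right (le_abs_self C) (mul_nonneg (R2_bl_nonneg D A x) hp)
    calc ‖G x‖ * ‖Dif w Finset.univ (r8h D t) (x : 𝓞 K)‖
        ≤ |CG| * (|C| * (D.bl A x * ∏ i : Fin (m + 1) × Fin 2, D.gl A i x)) :=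
          mul_le_mul ((hCG x).trans (le_abs_self _)) h2 (norm_nonneg _) (abs_nonneg _)
      _ = _ := by ring

theorem Bv_cont (D : Ctx K m) (hD : D.Ok) (A : Fin (m + 1) → K) (w : Fin (m + 1) × Fin 2 → 𝓞 K)
    (hdir : D.Dirs A w) (G : 𝓞 K → ℂ) (hG : D.GSpec w G) :
    ContinuousOn (D.Bv w G) {t | ∀ j i, 0 < t j i} := by
  intro t ht
  have ht' : ∀ j i, 0 < t j i := ht
  obtain ⟨p0, hp0⟩ := Finite.exists_min fun p : Fin (m + 1) × Fin (m + 1) => t p.1 p.2
  obtain ⟨p1, hp1⟩ := Finite.exists_max fun p : Fin (m + 1) × Fin (m + 1) => t p.1 p.2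
  set a : ℝ := t p0.1 p0.2 / 2 with ha
  set b : ℝ := t p1.1 p1.2 + 1 with hb
  have ha0 : 0 < a := by
    have := ht' p0.1 p0.2
    positivity
  have hmem : t ∈ {t : Fin (m + 1) → Fin (m + 1) → ℝ | ∀ j i, a < t j i ∧ t j i < b} := by
    intro j i
    have h1 : t p0.1 p0.2 ≤ t j i := hp0 (j, i)
    have h2 : t j i ≤ t p1.1 p1.2 := hp1 (j, i)
    have h3 := ht' p0.1 p0.2
    constructor <;> [rw [ha]; rw [hb]] <;> linarith
  have hopen : IsOpen {t : Fin (m + 1) → Fin (m + 1) → ℝ | ∀ j i, a < t j i ∧ t j i < b} := by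
    have : {t : Fin (m + 1) → Fin (m + 1) → ℝ | ∀ j i, a < t j i ∧ t j i < b} =
        ⋂ j, ⋂ i, ({t : Fin (m + 1) → Fin (m + 1) → ℝ | a < t j i} ∩
          {t : Fin (m + 1) → Fin (m + 1) → ℝ | t j i < b}) := by
      ext t
      simp
    rw [this]
    refine isOpen_iInter_of_finite fun j => isOpen_iInter_of_finite fun i => ?_
    exact (isOpen_lt continuous_const (by fun_prop)).inter
      (isOpen_lt (by fun_prop) continuous_const)
  exact ((r8_contOn D hD A w hdir G hG a b ha0).continuousAt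
    (hopen.mem_nhds hmem)).continuousWithinAt

set_option maxHeartbeats 400000 in
theorem Jv_A (D : Ctx K m) (hD : D.Ok) (A : Fin (m + 1) → K) (w : Fin (m + 1) × Fin 2 → 𝓞 K)
    (hdir : D.Dirs A w) : ∃ S : ℂ,
      D.Jv (fun k => .A (A k)) = Matrix.det (Matrix.of fun k i => D.σ i (A k)) * S ∧
      Filter.Tendsto (fun R : ℝ => ∑' x : D.X, D.g x * (∏ k, (D.Tr (A k) x)⁻¹) *
        (D.pcut A R x : ℂ)) Filter.atTop (nhds S) := by
  have hX := R2_stab D A w hdir
  obtain ⟨G, hG⟩ := gspec_exists D hD A w hdir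
  have h1 : Good D.X w (D.gl A) (fun (_ : Unit) x => D.bl A x)
      (fun _ (x : 𝓞 K) => ∏ k, (D.Tr (A k) x)⁻¹) :=
    Good.prod hX (sv_gl D A w) Finset.univ
      (fun k (_ : Unit) x => (1 + ‖D.Tr (A k) x‖)⁻¹)
      (fun k (_ : Unit) x => (D.Tr (A k) x)⁻¹)
      (fun k _ => SV.inv hX (sv_tr (P := Unit) D A w k))
      (fun k _ => good_tr (P := Unit) D A w hdir k)
  have h4 := pcut_of_good D hD A w hdir G hG (fun x : 𝓞 K => ∏ k, (D.Tr (A k) x)⁻¹) h1
  have h2 := (reg_of_good D hD A w hdir G hG (fun x : 𝓞 K => ∏ k, (D.Tr (A k) x)⁻¹) h1).2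
  refine ⟨∑' x : D.X, G x * Dif w Finset.univ (fun x : 𝓞 K => ∏ k, (D.Tr (A k) x)⁻¹) x,
    ?_, h4⟩
  have h5 := HasReg.smul D h2 (Matrix.det (Matrix.of fun k i : Fin (m + 1) => D.σ i (A k)))
  apply Jv_eq
  refine HasReg.congr D h5 fun x _ => ?_
  symm
  have h3 : D.Idet (fun k => .A (A k)) x = Matrix.det (Matrix.of fun k i : Fin (m + 1) =>
      (D.Tr (A k) x)⁻¹ * (Matrix.of fun k i : Fin (m + 1) => D.σ i (A k)) k i) := by
    unfold Ctx.Idet
    congr 1
    ext k i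
    show D.σ i (A k) / D.Tr (A k) x = (D.Tr (A k) x)⁻¹ * D.σ i (A k)
    rw [div_eq_inv_mul]
  rw [h3, Matrix.det_mul_column]
  ring

end H55N
end

-- from Lib.H55N.Z1
section

open NumberField IsDedekindDomain MeasureTheory

namespace H55N

open H55B H55C

variable {K : Type} [Field K] [NumberField K] [Algebra F K] {m : ℕ}

/-! Chunk Z1 (M). The value. lm = D.lm u, J = D.Jv, τ z = D.act (uu u z); J (τ z l) = J l (uu_act, Jv_act). For N >= 1 put Lin_N a = T (tt lm (a/N)) and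
Fl a = T (tt lm a); Lin_N (a + N z) = τ z (Lin_N a) since tt lm (x + z) i = tt lm x i * |σ_i u^z|^2 (uu_act), and the same for a -> Fl (a/N) (integer division,
Int.add_mul_ediv_left). (1) CN_eq with N = m+1, L = A o L, L' = Lin_(m+1): hcoc by prism_cocycle with A_k = L(kv a π k) and w' from hdirs. So CN (m+1) J (A o L) = CN (m+1) J Lin_(m+1).
(2) For every N >= 1: CN N J Lin_N = CN N J (Fl o (./N)) by CN_eq, hcoc by prism_cocycle with the given A, w (second alternative in hL), and = CN 1 J Fl by CN_floor (Jv_degenerate).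
(3) So CN N J Lin_N does not depend on N; by reg_T it is the sum in riemann (B = D.Bv w G, Bv_cont, lm_sum) whose limit is m! Delta int; the limit of a constant sequence
(tendsto_nhds_unique, for N >= 1 eventually). -/

/-- The labels on a line. -/
noncomputable def Z1_Lin (D : Ctx K m) (u : Fin m → (𝓞 K)ˣ) (N : ℕ) (a : Fin m → ℤ) : Lab K m :=
  .T (tt (D.lm u) fun k => (a k : ℝ) / N)

/-- The integral labels. -/
noncomputable def Z1_Fl (D : Ctx K m) (u : Fin m → (𝓞 K)ˣ) (a : Fin m → ℤ) : Lab K m :=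
  .T (tt (D.lm u) fun k => (a k : ℝ))

theorem Z1_tt (D : Ctx K m) (u : Fin m → (𝓞 K)ˣ) (hu : D.UOk u) (x : Fin m → ℝ) (z : Fin m → ℤ) :
    (Lab.T (tt (D.lm u) fun k => x k + (z k : ℝ)) : Lab K m) =
      D.act (uu u z) (.T (tt (D.lm u) x)) := by
  have h := (uu_act D u hu z).2.2
  show Lab.T _ = Lab.T fun i => ‖D.σ i ((uu u z : 𝓞 K) : K)‖ ^ 2 * tt (D.lm u) x i
  congr 1
  funext i
  rw [h i]
  unfold tt
  rw [← Real.exp_add, ← Finset.sum_add_distrib]
  congr 1
  refine Finset.sum_congr rfl fun j _ => ?_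
  ring

theorem Z1_Lin_add (D : Ctx K m) (u : Fin m → (𝓞 K)ˣ) (hu : D.UOk u) (N : ℕ) (hN : 0 < N)
    (a z : Fin m → ℤ) : Z1_Lin D u N (a + (N : ℤ) • z) = D.act (uu u z) (Z1_Lin D u N a) := by
  unfold Z1_Lin
  rw [← Z1_tt D u hu]
  congr 2
  funext k
  have hN' : (N : ℝ) ≠ 0 := by exact_mod_cast hN.ne'
  simp only [Pi.add_apply, Pi.smul_apply, smul_eq_mul]
  push_cast
  field_simp

theorem Z1_Fl_add (D : Ctx K m) (u : Fin m → (𝓞 K)ˣ) (hu : D.UOk u) (N : ℕ) (hN : 0 < N)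
    (a z : Fin m → ℤ) : (Z1_Fl D u fun k => (a + (N : ℤ) • z) k / (N : ℤ)) =
      D.act (uu u z) (Z1_Fl D u fun k => a k / (N : ℤ)) := by
  unfold Z1_Fl
  rw [← Z1_tt D u hu]
  congr 2
  funext k
  have hN' : (N : ℤ) ≠ 0 := by exact_mod_cast hN.ne'
  simp only [Pi.add_apply, Pi.smul_apply, smul_eq_mul]
  rw [Int.add_mul_ediv_left _ _ hN']
  push_cast
  ring

theorem Z1_tt_pos (lm : Fin (m + 1) → Fin m → ℝ) (z : Fin m → ℝ) (i : Fin (m + 1)) :
    0 < tt lm z i := Real.exp_pos _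

theorem CN_value (D : Ctx K m) (hD : D.Ok) (u : Fin m → (𝓞 K)ˣ) (hu : D.UOk u)
    (A : Fin (m + 1) → K) (w : Fin (m + 1) × Fin 2 → 𝓞 K) (hdir : D.Dirs A w) (G : 𝓞 K → ℂ)
    (hG : D.GSpec w G) (L : (Fin m → ℤ) → K)
    (hequi : ∀ a z : Fin m → ℤ, L (a + ((m + 1 : ℕ) : ℤ) • z) = ((uu u z : 𝓞 K) : K) * L a)
    (hdirs : ∀ (a : Fin m → Fin (m + 1)) (π : Equiv.Perm (Fin m)),
      ∃ w', D.Dirs (fun k : Fin (m + 1) => L (kv (fun k => ((a k : ℕ) : ℤ)) π k)) w') :
    CN (m + 1) D.Jv (fun a => .A (L a)) = (m.factorial : ℂ) * ((Delta (D.lm u) : ℝ) : ℂ) *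
      ∫ z in Set.Icc (0 : Fin m → ℝ) 1, D.Bv w G (fun _ => tt (D.lm u) z) := by
  have hJ : ∀ (z : Fin m → ℤ) (l : Fin (m + 1) → Lab K m),
      D.Jv (fun j => D.act (uu u z) (l j)) = D.Jv l := fun z l =>
    Jv_act D (uu u z) (uu_act D u hu z).1 (uu_act D u hu z).2.1 l
  have h1 : CN (m + 1) D.Jv (fun a => .A (L a)) = CN (m + 1) D.Jv (Z1_Lin D u (m + 1)) := by
    refine CN_eq (m + 1) (Nat.succ_pos m) D.Jv (fun a => .A (L a)) (Z1_Lin D u (m + 1))
      (fun z => D.act (uu u z)) hJ ?_ (fun a z => Z1_Lin_add D u hu (m + 1) (Nat.succ_pos m) a z) ?_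
    · intro a z
      show Lab.A (L (a + ((m + 1 : ℕ) : ℤ) • z)) = Lab.A (((uu u z : 𝓞 K) : K) * L a)
      rw [hequi]
    · intro a π i hi
      obtain ⟨w', hw'⟩ := hdirs a π
      exact prism_cocycle D hD _ w' hw' (fun a => .A (L a)) (Z1_Lin D u (m + 1)) _
        (fun k => Or.inl rfl) (fun k _ => ⟨_, rfl, Z1_tt_pos _ _⟩) i hi
  have h2 : ∀ N : ℕ, 0 < N → CN N D.Jv (Z1_Lin D u N) = CN 1 D.Jv (Z1_Fl D u) := by
    intro N hN
    rw [← CN_floor N hN D.Jv (Jv_degenerate D) (Z1_Fl D u)]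
    refine CN_eq N hN D.Jv (Z1_Lin D u N) (fun a => Z1_Fl D u fun k => a k / (N : ℤ))
      (fun z => D.act (uu u z)) hJ (fun a z => Z1_Lin_add D u hu N hN a z)
      (fun a z => Z1_Fl_add D u hu N hN a z) ?_
    intro a π i hi
    exact prism_cocycle D hD A w hdir (Z1_Lin D u N) (fun a => Z1_Fl D u fun k => a k / (N : ℤ)) _
      (fun k => Or.inr ⟨_, rfl, Z1_tt_pos _ _⟩) (fun k _ => ⟨_, rfl, Z1_tt_pos _ _⟩) i hi
  rw [h1, h2 _ (Nat.succ_pos m)]
  have h3 := riemann m (D.lm u) (lm_sum D u hu) (D.Bv w G) (Bv_cont D hD A w hdir G hG)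
  refine tendsto_nhds_unique ?_ h3
  refine (tendsto_const_nhds (x := CN 1 D.Jv (Z1_Fl D u))).congr' ?_
  filter_upwards [Filter.eventually_gt_atTop 0] with N hN
  rw [← h2 N hN]
  unfold CN
  refine Finset.sum_congr rfl fun a _ => Finset.sum_congr rfl fun π _ => ?_
  congr 1
  exact reg_T D hD A w hdir G hG _ fun j i => Z1_tt_pos _ _ _

end H55N
end

-- from Lib.H55N.Z2
section

open NumberField IsDedekindDomain MeasureTheory

namespace H55N

open H55B H55C

variable {K : Type} [Field K] [NumberField K] [Algebra F K] {m : ℕ}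

/-! Chunk Z2 (S/M). Integrality of the alternating sum. Each term is ± Jv of the labels A_k = L(kv a π k): Jv_A gives S with Jv = det(σ_i A_k) S and the limit needed in rat_val; hone from
labels_low, m₀ from m0_exists; so S/R0^n is Int2; the entries σ_i(A_k) are Int2 by label_int2 (LabOk.int), the determinant by Int2.det. Sum: Int2.sum, Int2.mul, Int2.intCast. -/

theorem CN_int2 (hK : UnrOut K) (D : Ctx K m) (hD : D.Ok) (b f : Ideal (𝓞 K))
    (hb2 : IsCoprime b (Ideal.span {2})) (hf2 : IsCoprime f (Ideal.span {2}))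
    (hI : D.I = Ideal.span {3} * f * b) (hp : ∀ i, D.p i ≠ 2) (u : Fin m → (𝓞 K)ˣ)
    (L : (Fin m → ℤ) → K) (hL : LabOk b D.c₀ u L)
    (hdirs : ∀ (a : Fin m → Fin (m + 1)) (π : Equiv.Perm (Fin m)),
      ∃ w', D.Dirs (fun k : Fin (m + 1) => L (kv (fun k => ((a k : ℕ) : ℤ)) π k)) w') :
    Int2 (CN (m + 1) D.Jv (fun a => .A (L a)) / R0 ^ (m + 1)) := by
  unfold CN
  rw [Finset.sum_div]
  refine Int2.sum _ _ fun a _ => ?_
  rw [Finset.sum_div]
  refine Int2.sum _ _ fun π _ => ?_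
  rw [mul_div_assoc]
  refine (Int2.intCast _).mul ?_
  obtain ⟨w', hw'⟩ := hdirs a π
  obtain ⟨S, hS, hlim⟩ := Jv_A D hD _ w' hw'
  rw [hS, mul_div_assoc]
  refine (Int2.det _ fun k i => ?_).mul ?_
  · exact label_int2 hK b hb2 _ (hL.int _) (D.σ i)
  · obtain ⟨m₀, ho, h3, hm⟩ := m0_exists D hD b f hf2 hI hp u L hL
      (fun k => ((a k : ℕ) : ℤ)) π
    exact rat_val D hD _ w' hw'
      (fun x hx k => (labels_low D hD.emb b f D.c₀ ⟨hI, rfl⟩ u L hL _ x hx).1) m₀ ho h3 hm S hlim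

end H55N
end

-- from Lib.H55R.D11
section

open NumberField IsDedekindDomain

namespace H55R

open H55B H55N

theorem D11_dif {M : Type} [AddCommGroup M] (w : M) (h : M → ℂ) (x : M) :
    Dif (fun _ : Unit => -w) Finset.univ h x = h x - h (x + w) := by
  unfold Dif
  have h1 : (Finset.univ : Finset Unit).powerset = {∅, {()}} := by decide
  rw [h1, Finset.sum_pair (by decide)]
  simp only [Finset.card_empty, pow_zero, Finset.sum_empty, sub_zero, one_mul,
    Finset.card_singleton, pow_one, Finset.sum_singleton, sub_neg_eq_add]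
  ring

/-- Chunk RD11 (M), the smoothed sums on the cube are bounded. h(x) = |fs t s x| (a real number), X = D.X = c₀ + I, q = absNorm c = the number of elements of O/c. I + c = 1, so for every class
k in O/c there is r_k in I with image k. The map (y, k) -> y + r_k is a bijection from (X cap c) x O/c onto X (inverse: x -> (x - r_k, k), k the class of x). h is summable over X
(fs_summable, s > 3/2; t i >= a > 0). wt x = 1 - q [x in c], so sum over X of wt h = (sum over X of h) - q (sum over X cap c of h) = sum over y in X cap c of sum over k of (h(y + r_k) - h(y)).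
|h(y + r_k) - h(y)| <= |fs(y + r_k) - fs(y)| (norm_sub_norm_le) <= C_k sz(y)^(-(2(m+1) + 1)) by U4_bound with I' = D.I, index type Unit, w = -r_k, r = 3/2, M = 5/2 (Dif over Unit of h at y is
h(y) - h(y - w), up to sign; U4_e m 1 (3/2) = 2 (m + 1) + 1; constant uniform in t and s), and the sum of sz^(-(2(m+1)+1)) over all of 𝓞 K converges (sum_sz in H55N/B2.lean). C = (sum of the C_k) * that sum. -/
theorem cube_bdd {K : Type} [Field K] [NumberField K] [Algebra F K] {m : ℕ} (D : Ctx K m)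
    (hE : Emb D.σ) (h0 : D.c₀ ∉ D.I) (c : Ideal (𝓞 K)) (hc : c ≠ ⊥) (hcI : IsCoprime D.I c)
    (a b : ℝ) (ha : 0 < a) :
    ∃ C : ℝ, ∀ t : Fin (m + 1) → ℝ, (∀ i, a ≤ t i ∧ t i ≤ b) → ∀ s ∈ Set.Ioc (3 / 2 : ℝ) (5 / 2),
      ‖∑' x : D.X, wt c (x : 𝓞 K) * ((‖D.fs t (s : ℂ) (x : 𝓞 K)‖ : ℝ) : ℂ)‖ ≤ C := by
  classical
  have hfin : Finite (𝓞 K ⧸ c) := Ideal.finiteQuotientOfFreeOfNeBot c hc
  have hft := Fintype.ofFinite (𝓞 K ⧸ c)
  have hq : Fintype.card (𝓞 K ⧸ c) = Ideal.absNorm c := by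
    rw [Ideal.absNorm_apply, Submodule.cardQuot_apply, Nat.card_eq_fintype_card]
  have hr : ∀ k : 𝓞 K ⧸ c, ∃ r ∈ D.I, Ideal.Quotient.mk c r = k := by
    intro k
    obtain ⟨y, rfl⟩ := Ideal.Quotient.mk_surjective k
    obtain ⟨i, hi, j, hj, hij⟩ := Ideal.isCoprime_iff_exists.1 hcI
    refine ⟨i * y, D.I.mul_mem_right _ hi, ?_⟩
    rw [Ideal.Quotient.eq]
    have h1 : i * y - y = -(j * y) := by linear_combination y * hij
    rw [h1]
    exact c.neg_mem (c.mul_mem_right _ hj)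
  choose r hrI hrk using hr
  choose Ck hCk0 hCk using fun k => U4_bound (ι := Unit) D hE D.I h0 (fun _ => -r k)
    (fun _ => D.I.neg_mem (hrI k)) a b ha (3 / 2) (5 / 2) (by norm_num)
  obtain ⟨e, he⟩ : ∃ e : ℝ, e = U4_e m (Fintype.card Unit) (3 / 2) := ⟨_, rfl⟩
  have he2 : 2 * (m + 1 : ℝ) < e := by
    rw [he]
    unfold U4_e
    rw [Fintype.card_unit]
    push_cast
    linarith
  have hsz := sum_sz D hE e he2
  -- the bijection
  let Y : Set (𝓞 K) := {x | x ∈ D.X ∧ x ∈ c}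
  let E : Y × (𝓞 K ⧸ c) → D.X := fun p => ⟨(p.1 : 𝓞 K) + r p.2, D.X_add p.1.2.1 (hrI p.2)⟩
  have hmk : ∀ y : Y, Ideal.Quotient.mk c (y : 𝓞 K) = 0 := fun y =>
    Ideal.Quotient.eq_zero_iff_mem.2 y.2.2
  have hE' : Function.Bijective E := by
    constructor
    · rintro ⟨y, k⟩ ⟨y', k'⟩ h
      have h1 : (y : 𝓞 K) + r k = (y' : 𝓞 K) + r k' := congrArg Subtype.val h
      have h2 : k = k' := by
        have h3 := congrArg (Ideal.Quotient.mk c) h1
        rwa [map_add, map_add, hmk, hmk, hrk, hrk, zero_add, zero_add] at h3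
      subst h2
      have h3 : y = y' := Subtype.ext (add_right_cancel h1)
      rw [h3]
    · rintro ⟨x, hx⟩
      have h1 : x - r (Ideal.Quotient.mk c x) ∈ c := by
        rw [← Ideal.Quotient.eq, hrk]
      refine ⟨(⟨x - r (Ideal.Quotient.mk c x), D.X_sub hx (hrI _), h1⟩, Ideal.Quotient.mk c x), ?_⟩
      apply Subtype.ext
      show x - r (Ideal.Quotient.mk c x) + r (Ideal.Quotient.mk c x) = x
      ring
  let E' : Y × (𝓞 K ⧸ c) ≃ D.X := Equiv.ofBijective E hE'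
  have hwt : ∀ p : Y × (𝓞 K ⧸ c), wt c ((E p : 𝓞 K)) =
      if p.2 = 0 then 1 - (Ideal.absNorm c : ℂ) else 1 := by
    rintro ⟨y, k⟩
    have h1 : (y : 𝓞 K) + r k ∈ c ↔ k = 0 := by
      rw [← Ideal.Quotient.eq_zero_iff_mem, map_add, hmk, hrk, zero_add]
    show (if (y : 𝓞 K) + r k ∈ c then 1 - (Ideal.absNorm c : ℂ) else 1) = _
    by_cases h : k = 0
    · rw [if_pos (h1.2 h), if_pos h]
    · rw [if_neg (fun h' => h (h1.1 h')), if_neg h]
  refine ⟨(∑ k, (Ck k + Ck 0)) * ∑' x : 𝓞 K, D.sz x ^ (-e), ?_⟩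
  intro t ht s hs
  obtain ⟨hs1, hs2⟩ := hs
  have hsum := fs_summable D hE h0 t (fun i => ha.trans_le (ht i).1) (s : ℂ)
    (by rw [Complex.ofReal_re]; exact hs1)
  let H : 𝓞 K → ℝ := fun x => ‖D.fs t (s : ℂ) x‖
  have hdiff : ∀ k, ∀ y : Y, |H ((y : 𝓞 K) + r k) - H y| ≤ Ck k * D.sz (y : 𝓞 K) ^ (-e) := by
    intro k y
    have h1 := hCk k t ht (s : ℂ) (by rw [Complex.ofReal_re]; exact hs1.le)
      (by rw [Complex.norm_real, Real.norm_of_nonneg (by linarith)]; exact hs2) y y.2.1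
    rw [D11_dif, ← he] at h1
    refine le_trans ?_ h1
    rw [norm_sub_rev]
    exact abs_norm_sub_norm_le _ _
  have hS : Summable fun x : D.X => wt c (x : 𝓞 K) * ((H (x : 𝓞 K) : ℝ) : ℂ) := by
    refine Summable.of_norm_bounded (hsum.mul_left (1 + (Ideal.absNorm c : ℝ))) fun x => ?_
    rw [norm_mul, Complex.norm_real, Real.norm_of_nonneg (norm_nonneg _)]
    refine mul_le_mul_of_nonneg_right ?_ (norm_nonneg _)
    unfold wt
    split_ifs
    · refine (norm_sub_le _ _).trans ?_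
      rw [NormOneClass.norm_one, Complex.norm_natCast]
    · rw [NormOneClass.norm_one]
      have : (0 : ℝ) ≤ Ideal.absNorm c := Nat.cast_nonneg _
      linarith
  have hS2 : Summable fun p : Y × (𝓞 K ⧸ c) => wt c ((E' p : D.X) : 𝓞 K) *
      ((H ((E' p : D.X) : 𝓞 K) : ℝ) : ℂ) := (Equiv.summable_iff E').2 hS
  have h1 : ∑' x : D.X, wt c (x : 𝓞 K) * ((H (x : 𝓞 K) : ℝ) : ℂ) =
      ∑' y : Y, ∑ k, ((H ((y : 𝓞 K) + r k) - H ((y : 𝓞 K) + r 0) : ℝ) : ℂ) := by
    rw [← Equiv.tsum_eq E', hS2.tsum_prod]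
    refine tsum_congr fun y => ?_
    rw [tsum_fintype]
    have h2 : ∀ k : 𝓞 K ⧸ c, wt c ((E' (y, k) : D.X) : 𝓞 K) * ((H ((E' (y, k) : D.X) : 𝓞 K) : ℝ) : ℂ) =
        ((H ((y : 𝓞 K) + r k) : ℝ) : ℂ) -
          if k = 0 then (Ideal.absNorm c : ℂ) * ((H ((y : 𝓞 K) + r 0) : ℝ) : ℂ) else 0 := by
      intro k
      have h3 := hwt (y, k)
      have h4 : wt c ((E' (y, k) : D.X) : 𝓞 K) = if k = 0 then 1 - (Ideal.absNorm c : ℂ) else 1 := h3
      rw [h4]
      have h5 : ((E' (y, k) : D.X) : 𝓞 K) = (y : 𝓞 K) + r k := rfl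
      rw [h5]
      by_cases h : k = 0
      · rw [if_pos h, if_pos h, h]
        ring
      · rw [if_neg h, if_neg h]
        ring
    rw [Finset.sum_congr rfl fun k _ => h2 k, Finset.sum_sub_distrib, Finset.sum_ite_eq',
      if_pos (Finset.mem_univ _)]
    push_cast
    rw [Finset.sum_sub_distrib, Finset.sum_const, Finset.card_univ, hq, nsmul_eq_mul]
  have hbd : ∀ y : Y, ‖∑ k, ((H ((y : 𝓞 K) + r k) - H ((y : 𝓞 K) + r 0) : ℝ) : ℂ)‖ ≤
      (∑ k, (Ck k + Ck 0)) * D.sz (y : 𝓞 K) ^ (-e) := by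
    intro y
    rw [Finset.sum_mul]
    refine (norm_sum_le _ _).trans (Finset.sum_le_sum fun k _ => ?_)
    rw [Complex.norm_real, Real.norm_eq_abs, add_mul]
    have h2 := hdiff k y
    have h3 := hdiff 0 y
    rw [abs_le] at h2 h3 ⊢
    constructor <;> linarith [h2.1, h2.2, h3.1, h3.2]
  have hszY : Summable fun y : Y => D.sz (y : 𝓞 K) ^ (-e) :=
    hsz.comp_injective Subtype.val_injective
  have hszY' := hszY.mul_left (∑ k, (Ck k + Ck 0))
  have hC0 : 0 ≤ ∑ k, (Ck k + Ck 0) := Finset.sum_nonneg fun k _ => add_nonneg (hCk0 k) (hCk0 0)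
  calc ‖∑' x : D.X, wt c (x : 𝓞 K) * ((‖D.fs t (s : ℂ) (x : 𝓞 K)‖ : ℝ) : ℂ)‖
      = ‖∑' y : Y, ∑ k, ((H ((y : 𝓞 K) + r k) - H ((y : 𝓞 K) + r 0) : ℝ) : ℂ)‖ := by rw [← h1]
    _ ≤ ∑' y : Y, (∑ k, (Ck k + Ck 0)) * D.sz (y : 𝓞 K) ^ (-e) :=
        tsum_of_norm_bounded hszY'.hasSum hbd
    _ = (∑ k, (Ck k + Ck 0)) * ∑' y : Y, D.sz (y : 𝓞 K) ^ (-e) := tsum_mul_left
    _ ≤ (∑ k, (Ck k + Ck 0)) * ∑' x : 𝓞 K, D.sz x ^ (-e) := by
        refine mul_le_mul_of_nonneg_left ?_ hC0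
        exact hsz.tsum_subtype_le _ _ (fun x => Real.rpow_nonneg (D.sz_pos x).le _)

end H55R
end
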