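import Mathlib
import Pool.Agent.Lib.H1M.PP.D_H55P_Stm
import Pool.Agent.Lib.H1M.PP.M001
import Pool.Agent.Lib.H1M.PP.M009
import Pool.Agent.Lib.H1M.PP.M015
import Pool.Agent.Lib.H1M.PP.M025
import Pool.Agent.Lib.H1M.PP.M027
import Pool.Agent.Lib.H1M.PP.M034
import Pool.Agent.Lib.H1M.PP.M037
import Pool.Agent.Lib.H1M.PP.M040
import Pool.Agent.Lib.H1M.PP.M042

/-! Merged copies (to shorten the build) of Lib.H55K.G9B, Lib.H55K.T6A, Lib.H55K.T6B, Lib.H55P.R2, Lib.H55P.R7, Lib.H55P.R8, Lib.H55P.CN, Lib.H55P.N2. -/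

-- from Lib.H55K.G9B
section

/-! # H55K: counting the points of the reduction -/

open NumberField IsDedekindDomain WeierstrassCurve

namespace H55K

open H55P (IQ embF eF LF Per IsHecke Pt ac Inert Dec Nm)
open H35P (WAB Ker tt)

variable {F : Type} [Field F] [NumberField F] [IQ F] {A B : F} {Om : ℂ} {Ω : Type} [Field Ω] [DecidableEq Ω]
  [Algebra F Ω] {j : Ω →+* ℂ} {act : 𝓞 F →+* AddMonoid.End (Pt (WAB A B) Ω)} {V : ValuationSubring Ω}

section res

variable {F : Type} [Field F] [NumberField F] {Ω : Type} [Field Ω] [Algebra F Ω] {V : ValuationSubring Ω}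

/-- The map of the integers to the big field. -/
noncomputable def g9h (F : Type) [Field F] (Ω : Type) [Field Ω] [Algebra F Ω] : 𝓞 F →+* Ω :=
  (algebraMap F Ω).comp (algebraMap (𝓞 F) F)

omit [NumberField F] in
theorem g9h_eq (a : 𝓞 F) : g9h F Ω a = ak Ω a := rfl

/-- The residue map on the integers. -/
noncomputable def g9r (F : Type) [Field F] {Ω : Type} [Field Ω] [Algebra F Ω] (V : ValuationSubring Ω) :
    𝓞 F →+* IsLocalRing.ResidueField V :=
  (IsLocalRing.residue V).comp ((g9h F Ω).codRestrict V fun a => (V.valuation_le_one_iff _).1 (ak_le V a))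

omit [NumberField F] in
theorem g9r_eq (a : 𝓞 F) (h : ak Ω a ∈ V) : g9r F V a = IsLocalRing.residue V ⟨ak Ω a, h⟩ := rfl

theorem g9_res {x : Ω} (hx : x ∈ V) : IsLocalRing.residue V ⟨x, hx⟩ = 0 ↔ V.valuation x < 1 := by
  rw [IsLocalRing.residue_eq_zero_iff, ValuationSubring.valuation_lt_one_iff]

omit [NumberField F] in
theorem g9r_zero (a : 𝓞 F) : g9r F V a = 0 ↔ V.valuation (ak Ω a) < 1 := g9_res _

theorem g9_ker {v : HeightOneSpectrum (𝓞 F)} (hv : ∀ a : 𝓞 F, a ∈ v.asIdeal → V.valuation (ak Ω a) < 1)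
    (a : 𝓞 F) : V.valuation (ak Ω a) < 1 ↔ a ∈ v.asIdeal := by
  refine ⟨fun h => ?_, hv a⟩
  have h1 : v.asIdeal ≤ RingHom.ker (g9r F V) := fun x hx => (g9r_zero x).2 (hv x hx)
  have h2 : RingHom.ker (g9r F V) ≠ ⊤ := RingHom.ker_ne_top _
  have h3 := v.isMaximal.eq_of_le h2 h1
  rw [h3]
  exact (g9r_zero a).2 h

theorem g9_frob {v : HeightOneSpectrum (𝓞 F)} (hv : ∀ a : 𝓞 F, a ∈ v.asIdeal → V.valuation (ak Ω a) < 1)
    {x : Ω} (hx : V.valuation x ≤ 1) : V.valuation (x ^ Ideal.absNorm v.asIdeal - x) < 1 ↔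
      ∃ a : 𝓞 F, V.valuation (x - ak Ω a) < 1 := by
  classical
  have hm := v.isMaximal
  let _ : Field (𝓞 F ⧸ v.asIdeal) := Ideal.Quotient.field _
  have hfin : Finite (𝓞 F ⧸ v.asIdeal) := Ideal.finiteQuotientOfFreeOfNeBot _ v.ne_bot
  let _ := Fintype.ofFinite (𝓞 F ⧸ v.asIdeal)
  have hq : Ideal.absNorm v.asIdeal = Fintype.card (𝓞 F ⧸ v.asIdeal) := by
    rw [← Nat.card_eq_fintype_card]
    rfl
  have hq1 : 1 < Fintype.card (𝓞 F ⧸ v.asIdeal) := Fintype.one_lt_card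
  set q := Fintype.card (𝓞 F ⧸ v.asIdeal) with hqdef
  have hxV : x ∈ V := (V.valuation_le_one_iff _).1 hx
  let ρ : 𝓞 F ⧸ v.asIdeal →+* IsLocalRing.ResidueField V :=
    Ideal.Quotient.lift v.asIdeal (g9r F V) fun a ha => (g9r_zero a).2 (hv a ha)
  have hρ : ∀ a : 𝓞 F, ρ (Ideal.Quotient.mk v.asIdeal a) = g9r F V a := fun a => rfl
  have e1 : V.valuation (x ^ Ideal.absNorm v.asIdeal - x) < 1 ↔
      IsLocalRing.residue V ⟨x, hxV⟩ ^ q = IsLocalRing.residue V ⟨x, hxV⟩ := by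
    rw [hq, ← sub_eq_zero, ← map_pow, ← map_sub]
    exact (g9_res (V := V) _).symm
  have e2 : (∃ a : 𝓞 F, V.valuation (x - ak Ω a) < 1) ↔ ∃ a : 𝓞 F ⧸ v.asIdeal, ρ a = IsLocalRing.residue V ⟨x, hxV⟩ := by
    constructor
    · rintro ⟨a, ha⟩
      refine ⟨Ideal.Quotient.mk _ a, ?_⟩
      have haV : ak Ω a ∈ V := (V.valuation_le_one_iff _).1 (ak_le V a)
      rw [hρ, g9r_eq a haV, eq_comm, ← sub_eq_zero, ← map_sub]
      exact (g9_res (V := V) (x := x - ak Ω a) (V.sub_mem hxV haV)).2 ha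
    · rintro ⟨a, ha⟩
      obtain ⟨a, rfl⟩ := Ideal.Quotient.mk_surjective a
      refine ⟨a, ?_⟩
      have haV : ak Ω a ∈ V := (V.valuation_le_one_iff _).1 (ak_le V a)
      rw [hρ, g9r_eq a haV, eq_comm, ← sub_eq_zero, ← map_sub] at ha
      exact (g9_res (V := V) (x := x - ak Ω a) (V.sub_mem hxV haV)).1 ha
  rw [e1, e2]
  constructor
  · intro h
    have hp : (Polynomial.X ^ q - Polynomial.X : Polynomial (IsLocalRing.ResidueField V)) ≠ 0 :=
      FiniteField.X_pow_card_sub_X_ne_zero _ hq1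
    have hd : (Polynomial.X ^ q - Polynomial.X : Polynomial (IsLocalRing.ResidueField V)).natDegree = q :=
      FiniteField.X_pow_card_sub_X_natDegree_eq _ hq1
    have hsub : Finset.univ.image ρ ⊆
        (Polynomial.X ^ q - Polynomial.X : Polynomial (IsLocalRing.ResidueField V)).roots.toFinset := by
      intro z hz
      obtain ⟨a, -, rfl⟩ := Finset.mem_image.1 hz
      rw [Multiset.mem_toFinset, Polynomial.mem_roots hp, Polynomial.IsRoot.def]
      simp only [Polynomial.eval_sub, Polynomial.eval_pow, Polynomial.eval_X]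
      rw [← map_pow, hqdef, FiniteField.pow_card, sub_self]
    have hcard : (Finset.univ.image ρ).card = q := by
      rw [Finset.card_image_of_injective _ ρ.injective, Finset.card_univ]
    have heq := Finset.eq_of_subset_of_card_le hsub (by
      rw [hcard]
      exact (Multiset.toFinset_card_le _).trans ((Polynomial.card_roots' _).trans (le_of_eq hd)))
    have hmem : IsLocalRing.residue V ⟨x, hxV⟩ ∈
        (Polynomial.X ^ q - Polynomial.X : Polynomial (IsLocalRing.ResidueField V)).roots.toFinset := by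
      rw [Multiset.mem_toFinset, Polynomial.mem_roots hp, Polynomial.IsRoot.def]
      simp only [Polynomial.eval_sub, Polynomial.eval_pow, Polynomial.eval_X]
      rw [h, sub_self]
    rw [← heq, Finset.mem_image] at hmem
    obtain ⟨a, -, ha⟩ := hmem
    exact ⟨a, ha⟩
  · rintro ⟨a, ha⟩
    rw [← ha, ← map_pow, hqdef, FiniteField.pow_card]

/-- A prime to v natural number is invertible modulo v. -/
theorem g9_inv {v : HeightOneSpectrum (𝓞 F)} (hv : ∀ a : 𝓞 F, a ∈ v.asIdeal → V.valuation (ak Ω a) < 1)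
    (n : ℕ) (hn : V.valuation (n : Ω) = 1) : ∃ c : 𝓞 F, V.valuation (ak Ω c * n - 1) < 1 := by
  have hm := v.isMaximal
  let _ : Field (𝓞 F ⧸ v.asIdeal) := Ideal.Quotient.field _
  have hakn : ak Ω (n : 𝓞 F) = (n : Ω) := by
    rw [← g9h_eq]
    exact map_natCast _ _
  have h1 : (n : 𝓞 F) ∉ v.asIdeal := by
    intro h
    have := hv _ h
    rw [hakn, hn] at this
    exact lt_irrefl _ this
  have h2 : Ideal.Quotient.mk v.asIdeal (n : 𝓞 F) ≠ 0 := by
    rwa [Ne, Ideal.Quotient.eq_zero_iff_mem]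
  obtain ⟨c, hc⟩ := Ideal.Quotient.mk_surjective (I := v.asIdeal) ((Ideal.Quotient.mk v.asIdeal (n : 𝓞 F))⁻¹)
  refine ⟨c, ?_⟩
  have h3 : Ideal.Quotient.mk v.asIdeal (c * (n : 𝓞 F) - 1) = 0 := by
    rw [map_sub, map_mul, map_one, hc, inv_mul_cancel₀ h2, sub_self]
  rw [Ideal.Quotient.eq_zero_iff_mem] at h3
  have h4 := hv _ h3
  have h5 : ak Ω (c * (n : 𝓞 F) - 1) = ak Ω c * n - 1 := by
    rw [← g9h_eq, map_sub, map_mul, map_one, map_natCast, g9h_eq]
  rwa [h5] at h4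

omit [NumberField F] in
theorem g9_mul {x y : Ω} (hx : V.valuation x < 1) (hy : V.valuation y ≤ 1) : V.valuation (x * y) < 1 := by
  rw [map_mul]
  exact mul_lt_one_of_lt_of_le hx hy

theorem g9_div {v : HeightOneSpectrum (𝓞 F)} (hv : ∀ a : 𝓞 F, a ∈ v.asIdeal → V.valuation (ak Ω a) < 1)
    (n : ℕ) (hn : V.valuation (n : Ω) = 1) (a : 𝓞 F) : ∃ c : 𝓞 F, V.valuation (ak Ω a / n - ak Ω c) < 1 := by
  obtain ⟨c, hc⟩ := g9_inv hv n hn
  have hn0 : (n : Ω) ≠ 0 := by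
    intro h
    rw [h, map_zero] at hn
    exact zero_ne_one hn
  refine ⟨a * c, ?_⟩
  have h1 : ak Ω a / n - ak Ω (a * c) = (ak Ω c * n - 1) * (-(ak Ω a) / n) := by
    rw [← g9h_eq (Ω := Ω) (a * c), map_mul, g9h_eq, g9h_eq]
    field_simp
    ring
  rw [h1]
  refine g9_mul hc ?_
  rw [map_div₀, hn, div_one, Valuation.map_neg]
  exact ak_le V a

end res

/-- The equation of the integral model. -/
def g9E {F : Type} [Field F] (W₀ : WeierstrassCurve (𝓞 F)) (a b : 𝓞 F) : 𝓞 F :=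
  b ^ 2 + W₀.a₁ * a * b + W₀.a₃ * b - (a ^ 3 + W₀.a₂ * a ^ 2 + W₀.a₄ * a + W₀.a₆)

/-- The coordinates of the point of the short model. -/
noncomputable def g9x {F : Type} [Field F] (Ω : Type) [Field Ω] [Algebra F Ω] (W₀ : WeierstrassCurve (𝓞 F)) (a : 𝓞 F) : Ω :=
  ak Ω a + ak Ω W₀.b₂ / (12 : ℕ)

noncomputable def g9y {F : Type} [Field F] (Ω : Type) [Field Ω] [Algebra F Ω] (W₀ : WeierstrassCurve (𝓞 F)) (a b : 𝓞 F) : Ω :=
  ak Ω b + ak Ω (W₀.a₁ * a) / (2 : ℕ) + ak Ω W₀.a₃ / (2 : ℕ)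

omit [NumberField F] [IQ F] [DecidableEq Ω] in
theorem g9_ident (h2 : (2 : Ω) ≠ 0) (h3 : (3 : Ω) ≠ 0) (W₀ : WeierstrassCurve (𝓞 F))
    (hA : A = -(algebraMap (𝓞 F) F W₀.c₄) / 48) (hB : B = -(algebraMap (𝓞 F) F W₀.c₆) / 864) (a b : 𝓞 F) :
    g9y Ω W₀ a b ^ 2 - (g9x Ω W₀ a ^ 3 + algebraMap F Ω A * g9x Ω W₀ a + algebraMap F Ω B) = ak Ω (g9E W₀ a b) := by
  have eA : algebraMap F Ω A = - g9h F Ω W₀.c₄ / 48 := by
    rw [hA, map_div₀, map_neg, map_ofNat]
    rfl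
  have eB : algebraMap F Ω B = - g9h F Ω W₀.c₆ / 864 := by
    rw [hB, map_div₀, map_neg, map_ofNat]
    rfl
  have h12 : (12 : Ω) ≠ 0 := by
    have : (12 : Ω) = 2 ^ 2 * 3 := by norm_num
    rw [this]
    exact mul_ne_zero (pow_ne_zero 2 h2) h3
  have h48 : (48 : Ω) ≠ 0 := by
    have : (48 : Ω) = 2 ^ 4 * 3 := by norm_num
    rw [this]
    exact mul_ne_zero (pow_ne_zero 4 h2) h3
  have h864 : (864 : Ω) ≠ 0 := by
    have : (864 : Ω) = 2 ^ 5 * 3 ^ 3 := by norm_num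
    rw [this]
    exact mul_ne_zero (pow_ne_zero 5 h2) (pow_ne_zero 3 h3)
  rw [eA, eB]
  unfold g9x g9y g9E
  simp only [← g9h_eq, Nat.cast_ofNat]
  simp only [WeierstrassCurve.c₄, WeierstrassCurve.c₆, WeierstrassCurve.b₂, WeierstrassCurve.b₄, WeierstrassCurve.b₆,
    map_add, map_mul, map_sub, map_neg, map_pow, map_ofNat]
  field_simp
  ring

omit [NumberField F] [IQ F] [DecidableEq Ω] in
theorem g9_twelve (hV : GV A B V) : V.valuation (((12 : ℕ) : Ω)) = 1 ∧ V.valuation (((2 : ℕ) : Ω)) = 1 ∧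
    (2 : Ω) ≠ 0 ∧ (3 : Ω) ≠ 0 := by
  have h2 := hV.two
  have h3 := hV.three
  refine ⟨?_, ?_, ?_, ?_⟩
  · have : ((12 : ℕ) : Ω) = 2 ^ 2 * 3 := by norm_num
    rw [this, map_mul, map_pow, h2, h3]
    simp
  · rw [Nat.cast_ofNat]
    exact h2
  · intro h
    rw [h, map_zero] at h2
    exact zero_ne_one h2
  · intro h
    rw [h, map_zero] at h3
    exact zero_ne_one h3

omit [NumberField F] [IQ F] [DecidableEq Ω] in
theorem g9_int (hV : GV A B V) (W₀ : WeierstrassCurve (𝓞 F)) (a b : 𝓞 F) :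
    V.valuation (g9x Ω W₀ a) ≤ 1 ∧ V.valuation (g9y Ω W₀ a b) ≤ 1 := by
  obtain ⟨h12, h2, -, -⟩ := g9_twelve hV
  have hd : ∀ (n : ℕ) (c : 𝓞 F), V.valuation (n : Ω) = 1 → V.valuation (ak Ω c / n) ≤ 1 := by
    intro n c hn
    rw [map_div₀, hn, div_one]
    exact ak_le V c
  constructor
  · exact (Valuation.map_add _ _ _).trans (max_le (ak_le V a) (hd _ _ h12))
  · exact (Valuation.map_add _ _ _).trans (max_le
      ((Valuation.map_add _ _ _).trans (max_le (ak_le V b) (hd _ _ h2))) (hd _ _ h2))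

omit [NumberField F] [IQ F] [DecidableEq Ω] in
/-- Existence of a lift of a point modulo v. -/
theorem g9_lift [IsAlgClosed Ω] (hV : GV A B V) (W₀ : WeierstrassCurve (𝓞 F))
    (hA : A = -(algebraMap (𝓞 F) F W₀.c₄) / 48) (hB : B = -(algebraMap (𝓞 F) F W₀.c₆) / 864) (a b : 𝓞 F)
    (hE : V.valuation (ak Ω (g9E W₀ a b)) < 1) : ∃ X : Pt (WAB A B) Ω, ¬ Ker V X ∧ xc X = g9x Ω W₀ a ∧
      V.valuation (yc X - g9y Ω W₀ a b) < 1 := by
  obtain ⟨h12, h2', h2, h3⟩ := g9_twelve hV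
  obtain ⟨hx, hy⟩ := g9_int hV W₀ a b
  obtain ⟨z, hz⟩ := IsAlgClosed.exists_pow_nat_eq (g9x Ω W₀ a ^ 3 + algebraMap F Ω A * g9x Ω W₀ a + algebraMap F Ω B)
    (show 0 < 2 by norm_num)
  have hid := g9_ident h2 h3 W₀ hA hB a b
  rw [← hz] at hid
  have hprod : V.valuation (g9y Ω W₀ a b - z) * V.valuation (g9y Ω W₀ a b + z) < 1 := by
    rw [← map_mul]
    have : (g9y Ω W₀ a b - z) * (g9y Ω W₀ a b + z) = g9y Ω W₀ a b ^ 2 - z ^ 2 := by ring
    rw [this, hid]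
    exact hE
  have hΔ : ((WAB A B)⁄Ω).Δ ≠ 0 := by
    rw [s_Δ, base_a4, base_a6]
    have h4 := hV.disc
    have h5 : algebraMap F Ω (4 * A ^ 3 + 27 * B ^ 2) ≠ 0 := by
      intro h
      rw [h, map_zero] at h4
      exact zero_ne_one h4
    have h6 : algebraMap F Ω (4 * A ^ 3 + 27 * B ^ 2) = 4 * algebraMap F Ω A ^ 3 + 27 * algebraMap F Ω B ^ 2 := by
      rw [map_add, map_mul, map_mul, map_pow, map_pow, map_ofNat, map_ofNat]
    rw [← h6]
    refine mul_ne_zero ?_ h5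
    have : (-16 : Ω) = -2 ^ 4 := by norm_num
    rw [this]
    exact neg_ne_zero.2 (pow_ne_zero 4 h2)
  have hpt : ∀ y' : Ω, y' ^ 2 = z ^ 2 → V.valuation (y' - g9y Ω W₀ a b) < 1 → ∃ X : Pt (WAB A B) Ω, ¬ Ker V X ∧
      xc X = g9x Ω W₀ a ∧ V.valuation (yc X - g9y Ω W₀ a b) < 1 := by
    intro y' hy' hv'
    obtain ⟨X, hX0, hXx, hXy⟩ := exists_pt (W := (WAB A B)⁄Ω) hΔ (x := g9x Ω W₀ a) (y := y') (by
      rw [hy', hz, base_a4, base_a6])
    refine ⟨X, ?_, hXx, ?_⟩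
    · rw [ker_iff V hX0, hXx]
      exact not_lt.2 hx
    · rw [hXy]
      exact hv'
  by_cases h1 : V.valuation (g9y Ω W₀ a b - z) < 1
  · refine hpt z rfl ?_
    rw [Valuation.map_sub_swap]
    exact h1
  · have h7 : V.valuation (g9y Ω W₀ a b + z) < 1 := by
      by_contra h8
      push Not at h1 h8
      exact absurd hprod (not_lt.2 (one_le_mul h1 h8))
    refine hpt (-z) (by ring) ?_
    have : -z - g9y Ω W₀ a b = -(g9y Ω W₀ a b + z) := by ring
    rw [this, Valuation.map_neg]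
    exact h7

omit [IQ F] [DecidableEq Ω] in
/-- The coordinates of the lifts are congruent to elements of 𝓞 F. -/
theorem g9_apx (hV : GV A B V) (W₀ : WeierstrassCurve (𝓞 F)) (v : HeightOneSpectrum (𝓞 F))
    (hv : ∀ a : 𝓞 F, a ∈ v.asIdeal → V.valuation (ak Ω a) < 1) :
    ∃ β : 𝓞 F, ∀ a : 𝓞 F, V.valuation (g9x Ω W₀ a - ak Ω (a + β)) < 1 ∧
      ∃ γ : 𝓞 F, ∀ b : 𝓞 F, V.valuation (g9y Ω W₀ a b - ak Ω (b + γ)) < 1 := by
  obtain ⟨h12, h2', -, -⟩ := g9_twelve hV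
  obtain ⟨β, hβ⟩ := g9_div hv 12 h12 W₀.b₂
  refine ⟨β, fun a => ⟨?_, ?_⟩⟩
  · have : g9x Ω W₀ a - ak Ω (a + β) = ak Ω W₀.b₂ / (12 : ℕ) - ak Ω β := by
      unfold g9x
      rw [← g9h_eq (Ω := Ω) (a + β), map_add, g9h_eq, g9h_eq]
      ring
    rw [this]
    exact hβ
  · obtain ⟨c, hc⟩ := g9_div hv 2 h2' (W₀.a₁ * a)
    obtain ⟨d, hd⟩ := g9_div hv 2 h2' W₀.a₃
    refine ⟨c + d, fun b => ?_⟩
    have : g9y Ω W₀ a b - ak Ω (b + (c + d)) = (ak Ω (W₀.a₁ * a) / (2 : ℕ) - ak Ω c) +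
        (ak Ω W₀.a₃ / (2 : ℕ) - ak Ω d) := by
      unfold g9y
      rw [← g9h_eq (Ω := Ω) (b + (c + d)), map_add, map_add, g9h_eq, g9h_eq, g9h_eq]
      ring
    rw [this]
    exact Valuation.map_add_lt _ hc hd

omit [NumberField F] [IQ F] [DecidableEq Ω] in
theorem g9_tri {x y z : Ω} (h1 : V.valuation (x - y) < 1) (h2 : V.valuation (y - z) < 1) :
    V.valuation (x - z) < 1 := by
  have : x - z = (x - y) + (y - z) := by ring
  rw [this]
  exact Valuation.map_add_lt _ h1 h2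

omit [IQ F] in
/-- The class of a lift is fixed by the Frobenius element. -/
theorem g9_fix (hV : GV A B V) (W₀ : WeierstrassCurve (𝓞 F)) (v : HeightOneSpectrum (𝓞 F))
    (hv : ∀ a : 𝓞 F, a ∈ v.asIdeal → V.valuation (ak Ω a) < 1) (s : Ω ≃ₐ[F] Ω)
    (hs : ∀ x ∈ V, V.valuation (s x - x ^ Ideal.absNorm v.asIdeal) < 1) (a b : 𝓞 F) {X : Pt (WAB A B) Ω}
    (hX : ¬ Ker V X) (hx : V.valuation (xc X - g9x Ω W₀ a) < 1) (hy : V.valuation (yc X - g9y Ω W₀ a b) < 1) :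
    Ker V (ac (WAB A B) s X - X) := by
  obtain ⟨β, hβ⟩ := g9_apx hV W₀ v hv
  obtain ⟨h1, γ, h2⟩ := hβ a
  have hxi := (not_ker V hX).2
  have hyi := gv_y hV hX
  have e1 : V.valuation (xc X ^ Ideal.absNorm v.asIdeal - xc X) < 1 :=
    (g9_frob hv hxi).2 ⟨a + β, g9_tri hx h1⟩
  have e2 : V.valuation (yc X ^ Ideal.absNorm v.asIdeal - yc X) < 1 :=
    (g9_frob hv hyi).2 ⟨b + γ, g9_tri hy (h2 b)⟩
  have e3 := g9_tri (hs _ ((V.valuation_le_one_iff _).1 hxi)) e1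
  have e4 := g9_tri (hs _ ((V.valuation_le_one_iff _).1 hyi)) e2
  have hsX : ¬ Ker V (ac (WAB A B) s X) := by
    rw [ker_iff V (ac_ne (WAB A B) s (not_ker V hX).1), xc_ac, not_lt]
    have : s (xc X) = (s (xc X) - xc X) + xc X := by ring
    rw [this]
    exact (Valuation.map_add _ _ _).trans (max_le e3.le hxi)
  apply cls_xy hV hsX hX
  · rw [xc_ac]
    exact e3
  · rw [yc_ac]
    exact e4

omit [IQ F] in
/-- A fixed class comes from a point modulo v. -/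
theorem g9_conv (hV : GV A B V) (W₀ : WeierstrassCurve (𝓞 F))
    (hA : A = -(algebraMap (𝓞 F) F W₀.c₄) / 48) (hB : B = -(algebraMap (𝓞 F) F W₀.c₆) / 864)
    (v : HeightOneSpectrum (𝓞 F))
    (hv : ∀ a : 𝓞 F, a ∈ v.asIdeal → V.valuation (ak Ω a) < 1) (s : Ω ≃ₐ[F] Ω)
    (hs : ∀ x ∈ V, V.valuation (s x - x ^ Ideal.absNorm v.asIdeal) < 1) {X : Pt (WAB A B) Ω}
    (hX : ¬ Ker V X) (hk : Ker V (ac (WAB A B) s X - X)) : ∃ a b : 𝓞 F, g9E W₀ a b ∈ v.asIdeal ∧
      V.valuation (xc X - g9x Ω W₀ a) < 1 ∧ V.valuation (yc X - g9y Ω W₀ a b) < 1 := by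
  obtain ⟨h12, h2', h2, h3⟩ := g9_twelve hV
  obtain ⟨hX0, hxi⟩ := not_ker V hX
  have hyi := gv_y hV hX
  obtain ⟨-, hx1, hy1⟩ := cls_conv hV hX hk
  rw [xc_ac] at hx1
  rw [yc_ac] at hy1
  have e1 : V.valuation (xc X ^ Ideal.absNorm v.asIdeal - xc X) < 1 := by
    refine g9_tri ?_ hx1
    rw [Valuation.map_sub_swap]
    exact hs _ ((V.valuation_le_one_iff _).1 hxi)
  have e2 : V.valuation (yc X ^ Ideal.absNorm v.asIdeal - yc X) < 1 := by
    refine g9_tri ?_ hy1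
    rw [Valuation.map_sub_swap]
    exact hs _ ((V.valuation_le_one_iff _).1 hyi)
  obtain ⟨a₁, ha₁⟩ := (g9_frob hv hxi).1 e1
  obtain ⟨b₁, hb₁⟩ := (g9_frob hv hyi).1 e2
  obtain ⟨β, hβ⟩ := g9_apx hV W₀ v hv
  obtain ⟨h4, γ, h5⟩ := hβ (a₁ - β)
  have h6 := h5 (b₁ - γ)
  rw [sub_add_cancel] at h4 h6
  have hx : V.valuation (xc X - g9x Ω W₀ (a₁ - β)) < 1 := by
    refine g9_tri ha₁ ?_
    rw [Valuation.map_sub_swap]
    exact h4
  have hy : V.valuation (yc X - g9y Ω W₀ (a₁ - β) (b₁ - γ)) < 1 := by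
    refine g9_tri hb₁ ?_
    rw [Valuation.map_sub_swap]
    exact h6
  refine ⟨a₁ - β, b₁ - γ, ?_, hx, hy⟩
  rw [← g9_ker hv, ← g9_ident h2 h3 W₀ hA hB]
  obtain ⟨hgx, hgy⟩ := g9_int hV W₀ (a₁ - β) (b₁ - γ)
  set x' := g9x Ω W₀ (a₁ - β)
  set y' := g9y Ω W₀ (a₁ - β) (b₁ - γ)
  have hA1 : V.valuation (algebraMap F Ω A) ≤ 1 := (V.valuation_le_one_iff _).2 hV.a
  have heq := eqnA hX0
  have h7 : y' ^ 2 - (x' ^ 3 + algebraMap F Ω A * x' + algebraMap F Ω B) =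
      (yc X - y') * (-(yc X + y')) + (xc X - x') * (xc X ^ 2 + xc X * x' + x' ^ 2 + algebraMap F Ω A) := by
    linear_combination heq
  rw [h7]
  have hm : ∀ {x y : Ω}, V.valuation x ≤ 1 → V.valuation y ≤ 1 → V.valuation (x * y) ≤ 1 := by
    intro x y hx hy
    rw [map_mul]
    exact mul_le_one' hx hy
  have hp : ∀ {x y : Ω}, V.valuation x ≤ 1 → V.valuation y ≤ 1 → V.valuation (x + y) ≤ 1 :=
    fun hx hy => (Valuation.map_add _ _ _).trans (max_le hx hy)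
  refine Valuation.map_add_lt _ (g9_mul hy ?_) (g9_mul hx ?_)
  · rw [Valuation.map_neg]
    exact hp hyi hgy
  · rw [sq, sq]
    exact hp (hp (hp (hm hxi hxi) (hm hxi hgx)) (hm hgx hgx)) hA1

omit [NumberField F] [IQ F] in
theorem g9_nons (W₀ : WeierstrassCurve (𝓞 F)) (v : HeightOneSpectrum (𝓞 F)) (hΔ : W₀.Δ ∉ v.asIdeal) (a b : 𝓞 F) :
    (W₀⁄(𝓞 F ⧸ v.asIdeal)).toAffine.Nonsingular (Ideal.Quotient.mk v.asIdeal a) (Ideal.Quotient.mk v.asIdeal b) ↔
      g9E W₀ a b ∈ v.asIdeal := by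
  have h1 : (W₀⁄(𝓞 F ⧸ v.asIdeal)).Δ ≠ 0 := by
    have h2 : (W₀⁄(𝓞 F ⧸ v.asIdeal)).Δ = Ideal.Quotient.mk v.asIdeal W₀.Δ :=
      WeierstrassCurve.map_Δ W₀ (algebraMap (𝓞 F) (𝓞 F ⧸ v.asIdeal))
    rw [h2]
    exact fun h => hΔ (Ideal.Quotient.eq_zero_iff_mem.1 h)
  rw [← Affine.equation_iff_nonsingular_of_Δ_ne_zero (W := (W₀⁄(𝓞 F ⧸ v.asIdeal)).toAffine) h1, Affine.equation_iff,
    ← Ideal.Quotient.eq_zero_iff_mem]
  unfold g9E
  rw [← sub_eq_zero]
  have e1 : (W₀⁄(𝓞 F ⧸ v.asIdeal)).a₁ = Ideal.Quotient.mk v.asIdeal W₀.a₁ := rfl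
  have e2 : (W₀⁄(𝓞 F ⧸ v.asIdeal)).a₂ = Ideal.Quotient.mk v.asIdeal W₀.a₂ := rfl
  have e3 : (W₀⁄(𝓞 F ⧸ v.asIdeal)).a₃ = Ideal.Quotient.mk v.asIdeal W₀.a₃ := rfl
  have e4 : (W₀⁄(𝓞 F ⧸ v.asIdeal)).a₄ = Ideal.Quotient.mk v.asIdeal W₀.a₄ := rfl
  have e6 : (W₀⁄(𝓞 F ⧸ v.asIdeal)).a₆ = Ideal.Quotient.mk v.asIdeal W₀.a₆ := rfl
  simp only [map_sub, map_add, map_mul, map_pow]
  rw [← e1, ← e2, ← e3, ← e4, ← e6]

/-- The class c is the class of the lifts of the point P. -/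
def g9R (hV : GV A B V) (W₀ : WeierstrassCurve (𝓞 F)) (v : HeightOneSpectrum (𝓞 F))
    (P : (W₀⁄(𝓞 F ⧸ v.asIdeal)).toAffine.Point) (c : Pt (WAB A B) Ω ⧸ kerG hV) : Prop :=
  (P = 0 ∧ c = 0) ∨ ∃ (a b : 𝓞 F) (h : (W₀⁄(𝓞 F ⧸ v.asIdeal)).toAffine.Nonsingular (Ideal.Quotient.mk v.asIdeal a)
    (Ideal.Quotient.mk v.asIdeal b)) (X : Pt (WAB A B) Ω), P = .some _ _ h ∧ c = (X : Pt (WAB A B) Ω ⧸ kerG hV) ∧
      ¬ Ker V X ∧ V.valuation (xc X - g9x Ω W₀ a) < 1 ∧ V.valuation (yc X - g9y Ω W₀ a b) < 1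

omit [IQ F] [DecidableEq Ω] in
theorem g9_sub (W₀ : WeierstrassCurve (𝓞 F)) (hV : GV A B V) (v : HeightOneSpectrum (𝓞 F))
    (hv : ∀ a : 𝓞 F, a ∈ v.asIdeal → V.valuation (ak Ω a) < 1) (a b a' b' : 𝓞 F) :
    (V.valuation (g9x Ω W₀ a - g9x Ω W₀ a') < 1 ↔ Ideal.Quotient.mk v.asIdeal a = Ideal.Quotient.mk v.asIdeal a') ∧
    (Ideal.Quotient.mk v.asIdeal a = Ideal.Quotient.mk v.asIdeal a' →
      (V.valuation (g9y Ω W₀ a b - g9y Ω W₀ a' b') < 1 ↔
        Ideal.Quotient.mk v.asIdeal b = Ideal.Quotient.mk v.asIdeal b')) := by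
  obtain ⟨-, h2', -, -⟩ := g9_twelve hV
  have h1 : g9x Ω W₀ a - g9x Ω W₀ a' = ak Ω (a - a') := by
    unfold g9x
    rw [← g9h_eq (Ω := Ω) (a - a'), map_sub, g9h_eq, g9h_eq]
    ring
  constructor
  · rw [h1, g9_ker hv, ← Ideal.Quotient.eq]
  · intro hab
    rw [Ideal.Quotient.eq] at hab
    have h3 : g9y Ω W₀ a b - g9y Ω W₀ a' b' = ak Ω (b - b') + ak Ω (a - a') * (ak Ω W₀.a₁ / (2 : ℕ)) := by
      unfold g9y
      simp only [← g9h_eq, map_sub, map_mul]
      ring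
    have h4 : V.valuation (ak Ω (a - a') * (ak Ω W₀.a₁ / (2 : ℕ))) < 1 := by
      refine g9_mul (hv _ hab) ?_
      rw [map_div₀, h2', div_one]
      exact ak_le V _
    rw [h3, Ideal.Quotient.eq, ← g9_ker hv]
    constructor
    · intro h5
      have h6 := Valuation.map_sub_lt _ h5 h4
      rwa [add_sub_cancel_right] at h6
    · intro h5
      exact Valuation.map_add_lt _ h5 h4

/-- Chunk G9B (M/L). The points of the reduction of W₀ modulo v are the classes X modulo kerG with sX = X, s a Frobenius element. W₀ has short form A = -c₄/48, B = -c₆/864: over Ω, (x, y) of W₀ corresponds to (x + β, y + α x + τ) of WAB A B, β = b₂/12, α = a₁/2, τ = a₃/2 (see PS4_D, PS4_iso, exists_short in H55P/S4.lean). V(6) = 1, so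
these are in V and the kernels of reduction correspond; everything commutes with ac (α, β, τ in F). k = 𝓞 F ⧸ v.asIdeal has q = absNorm v elements. Given a nonzero point (x̄, ȳ) of W₀ over k: lift x̄ to x in 𝓞 F, the monic polynomial Y^2 + a₁ x Y + a₃ Y - (x^3 + ..) has roots y₁, y₂ in V (Ω algebraically closed, integral), one of them is
congruent to ȳ modulo V (the map 𝓞 F -> residue field of V has kernel v): a point X of WAB A B, not in Ker; its class does not depend on the choices (cls_xy) and s X = X modulo Ker (V(s x - x^q) < 1, x^q congruent to x, the same for y: hs; cls_xy). Conversely X not in Ker with Ker V (sX - X): x(X)^q is congruent to s x(X) = x(sX), congruent to x(X)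
(cls_conv), so x(X) is congruent to an element of 𝓞 F (the residue field of V contains k as the set of roots of T^q - T: injection of k into the residue field, at most q roots), the same for y(X) and for the coordinates of W₀. The equation of W₀ and W₀ nonsingular modulo v (hΔ: Δ is not 0 in k; equation_iff_nonsingular_of_Δ_ne_zero). -/
theorem red_card [IsAlgClosed Ω] (hV : GV A B V) (W₀ : WeierstrassCurve (𝓞 F))
    (hA : A = -(algebraMap (𝓞 F) F W₀.c₄) / 48) (hB : B = -(algebraMap (𝓞 F) F W₀.c₆) / 864)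
    (v : HeightOneSpectrum (𝓞 F)) (hΔ : W₀.Δ ∉ v.asIdeal)
    (hv : ∀ a : 𝓞 F, a ∈ v.asIdeal → V.valuation (ak Ω a) < 1) (s : Ω ≃ₐ[F] Ω)
    (hs : ∀ x ∈ V, V.valuation (s x - x ^ Ideal.absNorm v.asIdeal) < 1) :
    Nat.card (W₀⁄(𝓞 F ⧸ v.asIdeal)).toAffine.Point =
      Nat.card {c : Pt (WAB A B) Ω ⧸ kerG hV // ∃ X : Pt (WAB A B) Ω, (X : Pt (WAB A B) Ω ⧸ kerG hV) = c ∧
        Ker V (ac (WAB A B) s X - X)} := by
  -- every point has a class
  have htot : ∀ P : (W₀⁄(𝓞 F ⧸ v.asIdeal)).toAffine.Point, ∃ c : {c : Pt (WAB A B) Ω ⧸ kerG hV //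
      ∃ X : Pt (WAB A B) Ω, (X : Pt (WAB A B) Ω ⧸ kerG hV) = c ∧ Ker V (ac (WAB A B) s X - X)},
      g9R hV W₀ v P c.1 := by
    intro P
    rcases P with _ | ⟨x, y, h⟩
    · refine ⟨⟨0, 0, rfl, ?_⟩, Or.inl ⟨rfl, rfl⟩⟩
      rw [map_zero, sub_zero]
      exact ker_zero V
    · obtain ⟨a, rfl⟩ := Ideal.Quotient.mk_surjective x
      obtain ⟨b, rfl⟩ := Ideal.Quotient.mk_surjective y
      obtain ⟨X, hX, hXx, hXy⟩ := g9_lift hV W₀ hA hB a b (hv _ ((g9_nons W₀ v hΔ a b).1 h))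
      have hXx' : V.valuation (xc X - g9x Ω W₀ a) < 1 := by
        rw [hXx, sub_self, map_zero]
        exact zero_lt_one
      exact ⟨⟨(X : Pt (WAB A B) Ω ⧸ kerG hV), X, rfl, g9_fix hV W₀ v hv s hs a b hX hXx' hXy⟩,
        Or.inr ⟨a, b, h, X, rfl, rfl, hX, hXx', hXy⟩⟩
  choose f hf using htot
  apply Nat.card_eq_of_bijective f
  have hno : ∀ X : Pt (WAB A B) Ω, ¬ Ker V X → (X : Pt (WAB A B) Ω ⧸ kerG hV) ≠ 0 := by
    intro X hX h
    exact hX ((QuotientAddGroup.eq_zero_iff X).1 h)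
  constructor
  · intro P P' hPP
    have h1 := hf P
    have h2 := hf P'
    rw [← hPP] at h2
    rcases h1 with ⟨h1, h1'⟩ | ⟨a, b, h, X, hP, hc, hX, hx, hy⟩
    · rcases h2 with ⟨h2, h2'⟩ | ⟨a', b', h', X', hP', hc', hX', hx', hy'⟩
      · rw [h1, h2]
      · exact (hno X' hX' (hc'.symm.trans h1')).elim
    · rcases h2 with ⟨h2, h2'⟩ | ⟨a', b', h', X', hP', hc', hX', hx', hy'⟩
      · exact (hno X hX (hc.symm.trans h2')).elim
      · have h3 : Ker V (X' - X) := by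
          have h4 := hc.symm.trans hc'
          rw [QuotientAddGroup.eq, neg_add_eq_sub] at h4
          exact h4
        obtain ⟨-, h5, h6⟩ := cls_conv hV hX h3
        rw [Valuation.map_sub_swap] at h5 h6 hx hy
        have h7 : V.valuation (g9x Ω W₀ a - g9x Ω W₀ a') < 1 := g9_tri (g9_tri hx h5) hx'
        have h8 : V.valuation (g9y Ω W₀ a b - g9y Ω W₀ a' b') < 1 := g9_tri (g9_tri hy h6) hy'
        obtain ⟨i1, i2⟩ := g9_sub W₀ hV v hv a b a' b'
        have h9 := i1.1 h7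
        have h10 := (i2 h9).1 h8
        rw [hP, hP', Affine.Point.some.injEq]
        exact ⟨h9, h10⟩
  · rintro ⟨c, X, rfl, hX⟩
    by_cases hXk : Ker V X
    · refine ⟨0, ?_⟩
      apply Subtype.ext
      have h1 : (X : Pt (WAB A B) Ω ⧸ kerG hV) = 0 := (QuotientAddGroup.eq_zero_iff X).2 hXk
      show (f 0).1 = (X : Pt (WAB A B) Ω ⧸ kerG hV)
      rw [h1]
      rcases hf 0 with ⟨-, h2⟩ | ⟨a, b, h, X, hP, -⟩
      · exact h2
      · exact absurd hP.symm (Affine.Point.some_ne_zero _)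
    · obtain ⟨a, b, hE, hx, hy⟩ := g9_conv hV W₀ hA hB v hv s hs hXk hX
      refine ⟨.some _ _ ((g9_nons W₀ v hΔ a b).2 hE), ?_⟩
      apply Subtype.ext
      show (f _).1 = _
      rcases hf (.some _ _ ((g9_nons W₀ v hΔ a b).2 hE)) with ⟨h2, -⟩ | ⟨a', b', h', X', hP', hc', hX', hx', hy'⟩
      · exact absurd h2 (Affine.Point.some_ne_zero _)
      · rw [hc', QuotientAddGroup.eq, neg_add_eq_sub]
        rw [Affine.Point.some.injEq] at hP'
        obtain ⟨i1, i2⟩ := g9_sub W₀ hV v hv a b a' b'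
        rw [Valuation.map_sub_swap] at hx' hy'
        exact cls_xy hV hXk hX' (g9_tri (g9_tri hx (i1.2 hP'.1)) hx') (g9_tri (g9_tri hy ((i2 hP'.1).2 hP'.2)) hy')

end H55K
end

-- from Lib.H55K.T6A
section

/-! # H55K: successive approximation in the inertia field -/

open NumberField IsDedekindDomain WeierstrassCurve

namespace H55K.TQ

open H55P (IQ embF eF LF Per IsHecke Pt ac Inert Dec Nm UnitP)
open H35P (WAB Ker tt GoodW IntW)
open H55K.MG (VC Crd)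

variable {F : Type} [Field F] [NumberField F] {Ω : Type} [Field Ω] [Algebra F Ω] [IsAlgClosure F Ω] {V : ValuationSubring Ω}

/-- Chunk T6A (S/M). H13S.exists_frob v V: s with Dec V s, V(s x - x^q) < 1; so V(x^q - x) < 1; g9_frob (G9B.lean; there F has an instance IQ F: copy the proof if necessary, it does not use it) gives a. -/
theorem res_fix {v : HeightOneSpectrum (𝓞 F)} (hv : ∀ a : 𝓞 F, a ∈ v.asIdeal → V.valuation (ak Ω a) < 1) {x : Ω}
    (hx : x ∈ V) (h : ∀ g : Ω ≃ₐ[F] Ω, Dec V g → V.valuation (g x - x) < 1) :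
    ∃ a : 𝓞 F, V.valuation (x - ak Ω a) < 1 := by
  obtain ⟨s, hs, hs2⟩ := H13S.exists_frob v V hv
  refine (g9_frob hv ((V.valuation_le_one_iff _).2 hx)).1 ?_
  have h1 := h s hs
  have h2 := hs2 x hx
  have h3 : x ^ Ideal.absNorm v.asIdeal - x = (s x - x) - (s x - x ^ Ideal.absNorm v.asIdeal) := by ring
  rw [h3]
  exact lt_of_le_of_lt (Valuation.map_sub _ _ _) (max_lt h1 h2)

end H55K.TQ
end

-- from Lib.H55K.T6B
section

/-! # H55K: successive approximation in the inertia field -/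

open NumberField IsDedekindDomain WeierstrassCurve

namespace H55K.TQ

open H55P (IQ embF eF LF Per IsHecke Pt ac Inert Dec Nm UnitP)
open H35P (WAB Ker tt GoodW IntW)
open H55K.MG (VC Crd)

variable {F : Type} [Field F] [NumberField F] {Ω : Type} [Field Ω] [Algebra F Ω] [IsAlgClosure F Ω] {V : ValuationSubring Ω}

omit [IsAlgClosure F Ω] in
theorem t6_val {v : HeightOneSpectrum (𝓞 F)} (hv : ∀ a : 𝓞 F, a ∈ v.asIdeal → V.valuation (ak Ω a) < 1) {a : F}
    (h : V.valuation (algebraMap F Ω a) < 1) : v.valuation F a < 1 := by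
  by_contra hcon
  rw [not_lt] at hcon
  have ha0 : a ≠ 0 := by
    rintro rfl
    rw [map_zero] at hcon
    exact absurd hcon (not_le.2 zero_lt_one)
  have h1 : v.valuation F a⁻¹ ≤ 1 := by
    rw [map_inv₀]
    exact inv_le_one_of_one_le₀ hcon
  obtain ⟨n, d, hnd⟩ := v.exists_primeCompl_mul_eq_of_integer a⁻¹ h1
  have hd : (d : 𝓞 F) ∉ v.asIdeal := d.2
  have h2 : V.valuation (ak Ω (d : 𝓞 F)) = 1 :=
    le_antisymm (ak_le V _) (not_lt.1 fun h3 => hd ((g9_ker hv _).1 h3))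
  have h3 : algebraMap F Ω a⁻¹ * ak Ω (d : 𝓞 F) = ak Ω n := by
    have := congrArg (algebraMap F Ω) hnd
    rw [map_mul] at this
    exact this
  have h4 := congrArg V.valuation h3
  rw [map_mul, h2, mul_one, map_inv₀, map_inv₀] at h4
  have h5 := ak_le V n
  rw [← h4] at h5
  have h6 : V.valuation (algebraMap F Ω a) ≠ 0 := by
    rw [Valuation.ne_zero_iff]
    exact fun h0 => ha0 ((map_eq_zero _).1 h0)
  exact absurd ((inv_le_one₀ (zero_lt_iff.2 h6)).1 h5) (not_le.2 h)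

omit [IsAlgClosure F Ω] in
theorem t6_val' {v : HeightOneSpectrum (𝓞 F)} (hv : ∀ a : 𝓞 F, a ∈ v.asIdeal → V.valuation (ak Ω a) < 1) {a : F}
    (h : v.valuation F a ≤ 1) : V.valuation (algebraMap F Ω a) ≤ 1 := by
  obtain ⟨n, d, hnd⟩ := v.exists_primeCompl_mul_eq_of_integer a h
  have hd : (d : 𝓞 F) ∉ v.asIdeal := d.2
  have h2 : V.valuation (ak Ω (d : 𝓞 F)) = 1 :=
    le_antisymm (ak_le V _) (not_lt.1 fun h3 => hd ((g9_ker hv _).1 h3))
  have h3 : algebraMap F Ω a * ak Ω (d : 𝓞 F) = ak Ω n := by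
    have := congrArg (algebraMap F Ω) hnd
    rw [map_mul] at this
    exact this
  have h4 := congrArg V.valuation h3
  rw [map_mul, h2, mul_one] at h4
  rw [h4]
  exact ak_le V n

theorem t6_fixed {x : Ω} (hx : x ≠ 0) (hI : ∀ g : Ω ≃ₐ[F] Ω, Inert V g → g x = x) :
    ∃ a : F, a ≠ 0 ∧ V.valuation x = V.valuation (algebraMap F Ω a) := by
  have hNQ : FiniteDimensional ℚ (⊥ : IntermediateField F Ω) := FiniteDimensional.trans ℚ F _
  have hchar : CharZero (⊥ : IntermediateField F Ω) :=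
    charZero_of_injective_algebraMap (algebraMap F (⊥ : IntermediateField F Ω)).injective
  have hNnf : NumberField (⊥ : IntermediateField F Ω) := ⟨⟩
  obtain ⟨a, ha0, ha⟩ := H13S.value_fixed (⊥ : IntermediateField F Ω) V x hx (fun s _ hs => hI s hs)
  obtain ⟨b, hb⟩ := IntermediateField.mem_bot.1 a.2
  refine ⟨b, ?_, ?_⟩
  · rintro rfl
    rw [map_zero] at hb
    exact ha0 (Subtype.ext hb.symm)
  · rw [hb]
    exact ha

theorem t6_ind {v : HeightOneSpectrum (𝓞 F)} (hv : ∀ a : 𝓞 F, a ∈ v.asIdeal → V.valuation (ak Ω a) < 1) (n : ℕ) :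
    ∀ (x : Ω) (a : F), a ≠ 0 → V.valuation x = V.valuation (algebraMap F Ω a) →
      WithZero.log (v.valuation F a) ≤ (n : ℤ) → (∀ g : Ω ≃ₐ[F] Ω, Inert V g → g x = x) →
      (∀ g : Ω ≃ₐ[F] Ω, Dec V g → V.valuation (g x - x) ≤ 1) →
      ∃ y : F, V.valuation (x - algebraMap F Ω y) ≤ 1 := by
  induction n with
  | zero =>
    intro x a ha hxa hlog _ _
    refine ⟨0, ?_⟩
    rw [map_zero, sub_zero, hxa]
    apply t6_val' hv
    have hw : v.valuation F a ≠ 0 := (Valuation.ne_zero_iff _).2 ha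
    have h1 := (WithZero.log_le_iff_le_exp hw).1 hlog
    rwa [Nat.cast_zero, WithZero.exp_zero] at h1
  | succ n ih =>
    intro x a ha hxa hlog hI h
    by_cases hV1 : V.valuation x ≤ 1
    · exact ⟨0, by rwa [map_zero, sub_zero]⟩
    rw [not_le] at hV1
    have hav : 1 < V.valuation (algebraMap F Ω a) := by rwa [← hxa]
    have haΩ : algebraMap F Ω a ≠ 0 := fun h0 => ha ((map_eq_zero _).1 h0)
    have hva0 : 0 < V.valuation (algebraMap F Ω a) := lt_trans zero_lt_one hav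
    obtain ⟨x₀, hx₀⟩ : ∃ x₀, x₀ = x / algebraMap F Ω a := ⟨_, rfl⟩
    have hx : x = algebraMap F Ω a * x₀ := by rw [hx₀]; field_simp
    have hx0V : V.valuation x₀ = 1 := by
      rw [hx₀, map_div₀, hxa, div_self hva0.ne']
    obtain ⟨a₀, ha₀⟩ := res_fix hv ((V.valuation_le_one_iff _).1 hx0V.le) (fun g hg => by
      have h1 := h g hg
      have h2 : g x - x = algebraMap F Ω a * (g x₀ - x₀) := by
        rw [hx, map_mul, AlgEquiv.commutes]
        ring
      rw [h2, map_mul] at h1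
      by_contra hcon
      rw [not_lt] at hcon
      have h3 : V.valuation (algebraMap F Ω a) ≤ 1 :=
        (le_mul_of_one_le_right' hcon).trans h1
      exact absurd h3 (not_le.2 hav))
    obtain ⟨x₁, hx₁⟩ : ∃ x₁, x₁ = x - algebraMap F Ω (a * (a₀ : F)) := ⟨_, rfl⟩
    have hx1 : x₁ = algebraMap F Ω a * (x₀ - ak Ω a₀) := by
      rw [hx₁, hx, map_mul]
      show _ - algebraMap F Ω a * ak Ω a₀ = _
      ring
    have hlt : V.valuation x₁ < V.valuation (algebraMap F Ω a) := by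
      rw [hx1, map_mul]
      exact mul_lt_of_lt_one_right hva0 ha₀
    by_cases hx10 : x₁ = 0
    · refine ⟨a * (a₀ : F), ?_⟩
      rw [← hx₁, hx10, map_zero]
      exact zero_le_one
    have hI1 : ∀ g : Ω ≃ₐ[F] Ω, Inert V g → g x₁ = x₁ := by
      intro g hg
      rw [hx₁, map_sub, AlgEquiv.commutes, hI g hg]
    have hD1 : ∀ g : Ω ≃ₐ[F] Ω, Dec V g → V.valuation (g x₁ - x₁) ≤ 1 := by
      intro g hg
      have h5 : g x₁ - x₁ = g x - x := by
        rw [hx₁, map_sub g, AlgEquiv.commutes]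
        ring
      rw [h5]
      exact h g hg
    obtain ⟨a₁, ha₁, hxa₁⟩ := t6_fixed hx10 hI1
    have hlog1 : WithZero.log (v.valuation F a₁) ≤ (n : ℤ) := by
      have h1 : V.valuation (algebraMap F Ω (a₁ / a)) < 1 := by
        rw [map_div₀, map_div₀, ← hxa₁, div_lt_one₀ hva0]
        exact hlt
      have h2 := t6_val hv h1
      have hw : v.valuation F a ≠ 0 := (Valuation.ne_zero_iff _).2 ha
      have hw1 : v.valuation F a₁ ≠ 0 := (Valuation.ne_zero_iff _).2 ha₁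
      rw [map_div₀, div_lt_one₀ (zero_lt_iff.2 hw)] at h2
      have h3 := (WithZero.log_lt_log hw1 hw).2 h2
      push_cast at hlog
      omega
    obtain ⟨y, hy⟩ := ih x₁ a₁ ha₁ hxa₁ hlog1 hI1 hD1
    refine ⟨y + a * (a₀ : F), ?_⟩
    have h4 : x - algebraMap F Ω (y + a * (a₀ : F)) = x₁ - algebraMap F Ω y := by
      rw [hx₁, map_add]
      ring
    rw [h4]
    exact hy

/-- Chunk T6B (M). Suppose x is not in V (otherwise y = 0). H13S.value_fixed for K = the bottom field: V(x) = V(a), a in F, a ≠ 0 (elements of the bottom field are images of elements of F). x₀ = x/a: V(x₀) = 1, g x₀ - x₀ = (g x - x)/a has value < 1 for g with Dec V g; res_fix: a₀ in 𝓞 F, V(x₀ - a₀) < 1. x₁ = x - a a₀ is fixed by inertia, g x₁ - x₁ = g x - x, V(x₁) < V(x).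
The values of elements of F are integral powers: V(a) ≤ V(b) iff v.valuation a ≤ v.valuation b for a, b in F (V lies above v: if v.valuation a ≤ 1 then a = b/c with c not in v, so V(c) = 1; see H13S.Abv.le, exists_below for the bottom field). Induction on the natural number n with v.valuation F a = exp n (V(x) = V(a) > 1). -/
theorem approx {v : HeightOneSpectrum (𝓞 F)} (hv : ∀ a : 𝓞 F, a ∈ v.asIdeal → V.valuation (ak Ω a) < 1) {x : Ω}
    (hI : ∀ g : Ω ≃ₐ[F] Ω, Inert V g → g x = x)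
    (h : ∀ g : Ω ≃ₐ[F] Ω, Dec V g → V.valuation (g x - x) ≤ 1) :
    ∃ y : F, V.valuation (x - algebraMap F Ω y) ≤ 1 := by
  by_cases hx0 : x = 0
  · refine ⟨0, ?_⟩
    rw [hx0, map_zero, sub_zero, map_zero]
    exact zero_le_one
  obtain ⟨a, ha, hxa⟩ := t6_fixed hx0 hI
  exact t6_ind hv (WithZero.log (v.valuation F a)).toNat x a ha hxa (Int.self_le_toNat _) hI h

/-- Chunk T6B (S). approx for x/c. -/
theorem approx' {v : HeightOneSpectrum (𝓞 F)} (hv : ∀ a : 𝓞 F, a ∈ v.asIdeal → V.valuation (ak Ω a) < 1) {x : Ω} {c : F}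
    (hc : c ≠ 0) (hI : ∀ g : Ω ≃ₐ[F] Ω, Inert V g → g x = x)
    (h : ∀ g : Ω ≃ₐ[F] Ω, Dec V g → V.valuation (g x - x) ≤ V.valuation (algebraMap F Ω c)) :
    ∃ y : F, V.valuation (x - algebraMap F Ω y) ≤ V.valuation (algebraMap F Ω c) := by
  have hcΩ : algebraMap F Ω c ≠ 0 := fun h0 => hc ((map_eq_zero _).1 h0)
  have hc0 : 0 < V.valuation (algebraMap F Ω c) := zero_lt_iff.2 ((Valuation.ne_zero_iff _).2 hcΩ)
  obtain ⟨y, hy⟩ := approx (V := V) (x := x / algebraMap F Ω c) hv (fun g hg => by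
      rw [map_div₀, AlgEquiv.commutes, hI g hg]) (fun g hg => by
      have h5 : g (x / algebraMap F Ω c) - x / algebraMap F Ω c = (g x - x) / algebraMap F Ω c := by
        rw [map_div₀ g, AlgEquiv.commutes, ← sub_div]
      rw [h5, map_div₀, div_le_one₀ hc0]
      exact h g hg)
  refine ⟨c * y, ?_⟩
  have h1 : x - algebraMap F Ω (c * y) = algebraMap F Ω c * (x / algebraMap F Ω c - algebraMap F Ω y) := by
    rw [map_mul]
    field_simp
  rw [h1, map_mul]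
  exact mul_le_of_le_one_right' hy

end H55K.TQ
end

-- from Lib.H55P.R2
section

open NumberField IsDedekindDomain

namespace H55P

open H55N
open H55B (g)

variable {F : Type} [Field F] [NumberField F] [IQ F] {K : Type} [Field K] [NumberField K] [Algebra F K] {m : ℕ}

/-! Chunk R2 (M/L). Existence of regularised sums, for h Good with weight bl = prod_k (1+|Tr(A_k x)|)^(-1) and gains gl. Index set I = Fin (m+1) x Fin 2.
The family h cut_{B,R}, R >= 1, is Good with weight bl and gains gl: Good.mul of hh (constant in the parameter) and good_cut (gains gs <= C gl: gs_le_gl, Good.mono; weight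
1: SV.one), sv_bl, sv_gl. For S = univ: |D(h cut_R)(x)| <= C bl(x) prod_{i in I} gl_i(x) = C prod_k (1+|Tr(A_k x)|)^(-3) (two i for each k), summable over
X (sum_l with r = 3; Dirs.int, Dirs.ind). By GSpec and summable_cut: sum_X g h cut_R = sum_X G D(h cut_R), and D(h cut_R)(x) -> D h(x) as R -> infinity for fixed x
(finite sum, cut_tendsto). Dominated convergence: tendsto_tsum_of_dominated_convergence. h is bounded on X: S = empty, bl <= 1.
R3: the same with pcut (good_pcut) instead of cut; g h pcut_R is absolutely summable over X: |h| <= C bl, pcut_R <= C_R prod_k (1+|Tr|)^(-2). -/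

theorem R2_prod (D : Ctx F K m) (A : Fin (m + 1) → K) (x : 𝓞 K) :
    D.bl A x * ∏ i : Fin (m + 1) × Fin 2, D.gl A i x =
      ∏ k, (1 + ‖D.Tr (A k) x‖) ^ (-(3 : ℝ)) := by
  have h1 : ∏ i : Fin (m + 1) × Fin 2, D.gl A i x =
      ∏ k : Fin (m + 1), ((1 + ‖D.Tr (A k) x‖)⁻¹ * (1 + ‖D.Tr (A k) x‖)⁻¹) := by
    rw [Fintype.prod_prod_type]
    refine Finset.prod_congr rfl fun k _ => ?_
    rw [Fin.prod_univ_two]
    rfl
  rw [h1]
  unfold Ctx.bl
  rw [← Finset.prod_mul_distrib]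
  refine Finset.prod_congr rfl fun k _ => ?_
  have h2 : 0 < 1 + ‖D.Tr (A k) x‖ := by positivity
  rw [Real.rpow_neg h2.le, show (3 : ℝ) = ((3 : ℕ) : ℝ) by norm_num, Real.rpow_natCast]
  field_simp

theorem R2_summable (D : Ctx F K m) (hD : D.Ok) (A : Fin (m + 1) → K)
    (w : Fin (m + 1) × Fin 2 → 𝓞 K) (hdir : D.Dirs A w) :
    Summable fun x : D.X => D.bl A x * ∏ i : Fin (m + 1) × Fin 2, D.gl A i x := by
  have h := sum_l D hD.emb D.X A hdir.ind hdir.int 3 (by norm_num)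
  exact h.congr fun x => (R2_prod D A x).symm

theorem R2_bl_nonneg (D : Ctx F K m) (A : Fin (m + 1) → K) (x : 𝓞 K) : 0 ≤ D.bl A x := by
  unfold Ctx.bl
  positivity

theorem R2_gl_nonneg (D : Ctx F K m) (A : Fin (m + 1) → K) (i : Fin (m + 1) × Fin 2) (x : 𝓞 K) :
    0 ≤ D.gl A i x := by
  unfold Ctx.gl
  positivity

theorem R2_bl_le (D : Ctx F K m) (A : Fin (m + 1) → K) (x : 𝓞 K) : D.bl A x ≤ 1 := by
  unfold Ctx.bl
  apply Finset.prod_le_one
  · intro k _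
    positivity
  · intro k _
    apply inv_le_one_of_one_le₀
    have := norm_nonneg (D.Tr (A k) x)
    linarith

theorem R2_stab (D : Ctx F K m) (A : Fin (m + 1) → K)
    (w : Fin (m + 1) × Fin 2 → 𝓞 K) (hdir : D.Dirs A w) : ∀ x ∈ D.X, ∀ i, x - w i ∈ D.X :=
  fun _ hx i => D.X_sub hx (hdir.mem i)

/-- Summability of the differences. -/
theorem R2_sumD (D : Ctx F K m) (hD : D.Ok) (A : Fin (m + 1) → K)
    (w : Fin (m + 1) × Fin 2 → 𝓞 K) (hdir : D.Dirs A w) (G : 𝓞 K → ℂ) (hG : D.GSpec w G)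
    (h : 𝓞 K → ℂ) (hh : Good D.X w (D.gl A) (fun (_ : Unit) x => D.bl A x) (fun _ => h)) :
    Summable fun x : D.X => ‖G x * Dif w Finset.univ h x‖ := by
  obtain ⟨C, hC⟩ := hh
  obtain ⟨CG, hCG⟩ := hG.1
  have h1 := (R2_summable D hD A w hdir).mul_left (|CG| * |C|)
  refine Summable.of_nonneg_of_le (fun x => norm_nonneg _) (fun x => ?_) h1
  rw [norm_mul]
  have hp : 0 ≤ ∏ i : Fin (m + 1) × Fin 2, D.gl A i x :=
    Finset.prod_nonneg fun i _ => R2_gl_nonneg D A i x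
  have h2 : ‖Dif w Finset.univ h x‖ ≤ |C| * (D.bl A x * ∏ i : Fin (m + 1) × Fin 2, D.gl A i x) := by
    refine (hC () Finset.univ x x.2).trans ?_
    rw [mul_assoc]
    exact mul_le_mul_of_nonneg_right (le_abs_self C) (mul_nonneg (R2_bl_nonneg D A x) hp)
  calc ‖G x‖ * ‖Dif w Finset.univ h x‖
      ≤ |CG| * (|C| * (D.bl A x * ∏ i : Fin (m + 1) × Fin 2, D.gl A i x)) :=
        mul_le_mul ((hCG x).trans (le_abs_self _)) h2 (norm_nonneg _) (abs_nonneg _)
    _ = _ := by ring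

/-- The limit for a family of cutoff functions. -/
theorem R2_lim (D : Ctx F K m) (hD : D.Ok) (A : Fin (m + 1) → K)
    (w : Fin (m + 1) × Fin 2 → 𝓞 K) (hdir : D.Dirs A w) (G : 𝓞 K → ℂ) (hG : D.GSpec w G)
    (h : 𝓞 K → ℂ) (hh : Good D.X w (D.gl A) (fun (_ : Unit) x => D.bl A x) (fun _ => h))
    (ψ : ℝ → 𝓞 K → ℝ)
    (h1 : Good D.X w (D.gl A) (fun (_ : {R : ℝ // 1 ≤ R}) _ => (1 : ℝ))
      (fun q x => (ψ q.1 x : ℂ)))
    (h2 : ∀ x, Filter.Tendsto (fun R : ℝ => (ψ R x : ℂ)) Filter.atTop (nhds 1))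
    (h3 : ∀ R : ℝ, 1 ≤ R → Summable fun x : D.X => ‖h x * (ψ R x : ℂ)‖) :
    Filter.Tendsto (fun R : ℝ => ∑' x : D.X, D.g x * h x * (ψ R x : ℂ)) Filter.atTop
      (nhds (∑' x : D.X, G x * Dif w Finset.univ h x)) := by
  obtain ⟨CG, hCG⟩ := hG.1
  have hh' : Good D.X w (D.gl A) (fun (_ : {R : ℝ // 1 ≤ R}) x => D.bl A x) (fun _ => h) := by
    obtain ⟨C, hC⟩ := hh
    exact ⟨C, fun q S x hx => hC () S x hx⟩
  obtain ⟨C, hC⟩ := Good.mul (R2_stab D A w hdir) (sv_gl D A w) (sv_bl D A w) SV.one hh' h1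
  have hev : (fun R : ℝ => ∑' x : D.X, G x * Dif w Finset.univ (fun y => h y * (ψ R y : ℂ)) x)
      =ᶠ[Filter.atTop] fun R : ℝ => ∑' x : D.X, D.g x * h x * (ψ R x : ℂ) := by
    filter_upwards [Filter.eventually_ge_atTop (1 : ℝ)] with R hR
    have := hG.2 (fun y => h y * (ψ R y : ℂ)) (h3 R hR)
    rw [← this]
    exact tsum_congr fun x => (mul_assoc _ _ _).symm
  refine Filter.Tendsto.congr' hev ?_
  refine tendsto_tsum_of_dominated_convergence
    (bound := fun x : D.X => (|CG| * |C|) *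
      (D.bl A x * ∏ i : Fin (m + 1) × Fin 2, D.gl A i x)) ?_ ?_ ?_
  · exact (R2_summable D hD A w hdir).mul_left _
  · intro x
    refine Filter.Tendsto.const_mul _ ?_
    unfold Dif
    refine tendsto_finsetSum _ fun T _ => ?_
    refine Filter.Tendsto.const_mul _ ?_
    have h4 := (h2 (x.1 - ∑ i ∈ T, w i)).const_mul (h (x.1 - ∑ i ∈ T, w i))
    rw [mul_one] at h4
    exact h4
  · filter_upwards [Filter.eventually_ge_atTop (1 : ℝ)] with R hR
    intro x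
    rw [norm_mul]
    have hp : 0 ≤ ∏ i : Fin (m + 1) × Fin 2, D.gl A i x :=
      Finset.prod_nonneg fun i _ => R2_gl_nonneg D A i x
    have h5 : ‖Dif w Finset.univ (fun y => h y * (ψ R y : ℂ)) x‖ ≤
        |C| * (D.bl A x * ∏ i : Fin (m + 1) × Fin 2, D.gl A i x) := by
      refine (hC ⟨R, hR⟩ Finset.univ x x.2).trans ?_
      change C * (D.bl A x * 1) * ∏ i : Fin (m + 1) × Fin 2, D.gl A i x ≤ _
      rw [mul_one, mul_assoc]
      exact mul_le_mul_of_nonneg_right (le_abs_self C) (mul_nonneg (R2_bl_nonneg D A x) hp)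
    calc ‖G x‖ * ‖Dif w Finset.univ (fun y => h y * (ψ R y : ℂ)) x‖
        ≤ |CG| * (|C| * (D.bl A x * ∏ i : Fin (m + 1) × Fin 2, D.gl A i x)) :=
          mul_le_mul ((hCG x).trans (le_abs_self _)) h5 (norm_nonneg _) (abs_nonneg _)
      _ = _ := by ring

theorem R2_bdd (D : Ctx F K m) (A : Fin (m + 1) → K)
    (w : Fin (m + 1) × Fin 2 → 𝓞 K)
    (h : 𝓞 K → ℂ) (hh : Good D.X w (D.gl A) (fun (_ : Unit) x => D.bl A x) (fun _ => h)) :
    ∃ C : ℝ, 0 ≤ C ∧ ∀ x ∈ D.X, ‖h x‖ ≤ C * D.bl A x := by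
  obtain ⟨C, hC⟩ := hh
  refine ⟨|C|, abs_nonneg C, fun x hx => ?_⟩
  have h1 := hC () ∅ x hx
  rw [dif_empty, Finset.prod_empty, mul_one] at h1
  exact h1.trans (mul_le_mul_of_nonneg_right (le_abs_self C) (R2_bl_nonneg D A x))

theorem reg_of_good (D : Ctx F K m) (hD : D.Ok) (A : Fin (m + 1) → K)
    (w : Fin (m + 1) × Fin 2 → 𝓞 K) (hdir : D.Dirs A w) (G : 𝓞 K → ℂ) (hG : D.GSpec w G)
    (h : 𝓞 K → ℂ) (hh : Good D.X w (D.gl A) (fun (_ : Unit) x => D.bl A x) (fun _ => h)) :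
    (Summable fun x : D.X => ‖G x * Dif w Finset.univ h x‖) ∧
      D.HasReg h (∑' x : D.X, G x * Dif w Finset.univ h x) := by
  refine ⟨R2_sumD D hD A w hdir G hG h hh, ?_, ?_⟩
  · obtain ⟨C, hC0, hC⟩ := R2_bdd D A w h hh
    refine ⟨C, fun x hx => (hC x hx).trans ?_⟩
    have := mul_le_mul_of_nonneg_left (R2_bl_le D A x) hC0
    linarith
  · intro B hB
    have hstab := R2_stab D A w hdir
    have h0 : (0 : 𝓞 K) ∉ D.X := fun h => D.X_ne hD.ne h rfl
    refine R2_lim D hD A w hdir G hG h hh (fun R x => D.cut B R x) ?_ ?_ ?_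
    · have h1 := good_cut (P := {R : ℝ // 1 ≤ R}) D hD.emb w D.X hstab h0 B hB (fun q => q.1)
        (fun q => q.2)
      obtain ⟨C, hC0, _, hC⟩ := gs_le_gl D A
      refine Good.mono h1 (fun i x _ => inv_nonneg.2 (D.sz_pos x).le) (max 1 C) (by positivity) ?_ ?_
      · intro q x _
        refine ⟨zero_le_one, ?_⟩
        rw [mul_one]
        exact le_max_left _ _
      · intro i x _
        exact (hC i x).trans (mul_le_mul_of_nonneg_right (le_max_right _ _)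
          (R2_gl_nonneg D A i x))
    · exact fun x => cut_tendsto D B x
    · intro R hR
      refine summable_cut D hD h ?_ B hB R hR
      obtain ⟨C, hC0, hC⟩ := R2_bdd D A w h hh
      refine ⟨C, fun x hx => (hC x hx).trans ?_⟩
      have := mul_le_mul_of_nonneg_left (R2_bl_le D A x) hC0
      linarith

theorem R2_pcut_tendsto (D : Ctx F K m) (A : Fin (m + 1) → K) (x : 𝓞 K) :
    Filter.Tendsto (fun R : ℝ => (D.pcut A R x : ℂ)) Filter.atTop (nhds 1) := by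
  have h1 : ∀ c : ℝ, Filter.Tendsto (fun R : ℝ => R ^ 2 / (R ^ 2 + c)) Filter.atTop (nhds 1) := by
    intro c
    have h2 : Filter.Tendsto (fun R : ℝ => (1 + c / R ^ 2)⁻¹) Filter.atTop (nhds 1) := by
      have h3 : Filter.Tendsto (fun R : ℝ => c / R ^ 2) Filter.atTop (nhds 0) :=
        Filter.Tendsto.const_div_atTop (Filter.tendsto_pow_atTop (by norm_num)) c
      have h4 := (h3.const_add 1).inv₀ (by norm_num)
      simpa using h4
    refine h2.congr' ?_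
    filter_upwards [Filter.eventually_gt_atTop (0 : ℝ)] with R hR
    have hR2 : R ^ 2 ≠ 0 := by positivity
    rw [show 1 + c / R ^ 2 = (R ^ 2 + c) / R ^ 2 by field_simp, inv_div]
  have h5 : Filter.Tendsto (fun R : ℝ => D.pcut A R x) Filter.atTop (nhds 1) := by
    unfold Ctx.pcut
    have h6 := tendsto_finsetProd (Finset.univ : Finset (Fin (m + 1)))
      (fun k _ => h1 (‖D.Tr (A k) x‖ ^ 2))
    simpa using h6
  have h7 := (Complex.continuous_ofReal.tendsto 1).comp h5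
  rw [Complex.ofReal_one] at h7
  exact h7

theorem R2_pcut_le (D : Ctx F K m) (A : Fin (m + 1) → K) (R : ℝ) (hR : 1 ≤ R) (x : 𝓞 K) :
    0 ≤ D.pcut A R x ∧
      D.pcut A R x ≤ (2 * R ^ 2) ^ (m + 1) * ∏ i : Fin (m + 1) × Fin 2, D.gl A i x := by
  have hR0 : 0 < R := by linarith
  constructor
  · unfold Ctx.pcut
    positivity
  · have h1 : ∏ i : Fin (m + 1) × Fin 2, D.gl A i x =
        ∏ k : Fin (m + 1), ((1 + ‖D.Tr (A k) x‖)⁻¹ * (1 + ‖D.Tr (A k) x‖)⁻¹) := by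
      rw [Fintype.prod_prod_type]
      refine Finset.prod_congr rfl fun k _ => ?_
      rw [Fin.prod_univ_two]
      rfl
    rw [h1]
    unfold Ctx.pcut
    have h2 : (2 * R ^ 2) ^ (m + 1) = ∏ _k : Fin (m + 1), (2 * R ^ 2) := by
      rw [Finset.prod_const, Finset.card_univ, Fintype.card_fin]
    rw [h2, ← Finset.prod_mul_distrib]
    apply Finset.prod_le_prod
    · intro k _
      positivity
    · intro k _
      have h3 := norm_nonneg (D.Tr (A k) x)
      have h4 : 0 < 1 + ‖D.Tr (A k) x‖ := by positivity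
      have hR1 : 1 ≤ R ^ 2 := by nlinarith
      rw [← mul_inv, ← div_eq_mul_inv, div_le_div_iff₀ (by positivity) (by positivity)]
      have h5 : (1 + ‖D.Tr (A k) x‖) * (1 + ‖D.Tr (A k) x‖) ≤
          2 * (R ^ 2 + ‖D.Tr (A k) x‖ ^ 2) := by
        nlinarith [sq_nonneg (1 - ‖D.Tr (A k) x‖)]
      calc R ^ 2 * ((1 + ‖D.Tr (A k) x‖) * (1 + ‖D.Tr (A k) x‖))
          ≤ R ^ 2 * (2 * (R ^ 2 + ‖D.Tr (A k) x‖ ^ 2)) :=
            mul_le_mul_of_nonneg_left h5 (by positivity)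
        _ = _ := by ring

theorem pcut_of_good (D : Ctx F K m) (hD : D.Ok) (A : Fin (m + 1) → K)
    (w : Fin (m + 1) × Fin 2 → 𝓞 K) (hdir : D.Dirs A w) (G : 𝓞 K → ℂ) (hG : D.GSpec w G)
    (h : 𝓞 K → ℂ) (hh : Good D.X w (D.gl A) (fun (_ : Unit) x => D.bl A x) (fun _ => h)) :
    Filter.Tendsto (fun R : ℝ => ∑' x : D.X, D.g x * h x * (D.pcut A R x : ℂ)) Filter.atTop
      (nhds (∑' x : D.X, G x * Dif w Finset.univ h x)) := by
  have g1 : Good D.X w (D.gl A) (fun (_ : {R : ℝ // 1 ≤ R}) _ => (1 : ℝ))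
      (fun q x => (D.pcut A q.1 x : ℂ)) :=
    good_pcut D A w hdir (fun q : {R : ℝ // 1 ≤ R} => q.1) (fun q => q.2)
  have g3 : ∀ R : ℝ, 1 ≤ R → Summable fun x : D.X => ‖h x * (D.pcut A R x : ℂ)‖ := by
    intro R hR
    obtain ⟨C, hC0, hC⟩ := R2_bdd D A w h hh
    have h1 := (R2_summable D hD A w hdir).mul_left (C * (2 * R ^ 2) ^ (m + 1))
    refine Summable.of_nonneg_of_le (fun x => norm_nonneg _) (fun x => ?_) h1
    obtain ⟨h2, h3⟩ := R2_pcut_le D A R hR x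
    rw [norm_mul, Complex.norm_real, Real.norm_eq_abs, abs_of_nonneg h2]
    calc ‖h x‖ * D.pcut A R x
        ≤ (C * D.bl A x) * ((2 * R ^ 2) ^ (m + 1) * ∏ i : Fin (m + 1) × Fin 2, D.gl A i x) :=
          mul_le_mul (hC x x.2) h3 h2 (mul_nonneg hC0 (R2_bl_nonneg D A x))
      _ = _ := by ring
  exact R2_lim D hD A w hdir G hG h hh (fun R x => D.pcut A R x) g1
    (fun x => R2_pcut_tendsto D A x) g3

end H55P
end

-- from Lib.H55P.R7
section

open NumberField IsDedekindDomain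

namespace H55P

open H55N
open H55B (g)

variable {F : Type} [Field F] [NumberField F] [IQ F] {K : Type} [Field K] [NumberField K] [Algebra F K] {m : ℕ}

/-! Chunk R7 (M). The cocycle identity for the regularised sums on a prism.
row_sum: sum_i σ_i(x) row(l)(x)_i = 1 for x in X, l = T t with t > 0 (Q_t(x) <> 0) or l = A (A_k) (Tr <> 0, Dirs.low).
prism_cocycle: the m+2 entries of the prism are L(v_0)..L(v_i) (label A (A_k) or a positive T label) and positive T labels. For every j the m+1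
entries left satisfy the assumptions of good_idet: κ(k) := the number j.succAbove k if it is <= i (then the label is L(v_(that number)), A (A_that) or T), otherwise
anything (the label is of type T); injective on the indices of type A because succAbove is injective. So HasReg (Idet ..) by reg_of_good with a G from gspec_exists;
Jv_eq; the alternating sum of the Idet is 0 on X (det_cocycle); HasReg.sum, HasReg.smul, HasReg.congr, HasReg.unique with HasReg.zero. -/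

theorem r7_Q_pos (D : Ctx F K m) (hE : Emb F D.σ) (t : Fin (m + 1) → ℝ) (ht : ∀ i, 0 < t i)
    (x : 𝓞 K) (hx : x ≠ 0) : 0 < D.Q t x := by
  obtain ⟨i0, hi0⟩ := Finite.exists_min t
  obtain ⟨c, hc, h⟩ := Q_low D hE (t i0) (ht i0)
  have h1 := h t hi0 x hx
  have h2 := D.sz_pos x
  have h3 : 0 < c * D.sz x ^ 2 := by positivity
  linarith

theorem row_sum (D : Ctx F K m) (hD : D.Ok) (t : Fin (m + 1) → ℝ) (ht : ∀ i, 0 < t i) (x : 𝓞 K)
    (hx : x ∈ D.X) : ∑ i, D.σ i x * D.row (.T t) x i = 1 := by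
  have hQ := r7_Q_pos D hD.emb t ht x (D.X_ne hD.ne hx)
  have hQ' : ((D.Q t x : ℝ) : ℂ) ≠ 0 := by exact_mod_cast hQ.ne'
  have h1 : ∀ i, D.σ i x * D.row (.T t) x i = ((t i * ‖D.σ i x‖ ^ 2 : ℝ) : ℂ) / (D.Q t x : ℂ) := by
    intro i
    show D.σ i x * ((starRingEnd ℂ) (D.σ i x) * t i / D.Q t x) = _
    rw [mul_div_assoc', ← mul_assoc, Complex.mul_conj, Complex.normSq_eq_norm_sq]
    push_cast
    ring
  rw [Finset.sum_congr rfl fun i _ => h1 i, ← Finset.sum_div, ← Complex.ofReal_sum]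
  exact div_self hQ'

theorem row_sum' (D : Ctx F K m) (a : K) (x : 𝓞 K) (hx : D.Tr a x ≠ 0) :
    ∑ i, D.σ i x * D.row (.A a) x i = 1 := by
  have h1 : ∀ i, D.σ i x * D.row (.A a) x i = D.σ i ((x : K) * a) / D.Tr a x := by
    intro i
    show D.σ i x * (D.σ i a / D.Tr a x) = _
    rw [map_mul, mul_div_assoc]
  rw [Finset.sum_congr rfl fun i _ => h1 i, ← Finset.sum_div]
  exact div_self hx

theorem prism_cocycle {V : Type} (D : Ctx F K m) (hD : D.Ok) (A : Fin (m + 1) → K)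
    (w : Fin (m + 1) × Fin 2 → 𝓞 K) (hdir : D.Dirs A w) (L L' : V → Lab K m) (v : ℕ → V)
    (hL : ∀ k : Fin (m + 1), L (v k) = .A (A k) ∨ ∃ t, L (v k) = .T t ∧ ∀ i, 0 < t i)
    (hL' : ∀ k ≤ m, ∃ t, L' (v k) = .T t ∧ ∀ i, 0 < t i) (i : ℕ) (hi : i ≤ m) :
    ∑ j : Fin (m + 2), (-1) ^ (j : ℕ) * D.Jv (fun k : Fin (m + 1) =>
      prism L L' v i (j.succAbove k : Fin (m + 2))) = 0 := by
  obtain ⟨G, hG⟩ := gspec_exists D hD A w hdir
  -- the entries of the prism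
  have hent : ∀ j : Fin (m + 2),
      (∃ t, prism L L' v i j = .T t ∧ ∀ i, 0 < t i) ∨
      ((j : ℕ) < m + 1 ∧ prism L L' v i j = .A (A (Fin.ofNat (m + 1) j))) := by
    intro j
    unfold prism
    by_cases hj : (j : ℕ) ≤ i
    · rw [if_pos hj]
      have hjm : (j : ℕ) < m + 1 := by omega
      have h1 := hL ⟨j, hjm⟩
      rcases h1 with h1 | ⟨t, h1, h2⟩
      · right
        refine ⟨hjm, ?_⟩
        have : Fin.ofNat (m + 1) (j : ℕ) = ⟨j, hjm⟩ := by
          apply Fin.ext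
          simp [Nat.mod_eq_of_lt hjm]
        rw [this]
        exact h1
      · left
        exact ⟨t, h1, h2⟩
    · rw [if_neg hj]
      left
      exact hL' ((j : ℕ) - 1) (by have := j.2; omega)
  set M : Fin (m + 2) → Lab K m := fun j => prism L L' v i j with hM
  set Lj : Fin (m + 2) → Fin (m + 1) → Lab K m := fun j k => M (j.succAbove k) with hLj
  have hreg : ∀ j : Fin (m + 2), D.HasReg (D.Idet (Lj j)) (D.Jv (Lj j)) := by
    intro j
    have hgood := good_idet D hD A w hdir (Lj j)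
      (fun k => Fin.ofNat (m + 1) (j.succAbove k : Fin (m + 2))) ?_ ?_ ?_
    · have h1 := (reg_of_good D hD A w hdir G hG _ hgood).2
      rw [Jv_eq D h1]
      exact h1
    · intro k t hk i'
      rcases hent (j.succAbove k) with ⟨t', h1, h2⟩ | ⟨_, h1⟩
      · have h3 : Lj j k = .T t' := h1
        rw [hk] at h3
        obtain rfl : t = t' := by injection h3
        exact h2 i'
      · have h3 : Lj j k = .A _ := h1
        rw [hk] at h3
        exact absurd h3 (by simp)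
    · intro k a hk
      rcases hent (j.succAbove k) with ⟨t', h1, h2⟩ | ⟨_, h1⟩
      · have h3 : Lj j k = .T t' := h1
        rw [hk] at h3
        exact absurd h3 (by simp)
      · have h3 : Lj j k = .A _ := h1
        rw [hk] at h3
        injection h3
    · have hlt : ∀ k, (∃ a, Lj j k = .A a) → ((j.succAbove k : Fin (m + 2)) : ℕ) < m + 1 := by
        rintro k ⟨a, hk⟩
        rcases hent (j.succAbove k) with ⟨t', h1, h2⟩ | ⟨h4, h1⟩
        · have h3 : Lj j k = .T t' := h1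
          rw [hk] at h3
          exact absurd h3 (by simp)
        · exact h4
      intro k hk k' hk' hkk
      have e1 := hlt k hk
      have e2 := hlt k' hk'
      have e3 := congrArg Fin.val hkk
      simp only [Fin.val_ofNat, Nat.mod_eq_of_lt e1, Nat.mod_eq_of_lt e2] at e3
      exact Fin.succAbove_right_injective (Fin.ext e3)
  have h1 := HasReg.sum D hD Finset.univ
    (fun (j : Fin (m + 2)) x => (-1) ^ (j : ℕ) * D.Idet (Lj j) x)
    (fun (j : Fin (m + 2)) => (-1) ^ (j : ℕ) * D.Jv (Lj j))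
    (fun j _ => HasReg.smul D (hreg j) ((-1) ^ (j : ℕ)))
  have h2 : ∀ x ∈ D.X, ∑ j : Fin (m + 2), (-1) ^ (j : ℕ) * D.Idet (Lj j) x = 0 := by
    intro x hx
    have h3 := det_cocycle (n := m + 1) (fun i => D.σ i x) (fun j i => D.row (M j) x i) ?_
    · exact h3
    · intro j
      rcases hent j with ⟨t, h4, h5⟩ | ⟨_, h4⟩
      · have : M j = .T t := h4
        rw [this]
        exact row_sum D hD t h5 x hx
      · have : M j = .A (A (Fin.ofNat (m + 1) j)) := h4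
        rw [this]
        apply row_sum'
        intro h0
        have h6 := hdir.low x hx (Fin.ofNat (m + 1) j)
        rw [h0, norm_zero] at h6
        linarith
  have h3 := HasReg.congr D h1 h2
  exact HasReg.unique D h3 (HasReg.zero D)

end H55P
end

-- from Lib.H55P.R8
section

open NumberField IsDedekindDomain

namespace H55P

open H55N
open H55B (g)

variable {F : Type} [Field F] [NumberField F] [IQ F] {K : Type} [Field K] [NumberField K] [Algebra F K] {m : ℕ}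

/-! Chunk R8 (M). The T labels. On X: Idet(T t_j)(x) = det(t_j(i)) conj(N x)/prod_j Q_{t_j}(x) (columns: conj(σ_i x); rows: 1/Q). conj N/prod_j Q_{t_j} is Good with
weight bl: it is a product over j of conj(σ_j x)/Q_{t_j}(x), i.e. Good with weights sz^(-1) (as in R4: B9, gs_le_gl). So
HasReg (conj N/prod Q) (Bv w G t) by reg_of_good; Jv_T: HasReg.smul, Jv_eq (HasReg.congr).
Bv_cont: for t in a compact set a <= t <= b all bounds are uniform (parameter P = set of such t in good_row): |G D(conj N/prod Q_{t_j})(x)| <= C prod_k (1+|Tr(A_k x)|)^(-3),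
summable, each term continuous in t (Q_t(y) > 0 for y in X): continuousOn_tsum on the open sets {a < t < b}, every point of the positive set has such a neighbourhood.
Jv_A: Idet(A A_k)(x) = det(σ_i(A_k)) prod_k Tr(A_k x)^(-1), the last product is Good with weight bl (good_tr, Good.prod). -/

theorem r8_Q_pos (D : Ctx F K m) (hE : Emb F D.σ) (t : Fin (m + 1) → ℝ) (ht : ∀ i, 0 < t i)
    (x : 𝓞 K) (hx : x ≠ 0) : 0 < D.Q t x := by
  obtain ⟨i0, hi0⟩ := Finite.exists_min t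
  obtain ⟨c, hc, h⟩ := Q_low D hE (t i0) (ht i0)
  have h1 := h t hi0 x hx
  have h2 := D.sz_pos x
  have h3 : 0 < c * D.sz x ^ 2 := by positivity
  linarith

/-- The function conj N / prod Q. -/
noncomputable def r8h (D : Ctx F K m) (t : Fin (m + 1) → Fin (m + 1) → ℝ) (x : 𝓞 K) : ℂ :=
  (starRingEnd ℂ) (D.N x) / ∏ j, (D.Q (t j) x : ℂ)

theorem r8_factor (D : Ctx F K m) (hD : D.Ok) (A : Fin (m + 1) → K)
    (w : Fin (m + 1) × Fin 2 → 𝓞 K) (hdir : D.Dirs A w) {P : Type}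
    (t : P → Fin (m + 1) → ℝ) (a b : ℝ) (ha : 0 < a) (ht : ∀ q i, a ≤ t q i ∧ t q i ≤ b)
    (k : Fin (m + 1)) :
    Good D.X w (D.gl A) (fun (_ : P) x => (1 + ‖D.Tr (A k) x‖)⁻¹)
      (fun q x => (starRingEnd ℂ) (D.σ k x) / (D.Q (t q) x : ℂ)) := by
  have h0 : (0 : 𝓞 K) ∉ D.X := fun h => D.X_ne hD.ne h rfl
  have hX := R2_stab D A w hdir
  have hgs : ∀ (i : Fin (m + 1) × Fin 2), ∀ x ∈ D.X, 0 ≤ D.gs i x :=
    fun _ x _ => (inv_pos.mpr (D.sz_pos x)).le
  have hgl : ∀ (i : Fin (m + 1) × Fin 2), ∀ x ∈ D.X, 0 ≤ D.gl A i x :=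
    fun i x _ => R2_gl_nonneg D A i x
  have h1 := good_row (P := P) D hD.emb w D.X hX h0 t a b ha ht k
  have h2 := Good.smul h1 hgs (fun _ x _ => (inv_pos.2 (D.sz_pos x)).le)
    (fun q => ((t q k : ℝ) : ℂ)⁻¹) a⁻¹ (fun q => by
      rw [norm_inv, Complex.norm_real, Real.norm_eq_abs, abs_of_pos (ha.trans_le (ht q k).1)]
      exact inv_anti₀ ha (ht q k).1)
  obtain ⟨C, hC, hC1, hC2⟩ := gs_le_gl D A
  have h3 : (fun (q : P) (x : 𝓞 K) => (starRingEnd ℂ) (D.σ k x) / (D.Q (t q) x : ℂ)) =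
      fun (q : P) (x : 𝓞 K) => ((t q k : ℝ) : ℂ)⁻¹ * D.row (.T (t q)) x k := by
    funext q x
    show _ = ((t q k : ℝ) : ℂ)⁻¹ * ((starRingEnd ℂ) (D.σ k x) * (t q k) / D.Q (t q) x)
    have : ((t q k : ℝ) : ℂ) ≠ 0 := by exact_mod_cast (ha.trans_le (ht q k).1).ne'
    field_simp
  rw [h3]
  refine Good.mono h2 hgs C hC.le (fun q x _ => ⟨(inv_pos.2 (D.sz_pos x)).le, hC1 x k⟩)
    (fun i x _ => hC2 i x)

theorem r8_good (D : Ctx F K m) (hD : D.Ok) (A : Fin (m + 1) → K)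
    (w : Fin (m + 1) × Fin 2 → 𝓞 K) (hdir : D.Dirs A w) {P : Type}
    (t : P → Fin (m + 1) → Fin (m + 1) → ℝ) (a b : ℝ) (ha : 0 < a)
    (ht : ∀ q j i, a ≤ t q j i ∧ t q j i ≤ b) :
    Good D.X w (D.gl A) (fun (_ : P) x => D.bl A x) (fun q => r8h D (t q)) := by
  have hX := R2_stab D A w hdir
  have h1 := Good.prod hX (sv_gl D A w) Finset.univ
    (fun k (_ : P) x => (1 + ‖D.Tr (A k) x‖)⁻¹)
    (fun k (q : P) x => (starRingEnd ℂ) (D.σ k x) / (D.Q (t q k) x : ℂ))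
    (fun k _ => SV.inv hX (sv_tr (P := P) D A w k))
    (fun k _ => r8_factor D hD A w hdir (fun q => t q k) a b ha (fun q i => ht q k i) k)
  have h2 : (fun (q : P) => r8h D (t q)) = fun (q : P) (x : 𝓞 K) =>
      ∏ k, ((starRingEnd ℂ) (D.σ k x) / (D.Q (t q k) x : ℂ)) := by
    funext q x
    unfold r8h Ctx.N
    rw [Finset.prod_div_distrib, map_prod]
  rw [h2]
  exact h1

theorem r8_idet (D : Ctx F K m) (t : Fin (m + 1) → Fin (m + 1) → ℝ) (x : 𝓞 K) :
    D.Idet (fun j => .T (t j)) x = ((Matrix.det (Matrix.of t) : ℝ) : ℂ) * r8h D t x := by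
  have h1 : ((Matrix.det (Matrix.of t) : ℝ) : ℂ) =
      Matrix.det (Matrix.of fun j i => ((t j i : ℝ) : ℂ)) := by
    have := RingHom.map_det Complex.ofRealHom (Matrix.of t)
    exact this
  have h2 : D.Idet (fun j => .T (t j)) x = Matrix.det (Matrix.of fun j i : Fin (m + 1) =>
      ((D.Q (t j) x : ℂ))⁻¹ * (Matrix.of fun j i : Fin (m + 1) =>
        (starRingEnd ℂ) (D.σ i x) * (Matrix.of fun j i => ((t j i : ℝ) : ℂ)) j i) j i) := by
    unfold Ctx.Idet
    congr 1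
    ext j i
    show (starRingEnd ℂ) (D.σ i x) * (t j i) / D.Q (t j) x =
      ((D.Q (t j) x : ℂ))⁻¹ * ((starRingEnd ℂ) (D.σ i x) * (t j i : ℂ))
    rw [div_eq_inv_mul]
  rw [h2, Matrix.det_mul_column, Matrix.det_mul_row, ← h1]
  unfold r8h Ctx.N
  rw [Finset.prod_inv_distrib, map_prod]
  ring

theorem r8_reg (D : Ctx F K m) (hD : D.Ok) (A : Fin (m + 1) → K)
    (w : Fin (m + 1) × Fin 2 → 𝓞 K) (hdir : D.Dirs A w) (G : 𝓞 K → ℂ) (hG : D.GSpec w G)
    (t : Fin (m + 1) → Fin (m + 1) → ℝ) (ht : ∀ j i, 0 < t j i) :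
    D.HasReg (r8h D t) (D.Bv w G t) := by
  have hex : ∃ a b : ℝ, 0 < a ∧ ∀ j i, a ≤ t j i ∧ t j i ≤ b := by
    obtain ⟨p0, hp0⟩ := Finite.exists_min fun p : Fin (m + 1) × Fin (m + 1) => t p.1 p.2
    obtain ⟨p1, hp1⟩ := Finite.exists_max fun p : Fin (m + 1) × Fin (m + 1) => t p.1 p.2
    exact ⟨t p0.1 p0.2, t p1.1 p1.2, ht _ _, fun j i => ⟨hp0 (j, i), hp1 (j, i)⟩⟩
  obtain ⟨a, b, ha, hab⟩ := hex
  have h1 := r8_good D hD A w hdir (fun (_ : Unit) => t) a b ha (fun _ => hab)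
  exact (reg_of_good D hD A w hdir G hG _ h1).2

theorem reg_T (D : Ctx F K m) (hD : D.Ok) (A : Fin (m + 1) → K) (w : Fin (m + 1) × Fin 2 → 𝓞 K)
    (hdir : D.Dirs A w) (G : 𝓞 K → ℂ) (hG : D.GSpec w G) (t : Fin (m + 1) → Fin (m + 1) → ℝ)
    (ht : ∀ j i, 0 < t j i) :
    D.Jv (fun j => .T (t j)) = ((Matrix.det (Matrix.of t) : ℝ) : ℂ) * D.Bv w G t := by
  apply Jv_eq
  refine HasReg.congr D (HasReg.smul D (r8_reg D hD A w hdir G hG t ht)
    ((Matrix.det (Matrix.of t) : ℝ) : ℂ)) fun x _ => ?_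
  exact (r8_idet D t x).symm

theorem r8_cont (D : Ctx F K m) (hE : Emb F D.σ) (y : 𝓞 K) (hy : y ≠ 0) :
    ContinuousOn (fun t : Fin (m + 1) → Fin (m + 1) → ℝ => r8h D t y)
      {t | ∀ j i, 0 < t j i} := by
  unfold r8h
  apply ContinuousOn.div continuousOn_const
  · apply Continuous.continuousOn
    apply continuous_finsetProd
    intro j _
    apply Complex.continuous_ofReal.comp
    unfold Ctx.Q
    fun_prop
  · intro t ht
    rw [Finset.prod_ne_zero_iff]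
    intro j _
    exact_mod_cast (r8_Q_pos D hE (t j) (ht j) y hy).ne'

theorem r8_stab (D : Ctx F K m) (A : Fin (m + 1) → K) (w : Fin (m + 1) × Fin 2 → 𝓞 K)
    (hdir : D.Dirs A w) (T : Finset (Fin (m + 1) × Fin 2)) (x : 𝓞 K) (hx : x ∈ D.X) :
    x - ∑ i ∈ T, w i ∈ D.X :=
  D.X_sub hx (D.I.sum_mem fun i _ => hdir.mem i)

theorem r8_contOn (D : Ctx F K m) (hD : D.Ok) (A : Fin (m + 1) → K)
    (w : Fin (m + 1) × Fin 2 → 𝓞 K) (hdir : D.Dirs A w) (G : 𝓞 K → ℂ) (hG : D.GSpec w G)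
    (a b : ℝ) (ha : 0 < a) :
    ContinuousOn (D.Bv w G) {t | ∀ j i, a < t j i ∧ t j i < b} := by
  set P : Type := {t : Fin (m + 1) → Fin (m + 1) → ℝ // ∀ j i, a < t j i ∧ t j i < b} with hP
  obtain ⟨C, hC⟩ := r8_good D hD A w hdir (fun q : P => q.1) a b ha
    (fun q j i => ⟨(q.2 j i).1.le, (q.2 j i).2.le⟩)
  obtain ⟨CG, hCG⟩ := hG.1
  have h1 : (D.Bv w G) = fun t => ∑' x : D.X, G x * Dif w Finset.univ (r8h D t) x := rfl
  rw [h1]
  apply continuousOn_tsum (u := fun x : D.X => (|CG| * |C|) *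
      (D.bl A x * ∏ i : Fin (m + 1) × Fin 2, D.gl A i x))
  · intro x
    apply ContinuousOn.mul continuousOn_const
    unfold Dif
    apply continuousOn_finsetSum
    intro T _
    apply ContinuousOn.mul continuousOn_const
    refine (r8_cont D hD.emb _ (D.X_ne hD.ne (r8_stab D A w hdir T x x.2))).mono ?_
    intro t ht j i
    exact ha.trans (ht j i).1
  · exact (R2_summable D hD A w hdir).mul_left _
  · intro x t ht
    rw [norm_mul]
    have hp : 0 ≤ ∏ i : Fin (m + 1) × Fin 2, D.gl A i x :=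
      Finset.prod_nonneg fun i _ => R2_gl_nonneg D A i x
    have h2 : ‖Dif w Finset.univ (r8h D t) (x : 𝓞 K)‖ ≤
        |C| * (D.bl A x * ∏ i : Fin (m + 1) × Fin 2, D.gl A i x) := by
      refine (hC ⟨t, ht⟩ Finset.univ x x.2).trans ?_
      rw [mul_assoc]
      exact mul_le_mul_of_nonneg_right (le_abs_self C) (mul_nonneg (R2_bl_nonneg D A x) hp)
    calc ‖G x‖ * ‖Dif w Finset.univ (r8h D t) (x : 𝓞 K)‖
        ≤ |CG| * (|C| * (D.bl A x * ∏ i : Fin (m + 1) × Fin 2, D.gl A i x)) :=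
          mul_le_mul ((hCG x).trans (le_abs_self _)) h2 (norm_nonneg _) (abs_nonneg _)
      _ = _ := by ring

theorem Bv_cont (D : Ctx F K m) (hD : D.Ok) (A : Fin (m + 1) → K) (w : Fin (m + 1) × Fin 2 → 𝓞 K)
    (hdir : D.Dirs A w) (G : 𝓞 K → ℂ) (hG : D.GSpec w G) :
    ContinuousOn (D.Bv w G) {t | ∀ j i, 0 < t j i} := by
  intro t ht
  have ht' : ∀ j i, 0 < t j i := ht
  obtain ⟨p0, hp0⟩ := Finite.exists_min fun p : Fin (m + 1) × Fin (m + 1) => t p.1 p.2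
  obtain ⟨p1, hp1⟩ := Finite.exists_max fun p : Fin (m + 1) × Fin (m + 1) => t p.1 p.2
  set a : ℝ := t p0.1 p0.2 / 2 with ha
  set b : ℝ := t p1.1 p1.2 + 1 with hb
  have ha0 : 0 < a := by
    have := ht' p0.1 p0.2
    positivity
  have hmem : t ∈ {t : Fin (m + 1) → Fin (m + 1) → ℝ | ∀ j i, a < t j i ∧ t j i < b} := by
    intro j i
    have h1 : t p0.1 p0.2 ≤ t j i := hp0 (j, i)
    have h2 : t j i ≤ t p1.1 p1.2 := hp1 (j, i)
    have h3 := ht' p0.1 p0.2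
    constructor <;> [rw [ha]; rw [hb]] <;> linarith
  have hopen : IsOpen {t : Fin (m + 1) → Fin (m + 1) → ℝ | ∀ j i, a < t j i ∧ t j i < b} := by
    have : {t : Fin (m + 1) → Fin (m + 1) → ℝ | ∀ j i, a < t j i ∧ t j i < b} =
        ⋂ j, ⋂ i, ({t : Fin (m + 1) → Fin (m + 1) → ℝ | a < t j i} ∩
          {t : Fin (m + 1) → Fin (m + 1) → ℝ | t j i < b}) := by
      ext t
      simp
    rw [this]
    refine isOpen_iInter_of_finite fun j => isOpen_iInter_of_finite fun i => ?_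
    exact (isOpen_lt continuous_const (by fun_prop)).inter
      (isOpen_lt (by fun_prop) continuous_const)
  exact ((r8_contOn D hD A w hdir G hG a b ha0).continuousAt
    (hopen.mem_nhds hmem)).continuousWithinAt

set_option maxHeartbeats 400000 in
theorem Jv_A (D : Ctx F K m) (hD : D.Ok) (A : Fin (m + 1) → K) (w : Fin (m + 1) × Fin 2 → 𝓞 K)
    (hdir : D.Dirs A w) : ∃ S : ℂ,
      D.Jv (fun k => .A (A k)) = Matrix.det (Matrix.of fun k i => D.σ i (A k)) * S ∧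
      Filter.Tendsto (fun R : ℝ => ∑' x : D.X, D.g x * (∏ k, (D.Tr (A k) x)⁻¹) *
        (D.pcut A R x : ℂ)) Filter.atTop (nhds S) := by
  have hX := R2_stab D A w hdir
  obtain ⟨G, hG⟩ := gspec_exists D hD A w hdir
  have h1 : Good D.X w (D.gl A) (fun (_ : Unit) x => D.bl A x)
      (fun _ (x : 𝓞 K) => ∏ k, (D.Tr (A k) x)⁻¹) :=
    Good.prod hX (sv_gl D A w) Finset.univ
      (fun k (_ : Unit) x => (1 + ‖D.Tr (A k) x‖)⁻¹)
      (fun k (_ : Unit) x => (D.Tr (A k) x)⁻¹)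
      (fun k _ => SV.inv hX (sv_tr (P := Unit) D A w k))
      (fun k _ => good_tr (P := Unit) D A w hdir k)
  have h4 := pcut_of_good D hD A w hdir G hG (fun x : 𝓞 K => ∏ k, (D.Tr (A k) x)⁻¹) h1
  have h2 := (reg_of_good D hD A w hdir G hG (fun x : 𝓞 K => ∏ k, (D.Tr (A k) x)⁻¹) h1).2
  refine ⟨∑' x : D.X, G x * Dif w Finset.univ (fun x : 𝓞 K => ∏ k, (D.Tr (A k) x)⁻¹) x,
    ?_, h4⟩
  have h5 := HasReg.smul D h2 (Matrix.det (Matrix.of fun k i : Fin (m + 1) => D.σ i (A k)))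
  apply Jv_eq
  refine HasReg.congr D h5 fun x _ => ?_
  symm
  have h3 : D.Idet (fun k => .A (A k)) x = Matrix.det (Matrix.of fun k i : Fin (m + 1) =>
      (D.Tr (A k) x)⁻¹ * (Matrix.of fun k i : Fin (m + 1) => D.σ i (A k)) k i) := by
    unfold Ctx.Idet
    congr 1
    ext k i
    show D.σ i (A k) / D.Tr (A k) x = (D.Tr (A k) x)⁻¹ * D.σ i (A k)
    rw [div_eq_inv_mul]
  rw [h3, Matrix.det_mul_column]
  ring

end H55P
end

-- from Lib.H55P.CN
section

open NumberField IsDedekindDomain MeasureTheory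

namespace H55P

open H55N
open H55B (g)

variable {F : Type} [Field F] [NumberField F] [IQ F] {K : Type} [Field K] [NumberField K] [Algebra F K] {m : ℕ}

/-! Chunk Z1 (M). The value. lm = D.lm u, J = D.Jv, τ z = D.act (uu u z); J (τ z l) = J l (uu_act, Jv_act). For N >= 1 put Lin_N a = T (tt lm (a/N)) and
Fl a = T (tt lm a); Lin_N (a + N z) = τ z (Lin_N a) since tt lm (x + z) i = tt lm x i * |σ_i u^z|^2 (uu_act), and the same for a -> Fl (a/N) (integer division,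
Int.add_mul_ediv_left). (1) CN_eq with N = m+1, L = A o L, L' = Lin_(m+1): hcoc by prism_cocycle with A_k = L(kv a π k) and w' from hdirs. So CN (m+1) J (A o L) = CN (m+1) J Lin_(m+1).
(2) For every N >= 1: CN N J Lin_N = CN N J (Fl o (./N)) by CN_eq, hcoc by prism_cocycle with the given A, w (second alternative in hL), and = CN 1 J Fl by CN_floor (Jv_degenerate).
(3) So CN N J Lin_N does not depend on N; by reg_T it is the sum in riemann (B = D.Bv w G, Bv_cont, lm_sum) whose limit is m! Delta int; the limit of a constant sequence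
(tendsto_nhds_unique, for N >= 1 eventually). -/

/-- The labels on a line. -/
noncomputable def Z1_Lin (D : Ctx F K m) (u : Fin m → (𝓞 K)ˣ) (N : ℕ) (a : Fin m → ℤ) : Lab K m :=
  .T (tt (D.lm u) fun k => (a k : ℝ) / N)

/-- The integral labels. -/
noncomputable def Z1_Fl (D : Ctx F K m) (u : Fin m → (𝓞 K)ˣ) (a : Fin m → ℤ) : Lab K m :=
  .T (tt (D.lm u) fun k => (a k : ℝ))

theorem Z1_tt (D : Ctx F K m) (u : Fin m → (𝓞 K)ˣ) (hu : D.UOk u) (x : Fin m → ℝ) (z : Fin m → ℤ) :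
    (Lab.T (tt (D.lm u) fun k => x k + (z k : ℝ)) : Lab K m) =
      D.act (uu u z) (.T (tt (D.lm u) x)) := by
  have h := (uu_act D u hu z).2.2
  show Lab.T _ = Lab.T fun i => ‖D.σ i ((uu u z : 𝓞 K) : K)‖ ^ 2 * tt (D.lm u) x i
  congr 1
  funext i
  rw [h i]
  unfold tt
  rw [← Real.exp_add, ← Finset.sum_add_distrib]
  congr 1
  refine Finset.sum_congr rfl fun j _ => ?_
  ring

theorem Z1_Lin_add (D : Ctx F K m) (u : Fin m → (𝓞 K)ˣ) (hu : D.UOk u) (N : ℕ) (hN : 0 < N)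
    (a z : Fin m → ℤ) : Z1_Lin D u N (a + (N : ℤ) • z) = D.act (uu u z) (Z1_Lin D u N a) := by
  unfold Z1_Lin
  rw [← Z1_tt D u hu]
  congr 2
  funext k
  have hN' : (N : ℝ) ≠ 0 := by exact_mod_cast hN.ne'
  simp only [Pi.add_apply, Pi.smul_apply, smul_eq_mul]
  push_cast
  field_simp

theorem Z1_Fl_add (D : Ctx F K m) (u : Fin m → (𝓞 K)ˣ) (hu : D.UOk u) (N : ℕ) (hN : 0 < N)
    (a z : Fin m → ℤ) : (Z1_Fl D u fun k => (a + (N : ℤ) • z) k / (N : ℤ)) =
      D.act (uu u z) (Z1_Fl D u fun k => a k / (N : ℤ)) := by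
  unfold Z1_Fl
  rw [← Z1_tt D u hu]
  congr 2
  funext k
  have hN' : (N : ℤ) ≠ 0 := by exact_mod_cast hN.ne'
  simp only [Pi.add_apply, Pi.smul_apply, smul_eq_mul]
  rw [Int.add_mul_ediv_left _ _ hN']
  push_cast
  ring

theorem Z1_tt_pos (lm : Fin (m + 1) → Fin m → ℝ) (z : Fin m → ℝ) (i : Fin (m + 1)) :
    0 < tt lm z i := Real.exp_pos _

theorem CN_value (D : Ctx F K m) (hD : D.Ok) (u : Fin m → (𝓞 K)ˣ) (hu : D.UOk u)
    (A : Fin (m + 1) → K) (w : Fin (m + 1) × Fin 2 → 𝓞 K) (hdir : D.Dirs A w) (G : 𝓞 K → ℂ)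
    (hG : D.GSpec w G) (L : (Fin m → ℤ) → K)
    (hequi : ∀ a z : Fin m → ℤ, L (a + ((m + 1 : ℕ) : ℤ) • z) = ((uu u z : 𝓞 K) : K) * L a)
    (hdirs : ∀ (a : Fin m → Fin (m + 1)) (π : Equiv.Perm (Fin m)),
      ∃ w', D.Dirs (fun k : Fin (m + 1) => L (kv (fun k => ((a k : ℕ) : ℤ)) π k)) w') :
    CN (m + 1) D.Jv (fun a => .A (L a)) = (m.factorial : ℂ) * ((Delta (D.lm u) : ℝ) : ℂ) *
      ∫ z in Set.Icc (0 : Fin m → ℝ) 1, D.Bv w G (fun _ => tt (D.lm u) z) := by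
  have hJ : ∀ (z : Fin m → ℤ) (l : Fin (m + 1) → Lab K m),
      D.Jv (fun j => D.act (uu u z) (l j)) = D.Jv l := fun z l =>
    Jv_act D (uu u z) (uu_act D u hu z).1 (uu_act D u hu z).2.1 l
  have h1 : CN (m + 1) D.Jv (fun a => .A (L a)) = CN (m + 1) D.Jv (Z1_Lin D u (m + 1)) := by
    refine CN_eq (m + 1) (Nat.succ_pos m) D.Jv (fun a => .A (L a)) (Z1_Lin D u (m + 1))
      (fun z => D.act (uu u z)) hJ ?_ (fun a z => Z1_Lin_add D u hu (m + 1) (Nat.succ_pos m) a z) ?_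
    · intro a z
      show Lab.A (L (a + ((m + 1 : ℕ) : ℤ) • z)) = Lab.A (((uu u z : 𝓞 K) : K) * L a)
      rw [hequi]
    · intro a π i hi
      obtain ⟨w', hw'⟩ := hdirs a π
      exact prism_cocycle D hD _ w' hw' (fun a => .A (L a)) (Z1_Lin D u (m + 1)) _
        (fun k => Or.inl rfl) (fun k _ => ⟨_, rfl, Z1_tt_pos _ _⟩) i hi
  have h2 : ∀ N : ℕ, 0 < N → CN N D.Jv (Z1_Lin D u N) = CN 1 D.Jv (Z1_Fl D u) := by
    intro N hN
    rw [← CN_floor N hN D.Jv (Jv_degenerate D) (Z1_Fl D u)]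
    refine CN_eq N hN D.Jv (Z1_Lin D u N) (fun a => Z1_Fl D u fun k => a k / (N : ℤ))
      (fun z => D.act (uu u z)) hJ (fun a z => Z1_Lin_add D u hu N hN a z)
      (fun a z => Z1_Fl_add D u hu N hN a z) ?_
    intro a π i hi
    exact prism_cocycle D hD A w hdir (Z1_Lin D u N) (fun a => Z1_Fl D u fun k => a k / (N : ℤ)) _
      (fun k => Or.inr ⟨_, rfl, Z1_tt_pos _ _⟩) (fun k _ => ⟨_, rfl, Z1_tt_pos _ _⟩) i hi
  rw [h1, h2 _ (Nat.succ_pos m)]
  have h3 := riemann m (D.lm u) (lm_sum D u hu) (D.Bv w G) (Bv_cont D hD A w hdir G hG)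
  refine tendsto_nhds_unique ?_ h3
  refine (tendsto_const_nhds (x := CN 1 D.Jv (Z1_Fl D u))).congr' ?_
  filter_upwards [Filter.eventually_gt_atTop 0] with N hN
  rw [← h2 N hN]
  unfold CN
  refine Finset.sum_congr rfl fun a _ => Finset.sum_congr rfl fun π _ => ?_
  congr 1
  exact reg_T D hD A w hdir G hG _ fun j i => Z1_tt_pos _ _ _

end H55P
end

-- from Lib.H55P.N2
section

open NumberField IsDedekindDomain

namespace H55P

open H55N
open H55B (g)

variable {F : Type} [Field F] [NumberField F] [IQ F] {K : Type} [Field K] [NumberField K]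
  [Algebra F K] {m : ℕ}

/-! Chunk PN2 (M), PORT of Lib/H55R/D11.lean (cube_bdd), with Ctx F K m, Emb F and the files H55P/U3, U4, B2 in place of H55N. -/

theorem pn2_dif {M : Type} [AddCommGroup M] (w : M) (h : M → ℂ) (x : M) :
    Dif (fun _ : Unit => -w) Finset.univ h x = h x - h (x + w) := by
  unfold Dif
  have h1 : (Finset.univ : Finset Unit).powerset = {∅, {()}} := by decide
  rw [h1, Finset.sum_pair (by decide)]
  simp only [Finset.card_empty, pow_zero, Finset.sum_empty, sub_zero, one_mul,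
    Finset.card_singleton, pow_one, Finset.sum_singleton, sub_neg_eq_add]
  ring

theorem cube_bddF (D : Ctx F K m)
    (hE : Emb F D.σ) (h0 : D.c₀ ∉ D.I) (c : Ideal (𝓞 K)) (hc : c ≠ ⊥) (hcI : IsCoprime D.I c)
    (a b : ℝ) (ha : 0 < a) :
    ∃ C : ℝ, ∀ t : Fin (m + 1) → ℝ, (∀ i, a ≤ t i ∧ t i ≤ b) → ∀ s ∈ Set.Ioc (3 / 2 : ℝ) (5 / 2),
      ‖∑' x : D.X, H55R.wt c (x : 𝓞 K) * ((‖D.fs t (s : ℂ) (x : 𝓞 K)‖ : ℝ) : ℂ)‖ ≤ C := by
  classical
  have hfin : Finite (𝓞 K ⧸ c) := Ideal.finiteQuotientOfFreeOfNeBot c hc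
  have hft := Fintype.ofFinite (𝓞 K ⧸ c)
  have hq : Fintype.card (𝓞 K ⧸ c) = Ideal.absNorm c := by
    rw [Ideal.absNorm_apply, Submodule.cardQuot_apply, Nat.card_eq_fintype_card]
  have hr : ∀ k : 𝓞 K ⧸ c, ∃ r ∈ D.I, Ideal.Quotient.mk c r = k := by
    intro k
    obtain ⟨y, rfl⟩ := Ideal.Quotient.mk_surjective k
    obtain ⟨i, hi, j, hj, hij⟩ := Ideal.isCoprime_iff_exists.1 hcI
    refine ⟨i * y, D.I.mul_mem_right _ hi, ?_⟩
    rw [Ideal.Quotient.eq]
    have h1 : i * y - y = -(j * y) := by linear_combination y * hij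
    rw [h1]
    exact c.neg_mem (c.mul_mem_right _ hj)
  choose r hrI hrk using hr
  choose Ck hCk0 hCk using fun k => U4_bound (ι := Unit) D hE D.I h0 (fun _ => -r k)
    (fun _ => D.I.neg_mem (hrI k)) a b ha (3 / 2) (5 / 2) (by norm_num)
  obtain ⟨e, he⟩ : ∃ e : ℝ, e = U4_e m (Fintype.card Unit) (3 / 2) := ⟨_, rfl⟩
  have he2 : 2 * (m + 1 : ℝ) < e := by
    rw [he]
    unfold U4_e
    rw [Fintype.card_unit]
    push_cast
    linarith
  have hsz := sum_sz D hE e he2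
  -- the bijection
  let Y : Set (𝓞 K) := {x | x ∈ D.X ∧ x ∈ c}
  let E : Y × (𝓞 K ⧸ c) → D.X := fun p => ⟨(p.1 : 𝓞 K) + r p.2, D.X_add p.1.2.1 (hrI p.2)⟩
  have hmk : ∀ y : Y, Ideal.Quotient.mk c (y : 𝓞 K) = 0 := fun y =>
    Ideal.Quotient.eq_zero_iff_mem.2 y.2.2
  have hE' : Function.Bijective E := by
    constructor
    · rintro ⟨y, k⟩ ⟨y', k'⟩ h
      have h1 : (y : 𝓞 K) + r k = (y' : 𝓞 K) + r k' := congrArg Subtype.val h
      have h2 : k = k' := by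
        have h3 := congrArg (Ideal.Quotient.mk c) h1
        rwa [map_add, map_add, hmk, hmk, hrk, hrk, zero_add, zero_add] at h3
      subst h2
      have h3 : y = y' := Subtype.ext (add_right_cancel h1)
      rw [h3]
    · rintro ⟨x, hx⟩
      have h1 : x - r (Ideal.Quotient.mk c x) ∈ c := by
        rw [← Ideal.Quotient.eq, hrk]
      refine ⟨(⟨x - r (Ideal.Quotient.mk c x), D.X_sub hx (hrI _), h1⟩, Ideal.Quotient.mk c x), ?_⟩
      apply Subtype.ext
      show x - r (Ideal.Quotient.mk c x) + r (Ideal.Quotient.mk c x) = x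
      ring
  let E' : Y × (𝓞 K ⧸ c) ≃ D.X := Equiv.ofBijective E hE'
  have hwt : ∀ p : Y × (𝓞 K ⧸ c), H55R.wt c ((E p : 𝓞 K)) =
      if p.2 = 0 then 1 - (Ideal.absNorm c : ℂ) else 1 := by
    rintro ⟨y, k⟩
    have h1 : (y : 𝓞 K) + r k ∈ c ↔ k = 0 := by
      rw [← Ideal.Quotient.eq_zero_iff_mem, map_add, hmk, hrk, zero_add]
    show (if (y : 𝓞 K) + r k ∈ c then 1 - (Ideal.absNorm c : ℂ) else 1) = _
    by_cases h : k = 0
    · rw [if_pos (h1.2 h), if_pos h]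
    · rw [if_neg (fun h' => h (h1.1 h')), if_neg h]
  refine ⟨(∑ k, (Ck k + Ck 0)) * ∑' x : 𝓞 K, D.sz x ^ (-e), ?_⟩
  intro t ht s hs
  obtain ⟨hs1, hs2⟩ := hs
  have hsum := fs_summable D hE h0 t (fun i => ha.trans_le (ht i).1) (s : ℂ)
    (by rw [Complex.ofReal_re]; exact hs1)
  let H : 𝓞 K → ℝ := fun x => ‖D.fs t (s : ℂ) x‖
  have hdiff : ∀ k, ∀ y : Y, |H ((y : 𝓞 K) + r k) - H y| ≤ Ck k * D.sz (y : 𝓞 K) ^ (-e) := by
    intro k y
    have h1 := hCk k t ht (s : ℂ) (by rw [Complex.ofReal_re]; exact hs1.le)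
      (by rw [Complex.norm_real, Real.norm_of_nonneg (by linarith)]; exact hs2) y y.2.1
    rw [pn2_dif, ← he] at h1
    refine le_trans ?_ h1
    rw [norm_sub_rev]
    exact abs_norm_sub_norm_le _ _
  have hS : Summable fun x : D.X => H55R.wt c (x : 𝓞 K) * ((H (x : 𝓞 K) : ℝ) : ℂ) := by
    refine Summable.of_norm_bounded (hsum.mul_left (1 + (Ideal.absNorm c : ℝ))) fun x => ?_
    rw [norm_mul, Complex.norm_real, Real.norm_of_nonneg (norm_nonneg _)]
    refine mul_le_mul_of_nonneg_right ?_ (norm_nonneg _)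
    unfold H55R.wt
    split_ifs
    · refine (norm_sub_le _ _).trans ?_
      rw [NormOneClass.norm_one, Complex.norm_natCast]
    · rw [NormOneClass.norm_one]
      have : (0 : ℝ) ≤ Ideal.absNorm c := Nat.cast_nonneg _
      linarith
  have hS2 : Summable fun p : Y × (𝓞 K ⧸ c) => H55R.wt c ((E' p : D.X) : 𝓞 K) *
      ((H ((E' p : D.X) : 𝓞 K) : ℝ) : ℂ) := (Equiv.summable_iff E').2 hS
  have h1 : ∑' x : D.X, H55R.wt c (x : 𝓞 K) * ((H (x : 𝓞 K) : ℝ) : ℂ) =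
      ∑' y : Y, ∑ k, ((H ((y : 𝓞 K) + r k) - H ((y : 𝓞 K) + r 0) : ℝ) : ℂ) := by
    rw [← Equiv.tsum_eq E', hS2.tsum_prod]
    refine tsum_congr fun y => ?_
    rw [tsum_fintype]
    have h2 : ∀ k : 𝓞 K ⧸ c, H55R.wt c ((E' (y, k) : D.X) : 𝓞 K) * ((H ((E' (y, k) : D.X) : 𝓞 K) : ℝ) : ℂ) =
        ((H ((y : 𝓞 K) + r k) : ℝ) : ℂ) -
          if k = 0 then (Ideal.absNorm c : ℂ) * ((H ((y : 𝓞 K) + r 0) : ℝ) : ℂ) else 0 := by
      intro k
      have h3 := hwt (y, k)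
      have h4 : H55R.wt c ((E' (y, k) : D.X) : 𝓞 K) = if k = 0 then 1 - (Ideal.absNorm c : ℂ) else 1 := h3
      rw [h4]
      have h5 : ((E' (y, k) : D.X) : 𝓞 K) = (y : 𝓞 K) + r k := rfl
      rw [h5]
      by_cases h : k = 0
      · rw [if_pos h, if_pos h, h]
        ring
      · rw [if_neg h, if_neg h]
        ring
    rw [Finset.sum_congr rfl fun k _ => h2 k, Finset.sum_sub_distrib, Finset.sum_ite_eq',
      if_pos (Finset.mem_univ _)]
    push_cast
    rw [Finset.sum_sub_distrib, Finset.sum_const, Finset.card_univ, hq, nsmul_eq_mul]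
  have hbd : ∀ y : Y, ‖∑ k, ((H ((y : 𝓞 K) + r k) - H ((y : 𝓞 K) + r 0) : ℝ) : ℂ)‖ ≤
      (∑ k, (Ck k + Ck 0)) * D.sz (y : 𝓞 K) ^ (-e) := by
    intro y
    rw [Finset.sum_mul]
    refine (norm_sum_le _ _).trans (Finset.sum_le_sum fun k _ => ?_)
    rw [Complex.norm_real, Real.norm_eq_abs, add_mul]
    have h2 := hdiff k y
    have h3 := hdiff 0 y
    rw [abs_le] at h2 h3 ⊢
    constructor <;> linarith [h2.1, h2.2, h3.1, h3.2]
  have hszY : Summable fun y : Y => D.sz (y : 𝓞 K) ^ (-e) :=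
    hsz.comp_injective Subtype.val_injective
  have hszY' := hszY.mul_left (∑ k, (Ck k + Ck 0))
  have hC0 : 0 ≤ ∑ k, (Ck k + Ck 0) := Finset.sum_nonneg fun k _ => add_nonneg (hCk0 k) (hCk0 0)
  calc ‖∑' x : D.X, H55R.wt c (x : 𝓞 K) * ((‖D.fs t (s : ℂ) (x : 𝓞 K)‖ : ℝ) : ℂ)‖
      = ‖∑' y : Y, ∑ k, ((H ((y : 𝓞 K) + r k) - H ((y : 𝓞 K) + r 0) : ℝ) : ℂ)‖ := by rw [← h1]
    _ ≤ ∑' y : Y, (∑ k, (Ck k + Ck 0)) * D.sz (y : 𝓞 K) ^ (-e) :=
        tsum_of_norm_bounded hszY'.hasSum hbd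
    _ = (∑ k, (Ck k + Ck 0)) * ∑' y : Y, D.sz (y : 𝓞 K) ^ (-e) := tsum_mul_left
    _ ≤ (∑ k, (Ck k + Ck 0)) * ∑' x : 𝓞 K, D.sz x ^ (-e) := by
        refine mul_le_mul_of_nonneg_left ?_ hC0
        exact hsz.tsum_subtype_le _ _ (fun x => Real.rpow_nonneg (D.sz_pos x).le _)

end H55P
end
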