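import Mathlib
import Pool.Agent.Lib.H1M.PP.D_H55C_Defs
import Pool.Agent.Lib.H1M.PP.M005
import Pool.Agent.Lib.H1M.PP.M008
import Pool.Agent.Lib.H1M.PP.M009
import Pool.Agent.Lib.H1M.PP.M010
import Pool.Agent.Lib.H1M.PP.M014
import Pool.Agent.Lib.H1M.PP.M016
import Pool.Agent.Lib.H1M.PP.M029
import Pool.Agent.Lib.H1M.PP.M032
import Pool.Agent.Lib.H1M.PP.M033
import Pool.Agent.Lib.H1M.PP.M037

/-! Merged copies (to shorten the build) of Lib.H13E.Q2, Lib.H55K.G6, Lib.H13E.Q3, Lib.H13E.V1, Lib.H55D.Q3, Lib.H55D.Q4, Lib.H13S.MU, Lib.H13S.QR, Lib.H55K.SMU, Lib.H55K.SCH, Lib.H55K.SCO, Lib.H55K.SDI, Lib.H55K.G4C, Lib.H55K.G5B, Lib.H55K.G5C, Lib.H55K.G5D, Lib.H55K.G5E, Lib.H55K.SKR. -/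

-- from Lib.H13E.Q2
section

open NumberField IsDedekindDomain

namespace H13E

open H55B H35T

variable {K₀ K : Type} [Field K₀] [NumberField K₀] [Field K] [NumberField K] [Algebra F K] [Algebra K₀ K]

/-! Chunk Q2 (M): decomposition in K/K₀ of a prime w' of K₀ not containing 3. G = Gal(K/K₀) = {1, c}. norm_mod3: the residue field has q = l^f elements, l prime,
l in w'; l <> 3. Let w be a prime of K above w' and phi a Frobenius element at w (IsArithFrobAt.exists_of_isInvariant, compare H55B.G5.dec, with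
K₀ in place of F): phi y = y^q mod w for all y in 𝓞 K. Let z be om in 𝓞 K; z - z^2 = z (1 - z) is not in w (it divides 3). c is not in the inertia
group (c z - z = z^2 - z), so the ramification index is 1 and e f g = 2 gives f g = 2 (see H55C.A4 or
H55B.G5: ncard_primesOver_mul_ramificationIdxIn_mul_inertiaDegIn, card_inertia_eq_ramificationIdxIn). q = 1 mod 3: phi z = z^q = z mod w, so phi = 1
(c z = z^2), y^q = y for all y in the residue field of w, which has q^f elements: f = 1 (H55B.G5_pow_all), g = 2. q = 2 mod 3: phi z = z^2 mod w, phi = c, not in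
the inertia group, so f is not 1 (otherwise y^q = y in the residue field and c y = y mod w for all y): f = 2, g = 1. absNorm w = q^f (absNorm_inertia-like,
H55B.F4 or Ideal.absNorm_eq_pow_inertiaDeg). Existence of w: primesOver is not empty. -/

theorem q2_norm3 (w' : HeightOneSpectrum (𝓞 K₀)) [Finite (𝓞 K₀ ⧸ w'.asIdeal)]
    (h3 : (3 : 𝓞 K₀) ∉ w'.asIdeal) : ¬ 3 ∣ Nat.card (𝓞 K₀ ⧸ w'.asIdeal) := by
  intro hd
  have hm := w'.isMaximal
  let : Field (𝓞 K₀ ⧸ w'.asIdeal) := Ideal.Quotient.field _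
  have : Fact (Nat.Prime 3) := ⟨Nat.prime_three⟩
  obtain ⟨x, hx⟩ := exists_prime_addOrderOf_dvd_card' (G := 𝓞 K₀ ⧸ w'.asIdeal) 3 hd
  have h1 : 3 • x = 0 := by
    rw [← hx]
    exact addOrderOf_nsmul_eq_zero x
  have hx0 : x ≠ 0 := by
    rintro rfl
    rw [addOrderOf_zero] at hx
    omega
  rw [nsmul_eq_mul] at h1
  rcases mul_eq_zero.1 h1 with h2 | h2
  · apply h3
    rw [← Ideal.Quotient.eq_zero_iff_mem, map_ofNat]
    exact_mod_cast h2
  · exact hx0 h2

theorem norm_mod3 (w' : HeightOneSpectrum (𝓞 K₀)) (h3 : (3 : 𝓞 K₀) ∉ w'.asIdeal) :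
    Ideal.absNorm w'.asIdeal % 3 = 1 ∨ Ideal.absNorm w'.asIdeal % 3 = 2 := by
  have hm := w'.isMaximal
  have hfin : Finite (𝓞 K₀ ⧸ w'.asIdeal) := inferInstance
  have h1 := q2_norm3 w' h3
  have h2 : Ideal.absNorm w'.asIdeal = Nat.card (𝓞 K₀ ⧸ w'.asIdeal) := rfl
  rw [h2]
  omega

/-- the third root of unity in the ring of integers -/
theorem q2_om3 {R : Type*} [CommRing R] (ψ : O →+* R) : ψ om ^ 3 = 1 := by
  have h1 : (om : O) ^ 3 = 1 := by
    linear_combination (om - 1) * om_rel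
  rw [← map_pow, h1, map_one]

/-- the parts which are common to both cases -/
theorem q2_main (hQ : Quad K₀ K) (w' : HeightOneSpectrum (𝓞 K₀)) (h3 : (3 : 𝓞 K₀) ∉ w'.asIdeal)
    (w : HeightOneSpectrum (𝓞 K)) (hw : w'.asIdeal = w.asIdeal.under (𝓞 K₀)) :
    ∃ f : ℕ, (w'.asIdeal.primesOver (𝓞 K)).ncard * f = 2 ∧
      Ideal.absNorm w.asIdeal = Ideal.absNorm w'.asIdeal ^ f ∧
      (Ideal.absNorm w'.asIdeal % 3 = 1 → f = 1) ∧ (Ideal.absNorm w'.asIdeal % 3 = 2 → f = 2) := by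
  classical
  have hG := quad_galois hQ
  obtain ⟨c, hc1, hcO, hcc, hall, hfix⟩ := exists_c hQ
  have hcard : Nat.card (K ≃ₐ[K₀] K) = 2 := by
    rw [IsGalois.card_aut_eq_finrank, hQ.rank]
  have hl : w.asIdeal.LiesOver w'.asIdeal := ⟨hw⟩
  have hvm := w'.isMaximal
  have hwm := w.isMaximal
  have hwp := w.isPrime
  have hvp := w'.isPrime
  let : Field (𝓞 K₀ ⧸ w'.asIdeal) := Ideal.Quotient.field _
  let : Field (𝓞 K ⧸ w.asIdeal) := Ideal.Quotient.field _
  have hfin : Finite (𝓞 K ⧸ w.asIdeal) := inferInstance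
  have hfin2 : Finite (𝓞 K₀ ⧸ w'.asIdeal) := inferInstance
  obtain ⟨φ, hφ0⟩ := IsArithFrobAt.exists_of_isInvariant (𝓞 K₀) (K ≃ₐ[K₀] K) w.asIdeal
  set N := Nat.card (𝓞 K₀ ⧸ w'.asIdeal) with hN
  have hNabs : Ideal.absNorm w'.asIdeal = N := rfl
  have hφ : ∀ y : 𝓞 K, φ • y - y ^ N ∈ w.asIdeal := by
    intro y
    have := hφ0 y
    rw [← hw] at this
    exact this
  have hN1 : 1 < N := Finite.one_lt_card
  -- om
  obtain ⟨z, hz⟩ : ∃ z : 𝓞 K, z = algebraMap O (𝓞 K) om := ⟨_, rfl⟩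
  have hz3 : z ^ 3 = 1 := by
    rw [hz]
    exact q2_om3 _
  have hzr : z ^ 2 + z + 1 = 0 := by
    have h := congrArg (algebraMap O (𝓞 K)) om_rel
    rw [map_add, map_add, map_pow, map_one, map_zero] at h
    rw [hz]
    exact h
  have hzn : z ^ 2 - z ∉ w.asIdeal := by
    intro h
    have h1 : (3 : 𝓞 K) ∈ w.asIdeal := by
      have h2 : (3 : 𝓞 K) = -(z ^ 2 - z) * (z ^ 2 - z) := by
        linear_combination (z ^ 2 - 3 * z + 3) * hzr
      rw [h2]
      exact Ideal.mul_mem_left _ _ h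
    apply h3
    rw [hw, Ideal.mem_comap, map_ofNat]
    exact h1
  have hcz : c • z = z ^ 2 := by
    apply RingOfIntegers.ext
    have h1 : ((c • z : 𝓞 K) : K) = c (z : K) := rfl
    have h2 : (z : K) = algebraMap O K om := by
      rw [hz]
      rfl
    have h4 : ((z ^ 2 : 𝓞 K) : K) = (z : K) ^ 2 := map_pow (algebraMap (𝓞 K) K) z 2
    rw [h1, h4, h2, hcO, cj_om, map_pow]
  have hcI : c ∉ w.asIdeal.inertia (K ≃ₐ[K₀] K) := by
    intro h
    have h1 : c • z - z ∈ w.asIdeal := h z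
    rw [hcz] at h1
    exact hzn h1
  have hI : w.asIdeal.inertia (K ≃ₐ[K₀] K) = ⊥ := by
    rw [eq_bot_iff]
    intro g hg
    rw [Subgroup.mem_bot]
    rcases hall g with h | h
    · exact h
    · rw [h] at hg
      exact absurd hg hcI
  have hcnt := Ideal.ncard_primesOver_mul_card_inertia_mul_finrank (G := K ≃ₐ[K₀] K)
    w'.asIdeal w.asIdeal
  rw [hI, hcard, Subgroup.card_bot, mul_one,
    Ideal.inertiaDeg_eq_of_isMaximal w'.asIdeal w.asIdeal] at hcnt
  have hNf : Nat.card (𝓞 K ⧸ w.asIdeal) =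
      N ^ Module.finrank (𝓞 K₀ ⧸ w'.asIdeal) (𝓞 K ⧸ w.asIdeal) :=
    Module.natCard_eq_pow_finrank
  refine ⟨Module.finrank (𝓞 K₀ ⧸ w'.asIdeal) (𝓞 K ⧸ w.asIdeal), hcnt, ?_, ?_, ?_⟩
  · rw [hNabs, ← hNf]
    rfl
  · intro h1
    rw [hNabs] at h1
    have hzN : z ^ N = z := by
      obtain ⟨r, hr⟩ : ∃ r, N = 3 * r + 1 := ⟨N / 3, by omega⟩
      rw [hr, pow_succ, pow_mul, hz3, one_pow, one_mul]
    have hφ1 : φ = 1 := by
      rcases hall φ with h | h
      · exact h
      · exfalso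
        have h2 := hφ z
        rw [h, hcz, hzN] at h2
        exact hzn h2
    have hpow : ∀ x : 𝓞 K ⧸ w.asIdeal, x ^ N = x := by
      intro x
      obtain ⟨y, rfl⟩ := Ideal.Quotient.mk_surjective x
      rw [← map_pow, Ideal.Quotient.eq]
      have h2 := hφ y
      rw [hφ1, one_smul] at h2
      have h3 := w.asIdeal.neg_mem h2
      rwa [neg_sub] at h3
    have h2 := G5_pow_all _ N hN1 hpow
    rw [hNf] at h2
    have h3 : Module.finrank (𝓞 K₀ ⧸ w'.asIdeal) (𝓞 K ⧸ w.asIdeal) ≤ 1 := by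
      by_contra hcon
      have h4 : N ^ 2 ≤ N ^ Module.finrank (𝓞 K₀ ⧸ w'.asIdeal) (𝓞 K ⧸ w.asIdeal) :=
        Nat.pow_le_pow_right (by omega) (by omega)
      nlinarith
    have h4 : Module.finrank (𝓞 K₀ ⧸ w'.asIdeal) (𝓞 K ⧸ w.asIdeal) ≠ 0 := by
      intro h0
      rw [h0] at hcnt
      omega
    omega
  · intro h1
    rw [hNabs] at h1
    have hzN : z ^ N = z ^ 2 := by
      obtain ⟨r, hr⟩ : ∃ r, N = 3 * r + 2 := ⟨N / 3, by omega⟩
      rw [hr, pow_add, pow_mul, hz3, one_pow, one_mul]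
    have hφc : φ = c := by
      rcases hall φ with h | h
      · exfalso
        have h2 := hφ z
        rw [h, one_smul, hzN] at h2
        have h3 := w.asIdeal.neg_mem h2
        rw [neg_sub] at h3
        exact hzn h3
      · exact h
    have h4 : Module.finrank (𝓞 K₀ ⧸ w'.asIdeal) (𝓞 K ⧸ w.asIdeal) ≠ 1 := by
      intro h5
      apply hcI
      intro y
      have : Fintype (𝓞 K ⧸ w.asIdeal) := Fintype.ofFinite _
      have h6 := FiniteField.pow_card (Ideal.Quotient.mk w.asIdeal y)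
      rw [← Nat.card_eq_fintype_card, hNf, h5, pow_one, ← map_pow, Ideal.Quotient.eq] at h6
      have h7 := hφ y
      rw [hφc] at h7
      have h8 := w.asIdeal.add_mem h7 h6
      rwa [sub_add_sub_cancel] at h8
    have h5 : Module.finrank (𝓞 K₀ ⧸ w'.asIdeal) (𝓞 K ⧸ w.asIdeal) ∣ 2 :=
      Dvd.intro_left _ hcnt
    rcases (Nat.dvd_prime Nat.prime_two).1 h5 with h6 | h6
    · exact absurd h6 h4
    · exact h6

/-- the primes above a prime -/
theorem q2_over (w' : HeightOneSpectrum (𝓞 K₀)) (P : Ideal (𝓞 K)) :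
    P ∈ w'.asIdeal.primesOver (𝓞 K) ↔
      ∃ w : HeightOneSpectrum (𝓞 K), w.asIdeal = P ∧ w'.asIdeal = w.asIdeal.under (𝓞 K₀) := by
  constructor
  · rintro ⟨h1, h2⟩
    have hb : P ≠ ⊥ := Ideal.ne_bot_of_liesOver_of_ne_bot w'.ne_bot P
    exact ⟨⟨P, h1, hb⟩, rfl, h2.over⟩
  · rintro ⟨w, rfl, h⟩
    exact ⟨w.isPrime, ⟨h⟩⟩

theorem split_one (hQ : Quad K₀ K) (w' : HeightOneSpectrum (𝓞 K₀)) (h3 : (3 : 𝓞 K₀) ∉ w'.asIdeal)
    (h : Ideal.absNorm w'.asIdeal % 3 = 1) : ∃ w₁ w₂ : HeightOneSpectrum (𝓞 K), w₁ ≠ w₂ ∧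
      (∀ w : HeightOneSpectrum (𝓞 K), w'.asIdeal = w.asIdeal.under (𝓞 K₀) ↔ w = w₁ ∨ w = w₂) ∧
      Ideal.absNorm w₁.asIdeal = Ideal.absNorm w'.asIdeal ∧
      Ideal.absNorm w₂.asIdeal = Ideal.absNorm w'.asIdeal := by
  have hvm := w'.isMaximal
  obtain ⟨W⟩ := (inferInstance : Nonempty (w'.asIdeal.primesOver (𝓞 K)))
  obtain ⟨w, -, hw⟩ := (q2_over w' W.1).1 W.2
  obtain ⟨f, hf, -, hf1, -⟩ := q2_main hQ w' h3 w hw
  rw [hf1 h, mul_one] at hf
  obtain ⟨P₁, P₂, hne, hP⟩ := Set.ncard_eq_two.1 hf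
  have hP₁ : P₁ ∈ w'.asIdeal.primesOver (𝓞 K) := by rw [hP]; exact Set.mem_insert _ _
  have hP₂ : P₂ ∈ w'.asIdeal.primesOver (𝓞 K) := by
    rw [hP]; exact Set.mem_insert_of_mem _ (Set.mem_singleton _)
  obtain ⟨w₁, hw₁, hu₁⟩ := (q2_over w' P₁).1 hP₁
  obtain ⟨w₂, hw₂, hu₂⟩ := (q2_over w' P₂).1 hP₂
  have hnorm : ∀ v : HeightOneSpectrum (𝓞 K), w'.asIdeal = v.asIdeal.under (𝓞 K₀) →
      Ideal.absNorm v.asIdeal = Ideal.absNorm w'.asIdeal := by
    intro v hv
    obtain ⟨f', -, hf2, hf3, -⟩ := q2_main hQ w' h3 v hv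
    rw [hf2, hf3 h, pow_one]
  refine ⟨w₁, w₂, ?_, ?_, hnorm w₁ hu₁, hnorm w₂ hu₂⟩
  · rintro rfl
    exact hne (hw₁.symm.trans hw₂)
  · intro v
    constructor
    · intro hv
      have h1 : v.asIdeal ∈ w'.asIdeal.primesOver (𝓞 K) := (q2_over w' _).2 ⟨v, rfl, hv⟩
      rw [hP] at h1
      rcases h1 with h1 | h1
      · left
        exact HeightOneSpectrum.ext (h1.trans hw₁.symm)
      · right
        exact HeightOneSpectrum.ext (h1.trans hw₂.symm)
    · rintro (rfl | rfl)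
      · exact hu₁
      · exact hu₂

theorem split_two (hQ : Quad K₀ K) (w' : HeightOneSpectrum (𝓞 K₀)) (h3 : (3 : 𝓞 K₀) ∉ w'.asIdeal)
    (h : Ideal.absNorm w'.asIdeal % 3 = 2) : ∃ w₁ : HeightOneSpectrum (𝓞 K),
      (∀ w : HeightOneSpectrum (𝓞 K), w'.asIdeal = w.asIdeal.under (𝓞 K₀) ↔ w = w₁) ∧
      Ideal.absNorm w₁.asIdeal = Ideal.absNorm w'.asIdeal ^ 2 := by
  have hvm := w'.isMaximal
  obtain ⟨W⟩ := (inferInstance : Nonempty (w'.asIdeal.primesOver (𝓞 K)))
  obtain ⟨w, -, hw⟩ := (q2_over w' W.1).1 W.2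
  obtain ⟨f, hf, hn, -, hf1⟩ := q2_main hQ w' h3 w hw
  rw [hf1 h] at hf hn
  have hg : (w'.asIdeal.primesOver (𝓞 K)).ncard = 1 := by omega
  obtain ⟨P, hP⟩ := Set.ncard_eq_one.1 hg
  refine ⟨w, ?_, hn⟩
  have hwP : w.asIdeal = P := by
    have h1 : w.asIdeal ∈ w'.asIdeal.primesOver (𝓞 K) := (q2_over w' _).2 ⟨w, rfl, hw⟩
    rw [hP] at h1
    exact h1
  intro v
  constructor
  · intro hv
    have h1 : v.asIdeal ∈ w'.asIdeal.primesOver (𝓞 K) := (q2_over w' _).2 ⟨v, rfl, hv⟩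
    rw [hP] at h1
    exact HeightOneSpectrum.ext ((show v.asIdeal = P from h1).trans hwP.symm)
  · rintro rfl
    exact hw

end H13E
end

-- from Lib.H55K.G6
section

/-! # H55K: points of finite order in the reduction -/

open NumberField IsDedekindDomain WeierstrassCurve

namespace H55K

open H55P (IQ embF eF LF Per IsHecke Pt ac Inert Dec Nm)
open H35P (WAB Ker tt)


variable {F : Type} [Field F] [NumberField F] [IQ F] {A B : F} {Om : ℂ} {Ω : Type} [Field Ω] [DecidableEq Ω]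
  [Algebra F Ω] {j : Ω →+* ℂ} {act : 𝓞 F →+* AddMonoid.End (Pt (WAB A B) Ω)} {V : ValuationSubring Ω}

omit [NumberField F] [IQ F] [DecidableEq Ω] in
theorem g6_cong {a b : V} (h : IsLocalRing.residue V a = IsLocalRing.residue V b) :
    V.valuation ((a : Ω) - (b : Ω)) < 1 := by
  have h1 : a - b ∈ IsLocalRing.maximalIdeal V := by
    rw [← IsLocalRing.residue_eq_zero_iff, map_sub, h, sub_self]
  rw [V.valuation_lt_one_iff] at h1
  exact h1

omit [NumberField F] [IQ F] [DecidableEq Ω] in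
theorem g6_fin (L : IntermediateField F Ω) [NumberField L] (V : ValuationSubring Ω) (q : ℕ) (hq : q.Prime)
    (hv : V.valuation (q : Ω) < 1) : ∃ S : Set (IsLocalRing.ResidueField V), S.Finite ∧
      ∀ (z : L) (hz : (z : Ω) ∈ V), IsLocalRing.residue V ⟨z, hz⟩ ∈ S := by
  let f : 𝓞 L →+* V :=
    { toFun := fun a => ⟨((a : L) : Ω), (V.valuation_le_one_iff _).1 (H13S.vw_int L V a)⟩
      map_one' := by
        apply Subtype.ext
        simp
      map_mul' := fun a b => by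
        apply Subtype.ext
        simp
      map_zero' := by
        apply Subtype.ext
        simp
      map_add' := fun a b => by
        apply Subtype.ext
        simp }
  let φ : 𝓞 L →+* IsLocalRing.ResidueField V := (IsLocalRing.residue V).comp f
  have hφ : ∀ a : 𝓞 L, φ a = 0 ↔ V.valuation ((a : L) : Ω) < 1 := by
    intro a
    show IsLocalRing.residue V (f a) = 0 ↔ _
    rw [IsLocalRing.residue_eq_zero_iff, V.valuation_lt_one_iff]
    exact Iff.rfl
  have hq0 : φ (q : 𝓞 L) = 0 := by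
    rw [hφ]
    have e : (((q : 𝓞 L) : L) : Ω) = (q : Ω) := by simp
    rw [e]
    exact hv
  have hle : ∀ a ∈ Ideal.span {(q : 𝓞 L)}, φ a = 0 := by
    intro a ha
    obtain ⟨b, rfl⟩ := Ideal.mem_span_singleton.1 ha
    rw [map_mul, hq0, zero_mul]
  have hne : Ideal.span {(q : 𝓞 L)} ≠ ⊥ := by
    rw [Ne, Ideal.span_singleton_eq_bot]
    exact_mod_cast hq.ne_zero
  have hfin : Finite (𝓞 L ⧸ Ideal.span {(q : 𝓞 L)}) := Ideal.finiteQuotientOfFreeOfNeBot _ hne
  have hr : (Set.range φ).Finite := by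
    have e : Set.range φ = Set.range (Ideal.Quotient.lift (Ideal.span {(q : 𝓞 L)}) φ hle) := by
      ext x
      constructor
      · rintro ⟨a, rfl⟩
        exact ⟨Ideal.Quotient.mk _ a, Ideal.Quotient.lift_mk _ _ _⟩
      · rintro ⟨a, rfl⟩
        obtain ⟨b, rfl⟩ := Ideal.Quotient.mk_surjective a
        exact ⟨b, (Ideal.Quotient.lift_mk _ _ _).symm⟩
    rw [e]
    exact Set.finite_range _
  refine ⟨Set.image2 (fun a b => a / b) (Set.range φ) (Set.range φ), Set.Finite.image2 _ hr hr, ?_⟩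
  intro z hz
  have hex : ∃ x : L, (x : Ω) ∉ V := by
    refine ⟨(q : L)⁻¹, fun h' => ?_⟩
    have e : (((q : L)⁻¹ : L) : Ω) = (q : Ω)⁻¹ := by simp
    rw [e, ← V.valuation_le_one_iff, map_inv₀] at h'
    have hq' : (q : Ω) ≠ 0 := by
      have hL0 : CharZero L := inferInstance
      have hO : CharZero Ω := charZero_of_injective_algebraMap (algebraMap L Ω).injective
      exact_mod_cast hq.ne_zero
    have h2 : 0 < V.valuation (q : Ω) := zero_lt_iff.2 ((map_ne_zero _).2 hq')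
    rw [inv_le_one₀ h2] at h'
    exact not_lt.2 h' hv
  obtain ⟨w, hw⟩ := H13S.exists_below L V hex
  obtain ⟨n, d, hnd⟩ := w.exists_primeCompl_mul_eq_of_integer z ((hw z).1 hz)
  have hd0 : φ (d : 𝓞 L) ≠ 0 := by
    rw [Ne, hφ, H13S.Abv.lt hw]
    intro h'
    exact d.2 ((w.valuation_lt_one_iff_mem _).1 h')
  refine ⟨φ n, ⟨n, rfl⟩, φ (d : 𝓞 L), ⟨_, rfl⟩, ?_⟩
  show φ n / φ (d : 𝓞 L) = _
  rw [div_eq_iff hd0]
  show IsLocalRing.residue V (f n) = IsLocalRing.residue V ⟨z, hz⟩ * IsLocalRing.residue V (f d)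
  rw [← map_mul]
  congr 1
  apply Subtype.ext
  have h3 := congrArg (fun t : L => (t : Ω)) hnd
  exact h3.symm

omit [IQ F] in
/-- Chunk G6 (M). Every point of the reduction has finite order. Suppose n • P is not in Ker for all n ≥ 1. All xc (n • P), yc (n • P) lie in V and in M = F(xc P, yc P), a finite extension of F (Ω is algebraic over F; a number field: NumberField M). The residue field of V ∩ M is finite: if M is not
contained in V then V lies above a prime w of M (H13S.exists_below, VW.lean; Abv.lt), 𝓞 M ⧸ w.asIdeal is finite and every element of V ∩ M is congruent to an element of 𝓞 M modulo V (H13S.in4 / residue classes), or use H13S.qi_res (QI.lean): for x with V(x) ≤ 1 there is k > 0 with V(x^(q^(k m)) - x) < 1 for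
all m, so with a common exponent N = q^K every element of V ∩ M is a root of X^N - X modulo V: finitely many classes. (M in V is impossible: 1/q is in M.) So two points n • P, n' • P, n < n', have coordinates congruent modulo V
(pigeonhole), and (n' - n) • P is in Ker by cls_xy. The coordinates of n • P are in M: Affine.Point.map along M → Ω (the points with coordinates in M form a subgroup), see H55P.fix_iff or pt_open for the style: or argue with M' = a finite extension such that all s fixing M' fix P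
(H55P.pt_open), then they fix n • P, so its coordinates (H55P.ps5_mem). -/
theorem ker_fin [IsAlgClosure F Ω] (hV : GV A B V) (q : ℕ) (hq : q.Prime) (hv : V.valuation (q : Ω) < 1)
    (P : Pt (WAB A B) Ω) : ∃ n : ℕ, 0 < n ∧ Ker V (n • P) := by
  classical
  by_contra hc
  push Not at hc
  have hac : IsAlgClosed Ω := IsAlgClosure.isAlgClosed F
  have hal : Algebra.IsAlgebraic F Ω := IsAlgClosure.isAlgebraic
  have hcz : CharZero Ω := charZero_of_injective_algebraMap (algebraMap F Ω).injective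
  obtain ⟨L, hL, hfix⟩ := H55P.pt_open (WAB A B) P
  have hfd : FiniteDimensional F L := hL
  have hnf : NumberField L := by
    have h1 : FiniteDimensional ℚ L := FiniteDimensional.trans ℚ F L
    exact { to_charZero := inferInstance, to_finiteDimensional := h1 }
  have hfixn : ∀ (n : ℕ), ∀ s ∈ L.fixingSubgroup, ac (WAB A B) s (n • P) = n • P := by
    intro n s hs
    rw [map_nsmul, hfix s hs]
  have hxL : ∀ n : ℕ, xc (n • P) ∈ L := fun n => H55P.ps5_mem L fun s hs => by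
    rw [← xc_ac (WAB A B), hfixn n s hs]
  have hyL : ∀ n : ℕ, yc (n • P) ∈ L := fun n => H55P.ps5_mem L fun s hs => by
    rw [← yc_ac (WAB A B), hfixn n s hs]
  have hk : ∀ n : ℕ, ¬ Ker V ((n + 1) • P) := fun n => hc (n + 1) n.succ_pos
  have hxV : ∀ n : ℕ, xc ((n + 1) • P) ∈ V := fun n =>
    (V.valuation_le_one_iff _).1 (not_ker V (hk n)).2
  have hyV : ∀ n : ℕ, yc ((n + 1) • P) ∈ V := fun n => (V.valuation_le_one_iff _).1 (gv_y hV (hk n))
  obtain ⟨S, hS, hSm⟩ := g6_fin L V q hq hv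
  have hfin : Finite S := hS
  let g : ℕ → S × S := fun n =>
    (⟨IsLocalRing.residue V ⟨xc ((n + 1) • P), hxV n⟩, hSm ⟨_, hxL (n + 1)⟩ (hxV n)⟩,
      ⟨IsLocalRing.residue V ⟨yc ((n + 1) • P), hyV n⟩, hSm ⟨_, hyL (n + 1)⟩ (hyV n)⟩)
  have key : ∀ m n : ℕ, m < n → g m = g n → False := by
    intro m n hmn hg
    have h1 := congrArg (fun z => (z.1 : IsLocalRing.ResidueField V)) hg
    have h2 := congrArg (fun z => (z.2 : IsLocalRing.ResidueField V)) hg
    have h3 := cls_xy hV (hk n) (hk m) (g6_cong h1.symm) (g6_cong h2.symm)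
    have e : (n + 1) • P - (m + 1) • P = (n - m) • P := by
      have e1 : n + 1 = (n - m) + (m + 1) := by omega
      rw [e1, add_nsmul P (n - m) (m + 1)]
      abel
    rw [e] at h3
    exact hc (n - m) (by omega) h3
  obtain ⟨m, n, hmn, hg⟩ := Finite.exists_ne_map_eq_of_infinite g
  rcases lt_or_gt_of_ne hmn with h | h
  · exact key m n h hg
  · exact key n m h hg.symm

end H55K
end

-- from Lib.H13E.Q3
section

open NumberField IsDedekindDomain Polynomial

namespace H13E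

open H55B H35T

/-! Chunk Q3 (M): local factors of E144 over any number field (no roots of unity needed). loc_good0: H35T.good_local for R = adicCompletionIntegers (2, 3 are units of R:
valuation 1; compare H55B.F4 loc_good, H35T.F4), residue field of absNorm w elements (H55B.residue_card); E144 base changed to the completion is
(0,0,0,0,-1); two finite fields with the same number of elements are isomorphic (FiniteField.ringEquivOfCardEq), so the numbers of points agree. count_inert: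
cubing is a bijection of k when 3 does not divide q - 1: the points correspond to y in k. LEF_eq: both local factors are given by loc_good0 with the same q (take k = a residue
field; localEulerFactor is determined by localPolynomial and q = number of elements of the residue field, residue_card). LEF_inert: loc_good0 and count_inert: the local
polynomial is 1 + q X^2; I2_cast_ofPS, I2_map_invOfUnit. -/

theorem q3_unit (K : Type) [Field K] [NumberField K] (w : HeightOneSpectrum (𝓞 K)) (n : ℕ) [n.AtLeastTwo]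
    (h3 : (OfNat.ofNat n : 𝓞 K) ∉ w.asIdeal) : IsUnit (OfNat.ofNat n : w.adicCompletionIntegers K) := by
  rw [← residue_ker K w, RingHom.mem_ker, RingHom.comp_apply, map_ofNat] at h3
  by_contra hcon
  apply h3
  rw [IsLocalRing.residue_eq_zero_iff, IsLocalRing.mem_maximalIdeal]
  exact hcon

theorem q3_count (k k' : Type) [Field k] [Finite k] [Field k'] [Finite k'] (h : Nat.card k = Nat.card k') :
    Nat.card {p : k × k // p.2 ^ 2 = p.1 ^ 3 - 1} = Nat.card {p : k' × k' // p.2 ^ 2 = p.1 ^ 3 - 1} := by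
  classical
  let _ := Fintype.ofFinite k
  let _ := Fintype.ofFinite k'
  have e : k ≃+* k' := FiniteField.ringEquivOfCardEq (by
    rw [← Nat.card_eq_fintype_card, ← Nat.card_eq_fintype_card, h])
  refine Nat.card_congr ((Equiv.prodCongr e.toEquiv e.toEquiv).subtypeEquiv ?_)
  rintro ⟨x, y⟩
  show y ^ 2 = x ^ 3 - 1 ↔ (e y) ^ 2 = (e x) ^ 3 - 1
  rw [← map_pow, ← map_pow, ← map_one e, ← map_sub]
  exact e.injective.eq_iff.symm

theorem loc_good0 (K : Type) [Field K] [NumberField K] (w : HeightOneSpectrum (𝓞 K))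
    (h3 : (3 : 𝓞 K) ∉ w.asIdeal) (h2 : (2 : 𝓞 K) ∉ w.asIdeal) (k : Type) [Field k] [Finite k]
    (hk : Nat.card k = Ideal.absNorm w.asIdeal) :
    ((E144.baseChange K).baseChange (w.adicCompletion K)).localPolynomial
      (w.adicCompletionIntegers K) =
      1 - C ((Ideal.absNorm w.asIdeal : ℤ) - Nat.card {p : k × k // p.2 ^ 2 = p.1 ^ 3 - 1}) * X +
        C (Ideal.absNorm w.asIdeal : ℤ) * X ^ 2 := by
  obtain ⟨hfin, hcard⟩ := residue_card K w
  have hcurve : (E144.baseChange K).baseChange (w.adicCompletion K) = ⟨0, 0, 0, 0, -1⟩ := by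
    ext <;> simp [E144, WeierstrassCurve.baseChange]
  rw [hcurve, good_local (w.adicCompletionIntegers K) (w.adicCompletion K) (q3_unit K w 3 h3)
    (q3_unit K w 2 h2), hcard,
    q3_count (IsLocalRing.ResidueField (w.adicCompletionIntegers K)) k (by rw [hcard, hk])]

theorem count_inert (k : Type) [Field k] [Finite k] (h : Nat.card k % 3 = 2) :
    Nat.card {p : k × k // p.2 ^ 2 = p.1 ^ 3 - 1} = Nat.card k := by
  classical
  let _ := Fintype.ofFinite k
  obtain ⟨m, hm⟩ : ∃ m, Nat.card k = 3 * m + 2 := ⟨Nat.card k / 3, by omega⟩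
  have hpow : ∀ x : k, x ^ (3 * (2 * m + 1)) = x := by
    intro x
    have h1 : x ^ (3 * m + 2) = x := by
      rw [← hm, Nat.card_eq_fintype_card]
      exact FiniteField.pow_card x
    have h2 : 3 * (2 * m + 1) = (3 * m + 2) + (3 * m + 1) := by ring
    rw [h2, pow_add, h1, ← pow_succ']
    exact h1
  refine Nat.card_congr ⟨fun p => p.1.2, fun y => ⟨((y ^ 2 + 1) ^ (2 * m + 1), y), ?_⟩, ?_, ?_⟩
  · show y ^ 2 = ((y ^ 2 + 1) ^ (2 * m + 1)) ^ 3 - 1
    rw [← pow_mul, mul_comm (2 * m + 1) 3, hpow]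
    ring
  · rintro ⟨⟨x, y⟩, hp⟩
    have hp' : y ^ 2 = x ^ 3 - 1 := hp
    apply Subtype.ext
    show ((y ^ 2 + 1) ^ (2 * m + 1), y) = (x, y)
    rw [hp', sub_add_cancel, ← pow_mul, hpow]
  · intro y
    rfl

theorem q3_norm (K : Type) [Field K] [NumberField K] (w : HeightOneSpectrum (𝓞 K)) :
    1 < Ideal.absNorm w.asIdeal := by
  have h1 : Ideal.absNorm w.asIdeal ≠ 1 := by
    rw [Ne, Ideal.absNorm_eq_one_iff]; exact w.isPrime.ne_top
  have h0 : Ideal.absNorm w.asIdeal ≠ 0 := by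
    rw [Ne, Ideal.absNorm_eq_zero_iff]; exact w.ne_bot
  omega

theorem LEF_eq (K K₁ : Type) [Field K] [NumberField K] [Field K₁] [NumberField K₁]
    (w : HeightOneSpectrum (𝓞 K)) (w₁ : HeightOneSpectrum (𝓞 K₁)) (h3 : (3 : 𝓞 K) ∉ w.asIdeal)
    (h2 : (2 : 𝓞 K) ∉ w.asIdeal) (h3' : (3 : 𝓞 K₁) ∉ w₁.asIdeal) (h2' : (2 : 𝓞 K₁) ∉ w₁.asIdeal)
    (hN : Ideal.absNorm w.asIdeal = Ideal.absNorm w₁.asIdeal) : LEF K w = LEF K₁ w₁ := by
  obtain ⟨hfin, hcard⟩ := residue_card K w
  have e1 := loc_good0 K w h3 h2 (IsLocalRing.ResidueField (w.adicCompletionIntegers K)) hcard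
  have e2 := loc_good0 K₁ w₁ h3' h2' (IsLocalRing.ResidueField (w.adicCompletionIntegers K))
    (hcard.trans hN)
  unfold LEF
  rw [WeierstrassCurve.localEulerFactor, WeierstrassCurve.localEulerFactor, hcard,
    (residue_card K₁ w₁).2, WeierstrassCurve.localPowerSeries, WeierstrassCurve.localPowerSeries,
    e1, e2, hN]

theorem LEF_inert (K : Type) [Field K] [NumberField K] (w : HeightOneSpectrum (𝓞 K))
    (h3 : (3 : 𝓞 K) ∉ w.asIdeal) (h2 : (2 : 𝓞 K) ∉ w.asIdeal) (h : Ideal.absNorm w.asIdeal % 3 = 2) :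
    LEF K w = ArithmeticFunction.ofPowerSeries (Ideal.absNorm w.asIdeal)
      ((1 + PowerSeries.C (Ideal.absNorm w.asIdeal : ℂ) * PowerSeries.X ^ 2)⁻¹) := by
  obtain ⟨hfin, hcard⟩ := residue_card K w
  have e1 := loc_good0 K w h3 h2 (IsLocalRing.ResidueField (w.adicCompletionIntegers K)) hcard
  rw [count_inert _ (by rw [hcard]; exact h), hcard, sub_self, map_zero, zero_mul, sub_zero] at e1
  have hP0 : (1 + C (Ideal.absNorm w.asIdeal : ℤ) * X ^ 2 : Polynomial ℤ).coeff 0 = 1 := by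
    simp
  unfold LEF
  rw [WeierstrassCurve.localEulerFactor, hcard, I2_cast_ofPS (q3_norm K w),
    WeierstrassCurve.localPowerSeries, e1, I2_map_invOfUnit _ hP0]
  have e2 : ((Int.castRingHom ℂ) ((Ideal.absNorm w.asIdeal : ℕ) : ℤ) : ℂ) =
      ((Ideal.absNorm w.asIdeal : ℕ) : ℂ) := by simp
  rw [Polynomial.map_add, Polynomial.map_one, Polynomial.map_mul, Polynomial.map_C,
    Polynomial.map_pow, Polynomial.map_X, Polynomial.coe_add, Polynomial.coe_one,
    Polynomial.coe_mul, Polynomial.coe_C, Polynomial.coe_pow, Polynomial.coe_X, e2]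

end H13E
end

-- from Lib.H13E.V1
section

open NumberField IsDedekindDomain

namespace H13E

open H55B H35T
open H55C (chf)

variable {K₀ K : Type} [Field K₀] [NumberField K₀] [Field K] [NumberField K] [Algebra F K] [Algebra K₀ K]

/-! Chunk V1 (M). R_real: R0 = R (e om - 1) is real. conj (R w) = R (conj w) termwise (the sum over x in O is permuted by cj, e_cj; or use the uniqueness of the formula): conj of
1 + w + 3 e x is 1 + conj w + 3 e (cj x). conj (e om - 1) = e om^2 - 1 = -e om^2 (e om - 1). Finally R (e om^2 - 1) = R (e om - 1): by H35T.xw_R or H55B.A2 R w (p(1) - p(w)) = p'(1) and p(w) = 0 for both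
(p (unit * w) = unit^(-2) p w, wp_zero_at). LEF0_exists: w' contains M, so a prime number l = 1 mod 3 with l | M is in w' (a prime v of O containing M is good, as in C0: residue
characteristic l = 7 mod 12), absNorm w' is a power of l, = 1 mod 3; split_one: w₁ has the same norm, contains M; LEF_eq (2 and 3 are not in w', w₁). -/

theorem V1_conj_R (w : ℂ) : (starRingEnd ℂ) (R w) = R ((starRingEnd ℂ) w) := by
  unfold R
  rw [Complex.conj_tsum, ← cj.toEquiv.tsum_eq (fun x : O => ((1 + (starRingEnd ℂ) w + 3 * e x)⁻¹ +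
    (1 - (starRingEnd ℂ) w + 3 * e x)⁻¹ - 2 * (1 + 3 * e x)⁻¹))]
  refine tsum_congr fun x => ?_
  show (starRingEnd ℂ) ((1 + w + 3 * e x)⁻¹ + (1 - w + 3 * e x)⁻¹ - 2 * (1 + 3 * e x)⁻¹) =
    (1 + (starRingEnd ℂ) w + 3 * e (cj x))⁻¹ + (1 - (starRingEnd ℂ) w + 3 * e (cj x))⁻¹ -
      2 * (1 + 3 * e (cj x))⁻¹
  have h2 : (starRingEnd ℂ) (2 : ℂ) = 2 := Complex.conj_ofNat 2
  have h3 : (starRingEnd ℂ) (3 : ℂ) = 3 := Complex.conj_ofNat 3
  simp only [map_add, map_sub, map_mul, map_inv₀, map_one, h2, h3, e_cj]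

theorem V1_notMem {a b : ℤ} (h : ¬ (3 ∣ a ∧ 3 ∣ b)) : e ((a : O) + b * om) ∉ Lam := by
  rw [A1_mem_iff]
  exact A1_not_dvd h

theorem V1_om2 : e om ^ 2 = -1 - e om := by
  have h := congrArg e om_rel
  simp only [map_add, map_pow, map_one, map_zero] at h
  linear_combination h

theorem R_real : (starRingEnd ℂ) (R (e om - 1)) = R (e om - 1) := by
  have hc : (starRingEnd ℂ) (e om - 1) = e om ^ 2 - 1 := by
    rw [map_sub, map_one, ← e_cj, cj_om, map_pow]
  rw [V1_conj_R, hc]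
  have h2 := V1_om2
  have hx0 : xw (e om - 1) = 0 := by
    unfold xw
    rw [wp_zero_at, zero_div]
  have hx : xw (e om ^ 2 - 1) = 0 := by
    have h3 : e om ^ 2 - 1 = -(e om * (e om * (e om - 1))) := by
      have h4 := A0_om_cube
      linear_combination h4
    rw [h3, xw_neg, xw_om, xw_om, hx0, mul_zero, mul_zero]
  have n0 : e om ^ 2 - 1 ∉ Lam := by
    have h := V1_notMem (a := -2) (b := -1) (by omega)
    have e1 : e (((-2 : ℤ) : O) + ((-1 : ℤ) : O) * om) = e om ^ 2 - 1 := by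
      rw [h2, map_add, map_mul, map_intCast, map_intCast]
      push_cast
      ring
    rwa [e1] at h
  have n1 : 1 + (e om ^ 2 - 1) ∉ Lam := by
    have h := V1_notMem (a := -1) (b := -1) (by omega)
    have e1 : e (((-1 : ℤ) : O) + ((-1 : ℤ) : O) * om) = 1 + (e om ^ 2 - 1) := by
      rw [h2, map_add, map_mul, map_intCast]
      push_cast
      ring
    rwa [e1] at h
  have n2 : 1 - (e om ^ 2 - 1) ∉ Lam := by
    have h := V1_notMem (a := 3) (b := 1) (by omega)
    have e1 : e (((3 : ℤ) : O) + ((1 : ℤ) : O) * om) = 1 - (e om ^ 2 - 1) := by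
      rw [h2, map_add, map_mul, map_intCast, map_intCast]
      push_cast
      ring
    rwa [e1] at h
  have h := xw_R (e om ^ 2 - 1) n0 n1 n2
  rw [hx, sub_zero, mul_one] at h
  exact h

theorem V1_prim_norm {x : O} (hx : Prim x) : Nm x % 3 = 1 := by
  obtain ⟨z, hz⟩ := hx
  obtain ⟨a, b, rfl⟩ := exists_repr z
  have h1 : x = ((1 + 3 * a : ℤ) : O) + ((3 * b : ℤ) : O) * om := by
    push_cast
    linear_combination hz
  have h2 := Nm_repr (1 + 3 * a) (3 * b)
  rw [← h1] at h2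
  have h3 : (Nm x : ℤ) = 3 * (2 * a + 3 * a ^ 2 - b - 3 * a * b + 3 * b ^ 2) + 1 := by
    rw [h2]
    ring
  omega

theorem V1_prime_mod3 {v : HeightOneSpectrum O} (hg : Good v) {l : ℕ} (hl : l.Prime)
    (h : (l : O) ∈ v.asIdeal) : l % 3 = 1 := by
  rcases prime_types v hg.2.1 with ⟨r, hr, hr3, hN⟩ | ⟨q, hq, hq3, hv⟩
  · have h1 : (r : O) ∈ v.asIdeal := by
      rw [← hN]
      exact Ideal.absNorm_mem v.asIdeal
    have h2 : (l : ℤ) ∣ (r : ℤ) := (H1_int_mem hl h (r : ℤ)).1 (by exact_mod_cast h1)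
    have h3 : l = r := (Nat.prime_dvd_prime_iff_eq hl hr).1 (by exact_mod_cast h2)
    have h4 : Nm (gen v) = Ideal.absNorm v.asIdeal := by
      rw [(gen_spec v hg.2.1).1]
      rfl
    rw [h3, ← hN, ← h4]
    exact V1_prim_norm (gen_spec v hg.2.1).2
  · exfalso
    have hq2 : q ≠ 2 := by
      rintro rfl
      apply hg.1
      rw [hv]
      exact_mod_cast Ideal.mem_span_singleton_self _
    haveI : Fact q.Prime := ⟨hq⟩
    have h1 := sym_inert v q hq2 (by omega) hv (-1)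
    have h2 : Nm (-1 : O) = 1 := Nm_eq_one.2 isUnit_one.neg
    rw [h2] at h1
    have h3 : legendreSym q ((1 : ℕ) : ℤ) = 1 := by
      rw [Nat.cast_one]
      exact legendreSym.at_one q
    rw [h3] at h1
    unfold sym at h1
    have c2 : ∃ y : O, -1 - y ^ 2 ∈ v.asIdeal := by
      by_contra hcon
      split_ifs at h1
      all_goals first | omega | exact hcon ‹_›
    obtain ⟨y, hy⟩ := c2
    apply hg.2.2
    refine ⟨y, ?_⟩
    have h4 : y ^ 2 + 1 = -(-1 - y ^ 2) := by ring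
    rw [h4]
    exact neg_mem hy

theorem V1_prime_factor {R : Type} [CommRing R] (P : Ideal R) (hP : P.IsPrime) (M : ℕ)
    (hM0 : M ≠ 0) (h : (M : R) ∈ P) : ∃ l : ℕ, l.Prime ∧ l ∣ M ∧ (l : R) ∈ P := by
  induction M using Nat.strong_induction_on with
  | _ M ih =>
    have hM1 : M ≠ 1 := by
      rintro rfl
      rw [Nat.cast_one] at h
      exact hP.ne_top ((Ideal.eq_top_iff_one P).2 h)
    obtain ⟨p, hp, k, hk⟩ := Nat.exists_prime_and_dvd hM1
    rw [hk, Nat.cast_mul] at h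
    rcases hP.mem_or_mem h with h1 | h1
    · exact ⟨p, hp, ⟨k, hk⟩, h1⟩
    · have hk0 : k ≠ 0 := by
        rintro rfl
        exact hM0 (by rw [hk, mul_zero])
      have hlt : k < M := by
        rw [hk]
        have := hp.two_le
        nlinarith [Nat.pos_of_ne_zero hk0]
      obtain ⟨l, hl, hlk, hlP⟩ := ih k hlt hk0 h1
      exact ⟨l, hl, hlk.trans ⟨p, by rw [hk, mul_comm]⟩, hlP⟩

theorem V1_exists_above (l : ℕ) (hl : l.Prime) : ∃ v : HeightOneSpectrum O, (l : O) ∈ v.asIdeal := by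
  have h1 : Ideal.span {(l : O)} ≠ ⊤ := by
    intro h
    rw [Ideal.span_singleton_eq_top] at h
    have h2 := Nm_eq_one.2 h
    have h3 := Nm_repr l 0
    push_cast at h3
    rw [zero_mul, add_zero, h2] at h3
    have h4 : (l : ℤ) ^ 2 = 1 := by linear_combination -h3
    have h5 : l ^ 2 = 1 := by exact_mod_cast h4
    have h6 := hl.two_le
    nlinarith
  obtain ⟨m, hm, hlm⟩ := Ideal.exists_le_maximal _ h1
  have hmem : (l : O) ∈ m := hlm (Ideal.mem_span_singleton_self _)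
  refine ⟨⟨m, hm.isPrime, ?_⟩, hmem⟩
  rintro rfl
  rw [Ideal.mem_bot] at hmem
  exact hl.ne_zero (by exact_mod_cast hmem)

theorem LEF0_exists (hQ : Quad K₀ K) (M : ℕ) (hM : GoodMod (M : O)) (w' : HeightOneSpectrum (𝓞 K₀))
    (h : (M : 𝓞 K₀) ∈ w'.asIdeal) : ∃ w : HeightOneSpectrum (𝓞 K),
      algebraMap O (𝓞 K) (M : O) ∈ w.asIdeal ∧ LEF K₀ w' = LEF K w := by
  have hM0 : M ≠ 0 := by
    rintro rfl
    exact hM.ne_zero (by exact_mod_cast rfl)
  have hgood : ∀ l : ℕ, l.Prime → l ∣ M → l % 3 = 1 := by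
    intro l hl hlM
    obtain ⟨v, hv⟩ := V1_exists_above l hl
    have hMv : (M : O) ∈ v.asIdeal := by
      obtain ⟨k, hk⟩ := hlM
      rw [hk, Nat.cast_mul]
      exact Ideal.mul_mem_right _ _ hv
    exact V1_prime_mod3 (hM.2 v hMv) hl hv
  have hgood2 : ¬ 2 ∣ M := by
    intro h2
    have := hgood 2 Nat.prime_two h2
    omega
  have hgood3 : ¬ 3 ∣ M := by
    intro h3
    have := hgood 3 Nat.prime_three h3
    omega
  have hno : ∀ p : ℕ, p.Prime → ¬ p ∣ M → (p : 𝓞 K₀) ∉ w'.asIdeal := by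
    intro p hp hpM hmem
    have hc : IsCoprime (p : ℤ) (M : ℤ) :=
      Nat.isCoprime_iff_coprime.2 ((Nat.Prime.coprime_iff_not_dvd hp).2 hpM)
    obtain ⟨a, b, hab⟩ := hc
    apply w'.isPrime.ne_top
    rw [Ideal.eq_top_iff_one]
    have h1 : (1 : 𝓞 K₀) = (a : 𝓞 K₀) * (p : 𝓞 K₀) + (b : 𝓞 K₀) * (M : 𝓞 K₀) := by
      exact_mod_cast congrArg (Int.cast : ℤ → 𝓞 K₀) hab.symm
    rw [h1]
    exact add_mem (Ideal.mul_mem_left _ _ hmem) (Ideal.mul_mem_left _ _ h)
  have h3' : (3 : 𝓞 K₀) ∉ w'.asIdeal := by exact_mod_cast hno 3 Nat.prime_three hgood3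
  have h2' : (2 : 𝓞 K₀) ∉ w'.asIdeal := by exact_mod_cast hno 2 Nat.prime_two hgood2
  obtain ⟨l, hl, hlM, hlw⟩ := V1_prime_factor w'.asIdeal w'.isPrime M hM0 h
  have hl3 := hgood l hl hlM
  have hmod : Ideal.absNorm w'.asIdeal % 3 = 1 := by
    haveI : w'.asIdeal.LiesOver (Ideal.span {(l : ℤ)}) := by
      constructor
      have hmax : (Ideal.span {(l : ℤ)}).IsMaximal :=
        PrincipalIdealRing.isMaximal_of_irreducible (Nat.prime_iff_prime_int.1 hl).irreducible
      refine hmax.eq_of_le ?_ ?_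
      · exact (Ideal.IsPrime.comap (algebraMap ℤ (𝓞 K₀))).ne_top
      · rw [Ideal.span_singleton_le_iff_mem]
        show algebraMap ℤ (𝓞 K₀) (l : ℤ) ∈ w'.asIdeal
        simpa using hlw
    rw [Ideal.absNorm_eq_pow_inertiaDeg' w'.asIdeal hl, Nat.pow_mod, hl3, one_pow, Nat.one_mod]
  obtain ⟨w₁, w₂, -, hw, hN, -⟩ := split_one hQ w' h3' hmod
  have hu : w'.asIdeal = w₁.asIdeal.under (𝓞 K₀) := (hw w₁).2 (Or.inl rfl)
  have hmem : ∀ n : ℕ, (n : 𝓞 K) ∈ w₁.asIdeal ↔ (n : 𝓞 K₀) ∈ w'.asIdeal := by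
    intro n
    rw [hu, Ideal.under_def, Ideal.mem_comap, map_natCast]
  refine ⟨w₁, ?_, ?_⟩
  · rw [map_natCast]
    exact (hmem M).2 h
  · refine LEF_eq K₀ K w' w₁ h3' h2' ?_ ?_ hN.symm
    · intro h5
      exact h3' (by exact_mod_cast (hmem 3).1 (by exact_mod_cast h5))
    · intro h5
      exact h2' (by exact_mod_cast (hmem 2).1 (by exact_mod_cast h5))

end H13E
end

-- from Lib.H55D.Q3
section

open NumberField IsDedekindDomain Polynomial

namespace H55D

open H55B H55C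

/-! Chunk Q3 (M): local factors of E27 over any number field, at primes not above 3. COPY of H13E/Q3 with E144 replaced by E27 (y^2 = x^3 - 1 by y^2 + y = x^3; 2 need not be a unit). loc_good0:
H55B.good_local for R = adicCompletionIntegers (3 is a unit of R), residue field of absNorm w elements (residue_card), E27 base changed to the completion is (0,0,1,0,0); two finite fields with the same number of
elements are isomorphic. count_inert: cubing is a bijection of k when q = 2 mod 3: for every y there is exactly one x with x^3 = y^2 + y (also in characteristic 2). LEF_eq: loc_good0 for both with the same q. LEF_inert: the local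
polynomial is 1 + q X^2; I2_cast_ofPS, I2_map_invOfUnit. -/

theorem DQ3_unit (K : Type) [Field K] [NumberField K] (w : HeightOneSpectrum (𝓞 K)) (n : ℕ) [n.AtLeastTwo]
    (h3 : (OfNat.ofNat n : 𝓞 K) ∉ w.asIdeal) : IsUnit (OfNat.ofNat n : w.adicCompletionIntegers K) := by
  rw [← residue_ker K w, RingHom.mem_ker, RingHom.comp_apply, map_ofNat] at h3
  by_contra hcon
  apply h3
  rw [IsLocalRing.residue_eq_zero_iff, IsLocalRing.mem_maximalIdeal]
  exact hcon

theorem DQ3_count (k k' : Type) [Field k] [Finite k] [Field k'] [Finite k'] (h : Nat.card k = Nat.card k') :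
    Nat.card {p : k × k // p.2 ^ 2 + p.2 = p.1 ^ 3} = Nat.card {p : k' × k' // p.2 ^ 2 + p.2 = p.1 ^ 3} := by
  classical
  let _ := Fintype.ofFinite k
  let _ := Fintype.ofFinite k'
  have e : k ≃+* k' := FiniteField.ringEquivOfCardEq (by
    rw [← Nat.card_eq_fintype_card, ← Nat.card_eq_fintype_card, h])
  refine Nat.card_congr ((Equiv.prodCongr e.toEquiv e.toEquiv).subtypeEquiv ?_)
  rintro ⟨x, y⟩
  show y ^ 2 + y = x ^ 3 ↔ (e y) ^ 2 + e y = (e x) ^ 3
  rw [← map_pow, ← map_pow, ← map_add]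
  exact e.injective.eq_iff.symm

theorem loc_good0 (K : Type) [Field K] [NumberField K] (w : HeightOneSpectrum (𝓞 K))
    (h3 : (3 : 𝓞 K) ∉ w.asIdeal) (k : Type) [Field k] [Finite k]
    (hk : Nat.card k = Ideal.absNorm w.asIdeal) :
    ((E27.baseChange K).baseChange (w.adicCompletion K)).localPolynomial
      (w.adicCompletionIntegers K) =
      1 - C ((Ideal.absNorm w.asIdeal : ℤ) - Nat.card {p : k × k // p.2 ^ 2 + p.2 = p.1 ^ 3}) * X +
        C (Ideal.absNorm w.asIdeal : ℤ) * X ^ 2 := by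
  obtain ⟨hfin, hcard⟩ := residue_card K w
  have hcurve : (E27.baseChange K).baseChange (w.adicCompletion K) = ⟨0, 0, 1, 0, 0⟩ := by
    ext <;> simp [E27, WeierstrassCurve.baseChange]
  rw [hcurve, H55B.good_local (w.adicCompletionIntegers K) (w.adicCompletion K) (DQ3_unit K w 3 h3),
    hcard, DQ3_count (IsLocalRing.ResidueField (w.adicCompletionIntegers K)) k (by rw [hcard, hk])]

theorem count_inert (k : Type) [Field k] [Finite k] (h : Nat.card k % 3 = 2) :
    Nat.card {p : k × k // p.2 ^ 2 + p.2 = p.1 ^ 3} = Nat.card k := by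
  classical
  let _ := Fintype.ofFinite k
  obtain ⟨m, hm⟩ : ∃ m, Nat.card k = 3 * m + 2 := ⟨Nat.card k / 3, by omega⟩
  have hpow : ∀ x : k, x ^ (3 * (2 * m + 1)) = x := by
    intro x
    have h1 : x ^ (3 * m + 2) = x := by
      rw [← hm, Nat.card_eq_fintype_card]
      exact FiniteField.pow_card x
    have h2 : 3 * (2 * m + 1) = (3 * m + 2) + (3 * m + 1) := by ring
    rw [h2, pow_add, h1, ← pow_succ']
    exact h1
  refine Nat.card_congr ⟨fun p => p.1.2, fun y => ⟨((y ^ 2 + y) ^ (2 * m + 1), y), ?_⟩, ?_, ?_⟩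
  · show y ^ 2 + y = ((y ^ 2 + y) ^ (2 * m + 1)) ^ 3
    rw [← pow_mul, mul_comm (2 * m + 1) 3, hpow]
  · rintro ⟨⟨x, y⟩, hp⟩
    have hp' : y ^ 2 + y = x ^ 3 := hp
    apply Subtype.ext
    show ((y ^ 2 + y) ^ (2 * m + 1), y) = (x, y)
    rw [hp', ← pow_mul, hpow]
  · intro y
    rfl

theorem DQ3_norm (K : Type) [Field K] [NumberField K] (w : HeightOneSpectrum (𝓞 K)) :
    1 < Ideal.absNorm w.asIdeal := by
  have h1 : Ideal.absNorm w.asIdeal ≠ 1 := by
    rw [Ne, Ideal.absNorm_eq_one_iff]; exact w.isPrime.ne_top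
  have h0 : Ideal.absNorm w.asIdeal ≠ 0 := by
    rw [Ne, Ideal.absNorm_eq_zero_iff]; exact w.ne_bot
  omega

theorem LEF_eq (K K₁ : Type) [Field K] [NumberField K] [Field K₁] [NumberField K₁]
    (w : HeightOneSpectrum (𝓞 K)) (w₁ : HeightOneSpectrum (𝓞 K₁)) (h3 : (3 : 𝓞 K) ∉ w.asIdeal)
    (h3' : (3 : 𝓞 K₁) ∉ w₁.asIdeal) (hN : Ideal.absNorm w.asIdeal = Ideal.absNorm w₁.asIdeal) :
    LEF K w = LEF K₁ w₁ := by
  obtain ⟨hfin, hcard⟩ := residue_card K w
  have e1 := loc_good0 K w h3 (IsLocalRing.ResidueField (w.adicCompletionIntegers K)) hcard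
  have e2 := loc_good0 K₁ w₁ h3' (IsLocalRing.ResidueField (w.adicCompletionIntegers K))
    (hcard.trans hN)
  unfold LEF
  rw [WeierstrassCurve.localEulerFactor, WeierstrassCurve.localEulerFactor, hcard,
    (residue_card K₁ w₁).2, WeierstrassCurve.localPowerSeries, WeierstrassCurve.localPowerSeries,
    e1, e2, hN]

theorem LEF_inert (K : Type) [Field K] [NumberField K] (w : HeightOneSpectrum (𝓞 K))
    (h3 : (3 : 𝓞 K) ∉ w.asIdeal) (h : Ideal.absNorm w.asIdeal % 3 = 2) :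
    LEF K w = ArithmeticFunction.ofPowerSeries (Ideal.absNorm w.asIdeal)
      ((1 + PowerSeries.C (Ideal.absNorm w.asIdeal : ℂ) * PowerSeries.X ^ 2)⁻¹ : PowerSeries ℂ) := by
  obtain ⟨hfin, hcard⟩ := residue_card K w
  have e1 := loc_good0 K w h3 (IsLocalRing.ResidueField (w.adicCompletionIntegers K)) hcard
  rw [count_inert _ (by rw [hcard]; exact h), hcard, sub_self, map_zero, zero_mul, sub_zero] at e1
  have hP0 : (1 + C (Ideal.absNorm w.asIdeal : ℤ) * X ^ 2 : Polynomial ℤ).coeff 0 = 1 := by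
    simp
  unfold LEF
  rw [WeierstrassCurve.localEulerFactor, hcard, I2_cast_ofPS (DQ3_norm K w),
    WeierstrassCurve.localPowerSeries, e1, I2_map_invOfUnit _ hP0]
  have e2 : ((Int.castRingHom ℂ) ((Ideal.absNorm w.asIdeal : ℕ) : ℤ) : ℂ) =
      ((Ideal.absNorm w.asIdeal : ℕ) : ℂ) := by simp
  rw [Polynomial.map_add, Polynomial.map_one, Polynomial.map_mul, Polynomial.map_C,
    Polynomial.map_pow, Polynomial.map_X, Polynomial.coe_add, Polynomial.coe_one,
    Polynomial.coe_mul, Polynomial.coe_C, Polynomial.coe_pow, Polynomial.coe_X, e2]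

end H55D
end

-- from Lib.H55D.Q4
section

open NumberField IsDedekindDomain

namespace H55D

open H55B H55C

variable {K₀ K : Type} [Field K₀] [NumberField K₀] [Field K] [NumberField K] [Algebra F K] [Algebra K₀ K]

/-! Chunk Q4 (M): the inert case. COPY/ADAPT of H13E/Q4 (q4_norm_mod, q4_below, q4_gen are about O and can be imported or copied; gen v instead of the Frobenius eigenvalue fe v of E144: for E27
the local factor at w is (1 - gen(v)^f X)(1 - conj gen(v)^f X) by H55B.loc_good, f = inertiaDeg). w' inert in K (absNorm w' = 2 mod 3: H13E.split_two), w above w', v below w in O: v = (l), l = 2 mod 3 a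
rational prime (l = 2 allowed), gen v = -l, l^f' = absNorm w', absNorm w = absNorm w'^2; f is odd, so gen(v)^f = -(absNorm w'). So LEF K w is given by 1/(1 + q Y)^2, Y = X at q^2, q = absNorm w', and
LEF K₀ w' = 1/(1 + q X^2) (LEF_inert); ofPowerSeries (q^2) P(X) = ofPowerSeries q P(X^2) (I2_subst.. / as in H13E). -/

theorem DQ4_norm_mod (v : HeightOneSpectrum O) (h3 : (3 : O) ∉ v.asIdeal) :
    Ideal.absNorm v.asIdeal % 3 = 1 := by
  obtain ⟨z, hz⟩ := (gen_spec v h3).2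
  obtain ⟨a, b, rfl⟩ := exists_repr z
  have h1 : gen v = ((1 + 3 * a : ℤ) : O) + ((3 * b : ℤ) : O) * om := by
    push_cast
    linear_combination hz
  have h2 := Nm_repr (1 + 3 * a) (3 * b)
  rw [← h1] at h2
  have h3' : (Nm (gen v) : ℤ) = 3 * (2 * a + 3 * a ^ 2 - (1 + 3 * a) * b + 3 * b ^ 2) + 1 := by
    rw [h2]; ring
  rw [absNorm_gen v h3]
  omega

/-- the prime of the Eisenstein integers below an inert prime -/
theorem DQ4_below (v : HeightOneSpectrum O) (h3 : (3 : O) ∉ v.asIdeal) (q f : ℕ)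
    (hq : q % 3 = 2) (h : Ideal.absNorm v.asIdeal ^ f = q ^ 2) :
    ∃ l : ℕ, l.Prime ∧ l % 3 = 2 ∧ v.asIdeal = Ideal.span {(l : O)} ∧ l ^ f = q := by
  rcases prime_types v h3 with ⟨l, hl, -, hN⟩ | ⟨l, hl, hl3, hv⟩
  · exfalso
    have h1 := DQ4_norm_mod v h3
    rw [hN] at h1 h
    have h2 : q ∣ l ^ f := by rw [h]; exact dvd_pow_self q (by norm_num)
    obtain ⟨j, -, hj⟩ := (Nat.dvd_prime_pow hl).1 h2
    rw [hj, Nat.pow_mod, h1, one_pow] at hq
    omega
  · refine ⟨l, hl, hl3, hv, ?_⟩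
    have h1 := Nm_repr l 0
    push_cast at h1
    rw [zero_mul, add_zero] at h1
    have h2 : (Nm (l : O) : ℤ) = (l ^ 2 : ℕ) := by rw [h1]; push_cast; ring
    have h4 : Ideal.absNorm v.asIdeal = l ^ 2 := by
      rw [hv]
      exact_mod_cast h2
    rw [h4, ← pow_mul, mul_comm, pow_mul] at h
    exact Nat.pow_left_injective (n := 2) (by norm_num) h

theorem DQ4_gen (v : HeightOneSpectrum O) (h3 : (3 : O) ∉ v.asIdeal) (l : ℕ) (hl3 : l % 3 = 2)
    (hv : v.asIdeal = Ideal.span {(l : O)}) : gen v = -(l : O) := by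
  apply Prim.eq_of_associated (gen_spec v h3).2
  · obtain ⟨m, hm⟩ : ∃ m : ℕ, l + 1 = 3 * m := ⟨(l + 1) / 3, by omega⟩
    refine ⟨-(m : O), ?_⟩
    have h4 := congrArg (fun z : ℕ => (z : O)) hm
    push_cast at h4
    linear_combination -h4
  · apply Associated.neg_right
    rw [← Ideal.span_singleton_eq_span_singleton, ← (gen_spec v h3).1, hv]

theorem DQ4_inert (hQ : H13E.Quad K₀ K) (w' : HeightOneSpectrum (𝓞 K₀)) (h3 : (3 : 𝓞 K₀) ∉ w'.asIdeal)
    (h : Ideal.absNorm w'.asIdeal % 3 = 2)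
    (w : HeightOneSpectrum (𝓞 K)) (hw : w'.asIdeal = w.asIdeal.under (𝓞 K₀))
    (v : HeightOneSpectrum O) (hv : v.asIdeal = w.asIdeal.under O) :
    e (gen v) ^ (w.asIdeal.inertiaDeg O) = -(Ideal.absNorm w'.asIdeal : ℂ) ∧
      Ideal.absNorm v.asIdeal ^ (w.asIdeal.inertiaDeg O) = Ideal.absNorm w'.asIdeal ^ 2 := by
  obtain ⟨w₁, hw₁, hN⟩ := H13E.split_two hQ w' h3 h
  have hww : w = w₁ := (hw₁ w).1 hw
  subst hww
  have h3v : (3 : O) ∉ v.asIdeal := by
    intro hc
    apply h3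
    rw [hw, Ideal.mem_comap, map_ofNat]
    rw [hv, Ideal.mem_comap, map_ofNat] at hc
    exact hc
  have hpow : Ideal.absNorm v.asIdeal ^ (w.asIdeal.inertiaDeg O) = Ideal.absNorm w'.asIdeal ^ 2 := by
    rw [← absNorm_inertia K w v hv, hN]
  refine ⟨?_, hpow⟩
  obtain ⟨l, hl, hl3, hvl, hlf⟩ := DQ4_below v h3v _ _ h hpow
  have hfodd : Odd (w.asIdeal.inertiaDeg O) := by
    rw [← Nat.not_even_iff_odd]
    rintro ⟨j, hj⟩
    rw [← hlf, hj, ← two_mul, pow_mul, Nat.pow_mod] at h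
    have h5 : l ^ 2 % 3 = 1 := by rw [Nat.pow_mod, hl3]
    rw [h5, one_pow] at h
    omega
  rw [DQ4_gen v h3v l hl3 hvl, map_neg, map_natCast, hfodd.neg_pow, ← hlf]
  push_cast
  rfl

theorem LEF_two (hQ : H13E.Quad K₀ K) (w' : HeightOneSpectrum (𝓞 K₀)) (h3 : (3 : 𝓞 K₀) ∉ w'.asIdeal)
    (h : Ideal.absNorm w'.asIdeal % 3 = 2) (w : HeightOneSpectrum (𝓞 K))
    (hw : w'.asIdeal = w.asIdeal.under (𝓞 K₀)) : LEF K w = LEF K₀ w' * LEF K₀ w' := by
  obtain ⟨hfe, hpow⟩ := DQ4_inert hQ w' h3 h w hw (I2_under w) rfl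
  have h3w : (3 : 𝓞 K) ∉ w.asIdeal := by
    intro hc
    apply h3
    rw [hw, Ideal.mem_comap, map_ofNat]
    exact hc
  have hf0 : w.asIdeal.inertiaDeg O ≠ 0 := by
    intro h0
    rw [h0, pow_zero] at hpow
    have h1 := DQ3_norm K₀ w'
    have h4 : 1 < Ideal.absNorm w'.asIdeal ^ 2 := Nat.one_lt_pow (by norm_num) h1
    omega
  have hconj : (starRingEnd ℂ) (e (gen (I2_under w))) ^ (w.asIdeal.inertiaDeg O) =
      -(Ideal.absNorm w'.asIdeal : ℂ) := by
    rw [← map_pow, hfe, map_neg, map_natCast]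
  have h5 : LEF K w = ArithmeticFunction.ofPowerSeries (Ideal.absNorm (I2_under w).asIdeal)
       ((1 - PowerSeries.C (e (gen (I2_under w)) ^ (w.asIdeal.inertiaDeg O)) *
          PowerSeries.X ^ (w.asIdeal.inertiaDeg O))⁻¹ *
        (1 - PowerSeries.C ((starRingEnd ℂ) (e (gen (I2_under w))) ^ (w.asIdeal.inertiaDeg O)) *
          PowerSeries.X ^ (w.asIdeal.inertiaDeg O))⁻¹) :=
    I2_local_good w h3w (I2_under w) rfl _ rfl hf0
  rw [h5, ← I2_ofPS_pow hf0, hfe, hconj, hpow,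
    I2_ofPS_pow (k := 2) (by norm_num), map_mul, LEF_inert K₀ w' h3 h]
  have e1 : (1 - PowerSeries.C (-(Ideal.absNorm w'.asIdeal : ℂ)) * PowerSeries.X ^ 2 : PowerSeries ℂ) =
      1 + PowerSeries.C (Ideal.absNorm w'.asIdeal : ℂ) * PowerSeries.X ^ 2 := by
    rw [map_neg]
    ring
  rw [e1]

end H55D
end

-- from Lib.H13S.MU
section

open NumberField IsDedekindDomain

namespace H13S

open H55P H28G H55B

variable {Ω : Type} [Field Ω] [DecidableEq Ω] [Algebra F Ω] [IsAlgClosure F Ω]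

/-- Chunk MU (S). In the inert case L contains the l-th roots of unity. gi_gen: a point X ≠ 0 in Tor π = Tor (cj π); he.nondeg gives T with e X T ≠ 1: a primitive l-th root of unity (l prime). s in L.fixingSubgroup: s (e X T) = e (ac s X) (ac s T) = e X T
(hL). So e X T lies in L (fixed field of L.fixingSubgroup: InfiniteGalois.fixedField_fixingSubgroup; Ω/F is Galois, characteristic 0), and ζ is a power of it. -/
theorem mu_mem {π : O} {l : ℕ} (hl : l.Prime) (hπ : Prime π) (h3 : Prim π) (hin : cj π = π)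
    {e : P27 Ω → P27 Ω → Ω} (he : Pairing π l e) {L : IntermediateField F Ω} (hL : IsTF π L)
    (ζ : Ω) (hζ : ζ ^ l = 1) : ζ ∈ L := by
  obtain ⟨-, X, hX, -, hX0⟩ := gi_gen (Ω := Ω) π hπ h3
  have hXne : X ≠ 0 := by
    intro h
    have h1 : act (1 : O) X = 0 := by rw [h, map_zero]
    exact hπ.not_isUnit (isUnit_of_dvd_one ((hX0 1).1 h1))
  have hX' : X ∈ Tor (cj π) Ω := by rw [hin]; exact hX
  obtain ⟨T, hT, hTe⟩ : ∃ T ∈ Tor π Ω, e X T ≠ 1 := by
    by_contra h
    push Not at h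
    exact hXne (he.nondeg X hX' h)
  have hprim : IsPrimitiveRoot (e X T) l := by
    have : Fact l.Prime := ⟨hl⟩
    have h1 := orderOf_eq_prime (he.root X hX' T hT) hTe
    rw [← h1]
    exact IsPrimitiveRoot.orderOf _
  have : NeZero l := ⟨hl.ne_zero⟩
  obtain ⟨i, -, hi⟩ := hprim.eq_pow_of_pow_eq_one hζ
  have hmem : e X T ∈ L := by
    have hg : IsGalois F Ω := IsAlgClosure.isGalois F Ω
    rw [← InfiniteGalois.fixedField_fixingSubgroup L]
    rw [IntermediateField.mem_fixedField_iff]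
    intro s hs
    rw [he.act s X hX' T hT, (hL.2 s).1 hs T hT, (hL.2 s).1 hs X hX]
  rw [← hi]
  exact pow_mem hmem i

end H13S
end

-- from Lib.H13S.QR
section

open NumberField IsDedekindDomain

namespace H13S

open H55P H28G H55B

variable {Ω : Type} [Field Ω] [DecidableEq Ω] [Algebra F Ω] [IsAlgClosure F Ω]

/-- Chunk QR (S/M). Ratios of parameters. tau = V.valuation (tt R), tau^(q-1) = vo V pi = r^q, r = V.valuation (tt Q) < 1, q = Nm pi ≥ 3, so tau < r and r^2 < tau (tau^(q-1) = r^q > r^(2(q-1))).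
kr_tt_add with c = r: V.valuation (tt (Q+R) - tt Q - tt R) ≤ r^2 < tau < r. So V.valuation (tt (Q+R)) = r and V.valuation (tt (Q + R) - tt Q) = tau. -/
theorem val_ratio {π : O} (hπ : Prime π) (h3 : Prim π) (hq : 3 ≤ H55B.Nm π) (V : ValuationSubring Ω)
    (hV : vo V π < 1) (Q : P27 Ω) (hQ : Kr V Q) (hv : V.valuation (tt Q) ^ H55B.Nm π = vo V π)
    (R : P27 Ω) (hR : R ∈ Tor π Ω) (h0 : R ≠ 0) :
    V.valuation (tt (Q + R)) = V.valuation (tt Q) ∧
      V.valuation (tt (Q + R) - tt Q) = V.valuation (tt R) ∧ V.valuation (tt R) < V.valuation (tt Q) := by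
  obtain ⟨hKR, hτ⟩ := kr_tor_ram π hπ h3 V hV hR h0
  have hπ0 : vo V π ≠ 0 := by
    have h1 : algebraMap F Ω (π : F) ≠ 0 := by
      intro h
      have h2 : (π : F) = 0 := (map_eq_zero _).1 h
      exact hπ.ne_zero (by exact_mod_cast h2)
    simpa [vo] using h1
  set r := V.valuation (tt Q) with hr
  set τ := V.valuation (tt R) with hτd
  have hq1 : H55B.Nm π - 1 ≠ 0 := by omega
  have hr0 : r ≠ 0 := by
    intro h
    rw [h, zero_pow (by omega)] at hv
    exact hπ0 hv.symm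
  have hr1 : r < 1 := kr_tt_lt V hQ
  have hrp : 0 < r := zero_lt_iff.2 hr0
  have hlt : τ < r := by
    by_contra hle
    rw [not_lt] at hle
    have h1 : r ^ (H55B.Nm π - 1) ≤ τ ^ (H55B.Nm π - 1) := pow_le_pow_left₀ zero_le hle _
    rw [hτ, ← hv] at h1
    exact absurd h1 (not_le.2 (pow_lt_pow_right_of_lt_one₀ hrp hr1 (by omega)))
  have hlt2 : r ^ 2 < τ := by
    by_contra hle
    rw [not_lt] at hle
    have h1 : τ ^ (H55B.Nm π - 1) ≤ (r ^ 2) ^ (H55B.Nm π - 1) := pow_le_pow_left₀ zero_le hle _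
    rw [hτ, ← hv, ← pow_mul] at h1
    exact absurd h1 (not_le.2 (pow_lt_pow_right_of_lt_one₀ hrp hr1 (by omega)))
  have hadd := kr_tt_add V hQ hKR r le_rfl hlt.le
  have h4 : V.valuation (tt (Q + R) - tt Q) = τ := by
    have : tt (Q + R) - tt Q = (tt (Q + R) - tt Q - tt R) + tt R := by ring
    rw [this]
    exact Valuation.map_add_eq_of_lt_right _ (lt_of_le_of_lt hadd hlt2)
  have h5 : V.valuation (tt (Q + R)) = r := by
    have : tt (Q + R) = (tt (Q + R) - tt Q) + tt Q := by ring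
    rw [this]
    exact Valuation.map_add_eq_of_lt_right _ (by rw [h4]; exact hlt)
  exact ⟨h5, h4, hlt⟩

end H13S
end

-- from Lib.H55K.SMU
section

/-! # H55K, part S: port of H13S/MU -/

open NumberField IsDedekindDomain WeierstrassCurve

namespace H55K.S

open H55P (IQ embF eF LF Per IsHecke Pt ac Inert Dec Nm)
open H35P (WAB Ker tt)
open H13S (Abv)




variable {F : Type} [Field F] [NumberField F] [IQ F] {A B : F} {Om : ℂ} {Ω : Type} [Field Ω] [DecidableEq Ω]
  [Algebra F Ω] [IsAlgClosure F Ω] {j : Ω →+* ℂ} {act : 𝓞 F →+* AddMonoid.End (Pt (WAB A B) Ω)} {mo : Ideal (𝓞 F)}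
  {ψ : Ideal (𝓞 F) →*₀ 𝓞 F}

/-- Chunk MU (S). In the inert case L contains the l-th roots of unity. gi_gen: a point X ≠ 0 in Tor π = Tor (cj π); he.nondeg gives T with e X T ≠ 1: a primitive l-th root of unity (l prime). s in L.fixingSubgroup: s (e X T) = e (ac s X) (ac s T) = e X T
(hL). So e X T lies in L (fixed field of L.fixingSubgroup: InfiniteGalois.fixedField_fixingSubgroup; Ω/F is Galois, characteristic 0), and ζ is a power of it. -/
theorem mu_mem (hA : CMA F A B Om j act) {π : 𝓞 F} {l : ℕ} (hl : l.Prime) (hπ : Prime π) (hin : Tor act (cj π) = Tor act π)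
    {e : Pt (WAB A B) Ω → Pt (WAB A B) Ω → Ω} (he : Pairing A B act π l e) {L : IntermediateField F Ω} (hL : IsTF act π L)
    (ζ : Ω) (hζ : ζ ^ l = 1) : ζ ∈ L := by
  obtain ⟨-, X, hX, -, hX0⟩ := gi_gen hA π hπ
  have hXne : X ≠ 0 := by
    intro h
    have h1 : act (1 : 𝓞 F) X = 0 := by rw [h, map_zero]
    exact hπ.not_isUnit (isUnit_of_dvd_one ((hX0 1).1 h1))
  have hX' : X ∈ Tor act (cj π) := by rw [hin]; exact hX
  obtain ⟨T, hT, hTe⟩ : ∃ T ∈ Tor act π, e X T ≠ 1 := by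
    by_contra h
    push Not at h
    exact hXne (he.nondeg X hX' h)
  have hprim : IsPrimitiveRoot (e X T) l := by
    have : Fact l.Prime := ⟨hl⟩
    have h1 := orderOf_eq_prime (he.root X hX' T hT) hTe
    rw [← h1]
    exact IsPrimitiveRoot.orderOf _
  have : NeZero l := ⟨hl.ne_zero⟩
  obtain ⟨i, -, hi⟩ := hprim.eq_pow_of_pow_eq_one hζ
  have hmem : e X T ∈ L := by
    have hg : IsGalois F Ω := IsAlgClosure.isGalois F Ω
    rw [← InfiniteGalois.fixedField_fixingSubgroup L]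
    rw [IntermediateField.mem_fixedField_iff]
    intro s hs
    rw [he.gal s X hX' T hT, (hL.2 s).1 hs T hT, (hL.2 s).1 hs X hX]
  rw [← hi]
  exact pow_mem hmem i

end H55K.S
end

-- from Lib.H55K.SCH
section

/-! # H55K, part S: port of H13S/CH -/

open NumberField IsDedekindDomain WeierstrassCurve

namespace H55K.S

open H55P (IQ embF eF LF Per IsHecke Pt ac Inert Dec Nm)
open H35P (WAB Ker tt)
open H13S (Abv)




variable {F : Type} [Field F] [NumberField F] [IQ F] {A B : F} {Om : ℂ} {Ω : Type} [Field Ω] [DecidableEq Ω]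
  [Algebra F Ω] [IsAlgClosure F Ω] {j : Ω →+* ℂ} {act : 𝓞 F →+* AddMonoid.End (Pt (WAB A B) Ω)} {mo : Ideal (𝓞 F)}
  {ψ : Ideal (𝓞 F) →*₀ 𝓞 F}

/-- Chunk CH (S/M). The Galois character on the points killed by beta. From gi_gen: T₀ generates, act a T₀ = 0 iff beta divides a.
For s: ac s T₀ lies in Tor, = act a T₀, a unique modulo beta, prime to beta (ac s is injective); chi s = class of a, a unit of the field
𝓞 F/beta (span {beta} maximal). Multiplicative: ac (s t) T₀ = ac s (act a_t T₀) = act a_t (act a_s T₀) (ac_act hA). -/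
theorem exists_chi (hA : CMA F A B Om j act) (β : 𝓞 F) (hβ : Prime β) :
    ∃ χ : (Ω ≃ₐ[F] Ω) →* (𝓞 F ⧸ Ideal.span {β})ˣ,
      (∀ s (a : 𝓞 F), Ideal.Quotient.mk (Ideal.span {β}) a = (χ s : 𝓞 F ⧸ Ideal.span {β}) →
        ∀ T ∈ Tor act β, ac (WAB A B) s T = act a T) ∧
      ∀ s, (∀ T ∈ Tor act β, ac (WAB A B) s T = T) → χ s = 1 := by
  obtain ⟨-, T₀, hT₀, hgen, hker⟩ := gi_gen hA β hβ
  have hq : ∀ a b : 𝓞 F, act a T₀ = act b T₀ ↔
      Ideal.Quotient.mk (Ideal.span {β}) a = Ideal.Quotient.mk (Ideal.span {β}) b := by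
    intro a b
    rw [Ideal.Quotient.eq, Ideal.mem_span_singleton, ← hker, act_sub, sub_eq_zero]
  choose a ha using fun s : Ω ≃ₐ[F] Ω => hgen (ac (WAB A B) s T₀) (ac_mem hA s hT₀)
  obtain ⟨f, hf⟩ : ∃ f : (Ω ≃ₐ[F] Ω) →* (𝓞 F ⧸ Ideal.span {β}), ∀ s, f s =
      Ideal.Quotient.mk (Ideal.span {β}) (a s) := by
    refine ⟨⟨⟨fun s => Ideal.Quotient.mk (Ideal.span {β}) (a s), ?_⟩, ?_⟩, fun _ => rfl⟩
    · have h1 : act (a 1) T₀ = act (1 : 𝓞 F) T₀ := by rw [← ha, ac_one, act_one]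
      rw [(hq _ _).1 h1, map_one]
    · intro s t
      have h1 : act (a (s * t)) T₀ = act (a s * a t) T₀ := by
        rw [← ha, ac_mul, ha t, ac_act hA, ha s, ← act_mul, mul_comm]
      show Ideal.Quotient.mk (Ideal.span {β}) (a (s * t)) = _
      rw [(hq _ _).1 h1, map_mul]
  refine ⟨f.toHomUnits, ?_, ?_⟩
  · intro s b hb T hT
    have hb' : Ideal.Quotient.mk (Ideal.span {β}) b = Ideal.Quotient.mk (Ideal.span {β}) (a s) := by
      rw [hb, MonoidHom.coe_toHomUnits, hf]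
    obtain ⟨d, rfl⟩ := hgen T hT
    rw [ac_act hA, ha s, ← act_mul, ← act_mul, mul_comm, act_mul, mul_comm b d, act_mul,
      (hq _ _).2 hb']
    rw [← act_mul, ← act_mul, mul_comm]
  · intro s hs
    apply Units.ext
    rw [MonoidHom.coe_toHomUnits, hf, Units.val_one]
    have h1 : act (a s) T₀ = act (1 : 𝓞 F) T₀ := by rw [← ha, hs T₀ hT₀, act_one]
    rw [(hq _ _).1 h1, map_one]

/-- The pointwise stabilizer of the points killed by beta has finite index dividing Nm beta - 1. -/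
theorem stab_index (hA : CMA F A B Om j act) (β : 𝓞 F) (hβ : Prime β) :
    ∃ N : Subgroup (Ω ≃ₐ[F] Ω), (∀ s, s ∈ N ↔ ∀ T ∈ Tor act β, ac (WAB A B) s T = T) ∧ N.Normal ∧
      N.index ∣ Nm β - 1 ∧ N.index ≠ 0 := by
  obtain ⟨χ, h1, h2⟩ := exists_chi hA β hβ
  have hp : (Ideal.span {β}).IsPrime := (Ideal.span_singleton_prime hβ.ne_zero).2 hβ
  have hbot : Ideal.span {β} ≠ ⊥ := by
    rw [Ne, Ideal.span_singleton_eq_bot]
    exact hβ.ne_zero
  have hm : (Ideal.span {β}).IsMaximal := hp.isMaximal hbot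
  have hfin : Finite (𝓞 F ⧸ Ideal.span {β}) := Ideal.finiteQuotientOfFreeOfNeBot _ hbot
  have hcard : Nat.card (𝓞 F ⧸ Ideal.span {β})ˣ = Nm β - 1 := by
    letI := Ideal.Quotient.field (Ideal.span {β})
    exact Nat.card_units (𝓞 F ⧸ Ideal.span {β})
  refine ⟨χ.ker, ?_, inferInstance, ?_, ?_⟩
  · intro s
    rw [MonoidHom.mem_ker]
    constructor
    · intro hs T hT
      have h := h1 s 1 (by rw [hs, map_one, Units.val_one]) T hT
      rw [h, act_one]
    · exact h2 s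
  · rw [Subgroup.index_ker, ← hcard]
    exact Subgroup.card_subgroup_dvd_card _
  · rw [Subgroup.index_ker]
    exact Nat.card_pos.ne'

end H55K.S
end

-- from Lib.H55K.SCO
section

/-! # H55K, part S: port of H13S/CO2 -/

open NumberField IsDedekindDomain WeierstrassCurve

namespace H55K.S

open H55P (IQ embF eF LF Per IsHecke Pt ac Inert Dec Nm)
open H35P (WAB Ker tt)
open H13S (Abv)




variable {F : Type} [Field F] [NumberField F] [IQ F] {A B : F} {Om : ℂ} {Ω : Type} [Field Ω] [DecidableEq Ω]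
  [Algebra F Ω] [IsAlgClosure F Ω] {j : Ω →+* ℂ} {act : 𝓞 F →+* AddMonoid.End (Pt (WAB A B) Ω)} {mo : Ideal (𝓞 F)}
  {ψ : Ideal (𝓞 F) →*₀ 𝓞 F}

theorem CO2_Nm {π : 𝓞 F} {l : ℕ} (hl : l.Prime) (hp : Prime π) (hd : π ∣ (l : 𝓞 F)) : l ∣ Nm π := by
  obtain ⟨u, hu⟩ := hd
  have h2 : Nm π ∣ l ^ 2 := by
    rw [← Nm_nat (F := F) l, hu, Nm_mul]
    exact dvd_mul_right _ _
  obtain ⟨k, -, hk⟩ := (Nat.dvd_prime_pow hl).1 h2
  have hk0 : k ≠ 0 := by
    rintro rfl
    rw [pow_zero] at hk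
    unfold Nm at hk
    rw [Ideal.absNorm_eq_one_iff, Ideal.span_singleton_eq_top] at hk
    exact hp.not_isUnit hk
  rw [hk]
  exact dvd_pow_self _ hk0

theorem CO2_cop {l m n : ℕ} (hl : l.Prime) (h : l ∣ m) (hm : m ≠ 0) (hn : n ∣ m - 1) : l.Coprime n := by
  rw [Nat.Prime.coprime_iff_not_dvd hl]
  intro h1
  have h2 : l ∣ m - 1 := h1.trans hn
  have h3 : l ∣ 1 := by
    have h4 : m - (m - 1) = 1 := by omega
    rw [← h4]
    exact Nat.dvd_sub h h2
  exact hl.one_lt.ne' (Nat.dvd_one.1 h3)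

/-- Chunk CO2 (M). If all Kummer generators are trivial then c is a coboundary. N₀ = the elements fixing Tor pi and Tor (cj pi) pointwise: intersection of the two
subgroups of stab_index, index divides (Nm pi - 1)(Nm (cj pi) - 1) (relIndex/index of an intersection of normal subgroups divides the product), prime to l (Nm pi = l or l^2 because pi divides
l; Nm (cj pi) = Nm pi), not 0. For s in N₀: s fixes all values e X T (he.gal); they contain a primitive l-th root of unity (if Tor (cj pi) has a nonzero point X, he.nondeg gives T with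
e X T ≠ 1; gi_gen), so s fixes all l-th roots of unity. For T: y^l = z^l, y = xi z, xi^l = 1, s y = y (s in L.fixingSubgroup by IsTF), so e (c s) T = 1 for all T and c s = 0 by
nondegeneracy. cob_of_vanish with B = Tor (cj pi), l • c s = 0 (act (l) = act (l/cj pi) act (cj pi); cj pi divides l). -/
theorem cob_of_kum {π : 𝓞 F} {l : ℕ} {c : (Ω ≃ₐ[F] Ω) → Pt (WAB A B) Ω} (C : Cl A B Om j act mo ψ π l c) {e : Pt (WAB A B) Ω → Pt (WAB A B) Ω → Ω}
    (he : Pairing A B act π l e) {L : IntermediateField F Ω} (hL : IsTF act π L)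
    (h : ∀ T ∈ Tor act π, ∃ y : Ω, Kum L e c T y ∧ ∃ z : L, y ^ l = (z : Ω) ^ l) :
    ∃ X ∈ Tor act (cj π), ∀ s, c s = ac (WAB A B) s X - X := by
  have hA := C.cma
  obtain ⟨N₁, hN₁, hn₁, hd₁, h0₁⟩ := stab_index hA π C.pr
  obtain ⟨N₂, hN₂, hn₂, hd₂, h0₂⟩ := stab_index hA (cj π) (cj_prime C.pr)
  have hlN : l ∣ Nm π := CO2_Nm C.hl C.pr C.dvd
  have hN0 : Nm π ≠ 0 := fun h => C.pr.ne_zero (Ideal.span_singleton_eq_bot.1 (Ideal.absNorm_eq_zero_iff.1 h))
  rw [Nm_cj] at hd₂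
  have hidx : (N₁ ⊓ N₂).index = N₁.relIndex N₂ * N₂.index := by
    rw [← Subgroup.relIndex_mul_index (inf_le_right : N₁ ⊓ N₂ ≤ N₂), Subgroup.inf_relIndex_right]
  have hrel : N₁.relIndex N₂ ∣ N₁.index := Subgroup.relIndex_dvd_index_of_normal N₁ N₂
  have hcop : l.Coprime (N₁ ⊓ N₂).index := by
    rw [hidx]
    exact Nat.Coprime.mul_right (CO2_cop C.hl hlN hN0 (hrel.trans hd₁)) (CO2_cop C.hl hlN hN0 hd₂)
  have hne : (N₁ ⊓ N₂).index ≠ 0 := by
    rw [hidx]
    refine mul_ne_zero (fun h => h0₁ ?_) h0₂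
    rw [h] at hrel
    exact Nat.eq_zero_of_zero_dvd hrel
  have hlc : ∀ s, l • c s = 0 := by
    intro s
    obtain ⟨u, hu⟩ := C.dvd
    have h1 : (l : 𝓞 F) = cj u * cj π := by
      have h2 := congrArg cj hu
      rw [map_natCast, map_mul] at h2
      rw [h2, mul_comm]
    have h3 : act (cj π) (c s) = 0 := C.val s
    rw [← act_nat (act := act), h1, act_mul, h3, map_zero]
  have hvan : ∀ s ∈ N₁ ⊓ N₂, c s = 0 := by
    intro s hs
    obtain ⟨hs₁, hs₂⟩ := Subgroup.mem_inf.1 hs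
    rw [hN₁] at hs₁
    rw [hN₂] at hs₂
    refine he.nondeg _ (C.val s) ?_
    intro T hT
    by_contra hne1
    obtain ⟨y, hy, z, hz⟩ := h T hT
    have hroot := he.root _ (C.val s) T hT
    have hprim : IsPrimitiveRoot (e (c s) T) l := by
      have h1 : Fact l.Prime := ⟨C.hl⟩
      rw [← orderOf_eq_prime hroot hne1]
      exact IsPrimitiveRoot.orderOf _
    have hfix : s (e (c s) T) = e (c s) T := by
      rw [he.gal s _ (C.val s) T hT, hs₂ _ (C.val s), hs₁ T hT]
    have hsL : s ∈ L.fixingSubgroup := (hL.2 s).2 hs₁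
    have hy0 : y ≠ 0 := hy.1
    have hz0 : (z : Ω) ≠ 0 := by
      intro h0
      rw [h0, zero_pow C.hl.ne_zero] at hz
      exact pow_ne_zero _ hy0 hz
    have h2 : (y / z) ^ l = 1 := by
      rw [div_pow, hz]
      exact div_self (pow_ne_zero _ hz0)
    have hl0 : NeZero l := ⟨C.hl.ne_zero⟩
    obtain ⟨i, -, hi⟩ := hprim.eq_pow_of_pow_eq_one h2
    have h3 : y = e (c s) T ^ i * z := by
      rw [hi, div_mul_cancel₀ _ hz0]
    have h4 : s (z : Ω) = z := by
      rw [IntermediateField.mem_fixingSubgroup_iff] at hsL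
      exact hsL _ z.2
    have h5 : s y = y := by
      rw [h3, map_mul, map_pow, hfix, h4]
    have h6 := hy.2 s hsL
    rw [h5] at h6
    exact hne1 (mul_right_cancel₀ hy0 (by rw [one_mul]; exact h6.symm))
  exact H13S.cob_of_vanish (fun s => (ac (WAB A B) s : Pt (WAB A B) Ω →+ Pt (WAB A B) Ω)) (fun s t P => ac_mul s t P) c C.mul
    (N₁ ⊓ N₂) hne hvan l hcop hlc (Tor act (cj π)) C.val

end H55K.S
end

-- from Lib.H55K.SDI
section

/-! # H55K, part S: the two cases -/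

open NumberField IsDedekindDomain WeierstrassCurve

namespace H55K.S

open H55P (IQ embF eF LF Per IsHecke Pt ac Inert Dec Nm)
open H35P (WAB Ker tt)
open H13S (Abv)

variable {F : Type} [Field F] [NumberField F] [IQ F] {A B : F} {Om : ℂ} {Ω : Type} [Field Ω] [DecidableEq Ω]
  [Algebra F Ω] {j : Ω →+* ℂ} {act : 𝓞 F →+* AddMonoid.End (Pt (WAB A B) Ω)}

theorem Nm_eq_one' {x : 𝓞 F} : Nm x = 1 ↔ IsUnit x := by
  unfold Nm
  rw [Ideal.absNorm_eq_one_iff, Ideal.span_singleton_eq_top]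

theorem Nm_ne_zero' {x : 𝓞 F} (hx : x ≠ 0) : Nm x ≠ 0 := fun h =>
  hx (Ideal.span_singleton_eq_bot.1 (Ideal.absNorm_eq_zero_iff.1 h))

/-- Associated elements kill the same points. -/
theorem tor_assoc {a b : 𝓞 F} (h : Associated a b) : Tor act a = Tor act b := by
  have key : ∀ x y : 𝓞 F, x ∣ y → Tor act x ≤ Tor act y := by
    rintro x y ⟨z, rfl⟩ P hP
    rw [mem_Tor] at hP ⊢
    rw [mul_comm, act_mul, hP, map_zero]
  exact le_antisymm (key a b h.dvd) (key b a h.symm.dvd)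

/-- The two cases: inert and split. -/
theorem dichotomy {l : ℕ} (hl : l.Prime) (unr : ∀ v : HeightOneSpectrum (𝓞 F), (l : 𝓞 F) ∉ v.asIdeal ^ 2)
    {π : 𝓞 F} (hπ : Prime π) (hd : π ∣ (l : 𝓞 F)) :
    (Associated (cj π) π ∧ Nm π = l ^ 2 ∧ Associated (l : 𝓞 F) π) ∨
      (¬ π ∣ cj π ∧ ¬ cj π ∣ π ∧ Nm π = l ∧ π * cj π = (l : 𝓞 F)) := by
  obtain ⟨u, hu⟩ := hd
  have h1 : Nm π * Nm u = l ^ 2 := by rw [← Nm_mul, ← hu, Nm_nat]
  obtain ⟨k, hk2, hk⟩ := (Nat.dvd_prime_pow hl).1 (Dvd.intro _ h1)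
  have hk0 : k ≠ 0 := by
    rintro rfl
    rw [pow_zero, Nm_eq_one'] at hk
    exact hπ.not_isUnit hk
  have hk12 : k = 1 ∨ k = 2 := by omega
  have hπ' := cj_prime hπ
  rcases hk12 with rfl | rfl
  · right
    rw [pow_one] at hk
    have h2 : π * cj π = (l : 𝓞 F) := by rw [mul_cj, hk]
    have key : ¬ Associated π (cj π) := by
      intro ha
      have hp : (Ideal.span {π}).IsPrime := (Ideal.span_singleton_prime hπ.ne_zero).2 hπ
      refine unr ⟨Ideal.span {π}, hp, by rw [Ne, Ideal.span_singleton_eq_bot]; exact hπ.ne_zero⟩ ?_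
      show (l : 𝓞 F) ∈ Ideal.span {π} ^ 2
      rw [Ideal.span_singleton_pow, Ideal.mem_span_singleton, ← h2, sq]
      exact mul_dvd_mul_left _ ha.dvd
    refine ⟨fun h => key (hπ.associated_of_dvd hπ' h), fun h => key (hπ'.associated_of_dvd hπ h).symm, hk, h2⟩
  · left
    have h3 : Nm u = 1 := by
      rw [hk] at h1
      exact (Nat.eq_of_mul_eq_mul_left (pow_pos hl.pos 2) (by rw [mul_one]; exact h1))
    have h4 : Associated (l : 𝓞 F) π := by
      rw [hu]
      exact (associated_mul_unit_right π u (Nm_eq_one'.1 h3)).symm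
    refine ⟨?_, hk, h4⟩
    have h5 : Associated (cj (l : 𝓞 F)) (cj π) := h4.map cj
    rw [cj_nat] at h5
    exact h5.symm.trans h4

/-- A prime element above l. -/
theorem exists_prime_above {l : ℕ} (hl : l.Prime) : ∃ π : 𝓞 F, Prime π ∧ π ∣ (l : 𝓞 F) := by
  have h0 : (l : 𝓞 F) ≠ 0 := Nat.cast_ne_zero.2 hl.ne_zero
  have hnu : ¬ IsUnit (l : 𝓞 F) := by
    rw [← Nm_eq_one', Nm_nat]
    intro h
    have := hl.one_lt
    nlinarith
  have hP : IsPrincipalIdealRing (𝓞 F) := inferInstance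
  obtain ⟨p, hp, hpl⟩ := WfDvdMonoid.exists_irreducible_factor hnu h0
  exact ⟨p, irreducible_iff_prime.1 hp, hpl⟩

omit [DecidableEq Ω] [NumberField F] [IQ F] in
theorem vo_assoc (V : ValuationSubring Ω) {a b : 𝓞 F} (h : Associated a b) (hle : ∀ x : 𝓞 F, vo V x ≤ 1) :
    vo V a = vo V b := by
  have key : ∀ x y : 𝓞 F, x ∣ y → vo V y ≤ vo V x := by
    rintro x y ⟨z, rfl⟩
    rw [vo_mul]
    exact mul_le_of_le_one_right' (hle z)
  exact le_antisymm (key b a h.symm.dvd) (key a b h.dvd)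

end H55K.S
end

-- from Lib.H55K.G4C
section

/-! # H55K: the action on the kernel of reduction -/

open NumberField IsDedekindDomain WeierstrassCurve

namespace H55K

open H55P (IQ embF eF LF Per IsHecke Pt ac Inert Dec Nm)
open H35P (WAB Ker tt)


variable {F : Type} [Field F] [NumberField F] [IQ F] {A B : F} {Om : ℂ} {Ω : Type} [Field Ω] [DecidableEq Ω]
  [Algebra F Ω] {j : Ω →+* ℂ} {act : 𝓞 F →+* AddMonoid.End (Pt (WAB A B) Ω)} {V : ValuationSubring Ω}

theorem g4c_nat {Ω : Type} [Field Ω] (V : ValuationSubring Ω) (n : ℕ) : V.valuation (n : Ω) ≤ 1 :=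
  (V.valuation_le_one_iff _).2 (natCast_mem V n)

theorem g4c_key {F : Type} [Field F] [NumberField F] [IQ F] (a : 𝓞 F) :
    Nm (a + ((2 : ℕ) : 𝓞 F)) + Nm (a + ((0 : ℕ) : 𝓞 F)) = 2 * Nm (a + ((1 : ℕ) : 𝓞 F)) + 2 := by
  have h : ((Nm (a + ((2 : ℕ) : 𝓞 F)) + Nm (a + ((0 : ℕ) : 𝓞 F)) : ℕ) : 𝓞 F) =
      ((2 * Nm (a + ((1 : ℕ) : 𝓞 F)) + 2 : ℕ) : 𝓞 F) := by
    push_cast
    rw [← mul_cj, ← mul_cj, ← mul_cj]
    simp only [map_add, map_zero, map_one, map_ofNat]
    ring
  exact_mod_cast h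

theorem g4c_lt {Ω : Type} [Field Ω] {V : ValuationSubring Ω} {c : V.ValueGroup} (h0 : c ≠ 0) (h1 : c < 1) :
    c ^ 2 < c := by
  have h2 : 0 < c := zero_lt_iff.mpr h0
  calc c ^ 2 = c * c := pow_two c
    _ < c * 1 := mul_lt_mul_of_pos_left h1 h2
    _ = c := mul_one c

theorem g4c_le {Ω : Type} [Field Ω] {V : ValuationSubring Ω} {c : V.ValueGroup} (h1 : c < 1) :
    c ^ 2 ≤ c := by
  by_cases h0 : c = 0
  · rw [h0]; simp
  · exact (g4c_lt h0 h1).le

omit [DecidableEq Ω] in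
/-- Chunk G4C (S). Nm (a + 2) + Nm a = 2 Nm (a + 1) + 2 (mul_cj: Nm (a + n) = (a + n) (cj a + n)); if the values of Nm a, Nm (a + 1), Nm (a + 2) are all < 1 then V(2) < 1. -/
theorem exists_shift (hV : GV A B V) (a : 𝓞 F) : ∃ n : ℕ, n ≤ 2 ∧ V.valuation (Nm (a + (n : 𝓞 F)) : Ω) = 1 := by
  by_contra hno
  push Not at hno
  have hlt : ∀ n : ℕ, n ≤ 2 → V.valuation (Nm (a + (n : 𝓞 F)) : Ω) < 1 :=
    fun n hn => lt_of_le_of_ne (g4c_nat V _) (hno n hn)
  have h2 : (2 : Ω) = (Nm (a + ((2 : ℕ) : 𝓞 F)) : Ω) + (Nm (a + ((0 : ℕ) : 𝓞 F)) : Ω) -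
      2 * (Nm (a + ((1 : ℕ) : 𝓞 F)) : Ω) := by
    have h3 := congrArg (Nat.cast : ℕ → Ω) (g4c_key a)
    push_cast at h3 ⊢
    rw [h3]
    ring
  have h4 := hV.two
  rw [h2] at h4
  have h5 : V.valuation ((Nm (a + ((2 : ℕ) : 𝓞 F)) : Ω) + (Nm (a + ((0 : ℕ) : 𝓞 F)) : Ω) -
      2 * (Nm (a + ((1 : ℕ) : 𝓞 F)) : Ω)) < 1 := by
    refine Valuation.map_sub_lt _ (Valuation.map_add_lt _ (hlt 2 le_rfl) (hlt 0 (by norm_num))) ?_
    rw [map_mul]
    calc V.valuation (2 : Ω) * V.valuation (Nm (a + ((1 : ℕ) : 𝓞 F)) : Ω)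
        = V.valuation (Nm (a + ((1 : ℕ) : 𝓞 F)) : Ω) := by rw [hV.two, one_mul]
      _ < 1 := hlt 1 (by norm_num)
  rw [h4] at h5
  exact lt_irrefl _ h5

theorem g4c_split (act : 𝓞 F →+* AddMonoid.End (Pt (WAB A B) Ω)) (a : 𝓞 F) (n : ℕ) (P : Pt (WAB A B) Ω) :
    act a P = act (a + (n : 𝓞 F)) P + -(n • P) := by
  rw [map_add, map_natCast]
  show act a P = (act a P + (n : AddMonoid.End (Pt (WAB A B) Ω)) P) + -(n • P)
  rw [AddMonoid.End.natCast_apply]
  abel

/-- Chunk G4C. n from exists_shift, act a P = act (a + n) P - n • P; n • P for n ≤ 2 by tt_add2 with c = V(tt P): V(tt (n • P) - n tt P) ≤ V(tt P)^2, V(tt (n • P)) ≤ V(tt P); tt_add2 for act (a + n) P and -(n • P)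
(tt_neg). -/
theorem ker_act (h : CMA F A B Om j act) (hV : GV A B V) (a : 𝓞 F) {P : Pt (WAB A B) Ω} (hP : Ker V P) :
    Ker V (act a P) := by
  obtain ⟨n, _, hN⟩ := exists_shift hV a
  rw [g4c_split act a n P]
  exact kadd hV (act_unit h hV hN hP).1 (kneg (knsmul hV hP n))

theorem g4c_nsmul (hV : GV A B V) {P : Pt (WAB A B) Ω} (hP : Ker V P) {n : ℕ} (hn : n ≤ 2) :
    V.valuation (tt (n • P) - n * tt P) ≤ V.valuation (tt P) ^ 2 := by
  have h0 : (0 : V.ValueGroup) ≤ V.valuation (tt P) ^ 2 := zero_le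
  interval_cases n
  · rw [zero_smul, Nat.cast_zero, zero_mul, sub_zero]
    have : (tt (0 : Pt (WAB A B) Ω) : Ω) = 0 := rfl
    rw [this, map_zero]
    exact h0
  · rw [one_smul, Nat.cast_one, one_mul, sub_self, map_zero]
    exact h0
  · have h1 := tt_add2 hV hP hP (V.valuation (tt P)) le_rfl le_rfl
    rw [two_smul]
    have h2 : tt (P + P) - ((2 : ℕ) : Ω) * tt P = tt (P + P) - tt P - tt P := by push_cast; ring
    rw [h2]
    exact h1

/-- Chunk G4C. -/
theorem tt_act (h : CMA F A B Om j act) (hV : GV A B V) (a : 𝓞 F) {P : Pt (WAB A B) Ω} (hP : Ker V P) :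
    V.valuation (tt (act a P) - ak Ω a * tt P) ≤ V.valuation (tt P) ^ 2 := by
  obtain ⟨n, hn, hN⟩ := exists_shift hV a
  obtain ⟨hK, h1⟩ := act_unit h hV hN hP
  have hc1 := ttlt hV hP
  have hcc := g4c_le hc1
  have h2 := g4c_nsmul hV hP hn
  have hX : V.valuation (tt (act (a + (n : 𝓞 F)) P)) ≤ V.valuation (tt P) := by
    have e : tt (act (a + (n : 𝓞 F)) P) = (tt (act (a + (n : 𝓞 F)) P) - ak Ω (a + (n : 𝓞 F)) * tt P) +
      ak Ω (a + (n : 𝓞 F)) * tt P := by ring
    rw [e]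
    refine Valuation.map_add_le _ (h1.trans hcc) ?_
    rw [map_mul]
    exact mul_le_of_le_one_left' (ak_le V _)
  have hY : V.valuation (tt (-(n • P))) ≤ V.valuation (tt P) := by
    rw [tt_neg, Valuation.map_neg]
    have e : tt (n • P) = (tt (n • P) - n * tt P) + n * tt P := by ring
    rw [e]
    refine Valuation.map_add_le _ (h2.trans hcc) ?_
    rw [map_mul]
    exact mul_le_of_le_one_left' (g4c_nat V _)
  have h3 := tt_add2 hV hK (kneg (knsmul hV hP n)) _ hX hY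
  rw [g4c_split act a n P]
  have hak : ak Ω (a + (n : 𝓞 F)) = ak Ω a + n := by
    unfold ak
    simp
  have e : tt (act (a + (n : 𝓞 F)) P + -(n • P)) - ak Ω a * tt P =
      (tt (act (a + (n : 𝓞 F)) P + -(n • P)) - tt (act (a + (n : 𝓞 F)) P) - tt (-(n • P))) +
      (tt (act (a + (n : 𝓞 F)) P) - ak Ω (a + (n : 𝓞 F)) * tt P) - (tt (n • P) - n * tt P) := by
    rw [tt_neg, hak]
    ring
  rw [e]
  exact Valuation.map_sub_le _ (Valuation.map_add_le _ h3 h1) h2

/-- Chunk G4C. If act b T = 0 and V(b) = 1 then V(tt T) = V(b tt T) ≤ V(tt T)^2 and V(tt T) < 1, so tt T = 0, T = 0 (tt_zero). -/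
theorem tor_unit (h : CMA F A B Om j act) (hV : GV A B V) {b : 𝓞 F} (hb : V.valuation (ak Ω b) = 1)
    {T : Pt (WAB A B) Ω} (hT : T ∈ Tor act b) (hK : Ker V T) : T = 0 := by
  have h1 := tt_act h hV b hK
  have h2 : act b T = 0 := hT
  rw [h2] at h1
  have h3 : (tt (0 : Pt (WAB A B) Ω) : Ω) = 0 := rfl
  rw [h3, zero_sub, Valuation.map_neg, map_mul, hb, one_mul] at h1
  rw [← tt_zero hV hK]
  by_contra h4
  have h5 : V.valuation (tt T) ≠ 0 := (Valuation.ne_zero_iff _).2 h4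
  exact absurd h1 (not_le.2 (g4c_lt h5 (ttlt hV hK)))

/-- Chunk G4C. If V(a) = 1 and P in Ker: V(tt (act a P)) = V(tt P). -/
theorem tt_act_unit (h : CMA F A B Om j act) (hV : GV A B V) {a : 𝓞 F} (ha : V.valuation (ak Ω a) = 1)
    {P : Pt (WAB A B) Ω} (hP : Ker V P) : V.valuation (tt (act a P)) = V.valuation (tt P) := by
  by_cases h0 : P = 0
  · rw [h0, map_zero]
  · have h1 := tt_act h hV a hP
    have h2 : V.valuation (tt P) ≠ 0 := (Valuation.ne_zero_iff _).2 (fun h3 => h0 ((tt_zero hV hP).1 h3))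
    have h3 := h1.trans_lt (g4c_lt h2 (ttlt hV hP))
    have h4 : V.valuation (ak Ω a * tt P) = V.valuation (tt P) := by rw [map_mul, ha, one_mul]
    rw [← h4]
    exact Valuation.map_eq_of_sub_lt _ (by rw [h4]; exact h3)

end H55K
end

-- from Lib.H55K.G5B
section

/-! # H55K: points killed by a prime element below V -/

open NumberField IsDedekindDomain WeierstrassCurve

namespace H55K

open H55P (IQ embF eF LF Per IsHecke Pt ac Inert Dec Nm)
open H35P (WAB Ker tt)


variable {F : Type} [Field F] [NumberField F] [IQ F] {A B : F} {Om : ℂ} {Ω : Type} [Field Ω] [DecidableEq Ω]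
  [Algebra F Ω] {j : Ω →+* ℂ} {act : 𝓞 F →+* AddMonoid.End (Pt (WAB A B) Ω)} {V : ValuationSubring Ω}

/-- Chunk G5B (S). The subgroup of the X with act β X in Ker V. -/
noncomputable def Hb (act : 𝓞 F →+* AddMonoid.End (Pt (WAB A B) Ω)) (hV : GV A B V) (β : 𝓞 F) :
    AddSubgroup (Pt (WAB A B) Ω) := (kerG hV).comap (act β : Pt (WAB A B) Ω →+ Pt (WAB A B) Ω)

theorem mem_Hb (hV : GV A B V) (β : 𝓞 F) (X : Pt (WAB A B) Ω) : X ∈ Hb act hV β ↔ Ker V (act β X) := Iff.rfl

theorem g5b_ex (h : CMA F A B Om j act) : ∃ X : Pt (WAB A B) Ω, X ≠ 0 := by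
  obtain ⟨T₀, hT, _, h1, _⟩ := h.gen 2 two_ne_zero
  refine ⟨T₀, ?_⟩
  rintro rfl
  have h2 : act (1 : 𝓞 F) (0 : Pt (WAB A B) Ω) = 0 := map_zero _
  have h3 : (2 : 𝓞 F) ∣ 1 := (h1 1).1 h2
  obtain ⟨c, hc⟩ := h3
  have h4 : IsUnit (2 : 𝓞 F) := IsUnit.of_mul_eq_one c hc.symm
  have h5 : Nm (2 : 𝓞 F) = 1 := by
    unfold H55P.Nm
    rw [Ideal.span_singleton_eq_top.2 h4, Ideal.absNorm_top]
  have h6 := Nm_nat (F := F) 2
  have h7 : ((2 : ℕ) : 𝓞 F) = 2 := by norm_num
  rw [h7, h5] at h6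
  norm_num at h6

/-- Chunk G5B (S). A point P outside Ker (inf_cls for H = bottom, C = {0}; some X ≠ 0 exists), surj. -/
theorem Hb_ne (h : CMA F A B Om j act) (hV : GV A B V) {β : 𝓞 F} (hβ : β ≠ 0) : ∃ X, X ∉ Hb act hV β := by
  obtain ⟨X₀, hX₀⟩ := g5b_ex h
  obtain ⟨P, _, hP⟩ := inf_cls h hV ⊥ ⟨X₀, hX₀⟩ {0}
  have hP' : ¬ Ker V P := by
    have := hP 0 (Finset.mem_singleton_self 0)
    rwa [sub_zero] at this
  obtain ⟨Q, hQ⟩ := h.surj β hβ P
  refine ⟨Q, fun hQ' => hP' ?_⟩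
  rw [mem_Hb, hQ] at hQ'
  exact hQ'

/-- Chunk G5B. X outside Hb is outside Ker (ker_act), and so are all X + R, R killed by β. -/
theorem Hb_add (h : CMA F A B Om j act) (hV : GV A B V) {β : 𝓞 F} {X R : Pt (WAB A B) Ω}
    (hX : X ∉ Hb act hV β) (hR : act β R = 0) : ¬ Ker V (X + R) ∧ ¬ Ker V X ∧ X + R ∉ Hb act hV β := by
  have h1 : ∀ Y, Y ∉ Hb act hV β → ¬ Ker V Y := fun Y hY hK => hY ((mem_Hb hV β Y).2 (ker_act h hV β hK))
  have h2 : X + R ∉ Hb act hV β := by
    rw [mem_Hb, map_add, hR, add_zero]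
    exact hX
  exact ⟨h1 _ h2, h1 _ hX, h2⟩

/-- Chunk G5B. Prime β: any two nonzero points killed by β are multiples: gen gives R = act a T₀, R' = act a' T₀, β does not divide a, so a is invertible modulo β (span {β} is maximal), R' = act c R with β not dividing c. If V(β) < 1 then
V(c) = 1 (u c + w β = 1). -/
theorem tor_trans (h : CMA F A B Om j act) (V : ValuationSubring Ω) {β : 𝓞 F} (hβ : Prime β)
    (hv : V.valuation (ak Ω β) < 1) {R R' : Pt (WAB A B) Ω} (hR : R ∈ Tor act β) (h0 : R ≠ 0)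
    (hR' : R' ∈ Tor act β) (h0' : R' ≠ 0) : ∃ c : 𝓞 F, R' = act c R ∧ V.valuation (ak Ω c) = 1 := by
  obtain ⟨T₀, hT, hgen, hz, _⟩ := h.gen β hβ.ne_zero
  obtain ⟨a, ha⟩ := hgen R hR
  obtain ⟨a', ha'⟩ := hgen R' hR'
  have hna : ¬ β ∣ a := fun hd => h0 (by rw [ha]; exact (hz a).2 hd)
  have hna' : ¬ β ∣ a' := fun hd => h0' (by rw [ha']; exact (hz a').2 hd)
  have hmax : (Ideal.span {β}).IsMaximal := by
    have hp : (Ideal.span {β}).IsPrime := (Ideal.span_singleton_prime hβ.ne_zero).2 hβ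
    exact hp.isMaximal (by rw [Ne, Ideal.span_singleton_eq_bot]; exact hβ.ne_zero)
  have hinv : ∀ x : 𝓞 F, ¬ β ∣ x → ∃ u w : 𝓞 F, u * x + w * β = 1 := by
    intro x hx
    obtain ⟨u, y, hy, hu⟩ := hmax.exists_inv (fun hm => hx (Ideal.mem_span_singleton.1 hm))
    obtain ⟨w, rfl⟩ := Ideal.mem_span_singleton.1 hy
    exact ⟨u, w, by rw [← hu]; ring⟩
  obtain ⟨u, w, huw⟩ := hinv a hna
  -- T₀ = act u R
  have hT0 : T₀ = act u R := by
    rw [ha]
    have h1 : act u (act a T₀) = act (u * a) T₀ := by rw [map_mul]; rfl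
    rw [h1]
    have h2 : act (u * a + w * β) T₀ = act (u * a) T₀ := by
      rw [map_add]
      show act (u * a) T₀ + act (w * β) T₀ = act (u * a) T₀
      rw [map_mul act w β]
      show act (u * a) T₀ + act w (act β T₀) = act (u * a) T₀
      have h3 : act β T₀ = 0 := hT
      rw [h3, map_zero, add_zero]
    rw [← h2, huw, map_one]
    rfl
  have hR'2 : R' = act (a' * u) R := by
    rw [map_mul]
    show R' = act a' (act u R)
    rw [← hT0]
    exact ha'
  refine ⟨a' * u, hR'2, ?_⟩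
  have hnc : ¬ β ∣ a' * u := by
    intro hd
    obtain ⟨y, hy⟩ := hd
    apply h0'
    rw [hR'2, hy, mul_comm, map_mul]
    show act y (act β R) = 0
    have h3 : act β R = 0 := hR
    rw [h3, map_zero]
  obtain ⟨u', w', h'⟩ := hinv _ hnc
  refine le_antisymm (ak_le V _) ?_
  by_contra hlt
  push Not at hlt
  have h4 : V.valuation (ak Ω (u' * (a' * u) + w' * β)) < 1 := by
    have e : ak Ω (u' * (a' * u) + w' * β) = ak Ω u' * ak Ω (a' * u) + ak Ω w' * ak Ω β := by
      unfold ak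
      simp only [map_add, map_mul]
    rw [e]
    refine Valuation.map_add_lt _ ?_ ?_
    · rw [map_mul]
      exact lt_of_le_of_lt (mul_le_of_le_one_left' (ak_le V _)) hlt
    · rw [map_mul]
      exact lt_of_le_of_lt (mul_le_of_le_one_left' (ak_le V _)) hv
  rw [h'] at h4
  have e1 : ak Ω (1 : 𝓞 F) = 1 := by unfold ak; simp
  rw [e1, map_one] at h4
  exact lt_irrefl _ h4

end H55K
end

-- from Lib.H55K.G5C
section

/-! # H55K: points killed by a prime element below V -/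

open NumberField IsDedekindDomain WeierstrassCurve

namespace H55K

open H55P (IQ embF eF LF Per IsHecke Pt ac Inert Dec Nm)
open H35P (WAB Ker tt)


variable {F : Type} [Field F] [NumberField F] [IQ F] {A B : F} {Om : ℂ} {Ω : Type} [Field Ω] [DecidableEq Ω]
  [Algebra F Ω] {j : Ω →+* ℂ} {act : 𝓞 F →+* AddMonoid.End (Pt (WAB A B) Ω)} {V : ValuationSubring Ω}

/-- Chunk G5C (M). The points killed by β are in the kernel of reduction. S from exists_TN. Suppose R₀ in S is not in Ker. Then no R in S is (tor_trans, ker_act). Y outside Hb (Hb_ne), X outside Hb with X - (Y - R), X - (-Y - R) not in Ker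
for all R in S and R = 0 (inf_cls). e2 (act β X ≠ 0, act β Y ≠ 0 since they are not in Ker). All coordinates are integral (not_ker, Hb_add), so the left side has value ≤ V(β)^2 < 1; so some factor of the right side has value < 1: V(xc (X + R) - xc Y) < 1 for some
R in S or R = 0; cls_x: X + R - Y or X + R + Y in Ker: contradiction. -/
theorem tor_ker (h : CMA F A B Om j act) (hV : GV A B V) {β : 𝓞 F} (hβ : Prime β)
    (hv : V.valuation (ak Ω β) < 1) {T : Pt (WAB A B) Ω} (hT : T ∈ Tor act β) : Ker V T := by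
  classical
  by_contra hK
  have hT0 : T ≠ 0 := (not_ker V hK).1
  obtain ⟨S, hS, -⟩ := exists_TN h hβ.ne_zero
  have hSK : ∀ R ∈ S, ¬ Ker V R := by
    intro R hR hRK
    obtain ⟨h1, h2⟩ := (hS R).1 hR
    obtain ⟨c, hc, -⟩ := tor_trans h V hβ hv (R := R) (R' := T) h1 h2 hT hT0
    apply hK
    rw [hc]
    exact ker_act h hV c hRK
  obtain ⟨Y, hY⟩ := Hb_ne h hV hβ.ne_zero
  obtain ⟨X, hX, hXC⟩ := inf_cls h hV (Hb act hV β) ⟨Y, hY⟩
    ((insert 0 S).image (fun R => Y - R) ∪ (insert 0 S).image (fun R => -Y - R))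
  have hYK : ¬ Ker V Y := (Hb_add h hV hY (R := 0) (map_zero _)).2.1
  have hXK : ¬ Ker V X := (Hb_add h hV hX (R := 0) (map_zero _)).2.1
  have haX : ¬ Ker V (act β X) := hX
  have haY : ¬ Ker V (act β Y) := hY
  have hcl : ∀ R ∈ insert 0 S, ¬ Ker V (X + R) → V.valuation (xc (X + R) - xc Y) = 1 := by
    intro R hR hXR
    refine le_antisymm (V.valuation.map_sub_le (not_ker V hXR).2 (not_ker V hYK).2) ?_
    by_contra hlt
    rw [not_le] at hlt
    rcases cls_x hV hXR hYK hlt with h1 | h1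
    · refine hXC (Y - R) (Finset.mem_union_left _ (Finset.mem_image_of_mem _ hR)) ?_
      have e : X - (Y - R) = X + R - Y := by abel
      rw [e]
      exact h1
    · refine hXC (-Y - R) (Finset.mem_union_right _ (Finset.mem_image_of_mem _ hR)) ?_
      have e : X - (-Y - R) = X + R + Y := by abel
      rw [e]
      exact h1
  have h0 : V.valuation (xc X - xc Y) = 1 := by
    have := hcl 0 (Finset.mem_insert_self _ _) (by rw [add_zero]; exact hXK)
    rw [add_zero] at this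
    exact this
  have hR : ∀ R ∈ S, V.valuation (xc (X + R) - xc Y) = 1 := fun R hR =>
    hcl R (Finset.mem_insert_of_mem hR) (Hb_add h hV hX ((hS R).1 hR).1).1
  have he := congrArg V.valuation (h.e2 β S hβ.ne_zero hS X Y (not_ker V haX).1 (not_ker V haY).1)
  rw [map_mul, map_mul, map_mul, map_pow, map_prod, map_prod, h0, Finset.prod_congr rfl hR,
    Finset.prod_const_one, one_mul] at he
  have h1 : V.valuation (ak Ω β) ^ 2 < 1 := pow_lt_one₀ zero_le hv two_ne_zero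
  have h2 : V.valuation (xc (act β X) - xc (act β Y)) ≤ 1 :=
    V.valuation.map_sub_le (not_ker V haX).2 (not_ker V haY).2
  have h3 : ∏ R ∈ S, V.valuation (xc R - xc Y) ≤ 1 := Finset.prod_le_one' fun R hR =>
    V.valuation.map_sub_le (not_ker V (hSK R hR)).2 (not_ker V hYK).2
  have h4 : V.valuation (ak Ω β) ^ 2 * V.valuation (xc (act β X) - xc (act β Y)) *
      ∏ R ∈ S, V.valuation (xc R - xc Y) < 1 := by
    refine lt_of_le_of_lt (mul_le_of_le_one_right' h3) ?_
    exact lt_of_le_of_lt (mul_le_of_le_one_right' h2) h1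
  rw [he] at h4
  exact lt_irrefl _ h4

end H55K
end

-- from Lib.H55K.G5D
section

/-! # H55K: points killed by a prime element below V -/

open NumberField IsDedekindDomain WeierstrassCurve

namespace H55K

open H55P (IQ embF eF LF Per IsHecke Pt ac Inert Dec Nm)
open H35P (WAB Ker tt)


variable {F : Type} [Field F] [NumberField F] [IQ F] {A B : F} {Om : ℂ} {Ω : Type} [Field Ω] [DecidableEq Ω]
  [Algebra F Ω] {j : Ω →+* ℂ} {act : 𝓞 F →+* AddMonoid.End (Pt (WAB A B) Ω)} {V : ValuationSubring Ω}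

/-- Chunk G5D (M). The value. T ≠ 0 in Tor; tau = V(tt R) is the same for all R in S (tor_trans, tt_act_unit), so V(xc R) tau^2 = 1. P₁ outside Ker (Hb_ne, its image), P₂ outside Ker with P₂ - P₁, P₂ + P₁ not in Ker (inf_cls with H = kerG, C = {P₁, -P₁, 0}). surj: P₁ = act β X, P₂ = act β Y; X, Y outside Hb. V(xc P₁ - xc P₂) = 1
(cls_diff). X - Y, X + Y are not in Ker (ker_act), and so on for X + R (tor_ker, ksub): V(xc (X + R) - xc Y) = 1 for R = 0 and R in S (cls_diff, Hb_add). V(xc R - xc Y) = V(xc R) for R in S (V(xc Y) ≤ 1 < V(xc R)). e2: V(β)^2 * prod V(xc R) = 1, so V(β)^2 = (tau^2)^(Nm β - 1) (S.card = Nm β - 1), hence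
tau^(Nm β - 1) = V(β) (pow_left_injective in the ordered group with zero). -/
theorem tor_ram (h : CMA F A B Om j act) (hV : GV A B V) {β : 𝓞 F} (hβ : Prime β) (hv : V.valuation (ak Ω β) < 1)
    {T : Pt (WAB A B) Ω} (hT : T ∈ Tor act β) (h0 : T ≠ 0) :
    Ker V T ∧ V.valuation (tt T) ^ (Nm β - 1) = V.valuation (ak Ω β) := by
  classical
  have hTK := tor_ker h hV hβ hv hT
  refine ⟨hTK, ?_⟩
  obtain ⟨S, hS, hcard⟩ := exists_TN h hβ.ne_zero
  have hSK : ∀ R ∈ S, Ker V R := fun R hR => tor_ker h hV hβ hv ((hS R).1 hR).1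
  have htau : ∀ R ∈ S, V.valuation (tt R) = V.valuation (tt T) := by
    intro R hR
    obtain ⟨h1, h2⟩ := (hS R).1 hR
    obtain ⟨c, hc, hc1⟩ := tor_trans h V hβ hv (R := T) (R' := R) hT h0 h1 h2
    rw [hc]
    exact tt_act_unit h hV hc1 hTK
  obtain ⟨X, hX⟩ := Hb_ne h hV hβ.ne_zero
  have haX : ¬ Ker V (act β X) := hX
  obtain ⟨P₂, hP₂, hPC⟩ := inf_cls h hV (kerG hV) ⟨act β X, haX⟩ {act β X, -act β X}
  obtain ⟨Y, hY⟩ := h.surj β hβ.ne_zero P₂
  have haY : ¬ Ker V (act β Y) := by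
    rw [hY]
    exact hP₂
  have hYH : Y ∉ Hb act hV β := haY
  have hXK : ¬ Ker V X := (Hb_add h hV hX (R := 0) (map_zero _)).2.1
  have hYK : ¬ Ker V Y := (Hb_add h hV hYH (R := 0) (map_zero _)).2.1
  have hd1 : ¬ Ker V (act β X - act β Y) := by
    intro hk
    refine hPC (act β X) (by simp) ?_
    have := kneg hk
    rw [neg_sub, hY] at this
    exact this
  have hd2 : ¬ Ker V (act β X + act β Y) := by
    intro hk
    refine hPC (-act β X) (by simp) ?_
    rw [sub_neg_eq_add, add_comm, ← hY]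
    exact hk
  have hcl : ∀ R, act β R = 0 → V.valuation (xc (X + R) - xc Y) = 1 := by
    intro R hR
    refine cls_diff hV (Hb_add h hV hX hR).1 hYK ?_ ?_
    · intro hk
      have := ker_act h hV β hk
      rw [map_sub, map_add, hR, add_zero] at this
      exact hd1 this
    · intro hk
      have := ker_act h hV β hk
      rw [map_add, map_add, hR, add_zero] at this
      exact hd2 this
  have hc0 : V.valuation (xc X - xc Y) = 1 := by
    have := hcl 0 (map_zero _)
    rw [add_zero] at this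
    exact this
  have hR1 : ∀ R ∈ S, V.valuation (xc R - xc Y) = V.valuation (xc R) := by
    intro R hR
    refine Valuation.map_sub_eq_of_lt_left _ (lt_of_le_of_lt (not_ker V hYK).2 ?_)
    exact (ker_iff V ((hS R).1 hR).2).1 (hSK R hR)
  have he := congrArg V.valuation (h.e2 β S hβ.ne_zero hS X Y (not_ker V haX).1 (not_ker V haY).1)
  rw [map_mul, map_mul, map_mul, map_pow, map_prod, map_prod, hc0,
    Finset.prod_congr rfl fun R hR => hcl R ((hS R).1 hR).1,
    Finset.prod_const_one, one_mul, cls_diff hV haX haY hd1 hd2, mul_one,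
    Finset.prod_congr rfl hR1] at he
  have hprod : ∏ R ∈ S, (V.valuation (tt T) ^ 2 * V.valuation (xc R)) = 1 := by
    refine Finset.prod_eq_one fun R hR => ?_
    rw [← htau R hR]
    exact (tt_val hV (hSK R hR) ((hS R).1 hR).2).1
  rw [Finset.prod_mul_distrib, Finset.prod_const, hcard] at hprod
  have hne : ∏ R ∈ S, V.valuation (xc R) ≠ 0 := by
    intro hz
    rw [hz, mul_zero] at he
    exact zero_ne_one he
  have h2 : (V.valuation (tt T) ^ (Nm β - 1)) ^ 2 = V.valuation (ak Ω β) ^ 2 := by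
    rw [← pow_mul, mul_comm (Nm β - 1) 2, pow_mul]
    exact mul_right_cancel₀ hne (hprod.trans he.symm)
  exact (pow_left_inj₀ zero_le zero_le two_ne_zero).1 h2

end H55K
end

-- from Lib.H55K.G5E
section

/-! # H55K: points killed by a prime element below V -/

open NumberField IsDedekindDomain WeierstrassCurve

namespace H55K

open H55P (IQ embF eF LF Per IsHecke Pt ac Inert Dec Nm)
open H35P (WAB Ker tt)


variable {F : Type} [Field F] [NumberField F] [IQ F] {A B : F} {Om : ℂ} {Ω : Type} [Field Ω] [DecidableEq Ω]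
  [Algebra F Ω] {j : Ω →+* ℂ} {act : 𝓞 F →+* AddMonoid.End (Pt (WAB A B) Ω)} {V : ValuationSubring Ω}

/-- Chunk G5E (S/M). For S: V(β)^2 * prod over S of V(xc R) = 1 (from tor_ram and tt_val). -/
theorem prod_xR (h : CMA F A B Om j act) (hV : GV A B V) {β : 𝓞 F} (hβ : Prime β) (hv : V.valuation (ak Ω β) < 1)
    {S : Finset (Pt (WAB A B) Ω)} (hS : TN act β S) :
    V.valuation (ak Ω β) ^ 2 * ∏ R ∈ S, V.valuation (xc R) = 1 := by
  classical
  obtain ⟨S', hS', hcard⟩ := exists_TN h hβ.ne_zero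
  have hSS : S' = S := by
    ext R
    rw [hS R, hS' R]
  rw [hSS] at hcard
  have hne : S.card ≠ 0 := by
    rw [hcard]
    intro h1
    have h2 : Nm β ≠ 1 := by
      intro h3
      unfold Nm at h3
      rw [Ideal.absNorm_eq_one_iff, Ideal.span_singleton_eq_top] at h3
      exact hβ.not_isUnit h3
    have h3 : Nm β ≠ 0 := fun h4 => hβ.ne_zero (H55P.Nm_eq_zero.1 h4)
    omega
  have hR : ∀ R ∈ S, V.valuation (ak Ω β) ^ 2 * V.valuation (xc R) ^ S.card = 1 := by
    intro R hR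
    obtain ⟨h1, h2⟩ := (hS R).1 hR
    obtain ⟨hK, h3⟩ := tor_ram h hV hβ hv (T := R) h1 h2
    rw [hcard, ← h3, ← pow_mul, mul_comm (Nm β - 1) 2, pow_mul, ← mul_pow, (tt_val hV hK h2).1, one_pow]
  have hprod : ∏ R ∈ S, (V.valuation (ak Ω β) ^ 2 * V.valuation (xc R) ^ S.card) = 1 := Finset.prod_eq_one hR
  rw [Finset.prod_mul_distrib, Finset.prod_const, Finset.prod_pow, ← mul_pow] at hprod
  exact (pow_eq_one_iff.mp hprod).resolve_right hne

theorem G5E_xRY (h : CMA F A B Om j act) (hV : GV A B V) {β : 𝓞 F} (hβ : Prime β) (hv : V.valuation (ak Ω β) < 1)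
    {S : Finset (Pt (WAB A B) Ω)} (hS : TN act β S) {Y : Pt (WAB A B) Ω} (hYK : ¬ Ker V Y) {R : Pt (WAB A B) Ω}
    (hR : R ∈ S) : V.valuation (xc R - xc Y) = V.valuation (xc R) := by
  refine Valuation.map_sub_eq_of_lt_left _ (lt_of_le_of_lt (not_ker V hYK).2 ?_)
  exact (ker_iff V ((hS R).1 hR).2).1 (tor_ker h hV hβ hv ((hS R).1 hR).1)

/-- Chunk G5E. Suppose act β X in Ker, X not in Ker. act β X ≠ 0 (else X in Tor, tor_ker). Y outside Hb (Hb_ne). e2: V(xc (act β X) - xc (act β Y)) = V(xc (act β X)) > 1; V(xc R - xc Y) = V(xc R) for R in S; so the left side has value > 1 by prod_xR; the right side has value ≤ 1 (X + R not in Ker because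
R is in Ker and X is not; Y not in Ker): contradiction. -/
theorem ker_red (h : CMA F A B Om j act) (hV : GV A B V) {β : 𝓞 F} (hβ : Prime β)
    (hv : V.valuation (ak Ω β) < 1) {X : Pt (WAB A B) Ω} (hX : Ker V (act β X)) : Ker V X := by
  classical
  by_contra hXK
  obtain ⟨S, hS, -⟩ := exists_TN h hβ.ne_zero
  have haX0 : act β X ≠ 0 := fun h0 => hXK (tor_ker h hV hβ hv (T := X) h0)
  obtain ⟨Y, hY⟩ := Hb_ne h hV hβ.ne_zero
  have hYK : ¬ Ker V Y := (Hb_add h hV hY (R := 0) (map_zero _)).2.1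
  have haY : ¬ Ker V (act β Y) := hY
  have h1 : 1 < V.valuation (xc (act β X)) := (ker_iff V haX0).1 hX
  have h2 : V.valuation (xc (act β X) - xc (act β Y)) = V.valuation (xc (act β X)) :=
    Valuation.map_sub_eq_of_lt_left _ (lt_of_le_of_lt (not_ker V haY).2 h1)
  have he := congrArg V.valuation (h.e2 β S hβ.ne_zero hS X Y haX0 (not_ker V haY).1)
  rw [map_mul, map_mul, map_mul, map_pow, map_prod, map_prod, h2,
    Finset.prod_congr rfl fun R hR => G5E_xRY h hV hβ hv hS hYK hR, mul_right_comm,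
    prod_xR h hV hβ hv hS, one_mul] at he
  have h3 : V.valuation (xc X - xc Y) * ∏ R ∈ S, V.valuation (xc (X + R) - xc Y) ≤ 1 := by
    refine (mul_le_of_le_one_right' ?_).trans (V.valuation.map_sub_le (not_ker V hXK).2 (not_ker V hYK).2)
    refine Finset.prod_le_one' fun R hR => ?_
    refine V.valuation.map_sub_le (not_ker V fun hk => hXK ?_).2 (not_ker V hYK).2
    have := ksub hV hk (tor_ker h hV hβ hv ((hS R).1 hR).1)
    rw [add_sub_cancel_right] at this
    exact this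
  rw [← he] at h3
  exact absurd h1 (not_lt.2 h3)

/-- Chunk G5E. If Q = 0 or Q + R = 0 for some R in S then both sides are 0 (tt 0 = 0). Otherwise act β Q ≠ 0 (Q is not killed by β), Y outside Hb; e2 with X = Q: V(xc (act β Q) - xc (act β Y)) = V(xc (act β Q)), V(xc (Q + R) - xc Y) = V(xc (Q + R)) > 1, V(xc R - xc Y) = V(xc R); prod_xR: V(xc (act β Q)) =
V(xc Q) * prod V(xc (Q + R)); squares of tt by tt_val, then pow_left_injective. -/
theorem ker_prod (h : CMA F A B Om j act) (hV : GV A B V) {β : 𝓞 F} (hβ : Prime β)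
    (hv : V.valuation (ak Ω β) < 1) {S : Finset (Pt (WAB A B) Ω)} (hS : TN act β S) {Q : Pt (WAB A B) Ω}
    (hQ : Ker V Q) :
    V.valuation (tt Q) * ∏ R ∈ S, V.valuation (tt (Q + R)) = V.valuation (tt (act β Q)) := by
  classical
  have htt0 : tt (0 : Pt (WAB A B) Ω) = 0 := rfl
  by_cases hQ0 : Q = 0
  · rw [hQ0, map_zero, htt0, map_zero, zero_mul]
  by_cases hQR : ∃ R ∈ S, Q + R = 0
  · obtain ⟨R, hR, h1⟩ := hQR
    have h2 : act β Q = 0 := by
      rw [eq_neg_of_add_eq_zero_left h1, map_neg, ((hS R).1 hR).1, neg_zero]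
    rw [h2, htt0, map_zero, Finset.prod_eq_zero hR (by rw [h1, htt0, map_zero]), mul_zero]
  push Not at hQR
  have haQ0 : act β Q ≠ 0 := by
    intro h0
    refine hQR (-Q) ((hS (-Q)).2 ⟨?_, neg_ne hQ0⟩) (add_neg_cancel Q)
    rw [map_neg, h0, neg_zero]
  have hSK : ∀ R ∈ S, Ker V R := fun R hR => tor_ker h hV hβ hv ((hS R).1 hR).1
  have hQRK : ∀ R ∈ S, Ker V (Q + R) := fun R hR => kadd hV hQ (hSK R hR)
  have haQ : Ker V (act β Q) := ker_act h hV β hQ
  obtain ⟨Y, hY⟩ := Hb_ne h hV hβ.ne_zero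
  have hYK : ¬ Ker V Y := (Hb_add h hV hY (R := 0) (map_zero _)).2.1
  have haY : ¬ Ker V (act β Y) := hY
  have hgen : ∀ {P Z : Pt (WAB A B) Ω}, Ker V P → P ≠ 0 → ¬ Ker V Z →
      V.valuation (xc P - xc Z) = V.valuation (xc P) := fun hP hP0 hZ =>
    Valuation.map_sub_eq_of_lt_left _ (lt_of_le_of_lt (not_ker V hZ).2 ((ker_iff V hP0).1 hP))
  have he := congrArg V.valuation (h.e2 β S hβ.ne_zero hS Q Y haQ0 (not_ker V haY).1)
  rw [map_mul, map_mul, map_mul, map_pow, map_prod, map_prod, hgen haQ haQ0 haY, hgen hQ hQ0 hYK,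
    Finset.prod_congr rfl fun R hR => hgen (hSK R hR) ((hS R).1 hR).2 hYK,
    Finset.prod_congr rfl fun R hR => hgen (hQRK R hR) (hQR R hR) hYK, mul_right_comm,
    prod_xR h hV hβ hv hS, one_mul] at he
  have h1 := (tt_val hV haQ haQ0).1
  have h2 := (tt_val hV hQ hQ0).1
  have h3 : ∏ R ∈ S, (V.valuation (tt (Q + R)) ^ 2 * V.valuation (xc (Q + R))) = 1 :=
    Finset.prod_eq_one fun R hR => (tt_val hV (hQRK R hR) (hQR R hR)).1
  rw [Finset.prod_mul_distrib, Finset.prod_pow] at h3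
  have hne : V.valuation (xc (act β Q)) ≠ 0 := by
    intro hz
    rw [hz, mul_zero] at h1
    exact zero_ne_one h1
  refine (pow_left_inj₀ zero_le zero_le two_ne_zero).1 (mul_right_cancel₀ hne ?_)
  rw [h1, he, mul_pow, mul_mul_mul_comm, h2, h3, one_mul]

end H55K
end

-- from Lib.H55K.SKR
section

/-! # H55K, part S: the kernel of reduction (in the form of H13S/GIA) -/

open NumberField IsDedekindDomain WeierstrassCurve

namespace H55K.S

open H55P (IQ embF eF LF Per IsHecke Pt ac Inert Dec Nm)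
open H35P (WAB Ker tt)
open H13S (Abv)

variable {F : Type} [Field F] [NumberField F] [IQ F] {A B : F} {Om : ℂ} {Ω : Type} [Field Ω] [DecidableEq Ω]
  [Algebra F Ω] {j : Ω →+* ℂ} {act : 𝓞 F →+* AddMonoid.End (Pt (WAB A B) Ω)} {V : ValuationSubring Ω}

theorem kr_add (hG : GV A B V) {P Q : Pt (WAB A B) Ω} (hP : Ker V P) (hQ : Ker V Q) : Ker V (P + Q) :=
  H35P.ker_add (gv_good hG).toIntW P Q hP hQ

theorem kr_neg {P : Pt (WAB A B) Ω} (hP : Ker V P) : Ker V (-P) := (H35P.ker_neg P).2 hP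

theorem kr_sub (hG : GV A B V) {P Q : Pt (WAB A B) Ω} (hP : Ker V P) (hQ : Ker V Q) : Ker V (P - Q) := by
  rw [sub_eq_add_neg]
  exact kr_add hG hP (kr_neg hQ)

theorem kr_tt_lt (hG : GV A B V) {P : Pt (WAB A B) Ω} (hP : Ker V P) : V.valuation (tt P) < 1 :=
  H35P.tt_lt (gv_good hG).toIntW P hP

theorem kr_tt_zero (hG : GV A B V) {P : Pt (WAB A B) Ω} (hP : Ker V P) : tt P = 0 ↔ P = 0 :=
  H35P.tt_eq_zero (gv_good hG).toIntW P hP

/-- t is additive modulo squares. -/
theorem kr_tt_add (hG : GV A B V) {P Q : Pt (WAB A B) Ω} (hP : Ker V P) (hQ : Ker V Q) (c : V.ValueGroup)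
    (h1 : V.valuation (tt P) ≤ c) (h2 : V.valuation (tt Q) ≤ c) :
    V.valuation (tt (P + Q) - tt P - tt Q) ≤ c ^ 2 := tt_add2 hG hP hQ c h1 h2

theorem kr_act (hA : CMA F A B Om j act) (hG : GV A B V) (a : 𝓞 F) {P : Pt (WAB A B) Ω} (hP : Ker V P) :
    Ker V (act a P) := ker_act hA hG a hP

/-- t(a P) = a t(P) modulo squares. -/
theorem kr_tt_act (hA : CMA F A B Om j act) (hG : GV A B V) (a : 𝓞 F) {P : Pt (WAB A B) Ω} (hP : Ker V P) :
    V.valuation (tt (act a P) - ak Ω a * tt P) ≤ V.valuation (tt P) ^ 2 := tt_act hA hG a hP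

/-- Points killed by an element which is a unit are not in the kernel of reduction. -/
theorem kr_tor (hA : CMA F A B Om j act) (hG : GV A B V) (β : 𝓞 F) (hβ : vo V β = 1) {T : Pt (WAB A B) Ω}
    (hT : T ∈ Tor act β) (hK : Ker V T) : T = 0 := tor_unit hA hG hβ hT hK

/-- The points killed by a prime element below V. -/
theorem kr_tor_ram (hA : CMA F A B Om j act) (hG : GV A B V) (β : 𝓞 F) (hβ : Prime β) (hV : vo V β < 1)
    {T : Pt (WAB A B) Ω} (hT : T ∈ Tor act β) (h0 : T ≠ 0) :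
    Ker V T ∧ V.valuation (tt T) ^ (Nm β - 1) = vo V β := tor_ram hA hG hβ hV hT h0

/-- The product formula. -/
theorem kr_prod (hA : CMA F A B Om j act) (hG : GV A B V) (β : 𝓞 F) (hβ : Prime β) (hV : vo V β < 1)
    {Q : Pt (WAB A B) Ω} (hQ : Ker V Q) :
    ∏ᶠ R : Tor act β, V.valuation (tt (Q + (R : Pt (WAB A B) Ω))) = V.valuation (tt (act β Q)) := by
  classical
  obtain ⟨S, hS, -⟩ := exists_TN hA hβ.ne_zero
  rw [← ker_prod hA hG hβ hV hS hQ]
  have h0 : (0 : Pt (WAB A B) Ω) ∉ S := fun h => ((hS 0).1 h).2 rfl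
  have h1 : V.valuation (tt Q) * ∏ R ∈ S, V.valuation (tt (Q + R)) =
      ∏ R ∈ insert (0 : Pt (WAB A B) Ω) S, V.valuation (tt (Q + R)) := by
    rw [Finset.prod_insert h0, add_zero]
  rw [h1]
  have h2 : (Tor act β : Set (Pt (WAB A B) Ω)) = ((insert (0 : Pt (WAB A B) Ω) S : Finset _) : Set _) := by
    ext T
    rw [SetLike.mem_coe, Finset.mem_coe, Finset.mem_insert, hS, mem_Tor]
    constructor
    · intro h
      by_cases h3 : T = 0
      · exact Or.inl h3
      · exact Or.inr ⟨h, h3⟩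
    · rintro (rfl | h)
      · exact map_zero _
      · exact h.1
  have h3 := finprod_set_coe_eq_finprod_mem (f := fun R : Pt (WAB A B) Ω => V.valuation (tt (Q + R)))
    (Tor act β : Set (Pt (WAB A B) Ω))
  refine h3.trans ?_
  rw [h2, finprod_mem_coe_finset]

/-! Inertia and decomposition groups. -/

omit [NumberField F] [IQ F] [DecidableEq Ω] in
theorem qv_dec (V : ValuationSubring Ω) (s : Ω ≃ₐ[F] Ω) (hs : Inert V s) (x : Ω) : s x ∈ V ↔ x ∈ V := by
  constructor
  · intro hx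
    by_contra hcon
    have h1 : 1 < V.valuation x := by
      rw [← not_le, V.valuation_le_one_iff]
      exact hcon
    have x0 : V.valuation x ≠ 0 := (zero_lt_one.trans h1).ne'
    have h2 : V.valuation x⁻¹ < 1 := by
      rw [map_inv₀]
      exact inv_lt_one_of_one_lt₀ h1
    have h3 := hs x⁻¹ ((V.valuation_le_one_iff _).1 h2.le)
    have h4 : V.valuation (s x⁻¹) < 1 := by
      have h5 := V.valuation.map_add_lt h3 h2
      rwa [sub_add_cancel] at h5
    rw [map_inv₀ s, map_inv₀] at h4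
    have h6 : V.valuation (s x) ≤ 1 := (V.valuation_le_one_iff _).2 hx
    have hx0 : x ≠ 0 := by
      rintro rfl
      exact x0 (map_zero _)
    have h7 : V.valuation (s x) ≠ 0 := (V.valuation.ne_zero_iff).2 ((map_ne_zero s).2 hx0)
    exact absurd h4 (not_lt.2 ((one_le_inv₀ (zero_lt_iff.2 h7)).2 h6))
  · intro hx
    have h1 : s x - x ∈ V := (V.valuation_le_one_iff _).1 (hs x hx).le
    have h2 := V.add_mem _ _ h1 hx
    rwa [sub_add_cancel] at h2

omit [NumberField F] [IQ F] [DecidableEq Ω] in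
theorem qv_le (V : ValuationSubring Ω) (s : Ω ≃ₐ[F] Ω) (hs : Inert V s) (a b : Ω) (hb : b ≠ 0) :
    V.valuation (s a) ≤ V.valuation (s b) ↔ V.valuation a ≤ V.valuation b := by
  have h1 := qv_dec V s hs (a / b)
  have h2 : 0 < V.valuation b := zero_lt_iff.2 ((Valuation.ne_zero_iff _).2 hb)
  have h3 : 0 < V.valuation (s b) := zero_lt_iff.2 ((Valuation.ne_zero_iff _).2 ((map_ne_zero s).2 hb))
  rw [← V.valuation_le_one_iff, ← V.valuation_le_one_iff, map_div₀ s, map_div₀, map_div₀,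
    div_le_one₀ h3, div_le_one₀ h2] at h1
  exact h1

omit [NumberField F] [IQ F] [DecidableEq Ω] in
theorem qv_orb [Algebra.IsAlgebraic F Ω] (s : Ω ≃ₐ[F] Ω) (x : Ω) : ∃ n : ℕ, 0 < n ∧ (s ^ n) x = x := by
  have hx : IsIntegral F x := (Algebra.IsAlgebraic.isAlgebraic x).isIntegral
  have hroot : ∀ k : ℕ, (s ^ k) x ∈ (minpoly F x).rootSet Ω := by
    intro k
    rw [Polynomial.mem_rootSet]
    refine ⟨minpoly.ne_zero hx, ?_⟩
    have h1 := Polynomial.aeval_algHom_apply ((s ^ k : Ω ≃ₐ[F] Ω) : Ω →ₐ[F] Ω) x (minpoly F x)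
    rw [minpoly.aeval, map_zero] at h1
    exact h1
  obtain ⟨i, j, hij, he⟩ := Finite.exists_ne_map_eq_of_infinite
    (fun k : ℕ => (⟨(s ^ k) x, hroot k⟩ : (minpoly F x).rootSet Ω))
  have he' : (s ^ i) x = (s ^ j) x := congrArg Subtype.val he
  have key : ∀ i j : ℕ, i < j → (s ^ i) x = (s ^ j) x → ∃ n : ℕ, 0 < n ∧ (s ^ n) x = x := by
    intro i j hlt he
    refine ⟨j - i, by omega, ?_⟩
    apply (s ^ i).injective
    rw [← AlgEquiv.mul_apply, ← pow_add, he]
    congr 2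
    omega
  rcases lt_or_gt_of_ne hij with h | h
  · exact key i j h he'
  · exact key j i h he'.symm

omit [NumberField F] [IQ F] [DecidableEq Ω] in
theorem qv_val [Algebra.IsAlgebraic F Ω] (V : ValuationSubring Ω) (s : Ω ≃ₐ[F] Ω) (hs : Inert V s)
    (x : Ω) : V.valuation (s x) = V.valuation x := by
  by_cases hx : x = 0
  · rw [hx, map_zero]
  obtain ⟨n, hn, hnx⟩ := qv_orb s x
  have hne : ∀ k : ℕ, (s ^ k) x ≠ 0 := fun k => (map_ne_zero (s ^ k)).2 hx
  have hs1 : ∀ k : ℕ, (s ^ (k + 1)) x = s ((s ^ k) x) := fun k => by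
    rw [pow_succ', AlgEquiv.mul_apply]
  have h0 : (s ^ 0) x = x := by rw [pow_zero]; rfl
  rcases lt_trichotomy (V.valuation (s x)) (V.valuation x) with h | h | h
  · exfalso
    have hstep : ∀ k : ℕ, V.valuation ((s ^ (k + 1)) x) < V.valuation ((s ^ k) x) := by
      intro k
      induction k with
      | zero =>
        rw [hs1, h0]
        exact h
      | succ k ih =>
        rw [hs1 (k + 1)]
        conv_rhs => rw [hs1 k]
        rw [← not_le] at ih ⊢
        rwa [qv_le V s hs _ _ (hne _)]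
    have h1 := strictAnti_nat_of_succ_lt (f := fun k => V.valuation ((s ^ k) x)) hstep hn
    simp only [hnx, h0] at h1
    exact lt_irrefl _ h1
  · exact h
  · exfalso
    have hstep : ∀ k : ℕ, V.valuation ((s ^ k) x) < V.valuation ((s ^ (k + 1)) x) := by
      intro k
      induction k with
      | zero =>
        rw [hs1, h0]
        exact h
      | succ k ih =>
        rw [hs1 (k + 1)]
        conv_lhs => rw [hs1 k]
        rw [← not_le] at ih ⊢
        rwa [qv_le V s hs _ _ (hne _)]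
    have h1 := strictMono_nat_of_lt_succ (f := fun k => V.valuation ((s ^ k) x)) hstep hn
    simp only [hnx, h0] at h1
    exact lt_irrefl _ h1

theorem qv_unit (V : ValuationSubring Ω) {π x : 𝓞 F} (hπ : Prime π) (hV : vo V π < 1) (hx : ¬ π ∣ x) :
    vo V x = 1 := by
  obtain ⟨u, v, huv⟩ := (hπ.irreducible.coprime_iff_not_dvd).2 hx
  refine le_antisymm (vo_le V x) ?_
  by_contra hcon
  push Not at hcon
  have h1 : V.valuation (algebraMap F Ω ((u * π : 𝓞 F) : F) + algebraMap F Ω ((v * x : 𝓞 F) : F)) < 1 := by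
    refine Valuation.map_add_lt _ ?_ ?_
    · change vo V (u * π) < 1
      rw [vo_mul]
      exact lt_of_le_of_lt (mul_le_mul' (vo_le V u) le_rfl) (by rwa [one_mul])
    · change vo V (v * x) < 1
      rw [vo_mul]
      exact lt_of_le_of_lt (mul_le_mul' (vo_le V v) le_rfl) (by rwa [one_mul])
  have h2 : algebraMap F Ω ((u * π : 𝓞 F) : F) + algebraMap F Ω ((v * x : 𝓞 F) : F) = 1 := by
    rw [← map_add]
    have : ((u * π : 𝓞 F) : F) + ((v * x : 𝓞 F) : F) = ((u * π + v * x : 𝓞 F) : F) := rfl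
    rw [this, huv]
    exact map_one _
  rw [h2, map_one] at h1
  exact lt_irrefl _ h1

theorem qv_intpow (V : ValuationSubring Ω) {π : 𝓞 F} (hπ : Prime π) (hV : vo V π < 1) (a : F)
    (ha : a ≠ 0) : ∃ k : ℤ, V.valuation (algebraMap F Ω a) = vo V π ^ k := by
  have key : ∀ x : 𝓞 F, x ≠ 0 → ∃ n : ℕ, vo V x = vo V π ^ n := by
    intro x hx
    obtain ⟨n, x', hx', he⟩ := WfDvdMonoid.max_power_factor hx hπ.irreducible
    refine ⟨n, ?_⟩
    rw [he, vo_mul, vo_pow, qv_unit V hπ hV hx', mul_one]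
  obtain ⟨x, y, hy, rfl⟩ := IsFractionRing.div_surjective (A := 𝓞 F) a
  have hy0 : y ≠ 0 := nonZeroDivisors.ne_zero hy
  have hx0 : x ≠ 0 := by
    rintro rfl
    rw [map_zero, zero_div] at ha
    exact ha rfl
  obtain ⟨n, hn⟩ := key x hx0
  obtain ⟨m, hm⟩ := key y hy0
  have hp0 := vo_ne V hπ.ne_zero
  refine ⟨(n : ℤ) - m, ?_⟩
  rw [map_div₀, map_div₀, zpow_sub₀ hp0, zpow_natCast, zpow_natCast, ← hn, ← hm]


/-- Inertia preserves values. -/
theorem in_val [IsAlgClosure F Ω] (s : Ω ≃ₐ[F] Ω) (hs : Inert V s) (x : Ω) :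
    V.valuation (s x) = V.valuation x := by
  have hal : Algebra.IsAlgebraic F Ω := IsAlgClosure.isAlgebraic
  exact qv_val V s hs x

omit [NumberField F] [IQ F] [DecidableEq Ω] in
theorem in_dec (s : Ω ≃ₐ[F] Ω) (hs : Inert V s) : Dec V s := fun x => qv_dec V s hs x

omit [NumberField F] [IQ F] in
/-- The decomposition group preserves the kernel of reduction. -/
theorem kr_dec (s : Ω ≃ₐ[F] Ω) (hs : Dec V s) {P : Pt (WAB A B) Ω} (hP : Ker V P) : Ker V (ac (WAB A B) s P) := by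
  cases P with
  | zero => trivial
  | some x y h =>
    show 1 < V.valuation (s x)
    have h1 : 1 < V.valuation x := hP
    rw [← not_le, V.valuation_le_one_iff] at h1 ⊢
    rwa [hs x]

/-- Inertia acts trivially on the reduction. -/
theorem kr_inert (hG : GV A B V) (s : Ω ≃ₐ[F] Ω) (hs : Inert V s) (P : Pt (WAB A B) Ω) :
    Ker V (ac (WAB A B) s P - P) := by
  by_cases hK : Ker V P
  · exact kr_sub hG (kr_dec s (in_dec s hs) hK) hK
  · cases P with
    | zero => exact absurd trivial hK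
    | some x y h =>
      have hx : V.valuation x ≤ 1 := not_lt.1 hK
      have hy : V.valuation y ≤ 1 := H35P.int_y (gv_good hG).toIntW h.1 hx
      have hx' : x ∈ V := (V.valuation_le_one_iff _).1 hx
      have hy' : y ∈ V := (V.valuation_le_one_iff _).1 hy
      have hd := in_dec s hs
      exact H35P.rd (gv_good hG) _ _ ⟨s x, s y, _, x, y, h, rfl, rfl, (hd x).2 hx', (hd y).2 hy', hx', hy',
        hs x hx', hs y hy'⟩

end H55K.S
end
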