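import Mathlib
import Pool.Agent.Lib.H1M.PP.D_H55P_Sel
import Pool.Agent.Lib.H1M.PP.D_H55P_Z10
import Pool.Agent.Lib.H1M.PP.M001
import Pool.Agent.Lib.H1M.PP.M016
import Pool.Agent.Lib.H1M.PP.M017
import Pool.Agent.Lib.H1M.PP.M030
import Pool.Agent.Lib.H1M.PP.M036
import Pool.Agent.Lib.H1M.PP.M037
import Pool.Agent.Lib.H1M.PP.M039
import Pool.Agent.Lib.H1M.PP.M041
import Pool.Agent.Lib.H1M.PP.M043

/-! Merged copies (to shorten the build) of Lib.H13X.XN1, Lib.H55K.UB10A, Lib.H55K.UB1A, Lib.H55K.UB1B, Lib.H55K.UB6A, Lib.H55K.UB6B, Lib.H55K.UB7A, Lib.H55K.UB7B, Lib.H55K.Y7A, Lib.H55K.Y7C, Lib.H55K.Y7D, Lib.H55K.G7C, Lib.H55K.G7D. -/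

-- from Lib.H13X.XN1
section

/-! # H13X: ports of GN6c, GN8a, GN8b, GN9a to all F -/

open NumberField IsDedekindDomain WeierstrassCurve

namespace H13X

open H55P (IQ embF eF LF Per IsHecke Pt ac Inert Dec Nm Coc)
open H35P (WAB Ker tt)
open H55K (Tor ak xc yc CMA Dta GV GMod cj cj_cj mul_cj cj_prime cj_dvd cj_nat Nm_cj Nm_mul Nm_nat)
open H55K.S
open H55R (Pl ord es fs smulP)
open H13S (Abv)
open H13Y (guN EqHomN LocN Kap kmk kmk_zero kmk_surj SU mem_SU SU_act exists_lev)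
open H99B (Lev)

variable {F : Type} [Field F] [NumberField F] [IQ F]

/-- F ⊆ N is not real, so N is totally complex: the number of infinite places is [N : F]. -/
theorem places_card (N : Type) [Field N] [NumberField N] [Algebra F N] :
    (∀ v : InfinitePlace N, v.IsComplex) ∧ Fintype.card (InfinitePlace N) = Module.finrank F N := by
  classical
  have hreal := H55K.Ab.b3_real F
  have hc : ∀ v : InfinitePlace N, v.IsComplex := by
    intro v
    rw [← InfinitePlace.not_isReal_iff_isComplex]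
    intro h
    have h1 : (v.comap (algebraMap F N)).IsReal := h.comap (algebraMap F N)
    have h3 : 0 < InfinitePlace.nrRealPlaces F := Fintype.card_pos_iff.2 ⟨⟨_, h1⟩⟩
    omega
  refine ⟨hc, ?_⟩
  have h0 : InfinitePlace.nrRealPlaces N = 0 := by
    rw [InfinitePlace.nrRealPlaces, Fintype.card_eq_zero_iff]
    exact ⟨fun v => (InfinitePlace.not_isReal_iff_isComplex.2 (hc v.1)) v.2⟩
  have h2 := InfinitePlace.card_add_two_mul_card_eq_rank N
  have h4 := InfinitePlace.card_eq_nrRealPlaces_add_nrComplexPlaces N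
  have h5 := Module.finrank_mul_finrank ℚ F N
  have h6 : Module.finrank ℚ F = 2 := IQ.deg
  rw [h6] at h5
  omega

/-- The product of the norms of different primes containing π. -/
theorem prod_norm_le {N : Type} [Field N] [NumberField N] [Algebra F N] {π : 𝓞 F} (h0 : π ≠ 0)
    (T : Finset (Pl N)) (hT : ∀ v ∈ T, algebraMap (𝓞 F) (𝓞 N) π ∈ v.asIdeal) :
    ∏ v ∈ T, Ideal.absNorm v.asIdeal ≤ Nm π ^ Module.finrank F N := by
  classical
  have hinj : Function.Injective (algebraMap (𝓞 F) (𝓞 N)) := FaithfulSMul.algebraMap_injective (𝓞 F) (𝓞 N)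
  have hπ : algebraMap (𝓞 F) (𝓞 N) π ≠ 0 := by
    intro h
    exact h0 (hinj (by rw [h, map_zero]))
  have hdvd : ∏ v ∈ T, v.asIdeal ∣ Ideal.span {algebraMap (𝓞 F) (𝓞 N) π} := by
    have h1 : ∏ v ∈ T, v.asIdeal = ∏ P ∈ T.image (fun v => v.asIdeal), P := by
      rw [Finset.prod_image]
      intro v _ w _ hvw
      exact HeightOneSpectrum.ext hvw
    rw [h1]
    apply Finset.prod_primes_dvd
    · intro P hP
      rw [Finset.mem_image] at hP
      obtain ⟨v, -, rfl⟩ := hP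
      exact v.prime
    · intro P hP
      rw [Finset.mem_image] at hP
      obtain ⟨v, hv, rfl⟩ := hP
      rw [Ideal.dvd_span_singleton]
      exact hT v hv
  have hnorm : Ideal.absNorm (Ideal.span {algebraMap (𝓞 F) (𝓞 N) π}) = Nm π ^ Module.finrank F N := by
    rw [Ideal.absNorm_span_singleton]
    unfold Nm
    rw [Ideal.absNorm_span_singleton, ← Int.natAbs_pow]
    congr 1
    have h1 : ((Algebra.norm ℤ (algebraMap (𝓞 F) (𝓞 N) π) : ℤ) : ℚ) = ((Algebra.norm ℤ π ^ Module.finrank F N : ℤ) : ℚ) := by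
      rw [Algebra.coe_norm_int]
      push_cast
      rw [Algebra.coe_norm_int]
      have h2 : ((algebraMap (𝓞 F) (𝓞 N) π : 𝓞 N) : N) = algebraMap F N (π : F) := rfl
      rw [h2, ← Algebra.norm_norm (S := F), Algebra.norm_algebraMap, map_pow]
    exact_mod_cast h1
  have h1 : Ideal.absNorm (∏ v ∈ T, v.asIdeal) ∣ Ideal.absNorm (Ideal.span {algebraMap (𝓞 F) (𝓞 N) π}) :=
    Ideal.absNorm_dvd_absNorm_of_le (Ideal.le_of_dvd hdvd)
  rw [map_prod, hnorm] at h1
  apply Nat.le_of_dvd _ h1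
  rw [← hnorm]
  apply Nat.pos_of_ne_zero
  rw [Ne, Ideal.absNorm_eq_zero_iff, Ideal.span_singleton_eq_bot]
  exact hπ

/-- π divides l and l 𝓞 N is squarefree: v divides π exactly once. -/
theorem unr_val {l : ℕ} (hl : l ≠ 0) {π : 𝓞 F} (hd : π ∣ (l : 𝓞 F)) {N : Type} [Field N] [NumberField N]
    [Algebra F N] (hU : H55P.UnrP l N) (v : Pl N) (hv : algebraMap (𝓞 F) (𝓞 N) π ∈ v.asIdeal) :
    v.valuation N (algebraMap F N (π : F)) = WithZero.exp (-1 : ℤ) := by
  have hl0 : (l : 𝓞 N) ≠ 0 := Nat.cast_ne_zero.2 hl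
  have hx : algebraMap (𝓞 F) (𝓞 N) π ∣ (l : 𝓞 N) := by
    have h := map_dvd (algebraMap (𝓞 F) (𝓞 N)) hd
    rwa [map_natCast] at h
  have hx0 : algebraMap (𝓞 F) (𝓞 N) π ≠ 0 := fun h => hl0 (by rwa [h, zero_dvd_iff] at hx)
  have h1 : algebraMap F N (π : F) = algebraMap (𝓞 N) N (algebraMap (𝓞 F) (𝓞 N) π) := rfl
  rw [h1, HeightOneSpectrum.valuation_of_algebraMap]
  have hle : v.intValuation (algebraMap (𝓞 F) (𝓞 N) π) ≤ WithZero.exp (-((1 : ℕ) : ℤ)) := by
    rw [HeightOneSpectrum.intValuation_le_pow_iff_dvd, pow_one, Ideal.dvd_span_singleton]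
    exact hv
  have hnle : ¬ v.intValuation (algebraMap (𝓞 F) (𝓞 N) π) ≤ WithZero.exp (-((2 : ℕ) : ℤ)) := by
    rw [HeightOneSpectrum.intValuation_le_pow_iff_dvd]
    intro h
    have h2 : v.asIdeal * v.asIdeal ∣ Ideal.span {(l : 𝓞 N)} := by
      rw [← pow_two]
      refine h.trans ?_
      rw [Ideal.dvd_iff_le, Ideal.span_singleton_le_span_singleton]
      exact hx
    have h3 := hU v.asIdeal h2
    exact v.isPrime.ne_top (Ideal.isUnit_iff.1 h3)
  rw [HeightOneSpectrum.intValuation_if_neg _ hx0] at hle hnle ⊢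
  rw [WithZero.exp_le_exp] at hle hnle
  congr 1
  push_cast at hle hnle
  omega

theorem gn8b_fin {L : Type} [Field L] [NumberField L] [Algebra F L] {π : 𝓞 F} (h0 : π ≠ 0) :
    Finite {W : Pl L // algebraMap (𝓞 F) (𝓞 L) π ∈ W.asIdeal} := by
  have h1 : algebraMap (𝓞 F) (𝓞 L) π ≠ 0 := by
    intro h
    apply h0
    exact (FaithfulSMul.algebraMap_injective (𝓞 F) (𝓞 L)) (by rw [h, map_zero])
  have h2 : Ideal.span {algebraMap (𝓞 F) (𝓞 L) π} ≠ 0 := by
    simpa [Ideal.span_singleton_eq_bot] using h1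
  have h3 := Ideal.finite_factors h2
  refine Set.Finite.to_subtype (h3.subset ?_)
  intro W hW
  show W.asIdeal ∣ _
  rw [Ideal.dvd_span_singleton]
  exact hW

theorem gn8b_norm {N L : Type} [Field N] [NumberField N] [Field L] [NumberField L] [Algebra N L] (W : Pl L)
    (hs : ∀ b : Kap W, ∃ y : 𝓞 N, kmk W (algebraMap (𝓞 N) (𝓞 L) y) = b) :
    Nat.card (Kap W) = Ideal.absNorm (W.under (𝓞 N)).asIdeal := by
  set f : 𝓞 N →+* Kap W := (kmk W).comp (algebraMap (𝓞 N) (𝓞 L)) with hf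
  have hsur : Function.Surjective f := hs
  have hker : RingHom.ker f = (W.under (𝓞 N)).asIdeal := by
    ext y
    rw [RingHom.mem_ker, hf, RingHom.comp_apply, kmk_zero]
    rfl
  rw [Ideal.absNorm_apply, Submodule.cardQuot_apply, ← hker]
  exact Nat.card_congr (RingHom.quotientKerEquivOfSurjective hsur).symm.toEquiv

/-- The levels at all primes above π. -/
theorem exists_Lam {l : ℕ} [Fact l.Prime] {π : 𝓞 F} (h0 : π ≠ 0) {N L : Type} [Field N] [NumberField N]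
    [Field L] [NumberField L] [Algebra F N] [Algebra N L] [Algebra F L] [IsScalarTower F N L] {k : Type}
    [Field k] [Fintype k] [CharP k l] (hcard : Fintype.card k = Nm π) (χ : Gal(L/N) →* kˣ)
    (hone : ∀ W W' : Pl L, algebraMap (𝓞 F) (𝓞 L) π ∈ W.asIdeal → W.under (𝓞 N) = W'.under (𝓞 N) → W = W')
    (hloc : ∀ W : Pl L, algebraMap (𝓞 F) (𝓞 L) π ∈ W.asIdeal →
      ∃ (j : k →+* Kap W) (t : Lˣ), LocN j χ W t (kmk W)) :
    ∃ (Λ : Type) (_ : AddCommGroup Λ) (_ : Module k Λ) (_ : Module.Finite k Λ) (f : Lˣ → Λ),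
      Module.finrank k Λ ≤ Module.finrank F N ∧
      (∀ x y : Lˣ, (∀ W : Pl L, algebraMap (𝓞 F) (𝓞 L) π ∈ W.asIdeal → (l : ℤ) ∣ ord W x) →
        (∀ W : Pl L, algebraMap (𝓞 F) (𝓞 L) π ∈ W.asIdeal → (l : ℤ) ∣ ord W y) → f (x * y) = f x + f y) ∧
      (∀ (σ : Gal(L/N)) (x : Lˣ), (∀ W : Pl L, algebraMap (𝓞 F) (𝓞 L) π ∈ W.asIdeal → (l : ℤ) ∣ ord W x) →
        f (guN σ x) = (χ σ : k) • f x) ∧
      ∀ x : Lˣ, (∀ W : Pl L, algebraMap (𝓞 F) (𝓞 L) π ∈ W.asIdeal → (l : ℤ) ∣ ord W x) → f x = 0 →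
        ∀ W : Pl L, algebraMap (𝓞 F) (𝓞 L) π ∈ W.asIdeal → Lev l W x := by
  classical
  let S := {W : Pl L // algebraMap (𝓞 F) (𝓞 L) π ∈ W.asIdeal}
  haveI : Finite S := gn8b_fin h0
  haveI : Fintype S := Fintype.ofFinite S
  choose j t hl using fun W : S => hloc W.1 W.2
  have hch : ∀ W : S, CharP (Kap W.1) l := fun W => charP_of_injective_ringHom (j W).injective l
  choose c hc1 hc2 hc3 using fun W : S => haveI := hch W; exists_lev (hl W)
  let Λ := (W : S) → Kap W.1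
  letI m : ∀ W : S, Module k (Kap W.1) := fun W => Module.compHom _ (j W)
  have hsm : ∀ (W : S) (a : k) (x : Kap W.1), a • x = j W a * x := fun W a x => rfl
  haveI : Finite Λ := Pi.finite
  haveI hfin : Module.Finite k Λ := Module.Finite.of_finite
  refine ⟨Λ, inferInstance, inferInstance, hfin, fun x W => c W x, ?_, ?_, ?_, ?_⟩
  · have h1 : Nat.card Λ = ∏ W : S, Nat.card (Kap W.1) := Nat.card_pi
    have h2 : Nat.card Λ = Nat.card k ^ Module.finrank k Λ := Module.natCard_eq_pow_finrank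
    have hinj : Set.InjOn (fun W : S => W.1.under (𝓞 N)) (Finset.univ : Finset S) := by
      intro W _ W' _ h
      exact Subtype.ext (hone W.1 W'.1 W.2 h)
    have h3 : ∏ W : S, Nat.card (Kap W.1) = ∏ v ∈ Finset.univ.image (fun W : S => W.1.under (𝓞 N)), Ideal.absNorm v.asIdeal := by
      rw [Finset.prod_image hinj]
      exact Finset.prod_congr rfl fun W _ => gn8b_norm W.1 (hl W).surj
    have h4 := prod_norm_le (F := F) (N := N) h0 (Finset.univ.image (fun W : S => W.1.under (𝓞 N))) (by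
      intro v hv
      obtain ⟨W, -, rfl⟩ := Finset.mem_image.1 hv
      show algebraMap (𝓞 N) (𝓞 L) (algebraMap (𝓞 F) (𝓞 N) π) ∈ W.1.asIdeal
      have : algebraMap (𝓞 N) (𝓞 L) (algebraMap (𝓞 F) (𝓞 N) π) = algebraMap (𝓞 F) (𝓞 L) π := by
        rw [← IsScalarTower.algebraMap_apply]
      rw [this]
      exact W.2)
    rw [← h3, ← h1, h2, ← hcard, Nat.card_eq_fintype_card] at h4
    exact (Nat.pow_le_pow_iff_right Fintype.one_lt_card).1 h4
  · intro x y hx hy
    funext W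
    exact hc1 W x y (hx W.1 W.2) (hy W.1 W.2)
  · intro σ x hx
    funext W
    exact hc2 W σ x (hx W.1 W.2)
  · intro x hx h W hW
    exact hc3 ⟨W, hW⟩ x (hx W hW) (congrFun h ⟨W, hW⟩)

end H13X
end

-- from Lib.H55K.UB10A
section

/-! # H55K: elliptic units: the main theorem -/

open NumberField IsDedekindDomain WeierstrassCurve

namespace H55K

open H55P (IQ embF eF LF Per IsHecke Pt ac Inert Dec Nm)
open H35P (WAB Ker tt)


variable {F : Type} [Field F] [NumberField F] [IQ F] {A B : F} {Om : ℂ} {Ω : Type} [Field Ω] [DecidableEq Ω]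
  [Algebra F Ω] {j : Ω →+* ℂ} {act : 𝓞 F →+* AddMonoid.End (Pt (WAB A B) Ω)} {m : Ideal (𝓞 F)}
  {ψ : Ideal (𝓞 F) →*₀ 𝓞 F} {l : ℕ} {μ : 𝓞 F} {a : ℕ} {ρ τ : Pt (WAB A B) Ω} {H R : Finset (𝓞 F)}
  {D S : Finset (Pt (WAB A B) Ω)}

/-- Chunk UB10A (S/M). The finite set: the set of h.fin and the primes containing l * Nm μ * a (Ideal.finite_factors). v outside it, absNorm v = q prime, β = ψ v: v does not contain m (else Nm μ is in v), so IsCoprime v m, span {β} = v, Prm β, β prime, IsCoprime β l, β prime to a, q prime to l and Nm μ and a (q is in v), Nm β = q, q • R = 0 for R in Tor act β (tor_nm). -/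
theorem fin_set (h : Dta A B Om j act m ψ l) (hU : UDat Om j act m ψ l μ a ρ τ H R D S) :
    ∃ E : Set (HeightOneSpectrum (𝓞 F)), E.Finite ∧ ∀ v ∉ E, (Ideal.absNorm v.asIdeal).Prime →
      Prime (ψ v.asIdeal) ∧ Prm m ψ (ψ v.asIdeal) ∧ IsCoprime (ψ v.asIdeal) (a : 𝓞 F) ∧
      IsCoprime (ψ v.asIdeal) (l : 𝓞 F) ∧ Nat.Coprime (Nm (ψ v.asIdeal)) l ∧
      Nat.Coprime (Nm (ψ v.asIdeal)) (Nm μ) ∧
      (∀ V : ValuationSubring Ω, V.valuation (ak Ω (ψ v.asIdeal)) < 1 → GV A B V ∧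
        V.valuation (a : Ω) = 1) := by
  obtain ⟨S₀, hS₀, hfin⟩ := h.fin
  have hl0 : (l : 𝓞 F) ≠ 0 := Nat.cast_ne_zero.2 h.prime.ne_zero
  have hm0 : (Nm μ : 𝓞 F) ≠ 0 := Nat.cast_ne_zero.2 fun h0 => hU.mu0 (H55P.Nm_eq_zero.1 h0)
  have ha0 : (a : 𝓞 F) ≠ 0 := Nat.cast_ne_zero.2 (by have := hU.a0; omega)
  have hI : (Ideal.span {((l : 𝓞 F) * (Nm μ : 𝓞 F)) * (a : 𝓞 F)} : Ideal (𝓞 F)) ≠ 0 := by
    rw [Ideal.zero_eq_bot, Ne, Ideal.span_singleton_eq_bot]
    exact mul_ne_zero (mul_ne_zero hl0 hm0) ha0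
  refine ⟨S₀ ∪ {v | v.asIdeal ∣ Ideal.span {((l : 𝓞 F) * (Nm μ : 𝓞 F)) * (a : 𝓞 F)}},
    hS₀.union (Ideal.finite_factors hI), ?_⟩
  intro v hv hq
  rw [Set.mem_union, not_or] at hv
  obtain ⟨hv1, hv2⟩ := hv
  have hprod : ((l : 𝓞 F) * (Nm μ : 𝓞 F)) * (a : 𝓞 F) ∉ v.asIdeal := by
    intro h0
    apply hv2
    show v.asIdeal ∣ _
    rw [Ideal.dvd_span_singleton]
    exact h0
  have hlv : (l : 𝓞 F) ∉ v.asIdeal := fun h0 => hprod
    (Ideal.mul_mem_right _ _ (Ideal.mul_mem_right _ _ h0))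
  have hmv : (Nm μ : 𝓞 F) ∉ v.asIdeal := fun h0 => hprod
    (Ideal.mul_mem_right _ _ (Ideal.mul_mem_left _ _ h0))
  have hav : (a : 𝓞 F) ∉ v.asIdeal := fun h0 => hprod (Ideal.mul_mem_left _ _ h0)
  have hcop : ∀ I : Ideal (𝓞 F), ¬ I ≤ v.asIdeal → IsCoprime v.asIdeal I := by
    intro I hI
    rw [Ideal.isCoprime_iff_sup_eq]
    by_contra hne
    have h1 : v.asIdeal = v.asIdeal ⊔ I := v.isMaximal.eq_of_le hne le_sup_left
    exact hI (le_sup_right.trans h1.symm.le)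
  have hmle : ¬ m ≤ v.asIdeal := by
    intro h0
    apply hmv
    apply h0
    rw [← hU.mu, ← mul_cj μ]
    exact Ideal.mul_mem_right _ _ (Ideal.mem_span_singleton_self μ)
  have hvm := hcop m hmle
  have hspan : Ideal.span {ψ v.asIdeal} = v.asIdeal := h.hecke.gen _ hvm
  have hβ0 : ψ v.asIdeal ≠ 0 := by
    intro h0
    rw [h0, Ideal.span_singleton_eq_bot.2 rfl] at hspan
    exact v.ne_bot hspan.symm
  have hβp : Prime (ψ v.asIdeal) := by
    rw [← Ideal.span_singleton_prime hβ0, hspan]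
    exact v.isPrime
  have hNm : Nm (ψ v.asIdeal) = Ideal.absNorm v.asIdeal := by
    unfold Nm
    rw [hspan]
  have hcop1 : ∀ x : 𝓞 F, x ∉ v.asIdeal → IsCoprime (ψ v.asIdeal) x := by
    intro x hx
    rw [← Ideal.isCoprime_span_singleton_iff, hspan]
    apply hcop
    intro h0
    exact hx (h0 (Ideal.mem_span_singleton_self x))
  have hcop2 : ∀ n : ℕ, (n : 𝓞 F) ∉ v.asIdeal → Nat.Coprime (Nm (ψ v.asIdeal)) n := by
    intro n hn
    rw [hNm, Nat.Prime.coprime_iff_not_dvd hq]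
    rintro ⟨k, hk⟩
    apply hn
    rw [hk, Nat.cast_mul]
    exact Ideal.mul_mem_right _ _ (Ideal.absNorm_mem v.asIdeal)
  refine ⟨hβp, ⟨by rw [hspan]; exact hvm, by rw [hspan]⟩, hcop1 _ hav, hcop1 _ hlv, hcop2 _ hlv, hcop2 _ hmv, ?_⟩
  intro V hV
  refine ⟨hfin v hv1 V fun x hx => ?_, ?_⟩
  · rw [← hspan, Ideal.mem_span_singleton] at hx
    obtain ⟨y, rfl⟩ := hx
    have e1 : ak Ω (ψ v.asIdeal * y) = ak Ω (ψ v.asIdeal) * ak Ω y := by
      show algebraMap F Ω (algebraMap (𝓞 F) F (ψ v.asIdeal * y)) =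
        algebraMap F Ω (algebraMap (𝓞 F) F (ψ v.asIdeal)) * algebraMap F Ω (algebraMap (𝓞 F) F y)
      rw [map_mul, map_mul]
    rw [e1, map_mul]
    exact (mul_le_of_le_one_right zero_le (ak_le V y)).trans_lt hV
  · obtain ⟨u, w, huw⟩ := hcop1 _ hav
    have e2 : ak Ω u * ak Ω (ψ v.asIdeal) + ak Ω w * (a : Ω) = 1 := by
      have e3 := congrArg (fun t => algebraMap F Ω (algebraMap (𝓞 F) F t)) huw
      simp only [map_add, map_mul, map_natCast, map_one] at e3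
      exact e3
    have h1 : V.valuation (a : Ω) ≤ 1 := by
      have h2 := ak_le V (a : 𝓞 F)
      have e4 : ak Ω (a : 𝓞 F) = (a : Ω) := by
        show algebraMap F Ω (algebraMap (𝓞 F) F (a : 𝓞 F)) = _
        rw [map_natCast, map_natCast]
      rwa [e4] at h2
    refine le_antisymm h1 (not_lt.1 fun h3 => ?_)
    have h4 : V.valuation (ak Ω u * ak Ω (ψ v.asIdeal) + ak Ω w * (a : Ω)) < 1 := by
      refine (V.valuation.map_add _ _).trans_lt (max_lt ?_ ?_)
      · rw [map_mul]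
        exact (mul_le_of_le_one_left zero_le (ak_le V u)).trans_lt hV
      · rw [map_mul]
        exact (mul_le_of_le_one_left zero_le (ak_le V w)).trans_lt h3
    rw [e2, map_one] at h4
    exact lt_irrefl _ h4

end H55K
end

-- from Lib.H55K.UB1A
section

/-! # H55K: elliptic units: the data exist -/

open NumberField IsDedekindDomain WeierstrassCurve

namespace H55K

open H55P (IQ embF eF LF Per IsHecke Pt ac Inert Dec Nm)
open H35P (WAB Ker tt)


variable {F : Type} [Field F] [NumberField F] [IQ F] {A B : F} {Om : ℂ} {Ω : Type} [Field Ω] [DecidableEq Ω]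
  [Algebra F Ω] {j : Ω →+* ℂ} {act : 𝓞 F →+* AddMonoid.End (Pt (WAB A B) Ω)} {m : Ideal (𝓞 F)}
  {ψ : Ideal (𝓞 F) →*₀ 𝓞 F} {l : ℕ} {μ : 𝓞 F} {a : ℕ} {ρ τ : Pt (WAB A B) Ω} {H R : Finset (𝓞 F)}
  {D S : Finset (Pt (WAB A B) Ω)}

omit [IQ F] in
/-- Representatives of the classes which contain an element with the property Pr. -/
theorem ub1a_reps (b : 𝓞 F) (hb : b ≠ 0) (Pr : 𝓞 F → Prop) : ∃ H : Finset (𝓞 F), (∀ h ∈ H, Pr h) ∧
    (∀ y : 𝓞 F, Pr y → ∃ h ∈ H, b ∣ y - h) ∧ (∀ h ∈ H, ∀ h' ∈ H, b ∣ h - h' → h = h') := by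
  classical
  have hne : (Ideal.span {b} : Ideal (𝓞 F)) ≠ ⊥ := by rwa [Ne, Ideal.span_singleton_eq_bot]
  have hfin : Finite (𝓞 F ⧸ (Ideal.span {b} : Ideal (𝓞 F))) := Ideal.finiteQuotientOfFreeOfNeBot _ hne
  let Cl := {c : 𝓞 F ⧸ (Ideal.span {b} : Ideal (𝓞 F)) // ∃ h, Pr h ∧ Ideal.Quotient.mk _ h = c}
  have hfc : Finite Cl := inferInstance
  let _ := Fintype.ofFinite Cl
  let g : Cl → 𝓞 F := fun c => c.2.choose
  have hg1 : ∀ c, Pr (g c) := fun c => c.2.choose_spec.1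
  have hg2 : ∀ c : Cl, Ideal.Quotient.mk _ (g c) = c.1 := fun c => c.2.choose_spec.2
  have hdv : ∀ x y : 𝓞 F, b ∣ x - y ↔ Ideal.Quotient.mk (Ideal.span {b} : Ideal (𝓞 F)) x = Ideal.Quotient.mk _ y := by
    intro x y
    rw [Ideal.Quotient.eq, Ideal.mem_span_singleton]
  refine ⟨Finset.univ.image g, ?_, ?_, ?_⟩
  · intro h hh
    obtain ⟨c, -, rfl⟩ := Finset.mem_image.1 hh
    exact hg1 c
  · intro y hy
    refine ⟨g ⟨Ideal.Quotient.mk _ y, y, hy, rfl⟩, Finset.mem_image.2 ⟨_, Finset.mem_univ _, rfl⟩, ?_⟩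
    rw [hdv, hg2]
  · intro h hh h' hh' hd
    obtain ⟨c, -, rfl⟩ := Finset.mem_image.1 hh
    obtain ⟨c', -, rfl⟩ := Finset.mem_image.1 hh'
    rw [hdv, hg2, hg2] at hd
    rw [Subtype.ext hd]

/-- Chunk UB1A (S/M). Representatives: the quotient 𝓞 F ⧸ span {b} is finite; choose 0 for the zero class and any element of the other classes. -/
theorem exists_Rep (F : Type) [Field F] [NumberField F] [IQ F] (b : 𝓞 F) (hb : b ≠ 0) : ∃ R, Rep b R := by
  classical
  obtain ⟨H, h1, h2, h3⟩ := ub1a_reps b hb (fun x => x = 0 ∨ ¬ b ∣ x)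
  have h0 : (0 : 𝓞 F) ∈ H := by
    obtain ⟨h, hh, hd⟩ := h2 0 (Or.inl rfl)
    rcases h1 h hh with h4 | h4
    · rwa [h4] at hh
    · rw [zero_sub, dvd_neg] at hd
      exact absurd hd h4
  refine ⟨H, h0, ?_, h3⟩
  intro x
  by_cases hx : b ∣ x
  · exact ⟨0, h0, by rwa [sub_zero]⟩
  · exact h2 x (Or.inr hx)

/-- Chunk UB1A. Choose one h in each class modulo μ which contains some h with Prm. -/
theorem exists_HRep (m : Ideal (𝓞 F)) (ψ : Ideal (𝓞 F) →*₀ 𝓞 F) (μ : 𝓞 F) (hμ : μ ≠ 0) :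
    ∃ H, HRep m ψ μ H := by
  obtain ⟨H, h1, h2, h3⟩ := ub1a_reps μ hμ (Prm m ψ)
  exact ⟨H, h1, h2, h3⟩

end H55K
end

-- from Lib.H55K.UB1B
section

/-! # H55K: elliptic units: the data exist -/

open NumberField IsDedekindDomain WeierstrassCurve

namespace H55K

open H55P (IQ embF eF LF Per IsHecke Pt ac Inert Dec Nm)
open H35P (WAB Ker tt)


variable {F : Type} [Field F] [NumberField F] [IQ F] {A B : F} {Om : ℂ} {Ω : Type} [Field Ω] [DecidableEq Ω]
  [Algebra F Ω] {j : Ω →+* ℂ} {act : 𝓞 F →+* AddMonoid.End (Pt (WAB A B) Ω)} {m : Ideal (𝓞 F)}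
  {ψ : Ideal (𝓞 F) →*₀ 𝓞 F} {l : ℕ} {μ : 𝓞 F} {a : ℕ} {ρ τ : Pt (WAB A B) Ω} {H R : Finset (𝓞 F)}
  {D S : Finset (Pt (WAB A B) Ω)}

theorem ub1b_cop {l : ℕ} (hl : l.Prime) {μ : 𝓞 F} (hc : IsCoprime μ (l : 𝓞 F)) : Nat.Coprime (Nm μ) l := by
  rw [Nat.coprime_comm, Nat.Prime.coprime_iff_not_dvd hl]
  intro hd
  have h1 : IsCoprime (cj μ) (l : 𝓞 F) := by
    obtain ⟨u, w, huw⟩ := hc
    refine ⟨cj u, cj w, ?_⟩
    have h2 := congrArg cj huw
    rwa [map_add, map_mul, map_mul, map_one, cj_nat] at h2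
  have h2 : IsCoprime (μ * cj μ) (l : 𝓞 F) := IsCoprime.mul_left hc h1
  rw [mul_cj] at h2
  obtain ⟨k, hk⟩ := hd
  rw [hk, Nat.cast_mul] at h2
  have h3 : IsUnit (l : 𝓞 F) := isCoprime_self.1 (IsCoprime.of_mul_left_left h2)
  obtain ⟨x, hx⟩ := h3.exists_right_inv
  have h4 : Nm ((l : 𝓞 F) * x) = Nm ((1 : ℕ) : 𝓞 F) := by rw [hx, Nat.cast_one]
  rw [Nm_mul, Nm_nat, Nm_nat, one_pow] at h4
  have h5 : l ^ 2 ∣ 1 := ⟨_, h4.symm⟩
  have h6 := hl.two_le
  have h7 := Nat.le_of_dvd one_pos h5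
  nlinarith

theorem ub1b_crt {M l : ℕ} (hM : M ≠ 0) (hl : 5 ≤ l) (hc : Nat.Coprime M l) :
    ∃ a : ℕ, 1 < a ∧ (∃ k, a = 1 + M * k) ∧ ∃ k, a = 2 + l * k := by
  obtain ⟨k, hk1, hk2⟩ := Nat.chineseRemainder hc 1 2
  have hM1 : 1 ≤ M := Nat.one_le_iff_ne_zero.2 hM
  have hML : 5 ≤ M * l := by nlinarith
  refine ⟨k + M * l, by omega, ?_, ?_⟩
  · have h1 : 1 ≡ k + M * l [MOD M] := by
      refine hk1.symm.trans ?_
      rw [Nat.ModEq, Nat.add_mul_mod_self_left]
    obtain ⟨c, hc⟩ := (Nat.modEq_iff_dvd' (by omega)).1 h1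
    exact ⟨c, by omega⟩
  · have h1 : 2 ≡ k + M * l [MOD l] := by
      refine hk2.symm.trans ?_
      rw [Nat.ModEq, Nat.add_mul_mod_self_right]
    obtain ⟨c, hc⟩ := (Nat.modEq_iff_dvd' (by omega)).1 h1
    exact ⟨c, by omega⟩

omit [NumberField F] [IQ F] in
theorem ub1b_sub {act : 𝓞 F →+* AddMonoid.End (Pt (WAB A B) Ω)} {x y : 𝓞 F} {T : Pt (WAB A B) Ω} (h : act (x - y) T = 0) :
    act x T = act y T := by
  have h1 : act x T = act (x - y) T + act y T := by
    have h2 : act x = act (x - y) + act y := by rw [← map_add, sub_add_cancel]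
    rw [h2]
    rfl
  rw [h1, h, zero_add]

omit [NumberField F] [IQ F] in
theorem ub1b_comm {act : 𝓞 F →+* AddMonoid.End (Pt (WAB A B) Ω)} (x y : 𝓞 F) (T : Pt (WAB A B) Ω) :
    act x (act y T) = act y (act x T) := by
  have e1 : act (x * y) = act (y * x) := by rw [mul_comm]
  rw [map_mul, map_mul] at e1
  exact congrArg (fun φ : AddMonoid.End (Pt (WAB A B) Ω) => φ T) e1

/-- Chunk UB1B (M). μ: 𝓞 F is a principal ideal domain (instPIDF), m ≠ bottom (hecke.ne). Nm μ and l are coprime: otherwise l divides Nm μ; h.cop: u μ + w l = 1, Nm (u μ) = (1 - w l)(1 - cj (w l)) (mul_cj, Nm_mul), so l divides 1 in 𝓞 F, Nm_nat. a: the Chinese remainder theorem for naturals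
(Nat.chineseRemainder), plus a multiple of Nm μ * l to get a > 1 and a ≥ 2 + .. so that the naturals k exist. ρ, τ: h.cma.gen for μ and for (a : 𝓞 F) (map_natCast). H, R from exists_HRep, exists_Rep; D = image of H under act · ρ, S = image of R.erase 0 under act · τ (classical). memD: if Prm h then h is congruent
to an element of H modulo μ, act (h - h') ρ = 0. memS: act a Q = 0, Q ≠ 0: Q = act b τ by gen, b replaced by its representative, which is not 0. -/
theorem exists_UDat (h : Dta A B Om j act m ψ l) : ∃ (μ : 𝓞 F) (a : ℕ) (ρ τ : Pt (WAB A B) Ω)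
    (H R : Finset (𝓞 F)) (D S : Finset (Pt (WAB A B) Ω)), UDat Om j act m ψ l μ a ρ τ H R D S := by
  classical
  obtain ⟨μ, hμ'⟩ := (IsPrincipalIdealRing.principal m).principal
  have hμ : Ideal.span {μ} = m := hμ'.symm
  have hμ0 : μ ≠ 0 := by
    rintro rfl
    apply h.hecke.ne
    rw [← hμ]
    simp
  have hcop : Nat.Coprime (Nm μ) l := by
    apply ub1b_cop h.prime
    have h1 := h.cop
    rwa [← hμ, Ideal.isCoprime_span_singleton_iff] at h1
  have hNm : Nm μ ≠ 0 := fun h0 => hμ0 (H55P.Nm_eq_zero.1 h0)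
  obtain ⟨a, ha1, ha2, ha3⟩ := ub1b_crt hNm h.five hcop
  have ha0 : (a : 𝓞 F) ≠ 0 := Nat.cast_ne_zero.2 (by omega)
  obtain ⟨ρ, hρ1, hρ2, hρ3, hρ4⟩ := h.cma.gen μ hμ0
  obtain ⟨τ, hτ1, hτ2, hτ3, hτ4⟩ := h.cma.gen (a : 𝓞 F) ha0
  have hρ1' : act μ ρ = 0 := hρ1
  have hτ1' : act (a : 𝓞 F) τ = 0 := hτ1
  obtain ⟨H, hH⟩ := exists_HRep m ψ μ hμ0
  obtain ⟨R, hR⟩ := exists_Rep F (a : 𝓞 F) ha0
  have hD : ∀ X, X ∈ H.image (fun h => act h ρ) ↔ ∃ h ∈ H, X = act h ρ := by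
    intro X
    rw [Finset.mem_image]
    exact exists_congr fun h => and_congr_right fun _ => eq_comm
  have hS : ∀ Q, Q ∈ (R.erase 0).image (fun b => act b τ) ↔ ∃ b ∈ R, b ≠ 0 ∧ Q = act b τ := by
    intro Q
    rw [Finset.mem_image]
    constructor
    · rintro ⟨b, hb, rfl⟩
      rw [Finset.mem_erase] at hb
      exact ⟨b, hb.2, hb.1, rfl⟩
    · rintro ⟨b, hb, hb0, rfl⟩
      exact ⟨b, Finset.mem_erase.2 ⟨hb0, hb⟩, rfl⟩
  refine ⟨μ, a, ρ, τ, H, R, H.image (fun h => act h ρ), (R.erase 0).image (fun b => act b τ), ?_⟩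
  refine
    { mu := hμ
      mu0 := hμ0
      a0 := ha1
      a1 := ha2
      a2 := ha3
      cop := hcop
      rho := hρ1'
      rhog := fun T hT => hρ2 T hT
      rho0 := hρ3
      rhox := hρ4
      hrep := hH
      rep := hR
      memD := ?_
      memD' := hD
      tau := hτ3
      taux := ?_
      memS := ?_
      memS' := hS }
  · intro X
    rw [hD]
    constructor
    · rintro ⟨y, hy, rfl⟩
      exact ⟨y, hH.prm y hy, rfl⟩
    · rintro ⟨y, hy, rfl⟩
      obtain ⟨z, hz, hd⟩ := hH.ex y hy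
      exact ⟨z, hz, ub1b_sub ((hρ3 _).2 hd)⟩
  · intro b hb
    have h1 := (hτ4 b hb).1
    rwa [map_natCast] at h1
  · intro T
    rw [hS]
    constructor
    · rintro ⟨b, hb, hb0, rfl⟩
      refine ⟨?_, ?_⟩
      · rw [ub1b_comm, hτ1', map_zero]
      · intro h0
        apply hb0
        apply hR.un b hb 0 hR.zero
        rw [sub_zero]
        exact (hτ3 b).1 h0
    · rintro ⟨h1, h2⟩
      obtain ⟨b, rfl⟩ := hτ2 T h1
      obtain ⟨r, hr, hd⟩ := hR.ex b
      have h3 : act b τ = act r τ := ub1b_sub ((hτ3 _).2 hd)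
      refine ⟨r, hr, ?_, h3⟩
      rintro rfl
      apply h2
      rw [h3, map_zero]
      rfl

end H55K
end

-- from Lib.H55K.UB6A
section

/-! # H55K: elliptic units: they are units -/

open NumberField IsDedekindDomain WeierstrassCurve

namespace H55K

open H55P (IQ embF eF LF Per IsHecke Pt ac Inert Dec Nm)
open H35P (WAB Ker tt)


variable {F : Type} [Field F] [NumberField F] [IQ F] {A B : F} {Om : ℂ} {Ω : Type} [Field Ω] [DecidableEq Ω]
  [Algebra F Ω] {j : Ω →+* ℂ} {act : 𝓞 F →+* AddMonoid.End (Pt (WAB A B) Ω)} {m : Ideal (𝓞 F)}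
  {ψ : Ideal (𝓞 F) →*₀ 𝓞 F} {l : ℕ} {μ : 𝓞 F} {a : ℕ} {ρ τ : Pt (WAB A B) Ω} {H R : Finset (𝓞 F)}
  {D S : Finset (Pt (WAB A B) Ω)}

omit [NumberField F] [IQ F] in
theorem ub6a_dvd {G : Type} [AddCommGroup G] {a N : ℕ} {x : G} (hx : a • x = 0) (h : a ∣ N) : N • x = 0 := by
  obtain ⟨c, rfl⟩ := h
  rw [mul_comm, mul_smul, hx, smul_zero]

theorem ub6a_cop (h : Dta A B Om j act m ψ l) (hU : UDat Om j act m ψ l μ a ρ τ H R D S) :
    Nat.Coprime (Nm μ) l := by
  rw [Nat.coprime_comm, h.prime.coprime_iff_not_dvd]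
  rintro ⟨c, hc⟩
  have h1 := h.cop
  rw [← hU.mu, Ideal.isCoprime_span_singleton_iff] at h1
  obtain ⟨u, w, huw⟩ := h1
  have h2 : (l : 𝓞 F) ∣ 1 := by
    have e1 : (Nm μ : 𝓞 F) = (l : 𝓞 F) * (c : 𝓞 F) := by
      rw [hc]
      push_cast
      rfl
    have e2 := mul_cj μ
    have e3 : u * μ = 1 - w * (l : 𝓞 F) := by linear_combination huw
    have e4 : cj u * cj μ = 1 - cj w * (l : 𝓞 F) := by
      have := congrArg cj e3
      rw [map_mul, map_sub, map_one, map_mul, cj_nat] at this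
      exact this
    refine ⟨u * cj u * (c : 𝓞 F) + cj w + w - w * cj w * (l : 𝓞 F), ?_⟩
    have e5 : (u * μ) * (cj u * cj μ) = u * cj u * ((l : 𝓞 F) * (c : 𝓞 F)) := by
      rw [← e1, ← e2]
      ring
    rw [e3, e4] at e5
    linear_combination e5
  have h3 : IsUnit (l : 𝓞 F) := isUnit_of_dvd_one h2
  have h4 := Nm_nat (F := F) l
  unfold Nm at h4
  rw [Ideal.span_singleton_eq_top.2 h3, Ideal.absNorm_top] at h4
  have h5 := h.prime.two_le
  nlinarith

/-- Chunk UB6A (S/M). X in D, T ≠ 0 killed by l, n • R = 0, n prime to l and to Nm μ, k an integer prime to l and Nm μ with k • Q = 0, Kg a subgroup with the property GMod.tors: X + T + R + Q is not in Kg. If V(l) = 1: multiply by Nm μ * n * k (prime to l): that multiple of T is in Kg and killed by l, so 0 (tors), so T = 0. If V(l) < 1: V(Nm μ) = 1 (coprime: u Nm μ + w l = 1);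
multiply by l * n * k: that multiple of X is in Kg, killed by Nm μ, so 0, so X = 0 (D_ne). -/
theorem not_Kg (h : Dta A B Om j act m ψ l) (hU : UDat Om j act m ψ l μ a ρ τ H R D S)
    (V : ValuationSubring Ω) (Kg : AddSubgroup (Pt (WAB A B) Ω))
    (ht : ∀ n : ℕ, V.valuation (n : Ω) = 1 → ∀ T ∈ Kg, n • T = 0 → T = 0) {X T R₁ Q : Pt (WAB A B) Ω}
    (hX : X ∈ D) (hT : l • T = 0) (h0 : T ≠ 0) {n k : ℕ} (hn : n • R₁ = 0) (hnl : Nat.Coprime n l)
    (hnm : Nat.Coprime n (Nm μ)) (hk : k • Q = 0) (hkl : Nat.Coprime k l) (hkm : Nat.Coprime k (Nm μ)) :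
    X + T + R₁ + Q ∉ Kg := by
  intro hZ
  obtain ⟨hX0, hX1⟩ := D_ne h hU hX
  have hcop := ub6a_cop h hU
  by_cases hl : V.valuation (l : Ω) = 1
  · have h1 : (Nm μ * n * k) • (X + T + R₁ + Q) = (Nm μ * n * k) • T := by
      rw [smul_add, smul_add, smul_add, ub6a_dvd hX1 ⟨n * k, by ring⟩, ub6a_dvd hn ⟨Nm μ * k, by ring⟩,
        ub6a_dvd hk ⟨Nm μ * n, by ring⟩]
      abel
    have h2 : (Nm μ * n * k) • T ∈ Kg := by
      rw [← h1]
      exact Kg.nsmul_mem hZ _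
    have h3 : l • ((Nm μ * n * k) • T) = 0 := by
      rw [smul_comm, hT, smul_zero]
    have h4 := ht l hl _ h2 h3
    exact h0 (cop_zero ((hcop.mul_left hnl).mul_left hkl) h4 hT)
  · have hl' : V.valuation (l : Ω) < 1 :=
      lt_of_le_of_ne ((V.valuation_le_one_iff _).2 (natCast_mem V l)) hl
    have hNm : V.valuation (Nm μ : Ω) = 1 := by
      refine le_antisymm ((V.valuation_le_one_iff _).2 (natCast_mem V _)) (not_lt.1 fun h' => ?_)
      obtain ⟨u, w, huw⟩ := Nat.isCoprime_iff_coprime.2 hcop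
      have e1 := congrArg (fun t : ℤ => (t : Ω)) huw
      push_cast at e1
      have e2 : V.valuation ((u : Ω) * (Nm μ : Ω) + (w : Ω) * (l : Ω)) < 1 := by
        refine V.valuation.map_add_lt ?_ ?_
        · rw [map_mul, mul_comm]
          exact mul_lt_one_of_lt_of_le h' ((V.valuation_le_one_iff _).2 (intCast_mem V u))
        · rw [map_mul, mul_comm]
          exact mul_lt_one_of_lt_of_le hl' ((V.valuation_le_one_iff _).2 (intCast_mem V w))
      rw [e1, map_one] at e2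
      exact lt_irrefl _ e2
    have h1 : (l * n * k) • (X + T + R₁ + Q) = (l * n * k) • X := by
      rw [smul_add, smul_add, smul_add, ub6a_dvd hT ⟨n * k, by ring⟩, ub6a_dvd hn ⟨l * k, by ring⟩,
        ub6a_dvd hk ⟨l * n, by ring⟩]
      abel
    have h2 : (l * n * k) • X ∈ Kg := by
      rw [← h1]
      exact Kg.nsmul_mem hZ _
    have h3 : Nm μ • ((l * n * k) • X) = 0 := by
      rw [smul_comm, hX1, smul_zero]
    have h4 := ht (Nm μ) hNm _ h2 h3
    exact hX0 (cop_zero ((hcop.symm.mul_left hnm).mul_left hkm) h4 hX1)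

end H55K
end

-- from Lib.H55K.UB6B
section

/-! # H55K: elliptic units: they are units -/

open NumberField IsDedekindDomain WeierstrassCurve

namespace H55K

open H55P (IQ embF eF LF Per IsHecke Pt ac Inert Dec Nm)
open H35P (WAB Ker tt)


variable {F : Type} [Field F] [NumberField F] [IQ F] {A B : F} {Om : ℂ} {Ω : Type} [Field Ω] [DecidableEq Ω]
  [Algebra F Ω] {j : Ω →+* ℂ} {act : 𝓞 F →+* AddMonoid.End (Pt (WAB A B) Ω)} {m : Ideal (𝓞 F)}
  {ψ : Ideal (𝓞 F) →*₀ 𝓞 F} {l : ℕ} {μ : 𝓞 F} {a : ℕ} {ρ τ : Pt (WAB A B) Ω} {H R : Finset (𝓞 F)}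
  {D S : Finset (Pt (WAB A B) Ω)}

theorem ub6b_a (h : Dta A B Om j act m ψ l) (hU : UDat Om j act m ψ l μ a ρ τ H R D S) :
    Nat.Coprime a l ∧ Nat.Coprime a (Nm μ) := by
  obtain ⟨k, hk⟩ := hU.a1
  obtain ⟨k', hk'⟩ := hU.a2
  constructor
  · rw [hk', Nat.coprime_add_mul_left_left]
    exact (Nat.coprime_primes Nat.prime_two h.prime).2 (by have := h.five; omega)
  · rw [hk, Nat.coprime_add_mul_left_left]
    exact Nat.coprime_one_left _

omit [NumberField F] [IQ F] in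
/-- The point P is in the subset where everything is far from the kernel. -/
theorem ub6b_pt (V : ValuationSubring Ω) {Kg : AddSubgroup (Pt (WAB A B) Ω)} {u : Ω}
    (hG : GMod (WAB A B) V Kg u) {X X' Q : Pt (WAB A B) Ω} (h1 : X ∉ Kg) (h1' : X' ∉ Kg) (hQ : Q ≠ 0)
    (h2 : X - Q ∉ Kg) (h2' : X' - Q ∉ Kg) (h3 : X + Q ∉ Kg) (h3' : X' + Q ∉ Kg) :
    V.valuation (xc X - xc Q) ≠ 0 ∧ V.valuation (xc X - xc Q) = V.valuation (xc X' - xc Q) := by
  have hne : ∀ Y : Pt (WAB A B) Ω, Y ∉ Kg → Y - Q ∉ Kg → Y + Q ∉ Kg → xc Y - xc Q ≠ 0 := by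
    intro Y hY hY1 hY2 h0
    have hY0 : Y ≠ 0 := by
      rintro rfl
      exact hY (zero_mem Kg)
    rcases xc_eq hY0 hQ (sub_eq_zero.1 h0) with h4 | h4
    · apply hY1
      rw [h4, sub_self]
      exact zero_mem Kg
    · apply hY2
      rw [h4, neg_add_cancel]
      exact zero_mem Kg
  refine ⟨(Valuation.ne_zero_iff _).2 (hne X h1 h2 h3), ?_⟩
  by_cases hK : Q ∈ Kg
  · exact hG.far X X' Q h1 h1' hK hQ
  · rw [hG.diff X Q h1 hK h2 h3, hG.diff X' Q h1' hK h2' h3']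

/-- Chunk UB6B (M). h.gmod V: Kg, u. Phi S (X + P)/Phi S (X - P) is the product over Q in S of (xc (X + P) - xc Q)/(xc (X - P) - xc Q) (P = T + R₁). a is prime to l (a = 2 + l k, l odd) and to Nm μ. X ± P, X ± P ± Q are not in Kg (not_Kg, with -T, -R₁, Q or -Q). If Q is not in Kg: both differences have value V(u)^2 ≠ 0 (GMod.diff, une). If Q is in Kg: the two
values are equal (GMod.far) and not 0, since xc (X ± P) = xc Q would give X ± P = ±Q in Kg (xc_eq). -/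
theorem Xi_unit (h : Dta A B Om j act m ψ l) (hU : UDat Om j act m ψ l μ a ρ τ H R D S)
    {T R₁ : Pt (WAB A B) Ω} (hT : l • T = 0) (h0 : T ≠ 0) {n : ℕ} (hn : n • R₁ = 0)
    (hnl : Nat.Coprime n l) (hnm : Nat.Coprime n (Nm μ)) (V : ValuationSubring Ω) :
    V.valuation (Xi D S (T + R₁)) = 1 := by
  obtain ⟨Kg, u, hG⟩ := h.gmod V
  obtain ⟨hal, ham⟩ := ub6b_a h hU
  have hmT : l • (-T) = 0 := by rw [smul_neg, hT, neg_zero]
  have hmT0 : -T ≠ 0 := neg_ne_zero.2 h0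
  have hmn : n • (-R₁) = 0 := by rw [smul_neg, hn, neg_zero]
  have key : ∀ X ∈ D, ∀ Q : Pt (WAB A B) Ω, a • Q = 0 → X + (T + R₁) + Q ∉ Kg ∧ X - (T + R₁) + Q ∉ Kg := by
    intro X hX Q hQ
    constructor
    · have h1 := not_Kg h hU V Kg hG.tors hX hT h0 hn hnl hnm hQ hal ham
      rwa [add_assoc X T R₁] at h1
    · have h1 := not_Kg h hU V Kg hG.tors hX hmT hmT0 hmn hnl hnm hQ hal ham
      have e : X + -T + -R₁ = X - (T + R₁) := by abel
      rwa [e] at h1
  unfold Xi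
  rw [map_prod]
  apply Finset.prod_eq_one
  intro X hX
  have hz : a • (0 : Pt (WAB A B) Ω) = 0 := smul_zero _
  obtain ⟨k1, k1'⟩ := key X hX 0 hz
  rw [add_zero] at k1 k1'
  have hval : ∀ Q ∈ S, V.valuation (xc (X + (T + R₁)) - xc Q) ≠ 0 ∧
      V.valuation (xc (X + (T + R₁)) - xc Q) = V.valuation (xc (X - (T + R₁)) - xc Q) := by
    intro Q hQ
    obtain ⟨hQ0, haQ⟩ := S_ne hU hQ
    obtain ⟨k2, k2'⟩ := key X hX Q haQ
    obtain ⟨k3, k3'⟩ := key X hX (-Q) (by rw [smul_neg, haQ, neg_zero])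
    rw [← sub_eq_add_neg] at k3 k3'
    exact ub6b_pt V hG k1 k1' hQ0 k3 k3' k2 k2'
  have h5 : V.valuation (Phi S (X + (T + R₁))) = V.valuation (Phi S (X - (T + R₁))) := by
    unfold Phi
    rw [map_prod, map_prod]
    exact Finset.prod_congr rfl fun Q hQ => (hval Q hQ).2
  have h6 : V.valuation (Phi S (X + (T + R₁))) ≠ 0 := by
    unfold Phi
    rw [map_prod]
    exact Finset.prod_ne_zero_iff.2 fun Q hQ => (hval Q hQ).1
  rw [map_div₀, ← h5, div_self h6]

end H55K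
end

-- from Lib.H55K.UB7A
section

/-! # H55K: elliptic units: congruences -/

open NumberField IsDedekindDomain WeierstrassCurve

namespace H55K

open H55P (IQ embF eF LF Per IsHecke Pt ac Inert Dec Nm)
open H35P (WAB Ker tt)


variable {F : Type} [Field F] [NumberField F] [IQ F] {A B : F} {Om : ℂ} {Ω : Type} [Field Ω] [DecidableEq Ω]
  [Algebra F Ω] {j : Ω →+* ℂ} {act : 𝓞 F →+* AddMonoid.End (Pt (WAB A B) Ω)} {m : Ideal (𝓞 F)}
  {ψ : Ideal (𝓞 F) →*₀ 𝓞 F} {l : ℕ} {μ : 𝓞 F} {a : ℕ} {ρ τ : Pt (WAB A B) Ω} {H R : Finset (𝓞 F)}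
  {D S : Finset (Pt (WAB A B) Ω)}

omit [NumberField F] [IQ F] [DecidableEq Ω] in
theorem ub7a_prod {ι : Type} (V : ValuationSubring Ω) (s : Finset ι) (f g : ι → Ω)
    (hf : ∀ i ∈ s, V.valuation (f i) ≤ 1) (hg : ∀ i ∈ s, V.valuation (g i) ≤ 1)
    (hfg : ∀ i ∈ s, V.valuation (f i - g i) < 1) :
    V.valuation (∏ i ∈ s, f i - ∏ i ∈ s, g i) < 1 := by
  classical
  induction s using Finset.induction_on with
  | empty => simp
  | insert i s hi ih =>
    rw [Finset.prod_insert hi, Finset.prod_insert hi]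
    have ih' := ih (fun k hk => hf k (Finset.mem_insert_of_mem hk))
      (fun k hk => hg k (Finset.mem_insert_of_mem hk)) (fun k hk => hfg k (Finset.mem_insert_of_mem hk))
    have e : f i * ∏ k ∈ s, f k - g i * ∏ k ∈ s, g k =
        (f i - g i) * ∏ k ∈ s, f k + (∏ k ∈ s, f k - ∏ k ∈ s, g k) * g i := by ring
    rw [e]
    refine V.valuation.map_add_lt ?_ ?_
    · rw [map_mul]
      refine mul_lt_one_of_lt_of_le (hfg i (Finset.mem_insert_self i s)) ?_
      rw [map_prod]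
      exact Finset.prod_le_one' fun k hk => hf k (Finset.mem_insert_of_mem hk)
    · rw [map_mul]
      exact mul_lt_one_of_lt_of_le ih' (hg i (Finset.mem_insert_self i s))

/-- Chunk UB7A (S/M). V good, V(a) = 1: for Z with Z, Z + Q, Z - Q not in Ker for all Q in S: V(Phi S Z) = 1 (cls_diff; Q is not in Ker by ker_tors), and if R₁ is in Ker then V(Phi S (Z + R₁) - Phi S Z) < 1 (transl or cls_conv, products of integral elements). -/
theorem Phi_unit (hU : UDat Om j act m ψ l μ a ρ τ H R D S) {V : ValuationSubring Ω} (hV : GV A B V)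
    (ha : V.valuation (a : Ω) = 1) {Z : Pt (WAB A B) Ω} (hZ : ¬ Ker V Z)
    (hZ' : ∀ Q ∈ S, ¬ Ker V (Z + Q) ∧ ¬ Ker V (Z - Q)) : V.valuation (Phi S Z) = 1 ∧
    ∀ R₁ : Pt (WAB A B) Ω, Ker V R₁ → V.valuation (Phi S (Z + R₁) - Phi S Z) < 1 := by
  have hQ : ∀ Q ∈ S, ¬ Ker V Q := by
    intro Q hQ hK
    obtain ⟨h0, h1⟩ := S_ne hU hQ
    exact h0 (ker_tors hV a ha h1 hK)
  have h1 : ∀ Q ∈ S, V.valuation (xc Z - xc Q) = 1 := fun Q hQS =>
    cls_diff hV hZ (hQ Q hQS) (hZ' Q hQS).2 (hZ' Q hQS).1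
  refine ⟨?_, fun R₁ hR => ?_⟩
  · unfold Phi
    rw [map_prod]
    exact Finset.prod_eq_one h1
  · have h2 : Ker V ((Z + R₁) - Z) := by
      rw [add_sub_cancel_left]
      exact hR
    obtain ⟨h3, h4, -⟩ := cls_conv hV hZ h2
    unfold Phi
    refine ub7a_prod V S _ _ (fun Q hQS => ?_) (fun Q hQS => (h1 Q hQS).le) fun Q _ => ?_
    · exact (V.valuation.map_sub _ _).trans (max_le (not_ker V h3).2 (not_ker V (hQ Q hQS)).2)
    · have e : xc (Z + R₁) - xc Q - (xc Z - xc Q) = xc (Z + R₁) - xc Z := by ring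
      rw [e]
      exact h4

end H55K
end

-- from Lib.H55K.UB7B
section

/-! # H55K: elliptic units: congruences -/

open NumberField IsDedekindDomain WeierstrassCurve

namespace H55K

open H55P (IQ embF eF LF Per IsHecke Pt ac Inert Dec Nm)
open H35P (WAB Ker tt)


variable {F : Type} [Field F] [NumberField F] [IQ F] {A B : F} {Om : ℂ} {Ω : Type} [Field Ω] [DecidableEq Ω]
  [Algebra F Ω] {j : Ω →+* ℂ} {act : 𝓞 F →+* AddMonoid.End (Pt (WAB A B) Ω)} {m : Ideal (𝓞 F)}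
  {ψ : Ideal (𝓞 F) →*₀ 𝓞 F} {l : ℕ} {μ : 𝓞 F} {a : ℕ} {ρ τ : Pt (WAB A B) Ω} {H R : Finset (𝓞 F)}
  {D S : Finset (Pt (WAB A B) Ω)}

omit [NumberField F] [IQ F] [DecidableEq Ω] in
theorem ub7b_val (V : ValuationSubring Ω) {f g : Ω} (hg : V.valuation g = 1) (h : V.valuation (f - g) < 1) :
    V.valuation f = 1 := by
  have h1 : V.valuation (f - g) < V.valuation g := by rwa [hg]
  have h2 := V.valuation.map_add_eq_of_lt_left h1
  rw [add_sub_cancel, hg] at h2
  exact h2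

omit [NumberField F] [IQ F] [DecidableEq Ω] in
theorem ub7b_quot (V : ValuationSubring Ω) {f g f' g' : Ω} (hg : V.valuation g = 1) (h : V.valuation (f - g) < 1)
    (hg' : V.valuation g' = 1) (h' : V.valuation (f' - g') < 1) :
    V.valuation (f / f') = 1 ∧ V.valuation (g / g') = 1 ∧ V.valuation (f / f' - g / g') < 1 := by
  have hf := ub7b_val V hg h
  have hf' := ub7b_val V hg' h'
  have f0 : f' ≠ 0 := by
    rintro rfl
    rw [map_zero] at hf'
    exact zero_ne_one hf'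
  have g0 : g' ≠ 0 := by
    rintro rfl
    rw [map_zero] at hg'
    exact zero_ne_one hg'
  refine ⟨by rw [map_div₀, hf, hf', div_one], by rw [map_div₀, hg, hg', div_one], ?_⟩
  have e : f / f' - g / g' = ((f - g) * g' - g * (f' - g')) / (f' * g') := by
    field_simp
    ring
  rw [e, map_div₀, map_mul V.valuation f' g', hf', hg', one_mul, div_one]
  refine V.valuation.map_sub_lt ?_ ?_
  · rw [map_mul, hg', mul_one]
    exact h
  · rw [map_mul, hg, one_mul]
    exact h'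

/-- Chunk UB7B (S/M). not_Kg for Kg = kerG hV, then Phi_unit for Z = X + T and X - T: quotients and products of units congruent to each other. -/
theorem Xi_cong (h : Dta A B Om j act m ψ l) (hU : UDat Om j act m ψ l μ a ρ τ H R D S)
    {V : ValuationSubring Ω} (hV : GV A B V) (ha : V.valuation (a : Ω) = 1) {T R₁ : Pt (WAB A B) Ω}
    (hT : l • T = 0) (h0 : T ≠ 0) (hR : Ker V R₁) : V.valuation (Xi D S (T + R₁) - Xi D S T) < 1 := by
  obtain ⟨hal, ham⟩ := ub6b_a h hU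
  have htors : ∀ n : ℕ, V.valuation (n : Ω) = 1 → ∀ T ∈ kerG hV, n • T = 0 → T = 0 :=
    fun n hn T hT hnT => ker_tors hV n hn hnT hT
  have key : ∀ T' : Pt (WAB A B) Ω, l • T' = 0 → T' ≠ 0 → ∀ X ∈ D, ∀ Q : Pt (WAB A B) Ω, a • Q = 0 →
      ¬ Ker V (X + T' + Q) := by
    intro T' hT' h0' X hX Q hQ
    have h1 := not_Kg h hU V (kerG hV) htors hX hT' h0' (R₁ := 0) (n := 1) (smul_zero _) (Nat.coprime_one_left l)
      (Nat.coprime_one_left _) hQ hal ham
    rw [add_zero] at h1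
    exact h1
  have key2 : ∀ T' : Pt (WAB A B) Ω, l • T' = 0 → T' ≠ 0 → ∀ X ∈ D,
      V.valuation (Phi S (X + T')) = 1 ∧
      ∀ R₁ : Pt (WAB A B) Ω, Ker V R₁ → V.valuation (Phi S (X + T' + R₁) - Phi S (X + T')) < 1 := by
    intro T' hT' h0' X hX
    apply Phi_unit hU hV ha
    · have h1 := key T' hT' h0' X hX 0 (smul_zero _)
      rwa [add_zero] at h1
    · intro Q hQS
      obtain ⟨-, haQ⟩ := S_ne hU hQS
      refine ⟨key T' hT' h0' X hX Q haQ, ?_⟩
      rw [sub_eq_add_neg]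
      exact key T' hT' h0' X hX (-Q) (by rw [smul_neg, haQ, neg_zero])
  have hmT : l • (-T) = 0 := by rw [smul_neg, hT, neg_zero]
  have hmT0 : -T ≠ 0 := neg_ne_zero.2 h0
  have main : ∀ X ∈ D, V.valuation (Phi S (X + (T + R₁)) / Phi S (X - (T + R₁))) = 1 ∧
      V.valuation (Phi S (X + T) / Phi S (X - T)) = 1 ∧
      V.valuation (Phi S (X + (T + R₁)) / Phi S (X - (T + R₁)) - Phi S (X + T) / Phi S (X - T)) < 1 := by
    intro X hX
    obtain ⟨a1, a2⟩ := key2 T hT h0 X hX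
    obtain ⟨b1, b2⟩ := key2 (-T) hmT hmT0 X hX
    have a3 := a2 R₁ hR
    have b3 := b2 (-R₁) (kneg hR)
    have e1 : X + T + R₁ = X + (T + R₁) := by abel
    have e2 : X + -T + -R₁ = X - (T + R₁) := by abel
    have e3 : X + -T = X - T := by abel
    rw [e1] at a3
    rw [e2, e3] at b3
    rw [e3] at b1
    exact ub7b_quot V a1 a3 b1 b3
  unfold Xi
  exact ub7a_prod V D _ _ (fun X hX => (main X hX).1.le) (fun X hX => (main X hX).2.1.le) fun X hX => (main X hX).2.2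

end H55K
end

-- from Lib.H55K.Y7A
section

/-! # H55K: a good prime exists -/

open NumberField IsDedekindDomain WeierstrassCurve

namespace H55K

open H55P (IQ embF eF LF Per IsHecke Pt ac Inert Dec Nm)
open H35P (WAB Ker tt)


variable {F : Type} [Field F] [NumberField F] [IQ F]

/-- Chunk Y7A (M), arithmetic. δ in 𝓞 F with δ^2 = -D, D a positive integer prime to p: take x in 𝓞 F with eF F x not real (F0_im), t = x + cj x and n = x * cj x are integers (t: e.g. Algebra.trace, or t is fixed by cj and 𝓞 F has rank 2), δ = 2x - t, δ^2 = t^2 - 4n < 0 (eF F δ is purely imaginary, not 0). Divide δ by powers of p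
(p^2 | D: (δ/p)^2 is an integer, so δ/p is integral). If p divides D exactly once: a prime v containing p contains δ (δ^2 in v), D = p D', p not dividing D': p D' = - δ^2 in v^2, D' is a unit modulo v, so p is in v^2: contradiction to hunr. -/
theorem exists_delta (F : Type) [Field F] [NumberField F] [IQ F] {p : ℕ} (hp : p.Prime)
    (hunr : ∀ v : HeightOneSpectrum (𝓞 F), (p : 𝓞 F) ∉ v.asIdeal ^ 2) : ∃ (D : ℕ) (δ : 𝓞 F), 0 < D ∧ ¬ p ∣ D ∧
      δ ^ 2 = -(D : 𝓞 F) := by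
  classical
  have hex : ∃ D : ℕ, 0 < D ∧ ∃ δ : 𝓞 F, δ ^ 2 = -(D : 𝓞 F) := by
    obtain ⟨x, hx⟩ := H55P.F0_im (F := F)
    have h0 : x - cj x ≠ 0 := by
      intro h
      have h1 : x = cj x := sub_eq_zero.1 h
      have h2 := congrArg (eF F) h1
      rw [e_cj] at h2
      exact hx (Complex.conj_eq_iff_im.1 h2.symm)
    refine ⟨Nm (x - cj x), Nat.pos_of_ne_zero fun h => h0 (H55P.Nm_eq_zero.1 h), x - cj x, ?_⟩
    rw [← mul_cj, map_sub, cj_cj]
    ring
  obtain ⟨hD, δ, hδ⟩ := Nat.find_spec hex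
  have hmin := fun m => @Nat.find_min _ _ hex m
  set D := Nat.find hex with hDdef
  have hpF : (p : F) ≠ 0 := Nat.cast_ne_zero.2 hp.ne_zero
  have hpO : (p : 𝓞 F) ≠ 0 := Nat.cast_ne_zero.2 hp.ne_zero
  have hsq : ¬ p ^ 2 ∣ D := by
    rintro ⟨E, hE⟩
    have hE0 : 0 < E := by
      rcases Nat.eq_zero_or_pos E with h | h
      · rw [h, mul_zero] at hE
        omega
      · exact h
    have hlt : E < D := by
      rw [hE]
      have h1 : 1 < p ^ 2 := Nat.one_lt_pow two_ne_zero hp.one_lt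
      nlinarith
    apply hmin E hlt
    have hint : IsIntegral ℤ ((δ : F) / (p : F)) := by
      have h1 : ((δ : F) / (p : F)) ^ 2 = -(E : F) := by
        have h2 : ((δ ^ 2 : 𝓞 F) : F) = ((-(D : 𝓞 F) : 𝓞 F) : F) := congrArg _ hδ
        have h3 : (δ : F) ^ 2 = -((p : F) ^ 2 * (E : F)) := by
          have h4 : (δ : F) ^ 2 = -(D : F) := by simpa using h2
          rw [h4, hE]
          push_cast
          ring
        rw [div_pow, h3, neg_div, mul_div_cancel_left₀ _ (pow_ne_zero 2 hpF)]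
      apply IsIntegral.of_pow (n := 2) (by norm_num)
      rw [h1]
      exact (isIntegral_natCast E).neg
    obtain ⟨ε, hε⟩ : ∃ ε : 𝓞 F, algebraMap (𝓞 F) F ε = (δ : F) / (p : F) := ⟨⟨_, hint⟩, rfl⟩
    refine ⟨hE0, ε, ?_⟩
    apply RingOfIntegers.coe_injective
    have h1 : ((δ : F) / (p : F)) ^ 2 = -(E : F) := by
      have h2 : ((δ ^ 2 : 𝓞 F) : F) = ((-(D : 𝓞 F) : 𝓞 F) : F) := congrArg _ hδ
      have h3 : (δ : F) ^ 2 = -((p : F) ^ 2 * (E : F)) := by
        have h4 : (δ : F) ^ 2 = -(D : F) := by simpa using h2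
        rw [h4, hE]
        push_cast
        ring
      rw [div_pow, h3, neg_div, mul_div_cancel_left₀ _ (pow_ne_zero 2 hpF)]
    rw [map_pow, hε, h1, map_neg, map_natCast]
  refine ⟨D, δ, hD, ?_, hδ⟩
  rintro ⟨E, hE⟩
  have hpE : ¬ p ∣ E := by
    rintro ⟨G, hG⟩
    exact hsq ⟨G, by rw [hE, hG]; ring⟩
  have htop : Ideal.span {(p : 𝓞 F)} ≠ ⊤ := by
    intro h
    have h1 : Nm (p : 𝓞 F) = 1 := by
      unfold H55P.Nm
      rw [h, Ideal.absNorm_top]
    rw [Nm_nat] at h1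
    have h2 : 1 < p ^ 2 := Nat.one_lt_pow two_ne_zero hp.one_lt
    omega
  obtain ⟨M, hM, hle⟩ := Ideal.exists_le_maximal _ htop
  have hpM : (p : 𝓞 F) ∈ M := hle (Ideal.mem_span_singleton_self _)
  have hMb : M ≠ ⊥ := by
    rintro rfl
    exact hpO ((Submodule.mem_bot _).1 hpM)
  let v : HeightOneSpectrum (𝓞 F) := ⟨M, hM.isPrime, hMb⟩
  apply hunr v
  have h1 : δ ^ 2 = -((p : 𝓞 F) * (E : 𝓞 F)) := by
    rw [hδ, hE]
    push_cast
    ring
  have h2 : δ ∈ v.asIdeal := by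
    apply v.isPrime.mem_of_pow_mem 2
    rw [h1]
    exact neg_mem (Ideal.mul_mem_right _ _ hpM)
  have h3 : (p : 𝓞 F) * (E : 𝓞 F) ∈ v.asIdeal ^ 2 := by
    have h4 : δ ^ 2 ∈ v.asIdeal ^ 2 := Ideal.pow_mem_pow h2 2
    rw [h1] at h4
    exact neg_mem_iff.1 h4
  have h5 : (p : 𝓞 F) ^ 2 ∈ v.asIdeal ^ 2 := Ideal.pow_mem_pow hpM 2
  have hcop : IsCoprime (E : ℤ) (p : ℤ) := by
    rw [Nat.isCoprime_iff_coprime]
    exact ((Nat.Prime.coprime_iff_not_dvd hp).2 hpE).symm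
  obtain ⟨a, b, hab⟩ := hcop
  have h6 : (a : 𝓞 F) * (E : 𝓞 F) + (b : 𝓞 F) * (p : 𝓞 F) = 1 := by
    exact_mod_cast congrArg (fun z : ℤ => (z : 𝓞 F)) hab
  have h7 : (p : 𝓞 F) = (a : 𝓞 F) * ((p : 𝓞 F) * (E : 𝓞 F)) + (b : 𝓞 F) * (p : 𝓞 F) ^ 2 := by
    linear_combination (-(p : 𝓞 F)) * h6
  rw [h7]
  exact add_mem (Ideal.mul_mem_left _ _ h3) (Ideal.mul_mem_left _ _ h5)

end H55K
end

-- from Lib.H55K.Y7C
section

/-! # H55K: a good prime exists -/

open NumberField IsDedekindDomain WeierstrassCurve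

namespace H55K

open H55P (IQ embF eF LF Per IsHecke Pt ac Inert Dec Nm)
open H35P (WAB Ker tt)


variable {F : Type} [Field F] [NumberField F] [IQ F]

theorem y7c_cop {l : ℕ} (hl : l.Prime) {μ : 𝓞 F} (hc : IsCoprime μ (l : 𝓞 F)) : Nat.Coprime (Nm μ) l := by
  rw [Nat.coprime_comm, Nat.Prime.coprime_iff_not_dvd hl]
  intro hd
  have h1 : IsCoprime (cj μ) (l : 𝓞 F) := by
    obtain ⟨u, w, huw⟩ := hc
    refine ⟨cj u, cj w, ?_⟩
    have h2 := congrArg cj huw
    rwa [map_add, map_mul, map_mul, map_one, cj_nat] at h2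
  have h2 : IsCoprime (μ * cj μ) (l : 𝓞 F) := IsCoprime.mul_left hc h1
  rw [mul_cj] at h2
  obtain ⟨k, hk⟩ := hd
  rw [hk, Nat.cast_mul] at h2
  have h3 : IsUnit (l : 𝓞 F) := isCoprime_self.1 (IsCoprime.of_mul_left_left h2)
  obtain ⟨x, hx⟩ := h3.exists_right_inv
  have h4 : Nm ((l : 𝓞 F) * x) = Nm ((1 : ℕ) : 𝓞 F) := by rw [hx, Nat.cast_one]
  rw [Nm_mul, Nm_nat, Nm_nat, one_pow] at h4
  have h5 : l ^ 2 ∣ 1 := ⟨_, h4.symm⟩
  have h6 := hl.two_le
  have h7 := Nat.le_of_dvd one_pos h5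
  nlinarith

/-- A prime in two progressions. -/
theorem y7c_q {N p : ℕ} (hN : 0 < N) (hp : p.Prime) (h5 : 5 ≤ p) (hc : Nat.Coprime N p) (X : ℕ) :
    ∃ q : ℕ, q.Prime ∧ X < q ∧ (∃ k, q + 1 = N * k) ∧ ∃ k, q = 2 + p * k := by
  obtain ⟨a, ha1, ha2⟩ := Nat.chineseRemainder hc (N - 1) 2
  have ha3 : Nat.Coprime a (N * p) := by
    refine Nat.Coprime.mul_right ?_ ?_
    · rw [Nat.coprime_iff_gcd_eq_one, ha1.gcd_eq]
      obtain ⟨n, rfl⟩ : ∃ n, N = n + 1 := ⟨N - 1, by omega⟩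
      rw [Nat.add_sub_cancel, Nat.gcd_self_add_right, Nat.gcd_one_right]
    · rw [Nat.coprime_iff_gcd_eq_one, ha2.gcd_eq]
      rw [← Nat.coprime_iff_gcd_eq_one, Nat.coprime_primes Nat.prime_two hp]
      omega
  have hne : N * p ≠ 0 := Nat.mul_ne_zero hN.ne' hp.ne_zero
  obtain ⟨q, hq1, hq2, hq3⟩ := Nat.forall_exists_prime_gt_and_modEq (max X 2) hne ha3
  have hX : X < q := (le_max_left _ _).trans_lt hq1
  have h2 : 2 < q := (le_max_right _ _).trans_lt hq1
  refine ⟨q, hq2, hX, ?_, ?_⟩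
  · have h3 : q + 1 ≡ N - 1 + 1 [MOD N] := ((hq3.of_mul_right p).trans ha1).add_right 1
    rw [Nat.sub_add_cancel hN] at h3
    have h4 : q + 1 ≡ 0 [MOD N] := h3.trans (by rw [Nat.ModEq, Nat.mod_self, Nat.zero_mod])
    exact (Nat.modEq_zero_iff_dvd).1 h4
  · have h3 : 2 ≡ q [MOD p] := ((hq3.of_mul_left N).trans ha2).symm
    obtain ⟨k, hk⟩ := (Nat.modEq_iff_dvd' h2.le).1 h3
    exact ⟨k, by omega⟩

/-- Chunk Y7C (M). M = Nm μ, m = span {μ} (instPIDF), μ ≠ 0. p is prime to 4 D M: M as in UB1B (m coprime to p). Chinese remainder theorem and Dirichlet's theorem (Nat.forall_exists_prime_gt_and_eq_mod or Nat.setOf_prime_and_eq_mod_infinite): a prime q with q congruent to -1 modulo 4 D M, to 2 modulo p, q > p and q > Nm Δ. v₀ = (q) (inert_q), prime to m (q congruent to -1 modulo M, M in m) and to Δ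
(if Δ = q z then Nm Δ = q^2 Nm z > Nm Δ) and to p. per with x = q, y = -1: ψ (span {q}) * (-1) = ψ (span {-1}) * q = q (span {-1} = top, map_one), so 1 - ψ = 1 + q, Nm (1 + q) = (1+q)^2 congruent to 9 modulo p. -/
theorem good_q (F : Type) [Field F] [NumberField F] [IQ F] {p : ℕ} (hp : p.Prime) (h5 : 5 ≤ p)
    (hunr : ∀ v : HeightOneSpectrum (𝓞 F), (p : 𝓞 F) ∉ v.asIdeal ^ 2) {m : Ideal (𝓞 F)}
    {ψ : Ideal (𝓞 F) →*₀ 𝓞 F} (hψ : IsHecke m ψ) (hcop : IsCoprime m (Ideal.span {(p : 𝓞 F)}))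
    (Δ : 𝓞 F) (hΔ : Δ ≠ 0) : ∃ v : HeightOneSpectrum (𝓞 F), Δ ∉ v.asIdeal ∧ ¬ m ≤ v.asIdeal ∧
      (p : 𝓞 F) ∉ v.asIdeal ∧ ¬ p ∣ Nm (1 - ψ v.asIdeal) := by
  obtain ⟨D, δ, hD, hpD, hδ⟩ := exists_delta F hp hunr
  obtain ⟨μ, hμ'⟩ := (IsPrincipalIdealRing.principal m).principal
  have hμ : Ideal.span {μ} = m := hμ'.symm
  have hμ0 : μ ≠ 0 := by
    rintro rfl
    apply hψ.ne
    rw [← hμ]
    simp
  have hcM : Nat.Coprime (Nm μ) p := by
    apply y7c_cop hp
    have h1 := hcop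
    rwa [← hμ, Ideal.isCoprime_span_singleton_iff] at h1
  have hNm : 0 < Nm μ := Nat.pos_of_ne_zero fun h0 => hμ0 (H55P.Nm_eq_zero.1 h0)
  have hN : 0 < 4 * D * Nm μ := by positivity
  have hc4 : Nat.Coprime 4 p := by
    have h2 : Nat.Coprime 2 p := (Nat.coprime_primes Nat.prime_two hp).2 (by omega)
    exact Nat.Coprime.mul_left h2 h2
  have hcD : Nat.Coprime D p := Nat.coprime_comm.1 ((Nat.Prime.coprime_iff_not_dvd hp).2 hpD)
  have hc : Nat.Coprime (4 * D * Nm μ) p := Nat.Coprime.mul_left (Nat.Coprime.mul_left hc4 hcD) hcM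
  obtain ⟨q, hq, hX, ⟨k, hk⟩, ⟨k', hk'⟩⟩ := y7c_q hN hp h5 hc (max p (Nm Δ))
  have hqp : p < q := (le_max_left _ _).trans_lt hX
  have hqΔ : Nm Δ < q := (le_max_right _ _).trans_lt hX
  have hm : q % (4 * D) = 4 * D - 1 := by
    have e : q + 1 = (4 * D) * (Nm μ * k) := by rw [hk]; ring
    have h1 : 0 < Nm μ * k := by
      rcases Nat.eq_zero_or_pos (Nm μ * k) with h | h
      · rw [h, mul_zero] at e
        omega
      · exact h
    obtain ⟨j, hj⟩ := Nat.exists_eq_add_of_lt h1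
    have e2 : q = (4 * D - 1) + (4 * D) * j := by
      have : q + 1 = (4 * D) * (j + 1) := by rw [e, hj]; ring
      have h4 : 0 < 4 * D := by omega
      have : q + 1 = 4 * D * j + 4 * D := by rw [this]; ring
      omega
    rw [e2, Nat.add_mul_mod_self_left, Nat.mod_eq_of_lt (by omega)]
  have hprime := inert_q hD hδ hq hm
  have hq0 : (q : 𝓞 F) ≠ 0 := Nat.cast_ne_zero.2 hq.ne_zero
  let v : HeightOneSpectrum (𝓞 F) := ⟨Ideal.span {(q : 𝓞 F)}, (Ideal.span_singleton_prime hq0).2 hprime, by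
    rwa [Ne, Ideal.span_singleton_eq_bot]⟩
  have hv : v.asIdeal = Ideal.span {(q : 𝓞 F)} := rfl
  have hqm : (q : 𝓞 F) + 1 ∈ m := by
    have e : (q : 𝓞 F) + 1 = μ * (cj μ * (4 * D * k : ℕ)) := by
      have h1 : ((q + 1 : ℕ) : 𝓞 F) = ((4 * D * Nm μ * k : ℕ) : 𝓞 F) := by rw [hk]
      push_cast at h1 ⊢
      rw [h1, ← mul_cj]
      ring
    rw [e, ← hμ]
    exact Ideal.mul_mem_right _ _ (Ideal.mem_span_singleton_self μ)
  refine ⟨v, ?_, ?_, ?_, ?_⟩
  · rw [hv, Ideal.mem_span_singleton]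
    rintro ⟨z, rfl⟩
    rw [Nm_mul, Nm_nat] at hqΔ
    have hz : Nm z ≠ 0 := fun h => by
      rw [H55P.Nm_eq_zero] at h
      apply hΔ
      rw [h, mul_zero]
    have h2 : 1 ≤ Nm z := Nat.one_le_iff_ne_zero.2 hz
    nlinarith [hq.two_le]
  · intro h
    rw [hv] at h
    have h1 := h hqm
    rw [Ideal.mem_span_singleton] at h1
    have h2 : (q : 𝓞 F) ∣ 1 := (dvd_add_right (dvd_refl _)).1 h1
    exact hprime.not_isUnit (isUnit_of_dvd_one h2)
  · rw [hv, Ideal.mem_span_singleton]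
    rintro ⟨z, hz⟩
    have h1 : Nm (p : 𝓞 F) = Nm ((q : 𝓞 F) * z) := by rw [← hz]
    rw [Nm_mul, Nm_nat, Nm_nat] at h1
    have h2 : q ^ 2 ∣ p ^ 2 := ⟨_, h1⟩
    have h3 : q ∣ p := (Nat.pow_dvd_pow_iff two_ne_zero).1 h2
    exact absurd (Nat.le_of_dvd hp.pos h3) (by omega)
  · have hcq : IsCoprime (Ideal.span {(q : 𝓞 F)}) m := by
      rw [Ideal.isCoprime_iff_exists]
      refine ⟨-(q : 𝓞 F), ?_, (q : 𝓞 F) + 1, hqm, by ring⟩
      exact (Ideal.neg_mem_iff _).2 (Ideal.mem_span_singleton_self _)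
    have htop : Ideal.span {(-1 : 𝓞 F)} = 1 := by
      rw [Ideal.one_eq_top, Ideal.span_singleton_eq_top]
      exact isUnit_one.neg
    have hc1 : IsCoprime (Ideal.span {(-1 : 𝓞 F)}) m := by
      rw [htop]
      exact isCoprime_one_left
    have h1 := hψ.per (q : 𝓞 F) (-1) hcq hc1 (by rwa [sub_neg_eq_add])
    rw [htop, map_one, one_mul] at h1
    have h2 : 1 - ψ v.asIdeal = ((q + 1 : ℕ) : 𝓞 F) := by
      rw [hv]
      push_cast
      linear_combination h1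
    rw [h2, Nm_nat]
    intro h3
    have h4 : p ∣ q + 1 := hp.dvd_of_dvd_pow h3
    have h5' : p ∣ 3 := by
      have e : q + 1 = p * k' + 3 := by rw [hk']; ring
      rw [e] at h4
      exact (Nat.dvd_add_right (dvd_mul_right _ _)).1 h4
    exact absurd (Nat.le_of_dvd (by norm_num) h5') (by omega)

end H55K
end

-- from Lib.H55K.Y7D
section

/-! # H55K: a good prime exists -/

open NumberField IsDedekindDomain WeierstrassCurve

namespace H55K

open H55P (IQ embF eF LF Per IsHecke Pt ac Inert Dec Nm)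
open H35P (WAB Ker tt)


variable {F : Type} [Field F] [NumberField F] [IQ F]

/-- The norm of an ideal for an extension of degree one. -/
theorem y7d_norm (M : Type) [Field M] [NumberField M] [Algebra F M]
    (hsurj : Function.Surjective (algebraMap F M)) (J : Ideal (𝓞 F)) :
    Ideal.relNorm (𝓞 F) (J.map (algebraMap (𝓞 F) (𝓞 M))) = J := by
  have h1 : Module.finrank F M = 1 := by
    rw [finrank_eq_one_iff_of_nonzero' (1 : M) one_ne_zero]
    intro x
    obtain ⟨c, hc⟩ := hsurj x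
    exact ⟨c, by rw [← hc, Algebra.smul_def, mul_one]⟩
  have hr : Module.finrank (𝓞 F) (𝓞 M) = 1 := by
    rw [← h1]
    exact (IsFractionRing.finrank_eq (𝓞 F) F (𝓞 M) M).symm
  rw [Ideal.relNorm_algebraMap (𝓞 M) J, hr, pow_one]

theorem y7d_surj : Function.Surjective (algebraMap F (⊥ : IntermediateField F (AlgebraicClosure F))) := by
  intro x
  obtain ⟨y, hy⟩ := IntermediateField.mem_bot.1 x.2
  exact ⟨y, Subtype.ext hy⟩

theorem y7d_surjO : Function.Surjective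
    (algebraMap (𝓞 F) (𝓞 (⊥ : IntermediateField F (AlgebraicClosure F)))) := by
  intro x
  obtain ⟨y, hy⟩ := y7d_surj (F := F) (x : (⊥ : IntermediateField F (AlgebraicClosure F)))
  have hyi : IsIntegral ℤ y := by
    have h2 : IsIntegral ℤ (algebraMap F (⊥ : IntermediateField F (AlgebraicClosure F)) y) := by
      rw [hy]
      exact RingOfIntegers.isIntegral_coe x
    exact (isIntegral_algebraMap_iff
      (algebraMap F (⊥ : IntermediateField F (AlgebraicClosure F))).injective).1 h2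
  refine ⟨⟨y, hyi⟩, ?_⟩
  apply RingOfIntegers.ext
  rw [← hy]
  rfl

/-- Chunk Y7D (S/M). v from good_q, v' the prime of the bottom field M corresponding to v (algebraMap (𝓞 F) (𝓞 M) is bijective: v' = the image; see H55P.bot_conv and pz10_card in Z10.lean, pz13_equiv in Z13.lean): relNorm v' = v, the residue fields are isomorphic, so the numbers of points agree (pz10_card, map of curves), hDeu. -/
theorem exists_goodG {p : ℕ} (hp : p.Prime) (h5 : 5 ≤ p)
    (hunr : ∀ v : HeightOneSpectrum (𝓞 F), (p : 𝓞 F) ∉ v.asIdeal ^ 2) {m : Ideal (𝓞 F)}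
    {ψ : Ideal (𝓞 F) →*₀ 𝓞 F} (hψ : IsHecke m ψ) (W₀ : WeierstrassCurve (𝓞 F)) (hΔ : W₀.Δ ≠ 0)
    (hcop : IsCoprime m (Ideal.span {(p : 𝓞 F)}))
    (hDeu : ∀ v : HeightOneSpectrum (𝓞 F), W₀.Δ ∉ v.asIdeal → ¬ m ≤ v.asIdeal →
      Nat.card (W₀⁄(𝓞 F ⧸ v.asIdeal)).toAffine.Point = Nm (1 - ψ v.asIdeal))
    [NumberField (⊥ : IntermediateField F (AlgebraicClosure F))] :
    ∃ v, H55P.GoodG p W₀ m ψ (⊥ : IntermediateField F (AlgebraicClosure F)) v := by
  obtain ⟨v₀, g1, g2, g3, g4⟩ := good_q F hp h5 hunr hψ hcop W₀.Δ hΔ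
  have hvm := v₀.isMaximal
  obtain ⟨Q, hQ1, hQ2⟩ := Ideal.exists_maximal_ideal_liesOver_of_isIntegral
    (S := 𝓞 (⊥ : IntermediateField F (AlgebraicClosure F))) v₀.asIdeal
  obtain ⟨v, hv⟩ : ∃ v : HeightOneSpectrum (𝓞 (⊥ : IntermediateField F (AlgebraicClosure F))), v.asIdeal = Q :=
    ⟨⟨Q, hQ1.isPrime, Ideal.ne_bot_of_liesOver_of_ne_bot v₀.ne_bot Q⟩, rfl⟩
  have hu : v₀.asIdeal = v.asIdeal.comap
      (algebraMap (𝓞 F) (𝓞 (⊥ : IntermediateField F (AlgebraicClosure F)))) := by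
    rw [hv]
    exact hQ2.over
  have hmem : ∀ x : 𝓞 F, x ∈ v₀.asIdeal ↔
      algebraMap (𝓞 F) (𝓞 (⊥ : IntermediateField F (AlgebraicClosure F))) x ∈ v.asIdeal := by
    intro x
    rw [hu, Ideal.mem_comap]
  obtain ⟨v₁, h1, -, h3⟩ := H55P.bot_conv W₀ (⊥ : IntermediateField F (AlgebraicClosure F)) v
  have he : v₁ = v₀ := by
    apply HeightOneSpectrum.ext
    ext x
    rw [h1 x, hmem x]
  subst he
  have hmap : v₁.asIdeal.map (algebraMap (𝓞 F) (𝓞 (⊥ : IntermediateField F (AlgebraicClosure F)))) =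
      v.asIdeal := by
    rw [hu, Ideal.map_comap_of_surjective _ y7d_surjO]
  have hnorm : Ideal.relNorm (𝓞 F) v.asIdeal = v₁.asIdeal := by
    rw [← hmap]
    exact y7d_norm _ y7d_surj _
  refine ⟨v, ?_, ?_, ?_, ?_, ?_⟩
  · rw [← hmem]
    exact g1
  · intro hle
    apply g2
    rw [hu, ← Ideal.map_le_iff_le_comap]
    exact hle
  · intro hp'
    apply g3
    rw [hmem, map_natCast]
    exact hp'
  · rw [h3, hDeu v₁ g1 g2]
    exact g4
  · rw [hnorm]
    exact g4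

end H55K
end

-- from Lib.H55K.G7C
section

/-! # H55K: Frobenius elements: the x-coordinate -/

open NumberField IsDedekindDomain WeierstrassCurve

namespace H55K

open H55P (IQ embF eF LF Per IsHecke Pt ac Inert Dec Nm)
open H35P (WAB Ker tt)


variable {F : Type} [Field F] [NumberField F] [IQ F] {A B : F} {Om : ℂ} {Ω : Type} [Field Ω] [DecidableEq Ω]
  [Algebra F Ω] {j : Ω →+* ℂ} {act : 𝓞 F →+* AddMonoid.End (Pt (WAB A B) Ω)} {V : ValuationSubring Ω}

theorem g7c_mul {k : Type} [Field k] (V : ValuationSubring k) {a b : k} (ha : V.valuation a ≤ 1)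
    (hb : V.valuation b < 1) : V.valuation (a * b) < 1 := by
  rw [mul_comm, map_mul]
  exact mul_lt_one_of_lt_of_le hb ha

theorem g7c_prod {ι k : Type} [Field k] (V : ValuationSubring k) (S : Finset ι) (f g : ι → k)
    (hf : ∀ i ∈ S, V.valuation (f i) ≤ 1) (hg : ∀ i ∈ S, V.valuation (g i) ≤ 1)
    (hd : ∀ i ∈ S, V.valuation (f i - g i) < 1) : V.valuation (∏ i ∈ S, f i - ∏ i ∈ S, g i) < 1 := by
  classical
  induction S using Finset.induction_on with
  | empty => simp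
  | insert a S ha ih =>
    rw [Finset.prod_insert ha, Finset.prod_insert ha]
    have h1 : V.valuation (∏ i ∈ S, g i) ≤ 1 := by
      rw [map_prod]
      exact Finset.prod_le_one' fun i hi => hg i (Finset.mem_insert_of_mem hi)
    have h2 := ih (fun i hi => hf i (Finset.mem_insert_of_mem hi))
      (fun i hi => hg i (Finset.mem_insert_of_mem hi)) (fun i hi => hd i (Finset.mem_insert_of_mem hi))
    have h3 : f a * ∏ i ∈ S, f i - g a * ∏ i ∈ S, g i =
        f a * (∏ i ∈ S, f i - ∏ i ∈ S, g i) + (f a - g a) * ∏ i ∈ S, g i := by ring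
    rw [h3]
    refine V.valuation.map_add_lt ?_ ?_
    · exact g7c_mul V (hf a (Finset.mem_insert_self a S)) h2
    · rw [map_mul]
      exact mul_lt_one_of_lt_of_le (hd a (Finset.mem_insert_self a S)) h1

theorem g7c_add {k : Type} [Field k] (V : ValuationSubring k) {q : ℕ} (hq : q.Prime)
    (hqV : V.valuation (q : k) < 1) {x y : k} (hx : V.valuation x ≤ 1) (hy : V.valuation y ≤ 1) :
    V.valuation ((x + y) ^ q - (x ^ q + y ^ q)) < 1 := by
  obtain ⟨r, hr⟩ := exists_add_pow_prime_eq hq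
    (⟨x, V.mem_of_valuation_le_one x hx⟩ : V) (⟨y, V.mem_of_valuation_le_one y hy⟩ : V)
  have hr' : (x + y) ^ q = x ^ q + y ^ q + (q : k) * x * y * (r : k) := by
    have := congrArg (Subtype.val) hr
    simpa using this
  have h1 : (x + y) ^ q - (x ^ q + y ^ q) = (q : k) * (x * y * (r : k)) := by
    rw [hr']
    ring
  rw [h1, map_mul]
  refine mul_lt_one_of_lt_of_le hqV ?_
  rw [map_mul, map_mul]
  exact mul_le_one' (mul_le_one' hx hy) (V.valuation_le_one r)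

/-- Chunk G7C (M). κ = β^2 * prod over S of xc R (S the nonzero points killed by β), V(κ) = 1 (prod_xR). For X, Y not in Ker: act β X, act β Y are not in Ker (ker_red), e2: κ prod (1 - xc Y/xc R) (xc (βX) - xc (βY)) = (xc X - xc Y) prod (xc (X+R) - xc Y), where V(xc Y/xc R) < 1 and
V(xc (X + R) - xc X) < 1 (tor_ker, cls_conv): so κ (xc (βX) - xc (βY)) is congruent to (xc X - xc Y)^q, q = Nm β = S.card + 1, and this to xc X^q - xc Y^q (q is a prime number with V(q) < 1; add_pow_char style: the binomial coefficients are divisible by q). -/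
theorem frob_diff (h : CMA F A B Om j act) (hV : GV A B V) {β : 𝓞 F} (hβ : Prime β)
    (hv : V.valuation (ak Ω β) < 1) (hq : (Nm β).Prime) : ∃ κ : Ω, V.valuation κ = 1 ∧
    ∀ X Y : Pt (WAB A B) Ω, ¬ Ker V X → ¬ Ker V Y →
      V.valuation (κ * (xc (act β X) - xc (act β Y)) - (xc X ^ Nm β - xc Y ^ Nm β)) < 1 := by
  classical
  have hβ0 : β ≠ 0 := hβ.ne_zero
  obtain ⟨S, hS, hcard⟩ := exists_TN h hβ0
  have hqV : V.valuation ((Nm β : ℕ) : Ω) < 1 := by
    have h1 : ((Nm β : ℕ) : Ω) = ak Ω β * ak Ω (cj β) := by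
      have h2 := mul_cj β
      have h3 := congrArg (fun z : 𝓞 F => algebraMap F Ω (algebraMap (𝓞 F) F z)) h2
      simp only [map_mul, map_natCast] at h3
      exact h3.symm
    rw [h1, map_mul]
    exact mul_lt_one_of_lt_of_le hv (ak_le V (cj β))
  have hq2 : Nm β ≠ 2 := by
    intro h2
    rw [h2, Nat.cast_ofNat, hV.two] at hqV
    exact lt_irrefl _ hqV
  have hodd : Odd (Nm β) := hq.odd_of_ne_two hq2
  have hR1 : ∀ R ∈ S, R ≠ 0 ∧ Ker V R ∧ 1 < V.valuation (xc R) := by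
    intro R hR
    obtain ⟨h1, h2⟩ := (hS R).1 hR
    have h3 : Ker V R := tor_ker h hV hβ hv h1
    exact ⟨h2, h3, (ker_iff V h2).1 h3⟩
  have hxR : ∀ R ∈ S, xc R ≠ 0 := by
    intro R hR h0
    have := (hR1 R hR).2.2
    rw [h0, map_zero] at this
    exact absurd this (not_lt.2 zero_le_one)
  have hred : ∀ X : Pt (WAB A B) Ω, ¬ Ker V X → ¬ Ker V (act β X) := fun X hX hX' =>
    hX (ker_red h hV hβ hv hX')
  refine ⟨ak Ω β ^ 2 * ∏ R ∈ S, xc R, ?_, ?_⟩
  · rw [map_mul, map_pow, map_prod]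
    exact prod_xR h hV hβ hv hS
  · intro X Y hX hY
    have hκ : V.valuation (ak Ω β ^ 2 * ∏ R ∈ S, xc R) = 1 := by
      rw [map_mul, map_pow, map_prod]
      exact prod_xR h hV hβ hv hS
    obtain ⟨hX0, hX1⟩ := not_ker V hX
    obtain ⟨hY0, hY1⟩ := not_ker V hY
    obtain ⟨hbX0, hbX1⟩ := not_ker V (hred X hX)
    obtain ⟨hbY0, hbY1⟩ := not_ker V (hred Y hY)
    have he2 := h.e2 β S hβ0 hS X Y hbX0 hbY0
    have hu : V.valuation (∏ R ∈ S, (1 - xc Y / xc R) - ∏ R ∈ S, (1 : Ω)) < 1 := by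
      have hlt : ∀ R ∈ S, V.valuation (xc Y / xc R) < 1 := by
        intro R hR
        rw [map_div₀]
        have h1 := (hR1 R hR).2.2
        exact (div_lt_one₀ (zero_lt_one.trans h1)).2 (hY1.trans_lt h1)
      refine g7c_prod V S _ _ (fun R hR => ?_) (fun R hR => (map_one _).le) (fun R hR => ?_)
      · refine (V.valuation.map_sub _ _).trans (max_le (map_one _).le (hlt R hR).le)
      · have h1 : 1 - xc Y / xc R - 1 = -(xc Y / xc R) := by ring
        rw [h1, Valuation.map_neg]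
        exact hlt R hR
    rw [Finset.prod_const_one] at hu
    have hP : V.valuation (∏ R ∈ S, (xc (X + R) - xc Y) - ∏ R ∈ S, (xc X - xc Y)) < 1 := by
      have hc : ∀ R ∈ S, ¬ Ker V (X + R) ∧ V.valuation (xc (X + R) - xc X) < 1 := by
        intro R hR
        have h1 : Ker V (X + R - X) := by
          rw [add_sub_cancel_left]
          exact (hR1 R hR).2.1
        obtain ⟨h2, h3, _⟩ := cls_conv hV hX h1
        exact ⟨h2, h3⟩
      refine g7c_prod V S _ _ (fun R hR => ?_) (fun R hR => ?_) (fun R hR => ?_)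
      · exact (V.valuation.map_sub _ _).trans (max_le (not_ker V (hc R hR).1).2 hY1)
      · exact (V.valuation.map_sub _ _).trans (max_le hX1 hY1)
      · have h1 : xc (X + R) - xc Y - (xc X - xc Y) = xc (X + R) - xc X := by ring
        rw [h1]
        exact (hc R hR).2
    rw [Finset.prod_const, hcard] at hP
    have hprod : ∏ R ∈ S, (xc R - xc Y) = (∏ R ∈ S, xc R) * ∏ R ∈ S, (1 - xc Y / xc R) := by
      rw [← Finset.prod_mul_distrib]
      refine Finset.prod_congr rfl fun R hR => ?_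
      have := hxR R hR
      field_simp
    rw [hprod] at he2
    have hqpos : 1 ≤ Nm β := hq.one_lt.le
    have hpow : (xc X - xc Y) * (xc X - xc Y) ^ (Nm β - 1) = (xc X - xc Y) ^ Nm β := by
      rw [← pow_succ', Nat.sub_add_cancel hqpos]
    have hsub : V.valuation ((xc X - xc Y) ^ Nm β - (xc X ^ Nm β - xc Y ^ Nm β)) < 1 := by
      have h1 := g7c_add V hq hqV hX1 (y := -xc Y) (by rw [Valuation.map_neg]; exact hY1)
      rw [hodd.neg_pow] at h1
      have h2 : (xc X - xc Y) ^ Nm β - (xc X ^ Nm β - xc Y ^ Nm β) =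
          (xc X + -xc Y) ^ Nm β - (xc X ^ Nm β + -xc Y ^ Nm β) := by ring
      rw [h2]
      exact h1
    have hD : V.valuation (xc (act β X) - xc (act β Y)) ≤ 1 :=
      (V.valuation.map_sub _ _).trans (max_le hbX1 hbY1)
    have hxy : V.valuation (xc X - xc Y) ≤ 1 := (V.valuation.map_sub _ _).trans (max_le hX1 hY1)
    set κ := ak Ω β ^ 2 * ∏ R ∈ S, xc R with hκdef
    set u := ∏ R ∈ S, (1 - xc Y / xc R) with hudef
    set p := ∏ R ∈ S, (xc (X + R) - xc Y) with hpdef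
    have hfin : κ * (xc (act β X) - xc (act β Y)) - (xc X ^ Nm β - xc Y ^ Nm β) =
        (xc X - xc Y) * (p - (xc X - xc Y) ^ (Nm β - 1)) - κ * (xc (act β X) - xc (act β Y)) * (u - 1) +
        ((xc X - xc Y) ^ Nm β - (xc X ^ Nm β - xc Y ^ Nm β)) := by
      rw [← hpow]
      have : κ * (xc (act β X) - xc (act β Y)) * u = (xc X - xc Y) * p := by
        rw [← he2, hκdef]
        ring
      linear_combination this
    rw [hfin]
    refine V.valuation.map_add_lt (V.valuation.map_sub_lt ?_ ?_) hsub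
    · exact g7c_mul V hxy hP
    · refine g7c_mul V ?_ hu
      rw [map_mul, hκ, one_mul]
      exact hD

end H55K
end

-- from Lib.H55K.G7D
section

/-! # H55K: Frobenius elements: the x-coordinate -/

open NumberField IsDedekindDomain WeierstrassCurve

namespace H55K

open H55P (IQ embF eF LF Per IsHecke Pt ac Inert Dec Nm)
open H35P (WAB Ker tt)


variable {F : Type} [Field F] [NumberField F] [IQ F] {A B : F} {Om : ℂ} {Ω : Type} [Field Ω] [DecidableEq Ω]
  [Algebra F Ω] {j : Ω →+* ℂ} {act : 𝓞 F →+* AddMonoid.End (Pt (WAB A B) Ω)} {V : ValuationSubring Ω}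

theorem g7d_add3 {k : Type} [Field k] (V : ValuationSubring k) {q : ℕ} (hq : q.Prime)
    (hqV : V.valuation (q : k) < 1) {x y z : k} (hx : V.valuation x ≤ 1) (hy : V.valuation y ≤ 1)
    (hz : V.valuation z ≤ 1) : V.valuation ((x + y + z) ^ q - (x ^ q + y ^ q + z ^ q)) < 1 := by
  have h1 := g7c_add V hq hqV hx hy
  have h2 := g7c_add V hq hqV ((V.valuation.map_add x y).trans (max_le hx hy)) hz
  have h3 : (x + y + z) ^ q - (x ^ q + y ^ q + z ^ q) =
      ((x + y + z) ^ q - ((x + y) ^ q + z ^ q)) + ((x + y) ^ q - (x ^ q + y ^ q)) := by ring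
  rw [h3]
  exact V.valuation.map_add_lt h2 h1

theorem g7d_mul {k : Type} [Field k] (V : ValuationSubring k) {a b c d : k} (ha : V.valuation a ≤ 1)
    (hd : V.valuation d ≤ 1) (h1 : V.valuation (a - c) < 1) (h2 : V.valuation (b - d) < 1) :
    V.valuation (a * b - c * d) < 1 := by
  have h3 : a * b - c * d = a * (b - d) + d * (a - c) := by ring
  rw [h3]
  exact V.valuation.map_add_lt (g7c_mul V ha h2) (g7c_mul V hd h1)

/-- Chunk G7D (M). e₁, e₂, e₃ from two_tors. They are not in Ker (ker_tors, n = 2). β does not divide 2 (V(β) < 1, V(2) = 1), so act β permutes e₁, e₂, e₃ (injective: if act β T = 0 and act 2 T = 0 then T = 0, since u β + w 2 = 1). Put c(X) = κ xc (βX) - xc X^q: V(c(X) - c(Y)) < 1 (frob_diff). The sum of the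
c(e_i) is 0 - (sum of xc e_i^q), congruent to -(sum of xc e_i)^q = 0; so V(3 c(e₁)) < 1, V(c(X)) < 1 for all X. Products of the congruences κ xc (β e_i) = xc e_i^q: κ^2 A is congruent to the second symmetric function of the xc e_i^q, which is congruent to A^q (expand (x₁x₂ + x₁x₃ + x₂x₃)^q in characteristic q: (a+b+c)^q = a^q + b^q + c^q),
A^q = A by fermat; in the same way κ^3 (-B) = (-B)^q = -B. -/
theorem frob_x (h : CMA F A B Om j act) (hV : GV A B V) {β : 𝓞 F} (hβ : Prime β)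
    (hv : V.valuation (ak Ω β) < 1) (hq : (Nm β).Prime) : ∃ κ : Ω, V.valuation κ = 1 ∧
    (∀ X : Pt (WAB A B) Ω, ¬ Ker V X → V.valuation (κ * xc (act β X) - xc X ^ Nm β) < 1) ∧
    V.valuation (κ ^ 2 * algebraMap F Ω A - algebraMap F Ω A) < 1 ∧
    V.valuation (κ ^ 3 * algebraMap F Ω B - algebraMap F Ω B) < 1 := by
  obtain ⟨κ, hκ, hdiff⟩ := frob_diff h hV hβ hv hq
  obtain ⟨e₁, e₂, e₃, hmem, h12, h13, h23, v1, v2, v3⟩ := two_tors h
  have hqV : V.valuation ((Nm β : ℕ) : Ω) < 1 := by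
    have h1 : ((Nm β : ℕ) : Ω) = ak Ω β * ak Ω (cj β) := by
      have h2 := mul_cj β
      have h3 := congrArg (fun z : 𝓞 F => algebraMap F Ω (algebraMap (𝓞 F) F z)) h2
      simp only [map_mul, map_natCast] at h3
      exact h3.symm
    rw [h1, map_mul]
    exact mul_lt_one_of_lt_of_le hv (ak_le V (cj β))
  have hq2 : Nm β ≠ 2 := by
    intro h2
    rw [h2, Nat.cast_ofNat, hV.two] at hqV
    exact lt_irrefl _ hqV
  have hodd : Odd (Nm β) := hq.odd_of_ne_two hq2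
  have hred : ∀ X : Pt (WAB A B) Ω, ¬ Ker V X → ¬ Ker V (act β X) := fun X hX hX' =>
    hX (ker_red h hV hβ hv hX')
  have htwo : ∀ T : Pt (WAB A B) Ω, act 2 T = 0 → Ker V T → T = 0 := by
    intro T hT hK
    refine ker_tors hV 2 (by rw [Nat.cast_ofNat]; exact hV.two) ?_ hK
    rw [two_nsmul, ← g7b_act2 (act := act)]
    exact hT
  have hint : ∀ T : Pt (WAB A B) Ω, (T = e₁ ∨ T = e₂ ∨ T = e₃) → ¬ Ker V T ∧
      (act β T = e₁ ∨ act β T = e₂ ∨ act β T = e₃) := by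
    intro T hT
    obtain ⟨h1, h2⟩ := (hmem T).2 hT
    have h3 : ¬ Ker V T := fun hK => h2 (htwo T h1 hK)
    refine ⟨h3, (hmem _).1 ⟨?_, ?_⟩⟩
    · have h4 : act 2 (act β T) = act β (act 2 T) := by
        have h5 : act (2 * β) T = act (β * 2) T := by rw [mul_comm]
        rw [map_mul, map_mul] at h5
        exact h5
      rw [h4, h1, map_zero]
    · intro h4
      apply hred T h3
      rw [h4]
      exact trivial
  have hinj : ∀ T T' : Pt (WAB A B) Ω, act 2 T = 0 → act 2 T' = 0 → act β T = act β T' → T = T' := by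
    intro T T' h1 h2 h3
    have h4 : act β (T - T') = 0 := by rw [map_sub, h3, sub_self]
    have h5 : Ker V (T - T') := tor_ker h hV hβ hv h4
    have h6 : act 2 (T - T') = 0 := by rw [map_sub, h1, h2, sub_self]
    exact sub_eq_zero.1 (htwo _ h6 h5)
  have t1 := ((hmem e₁).2 (Or.inl rfl)).1
  have t2 := ((hmem e₂).2 (Or.inr (Or.inl rfl))).1
  have t3 := ((hmem e₃).2 (Or.inr (Or.inr rfl))).1
  obtain ⟨k1, p1⟩ := hint e₁ (Or.inl rfl)
  obtain ⟨k2, p2⟩ := hint e₂ (Or.inr (Or.inl rfl))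
  obtain ⟨k3, p3⟩ := hint e₃ (Or.inr (Or.inr rfl))
  have n12 : act β e₁ ≠ act β e₂ := fun h' => h12 (hinj _ _ t1 t2 h')
  have n13 : act β e₁ ≠ act β e₃ := fun h' => h13 (hinj _ _ t1 t3 h')
  have n23 : act β e₂ ≠ act β e₃ := fun h' => h23 (hinj _ _ t2 t3 h')
  have hperm : xc (act β e₁) + xc (act β e₂) + xc (act β e₃) = 0 ∧
      xc (act β e₁) * xc (act β e₂) + xc (act β e₁) * xc (act β e₃) + xc (act β e₂) * xc (act β e₃) =
        algebraMap F Ω A ∧
      xc (act β e₁) * xc (act β e₂) * xc (act β e₃) = -algebraMap F Ω B := by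
    rcases p1 with p1 | p1 | p1 <;> rcases p2 with p2 | p2 | p2 <;> rcases p3 with p3 | p3 | p3 <;>
    first
    | exact absurd (p1.trans p2.symm) n12
    | exact absurd (p1.trans p3.symm) n13
    | exact absurd (p2.trans p3.symm) n23
    | (rw [p1, p2, p3]
       refine ⟨?_, ?_, ?_⟩
       · linear_combination v1
       · linear_combination v2
       · linear_combination v3)
  obtain ⟨w1, w2, w3⟩ := hperm
  have i1 := (not_ker V k1).2
  have i2 := (not_ker V k2).2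
  have i3 := (not_ker V k3).2
  have j1 := (not_ker V (hred _ k1)).2
  have j2 := (not_ker V (hred _ k2)).2
  have j3 := (not_ker V (hred _ k3)).2
  have hsum : V.valuation (xc e₁ ^ Nm β + xc e₂ ^ Nm β + xc e₃ ^ Nm β) < 1 := by
    have h1 := g7d_add3 V hq hqV i1 i2 i3
    rw [v1, zero_pow hq.ne_zero, zero_sub, Valuation.map_neg] at h1
    exact h1
  have d12 := hdiff e₁ e₂ k1 k2
  have d13 := hdiff e₁ e₃ k1 k3
  have c1 : V.valuation (κ * xc (act β e₁) - xc e₁ ^ Nm β) < 1 := by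
    have h1 : (3 : Ω) * (κ * xc (act β e₁) - xc e₁ ^ Nm β) =
        (κ * (xc (act β e₁) - xc (act β e₂)) - (xc e₁ ^ Nm β - xc e₂ ^ Nm β)) +
        (κ * (xc (act β e₁) - xc (act β e₃)) - (xc e₁ ^ Nm β - xc e₃ ^ Nm β)) -
        (xc e₁ ^ Nm β + xc e₂ ^ Nm β + xc e₃ ^ Nm β) := by
      linear_combination κ * w1
    have h2 : V.valuation ((3 : Ω) * (κ * xc (act β e₁) - xc e₁ ^ Nm β)) < 1 := by
      rw [h1]
      exact V.valuation.map_sub_lt (V.valuation.map_add_lt d12 d13) hsum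
    rwa [map_mul, hV.three, one_mul] at h2
  have call : ∀ X : Pt (WAB A B) Ω, ¬ Ker V X →
      V.valuation (κ * xc (act β X) - xc X ^ Nm β) < 1 := by
    intro X hX
    have h1 := hdiff X e₁ hX k1
    have h2 : κ * xc (act β X) - xc X ^ Nm β =
        (κ * (xc (act β X) - xc (act β e₁)) - (xc X ^ Nm β - xc e₁ ^ Nm β)) +
        (κ * xc (act β e₁) - xc e₁ ^ Nm β) := by ring
    rw [h2]
    exact V.valuation.map_add_lt h1 c1
  have c2 := call e₂ k2
  have c3 := call e₃ k3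
  have hκj : ∀ z : Ω, V.valuation z ≤ 1 → V.valuation (κ * z) ≤ 1 := by
    intro z hz
    rw [map_mul, hκ, one_mul]
    exact hz
  have hpw : ∀ z : Ω, V.valuation z ≤ 1 → V.valuation (z ^ Nm β) ≤ 1 := by
    intro z hz
    rw [map_pow]
    exact pow_le_one' hz _
  refine ⟨κ, hκ, call, ?_, ?_⟩
  · have hA := fermat hβ hv A ((V.valuation_le_one_iff _).2 hV.a)
    have m12 := g7d_mul V (hκj _ j1) (hpw _ i2) c1 c2
    have m13 := g7d_mul V (hκj _ j1) (hpw _ i3) c1 c3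
    have m23 := g7d_mul V (hκj _ j2) (hpw _ i3) c2 c3
    have hle : ∀ {a b : Ω}, V.valuation a ≤ 1 → V.valuation b ≤ 1 → V.valuation (a * b) ≤ 1 := by
      intro a b ha hb
      rw [map_mul]
      exact mul_le_one' ha hb
    have hs := g7d_add3 V hq hqV (hle i1 i2) (hle i1 i3) (hle i2 i3)
    rw [v2] at hs
    have hfin : κ ^ 2 * algebraMap F Ω A - algebraMap F Ω A =
        (κ * xc (act β e₁) * (κ * xc (act β e₂)) - xc e₁ ^ Nm β * xc e₂ ^ Nm β) +
        (κ * xc (act β e₁) * (κ * xc (act β e₃)) - xc e₁ ^ Nm β * xc e₃ ^ Nm β) +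
        (κ * xc (act β e₂) * (κ * xc (act β e₃)) - xc e₂ ^ Nm β * xc e₃ ^ Nm β) -
        (algebraMap F Ω A ^ Nm β - ((xc e₁ * xc e₂) ^ Nm β + (xc e₁ * xc e₃) ^ Nm β +
          (xc e₂ * xc e₃) ^ Nm β)) +
        (algebraMap F Ω A ^ Nm β - algebraMap F Ω A) := by
      rw [mul_pow, mul_pow, mul_pow]
      linear_combination -κ ^ 2 * w2
    rw [hfin]
    exact V.valuation.map_add_lt (V.valuation.map_sub_lt (V.valuation.map_add_lt
      (V.valuation.map_add_lt m12 m13) m23) hs) hA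
  · have hB := fermat hβ hv B ((V.valuation_le_one_iff _).2 hV.b)
    have m12 := g7d_mul V (hκj _ j1) (hpw _ i2) c1 c2
    have hle : V.valuation (κ * xc (act β e₁) * (κ * xc (act β e₂))) ≤ 1 := by
      rw [map_mul]
      exact mul_le_one' (hκj _ j1) (hκj _ j2)
    have m123 := g7d_mul V hle (hpw _ i3) m12 c3
    have hprod : xc e₁ ^ Nm β * xc e₂ ^ Nm β * xc e₃ ^ Nm β = -(algebraMap F Ω B ^ Nm β) := by
      rw [← mul_pow, ← mul_pow, v3, hodd.neg_pow]
    rw [hprod] at m123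
    have hfin : κ ^ 3 * algebraMap F Ω B - algebraMap F Ω B =
        -(κ * xc (act β e₁) * (κ * xc (act β e₂)) * (κ * xc (act β e₃)) -
          -(algebraMap F Ω B ^ Nm β)) + (algebraMap F Ω B ^ Nm β - algebraMap F Ω B) := by
      linear_combination κ ^ 3 * w3
    rw [hfin]
    refine V.valuation.map_add_lt ?_ hB
    rw [Valuation.map_neg]
    exact m123

end H55K
end
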