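import Mathlib
import Pool.Agent.Lib.H1M.PP.M002
import Pool.Agent.Lib.H1M.PP.M003
import Pool.Agent.Lib.H1M.PP.M012
import Pool.Agent.Lib.H1M.PP.M018
import Pool.Agent.Lib.H1M.PP.M034
import Pool.Agent.Lib.H1M.PP.M037

/-! Merged copies (to shorten the build) of Lib.H13D.D2, Lib.H13D.P1, Lib.H13D.C2, Lib.H55W.G0, Lib.H55W.G3A, Lib.H55W.G3B, Lib.H13D.D3, Lib.H13D.K1, Lib.H13D.K2, Lib.H13D.E1, Lib.H13D.E2, Lib.H28I.D, Lib.H28I.LA0, Lib.H28I.LA1, Lib.H28I.V1, Lib.H28I.V2, Lib.H55W.E3, Lib.H99B.D1, Lib.H55W.HB, Lib.H55W.S5, Lib.H55W.Q1, Lib.H55W.Q2A. -/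

-- from Lib.H13D.D2
section

/-! # H13D: definitions: the square root of -D and the quadratic symbol -/

open NumberField IsDedekindDomain WeierstrassCurve

namespace H13D

open H55P (IQ embF eF LF Per IsHecke Pt ac Inert Dec Nm)
open H35P (WAB Ker tt GoodW IntW)
open H55K

/-- δ is a square root of -D, D a prime number congruent to 3 modulo 4, D > 3. -/
structure Del (F : Type) [Field F] [NumberField F] (δ : 𝓞 F) (D : ℕ) : Prop where
  prime : D.Prime
  mod : D % 4 = 3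
  big : 3 < D
  sq : δ ^ 2 = -(D : 𝓞 F)

open Classical in
/-- The quadratic symbol of x modulo δ (x is congruent to an integer n modulo δ). -/
noncomputable def lam {F : Type} [Field F] (δ : 𝓞 F) (D : ℕ) (x : 𝓞 F) : ℤ :=
  if h : ∃ n : ℤ, δ ∣ x - n then jacobiSym h.choose D else 0

/-- The nonzero squares modulo D, between 0 and D - 1. -/
def QR (D : ℕ) : Finset ℕ := (Finset.range D).filter fun i => jacobiSym (i : ℤ) D = 1

/-- The product of 2y over the points i T₀, i a nonzero square modulo D. -/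
noncomputable def Yel {Ω : Type} [Field Ω] [DecidableEq Ω] {W : WeierstrassCurve Ω} (D : ℕ) (T₀ : W.toAffine.Point) : Ω :=
  ∏ i ∈ QR D, 2 * yc (i • T₀)

end H13D
end

-- from Lib.H13D.P1
section

/-! # H13D, part P: arithmetic of the field -/

open NumberField IsDedekindDomain WeierstrassCurve

namespace H13D

open H55P (IQ embF eF LF Per IsHecke Pt ac Inert Dec Nm)
open H35P (WAB Ker tt GoodW IntW)
open H55K

variable {F : Type} [Field F] [NumberField F] [IQ F] {δ : 𝓞 F} {D : ℕ}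

/-- Chunk P1 (S/M). (cj δ)^2 = cj (-D) = -D = δ^2, so cj δ = δ or -δ. If cj δ = δ then e = eF F δ is real (e_cj), but e^2 = -D < 0. -/
theorem cj_del (hd : Del F δ D) : cj δ = -δ := by
  have h1 : (cj δ) ^ 2 = δ ^ 2 := by
    rw [← map_pow, hd.sq, map_neg, cj_nat]
  rcases sq_eq_sq_iff_eq_or_eq_neg.1 h1 with h | h
  · exfalso
    have h2 := e_cj δ
    rw [h] at h2
    obtain ⟨r, hr⟩ := Complex.conj_eq_iff_real.1 h2.symm
    have h3 : (eF F δ) ^ 2 = -(D : ℂ) := by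
      rw [← map_pow, hd.sq, map_neg, map_natCast]
    rw [hr] at h3
    have h4 : r ^ 2 = -(D : ℝ) := by exact_mod_cast h3
    have h5 : (0 : ℝ) < D := by exact_mod_cast hd.prime.pos
    nlinarith [sq_nonneg r]
  · exact h

/-- Chunk P1 (S). mul_cj: δ * cj δ = Nm δ; cj δ = -δ, δ^2 = -D; Nat.cast_injective (characteristic 0). -/
theorem Nm_del (hd : Del F δ D) : Nm δ = D := by
  have h1 := mul_cj δ
  rw [cj_del hd] at h1
  have h2 : (D : 𝓞 F) = (Nm δ : 𝓞 F) := by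
    rw [← h1]
    have := hd.sq
    linear_combination this
  exact_mod_cast h2.symm

/-- Chunk P1 (S/M). The ideal span {δ} has prime norm D, so it is prime (Ideal.isPrime_of_irreducible_absNorm; Nm δ = Ideal.absNorm (span {δ}) by definition of Nm); Ideal.span_singleton_prime. -/
theorem del_prime (hd : Del F δ D) : Prime δ := by
  have h0 : δ ≠ 0 := by
    intro h
    have h1 := Nm_del hd
    rw [h] at h1
    have h2 : Nm (0 : 𝓞 F) = 0 := H55P.Nm_eq_zero.2 rfl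
    rw [h2] at h1
    exact hd.prime.ne_zero h1.symm
  rw [← Ideal.span_singleton_prime h0]
  apply Ideal.isPrime_of_irreducible_absNorm
  have h1 : Ideal.absNorm (Ideal.span {δ}) = D := Nm_del hd
  rw [h1]
  exact hd.prime

/-- Chunk P1 (S). If δ divides n then Nm δ = D divides Nm n = n^2 (Nm_mul; Nm (n : ℤ) = n.natAbs^2 from mul_cj, cj n = n), so D divides n. Conversely D = -δ^2. -/
theorem del_dvd_int (hd : Del F δ D) (n : ℤ) : δ ∣ (n : 𝓞 F) ↔ (D : ℤ) ∣ n := by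
  constructor
  · rintro ⟨c, hc⟩
    have h1 : (Nm (n : 𝓞 F) : 𝓞 F) = ((n ^ 2 : ℤ) : 𝓞 F) := by
      rw [← mul_cj, cj_int]
      push_cast
      ring
    have h2 : (Nm (n : 𝓞 F) : ℤ) = n ^ 2 := by exact_mod_cast h1
    rw [hc, Nm_mul, Nm_del hd] at h2
    have h3 : (D : ℤ) ∣ n ^ 2 := ⟨(Nm c : ℤ), by rw [← h2]; push_cast; ring⟩
    exact Int.Prime.dvd_pow' hd.prime h3
  · rintro ⟨c, rfl⟩
    refine ⟨-(δ * c), ?_⟩
    have := hd.sq
    push_cast
    linear_combination (c : 𝓞 F) * this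

/-- Chunk P1 (M). 𝓞 F ⧸ span {δ} has D elements (Nm_del, Ideal.absNorm_apply, Submodule.cardQuot_apply); the map of ZMod D (or of the integers modulo D) to it is injective by del_dvd_int, so it is bijective (equal finite cardinalities). -/
theorem ex_int (hd : Del F δ D) (x : 𝓞 F) : ∃ n : ℤ, δ ∣ x - n := by
  have hcard : Nat.card (𝓞 F ⧸ Ideal.span {δ}) = D := Nm_del hd
  have hfin : Finite (𝓞 F ⧸ Ideal.span {δ}) := Nat.finite_of_card_ne_zero (by rw [hcard]; exact hd.prime.ne_zero)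
  let f : Fin D → 𝓞 F ⧸ Ideal.span {δ} := fun k => Ideal.Quotient.mk _ (((k : ℕ) : ℤ) : 𝓞 F)
  have hf : Function.Injective f := by
    intro a b hab
    have h1 : Ideal.Quotient.mk (Ideal.span {δ}) ((((a : ℕ) : ℤ) : 𝓞 F)) = Ideal.Quotient.mk (Ideal.span {δ}) ((((b : ℕ) : ℤ) : 𝓞 F)) := hab
    rw [Ideal.Quotient.eq, Ideal.mem_span_singleton, ← Int.cast_sub, del_dvd_int hd] at h1
    have h2 := a.2
    have h3 := b.2
    apply Fin.ext
    obtain ⟨c, hc⟩ := h1
    have h4 : c = 0 := by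
      by_contra h5
      rcases lt_or_gt_of_ne h5 with h6 | h6
      · have : (D : ℤ) * c ≤ -D := by nlinarith
        omega
      · have : (D : ℤ) ≤ D * c := by nlinarith
        omega
    rw [h4, mul_zero] at hc
    omega
  have hb : Function.Bijective f := by
    rw [Nat.bijective_iff_injective_and_card]
    refine ⟨hf, ?_⟩
    rw [hcard, Nat.card_eq_fintype_card, Fintype.card_fin]
  obtain ⟨k, hk⟩ := hb.2 (Ideal.Quotient.mk _ x)
  refine ⟨((k : ℕ) : ℤ), ?_⟩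
  rw [← Ideal.mem_span_singleton, ← Ideal.Quotient.eq]
  exact hk.symm

/-- Chunk P1 (S/M). cj x is congruent to n modulo δ too (cj δ = -δ), so Nm x = x cj x is congruent to n^2 modulo δ; del_dvd_int. -/
theorem Nm_mod (hd : Del F δ D) {x : 𝓞 F} {n : ℤ} (h : δ ∣ x - n) : (D : ℤ) ∣ (Nm x : ℤ) - n ^ 2 := by
  rw [← del_dvd_int hd]
  obtain ⟨c, hc⟩ := h
  have h1 : cj x - n = -(δ * cj c) := by
    have := congrArg cj hc
    rw [map_sub, cj_int, map_mul, cj_del hd] at this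
    rw [this]
    ring
  have h2 := mul_cj x
  refine ⟨-(x * cj c) + n * c, ?_⟩
  have h3 : (((Nm x : ℤ) - n ^ 2 : ℤ) : 𝓞 F) = x * cj x - n ^ 2 := by
    rw [h2]
    push_cast
    ring
  rw [h3]
  linear_combination x * h1 + n * hc

end H13D
end

-- from Lib.H13D.C2
section

/-! # H13D, part C: the points killed by δ -/

open NumberField IsDedekindDomain WeierstrassCurve

namespace H13D

open H55P (IQ embF eF LF Per IsHecke Pt ac Inert Dec Nm)
open H35P (WAB Ker tt GoodW IntW)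
open H55K

variable {F : Type} [Field F] [NumberField F] [IQ F] {A B : F} {Om : ℂ} {Ω : Type} [Field Ω] [DecidableEq Ω]
  [Algebra F Ω] {j : Ω →+* ℂ} {act : 𝓞 F →+* AddMonoid.End (Pt (WAB A B) Ω)} {δ : 𝓞 F} {D : ℕ}

omit [NumberField F] [IQ F] in
theorem act_int (n : ℤ) (T : Pt (WAB A B) Ω) : act (n : 𝓞 F) T = n • T := by
  rw [map_intCast]
  rfl

omit [NumberField F] [IQ F] in
theorem act_mul' (a b : 𝓞 F) (T : Pt (WAB A B) Ω) : act (a * b) T = act a (act b T) := by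
  rw [map_mul]
  rfl

omit [NumberField F] [IQ F] in
theorem act_sub' (a b : 𝓞 F) (T : Pt (WAB A B) Ω) : act (a - b) T = act a T - act b T := by
  rw [map_sub]
  rfl

omit [NumberField F] [IQ F] in
/-- Chunk C2 (S). x = n + δ c; act n T = n • T for integers (map_intCast), act (c δ) T = 0. -/
theorem act_tor {x : 𝓞 F} {n : ℤ} (hx : δ ∣ x - n) {T : Pt (WAB A B) Ω} (hT : act δ T = 0) : act x T = n • T := by
  obtain ⟨c, hc⟩ := hx
  have h1 : act (x - n) T = 0 := by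
    rw [hc, mul_comm, act_mul', hT, map_zero]
  rw [act_sub', act_int, sub_eq_zero] at h1
  exact h1

/-- Chunk C2 (S). act_tor with x = D = -δ^2. -/
theorem D_tor (hd : Del F δ D) {T : Pt (WAB A B) Ω} (hT : act δ T = 0) : D • T = 0 := by
  have h1 : act (((D : ℕ) : ℤ) : 𝓞 F) T = ((D : ℕ) : ℤ) • T := act_int _ _
  have h2 : ((((D : ℕ) : ℤ) : 𝓞 F)) = (-δ) * δ := by
    push_cast
    have := hd.sq
    linear_combination this
  rw [h2, act_mul', hT, map_zero] at h1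
  rw [natCast_zsmul] at h1
  exact h1.symm

/-- Chunk C2 (S). D_tor; D is prime and T ≠ 0, so the order of T is D. -/
theorem zsmul_iff (hd : Del F δ D) {T : Pt (WAB A B) Ω} (hT : act δ T = 0) (h0 : T ≠ 0) (n : ℤ) : n • T = 0 ↔ (D : ℤ) ∣ n := by
  have hD := D_tor hd hT
  have hp : Fact D.Prime := ⟨hd.prime⟩
  have ho : addOrderOf T = D := addOrderOf_eq_prime hD h0
  rw [← ho]
  exact addOrderOf_dvd_iff_zsmul_eq_zero.symm

/-- Chunk C2 (S/M). h.gen δ (δ ≠ 0): a generator G with T₀ = act t G, T = act x G, t is congruent to n modulo δ (ex_int), x to k; D does not divide n (T₀ ≠ 0), so k = n m modulo D for an integer m: T = k • G = m • (n • G) = m • T₀. -/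
theorem tor_gen (h : CMA F A B Om j act) (hd : Del F δ D) {T₀ T : Pt (WAB A B) Ω} (hT₀ : act δ T₀ = 0) (h0 : T₀ ≠ 0) (hT : act δ T = 0) :
    ∃ m : ℤ, T = m • T₀ := by
  obtain ⟨G, hG, h1, h2, -⟩ := h.gen δ (del_prime hd).ne_zero
  have hG' : act δ G = 0 := hG
  obtain ⟨t, ht⟩ := h1 T₀ hT₀
  obtain ⟨x, hx⟩ := h1 T hT
  obtain ⟨n, hn⟩ := ex_int hd t
  obtain ⟨k, hk⟩ := ex_int hd x
  rw [act_tor hn hG'] at ht
  rw [act_tor hk hG'] at hx
  have hn' : ¬ (D : ℤ) ∣ n := by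
    rintro ⟨c, rfl⟩
    apply h0
    rw [ht, mul_comm, mul_smul, natCast_zsmul, D_tor hd hG', smul_zero]
  have hco : IsCoprime n (D : ℤ) := by
    rw [isCoprime_comm]
    exact (Prime.coprime_iff_not_dvd (Nat.prime_iff_prime_int.1 hd.prime)).2 hn'
  obtain ⟨a, b, hab⟩ := hco
  refine ⟨k * a, ?_⟩
  rw [hx, ht, ← mul_smul, ← sub_eq_zero, ← sub_smul]
  have e : k - k * a * n = k * b * D := by linear_combination (-k) * hab
  rw [e, mul_smul, natCast_zsmul, D_tor hd hG', smul_zero]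

/-- Chunk C2 (S). h.gen δ: act 1 T₀ ≠ 0 since δ does not divide 1 (del_prime). -/
theorem exists_T (h : CMA F A B Om j act) (hd : Del F δ D) : ∃ T₀ : Pt (WAB A B) Ω, act δ T₀ = 0 ∧ T₀ ≠ 0 := by
  obtain ⟨G, hG, h1, h2, -⟩ := h.gen δ (del_prime hd).ne_zero
  refine ⟨G, hG, fun h0 => ?_⟩
  have h3 : act 1 G = 0 := by rw [h0, map_zero]
  rw [h2] at h3
  exact (del_prime hd).not_unit (isUnit_of_dvd_one h3)

end H13D
end

-- from Lib.H55W.G0
section

/-! # H55W, part G: the Gaussian integers in a field F (definitions and elementary facts) -/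

open NumberField IsDedekindDomain

namespace H55W

open H55P (IQ embF eF Nm)
open H55K (cj)

/-- I is a square root of -1 in the integers of F and every integer of F is a + b I. -/
structure GI {F : Type} [Field F] [NumberField F] (I : 𝓞 F) : Prop where
  sq : I ^ 2 = -1
  rep : ∀ x : 𝓞 F, ∃ a b : ℤ, x = (a : 𝓞 F) + (b : 𝓞 F) * I

/-- x is primary: congruent to 1 modulo 2 + 2 I. -/
def Pry {F : Type} [Field F] [NumberField F] (I x : 𝓞 F) : Prop := 2 + 2 * I ∣ x - 1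

variable {F : Type} [Field F] [NumberField F] [IQ F] {I : 𝓞 F}

theorem g0_neg_ne : (-1 : 𝓞 F) ≠ 1 := by
  intro h
  have h1 : (2 : 𝓞 F) = 0 := by linear_combination (-1 : 𝓞 F) * h
  exact two_ne_zero h1

theorem g0_dvd_nm {x y : 𝓞 F} (h : x ∣ y) : Nm x ∣ Nm y := by
  obtain ⟨z, rfl⟩ := h
  exact ⟨Nm z, H55K.Nm_mul x z⟩

theorem g0_isUnit {z : 𝓞 F} (h : Nm z = 1) : IsUnit z := by
  have h1 : Ideal.span {z} = ⊤ := Ideal.absNorm_eq_one_iff.1 h
  exact Ideal.span_singleton_eq_top.1 h1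

theorem g0_nm_unit {z : 𝓞 F} (h : IsUnit z) : Nm z = 1 := by
  have h1 : Ideal.span {z} = ⊤ := Ideal.span_singleton_eq_top.2 h
  unfold Nm
  rw [h1]
  exact Ideal.absNorm_eq_one_iff.2 rfl

/-- Chunk G0 (S). (cj I)^2 = -1, so (cj I - I)(cj I + I) = 0; if cj I = I then eF I is real (e_cj, Complex.conj_eq_iff_im) with square -1: contradiction. -/
theorem gi_cj (h : GI I) : cj I = -I := by
  have h1 : (cj I) ^ 2 = I ^ 2 := by rw [← map_pow, h.sq, map_neg, map_one]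
  rcases sq_eq_sq_iff_eq_or_eq_neg.1 h1 with h2 | h2
  · exfalso
    have h3 := H55K.e_cj I
    rw [h2] at h3
    have h4 : (eF F I).im = 0 := Complex.conj_eq_iff_im.1 h3.symm
    have h5 : (eF F I) ^ 2 = -1 := by rw [← map_pow, h.sq, map_neg, map_one]
    have h6 := congrArg Complex.re h5
    rw [pow_two, Complex.mul_re, h4, mul_zero, sub_zero, Complex.neg_re, Complex.one_re] at h6
    nlinarith [mul_self_nonneg (eF F I).re]
  · exact h2

/-- Chunk G0 (S). mul_cj, cj_int, gi_cj: (a + b I)(a - b I) = a^2 + b^2 (Nat.cast injectivity of 𝓞 F, characteristic 0). -/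
theorem gi_nm (h : GI I) (a b : ℤ) : ((Nm ((a : 𝓞 F) + (b : 𝓞 F) * I) : ℕ) : ℤ) = a ^ 2 + b ^ 2 := by
  have h1 := H55K.mul_cj ((a : 𝓞 F) + (b : 𝓞 F) * I)
  rw [map_add, map_mul, H55K.cj_int, H55K.cj_int, gi_cj h] at h1
  apply Int.cast_injective (α := 𝓞 F)
  rw [Int.cast_natCast, ← h1]
  push_cast
  linear_combination (-(b : 𝓞 F) ^ 2) * h.sq

theorem g0_pow4 (h : GI I) : I ^ 4 = 1 := by
  have h1 : I ^ 4 = (I ^ 2) ^ 2 := by ring
  rw [h1, h.sq]
  ring

theorem g0_mod (h : GI I) (i : ℕ) : I ^ i = I ^ (i % 4) := by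
  conv_lhs => rw [← Nat.div_add_mod i 4]
  rw [pow_add, pow_mul, g0_pow4 h, one_pow, one_mul]

theorem g0_cube (h : GI I) : I ^ 3 = -I := by
  have h1 : I ^ 3 = I ^ 2 * I := by ring
  rw [h1, h.sq]
  ring

/-- Chunk G0 (S). I^2 = -1 ≠ 1. -/
theorem gi_root (h : GI I) : IsPrimitiveRoot I 4 := by
  refine ⟨g0_pow4 h, fun l hl => ?_⟩
  rw [g0_mod h] at hl
  have h4 : l % 4 < 4 := Nat.mod_lt _ (by norm_num)
  have h2 := h.sq
  interval_cases h5 : l % 4
  · omega
  · exfalso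
    rw [pow_one] at hl
    rw [hl, one_pow] at h2
    exact g0_neg_ne h2.symm
  · exfalso
    rw [hl] at h2
    exact g0_neg_ne h2.symm
  · exfalso
    rw [g0_cube h] at hl
    have h6 : I = -1 := by rw [← hl]; ring
    rw [h6] at h2
    apply g0_neg_ne (F := F)
    rw [← h2]
    ring

/-- Chunk G0 (S). Nm u = 1 (Ideal.absNorm of the top ideal), a^2 + b^2 = 1. -/
theorem gi_unit (h : GI I) {u : 𝓞 F} (hu : IsUnit u) : ∃ i : ℕ, u = I ^ i := by
  obtain ⟨a, b, rfl⟩ := h.rep u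
  have h1 := gi_nm h a b
  rw [g0_nm_unit hu, Nat.cast_one] at h1
  have ha : a ^ 2 ≤ 1 := by nlinarith [sq_nonneg b]
  have hb : b ^ 2 ≤ 1 := by nlinarith [sq_nonneg a]
  have ha1 : -1 ≤ a ∧ a ≤ 1 := ⟨by nlinarith, by nlinarith⟩
  have hb1 : -1 ≤ b ∧ b ≤ 1 := ⟨by nlinarith, by nlinarith⟩
  obtain ⟨ha1, ha2⟩ := ha1
  obtain ⟨hb1, hb2⟩ := hb1
  interval_cases a <;> interval_cases b <;> first | (exfalso; norm_num at h1; done) | skip
  · exact ⟨2, by rw [h.sq]; push_cast; ring⟩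
  · exact ⟨3, by rw [g0_cube h]; push_cast; ring⟩
  · exact ⟨1, by push_cast; ring⟩
  · exact ⟨0, by push_cast; ring⟩

theorem g0_pry (h : GI I) {a b : ℤ} (hab : (a + b) % 4 = 1) (hb : b % 2 = 0) :
    Pry I ((a : 𝓞 F) + (b : 𝓞 F) * I) := by
  obtain ⟨c, hc⟩ : ∃ c : ℤ, a - 1 + b = 4 * c := ⟨(a - 1 + b) / 4, by omega⟩
  obtain ⟨d, hd⟩ : ∃ d : ℤ, b - a + 1 = 4 * d := ⟨(b - a + 1) / 4, by omega⟩
  have ha : a = 2 * (c - d) + 1 := by omega
  have hb : b = 2 * (c + d) := by omega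
  refine ⟨(c : 𝓞 F) + (d : 𝓞 F) * I, ?_⟩
  rw [ha, hb]
  push_cast
  linear_combination (-2 * (d : 𝓞 F)) * h.sq

/-- Chunk G0 (S/M). x = a + b I. 1 + I does not divide x, so a + b is odd ((1 + I) c with c = (a+b)/2 + ((b-a)/2) I). If a is odd, b even: multiply by I^0 or I^2; if a even, b odd: multiply by I or I^3; a + b I with a odd, b even is ≡ 1 modulo 2 + 2I iff a + b ≡ 1 mod 4:
((a - 1) + b I) = (2 + 2I)(c + d I) with c = (a - 1 + b)/4, d = (b - a + 1)/4. -/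
theorem gi_exists (h : GI I) {x : 𝓞 F} (hx : ¬ (1 + I) ∣ x) : ∃ i : ℕ, Pry I (I ^ i * x) := by
  obtain ⟨a, b, rfl⟩ := h.rep x
  have hodd : (a + b) % 2 = 1 := by
    by_contra hcon
    apply hx
    obtain ⟨c, hc⟩ : ∃ c : ℤ, a + b = 2 * c := ⟨(a + b) / 2, by omega⟩
    have hb : b = 2 * c - a := by omega
    refine ⟨(c : 𝓞 F) + ((c - a : ℤ) : 𝓞 F) * I, ?_⟩
    rw [hb]
    push_cast
    linear_combination (-((c : 𝓞 F) - a)) * h.sq
  have e2 : ∀ y : 𝓞 F, I ^ 2 * y = -y := fun y => by rw [h.sq]; ring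
  by_cases hb : b % 2 = 0
  · by_cases h1 : (a + b) % 4 = 1
    · exact ⟨0, by rw [pow_zero, one_mul]; exact g0_pry h h1 hb⟩
    · refine ⟨2, ?_⟩
      have h2 := g0_pry (I := I) h (a := -a) (b := -b) (by omega) (by omega)
      have h3 : I ^ 2 * ((a : 𝓞 F) + (b : 𝓞 F) * I) = ((-a : ℤ) : 𝓞 F) + ((-b : ℤ) : 𝓞 F) * I := by
        rw [e2]
        push_cast
        ring
      rwa [h3]
  · by_cases h1 : (a - b) % 4 = 1
    · refine ⟨1, ?_⟩
      have h2 := g0_pry (I := I) h (a := -b) (b := a) (by omega) (by omega)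
      have h3 : I ^ 1 * ((a : 𝓞 F) + (b : 𝓞 F) * I) = ((-b : ℤ) : 𝓞 F) + (a : 𝓞 F) * I := by
        push_cast
        linear_combination (b : 𝓞 F) * h.sq
      rwa [h3]
    · refine ⟨3, ?_⟩
      have h2 := g0_pry (I := I) h (a := b) (b := -a) (by omega) (by omega)
      have h3 : I ^ 3 * ((a : 𝓞 F) + (b : 𝓞 F) * I) = (b : 𝓞 F) + ((-a : ℤ) : 𝓞 F) * I := by
        rw [g0_cube h]
        push_cast
        linear_combination (-(b : 𝓞 F)) * h.sq
      rwa [h3]

theorem g0_nm22 (h : GI I) : Nm (2 + 2 * I) = 8 := by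
  have h1 := gi_nm h 2 2
  push_cast at h1
  exact_mod_cast h1

theorem g0_nm11 (h : GI I) : Nm (1 + I) = 2 := by
  have h1 := gi_nm h 1 1
  push_cast at h1
  rw [one_mul] at h1
  exact_mod_cast h1

/-- Chunk G0 (S). i modulo 4: 2 + 2I does not divide I - 1, -2, -I - 1 (norms 8 versus 2, 4, 2: gi_nm, Nm_mul). -/
theorem gi_uniq (h : GI I) {i : ℕ} (hi : Pry I (I ^ i)) : I ^ i = 1 := by
  rw [g0_mod h] at hi ⊢
  have h4 : i % 4 < 4 := Nat.mod_lt _ (by norm_num)
  have h8 := g0_dvd_nm hi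
  rw [g0_nm22 h] at h8
  interval_cases h5 : i % 4
  · exact pow_zero I
  · exfalso
    have h1 := gi_nm h (-1) 1
    have h2 : I ^ 1 - 1 = ((-1 : ℤ) : 𝓞 F) + ((1 : ℤ) : 𝓞 F) * I := by push_cast; ring
    rw [h2] at h8
    have h3 : Nm (((-1 : ℤ) : 𝓞 F) + ((1 : ℤ) : 𝓞 F) * I) = 2 := by
      apply Nat.cast_injective (R := ℤ)
      rw [h1]
      norm_num
    rw [h3] at h8
    norm_num at h8
  · exfalso
    have h1 := gi_nm h (-2) 0
    have h2 : I ^ 2 - 1 = ((-2 : ℤ) : 𝓞 F) + ((0 : ℤ) : 𝓞 F) * I := by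
      rw [h.sq]
      push_cast
      ring
    rw [h2] at h8
    have h3 : Nm (((-2 : ℤ) : 𝓞 F) + ((0 : ℤ) : 𝓞 F) * I) = 4 := by
      apply Nat.cast_injective (R := ℤ)
      rw [h1]
      norm_num
    rw [h3] at h8
    norm_num at h8
  · exfalso
    have h1 := gi_nm h (-1) (-1)
    have h2 : I ^ 3 - 1 = ((-1 : ℤ) : 𝓞 F) + ((-1 : ℤ) : 𝓞 F) * I := by
      rw [g0_cube h]
      push_cast
      ring
    rw [h2] at h8
    have h3 : Nm (((-1 : ℤ) : 𝓞 F) + ((-1 : ℤ) : 𝓞 F) * I) = 2 := by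
      apply Nat.cast_injective (R := ℤ)
      rw [h1]
      norm_num
    rw [h3] at h8
    norm_num at h8

/-- Chunk G0 (S). x y - 1 = (x - 1) y + (y - 1). -/
theorem pry_mul {x y : 𝓞 F} (hx : Pry I x) (hy : Pry I y) : Pry I (x * y) := by
  have h1 : x * y - 1 = (x - 1) * y + (y - 1) := by ring
  unfold Pry
  rw [h1]
  exact dvd_add (hx.mul_right y) hy

/-- Chunk G0 (S). x - 1 = (2 + 2I) z and (1 + I) divides x: then 1 + I divides 1, norm 2. -/
theorem pry_cop (h : GI I) {x : 𝓞 F} (hx : Pry I x) : ¬ (1 + I) ∣ x ∧ IsCoprime x (2 : 𝓞 F) ∧ PJ 4 I (Ideal.span {x}) := by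
  obtain ⟨z, hz⟩ := hx
  have h1 : ¬ (1 + I) ∣ x := by
    intro hd
    have h2 : (1 + I) ∣ (1 : 𝓞 F) := by
      have h3 : (1 : 𝓞 F) = x - (1 + I) * (2 * z) := by linear_combination (-1 : 𝓞 F) * hz
      have h4 : (1 + I) ∣ x - (1 + I) * (2 * z) := dvd_sub hd (Dvd.intro _ rfl)
      rwa [← h3] at h4
    have h4 := g0_dvd_nm h2
    rw [g0_nm11 h, g0_nm_unit isUnit_one] at h4
    norm_num at h4
  have h2 : IsCoprime x (2 : 𝓞 F) := ⟨1, -((1 + I) * z), by linear_combination hz⟩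
  refine ⟨h1, h2, ?_, ?_, gi_root h, by norm_num⟩
  · rw [Ne, Ideal.span_singleton_eq_bot]
    rintro rfl
    exact h1 (dvd_zero _)
  · rw [Ideal.isCoprime_span_singleton_iff]
    have h3 : ((4 : ℕ) : 𝓞 F) = 2 ^ 2 := by norm_num
    rw [h3]
    exact h2.pow_right

/-- Chunk G0 (S). If (x y) and x are primary then y is: x y - y = (x - 1) y, and y ≡ x y ≡ 1. -/
theorem pry_of_mul {x y : 𝓞 F} (hx : Pry I x) (hxy : Pry I (x * y)) : Pry I y := by
  have h1 : y - 1 = (x * y - 1) - (x - 1) * y := by ring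
  unfold Pry
  rw [h1]
  exact dvd_sub hxy (hx.mul_right y)

/-- Chunk G0 (S). 2 + 2I divides 4 = (2 + 2I)(1 - I). -/
theorem pry_int (h : GI I) {n : ℤ} (hn : n % 4 = 1) : Pry I (n : 𝓞 F) := by
  obtain ⟨k, hk⟩ : ∃ k : ℤ, n = 4 * k + 1 := ⟨n / 4, by omega⟩
  refine ⟨(1 - I) * (k : 𝓞 F), ?_⟩
  rw [hk]
  push_cast
  linear_combination (2 * (k : 𝓞 F)) * h.sq

/-- Chunk G0 (S). π is prime and 1 + I does not divide it, so 2 is not in (π) (2 = -I (1 + I)^2; π would divide 1 + I, which is irreducible (norm 2), so it would be associated with it). -/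
theorem pp_pi (h : GI I) {π : 𝓞 F} (hπ : Prime π) (hn : ¬ (1 + I) ∣ π) : PP 4 I (Ideal.span {π}) := by
  refine ⟨(Ideal.span_singleton_prime hπ.ne_zero).2 hπ, ?_, ?_, gi_root h, by norm_num⟩
  · rw [Ne, Ideal.span_singleton_eq_bot]
    exact hπ.ne_zero
  · rw [Ideal.mem_span_singleton]
    intro hd
    have h4 : ((4 : ℕ) : 𝓞 F) = 2 ^ 2 := by norm_num
    rw [h4] at hd
    have h2 := hπ.dvd_of_dvd_pow hd
    have e2 : (2 : 𝓞 F) = (-I * (1 + I)) * (1 + I) := by linear_combination (I + 2) * h.sq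
    rw [e2] at h2
    have h1 : π ∣ 1 + I := by
      rcases hπ.dvd_or_dvd h2 with h3 | h3
      · rcases hπ.dvd_or_dvd h3 with h5 | h5
        · exfalso
          apply hπ.not_isUnit
          have hu : IsUnit (-I) := IsUnit.of_mul_eq_one I (by linear_combination (-1 : 𝓞 F) * h.sq)
          exact isUnit_of_dvd_unit h5 hu
        · exact h5
      · exact h3
    obtain ⟨z, hz⟩ := h1
    have h5 : 2 = Nm π * Nm z := by rw [← H55K.Nm_mul, ← hz, g0_nm11 h]
    have h6 : Nm π ≠ 1 := fun h7 => hπ.not_isUnit (g0_isUnit h7)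
    have h7 : Nm z = 1 := by
      have h8 : Nm π ∣ 2 := ⟨_, h5⟩
      rcases (Nat.dvd_prime Nat.prime_two).1 h8 with h9 | h9
      · exact absurd h9 h6
      · rw [h9] at h5
        omega
    obtain ⟨u, hu⟩ := g0_isUnit h7
    apply hn
    rw [hz, ← hu]
    exact Units.mul_right_dvd.2 dvd_rfl

end H55W
end

-- from Lib.H55W.G3A
section

/-! # H55W, part G: the Jacobi sum J(χ, χ^2) of a quartic character -/

open NumberField IsDedekindDomain

namespace H55W

open H55P (IQ embF eF Nm)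
open H55K (cj)

variable {F : Type} [Field F] [NumberField F] [IQ F] {I : 𝓞 F}

/-- The quartic character of k = 𝓞 F ⧸ P, the norm of P being a prime number p. -/
structure QC (I : 𝓞 F) (P : Ideal (𝓞 F)) (p : ℕ) (k : Type) [Field k] [Fintype k] (φ : 𝓞 F →+* k) (χ : MulChar k (𝓞 F)) : Prop where
  gi : GI I
  pp : PP 4 I P
  prime : p.Prime
  norm : Ideal.absNorm P = p
  surj : Function.Surjective φ
  ker : RingHom.ker φ = P
  card : Fintype.card k = p
  order : orderOf χ = 4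
  chi : ∀ x : 𝓞 F, χ (φ x) = ps 4 I P x

variable {P : Ideal (𝓞 F)} {p : ℕ} {k : Type} [Field k] [Fintype k] {φ : 𝓞 F →+* k} {χ : MulChar k (𝓞 F)}

/-- Chunk G3A (S). p - 1 is divisible by 4 (ps_dvd, h.norm). -/
theorem qc_p (h : QC I P p k φ χ) : p % 4 = 1 := by
  obtain ⟨h1, _, h3⟩ := ps_dvd h.pp
  rw [h.norm] at h1 h3
  omega

theorem g3a_pos (h : QC I P p k φ χ) : 0 < (p - 1) / 4 ∧ p - 1 = 4 * ((p - 1) / 4) := by
  have h1 := qc_p h
  have h2 := h.prime.two_le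
  omega

theorem g3a_phi (h : QC I P p k φ χ) (y : k) : φ (χ y) = y ^ ((p - 1) / 4) := by
  obtain ⟨x, rfl⟩ := h.surj y
  rw [h.chi]
  by_cases hx : x ∈ P
  · rw [ps_zero h.pp hx, map_zero]
    have h1 : φ x = 0 := by
      rw [← RingHom.mem_ker, h.ker]
      exact hx
    rw [h1, zero_pow (g3a_pos h).1.ne']
  · have h1 := (ps_spec h.pp hx).2
    have h2 : x ^ ((Ideal.absNorm P - 1) / 4) - ps 4 I P x ∈ RingHom.ker φ := by
      rw [h.ker]
      exact h1
    rw [RingHom.mem_ker, map_sub, map_pow, sub_eq_zero, h.norm] at h2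
    exact h2.symm

theorem g3a_pow (h : QC I P p k φ χ) {y : k} (hy : y ≠ 0) : ∃ i : ℕ, χ y = I ^ i := by
  obtain ⟨x, rfl⟩ := h.surj y
  rw [h.chi]
  have hx : x ∉ P := by
    intro h1
    apply hy
    rw [← RingHom.mem_ker, h.ker]
    exact h1
  exact (ps_spec h.pp hx).1

theorem g3a_ne (h : QC I P p k φ χ) {j : ℕ} (h0 : 0 < j) (h4 : j < 4) : χ ^ j ≠ 1 := by
  intro h1
  have h2 := orderOf_dvd_of_pow_eq_one h1
  rw [h.order] at h2
  have h3 := Nat.le_of_dvd h0 h2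
  omega

open Polynomial in
theorem g3a_sum (k : Type) [Field k] [Fintype k] {m : ℕ} (hm : Fintype.card k - 1 = 4 * m)
    (hm0 : 0 < m) : ∑ x : k, x ^ m * (1 - x) ^ (2 * m) = 0 := by
  set Q : k[X] := X ^ m * (1 - X) ^ (2 * m) with hQ
  have hdeg : Q.natDegree ≤ 3 * m := by
    have h1 : (1 - X : k[X]).natDegree ≤ 1 :=
      (natDegree_sub_le _ _).trans (by simp)
    refine (natDegree_mul_le).trans ?_
    have h2 := natDegree_pow_le_of_le (2 * m) h1
    have h3 : (X ^ m : k[X]).natDegree ≤ m := by simp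
    omega
  have h1 : ∀ x : k, x ^ m * (1 - x) ^ (2 * m) = ∑ i ∈ Finset.range (3 * m + 1), Q.coeff i * x ^ i := by
    intro x
    rw [← Polynomial.eval_eq_sum_range' (by omega) x, hQ]
    simp
  simp only [h1]
  rw [Finset.sum_comm]
  refine Finset.sum_eq_zero fun i hi => ?_
  rw [← Finset.mul_sum, FiniteField.sum_pow_lt_card_sub_one k i (by have := Finset.mem_range.mp hi; omega), mul_zero]

/-- Chunk G3A (M). φ (J) = sum over y of φ (χ y) φ (χ^2 (1 - y)) = sum of y^m (1 - y)^(2m), m = (p - 1)/4: for y = φ x, φ (χ y) = φ (ps x) = y^m (ps_spec if x is not in P; both 0 otherwise, m > 0). The polynomial X^m (1 - X)^(2m) has degree 3m < p - 1 = card k - 1: the sum over k of its values is 0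
(FiniteField.sum_pow_lt_card_sub_one; compare E2_sum_poly in H55B/E2.lean, a port). jacobiSum (unfold), Fintype sums, MulChar.pow_apply'. -/
theorem qc_mem (h : QC I P p k φ χ) : jacobiSum χ (χ ^ 2) ∈ P := by
  rw [← h.ker, RingHom.mem_ker]
  unfold jacobiSum
  rw [map_sum]
  obtain ⟨hm0, hm⟩ := g3a_pos h
  rw [← g3a_sum k (by rw [h.card]; exact hm) hm0]
  refine Finset.sum_congr rfl fun y _ => ?_
  rw [map_mul, g3a_phi h, MulChar.pow_apply' χ two_ne_zero, map_pow, g3a_phi h, ← pow_mul, mul_comm 2]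

/-- Chunk G3A (M). The sum S over all y in k of (χ^2 y - 1)(χ (1 - y) - 1) is J - sum χ^2 - sum χ(1 - y) + p = J + p (MulChar.sum_eq_zero_of_ne_one: χ, χ^2 ≠ 1 by order; change of variable y to 1 - y: Equiv.subLeft; J = jacobiSum χ (χ^2) = sum χ y χ^2 (1 - y) = sum χ^2 y χ (1 - y), jacobiSum_comm). Each term is divisible by 2 + 2I = 2 (1 + I): y = 0: χ 1 - 1 = 0; y = 1: χ^2 1 - 1 = 0;
otherwise χ^2 y = 1 or -1, and χ (1 - y) is a power of I (ps_spec; χ z is a power of I for z ≠ 0), I^i - 1 is divisible by I - 1 = I (1 + I). p - 1 is divisible by 4 = (2 + 2I)(1 - I). So 2 + 2I divides J + p and p - 1... J + 1 = (J + p) - (p - 1). -/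
theorem qc_cong (h : QC I P p k φ χ) : 2 + 2 * I ∣ jacobiSum χ (χ ^ 2) + 1 := by
  have hsq := h.gi.sq
  have hterm : ∀ y : k, 2 + 2 * I ∣ ((χ ^ 2) y - 1) * (χ (1 - y) - 1) := by
    intro y
    by_cases h0 : y = 0
    · rw [h0, sub_zero, map_one, sub_self, mul_zero]
      exact dvd_zero _
    by_cases h1 : y = 1
    · rw [h1, map_one, sub_self, zero_mul]
      exact dvd_zero _
    obtain ⟨i, hi⟩ := g3a_pow h h0
    obtain ⟨j, hj⟩ := g3a_pow h (sub_ne_zero.2 (Ne.symm h1))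
    have e : (2 : 𝓞 F) + 2 * I = 2 * (1 + I) := by ring
    rw [MulChar.pow_apply' χ two_ne_zero, hi, hj, e]
    refine mul_dvd_mul ?_ ?_
    · rw [← pow_mul, mul_comm, pow_mul, hsq]
      rcases neg_one_pow_eq_or (𝓞 F) i with h2 | h2
      · rw [h2, sub_self]
        exact dvd_zero _
      · rw [h2]
        exact ⟨-1, by ring⟩
    · have h2 : 1 + I ∣ I - 1 := ⟨I, by linear_combination -hsq⟩
      refine h2.trans ?_
      have h3 := sub_dvd_pow_sub_pow I 1 j
      rwa [one_pow] at h3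
  have hsum : ∑ y : k, ((χ ^ 2) y - 1) * (χ (1 - y) - 1) = jacobiSum χ (χ ^ 2) + (p : 𝓞 F) := by
    have e1 : ∀ y : k, ((χ ^ 2) y - 1) * (χ (1 - y) - 1) = (χ ^ 2) y * χ (1 - y) - (χ ^ 2) y - χ (1 - y) + 1 := by
      intro y
      ring
    simp only [e1]
    rw [Finset.sum_add_distrib, Finset.sum_sub_distrib, Finset.sum_sub_distrib]
    have e2 : ∑ y : k, (χ ^ 2) y * χ (1 - y) = jacobiSum χ (χ ^ 2) := by
      rw [jacobiSum_comm]
      rfl
    have e3 : ∑ y : k, (χ ^ 2) y = 0 := MulChar.sum_eq_zero_of_ne_one (g3a_ne h (by norm_num) (by norm_num))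
    have e4 : ∑ y : k, χ (1 - y) = 0 := by
      have h5 : χ ≠ 1 := by
        have h6 := g3a_ne h (j := 1) (by norm_num) (by norm_num)
        rwa [pow_one] at h6
      rw [← MulChar.sum_eq_zero_of_ne_one h5]
      exact Equiv.sum_comp (Equiv.subLeft (1 : k)) fun y => χ y
    rw [e2, e3, e4, Finset.sum_const, Finset.card_univ, h.card, nsmul_eq_mul, mul_one]
    ring
  have h1 : 2 + 2 * I ∣ jacobiSum χ (χ ^ 2) + (p : 𝓞 F) := by
    rw [← hsum]
    exact Finset.dvd_sum fun y _ => hterm y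
  have h2 : 2 + 2 * I ∣ (p : 𝓞 F) - 1 := by
    obtain ⟨_, hm⟩ := g3a_pos h
    have hp := h.prime.two_le
    have h3 : (p : 𝓞 F) = 4 * (((p - 1) / 4 : ℕ) : 𝓞 F) + 1 := by
      have h4 : p = 4 * ((p - 1) / 4) + 1 := by omega
      have h5 := congrArg (fun n : ℕ => (n : 𝓞 F)) h4
      push_cast at h5
      exact h5
    refine ⟨(1 - I) * (((p - 1) / 4 : ℕ) : 𝓞 F), ?_⟩
    rw [h3]
    linear_combination (2 * (((p - 1) / 4 : ℕ) : 𝓞 F)) * hsq
  have h3 := dvd_sub h1 h2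
  have e : jacobiSum χ (χ ^ 2) + (p : 𝓞 F) - ((p : 𝓞 F) - 1) = jacobiSum χ (χ ^ 2) + 1 := by ring
  rwa [e] at h3

end H55W
end

-- from Lib.H55W.G3B
section

/-! # H55W, part G: the Jacobi sum J(χ, χ^2) of a quartic character -/

open NumberField IsDedekindDomain

namespace H55W

open H55P (IQ embF eF Nm)
open H55K (cj)

variable {F : Type} [Field F] [NumberField F] [IQ F] {I : 𝓞 F} {P : Ideal (𝓞 F)} {p : ℕ} {k : Type} [Field k] [Fintype k] {φ : 𝓞 F →+* k} {χ : MulChar k (𝓞 F)}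

theorem g3b_cj (h : QC I P p k φ χ) (y : k) : cj (χ y) = (χ⁻¹) y := by
  have h4 : χ ^ 4 = 1 := by
    rw [← h.order]
    exact pow_orderOf_eq_one χ
  have hinv : χ⁻¹ = χ ^ 3 := by
    rw [inv_eq_iff_mul_eq_one, ← pow_succ', h4]
  rw [hinv, MulChar.pow_apply' χ (by norm_num)]
  by_cases hy : y = 0
  · have h1 : χ y = 0 := by
      rw [hy]
      exact χ.map_zero
    rw [h1, map_zero]
    norm_num
  · obtain ⟨i, hi⟩ := g3a_pow h hy
    have hsq := h.gi.sq
    rw [hi, map_pow, gi_cj h.gi, ← pow_mul, mul_comm i 3, pow_mul]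
    congr 1
    linear_combination (-I) * hsq

/-- Chunk G3B (M). Port of H55B.E2_abs (H55B/E2.lean): jacobiSum_mul_jacobiSum_inv in the field F (characteristic 0) for χ, χ^2 (χ, χ^2, χ^3 ≠ 1), jacobiSum_ringHomComp for algebraMap (𝓞 F) F (injective); J(χ⁻¹, (χ^2)⁻¹) = cj J because cj (χ y) = χ⁻¹ y (the values are powers of I: cj (I^i) = (-I)^i = I^(3i), gi_cj). -/
theorem qc_abs (h : QC I P p k φ χ) : jacobiSum χ (χ ^ 2) * cj (jacobiSum χ (χ ^ 2)) = (p : 𝓞 F) := by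
  classical
  have hcjJ : cj (jacobiSum χ (χ ^ 2)) = jacobiSum χ⁻¹ (χ ^ 2)⁻¹ := by
    unfold jacobiSum
    rw [map_sum]
    refine Finset.sum_congr rfl fun y _ => ?_
    rw [map_mul, g3b_cj h, MulChar.pow_apply' χ two_ne_zero, map_pow, g3b_cj h, ← inv_pow,
      MulChar.pow_apply' χ⁻¹ two_ne_zero]
  rw [hcjJ]
  have hinj : Function.Injective (algebraMap (𝓞 F) F) := FaithfulSMul.algebraMap_injective (𝓞 F) F
  set ψ : MulChar k F := χ.ringHomComp (algebraMap (𝓞 F) F) with hψ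
  have hpow : ∀ j : ℕ, ψ ^ j = (χ ^ j).ringHomComp (algebraMap (𝓞 F) F) := by
    intro j
    rw [hψ, MulChar.ringHomComp_pow]
  have hne : ∀ j : ℕ, 0 < j → j < 4 → ψ ^ j ≠ 1 := by
    intro j h0 h4
    rw [hpow]
    exact (MulChar.ringHomComp_ne_one_iff hinj).mpr (g3a_ne h h0 h4)
  have hψ1 : ψ ≠ 1 := by
    have h1 := hne 1 (by norm_num) (by norm_num)
    rwa [pow_one] at h1
  have hψ2 : ψ ^ 2 ≠ 1 := hne 2 (by norm_num) (by norm_num)
  have hψ3 : ψ * ψ ^ 2 ≠ 1 := by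
    rw [← pow_succ']
    exact hne 3 (by norm_num) (by norm_num)
  have hchar : ringChar F ≠ ringChar k := by
    rw [ringChar.eq F 0]
    exact (CharP.char_ne_zero_of_finite k (ringChar k)).symm
  have h1 := jacobiSum_mul_jacobiSum_inv hchar hψ1 hψ2 hψ3
  have hψinv : ψ⁻¹ = (χ⁻¹).ringHomComp (algebraMap (𝓞 F) F) := by
    rw [hψ, MulChar.ringHomComp_inv]
  have hψ2inv : (ψ ^ 2)⁻¹ = ((χ ^ 2)⁻¹).ringHomComp (algebraMap (𝓞 F) F) := by
    rw [hpow, MulChar.ringHomComp_inv]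
  rw [hψ2inv, hψinv, hpow, hψ, jacobiSum_ringHomComp, jacobiSum_ringHomComp, ← map_mul, h.card] at h1
  apply hinj
  rw [h1, map_natCast]

/-- Chunk G3B (S/M). π divides J (qc_mem): J = π z. Nm J = p (mul_cj, qc_abs) and Nm π = p (absNorm of P), so Nm z = 1, z is a unit (Ideal.absNorm_eq_one_iff), -z = I^i (gi_unit; -1 = I^2). -J is primary (qc_cong), π is, so -z is (pry_of_mul), so -z = 1 (gi_uniq). -/
theorem qc_jac (h : QC I P p k φ χ) {π : 𝓞 F} (hπ : P = Ideal.span {π}) (hp : Pry I π) : jacobiSum χ (χ ^ 2) = -π := by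
  have h1 := qc_mem h
  rw [hπ, Ideal.mem_span_singleton] at h1
  obtain ⟨z, hz⟩ := h1
  have hNJ : Nm (jacobiSum χ (χ ^ 2)) = p := by
    have h2 := H55K.mul_cj (jacobiSum χ (χ ^ 2))
    rw [qc_abs h] at h2
    exact_mod_cast h2.symm
  have hNπ : Nm π = p := by
    show Ideal.absNorm (Ideal.span {π}) = p
    rw [← hπ, h.norm]
  have hNz : Nm z = 1 := by
    rw [hz, H55K.Nm_mul, hNπ] at hNJ
    exact Nat.eq_of_mul_eq_mul_left h.prime.pos (by rw [hNJ, mul_one])
  have hu : IsUnit z := by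
    rw [← Ideal.span_singleton_eq_top, ← Ideal.absNorm_eq_one_iff]
    exact hNz
  obtain ⟨i, hi⟩ := gi_unit h.gi hu.neg
  have h2 : Pry I (π * -z) := by
    obtain ⟨w, hw⟩ := qc_cong h
    refine ⟨-w, ?_⟩
    rw [hz] at hw
    linear_combination -hw
  have h3 : Pry I (-z) := pry_of_mul hp h2
  have h4 : -z = 1 := by
    rw [hi]
    exact gi_uniq h.gi (by rw [← hi]; exact h3)
  have h5 : z = -1 := by
    rw [← h4, neg_neg]
  rw [hz, h5, mul_neg, mul_one]

end H55W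
end

-- from Lib.H13D.D3
section

/-! # H13D: definitions: Kronecker symbol, the second element -/

open NumberField IsDedekindDomain WeierstrassCurve

namespace H13D

open H55K

/-- χ is the Kronecker symbol of the squarefree integer d, on the natural numbers prime to N (all prime divisors of d divide N). -/
structure Kron (d : ℤ) (N : ℕ) (χ : ℕ → ℤ) : Prop where
  one : χ 1 = 1
  mul : ∀ a b : ℕ, a.Coprime N → b.Coprime N → χ (a * b) = χ a * χ b
  pm : ∀ a : ℕ, a.Coprime N → χ a = 1 ∨ χ a = -1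
  odd : ∀ p : ℕ, p.Prime → ¬ p ∣ N → p ≠ 2 → χ p = jacobiSym d p
  two : ¬ 2 ∣ N → (χ 2 = 1 ↔ d % 8 = 1)
  per : ∀ a b : ℕ, a.Coprime N → b.Coprime N → a ≡ b [MOD N ^ 3] → χ a = χ b

/-- The product of c₁ (x - ρ) + c₃ over the points i T₀, i a nonzero square modulo D. -/
noncomputable def Zel {Ω : Type} [Field Ω] [DecidableEq Ω] {W : WeierstrassCurve Ω} (D : ℕ) (T₀ : W.toAffine.Point) (c₁ ρ c₃ : Ω) : Ω :=
  ∏ i ∈ QR D, (c₁ * (xc (i • T₀) - ρ) + c₃)

end H13D
end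

-- from Lib.H13D.K1
section

/-! # H13D, part K: the Kronecker symbol -/

namespace H13D

theorem k1_dvd {d : ℤ} {N : ℕ} (hd : Squarefree d) (hdN : ∀ p : ℕ, p.Prime → (p : ℤ) ∣ d → p ∣ N) (hN : N ≠ 0) : d.natAbs ∣ N := by
  have h1 : Squarefree d.natAbs := Int.squarefree_natAbs.2 hd
  rw [← Nat.prod_primeFactors_of_squarefree h1]
  refine dvd_trans (Finset.prod_dvd_prod_of_subset _ _ _ fun p hp => ?_) (Nat.prod_primeFactors_dvd N)
  have h2 := Nat.prime_of_mem_primeFactors hp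
  have h3 := Nat.dvd_of_mem_primeFactors hp
  exact Nat.mem_primeFactors.2 ⟨h2, hdN p h2 (Int.natCast_dvd.2 h3), hN⟩

theorem k1_cop {d : ℤ} {N : ℕ} (hdN : ∀ p : ℕ, p.Prime → (p : ℤ) ∣ d → p ∣ N) {a : ℕ} (ha : a.Coprime N) : Nat.Coprime d.natAbs a := by
  rw [Nat.coprime_iff_isRelPrime]
  by_contra h
  have h1 : ¬ Nat.Coprime d.natAbs a := fun h2 => h (Nat.coprime_iff_isRelPrime.1 h2)
  obtain ⟨p, hp, h3, h4⟩ := Nat.Prime.not_coprime_iff_dvd.1 h1
  have h5 := hdN p hp (Int.natCast_dvd.2 h3)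
  exact Nat.Prime.not_coprime_iff_dvd.2 ⟨p, hp, h4, h5⟩ ha

/-- Chunk K1 (M). The case of even N: χ a = jacobiSym d a. one: jacobiSym.one_right. mul: jacobiSym.mul_right. pm: a is odd and prime to d (the primes dividing d divide N): jacobiSym.eq_one_or_neg_one. odd: by definition. two: 2 divides N, nothing to prove. per: jacobiSym.mod_right: for odd b jacobiSym d b = jacobiSym d (b % (4 * d.natAbs)); 4 d.natAbs divides N^3: d is squarefree
with all prime divisors dividing N, so d.natAbs divides N (Nat: squarefree and radical, e.g. Squarefree.dvd_of.. or UniqueFactorizationMonoid), and 4 divides N^2 (2 divides N). -/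
theorem kron_even {d : ℤ} {N : ℕ} (hd : Squarefree d) (hdN : ∀ p : ℕ, p.Prime → (p : ℤ) ∣ d → p ∣ N) (h2 : 2 ∣ N) (hN : N ≠ 0) :
    ∃ χ : ℕ → ℤ, Kron d N χ := by
  have hne : ∀ a : ℕ, a.Coprime N → a ≠ 0 := by
    rintro a ha rfl
    rw [Nat.coprime_zero_left] at ha
    rw [ha] at h2
    norm_num at h2
  have hodd : ∀ a : ℕ, a.Coprime N → Odd a := by
    intro a ha
    rw [← Nat.not_even_iff_odd]
    intro h
    have h3 := Nat.dvd_gcd h.two_dvd h2
    rw [ha] at h3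
    norm_num at h3
  refine ⟨fun a => jacobiSym d a, ?_⟩
  constructor
  · exact jacobiSym.one_right d
  · intro a b ha hb
    exact jacobiSym.mul_right' d (hne a ha) (hne b hb)
  · intro a ha
    exact jacobiSym.eq_one_or_neg_one (k1_cop hdN ha)
  · intro p _ _ _
    rfl
  · intro h
    exact absurd h2 h
  · intro a b ha hb hab
    show jacobiSym d a = jacobiSym d b
    rw [jacobiSym.mod_right d (hodd a ha), jacobiSym.mod_right d (hodd b hb)]
    have h3 : 4 * d.natAbs ∣ N ^ 3 := by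
      have h4 : 4 ∣ N ^ 2 := by
        have h5 := pow_dvd_pow_of_dvd h2 2
        norm_num at h5
        exact h5
      have h6 : N ^ 3 = N ^ 2 * N := by ring
      rw [h6]
      exact mul_dvd_mul h4 (k1_dvd hd hdN hN)
    have h7 : a ≡ b [MOD 4 * d.natAbs] := hab.of_dvd h3
    have h8 : a % (4 * d.natAbs) = b % (4 * d.natAbs) := h7
    rw [h8]

theorem k1_rec {d : ℤ} (h4 : d % 4 = 1) {p : ℕ} (hp : Odd p) : jacobiSym (p : ℤ) d.natAbs = jacobiSym d p := by
  rcases le_or_gt 0 d with h0 | h0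
  · obtain ⟨m, rfl⟩ := Int.eq_ofNat_of_zero_le h0
    rw [Int.natAbs_natCast]
    have h1 : m % 4 = 1 := by omega
    exact (jacobiSym.quadratic_reciprocity_one_mod_four h1 hp).symm
  · obtain ⟨m, hm⟩ := Int.eq_ofNat_of_zero_le (show 0 ≤ -d by omega)
    have h1 : d = -(m : ℤ) := by omega
    subst h1
    rw [Int.natAbs_neg, Int.natAbs_natCast]
    have h2 : m % 4 = 3 := by omega
    have h3 : Odd m := Nat.odd_iff.2 (by omega)
    rw [jacobiSym.neg _ hp]
    have h5 : p % 2 = 1 := Nat.odd_iff.1 hp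
    have h6 : p % 4 = 1 ∨ p % 4 = 3 := by omega
    rcases h6 with h6 | h6
    · rw [ZMod.χ₄_nat_one_mod_four h6, one_mul]
      exact jacobiSym.quadratic_reciprocity_one_mod_four h6 h3
    · rw [ZMod.χ₄_nat_three_mod_four h6, jacobiSym.quadratic_reciprocity_three_mod_four h2 h6]
      ring

/-- Chunk K1 (M). The case of odd N: d % 4 = 1. χ a = jacobiSym a d.natAbs. one, mul: jacobiSym.one_left, mul_left. pm: a prime to N is prime to d.natAbs (its primes divide N). odd: quadratic reciprocity: p odd, d = 1 modulo 4: if d > 0: jacobiSym.quadratic_reciprocity' style: jacobiSym d p = jacobiSym p d.natAbs (jacobiSym.quadratic_reciprocity_one_mod_four);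
if d < 0: d = -d.natAbs, d.natAbs = 3 modulo 4: jacobiSym d p = jacobiSym (-1) p * jacobiSym d.natAbs p (jacobiSym.at_neg_one) and quadratic_reciprocity: the signs cancel (p = 1 modulo 4: quadratic_reciprocity_one_mod_four; p = 3 modulo 4: quadratic_reciprocity_three_mod_four and jacobiSym (-1) p = -1). two: jacobiSym.at_two: jacobiSym 2 d.natAbs = ZMod.χ₈ d.natAbs is 1 iff
d.natAbs % 8 is 1 or 7 (d.natAbs odd); with d % 4 = 1: iff d % 8 = 1 (d > 0: natAbs = d; d < 0: natAbs = -d). per: d.natAbs divides N (squarefree, as in kron_even) hence N^3: a % d.natAbs = b % d.natAbs, jacobiSym.mod_left. -/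
theorem kron_odd {d : ℤ} {N : ℕ} (hd : Squarefree d) (hdN : ∀ p : ℕ, p.Prime → (p : ℤ) ∣ d → p ∣ N) (h2 : ¬ 2 ∣ N) (h4 : d % 4 = 1) :
    ∃ χ : ℕ → ℤ, Kron d N χ := by
  have hN : N ≠ 0 := by
    rintro rfl
    exact h2 (dvd_zero 2)
  have hdd := k1_dvd hd hdN hN
  have hno : d.natAbs % 2 = 1 := by omega
  refine ⟨fun a => jacobiSym (a : ℤ) d.natAbs, ?_⟩
  constructor
  · show jacobiSym ((1 : ℕ) : ℤ) d.natAbs = 1
    rw [Nat.cast_one]
    exact jacobiSym.one_left _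
  · intro a b _ _
    show jacobiSym ((a * b : ℕ) : ℤ) d.natAbs = jacobiSym (a : ℤ) d.natAbs * jacobiSym (b : ℤ) d.natAbs
    rw [Nat.cast_mul]
    exact jacobiSym.mul_left _ _ _
  · intro a ha
    apply jacobiSym.eq_one_or_neg_one
    have h3 := k1_cop hdN ha
    have h5 : Nat.gcd (a : ℤ).natAbs d.natAbs = 1 := by
      rw [Int.natAbs_natCast, Nat.gcd_comm]
      exact h3
    exact h5
  · intro p hp hpN hp2
    exact k1_rec h4 (hp.odd_of_ne_two hp2)
  · intro _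
    show jacobiSym ((2 : ℕ) : ℤ) d.natAbs = 1 ↔ d % 8 = 1
    have h3 : ((2 : ℕ) : ℤ) = 2 := rfl
    rw [h3, jacobiSym.at_two (Nat.odd_iff.2 hno), ZMod.χ₈_nat_eq_if_mod_eight]
    rw [if_neg (by omega)]
    by_cases h5 : d.natAbs % 8 = 1 ∨ d.natAbs % 8 = 7
    · rw [if_pos h5]
      constructor
      · intro _
        omega
      · intro _
        rfl
    · rw [if_neg h5]
      constructor
      · intro h6
        norm_num at h6
      · intro h6
        exfalso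
        omega
  · intro a b _ _ hab
    show jacobiSym (a : ℤ) d.natAbs = jacobiSym (b : ℤ) d.natAbs
    apply jacobiSym.mod_left'
    have h3 : a ≡ b [MOD d.natAbs] := hab.of_dvd (dvd_trans hdd (dvd_pow_self N (by norm_num)))
    have h5 : a % d.natAbs = b % d.natAbs := h3
    exact_mod_cast h5

end H13D
end

-- from Lib.H13D.K2
section

/-! # H13D, part K: the Kronecker symbol and the Frobenius elements -/

namespace H13D

/-- Chunk K2 (S). hχ.mul, hχ.one: induction. -/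
theorem kron_pow {d : ℤ} {N : ℕ} {χ : ℕ → ℤ} (hχ : Kron d N χ) {a : ℕ} (ha : a.Coprime N) (n : ℕ) : χ (a ^ n) = χ a ^ n := by
  induction n with
  | zero => rw [pow_zero, pow_zero, hχ.one]
  | succ n ih => rw [pow_succ, pow_succ, hχ.mul _ _ (ha.pow_left n) ha, ih]

/-- Chunk K2 (S/M). p does not divide N (prime), so p is coprime to N; χ (p^n) = χ(p)^n. p odd: frob_odd and hχ.odd (p does not divide d: hdN). p = 2: d % 4 = 1 (h4), hχ.two, hχ.pm: χ 2 = 1 iff d % 8 = 1, otherwise -1; frob_two: n even: η = 1 = χ(2)^n; n odd: χ(2)^n = χ(2). (2 : Ω) ≠ 0 by CharZero. -/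
theorem frob_kron {Ω : Type} [Field Ω] [CharZero Ω] (V : ValuationSubring Ω) {p : ℕ} (hp : p.Prime) (hpV : V.valuation (p : Ω) < 1)
    {d : ℤ} {N : ℕ} {χ : ℕ → ℤ} (hχ : Kron d N χ) (hdN : ∀ p : ℕ, p.Prime → (p : ℤ) ∣ d → p ∣ N) (h4 : ¬ 2 ∣ N → d % 4 = 1)
    (hpN : ¬ p ∣ N) {w : Ω} (hw : w ^ 2 = (d : Ω)) (s : Ω →+* Ω) {n : ℕ} (hs : ∀ x ∈ V, V.valuation (s x - x ^ p ^ n) < 1) {η : ℤ}
    (hη : η = 1 ∨ η = -1) (hsw : s w = η * w) : η = χ (p ^ n) := by
  have hc : p.Coprime N := (Nat.Prime.coprime_iff_not_dvd hp).2 hpN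
  rw [kron_pow hχ hc]
  by_cases h2 : p = 2
  · subst h2
    have h5 := h4 hpN
    have h6 : V.valuation (2 : Ω) < 1 := by
      have h7 := hpV
      rwa [Nat.cast_ofNat] at h7
    obtain ⟨h7, h8⟩ := frob_two V two_ne_zero h6 h5 hw s hs hη hsw
    have h9 := hχ.two hpN
    have h10 := hχ.pm 2 hc
    rcases Nat.even_or_odd n with hn | hn
    · rw [h7 hn]
      rcases h10 with h10 | h10 <;> rw [h10]
      · rw [one_pow]
      · rw [hn.neg_one_pow]
    · rcases h10 with h10 | h10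
      · rw [h10, one_pow]
        exact (h8 hn).2 (h9.1 h10)
      · rw [h10, hn.neg_one_pow]
        rcases hη with hη | hη
        · exfalso
          have h11 := h9.2 ((h8 hn).1 hη)
          rw [h10] at h11
          norm_num at h11
        · exact hη
  · have h5 : ¬ (p : ℤ) ∣ d := fun h => hpN (hdN p hp h)
    rw [hχ.odd p hp hpN h2]
    exact frob_odd V hp h2 hpV h5 hw s hs hη hsw

end H13D
end

-- from Lib.H13D.E1
section

/-! # H13D, part E: products over the squares modulo D -/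

namespace H13D

theorem e1_odd {D : ℕ} (h4 : D % 4 = 3) : Odd D := Nat.odd_iff.2 (by omega)

theorem e1_neg {D : ℕ} (h4 : D % 4 = 3) (x : ℤ) : jacobiSym (-x) D = -jacobiSym x D := by
  rw [jacobiSym.neg _ (e1_odd h4), ZMod.χ₄_nat_three_mod_four h4]
  ring

theorem e1_pm {D : ℕ} (hD : D.Prime) {x : ℤ} (hx : ¬ (D : ℤ) ∣ x) : jacobiSym x D = 1 ∨ jacobiSym x D = -1 := by
  apply jacobiSym.eq_one_or_neg_one
  have h1 : ¬ D ∣ x.natAbs := fun h => hx (Int.natCast_dvd.2 h)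
  have h2 := (Nat.Prime.coprime_iff_not_dvd hD).2 h1
  have h3 : Nat.gcd x.natAbs D = 1 := Nat.coprime_comm.1 h2
  exact h3

theorem e1_ndvd {D : ℕ} (hD : D.Prime) {x : ℤ} (hx : jacobiSym x D = 1 ∨ jacobiSym x D = -1) : ¬ (D : ℤ) ∣ x := by
  intro h
  have h1 : jacobiSym x D = 0 := by
    rw [jacobiSym.eq_zero_iff]
    refine ⟨hD.ne_zero, ?_⟩
    intro h2
    have h3 : D ∣ Int.gcd x D := Int.natCast_dvd_natCast.1 (Int.dvd_coe_gcd h dvd_rfl)
    rw [h2] at h3
    exact hD.one_lt.ne' (Nat.dvd_one.1 h3)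
  rcases hx with hx | hx <;> rw [h1] at hx <;> norm_num at hx

theorem e1_red {D : ℕ} (hD : D.Prime) (x : ℤ) : ((x % D).toNat : ℤ) = x % D :=
  Int.toNat_of_nonneg (Int.emod_nonneg _ (by exact_mod_cast hD.ne_zero))

theorem e1_red_lt {D : ℕ} (hD : D.Prime) (x : ℤ) : (x % D).toNat < D := by
  have h1 := e1_red hD x
  have h2 : x % D < D := Int.emod_lt_of_pos _ (by exact_mod_cast hD.pos)
  omega

theorem e1_red_dvd {D : ℕ} (hD : D.Prime) (x : ℤ) : (D : ℤ) ∣ x - ((x % D).toNat : ℤ) := by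
  rw [e1_red hD]
  exact Int.dvd_self_sub_emod

theorem e1_red_J {D : ℕ} (hD : D.Prime) (x : ℤ) : jacobiSym ((x % D).toNat : ℤ) D = jacobiSym x D := by
  rw [e1_red hD]
  exact (jacobiSym.mod_left x D).symm

/-- Chunk E1 (S). -/
theorem mem_QR {D : ℕ} (hD : D.Prime) (i : ℕ) : i ∈ QR D ↔ i < D ∧ jacobiSym (i : ℤ) D = 1 := by
  simp [QR]

theorem e1_range {D : ℕ} (hD : D.Prime) {x : ℕ} (hx : x < D) (h : jacobiSym (x : ℤ) D = 1 ∨ jacobiSym (x : ℤ) D = -1) : 0 < x := by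
  rcases Nat.eq_zero_or_pos x with h1 | h1
  · exfalso
    exact e1_ndvd hD h (by rw [h1]; simp)
  · exact h1

theorem e1_sub {D : ℕ} (hD : D.Prime) (h4 : D % 4 = 3) {x : ℕ} (hx : x ≤ D) :
    jacobiSym ((D - x : ℕ) : ℤ) D = -jacobiSym (x : ℤ) D := by
  rw [← e1_neg h4]
  apply jacobiSym.mod_left'
  rw [Nat.cast_sub hx]
  have h1 : (D : ℤ) - x = -x + D := by ring
  rw [h1, Int.add_emod_right]

/-- Chunk E1 (M). The map i → D - i is a bijection from QR D onto the set of the i < D with jacobiSym i D = -1 (jacobiSym (-1) D = -1 as D % 4 = 3: jacobiSym.at_neg_one, ZMod.χ₄_nat_three_mod_four; jacobiSym.mul_left, mod_left); together with 0 these two sets are the whole of range D (a prime D does not divide i ≠ 0: value 1 or -1):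
D = 2 card + 1, and D % 4 = 3. -/
theorem card_QR {D : ℕ} (hD : D.Prime) (h4 : D % 4 = 3) : Odd (QR D).card := by
  set N : Finset ℕ := (Finset.range D).filter fun i => jacobiSym (i : ℤ) D = -1 with hN
  have mN : ∀ i, i ∈ N ↔ i < D ∧ jacobiSym (i : ℤ) D = -1 := by
    intro i
    simp [hN]
  have hc : (QR D).card = N.card := by
    refine Finset.card_nbij (fun i => D - i) ?_ ?_ ?_
    · intro i hi
      obtain ⟨h1, h2⟩ := (mem_QR hD i).1 hi
      have h3 := e1_range hD h1 (Or.inl h2)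
      show D - i ∈ N
      refine (mN _).2 ⟨by omega, ?_⟩
      rw [e1_sub hD h4 h1.le, h2]
    · intro i hi j hj hij
      obtain ⟨h1, h2⟩ := (mem_QR hD i).1 hi
      obtain ⟨h3, h4⟩ := (mem_QR hD j).1 hj
      have h5 : D - i = D - j := hij
      omega
    · intro j hj
      obtain ⟨h1, h2⟩ := (mN j).1 hj
      have h3 := e1_range hD h1 (Or.inr h2)
      refine ⟨D - j, (mem_QR hD _).2 ⟨by omega, ?_⟩, ?_⟩
      · rw [e1_sub hD h4 h1.le, h2, neg_neg]
      · show D - (D - j) = j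
        omega
  have hdis : Disjoint (QR D) N := by
    rw [Finset.disjoint_left]
    intro i hi hj
    have h1 := ((mem_QR hD i).1 hi).2
    have h2 := ((mN i).1 hj).2
    rw [h1] at h2
    norm_num at h2
  have hun : Finset.range D = insert 0 (QR D ∪ N) := by
    ext i
    rw [Finset.mem_insert, Finset.mem_union, Finset.mem_range, mem_QR hD, mN]
    constructor
    · intro hi
      rcases Nat.eq_zero_or_pos i with h0 | h0
      · exact Or.inl h0
      · have h1 : ¬ (D : ℤ) ∣ (i : ℤ) := by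
          intro h2
          have h3 := Nat.le_of_dvd h0 (Int.natCast_dvd_natCast.1 h2)
          omega
        rcases e1_pm hD h1 with h2 | h2
        · exact Or.inr (Or.inl ⟨hi, h2⟩)
        · exact Or.inr (Or.inr ⟨hi, h2⟩)
    · rintro (rfl | ⟨h1, _⟩ | ⟨h1, _⟩)
      · exact hD.pos
      · exact h1
      · exact h1
  have h0 : (0 : ℕ) ∉ QR D ∪ N := by
    rw [Finset.mem_union]
    rintro (h | h)
    · have h1 := (mem_QR hD 0).1 h
      exact absurd (e1_range hD h1.1 (Or.inl h1.2)) (lt_irrefl 0)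
    · have h1 := (mN 0).1 h
      exact absurd (e1_range hD h1.1 (Or.inr h1.2)) (lt_irrefl 0)
  have hcard := congrArg Finset.card hun
  rw [Finset.card_range, Finset.card_insert_of_notMem h0, Finset.card_union_of_disjoint hdis, ← hc] at hcard
  rw [Nat.odd_iff]
  omega

/-- Chunk E1 (M). If jacobiSym b D = 1 then i → (b i) mod D is a bijection of QR D (inverse: multiplication by an inverse c of b modulo D); g (b i) = g ((b i) mod D) (hper). Finset.prod_nbij or Finset.prod_bij. -/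
theorem prod_sq {R : Type} [CommRing R] {D : ℕ} (hD : D.Prime) (g : ℤ → R)
    (hper : ∀ i j : ℤ, (D : ℤ) ∣ i - j → g i = g j) {b : ℤ} (hb : jacobiSym b D = 1) :
    ∏ i ∈ QR D, g (b * (i : ℤ)) = ∏ i ∈ QR D, g (i : ℤ) := by
  have hbD : ¬ (D : ℤ) ∣ b := e1_ndvd hD (Or.inl hb)
  have hi : ∀ i ∈ QR D, ((b * (i : ℤ)) % D).toNat ∈ QR D := by
    intro i hi
    refine (mem_QR hD _).2 ⟨e1_red_lt hD _, ?_⟩
    rw [e1_red_J hD, jacobiSym.mul_left, hb, ((mem_QR hD i).1 hi).2, one_mul]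
  have hinj : Set.InjOn (fun i : ℕ => ((b * (i : ℤ)) % D).toNat) (QR D : Set ℕ) := by
    intro i hi j hj hij
    have h1 := e1_red_dvd hD (b * (i : ℤ))
    have h2 := e1_red_dvd hD (b * (j : ℤ))
    have h3 : ((b * (i : ℤ)) % D).toNat = ((b * (j : ℤ)) % D).toNat := hij
    rw [h3] at h1
    have h4 : (D : ℤ) ∣ b * ((i : ℤ) - j) := by
      have h5 := dvd_sub h1 h2
      have h6 : b * (i : ℤ) - (((b * (j : ℤ)) % D).toNat : ℤ) - (b * (j : ℤ) - (((b * (j : ℤ)) % D).toNat : ℤ)) =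
        b * ((i : ℤ) - j) := by ring
      rwa [h6] at h5
    have h7 : (D : ℤ) ∣ (i : ℤ) - j := ((Nat.prime_iff_prime_int.1 hD).dvd_or_dvd h4).resolve_left hbD
    have h8 := ((mem_QR hD i).1 hi).1
    have h9 := ((mem_QR hD j).1 hj).1
    obtain ⟨k, hk⟩ := h7
    have hk0 : k = 0 := by
      have h10 : |(i : ℤ) - j| < D := by
        rw [abs_lt]
        constructor <;> omega
      rw [hk, abs_mul, Nat.abs_cast] at h10
      by_contra hne
      have h11 : 1 ≤ |k| := Int.one_le_abs hne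
      have h12 : (0 : ℤ) < D := by exact_mod_cast hD.pos
      nlinarith
    rw [hk0, mul_zero] at hk
    omega
  have hsurj := Finset.surjOn_of_injOn_of_card_le (fun i : ℕ => ((b * (i : ℤ)) % D).toNat) hi hinj le_rfl
  refine Finset.prod_nbij (fun i => ((b * (i : ℤ)) % D).toNat) hi hinj hsurj ?_
  intro i _
  exact hper _ _ (e1_red_dvd hD _)

end H13D
end

-- from Lib.H13D.E2
section

/-! # H13D, part E: products over the squares modulo D -/

namespace H13D

theorem e2_pm {D : ℕ} (hD : D.Prime) {a : ℤ} (ha : ¬ (D : ℤ) ∣ a) : jacobiSym a D = 1 ∨ jacobiSym a D = -1 := by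
  apply jacobiSym.eq_one_or_neg_one
  have h1 : ¬ D ∣ a.natAbs := fun h => ha (Int.natCast_dvd.2 h)
  have h3 : Nat.gcd a.natAbs D = 1 := Nat.coprime_comm.1 ((Nat.Prime.coprime_iff_not_dvd hD).2 h1)
  exact h3

theorem e2_neg {D : ℕ} (h4 : D % 4 = 3) {a : ℤ} (ha : jacobiSym a D = -1) : jacobiSym (-a) D = 1 := by
  rw [jacobiSym.neg _ (Nat.odd_iff.2 (by omega)), ZMod.χ₄_nat_three_mod_four h4, ha]
  norm_num

/-- Chunk E2 (S/M). If jacobiSym a D = 1: prod_sq. Otherwise it is -1 (D prime, not dividing a) and jacobiSym (-a) D = 1 (jacobiSym (-1) D = -1 as D % 4 = 3): g (a i) = - g ((-a) i), so the product is (-1)^(card QR) times the product of g ((-a) i) (Finset.prod_neg or prod_mul_distrib), card_QR odd, prod_sq for -a. -/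
theorem prod_odd {R : Type} [CommRing R] {D : ℕ} (hD : D.Prime) (h4 : D % 4 = 3) (g : ℤ → R)
    (hper : ∀ i j : ℤ, (D : ℤ) ∣ i - j → g i = g j) (hodd : ∀ i : ℤ, g (-i) = -g i) {a : ℤ} (ha : ¬ (D : ℤ) ∣ a) :
    ∏ i ∈ QR D, g (a * (i : ℤ)) = ((jacobiSym a D : ℤ) : R) * ∏ i ∈ QR D, g (i : ℤ) := by
  rcases e2_pm hD ha with h | h
  · rw [h, prod_sq hD g hper h, Int.cast_one, one_mul]
  · have h1 := prod_sq hD g hper (e2_neg h4 h)
    have h2 : ∀ i ∈ QR D, g (a * (i : ℤ)) = -1 * g (-a * (i : ℤ)) := by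
      intro i _
      rw [neg_one_mul, ← hodd]
      congr 1
      ring
    rw [Finset.prod_congr rfl h2, Finset.prod_mul_distrib, Finset.prod_const, (card_QR hD h4).neg_one_pow, h1, h]
    push_cast
    ring

/-- Chunk E2 (S). The same with g (a i) = g ((-a) i). -/
theorem prod_even {R : Type} [CommRing R] {D : ℕ} (hD : D.Prime) (h4 : D % 4 = 3) (g : ℤ → R)
    (hper : ∀ i j : ℤ, (D : ℤ) ∣ i - j → g i = g j) (heven : ∀ i : ℤ, g (-i) = g i) {a : ℤ} (ha : ¬ (D : ℤ) ∣ a) :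
    ∏ i ∈ QR D, g (a * (i : ℤ)) = ∏ i ∈ QR D, g (i : ℤ) := by
  rcases e2_pm hD ha with h | h
  · exact prod_sq hD g hper h
  · rw [← prod_sq hD g hper (e2_neg h4 h)]
    refine Finset.prod_congr rfl fun i _ => ?_
    rw [← heven]
    congr 1
    ring

end H13D
end

-- from Lib.H28I.D
section

/-! # H28I: explicit 2- and 3-isogenies: definitions -/

open NumberField IsDedekindDomain WeierstrassCurve

namespace H28I

open H55P (IQ embF eF LF Per IsHecke Pt ac Inert Dec Nm)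
open H35P (WAB Ker tt GoodW IntW)
open H55K (xc yc)

/-- The parameters of an isogeny (Velu) of degree 2 or 3 from y^2 = x^3 + A x + B to y^2 = x^3 + A' x + B'; e is the x-coordinate of the nonzero
points of the kernel. -/
structure VI {k : Type} [Field k] (A B A' B' e t u : k) : Prop where
  disc : 4 * A ^ 3 + 27 * B ^ 2 ≠ 0
  disc' : 4 * A' ^ 3 + 27 * B' ^ 2 ≠ 0
  hA : A' = A - 5 * t
  hB : B' = B - 7 * (u + e * t)
  cs : (u = 0 ∧ e ^ 3 + A * e + B = 0 ∧ t = 3 * e ^ 2 + A) ∨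
    (t = 2 * (3 * e ^ 2 + A) ∧ u = 4 * (e ^ 3 + A * e + B) ∧ 3 * e ^ 4 + 6 * A * e ^ 2 + 12 * B * e - A ^ 2 = 0)

/-- The x-coordinate of the image. -/
def vx {k : Type} [Field k] (e t u x : k) : k := x + t / (x - e) + u / (x - e) ^ 2

/-- Its derivative: the y-coordinate of the image is this factor times y. -/
def vd {k : Type} [Field k] (e t u x : k) : k := 1 - t / (x - e) ^ 2 - 2 * u / (x - e) ^ 3

/-- Φ is the isogeny. -/
structure IsV {k : Type} [Field k] (A B A' B' e t u : k) (Φ : (WAB A B).toAffine.Point → (WAB A' B').toAffine.Point) : Prop where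
  zero : Φ 0 = 0
  ker : ∀ P, P ≠ 0 → xc P = e → Φ P = 0
  ne : ∀ P, P ≠ 0 → xc P ≠ e → Φ P ≠ 0
  x : ∀ P, P ≠ 0 → xc P ≠ e → xc (Φ P) = vx e t u (xc P)
  y : ∀ P, P ≠ 0 → xc P ≠ e → yc (Φ P) = vd e t u (xc P) * yc P

/-- The isogeny on the points over Ω, for curves over K, followed by the scaling (A'', B'') with A' = lam^4 A'', B' = lam^6 B''. -/
structure IsW {K : Type} [Field K] {Ω : Type} [Field Ω] [DecidableEq Ω] [Algebra K Ω] (A B A'' B'' e t u lam : K)
    (Φ : Pt (WAB A B) Ω →+ Pt (WAB A'' B'') Ω) : Prop where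
  ker : ∀ P, P ≠ 0 → xc P = algebraMap K Ω e → Φ P = 0
  ne : ∀ P, P ≠ 0 → xc P ≠ algebraMap K Ω e → Φ P ≠ 0
  x : ∀ P, P ≠ 0 → xc P ≠ algebraMap K Ω e →
    algebraMap K Ω lam ^ 2 * xc (Φ P) = vx (algebraMap K Ω e) (algebraMap K Ω t) (algebraMap K Ω u) (xc P)
  surj : Function.Surjective Φ
  six : ∀ P, Φ P = 0 → (6 : ℕ) • P = 0
  gal : ∀ (s : Ω ≃ₐ[K] Ω) (P : Pt (WAB A B) Ω), Φ (ac (WAB A B) s P) = ac (WAB A'' B'') s (Φ P)

/-- The short equation of W over a field of characteristic 0. -/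
def sA (W : WeierstrassCurve ℤ) (k : Type) [Field k] : k := -(W.c₄ : k) / 48

def sB (W : WeierstrassCurve ℤ) (k : Type) [Field k] : k := -(W.c₆ : k) / 864

/-- The equations W, W' over the integers are related by an explicit isogeny over the rational numbers; kap is a quotient of
discriminants, whose prime divisors are 2 or 3 and divide the discriminant of W. If the degree of the isogeny (2 or 3) is prime to the discriminant then it is 2 and the equation is
ordinary at 2 with t integral at 2. -/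
structure IP (W W' : WeierstrassCurve ℤ) (kap : ℤ) (e t u lam : ℚ) : Prop where
  lam0 : lam ≠ 0
  vi : VI (sA W ℚ) (sB W ℚ) (lam ^ 4 * sA W' ℚ) (lam ^ 6 * sB W' ℚ) e t u
  quo : lam ^ 12 * (W'.Δ : ℚ) = (kap : ℚ) * (W.Δ : ℚ)
  kd : ∃ n : ℕ, kap ∣ W.Δ ^ n
  k6 : ∃ n : ℕ, kap ∣ 6 ^ n
  two : u = 0 → (2 : ℤ) ∣ W.Δ ∨ (¬ (2 : ℤ) ∣ W.b₂ ∧ ∃ a b : ℤ, ¬ (2 : ℤ) ∣ b ∧ t = a / b)
  three : u ≠ 0 → (3 : ℤ) ∣ W.Δ

/-- An isogeny between the points over Ω, with a map back; the degree divides a power of 6. -/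
def Iso6 {K : Type} [Field K] (W₁ W₂ : WeierstrassCurve K) (Ω : Type) [Field Ω] [DecidableEq Ω] [Algebra K Ω] : Prop :=
  ∃ (Φ : Pt W₁ Ω →+ Pt W₂ Ω) (Ψ : Pt W₂ Ω →+ Pt W₁ Ω), (∀ P, Ψ (Φ P) = (6 : ℕ) • P) ∧ (∀ P, Φ (Ψ P) = (6 : ℕ) • P) ∧
    (∀ (s : Ω ≃ₐ[K] Ω) P, Φ (ac W₁ s P) = ac W₂ s (Φ P)) ∧ ∀ (s : Ω ≃ₐ[K] Ω) P, Ψ (ac W₂ s P) = ac W₁ s (Ψ P)

end H28I
end

-- from Lib.H28I.LA0
section

/-! # H28I, part LA: sublattices and overlattices: definitions -/

open NumberField IsDedekindDomain WeierstrassCurve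

namespace H28I

open H55P (IQ embF eF LF Per IsHecke Pt ac Inert Dec Nm)
open H35P (WAB Ker tt GoodW IntW)
open H55K (xc yc)

/-- S represents the nonzero classes of the lattice of L' modulo the lattice of L. -/
structure RepL (L L' : PeriodPair) (S : Finset ℂ) : Prop where
  le : ∀ z ∈ L.lattice, z ∈ L'.lattice
  mem : ∀ r ∈ S, r ∈ L'.lattice
  out : ∀ r ∈ S, r ∉ L.lattice
  inj : ∀ r ∈ S, ∀ r' ∈ S, r - r' ∈ L.lattice → r = r'
  ex : ∀ z ∈ L'.lattice, z ∈ L.lattice ∨ ∃ r ∈ S, z - r ∈ L.lattice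

/-- The conclusion of part LA: the lattice of the isogenous curve. -/
structure IsoL (L L' : PeriodPair) (A' B' e t u : ℂ) : Prop where
  g2 : L'.g₂ = -4 * A'
  g3 : L'.g₃ = -4 * B'
  le : ∀ z ∈ L.lattice, z ∈ L'.lattice
  six : ∀ z ∈ L'.lattice, 6 * z ∈ L.lattice
  pole : ∀ z ∈ L'.lattice, z ∈ L.lattice ∨ L.weierstrassP z = e
  out : ∀ z, z ∉ L'.lattice → L.weierstrassP z ≠ e
  x : ∀ z, z ∉ L'.lattice → L'.weierstrassP z = vx e t u (L.weierstrassP z)
  y : ∀ z, z ∉ L'.lattice → L'.derivWeierstrassP z = vd e t u (L.weierstrassP z) * L.derivWeierstrassP z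

end H28I
end

-- from Lib.H28I.LA1
section

/-! # H28I, part LA: overlattices of prime index -/

open NumberField IsDedekindDomain WeierstrassCurve

namespace H28I

open H55P (IQ embF eF LF Per IsHecke Pt ac Inert Dec Nm)
open H35P (WAB Ker tt GoodW IntW)
open H55K (xc yc)

/-- Bezout. -/
theorem la1_bez {N : ℕ} (hN : N.Prime) {a : ℤ} (ha : ¬ (N : ℤ) ∣ a) : ∃ c d : ℤ, c * a = 1 + N * d := by
  have h : IsCoprime (N : ℤ) a := by
    rw [Int.isCoprime_iff_gcd_eq_one]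
    have := (Nat.Prime.coprime_iff_not_dvd hN (n := a.natAbs)).2 (by
      intro h; exact ha (Int.natCast_dvd.2 h))
    simpa [Int.gcd] using this
  obtain ⟨x, y, h⟩ := h
  exact ⟨y, -x, by linear_combination h⟩

/-- Case 1. -/
theorem la1_one (L : PeriodPair) {N : ℕ} (hN : N.Prime) {w : ℂ} {a b : ℤ} (hab : (a : ℂ) * L.ω₁ + b * L.ω₂ = N * w)
    (ha : ¬ (N : ℤ) ∣ a) :
    ∃ L' : PeriodPair, ∀ z, z ∈ L'.lattice ↔ ∃ k : ℤ, z - k * w ∈ L.lattice := by
  obtain ⟨c, d, hcd⟩ := la1_bez hN ha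
  have hN0 : (N : ℂ) ≠ 0 := Nat.cast_ne_zero.2 hN.ne_zero
  have hNr : (N : ℝ) ≠ 0 := Nat.cast_ne_zero.2 hN.ne_zero
  have hcd' : (c : ℂ) * a = 1 + N * d := by exact_mod_cast hcd
  have e1 : (N : ℂ) * (c * w - d * L.ω₁) = L.ω₁ + c * b * L.ω₂ := by
    linear_combination (-(c : ℂ)) * hab + hcd' * L.ω₁
  have e2 : w = a * (c * w - d * L.ω₁) - d * b * L.ω₂ := by
    linear_combination (-w) * hcd' + (d : ℂ) * hab
  have hind := L.indep
  rw [LinearIndependent.pair_iff] at hind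
  refine ⟨⟨c * w - d * L.ω₁, L.ω₂, ?_⟩, ?_⟩
  · rw [LinearIndependent.pair_iff]
    intro s t hst
    have h1 : (s : ℂ) * (c * w - d * L.ω₁) + (t : ℂ) * L.ω₂ = 0 := by
      simpa [Complex.real_smul] using hst
    have h2 := hind s (s * c * b + N * t) (by
      simp only [Complex.real_smul]
      push_cast
      linear_combination (N : ℂ) * h1 - (s : ℂ) * e1)
    obtain ⟨h3, h4⟩ := h2
    refine ⟨h3, ?_⟩
    rw [h3] at h4
    simp only [zero_mul, zero_add] at h4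
    rcases mul_eq_zero.1 h4 with h | h
    · exact absurd h hNr
    · exact h
  · intro z
    rw [PeriodPair.mem_lattice]
    constructor
    · rintro ⟨m, n, h⟩
      simp only at h
      refine ⟨m * c, ?_⟩
      rw [PeriodPair.mem_lattice]
      refine ⟨-m * d, n, ?_⟩
      rw [← h]
      push_cast
      ring
    · rintro ⟨k, h⟩
      rw [PeriodPair.mem_lattice] at h
      obtain ⟨p, q, h⟩ := h
      refine ⟨k * a + p * N, -k * d * b - p * c * b + q, ?_⟩
      simp only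
      push_cast
      linear_combination h - (k : ℂ) * e2 + (p : ℂ) * e1

/-- Case 2. -/
theorem la1_two (L : PeriodPair) {N : ℕ} (hN : N.Prime) {w : ℂ} {a b : ℤ}
    (hab : (N : ℂ) * a * L.ω₁ + b * L.ω₂ = N * w) (hb : ¬ (N : ℤ) ∣ b) :
    ∃ L' : PeriodPair, ∀ z, z ∈ L'.lattice ↔ ∃ k : ℤ, z - k * w ∈ L.lattice := by
  obtain ⟨c, d, hcd⟩ := la1_bez hN hb
  have hN0 : (N : ℂ) ≠ 0 := Nat.cast_ne_zero.2 hN.ne_zero
  have hNr : (N : ℝ) ≠ 0 := Nat.cast_ne_zero.2 hN.ne_zero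
  have hcd' : (c : ℂ) * b = 1 + N * d := by exact_mod_cast hcd
  have e1 : (N : ℂ) * (c * (w - a * L.ω₁) - d * L.ω₂) = L.ω₂ := by
    linear_combination (-(c : ℂ)) * hab + hcd' * L.ω₂
  have e2 : w - a * L.ω₁ = b * (c * (w - a * L.ω₁) - d * L.ω₂) := by
    have h : (N : ℂ) * (w - a * L.ω₁) = N * (b * (c * (w - a * L.ω₁) - d * L.ω₂)) := by
      linear_combination (-1 : ℂ) * hab - (b : ℂ) * e1
    exact mul_left_cancel₀ hN0 h
  have hind := L.indep
  rw [LinearIndependent.pair_iff] at hind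
  refine ⟨⟨L.ω₁, c * (w - a * L.ω₁) - d * L.ω₂, ?_⟩, ?_⟩
  · rw [LinearIndependent.pair_iff]
    intro s t hst
    have h1 : (s : ℂ) * L.ω₁ + (t : ℂ) * (c * (w - a * L.ω₁) - d * L.ω₂) = 0 := by
      simpa [Complex.real_smul] using hst
    have h2 := hind (N * s) t (by
      simp only [Complex.real_smul]
      push_cast
      linear_combination (N : ℂ) * h1 - (t : ℂ) * e1)
    obtain ⟨h3, h4⟩ := h2
    refine ⟨?_, h4⟩
    rcases mul_eq_zero.1 h3 with h | h
    · exact absurd h hNr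
    · exact h
  · intro z
    rw [PeriodPair.mem_lattice]
    constructor
    · rintro ⟨m, n, h⟩
      simp only at h
      refine ⟨n * c, ?_⟩
      rw [PeriodPair.mem_lattice]
      refine ⟨m - n * c * a, -n * d, ?_⟩
      rw [← h]
      push_cast
      ring
    · rintro ⟨k, h⟩
      rw [PeriodPair.mem_lattice] at h
      obtain ⟨p, q, h⟩ := h
      refine ⟨k * a + p, k * b + q * N, ?_⟩
      simp only
      push_cast
      linear_combination h - (k : ℂ) * e2 + (q : ℂ) * e1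

/-- Chunk LA1 (M). N w = a ω₁ + b ω₂ (PeriodPair.mem_lattice).
Case 1: N does not divide a. Choose integers c, d with c a = 1 + N d. Put w' = c w - d ω₁, so N w' = ω₁ + c b ω₂, that is w' = (1/N) ω₁ + (c b/N) ω₂. L' = the pair (w', ω₂), linearly independent over the real numbers (LinearIndependent.pair_iff, L.indep). If z - k w is in the lattice of L: ω₁ = N w' - c b ω₂ is in L', and
w = a w' - d b ω₂ (check: a w' = a c w - a d ω₁ = w + d (N w - a ω₁) = w + d b ω₂), so z is in L'. Conversely m w' + n ω₂ = (m c) w + (- m d ω₁ + n ω₂).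
Case 2: a = N a'. Then N does not divide b (else w = a' ω₁ + b' ω₂ is in the lattice of L). w'' = w - a' ω₁, N w'' = b ω₂; c b = 1 + N d, w' = c w'' - d ω₂ = ω₂/N; L' = the pair (ω₁, w'): w'' = b w'. -/
theorem over_pair (L : PeriodPair) {N : ℕ} (hN : N.Prime) {w : ℂ} (hw : w ∉ L.lattice) (hNw : (N : ℂ) * w ∈ L.lattice) :
    ∃ L' : PeriodPair, ∀ z, z ∈ L'.lattice ↔ ∃ k : ℤ, z - k * w ∈ L.lattice := by
  rw [PeriodPair.mem_lattice] at hNw
  obtain ⟨a, b, hab⟩ := hNw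
  by_cases ha : (N : ℤ) ∣ a
  · obtain ⟨a', rfl⟩ := ha
    refine la1_two L hN (a := a') (b := b) (by rw [← hab]; push_cast; ring) ?_
    rintro ⟨b', rfl⟩
    apply hw
    rw [PeriodPair.mem_lattice]
    refine ⟨a', b', ?_⟩
    have hN0 : (N : ℂ) ≠ 0 := Nat.cast_ne_zero.2 hN.ne_zero
    apply mul_left_cancel₀ hN0
    rw [← hab]
    push_cast
    ring
  · exact la1_one L hN hab ha

/-- Chunk LA1 (S/M). S = {w}: mod 2 w every k w is in the lattice or congruent to w. -/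
theorem rep_two {L L' : PeriodPair} {w : ℂ} (hw : w ∉ L.lattice) (h2 : 2 * w ∈ L.lattice)
    (h : ∀ z, z ∈ L'.lattice ↔ ∃ k : ℤ, z - k * w ∈ L.lattice) : RepL L L' {w} := by
  have hz : ∀ (m : ℤ), (m : ℂ) * (2 * w) ∈ L.lattice := fun m => by
    have := L.lattice.smul_mem m h2
    simpa [zsmul_eq_mul] using this
  refine ⟨fun z hz => (h z).2 ⟨0, by simpa using hz⟩, ?_, ?_, ?_, ?_⟩
  · intro r hr
    rw [Finset.mem_singleton] at hr
    subst hr
    exact (h r).2 ⟨1, by simp⟩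
  · intro r hr
    rw [Finset.mem_singleton] at hr
    rwa [hr]
  · intro r hr r' hr' _
    rw [Finset.mem_singleton] at hr hr'
    rw [hr, hr']
  · intro z hzz
    obtain ⟨k, hk⟩ := (h z).1 hzz
    rcases Int.even_or_odd' k with ⟨m, rfl | rfl⟩
    · left
      have := add_mem hk (hz m)
      rwa [show z - ((2 * m : ℤ) : ℂ) * w + m * (2 * w) = z by push_cast; ring] at this
    · right
      refine ⟨w, Finset.mem_singleton_self _, ?_⟩
      have := add_mem hk (hz m)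
      rwa [show z - ((2 * m + 1 : ℤ) : ℂ) * w + m * (2 * w) = z - w by push_cast; ring] at this

open Classical in
/-- Chunk LA1 (S/M). S = {w, -w}; 2 w is not in the lattice (else w = 3 w - 2 w is). -/
theorem rep_three {L L' : PeriodPair} {w : ℂ} (hw : w ∉ L.lattice) (h3 : 3 * w ∈ L.lattice)
    (h : ∀ z, z ∈ L'.lattice ↔ ∃ k : ℤ, z - k * w ∈ L.lattice) : RepL L L' {w, -w} ∧ w ≠ -w := by
  have hz : ∀ (m : ℤ), (m : ℂ) * (3 * w) ∈ L.lattice := fun m => by
    have := L.lattice.smul_mem m h3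
    simpa [zsmul_eq_mul] using this
  have h2 : 2 * w ∉ L.lattice := by
    intro h2
    apply hw
    have := sub_mem h3 h2
    rwa [show 3 * w - 2 * w = w by ring] at this
  refine ⟨⟨fun z hz => (h z).2 ⟨0, by simpa using hz⟩, ?_, ?_, ?_, ?_⟩, ?_⟩
  · intro r hr
    rw [Finset.mem_insert, Finset.mem_singleton] at hr
    rcases hr with rfl | rfl
    · exact (h r).2 ⟨1, by simp⟩
    · exact (h _).2 ⟨-1, by simp⟩
  · intro r hr
    rw [Finset.mem_insert, Finset.mem_singleton] at hr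
    rcases hr with rfl | rfl
    · exact hw
    · rwa [neg_mem_iff]
  · intro r hr r' hr' hd
    rw [Finset.mem_insert, Finset.mem_singleton] at hr hr'
    rcases hr with rfl | rfl
    · rcases hr' with rfl | rfl
      · rfl
      · exact absurd (by rwa [show r - -r = 2 * r by ring] at hd) h2
    · rcases hr' with rfl | rfl
      · exact absurd (by rw [← neg_mem_iff]; rwa [show -r' - r' = -(2 * r') by ring] at hd) h2
      · rfl
  · intro z hzz
    obtain ⟨k, hk⟩ := (h z).1 hzz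
    have hm : k % 3 = 0 ∨ k % 3 = 1 ∨ k % 3 = 2 := by omega
    rcases hm with hm | hm | hm
    · left
      obtain ⟨m, rfl⟩ : ∃ m, k = 3 * m := ⟨k / 3, by omega⟩
      have := add_mem hk (hz m)
      rwa [show z - ((3 * m : ℤ) : ℂ) * w + m * (3 * w) = z by push_cast; ring] at this
    · right
      obtain ⟨m, rfl⟩ : ∃ m, k = 3 * m + 1 := ⟨k / 3, by omega⟩
      refine ⟨w, by simp, ?_⟩
      have := add_mem hk (hz m)
      rwa [show z - ((3 * m + 1 : ℤ) : ℂ) * w + m * (3 * w) = z - w by push_cast; ring] at this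
    · right
      obtain ⟨m, rfl⟩ : ∃ m, k = 3 * m - 1 := ⟨(k + 1) / 3, by omega⟩
      refine ⟨-w, by simp, ?_⟩
      have := add_mem hk (hz m)
      rwa [show z - ((3 * m - 1 : ℤ) : ℂ) * w + m * (3 * w) = z - -w by push_cast; ring] at this
  · intro he
    apply hw
    have : w = 0 := by
      have h4 : 2 * w = 0 := by linear_combination he
      simpa using h4
    rw [this]
    exact zero_mem _

end H28I
end

-- from Lib.H28I.V1
section

/-! # H28I, part V: the identity of the isogeny -/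

open NumberField IsDedekindDomain WeierstrassCurve

namespace H28I

open H55P (IQ embF eF LF Per IsHecke Pt ac Inert Dec Nm)
open H35P (WAB Ker tt GoodW IntW)
open H55K (xc yc)

/-- Chunk V1 (M). z = x - e. In the first case of h.cs: u = 0, B = - e^3 - A e, t = 3 e^2 + A: field_simp, ring. In the second case, with t, u, A', B' substituted, and numerators R = (z + e) z^2 + t z + u (vx = R/z^2), D = z^3 - t z - 2 u (vd = D/z^3):
R^3 + A' R z^4 + B' z^6 - D^2 ((z + e)^3 + A (z + e) + B) = (6 z^5 - 12 z^3 e^2 - 4 z^3 A - 12 z^2 e^3 - 12 z^2 e A - 12 z^2 B) (3 e^4 + 6 A e^2 + 12 B e - A^2)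
(checked by computer), so linear_combination with this cofactor, then divide by z^6. -/
theorem vi_id {k : Type} [Field k] {A B A' B' e t u x : k} (h : VI A B A' B' e t u) (hx : x ≠ e) :
    vx e t u x ^ 3 + A' * vx e t u x + B' = vd e t u x ^ 2 * (x ^ 3 + A * x + B) := by
  obtain ⟨z, rfl⟩ : ∃ z, x = z + e := ⟨x - e, by ring⟩
  have hz : z ≠ 0 := by
    rintro rfl
    exact hx (zero_add e)
  obtain ⟨-, -, rfl, rfl, hcs⟩ := h
  unfold vx vd
  rw [add_sub_cancel_right]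
  rcases hcs with ⟨rfl, h1, rfl⟩ | ⟨rfl, rfl, h1⟩
  · obtain rfl : B = -e ^ 3 - A * e := by linear_combination h1
    field_simp
    ring
  · have e1 : (z + e + 2 * (3 * e ^ 2 + A) / z + 4 * (e ^ 3 + A * e + B) / z ^ 2) =
        ((z + e) * z ^ 2 + 2 * (3 * e ^ 2 + A) * z + 4 * (e ^ 3 + A * e + B)) / z ^ 2 := by
      field_simp
    have e2 : 1 - 2 * (3 * e ^ 2 + A) / z ^ 2 - 2 * (4 * (e ^ 3 + A * e + B)) / z ^ 3 =
        (z ^ 3 - 2 * (3 * e ^ 2 + A) * z - 2 * (4 * (e ^ 3 + A * e + B))) / z ^ 3 := by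
      field_simp
    rw [e1, e2]
    have hz6 : z ^ 6 ≠ 0 := pow_ne_zero 6 hz
    have e3 : (((z + e) * z ^ 2 + 2 * (3 * e ^ 2 + A) * z + 4 * (e ^ 3 + A * e + B)) / z ^ 2) ^ 3 +
        (A - 5 * (2 * (3 * e ^ 2 + A))) *
          (((z + e) * z ^ 2 + 2 * (3 * e ^ 2 + A) * z + 4 * (e ^ 3 + A * e + B)) / z ^ 2) +
        (B - 7 * (4 * (e ^ 3 + A * e + B) + e * (2 * (3 * e ^ 2 + A)))) =
        (((z + e) * z ^ 2 + 2 * (3 * e ^ 2 + A) * z + 4 * (e ^ 3 + A * e + B)) ^ 3 +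
        (A - 5 * (2 * (3 * e ^ 2 + A))) *
          ((z + e) * z ^ 2 + 2 * (3 * e ^ 2 + A) * z + 4 * (e ^ 3 + A * e + B)) * z ^ 4 +
        (B - 7 * (4 * (e ^ 3 + A * e + B) + e * (2 * (3 * e ^ 2 + A)))) * z ^ 6) / z ^ 6 := by
      field_simp
    have e4 : ((z ^ 3 - 2 * (3 * e ^ 2 + A) * z - 2 * (4 * (e ^ 3 + A * e + B))) / z ^ 3) ^ 2 *
        ((z + e) ^ 3 + A * (z + e) + B) =
        ((z ^ 3 - 2 * (3 * e ^ 2 + A) * z - 2 * (4 * (e ^ 3 + A * e + B))) ^ 2 *
        ((z + e) ^ 3 + A * (z + e) + B)) / z ^ 6 := by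
      field_simp
    rw [e3, e4]
    congr 1
    linear_combination (6 * z ^ 5 - 12 * z ^ 3 * e ^ 2 - 4 * z ^ 3 * A - 12 * z ^ 2 * e ^ 3 - 12 * z ^ 2 * e * A -
      12 * z ^ 2 * B) * h1

end H28I
end

-- from Lib.H28I.V2
section

/-! # H28I, part V: the map -/

open NumberField IsDedekindDomain WeierstrassCurve

namespace H28I

open H55P (IQ embF eF LF Per IsHecke Pt ac Inert Dec Nm)
open H35P (WAB Ker tt GoodW IntW)
open H55K (xc yc)

theorem v2_delta {k : Type} [Field k] (A B : k) : (WAB A B).Δ = -16 * (4 * A ^ 3 + 27 * B ^ 2) := by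
  unfold WeierstrassCurve.Δ WeierstrassCurve.b₂ WeierstrassCurve.b₄ WeierstrassCurve.b₆ WeierstrassCurve.b₈ WAB
  ring

theorem v2_eq {k : Type} [Field k] {A B x y : k} : (WAB A B).toAffine.Equation x y ↔ y ^ 2 = x ^ 3 + A * x + B := by
  rw [Affine.equation_iff]
  simp only [WAB]
  constructor
  · intro h
    linear_combination h
  · intro h
    linear_combination h

theorem v2_ns {k : Type} [Field k] [CharZero k] {A B x y : k} (hd : 4 * A ^ 3 + 27 * B ^ 2 ≠ 0)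
    (h : y ^ 2 = x ^ 3 + A * x + B) : (WAB A B).toAffine.Nonsingular x y := by
  have hD : (WAB A B).Δ ≠ 0 := by
    rw [v2_delta]
    exact mul_ne_zero (by norm_num) hd
  exact (Affine.equation_iff_nonsingular_of_Δ_ne_zero hD).1 (v2_eq.2 h)

theorem v2_pt {k : Type} [Field k] {A B : k} {P : (WAB A B).toAffine.Point} (hP : P ≠ 0) :
    yc P ^ 2 = xc P ^ 3 + A * xc P + B := by
  rcases P with _ | ⟨x, y, h⟩
  · exact absurd rfl hP
  exact v2_eq.1 h.1

theorem v2_ext {k : Type} [Field k] {W : WeierstrassCurve k} {P Q : W.toAffine.Point} (hP : P ≠ 0) (hQ : Q ≠ 0)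
    (hx : xc P = xc Q) (hy : yc P = yc Q) : P = Q := by
  rcases P with _ | ⟨x, y, h⟩
  · exact absurd rfl hP
  rcases Q with _ | ⟨x', y', h'⟩
  · exact absurd rfl hQ
  have h1 : x = x' := hx
  have h2 : y = y' := hy
  subst h1 h2
  rfl

/-- Chunk V2 (M). By cases on the point: 0 goes to 0, some x y to 0 if x = e and otherwise to some (vx e t u x) (vd e t u x * y): the equation is vi_id (and y^2 = x^3 + A x + B: Affine.equation_iff), nonsingular because the discriminant -16 (4 A'^3 + 27 B'^2) is not 0 (Affine.equation_iff_nonsingular_of_Δ_ne_zero; H35P.B1_delta). Use if x = e then .. else .. (classical). -/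
theorem exists_v {k : Type} [Field k] [CharZero k] {A B A' B' e t u : k} (h : VI A B A' B' e t u) :
    ∃ Φ : (WAB A B).toAffine.Point → (WAB A' B').toAffine.Point, IsV A B A' B' e t u Φ := by
  classical
  have hns : ∀ P : (WAB A B).toAffine.Point, P ≠ 0 ∧ xc P ≠ e →
      (WAB A' B').toAffine.Nonsingular (vx e t u (xc P)) (vd e t u (xc P) * yc P) := by
    intro P hP
    refine v2_ns h.disc' ?_
    rw [vi_id h hP.2, mul_pow, v2_pt hP.1]
  refine ⟨fun P => if hP : P ≠ 0 ∧ xc P ≠ e then .some _ _ (hns P hP) else 0, ?_, ?_, ?_, ?_, ?_⟩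
  · exact dif_neg fun h => h.1 rfl
  · intro P _ hx
    exact dif_neg fun h => h.2 hx
  · intro P h0 hx
    show (if hP : P ≠ 0 ∧ xc P ≠ e then Affine.Point.some _ _ (hns P hP) else 0) ≠ 0
    rw [dif_pos ⟨h0, hx⟩]
    exact Affine.Point.some_ne_zero _
  · intro P h0 hx
    show xc (if hP : P ≠ 0 ∧ xc P ≠ e then Affine.Point.some _ _ (hns P hP) else 0) = _
    rw [dif_pos ⟨h0, hx⟩]
    rfl
  · intro P h0 hx
    show yc (if hP : P ≠ 0 ∧ xc P ≠ e then Affine.Point.some _ _ (hns P hP) else 0) = _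
    rw [dif_pos ⟨h0, hx⟩]
    rfl

/-- Chunk V2 (S). By cases; two nonzero points with the same coordinates are equal (H55K.CC.c27_ext or H55K.CC.c14_ext). -/
theorem v_uniq {k : Type} [Field k] {A B A' B' e t u : k} {Φ Φ' : (WAB A B).toAffine.Point → (WAB A' B').toAffine.Point}
    (h : IsV A B A' B' e t u Φ) (h' : IsV A B A' B' e t u Φ') (P : (WAB A B).toAffine.Point) : Φ P = Φ' P := by
  by_cases h0 : P = 0
  · rw [h0, h.zero, h'.zero]
  · by_cases hx : xc P = e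
    · rw [h.ker P h0 hx, h'.ker P h0 hx]
    · refine v2_ext (h.ne P h0 hx) (h'.ne P h0 hx) ?_ ?_
      · rw [h.x P h0 hx, h'.x P h0 hx]
      · rw [h.y P h0 hx, h'.y P h0 hx]

end H28I
end

-- from Lib.H55W.E3
section

/-! # H55W: the Eisenstein integers in a field F -/

open NumberField IsDedekindDomain

namespace H55W

open H55P (IQ embF eF Nm)
open H55K (cj)

/-- w is a primitive cube root of unity in the integers of F and every integer is a + b w. -/
structure EI {F : Type} [Field F] [NumberField F] (w : 𝓞 F) : Prop where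
  sq : w ^ 2 + w + 1 = 0
  rep : ∀ x : 𝓞 F, ∃ a b : ℤ, x = (a : 𝓞 F) + (b : 𝓞 F) * w

variable {F : Type} [Field F] [NumberField F] [IQ F] {w : 𝓞 F}

/-- Chunk E3 (S). w^3 = 1, w ≠ 1. -/
theorem ei_root (h : EI w) : IsPrimitiveRoot w 3 := by
  have h3 : w ^ 3 = 1 := by linear_combination (w - 1) * h.sq
  have h1 : w ≠ 1 := by
    intro h1
    have h2 := h.sq
    rw [h1] at h2
    have h4 : (3 : 𝓞 F) = 0 := by linear_combination h2
    have h5 : ((3 : ℕ) : 𝓞 F) = 0 := by exact_mod_cast h4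
    exact absurd (Nat.cast_eq_zero.1 h5) (by norm_num)
  have h5 := orderOf_eq_prime (hp := ⟨Nat.prime_three⟩) h3 h1
  have h6 := IsPrimitiveRoot.orderOf w
  rwa [h5] at h6

/-- Chunk E3 (S). cj w is a root of X^2 + X + 1 = (X - w)(X + 1 + w); if cj w = w then eF w is real with w^2 + w + 1 = 0: impossible. Nm (a + b w) = a^2 - ab + b^2 (mul_cj, cj_int). -/
theorem ei_nm (h : EI w) (a b : ℤ) : cj w = -1 - w ∧ ((Nm ((a : 𝓞 F) + (b : 𝓞 F) * w) : ℕ) : ℤ) = a ^ 2 - a * b + b ^ 2 := by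
  have hc : cj w = -1 - w := by
    have h1 : (cj w) ^ 2 + cj w + 1 = 0 := by
      have h2 := congrArg cj h.sq
      rwa [map_add, map_add, map_pow, map_one, map_zero] at h2
    have h3 : (cj w - w) * (cj w + w + 1) = 0 := by linear_combination h1 - h.sq
    rcases mul_eq_zero.1 h3 with h4 | h4
    · exfalso
      have h5 : cj w = w := sub_eq_zero.1 h4
      have h6 := H55K.e_cj w
      rw [h5] at h6
      have h7 : (eF F w).im = 0 := Complex.conj_eq_iff_im.1 h6.symm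
      have h8 := congrArg (eF F) h.sq
      rw [map_add, map_add, map_pow, map_one, map_zero] at h8
      have h9 := congrArg Complex.re h8
      simp [pow_two, h7] at h9
      nlinarith [sq_nonneg ((eF F w).re + 1 / 2)]
    · linear_combination h4
  refine ⟨hc, ?_⟩
  have h1 := H55K.mul_cj ((a : 𝓞 F) + (b : 𝓞 F) * w)
  rw [map_add, map_mul, H55K.cj_int, H55K.cj_int, hc] at h1
  have h2 : ((((Nm ((a : 𝓞 F) + (b : 𝓞 F) * w) : ℕ) : ℤ)) : 𝓞 F) = ((a ^ 2 - a * b + b ^ 2 : ℤ) : 𝓞 F) := by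
    push_cast
    rw [← h1]
    linear_combination -(b : 𝓞 F) ^ 2 * h.sq
  exact_mod_cast h2

theorem e3_nmu {u : 𝓞 F} (hu : IsUnit u) : Nm u = 1 := by
  unfold Nm
  rw [Ideal.span_singleton_eq_top.2 hu, Ideal.absNorm_top]

theorem e3_six (h : EI w) {u : 𝓞 F} (hu : IsUnit u) : ∃ a b : ℤ, u = (a : 𝓞 F) + (b : 𝓞 F) * w ∧
    ((a = 1 ∧ b = 0) ∨ (a = -1 ∧ b = 0) ∨ (a = 0 ∧ b = 1) ∨ (a = 0 ∧ b = -1) ∨ (a = 1 ∧ b = 1) ∨ (a = -1 ∧ b = -1)) := by
  obtain ⟨a, b, hab⟩ := h.rep u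
  refine ⟨a, b, hab, ?_⟩
  have h1 := (ei_nm h a b).2
  rw [← hab, e3_nmu hu] at h1
  push_cast at h1
  have ha1 : a ≤ 1 := by nlinarith [sq_nonneg (2 * b - a)]
  have ha2 : -1 ≤ a := by nlinarith [sq_nonneg (2 * b - a)]
  have hb1 : b ≤ 1 := by nlinarith [sq_nonneg (2 * a - b)]
  have hb2 : -1 ≤ b := by nlinarith [sq_nonneg (2 * a - b)]
  clear hab
  interval_cases a <;> interval_cases b <;> norm_num at h1 <;> norm_num

theorem e3_wu (h : EI w) : IsUnit w := IsUnit.of_mul_eq_one (-1 - w) (by linear_combination -h.sq)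

/-- Chunk E3 (S/M). A unit has Nm u = 1: a^2 - ab + b^2 = 1: (2a - b)^2 + 3b^2 = 4: six solutions, u = η w^i. -/
theorem ei_unit (h : EI w) {u : 𝓞 F} (hu : IsUnit u) : ∃ (η : 𝓞 F) (i : ℕ), (η = 1 ∨ η = -1) ∧ u = η * w ^ i := by
  obtain ⟨a, b, hab, h1⟩ := e3_six h hu
  rcases h1 with ⟨rfl, rfl⟩ | ⟨rfl, rfl⟩ | ⟨rfl, rfl⟩ | ⟨rfl, rfl⟩ | ⟨rfl, rfl⟩ | ⟨rfl, rfl⟩
  · exact ⟨1, 0, Or.inl rfl, by rw [hab]; push_cast; ring⟩
  · exact ⟨-1, 0, Or.inr rfl, by rw [hab]; push_cast; ring⟩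
  · exact ⟨1, 1, Or.inl rfl, by rw [hab]; push_cast; ring⟩
  · exact ⟨-1, 1, Or.inr rfl, by rw [hab]; push_cast; ring⟩
  · exact ⟨-1, 2, Or.inr rfl, by rw [hab]; push_cast; linear_combination h.sq⟩
  · exact ⟨1, 2, Or.inl rfl, by rw [hab]; push_cast; linear_combination -h.sq⟩

/-- Chunk E3 (S/M). c = a + b w modulo 3; 1 - w divides c iff 3 divides a + b (a + b w = a + b - b (1 - w), and 1 - w divides 3). If 3 does not divide a + b there are six classes modulo 3: (a, b) = (1,0), (2,0), (0,1), (0,2), (2,2), (1,1) (mod 3), i.e. 1, -1, w, -w, -1-w = w^2, 1 + w = -w^2. -/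
theorem ei_mod3 (h : EI w) {c : 𝓞 F} (hc : ¬ (1 - w) ∣ c) : ∃ u : 𝓞 F, IsUnit u ∧ 3 ∣ c - u := by
  obtain ⟨a, b, hab⟩ := h.rep c
  have h3 : ¬ (3 : ℤ) ∣ a + b := by
    rintro ⟨m, hm⟩
    apply hc
    have h4 : ((a + b : ℤ) : 𝓞 F) = ((3 * m : ℤ) : 𝓞 F) := by rw [hm]
    push_cast at h4
    refine ⟨(2 + w) * m - b, ?_⟩
    rw [hab]
    linear_combination h4 + (m : 𝓞 F) * h.sq
  have hwu := e3_wu h
  have key : ∀ r s : ℤ, a % 3 = r → b % 3 = s → ∀ u : 𝓞 F, (3 : 𝓞 F) ∣ (r : 𝓞 F) + (s : 𝓞 F) * w - u → 3 ∣ c - u := by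
    intro r s hr hs u hu
    have h5 : a = 3 * (a / 3) + r := by rw [← hr]; exact (Int.mul_ediv_add_emod a 3).symm
    have h6 : b = 3 * (b / 3) + s := by rw [← hs]; exact (Int.mul_ediv_add_emod b 3).symm
    have h7 : (a : 𝓞 F) = 3 * ((a / 3 : ℤ) : 𝓞 F) + (r : 𝓞 F) := by
      conv_lhs => rw [h5]
      push_cast
      ring
    have h8 : (b : 𝓞 F) = 3 * ((b / 3 : ℤ) : 𝓞 F) + (s : 𝓞 F) := by
      conv_lhs => rw [h6]
      push_cast
      ring
    have h9 : c - u = 3 * (((a / 3 : ℤ) : 𝓞 F) + ((b / 3 : ℤ) : 𝓞 F) * w) + ((r : 𝓞 F) + (s : 𝓞 F) * w - u) := by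
      rw [hab, h7, h8]
      ring
    rw [h9]
    exact dvd_add (dvd_mul_right _ _) hu
  have hcases : (a % 3 = 1 ∧ b % 3 = 0) ∨ (a % 3 = 2 ∧ b % 3 = 0) ∨ (a % 3 = 0 ∧ b % 3 = 1) ∨
      (a % 3 = 0 ∧ b % 3 = 2) ∨ (a % 3 = 1 ∧ b % 3 = 1) ∨ (a % 3 = 2 ∧ b % 3 = 2) := by omega
  rcases hcases with ⟨h1, h2⟩ | ⟨h1, h2⟩ | ⟨h1, h2⟩ | ⟨h1, h2⟩ | ⟨h1, h2⟩ | ⟨h1, h2⟩
  · exact ⟨1, isUnit_one, key _ _ h1 h2 _ ⟨0, by push_cast; ring⟩⟩
  · exact ⟨-1, isUnit_one.neg, key _ _ h1 h2 _ ⟨1, by push_cast; ring⟩⟩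
  · exact ⟨w, hwu, key _ _ h1 h2 _ ⟨0, by push_cast; ring⟩⟩
  · exact ⟨-w, hwu.neg, key _ _ h1 h2 _ ⟨w, by push_cast; ring⟩⟩
  · exact ⟨-w ^ 2, (hwu.pow 2).neg, key _ _ h1 h2 _ ⟨0, by push_cast; linear_combination h.sq⟩⟩
  · exact ⟨w ^ 2, hwu.pow 2, key _ _ h1 h2 _ ⟨1 + w, by push_cast; linear_combination -h.sq⟩⟩

/-- Chunk E3 (S). The units η w^i - 1: 3 divides it only if it is 0 (9 divides the norm; the norms of -2, w - 1, -w - 1, w^2 - 1, -w^2 - 1 are 4, 3, 1, 3, 1). -/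
theorem ei_uniq (h : EI w) {u : 𝓞 F} (hu : IsUnit u) (h3 : 3 ∣ u - 1) : u = 1 := by
  obtain ⟨a, b, hab, h1⟩ := e3_six h hu
  obtain ⟨z, hz⟩ := h3
  have h2 : ((Nm (u - 1) : ℕ) : ℤ) = 9 * ((Nm z : ℕ) : ℤ) := by
    rw [hz, H55K.Nm_mul]
    have h4 : Nm (3 : 𝓞 F) = 9 := by
      have h5 := H55K.Nm_nat (F := F) 3
      push_cast at h5
      rw [h5]
    rw [h4]
    push_cast
    ring
  have h5 : u - 1 = ((a - 1 : ℤ) : 𝓞 F) + (b : 𝓞 F) * w := by
    rw [hab]
    push_cast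
    ring
  rw [h5, (ei_nm h (a - 1) b).2] at h2
  rcases h1 with ⟨rfl, rfl⟩ | ⟨rfl, rfl⟩ | ⟨rfl, rfl⟩ | ⟨rfl, rfl⟩ | ⟨rfl, rfl⟩ | ⟨rfl, rfl⟩
  · rw [hab]
    push_cast
    ring
  all_goals
    exfalso
    omega

/-- Chunk E3 (S). x prime to 3: 1 - w does not divide x (it divides 3 and is not a unit: norm 3), ei_mod3 for x: 3 | x - u, so 3 | u⁻¹ x - 1. -/
theorem ei_ex (h : EI w) {x : 𝓞 F} (hx : IsCoprime x 3) : ∃ u : 𝓞 F, IsUnit u ∧ 3 ∣ u * x - 1 := by
  have h1 : ¬ (1 - w) ∣ x := by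
    intro h2
    have h3 : (1 - w) ∣ (3 : 𝓞 F) := ⟨2 + w, by linear_combination h.sq⟩
    have h4 : IsUnit (1 - w) := hx.isUnit_of_dvd' h2 h3
    have h5 := (ei_nm h 1 (-1)).2
    have h6 : ((1 : ℤ) : 𝓞 F) + ((-1 : ℤ) : 𝓞 F) * w = 1 - w := by
      push_cast
      ring
    rw [h6, e3_nmu h4] at h5
    norm_num at h5
  obtain ⟨u, hu, h2⟩ := ei_mod3 h h1
  obtain ⟨v, hv⟩ := hu.exists_left_inv
  refine ⟨v, IsUnit.of_mul_eq_one u hv, ?_⟩
  have h3 : v * x - 1 = v * (x - u) := by linear_combination hv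
  rw [h3]
  exact h2.mul_left v

end H55W
end

-- from Lib.H99B.D1
section

/-!
Chunk D1 (M). Primes of degree greater than one are negligible.
PROOF. If N v is not prime then N v ≥ p² for the prime number p below v (N v = p^f, f ≥ 2), so N v^(-s) ≤ p^(-2s) ≤ p^(-2) for s ≥ 1, and at most [K:ℚ] primes lie above p. So the sum over any finite
set of such primes is at most [K:ℚ] sum_p p^(-2) = C (Real.summable_one_div_nat_pow); hence PS ≤ C (tsum_le_of_sum_le). Compare H55R.D5 (split_cmp), where the same estimate is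
made; it may contain a lemma which can be cited.
stab_triv: absNorm Q prime gives fs F L (Q.under) = 1 (absNorm Q = absNorm(v)^f: H55R.D5_norm), with es = 1 the stabiliser is trivial (card_stab), so σ ↦ smulP σ Q is injective.
-/

open NumberField IsDedekindDomain

namespace H99B

open H55B H55R

section d1

variable {K : Type} [Field K] [NumberField K]

theorem d1_pow (v : Pl K) : ∃ q f : ℕ, q.Prime ∧ 0 < f ∧ Ideal.absNorm v.asIdeal = q ^ f ∧
    (q : 𝓞 K) ∈ v.asIdeal := by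
  have hm : v.asIdeal.IsMaximal := v.isMaximal
  have h0 : Ideal.absNorm v.asIdeal ≠ 0 := fun h => v.ne_bot (Ideal.absNorm_eq_zero_iff.1 h)
  let _ : Field (𝓞 K ⧸ v.asIdeal) := Ideal.Quotient.field v.asIdeal
  have hfin : Finite (𝓞 K ⧸ v.asIdeal) := by
    apply Nat.finite_of_card_ne_zero
    exact h0
  let _ : Fintype (𝓞 K ⧸ v.asIdeal) := Fintype.ofFinite _
  obtain ⟨q, hq⟩ := CharP.exists (𝓞 K ⧸ v.asIdeal)
  obtain ⟨n, hp, hc⟩ := FiniteField.card (𝓞 K ⧸ v.asIdeal) q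
  refine ⟨q, n, hp, n.pos, ?_, ?_⟩
  · show Nat.card (𝓞 K ⧸ v.asIdeal) = _
    rw [Nat.card_eq_fintype_card, hc]
  · rw [← Ideal.Quotient.eq_zero_iff_mem, map_natCast]
    exact CharP.cast_eq_zero _ q

/-- The primes above a rational prime. -/
theorem d1_count (q : ℕ) (hq : q.Prime) (U : Finset (Pl K))
    (hU : ∀ v ∈ U, (q : 𝓞 K) ∈ v.asIdeal) (hU2 : ∀ v ∈ U, q ≤ Ideal.absNorm v.asIdeal) :
    U.card ≤ Module.finrank ℚ K := by
  classical
  have h1 : ∏ v ∈ U, v.asIdeal ∣ Ideal.span {(q : 𝓞 K)} := by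
    apply Finset.prod_dvd_of_coprime
    · intro v _ w _ hvw
      refine Ideal.isCoprime_of_isMaximal ?_
      intro h
      exact hvw (HeightOneSpectrum.ext h)
    · intro v hv
      rw [Ideal.dvd_span_singleton]
      exact hU v hv
  have h2 := map_dvd Ideal.absNorm h1
  rw [map_prod] at h2
  have h3 : Ideal.absNorm (Ideal.span {(q : 𝓞 K)}) = q ^ Module.finrank ℚ K := by
    rw [Ideal.absNorm_span_singleton]
    have h4 := Algebra.norm_algebraMap (S := 𝓞 K) (q : ℤ)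
    rw [map_natCast, RingOfIntegers.rank] at h4
    rw [h4, Int.natAbs_pow, Int.natAbs_natCast]
  rw [h3] at h2
  have h5 : ∏ v ∈ U, q ≤ ∏ v ∈ U, Ideal.absNorm v.asIdeal := Finset.prod_le_prod' hU2
  rw [Finset.prod_const] at h5
  have h6 := Nat.le_of_dvd (pow_pos hq.pos _) h2
  exact (Nat.pow_le_pow_iff_right hq.one_lt).1 (h5.trans h6)

theorem d1_norm (q : ℕ) :
    Ideal.absNorm (Ideal.span {(q : 𝓞 K)}) = q ^ Module.finrank ℚ K := by
  rw [Ideal.absNorm_span_singleton]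
  have h4 := Algebra.norm_algebraMap (S := 𝓞 K) (q : ℤ)
  rw [map_natCast, RingOfIntegers.rank] at h4
  rw [h4, Int.natAbs_pow, Int.natAbs_natCast]

theorem d1_one_le (v : Pl K) : (1 : ℝ) ≤ (Ideal.absNorm v.asIdeal : ℝ) := by
  have h0 : Ideal.absNorm v.asIdeal ≠ 0 := fun h => v.ne_bot (Ideal.absNorm_eq_zero_iff.1 h)
  exact_mod_cast Nat.one_le_iff_ne_zero.2 h0

theorem d1_summable (s : ℝ) (hs : 1 < s) :
    Summable fun v : Pl K => (Ideal.absNorm v.asIdeal : ℝ) ^ (-s) :=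
  (H55N.ideal_summable (K := K) s hs).comp_injective (i := fun v : Pl K => v.asIdeal)
    fun _ _ h => HeightOneSpectrum.ext h

theorem d1_sum (S : Set (Pl K)) (s : ℝ) (hs : 1 < s) :
    Summable (S.indicator fun v : Pl K => (Ideal.absNorm v.asIdeal : ℝ) ^ (-s)) :=
  (d1_summable s hs).indicator S

theorem d1_mono {S T : Set (Pl K)} (h : S ⊆ T) (s : ℝ) (hs : 1 < s) :
    PS S s ≤ PS T s := by
  unfold PS
  refine (d1_sum S s hs).tsum_le_tsum (fun v => ?_) (d1_sum T s hs)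
  exact Set.indicator_le_indicator_of_subset h (fun v => by positivity) v

theorem d1_nonneg (S : Set (Pl K)) (s : ℝ) : 0 ≤ PS S s := by
  unfold PS
  exact tsum_nonneg fun v => Set.indicator_nonneg (fun v _ => by positivity) v

theorem d1_union (S T : Set (Pl K)) (s : ℝ) (hs : 1 < s) :
    PS (S ∪ T) s ≤ PS S s + PS T s := by
  have h1 : PS (S ∪ T) s + PS (S ∩ T) s = PS S s + PS T s := by
    unfold PS
    rw [← (d1_sum (S ∪ T) s hs).tsum_add (d1_sum (S ∩ T) s hs),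
      ← (d1_sum S s hs).tsum_add (d1_sum T s hs)]
    exact tsum_congr fun v => Set.indicator_union_add_inter_apply _ S T v
  have h2 := d1_nonneg (S ∩ T) s
  linarith

theorem d1_fin {S : Set (Pl K)} (hS : S.Finite) (s : ℝ) (hs : 1 < s) :
    PS S s ≤ hS.toFinset.card := by
  unfold PS
  rw [tsum_eq_sum (s := hS.toFinset) fun v hv => by
    rw [Set.indicator_of_notMem]
    exact fun h => hv (hS.mem_toFinset.2 h)]
  have h1 : ∀ v ∈ hS.toFinset, S.indicator (fun v : Pl K => (Ideal.absNorm v.asIdeal : ℝ) ^ (-s)) v ≤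
      1 := by
    intro v hv
    rw [Set.indicator_of_mem (hS.mem_toFinset.1 hv)]
    apply Real.rpow_le_one_of_one_le_of_nonpos (d1_one_le v)
    linarith
  calc _ ≤ ∑ v ∈ hS.toFinset, (1 : ℝ) := Finset.sum_le_sum h1
    _ = _ := by simp

/-- The primes whose norm is not a prime number. -/
theorem d1_np : ∃ C : ℝ, ∀ s : ℝ, 1 < s →
    PS {v : Pl K | ¬ (Ideal.absNorm v.asIdeal).Prime} s ≤ C := by
  classical
  have hz : Summable fun q : ℕ => (Module.finrank ℚ K : ℝ) * ((q : ℝ) ^ 2)⁻¹ :=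
    (Real.summable_nat_pow_inv.2 one_lt_two).mul_left _
  refine ⟨∑' q : ℕ, (Module.finrank ℚ K : ℝ) * ((q : ℝ) ^ 2)⁻¹, fun s hs => ?_⟩
  unfold PS
  refine (d1_sum _ s hs).tsum_le_of_sum_le fun U => ?_
  choose q f hq hf hn hm using fun v : Pl K => d1_pow v
  have h1 : ∑ v ∈ U, ({v : Pl K | ¬ (Ideal.absNorm v.asIdeal).Prime}.indicator
      (fun v => (Ideal.absNorm v.asIdeal : ℝ) ^ (-s))) v =
      ∑ r ∈ U.image q, ∑ v ∈ U with q v = r, ({v : Pl K | ¬ (Ideal.absNorm v.asIdeal).Prime}.indicator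
      (fun v => (Ideal.absNorm v.asIdeal : ℝ) ^ (-s))) v := by
    rw [Finset.sum_fiberwise_of_maps_to]
    intro v hv
    exact Finset.mem_image_of_mem q hv
  rw [h1]
  have h2 : ∀ v : Pl K, ({v : Pl K | ¬ (Ideal.absNorm v.asIdeal).Prime}.indicator
      (fun v => (Ideal.absNorm v.asIdeal : ℝ) ^ (-s))) v ≤ ((q v : ℝ) ^ 2)⁻¹ := by
    intro v
    by_cases hv : (Ideal.absNorm v.asIdeal).Prime
    · rw [Set.indicator_of_notMem (show v ∉ {v : Pl K | ¬ (Ideal.absNorm v.asIdeal).Prime} from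
        fun h => h hv)]
      positivity
    · rw [Set.indicator_of_mem (show v ∈ {v : Pl K | ¬ (Ideal.absNorm v.asIdeal).Prime} from hv)]
      have h3 : 2 ≤ f v := by
        by_contra h4
        have h5 : f v = 1 := by
          have := hf v
          omega
        apply hv
        rw [hn v, h5, pow_one]
        exact hq v
      have h6 : (Ideal.absNorm v.asIdeal : ℝ) ^ (-s) ≤ (Ideal.absNorm v.asIdeal : ℝ) ^ (-(1 : ℝ)) :=
        Real.rpow_le_rpow_of_exponent_le (d1_one_le v) (by linarith)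
      refine h6.trans ?_
      rw [Real.rpow_neg_one, hn v]
      have hq1 : (1 : ℝ) ≤ (q v : ℝ) := by exact_mod_cast (hq v).one_lt.le
      push_cast
      apply inv_anti₀ (by positivity)
      exact pow_le_pow_right₀ hq1 h3
  have h3 : ∀ r ∈ U.image q, ∑ v ∈ U with q v = r, ({v : Pl K | ¬ (Ideal.absNorm v.asIdeal).Prime}.indicator
      (fun v => (Ideal.absNorm v.asIdeal : ℝ) ^ (-s))) v ≤ (Module.finrank ℚ K : ℝ) * ((r : ℝ) ^ 2)⁻¹ := by
    intro r hr
    obtain ⟨v₀, -, hv₀⟩ := Finset.mem_image.1 hr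
    have hrp : r.Prime := hv₀ ▸ hq v₀
    have h4 : ∀ v ∈ U.filter (fun v => q v = r), ({v : Pl K | ¬ (Ideal.absNorm v.asIdeal).Prime}.indicator
      (fun v => (Ideal.absNorm v.asIdeal : ℝ) ^ (-s))) v ≤ ((r : ℝ) ^ 2)⁻¹ := by
      intro v hv
      have h5 := h2 v
      rw [(Finset.mem_filter.1 hv).2] at h5
      exact h5
    refine (Finset.sum_le_sum h4).trans ?_
    rw [Finset.sum_const, nsmul_eq_mul]
    refine mul_le_mul_of_nonneg_right ?_ (by positivity)
    have h6 : (U.filter (fun v => q v = r)).card ≤ Module.finrank ℚ K := by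
      apply d1_count r hrp
      · intro v hv
        have h7 := hm v
        rw [(Finset.mem_filter.1 hv).2] at h7
        exact h7
      · intro v hv
        have h7 := hn v
        rw [(Finset.mem_filter.1 hv).2] at h7
        rw [h7]
        exact Nat.le_self_pow (hf v).ne' r
    exact_mod_cast h6
  refine (Finset.sum_le_sum h3).trans ?_
  exact hz.sum_le_tsum _ fun r _ => by positivity

end d1

theorem deg_bound (K : Type) [Field K] [NumberField K] :
    ∃ C : ℝ, ∀ s ∈ Set.Ioc (1 : ℝ) 2, PS {v : Pl K | ¬ (Ideal.absNorm v.asIdeal).Prime} s ≤ C := by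
  obtain ⟨C, hC⟩ := d1_np (K := K)
  exact ⟨C, fun s hs => hC s hs.1⟩

theorem stab_triv {K L : Type} [Field K] [NumberField K] [Field L] [NumberField L] [Algebra K L]
    [IsGalois K L] (Q : Pl L) (hQ : (Ideal.absNorm Q.asIdeal).Prime)
    (he : es K L (Q.under (𝓞 K)) = 1) : Function.Injective fun σ : Gal(L/K) => smulP σ Q := by
  have h1 := D5_norm (Q.under (𝓞 K)) Q rfl
  have hf : fs K L (Q.under (𝓞 K)) = 1 := by
    rw [h1] at hQ
    by_contra hne
    exact Nat.Prime.not_prime_pow' hne hQ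
  have h2 := card_stab Q (Q.under (𝓞 K)) rfl
  rw [he, hf, mul_one, Nat.card_eq_one_iff_unique] at h2
  have h3 := h2.1
  intro σ τ hστ
  have h4 : smulP (τ⁻¹ * σ) Q = Q := by
    rw [smulP_mul]
    have h5 : smulP σ Q = smulP τ Q := hστ
    rw [h5, ← smulP_mul, inv_mul_cancel, smulP_one]
  have h6 : (⟨τ⁻¹ * σ, h4⟩ : {σ : Gal(L/K) // smulP σ Q = Q}) = ⟨1, smulP_one Q⟩ := Subsingleton.elim _ _
  have h7 := congrArg Subtype.val h6
  exact (inv_mul_eq_one.1 h7).symm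

end H99B
end

-- from Lib.H55W.HB
section

/-! # H55W: construction of Hecke characters -/

open NumberField IsDedekindDomain

namespace H55W

open H55P (IQ IsHecke)

variable {F : Type} [Field F] [NumberField F] [IQ F]

theorem hb_one {M : Ideal (𝓞 F)} : IsCoprime (Ideal.span {(1 : 𝓞 F)}) M := by
  rw [Ideal.span_singleton_one, ← Ideal.one_eq_top]
  exact isCoprime_one_left

theorem hb_mul {M : Ideal (𝓞 F)} {x y : 𝓞 F} (hx : IsCoprime (Ideal.span {x}) M) (hy : IsCoprime (Ideal.span {y}) M) :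
    IsCoprime (Ideal.span {x * y}) M := by
  rw [← Ideal.span_singleton_mul_span_singleton]
  exact hx.mul_left hy

/-- The Hecke character given by a function on the elements. -/
theorem exists_hecke (M : Ideal (𝓞 F)) (h0 : M ≠ ⊥) (h1 : M ≠ ⊤) (f : 𝓞 F → 𝓞 F)
    (hu : ∀ x, IsCoprime (Ideal.span {x}) M → IsUnit (f x))
    (hm : ∀ x y, IsCoprime (Ideal.span {x}) M → IsCoprime (Ideal.span {y}) M → f (x * y) = f x * f y)
    (hi : ∀ u x : 𝓞 F, IsUnit u → IsCoprime (Ideal.span {x}) M → f (u * x) * u = f x)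
    (hp : ∀ x y, IsCoprime (Ideal.span {x}) M → IsCoprime (Ideal.span {y}) M → x - y ∈ M → f x = f y) :
    ∃ ψ : Ideal (𝓞 F) →*₀ 𝓞 F, IsHecke M ψ ∧ ∀ x, IsCoprime (Ideal.span {x}) M → ψ (Ideal.span {x}) = f x * x := by
  classical
  set g : Ideal (𝓞 F) → 𝓞 F := fun J => Submodule.IsPrincipal.generator J with hg
  have hgs : ∀ J : Ideal (𝓞 F), Ideal.span {g J} = J := fun J => Ideal.span_singleton_generator J
  have hw : ∀ x y : 𝓞 F, Ideal.span {x} = Ideal.span {y} → IsCoprime (Ideal.span {x}) M → f x * x = f y * y := by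
    intro x y hxy hx
    obtain ⟨u, hu'⟩ := Ideal.span_singleton_eq_span_singleton.1 hxy
    have h2 := hi u x u.isUnit hx
    rw [← hu', mul_comm x, ← mul_assoc, h2]
  set G : Ideal (𝓞 F) → 𝓞 F := fun J => if IsCoprime J M then f (g J) * g J else 0 with hG
  have hGx : ∀ x, IsCoprime (Ideal.span {x}) M → G (Ideal.span {x}) = f x * x := by
    intro x hx
    simp only [hG]
    rw [if_pos hx]
    exact hw _ _ (hgs _) (by rw [hgs]; exact hx)
  have hf1 : f 1 = 1 := by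
    have h2 := hm 1 1 hb_one hb_one
    rw [mul_one] at h2
    obtain ⟨w, hw1⟩ := hu 1 hb_one
    rw [← hw1] at h2 ⊢
    have h3 : w = w * w := by exact_mod_cast h2
    have h4 : w = 1 := by
      have := mul_left_cancel (a := w) (b := 1) (c := w) (by rw [mul_one]; exact h3)
      exact this.symm
    rw [h4]
    rfl
  have hbot : ¬ IsCoprime (⊥ : Ideal (𝓞 F)) M := by
    intro h
    apply h1
    rw [Ideal.isCoprime_iff_sup_eq, bot_sup_eq] at h
    exact h
  refine ⟨⟨⟨G, ?_⟩, ?_, ?_⟩, ⟨h0, h1, ?_, ?_, ?_⟩, hGx⟩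
  · show G 0 = 0
    simp only [hG]
    exact if_neg hbot
  · show G 1 = 1
    rw [Ideal.one_eq_top, ← Ideal.span_singleton_one, hGx 1 hb_one, hf1, one_mul]
  · intro I J
    show G (I * J) = G I * G J
    by_cases hI : IsCoprime I M
    · by_cases hJ : IsCoprime J M
      · have e1 : G I = f (g I) * g I := by simp only [hG]; rw [if_pos hI]
        have e2 : G J = f (g J) * g J := by simp only [hG]; rw [if_pos hJ]
        have hI' : IsCoprime (Ideal.span {g I}) M := by rw [hgs]; exact hI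
        have hJ' : IsCoprime (Ideal.span {g J}) M := by rw [hgs]; exact hJ
        have e3 : I * J = Ideal.span {g I * g J} := by
          rw [← Ideal.span_singleton_mul_span_singleton, hgs, hgs]
        rw [e3, hGx _ (hb_mul hI' hJ'), hm _ _ hI' hJ', e1, e2]
        ring
      · have e2 : G J = 0 := by simp only [hG]; rw [if_neg hJ]
        have e3 : G (I * J) = 0 := by
          simp only [hG]
          rw [if_neg fun h => hJ (IsCoprime.mul_left_iff.1 h).2]
        rw [e2, e3, mul_zero]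
    · have e2 : G I = 0 := by simp only [hG]; rw [if_neg hI]
      have e3 : G (I * J) = 0 := by
        simp only [hG]
        rw [if_neg fun h => hI (IsCoprime.mul_left_iff.1 h).1]
      rw [e2, e3, zero_mul]
  · intro J hJ
    show Ideal.span {G J} = J
    have e1 : G J = f (g J) * g J := by simp only [hG]; rw [if_pos hJ]
    rw [e1, ← Ideal.span_singleton_mul_span_singleton, hgs,
      Ideal.span_singleton_eq_top.2 (hu _ (by rw [hgs]; exact hJ)), ← Ideal.one_eq_top, one_mul]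
  · intro J hJ
    show G J = 0
    simp only [hG]
    rw [if_neg hJ]
  · intro x y hx hy hxy
    show G _ * y = G _ * x
    rw [hGx x hx, hGx y hy, hp x y hx hy hxy]
    ring

/-- A multiplicative function which is 1 on the elements congruent to 1 modulo M is periodic modulo M. -/
theorem per_of_one {R : Type} [CommRing R] {M : Ideal R} {κ : R → R}
    (hm : ∀ x y, IsCoprime (Ideal.span {x}) M → IsCoprime (Ideal.span {y}) M → κ (x * y) = κ x * κ y)
    (h1 : ∀ x, x - 1 ∈ M → κ x = 1) {x y : R} (hx : IsCoprime (Ideal.span {x}) M)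
    (hy : IsCoprime (Ideal.span {y}) M) (h : x - y ∈ M) : κ x = κ y := by
  obtain ⟨a, ha, b, hb, hab⟩ := Ideal.isCoprime_iff_exists.1 hx
  obtain ⟨z, rfl⟩ := Ideal.mem_span_singleton.1 ha
  have hxz : x * z - 1 ∈ M := by
    have : x * z - 1 = -b := by rw [← hab]; ring
    rw [this]
    exact M.neg_mem hb
  have hyz : y * z - 1 ∈ M := by
    have : y * z - 1 = (x * z - 1) - z * (x - y) := by ring
    rw [this]
    exact M.sub_mem hxz (M.mul_mem_left _ h)
  have hz : IsCoprime (Ideal.span {z}) M := by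
    rw [Ideal.isCoprime_iff_exists]
    exact ⟨x * z, Ideal.mem_span_singleton.2 ⟨x, by ring⟩, b, hb, hab⟩
  have e1 := h1 _ hxz
  have e2 := h1 _ hyz
  rw [hm x z hx hz] at e1
  rw [hm y z hy hz] at e2
  calc κ x = κ x * (κ y * κ z) := by rw [e2, mul_one]
    _ = κ y * (κ x * κ z) := by ring
    _ = κ y := by rw [e1, mul_one]

end H55W
end

-- from Lib.H55W.S5
section

/-! # H55W, part S: residue characters from reciprocity -/

open NumberField

namespace H55W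

variable {F : Type} [Field F] [NumberField F] {m : ℕ} {ζ : 𝓞 F}

theorem s5_unit {a : ℤ} (h : IsUnit (a : 𝓞 F)) : IsUnit a := by
  have h1 := h.map (Algebra.norm ℤ)
  have h2 : Algebra.norm ℤ (a : 𝓞 F) = a ^ Module.finrank ℤ (𝓞 F) := by
    have := Algebra.norm_algebraMap (R := ℤ) (S := 𝓞 F) a
    simpa using this
  rw [h2] at h1
  have h3 : Module.finrank ℤ (𝓞 F) ≠ 0 := by
    rw [RingOfIntegers.rank]
    exact Module.finrank_pos.ne'
  exact (isUnit_pow_iff h3).1 h1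

/-- Chunk S5 (S). -/
theorem s5_pj {x : 𝓞 F} {n : ℤ} (hζ : IsPrimitiveRoot ζ m) (hm : 2 ≤ m) (hn : n ≠ 0) (hx : IsCoprime x (((m * n : ℤ)) : 𝓞 F)) :
    PJ m ζ (Ideal.span {x}) ∧ IsCoprime (Ideal.span {(n : 𝓞 F)}) (Ideal.span {x}) := by
  rw [Int.cast_mul, Int.cast_natCast] at hx
  have h1 : IsCoprime x (m : 𝓞 F) := hx.of_mul_right_left
  have h2 : IsCoprime x (n : 𝓞 F) := hx.of_mul_right_right
  refine ⟨⟨?_, (Ideal.isCoprime_span_singleton_iff _ _).2 h1, hζ, hm⟩,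
    (Ideal.isCoprime_span_singleton_iff _ _).2 h2.symm⟩
  rw [Ne, Ideal.span_singleton_eq_bot]
  rintro rfl
  have h3 : IsUnit ((m : ℤ) : 𝓞 F) := by
    rw [Int.cast_natCast]
    exact isCoprime_zero_left.1 h1
  have h4 := s5_unit h3
  rw [Int.isUnit_iff] at h4
  omega

/-- Chunk S5 (M). root: pj_root; mul: pj_mul_left; unit: span {u} = ⊤, pj_top; euler: pj_prime for P = span {π} (prime, not bottom; m is not in P), ps_spec; Nat.card of the quotient = absNorm. per: per_of_one (HB.lean) for M = span {k}: x is prime to k because it is prime to (m n)^j (hk; IsCoprime.pow_right, IsCoprime.of_isCoprime_of_dvd_right);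
κ (x y) = κ x κ y for x, y prime to k: x is prime to m n because m n divides k (hk'). -/
theorem prc_of (hζ : IsPrimitiveRoot ζ m) (hm : 2 ≤ m) {n k : ℤ} (hn : n ≠ 0) {j : ℕ} (hk : k ∣ (m * n : ℤ) ^ j) (hk' : (m * n : ℤ) ∣ k)
    (h1 : ∀ x : 𝓞 F, (k : 𝓞 F) ∣ x - 1 → pj m ζ (Ideal.span {x}) (n : 𝓞 F) = 1) :
    PRC (𝓞 F) m n (m * n) k (fun x => pj m ζ (Ideal.span {x}) (n : 𝓞 F)) := by
  have hkc : ∀ x : 𝓞 F, IsCoprime (Ideal.span {x}) (Ideal.span {(k : 𝓞 F)}) →
      IsCoprime x (((m * n : ℤ)) : 𝓞 F) := by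
    intro x hx
    rw [Ideal.isCoprime_span_singleton_iff] at hx
    exact hx.of_isCoprime_of_dvd_right (Int.cast_dvd_cast _ _ hk')
  have hck : ∀ x : 𝓞 F, IsCoprime x (((m * n : ℤ)) : 𝓞 F) →
      IsCoprime (Ideal.span {x}) (Ideal.span {(k : 𝓞 F)}) := by
    intro x hx
    rw [Ideal.isCoprime_span_singleton_iff]
    have h2 : (k : 𝓞 F) ∣ (((m * n : ℤ)) : 𝓞 F) ^ j := by
      have := Int.cast_dvd_cast (α := 𝓞 F) _ _ hk
      rwa [Int.cast_pow] at this
    exact (hx.pow_right (n := j)).of_isCoprime_of_dvd_right h2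
  have hmul : ∀ x y : 𝓞 F, IsCoprime x (((m * n : ℤ)) : 𝓞 F) → IsCoprime y (((m * n : ℤ)) : 𝓞 F) →
      pj m ζ (Ideal.span {x * y}) (n : 𝓞 F) =
        pj m ζ (Ideal.span {x}) (n : 𝓞 F) * pj m ζ (Ideal.span {y}) (n : 𝓞 F) := by
    intro x y hx hy
    rw [← Ideal.span_singleton_mul_span_singleton]
    exact pj_mul_left (s5_pj hζ hm hn hx).1.ne (s5_pj hζ hm hn hy).1.ne _
  constructor
  · intro x hx
    obtain ⟨h2, h3⟩ := s5_pj hζ hm hn hx
    exact pj_root h2 h3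
  · exact hmul
  · intro x y hx hy hxy
    refine per_of_one (M := Ideal.span {(k : 𝓞 F)})
      (κ := fun x => pj m ζ (Ideal.span {x}) (n : 𝓞 F)) ?_ ?_ (hck x hx) (hck y hy)
      (Ideal.mem_span_singleton.2 hxy)
    · intro x y hx hy
      exact hmul x y (hkc x hx) (hkc y hy)
    · intro x hx
      exact h1 x (Ideal.mem_span_singleton.1 hx)
  · intro u hu
    show pj m ζ (Ideal.span {u}) (n : 𝓞 F) = 1
    rw [Ideal.span_singleton_eq_top.2 hu]
    exact pj_top _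
  · intro π hπ h2 h3
    rw [Int.cast_mul, Int.cast_natCast] at h2
    have hP : PP m ζ (Ideal.span {π}) := by
      refine ⟨(Ideal.span_singleton_prime hπ.ne_zero).2 hπ, ?_, ?_, hζ, hm⟩
      · rw [Ne, Ideal.span_singleton_eq_bot]
        exact hπ.ne_zero
      · rw [Ideal.mem_span_singleton]
        exact h3
    have h4 : (n : 𝓞 F) ∉ Ideal.span {π} := by
      rw [Ideal.mem_span_singleton]
      exact fun h => h2 (h.mul_left _)
    have h5 := (ps_spec hP h4).2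
    show π ∣ (n : 𝓞 F) ^ ((Nat.card (𝓞 F ⧸ Ideal.span {π}) - 1) / m) -
      pj m ζ (Ideal.span {π}) (n : 𝓞 F)
    rw [pj_prime hP, ← Ideal.mem_span_singleton]
    rw [Ideal.absNorm_apply, Submodule.cardQuot_apply] at h5
    exact h5

end H55W
end

-- from Lib.H55W.Q1
section

/-! # H55W, part Q: quadratic characters (n / norm) on the integers of an imaginary quadratic field -/

open NumberField IsDedekindDomain

namespace H55W

open H55P (IQ embF eF Nm)
open H55K (cj)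

variable {F : Type} [Field F] [NumberField F] [IQ F]

/-- Chunk Q1 (S). Nat.card of the quotient (Ideal.absNorm_apply, Submodule.cardQuot_apply). -/
theorem nm_card (x : 𝓞 F) : Nat.card (𝓞 F ⧸ Ideal.span {x}) = Nm x := by
  unfold Nm
  rw [Ideal.absNorm_apply, Submodule.cardQuot_apply]

theorem q1_unit {z : 𝓞 F} (h : Nm z = 1) : IsUnit z := by
  have h1 : Ideal.span {z} = ⊤ := Ideal.absNorm_eq_one_iff.1 h
  exact Ideal.span_singleton_eq_top.1 h1

theorem q1_dvd_prime {π : 𝓞 F} (hπ : Prime π) (n : ℕ) : n ≠ 0 → π ∣ (n : 𝓞 F) → ∃ p : ℕ, p.Prime ∧ π ∣ (p : 𝓞 F) := by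
  induction n using induction_on_primes with
  | zero => exact fun h => absurd rfl h
  | one =>
    intro _ h
    rw [Nat.cast_one] at h
    exact absurd (isUnit_of_dvd_one h) hπ.not_unit
  | prime_mul p a hp ih =>
    intro h0 h
    rw [Nat.cast_mul] at h
    rcases hπ.dvd_or_dvd h with h1 | h1
    · exact ⟨p, hp, h1⟩
    · exact ih (right_ne_zero_of_mul h0) h1

/-- Chunk Q1 (S/M). π divides a rational prime p (a prime element divides the natural number Nm π = π cj π, so one of its prime factors): p = π z, p^2 = Nm p = Nm π Nm z (Nm_nat, Nm_mul): Nm π = p or p^2 (Nm π ≠ 1). If Nm π = p^2 then z is a unit. -/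
theorem pi_types {π : 𝓞 F} (hπ : Prime π) : ∃ p : ℕ, p.Prime ∧ π ∣ (p : 𝓞 F) ∧ (Nm π = p ∨ (Nm π = p ^ 2 ∧ Associated π (p : 𝓞 F))) := by
  have h0 : Nm π ≠ 0 := fun h => hπ.ne_zero (H55P.Nm_eq_zero.1 h)
  have h1 : Nm π ≠ 1 := fun h => hπ.not_unit (q1_unit h)
  obtain ⟨p, hp, hd⟩ := q1_dvd_prime hπ (Nm π) h0 ⟨cj π, (H55K.mul_cj π).symm⟩
  refine ⟨p, hp, hd, ?_⟩
  obtain ⟨z, hz⟩ := hd
  have h2 : p ^ 2 = Nm π * Nm z := by
    rw [← H55K.Nm_mul, ← hz, H55K.Nm_nat]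
  obtain ⟨k, hk, hk2⟩ := (Nat.dvd_prime_pow hp).1 (Dvd.intro _ h2.symm)
  have hk3 : k = 0 ∨ k = 1 ∨ k = 2 := by omega
  rcases hk3 with rfl | rfl | rfl
  · exact absurd (by rw [hk2, pow_zero]) h1
  · left
    rw [hk2, pow_one]
  · right
    refine ⟨hk2, ?_⟩
    rw [hk2] at h2
    have h3 : Nm z = 1 := by
      have h4 : 0 < p ^ 2 := pow_pos hp.pos 2
      nlinarith
    rw [hz]
    exact associated_mul_unit_right π z (q1_unit h3)

/-- Chunk Q1 (S). A rational integer divisible by the rational integer m ≠ 0 in 𝓞 F is divisible in ℤ: the quotient is a rational number, integral over ℤ; or: norms are not enough; use IsIntegrallyClosed ℤ (Rat), or the basis H55P.bF; (Algebra.. Int.. ) . -/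
theorem int_dvd {a b : ℤ} (h : (a : 𝓞 F) ∣ (b : 𝓞 F)) : a ∣ b := by
  obtain ⟨z, hz⟩ := h
  by_cases ha : a = 0
  · rw [ha, Int.cast_zero, zero_mul] at hz
    have h1 : b = 0 := by exact_mod_cast hz
    rw [h1]
    exact dvd_zero a
  have haQ : (a : ℚ) ≠ 0 := by exact_mod_cast ha
  have haF : (a : F) ≠ 0 := by exact_mod_cast ha
  have h1 : algebraMap ℚ F ((b : ℚ) / a) = (z : F) := by
    have h2 : ((b : 𝓞 F) : F) = ((a : 𝓞 F) : F) * (z : F) := by
      rw [hz]
      rfl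
    rw [map_div₀, map_intCast, map_intCast, div_eq_iff haF]
    have h3 : ((b : 𝓞 F) : F) = (b : F) := map_intCast _ _
    have h4 : ((a : 𝓞 F) : F) = (a : F) := map_intCast _ _
    rw [h3, h4] at h2
    rw [h2, mul_comm]
  have h2 : IsIntegral ℤ ((b : ℚ) / a) := by
    rw [← isIntegral_algebraMap_iff (algebraMap ℚ F).injective, h1]
    exact z.2
  obtain ⟨m, hm⟩ := IsIntegrallyClosed.isIntegral_iff.1 h2
  refine ⟨m, ?_⟩
  have h3 : (m : ℚ) = b / a := hm
  rw [eq_div_iff haQ] at h3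
  have h4 : ((m * a : ℤ) : ℚ) = (b : ℚ) := by
    push_cast
    exact h3
  have h5 : m * a = b := by exact_mod_cast h4
  rw [← h5, mul_comm]

/-- Chunk Q1 (M). EULER'S CRITERION. p from pi_types, p odd (π does not divide 2), p does not divide n. Nm π = p: jacobiSym n p = legendreSym p n is congruent to n^((p-1)/2) modulo p (legendreSym.eq_pow in ZMod p; ZMod.intCast_zmod_eq_zero_iff..): cast to 𝓞 F, π divides p.
Nm π = p^2: jacobiSym n (p^2) = (jacobiSym n p)^2 = 1 (p does not divide n), n^((p^2-1)/2) = (n^(p-1))^((p+1)/2) is 1 modulo p (Fermat). -/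
theorem euler_nm {π : 𝓞 F} (hπ : Prime π) (h2 : ¬ π ∣ 2) {n : ℤ} (hn : ¬ π ∣ (n : 𝓞 F)) :
    π ∣ (n : 𝓞 F) ^ ((Nm π - 1) / 2) - ((jacobiSym n (Nm π) : ℤ) : 𝓞 F) := by
  obtain ⟨p, hp, hd, hN⟩ := pi_types hπ
  have hp2 : p ≠ 2 := by
    rintro rfl
    exact h2 (by exact_mod_cast hd)
  have hodd : p % 2 = 1 := hp.eq_two_or_odd.resolve_left hp2
  have hfact : Fact p.Prime := ⟨hp⟩
  have hpn : ¬ (p : ℤ) ∣ n := by
    rintro ⟨m, rfl⟩
    apply hn
    push_cast
    exact hd.mul_right _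
  have hnz : (n : ZMod p) ≠ 0 := fun h => hpn ((ZMod.intCast_zmod_eq_zero_iff_dvd n p).1 h)
  have hgcd : n.gcd p = 1 := by
    rw [Int.gcd_comm]
    exact Int.isCoprime_iff_gcd_eq_one.1 ((Nat.prime_iff_prime_int.1 hp).coprime_iff_not_dvd.2 hpn)
  have key : ∀ (N : ℕ) (J : ℤ), (p : ℤ) ∣ n ^ N - J → π ∣ (n : 𝓞 F) ^ N - ((J : ℤ) : 𝓞 F) := by
    rintro N J ⟨m, hm⟩
    have h1 : (n : 𝓞 F) ^ N - ((J : ℤ) : 𝓞 F) = ((n ^ N - J : ℤ) : 𝓞 F) := by push_cast; ring
    rw [h1, hm]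
    push_cast
    exact hd.mul_right _
  rcases hN with hN | ⟨hN, -⟩
  · rw [hN]
    refine key _ _ ?_
    rw [← ZMod.intCast_zmod_eq_zero_iff_dvd, ← jacobiSym.legendreSym.to_jacobiSym]
    push_cast
    rw [legendreSym.eq_pow]
    have h3 : (p - 1) / 2 = p / 2 := by omega
    rw [h3, sub_self]
  · rw [hN]
    refine key _ _ ?_
    rw [jacobiSym.pow_right, jacobiSym.sq_one hgcd]
    rw [← ZMod.intCast_zmod_eq_zero_iff_dvd]
    push_cast
    obtain ⟨m, hm⟩ : ∃ m, p = 2 * m + 1 := ⟨p / 2, by omega⟩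
    have h3 : (p ^ 2 - 1) / 2 = (p - 1) * (m + 1) := by
      have h4 : p ^ 2 - 1 = 2 * ((p - 1) * (m + 1)) := by
        rw [hm]
        have h5 : (2 * m + 1) ^ 2 = 4 * m ^ 2 + 4 * m + 1 := by ring
        rw [h5]
        have h6 : 2 * ((2 * m + 1 - 1) * (m + 1)) = 4 * m ^ 2 + 4 * m := by
          rw [Nat.add_sub_cancel]
          ring
        omega
      rw [h4, Nat.mul_div_cancel_left _ (by norm_num)]
    rw [h3, pow_mul, ZMod.pow_card_sub_one_eq_one hnz, one_pow, sub_self]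

/-- Chunk Q1 (S). x is prime to c in 𝓞 F implies Nm x prime to c in ℤ: a x + b c = 1, conjugate and multiply: (a x + b c)(cj a cj x + cj b c) = 1: Nm(x) z + c z' = 1, so a prime number l dividing Nm x and c divides 1 in 𝓞 F (int_dvd). -/
theorem nm_cop {x : 𝓞 F} {c : ℤ} (h : IsCoprime x (c : 𝓞 F)) : IsCoprime ((Nm x : ℕ) : ℤ) c := by
  obtain ⟨a, b, hab⟩ := h
  rw [Int.isCoprime_iff_gcd_eq_one]
  obtain ⟨g, hg⟩ : ∃ g : ℕ, g = Int.gcd ((Nm x : ℕ) : ℤ) c := ⟨_, rfl⟩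
  rw [← hg]
  obtain ⟨s, hs⟩ : (g : ℤ) ∣ ((Nm x : ℕ) : ℤ) := by rw [hg]; exact Int.gcd_dvd_left ..
  obtain ⟨t, ht⟩ : (g : ℤ) ∣ c := by rw [hg]; exact Int.gcd_dvd_right ..
  have h1 : (((g : ℤ) : ℤ) : 𝓞 F) ∣ ((1 : ℤ) : 𝓞 F) := by
    have h2 := congrArg cj hab
    rw [map_add, map_mul, map_mul, H55K.cj_int, map_one] at h2
    have h3 := H55K.mul_cj x
    have h4 : ((Nm x : ℕ) : 𝓞 F) = ((g : ℤ) : 𝓞 F) * (s : 𝓞 F) := by
      have h5 : (((Nm x : ℕ) : ℤ) : 𝓞 F) = (((g : ℤ) * s : ℤ) : 𝓞 F) := by rw [hs]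
      push_cast at h5 ⊢
      exact h5
    have h6 : (c : 𝓞 F) = ((g : ℤ) : 𝓞 F) * (t : 𝓞 F) := by
      rw [ht]
      push_cast
      ring
    refine ⟨s * (a * cj a) + t * (a * x * cj b + b * cj a * cj x + b * cj b * c), ?_⟩
    push_cast at h4 h6 ⊢
    have h7 : (a * x + b * c) * (cj a * cj x + cj b * c) = 1 := by rw [hab, h2, one_mul]
    have h8 : (a * x + b * c) * (cj a * cj x + cj b * c) = (x * cj x) * (a * cj a) +
      (c : 𝓞 F) * (a * x * cj b + b * cj a * cj x + b * cj b * c) := by ring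
    rw [h7, h3] at h8
    linear_combination h8 + (a * cj a) * h4 + (a * x * cj b + b * cj a * cj x + b * cj b * c) * h6
  have h9 := int_dvd h1
  exact Nat.dvd_one.1 (by exact_mod_cast h9)

/-- Chunk Q1 (S). x cj x - y cj y = (x - y) cj x + y cj (x - y) is divisible by k (cj_int); int_dvd. -/
theorem nm_per {x y : 𝓞 F} {k : ℤ} (h : (k : 𝓞 F) ∣ x - y) : k ∣ ((Nm x : ℕ) : ℤ) - ((Nm y : ℕ) : ℤ) := by
  obtain ⟨z, hz⟩ := h
  apply int_dvd (F := F)
  have h1 := H55K.mul_cj x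
  have h2 := H55K.mul_cj y
  have h3 := congrArg cj hz
  rw [map_sub, map_mul, H55K.cj_int] at h3
  refine ⟨z * cj x + y * cj z, ?_⟩
  push_cast
  rw [← h1, ← h2]
  linear_combination cj x * hz + y * h3

/-- Chunk Q1 (S). absNorm of the top ideal. -/
theorem nm_unit {u : 𝓞 F} (hu : IsUnit u) : Nm u = 1 := by
  unfold Nm
  rw [Ideal.span_singleton_eq_top.2 hu, Ideal.absNorm_top]

end H55W
end

-- from Lib.H55W.Q2A
section

/-! # H55W, part Q: quadratic characters -/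

open NumberField IsDedekindDomain

namespace H55W

open H55P (IQ embF eF Nm)
open H55K (cj)

variable {F : Type} [Field F] [NumberField F] [IQ F]

theorem q2a_gcd {a b : ℤ} (h : IsCoprime a b) : Int.gcd b a = 1 := by
  rw [Int.gcd_comm]
  exact Int.isCoprime_iff_gcd_eq_one.1 h

theorem q2a_odd {n : ℤ} {x : 𝓞 F} (h : IsCoprime x ((2 * n : ℤ) : 𝓞 F)) : Odd (Nm x) := by
  have h1 := nm_cop h
  have h2 : IsCoprime ((Nm x : ℕ) : ℤ) (2 : ℤ) := h1.of_mul_right_left
  rw [Int.isCoprime_iff_gcd_eq_one] at h2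
  rw [← Nat.not_even_iff_odd]
  intro he
  obtain ⟨k, hk⟩ := he
  rw [hk] at h2
  have h3 : (2 : ℤ) ∣ Int.gcd ((k + k : ℕ) : ℤ) 2 := by
    refine Int.dvd_coe_gcd ⟨k, by push_cast; ring⟩ (dvd_refl _)
  rw [h2] at h3
  norm_num at h3

theorem q2a_gcdn {n : ℤ} {x : 𝓞 F} (h : IsCoprime x ((2 * n : ℤ) : 𝓞 F)) : Int.gcd n (Nm x : ℕ) = 1 := by
  have h1 := nm_cop h
  exact q2a_gcd h1.of_mul_right_right

/-- Chunk Q2A (M). κ x = jacobiSym n (Nm x). root: 1 or -1 (jacobiSym.eq_one_or_neg_one, nm_cop: Nm x is prime to 2n); mul: Nm_mul, jacobiSym.mul_right; unit: nm_unit; per: Nm x is congruent to Nm y modulo 8n (nm_per), both odd, jacobiSym.mod_right (J(a | b) depends on b modulo 4|a|); euler: nm_card, euler_nm. -/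
theorem quad_any {n : ℤ} (hn : n ≠ 0) : ∃ κ : 𝓞 F → 𝓞 F, PRC (𝓞 F) 2 n (2 * n) (8 * n) κ ∧
    ∀ x, IsCoprime x (((2 * n : ℤ)) : 𝓞 F) → κ x = 1 ∨ κ x = -1 := by
  have hval : ∀ x : 𝓞 F, IsCoprime x (((2 * n : ℤ)) : 𝓞 F) →
      ((jacobiSym n (Nm x) : ℤ) : 𝓞 F) = 1 ∨ ((jacobiSym n (Nm x) : ℤ) : 𝓞 F) = -1 := by
    intro x hx
    rcases jacobiSym.eq_one_or_neg_one (q2a_gcdn hx) with h1 | h1
    · left
      rw [h1, Int.cast_one]
    · right
      rw [h1, Int.cast_neg, Int.cast_one]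
  refine ⟨fun x => ((jacobiSym n (Nm x) : ℤ) : 𝓞 F), ⟨?_, ?_, ?_, ?_, ?_⟩, hval⟩
  · intro x hx
    rcases hval x hx with h1 | h1
    · simp only [h1, one_pow]
    · simp only [h1]
      norm_num
  · intro x y hx hy
    show ((jacobiSym n (Nm (x * y)) : ℤ) : 𝓞 F) = ((jacobiSym n (Nm x) : ℤ) : 𝓞 F) * ((jacobiSym n (Nm y) : ℤ) : 𝓞 F)
    have h1 : Nm x ≠ 0 := fun h => by have := q2a_odd hx; rw [h] at this; exact absurd this (by decide)
    have h2 : Nm y ≠ 0 := fun h => by have := q2a_odd hy; rw [h] at this; exact absurd this (by decide)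
    rw [H55K.Nm_mul, jacobiSym.mul_right' n h1 h2, Int.cast_mul]
  · intro x y hx hy hxy
    show ((jacobiSym n (Nm x) : ℤ) : 𝓞 F) = ((jacobiSym n (Nm y) : ℤ) : 𝓞 F)
    have h1 := nm_per hxy
    rw [jacobiSym.mod_right n (q2a_odd hx), jacobiSym.mod_right n (q2a_odd hy)]
    have h2 : Nm x % (4 * n.natAbs) = Nm y % (4 * n.natAbs) := by
      have h3 : ((4 * n.natAbs : ℕ) : ℤ) ∣ ((Nm x : ℕ) : ℤ) - ((Nm y : ℕ) : ℤ) := by
        refine dvd_trans ?_ h1
        push_cast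
        refine dvd_trans (mul_dvd_mul_left 4 (b := |n|) (c := n) ((abs_dvd n n).2 (dvd_refl n))) ⟨2, by ring⟩
      have h4 : (Nm y : ℤ) ≡ (Nm x : ℤ) [ZMOD ((4 * n.natAbs : ℕ) : ℤ)] := Int.modEq_iff_dvd.2 h3
      exact ((Int.natCast_modEq_iff).1 h4).symm
    rw [h2]
  · intro u hu
    show ((jacobiSym n (Nm u) : ℤ) : 𝓞 F) = 1
    rw [nm_unit hu, jacobiSym.one_right, Int.cast_one]
  · intro π hπ hc hm
    rw [nm_card]
    refine euler_nm hπ (fun h => hm (by exact_mod_cast h)) fun h => hc ?_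
    rw [Int.cast_mul]
    exact Dvd.dvd.mul_left h _

/-- Chunk Q2A (S/M). The primary unit. n0 is not a unit in the group of units in the sense of huniq. pr x = the unit u with n0 | u x - 1 if there is one, 1 otherwise (classical). Uniqueness: n0 | u x - 1, n0 | u' x - 1: u x ≡ u' x, x is invertible modulo n0 (u x ≡ 1), so n0 | u - u', n0 | u u'^(-1) - 1, huniq. -/
theorem exists_pr {R : Type} [CommRing R] (n0 : R) (hex : ∀ x : R, IsCoprime x n0 → ∃ u, IsUnit u ∧ n0 ∣ u * x - 1)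
    (huniq : ∀ u : R, IsUnit u → n0 ∣ u - 1 → u = 1) : ∃ pr : R → R,
    (∀ x, IsCoprime x n0 → IsUnit (pr x) ∧ n0 ∣ pr x * x - 1) ∧
    (∀ x y, IsCoprime x n0 → IsCoprime y n0 → pr (x * y) = pr x * pr y) ∧
    (∀ u x, IsUnit u → IsCoprime x n0 → pr (u * x) * u = pr x) ∧
    (∀ x y, IsCoprime x n0 → IsCoprime y n0 → n0 ∣ x - y → pr x = pr y) ∧
    ∀ u x, IsUnit u → IsCoprime x n0 → n0 ∣ u * x - 1 → pr x = u := by
  classical
  have key : ∀ {u u' x : R}, IsUnit u → IsUnit u' → n0 ∣ u * x - 1 → n0 ∣ u' * x - 1 → u = u' := by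
    intro u u' x hu hu' h1 h2
    obtain ⟨v, hv⟩ := hu'.exists_left_inv
    have hvu : IsUnit v := IsUnit.of_mul_eq_one _ hv
    have h3 : n0 ∣ u * v - 1 := by
      have h4 : u * v - 1 = v * (u' * (u * x - 1) - u * (u' * x - 1)) := by
        linear_combination hv
      rw [h4]
      exact Dvd.dvd.mul_left (dvd_sub (Dvd.dvd.mul_left h1 _) (Dvd.dvd.mul_left h2 _)) _
    have h5 := huniq (u * v) (hu.mul hvu) h3
    calc u = u * (v * u') := by rw [hv, mul_one]
      _ = (u * v) * u' := by ring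
      _ = u' := by rw [h5, one_mul]
  set pr : R → R := fun x => if h : ∃ u, IsUnit u ∧ n0 ∣ u * x - 1 then h.choose else 1 with hpr
  have h1 : ∀ x, IsCoprime x n0 → IsUnit (pr x) ∧ n0 ∣ pr x * x - 1 := by
    intro x hx
    have h := hex x hx
    rw [hpr]
    simp only [dif_pos h]
    exact h.choose_spec
  refine ⟨pr, h1, ?_, ?_, ?_, ?_⟩
  · intro x y hx hy
    obtain ⟨a1, a2⟩ := h1 x hx
    obtain ⟨b1, b2⟩ := h1 y hy
    obtain ⟨c1, c2⟩ := h1 (x * y) (hx.mul_left hy)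
    refine key c1 (a1.mul b1) c2 ?_
    have h4 : pr x * pr y * (x * y) - 1 = (pr x * x - 1) * (pr y * y) + (pr y * y - 1) := by ring
    rw [h4]
    exact dvd_add (Dvd.dvd.mul_right a2 _) b2
  · intro u x hu hx
    obtain ⟨a1, a2⟩ := h1 x hx
    obtain ⟨c1, c2⟩ := h1 (u * x) ((isCoprime_mul_unit_left_left hu x n0).2 hx)
    refine key (c1.mul hu) a1 ?_ a2
    rwa [mul_assoc]
  · intro x y hx hy hxy
    obtain ⟨a1, a2⟩ := h1 x hx
    obtain ⟨b1, b2⟩ := h1 y hy
    refine key a1 b1 a2 ?_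
    have h4 : pr y * x - 1 = pr y * (x - y) + (pr y * y - 1) := by ring
    rw [h4]
    exact dvd_add (Dvd.dvd.mul_left hxy _) b2
  · intro u x hu hx h
    obtain ⟨a1, a2⟩ := h1 x hx
    exact key a1 hu a2 h

end H55W
end
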