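import Mathlib
import Pool.Agent.Lib.H1M.PP.D_H13Z_TR
import Pool.Agent.Lib.H1M.PP.D_H55P_Stm
import Pool.Agent.Lib.H1M.PP.M002
import Pool.Agent.Lib.H1M.PP.M003
import Pool.Agent.Lib.H1M.PP.M009
import Pool.Agent.Lib.H1M.PP.M013
import Pool.Agent.Lib.H1M.PP.M016
import Pool.Agent.Lib.H1M.PP.M018
import Pool.Agent.Lib.H1M.PP.M022
import Pool.Agent.Lib.H1M.PP.M029
import Pool.Agent.Lib.H1M.PP.M037
import Pool.Agent.Lib.H1M.PP.M038
import Pool.Agent.Lib.H1M.PP.M041
import Pool.Agent.Lib.H1M.PP.M042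
import Pool.Agent.Lib.H1M.PP.M043

/-! Merged copies (to shorten the build) of Lib.H13X.XT, Lib.H55W.L8D, Lib.H55W.L8F, Lib.H28G.K1, Lib.H28R.W12, Lib.H55K.T11A, Lib.H55K.UB5A, Lib.H55K.UB5B, Lib.H13Y.D1, Lib.H13Y.D2, Lib.H55K.NK1, Lib.H55W.G1, Lib.H55W.G2, Lib.H55W.G7. -/

-- from Lib.H13X.XT
section

/-! # H13X: one step of degree l -/

open NumberField IsDedekindDomain WeierstrassCurve
open scoped Pointwise

namespace H13X

open H55P (IQ embF eF LF Per IsHecke Pt ac Inert Dec Nm Coc)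
open H35P (WAB Ker tt)
open H55K (Tor ak xc yc CMA Dta GV GMod cj cj_cj mul_cj cj_prime cj_dvd cj_nat Nm_cj Nm_mul Nm_nat)
open H55K (Abw exists_abw)
open H55K.S
open H55R (Pl)
open H13S (Abv)
open H13Z (SelNon)

section trans

variable {F : Type} [Field F] [NumberField F] {Ω : Type} [Field Ω] [DecidableEq Ω] [Algebra F Ω] [IsAlgClosure F Ω]

theorem xt_sub (N : IntermediateField F Ω) [NumberField N] {V V' : ValuationSubring Ω} {w : HeightOneSpectrum (𝓞 N)}
    (hV : Abv N V w) (hV' : Abv N V' w) : ∃ u : Gal(Ω/N), ∀ z : 𝓞 Ω, V'.valuation (u (z : Ω)) < 1 ↔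
      V.valuation (z : Ω) < 1 := by
  have hcl0 : IsAlgClosed Ω := IsAlgClosure.isAlgClosed F
  have hal0 : Algebra.IsAlgebraic F Ω := IsAlgClosure.isAlgebraic
  have hc0 : CharZero Ω := charZero_of_injective_algebraMap (algebraMap F Ω).injective
  have hfin : FiniteDimensional F N := by
    have : IsScalarTower ℚ F N := IsScalarTower.of_algebraMap_eq' (Subsingleton.elim _ _)
    exact Module.Finite.of_restrictScalars_finite ℚ F N
  have hal : Algebra.IsAlgebraic N Ω := Algebra.IsAlgebraic.tower_top (K := F) N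
  have hcl : IsAlgClosure N Ω := ⟨inferInstance, hal⟩
  have hG : IsGalois N Ω := IsAlgClosure.isGalois N Ω
  have hQp : (H55P.ps9Q V).IsPrime := H55P.ps9_prime V
  have hQp' : (H55P.ps9Q V').IsPrime := H55P.ps9_prime V'
  have hinv := H55P.ps9_inv (Ω := Ω) N
  have hsc : SMulCommClass Gal(Ω/N) (𝓞 N) (𝓞 Ω) := by
    constructor
    intro g a z
    rw [Algebra.smul_def, Algebra.smul_def, smul_mul']
    congr 1
    apply RingOfIntegers.ext
    exact g.commutes (a : N)
  let _ : TopologicalSpace (𝓞 Ω) := ⊥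
  have : DiscreteTopology (𝓞 Ω) := ⟨rfl⟩
  have hcont : ContinuousSMul Gal(Ω/N) (𝓞 Ω) := by
    rw [continuousSMul_iff_stabilizer_isOpen]
    intro z
    have h1 := stabilizer_isOpen_of_isIntegral (K := N) (z : Ω)
    convert! h1 using 1
    ext g
    simp only [SetLike.mem_coe, MulAction.mem_stabilizer_iff]
    constructor
    · intro h
      exact congrArg (fun y : 𝓞 Ω => (y : Ω)) h
    · intro h
      exact RingOfIntegers.coe_injective h
  have hunder : (H55P.ps9Q V).under (𝓞 N) = (H55P.ps9Q V').under (𝓞 N) := by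
    ext a
    show (algebraMap (𝓞 N) (𝓞 Ω) a : 𝓞 Ω) ∈ H55P.ps9Q V ↔ (algebraMap (𝓞 N) (𝓞 Ω) a : 𝓞 Ω) ∈ H55P.ps9Q V'
    rw [H55P.ps9_lt, H55P.ps9_lt]
    have h1 := hV.lt (a : N)
    have h2 := hV'.lt (a : N)
    exact h1.trans h2.symm
  obtain ⟨u, hu⟩ := Algebra.IsInvariant.exists_smul_of_under_eq_of_profinite (A := 𝓞 N) (B := 𝓞 Ω)
    (G := Gal(Ω/N)) (H55P.ps9Q V) (H55P.ps9Q V') hunder
  refine ⟨u, fun z => ?_⟩
  have h1 : u • z ∈ H55P.ps9Q V' ↔ z ∈ H55P.ps9Q V := by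
    rw [hu]
    exact Ideal.smul_mem_pointwise_smul_iff
  rw [H55P.ps9_lt, H55P.ps9_lt] at h1
  exact h1

/-- The Galois group of Ω over N is transitive on the valuation rings above w. -/
theorem trans_V (N : IntermediateField F Ω) [NumberField N] {V V' : ValuationSubring Ω} {w : HeightOneSpectrum (𝓞 N)}
    (hV : Abv N V w) (hV' : Abv N V' w) : ∃ s ∈ N.fixingSubgroup, ∀ x, s x ∈ V' ↔ x ∈ V := by
  have hcl0 : IsAlgClosed Ω := IsAlgClosure.isAlgClosed F
  have hal0 : Algebra.IsAlgebraic F Ω := IsAlgClosure.isAlgebraic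
  have hc0 : CharZero Ω := charZero_of_injective_algebraMap (algebraMap F Ω).injective
  have htop : ∀ {U : ValuationSubring Ω}, Abv N U w → U ≠ ⊤ := by
    rintro U hU rfl
    obtain ⟨π, hπ⟩ := H55R.HB1_pi w
    have h1 := hU ((π⁻¹ : (N)ˣ) : N)
    have h2 : ¬ w.valuation N ((π⁻¹ : (N)ˣ) : N) ≤ 1 := by
      rw [H55R.BF1_val, H55R.ord_inv, hπ, neg_neg, not_le, ← WithZero.exp_zero, WithZero.exp_lt_exp]
      norm_num
    exact h2 (h1.1 (ValuationSubring.mem_top _))
  obtain ⟨u, hu⟩ := xt_sub N hV hV'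
  obtain ⟨s, hs⟩ : ∃ s : Ω ≃ₐ[F] Ω, ∀ x, s x = u x := ⟨u.restrictScalars F, fun x => rfl⟩
  have hkey : ∀ z : 𝓞 Ω, V'.valuation (s (z : Ω)) < 1 ↔ V.valuation (z : Ω) < 1 := by
    intro z
    rw [hs]
    exact hu z
  have hle : ∀ (U : ValuationSubring Ω) (z : 𝓞 Ω), U.valuation (z : Ω) ≤ 1 := fun U z =>
    (U.valuation_le_one_iff _).2 (H55P.ps9_mem U z)
  refine ⟨s, ?_, fun x => ⟨fun hx => ?_, fun hx => ?_⟩⟩
  · rw [IntermediateField.mem_fixingSubgroup_iff]
    intro y hy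
    rw [hs]
    exact u.commutes ⟨y, hy⟩
  · obtain ⟨q, hq, hqV⟩ := H13S.in1_char (F₀ := F) (Ω := Ω) V' (htop hV')
    obtain ⟨a, c, hc, hac⟩ := H55P.ps9_frac F V' q hq hqV (s x) hx
    obtain ⟨a', ha'⟩ : ∃ a' : 𝓞 Ω, s (a' : Ω) = (a : Ω) := ⟨RingOfIntegers.mapRingHom s.symm a, s.apply_symm_apply _⟩
    obtain ⟨c', hc'⟩ : ∃ c' : 𝓞 Ω, s (c' : Ω) = (c : Ω) := ⟨RingOfIntegers.mapRingHom s.symm c, s.apply_symm_apply _⟩
    have h1 : V.valuation (c' : Ω) = 1 := by
      refine le_antisymm (hle V c') (not_lt.1 fun h => ?_)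
      have h2 := (hkey c').2 h
      rw [hc', hc] at h2
      exact lt_irrefl _ h2
    have h2 : x = (a' : Ω) / (c' : Ω) := by
      apply s.injective
      rw [map_div₀, ha', hc']
      exact hac
    rw [← V.valuation_le_one_iff, h2, map_div₀, h1, div_one]
    exact hle V a'
  · obtain ⟨q, hq, hqV⟩ := H13S.in1_char (F₀ := F) (Ω := Ω) V (htop hV)
    obtain ⟨a, c, hc, rfl⟩ := H55P.ps9_frac F V q hq hqV x hx
    have hs' : ∀ z : 𝓞 Ω, V'.valuation (s (z : Ω)) ≤ 1 := by
      intro z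
      obtain ⟨z', hz'⟩ : ∃ z' : 𝓞 Ω, (z' : Ω) = s (z : Ω) := ⟨RingOfIntegers.mapRingHom s z, rfl⟩
      rw [← hz']
      exact hle V' z'
    have h1 : V'.valuation (s (c : Ω)) = 1 := by
      refine le_antisymm (hs' c) (not_lt.1 fun h => ?_)
      have h2 := (hkey c).1 h
      rw [hc] at h2
      exact lt_irrefl _ h2
    rw [← V'.valuation_le_one_iff, map_div₀, map_div₀, h1, div_one]
    exact hs' a

/-- The same over F. -/
theorem trans_F {V V' : ValuationSubring Ω} {v : HeightOneSpectrum (𝓞 F)}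
    (hV : Abw V v) (hV' : Abw V' v) : ∃ s : Ω ≃ₐ[F] Ω, ∀ x, s x ∈ V' ↔ x ∈ V := by
  have hcl0 : IsAlgClosed Ω := IsAlgClosure.isAlgClosed F
  have hal0 : Algebra.IsAlgebraic F Ω := IsAlgClosure.isAlgebraic
  have hNF : NumberField (⊥ : IntermediateField F Ω) := NumberField.of_module_finite F _
  have hex : ∃ x : (⊥ : IntermediateField F Ω), (x : Ω) ∉ V := by
    obtain ⟨π, hπ⟩ := H55R.HB1_pi v
    refine ⟨algebraMap F _ ((π⁻¹ : Fˣ) : F), fun h => ?_⟩
    have h1 := (hV ((π⁻¹ : Fˣ) : F)).1 h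
    have h2 : ¬ v.valuation F ((π⁻¹ : Fˣ) : F) ≤ 1 := by
      rw [H55R.BF1_val, H55R.ord_inv, hπ, neg_neg, not_le, ← WithZero.exp_zero, WithZero.exp_lt_exp]
      norm_num
    exact h2 h1
  obtain ⟨w, hw⟩ := H13S.exists_below (⊥ : IntermediateField F Ω) V hex
  have hw' : Abv (⊥ : IntermediateField F Ω) V' w := by
    intro x
    obtain ⟨y, hy⟩ := IntermediateField.mem_bot.1 x.2
    rw [← hw x, ← hy]
    exact (hV' y).trans (hV y).symm
  obtain ⟨s, -, hs⟩ := trans_V (⊥ : IntermediateField F Ω) hw hw'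
  exact ⟨s, hs⟩

end trans

end H13X
end

-- from Lib.H55W.L8D
section

/-! # H55W, part L: the points killed by 2 sqrt(-2), discriminant -8 -/

open NumberField IsDedekindDomain WeierstrassCurve

namespace H55W

open H55P (IQ embF eF LF Per IsHecke Pt ac Inert Dec Nm)
open H35P (WAB Ker tt GoodW IntW)
open H55K
open H13D (RM)

variable {F : Type} [Field F] [NumberField F] [IQ F] {φ : 𝓞 F} {A B : F} {Om : ℂ} {Ω : Type} [Field Ω] [DecidableEq Ω]
  [Algebra F Ω] {j : Ω →+* ℂ} {act : 𝓞 F →+* AddMonoid.End (Pt (WAB A B) Ω)}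

theorem l8d_dvd (hφ : TI φ) (a b : ℤ) {x : 𝓞 F} (hx : x = (a : 𝓞 F) + (b : 𝓞 F) * φ) : 2 * φ ∣ x ↔ 4 ∣ a ∧ 2 ∣ b := by
  rw [hx]
  exact (ti_dvd hφ a b).1

theorem l8d_mul (a b : 𝓞 F) (T : Pt (WAB A B) Ω) : act (a * b) T = act a (act b T) := by
  rw [map_mul]
  rfl

theorem l8d_add (a b : 𝓞 F) (T : Pt (WAB A B) Ω) : act (a + b) T = act a T + act b T := by
  rw [map_add]
  rfl

theorem l8d_sub (a b : 𝓞 F) (T : Pt (WAB A B) Ω) : act (a - b) T = act a T - act b T := by
  rw [map_sub]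
  rfl

theorem l8d_one (T : Pt (WAB A B) Ω) : act 1 T = T := by
  rw [map_one]
  rfl

/-- T is a generator of the points killed by 2 φ. -/
structure TG (act : 𝓞 F →+* AddMonoid.End (Pt (WAB A B) Ω)) (φ : 𝓞 F) (T : Pt (WAB A B) Ω) : Prop where
  zero : ∀ a : 𝓞 F, act a T = 0 ↔ 2 * φ ∣ a
  gen : ∀ P : Pt (WAB A B) Ω, act (2 * φ) P = 0 → ∃ a : 𝓞 F, P = act a T

/-- Chunk L8D (S). h.gen (2 φ). -/
theorem exists_TG (h : CMA F A B Om j act) (hφ : TI φ) : ∃ T : Pt (WAB A B) Ω, TG act φ T := by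
  have h0 : 2 * φ ≠ 0 := by
    refine mul_ne_zero two_ne_zero ?_
    intro h0
    have := hφ.sq
    rw [h0] at this
    have h2 : ((0 : ℤ) : 𝓞 F) = ((-2 : ℤ) : 𝓞 F) := by
      push_cast
      linear_combination this
    have h3 : (0 : ℤ) = -2 := by exact_mod_cast h2
    omega
  obtain ⟨T, hT, h1, h2, -⟩ := h.gen (2 * φ) h0
  exact ⟨T, h2, fun P hP => h1 P hP⟩

/-- Chunk L8D (S). T' = act (1 + φ) T: (1 + φ)(1 - φ) = 3 and 3 ≡ -1 modulo 2φ (4 = -(2φ) φ), so a (1 + φ) divisible by 2φ implies 3a, hence a divisible (3a = 4a - a); P = act a T = act (-a (1 - φ)) (act (1 + φ) T). -/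
theorem tg_one (hφ : TI φ) {T : Pt (WAB A B) Ω} (hT : TG act φ T) : TG act φ (act (1 + φ) T) := by
  have hsq := hφ.sq
  have h4 : 2 * φ ∣ (4 : 𝓞 F) := ⟨-φ, by linear_combination 2 * hsq⟩
  refine ⟨fun a => ?_, fun P hP => ?_⟩
  · rw [← l8d_mul, hT.zero]
    constructor
    · intro h1
      have h2 : 2 * φ ∣ a * (1 + φ) * (1 - φ) := h1.mul_right _
      have h3 : a = 4 * a - a * (1 + φ) * (1 - φ) := by linear_combination (-a) * hsq
      rw [h3]
      exact dvd_sub (h4.mul_right _) h2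
    · intro h1
      exact h1.mul_right _
  · obtain ⟨a, rfl⟩ := hT.gen P hP
    refine ⟨-a * (1 - φ), ?_⟩
    rw [← l8d_mul]
    have h3 : -a * (1 - φ) * (1 + φ) = a - 4 * a := by linear_combination a * hsq
    rw [h3, l8d_sub, (hT.zero (4 * a)).2 (h4.mul_right _), sub_zero]

/-- Chunk L8D (M). T₀ = act 2 T, e = xc T₀: T₀ ≠ 0, act φ T₀ = 0, T₀ + T₀ = act 4 T = 0 (4 = -(2φ)φ), so yc T₀ = 0 (T₀ = -T₀, yc_neg) and e^3 + A e + B = 0. The only nonzero point killed by φ is T₀ (tor_card: Nm φ = 2): TN act φ {T₀}. h.e1x for φ and P = T (act φ T ≠ 0): -2 xc (act φ T) = xc T + (xc (T + T₀) - xc T₀), and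
T + T₀ = act 3 T = act (4 - 1) T = -T, so xc (T + T₀) = xc T (xc_neg): xc (act φ T) = e/2 - xc T. add_coords for T and T₀ (xc T ≠ e, otherwise T = ± T₀, 2φ would divide 1 - 2 or 1 + 2): xc T = (yc T/(xc T - e))^2 - xc T - e; with eqnA and B = -e^3 - A e: yc T^2 = (x - e)(x^2 + e x + e^2 + A): (x - e)(2x + e) = x^2 + e x + e^2 + A, i.e. (x - e)^2 = 3 e^2 + A.
act φ T =: P₁ is killed by 2 (2 φ T = 0), P₁ ≠ 0, P₁ ≠ T₀ (2φ does not divide φ - 2): yc P₁ = 0, xc P₁ =: x₁ ≠ e (else P₁ = ± T₀ = T₀), so x₁^2 + e x₁ + e^2 + A = 0 (divide x₁^3 + A x₁ + B = 0 by x₁ - e). With x₁ = e/2 - x and (x - e)^2 = 3e^2 + A this gives 8 A = -15 e^2, and B = -e^3 - A e: 8 B = 7 e^3. e ≠ 0 by h.disc. -/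
theorem tg_coord (h : CMA F A B Om j act) (hφ : TI φ) {T : Pt (WAB A B) Ω} (hT : TG act φ T) :
    ∃ e : Ω, e ≠ 0 ∧ 8 * algebraMap F Ω A = -15 * e ^ 2 ∧ 8 * algebraMap F Ω B = 7 * e ^ 3 ∧
      8 * (xc T - e) ^ 2 = 9 * e ^ 2 ∧ xc (act φ T) = e / 2 - xc T ∧ yc (act φ T) = 0 := by
  have hsq := hφ.sq
  have hinj : Function.Injective (algebraMap F Ω) := (algebraMap F Ω).injective
  have hak : ak Ω φ ^ 2 = -2 := by
    have h1 := congrArg (fun z : 𝓞 F => algebraMap F Ω (algebraMap (𝓞 F) F z)) hsq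
    simp only [map_pow, map_neg, map_ofNat] at h1
    exact h1
  -- the point T₀
  set T₀ : Pt (WAB A B) Ω := act 2 T with hT₀
  have hT0 : T ≠ 0 := by
    intro h0
    have h1 := (l8d_dvd hφ 1 0 (x := 1) (by push_cast; ring)).1 ((hT.zero 1).1 (by rw [h0, map_zero]))
    omega
  have hT₀0 : T₀ ≠ 0 := by
    intro h0
    have h1 := (l8d_dvd hφ 2 0 (x := 2) (by push_cast; ring)).1 ((hT.zero 2).1 h0)
    omega
  have hφT₀ : act φ T₀ = 0 := by
    rw [hT₀, ← l8d_mul, hT.zero]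
    exact ⟨1, by ring⟩
  have h4T : act 4 T = 0 := (hT.zero 4).2 ⟨-φ, by linear_combination 2 * hsq⟩
  have h2T₀ : T₀ + T₀ = 0 := by
    rw [hT₀, ← l8d_add]
    have : (2 : 𝓞 F) + 2 = 4 := by norm_num
    rw [this, h4T]
  have hneg : -T₀ = T₀ := neg_eq_of_add_eq_zero_left h2T₀
  have hy₀ : yc T₀ = 0 := by
    have h1 : yc (-T₀) = -yc T₀ := yc_neg (W := (WAB A B)⁄Ω) T₀
    rw [hneg] at h1
    have h2 : (2 : Ω) * yc T₀ = 0 := by linear_combination h1
    have hchar : (2 : Ω) ≠ 0 := by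
      intro h3
      have h4 : algebraMap F Ω 2 = algebraMap F Ω 0 := by rw [map_ofNat, map_zero]; exact h3
      exact two_ne_zero (hinj h4)
    exact (mul_eq_zero.1 h2).resolve_left hchar
  have h20 : (2 : Ω) ≠ 0 := by
    intro h3
    have h4 : algebraMap F Ω 2 = algebraMap F Ω 0 := by rw [map_ofNat, map_zero]; exact h3
    exact two_ne_zero (hinj h4)
  set e : Ω := xc T₀ with he
  set x : Ω := xc T with hx
  have heq₀ := eqnA hT₀0
  rw [hy₀] at heq₀
  have heqT := eqnA hT0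
  -- the points killed by φ
  have hTN : TN act φ {T₀} := by
    intro R
    rw [Finset.mem_singleton]
    constructor
    · rintro rfl
      exact ⟨hφT₀, hT₀0⟩
    · rintro ⟨hR, hR0⟩
      obtain ⟨a, ha⟩ := hT.gen R (by rw [l8d_mul, hR, map_zero])
      rw [ha, ← l8d_mul, hT.zero] at hR
      obtain ⟨c, hc⟩ := hR
      have hφ0 : φ ≠ 0 := by
        rintro rfl
        have h1 := (ti_dvd hφ 2 0).2.1
        have h3 : ((0 : ℤ) : 𝓞 F) = ((-2 : ℤ) : 𝓞 F) := by
          push_cast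
          linear_combination hsq
        have h4 : (0 : ℤ) = -2 := by exact_mod_cast h3
        omega
      have hac : a = 2 * c := by
        apply mul_left_cancel₀ hφ0
        linear_combination hc
      obtain ⟨c₁, c₂, hcc⟩ := hφ.rep c
      have hR2 : R = act (c₁ : 𝓞 F) T₀ := by
        rw [ha, hac, mul_comm 2 c, l8d_mul, ← hT₀, hcc, l8d_add, l8d_mul, hφT₀, map_zero, add_zero]
      rcases Int.even_or_odd c₁ with hc1 | hc1
      · exfalso
        obtain ⟨k, hk⟩ := hc1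
        apply hR0
        rw [hR2, hk]
        push_cast
        rw [l8d_add, ← map_add, h2T₀, map_zero]
      · obtain ⟨k, hk⟩ := hc1
        rw [hR2, hk]
        push_cast
        rw [l8d_add, l8d_one, two_mul, l8d_add, ← map_add, h2T₀, map_zero, zero_add]
  have hφT : act φ T ≠ 0 := by
    intro h0
    have h1 := (l8d_dvd hφ 0 1 (x := φ) (by push_cast; ring)).1 ((hT.zero φ).1 h0)
    omega
  have hTT : T + T₀ = -T := by
    have h1 : act 3 T = act 4 T - T := by
      have e3 : (3 : 𝓞 F) = 4 - 1 := by norm_num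
      rw [e3, l8d_sub, l8d_one]
    have h2 : act 3 T = T₀ + T := by
      have e3 : (3 : 𝓞 F) = 2 + 1 := by norm_num
      rw [e3, l8d_add, l8d_one]
    rw [add_comm, ← h2, h1, h4T, zero_sub]
  have hφne : φ ≠ 0 := by
    intro h0
    apply hφT
    rw [h0, map_zero]
    rfl
  have hx₁ : xc (act φ T) = e / 2 - x := by
    have h1 := h.e1x φ {T₀} hφne hTN T hφT
    rw [Finset.sum_singleton, hTT, xc_neg (W := (WAB A B)⁄Ω) T, hak] at h1
    field_simp
    linear_combination -h1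
  -- T and T₀
  have hxe : x ≠ e := by
    intro h0
    rcases xc_eq (W := (WAB A B)⁄Ω) hT0 hT₀0 h0 with h1 | h1
    · have h2 : act (1 - 2) T = 0 := by rw [l8d_sub, l8d_one, ← hT₀, ← h1, sub_self]
      have h3 := (l8d_dvd hφ (-1) 0 (x := 1 - 2) (by push_cast; ring)).1 ((hT.zero _).1 h2)
      omega
    · rw [hneg] at h1
      have h2 : act (1 - 2) T = 0 := by rw [l8d_sub, l8d_one, ← hT₀, ← h1, sub_self]
      have h3 := (l8d_dvd hφ (-1) 0 (x := 1 - 2) (by push_cast; ring)).1 ((hT.zero _).1 h2)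
      omega
  have hxe' : x - e ≠ 0 := sub_ne_zero.2 hxe
  obtain ⟨-, hadd, -⟩ := add_coords (W := (WAB A B)⁄Ω) hT0 hT₀0 hxe
  rw [hTT, xc_neg (W := (WAB A B)⁄Ω) T, hy₀, sub_zero] at hadd
  have k1 : (2 * x + e) * (x - e) ^ 2 = yc T ^ 2 := by
    have h1 : (yc T / (xc T - xc T₀)) ^ 2 * (x - e) ^ 2 = yc T ^ 2 := by
      rw [← hx, ← he]
      field_simp
    rw [← h1]
    linear_combination (x - e) ^ 2 * hadd
  have k2 : (x - e) ^ 2 = 3 * e ^ 2 + algebraMap F Ω A := by
    apply mul_left_cancel₀ hxe'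
    linear_combination k1 + heqT - heq₀
  -- P₁
  have hP₁2 : act φ T + act φ T = 0 := by
    rw [← l8d_add, hT.zero]
    exact ⟨1, by ring⟩
  have hnegP : -(act φ T) = act φ T := neg_eq_of_add_eq_zero_left hP₁2
  have hyP : yc (act φ T) = 0 := by
    have h1 : yc (-(act φ T)) = -yc (act φ T) := yc_neg (W := (WAB A B)⁄Ω) (act φ T)
    rw [hnegP] at h1
    have h2 : (2 : Ω) * yc (act φ T) = 0 := by linear_combination h1
    exact (mul_eq_zero.1 h2).resolve_left h20
  have heqP := eqnA hφT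
  rw [hyP] at heqP
  have hxPe : xc (act φ T) ≠ e := by
    intro h0
    have h3 : act φ T = T₀ := by
      rcases xc_eq (W := (WAB A B)⁄Ω) hφT hT₀0 h0 with h1 | h1
      · exact h1
      · rw [h1, hneg]
    have h2 : act (φ - 2) T = 0 := by rw [l8d_sub, ← hT₀, ← h3, sub_self]
    have h4 := (l8d_dvd hφ (-2) 1 (x := φ - 2) (by push_cast; ring)).1 ((hT.zero _).1 h2)
    omega
  have k3 : xc (act φ T) ^ 2 + e * xc (act φ T) + e ^ 2 + algebraMap F Ω A = 0 := by
    apply mul_left_cancel₀ (sub_ne_zero.2 hxPe)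
    linear_combination heq₀ - heqP
  rw [hx₁] at k3
  have k4 : 8 * algebraMap F Ω A = -15 * e ^ 2 := by
    field_simp at k3
    linear_combination k3 - 4 * k2
  have k5 : 8 * algebraMap F Ω B = 7 * e ^ 3 := by
    linear_combination (-8) * heq₀ - e * k4
  have he0 : e ≠ 0 := by
    intro h0
    rw [h0] at k4 k5
    apply h.disc
    have h8 : (8 : Ω) ≠ 0 := by
      have : (8 : Ω) = 2 ^ 3 := by norm_num
      rw [this]
      exact pow_ne_zero 3 h20
    have hA0 : algebraMap F Ω A = 0 := (mul_eq_zero.1 (by rw [k4]; ring : (8 : Ω) * algebraMap F Ω A = 0)).resolve_left h8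
    have hB0 : algebraMap F Ω B = 0 := (mul_eq_zero.1 (by rw [k5]; ring : (8 : Ω) * algebraMap F Ω B = 0)).resolve_left h8
    rw [(map_eq_zero _).1 hA0, (map_eq_zero _).1 hB0]
    ring
  refine ⟨e, he0, k4, k5, ?_, hx₁, hyP⟩
  linear_combination 8 * k2 + k4

end H55W
end

-- from Lib.H55W.L8F
section

/-! # H55W, part L: the points killed by 2 sqrt(-2), discriminant -8 -/

open NumberField IsDedekindDomain WeierstrassCurve

namespace H55W

open H55P (IQ embF eF LF Per IsHecke Pt ac Inert Dec Nm)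
open H35P (WAB Ker tt GoodW IntW)
open H55K
open H13D (RM)

variable {F : Type} [Field F] [NumberField F] [IQ F] {φ : 𝓞 F} {A B : F} {Om : ℂ} {Ω : Type} [Field Ω] [DecidableEq Ω]
  [Algebra F Ω] {j : Ω →+* ℂ} {act : 𝓞 F →+* AddMonoid.End (Pt (WAB A B) Ω)}

/-- Chunk L8F (M). e = -(15 B)/(7 A) is given by tg_coord (A ≠ 0), so n = 3 e is unique: hA, hB give 3 e = n (8A = -15 e^2, 24 A = -5 n^2, 8B = 7e^3, 216 B = 7 n^3: (e/(n/3))^2 = 1 and cube = 1). σ = 4 X/n, X = xc T - n/3: σ^2 = 2 (8 X^2 = n^2). y = yc T: y^2 = n^3 (2 + σ)/16 (eqnA). P₁ = act φ T: xc P₁ - n/3 = -n (2 + σ)/4, yc = 0. add_coords for T and P₁ (X ≠ X₁: 1 + σ ≠ 0):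
slope m = 2 y/(n (1 + σ)), and (1 + σ)(σ - 1) = 1: xc (T + P₁) - n/3 = m^2 - n - X - X₁ = -X, yc (T + P₁) = -(m (-2X) + y) = -(σ - 1) y. act (1 + φ) T = T + P₁. -/
theorem tg_add (h : CMA F A B Om j act) (hφ : TI φ) {n : ℤ} (hA : 24 * A = -5 * (n : F) ^ 2) (hB : 216 * B = 7 * (n : F) ^ 3)
    {T : Pt (WAB A B) Ω} (hT : TG act φ T) : (n : Ω) ≠ 0 ∧ ∃ σ : Ω, σ ^ 2 = 2 ∧ xc T = (n : Ω) / 3 + n * σ / 4 ∧
      16 * yc T ^ 2 = n ^ 3 * (2 + σ) ∧ xc (act (1 + φ) T) = (n : Ω) / 3 - n * σ / 4 ∧ yc (act (1 + φ) T) = -(σ - 1) * yc T := by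
  obtain ⟨e, he0, hA8, hB8, hX8, hx₁, hy₁⟩ := tg_coord h hφ hT
  have hsq := hφ.sq
  have hinj : Function.Injective (algebraMap F Ω) := (algebraMap F Ω).injective
  have hch : CharZero Ω := charZero_of_injective_algebraMap hinj
  have hAΩ : 24 * algebraMap F Ω A = -5 * (n : Ω) ^ 2 := by
    have h1 := congrArg (algebraMap F Ω) hA
    simp only [map_mul, map_neg, map_pow, map_ofNat, map_intCast] at h1
    exact h1
  have hBΩ : 216 * algebraMap F Ω B = 7 * (n : Ω) ^ 3 := by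
    have h1 := congrArg (algebraMap F Ω) hB
    simp only [map_mul, map_pow, map_ofNat, map_intCast] at h1
    exact h1
  have hn2 : (n : Ω) ^ 2 = 9 * e ^ 2 := by
    linear_combination (1 / 5) * hAΩ - (3 / 5) * hA8
  have hn3 : (n : Ω) ^ 3 = 27 * e ^ 3 := by
    linear_combination (-1 / 7) * hBΩ + (27 / 7) * hB8
  have hne : (n : Ω) = 3 * e := by
    apply mul_left_cancel₀ (mul_ne_zero (show (9 : Ω) ≠ 0 by norm_num) (pow_ne_zero 2 he0))
    linear_combination hn3 - (n : Ω) * hn2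
  have hT0 : T ≠ 0 := by
    intro h0
    have h1 := (l8d_dvd hφ 1 0 (x := 1) (by push_cast; ring)).1 ((hT.zero 1).1 (by rw [h0, map_zero]))
    omega
  have hφT : act φ T ≠ 0 := by
    intro h0
    have h1 := (l8d_dvd hφ 0 1 (x := φ) (by push_cast; ring)).1 ((hT.zero φ).1 h0)
    omega
  have heqT := eqnA hT0
  have hact : act (1 + φ) T = T + act φ T := by rw [l8d_add, l8d_one]
  obtain ⟨σ, hσ⟩ : ∃ σ : Ω, 4 * (xc T - e) = 3 * e * σ := ⟨4 * (xc T - e) / (3 * e), by field_simp⟩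
  have hxσ : xc T = e + 3 / 4 * e * σ := by linear_combination (1 / 4) * hσ
  have hσ2 : σ ^ 2 = 2 := by
    apply mul_left_cancel₀ (mul_ne_zero (show (9 : Ω) ≠ 0 by norm_num) (pow_ne_zero 2 he0))
    linear_combination 2 * hX8 - (4 * (xc T - e) + 3 * e * σ) * hσ
  have hσ1 : 1 + σ ≠ 0 := by
    intro h0
    have h1 : (1 : Ω) = 0 := by linear_combination -hσ2 + (σ - 1) * h0
    exact one_ne_zero h1
  have hy2 : 16 * yc T ^ 2 = 27 * e ^ 3 * (2 + σ) := by
    rw [hxσ] at heqT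
    linear_combination 16 * heqT + 2 * (e + 3 / 4 * e * σ) * hA8 + 2 * hB8 + e ^ 3 * (27 + 27 / 4 * σ) * hσ2
  have hdiff : xc T - xc (act φ T) = 3 / 2 * e * (1 + σ) := by
    rw [hx₁]
    linear_combination 2 * hxσ
  have hdiff0 : xc T - xc (act φ T) ≠ 0 := by
    rw [hdiff]
    exact mul_ne_zero (mul_ne_zero (by norm_num) he0) hσ1
  obtain ⟨-, hX, hY⟩ := add_coords (W := (WAB A B)⁄Ω) hT0 hφT (sub_ne_zero.1 hdiff0)
  rw [hy₁, sub_zero] at hX hY
  obtain ⟨m, hm⟩ : ∃ m : Ω, m = yc T / (xc T - xc (act φ T)) := ⟨_, rfl⟩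
  rw [← hm] at hX hY
  have hm1 : m * (3 / 2 * e * (1 + σ)) = yc T := by
    rw [hm, ← hdiff, div_mul_cancel₀ _ hdiff0]
  have hm2 : m * (3 / 2 * e) = yc T * (σ - 1) := by
    linear_combination (σ - 1) * hm1 - m * (3 / 2 * e) * hσ2
  have hmsq : m ^ 2 = 3 / 4 * e * (2 - σ) := by
    apply mul_left_cancel₀ (mul_ne_zero (show (9 / 4 : Ω) ≠ 0 by norm_num) (pow_ne_zero 2 he0))
    linear_combination (m * (3 / 2 * e) + yc T * (σ - 1)) * hm2 + (σ - 1) ^ 2 / 16 * hy2 +
      27 / 16 * e ^ 3 * (σ ^ 2 * 0 + σ) * hσ2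
  have hX' : xc (T + act φ T) = e - 3 / 4 * e * σ := by
    rw [hX, hx₁]
    linear_combination hmsq
  refine ⟨by rw [hne]; exact mul_ne_zero (by norm_num) he0, σ, hσ2, ?_, ?_, ?_, ?_⟩
  · rw [hne]
    linear_combination hxσ
  · rw [hne]
    linear_combination hy2
  · rw [hact, hX', hne]
    ring
  · rw [hact, hY, hX', hxσ]
    linear_combination σ * hm2 + yc T * hσ2

/-- Chunk L8F (S/M). Ω algebraically closed of characteristic 0: ζ₀ a primitive 16th root of unity (HasEnoughRootsOfUnity or IsAlgClosed.exists_... ; IsPrimitiveRoot), ζ₀^8 = -1, (ζ₀^2 + ζ₀^6)^2 = -2 = (ak φ)^2: ak φ = ± (ζ₀^2 + ζ₀^6); in the case of the minus sign take ζ = ζ₀^(-1) = -ζ₀^7 (ζ^2 + ζ^6 = -(ζ₀^6 + ζ₀^2)). -/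
theorem exists_zeta [IsAlgClosed Ω] (hφ : TI φ) : ∃ ζ : Ω, ζ ^ 8 = -1 ∧ ak Ω φ = ζ ^ 2 + ζ ^ 6 := by
  have hinj : Function.Injective (algebraMap F Ω) := (algebraMap F Ω).injective
  have hak : ak Ω φ ^ 2 = -2 := by
    have h1 := congrArg (fun z : 𝓞 F => algebraMap F Ω (algebraMap (𝓞 F) F z)) hφ.sq
    simp only [map_pow, map_neg, map_ofNat] at h1
    exact h1
  obtain ⟨ζ, hζ⟩ := IsAlgClosed.exists_pow_nat_eq (-1 : Ω) (n := 8) (by norm_num)
  have h1 : (ak Ω φ - (ζ ^ 2 + ζ ^ 6)) * (ak Ω φ + (ζ ^ 2 + ζ ^ 6)) = 0 := by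
    linear_combination hak - (2 + ζ ^ 4) * hζ
  rcases mul_eq_zero.1 h1 with h2 | h2
  · exact ⟨ζ, hζ, sub_eq_zero.1 h2⟩
  · refine ⟨-ζ ^ 7, ?_, ?_⟩
    · have e : (-ζ ^ 7) ^ 8 = (ζ ^ 8) ^ 7 := by ring
      rw [e, hζ]
      ring
    · have e2 : (-ζ ^ 7) ^ 2 = ζ ^ 8 * ζ ^ 6 := by ring
      have e6 : (-ζ ^ 7) ^ 6 = (ζ ^ 8) ^ 5 * ζ ^ 2 := by ring
      rw [e2, e6, hζ]
      linear_combination h2

end H55W
end

-- from Lib.H28G.K1
section

open NumberField IsDedekindDomain WeierstrassCurve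

namespace H28G

open H55B H55R H99B

/-! Chunk K1 (M): the torsion fields exist. N = TF K Ω b = K(S), S = the set of the coordinates of the points of Tor b Ω. Tor b Ω is finite: full_Om (Ω is algebraic over F
because K is a number field: Algebra.IsAlgebraic.trans), Full.finite. S is finite, its elements are algebraic over K, so N/K is finite (IntermediateField.finiteDimensional_adjoin).
Galois: separable (characteristic 0); normal: every K-automorphism s of Ω maps S to S (mp of the F-automorphism s maps Tor b Ω to itself: mp_mem_Tor, xc_mp, yc_mp), so it maps N to N: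
IntermediateField.normal_iff_forall_map_le (or normal_iff_forall_map_eq), IntermediateField.adjoin_map. Ω/K is normal (IsAlgClosure.normal or normal of algebraically closed and algebraic).
Full b N: a point R of Tor b Ω, R <> 0, has coordinates in N, so R = mp j R' with j = N.val (restricted to F), R' = pt (xc) (yc) (eqn by injectivity); mp j is injective, mp_mem_Tor: a bijection Tor b N -> Tor b Ω,
and Full b Ω. gen: σ in Gal(N/K) fixes all the points of Tor b N, so it fixes their coordinates (xc_sp, yc_sp), which (their images in Ω) are S and generate N over K: every element of S is the image of a fixed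
element; IntermediateField.adjoin_le_iff for the image in Ω of the fixed field of σ (or IntermediateField.algHom_ext_of_eq_adjoin). exists_TFld: Ω = AlgebraicClosure K (Algebra F, IsScalarTower F K are instances),
N = TF K Ω b, NumberField by NumberField.of_module_finite K N, DecidableEq by Classical. -/

section
variable (K : Type) [Field K] [NumberField K] [Algebra F K] (Ω : Type) [Field Ω]
    [DecidableEq Ω] [Algebra F Ω] [Algebra K Ω] [IsScalarTower F K Ω] [IsAlgClosed Ω]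
    [Algebra.IsAlgebraic K Ω]

/-- The set of the coordinates. -/
def K1_S (b : O) : Set Ω := {x | ∃ R ∈ Tor b Ω, x = xc R ∨ x = yc R}

include K
omit [DecidableEq Ω] [IsAlgClosed Ω] in
theorem K1_algF : Algebra.IsAlgebraic F Ω := by
  have h1 : Algebra.IsAlgebraic ℚ K := inferInstance
  have h2 : Algebra.IsAlgebraic F K := Algebra.IsAlgebraic.tower_top (K := ℚ) F
  exact Algebra.IsAlgebraic.trans F K Ω

theorem K1_full (b : O) (hb : b ≠ 0) : Full b Ω := by
  have := K1_algF K Ω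
  exact full_Om Ω b hb

theorem K1_finS (b : O) (hb : b ≠ 0) : (K1_S Ω b).Finite := by
  have h := (K1_full K Ω b hb).finite hb
  have h1 : (Set.range fun R : Tor b Ω => xc (R : P27 Ω)).Finite := Set.finite_range _
  have h2 : (Set.range fun R : Tor b Ω => yc (R : P27 Ω)).Finite := Set.finite_range _
  refine (h1.union h2).subset ?_
  rintro x ⟨R, hR, h | h⟩
  · exact Or.inl ⟨⟨R, hR⟩, h.symm⟩
  · exact Or.inr ⟨⟨R, hR⟩, h.symm⟩

omit [NumberField K] [Algebra F K] [IsScalarTower F K Ω] [IsAlgClosed Ω] [Algebra.IsAlgebraic K Ω] in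
theorem K1_TF (b : O) : TF K Ω b = IntermediateField.adjoin K (K1_S Ω b) := rfl

omit [NumberField K] [IsAlgClosed Ω] [Algebra.IsAlgebraic K Ω] in
theorem K1_map (b : O) (s : Gal(Ω/K)) : (s : Ω → Ω) '' (K1_S Ω b) ⊆ K1_S Ω b := by
  rintro _ ⟨x, ⟨R, hR, h⟩, rfl⟩
  let j : Ω →ₐ[F] Ω := ((AlgEquiv.restrictScalars F s : Ω ≃ₐ[F] Ω) : Ω →ₐ[F] Ω)
  refine ⟨mp j R, (mp_mem_Tor j b R).2 hR, ?_⟩
  rcases h with h | h
  · left
    rw [xc_mp, h]
    rfl
  · right
    rw [yc_mp, h]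
    rfl

end

theorem TF_fin (K : Type) [Field K] [NumberField K] [Algebra F K] (Ω : Type) [Field Ω]
    [DecidableEq Ω] [Algebra F Ω] [Algebra K Ω] [IsScalarTower F K Ω] [IsAlgClosed Ω]
    [Algebra.IsAlgebraic K Ω] (b : O) (hb : b ≠ 0) : FiniteDimensional K (TF K Ω b) := by
  rw [K1_TF]
  have h1 : Finite (K1_S Ω b) := (K1_finS K Ω b hb).to_subtype
  exact IntermediateField.finiteDimensional_adjoin fun x _ =>
    (Algebra.IsAlgebraic.isAlgebraic (R := K) x).isIntegral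

theorem TF_TFld (K : Type) [Field K] [NumberField K] [Algebra F K] (Ω : Type) [Field Ω]
    [DecidableEq Ω] [Algebra F Ω] [Algebra K Ω] [IsScalarTower F K Ω] [IsAlgClosed Ω]
    [Algebra.IsAlgebraic K Ω] (b : O) (hb : b ≠ 0) : TFld K (TF K Ω b) b := by
  have hfin := TF_fin K Ω b hb
  let j : TF K Ω b →ₐ[F] Ω := (TF K Ω b).val.restrictScalars F
  -- every torsion point comes from the subfield
  have hsurj : ∀ R ∈ Tor b Ω, ∃ S ∈ Tor b (TF K Ω b), mp j S = R := by
    intro R hR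
    by_cases h0 : R = 0
    · exact ⟨0, AddSubgroup.zero_mem _, by rw [map_zero, h0]⟩
    have hx : xc R ∈ TF K Ω b := IntermediateField.subset_adjoin _ _ ⟨R, hR, Or.inl rfl⟩
    have hy : yc R ∈ TF K Ω b := IntermediateField.subset_adjoin _ _ ⟨R, hR, Or.inr rfl⟩
    have he : (⟨yc R, hy⟩ : TF K Ω b) ^ 2 + ⟨yc R, hy⟩ = (⟨xc R, hx⟩ : TF K Ω b) ^ 3 :=
      Subtype.ext (eqn R)
    have hm : mp j (pt ⟨xc R, hx⟩ ⟨yc R, hy⟩ he) = R :=
      pt_ext (mp_ne j (pt_ne _ _ _)) h0 (by rw [xc_mp, xc_pt]; rfl) (by rw [yc_mp, yc_pt]; rfl)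
    exact ⟨_, (mp_mem_Tor j b _).1 (by rw [hm]; exact hR), hm⟩
  refine ⟨?_, ?_, ?_⟩
  · have hn : Normal K (TF K Ω b) := by
      have : Normal K Ω := normal_iff.2 fun x =>
        ⟨(Algebra.IsAlgebraic.isAlgebraic (R := K) x).isIntegral, IsAlgClosed.splits _⟩
      rw [IntermediateField.normal_iff_forall_map_le']
      intro s
      rw [K1_TF, IntermediateField.adjoin_map]
      exact IntermediateField.adjoin.mono _ _ _ (K1_map K Ω b s)
    exact ⟨⟩
  · unfold Full
    have hO := K1_full K Ω b hb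
    unfold Full at hO
    rw [← hO]
    let φ : Tor b (TF K Ω b) → Tor b Ω := fun S => ⟨mp j S.1, (mp_mem_Tor j b S.1).2 S.2⟩
    have hφ : Function.Bijective φ := by
      refine ⟨fun a c hac => Subtype.ext (mp_inj j (congrArg Subtype.val hac)), ?_⟩
      intro R
      obtain ⟨S, hS, hS'⟩ := hsurj R.1 R.2
      exact ⟨⟨S, hS⟩, Subtype.ext hS'⟩
    exact Nat.card_congr (Equiv.ofBijective φ hφ)
  · intro σ hσ
    have h1 : ((TF K Ω b).val.comp (σ : TF K Ω b →ₐ[K] TF K Ω b)) = (TF K Ω b).val := by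
      refine IntermediateField.algHom_ext_of_eq_adjoin K (K1_TF K Ω b) ?_
      intro x hx
      obtain ⟨R, hR, h⟩ := hx
      obtain ⟨S, hS, hS'⟩ := hsurj R hR
      have h2 := hσ S hS
      rcases h with h | h
      · have h5 : ((xc S : TF K Ω b) : Ω) = x := by
          rw [h, ← hS', xc_mp]
          rfl
        have h4 : σ (xc S) = xc S := by rw [← xc_sp, h2]
        subst h5
        exact congrArg Subtype.val h4
      · have h5 : ((yc S : TF K Ω b) : Ω) = x := by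
          rw [h, ← hS', yc_mp]
          rfl
        have h4 : σ (yc S) = yc S := by rw [← yc_sp, h2]
        subst h5
        exact congrArg Subtype.val h4
    ext x
    exact congrArg (fun f => f x) h1

theorem exists_TFld (K : Type) [Field K] [NumberField K] [Algebra F K] (b : O) (hb : b ≠ 0) :
    ∃ (N : Type) (_ : Field N) (_ : NumberField N) (_ : DecidableEq N) (_ : Algebra K N)
      (_ : Algebra F N) (_ : IsScalarTower F K N), TFld K N b := by
  classical
  have h1 := TF_TFld K (AlgebraicClosure K) b hb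
  have h2 := TF_fin K (AlgebraicClosure K) b hb
  refine ⟨TF K (AlgebraicClosure K) b, inferInstance, ?_, inferInstance, inferInstance, inferInstance,
    inferInstance, h1⟩
  exact NumberField.of_module_finite K _

end H28G
end

-- from Lib.H28R.W12
section

open NumberField IsDedekindDomain

namespace H28R

open H55P H55R

/-! Chunk W12 (M): N/C is unramified at w if all the p-th powers c of the generators are 1 modulo p^2 and have order divisible by p at w. W a prime of N above w, t in the inertia group of W over C (Ideal.inertia, card_inertia_eq_ramificationIdxIn as in H28G/K4.lean, unram): W.valuation (t x - x) < 1 for every W-integral x of N (as in H28G/K4.lean),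
and W.valuation (t x) = W.valuation x. Let x in R, x^p = c, t x = ζ^i x (t fixes C). Suppose z = ζ^i <> 1. Case p not in W: choose d in Cˣ with ord w d = ord w c / p (a power of a uniformizer of w), y = x/d has W.valuation 1, t y - y = (z - 1) y, so W.valuation (z - 1) < 1; but z - 1 divides p (product of the 1 - z^j, j = 1..p-1, is p): p in W, contradiction.
Case p in W: c = 1 mod p^2 is a unit at W, so W.valuation x = 1. Let s = W.valuation (1 - ζ) < 1; all W.valuation (1 - z') for p-th roots of unity z' <> 1 are equal to s (quotients are units) and s^(p-1) = W.valuation p. product over j < p of (x - ζ^j) = x^p - 1 = c - 1 has valuation <= (W.valuation p)^2 = s^(2p-2) < s^p (p > 2), so some j has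
W.valuation (x - ζ^j) < s. Then W.valuation (t x - ζ^j) = W.valuation (t (x - ζ^j)) < s (ζ in C), so W.valuation (t x - x) < s, but t x - x = (z - 1) x has valuation s: contradiction. So t fixes R, t = 1 (hgen), the inertia group is trivial. -/

theorem W12_root {N : Type} [Field N] [NumberField N] (W : Pl N) {z : N} {n : ℕ} (hn : n ≠ 0)
    (h : W.valuation N z ^ n = 1) : W.valuation N z = 1 := by
  rcases lt_trichotomy (W.valuation N z) 1 with h1 | h1 | h1
  · exact absurd h (pow_lt_one₀ zero_le h1 hn).ne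
  · exact h1
  · exact absurd h (one_lt_pow₀ h1 hn).ne'

/-- 1 - z^j is divisible by 1 - z. -/
theorem W12_pow {N : Type} [Field N] [NumberField N] (W : Pl N) {z : N}
    (h : W.valuation N z = 1) (j : ℕ) :
    W.valuation N (1 - z ^ j) ≤ W.valuation N (1 - z) := by
  rw [← mul_neg_geom_sum, map_mul]
  refine mul_le_of_le_one_right' ?_
  refine Valuation.map_sum_le _ fun i _ => ?_
  rw [map_pow, h, one_pow]

/-- p is divisible by 1 - z. -/
theorem W12_p {N : Type} [Field N] [NumberField N] (W : Pl N) {z : N} {p : ℕ}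
    (h : W.valuation N z = 1) (hz : z ^ p = 1) (h1 : z ≠ 1) :
    W.valuation N (p : N) ≤ W.valuation N (1 - z) := by
  have e1 : (1 - z) * ∑ i ∈ Finset.range p, z ^ i = 0 := by
    rw [mul_neg_geom_sum, hz, sub_self]
  have e2 : ∑ i ∈ Finset.range p, z ^ i = 0 := by
    rcases mul_eq_zero.1 e1 with h2 | h2
    · exact absurd (sub_eq_zero.1 h2).symm h1
    · exact h2
  have e3 : (p : N) = ∑ i ∈ Finset.range p, (1 - z ^ i) := by
    rw [Finset.sum_sub_distrib, e2, sub_zero, Finset.sum_const, Finset.card_range, nsmul_eq_mul,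
      mul_one]
  rw [e3]
  exact Valuation.map_sum_le _ fun i _ => W12_pow W h i

/-- p is divisible by (1 - z)^(p-1). -/
theorem W12_p2 {N : Type} [Field N] [NumberField N] (W : Pl N) {z : N} {p : ℕ} (hp : p.Prime)
    (h : W.valuation N z = 1) (hz : IsPrimitiveRoot z p) :
    W.valuation N ((p : N) / (1 - z) ^ (p - 1)) ≤ 1 := by
  classical
  have := Fact.mk hp
  have hz1 : z ≠ 1 := hz.ne_one hp.one_lt
  have hne : (1 - z) ≠ 0 := sub_ne_zero.2 hz1.symm
  have e1 : (p : N) = ∏ μ ∈ primitiveRoots p N, (1 - μ) := by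
    rw [← Polynomial.eval_one_cyclotomic_prime (R := N) (p := p),
      Polynomial.cyclotomic_eq_prod_X_sub_primitiveRoots hz, Polynomial.eval_prod]
    refine Finset.prod_congr rfl fun μ _ => ?_
    rw [Polynomial.eval_sub, Polynomial.eval_X, Polynomial.eval_C]
  have e2 : (p : N) / (1 - z) ^ (p - 1) = ∏ μ ∈ primitiveRoots p N, ((1 - μ) / (1 - z)) := by
    rw [Finset.prod_div_distrib, ← e1, Finset.prod_const, hz.card_primitiveRoots,
      Nat.totient_prime hp]
  rw [e2]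
  refine Finset.prod_induction _ (fun a => W.valuation N a ≤ 1) ?_ ?_ ?_
  · intro a b ha hb
    rw [map_mul]
    exact mul_le_one' ha hb
  · exact (map_one _).le
  · intro μ hμ
    rw [mem_primitiveRoots hp.pos] at hμ
    obtain ⟨j, -, rfl⟩ := hz.eq_pow_of_pow_eq_one hμ.pow_eq_one
    rw [map_div₀]
    exact div_le_one_of_le₀ (W12_pow W h j) zero_le

theorem unr_N {p : ℕ} (hp : p.Prime) (h3 : 3 ≤ p) {C N : Type} [Field C] [NumberField C] [Field N]
    [NumberField N] [Algebra C N] [IsGalois C N] {ζ : C} (hζ : IsPrimitiveRoot ζ p) (R : Set N)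
    (hgen : Algebra.adjoin C R = ⊤) (W : Pl N) (w : Pl C) (hw : W.under (𝓞 C) = w)
    (hR : ∀ x ∈ R, ∃ c : Cˣ, x ^ p = algebraMap C N c ∧
      (∃ a : 𝓞 C, (a : C) = c ∧ (p : 𝓞 C) ^ 2 ∣ a - 1) ∧ (p : ℤ) ∣ ord w c) :
    W.asIdeal.ramificationIdx (𝓞 C) = 1 := by
  classical
  have hvp := w.isPrime
  have hWp := W.isPrime
  have hl : W.asIdeal.LiesOver w.asIdeal := (BF2_mem w W hw).2
  have h1 := Ideal.card_inertia_eq_ramificationIdxIn (G := Gal(N/C)) w.asIdeal W.asIdeal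
  have h0 := Ideal.ramificationIdxIn_eq_ramificationIdx w.asIdeal W.asIdeal Gal(N/C)
  have hζN : IsPrimitiveRoot (algebraMap C N ζ) p := hζ.map_of_injective (algebraMap C N).injective
  have hne0 : NeZero p := ⟨hp.ne_zero⟩
  have hbot : W.asIdeal.inertia Gal(N/C) = ⊥ := by
    rw [eq_bot_iff]
    intro σ hσ
    rw [Subgroup.mem_bot]
    have hfix : ∀ x ∈ R, σ x = x := by
      intro x hx
      obtain ⟨c, hc, ⟨a, ha, b, hb⟩, hord⟩ := hR x hx
      have hcN : algebraMap C N c ≠ 0 := by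
        intro h2
        exact c.ne_zero ((map_eq_zero _).1 h2)
      have hx0 : x ≠ 0 := by
        rintro rfl
        rw [zero_pow hp.ne_zero] at hc
        exact hcN hc.symm
      have hσx : σ x ^ p = algebraMap C N c := by
        rw [← map_pow, hc]
        exact σ.commutes _
      have hzp : (σ x / x) ^ p = 1 := by
        rw [div_pow, hσx, hc, div_self hcN]
      obtain ⟨z, hz⟩ : ∃ z, z = σ x / x := ⟨_, rfl⟩
      rw [← hz] at hzp
      have hσz : σ x = z * x := by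
        rw [hz, div_mul_cancel₀ _ hx0]
      by_contra hne
      have hz1 : z ≠ 1 := by
        rintro rfl
        rw [one_mul] at hσz
        exact hne hσz
      have hσfix : σ z = z := by
        obtain ⟨i, -, hi⟩ := hζN.eq_pow_of_pow_eq_one hzp
        rw [← hi, ← map_pow]
        exact σ.commutes _
      have hzprim : IsPrimitiveRoot z p := by
        have h2 := orderOf_eq_prime (p := p) (hp := ⟨hp⟩) hzp hz1
        rw [← h2]
        exact IsPrimitiveRoot.orderOf z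
      have hvz : W.valuation N z = 1 := by
        refine W12_root W hp.ne_zero ?_
        rw [← map_pow, hzp, map_one]
      by_cases hpW : W.valuation N (p : N) = 1
      · -- p is a unit at W
        obtain ⟨k, hk⟩ := hord
        obtain ⟨π, hπ⟩ := HB1_pi w
        have hd : ord w (π ^ k) = k := by
          rw [ord_zpow, hπ, mul_one]
        have hdN : algebraMap C N ((π ^ k : Cˣ) : C) ≠ 0 := by
          intro h2
          exact (π ^ k : Cˣ).ne_zero ((map_eq_zero _).1 h2)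
        have hy : W.valuation N (x / algebraMap C N ((π ^ k : Cˣ) : C)) = 1 := by
          refine W12_root W hp.ne_zero ?_
          rw [← map_pow, div_pow, hc]
          have e1 : algebraMap C N c / algebraMap C N ((π ^ k : Cˣ) : C) ^ p =
              ((Units.map (algebraMap C N : C →* N) (c * ((π ^ k) ^ (p : ℤ))⁻¹) : Nˣ) : N) := by
            rw [Units.coe_map]
            show _ = algebraMap C N ((c * ((π ^ k) ^ (p : ℤ))⁻¹ : Cˣ) : C)
            rw [Units.val_mul, map_mul, Units.val_inv_eq_inv_val, map_inv₀, zpow_natCast,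
              Units.val_pow_eq_pow_val, map_pow, div_eq_mul_inv]
          rw [e1, BF1_val, ord_map W w hw, ord_mul, ord_inv, ord_zpow, hd, hk, add_neg_cancel,
            mul_zero, neg_zero]
          exact WithZero.exp_zero
        have h2 := H28G.K4_iner W σ hσ _ hy.le
        have e2 : σ (x / algebraMap C N ((π ^ k : Cˣ) : C)) - x / algebraMap C N ((π ^ k : Cˣ) : C)
            = -((1 - z) * (x / algebraMap C N ((π ^ k : Cˣ) : C))) := by
          have e3 : σ (algebraMap C N ((π ^ k : Cˣ) : C)) = algebraMap C N ((π ^ k : Cˣ) : C) :=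
            σ.commutes _
          rw [map_div₀, hσz, e3]
          ring
        rw [e2, Valuation.map_neg, map_mul, hy, mul_one] at h2
        have h4 := W12_p W hvz hzp hz1
        rw [hpW] at h4
        exact absurd (h4.trans_lt h2) (lt_irrefl _)
      · -- p is not a unit at W
        have hint : ∀ t : 𝓞 C, W.valuation N (algebraMap C N (t : C)) ≤ 1 := by
          intro t
          have e : algebraMap C N (t : C) = ((algebraMap (𝓞 C) (𝓞 N) t : 𝓞 N) : N) := rfl
          rw [e]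
          exact W.valuation_le_one _
        have hpe : W.valuation N (p : N) = W.valuation N (algebraMap C N ((p : 𝓞 C) : C)) := by
          congr 1
          have e1 : ((p : 𝓞 C) : C) = (p : C) := map_natCast (algebraMap (𝓞 C) C) p
          rw [e1, map_natCast]
        have hple : W.valuation N (p : N) ≤ 1 := by
          rw [hpe]
          exact hint _
        have hplt : W.valuation N (p : N) < 1 := lt_of_le_of_ne hple hpW
        have hcb : algebraMap C N c = 1 + (p : N) ^ 2 * algebraMap C N (b : C) := by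
          rw [← ha]
          have e1 : a = 1 + (p : 𝓞 C) ^ 2 * b := by
            rw [← hb]
            ring
          have e2 : (a : C) = 1 + (p : C) ^ 2 * (b : C) := by
            rw [e1]
            show algebraMap (𝓞 C) C _ = _
            rw [map_add, map_mul, map_pow, map_one, map_natCast]
          rw [e2, map_add, map_mul, map_pow, map_one, map_natCast]
        have hvc : W.valuation N (x ^ p) = 1 := by
          rw [hc, hcb]
          apply Valuation.map_one_add_of_lt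
          rw [map_mul, map_pow]
          refine (mul_le_of_le_one_right' (hint b)).trans_lt ?_
          exact pow_lt_one₀ zero_le hplt two_ne_zero
        have hvx : W.valuation N x = 1 := by
          refine W12_root W hp.ne_zero ?_
          rw [← map_pow]
          exact hvc
        have hzne : (1 - z) ≠ 0 := sub_ne_zero.2 hz1.symm
        have hz1le : W.valuation N (1 - z) ≤ 1 := by
          refine (Valuation.map_sub_le (v := W.valuation N) (g := 1) ?_ ?_)
          · rw [map_one]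
          · exact hvz.le
        -- some root of unity is close to x
        obtain ⟨μ, hμ, hμ2⟩ : ∃ μ ∈ Polynomial.nthRootsFinset p (1 : N),
            W.valuation N ((x - μ) / (1 - z)) ≤ 1 := by
          by_contra hcon
          push Not at hcon
          have e1 : x ^ p - 1 = ∏ μ ∈ Polynomial.nthRootsFinset p (1 : N), (x - μ) := by
            have h5 := congrArg (Polynomial.eval x) (Polynomial.X_pow_sub_one_eq_prod hp.pos hzprim)
            rw [Polynomial.eval_prod, Polynomial.eval_sub, Polynomial.eval_pow, Polynomial.eval_X,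
              Polynomial.eval_one] at h5
            rw [h5]
            refine Finset.prod_congr rfl fun μ _ => ?_
            rw [Polynomial.eval_sub, Polynomial.eval_X, Polynomial.eval_C]
          have e2 : (x ^ p - 1) / (1 - z) ^ p =
              ∏ μ ∈ Polynomial.nthRootsFinset p (1 : N), ((x - μ) / (1 - z)) := by
            rw [Finset.prod_div_distrib, ← e1, Finset.prod_const, hzprim.card_nthRootsFinset]
          have e3 : (x ^ p - 1) / (1 - z) ^ p =
              algebraMap C N (b : C) * ((p : N) / (1 - z) ^ (p - 1)) ^ 2 * (1 - z) ^ (p - 2) := by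
            rw [hc, hcb]
            have e4 : (1 - z) ^ (p - 1) * (1 - z) ^ (p - 1) = (1 - z) ^ p * (1 - z) ^ (p - 2) := by
              rw [← pow_add, ← pow_add]
              congr 1
              omega
            rw [div_pow, ← pow_mul, show (p - 1) * 2 = (p - 1) + (p - 1) by ring, pow_add, e4,
              add_sub_cancel_left]
            have e5 : (1 - z) ^ p ≠ 0 := pow_ne_zero _ hzne
            have e6 : (1 - z) ^ (p - 2) ≠ 0 := pow_ne_zero _ hzne
            field_simp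
          have h6 : W.valuation N ((x ^ p - 1) / (1 - z) ^ p) ≤ 1 := by
            rw [e3, map_mul, map_mul, map_pow, map_pow]
            exact mul_le_one' (mul_le_one' (hint b) (pow_le_one₀ zero_le (W12_p2 W hp hvz hzprim)))
              (pow_le_one₀ zero_le hz1le)
          have h7 : 1 < W.valuation N ((x ^ p - 1) / (1 - z) ^ p) := by
            rw [e2]
            refine Finset.prod_induction_nonempty _ (fun a => 1 < W.valuation N a) ?_ ?_ ?_
            · intro a b ha hb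
              rw [map_mul]
              exact one_lt_mul'' ha hb
            · refine ⟨1, ?_⟩
              rw [Polynomial.mem_nthRootsFinset hp.pos, one_pow]
            · exact hcon
          exact absurd (h6.trans_lt h7) (lt_irrefl _)
        have h8 := H28G.K4_iner W σ hσ _ hμ2
        have hσμ : σ μ = μ := by
          rw [Polynomial.mem_nthRootsFinset hp.pos] at hμ
          obtain ⟨i, -, hi⟩ := hζN.eq_pow_of_pow_eq_one hμ
          rw [← hi, ← map_pow]
          exact σ.commutes _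
        have e9 : σ ((x - μ) / (1 - z)) - (x - μ) / (1 - z) = -x := by
          rw [map_div₀, map_sub, map_sub, map_one, hσfix, hσμ, hσz]
          field_simp
          ring
        rw [e9, Valuation.map_neg, hvx] at h8
        exact lt_irrefl _ h8
    have h9 : (σ : N →ₐ[C] N) = AlgHom.id C N := by
      apply AlgHom.ext_of_adjoin_eq_top hgen
      intro x hx
      exact hfix x hx
    apply AlgEquiv.ext
    intro x
    exact DFunLike.congr_fun h9 x
  rw [hbot, Subgroup.card_bot, h0] at h1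
  exact h1.symm

end H28R
end

-- from Lib.H55K.T11A
section

/-! # H55K: no p-torsion fixed by inertia at a bad prime -/

open NumberField IsDedekindDomain WeierstrassCurve

namespace H55K.TQ

open H55P (IQ embF eF LF Per IsHecke Pt ac Inert Dec Nm UnitP)
open H35P (WAB Ker tt GoodW IntW)
open H55K.MG (VC Crd)

variable {F : Type} [Field F] [NumberField F] [IQ F] {W₀ : WeierstrassCurve (𝓞 F)} {Om : ℂ}
    {m : Ideal (𝓞 F)} {ψ : Ideal (𝓞 F) →*₀ 𝓞 F} {p : ℕ}

omit [NumberField F] [IQ F] in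
theorem t11a_prime {F : Type} [Field F] [NumberField F] [IQ F] {M : Type} [AddCommGroup M]
    (act : 𝓞 F →+* AddMonoid.End M) (a : 𝓞 F) : a ≠ 0 → ∀ T : M, T ≠ 0 → act a T = 0 →
    ∃ π c : 𝓞 F, Prime π ∧ π ∣ a ∧ act c T ≠ 0 ∧ act π (act c T) = 0 := by
  induction a using UniqueFactorizationMonoid.induction_on_prime with
  | h₁ => exact fun h => absurd rfl h
  | h₂ x hx =>
    intro _ T hT h
    exfalso
    obtain ⟨y, hy⟩ := hx.exists_left_inv
    apply hT
    have h1 : act (y * x) T = T := by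
      rw [hy, map_one]
      rfl
    rw [← h1, map_mul]
    show act y (act x T) = 0
    rw [h, map_zero]
  | h₃ a π ha hπ ih =>
    intro _ T hT h
    by_cases h1 : act a T = 0
    · obtain ⟨π', c, h2, h3, h4, h5⟩ := ih ha T hT h1
      exact ⟨π', c, h2, h3.mul_left π, h4, h5⟩
    · refine ⟨π, a, hπ, dvd_mul_right π a, h1, ?_⟩
      rw [map_mul] at h
      exact h

/-- Chunk T11A (S/M). One automorphism: π from the prime divisors of p in 𝓞 F: some multiple act c T is a nonzero point killed by a prime π dividing p (p T = 0, T ≠ 0: the annihilator {a : act a T = 0} contains p; it is generated by some b (class number one), b is not a unit, b = π c, take act c T ≠ 0 killed by π). The points killed by π are the multiples act a (act c T) (h.gen for π: a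
cyclic module over the field 𝓞 F/π; every nonzero element generates). s commutes with act (h.gal), so s fixes Tor act π, and inert_fix (GF.lean, hG, V(p) = 1) for n = p. -/
theorem fix_from_one {A B : F} {Ω : Type} [Field Ω] [DecidableEq Ω] [Algebra F Ω] {j : Ω →+* ℂ}
    {act : 𝓞 F →+* AddMonoid.End (Pt (WAB A B) Ω)} (h : CMA F A B Om j act) {V : ValuationSubring Ω}
    {Kg : AddSubgroup (Pt (WAB A B) Ω)} {u : Ω} (hG : GMod (WAB A B) V Kg u) (hp : p.Prime) (h5 : 5 ≤ p)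
    (hV : V.valuation (p : Ω) = 1) (s : Ω ≃ₐ[F] Ω) (hs : Inert V s) {T : Pt (WAB A B) Ω} (hT : p • T = 0)
    (h0 : T ≠ 0) (hf : ac (WAB A B) s T = T) (P : Pt (WAB A B) Ω) (hP : p • P = 0) : ac (WAB A B) s P = P := by
  have hmul : ∀ (a b : 𝓞 F) (Q : Pt (WAB A B) Ω), act (a * b) Q = act a (act b Q) := by
    intro a b Q
    rw [map_mul]
    rfl
  have hp0 : (p : 𝓞 F) ≠ 0 := by exact_mod_cast hp.ne_zero
  have hTp : act (p : 𝓞 F) T = 0 := by
    rw [map_natCast]
    exact hT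
  obtain ⟨π, c, hπ, hd, hc0, hπc⟩ := t11a_prime act (p : 𝓞 F) hp0 T h0 hTp
  obtain ⟨T₀, hT₀, hgen, hT₀a, -⟩ := h.gen π hπ.ne_zero
  obtain ⟨a, ha⟩ := hgen (act c T) hπc
  have hnd : ¬ π ∣ a := by
    intro hda
    exact hc0 (by rw [ha]; exact (hT₀a a).2 hda)
  obtain ⟨u, v, huv⟩ := (hπ.coprime_iff_not_dvd.2 hnd : IsCoprime π a)
  have hT₀' : T₀ = act v (act c T) := by
    have h1 : act (u * π + v * a) T₀ = T₀ := by
      rw [huv, map_one]
      rfl
    have h2 : act (u * π + v * a) T₀ = act (u * π) T₀ + act (v * a) T₀ := by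
      rw [map_add]
      rfl
    have h3 : act (u * π) T₀ = 0 := by
      rw [hmul, show act π T₀ = 0 from hT₀, map_zero]
    rw [← h1, h2, h3, zero_add, hmul, ← ha]
  have hfix : ∀ T' ∈ Tor act π, ac (WAB A B) s T' = T' := by
    intro T' hT'
    obtain ⟨a', ha'⟩ := hgen T' hT'
    rw [ha', hT₀', h.gal, h.gal, h.gal, hf]
  refine inert_fix h hp h5 hπ hd hG hV s hs hfix p hV P ?_
  rw [smul_sub, ← map_nsmul, hP, map_zero, sub_zero]

end H55K.TQ
end

-- from Lib.H55K.UB5A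
section

/-! # H55K: elliptic units: the norm relation -/

open NumberField IsDedekindDomain WeierstrassCurve

namespace H55K

open H55P (IQ embF eF LF Per IsHecke Pt ac Inert Dec Nm)
open H35P (WAB Ker tt)


variable {F : Type} [Field F] [NumberField F] [IQ F] {A B : F} {Om : ℂ} {Ω : Type} [Field Ω] [DecidableEq Ω]
  [Algebra F Ω] {j : Ω →+* ℂ} {act : 𝓞 F →+* AddMonoid.End (Pt (WAB A B) Ω)} {m : Ideal (𝓞 F)}
  {ψ : Ideal (𝓞 F) →*₀ 𝓞 F} {l : ℕ} {μ : 𝓞 F} {a : ℕ} {ρ τ : Pt (WAB A B) Ω} {H R : Finset (𝓞 F)}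
  {D S : Finset (Pt (WAB A B) Ω)}

/-- Chunk UB5A (M). e2 for b = β and Y = Q in S (act β Q ≠ 0 since β is prime to a), product over Q; prod_S gives Phi S (act β X) = product over Q of (xc (act β X) - xc (act β Q)). C = product over Q of β^2 * prod over R of (xc R - xc Q) is not 0: xc R = xc Q would give R = Q or R = -Q (xc_eq), killed by β and a. -/
theorem Phi_dist (h : Dta A B Om j act m ψ l) (hU : UDat Om j act m ψ l μ a ρ τ H R D S) {β : 𝓞 F}
    (hβ : β ≠ 0) (hβa : IsCoprime β (a : 𝓞 F)) {S' : Finset (Pt (WAB A B) Ω)} (hS : TN act β S') :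
    ∃ C : Ω, C ≠ 0 ∧ ∀ X : Pt (WAB A B) Ω, act β X ≠ 0 →
      Phi S X * ∏ Q ∈ S', Phi S (X + Q) = C * Phi S (act β X) := by
  have hne : ∀ Q ∈ S, act β Q ≠ 0 := by
    intro Q hQ h0
    have h1 := (hU.memS Q).1 hQ
    exact h1.2 (ub2_cop act hβa h0 h1.1)
  have hβΩ : ak Ω β ≠ 0 := by
    intro h0
    apply hβ
    have h1 : (β : F) = 0 := (algebraMap F Ω).injective (by rw [map_zero]; exact h0)
    exact RingOfIntegers.coe_injective (h1.trans (map_zero (algebraMap (𝓞 F) F)).symm)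
  refine ⟨∏ Q ∈ S, (ak Ω β ^ 2 * ∏ R ∈ S', (xc R - xc Q)), ?_, ?_⟩
  · rw [Finset.prod_ne_zero_iff]
    intro Q hQ
    refine mul_ne_zero (pow_ne_zero 2 hβΩ) ?_
    rw [Finset.prod_ne_zero_iff]
    intro R hR h0
    have h1 := (hU.memS Q).1 hQ
    have h2 := (hS R).1 hR
    rcases xc_eq h2.2 h1.2 (sub_eq_zero.1 h0) with h3 | h3
    · rw [h3] at h2
      exact hne Q hQ h2.1
    · rw [h3, map_neg, neg_eq_zero] at h2
      exact hne Q hQ h2.1
  · intro X hX
    have h1 : ∏ Q ∈ S, (ak Ω β ^ 2 * (xc (act β X) - xc (act β Q)) * ∏ R ∈ S', (xc R - xc Q)) =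
        ∏ Q ∈ S, ((xc X - xc Q) * ∏ R ∈ S', (xc (X + R) - xc Q)) :=
      Finset.prod_congr rfl fun Q hQ => h.cma.e2 β S' hβ hS X Q hX (hne Q hQ)
    have h2 : ∏ Q ∈ S, (xc (act β X) - xc (act β Q)) = Phi S (act β X) :=
      prod_S hU hβa (fun T => xc (act β X) - xc T)
    rw [Finset.prod_mul_distrib (g := fun Q => ∏ R ∈ S', (xc (X + R) - xc Q)),
      Finset.prod_comm] at h1
    unfold Phi at h2 ⊢
    rw [← h1, ← h2, ← Finset.prod_mul_distrib]
    refine Finset.prod_congr rfl fun Q _ => ?_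
    ring

end H55K
end

-- from Lib.H55K.UB5B
section

/-! # H55K: elliptic units: the norm relation -/

open NumberField IsDedekindDomain WeierstrassCurve

namespace H55K

open H55P (IQ embF eF LF Per IsHecke Pt ac Inert Dec Nm)
open H35P (WAB Ker tt)


variable {F : Type} [Field F] [NumberField F] [IQ F] {A B : F} {Om : ℂ} {Ω : Type} [Field Ω] [DecidableEq Ω]
  [Algebra F Ω] {j : Ω →+* ℂ} {act : 𝓞 F →+* AddMonoid.End (Pt (WAB A B) Ω)} {m : Ideal (𝓞 F)}
  {ψ : Ideal (𝓞 F) →*₀ 𝓞 F} {l : ℕ} {μ : 𝓞 F} {a : ℕ} {ρ τ : Pt (WAB A B) Ω} {H R : Finset (𝓞 F)}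
  {D S : Finset (Pt (WAB A B) Ω)}

/-- Chunk UB5B (M). Phi_dist for X₀ + T and X₀ - T, X₀ in D: act β (X₀ ± T) ≠ 0, otherwise Nm μ * β kills T and so does l (D_ne; IsCoprime β l, hU.cop). prod over S' of Phi S (X₀ - T - R) = prod of Phi S (X₀ - T + R) (prod_neg). C cancels, prod_D. -/
theorem Xi_norm (h : Dta A B Om j act m ψ l) (hU : UDat Om j act m ψ l μ a ρ τ H R D S) {β : 𝓞 F}
    (hβ : β ≠ 0) (hP : Prm m ψ β) (hβa : IsCoprime β (a : 𝓞 F)) (hβl : IsCoprime β (l : 𝓞 F))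
    {S' : Finset (Pt (WAB A B) Ω)} (hS : TN act β S') {T : Pt (WAB A B) Ω} (hT : l • T = 0) (h0 : T ≠ 0) :
    Xi D S T * ∏ Q ∈ S', Xi D S (T + Q) = Xi D S (act β T) := by
  obtain ⟨C, hC, hCX⟩ := Phi_dist h hU hβ hβa hS
  have hlμ : IsCoprime μ (l : 𝓞 F) := by
    rw [← Ideal.isCoprime_span_singleton_iff, hU.mu]
    exact h.cop
  have hlμ' : IsCoprime (cj μ) (l : 𝓞 F) := by
    obtain ⟨u, v, huv⟩ := hlμ
    refine ⟨cj u, cj v, ?_⟩
    have h1 := congrArg cj huv
    rwa [map_add, map_mul, map_mul, cj_nat, map_one] at h1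
  have hcop : IsCoprime (β * (Nm μ : 𝓞 F)) (l : 𝓞 F) := by
    rw [← mul_cj]
    exact IsCoprime.mul_left hβl (IsCoprime.mul_left hlμ hlμ')
  have hT' : act (l : 𝓞 F) T = 0 := by
    rw [← ub2_nsmul]
    exact hT
  have hne : ∀ X ∈ D, ∀ Y : Pt (WAB A B) Ω, act (l : 𝓞 F) Y = 0 → Y ≠ 0 → act β (X + Y) ≠ 0 := by
    intro X hX Y hY hY0 h0
    apply hY0
    have h1 := (D_ne h hU hX).2
    rw [ub2_nsmul act] at h1
    refine ub2_cop act hcop ?_ hY
    have h2 : act (β * (Nm μ : 𝓞 F)) (X + Y) = 0 := by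
      rw [mul_comm, ← ub2_mul, h0, map_zero]
    rw [map_add, ← ub2_mul act _ _ X, h1, map_zero, zero_add] at h2
    exact h2
  have hmain : ∀ X ∈ D, (Phi S (X + T) / Phi S (X - T)) * ∏ Q ∈ S', (Phi S (X + (T + Q)) /
      Phi S (X - (T + Q))) = Phi S (act β X + act β T) / Phi S (act β X - act β T) := by
    intro X hX
    have h1 := hCX (X + T) (hne X hX T hT' h0)
    have h2 := hCX (X - T) (by
      rw [sub_eq_add_neg]
      exact hne X hX (-T) (by rw [map_neg, hT', neg_zero]) (neg_ne h0))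
    have h3 : ∏ Q ∈ S', Phi S (X - (T + Q)) = ∏ Q ∈ S', Phi S (X - T + Q) := by
      rw [← prod_neg hS]
      refine Finset.prod_congr rfl fun Q _ => ?_
      congr 1
      abel
    have h4 : ∏ Q ∈ S', Phi S (X + (T + Q)) = ∏ Q ∈ S', Phi S (X + T + Q) := by
      refine Finset.prod_congr rfl fun Q _ => ?_
      rw [add_assoc]
    rw [Finset.prod_div_distrib, h3, h4, div_mul_div_comm, h1, h2, map_add, map_sub,
      mul_div_mul_left _ _ hC]
  have hD := prod_D hU hP (fun Y => Phi S (Y + act β T) / Phi S (Y - act β T))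
  unfold Xi
  rw [← hD, Finset.prod_comm, ← Finset.prod_mul_distrib]
  exact Finset.prod_congr rfl hmain

end H55K
end

-- from Lib.H13Y.D1
section

open NumberField IsDedekindDomain WeierstrassCurve

namespace H13Y

open H55P
open H13Z (SelNon)

/-- Chunk YD1 (S/M). PORT of H55P.sel_base (Z11.lean) in the other direction: φ from base_iso, c' s = φ⁻¹ (c t) if s = t.restrictScalars k with t in K.fixingSubgroup (Z11_lift; t is determined by s), 0 otherwise. Continuity: L over F finite from c.cont, L.restrictScalars k is finite over k (FiniteDimensional.trans). Local conditions: Dec V (t.restrictScalars k) iff Dec V t (same function). The class is not the class of T: otherwise c t = ac t (φ T) - φ T. -/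
theorem non_base {k F Ω : Type} [Field k] [Field F] [Field Ω] [DecidableEq Ω] [Algebra k F] [Algebra k Ω]
    [Algebra F Ω] [IsScalarTower k F Ω] [FiniteDimensional k F] (W : WeierstrassCurve k) (p : ℕ)
    (K : IntermediateField F Ω) [FiniteDimensional F K] (hS : SelNon (W⁄F) p K) :
    SelNon W p (K.restrictScalars k) := by
  classical
  obtain ⟨c, hc, hp, hV, hT⟩ := hS
  obtain ⟨φ, hφ⟩ := base_iso (F := F) (Ω := Ω) W
  obtain ⟨c', hc'⟩ : ∃ c' : (Ω ≃ₐ[k] Ω) → Pt W Ω, ∀ t : Ω ≃ₐ[F] Ω, t ∈ K.fixingSubgroup →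
      c' (t.restrictScalars k) = φ.symm (c t) := by
    refine ⟨fun s => if h : ∃ t : Ω ≃ₐ[F] Ω, t.restrictScalars k = s ∧ t ∈ K.fixingSubgroup then
      φ.symm (c h.choose) else 0, fun t ht => ?_⟩
    have h : ∃ t' : Ω ≃ₐ[F] Ω, t'.restrictScalars k = t.restrictScalars k ∧ t' ∈ K.fixingSubgroup :=
      ⟨t, rfl, ht⟩
    have h2 : h.choose = t := AlgEquiv.restrictScalars_injective k h.choose_spec.1
    show (if h : ∃ t' : Ω ≃ₐ[F] Ω, t'.restrictScalars k = t.restrictScalars k ∧ t' ∈ K.fixingSubgroup then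
      φ.symm (c h.choose) else 0) = _
    rw [dif_pos h, h2]
  have hac : ∀ (t : Ω ≃ₐ[F] Ω) (Q : Pt (W⁄F) Ω), ac W (t.restrictScalars k) (φ.symm Q) =
      φ.symm (ac (W⁄F) t Q) := by
    intro t Q
    apply φ.injective
    rw [hφ, AddEquiv.apply_symm_apply, AddEquiv.apply_symm_apply]
  refine ⟨c', ⟨?_, ?_⟩, ?_, ?_, ?_⟩
  · intro s hs s' hs'
    obtain ⟨t, rfl, ht⟩ := Z11_lift K s hs
    obtain ⟨t', rfl, ht'⟩ := Z11_lift K s' hs'
    have h2 : (t.restrictScalars k) * (t'.restrictScalars k) = (t * t').restrictScalars k := rfl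
    rw [h2, hc' _ (mul_mem ht ht'), hc' _ ht, hc' _ ht', hc.mul t ht t' ht', map_add, hac]
  · obtain ⟨L, hL, hLc⟩ := hc.cont
    refine ⟨L.restrictScalars k, ?_, ?_⟩
    · have : FiniteDimensional k L := FiniteDimensional.trans k F L
      exact this
    · intro s hs hsL
      obtain ⟨t, rfl, ht⟩ := Z11_lift K s hs
      have htL : t ∈ L.fixingSubgroup := by
        rw [IntermediateField.mem_fixingSubgroup_iff] at hsL ⊢
        exact hsL
      rw [hc' _ ht, hLc _ ht htL, map_zero]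
  · intro s hs
    obtain ⟨t, rfl, ht⟩ := Z11_lift K s hs
    rw [hc' _ ht, ← map_nsmul, hp _ ht, map_zero]
  · intro V hVt
    obtain ⟨P, hP⟩ := hV V hVt
    refine ⟨φ.symm P, fun s hs hD => ?_⟩
    obtain ⟨t, rfl, ht⟩ := Z11_lift K s hs
    have hDt : Dec V t := fun x => hD x
    rw [hc' _ ht, hP t ht hDt, map_sub, hac]
  · rintro ⟨T, hpT, hcT⟩
    refine hT ⟨φ T, ?_, fun t ht => ?_⟩
    · rw [← map_nsmul, hpT, map_zero]
    · have h1 := hcT _ (Z11_mem (k := k) K t ht)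
      rw [hc' _ ht] at h1
      have h2 := congrArg φ h1
      rw [AddEquiv.apply_symm_apply, map_sub, hφ] at h2
      exact h2

end H13Y
end

-- from Lib.H13Y.D2
section

open NumberField IsDedekindDomain WeierstrassCurve

namespace H13Y

open H55P
open H13Z (SelNon)

/-- Chunk YD3 (S/M), pure algebra. G acts on M, D a subgroup (as a set of pairs: DD = the big group, D' the small one, normal of index at most 2 in it), C a cocycle on DD killed by the odd number p, C = coboundary of R on D'. Then C is a coboundary on DD. If all elements of DD are in D' take R. Otherwise σ in DD, not in D'. C' s = C s - (a s R - R) is a cocycle, zero on D'. m = C' σ.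
For s in D': C' (s σ) = a s m, C' (s σ) = C' (σ (σ⁻¹ s σ)) = m: a s m = m. C' (σ σ) = 0 (σ σ in D'): m + a σ m = 0. So 2 C' s = a s (-m) - (-m) for s in D' and for s = s' σ (every s in DD not in D' is s' σ with s' in D'). p = 2 k + 1: C s = p C s - k (2 C s) = - k (a s Y - Y), Y = 2 R - m. Point: -(k) Y. -/
theorem cob_two {G M : Type} [Group G] [AddCommGroup M] (a : G → M →+ M) (ha1 : ∀ m, a 1 m = m)
    (ha : ∀ s t m, a (s * t) m = a s (a t m)) (DD D' : Subgroup G) (hle : D' ≤ DD)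
    (hn : ∀ s ∈ DD, ∀ t ∈ D', s⁻¹ * t * s ∈ D') (h2 : ∀ s ∈ DD, s ∉ D' → ∀ t ∈ DD, t ∉ D' → s * t⁻¹ ∈ D')
    (h2' : ∀ s ∈ DD, s ∉ D' → s * s ∈ D')
    (C : G → M) (hC : ∀ s ∈ DD, ∀ t ∈ DD, C (s * t) = C s + a s (C t)) {p : ℕ} (hp : p % 2 = 1)
    (hpC : ∀ s ∈ DD, p • C s = 0) (h : ∃ R, ∀ s ∈ D', C s = a s R - R) :
    ∃ P, ∀ s ∈ DD, C s = a s P - P := by
  obtain ⟨R, hR⟩ := h
  by_cases hall : ∀ s ∈ DD, s ∈ D'
  · exact ⟨R, fun s hs => hR s (hall s hs)⟩
  push Not at hall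
  obtain ⟨σ, hσ, hσ'⟩ := hall
  obtain ⟨C', hC'⟩ : ∃ C' : G → M, ∀ s, C' s = C s - (a s R - R) := ⟨_, fun _ => rfl⟩
  have hmul : ∀ s ∈ DD, ∀ t ∈ DD, C' (s * t) = C' s + a s (C' t) := by
    intro s hs t ht
    rw [hC', hC', hC', hC s hs t ht, ha, map_sub, map_sub]
    abel
  have hz : ∀ s ∈ D', C' s = 0 := by
    intro s hs
    rw [hC', hR s hs, sub_self]
  obtain ⟨m, hm⟩ : ∃ m, m = C' σ := ⟨_, rfl⟩
  have hfix : ∀ s ∈ D', a s m = m := by
    intro s hs
    have h1 := hmul s (hle hs) σ hσ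
    have h3 := hmul σ hσ (σ⁻¹ * s * σ) (hle (hn σ hσ s hs))
    have e : σ * (σ⁻¹ * s * σ) = s * σ := by group
    rw [e, h1, hz s hs, hz _ (hn σ hσ s hs), map_zero, zero_add, add_zero, ← hm] at h3
    exact h3
  have hneg : a σ m = -m := by
    have h1 := hmul σ hσ σ hσ
    rw [hz _ (h2' σ hσ hσ'), ← hm] at h1
    exact (neg_eq_of_add_eq_zero_right h1.symm).symm
  have htwo : ∀ s ∈ DD, C' s + C' s = a s (-m) - (-m) := by
    intro s hs
    by_cases hs' : s ∈ D'
    · rw [hz s hs', map_neg, hfix s hs', add_zero, sub_self]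
    · have h1 : s * σ⁻¹ ∈ D' := h2 s hs hs' σ hσ hσ'
      have e : s = (s * σ⁻¹) * σ := by group
      have h3 : C' s = m := by
        rw [e, hmul _ (hle h1) σ hσ, hz _ h1, ← hm, hfix _ h1, zero_add]
      have h4 : a s m = -m := by
        rw [e, ha, hneg, map_neg, hfix _ h1]
      rw [h3, map_neg, h4, neg_neg, sub_neg_eq_add]
  obtain ⟨k, hk⟩ : ∃ k : ℕ, p = 2 * k + 1 := ⟨p / 2, by omega⟩
  refine ⟨-(k • (R + R - m)), fun s hs => ?_⟩
  have h5 : C s + C s = a s (R + R - m) - (R + R - m) := by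
    have h6 := htwo s hs
    rw [hC', map_neg] at h6
    rw [map_sub, map_add]
    have h7 : C s + C s = (C s - (a s R - R) + (C s - (a s R - R))) + (a s R - R) + (a s R - R) := by abel
    rw [h7, h6]
    abel
  have h6 := hpC s hs
  rw [hk, add_smul, one_smul, mul_comm, mul_smul, two_smul, h5] at h6
  rw [map_neg, map_nsmul]
  have h7 : C s = -(k • (a s (R + R - m) - (R + R - m))) := (neg_eq_of_add_eq_zero_right h6).symm
  rw [h7, smul_sub]
  abel

/-- the action of a product -/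
theorem YD2_mul {k : Type} [Field k] {Ω : Type} [Field Ω] [DecidableEq Ω] [Algebra k Ω]
    (W : WeierstrassCurve k) (s t : Ω ≃ₐ[k] Ω) (P : Pt W Ω) : ac W (s * t) P = ac W s (ac W t P) := by
  cases P <;> rfl

theorem YD2_one {k : Type} [Field k] {Ω : Type} [Field Ω] [DecidableEq Ω] [Algebra k Ω]
    (W : WeierstrassCurve k) (P : Pt W Ω) : ac W (1 : Ω ≃ₐ[k] Ω) P = P := by
  cases P <;> rfl

/-- Chunk YD2 (M). Corestriction in index 2. H = K₁.fixingSubgroup, τ in K.fixingSubgroup not in H; K.fixingSubgroup is the union of H and τ H (h2). C s = d s + τ d(τ⁻¹ s τ) for s in H, C s = τ d(τ⁻¹ s) + d(s τ) for s not in H. The cocycle condition: four cases, direct. Continuity: L from d.cont, the normal closure L' of L ⊔ K₁ over k (finite): s in L'.fixingSubgroup is in H, τ⁻¹ s τ is in L'.fixingSubgroup: both terms are 0.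
Local conditions: V, V' = V.comap τ (x in V' iff τ x in V; V' ≠ ⊤): P, P' for d at V and V'. For s in H, Dec V s: τ⁻¹ s τ in H, Dec V' (τ⁻¹ s τ): C s = (s P - P) + τ (τ⁻¹ s τ P' - P') = s R - R with R = P + τ P'. cob_two for DD = elements of K.fixingSubgroup in Dec V, D' = H in it. -/
theorem cor_two {k : Type} [Field k] {Ω : Type} [Field Ω] [DecidableEq Ω] [Algebra k Ω] [IsAlgClosure k Ω]
    [CharZero k] (W : WeierstrassCurve k) {p : ℕ} (hp : p % 2 = 1) {K K₁ : IntermediateField k Ω}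
    [FiniteDimensional k K₁] (hK : K ≤ K₁) (hn : ∀ s ∈ K.fixingSubgroup, ∀ x ∈ K₁, s x ∈ K₁)
    {τ : Ω ≃ₐ[k] Ω} (hτ : τ ∈ K.fixingSubgroup) (hτ1 : τ ∉ K₁.fixingSubgroup)
    (h2 : ∀ s ∈ K.fixingSubgroup, s ∉ K₁.fixingSubgroup → s * τ ∈ K₁.fixingSubgroup ∧
      τ⁻¹ * s ∈ K₁.fixingSubgroup)
    {d : (Ω ≃ₐ[k] Ω) → Pt W Ω} (hd : Coc W K₁ d) (hpd : ∀ s ∈ K₁.fixingSubgroup, p • d s = 0)
    (hV : ∀ V : ValuationSubring Ω, V ≠ ⊤ → ∃ P : Pt W Ω, ∀ s ∈ K₁.fixingSubgroup, Dec V s →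
      d s = ac W s P - P) :
    ∃ C : (Ω ≃ₐ[k] Ω) → Pt W Ω, Coc W K C ∧ (∀ s ∈ K.fixingSubgroup, p • C s = 0) ∧
      (∀ V : ValuationSubring Ω, V ≠ ⊤ → ∃ P : Pt W Ω, ∀ s ∈ K.fixingSubgroup, Dec V s →
        C s = ac W s P - P) ∧
      ∀ s ∈ K₁.fixingSubgroup, C s = d s + ac W τ (d (τ⁻¹ * s * τ)) := by
  classical
  have hle : K₁.fixingSubgroup ≤ K.fixingSubgroup := IntermediateField.fixingSubgroup_antitone hK
  have hnor : ∀ s ∈ K.fixingSubgroup, ∀ t ∈ K₁.fixingSubgroup, s⁻¹ * t * s ∈ K₁.fixingSubgroup := by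
    intro s hs t ht
    rw [IntermediateField.mem_fixingSubgroup_iff] at ht ⊢
    intro x hx
    have e : (s⁻¹ * t * s) x = s⁻¹ (t (s x)) := rfl
    rw [e, ht _ (hn s hs x hx)]
    exact s.symm_apply_apply x
  have hτi : ∀ t ∈ K₁.fixingSubgroup, τ⁻¹ * t * τ ∈ K₁.fixingSubgroup := hnor τ hτ
  obtain ⟨C, hC⟩ : ∃ C : (Ω ≃ₐ[k] Ω) → Pt W Ω, ∀ s, C s = if s ∈ K₁.fixingSubgroup then
      d s + ac W τ (d (τ⁻¹ * s * τ)) else ac W τ (d (τ⁻¹ * s)) + d (s * τ) := ⟨_, fun _ => rfl⟩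
  have hCy : ∀ s ∈ K₁.fixingSubgroup, C s = d s + ac W τ (d (τ⁻¹ * s * τ)) := by
    intro s hs
    rw [hC, if_pos hs]
  have hCn : ∀ s, s ∉ K₁.fixingSubgroup → C s = ac W τ (d (τ⁻¹ * s)) + d (s * τ) := by
    intro s hs
    rw [hC, if_neg hs]
  have hmul : ∀ s ∈ K.fixingSubgroup, ∀ t ∈ K.fixingSubgroup, C (s * t) = C s + ac W s (C t) := by
    intro s hs t ht
    by_cases hs1 : s ∈ K₁.fixingSubgroup
    · by_cases ht1 : t ∈ K₁.fixingSubgroup
      · rw [hCy _ (mul_mem hs1 ht1), hCy _ hs1, hCy _ ht1, hd.mul s hs1 t ht1]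
        have e : τ⁻¹ * (s * t) * τ = (τ⁻¹ * s * τ) * (τ⁻¹ * t * τ) := by group
        rw [e, hd.mul _ (hτi s hs1) _ (hτi t ht1), map_add, map_add, ← YD2_mul, ← YD2_mul]
        have e2 : τ * (τ⁻¹ * s * τ) = s * τ := by group
        rw [e2]
        abel
      · obtain ⟨h3, h4⟩ := h2 t ht ht1
        have hst : s * t ∉ K₁.fixingSubgroup := fun h => ht1 ((Subgroup.mul_mem_cancel_left _ hs1).1 h)
        rw [hCn _ hst, hCy _ hs1, hCn _ ht1]
        have e1 : τ⁻¹ * (s * t) = (τ⁻¹ * s * τ) * (τ⁻¹ * t) := by group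
        have e2 : s * t * τ = s * (t * τ) := by group
        rw [e1, e2, hd.mul _ (hτi s hs1) _ h4, hd.mul _ hs1 _ h3, map_add, map_add, ← YD2_mul, ← YD2_mul]
        have e3 : τ * (τ⁻¹ * s * τ) = s * τ := by group
        rw [e3]
        abel
    · obtain ⟨h3, h4⟩ := h2 s hs hs1
      by_cases ht1 : t ∈ K₁.fixingSubgroup
      · have hst : s * t ∉ K₁.fixingSubgroup := fun h => hs1 ((Subgroup.mul_mem_cancel_right _ ht1).1 h)
        rw [hCn _ hst, hCn _ hs1, hCy _ ht1]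
        have e1 : τ⁻¹ * (s * t) = (τ⁻¹ * s) * t := by group
        have e2 : s * t * τ = (s * τ) * (τ⁻¹ * t * τ) := by group
        rw [e1, e2, hd.mul _ h4 _ ht1, hd.mul _ h3 _ (hτi t ht1), map_add, map_add, ← YD2_mul, ← YD2_mul]
        have e3 : τ * (τ⁻¹ * s) = s := by group
        rw [e3]
        abel
      · obtain ⟨h5, h6⟩ := h2 t ht ht1
        have hst : s * t ∈ K₁.fixingSubgroup := by
          have e : s * t = (s * τ) * (τ⁻¹ * t) := by group
          rw [e]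
          exact mul_mem h3 h6
        rw [hCy _ hst, hCn _ hs1, hCn _ ht1]
        have e1 : s * t = (s * τ) * (τ⁻¹ * t) := by group
        have e2 : τ⁻¹ * (s * t) * τ = (τ⁻¹ * s) * (t * τ) := by group
        rw [e2, e1, hd.mul _ h3 _ h6, hd.mul _ h4 _ h5, map_add, map_add, ← YD2_mul, ← YD2_mul]
        have e3 : τ * (τ⁻¹ * s) = s := by group
        rw [e3]
        abel
  have hpC : ∀ s ∈ K.fixingSubgroup, p • C s = 0 := by
    intro s hs
    by_cases hs1 : s ∈ K₁.fixingSubgroup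
    · rw [hCy _ hs1, smul_add, ← map_nsmul, hpd s hs1, hpd _ (hτi s hs1), map_zero, add_zero]
    · obtain ⟨h3, h4⟩ := h2 s hs hs1
      rw [hCn _ hs1, smul_add, ← map_nsmul, hpd _ h3, hpd _ h4, map_zero, add_zero]
  refine ⟨C, ⟨hmul, ?_⟩, hpC, ?_, hCy⟩
  · obtain ⟨L, hL, hLd⟩ := hd.cont
    let em := IntermediateField.intermediateFieldMap τ L
    have hLm : FiniteDimensional k (L.map τ.toAlgHom) := Module.Finite.equiv em.toLinearEquiv
    refine ⟨(L ⊔ K₁) ⊔ L.map τ.toAlgHom, IntermediateField.finiteDimensional_sup _ _, fun s hs hsL => ?_⟩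
    rw [IntermediateField.fixingSubgroup_sup, IntermediateField.fixingSubgroup_sup] at hsL
    obtain ⟨⟨hs1, hs2⟩, hs3⟩ := hsL
    have h7 : τ⁻¹ * s * τ ∈ L.fixingSubgroup := by
      rw [IntermediateField.mem_fixingSubgroup_iff]
      intro x hx
      have e : (τ⁻¹ * s * τ) x = τ⁻¹ (s (τ x)) := rfl
      have h8 : s (τ x) = τ x := (IntermediateField.mem_fixingSubgroup_iff _ s).1 hs3 (τ x) ⟨x, hx, rfl⟩
      rw [e, h8]
      exact τ.symm_apply_apply x
    rw [hCy s hs2, hLd s hs2 hs1, hLd _ (hτi s hs2) h7, map_zero, add_zero]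
  · intro V hVt
    obtain ⟨P, hP⟩ := hV V hVt
    have hm : ∀ x, x ∈ V.comap (τ : Ω →+* Ω) ↔ τ x ∈ V := fun x => ValuationSubring.mem_comap
    have hV' : V.comap (τ : Ω →+* Ω) ≠ ⊤ := by
      intro h
      apply hVt
      refine eq_top_iff.2 fun x _ => ?_
      have h1 : τ.symm x ∈ V.comap (τ : Ω →+* Ω) := by
        rw [h]
        exact ValuationSubring.mem_top _
      rwa [hm, τ.apply_symm_apply] at h1
    obtain ⟨P', hP'⟩ := hV _ hV'
    let DD : Subgroup (Ω ≃ₐ[k] Ω) :=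
      { carrier := {s | s ∈ K.fixingSubgroup ∧ Dec V s}
        mul_mem' := by
          rintro s t ⟨hs, hs'⟩ ⟨ht, ht'⟩
          exact ⟨mul_mem hs ht, fun x => (hs' (t x)).trans (ht' x)⟩
        one_mem' := ⟨one_mem _, fun x => Iff.rfl⟩
        inv_mem' := by
          rintro s ⟨hs, hs'⟩
          refine ⟨inv_mem hs, fun x => ?_⟩
          have h1 := hs' (s⁻¹ x)
          have e : s (s⁻¹ x) = x := s.apply_symm_apply x
          rw [e] at h1
          exact h1.symm }
    have hDD : ∀ s, s ∈ DD ↔ s ∈ K.fixingSubgroup ∧ Dec V s := fun _ => Iff.rfl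
    have hnD : ∀ s ∈ DD, s ∉ DD ⊓ K₁.fixingSubgroup → s ∉ K₁.fixingSubgroup :=
      fun s hs h h' => h (Subgroup.mem_inf.2 ⟨hs, h'⟩)
    have hcob := cob_two (fun s : Ω ≃ₐ[k] Ω => ac W s) (YD2_one W) (fun s t m => YD2_mul W s t m) DD
      (DD ⊓ K₁.fixingSubgroup) inf_le_left
      (fun s hs t ht => Subgroup.mem_inf.2 ⟨mul_mem (mul_mem (inv_mem hs) ht.1) hs,
        hnor s hs.1 t ht.2⟩)
      (fun s hs hs' t ht ht' => Subgroup.mem_inf.2 ⟨mul_mem hs (inv_mem ht), by
        have e : s * t⁻¹ = (s * τ) * (t * τ)⁻¹ := by group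
        rw [e]
        exact mul_mem (h2 s hs.1 (hnD s hs hs')).1 (inv_mem (h2 t ht.1 (hnD t ht ht')).1)⟩)
      (fun s hs hs' => Subgroup.mem_inf.2 ⟨mul_mem hs hs, by
        have e : s * s = (s * τ) * (τ⁻¹ * s) := by group
        rw [e]
        exact mul_mem (h2 s hs.1 (hnD s hs hs')).1 (h2 s hs.1 (hnD s hs hs')).2⟩)
      C (fun s hs t ht => hmul s hs.1 t ht.1) hp (fun s hs => hpC s hs.1)
      ⟨P + ac W τ P', fun s hs => by
        have hs1 : s ∈ K₁.fixingSubgroup := hs.2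
        have hdec : Dec V s := hs.1.2
        have h8 : Dec (V.comap (τ : Ω →+* Ω)) (τ⁻¹ * s * τ) := by
          intro x
          rw [hm, hm]
          have e : τ ((τ⁻¹ * s * τ) x) = s (τ x) := τ.apply_symm_apply _
          rw [e]
          exact hdec (τ x)
        rw [hCy s hs1, hP s hs1 hdec, hP' _ (hτi s hs1) h8, map_sub, map_add, ← YD2_mul, ← YD2_mul]
        have e3 : τ * (τ⁻¹ * s * τ) = s * τ := by group
        rw [e3]
        abel⟩
    obtain ⟨R, hR⟩ := hcob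
    exact ⟨R, fun s hs hs' => hR s ⟨hs, hs'⟩⟩

/-- Chunk YD4 (S/M). Descent of a nonzero Selmer class along the quadratic extension K₁ = K(ω), with the help of the endomorphism S = multiplication by the square root of -3. If every s in K.fixingSubgroup fixes ω then the groups of K and K₁ are equal: clear. Otherwise τ with τ ω ≠ ω. cor_two for d = c and for d = S ∘ c (S commutes with K₁.fixingSubgroup: h1; local conditions with S P): C₁, C₂.
If C₁ or C₂ is not a coboundary of a point killed by p on K.fixingSubgroup: done. Otherwise for s in K₁.fixingSubgroup: c s + τ c(τ⁻¹ s τ) = s T₁ - T₁, S c s - S (τ c(τ⁻¹ s τ)) = s T₂ - T₂ (h2). So 2 S c s = s (S T₁ + T₂) - (S T₁ + T₂), and applying S: -6 c s = s Y - Y, Y = S (S T₁ + T₂), p Y = 0. p is prime to 6: u with -6 u = 1 modulo p: c s = s (u Y) - u Y: contradiction. -/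
theorem non_desc {k : Type} [Field k] {Ω : Type} [Field Ω] [DecidableEq Ω] [Algebra k Ω] [IsAlgClosure k Ω]
    [CharZero k] (W : WeierstrassCurve k) {p : ℕ} (hp : p.Prime) (h5 : 5 ≤ p)
    {K K₁ : IntermediateField k Ω} [FiniteDimensional k K₁] (hK : K ≤ K₁)
    (hn : ∀ s ∈ K.fixingSubgroup, ∀ x ∈ K₁, s x ∈ K₁) (S : Pt W Ω →+ Pt W Ω)
    (hS : ∀ P, S (S P) = -(3 • P)) (ω ω' : Ω)
    (hω : ∀ s ∈ K.fixingSubgroup, s ∈ K₁.fixingSubgroup ↔ s ω = ω)
    (hω2 : ∀ s : Ω ≃ₐ[k] Ω, s ω = ω ∨ s ω = ω') (hω3 : ∀ s : Ω ≃ₐ[k] Ω, s ω = ω' → s ω' = ω)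
    (h1 : ∀ s : Ω ≃ₐ[k] Ω, s ω = ω → ∀ P, ac W s (S P) = S (ac W s P))
    (h2 : ∀ s : Ω ≃ₐ[k] Ω, s ω ≠ ω → ∀ P, ac W s (S P) = -S (ac W s P)) (h : SelNon W p K₁) :
    SelNon W p K := by
  have hle : K₁.fixingSubgroup ≤ K.fixingSubgroup := IntermediateField.fixingSubgroup_antitone hK
  obtain ⟨c, hc, hpc, hV, hT⟩ := h
  by_cases hall : ∀ s ∈ K.fixingSubgroup, s ω = ω
  · have hiff : ∀ s, s ∈ K.fixingSubgroup ↔ s ∈ K₁.fixingSubgroup :=
      fun s => ⟨fun hs => (hω s hs).2 (hall s hs), fun hs => hle hs⟩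
    refine ⟨c, ⟨fun s hs t ht => hc.mul s ((hiff s).1 hs) t ((hiff t).1 ht), ?_⟩,
      fun s hs => hpc s ((hiff s).1 hs), ?_, ?_⟩
    · obtain ⟨L, hL, h3⟩ := hc.cont
      exact ⟨L, hL, fun s hs => h3 s ((hiff s).1 hs)⟩
    · intro V hVt
      obtain ⟨P, hP⟩ := hV V hVt
      exact ⟨P, fun s hs => hP s ((hiff s).1 hs)⟩
    · rintro ⟨T, hT1, hT2⟩
      exact hT ⟨T, hT1, fun s hs => hT2 s ((hiff s).2 hs)⟩
  push Not at hall
  obtain ⟨τ, hτ, hτω⟩ := hall
  have hτ1 : τ ∉ K₁.fixingSubgroup := fun h => hτω ((hω τ hτ).1 h)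
  have hτ' : τ ω = ω' := (hω2 τ).resolve_left hτω
  have h22 : ∀ s ∈ K.fixingSubgroup, s ∉ K₁.fixingSubgroup → s * τ ∈ K₁.fixingSubgroup ∧
      τ⁻¹ * s ∈ K₁.fixingSubgroup := by
    intro s hs hs1
    have hsω : s ω = ω' := (hω2 s).resolve_left fun h => hs1 ((hω s hs).2 h)
    constructor
    · refine (hω _ (mul_mem hs hτ)).2 ?_
      show s (τ ω) = ω
      rw [hτ']
      exact hω3 s hsω
    · refine (hω _ (mul_mem (inv_mem hτ) hs)).2 ?_
      show τ⁻¹ (s ω) = ω
      rw [hsω, ← hτ']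
      exact τ.symm_apply_apply ω
  have hfixω : ∀ s ∈ K₁.fixingSubgroup, s ω = ω := fun s hs => (hω s (hle hs)).1 hs
  have hp2 : p % 2 = 1 := by
    rcases hp.eq_two_or_odd with h3 | h3
    · omega
    · exact h3
  by_contra hcon
  have key : ∀ C : (Ω ≃ₐ[k] Ω) → Pt W Ω, Coc W K C → (∀ s ∈ K.fixingSubgroup, p • C s = 0) →
      (∀ V : ValuationSubring Ω, V ≠ ⊤ → ∃ P : Pt W Ω, ∀ s ∈ K.fixingSubgroup, Dec V s →
        C s = ac W s P - P) → ∃ T : Pt W Ω, p • T = 0 ∧ ∀ s ∈ K.fixingSubgroup, C s = ac W s T - T := by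
    intro C h3 h4 h5
    by_contra h6
    exact hcon ⟨C, h3, h4, h5, h6⟩
  obtain ⟨C₁, a1, a2, a3, a4⟩ := cor_two W hp2 hK hn hτ hτ1 h22 hc hpc hV
  have hSc : Coc W K₁ fun s => S (c s) := by
    refine ⟨fun s hs t ht => ?_, ?_⟩
    · rw [hc.mul s hs t ht, map_add, h1 s (hfixω s hs)]
    · obtain ⟨L, hL, h3⟩ := hc.cont
      exact ⟨L, hL, fun s hs hs' => by rw [h3 s hs hs', map_zero]⟩
  obtain ⟨C₂, b1, b2, b3, b4⟩ := cor_two W hp2 hK hn hτ hτ1 h22 hSc
    (fun s hs => by rw [← map_nsmul, hpc s hs, map_zero]) (fun V hVt => by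
      obtain ⟨P, hP⟩ := hV V hVt
      exact ⟨S P, fun s hs hs' => by rw [hP s hs hs', map_sub, h1 s (hfixω s hs)]⟩)
  obtain ⟨T₁, hT₁, hT₁'⟩ := key C₁ a1 a2 a3
  obtain ⟨T₂, hT₂, hT₂'⟩ := key C₂ b1 b2 b3
  obtain ⟨Y, hY⟩ : ∃ Y, Y = S (S T₁ + T₂) := ⟨_, rfl⟩
  have hpY : p • Y = 0 := by
    rw [hY, ← map_nsmul, smul_add, ← map_nsmul, hT₁, hT₂, map_zero, add_zero, map_zero]
  have hmain : ∀ s ∈ K₁.fixingSubgroup, -(6 • c s) = ac W s Y - Y := by
    intro s hs
    have e1 := a4 s hs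
    have e2 := b4 s hs
    rw [hT₁' s (hle hs)] at e1
    rw [hT₂' s (hle hs), h2 τ hτω] at e2
    have e3 := congrArg S e1
    rw [map_sub, map_add, ← h1 s (hfixω s hs)] at e3
    have e4 : S (c s) + S (c s) = ac W s (S T₁ + T₂) - (S T₁ + T₂) := by
      rw [map_add]
      have e5 : ac W s (S T₁) + ac W s T₂ - (S T₁ + T₂) = (ac W s (S T₁) - S T₁) + (ac W s T₂ - T₂) := by
        abel
      rw [e5, e3, e2]
      abel
    have e6 := congrArg S e4
    rw [map_add, hS, map_sub, ← h1 s (hfixω s hs), ← hY] at e6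
    rw [← e6]
    abel
  have hcop : IsCoprime ((p : ℕ) : ℤ) (6 : ℤ) := by
    have h3 : Nat.Coprime p 6 := by
      rw [Nat.Prime.coprime_iff_not_dvd hp]
      intro h4
      have h5' := Nat.le_of_dvd (by norm_num) h4
      have h6 : p = 5 ∨ p = 6 := by omega
      rcases h6 with rfl | rfl
      · omega
      · norm_num at hp
    exact_mod_cast (Nat.isCoprime_iff_coprime.2 h3)
  obtain ⟨v, u, huv⟩ := hcop
  refine hT ⟨(-u) • Y, ?_, fun s hs => ?_⟩
  · rw [smul_comm, hpY, smul_zero]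
  · have h3 : c s = (v * (p : ℤ) + u * 6) • c s := by rw [huv, one_smul]
    have h4 : (v * (p : ℤ)) • c s = 0 := by
      rw [mul_smul, natCast_zsmul, hpc s hs, smul_zero]
    have h5 : (u * 6) • c s = (-u) • (-(6 • c s)) := by
      rw [mul_smul, neg_smul, smul_neg, neg_neg]
      congr 1
    rw [h3, add_smul, h4, zero_add, h5, hmain s hs, smul_sub, map_zsmul]

end H13Y
end

-- from Lib.H55K.NK1
section

/-! # H55K: descent of a nonzero Selmer class along a quadratic extension (port of H13Y.non_desc with the square root of -d) -/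

open NumberField IsDedekindDomain WeierstrassCurve

namespace H55K.TQ

open H55P (Pt ac Inert Dec Coc)
open H13Z (SelNon)
open H13Y (cor_two)

theorem nk_desc {k : Type} [Field k] {Ω : Type} [Field Ω] [DecidableEq Ω] [Algebra k Ω] [IsAlgClosure k Ω]
    [CharZero k] (W : WeierstrassCurve k) {p : ℕ} (hp : p.Prime) (hp2 : p ≠ 2)
    {K K₁ : IntermediateField k Ω} [FiniteDimensional k K₁] (hK : K ≤ K₁)
    (hn : ∀ s ∈ K.fixingSubgroup, ∀ x ∈ K₁, s x ∈ K₁) (S : Pt W Ω →+ Pt W Ω) (d : ℕ) (hd : ¬ p ∣ d)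
    (hS : ∀ P, S (S P) = -(d • P)) (ω ω' : Ω)
    (hω : ∀ s ∈ K.fixingSubgroup, s ∈ K₁.fixingSubgroup ↔ s ω = ω)
    (hω2 : ∀ s : Ω ≃ₐ[k] Ω, s ω = ω ∨ s ω = ω') (hω3 : ∀ s : Ω ≃ₐ[k] Ω, s ω = ω' → s ω' = ω)
    (h1 : ∀ s : Ω ≃ₐ[k] Ω, s ω = ω → ∀ P, ac W s (S P) = S (ac W s P))
    (h2 : ∀ s : Ω ≃ₐ[k] Ω, s ω ≠ ω → ∀ P, ac W s (S P) = -S (ac W s P)) (h : SelNon W p K₁) :
    SelNon W p K := by
  have hle : K₁.fixingSubgroup ≤ K.fixingSubgroup := IntermediateField.fixingSubgroup_antitone hK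
  obtain ⟨c, hc, hpc, hV, hT⟩ := h
  by_cases hall : ∀ s ∈ K.fixingSubgroup, s ω = ω
  · have hiff : ∀ s, s ∈ K.fixingSubgroup ↔ s ∈ K₁.fixingSubgroup :=
      fun s => ⟨fun hs => (hω s hs).2 (hall s hs), fun hs => hle hs⟩
    refine ⟨c, ⟨fun s hs t ht => hc.mul s ((hiff s).1 hs) t ((hiff t).1 ht), ?_⟩,
      fun s hs => hpc s ((hiff s).1 hs), ?_, ?_⟩
    · obtain ⟨L, hL, h3⟩ := hc.cont
      exact ⟨L, hL, fun s hs => h3 s ((hiff s).1 hs)⟩
    · intro V hVt
      obtain ⟨P, hP⟩ := hV V hVt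
      exact ⟨P, fun s hs => hP s ((hiff s).1 hs)⟩
    · rintro ⟨T, hT1, hT2⟩
      exact hT ⟨T, hT1, fun s hs => hT2 s ((hiff s).2 hs)⟩
  push Not at hall
  obtain ⟨τ, hτ, hτω⟩ := hall
  have hτ1 : τ ∉ K₁.fixingSubgroup := fun h => hτω ((hω τ hτ).1 h)
  have hτ' : τ ω = ω' := (hω2 τ).resolve_left hτω
  have h22 : ∀ s ∈ K.fixingSubgroup, s ∉ K₁.fixingSubgroup → s * τ ∈ K₁.fixingSubgroup ∧
      τ⁻¹ * s ∈ K₁.fixingSubgroup := by
    intro s hs hs1
    have hsω : s ω = ω' := (hω2 s).resolve_left fun h => hs1 ((hω s hs).2 h)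
    constructor
    · refine (hω _ (mul_mem hs hτ)).2 ?_
      show s (τ ω) = ω
      rw [hτ']
      exact hω3 s hsω
    · refine (hω _ (mul_mem (inv_mem hτ) hs)).2 ?_
      show τ⁻¹ (s ω) = ω
      rw [hsω, ← hτ']
      exact τ.symm_apply_apply ω
  have hfixω : ∀ s ∈ K₁.fixingSubgroup, s ω = ω := fun s hs => (hω s (hle hs)).1 hs
  have hp2' : p % 2 = 1 := by
    rcases hp.eq_two_or_odd with h3 | h3
    · exact absurd h3 hp2
    · exact h3
  by_contra hcon
  have key : ∀ C : (Ω ≃ₐ[k] Ω) → Pt W Ω, Coc W K C → (∀ s ∈ K.fixingSubgroup, p • C s = 0) →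
      (∀ V : ValuationSubring Ω, V ≠ ⊤ → ∃ P : Pt W Ω, ∀ s ∈ K.fixingSubgroup, Dec V s →
        C s = ac W s P - P) → ∃ T : Pt W Ω, p • T = 0 ∧ ∀ s ∈ K.fixingSubgroup, C s = ac W s T - T := by
    intro C h3 h4 h5
    by_contra h6
    exact hcon ⟨C, h3, h4, h5, h6⟩
  obtain ⟨C₁, a1, a2, a3, a4⟩ := cor_two W hp2' hK hn hτ hτ1 h22 hc hpc hV
  have hSc : Coc W K₁ fun s => S (c s) := by
    refine ⟨fun s hs t ht => ?_, ?_⟩
    · rw [hc.mul s hs t ht, map_add, h1 s (hfixω s hs)]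
    · obtain ⟨L, hL, h3⟩ := hc.cont
      exact ⟨L, hL, fun s hs hs' => by rw [h3 s hs hs', map_zero]⟩
  obtain ⟨C₂, b1, b2, b3, b4⟩ := cor_two W hp2' hK hn hτ hτ1 h22 hSc
    (fun s hs => by rw [← map_nsmul, hpc s hs, map_zero]) (fun V hVt => by
      obtain ⟨P, hP⟩ := hV V hVt
      exact ⟨S P, fun s hs hs' => by rw [hP s hs hs', map_sub, h1 s (hfixω s hs)]⟩)
  obtain ⟨T₁, hT₁, hT₁'⟩ := key C₁ a1 a2 a3
  obtain ⟨T₂, hT₂, hT₂'⟩ := key C₂ b1 b2 b3
  obtain ⟨Y, hY⟩ : ∃ Y, Y = S (S T₁ + T₂) := ⟨_, rfl⟩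
  have hpY : p • Y = 0 := by
    rw [hY, ← map_nsmul, smul_add, ← map_nsmul, hT₁, hT₂, map_zero, add_zero, map_zero]
  have hmain : ∀ s ∈ K₁.fixingSubgroup, -((2 * d) • c s) = ac W s Y - Y := by
    intro s hs
    have e1 := a4 s hs
    have e2 := b4 s hs
    rw [hT₁' s (hle hs)] at e1
    rw [hT₂' s (hle hs), h2 τ hτω] at e2
    have e3 := congrArg S e1
    rw [map_sub, map_add, ← h1 s (hfixω s hs)] at e3
    have e4 : S (c s) + S (c s) = ac W s (S T₁ + T₂) - (S T₁ + T₂) := by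
      rw [map_add]
      have e5 : ac W s (S T₁) + ac W s T₂ - (S T₁ + T₂) = (ac W s (S T₁) - S T₁) + (ac W s T₂ - T₂) := by
        abel
      rw [e5, e3, e2]
      abel
    have e6 := congrArg S e4
    rw [map_add, hS, map_sub, ← h1 s (hfixω s hs), ← hY] at e6
    rw [← e6, two_mul, add_smul]
    abel
  have hcop : IsCoprime ((p : ℕ) : ℤ) (((2 * d : ℕ)) : ℤ) := by
    have h3 : Nat.Coprime p (2 * d) := by
      rw [Nat.Prime.coprime_iff_not_dvd hp]
      intro h4
      rcases (Nat.Prime.dvd_mul hp).1 h4 with h5 | h5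
      · exact hp2 ((Nat.prime_dvd_prime_iff_eq hp Nat.prime_two).1 h5)
      · exact hd h5
    exact Nat.isCoprime_iff_coprime.2 h3
  obtain ⟨v, u, huv⟩ := hcop
  refine hT ⟨(-u) • Y, ?_, fun s hs => ?_⟩
  · rw [smul_comm, hpY, smul_zero]
  · have h3 : c s = (v * (p : ℤ) + u * ((2 * d : ℕ) : ℤ)) • c s := by rw [huv, one_smul]
    have h4 : (v * (p : ℤ)) • c s = 0 := by
      rw [mul_smul, natCast_zsmul, hpc s hs, smul_zero]
    have h5 : (u * ((2 * d : ℕ) : ℤ)) • c s = (-u) • (-((2 * d) • c s)) := by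
      rw [mul_smul, neg_smul, smul_neg, neg_neg, natCast_zsmul]
    rw [h3, add_smul, h4, zero_add, h5, hmain s hs, smul_sub, map_zsmul]

end H55K.TQ
end

-- from Lib.H55W.G1
section

/-! # H55W, part G: factorisation into primary primes -/

open NumberField IsDedekindDomain

namespace H55W

open H55P (IQ embF eF Nm)
open H55K (cj)

variable {F : Type} [Field F] [NumberField F] [IQ F] {I : 𝓞 F}

theorem g1_nm_one {x : 𝓞 F} : Nm x = 1 ↔ IsUnit x := by
  unfold Nm
  rw [Ideal.absNorm_eq_one_iff, Ideal.span_singleton_eq_top]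

theorem g1_nm_zero {x : 𝓞 F} : Nm x = 0 ↔ x = 0 := by
  unfold Nm
  rw [Ideal.absNorm_eq_zero_iff, Ideal.span_singleton_eq_bot]

theorem g1_Iunit (h : GI I) (i : ℕ) : IsUnit (I ^ i) := by
  have h1 : IsUnit I := by
    refine IsUnit.of_mul_eq_one (-I) ?_
    have h2 := h.sq
    linear_combination -h2
  exact h1.pow i

/-- Chunk G1 (M). Strong induction on Nm x (compare H35T.factor in H35T/R3.lean). If x is a unit then x = I^i (gi_unit), so x = 1 (gi_uniq), s = 0, span {1} = ⊤, pj_top. Otherwise a prime π divides x (WfDvdMonoid.exists_irreducible_factor, 𝓞 F is a principal ideal ring: Irreducible.prime); 1 + I does not divide π (pry_cop); replace π by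
I^i π primary (gi_exists; still a prime dividing x); x = π y, y primary (pry_of_mul), Nm y < Nm x (Nm_mul, Nm π ≥ 2). span {x} = span {π} * span {y}, pj_mul_left, pj_prime (pp_pi). -/
theorem pry_factor (h : GI I) (x : 𝓞 F) (hx : Pry I x) : ∃ s : Multiset (𝓞 F), (∀ π ∈ s, Prime π ∧ Pry I π) ∧ x = s.prod ∧
    ∀ y : 𝓞 F, pj 4 I (Ideal.span {x}) y = (s.map fun π => ps 4 I (Ideal.span {π}) y).prod := by
  have key : ∀ n : ℕ, ∀ x : 𝓞 F, Nm x = n → Pry I x → ∃ s : Multiset (𝓞 F), (∀ π ∈ s, Prime π ∧ Pry I π) ∧ x = s.prod ∧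
      ∀ y : 𝓞 F, pj 4 I (Ideal.span {x}) y = (s.map fun π => ps 4 I (Ideal.span {π}) y).prod := by
    intro n
    induction n using Nat.strong_induction_on with
    | _ n ih =>
      intro x hn hx
      have hx1 := (pry_cop h hx).1
      have hx0 : x ≠ 0 := by
        rintro rfl
        exact hx1 (dvd_zero _)
      by_cases hu : IsUnit x
      · obtain ⟨i, hi⟩ := gi_unit h hu
        have h1 : x = 1 := by
          rw [hi]
          exact gi_uniq h (by rw [← hi]; exact hx)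
        subst h1
        refine ⟨0, fun π hπ => absurd hπ (Multiset.notMem_zero π), Multiset.prod_zero.symm, fun y => ?_⟩
        rw [Ideal.span_singleton_one, pj_top, Multiset.map_zero, Multiset.prod_zero]
      · obtain ⟨π, hπ, hπx⟩ := WfDvdMonoid.exists_irreducible_factor hu hx0
        have hπp : Prime π := hπ.prime
        have hπn : ¬ (1 + I) ∣ π := fun h1 => hx1 (h1.trans hπx)
        obtain ⟨i, hi⟩ := gi_exists h hπn
        have hIu := g1_Iunit h i
        have hass : Associated π (I ^ i * π) := by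
          rw [mul_comm]
          exact (associated_mul_unit_right π _ hIu)
        have hπ' : Prime (I ^ i * π) := hass.prime hπp
        have hdx : I ^ i * π ∣ x := hass.symm.dvd.trans hπx
        obtain ⟨y, hy⟩ := hdx
        have hyP : Pry I y := pry_of_mul hi (by rw [← hy]; exact hx)
        have hlt : Nm y < n := by
          rw [← hn, hy, H55K.Nm_mul]
          have h2 : Nm (I ^ i * π) ≠ 0 := fun h => hπ'.ne_zero (g1_nm_zero.1 h)
          have h3 : Nm (I ^ i * π) ≠ 1 := fun h => hπ'.not_isUnit (g1_nm_one.1 h)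
          have h4 : Nm y ≠ 0 := by
            intro h5
            apply hx0
            rw [hy, g1_nm_zero.1 h5, mul_zero]
          have h5 : 2 ≤ Nm (I ^ i * π) := by omega
          have h6 : 0 < Nm y := Nat.pos_of_ne_zero h4
          nlinarith
        obtain ⟨s, hs1, hs2, hs3⟩ := ih (Nm y) hlt y rfl hyP
        refine ⟨(I ^ i * π) ::ₘ s, ?_, ?_, fun z => ?_⟩
        · intro q hq
          rcases Multiset.mem_cons.1 hq with rfl | hq
          · exact ⟨hπ', hi⟩
          · exact hs1 q hq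
        · rw [Multiset.prod_cons, ← hs2]
          exact hy
        · have h1 : Ideal.span {x} = Ideal.span {I ^ i * π} * Ideal.span {y} := by
            rw [Ideal.span_singleton_mul_span_singleton, ← hy]
          have h2 : Ideal.span {I ^ i * π} ≠ ⊥ := by
            rw [Ne, Ideal.span_singleton_eq_bot]
            exact hπ'.ne_zero
          have h3 : Ideal.span {y} ≠ ⊥ := by
            rw [Ne, Ideal.span_singleton_eq_bot]
            rintro rfl
            rw [mul_zero] at hy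
            exact hx0 hy
          rw [h1, pj_mul_left h2 h3, pj_prime (pp_pi h hπ' (pry_cop h hi).1), hs3, Multiset.map_cons, Multiset.prod_cons]
  exact key (Nm x) x rfl hx

/-- Chunk G1 (S). Conjugation: cj π is a prime element (H55K.cj_prime); span {cj π} = (span {π}).map cj; ps_map for e = cj and ps_inv ((-I) I = 1). -/
theorem ps_cj (h : GI I) {π : 𝓞 F} (hπ : Prime π) (hn : ¬ (1 + I) ∣ π) (x : 𝓞 F) :
    ps 4 I (Ideal.span {cj π}) (cj x) = cj (ps 4 I (Ideal.span {π}) x) := by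
  have hsq := h.sq
  have hn' : ¬ (1 + I) ∣ cj π := by
    intro h1
    apply hn
    obtain ⟨z, hz⟩ := h1
    have h2 := congrArg cj hz
    rw [H55K.cj_cj, map_mul, map_add, map_one, gi_cj h] at h2
    refine ⟨-I * cj z, ?_⟩
    rw [h2]
    linear_combination (cj z) * hsq
  have h1 : (Ideal.span {π}).map ((cj : 𝓞 F ≃+* 𝓞 F) : 𝓞 F →+* 𝓞 F) = Ideal.span {cj π} := by
    rw [Ideal.map_span, Set.image_singleton]
    rfl
  have h2 := ps_map (pp_pi h hπ hn) cj x
  rw [h1, gi_cj h] at h2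
  rw [← h2]
  refine (ps_inv (pp_pi h (H55K.cj_prime hπ) hn') ?_ _).symm
  linear_combination -hsq

/-- Chunk G1 (S/M). The types of primes: π divides the rational prime p (the prime number in the ideal (π)); p = π z, Nm p = p^2 = Nm π Nm z. Nm π = p: then π cj π = p (mul_cj). Nm π = p^2: z is a unit. -/
theorem pi_type (h : GI I) {π : 𝓞 F} (hπ : Prime π) : ∃ p : ℕ, p.Prime ∧
    ((Nm π = p ∧ π * cj π = (p : 𝓞 F)) ∨ (Nm π = p ^ 2 ∧ Associated π (p : 𝓞 F))) := by
  have h1 : π ∣ ((Nm π : ℕ) : 𝓞 F) := ⟨cj π, (H55K.mul_cj π).symm⟩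
  have hne : Nm π ≠ 0 := fun h => hπ.ne_zero (g1_nm_zero.1 h)
  have h2 : ∃ p : ℕ, p.Prime ∧ π ∣ (p : 𝓞 F) := by
    rw [← Nat.prod_primeFactorsList hne, Nat.cast_list_prod, hπ.dvd_prod_iff] at h1
    obtain ⟨a, ha, h3⟩ := h1
    obtain ⟨p, hp, rfl⟩ := List.mem_map.1 ha
    exact ⟨p, Nat.prime_of_mem_primeFactorsList hp, h3⟩
  obtain ⟨p, hp, z, hz⟩ := h2
  refine ⟨p, hp, ?_⟩
  have h3 : Nm π * Nm z = p ^ 2 := by
    rw [← H55K.Nm_mul, ← hz, H55K.Nm_nat]
  have h4 : Nm π ∣ p ^ 2 := ⟨_, h3.symm⟩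
  obtain ⟨k, hk, h5⟩ := (Nat.dvd_prime_pow hp).1 h4
  have h6 : Nm π ≠ 1 := fun h => hπ.not_isUnit (g1_nm_one.1 h)
  interval_cases k
  · rw [pow_zero] at h5
    exact absurd h5 h6
  · left
    rw [pow_one] at h5
    refine ⟨h5, ?_⟩
    rw [H55K.mul_cj, h5]
  · right
    refine ⟨h5, ?_⟩
    rw [h5] at h3
    have h7 : Nm z = 1 := by
      have h8 : p ^ 2 * Nm z = p ^ 2 * 1 := by rw [h3, mul_one]
      exact Nat.eq_of_mul_eq_mul_left (pow_pos hp.pos 2) h8
    rw [hz]
    exact associated_mul_unit_right π z (g1_nm_one.1 h7)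

end H55W
end

-- from Lib.H55W.G2
section

/-! # H55W, part G: symbols of rational integers over rational integers -/

open NumberField IsDedekindDomain

namespace H55W

open H55P (IQ embF eF Nm)
open H55K (cj)

variable {F : Type} [Field F] [NumberField F] [IQ F] {I : 𝓞 F}

theorem g2_nm_dvd {x y : 𝓞 F} (h : x ∣ y) : Nm x ∣ Nm y := by
  obtain ⟨z, rfl⟩ := h
  exact ⟨Nm z, H55K.Nm_mul _ _⟩

theorem g2_two (h : GI I) : Nm (1 + I) = 2 := by
  have h1 := gi_nm h 1 1
  have e : (((1 : ℤ) : 𝓞 F) + ((1 : ℤ) : 𝓞 F) * I) = 1 + I := by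
    push_cast
    ring
  rw [e] at h1
  norm_num at h1
  exact_mod_cast h1

theorem g2_int (a : ℤ) : Nm (a : 𝓞 F) = a.natAbs ^ 2 := by
  rcases Int.natAbs_eq a with h | h
  · conv_lhs => rw [h]
    rw [Int.cast_natCast, H55K.Nm_nat]
  · conv_lhs => rw [h]
    have e : Nm (((-(a.natAbs : ℤ) : ℤ)) : 𝓞 F) = Nm ((a.natAbs : ℕ) : 𝓞 F) := by
      unfold Nm
      rw [Int.cast_neg, Int.cast_natCast, Ideal.span_singleton_neg]
    rw [e, H55K.Nm_nat]

/-- Chunk G2 (S/M). Splitting of the prime numbers: l = 1 mod 4: l = a^2 + b^2 (Nat.Prime.sq_add_sq), π = a + b I has norm l (gi_nm), so it is prime (Nm π a prime number: absNorm prime implies prime ideal: Ideal.isPrime_of_irreducible_absNorm, or pi_type style), π cj π = l, cj π is not associated to π: (π) and (cj π) are different, because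
otherwise π divides π + cj π = 2a and l = norm, so l divides 4a^2, l divides a, then b: contradiction to a^2 + b^2 = l. -/
theorem split_l (h : GI I) {l : ℕ} (hl : l.Prime) (h1 : l % 4 = 1) : ∃ π : 𝓞 F, Prime π ∧ ¬ (1 + I) ∣ π ∧ Nm π = l ∧
    π * cj π = (l : 𝓞 F) ∧ Ideal.span {π} ≠ Ideal.span {cj π} := by
  have : Fact l.Prime := ⟨hl⟩
  obtain ⟨a, b, hab⟩ := Nat.Prime.sq_add_sq (p := l) (by omega)
  set π : 𝓞 F := ((a : ℤ) : 𝓞 F) + ((b : ℤ) : 𝓞 F) * I with hπ
  have hN : Nm π = l := by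
    have h2 := gi_nm h (a : ℤ) (b : ℤ)
    rw [← hπ] at h2
    have h3 : ((Nm π : ℕ) : ℤ) = (l : ℤ) := by
      rw [h2, ← hab]
      push_cast
      rfl
    exact_mod_cast h3
  have hπ0 : π ≠ 0 := by
    intro h0
    rw [h0] at hN
    rw [g1_nm_zero.2 rfl] at hN
    exact hl.ne_zero hN.symm
  have hp : Prime π := by
    rw [← Ideal.span_singleton_prime hπ0]
    apply Ideal.isPrime_of_irreducible_absNorm
    show Irreducible (Nm π)
    rw [hN]
    exact hl
  have hcj : π * cj π = (l : 𝓞 F) := by rw [H55K.mul_cj, hN]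
  have hlodd : l % 2 = 1 := by omega
  refine ⟨π, hp, ?_, hN, hcj, ?_⟩
  · intro h2
    have h3 := g2_nm_dvd h2
    rw [g2_two h, hN] at h3
    omega
  · intro h2
    have h3 : π ∣ cj π := by
      rw [← Ideal.span_singleton_le_span_singleton, ← h2]
    have h4 : cj π = ((a : ℤ) : 𝓞 F) - ((b : ℤ) : 𝓞 F) * I := by
      rw [hπ, map_add, map_mul, H55K.cj_int, H55K.cj_int, gi_cj h]
      ring
    have h5 : π ∣ (((2 * a : ℤ)) : 𝓞 F) := by
      have h6 : π ∣ π + cj π := dvd_add dvd_rfl h3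
      have h7 : π + cj π = (((2 * a : ℤ)) : 𝓞 F) := by
        rw [h4, hπ]
        push_cast
        ring
      rwa [h7] at h6
    have h6 := g2_nm_dvd h5
    rw [hN, g2_int] at h6
    have h7 : l ∣ 2 * a := by
      have h8 := hl.dvd_of_dvd_pow h6
      have h9 : (2 * (a : ℤ)).natAbs = 2 * a := by
        rw [Int.natAbs_mul, Int.natAbs_natCast]
        rfl
      rwa [h9] at h8
    have h8 : l ∣ a := by
      rcases (Nat.Prime.dvd_mul hl).1 h7 with h9 | h9
      · exfalso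
        have h10 := Nat.le_of_dvd (by norm_num) h9
        have h11 := hl.two_le
        omega
      · exact h9
    have h9 : l ∣ b ^ 2 := by
      have h10 : l ∣ a ^ 2 := dvd_pow h8 two_ne_zero
      have h11 : l ∣ a ^ 2 + b ^ 2 := by rw [hab]
      exact (Nat.dvd_add_right h10).1 h11
    have h10 : l ∣ b := hl.dvd_of_dvd_pow h9
    have h11 : l ^ 2 ∣ l := by
      have h12 : l ^ 2 ∣ a ^ 2 + b ^ 2 := dvd_add (pow_dvd_pow_of_dvd h8 2) (pow_dvd_pow_of_dvd h10 2)
      rwa [hab] at h12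
    have h12 := Nat.le_of_dvd hl.pos h11
    have h13 := hl.two_le
    nlinarith

/-- Chunk G2 (S). l = 3 mod 4 is a prime element of 𝓞 F: an irreducible factor π of l has norm l or l^2 (norm l = a^2 + b^2 is impossible modulo 4: gi_nm, GI.rep; l^2: associated). -/
theorem inert_l (h : GI I) {l : ℕ} (hl : l.Prime) (h3 : l % 4 = 3) : Prime (l : 𝓞 F) := by
  have hu : ¬ IsUnit (l : 𝓞 F) := by
    intro h1
    have h2 := g1_nm_one.2 h1
    rw [H55K.Nm_nat] at h2
    have h4 := hl.two_le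
    nlinarith
  have h0 : (l : 𝓞 F) ≠ 0 := by exact_mod_cast hl.ne_zero
  obtain ⟨π, hπ, z, hz⟩ := WfDvdMonoid.exists_irreducible_factor hu h0
  have hπp : Prime π := hπ.prime
  have h5 : Nm π * Nm z = l ^ 2 := by
    rw [← H55K.Nm_mul, ← hz, H55K.Nm_nat]
  have h4 : Nm π ∣ l ^ 2 := ⟨_, h5.symm⟩
  obtain ⟨k, hk, h6⟩ := (Nat.dvd_prime_pow hl).1 h4
  have h7 : Nm π ≠ 1 := fun h => hπp.not_isUnit (g1_nm_one.1 h)
  interval_cases k
  · rw [pow_zero] at h6
    exact absurd h6 h7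
  · exfalso
    rw [pow_one] at h6
    obtain ⟨a, b, hab⟩ := h.rep π
    have h8 := gi_nm h a b
    rw [← hab, h6] at h8
    have h9 : (a ^ 2 + b ^ 2) % 4 = 3 := by
      rw [← h8]
      omega
    have ha : a % 4 = 0 ∨ a % 4 = 1 ∨ a % 4 = 2 ∨ a % 4 = 3 := by omega
    have hb : b % 4 = 0 ∨ b % 4 = 1 ∨ b % 4 = 2 ∨ b % 4 = 3 := by omega
    rcases ha with ha | ha | ha | ha <;> rcases hb with hb | hb | hb | hb <;>
      simp [Int.add_emod, pow_two, Int.mul_emod, ha, hb] at h9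
  · rw [h6] at h5
    have h8 : Nm z = 1 := by
      have h9 : l ^ 2 * Nm z = l ^ 2 * 1 := by rw [h5, mul_one]
      exact Nat.eq_of_mul_eq_mul_left (pow_pos hl.pos 2) h9
    have h9 : Associated π (l : 𝓞 F) := by
      rw [hz]
      exact associated_mul_unit_right π z (g1_nm_one.1 h8)
    exact h9.prime hπp

theorem g2_odd (h : GI I) {l : ℕ} (hl : l % 2 = 1) : ¬ (1 + I) ∣ (l : 𝓞 F) := by
  intro h1
  have h2 := g2_nm_dvd h1
  rw [g2_two h, H55K.Nm_nat] at h2
  have h3 := Nat.prime_two.dvd_of_dvd_pow h2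
  omega

/-- A prime number. -/
theorem g2_prime (h : GI I) {l : ℕ} (hl : l.Prime) (hodd : l % 2 = 1) {a : ℤ} (ha : IsCoprime a (l : ℤ)) :
    pj 4 I (Ideal.span {(l : 𝓞 F)}) (a : 𝓞 F) = 1 := by
  have h4 : l % 4 = 1 ∨ l % 4 = 3 := by omega
  rcases h4 with h4 | h4
  · obtain ⟨π, hp, hn, hN, hcj, hne⟩ := split_l h hl h4
    have hcp : Prime (cj π) := H55K.cj_prime hp
    have hsq := h.sq
    have hn' : ¬ (1 + I) ∣ cj π := by
      intro h1
      have h2 := g2_nm_dvd h1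
      rw [g2_two h, H55K.Nm_cj, hN] at h2
      omega
    have e1 : Ideal.span {(l : 𝓞 F)} = Ideal.span {π} * Ideal.span {cj π} := by
      rw [Ideal.span_singleton_mul_span_singleton, hcj]
    have b1 : Ideal.span {π} ≠ ⊥ := by
      rw [Ne, Ideal.span_singleton_eq_bot]
      exact hp.ne_zero
    have b2 : Ideal.span {cj π} ≠ ⊥ := by
      rw [Ne, Ideal.span_singleton_eq_bot]
      exact hcp.ne_zero
    rw [e1, pj_mul_left b1 b2, pj_prime (pp_pi h hp hn), pj_prime (pp_pi h hcp hn')]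
    have h5 := ps_cj h hp hn (a : 𝓞 F)
    rw [H55K.cj_int] at h5
    rw [h5]
    have h6 : (a : 𝓞 F) ∉ Ideal.span {π} := by
      intro h7
      have h8 := g2_nm_dvd (Ideal.mem_span_singleton.1 h7)
      rw [hN, g2_int] at h8
      have h9 : l ∣ a.natAbs := hl.dvd_of_dvd_pow h8
      have h10 : (l : ℤ) ∣ a := Int.natCast_dvd.2 h9
      have h11 := ha.isUnit_of_dvd' h10 dvd_rfl
      rw [Int.isUnit_iff] at h11
      have h12 := hl.two_le
      omega
    obtain ⟨i, hi⟩ := (ps_spec (pp_pi h hp hn) h6).1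
    rw [hi, map_pow, gi_cj h, ← mul_pow]
    have h7 : I * -I = 1 := by linear_combination -hsq
    rw [h7, one_pow]
  · have hp := inert_l h hl h4
    have hpp := pp_pi h hp (g2_odd h hodd)
    rw [pj_prime hpp]
    have h5 : ps 4 I (Ideal.span {(l : 𝓞 F)}) (a : 𝓞 F) = I ^ 0 := by
      apply ps_uniq hpp
      have hN : Ideal.absNorm (Ideal.span {(l : 𝓞 F)}) = l ^ 2 := H55K.Nm_nat l
      rw [hN, pow_zero]
      obtain ⟨k, hk⟩ : ∃ k, l = 4 * k + 3 := ⟨l / 4, by omega⟩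
      have h6 : (l ^ 2 - 1) / 4 = (l - 1) * (k + 1) := by
        have h7 : l ^ 2 - 1 = 4 * ((l - 1) * (k + 1)) := by
          rw [hk]
          have h8 : 4 * k + 3 - 1 = 4 * k + 2 := by omega
          rw [h8]
          have h9 : (4 * k + 3) ^ 2 = 4 * ((4 * k + 2) * (k + 1)) + 1 := by ring
          omega
        rw [h7]
        exact Nat.mul_div_cancel_left _ (by norm_num)
      rw [h6, pow_mul]
      have h7 := (Int.ModEq.pow_card_sub_one_eq_one hl ha).pow (k + 1)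
      rw [one_pow] at h7
      have h8 : (l : ℤ) ∣ (a ^ (l - 1)) ^ (k + 1) - 1 := h7.symm.dvd
      obtain ⟨c, hc⟩ := h8
      rw [Ideal.mem_span_singleton]
      refine ⟨(c : 𝓞 F), ?_⟩
      have h9 := congrArg (fun z : ℤ => (z : 𝓞 F)) hc
      push_cast at h9
      exact h9
    rw [h5, pow_zero]

/-- Chunk G2 (M). n = l a prime number, a prime to l. l = 3 mod 4: a^((l^2-1)/4) = (a^(l-1))^((l+1)/4) is 1 modulo l (Fermat: Int.ModEq.pow_card_sub_one_eq_one or ZMod.pow_card_sub_one_eq_one), ps_uniq with i = 0, Nm l = l^2 (Nm_nat), pj_prime. l = 1 mod 4: (l) = (π)(cj π) (split_l), pj_mul_left, pj_prime, z = ps (π) a, ps (cj π) a = cj z (ps_cj, cj_int),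
z = I^i (ps_spec), z cj z = I^i (-I)^i = 1 (gi_cj). General n by induction on the prime factors of |n| (Nat.recOnMul or induction_on_primes; span {-n} = span {n}; pj_mul_left; n = 1: pj_top). -/
theorem rat_rat (h : GI I) {n a : ℤ} (hn : n % 2 = 1) (ha : IsCoprime a n) : pj 4 I (Ideal.span {(n : 𝓞 F)}) (a : 𝓞 F) = 1 := by
  have key : ∀ N : ℕ, N % 2 = 1 → IsCoprime a (N : ℤ) → pj 4 I (Ideal.span {(N : 𝓞 F)}) (a : 𝓞 F) = 1 := by
    intro N
    induction N using induction_on_primes with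
    | zero =>
      intro h1
      norm_num at h1
    | one =>
      intro _ _
      rw [Nat.cast_one, Ideal.span_singleton_one, pj_top]
    | prime_mul p N hp ih =>
      intro h1 h2
      have h3 : p % 2 = 1 ∧ N % 2 = 1 := by
        rw [Nat.mul_mod] at h1
        have h4 : p % 2 = 0 ∨ p % 2 = 1 := by omega
        have h5 : N % 2 = 0 ∨ N % 2 = 1 := by omega
        rcases h4 with h4 | h4 <;> rcases h5 with h5 | h5 <;> rw [h4, h5] at h1 <;> simp at h1
        exact ⟨h4, h5⟩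
      rw [Nat.cast_mul] at h2
      have h4 : IsCoprime a (p : ℤ) := h2.of_mul_right_left
      have h5 : IsCoprime a (N : ℤ) := h2.of_mul_right_right
      have hN0 : N ≠ 0 := by
        rintro rfl
        omega
      have e1 : Ideal.span {((p * N : ℕ) : 𝓞 F)} = Ideal.span {(p : 𝓞 F)} * Ideal.span {(N : 𝓞 F)} := by
        rw [Ideal.span_singleton_mul_span_singleton, Nat.cast_mul]
      have b1 : Ideal.span {(p : 𝓞 F)} ≠ ⊥ := by
        rw [Ne, Ideal.span_singleton_eq_bot]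
        exact_mod_cast hp.ne_zero
      have b2 : Ideal.span {(N : 𝓞 F)} ≠ ⊥ := by
        rw [Ne, Ideal.span_singleton_eq_bot]
        exact_mod_cast hN0
      rw [e1, pj_mul_left b1 b2, g2_prime h hp h3.1 h4, ih h3.2 h5, one_mul]
  have h1 : Ideal.span {(n : 𝓞 F)} = Ideal.span {((n.natAbs : ℕ) : 𝓞 F)} := by
    rcases Int.natAbs_eq n with h2 | h2
    · conv_lhs => rw [h2]
      rw [Int.cast_natCast]
    · conv_lhs => rw [h2]
      rw [Int.cast_neg, Int.cast_natCast, Ideal.span_singleton_neg]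
  rw [h1]
  refine key n.natAbs (by omega) ?_
  rcases Int.natAbs_eq n with h2 | h2
  · rwa [← h2]
  · have h3 : (n.natAbs : ℤ) = -n := by omega
    rw [h3]
    exact ha.neg_right

end H55W
end

-- from Lib.H55W.G7
section

/-! # H55W, part G: the supplementary laws -/

open NumberField IsDedekindDomain

namespace H55W

open H55P (IQ embF eF Nm)
open H55K (cj Nm_mul Nm_nat)

variable {F : Type} [Field F] [NumberField F] [IQ F] {I : 𝓞 F}

/-- Chunk G7A (S). x = 1 + 8 z, so Nm x = x cj x = 1 + 8 (z + cj z) + 64 z cj z, z + cj z = 2a for z = a + b I (gi_cj): Nm x = 1 mod 16 (gi_nm). -/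
theorem nm_sixteen (h : GI I) {x : 𝓞 F} (hx : (8 : 𝓞 F) ∣ x - 1) : Nm x % 16 = 1 := by
  obtain ⟨z, hz⟩ := hx
  obtain ⟨a, b, hab⟩ := h.rep z
  have h1 : x = ((1 + 8 * a : ℤ) : 𝓞 F) + ((8 * b : ℤ) : 𝓞 F) * I := by
    push_cast
    rw [hab] at hz
    linear_combination hz
  have h2 := gi_nm h (1 + 8 * a) (8 * b)
  rw [← h1] at h2
  have h3 : ((Nm x : ℕ) : ℤ) = 16 * (a + 4 * a ^ 2 + 4 * b ^ 2) + 1 := by rw [h2]; ring
  omega

omit [IQ F] in
theorem g7a_pry (h : GI I) {x : 𝓞 F} (hx : (8 : 𝓞 F) ∣ x - 1) : Pry I x := by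
  refine Dvd.dvd.trans ⟨2 * (1 - I), ?_⟩ hx
  linear_combination (4 : 𝓞 F) * h.sq

/-- Chunk G7A (S). 8 = (2 + 2I) 2 (1 - I): x is primary, PJ (pry_cop). pj_zeta: pj (span {x}) I = I^((Nm x - 1)/4) = 1 (Nm x = 1 mod 16, I^4 = 1); -1 = I^2: pj_mul. -/
theorem one_neg (h : GI I) {x : 𝓞 F} (hx : (8 : 𝓞 F) ∣ x - 1) : pj 4 I (Ideal.span {x}) I = 1 ∧ pj 4 I (Ideal.span {x}) (-1) = 1 := by
  obtain ⟨-, -, hPJ⟩ := pry_cop h (g7a_pry h hx)
  have h1 : pj 4 I (Ideal.span {x}) I = 1 := by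
    have h2 : pj 4 I (Ideal.span {x}) I = I ^ ((Nm x - 1) / 4) := (pj_zeta hPJ).2
    have h3 := nm_sixteen h hx
    rw [h2]
    obtain ⟨k, hk⟩ : ∃ k, Nm x = 16 * k + 1 := ⟨Nm x / 16, by omega⟩
    have h4 : (Nm x - 1) / 4 = 4 * k := by omega
    rw [h4, pow_mul, (gi_root h).pow_eq_one, one_pow]
  refine ⟨h1, ?_⟩
  have h2 : (-1 : 𝓞 F) = I * I := by rw [← h.sq]; ring
  rw [h2, pj_mul hPJ, h1, one_mul]

theorem g7b_ne (h : GI I) {π : 𝓞 F} (hπ : Prime π) (hn : ¬ (1 + I) ∣ π) {p : ℕ} (hp : π ∣ (p : 𝓞 F)) (hpp : p.Prime) : p ≠ 2 := by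
  rintro rfl
  have hPP := pp_pi h hπ hn
  apply hPP.nm
  rw [Ideal.mem_span_singleton]
  refine hp.trans ⟨2, ?_⟩
  norm_num

/-- Chunk G7B (M). Euler: π a prime, not divisible by 1 + I, y an integer not divisible by π. pi_type: Nm π = p: y^((p-1)/2) is congruent to the Legendre symbol modulo p (ZMod: legendreSym.eq_pow, ZMod.intCast_zmod_eq_zero_iff..), so modulo π; (ps y)^2 is congruent to y^((p-1)/2) (ps_spec); (ps y)^2 = I^(2i) is 1 or -1, jacobiSym y p = 1 or -1; the difference is in (π), so they are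
equal (2 is not in (π)). Nm π = p^2, π associated to p: y^((p^2-1)/4) = (y^(p-1))^((p+1)/4)... here only the square is needed: y^((p^2-1)/2) = (y^(p-1))^((p+1)/2) is 1 modulo p, and jacobiSym y (p^2) = 1. -/
theorem ps_sq (h : GI I) {π : 𝓞 F} (hπ : Prime π) (hn : ¬ (1 + I) ∣ π) {y : ℤ} (hy : ¬ π ∣ (y : 𝓞 F)) :
    ps 4 I (Ideal.span {π}) (y : 𝓞 F) ^ 2 = ((jacobiSym y (Nm π) : ℤ) : 𝓞 F) := by
  have hPP := pp_pi h hπ hn
  have hyP : (y : 𝓞 F) ∉ Ideal.span {π} := by rwa [Ideal.mem_span_singleton]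
  obtain ⟨⟨i, hi⟩, hsp⟩ := ps_spec hPP hyP
  obtain ⟨hd4, -, -⟩ := ps_dvd hPP
  change 4 ∣ Nm π - 1 at hd4
  change (y : 𝓞 F) ^ ((Nm π - 1) / 4) - _ ∈ _ at hsp
  obtain ⟨p, hp, hcase⟩ := pi_type h hπ
  have hπp : π ∣ (p : 𝓞 F) := by
    rcases hcase with ⟨-, h2⟩ | ⟨-, h2⟩
    · exact ⟨cj π, h2.symm⟩
    · exact h2.dvd
  have hp2 : p ≠ 2 := g7b_ne h hπ hn hπp hp
  have : Fact p.Prime := ⟨hp⟩
  have hyp : ¬ (p : ℤ) ∣ y := by
    rintro ⟨c, hc⟩
    apply hy
    rw [hc]; push_cast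
    exact hπp.mul_right _
  -- the square of the symbol is y^((N-1)/2) mod P
  have h2 : (y : 𝓞 F) ^ (2 * ((Nm π - 1) / 4)) - ps 4 I (Ideal.span {π}) (y : 𝓞 F) ^ 2 ∈ Ideal.span {π} := by
    rw [mul_comm, pow_mul]
    exact Ideal.mem_of_dvd _ (sub_dvd_pow_sub_pow _ _ 2) hsp
  -- the Jacobi symbol
  have hJ : ∃ j : ℕ, ((jacobiSym y (Nm π) : ℤ) : 𝓞 F) = I ^ j ∧ (y : 𝓞 F) ^ (2 * ((Nm π - 1) / 4)) - I ^ j ∈ Ideal.span {π} := by
    have hleg : (p : ℤ) ∣ y ^ (p / 2) - legendreSym p y := by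
      rw [← ZMod.intCast_zmod_eq_zero_iff_dvd]
      push_cast
      rw [legendreSym.eq_pow, sub_self]
    have hgcd : y.gcd p = 1 := by
      rw [← Int.isCoprime_iff_gcd_eq_one]
      exact ((Nat.prime_iff_prime_int.1 hp).coprime_iff_not_dvd.2 hyp).symm
    rcases hcase with ⟨h3, -⟩ | ⟨h3, -⟩
    · have h4 : 2 * ((Nm π - 1) / 4) = p / 2 := by rw [h3] at hd4 ⊢; omega
      rw [h4, h3, ← jacobiSym.legendreSym.to_jacobiSym]
      have h5 : (y : 𝓞 F) ^ (p / 2) - ((legendreSym p y : ℤ) : 𝓞 F) ∈ Ideal.span {π} := by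
        rw [Ideal.mem_span_singleton]
        have h6 : ((p : ℤ) : 𝓞 F) ∣ ((y ^ (p / 2) - legendreSym p y : ℤ) : 𝓞 F) := Int.cast_dvd_cast _ _ hleg
        push_cast at h6
        exact hπp.trans h6
      have h7 : legendreSym p y = 1 ∨ legendreSym p y = -1 := by
        rw [jacobiSym.legendreSym.to_jacobiSym]
        exact jacobiSym.eq_one_or_neg_one hgcd
      rcases h7 with h7 | h7
      · refine ⟨0, by rw [h7]; simp, ?_⟩
        rw [h7] at h5
        simpa using h5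
      · refine ⟨2, by rw [h7, h.sq]; simp, ?_⟩
        rw [h7] at h5
        rw [h.sq]
        simpa using h5
    · refine ⟨0, ?_, ?_⟩
      · rw [h3, jacobiSym.pow_right, jacobiSym.sq_one hgcd]; simp
      · rw [pow_zero, Ideal.mem_span_singleton]
        have h4 : 2 * ((Nm π - 1) / 4) = (p / 2) * (p + 1) := by
          rw [h3] at hd4 ⊢
          obtain ⟨k, hk⟩ : ∃ k, p = 2 * k + 1 := ⟨p / 2, by have := hp.eq_two_or_odd; omega⟩
          have h5 : p ^ 2 - 1 = 4 * (k * (k + 1)) := by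
            rw [hk]
            have : (2 * k + 1) ^ 2 = 4 * (k * (k + 1)) + 1 := by ring
            omega
          rw [h5, Nat.mul_div_cancel_left _ (by norm_num), hk]
          have : (2 * k + 1) / 2 = k := by omega
          rw [this]; ring
        obtain ⟨k, hk⟩ : ∃ k, p = 2 * k + 1 := ⟨p / 2, by have := hp.eq_two_or_odd; omega⟩
        have h5 : (p : ℤ) ∣ y ^ (2 * ((Nm π - 1) / 4)) - 1 := by
          rw [h4, pow_mul, ← ZMod.intCast_zmod_eq_zero_iff_dvd]
          push_cast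
          rw [← legendreSym.eq_pow]
          have h7 : legendreSym p y = 1 ∨ legendreSym p y = -1 := by
            rw [jacobiSym.legendreSym.to_jacobiSym]
            exact jacobiSym.eq_one_or_neg_one hgcd
          have h8 : p + 1 = 2 * (k + 1) := by omega
          rcases h7 with h7 | h7 <;> rw [h7, h8, pow_mul] <;> simp
        have h6 : ((p : ℤ) : 𝓞 F) ∣ ((y ^ (2 * ((Nm π - 1) / 4)) - 1 : ℤ) : 𝓞 F) := Int.cast_dvd_cast _ _ h5
        push_cast at h6
        exact hπp.trans h6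
  obtain ⟨j, hj, hj2⟩ := hJ
  rw [hj]
  rw [hi] at h2 ⊢
  rw [← pow_mul] at h2 ⊢
  apply ps_inj hPP
  have h3 := Ideal.sub_mem _ hj2 h2
  have h4 : (y : 𝓞 F) ^ (2 * ((Nm π - 1) / 4)) - I ^ j - ((y : 𝓞 F) ^ (2 * ((Nm π - 1) / 4)) - I ^ (i * 2)) = I ^ (i * 2) - I ^ j := by ring
  rwa [h4] at h3

theorem g7b_ind (h : GI I) {y : ℤ} (s : Multiset (𝓞 F)) : (∀ π ∈ s, Prime π ∧ Pry I π) → (∀ π ∈ s, ¬ π ∣ (y : 𝓞 F)) →
    (s.map fun π => ps 4 I (Ideal.span {π}) (y : 𝓞 F)).prod ^ 2 = ((jacobiSym y (Nm s.prod) : ℤ) : 𝓞 F) := by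
  induction s using Multiset.induction_on with
  | empty =>
    intro _ _
    have : Nm (1 : 𝓞 F) = 1 := by unfold Nm; simp
    simp [this]
  | cons π s ih =>
    intro h1 h2
    rw [Multiset.map_cons, Multiset.prod_cons, Multiset.prod_cons, mul_pow, ih (fun π hπ => h1 π (Multiset.mem_cons_of_mem hπ))
      (fun π hπ => h2 π (Multiset.mem_cons_of_mem hπ)), Nm_mul]
    obtain ⟨hp, hpry⟩ := h1 π (Multiset.mem_cons_self _ _)
    rw [ps_sq h hp (pry_cop h hpry).1 (h2 π (Multiset.mem_cons_self _ _)), jacobiSym.mul_right', Int.cast_mul]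
    · intro h0
      exact hp.ne_zero (H55P.Nm_eq_zero.1 h0)
    · intro h0
      have h3 := H55P.Nm_eq_zero.1 h0
      rw [Multiset.prod_eq_zero_iff] at h3
      exact (h1 0 (Multiset.mem_cons_of_mem h3)).1.ne_zero rfl

/-- Chunk G7B (S/M). pry_factor: product over the primes of s: ps_sq, jacobiSym.mul_right, Nm_mul (multiset induction). -/
theorem pj_sq (h : GI I) {x : 𝓞 F} (hx : Pry I x) {y : ℤ} (hy : IsCoprime x (y : 𝓞 F)) :
    pj 4 I (Ideal.span {x}) (y : 𝓞 F) ^ 2 = ((jacobiSym y (Nm x) : ℤ) : 𝓞 F) := by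
  obtain ⟨s, hs, hxs, hpj⟩ := pry_factor h x hx
  rw [hpj, g7b_ind h s hs, ← hxs]
  intro π hπ hdv
  have h1 : π ∣ x := by rw [hxs]; exact Multiset.dvd_prod hπ
  exact (hs π hπ).1.not_isUnit (hy.isUnit_of_dvd' h1 hdv)

theorem g7c_rec {c : ℤ} (hc : c % 2 = 1) {N : ℕ} (hN : N % 4 = 1) : jacobiSym c N = jacobiSym (N : ℤ) c.natAbs := by
  have ho : Odd c.natAbs := by
    rw [Int.natAbs_odd, Int.odd_iff]; exact hc
  have hNo : Odd N := Nat.odd_iff.2 (by omega)
  have h1 : jacobiSym (c.natAbs : ℤ) N = jacobiSym (N : ℤ) c.natAbs := jacobiSym.quadratic_reciprocity_one_mod_four' ho hN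
  rcases Int.natAbs_eq c with h | h
  · rw [← h1, ← h]
  · rw [← h1]
    conv_lhs => rw [h]
    rw [jacobiSym.neg _ hNo, ZMod.χ₄_nat_one_mod_four hN, one_mul]

/-- Chunk G7C (M). a odd, b divisible by 16, coprime, N = a^2 + b^2 (N = 1 mod 8). jacobiSym a N = 1: if a > 0, quadratic reciprocity with N = 1 mod 4 (jacobiSym.quadratic_reciprocity_one_mod_four and jacobiSym of casts): J(a | N) = J(N | a) = J(b^2 | a) = 1 (jacobiSym.mod_left', jacobiSym.sq_one'; b prime to a); if a < 0: J(-1 | N) = 1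
(jacobiSym.at_neg_one, ZMod.χ₄). J(a + b | N) = J(N | |a+b|) in the same way = J(2 | |a+b|) J(2N | |a+b|), 2N = (a+b)^2 + (a-b)^2, so J(2N | |a+b|) = J((a-b)^2 | |a+b|) = 1 (a - b is prime to a + b: an odd common prime divides 2a and 2b); J(2 | |a+b|): jacobiSym.at_two, ZMod.χ₈ depends on |a + b| modulo 8, and a + b = a mod 8. -/
theorem jac_ab {a b : ℤ} (ha : a % 2 = 1) (hb : b % 16 = 0) (hab : IsCoprime a b) {N : ℕ} (hN : (N : ℤ) = a ^ 2 + b ^ 2) :
    jacobiSym a N = 1 ∧ jacobiSym (a + b) N = if a % 8 = 1 ∨ a % 8 = 7 then 1 else -1 := by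
  obtain ⟨k, hk⟩ : ∃ k, a = 2 * k + 1 := ⟨a / 2, by omega⟩
  obtain ⟨l, hl⟩ : ∃ l, b = 16 * l := ⟨b / 16, by omega⟩
  have hN4 : N % 4 = 1 := by
    have : (N : ℤ) = 4 * (k ^ 2 + k + 64 * l ^ 2) + 1 := by rw [hN, hk, hl]; ring
    omega
  have hgab : Int.gcd a b = 1 := Int.isCoprime_iff_gcd_eq_one.1 hab
  constructor
  · rw [g7c_rec ha hN4, jacobiSym.mod_left' (a₂ := b ^ 2)]
    · apply jacobiSym.sq_one'
      rw [Int.gcd_comm]
      show Nat.gcd ((a.natAbs : ℤ).natAbs) b.natAbs = 1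
      rw [Int.natAbs_natCast]
      exact hgab
    · rw [Int.emod_emod_of_dvd _ dvd_rfl |>.symm]
      apply Int.emod_emod_of_dvd _ dvd_rfl |>.trans
      apply Int.ModEq.eq
      rw [Int.modEq_comm, Int.modEq_iff_dvd, hN]
      have : (a.natAbs : ℤ) ∣ a := Int.natAbs_dvd.2 dvd_rfl
      exact (this.trans (dvd_pow_self a two_ne_zero)).trans ⟨1, by ring⟩
  · have hs : (a + b) % 2 = 1 := by omega
    set m := (a + b).natAbs with hm
    have hmo : Odd m := by
      rw [hm, Int.natAbs_odd, Int.odd_iff]; exact hs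
    have hmd : (m : ℤ) ∣ a + b := Int.natAbs_dvd.2 dvd_rfl
    rw [g7c_rec hs hN4, ← hm]
    have h2m : Int.gcd 2 m = 1 := by
      have := Nat.Coprime.symm (Nat.Coprime.pow_right 1 (Nat.coprime_two_right.2 hmo) : m.Coprime (2 ^ 1))
      simpa [Int.gcd] using this
    have h1 : jacobiSym (2 * (N : ℤ)) m = 1 := by
      rw [jacobiSym.mod_left' (a₂ := (a - b) ^ 2)]
      · apply jacobiSym.sq_one'
        rw [← Int.isCoprime_iff_gcd_eq_one]
        have h3 : IsCoprime (a - b) (a + b) := by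
          obtain ⟨u, v, huv⟩ := hab
          -- 1 is a combination of 2a and 2b up to factor 2; a+b odd
          have h4 : (a - b) * (u - v) + (a + b) * (u + v) = 2 := by linear_combination 2 * huv
          obtain ⟨w, hw⟩ : ∃ w, a + b = 2 * w + 1 := ⟨(a + b) / 2, by omega⟩
          refine ⟨- w * (u - v), 1 - w * (u + v), ?_⟩
          linear_combination (-w) * h4 + hw
        have h5 : IsCoprime (a - b) (m : ℤ) := h3.of_isCoprime_of_dvd_right hmd
        exact h5
      · apply Int.ModEq.eq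
        rw [Int.modEq_comm, Int.modEq_iff_dvd, hN]
        refine (hmd.trans (dvd_pow_self (a + b) two_ne_zero)).trans ⟨1, by ring⟩
    rw [jacobiSym.mul_left] at h1
    have h2 : jacobiSym 2 m = 1 ∨ jacobiSym 2 m = -1 := jacobiSym.eq_one_or_neg_one h2m
    have h6 : jacobiSym (N : ℤ) m = jacobiSym 2 m := by
      rcases h2 with h | h <;> rw [h] at h1 ⊢ <;> linarith
    rw [h6, jacobiSym.at_two hmo, ZMod.χ₈_nat_eq_if_mod_eight]
    have h7 : m % 2 ≠ 0 := by rw [Nat.odd_iff] at hmo; omega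
    rw [if_neg h7]
    have h8 : (m % 8 = 1 ∨ m % 8 = 7) ↔ (a % 8 = 1 ∨ a % 8 = 7) := by
      rw [hm]; omega
    simp only [h8]

end H55W
end
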