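import Mathlib
import Pool.Agent.Lib.H1M.PP.M004
import Pool.Agent.Lib.H1M.PP.M006
import Pool.Agent.Lib.H1M.PP.M009
import Pool.Agent.Lib.H1M.PP.M010
import Pool.Agent.Lib.H1M.PP.M014
import Pool.Agent.Lib.H1M.PP.M015
import Pool.Agent.Lib.H1M.PP.M016
import Pool.Agent.Lib.H1M.PP.M025
import Pool.Agent.Lib.H1M.PP.M027
import Pool.Agent.Lib.H1M.PP.M029
import Pool.Agent.Lib.H1M.PP.M031
import Pool.Agent.Lib.H1M.PP.M032
import Pool.Agent.Lib.H1M.PP.M033
import Pool.Agent.Lib.H1M.PP.M034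
import Pool.Agent.Lib.H1M.PP.M035
import Pool.Agent.Lib.H1M.PP.M037
import Pool.Agent.Lib.H1M.PP.M040

/-! Merged copies (to shorten the build) of Lib.H55N.Core, Lib.H55R.D12, Lib.H55R.D13, Lib.H55R.Den, Lib.H13S.DS, Lib.H13S.PA1, Lib.H55K.SPA1, Lib.H55R.X6, Lib.H55R.X10, Lib.H55R.Cross, Lib.H55R.Fin, Lib.H55P.T10. -/

-- from Lib.H55N.Core
section

open NumberField IsDedekindDomain

namespace H55N

open H55B H55C

variable {K : Type} [Field K] [NumberField K] [Algebra F K] {m : ℕ}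

theorem Z3_gw (c : Fin (m + 1) × Fin 2 → Ideal (𝓞 K)) (p : Fin (m + 1) × Fin 2 → ℕ) (u : (𝓞 K)ˣ)
    (x : 𝓞 K) : gw c p ((u : 𝓞 K) * x) = gw c p x := by
  unfold gw
  refine Finset.prod_congr rfl fun i _ => ?_
  have : (u : 𝓞 K) * x ∈ c i ↔ x ∈ c i := Ideal.unit_mul_mem_iff_mem _ u.isUnit
  by_cases h : x ∈ c i
  · rw [if_pos (this.2 h), if_pos h]
  · rw [if_neg (fun h' => h (this.1 h')), if_neg h]

theorem Z3_nf {σ : Fin (m + 1) → K →+* ℂ} (hσ : Emb σ) (s : ℂ) (u : (𝓞 K)ˣ)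
    (hu : ∏ i, σ i ((u : 𝓞 K) : K) = 1) (x : 𝓞 K) : nf s ((u : 𝓞 K) * x) = nf s x := by
  have h : ∏ i, σ i (((u : 𝓞 K) * x : 𝓞 K) : K) = ∏ i, σ i (x : K) := by
    have h1 : ∀ i, σ i (((u : 𝓞 K) * x : 𝓞 K) : K) = σ i ((u : 𝓞 K) : K) * σ i (x : K) := by
      intro i
      rw [← map_mul]
      rfl
    rw [Finset.prod_congr rfl fun i _ => h1 i, Finset.prod_mul_distrib, hu, one_mul]
  unfold nf
  rw [← norm_eq hσ, ← norm_eq hσ, h]

theorem Z3_lam : (3 : O) = -(om ^ 2) * lam ^ 2 := by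
  have h := H55B.om_rel
  unfold lam
  linear_combination (om ^ 2 - 3 * om + 3) * h

theorem Z3_le (f b : Ideal (𝓞 K)) :
    Ideal.span {3} * f * b ≤ Ideal.span {algebraMap O (𝓞 K) lam} * b := by
  refine Ideal.mul_mono_left (Ideal.mul_le_left.trans ?_)
  rw [Ideal.span_singleton_le_span_singleton]
  refine ⟨algebraMap O (𝓞 K) (-(om ^ 2) * lam), ?_⟩
  rw [← map_mul]
  have h : (3 : 𝓞 K) = algebraMap O (𝓞 K) 3 := (map_ofNat _ 3).symm
  rw [h, Z3_lam]
  congr 1
  ring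

theorem Z3_bij {J' : Ideal (𝓞 K)} {X T : Set (𝓞 K)} (h0 : (0 : 𝓞 K) ∉ X) (hT : Transv J' X T)
    (u : Fin m → (𝓞 K)ˣ) (hu2 : ∀ z, (uu u z : 𝓞 K) - 1 ∈ J')
    (hu3 : ∀ v : (𝓞 K)ˣ, (v : 𝓞 K) - 1 ∈ J' → ∃! z : Fin m → ℤ, v = uu u z) :
    ∀ x ∈ X, ∃! q : (Fin m → ℤ) × T, x = (uu u q.1 : 𝓞 K) * q.2 := by
  intro x hx
  obtain ⟨r, hr, v, hv, hxv⟩ := hT.cover x hx
  obtain ⟨z, hz, hzu⟩ := hu3 v hv
  refine ⟨(z, ⟨r, hr⟩), ?_, ?_⟩
  · simp only
    rw [← hz]
    exact hxv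
  · rintro ⟨z', r'⟩ h'
    simp only at h'
    have e1 : (r' : 𝓞 K) = (((uu u z')⁻¹ * v : (𝓞 K)ˣ) : 𝓞 K) * r := by
      rw [Units.val_mul, mul_assoc, ← hxv, h', Units.inv_mul_cancel_left]
    have e2 : (((uu u z')⁻¹ * v : (𝓞 K)ˣ) : 𝓞 K) - 1 ∈ J' := by
      have e3 : (((uu u z')⁻¹ * v : (𝓞 K)ˣ) : 𝓞 K) - 1 =
          (((uu u z')⁻¹ : (𝓞 K)ˣ) : 𝓞 K) * (((v : 𝓞 K) - 1) - ((uu u z' : 𝓞 K) - 1)) := by
        have e4 : (((uu u z')⁻¹ : (𝓞 K)ˣ) : 𝓞 K) * (uu u z' : 𝓞 K) = 1 := Units.inv_mul _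
        rw [Units.val_mul]
        linear_combination e4
      rw [e3]
      exact J'.mul_mem_left _ (J'.sub_mem hv (hu2 z'))
    have e5 : (r' : 𝓞 K) = r := hT.uniq r hr r' r'.2 _ e2 e1
    have hr0 : r ≠ 0 := by
      rintro rfl
      exact h0 (hT.sub hr)
    have e6 : v = uu u z' := by
      apply Units.ext
      rw [e5, hxv] at h'
      exact mul_right_cancel₀ hr0 h'
    have e7 : z' = z := hzu z' e6
    subst e7
    congr 1
    exact Subtype.ext e5

/-- CORE (analytic continuation and integrality of the smoothed partial L-values). -/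
theorem core (K : Type) [Field K] [NumberField K] [Algebra F K] (m : ℕ)
    (hm : Module.finrank F K = m + 1) (hK : UnrOut K) (b f : Ideal (𝓞 K)) (hb : b ≠ ⊥)
    (hb2 : IsCoprime b (Ideal.span {2})) (hf : f ≠ ⊥) (hf2 : IsCoprime f (Ideal.span {2}))
    (c₀ : 𝓞 K) (hc : c₀ ∈ b) (hc' : c₀ ∉ Ideal.span {algebraMap O (𝓞 K) lam} * b) :
    ∃ Bad : Set (Ideal (𝓞 K)), Bad.Finite ∧
      ∀ (c : Fin (m + 1) × Fin 2 → Ideal (𝓞 K)) (p : Fin (m + 1) × Fin 2 → ℕ), Smooth c p →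
        (∀ i, c i ∉ Bad) → ∃ Z : ℂ → ℂ, AnalyticOnNhd ℂ Z {s | 1 / 2 < s.re} ∧
          (∀ T : Set (𝓞 K), Transv (Ideal.span {3} * f) (XS (Ideal.span {3} * f * b) c₀) T →
            ∀ s : ℂ, 3 / 2 < s.re → HasSum (fun x : T => gw c p x * nf s (x : 𝓞 K)) (Z s)) ∧
          Int2 (Z 1 / R0 ^ (m + 1)) := by
  classical
  obtain ⟨σ, hσ⟩ := emb_exists K m hm
  set J : Ideal (𝓞 K) := Ideal.span {3} * f with hJdef
  set J' : Ideal (𝓞 K) := Ideal.span {2} * J with hJ'def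
  have hJ0 : J ≠ ⊥ := by
    rw [hJdef]
    exact mul_ne_zero (by simp) hf
  have hJ'0 : J' ≠ ⊥ := by
    rw [hJ'def]
    exact mul_ne_zero (by simp) hJ0
  have hJ'J : J' ≤ J := Ideal.mul_le_right
  have hJ3 : J ≤ Ideal.span {3} := Ideal.mul_le_left
  have hJ6 : J' ≤ Ideal.span {6} := by
    rw [hJ'def, hJdef, ← mul_assoc, Ideal.span_singleton_mul_span_singleton]
    have : (2 : 𝓞 K) * 3 = 6 := by norm_num
    rw [this]
    exact Ideal.mul_le_left
  obtain ⟨u, hu1, hu2, hu3, hu4⟩ := units_basis hm J' hJ'0 hJ6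
  obtain ⟨L, hL⟩ := labels_exist hm b f hb c₀ hc hc' u (fun z => hJ6 (hu2 z))
  have hI0 : Ideal.span {3} * f * b ≠ ⊥ := mul_ne_zero hJ0 hb
  have hdir := fun (q : (Fin m → Fin (m + 1)) × Equiv.Perm (Fin m)) =>
    directions hm (fun k : Fin (m + 1) => L (kv (fun k => ((q.1 k : ℕ) : ℤ)) q.2 k))
      (labels_indep b c₀ u L hL _ _) (Ideal.span {3} * f * b) hI0
  choose d hd1 hd2 hd3 using hdir
  refine ⟨(⋃ q : ((Fin m → Fin (m + 1)) × Equiv.Perm (Fin m)) × Fin (m + 1),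
    {c : Ideal (𝓞 K) | d q.1 q.2 ∈ c}) ∪ {c : Ideal (𝓞 K) | (2 : 𝓞 K) ∈ c}, ?_, ?_⟩
  · refine Set.Finite.union (Set.finite_iUnion fun q => finite_ideals _ (hd2 _ _)) ?_
    exact finite_ideals 2 two_ne_zero
  intro c p hcp hbad
  let D : Ctx K m := ⟨σ, Ideal.span {3} * f * b, c₀, c, p⟩
  have hD : D.Ok := ⟨hσ, fun h => hc' (Z3_le f b h), hcp⟩
  have h0X : (0 : 𝓞 K) ∉ D.X := fun h => D.X_ne hD.ne h rfl
  have hp2 : ∀ i, D.p i ≠ 2 := by
    intro i hi
    apply hbad i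
    right
    have h1 : ((Ideal.absNorm (c i) : ℕ) : 𝓞 K) ∈ c i := Ideal.absNorm_mem _
    rw [hcp.norm i] at h1
    have h2 : p i = 2 := hi
    rw [h2] at h1
    exact_mod_cast h1
  have hact : ∀ v : (𝓞 K)ˣ, (v : 𝓞 K) - 1 ∈ J → ((v : 𝓞 K) - 1) * D.c₀ ∈ D.I :=
    fun v hv => Ideal.mul_mem_mul hv hc
  have hu : D.UOk u := ⟨fun j => hact _ (hJ'J (hu1 j)),
    fun j => norm_one D hσ (u j) (hJ3 (hJ'J (hu1 j))), delta_ne D hσ u hu4⟩
  have hlow := labels_low D hσ b f c₀ ⟨rfl, rfl⟩ u L hL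
  have hdirs : ∀ (a : Fin m → Fin (m + 1)) (π : Equiv.Perm (Fin m)),
      ∃ w', D.Dirs (fun k : Fin (m + 1) => L (kv (fun k => ((a k : ℕ) : ℤ)) π k)) w' := by
    intro a π
    refine dirs_of D hD _ (d (a, π)) (hd1 (a, π)) ?_ (hd3 (a, π)) ?_ ?_
      (labels_indep b c₀ u L hL _ _)
    · intro i j hj
      apply hbad i
      left
      exact Set.mem_iUnion.2 ⟨((a, π), j), hj⟩
    · intro x hx k
      obtain ⟨⟨y, hy⟩, -⟩ := hlow (kv (fun k => ((a k : ℕ) : ℤ)) π k) x hx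
      exact ⟨_, hy⟩
    · intro x hx k
      exact (hlow (kv (fun k => ((a k : ℕ) : ℤ)) π k) x hx).2
  obtain ⟨w, hw⟩ := hdirs (fun _ => 0) 1
  obtain ⟨G, hG⟩ := gspec_exists D hD _ w hw
  obtain ⟨Z, hZ1, hZ2, hZ3⟩ := zfun D hD u hu _ w hw G hG
  have hval := CN_value D hD u hu _ w hw G hG L hL.equi hdirs
  have hint := CN_int2 hK D hD b f hb2 hf2 rfl hp2 u L hL hdirs
  have hZint : Int2 (Z 1 / R0 ^ (m + 1)) := by
    rcases le_total 0 (Delta (D.lm u)) with h | h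
    · rw [hZ3, abs_of_nonneg h, ← hval]
      exact hint
    · rw [hZ3, abs_of_nonpos h]
      have : (m.factorial : ℂ) * ((-Delta (D.lm u) : ℝ) : ℂ) *
          (∫ z in Set.Icc (0 : Fin m → ℝ) 1, D.Bv w G (fun _ => tt (D.lm u) z)) / R0 ^ (m + 1) =
          -(CN (m + 1) D.Jv (fun a => .A (L a)) / R0 ^ (m + 1)) := by
        rw [hval]
        push_cast
        ring
      rw [this]
      exact hint.neg
  have hJ2 : IsCoprime J (Ideal.span {2}) := by
    rw [hJdef]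
    refine IsCoprime.mul_left ?_ hf2
    rw [Ideal.isCoprime_span_singleton_iff]
    exact ⟨1, -1, by norm_num⟩
  obtain ⟨ν, hν, hT⟩ := odd_change hK J J' hJ0 hJ2 rfl D.X h0X (by
    intro v hv x hx
    have h1 : (v : 𝓞 K) * x - D.c₀ = ((v : 𝓞 K) - 1) * D.c₀ + v * (x - D.c₀) := by ring
    rw [D.mem_X, h1]
    exact D.I.add_mem (hact v hv) (D.I.mul_mem_left _ hx))
  refine ⟨fun s => Z s / ν, ?_, ?_, ?_⟩
  · exact fun s hs => (hZ1 s hs).div_const
  · intro T hTT s hs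
    obtain ⟨T', hT', hφ⟩ := hT T hTT
    refine hφ (fun x => gw c p x * nf s x) (Z s) ?_ ?_
    · intro v hv x _
      rw [Z3_gw, Z3_nf hσ s v (norm_one D hσ v (hJ3 hv))]
    · exact hZ2 T' hT'.sub (Z3_bij h0X hT' u hu2 hu3) s hs
  · have : Z 1 / (ν : ℂ) / R0 ^ (m + 1) = Z 1 / R0 ^ (m + 1) / ν := by
      rw [div_right_comm]
    show Int2 (Z 1 / (ν : ℂ) / R0 ^ (m + 1))
    rw [this]
    exact hZint.div_odd ν hν

/-- NOPOLES (the unsmoothed partial series have no poles on the line Re s = 3/2). -/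
theorem nopoles (K : Type) [Field K] [NumberField K] [Algebra F K] (m : ℕ)
    (hm : Module.finrank F K = m + 1) (hm3 : ¬ 3 ∣ m + 1) (b f : Ideal (𝓞 K)) (hb : b ≠ ⊥)
    (hf : f ≠ ⊥) (c₀ : 𝓞 K) (hc : c₀ ∈ b)
    (hc' : c₀ ∉ Ideal.span {algebraMap O (𝓞 K) lam} * b) :
    ∃ Z : ℂ → ℂ, AnalyticOnNhd ℂ Z {s | 3 / 2 - 1 / (2 * (m + 1)) < s.re} ∧
      ∀ T : Set (𝓞 K), Transv (Ideal.span {3} * f) (XS (Ideal.span {3} * f * b) c₀) T →
        ∀ s : ℂ, 3 / 2 < s.re → HasSum (fun x : T => nf s (x : 𝓞 K)) (Z s) := by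
  classical
  obtain ⟨σ, hσ⟩ := emb_exists K m hm
  set J : Ideal (𝓞 K) := Ideal.span {3} * f with hJdef
  set J' : Ideal (𝓞 K) := Ideal.span {2} * J with hJ'def
  have hJ0 : J ≠ ⊥ := by
    rw [hJdef]
    exact mul_ne_zero (by simp) hf
  have hJ'0 : J' ≠ ⊥ := by
    rw [hJ'def]
    exact mul_ne_zero (by simp) hJ0
  have hJ'J : J' ≤ J := Ideal.mul_le_right
  have hJ3 : J ≤ Ideal.span {3} := Ideal.mul_le_left
  have hJ6 : J' ≤ Ideal.span {6} := by
    rw [hJ'def, hJdef, ← mul_assoc, Ideal.span_singleton_mul_span_singleton]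
    have : (2 : 𝓞 K) * 3 = 6 := by norm_num
    rw [this]
    exact Ideal.mul_le_left
  obtain ⟨u, hu1, hu2, hu3, hu4⟩ := units_basis hm J' hJ'0 hJ6
  let D : Ctx K m := ⟨σ, Ideal.span {3} * f * b, c₀, fun _ => ⊥, fun _ => 0⟩
  have hne : D.c₀ ∉ D.I := fun h => hc' (Z3_le f b h)
  have h0X : (0 : 𝓞 K) ∉ D.X := fun h => D.X_ne hne h rfl
  have hact : ∀ v : (𝓞 K)ˣ, (v : 𝓞 K) - 1 ∈ J → ((v : 𝓞 K) - 1) * D.c₀ ∈ D.I :=
    fun v hv => Ideal.mul_mem_mul hv hc
  have hu : D.UOk u := ⟨fun j => hact _ (hJ'J (hu1 j)),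
    fun j => norm_one D hσ (u j) (hJ3 (hJ'J (hu1 j))), delta_ne D hσ u hu4⟩
  obtain ⟨Z, hZ1, hZ2⟩ := zfun_one D hσ hne hm3 u hu
    (Ideal.span {algebraMap O (𝓞 K) lam} * b) (Z3_le f b) hc'
    (Ideal.mul_mem_mul (Ideal.mem_span_singleton_self _) hc)
  obtain ⟨ν, hν, hT⟩ := finite_change J J' hJ'0 hJ'J D.X h0X (by
    intro v hv x hx
    have h1 : (v : 𝓞 K) * x - D.c₀ = ((v : 𝓞 K) - 1) * D.c₀ + v * (x - D.c₀) := by ring
    rw [D.mem_X, h1]
    exact D.I.add_mem (hact v hv) (D.I.mul_mem_left _ hx))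
  refine ⟨fun s => Z s / ν, ?_, ?_⟩
  · exact fun s hs => (hZ1 s hs).div_const
  · intro T hTT s hs
    obtain ⟨T', hT', hφ⟩ := hT T hTT
    refine hφ (fun x => nf s x) (Z s) ?_ ?_
    · intro v hv x _
      exact Z3_nf hσ s v (norm_one D hσ v (hJ3 hv)) x
    · exact hZ2 T' hT'.sub (Z3_bij h0X hT' u hu2 hu3) s hs

end H55N
end

-- from Lib.H55R.D12
section

open NumberField IsDedekindDomain

namespace H55R

open H55B H55N

theorem D12_fin {K : Type} [Field K] [NumberField K] [Algebra F K] :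
    ∃ m : ℕ, Module.finrank F K = m + 1 := by
  have : IsScalarTower ℚ F K := IsScalarTower.of_algebraMap_eq' (Subsingleton.elim _ _)
  have : Module.Finite F K := Module.Finite.of_restrictScalars_finite ℚ F K
  have h : 0 < Module.finrank F K := Module.finrank_pos
  exact ⟨Module.finrank F K - 1, by omega⟩

theorem D12_three {K : Type} [Field K] [NumberField K] :
    (Ideal.span {3} : Ideal (𝓞 K)) ≠ ⊤ := by
  intro h
  have h1 : Ideal.absNorm (Ideal.span {3} : Ideal (𝓞 K)) = 1 := by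
    rw [h]
    exact Ideal.absNorm_top
  rw [Ideal.absNorm_span_singleton] at h1
  have h2 : (3 : 𝓞 K) = algebraMap ℤ (𝓞 K) 3 := by simp
  rw [h2, Algebra.norm_algebraMap] at h1
  have h3 : 0 < Module.finrank ℤ (𝓞 K) := Module.finrank_pos
  rw [Int.natAbs_pow] at h1
  have h4 : 1 < Int.natAbs 3 ^ Module.finrank ℤ (𝓞 K) := Nat.one_lt_pow h3.ne' (by decide)
  omega

theorem D12_ne {K : Type} [Field K] [NumberField K] (f b : Ideal (𝓞 K)) (hf : f ≠ ⊥) (c₀ : 𝓞 K)
    (hp : ∀ w : HeightOneSpectrum (𝓞 K), Ideal.span {3} * f ≤ w.asIdeal → c₀ ∉ w.asIdeal * b) :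
    c₀ ∉ Ideal.span {3} * f * b := by
  intro h
  have h1 : (Ideal.span {3} * f : Ideal (𝓞 K)) ≠ ⊤ := fun h2 =>
    D12_three (K := K) (top_unique (h2 ▸ Ideal.mul_le_left))
  obtain ⟨M, hM, hM2⟩ := Ideal.exists_le_maximal _ h1
  have h3 : (Ideal.span {(3 : 𝓞 K)}) ≠ ⊥ := by
    rw [Ne, Ideal.span_singleton_eq_bot]
    exact OfNat.ofNat_ne_zero 3
  have hM0 : M ≠ ⊥ := by
    rintro rfl
    exact mul_ne_zero h3 hf (le_bot_iff.1 hM2)
  exact hp ⟨M, hM.isPrime, hM0⟩ hM2 (Ideal.mul_mono_left hM2 h)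

theorem D12_wt {K : Type} [Field K] [NumberField K] (c : Ideal (𝓞 K)) (u : (𝓞 K)ˣ) (x : 𝓞 K) :
    wt c ((u : 𝓞 K) * x) = wt c x := by
  unfold wt
  have : (u : 𝓞 K) * x ∈ c ↔ x ∈ c := Ideal.unit_mul_mem_iff_mem _ u.isUnit
  by_cases h : x ∈ c
  · rw [if_pos (this.2 h), if_pos h]
  · rw [if_neg (fun h' => h (this.1 h')), if_neg h]

theorem D12_wt_bd {K : Type} [Field K] [NumberField K] (c : Ideal (𝓞 K)) (x : 𝓞 K) :
    ‖wt c x‖ ≤ 1 + Ideal.absNorm c := by
  unfold wt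
  split_ifs
  · refine (norm_sub_le _ _).trans ?_
    rw [NormOneClass.norm_one, Complex.norm_natCast]
  · rw [NormOneClass.norm_one]
    have : (0 : ℝ) ≤ Ideal.absNorm c := Nat.cast_nonneg _
    linarith

section

variable {K : Type} [Field K] [NumberField K] [Algebra F K] {m : ℕ}

theorem D12_N (D : Ctx K m) (hσ : Emb D.σ) (x : 𝓞 K) :
    D.N x = emb (Algebra.norm F (x : K)) := norm_eq hσ _

theorem D12_nn (D : Ctx K m) (hσ : Emb D.σ) (x : 𝓞 K) : nn x = ‖D.N x‖ := by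
  rw [D12_N D hσ]
  rfl

theorem D12_Nmul (D : Ctx K m) (u x : 𝓞 K) : D.N (u * x) = D.N u * D.N x := by
  unfold Ctx.N
  rw [← Finset.prod_mul_distrib]
  refine Finset.prod_congr rfl fun i _ => ?_
  rw [← map_mul]
  rfl

theorem D12_N_ne (D : Ctx K m) {x : 𝓞 K} (hx : x ≠ 0) : D.N x ≠ 0 := by
  unfold Ctx.N
  refine Finset.prod_ne_zero_iff.2 fun i _ => ?_
  rw [Ne, map_eq_zero]
  exact fun h => hx (RingOfIntegers.coe_eq_zero_iff.1 h)

theorem D12_Q_pos (D : Ctx K m) (t : Fin (m + 1) → ℝ) (ht : ∀ i, 0 < t i) {x : 𝓞 K} (hx : x ≠ 0) :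
    0 < D.Q t x := by
  unfold Ctx.Q
  refine Finset.sum_pos (fun i _ => ?_) Finset.univ_nonempty
  have h1 : D.σ i (x : K) ≠ 0 := by
    rw [Ne, map_eq_zero]
    exact fun h => hx (RingOfIntegers.coe_eq_zero_iff.1 h)
  have := ht i
  have h2 := norm_pos_iff.2 h1
  positivity

/-- conj N times N/|N| -/
theorem D12_conj (z : ℂ) (hz : z ≠ 0) : z / (‖z‖ : ℂ) * (starRingEnd ℂ) z = (‖z‖ : ℂ) := by
  have h : (‖z‖ : ℂ) ≠ 0 := by
    exact_mod_cast norm_ne_zero_iff.2 hz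
  rw [div_mul_eq_mul_div, Complex.mul_conj, Complex.normSq_eq_norm_sq, div_eq_iff h]
  push_cast
  ring

theorem D12_nf (D : Ctx K m) (hσ : Emb D.σ) (s : ℝ) {x : 𝓞 K} (hx : x ≠ 0) :
    D.N x / (‖D.N x‖ : ℂ) * nf ((s + 1 / 2 : ℝ) : ℂ) x = ((nn x ^ (-2 * s) : ℝ) : ℂ) := by
  have hN := D12_N_ne D hx
  have h0 : 0 < ‖D.N x‖ := norm_pos_iff.2 hN
  unfold nf g
  rw [← D12_N D hσ, ← mul_assoc, D12_conj _ hN, D12_nn D hσ]
  have h1 : (-2 * ((s + 1 / 2 : ℝ) : ℂ)) = ((-2 * (s + 1 / 2) : ℝ) : ℂ) := by push_cast; ring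
  rw [h1, ← Complex.ofReal_cpow h0.le, ← Complex.ofReal_mul]
  congr 1
  have h2 : ‖D.N x‖ * ‖D.N x‖ ^ (-2 * (s + 1 / 2)) = ‖D.N x‖ ^ (1 : ℝ) * ‖D.N x‖ ^ (-2 * (s + 1 / 2)) := by
    rw [Real.rpow_one]
  rw [h2, ← Real.rpow_add h0]
  congr 1
  ring

theorem D12_fs (D : Ctx K m) (t : Fin (m + 1) → ℝ) (ht : ∀ i, 0 < t i) (s : ℝ) {x : 𝓞 K}
    (hx : x ≠ 0) : D.N x / (‖D.N x‖ : ℂ) * D.fs t (s : ℂ) x = ((‖D.fs t (s : ℂ) x‖ : ℝ) : ℂ) := by
  have hN := D12_N_ne D hx
  have hQ := D12_Q_pos D t ht hx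
  have h1 : (-((m + 1 : ℕ) * (s : ℂ))) = ((-((m + 1 : ℕ) * s) : ℝ) : ℂ) := by push_cast; ring
  have h2 : D.fs t (s : ℂ) x = (starRingEnd ℂ) (D.N x) * ((D.Q t x ^ (-((m + 1 : ℕ) * s)) : ℝ) : ℂ) := by
    unfold Ctx.fs
    rw [h1, ← Complex.ofReal_cpow hQ.le]
  have h3 : 0 ≤ D.Q t x ^ (-((m + 1 : ℕ) * s)) := Real.rpow_nonneg hQ.le _
  rw [h2, ← mul_assoc, D12_conj _ hN, norm_mul, RCLike.norm_conj, Complex.norm_real,
    Real.norm_of_nonneg h3, Complex.ofReal_mul]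

end

/-- Chunk RD12 (M/L), the smoothed partial series of a class is bounded (model: the proof of H55N.core in H55N/Core.lean). finrank F K = m + 1, sigma from emb_exists,
J = 3 f, J' = (2) J c (nonzero, <= J, <= (6)), X = XS (J b) c₀, D = the context sigma, I = J b, c₀ (c, p arbitrary). c₀ is not in J b (hp at a prime w containing 3, see H13_prime).
phi(x) = wt c x * nn x ^ (-2 s) is invariant under the units u = 1 mod J on X (u x in c iff x in c; N u = 1 by norm_one and norm_eq, as J <= (3)). X is stable under these units ((u - 1) x in J b: x in b).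
finite_change J J' gives nu > 0 and T' = a transversal of X modulo the units = 1 mod J' such that HasSum over T' of phi with sum S gives HasSum over T with sum S / nu.
units_basis for J' gives u; UOk D u: act (u - 1 in J, c₀ in b), norm (norm_one), reg (delta_ne). Z3_bij gives the bijection hypothesis of unfold. Apply unfold with
g(x) = wt c x * (D.N x / |D.N x|) (bounded by q + 1; invariant under the units uu u z: these have norm 1, uu_act) at s' = s + 1/2 in (3/2, 5/2]: for x <> 0, g(x) nf s' x = wt c x * |N x|^(-2s)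
= phi(x) (nf s' x = conj N |N|^(-2s'), D.N x = emb (norm x) by norm_eq, N <> 0), and g(x) fs(t, s', x) = wt c x * |fs(t, s', x)| (the power of Q is a positive real number). So the sum over T' of phi
converges and times cst(s') it is the integral over the cube of the sums of cube_bdd (a, b from U4_tt_bd), bounded by the constant C of cube_bdd (the cube has volume one; MeasureTheory.norm_setIntegral_le_of_norm_le_const), and
|cst(s')| >= delta (cst_low, lm_sum). Bound: C / (delta nu). -/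
theorem class_bdd {K : Type} [Field K] [NumberField K] [Algebra F K] (f b : Ideal (𝓞 K))
    (hf : f ≠ ⊥) (hb : b ≠ ⊥) (c₀ : 𝓞 K) (hc : c₀ ∈ b)
    (hp : ∀ w : HeightOneSpectrum (𝓞 K), Ideal.span {3} * f ≤ w.asIdeal → c₀ ∉ w.asIdeal * b)
    (c : Pl K) (hcc : IsCoprime (Ideal.span {3} * f * b) c.asIdeal) (T : Set (𝓞 K))
    (hT : Transv (Ideal.span {3} * f) (XS (Ideal.span {3} * f * b) c₀) T) :
    ∃ C : ℝ, ∀ s ∈ Set.Ioc (1 : ℝ) 2, ∃ Z : ℂ, ‖Z‖ ≤ C ∧
      HasSum (fun x : T => wt c.asIdeal (x : 𝓞 K) * ((nn (x : 𝓞 K) ^ (-2 * s) : ℝ) : ℂ)) Z := by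
  classical
  obtain ⟨m, hm⟩ := D12_fin (K := K)
  obtain ⟨σ, hσ⟩ := emb_exists K m hm
  have hne0 := D12_ne f b hf c₀ hp
  obtain ⟨J, hJdef⟩ : ∃ J : Ideal (𝓞 K), J = Ideal.span {3} * f := ⟨_, rfl⟩
  obtain ⟨J', hJ'def⟩ : ∃ J' : Ideal (𝓞 K), J' = Ideal.span {2} * J := ⟨_, rfl⟩
  rw [← hJdef] at hT hne0 hcc
  have hJ0 : J ≠ ⊥ := by
    rw [hJdef]
    exact mul_ne_zero (by simp) hf
  have hJ'0 : J' ≠ ⊥ := by
    rw [hJ'def]
    exact mul_ne_zero (by simp) hJ0
  have hJ'J : J' ≤ J := by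
    rw [hJ'def]
    exact Ideal.mul_le_right
  have hJ3 : J ≤ Ideal.span {3} := by
    rw [hJdef]
    exact Ideal.mul_le_left
  have hJ6 : J' ≤ Ideal.span {6} := by
    rw [hJ'def, hJdef, ← mul_assoc, Ideal.span_singleton_mul_span_singleton]
    have : (2 : 𝓞 K) * 3 = 6 := by norm_num
    rw [this]
    exact Ideal.mul_le_left
  obtain ⟨u, hu1, hu2, hu3, hu4⟩ := units_basis hm J' hJ'0 hJ6
  obtain ⟨D, hDσ, hDI, hDc⟩ : ∃ D : Ctx K m, D.σ = σ ∧ D.I = J * b ∧ D.c₀ = c₀ :=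
    ⟨⟨σ, J * b, c₀, fun _ => ⊥, fun _ => 0⟩, rfl, rfl, rfl⟩
  have hσ' : Emb D.σ := by
    rw [hDσ]
    exact hσ
  have hne : D.c₀ ∉ D.I := by
    rw [hDI, hDc]
    exact hne0
  have hDX : D.X = XS (J * b) c₀ := by
    unfold Ctx.X
    rw [hDI, hDc]
  rw [← hDX] at hT
  have h0X : (0 : 𝓞 K) ∉ D.X := fun h => D.X_ne hne h rfl
  have hact : ∀ v : (𝓞 K)ˣ, (v : 𝓞 K) - 1 ∈ J → ((v : 𝓞 K) - 1) * D.c₀ ∈ D.I := by
    intro v hv
    rw [hDI, hDc]
    exact Ideal.mul_mem_mul hv hc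
  have hu : D.UOk u := ⟨fun j => hact _ (hJ'J (hu1 j)),
    fun j => H55N.norm_one D hσ' (u j) (hJ3 (hJ'J (hu1 j))), delta_ne D hσ' u hu4⟩
  obtain ⟨ν, hν, hT2⟩ := finite_change J J' hJ'0 hJ'J D.X h0X (by
    intro v hv x hx
    have h1 : (v : 𝓞 K) * x - D.c₀ = ((v : 𝓞 K) - 1) * D.c₀ + v * (x - D.c₀) := by ring
    rw [D.mem_X, h1]
    exact D.I.add_mem (hact v hv) (D.I.mul_mem_left _ hx))
  obtain ⟨T', hT', hφ⟩ := hT2 T hT
  obtain ⟨a, b', ha, hab⟩ := U4_tt_bd (D.lm u)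
  obtain ⟨C, hC⟩ := cube_bdd D hσ' hne c.asIdeal c.ne_bot (by rw [hDI]; exact hcc) a b' ha
  obtain ⟨δ, hδ, hlow⟩ := cst_low (D.lm u) (lm_sum D u hu) hu.reg
  have hinv : ∀ v : (𝓞 K)ˣ, ∏ i, D.σ i ((v : 𝓞 K) : K) = 1 → ∀ x : 𝓞 K,
      D.N ((v : 𝓞 K) * x) = D.N x := by
    intro v hv x
    rw [D12_Nmul]
    have : D.N (v : 𝓞 K) = 1 := hv
    rw [this, one_mul]
  have hunf := fun s' : ℂ => H55N.unfold D hσ' hne u hu
    (fun x => wt c.asIdeal x * (D.N x / (‖D.N x‖ : ℂ)))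
    ⟨1 + Ideal.absNorm c.asIdeal, fun x => by
      rw [norm_mul]
      refine (mul_le_of_le_one_right (norm_nonneg _) ?_).trans (D12_wt_bd _ _)
      rw [norm_div, Complex.norm_real, norm_norm]
      exact div_self_le_one _⟩
    (fun x _ z => by
      show wt c.asIdeal ((uu u z : 𝓞 K) * x) * (D.N ((uu u z : 𝓞 K) * x) /
        (‖D.N ((uu u z : 𝓞 K) * x)‖ : ℂ)) = wt c.asIdeal x * (D.N x / (‖D.N x‖ : ℂ))
      rw [D12_wt, hinv _ (uu_act D u hu z).2.1])
    T' hT'.sub (Z3_bij h0X hT' u hu2 hu3) s'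
  refine ⟨C / δ / ν, fun s hs => ?_⟩
  obtain ⟨hs1, hs2⟩ := hs
  obtain ⟨hsum, hint⟩ := hunf ((s + 1 / 2 : ℝ) : ℂ) (by rw [Complex.ofReal_re]; linarith)
  have hterm : ∀ x : T', wt c.asIdeal (x : 𝓞 K) * (D.N (x : 𝓞 K) / (‖D.N (x : 𝓞 K)‖ : ℂ)) *
      nf ((s + 1 / 2 : ℝ) : ℂ) (x : 𝓞 K) =
      wt c.asIdeal (x : 𝓞 K) * ((nn (x : 𝓞 K) ^ (-2 * s) : ℝ) : ℂ) := by
    intro x
    rw [mul_assoc, D12_nf D hσ' s (D.X_ne hne (hT'.sub x.2))]
  have hsum' : Summable fun x : T' => wt c.asIdeal (x : 𝓞 K) *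
      ((nn (x : 𝓞 K) ^ (-2 * s) : ℝ) : ℂ) := by
    refine (hsum.of_norm).congr fun x => ?_
    exact hterm x
  have hhas := hsum'.hasSum
  refine ⟨(∑' x : T', wt c.asIdeal (x : 𝓞 K) * ((nn (x : 𝓞 K) ^ (-2 * s) : ℝ) : ℂ)) / ν, ?_, ?_⟩
  · have hν0 : (0 : ℝ) < ν := by exact_mod_cast hν
    rw [norm_div, Complex.norm_natCast]
    refine div_le_div_of_nonneg_right ?_ hν0.le
    rw [le_div_iff₀ hδ]
    have h1 : (∑' x : T', wt c.asIdeal (x : 𝓞 K) * (D.N (x : 𝓞 K) / (‖D.N (x : 𝓞 K)‖ : ℂ)) *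
      nf ((s + 1 / 2 : ℝ) : ℂ) (x : 𝓞 K)) =
        ∑' x : T', wt c.asIdeal (x : 𝓞 K) * ((nn (x : 𝓞 K) ^ (-2 * s) : ℝ) : ℂ) :=
      tsum_congr hterm
    have h2 : ‖∑' x : T', wt c.asIdeal (x : 𝓞 K) * ((nn (x : 𝓞 K) ^ (-2 * s) : ℝ) : ℂ)‖ *
        ‖cst (D.lm u) ((s + 1 / 2 : ℝ) : ℂ)‖ ≤ C := by
      rw [← norm_mul, ← h1, hint]
      have h3 := MeasureTheory.norm_setIntegral_le_of_norm_le_const (C := C)
        (μ := MeasureTheory.volume) (s := Set.Icc (0 : Fin m → ℝ) 1)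
        (f := fun z => ∑' x : D.X, wt c.asIdeal (x : 𝓞 K) *
          (D.N (x : 𝓞 K) / (‖D.N (x : 𝓞 K)‖ : ℂ)) *
            D.fs (tt (D.lm u) z) ((s + 1 / 2 : ℝ) : ℂ) x)
        (by
          rw [Real.volume_Icc_pi]
          simp) (by
          intro z hz
          have hz2 := hab z hz
          have h4 := hC (tt (D.lm u) z) hz2 (s + 1 / 2) ⟨by linarith, by linarith⟩
          refine (le_of_eq ?_).trans h4
          congr 1
          refine tsum_congr fun x => ?_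
          rw [mul_assoc, D12_fs D (tt (D.lm u) z) (fun i => ha.trans_le (hz2 i).1) (s + 1 / 2)
            (D.X_ne hne x.2)])
      refine h3.trans (le_of_eq ?_)
      have h5 : MeasureTheory.volume.real (Set.Icc (0 : Fin m → ℝ) 1) = 1 := by
        rw [MeasureTheory.measureReal_def, Real.volume_Icc_pi]
        simp
      rw [h5, mul_one]
    exact (mul_le_mul_of_nonneg_left (hlow (s + 1 / 2) ⟨by linarith, by linarith⟩)
      (norm_nonneg _)).trans h2
  · refine hφ (fun x => wt c.asIdeal x * ((nn x ^ (-2 * s) : ℝ) : ℂ)) _ ?_ hhas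
    intro v hv x _
    have h1 : nn ((v : 𝓞 K) * x) = nn x := by
      rw [D12_nn D hσ', D12_nn D hσ', hinv v (H55N.norm_one D hσ' v (hJ3 hv))]
    show wt c.asIdeal ((v : 𝓞 K) * x) * ((nn ((v : 𝓞 K) * x) ^ (-2 * s) : ℝ) : ℂ) = _
    rw [D12_wt, h1]

end H55R
end

-- from Lib.H55R.D13
section

open NumberField IsDedekindDomain

namespace H55R

open H55B H55N

/-- The L-series of a nontrivial ray class character is bounded near 1. -/
theorem bdd {K : Type} [Field K] [NumberField K] [Algebra F K] (f : Ideal (𝓞 K)) (hf : f ≠ ⊥)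
    (φ : Pl K → ℂˣ) (hφ : φ ∈ RC f) (hn : ∀ v, ‖(φ v : ℂ)‖ = 1) (h1 : φ ≠ 1) :
    ∃ C : ℝ, ∀ s ∈ Set.Ioc (1 : ℝ) 2, ‖Ls (tI f φ) s‖ ≤ C := by
  classical
  obtain ⟨C₁, hC₁, hmod⟩ := change_mod f hf φ hn
  obtain ⟨ι, _, b, c₀, T, hCD⟩ := exists_CD f hf
  have h3 : (Ideal.span {(3 : 𝓞 K)}) ≠ ⊥ := by
    rw [Ne, Ideal.span_singleton_eq_bot]
    exact OfNat.ofNat_ne_zero 3
  set J : Ideal (𝓞 K) := Ideal.span {3} * f with hJ
  have hJ0 : J ≠ ⊥ := mul_ne_zero h3 hf
  have hg : J * ∏ i, b i ≠ ⊥ := mul_ne_zero hJ0 (Finset.prod_ne_zero_iff.2 fun i _ => hCD.ne i)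
  obtain ⟨c, hcf, hcg, hφc⟩ := exists_prime f hf φ hφ h1 _ hg
  have hcmax : c.asIdeal.IsMaximal := c.isPrime.isMaximal c.ne_bot
  have hcop : ∀ I : Ideal (𝓞 K), ¬ I ≤ c.asIdeal → IsCoprime I c.asIdeal := by
    intro I hI
    rw [Ideal.isCoprime_iff_sup_eq]
    by_contra hne
    obtain ⟨M, hM, hle⟩ := Ideal.exists_le_maximal _ hne
    have h4 : c.asIdeal = M := hcmax.eq_of_le hM.ne_top (le_sup_right.trans hle)
    exact hI (h4 ▸ le_sup_left.trans hle)
  have hJc : ¬ J ≤ c.asIdeal := fun h => hcg (Ideal.mul_le_left.trans h)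
  have hbc : ∀ i, ¬ b i ≤ c.asIdeal := fun i h => hcg
    (Ideal.mul_le_right.trans ((Ideal.prod_le_inf.trans (Finset.inf_le (Finset.mem_univ i))).trans h))
  have hcJ : IsCoprime J c.asIdeal := hcop J hJc
  have hcb : ∀ i, IsCoprime (b i) c.asIdeal := fun i => hcop _ (hbc i)
  choose κ hκ using fun i => term_class f (b i) hf (hCD.ne i) φ hφ (hCD.cop i) (c₀ i) (hCD.mem i)
    (hCD.prim i)
  choose C hC using fun i => class_bdd f (b i) hf (hCD.ne i) (c₀ i) (hCD.mem i) (hCD.prim i) c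
    ((hcJ.mul_left (hcb i))) (T i) (hCD.trans i)
  have hh : ∀ a, ‖tI J φ a‖ ≤ 1 := dd_norm_tI J φ hn
  have htc : tI J φ c.asIdeal = (φ c : ℂ) := by
    rw [tI_apply J φ c.ne_bot hcJ.symm, pv_prime]
  obtain ⟨δ, hδ, hlow⟩ := fac_low (Ideal.absNorm c.asIdeal) (dd_two_le c) (φ c : ℂ) (hn c)
    (fun h => hφc (Units.ext h))
  refine ⟨C₁ * ((∑ i, ‖κ i‖ * ((Ideal.absNorm (b i) : ℝ) ^ (2 : ℝ)) * C i) / δ), fun s hs => ?_⟩
  refine (hmod s hs).trans (mul_le_mul_of_nonneg_left ?_ hC₁.le)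
  rw [le_div_iff₀ hδ]
  -- the smoothed series
  have hsum := dd_tm_summable (tI J φ) hh s hs.1
  have hsm := smooth_sum (tmH (tI J φ) s) hsum (fun _ : Unit => c.asIdeal)
    (fun _ => c.isPrime) (fun _ => c.ne_bot) (fun _ _ _ => rfl)
    (fun _ => (Ideal.absNorm c.asIdeal : ℂ))
  simp only [Finset.univ_unique, Finset.prod_singleton] at hsm
  choose Z hZ1 hZ2 using fun i => hC i s hs
  have hcd := cd_hasSum f ι b c₀ T hCD
    (fun a => tm (tI J φ) s a *
      (if a ≤ c.asIdeal then 1 - (Ideal.absNorm c.asIdeal : ℂ) else 1))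
    (fun a ha => by
      by_contra hne
      apply ha
      have h5 : tI J φ a = 0 := if_neg hne
      show tI J φ a * _ * _ = 0
      rw [h5, zero_mul, zero_mul])
    (fun i x => κ i * (((Ideal.absNorm (b i) : ℝ) ^ s : ℝ) : ℂ) *
            (wt c.asIdeal x * ((nn x ^ (-2 * s) : ℝ) : ℂ)))
    (fun i x hx a hab => hκ i c (hcb i) x ((hCD.trans i).sub hx) a hab s)
    (fun i => κ i * (((Ideal.absNorm (b i) : ℝ) ^ s : ℝ) : ℂ) * Z i)
    (fun i => (hZ2 i).mul_left _)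
  have heq : (1 - (Ideal.absNorm c.asIdeal : ℂ) * tmH (tI J φ) s c.asIdeal) *
      ∑' a, tmH (tI J φ) s a = ∑ i, κ i * (((Ideal.absNorm (b i) : ℝ) ^ s : ℝ) : ℂ) * Z i :=
    hsm.unique hcd
  have hk : tmH (tI J φ) s c.asIdeal = (φ c : ℂ) * (Ideal.absNorm c.asIdeal : ℂ) ^ (-(s : ℂ)) := by
    show tI J φ c.asIdeal * _ = _
    rw [htc]
  have hL : ∑' a, tmH (tI J φ) s a = Ls (tI J φ) s := rfl
  rw [hk, hL] at heq
  calc ‖Ls (tI J φ) s‖ * δ ≤ ‖Ls (tI J φ) s‖ * ‖1 - (Ideal.absNorm c.asIdeal : ℂ) *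
        ((φ c : ℂ) * (Ideal.absNorm c.asIdeal : ℂ) ^ (-(s : ℂ)))‖ :=
        mul_le_mul_of_nonneg_left (hlow s ⟨hs.1.le, hs.2⟩) (norm_nonneg _)
    _ = ‖∑ i, κ i * (((Ideal.absNorm (b i) : ℝ) ^ s : ℝ) : ℂ) * Z i‖ := by
        rw [mul_comm, ← norm_mul, heq]
    _ ≤ ∑ i, ‖κ i * (((Ideal.absNorm (b i) : ℝ) ^ s : ℝ) : ℂ) * Z i‖ := norm_sum_le _ _
    _ ≤ ∑ i, ‖κ i‖ * ((Ideal.absNorm (b i) : ℝ) ^ (2 : ℝ)) * C i := by
        refine Finset.sum_le_sum fun i _ => ?_
        have hb1 : (1 : ℝ) ≤ (Ideal.absNorm (b i) : ℝ) := by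
          have h6 : Ideal.absNorm (b i) ≠ 0 := fun h => hCD.ne i (Ideal.absNorm_eq_zero_iff.1 h)
          exact_mod_cast Nat.one_le_iff_ne_zero.2 h6
        rw [norm_mul, norm_mul, Complex.norm_real, Real.norm_of_nonneg (by positivity)]
        refine mul_le_mul (mul_le_mul_of_nonneg_left ?_ (norm_nonneg _)) (hZ1 i) (norm_nonneg _)
          (by positivity)
        exact Real.rpow_le_rpow_of_exponent_le hb1 hs.2

end H55R
end

-- from Lib.H55R.Den
section

/-!
# H55R: the two density theorems (part AN, designer: helper28). Interface of part X.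
-/

open NumberField IsDedekindDomain

namespace H55R

open H55B

theorem den_trivial {K : Type} [Field K] [NumberField K] (f : Ideal (𝓞 K)) (s : ℝ) (hs : 1 < s) :
    ‖Ls (tI f (1 : Pl K → ℂˣ)) s‖ ≤ ∑' a : Ideal (𝓞 K), (Ideal.absNorm a : ℝ) ^ (-s) := by
  have h1 : ∀ a, ‖tI f (1 : Pl K → ℂˣ) a‖ ≤ 1 :=
    dd_norm_tI f 1 fun v => by rw [Pi.one_apply, Units.val_one, norm_one]
  have h2 := dd_tm_summable (tI f (1 : Pl K → ℂˣ)) h1 s hs
  refine (norm_tsum_le_tsum_norm h2).trans ?_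
  refine h2.tsum_le_tsum (fun a => ?_) (H55N.ideal_summable (K := K) s hs)
  rw [dd_norm_tm _ s (by linarith) a]
  exact mul_le_of_le_one_left (by positivity) (h1 a)

/-- Primes in the kernel of a finite group of ray class characters. -/
theorem density_ker {K : Type} [Field K] [NumberField K] [Algebra F K] (f : Ideal (𝓞 K))
    (hf : f ≠ ⊥) (hf' : f ≠ ⊤) (Y : Subgroup (Pl K → ℂˣ)) [Finite Y] (hY : Y ≤ RC f) :
    ∃ C : ℝ, ∀ s ∈ Set.Ioc (1 : ℝ) 2, PS {v : Pl K | ¬ f ≤ v.asIdeal ∧ ∀ φ ∈ Y, φ v = 1} s ≤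
      (1 / Nat.card Y : ℝ) * Real.log (1 / (s - 1)) + C := by
  classical
  have := Fintype.ofFinite Y
  obtain ⟨C₂, hC₂⟩ := log_cmp K
  obtain ⟨C₃, hC₃⟩ := zeta_log K
  have hb : ∀ φ : Y, ∃ B : ℝ, ∀ s ∈ Set.Ioc (1 : ℝ) 2,
      ∑' v : Pl K, (tI f (φ : Pl K → ℂˣ) v.asIdeal).re * (Ideal.absNorm v.asIdeal : ℝ) ^ (-s) ≤
        (if φ = 1 then Real.log (1 / (s - 1)) else 0) + B := by
    intro φ
    have hn := dd_norm_Y Y φ.1 φ.2
    have hh := dd_norm_tI f φ.1 hn
    by_cases h1 : φ = 1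
    · subst h1
      refine ⟨C₂ + C₃, fun s hs => ?_⟩
      have e1 := (abs_le.1 (hC₂ (tI f ((1 : Y) : Pl K → ℂˣ)) hh s hs)).2
      obtain ⟨e2, e3⟩ := hC₃ s hs
      have e4 := (abs_le.1 e3).2
      have e5 := (euler (tI f ((1 : Y) : Pl K → ℂˣ)) hh s hs.1).1
      have e6 := Real.log_le_log (norm_pos_iff.2 e5) (den_trivial f s hs.1)
      rw [if_pos rfl]
      linarith
    · have h2 : φ.1 ≠ 1 := fun h => h1 (Subtype.ext h)
      obtain ⟨B, hB⟩ := bdd f hf φ.1 (hY φ.2) hn h2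
      refine ⟨C₂ + Real.log B, fun s hs => ?_⟩
      have e1 := (abs_le.1 (hC₂ (tI f φ.1) hh s hs)).2
      have e5 := (euler (tI f φ.1) hh s hs.1).1
      have e6 := Real.log_le_log (norm_pos_iff.2 e5) (hB s hs)
      rw [if_neg h1]
      linarith
  choose B hB using hb
  refine ⟨(1 / Nat.card Y : ℝ) * ∑ φ, B φ, fun s hs => ?_⟩
  have hc : (0 : ℝ) < Nat.card Y := by exact_mod_cast Nat.card_pos
  have h1 := orth f Y s hs.1
  have h2 : (Nat.card Y : ℝ) * PS {v : Pl K | ¬ f ≤ v.asIdeal ∧ ∀ φ ∈ Y, φ v = 1} s ≤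
      Real.log (1 / (s - 1)) + ∑ φ, B φ := by
    rw [h1]
    refine (Finset.sum_le_sum fun φ _ => hB φ s hs).trans (le_of_eq ?_)
    rw [Finset.sum_add_distrib, Finset.sum_ite_eq' Finset.univ (1 : Y)]
    simp
  have h3 : PS {v : Pl K | ¬ f ≤ v.asIdeal ∧ ∀ φ ∈ Y, φ v = 1} s =
      (1 / Nat.card Y : ℝ) *
        ((Nat.card Y : ℝ) * PS {v : Pl K | ¬ f ≤ v.asIdeal ∧ ∀ φ ∈ Y, φ v = 1} s) := by
    field_simp
  rw [h3, ← mul_add]
  exact mul_le_mul_of_nonneg_left h2 (by positivity)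

/-- Completely split primes. -/
theorem density_split (K L : Type) [Field K] [NumberField K] [Field L] [NumberField L]
    [Algebra K L] [IsGalois K L] :
    ∃ C : ℝ, ∀ s ∈ Set.Ioc (1 : ℝ) 2,
      |PS {v : Pl K | Spl K L v} s - (1 / Module.finrank K L : ℝ) * Real.log (1 / (s - 1))| ≤ C := by
  obtain ⟨C₁, hC₁⟩ := split_cmp K L
  obtain ⟨C₂, hC₂⟩ := log_cmp L
  obtain ⟨C₃, hC₃⟩ := zeta_log L
  have hfr : (0 : ℝ) < Module.finrank K L := by exact_mod_cast Module.finrank_pos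
  refine ⟨(1 / Module.finrank K L : ℝ) * (C₁ + C₂ + C₃), fun s hs => ?_⟩
  -- the trivial character of L
  have hn : ∀ v : Pl L, ‖((1 : Pl L → ℂˣ) v : ℂ)‖ = 1 := fun v => by
    rw [Pi.one_apply, Units.val_one, norm_one]
  have hh := dd_norm_tI ⊤ (1 : Pl L → ℂˣ) hn
  have hval : ∀ a : Ideal (𝓞 L), a ≠ ⊥ → tI ⊤ (1 : Pl L → ℂˣ) a = 1 := by
    intro a ha
    rw [tI_apply ⊤ 1 ha (by rw [← Ideal.one_eq_top]; exact isCoprime_one_right), pv_one_fun,
      Units.val_one]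
  have e1 := hC₂ (tI ⊤ (1 : Pl L → ℂˣ)) hh s hs
  have e2 : ∑' v : Pl L, (tI ⊤ (1 : Pl L → ℂˣ) v.asIdeal).re *
      (Ideal.absNorm v.asIdeal : ℝ) ^ (-s) =
      ∑' W : Pl L, (Ideal.absNorm W.asIdeal : ℝ) ^ (-s) := by
    refine tsum_congr fun W => ?_
    rw [hval _ W.ne_bot, Complex.one_re, one_mul]
  have e3 : Ls (tI ⊤ (1 : Pl L → ℂˣ)) s =
      ((∑' a : Ideal (𝓞 L), (Ideal.absNorm a : ℝ) ^ (-s) : ℝ) : ℂ) := by
    unfold Ls
    rw [Complex.ofReal_tsum]
    refine tsum_congr fun a => ?_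
    unfold H55N.tm
    rw [Complex.ofReal_cpow (Nat.cast_nonneg _)]
    by_cases ha : a = ⊥
    · subst ha
      have : tI ⊤ (1 : Pl L → ℂˣ) ⊥ = 0 := map_zero _
      rw [this, zero_mul, Ideal.absNorm_bot]
      have hs0 : (-(s : ℂ)) ≠ 0 := by
        rw [neg_ne_zero, Complex.ofReal_ne_zero]
        linarith [hs.1]
      simp [Complex.zero_cpow hs0]
    · rw [hval a ha, one_mul]
      push_cast
      rfl
  obtain ⟨e4, e5⟩ := hC₃ s hs
  rw [e2, e3, Complex.norm_real, Real.norm_of_nonneg e4.le] at e1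
  have e6 := hC₁ s hs
  rw [abs_le] at *
  obtain ⟨a1, a2⟩ := e1
  obtain ⟨b1, b2⟩ := e5
  obtain ⟨c1, c2⟩ := e6
  have key : PS {v : Pl K | Spl K L v} s - (1 / Module.finrank K L : ℝ) * Real.log (1 / (s - 1)) =
      (1 / Module.finrank K L : ℝ) * (Module.finrank K L * PS {v : Pl K | Spl K L v} s -
        Real.log (1 / (s - 1))) := by
    field_simp
  rw [key, ← mul_neg]
  have hp : (0 : ℝ) ≤ 1 / Module.finrank K L := by positivity
  constructor
  · exact mul_le_mul_of_nonneg_left (by linarith) hp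
  · exact mul_le_mul_of_nonneg_left (by linarith) hp

end H55R
end

-- from Lib.H13S.DS
section

open NumberField IsDedekindDomain

namespace H13S

open H55P H28G H55B

section

variable {K : Type} [Field K] [NumberField K]

/-- the prime number below v -/
noncomputable def ds_p (v : HeightOneSpectrum (𝓞 K)) : ℕ := Ideal.absNorm (v.asIdeal.under ℤ)

theorem ds_prime (v : HeightOneSpectrum (𝓞 K)) : (ds_p v).Prime := by
  have := v.isPrime
  have h : NeZero v.asIdeal := ⟨v.ne_bot⟩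
  exact Nat.absNorm_under_prime v.asIdeal

theorem ds_pow (v : HeightOneSpectrum (𝓞 K)) : ∃ f : ℕ, Ideal.absNorm v.asIdeal = ds_p v ^ f := by
  have hp := ds_prime v
  have hl : v.asIdeal.LiesOver (Ideal.span {((ds_p v : ℕ) : ℤ)}) :=
    Int.liesOver_span_absNorm v.asIdeal
  exact ⟨_, Ideal.absNorm_eq_pow_inertiaDeg' v.asIdeal hp⟩

theorem ds_sq_le (v : HeightOneSpectrum (𝓞 K)) (h : ¬ (Ideal.absNorm v.asIdeal).Prime) :
    ds_p v ^ 2 ≤ Ideal.absNorm v.asIdeal := by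
  obtain ⟨f, hf⟩ := ds_pow v
  have hp := ds_prime v
  have h2 := H55R.dd_two_le v
  rw [hf] at h h2 ⊢
  refine Nat.pow_le_pow_right hp.pos ?_
  rcases f with _ | _ | f
  · rw [pow_zero] at h2
    omega
  · rw [zero_add, pow_one] at h
    exact absurd hp h
  · omega

theorem ds_card (s : Finset (HeightOneSpectrum (𝓞 K))) (p : ℕ) (hp : p.Prime) :
    (s.filter fun v => ds_p v = p).card ≤ Module.finrank ℚ K := by
  classical
  have hm : (Ideal.span {(p : ℤ)}).IsMaximal := by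
    have := Fact.mk hp
    exact Int.ideal_span_isMaximal_of_prime p
  have hp0 : Ideal.span {(p : ℤ)} ≠ ⊥ := by
    rw [Ne, Ideal.span_singleton_eq_bot]
    exact_mod_cast hp.ne_zero
  refine le_trans ?_ (Ideal.card_primesOverFinset_le_finrank (S := 𝓞 K) ℚ K hp0)
  rw [← Finset.card_image_of_injective (s.filter fun v => ds_p v = p) H55R.dd_inj]
  refine Finset.card_le_card fun P hP => ?_
  obtain ⟨v, hv, rfl⟩ := Finset.mem_image.1 hP
  rw [Finset.mem_filter] at hv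
  rw [IsDedekindDomain.mem_primesOverFinset_iff hp0]
  refine ⟨v.isPrime, ?_⟩
  rw [← hv.2]
  exact Int.liesOver_span_absNorm v.asIdeal

theorem ds_summable : Summable fun v : HeightOneSpectrum (𝓞 K) => ((ds_p v : ℝ) ^ 2)⁻¹ := by
  classical
  have hs : Summable fun n : ℕ => ((n : ℝ) ^ 2)⁻¹ := by
    simpa using Real.summable_nat_pow_inv.2 (by norm_num : 1 < 2)
  refine summable_of_sum_le (c := Module.finrank ℚ K * ∑' n : ℕ, ((n : ℝ) ^ 2)⁻¹)
    (fun v => by positivity) fun u => ?_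
  rw [Finset.sum_comp (fun n : ℕ => ((n : ℝ) ^ 2)⁻¹) ds_p]
  calc ∑ b ∈ u.image ds_p, (u.filter fun a => ds_p a = b).card • ((b : ℝ) ^ 2)⁻¹
      ≤ ∑ b ∈ u.image ds_p, (Module.finrank ℚ K : ℝ) * ((b : ℝ) ^ 2)⁻¹ := by
        refine Finset.sum_le_sum fun b hb => ?_
        obtain ⟨v, -, rfl⟩ := Finset.mem_image.1 hb
        rw [nsmul_eq_mul]
        have h1 : ((u.filter fun a => ds_p a = ds_p v).card : ℝ) ≤ Module.finrank ℚ K := by
          exact_mod_cast ds_card u (ds_p v) (ds_prime v)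
        exact mul_le_mul_of_nonneg_right h1 (by positivity)
    _ = (Module.finrank ℚ K : ℝ) * ∑ b ∈ u.image ds_p, ((b : ℝ) ^ 2)⁻¹ := by
        rw [Finset.mul_sum]
    _ ≤ (Module.finrank ℚ K : ℝ) * ∑' n : ℕ, ((n : ℝ) ^ 2)⁻¹ := by
        refine mul_le_mul_of_nonneg_left ?_ (Nat.cast_nonneg _)
        exact hs.sum_le_tsum _ fun n _ => by positivity

/-- The sum over the primes of degree > 1 and over a finite set is bounded. -/
theorem ds_bound (S : Set (HeightOneSpectrum (𝓞 K))) (hS : S.Finite)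
    (A : Set (HeightOneSpectrum (𝓞 K)))
    (hA : ∀ v, v ∉ S → (Ideal.absNorm v.asIdeal).Prime → v ∈ A) :
    ∃ C : ℝ, ∀ s ∈ Set.Ioc (1 : ℝ) 2, H55R.PS (Set.univ : Set (HeightOneSpectrum (𝓞 K))) s ≤
      H55R.PS A s + C := by
  classical
  have hB2 : Summable fun v : HeightOneSpectrum (𝓞 K) => if v ∈ S then (1 : ℝ) else 0 := by
    refine summable_of_finite_support (hS.subset ?_)
    intro v hv
    rw [Function.mem_support] at hv
    by_contra hne
    exact hv (if_neg hne)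
  have hB := (ds_summable (K := K)).add hB2
  refine ⟨∑' v : HeightOneSpectrum (𝓞 K), (((ds_p v : ℝ) ^ 2)⁻¹ + if v ∈ S then (1 : ℝ) else 0),
    fun s hs => ?_⟩
  obtain ⟨hs1, hs2⟩ := hs
  have hg := H55R.dd_summable (K := K) s hs1
  unfold H55R.PS
  rw [← (hg.indicator A).tsum_add hB]
  refine (hg.indicator _).tsum_le_tsum (fun v => ?_) ((hg.indicator A).add hB)
  rw [Set.indicator_of_mem (Set.mem_univ v)]
  have h2 := H55R.dd_two_le v
  have hN1 : (1 : ℝ) ≤ Ideal.absNorm v.asIdeal := by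
    exact_mod_cast (by omega : 1 ≤ Ideal.absNorm v.asIdeal)
  have hp2 : 0 ≤ ((ds_p v : ℝ) ^ 2)⁻¹ := by positivity
  have hi : 0 ≤ A.indicator (fun v => (Ideal.absNorm v.asIdeal : ℝ) ^ (-s)) v :=
    Set.indicator_nonneg (fun v _ => by positivity) v
  by_cases h : v ∈ S
  · rw [if_pos h]
    have h6 : (Ideal.absNorm v.asIdeal : ℝ) ^ (-s) ≤ 1 :=
      Real.rpow_le_one_of_one_le_of_nonpos hN1 (by linarith)
    linarith
  · rw [if_neg h]
    by_cases hp : (Ideal.absNorm v.asIdeal).Prime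
    · rw [Set.indicator_of_mem (hA v h hp)]
      linarith
    · have h3 := ds_sq_le v hp
      have h4 : (Ideal.absNorm v.asIdeal : ℝ) ^ (-s) ≤ ((ds_p v : ℝ) ^ 2)⁻¹ := by
        calc (Ideal.absNorm v.asIdeal : ℝ) ^ (-s) ≤ (Ideal.absNorm v.asIdeal : ℝ) ^ (-1 : ℝ) :=
              Real.rpow_le_rpow_of_exponent_le hN1 (by linarith)
          _ = (Ideal.absNorm v.asIdeal : ℝ)⁻¹ := Real.rpow_neg_one _
          _ ≤ ((ds_p v : ℝ) ^ 2)⁻¹ := by
              have h5 := (ds_prime v).pos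
              refine inv_anti₀ (by positivity) ?_
              exact_mod_cast h3
      linarith

end

/-- Chunk DS (M). A Galois extension in which almost all primes of degree one split completely is trivial.
Proof. H55R.density_split F₀ F₀ (every v is Spl F₀ F₀) gives the sum of N v^(-s) over all v = log(1/(s-1)) + O(1) on (1, 2];
the sum over the v with N v not prime is O(1) (N v = p^f, f ≥ 2, at most [F₀:Q] primes above p: sum of d p^(-2 s)), finitely many v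
contribute O(1). So the sum over the completely split v is at least log(1/(s-1)) - O(1); by density_split F₀ E it is
(1/d) log(1/(s-1)) + O(1), d = [E:F₀]; s -> 1 gives 1 ≤ 1/d. -/
theorem degree_one_split {F₀ : Type} [Field F₀] [NumberField F₀] (E : Type) [Field E] [NumberField E]
    [Algebra F₀ E] [IsGalois F₀ E] (S : Set (HeightOneSpectrum (𝓞 F₀))) (hS : S.Finite)
    (h : ∀ v : HeightOneSpectrum (𝓞 F₀), v ∉ S → (Ideal.absNorm v.asIdeal).Prime → H55R.Spl F₀ E v) :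
    Module.finrank F₀ E = 1 := by
  have hfin : 0 < Module.finrank F₀ E := Module.finrank_pos
  obtain ⟨C₁, h1⟩ := H55R.density_split F₀ F₀
  obtain ⟨C₂, h2⟩ := H55R.density_split F₀ E
  obtain ⟨C₃, h3⟩ := ds_bound S hS {v | H55R.Spl F₀ E v} h
  have hspl : {v : HeightOneSpectrum (𝓞 F₀) | H55R.Spl F₀ F₀ v} = Set.univ := by
    refine Set.eq_univ_of_forall fun v => ?_
    have := H55R.D5_card (L := F₀) v
    rw [Module.finrank_self] at this
    have h5 : H55R.es F₀ F₀ v * H55R.fs F₀ F₀ v = 1 := Nat.eq_one_of_mul_eq_one_left this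
    exact ⟨Nat.eq_one_of_mul_eq_one_right h5, Nat.eq_one_of_mul_eq_one_left h5⟩
  rw [hspl, Module.finrank_self] at h1
  by_contra hne
  have hd2 : 2 ≤ Module.finrank F₀ E := by omega
  have hd : (1 / Module.finrank F₀ E : ℝ) ≤ 1 / 2 :=
    one_div_le_one_div_of_le (by norm_num) (by exact_mod_cast hd2)
  set C := |C₁| + |C₂| + |C₃| with hC
  have hC0 : 0 ≤ C := by positivity
  -- choose s with log (1/(s-1)) large
  set s := 1 + Real.exp (-(2 * C + 1)) with hsdef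
  have he0 := Real.exp_pos (-(2 * C + 1))
  have he1 : Real.exp (-(2 * C + 1)) ≤ 1 := Real.exp_le_one_iff.2 (by linarith)
  have hs : s ∈ Set.Ioc (1 : ℝ) 2 := ⟨by linarith, by linarith⟩
  have hlog : Real.log (1 / (s - 1)) = 2 * C + 1 := by
    rw [hsdef, add_sub_cancel_left, one_div, Real.log_inv, Real.log_exp, neg_neg]
  have a1 := (abs_le.1 (h1 s hs)).1
  have a2 := (abs_le.1 (h2 s hs)).2
  have a3 := h3 s hs
  rw [hlog] at a1 a2
  have b1 := le_abs_self C₁
  have b2 := le_abs_self C₂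
  have b3 := le_abs_self C₃
  have b4 := mul_le_mul_of_nonneg_right hd (by linarith : (0 : ℝ) ≤ 2 * C + 1)
  norm_num at a1
  linarith

end H13S
end

-- from Lib.H13S.PA1
section

open NumberField IsDedekindDomain

namespace H13S

open H55P H28G H55B

section gal

open Polynomial in
theorem PA1_card (k : Type) [Field k] [Finite k] (q : ℕ) (hq : 1 < q) (h : ∀ y : k, y ^ q = y) :
    Nat.card k ≤ q := by
  classical
  have := Fintype.ofFinite k
  rw [Nat.card_eq_fintype_card, ← Finset.card_univ]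
  have h0 : (X ^ q - X : k[X]) ≠ 0 := FiniteField.X_pow_card_sub_X_ne_zero k hq
  have hd : (X ^ q - X : k[X]).natDegree = q := FiniteField.X_pow_card_sub_X_natDegree_eq k hq
  have h1 : (Finset.univ : Finset k) ⊆ (X ^ q - X : k[X]).roots.toFinset := by
    intro y _
    rw [Multiset.mem_toFinset, mem_roots h0, IsRoot, eval_sub, eval_pow, eval_X, h y, sub_self]
  calc _ ≤ (X ^ q - X : k[X]).roots.toFinset.card := Finset.card_le_card h1
    _ ≤ Multiset.card (X ^ q - X : k[X]).roots := Multiset.toFinset_card_le _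
    _ ≤ (X ^ q - X : k[X]).natDegree := card_roots' _
    _ = q := hd

/-- Finitely many primes are ramified. -/
theorem PA1_ram (K L : Type) [Field K] [NumberField K] [Field L] [NumberField L] [Algebra K L]
    [IsGalois K L] : {v : HeightOneSpectrum (𝓞 K) | v.asIdeal.ramificationIdxIn (𝓞 L) ≠ 1}.Finite := by
  have hD : differentIdeal (𝓞 K) (𝓞 L) ≠ 0 := differentIdeal_ne_bot
  have hfin := Ideal.finite_factors hD
  have hinj : Function.Injective (algebraMap (𝓞 K) (𝓞 L)) := FaithfulSMul.algebraMap_injective _ _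
  let f : HeightOneSpectrum (𝓞 L) → HeightOneSpectrum (𝓞 K) := fun P =>
    ⟨P.asIdeal.under (𝓞 K), inferInstance, fun h => P.ne_bot (Ideal.eq_bot_of_comap_eq_bot h)⟩
  refine (hfin.image f).subset ?_
  intro v hv
  have hvm := v.isMaximal
  obtain ⟨P, hP1, hP2⟩ := Ideal.exists_maximal_ideal_liesOver_of_isIntegral (S := 𝓞 L) v.asIdeal
  have hPp := hP1.isPrime
  have hPb : P ≠ ⊥ := Ideal.ne_bot_of_liesOver_of_ne_bot v.ne_bot P
  refine ⟨⟨P, hPp, hPb⟩, ?_, ?_⟩
  · change v.asIdeal.ramificationIdxIn (𝓞 L) ≠ 1 at hv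
    rw [Ideal.ramificationIdxIn_eq_ramificationIdx v.asIdeal P Gal(L/K)] at hv
    have h1 : 0 < P.ramificationIdx (𝓞 K) := Ideal.ramificationIdx_pos P (𝓞 K)
    have h2 : 2 ≤ v.asIdeal.ramificationIdx' P := by
      rw [Ideal.ramificationIdx'_eq_ramificationIdx v.asIdeal P v.ne_bot]
      omega
    have h4 := Ideal.le_pow_of_le_ramificationIdx' h2
    have h5 := pow_sub_one_dvd_differentIdeal (𝓞 K) P 2 v.ne_bot (Ideal.dvd_iff_le.2 h4)
    show P ∣ differentIdeal (𝓞 K) (𝓞 L)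
    rwa [show 2 - 1 = 1 from rfl, pow_one] at h5
  · apply HeightOneSpectrum.ext
    exact hP2.over.symm

variable {F₀ : Type} [Field F₀] [NumberField F₀] {Ω : Type} [Field Ω] [Algebra F₀ Ω]
    [IsAlgClosure F₀ Ω]

/-- A normal open subgroup containing all Frobenius elements of degree one outside a finite set is everything. -/
theorem PA1_top (H : Subgroup (Ω ≃ₐ[F₀] Ω)) (hn : H.Normal) (L : IntermediateField F₀ Ω)
    [FiniteDimensional F₀ L] (hL : L.fixingSubgroup ≤ H) (S : Set (HeightOneSpectrum (𝓞 F₀)))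
    (hS : S.Finite)
    (h : ∀ v : HeightOneSpectrum (𝓞 F₀), v ∉ S → (Ideal.absNorm v.asIdeal).Prime →
      ∀ V : ValuationSubring Ω,
      (∀ a : 𝓞 F₀, a ∈ v.asIdeal → V.valuation (algebraMap F₀ Ω (a : F₀)) < 1) →
      ∀ s : Ω ≃ₐ[F₀] Ω, (∀ x ∈ V, V.valuation (s x - x ^ Ideal.absNorm v.asIdeal) < 1) → s ∈ H) :
    H = ⊤ := by
  have hac : IsAlgClosed Ω := IsAlgClosure.isAlgClosed F₀
  have halg : Algebra.IsAlgebraic F₀ Ω := IsAlgClosure.isAlgebraic
  have hgal : IsGalois F₀ Ω := inferInstance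
  let E : IntermediateField F₀ Ω := IntermediateField.fixedField H
  have hEL : E ≤ L := by
    rw [← InfiniteGalois.fixedField_fixingSubgroup L]
    exact IntermediateField.fixedField_antitone hL
  have hEf : FiniteDimensional F₀ E :=
    FiniteDimensional.of_injective (IntermediateField.inclusion hEL).toLinearMap
      (IntermediateField.inclusion_injective hEL)
  have hEn : NumberField E := NumberField.of_module_finite F₀ E
  have hEH : E.fixingSubgroup = H := by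
    have ho : IsOpen (H : Set (Ω ≃ₐ[F₀] Ω)) := Subgroup.isOpen_mono hL L.fixingSubgroup_isOpen
    exact InfiniteGalois.fixingSubgroup_fixedField ⟨H, H.isClosed_of_isOpen ho⟩
  have hnorm : Normal F₀ E := by
    rw [IntermediateField.normal_iff_forall_map_le']
    rintro σ _ ⟨x, hx, rfl⟩
    intro t
    have h1 := hx ⟨σ⁻¹ * t * σ, by
      have := hn.conj_mem t.1 t.2 σ⁻¹
      rwa [inv_inv] at this⟩
    have h2 : σ⁻¹ ((t : Ω ≃ₐ[F₀] Ω) (σ x)) = x := h1
    have h4 := congrArg σ h2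
    rw [← AlgEquiv.mul_apply, mul_inv_cancel, AlgEquiv.one_apply] at h4
    exact h4
  have hEg : IsGalois F₀ E := {}
  have hfin : (S ∪ {v : HeightOneSpectrum (𝓞 F₀) | v.asIdeal.ramificationIdxIn (𝓞 E) ≠ 1}).Finite :=
    hS.union (PA1_ram F₀ E)
  have h1 : Module.finrank F₀ E = 1 := by
    refine degree_one_split (F₀ := F₀) E _ hfin ?_
    intro v hv hq
    rw [Set.mem_union, not_or] at hv
    refine ⟨not_not.1 hv.2, ?_⟩
    have hvm := v.isMaximal
    obtain ⟨P, hP1, hP2⟩ := Ideal.exists_maximal_ideal_liesOver_of_isIntegral (S := 𝓞 E) v.asIdeal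
    have hPp := hP1.isPrime
    have hPb : P ≠ ⊥ := Ideal.ne_bot_of_liesOver_of_ne_bot v.ne_bot P
    let w : HeightOneSpectrum (𝓞 E) := ⟨P, hPp, hPb⟩
    obtain ⟨V, hV⟩ := exists_above E w
    have hw : ∀ a : 𝓞 E, V.valuation ((a : E) : Ω) < 1 ↔ a ∈ P := by
      intro a
      rw [hV.lt (a : E)]
      exact w.valuation_lt_one_iff_mem a
    have hv1 : ∀ a : 𝓞 F₀, a ∈ v.asIdeal → V.valuation (algebraMap F₀ Ω (a : F₀)) < 1 := by
      intro a ha
      have h2 : algebraMap (𝓞 F₀) (𝓞 E) a ∈ P := by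
        rw [hP2.over] at ha
        exact ha
      exact (hw _).2 h2
    obtain ⟨s, -, hs⟩ := exists_frob v V hv1
    have hsH := h v hv.1 hq V hv1 s hs
    show v.asIdeal.inertiaDegIn (𝓞 E) = 1
    rw [Ideal.inertiaDegIn_eq_inertiaDeg v.asIdeal P Gal(E/F₀)]
    have hfix : ∀ a : 𝓞 E, a - a ^ Ideal.absNorm v.asIdeal ∈ P := by
      intro a
      rw [← hw]
      have h2 : s ((a : E) : Ω) = ((a : E) : Ω) := by
        rw [← hEH] at hsH
        exact hsH (a : E)
      have h4 : ((a : E) : Ω) ∈ V := by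
        rw [hV]
        exact w.valuation_le_one a
      have h5 := hs _ h4
      rw [h2] at h5
      exact h5
    have hcard := Ideal.cardQuot_pow_inertiaDeg v.asIdeal P
    have hle : Submodule.cardQuot P ≤ Ideal.absNorm v.asIdeal := by
      rw [Submodule.cardQuot_apply]
      let _ : Field (𝓞 E ⧸ P) := Ideal.Quotient.field P
      have hfq : Finite (𝓞 E ⧸ P) := Ideal.finiteQuotientOfFreeOfNeBot P hPb
      refine PA1_card (𝓞 E ⧸ P) _ hq.one_lt ?_
      intro y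
      obtain ⟨a, rfl⟩ := Ideal.Quotient.mk_surjective y
      rw [← map_pow]
      exact ((Ideal.Quotient.mk_eq_mk_iff_sub_mem _ _).2 (hfix a)).symm
    rw [← hcard, ← Ideal.absNorm_apply] at hle
    have hf0 := Ideal.inertiaDeg_pos P (𝓞 F₀)
    have hf1 : P.inertiaDeg (𝓞 F₀) ≤ 1 := by
      by_contra hcon
      have h2 : Ideal.absNorm v.asIdeal ^ 1 < Ideal.absNorm v.asIdeal ^ P.inertiaDeg (𝓞 F₀) :=
        Nat.pow_lt_pow_right hq.one_lt (by omega)
      rw [pow_one] at h2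
      omega
    omega
  have h2 : E = ⊥ := IntermediateField.finrank_eq_one_iff.1 h1
  rw [← hEH, h2, IntermediateField.fixingSubgroup_bot]

end gal

variable {Ω : Type} [Field Ω] [DecidableEq Ω] [Algebra F Ω] [IsAlgClosure F Ω]

/-- Every nonzero point killed by beta generates. -/
theorem PA1_gen (β : O) (hβ : Prime β) (h3 : Prim β) (T₀ : P27 Ω) (hT : T₀ ∈ Tor β Ω) (h0 : T₀ ≠ 0) :
    (∀ T ∈ Tor β Ω, ∃ a : O, T = act a T₀) ∧ ∀ a : O, act a T₀ = 0 ↔ β ∣ a := by
  obtain ⟨_, G₀, hG, hgen, hz⟩ := gi_gen (Ω := Ω) β hβ h3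
  obtain ⟨t, ht⟩ := hgen T₀ hT
  have hnt : ¬ β ∣ t := by
    intro h
    exact h0 (ht.trans ((hz t).2 h))
  have hc : IsCoprime β t := (hβ.irreducible.coprime_iff_not_dvd).2 hnt
  obtain ⟨w, u, huw⟩ := hc
  refine ⟨fun T hT' => ?_, fun a => ?_⟩
  · obtain ⟨x, hx⟩ := hgen T hT'
    refine ⟨x * u, ?_⟩
    rw [ht, ← act_mul, hx]
    have h1 : x = x * u * t + x * w * β := by linear_combination (-x) * huw
    conv_lhs => rw [h1]
    rw [act_add, act_mul (x * w) β, mem_Tor.1 hG, map_zero, add_zero]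
  · rw [ht, ← act_mul, hz]
    constructor
    · intro h
      exact (hβ.dvd_or_dvd h).resolve_right hnt
    · intro h
      exact dvd_mul_of_dvd_left h t

theorem PA1_cjprim {x : O} (h : Prim x) : Prim (cj x) := by
  obtain ⟨y, hy⟩ := h
  refine ⟨cj y, ?_⟩
  have h1 := congrArg cj hy
  rw [map_sub, map_one, map_mul, map_ofNat] at h1
  exact h1

theorem PA1_cjdvd {x y : O} : cj x ∣ y ↔ x ∣ cj y := by
  constructor
  · rintro ⟨z, rfl⟩
    rw [map_mul, cj_cj]
    exact Dvd.intro _ rfl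
  · rintro ⟨z, hz⟩
    refine ⟨cj z, ?_⟩
    rw [← map_mul, ← hz, cj_cj]

omit [DecidableEq Ω] [IsAlgClosure F Ω] in
theorem PA1_int (V : ValuationSubring Ω) (x : O) : V.valuation (algebraMap F Ω (x : F)) ≤ 1 := by
  have h1 : IsIntegral ℤ (algebraMap F Ω (x : F)) :=
    map_isIntegral_int (algebraMap F Ω) (RingOfIntegers.isIntegral_coe x)
  have h2 : IsIntegral V (algebraMap F Ω (x : F)) := h1.tower_top
  obtain ⟨y, hy⟩ := (IsIntegrallyClosed.isIntegral_iff (R := V) (K := Ω)).1 h2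
  rw [ValuationSubring.valuation_le_one_iff, ← hy]
  exact y.2

omit [IsAlgClosure F Ω] in
/-- Roots of unity at a Frobenius element. -/
theorem PA1_zeta (l : ℕ) (hl : l.Prime) (ζ : Ω) (hζ : IsPrimitiveRoot ζ l) (V : ValuationSubring Ω)
    (hV : ¬ V.valuation (l : Ω) < 1) (q : ℕ) (s : Ω ≃ₐ[F] Ω)
    (hs : ∀ x ∈ V, V.valuation (s x - x ^ q) < 1) : s ζ = ζ ^ q := by
  have hl0 : NeZero l := ⟨hl.ne_zero⟩
  have hz1 : V.valuation ζ = 1 := by
    have h1 : V.valuation ζ ^ l = 1 := by rw [← map_pow, hζ.pow_eq_one, map_one]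
    exact (pow_eq_one_iff_of_nonneg zero_le hl.ne_zero).1 h1
  have hzV : ζ ∈ V := (V.valuation_le_one_iff ζ).1 hz1.le
  by_contra hne
  have hz0 : ζ ^ q ≠ 0 := pow_ne_zero _ (hζ.ne_zero hl.ne_zero)
  let ξ : Ω := s ζ / ζ ^ q
  have hξ1 : ξ ≠ 1 := fun h => hne ((div_eq_one_iff_eq hz0).1 h)
  have hξl : ξ ^ l = 1 := by
    show (s ζ / ζ ^ q) ^ l = 1
    rw [div_pow, ← map_pow, hζ.pow_eq_one, map_one, ← pow_mul, mul_comm, pow_mul, hζ.pow_eq_one,
      one_pow, div_one]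
  have hξv : V.valuation (ξ - 1) < 1 := by
    have h1 : ξ - 1 = (s ζ - ζ ^ q) / ζ ^ q := by
      show s ζ / ζ ^ q - 1 = _
      field_simp
    rw [h1, map_div₀, map_pow, hz1, one_pow, div_one]
    exact hs ζ hzV
  have hξV : ξ ∈ V := by
    have h1 : ξ - 1 ∈ V := (V.valuation_le_one_iff _).1 hξv.le
    have h2 := V.add_mem _ _ h1 V.one_mem
    rwa [sub_add_cancel] at h2
  let x : V := ⟨ξ, hξV⟩
  have hr : IsLocalRing.residue V x = 1 := by
    have h1 : x - 1 ∈ IsLocalRing.maximalIdeal V := by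
      rw [ValuationSubring.valuation_lt_one_iff]
      exact hξv
    have h2 := (IsLocalRing.residue_eq_zero_iff _).2 h1
    rw [map_sub, map_one, sub_eq_zero] at h2
    exact h2
  have hsum : ∑ i ∈ Finset.range l, x ^ i = 0 := by
    apply Subtype.ext
    have h1 := geom_sum_mul ξ l
    rw [hξl, sub_self] at h1
    have h2 := (mul_eq_zero.1 h1).resolve_right (sub_ne_zero.2 hξ1)
    rw [ZeroMemClass.coe_zero, ← h2]
    push_cast
    rfl
  have h1 : IsLocalRing.residue V (l : V) = 0 := by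
    have h2 := congrArg (IsLocalRing.residue V) hsum
    rw [map_sum, map_zero] at h2
    simp only [map_pow, hr, one_pow, Finset.sum_const, Finset.card_range, nsmul_eq_mul, mul_one] at h2
    rw [map_natCast]
    exact h2
  apply hV
  have h2 := (IsLocalRing.residue_eq_zero_iff _).1 h1
  have h4 := (ValuationSubring.valuation_lt_one_iff V (l : V)).1 h2
  exact h4

/-- Chunk PA1 (M/L). The determinant of the Galois action: conj(chi'(s)) chi(s) = cyclotomic(s) modulo pi.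
Let H be the set of all s in G = Gal(Ω/F) for which the conclusion holds for the (unique modulo pi, cj pi, l) a, b, c attached to s. chi, chi' (exists_chi for
pi and cj pi) and the cyclotomic character are homomorphisms, so H is the kernel of the homomorphism s -> cj(chi'(s)) chi(s) / cyc(s) to (O/pi)^*; it is a normal
subgroup containing the open subgroup M.fixingSubgroup, M = F(coordinates of Tor pi, Tor (cj pi), zeta) finite over F. E = fixed field of H: Galois over F, finite,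
number field, E.fixingSubgroup = H (H is open, hence closed). Let v be a prime of F not above 3 l, with N v prime, unramified in E, gamma its primary generator (H55B.gen;
Prim). V above v (exists_above for a field, or any valuation ring with value of gamma < 1), s a Frobenius element at V (exists_frob).
gi_frob: ac s T₀ = act gamma T₀, ac s T₀' = act gamma T₀', so a = gamma mod pi, b = gamma mod cj pi; s zeta = zeta^(N v) because s zeta - zeta^(N v) has value < 1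
and different l-th roots of unity differ by elements dividing l (a V-unit). So cj b a - c = cj gamma gamma - Nm gamma = 0 modulo pi (mul_cj): s in H, s acts
trivially on E, so x = x^(N v) modulo the prime of E below V for all x in 𝓞 E: the residue degree is 1. All Frobenius elements and all V above v behave like this, so v splits completely
in E (es = 1, fs = 1, see H55R/Defs: es, fs are ramificationIdxIn, inertiaDegIn). degree_one_split: E = F, H = G. -/
theorem char_id (π : O) (l : ℕ) (hl : l.Prime) (h5 : 5 ≤ l) (hπ : Prime π) (h3 : Prim π) (hd : π ∣ (l : O))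
    (ζ : Ω) (hζ : IsPrimitiveRoot ζ l) (s : Ω ≃ₐ[F] Ω) (a b : O) (c : ℕ) (T₀ T₀' : P27 Ω)
    (hT : T₀ ∈ Tor π Ω) (hT0 : T₀ ≠ 0) (hT' : T₀' ∈ Tor (cj π) Ω) (hT0' : T₀' ≠ 0)
    (ha : ac W27 s T₀ = act a T₀) (hb : ac W27 s T₀' = act b T₀') (hc : s ζ = ζ ^ c) :
    π ∣ cj b * a - (c : O) := by
  classical
  have hl0 : NeZero l := ⟨hl.ne_zero⟩
  have hac : IsAlgClosed Ω := IsAlgClosure.isAlgClosed F
  have halg : Algebra.IsAlgebraic F Ω := IsAlgClosure.isAlgebraic
  have hπ' : Prime (cj π) := (MulEquiv.prime_iff cj).2 hπ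
  have h3' : Prim (cj π) := PA1_cjprim h3
  have hd' : cj π ∣ (l : O) := by
    rw [PA1_cjdvd, map_natCast]
    exact hd
  obtain ⟨hg, hz⟩ := PA1_gen π hπ h3 T₀ hT hT0
  obtain ⟨hg', hz'⟩ := PA1_gen (cj π) hπ' h3' T₀' hT' hT0'
  have hex : ∀ t : Ω ≃ₐ[F] Ω, ∃ p : O × O × ℕ, ac W27 t T₀ = act p.1 T₀ ∧
      ac W27 t T₀' = act p.2.1 T₀' ∧ t ζ = ζ ^ p.2.2 := by
    intro t
    obtain ⟨x, hx⟩ := hg _ (ac_mem t hT)
    obtain ⟨y, hy⟩ := hg' _ (ac_mem t hT')
    have h1 : (t ζ) ^ l = 1 := by rw [← map_pow, hζ.pow_eq_one, map_one]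
    obtain ⟨i, _, hi⟩ := hζ.eq_pow_of_pow_eq_one h1
    exact ⟨⟨x, y, i⟩, hx, hy, hi.symm⟩
  choose p hp using hex
  let mk : O →+* O ⧸ Ideal.span {π} := Ideal.Quotient.mk (Ideal.span {π})
  have hmk : ∀ x y : O, mk x = mk y ↔ π ∣ x - y := by
    intro x y
    rw [← Ideal.mem_span_singleton]
    exact Ideal.Quotient.mk_eq_mk_iff_sub_mem _ _
  have uniq1 : ∀ (t : Ω ≃ₐ[F] Ω) (x y : O), ac W27 t T₀ = act x T₀ → ac W27 t T₀' = act y T₀' →
      mk (cj y * x) = mk (cj (p t).2.1 * (p t).1) := by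
    intro t x y hx hy
    have h1 : π ∣ x - (p t).1 := by
      rw [← hz, act_sub, ← hx, ← (hp t).1, sub_self]
    have h2 : π ∣ cj y - cj (p t).2.1 := by
      rw [← map_sub, ← PA1_cjdvd, ← hz', act_sub, ← hy, ← (hp t).2.1, sub_self]
    rw [map_mul mk, map_mul mk, (hmk _ _).2 h1, (hmk _ _).2 h2]
  have uniq2 : ∀ (t : Ω ≃ₐ[F] Ω) (n : ℕ), t ζ = ζ ^ n → mk (n : O) = mk ((p t).2.2 : O) := by
    intro t n hn
    have h1 : ζ ^ n = ζ ^ (p t).2.2 := by rw [← hn, (hp t).2.2]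
    have h2 : n ≡ (p t).2.2 [MOD l] := by
      rw [← pow_mod_orderOf, ← pow_mod_orderOf ζ (p t).2.2, ← hζ.eq_orderOf] at h1
      exact hζ.pow_inj (Nat.mod_lt _ hl.pos) (Nat.mod_lt _ hl.pos) h1
    rw [hmk]
    have h4 : (l : ℤ) ∣ ((n : ℤ) - ((p t).2.2 : ℤ)) := (Nat.modEq_iff_dvd.1 h2.symm)
    obtain ⟨m, hm⟩ := h4
    have h6 : (n : O) - ((p t).2.2 : O) = (l : O) * (m : O) := by
      exact_mod_cast congrArg (fun z : ℤ => (z : O)) hm
    rw [h6]
    exact dvd_mul_of_dvd_left hd _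
  let D : (Ω ≃ₐ[F] Ω) →* (O ⧸ Ideal.span {π}) :=
    { toFun := fun t => mk (cj (p t).2.1 * (p t).1)
      map_one' := by
        rw [← uniq1 1 1 1 (by rw [ac_one, act_one]) (by rw [ac_one, act_one])]
        simp
      map_mul' := fun t u => by
        rw [← uniq1 (t * u) ((p u).1 * (p t).1) ((p u).2.1 * (p t).2.1)
          (by rw [ac_mul, (hp u).1, ac_act, (hp t).1, ← act_mul])
          (by rw [ac_mul, (hp u).2.1, ac_act, (hp t).2.1, ← act_mul]), ← map_mul, map_mul cj]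
        congr 1
        ring }
  let C : (Ω ≃ₐ[F] Ω) →* (O ⧸ Ideal.span {π}) :=
    { toFun := fun t => mk ((p t).2.2 : O)
      map_one' := by
        rw [← uniq2 1 1 (by rw [pow_one]; rfl)]
        simp
      map_mul' := fun t u => by
        rw [← uniq2 (t * u) ((p t).2.2 * (p u).2.2) (by
          rw [AlgEquiv.mul_apply, (hp u).2.2, map_pow, (hp t).2.2, pow_mul]), ← map_mul]
        congr 1
        push_cast
        rfl }
  have hH : ∀ (t : Ω ≃ₐ[F] Ω) (x y : O) (n : ℕ), ac W27 t T₀ = act x T₀ → ac W27 t T₀' = act y T₀' →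
      t ζ = ζ ^ n → (t ∈ MonoidHom.eqLocus D C ↔ π ∣ cj y * x - (n : O)) := by
    intro t x y n hx hy hn
    rw [← hmk, uniq1 t x y hx hy, uniq2 t n hn]
    exact Iff.rfl
  have key : MonoidHom.eqLocus D C = ⊤ := by
    have hint : ∀ x : Ω, IsIntegral F x := fun x => (Algebra.IsAlgebraic.isAlgebraic x).isIntegral
    let A : Set Ω := {xc T₀, yc T₀, xc T₀', yc T₀', ζ}
    have hAf : A.Finite := Set.toFinite A
    have hAf' : Finite A := hAf
    have hLf : FiniteDimensional F (IntermediateField.adjoin F A) :=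
      IntermediateField.finiteDimensional_adjoin fun x _ => hint x
    refine PA1_top (F₀ := F) (MonoidHom.eqLocus D C) ?_ (IntermediateField.adjoin F A) ?_
      ({v | (3 : O) ∈ v.asIdeal} ∪ {v | (l : O) ∈ v.asIdeal}) ?_ ?_
    · constructor
      intro t ht g
      show D (g * t * g⁻¹) = C (g * t * g⁻¹)
      have h1 : D t = C t := ht
      rw [map_mul, map_mul, map_mul, map_mul, mul_right_comm, mul_right_comm (C g), h1, ← map_mul,
        ← map_mul, mul_inv_cancel, map_one, map_one]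
    · intro t ht
      have hfix : ∀ x ∈ A, t x = x := fun x hx =>
        ht ⟨x, IntermediateField.subset_adjoin F A hx⟩
      have hacne : ∀ P : P27 Ω, P ≠ 0 → ac W27 t P ≠ 0 := fun P hP => mp_ne t.toAlgHom hP
      have e1 : ac W27 t T₀ = act 1 T₀ := by
        rw [act_one]
        refine pt_ext (hacne _ hT0) hT0 ?_ ?_
        · rw [ac_eq, xc_mp]
          exact hfix _ (by simp [A])
        · rw [ac_eq, yc_mp]
          exact hfix _ (by simp [A])
      have e2 : ac W27 t T₀' = act 1 T₀' := by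
        rw [act_one]
        refine pt_ext (hacne _ hT0') hT0' ?_ ?_
        · rw [ac_eq, xc_mp]
          exact hfix _ (by simp [A])
        · rw [ac_eq, yc_mp]
          exact hfix _ (by simp [A])
      rw [hH t 1 1 1 e1 e2 (by rw [pow_one]; exact hfix _ (by simp [A]))]
      simp
    · have hf : ∀ n : ℕ, n ≠ 0 → {v : HeightOneSpectrum O | (n : O) ∈ v.asIdeal}.Finite := by
        intro n hn
        have h1 : Ideal.span {(n : O)} ≠ 0 := by
          rw [Ideal.zero_eq_bot, Ne, Ideal.span_singleton_eq_bot]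
          exact Nat.cast_ne_zero.2 hn
        refine (Ideal.finite_factors h1).subset ?_
        intro v hv
        exact Ideal.dvd_span_singleton.2 hv
      exact (hf 3 (by norm_num)).union (hf l hl.ne_zero)
    · intro v hv hq V hV t ht
      rw [Set.mem_union, not_or] at hv
      obtain ⟨hv3, hvl⟩ := hv
      change (3 : O) ∉ v.asIdeal at hv3
      change (l : O) ∉ v.asIdeal at hvl
      obtain ⟨hγ1, hγ3⟩ := gen_spec v hv3
      have hγp := gen_prime v hv3
      have hγn := absNorm_gen v hv3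
      have hγV : vo V (gen v) < 1 := hV (gen v) ((gen_dvd_iff v hv3 _).1 dvd_rfl)
      have hn1 : ¬ gen v ∣ π := fun h => hvl ((gen_dvd_iff v hv3 _).1 (h.trans hd))
      have hn2 : ¬ gen v ∣ cj π := fun h => hvl ((gen_dvd_iff v hv3 _).1 (h.trans hd'))
      rw [hγn] at ht
      have f1 := gi_frob π (gen v) hπ h3 hγp hγ3 hn1 V hγV t ht T₀ hT
      have f2 := gi_frob (cj π) (gen v) hπ' h3' hγp hγ3 hn2 V hγV t ht T₀' hT'
      have hVl : ¬ V.valuation (l : Ω) < 1 := by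
        intro hlt
        have hcop : IsCoprime (gen v) (l : O) :=
          (hγp.irreducible.coprime_iff_not_dvd).2 fun h => hvl ((gen_dvd_iff v hv3 _).1 h)
        obtain ⟨x, y, hxy⟩ := hcop
        have h1 : algebraMap F Ω (x : F) * algebraMap F Ω (gen v : F) +
            algebraMap F Ω (y : F) * (l : Ω) = 1 := by
          have h2 : (x : F) * (gen v : F) + (y : F) * (l : F) = 1 := by
            exact_mod_cast congrArg (fun z : O => (z : F)) hxy
          have h4 := congrArg (algebraMap F Ω) h2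
          rw [map_add, map_mul, map_mul, map_natCast, map_one] at h4
          exact h4
        have h2 : V.valuation (algebraMap F Ω (x : F) * algebraMap F Ω (gen v : F)) < 1 := by
          rw [map_mul]
          exact mul_lt_one_of_nonneg_of_lt_one_right (PA1_int V x) zero_le hγV
        have h4 : V.valuation (algebraMap F Ω (y : F) * (l : Ω)) < 1 := by
          rw [map_mul]
          exact mul_lt_one_of_nonneg_of_lt_one_right (PA1_int V y) zero_le hlt
        have h6 := V.valuation.map_add_lt h2 h4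
        rw [h1, map_one] at h6
        exact lt_irrefl _ h6
      have f3 := PA1_zeta l hl ζ hζ V hVl (H55B.Nm (gen v)) t ht
      rw [hH t _ _ _ f1 f2 f3, mul_comm, mul_cj, sub_self]
      exact dvd_zero _
  have h1 : s ∈ MonoidHom.eqLocus D C := by
    rw [key]
    exact Subgroup.mem_top s
  exact (hH s a b c ha hb hc).1 h1

end H13S
end

-- from Lib.H55K.SPA1
section

/-! # H55K, part S: port of H13S/PA1 -/

open NumberField IsDedekindDomain WeierstrassCurve

namespace H55K.S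

open H55P (IQ embF eF LF Per IsHecke Pt ac Inert Dec Nm)
open H35P (WAB Ker tt)
open H13S (Abv)






variable {F : Type} [Field F] [NumberField F] [IQ F] {A B : F} {Om : ℂ} {Ω : Type} [Field Ω] [DecidableEq Ω]
  [Algebra F Ω] [IsAlgClosure F Ω] {j : Ω →+* ℂ} {act : 𝓞 F →+* AddMonoid.End (Pt (WAB A B) Ω)} {mo : Ideal (𝓞 F)}
  {ψ : Ideal (𝓞 F) →*₀ 𝓞 F}

/-- Every nonzero point killed by beta generates. -/
theorem PA1_gen (hA : CMA F A B Om j act) (β : 𝓞 F) (hβ : Prime β) (T₀ : Pt (WAB A B) Ω) (hT : T₀ ∈ Tor act β) (h0 : T₀ ≠ 0) :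
    (∀ T ∈ Tor act β, ∃ a : 𝓞 F, T = act a T₀) ∧ ∀ a : 𝓞 F, act a T₀ = 0 ↔ β ∣ a := by
  obtain ⟨_, G₀, hG, hgen, hz⟩ := gi_gen hA β hβ
  obtain ⟨t, ht⟩ := hgen T₀ hT
  have hnt : ¬ β ∣ t := by
    intro h
    exact h0 (ht.trans ((hz t).2 h))
  have hc : IsCoprime β t := (hβ.irreducible.coprime_iff_not_dvd).2 hnt
  obtain ⟨w, u, huw⟩ := hc
  refine ⟨fun T hT' => ?_, fun a => ?_⟩
  · obtain ⟨x, hx⟩ := hgen T hT'
    refine ⟨x * u, ?_⟩
    rw [ht, ← act_mul, hx]
    have h1 : x = x * u * t + x * w * β := by linear_combination (-x) * huw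
    conv_lhs => rw [h1]
    rw [act_add, act_mul (x * w) β, mem_Tor.1 hG, map_zero, add_zero]
  · rw [ht, ← act_mul, hz]
    constructor
    · intro h
      exact (hβ.dvd_or_dvd h).resolve_right hnt
    · intro h
      exact dvd_mul_of_dvd_left h t

omit [IsAlgClosure F Ω] in
/-- Roots of unity at a Frobenius element. -/
theorem PA1_zeta (l : ℕ) (hl : l.Prime) (ζ : Ω) (hζ : IsPrimitiveRoot ζ l) (V : ValuationSubring Ω)
    (hV : ¬ V.valuation (l : Ω) < 1) (q : ℕ) (s : Ω ≃ₐ[F] Ω)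
    (hs : ∀ x ∈ V, V.valuation (s x - x ^ q) < 1) : s ζ = ζ ^ q := by
  have hl0 : NeZero l := ⟨hl.ne_zero⟩
  have hz1 : V.valuation ζ = 1 := by
    have h1 : V.valuation ζ ^ l = 1 := by rw [← map_pow, hζ.pow_eq_one, map_one]
    exact (pow_eq_one_iff_of_nonneg zero_le hl.ne_zero).1 h1
  have hzV : ζ ∈ V := (V.valuation_le_one_iff ζ).1 hz1.le
  by_contra hne
  have hz0 : ζ ^ q ≠ 0 := pow_ne_zero _ (hζ.ne_zero hl.ne_zero)
  let ξ : Ω := s ζ / ζ ^ q
  have hξ1 : ξ ≠ 1 := fun h => hne ((div_eq_one_iff_eq hz0).1 h)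
  have hξl : ξ ^ l = 1 := by
    show (s ζ / ζ ^ q) ^ l = 1
    rw [div_pow, ← map_pow, hζ.pow_eq_one, map_one, ← pow_mul, mul_comm, pow_mul, hζ.pow_eq_one,
      one_pow, div_one]
  have hξv : V.valuation (ξ - 1) < 1 := by
    have h1 : ξ - 1 = (s ζ - ζ ^ q) / ζ ^ q := by
      show s ζ / ζ ^ q - 1 = _
      field_simp
    rw [h1, map_div₀, map_pow, hz1, one_pow, div_one]
    exact hs ζ hzV
  have hξV : ξ ∈ V := by
    have h1 : ξ - 1 ∈ V := (V.valuation_le_one_iff _).1 hξv.le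
    have h2 := V.add_mem _ _ h1 V.one_mem
    rwa [sub_add_cancel] at h2
  let x : V := ⟨ξ, hξV⟩
  have hr : IsLocalRing.residue V x = 1 := by
    have h1 : x - 1 ∈ IsLocalRing.maximalIdeal V := by
      rw [ValuationSubring.valuation_lt_one_iff]
      exact hξv
    have h2 := (IsLocalRing.residue_eq_zero_iff _).2 h1
    rw [map_sub, map_one, sub_eq_zero] at h2
    exact h2
  have hsum : ∑ i ∈ Finset.range l, x ^ i = 0 := by
    apply Subtype.ext
    have h1 := geom_sum_mul ξ l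
    rw [hξl, sub_self] at h1
    have h2 := (mul_eq_zero.1 h1).resolve_right (sub_ne_zero.2 hξ1)
    rw [ZeroMemClass.coe_zero, ← h2]
    push_cast
    rfl
  have h1 : IsLocalRing.residue V (l : V) = 0 := by
    have h2 := congrArg (IsLocalRing.residue V) hsum
    rw [map_sum, map_zero] at h2
    simp only [map_pow, hr, one_pow, Finset.sum_const, Finset.card_range, nsmul_eq_mul, mul_one] at h2
    rw [map_natCast]
    exact h2
  apply hV
  have h2 := (IsLocalRing.residue_eq_zero_iff _).1 h1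
  have h4 := (ValuationSubring.valuation_lt_one_iff V (l : V)).1 h2
  exact h4

/-- Chunk PA1 (M/L). The determinant of the Galois action: conj(chi'(s)) chi(s) = cyclotomic(s) modulo pi.
Let H be the set of all s in G = Gal(Ω/F) for which the conclusion holds for the (unique modulo pi, cj pi, l) a, b, c attached to s. chi, chi' (exists_chi for
pi and cj pi) and the cyclotomic character are homomorphisms, so H is the kernel of the homomorphism s -> cj(chi'(s)) chi(s) / cyc(s) to (𝓞 F/pi)^*; it is a normal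
subgroup containing the open subgroup M.fixingSubgroup, M = F(coordinates of Tor pi, Tor (cj pi), zeta) finite over F. E = fixed field of H: Galois over F, finite,
number field, E.fixingSubgroup = H (H is open, hence closed). Let v be a prime of F not above 3 l, with N v prime, unramified in E, gamma its primary generator (H55B.gen;
Prim). V above v (exists_above for a field, or any valuation ring with value of gamma < 1), s a Frobenius element at V (exists_frob).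
gi_frob: ac s T₀ = act gamma T₀, ac s T₀' = act gamma T₀', so a = gamma mod pi, b = gamma mod cj pi; s zeta = zeta^(N v) because s zeta - zeta^(N v) has value < 1
and different l-th roots of unity differ by elements dividing l (a V-unit). So cj b a - c = cj gamma gamma - Nm gamma = 0 modulo pi (mul_cj): s in H, s acts
trivially on E, so x = x^(N v) modulo the prime of E below V for all x in 𝓞 E: the residue degree is 1. All Frobenius elements and all V above v behave like this, so v splits completely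
in E (es = 1, fs = 1, see H55R/Defs: es, fs are ramificationIdxIn, inertiaDegIn). degree_one_split: E = F, H = G. -/
theorem char_id (π : 𝓞 F) (l : ℕ) (dta : Dta A B Om j act mo ψ l) (hπ : Prime π) (hd : π ∣ (l : 𝓞 F))
    (ζ : Ω) (hζ : IsPrimitiveRoot ζ l) (s : Ω ≃ₐ[F] Ω) (a b : 𝓞 F) (c : ℕ) (T₀ T₀' : Pt (WAB A B) Ω)
    (hT : T₀ ∈ Tor act π) (hT0 : T₀ ≠ 0) (hT' : T₀' ∈ Tor act (cj π)) (hT0' : T₀' ≠ 0)
    (ha : ac (WAB A B) s T₀ = act a T₀) (hb : ac (WAB A B) s T₀' = act b T₀') (hc : s ζ = ζ ^ c) :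
    π ∣ cj b * a - (c : 𝓞 F) := by
  classical
  have hA := dta.cma
  have hl := dta.prime
  have hl0 : NeZero l := ⟨hl.ne_zero⟩
  have hac : IsAlgClosed Ω := IsAlgClosure.isAlgClosed F
  have halg : Algebra.IsAlgebraic F Ω := IsAlgClosure.isAlgebraic
  have hπ' : Prime (cj π) := cj_prime hπ
  have hd' : cj π ∣ (l : 𝓞 F) := by
    rw [cj_dvd, cj_nat]
    exact hd
  obtain ⟨hg, hz⟩ := PA1_gen hA π hπ T₀ hT hT0
  obtain ⟨hg', hz'⟩ := PA1_gen hA (cj π) hπ' T₀' hT' hT0'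
  have hex : ∀ t : Ω ≃ₐ[F] Ω, ∃ p : 𝓞 F × 𝓞 F × ℕ, ac (WAB A B) t T₀ = act p.1 T₀ ∧
      ac (WAB A B) t T₀' = act p.2.1 T₀' ∧ t ζ = ζ ^ p.2.2 := by
    intro t
    obtain ⟨x, hx⟩ := hg _ (ac_mem hA t hT)
    obtain ⟨y, hy⟩ := hg' _ (ac_mem hA t hT')
    have h1 : (t ζ) ^ l = 1 := by rw [← map_pow, hζ.pow_eq_one, map_one]
    obtain ⟨i, _, hi⟩ := hζ.eq_pow_of_pow_eq_one h1
    exact ⟨⟨x, y, i⟩, hx, hy, hi.symm⟩
  choose p hp using hex
  let mk : 𝓞 F →+* 𝓞 F ⧸ Ideal.span {π} := Ideal.Quotient.mk (Ideal.span {π})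
  have hmk : ∀ x y : 𝓞 F, mk x = mk y ↔ π ∣ x - y := by
    intro x y
    rw [← Ideal.mem_span_singleton]
    exact Ideal.Quotient.mk_eq_mk_iff_sub_mem _ _
  have uniq1 : ∀ (t : Ω ≃ₐ[F] Ω) (x y : 𝓞 F), ac (WAB A B) t T₀ = act x T₀ → ac (WAB A B) t T₀' = act y T₀' →
      mk (cj y * x) = mk (cj (p t).2.1 * (p t).1) := by
    intro t x y hx hy
    have h1 : π ∣ x - (p t).1 := by
      rw [← hz, act_sub, ← hx, ← (hp t).1, sub_self]
    have h2 : π ∣ cj y - cj (p t).2.1 := by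
      rw [← map_sub, ← cj_dvd, ← hz', act_sub, ← hy, ← (hp t).2.1, sub_self]
    rw [map_mul mk, map_mul mk, (hmk _ _).2 h1, (hmk _ _).2 h2]
  have uniq2 : ∀ (t : Ω ≃ₐ[F] Ω) (n : ℕ), t ζ = ζ ^ n → mk (n : 𝓞 F) = mk ((p t).2.2 : 𝓞 F) := by
    intro t n hn
    have h1 : ζ ^ n = ζ ^ (p t).2.2 := by rw [← hn, (hp t).2.2]
    have h2 : n ≡ (p t).2.2 [MOD l] := by
      rw [← pow_mod_orderOf, ← pow_mod_orderOf ζ (p t).2.2, ← hζ.eq_orderOf] at h1
      exact hζ.pow_inj (Nat.mod_lt _ hl.pos) (Nat.mod_lt _ hl.pos) h1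
    rw [hmk]
    have h4 : (l : ℤ) ∣ ((n : ℤ) - ((p t).2.2 : ℤ)) := (Nat.modEq_iff_dvd.1 h2.symm)
    obtain ⟨m, hm⟩ := h4
    have h6 : (n : 𝓞 F) - ((p t).2.2 : 𝓞 F) = (l : 𝓞 F) * (m : 𝓞 F) := by
      exact_mod_cast congrArg (fun z : ℤ => (z : 𝓞 F)) hm
    rw [h6]
    exact dvd_mul_of_dvd_left hd _
  let D : (Ω ≃ₐ[F] Ω) →* (𝓞 F ⧸ Ideal.span {π}) :=
    { toFun := fun t => mk (cj (p t).2.1 * (p t).1)
      map_one' := by
        rw [← uniq1 1 1 1 (by rw [ac_one, act_one]) (by rw [ac_one, act_one])]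
        simp
      map_mul' := fun t u => by
        rw [← uniq1 (t * u) ((p u).1 * (p t).1) ((p u).2.1 * (p t).2.1)
          (by rw [ac_mul, (hp u).1, ac_act hA, (hp t).1, ← act_mul])
          (by rw [ac_mul, (hp u).2.1, ac_act hA, (hp t).2.1, ← act_mul]), ← map_mul, map_mul cj]
        congr 1
        ring }
  let C : (Ω ≃ₐ[F] Ω) →* (𝓞 F ⧸ Ideal.span {π}) :=
    { toFun := fun t => mk ((p t).2.2 : 𝓞 F)
      map_one' := by
        rw [← uniq2 1 1 (by rw [pow_one]; rfl)]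
        simp
      map_mul' := fun t u => by
        rw [← uniq2 (t * u) ((p t).2.2 * (p u).2.2) (by
          rw [AlgEquiv.mul_apply, (hp u).2.2, map_pow, (hp t).2.2, pow_mul]), ← map_mul]
        congr 1
        push_cast
        rfl }
  have hH : ∀ (t : Ω ≃ₐ[F] Ω) (x y : 𝓞 F) (n : ℕ), ac (WAB A B) t T₀ = act x T₀ → ac (WAB A B) t T₀' = act y T₀' →
      t ζ = ζ ^ n → (t ∈ MonoidHom.eqLocus D C ↔ π ∣ cj y * x - (n : 𝓞 F)) := by
    intro t x y n hx hy hn
    rw [← hmk, uniq1 t x y hx hy, uniq2 t n hn]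
    exact Iff.rfl
  have key : MonoidHom.eqLocus D C = ⊤ := by
    have hint : ∀ x : Ω, IsIntegral F x := fun x => (Algebra.IsAlgebraic.isAlgebraic x).isIntegral
    let A₁ : Set Ω := {xc T₀, yc T₀, xc T₀', yc T₀', ζ}
    have hAf : A₁.Finite := Set.toFinite A₁
    have hAf' : Finite A₁ := hAf
    have hLf : FiniteDimensional F (IntermediateField.adjoin F A₁) :=
      IntermediateField.finiteDimensional_adjoin fun x _ => hint x
    obtain ⟨S₀, hS₀, hfr⟩ := dta.frob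
    refine H13S.PA1_top (F₀ := F) (MonoidHom.eqLocus D C) ?_ (IntermediateField.adjoin F A₁) ?_
      (S₀ ∪ {v | (l : 𝓞 F) ∈ v.asIdeal} ∪ {v | mo ≤ v.asIdeal}) ?_ ?_
    · constructor
      intro t ht g
      show D (g * t * g⁻¹) = C (g * t * g⁻¹)
      have h1 : D t = C t := ht
      rw [map_mul, map_mul, map_mul, map_mul, mul_right_comm, mul_right_comm (C g), h1, ← map_mul,
        ← map_mul, mul_inv_cancel, map_one, map_one]
    · intro t ht
      have hfix : ∀ x ∈ A₁, t x = x := fun x hx =>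
        ht ⟨x, IntermediateField.subset_adjoin F A₁ hx⟩
      have hacne : ∀ P : Pt (WAB A B) Ω, P ≠ 0 → ac (WAB A B) t P ≠ 0 := fun P hP => ac_ne t hP
      have e1 : ac (WAB A B) t T₀ = act 1 T₀ := by
        rw [act_one]
        refine pt_ext (hacne _ hT0) hT0 ?_ ?_
        · rw [xc_ac]
          exact hfix _ (by simp [A₁])
        · rw [yc_ac]
          exact hfix _ (by simp [A₁])
      have e2 : ac (WAB A B) t T₀' = act 1 T₀' := by
        rw [act_one]
        refine pt_ext (hacne _ hT0') hT0' ?_ ?_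
        · rw [xc_ac]
          exact hfix _ (by simp [A₁])
        · rw [yc_ac]
          exact hfix _ (by simp [A₁])
      rw [hH t 1 1 1 e1 e2 (by rw [pow_one]; exact hfix _ (by simp [A₁]))]
      simp
    · have hf : ∀ n : ℕ, n ≠ 0 → {v : HeightOneSpectrum (𝓞 F) | (n : 𝓞 F) ∈ v.asIdeal}.Finite := by
        intro n hn
        have h1 : Ideal.span {(n : 𝓞 F)} ≠ 0 := by
          rw [Ideal.zero_eq_bot, Ne, Ideal.span_singleton_eq_bot]
          exact Nat.cast_ne_zero.2 hn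
        refine (Ideal.finite_factors h1).subset ?_
        intro v hv
        exact Ideal.dvd_span_singleton.2 hv
      have hm : {v : HeightOneSpectrum (𝓞 F) | mo ≤ v.asIdeal}.Finite := by
        refine (Ideal.finite_factors dta.hecke.ne).subset ?_
        intro v hv
        exact Ideal.dvd_iff_le.2 hv
      exact (hS₀.union (hf l hl.ne_zero)).union hm
    · intro v hv hq V hV t ht
      rw [Set.mem_union, Set.mem_union, not_or, not_or] at hv
      obtain ⟨⟨hvS, hvl⟩, hvm⟩ := hv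
      change (l : 𝓞 F) ∉ v.asIdeal at hvl
      change ¬ mo ≤ v.asIdeal at hvm
      have hcop : IsCoprime v.asIdeal mo := by
        rw [Ideal.isCoprime_iff_sup_eq]
        exact v.isMaximal.1.2 _ (left_lt_sup.2 hvm)
      have hspan := dta.hecke.gen v.asIdeal hcop
      have hNm : Nm (ψ v.asIdeal) = Ideal.absNorm v.asIdeal := by
        unfold Nm
        rw [hspan]
      have hVl : ¬ V.valuation (l : Ω) < 1 := by
        intro hlt
        have h1 : Ideal.span {(l : 𝓞 F)} ⊔ v.asIdeal = ⊤ := by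
          rw [sup_comm]
          refine v.isMaximal.1.2 _ (left_lt_sup.2 fun h => hvl (h (Ideal.mem_span_singleton_self _)))
        have h2 : (1 : 𝓞 F) ∈ Ideal.span {(l : 𝓞 F)} ⊔ v.asIdeal := by
          rw [h1]
          exact Submodule.mem_top
        obtain ⟨x, hx, y, hy, hxy⟩ := Submodule.mem_sup.1 h2
        obtain ⟨z, rfl⟩ := Ideal.mem_span_singleton.1 hx
        have h3 : vo V ((l : 𝓞 F) * z) < 1 := by
          rw [vo_mul, vo_nat]
          exact lt_of_le_of_lt (mul_le_of_le_one_right' (vo_le V z)) hlt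
        have h4 := vo_add V h3 (hV y hy)
        rw [hxy, vo_one] at h4
        exact lt_irrefl _ h4
      have hV1 : V.valuation (l : Ω) = 1 := by
        refine le_antisymm ?_ (not_lt.1 hVl)
        rw [← vo_nat (F := F)]
        exact vo_le V _
      have hk : ∀ T : Pt (WAB A B) Ω, ∀ b : 𝓞 F, b ∣ (l : 𝓞 F) → T ∈ Tor act b → l • T = 0 := by
        rintro T b ⟨x, hx⟩ hT
        rw [← act_nat (act := act), hx, mul_comm, act_mul, mem_Tor.1 hT, map_zero]
      have f1 := hfr v hvS hq V hV t ht l hV1 T₀ (hk T₀ π hd hT)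
      have f2 := hfr v hvS hq V hV t ht l hV1 T₀' (hk T₀' (cj π) hd' hT')
      have f3 := PA1_zeta l hl ζ hζ V hVl _ t ht
      rw [hH t _ _ _ f1 f2 f3, mul_comm, mul_cj, hNm, sub_self]
      exact dvd_zero _
  have h1 : s ∈ MonoidHom.eqLocus D C := by
    rw [key]
    exact Subgroup.mem_top s
  exact (hH s a b c ha hb hc).1 h1

end H55K.S
end

-- from Lib.H55R.X6
section

open NumberField IsDedekindDomain

namespace H55R

/-! The density theorem and the first inequality for the fixed field of a subgroup (assembly). -/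

theorem density_A (K N : Type) [Field K] [NumberField K] [Field N] [NumberField N] [Algebra K N]
    [IsGalois K N] (A : Subgroup Gal(N/K)) (hA : A.Normal) :
    ∃ C : ℝ, ∀ s ∈ Set.Ioc (1 : ℝ) 2,
      |PS {v : Pl K | SplA A v} s - (1 / A.index : ℝ) * Real.log (1 / (s - 1))| ≤ C := by
  obtain ⟨M, i1, i2, i3, i4, i5, i6, h1, h2⟩ := exists_fixed K N A hA
  obtain ⟨C, hC⟩ := density_split K M
  refine ⟨C, fun s hs => ?_⟩
  have h3 : {v : Pl K | SplA A v} = {v : Pl K | Spl K M v} := by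
    ext v
    rw [Set.mem_setOf_eq, Set.mem_setOf_eq, spl_iff K M N v, h2]
  rw [h3, ← h1]
  exact hC s hs

theorem first_A (K N : Type) [Field K] [NumberField K] [Field N] [NumberField N] [Algebra K N]
    [IsGalois K N] (A : Subgroup Gal(N/K)) (hA : A.Normal) (σ : Gal(N/K))
    (hσ : ∀ x : Gal(N/K), ∃ i : ℤ, x * (σ ^ i)⁻¹ ∈ A)
    (hK : ∀ v : InfinitePlace K, v.IsComplex) (f : Ideal (𝓞 K)) (hf : f ≠ ⊥)
    (hram : ∀ v : Pl K, ¬ f ≤ v.asIdeal → es K N v = 1)
    (htame : ∀ v : Pl K, es K N v ∣ Ideal.absNorm v.asIdeal - 1) :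
    ∃ Y : Subgroup (Pl K → ℂˣ), Finite Y ∧ Y ≤ RC f ∧ A.index ≤ Nat.card Y ∧
      ∀ φ ∈ Y, ∀ v : Pl K, ¬ f ≤ v.asIdeal → SplA A v → φ v = 1 := by
  obtain ⟨M, i1, i2, i3, i4, i5, i6, h1, h2⟩ := exists_fixed K N A hA
  have hgen : ∀ g : Gal(M/K), g ∈ Subgroup.zpowers (AlgEquiv.restrictNormalHom M σ) := by
    intro g
    obtain ⟨x, rfl⟩ := AlgEquiv.restrictNormalHom_surjective (F := K) (K₁ := M) (E := N) g
    obtain ⟨i, hi⟩ := hσ x
    rw [← h2, MonoidHom.mem_ker, map_mul, map_inv, mul_inv_eq_one, map_zpow] at hi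
    rw [hi]
    exact Subgroup.zpow_mem _ (Subgroup.mem_zpowers _) i
  obtain ⟨Y, a1, a2, a3, -, a5⟩ := first_ineq (K := K) (L := M) _ hgen hK f hf
    (fun v hv => Nat.dvd_one.1 ((hram v hv) ▸ es_dvd K M N v))
    (fun v => (es_dvd K M N v).trans (htame v))
  refine ⟨Y, a1, a2, by rw [← h1]; exact a3, fun φ hφ v hv hs => a5 φ hφ v hv ?_⟩
  rw [spl_iff K M N v, h2]
  exact hs

end H55R
end

-- from Lib.H55R.X10
section

open NumberField IsDedekindDomain

namespace H55R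

open H55B

/-! Chunk X10 (M): consequences of the density theorems. PS is monotone in the set and additive on disjoint sets for s > 1 (the series over all primes converges:
the primes of norm m number at most [K : Q] per rational prime; or Summable from Pool.Agent.Lib.H55N.H3.ideal_summable), PS (A ∪ B) + PS (A ∩ B) = PS A + PS B,
PS of a finite set is bounded on [1, 2] by its number of elements. The primes containing f are finitely many (primes_finite).
second_ineq: PS (SplA A) <= PS (kernel of Y) + finite, so (1/index) log(1/(s-1)) - C <= (1/|Y|) log(1/(s-1)) + C' for all s in (1, 2]; let s -> 1 : 1/index <= 1/|Y|.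
indep: SplA A and SplA B outside f are in the kernel of Z; SplA A ∩ SplA B = SplA (A ⊓ B). Density: 1/[G:A] + 1/[G:B] - 1/[G:A ⊓ B] <= 1/|Z|, and
[G : A ⊓ B] > [G : A] because A is not contained in B. So 1/[G:B] < 1/|Z|. -/

theorem PS_summable {K : Type} [Field K] [NumberField K] (s : ℝ) (hs : 1 < s) :
    Summable fun v : Pl K => (Ideal.absNorm v.asIdeal : ℝ) ^ (-s) := by
  have h1 := H55N.ideal_summable (K := K) s hs
  exact h1.comp_injective (i := fun v : Pl K => v.asIdeal) fun v w h => HeightOneSpectrum.ext h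

section X10

variable {K : Type} [Field K] [NumberField K]

theorem X10_sum (S : Set (Pl K)) (s : ℝ) (hs : 1 < s) :
    Summable (S.indicator fun v : Pl K => (Ideal.absNorm v.asIdeal : ℝ) ^ (-s)) :=
  (PS_summable s hs).indicator S

theorem X10_mono {S T : Set (Pl K)} (h : S ⊆ T) (s : ℝ) (hs : 1 < s) : PS S s ≤ PS T s := by
  unfold PS
  refine (X10_sum S s hs).tsum_le_tsum (fun v => ?_) (X10_sum T s hs)
  exact Set.indicator_le_indicator_of_subset h (fun v => by positivity) v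

theorem X10_union (S T : Set (Pl K)) (s : ℝ) (hs : 1 < s) :
    PS (S ∪ T) s + PS (S ∩ T) s = PS S s + PS T s := by
  unfold PS
  rw [← (X10_sum (S ∪ T) s hs).tsum_add (X10_sum (S ∩ T) s hs),
    ← (X10_sum S s hs).tsum_add (X10_sum T s hs)]
  exact tsum_congr fun v => Set.indicator_union_add_inter_apply _ S T v

theorem X10_nonneg (S : Set (Pl K)) (s : ℝ) : 0 ≤ PS S s := by
  unfold PS
  exact tsum_nonneg fun v => Set.indicator_nonneg (fun v _ => by positivity) v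

theorem X10_fin {S : Set (Pl K)} (hS : S.Finite) (s : ℝ) (hs : 1 < s) :
    PS S s ≤ hS.toFinset.card := by
  unfold PS
  rw [tsum_eq_sum (s := hS.toFinset) fun v hv => by
    rw [Set.indicator_of_notMem]
    exact fun h => hv (hS.mem_toFinset.2 h)]
  have h1 : ∀ v ∈ hS.toFinset, S.indicator (fun v : Pl K => (Ideal.absNorm v.asIdeal : ℝ) ^ (-s)) v ≤
      1 := by
    intro v hv
    rw [Set.indicator_of_mem (hS.mem_toFinset.1 hv)]
    apply Real.rpow_le_one_of_one_le_of_nonpos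
    · have : 0 < Ideal.absNorm v.asIdeal := Nat.pos_of_ne_zero fun h => v.ne_bot
        (Ideal.absNorm_eq_zero_iff.1 h)
      exact_mod_cast this
    · linarith
  calc _ ≤ ∑ v ∈ hS.toFinset, (1 : ℝ) := Finset.sum_le_sum h1
    _ = _ := by simp

theorem X10_bad {f : Ideal (𝓞 K)} (hf : f ≠ ⊥) : {v : Pl K | f ≤ v.asIdeal}.Finite := by
  have h := Ideal.finite_factors hf
  refine h.subset fun v hv => ?_
  exact Ideal.dvd_iff_le.2 hv

/-- Primes of S are in the kernel T up to the primes containing f. -/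
theorem X10_cmp {f : Ideal (𝓞 K)} (hf : f ≠ ⊥) {S T : Set (Pl K)}
    (h : ∀ v ∈ S, ¬ f ≤ v.asIdeal → v ∈ T) (s : ℝ) (hs : 1 < s) :
    PS S s ≤ PS T s + (X10_bad hf).toFinset.card := by
  have h1 : S ⊆ T ∪ {v : Pl K | f ≤ v.asIdeal} := by
    intro v hv
    by_cases hb : f ≤ v.asIdeal
    · exact Or.inr hb
    · exact Or.inl (h v hv hb)
  have h2 := X10_union T {v : Pl K | f ≤ v.asIdeal} s hs
  have h3 := X10_nonneg (T ∩ {v : Pl K | f ≤ v.asIdeal}) s
  have h4 := X10_fin (X10_bad hf) s hs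
  have h5 := X10_mono h1 s hs
  linarith

end X10

theorem X10_lim {a b D : ℝ}
    (h : ∀ s ∈ Set.Ioc (1 : ℝ) 2, a * Real.log (1 / (s - 1)) ≤ b * Real.log (1 / (s - 1)) + D) :
    a ≤ b := by
  by_contra hab
  push Not at hab
  set T : ℝ := max 0 (D / (a - b)) + 1 with hT
  have hT1 : 0 < T := by
    have := le_max_left 0 (D / (a - b))
    linarith
  have hab' : 0 < a - b := by linarith
  have hT2 : D < (a - b) * T := by
    have h1 := le_max_right 0 (D / (a - b))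
    have h2 : D / (a - b) < T := by linarith
    rw [div_lt_iff₀ hab'] at h2
    linarith
  have h3 := h (1 + Real.exp (-T)) ⟨by linarith [Real.exp_pos (-T)], by
    have := Real.exp_le_one_iff.2 (by linarith : -T ≤ 0)
    linarith⟩
  rw [add_sub_cancel_left, one_div, ← Real.exp_neg, neg_neg, Real.log_exp] at h3
  linarith

theorem X10_index {G : Type} [Group G] [Finite G] (A : Subgroup G) : (0 : ℝ) < A.index := by
  exact_mod_cast Nat.pos_of_ne_zero Subgroup.index_ne_zero_of_finite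

theorem second_ineq (K N : Type) [Field K] [NumberField K] [Algebra F K] [Field N] [NumberField N]
    [Algebra K N] [IsGalois K N] (A : Subgroup Gal(N/K)) (hA : A.Normal) (f : Ideal (𝓞 K))
    (hf : f ≠ ⊥) (hf' : f ≠ ⊤) (Y : Subgroup (Pl K → ℂˣ)) (hYf : Finite Y) (hY : Y ≤ RC f)
    (h : ∀ φ ∈ Y, ∀ v : Pl K, ¬ f ≤ v.asIdeal → SplA A v → φ v = 1) :
    Nat.card Y ≤ A.index := by
  obtain ⟨C, hC⟩ := density_A K N A hA
  obtain ⟨C', hC'⟩ := density_ker f hf hf' Y hY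
  have hY0 : (0 : ℝ) < Nat.card Y := by exact_mod_cast Nat.card_pos
  have hA0 := X10_index A
  have h1 : (1 / A.index : ℝ) ≤ 1 / Nat.card Y := by
    refine X10_lim (D := C + C' + (X10_bad hf).toFinset.card) fun s hs => ?_
    have e1 := (abs_le.1 (hC s hs)).1
    have e2 := hC' s hs
    have e3 := X10_cmp hf (S := {v : Pl K | SplA A v})
      (T := {v : Pl K | ¬ f ≤ v.asIdeal ∧ ∀ φ ∈ Y, φ v = 1})
      (fun v hv hb => ⟨hb, fun φ hφ => h φ hφ v hb hv⟩) s hs.1
    linarith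
  rw [one_div_le_one_div hA0 hY0] at h1
  exact_mod_cast h1

theorem indep (K N : Type) [Field K] [NumberField K] [Algebra F K] [Field N] [NumberField N]
    [Algebra K N] [IsGalois K N] (A B : Subgroup Gal(N/K)) (hA : A.Normal) (hB : B.Normal)
    (hAB : ¬ A ≤ B) (f : Ideal (𝓞 K)) (hf : f ≠ ⊥) (hf' : f ≠ ⊤) (Z : Subgroup (Pl K → ℂˣ))
    (hZf : Finite Z) (hZ : Z ≤ RC f)
    (h : ∀ φ ∈ Z, ∀ v : Pl K, ¬ f ≤ v.asIdeal → SplA A v ∨ SplA B v → φ v = 1) :
    Nat.card Z < B.index := by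
  obtain ⟨C₁, hC₁⟩ := density_A K N A hA
  obtain ⟨C₂, hC₂⟩ := density_A K N B hB
  have hAB' : (A ⊓ B).Normal := Subgroup.normal_inf_normal A B
  obtain ⟨C₃, hC₃⟩ := density_A K N (A ⊓ B) hAB'
  obtain ⟨C', hC'⟩ := density_ker f hf hf' Z hZ
  have hZ0 : (0 : ℝ) < Nat.card Z := by exact_mod_cast Nat.card_pos
  have hA0 := X10_index A
  have hB0 := X10_index B
  have hAB0 := X10_index (A ⊓ B)
  have hint : {v : Pl K | SplA A v} ∩ {v : Pl K | SplA B v} = {v : Pl K | SplA (A ⊓ B) v} := by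
    ext v
    constructor
    · rintro ⟨h1, h2⟩ W hW σ hσ
      exact ⟨h1 W hW σ hσ, h2 W hW σ hσ⟩
    · intro h1
      exact ⟨fun W hW σ hσ => (h1 W hW σ hσ).1, fun W hW σ hσ => (h1 W hW σ hσ).2⟩
  have h1 : (1 / A.index + 1 / B.index - 1 / (A ⊓ B).index : ℝ) ≤ 1 / Nat.card Z := by
    refine X10_lim (D := C₁ + C₂ + C₃ + C' + (X10_bad hf).toFinset.card) fun s hs => ?_
    have e1 := (abs_le.1 (hC₁ s hs)).1
    have e2 := (abs_le.1 (hC₂ s hs)).1
    have e3 := (abs_le.1 (hC₃ s hs)).2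
    have e4 := hC' s hs
    have e5 := X10_cmp hf (S := {v : Pl K | SplA A v} ∪ {v : Pl K | SplA B v})
      (T := {v : Pl K | ¬ f ≤ v.asIdeal ∧ ∀ φ ∈ Z, φ v = 1})
      (fun v hv hb => ⟨hb, fun φ hφ => h φ hφ v hb hv⟩) s hs.1
    have e6 := X10_union {v : Pl K | SplA A v} {v : Pl K | SplA B v} s hs.1
    rw [hint] at e6
    linarith
  have h2 : A.index < (A ⊓ B).index := by
    have e1 := Subgroup.relIndex_mul_index (inf_le_left : A ⊓ B ≤ A)
    have e2 : (A ⊓ B).relIndex A ≠ 1 := by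
      intro e
      rw [Subgroup.relIndex_eq_one] at e
      exact hAB (e.trans inf_le_right)
    have e3 : (A ⊓ B).relIndex A ≠ 0 := by
      intro e
      rw [e, zero_mul] at e1
      exact Subgroup.index_ne_zero_of_finite e1.symm
    have e4 : 0 < A.index := Nat.pos_of_ne_zero Subgroup.index_ne_zero_of_finite
    rw [← e1]
    exact lt_mul_of_one_lt_left e4 (by omega)
  have h3 : (1 / (A ⊓ B).index : ℝ) < 1 / A.index := by
    rw [one_div_lt_one_div hAB0 hA0]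
    exact_mod_cast h2
  have h4 : (1 / B.index : ℝ) < 1 / Nat.card Z := by linarith
  rw [one_div_lt_one_div hB0 hZ0] at h4
  exact_mod_cast h4

end H55R
end

-- from Lib.H55R.Cross
section

open NumberField IsDedekindDomain

namespace H55R

open H55B

theorem SplA_mono {K N : Type} [Field K] [NumberField K] [Field N] [NumberField N] [Algebra K N]
    {A B : Subgroup Gal(N/K)} (h : A ≤ B) {v : Pl K} (hv : SplA A v) : SplA B v :=
  fun W hW σ hσ => h (hv W hW σ hσ)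

theorem complexF (K : Type) [Field K] [NumberField K] [Algebra F K] (v : InfinitePlace K) :
    v.IsComplex := by
  classical
  rw [← InfinitePlace.not_isReal_iff_isComplex]
  intro h
  have h1 : (v.comap (algebraMap F K)).IsReal := h.comap (algebraMap F K)
  have h2 : InfinitePlace.nrRealPlaces F = 0 :=
    IsCyclotomicExtension.Rat.nrRealPlaces_eq_zero (n := 3) F (by norm_num)
  have h3 : 0 < InfinitePlace.nrRealPlaces F := Fintype.card_pos_iff.2 ⟨⟨_, h1⟩⟩
  omega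

theorem root_pow_eq {N : Type} [Field N] {p : ℕ} {ζ : N} (hζ : IsPrimitiveRoot ζ p) (hp : p ≠ 0)
    {a b : ℕ} (h : ζ ^ a = ζ ^ b) : a ≡ b [MOD p] := by
  have hζ0 : ζ ≠ 0 := hζ.ne_zero hp
  have h1 := hζ.eq_orderOf
  have h2 : (Units.mk0 ζ hζ0) ^ a = (Units.mk0 ζ hζ0) ^ b := by
    ext
    exact h
  rw [pow_eq_pow_iff_modEq, ← orderOf_units, Units.val_mk0, ← h1] at h2
  exact h2

/-- Inert primes are not in the kernel of the character (assembly). -/
theorem cross {K L : Type} [Field K] [NumberField K] [Algebra F K] [Field L] [NumberField L]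
    [Algebra K L] [IsGalois K L] (l : ℕ) (hl : l.Prime) (hn : Module.finrank K L = l)
    (hcL : ∀ g h : Gal(L/K), g * h = h * g) (f : Ideal (𝓞 K))
    (hf : f ≠ ⊥) (hf0 : ∀ v : Pl K, ¬ f ≤ v.asIdeal → es K L v = 1)
    (htame : ∀ v : Pl K, es K L v ∣ Ideal.absNorm v.asIdeal - 1) (φ : Pl K → ℂˣ) (hφ : φ ∈ RC f)
    (hφl : φ ^ l = 1) (hφ1 : φ ≠ 1)
    (hφS : ∀ v : Pl K, ¬ f ≤ v.asIdeal → Spl K L v → φ v = 1) (w : Pl K)
    (hw : ¬ f ≤ w.asIdeal) (hns : ¬ Spl K L w) : φ w ≠ 1 := by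
  classical
  set q := Ideal.absNorm w.asIdeal with hq
  have hK : ∀ v : InfinitePlace K, v.IsComplex := complexF K
  have hq1 : 1 < q := by
    have h1 : q ≠ 0 := by
      rw [hq, Ne, Ideal.absNorm_eq_zero_iff]
      exact w.ne_bot
    have h2 : q ≠ 1 := by
      rw [hq, Ne, Ideal.absNorm_eq_one_iff]
      exact w.isPrime.ne_top
    omega
  obtain ⟨p, hp, hpq, hpbad, hord⟩ := exists_p q l hq1 hl (Ideal.absNorm f).primeFactors
  have hpf : ¬ p ∣ Ideal.absNorm f := by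
    intro h
    exact hpbad (Nat.mem_primeFactors.2 ⟨hp, h, by rwa [Ne, Ideal.absNorm_eq_zero_iff]⟩)
  have := Fact.mk hp
  -- the unit q modulo p
  have hqu : IsUnit (q : ZMod p) := by
    rw [isUnit_iff_ne_zero, Ne, ZMod.natCast_eq_zero_iff]
    exact hpq
  set u : (ZMod p)ˣ := hqu.unit with hu
  have huq : (u : ZMod p) = (q : ℕ) := hqu.unit_spec
  have hou : l ∣ orderOf u := by
    rw [← orderOf_units, huq]
    exact hord
  obtain ⟨θ, hθ1, hθ2⟩ := exists_theta p l hl u hou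
  obtain ⟨N, i1, i2, i3, i4, i5, ζ, hζ, i6, hc, hN⟩ := exists_N K L hcL p hp
  set f' : Ideal (𝓞 K) := f * Ideal.span {(p : 𝓞 K)} with hf'
  have hp0 : (p : 𝓞 K) ≠ 0 := Nat.cast_ne_zero.2 hp.ne_zero
  have hf'0 : f' ≠ ⊥ := mul_ne_zero hf (by
    rw [Ne, Ideal.zero_eq_bot, Ideal.span_singleton_eq_bot]
    exact hp0)
  have hle1 : f' ≤ f := Ideal.mul_le_left
  have hle2 : f' ≤ Ideal.span {(p : 𝓞 K)} := Ideal.mul_le_right
  have hv' : ∀ v : Pl K, ¬ f' ≤ v.asIdeal → ¬ f ≤ v.asIdeal ∧ (p : 𝓞 K) ∉ v.asIdeal :=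
    fun v hv => ⟨fun h => hv (hle1.trans h), fun h => hv (hle2.trans (by
      rw [Ideal.span_singleton_le_iff_mem]
      exact h))⟩
  have hv'' : ∀ v : Pl K, ¬ f ≤ v.asIdeal → (p : 𝓞 K) ∉ v.asIdeal → ¬ f' ≤ v.asIdeal := by
    intro v h1 h2 h3
    rcases (v.isPrime.mul_le).1 h3 with h | h
    · exact h1 h
    · rw [Ideal.span_singleton_le_iff_mem] at h
      exact h2 h
  have hf't : f' ≠ ⊤ := by
    intro h
    have h1 : (p : 𝓞 K) ∣ 1 := by
      rw [← Ideal.mem_span_singleton]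
      exact hle2 (by rw [h]; trivial)
    have h2 := Algebra.norm ℤ (p : 𝓞 K)
    have h3 : IsUnit (p : 𝓞 K) := isUnit_of_dvd_one h1
    have h4 := (Ideal.absNorm_eq_one_iff (I := Ideal.span {(p : 𝓞 K)})).2
      (Ideal.span_singleton_eq_top.2 h3)
    rw [Ideal.absNorm_span_singleton] at h4
    have h5 : (Algebra.norm ℤ (p : 𝓞 K)) = (p : ℤ) ^ Module.finrank ℤ (𝓞 K) := by
      have h6 := Algebra.norm_algebraMap (S := 𝓞 K) (p : ℤ)
      simpa using h6
    rw [h5, Int.natAbs_pow, Int.natAbs_natCast] at h4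
    have h7 : Module.finrank ℤ (𝓞 K) ≠ 0 := by
      rw [RingOfIntegers.rank]
      exact Module.finrank_pos.ne'
    have h8 := hp.one_lt
    have h9 := Nat.one_lt_pow h7 h8
    omega
  -- primes dividing f and p
  have hcop : ∀ v : Pl K, (p : 𝓞 K) ∈ v.asIdeal → ¬ f ≤ v.asIdeal := by
    intro v h1 h2
    have h3 := Ideal.absNorm_dvd_absNorm_of_le h2
    have h4 : p ∣ Ideal.absNorm v.asIdeal := by
      have h5 : (Ideal.absNorm v.asIdeal : 𝓞 K) ∈ v.asIdeal := Ideal.absNorm_mem v.asIdeal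
      by_contra h6
      have h7 : IsCoprime (p : ℤ) (Ideal.absNorm v.asIdeal : ℤ) :=
        Nat.isCoprime_iff_coprime.2 ((Nat.Prime.coprime_iff_not_dvd hp).2 h6)
      obtain ⟨a, b, hab⟩ := h7
      apply v.isPrime.ne_top
      rw [Ideal.eq_top_iff_one]
      have h8 : (1 : 𝓞 K) = a * p + b * (Ideal.absNorm v.asIdeal : 𝓞 K) := by
        exact_mod_cast (congrArg (fun z : ℤ => (z : 𝓞 K)) hab).symm
      rw [h8]
      exact add_mem (Ideal.mul_mem_left _ _ h1) (Ideal.mul_mem_left _ _ h5)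
    exact hpf (h4.trans h3)
  have hram : ∀ v : Pl K, ¬ f' ≤ v.asIdeal → es K N v = 1 := by
    intro v hv
    obtain ⟨h1, h2⟩ := hv' v hv
    have h3 := es_N K L N p hp ζ hζ hN v h2
    rw [hf0 v h1] at h3
    exact Nat.dvd_one.1 h3
  have htame' : ∀ v : Pl K, es K N v ∣ Ideal.absNorm v.asIdeal - 1 := by
    intro v
    by_cases h : (p : 𝓞 K) ∈ v.asIdeal
    · have h1 := es_N' K L N p hp ζ hζ hN v (hf0 v (hcop v h))
      refine h1.trans ?_
      -- the norm of v is a power of p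
      have h2 : ∃ k : ℕ, Ideal.absNorm v.asIdeal = p ^ k := by
        have h3 := Ideal.absNorm_dvd_absNorm_of_le
          ((Ideal.span_singleton_le_iff_mem v.asIdeal).2 h)
        rw [Ideal.absNorm_span_singleton] at h3
        have h5 : (Algebra.norm ℤ (p : 𝓞 K)) = (p : ℤ) ^ Module.finrank ℤ (𝓞 K) := by
          have h6 := Algebra.norm_algebraMap (S := 𝓞 K) (p : ℤ)
          simpa using h6
        rw [h5, Int.natAbs_pow, Int.natAbs_natCast] at h3
        obtain ⟨k, -, hk⟩ := (Nat.dvd_prime_pow hp).1 h3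
        exact ⟨k, hk⟩
      obtain ⟨k, hk⟩ := h2
      rw [hk]
      exact Nat.sub_one_dvd_pow_sub_one p k
    · exact (es_N K L N p hp ζ hζ hN v h).trans (htame v)
  -- the Frobenius of w
  have hpw : (p : 𝓞 K) ∉ w.asIdeal := by
    intro h
    apply hpq
    rw [hq]
    have h5 : (Ideal.absNorm w.asIdeal : 𝓞 K) ∈ w.asIdeal := Ideal.absNorm_mem w.asIdeal
    by_contra h6
    have h7 : IsCoprime (p : ℤ) (Ideal.absNorm w.asIdeal : ℤ) :=
      Nat.isCoprime_iff_coprime.2 ((Nat.Prime.coprime_iff_not_dvd hp).2 h6)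
    obtain ⟨a, b, hab⟩ := h7
    apply w.isPrime.ne_top
    rw [Ideal.eq_top_iff_one]
    have h8 : (1 : 𝓞 K) = a * p + b * (Ideal.absNorm w.asIdeal : 𝓞 K) := by
      exact_mod_cast (congrArg (fun z : ℤ => (z : 𝓞 K)) hab).symm
    rw [h8]
    exact add_mem (Ideal.mul_mem_left _ _ h) (Ideal.mul_mem_left _ _ h5)
  have hw' : ¬ f' ≤ w.asIdeal := hv'' w hw hpw
  obtain ⟨g, hg1, hg2⟩ := exists_frob K N hc w (hram w hw')
  have hgζ : g ζ = ζ ^ q := hg2 p ζ hp hζ hpw
  have hgpow : ∀ k : ℕ, (g ^ k) ζ = ζ ^ (q ^ k) := by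
    intro k
    induction k with
    | zero => rw [pow_zero, pow_zero, pow_one]; rfl
    | succ k ih =>
      rw [pow_succ', AlgEquiv.mul_apply, ih, map_pow, hgζ, ← pow_mul, pow_succ']
  have hnorm : ∀ A : Subgroup Gal(N/K), A.Normal := fun A => ⟨fun a ha x => by
    rw [hc x a, mul_assoc, mul_inv_cancel, mul_one]
    exact ha⟩
  set B : Subgroup Gal(N/K) := (AlgEquiv.restrictNormalHom L : Gal(N/K) →* Gal(L/K)).ker with hB
  obtain ⟨hBc, hBi⟩ := ker_cyclic K L N p hp ζ hζ hN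
  rw [hn] at hBi
  have hgB : g ∉ B := by
    intro h
    apply hns
    rw [spl_iff K L N w]
    exact (hg1 _).2 h
  have hog : l ∣ orderOf g := by
    refine hord.trans ?_
    rw [orderOf_dvd_iff_pow_eq_one]
    have h1 := hgpow (orderOf g)
    rw [pow_orderOf_eq_one, AlgEquiv.one_apply] at h1
    have h2 : ζ ^ (q ^ orderOf g) = ζ ^ 1 := by rw [← h1, pow_one]
    have h3 := root_pow_eq hζ hp.ne_zero h2
    have h4 := (ZMod.natCast_eq_natCast_iff _ _ _).2 h3
    push_cast at h4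
    exact h4
  obtain ⟨σ, hσ⟩ := gen_exists hc l hl g B hBi hBc hgB
  -- the characters of M
  obtain ⟨YM, m1, m2, m3, m4⟩ := first_A K N (Subgroup.zpowers g) (hnorm _) σ hσ hK f' hf'0 hram
    htame'
  have hwM : SplA (Subgroup.zpowers g) w := (hg1 _).2 (Subgroup.mem_zpowers g)
  -- the restriction of φ
  set φ' : Pl K → ℂˣ := resF f' φ with hφ'
  have hφ'v : ∀ v : Pl K, ¬ f' ≤ v.asIdeal → φ' v = φ v := fun v hv => if_neg hv
  have hφ'RC : φ' ∈ RC f' := resF_RC f f' hle1 φ hφ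
  have hφ'1 : φ' ≠ 1 := fun h => hφ1 (resF_one f f' hle1 hf'0 φ hφ h)
  have hφ'l : φ' ^ l = 1 := by
    funext v
    by_cases hv : f' ≤ v.asIdeal
    · have h1 : φ' v = 1 := if_pos hv
      rw [Pi.pow_apply, h1, one_pow, Pi.one_apply]
    · rw [Pi.pow_apply, hφ'v v hv]
      exact congrFun hφl v
  have hφ'S : ∀ v : Pl K, ¬ f' ≤ v.asIdeal → SplA B v → φ' v = 1 := by
    intro v hv hs
    rw [hφ'v v hv]
    exact hφS v (hv' v hv).1 ((spl_iff K L N v).2 hs)
  have hzl : Nat.card (Subgroup.zpowers φ') = l := by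
    have := Fact.mk hl
    rw [Nat.card_zpowers]
    exact orderOf_eq_prime hφ'l hφ'1
  have hzfin : Finite (Subgroup.zpowers φ') :=
    Nat.finite_of_card_ne_zero (by rw [hzl]; exact hl.ne_zero)
  -- independence
  have hnot : φ' ∉ YM := by
    intro hmem
    have h1 := indep K N (Subgroup.zpowers g) B (hnorm _) (hnorm _)
      (fun h => hgB (h (Subgroup.mem_zpowers g))) f' hf'0 hf't (Subgroup.zpowers φ') hzfin
      (by rw [Subgroup.zpowers_le]; exact hφ'RC) (by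
        rintro ψ ⟨j, rfl⟩ v hv hs
        have h2 : φ' v = 1 := by
          rcases hs with hs | hs
          · exact m4 φ' hmem v hv hs
          · exact hφ'S v hv hs
        show (φ' ^ j) v = 1
        rw [Pi.pow_apply, h2, one_zpow])
    rw [hzl, hBi] at h1
    exact lt_irrefl _ h1
  -- the cyclotomic character
  set θ' : Pl K → ℂˣ := thetaF f' p θ with hθ'
  have hθ'RC : θ' ∈ RC f' := theta_RC hK f' p hp hle2 θ
  have hθ'pow : θ' ^ (p - 1) = 1 := by
    funext v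
    rw [Pi.pow_apply, Pi.one_apply]
    by_cases h : ¬ f' ≤ v.asIdeal ∧ IsUnit ((Ideal.absNorm v.asIdeal : ℕ) : ZMod p)
    · have h1 : θ' v = θ h.2.unit := dif_pos h
      rw [h1, ← map_pow, ZMod.units_pow_card_sub_one_eq_one, map_one]
    · have h1 : θ' v = 1 := dif_neg h
      rw [h1, one_pow]
  have hp1 : 0 < p - 1 := by
    have := hp.two_le
    omega
  set A2 : Subgroup Gal(N/K) := Subgroup.zpowers (g ^ l) with hA2
  have hA21 : A2 ≤ Subgroup.zpowers g := by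
    rw [hA2, Subgroup.zpowers_le]
    exact Subgroup.pow_mem _ (Subgroup.mem_zpowers g) l
  have hA2B : A2 ≤ B := by
    rw [hA2, Subgroup.zpowers_le]
    exact pow_mem_index hc l g B hBi
  have hθ'S : ∀ v : Pl K, ¬ f' ≤ v.asIdeal → SplA A2 v → θ' v = 1 := by
    intro v hv hs
    obtain ⟨h1, h2⟩ := hv' v hv
    obtain ⟨gv, hgv1, hgv2⟩ := exists_frob K N hc v (hram v hv)
    have h3 := (hgv1 A2).1 hs
    obtain ⟨i, hi⟩ := (mem_zpowers_iff_mem_range_orderOf.1 h3 |> Finset.mem_image.1)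
    have h4 : gv ζ = ζ ^ Ideal.absNorm v.asIdeal := hgv2 p ζ hp hζ h2
    rw [← hi.2, ← pow_mul, hgpow] at h4
    have h5 := root_pow_eq hζ hp.ne_zero h4
    have h6 := (ZMod.natCast_eq_natCast_iff _ _ _).2 h5
    have h7 : ((u ^ (l * i) : (ZMod p)ˣ) : ZMod p) = (Ideal.absNorm v.asIdeal : ℕ) := by
      rw [← h6, Units.val_pow_eq_pow_val, huq]
      push_cast
      rfl
    rw [hθ', theta_apply f' p hp θ v hv _ h7, pow_mul, map_pow, hθ2, one_pow]
  -- counting
  have hYfin : Finite (YM ⊔ Subgroup.zpowers φ' : Subgroup (Pl K → ℂˣ)) :=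
    fin_adjoin YM m1 φ' l hl.pos hφ'l
  have hYcard := card_adjoin YM m1 φ' l hl hφ'l hnot
  have hY'fin : Finite ((YM ⊔ Subgroup.zpowers φ') ⊔ Subgroup.zpowers θ' :
      Subgroup (Pl K → ℂˣ)) := fin_adjoin _ hYfin θ' (p - 1) hp1 hθ'pow
  have hY'RC : ((YM ⊔ Subgroup.zpowers φ') ⊔ Subgroup.zpowers θ' : Subgroup (Pl K → ℂˣ)) ≤
      RC f' := by
    refine sup_le (sup_le m2 ?_) ?_
    · rw [Subgroup.zpowers_le]; exact hφ'RC
    · rw [Subgroup.zpowers_le]; exact hθ'RC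
  have h2 := second_ineq K N A2 (hnorm _) f' hf'0 hf't _ hY'fin hY'RC (by
    intro ψ hψ v hv hs
    obtain ⟨ν, hν, j, rfl⟩ := mem_adjoin _ _ _ hψ
    obtain ⟨μ, hμ, k, rfl⟩ := mem_adjoin _ _ _ hν
    have e1 : μ v = 1 := m4 μ hμ v hv (SplA_mono hA21 hs)
    have e2 : φ' v = 1 := hφ'S v hv (SplA_mono hA2B hs)
    have e3 : θ' v = 1 := hθ'S v hv hs
    simp only [Pi.mul_apply, Pi.pow_apply, e1, e2, e3, one_zpow, mul_one])
  rw [hA2, index_pow l hl g hog] at h2
  have hge : Nat.card ((YM ⊔ Subgroup.zpowers φ') ⊔ Subgroup.zpowers θ' :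
      Subgroup (Pl K → ℂˣ)) ≤ Nat.card (YM ⊔ Subgroup.zpowers φ' : Subgroup (Pl K → ℂˣ)) := by
    refine h2.trans (le_trans ?_ hYcard)
    exact Nat.mul_le_mul_left l m3
  have heq := Subgroup.eq_of_le_of_card_ge
    (le_sup_left : (YM ⊔ Subgroup.zpowers φ') ≤ (YM ⊔ Subgroup.zpowers φ') ⊔ Subgroup.zpowers θ')
    hge
  have hmem : θ' ∈ YM ⊔ Subgroup.zpowers φ' := by
    rw [heq]
    exact (le_sup_right : Subgroup.zpowers θ' ≤ _) (Subgroup.mem_zpowers θ')
  obtain ⟨μ, hμ, j, hj⟩ := mem_adjoin _ _ _ hmem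
  have e1 := congrFun hj w
  have e2 : θ' w = θ u := by
    rw [hθ', theta_apply f' p hp θ w hw' u (by rw [huq])]
  have e3 : μ w = 1 := m4 μ hμ w hw' hwM
  rw [e2, Pi.mul_apply, Pi.pow_apply, e3, one_mul, hφ'v w hw'] at e1
  intro h
  rw [h, one_zpow] at e1
  exact hθ1 e1

end H55R
end

-- from Lib.H55R.Fin
section

/-!
# H55R: the reciprocity law for tame cyclic extensions of prime degree (final assembly)
-/

open NumberField IsDedekindDomain

namespace H55R

open H55B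

/-- The character rho of the cyclic extension L/K of prime degree l. -/
structure IsRec (K L : Type) [Field K] [NumberField K] [Field L] [NumberField L] [Algebra K L]
    (l : ℕ) (f : Ideal (𝓞 K)) (ρ : Ideal (𝓞 K) →*₀ ℂ) : Prop where
  ne : f ≠ ⊥
  sq : Squarefree f
  ram : ∀ v : Pl K, f ≤ v.asIdeal ↔ es K L v ≠ 1
  val : ∀ a : Ideal (𝓞 K), a ≠ ⊥ → IsCoprime a f → ρ a ^ l = 1
  zero : ∀ a : Ideal (𝓞 K), ¬ IsCoprime a f → ρ a = 0
  per : ∀ x y : 𝓞 K, x ≠ 0 → y ≠ 0 → IsCoprime (Ideal.span {x}) f → x - y ∈ f →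
    ρ (Ideal.span {x}) = ρ (Ideal.span {y})
  spl : ∀ v : Pl K, ¬ f ≤ v.asIdeal → (ρ v.asIdeal = 1 ↔ Spl K L v)

theorem pv_pow {K : Type} [Field K] [NumberField K] (φ : Pl K → ℂˣ) (a : Ideal (𝓞 K)) (n : ℕ) :
    pv (φ ^ n) a = pv φ a ^ n := by
  induction n with
  | zero => rw [pow_zero, pow_zero, pv_one_fun]
  | succ n ih => rw [pow_succ, pow_succ, pv_mul_fun, ih]

theorem cop_prime {K : Type} [Field K] [NumberField K] (v : Pl K) (f : Ideal (𝓞 K))
    (h : ¬ f ≤ v.asIdeal) : IsCoprime v.asIdeal f := by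
  rw [Ideal.isCoprime_iff_sup_eq]
  by_contra h1
  have h2 := v.isMaximal.eq_of_le h1 le_sup_left
  exact h (by rw [h2]; exact le_sup_right)

/-- THEOREM: reciprocity. -/
theorem reciprocity (K L : Type) [Field K] [NumberField K] [Algebra F K] [Field L] [NumberField L]
    [Algebra K L] [IsGalois K L] (l : ℕ) (hl : l.Prime) (hn : Module.finrank K L = l)
    (htame : ∀ v : Pl K, es K L v ≠ 1 → l ∣ Ideal.absNorm v.asIdeal - 1) :
    ∃ (f : Ideal (𝓞 K)) (ρ : Ideal (𝓞 K) →*₀ ℂ), IsRec K L l f ρ := by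
  classical
  have hl1 := Fact.mk hl
  have hcard : Nat.card Gal(L/K) = l := by
    rw [IsGalois.card_aut_eq_finrank, hn]
  have hcyc : IsCyclic Gal(L/K) := isCyclic_of_prime_card hcard
  obtain ⟨σ, hσ⟩ := hcyc.exists_generator
  have hc : ∀ g h : Gal(L/K), g * h = h * g := by
    intro g h
    obtain ⟨i, rfl⟩ := hσ g
    obtain ⟨j, rfl⟩ := hσ h
    exact Commute.zpow_zpow (Commute.refl σ) i j
  obtain ⟨f, hf, hsq, hram⟩ := exists_mod K L
  have hf0 : ∀ v : Pl K, ¬ f ≤ v.asIdeal → es K L v = 1 := fun v hv => by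
    by_contra h
    exact hv ((hram v).2 h)
  have htame' : ∀ v : Pl K, es K L v ∣ Ideal.absNorm v.asIdeal - 1 := by
    intro v
    by_cases h : es K L v = 1
    · rw [h]
      exact one_dvd _
    · have h1 : es K L v ∣ l := by
        have h2 := card_above (K := K) (L := L) v (above_finite v).toFinset (fun W => by simp)
        rw [hn] at h2
        exact ⟨(above_finite (K := K) (L := L) v).toFinset.card * fs K L v, by rw [← h2]; ring⟩
      rcases (Nat.dvd_prime hl).1 h1 with h2 | h2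
      · exact absurd h2 h
      · rw [h2]
        exact htame v h
  obtain ⟨Y, hY1, hY2, hY3, hY4, hY5⟩ := first_ineq σ hσ (complexF K) f hf hf0 htame'
  rw [hn] at hY3 hY4
  -- a nontrivial element
  obtain ⟨φ, hφ, hφ1⟩ : ∃ φ ∈ Y, φ ≠ 1 := by
    by_contra hcon
    push Not at hcon
    have h1 : Y = ⊥ := by
      rw [Subgroup.eq_bot_iff_forall]
      exact hcon
    rw [h1, Subgroup.card_bot] at hY3
    have := hl.two_le
    omega
  have hcross := fun w hw hns => cross (K := K) (L := L) l hl hn hc f hf hf0 htame' φ (hY2 hφ)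
    (hY4 φ hφ) hφ1 (fun v hv hs => hY5 φ hφ v hv hs) w hw hns
  refine ⟨f, tI f φ, hf, hsq, hram, ?_, ?_, ?_, ?_⟩
  · intro a ha hac
    rw [tI_apply f φ ha hac, ← Units.val_pow_eq_pow_val, ← pv_pow, hY4 φ hφ, pv_one_fun,
      Units.val_one]
  · intro a ha
    exact tI_zero f φ ha
  · intro x y hx hy hxc hxy
    have hyc : IsCoprime (Ideal.span {y}) f := by
      rw [Ideal.isCoprime_iff_sup_eq] at hxc ⊢
      rw [eq_top_iff, ← hxc]
      refine sup_le ?_ le_sup_right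
      rw [Ideal.span_singleton_le_iff_mem]
      have h1 : x = y + (x - y) := by ring
      rw [h1]
      exact add_mem (Ideal.mem_sup_left (Ideal.mem_span_singleton_self y))
        (Ideal.mem_sup_right hxy)
    rw [tI_apply f φ (by rwa [Ne, Ideal.span_singleton_eq_bot]) hxc,
      tI_apply f φ (by rwa [Ne, Ideal.span_singleton_eq_bot]) hyc, (hY2 hφ).2 x y hx hy hxc hxy]
  · intro v hv
    rw [tI_apply f φ v.ne_bot (cop_prime v f hv), pv_prime, Units.val_eq_one]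
    constructor
    · intro h
      by_contra hns
      exact hcross v hv hns h
    · exact fun h => hY5 φ hφ v hv h

end H55R
end

-- from Lib.H55P.T10
section

open NumberField IsDedekindDomain

namespace H55P

open H55N
open H55B (g)



/-! Chunk PT10 (M). From the reciprocity character to PChr and SplitP; PORT of Lib/H55R/CH2.lean (cubic_spl, cubic_inert, cubic_ram; CH2_norm holds in general) and ChrT.lean for a prime p: the set T of primes above w has card * (e f) = p, each relNorm = w^f. If ρ(w) = 1: Spl (IsRec.spl), e = f = 1, card = p.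
If w is unramified and ρ(w) <> 1: e = 1, f <> 1 (not Spl), so f = p, card = 1; ρ(w)^p = 1 (val). If f <= w: ρ(w) = 0 (zero), e <> 1 (ram), so e = p, f = 1, card = 1. PChr.cop: a prime containing f and p is ramified in K' and above p, contradicting UnrP p K' (W^2 divides w, so W^2 divides (p)). -/

theorem pt10_card {K K' : Type} [Field K] [NumberField K] [Field K'] [NumberField K']
    [Algebra K K'] [IsGalois K K'] (w : H55R.Pl K) :
    ∃ T : Finset (H55R.Pl K'), (∀ W, W ∈ T ↔ W.asIdeal.under (𝓞 K) = w.asIdeal) ∧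
      T.card * (H55R.es K K' w * H55R.fs K K' w) = Module.finrank K K' := by
  have hf := H55R.above_finite (L := K') w
  have hT : ∀ W : H55R.Pl K', W ∈ hf.toFinset ↔ W.under (𝓞 K) = w := by
    intro W
    rw [Set.Finite.mem_toFinset]
    exact Iff.rfl
  refine ⟨hf.toFinset, fun W => ?_, ?_⟩
  · rw [hT]
    exact ⟨fun h => congrArg HeightOneSpectrum.asIdeal h, fun h => HeightOneSpectrum.ext h⟩
  · rw [H55R.card_above w hf.toFinset hT]

theorem rec_split (K K' : Type) [Field K] [NumberField K] [Field K'] [NumberField K'] [Algebra K K']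
    [IsGalois K K'] (p : ℕ) (hp : p.Prime) (hn : Module.finrank K K' = p) (f : Ideal (𝓞 K))
    (ρ : Ideal (𝓞 K) →*₀ ℂ) (hρ : H55R.IsRec K K' p f ρ) : SplitP K K' p ρ := by
  intro w
  obtain ⟨T, hT, hc⟩ := pt10_card (K' := K') w
  rw [hn] at hc
  have hnorm : ∀ W ∈ T, Ideal.relNorm (𝓞 K) W.asIdeal = w.asIdeal ^ H55R.fs K K' w :=
    fun W hW => H55R.CH2_norm w W ((hT W).1 hW)
  refine ⟨T, hT, ?_⟩
  by_cases hfw : f ≤ w.asIdeal
  · have h1 : ρ w.asIdeal = 0 := by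
      apply hρ.zero
      intro hcop
      rw [Ideal.isCoprime_iff_sup_eq, sup_eq_left.2 hfw] at hcop
      exact w.isPrime.ne_top hcop
    have he := (hρ.ram w).1 hfw
    have hdvd : H55R.es K K' w ∣ p := ⟨T.card * H55R.fs K K' w, by rw [← hc]; ring⟩
    have hep : H55R.es K K' w = p := ((Nat.dvd_prime hp).1 hdvd).resolve_left he
    rw [hep] at hc
    have hc1 : T.card * H55R.fs K K' w = 1 := by
      have h2 : p * (T.card * H55R.fs K K' w) = p * 1 := by
        rw [mul_one]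
        nlinarith
      exact Nat.eq_of_mul_eq_mul_left hp.pos h2
    have hcT : T.card = 1 := Nat.eq_one_of_mul_eq_one_right hc1
    have hf1 : H55R.fs K K' w = 1 := Nat.eq_one_of_mul_eq_one_left hc1
    refine Or.inr (Or.inr ⟨h1, hcT, fun W hW => ?_⟩)
    rw [hnorm W hW, hf1, pow_one]
  · have he : H55R.es K K' w = 1 := by
      by_contra h
      exact hfw ((hρ.ram w).2 h)
    by_cases h1 : ρ w.asIdeal = 1
    · have hs := (hρ.spl w hfw).1 h1
      have hf1 : H55R.fs K K' w = 1 := hs.2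
      rw [he, hf1, mul_one, mul_one] at hc
      refine Or.inl ⟨h1, hc, fun W hW => ?_⟩
      rw [hnorm W hW, hf1, pow_one]
    · have hfne : H55R.fs K K' w ≠ 1 := fun h => h1 ((hρ.spl w hfw).2 ⟨he, h⟩)
      rw [he, one_mul] at hc
      have hdvd : H55R.fs K K' w ∣ p := ⟨T.card, by rw [← hc]; ring⟩
      have hfp : H55R.fs K K' w = p := ((Nat.dvd_prime hp).1 hdvd).resolve_left hfne
      rw [hfp] at hc
      have hcT : T.card = 1 := by
        have h2 : T.card * p = 1 * p := by rw [hc, one_mul]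
        exact Nat.eq_of_mul_eq_mul_right hp.pos h2
      refine Or.inr (Or.inl ⟨hρ.val _ w.ne_bot (H55R.cop_prime w f hfw), h1, hcT, fun W hW => ?_⟩)
      rw [hnorm W hW, hfp]

/-- p unramified in K' implies p unramified in K. A square divisor of (p) in K gives one in K' (map of ideals). -/
theorem pt10_down (K K' : Type) [Field K] [NumberField K] [Field K'] [NumberField K'] [Algebra K K']
    (p : ℕ) (hU : UnrP p K') : UnrP p K := by
  intro x hx
  have h1 : x.map (algebraMap (𝓞 K) (𝓞 K')) * x.map (algebraMap (𝓞 K) (𝓞 K')) ∣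
      Ideal.span {(p : 𝓞 K')} := by
    rw [← Ideal.map_mul]
    have h2 : Ideal.span {(p : 𝓞 K')} = (Ideal.span {(p : 𝓞 K)}).map (algebraMap (𝓞 K) (𝓞 K')) := by
      rw [Ideal.map_span, Set.image_singleton, map_natCast]
    rw [h2, Ideal.dvd_iff_le]
    exact Ideal.map_mono (Ideal.dvd_iff_le.1 hx)
  have h3 := hU _ h1
  rw [Ideal.isUnit_iff] at h3 ⊢
  rw [← Ideal.comap_map_eq_self_of_faithfullyFlat (B := 𝓞 K') x, h3, Ideal.comap_top]

theorem pt10_ram (K K' : Type) [Field K] [NumberField K] [Field K'] [NumberField K'] [Algebra K K']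
    [IsGalois K K'] (p : ℕ) (hU : UnrP p K') (v : H55R.Pl K) (hpv : (p : 𝓞 K) ∈ v.asIdeal) :
    H55R.es K K' v = 1 := by
  have hv := v.isPrime
  have hvm := v.isMaximal
  obtain ⟨W, hW, hWv⟩ := Ideal.exists_ideal_over_maximal_of_isIntegral (S := 𝓞 K') v.asIdeal (by
    rw [(RingHom.injective_iff_ker_eq_bot _).1 (FaithfulSMul.algebraMap_injective (𝓞 K) (𝓞 K'))]
    exact bot_le)
  have hlies : W.LiesOver v.asIdeal := ⟨hWv.symm⟩
  have hWp : W.IsPrime := hW.isPrime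
  unfold H55R.es
  rw [Ideal.ramificationIdxIn_eq_ramificationIdx v.asIdeal W Gal(K'/K),
    ← Ideal.ramificationIdx'_eq_ramificationIdx v.asIdeal W v.ne_bot]
  refine Ideal.ramificationIdx'_spec ?_ ?_
  · rw [pow_one, Ideal.map_le_iff_le_comap, hWv]
  · intro h
    have h1 : W * W ∣ Ideal.span {(p : 𝓞 K')} := by
      rw [Ideal.dvd_iff_le, ← pow_two]
      refine le_trans ?_ h
      have h2 : Ideal.span {(p : 𝓞 K')} =
          (Ideal.span {(p : 𝓞 K)}).map (algebraMap (𝓞 K) (𝓞 K')) := by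
        rw [Ideal.map_span, Set.image_singleton, map_natCast]
      rw [h2]
      apply Ideal.map_mono
      rw [Ideal.span_singleton_le_iff_mem]
      exact hpv
    have h3 := hU W h1
    rw [Ideal.isUnit_iff] at h3
    exact hW.ne_top h3

theorem rec_PChr (K K' : Type) [Field K] [NumberField K] [Field K'] [NumberField K'] [Algebra K K']
    [IsGalois K K'] (p : ℕ) (hp : p.Prime) (hn : Module.finrank K K' = p) (hU : UnrP p K')
    (f : Ideal (𝓞 K)) (ρ : Ideal (𝓞 K) →*₀ ℂ) (hρ : H55R.IsRec K K' p f ρ) : PChr p f ρ := by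
  refine ⟨hρ.ne, ?_, hρ.val, hρ.zero, hρ.per⟩
  rw [Ideal.isCoprime_iff_sup_eq]
  by_contra hne
  obtain ⟨M, hM, hle⟩ := Ideal.exists_le_maximal _ hne
  have hMne : M ≠ ⊥ := by
    rintro rfl
    exact hρ.ne (le_bot_iff.1 (le_sup_left.trans hle))
  obtain ⟨v, hv⟩ : ∃ v : H55R.Pl K, v.asIdeal = M := ⟨⟨M, hM.isPrime, hMne⟩, rfl⟩
  have h1 : f ≤ v.asIdeal := by
    rw [hv]
    exact le_sup_left.trans hle
  have h2 : (p : 𝓞 K) ∈ v.asIdeal := by
    rw [hv]
    exact (le_sup_right.trans hle) (Ideal.mem_span_singleton_self _)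
  exact (hρ.ram v).1 h1 (pt10_ram K K' p hU v h2)

/-- p unramified in K' implies p unramified in K. A square divisor of (p) in K gives one in K' (map of ideals). -/
theorem UnrP.down (K K' : Type) [Field K] [NumberField K] [Field K'] [NumberField K'] [Algebra K K']
    (p : ℕ) (hp : p.Prime) (hU : UnrP p K') : UnrP p K := pt10_down K K' p hU

end H55P
end
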