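import Mathlib
import Pool.Agent.Lib.H1M.PP.M017
import Pool.Agent.Lib.H1M.PP.M027
import Pool.Agent.Lib.H1M.PP.M029
import Pool.Agent.Lib.H1M.PP.M036
import Pool.Agent.Lib.H1M.PP.M037
import Pool.Agent.Lib.H1M.PP.M039
import Pool.Agent.Lib.H1M.PP.M040

/-! Merged copies (to shorten the build) of Lib.H13S.LD3, Lib.H55K.SQI, Lib.H55K.SQR, Lib.H55K.SQV, Lib.H55K.SLD. -/

-- from Lib.H13S.LD3
section

open NumberField IsDedekindDomain

namespace H13S

open H55P H28G H55B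

section inert

variable {F₀ : Type} [Field F₀] {Ω : Type} [Field Ω] [Algebra F₀ Ω] {V : ValuationSubring Ω}

theorem ld3_le {s : Ω ≃ₐ[F₀] Ω} (hs : Inert V s) {x : Ω} (hx : x ∈ V) : s x ∈ V := by
  rw [← V.valuation_le_one_iff] at hx ⊢
  have h1 := hs x ((V.valuation_le_one_iff x).1 hx)
  have h2 : s x = (s x - x) + x := by ring
  rw [h2]
  exact (V.valuation.map_add _ _).trans (max_le h1.le hx)

theorem ld3_iff {s : Ω ≃ₐ[F₀] Ω} (hs : Inert V s) (x : Ω) : s x ∈ V ↔ x ∈ V := by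
  refine ⟨fun h => ?_, ld3_le hs⟩
  by_contra hx
  have hx0 : x ≠ 0 := by
    rintro rfl
    exact hx V.zero_mem
  have h1 : 1 < V.valuation x := by
    rw [← not_le, V.valuation_le_one_iff]
    exact hx
  have h2 : V.valuation x⁻¹ < 1 := by
    rw [map_inv₀]
    exact inv_lt_one_of_one_lt₀ h1
  have h3 := hs x⁻¹ ((V.valuation_le_one_iff _).1 h2.le)
  have h4 : V.valuation (s x⁻¹) < 1 := by
    have h5 : s x⁻¹ = (s x⁻¹ - x⁻¹) + x⁻¹ := by ring
    rw [h5]
    exact (V.valuation.map_add _ _).trans_lt (max_lt h3 h2)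
  rw [map_inv₀, map_inv₀] at h4
  rw [← V.valuation_le_one_iff] at h
  have h5 : V.valuation (s x) ≠ 0 := by
    rw [Ne, map_eq_zero, map_eq_zero]
    exact hx0
  have h6 : 1 ≤ (V.valuation (s x))⁻¹ := (one_le_inv₀ (zero_lt_iff.2 h5)).2 h
  exact absurd h4 (not_lt.2 h6)

theorem ld3_mul {s t : Ω ≃ₐ[F₀] Ω} (hs : Inert V s) (ht : Inert V t) : Inert V (s * t) := by
  intro x hx
  have h1 := hs (t x) (ld3_le ht hx)
  have h2 := ht x hx
  have h3 : (s * t) x - x = (s (t x) - t x) + (t x - x) := by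
    change s (t x) - x = _
    ring
  rw [h3]
  exact (V.valuation.map_add _ _).trans_lt (max_lt h1 h2)

theorem ld3_inv {s : Ω ≃ₐ[F₀] Ω} (hs : Inert V s) : Inert V s⁻¹ := by
  intro x hx
  have e : s (s⁻¹ x) = x := AlgEquiv.apply_symm_apply s x
  have h1 : s⁻¹ x ∈ V := by
    rw [← ld3_iff hs, e]
    exact hx
  have h2 := hs _ h1
  rw [e] at h2
  rw [← V.valuation.map_neg, neg_sub]
  exact h2

end inert

variable {Ω : Type} [Field Ω] [DecidableEq Ω] [Algebra F Ω] [IsAlgClosure F Ω]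

theorem ld3_tt (s : Ω ≃ₐ[F] Ω) (P : P27 Ω) : tt (ac W27 s P) = s (tt P) := tt_mp s.toAlgHom P

theorem ld3_e0 {π : O} {l : ℕ} (hl : l ≠ 0) {e : P27 Ω → P27 Ω → Ω} (he : Pairing π l e) {T : P27 Ω}
    (hT : T ∈ Tor π Ω) : e 0 T = 1 := by
  have h0 : (0 : P27 Ω) ∈ Tor (cj π) Ω := AddSubgroup.zero_mem _
  have h1 := he.add_left 0 h0 0 h0 T hT
  have h2 := he.root 0 h0 T hT
  rw [add_zero] at h1
  have h3 : e 0 T ≠ 0 := by
    intro h
    rw [h, zero_pow hl] at h2
    exact zero_ne_one h2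
  exact (mul_eq_left₀ h3).1 h1.symm

theorem ld3_e0' {π : O} {l : ℕ} (hl : l ≠ 0) {e : P27 Ω → P27 Ω → Ω} (he : Pairing π l e) {X : P27 Ω}
    (hX : X ∈ Tor (cj π) Ω) : e X 0 = 1 := by
  have h0 : (0 : P27 Ω) ∈ Tor π Ω := AddSubgroup.zero_mem _
  have h1 := he.add_right X hX 0 h0 0 h0
  have h2 := he.root X hX 0 h0
  rw [add_zero] at h1
  have h3 : e X 0 ≠ 0 := by
    intro h
    rw [h, zero_pow hl] at h2
    exact zero_ne_one h2
  exact (mul_eq_left₀ h3).1 h1.symm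

theorem ld3_unit (V : ValuationSubring Ω) {u : O} (hu : IsUnit u) : vo V u = 1 := by
  obtain ⟨v, hv⟩ := hu.exists_right_inv
  have h1 : vo V u * vo V v = 1 := by
    unfold vo
    rw [← map_mul, ← map_mul]
    have : (u : F) * (v : F) = ((u * v : O) : F) := by push_cast; rfl
    rw [this, hv]
    simp
  have h2 : vo V u ≤ 1 := ak_le V.valuation u
  have h3 : vo V v ≤ 1 := ak_le V.valuation v
  refine le_antisymm h2 ?_
  rw [← h1]
  exact mul_le_of_le_one_right zero_le h3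

theorem ld3_l {π : O} {l : ℕ} (hl : l.Prime) (hd : π ∣ (l : O)) (hq : H55B.Nm π = l ^ 2) (V : ValuationSubring Ω) :
    V.valuation (l : Ω) = vo V π := by
  obtain ⟨u, hu⟩ := hd
  have h1 : H55B.Nm (l : O) = l ^ 2 := by
    have := Nm_repr (l : ℤ) 0
    have e : ((l : ℤ) : O) + ((0 : ℤ) : O) * om = (l : O) := by push_cast; ring
    rw [e] at this
    have h2 : (H55B.Nm (l : O) : ℤ) = ((l ^ 2 : ℕ) : ℤ) := by
      rw [this]
      push_cast
      ring
    exact_mod_cast h2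
  have h2 : H55B.Nm u = 1 := by
    have h3 := congrArg H55B.Nm hu
    rw [h1, Nm_mul, hq] at h3
    have h4 : 0 < l ^ 2 := pow_pos hl.pos 2
    exact (Nat.eq_of_mul_eq_mul_left h4 (by rw [mul_one]; exact h3)).symm
  have h3 : vo V u = 1 := ld3_unit V (Nm_eq_one.1 h2)
  have h4 : V.valuation (l : Ω) = vo V (l : O) := by
    unfold vo
    simp
  rw [h4, hu]
  have h5 : vo V (π * u) = vo V π * vo V u := by
    unfold vo
    rw [← map_mul, ← map_mul]
    push_cast
    rfl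
  rw [h5, h3, mul_one]

/-- Step D (final step for the level in the inert case). -/
theorem level_inert {π : O} {l : ℕ} {c : (Ω ≃ₐ[F] Ω) → P27 Ω} (C : Cl π l c) (hin : cj π = π)
    (hq : H55B.Nm π = l ^ 2) {e : P27 Ω → P27 Ω → Ω} (he : Pairing π l e) {L : IntermediateField F Ω} (hL : IsTF π L)
    [NumberField L] (V : ValuationSubring Ω) (hV : vo V π < 1) (w : HeightOneSpectrum (𝓞 L)) (hw : Abv L V w)
    (T : P27 Ω) (hT : T ∈ Tor π Ω) (m : L) (hm : m ≠ 0) (y : Ω) (hyk : Kum L e c T y) (hy : y ^ l = (m : Ω)) :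
    ∃ z : L, z ≠ 0 ∧ w.valuation L (m / z ^ l - 1) ≤ WithZero.exp (-2 : ℤ) := by
  classical
  have hchar : CharZero Ω := charZero_of_injective_algebraMap (algebraMap F Ω).injective
  have hl0 : l ≠ 0 := C.hl.ne_zero
  have hVl : V.valuation (l : Ω) = vo V π := ld3_l C.hl C.dvd hq V
  have hVl1 : V.valuation (l : Ω) < 1 := hVl ▸ hV
  by_contra hlev
  have hex : ∃ s ∈ L.fixingSubgroup, Inert V s ∧ s y ≠ y := by
    by_contra hcon
    push Not at hcon
    exact hlev (level_unr L V w hw l C.hl hVl1 m hm y hy hcon)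
  obtain ⟨s₁, hs1, hi1, hne1⟩ := hex
  have hTfix : ∀ s ∈ L.fixingSubgroup, ∀ R ∈ Tor π Ω, ac W27 s R = R := fun s hs => (hL.2 s).1 hs
  have hcT : ∀ s, c s ∈ Tor π Ω := fun s => by
    have := C.val s
    rwa [hin] at this
  have hc1 : c s₁ ≠ 0 := by
    intro h0
    apply hne1
    rw [hyk.2 s₁ hs1, h0, ld3_e0 hl0 he hT, one_mul]
  have hT0 : T ≠ 0 := by
    intro h0
    apply hne1
    rw [hyk.2 s₁ hs1, h0, ld3_e0' hl0 he (C.val _), one_mul]
  obtain ⟨Q, hQ, hQc⟩ := inert_point C hin V hV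
  have hr := val_point C hin V hV Q hQ hQc L hL s₁ hs1 hi1 hc1
  have hq3 : 3 ≤ H55B.Nm π := by
    rw [hq]
    nlinarith [C.five]
  have hvr := fun R (hR : R ∈ Tor π Ω) (h0 : R ≠ 0) => val_ratio C.pr C.prim hq3 V hV Q hQ hr R hR h0
  have hcard : Nat.card (Tor π Ω) = H55B.Nm π := (gi_gen π C.pr C.prim).1
  have hfin : Finite (Tor π Ω) := Nat.finite_of_card_ne_zero (by rw [hcard]; omega)
  have hV0 : vo V π ≠ 0 := by
    unfold vo
    rw [Ne, map_eq_zero, map_eq_zero]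
    exact_mod_cast C.pr.ne_zero
  have hQ0 : V.valuation (tt Q) ≠ 0 := by
    intro h0
    rw [h0, zero_pow (by omega)] at hr
    exact hV0 hr.symm
  -- the set J
  have hJfin : {R : P27 Ω | ∃ h ∈ L.fixingSubgroup, Inert V h ∧ h y = y ∧ c h = R}.Finite := by
    refine Set.Finite.subset (Set.toFinite (Tor π Ω : Set (P27 Ω))) ?_
    rintro R ⟨h, -, -, -, rfl⟩
    exact hcT h
  set J : Finset (P27 Ω) := hJfin.toFinset with hJ
  have hJmem : ∀ R, R ∈ J ↔ ∃ h ∈ L.fixingSubgroup, Inert V h ∧ h y = y ∧ c h = R := fun R => by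
    rw [hJ, Set.Finite.mem_toFinset]
    rfl
  have hJT : ∀ R ∈ J, R ∈ Tor π Ω := fun R hR => by
    obtain ⟨h, -, -, -, rfl⟩ := (hJmem R).1 hR
    exact hcT h
  have hJcard : J.card ≤ H55B.Nm π := by
    rw [← hcard]
    have h1 : (J : Set (P27 Ω)) ⊆ (Tor π Ω : Set (P27 Ω)) := fun R hR => hJT R hR
    calc J.card = Set.ncard (J : Set (P27 Ω)) := (Set.ncard_coe_finset J).symm
      _ ≤ Set.ncard (Tor π Ω : Set (P27 Ω)) := Set.ncard_le_ncard h1 (Set.toFinite _)
      _ = Nat.card (Tor π Ω) := rfl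
  have hJ0 : (0 : P27 Ω) ∈ J := (hJmem 0).2 ⟨1, Subgroup.one_mem _, fun x _ => by simp, rfl, C.one⟩
  have hcadd : ∀ h ∈ L.fixingSubgroup, ∀ h' , c (h * h') = c h + c h' := fun h hh h' => by
    rw [C.mul, hTfix h hh _ (hcT h')]
  have hcinv : ∀ h ∈ L.fixingSubgroup, c h⁻¹ = -c h := fun h hh => by
    have h1 := hcadd h hh h⁻¹
    rw [mul_inv_cancel, C.one] at h1
    exact (neg_eq_of_add_eq_zero_right h1.symm).symm
  -- values
  have hval : ∀ R ∈ Tor π Ω, V.valuation (tt (Q + R)) = V.valuation (tt Q) := fun R hR => by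
    by_cases h0 : R = 0
    · rw [h0, add_zero]
    · exact (hvr R hR h0).1
  have htau : ∀ R ∈ Tor π Ω, R ≠ 0 → V.valuation (tt R) = V.valuation (tt T) := fun R hR h0 => by
    have h1 := (kr_tor_ram π C.pr C.prim V hV hR h0).2
    have h2 := (kr_tor_ram π C.pr C.prim V hV hT hT0).2
    exact (pow_left_inj₀ zero_le zero_le (by omega)).1 (h1.trans h2.symm)
  have hTQ : V.valuation (tt T) < V.valuation (tt Q) := (hvr T hT hT0).2.2
  have hTv : V.valuation (tt T) ^ (H55B.Nm π - 1) = vo V π := (kr_tor_ram π C.pr C.prim V hV hT hT0).2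
  have hT0' : V.valuation (tt T) ≠ 0 := by
    intro h0
    rw [h0, zero_pow (by omega)] at hTv
    exact hV0 hTv.symm
  obtain ⟨a, ha⟩ : ∃ a, a = V.valuation (tt T) / V.valuation (tt Q) := ⟨_, rfl⟩
  have ha1 : a < 1 := by
    rw [ha]
    exact (div_lt_one₀ (zero_lt_iff.2 hQ0)).2 hTQ
  have ha0 : 0 < a := by
    rw [ha, zero_lt_iff]
    exact div_ne_zero hT0' hQ0
  have haq : a ^ (H55B.Nm π * (H55B.Nm π - 1)) = vo V π := by
    have h1 : V.valuation (tt T) ^ (H55B.Nm π * (H55B.Nm π - 1)) = vo V π ^ H55B.Nm π := by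
      rw [mul_comm, pow_mul, hTv]
    have h2 : V.valuation (tt Q) ^ (H55B.Nm π * (H55B.Nm π - 1)) = vo V π ^ (H55B.Nm π - 1) := by
      rw [pow_mul, hr]
    have h3 : vo V π ^ H55B.Nm π = vo V π ^ (H55B.Nm π - 1) * vo V π := by
      rw [← pow_succ]
      congr 1
      omega
    rw [ha, div_pow, h1, h2, h3]
    exact mul_div_cancel_left₀ _ (pow_ne_zero _ hV0)
  -- the bound
  have hbd := prod_bound V J hJ0 (fun R => tt T / tt (Q + R))
    (fun R hR => by
      rw [map_div₀, hval R (hJT R hR), ← ha]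
      exact ha1.le)
    {σ : Ω ≃+* Ω | ∃ h ∈ L.fixingSubgroup, Inert V h ∧ h y = y ∧ σ = (h : Ω ≃+* Ω)}
    (by
      rintro σ ⟨h, hh, hih, hhy, rfl⟩
      refine ⟨c h, fun R hR => ?_, fun R => ⟨fun hR => ?_, fun hR => ?_⟩⟩
      · change h (tt T / tt (Q + R)) = tt T / tt (Q + (R + c h))
        rw [map_div₀, ← ld3_tt, ← ld3_tt, hTfix h hh T hT, map_add, hTfix h hh R (hJT R hR)]
        have h1 : ac W27 h Q = c h + Q := by
          rw [hQc h hih, sub_add_cancel]
        rw [h1]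
        congr 2
        abel
      · obtain ⟨k, hk, hik, hky, rfl⟩ := (hJmem R).1 hR
        refine (hJmem _).2 ⟨k * h, Subgroup.mul_mem _ hk hh, ld3_mul hik hih, ?_, hcadd k hk h⟩
        change k (h y) = y
        rw [hhy, hky]
      · obtain ⟨k, hk, hik, hky, hkc⟩ := (hJmem _).1 hR
        refine (hJmem _).2 ⟨k * h⁻¹, Subgroup.mul_mem _ hk (Subgroup.inv_mem _ hh),
          ld3_mul hik (ld3_inv hih), ?_, ?_⟩
        · change k (h⁻¹ y) = y
          have h1 : h⁻¹ y = y := by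
            have h2 : h⁻¹ (h y) = y := AlgEquiv.symm_apply_apply h y
            rwa [hhy] at h2
          rw [h1, hky]
        · rw [hcadd k hk, hcinv h hh, hkc, add_neg_cancel_right])
    (s₁ : Ω ≃+* Ω) (l - 1) (V.valuation (l : Ω))
    (fun b hb hf => coef_bound L V w hw l C.hl (by have := C.five; omega) hVl1
      (mu_mem C.hl C.pr C.prim hin he hL) m hm y hy hlev b hb
      (fun s hs hi hsy => hf (s : Ω ≃+* Ω) ⟨s, hs, hi, hsy, rfl⟩) s₁ hs1 hi1)
  have hterm : ∀ R ∈ J, V.valuation (tt T / tt (Q + 0) - (s₁ : Ω ≃+* Ω) (tt T / tt (Q + R))) = a ^ 2 := by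
    intro R hR
    have hR' := hJT R hR
    have h0 : R + c s₁ ≠ 0 := by
      intro h0
      obtain ⟨k, hk, hik, hky, hkc⟩ := (hJmem R).1 hR
      apply hne1
      have h1 : c s₁ = c k⁻¹ := by
        rw [hcinv k hk, hkc]
        exact eq_neg_of_add_eq_zero_right h0
      have h2 : k⁻¹ y = y := by
        have h3 : k⁻¹ (k y) = y := AlgEquiv.symm_apply_apply k y
        rwa [hky] at h3
      rw [hyk.2 s₁ hs1, h1, ← hyk.2 k⁻¹ (Subgroup.inv_mem _ hk), h2]
    have hT' : R + c s₁ ∈ Tor π Ω := AddSubgroup.add_mem _ hR' (hcT s₁)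
    have e1 : (s₁ : Ω ≃+* Ω) (tt T / tt (Q + R)) = tt T / tt (Q + (R + c s₁)) := by
      change s₁ (tt T / tt (Q + R)) = _
      rw [map_div₀, ← ld3_tt, ← ld3_tt, hTfix s₁ hs1 T hT, map_add, hTfix s₁ hs1 R hR']
      have h1 : ac W27 s₁ Q = c s₁ + Q := by
        rw [hQc s₁ hi1, sub_add_cancel]
      rw [h1]
      congr 2
      abel
    rw [e1, add_zero]
    have hv1 := hvr _ hT' h0
    have hne2 : tt (Q + (R + c s₁)) ≠ 0 := by
      intro h1
      rw [h1, map_zero] at hv1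
      exact hQ0 hv1.1.symm
    have hne3 : tt Q ≠ 0 := by
      intro h1
      rw [h1, map_zero] at hQ0
      exact hQ0 rfl
    have e2 : tt T / tt Q - tt T / tt (Q + (R + c s₁)) =
        tt T * (tt (Q + (R + c s₁)) - tt Q) / (tt Q * tt (Q + (R + c s₁))) := by
      field_simp
    rw [e2, map_div₀, map_mul, map_mul, hv1.1, hv1.2.1, htau _ hT' h0, ha, div_pow, sq, sq]
  rw [Finset.prod_congr rfl (fun R hR => rfl), map_prod] at hbd
  rw [Finset.prod_congr rfl hterm, Finset.prod_const, hVl, ← haq, ← pow_mul, ← pow_mul] at hbd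
  have h1 := (pow_le_pow_iff_right_of_lt_one₀ ha0 ha1).1 hbd
  have h2 : 2 * J.card * (l - 1) ≤ 2 * H55B.Nm π * (l - 1) := by
    exact Nat.mul_le_mul_right _ (Nat.mul_le_mul_left _ hJcard)
  have h3 : H55B.Nm π * (H55B.Nm π - 1) ≤ H55B.Nm π * (2 * (l - 1)) := by
    calc H55B.Nm π * (H55B.Nm π - 1) ≤ 2 * (J.card * (l - 1)) := h1
      _ = 2 * J.card * (l - 1) := by ring
      _ ≤ 2 * H55B.Nm π * (l - 1) := h2
      _ = H55B.Nm π * (2 * (l - 1)) := by ring
  have h4 := Nat.le_of_mul_le_mul_left h3 (by omega)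
  rw [hq] at h4
  have h5 := C.five
  have h6 : l * l = l ^ 2 := by ring
  have h7 : 5 * l ≤ l ^ 2 := by
    rw [← h6]
    exact Nat.mul_le_mul_right l h5
  omega

end H13S
end

-- from Lib.H55K.SQI
section

/-! # H55K, part S: in the inert case the local point can be taken in the kernel of reduction -/

open NumberField IsDedekindDomain WeierstrassCurve

namespace H55K.S

open H55P (IQ embF eF LF Per IsHecke Pt ac Inert Dec Nm)
open H35P (WAB Ker tt)
open H13S (Abv)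

variable {F : Type} [Field F] [NumberField F] [IQ F] {A B : F} {Om : ℂ} {Ω : Type} [Field Ω] [DecidableEq Ω]
  [Algebra F Ω] [IsAlgClosure F Ω] {j : Ω →+* ℂ} {act : 𝓞 F →+* AddMonoid.End (Pt (WAB A B) Ω)} {mo : Ideal (𝓞 F)}
  {ψ : Ideal (𝓞 F) →*₀ 𝓞 F}

omit [IsAlgClosure F Ω] in
theorem qi_unit (hA : CMA F A B Om j act) {V : ValuationSubring Ω} (hG : GV A B V) {u : 𝓞 F} (hu : IsUnit u)
    {X : Pt (WAB A B) Ω} (hX : Ker V (act u X)) : Ker V X := by
  obtain ⟨v, hv⟩ := hu.exists_left_inv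
  have h1 := kr_act hA hG v hX
  rwa [← act_mul, hv, act_one] at h1

omit [IsAlgClosure F Ω] in
/-- Multiplication by l is injective on the reduction (supersingular case). -/
theorem qi_l (hA : CMA F A B Om j act) {V : ValuationSubring Ω} (hG : GV A B V) {π : 𝓞 F} {l : ℕ}
    (hπ : Prime π) (hV : vo V π < 1) (hlπ : Associated (l : 𝓞 F) π)
    {X : Pt (WAB A B) Ω} (hX : Ker V (l • X)) : Ker V X := by
  obtain ⟨u, hu⟩ := hlπ.symm
  rw [← act_nat (act := act), ← hu, act_mul] at hX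
  exact qi_unit hA hG u.isUnit (ker_red hA hG hπ hV hX)

omit [IsAlgClosure F Ω] in
theorem qi_lpow (hA : CMA F A B Om j act) {V : ValuationSubring Ω} (hG : GV A B V) {π : 𝓞 F} {l : ℕ}
    (hπ : Prime π) (hV : vo V π < 1) (hlπ : Associated (l : 𝓞 F) π) (k : ℕ)
    {X : Pt (WAB A B) Ω} (hX : Ker V (l ^ k • X)) : Ker V X := by
  induction k with
  | zero => rwa [pow_zero, one_smul] at hX
  | succ k ih =>
    rw [pow_succ', mul_smul] at hX
    exact ih (qi_l hA hG hπ hV hlπ hX)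

/-- In the inert case the local point can be taken in the kernel of reduction. -/
theorem inert_point {π : 𝓞 F} {l : ℕ} {c : (Ω ≃ₐ[F] Ω) → Pt (WAB A B) Ω} (C : Cl A B Om j act mo ψ π l c)
    (hlπ : Associated (l : 𝓞 F) π) (V : ValuationSubring Ω) (hG : GV A B V) (hV : vo V π < 1) :
    ∃ Q : Pt (WAB A B) Ω, Ker V Q ∧ ∀ s, Inert V s → c s = ac (WAB A B) s Q - Q := by
  have hA := C.cma
  have hl := C.hl
  have hVl : V.valuation (l : Ω) < 1 := by
    rw [← vo_nat (F := F), vo_assoc V hlπ (vo_le V)]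
    exact hV
  obtain ⟨P, hP⟩ := C.loc V
  obtain ⟨n, hn0, hn⟩ := ker_fin (F := F) hG l hl hVl P
  obtain ⟨k, n', hn', hnn⟩ := Nat.exists_eq_pow_mul_and_not_dvd hn0.ne' l hl.ne_one
  have hK : Ker V (n' • P) := by
    rw [hnn, mul_smul] at hn
    exact qi_lpow hA hG C.pr hV hlπ k hn
  have hco : IsCoprime (n' : ℤ) (l : ℤ) := by
    rw [Nat.isCoprime_iff_coprime]
    exact ((Nat.Prime.coprime_iff_not_dvd hl).2 hn').symm
  obtain ⟨a, b, hab⟩ := hco
  have hlc : ∀ s, (l : ℤ) • c s = 0 := by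
    intro s
    obtain ⟨u, hu⟩ := C.dvd
    have h1 : (l : 𝓞 F) = cj u * cj π := by
      have h2 := congrArg cj hu
      rw [map_natCast, map_mul] at h2
      rw [h2, mul_comm]
    rw [natCast_zsmul, ← act_nat (act := act), h1, act_mul, mem_Tor.1 (C.val s), map_zero]
  refine ⟨a • (n' • P), ?_, fun s hs => ?_⟩
  · have h1 := kr_act hA hG (a : 𝓞 F) hK
    have h2 : act (a : 𝓞 F) (n' • P) = a • (n' • P) := by
      rw [map_intCast]
      rfl
    rwa [h2] at h1
  · have h1 : c s = a • (n' • c s) := by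
      have h2 : c s = ((a * n' + b * l : ℤ)) • c s := by rw [hab, one_smul]
      conv_lhs => rw [h2]
      rw [add_smul, mul_smul, mul_smul, hlc, smul_zero, add_zero, natCast_zsmul]
    rw [h1, hP s hs, map_zsmul, map_nsmul, smul_sub, smul_sub]

end H55K.S
end

-- from Lib.H55K.SQR
section

/-! # H55K, part S: port of H13S/QR -/

open NumberField IsDedekindDomain WeierstrassCurve

namespace H55K.S

open H55P (IQ embF eF LF Per IsHecke Pt ac Inert Dec Nm)
open H35P (WAB Ker tt)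
open H13S (Abv)




variable {F : Type} [Field F] [NumberField F] [IQ F] {A B : F} {Om : ℂ} {Ω : Type} [Field Ω] [DecidableEq Ω]
  [Algebra F Ω] [IsAlgClosure F Ω] {j : Ω →+* ℂ} {act : 𝓞 F →+* AddMonoid.End (Pt (WAB A B) Ω)} {mo : Ideal (𝓞 F)}
  {ψ : Ideal (𝓞 F) →*₀ 𝓞 F}

/-- Chunk QR (S/M). Ratios of parameters. tau = V.valuation (tt R), tau^(q-1) = vo V pi = r^q, r = V.valuation (tt Q) < 1, q = Nm pi ≥ 3, so tau < r and r^2 < tau (tau^(q-1) = r^q > r^(2(q-1))).
kr_tt_add with c = r: V.valuation (tt (Q+R) - tt Q - tt R) ≤ r^2 < tau < r. So V.valuation (tt (Q+R)) = r and V.valuation (tt (Q + R) - tt Q) = tau. -/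
theorem val_ratio (hA : CMA F A B Om j act) {π : 𝓞 F} (hπ : Prime π) (hq : 3 ≤ Nm π) (V : ValuationSubring Ω)
    (hG : GV A B V) (hV : vo V π < 1) (Q : Pt (WAB A B) Ω) (hQ : Ker V Q) (hv : V.valuation (tt Q) ^ Nm π = vo V π)
    (R : Pt (WAB A B) Ω) (hR : R ∈ Tor act π) (h0 : R ≠ 0) :
    V.valuation (tt (Q + R)) = V.valuation (tt Q) ∧
      V.valuation (tt (Q + R) - tt Q) = V.valuation (tt R) ∧ V.valuation (tt R) < V.valuation (tt Q) := by
  obtain ⟨hKR, hτ⟩ : Ker V R ∧ V.valuation (tt R) ^ (Nm π - 1) = vo V π := tor_ram hA hG hπ hV hR h0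
  have hπ0 : vo V π ≠ 0 := vo_ne V hπ.ne_zero
  set r := V.valuation (tt Q) with hr
  set τ := V.valuation (tt R) with hτd
  have hq1 : Nm π - 1 ≠ 0 := by omega
  have hr0 : r ≠ 0 := by
    intro h
    rw [h, zero_pow (by omega)] at hv
    exact hπ0 hv.symm
  have hr1 : r < 1 := H35P.tt_lt (gv_good hG).toIntW Q hQ
  have hrp : 0 < r := zero_lt_iff.2 hr0
  have hlt : τ < r := by
    by_contra hle
    rw [not_lt] at hle
    have h1 : r ^ (Nm π - 1) ≤ τ ^ (Nm π - 1) := pow_le_pow_left₀ zero_le hle _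
    rw [hτ, ← hv] at h1
    exact absurd h1 (not_le.2 (pow_lt_pow_right_of_lt_one₀ hrp hr1 (by omega)))
  have hlt2 : r ^ 2 < τ := by
    by_contra hle
    rw [not_lt] at hle
    have h1 : τ ^ (Nm π - 1) ≤ (r ^ 2) ^ (Nm π - 1) := pow_le_pow_left₀ zero_le hle _
    rw [hτ, ← hv, ← pow_mul] at h1
    exact absurd h1 (not_le.2 (pow_lt_pow_right_of_lt_one₀ hrp hr1 (by omega)))
  have hadd := tt_add2 hG hQ hKR r le_rfl hlt.le
  have h4 : V.valuation (tt (Q + R) - tt Q) = τ := by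
    have : tt (Q + R) - tt Q = (tt (Q + R) - tt Q - tt R) + tt R := by ring
    rw [this]
    exact Valuation.map_add_eq_of_lt_right _ (lt_of_le_of_lt hadd hlt2)
  have h5 : V.valuation (tt (Q + R)) = r := by
    have : tt (Q + R) = (tt (Q + R) - tt Q) + tt Q := by ring
    rw [this]
    exact Valuation.map_add_eq_of_lt_right _ (by rw [h4]; exact hlt)
  exact ⟨h5, h4, hlt⟩

end H55K.S
end

-- from Lib.H55K.SQV
section

/-! # H55K, part S: port of H13S/QV -/

open NumberField IsDedekindDomain WeierstrassCurve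

namespace H55K.S

open H55P (IQ embF eF LF Per IsHecke Pt ac Inert Dec Nm)
open H35P (WAB Ker tt)
open H13S (Abv)




variable {F : Type} [Field F] [NumberField F] [IQ F] {A B : F} {Om : ℂ} {Ω : Type} [Field Ω] [DecidableEq Ω]
  [Algebra F Ω] [IsAlgClosure F Ω] {j : Ω →+* ℂ} {act : 𝓞 F →+* AddMonoid.End (Pt (WAB A B) Ω)} {mo : Ideal (𝓞 F)}
  {ψ : Ideal (𝓞 F) →*₀ 𝓞 F}

omit [IsAlgClosure F Ω] in
theorem qv_add {V : ValuationSubring Ω} (hG : GV A B V) {P Q : Pt (WAB A B) Ω} (hP : Ker V P) (hQ : Ker V Q) (c : V.ValueGroup)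
    (hc : c ≤ 1) (h1 : V.valuation (tt P) ≤ c) (h2 : V.valuation (tt Q) ≤ c) :
    V.valuation (tt (P + Q)) ≤ c := by
  have h3 := kr_tt_add hG hP hQ c h1 h2
  have h4 : c ^ 2 ≤ c := by
    rw [sq]
    exact (mul_le_mul' le_rfl hc).trans_eq (mul_one c)
  have e : tt (P + Q) = (tt (P + Q) - tt P - tt Q) + tt P + tt Q := by ring
  rw [e]
  exact Valuation.map_add_le _ (Valuation.map_add_le _ (h3.trans h4) h1) h2

omit [IsAlgClosure F Ω] in
theorem qv_neg (hA : CMA F A B Om j act) {V : ValuationSubring Ω} (hG : GV A B V) {P : Pt (WAB A B) Ω}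
    (hP : Ker V P) : Ker V (-P) ∧ V.valuation (tt (-P)) ≤ V.valuation (tt P) := by
  have e : act (-1 : 𝓞 F) P = -P := by rw [act_neg, act_one]
  have h1 := kr_act hA hG (-1) hP
  have h2 := kr_tt_act hA hG (-1) hP
  rw [e] at h1 h2
  refine ⟨h1, ?_⟩
  have h3 : ak Ω (-1 : 𝓞 F) = -1 := by
    unfold ak
    have : (((-1 : 𝓞 F) : 𝓞 F) : F) = -1 := by
      have h4 := map_neg (algebraMap (𝓞 F) F) 1
      rw [map_one] at h4
      exact h4
    rw [this, map_neg, map_one]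
  rw [h3] at h2
  have h5 : V.valuation (tt P) ≤ 1 := (kr_tt_lt hG hP).le
  have h6 : V.valuation (tt P) ^ 2 ≤ V.valuation (tt P) := by
    rw [sq]
    exact (mul_le_mul' le_rfl h5).trans_eq (mul_one _)
  have e2 : tt (-P) = (tt (-P) - -1 * tt P) + -tt P := by ring
  rw [e2]
  refine Valuation.map_add_le _ (h2.trans h6) ?_
  rw [Valuation.map_neg]

omit [DecidableEq Ω] [IsAlgClosure F Ω] [Algebra F Ω] [Field Ω] in
theorem qv_q {π : 𝓞 F} {l : ℕ} (hl : l.Prime) (h5 : 5 ≤ l) (hp : Prime π) (hd : π ∣ (l : 𝓞 F)) : 3 ≤ Nm π := by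
  have h1 := CO2_Nm hl hp hd
  have h0 : Nm π ≠ 0 := fun h => hp.ne_zero (Ideal.span_singleton_eq_bot.1 (Ideal.absNorm_eq_zero_iff.1 h))
  have := Nat.le_of_dvd (Nat.pos_of_ne_zero h0) h1
  omega

/-- Chunk QV (M). The size of the local point. q = Nm pi ≥ 25 (pi divides l ≥ 5, cj pi = pi), tau = V.valuation (tt R) for R ≠ 0 in Tor pi: tau^(q-1) = vo V pi
(kr_tor_ram). X₀ = act pi Q is in the kernel of reduction (kr_act) and fixed by all s with Inert V s (act pi (c s) = 0), so its coordinates and tt X₀ are fixed; value_fixed for the bottom field: V.valuation (tt X₀) is the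
value of an element of F, so (vo V pi)^n with n an integer (pi generates the prime of F below V), n ≥ 1, or tt X₀ = 0. R₀ = c s₀ ≠ 0 is in Tor pi, R₀ = ac s₀ (Q + R) - (Q + R) for every
R in Tor pi (s₀ fixes Tor pi), V.valuation (tt (ac s₀ P)) = V.valuation (tt P) for P in the kernel of reduction, so tau = V.valuation (tt R₀) ≤ V.valuation (tt (Q + R)) for all R (kr_tt_add with c = V.valuation (tt (Q+R)); tt (-P): use
kr_tt_act with a = -1). In particular tt X₀ ≠ 0 (kr_prod: the product of q nonzero values). If V.valuation (tt Q) > tau: V.valuation (tt (Q + R)) = V.valuation (tt Q) for all R (kr_tt_add), kr_prod: V.valuation (tt Q)^q = (vo V pi)^n,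
> tau^q, so (vo V pi)^(n (q-1)) > (vo V pi)^q, n (q - 1) < q, n = 1: done. If V.valuation (tt Q) = tau: all V.valuation (tt (Q + R)) are ≤ tau (kr_tt_add), hence = tau, tau^q = (vo V pi)^n, tau = (vo V pi)^(n-1), tau^(q-1) = vo V pi
= (vo V pi)^((n-1)(q-1)): impossible. -/
theorem val_point {π : 𝓞 F} {l : ℕ} {c : (Ω ≃ₐ[F] Ω) → Pt (WAB A B) Ω} (C : Cl A B Om j act mo ψ π l c) (hin : Tor act (cj π) = Tor act π)
    (V : ValuationSubring Ω) (hG : GV A B V) (hV : vo V π < 1) (Q : Pt (WAB A B) Ω) (hQ : Ker V Q)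
    (hc : ∀ s, Inert V s → c s = ac (WAB A B) s Q - Q) (L : IntermediateField F Ω) (hL : IsTF act π L)
    (s₀ : Ω ≃ₐ[F] Ω) (h1 : s₀ ∈ L.fixingSubgroup) (h2 : Inert V s₀) (h3 : c s₀ ≠ 0) :
    V.valuation (tt Q) ^ Nm π = vo V π := by
  have hA := C.cma
  have hF : IsAlgClosed Ω := IsAlgClosure.isAlgClosed F
  have hal : Algebra.IsAlgebraic F Ω := IsAlgClosure.isAlgebraic
  have hval : ∀ s, c s ∈ Tor act π := fun s => by
    have := C.val s
    rwa [hin] at this
  set ϖ := vo V π with hϖ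
  set q := Nm π with hq
  have hq3 : 3 ≤ q := qv_q C.hl C.five C.pr C.dvd
  have hϖ0 : ϖ ≠ 0 := vo_ne V C.pr.ne_zero
  have hϖp : 0 < ϖ := zero_lt_iff.2 hϖ0
  -- the value of the points killed by pi
  set R₀ := c s₀ with hR₀
  obtain ⟨hR₀K, hR₀q⟩ : Ker V R₀ ∧ V.valuation (tt R₀) ^ (Nm π - 1) = vo V π := kr_tor_ram hA hG π C.pr hV (hval s₀) h3
  set τ := V.valuation (tt R₀) with hτ
  have hτ0 : 0 < τ := by
    rw [zero_lt_iff]
    intro h
    have h4 : τ ^ (q - 1) = ϖ := hR₀q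
    rw [h, zero_pow (by omega)] at h4
    exact hϖ0 h4.symm
  have hτ1 : τ < 1 := kr_tt_lt hG hR₀K
  have hTor : ∀ R ∈ Tor act π, Ker V R ∧ V.valuation (tt R) ≤ τ := by
    intro R hR
    by_cases h0 : R = 0
    · rw [h0]
      refine ⟨ker_zero V, ?_⟩
      have : tt (0 : Pt (WAB A B) Ω) = 0 := rfl
      rw [this, map_zero]
      exact zero_le
    · obtain ⟨h4, h5⟩ := kr_tor_ram hA hG π C.pr hV hR h0
      refine ⟨h4, le_of_eq ?_⟩
      have h6 : V.valuation (tt R) ^ (q - 1) = τ ^ (q - 1) := h5.trans hR₀q.symm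
      exact (pow_left_inj₀ zero_le zero_le (by omega)).1 h6
  -- translates
  have hs₀ : ∀ R ∈ Tor act π, ac (WAB A B) s₀ R = R := (hL.2 s₀).1 h1
  have hlow : ∀ R ∈ Tor act π, Ker V (Q + R) ∧ τ ≤ V.valuation (tt (Q + R)) := by
    intro R hR
    have hK := kr_add hG hQ (hTor R hR).1
    refine ⟨hK, ?_⟩
    have e : R₀ = ac (WAB A B) s₀ (Q + R) + -(Q + R) := by
      rw [hR₀, hc s₀ h2, map_add, hs₀ R hR]
      abel
    obtain ⟨n1, n2⟩ := qv_neg hA hG hK
    have e2 : V.valuation (tt (ac (WAB A B) s₀ (Q + R))) = V.valuation (tt (Q + R)) := by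
      rw [tt_ac, qv_val V s₀ h2]
    rw [hτ, e]
    exact qv_add hG (kr_dec s₀ (in_dec s₀ h2) hK) n1 _ (kr_tt_lt hG hK).le e2.le n2
  -- the point X₀
  have hX₀K := kr_act hA hG π hQ
  have hprod := kr_prod hA hG π C.pr hV hQ
  obtain ⟨hcard, -⟩ := gi_gen hA π C.pr
  have hfin : Finite (Tor act π) := by
    apply Nat.finite_of_card_ne_zero
    rw [hcard]
    omega
  let _ : Fintype (Tor act π) := Fintype.ofFinite _
  rw [finprod_eq_prod_of_fintype] at hprod
  have hX₀v : V.valuation (tt (act π Q)) ≠ 0 := by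
    rw [← hprod]
    refine Finset.prod_ne_zero_iff.2 fun R _ => ?_
    exact (hτ0.trans_le (hlow R.1 R.2).2).ne'
  have hX₀t : tt (act π Q) ≠ 0 := (Valuation.ne_zero_iff _).1 hX₀v
  have hfix : ∀ s ∈ (⊥ : IntermediateField F Ω).fixingSubgroup, Inert V s →
      s (tt (act π Q)) = tt (act π Q) := by
    intro s _ hs
    have e1 : ac (WAB A B) s Q = Q + c s := by
      rw [hc s hs]
      abel
    rw [← tt_ac, ac_act hA, e1, map_add, mem_Tor.1 (hval s), add_zero]
  have hNF : NumberField (⊥ : IntermediateField F Ω) := NumberField.of_module_finite F _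
  obtain ⟨a, ha, hva⟩ := H13S.value_fixed (⊥ : IntermediateField F Ω) V _ hX₀t hfix
  obtain ⟨a', ha'⟩ := IntermediateField.mem_bot.1 a.2
  have ha'0 : a' ≠ 0 := by
    rintro rfl
    rw [map_zero] at ha'
    exact ha (Subtype.ext ha'.symm)
  obtain ⟨k, hk⟩ := qv_intpow V C.pr hV a' ha'0
  rw [ha'] at hk
  have hXk : V.valuation (tt (act π Q)) = ϖ ^ k := hva.trans hk
  have hk1 : 0 < k := by
    by_contra hcon
    push Not at hcon
    have h4 : V.valuation (tt (act π Q)) < 1 := kr_tt_lt hG hX₀K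
    rw [hXk] at h4
    have h5 : 1 ≤ ϖ ^ k := by
      rw [← neg_neg k, zpow_neg]
      have h6 : 0 < ϖ ^ (-k) := zpow_pos hϖp _
      rw [one_le_inv₀ h6]
      obtain ⟨n, hn⟩ := Int.eq_ofNat_of_zero_le (neg_nonneg.2 hcon)
      rw [hn]
      exact pow_le_one' hV.le n
    exact absurd h4 (not_lt.2 h5)
  obtain ⟨n, rfl⟩ := Int.eq_ofNat_of_zero_le hk1.le
  have hn1 : 0 < n := by exact_mod_cast hk1
  have hXn : V.valuation (tt (act π Q)) = ϖ ^ n := hXk
  -- strict monotonicity of the powers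
  have hlt : ∀ i j : ℕ, ϖ ^ i < ϖ ^ j → j < i := by
    intro i j h
    by_contra hcon
    push Not at hcon
    exact absurd h (not_lt.2 (pow_le_pow_right_of_le_one' hV.le hcon))
  have heq : ∀ i j : ℕ, ϖ ^ i = ϖ ^ j → i = j := by
    have hanti : StrictAnti (fun i : ℕ => ϖ ^ i) := by
      refine strictAnti_nat_of_succ_lt fun i => ?_
      rw [pow_succ]
      calc ϖ ^ i * ϖ < ϖ ^ i * 1 := mul_lt_mul_of_pos_left hV (pow_pos hϖp i)
        _ = ϖ ^ i := mul_one _
    exact fun i j h => hanti.injective h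
  have hcard' : Fintype.card (Tor act π) = q := by
    rw [← Nat.card_eq_fintype_card]
    exact hcard
  have hQlow : τ ≤ V.valuation (tt Q) := by
    have := (hlow 0 (Tor act π).zero_mem).2
    rwa [add_zero] at this
  have hQ1 : V.valuation (tt Q) < 1 := kr_tt_lt hG hQ
  rcases hQlow.lt_or_eq with hgt | heq'
  · have hall : ∀ R : Tor act π, V.valuation (tt (Q + (R : Pt (WAB A B) Ω))) = V.valuation (tt Q) := by
      intro R
      have h4 := (hTor R.1 R.2).2
      have h5 := kr_tt_add hG hQ (hTor R.1 R.2).1 (V.valuation (tt Q)) le_rfl (h4.trans hQlow)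
      have h6 : V.valuation (tt Q) ^ 2 < V.valuation (tt Q) := by
        rw [sq]
        calc V.valuation (tt Q) * V.valuation (tt Q) < V.valuation (tt Q) * 1 :=
              mul_lt_mul_of_pos_left hQ1 (hτ0.trans hgt)
          _ = _ := mul_one _
      have e : tt (Q + (R : Pt (WAB A B) Ω)) = tt Q + ((tt (Q + (R : Pt (WAB A B) Ω)) - tt Q - tt (R : Pt (WAB A B) Ω)) + tt (R : Pt (WAB A B) Ω)) := by
        ring
      rw [e]
      exact Valuation.map_add_eq_of_lt_left _ (Valuation.map_add_lt _ (h5.trans_lt h6) (h4.trans_lt hgt))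
    rw [Finset.prod_congr rfl fun R _ => hall R, Finset.prod_const, Finset.card_univ, hcard', hXn] at hprod
    have h7 : τ ^ (q * (q - 1)) < V.valuation (tt Q) ^ (q * (q - 1)) :=
      pow_lt_pow_left₀ hgt zero_le (Nat.mul_ne_zero (by omega) (by omega))
    have h8 : ϖ ^ q < ϖ ^ (n * (q - 1)) := by
      calc ϖ ^ q = τ ^ (q * (q - 1)) := by
            rw [mul_comm, pow_mul]
            exact congrArg (fun z => z ^ q) hR₀q.symm
        _ < V.valuation (tt Q) ^ (q * (q - 1)) := h7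
        _ = ϖ ^ (n * (q - 1)) := by rw [pow_mul, hprod, ← pow_mul]
    have h9 := hlt _ _ h8
    have hn : n = 1 := by
      by_contra hne
      have hn2 : 2 ≤ n := by omega
      have h10 : 2 * (q - 1) ≤ n * (q - 1) := Nat.mul_le_mul_right _ hn2
      omega
    rw [hn, pow_one] at hprod
    exact hprod
  · exfalso
    have hall : ∀ R : Tor act π, V.valuation (tt (Q + (R : Pt (WAB A B) Ω))) = τ := by
      intro R
      refine le_antisymm ?_ (hlow R.1 R.2).2
      exact qv_add hG hQ (hTor R.1 R.2).1 τ hτ1.le heq'.symm.le (hTor R.1 R.2).2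
    rw [Finset.prod_congr rfl fun R _ => hall R, Finset.prod_const, Finset.card_univ, hcard', hXn] at hprod
    have h8 : ϖ ^ q = ϖ ^ (n * (q - 1)) := by
      calc ϖ ^ q = τ ^ (q * (q - 1)) := by
            rw [mul_comm, pow_mul]
            exact congrArg (fun z => z ^ q) hR₀q.symm
        _ = ϖ ^ (n * (q - 1)) := by rw [pow_mul, hprod, ← pow_mul]
    have h9 := heq _ _ h8
    have h10 : (q - 1) ∣ q := ⟨n, h9.trans (mul_comm _ _)⟩
    have h11 : (q - 1) ∣ 1 := by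
      have h12 := Nat.dvd_sub h10 (dvd_refl (q - 1))
      have e : q - (q - 1) = 1 := by omega
      rwa [e] at h12
    have h12 := Nat.le_of_dvd one_pos h11
    omega

end H55K.S
end

-- from Lib.H55K.SLD
section

/-! # H55K, part S: port of H13S/LD3 -/

open NumberField IsDedekindDomain WeierstrassCurve

namespace H55K.S

open H55P (IQ embF eF LF Per IsHecke Pt ac Inert Dec Nm)
open H35P (WAB Ker tt)
open H13S (Abv)






variable {F : Type} [Field F] [NumberField F] [IQ F] {A B : F} {Om : ℂ} {Ω : Type} [Field Ω] [DecidableEq Ω]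
  [Algebra F Ω] [IsAlgClosure F Ω] {j : Ω →+* ℂ} {act : 𝓞 F →+* AddMonoid.End (Pt (WAB A B) Ω)} {mo : Ideal (𝓞 F)}
  {ψ : Ideal (𝓞 F) →*₀ 𝓞 F}

theorem ld3_e0 {π : 𝓞 F} {l : ℕ} (hl : l ≠ 0) {e : Pt (WAB A B) Ω → Pt (WAB A B) Ω → Ω} (he : Pairing A B act π l e) {T : Pt (WAB A B) Ω}
    (hT : T ∈ Tor act π) : e 0 T = 1 := by
  have h0 : (0 : Pt (WAB A B) Ω) ∈ Tor act (cj π) := AddSubgroup.zero_mem _
  have h1 := he.add_left 0 h0 0 h0 T hT
  have h2 := he.root 0 h0 T hT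
  rw [add_zero] at h1
  have h3 : e 0 T ≠ 0 := by
    intro h
    rw [h, zero_pow hl] at h2
    exact zero_ne_one h2
  exact (mul_eq_left₀ h3).1 h1.symm

theorem ld3_e0' {π : 𝓞 F} {l : ℕ} (hl : l ≠ 0) {e : Pt (WAB A B) Ω → Pt (WAB A B) Ω → Ω} (he : Pairing A B act π l e) {X : Pt (WAB A B) Ω}
    (hX : X ∈ Tor act (cj π)) : e X 0 = 1 := by
  have h0 : (0 : Pt (WAB A B) Ω) ∈ Tor act π := AddSubgroup.zero_mem _
  have h1 := he.add_right X hX 0 h0 0 h0
  have h2 := he.root X hX 0 h0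
  rw [add_zero] at h1
  have h3 : e X 0 ≠ 0 := by
    intro h
    rw [h, zero_pow hl] at h2
    exact zero_ne_one h2
  exact (mul_eq_left₀ h3).1 h1.symm

/-- Step D (final step for the level in the inert case). -/
theorem level_inert {π : 𝓞 F} {l : ℕ} {c : (Ω ≃ₐ[F] Ω) → Pt (WAB A B) Ω} (C : Cl A B Om j act mo ψ π l c) (hlπ : Associated (l : 𝓞 F) π)
    (hin : Tor act (cj π) = Tor act π) (hq : Nm π = l ^ 2) {e : Pt (WAB A B) Ω → Pt (WAB A B) Ω → Ω} (he : Pairing A B act π l e) {L : IntermediateField F Ω} (hL : IsTF act π L)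
    [NumberField L] (V : ValuationSubring Ω) (hG : GV A B V) (hV : vo V π < 1) (w : HeightOneSpectrum (𝓞 L)) (hw : Abv L V w)
    (T : Pt (WAB A B) Ω) (hT : T ∈ Tor act π) (m : L) (hm : m ≠ 0) (y : Ω) (hyk : Kum L e c T y) (hy : y ^ l = (m : Ω)) :
    ∃ z : L, z ≠ 0 ∧ w.valuation L (m / z ^ l - 1) ≤ WithZero.exp (-2 : ℤ) := by
  classical
  have hA := C.cma
  have hchar : CharZero Ω := charZero_of_injective_algebraMap (algebraMap F Ω).injective
  have hl0 : l ≠ 0 := C.hl.ne_zero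
  have hVl : V.valuation (l : Ω) = vo V π := by rw [← vo_nat (F := F), vo_assoc V hlπ (vo_le V)]
  have hVl1 : V.valuation (l : Ω) < 1 := hVl ▸ hV
  by_contra hlev
  have hex : ∃ s ∈ L.fixingSubgroup, Inert V s ∧ s y ≠ y := by
    by_contra hcon
    push Not at hcon
    exact hlev (H13S.level_unr L V w hw l C.hl hVl1 m hm y hy hcon)
  obtain ⟨s₁, hs1, hi1, hne1⟩ := hex
  have hTfix : ∀ s ∈ L.fixingSubgroup, ∀ R ∈ Tor act π, ac (WAB A B) s R = R := fun s hs => (hL.2 s).1 hs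
  have hcT : ∀ s, c s ∈ Tor act π := fun s => by
    have := C.val s
    rwa [hin] at this
  have hc1 : c s₁ ≠ 0 := by
    intro h0
    apply hne1
    rw [hyk.2 s₁ hs1, h0, ld3_e0 hl0 he hT, one_mul]
  have hT0 : T ≠ 0 := by
    intro h0
    apply hne1
    rw [hyk.2 s₁ hs1, h0, ld3_e0' hl0 he (C.val _), one_mul]
  obtain ⟨Q, hQ, hQc⟩ := inert_point C hlπ V hG hV
  have hr := val_point C hin V hG hV Q hQ hQc L hL s₁ hs1 hi1 hc1
  have hq3 : 3 ≤ Nm π := by
    rw [hq]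
    nlinarith [C.five]
  have hvr := fun R (hR : R ∈ Tor act π) (h0 : R ≠ 0) => val_ratio hA C.pr hq3 V hG hV Q hQ hr R hR h0
  have hcard : Nat.card (Tor act π) = Nm π := (gi_gen hA π C.pr).1
  have hfin : Finite (Tor act π) := Nat.finite_of_card_ne_zero (by rw [hcard]; omega)
  have hV0 : vo V π ≠ 0 := by
    unfold vo
    rw [Ne, map_eq_zero, map_eq_zero]
    exact_mod_cast C.pr.ne_zero
  have hQ0 : V.valuation (tt Q) ≠ 0 := by
    intro h0
    rw [h0, zero_pow (by omega)] at hr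
    exact hV0 hr.symm
  -- the set J
  have hJfin : {R : Pt (WAB A B) Ω | ∃ h ∈ L.fixingSubgroup, Inert V h ∧ h y = y ∧ c h = R}.Finite := by
    refine Set.Finite.subset (Set.toFinite (Tor act π : Set (Pt (WAB A B) Ω))) ?_
    rintro R ⟨h, -, -, -, rfl⟩
    exact hcT h
  set J : Finset (Pt (WAB A B) Ω) := hJfin.toFinset with hJ
  have hJmem : ∀ R, R ∈ J ↔ ∃ h ∈ L.fixingSubgroup, Inert V h ∧ h y = y ∧ c h = R := fun R => by
    rw [hJ, Set.Finite.mem_toFinset]
    rfl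
  have hJT : ∀ R ∈ J, R ∈ Tor act π := fun R hR => by
    obtain ⟨h, -, -, -, rfl⟩ := (hJmem R).1 hR
    exact hcT h
  have hJcard : J.card ≤ Nm π := by
    rw [← hcard]
    have h1 : (J : Set (Pt (WAB A B) Ω)) ⊆ (Tor act π : Set (Pt (WAB A B) Ω)) := fun R hR => hJT R hR
    calc J.card = Set.ncard (J : Set (Pt (WAB A B) Ω)) := (Set.ncard_coe_finset J).symm
      _ ≤ Set.ncard (Tor act π : Set (Pt (WAB A B) Ω)) := Set.ncard_le_ncard h1 (Set.toFinite _)
      _ = Nat.card (Tor act π) := rfl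
  have hJ0 : (0 : Pt (WAB A B) Ω) ∈ J := (hJmem 0).2 ⟨1, Subgroup.one_mem _, fun x _ => by simp, rfl, C.one⟩
  have hcadd : ∀ h ∈ L.fixingSubgroup, ∀ h' , c (h * h') = c h + c h' := fun h hh h' => by
    rw [C.mul, hTfix h hh _ (hcT h')]
  have hcinv : ∀ h ∈ L.fixingSubgroup, c h⁻¹ = -c h := fun h hh => by
    have h1 := hcadd h hh h⁻¹
    rw [mul_inv_cancel, C.one] at h1
    exact (neg_eq_of_add_eq_zero_right h1.symm).symm
  -- values
  have hval : ∀ R ∈ Tor act π, V.valuation (tt (Q + R)) = V.valuation (tt Q) := fun R hR => by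
    by_cases h0 : R = 0
    · rw [h0, add_zero]
    · exact (hvr R hR h0).1
  have htau : ∀ R ∈ Tor act π, R ≠ 0 → V.valuation (tt R) = V.valuation (tt T) := fun R hR h0 => by
    have h1 := (kr_tor_ram hA hG π C.pr hV hR h0).2
    have h2 := (kr_tor_ram hA hG π C.pr hV hT hT0).2
    exact (pow_left_inj₀ zero_le zero_le (by omega)).1 (h1.trans h2.symm)
  have hTQ : V.valuation (tt T) < V.valuation (tt Q) := (hvr T hT hT0).2.2
  have hTv : V.valuation (tt T) ^ (Nm π - 1) = vo V π := (kr_tor_ram hA hG π C.pr hV hT hT0).2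
  have hT0' : V.valuation (tt T) ≠ 0 := by
    intro h0
    rw [h0, zero_pow (by omega)] at hTv
    exact hV0 hTv.symm
  obtain ⟨a, ha⟩ : ∃ a, a = V.valuation (tt T) / V.valuation (tt Q) := ⟨_, rfl⟩
  have ha1 : a < 1 := by
    rw [ha]
    exact (div_lt_one₀ (zero_lt_iff.2 hQ0)).2 hTQ
  have ha0 : 0 < a := by
    rw [ha, zero_lt_iff]
    exact div_ne_zero hT0' hQ0
  have haq : a ^ (Nm π * (Nm π - 1)) = vo V π := by
    have h1 : V.valuation (tt T) ^ (Nm π * (Nm π - 1)) = vo V π ^ Nm π := by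
      rw [mul_comm, pow_mul, hTv]
    have h2 : V.valuation (tt Q) ^ (Nm π * (Nm π - 1)) = vo V π ^ (Nm π - 1) := by
      rw [pow_mul, hr]
    have h3 : vo V π ^ Nm π = vo V π ^ (Nm π - 1) * vo V π := by
      rw [← pow_succ]
      congr 1
      omega
    rw [ha, div_pow, h1, h2, h3]
    exact mul_div_cancel_left₀ _ (pow_ne_zero _ hV0)
  -- the bound
  have hbd := H13S.prod_bound V J hJ0 (fun R => tt T / tt (Q + R))
    (fun R hR => by
      rw [map_div₀, hval R (hJT R hR), ← ha]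
      exact ha1.le)
    {σ : Ω ≃+* Ω | ∃ h ∈ L.fixingSubgroup, Inert V h ∧ h y = y ∧ σ = (h : Ω ≃+* Ω)}
    (by
      rintro σ ⟨h, hh, hih, hhy, rfl⟩
      refine ⟨c h, fun R hR => ?_, fun R => ⟨fun hR => ?_, fun hR => ?_⟩⟩
      · change h (tt T / tt (Q + R)) = tt T / tt (Q + (R + c h))
        rw [map_div₀, ← tt_ac, ← tt_ac, hTfix h hh T hT, map_add, hTfix h hh R (hJT R hR)]
        have h1 : ac (WAB A B) h Q = c h + Q := by
          rw [hQc h hih, sub_add_cancel]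
        rw [h1]
        congr 2
        abel
      · obtain ⟨k, hk, hik, hky, rfl⟩ := (hJmem R).1 hR
        refine (hJmem _).2 ⟨k * h, Subgroup.mul_mem _ hk hh, H13S.ld3_mul hik hih, ?_, hcadd k hk h⟩
        change k (h y) = y
        rw [hhy, hky]
      · obtain ⟨k, hk, hik, hky, hkc⟩ := (hJmem _).1 hR
        refine (hJmem _).2 ⟨k * h⁻¹, Subgroup.mul_mem _ hk (Subgroup.inv_mem _ hh),
          H13S.ld3_mul hik (H13S.ld3_inv hih), ?_, ?_⟩
        · change k (h⁻¹ y) = y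
          have h1 : h⁻¹ y = y := by
            have h2 : h⁻¹ (h y) = y := AlgEquiv.symm_apply_apply h y
            rwa [hhy] at h2
          rw [h1, hky]
        · rw [hcadd k hk, hcinv h hh, hkc, add_neg_cancel_right])
    (s₁ : Ω ≃+* Ω) (l - 1) (V.valuation (l : Ω))
    (fun b hb hf => H13S.coef_bound L V w hw l C.hl (by have := C.five; omega) hVl1
      (mu_mem hA C.hl C.pr hin he hL) m hm y hy hlev b hb
      (fun s hs hi hsy => hf (s : Ω ≃+* Ω) ⟨s, hs, hi, hsy, rfl⟩) s₁ hs1 hi1)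
  have hterm : ∀ R ∈ J, V.valuation (tt T / tt (Q + 0) - (s₁ : Ω ≃+* Ω) (tt T / tt (Q + R))) = a ^ 2 := by
    intro R hR
    have hR' := hJT R hR
    have h0 : R + c s₁ ≠ 0 := by
      intro h0
      obtain ⟨k, hk, hik, hky, hkc⟩ := (hJmem R).1 hR
      apply hne1
      have h1 : c s₁ = c k⁻¹ := by
        rw [hcinv k hk, hkc]
        exact eq_neg_of_add_eq_zero_right h0
      have h2 : k⁻¹ y = y := by
        have h3 : k⁻¹ (k y) = y := AlgEquiv.symm_apply_apply k y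
        rwa [hky] at h3
      rw [hyk.2 s₁ hs1, h1, ← hyk.2 k⁻¹ (Subgroup.inv_mem _ hk), h2]
    have hT' : R + c s₁ ∈ Tor act π := AddSubgroup.add_mem _ hR' (hcT s₁)
    have e1 : (s₁ : Ω ≃+* Ω) (tt T / tt (Q + R)) = tt T / tt (Q + (R + c s₁)) := by
      change s₁ (tt T / tt (Q + R)) = _
      rw [map_div₀, ← tt_ac, ← tt_ac, hTfix s₁ hs1 T hT, map_add, hTfix s₁ hs1 R hR']
      have h1 : ac (WAB A B) s₁ Q = c s₁ + Q := by
        rw [hQc s₁ hi1, sub_add_cancel]
      rw [h1]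
      congr 2
      abel
    rw [e1, add_zero]
    have hv1 := hvr _ hT' h0
    have hne2 : tt (Q + (R + c s₁)) ≠ 0 := by
      intro h1
      rw [h1, map_zero] at hv1
      exact hQ0 hv1.1.symm
    have hne3 : tt Q ≠ 0 := by
      intro h1
      rw [h1, map_zero] at hQ0
      exact hQ0 rfl
    have e2 : tt T / tt Q - tt T / tt (Q + (R + c s₁)) =
        tt T * (tt (Q + (R + c s₁)) - tt Q) / (tt Q * tt (Q + (R + c s₁))) := by
      field_simp
    rw [e2, map_div₀, map_mul, map_mul, hv1.1, hv1.2.1, htau _ hT' h0, ha, div_pow, sq, sq]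
  rw [Finset.prod_congr rfl (fun R hR => rfl), map_prod] at hbd
  rw [Finset.prod_congr rfl hterm, Finset.prod_const, hVl, ← haq, ← pow_mul, ← pow_mul] at hbd
  have h1 := (pow_le_pow_iff_right_of_lt_one₀ ha0 ha1).1 hbd
  have h2 : 2 * J.card * (l - 1) ≤ 2 * Nm π * (l - 1) := by
    exact Nat.mul_le_mul_right _ (Nat.mul_le_mul_left _ hJcard)
  have h3 : Nm π * (Nm π - 1) ≤ Nm π * (2 * (l - 1)) := by
    calc Nm π * (Nm π - 1) ≤ 2 * (J.card * (l - 1)) := h1
      _ = 2 * J.card * (l - 1) := by ring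
      _ ≤ 2 * Nm π * (l - 1) := h2
      _ = Nm π * (2 * (l - 1)) := by ring
  have h4 := Nat.le_of_mul_le_mul_left h3 (by omega)
  rw [hq] at h4
  have h5 := C.five
  have h6 : l * l = l ^ 2 := by ring
  have h7 : 5 * l ≤ l ^ 2 := by
    rw [← h6]
    exact Nat.mul_le_mul_right l h5
  omega

end H55K.S
end
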