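import Mathlib
import Pool.Agent.Lib.H1M.PP.D_H55P_Stm
import Pool.Agent.Lib.H1M.PP.M001
import Pool.Agent.Lib.H1M.PP.M008
import Pool.Agent.Lib.H1M.PP.M009
import Pool.Agent.Lib.H1M.PP.M010
import Pool.Agent.Lib.H1M.PP.M012
import Pool.Agent.Lib.H1M.PP.M016
import Pool.Agent.Lib.H1M.PP.M037
import Pool.Agent.Lib.H1M.PP.M042

/-! Merged copies (to shorten the build) of Lib.H13X.D, Lib.H55K.J4A, Lib.H55K.C0, Lib.H55K.C2, Lib.H55K.C3, Lib.H55K.M4B, Lib.H55K.T0, Lib.H55K.M1A, Lib.H55K.M1B, Lib.H55K.M3A, Lib.H55K.M3B, Lib.H55K.C11, Lib.H55K.C1, Lib.H55K.C10, Lib.H55K.C13, Lib.H55K.C15, Lib.H55K.C12, Lib.H55K.C14, Lib.H55K.C22, Lib.H55K.C23. -/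

-- from Lib.H13X.D
section

/-!
# H13X: a bad ramified prime gives a nonzero Selmer class, for all curves with complex multiplication (definitions)

The setting of H55K (Dta): F one of the nine fields, E : y^2 = x^3 + A x + B with complex multiplication act by the integers of F,
l a good prime at least 5, π a prime element above l. N is a number field between F and Ω. See PROOF.md.
-/

open NumberField IsDedekindDomain WeierstrassCurve

namespace H13X

open H55P (IQ embF eF LF Per IsHecke Pt ac Inert Dec Nm Coc)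
open H35P (WAB Ker tt)
open H55K (Tor ak xc yc CMA Dta GV GMod cj cj_cj mul_cj cj_prime cj_dvd cj_nat Nm_cj Nm_mul Nm_nat)
open H55K.S
open H13S (Abv)

variable {F : Type} [Field F] [NumberField F] [IQ F] {A B : F} {Om : ℂ} {Ω : Type} [Field Ω] [DecidableEq Ω]
  [Algebra F Ω] {j : Ω →+* ℂ}

/-- The data, and a prime element π above l. -/
structure Dat (A B : F) (Om : ℂ) (j : Ω →+* ℂ) (act : 𝓞 F →+* AddMonoid.End (Pt (WAB A B) Ω)) (mo : Ideal (𝓞 F))
    (ψ : Ideal (𝓞 F) →*₀ 𝓞 F) (π : 𝓞 F) (l : ℕ) : Prop where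
  dta : Dta A B Om j act mo ψ l
  pr : Prime π
  dvd : π ∣ (l : 𝓞 F)

section data

variable {act : 𝓞 F →+* AddMonoid.End (Pt (WAB A B) Ω)} {mo : Ideal (𝓞 F)} {ψ : Ideal (𝓞 F) →*₀ 𝓞 F} {π : 𝓞 F} {l : ℕ}

theorem Dat.cma (D : Dat A B Om j act mo ψ π l) : CMA F A B Om j act := D.dta.cma

theorem Dat.hl (D : Dat A B Om j act mo ψ π l) : l.Prime := D.dta.prime

theorem Dat.five (D : Dat A B Om j act mo ψ π l) : 5 ≤ l := D.dta.five

/-- The conjugate data. -/
theorem Dat.conj (D : Dat A B Om j act mo ψ π l) : Dat A B Om j act mo ψ (cj π) l :=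
  ⟨D.dta, cj_prime D.pr, by rw [cj_dvd, cj_nat]; exact D.dvd⟩

end data

/-- c is a continuous cocycle on the group of K with values in the points killed by the conjugate of π. -/
structure Cc (act : 𝓞 F →+* AddMonoid.End (Pt (WAB A B) Ω)) (π : 𝓞 F) (K : IntermediateField F Ω)
    (c : (Ω ≃ₐ[F] Ω) → Pt (WAB A B) Ω) : Prop where
  mul : ∀ s ∈ K.fixingSubgroup, ∀ t ∈ K.fixingSubgroup, c (s * t) = c s + ac (WAB A B) s (c t)
  cont : ∃ N : IntermediateField F Ω, FiniteDimensional F N ∧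
    ∀ s ∈ K.fixingSubgroup, s ∈ N.fixingSubgroup → c s = 0
  val : ∀ s ∈ K.fixingSubgroup, c s ∈ Tor act (cj π)

/-- L is the field generated over K by the points killed by π. -/
structure IsTB (act : 𝓞 F →+* AddMonoid.End (Pt (WAB A B) Ω)) (π : 𝓞 F) (K L : IntermediateField F Ω) : Prop where
  fin : FiniteDimensional F L
  le : K ≤ L
  fix : ∀ s : Ω ≃ₐ[F] Ω, s ∈ L.fixingSubgroup ↔ s ∈ K.fixingSubgroup ∧ ∀ T ∈ Tor act π, ac (WAB A B) s T = T

/-- What is needed of the base field N: the inertia groups above l fix N; the residue fields above l. -/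
structure Nb (l : ℕ) (N : IntermediateField F Ω) : Prop where
  fin : FiniteDimensional F N
  inert : ∀ V : ValuationSubring Ω, V.valuation (l : Ω) < 1 → ∀ s : Ω ≃ₐ[F] Ω, Inert V s → s ∈ N.fixingSubgroup
  res : ∀ (V : ValuationSubring Ω) (β : 𝓞 F), Prime β → vo V β < 1 → V.valuation (l : Ω) < 1 →
    ∃ q f : ℕ, 0 < f ∧ q = Nm β ^ f ∧ (∀ x ∈ N, x ∈ V → V.valuation (x ^ q - x) < 1) ∧
      (∃ φ ∈ N.fixingSubgroup, Dec V φ ∧ ∀ x ∈ V, V.valuation (φ x - x ^ q) < 1) ∧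
      ∃ r : Fin q → Ω, (∀ i, r i ∈ N ∧ V.valuation (r i) ≤ 1) ∧
        (∀ i i', i ≠ i' → V.valuation (r i - r i') = 1) ∧
        ∀ x ∈ N, x ∈ V → ∃ i, V.valuation (x - r i) < 1

/-- s lies in the decomposition group of V over N. -/
def DecN (N : IntermediateField F Ω) (V : ValuationSubring Ω) (s : Ω ≃ₐ[F] Ω) : Prop :=
  s ∈ N.fixingSubgroup ∧ Dec V s

section loc

variable (act : 𝓞 F →+* AddMonoid.End (Pt (WAB A B) Ω)) (π : 𝓞 F)

/-- s lies in the inertia group of V and fixes the points killed by π and by its conjugate. -/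
def JV (V : ValuationSubring Ω) (s : Ω ≃ₐ[F] Ω) : Prop :=
  Inert V s ∧ (∀ T ∈ Tor act π, ac (WAB A B) s T = T) ∧ ∀ T ∈ Tor act (cj π), ac (WAB A B) s T = T

/-- s lies in the decomposition group of V over N and fixes the points killed by π. -/
def DT (N : IntermediateField F Ω) (V : ValuationSubring Ω) (s : Ω ≃ₐ[F] Ω) : Prop :=
  DecN N V s ∧ ∀ T ∈ Tor act π, ac (WAB A B) s T = T

/-- x is fixed by these automorphisms. -/
def Hx (N : IntermediateField F Ω) (V : ValuationSubring Ω) (x : Ω) : Prop :=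
  ∀ s, DT act π N V s → s x = x

/-- c is a cocycle on the decomposition group of V over N with values in the points killed by the conjugate of π. -/
structure Dc (N : IntermediateField F Ω) (V : ValuationSubring Ω)
    (c : (Ω ≃ₐ[F] Ω) → Pt (WAB A B) Ω) : Prop where
  mul : ∀ s, DecN N V s → ∀ t, DecN N V t → c (s * t) = c s + ac (WAB A B) s (c t)
  val : ∀ s, DecN N V s → c s ∈ Tor act (cj π)

/-- The y T are Kummer generators for c over the henselization. -/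
structure KS (N : IntermediateField F Ω) (V : ValuationSubring Ω)
    (e : Pt (WAB A B) Ω → Pt (WAB A B) Ω → Ω)
    (c : (Ω ≃ₐ[F] Ω) → Pt (WAB A B) Ω) (y : Pt (WAB A B) Ω → Ω) : Prop where
  ne : ∀ T ∈ Tor act π, y T ≠ 0
  gal : ∀ T ∈ Tor act π, ∀ s, DT act π N V s → s (y T) = e (c s) T * y T

/-- An additive and equivariant system of elements of the henselization modulo l-th powers. -/
structure Sys (l : ℕ) (N : IntermediateField F Ω) (V : ValuationSubring Ω) (m : Pt (WAB A B) Ω → Ω) :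
    Prop where
  ne : ∀ T ∈ Tor act π, m T ≠ 0
  fx : ∀ T ∈ Tor act π, Hx act π N V (m T)
  add : ∀ T ∈ Tor act π, ∀ T' ∈ Tor act π, ∃ z, Hx act π N V z ∧ z ≠ 0 ∧ m (T + T') = m T * m T' * z ^ l
  gal : ∀ s, DecN N V s → ∀ T ∈ Tor act π, ∃ z, Hx act π N V z ∧ z ≠ 0 ∧
    m (ac (WAB A B) s T) = s (m T) * z ^ l

/-- The level: m is an l-th power times an element which differs from 1 by at most r. -/
def Lv (l : ℕ) (N : IntermediateField F Ω) (V : ValuationSubring Ω) (r : V.ValueGroup) (m : Ω) :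
    Prop :=
  ∃ z, Hx act π N V z ∧ z ≠ 0 ∧ V.valuation (m / z ^ l - 1) ≤ r

/-- The coefficient a of m at the level i, an element of N integral at V: m = z^l (1 + a t^i + smaller terms). -/
def Co (l : ℕ) (N : IntermediateField F Ω) (V : ValuationSubring Ω) (t : Ω) (i : ℕ) (m a : Ω) :
    Prop :=
  (a ∈ N ∧ V.valuation a ≤ 1) ∧
    ∃ z, Hx act π N V z ∧ z ≠ 0 ∧ V.valuation (m / z ^ l - 1 - a * t ^ i) ≤ V.valuation t ^ (i + 1)

end loc

/-- The ramified case: V lies above π, t is the parameter of a point killed by π, e0 (l - 1) = Nm π - 1. -/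
structure RB (A B : F) (Om : ℂ) (j : Ω →+* ℂ) (act : 𝓞 F →+* AddMonoid.End (Pt (WAB A B) Ω)) (mo : Ideal (𝓞 F))
    (ψ : Ideal (𝓞 F) →*₀ 𝓞 F) (π : 𝓞 F) (l : ℕ) (V : ValuationSubring Ω) (t : Ω) (e0 : ℕ) : Prop where
  D : Dat A B Om j act mo ψ π l
  above : vo V π < 1
  pt : ∃ T ∈ Tor act π, T ≠ 0 ∧ t = tt T
  e0 : e0 * (l - 1) = Nm π - 1

/-- The same with a base field N. -/
structure RV (A B : F) (Om : ℂ) (j : Ω →+* ℂ) (act : 𝓞 F →+* AddMonoid.End (Pt (WAB A B) Ω)) (mo : Ideal (𝓞 F))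
    (ψ : Ideal (𝓞 F) →*₀ 𝓞 F) (π : 𝓞 F) (l : ℕ) (N : IntermediateField F Ω) (V : ValuationSubring Ω) (t : Ω)
    (e0 : ℕ) : Prop where
  base : RB A B Om j act mo ψ π l V t e0
  nb : Nb l N

/-- The unramified case: V lies above cj π, π does not divide cj π. φ a Frobenius element over N, q the number of elements of the
residue field of N; φ acts on the points killed by π as n. -/
structure UV (A B : F) (Om : ℂ) (j : Ω →+* ℂ) (act : 𝓞 F →+* AddMonoid.End (Pt (WAB A B) Ω)) (mo : Ideal (𝓞 F))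
    (ψ : Ideal (𝓞 F) →*₀ 𝓞 F) (π : 𝓞 F) (l : ℕ) (N : IntermediateField F Ω) (V : ValuationSubring Ω)
    (φ : Ω ≃ₐ[F] Ω) (q n : ℕ) : Prop where
  D : Dat A B Om j act mo ψ π l
  nd : ¬ π ∣ cj π
  above : vo V (cj π) < 1
  nb : Nb l N
  dec : DecN N V φ
  ql : ∃ q' : ℕ, q = l * q' ∧ 0 < q'
  frob : ∀ x ∈ V, V.valuation (φ x - x ^ q) < 1
  gal : ∀ T ∈ Tor act π, ac (WAB A B) φ T = n • T
  n1 : ¬ l ∣ n
  rep : ∃ r : Fin q → Ω, (∀ i, r i ∈ N ∧ V.valuation (r i) ≤ 1) ∧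
    ∀ i i', i ≠ i' → V.valuation (r i - r i') = 1

/-- The output of the global part: an additive and equivariant system of elements of L = N(E[π]) whose orders are divisible by l
outside w, of level at least 2 above π, not all of them l-th powers. -/
structure GN (act : 𝓞 F →+* AddMonoid.End (Pt (WAB A B) Ω)) (π : 𝓞 F) (l : ℕ) (N L : IntermediateField F Ω)
    [NumberField N] [NumberField L] (w : HeightOneSpectrum (𝓞 N)) (m : Pt (WAB A B) Ω → (L)ˣ) : Prop where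
  add : ∀ T ∈ Tor act π, ∀ T' ∈ Tor act π, ∃ z : (L)ˣ, m (T + T') = m T * m T' * z ^ l
  gal : ∀ σ ∈ N.fixingSubgroup, ∀ T ∈ Tor act π, ∃ z : (L)ˣ,
    ((m (ac (WAB A B) σ T) : L) : Ω) = σ ((m T : L) : Ω) * ((z : L) : Ω) ^ l
  out : ∀ T ∈ Tor act π, ∀ (V : ValuationSubring Ω) (W : HeightOneSpectrum (𝓞 L)), Abv L V W →
    ¬ Abv N V w → (l : ℤ) ∣ H55R.ord W (m T)
  lev : ∀ T ∈ Tor act π, ∀ W : HeightOneSpectrum (𝓞 L),
    W.valuation L (algebraMap F L (π : F)) < 1 → ∃ z : (L)ˣ,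
      W.valuation L (((m T * (z ^ l)⁻¹ : (L)ˣ) : L) - 1) ≤ WithZero.exp (-2 : ℤ)
  nz : ∃ T ∈ Tor act π, ∀ z : (L)ˣ, m T ≠ z ^ l

/-- The global class over N. -/
structure Gl (A B : F) (Om : ℂ) (j : Ω →+* ℂ) (act : 𝓞 F →+* AddMonoid.End (Pt (WAB A B) Ω)) (mo : Ideal (𝓞 F))
    (ψ : Ideal (𝓞 F) →*₀ 𝓞 F) (π : 𝓞 F) (l : ℕ) (e : Pt (WAB A B) Ω → Pt (WAB A B) Ω → Ω)
    (N L : IntermediateField F Ω) [NumberField N] (w : HeightOneSpectrum (𝓞 N))
    (c : (Ω ≃ₐ[F] Ω) → Pt (WAB A B) Ω) (y : Pt (WAB A B) Ω → Ω) : Prop where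
  D : Dat A B Om j act mo ψ π l
  nb : Nb l N
  wl : (l : 𝓞 N) ∉ w.asIdeal
  fx : ∀ V : ValuationSubring Ω, Abv N V w → ∀ s, DecN N V s → ∀ T ∈ Tor act π, ac (WAB A B) s T = T
  tb : IsTB act π N L
  cc : Cc act π N c
  kum : ∀ T ∈ Tor act π, Kum L e c T (y T)
  out : ∀ V : ValuationSubring Ω, ¬ Abv N V w → ∀ T ∈ Tor act π, ∃ x ∈ L, x ≠ 0 ∧
    V.valuation (y T) = V.valuation x
  lev : ∀ V : ValuationSubring Ω, vo V π < 1 → ∀ T ∈ Tor act π, ∀ T₀ ∈ Tor act π, T₀ ≠ 0 →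
    ∃ z ∈ L, z ≠ 0 ∧ V.valuation (y T ^ l / z ^ l - 1) ≤ V.valuation (tt T₀) ^ 2
  nz : ∃ T ∈ Tor act π, ∀ z ∈ L, z ^ l ≠ y T ^ l

section small

variable {act : 𝓞 F →+* AddMonoid.End (Pt (WAB A B) Ω)} {π : 𝓞 F} {K L : IntermediateField F Ω}
  {c : (Ω ≃ₐ[F] Ω) → Pt (WAB A B) Ω}

theorem IsTB.mono (h : IsTB act π K L) {s : Ω ≃ₐ[F] Ω} (hs : s ∈ L.fixingSubgroup) : s ∈ K.fixingSubgroup :=
  ((h.fix s).1 hs).1

theorem Cc.one (h : Cc act π K c) : c 1 = 0 := by
  have h1 := h.mul 1 (Subgroup.one_mem _) 1 (Subgroup.one_mem _)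
  rw [mul_one, ac_one] at h1
  exact left_eq_add.mp h1

theorem Cc.inv (h : Cc act π K c) {s : Ω ≃ₐ[F] Ω} (hs : s ∈ K.fixingSubgroup) :
    ac (WAB A B) s (c s⁻¹) = -c s := by
  have h1 := h.mul s hs s⁻¹ (Subgroup.inv_mem _ hs)
  rw [mul_inv_cancel, h.one] at h1
  exact (neg_eq_of_add_eq_zero_right h1.symm).symm

end small

end H13X
end

-- from Lib.H55K.J4A
section

open Polynomial

namespace H55K.JJ

/-! Chunk J4A (M, PURE ALGEBRA). From hf: for u <> 0, prod (1 - f i u) = u^c prod (u^(-1) - f i) = 1 - u^c (c = S.card; also as an identity of polynomials R(X) = prod (1 - f i X) = 1 - X^c: it holds for infinitely many u if K is infinite; or by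
Polynomial.reverse; K may be assumed infinite: hK). With a_i = f i/(1 - f i u), A_k = sum a_i^k (1 - f i u <> 0 since the product is 1 - u^c <> 0), general identities for R = prod (1 - f i X) (Finset induction, evaluate derivatives at u):
R' = -R A1, R'' = R (A1^2 - A2), R''' = -R (A1^3 - 3 A1 A2 + 2 A3). For R = 1 - X^c: R' = -c X^(c-1), R'' = -c(c-1) X^(c-2), R''' = -c(c-1)(c-2) X^(c-3) (multiply by u, u^2, u^3: no negative exponents; w = u^c). So
u A1 = c w/(1-w), u^2 A2 = (u A1)^2 + c(c-1) w/(1-w), 2 u^3 A3 = -(u A1)^3 + 3 (u A1)(u^2 A2) + c(c-1)(c-2) w/(1-w).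
xu(f i u) = u a_i + u^2 a_i^2 and zu(f i u) = -(u a_i + 3 u^2 a_i^2 + 2 u^3 a_i^3). The sums: field_simp; ring. -/

theorem j4a_der {K : Type} [Field K] {ι : Type} (S : Finset ι) (f : ι → K) {v : K}
    (hv : ∀ i ∈ S, v - f i ≠ 0) :
    eval v (derivative (∏ i ∈ S, (X - C (f i)))) =
        (∏ i ∈ S, (v - f i)) * ∑ i ∈ S, (v - f i)⁻¹ ∧
    eval v (derivative (derivative (∏ i ∈ S, (X - C (f i))))) =
        (∏ i ∈ S, (v - f i)) * ((∑ i ∈ S, (v - f i)⁻¹) ^ 2 - ∑ i ∈ S, (v - f i)⁻¹ ^ 2) ∧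
    eval v (derivative (derivative (derivative (∏ i ∈ S, (X - C (f i)))))) =
        (∏ i ∈ S, (v - f i)) * ((∑ i ∈ S, (v - f i)⁻¹) ^ 3 -
          3 * (∑ i ∈ S, (v - f i)⁻¹) * (∑ i ∈ S, (v - f i)⁻¹ ^ 2) + 2 * ∑ i ∈ S, (v - f i)⁻¹ ^ 3) := by
  classical
  induction S using Finset.induction_on with
  | empty => simp
  | insert a S ha ih =>
    have hva : v - f a ≠ 0 := hv a (Finset.mem_insert_self a S)
    obtain ⟨i1, i2, i3⟩ := ih fun i hi => hv i (Finset.mem_insert_of_mem hi)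
    have i0 : eval v (∏ i ∈ S, (X - C (f i))) = ∏ i ∈ S, (v - f i) := by
      rw [eval_prod]
      simp
    set P := ∏ i ∈ S, (X - C (f i)) with hP
    have d1 : derivative ((X - C (f a)) * P) = P + (X - C (f a)) * derivative P := by
      rw [derivative_mul, derivative_sub, derivative_X, derivative_C]
      ring
    have d2 : derivative (derivative ((X - C (f a)) * P)) =
        2 * derivative P + (X - C (f a)) * derivative (derivative P) := by
      rw [d1, derivative_add, derivative_mul, derivative_sub, derivative_X, derivative_C]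
      ring
    have d3 : derivative (derivative (derivative ((X - C (f a)) * P))) =
        3 * derivative (derivative P) + (X - C (f a)) * derivative (derivative (derivative P)) := by
      have e2 : (2 : K[X]) = C 2 := (map_ofNat C 2).symm
      rw [d2, derivative_add, derivative_mul, e2, derivative_mul, derivative_sub, derivative_X,
        derivative_C, derivative_C, ← e2]
      ring
    rw [Finset.prod_insert ha, Finset.prod_insert ha, Finset.sum_insert ha, Finset.sum_insert ha,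
      Finset.sum_insert ha, ← hP, d3, d2, d1]
    simp only [eval_add, eval_mul, eval_sub, eval_X, eval_C, eval_ofNat, i0, i1, i2, i3]
    refine ⟨?_, ?_, ?_⟩
    · generalize ∑ i ∈ S, (v - f i)⁻¹ = B1
      generalize ∏ i ∈ S, (v - f i) = Q
      field_simp
      try ring
    · generalize ∑ i ∈ S, (v - f i)⁻¹ = B1
      generalize ∑ i ∈ S, (v - f i)⁻¹ ^ 2 = B2
      generalize ∏ i ∈ S, (v - f i) = Q
      field_simp
      ring
    · generalize ∑ i ∈ S, (v - f i)⁻¹ = B1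
      generalize ∑ i ∈ S, (v - f i)⁻¹ ^ 2 = B2
      generalize ∑ i ∈ S, (v - f i)⁻¹ ^ 3 = B3
      generalize ∏ i ∈ S, (v - f i) = Q
      field_simp
      ring

theorem j4a_alg {K : Type} [Field K] {v V c B1 B2 B3 : K} (hV : V - 1 ≠ 0)
    (x1 : v * ((V - 1) * B1) = c * V) (x2 : v ^ 2 * ((V - 1) * (B1 ^ 2 - B2)) = c * (c - 1) * V)
    (x3 : v ^ 3 * ((V - 1) * (B1 ^ 3 - 3 * B1 * B2 + 2 * B3)) = c * (c - 1) * (c - 2) * V) :
    v * B1 = c * (V / (V - 1)) ∧
    v ^ 2 * B2 = (c * (V / (V - 1))) ^ 2 - c * (c - 1) * (V / (V - 1)) ∧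
    2 * (v ^ 3 * B3) = c * (c - 1) * (c - 2) * (V / (V - 1)) - (c * (V / (V - 1))) ^ 3 +
      3 * (c * (V / (V - 1))) * ((c * (V / (V - 1))) ^ 2 - c * (c - 1) * (V / (V - 1))) := by
  obtain ⟨T, hT⟩ : ∃ T, T = V / (V - 1) := ⟨_, rfl⟩
  have hTV : V = (V - 1) * T := by
    rw [hT]
    field_simp
  rw [← hT]
  have e1 : v * B1 = c * T := by
    apply mul_left_cancel₀ hV
    linear_combination x1 + c * hTV
  have e2' : v ^ 2 * (B1 ^ 2 - B2) = c * (c - 1) * T := by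
    apply mul_left_cancel₀ hV
    linear_combination x2 + c * (c - 1) * hTV
  have e2 : v ^ 2 * B2 = (c * T) ^ 2 - c * (c - 1) * T := by
    rw [← e1]
    linear_combination -e2'
  have e3' : v ^ 3 * (B1 ^ 3 - 3 * B1 * B2 + 2 * B3) = c * (c - 1) * (c - 2) * T := by
    apply mul_left_cancel₀ hV
    linear_combination x3 + c * (c - 1) * (c - 2) * hTV
  refine ⟨e1, e2, ?_⟩
  rw [← e2, ← e1]
  linear_combination e3'

theorem j4a_X {K : Type} [Field K] (n : ℕ) (v : K) :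
    v * eval v (derivative (X ^ n - 1 : K[X])) = n * v ^ n ∧
    v ^ 2 * eval v (derivative (derivative (X ^ n - 1 : K[X]))) = n * (n - 1) * v ^ n ∧
    v ^ 3 * eval v (derivative (derivative (derivative (X ^ n - 1 : K[X])))) =
      n * (n - 1) * (n - 2) * v ^ n := by
  rcases n with _ | _ | _ | n
  · simp
  · simp
  · simp
    refine ⟨?_, ?_⟩
    · ring
    · ring
  · simp
    refine ⟨?_, ?_, ?_⟩
    · ring
    · ring
    · ring

theorem j4a_main {K : Type} [Field K] {ι : Type} (S : Finset ι) (f : ι → K)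
    (hf : ∏ i ∈ S, (X - C (f i)) = X ^ S.card - 1) {u : K} (hu : u ^ S.card ≠ 1) (hu0 : u ≠ 0) :
    ∃ (s : ι → K) (T : K), T ≠ 0 ∧ (∀ i ∈ S, s i ≠ 0 ∧ f i * u = (s i - 1) / s i) ∧
      u ^ S.card = (T - 1) / T ∧ ∑ i ∈ S, s i = S.card * T ∧
      ∑ i ∈ S, s i ^ 2 = (S.card * T) ^ 2 - S.card * (S.card - 1) * T ∧
      2 * ∑ i ∈ S, s i ^ 3 = S.card * (S.card - 1) * (S.card - 2) * T - (S.card * T) ^ 3 +
        3 * (S.card * T) * ((S.card * T) ^ 2 - S.card * (S.card - 1) * T) := by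
  set c := S.card with hc
  set v := u⁻¹ with hv
  have hv0 : v ≠ 0 := inv_ne_zero hu0
  have hP : ∏ i ∈ S, (v - f i) = v ^ c - 1 := by
    have := congrArg (eval v) hf
    rw [eval_prod] at this
    simpa using this
  have hvc : v ^ c - 1 ≠ 0 := by
    rw [hv, inv_pow, sub_ne_zero]
    intro h
    apply hu
    rw [inv_eq_one] at h
    exact h
  have hne : ∀ i ∈ S, v - f i ≠ 0 := by
    intro i hi h
    apply hvc
    rw [← hP]
    exact Finset.prod_eq_zero hi h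
  obtain ⟨d1, d2, d3⟩ := j4a_der S f hne
  obtain ⟨x1, x2, x3⟩ := j4a_X c v
  rw [hf, hP] at d1 d2 d3
  rw [d1] at x1
  rw [d2] at x2
  rw [d3] at x3
  have hT : v ^ c / (v ^ c - 1) ≠ 0 := div_ne_zero (pow_ne_zero _ hv0) hvc
  obtain ⟨e1, e2, e3⟩ := j4a_alg hvc x1 x2 x3
  refine ⟨fun i => v * (v - f i)⁻¹, v ^ c / (v ^ c - 1), hT, ?_, ?_, ?_, ?_, ?_⟩
  · intro i hi
    have h := hne i hi
    refine ⟨mul_ne_zero hv0 (inv_ne_zero h), ?_⟩
    have : u = v⁻¹ := by rw [hv, inv_inv]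
    rw [this]
    field_simp
    ring
  · have : u = v⁻¹ := by rw [hv, inv_inv]
    rw [this, inv_pow]
    have hvn : v ^ c ≠ 0 := pow_ne_zero _ hv0
    field_simp
    ring
  · rw [← Finset.mul_sum]
    exact e1
  · rw [← e2, Finset.mul_sum]
    exact Finset.sum_congr rfl fun i _ => by ring
  · rw [← e3, Finset.mul_sum (a := v ^ 3)]
    congr 1
    exact Finset.sum_congr rfl fun i _ => by ring

theorem j4a_xu {K : Type} [Field K] {s : K} (hs : s ≠ 0) : xu ((s - 1) / s) = s ^ 2 - s := by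
  have h : (s - 1) / s - 1 = -(1 / s) := by field_simp; ring
  unfold xu
  rw [h]
  field_simp

theorem j4a_zu {K : Type} [Field K] {s : K} (hs : s ≠ 0) :
    zu ((s - 1) / s) = -(2 * s ^ 3 - 3 * s ^ 2 + s) := by
  have h : (s - 1) / s - 1 = -(1 / s) := by field_simp; ring
  unfold zu
  rw [h]
  field_simp
  ring

theorem j4a_pos {K : Type} [Field K] {ι : Type} {S : Finset ι} {u : K} (hu : u ^ S.card ≠ 1) :
    S.card ≠ 0 := by
  intro h
  rw [h, pow_zero] at hu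
  exact hu rfl

theorem sum_xu {K : Type} [Field K] [Infinite K] {ι : Type} (S : Finset ι) (f : ι → K)
    (hf : ∏ i ∈ S, (X - C (f i)) = X ^ S.card - 1) {u : K} (hu : u ^ S.card ≠ 1) :
    ∑ i ∈ S, xu (f i * u) = (S.card : K) ^ 2 * xu (u ^ S.card) := by
  by_cases hu0 : u = 0
  · subst hu0
    rw [zero_pow (j4a_pos hu)]
    simp [xu]
  obtain ⟨s, T, hT, hs, hw, s1, s2, -⟩ := j4a_main S f hf hu hu0
  rw [hw, j4a_xu hT]
  have : ∀ i ∈ S, xu (f i * u) = s i ^ 2 - s i := by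
    intro i hi
    rw [(hs i hi).2, j4a_xu (hs i hi).1]
  rw [Finset.sum_congr rfl this, Finset.sum_sub_distrib, s1, s2]
  ring

theorem sum_zu {K : Type} [Field K] [Infinite K] {ι : Type} (S : Finset ι) (f : ι → K)
    (hf : ∏ i ∈ S, (X - C (f i)) = X ^ S.card - 1) {u : K} (hu : u ^ S.card ≠ 1) :
    ∑ i ∈ S, zu (f i * u) = (S.card : K) ^ 3 * zu (u ^ S.card) := by
  by_cases hu0 : u = 0
  · subst hu0
    rw [zero_pow (j4a_pos hu)]
    simp [zu]
  obtain ⟨s, T, hT, hs, hw, s1, s2, s3⟩ := j4a_main S f hf hu hu0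
  rw [hw, j4a_zu hT]
  have : ∀ i ∈ S, zu (f i * u) = -(2 * s i ^ 3 - 3 * s i ^ 2 + s i) := by
    intro i hi
    rw [(hs i hi).2, j4a_zu (hs i hi).1]
  rw [Finset.sum_congr rfl this, Finset.sum_neg_distrib, Finset.sum_add_distrib,
    Finset.sum_sub_distrib, ← Finset.mul_sum, ← Finset.mul_sum, s1, s2, s3]
  ring

end H55K.JJ
end

-- from Lib.H55K.C0
section

/-!
# H55K, part C: existence of the complex multiplication (definitions)

L is a PeriodPair, Λ = L.lattice. XL, YL: the coordinates of the point of y^2 = x^3 + A x + B with parameter z.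
-/

open NumberField WeierstrassCurve Polynomial

namespace H55K.CC

open H55P (IQ embF eF LF Per Pt ac mem_LF eF_inj eF_ne Nm Nm_eq)
open H35P (WAB)

/-- The x-coordinate of the point with parameter z. -/
noncomputable def XL (L : PeriodPair) (Om z : ℂ) : ℂ := L.weierstrassP z / Om ^ 2

/-- The y-coordinate of the point with parameter z. -/
noncomputable def YL (L : PeriodPair) (Om z : ℂ) : ℂ := L.derivWeierstrassP z / (2 * Om ^ 3)

/-- Λ is stable under β and S is a set of representatives of the nonzero classes of β⁻¹ Λ modulo Λ. -/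
structure Rep (L : PeriodPair) (β : ℂ) (S : Finset ℂ) : Prop where
  ne : β ≠ 0
  st : ∀ l ∈ L.lattice, β * l ∈ L.lattice
  mem : ∀ r ∈ S, β * r ∈ L.lattice
  out : ∀ r ∈ S, r ∉ L.lattice
  inj : ∀ r ∈ S, ∀ r' ∈ S, r - r' ∈ L.lattice → r = r'
  ex : ∀ w, β * w ∈ L.lattice → w ∈ L.lattice ∨ ∃ r ∈ S, w - r ∈ L.lattice

theorem Rep.z_out {L : PeriodPair} {β : ℂ} {S : Finset ℂ} (h : Rep L β S) {z : ℂ} (hz : β * z ∉ L.lattice) :
    z ∉ L.lattice := fun h0 => hz (h.st z h0)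

theorem Rep.zr_out {L : PeriodPair} {β : ℂ} {S : Finset ℂ} (h : Rep L β S) {z : ℂ} (hz : β * z ∉ L.lattice)
    {r : ℂ} (hr : r ∈ S) : z + r ∉ L.lattice := by
  intro h0
  apply hz
  have h1 := sub_mem (h.st _ h0) (h.mem r hr)
  have e1 : β * (z + r) - β * r = β * z := by ring
  rwa [e1] at h1

theorem Rep.zs_out {L : PeriodPair} {β : ℂ} {S : Finset ℂ} (h : Rep L β S) {z : ℂ} (hz : β * z ∉ L.lattice)
    {r : ℂ} (hr : r ∈ S) : z - r ∉ L.lattice := by
  intro h0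
  apply hz
  have h1 := add_mem (h.st _ h0) (h.mem r hr)
  have e1 : β * (z - r) + β * r = β * z := by ring
  rwa [e1] at h1

theorem wp_per (L : PeriodPair) (z : ℂ) {l : ℂ} (hl : l ∈ L.lattice) : L.weierstrassP (z + l) = L.weierstrassP z :=
  L.weierstrassP_add_coe z ⟨l, hl⟩

theorem wpd_per (L : PeriodPair) (z : ℂ) {l : ℂ} (hl : l ∈ L.lattice) :
    L.derivWeierstrassP (z + l) = L.derivWeierstrassP z :=
  L.derivWeierstrassP_add_coe z ⟨l, hl⟩

/-- The polynomials N, D describe multiplication by α on x-coordinates. -/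
structure ND {K : Type} [Field K] (α A B : K) (d : ℕ) (N D : K[X]) : Prop where
  dN : N.natDegree ≤ d + 1
  cN : α ^ 2 * N.coeff (d + 1) = 1
  dD : D.natDegree ≤ d
  cD : D.coeff d = 1
  ode : (X ^ 3 + C A * X + C B) * (derivative N * D - N * derivative D) ^ 2 =
    C (α ^ 2) * D * (N ^ 3 + C A * N * D ^ 2 + C B * D ^ 3)

section

variable {F : Type} [Field F] [NumberField F] [IQ F] {Ω : Type} [Field Ω] [DecidableEq Ω] [Algebra F Ω]

/-- The hypotheses. -/
structure CH (A B : F) (Om : ℂ) {Ω : Type} [Field Ω] [Algebra F Ω] (j : Ω →+* ℂ) : Prop where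
  disc : 4 * A ^ 3 + 27 * B ^ 2 ≠ 0
  per : Per F (embF F A) (embF F B) Om
  ovr : ∀ x : F, j (algebraMap F Ω x) = embF F x

/-- The point P has the parameter z. -/
def U (A B : F) (Om : ℂ) (j : Ω →+* ℂ) (P : Pt (WAB A B) Ω) (z : ℂ) : Prop :=
  (P = 0 ∧ z ∈ (LF F).lattice) ∨
  (P ≠ 0 ∧ z ∉ (LF F).lattice ∧ j (xc P) = XL (LF F) Om z ∧ j (yc P) = YL (LF F) Om z)

/-- The action of the integers. -/
def Act (A B : F) (Om : ℂ) (j : Ω →+* ℂ) (act : 𝓞 F →+* AddMonoid.End (Pt (WAB A B) Ω)) : Prop :=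
  ∀ (a : 𝓞 F) (P : Pt (WAB A B) Ω) (z : ℂ), U A B Om j P z → U A B Om j (act a P) (eF F a * z)

omit [DecidableEq Ω] in
theorem U.zero_iff {A B : F} {Om : ℂ} {j : Ω →+* ℂ} {P : Pt (WAB A B) Ω} {z : ℂ} (h : U A B Om j P z) :
    P = 0 ↔ z ∈ (LF F).lattice := by
  rcases h with ⟨h1, h2⟩ | ⟨h1, h2, -, -⟩
  · exact ⟨fun _ => h2, fun _ => h1⟩
  · exact ⟨fun h => absurd h h1, fun h => absurd h h2⟩

omit [DecidableEq Ω] in
theorem U.xc_eq {A B : F} {Om : ℂ} {j : Ω →+* ℂ} {P : Pt (WAB A B) Ω} {z : ℂ} (h : U A B Om j P z)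
    (h0 : z ∉ (LF F).lattice) : j (xc P) = XL (LF F) Om z := by
  rcases h with ⟨h1, h2⟩ | ⟨h1, h2, h3, -⟩
  · exact absurd h2 h0
  · exact h3

omit [DecidableEq Ω] in
theorem U.yc_eq {A B : F} {Om : ℂ} {j : Ω →+* ℂ} {P : Pt (WAB A B) Ω} {z : ℂ} (h : U A B Om j P z)
    (h0 : z ∉ (LF F).lattice) : j (yc P) = YL (LF F) Om z := by
  rcases h with ⟨h1, h2⟩ | ⟨h1, h2, -, h3⟩
  · exact absurd h2 h0
  · exact h3

end

end H55K.CC
end

-- from Lib.H55K.C2
section

namespace H55K.CC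

/-! Chunk C2 (M). D(z) = β^2 wp(β z) - wp z - sum over r in S of wp(z + r). Periodic (h.st, wp_per). Local: let T = insert 0 S (0 is not in S by h.out).
(i) β z0 not in Λ: D is analytic at z0 (Rep.z_out, Rep.zr_out, H35P.wp_analytic, composition with z -> β z and z -> z + r).
(ii) β z0 in Λ: there is r0 in T with z0 + r0 in Λ (h.ex applied to -z0) and it is unique (h.inj, h.out): the other z0 + r, r in T, are not in Λ. u from H35P.wp_zero. For z near z0, z <> z0: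
wp(z + r0) = wp(z - z0) = ((z - z0)^2)^(-1) + u(z - z0) and wp(β z) = wp(β (z - z0)) = (β^2 (z - z0)^2)^(-1) + u(β (z - z0)) (wp_per), so
D(z) = a(z) := β^2 u(β (z - z0)) - u(z - z0) - sum over r in T, r <> r0 of wp(z + r), analytic at z0.
H35P.liouville gives c; at z0 = 0 (r0 = 0, u 0 = 0): c = a(0) = - sum over S of wp r. At z with β z not in Λ (take a = D): D(z) = c. -/

/-- The difference. -/
noncomputable def c2_D (L : PeriodPair) (β : ℂ) (T : Finset ℂ) (z : ℂ) : ℂ :=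
  β ^ 2 * L.weierstrassP (β * z) - ∑ r ∈ T, L.weierstrassP (z + r)

theorem c2_zero_notMem {L : PeriodPair} {β : ℂ} {S : Finset ℂ} (h : Rep L β S) : (0 : ℂ) ∉ S :=
  fun h0 => h.out 0 h0 (zero_mem _)

theorem c2_per {L : PeriodPair} {β : ℂ} {S : Finset ℂ} (h : Rep L β S) (T : Finset ℂ) (z : ℂ) (l : ℂ)
    (hl : l ∈ L.lattice) : c2_D L β T (z + l) = c2_D L β T z := by
  unfold c2_D
  rw [mul_add, wp_per L (β * z) (h.st l hl)]
  congr 1
  refine Finset.sum_congr rfl fun r _ => ?_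
  rw [show z + l + r = z + r + l by ring, wp_per L (z + r) hl]

open Classical in
theorem c2_out {L : PeriodPair} {β : ℂ} {S : Finset ℂ} (h : Rep L β S) {z₀ r₀ : ℂ} (hr₀ : r₀ ∈ insert 0 S)
    (h0 : z₀ + r₀ ∈ L.lattice) {r : ℂ} (hr : r ∈ (insert 0 S).erase r₀) : z₀ + r ∉ L.lattice := by
  intro h1
  have hd : r - r₀ ∈ L.lattice := by
    have := sub_mem h1 h0
    rwa [show z₀ + r - (z₀ + r₀) = r - r₀ by ring] at this
  rw [Finset.mem_erase, Finset.mem_insert] at hr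
  rw [Finset.mem_insert] at hr₀
  obtain ⟨hne, hr⟩ := hr
  rcases hr with rfl | hr
  · rcases hr₀ with rfl | hr₀
    · exact hne rfl
    · rw [zero_sub, neg_mem_iff] at hd
      exact h.out _ hr₀ hd
  · rcases hr₀ with rfl | hr₀
    · rw [sub_zero] at hd
      exact h.out _ hr hd
    · exact hne (h.inj r hr r₀ hr₀ hd)

theorem c2_an {L : PeriodPair} {z₀ r : ℂ} (h : z₀ + r ∉ L.lattice) :
    AnalyticAt ℂ (fun z => L.weierstrassP (z + r)) z₀ := by
  have h1 : AnalyticAt ℂ L.weierstrassP ((fun z : ℂ => z + r) z₀) := H35P.wp_analytic L _ h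
  exact h1.comp (f := fun z : ℂ => z + r) (by fun_prop)

open Classical in
theorem c2_loc {L : PeriodPair} {β : ℂ} {S : Finset ℂ} (h : Rep L β S) {z₀ r₀ : ℂ} (hr₀ : r₀ ∈ insert 0 S)
    (h0 : z₀ + r₀ ∈ L.lattice) {u : ℂ → ℂ} (hu : AnalyticAt ℂ u 0)
    (hwp : ∀ z : ℂ, z ≠ 0 → L.weierstrassP z = (z ^ 2)⁻¹ + u z) :
    AnalyticAt ℂ (fun z => β ^ 2 * u (β * (z - z₀)) - u (z - z₀) -
      ∑ r ∈ (insert 0 S).erase r₀, L.weierstrassP (z + r)) z₀ ∧
    ∀ z, z ≠ z₀ → c2_D L β (insert 0 S) z = β ^ 2 * u (β * (z - z₀)) - u (z - z₀) -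
      ∑ r ∈ (insert 0 S).erase r₀, L.weierstrassP (z + r) := by
  constructor
  · have h1 : AnalyticAt ℂ (fun z => u (β * (z - z₀))) z₀ := by
      have e : AnalyticAt ℂ u ((fun z : ℂ => β * (z - z₀)) z₀) := by simpa using hu
      exact e.comp (f := fun z : ℂ => β * (z - z₀)) (by fun_prop)
    have h2 : AnalyticAt ℂ (fun z => u (z - z₀)) z₀ := by
      have e : AnalyticAt ℂ u ((fun z : ℂ => z - z₀) z₀) := by simpa using hu
      exact e.comp (f := fun z : ℂ => z - z₀) (by fun_prop)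
    have h3 : AnalyticAt ℂ (fun z => ∑ r ∈ (insert 0 S).erase r₀, L.weierstrassP (z + r)) z₀ :=
      Finset.analyticAt_fun_sum _ fun r hr => c2_an (c2_out h hr₀ h0 hr)
    exact ((analyticAt_const.mul h1).sub h2).sub h3
  · intro z hz
    have hz' : z - z₀ ≠ 0 := sub_ne_zero.2 hz
    have hb : β * z₀ ∈ L.lattice := by
      have h1 := h.st _ h0
      have h2 : β * r₀ ∈ L.lattice := by
        rw [Finset.mem_insert] at hr₀
        rcases hr₀ with rfl | hr₀
        · rw [mul_zero]; exact zero_mem _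
        · exact h.mem _ hr₀
      have := sub_mem h1 h2
      rwa [show β * (z₀ + r₀) - β * r₀ = β * z₀ by ring] at this
    have e1 : L.weierstrassP (β * z) = ((β * (z - z₀)) ^ 2)⁻¹ + u (β * (z - z₀)) := by
      rw [← hwp _ (mul_ne_zero h.ne hz'), ← wp_per L (β * (z - z₀)) hb]
      congr 1
      ring
    have e2 : L.weierstrassP (z + r₀) = ((z - z₀) ^ 2)⁻¹ + u (z - z₀) := by
      rw [← hwp _ hz', ← wp_per L (z - z₀) h0]
      congr 1
      ring
    unfold c2_D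
    rw [← Finset.add_sum_erase _ _ hr₀, e1, e2]
    have hβ := h.ne
    field_simp
    ring

open Classical in
/-- (E1) -/
theorem E1 {L : PeriodPair} {β : ℂ} {S : Finset ℂ} (h : Rep L β S) {z : ℂ} (hz : β * z ∉ L.lattice) :
    β ^ 2 * L.weierstrassP (β * z) =
      L.weierstrassP z + ∑ r ∈ S, (L.weierstrassP (z + r) - L.weierstrassP r) := by
  obtain ⟨u, hu, hu0, hwp⟩ := H35P.wp_zero L
  have han : ∀ z₀, β * z₀ ∉ L.lattice → AnalyticAt ℂ (c2_D L β (insert 0 S)) z₀ := by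
    intro z₀ hz₀
    have h1 : AnalyticAt ℂ (fun z => L.weierstrassP (β * z)) z₀ := by
      have e : AnalyticAt ℂ L.weierstrassP ((fun z : ℂ => β * z) z₀) := H35P.wp_analytic L _ hz₀
      exact e.comp (f := fun z : ℂ => β * z) (by fun_prop)
    have h3 : AnalyticAt ℂ (fun z => ∑ r ∈ insert 0 S, L.weierstrassP (z + r)) z₀ := by
      refine Finset.analyticAt_fun_sum _ fun r hr => c2_an ?_
      rw [Finset.mem_insert] at hr
      rcases hr with rfl | hr
      · rw [add_zero]; exact h.z_out hz₀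
      · exact h.zr_out hz₀ hr
    exact (analyticAt_const.mul h1).sub h3
  obtain ⟨c, hc⟩ := H35P.liouville L (c2_D L β (insert 0 S)) (fun z l hl => c2_per h _ z l hl) (by
    intro z₀
    by_cases hz₀ : β * z₀ ∈ L.lattice
    · obtain ⟨r₀, hr₀, h0⟩ : ∃ r₀ ∈ insert 0 S, z₀ + r₀ ∈ L.lattice := by
        have h1 : β * (-z₀) ∈ L.lattice := by
          rw [mul_neg, neg_mem_iff]; exact hz₀
        rcases h.ex _ h1 with h2 | ⟨r, hr, h2⟩
        · exact ⟨0, Finset.mem_insert_self _ _, by rw [add_zero]; exact neg_mem_iff.1 h2⟩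
        · refine ⟨r, Finset.mem_insert_of_mem hr, ?_⟩
          rw [← neg_mem_iff]
          rwa [show -(z₀ + r) = -z₀ - r by ring]
      obtain ⟨k1, k2⟩ := c2_loc h hr₀ h0 hu hwp
      refine ⟨_, k1, ?_⟩
      filter_upwards [self_mem_nhdsWithin] with z hz using k2 z hz
    · exact ⟨_, han z₀ hz₀, Filter.Eventually.of_forall fun z => rfl⟩)
  have h0 : (0 : ℂ) + 0 ∈ L.lattice := by rw [add_zero]; exact zero_mem _
  obtain ⟨k1, k2⟩ := c2_loc h (Finset.mem_insert_self 0 S) h0 hu hwp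
  have e1 := hc 0 _ k1.continuousAt (by
    filter_upwards [self_mem_nhdsWithin] with z hz using k2 z hz)
  have e2 := hc z _ (han z hz).continuousAt (Filter.Eventually.of_forall fun z => rfl)
  rw [← e1] at e2
  simp only [sub_zero, mul_zero, hu0, zero_add, zero_sub] at e2
  rw [Finset.erase_insert (c2_zero_notMem h)] at e2
  unfold c2_D at e2
  rw [Finset.sum_insert (c2_zero_notMem h), add_zero] at e2
  rw [Finset.sum_sub_distrib]
  linear_combination e2

end H55K.CC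
end

-- from Lib.H55K.C3
section

namespace H55K.CC

/-! Chunk C3 (S): differentiate E1 at z (E1 holds in a neighbourhood of z since {β t not in Λ} is open: H35P.compl_open): HasDerivAt of both sides (H35P.wp_hasDeriv, chain rule, HasDerivAt.fun_sum),
HasDerivAt.unique after congr_of_eventuallyEq. -/

theorem E1d {L : PeriodPair} {β : ℂ} {S : Finset ℂ} (h : Rep L β S) {z : ℂ} (hz : β * z ∉ L.lattice) :
    β ^ 3 * L.derivWeierstrassP (β * z) =
      L.derivWeierstrassP z + ∑ r ∈ S, L.derivWeierstrassP (z + r) := by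
  have hz0 := h.z_out hz
  have hL : HasDerivAt (fun t => β ^ 2 * L.weierstrassP (β * t))
      (β ^ 2 * (L.derivWeierstrassP (β * z) * β)) z := by
    have h1 := H35P.wp_hasDeriv L (β * z) hz
    have h2 : HasDerivAt (fun t : ℂ => β * t) β z := by
      simpa using (hasDerivAt_id z).const_mul β
    exact (HasDerivAt.comp z h1 h2).const_mul (β ^ 2)
  have hR : HasDerivAt (fun t => L.weierstrassP t +
      ∑ r ∈ S, (L.weierstrassP (t + r) - L.weierstrassP r))
      (L.derivWeierstrassP z + ∑ r ∈ S, L.derivWeierstrassP (z + r)) z := by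
    refine (H35P.wp_hasDeriv L z hz0).add (HasDerivAt.fun_sum fun r hr => ?_)
    exact ((H35P.wp_hasDeriv L (z + r) (h.zr_out hz hr)).comp_add_const z r).sub_const _
  have hev : (fun t => β ^ 2 * L.weierstrassP (β * t)) =ᶠ[nhds z]
      (fun t => L.weierstrassP t + ∑ r ∈ S, (L.weierstrassP (t + r) - L.weierstrassP r)) := by
    have hopen : IsOpen {t : ℂ | β * t ∉ L.lattice} :=
      (H35P.compl_open L).preimage (by fun_prop)
    filter_upwards [hopen.mem_nhds hz] with t ht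
    exact E1 h ht
  have h3 := hL.unique (hR.congr_of_eventuallyEq hev)
  rw [← h3]
  ring

end H55K.CC
end

-- from Lib.H55K.M4B
section

open NumberField WeierstrassCurve

namespace H55K.MG

open H55P (IQ Pt ac Inert)
open H35P (WAB Ker GoodW IntW)

variable {F : Type} [Field F] {Ω : Type} [Field Ω] [DecidableEq Ω] [Algebra F Ω] {W : WeierstrassCurve F}
  {W' : WeierstrassCurve Ω} {u r s t : Ω} {Θ : (W⁄Ω).toAffine.Point ≃+ W'.toAffine.Point}

/-! Chunk M4B (S/M). ac_crd: cases on P; ac is Affine.Point.map: map_some, rfl; ac W g P = 0 iff P = 0. tilde: P <> 0: xc (ac W g P) = g (xc P), so u^2 X + r = (g u)^2 (g x') + g r with X = xc (Θ (ac W g P)), x' = xc (Θ P);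
the same for y; divide by u^2, u^3 (field_simp, linear_combination). -/

theorem ac_crd (g : Ω ≃ₐ[F] Ω) (P : Pt W Ω) : xc (ac W g P) = g (xc P) ∧ yc (ac W g P) = g (yc P) ∧
    (ac W g P = 0 ↔ P = 0) := by
  rcases P with _ | ⟨x, y, h⟩
  · have h0 : ac W g (Affine.Point.zero : Pt W Ω) = 0 := map_zero _
    rw [h0]
    exact ⟨(map_zero g).symm, (map_zero g).symm, ⟨fun _ => rfl, fun _ => rfl⟩⟩
  · have h1 : ac W g (Affine.Point.some x y h : Pt W Ω) ≠ 0 := by
      unfold ac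
      rw [Affine.Point.map_some]
      exact Affine.Point.some_ne_zero _
    refine ⟨?_, ?_, ⟨fun h2 => absurd h2 h1, fun h2 => absurd h2 (Affine.Point.some_ne_zero _)⟩⟩
    · unfold ac
      rw [Affine.Point.map_some]
      rfl
    · unfold ac
      rw [Affine.Point.map_some]
      rfl

theorem tilde (hu : u ≠ 0) (hc : Crd u r s t Θ) (g : Ω ≃ₐ[F] Ω) {P : Pt W Ω} (h0 : P ≠ 0) :
    xc (Θ (ac W g P)) = (g u / u) ^ 2 * g (xc (Θ P)) + (g r - r) / u ^ 2 ∧
    yc (Θ (ac W g P)) = (g u / u) ^ 3 * g (yc (Θ P)) + (g u ^ 2 * (g s - s) / u ^ 3) * g (xc (Θ P)) +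
      (g t - t - s * (g r - r)) / u ^ 3 := by
  obtain ⟨a1, a2, a3⟩ := ac_crd g P
  obtain ⟨-, b2, b3⟩ := hc P h0
  obtain ⟨-, c2, c3⟩ := hc (ac W g P) (fun h => h0 (a3.1 h))
  rw [a1, b2, map_add, map_mul, map_pow] at c2
  rw [a2, b3, map_add, map_add, map_mul, map_mul, map_mul, map_pow, map_pow] at c3
  obtain ⟨X, hX⟩ : ∃ X, X = xc (Θ (ac W g P)) := ⟨_, rfl⟩
  obtain ⟨Y, hY⟩ : ∃ Y, Y = yc (Θ (ac W g P)) := ⟨_, rfl⟩
  rw [← hX] at c2 c3 ⊢
  rw [← hY] at c3 ⊢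
  constructor
  · field_simp
    linear_combination -c2
  · field_simp
    linear_combination -c3 + s * c2

end H55K.MG
end

-- from Lib.H55K.T0
section

/-! # H55K: part T: bad reduction stays bad in p-extensions (definitions) -/

open NumberField IsDedekindDomain WeierstrassCurve

namespace H55K.TQ

open H55P (IQ embF eF LF Per IsHecke Pt ac Inert Dec Nm UnitP)
open H35P (WAB Ker tt GoodW IntW)
open H55K.MG (VC Crd)

/-- W (over Ω) has a good equation at V after a change of variables with coefficients in the set M. -/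
def GMd {Ω : Type} [Field Ω] (W : WeierstrassCurve Ω) (V : ValuationSubring Ω) (M : Set Ω) : Prop :=
  ∃ (W' : WeierstrassCurve Ω) (u r s t : Ω), u ∈ M ∧ r ∈ M ∧ s ∈ M ∧ t ∈ M ∧ VC W W' u r s t ∧ GoodW W' V

end H55K.TQ
end

-- from Lib.H55K.M1A
section

open NumberField WeierstrassCurve

namespace H55K.MG

open H35P (WAB Ker GoodW IntW)

variable {k : Type} [Field k] {W W' : WeierstrassCurve k} {u r s t : k}

/-! Chunk M1A (M, several polynomial identities). Port of PS4_eq, PS4_negY, PS4_cond, PS4_slope, PS4_addX, PS4_addY in Lib/H55P/S4.lean to a general change of variables. vc_eq: Affine.equation_iff; the equation of W at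
(u^2 x + r, u^3 y + s u^2 x + t) is u^6 times the equation of W' (linear_combination with h.h1 .. h.h6, cancel u^6). vc_slope: x1 = x2: slope_of_Y_ne, the numerator of W is u^4 (numerator of W') + s u^3 (denominator of W'), the denominator is
u^3 times that of W' (vc_negY; it is not 0); x1 <> x2: slope_of_X_ne. -/

theorem vc_eq (h : VC W W' u r s t) (x y : k) : W'.toAffine.Equation x y ↔
    W.toAffine.Equation (u ^ 2 * x + r) (u ^ 3 * y + s * u ^ 2 * x + t) := by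
  have h1 : u * W'.toAffine.a₁ = W.toAffine.a₁ + 2 * s := h.h1
  have h2 : u ^ 2 * W'.toAffine.a₂ = W.toAffine.a₂ - s * W.toAffine.a₁ + 3 * r - s ^ 2 := h.h2
  have h3 : u ^ 3 * W'.toAffine.a₃ = W.toAffine.a₃ + r * W.toAffine.a₁ + 2 * t := h.h3
  have h4 : u ^ 4 * W'.toAffine.a₄ = W.toAffine.a₄ - s * W.toAffine.a₃ + 2 * r * W.toAffine.a₂ -
    (t + r * s) * W.toAffine.a₁ + 3 * r ^ 2 - 2 * s * t := h.h4
  have h6 : u ^ 6 * W'.toAffine.a₆ = W.toAffine.a₆ + r * W.toAffine.a₄ + r ^ 2 * W.toAffine.a₂ + r ^ 3 -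
    t * W.toAffine.a₃ - t ^ 2 - r * t * W.toAffine.a₁ := h.h6

  rw [Affine.equation_iff', Affine.equation_iff']
  have key : (u ^ 3 * y + s * u ^ 2 * x + t) ^ 2 + W.toAffine.a₁ * (u ^ 2 * x + r) * (u ^ 3 * y + s * u ^ 2 * x + t) +
      W.toAffine.a₃ * (u ^ 3 * y + s * u ^ 2 * x + t) - ((u ^ 2 * x + r) ^ 3 + W.toAffine.a₂ * (u ^ 2 * x + r) ^ 2 +
      W.toAffine.a₄ * (u ^ 2 * x + r) + W.toAffine.a₆) = u ^ 6 * (y ^ 2 + W'.toAffine.a₁ * x * y +
      W'.toAffine.a₃ * y - (x ^ 3 + W'.toAffine.a₂ * x ^ 2 + W'.toAffine.a₄ * x + W'.toAffine.a₆)) := by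
    linear_combination (-(u ^ 5 * x * y)) * h1 + u ^ 4 * x ^ 2 * h2 - u ^ 3 * y * h3 + u ^ 2 * x * h4 + h6
  rw [key]
  constructor
  · intro e
    rw [e, mul_zero]
  · intro e
    exact (mul_eq_zero.1 e).resolve_left (pow_ne_zero 6 h.une)

theorem vc_negY (h : VC W W' u r s t) (x y : k) :
    W.toAffine.negY (u ^ 2 * x + r) (u ^ 3 * y + s * u ^ 2 * x + t) =
      u ^ 3 * W'.toAffine.negY x y + s * u ^ 2 * x + t := by
  have h1 : u * W'.toAffine.a₁ = W.toAffine.a₁ + 2 * s := h.h1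
  have h2 : u ^ 2 * W'.toAffine.a₂ = W.toAffine.a₂ - s * W.toAffine.a₁ + 3 * r - s ^ 2 := h.h2
  have h3 : u ^ 3 * W'.toAffine.a₃ = W.toAffine.a₃ + r * W.toAffine.a₁ + 2 * t := h.h3
  have h4 : u ^ 4 * W'.toAffine.a₄ = W.toAffine.a₄ - s * W.toAffine.a₃ + 2 * r * W.toAffine.a₂ -
    (t + r * s) * W.toAffine.a₁ + 3 * r ^ 2 - 2 * s * t := h.h4
  have h6 : u ^ 6 * W'.toAffine.a₆ = W.toAffine.a₆ + r * W.toAffine.a₄ + r ^ 2 * W.toAffine.a₂ + r ^ 3 -
    t * W.toAffine.a₃ - t ^ 2 - r * t * W.toAffine.a₁ := h.h6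

  rw [Affine.negY, Affine.negY]
  linear_combination u ^ 2 * x * h1 + h3

theorem vc_cond (h : VC W W' u r s t) (x₁ y₁ x₂ y₂ : k) :
    (u ^ 2 * x₁ + r = u ^ 2 * x₂ + r ∧ u ^ 3 * y₁ + s * u ^ 2 * x₁ + t =
      W.toAffine.negY (u ^ 2 * x₂ + r) (u ^ 3 * y₂ + s * u ^ 2 * x₂ + t)) ↔
      (x₁ = x₂ ∧ y₁ = W'.toAffine.negY x₂ y₂) := by
  rw [vc_negY h]
  have hu2 : u ^ 2 ≠ 0 := pow_ne_zero 2 h.une
  have hu3 : u ^ 3 ≠ 0 := pow_ne_zero 3 h.une
  constructor
  · rintro ⟨e1, e2⟩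
    have e3 : x₁ = x₂ := mul_left_cancel₀ hu2 (by linear_combination e1)
    refine ⟨e3, ?_⟩
    rw [e3] at e2
    exact mul_left_cancel₀ hu3 (by linear_combination e2)
  · rintro ⟨e1, e2⟩
    rw [e1, e2]
    exact ⟨rfl, rfl⟩

theorem vc_slope [DecidableEq k] (h : VC W W' u r s t) {x₁ y₁ x₂ y₂ : k}
    (E₁ : W'.toAffine.Equation x₁ y₁) (E₂ : W'.toAffine.Equation x₂ y₂)
    (hxy : ¬(x₁ = x₂ ∧ y₁ = W'.toAffine.negY x₂ y₂)) :
    W.toAffine.slope (u ^ 2 * x₁ + r) (u ^ 2 * x₂ + r) (u ^ 3 * y₁ + s * u ^ 2 * x₁ + t)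
      (u ^ 3 * y₂ + s * u ^ 2 * x₂ + t) = u * W'.toAffine.slope x₁ x₂ y₁ y₂ + s := by
  have h1 : u * W'.toAffine.a₁ = W.toAffine.a₁ + 2 * s := h.h1
  have h2 : u ^ 2 * W'.toAffine.a₂ = W.toAffine.a₂ - s * W.toAffine.a₁ + 3 * r - s ^ 2 := h.h2
  have h3 : u ^ 3 * W'.toAffine.a₃ = W.toAffine.a₃ + r * W.toAffine.a₁ + 2 * t := h.h3
  have h4 : u ^ 4 * W'.toAffine.a₄ = W.toAffine.a₄ - s * W.toAffine.a₃ + 2 * r * W.toAffine.a₂ -
    (t + r * s) * W.toAffine.a₁ + 3 * r ^ 2 - 2 * s * t := h.h4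
  have h6 : u ^ 6 * W'.toAffine.a₆ = W.toAffine.a₆ + r * W.toAffine.a₄ + r ^ 2 * W.toAffine.a₂ + r ^ 3 -
    t * W.toAffine.a₃ - t ^ 2 - r * t * W.toAffine.a₁ := h.h6

  have hu2 : u ^ 2 ≠ 0 := pow_ne_zero 2 h.une
  have hu3 : u ^ 3 ≠ 0 := pow_ne_zero 3 h.une
  by_cases hx : x₁ = x₂
  · have hy : y₁ ≠ W'.toAffine.negY x₂ y₂ := fun e => hxy ⟨hx, e⟩
    have hy' : u ^ 3 * y₁ + s * u ^ 2 * x₁ + t ≠ W.toAffine.negY (u ^ 2 * x₂ + r) (u ^ 3 * y₂ + s * u ^ 2 * x₂ + t) :=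
      fun e => hxy ((vc_cond h x₁ y₁ x₂ y₂).1 ⟨by rw [hx], e⟩)
    have hyy : y₁ = y₂ := Affine.Y_eq_of_Y_ne E₁ E₂ hx hy
    rw [Affine.slope_of_Y_ne (by rw [hx]) hy', Affine.slope_of_Y_ne hx hy, vc_negY h]
    have hne : y₁ - W'.toAffine.negY x₁ y₁ ≠ 0 := by
      rw [sub_ne_zero]
      rw [← hx, ← hyy] at hy
      exact hy
    have e5 : u ^ 3 * y₁ + s * u ^ 2 * x₁ + t - (u ^ 3 * W'.toAffine.negY x₁ y₁ + s * u ^ 2 * x₁ + t) =
        u ^ 3 * (y₁ - W'.toAffine.negY x₁ y₁) := by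
      ring
    rw [e5, mul_div_assoc', div_add' _ _ _ hne, div_eq_div_iff (mul_ne_zero hu3 hne) hne]
    have e6 : 3 * (u ^ 2 * x₁ + r) ^ 2 + 2 * W.toAffine.a₂ * (u ^ 2 * x₁ + r) + W.toAffine.a₄ -
        W.toAffine.a₁ * (u ^ 3 * y₁ + s * u ^ 2 * x₁ + t) =
        u ^ 4 * (3 * x₁ ^ 2 + 2 * W'.toAffine.a₂ * x₁ + W'.toAffine.a₄ - W'.toAffine.a₁ * y₁) +
        s * u ^ 3 * (y₁ - W'.toAffine.negY x₁ y₁) := by
      rw [Affine.negY]
      linear_combination (u ^ 3 * y₁ - s * u ^ 2 * x₁) * h1 - 2 * u ^ 2 * x₁ * h2 - s * h3 - h4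
    rw [e6]
    ring
  · have hx' : u ^ 2 * x₁ + r ≠ u ^ 2 * x₂ + r := fun e => hx (mul_left_cancel₀ hu2 (by linear_combination e))
    have h0 : x₁ - x₂ ≠ 0 := sub_ne_zero.2 hx
    have h0' : u ^ 2 * x₁ + r - (u ^ 2 * x₂ + r) ≠ 0 := sub_ne_zero.2 hx'
    rw [Affine.slope_of_X_ne hx', Affine.slope_of_X_ne hx, mul_div_assoc', div_add' _ _ _ h0, div_eq_div_iff h0' h0]
    ring

theorem vc_addX (h : VC W W' u r s t) (x₁ x₂ l : k) :
    W.toAffine.addX (u ^ 2 * x₁ + r) (u ^ 2 * x₂ + r) (u * l + s) = u ^ 2 * W'.toAffine.addX x₁ x₂ l + r := by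
  have h1 : u * W'.toAffine.a₁ = W.toAffine.a₁ + 2 * s := h.h1
  have h2 : u ^ 2 * W'.toAffine.a₂ = W.toAffine.a₂ - s * W.toAffine.a₁ + 3 * r - s ^ 2 := h.h2
  have h3 : u ^ 3 * W'.toAffine.a₃ = W.toAffine.a₃ + r * W.toAffine.a₁ + 2 * t := h.h3
  have h4 : u ^ 4 * W'.toAffine.a₄ = W.toAffine.a₄ - s * W.toAffine.a₃ + 2 * r * W.toAffine.a₂ -
    (t + r * s) * W.toAffine.a₁ + 3 * r ^ 2 - 2 * s * t := h.h4
  have h6 : u ^ 6 * W'.toAffine.a₆ = W.toAffine.a₆ + r * W.toAffine.a₄ + r ^ 2 * W.toAffine.a₂ + r ^ 3 -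
    t * W.toAffine.a₃ - t ^ 2 - r * t * W.toAffine.a₁ := h.h6

  rw [Affine.addX, Affine.addX]
  linear_combination (-(u * l)) * h1 + h2

theorem vc_addY (h : VC W W' u r s t) (x₁ x₂ y₁ l : k) :
    W.toAffine.addY (u ^ 2 * x₁ + r) (u ^ 2 * x₂ + r) (u ^ 3 * y₁ + s * u ^ 2 * x₁ + t) (u * l + s) =
      u ^ 3 * W'.toAffine.addY x₁ x₂ y₁ l + s * u ^ 2 * W'.toAffine.addX x₁ x₂ l + t := by
  rw [Affine.addY, Affine.addY, ← vc_negY h, Affine.negAddY, Affine.negAddY, vc_addX h]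
  congr 1
  ring

end H55K.MG
end

-- from Lib.H55K.M1B
section

open NumberField WeierstrassCurve

namespace H55K.MG

open H35P (WAB Ker GoodW IntW)

variable {k : Type} [Field k] {W W' : WeierstrassCurve k} {u r s t : k}

/-! Chunk M1B (M). Port of PS4_ns .. PS4_iso in Lib/H55P/S4.lean. All points of W, W' are nonsingular (Affine.equation_iff_nonsingular_of_Δ_ne_zero as in Lib/H35P/B1.lean). Map f : W' points -> W points, some x y to
some (u^2 x + r) (u^3 y + s u^2 x + t) (vc_eq), additive by vc_cond, vc_slope, vc_addX, vc_addY (cases), injective, surjective (x' = (x - r)/u^2, y' = (y - s (x - r) - t)/u^3). Θ is the inverse of f. -/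

theorem m1b_ns (h : VC W W' u r s t) (h1 : W.Δ ≠ 0) (h2 : W'.Δ ≠ 0) (x y : k) :
    W'.toAffine.Nonsingular x y ↔ W.toAffine.Nonsingular (u ^ 2 * x + r) (u ^ 3 * y + s * u ^ 2 * x + t) := by
  rw [← Affine.equation_iff_nonsingular_of_Δ_ne_zero h2, ← Affine.equation_iff_nonsingular_of_Δ_ne_zero h1]
  exact vc_eq h x y

/-- The map on points. -/
noncomputable def m1b_f (h : VC W W' u r s t) (h1 : W.Δ ≠ 0) (h2 : W'.Δ ≠ 0) :
    W'.toAffine.Point → W.toAffine.Point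
  | 0 => 0
  | .some x y hxy => .some (u ^ 2 * x + r) (u ^ 3 * y + s * u ^ 2 * x + t) ((m1b_ns h h1 h2 x y).1 hxy)

theorem m1b_f_add [DecidableEq k] (h : VC W W' u r s t) (h1 : W.Δ ≠ 0) (h2 : W'.Δ ≠ 0)
    (P Q : W'.toAffine.Point) : m1b_f h h1 h2 (P + Q) = m1b_f h h1 h2 P + m1b_f h h1 h2 Q := by
  rcases P with _ | ⟨x₁, y₁, g₁⟩
  · change m1b_f h h1 h2 (0 + Q) = 0 + m1b_f h h1 h2 Q
    rw [zero_add, zero_add]
  rcases Q with _ | ⟨x₂, y₂, g₂⟩
  · change m1b_f h h1 h2 (_ + 0) = _ + 0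
    rw [add_zero, add_zero]
  by_cases hxy : x₁ = x₂ ∧ y₁ = W'.toAffine.negY x₂ y₂
  · rw [Affine.Point.add_of_Y_eq hxy.1 hxy.2]
    have h3 := (vc_cond h x₁ y₁ x₂ y₂).2 hxy
    exact (Affine.Point.add_of_Y_eq (h₁ := (m1b_ns h h1 h2 x₁ y₁).1 g₁) (h₂ := (m1b_ns h h1 h2 x₂ y₂).1 g₂)
      h3.1 h3.2).symm
  · have hxy' : ¬(u ^ 2 * x₁ + r = u ^ 2 * x₂ + r ∧ u ^ 3 * y₁ + s * u ^ 2 * x₁ + t =
      W.toAffine.negY (u ^ 2 * x₂ + r) (u ^ 3 * y₂ + s * u ^ 2 * x₂ + t)) :=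
      fun h3 => hxy ((vc_cond h x₁ y₁ x₂ y₂).1 h3)
    have e1 := Affine.Point.add_some hxy' (h₁ := (m1b_ns h h1 h2 x₁ y₁).1 g₁)
      (h₂ := (m1b_ns h h1 h2 x₂ y₂).1 g₂)
    rw [Affine.Point.add_some hxy]
    refine Eq.trans ?_ e1.symm
    change Affine.Point.some _ _ _ = Affine.Point.some _ _ _
    rw [Affine.Point.some.injEq]
    rw [vc_slope h g₁.1 g₂.1 hxy, vc_addX h, vc_addY h]
    exact ⟨rfl, rfl⟩

theorem m1b_f_inj (h : VC W W' u r s t) (h1 : W.Δ ≠ 0) (h2 : W'.Δ ≠ 0) :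
    Function.Injective (m1b_f h h1 h2) := by
  intro P Q hPQ
  rcases P with _ | ⟨x₁, y₁, g₁⟩
  · rcases Q with _ | ⟨x₂, y₂, g₂⟩
    · rfl
    · exact absurd hPQ (Affine.Point.some_ne_zero _).symm
  · rcases Q with _ | ⟨x₂, y₂, g₂⟩
    · exact absurd hPQ (Affine.Point.some_ne_zero _)
    · have h3 := Affine.Point.some.inj hPQ
      have hx : x₁ = x₂ := by
        have h4 : u ^ 2 * x₁ = u ^ 2 * x₂ := by linear_combination h3.1
        exact mul_left_cancel₀ (pow_ne_zero 2 h.une) h4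
      have hy : y₁ = y₂ := by
        have h4 : u ^ 3 * y₁ = u ^ 3 * y₂ := by linear_combination h3.2 - s * u ^ 2 * hx
        exact mul_left_cancel₀ (pow_ne_zero 3 h.une) h4
      subst hx hy
      rfl

theorem m1b_f_surj (h : VC W W' u r s t) (h1 : W.Δ ≠ 0) (h2 : W'.Δ ≠ 0) :
    Function.Surjective (m1b_f h h1 h2) := by
  intro P
  rcases P with _ | ⟨x, y, g⟩
  · exact ⟨0, rfl⟩
  · have hu := h.une
    have e1 : u ^ 2 * ((x - r) / u ^ 2) + r = x := by
      field_simp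
      ring
    have e2 : u ^ 3 * ((y - s * (x - r) - t) / u ^ 3) + s * u ^ 2 * ((x - r) / u ^ 2) + t = y := by
      field_simp
      ring
    have h' : W'.toAffine.Nonsingular ((x - r) / u ^ 2) ((y - s * (x - r) - t) / u ^ 3) := by
      rw [m1b_ns h h1 h2, e1, e2]
      exact g
    refine ⟨.some ((x - r) / u ^ 2) ((y - s * (x - r) - t) / u ^ 3) h', ?_⟩
    change Affine.Point.some _ _ _ = Affine.Point.some _ _ _
    rw [Affine.Point.some.injEq]
    exact ⟨e1, e2⟩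

theorem vc_iso [DecidableEq k] (h : VC W W' u r s t) (h1 : W.Δ ≠ 0) (h2 : W'.Δ ≠ 0) :
    ∃ Θ : W.toAffine.Point ≃+ W'.toAffine.Point, Crd u r s t Θ := by
  obtain ⟨f, hf⟩ : ∃ f : W'.toAffine.Point ≃+ W.toAffine.Point, ∀ P, f P = m1b_f h h1 h2 P :=
    ⟨AddEquiv.ofBijective (AddMonoidHom.mk' (m1b_f h h1 h2) (m1b_f_add h h1 h2))
      ⟨m1b_f_inj h h1 h2, m1b_f_surj h h1 h2⟩, fun P => rfl⟩
  refine ⟨f.symm, fun P hP => ?_⟩
  obtain ⟨Q, rfl⟩ := f.surjective P
  rw [f.symm_apply_apply]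
  rcases Q with _ | ⟨x, y, g⟩
  · exact absurd (map_zero f) hP
  · refine ⟨Affine.Point.some_ne_zero _, ?_, ?_⟩
    · rw [hf]
      rfl
    · rw [hf]
      rfl

end H55K.MG
end

-- from Lib.H55K.M3A
section

open NumberField WeierstrassCurve

namespace H55K.MG

open H35P (WAB Ker GoodW IntW)

variable {k : Type} [Field k] [DecidableEq k] {W : WeierstrassCurve k} {V : ValuationSubring k}

/-! Chunk M3A (S/M). int_crd: cases on P; x in V, H35P.int_y for y. ker_crd: definition of Ker. cong_ker: Cong of the two points, H35P.rd. unit_diff: V(x - x') ≤ 1; if < 1, subtract the two equations: (y - y')(y + y' + a1 x + a3) =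
(x - x') (..integral..) has value < 1, so V(y - y') < 1 (then Ker (P - Q) by cong_ker) or V(y - negY x' y') < 1: y + y' + a1 x' + a3 = (y + y' + a1 x + a3) - a1 (x - x') (then Ker (P + Q) = Ker (P - (-Q)) by cong_ker, coordinates of
-Q = (x', negY x' y')). ker_sub', ker_zero: H35P.ker_add, ker_neg. -/

theorem int_crd (h : GoodW W V) {P : W.toAffine.Point} (hP : ¬ Ker V P) : P ≠ 0 ∧ xc P ∈ V ∧ yc P ∈ V := by
  rcases P with _ | ⟨x, y, hn⟩
  · exact absurd trivial hP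
  · have hx : V.valuation x ≤ 1 := not_lt.1 hP
    refine ⟨Affine.Point.some_ne_zero _, (V.valuation_le_one_iff _).1 hx, ?_⟩
    exact (V.valuation_le_one_iff _).1 (H35P.int_y h.toIntW hn.1 hx)

theorem ker_crd {P : W.toAffine.Point} (h0 : P ≠ 0) : Ker V P ↔ 1 < V.valuation (xc P) := by
  rcases P with _ | ⟨x, y, hn⟩
  · exact absurd rfl h0
  · exact Iff.rfl

theorem cong_ker (h : GoodW W V) {P Q : W.toAffine.Point} (hP : ¬ Ker V P) (hQ : ¬ Ker V Q)
    (hx : V.valuation (xc P - xc Q) < 1) (hy : V.valuation (yc P - yc Q) < 1) : Ker V (P - Q) := by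
  obtain ⟨hP0, hPx, hPy⟩ := int_crd h hP
  obtain ⟨hQ0, hQx, hQy⟩ := int_crd h hQ
  rcases P with _ | ⟨x, y, hn⟩
  · exact absurd rfl hP0
  rcases Q with _ | ⟨x', y', hn'⟩
  · exact absurd rfl hQ0
  exact H35P.rd h _ _ ⟨x, y, hn, x', y', hn', rfl, rfl, hPx, hPy, hQx, hQy, hx, hy⟩

theorem unit_diff (h : GoodW W V) {P Q : W.toAffine.Point} (hP : ¬ Ker V P) (hQ : ¬ Ker V Q)
    (h1 : ¬ Ker V (P - Q)) (h2 : ¬ Ker V (P + Q)) : V.valuation (xc P - xc Q) = 1 := by
  have hQn : ¬ Ker V (-Q) := fun hk => hQ ((H35P.ker_neg Q).1 hk)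
  obtain ⟨hP0, hPx, hPy⟩ := int_crd h hP
  obtain ⟨hQ0, hQx, hQy⟩ := int_crd h hQ
  have hxle : V.valuation (xc P - xc Q) ≤ 1 :=
    (V.valuation_le_one_iff _).2 (sub_mem hPx hQx)
  refine le_antisymm hxle (not_lt.1 fun hlt => ?_)
  have hc1 := fun hy => h1 (cong_ker h hP hQ hlt hy)
  have hxn : V.valuation (xc P - xc (-Q)) < 1 ∧ yc (-Q) = -yc Q - W.a₁ * xc Q - W.a₃ := by
    rcases Q with _ | ⟨x', y', hn'⟩
    · exact absurd rfl hQ0
    · exact ⟨hlt, rfl⟩
  have hc2 : ¬ V.valuation (yc P - yc (-Q)) < 1 := by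
    intro hy
    apply h2
    have h3 := cong_ker h hP hQn hxn.1 hy
    rwa [sub_neg_eq_add] at h3
  have hPe : yc P ^ 2 + W.a₁ * xc P * yc P + W.a₃ * yc P =
      xc P ^ 3 + W.a₂ * xc P ^ 2 + W.a₄ * xc P + W.a₆ := by
    rcases P with _ | ⟨x, y, hn⟩
    · exact absurd rfl hP0
    · exact (Affine.equation_iff _ _).1 hn.1
  have hQe : yc Q ^ 2 + W.a₁ * xc Q * yc Q + W.a₃ * yc Q =
      xc Q ^ 3 + W.a₂ * xc Q ^ 2 + W.a₄ * xc Q + W.a₆ := by
    rcases Q with _ | ⟨x, y, hn⟩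
    · exact absurd rfl hQ0
    · exact (Affine.equation_iff _ _).1 hn.1
  have hkey : (yc P - yc Q) * (yc P - yc (-Q)) = (xc P ^ 2 + xc P * xc Q + xc Q ^ 2 +
      W.a₂ * (xc P + xc Q) + W.a₄ - W.a₁ * yc P) * (xc P - xc Q) := by
    rw [hxn.2]
    linear_combination hPe - hQe
  have hin : xc P ^ 2 + xc P * xc Q + xc Q ^ 2 + W.a₂ * (xc P + xc Q) + W.a₄ - W.a₁ * yc P ∈ V :=
    sub_mem (add_mem (add_mem (add_mem (add_mem (pow_mem hPx 2) (mul_mem hPx hQx)) (pow_mem hQx 2))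
      (mul_mem h.a2 (add_mem hPx hQx))) h.a4) (mul_mem h.a1 hPy)
  have hv := congrArg V.valuation hkey
  rw [map_mul, map_mul] at hv
  have hlt2 : V.valuation (yc P - yc Q) * V.valuation (yc P - yc (-Q)) < 1 := by
    rw [hv]
    exact mul_lt_one_of_nonneg_of_lt_one_right ((V.valuation_le_one_iff _).2 hin) zero_le hlt
  have ha : 1 ≤ V.valuation (yc P - yc Q) := not_lt.1 hc1
  have hb : 1 ≤ V.valuation (yc P - yc (-Q)) := not_lt.1 hc2
  exact absurd hlt2 (not_lt.2 (one_le_mul_of_one_le_of_one_le ha hb))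

theorem unit_y (h : GoodW W V) (h1 : W.a₁ = 0) (h3 : W.a₃ = 0) {P : W.toAffine.Point} (hP : ¬ Ker V P)
    (h2 : ¬ Ker V (P + P)) : V.valuation (yc P) = 1 := by
  have hPn : ¬ Ker V (-P) := fun hk => hP ((H35P.ker_neg P).1 hk)
  obtain ⟨hP0, hPx, hPy⟩ := int_crd h hP
  refine le_antisymm ((V.valuation_le_one_iff _).2 hPy) (not_lt.1 fun hlt => ?_)
  have hneg : xc (-P) = xc P ∧ yc (-P) = -yc P := by
    rcases P with _ | ⟨x, y, hn⟩
    · exact absurd rfl hP0
    · refine ⟨rfl, ?_⟩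
      show W.toAffine.negY x y = -y
      rw [Affine.negY]
      simp only [h1, h3]
      ring
  apply h2
  have h4 := cong_ker h hP hPn (by
    rw [hneg.1, sub_self, map_zero]
    exact zero_lt_one) (by
    rw [hneg.2, sub_neg_eq_add, ← two_mul, map_mul]
    have h5 : V.valuation (2 : k) ≤ 1 := by
      rw [V.valuation_le_one_iff]
      exact_mod_cast natCast_mem V 2
    exact mul_lt_one_of_nonneg_of_lt_one_right h5 zero_le hlt)
  rwa [sub_neg_eq_add] at h4

theorem yc_neg' (h1 : W.a₁ = 0) (h3 : W.a₃ = 0) {P : W.toAffine.Point} : xc (-P) = xc P ∧ yc (-P) = -yc P := by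
  rcases P with _ | ⟨x, y, hn⟩
  · exact ⟨rfl, neg_zero.symm⟩
  · refine ⟨rfl, ?_⟩
    show W.toAffine.negY x y = -y
    rw [Affine.negY]
    simp only [h1, h3]
    ring

end H55K.MG
end

-- from Lib.H55K.M3B
section

open NumberField WeierstrassCurve

namespace H55K.MG

open H55P (IQ Pt ac Inert)
open H35P (WAB Ker GoodW IntW)

variable {k : Type} [Field k] [DecidableEq k] {W W' : WeierstrassCurve k} {V : ValuationSubring k} {u r s t : k}
  {Θ : W.toAffine.Point ≃+ W'.toAffine.Point}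

/-! Chunk M3B (S/M). kg_ex: Kg = the preimage of Ker V under Θ (H35P.ker_add, ker_neg; h.toIntW). kg_tors: H35P.fg for Θ T. kg_diff: xc P - xc Q = u^2 (xc (Θ P) - xc (Θ Q)) (hc; P, Q are not 0), unit_diff. kg_far: V(xc (Θ P) - xc (Θ Q)) =
V(xc (Θ Q)) > 1 since V(xc (Θ P)) ≤ 1 (Valuation.map_sub_eq_of_lt_right or the like), the same for P'. -/

theorem kg_ex (h : GoodW W' V) (Θ : W.toAffine.Point ≃+ W'.toAffine.Point) :
    ∃ Kg : AddSubgroup W.toAffine.Point, ∀ P, P ∈ Kg ↔ Ker V (Θ P) := by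
  refine ⟨{ carrier := {P | Ker V (Θ P)}, zero_mem' := ?_, add_mem' := ?_, neg_mem' := ?_ },
    fun P => Iff.rfl⟩
  · intro P Q hP hQ
    show Ker V (Θ (P + Q))
    rw [map_add]
    exact H35P.ker_add h.toIntW _ _ hP hQ
  · show Ker V (Θ 0)
    rw [map_zero]
    trivial
  · intro P hP
    show Ker V (Θ (-P))
    rw [map_neg]
    exact (H35P.ker_neg _).2 hP

theorem kg_tors (h : GoodW W' V) {n : ℕ} (hn : V.valuation (n : k) = 1) {T : W.toAffine.Point} (hT : Ker V (Θ T))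
    (h0 : n • T = 0) : T = 0 := by
  have h1 := H35P.fg h.toIntW (Θ T) n hn (by rw [← map_nsmul, h0, map_zero]) hT
  exact (map_eq_zero_iff Θ Θ.injective).1 h1

theorem kg_diff (h : GoodW W' V) (hc : Crd u r s t Θ) {P Q : W.toAffine.Point} (hP : ¬ Ker V (Θ P))
    (hQ : ¬ Ker V (Θ Q)) (h1 : ¬ Ker V (Θ (P - Q))) (h2 : ¬ Ker V (Θ (P + Q))) :
    V.valuation (xc P - xc Q) = V.valuation u ^ 2 := by
  have hP0 : P ≠ 0 := by
    rintro rfl
    exact hP (by rw [map_zero]; trivial)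
  have hQ0 : Q ≠ 0 := by
    rintro rfl
    exact hQ (by rw [map_zero]; trivial)
  rw [map_sub] at h1
  rw [map_add] at h2
  have h3 := unit_diff h hP hQ h1 h2
  have h4 : xc P - xc Q = u ^ 2 * (xc (Θ P) - xc (Θ Q)) := by
    rw [(hc P hP0).2.1, (hc Q hQ0).2.1]
    ring
  rw [h4, map_mul, h3, mul_one, map_pow]

theorem kg_far (h : GoodW W' V) (hc : Crd u r s t Θ) {P P' Q : W.toAffine.Point} (hP : ¬ Ker V (Θ P))
    (hP' : ¬ Ker V (Θ P')) (hQ : Ker V (Θ Q)) (h0 : Q ≠ 0) :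
    V.valuation (xc P - xc Q) = V.valuation (xc P' - xc Q) := by
  have key : ∀ R : W.toAffine.Point, ¬ Ker V (Θ R) →
      V.valuation (xc R - xc Q) = V.valuation u ^ 2 * V.valuation (xc (Θ Q)) := by
    intro R hR
    have hR0 : R ≠ 0 := by
      rintro rfl
      exact hR (by rw [map_zero]; trivial)
    have h4 : xc R - xc Q = u ^ 2 * (xc (Θ R) - xc (Θ Q)) := by
      rw [(hc R hR0).2.1, (hc Q h0).2.1]
      ring
    have h5 : V.valuation (xc (Θ R)) ≤ 1 := (V.valuation_le_one_iff _).2 (int_crd h hR).2.1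
    have h6 : 1 < V.valuation (xc (Θ Q)) := (ker_crd (hc Q h0).1).1 hQ
    rw [h4, map_mul, map_pow, Valuation.map_sub_eq_of_lt_right _ (h5.trans_lt h6)]
  rw [key P hP, key P' hP']

end H55K.MG
end

-- from Lib.H55K.C11
section

open NumberField WeierstrassCurve Polynomial

namespace H55K.CC

open H55P (IQ embF eF LF Per Pt ac mem_LF eF_inj eF_ne Nm Nm_eq)
open H35P (WAB)

variable {F : Type} [Field F] [NumberField F] [IQ F] {Ω : Type} [Field Ω] [DecidableEq Ω] [Algebra F Ω]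
  {A B : F} {Om : ℂ} {j : Ω →+* ℂ}

/-! Chunk C11 (M). J is induced by j: give ℂ the algebra structures (embF F).toAlgebra and j.toAlgebra; j is an F-algebra homomorphism by h.ovr; Affine.Point.map (W' := (WAB A B).toAffine) gives
Pt (WAB A B) Ω →+ points of (WAB A B)⁄ℂ, and (WAB A B)⁄ℂ = WAB (embF F A) (embF F B) (WeierstrassCurve.ext, map_zero): prove the statement for every W' with (WAB A B)⁄ℂ = W' by subst (rintro _ rfl).
Injective: Affine.Point.map_injective. Coordinates: cases on P, Affine.Point.map_some, rfl (see xc_mp in Lib/H28G/Map.lean). Last part: R = (x, y) with x = j x', y = j y': the equation y'^2 = x'^3 + A x' + B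
holds in Ω by injectivity of j, the point is nonsingular since the discriminant of the curve is not 0 (h.disc; Affine.equation_iff_nonsingular_of_Δ_ne_zero as in Lib/H35P/B1.lean), or use
Affine.map_nonsingular (j injective). -/

theorem c11_curve [Algebra F ℂ] (e : ∀ x : F, algebraMap F ℂ x = embF F x) :
    (WAB A B).baseChange ℂ = WAB (embF F A) (embF F B) := by
  ext
  · exact map_zero (algebraMap F ℂ)
  · exact map_zero (algebraMap F ℂ)
  · exact map_zero (algebraMap F ℂ)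
  · exact e A
  · exact e B

omit [NumberField F] [IQ F] in
theorem c11_key [Algebra F ℂ] (φ : Ω →ₐ[F] ℂ) (W' : WeierstrassCurve ℂ)
    (hW : (WAB A B).baseChange ℂ = W') : ∃ J : Pt (WAB A B) Ω →+ W'.toAffine.Point,
    Function.Injective J ∧ (∀ P, P ≠ 0 → J P ≠ 0 ∧ xc (J P) = φ (xc P) ∧ yc (J P) = φ (yc P)) ∧
    ∀ R, R ≠ 0 → (∃ x, φ x = xc R) → (∃ y, φ y = yc R) → ∃ P, J P = R := by
  subst hW
  refine ⟨Affine.Point.map (W' := (WAB A B).toAffine) φ, Affine.Point.map_injective φ, ?_, ?_⟩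
  · intro P hP
    rcases P with _ | ⟨x, y, hxy⟩
    · exact absurd rfl hP
    · rw [Affine.Point.map_some]
      exact ⟨Affine.Point.some_ne_zero _, rfl, rfl⟩
  · intro R hR hx hy
    rcases R with _ | ⟨x, y, hxy⟩
    · exact absurd rfl hR
    · obtain ⟨x', hx⟩ := hx
      obtain ⟨y', hy⟩ := hy
      change φ x' = x at hx
      change φ y' = y at hy
      subst hx hy
      have hns : ((WAB A B)⁄Ω).toAffine.Nonsingular x' y' :=
        ((WAB A B).toAffine.baseChange_nonsingular (f := φ) φ.injective x' y').1 hxy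
      refine ⟨Affine.Point.some x' y' hns, ?_⟩
      rw [Affine.Point.map_some]

theorem exists_J (h : CH A B Om j) : ∃ J : Pt (WAB A B) Ω →+ (WAB (embF F A) (embF F B)).toAffine.Point,
    Function.Injective J ∧ (∀ P, P ≠ 0 → J P ≠ 0 ∧ xc (J P) = j (xc P) ∧ yc (J P) = j (yc P)) ∧
    ∀ R, R ≠ 0 → (∃ x, j x = xc R) → (∃ y, j y = yc R) → ∃ P, J P = R := by
  let iF : Algebra F ℂ := (embF F).toAlgebra
  let φ : Ω →ₐ[F] ℂ := { j with commutes' := h.ovr }
  exact c11_key φ _ (c11_curve fun x => rfl)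

end H55K.CC
end

-- from Lib.H55K.C1
section

namespace H55K.CC

/-! Chunk C1 (M): port of GA4_exists in Lib/H28G/GA4.lean to a general PeriodPair L. Suppose wp z <> c for all z not in Λ. D(z) = if z in Λ then 0 else (wp z - c)^(-1).
D is periodic (wp_per). u from H35P.wp_zero: wp z = (z^2)^(-1) + u z for z <> 0, u analytic at 0. At z0 in Λ: D(z) = a0(z - z0) near z0, z <> z0, where a0(z) = z^2/(1 + z^2 u z - c z^2) is
analytic at 0 (periodicity, H35P.ev_compl, H35P.tendsto_punct). At z0 not in Λ: D = (wp - c)^(-1) near z0, analytic (H35P.wp_analytic). H35P.liouville: all the values agree with one constant; at 0 it is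
a0 0 = 0, at a point z1 not in Λ (exists: H35P.ev_compl, the punctured neighbourhoods are nonempty) it is (wp z1 - c)^(-1) <> 0: contradiction. -/

/-- The Weierstrass function takes every value. -/
theorem wp_surj (L : PeriodPair) (c : ℂ) : ∃ z, z ∉ L.lattice ∧ L.weierstrassP z = c := by
  classical
  by_contra hcon
  push Not at hcon
  set D : ℂ → ℂ := fun z => if z ∈ L.lattice then 0 else (L.weierstrassP z - c)⁻¹ with hD
  have hper : ∀ z, ∀ l ∈ L.lattice, D (z + l) = D z := by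
    intro z l hl
    simp only [hD]
    by_cases h : z ∈ L.lattice
    · rw [if_pos h, if_pos (add_mem h hl)]
    · have h' : z + l ∉ L.lattice := by
        intro h1
        apply h
        have h2 := sub_mem h1 hl
        rwa [add_sub_cancel_right] at h2
      rw [if_neg h, if_neg h', wp_per L z hl]
  obtain ⟨u, hu, -, hu2⟩ := H35P.wp_zero L
  set a0 : ℂ → ℂ := fun z => z ^ 2 / (1 + z ^ 2 * u z - c * z ^ 2) with ha0
  have ha0A : AnalyticAt ℂ a0 0 := by
    have hz : AnalyticAt ℂ (fun z : ℂ => z) 0 := analyticAt_id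
    refine (hz.pow 2).div ((analyticAt_const.add ((hz.pow 2).mul hu)).sub
      (analyticAt_const.mul (hz.pow 2))) ?_
    simp
  have hloc0 : ∀ᶠ z in nhdsWithin (0 : ℂ) {0}ᶜ, D z = a0 z := by
    filter_upwards [H35P.ev_compl L 0, self_mem_nhdsWithin] with z h2 h3
    have hz : z ≠ 0 := h3
    simp only [hD, ha0]
    rw [if_neg h2, hu2 z hz]
    have e1 : (z ^ 2)⁻¹ + u z - c = (1 + z ^ 2 * u z - c * z ^ 2) / z ^ 2 := by
      field_simp
    rw [e1, inv_div]
  have hloc : ∀ z₀, ∃ a : ℂ → ℂ, AnalyticAt ℂ a z₀ ∧ ∀ᶠ z in nhdsWithin z₀ {z₀}ᶜ, D z = a z := by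
    intro z₀
    by_cases h : z₀ ∈ L.lattice
    · refine ⟨fun z => a0 (z - z₀), ?_, ?_⟩
      · have h1 : AnalyticAt ℂ (fun z : ℂ => z - z₀) z₀ := analyticAt_id.sub analyticAt_const
        have h2 : AnalyticAt ℂ a0 (z₀ - z₀) := by rwa [sub_self]
        exact AnalyticAt.fun_comp (f := fun z : ℂ => z - z₀) h2 h1
      · have ht := H35P.tendsto_punct (fun z : ℂ => z - z₀) z₀ (by fun_prop) (fun x y h => by
          simpa using h)
        have h4 : ∀ᶠ z in nhdsWithin (z₀ - z₀) {z₀ - z₀}ᶜ, D z = a0 z := by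
          rw [sub_self]
          exact hloc0
        filter_upwards [ht.eventually h4] with z hz
        rw [← hz, ← hper (z - z₀) z₀ h]
        congr 1
        ring
    · refine ⟨fun z => (L.weierstrassP z - c)⁻¹, ?_, ?_⟩
      · exact ((H35P.wp_analytic L z₀ h).sub analyticAt_const).inv (sub_ne_zero.2 (hcon z₀ h))
      · filter_upwards [H35P.ev_compl L z₀] with z hz
        simp only [hD]
        rw [if_neg hz]
  obtain ⟨z₁, hz₁⟩ : ∃ z₁, z₁ ∉ L.lattice := by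
    have h := H35P.ev_compl L 0
    exact h.exists
  obtain ⟨c0, hc0⟩ := H35P.liouville L D hper hloc
  have h1 : a0 0 = c0 := hc0 0 a0 ha0A.continuousAt hloc0
  have h2 : (L.weierstrassP z₁ - c)⁻¹ = c0 := by
    refine hc0 z₁ (fun z => (L.weierstrassP z - c)⁻¹) ?_ ?_
    · exact (((H35P.wp_analytic L z₁ hz₁).sub analyticAt_const).inv
        (sub_ne_zero.2 (hcon z₁ hz₁))).continuousAt
    · filter_upwards [H35P.ev_compl L z₁] with z hz
      simp only [hD]
      rw [if_neg hz]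
  have h3 : a0 0 = 0 := by
    simp [ha0]
  rw [h3] at h1
  rw [← h1] at h2
  exact inv_ne_zero (sub_ne_zero.2 (hcon z₁ hz₁)) h2

end H55K.CC
end

-- from Lib.H55K.C10
section

namespace H55K.CC

/-! Chunk C10 (S/M): H35P.add_x for (z, t) and for (z, -t) (L.weierstrassP_neg, L.derivWeierstrassP_neg; H35P.wp_ne): with x = wp z, s = wp t:
wp(z+t) + wp(z-t) = (wp' z^2 + wp' t^2)/(2 (x-s)^2) - 2 (x+s), and wp'^2 = 4 wp^3 - g2 wp - g3 (L.derivWeierstrassP_sq) gives (2 (x+s) x s - g2 (x+s)/2 - g3)/(x-s)^2. Then g2 = -4 A Om^4, g3 = -4 B Om^6, divide by Om^2.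
yl_sq: L.derivWeierstrassP_sq. -/

theorem c10_alg (p q p' q' a b Om : ℂ) (hO : Om ≠ 0) (hd : p - q ≠ 0)
    (e3 : p' ^ 2 = 4 * p ^ 3 - (-4 * a * Om ^ 4) * p - (-4 * b * Om ^ 6))
    (e4 : q' ^ 2 = 4 * q ^ 3 - (-4 * a * Om ^ 4) * q - (-4 * b * Om ^ 6)) :
    (((p' - q') / (p - q)) ^ 2 / 4 - p - q) / Om ^ 2 + (((p' - -q') / (p - q)) ^ 2 / 4 - p - q) / Om ^ 2 =
      2 * ((p / Om ^ 2 + q / Om ^ 2) * (q / Om ^ 2 * (p / Om ^ 2) + a) + 2 * b) / (p / Om ^ 2 - q / Om ^ 2) ^ 2 := by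
  have h1 : p / Om ^ 2 - q / Om ^ 2 = (p - q) / Om ^ 2 := by ring
  have h2 : ((p' - q') / (p - q)) ^ 2 / 4 - p - q + (((p' - -q') / (p - q)) ^ 2 / 4 - p - q) =
      (2 * (p + q) * p * q + 2 * a * Om ^ 4 * (p + q) + 4 * b * Om ^ 6) / (p - q) ^ 2 := by
    rw [eq_div_iff (pow_ne_zero 2 hd)]
    have h3 : ∀ c : ℂ, (c / (p - q)) ^ 2 / 4 * (p - q) ^ 2 = c ^ 2 / 4 := by
      intro c
      field_simp
    calc _ = ((p' - q') / (p - q)) ^ 2 / 4 * (p - q) ^ 2 + ((p' - -q') / (p - q)) ^ 2 / 4 * (p - q) ^ 2 -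
          2 * (p + q) * (p - q) ^ 2 := by ring
      _ = _ := by
          rw [h3, h3]
          linear_combination (e3 + e4) / 2
  rw [← add_div, h2, h1]
  field_simp
  ring

theorem xl_add_sub (L : PeriodPair) {A B Om : ℂ} (hO : Om ≠ 0) (g2 : L.g₂ = -4 * A * Om ^ 4)
    (g3 : L.g₃ = -4 * B * Om ^ 6) {z t : ℂ} (hz : z ∉ L.lattice) (ht : t ∉ L.lattice) (h1 : z + t ∉ L.lattice)
    (h2 : z - t ∉ L.lattice) : XL L Om z - XL L Om t ≠ 0 ∧
    XL L Om (z + t) + XL L Om (z - t) =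
      2 * ((XL L Om z + XL L Om t) * (XL L Om t * XL L Om z + A) + 2 * B) / (XL L Om z - XL L Om t) ^ 2 := by
  have hne := H35P.wp_ne L z t hz ht h1 h2
  have hd : L.weierstrassP z - L.weierstrassP t ≠ 0 := sub_ne_zero.2 hne
  have hnt : -t ∉ L.lattice := fun h => ht (by simpa using L.lattice.neg_mem h)
  have e1 := H35P.add_x L z t hz ht h1 h2 hne
  have e2 := H35P.add_x L z (-t) hz hnt (by rwa [← sub_eq_add_neg]) (by rwa [sub_neg_eq_add])
    (by rw [L.weierstrassP_neg]; exact hne)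
  rw [← sub_eq_add_neg] at e2
  unfold H35P.mc at e1 e2
  rw [L.weierstrassP_neg, L.derivWeierstrassP_neg] at e2
  have e3 := L.derivWeierstrassP_sq z hz
  have e4 := L.derivWeierstrassP_sq t ht
  rw [g2, g3] at e3 e4
  unfold XL
  constructor
  · rw [← sub_div]
    exact div_ne_zero hd (pow_ne_zero 2 hO)
  · rw [e1, e2]
    exact c10_alg _ _ _ _ A B Om hO hd e3 e4

theorem yl_sq (L : PeriodPair) {A B Om : ℂ} (hO : Om ≠ 0) (g2 : L.g₂ = -4 * A * Om ^ 4)
    (g3 : L.g₃ = -4 * B * Om ^ 6) {z : ℂ} (hz : z ∉ L.lattice) :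
    YL L Om z ^ 2 = XL L Om z ^ 3 + A * XL L Om z + B := by
  have e3 := L.derivWeierstrassP_sq z hz
  rw [g2, g3] at e3
  unfold XL YL
  rw [div_pow, e3]
  field_simp
  ring

end H55K.CC
end

-- from Lib.H55K.C13
section

open NumberField WeierstrassCurve Polynomial

namespace H55K.CC

open H55P (IQ embF eF LF Per Pt ac mem_LF eF_inj eF_ne Nm Nm_eq)
open H35P (WAB)

variable {F : Type} [Field F] [NumberField F] [IQ F] {Ω : Type} [Field Ω] [DecidableEq Ω] [Algebra F Ω]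
  {A B : F} {Om : ℂ} {j : Ω →+* ℂ}

/-! Chunk C13 (M): torsion points are algebraic. W = WAB (embF F A) (embF F B) is IsShortNF (a1 = a2 = a3 = 0) and CharZero. As in the proof of H16C.tors_finite (Lib/H16C/T1.lean): with N = addOrderOf R, 2 ≤ N,
H16C.psi_order and H16C.psi_sq give (W.ΨSq N).eval x = 0, x = xc R (the functions xc of H16C and of H55K agree: cases on R, rfl). W = (the curve W' = WAB (algebraMap F Ω A) (algebraMap F Ω B) over Ω).map j
(h.ovr), so W.ΨSq N = (W'.ΨSq N).map j (WeierstrassCurve.map_ΨSq), and W'.ΨSq N <> 0 splits over Ω (IsAlgClosed): the roots of its image are the images of its roots (Polynomial.Splits.roots_map or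
IsAlgClosed.splits, Polynomial.roots_map), so x = j x'. y^2 = x^3 + A x + B = j(x'^3 + A x' + B); take y' with y'^2 = x'^3 + A x' + B (IsAlgClosed.exists_pow_nat_eq): y = j y' or y = j(-y'). -/

theorem c13_psi {a b : ℂ} (R : (WAB a b).toAffine.Point) (hR : R ≠ 0)
    {n : ℕ} (hn : 0 < n) (h0 : n • R = 0) : ∃ N : ℤ, N ≠ 0 ∧ ((WAB a b).ΨSq N).eval (xc R) = 0 := by
  have hs : (WAB a b).toAffine.IsShortNF := ⟨rfl, rfl, rfl⟩
  have h2 : (2 : ℂ) ≠ 0 := two_ne_zero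
  have hN0 : addOrderOf R ≠ 0 := by
    intro h1
    rw [addOrderOf_eq_zero_iff'] at h1
    exact h1 n hn h0
  have hN1 : addOrderOf R ≠ 1 := by
    intro h1
    exact hR (AddMonoid.addOrderOf_eq_one_iff.mp h1)
  have h3 := H16C.psi_order (W := (WAB a b).toAffine) h2 hR (addOrderOf R) (by omega) (fun k hk hk2 h3 =>
      absurd (addOrderOf_le_of_nsmul_eq_zero hk h3) (not_le.mpr hk2)) (addOrderOf_nsmul_eq_zero R)
  refine ⟨(addOrderOf R : ℤ), by exact_mod_cast hN0, ?_⟩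
  have hx : xc R = H16C.xc R := by
    rcases R with _ | ⟨x, y, h⟩
    · rfl
    · rfl
  rw [hx]
  have h4 := H16C.psi_sq (WAB a b).toAffine (H16C.eqn hR) (addOrderOf R : ℤ)
  rw [h3] at h4
  rw [← h4]
  ring

theorem tors_range [IsAlgClosed Ω] (h : CH A B Om j) (R : (WAB (embF F A) (embF F B)).toAffine.Point) (hR : R ≠ 0)
    {n : ℕ} (hn : 0 < n) (h0 : n • R = 0) : (∃ x, j x = xc R) ∧ ∃ y, j y = yc R := by
  have hcz : CharZero Ω := charZero_of_injective_algebraMap (algebraMap F Ω).injective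
  obtain ⟨N, hN, hev⟩ := c13_psi R hR hn h0
  have hmap : (WAB (algebraMap F Ω A) (algebraMap F Ω B)).map j = WAB (embF F A) (embF F B) := by
    ext
    · exact map_zero j
    · exact map_zero j
    · exact map_zero j
    · exact h.ovr A
    · exact h.ovr B
  have hx : ∃ x, j x = xc R := by
    have hps : (WAB (embF F A) (embF F B)).ΨSq N =
        ((WAB (algebraMap F Ω A) (algebraMap F Ω B)).ΨSq N).map j := by
      rw [← hmap, WeierstrassCurve.map_ΨSq]
    rw [hps] at hev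
    have hne : (WAB (algebraMap F Ω A) (algebraMap F Ω B)).ΨSq N ≠ 0 :=
      WeierstrassCurve.ΨSq_ne_zero _ (by exact_mod_cast hN)
    have hne' : ((WAB (algebraMap F Ω A) (algebraMap F Ω B)).ΨSq N).map j ≠ 0 :=
      (Polynomial.map_ne_zero_iff j.injective).2 hne
    have hroot : xc R ∈ (((WAB (algebraMap F Ω A) (algebraMap F Ω B)).ΨSq N).map j).roots := by
      rw [Polynomial.mem_roots hne']
      exact hev
    rw [(IsAlgClosed.splits _).roots_map j, Multiset.mem_map] at hroot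
    obtain ⟨x, -, hx⟩ := hroot
    exact ⟨x, hx⟩
  refine ⟨hx, ?_⟩
  obtain ⟨x, hx⟩ := hx
  have hE : yc R ^ 2 = xc R ^ 3 + embF F A * xc R + embF F B := by
    rcases R with _ | ⟨x', y', hxy⟩
    · exact absurd rfl hR
    · have hE := (Affine.equation_iff _ _).1 hxy.1
      simp only [WAB] at hE
      change y' ^ 2 = x' ^ 3 + embF F A * x' + embF F B
      linear_combination hE
  obtain ⟨y, hy⟩ := IsAlgClosed.exists_pow_nat_eq (x ^ 3 + algebraMap F Ω A * x + algebraMap F Ω B)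
    (n := 2) (by norm_num)
  have hy2 : j y ^ 2 = yc R ^ 2 := by
    rw [hE, ← hx, ← map_pow, hy, map_add, map_add, map_mul, map_pow, h.ovr, h.ovr]
  rcases sq_eq_sq_iff_eq_or_eq_neg.1 hy2 with h3 | h3
  · exact ⟨y, h3⟩
  · exact ⟨-y, by rw [map_neg, h3, neg_neg]⟩

end H55K.CC
end

-- from Lib.H55K.C15
section

open NumberField WeierstrassCurve Polynomial

namespace H55K.CC

open H55P (IQ embF eF LF Per Pt ac mem_LF eF_inj eF_ne Nm Nm_eq)
open H35P (WAB)

variable {F : Type} [Field F] [NumberField F] [IQ F] {Ω : Type} [Field Ω] [DecidableEq Ω] [Algebra F Ω]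
  {A B : F} {Om : ℂ} {j : Ω →+* ℂ}

/-! Chunk C15 (S/M). S = image of the nonzero classes c of 𝓞 F ⧸ (b) (finite: Ideal.finiteQuotientOfFreeOfNeBot, see finite_quot in Lib/H28G/GB1.lean) under c -> e(Quotient.out c)/e(b). Lattice: mem_LF. Model:
rho_bij in Lib/H28G/GB1.lean, GB3_inj, GB3_ex in Lib/H28G/GB3.lean. lat_nm: n = Ideal.absNorm (span b) is in (b) (Ideal.absNorm_mem), n = b c. -/

theorem exists_Rep {b : 𝓞 F} (hb : b ≠ 0) : ∃ S : Finset ℂ, Rep (LF F) (eF F b) S := by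
  classical
  have hb' : eF F b ≠ 0 := eF_ne hb
  have hfin : Finite (𝓞 F ⧸ Ideal.span {b}) := by
    apply Ideal.finiteQuotientOfFreeOfNeBot
    rwa [Ne, Ideal.span_singleton_eq_bot]
  have : Fintype (𝓞 F ⧸ Ideal.span {b}) := Fintype.ofFinite _
  have hout : ∀ c : 𝓞 F ⧸ Ideal.span {b}, Ideal.Quotient.mk (Ideal.span {b}) (Quotient.out c) = c :=
    fun c => Quotient.out_eq c
  have hdv : ∀ x y : 𝓞 F, eF F x / eF F b = eF F y → b ∣ x := by
    intro x y h
    rw [div_eq_iff hb', ← map_mul] at h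
    exact ⟨y, by rw [eF_inj h, mul_comm]⟩
  refine ⟨(Finset.univ.filter fun c : 𝓞 F ⧸ Ideal.span {b} => c ≠ 0).image fun c => eF F (Quotient.out c) / eF F b,
    hb', ?_, ?_, ?_, ?_, ?_⟩
  · intro l hl
    rw [mem_LF] at hl ⊢
    obtain ⟨y, rfl⟩ := hl
    exact ⟨b * y, by rw [map_mul]⟩
  · intro r hr
    obtain ⟨c, -, rfl⟩ := Finset.mem_image.1 hr
    rw [mem_LF]
    exact ⟨Quotient.out c, by rw [mul_div_cancel₀ _ hb']⟩
  · intro r hr
    obtain ⟨c, hc, rfl⟩ := Finset.mem_image.1 hr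
    rw [mem_LF]
    rintro ⟨y, hy⟩
    have h1 := hdv _ _ hy
    rw [← Ideal.mem_span_singleton, ← Ideal.Quotient.eq_zero_iff_mem, hout] at h1
    exact (Finset.mem_filter.1 hc).2 h1
  · intro r hr r' hr' h
    obtain ⟨c, hc, rfl⟩ := Finset.mem_image.1 hr
    obtain ⟨c', hc', rfl⟩ := Finset.mem_image.1 hr'
    rw [mem_LF] at h
    obtain ⟨y, hy⟩ := h
    rw [← sub_div, ← map_sub] at hy
    have h1 := hdv _ _ hy
    rw [← Ideal.mem_span_singleton, ← Ideal.Quotient.eq, hout, hout] at h1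
    rw [h1]
  · intro w hw
    rw [mem_LF] at hw
    obtain ⟨y, hy⟩ := hw
    have hw' : w = eF F y / eF F b := by
      rw [eq_div_iff hb', mul_comm, hy]
    by_cases h0 : Ideal.Quotient.mk (Ideal.span {b}) y = 0
    · left
      rw [Ideal.Quotient.eq_zero_iff_mem, Ideal.mem_span_singleton] at h0
      obtain ⟨y', rfl⟩ := h0
      rw [mem_LF]
      exact ⟨y', by rw [hw', map_mul, mul_div_cancel_left₀ _ hb']⟩
    · right
      refine ⟨_, Finset.mem_image.2 ⟨Ideal.Quotient.mk (Ideal.span {b}) y,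
        Finset.mem_filter.2 ⟨Finset.mem_univ _, h0⟩, rfl⟩, ?_⟩
      have h1 := hout (Ideal.Quotient.mk (Ideal.span {b}) y)
      rw [eq_comm, Ideal.Quotient.eq, Ideal.mem_span_singleton] at h1
      obtain ⟨y', hy'⟩ := h1
      rw [mem_LF]
      refine ⟨y', ?_⟩
      rw [hw', ← sub_div, ← map_sub, hy', map_mul, mul_div_cancel_left₀ _ hb']

theorem lat_nm {b : 𝓞 F} (hb : b ≠ 0) {w : ℂ} (hw : eF F b * w ∈ (LF F).lattice) : 0 < Nm b ∧
    (Nm b : ℂ) * w ∈ (LF F).lattice := by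
  refine ⟨Nat.pos_of_ne_zero fun h => hb (H55P.Nm_eq_zero.1 h), ?_⟩
  have h1 : (Nm b : 𝓞 F) ∈ Ideal.span {b} := Ideal.absNorm_mem (Ideal.span {b})
  rw [Ideal.mem_span_singleton] at h1
  obtain ⟨c, hc⟩ := h1
  rw [mem_LF] at hw ⊢
  obtain ⟨y, hy⟩ := hw
  refine ⟨c * y, ?_⟩
  have h2 : (Nm b : ℂ) = eF F b * eF F c := by
    rw [← map_mul, ← hc, map_natCast]
  rw [h2, map_mul, ← hy]
  ring

end H55K.CC
end

-- from Lib.H55K.C12
section

open NumberField WeierstrassCurve Polynomial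

namespace H55K.CC

open H55P (IQ embF eF LF Per Pt ac mem_LF eF_inj eF_ne Nm Nm_eq)
open H35P (WAB)

variable {F : Type} [Field F] [NumberField F] [IQ F] {Ω : Type} [Field Ω] [DecidableEq Ω] [Algebra F Ω]
  {A B : F} {Om : ℂ} {j : Ω →+* ℂ}

/-! Chunk C12 (S/M): H35P.pt_exists (h.per; the discriminant: apply embF F to h.disc). pt z = 0 iff z in Λ; z not in Λ: pt z = some .. <> 0, xc, yc of some are rfl. Surjective: R = 0: pt 0. R = (x, y): wp_surj for
c = Om^2 x: XL z = x, YL z^2 = x^3 + A x + B = y^2 (yl_sq, Affine.equation_iff), so YL z = y or YL z = -y; in the second case take -z (L.weierstrassP_neg, L.derivWeierstrassP_neg). -/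

theorem exists_pt (h : CH A B Om j) : ∃ pt : ℂ →+ (WAB (embF F A) (embF F B)).toAffine.Point,
    (∀ z, pt z = 0 ↔ z ∈ (LF F).lattice) ∧ Function.Surjective pt ∧
    ∀ z, z ∉ (LF F).lattice → xc (pt z) = XL (LF F) Om z ∧ yc (pt z) = YL (LF F) Om z := by
  have hd : 4 * (embF F A) ^ 3 + 27 * (embF F B) ^ 2 ≠ 0 := by
    intro h0
    apply h.disc
    apply (embF F).injective
    rw [map_add, map_mul, map_mul, map_pow, map_pow, map_zero, map_ofNat, map_ofNat]
    exact h0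
  obtain ⟨pt, p0, p1⟩ := H35P.pt_exists (LF F) (embF F A) (embF F B) Om h.per.ne h.per.g2 h.per.g3 hd
  have p1' : ∀ z, z ∉ (LF F).lattice → pt z ≠ 0 ∧ xc (pt z) = XL (LF F) Om z ∧
      yc (pt z) = YL (LF F) Om z := by
    intro z hz
    obtain ⟨hns, e⟩ := p1 z hz
    rw [e]
    exact ⟨Affine.Point.some_ne_zero _, rfl, rfl⟩
  refine ⟨pt, fun z => ⟨fun h0 => ?_, p0 z⟩, ?_, fun z hz => (p1' z hz).2⟩
  · by_contra hz
    exact (p1' z hz).1 h0
  · intro R
    rcases R with _ | ⟨x, y, hxy⟩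
    · exact ⟨0, map_zero pt⟩
    · obtain ⟨z, hz, hz1⟩ := wp_surj (LF F) (Om ^ 2 * x)
      have hO : Om ^ 2 ≠ 0 := pow_ne_zero 2 h.per.ne
      have hX : XL (LF F) Om z = x := by
        unfold XL
        rw [hz1, mul_div_cancel_left₀ _ hO]
      have hY := yl_sq (LF F) h.per.ne h.per.g2 h.per.g3 hz
      have hE := (Affine.equation_iff _ _).1 hxy.1
      simp only [WAB] at hE
      have h2 : (YL (LF F) Om z - y) * (YL (LF F) Om z + y) = 0 := by
        rw [hX] at hY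
        linear_combination hY - hE
      rcases mul_eq_zero.1 h2 with h3 | h3
      · obtain ⟨hns, e⟩ := p1 z hz
        refine ⟨z, ?_⟩
        rw [e, Affine.Point.some.injEq]
        exact ⟨hX, sub_eq_zero.1 h3⟩
      · have hz' : -z ∉ (LF F).lattice := fun h0 => hz (by simpa using (LF F).lattice.neg_mem h0)
        obtain ⟨hns, e⟩ := p1 (-z) hz'
        refine ⟨-z, ?_⟩
        rw [e, Affine.Point.some.injEq]
        constructor
        · rw [(LF F).weierstrassP_neg]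
          exact hX
        · rw [(LF F).derivWeierstrassP_neg, neg_div]
          change -(YL (LF F) Om z) = y
          linear_combination -h3

end H55K.CC
end

-- from Lib.H55K.C14
section

open NumberField WeierstrassCurve Polynomial

namespace H55K.CC

open H55P (IQ embF eF LF Per Pt ac mem_LF eF_inj eF_ne Nm Nm_eq)
open H35P (WAB)

variable {F : Type} [Field F] [NumberField F] [IQ F] {Ω : Type} [Field Ω] [DecidableEq Ω] [Algebra F Ω]
  {A B : F} {Om : ℂ} {j : Ω →+* ℂ}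

/-! Chunk C14 (M). With J (exists_J) and pt (exists_pt): U P z iff J P = pt z (u_iff: P = 0: J P = 0 = pt z iff z in Λ. P <> 0: J P <> 0 has coordinates j(xc P), j(yc P); two nonzero points with the same coordinates are
equal: cases). Everything follows. U_tors: n z in Λ: if z in Λ take P = 0, otherwise R = pt z is not 0, n • R = pt(n z) = 0, tors_range, exists_J (last part). U_alg: exists_J (last part) for R = pt z. -/

theorem c14_ext {k : Type} [Field k] {W : WeierstrassCurve k} {P Q : W.toAffine.Point} (hP : P ≠ 0) (hQ : Q ≠ 0)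
    (hx : xc P = xc Q) (hy : yc P = yc Q) : P = Q := by
  rcases P with _ | ⟨x, y, h⟩
  · exact absurd rfl hP
  rcases Q with _ | ⟨x', y', h'⟩
  · exact absurd rfl hQ
  have h1 : x = x' := hx
  have h2 : y = y' := hy
  subst h1 h2
  rfl

theorem c14_main (h : CH A B Om j) : ∃ (J : Pt (WAB A B) Ω →+ (WAB (embF F A) (embF F B)).toAffine.Point)
    (pt : ℂ →+ (WAB (embF F A) (embF F B)).toAffine.Point), Function.Injective J ∧ Function.Surjective pt ∧
    (∀ z, pt z = 0 ↔ z ∈ (LF F).lattice) ∧ (∀ P z, U A B Om j P z ↔ J P = pt z) ∧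
    (∀ R, R ≠ 0 → (∃ x, j x = xc R) → (∃ y, j y = yc R) → ∃ P, J P = R) ∧
    ∀ z, z ∉ (LF F).lattice → xc (pt z) = XL (LF F) Om z ∧ yc (pt z) = YL (LF F) Om z := by
  obtain ⟨J, hJ, hJ1, hJ2⟩ := exists_J h
  obtain ⟨pt, p0, p1, p2⟩ := H55K.CC.exists_pt h
  refine ⟨J, pt, hJ, p1, p0, fun P z => ?_, hJ2, p2⟩
  by_cases hP : P = 0
  · subst hP
    rw [map_zero, eq_comm, p0]
    constructor
    · intro h1
      exact (h1.zero_iff).1 rfl
    · intro h1
      exact Or.inl ⟨rfl, h1⟩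
  · obtain ⟨n0, hx, hy⟩ := hJ1 P hP
    constructor
    · rintro (⟨h1, -⟩ | ⟨-, h1, h2, h3⟩)
      · exact absurd h1 hP
      · obtain ⟨e1, e2⟩ := p2 z h1
        refine c14_ext n0 (fun h4 => h1 ((p0 z).1 h4)) ?_ ?_
        · rw [hx, e1, h2]
        · rw [hy, e2, h3]
    · intro h1
      have h2 : z ∉ (LF F).lattice := by
        intro h3
        apply n0
        rw [h1]
        exact (p0 z).2 h3
      obtain ⟨e1, e2⟩ := p2 z h2
      refine Or.inr ⟨hP, h2, ?_, ?_⟩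
      · rw [← hx, h1, e1]
      · rw [← hy, h1, e2]

theorem U_ex (h : CH A B Om j) (P : Pt (WAB A B) Ω) : ∃ z, U A B Om j P z := by
  obtain ⟨J, pt, hJ, p1, p0, hU, hR, hc⟩ := c14_main h
  obtain ⟨z, hz⟩ := p1 (J P)
  exact ⟨z, (hU P z).2 hz.symm⟩

theorem U_add (h : CH A B Om j) {P Q : Pt (WAB A B) Ω} {z w : ℂ} (hP : U A B Om j P z) (hQ : U A B Om j Q w) :
    U A B Om j (P + Q) (z + w) := by
  obtain ⟨J, pt, hJ, p1, p0, hU, hR, hc⟩ := c14_main h
  rw [hU] at hP hQ ⊢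
  rw [map_add, map_add, hP, hQ]

theorem U_inj (h : CH A B Om j) {P Q : Pt (WAB A B) Ω} {z : ℂ} (hP : U A B Om j P z) (hQ : U A B Om j Q z) :
    P = Q := by
  obtain ⟨J, pt, hJ, p1, p0, hU, hR, hc⟩ := c14_main h
  rw [hU] at hP hQ
  exact hJ (hP.trans hQ.symm)

theorem U_mod (h : CH A B Om j) {P : Pt (WAB A B) Ω} {z w : ℂ} (hP : U A B Om j P z) :
    U A B Om j P w ↔ z - w ∈ (LF F).lattice := by
  obtain ⟨J, pt, hJ, p1, p0, hU, hR, hc⟩ := c14_main h
  rw [hU] at hP ⊢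
  rw [hP, ← sub_eq_zero, ← map_sub, p0]

theorem U_tors [IsAlgClosed Ω] (h : CH A B Om j) {n : ℕ} (hn : 0 < n) {z : ℂ} (hz : (n : ℂ) * z ∈ (LF F).lattice) :
    ∃ P, U A B Om j P z := by
  obtain ⟨J, pt, hJ, p1, p0, hU, hR, hc⟩ := c14_main h
  by_cases h1 : z ∈ (LF F).lattice
  · exact ⟨0, Or.inl ⟨rfl, h1⟩⟩
  · have h2 : pt z ≠ 0 := fun h3 => h1 ((p0 z).1 h3)
    have h4 : n • pt z = 0 := by
      rw [← map_nsmul, nsmul_eq_mul]
      exact (p0 _).2 hz
    obtain ⟨h5, h6⟩ := tors_range h (pt z) h2 hn h4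
    obtain ⟨P, hP⟩ := hR _ h2 h5 h6
    exact ⟨P, (hU P z).2 hP⟩

theorem U_alg (h : CH A B Om j) {z : ℂ} (hz : z ∉ (LF F).lattice) {x y : Ω} (hx : j x = XL (LF F) Om z)
    (hy : j y = YL (LF F) Om z) : ∃ P, U A B Om j P z := by
  obtain ⟨J, pt, hJ, p1, p0, hU, hR, hc⟩ := c14_main h
  have h2 : pt z ≠ 0 := fun h3 => hz ((p0 z).1 h3)
  obtain ⟨e1, e2⟩ := hc z hz
  obtain ⟨P, hP⟩ := hR _ h2 ⟨x, by rw [hx, e1]⟩ ⟨y, by rw [hy, e2]⟩
  exact ⟨P, (hU P z).2 hP⟩

end H55K.CC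
end

-- from Lib.H55K.C22
section

open NumberField WeierstrassCurve Polynomial

namespace H55K.CC

open H55P (IQ embF eF LF Per Pt ac mem_LF eF_inj eF_ne Nm Nm_eq)
open H35P (WAB)

variable {F : Type} [Field F] [NumberField F] [IQ F] {Ω : Type} [Field Ω] [DecidableEq Ω] [Algebra F Ω]
  {A B : F} {Om : ℂ} {j : Ω →+* ℂ}

/-- The polynomials N, D give multiplication by β on the x-coordinates. -/
def MR (L : PeriodPair) (Om β : ℂ) (N D : Polynomial ℂ) : Prop := ∀ z, β * z ∉ L.lattice →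
  D.eval (XL L Om z) ≠ 0 ∧ XL L Om (β * z) * D.eval (XL L Om z) = N.eval (XL L Om z)

/-! Chunk C22 (M). mr_nn: β z not in Λ. E1 at z and at -z (wp even): adding, 2 β^2 wp(β z) = 2 wp z + sum over S of (wp(z + r) + wp(z - r) - 2 wp r); divide by 2 Om^2, xl_add_sub (Rep.z_out, Rep.zr_out, Rep.zs_out, h.out):
β^2 XL(β z) = XL z + sum over S of (((x + t)(t x + A) + 2B)/(x - t)^2 - t) with x = XL z, t = XL r. Then nnP_eval, ddP_eval. exists_ND0: S from exists_Rep; r in S: a point T_r with U T_r r (U_tors, lat_nm), t r = xc T_r,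
j (t r) = XL r (U.xc_eq); ddP_map, nnP_map (replace j (t r) by XL r under the products and sums over S: mr_nn for a function t' with t' r = XL r for r in S, or Finset.prod_congr). -/

theorem mr_nn {L : PeriodPair} {A B Om β : ℂ} (hO : Om ≠ 0) (g2 : L.g₂ = -4 * A * Om ^ 4)
    (g3 : L.g₃ = -4 * B * Om ^ 6) {S : Finset ℂ} (h : Rep L β S) (t : ℂ → ℂ) (ht : ∀ r ∈ S, t r = XL L Om r) :
    MR L Om β (nnP S t β A B) (ddP S t) := by
  intro z hz
  have hz0 := h.z_out hz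
  have hOm : Om ^ 2 ≠ 0 := pow_ne_zero 2 hO
  have hβ : β ^ 2 ≠ 0 := pow_ne_zero 2 h.ne
  have hadd : ∀ r ∈ S, XL L Om z - XL L Om r ≠ 0 ∧ XL L Om (z + r) + XL L Om (z - r) =
      2 * ((XL L Om z + XL L Om r) * (XL L Om r * XL L Om z + A) + 2 * B) / (XL L Om z - XL L Om r) ^ 2 :=
    fun r hr => xl_add_sub L hO g2 g3 hz0 (h.out r hr) (h.zr_out hz hr) (h.zs_out hz hr)
  have hx : ∀ r ∈ S, XL L Om z - t r ≠ 0 := by
    intro r hr
    rw [ht r hr]
    exact (hadd r hr).1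
  refine ⟨ddP_eval S t hx, ?_⟩
  have h1 := E1 h hz
  have hz' : β * (-z) ∉ L.lattice := by
    rw [mul_neg, neg_mem_iff]
    exact hz
  have h2 := E1 h hz'
  rw [mul_neg, L.weierstrassP_neg, L.weierstrassP_neg] at h2
  have h3 : ∀ r, L.weierstrassP (-z + r) = L.weierstrassP (z - r) := by
    intro r
    rw [← L.weierstrassP_neg]
    congr 1
    ring
  simp only [h3] at h2
  have h4 : β ^ 2 * XL L Om (β * z) = XL L Om z +
      ∑ r ∈ S, (((XL L Om z + t r) * (t r * XL L Om z + A) + 2 * B) / (XL L Om z - t r) ^ 2 - t r) := by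
    have h5 : ∑ r ∈ S, (((XL L Om z + t r) * (t r * XL L Om z + A) + 2 * B) / (XL L Om z - t r) ^ 2 - t r) =
        (∑ r ∈ S, (L.weierstrassP (z + r) - L.weierstrassP r)) / (2 * Om ^ 2) +
        (∑ r ∈ S, (L.weierstrassP (z - r) - L.weierstrassP r)) / (2 * Om ^ 2) := by
      rw [← add_div, ← Finset.sum_add_distrib, Finset.sum_div]
      apply Finset.sum_congr rfl
      intro r hr
      have h6 := (hadd r hr).2
      rw [ht r hr]
      have h7 : ((XL L Om z + XL L Om r) * (XL L Om r * XL L Om z + A) + 2 * B) / (XL L Om z - XL L Om r) ^ 2 =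
          (XL L Om (z + r) + XL L Om (z - r)) / 2 := by
        rw [h6]
        ring
      rw [h7]
      unfold XL
      field_simp
      ring
    rw [h5]
    have h8 : XL L Om (β * z) = L.weierstrassP (β * z) / Om ^ 2 := rfl
    have h9 : XL L Om z = L.weierstrassP z / Om ^ 2 := rfl
    rw [h8, h9]
    set s1 := ∑ r ∈ S, (L.weierstrassP (z + r) - L.weierstrassP r)
    set s2 := ∑ r ∈ S, (L.weierstrassP (z - r) - L.weierstrassP r)
    field_simp
    linear_combination h1 + h2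
  have h10 := nnP_eval S t h.ne A B hx
  rw [← h4] at h10
  apply mul_left_cancel₀ hβ
  rw [h10]
  ring

theorem exists_ND0 [IsAlgClosed Ω] (h : CH A B Om j) {a : 𝓞 F} (ha : a ≠ 0) : ∃ (d : ℕ) (N D : Polynomial Ω),
    N.natDegree ≤ d + 1 ∧ ak Ω a ^ 2 * N.coeff (d + 1) = 1 ∧ D.natDegree ≤ d ∧ D.coeff d = 1 ∧
    MR (LF F) Om (eF F a) (N.map j) (D.map j) := by
  classical
  obtain ⟨S, hS⟩ := exists_Rep ha
  have hT : ∀ r : ℂ, ∃ x : Ω, r ∈ S → j x = XL (LF F) Om r := by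
    intro r
    by_cases hr : r ∈ S
    · obtain ⟨hn, hn'⟩ := lat_nm ha (hS.mem r hr)
      obtain ⟨P, hP⟩ := U_tors h hn hn'
      exact ⟨xc P, fun _ => hP.xc_eq (hS.out r hr)⟩
    · exact ⟨0, fun h1 => absurd h1 hr⟩
  choose t ht using hT
  have hj : j (ak Ω a) = eF F a := h.ovr _
  have hak : ak Ω a ≠ 0 := by
    intro h1
    rw [h1, map_zero] at hj
    exact eF_ne ha hj.symm
  refine ⟨2 * S.card, nnP S t (ak Ω a) (algebraMap F Ω A) (algebraMap F Ω B), ddP S t,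
    (nnP_deg S t hak _ _).1, (nnP_deg S t hak _ _).2, (ddP_deg S t).1, (ddP_deg S t).2, ?_⟩
  rw [nnP_map, ddP_map, hj, h.ovr, h.ovr]
  exact mr_nn h.per.ne h.per.g2 h.per.g3 hS _ fun r hr => ht r hr

end H55K.CC
end

-- from Lib.H55K.C23
section

open NumberField WeierstrassCurve Polynomial

namespace H55K.CC

/-! Chunk C23 (S/M). XL' = wp'/Om^2 = 2 Om YL. The function t -> XL(β t) D(XL t) - N(XL t) is 0 for t near z ({β t not in Λ} is open, H35P.compl_open), so its derivative at z is 0 (H35P.wp_hasDeriv, Polynomial.hasDerivAt, chain rule):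
β 2 Om YL(β z) D(x) + XL(β z) D'(x) 2 Om YL z - N'(x) 2 Om YL z = 0, x = XL z. Multiply by D(x)/(2 Om) and use XL(β z) D(x) = N(x). -/

theorem c23_XL {L : PeriodPair} {Om z : ℂ} (hO : Om ≠ 0) (hz : z ∉ L.lattice) :
    HasDerivAt (XL L Om) (2 * Om * YL L Om z) z := by
  have h1 := (H35P.wp_hasDeriv L z hz).div_const (Om ^ 2)
  have e1 : L.derivWeierstrassP z / Om ^ 2 = 2 * Om * YL L Om z := by
    unfold YL
    field_simp
  rw [e1] at h1
  exact h1

theorem mr_deriv {L : PeriodPair} {Om β : ℂ} (hO : Om ≠ 0) (st : ∀ l ∈ L.lattice, β * l ∈ L.lattice) {N D : Polynomial ℂ}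
    (h : MR L Om β N D) {z : ℂ} (hz : β * z ∉ L.lattice) :
    β * YL L Om (β * z) * D.eval (XL L Om z) ^ 2 =
      (derivative N * D - N * derivative D).eval (XL L Om z) * YL L Om z := by
  have hz0 : z ∉ L.lattice := fun h0 => hz (st z h0)
  have hβ : HasDerivAt (fun t : ℂ => β * t) β z := by
    simpa using (hasDerivAt_id z).const_mul β
  have h1 : HasDerivAt (fun t => XL L Om (β * t)) (2 * Om * YL L Om (β * z) * β) z :=
    HasDerivAt.comp z (c23_XL hO hz) hβ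
  have h2 : HasDerivAt (fun t => D.eval (XL L Om t)) ((derivative D).eval (XL L Om z) * (2 * Om * YL L Om z)) z :=
    HasDerivAt.comp z (D.hasDerivAt (XL L Om z)) (c23_XL hO hz0)
  have h3 : HasDerivAt (fun t => N.eval (XL L Om t)) ((derivative N).eval (XL L Om z) * (2 * Om * YL L Om z)) z :=
    HasDerivAt.comp z (N.hasDerivAt (XL L Om z)) (c23_XL hO hz0)
  have h4 := (h1.mul h2).sub h3
  have h5 : (fun t => XL L Om (β * t) * D.eval (XL L Om t) - N.eval (XL L Om t)) =ᶠ[nhds z] fun _ => (0 : ℂ) := by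
    have ho : IsOpen {t : ℂ | β * t ∉ L.lattice} :=
      (H35P.compl_open L).preimage (continuous_const_mul β)
    filter_upwards [ho.mem_nhds hz] with t ht
    rw [(h t ht).2, sub_self]
  have h6 : HasDerivAt (fun t => XL L Om (β * t) * D.eval (XL L Om t) - N.eval (XL L Om t)) 0 z :=
    (hasDerivAt_const z (0 : ℂ)).congr_of_eventuallyEq h5
  have h7 := h4.unique h6
  have h8 := (h z hz).2
  have h9 : (2 : ℂ) * Om ≠ 0 := mul_ne_zero two_ne_zero hO
  apply mul_left_cancel₀ h9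
  simp only [eval_sub, eval_mul]
  linear_combination (D.eval (XL L Om z)) * h7 - 2 * Om * YL L Om z * (derivative D).eval (XL L Om z) * h8

end H55K.CC
end
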