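import Mathlib
import Pool.Agent.Lib.H1M.PP.D_H55P_Stm
import Pool.Agent.Lib.H1M.PP.M001
import Pool.Agent.Lib.H1M.PP.M010
import Pool.Agent.Lib.H1M.PP.M013
import Pool.Agent.Lib.H1M.PP.M021
import Pool.Agent.Lib.H1M.PP.M025
import Pool.Agent.Lib.H1M.PP.M033
import Pool.Agent.Lib.H1M.PP.M037
import Pool.Agent.Lib.H1M.PP.M042

/-! Merged copies (to shorten the build) of Lib.H35T.I1, Lib.H55K.J1B, Lib.H55K.J2B, Lib.H55K.J3A, Lib.H55K.J2A, Lib.H55K.J4B, Lib.H55K.M2C, Lib.H55K.QC1A, Lib.H55K.J5, Lib.H55K.K10, Lib.H55K.SKU2. -/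

-- from Lib.H35T.I1
section

open NumberField IsDedekindDomain

namespace H35T

open H55B

/-! Chunk I1 (M): the local Euler factors as arithmetic functions and as Dirichlet series. euler_good, euler_bad: adapt H55B.I2_local_good,
I2_local_bad (I2_cast_ofPS, I2_map_invOfUnit, I2_ofPS_pow, absNorm_inertia). LEF_series, EF_analytic: see H55C.B8 (LEF_series, EF_analytic), with
a = conj(e(eta(gen v))) e(gen v) in place of e(gen v); |a|^2 = absNorm v. -/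

/-- The Frobenius eigenvalue. -/
noncomputable def fe (v : HeightOneSpectrum O) : ℂ := (starRingEnd ℂ) (e (eta (gen v))) * e (gen v)

theorem fe_mul_conj (v : HeightOneSpectrum O) (h3 : (3 : O) ∉ v.asIdeal) (h2 : (2 : O) ∉ v.asIdeal) :
    fe v * (starRingEnd ℂ) (fe v) = (Ideal.absNorm v.asIdeal : ℂ) := by
  unfold fe
  rw [map_mul, Complex.conj_conj, ← gen_mul_conj v h3]
  linear_combination (e (gen v) * (starRingEnd ℂ) (e (gen v))) * f4_eta v h3 h2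

theorem I1_conj (v : HeightOneSpectrum O) :
    (starRingEnd ℂ) (fe v) = e (eta (gen v)) * (starRingEnd ℂ) (e (gen v)) := by
  unfold fe
  rw [map_mul, Complex.conj_conj]

theorem I1_under {K : Type} [Field K] [NumberField K] [Algebra F K] (w : HeightOneSpectrum (𝓞 K))
    (h3 : (3 : 𝓞 K) ∉ w.asIdeal) (h2 : (2 : 𝓞 K) ∉ w.asIdeal) (v : HeightOneSpectrum O)
    (hv : v.asIdeal = w.asIdeal.under O) : (3 : O) ∉ v.asIdeal ∧ (2 : O) ∉ v.asIdeal := by
  constructor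
  · intro h
    apply h3
    rw [hv, Ideal.mem_comap, map_ofNat] at h
    exact h
  · intro h
    apply h2
    rw [hv, Ideal.mem_comap, map_ofNat] at h
    exact h

theorem I1_norm {K : Type} [Field K] [NumberField K] [Algebra F K] (w : HeightOneSpectrum (𝓞 K))
    (h3 : (3 : 𝓞 K) ∉ w.asIdeal) (h2 : (2 : 𝓞 K) ∉ w.asIdeal) (v : HeightOneSpectrum O)
    (hv : v.asIdeal = w.asIdeal.under O) {s : ℂ} (hs : 1 / 2 < s.re)
    {c : ℂ} (hc : ‖c‖ = ‖fe v‖ ^ (w.asIdeal.inertiaDeg O)) :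
    ‖c * (Ideal.absNorm w.asIdeal : ℂ) ^ (-s)‖ < 1 := by
  obtain ⟨hv3, hv2⟩ := I1_under w h3 h2 v hv
  have hq := H55C.b8_one_lt w
  have hq0 : (0 : ℝ) < (Ideal.absNorm w.asIdeal : ℝ) := by
    have : 0 < Ideal.absNorm w.asIdeal := by omega
    exact_mod_cast this
  have hfe : ‖fe v‖ ^ 2 = (Ideal.absNorm v.asIdeal : ℝ) := by
    have h := fe_mul_conj v hv3 hv2
    rw [Complex.mul_conj, Complex.normSq_eq_norm_sq] at h
    exact_mod_cast h
  have hsq : ‖c‖ ^ 2 = (Ideal.absNorm w.asIdeal : ℝ) := by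
    rw [hc, absNorm_inertia K w v hv]
    push_cast
    rw [← hfe, ← pow_mul, ← pow_mul, mul_comm]
  have hc2 : ‖c‖ = (Ideal.absNorm w.asIdeal : ℝ) ^ (1 / 2 : ℝ) := by
    rw [← hsq, ← Real.sqrt_eq_rpow, Real.sqrt_sq (norm_nonneg _)]
  rw [norm_mul, hc2, Complex.norm_natCast_cpow_of_pos (by omega), Complex.neg_re,
    ← Real.rpow_add hq0]
  apply Real.rpow_lt_one_of_one_lt_of_neg
  · exact_mod_cast hq
  · linarith

theorem euler_good {K : Type} [Field K] [NumberField K] [Algebra F K] (w : HeightOneSpectrum (𝓞 K))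
    (h3 : (3 : 𝓞 K) ∉ w.asIdeal) (h2 : (2 : 𝓞 K) ∉ w.asIdeal) (v : HeightOneSpectrum O)
    (hv : v.asIdeal = w.asIdeal.under O) (f : ℕ) (hf : w.asIdeal.inertiaDeg O = f) (hf0 : f ≠ 0) :
    LEF K w = ArithmeticFunction.ofPowerSeries (Ideal.absNorm v.asIdeal)
       ((1 - PowerSeries.C (fe v ^ f) * PowerSeries.X ^ f)⁻¹ *
        (1 - PowerSeries.C ((starRingEnd ℂ) (fe v) ^ f) * PowerSeries.X ^ f)⁻¹) := by
  have hq : 1 < Ideal.absNorm w.asIdeal := H55C.b8_one_lt w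
  have hP := loc_good K w h3 h2 v hv
  have hP0 : (((E144.baseChange K).baseChange (w.adicCompletion K)).localPolynomial
      (w.adicCompletionIntegers K)).coeff 0 = 1 := by
    have := congrArg (fun P : Polynomial ℂ => P.coeff 0) hP
    simp only [Polynomial.coeff_map, Polynomial.mul_coeff_zero] at this
    simpa using this
  rw [I1_conj]
  unfold LEF fe
  rw [WeierstrassCurve.localEulerFactor, (residue_card K w).2, I2_cast_ofPS hq,
    WeierstrassCurve.localPowerSeries, I2_map_invOfUnit _ hP0, hP, absNorm_inertia K w v hv, hf]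
  rw [← I2_ofPS_pow hf0]
  congr 2
  simp

theorem euler_bad {K : Type} [Field K] [NumberField K] [Algebra F K] (w : HeightOneSpectrum (𝓞 K))
    (h : w.valuation K (2 : K) = WithZero.exp (-1 : ℤ) ∨ w.valuation K (3 : K) = WithZero.exp (-2 : ℤ)) :
    LEF K w = 1 := by
  have hP : ((E144.baseChange K).baseChange (w.adicCompletion K)).localPolynomial
      (w.adicCompletionIntegers K) = 1 := by
    rcases h with h | h
    · exact loc_bad2 K w h
    · exact loc_bad3 K w h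
  unfold LEF
  rw [WeierstrassCurve.localEulerFactor, WeierstrassCurve.localPowerSeries, hP]
  have : PowerSeries.invOfUnit ((1 : Polynomial ℤ) : PowerSeries ℤ) 1 = 1 := by
    have h := PowerSeries.mul_invOfUnit ((1 : Polynomial ℤ) : PowerSeries ℤ) 1 (by simp)
    simpa using h
  rw [this, map_one]
  simp

theorem I1_LEF {K : Type} [Field K] [NumberField K] [Algebra F K] (w : HeightOneSpectrum (𝓞 K))
    (h3 : (3 : 𝓞 K) ∉ w.asIdeal) (h2 : (2 : 𝓞 K) ∉ w.asIdeal) (v : HeightOneSpectrum O)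
    (hv : v.asIdeal = w.asIdeal.under O) :
    LEF K w = ArithmeticFunction.ofPowerSeries (Ideal.absNorm w.asIdeal)
        ((1 - PowerSeries.C (fe v ^ (w.asIdeal.inertiaDeg O)) * PowerSeries.X)⁻¹) *
      ArithmeticFunction.ofPowerSeries (Ideal.absNorm w.asIdeal)
        ((1 - PowerSeries.C ((starRingEnd ℂ) (fe v) ^ (w.asIdeal.inertiaDeg O)) *
          PowerSeries.X)⁻¹) := by
  have hin := absNorm_inertia K w v hv
  have hf0 : w.asIdeal.inertiaDeg O ≠ 0 := by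
    intro h0
    rw [h0, pow_zero] at hin
    have h1 := H55C.b8_one_lt w
    omega
  rw [euler_good w h3 h2 v hv _ rfl hf0, ← I2_ofPS_pow hf0, ← hin, PowerSeries.mul_inv_rev, map_mul,
    mul_comm]

theorem LEF_series {K : Type} [Field K] [NumberField K] [Algebra F K] (w : HeightOneSpectrum (𝓞 K))
    (h3 : (3 : 𝓞 K) ∉ w.asIdeal) (h2 : (2 : 𝓞 K) ∉ w.asIdeal) (v : HeightOneSpectrum O)
    (hv : v.asIdeal = w.asIdeal.under O) (s : ℂ) (hs : 1 / 2 < s.re) :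
    LSeriesHasSum (fun n => LEF K w n) s
      (((1 - fe v ^ (w.asIdeal.inertiaDeg O) * (Ideal.absNorm w.asIdeal : ℂ) ^ (-s)) *
        (1 - (starRingEnd ℂ) (fe v) ^ (w.asIdeal.inertiaDeg O) *
          (Ideal.absNorm w.asIdeal : ℂ) ^ (-s)))⁻¹) := by
  rw [I1_LEF w h3 h2 v hv, mul_inv]
  apply ArithmeticFunction.LSeriesHasSum_mul
  · exact H55C.b8_geo (H55C.b8_one_lt w) _ _ (I1_norm w h3 h2 v hv hs (norm_pow _ _))
  · refine H55C.b8_geo (H55C.b8_one_lt w) _ _ (I1_norm w h3 h2 v hv hs ?_)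
    rw [norm_pow, RCLike.norm_conj]

theorem EF_analytic {K : Type} [Field K] [NumberField K] [Algebra F K] (w : HeightOneSpectrum (𝓞 K))
    (h3 : (3 : 𝓞 K) ∉ w.asIdeal) (h2 : (2 : 𝓞 K) ∉ w.asIdeal) (v : HeightOneSpectrum O)
    (hv : v.asIdeal = w.asIdeal.under O) :
    AnalyticOnNhd ℂ (fun s : ℂ =>
      (((1 - fe v ^ (w.asIdeal.inertiaDeg O) * (Ideal.absNorm w.asIdeal : ℂ) ^ (-s)) *
        (1 - (starRingEnd ℂ) (fe v) ^ (w.asIdeal.inertiaDeg O) *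
          (Ideal.absNorm w.asIdeal : ℂ) ^ (-s)))⁻¹)) {s | 1 / 2 < s.re} := by
  have hop : IsOpen {s : ℂ | 1 / 2 < s.re} := isOpen_lt continuous_const Complex.continuous_re
  apply DifferentiableOn.analyticOnNhd _ hop
  have hq := H55C.b8_one_lt w
  have hq0 : (Ideal.absNorm w.asIdeal : ℂ) ≠ 0 := by
    have : Ideal.absNorm w.asIdeal ≠ 0 := by omega
    exact_mod_cast this
  have hd : Differentiable ℂ (fun s : ℂ => (Ideal.absNorm w.asIdeal : ℂ) ^ (-s)) := fun s =>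
    (differentiableAt_id.neg).const_cpow (Or.inl hq0)
  intro s hs
  have hs' : 1 / 2 < s.re := hs
  refine DifferentiableAt.differentiableWithinAt (DifferentiableAt.inv ?_ ?_)
  · exact ((differentiableAt_const _).sub ((differentiableAt_const _).mul (hd s))).mul
      ((differentiableAt_const _).sub ((differentiableAt_const _).mul (hd s)))
  · refine mul_ne_zero ?_ ?_
    · intro h0
      have h1 := I1_norm w h3 h2 v hv hs' (c := fe v ^ (w.asIdeal.inertiaDeg O)) (norm_pow _ _)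
      rw [sub_eq_zero] at h0
      rw [← h0, norm_one] at h1
      exact lt_irrefl _ h1
    · intro h0
      have h1 := I1_norm w h3 h2 v hv hs' (c := (starRingEnd ℂ) (fe v) ^ (w.asIdeal.inertiaDeg O))
        (by rw [norm_pow, RCLike.norm_conj])
      rw [sub_eq_zero] at h0
      rw [← h0, norm_one] at h1
      exact lt_irrefl _ h1

end H35T
end

-- from Lib.H55K.J1B
section

open NumberField WeierstrassCurve

namespace H55K.JJ

open H35P (WAB Ker IntW)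

variable {k : Type} [Field k] [DecidableEq k] {W : WeierstrassCurve k} {V : ValuationSubring k}

/-! Chunk J1B (M). fn_add_out: P = (x1, y1), T = (x2, y2) with x2, y2 of value < 1, x1, y1 units: x1 - x2 is a unit, slope l = (y1 - y2)/(x1 - x2) in V, P + T = (x3, ..), x3 = l^2 + l - x1 - x2 (addX, h.a1, h.a2), with residue
(Y1/X1)^2 + Y1/X1 - X1 = (Y1^2 + X1 Y1 - X1^3)/X1^2 = 0: V(x3) < 1 and P + T <> 0 (Affine.Point.add_some, x1 <> x2). e0_neg: xc (-P) = xc P. e0_add_out: P in Ker: put Q = P + T. If E0 Q: Q in Fn: -T = P - Q... precisely P = Q + (-T) with Q in Fn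
and -T not in E0 is not in E0 by fn_add_out, but P in Ker is in E0 (e0_iff): contradiction; Q in Ker: T = Q - P in Ker (H35P.ker_sub): contradiction. P in Fn: fn_add_out. e0_add: if P + Q =: T is not in E0 then Q = -P + T is not in E0 (e0_add_out):
contradiction. -/

theorem fn_add_out (h : Nod W V) {P T : W.toAffine.Point} (hP : Fn V P) (hT : ¬ E0 V T) : ¬ E0 V (P + T) := by
  obtain ⟨hP0, hx1, hy1, -, -⟩ := fn_crd h hP
  obtain ⟨hT0, hx2, hy2⟩ := nod_out h hT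
  have hP' : V.valuation (xc P) = 1 := hP
  rcases P with _ | ⟨x₁, y₁, h₁⟩
  · exact absurd rfl hP0
  rcases T with _ | ⟨x₂, y₂, h₂⟩
  · exact absurd rfl hT0
  have hx1' : V.valuation x₁ = 1 := hP'
  have hx2' : V.valuation x₂ < 1 := hx2
  have hy2' : V.valuation y₂ < 1 := hy2
  have mx1 : x₁ ∈ V := hx1
  have my1 : y₁ ∈ V := hy1
  have mx2 : x₂ ∈ V := (V.valuation_le_one_iff _).1 hx2'.le
  have my2 : y₂ ∈ V := (V.valuation_le_one_iff _).1 hy2'.le
  have hne : x₁ ≠ x₂ := by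
    intro h0
    rw [h0] at hx1'
    exact absurd hx1' hx2'.ne
  have hX0 : rs V x₁ ≠ 0 := (rs_ne_zero mx1).2 hx1'
  have rx2 : rs V x₂ = 0 := (rs_eq_zero mx2).2 hx2'
  have ry2 : rs V y₂ = 0 := (rs_eq_zero my2).2 hy2'
  have hd : V.valuation (x₁ - x₂) = 1 := by
    rw [← rs_ne_zero (V.sub_mem mx1 mx2), rs_sub mx1 mx2, rx2, sub_zero]
    exact hX0
  have hsl : W.toAffine.slope x₁ x₂ y₁ y₂ = (y₁ - y₂) / (x₁ - x₂) := Affine.slope_of_X_ne hne
  have rsl : rs V ((y₁ - y₂) / (x₁ - x₂)) = rs V y₁ / rs V x₁ := by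
    rw [rs_div (V.sub_mem my1 my2) hd, rs_sub my1 my2, rs_sub mx1 mx2, rx2, ry2, sub_zero, sub_zero]
  have msl : (y₁ - y₂) / (x₁ - x₂) ∈ V := by
    rw [← V.valuation_le_one_iff, map_div₀, hd, div_one]
    exact (V.valuation_le_one_iff _).2 (V.sub_mem my1 my2)
  have heq : y₁ ^ 2 + x₁ * y₁ = x₁ ^ 3 + (W.a₄ * x₁ + W.a₆) := by
    have h3 := h₁.1
    rw [Affine.equation_iff] at h3
    have e1 : W.toAffine.a₁ = 1 := h.a1
    have e2 : W.toAffine.a₂ = 0 := h.a2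
    have e3 : W.toAffine.a₃ = 0 := h.a3
    rw [e1, e2, e3] at h3
    linear_combination h3
  have m4 : W.a₄ ∈ V := (V.valuation_le_one_iff _).1 h.a4.le
  have m6 : W.a₆ ∈ V := (V.valuation_le_one_iff _).1 h.a6.le
  have r4 : rs V W.a₄ = 0 := (rs_eq_zero m4).2 h.a4
  have r6 : rs V W.a₆ = 0 := (rs_eq_zero m6).2 h.a6
  have hres : rs V y₁ ^ 2 + rs V x₁ * rs V y₁ = rs V x₁ ^ 3 := by
    have h4 := congrArg (rs V) heq
    rw [rs_add (pow_mem my1 2) (V.mul_mem _ _ mx1 my1), rs_pow my1, rs_mul mx1 my1,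
      rs_add (pow_mem mx1 3) (V.add_mem _ _ (V.mul_mem _ _ m4 mx1) m6), rs_pow mx1,
      rs_add (V.mul_mem _ _ m4 mx1) m6, rs_mul m4 mx1, r4, r6, zero_mul, add_zero, add_zero] at h4
    exact h4
  have hx3 : W.toAffine.addX x₁ x₂ (W.toAffine.slope x₁ x₂ y₁ y₂) =
      ((y₁ - y₂) / (x₁ - x₂)) ^ 2 + (y₁ - y₂) / (x₁ - x₂) - x₁ - x₂ := by
    have e1 : W.toAffine.a₁ = 1 := h.a1
    have e2 : W.toAffine.a₂ = 0 := h.a2
    rw [Affine.addX, e1, e2, hsl]
    ring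
  have m3 : ((y₁ - y₂) / (x₁ - x₂)) ^ 2 + (y₁ - y₂) / (x₁ - x₂) - x₁ - x₂ ∈ V :=
    V.sub_mem (V.sub_mem (V.add_mem _ _ (pow_mem msl 2) msl) mx1) mx2
  have hv3 : V.valuation (W.toAffine.addX x₁ x₂ (W.toAffine.slope x₁ x₂ y₁ y₂)) < 1 := by
    rw [hx3, ← rs_eq_zero m3, rs_sub (V.sub_mem (V.add_mem _ _ (pow_mem msl 2) msl) mx1) mx2,
      rs_sub (V.add_mem _ _ (pow_mem msl 2) msl) mx1, rs_add (pow_mem msl 2) msl, rs_pow msl, rsl, rx2, sub_zero]
    field_simp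
    linear_combination hres
  rw [Affine.Point.add_some (fun h0 => hne h0.1)]
  rintro (h0 | h0)
  · cases h0
  · exact absurd hv3 (not_lt.2 h0)

theorem e0_neg {P : W.toAffine.Point} : E0 V (-P) ↔ E0 V P := by
  rcases P with _ | ⟨x₁, y₁, h₁⟩
  · exact Iff.rfl
  · rw [Affine.Point.neg_some]
    constructor
    · rintro (h0 | h0)
      · cases h0
      · exact Or.inr h0
    · rintro (h0 | h0)
      · cases h0
      · exact Or.inr h0

theorem e0_add_out (h : Nod W V) {P T : W.toAffine.Point} (hP : E0 V P) (hT : ¬ E0 V T) : ¬ E0 V (P + T) := by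
  rcases e0_iff.1 hP with hk | hf
  · intro hQ
    rcases e0_iff.1 hQ with hk2 | hf2
    · have h1 := H35P.ker_sub h.intW (P + T) P hk2 hk
      rw [add_sub_cancel_left] at h1
      exact hT (e0_iff.2 (Or.inl h1))
    · have h1 := fn_add_out h hf2 (T := -T) (fun h2 => hT (e0_neg.1 h2))
      rw [← sub_eq_add_neg, add_sub_cancel_right] at h1
      exact h1 hP
  · exact fn_add_out h hf hT

theorem e0_add (h : Nod W V) {P Q : W.toAffine.Point} (hP : E0 V P) (hQ : E0 V Q) : E0 V (P + Q) := by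
  by_contra h1
  have h2 := e0_add_out h (e0_neg.2 hP) h1
  rw [neg_add_cancel_left] at h2
  exact h2 hQ

end H55K.JJ
end

-- from Lib.H55K.J2B
section

open NumberField WeierstrassCurve

namespace H55K.JJ

open H35P (WAB Ker IntW)

variable {k : Type} [Field k] [DecidableEq k] {W : WeierstrassCurve k} {V : ValuationSubring k}

omit [DecidableEq k] in
theorem j2b_le {a : k} (h : a ∈ V) : V.valuation a ≤ 1 := (V.valuation_le_one_iff a).2 h

/-- An integral combination with one factor of value less than one. -/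
theorem j2b_mul_lt {a b : k} (h : a ∈ V) (hb : V.valuation b < 1) : V.valuation (a * b) < 1 := by
  rw [map_mul]
  exact (mul_le_of_le_one_left' (j2b_le h)).trans_lt hb

theorem j2b_big (hI : IntW W V) {x₁ x₂ l : k} (h1 : x₁ ∈ V) (h2 : x₂ ∈ V) (hl : 1 < V.valuation l) :
    1 < V.valuation (W.toAffine.addX x₁ x₂ l) := by
  have e : W.toAffine.addX x₁ x₂ l = l ^ 2 + (W.a₁ * l - (W.a₂ + x₁ + x₂)) := by
    unfold Affine.addX
    ring
  have hll : V.valuation l < V.valuation (l ^ 2) := by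
    rw [map_pow, pow_two]
    exact lt_mul_of_one_lt_left (zero_lt_one.trans hl) hl
  have h3 : V.valuation (W.a₁ * l - (W.a₂ + x₁ + x₂)) < V.valuation (l ^ 2) := by
    refine lt_of_le_of_lt (V.valuation.map_sub_le ?_ ?_) hll
    · rw [map_mul]
      exact mul_le_of_le_one_left' (j2b_le hI.a1)
    · exact (j2b_le (V.add_mem _ _ (V.add_mem _ _ hI.a2 h1) h2)).trans hl.le
  rw [e, V.valuation.map_add_eq_of_lt_left h3]
  exact hl.trans hll

omit [DecidableEq k] in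
theorem j2b_div {a b : k} (ha : V.valuation a = 1) (hb : V.valuation b < 1) (hb0 : b ≠ 0) :
    1 < V.valuation (a / b) := by
  rw [map_div₀, ha, one_div]
  exact (one_lt_inv₀ ((V.valuation.pos_iff).2 hb0)).2 hb

theorem j2b_rd (hI : IntW W V) (P Q : W.toAffine.Point) (h : H35P.Cong V P Q)
    (hns : V.valuation (2 * yc P + W.a₁ * xc P + W.a₃) < 1 →
      V.valuation (3 * xc P ^ 2 + 2 * W.a₂ * xc P + W.a₄ - W.a₁ * yc P) = 1) : Ker V (P - Q) := by
  obtain ⟨x₁, y₁, h₁, x₂, y₂, h₂, rfl, rfl, hx1, hy1, hx2, hy2, hx, hy⟩ := h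
  change V.valuation (2 * y₁ + W.a₁ * x₁ + W.a₃) < 1 →
      V.valuation (3 * x₁ ^ 2 + 2 * W.a₂ * x₁ + W.a₄ - W.a₁ * y₁) = 1 at hns
  rw [sub_eq_add_neg, Affine.Point.neg_some]
  by_cases hc : x₁ = x₂ ∧ y₁ = W.toAffine.negY x₂ (W.toAffine.negY x₂ y₂)
  · rw [Affine.Point.add_of_Y_eq hc.1 hc.2]
    trivial
  rw [Affine.Point.add_some hc]
  change 1 < V.valuation (W.toAffine.addX x₁ x₂ (W.toAffine.slope x₁ x₂ y₁ (W.toAffine.negY x₂ y₂)))
  refine j2b_big hI hx1 hx2 ?_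
  have hE1 := (Affine.equation_iff ..).1 h₁.1
  have hE2 := (Affine.equation_iff ..).1 h₂.1
  by_cases hxx : x₁ = x₂
  · -- tangent
    have hyy : y₁ ≠ y₂ := fun h => hc ⟨hxx, by rw [Affine.negY_negY]; exact h⟩
    have hneg : y₁ = W.toAffine.negY x₂ y₂ := (Affine.Y_eq_of_X_eq h₁.1 h₂.1 hxx).resolve_left hyy
    have hy' : y₁ ≠ W.toAffine.negY x₂ (W.toAffine.negY x₂ y₂) := fun h => hc ⟨hxx, h⟩
    rw [Affine.slope_of_Y_ne hxx hy']
    have e : y₁ - W.toAffine.negY x₁ y₁ = y₁ - y₂ := by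
      congr 1
      rw [hneg, hxx, Affine.negY_negY]
    have e2 : 2 * y₁ + W.a₁ * x₁ + W.a₃ = y₁ - y₂ := by
      rw [← e]
      unfold Affine.negY
      ring
    rw [e]
    exact j2b_div (hns (by rw [e2]; exact hy)) hy (sub_ne_zero.2 hyy)
  · -- chord
    have hxx0 : x₁ - x₂ ≠ 0 := sub_ne_zero.2 hxx
    rw [Affine.slope_of_X_ne hxx]
    have hFy1 : V.valuation (2 * y₁ + W.a₁ * x₁ + W.a₃) ≤ 1 :=
      j2b_le (V.add_mem _ _ (V.add_mem _ _ (V.mul_mem _ _ (by simp) hy1) (V.mul_mem _ _ hI.a1 hx1)) hI.a3)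
    have hnegY : y₁ - W.toAffine.negY x₂ y₂ = y₁ + y₂ + W.a₁ * x₂ + W.a₃ := by
      unfold Affine.negY
      ring
    rcases hFy1.lt_or_eq with hF | hF
    · have hFx := hns hF
      have hG1 : V.valuation (x₁ ^ 2 + x₁ * x₂ + x₂ ^ 2 + W.a₂ * (x₁ + x₂) + W.a₄ - W.a₁ * y₁) = 1 := by
        have e : x₁ ^ 2 + x₁ * x₂ + x₂ ^ 2 + W.a₂ * (x₁ + x₂) + W.a₄ - W.a₁ * y₁ =
            (3 * x₁ ^ 2 + 2 * W.a₂ * x₁ + W.a₄ - W.a₁ * y₁) + -((x₂ + 2 * x₁ + W.a₂) * (x₁ - x₂)) := by ring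
        rw [e, V.valuation.map_add_eq_of_lt_left, hFx]
        rw [hFx, Valuation.map_neg]
        exact j2b_mul_lt (V.add_mem _ _ (V.add_mem _ _ hx2 (V.mul_mem _ _ (by simp) hx1)) hI.a2) hx
      have hid : (y₁ - W.toAffine.negY x₂ y₂) * (y₁ - y₂) =
          (x₁ - x₂) * (x₁ ^ 2 + x₁ * x₂ + x₂ ^ 2 + W.a₂ * (x₁ + x₂) + W.a₄ - W.a₁ * y₁) := by
        rw [hnegY]
        linear_combination hE1 - hE2
      have hyy : y₁ - y₂ ≠ 0 := by
        intro h0
        rw [h0, mul_zero] at hid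
        rcases mul_eq_zero.1 hid.symm with h | h
        · exact hxx0 h
        · rw [h, map_zero] at hG1
          exact zero_ne_one hG1
      have e : (y₁ - W.toAffine.negY x₂ y₂) / (x₁ - x₂) =
          (x₁ ^ 2 + x₁ * x₂ + x₂ ^ 2 + W.a₂ * (x₁ + x₂) + W.a₄ - W.a₁ * y₁) / (y₁ - y₂) := by
        rw [div_eq_div_iff hxx0 hyy, hid]
        ring
      rw [e]
      exact j2b_div hG1 hy hyy
    · have hn : V.valuation (y₁ - W.toAffine.negY x₂ y₂) = 1 := by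
        have e : y₁ - W.toAffine.negY x₂ y₂ = (2 * y₁ + W.a₁ * x₁ + W.a₃) + -((y₁ - y₂) + W.a₁ * (x₁ - x₂)) := by
          rw [hnegY]
          ring
        rw [e, V.valuation.map_add_eq_of_lt_left, hF]
        rw [hF, Valuation.map_neg]
        exact V.valuation.map_add_lt hy (j2b_mul_lt hI.a1 hx)
      exact j2b_div hn hx hxx0

/-! Chunk J2B (M). Port of H35P.rd (Lib/H35P/RD.lean; its private lemmas can be copied): in that proof GoodW is used only through nonsing at the point P. Here: at P = (x, y) in Fn: if V(2y + x) < 1 then V(3x^2 - y) = 1 (a2 = 0, a1 = 1, V(a4) < 1):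
residues: otherwise Y = 3X^2 and 2Y + X = 0, so 6X + 1 = 0 (X <> 0), and Y^2 + XY = X^3 gives 9X^4 + 3X^3 = X^3, 9X + 2 = 0, so 4 = 3 (18 X = -3 = -4), 1 = 0. The points are congruent: ub P = ub Q gives
rs x = xu u equal, rs y = rs x/(u - 1) equal (fn_ub), rs_eq. -/

theorem rd_fn (h : Nod W V) {P Q : W.toAffine.Point} (hP : Fn V P) (hQ : Fn V Q) (hu : ub V P = ub V Q) :
    Ker V (P - Q) := by
  obtain ⟨p0, p1, p2, -, -⟩ := fn_crd h hP
  obtain ⟨q0, q1, q2, -, -⟩ := fn_crd h hQ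
  obtain ⟨-, -, p5, p6, -, p8⟩ := fn_ub h hP
  obtain ⟨-, -, q5, q6, -, q8⟩ := fn_ub h hQ
  have hX : rs V (xc P) = rs V (xc Q) := by rw [p6, q6, hu]
  have hY : rs V (yc P) = rs V (yc Q) := by
    have h1 : ub V P - 1 ≠ 0 := sub_ne_zero.2 p5
    apply mul_right_cancel₀ h1
    rw [p8, hX, ← q8, hu]
  have hX0 : rs V (xc P) ≠ 0 := (rs_ne_zero p1).2 hP
  have hc : H35P.Cong V P Q := by
    have hx := (rs_eq p1 q1).1 hX
    have hy := (rs_eq p2 q2).1 hY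
    rcases P with _ | ⟨x₁, y₁, h₁⟩
    · exact absurd rfl p0
    rcases Q with _ | ⟨x₂, y₂, h₂⟩
    · exact absurd rfl q0
    exact ⟨x₁, y₁, h₁, x₂, y₂, h₂, rfl, rfl, p1, p2, q1, q2, hx, hy⟩
  refine j2b_rd h.intW P Q hc ?_
  rw [h.a1, h.a2, h.a3]
  intro h1
  have ha4 : W.a₄ ∈ V := h.intW.a4
  have e1 : 2 * yc P + 1 * xc P + 0 = 2 * yc P + xc P := by ring
  rw [e1] at h1
  have m2 : (2 : k) ∈ V := by exact_mod_cast natCast_mem V 2
  have m3 : (3 : k) ∈ V := by exact_mod_cast natCast_mem V 3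
  have r2 : rs V (2 : k) = 2 := by exact_mod_cast rs_nat (V := V) 2
  have r3 : rs V (3 : k) = 3 := by exact_mod_cast rs_nat (V := V) 3
  have h2y : 2 * yc P ∈ V := V.mul_mem _ _ m2 p2
  have h2 : rs V (2 * yc P + xc P) = 0 := (rs_eq_zero (V.add_mem _ _ h2y p1)).2 h1
  have h3 := z_sq h p0 p1 p2
  rw [h2] at h3
  rw [rs_add h2y p1, rs_mul m2 p2, r2] at h2
  have h4 : 4 * rs V (xc P) + 1 = 0 := by
    have h5 : rs V (xc P) ^ 2 * (4 * rs V (xc P) + 1) = 0 := by linear_combination -h3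
    rcases mul_eq_zero.1 h5 with h6 | h6
    · exact absurd (pow_eq_zero_iff two_ne_zero |>.1 h6) hX0
    · exact h6
  have mem : 3 * xc P ^ 2 ∈ V := V.mul_mem _ _ m3 (pow_mem p1 2)
  have e2 : 3 * xc P ^ 2 + 2 * 0 * xc P + W.a₄ - 1 * yc P = 3 * xc P ^ 2 + W.a₄ - yc P := by ring
  rw [e2]
  refine (rs_ne_zero (V.sub_mem (V.add_mem _ _ mem ha4) p2)).1 ?_
  rw [rs_sub (V.add_mem _ _ mem ha4) p2, rs_add mem ha4, rs_mul m3 (pow_mem p1 2), rs_pow p1, r3,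
    (rs_eq_zero ha4).2 h.a4, add_zero]
  intro h7
  have h8 : rs V (xc P) * (6 * rs V (xc P) + 1) = 0 := by linear_combination 2 * h7 + h2
  rcases mul_eq_zero.1 h8 with h9 | h9
  · exact hX0 h9
  · exact one_ne_zero (α := IsLocalRing.ResidueField V) (by linear_combination 3 * h4 - 2 * h9)

end H55K.JJ
end

-- from Lib.H55K.J3A
section

open NumberField WeierstrassCurve

namespace H55K.JJ

open H35P (WAB Ker IntW)

variable {k : Type} [Field k] [DecidableEq k] [IsAlgClosed k] {W : WeierstrassCurve k} {V : ValuationSubring k}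

/-! Chunk J3A (M). res_inf: suppose the residue field is finite with q elements. X^q - X - 1 (monic of degree q ≥ 2, coefficients in V) has a root a in k (IsAlgClosed), integral over V, so in V (IsIntegrallyClosed.isIntegral_iff, see k0_int in
Lib/H55K/K0A.lean); its residue b satisfies b^q - b = 1, but b^q = b (FiniteField.pow_card): contradiction. ex_fn: choose w0 in V with residue w (w <> 0, 1), x = w0/(w0 - 1)^2, a unit; y a root of Y^2 + x Y = x^3 + a4 x + a6 (IsAlgClosed: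
exists_pow_nat_eq after completing the square needs 2 <> 0; use IsAlgClosed.exists_root of the quadratic polynomial). P = (x, y) is on W, nonsingular since Δ <> 0 (Affine.equation_iff_nonsingular_of_Δ_ne_zero). Fn V P; u = ub V P satisfies xu u = rs x = xu w
(fn_ub), so u (w - 1)^2 = w (u - 1)^2, (u - w)(u w - 1) = 0: u = w or u = w^(-1); take P or -P (fn_neg). -/

open Polynomial in
theorem res_inf (V : ValuationSubring k) : Infinite (IsLocalRing.ResidueField V) := by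
  rw [← not_finite_iff_infinite]
  intro hfin
  classical
  let _ : Fintype (IsLocalRing.ResidueField V) := Fintype.ofFinite _
  set q := Fintype.card (IsLocalRing.ResidueField V) with hq
  have hq1 : 1 < q := Fintype.one_lt_card
  have hdeg : ∀ (R : Type) [CommRing R] [Nontrivial R], (X ^ q - (X + 1) : R[X]).Monic ∧
      (X ^ q - (X + 1) : R[X]).natDegree = q := by
    intro R _ _
    have h1 : (X + 1 : R[X]).degree < q := by
      have h2 : (X + 1 : R[X]).degree = 1 := by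
        have := degree_X_add_C (1 : R)
        rwa [map_one] at this
      rw [h2]
      exact_mod_cast hq1
    have h2 : (X ^ q - (X + 1) : R[X]).Monic := monic_X_pow_sub h1
    refine ⟨h2, ?_⟩
    apply natDegree_eq_of_degree_eq_some
    rw [degree_sub_eq_left_of_degree_lt]
    · exact degree_X_pow q
    · rw [degree_X_pow]
      exact h1
  obtain ⟨a, ha⟩ := IsAlgClosed.exists_root (X ^ q - (X + 1) : k[X]) (by
    intro h0
    rw [degree_eq_natDegree (hdeg k).1.ne_zero, (hdeg k).2] at h0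
    have h3 : q = 0 := by exact_mod_cast h0
    omega)
  have ha' : a ^ q - (a + 1) = 0 := by
    have h1 := ha
    rw [IsRoot.def] at h1
    simpa using h1
  have hint : IsIntegral V a := by
    refine ⟨X ^ q - (X + 1), (hdeg V).1, ?_⟩
    simp only [eval₂_sub, eval₂_add, eval₂_X_pow, eval₂_X, eval₂_one]
    exact ha'
  obtain ⟨y, hy⟩ := IsIntegrallyClosed.isIntegral_iff.1 hint
  have haV : a ∈ V := by
    rw [← hy]
    exact y.2
  have h1 : rs V (a ^ q - (a + 1)) = 0 := by rw [ha', rs_zero]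
  rw [rs_sub (pow_mem haV q) (V.add_mem _ _ haV V.one_mem), rs_add haV V.one_mem, rs_pow haV, rs_one,
    hq, FiniteField.pow_card] at h1
  have h2 : rs V a - (rs V a + 1) = -1 := by ring
  rw [h2] at h1
  exact absurd (neg_eq_zero.1 h1) one_ne_zero

open Polynomial in
theorem ex_fn (h : Nod W V) (hΔ : W.Δ ≠ 0) {w : IsLocalRing.ResidueField V} (h0 : w ≠ 0) (h1 : w ≠ 1) :
    ∃ P : W.toAffine.Point, Fn V P ∧ ub V P = w := by
  obtain ⟨w0, hw0⟩ := IsLocalRing.residue_surjective w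
  have hw1 : rs V (w0 : k) = w := by rw [rs_of w0.2, ← hw0]
  have hv0 : V.valuation (w0 : k) = 1 := by
    rw [← rs_ne_zero w0.2, hw1]
    exact h0
  have hw2 : (w0 : k) - 1 ∈ V := V.sub_mem w0.2 V.one_mem
  have hr1 : rs V ((w0 : k) - 1) = w - 1 := by rw [rs_sub w0.2 V.one_mem, hw1, rs_one]
  have hv1 : V.valuation ((w0 : k) - 1) = 1 := by
    rw [← rs_ne_zero hw2, hr1]
    exact sub_ne_zero.2 h1
  set x : k := (w0 : k) / ((w0 : k) - 1) ^ 2 with hx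
  have hvx : V.valuation x = 1 := by
    rw [hx, map_div₀, map_pow, hv0, hv1, one_pow, div_one]
  have hrx : rs V x = xu w := by
    rw [hx, rs_div w0.2 (by rw [map_pow, hv1, one_pow]), rs_pow hw2, hw1, hr1]
    rfl
  obtain ⟨y, hy⟩ := IsAlgClosed.exists_root
    (C 1 * X ^ 2 + C x * X + C (-(x ^ 3 + W.a₄ * x + W.a₆)) : k[X]) (by
      rw [degree_quadratic one_ne_zero]
      norm_num)
  have hy' : y ^ 2 + x * y = x ^ 3 + W.a₄ * x + W.a₆ := by
    rw [IsRoot.def] at hy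
    simp only [eval_add, eval_mul, eval_C, eval_pow, eval_X] at hy
    linear_combination hy
  have hE : W.toAffine.Equation x y := by
    rw [Affine.equation_iff, h.a1, h.a2, h.a3]
    linear_combination hy'
  have hN : W.toAffine.Nonsingular x y :=
    (Affine.equation_iff_nonsingular_of_Δ_ne_zero hΔ).1 hE
  set P : W.toAffine.Point := Affine.Point.some x y hN with hP
  have hF : Fn V P := hvx
  obtain ⟨-, hu0, hu1, hu2, -, -⟩ := fn_ub h hF
  have hu3 : xu w = xu (ub V P) := by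
    rw [← hrx, ← hu2]
    rfl
  set u := ub V P with hu
  have hw3 : w - 1 ≠ 0 := sub_ne_zero.2 h1
  have hu4 : u - 1 ≠ 0 := sub_ne_zero.2 hu1
  have hu5 : w * (u - 1) ^ 2 = u * (w - 1) ^ 2 := by
    unfold xu at hu3
    rw [div_eq_div_iff (pow_ne_zero 2 hw3) (pow_ne_zero 2 hu4)] at hu3
    exact hu3
  have hu6 : (u - w) * (u * w - 1) = 0 := by linear_combination hu5
  rcases mul_eq_zero.1 hu6 with h7 | h7
  · exact ⟨P, hF, sub_eq_zero.1 h7⟩
  · obtain ⟨h8, h9⟩ := fn_neg h hF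
    refine ⟨-P, h8, ?_⟩
    rw [h9, ← hu]
    exact inv_eq_of_mul_eq_one_right (sub_eq_zero.1 h7)

end H55K.JJ
end

-- from Lib.H55K.J2A
section

open NumberField WeierstrassCurve

namespace H55K.JJ

open H35P (WAB Ker IntW)

variable {k : Type} [Field k] [DecidableEq k] {W : WeierstrassCurve k} {V : ValuationSubring k}

/-! Chunk J2A (M). P = (x1, y1), Q = (x2, y2) units, x1 - x2 a unit, l = (y1 - y2)/(x1 - x2) in V, m = y1 - l x1 in V. V(m) = 1: otherwise Y_i = L X_i (residues), X_i^2 (L^2 + L) = X_i^3, X_1 = L^2 + L = X_2: contradiction.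
H35P.vieta (a1 = 1, a2 = a3 = 0): e1 = l^2 + l, e2 = a4 - 2lm - m, e3 = m^2 - a6, y_i = l x_i + m (i = 1, 2), y3 := l x3 + m = negAddY. prod y_i = m^3 + a4 m l^2 - a6 l^3, prod (y_i + x_i) = m^3 + a4 m (l+1)^2 - a6 (l+1)^3
(linear_combination from vieta; coefficients l^3, l^2 m, l m^2 resp. (l+1)^3, (l+1)^2 m, (l+1) m^2): both have residue M^3 <> 0. x3 = e1 - x1 - x2 in V, y3 in V: all y_i, y_i + x_i are units, and y3 (y3 + x3) = x3^3 + a4 x3 + a6 (the point (x3, y3) is on the curve: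
its negative is P + Q) gives V(x3) = 1: Fn (P + Q), xc (P+Q) = x3, yc (P + Q) = negY x3 y3 = -y3 - x3, ub (P + Q) = Y3/(Y3 + X3) = (Y1 + X1)(Y2 + X2)/(Y1 Y2) = ub P * ub Q. -/

theorem fn_add (h : Nod W V) {P Q : W.toAffine.Point} (hP : Fn V P) (hQ : Fn V Q)
    (hx : rs V (xc P) ≠ rs V (xc Q)) : Fn V (P + Q) ∧ ub V (P + Q) = ub V P * ub V Q := by
  obtain ⟨P0, px, py, pv, pw⟩ := fn_crd h hP
  obtain ⟨Q0, qx, qy, qv, qw⟩ := fn_crd h hQ
  obtain ⟨-, -, -, -, -, uP⟩ := fn_ub h hP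
  obtain ⟨-, -, -, -, -, uQ⟩ := fn_ub h hQ
  obtain ⟨p, hp⟩ : ∃ p, p = ub V P := ⟨_, rfl⟩
  obtain ⟨q, hq⟩ : ∃ q, q = ub V Q := ⟨_, rfl⟩
  rw [← hp] at uP ⊢
  rw [← hq] at uQ ⊢
  rcases P with _ | ⟨x1, y1, n1⟩
  · exact absurd rfl P0
  rcases Q with _ | ⟨x2, y2, n2⟩
  · exact absurd rfl Q0
  change x1 ∈ V at px
  change y1 ∈ V at py
  change V.valuation y1 = 1 at pv
  change x2 ∈ V at qx
  change y2 ∈ V at qy
  change V.valuation y2 = 1 at qv
  change rs V x1 ≠ rs V x2 at hx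
  change rs V y1 * (p - 1) = rs V x1 at uP
  change rs V y2 * (q - 1) = rs V x2 at uQ
  have hX1 : rs V x1 ≠ 0 := (rs_ne_zero px).2 hP
  have hX2 : rs V x2 ≠ 0 := (rs_ne_zero qx).2 hQ
  have hY1 : rs V y1 ≠ 0 := (rs_ne_zero py).2 pv
  have hY2 : rs V y2 ≠ 0 := (rs_ne_zero qy).2 qv
  have hxne : x1 ≠ x2 := fun e => hx (by rw [e])
  have hv : V.valuation (x1 - x2) = 1 := by
    refine le_antisymm ((V.valuation_le_one_iff _).2 (V.sub_mem px qx)) (not_lt.1 fun e => hx ?_)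
    exact (rs_eq px qx).2 e
  obtain ⟨l, hl⟩ : ∃ l, l = W.toAffine.slope x1 x2 y1 y2 := ⟨_, rfl⟩
  have hlV : l ∈ V := by
    rw [hl, Affine.slope_of_X_ne hxne, ← V.valuation_le_one_iff, map_div₀, hv, div_one]
    exact (V.valuation_le_one_iff _).2 (V.sub_mem py qy)
  obtain ⟨m, hm⟩ : ∃ m, m = y1 - l * x1 := ⟨_, rfl⟩
  have hmV : m ∈ V := by
    rw [hm]
    exact V.sub_mem py (V.mul_mem _ _ hlV px)
  obtain ⟨x3, hx3⟩ : ∃ x3, x3 = W.toAffine.addX x1 x2 l := ⟨_, rfl⟩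
  obtain ⟨e1, e2, e3, f1, f2, f3, -⟩ := H35P.vieta n1.1 n2.1 (fun e => hxne e.1) l m x3 hl hm hx3
  have c1 := (Affine.equation_iff x1 y1).1 n1.1
  have c2 := (Affine.equation_iff x2 y2).1 n2.1
  have a1 : W.toAffine.a₁ = 1 := h.a1
  have a2 : W.toAffine.a₂ = 0 := h.a2
  have a3 : W.toAffine.a₃ = 0 := h.a3
  rw [h.a1, h.a2] at e1
  rw [h.a1, h.a3] at e2
  rw [h.a3] at e3
  rw [a1, a2, a3] at c1 c2
  have ha4 : W.a₄ ∈ V := (V.valuation_le_one_iff _).1 h.a4.le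
  have ha6 : W.a₆ ∈ V := (V.valuation_le_one_iff _).1 h.a6.le
  have hx3V : x3 ∈ V := by
    have : x3 = l ^ 2 + 1 * l - 0 - x1 - x2 := by linear_combination e1
    rw [this]
    exact V.sub_mem (V.sub_mem (V.sub_mem (V.add_mem _ _ (pow_mem hlV 2) (V.mul_mem _ _ V.one_mem hlV)) V.zero_mem) px) qx
  have hadd : (Affine.Point.some x1 y1 n1 + Affine.Point.some x2 y2 n2 : W.toAffine.Point) =
      Affine.Point.some _ _ (Affine.nonsingular_add n1 n2 fun hxy => hxne hxy.left) := Affine.Point.add_of_X_ne hxne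
  have hxc : xc (Affine.Point.some x1 y1 n1 + Affine.Point.some x2 y2 n2 : W.toAffine.Point) = x3 := by
    rw [hadd, hx3, hl]
    rfl
  have hyc : yc (Affine.Point.some x1 y1 n1 + Affine.Point.some x2 y2 n2 : W.toAffine.Point) =
      -(l * x3 + m) - x3 := by
    rw [hadd]
    change W.toAffine.addY x1 x2 y1 (W.toAffine.slope x1 x2 y1 y2) = _
    rw [← hl, Affine.addY, f3, ← hx3, Affine.negY, a1, a3]
    ring
  -- the residues
  obtain ⟨R, hR⟩ : ∃ R, R = IsLocalRing.residue V := ⟨_, rfl⟩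
  have hrs : ∀ x (hx : x ∈ V), rs V x = R ⟨x, hx⟩ := fun x hx => by rw [hR, rs_of hx]
  have r4 : R ⟨W.a₄, ha4⟩ = 0 := by
    rw [← hrs, rs_eq_zero ha4]
    exact h.a4
  have r6 : R ⟨W.a₆, ha6⟩ = 0 := by
    rw [← hrs, rs_eq_zero ha6]
    exact h.a6
  have k1 := congrArg R (show (⟨x1, px⟩ + ⟨x2, qx⟩ + ⟨x3, hx3V⟩ : V) = ⟨l, hlV⟩ ^ 2 + ⟨l, hlV⟩ from
    Subtype.ext (show x1 + x2 + x3 = l ^ 2 + l by linear_combination e1))
  have k2 := congrArg R (show (⟨x1, px⟩ * ⟨x2, qx⟩ + ⟨x1, px⟩ * ⟨x3, hx3V⟩ + ⟨x2, qx⟩ * ⟨x3, hx3V⟩ : V) =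
    ⟨W.a₄, ha4⟩ - 2 * ⟨l, hlV⟩ * ⟨m, hmV⟩ - ⟨m, hmV⟩ from
    Subtype.ext (show x1 * x2 + x1 * x3 + x2 * x3 = W.a₄ - 2 * l * m - m by linear_combination e2))
  have k3 := congrArg R (show (⟨x1, px⟩ * ⟨x2, qx⟩ * ⟨x3, hx3V⟩ : V) = ⟨m, hmV⟩ ^ 2 - ⟨W.a₆, ha6⟩ from
    Subtype.ext (show x1 * x2 * x3 = m ^ 2 - W.a₆ by linear_combination e3))
  have k4 := congrArg R (show (⟨y1, py⟩ : V) = ⟨l, hlV⟩ * ⟨x1, px⟩ + ⟨m, hmV⟩ from
    Subtype.ext (show y1 = l * x1 + m from f1))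
  have k5 := congrArg R (show (⟨y2, qy⟩ : V) = ⟨l, hlV⟩ * ⟨x2, qx⟩ + ⟨m, hmV⟩ from
    Subtype.ext (show y2 = l * x2 + m from f2))
  have k6 := congrArg R (show (⟨y1, py⟩ ^ 2 + ⟨x1, px⟩ * ⟨y1, py⟩ : V) = ⟨x1, px⟩ ^ 3 + ⟨W.a₄, ha4⟩ * ⟨x1, px⟩ +
    ⟨W.a₆, ha6⟩ from Subtype.ext (show y1 ^ 2 + x1 * y1 = x1 ^ 3 + W.a₄ * x1 + W.a₆ by linear_combination c1))
  have k7 := congrArg R (show (⟨y2, qy⟩ ^ 2 + ⟨x2, qx⟩ * ⟨y2, qy⟩ : V) = ⟨x2, qx⟩ ^ 3 + ⟨W.a₄, ha4⟩ * ⟨x2, qx⟩ +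
    ⟨W.a₆, ha6⟩ from Subtype.ext (show y2 ^ 2 + x2 * y2 = x2 ^ 3 + W.a₄ * x2 + W.a₆ by linear_combination c2))
  simp only [map_add, map_mul, map_sub, map_pow, map_ofNat, r4, r6, zero_mul, add_zero, zero_sub, sub_zero] at k1 k2 k3 k4 k5 k6 k7
  rw [hrs _ px] at hX1 hx uP
  rw [hrs _ qx] at hX2 hx uQ
  rw [hrs _ py] at hY1 uP
  rw [hrs _ qy] at hY2 uQ
  obtain ⟨X1, hX1d⟩ : ∃ X, X = R ⟨x1, px⟩ := ⟨_, rfl⟩
  obtain ⟨X2, hX2d⟩ : ∃ X, X = R ⟨x2, qx⟩ := ⟨_, rfl⟩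
  obtain ⟨X3, hX3d⟩ : ∃ X, X = R ⟨x3, hx3V⟩ := ⟨_, rfl⟩
  obtain ⟨Y1, hY1d⟩ : ∃ X, X = R ⟨y1, py⟩ := ⟨_, rfl⟩
  obtain ⟨Y2, hY2d⟩ : ∃ X, X = R ⟨y2, qy⟩ := ⟨_, rfl⟩
  obtain ⟨L, hLd⟩ : ∃ X, X = R ⟨l, hlV⟩ := ⟨_, rfl⟩
  obtain ⟨M, hMd⟩ : ∃ X, X = R ⟨m, hmV⟩ := ⟨_, rfl⟩
  rw [← hX1d, ← hX2d, ← hX3d, ← hLd] at k1
  rw [← hX1d, ← hX2d, ← hX3d, ← hLd, ← hMd] at k2
  rw [← hX1d, ← hX2d, ← hX3d, ← hMd] at k3
  rw [← hX1d, ← hY1d, ← hLd, ← hMd] at k4
  rw [← hX2d, ← hY2d, ← hLd, ← hMd] at k5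
  rw [← hX1d, ← hY1d] at k6
  rw [← hX2d, ← hY2d] at k7
  rw [← hX1d] at hX1
  rw [← hX2d] at hX2
  rw [← hX1d, ← hX2d] at hx
  rw [← hX1d, ← hY1d] at uP
  rw [← hX2d, ← hY2d] at uQ
  rw [← hY1d] at hY1
  rw [← hY2d] at hY2
  have hM0 : M ≠ 0 := by
    intro hM
    apply hx
    have g1 : X1 = L ^ 2 + L := by
      have : X1 ^ 2 * (X1 - (L ^ 2 + L)) = 0 := by
        rw [k4, hM] at k6
        linear_combination -k6
      exact sub_eq_zero.1 ((mul_eq_zero.1 this).resolve_left (pow_ne_zero 2 hX1))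
    have g2 : X2 = L ^ 2 + L := by
      have : X2 ^ 2 * (X2 - (L ^ 2 + L)) = 0 := by
        rw [k5, hM] at k7
        linear_combination -k7
      exact sub_eq_zero.1 ((mul_eq_zero.1 this).resolve_left (pow_ne_zero 2 hX2))
    rw [g1, g2]
  obtain ⟨Y3, hY3⟩ : ∃ Y3, Y3 = L * X3 + M := ⟨_, rfl⟩
  have p1 : Y1 * Y2 * Y3 = M ^ 3 := by
    rw [k4, k5, hY3]
    linear_combination L ^ 3 * k3 + L ^ 2 * M * k2 + L * M ^ 2 * k1
  have p2 : (Y1 + X1) * (Y2 + X2) * (Y3 + X3) = M ^ 3 := by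
    rw [k4, k5, hY3]
    linear_combination (L + 1) ^ 3 * k3 + (L + 1) ^ 2 * M * k2 + (L + 1) * M ^ 2 * k1
  have hY30 : Y3 ≠ 0 := by
    intro e
    rw [e, mul_zero] at p1
    exact pow_ne_zero 3 hM0 p1.symm
  have hYX30 : Y3 + X3 ≠ 0 := by
    intro e
    rw [e, mul_zero] at p2
    exact pow_ne_zero 3 hM0 p2.symm
  have p3 : Y3 * (Y3 + X3) = X3 ^ 3 := by
    rw [hY3]
    linear_combination (-X3 ^ 2) * k1 + X3 * k2 - k3
  have hX30 : X3 ≠ 0 := by
    intro e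
    rw [e] at p3 hYX30
    have := mul_ne_zero hY30 hYX30
    rw [p3] at this
    exact this (by ring)
  have hFn : Fn V (Affine.Point.some x1 y1 n1 + Affine.Point.some x2 y2 n2 : W.toAffine.Point) := by
    unfold Fn
    rw [hxc, ← rs_ne_zero hx3V, hrs _ hx3V, ← hX3d]
    exact hX30
  refine ⟨hFn, ?_⟩
  obtain ⟨-, -, -, -, -, uR⟩ := fn_ub h hFn
  have hy3V : -(l * x3 + m) - x3 ∈ V :=
    V.sub_mem (V.neg_mem _ (V.add_mem _ _ (V.mul_mem _ _ hlV hx3V) hmV)) hx3V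
  have k8 := congrArg R (show (⟨-(l * x3 + m) - x3, hy3V⟩ : V) = -(⟨l, hlV⟩ * ⟨x3, hx3V⟩ + ⟨m, hmV⟩) - ⟨x3, hx3V⟩ from
    Subtype.ext rfl)
  simp only [map_add, map_mul, map_sub, map_neg] at k8
  rw [← hX3d, ← hLd, ← hMd, ← hY3] at k8
  rw [hyc, hxc, hrs _ hy3V, k8, hrs _ hx3V, ← hX3d] at uR
  obtain ⟨w, hw⟩ : ∃ w, w = ub V (Affine.Point.some x1 y1 n1 + Affine.Point.some x2 y2 n2 : W.toAffine.Point) := ⟨_, rfl⟩
  rw [← hw] at uR ⊢
  have fin : Y1 * Y2 * (Y3 + X3) * (w - p * q) = 0 := by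
    have u1 : (Y3 + X3) * w = Y3 := by linear_combination -uR
    have u2 : Y1 * p = Y1 + X1 := by linear_combination uP
    have u3 : Y2 * q = Y2 + X2 := by linear_combination uQ
    calc Y1 * Y2 * (Y3 + X3) * (w - p * q) = Y1 * Y2 * ((Y3 + X3) * w) - (Y1 * p) * (Y2 * q) * (Y3 + X3) := by ring
      _ = Y1 * Y2 * Y3 - (Y1 + X1) * (Y2 + X2) * (Y3 + X3) := by rw [u1, u2, u3]
      _ = 0 := by rw [p1, p2, sub_self]
  exact sub_eq_zero.1 ((mul_eq_zero.1 fin).resolve_left (mul_ne_zero (mul_ne_zero hY1 hY2) hYX30))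

end H55K.JJ
end

-- from Lib.H55K.J4B
section

open Polynomial

namespace H55K.JJ

/-! Chunk J4B (S/M, PURE ALGEBRA). zu_sq: (zu u)^2 = 4 (xu u)^3 + (xu u)^2 (field_simp, ring). xu_inj: cross multiply, (u - w)(u w - 1) = 0. compare: for w in the infinite set put x = xu w; multiply hX by β^(-2): X = (c^2 x + δ)/β^2;
β^6 Z^2 = c^6 (zu w)^2 = c^6 (4 x^3 + x^2), and β^6 Z^2 = β^6 (4 X^3 + X^2) = 4 (c^2 x + δ)^3 + β^2 (c^2 x + δ)^2. So the polynomial 4 (c^2 T + δ)^3 + β^2 (c^2 T + δ)^2 - c^6 (4 T^3 + T^2) vanishes at infinitely many T = xu w (xu is at most 2 to 1: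
xu_inj), so its coefficients are 0: T^0: 4 δ^3 + β^2 δ^2 = 0; T^1: 12 c^2 δ^2 + 2 β^2 c^2 δ = 0; T^2: 12 c^4 δ + β^2 c^4 = c^6. If δ <> 0: 4 δ = -β^2 and 12 δ = -2 β^2, so β^2 = 0: contradiction. δ = 0 and β^2 = c^2. -/

theorem zu_sq {K : Type} [Field K] {u : K} (hu : u ≠ 1) : zu u ^ 2 = 4 * xu u ^ 3 + xu u ^ 2 := by
  have h : u - 1 ≠ 0 := sub_ne_zero.2 hu
  unfold zu xu
  field_simp
  ring

theorem xu_inj {K : Type} [Field K] {u w : K} (h0 : u ≠ 1) (h1 : w ≠ 1) (h : xu u = xu w) :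
    u = w ∨ u * w = 1 := by
  have hu : u - 1 ≠ 0 := sub_ne_zero.2 h0
  have hw : w - 1 ≠ 0 := sub_ne_zero.2 h1
  unfold xu at h
  rw [div_eq_div_iff (pow_ne_zero 2 hu) (pow_ne_zero 2 hw)] at h
  have h2 : (u - w) * (u * w - 1) = 0 := by linear_combination -h
  rcases mul_eq_zero.1 h2 with h3 | h3
  · exact Or.inl (sub_eq_zero.1 h3)
  · exact Or.inr (sub_eq_zero.1 h3)

theorem compare {K : Type} [Field K] {β c δ : K} (hβ : β ≠ 0) (hc : c ≠ 0) {I : Set K} (hI : I.Infinite)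
    (h : ∀ w ∈ I, w ≠ 0 ∧ w ≠ 1 ∧ ∃ x z : K, z ^ 2 = 4 * x ^ 3 + x ^ 2 ∧ β ^ 2 * x = c ^ 2 * xu w + δ ∧
      β ^ 3 * z = c ^ 3 * zu w) : δ = 0 ∧ β ^ 2 = c ^ 2 := by
  have hT : (xu '' I).Infinite := by
    intro hf
    apply hI
    refine Set.Finite.of_finite_fibers xu hf ?_
    rintro x ⟨w0, hw0, rfl⟩
    refine Set.Finite.subset (Set.toFinite {w0, w0⁻¹}) ?_
    rintro w ⟨hw, hx⟩
    have hx' : xu w = xu w0 := hx
    rcases xu_inj (h w hw).2.1 (h w0 hw0).2.1 hx' with h1 | h1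
    · left; exact h1
    · right; exact eq_inv_of_mul_eq_one_left h1
  set a2 : K := 12 * c ^ 4 * δ + β ^ 2 * c ^ 4 - c ^ 6 with ha2
  set a1 : K := 12 * c ^ 2 * δ ^ 2 + 2 * β ^ 2 * c ^ 2 * δ with ha1
  set a0 : K := 4 * δ ^ 3 + β ^ 2 * δ ^ 2 with ha0
  have hG : (C a2 * X ^ 2 + C a1 * X + C a0 : K[X]) = 0 := by
    apply Polynomial.eq_zero_of_infinite_isRoot
    refine hT.mono ?_
    rintro t ⟨w, hw, rfl⟩
    obtain ⟨hw0, hw1, x, z, hz, hx, hy⟩ := h w hw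
    have hsq := zu_sq hw1
    show IsRoot _ _
    simp only [IsRoot.def, eval_add, eval_mul, eval_C, eval_X, eval_pow]
    rw [ha2, ha1, ha0]
    have e1 : β ^ 6 * z ^ 2 = c ^ 6 * (4 * xu w ^ 3 + xu w ^ 2) := by
      rw [← hsq]
      linear_combination (β ^ 3 * z + c ^ 3 * zu w) * hy
    have e2 : β ^ 6 * z ^ 2 = 4 * (c ^ 2 * xu w + δ) ^ 3 + β ^ 2 * (c ^ 2 * xu w + δ) ^ 2 := by
      rw [hz, ← hx]
      ring
    linear_combination e1 - e2
  have c0 : a0 = 0 := by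
    have := congrArg (fun p => coeff p 0) hG
    simpa using this
  have c1 : a1 = 0 := by
    have := congrArg (fun p => coeff p 1) hG
    simpa [coeff_C, coeff_X_pow] using this
  have c2 : a2 = 0 := by
    have := congrArg (fun p => coeff p 2) hG
    simpa [coeff_C, coeff_X] using this
  have hδ : δ = 0 := by
    by_contra hd
    have e0 : 4 * δ + β ^ 2 = 0 := by
      have : δ ^ 2 * (4 * δ + β ^ 2) = 0 := by rw [← c0, ha0]; ring
      exact (mul_eq_zero.1 this).resolve_left (pow_ne_zero 2 hd)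
    have e1 : β ^ 2 * (δ * c ^ 2) = 0 := by
      linear_combination 3 * δ * c ^ 2 * e0 - c1
    exact mul_ne_zero (pow_ne_zero 2 hβ) (mul_ne_zero hd (pow_ne_zero 2 hc)) e1
  refine ⟨hδ, ?_⟩
  have : c ^ 4 * (β ^ 2 - c ^ 2) = 0 := by
    rw [ha2, hδ] at c2
    linear_combination c2
  exact sub_eq_zero.1 ((mul_eq_zero.1 this).resolve_left (pow_ne_zero 4 hc))

end H55K.JJ
end

-- from Lib.H55K.M2C
section

open NumberField WeierstrassCurve

namespace H55K.MG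

open H55P (IQ Pt ac Inert)
open H35P (WAB Ker GoodW IntW)

/-! Chunk M2C (S/M). vc_of_j: both curves are elliptic (Δ <> 0: isUnit), W.j = W'.j (j = Δ'^(-1) c4^3), WeierstrassCurve.exists_variableChange_of_j_eq (IsAlgClosed gives IsSepClosed): C • W = W'; u = C.u, r, s, t; the equations of VC
are variableChange_a₁ .. a₆ multiplied by powers of u. good_model: jj = algebraMap F Ω j0, in V since j0 is an integer (ak_in: V is integrally closed; see eg ak_le in Lib/H55K/GI.lean or VW/ValuationSubring lemmas: integral elements are in V);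
W = (WAB A B)⁄Ω: a1 = a2 = a3 = 0 (map_zero), a4 = algebraMap A, a6 = algebraMap B, c4 = -48 A, Δ = -16 (4A^3 + 27B^2), so c4^3 = jj Δ by hj: -110592 A^3 = -16 * 6912 A^3. Cases V(2) = 1 or V(2) < 1 (V(2) ≤ 1). -/

theorem vc_of_j {Ω : Type} [Field Ω] [IsAlgClosed Ω] {W W' : WeierstrassCurve Ω} {jj : Ω} (h1 : W.Δ ≠ 0) (h2 : W'.Δ ≠ 0)
    (h3 : W.c₄ ^ 3 = jj * W.Δ) (h4 : W'.c₄ ^ 3 = jj * W'.Δ) : ∃ u r s t, VC W W' u r s t := by
  have e1 : W.IsElliptic := ⟨isUnit_iff_ne_zero.2 h1⟩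
  have e2 : W'.IsElliptic := ⟨isUnit_iff_ne_zero.2 h2⟩
  have hj1 : W.j = jj := by
    rw [WeierstrassCurve.j, h3, ← W.coe_Δ', mul_comm jj, ← mul_assoc, Units.inv_mul, one_mul]
  have hj2 : W'.j = jj := by
    rw [WeierstrassCurve.j, h4, ← W'.coe_Δ', mul_comm jj, ← mul_assoc, Units.inv_mul, one_mul]
  obtain ⟨C, hC⟩ := WeierstrassCurve.exists_variableChange_of_j_eq W W' (hj1.trans hj2.symm)
  have hu : (C.u : Ω) ≠ 0 := C.u.ne_zero
  have hu1 : (C.u : Ω) * ((C.u⁻¹ : Ωˣ) : Ω) = 1 := C.u.mul_inv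
  refine ⟨C.u, C.r, C.s, C.t, ⟨hu, ?_, ?_, ?_, ?_, ?_⟩⟩
  · rw [← hC, variableChange_a₁, ← mul_assoc, hu1, one_mul]
  · rw [← hC, variableChange_a₂, ← mul_assoc, ← mul_pow, hu1, one_pow, one_mul]
  · rw [← hC, variableChange_a₃, ← mul_assoc, ← mul_pow, hu1, one_pow, one_mul]
  · rw [← hC, variableChange_a₄, ← mul_assoc, ← mul_pow, hu1, one_pow, one_mul]
  · rw [← hC, variableChange_a₆, ← mul_assoc, ← mul_pow, hu1, one_pow, one_mul]

theorem good_model {F : Type} [Field F] [NumberField F] {Ω : Type} [Field Ω] [Algebra F Ω]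
    [IsAlgClosed Ω] {A B : F} (hd : 4 * A ^ 3 + 27 * B ^ 2 ≠ 0)
    (hj : ∃ j₀ : 𝓞 F, (j₀ : F) * (4 * A ^ 3 + 27 * B ^ 2) = 6912 * A ^ 3) (V : ValuationSubring Ω) :
    ∃ (W' : WeierstrassCurve Ω) (u r s t : Ω), VC ((WAB A B)⁄Ω) W' u r s t ∧ ((WAB A B)⁄Ω).Δ ≠ 0 ∧ GoodW W' V ∧
      ((V.valuation (2 : Ω) = 1 ∧ W'.a₁ = 0 ∧ W'.a₃ = 0) ∨ V.valuation (2 : Ω) < 1) := by
  obtain ⟨j₀, hj₀⟩ := hj
  set jj : Ω := algebraMap F Ω (j₀ : F) with hjj
  have hjV : jj ∈ V := by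
    have h1 : IsIntegral ℤ jj := by
      have h2 : IsIntegral ℤ (j₀ : F) := RingOfIntegers.isIntegral_coe j₀
      exact h2.map ((algebraMap F Ω).toIntAlgHom)
    have h3 : IsIntegral V jj := h1.tower_top
    obtain ⟨y, hy⟩ := IsIntegrallyClosed.isIntegral_iff.1 h3
    rw [← hy]
    exact y.2
  have c0 : CharZero Ω := charZero_of_injective_algebraMap (algebraMap F Ω).injective
  have hΔ : ((WAB A B)⁄Ω).Δ = algebraMap F Ω (-16 * (4 * A ^ 3 + 27 * B ^ 2)) := by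
    refine ((WAB A B).map_Δ (algebraMap F Ω)).trans ?_
    congr 1
    simp only [WAB, WeierstrassCurve.Δ, WeierstrassCurve.b₂, WeierstrassCurve.b₄,
      WeierstrassCurve.b₆, WeierstrassCurve.b₈]
    ring
  have hc : ((WAB A B)⁄Ω).c₄ = algebraMap F Ω (-48 * A) := by
    refine ((WAB A B).map_c₄ (algebraMap F Ω)).trans ?_
    congr 1
    simp only [WAB, WeierstrassCurve.c₄, WeierstrassCurve.b₂, WeierstrassCurve.b₄]
    ring
  have h1 : ((WAB A B)⁄Ω).Δ ≠ 0 := by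
    rw [hΔ]
    exact (map_ne_zero _).2 (mul_ne_zero (by norm_num) hd)
  have h3 : ((WAB A B)⁄Ω).c₄ ^ 3 = jj * ((WAB A B)⁄Ω).Δ := by
    rw [hΔ, hc, hjj, ← map_pow, ← map_mul]
    congr 1
    linear_combination (16 : F) * hj₀
  have h0 : V.valuation (0 : Ω) < 1 := by
    rw [map_zero]
    exact zero_lt_one
  have hne : ∀ W' : WeierstrassCurve Ω, GoodW W' V → W'.Δ ≠ 0 := by
    intro W' hG h
    have h5 := hG.disc
    rw [h, map_zero] at h5
    exact zero_ne_one h5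
  have h2le : V.valuation (2 : Ω) ≤ 1 := by
    rw [V.valuation_le_one_iff]
    exact_mod_cast natCast_mem V 2
  rcases h2le.eq_or_lt with h2 | h2
  · obtain ⟨W', hG, hW, ha1, ha3⟩ := legendre h2 hjV
    obtain ⟨u, r, s, t, hvc⟩ := vc_of_j h1 (hne W' hG) h3 hW
    exact ⟨W', u, r, s, t, hvc, h1, hG, Or.inl ⟨h2, ha1, ha3⟩⟩
  · obtain ⟨W', hG, hW⟩ := deuring h2 hjV
    obtain ⟨u, r, s, t, hvc⟩ := vc_of_j h1 (hne W' hG) h3 hW
    exact ⟨W', u, r, s, t, hvc, h1, hG, Or.inr h2⟩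

end H55K.MG
end

-- from Lib.H55K.QC1A
section

/-! # H55K: the good model of a curve with integral j-invariant -/

open NumberField IsDedekindDomain WeierstrassCurve

namespace H55K.TQ

open H55P (IQ embF eF LF Per IsHecke Pt ac Inert Dec Nm UnitP)
open H35P (WAB Ker tt GoodW IntW)
open H55K.MG (VC Crd)

/-- Chunk QC1A (S). V(2) = 1: MG.legendre; V(2) < 1: MG.deuring (V(2) ≤ 1 always); both for jj. W'.Δ ≠ 0 since V(W'.Δ) = 1. MG.vc_of_j. -/
theorem gmodel {Ω : Type} [Field Ω] [IsAlgClosed Ω] {W : WeierstrassCurve Ω} {V : ValuationSubring Ω} (hΔ : W.Δ ≠ 0)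
    {jj : Ω} (hj : jj ∈ V) (h : W.c₄ ^ 3 = jj * W.Δ) :
    ∃ (W' : WeierstrassCurve Ω) (u r s t : Ω), VC W W' u r s t ∧ GoodW W' V := by
  obtain ⟨W', hG, hc⟩ : ∃ W' : WeierstrassCurve Ω, GoodW W' V ∧ W'.c₄ ^ 3 = jj * W'.Δ := by
    have h2 : V.valuation (2 : Ω) ≤ 1 := by
      rw [V.valuation_le_one_iff]
      have e : (2 : Ω) = 1 + 1 := by norm_num
      rw [e]
      exact V.add_mem _ _ V.one_mem V.one_mem
    rcases h2.lt_or_eq with h2 | h2
    · exact MG.deuring h2 hj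
    · obtain ⟨W', h1, h3, _⟩ := MG.legendre h2 hj
      exact ⟨W', h1, h3⟩
  have hΔ' : W'.Δ ≠ 0 := by
    intro e
    have h1 := hG.disc
    rw [e, map_zero] at h1
    exact zero_ne_one h1
  obtain ⟨u, r, s, t, hv⟩ := MG.vc_of_j hΔ hΔ' h hc
  exact ⟨W', u, r, s, t, hv, hG⟩

end H55K.TQ
end

-- from Lib.H55K.J5
section

/-! # H55K, part J: the model -/

open NumberField WeierstrassCurve

namespace H55K.JJ

open H55P (IQ embF eF LF Per Pt ac Nm)
open H35P (WAB Ker IntW)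

/-- The model with multiplicative reduction. -/
structure Md {F : Type} [Field F] {Ω : Type} [Field Ω] [DecidableEq Ω] [Algebra F Ω] (A B : F)
    (V : ValuationSubring Ω) (W' : WeierstrassCurve Ω) (u : Ω) (Θ : Pt (WAB A B) Ω ≃+ W'.toAffine.Point) : Prop where
  une : u ≠ 0
  nod : Nod W' V
  ell : W'.Δ ≠ 0
  crd : MG.Crd u (u ^ 2 / 12) (u / 2) 0 Θ

variable {F : Type} [Field F] [NumberField F] [IQ F] {A B : F} {Om : ℂ} {Ω : Type} [Field Ω] [DecidableEq Ω]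
  [Algebra F Ω] {j : Ω →+* ℂ} {act : 𝓞 F →+* AddMonoid.End (Pt (WAB A B) Ω)} {V : ValuationSubring Ω}
  {W' : WeierstrassCurve Ω} {u : Ω} {Θ : Pt (WAB A B) Ω ≃+ W'.toAffine.Point}

/-! Chunk J5 (S/M). m_e1x, m_e1z: h.e1x, h.e1y with xc P = u^2 xc (Θ P) + u^2/12 and yc P = u^3 yc (Θ P) + (u/2) u^2 xc (Θ P) (hM.crd for P, P + T, T in S, act b P: all nonzero: act b (P + T) = act b P <> 0), divide by u^2 and by u^3/2
(CharZero Ω: 2, 12 <> 0, charZero_of_injective_algebraMap). tor_out: T in E[b], T <> 0, V(Nm b) = 1: Nm b • T = 0 (Nm b = b * cj b, mul_cj, D1; act (n : 𝓞 F) = n •, see G1 or E0 files), so Θ T is not in Ker (H35P.fg for W', hM.nod.intW). -/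

theorem j5_char (h : CMA F A B Om j act) : CharZero Ω :=
  charZero_of_injective_algebraMap (FaithfulSMul.algebraMap_injective F Ω)

/-- The points P and P + T. -/
theorem j5_ne {b : 𝓞 F} {S : Finset (Pt (WAB A B) Ω)} (hS : TN act b S) {P : Pt (WAB A B) Ω}
    (hP : act b P ≠ 0) : P ≠ 0 ∧ ∀ T ∈ S, T ≠ 0 ∧ P + T ≠ 0 := by
  refine ⟨?_, ?_⟩
  · rintro rfl
    exact hP (map_zero _)
  · intro T hT
    obtain ⟨h1, h2⟩ := (hS T).1 hT
    refine ⟨h2, ?_⟩
    intro h3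
    apply hP
    have h4 : act b (P + T) = 0 := by rw [h3, map_zero]
    rwa [map_add, h1, add_zero] at h4

theorem m_e1x (h : CMA F A B Om j act) (hM : Md A B V W' u Θ) {b : 𝓞 F} (hb : b ≠ 0)
    {S : Finset (Pt (WAB A B) Ω)} (hS : TN act b S) {P : Pt (WAB A B) Ω} (hP : act b P ≠ 0) :
    ak Ω b ^ 2 * (xc (Θ (act b P)) + 1 / 12) =
      xc (Θ P) + 1 / 12 + ∑ T ∈ S, (xc (Θ (P + T)) - xc (Θ T)) := by
  obtain ⟨hP0, hT⟩ := j5_ne hS hP
  have hu := hM.une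
  have h1 := h.e1x b S hb hS P hP
  have hs : ∑ T ∈ S, (xc (P + T) - xc T) = u ^ 2 * ∑ T ∈ S, (xc (Θ (P + T)) - xc (Θ T)) := by
    rw [Finset.mul_sum]
    refine Finset.sum_congr rfl fun T hTS => ?_
    rw [(hM.crd (P + T) (hT T hTS).2).2.1, (hM.crd T (hT T hTS).1).2.1]
    ring
  rw [hs, (hM.crd P hP0).2.1, (hM.crd (act b P) hP).2.1] at h1
  have hu2 : u ^ 2 ≠ 0 := pow_ne_zero 2 hu
  apply mul_left_cancel₀ hu2
  linear_combination h1

theorem m_e1z (h : CMA F A B Om j act) (hM : Md A B V W' u Θ) {b : 𝓞 F} (hb : b ≠ 0)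
    {S : Finset (Pt (WAB A B) Ω)} (hS : TN act b S) {P : Pt (WAB A B) Ω} (hP : act b P ≠ 0) :
    ak Ω b ^ 3 * (2 * yc (Θ (act b P)) + xc (Θ (act b P))) =
      2 * yc (Θ P) + xc (Θ P) + ∑ T ∈ S, (2 * yc (Θ (P + T)) + xc (Θ (P + T))) := by
  obtain ⟨hP0, hT⟩ := j5_ne hS hP
  have hc := j5_char h
  have hu := hM.une
  have h1 := h.e1y b S hb hS P hP
  have hy : ∀ Q : Pt (WAB A B) Ω, Q ≠ 0 → 2 * yc Q = u ^ 3 * (2 * yc (Θ Q) + xc (Θ Q)) := by
    intro Q hQ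
    rw [(hM.crd Q hQ).2.2]
    have h2 : (2 : Ω) ≠ 0 := two_ne_zero
    field_simp
    ring
  have hs : 2 * ∑ T ∈ S, yc (P + T) = u ^ 3 * ∑ T ∈ S, (2 * yc (Θ (P + T)) + xc (Θ (P + T))) := by
    rw [Finset.mul_sum, Finset.mul_sum]
    refine Finset.sum_congr rfl fun T hTS => ?_
    exact hy _ (hT T hTS).2
  have hu2 : u ^ 3 ≠ 0 := pow_ne_zero 3 hu
  apply mul_left_cancel₀ hu2
  have h3 := hy P hP0
  have h4 := hy (act b P) hP
  linear_combination 2 * h1 + h3 + hs - ak Ω b ^ 3 * h4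

theorem tor_out (h : CMA F A B Om j act) (hM : Md A B V W' u Θ) {b : 𝓞 F} (hb : V.valuation ((Nm b : ℕ) : Ω) = 1)
    {T : Pt (WAB A B) Ω} (hT : act b T = 0) (h0 : T ≠ 0) : ¬ Ker V (Θ T) := by
  intro hK
  have h1 : Nm b • T = 0 := by
    have h1 : act (Nm b : 𝓞 F) T = Nm b • T := by
      rw [map_natCast]
      rfl
    have h2 : act (Nm b : 𝓞 F) T = act (cj b) (act b T) := by
      have e1 : (Nm b : 𝓞 F) = cj b * b := by rw [← mul_cj, mul_comm]
      rw [e1, map_mul]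
      rfl
    rw [← h1, h2, hT, map_zero]
  have h2 : Nm b • Θ T = 0 := by rw [← map_nsmul, h1, map_zero]
  have h3 := H35P.fg hM.nod.intW (Θ T) (Nm b) hb h2 hK
  exact (hM.crd T h0).1 h3

end H55K.JJ
end

-- from Lib.H55K.K10
section

open NumberField IsDedekindDomain WeierstrassCurve

namespace H55K

open H55P (IQ embF eF LF Per IsHecke Pt ac Inert Dec Nm)
open H35P (WAB Ker tt)
open H55R (Pl ord es fs smulP)

/-! Chunk K10 (M, many small, port of H28G/K14.lean). k10_arith: Nm π divides Nm l = l^2 (mul: Nm_mul, Nm_nat) and is > 1 (π is not a unit), so Nm π ≥ l ≥ 5. k10_below: v = w.under (𝓞 F) contains π, (π) is maximal. k10_val: v.intValuation_singleton. k10_card: 𝓞 F/(π) ≃ k, absNorm. chi_bij: Nat.card Gal(L/F) = finrank = Nm π - 1 = card kˣ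
(deg) and χ is injective: χ σ = 1 = q 1 gives ac s R = act 1 R = R for an extension s, R in Tor act π, so Fxd L s (hL.gen; s fixes F) and σ = 1 (lft_fxd). k10_fin: primes of L above the finite set S (H55K.A.D5: d5_above, or finite by above_finite of H55R).
k10_cyc: the condition of main_abs for ζ in L: if the displayed condition holds for ζ then for s in Gal(Ω/F) and n with ac s T = n • T on Tor act π: σ = restriction (exists_res for K = F; IsGalois F L), χ σ = c with act c T = n • T for a nonzero T, so c = n mod π (tor_zero), σ ζ = ζ^n; every ζ' with ζ'^l = 1 in Ω is a power of the image of ζ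
(IsPrimitiveRoot.eq_pow_of_pow_eq_one, map_of_injective), so s ζ' = ζ'^n: contradiction to hcyc. -/

variable {F : Type} [Field F] [NumberField F] [IQ F] {A B : F} {Om : ℂ} {Ω : Type} [Field Ω] [DecidableEq Ω]
  [Algebra F Ω] {j : Ω →+* ℂ} {act : 𝓞 F →+* AddMonoid.End (Pt (WAB A B) Ω)}
  {L : Type} [Field L] [NumberField L] [Algebra F L] [Algebra L Ω] [IsScalarTower F L Ω]

theorem k10_arith {l : ℕ} (hl : l.Prime) (h5 : 5 ≤ l) {π : 𝓞 F} (hp : Prime π) (hd : π ∣ (l : 𝓞 F)) :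
    4 < Nm π := by
  obtain ⟨c, hc⟩ := hd
  have h1 : Nm π * Nm c = l ^ 2 := by rw [← Nm_mul, ← hc, Nm_nat]
  have h2 : Nm π ≠ 1 := by
    intro h
    apply hp.not_unit
    unfold H55P.Nm at h
    rw [Ideal.absNorm_eq_one_iff, Ideal.span_singleton_eq_top] at h
    exact h
  have h3 : Nm π ∣ l ^ 2 := ⟨_, h1.symm⟩
  obtain ⟨i, hi, hi'⟩ := (Nat.dvd_prime_pow hl).1 h3
  have h4 : i ≠ 0 := by
    rintro rfl
    exact h2 (by rw [hi', pow_zero])
  have h5 : l ^ 1 ≤ l ^ i := Nat.pow_le_pow_right hl.pos (by omega)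
  rw [pow_one] at h5
  omega

theorem k10_below {π : 𝓞 F} (hp : Prime π) (w : Pl L) (hw : algebraMap (𝓞 F) (𝓞 L) π ∈ w.asIdeal) :
    (w.under (𝓞 F)).asIdeal = Ideal.span {π} := by
  have h1 : (Ideal.span {π}).IsMaximal := by
    have h1 : (Ideal.span {π}).IsPrime := (Ideal.span_singleton_prime hp.ne_zero).2 hp
    exact h1.isMaximal (by rw [Ne, Ideal.span_singleton_eq_bot]; exact hp.ne_zero)
  refine (h1.eq_of_le (w.under (𝓞 F)).isPrime.ne_top ?_).symm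
  rw [Ideal.span_singleton_le_iff_mem]
  exact hw

theorem k10_val {π : 𝓞 F} (hp : Prime π) (v : Pl F) (hv : v.asIdeal = Ideal.span {π}) :
    v.valuation F (algebraMap F F (π : F)) = WithZero.exp (-1 : ℤ) := by
  have h1 : algebraMap F F (π : F) = algebraMap (𝓞 F) F π := rfl
  rw [h1, HeightOneSpectrum.valuation_of_algebraMap]
  exact HeightOneSpectrum.intValuation_singleton v hp.ne_zero hv

theorem k10_card {π : 𝓞 F} {k : Type} [Field k] (q : 𝓞 F →+* k) (hq : Function.Surjective q)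
    (hk : ∀ x, q x = 0 ↔ π ∣ x) : Nat.card k = Nm π := by
  have h1 : RingHom.ker q = Ideal.span {π} := by
    ext x
    rw [RingHom.mem_ker, hk, Ideal.mem_span_singleton]
  have h2 : Nat.card (𝓞 F ⧸ RingHom.ker q) = Nat.card k :=
    Nat.card_congr (RingHom.quotientKerEquivOfSurjective hq).toEquiv
  rw [← h2, h1]
  unfold H55P.Nm
  rw [Ideal.absNorm_apply, Submodule.cardQuot_apply]

theorem chi_bij [IsAlgClosure F Ω] (h : CMA F A B Om j act) {π : 𝓞 F} (hp : Prime π) (hL : TFld act F L π)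
    (hdeg : Module.finrank F L = Nm π - 1) {k : Type} [Field k] [Fintype k] (q : 𝓞 F →+* k)
    (hq : Function.Surjective q) (hk : ∀ x, q x = 0 ↔ π ∣ x) (χ : Gal(L/F) →* kˣ)
    (hχ : ∀ (σ : Gal(L/F)) (s : Ω ≃ₐ[F] Ω) (c : 𝓞 F), Lft σ s → q c = χ σ → ∀ R ∈ Tor act π,
      ac (WAB A B) s R = act c R) : Function.Bijective χ := by
  classical
  have hgal : IsGalois F L := hL.gal
  have hfin : Finite kˣ := inferInstance
  rw [Nat.bijective_iff_injective_and_card]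
  constructor
  · rw [injective_iff_map_eq_one]
    intro σ hσ
    obtain ⟨s, hs⟩ := exists_lft (F := F) (Ω := Ω) σ
    rw [← lft_fxd hs]
    refine hL.gen s (fun x => s.commutes x) fun R hR => ?_
    rw [hχ σ s 1 hs (by rw [hσ, map_one, Units.val_one]) R hR, map_one]
    rfl
  · rw [IsGalois.card_aut_eq_finrank, hdeg, ← k10_card q hq hk, Nat.card_units]

theorem k10_fin [IsGalois F L] {S : Set (Pl F)} (hS : S.Finite) : {Q : Pl L | Q.under (𝓞 F) ∈ S}.Finite := by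
  have h1 : {Q : Pl L | Q.under (𝓞 F) ∈ S} = ⋃ v ∈ S, {W : Pl L | W.under (𝓞 F) = v} := by
    ext W
    simp only [Set.mem_ofPred_eq, Set.mem_iUnion, exists_prop, exists_eq_right']
  rw [h1]
  exact hS.biUnion fun v _ => H55R.above_finite v

theorem k10_cyc [IsAlgClosure F Ω] (h : CMA F A B Om j act) {l : ℕ} (hl : l.Prime) {π : 𝓞 F} (hp : Prime π)
    (hL : TFld act F L π) {k : Type} [Field k] [CharP k l] (q : 𝓞 F →+* k) (hq : Function.Surjective q)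
    (hk : ∀ x, q x = 0 ↔ π ∣ x) (χ : Gal(L/F) →* kˣ)
    (hχ : ∀ (σ : Gal(L/F)) (s : Ω ≃ₐ[F] Ω) (c : 𝓞 F), Lft σ s → q c = χ σ → ∀ R ∈ Tor act π,
      ac (WAB A B) s R = act c R)
    (hcyc : ¬ ∀ (s : Ω ≃ₐ[F] Ω) (n : ℕ), (∀ T ∈ Tor act π, ac (WAB A B) s T = n • T) →
      ∀ ζ : Ω, ζ ^ l = 1 → s ζ = ζ ^ n) (ζ : Lˣ) (hζ : IsPrimitiveRoot ζ l) :
    ¬ ∀ (σ : Gal(L/F)) (n : ℕ), (n : k) = χ σ → Ab.gu σ ζ = ζ ^ n := by
  classical
  have hgal : IsGalois F L := hL.gal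
  intro hcon
  apply hcyc
  intro s n hn ζ' hζ'
  obtain ⟨σ, hσ⟩ := exists_res (K := F) (N := L) s (fun x => s.commutes x)
  obtain ⟨T, hT, h0⟩ := exists_tor h hp
  have hl0 : NeZero l := ⟨hl.ne_zero⟩
  -- the value of the character
  obtain ⟨c, hc⟩ := hq (χ σ : k)
  have h1 := hχ σ s c hσ hc T hT
  rw [hn T hT] at h1
  have h2 : act (c - n) T = 0 := by
    rw [map_sub, map_natCast]
    show act c T - ((n : AddMonoid.End (Pt (WAB A B) Ω)) T) = 0
    rw [AddMonoid.End.natCast_apply, h1, sub_self]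
  rw [tor_zero h hp hT h0, ← hk, map_sub, map_natCast, hc] at h2
  have h3 : (n : k) = χ σ := (sub_eq_zero.1 h2).symm
  have h4 := hcon σ n h3
  -- the roots of unity
  have hinj : Function.Injective (algebraMap L Ω) := (algebraMap L Ω).injective
  have hζ1 : IsPrimitiveRoot (ζ : L) l := IsPrimitiveRoot.coe_units_iff.2 hζ
  have hζ2 : IsPrimitiveRoot (algebraMap L Ω (ζ : L)) l := hζ1.map_of_injective hinj
  obtain ⟨i, -, hi⟩ := hζ2.eq_pow_of_pow_eq_one hζ'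
  have h5 : s (algebraMap L Ω (ζ : L)) = algebraMap L Ω (ζ : L) ^ n := by
    rw [hσ, ← map_pow]
    congr 1
    have h6 := congrArg Units.val h4
    rw [Ab.gu_apply, Units.val_pow_eq_pow_val] at h6
    exact h6
  rw [← hi, map_pow, h5, ← pow_mul, ← pow_mul, mul_comm]

end H55K
end

-- from Lib.H55K.SKU2
section

/-! # H55K, part S: port of H13S/KU2 -/

open NumberField IsDedekindDomain WeierstrassCurve

namespace H55K.S

open H55P (IQ embF eF LF Per IsHecke Pt ac Inert Dec Nm)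
open H35P (WAB Ker tt)
open H13S (Abv)




variable {F : Type} [Field F] [NumberField F] [IQ F] {A B : F} {Om : ℂ} {Ω : Type} [Field Ω] [DecidableEq Ω]
  [Algebra F Ω] [IsAlgClosure F Ω] {j : Ω →+* ℂ} {act : 𝓞 F →+* AddMonoid.End (Pt (WAB A B) Ω)} {mo : Ideal (𝓞 F)}
  {ψ : Ideal (𝓞 F) →*₀ 𝓞 F}

variable {π : 𝓞 F} {l : ℕ} {c : (Ω ≃ₐ[F] Ω) → Pt (WAB A B) Ω} {e : Pt (WAB A B) Ω → Pt (WAB A B) Ω → Ω}
  {L : IntermediateField F Ω}

omit [IsAlgClosure F Ω] in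
theorem ku2_ne (C : Cl A B Om j act mo ψ π l c) (he : Pairing A B act π l e) {X T : Pt (WAB A B) Ω} (hX : X ∈ Tor act (cj π))
    (hT : T ∈ Tor act π) : e X T ≠ 0 := by
  intro h
  have h1 := he.root X hX T hT
  rw [h, zero_pow (by have := C.five; omega)] at h1
  exact zero_ne_one h1

omit [IsAlgClosure F Ω] in
theorem ku2_sub (C : Cl A B Om j act mo ψ π l c) (he : Pairing A B act π l e) {X Y T : Pt (WAB A B) Ω} (hX : X ∈ Tor act (cj π))
    (hY : Y ∈ Tor act (cj π)) (hT : T ∈ Tor act π) : e (X - Y) T = e X T / e Y T := by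
  have h1 := he.add_left (X - Y) (sub_mem hX hY) Y hY T hT
  rw [sub_add_cancel] at h1
  rw [h1, mul_div_assoc, div_self (ku2_ne C he hY hT), mul_one]

omit [IsAlgClosure F Ω] in
/-- conjugates of elements of the fixing subgroup -/
theorem ku2_conj (hA : CMA F A B Om j act) (hL : IsTF act π L) (σ : Ω ≃ₐ[F] Ω) {s : Ω ≃ₐ[F] Ω} (hs : s ∈ L.fixingSubgroup) :
    σ⁻¹ * s * σ ∈ L.fixingSubgroup := by
  rw [hL.2]
  intro T hT
  rw [ac_mul, ac_mul, (hL.2 s).1 hs _ (ac_mem hA σ hT), ← ac_mul, inv_mul_cancel, ac_one]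

/-- Chunk KU2 (S/M), five small lemmas. The fixed field of L.fixingSubgroup is L (IsGalois F Ω:
IsAlgClosure.isGalois, characteristic 0; InfiniteGalois / IntermediateField.fixedField_fixingSubgroup for algebraic Galois extensions). -/
theorem kum_pow (C : Cl A B Om j act mo ψ π l c) (he : Pairing A B act π l e) (hL : IsTF act π L) {T : Pt (WAB A B) Ω} (hT : T ∈ Tor act π) {y : Ω}
    (hy : Kum L e c T y) : ∃ m : L, (m : Ω) = y ^ l ∧ m ≠ 0 := by
  have h1 : y ^ l ∈ L := by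
    apply ku2_mem
    intro s hs
    rw [map_pow, hy.2 s hs, mul_pow, he.root _ (C.val s) _ hT, one_mul]
  refine ⟨⟨y ^ l, h1⟩, rfl, fun h => ?_⟩
  have h2 : y ^ l = 0 := congrArg (fun z : L => (z : Ω)) h
  exact pow_ne_zero l hy.1 h2

theorem kum_mul (C : Cl A B Om j act mo ψ π l c) (he : Pairing A B act π l e) (hL : IsTF act π L) {T T' : Pt (WAB A B) Ω} (hT : T ∈ Tor act π)
    (hT' : T' ∈ Tor act π) {y y' : Ω} (hy : Kum L e c T y) (hy' : Kum L e c T' y') :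
    Kum L e c (T + T') (y * y') := by
  refine ⟨mul_ne_zero hy.1 hy'.1, fun s hs => ?_⟩
  rw [map_mul, hy.2 s hs, hy'.2 s hs, he.add_right _ (C.val s) _ hT _ hT']
  ring

theorem kum_ratio (hL : IsTF act π L) {T : Pt (WAB A B) Ω} {y y' : Ω} (hy : Kum L e c T y) (hy' : Kum L e c T y') :
    ∃ z : L, z ≠ 0 ∧ y = (z : Ω) * y' := by
  have h1 : y / y' ∈ L := by
    apply ku2_mem
    intro s hs
    have h2 : e (c s) T ≠ 0 := by
      intro h3
      have h4 := hy.2 s hs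
      rw [h3, zero_mul] at h4
      exact hy.1 ((map_eq_zero_iff s s.injective).1 h4)
    rw [map_div₀, hy.2 s hs, hy'.2 s hs, mul_div_mul_left _ _ h2]
  refine ⟨⟨y / y', h1⟩, fun h => ?_, ?_⟩
  · have h2 : y / y' = 0 := congrArg (fun z : L => (z : Ω)) h
    exact div_ne_zero hy.1 hy'.1 h2
  · show y = y / y' * y'
    rw [div_mul_cancel₀ _ hy'.1]

/-- For s in L.fixingSubgroup also σ⁻¹ s σ is in it (IsTF: s fixes all points of Tor pi). s (σ y) = σ ((σ⁻¹ s σ) y) = σ (e (c (σ⁻¹ s σ)) T) σ y =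
e (ac σ (c (σ⁻¹ s σ))) (ac σ T) σ y, and ac σ (c (σ⁻¹ s σ)) = c s + ac s (c σ) - c σ (cocycle identity, c 1 = 0). With g = e (c σ) (ac σ T): e (ac s (c σ)) (ac σ T) =
e (ac s (c σ)) (ac s (ac σ T)) = s g. -/
theorem kum_act (C : Cl A B Om j act mo ψ π l c) (he : Pairing A B act π l e) (hL : IsTF act π L) (σ : Ω ≃ₐ[F] Ω) {T : Pt (WAB A B) Ω}
    (hT : T ∈ Tor act π) {y : Ω} (hy : Kum L e c T y) :
    Kum L e c (ac (WAB A B) σ T) (σ y / e (c σ) (ac (WAB A B) σ T)) := by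
  have hA := C.cma
  have hT' := ac_mem hA σ hT
  have hg := ku2_ne C he (C.val σ) hT'
  have hy0 : σ y ≠ 0 := by
    rw [Ne, map_eq_zero_iff σ σ.injective]
    exact hy.1
  refine ⟨div_ne_zero hy0 hg, fun s hs => ?_⟩
  have hs' := ku2_conj hA hL σ hs
  have e1 : σ * (σ⁻¹ * s * σ) = s * σ := by group
  have e2 : ac (WAB A B) σ (c (σ⁻¹ * s * σ)) = c s + ac (WAB A B) s (c σ) - c σ := by
    have h1 := C.mul σ (σ⁻¹ * s * σ)
    rw [e1, C.mul s σ] at h1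
    rw [h1, add_sub_cancel_left]
  have e3 : s (σ y) = e (c s + ac (WAB A B) s (c σ) - c σ) (ac (WAB A B) σ T) * σ y := by
    have h1 : s (σ y) = σ ((σ⁻¹ * s * σ) y) := by
      show (s * σ) y = (σ * (σ⁻¹ * s * σ)) y
      rw [e1]
    rw [h1, hy.2 _ hs', map_mul, he.gal σ _ (C.val _) _ hT, e2]
  have hXs := ac_mem hA s (C.val σ)
  have e4 : s (e (c σ) (ac (WAB A B) σ T)) = e (ac (WAB A B) s (c σ)) (ac (WAB A B) σ T) := by
    rw [he.gal s _ (C.val σ) _ hT', (hL.2 s).1 hs _ hT']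
  have hg2 := ku2_ne C he hXs hT'
  rw [map_div₀, e3, e4, ku2_sub C he (add_mem (C.val s) hXs) (C.val σ) hT',
    he.add_left _ (C.val s) _ hXs _ hT']
  field_simp

/-- L is stable under all automorphisms. -/
theorem tf_stable (hA : CMA F A B Om j act) (hL : IsTF act π L) (σ : Ω ≃ₐ[F] Ω) (x : L) : σ (x : Ω) ∈ L := by
  apply ku2_mem
  intro s hs
  have hs' := ku2_conj hA hL σ hs
  have h1 : (σ⁻¹ * s * σ) (x : Ω) = (x : Ω) :=
    (IntermediateField.mem_fixingSubgroup_iff L _).1 hs' x x.2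
  have e1 : σ * (σ⁻¹ * s * σ) = s * σ := by group
  show (s * σ) (x : Ω) = σ (x : Ω)
  rw [← e1]
  show σ ((σ⁻¹ * s * σ) (x : Ω)) = σ (x : Ω)
  rw [h1]

end H55K.S
end
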