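import Mathlib
import Pool.Agent.Lib.H1M.PP.D_H55P_Stm
import Pool.Agent.Lib.H1M.PP.D_H55P_ZD
import Pool.Agent.Lib.H1M.PP.M004
import Pool.Agent.Lib.H1M.PP.M030
import Pool.Agent.Lib.H1M.PP.M039
import Pool.Agent.Lib.H1M.PP.M040
import Pool.Agent.Lib.H1M.PP.M041
import Pool.Agent.Lib.H1M.PP.M045
import Pool.Agent.Lib.H1M.PP.M046
import Pool.Agent.Lib.H1M.PP.M047
import Pool.Agent.Lib.H1M.PP.M050

/-! Merged copies (to shorten the build) of Lib.H13X.XKB, Lib.H55P.Z5, Lib.H13X.XKB2, Lib.H55K.SNA. -/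

-- from Lib.H13X.XKB
section

/-! # H13X: port of H13Z/KB -/

open NumberField IsDedekindDomain WeierstrassCurve

namespace H13X

open H55P (IQ embF eF LF Per IsHecke Pt ac Inert Dec Nm Coc)
open H35P (WAB Ker tt)
open H55K (Tor ak xc yc CMA Dta GV GMod cj cj_cj mul_cj cj_prime cj_dvd cj_nat Nm_cj Nm_mul Nm_nat)
open H55K.S
open H13S (Abv)




variable {F : Type} [Field F] [NumberField F] [IQ F] {A B : F} {Om : ℂ} {Ω : Type} [Field Ω] [DecidableEq Ω]
  [Algebra F Ω] [IsAlgClosure F Ω] {j : Ω →+* ℂ} {act : 𝓞 F →+* AddMonoid.End (Pt (WAB A B) Ω)} {mo : Ideal (𝓞 F)}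
  {ψ : Ideal (𝓞 F) →*₀ 𝓞 F}

variable {π : 𝓞 F} {l : ℕ} {B₀ L : IntermediateField F Ω} {c : (Ω ≃ₐ[F] Ω) → Pt (WAB A B) Ω}
  {e : Pt (WAB A B) Ω → Pt (WAB A B) Ω → Ω}

/-- Chunk KB1 (M), port of H13S.exists_kum (KU1.lean) to a base field B₀ (all elements s, t in L.fixingSubgroup lie in B₀.fixingSubgroup: IsTB.mono). -/
theorem exists_kumB (D : Dat A B Om j act mo ψ π l) (C : Cc act π B₀ c) (he : Pairing A B act π l e) (hL : IsTB act π B₀ L) {T : Pt (WAB A B) Ω}
    (hT : T ∈ Tor act π) : ∃ y : Ω, Kum L e c T y := by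
  classical
  obtain ⟨E₁, hE₁, hc₁⟩ := C.cont
  have hNF : Normal F Ω := IsAlgClosure.normal F Ω
  have hNL : Normal L Ω := Normal.tower_top_of_normal F L Ω
  let b := Module.finBasis F E₁
  let S : Set Ω := Set.range (fun i => ((b i : E₁) : Ω)) ∪ {x : Ω | x ^ l = 1}
  have hl0 : 0 < l := D.hl.pos
  have hfr : {x : Ω | x ^ l = 1}.Finite := by
    have h1 := (Polynomial.nthRoots l (1 : Ω)).toFinset.finite_toSet
    refine h1.subset fun x hx => ?_
    rw [Finset.mem_coe, Multiset.mem_toFinset, Polynomial.mem_nthRoots hl0]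
    exact hx
  have hSf : Finite S := ((Set.finite_range _).union hfr).to_subtype
  -- the inclusion of the automorphism groups
  have hmem : ∀ s : Ω ≃ₐ[L] Ω, s.restrictScalars F ∈ L.fixingSubgroup := by
    intro s
    rw [IntermediateField.mem_fixingSubgroup_iff]
    intro x hx
    exact s.commutes ⟨x, hx⟩
  have hmB : ∀ s : Ω ≃ₐ[L] Ω, s.restrictScalars F ∈ B₀.fixingSubgroup := fun s => hL.mono (hmem s)
  have hacT : ∀ s : Ω ≃ₐ[L] Ω, ac (WAB A B) (s.restrictScalars F) T = T := fun s =>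
    ((hL.fix _).1 (hmem s)).2 T hT
  have h0 : ∀ s : Ω ≃ₐ[L] Ω, e (c (s.restrictScalars F)) T ≠ 0 := by
    intro s h0
    have h1 := he.root _ (C.val (s.restrictScalars F) (hmB s)) T hT
    rw [h0, zero_pow hl0.ne'] at h1
    exact zero_ne_one h1
  have hcoc : ∀ s t : Ω ≃ₐ[L] Ω, e (c ((s * t).restrictScalars F)) T =
      e (c (s.restrictScalars F)) T * s (e (c (t.restrictScalars F)) T) := by
    intro s t
    have h1 : (s * t).restrictScalars F = s.restrictScalars F * t.restrictScalars F := rfl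
    rw [h1, C.mul _ (hmB s) _ (hmB t), he.add_left _ (C.val _ (hmB s)) _ (ac_mem D.cma _ (C.val _ (hmB t))) T hT]
    congr 1
    have h2 := he.gal (s.restrictScalars F) _ (C.val (t.restrictScalars F) (hmB t)) T hT
    rw [hacT] at h2
    exact h2.symm
  have htriv : ∀ n : Ω ≃ₐ[L] Ω, (∀ x ∈ S, n x = x) → e (c (n.restrictScalars F)) T = 1 := by
    intro n hn
    have h1 : n.restrictScalars F ∈ E₁.fixingSubgroup := by
      rw [IntermediateField.mem_fixingSubgroup_iff]
      intro x hx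
      have h2 := b.sum_repr ⟨x, hx⟩
      have h3 : x = ∑ i, (b.repr ⟨x, hx⟩ i) • ((b i : E₁) : Ω) := by
        have h4 := congrArg (fun z : E₁ => (z : Ω)) h2
        refine h4.symm.trans ?_
        push_cast
        rfl
      rw [h3, map_sum]
      refine Finset.sum_congr rfl fun i _ => ?_
      rw [map_smul]
      congr 1
      exact hn _ (Or.inl ⟨i, rfl⟩)
    have h2 := hc₁ _ (hmB n) h1
    rw [h2]
    have h3 := he.add_left 0 (zero_mem _) 0 (zero_mem _) T hT
    rw [add_zero] at h3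
    have h4 := he.root 0 (zero_mem _) T hT
    have h5 : e 0 T ≠ 0 := by
      intro h0
      rw [h0, zero_pow hl0.ne'] at h4
      exact zero_ne_one h4
    exact (mul_eq_left₀ h5).1 h3.symm
  obtain ⟨y, hy0, hy⟩ := H13S.ku1_h90 (k := L) (Ω := Ω) (fun s => e (c (s.restrictScalars F)) T) h0 hcoc S
    (fun s => Or.inr (he.root _ (C.val _ (hmB s)) T hT)) htriv
  refine ⟨y, hy0, fun s hs => ?_⟩
  exact hy (IntermediateField.fixingSubgroupEquiv L ⟨s, hs⟩)

end H13X
end

-- from Lib.H55P.Z5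
section

open NumberField IsDedekindDomain WeierstrassCurve

namespace H55P

open H55N
open H55B (F O om e emb Prim R)

/-! Chunk PZ5 (M). The number of points of the reduction of y^2 + y = x^3 modulo a prime v of K not above 3 is (1 - Ψ(v))(1 - conj Ψ(v)).
cardE: the residue field k = 𝓞 K ⧸ v (finite field of order absNorm v). The curve W27O⁄k is y^2 + y = x^3 with discriminant -27 <> 0 in k, so all solutions are nonsingular points: the number of points is 1 + #{p : k × k // p.2^2 + p.2 = p.1^3}. By DQ3 loc_good0 (Lib/H55D/Q3.lean)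
the local polynomial is 1 - (N - #{..}) X + N X^2 and by H7_LEF (the case 3 not in w, H55C.b8_LEF; no hypothesis UnrOut is needed there, Psi_prime, psiF_prime) LEF is the product of the two factors with Psi and conj Psi; compare the coefficient of X (N - #{..} = Psi + conj Psi; e.g.
the value of the arithmetic function LEF K v at absNorm v, or see how Lib/H55B/F*.lean and Lib/H55C/B6-B8.lean obtain b8_LEF from the counting: gen v and the number of points: there is a lemma #{..} = N - (e(gen v) + conj) for prime fields of O and its extension). Psi conj Psi = N (Psi_norm).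
admE: the natural number (1 - Ψ)(1 - conj Ψ) is prime to p, so it is a unit at V; both factors are algebraic integers, in V (PsiP_int, H55P/T1.lean, or directly). -/

theorem PZ5_card (K : Type) [Field K] [NumberField K] (v : HeightOneSpectrum (𝓞 K))
    (h3 : (3 : 𝓞 K) ∉ v.asIdeal) [Algebra O (𝓞 K ⧸ v.asIdeal)] :
    Nat.card (W27O⁄(𝓞 K ⧸ v.asIdeal)).toAffine.Point =
      Nat.card {p : (𝓞 K ⧸ v.asIdeal) × (𝓞 K ⧸ v.asIdeal) // p.2 ^ 2 + p.2 = p.1 ^ 3} + 1 := by
  have hmax := v.isMaximal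
  have hf : Finite (𝓞 K ⧸ v.asIdeal) := v.asIdeal.finiteQuotientOfFreeOfNeBot v.ne_bot
  let i1 : Field (𝓞 K ⧸ v.asIdeal) := Ideal.Quotient.field _
  have h27 : (27 : 𝓞 K ⧸ v.asIdeal) ≠ 0 := by
    intro h
    apply h3
    have h1 : Ideal.Quotient.mk v.asIdeal ((3 : 𝓞 K) ^ 3) = 0 := by
      rw [map_pow, map_ofNat]
      have h2 : (3 : 𝓞 K ⧸ v.asIdeal) ^ 3 = 27 := by norm_num
      rw [h2, h]
    exact v.isPrime.mem_of_pow_mem _ (Ideal.Quotient.eq_zero_iff_mem.1 h1)
  have h := H55B.F1_count (𝓞 K ⧸ v.asIdeal) 1 h27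
  rw [one_smul] at h
  have hc : (W27O⁄(𝓞 K ⧸ v.asIdeal)) = (⟨0, 0, 1, 0, 0⟩ : WeierstrassCurve (𝓞 K ⧸ v.asIdeal)) := by
    ext <;> simp [W27O, WeierstrassCurve.baseChange]
  rw [hc]
  exact h

theorem cardE (K : Type) [Field K] [NumberField K] [Algebra F K] (v : HeightOneSpectrum (𝓞 K))
    (h3 : (3 : 𝓞 K) ∉ v.asIdeal) :
    (Nat.card (W27O⁄(𝓞 K ⧸ v.asIdeal)).toAffine.Point : ℂ) =
      (1 - Psi K v.asIdeal) * (1 - (starRingEnd ℂ) (Psi K v.asIdeal)) := by
  obtain ⟨u, hu⟩ := H1_below v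
  have hu3 : (3 : O) ∉ u.asIdeal := by
    intro h
    apply h3
    rw [hu, Ideal.under_def, Ideal.mem_comap, map_ofNat] at h
    exact h
  have hmax := v.isMaximal
  have hf : Finite (𝓞 K ⧸ v.asIdeal) := v.asIdeal.finiteQuotientOfFreeOfNeBot v.ne_bot
  let i1 : Field (𝓞 K ⧸ v.asIdeal) := Ideal.Quotient.field _
  have e1 := H55B.loc_good K v h3 u hu
  have e2 := H55D.loc_good0 K v h3 (𝓞 K ⧸ v.asIdeal) rfl
  rw [e2] at e1
  have e3 := congrArg (Polynomial.eval 1) e1
  simp only [Polynomial.map_add, Polynomial.map_sub, Polynomial.map_one, Polynomial.map_mul,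
    Polynomial.map_C, Polynomial.map_X, Polynomial.map_pow, Polynomial.eval_add,
    Polynomial.eval_sub, Polynomial.eval_one, Polynomial.eval_mul, Polynomial.eval_C,
    Polynomial.eval_X, Polynomial.eval_pow, one_pow, mul_one] at e3
  simp only [eq_intCast] at e3
  rw [PZ5_card K v h3, Psi_prime v u hu, psiF_prime u hu3, map_pow, Complex.conj_conj]
  push_cast at e3 ⊢
  linear_combination e3

theorem admE (K : Type) [Field K] [NumberField K] [Algebra F K] (v : HeightOneSpectrum (𝓞 K))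
    (h3 : (3 : 𝓞 K) ∉ v.asIdeal) (p : ℕ) (hp : p.Prime)
    (hc : ¬ p ∣ Nat.card (W27O⁄(𝓞 K ⧸ v.asIdeal)).toAffine.Point) (V : ValuationSubring ℂ)
    (hV : V.valuation (p : ℂ) < 1) :
    V.valuation (1 - (starRingEnd ℂ) (PsiP K psiE v.asIdeal)) = 1 := by
  have h1 := val_nat p hp V hV _ hc
  rw [cardE K v h3, map_mul] at h1
  obtain ⟨h4, h5⟩ := PsiP_int psiE v.asIdeal V
  rw [PsiP_E] at h4 h5 ⊢
  have h6 : V.valuation (1 - Psi K v.asIdeal) ≤ 1 := by
    refine (Valuation.map_sub _ _ _).trans ?_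
    rw [map_one]
    exact max_le le_rfl h4
  have h7 : V.valuation (1 - (starRingEnd ℂ) (Psi K v.asIdeal)) ≤ 1 := by
    refine (Valuation.map_sub _ _ _).trans ?_
    rw [map_one]
    exact max_le le_rfl h5
  refine le_antisymm h7 ?_
  by_contra hcon
  push Not at hcon
  have h8 := mul_lt_one_of_nonneg_of_lt_one_right h6 zero_le hcon
  rw [h1] at h8
  exact lt_irrefl _ h8

/-- The reduction at the prime 2 of F has 9 points: Psi (2) = -2 (pg: -2 = 1 - 3 is primary). -/
theorem card_two (p : ℕ) (hp : p.Prime) (h5 : 5 ≤ p) (K : Type) [Field K] [NumberField K] [Algebra F K]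
    (h1 : Module.finrank F K = 1) : ∃ v : HeightOneSpectrum (𝓞 K),
      (3 : 𝓞 K) ∉ v.asIdeal ∧ (p : 𝓞 K) ∉ v.asIdeal ∧
        ¬ p ∣ Nat.card (W27O⁄(𝓞 K ⧸ v.asIdeal)).toAffine.Point := by
  have h2u : ¬ IsUnit (2 : 𝓞 K) := by
    intro h
    have h2 := h.map (Algebra.norm ℤ)
    have h3 : (2 : 𝓞 K) = algebraMap ℤ (𝓞 K) 2 := by simp
    rw [h3, Algebra.norm_algebraMap, isUnit_pow_iff (Module.finrank_pos).ne'] at h2
    rw [Int.isUnit_iff] at h2
    omega
  obtain ⟨I, hI, h2I⟩ := exists_max_ideal_of_mem_nonunits h2u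
  have hI0 : I ≠ ⊥ := by
    rintro rfl
    rw [Ideal.mem_bot] at h2I
    exact two_ne_zero h2I
  let v : HeightOneSpectrum (𝓞 K) := ⟨I, hI.isPrime, hI0⟩
  have hodd : ∀ n : ℕ, Odd n → (n : 𝓞 K) ∉ v.asIdeal := by
    rintro n ⟨k, rfl⟩ h
    apply hI.ne_top
    rw [Ideal.eq_top_iff_one]
    have h3 : (1 : 𝓞 K) = ((2 * k + 1 : ℕ) : 𝓞 K) - (k : 𝓞 K) * 2 := by
      push_cast
      ring
    rw [h3]
    exact I.sub_mem h (I.mul_mem_left _ h2I)
  have h3 : (3 : 𝓞 K) ∉ v.asIdeal := by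
    have := hodd 3 (by decide)
    exact_mod_cast this
  obtain ⟨u, hu⟩ := H1_below v
  have hu3 : (3 : O) ∉ u.asIdeal := by
    intro h
    apply h3
    rw [hu, Ideal.under_def, Ideal.mem_comap, map_ofNat] at h
    exact h
  have hu2 : (2 : O) ∈ u.asIdeal := by
    rw [hu, Ideal.under_def, Ideal.mem_comap, map_ofNat]
    exact h2I
  obtain ⟨-, hg, -⟩ := H55B.G4_two u hu3 hu2
  have hf : v.asIdeal.inertiaDeg O = 1 := by
    obtain ⟨ε, hε⟩ := T2_equiv K h1
    have hlies : v.asIdeal.LiesOver u.asIdeal := ⟨hu⟩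
    have := v.isMaximal
    have := u.isMaximal
    have h6 := Ideal.relNorm_eq_pow_of_isMaximal v.asIdeal u.asIdeal
    have h7 : v.asIdeal = (ε u.asIdeal) ^ (v.asIdeal.inertiaDeg O) := by
      obtain ⟨J, hJ⟩ := ε.surjective v.asIdeal
      obtain ⟨J', hJ'⟩ := ε.surjective ((ε u.asIdeal) ^ (v.asIdeal.inertiaDeg O))
      have h8 := (hε J).1
      have h9 := (hε J').1
      rw [hJ, h6] at h8
      rw [hJ', map_pow, (hε _).1] at h9
      have h10 : J = J' := by rw [← h8, ← h9]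
      exact hJ.symm.trans ((congrArg ε h10).trans hJ')
    have hirr := v.irreducible
    have hpos : 0 < v.asIdeal.inertiaDeg O := Ideal.inertiaDeg_pos v.asIdeal O
    obtain ⟨g, hg'⟩ : ∃ g, v.asIdeal.inertiaDeg O = g + 1 := ⟨_, (Nat.sub_add_cancel hpos).symm⟩
    rw [hg'] at h7
    rw [hg']
    have hnu : ¬ IsUnit (ε u.asIdeal) := by
      intro h
      apply hirr.not_isUnit
      rw [h7]
      exact h.pow _
    rw [h7, pow_succ] at hirr
    rcases hirr.isUnit_or_isUnit rfl with h | h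
    · rcases Nat.eq_zero_or_pos g with h0 | h0
      · rw [h0]
      · exact absurd ((isUnit_pow_iff h0.ne').1 h) hnu
    · exact absurd h hnu
  refine ⟨v, h3, ?_, ?_⟩
  · exact hodd p (hp.odd_of_ne_two (by omega))
  · have h6 := cardE K v h3
    rw [Psi_prime v u hu, psiF_prime u hu3, hg, hf, pow_one, map_neg, map_ofNat, map_neg, map_ofNat,
      map_neg, map_ofNat] at h6
    have h7 : Nat.card (W27O⁄(𝓞 K ⧸ v.asIdeal)).toAffine.Point = 9 := by
      have h8 : (Nat.card (W27O⁄(𝓞 K ⧸ v.asIdeal)).toAffine.Point : ℂ) = 9 := by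
        rw [h6]
        norm_num
      exact_mod_cast h8
    rw [h7]
    intro h
    have h8 : p ∣ 3 ^ 2 := by norm_num; exact h
    have h9 := Nat.le_of_dvd (by norm_num) (hp.dvd_of_dvd_pow h8)
    omega

end H55P
end

-- from Lib.H13X.XKB2
section

/-! # H13X: port of H13Z/KB2 -/

open NumberField IsDedekindDomain WeierstrassCurve

namespace H13X

open H55P (IQ embF eF LF Per IsHecke Pt ac Inert Dec Nm Coc)
open H35P (WAB Ker tt)
open H55K (Tor ak xc yc CMA Dta GV GMod cj cj_cj mul_cj cj_prime cj_dvd cj_nat Nm_cj Nm_mul Nm_nat)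
open H55K.S
open H13S (Abv)




variable {F : Type} [Field F] [NumberField F] [IQ F] {A B : F} {Om : ℂ} {Ω : Type} [Field Ω] [DecidableEq Ω]
  [Algebra F Ω] [IsAlgClosure F Ω] {j : Ω →+* ℂ} {act : 𝓞 F →+* AddMonoid.End (Pt (WAB A B) Ω)} {mo : Ideal (𝓞 F)}
  {ψ : Ideal (𝓞 F) →*₀ 𝓞 F}

variable {π : 𝓞 F} {l : ℕ} {B₀ L : IntermediateField F Ω} {c : (Ω ≃ₐ[F] Ω) → Pt (WAB A B) Ω}
  {e : Pt (WAB A B) Ω → Pt (WAB A B) Ω → Ω}

omit [IsAlgClosure F Ω] in
theorem kb2_ne (he : Pairing A B act π l e) {X Y T : Pt (WAB A B) Ω} (hX : X ∈ Tor act (cj π)) (hY : Y ∈ Tor act (cj π))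
    (hT : T ∈ Tor act π) (h : e Y T ≠ 0) : e X T ≠ 0 := by
  intro h0
  have h1 := he.add_left (Y - X) (sub_mem hY hX) X hX T hT
  rw [sub_add_cancel, h0, mul_zero] at h1
  exact h h1

omit [IsAlgClosure F Ω] in
theorem kb2_ne1 (C : Cc act π B₀ c) (he : Pairing A B act π l e) {X T : Pt (WAB A B) Ω} (hX : X ∈ Tor act (cj π))
    (hT : T ∈ Tor act π) {y : Ω} (hy : Kum L e c T y) : e X T ≠ 0 := by
  have h1 := hy.2 1 (Subgroup.one_mem _)
  have h2 : e (c 1) T ≠ 0 := by
    intro h3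
    rw [h3, zero_mul] at h1
    exact hy.1 h1
  exact kb2_ne he hX (C.val 1 (Subgroup.one_mem _)) hT h2

omit [IsAlgClosure F Ω] in
theorem kb2_sub (he : Pairing A B act π l e) {X Y T : Pt (WAB A B) Ω} (hX : X ∈ Tor act (cj π))
    (hY : Y ∈ Tor act (cj π)) (hT : T ∈ Tor act π) (h : e Y T ≠ 0) : e (X - Y) T = e X T / e Y T := by
  have h1 := he.add_left (X - Y) (sub_mem hX hY) Y hY T hT
  rw [sub_add_cancel] at h1
  rw [h1, mul_div_assoc, div_self h, mul_one]

omit [IsAlgClosure F Ω] in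
theorem kb2_conj (hA : CMA F A B Om j act) (hL : IsTB act π B₀ L) {σ s : Ω ≃ₐ[F] Ω} (hσ : σ ∈ B₀.fixingSubgroup)
    (hs : s ∈ L.fixingSubgroup) : σ⁻¹ * s * σ ∈ L.fixingSubgroup := by
  rw [hL.fix]
  refine ⟨mul_mem (mul_mem (inv_mem hσ) (hL.mono hs)) hσ, fun T hT => ?_⟩
  rw [ac_mul, ac_mul, ((hL.fix s).1 hs).2 _ (ac_mem hA σ hT), ← ac_mul, inv_mul_cancel, ac_one]

/-- Chunk KB2 (S/M), ports of H13S/KU2.lean to a base field B₀, and the product of Kummer generators. -/
theorem kumB_pow (C : Cc act π B₀ c) (he : Pairing A B act π l e) (hL : IsTB act π B₀ L) {T : Pt (WAB A B) Ω} (hT : T ∈ Tor act π)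
    {y : Ω} (hy : Kum L e c T y) : ∃ m : L, (m : Ω) = y ^ l ∧ m ≠ 0 := by
  have h1 : y ^ l ∈ L := by
    apply ku2_mem
    intro s hs
    rw [map_pow, hy.2 s hs, mul_pow, he.root _ (C.val s (hL.mono hs)) _ hT, one_mul]
  refine ⟨⟨y ^ l, h1⟩, rfl, fun h => ?_⟩
  have h2 : y ^ l = 0 := congrArg (fun z : L => (z : Ω)) h
  exact pow_ne_zero l hy.1 h2

theorem kumB_mul (C : Cc act π B₀ c) (he : Pairing A B act π l e) (hL : IsTB act π B₀ L) {T T' : Pt (WAB A B) Ω} (hT : T ∈ Tor act π)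
    (hT' : T' ∈ Tor act π) {y y' : Ω} (hy : Kum L e c T y) (hy' : Kum L e c T' y') :
    Kum L e c (T + T') (y * y') := by
  refine ⟨mul_ne_zero hy.1 hy'.1, fun s hs => ?_⟩
  rw [map_mul, hy.2 s hs, hy'.2 s hs, he.add_right _ (C.val s (hL.mono hs)) _ hT _ hT']
  ring

theorem kumB_ratio {T : Pt (WAB A B) Ω} {y y' : Ω} (hy : Kum L e c T y) (hy' : Kum L e c T y') :
    ∃ z : L, z ≠ 0 ∧ y = (z : Ω) * y' := by
  have h1 : y / y' ∈ L := by
    apply ku2_mem
    intro s hs
    have h2 : e (c s) T ≠ 0 := by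
      intro h3
      have h4 := hy.2 s hs
      rw [h3, zero_mul] at h4
      exact hy.1 ((map_eq_zero_iff s s.injective).1 h4)
    rw [map_div₀, hy.2 s hs, hy'.2 s hs, mul_div_mul_left _ _ h2]
  refine ⟨⟨y / y', h1⟩, fun h => ?_, ?_⟩
  · have h2 : y / y' = 0 := congrArg (fun z : L => (z : Ω)) h
    exact div_ne_zero hy.1 hy'.1 h2
  · show y = y / y' * y'
    rw [div_mul_cancel₀ _ hy'.1]

/-- σ in the group of B₀ with σ L contained in L and σ⁻¹ L contained in L. -/
theorem kumB_act (hA : CMA F A B Om j act) (C : Cc act π B₀ c) (he : Pairing A B act π l e) (hL : IsTB act π B₀ L) (σ : Ω ≃ₐ[F] Ω)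
    (hσ : σ ∈ B₀.fixingSubgroup) {T : Pt (WAB A B) Ω} (hT : T ∈ Tor act π) {y : Ω} (hy : Kum L e c T y) :
    Kum L e c (ac (WAB A B) σ T) (σ y / e (c σ) (ac (WAB A B) σ T)) := by
  have hT' := ac_mem hA σ hT
  have hne : ∀ X ∈ Tor act (cj π), e X (ac (WAB A B) σ T) ≠ 0 := by
    intro X hX
    have h1 : e (c 1) T ≠ 0 := kb2_ne1 C he (C.val 1 (Subgroup.one_mem _)) hT hy
    have h2 := he.gal σ _ (C.val 1 (Subgroup.one_mem _)) _ hT
    refine kb2_ne he hX (ac_mem hA σ (C.val 1 (Subgroup.one_mem _))) hT' ?_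
    rw [← h2]
    exact (map_ne_zero_iff σ σ.injective).2 h1
  have hg := hne _ (C.val σ hσ)
  have hy0 : σ y ≠ 0 := by
    rw [Ne, map_eq_zero_iff σ σ.injective]
    exact hy.1
  refine ⟨div_ne_zero hy0 hg, fun s hs => ?_⟩
  have hsB := hL.mono hs
  have hs' := kb2_conj hA hL hσ hs
  have e1 : σ * (σ⁻¹ * s * σ) = s * σ := by group
  have e2 : ac (WAB A B) σ (c (σ⁻¹ * s * σ)) = c s + ac (WAB A B) s (c σ) - c σ := by
    have h1 := C.mul σ hσ (σ⁻¹ * s * σ) (hL.mono hs')
    rw [e1, C.mul s hsB σ hσ] at h1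
    rw [h1, add_sub_cancel_left]
  have e3 : s (σ y) = e (c s + ac (WAB A B) s (c σ) - c σ) (ac (WAB A B) σ T) * σ y := by
    have h1 : s (σ y) = σ ((σ⁻¹ * s * σ) y) := by
      show (s * σ) y = (σ * (σ⁻¹ * s * σ)) y
      rw [e1]
    rw [h1, hy.2 _ hs', map_mul, he.gal σ _ (C.val _ (hL.mono hs')) _ hT, e2]
  have hXs := ac_mem hA s (C.val σ hσ)
  have e4 : s (e (c σ) (ac (WAB A B) σ T)) = e (ac (WAB A B) s (c σ)) (ac (WAB A B) σ T) := by
    rw [he.gal s _ (C.val σ hσ) _ hT', ((hL.fix s).1 hs).2 _ hT']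
  have hg2 := hne _ hXs
  rw [map_div₀, e3, e4, kb2_sub he (add_mem (C.val s hsB) hXs) (C.val σ hσ) hT' hg,
    he.add_left _ (C.val s hsB) _ hXs _ hT']
  field_simp

/-- L is stable under the automorphisms over B₀. -/
theorem tb_stable (hA : CMA F A B Om j act) (hL : IsTB act π B₀ L) (σ : Ω ≃ₐ[F] Ω) (hσ : σ ∈ B₀.fixingSubgroup) (x : L) : σ (x : Ω) ∈ L := by
  apply ku2_mem
  intro s hs
  have hs' := kb2_conj hA hL hσ hs
  have h1 : (σ⁻¹ * s * σ) (x : Ω) = (x : Ω) :=
    (IntermediateField.mem_fixingSubgroup_iff L _).1 hs' x x.2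
  have e1 : σ * (σ⁻¹ * s * σ) = s * σ := by group
  show (s * σ) (x : Ω) = σ (x : Ω)
  rw [← e1]
  show σ ((σ⁻¹ * s * σ) (x : Ω)) = σ (x : Ω)
  rw [h1]

/-- Existence of L: L = B₀(coordinates of Tor π). -/
theorem exists_TB (hA : CMA F A B Om j act) (π : 𝓞 F) (hπ : Prime π) (B₀ : IntermediateField F Ω) [FiniteDimensional F B₀] :
    ∃ L : IntermediateField F Ω, IsTB act π B₀ L := by
  classical
  obtain ⟨hcard, -⟩ := H55K.S.gi_gen hA π hπ
  have hN : Nm π ≠ 0 := fun h => hπ.ne_zero (H55P.Nm_eq_zero.1 h)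
  have hfin : Finite (Tor act π) := by
    apply Nat.finite_of_card_ne_zero
    rw [hcard]
    exact hN
  have hint : ∀ x : Ω, IsIntegral F x := fun x =>
    (Algebra.IsAlgebraic.isAlgebraic x).isIntegral
  let A₀ : Set Ω := (xc '' (Tor act π : Set (Pt (WAB A B) Ω))) ∪ (yc '' (Tor act π : Set (Pt (WAB A B) Ω)))
  have hAf : A₀.Finite := ((Set.toFinite (Tor act π : Set (Pt (WAB A B) Ω))).image _).union
    ((Set.toFinite (Tor act π : Set (Pt (WAB A B) Ω))).image _)
  have hAf' : Finite A₀ := hAf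
  have hLf : FiniteDimensional F (IntermediateField.adjoin F A₀) :=
    IntermediateField.finiteDimensional_adjoin fun x _ => hint x
  refine ⟨B₀ ⊔ IntermediateField.adjoin F A₀, inferInstance, le_sup_left, fun s => ?_⟩
  rw [IntermediateField.fixingSubgroup_sup, Subgroup.mem_inf]
  refine and_congr_right fun _ => ?_
  constructor
  · intro hs T hT
    have hfix : ∀ x ∈ A₀, s x = x := fun x hx =>
      (IntermediateField.mem_fixingSubgroup_iff _ _).1 hs x (IntermediateField.subset_adjoin F A₀ hx)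
    by_cases hT0 : T = 0
    · rw [hT0, map_zero]
    · refine pt_ext (ac_ne s hT0) hT0 ?_ ?_
      · rw [xc_ac]
        exact hfix _ (Or.inl ⟨T, hT, rfl⟩)
      · rw [yc_ac]
        exact hfix _ (Or.inr ⟨T, hT, rfl⟩)
  · intro hs
    rw [IntermediateField.mem_fixingSubgroup_iff]
    intro x hx
    have hA : ∀ x ∈ A₀, s x = x := by
      rintro x (⟨T, hT, rfl⟩ | ⟨T, hT, rfl⟩)
      · have h1 := congrArg xc (hs T hT)
        rw [xc_ac] at h1
        exact h1
      · have h1 := congrArg yc (hs T hT)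
        rw [yc_ac] at h1
        exact h1
    induction hx using IntermediateField.adjoin_induction with
    | mem x hx => exact hA x hx
    | algebraMap x => exact s.commutes x
    | add x y _ _ h1 h2 => rw [map_add, h1, h2]
    | inv x _ h1 => rw [map_inv₀, h1]
    | mul x y _ _ h1 h2 => rw [map_mul, h1, h2]

end H13X
end

-- from Lib.H55K.SNA
section

/-! # H55K, part S: the valuations at the primes above the conjugate of pi, without a condition on the number of points -/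

open NumberField IsDedekindDomain WeierstrassCurve

namespace H55K.S

open H55P (IQ embF eF LF Per IsHecke Pt ac Inert Dec Nm)
open H35P (WAB Ker tt)
open H13S (Abv)

variable {F : Type} [Field F] [NumberField F] [IQ F] {A B : F} {Om : ℂ} {Ω : Type} [Field Ω] [DecidableEq Ω]
  [Algebra F Ω] [IsAlgClosure F Ω] {j : Ω →+* ℂ} {act : 𝓞 F →+* AddMonoid.End (Pt (WAB A B) Ω)} {mo : Ideal (𝓞 F)}
  {ψ : Ideal (𝓞 F) →*₀ 𝓞 F}

/-- The size of a local point Q in the kernel of reduction, with all ac s Q - Q killed by β but no translate fixed by inertia. -/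
theorem na_point (hA : CMA F A B Om j act) {β : 𝓞 F} (hβ : Prime β) (hq3 : 3 ≤ Nm β)
    (V : ValuationSubring Ω) (hG : GV A B V) (hV : vo V β < 1) (Q : Pt (WAB A B) Ω) (hQ : Ker V Q)
    (hc : ∀ s, Inert V s → ac (WAB A B) s Q - Q ∈ Tor act β)
    (hno : ¬ ∃ R ∈ Tor act β, ∀ s, Inert V s → ac (WAB A B) s (Q + R) = Q + R) :
    V.valuation (tt Q) ^ Nm β = vo V β := by
  have hF : IsAlgClosed Ω := IsAlgClosure.isAlgClosed F
  have hal : Algebra.IsAlgebraic F Ω := IsAlgClosure.isAlgebraic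
  set ϖ := vo V β with hϖ
  set q := Nm β with hq
  have hϖ0 : ϖ ≠ 0 := vo_ne V hβ.ne_zero
  have hϖp : 0 < ϖ := zero_lt_iff.2 hϖ0
  -- the value of the points killed by pi
  obtain ⟨-, R₀, hR₀T, -, hR₀z⟩ := gi_gen hA β hβ
  have hR₀0 : R₀ ≠ 0 := by
    intro h
    have h3 : act (1 : 𝓞 F) R₀ = 0 := by rw [h, map_zero]
    exact hβ.not_isUnit (isUnit_of_dvd_one ((hR₀z 1).1 h3))
  obtain ⟨hR₀K, hR₀q⟩ : Ker V R₀ ∧ V.valuation (tt R₀) ^ (Nm β - 1) = vo V β := kr_tor_ram hA hG β hβ hV hR₀T hR₀0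
  set τ := V.valuation (tt R₀) with hτ
  have hτ0 : 0 < τ := by
    rw [zero_lt_iff]
    intro h
    have h4 : τ ^ (q - 1) = ϖ := hR₀q
    rw [h, zero_pow (by omega)] at h4
    exact hϖ0 h4.symm
  have hτ1 : τ < 1 := kr_tt_lt hG hR₀K
  have hTorN : ∀ R ∈ Tor act β, R ≠ 0 → V.valuation (tt R) = τ := by
    intro R hR h0
    obtain ⟨h4, h5⟩ := kr_tor_ram hA hG β hβ hV hR h0
    have h6 : V.valuation (tt R) ^ (q - 1) = τ ^ (q - 1) := h5.trans hR₀q.symm
    exact (pow_left_inj₀ zero_le zero_le (by omega)).1 h6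
  have hTor : ∀ R ∈ Tor act β, Ker V R ∧ V.valuation (tt R) ≤ τ := by
    intro R hR
    by_cases h0 : R = 0
    · rw [h0]
      refine ⟨ker_zero V, ?_⟩
      have : tt (0 : Pt (WAB A B) Ω) = 0 := rfl
      rw [this, map_zero]
      exact zero_le
    · obtain ⟨h4, h5⟩ := kr_tor_ram hA hG β hβ hV hR h0
      refine ⟨h4, le_of_eq ?_⟩
      have h6 : V.valuation (tt R) ^ (q - 1) = τ ^ (q - 1) := h5.trans hR₀q.symm
      exact (pow_left_inj₀ zero_le zero_le (by omega)).1 h6
  -- translates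
  have hlow : ∀ R ∈ Tor act β, Ker V (Q + R) ∧ τ ≤ V.valuation (tt (Q + R)) := by
    intro R hR
    have hK := kr_add hG hQ (hTor R hR).1
    refine ⟨hK, ?_⟩
    obtain ⟨s₀, h2, h3⟩ : ∃ s, Inert V s ∧ ac (WAB A B) s (Q + R) ≠ Q + R := by
      by_contra hcon
      push Not at hcon
      exact hno ⟨R, hR, hcon⟩
    have hD : ac (WAB A B) s₀ (Q + R) + -(Q + R) ∈ Tor act β := by
      have e : ac (WAB A B) s₀ (Q + R) + -(Q + R) = (ac (WAB A B) s₀ Q - Q) + (ac (WAB A B) s₀ R - R) := by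
        rw [map_add]
        abel
      rw [e]
      exact (Tor act β).add_mem (hc s₀ h2) ((Tor act β).sub_mem (ac_mem hA s₀ hR) hR)
    have hD0 : ac (WAB A B) s₀ (Q + R) + -(Q + R) ≠ 0 := by
      rw [← sub_eq_add_neg]
      exact sub_ne_zero.2 h3
    obtain ⟨n1, n2⟩ := qv_neg hA hG hK
    have e2 : V.valuation (tt (ac (WAB A B) s₀ (Q + R))) = V.valuation (tt (Q + R)) := by
      rw [tt_ac, qv_val V s₀ h2]
    rw [← hTorN _ hD hD0]
    exact qv_add hG (kr_dec s₀ (in_dec s₀ h2) hK) n1 _ (kr_tt_lt hG hK).le e2.le n2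
  -- the point X₀
  have hX₀K := kr_act hA hG β hQ
  have hprod := kr_prod hA hG β hβ hV hQ
  obtain ⟨hcard, -⟩ := gi_gen hA β hβ
  have hfin : Finite (Tor act β) := by
    apply Nat.finite_of_card_ne_zero
    rw [hcard]
    omega
  let _ : Fintype (Tor act β) := Fintype.ofFinite _
  rw [finprod_eq_prod_of_fintype] at hprod
  have hX₀v : V.valuation (tt (act β Q)) ≠ 0 := by
    rw [← hprod]
    refine Finset.prod_ne_zero_iff.2 fun R _ => ?_
    exact (hτ0.trans_le (hlow R.1 R.2).2).ne'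
  have hX₀t : tt (act β Q) ≠ 0 := (Valuation.ne_zero_iff _).1 hX₀v
  have hfix : ∀ s ∈ (⊥ : IntermediateField F Ω).fixingSubgroup, Inert V s →
      s (tt (act β Q)) = tt (act β Q) := by
    intro s _ hs
    have e1 : ac (WAB A B) s Q = Q + (ac (WAB A B) s Q - Q) := by
      abel
    rw [← tt_ac, ac_act hA, e1, map_add, mem_Tor.1 (hc s hs), add_zero]
  have hNF : NumberField (⊥ : IntermediateField F Ω) := NumberField.of_module_finite F _
  obtain ⟨a, ha, hva⟩ := H13S.value_fixed (⊥ : IntermediateField F Ω) V _ hX₀t hfix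
  obtain ⟨a', ha'⟩ := IntermediateField.mem_bot.1 a.2
  have ha'0 : a' ≠ 0 := by
    rintro rfl
    rw [map_zero] at ha'
    exact ha (Subtype.ext ha'.symm)
  obtain ⟨k, hk⟩ := qv_intpow V hβ hV a' ha'0
  rw [ha'] at hk
  have hXk : V.valuation (tt (act β Q)) = ϖ ^ k := hva.trans hk
  have hk1 : 0 < k := by
    by_contra hcon
    push Not at hcon
    have h4 : V.valuation (tt (act β Q)) < 1 := kr_tt_lt hG hX₀K
    rw [hXk] at h4
    have h5 : 1 ≤ ϖ ^ k := by
      rw [← neg_neg k, zpow_neg]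
      have h6 : 0 < ϖ ^ (-k) := zpow_pos hϖp _
      rw [one_le_inv₀ h6]
      obtain ⟨n, hn⟩ := Int.eq_ofNat_of_zero_le (neg_nonneg.2 hcon)
      rw [hn]
      exact pow_le_one' hV.le n
    exact absurd h4 (not_lt.2 h5)
  obtain ⟨n, rfl⟩ := Int.eq_ofNat_of_zero_le hk1.le
  have hn1 : 0 < n := by exact_mod_cast hk1
  have hXn : V.valuation (tt (act β Q)) = ϖ ^ n := hXk
  -- strict monotonicity of the powers
  have hlt : ∀ i j : ℕ, ϖ ^ i < ϖ ^ j → j < i := by
    intro i j h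
    by_contra hcon
    push Not at hcon
    exact absurd h (not_lt.2 (pow_le_pow_right_of_le_one' hV.le hcon))
  have heq : ∀ i j : ℕ, ϖ ^ i = ϖ ^ j → i = j := by
    have hanti : StrictAnti (fun i : ℕ => ϖ ^ i) := by
      refine strictAnti_nat_of_succ_lt fun i => ?_
      rw [pow_succ]
      calc ϖ ^ i * ϖ < ϖ ^ i * 1 := mul_lt_mul_of_pos_left hV (pow_pos hϖp i)
        _ = ϖ ^ i := mul_one _
    exact fun i j h => hanti.injective h
  have hcard' : Fintype.card (Tor act β) = q := by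
    rw [← Nat.card_eq_fintype_card]
    exact hcard
  have hQlow : τ ≤ V.valuation (tt Q) := by
    have := (hlow 0 (Tor act β).zero_mem).2
    rwa [add_zero] at this
  have hQ1 : V.valuation (tt Q) < 1 := kr_tt_lt hG hQ
  rcases hQlow.lt_or_eq with hgt | heq'
  · have hall : ∀ R : Tor act β, V.valuation (tt (Q + (R : Pt (WAB A B) Ω))) = V.valuation (tt Q) := by
      intro R
      have h4 := (hTor R.1 R.2).2
      have h5 := kr_tt_add hG hQ (hTor R.1 R.2).1 (V.valuation (tt Q)) le_rfl (h4.trans hQlow)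
      have h6 : V.valuation (tt Q) ^ 2 < V.valuation (tt Q) := by
        rw [sq]
        calc V.valuation (tt Q) * V.valuation (tt Q) < V.valuation (tt Q) * 1 :=
              mul_lt_mul_of_pos_left hQ1 (hτ0.trans hgt)
          _ = _ := mul_one _
      have e : tt (Q + (R : Pt (WAB A B) Ω)) = tt Q + ((tt (Q + (R : Pt (WAB A B) Ω)) - tt Q - tt (R : Pt (WAB A B) Ω)) + tt (R : Pt (WAB A B) Ω)) := by
        ring
      rw [e]
      exact Valuation.map_add_eq_of_lt_left _ (Valuation.map_add_lt _ (h5.trans_lt h6) (h4.trans_lt hgt))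
    rw [Finset.prod_congr rfl fun R _ => hall R, Finset.prod_const, Finset.card_univ, hcard', hXn] at hprod
    have h7 : τ ^ (q * (q - 1)) < V.valuation (tt Q) ^ (q * (q - 1)) :=
      pow_lt_pow_left₀ hgt zero_le (Nat.mul_ne_zero (by omega) (by omega))
    have h8 : ϖ ^ q < ϖ ^ (n * (q - 1)) := by
      calc ϖ ^ q = τ ^ (q * (q - 1)) := by
            rw [mul_comm, pow_mul]
            exact congrArg (fun z => z ^ q) hR₀q.symm
        _ < V.valuation (tt Q) ^ (q * (q - 1)) := h7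
        _ = ϖ ^ (n * (q - 1)) := by rw [pow_mul, hprod, ← pow_mul]
    have h9 := hlt _ _ h8
    have hn : n = 1 := by
      by_contra hne
      have hn2 : 2 ≤ n := by omega
      have h10 : 2 * (q - 1) ≤ n * (q - 1) := Nat.mul_le_mul_right _ hn2
      omega
    rw [hn, pow_one] at hprod
    exact hprod
  · exfalso
    have hall : ∀ R : Tor act β, V.valuation (tt (Q + (R : Pt (WAB A B) Ω))) = τ := by
      intro R
      refine le_antisymm ?_ (hlow R.1 R.2).2
      exact qv_add hG hQ (hTor R.1 R.2).1 τ hτ1.le heq'.symm.le (hTor R.1 R.2).2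
    rw [Finset.prod_congr rfl fun R _ => hall R, Finset.prod_const, Finset.card_univ, hcard', hXn] at hprod
    have h8 : ϖ ^ q = ϖ ^ (n * (q - 1)) := by
      calc ϖ ^ q = τ ^ (q * (q - 1)) := by
            rw [mul_comm, pow_mul]
            exact congrArg (fun z => z ^ q) hR₀q.symm
        _ = ϖ ^ (n * (q - 1)) := by rw [pow_mul, hprod, ← pow_mul]
    have h9 := heq _ _ h8
    have h10 : (q - 1) ∣ q := ⟨n, h9.trans (mul_comm _ _)⟩
    have h11 : (q - 1) ∣ 1 := by
      have h12 := Nat.dvd_sub h10 (dvd_refl (q - 1))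
      have e : q - (q - 1) = 1 := by omega
      rwa [e] at h12
    have h12 := Nat.le_of_dvd one_pos h11
    omega

/-- Values of elements fixed by inertia. -/
theorem na_fix {β : 𝓞 F} (hβ : Prime β) {V : ValuationSubring Ω} (hV : vo V β < 1) {x : Ω} (hx : x ≠ 0)
    (h : ∀ s : Ω ≃ₐ[F] Ω, Inert V s → s x = x) : ∃ k : ℤ, V.valuation x = vo V β ^ k := by
  have hNF : NumberField (⊥ : IntermediateField F Ω) := NumberField.of_module_finite F _
  obtain ⟨a, ha, hva⟩ := H13S.value_fixed (⊥ : IntermediateField F Ω) V x hx fun s _ hs => h s hs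
  obtain ⟨a', ha'⟩ := IntermediateField.mem_bot.1 a.2
  have ha'0 : a' ≠ 0 := by
    rintro rfl
    rw [map_zero] at ha'
    exact ha (Subtype.ext ha'.symm)
  obtain ⟨k, hk⟩ := qv_intpow V hβ hV a' ha'0
  rw [ha'] at hk
  exact ⟨k, hva.trans hk⟩

section pure

variable {Ω : Type} [Field Ω]

/-- The value of ζ - 1. -/
theorem na_root (V : ValuationSubring Ω) (l : ℕ) (hl : l.Prime) (ζ : Ω) (hζ : ζ ^ l = 1) (h1 : ζ ≠ 1) :
    V.valuation (ζ - 1) ^ (l - 1) ≤ V.valuation (l : Ω) := by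
  have hl2 := hl.two_le
  have hv1 : V.valuation ζ = 1 := by
    apply H13Z.lf1_one _ l hl.ne_zero
    rw [← map_pow, hζ, map_one]
  have hpr : IsPrimitiveRoot ζ l := by
    have : Fact l.Prime := ⟨hl⟩
    have := orderOf_eq_prime hζ h1
    rw [← this]
    exact IsPrimitiveRoot.orderOf ζ
  have key : ∀ j ∈ Finset.range (l - 1), V.valuation (1 - ζ) ≤ V.valuation (1 - ζ ^ (j + 1)) := by
    intro j hj
    rw [Finset.mem_range] at hj
    have hcop : Nat.Coprime (j + 1) l := by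
      rw [Nat.coprime_comm]
      refine (Nat.Prime.coprime_iff_not_dvd hl).2 ?_
      intro hd
      have := Nat.le_of_dvd (by omega) hd
      omega
    obtain ⟨k, hk⟩ := Nat.exists_mul_mod_eq_one_of_coprime hcop (by omega)
    have hz : ζ = (ζ ^ (j + 1)) ^ k := by
      rw [← pow_mul]
      conv_lhs => rw [← pow_one ζ, ← hk.2]
      exact (pow_eq_pow_mod _ hζ).symm
    have e1 : (1 - ζ : Ω) = (1 - ζ ^ (j + 1)) * ∑ i ∈ Finset.range k, (ζ ^ (j + 1)) ^ i := by
      rw [mul_comm, geom_sum_mul_neg, ← hz]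
    rw [e1, map_mul]
    have e2 : V.valuation (∑ i ∈ Finset.range k, (ζ ^ (j + 1)) ^ i) ≤ 1 := by
      apply Valuation.map_sum_le
      intro i _
      rw [map_pow, map_pow, hv1, one_pow, one_pow]
    calc V.valuation (1 - ζ ^ (j + 1)) * V.valuation (∑ i ∈ Finset.range k, (ζ ^ (j + 1)) ^ i)
        ≤ V.valuation (1 - ζ ^ (j + 1)) * 1 := by gcongr
      _ = _ := mul_one _
  have hprod : ∏ k ∈ Finset.range (l - 1), (1 - ζ ^ (k + 1)) = (l : Ω) := by
    have hpr' : IsPrimitiveRoot ζ ((l - 1) + 1) := by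
      have : l - 1 + 1 = l := by omega
      rw [this]; exact hpr
    rw [hpr'.prod_one_sub_pow_eq_order]
    have : ((l - 1 : ℕ) : Ω) + 1 = ((l - 1 + 1 : ℕ) : Ω) := by push_cast; ring
    rw [this]
    congr 1
    omega
  rw [← hprod, map_prod, Valuation.map_sub_swap]
  calc V.valuation (1 - ζ) ^ (l - 1) = ∏ _k ∈ Finset.range (l - 1), V.valuation (1 - ζ) := by
        rw [Finset.prod_const, Finset.card_range]
    _ ≤ _ := Finset.prod_le_prod' key

/-- Terms with different values are not larger than the sum. -/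
theorem na_sum (V : ValuationSubring Ω) (l : ℕ) (A : ℕ → Ω)
    (hd : ∀ i < l, ∀ k < l, i ≠ k → A i ≠ 0 → V.valuation (A i) ≠ V.valuation (A k)) :
    ∀ i < l, V.valuation (A i) ≤ V.valuation (∑ k ∈ Finset.range l, A k) := by
  intro i hi
  obtain ⟨n, hn, hmax⟩ := Finset.exists_max_image (Finset.range l) (fun k => V.valuation (A k))
    ⟨i, Finset.mem_range.2 hi⟩
  refine (hmax i (Finset.mem_range.2 hi)).trans ?_
  by_cases h0 : A n = 0
  · show V.valuation (A n) ≤ _
    rw [h0, map_zero]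
    exact zero_le
  · rw [← Finset.add_sum_erase _ _ hn]
    have h1 : V.valuation (∑ k ∈ (Finset.range l).erase n, A k) < V.valuation (A n) := by
      refine Valuation.map_sum_lt _ ((Valuation.ne_zero_iff _).2 h0) fun k hk => ?_
      obtain ⟨h2, h3⟩ := Finset.mem_erase.1 hk
      refine lt_of_le_of_ne (hmax k h3) fun h4 => ?_
      exact hd n (Finset.mem_range.1 hn) k (Finset.mem_range.1 h3) (Ne.symm h2) h0 h4.symm
    exact (Valuation.map_add_eq_of_lt_left _ h1).ge

/-- Lagrange resolvents. -/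
theorem na_res {G : Type} [AddCommGroup G] [Fintype G] [DecidableEq G] {l : ℕ} (hl : l.Prime) (f : G → Ω)
    (hf : ∀ x y, f (x + y) = f x * f y) (hp : ∀ x, f x ^ l = 1) (h1 : ∀ x, f x = 1 → x = 0) (t : G → Ω) (g : G) :
    ∑ i ∈ Finset.range l, f g ^ i * ∑ x, f (-x) ^ i * t x = l * t g := by
  have h2 : ∀ i : ℕ, f g ^ i * ∑ x, f (-x) ^ i * t x = ∑ x, f (g - x) ^ i * t x := by
    intro i
    rw [Finset.mul_sum]
    refine Finset.sum_congr rfl fun x _ => ?_
    rw [sub_eq_add_neg, hf, mul_pow, mul_assoc]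
  rw [Finset.sum_congr rfl fun i _ => h2 i, Finset.sum_comm]
  have h3 : ∀ x : G, ∑ i ∈ Finset.range l, f (g - x) ^ i * t x = if x = g then l * t g else 0 := by
    intro x
    rw [← Finset.sum_mul]
    split_ifs with hx
    · subst hx
      have h4 : f (x - x) = 1 := by
        rw [sub_self]
        have h5 := hf 0 0
        rw [add_zero] at h5
        have h6 : f 0 ≠ 0 := fun h => by
          have h7 := hp 0
          rw [h, zero_pow hl.ne_zero] at h7
          exact zero_ne_one h7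
        exact (mul_eq_left₀ h6).1 h5.symm
      rw [h4]
      simp
    · have h4 : f (g - x) ≠ 1 := fun h => hx (sub_eq_zero.1 (h1 _ h)).symm
      have h5 : (∑ i ∈ Finset.range l, f (g - x) ^ i) * (f (g - x) - 1) = 0 := by
        rw [geom_sum_mul, hp, sub_self]
      have h6 := (mul_eq_zero.1 h5).resolve_right (sub_ne_zero.2 h4)
      rw [h6, zero_mul]
  rw [Finset.sum_congr rfl fun x _ => h3 x, Finset.sum_ite_eq' Finset.univ g]
  simp

end pure

omit [IQ F] in
/-- In a residue field with a prime number of elements every element is a natural number. -/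
theorem exists_natmod {π : 𝓞 F} {l : ℕ} (hl : l.Prime) (hN : Nm π = l) (a : 𝓞 F) : ∃ n : ℕ, π ∣ a - (n : 𝓞 F) := by
  have hc : Nat.card (𝓞 F ⧸ Ideal.span {π}) = l := hN
  have hfin : Finite (𝓞 F ⧸ Ideal.span {π}) := Nat.finite_of_card_ne_zero (by rw [hc]; exact hl.ne_zero)
  letI : Fintype (𝓞 F ⧸ Ideal.span {π}) := Fintype.ofFinite _
  have hl0 : NeZero l := ⟨hl.ne_zero⟩
  rw [Nat.card_eq_fintype_card] at hc
  let e := ZMod.ringEquivOfPrime (𝓞 F ⧸ Ideal.span {π}) hl hc
  refine ⟨(e.symm (Ideal.Quotient.mk (Ideal.span {π}) a)).val, ?_⟩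
  rw [← Ideal.mem_span_singleton, ← Ideal.Quotient.eq, map_natCast]
  have h1 : e (((e.symm (Ideal.Quotient.mk (Ideal.span {π}) a)).val : ℕ) : ZMod l) =
      Ideal.Quotient.mk (Ideal.span {π}) a := by
    rw [ZMod.natCast_val, ZMod.cast_id, RingEquiv.apply_symm_apply]
  exact h1.symm.trans (map_natCast e _)

omit [IsAlgClosure F Ω] in
theorem na_red (hA : CMA F A B Om j act) {V : ValuationSubring Ω} (hG : GV A B V) {β : 𝓞 F} (hβ : Prime β)
    (hV : vo V β < 1) (k : ℕ) {X : Pt (WAB A B) Ω} (hX : Ker V (act (β ^ k) X)) : Ker V X := by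
  induction k with
  | zero => rwa [pow_zero, act_one] at hX
  | succ k ih =>
    rw [pow_succ', act_mul] at hX
    exact ih (ker_red hA hG hβ hV hX)

/-- The local point can be taken in the kernel of reduction. -/
theorem na_pt {π : 𝓞 F} {l : ℕ} {c : (Ω ≃ₐ[F] Ω) → Pt (WAB A B) Ω} (C : Cl A B Om j act mo ψ π l c)
    (V : ValuationSubring Ω) (hG : GV A B V) (hV : vo V (cj π) < 1) (hVl : V.valuation (l : Ω) < 1) :
    ∃ Q : Pt (WAB A B) Ω, Ker V Q ∧ ∀ s, Inert V s → c s = ac (WAB A B) s Q - Q := by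
  have hA := C.cma
  have hβ : Prime (cj π) := cj_prime C.pr
  obtain ⟨P, hP⟩ := C.loc V
  obtain ⟨n, hn0, hn⟩ := ker_fin (F := F) hG l C.hl hVl P
  have hn0' : (n : 𝓞 F) ≠ 0 := Nat.cast_ne_zero.2 hn0.ne'
  obtain ⟨k, N, hN, hnN⟩ := WfDvdMonoid.max_power_factor hn0' hβ.irreducible
  have hK : Ker V (act N P) := by
    rw [← act_nat (act := act), hnN, act_mul] at hn
    exact na_red hA hG hβ hV k hn
  obtain ⟨u, v, huv⟩ := (hβ.irreducible.coprime_iff_not_dvd).2 hN
  refine ⟨act v (act N P), kr_act hA hG v hK, fun s hs => ?_⟩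
  have h1 : c s = act v (act N (c s)) := by
    conv_lhs => rw [← act_one (act := act) (c s), ← huv, act_add, act_mul u, mem_Tor.1 (C.val s), map_zero, zero_add,
      act_mul]
  rw [h1, hP s hs, map_sub, map_sub, ac_act hA, ac_act hA]

/-- THE VALUATIONS at the primes above the conjugate of π in the split case. -/
theorem na_ord {π : 𝓞 F} {l : ℕ} {c : (Ω ≃ₐ[F] Ω) → Pt (WAB A B) Ω} (C : Cl A B Om j act mo ψ π l c)
    {e : Pt (WAB A B) Ω → Pt (WAB A B) Ω → Ω} (he : Pairing A B act π l e) {L : IntermediateField F Ω}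
    (hL : IsTF act π L) [NumberField L] (V : ValuationSubring Ω) (hG : GV A B V) (h1 : vo V π = 1)
    (hV : vo V (cj π) < 1) (w : HeightOneSpectrum (𝓞 L)) (hw : Abv L V w) (T : Pt (WAB A B) Ω) (hT : T ∈ Tor act π)
    (m : L) (hm : m ≠ 0) (y : Ω) (hyk : Kum L e c T y) (hy : y ^ l = (m : Ω)) :
    ∃ k : ℤ, w.valuation L m = WithZero.exp ((l : ℤ) * k) := by
  classical
  have hA := C.cma
  have hl := C.hl
  have h5 := C.five
  have hl0 := hl.ne_zero
  by_cases hT0 : T = 0
  · refine H13S.ord_of_unr L V w hw l m hm y hy fun s hs _ => ?_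
    rw [hyk.2 s hs, hT0, ld3_e0' hl0 he (C.val s), one_mul]
  have hβ : Prime (cj π) := cj_prime C.pr
  have hnass : ¬ Associated (cj π) π := fun h => by
    have h2 := vo_assoc V h (vo_le V)
    rw [h1] at h2
    exact absurd hV (by rw [h2]; exact lt_irrefl _)
  obtain ⟨hNπ, hπl⟩ : Nm π = l ∧ π * cj π = (l : 𝓞 F) := by
    rcases dichotomy hl C.dta.unr C.pr C.dvd with ⟨h2, -, -⟩ | ⟨-, -, h2, h3⟩
    · exact absurd h2 hnass
    · exact ⟨h2, h3⟩
  have hNβ : Nm (cj π) = l := by rw [Nm_cj, hNπ]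
  have hVlβ : V.valuation (l : Ω) = vo V (cj π) := by
    rw [← vo_nat (F := F), ← hπl, vo_mul, h1, one_mul]
  have hin : ∀ s, Inert V s → s ∈ L.fixingSubgroup := fun s hs => (hL.2 s).2 fun X hX => by
    refine sub_eq_zero.1 (kr_tor hA hG π h1 ?_ (kr_inert hG s hs X))
    exact (Tor act π).sub_mem (ac_mem hA s hX) hX
  have hsT : ∀ s, Inert V s → ac (WAB A B) s T = T := fun s hs => (hL.2 s).1 (hin s hs) T hT
  obtain ⟨P, hPK, hP⟩ := na_pt C V hG hV (by rw [hVlβ]; exact hV)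
  by_cases hno : ∃ R ∈ Tor act (cj π), ∀ s, Inert V s → ac (WAB A B) s (P + R) = P + R
  · obtain ⟨R, hR, hfix⟩ := hno
    refine H13S.ord_of_unr L V w hw l m hm (y * e R T) ?_ fun s hs hi => ?_
    · rw [mul_pow, he.root R hR T hT, mul_one, hy]
    · rw [map_mul, hyk.2 s hs, he.gal s R hR T hT, hsT s hi]
      have h2 : R = c s + ac (WAB A B) s R := by
        have h3 := hfix s hi
        rw [map_add] at h3
        rw [hP s hi, sub_add_eq_add_sub, h3, add_sub_cancel_left]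
      have h3 : e R T = e (c s) T * e (ac (WAB A B) s R) T := by
        conv_lhs => rw [h2]
        exact he.add_left _ (C.val s) _ (ac_mem hA s hR) T hT
      rw [h3]
      ring
  · -- the value of tt P
    set β := cj π with hβd
    have hc' : ∀ s, Inert V s → ac (WAB A B) s P - P ∈ Tor act β := fun s hs => by
      rw [← hP s hs]
      exact C.val s
    have hρ := na_point hA hβ (by rw [hNβ]; omega) V hG hV P hPK hc' hno
    rw [hNβ] at hρ
    set ρ := V.valuation (tt P) with hρd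
    have hϖ0 : vo V β ≠ 0 := vo_ne V hβ.ne_zero
    have hρ0 : ρ ≠ 0 := by
      intro h
      rw [h, zero_pow hl0] at hρ
      exact hϖ0 hρ.symm
    have hρ1 : ρ < 1 := kr_tt_lt hG hPK
    have hρp : 0 < ρ := zero_lt_iff.2 hρ0
    -- the value of m
    have hmΩ : (m : Ω) ≠ 0 := fun h => hm (Subtype.ext h)
    obtain ⟨k, hk⟩ := na_fix hβ hV hmΩ fun s hs =>
      (IntermediateField.mem_fixingSubgroup_iff _ s).1 (hin s hs) _ m.2
    have hy0 : y ≠ 0 := hyk.1
    by_cases hdvd : (l : ℤ) ∣ k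
    · obtain ⟨k', hk'⟩ := hdvd
      have h2 : ((algebraMap F L (β : F) ^ k' : L) : Ω) = ak Ω β ^ k' := by
        exact map_zpow₀ (algebraMap L Ω) _ _
      have h3 : V.valuation (m : Ω) = V.valuation (((algebraMap F L (β : F) ^ k') ^ l : L) : Ω) := by
        have h4 : (((algebraMap F L (β : F) ^ k') ^ l : L) : Ω) = (ak Ω β ^ k') ^ l := by
          rw [← h2]
          rfl
        rw [h4, hk, map_pow, map_zpow₀, ← zpow_natCast, ← zpow_mul, hk', mul_comm]
      have h4 : w.valuation L m = w.valuation L ((algebraMap F L (β : F) ^ k') ^ l) :=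
        le_antisymm ((hw.le m _).1 h3.le) ((hw.le _ m).1 h3.ge)
      have h5 : algebraMap F L (β : F) ^ k' ≠ 0 := by
        refine zpow_ne_zero _ ((map_ne_zero _).2 fun h => hβ.ne_zero ?_)
        exact_mod_cast h
      have h6 : w.valuation L (algebraMap F L (β : F) ^ k') ≠ 0 := (Valuation.ne_zero_iff _).2 h5
      refine ⟨WithZero.log (w.valuation L (algebraMap F L (β : F) ^ k')), ?_⟩
      rw [h4, map_pow, ← nsmul_eq_mul, WithZero.exp_nsmul, WithZero.exp_log h6]
    exfalso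
    have hcop : IsCoprime k (l : ℤ) := by
      rw [isCoprime_comm]
      exact (Nat.prime_iff_prime_int.1 hl).coprime_iff_not_dvd.2 hdvd
    obtain ⟨a, b, hab⟩ := hcop
    -- the character f
    have heT : ∀ R ∈ Tor act β, e R T ≠ 0 := fun R hR => ku2_ne C he hR hT
    have hgenT : ∀ R ∈ Tor act β, e R T = 1 → R = 0 := by
      intro R hR h2
      refine he.nondeg R hR fun X hX => ?_
      obtain ⟨x, rfl⟩ := (PA1_gen hA π C.pr T hT hT0).1 X hX
      obtain ⟨n, hn⟩ := exists_natmod hl hNπ x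
      rw [← (PA1_gen hA π C.pr T hT hT0).2, act_sub, sub_eq_zero] at hn
      rw [hn, act_nat]
      have h3 : ∀ i : ℕ, e R (i • T) = 1 := by
        intro i
        induction i with
        | zero => rw [zero_smul]; exact ld3_e0' hl0 he hR
        | succ i ih =>
          rw [succ_nsmul, he.add_right R hR _ ((Tor act π).nsmul_mem hT i) T hT, ih, h2, mul_one]
      exact h3 n
    let f : Tor act β → Ω := fun R => e (R : Pt (WAB A B) Ω) T ^ a
    have hfadd : ∀ R R' : Tor act β, f (R + R') = f R * f R' := by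
      intro R R'
      show e ((R : Pt (WAB A B) Ω) + R') T ^ a = _
      rw [he.add_left _ R.2 _ R'.2 T hT, mul_zpow]
    have hfl : ∀ R : Tor act β, f R ^ l = 1 := by
      intro R
      show (e (R : Pt (WAB A B) Ω) T ^ a) ^ l = 1
      rw [← zpow_natCast, ← zpow_mul, mul_comm, zpow_mul, zpow_natCast, he.root _ R.2 T hT, one_zpow]
    have hf1 : ∀ R : Tor act β, f R = 1 → R = 0 := by
      intro R h2
      apply Subtype.ext
      refine hgenT _ R.2 ?_
      have h3 : e (R : Pt (WAB A B) Ω) T ^ a = 1 := h2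
      have h4 := he.root _ R.2 T hT
      have h5 : e (R : Pt (WAB A B) Ω) T ^ (a * k + b * l) = 1 := by
        rw [zpow_add₀ (heT _ R.2), zpow_mul, h3, one_zpow, one_mul, mul_comm, zpow_mul, zpow_natCast, h4, one_zpow]
      rwa [hab, zpow_one] at h5
    have hf0 : f 0 = 1 := by
      show e ((0 : Tor act β) : Pt (WAB A B) Ω) T ^ a = 1
      rw [ZeroMemClass.coe_zero, ld3_e0 hl0 he hT, one_zpow]
    have hfne : ∀ R : Tor act β, f R ≠ 0 := fun R => zpow_ne_zero _ (heT _ R.2)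
    have hfin : Finite (Tor act β) := by
      apply Nat.finite_of_card_ne_zero
      rw [(gi_gen hA β hβ).1, hNβ]
      exact hl0
    let _ : Fintype (Tor act β) := Fintype.ofFinite _
    -- y'
    let y' : Ω := y ^ a * ak Ω β ^ b
    have hakβ : ak Ω β ≠ 0 := (Valuation.ne_zero_iff _).1 hϖ0
    have hy'0 : y' ≠ 0 := mul_ne_zero (zpow_ne_zero _ hy0) (zpow_ne_zero _ hakβ)
    have hy'v : V.valuation y' = ρ := by
      have h2 : V.valuation y' ^ l = ρ ^ l := by
        show V.valuation (y ^ a * ak Ω β ^ b) ^ l = _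
        rw [hρ, ← map_pow, mul_pow, ← zpow_natCast, ← zpow_natCast, ← zpow_mul, ← zpow_mul, mul_comm a, zpow_mul y,
          zpow_natCast, hy, map_mul, map_zpow₀, map_zpow₀, hk, ← zpow_mul, ← zpow_add₀ hϖ0]
        have h3 : k * a + b * (l : ℤ) = 1 := by rw [mul_comm k a]; exact hab
        rw [h3, zpow_one]
      exact (pow_left_inj₀ zero_le zero_le hl0).1 h2
    let c' : (Ω ≃ₐ[F] Ω) → Tor act β := fun s => ⟨c s, C.val s⟩
    have hsy' : ∀ s, Inert V s → s y' = f (c' s) * y' := by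
      intro s hs
      show s (y ^ a * ak Ω β ^ b) = e (c s) T ^ a * (y ^ a * ak Ω β ^ b)
      rw [map_mul, map_zpow₀, map_zpow₀, hyk.2 s (hin s hs), mul_zpow, s.commutes]
      ring
    -- the resolvents
    let t : Tor act β → Ω := fun R => tt (P + (R : Pt (WAB A B) Ω))
    let Ai : ℕ → Ω := fun i => ∑ R, f (-R) ^ i * t R
    have hsA : ∀ s, Inert V s → ∀ i, s (Ai i) = f (c' s) ^ i * Ai i := by
      intro s hs i
      show s (∑ R, f (-R) ^ i * t R) = f (c' s) ^ i * ∑ R, f (-R) ^ i * t R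
      rw [map_sum, Finset.mul_sum]
      let g : Tor act β → Tor act β := fun R => ⟨ac (WAB A B) s (R : Pt (WAB A B) Ω), ac_mem hA s R.2⟩ + c' s
      have hg : Function.Bijective g := by
        refine Finite.injective_iff_bijective.1 fun R R' h2 => ?_
        have h3 := congrArg Subtype.val (add_right_cancel h2)
        exact Subtype.ext (ac_inj s h3)
      refine Fintype.sum_bijective g hg _ _ fun R => ?_
      have h2 : s (f (-R)) = f (c' s) * f (-(g R)) := by
        rw [← hfadd]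
        show s (e ((-R : Tor act β) : Pt (WAB A B) Ω) T ^ a) = e ((c' s + -(g R) : Tor act β) : Pt (WAB A B) Ω) T ^ a
        rw [map_zpow₀, he.gal s _ (-R).2 T hT, hsT s hs]
        congr 2
        show ac (WAB A B) s (-(R : Pt (WAB A B) Ω)) = c s + -(ac (WAB A B) s (R : Pt (WAB A B) Ω) + c s)
        rw [map_neg]
        abel
      have h3 : s (t R) = t (g R) := by
        show s (tt (P + (R : Pt (WAB A B) Ω))) = tt (P + (ac (WAB A B) s (R : Pt (WAB A B) Ω) + c s))
        rw [← tt_ac, map_add, hP s hs]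
        congr 1
        abel
      rw [map_mul, map_pow, h2, h3, mul_pow, mul_assoc]
    have hAv : ∀ i, Ai i ≠ 0 → ∃ n : ℤ, V.valuation (Ai i) = ρ ^ ((i : ℤ) + l * n) := by
      intro i h0
      have h2 : Ai i / y' ^ i ≠ 0 := div_ne_zero h0 (pow_ne_zero _ hy'0)
      obtain ⟨n, hn⟩ := na_fix hβ hV h2 fun s hs => by
        rw [map_div₀, map_pow, hsA s hs, hsy' s hs, mul_pow,
          mul_div_mul_left _ _ (pow_ne_zero _ (hfne _))]
      refine ⟨n, ?_⟩
      rw [map_div₀, map_pow, hy'v, div_eq_iff (pow_ne_zero _ hρ0)] at hn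
      rw [hn, ← hρ, ← zpow_natCast, ← zpow_mul, ← zpow_natCast, ← zpow_add₀ hρ0, add_comm]
    have hdist : ∀ i < l, ∀ k < l, i ≠ k → Ai i ≠ 0 → V.valuation (Ai i) ≠ V.valuation (Ai k) := by
      intro i hi k hk' hne h0 h2
      have h3 : Ai k ≠ 0 := by
        rw [← Valuation.ne_zero_iff V.valuation, ← h2, Valuation.ne_zero_iff]
        exact h0
      obtain ⟨n, hn⟩ := hAv i h0
      obtain ⟨n', hn'⟩ := hAv k h3
      rw [hn, hn'] at h2
      have h4 := (zpow_right_injective₀ hρp hρ1.ne) h2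
      have h5 : (i : ℤ) + l * n = k + l * n' := h4
      have h6 : (i : ℤ) % l = (k : ℤ) % l := by
        have h7 := congrArg (· % (l : ℤ)) h5
        simpa using h7
      rw [Int.emod_eq_of_lt (by positivity) (by exact_mod_cast hi),
        Int.emod_eq_of_lt (by positivity) (by exact_mod_cast hk')] at h6
      exact hne (by exact_mod_cast h6)
    have hle := na_sum V l Ai hdist
    have hsum0 : ∑ i ∈ Finset.range l, Ai i = l * t 0 := by
      rw [← na_res hl f hfadd hfl hf1 t 0]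
      refine Finset.sum_congr rfl fun i _ => ?_
      rw [hf0, one_pow, one_mul]
    have ht0 : t 0 = tt P := by
      show tt (P + ((0 : Tor act β) : Pt (WAB A B) Ω)) = tt P
      rw [ZeroMemClass.coe_zero, add_zero]
    rw [hsum0, ht0, map_mul] at hle
    -- a nonzero point
    obtain ⟨-, R₀, hR₀T, -, hR₀z⟩ := gi_gen hA β hβ
    have hR₀0 : R₀ ≠ 0 := by
      intro h
      have h3 : act (1 : 𝓞 F) R₀ = 0 := by rw [h, map_zero]
      exact hβ.not_isUnit (isUnit_of_dvd_one ((hR₀z 1).1 h3))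
    let R₁ : Tor act β := ⟨R₀, hR₀T⟩
    have hR₁ : f R₁ ≠ 1 := fun h => hR₀0 (congrArg Subtype.val (hf1 R₁ h))
    have hsum1 : (l : Ω) * (t R₁ - tt P) = ∑ i ∈ Finset.range l, (f R₁ ^ i - 1) * Ai i := by
      rw [mul_sub, ← na_res hl f hfadd hfl hf1 t R₁, ← ht0, ← hsum0, ← Finset.sum_sub_distrib]
      refine Finset.sum_congr rfl fun i _ => ?_
      show f R₁ ^ i * Ai i - Ai i = _
      ring
    have hfv : V.valuation (f R₁) = 1 := by
      apply H13Z.lf1_one _ l hl0
      rw [← map_pow, hfl, map_one]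
    have hbound : V.valuation ((l : Ω) * (t R₁ - tt P)) ≤
        V.valuation (f R₁ - 1) * (V.valuation (l : Ω) * ρ) := by
      rw [hsum1]
      refine Valuation.map_sum_le _ fun i hi => ?_
      have h2 : f R₁ ^ i - 1 = (∑ n ∈ Finset.range i, f R₁ ^ n) * (f R₁ - 1) := (geom_sum_mul _ _).symm
      have h3 : V.valuation (∑ n ∈ Finset.range i, f R₁ ^ n) ≤ 1 := by
        refine Valuation.map_sum_le _ fun n _ => ?_
        rw [map_pow, hfv, one_pow]
      rw [map_mul, h2, map_mul]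
      refine mul_le_mul' ?_ (hle i (Finset.mem_range.1 hi))
      calc V.valuation (∑ n ∈ Finset.range i, f R₁ ^ n) * V.valuation (f R₁ - 1)
          ≤ 1 * V.valuation (f R₁ - 1) := mul_le_mul' h3 le_rfl
        _ = _ := one_mul _
    obtain ⟨-, hrat, -⟩ := val_ratio hA hβ (by rw [hNβ]; omega) V hG hV P hPK (by rw [hNβ]; exact hρ) R₀ hR₀T hR₀0
    obtain ⟨-, hτ⟩ := kr_tor_ram hA hG β hβ hV hR₀T hR₀0
    rw [hNβ] at hτ
    have hroot := na_root V l hl (f R₁) (hfl R₁) hR₁
    rw [hVlβ, ← hτ] at hroot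
    have hfτ : V.valuation (f R₁ - 1) ≤ V.valuation (tt R₀) := by
      by_contra hcon
      push Not at hcon
      exact absurd hroot (not_le.2 (pow_lt_pow_left₀ hcon zero_le (by omega)))
    have hVl0 : 0 < V.valuation (l : Ω) := by
      rw [hVlβ]
      exact zero_lt_iff.2 hϖ0
    rw [map_mul] at hbound
    have e1 : t R₁ - tt P = tt (P + R₀) - tt P := rfl
    rw [e1, hrat] at hbound
    have h6 : V.valuation (l : Ω) * V.valuation (tt R₀) ≤ V.valuation (l : Ω) * (V.valuation (tt R₀) * ρ) := by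
      refine hbound.trans ?_
      calc V.valuation (f R₁ - 1) * (V.valuation (l : Ω) * ρ)
          ≤ V.valuation (tt R₀) * (V.valuation (l : Ω) * ρ) := mul_le_mul' hfτ le_rfl
        _ = _ := by rw [mul_left_comm]
    have h7 : V.valuation (tt R₀) ≤ V.valuation (tt R₀) * ρ := (mul_le_mul_iff_right₀ hVl0).1 h6
    have hτ0 : 0 < V.valuation (tt R₀) := by
      rw [zero_lt_iff]
      intro h
      rw [h, zero_pow (by omega)] at hτ
      exact hϖ0 hτ.symm
    have h8 : V.valuation (tt R₀) * ρ < V.valuation (tt R₀) * 1 := mul_lt_mul_of_pos_left hρ1 hτ0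
    rw [mul_one] at h8
    exact absurd h7 (not_le.2 h8)

end H55K.S
end
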