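import Mathlib
import Pool.Agent.Lib.H1M.PP.D_H55K_QD
import Pool.Agent.Lib.H1M.PP.D_H55P_Stm
import Pool.Agent.Lib.H1M.PP.D_H55P_ZD
import Pool.Agent.Lib.H1M.PP.M001
import Pool.Agent.Lib.H1M.PP.M010
import Pool.Agent.Lib.H1M.PP.M013
import Pool.Agent.Lib.H1M.PP.M021
import Pool.Agent.Lib.H1M.PP.M027
import Pool.Agent.Lib.H1M.PP.M028
import Pool.Agent.Lib.H1M.PP.M029
import Pool.Agent.Lib.H1M.PP.M030
import Pool.Agent.Lib.H1M.PP.M034
import Pool.Agent.Lib.H1M.PP.M037
import Pool.Agent.Lib.H1M.PP.M041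
import Pool.Agent.Lib.H1M.PP.M042

/-! Merged copies (to shorten the build) of Lib.H13S.GIT, Lib.H55K.QA1A, Lib.H55K.QA1B, Lib.H55K.QA2, Lib.H55K.QF1B, Lib.H55K.QP1A, Lib.H55K.QP1B, Lib.H55K.QP2A, Lib.H28G.K2, Lib.H28G.K3, Lib.H55P.Z1, Lib.H28G.K6. -/

-- from Lib.H13S.GIT
section

open NumberField IsDedekindDomain

namespace H13S

open H55P H28G H55B

section git

variable {k : Type} [Field k] [DecidableEq k] [Algebra F k]
  {Γ : Type} [LinearOrderedCommGroupWithZero Γ] (v : Valuation k Γ)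

/-- Elements of O not divisible by the square root of -3 are units at the places above 3. -/
theorem git_unit (h3 : v 3 < 1) {x : O} (hx : ¬ (2 * om + 1) ∣ x) : v (ak k x) = 1 := by
  obtain ⟨a, b, rfl⟩ := exists_repr x
  have hs1 : v (ak k (2 * om + 1)) < 1 := by
    have h1 : v (ak k (2 * om + 1)) ^ 2 = v 3 := by
      rw [← map_pow, ← map_pow, GV10_s_sq, map_neg, Valuation.map_neg]
      congr 1
      exact map_ofNat _ 3
    by_contra h2
    rw [not_lt] at h2
    have h4 : 1 ≤ v (ak k (2 * om + 1)) ^ 2 := one_le_pow₀ h2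
    rw [h1] at h4
    exact absurd h3 (not_lt.2 h4)
  have hab : ¬ (3 : ℤ) ∣ a + b := by
    rintro ⟨c, hc⟩
    apply hx
    have h1 : (a : O) + b = 3 * c := by exact_mod_cast congrArg (fun z : ℤ => (z : O)) hc
    refine ⟨-(2 * om + 1) * c + (om + 1) * b, ?_⟩
    linear_combination h1 + (4 * (c : O) - 2 * b) * om_rel
  have hcop : IsCoprime (3 : ℤ) (a + b) := by
    rw [Int.isCoprime_iff_gcd_eq_one]
    have h1 : Nat.Prime (3 : ℤ).natAbs := by norm_num
    have h2 := (Int.prime_iff_natAbs_prime.2 h1).coprime_iff_not_dvd (n := a + b)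
    exact Int.isCoprime_iff_gcd_eq_one.1 (h2.2 hab)
  obtain ⟨u, w, huw⟩ := hcop
  have h1 : v ((a + b : ℤ) : k) = 1 := by
    apply le_antisymm (GV1_int v _)
    by_contra hlt
    rw [not_le] at hlt
    have h2 : (u : k) * 3 + w * ((a + b : ℤ) : k) = 1 := by exact_mod_cast congrArg (fun z : ℤ => (z : k)) huw
    have h5 : v ((u : k) * 3 + w * ((a + b : ℤ) : k)) < 1 := by
      apply v.map_add_lt
      · rw [map_mul]
        exact mul_lt_one_of_nonneg_of_lt_one_right (GV1_int v u) zero_le h3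
      · rw [map_mul]
        exact mul_lt_one_of_nonneg_of_lt_one_right (GV1_int v w) zero_le hlt
    rw [h2, map_one] at h5
    exact lt_irrefl _ h5
  have h2 : (a : O) + b * om = ((a + b : ℤ) : O) + (2 * om + 1) * ((om + 1) * b) := by
    push_cast
    linear_combination (-2 * (b : O)) * om_rel
  have h4 : ak k ((a : O) + b * om) = ((a + b : ℤ) : k) + ak k (2 * om + 1) * ak k ((om + 1) * b) := by
    rw [h2, map_add, map_mul, map_intCast]
  rw [h4, v.map_add_eq_of_lt_left, h1]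
  rw [h1, map_mul]
  exact mul_lt_one_of_nonneg_of_lt_one_left zero_le hs1 (ak_le v _)

end git

variable {Ω : Type} [Field Ω] [DecidableEq Ω] [Algebra F Ω]

theorem git_dec (V : ValuationSubring Ω) (s : Ω ≃ₐ[F] Ω) (h : Inert V s) : Dec V s := by
  intro x
  have hmem : ∀ x ∈ V, s x ∈ V := by
    intro x hx
    have h1 : s x = x + (s x - x) := by ring
    rw [h1]
    refine V.add_mem _ _ hx ?_
    exact (V.valuation_le_one_iff _).1 (h x hx).le
  refine ⟨fun hsx => ?_, hmem x⟩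
  by_contra hx
  have hx0 : x ≠ 0 := by
    rintro rfl
    exact hx V.zero_mem
  have h1 : x⁻¹ ∈ V := (V.mem_or_inv_mem x).resolve_left hx
  have h2 := h x⁻¹ h1
  have h3 : V.valuation x⁻¹ < 1 := by
    rw [map_inv₀]
    have h4 : ¬ V.valuation x ≤ 1 := fun h4 => hx ((V.valuation_le_one_iff _).1 h4)
    rw [not_le] at h4
    exact inv_lt_one_of_one_lt₀ h4
  have h4 : V.valuation (s x⁻¹) < 1 := by
    have h5 : s x⁻¹ = (s x⁻¹ - x⁻¹) + x⁻¹ := by ring
    rw [h5]
    exact V.valuation.map_add_lt h2 h3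
  rw [map_inv₀, map_inv₀] at h4
  have h5 : V.valuation (s x) ≤ 1 := (V.valuation_le_one_iff _).2 hsx
  have h6 : V.valuation (s x) ≠ 0 := by
    rw [Valuation.ne_zero_iff]
    exact (map_ne_zero s).2 hx0
  have h7 : 1 ≤ (V.valuation (s x))⁻¹ := (one_le_inv₀ (zero_lt_iff.2 h6)).2 h5
  exact absurd h4 (not_lt.2 h7)

theorem git_pow {k : Type} [Field k] [DecidableEq k] [Algebra F k]
    {Γ : Type} [LinearOrderedCommGroupWithZero Γ] (v : Valuation k Γ) (h3 : v 3 < 1) {x : O}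
    (hx : x ≠ 0) : ∃ i : ℕ, v (ak k x) = v (ak k (2 * om + 1)) ^ i := by
  have hnu : ¬ IsUnit (2 * om + 1 : O) := by
    intro h
    have h1 : IsUnit ((2 * om + 1 : O) ^ 2) := h.pow 2
    rw [GV10_s_sq] at h1
    have h2 : IsUnit (3 : O) := by simpa using h1.neg
    have h4 : v (ak k (3 : O)) = 1 := by
      obtain ⟨u, hu⟩ := h2
      apply le_antisymm (ak_le v _)
      have h5 : v (ak k (3 : O)) * v (ak k ((u⁻¹ : Oˣ) : O)) = 1 := by
        rw [← map_mul, ← map_mul, ← hu, Units.mul_inv, map_one, map_one]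
      by_contra hlt
      rw [not_le] at hlt
      have h6 := mul_lt_one_of_nonneg_of_lt_one_left zero_le hlt (ak_le v ((u⁻¹ : Oˣ) : O))
      rw [h5] at h6
      exact lt_irrefl _ h6
    rw [map_ofNat] at h4
    exact absurd h3 (by rw [h4]; exact lt_irrefl _)
  obtain ⟨i, c, hc, hi⟩ := WfDvdMonoid.max_power_factor' hx hnu
  refine ⟨i, ?_⟩
  rw [hi, map_mul, map_pow, map_mul, map_pow, git_unit v h3 hc, mul_one]

/-- Chunk GIT (S/M). At the places above 3 some element of the decomposition group moves a point. Let T ≠ 0 be in Tor π (gi_gen, Nm π ≥ 2). H28G.D_val with n = π (π is coprime to 6: primary, and π does not divide 2; 2 is a prime element of O or use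
Nm): V.valuation (fc T)^4 = (V.valuation 3)^3. Suppose all s with Dec V s fix T. Inert V s implies Dec V s (if x in V then s x = x + (s x - x) in V; if s x in V, x not in V then x⁻¹ in V has value < 1, s x⁻¹ = x⁻¹ + (small) has value < 1,
contradiction), and s (fc T) = fc (ac W27 s T) = fc T. value_fixed for K = bottom (NumberField (⊥ : IntermediateField F Ω): finite over F): V.valuation (fc T) = V.valuation (algebraMap F Ω a) for some a in F, a ≠ 0. s₃ = 2 om + 1 in O, s₃^2 = -3: r = V.valuation s₃ < 1, r^2 = V.valuation 3, and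
s₃ generates the prime of F above 3, so V.valuation a = r^k for an integer k (H55B: valuation of F at span {s₃}, Abv.le or exists_below; a = s₃^k u/v with u, v in O prime to s₃). So r^(4 k) = r^6, 4 k = 6, impossible (r < 1, r ≠ 0). -/
theorem gi_three [IsAlgClosure F Ω] (π : O) (hπ : Prime π) (h3 : Prim π) (h2 : ¬ π ∣ 2)
    (V : ValuationSubring Ω) (hV : V.valuation (3 : Ω) < 1) :
    ∃ s : Ω ≃ₐ[F] Ω, Dec V s ∧ ∃ T ∈ Tor π Ω, ac W27 s T ≠ T := by
  by_contra hcon
  push Not at hcon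
  obtain ⟨-, T, hT, -, hT0⟩ := gi_gen (Ω := Ω) π hπ h3
  have hTne : T ≠ 0 := by
    intro h0
    apply hπ.not_isUnit
    rw [isUnit_iff_dvd_one]
    apply (hT0 1).1
    rw [h0, map_zero]
  have hcop : IsCoprime π 6 := by
    have h6 : (6 : O) = 2 * 3 := by norm_num
    rw [h6]
    refine IsCoprime.mul_right (hπ.coprime_iff_not_dvd.2 h2) ?_
    obtain ⟨c, hc⟩ := h3
    exact ⟨1, -c, by linear_combination hc⟩
  have hval := D_val V.valuation hV hcop hT hTne
  have hch : CharZero Ω := H28G.char0 (k := Ω)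
  have h30 : V.valuation (3 : Ω) ≠ 0 := by
    rw [Valuation.ne_zero_iff]
    norm_num
  have hf0 : fc T ≠ 0 := by
    intro h0
    rw [h0, map_zero, zero_pow (by norm_num)] at hval
    exact pow_ne_zero 3 h30 hval.symm
  have hfix : ∀ s ∈ (⊥ : IntermediateField F Ω).fixingSubgroup, Inert V s → s (fc T) = fc T := by
    intro s _ hs
    have h4 := hcon s (git_dec V s hs) T hT
    have h5 : fc (ac W27 s T) = s (fc T) := fc_mp s.toAlgHom T
    rw [h4] at h5
    exact h5.symm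
  have hnf : NumberField (⊥ : IntermediateField F Ω) := NumberField.of_module_finite F _
  obtain ⟨a, ha0, ha⟩ := value_fixed (⊥ : IntermediateField F Ω) V (fc T) hf0 hfix
  obtain ⟨b, hb⟩ := IntermediateField.mem_bot.1 a.2
  have hb0 : b ≠ 0 := by
    rintro rfl
    rw [map_zero] at hb
    exact ha0 (Subtype.ext hb.symm)
  rw [ha, ← hb] at hval
  obtain ⟨x, y, hy, rfl⟩ := IsFractionRing.div_surjective (A := O) b
  have hy0 : y ≠ 0 := nonZeroDivisors.ne_zero hy
  have hx0 : x ≠ 0 := by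
    rintro rfl
    apply hb0
    rw [map_zero, zero_div]
  obtain ⟨i, hi⟩ := git_pow (k := Ω) V.valuation hV hx0
  obtain ⟨j, hj⟩ := git_pow (k := Ω) V.valuation hV hy0
  have hyv : V.valuation (ak Ω y) ≠ 0 := by
    rw [Valuation.ne_zero_iff]
    unfold ak
    rw [RingHom.comp_apply, Ne, map_eq_zero_iff _ (algebraMap F Ω).injective,
      map_eq_zero_iff _ (FaithfulSMul.algebraMap_injective O F)]
    exact hy0
  have hd : V.valuation ((algebraMap F Ω) (algebraMap O F x / algebraMap O F y)) =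
      V.valuation (ak Ω x) / V.valuation (ak Ω y) := by
    rw [map_div₀, map_div₀]
    rfl
  rw [hd, hi, hj, div_pow, div_eq_iff (by rw [← hj]; exact pow_ne_zero 4 hyv)] at hval
  have hr : V.valuation (ak Ω (2 * om + 1)) ^ 2 = V.valuation (3 : Ω) := by
    rw [← map_pow, ← map_pow, GV10_s_sq, map_neg, Valuation.map_neg]
    congr 1
    exact map_ofNat _ 3
  rw [← hr, ← pow_mul, ← pow_mul, ← pow_mul, ← pow_add] at hval
  have hr1 : V.valuation (ak Ω (2 * om + 1)) < 1 := by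
    by_contra h4
    rw [not_lt] at h4
    have h5 : 1 ≤ V.valuation (ak Ω (2 * om + 1)) ^ 2 := one_le_pow₀ h4
    rw [hr] at h5
    exact absurd hV (not_lt.2 h5)
  have hr0 : 0 < V.valuation (ak Ω (2 * om + 1)) := by
    rw [zero_lt_iff]
    intro h4
    rw [h4] at hr
    exact h30 (by rw [← hr]; exact zero_pow (by norm_num))
  have h5 := pow_right_injective₀ hr0 hr1.ne hval
  omega

end H13S
end

-- from Lib.H55K.QA1A
section

/-! # H55K: congruent points -/

open NumberField IsDedekindDomain WeierstrassCurve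

namespace H55K.TQ

open H55P (IQ embF eF LF Per IsHecke Pt ac Inert Dec Nm UnitP)
open H35P (WAB Ker tt GoodW IntW)
open H55K.MG (VC Crd)

variable {k : Type} [Field k] {W : WeierstrassCurve k} {V : ValuationSubring k}

/-- Chunk QA1A (S/M). Translate (x, y) to the origin: with α = a₄ + 2 x a₂ - y a₁ + 3 x^2, β = a₃ + x a₁ + 2 y, c = a₂ + 3 x (a₆ becomes 0 by the equation):
b₂ = a₁^2 + 4c, b₄ = 2α + a₁ β, b₆ = β^2, b₈ = -a₁ α β + c β^2 - α^2 and Δ = -b₂^2 b₈ - 8 b₄^3 - 27 b₆^2 + 9 b₂ b₄ b₆ (Δ does not change under translation: substitute a₆ = y^2 + a₁ x y + a₃ y - x^3 - a₂ x^2 - a₄ x from the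
equation and ring). Every term is α times an integral element plus β times an integral element, so V(Δ) ≤ max (V α) (V β). -/
theorem disc_le (hI : IntW W V) {x y : k} (h : W.toAffine.Equation x y) (hx : x ∈ V) (hy : y ∈ V) :
    V.valuation W.Δ ≤ V.valuation (3 * x ^ 2 + 2 * W.a₂ * x + W.a₄ - W.a₁ * y) ∨
      V.valuation W.Δ ≤ V.valuation (2 * y + W.a₁ * x + W.a₃) := by
  obtain ⟨α, hα⟩ : ∃ α, α = 3 * x ^ 2 + 2 * W.a₂ * x + W.a₄ - W.a₁ * y := ⟨_, rfl⟩
  obtain ⟨β, hβ⟩ : ∃ β, β = 2 * y + W.a₁ * x + W.a₃ := ⟨_, rfl⟩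
  rw [← hα, ← hβ]
  rw [Affine.equation_iff] at h
  have h6 : W.a₆ = y ^ 2 + W.a₁ * x * y + W.a₃ * y - x ^ 3 - W.a₂ * x ^ 2 - W.a₄ * x := by linear_combination -h
  obtain ⟨b, hb⟩ : ∃ b, b = W.a₁ ^ 2 + 4 * (W.a₂ + 3 * x) := ⟨_, rfl⟩
  have key : W.Δ = α * (b ^ 2 * W.a₁ * β + b ^ 2 * α - 64 * α ^ 2 - 96 * α * W.a₁ * β - 48 * W.a₁ ^ 2 * β ^ 2) +
      β * (-(b ^ 2 * (W.a₂ + 3 * x) * β) - 8 * W.a₁ ^ 3 * β ^ 2 - 27 * β ^ 3 + 9 * b * (2 * α + W.a₁ * β) * β) := by
    rw [hb, hα, hβ]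
    simp only [WeierstrassCurve.Δ, WeierstrassCurve.b₂, WeierstrassCurve.b₄, WeierstrassCurve.b₆, WeierstrassCurve.b₈]
    rw [h6]
    ring
  have hn : ∀ m : ℕ, (m : k) ∈ V := fun m => natCast_mem V m
  have hαV : α ∈ V := by
    rw [hα]
    exact V.sub_mem (V.add_mem _ _ (V.add_mem _ _ (V.mul_mem _ _ (hn 3) (pow_mem hx 2)) (V.mul_mem _ _ (V.mul_mem _ _ (hn 2) hI.a2) hx)) hI.a4)
      (V.mul_mem _ _ hI.a1 hy)
  have hβV : β ∈ V := by
    rw [hβ]
    exact V.add_mem _ _ (V.add_mem _ _ (V.mul_mem _ _ (hn 2) hy) (V.mul_mem _ _ hI.a1 hx)) hI.a3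
  have hcV : W.a₂ + 3 * x ∈ V := V.add_mem _ _ hI.a2 (V.mul_mem _ _ (hn 3) hx)
  have hbV : b ∈ V := by
    rw [hb]
    exact V.add_mem _ _ (pow_mem hI.a1 2) (V.mul_mem _ _ (hn 4) hcV)
  obtain ⟨A, hA⟩ : ∃ A, A = b ^ 2 * W.a₁ * β + b ^ 2 * α - 64 * α ^ 2 - 96 * α * W.a₁ * β - 48 * W.a₁ ^ 2 * β ^ 2 := ⟨_, rfl⟩
  obtain ⟨B, hB⟩ : ∃ B, B = -(b ^ 2 * (W.a₂ + 3 * x) * β) - 8 * W.a₁ ^ 3 * β ^ 2 - 27 * β ^ 3 + 9 * b * (2 * α + W.a₁ * β) * β := ⟨_, rfl⟩
  have hAV : A ∈ V := by
    rw [hA]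
    refine V.sub_mem (V.sub_mem (V.sub_mem (V.add_mem _ _ ?_ ?_) ?_) ?_) ?_
    · exact V.mul_mem _ _ (V.mul_mem _ _ (pow_mem hbV 2) hI.a1) hβV
    · exact V.mul_mem _ _ (pow_mem hbV 2) hαV
    · exact V.mul_mem _ _ (hn 64) (pow_mem hαV 2)
    · exact V.mul_mem _ _ (V.mul_mem _ _ (V.mul_mem _ _ (hn 96) hαV) hI.a1) hβV
    · exact V.mul_mem _ _ (V.mul_mem _ _ (hn 48) (pow_mem hI.a1 2)) (pow_mem hβV 2)
  have hBV : B ∈ V := by
    rw [hB]
    refine V.add_mem _ _ (V.sub_mem (V.sub_mem (V.neg_mem _ ?_) ?_) ?_) ?_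
    · exact V.mul_mem _ _ (V.mul_mem _ _ (pow_mem hbV 2) hcV) hβV
    · exact V.mul_mem _ _ (V.mul_mem _ _ (hn 8) (pow_mem hI.a1 3)) (pow_mem hβV 2)
    · exact V.mul_mem _ _ (hn 27) (pow_mem hβV 3)
    · exact V.mul_mem _ _ (V.mul_mem _ _ (V.mul_mem _ _ (hn 9) hbV) (V.add_mem _ _ (V.mul_mem _ _ (hn 2) hαV) (V.mul_mem _ _ hI.a1 hβV))) hβV
  rw [← hA, ← hB] at key
  have h1 : V.valuation (α * A) ≤ V.valuation α := by
    rw [map_mul]
    exact mul_le_of_le_one_right' ((V.valuation_le_one_iff A).2 hAV)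
  have h2 : V.valuation (β * B) ≤ V.valuation β := by
    rw [map_mul]
    exact mul_le_of_le_one_right' ((V.valuation_le_one_iff B).2 hBV)
  have h3 : V.valuation W.Δ ≤ max (V.valuation (α * A)) (V.valuation (β * B)) := by
    rw [key]
    exact V.valuation.map_add _ _
  rcases le_max_iff.1 h3 with h4 | h4
  · exact Or.inl (h4.trans h1)
  · exact Or.inr (h4.trans h2)

end H55K.TQ
end

-- from Lib.H55K.QA1B
section

/-! # H55K: congruent points -/

open NumberField IsDedekindDomain WeierstrassCurve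

namespace H55K.TQ

open H55P (IQ embF eF LF Per IsHecke Pt ac Inert Dec Nm UnitP)
open H35P (WAB Ker tt GoodW IntW)
open H55K.MG (VC Crd)

variable {k : Type} [Field k] {W : WeierstrassCurve k} {V : ValuationSubring k}

theorem QA1B_le {a : k} (h : a ∈ V) : V.valuation a ≤ 1 := (V.valuation_le_one_iff a).2 h

/-- An integral combination with one small factor. -/
theorem QA1B_mul_lt {a b : k} {g : V.ValueGroup} (h : a ∈ V) (hb : V.valuation b < g) :
    V.valuation (a * b) < g := by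
  rw [map_mul]
  exact (mul_le_of_le_one_left' (QA1B_le h)).trans_lt hb

theorem QA1B_big [DecidableEq k] (hI : IntW W V) {x₁ x₂ l : k} (h1 : x₁ ∈ V) (h2 : x₂ ∈ V)
    (hl : 1 < V.valuation l) : 1 < V.valuation (W.toAffine.addX x₁ x₂ l) := by
  have e : W.toAffine.addX x₁ x₂ l = l ^ 2 + (W.a₁ * l - (W.a₂ + x₁ + x₂)) := by
    unfold Affine.addX
    ring
  have hll : V.valuation l < V.valuation (l ^ 2) := by
    rw [map_pow, pow_two]
    exact lt_mul_of_one_lt_left (zero_lt_one.trans hl) hl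
  have h3 : V.valuation (W.a₁ * l - (W.a₂ + x₁ + x₂)) < V.valuation (l ^ 2) := by
    refine lt_of_le_of_lt (V.valuation.map_sub_le ?_ ?_) hll
    · rw [map_mul]
      exact mul_le_of_le_one_left' (QA1B_le hI.a1)
    · exact (QA1B_le (V.add_mem _ _ (V.add_mem _ _ hI.a2 h1) h2)).trans hl.le
  rw [e, V.valuation.map_add_eq_of_lt_left h3]
  exact hl.trans hll

theorem QA1B_div {a b : k} (hab : V.valuation b < V.valuation a) (hb0 : b ≠ 0) :
    1 < V.valuation (a / b) := by
  rw [map_div₀]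
  exact (one_lt_div₀ ((V.valuation.pos_iff).2 hb0)).2 hab

/-- Chunk QA1B (M). Port of H35P.rd (RD.lean) with nonsing replaced by disc_le. int coordinates: Ker is false (H35P.Ker; V(x) ≤ 1, and V(y) ≤ 1 by H35P.int_y). P - Q = P + (-Q). Chord, x₁ ≠ x₂: slope = n1/(x₁ - x₂), n1 = y₁ + y₂ + a₁ x₂ + a₃ = β(P) + (small of value < V Δ): if V(β(P)) ≥ V(Δ)
then V(n1) ≥ V(Δ) > V(x₁ - x₂). Otherwise V(α(P)) ≥ V(Δ) > V(y₁ - y₂), n1 (y₁ - y₂) = (x₁ - x₂)(x₁^2 + x₁x₂ + x₂^2 + a₂(x₁+x₂) + a₄ - a₁ y₁), the second factor is α(P) + (small), so it has the value V(α(P)), it is not 0, y₁ ≠ y₂ and slope = (second factor)/(y₁ - y₂). In both cases V(slope) > 1 and x(P - Q) has value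
V(slope)^2 > 1 (RD_big, private in RD.lean: copy it). Tangent: x₁ = x₂, y₁ ≠ y₂, β(P) = y₁ - y₂ has value < V(Δ), slope = α(P)/β(P). P = Q: P - Q = 0. -/
theorem near [DecidableEq k] (hI : IntW W V) (hΔ : W.Δ ≠ 0) {P Q : W.toAffine.Point} (hP : ¬ Ker V P) (hQ : ¬ Ker V Q)
    (hx : V.valuation (xc P - xc Q) < V.valuation W.Δ) (hy : V.valuation (yc P - yc Q) < V.valuation W.Δ) :
    Ker V (P - Q) := by
  rcases P with _ | ⟨x₁, y₁, h₁⟩
  · exact absurd trivial hP
  rcases Q with _ | ⟨x₂, y₂, h₂⟩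
  · exact absurd trivial hQ
  have hvx1 : V.valuation x₁ ≤ 1 := not_lt.1 hP
  have hvx2 : V.valuation x₂ ≤ 1 := not_lt.1 hQ
  have hvy1 := H35P.int_y hI h₁.1 hvx1
  have hvy2 := H35P.int_y hI h₂.1 hvx2
  have hx1 : x₁ ∈ V := (V.valuation_le_one_iff x₁).1 hvx1
  have hx2 : x₂ ∈ V := (V.valuation_le_one_iff x₂).1 hvx2
  have hy1 : y₁ ∈ V := (V.valuation_le_one_iff y₁).1 hvy1
  have hy2 : y₂ ∈ V := (V.valuation_le_one_iff y₂).1 hvy2
  change V.valuation (x₁ - x₂) < V.valuation W.Δ at hx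
  change V.valuation (y₁ - y₂) < V.valuation W.Δ at hy
  have hΔ0 : 0 < V.valuation W.Δ := (V.valuation.pos_iff).2 hΔ
  have hdisc := disc_le hI h₁.1 hx1 hy1
  rw [sub_eq_add_neg, Affine.Point.neg_some]
  by_cases hc : x₁ = x₂ ∧ y₁ = W.toAffine.negY x₂ (W.toAffine.negY x₂ y₂)
  · rw [Affine.Point.add_of_Y_eq hc.1 hc.2]
    trivial
  rw [Affine.Point.add_some hc]
  change 1 < V.valuation (W.toAffine.addX x₁ x₂ (W.toAffine.slope x₁ x₂ y₁ (W.toAffine.negY x₂ y₂)))
  refine QA1B_big hI hx1 hx2 ?_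
  have hE1 := (Affine.equation_iff ..).1 h₁.1
  have hE2 := (Affine.equation_iff ..).1 h₂.1
  by_cases hxx : x₁ = x₂
  · -- tangent
    have hyy : y₁ ≠ y₂ := fun h => hc ⟨hxx, by rw [Affine.negY_negY]; exact h⟩
    have hneg : y₁ = W.toAffine.negY x₂ y₂ := (Affine.Y_eq_of_X_eq h₁.1 h₂.1 hxx).resolve_left hyy
    have hy' : y₁ ≠ W.toAffine.negY x₂ (W.toAffine.negY x₂ y₂) := fun h => hc ⟨hxx, h⟩
    rw [Affine.slope_of_Y_ne hxx hy']
    have e : y₁ - W.toAffine.negY x₁ y₁ = y₁ - y₂ := by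
      congr 1
      rw [hneg, hxx, Affine.negY_negY]
    have e2 : 2 * y₁ + W.a₁ * x₁ + W.a₃ = y₁ - y₂ := by
      rw [← e]
      unfold Affine.negY
      ring
    rw [e]
    refine QA1B_div ?_ (sub_ne_zero.2 hyy)
    rcases hdisc with h | h
    · exact hy.trans_le h
    · rw [e2] at h
      exact absurd hy (not_lt.2 h)
  · -- chord
    have hxx0 : x₁ - x₂ ≠ 0 := sub_ne_zero.2 hxx
    rw [Affine.slope_of_X_ne hxx]
    have hnegY : y₁ - W.toAffine.negY x₂ y₂ = y₁ + y₂ + W.a₁ * x₂ + W.a₃ := by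
      unfold Affine.negY
      ring
    rcases hdisc with hF | hF
    · have hG1 : V.valuation W.Δ ≤ V.valuation (x₁ ^ 2 + x₁ * x₂ + x₂ ^ 2 + W.a₂ * (x₁ + x₂) + W.a₄ - W.a₁ * y₁) := by
        have e : x₁ ^ 2 + x₁ * x₂ + x₂ ^ 2 + W.a₂ * (x₁ + x₂) + W.a₄ - W.a₁ * y₁ =
            (3 * x₁ ^ 2 + 2 * W.a₂ * x₁ + W.a₄ - W.a₁ * y₁) + -((x₂ + 2 * x₁ + W.a₂) * (x₁ - x₂)) := by ring
        have hsm : V.valuation (-((x₂ + 2 * x₁ + W.a₂) * (x₁ - x₂))) <
            V.valuation (3 * x₁ ^ 2 + 2 * W.a₂ * x₁ + W.a₄ - W.a₁ * y₁) := by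
          rw [Valuation.map_neg]
          exact (QA1B_mul_lt (V.add_mem _ _ (V.add_mem _ _ hx2 (V.mul_mem _ _ (by simp) hx1)) hI.a2) hx).trans_le hF
        rw [e, V.valuation.map_add_eq_of_lt_left hsm]
        exact hF
      have hid : (y₁ - W.toAffine.negY x₂ y₂) * (y₁ - y₂) =
          (x₁ - x₂) * (x₁ ^ 2 + x₁ * x₂ + x₂ ^ 2 + W.a₂ * (x₁ + x₂) + W.a₄ - W.a₁ * y₁) := by
        rw [hnegY]
        linear_combination hE1 - hE2
      have hyy : y₁ - y₂ ≠ 0 := by
        intro h0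
        rw [h0, mul_zero] at hid
        rcases mul_eq_zero.1 hid.symm with h | h
        · exact hxx0 h
        · rw [h, map_zero] at hG1
          exact absurd hG1 (not_le.2 hΔ0)
      have e : (y₁ - W.toAffine.negY x₂ y₂) / (x₁ - x₂) =
          (x₁ ^ 2 + x₁ * x₂ + x₂ ^ 2 + W.a₂ * (x₁ + x₂) + W.a₄ - W.a₁ * y₁) / (y₁ - y₂) := by
        rw [div_eq_div_iff hxx0 hyy, hid]
        ring
      rw [e]
      exact QA1B_div (hy.trans_le hG1) hyy
    · have hn : V.valuation W.Δ ≤ V.valuation (y₁ - W.toAffine.negY x₂ y₂) := by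
        have e : y₁ - W.toAffine.negY x₂ y₂ = (2 * y₁ + W.a₁ * x₁ + W.a₃) + -((y₁ - y₂) + W.a₁ * (x₁ - x₂)) := by
          rw [hnegY]
          ring
        have hsm : V.valuation (-((y₁ - y₂) + W.a₁ * (x₁ - x₂))) <
            V.valuation (2 * y₁ + W.a₁ * x₁ + W.a₃) := by
          rw [Valuation.map_neg]
          exact (V.valuation.map_add_lt hy (QA1B_mul_lt hI.a1 hx)).trans_le hF
        rw [e, V.valuation.map_add_eq_of_lt_left hsm]
        exact hF
      exact QA1B_div (hx.trans_le hn) hxx0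

end H55K.TQ
end

-- from Lib.H55K.QA2
section

/-! # H55K: the kernel of reduction has finite index -/

open NumberField IsDedekindDomain WeierstrassCurve

namespace H55K.TQ

open H55P (IQ embF eF LF Per IsHecke Pt ac Inert Dec Nm UnitP)
open H35P (WAB Ker tt GoodW IntW)
open H55K.MG (VC Crd)

variable {k : Type} [Field k] {W : WeierstrassCurve k} {V : ValuationSubring k}

/-- Chunk QA2 (S/M). The subgroup: H35P.ker_add, ker_neg, Ker V 0. Finite index: S from FinR for c = Δ. For P outside choose z₁, z₂ in S with V(xc P - z₁) < V(Δ), V(yc P - z₂) < V(Δ) (coordinates in V: not Ker, H35P.int_y).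
Two points outside the subgroup with the same z₁, z₂ differ by an element of it (near). So the map of the quotient to Option (S × S) (none if the representative (Quotient.out) is in K1) is injective and the quotient is finite. -/
theorem fin_index [DecidableEq k] (hI : IntW W V) (hΔ : W.Δ ≠ 0) (hf : FinR V) :
    ∃ K1 : AddSubgroup W.toAffine.Point, (∀ P, P ∈ K1 ↔ Ker V P) ∧ K1.FiniteIndex := by
  classical
  let K1 : AddSubgroup W.toAffine.Point :=
    { carrier := {P | Ker V P}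
      add_mem' := fun {P Q} hP hQ => H35P.ker_add hI P Q hP hQ
      zero_mem' := (trivial : Ker V (0 : W.toAffine.Point))
      neg_mem' := fun {P} hP => (H35P.ker_neg P).2 hP }
  refine ⟨K1, fun P => Iff.rfl, ?_⟩
  obtain ⟨S, hS, hS'⟩ := hf W.Δ hΔ
  have hco : ∀ P : W.toAffine.Point, ¬ Ker V P → xc P ∈ V ∧ yc P ∈ V := by
    intro P hP
    match P, hP with
    | .zero, hP => exact absurd trivial hP
    | .some x y h, hP =>
      have hx : V.valuation x ≤ 1 := not_lt.1 hP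
      exact ⟨(V.valuation_le_one_iff x).1 hx, (V.valuation_le_one_iff y).1 (H35P.int_y hI h.1 hx)⟩
  have hch : ∀ P : W.toAffine.Point, ∃ z : S × S, ¬ Ker V P → V.valuation (xc P - z.1) < V.valuation W.Δ ∧
      V.valuation (yc P - z.2) < V.valuation W.Δ := by
    intro P
    by_cases hP : Ker V P
    · obtain ⟨z, hz, _⟩ := hS' 0 V.zero_mem
      exact ⟨(⟨z, hz⟩, ⟨z, hz⟩), fun h => absurd hP h⟩
    · obtain ⟨h1, h2⟩ := hco P hP
      obtain ⟨z, hz, hz'⟩ := hS' _ h1
      obtain ⟨w, hw, hw'⟩ := hS' _ h2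
      exact ⟨(⟨z, hz⟩, ⟨w, hw⟩), fun _ => ⟨hz', hw'⟩⟩
  choose Z hZ using hch
  have hfS : Finite S := hS
  let F : W.toAffine.Point ⧸ K1 → Option (S × S) := fun q => if Ker V q.out then none else some (Z q.out)
  have hF : Function.Injective F := by
    intro q q' h
    have e1 : (QuotientAddGroup.mk q.out : W.toAffine.Point ⧸ K1) = q := QuotientAddGroup.out_eq' q
    have e2 : (QuotientAddGroup.mk q'.out : W.toAffine.Point ⧸ K1) = q' := QuotientAddGroup.out_eq' q'
    rw [← e1, ← e2]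
    change (if Ker V q.out then none else some (Z q.out)) = (if Ker V q'.out then none else some (Z q'.out)) at h
    refine (QuotientAddGroup.eq (s := K1)).2 ?_
    show Ker V (-q.out + q'.out)
    by_cases h1 : Ker V q.out
    · by_cases h2 : Ker V q'.out
      · exact H35P.ker_add hI _ _ ((H35P.ker_neg _).2 h1) h2
      · rw [if_pos h1, if_neg h2] at h
        exact absurd h (by simp)
    · by_cases h2 : Ker V q'.out
      · rw [if_neg h1, if_pos h2] at h
        exact absurd h (by simp)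
      · rw [if_neg h1, if_neg h2] at h
        have h3 := Option.some.inj h
        have z1 := hZ _ h1
        have z2 := hZ _ h2
        rw [← h3] at z2
        have hx : V.valuation (xc q'.out - xc q.out) < V.valuation W.Δ := by
          have e : xc q'.out - xc q.out = (xc q'.out - (Z q.out).1) - (xc q.out - (Z q.out).1) := by ring
          rw [e]
          exact V.valuation.map_sub_lt z2.1 z1.1
        have hy : V.valuation (yc q'.out - yc q.out) < V.valuation W.Δ := by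
          have e : yc q'.out - yc q.out = (yc q'.out - (Z q.out).2) - (yc q.out - (Z q.out).2) := by ring
          rw [e]
          exact V.valuation.map_sub_lt z2.2 z1.2
        have h4 := near hI hΔ h2 h1 hx hy
        rw [neg_add_eq_sub]
        exact h4
  have hfin : Finite (W.toAffine.Point ⧸ K1) := Finite.of_injective F hF
  exact AddSubgroup.finiteIndex_of_finite_quotient

end H55K.TQ
end

-- from Lib.H55K.QF1B
section

/-! # H55K: the index of the kernel of reduction at a bad place -/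

open NumberField IsDedekindDomain WeierstrassCurve

namespace H55K.TQ

open H55P (IQ embF eF LF Per IsHecke Pt ac Inert Dec Nm UnitP)
open H35P (WAB Ker tt GoodW IntW)
open H55K.MG (VC Crd)

variable {k : Type} [Field k] {W : WeierstrassCurve k}

/-- Chunk QF1B (S). The kernel of reduction consists of points with nonsingular reduction: V(x) > 1, V(y)^2 = V(x)^3 (H35P.val_y); if V(3) = 1: V(3x^2) = V(x)^2 is greater than V(2 a₂ x + a₄ - a₁ y); if V(3) < 1 then V(2) = 1 and V(2 y) = V(y) > V(a₁ x + a₃). -/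
theorem ker_e0 {V₀ : ValuationSubring k} (hI : IntW W V₀) {P : W.toAffine.Point} (hP : Ker V₀ P) : P ∈ E0V W V₀ := by
  rcases P with _ | ⟨x, y, h⟩
  · exact Or.inl rfl
  refine Or.inr ⟨x, y, h, rfl, ?_⟩
  have hx : 1 < V₀.valuation x := hP
  obtain ⟨h1, h2⟩ := H35P.val_y hI h.1 hx
  have le1 : ∀ {a : k}, a ∈ V₀ → V₀.valuation a ≤ 1 := fun {a} ha => (V₀.valuation_le_one_iff a).2 ha
  have hx0 : (0 : V₀.ValueGroup) < V₀.valuation x := zero_lt_one.trans hx
  have hint : ∀ n : ℕ, V₀.valuation (n : k) ≤ 1 := fun n => le1 (natCast_mem V₀ n)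
  have hmul : ∀ {a b : k}, a ∈ V₀ → V₀.valuation (a * b) ≤ V₀.valuation b := by
    intro a b ha
    rw [map_mul]
    exact mul_le_of_le_one_left' (le1 ha)
  by_cases h3 : V₀.valuation (3 : k) = 1
  · left
    have hA : V₀.valuation (3 * x ^ 2) = V₀.valuation x ^ 2 := by
      rw [map_mul, map_pow, h3, one_mul]
    have hyx : V₀.valuation y < V₀.valuation x ^ 2 := by
      by_contra hcon
      have h4 := not_lt.1 hcon
      have h5 : (V₀.valuation x ^ 2) ^ 2 ≤ V₀.valuation y ^ 2 := by gcongr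
      rw [h1] at h5
      have h6 : V₀.valuation x ^ 3 < (V₀.valuation x ^ 2) ^ 2 := by
        rw [← pow_mul]
        exact pow_lt_pow_right₀ hx (by norm_num)
      exact absurd h5 (not_le.2 h6)
    have hB : V₀.valuation (2 * W.a₂ * x + W.a₄ - W.a₁ * y) ≤ V₀.valuation y := by
      refine (Valuation.map_sub _ _ _).trans (max_le ((Valuation.map_add _ _ _).trans (max_le ?_ ?_)) ?_)
      · have h2a : (2 : k) * W.a₂ ∈ V₀ := mul_mem (by simpa using natCast_mem V₀ 2) hI.a2
        exact (hmul h2a).trans h2.le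
      · exact (le1 hI.a4).trans (hx.le.trans h2.le)
      · exact hmul hI.a1
    have e : 3 * x ^ 2 + 2 * W.a₂ * x + W.a₄ - W.a₁ * y = 3 * x ^ 2 + (2 * W.a₂ * x + W.a₄ - W.a₁ * y) := by
      ring
    rw [e, Valuation.map_add_eq_of_lt_left V₀.valuation (by
      rw [hA]
      exact hB.trans_lt hyx), hA]
    exact one_le_pow₀ hx.le
  · right
    have h3' : V₀.valuation (3 : k) < 1 := lt_of_le_of_ne (by simpa using hint 3) h3
    have h2' : V₀.valuation (2 : k) = 1 := by
      refine le_antisymm (by simpa using hint 2) (not_lt.1 fun hlt => ?_)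
      have h4 : V₀.valuation ((3 : k) - 2) < 1 :=
        (Valuation.map_sub _ _ _).trans_lt (max_lt h3' hlt)
      have h5 : (3 : k) - 2 = 1 := by norm_num
      rw [h5, map_one] at h4
      exact lt_irrefl _ h4
    have hA : V₀.valuation (2 * y) = V₀.valuation y := by
      rw [map_mul, h2', one_mul]
    have hB : V₀.valuation (W.a₁ * x + W.a₃) ≤ V₀.valuation x :=
      (Valuation.map_add _ _ _).trans (max_le (hmul hI.a1) ((le1 hI.a3).trans hx.le))
    rw [add_assoc, Valuation.map_add_eq_of_lt_left V₀.valuation (by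
      rw [hA]
      exact hB.trans_lt h2), hA]
    exact hx.le.trans h2.le

/-- Chunk QF1B (S). Good equation: every point has nonsingular reduction (disc_le or H35P.nonsing for integral points; ker_e0 for the others). -/
theorem good_e0 {V₀ : ValuationSubring k} (hG : GoodW W V₀) (P : W.toAffine.Point) : P ∈ E0V W V₀ := by
  classical
  rcases P with _ | ⟨x, y, h⟩
  · exact Or.inl rfl
  by_cases hx : 1 < V₀.valuation x
  · exact ker_e0 hG.toIntW (P := Affine.Point.some x y h) hx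
  · refine Or.inr ⟨x, y, h, rfl, ?_⟩
    have hx1 := not_lt.1 hx
    have hy1 := H35P.int_y hG.toIntW h.1 hx1
    by_cases h1 : V₀.valuation (2 * y + W.a₁ * x + W.a₃) < 1
    · left
      exact (H35P.nonsing hG h.1 ((V₀.valuation_le_one_iff _).1 hx1) ((V₀.valuation_le_one_iff _).1 hy1) h1).ge
    · right
      exact not_lt.1 h1

end H55K.TQ
end

-- from Lib.H55K.QP1A
section

/-! # H55K: the period lattice of a curve over the rationals -/

open NumberField IsDedekindDomain WeierstrassCurve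

namespace H55K.TQ

open H55P (IQ embF eF LF Per IsHecke Pt ac Inert Dec Nm UnitP)
open H35P (WAB Ker tt GoodW IntW)
open H55K.MG (VC Crd)

variable {F : Type} [Field F] [NumberField F] [IQ F] {W : WeierstrassCurve ℤ} {Om : ℂ} {L : PeriodPair} {p : ℕ}

/-- Per for W: (W.map (Int.castRingHom (𝓞 F))). -/
def PerW (F : Type) [Field F] [NumberField F] [IQ F] (W : WeierstrassCurve ℤ) (Om : ℂ) : Prop :=
  H55P.Per F (-(W.c₄ : ℂ) / 48) (-(W.c₆ : ℂ) / 864) Om

theorem qp1a_ex (hper : PerW F W Om) : ∃ L' : PeriodPair,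
    (∀ z, z ∈ L'.lattice ↔ ∃ a : 𝓞 F, z = Om * eF F a) ∧ PerZ W L' := by
  have hne := hper.ne
  obtain ⟨L', hL, h2, h3⟩ := lat_scale (LF F) Om hne
  refine ⟨L', ?_, ?_, ?_⟩
  · intro z
    rw [hL z]
    constructor
    · rintro ⟨l, hl, rfl⟩
      obtain ⟨a, rfl⟩ := (H55P.mem_LF l).1 hl
      exact ⟨a, rfl⟩
    · rintro ⟨a, rfl⟩
      exact ⟨eF F a, (H55P.mem_LF _).2 ⟨a, rfl⟩, rfl⟩
  · rw [h2, hper.g2]
    field_simp
    ring
  · rw [h3, hper.g3]
    field_simp
    ring

/-- Chunk QP1A (M). The lattice of L is Om times the lattice of integers. The PeriodPair L' with periods Om ω₁, Om ω₂ (ω of LF F) has g₂ = Om^-4 g₂(LF) = c₄/12, g₃ = c₆/216 (homogeneity of the Eisenstein series: see H35P / H55P for the scaling of g₂, g₃ (search PeriodPair smul, e.g. Z1B, Z1C or E0)); lat_eq L L'; H55P.mem_LF. -/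
theorem lat_W (hper : PerW F W Om) (hL : PerZ W L) (z : ℂ) : z ∈ L.lattice ↔ ∃ a : 𝓞 F, z = Om * eF F a := by
  obtain ⟨L', h1, h2⟩ := qp1a_ex hper
  rw [lat_eq L L' (hL.g2.trans h2.g2.symm) (hL.g3.trans h2.g3.symm)]
  exact h1 z

/-- Chunk QP1A (S/M). Existence (the L' of lat_W). -/
theorem exists_perZ (hper : PerW F W Om) : ∃ L : PeriodPair, PerZ W L := by
  obtain ⟨L', _, h2⟩ := qp1a_ex hper
  exact ⟨L', h2⟩

end H55K.TQ
end

-- from Lib.H55K.QP1B
section

/-! # H55K: the period lattice of a curve over the rationals -/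

open NumberField IsDedekindDomain WeierstrassCurve

namespace H55K.TQ

open H55P (IQ embF eF LF Per IsHecke Pt ac Inert Dec Nm UnitP)
open H35P (WAB Ker tt GoodW IntW)
open H55K.MG (VC Crd)

variable {F : Type} [Field F] [NumberField F] [IQ F] {W : WeierstrassCurve ℤ} {Om : ℂ} {L : PeriodPair} {p : ℕ}

theorem qp1b_indep (L : PeriodPair) :
    LinearIndependent ℝ ![(starRingEnd ℂ) L.ω₁, (starRingEnd ℂ) L.ω₂] := by
  have h := L.indep.map' (Complex.conjLIE.toLinearEquiv : ℂ →ₗ[ℝ] ℂ) (by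
    rw [LinearMap.ker_eq_bot]
    exact Complex.conjLIE.toLinearEquiv.injective)
  have e : (Complex.conjLIE.toLinearEquiv : ℂ →ₗ[ℝ] ℂ) ∘ ![L.ω₁, L.ω₂] =
      ![(starRingEnd ℂ) L.ω₁, (starRingEnd ℂ) L.ω₂] := by
    ext i
    fin_cases i <;> rfl
  rwa [e] at h

theorem qp1b_G (L L' : PeriodPair) (h : ∀ z, z ∈ L'.lattice ↔ ∃ l ∈ L.lattice, z = (starRingEnd ℂ) l)
    (n : ℕ) : L'.G n = (starRingEnd ℂ) (L.G n) := by
  have hf : ∀ l : L.lattice, (starRingEnd ℂ) (l : ℂ) ∈ L'.lattice := fun l => (h _).2 ⟨l, l.2, rfl⟩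
  have hb : Function.Bijective (fun l : L.lattice => (⟨(starRingEnd ℂ) l, hf l⟩ : L'.lattice)) := by
    constructor
    · intro a b hab
      exact Subtype.ext ((starRingEnd ℂ).injective (congrArg Subtype.val hab))
    · rintro ⟨z, hz⟩
      obtain ⟨l, hl, e⟩ := (h z).1 hz
      exact ⟨⟨l, hl⟩, Subtype.ext e.symm⟩
  unfold PeriodPair.G
  rw [← (Equiv.ofBijective _ hb).tsum_eq, Complex.conj_tsum]
  refine tsum_congr fun l => ?_
  show (((starRingEnd ℂ) (l : ℂ)) ^ n)⁻¹ = (starRingEnd ℂ) (((l : ℂ) ^ n)⁻¹)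
  rw [map_inv₀, map_pow]

/-- Chunk QP1B (M). The lattice of L is stable under complex conjugation: the conjugate pair (conj ω₁, conj ω₂) has g₂, g₃ the conjugates, that is the same real numbers; lat_eq. -/
theorem lat_conj (hL : PerZ W L) {z : ℂ} (hz : z ∈ L.lattice) : (starRingEnd ℂ) z ∈ L.lattice := by
  have h : ∀ z, z ∈ (⟨(starRingEnd ℂ) L.ω₁, (starRingEnd ℂ) L.ω₂, qp1b_indep L⟩ : PeriodPair).lattice ↔
      ∃ l ∈ L.lattice, z = (starRingEnd ℂ) l := by
    intro z
    rw [PeriodPair.mem_lattice]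
    constructor
    · rintro ⟨m, n, rfl⟩
      refine ⟨m * L.ω₁ + n * L.ω₂, PeriodPair.mem_lattice.2 ⟨m, n, rfl⟩, ?_⟩
      rw [map_add, map_mul, map_mul, map_intCast, map_intCast]
    · rintro ⟨l, hl, rfl⟩
      obtain ⟨m, n, rfl⟩ := PeriodPair.mem_lattice.1 hl
      refine ⟨m, n, ?_⟩
      rw [map_add, map_mul, map_mul, map_intCast, map_intCast]
  have h2 : (⟨(starRingEnd ℂ) L.ω₁, (starRingEnd ℂ) L.ω₂, qp1b_indep L⟩ : PeriodPair).g₂ = L.g₂ := by
    have e1 : (⟨(starRingEnd ℂ) L.ω₁, (starRingEnd ℂ) L.ω₂, qp1b_indep L⟩ : PeriodPair).g₂ =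
        (starRingEnd ℂ) L.g₂ := by
      unfold PeriodPair.g₂
      rw [qp1b_G L _ h, map_mul, map_ofNat]
    rw [e1, hL.g2, map_div₀, map_intCast, map_ofNat]
  have h3 : (⟨(starRingEnd ℂ) L.ω₁, (starRingEnd ℂ) L.ω₂, qp1b_indep L⟩ : PeriodPair).g₃ = L.g₃ := by
    have e1 : (⟨(starRingEnd ℂ) L.ω₁, (starRingEnd ℂ) L.ω₂, qp1b_indep L⟩ : PeriodPair).g₃ =
        (starRingEnd ℂ) L.g₃ := by
      unfold PeriodPair.g₃
      rw [qp1b_G L _ h, map_mul, map_ofNat]
    rw [e1, hL.g3, map_div₀, map_intCast, map_ofNat]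
  have h4 := lat_eq _ L h2 h3
  rw [← h4]
  exact (h _).2 ⟨z, hz, rfl⟩

/-- Chunk QP1B (S). conj Om = Om a, conj again: Om = conj Om * conj (eF a) = Om a conj a, so a is a unit (the inverse is cj a; or Nm a = 1). -/
theorem om_conj (hper : PerW F W Om) (hL : PerZ W L) : ∃ η : (𝓞 F)ˣ, (starRingEnd ℂ) Om = Om * eF F η := by
  have hne : Om ≠ 0 := hper.ne
  have h1 : Om ∈ L.lattice := (lat_W hper hL Om).2 ⟨1, by rw [map_one, mul_one]⟩
  obtain ⟨a, ha⟩ := (lat_W hper hL _).1 (lat_conj hL h1)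
  have h2 : Om = Om * (eF F a * (starRingEnd ℂ) (eF F a)) := by
    have h3 := congrArg (starRingEnd ℂ) ha
    rw [Complex.conj_conj, map_mul, ha] at h3
    calc Om = Om * (eF F) a * (starRingEnd ℂ) ((eF F) a) := h3
      _ = _ := by ring
  have h4 : eF F a * (starRingEnd ℂ) (eF F a) = 1 := by
    have h5 : Om * 1 = Om * (eF F a * (starRingEnd ℂ) (eF F a)) := by rw [mul_one]; exact h2
    exact (mul_left_cancel₀ hne h5).symm
  have h6 : a * cj a = 1 := by
    apply H55P.eF_inj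
    rw [map_mul, e_cj, map_one, h4]
  exact ⟨Units.mkOfMulEqOne a (cj a) h6, ha⟩

end H55K.TQ
end

-- from Lib.H55K.QP2A
section

/-! # H55K: the complex and the real period are p-adic units times the periods -/

open NumberField IsDedekindDomain WeierstrassCurve

namespace H55K.TQ

open H55P (IQ embF eF LF Per IsHecke Pt ac Inert Dec Nm UnitP)
open H35P (WAB Ker tt GoodW IntW)
open H55K.MG (VC Crd)

variable {F : Type} [Field F] [NumberField F] [IQ F] {W : WeierstrassCurve ℤ} {Om : ℂ} {L : PeriodPair} {p : ℕ}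

theorem qp2a_sum (F : Type) [Field F] [NumberField F] [IQ F] (x : F) :
    ∑ σ : F →ₐ[ℚ] ℂ, σ x = embF F x + (starRingEnd ℂ) (embF F x) := by
  classical
  obtain ⟨s, hs⟩ : ∃ s : F →ₐ[ℚ] ℂ, s = (embF F).toRatAlgHom := ⟨_, rfl⟩
  obtain ⟨s', hs'⟩ : ∃ s' : F →ₐ[ℚ] ℂ, s' = ((starRingEnd ℂ).comp (embF F)).toRatAlgHom := ⟨_, rfl⟩
  have hsx : ∀ x, s x = embF F x := fun x => by rw [hs]; rfl
  have hsx' : ∀ x, s' x = (starRingEnd ℂ) (embF F x) := fun x => by rw [hs']; rfl
  have hne : s ≠ s' := by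
    intro h
    apply d1_conj_ne F
    ext x
    have h1 := DFunLike.congr_fun h x
    rw [hsx, hsx'] at h1
    exact h1.symm
  have hcard : Fintype.card (F →ₐ[ℚ] ℂ) = 2 := by
    rw [AlgHom.card, IQ.deg]
  have huniv : (Finset.univ : Finset (F →ₐ[ℚ] ℂ)) = {s, s'} := by
    symm
    apply Finset.eq_univ_of_card
    rw [Finset.card_pair hne, hcard]
  rw [huniv, Finset.sum_pair hne, hsx, hsx']

theorem qp2a_tr (x : 𝓞 F) : ((Algebra.trace ℤ (𝓞 F) x : ℤ) : ℂ) = eF F x + (starRingEnd ℂ) (eF F x) := by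
  have h1 := Algebra.coe_trace_int x
  have h2 := trace_eq_sum_embeddings (K := ℚ) (L := F) ℂ (x := (x : F))
  rw [qp2a_sum, ← h1, map_intCast] at h2
  exact h2

theorem qp2a_discr (F : Type) [Field F] [NumberField F] [IQ F] : ((NumberField.discr F : ℤ) : ℂ) =
    (eF F (H55P.bF F 0) * (starRingEnd ℂ) (eF F (H55P.bF F 1)) -
      (starRingEnd ℂ) (eF F (H55P.bF F 0)) * eF F (H55P.bF F 1)) ^ 2 := by
  rw [← NumberField.discr_eq_discr F (H55P.bF F), Algebra.discr_def, Matrix.det_fin_two]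
  simp only [Algebra.traceMatrix_apply, Algebra.traceForm_apply]
  push_cast
  simp only [qp2a_tr, map_mul]
  ring

theorem qp2a_abs (F : Type) [Field F] [NumberField F] [IQ F] :
    2 * |(eF F (H55P.bF F 0)).re * (eF F (H55P.bF F 1)).im - (eF F (H55P.bF F 0)).im * (eF F (H55P.bF F 1)).re| =
      Real.sqrt |(NumberField.discr F : ℝ)| := by
  have h := qp2a_discr F
  generalize eF F (H55P.bF F 0) = a at *
  generalize eF F (H55P.bF F 1) = b at *
  obtain ⟨t, ht⟩ : ∃ t : ℝ, t = a.re * b.im - a.im * b.re := ⟨_, rfl⟩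
  rw [← ht]
  have h1 : a * (starRingEnd ℂ) b - (starRingEnd ℂ) a * b = -(2 * (t : ℂ) * Complex.I) := by
    rw [ht]
    apply Complex.ext
    · simp only [Complex.sub_re, Complex.mul_re, Complex.conj_re, Complex.conj_im, Complex.neg_re, Complex.ofReal_re,
        Complex.ofReal_im, Complex.I_re, Complex.I_im, Complex.re_ofNat, Complex.im_ofNat, Complex.mul_im]
      ring
    · simp only [Complex.sub_im, Complex.mul_re, Complex.conj_re, Complex.conj_im, Complex.neg_im, Complex.ofReal_re,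
        Complex.ofReal_im, Complex.I_re, Complex.I_im, Complex.re_ofNat, Complex.im_ofNat, Complex.mul_im]
      ring
  rw [h1] at h
  have h2 : ((NumberField.discr F : ℤ) : ℂ) = ((-(4 * t ^ 2) : ℝ) : ℂ) := by
    rw [h]
    push_cast
    linear_combination 4 * (t : ℂ) ^ 2 * Complex.I_sq
  have h3 : ((NumberField.discr F : ℤ) : ℝ) = -(4 * t ^ 2) := by exact_mod_cast h2
  rw [h3, abs_neg, abs_of_nonneg (by positivity : (0 : ℝ) ≤ 4 * t ^ 2)]
  have h4 : 4 * t ^ 2 = (2 * |t|) ^ 2 := by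
    rw [mul_pow, sq_abs]
    ring
  rw [h4, Real.sqrt_sq (by positivity)]

theorem qp2a_cross (m n m' n' : ℤ) (a b : ℂ) :
    ((m : ℂ) * a + n * b).re * ((m' : ℂ) * a + n' * b).im - ((m : ℂ) * a + n * b).im * ((m' : ℂ) * a + n' * b).re =
      ((m * n' - n * m' : ℤ) : ℝ) * (a.re * b.im - a.im * b.re) := by
  simp only [Complex.add_re, Complex.add_im, Complex.mul_re, Complex.mul_im, Complex.intCast_re, Complex.intCast_im]
  push_cast
  ring

theorem qp2a_mul (c a b : ℂ) : (c * a).re * (c * b).im - (c * a).im * (c * b).re =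
    ‖c‖ ^ 2 * (a.re * b.im - a.im * b.re) := by
  rw [← Complex.normSq_eq_norm_sq, Complex.normSq_apply]
  simp only [Complex.mul_re, Complex.mul_im]
  ring

/-- Chunk QP2A (M). L.ω₁ = Om a, L.ω₂ = Om b with a, b an integral basis of 𝓞 F (lat_W: both lattices are equal; every element of 𝓞 F is an integral combination of a and b because Om x is in L.lattice; linear independence over the reals). |re ω₁ im ω₂ - im ω₁ re ω₂| = ‖Om‖^2 |Im (conj a b)|, and (conj a b - a conj b)^2 = discr F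
(Algebra.discr / NumberField.discr_eq_discr for the basis: det of (σ_i b_j) squared; the embeddings are embF F and its conjugate; see H55P: discriminant computations in D1.lean or H55C), so 2 |Im (conj a b)| = sqrt |discr F|. -/
theorem om_area (hper : PerW F W Om) (hL : PerZ W L) :
    H55C.Om L = ‖Om‖ ^ 2 * Real.sqrt |(NumberField.discr F : ℝ)| := by
  have hne : Om ≠ 0 := hper.ne
  have hω₁ : L.ω₁ ∈ L.lattice := PeriodPair.mem_lattice.2 ⟨1, 0, by simp⟩
  have hω₂ : L.ω₂ ∈ L.lattice := PeriodPair.mem_lattice.2 ⟨0, 1, by simp⟩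
  obtain ⟨a, ha⟩ := (lat_W hper hL _).1 hω₁
  obtain ⟨b, hb⟩ := (lat_W hper hL _).1 hω₂
  obtain ⟨e0, he0⟩ : ∃ e0, e0 = eF F (H55P.bF F 0) := ⟨_, rfl⟩
  obtain ⟨e1, he1⟩ : ∃ e1, e1 = eF F (H55P.bF F 1) := ⟨_, rfl⟩
  obtain ⟨m, n, hmn⟩ := PeriodPair.mem_lattice.1 ((lat_W hper hL _).2 ⟨H55P.bF F 0, rfl⟩)
  obtain ⟨m', n', hmn'⟩ := PeriodPair.mem_lattice.1 ((lat_W hper hL _).2 ⟨H55P.bF F 1, rfl⟩)
  rw [ha, hb] at hmn hmn'
  have g0 : e0 = (m : ℂ) * eF F a + n * eF F b := by
    apply mul_left_cancel₀ hne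
    rw [he0, ← hmn]
    ring
  have g1 : e1 = (m' : ℂ) * eF F a + n' * eF F b := by
    apply mul_left_cancel₀ hne
    rw [he1, ← hmn']
    ring
  have ga := H55P.eF_repr a
  have gb := H55P.eF_repr b
  rw [← he0, ← he1] at ga gb
  obtain ⟨X, hX⟩ : ∃ X : ℝ, X = (eF F a).re * (eF F b).im - (eF F a).im * (eF F b).re := ⟨_, rfl⟩
  obtain ⟨Y, hY⟩ : ∃ Y : ℝ, Y = e0.re * e1.im - e0.im * e1.re := ⟨_, rfl⟩
  have k1 := qp2a_cross m n m' n' (eF F a) (eF F b)
  rw [← g0, ← g1, ← hX, ← hY] at k1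
  have k2 := qp2a_cross ((H55P.bF F).repr a 0) ((H55P.bF F).repr a 1) ((H55P.bF F).repr b 0)
    ((H55P.bF F).repr b 1) e0 e1
  rw [← ga, ← gb, ← hX, ← hY] at k2
  have hX0 : X ≠ 0 := by
    intro h0
    have h1 := L.indep
    rw [LinearIndependent.pair_iff] at h1
    have h2 : L.ω₁.re * L.ω₂.im - L.ω₁.im * L.ω₂.re = 0 := by
      rw [ha, hb, qp2a_mul, ← hX, h0, mul_zero]
    have hne1 : L.ω₁ ≠ 0 := by
      intro h3
      have h4 := h1 1 0 (by rw [h3]; simp)
      exact one_ne_zero h4.1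
    by_cases hr : L.ω₁.re = 0
    · have him : L.ω₁.im ≠ 0 := fun h => hne1 (Complex.ext hr h)
      have h5 : L.ω₂.re = 0 := by
        rw [hr, zero_mul, zero_sub, neg_eq_zero] at h2
        exact (mul_eq_zero.1 h2).resolve_left him
      have h6 := h1 L.ω₂.im (-L.ω₁.im) (by
        apply Complex.ext
        · simp [hr, h5]
        · simp
          ring)
      exact him (neg_eq_zero.1 h6.2)
    · have h6 := h1 L.ω₂.re (-L.ω₁.re) (by
        apply Complex.ext
        · simp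
          ring
        · simp
          linarith)
      exact hr (neg_eq_zero.1 h6.2)
  have hdet : |((m * n' - n * m' : ℤ) : ℝ)| = 1 := by
    rw [k1] at k2
    have h1 : (((H55P.bF F).repr a 0 * (H55P.bF F).repr b 1 - (H55P.bF F).repr a 1 * (H55P.bF F).repr b 0 : ℤ) : ℝ) *
        ((m * n' - n * m' : ℤ) : ℝ) = 1 := by
      apply mul_right_cancel₀ hX0
      rw [one_mul, mul_assoc]
      exact k2.symm
    have h2 : ((H55P.bF F).repr a 0 * (H55P.bF F).repr b 1 - (H55P.bF F).repr a 1 * (H55P.bF F).repr b 0) *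
        (m * n' - n * m') = 1 := by exact_mod_cast h1
    rcases Int.mul_eq_one_iff_eq_one_or_neg_one.1 h2 with ⟨_, h3⟩ | ⟨_, h3⟩
    · rw [h3]
      simp
    · rw [h3]
      simp
  unfold H55C.Om
  rw [← qp2a_abs F, ← he0, ← he1, ← hY, k1, abs_mul, hdet, one_mul, ha, hb, qp2a_mul, ← hX, abs_mul,
    abs_of_nonneg (by positivity : (0 : ℝ) ≤ ‖Om‖ ^ 2)]
  ring

/-- Chunk QP2A (S). ‖Om‖^2 = Om conj Om = Om^2 η; sqrt |discr F| is a p-adic unit: H55P.discr_unit for K₀ = F (p unramified in F: squarefree). Units of 𝓞 F are units. -/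
theorem om_unit (hper : PerW F W Om) (hL : PerZ W L) (hp : p.Prime) (hU : H55P.UnrP p F) :
    UnitP p (H55C.Om L / (Om * (starRingEnd ℂ) Om)) ∧ UnitP p (H55C.Om L / Om ^ 2) := by
  have hne : Om ≠ 0 := hper.ne
  have hcne : (starRingEnd ℂ) Om ≠ 0 := by
    rw [Ne, map_eq_zero]
    exact hne
  have hsq : UnitP p ((Real.sqrt |(NumberField.discr F : ℝ)| : ℝ) : ℂ) := by
    intro V hV
    have h0 : ¬ (p : ℤ) ∣ NumberField.discr F := H55P.pl1_discr p hp hU
    generalize NumberField.discr F = D at h0 ⊢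
    have h1 : (((Real.sqrt |(D : ℝ)| : ℝ) : ℂ)) ^ 2 = ((D.natAbs : ℕ) : ℂ) := by
      rw [← Complex.ofReal_pow, Real.sq_sqrt (abs_nonneg _), ← Int.cast_abs, Int.abs_eq_natAbs]
      simp only [Int.cast_natCast, Complex.ofReal_natCast]
    have h2 := H55P.val_nat p hp V hV D.natAbs (fun hd => h0 (Int.natCast_dvd.2 hd))
    rw [← h1, map_pow] at h2
    exact (pow_eq_one_iff_of_nonneg zero_le two_ne_zero).1 h2
  have hOm : (H55C.Om L : ℂ) = Om * (starRingEnd ℂ) Om * ((Real.sqrt |(NumberField.discr F : ℝ)| : ℝ) : ℂ) := by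
    rw [om_area hper hL, Complex.mul_conj, Complex.normSq_eq_norm_sq]
    push_cast
    ring
  constructor
  · rw [hOm, mul_div_cancel_left₀ _ (mul_ne_zero hne hcne)]
    exact hsq
  · obtain ⟨η, hη⟩ := om_conj hper hL
    have h1 : (H55C.Om L : ℂ) / Om ^ 2 = eF F η * ((Real.sqrt |(NumberField.discr F : ℝ)| : ℝ) : ℂ) := by
      rw [hOm, hη]
      field_simp
    rw [h1]
    intro V hV
    rw [map_mul, hsq V hV, mul_one]
    have hint : ∀ x : 𝓞 F, V.valuation (eF F x) ≤ 1 := by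
      intro x
      have h2 : IsIntegral ℤ (eF F x) := (RingOfIntegers.isIntegral x).map ((eF F).toIntAlgHom)
      rw [V.valuation_le_one_iff]
      have h3 : IsIntegral V (eF F x) := h2.tower_top
      obtain ⟨y, hy⟩ := IsIntegrallyClosed.isIntegral_iff.1 h3
      rw [← hy]
      exact y.2
    have h2 := hint η
    have h3 := hint (η⁻¹ : (𝓞 F)ˣ)
    have h4 : V.valuation (eF F η) * V.valuation (eF F ((η⁻¹ : (𝓞 F)ˣ) : 𝓞 F)) = 1 := by
      rw [← map_mul, ← map_mul, Units.mul_inv, map_one, map_one]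
    refine le_antisymm h2 ?_
    rw [← h4]
    exact mul_le_of_le_one_right' h3

end H55K.TQ
end

-- from Lib.H28G.K2
section

open NumberField IsDedekindDomain WeierstrassCurve

namespace H28G

open H55B H55R H99B

/-! Chunk K2 (M): the character. There is T in Tor b N with T <> 0 (Full: Nat.card = Nm b <> 1, because b is not a unit: exists_ne). orb_inj: if sp σ R = sp τ R then ρ = τ⁻¹ σ fixes R (sp_mul, sp_one), and every R' in Tor b N is
act c R (tor_gen), so ρ fixes R' (sp_act) and ρ = 1 (h.gen). exists_chi: fix T. sp σ T = act c T for some c (tor_gen, sp_mem), q c <> 0 (sp_ne, act_eq_zero) and q c does not depend on c (act_eq_zero: act c T = act c' T iff b | c - c' iff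
q c = q c'). χ σ = Units.mk0 (q c). sp (σ τ) T = sp σ (act c' T) = act c' (act c T): multiplicative. For R = act d T: sp σ R = act d (act c T) = act c R. Injective: χ σ = χ τ gives sp σ T = sp τ T, orb_inj.
card_le: orb_inj gives an injection of Gal(N/K) into Tor b N minus 0, and Nat.card Gal(N/K) = finrank (IsGalois.card_aut_eq_finrank). -/

theorem exists_tor {N : Type} [Field N] [DecidableEq N] [Algebra F N] {b : O} (hp : Prime b)
    (hf : Full b N) : ∃ T ∈ Tor b N, T ≠ 0 := by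
  by_contra hcon
  push Not at hcon
  have h1 : Subsingleton (Tor b N) :=
    ⟨fun x y => Subtype.ext ((hcon x x.2).trans (hcon y y.2).symm)⟩
  have h2 : Nat.card (Tor b N) = 1 := Nat.card_unique
  have h3 : Nat.card (Tor b N) = Nm b := hf
  exact hp.not_unit (Nm_eq_one.1 (h3.symm.trans h2))

section
variable {K N : Type} [Field K] [Field N] [DecidableEq N] [Algebra F K] [Algebra K N] [Algebra F N]
  [IsScalarTower F K N]

theorem orb_inj {b : O} (hp : Prime b) (h : TFld K N b) {R : P27 N} (hR : R ∈ Tor b N)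
    (h0 : R ≠ 0) : Function.Injective fun σ : Gal(N/K) => sp σ R := by
  intro σ τ hστ
  have h1 : sp σ R = sp τ R := hστ
  have h2 : sp (τ⁻¹ * σ) R = R := by
    rw [sp_mul, h1, ← sp_mul, inv_mul_cancel, sp_one]
  have h3 : τ⁻¹ * σ = 1 := by
    apply h.gen
    intro R' hR'
    obtain ⟨c, hc⟩ := tor_gen hp h.full hR hR' h0
    rw [← hc, sp_act, h2]
  exact (inv_mul_eq_one.1 h3).symm

theorem card_le [FiniteDimensional K N] {b : O} (hp : Prime b) (h : TFld K N b) :
    Module.finrank K N ≤ Nm b - 1 := by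
  classical
  have hgal : IsGalois K N := h.gal
  obtain ⟨R, hR, h0⟩ := exists_tor hp h.full
  have hfin : Finite (Tor b N) := h.full.finite hp.ne_zero
  let f : Gal(N/K) → {R : Tor b N // R ≠ 0} := fun σ =>
    ⟨⟨sp σ R, (sp_mem σ b R).2 hR⟩, fun h1 => sp_ne σ h0 (congrArg Subtype.val h1)⟩
  have hinj : Function.Injective f := by
    intro σ τ hστ
    apply orb_inj hp h hR h0
    exact congrArg (fun z : {R : Tor b N // R ≠ 0} => ((z.1 : Tor b N) : P27 N)) hστ
  have hcard2 : Nat.card {R : Tor b N // R ≠ 0} = Nm b - 1 := by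
    have : Fintype (Tor b N) := Fintype.ofFinite _
    have h3 : Nat.card (Tor b N) = Nm b := h.full
    rw [Nat.card_eq_fintype_card] at h3 ⊢
    have h4 := Fintype.card_subtype_compl (fun R : Tor b N => R = 0)
    rw [Fintype.card_subtype_eq, h3] at h4
    exact h4
  rw [← IsGalois.card_aut_eq_finrank, ← hcard2]
  exact Nat.card_le_card_of_injective f hinj

theorem exists_chi {b : O} (hp : Prime b) (h : TFld K N b) {k : Type} [Field k] (q : O →+* k)
    (hq : Function.Surjective q) (hk : ∀ x, q x = 0 ↔ b ∣ x) :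
    ∃ χ : Gal(N/K) →* kˣ, Function.Injective χ ∧
      ∀ (σ : Gal(N/K)) (c : O), q c = χ σ → ∀ R ∈ Tor b N, sp σ R = act c R := by
  obtain ⟨T, hT, h0⟩ := exists_tor hp h.full
  have hex : ∀ σ : Gal(N/K), ∃ c : O, act c T = sp σ T := fun σ =>
    tor_gen hp h.full hT ((sp_mem σ b T).2 hT) h0
  choose c hc using hex
  have heq : ∀ x y : O, act x T = act y T ↔ q x = q y := by
    intro x y
    rw [← sub_eq_zero, ← act_sub, act_eq_zero hp hT h0, ← hk, map_sub, sub_eq_zero]
  have hne : ∀ σ, q (c σ) ≠ 0 := by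
    intro σ h1
    rw [hk, ← act_eq_zero hp hT h0, hc] at h1
    exact sp_ne σ h0 h1
  let χ : Gal(N/K) →* kˣ :=
    { toFun := fun σ => Units.mk0 (q (c σ)) (hne σ)
      map_one' := by
        apply Units.ext
        show q (c 1) = 1
        rw [← map_one q, ← heq, hc, sp_one, act_one]
      map_mul' := by
        intro σ τ
        apply Units.ext
        show q (c (σ * τ)) = q (c σ) * q (c τ)
        rw [← map_mul, ← heq, hc, sp_mul, ← hc τ, sp_act, ← hc σ, ← act_mul, mul_comm] }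
  have hχ : ∀ σ, ((χ σ : kˣ) : k) = q (c σ) := fun σ => rfl
  refine ⟨χ, ?_, ?_⟩
  · intro σ τ hστ
    have h1 : q (c σ) = q (c τ) := by rw [← hχ, ← hχ, hστ]
    rw [← heq, hc, hc] at h1
    exact orb_inj hp h hT h0 h1
  · intro σ d hd R hR
    rw [hχ, ← heq, hc] at hd
    obtain ⟨a, ha⟩ := tor_gen hp h.full hT hR h0
    rw [← ha, sp_act, ← hd, ← act_mul, ← act_mul, mul_comm]

end

end H28G
end

-- from Lib.H28G.K3
section

open NumberField IsDedekindDomain WeierstrassCurve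

namespace H28G

open H55B H55R H99B

/-! Chunk K3 (M): total ramification. es = es K N v, n = finrank K N <= Nm b - 1 (card_le; b <> 0 so Nm b > 1, prime). W a prime above v (under_exists). W.valuation N (ak N b) = exp(-es): ord_map for the unit b of K (ak K b <> 0; BF1_val)
and ak N b = algebraMap K N (ak K b). j from exists_emb. T in Tor b N, T <> 0 (exists_tor): tor_val: W(tt T)^(Nm b - 1) = exp(-es); W(tt T) <> 0 and < 1 (tt_val) so W(tt T) = exp(-m), m >= 1 (the tt T is a unit of N; BF1_val), and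
(Nm b - 1) m = es. D5_card: card * (es * fs) = n <= Nm b - 1 with card >= 1 (W is in the set), fs >= 1: so m = 1, es = Nm b - 1, fs = 1, card = 1, n = Nm b - 1. one: the set of the primes above v (D5_mem) has one element. val: the same
argument for every R and W. orb: the injection σ -> sp σ R (orb_inj) from Gal(N/K) (n elements, IsGalois.card_aut_eq_finrank) to {R : Tor b N // R <> 0} (Nm b - 1 elements) is surjective. -/

/-- N/K is totally ramified at v, of degree Nb - 1. -/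
structure TotRam (K N : Type) [Field K] [NumberField K] [Field N] [NumberField N] [DecidableEq N]
    [Algebra F K] [Algebra K N] [Algebra F N] [IsScalarTower F K N] (b : O) (v : Pl K) : Prop where
  deg : Module.finrank K N = Nm b - 1
  es : es K N v = Nm b - 1
  fs : fs K N v = 1
  one : ∀ W W' : Pl N, W.under (𝓞 K) = v → W'.under (𝓞 K) = v → W = W'
  val : ∀ W : Pl N, W.under (𝓞 K) = v → ∀ R ∈ Tor b N, R ≠ 0 →
    1 < W.valuation N (xc R) ∧ W.valuation N (tt R) = WithZero.exp (-1 : ℤ)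
  orb : ∀ R ∈ Tor b N, R ≠ 0 → ∀ R' ∈ Tor b N, R' ≠ 0 → ∃ σ : Gal(N/K), sp σ R = R'

theorem K3_arith {c P f m e : ℕ} (hc : 0 < c) (hf : 0 < f) (he : 0 < e) (hm : m * P = e)
    (h : c * (e * f) ≤ P) : c = 1 ∧ f = 1 ∧ m = 1 := by
  subst hm
  have hP : 0 < P := Nat.pos_of_mul_pos_right he |> fun h => by
    rcases Nat.eq_zero_or_pos P with h0 | h0
    · rw [h0, mul_zero] at he
      exact absurd he (lt_irrefl 0)
    · exact h0
  have hm0 : 0 < m := by
    rcases Nat.eq_zero_or_pos m with h0 | h0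
    · rw [h0, zero_mul] at he
      exact absurd he (lt_irrefl 0)
    · exact h0
  have h1 : (c * f * m) * P ≤ 1 * P := by
    calc (c * f * m) * P = c * (m * P * f) := by ring
      _ ≤ P := h
      _ = 1 * P := (one_mul P).symm
  have h2 : c * f * m ≤ 1 := Nat.le_of_mul_le_mul_right h1 hP
  have h3 : c * f * m = 1 := le_antisymm h2 (Nat.mul_pos (Nat.mul_pos hc hf) hm0)
  have h4 := Nat.eq_one_of_mul_eq_one_left h3
  have h5 := Nat.eq_one_of_mul_eq_one_right h3
  exact ⟨Nat.eq_one_of_mul_eq_one_right h5, Nat.eq_one_of_mul_eq_one_left h5, h4⟩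

theorem tot_ram {K N : Type} [Field K] [NumberField K] [Field N] [NumberField N] [DecidableEq N]
    [Algebra F K] [Algebra K N] [Algebra F N] [IsScalarTower F K N] {b : O} (hp : Prime b)
    (hb : Prim b) (h : TFld K N b) (v : Pl K)
    (hv : v.valuation K (ak K b) = WithZero.exp (-1 : ℤ)) : TotRam K N b v := by
  classical
  have hgal : IsGalois K N := h.gal
  have hb0 := hp.ne_zero
  have hle : Module.finrank K N ≤ Nm b - 1 := card_le hp h
  obtain ⟨j⟩ := exists_emb (N := N)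
  have hakK : ak K b ≠ 0 := GV6_ak_ne hb0
  obtain ⟨x, hx⟩ : ∃ x : Kˣ, (x : K) = ak K b := ⟨Units.mk0 _ hakK, rfl⟩
  have hordv : ord v x = 1 := by
    have h1 := BF1_val v x
    rw [hx, hv, WithZero.exp_inj] at h1
    omega
  have hakN : ((Units.map (algebraMap K N : K →* N) x : Nˣ) : N) = ak N b := by
    show algebraMap K N (x : K) = _
    rw [hx]
    unfold ak
    rw [RingHom.comp_apply, RingHom.comp_apply, ← IsScalarTower.algebraMap_apply F K N]
  have hval : ∀ W : Pl N, W.under (𝓞 K) = v →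
      W.valuation N (ak N b) = WithZero.exp (-(es K N v : ℤ)) := by
    intro W hW
    have h1 := ord_map W v hW x
    rw [hordv, mul_one] at h1
    have h2 := BF1_val W (Units.map (algebraMap K N : K →* N) x)
    rw [h1, hakN] at h2
    exact h2
  have hes : 0 < es K N v := es_pos v
  have hfs : 0 < fs K N v := fs_pos v
  have key : ∀ W : Pl N, W.under (𝓞 K) = v → ∀ R ∈ Tor b N, R ≠ 0 →
      1 < W.valuation N (xc R) ∧ ∃ m : ℕ, W.valuation N (tt R) = WithZero.exp (-(m : ℤ)) ∧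
        m * (Nm b - 1) = es K N v := by
    intro W hW R hR h0
    have hvb : W.valuation N (ak N b) < 1 := by
      rw [hval W hW, ← WithZero.exp_zero, WithZero.exp_lt_exp]
      omega
    obtain ⟨h1, h2⟩ := tor_val (W.valuation N) j hp hb h.full hvb hR h0
    obtain ⟨h3, h4, -, -⟩ := tt_val (W.valuation N) h1
    refine ⟨h1, ?_⟩
    obtain ⟨k, hk⟩ : ∃ k : ℤ, W.valuation N (tt R) = WithZero.exp k :=
      ⟨WithZero.log (W.valuation N (tt R)), (WithZero.exp_log h4).symm⟩
    rw [hk, ← WithZero.exp_zero, WithZero.exp_lt_exp] at h3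
    obtain ⟨m, hm⟩ : ∃ m : ℕ, k = -(m : ℤ) := ⟨k.natAbs, by omega⟩
    refine ⟨m, by rw [hk, hm], ?_⟩
    rw [hval W hW, hk, hm, ← WithZero.exp_nsmul, WithZero.exp_inj, nsmul_eq_mul] at h2
    have h5 : ((m * (Nm b - 1) : ℕ) : ℤ) = (es K N v : ℤ) := by
      rw [Nat.cast_mul]
      linarith
    exact_mod_cast h5
  obtain ⟨W₀, hW₀⟩ := under_exists (L := N) v
  obtain ⟨T, hT, hT0⟩ := exists_tor hp h.full
  obtain ⟨-, m, -, hm⟩ := key W₀ hW₀ T hT hT0
  have hcard := D5_card (L := N) v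
  have hcpos : 0 < (D5_T (L := N) v).card :=
    Finset.card_pos.2 ⟨W₀, (D5_mem v W₀).2 hW₀⟩
  obtain ⟨hc1, hf1, hm1⟩ := K3_arith hcpos hfs hes hm (hcard.le.trans hle)
  have hes1 : es K N v = Nm b - 1 := by rw [← hm, hm1, one_mul]
  have hdeg : Module.finrank K N = Nm b - 1 := by
    rw [← hcard, hc1, hf1, hes1, one_mul, mul_one]
  have hP : 0 < Nm b - 1 := hes1 ▸ hes
  refine ⟨hdeg, hes1, hf1, ?_, ?_, ?_⟩
  · intro W W' hW hW'
    obtain ⟨Z, hZ⟩ := Finset.card_eq_one.1 hc1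
    have h1 : W ∈ D5_T (L := N) v := (D5_mem v W).2 hW
    have h2 : W' ∈ D5_T (L := N) v := (D5_mem v W').2 hW'
    rw [hZ, Finset.mem_singleton] at h1 h2
    rw [h1, h2]
  · intro W hW R hR h0
    obtain ⟨h1, m', hm', hm2⟩ := key W hW R hR h0
    refine ⟨h1, ?_⟩
    rw [hes1] at hm2
    have h3 : m' = 1 := Nat.eq_of_mul_eq_mul_right hP (by rw [hm2, one_mul])
    rw [hm', h3, Nat.cast_one]
  · intro R hR h0 R' hR' h0'
    have hfin : Finite (Tor b N) := h.full.finite hb0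
    let f : Gal(N/K) → {R : Tor b N // R ≠ 0} := fun σ =>
      ⟨⟨sp σ R, (sp_mem σ b R).2 hR⟩, fun h1 => sp_ne σ h0 (congrArg Subtype.val h1)⟩
    have hinj : Function.Injective f := by
      intro σ τ hστ
      apply orb_inj hp h hR h0
      exact congrArg (fun z : {R : Tor b N // R ≠ 0} => ((z.1 : Tor b N) : P27 N)) hστ
    have hcard2 : Nat.card {R : Tor b N // R ≠ 0} = Nm b - 1 := by
      have : Fintype (Tor b N) := Fintype.ofFinite _
      have h3 : Nat.card (Tor b N) = Nm b := h.full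
      rw [Nat.card_eq_fintype_card] at h3 ⊢
      have h4 := Fintype.card_subtype_compl (fun R : Tor b N => R = 0)
      rw [Fintype.card_subtype_eq, h3] at h4
      exact h4
    have hbij := hinj.bijective_of_nat_card_le (by
      rw [hcard2, IsGalois.card_aut_eq_finrank, hdeg])
    obtain ⟨σ, hσ⟩ := hbij.2 ⟨⟨R', hR'⟩, fun h1 => h0' (congrArg Subtype.val h1)⟩
    exact ⟨σ, congrArg (fun z : {R : Tor b N // R ≠ 0} => ((z.1 : Tor b N) : P27 N)) hσ⟩

end H28G
end

-- from Lib.H55P.Z1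
section

open NumberField IsDedekindDomain

namespace H55P

open H55N
open H55B (F O om e emb Prim R lam_prime three_eq exists_unit_prim)

/-! The Hecke character of y^2 + y = x^3 (proved). -/

theorem m3_ne : m3 ≠ ⊥ := by
  unfold m3
  rw [Ne, Ideal.span_singleton_eq_bot]
  norm_num

theorem m3_ntop : m3 ≠ ⊤ := by
  unfold m3
  rw [Ne, Ideal.span_singleton_eq_top, three_eq]
  intro h
  have h1 : IsUnit (om - 1 : O) := by
    have h2 : (om - 1 : O) ∣ -om ^ 2 * (om - 1) ^ 2 := ⟨-om ^ 2 * (om - 1), by ring⟩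
    exact isUnit_of_dvd_unit h2 h
  exact lam_prime.not_unit h1

theorem pg_of_unit {x : O} (u : Oˣ) (h : Prim (u * x)) : pg (Ideal.span {x}) = u * x := by
  have h1 : Ideal.span {x} = Ideal.span {(u : O) * x} := by
    rw [mul_comm, Ideal.span_singleton_mul_right_unit u.isUnit]
  rw [h1, pg_span h]

theorem isHeckeE : IsHecke m3 psiE where
  ne := m3_ne
  ntop := m3_ntop
  gen J h := by
    have hJ : J ≠ ⊥ := by
      rintro rfl
      apply m3_ntop
      rw [Ideal.isCoprime_iff_sup_eq] at h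
      simpa using h
    obtain ⟨x, rfl, hx⟩ := (exists_prim_iff hJ).2 h
    rw [psiE_apply, pg_span hx]
  zero J h := by
    rcases eq_or_ne J ⊥ with rfl | hJ
    · exact psiE.map_zero
    · exact pg_of_not fun h' => h ((exists_prim_iff hJ).1 h')
  per x y hx hy hxy := by
    rw [m3, Ideal.isCoprime_span_singleton_iff] at hx
    obtain ⟨u, hu⟩ := exists_unit_prim hx
    have hu' : Prim (u * y) := by
      obtain ⟨z, hz⟩ := Ideal.mem_span_singleton.1 hxy
      obtain ⟨t, ht⟩ := hu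
      exact ⟨t - u * z, by linear_combination ht - (u : O) * hz⟩
    rw [psiE_apply, psiE_apply, pg_of_unit u hu, pg_of_unit u hu']
    ring

end H55P
end

-- from Lib.H28G.K6
section

open NumberField IsDedekindDomain WeierstrassCurve

namespace H28G

open H55B H55R H99B

open scoped Pointwise

/-! Chunk K6 (M): Frobenius at 2. kron_two: (any valuation v with v 2 < 1; then v 3 = 1.) X = (x, y) integral (int_y), f = fc X = 2 y + 1, v(f) = 1, so fc X <> 0; dbl_coords: xc(2X) = (3x^2/f)^2 - 2x = 9x^4/f^2 - 2x, and f = 1 mod v, so xc(2X) = x^4 mod v (v(x) <= 1).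
act (-2) X = -(X + X) (act_neg, act_int), xc_neg, yc_neg: yc(-2X) = -1 - yc(2X) = (3x^2/f)(xc(2X) - x) + y = x^2 (x^4 - x) + y = x^6 - x^3 + y = (y^2+y)^2 - (y^2+y) + y = y^4 mod v (2 = 0).
frob: N/K Galois, W a prime of N: Mathlib IsArithFrobAt.exists_of_isInvariant (G = Gal(N/K), R = 𝓞 K, S = 𝓞 N, Q = W.asIdeal): σ with σ x - x^(card (𝓞 K / (W under 𝓞 K))) in W for all x in 𝓞 N. For x in N integral at W: x = a/s, s not in W: both sides.
not_cyc: W a prime of N above 2 (under_exists for the prime (2) of O, 2 is prime in O: two_prime, absNorm = 4: Nm 2 = 4). 3, b not in W (b is prime to 2: hypothesis). σ from frob: σ x = x^4 mod W for W-integral x. For R in Tor b N, R <> 0: xc(sp σ R) = xc(R)^4 = xc(act (-2) R) mod W,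
same for yc, so sp σ R = act (-2) R (fix_of_cong; act (-2) R is in Tor b and <> 0). With c such that q c = χ σ: act c R = act (-2) R, so b | c + 2 (act_eq_zero), χ σ = q(-2) = -2 = (l - 2 : ℕ) in k. Suppose the displayed condition: σ ζ = ζ^(l-2) (n = l - 2), and
σ ζ = ζ^4 mod W (ζ is integral). ζ^(l-2) <> ζ^4 (l does not divide l - 6; l >= 5 prime: for l = 5: ζ^3 <> ζ^4), but they are l-th roots of unity congruent modulo W, l not in W: ζ^i - ζ^j divides l for i <> j mod l (prod_{i=1}^{l-1}(1 - ζ^i) = l: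
IsPrimitiveRoot.. or Polynomial.cyclotomic_prime evaluated at 1; compare H99B.D2/kummer_spl), so l in W; but 2 in W and l is odd: 1 in W. Contradiction. -/

section
variable {k : Type} [Field k] [DecidableEq k] [Algebra F k]
  {Γ : Type} [LinearOrderedCommGroupWithZero Γ] (v : Valuation k Γ)

omit [DecidableEq k] [Algebra F k] in
theorem K6_mul {a b : k} (ha : v a ≤ 1) (hb : v b < 1) : v (a * b) < 1 := by
  rw [map_mul]
  calc v a * v b ≤ 1 * v b := mul_le_mul_left ha _
    _ = v b := one_mul _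
    _ < 1 := hb

omit [DecidableEq k] [Algebra F k] in
theorem K6_add {a b : k} (ha : v a < 1) (hb : v b < 1) : v (a + b) < 1 :=
  lt_of_le_of_lt (v.map_add a b) (max_lt ha hb)

omit [DecidableEq k] [Algebra F k] in
theorem K6_madd {a b : k} (ha : v a ≤ 1) (hb : v b ≤ 1) : v (a + b) ≤ 1 :=
  le_trans (v.map_add a b) (max_le ha hb)

omit [DecidableEq k] [Algebra F k] in
theorem K6_mmul {a b : k} (ha : v a ≤ 1) (hb : v b ≤ 1) : v (a * b) ≤ 1 := by
  rw [map_mul]
  exact mul_le_one' ha hb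

omit [DecidableEq k] [Algebra F k] in
theorem K6_pow {a : k} (ha : v a ≤ 1) (n : ℕ) : v (a ^ n) ≤ 1 := by
  rw [map_pow]
  exact pow_le_one' ha n

theorem kron_two (h2 : v 2 < 1) {X : P27 k} (hX : X ≠ 0) (h1 : v (xc X) ≤ 1) :
    act (-2 : O) X ≠ 0 ∧ v (xc (act (-2 : O) X) - xc X ^ 4) < 1 ∧
      v (yc (act (-2 : O) X) - yc X ^ 4) < 1 := by
  have hy : v (yc X) ≤ 1 := int_y v h1
  have hf : v (fc X) = 1 := by
    have e : fc X = 1 + yc X * 2 := by
      unfold fc
      ring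
    rw [e]
    exact Valuation.map_one_add_of_lt v (K6_mul v hy h2)
  have hf0 : fc X ≠ 0 := by
    intro h
    rw [h, map_zero] at hf
    exact zero_ne_one hf
  obtain ⟨d1, d2, d3⟩ := dbl_coords hX hf0
  have ha : act (-2 : O) X = -(X + X) := by
    have e : (-2 : O) = ((-2 : ℤ) : O) := by push_cast; ring
    rw [e, act_int, neg_smul, two_zsmul]
  have hfi : v (fc X)⁻¹ ≤ 1 := by
    rw [map_inv₀, hf, inv_one]
  have hone : v (1 : k) ≤ 1 := (map_one v).le
  have hint : ∀ n : ℤ, v (n : k) ≤ 1 := GV1_int v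
  have hx2 : v (xc (X + X) - xc X ^ 4) < 1 := by
    have e : xc (X + X) - xc X ^ 4 = (xc X ^ 4 * ((1 + (-1 : ℤ) * yc X) * (((2 : ℤ) : k) + yc X) *
        ((2 : ℤ) : k) * (fc X)⁻¹ ^ 2) + ((-1 : ℤ) : k) * xc X) * 2 := by
      rw [d2]
      have hff : fc X = 2 * yc X + 1 := rfl
      push_cast
      field_simp
      rw [hff]
      ring
    rw [e]
    refine K6_mul v ?_ h2
    refine K6_madd v (K6_mmul v (K6_pow v h1 4) (K6_mmul v (K6_mmul v (K6_mmul v
      (K6_madd v hone (K6_mmul v (hint _) hy)) (K6_madd v (hint _) hy)) (hint _))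
      (K6_pow v hfi 2))) (K6_mmul v (hint _) h1)
  refine ⟨?_, ?_, ?_⟩
  · rw [ha]
    exact neg_ne d1
  · rw [ha, xc_neg]
    exact hx2
  · rw [ha, yc_neg d1, d3]
    have e : -1 - (-1 - (3 * xc X ^ 2 / fc X * (xc (X + X) - xc X) + yc X)) - yc X ^ 4 =
        (((3 : ℤ) : k) * xc X ^ 2 * (fc X)⁻¹) * (xc (X + X) - xc X ^ 4) +
        (yc X ^ 3 + (1 + (-1 : ℤ) * yc X) * (fc X)⁻¹ * (xc X ^ 6 + (-1 : ℤ) * xc X ^ 3)) * 2 := by
      have hff : fc X = 2 * yc X + 1 := rfl
      have he := eqn X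
      have e1 : 3 * xc X ^ 2 / fc X * (xc (X + X) - xc X) =
        (((3 : ℤ) : k) * xc X ^ 2 * (fc X)⁻¹) * (xc (X + X) - xc X ^ 4) +
          3 * (fc X)⁻¹ * (xc X ^ 6 - xc X ^ 3) := by
        push_cast
        ring
      have e2 : 3 * (fc X)⁻¹ = 1 + 2 * (1 - yc X) * (fc X)⁻¹ := by
        field_simp
        rw [hff]
        ring
      have e3 : xc X ^ 6 = (xc X ^ 3) ^ 2 := by ring
      rw [e1, e2, e3, ← he]
      push_cast
      ring
    rw [e]
    refine K6_add v (K6_mul v (K6_mmul v (K6_mmul v (hint _) (K6_pow v h1 2)) hfi) hx2)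
      (K6_mul v (K6_madd v (K6_pow v hy 3) (K6_mmul v (K6_mmul v
        (K6_madd v hone (K6_mmul v (hint _) hy)) hfi) (K6_madd v (K6_pow v h1 6)
        (K6_mmul v (hint _) (K6_pow v h1 3))))) h2)

end

theorem K6_frob {K N : Type} [Field K] [NumberField K] [Field N] [NumberField N] [Algebra K N]
    [IsGalois K N] (W : Pl N) : ∃ σ : Gal(N/K), IsArithFrobAt (𝓞 K) σ W.asIdeal := by
  have hW := W.isPrime
  have hf : Finite (𝓞 N ⧸ W.asIdeal) := Ideal.finiteQuotientOfFreeOfNeBot W.asIdeal W.ne_bot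
  exact IsArithFrobAt.exists_of_isInvariant (𝓞 K) Gal(N/K) W.asIdeal

theorem K6_card {K N : Type} [Field K] [NumberField K] [Field N] [NumberField N] [Algebra K N]
    (W : Pl N) (v : Pl K) (hW : W.under (𝓞 K) = v) :
    Nat.card (𝓞 K ⧸ W.asIdeal.under (𝓞 K)) = Ideal.absNorm v.asIdeal := by
  have h : W.asIdeal.under (𝓞 K) = v.asIdeal := congrArg HeightOneSpectrum.asIdeal hW
  rw [h, Ideal.absNorm_apply, Submodule.cardQuot_apply]

theorem K6_frob_val {K N : Type} [Field K] [NumberField K] [Field N] [NumberField N] [Algebra K N]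
    [IsGalois K N] (W : Pl N) (v : Pl K) (hW : W.under (𝓞 K) = v) (σ : Gal(N/K))
    (hσ : IsArithFrobAt (𝓞 K) σ W.asIdeal) (x : N) (hx : W.valuation N x ≤ 1) :
    W.valuation N (σ x - x ^ Ideal.absNorm v.asIdeal) < 1 := by
  have hWp := W.isPrime
  have hc := K6_card W v hW
  have h1 : ∀ y : 𝓞 N, W.valuation N (σ (y : N) - (y : N) ^ Ideal.absNorm v.asIdeal) < 1 := by
    intro y
    have h2 := hσ y
    rw [hc] at h2
    have h3 := (HeightOneSpectrum.valuation_lt_one_iff_mem (K := N) W _).2 h2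
    exact h3
  have hval : ∀ y : 𝓞 N, W.valuation N (y : N) ≤ 1 := fun y =>
    HeightOneSpectrum.valuation_le_one W y
  obtain ⟨n, d, h⟩ := HeightOneSpectrum.exists_primeCompl_mul_eq_of_integer W x hx
  have hd : (d : 𝓞 N) ∉ W.asIdeal := d.2
  have hd1 : W.valuation N ((d : 𝓞 N) : N) = 1 :=
    (HeightOneSpectrum.valuation_eq_one_iff_notMem (K := N) W).2 hd
  set q := Ideal.absNorm v.asIdeal with hq
  set D : N := ((d : 𝓞 N) : N) with hD
  set M : N := ((n : 𝓞 N) : N) with hM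
  have hxd : x * D = M := h
  have hD0 : D ≠ 0 := by
    intro h0
    rw [h0, map_zero] at hd1
    exact zero_ne_one hd1
  have hsD : W.valuation N (σ D) = 1 := by
    have e : σ D = D ^ q + (σ D - D ^ q) := by ring
    rw [e, Valuation.map_add_eq_of_lt_left]
    · rw [map_pow, hd1, one_pow]
    · rw [map_pow, hd1, one_pow]
      exact h1 d
  have hsM : σ x * σ D = σ M := by rw [← map_mul, hxd]
  have key : σ D * D ^ q * (σ x - x ^ q) = D ^ q * (σ M - M ^ q) +
      (-(M ^ q)) * (σ D - D ^ q) := by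
    rw [← hsM, ← hxd, mul_pow]
    ring
  have h4 : W.valuation N (σ D * D ^ q * (σ x - x ^ q)) < 1 := by
    rw [key]
    refine K6_add _ (K6_mul _ (K6_pow _ (hval d) q) (h1 n)) (K6_mul _ ?_ (h1 d))
    rw [Valuation.map_neg]
    exact K6_pow _ (hval n) q
  rw [map_mul, map_mul, hsD, map_pow, hd1, one_pow, one_mul, one_mul] at h4
  exact h4

theorem frob {K N : Type} [Field K] [NumberField K] [Field N] [NumberField N] [Algebra K N]
    [IsGalois K N] (W : Pl N) (v : Pl K) (hW : W.under (𝓞 K) = v) : ∃ σ : Gal(N/K), smulP σ W = W ∧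
      ∀ x : N, W.valuation N x ≤ 1 →
        W.valuation N (σ x - x ^ Ideal.absNorm v.asIdeal) < 1 := by
  have hWp := W.isPrime
  obtain ⟨σ, hσ⟩ := K6_frob (K := K) W
  refine ⟨σ, ?_, fun x hx => K6_frob_val W v hW σ hσ x hx⟩
  have h := IsArithFrobAt.mem_stabilizer hσ
  rw [MulAction.mem_stabilizer_iff] at h
  exact HeightOneSpectrum.ext h

theorem not_cyc {l : ℕ} [Fact l.Prime] (h5 : 5 ≤ l) {N : Type} [Field N] [NumberField N]
    [DecidableEq N] [Algebra F N] {b : O} (hp : Prime b) (h2 : ¬ b ∣ 2) (h : TFld F N b)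
    {k : Type} [Field k] [CharP k l] (q : O →+* k) (hq : Function.Surjective q)
    (hk : ∀ x, q x = 0 ↔ b ∣ x) (χ : Gal(N/F) →* kˣ)
    (hχ : ∀ (σ : Gal(N/F)) (c : O), q c = χ σ → ∀ R ∈ Tor b N, sp σ R = act c R) (ζ : Nˣ)
    (hζ : IsPrimitiveRoot ζ l) :
    ¬ ∀ (σ : Gal(N/F)) (n : ℕ), (n : k) = χ σ → gu σ ζ = ζ ^ n := by
  intro hcon
  have hgal := h.gal
  have h20 : (2 : O) ≠ 0 := two_prime.ne_zero
  let v : Pl F := ⟨Ideal.span {(2 : O)}, (Ideal.span_singleton_prime h20).2 two_prime, by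
    rw [Ne, Ideal.span_singleton_eq_bot]
    exact h20⟩
  obtain ⟨W, hW⟩ := under_exists (K := F) (L := N) v
  have hWp := W.isPrime
  have hunder : ∀ c : O, algebraMap O (𝓞 N) c ∈ W.asIdeal ↔ (2 : O) ∣ c := by
    intro c
    have e : W.asIdeal.under O = Ideal.span {(2 : O)} := congrArg HeightOneSpectrum.asIdeal hW
    rw [← Ideal.mem_span_singleton, ← e]
    rfl
  have h2W : (2 : 𝓞 N) ∈ W.asIdeal := by
    have := (hunder 2).2 dvd_rfl
    rwa [map_ofNat] at this
  have h3W : (3 : 𝓞 N) ∉ W.asIdeal := by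
    intro h3
    apply hWp.ne_top
    rw [Ideal.eq_top_iff_one]
    have : (1 : 𝓞 N) = 3 - 2 := by norm_num
    rw [this]
    exact sub_mem h3 h2W
  have hbW : algebraMap O (𝓞 N) b ∉ W.asIdeal := by
    intro hb
    obtain ⟨c, hc⟩ := (hunder b).1 hb
    apply h2
    rcases hp.irreducible.isUnit_or_isUnit hc with hu | hu
    · exact absurd hu two_prime.not_isUnit
    · obtain ⟨u, hu⟩ := hu
      refine ⟨(u⁻¹ : Oˣ), ?_⟩
      rw [hc, ← hu, mul_assoc, Units.mul_inv, mul_one]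
  have hlW : ((l : ℕ) : 𝓞 N) ∉ W.asIdeal := by
    intro hl
    have hodd : Odd l := (Fact.out : l.Prime).odd_of_ne_two (by omega)
    obtain ⟨m, hm⟩ := hodd
    apply hWp.ne_top
    rw [Ideal.eq_top_iff_one]
    have : (1 : 𝓞 N) = (l : 𝓞 N) - m * 2 := by
      rw [hm]
      push_cast
      ring
    rw [this]
    exact sub_mem hl (W.asIdeal.mul_mem_left _ h2W)
  obtain ⟨σ, hσ⟩ := K6_frob (K := F) W
  have hN : Ideal.absNorm v.asIdeal = 4 := by
    have h8 := Nm_repr 2 0
    have e : ((2 : ℤ) : O) + ((0 : ℤ) : O) * om = 2 := by push_cast; ring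
    rw [e] at h8
    have h9 : (Nm (2 : O) : ℤ) = 4 := by rw [h8]; norm_num
    exact_mod_cast h9
  obtain ⟨T, hT, hT0⟩ := exists_tor hp h.full
  have hxi := tor_int W hbW hT hT0
  have hyi := int_y (W.valuation N) hxi
  have h2v : W.valuation N 2 < 1 := by
    exact (HeightOneSpectrum.valuation_lt_one_iff_mem (K := N) W _).2 h2W
  obtain ⟨k1, k2, k3⟩ := kron_two (W.valuation N) h2v hT0 hxi
  have f1 := K6_frob_val W v hW σ hσ (xc T) hxi
  have f2 := K6_frob_val W v hW σ hσ (yc T) hyi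
  rw [hN] at f1 f2
  have hfix : sp σ T = act (-2 : O) T := by
    refine fix_of_cong W h3W hbW ((sp_mem σ b T).2 hT) (GD2_mem hT _) (sp_ne σ hT0) k1 ?_ ?_
    · rw [xc_sp]
      have e : σ (xc T) - xc (act (-2 : O) T) = (σ (xc T) - xc T ^ 4) -
          (xc (act (-2 : O) T) - xc T ^ 4) := by ring
      rw [e]
      exact lt_of_le_of_lt (Valuation.map_sub _ _ _) (max_lt f1 k2)
    · rw [yc_sp]
      have e : σ (yc T) - yc (act (-2 : O) T) = (σ (yc T) - yc T ^ 4) -
          (yc (act (-2 : O) T) - yc T ^ 4) := by ring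
      rw [e]
      exact lt_of_le_of_lt (Valuation.map_sub _ _ _) (max_lt f2 k3)
  obtain ⟨c, hc⟩ := hq (χ σ : k)
  have h5 := hχ σ c hc T hT
  have h6 : act (c + 2) T = 0 := by
    have e : c + 2 = c - (-2) := by ring
    rw [e, act_sub, ← h5, hfix, sub_self]
  have h7 : b ∣ c + 2 := (act_eq_zero hp hT hT0 _).1 h6
  have h8 : q (c + 2) = 0 := (hk _).2 h7
  rw [map_add, map_ofNat, hc] at h8
  have h9 : ((l - 2 : ℕ) : k) = χ σ := by
    rw [Nat.cast_sub (by omega), CharP.cast_eq_zero k l]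
    push_cast
    linear_combination -h8
  have h10 := hcon σ (l - 2) h9
  have hζi : IsIntegral ℤ (ζ : N) := by
    refine IsPrimitiveRoot.isIntegral (μ := (ζ : N)) (n := l) ?_ (by omega)
    exact hζ.map_of_injective (f := Units.coeHom N) Units.val_injective
  let z : 𝓞 N := ⟨(ζ : N), hζi⟩
  have hz : z ^ l = 1 := by
    apply RingOfIntegers.ext
    show (ζ : N) ^ l = 1
    rw [← Units.val_pow_eq_pow_val, hζ.pow_eq_one, Units.val_one]
  have h11 := AlgHom.IsArithFrobAt.apply_of_pow_eq_one hσ hz hlW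
  rw [K6_card W v hW, hN] at h11
  have h12 : σ (ζ : N) = (ζ : N) ^ 4 := by
    have := congrArg (fun x : 𝓞 N => (x : N)) h11
    exact this
  have h13 : ζ ^ (l - 2) = ζ ^ 4 := by
    rw [← h10]
    apply Units.ext
    rw [gu_apply, h12, Units.val_pow_eq_pow_val]
  have h14 := hζ.pow_inj (by omega) (by omega) h13
  have h15 : l = 6 := by omega
  have h16 : l.Prime := Fact.out
  rw [h15] at h16
  norm_num at h16

end H28G
end
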