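import Mathlib
import Pool.Agent.Lib.H1M.PP.D_H55K_D2
import Pool.Agent.Lib.H1M.PP.D_H55K_QD
import Pool.Agent.Lib.H1M.PP.D_H55P_Stm
import Pool.Agent.Lib.H1M.PP.M001
import Pool.Agent.Lib.H1M.PP.M010
import Pool.Agent.Lib.H1M.PP.M047
import Pool.Agent.Lib.H1M.PP.M048

/-! Merged copies (to shorten the build) of Lib.H55K.QB1B, Lib.H55K.QE1, Lib.H55K.T9B, Lib.H55K.T9C, Lib.H55K.QE2B, Lib.H55K.QE3, Lib.H55K.QH1A, Lib.H55K.QH1B, Lib.H55K.QH1C, Lib.H55K.QH2A, Lib.H55K.QH2B, Lib.H55K.QH4B. -/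

-- from Lib.H55K.QB1B
section

/-! # H55K: extension of the valuation ring to an algebraic closure -/

open NumberField IsDedekindDomain WeierstrassCurve

namespace H55K.TQ

open H55P (IQ embF eF LF Per IsHecke Pt ac Inert Dec Nm UnitP)
open H35P (WAB Ker tt GoodW IntW)
open H55K.MG (VC Crd)

variable {k : Type} [Field k] {Ω : Type} [Field Ω] [Algebra k Ω]

/-- Chunk QB1B (S/M). a ≠ 0 is a root of a polynomial of k[X] (Algebra.IsAlgebraic), with a nonzero constant coefficient or not: in the sum of the c_i a^i = 0 two different nonzero terms have the same (maximal) value (ultrametric inequality: a sum with a unique term of maximal value is not 0), so V(a)^(i - j) = V(c_j/c_i), i > j. -/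
theorem val_pow [Algebra.IsAlgebraic k Ω] (V : ValuationSubring Ω) {a : Ω} (ha : a ≠ 0) :
    ∃ (m : ℕ) (b : k), 0 < m ∧ b ≠ 0 ∧ V.valuation a ^ m = V.valuation (algebraMap k Ω b) := by
  classical
  obtain ⟨p, hp0, hp⟩ := Algebra.IsAlgebraic.isAlgebraic (R := k) a
  rw [Polynomial.aeval_eq_sum_range' (n := p.natDegree + 1) (Nat.lt_succ_self _)] at hp
  have hvm : ∀ i, p.coeff i • a ^ i = algebraMap k Ω (p.coeff i) * a ^ i := fun i => Algebra.smul_def _ _
  have hsum : ∑ i ∈ p.support, algebraMap k Ω (p.coeff i) * a ^ i = 0 := by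
    rw [← hp]
    have h1 : p.support ⊆ Finset.range (p.natDegree + 1) := Polynomial.supp_subset_range_natDegree_succ
    rw [← Finset.sum_subset h1 (f := fun i => p.coeff i • a ^ i)]
    · exact Finset.sum_congr rfl fun i _ => (hvm i).symm
    · intro i _ hi
      rw [Polynomial.notMem_support_iff.1 hi, zero_smul]
  have hne : ∀ i ∈ p.support, algebraMap k Ω (p.coeff i) * a ^ i ≠ 0 := by
    intro i hi
    refine mul_ne_zero ?_ (pow_ne_zero i ha)
    rw [Ne, FaithfulSMul.algebraMap_eq_zero_iff]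
    exact Polynomial.mem_support_iff.1 hi
  have hsn : p.support.Nonempty := Polynomial.nonempty_support_iff.2 hp0
  obtain ⟨i, hi, hmax⟩ := Finset.exists_max_image p.support
    (fun i => V.valuation (algebraMap k Ω (p.coeff i) * a ^ i)) hsn
  have hex : ∃ j ∈ p.support, j ≠ i ∧ V.valuation (algebraMap k Ω (p.coeff j) * a ^ j) =
      V.valuation (algebraMap k Ω (p.coeff i) * a ^ i) := by
    by_contra hcon
    push Not at hcon
    have hlt : ∀ j ∈ p.support.erase i, V.valuation (algebraMap k Ω (p.coeff j) * a ^ j) <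
        V.valuation (algebraMap k Ω (p.coeff i) * a ^ i) := by
      intro j hj
      rw [Finset.mem_erase] at hj
      exact lt_of_le_of_ne (hmax j hj.2) (hcon j hj.2 hj.1)
    have hg : V.valuation (algebraMap k Ω (p.coeff i) * a ^ i) ≠ 0 :=
      (Valuation.ne_zero_iff _).2 (hne i hi)
    have h2 := Valuation.map_sum_lt V.valuation hg hlt
    rw [← Finset.add_sum_erase p.support _ hi] at hsum
    have h3 : ∑ j ∈ p.support.erase i, algebraMap k Ω (p.coeff j) * a ^ j =
        -(algebraMap k Ω (p.coeff i) * a ^ i) := eq_neg_of_add_eq_zero_right hsum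
    rw [h3, Valuation.map_neg] at h2
    exact lt_irrefl _ h2
  obtain ⟨j, hj, hji, hval⟩ := hex
  have key : ∀ i j : ℕ, i ∈ p.support → j ∈ p.support → j < i →
      V.valuation (algebraMap k Ω (p.coeff j) * a ^ j) = V.valuation (algebraMap k Ω (p.coeff i) * a ^ i) →
      ∃ (m : ℕ) (b : k), 0 < m ∧ b ≠ 0 ∧ V.valuation a ^ m = V.valuation (algebraMap k Ω b) := by
    intro i j hi hj hlt hv
    have hci := Polynomial.mem_support_iff.1 hi
    have hcj := Polynomial.mem_support_iff.1 hj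
    refine ⟨i - j, p.coeff j / p.coeff i, Nat.sub_pos_of_lt hlt, div_ne_zero hcj hci, ?_⟩
    have hva : V.valuation a ≠ 0 := (Valuation.ne_zero_iff _).2 ha
    have hvi : V.valuation (algebraMap k Ω (p.coeff i)) ≠ 0 := by
      refine (Valuation.ne_zero_iff _).2 ?_
      rw [Ne, FaithfulSMul.algebraMap_eq_zero_iff]
      exact hci
    rw [map_mul, map_mul, map_pow, map_pow] at hv
    rw [map_div₀, map_div₀, eq_div_iff hvi]
    apply mul_right_cancel₀ (pow_ne_zero j hva)
    rw [hv, mul_comm (V.valuation a ^ (i - j)), mul_assoc, ← pow_add, Nat.sub_add_cancel hlt.le]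
  rcases lt_or_gt_of_ne hji with h | h
  · exact key i j hi hj h hval
  · exact key j i hj hi h hval.symm

/-- Chunk QB1B (S). From val_pow for a (if a ≠ 0) and for c: V(a)^m = V(b), V(b) < 1, V(c)^m' = V(c'), V₀(b)^n < V₀(c'), so V(a)^(m n) < V(c)^m' ≤ ... : if V(c) ≤ 1 then V(a)^(m n) < V(c)^m' gives V(a)^(m n m') < V(c)^m' .. use V(a)^(m n) < V(c)^m' ≤ V(c) if V(c) ≤ 1 (m' ≥ 1); if V(c) > 1 take n = 0 or 1. -/
theorem arch_ext [Algebra.IsAlgebraic k Ω] {V₀ : ValuationSubring k} {V : ValuationSubring Ω}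
    (h : ∀ x : k, algebraMap k Ω x ∈ V ↔ x ∈ V₀) (hA : Arch V₀) : Arch V := by
  intro a c ha hc
  by_cases ha0 : a = 0
  · refine ⟨1, ?_⟩
    rw [ha0, map_zero, pow_one]
    exact zero_lt_iff.2 ((Valuation.ne_zero_iff _).2 hc)
  obtain ⟨m, b, hm, hb, hmb⟩ := val_pow (k := k) V ha0
  obtain ⟨m', c', hm', hc', hmc⟩ := val_pow (k := k) V hc
  have hb1 : V₀.valuation b < 1 := by
    have h1 := (ext_val h b 1).2.1
    rw [map_one, map_one, map_one] at h1
    apply h1
    rw [← hmb]
    exact pow_lt_one₀ zero_le ha hm.ne'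
  obtain ⟨n, hn⟩ := hA b c' hb1 hc'
  have h2 : V.valuation a ^ (m * n) < V.valuation c ^ m' := by
    rw [pow_mul, hmb, hmc, ← map_pow, ← map_pow]
    apply (ext_val h (b ^ n) c').2.2
    rw [map_pow]
    exact hn
  by_cases h3 : V.valuation c ≤ 1
  · exact ⟨m * n, lt_of_lt_of_le h2 (pow_le_of_le_one zero_le h3 hm'.ne')⟩
  · refine ⟨0, ?_⟩
    rw [pow_zero]
    exact not_le.1 h3

end H55K.TQ
end

-- from Lib.H55K.QE1
section

/-! # H55K: a good model over the base field from a rational point -/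

open NumberField IsDedekindDomain WeierstrassCurve

namespace H55K.TQ

open H55P (IQ embF eF LF Per IsHecke Pt ac Inert Dec Nm UnitP)
open H35P (WAB Ker tt GoodW IntW)
open H55K.MG (VC Crd)

variable {k : Type} [Field k] {Ω : Type} [Field Ω] [Algebra k Ω] {W : WeierstrassCurve k} {V : ValuationSubring Ω}
  {W' : WeierstrassCurve Ω} {u r s t : Ω}

theorem qe1_neg [DecidableEq Ω] {W' : WeierstrassCurve Ω} (Q : W'.toAffine.Point) (hQ : Q ≠ 0) :
    xc (-Q) = xc Q ∧ yc (-Q) = W'.toAffine.negY (xc Q) (yc Q) := by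
  rcases Q with _ | ⟨x, y, h⟩
  · exact absurd rfl hQ
  · rw [Affine.Point.neg_some]
    exact ⟨rfl, rfl⟩

/-- Chunk QE1 (M). A point P over k with P, 2P, 3P, 4P outside the kernel of reduction of the good model W' over Ω gives a good model over k. Write P = (x, y), 2P = (x₂, y₂) (both nonzero) over k, P' = φ P. Put u₀ = (y₂ - negY x₂ y₂)/(x - x₂), r₀ = x, s₀ = slope of the line through P and 2P, t₀ = y, all in k (x ≠ x₂ because the x-coordinates on W' differ
by a unit). Over Ω: Θ P' = (x', y'), Θ(2P') = (x₂', y₂') integral (not Ker: MG.int_crd), x = u^2 x' + r, ... (Crd), δ = x' - x₂' is a unit (MG.unit_diff for ΘP', 2ΘP': their difference and sum are ∓ΘP', 3ΘP', not in Ker), η = y₂' - negY' x₂' y₂' is a unit (MG.cong_ker: otherwise 2ΘP' and -2ΘP' are congruent and 4ΘP' is in Ker;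
they have the same x-coordinate), λ = slope of W' through ΘP', 2ΘP' = (y' - y₂')/δ is integral. vc_negY, vc_slope (M1A.lean): y₂ - negY x₂ y₂ = u^3 η, x - x₂ = u^2 δ, so u₀ = u e with e = η/δ a unit; s₀ = u λ + s; r₀ = u^2 x' + r, t₀ = u^3 y' + s u^2 x' + t. So (vc_comp) the change (u₀, r₀, s₀, t₀) of W over Ω is the composition of (u, r, s, t)
with (e, x', λ, y') on W'. W'' over k from vc_ex; its base change is (vc_uniq, vc_map) the curve obtained from W' by (e, x', λ, y') (vc_ex), which is good by vc_good. -/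
theorem rat_model [DecidableEq k] [DecidableEq Ω] (hv : VC (W⁄Ω) W' u r s t) (hG : GoodW W' V)
    {Θ : Pt W Ω ≃+ W'.toAffine.Point} (hc : Crd u r s t Θ) {φ : W.toAffine.Point →+ Pt W Ω} (hφ : Inc W φ)
    (P : W.toAffine.Point) (h1 : ¬ Ker V (Θ (φ P))) (h2 : ¬ Ker V (Θ (φ (2 • P)))) (h3 : ¬ Ker V (Θ (φ (3 • P))))
    (h4 : ¬ Ker V (Θ (φ (4 • P)))) :
    ∃ (W'' : WeierstrassCurve k) (u r s t : k), VC W W'' u r s t ∧ GoodW (W''⁄Ω) V := by
  set Q := Θ (φ P) with hQ
  have hQ2 : Θ (φ (2 • P)) = 2 • Q := by rw [map_nsmul, map_nsmul]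
  have hQ3 : Θ (φ (3 • P)) = 3 • Q := by rw [map_nsmul, map_nsmul]
  have hQ4 : Θ (φ (4 • P)) = 4 • Q := by rw [map_nsmul, map_nsmul]
  have hne : ∀ R : W.toAffine.Point, ¬ Ker V (Θ (φ R)) → R ≠ 0 := by
    rintro R hR rfl
    apply hR
    rw [map_zero, map_zero]
    exact trivial
  have hP0 := hne P h1
  have hP20 := hne _ h2
  obtain ⟨hφ1, hx1, hy1⟩ := hφ P hP0
  obtain ⟨hφ2, hx2, hy2⟩ := hφ _ hP20
  obtain ⟨hΘ1, hX1, hY1⟩ := hc _ hφ1
  obtain ⟨hΘ2, hX2, hY2⟩ := hc _ hφ2
  obtain ⟨-, ix1, iy1⟩ := MG.int_crd hG h1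
  obtain ⟨-, ix2, iy2⟩ := MG.int_crd hG h2
  rw [hx1] at hX1
  rw [hy1] at hY1
  rw [hx2] at hX2
  rw [hy2] at hY2
  rw [← hQ] at hX1 hY1
  rw [hQ2] at hX2 hY2 h2 ix2 iy2 hΘ2
  rw [hQ3] at h3
  rw [hQ4] at h4
  have hu := hv.une
  have hδ : V.valuation (xc Q - xc (2 • Q)) = 1 := by
    apply MG.unit_diff hG h1 h2
    · have e : Q - 2 • Q = -Q := by
        rw [two_nsmul]
        abel
      rw [e]
      exact fun hk => h1 ((H35P.ker_neg Q).1 hk)
    · have e : Q + 2 • Q = 3 • Q := by
        rw [two_nsmul, show (3 : ℕ) = 1 + 1 + 1 from rfl, add_nsmul, add_nsmul, one_nsmul]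
        abel
      rw [e]
      exact h3
  obtain ⟨en1, en2⟩ := qe1_neg (2 • Q) hΘ2
  have hnegV : W'.toAffine.negY (xc (2 • Q)) (yc (2 • Q)) ∈ V := by
    have h5 : ¬ Ker V (-(2 • Q)) := fun hk => h2 ((H35P.ker_neg _).1 hk)
    have h6 := (MG.int_crd hG h5).2.2
    rwa [en2] at h6
  have hη : V.valuation (yc (2 • Q) - W'.toAffine.negY (xc (2 • Q)) (yc (2 • Q))) = 1 := by
    refine le_antisymm ((V.valuation_le_one_iff _).2 (sub_mem iy2 hnegV)) (not_lt.1 fun hlt => ?_)
    apply h4
    have h5 : ¬ Ker V (-(2 • Q)) := fun hk => h2 ((H35P.ker_neg _).1 hk)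
    have h6 := MG.cong_ker hG h2 h5 (by
      rw [en1, sub_self, map_zero]
      exact zero_lt_one) (by
      rw [en2]
      exact hlt)
    have e : (2 : ℕ) • Q - -((2 : ℕ) • Q) = (4 : ℕ) • Q := by
      rw [sub_neg_eq_add, ← add_nsmul]
    rwa [e] at h6
  set x' := xc Q with hx'
  set y' := yc Q with hy'
  set x₂ := xc (2 • Q) with hx₂
  set y₂ := yc (2 • Q) with hy₂
  set δ := x' - x₂ with hδd
  set η := y₂ - W'.toAffine.negY x₂ y₂ with hηd
  have hδ0 : δ ≠ 0 := by
    intro h0
    rw [h0, map_zero] at hδ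
    exact zero_ne_one hδ
  have hη0 : η ≠ 0 := by
    intro h0
    rw [h0, map_zero] at hη
    exact zero_ne_one hη
  set X := xc P with hXd
  set Y := yc P with hYd
  set X₂ := xc (2 • P) with hX₂d
  set Y₂ := yc (2 • P) with hY₂d
  have hdiff : algebraMap k Ω (X - X₂) = u ^ 2 * δ := by
    rw [map_sub, hX1, hX2, hδd]
    ring
  have hdiff0 : X - X₂ ≠ 0 := by
    intro h0
    rw [h0, map_zero] at hdiff
    exact mul_ne_zero (pow_ne_zero 2 hu) hδ0 hdiff.symm
  have hneg : algebraMap k Ω (Y₂ - W.toAffine.negY X₂ Y₂) = u ^ 3 * η := by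
    have e1 : algebraMap k Ω (W.toAffine.negY X₂ Y₂) =
        (W⁄Ω).toAffine.negY (algebraMap k Ω X₂) (algebraMap k Ω Y₂) := by
      unfold Affine.negY
      rw [map_sub, map_sub, map_neg, map_mul]
      rfl
    rw [map_sub, e1, hX2, hY2, MG.vc_negY hv, hηd]
    ring
  have hneg0 : Y₂ - W.toAffine.negY X₂ Y₂ ≠ 0 := by
    intro h0
    rw [h0, map_zero] at hneg
    exact mul_ne_zero (pow_ne_zero 3 hu) hη0 hneg.symm
  have hyd : algebraMap k Ω (Y - Y₂) = u ^ 3 * (y' - y₂) + s * u ^ 2 * δ := by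
    rw [map_sub, hY1, hY2, hδd]
    ring
  obtain ⟨W'', hW''⟩ := vc_ex W (u := (Y₂ - W.toAffine.negY X₂ Y₂) / (X - X₂)) (div_ne_zero hneg0 hdiff0) X
    ((Y - Y₂) / (X - X₂)) Y
  obtain ⟨W₃, hW₃⟩ := vc_ex W' (u := η / δ) (div_ne_zero hη0 hδ0) x' ((y' - y₂) / δ) y'
  have hcomp := vc_comp hv hW₃
  have hmap := vc_map (algebraMap k Ω) hW''
  have eu : algebraMap k Ω ((Y₂ - W.toAffine.negY X₂ Y₂) / (X - X₂)) = u * (η / δ) := by
    rw [map_div₀, hdiff, hneg]
    field_simp
  have es : algebraMap k Ω ((Y - Y₂) / (X - X₂)) = u * ((y' - y₂) / δ) + s := by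
    rw [map_div₀, hdiff, hyd]
    field_simp
  rw [eu, es, hX1, hY1] at hmap
  have heq : W''.map (algebraMap k Ω) = W₃ := vc_uniq hmap hcomp
  refine ⟨W'', _, _, _, _, hW'', ?_⟩
  have hgood : GoodW W₃ V := by
    refine vc_good hW₃ hG ?_ ix1 ?_ iy1
    · rw [map_div₀, hη, hδ, div_one]
    · rw [← V.valuation_le_one_iff, map_div₀, hδ, div_one]
      exact (V.valuation_le_one_iff _).2 (sub_mem iy1 iy2)
  show GoodW (W''.map (algebraMap k Ω)) V
  rw [heq]
  exact hgood

end H55K.TQ
end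

-- from Lib.H55K.T9B
section

/-! # H55K: good reduction over a subfield and valuation rings of the algebraic closure -/

open NumberField IsDedekindDomain WeierstrassCurve

namespace H55K.TQ

open H55P (IQ embF eF LF Per IsHecke Pt ac Inert Dec Nm UnitP)
open H35P (WAB Ker tt GoodW IntW)
open H55K.MG (VC Crd)

section

variable {M : Type} [Field M] [NumberField M] {Ω : Type} [Field Ω] [Algebra M Ω]

/-- The integers of M have valuation at most one. -/
theorem t9b_int (V : ValuationSubring Ω) (e : 𝓞 M) : V.valuation (algebraMap M Ω (e : M)) ≤ 1 := by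
  rw [ValuationSubring.valuation_le_one_iff]
  have h1 : IsIntegral ℤ (e : M) := e.isIntegral_coe
  have h2 : IsIntegral ℤ (algebraMap M Ω (e : M)) := h1.map (algebraMap M Ω).toIntAlgHom
  have h3 : IsIntegral V (algebraMap M Ω (e : M)) := h2.tower_top
  obtain ⟨y, hy⟩ := IsIntegrallyClosed.isIntegral_iff.mp h3
  have h4 : ((y : V) : Ω) = algebraMap M Ω (e : M) := hy
  rw [← h4]
  exact y.2

/-- The elements outside w are units. -/
theorem t9b_unit {w : HeightOneSpectrum (𝓞 M)} {V : ValuationSubring Ω}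
    (hV : ∀ a : 𝓞 M, a ∈ w.asIdeal → V.valuation (algebraMap M Ω (a : M)) < 1) {d : 𝓞 M}
    (hd : d ∉ w.asIdeal) : V.valuation (algebraMap M Ω (d : M)) = 1 := by
  apply le_antisymm (t9b_int V d)
  by_contra hlt
  push Not at hlt
  have hmax : w.asIdeal.IsMaximal := w.isMaximal
  obtain ⟨e, i, hi, he⟩ := hmax.exists_inv hd
  have h5 : algebraMap M Ω (e : M) * algebraMap M Ω (d : M) + algebraMap M Ω (i : M) = 1 := by
    have h6 := congrArg (fun z : 𝓞 M => algebraMap M Ω (z : M)) he
    simp only [map_mul, map_add, map_one] at h6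
    exact h6
  have h7 : V.valuation (algebraMap M Ω (e : M) * algebraMap M Ω (d : M) +
      algebraMap M Ω (i : M)) < 1 := by
    refine lt_of_le_of_lt (V.valuation.map_add _ _) (max_lt ?_ (hV i hi))
    rw [map_mul]
    exact lt_of_le_of_lt (mul_le_of_le_one_left' (t9b_int V e)) hlt
  rw [h5, map_one] at h7
  exact lt_irrefl _ h7

/-- The w-integral elements are in V. -/
theorem t9b_le {w : HeightOneSpectrum (𝓞 M)} {V : ValuationSubring Ω}
    (hV : ∀ a : 𝓞 M, a ∈ w.asIdeal → V.valuation (algebraMap M Ω (a : M)) < 1) {x : M}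
    (hx : w.valuation M x ≤ 1) : V.valuation (algebraMap M Ω x) ≤ 1 := by
  obtain ⟨n, ⟨d, hd⟩, h | h⟩ := w.exists_primeCompl_mul_eq_or_mul_eq (K := M) x
  · have h1 : V.valuation (algebraMap M Ω x) * V.valuation (algebraMap M Ω (d : M)) =
        V.valuation (algebraMap M Ω (n : M)) := by
      rw [← map_mul, ← map_mul]
      exact congrArg (fun z => V.valuation (algebraMap M Ω z)) h
    rw [t9b_unit hV hd, mul_one] at h1
    rw [h1]
    exact t9b_int V n
  · have h1 : w.valuation M x * w.valuation M (algebraMap (𝓞 M) M n) = w.valuation M (algebraMap (𝓞 M) M d) := by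
      rw [← map_mul]
      exact congrArg _ h
    rw [(w.valuation_eq_one_iff_notMem (K := M)).mpr hd] at h1
    have hn : n ∉ w.asIdeal := by
      intro hn
      have h2 : w.valuation M (algebraMap (𝓞 M) M n) < 1 := (w.valuation_lt_one_iff_mem n).2 hn
      exact absurd h1 (lt_of_le_of_lt (mul_le_of_le_one_left' hx) h2).ne
    have h3 : V.valuation (algebraMap M Ω x) * V.valuation (algebraMap M Ω (n : M)) =
        V.valuation (algebraMap M Ω (d : M)) := by
      rw [← map_mul, ← map_mul]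
      exact congrArg (fun z => V.valuation (algebraMap M Ω z)) h
    rw [t9b_unit hV hn, t9b_unit hV hd, mul_one] at h3
    rw [h3]

/-- The w-units are units of V. -/
theorem t9b_eq {w : HeightOneSpectrum (𝓞 M)} {V : ValuationSubring Ω}
    (hV : ∀ a : 𝓞 M, a ∈ w.asIdeal → V.valuation (algebraMap M Ω (a : M)) < 1) {x : M}
    (hx : w.valuation M x = 1) : V.valuation (algebraMap M Ω x) = 1 := by
  apply le_antisymm (t9b_le hV hx.le)
  have h1 : w.valuation M x⁻¹ ≤ 1 := by
    rw [map_inv₀, hx, inv_one]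
  have h2 := t9b_le hV h1
  rw [map_inv₀, map_inv₀] at h2
  have hx0 : x ≠ 0 := by
    rintro rfl
    rw [map_zero] at hx
    exact zero_ne_one hx
  by_contra h3
  push Not at h3
  have h4 : V.valuation (algebraMap M Ω x) ≠ 0 := by
    intro h0
    rw [Valuation.zero_iff, map_eq_zero] at h0
    exact hx0 h0
  exact absurd h2 (not_le.mpr ((one_lt_inv₀ (zero_lt_iff.mpr h4)).mpr h3))

end

/-- Chunk T9B (M). GoodAt: C over M (vc_smul); composition with vc_short over Ω (vc_map, vc_comp; the numbers are in M). The curve C • ((W₀⁄F)⁄M) has w-integral coefficients; V contains the w-integral elements of M: x = a/b with a, b in 𝓞 M, b not in w (V(b) = 1: V(a) ≤ 1 for integers; b c - 1 in w for some c), discriminant: a w-unit x and 1/x. -/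
theorem gmd_of_good {F : Type} [Field F] [NumberField F] {Ω : Type} [Field Ω] [Algebra F Ω]
    (W₀ : WeierstrassCurve (𝓞 F)) {A B : F} (hA : A = -(algebraMap (𝓞 F) F W₀.c₄) / 48)
    (hB : B = -(algebraMap (𝓞 F) F W₀.c₆) / 864) {M : IntermediateField F Ω} [NumberField M]
    (w : HeightOneSpectrum (𝓞 M)) {V : ValuationSubring Ω}
    (hV : ∀ a : 𝓞 M, a ∈ w.asIdeal → V.valuation ((a : M) : Ω) < 1) (h : GoodAt ((W₀⁄F)⁄M) w) :
    GMd ((WAB A B)⁄Ω) V (M : Set Ω) := by
  obtain ⟨C, h1, h2, h3, h4, h6, hd⟩ := h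
  obtain ⟨r₀, s₀, t₀, hs⟩ := vc_short W₀ hA hB
  have hs' := vc_map (algebraMap F Ω) hs
  have hC := vc_map (algebraMap M Ω) (vc_smul ((W₀⁄F)⁄M) C)
  have hmm : ((W₀⁄F)⁄M).map (algebraMap M Ω) = (W₀⁄F).map (algebraMap F Ω) := by
    rw [IsScalarTower.algebraMap_eq F M Ω, ← WeierstrassCurve.map_map]
    rfl
  rw [hmm] at hC
  have hcomp := vc_comp hs' hC
  have hmF : ∀ x : F, algebraMap F Ω x ∈ M := fun x => M.algebraMap_mem x
  have hmM : ∀ x : M, algebraMap M Ω x ∈ M := fun x => x.2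
  have hV' : ∀ a : 𝓞 M, a ∈ w.asIdeal → V.valuation (algebraMap M Ω (a : M)) < 1 := hV
  refine ⟨_, _, _, _, _, ?_, ?_, ?_, ?_, hcomp, ?_⟩
  · exact M.mul_mem (hmF 1) (hmM _)
  · exact M.add_mem (M.mul_mem (pow_mem (hmF 1) 2) (hmM _)) (hmF _)
  · exact M.add_mem (M.mul_mem (hmF 1) (hmM _)) (hmF _)
  · exact M.add_mem (M.add_mem (M.mul_mem (pow_mem (hmF 1) 3) (hmM _))
      (M.mul_mem (M.mul_mem (hmF _) (pow_mem (hmF 1) 2)) (hmM _))) (hmF _)
  · refine ⟨⟨?_, ?_, ?_, ?_, ?_⟩, ?_⟩
    · exact (V.valuation_le_one_iff _).1 (t9b_le hV' h1)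
    · exact (V.valuation_le_one_iff _).1 (t9b_le hV' h2)
    · exact (V.valuation_le_one_iff _).1 (t9b_le hV' h3)
    · exact (V.valuation_le_one_iff _).1 (t9b_le hV' h4)
    · exact (V.valuation_le_one_iff _).1 (t9b_le hV' h6)
    · rw [WeierstrassCurve.map_Δ]
      exact t9b_eq hV' hd

end H55K.TQ
end

-- from Lib.H55K.T9C
section

/-! # H55K: good reduction over a subfield and valuation rings of the algebraic closure -/

open NumberField IsDedekindDomain WeierstrassCurve

namespace H55K.TQ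

open H55P (IQ embF eF LF Per IsHecke Pt ac Inert Dec Nm UnitP)
open H35P (WAB Ker tt GoodW IntW)
open H55K.MG (VC Crd)

/-- Integers of F have valuation at most one at every valuation ring of an extension. -/
theorem t9c_int {F : Type} [Field F] [NumberField F] {Ω : Type} [Field Ω] [Algebra F Ω] (V : ValuationSubring Ω)
    (e : 𝓞 F) : V.valuation (ak Ω e) ≤ 1 := by
  rw [ValuationSubring.valuation_le_one_iff]
  have h1 : IsIntegral ℤ (e : F) := e.isIntegral_coe
  have h2 : IsIntegral ℤ (algebraMap F Ω (e : F)) := h1.map (algebraMap F Ω).toIntAlgHom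
  have h3 : IsIntegral V (algebraMap F Ω (e : F)) := h2.tower_top
  obtain ⟨y, hy⟩ := IsIntegrallyClosed.isIntegral_iff.mp h3
  have h4 : ((y : V) : Ω) = ak Ω e := hy
  rw [← h4]
  exact y.2

/-- An element of F with valuation at most one at V is v-integral. -/
theorem t9c_le {F : Type} [Field F] [NumberField F] {Ω : Type} [Field Ω] [Algebra F Ω]
    (v : HeightOneSpectrum (𝓞 F)) {V : ValuationSubring Ω}
    (hV : ∀ a : 𝓞 F, a ∈ v.asIdeal → V.valuation (ak Ω a) < 1) {x : F}
    (hx : V.valuation (algebraMap F Ω x) ≤ 1) : v.valuation F x ≤ 1 := by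
  by_contra hlt
  push Not at hlt
  obtain ⟨n, ⟨d, hd⟩, h | h⟩ := v.exists_primeCompl_mul_eq_or_mul_eq (K := F) x
  · have h1 : v.valuation F x * v.valuation F (algebraMap (𝓞 F) F d) = v.valuation F (algebraMap (𝓞 F) F n) := by
      rw [← map_mul]
      exact congrArg _ h
    rw [(v.valuation_eq_one_iff_notMem (K := F)).mpr hd, mul_one] at h1
    rw [h1] at hlt
    exact absurd (v.valuation_le_one n) (not_le.mpr hlt)
  · have h1 : v.valuation F x * v.valuation F (algebraMap (𝓞 F) F n) = v.valuation F (algebraMap (𝓞 F) F d) := by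
      rw [← map_mul]
      exact congrArg _ h
    rw [(v.valuation_eq_one_iff_notMem (K := F)).mpr hd] at h1
    have hn : n ∈ v.asIdeal := by
      by_contra hn
      rw [(v.valuation_eq_one_iff_notMem (K := F)).mpr hn, mul_one] at h1
      exact absurd h1 (ne_of_gt hlt)
    have h2 : V.valuation (ak Ω d) < 1 := by
      have h3 : algebraMap F Ω x * ak Ω n = ak Ω d := by
        have h4 := congrArg (algebraMap F Ω) h
        rw [map_mul] at h4
        exact h4
      rw [← h3, map_mul]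
      exact lt_of_le_of_lt (mul_le_of_le_one_left' hx) (hV n hn)
    have hmax : v.asIdeal.IsMaximal := v.isMaximal
    have hd' : d ∉ v.asIdeal := hd
    obtain ⟨e, i, hi, he⟩ := hmax.exists_inv hd'
    have h5 : ak Ω e * ak Ω d + ak Ω i = 1 := by
      have h6 := congrArg (fun z : 𝓞 F => ak Ω z) he
      simp only [ak, map_mul, map_add, map_one] at h6 ⊢
      exact h6
    have h7 : V.valuation (ak Ω e * ak Ω d + ak Ω i) < 1 := by
      refine lt_of_le_of_lt (V.valuation.map_add _ _) (max_lt ?_ (hV i hi))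
      rw [map_mul]
      exact lt_of_le_of_lt (mul_le_of_le_one_left' (t9c_int V e)) h2
    rw [h5, map_one] at h7
    exact lt_irrefl _ h7

/-- An element of F with valuation one at V has v-adic valuation one. -/
theorem t9c_eq {F : Type} [Field F] [NumberField F] {Ω : Type} [Field Ω] [Algebra F Ω]
    (v : HeightOneSpectrum (𝓞 F)) {V : ValuationSubring Ω}
    (hV : ∀ a : 𝓞 F, a ∈ v.asIdeal → V.valuation (ak Ω a) < 1) {x : F}
    (hx : V.valuation (algebraMap F Ω x) = 1) : v.valuation F x = 1 := by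
  apply le_antisymm (t9c_le v hV hx.le)
  have h1 : V.valuation (algebraMap F Ω x⁻¹) ≤ 1 := by
    rw [map_inv₀, map_inv₀, hx, inv_one]
  have h2 := t9c_le v hV h1
  rw [map_inv₀] at h2
  by_contra h3
  push Not at h3
  have h4 : v.valuation F x ≠ 0 := by
    intro h0
    rw [Valuation.zero_iff] at h0
    rw [h0, map_zero, map_zero] at hx
    exact zero_ne_one hx
  exact absurd h2 (not_le.mpr ((one_lt_inv₀ (zero_lt_iff.mpr h4)).mpr h3))

/-- Chunk T9C (M). VC (W₀⁄F) (W'') over F (vc_short, vc_inv, vc_comp); a change of variables in the sense of VC is given by the VariableChange with the same u, r, s, t: C • (W₀⁄F) = W'' (vc_smul, vc_uniq). x in F with V(x) ≤ 1 is v-integral: if v.valuation x > 1 then 1/x = a/b, a in v, b not in v, V(1/x) < 1. -/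
theorem good_of_V {F : Type} [Field F] [NumberField F] {Ω : Type} [Field Ω] [Algebra F Ω]
    (W₀ : WeierstrassCurve (𝓞 F)) {A B : F} (hA : A = -(algebraMap (𝓞 F) F W₀.c₄) / 48)
    (hB : B = -(algebraMap (𝓞 F) F W₀.c₆) / 864) (v : HeightOneSpectrum (𝓞 F)) {V : ValuationSubring Ω}
    (hV : ∀ a : 𝓞 F, a ∈ v.asIdeal → V.valuation (ak Ω a) < 1)
    (h : ∃ (W'' : WeierstrassCurve F) (u r s t : F), VC (WAB A B) W'' u r s t ∧ GoodW (W''⁄Ω) V) :
    GoodAt (W₀⁄F) v := by
  obtain ⟨W'', u, r, s, t, hvc, hg⟩ := h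
  obtain ⟨r₀, s₀, t₀, h₀⟩ := vc_short W₀ hA hB
  obtain ⟨U, R, S, T, h1⟩ : ∃ U R S T : F, VC (W₀⁄F) W'' U R S T :=
    ⟨_, _, _, _, vc_comp (vc_inv h₀) hvc⟩
  have h3 : (⟨Units.mk0 U h1.une, R, S, T⟩ : VariableChange F) • (W₀⁄F) = W'' :=
    vc_uniq (vc_smul (W₀⁄F) ⟨Units.mk0 U h1.une, R, S, T⟩) h1
  refine ⟨⟨Units.mk0 U h1.une, R, S, T⟩, ?_⟩
  · rw [h3]
    refine ⟨?_, ?_, ?_, ?_, ?_, ?_⟩
    · exact t9c_le v hV (((ValuationSubring.valuation_le_one_iff V _).mpr hg.a1))
    · exact t9c_le v hV (((ValuationSubring.valuation_le_one_iff V _).mpr hg.a2))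
    · exact t9c_le v hV (((ValuationSubring.valuation_le_one_iff V _).mpr hg.a3))
    · exact t9c_le v hV (((ValuationSubring.valuation_le_one_iff V _).mpr hg.a4))
    · exact t9c_le v hV (((ValuationSubring.valuation_le_one_iff V _).mpr hg.a6))
    · apply t9c_eq v hV
      have h4 := hg.disc
      have h5 : (W''⁄Ω).Δ = algebraMap F Ω W''.Δ := W''.map_Δ (algebraMap F Ω)
      rw [h5] at h4
      exact h4

end H55K.TQ
end

-- from Lib.H55K.QE2B
section

/-! # H55K: the parameter x/y is additive modulo squares -/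

open NumberField IsDedekindDomain WeierstrassCurve

namespace H55K.TQ

open H55P (IQ embF eF LF Per IsHecke Pt ac Inert Dec Nm UnitP)
open H35P (WAB Ker tt GoodW IntW)
open H55K.MG (VC Crd)

variable {k : Type} [Field k] [DecidableEq k] {W : WeierstrassCurve k} {V : ValuationSubring k}

/-- Chunk QE2B (S/M). Induction on n: V(tt (n • T) - n * tt T) ≤ c^2 for c = V(tt T) (tt_add2g for n • T and T with this c: V(tt (n • T)) ≤ c). H35P.FG_ind for the style. -/
theorem tt_smul (hI : IntW W V) {T : W.toAffine.Point} (hT : Ker V T) (n : ℕ) : Ker V (n • T) ∧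
    V.valuation (tt (n • T) - n * tt T) ≤ V.valuation (tt T) ^ 2 := by
  have h1 := H35P.tt_lt hI T hT
  have hcc : V.valuation (tt T) ^ 2 ≤ V.valuation (tt T) := by
    rw [sq]
    exact mul_le_of_le_one_left' h1.le
  induction n with
  | zero =>
    refine ⟨?_, ?_⟩
    · rw [zero_smul]
      exact True.intro
    · rw [zero_smul, H35P.FG_zero, Nat.cast_zero, zero_mul, sub_zero, map_zero]
      exact zero_le'
  | succ n ih =>
    obtain ⟨hk, hv⟩ := ih
    have hc : V.valuation (tt (n • T)) ≤ V.valuation (tt T) := by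
      have e : tt (n • T) = (tt (n • T) - n * tt T) + n * tt T := by ring
      rw [e]
      refine (Valuation.map_add _ _ _).trans (max_le (hv.trans hcc) ?_)
      rw [map_mul]
      exact mul_le_of_le_one_left' (H35P.FG_nat n)
    rw [succ_nsmul]
    refine ⟨H35P.ker_add hI _ _ hk hT, ?_⟩
    have h2 := tt_add2g hI (n • T) T hk hT (V.valuation (tt T)) h1.le hc le_rfl
    have e : tt (n • T + T) - ((n + 1 : ℕ) : k) * tt T =
        (tt (n • T + T) - tt (n • T) - tt T) + (tt (n • T) - n * tt T) := by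
      rw [Nat.cast_add, Nat.cast_one]
      ring
    rw [e]
    exact (Valuation.map_add _ _ _).trans (max_le h2 hv)

/-- Chunk QE2B (S/M). μ = max (V q) (V (tt T)) < 1 is the value of an element; V(tt (q • T')) ≤ μ V(tt T') for all multiples T' = q^i • T (V(tt T') ≤ V(tt T)); induction: V(tt (q^n • T)) ≤ μ^n V(tt T) ≤ μ^n; Arch. -/
theorem tt_small (hI : IntW W V) (hA : Arch V) {T : W.toAffine.Point} (hT : Ker V T) {q : ℕ}
    (hq : V.valuation (q : k) < 1) {c : k} (hc : c ≠ 0) : ∃ n : ℕ, V.valuation (tt (q ^ n • T)) < V.valuation c := by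
  have h1 := H35P.tt_lt hI T hT
  obtain ⟨b, hb1, hb2, hb3⟩ : ∃ b : k, V.valuation b < 1 ∧ V.valuation (q : k) ≤ V.valuation b ∧
      V.valuation (tt T) ≤ V.valuation b := by
    rcases le_total (V.valuation (q : k)) (V.valuation (tt T)) with h | h
    · exact ⟨tt T, h1, h, le_rfl⟩
    · exact ⟨(q : k), hq, le_rfl, h⟩
  have key : ∀ n : ℕ, Ker V (q ^ n • T) ∧ V.valuation (tt (q ^ n • T)) ≤ V.valuation (tt T) ∧
      V.valuation (tt (q ^ n • T)) ≤ V.valuation b ^ n := by
    intro n
    induction n with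
    | zero =>
      rw [pow_zero, one_smul, pow_zero]
      exact ⟨hT, le_rfl, h1.le⟩
    | succ n ih =>
      obtain ⟨i1, i2, i3⟩ := ih
      rw [pow_succ', mul_smul]
      obtain ⟨j1, j2⟩ := tt_smul hI i1 q
      have j3 : V.valuation (tt (q • q ^ n • T)) ≤ V.valuation b * V.valuation (tt (q ^ n • T)) := by
        have e : tt (q • q ^ n • T) = (tt (q • q ^ n • T) - q * tt (q ^ n • T)) + q * tt (q ^ n • T) := by ring
        rw [e]
        refine (Valuation.map_add _ _ _).trans (max_le (j2.trans ?_) ?_)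
        · rw [sq]
          exact mul_le_mul_left (i2.trans hb3) _
        · rw [map_mul]
          exact mul_le_mul_left hb2 _
      refine ⟨j1, (j3.trans (mul_le_of_le_one_left' hb1.le)).trans i2, ?_⟩
      rw [pow_succ']
      exact j3.trans (mul_le_mul_right i3 _)
  obtain ⟨n, hn⟩ := hA b c hb1 hc
  exact ⟨n, (key n).2.2.trans_lt hn⟩

end H55K.TQ
end

-- from Lib.H55K.QE3
section

/-! # H55K: rational points in the kernel of reduction of the good model -/

open NumberField IsDedekindDomain WeierstrassCurve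

namespace H55K.TQ

open H55P (IQ embF eF LF Per IsHecke Pt ac Inert Dec Nm UnitP)
open H35P (WAB Ker tt GoodW IntW)
open H55K.MG (VC Crd)

variable {k : Type} [Field k] {Ω : Type} [Field Ω] [Algebra k Ω] {W : WeierstrassCurve k} {V : ValuationSubring Ω}
  {W' : WeierstrassCurve Ω} {u r s t : Ω}

theorem qe3_sq [DecidableEq Ω] (hI : IntW W' V) {T : W'.toAffine.Point} (hT : Ker V T) (h0 : T ≠ 0) :
    V.valuation (tt T) ^ 2 * V.valuation (xc T) = 1 := by
  rcases T with _ | ⟨x, y, h⟩
  · exact absurd rfl h0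
  · exact H35P.tt_sq hI h hT

/-- Chunk QE3 (M). R' = Θ (φ R) is in Ker V. q^n • R' for n from tt_small with c ≠ 0 such that V(c) ≤ 1, V(u)^2 V(c)^-2 > max 1 V(r): take c with V(c)^2 < V(u)^2 and V(c)^2 V(r) < V(u)^2, V(c) ≤ 1 (for example c = u * c' with V(c') < 1 small by Arch of powers of q, or c = q^N: V(q)^N small). Then for S = q^n • R ≠ 0: X' = xc (Θ (φ S)), V(X') = V(tt)^-2 > V(c)^-2
(H35P.tt_sq), xc (φ S) = u^2 X' + r (Crd), V(u^2 X') > V(r) and > 1, so V(xc (φ S)) > 1, xc (φ S) = algebraMap (xc S): V₀(xc S) > 1, S in Ker V₀ (MG.ker_crd). S = 0: clear. -/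
theorem contract [DecidableEq k] [DecidableEq Ω] {V₀ : ValuationSubring k} (hV : ∀ x : k, algebraMap k Ω x ∈ V ↔ x ∈ V₀)
    (hA : Arch V) (hG : GoodW W' V) {Θ : Pt W Ω ≃+ W'.toAffine.Point} (hu : u ≠ 0) (hc : Crd u r s t Θ)
    {φ : W.toAffine.Point →+ Pt W Ω} (hφ : Inc W φ) {q : ℕ} (hq : V.valuation (q : Ω) < 1) (R : W.toAffine.Point)
    (hR : Ker V (Θ (φ R))) : ∃ n : ℕ, Ker V₀ (q ^ n • R) := by
  have hI := hG.toIntW
  have hex : ∃ c : Ω, c ≠ 0 ∧ V.valuation c ≤ V.valuation u ∧ V.valuation c * V.valuation r ≤ V.valuation u := by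
    by_cases hr : V.valuation r ≤ 1
    · exact ⟨u, hu, le_rfl, mul_le_of_le_one_right' hr⟩
    · have hr1 : 1 < V.valuation r := not_le.1 hr
      have hr0 : r ≠ 0 := by
        rintro rfl
        rw [map_zero] at hr1
        exact not_lt_zero hr1
      have hvr : V.valuation r ≠ 0 := (Valuation.ne_zero_iff _).2 hr0
      refine ⟨u / r, div_ne_zero hu hr0, ?_, ?_⟩
      · rw [map_div₀]
        rw [div_le_iff₀ (zero_lt_iff.2 hvr)]
        exact le_mul_of_one_le_right' hr1.le
      · rw [map_div₀, div_mul_cancel₀ _ hvr]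
  obtain ⟨c, hc0, hcu, hcr⟩ := hex
  obtain ⟨n, hn⟩ := tt_small hI hA hR hq hc0
  refine ⟨n, ?_⟩
  have hS : Θ (φ (q ^ n • R)) = q ^ n • Θ (φ R) := by rw [map_nsmul, map_nsmul]
  rw [← hS] at hn
  have hK : Ker V (Θ (φ (q ^ n • R))) := by
    rw [hS]
    exact (tt_smul hI hR (q ^ n)).1
  by_cases h0 : q ^ n • R = 0
  · rw [h0]
    exact trivial
  obtain ⟨hφ0, hφx, -⟩ := hφ _ h0
  obtain ⟨hΘ0, hΘx, -⟩ := hc _ hφ0
  have hsq := qe3_sq hI hK hΘ0
  rw [hφx] at hΘx
  set X' := xc (Θ (φ (q ^ n • R))) with hX'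
  set τ := V.valuation (tt (Θ (φ (q ^ n • R)))) with hτ
  have hvu : V.valuation u ≠ 0 := (Valuation.ne_zero_iff _).2 hu
  have hvc : V.valuation c ≠ 0 := (Valuation.ne_zero_iff _).2 hc0
  have hX'0 : V.valuation X' ≠ 0 := by
    intro h1
    rw [h1, mul_zero] at hsq
    exact zero_ne_one hsq
  have hτ2 : τ ^ 2 < V.valuation c ^ 2 := by
    gcongr
    exact zero_le
  have h1 : 1 < V.valuation c ^ 2 * V.valuation X' := by
    rw [← hsq]
    exact mul_lt_mul_of_pos_right hτ2 (zero_lt_iff.2 hX'0)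
  have h2 : V.valuation (u ^ 2 * X') = V.valuation u ^ 2 * V.valuation X' := by
    rw [map_mul, map_pow]
  have h3 : 1 < V.valuation (u ^ 2 * X') := by
    rw [h2]
    refine h1.trans_le ?_
    gcongr
  have h4 : V.valuation r < V.valuation (u ^ 2 * X') := by
    rw [h2]
    by_cases hr : V.valuation r ≤ 1
    · rw [h2] at h3
      exact hr.trans_lt h3
    · have hr1 : 1 < V.valuation r := not_le.1 hr
      have h5 : V.valuation r < V.valuation r ^ 2 * (V.valuation c ^ 2 * V.valuation X') := by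
        have h6 : V.valuation r ≤ V.valuation r ^ 2 := by
          rw [sq]
          exact le_mul_of_one_le_right' hr1.le
        have h7 : (0 : V.ValueGroup) < V.valuation r ^ 2 :=
          zero_lt_iff.2 (pow_ne_zero 2 (zero_lt_one.trans hr1).ne')
        exact h6.trans_lt (lt_mul_of_one_lt_right h7 h1)
      refine h5.trans_le ?_
      rw [← mul_assoc, ← mul_pow]
      gcongr
      rw [mul_comm]
      exact hcr
  have h5 : 1 < V.valuation (algebraMap k Ω (xc (q ^ n • R))) := by
    rw [hΘx, Valuation.map_add_eq_of_lt_left V.valuation h4]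
    exact h3
  rw [MG.ker_crd h0]
  rw [← not_le, V₀.valuation_le_one_iff, ← hV, ← V.valuation_le_one_iff, not_le]
  exact h5

end H55K.TQ
end

-- from Lib.H55K.QH1A
section

/-! # H55K: the completion of a number field at a finite place -/

open NumberField IsDedekindDomain WeierstrassCurve

namespace H55K.TQ

open H55P (IQ embF eF LF Per IsHecke Pt ac Inert Dec Nm UnitP)
open H35P (WAB Ker tt GoodW IntW)
open H55K.MG (VC Crd)

variable {K : Type} [Field K] [NumberField K] (w : HeightOneSpectrum (𝓞 K))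

/-- Chunk QH1A (S). adicCompletionIntegers is the valuation subring of Valued.v: Valuation.isEquiv_valuation_valuationSubring. -/
theorem val_w (x y : w.adicCompletion K) :
    ((w.adicCompletionIntegers K).valuation x ≤ (w.adicCompletionIntegers K).valuation y ↔
      Valued.v x ≤ Valued.v y) ∧
    ((w.adicCompletionIntegers K).valuation x < (w.adicCompletionIntegers K).valuation y ↔
      Valued.v x < Valued.v y) := by
  have h := Valuation.isEquiv_valuation_valuationSubring
    (Valued.v : Valuation (w.adicCompletion K) (WithZero (Multiplicative ℤ)))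
  exact ⟨(h x y).symm, by rw [← not_le, ← not_le]; exact not_congr (h y x).symm⟩

/-- Chunk QH1A (S). Valued.v has values in the integers with zero: V(b) ≤ exp (-1), V(b)^n ≤ exp (-n). -/
theorem arch_w : Arch (w.adicCompletionIntegers K) := by
  intro b c hb hc
  have hb' : Valued.v b < Valued.v (1 : w.adicCompletion K) :=
    (val_w w b 1).2.1 (by rw [map_one]; exact hb)
  rw [map_one] at hb'
  have hc' : Valued.v c ≠ 0 := (Valuation.ne_zero_iff _).2 hc
  obtain ⟨n, hn⟩ : ∃ n : ℕ, (Valued.v b : WithZero (Multiplicative ℤ)) ^ n < Valued.v c := by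
    rcases eq_or_ne (Valued.v b : WithZero (Multiplicative ℤ)) 0 with h0 | h0
    · exact ⟨1, by rw [h0, zero_pow one_ne_zero]; exact zero_lt_iff.2 hc'⟩
    · obtain ⟨i, hi⟩ : ∃ i : ℤ, (Valued.v b : WithZero (Multiplicative ℤ)) = WithZero.exp i :=
        ⟨WithZero.log (Valued.v b), (WithZero.exp_log h0).symm⟩
      obtain ⟨j, hj⟩ : ∃ j : ℤ, (Valued.v c : WithZero (Multiplicative ℤ)) = WithZero.exp j :=
        ⟨WithZero.log (Valued.v c), (WithZero.exp_log hc').symm⟩
      rw [hi, ← WithZero.exp_zero, WithZero.exp_lt_exp] at hb'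
      refine ⟨(|j| + 1).toNat, ?_⟩
      rw [hi, hj, ← WithZero.exp_nsmul, WithZero.exp_lt_exp, nsmul_eq_mul]
      have h1 : (((|j| + 1).toNat : ℕ) : ℤ) = |j| + 1 := Int.toNat_of_nonneg (by positivity)
      rw [h1]
      nlinarith [abs_nonneg j, neg_abs_le j]
  refine ⟨n, ?_⟩
  rw [← map_pow]
  exact (val_w w _ _).2.2 (by rw [map_pow]; exact hn)

end H55K.TQ
end

-- from Lib.H55K.QH1B
section

/-! # H55K: the completion of a number field at a finite place -/

open NumberField IsDedekindDomain WeierstrassCurve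

namespace H55K.TQ

open H55P (IQ embF eF LF Per IsHecke Pt ac Inert Dec Nm UnitP)
open H35P (WAB Ker tt GoodW IntW)
open H55K.MG (VC Crd)

variable {K : Type} [Field K] [NumberField K] (w : HeightOneSpectrum (𝓞 K))

/-- Density. -/
theorem qh1b_dense (x ε : w.adicCompletion K) (hε : ε ≠ 0) :
    ∃ k : K, Valued.v (x - algebraMap K (w.adicCompletion K) k) ≤ Valued.v ε := by
  have hopen : IsOpen {z : w.adicCompletion K | (x - z) * ε⁻¹ ∈ w.adicCompletionIntegers K} := by
    have h1 : IsOpen ((w.adicCompletionIntegers K : Set (w.adicCompletion K))) :=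
      Valued.isOpen_valuationSubring (w.adicCompletion K)
    exact h1.preimage ((continuous_const.sub continuous_id).mul continuous_const)
  obtain ⟨k, hk⟩ := (HeightOneSpectrum.denseRange_algebraMap K w).exists_mem_open hopen
    ⟨x, by
      show (x - x) * ε⁻¹ ∈ w.adicCompletionIntegers K
      rw [sub_self, zero_mul]
      exact zero_mem _⟩
  refine ⟨k, ?_⟩
  have hk' : Valued.v ((x - algebraMap K (w.adicCompletion K) k) * ε⁻¹) ≤ 1 := hk
  have h2 : x - algebraMap K (w.adicCompletion K) k = ((x - algebraMap K (w.adicCompletion K) k) * ε⁻¹) * ε := by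
    rw [mul_assoc, inv_mul_cancel₀ hε, mul_one]
  rw [h2, map_mul]
  calc Valued.v ((x - algebraMap K (w.adicCompletion K) k) * ε⁻¹) * Valued.v ε
      ≤ 1 * Valued.v ε := mul_le_mul_left hk' _
    _ = Valued.v ε := one_mul _

theorem qh1b_val (k : K) : Valued.v (algebraMap K (w.adicCompletion K) k) = w.valuation K k :=
  HeightOneSpectrum.valuedAdicCompletion_eq_valuation' w k

/-- Chunk QH1B (M). V(c) = exp (-N) (or > 1: then take S = {0}). Every x in the completion with V(x) ≤ 1 is within V < exp (-N) of an element of K (density) with V ≤ 1, hence of an element of 𝓞 K (an element a/b of K with w-value ≤ 1 is congruent modulo w^(N+1) to an integer: HeightOneSpectrum.exists_adicValued_mul_sub_le or IsDedekindDomain lemmas), and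
𝓞 K ⧸ w.asIdeal^(N+1) is finite (Ideal.finiteQuotientOfFreeOfNeBot): S = images of representatives. Alternatively from the compactness of the integers of the completion (Mathlib: CompactSpace (adicCompletionIntegers) for number fields) : finitely many balls of radius V < V(c) cover. -/
theorem fin_w : FinR (w.adicCompletionIntegers K) := by
  classical
  intro c hc
  have hc0 : Valued.v c ≠ 0 := (Valuation.ne_zero_iff _).2 hc
  by_cases h1 : Valued.v c ≤ 1
  swap
  · refine ⟨{0}, Set.finite_singleton 0, fun x hx => ⟨0, rfl, ?_⟩⟩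
    rw [sub_zero, (val_w w x c).2]
    exact lt_of_le_of_lt hx (not_le.1 h1)
  obtain ⟨N, hN⟩ := WithZero.exists_exp_neg_natCast_lt hc0
  have hne : w.asIdeal ^ N ≠ ⊥ := pow_ne_zero N w.ne_bot
  have hfin : Finite (𝓞 K ⧸ w.asIdeal ^ N) := Ideal.finiteQuotientOfFreeOfNeBot _ hne
  refine ⟨Set.range fun q : 𝓞 K ⧸ w.asIdeal ^ N => algebraMap K (w.adicCompletion K) ((Quotient.out q : 𝓞 K) : K),
    Set.finite_range _, fun x hx => ?_⟩
  obtain ⟨ϖ, hϖ⟩ := w.intValuation_exists_uniformizer
  have hϖ1 : Valued.v (algebraMap K (w.adicCompletion K) (ϖ : K)) < 1 := by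
    rw [qh1b_val]
    have : w.valuation K (ϖ : K) = w.intValuation ϖ := HeightOneSpectrum.valuation_of_algebraMap w ϖ
    rw [this, hϖ]
    decide
  have hϖ0 : algebraMap K (w.adicCompletion K) (ϖ : K) ≠ 0 := by
    intro h0
    have h2 : Valued.v (algebraMap K (w.adicCompletion K) (ϖ : K)) = w.intValuation ϖ := by
      rw [qh1b_val]
      exact HeightOneSpectrum.valuation_of_algebraMap w ϖ
    rw [h0, map_zero, hϖ] at h2
    exact absurd h2.symm WithZero.exp_ne_zero
  have hε : c * algebraMap K (w.adicCompletion K) (ϖ : K) ≠ 0 := mul_ne_zero hc hϖ0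
  have hεc : Valued.v (c * algebraMap K (w.adicCompletion K) (ϖ : K)) < Valued.v c := by
    rw [map_mul]
    calc Valued.v c * Valued.v (algebraMap K (w.adicCompletion K) (ϖ : K)) < Valued.v c * 1 :=
          mul_lt_mul_of_pos_left hϖ1 (zero_lt_iff.2 hc0)
      _ = Valued.v c := mul_one _
  obtain ⟨k, hk⟩ := qh1b_dense w x _ hε
  have hk1 : w.valuation K k ≤ 1 := by
    rw [← qh1b_val]
    have e : algebraMap K (w.adicCompletion K) k = x - (x - algebraMap K (w.adicCompletion K) k) := by ring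
    rw [e]
    refine (Valuation.map_sub _ _ _).trans (max_le hx ((hk.trans hεc.le).trans h1))
  obtain ⟨a, ha⟩ := w.exists_valuation_sub_lt_of_integer hk1 (Units.mk0 _ hc0)
  have hab : a - Quotient.out (Ideal.Quotient.mk (w.asIdeal ^ N) a) ∈ w.asIdeal ^ N := by
    rw [← Ideal.Quotient.mk_eq_mk_iff_sub_mem]
    exact (Ideal.Quotient.mk_out _).symm
  refine ⟨_, ⟨Ideal.Quotient.mk (w.asIdeal ^ N) a, rfl⟩, ?_⟩
  rw [(val_w w _ _).2]
  set b : 𝓞 K := Quotient.out (Ideal.Quotient.mk (w.asIdeal ^ N) a) with hb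
  have e1 : x - algebraMap K (w.adicCompletion K) (b : K) = (x - algebraMap K (w.adicCompletion K) k) -
      algebraMap K (w.adicCompletion K) ((a : K) - k) + algebraMap K (w.adicCompletion K) ((a : K) - (b : K)) := by
    rw [map_sub, map_sub]
    ring
  rw [e1]
  refine Valuation.map_add_lt _ (Valuation.map_sub_lt _ (lt_of_le_of_lt hk hεc) ?_) ?_
  · rw [qh1b_val]
    exact ha
  · rw [qh1b_val]
    have e2 : (a : K) - (b : K) = algebraMap (𝓞 K) K (a - b) := by
      rw [map_sub]
    rw [e2, HeightOneSpectrum.valuation_of_algebraMap]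
    refine lt_of_le_of_lt ?_ hN
    exact (w.intValuation_le_pow_iff_mem _ N).2 hab

end H55K.TQ
end

-- from Lib.H55K.QH1C
section

/-! # H55K: the completion of a number field at a finite place -/

open NumberField IsDedekindDomain WeierstrassCurve

namespace H55K.TQ

open H55P (IQ embF eF LF Per IsHecke Pt ac Inert Dec Nm UnitP)
open H35P (WAB Ker tt GoodW IntW)
open H55K.MG (VC Crd)

variable {K : Type} [Field K] [NumberField K] (w : HeightOneSpectrum (𝓞 K))

/-- Chunk QH1C (S). valuedAdicCompletion_eq_valuation', valuation_lt_one_iff_mem. -/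
theorem int_w (x : 𝓞 K) : algebraMap K (w.adicCompletion K) x ∈ w.adicCompletionIntegers K ∧
    ((w.adicCompletionIntegers K).valuation (algebraMap K (w.adicCompletion K) x) < 1 ↔ x ∈ w.asIdeal) ∧
    ((w.adicCompletionIntegers K).valuation (algebraMap K (w.adicCompletion K) x) = 1 ↔ x ∉ w.asIdeal) := by
  have hv : (Valued.v (algebraMap K (w.adicCompletion K) x) : WithZero (Multiplicative ℤ)) =
      w.valuation K (algebraMap (𝓞 K) K x) := HeightOneSpectrum.valuedAdicCompletion_eq_valuation' w _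
  have h1 : (w.adicCompletionIntegers K).valuation (algebraMap K (w.adicCompletion K) x) ≤ 1 := by
    rw [← map_one ((w.adicCompletionIntegers K).valuation)]
    refine (val_w w _ _).1.2 ?_
    rw [map_one, hv]
    exact w.valuation_le_one x
  have h2 : (w.adicCompletionIntegers K).valuation (algebraMap K (w.adicCompletion K) x) < 1 ↔
      x ∈ w.asIdeal := by
    rw [← map_one ((w.adicCompletionIntegers K).valuation), (val_w w _ _).2, map_one, hv]
    exact w.valuation_lt_one_iff_mem x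
  refine ⟨(ValuationSubring.valuation_le_one_iff _ _).1 h1, h2, ?_⟩
  rw [← h2, not_lt]
  exact ⟨fun h => h.ge, fun h => le_antisymm h1 h⟩

/-- Chunk QH1C (S). The residue characteristic: w contains the positive integer absNorm w, so a prime number. -/
theorem res_w : ∃ q : ℕ, q.Prime ∧ (q : 𝓞 K) ∈ w.asIdeal ∧
    (w.adicCompletionIntegers K).valuation (q : w.adicCompletion K) < 1 := by
  have key : ∀ n : ℕ, n ≠ 0 → (n : 𝓞 K) ∈ w.asIdeal → ∃ q : ℕ, q.Prime ∧ (q : 𝓞 K) ∈ w.asIdeal := by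
    intro n
    induction n using Nat.strong_induction_on with
    | _ n ih =>
      intro hn hmem
      have hn1 : n ≠ 1 := by
        rintro rfl
        refine w.isPrime.ne_top ((Ideal.eq_top_iff_one _).2 ?_)
        simpa using hmem
      obtain ⟨q, hq, m, rfl⟩ := Nat.exists_prime_and_dvd hn1
      rw [Nat.cast_mul] at hmem
      rcases w.isPrime.mem_or_mem hmem with h | h
      · exact ⟨q, hq, h⟩
      · have hm : m ≠ 0 := fun h0 => hn (by rw [h0, mul_zero])
        refine ih m ?_ hm h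
        calc m = 1 * m := (one_mul m).symm
          _ < q * m := Nat.mul_lt_mul_of_pos_right hq.one_lt (Nat.pos_of_ne_zero hm)
  have hN : (Ideal.absNorm w.asIdeal) ≠ 0 := by
    have := HeightOneSpectrum.one_lt_absNorm w
    omega
  obtain ⟨q, hq, hqm⟩ := key _ hN (Ideal.absNorm_mem w.asIdeal)
  refine ⟨q, hq, hqm, ?_⟩
  have h := (int_w w (q : 𝓞 K)).2.1.2 hqm
  have hc : algebraMap K (w.adicCompletion K) ((q : 𝓞 K) : K) = (q : w.adicCompletion K) := by
    simp
  rw [hc] at h
  exact h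

end H55K.TQ
end

-- from Lib.H55K.QH2A
section

/-! # H55K: the minimal equation over the completion -/

open NumberField IsDedekindDomain WeierstrassCurve

namespace H55K.TQ

open H55P (IQ embF eF LF Per IsHecke Pt ac Inert Dec Nm UnitP)
open H35P (WAB Ker tt GoodW IntW)
open H55K.MG (VC Crd)

variable {K : Type} [Field K] [NumberField K] (w : HeightOneSpectrum (𝓞 K))

/-- Chunk QH2A (S). WeierstrassCurve.minimal is C • W for some C; vc_smul. -/
theorem wm_vc (W : WeierstrassCurve K) : ∃ u r s t, VC (W⁄(w.adicCompletion K)) (Wm K W w) u r s t := by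
  exact ⟨_, _, _, _, vc_smul (W⁄(w.adicCompletion K))
    ((W⁄(w.adicCompletion K)).exists_isMinimal (w.adicCompletionIntegers K)).choose⟩

/-- Chunk QH2A (S). IsIntegral. -/
theorem wm_int (W : WeierstrassCurve K) : IntW (Wm K W w) (w.adicCompletionIntegers K) := by
  have h1 : WeierstrassCurve.IsIntegral (w.adicCompletionIntegers K) (Wm K W w) := by
    unfold Wm
    infer_instance
  obtain ⟨W₁, h⟩ := h1.integral
  rw [h]
  exact ⟨W₁.a₁.2, W₁.a₂.2, W₁.a₃.2, W₁.a₄.2, W₁.a₆.2⟩

end H55K.TQ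
end

-- from Lib.H55K.QH2B
section

/-! # H55K: the minimal equation over the completion -/

open NumberField IsDedekindDomain WeierstrassCurve

namespace H55K.TQ

open H55P (IQ embF eF LF Per IsHecke Pt ac Inert Dec Nm UnitP)
open H35P (WAB Ker tt GoodW IntW)
open H55K.MG (VC Crd)

variable {K : Type} [Field K] [NumberField K] (w : HeightOneSpectrum (𝓞 K))

/-- A valuation subring which is a discrete valuation ring: the value of its elements for the maximal ideal is 1 iff they
are units. -/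
theorem qh2b_val {k : Type} [Field k] (V : ValuationSubring k) [IsDiscreteValuationRing V] {x : k} (hx : x ∈ V) :
    (IsDiscreteValuationRing.maximalIdeal V).valuation k x = 1 ↔ V.valuation x = 1 := by
  have h1 : x = algebraMap V k ⟨x, hx⟩ := rfl
  have h2 : ¬ ((IsDiscreteValuationRing.maximalIdeal V).valuation k (algebraMap V k ⟨x, hx⟩) < 1) ↔
      (⟨x, hx⟩ : V) ∉ (IsDiscreteValuationRing.maximalIdeal V).asIdeal :=
    not_iff_not.mpr (HeightOneSpectrum.valuation_lt_one_iff_mem _ _)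
  have h3 : (IsDiscreteValuationRing.maximalIdeal V).valuation k (algebraMap V k ⟨x, hx⟩) ≤ 1 :=
    HeightOneSpectrum.valuation_le_one _ _
  have h4 : (⟨x, hx⟩ : V) ∉ (IsDiscreteValuationRing.maximalIdeal V).asIdeal ↔ IsUnit (⟨x, hx⟩ : V) := by
    change (⟨x, hx⟩ : V) ∉ IsLocalRing.maximalIdeal V ↔ _
    exact IsLocalRing.notMem_maximalIdeal
  have h5 := V.valuation_eq_one_iff ⟨x, hx⟩
  rw [← h5, ← h4, ← h2, not_lt]
  constructor
  · intro h
    exact h.ge
  · intro h
    exact le_antisymm h3 h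

/-- Chunk QH2B (M). If some change of variables of W gives a good equation W' then W' = C' • (Wm) (vc_inv, vc_comp, VC to VariableChange) is integral (IsIntegral) and valuation_Δ_aux of it is 1; by maximality (IsMinimal.val_Δ_maximal) the value of the discriminant of the minimal equation is 1 too. Valuation of the maximal ideal of the
ring of integers of the completion and Valued.v: for unit discriminants (value 1) the statements are equivalent: r a unit of the ring (valuation K (maximalIdeal R) (algebraMap r) = 1 iff r is a unit iff V(r) = 1). -/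
theorem wm_good (W : WeierstrassCurve K) (h : PG (W⁄(w.adicCompletion K)) (w.adicCompletionIntegers K)) :
    GoodW (Wm K W w) (w.adicCompletionIntegers K) := by
  obtain ⟨W', u, r, s, t, hv, hG⟩ := h
  obtain ⟨u0, r0, s0, t0, hv0⟩ := wm_vc w W
  have hv1 := vc_comp (vc_inv hv0) hv
  refine ⟨wm_int w W, ?_⟩
  have hmin : IsMinimal (w.adicCompletionIntegers K) (Wm K W w) := by
    unfold Wm
    infer_instance
  set C : VariableChange (w.adicCompletion K) := ⟨Units.mk0 _ hv1.une, _, _, _⟩ with hC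
  have hC1 : W' = C • Wm K W w := vc_uniq hv1 (vc_smul (Wm K W w) C)
  have hint : IsIntegral (w.adicCompletionIntegers K) (C • Wm K W w) := by
    rw [← hC1]
    exact isIntegral_of_exists_lift _ ⟨⟨_, hG.a1⟩, rfl⟩ ⟨⟨_, hG.a2⟩, rfl⟩ ⟨⟨_, hG.a3⟩, rfl⟩ ⟨⟨_, hG.a4⟩, rfl⟩
      ⟨⟨_, hG.a6⟩, rfl⟩
  have hmax := hmin.val_Δ_maximal.2 hint
  have hle : valuation_Δ_aux (w.adicCompletionIntegers K) (C • Wm K W w) ≤
      valuation_Δ_aux (w.adicCompletionIntegers K) ((1 : VariableChange (w.adicCompletion K)) • Wm K W w) := by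
    rcases le_total (valuation_Δ_aux (w.adicCompletionIntegers K) (C • Wm K W w))
      (valuation_Δ_aux (w.adicCompletionIntegers K) ((1 : VariableChange (w.adicCompletion K)) • Wm K W w)) with h1 | h1
    · exact h1
    · exact hmax h1
  rw [one_smul] at hle
  have hle2 := Subtype.coe_le_coe.2 hle
  rw [valuation_Δ_aux_eq_of_isIntegral, valuation_Δ_aux_eq_of_isIntegral, ← hC1] at hle2
  have hΔ' : W'.Δ ∈ w.adicCompletionIntegers K := by
    rw [← ValuationSubring.valuation_le_one_iff]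
    exact hG.disc.le
  obtain ⟨D, hD⟩ := Δ_integral_of_isIntegral (w.adicCompletionIntegers K) (Wm K W w)
  have hΔ : (Wm K W w).Δ ∈ w.adicCompletionIntegers K := by
    rw [← hD]
    exact D.2
  rw [(qh2b_val _ hΔ').2 hG.disc] at hle2
  rw [← qh2b_val _ hΔ]
  refine le_antisymm ?_ hle2
  rw [← hD]
  exact HeightOneSpectrum.valuation_le_one _ _

/-- Chunk QH2B (S). PG is invariant under changes of variables (vc_inv, vc_comp). -/
theorem pg_iff {k : Type} [Field k] {V : ValuationSubring k} {W W' : WeierstrassCurve k} {u r s t : k} (h : VC W W' u r s t) :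
    PG W V ↔ PG W' V := by
  constructor
  · rintro ⟨W₁, u₁, r₁, s₁, t₁, h₁, hG⟩
    exact ⟨W₁, _, _, _, _, vc_comp (vc_inv h) h₁, hG⟩
  · rintro ⟨W₁, u₁, r₁, s₁, t₁, h₁, hG⟩
    exact ⟨W₁, _, _, _, _, vc_comp h h₁, hG⟩

/-- Chunk QH2B (S). val_w with y = 1. -/
theorem e0_w (W : WeierstrassCurve K) : E0G K W w = E0V (Wm K W w) (w.adicCompletionIntegers K) := by
  have hval : ∀ x : w.adicCompletion K, 1 ≤ Valued.v x ↔ 1 ≤ (w.adicCompletionIntegers K).valuation x := by
    intro x
    have h1 := (val_w w x 1).2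
    rw [map_one, map_one] at h1
    rw [← not_lt, ← not_lt, h1]
  unfold E0G E0V
  simp only [hval]

end H55K.TQ
end

-- from Lib.H55K.QH4B
section

/-! # H55K: the factors of the discriminant are p-adic units -/

open NumberField IsDedekindDomain WeierstrassCurve

namespace H55K.TQ

open H55P (IQ embF eF LF Per IsHecke Pt ac Inert Dec Nm UnitP)
open H35P (WAB Ker tt GoodW IntW)
open H55K.MG (VC Crd)

variable {K : Type} [Field K] [NumberField K] (w : HeightOneSpectrum (𝓞 K))

theorem qh4b_ndvd {p : ℕ} (hp : p.Prime) (h : (p : 𝓞 K) ∉ w.asIdeal) :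
    ¬ p ∣ Ideal.absNorm w.asIdeal := by
  intro hdvd
  have hfact : Fact p.Prime := ⟨hp⟩
  have hfin : Finite (𝓞 K ⧸ w.asIdeal) := Ideal.finiteQuotientOfFreeOfNeBot _ w.ne_bot
  have hcard : Ideal.absNorm w.asIdeal = Nat.card (𝓞 K ⧸ w.asIdeal) := rfl
  rw [hcard] at hdvd
  obtain ⟨x, hx⟩ := exists_prime_addOrderOf_dvd_card' (G := 𝓞 K ⧸ w.asIdeal) p hdvd
  have hx0 : x ≠ 0 := by
    intro h0
    rw [h0, addOrderOf_zero] at hx
    exact hp.one_lt.ne hx
  have h1 : p • x = 0 := by
    rw [← hx]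
    exact addOrderOf_nsmul_eq_zero x
  rw [nsmul_eq_mul] at h1
  have hpr := w.isPrime
  have h2 : ((p : ℕ) : 𝓞 K ⧸ w.asIdeal) = 0 := by
    rcases mul_eq_zero.1 h1 with h3 | h3
    · exact h3
    · exact absurd h3 hx0
  apply h
  rw [← Ideal.Quotient.eq_zero_iff_mem, map_natCast]
  exact h2

theorem qh4b_val {x : w.adicCompletion K}
    (h : (w.adicCompletionIntegers K).valuation x = 1) : Valued.v x = 1 := by
  have h1 : x ∈ w.adicCompletionIntegers K := ((w.adicCompletionIntegers K).valuation_le_one_iff x).1 h.le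
  have h2 : x⁻¹ ∈ w.adicCompletionIntegers K := by
    rw [← (w.adicCompletionIntegers K).valuation_le_one_iff, map_inv₀, h, inv_one]
  rw [HeightOneSpectrum.mem_adicCompletionIntegers] at h1 h2
  have hx0 : x ≠ 0 := by
    intro h0
    rw [h0, map_zero] at h
    exact zero_ne_one h
  refine le_antisymm h1 ?_
  rw [map_inv₀] at h2
  have h3 : 0 < Valued.v x := by
    rw [zero_lt_iff]
    exact (Valuation.ne_zero_iff _).2 hx0
  exact (inv_le_one₀ h3).1 h2

theorem qh4b_nat (p : ℕ) (hp : p.Prime) (V : ValuationSubring ℂ) (hV : V.valuation (p : ℂ) < 1)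
    (n : ℕ) (hn : ¬ p ∣ n) : V.valuation (n : ℂ) = 1 := by
  have hint : ∀ k : ℤ, V.valuation (k : ℂ) ≤ 1 := fun k => by
    have h := V.valuation_le_one (k : V)
    exact_mod_cast h
  have h1 : IsCoprime (n : ℤ) (p : ℤ) := Nat.isCoprime_iff_coprime.2
    ((Nat.Prime.coprime_iff_not_dvd hp).2 hn).symm
  obtain ⟨a, b, hab⟩ := h1
  have hn1 : V.valuation (n : ℂ) ≤ 1 := by
    have := hint (n : ℤ)
    exact_mod_cast this
  refine le_antisymm hn1 ?_
  by_contra hcon
  rw [not_le] at hcon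
  have h2 : (a : ℂ) * n + b * p = 1 := by exact_mod_cast congrArg (Int.cast : ℤ → ℂ) hab
  have h3 : V.valuation ((a : ℂ) * n + b * p) < 1 := by
    refine V.valuation.map_add_lt ?_ ?_
    · rw [map_mul]
      exact lt_of_le_of_lt (mul_le_of_le_one_left' (hint a)) hcon
    · rw [map_mul]
      exact lt_of_le_of_lt (mul_le_of_le_one_left' (hint b)) hV
  rw [h2, map_one] at h3
  exact lt_irrefl _ h3

theorem qh4b_pow {p : ℕ} (hp : p.Prime) {N : ℕ} (hN : ¬ p ∣ N) (k : ℤ) :
    UnitP p ((((N : ℝ) ^ k : ℝ)) : ℂ) := by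
  intro A hA
  have h1 := qh4b_nat p hp A hA N hN
  push_cast
  rw [map_zpow₀, h1, one_zpow]

theorem qh4b_dfac (W : WeierstrassCurve K) (hΔ : W.Δ ≠ 0) : ∃ (u : w.adicCompletion K) (k : ℤ), u ≠ 0 ∧
    u ^ 12 * (Wm K W w).Δ = (W⁄(w.adicCompletion K)).Δ ∧ dfac K W w = (Ideal.absNorm w.asIdeal : ℝ) ^ k ∧
    Valued.v u = WithZero.exp (-k) := by
  obtain ⟨u, r, s, t, hvc⟩ := wm_vc w W
  have hd := (vc_disc hvc).1
  have hΔ' : (W⁄(w.adicCompletion K)).Δ ≠ 0 := by
    have e : (W⁄(w.adicCompletion K)).Δ = algebraMap K (w.adicCompletion K) W.Δ :=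
      WeierstrassCurve.map_Δ _ _
    rw [e]
    exact (map_ne_zero_iff _ (algebraMap K (w.adicCompletion K)).injective).2 hΔ
  have hm : (Wm K W w).Δ ≠ 0 := by
    intro h0
    rw [h0, mul_zero] at hd
    exact hΔ' hd.symm
  obtain ⟨k, hk1, hk2⟩ := norm_w w u hvc.une
  refine ⟨u, -k, hvc.une, hd, ?_, by rw [neg_neg]; exact hk2⟩
  unfold dfac
  have hu : 0 < ‖u‖ := norm_pos_iff.2 hvc.une
  have hmp : 0 < ‖(Wm K W w).Δ‖ := norm_pos_iff.2 hm
  have e1 : ‖(Wm K W w).Δ‖ / ‖(W⁄(w.adicCompletion K)).Δ‖ = (‖u‖⁻¹) ^ 12 := by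
    rw [← hd, norm_mul, norm_pow]
    field_simp
  rw [e1, one_div]
  have e2 := Real.pow_rpow_inv_natCast (x := ‖u‖⁻¹) (n := 12) (inv_pos.2 hu).le (by norm_num)
  push_cast at e2
  rw [e2, hk1, zpow_neg]

/-- Chunk QH4B (M). Wm from W by u (wm_vc): u^12 Δm = Δ (vc_disc), so ‖Δm‖/‖Δ‖ = ‖u‖^(-12) and the twelfth root is ‖u‖^(-1) = N^(-k) (norm_w). If p is not in w then p does not divide N = absNorm w (a power of the residue characteristic), so N is a unit at every valuation ring of ℂ above p (H55P.val_nat or pt9_nat) and so is N^(-k).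
If p is in w: W is good at w over the completion, Δ and Δm are units (wm_good), the quotient is 1. -/
theorem dfac_unit (W : WeierstrassCurve K) (hΔ : W.Δ ≠ 0) {p : ℕ} (hp : p.Prime)
    (h : (p : 𝓞 K) ∈ w.asIdeal → GoodW (W⁄(w.adicCompletion K)) (w.adicCompletionIntegers K)) :
    UnitP p ((dfac K W w : ℝ) : ℂ) := by
  obtain ⟨u, k, hu, hd, hk1, hk2⟩ := qh4b_dfac w W hΔ
  rw [hk1]
  by_cases hpw : (p : 𝓞 K) ∈ w.asIdeal
  · have hg := h hpw
    have hPG : PG (W⁄(w.adicCompletion K)) (w.adicCompletionIntegers K) :=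
      ⟨W⁄(w.adicCompletion K), 1, 0, 0, 0, ⟨one_ne_zero, by ring, by ring, by ring, by ring, by ring⟩, hg⟩
    have hm := wm_good w W hPG
    have h1 : (w.adicCompletionIntegers K).valuation (u ^ 12) = 1 := by
      have h2 := congrArg (w.adicCompletionIntegers K).valuation hd
      rw [map_mul, hm.disc, hg.disc, mul_one] at h2
      exact h2
    have h3 := qh4b_val w h1
    rw [map_pow, hk2, ← WithZero.exp_nsmul] at h3
    have h4 : (12 : ℕ) • (-k) = 0 := by
      have h5 : WithZero.exp ((12 : ℕ) • (-k)) = WithZero.exp (0 : ℤ) := by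
        rw [h3, WithZero.exp_zero]
      exact WithZero.exp_injective h5
    have h5 : k = 0 := by
      rw [nsmul_eq_mul] at h4
      push_cast at h4
      omega
    rw [h5, zpow_zero]
    intro A _
    push_cast
    exact map_one _
  · exact qh4b_pow hp (qh4b_ndvd w hp hpw) k

/-- Chunk QH4B (S). finprod: finprod_induction (1 is a unit, products of units are units), natural numbers prime to p are units (H55P.val_nat). -/
theorem prod_unit {p : ℕ} (hp : p.Prime) (f : HeightOneSpectrum (𝓞 K) → ℕ) (g : HeightOneSpectrum (𝓞 K) → ℝ)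
    (hf : ∀ w, ¬ p ∣ f w) (hg : ∀ w, UnitP p ((g w : ℝ) : ℂ)) :
    UnitP p (∏ᶠ w : HeightOneSpectrum (𝓞 K), ((f w : ℂ) * ((g w : ℝ) : ℂ))) := by
  intro A hA
  refine finprod_induction (fun z : ℂ => A.valuation z = 1) (map_one _) ?_ ?_
  · intro x y hx hy
    rw [map_mul, hx, hy, one_mul]
  · intro i
    rw [map_mul, qh4b_nat p hp A hA (f i) (hf i), hg i A hA, one_mul]

end H55K.TQ
end
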