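import Mathlib
import Pool.Agent.Lib.H1M.PP.M001
import Pool.Agent.Lib.H1M.PP.M013
import Pool.Agent.Lib.H1M.PP.M015
import Pool.Agent.Lib.H1M.PP.M021
import Pool.Agent.Lib.H1M.PP.M025
import Pool.Agent.Lib.H1M.PP.M028
import Pool.Agent.Lib.H1M.PP.M029
import Pool.Agent.Lib.H1M.PP.M031
import Pool.Agent.Lib.H1M.PP.M032
import Pool.Agent.Lib.H1M.PP.M033
import Pool.Agent.Lib.H1M.PP.M034
import Pool.Agent.Lib.H1M.PP.M037
import Pool.Agent.Lib.H1M.PP.M039
import Pool.Agent.Lib.H1M.PP.M041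
import Pool.Agent.Lib.H1M.PP.M042

/-! Merged copies (to shorten the build) of Lib.H28G.K9, Lib.H55K.K7, Lib.H55K.K1A, Lib.H55K.K3, Lib.H55K.K4, Lib.H55K.SIZ, Lib.H55K.K5, Lib.H55K.K9, Lib.H35P.EVp, Lib.H55P.E8, Lib.H55P.L2, Lib.H55N.H9, Lib.H55P.T4, Lib.H55P.T5. -/

-- from Lib.H28G.K9
section

open NumberField IsDedekindDomain WeierstrassCurve

namespace H28G

open H55B H55R H99B

/-! Chunk K9 (M): the Frobenius at Q acts as β. lift_val: x in L with Q.valuation L x < 1 (or = 1, <= 1): the same for W.valuation B (algebraMap L B x) (HeightOneSpectrum.valuation_liesOver: v_Q(x)^e = v_W(x), or ord_map with BF1_val; e >= 1), W above Q.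
fix_T: if T = 0 clear. W above Q in B (under_exists), v = W.valuation B, T' = mp i T, i : L -> B (IsScalarTower.toAlgHom F L B), T' <> 0, act c T' = mp i (act c T). 3 and b are not in W (W.under = Q, algebraMap O (𝓞 B) = composition), T' is W-integral (tor_int). j from exists_emb. v(ak B β) < 1 (lift_val, ak B β = algebraMap L B (ak L β)).
kron j for β: xc(act β T') = xc(T')^(Nm β) mod W, same for yc. x = xc T in L is Q-integral (tor_int): x^(absNorm Q) - x has Q-valuation < 1: x = a/s, a, s in 𝓞 L, s not in Q; in the finite field 𝓞 L/Q with absNorm Q elements y^(absNorm Q) = y (FiniteField.pow_card). So xc(act β T') = xc T' mod W, same for yc,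
fix_of_cong (act β T' is in Tor b and <> 0): act β T' = T'. mp i is injective. -/

section
variable {L B : Type} [Field L] [NumberField L] [Field B] [NumberField B] [Algebra L B]

theorem lift_le (Q : Pl L) (W : Pl B) (hW : W.under (𝓞 L) = Q) (x : L)
    (h : Q.valuation L x ≤ 1) : W.valuation B (algebraMap L B x) ≤ 1 := by
  have hl : W.asIdeal.LiesOver Q.asIdeal := (BF2_mem Q W hW).2
  rw [← HeightOneSpectrum.valuation_liesOver B Q W x]
  exact pow_le_one' h _

theorem lift_lt (Q : Pl L) (W : Pl B) (hW : W.under (𝓞 L) = Q) (x : L)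
    (h : Q.valuation L x < 1) : W.valuation B (algebraMap L B x) < 1 := by
  have hl : W.asIdeal.LiesOver Q.asIdeal := (BF2_mem Q W hW).2
  have hp := Q.isPrime
  have hWp := W.isPrime
  rw [← HeightOneSpectrum.valuation_liesOver B Q W x]
  exact pow_lt_one' h (Ideal.IsDedekindDomain.ramificationIdx'_ne_zero_of_liesOver W.asIdeal Q.ne_bot)

theorem K9_mem (Q : Pl L) (W : Pl B) (hW : W.under (𝓞 L) = Q) (x : 𝓞 L) (y : 𝓞 B)
    (hxy : (y : B) = algebraMap L B (x : L)) (h : x ∉ Q.asIdeal) : y ∉ W.asIdeal := by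
  intro h1
  apply h
  rw [← hW]
  show algebraMap (𝓞 L) (𝓞 B) x ∈ W.asIdeal
  have e : algebraMap (𝓞 L) (𝓞 B) x = y := RingOfIntegers.ext hxy.symm
  rw [e]
  exact h1

end

theorem K9_frob {L : Type} [Field L] [NumberField L] (Q : Pl L) (y : 𝓞 L) :
    y ^ Ideal.absNorm Q.asIdeal - y ∈ Q.asIdeal := by
  have hmax := Q.isMaximal
  let _ : Field (𝓞 L ⧸ Q.asIdeal) := Ideal.Quotient.field Q.asIdeal
  have hfin : Finite (𝓞 L ⧸ Q.asIdeal) := Ideal.finiteQuotientOfFreeOfNeBot Q.asIdeal Q.ne_bot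
  have := Fintype.ofFinite (𝓞 L ⧸ Q.asIdeal)
  have hc : Fintype.card (𝓞 L ⧸ Q.asIdeal) = Ideal.absNorm Q.asIdeal := by
    rw [Ideal.absNorm_apply, Submodule.cardQuot_apply, Nat.card_eq_fintype_card]
  rw [← Ideal.Quotient.eq, map_pow, ← hc]
  exact FiniteField.pow_card _

theorem pow_norm {L : Type} [Field L] [NumberField L] (Q : Pl L) (x : L) (h : Q.valuation L x ≤ 1) :
    Q.valuation L (x ^ Ideal.absNorm Q.asIdeal - x) < 1 := by
  obtain ⟨n, d, hnd⟩ := HeightOneSpectrum.exists_primeCompl_mul_eq_of_integer Q x h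
  have hd : (d : 𝓞 L) ∉ Q.asIdeal := d.2
  have hd1 : Q.valuation L (algebraMap (𝓞 L) L (d : 𝓞 L)) = 1 :=
    (HeightOneSpectrum.valuation_eq_one_iff_notMem (K := L) Q).2 hd
  have hd0 : (algebraMap (𝓞 L) L (d : 𝓞 L)) ≠ 0 := by
    intro h0
    rw [h0, map_zero] at hd1
    exact zero_ne_one hd1
  have hx : x = algebraMap (𝓞 L) L n / algebraMap (𝓞 L) L (d : 𝓞 L) := (eq_div_iff hd0).2 hnd
  set N := Ideal.absNorm Q.asIdeal with hN
  have e : x ^ N - x = (algebraMap (𝓞 L) L (n ^ N - n) * algebraMap (𝓞 L) L (d : 𝓞 L) -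
      algebraMap (𝓞 L) L n * algebraMap (𝓞 L) L ((d : 𝓞 L) ^ N - d)) /
      ((algebraMap (𝓞 L) L (d : 𝓞 L)) ^ N * algebraMap (𝓞 L) L (d : 𝓞 L)) := by
    rw [hx, map_sub, map_sub, map_pow, map_pow, div_pow]
    field_simp
    ring
  have hlt : ∀ a : 𝓞 L, a ∈ Q.asIdeal → Q.valuation L (algebraMap (𝓞 L) L a) < 1 := fun a ha =>
    (HeightOneSpectrum.valuation_lt_one_iff_mem (K := L) Q a).2 ha
  rw [e, map_div₀, map_mul, map_pow, hd1, one_pow, one_mul, div_one]
  refine (Q.valuation L).map_sub_lt ?_ ?_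
  · rw [map_mul, hd1, mul_one]
    exact hlt _ (K9_frob Q n)
  · exact GV7_mul_lt _ (Q.valuation_le_one n) (hlt _ (K9_frob Q _))

theorem K9_cong {k : Type} [Field k] {Γ : Type} [LinearOrderedCommGroupWithZero Γ] (v : Valuation k Γ)
    {a b c : k} (h1 : v (a - b) < 1) (h2 : v (b - c) < 1) : v (a - c) < 1 := by
  have e : a - c = (a - b) + (b - c) := by ring
  rw [e]
  exact v.map_add_lt h1 h2

theorem fix_T {L B : Type} [Field L] [NumberField L] [DecidableEq L] [Field B] [NumberField B]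
    [DecidableEq B] [Algebra F L] [Algebra L B] [Algebra F B] [IsScalarTower F L B] {β : O}
    (hp : Prime β) (hβ : Prim β) (hB : Full β B) (Q : Pl L) (h3 : (3 : 𝓞 L) ∉ Q.asIdeal)
    (hN : Nm β = Ideal.absNorm Q.asIdeal) (hv : Q.valuation L (ak L β) < 1) {b : O}
    (hb : algebraMap O (𝓞 L) b ∉ Q.asIdeal) {T : P27 L} (hT : T ∈ Tor b L) : act β T = T := by
  by_cases h0 : T = 0
  · rw [h0]
    exact map_zero _
  obtain ⟨W, hW⟩ := under_exists (L := B) Q
  obtain ⟨j⟩ := exists_emb (N := B)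
  let i : L →ₐ[F] B := IsScalarTower.toAlgHom F L B
  have hi : ∀ x : L, i x = algebraMap L B x := fun x => rfl
  have hak : ∀ c : O, ak B c = algebraMap L B (ak L c) := fun c =>
    IsScalarTower.algebraMap_apply F L B (c : F)
  have hT0 : mp i T ≠ 0 := mp_ne i h0
  have hTor : mp i T ∈ Tor b B := (mp_mem_Tor i b T).2 hT
  have hb' : algebraMap O (𝓞 B) b ∉ W.asIdeal := by
    refine K9_mem Q W hW _ _ ?_ hb
    rw [← ak_int, ← ak_int]
    exact hak b
  have h3' : (3 : 𝓞 B) ∉ W.asIdeal := by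
    refine K9_mem Q W hW 3 3 ?_ h3
    show ((3 : 𝓞 B) : B) = algebraMap L B ((3 : 𝓞 L) : L)
    have e1 : ((3 : 𝓞 B) : B) = 3 := map_ofNat (algebraMap (𝓞 B) B) 3
    have e2 : ((3 : 𝓞 L) : L) = 3 := map_ofNat (algebraMap (𝓞 L) L) 3
    rw [e1, e2, map_ofNat]
  have hint : W.valuation B (xc (mp i T)) ≤ 1 := tor_int W hb' hTor hT0
  have hv' : W.valuation B (ak B β) < 1 := by
    rw [hak]
    exact lift_lt Q W hW _ hv
  obtain ⟨k1, k2, k3, k4⟩ := kron (W.valuation B) j hp hβ hB hv' hT0 hint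
  have hx : Q.valuation L (xc T) ≤ 1 := tor_int Q hb hT h0
  have hy : Q.valuation L (yc T) ≤ 1 := int_y (Q.valuation L) hx
  have hpx : W.valuation B (xc (mp i T) ^ Nm β - xc (mp i T)) < 1 := by
    rw [xc_mp, hN, hi, ← map_pow, ← map_sub]
    exact lift_lt Q W hW _ (pow_norm Q _ hx)
  have hpy : W.valuation B (yc (mp i T) ^ Nm β - yc (mp i T)) < 1 := by
    rw [yc_mp, hN, hi, ← map_pow, ← map_sub]
    exact lift_lt Q W hW _ (pow_norm Q _ hy)
  have hTor' : act β (mp i T) ∈ Tor b B := by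
    rw [mem_Tor, ← act_mul, mul_comm, act_mul, mem_Tor.1 hTor]
    exact map_zero _
  have key : act β (mp i T) = mp i T :=
    fix_of_cong W h3' hb' hTor' hTor k1 hT0 (K9_cong _ k3 hpx) (K9_cong _ k4 hpy)
  apply mp_inj i
  rw [mp_act]
  exact key

end H28G
end

-- from Lib.H55K.K7
section

open NumberField IsDedekindDomain WeierstrassCurve

namespace H55K

open H55P (IQ embF eF LF Per IsHecke Pt ac Inert Dec Nm)
open H35P (WAB Ker tt)
open H55R (Pl ord es fs smulP)

/-! Chunk K7 (M). Let v = Q.under (𝓞 F), q = absNorm v = absNorm Q (D5_norm: absNorm Q = absNorm(v)^fs is prime; absNorm v = q is given by hn). V above Q (exists_abw), so V above v (Abw.below for K = F): V(ak a) < 1 for a in v. H13S.exists_frob v V gives s. ac s T = act (ψ v) T by Okv.frob with n = l: V(l) = 1 because l is not in v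
(V above v: V(l) < 1 iff l in v), l • T = 0 because π | l (act (l : 𝓞 F) T = l • T: map_natCast, AddMonoid.End.natCast_apply). For y in L with algebraMap L Ω y in V: Q.valuation y ≤ 1, Q.valuation (y^q - y) < 1 (H28G.pow_norm in H28G/K9.lean, general), so V(s y - y) = V((s y - y^q) + (y^q - y)) < 1.
triv_of_es (K = F, N = L, he) gives Fxd L s, so ac s T = T (hL.crd, ac_fix). -/

variable {F : Type} [Field F] [NumberField F] [IQ F] {A B : F} {Om : ℂ} {Ω : Type} [Field Ω] [DecidableEq Ω]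
  [Algebra F Ω] {j : Ω →+* ℂ} {act : 𝓞 F →+* AddMonoid.End (Pt (WAB A B) Ω)}
  {L : Type} [Field L] [NumberField L] [Algebra F L] [Algebra L Ω] [IsScalarTower F L Ω]

theorem fix_T [IsAlgClosure F Ω] {m : Ideal (𝓞 F)} {ψ : Ideal (𝓞 F) →*₀ 𝓞 F} {l : ℕ} {π : 𝓞 F}
    {Ξ : Pt (WAB A B) Ω → Ω} (hd : π ∣ (l : 𝓞 F)) (hL : TFld act F L π) (Q : Pl L)
    (hv : Okv A B act m ψ l π Ξ (Q.under (𝓞 F))) (hQ : (Ideal.absNorm Q.asIdeal).Prime)
    (hn : Ideal.absNorm (Q.under (𝓞 F)).asIdeal = Ideal.absNorm Q.asIdeal)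
    (he : es F L (Q.under (𝓞 F)) = 1) {T : Pt (WAB A B) Ω} (hT : T ∈ Tor act π) :
    act (ψ (Q.under (𝓞 F)).asIdeal) T = T := by
  obtain ⟨V, hV⟩ := exists_abw Ω Q
  have hVv : Abw V (Q.under (𝓞 F)) := hV.below rfl
  have hva : ∀ a : 𝓞 F, a ∈ (Q.under (𝓞 F)).asIdeal → V.valuation (ak Ω a) < 1 := fun a ha =>
    (hVv.lt _).2 (((Q.under (𝓞 F)).valuation_lt_one_iff_mem a).2 ha)
  obtain ⟨s, -, hs⟩ := H13S.exists_frob (Q.under (𝓞 F)) V hva
  have hcast : ∀ n : ℕ, algebraMap F Ω (((n : 𝓞 F) : F)) = (n : Ω) := by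
    intro n
    have e : ((n : 𝓞 F) : F) = (n : F) := by push_cast; rfl
    rw [e, map_natCast]
  have hl1 : V.valuation (l : Ω) = 1 := by
    refine le_antisymm ((V.valuation_le_one_iff _).2 (natCast_mem V l)) (not_lt.1 fun h' => hv.nl ?_)
    rw [← hcast l, hVv.lt] at h'
    exact ((Q.under (𝓞 F)).valuation_lt_one_iff_mem _).1 h'
  have hT1 : l • T = 0 := by
    obtain ⟨c, hc⟩ := hd
    have h1 : act (l : 𝓞 F) T = 0 := by
      rw [hc, mul_comm, map_mul]
      show act c (act π T) = 0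
      have h2 : act π T = 0 := hT
      rw [h2, map_zero]
    rw [map_natCast, AddMonoid.End.natCast_apply] at h1
    exact h1
  have hfrob := hv.frob V hva s hs l hl1 T hT1
  rw [← hfrob]
  have hfx : Fxd L s := by
    have hgal := hL.gal
    refine triv_of_es (K := F) hV he s (fun x => s.commutes x) fun y hy => ?_
    have h1 := hs _ hy
    have h2 : V.valuation (algebraMap L Ω y ^ Ideal.absNorm (Q.under (𝓞 F)).asIdeal - algebraMap L Ω y) < 1 := by
      rw [hn, ← map_pow, ← map_sub, hV.lt]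
      exact H28G.pow_norm Q y ((hV y).1 hy)
    have e : s (algebraMap L Ω y) - algebraMap L Ω y =
        (s (algebraMap L Ω y) - algebraMap L Ω y ^ Ideal.absNorm (Q.under (𝓞 F)).asIdeal) +
        (algebraMap L Ω y ^ Ideal.absNorm (Q.under (𝓞 F)).asIdeal - algebraMap L Ω y) := by ring
    rw [e]
    exact V.valuation.map_add_lt h1 h2
  obtain ⟨x, y, hx, hy⟩ := hL.crd T hT
  exact ac_fix s (by rw [← hx, hfx x]) (by rw [← hy, hfx y])

end H55K
end

-- from Lib.H55K.K1A
section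

open NumberField IsDedekindDomain WeierstrassCurve

namespace H55K

open H55P (IQ embF eF LF Per IsHecke Pt ac Inert Dec Nm)
open H35P (WAB Ker tt)
open H55R (Pl ord es fs smulP)

/-! Chunk K1A (M, port of H28G/K1.lean). exists_TFld: Ω is an algebraic closure of F, K a number field inside Ω. N = IntermediateField.adjoin K S, S = the set of the coordinates xc, yc of the points of Tor act b, finite (exists_TN: the nonzero points form a Finset; the
coordinates of 0 are 0). N/K is finite, normal (every K-automorphism of Ω, restricted to scalars F, maps Tor act b to itself: ac_tor, and xc_ac, yc_ac). gen: s with Fxd K s, fixing the points of Tor act b, fixes S (xc_ac: s (xc T) = xc (ac s T)) and K, so it fixes N: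
IntermediateField.adjoin_induction or algHom_ext_of_eq_adjoin.
tfld_of_istf: L : IntermediateField F Ω with IsTF act π L. crd: a coordinate of T in Tor act π is fixed by all s in L.fixingSubgroup, so it is in fixedField (fixingSubgroup L) = L (InfiniteGalois.fixedField_fixingSubgroup, IsAlgClosure.isGalois F Ω). gal: L is normal over F:
IntermediateField.normal_iff_forall_map_le': for s and x in L: t (s x) = s (s⁻¹ t s x) and s⁻¹ t s fixes the points of Tor act π (ac_mul, ac_tor) so it is in L.fixingSubgroup. gen: clear (Fxd L s iff s in L.fixingSubgroup). -/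

variable {F : Type} [Field F] [NumberField F] [IQ F] {A B : F} {Om : ℂ} {Ω : Type} [Field Ω] [DecidableEq Ω]
  [Algebra F Ω] {j : Ω →+* ℂ} {act : 𝓞 F →+* AddMonoid.End (Pt (WAB A B) Ω)}

theorem exists_TFld [IsAlgClosure F Ω] (h : CMA F A B Om j act) (K : Type) [Field K] [NumberField K]
    [Algebra F K] [Algebra K Ω] [IsScalarTower F K Ω] {b : 𝓞 F} (hb : b ≠ 0) :
    ∃ (N : Type) (_ : Field N) (_ : NumberField N) (_ : Algebra F N) (_ : Algebra K N) (_ : Algebra N Ω)
      (_ : IsScalarTower F K N) (_ : IsScalarTower K N Ω) (_ : IsScalarTower F N Ω), TFld act K N b := by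
  classical
  have hcl : IsAlgClosed Ω := IsAlgClosure.isAlgClosed F
  have halF : Algebra.IsAlgebraic F Ω := IsAlgClosure.isAlgebraic
  have halK : Algebra.IsAlgebraic K Ω := Algebra.IsAlgebraic.tower_top (K := F) K
  set S : Set Ω := {x | ∃ R ∈ Tor act b, x = xc R ∨ x = yc R} with hS
  have hSfin : S.Finite := by
    obtain ⟨T, hT, -⟩ := exists_TN h hb
    have h1 : ((insert 0 T : Finset (Pt (WAB A B) Ω)).image fun R => xc R).finite_toSet.union
      ((insert 0 T : Finset (Pt (WAB A B) Ω)).image fun R => yc R).finite_toSet = _ := rfl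
    refine (((insert 0 T : Finset (Pt (WAB A B) Ω)).image fun R => xc R).finite_toSet.union
      ((insert 0 T : Finset (Pt (WAB A B) Ω)).image fun R => yc R).finite_toSet).subset ?_
    rintro x ⟨R, hR, hx⟩
    have hRT : R ∈ (insert 0 T : Finset (Pt (WAB A B) Ω)) := by
      by_cases h0 : R = 0
      · rw [h0]
        exact Finset.mem_insert_self _ _
      · exact Finset.mem_insert_of_mem ((hT R).2 ⟨hR, h0⟩)
    rcases hx with hx | hx
    · left
      rw [hx]
      exact Finset.mem_coe.2 (Finset.mem_image_of_mem _ hRT)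
    · right
      rw [hx]
      exact Finset.mem_coe.2 (Finset.mem_image_of_mem _ hRT)
  let N : IntermediateField K Ω := IntermediateField.adjoin K S
  have hNfin : FiniteDimensional K N := by
    have h1 : Finite S := hSfin.to_subtype
    exact IntermediateField.finiteDimensional_adjoin fun x _ =>
      (Algebra.IsAlgebraic.isAlgebraic (R := K) x).isIntegral
  have hNn : NumberField N := NumberField.of_module_finite K N
  have hnΩ : Normal K Ω := normal_iff.2 fun x =>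
    ⟨(Algebra.IsAlgebraic.isAlgebraic (R := K) x).isIntegral, IsAlgClosed.splits _⟩
  have hmap : ∀ s : Gal(Ω/K), (s : Ω → Ω) '' S ⊆ S := by
    rintro s _ ⟨x, ⟨R, hR, hx⟩, rfl⟩
    refine ⟨ac (WAB A B) (s.restrictScalars F) R, ac_tor h _ hR, ?_⟩
    rcases hx with hx | hx
    · left
      rw [xc_ac, hx]
      rfl
    · right
      rw [yc_ac, hx]
      rfl
  have hnN : Normal K N := by
    rw [IntermediateField.normal_iff_forall_map_le']
    intro s
    show (IntermediateField.adjoin K S).map _ ≤ IntermediateField.adjoin K S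
    rw [IntermediateField.adjoin_map]
    exact IntermediateField.adjoin.mono _ _ _ (hmap s)
  refine ⟨N, inferInstance, hNn, inferInstance, inferInstance, inferInstance, inferInstance, inferInstance,
    IsScalarTower.of_algebraMap_eq fun _ => rfl, ?_⟩
  refine ⟨⟨⟩, ?_, ?_⟩
  · intro T hT
    exact ⟨⟨xc T, IntermediateField.subset_adjoin _ _ ⟨T, hT, Or.inl rfl⟩⟩,
      ⟨yc T, IntermediateField.subset_adjoin _ _ ⟨T, hT, Or.inr rfl⟩⟩, rfl, rfl⟩
  · intro s hs hfix x
    show s (x : Ω) = (x : Ω)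
    have key : ∀ y ∈ IntermediateField.adjoin K S, s y = y := by
      intro y hy
      induction hy using IntermediateField.adjoin_induction with
      | mem y hy =>
        obtain ⟨R, hR, hy⟩ := hy
        rcases hy with hy | hy
        · rw [hy, ← xc_ac, hfix R hR]
        · rw [hy, ← yc_ac, hfix R hR]
      | algebraMap y => exact hs y
      | add y z _ _ h1 h2 => rw [map_add, h1, h2]
      | inv y _ h1 => rw [map_inv₀, h1]
      | mul y z _ _ h1 h2 => rw [map_mul, h1, h2]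
    exact key x x.2

theorem tfld_of_istf [IsAlgClosure F Ω] (h : CMA F A B Om j act) {π : 𝓞 F} {L : IntermediateField F Ω}
    (hL : IsTF act π L) : TFld act F L π := by
  have hg : IsGalois F Ω := IsAlgClosure.isGalois F Ω
  have hL1 := hL.1
  have hmem : ∀ x : Ω, (∀ s : Ω ≃ₐ[F] Ω, s ∈ L.fixingSubgroup → s x = x) → x ∈ L := by
    intro x hx
    have h1 : x ∈ IntermediateField.fixedField L.fixingSubgroup := by
      rw [IntermediateField.mem_fixedField_iff]
      exact hx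
    rwa [InfiniteGalois.fixedField_fixingSubgroup] at h1
  have hn : Normal F L := by
    rw [IntermediateField.normal_iff_forall_map_le']
    rintro s _ ⟨x, hx, rfl⟩
    apply hmem
    intro t ht
    show t (s x) = s x
    have h2 : s⁻¹ * t * s ∈ L.fixingSubgroup := by
      rw [hL.2]
      intro T hT
      rw [k2_ac_mul, k2_ac_mul, (hL.2 t).1 ht _ (ac_tor h s hT), k2_ac_inv]
    have h3 : (s⁻¹ * t * s) x = x := (IntermediateField.mem_fixingSubgroup_iff L _).1 h2 x hx
    have h4 : s ((s⁻¹ * t * s) x) = t (s x) := by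
      show s (s.symm (t (s x))) = t (s x)
      rw [s.apply_symm_apply]
    rw [← h4, h3]
  refine ⟨⟨⟩, ?_, ?_⟩
  · intro T hT
    have hx : xc T ∈ L := hmem _ fun s hs => by rw [← xc_ac, (hL.2 s).1 hs T hT]
    have hy : yc T ∈ L := hmem _ fun s hs => by rw [← yc_ac, (hL.2 s).1 hs T hT]
    exact ⟨⟨xc T, hx⟩, ⟨yc T, hy⟩, rfl, rfl⟩
  · intro s _ hfix x
    have h1 : s ∈ L.fixingSubgroup := (hL.2 s).2 hfix
    exact (IntermediateField.mem_fixingSubgroup_iff L _).1 h1 x x.2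

end H55K
end

-- from Lib.H55K.K3
section

open NumberField IsDedekindDomain WeierstrassCurve

namespace H55K

open H55P (IQ embF eF LF Per IsHecke Pt ac Inert Dec Nm)
open H35P (WAB Ker tt)
open H55R (Pl ord es fs smulP)

/-! Chunk K3 (M, port of H28G/K3.lean). v.valuation K b = exp(-1). For W above v, V above W (exists_abw): V(ak b) < 1, so GV A B V (hG) and tor_ram: V(tt R)^(Nm b - 1) = V(ak b) for R in Tor act b nonzero; with t : N, algebraMap N Ω t = tt R (t exists: tt_xy and TFld.crd, t = x/y):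
W(t)^(Nm b - 1) = W(b) = exp(-es) (Abw.eq with t^(Nm b - 1) and b; map_pow; ord_map and BF1_val as in H28G/K3.lean). The rest is the proof of H28G/K3.lean: W(t) = exp(-m), (Nm b - 1) m = es, D5_card, card_le give es = Nm b - 1, fs = 1, one prime, degree Nm b - 1.
orb: σ -> ac s R (s an extension of σ) is an injection (orb_inj) from Gal(N/K), Nm b - 1 elements, to Tor act b minus 0, Nm b - 1 elements (exists_TN), so surjective; for any other extension use lft_tor. K3_arith of H28G is elementary (copy it).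
Lemmas about ord_map, BF1_val, es_pos, fs_pos, under_exists, D5_card, D5_mem are in Pool/Agent/Lib/H55R (BF1, BF3, D5, HA11; imports of H28G/K3.lean). -/

variable {F : Type} [Field F] [NumberField F] [IQ F] {A B : F} {Om : ℂ} {Ω : Type} [Field Ω] [DecidableEq Ω]
  [Algebra F Ω] {j : Ω →+* ℂ} {act : 𝓞 F →+* AddMonoid.End (Pt (WAB A B) Ω)}
  {K N : Type} [Field K] [NumberField K] [Field N] [NumberField N] [Algebra F K] [Algebra F N]
  [Algebra K N] [Algebra K Ω] [Algebra N Ω] [IsScalarTower F K N] [IsScalarTower K N Ω]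
  [IsScalarTower F K Ω] [IsScalarTower F N Ω]

theorem k3_arith {c P f m e : ℕ} (hc : 0 < c) (hf : 0 < f) (he : 0 < e) (hm : m * P = e)
    (h : c * (e * f) ≤ P) : c = 1 ∧ f = 1 ∧ m = 1 := by
  subst hm
  have hP : 0 < P := by
    rcases Nat.eq_zero_or_pos P with h0 | h0
    · rw [h0, mul_zero] at he
      exact absurd he (lt_irrefl 0)
    · exact h0
  have hm0 : 0 < m := by
    rcases Nat.eq_zero_or_pos m with h0 | h0
    · rw [h0, zero_mul] at he
      exact absurd he (lt_irrefl 0)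
    · exact h0
  have h1 : (c * f * m) * P ≤ 1 * P := by
    calc (c * f * m) * P = c * (m * P * f) := by ring
      _ ≤ P := h
      _ = 1 * P := (one_mul P).symm
  have h2 : c * f * m ≤ 1 := Nat.le_of_mul_le_mul_right h1 hP
  have h3 : c * f * m = 1 := le_antisymm h2 (Nat.mul_pos (Nat.mul_pos hc hf) hm0)
  have h4 := Nat.eq_one_of_mul_eq_one_left h3
  have h5 := Nat.eq_one_of_mul_eq_one_right h3
  exact ⟨Nat.eq_one_of_mul_eq_one_right h5, Nat.eq_one_of_mul_eq_one_left h5, h4⟩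

theorem tot_ram [IsAlgClosure F Ω] (h : CMA F A B Om j act) {b : 𝓞 F} (hp : Prime b)
    (hN : TFld act K N b) (v : Pl K)
    (hv : v.valuation K (algebraMap F K (b : F)) = WithZero.exp (-1 : ℤ))
    (hG : ∀ V : ValuationSubring Ω, V.valuation (ak Ω b) < 1 → GV A B V) : TotRam act K N b v := by
  classical
  have hgal : IsGalois K N := hN.gal
  have hb0 := hp.ne_zero
  have hle : Module.finrank K N ≤ Nm b - 1 := card_le h hp hN
  have hbF : (b : F) ≠ 0 := by
    intro h1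
    exact hb0 (by exact_mod_cast h1)
  have hakK : algebraMap F K (b : F) ≠ 0 := (map_ne_zero _).2 hbF
  obtain ⟨x, hx⟩ : ∃ x : Kˣ, (x : K) = algebraMap F K (b : F) := ⟨Units.mk0 _ hakK, rfl⟩
  have hordv : ord v x = 1 := by
    have h1 := H55R.BF1_val v x
    rw [hx, hv, WithZero.exp_inj] at h1
    omega
  have hakN : ((Units.map (algebraMap K N : K →* N) x : Nˣ) : N) = algebraMap F N (b : F) := by
    show algebraMap K N (x : K) = _
    rw [hx, ← IsScalarTower.algebraMap_apply F K N]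
  have hval : ∀ W : Pl N, W.under (𝓞 K) = v →
      W.valuation N (algebraMap F N (b : F)) = WithZero.exp (-(es K N v : ℤ)) := by
    intro W hW
    have h1 := H55R.ord_map W v hW x
    rw [hordv, mul_one] at h1
    have h2 := H55R.BF1_val W (Units.map (algebraMap K N : K →* N) x)
    rw [h1, hakN] at h2
    exact h2
  have hes : 0 < es K N v := H55R.es_pos v
  have hfs : 0 < fs K N v := H55R.fs_pos v
  have key : ∀ W : Pl N, W.under (𝓞 K) = v → ∀ R ∈ Tor act b, R ≠ 0 → ∀ t : N, algebraMap N Ω t = tt R →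
      ∃ m : ℕ, W.valuation N t = WithZero.exp (-(m : ℤ)) ∧ m * (Nm b - 1) = es K N v := by
    intro W hW R hR h0 t ht
    obtain ⟨V, hV⟩ := exists_abw Ω W
    have hbΩ : ak Ω b = algebraMap N Ω (algebraMap F N (b : F)) := by
      rw [← IsScalarTower.algebraMap_apply F N Ω]
    have hWb : W.valuation N (algebraMap F N (b : F)) < 1 := by
      rw [hval W hW, ← WithZero.exp_zero, WithZero.exp_lt_exp]
      omega
    have hvb : V.valuation (ak Ω b) < 1 := by
      rw [hbΩ, hV.lt]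
      exact hWb
    obtain ⟨-, h2⟩ := tor_ram h (hG V hvb) hp hvb hR h0
    rw [← ht, hbΩ, ← map_pow, ← map_pow, hV.eq, map_pow] at h2
    have hne : W.valuation N (algebraMap F N (b : F)) ≠ 0 := by
      rw [hval W hW]
      exact WithZero.exp_ne_zero
    have hP0 : Nm b - 1 ≠ 0 := by
      intro h3
      rw [h3, pow_zero] at h2
      exact absurd h2.symm hWb.ne
    have ht0 : W.valuation N t ≠ 0 := by
      intro h3
      rw [h3, zero_pow hP0] at h2
      exact hne h2.symm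
    obtain ⟨k, hk⟩ : ∃ k : ℤ, W.valuation N t = WithZero.exp k :=
      ⟨WithZero.log (W.valuation N t), (WithZero.exp_log ht0).symm⟩
    rw [hval W hW, hk, ← WithZero.exp_nsmul, WithZero.exp_inj, nsmul_eq_mul] at h2
    have hk0 : k ≤ 0 := by
      by_contra hcon
      push Not at hcon
      have h3 : (0 : ℤ) < ((Nm b - 1 : ℕ) : ℤ) := by omega
      have h4 : (0 : ℤ) < ((Nm b - 1 : ℕ) : ℤ) * k := mul_pos h3 hcon
      omega
    obtain ⟨m, hm⟩ : ∃ m : ℕ, k = -(m : ℤ) := ⟨k.natAbs, by omega⟩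
    refine ⟨m, by rw [hk, hm], ?_⟩
    rw [hm] at h2
    have h5 : ((m * (Nm b - 1) : ℕ) : ℤ) = (es K N v : ℤ) := by
      rw [Nat.cast_mul]
      linarith
    exact_mod_cast h5
  have hcoord : ∀ R ∈ Tor act b, ∃ t : N, algebraMap N Ω t = tt R := by
    intro R hR
    obtain ⟨x, y, hx, hy⟩ := hN.crd R hR
    exact ⟨x / y, by rw [map_div₀, hx, hy, tt_xy]⟩
  obtain ⟨W₀, hW₀⟩ := H55R.under_exists (L := N) v
  obtain ⟨T, hT, hT0⟩ := exists_tor h hp
  obtain ⟨t, ht⟩ := hcoord T hT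
  obtain ⟨m, -, hm⟩ := key W₀ hW₀ T hT hT0 t ht
  have hcard := H55R.D5_card (L := N) v
  have hcpos : 0 < (H55R.D5_T (L := N) v).card :=
    Finset.card_pos.2 ⟨W₀, (H55R.D5_mem v W₀).2 hW₀⟩
  obtain ⟨hc1, hf1, hm1⟩ := k3_arith hcpos hfs hes hm (hcard.le.trans hle)
  have hes1 : es K N v = Nm b - 1 := by rw [← hm, hm1, one_mul]
  have hdeg : Module.finrank K N = Nm b - 1 := by
    rw [← hcard, hc1, hf1, hes1, one_mul, mul_one]
  have hP : 0 < Nm b - 1 := hes1 ▸ hes
  refine ⟨hdeg, hes1, hf1, ?_, ?_, ?_⟩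
  · intro W W' hW hW'
    obtain ⟨Z, hZ⟩ := Finset.card_eq_one.1 hc1
    have h1 : W ∈ H55R.D5_T (L := N) v := (H55R.D5_mem v W).2 hW
    have h2 : W' ∈ H55R.D5_T (L := N) v := (H55R.D5_mem v W').2 hW'
    rw [hZ, Finset.mem_singleton] at h1 h2
    rw [h1, h2]
  · intro W hW R hR h0 t' ht'
    obtain ⟨m', hm', hm2⟩ := key W hW R hR h0 t' ht'
    rw [hes1] at hm2
    have h3 : m' = 1 := Nat.eq_of_mul_eq_mul_right hP (by rw [hm2, one_mul])
    rw [hm', h3, Nat.cast_one]
  · intro R hR h0 R' hR' h0'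
    obtain ⟨S, hS, hScard⟩ := exists_TN h hb0
    choose s hs using fun σ : Gal(N/K) => exists_lft (F := F) (Ω := Ω) σ
    let f : Gal(N/K) → S := fun σ =>
      ⟨ac (WAB A B) (s σ) R, (hS _).2 ⟨ac_tor h (s σ) hR, k2_ac_ne (s σ) h0⟩⟩
    have hinj : Function.Injective f := by
      intro σ τ hστ
      exact orb_inj h hp hN hR h0 (hs σ) (hs τ) (congrArg Subtype.val hστ)
    have hbij := hinj.bijective_of_nat_card_le (by
      rw [IsGalois.card_aut_eq_finrank, Nat.card_eq_fintype_card, Fintype.card_coe, hScard, hdeg])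
    obtain ⟨σ, hσ⟩ := hbij.2 ⟨R', (hS _).2 ⟨hR', h0'⟩⟩
    refine ⟨σ, fun s' hs' => ?_⟩
    rw [lft_tor hN hs' (hs σ) hR]
    exact congrArg Subtype.val hσ

end H55K
end

-- from Lib.H55K.K4
section

open NumberField IsDedekindDomain WeierstrassCurve

namespace H55K

open H55P (IQ embF eF LF Per IsHecke Pt ac Inert Dec Nm)
open H35P (WAB Ker tt)
open H55R (Pl ord es fs smulP)

/-! Chunk K4 (M). Unramified primes. β prime, v a prime of L not containing β, hGN: V is good if V(Nm β) < 1. W a prime of N above v (under_exists), V above W (exists_abw). unr_of_inert: let s in Inert V, Fxd L s; to show Fxd N s, by TFld.gen it is enough that ac s R = R for R in Tor act β.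
V(ak β) = 1 (β not in v; Abw.below, Abw.lt, ak_le or k0_int; ak Ω β = algebraMap L Ω (algebraMap F L β)).
(a) V good (GV A B V): cong_fix: R <> 0 is not in Ker V (tor_unit), so its coordinates are integral, s moves them by elements of value < 1, so ac s R - R in Ker V (H35P.Red: theorem rd or the like: Cong implies the difference is in Ker; see also H35P/Red*.lean), it is in Tor act β (ac_tor), so it is 0 (tor_unit).
V is good if V(l) < 1 (Dta.good) or V(Nm β) < 1 (hGN).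
(b) V(l) = 1 and V(Nm β) = 1 (values ≤ 1 of integers): inert_fix for the GMod from Dta.gmod V: s fixes Tor act π (the coordinates of its points are in L: hL.crd, ac_fix), n = Nm β, P = R, n • (ac s R - R) = 0 because Nm β = β * cj β kills Tor act β (mul_cj; act (n : 𝓞 F) P = n • P: map_natCast and AddMonoid.End). -/

variable {F : Type} [Field F] [NumberField F] [IQ F] {A B : F} {Om : ℂ} {Ω : Type} [Field Ω] [DecidableEq Ω]
  [Algebra F Ω] {j : Ω →+* ℂ} {act : 𝓞 F →+* AddMonoid.End (Pt (WAB A B) Ω)}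
  {L N : Type} [Field L] [NumberField L] [Field N] [NumberField N] [Algebra F L] [Algebra F N]
  [Algebra L N] [Algebra L Ω] [Algebra N Ω] [IsScalarTower F L N] [IsScalarTower L N Ω]
  [IsScalarTower F L Ω] [IsScalarTower F N Ω]

/-- Inertia acts trivially on the points killed by a unit, good reduction. -/
theorem cong_fix (h : CMA F A B Om j act) {V : ValuationSubring Ω} (hV : GV A B V) {β : 𝓞 F}
    (hβ : V.valuation (ak Ω β) = 1) {s : Ω ≃ₐ[F] Ω} {R : Pt (WAB A B) Ω} (hR : R ∈ Tor act β)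
    (hs : (xc R ∈ V → V.valuation (s (xc R) - xc R) < 1) ∧ (yc R ∈ V → V.valuation (s (yc R) - yc R) < 1)) :
    ac (WAB A B) s R = R := by
  by_cases h0 : R = 0
  · rw [h0]
    exact map_zero _
  have hK : ¬ Ker V R := fun hk => h0 (tor_unit h hV hβ hR hk)
  obtain ⟨-, hx⟩ := not_ker V hK
  have hy := gv_y hV hK
  obtain ⟨h1, h2⟩ := hs
  have hx' := h1 ((V.valuation_le_one_iff _).1 hx)
  have hy' := h2 ((V.valuation_le_one_iff _).1 hy)
  have hR' := ac_tor h s hR
  have h0' := k2_ac_ne s h0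
  have hK' : ¬ Ker V (ac (WAB A B) s R) := fun hk => h0' (tor_unit h hV hβ hR' hk)
  have h3 : Ker V (ac (WAB A B) s R - R) := by
    refine cls_xy hV hK' hK ?_ ?_
    · rw [xc_ac]
      exact hx'
    · rw [yc_ac]
      exact hy'
  exact sub_eq_zero.1 (tor_unit h hV hβ (sub_mem hR' hR) h3)

theorem unram [IsAlgClosure F Ω] {m : Ideal (𝓞 F)} {ψ : Ideal (𝓞 F) →*₀ 𝓞 F} {l : ℕ}
    (h : Dta A B Om j act m ψ l) {π : 𝓞 F} (hπ : Prime π) (hd : π ∣ (l : 𝓞 F)) (hL : TFld act F L π)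
    {β : 𝓞 F} (hβ : Prime β) (hN : TFld act L N β)
    (hGN : ∀ V : ValuationSubring Ω, V.valuation ((Nm β : ℕ) : Ω) < 1 → GV A B V) (v : Pl L)
    (hv : algebraMap (𝓞 F) (𝓞 L) β ∉ v.asIdeal) : es L N v = 1 := by
  have hgal := hN.gal
  obtain ⟨W, hW⟩ := H55R.under_exists (L := N) v
  obtain ⟨V, hV⟩ := exists_abw Ω W
  rw [← hW]
  refine unr_of_inert (F := F) (K := L) hV ?_
  intro s hs hsL
  have hVv : Abw V v := hV.below hW
  have hb : V.valuation (ak Ω β) = 1 := by
    have h1 := (hVv.eq_one ((algebraMap (𝓞 F) (𝓞 L) β : 𝓞 L) : L)).2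
      ((HeightOneSpectrum.valuation_eq_one_iff_notMem v).2 hv)
    have e : algebraMap L Ω ((algebraMap (𝓞 F) (𝓞 L) β : 𝓞 L) : L) = ak Ω β := by
      show algebraMap L Ω (algebraMap F L (β : F)) = _
      exact (IsScalarTower.algebraMap_apply F L Ω _).symm
    rwa [e] at h1
  refine hN.gen s hsL ?_
  intro R hR
  by_cases hl : V.valuation (l : Ω) < 1
  · exact cong_fix h.cma (h.good V hl) hb hR ⟨fun hx => hs _ hx, fun hy => hs _ hy⟩
  by_cases hn : V.valuation ((Nm β : ℕ) : Ω) < 1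
  · exact cong_fix h.cma (hGN V hn) hb hR ⟨fun hx => hs _ hx, fun hy => hs _ hy⟩
  have hl1 : V.valuation (l : Ω) = 1 := le_antisymm (g4c_nat V l) (not_lt.1 hl)
  have hn1 : V.valuation ((Nm β : ℕ) : Ω) = 1 := le_antisymm (g4c_nat V _) (not_lt.1 hn)
  obtain ⟨Kg, u, hG⟩ := h.gmod V
  refine inert_fix h.cma h.prime h.five hπ hd hG hl1 s hs ?_ (Nm β) hn1 R ?_
  · intro T hT
    obtain ⟨x, y, hx, hy⟩ := hL.crd T hT
    refine ac_fix s ?_ ?_
    · rw [← hx]
      exact hsL x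
    · rw [← hy]
      exact hsL y
  · exact tor_nm (act := act) (sub_mem (ac_tor h.cma s hR) hR)

end H55K
end

-- from Lib.H55K.SIZ
section

/-! # H55K, part S: vanishing on inertia groups -/

open NumberField IsDedekindDomain WeierstrassCurve

namespace H55K.S

open H55P (IQ embF eF LF Per IsHecke Pt ac Inert Dec Nm)
open H35P (WAB Ker tt)
open H13S (Abv)

variable {F : Type} [Field F] [NumberField F] [IQ F] {A B : F} {Om : ℂ} {Ω : Type} [Field Ω] [DecidableEq Ω]
  [Algebra F Ω] {j : Ω →+* ℂ} {act : 𝓞 F →+* AddMonoid.End (Pt (WAB A B) Ω)} {mo : Ideal (𝓞 F)}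
  {ψ : Ideal (𝓞 F) →*₀ 𝓞 F}

theorem cl_l {π : 𝓞 F} {l : ℕ} {c : (Ω ≃ₐ[F] Ω) → Pt (WAB A B) Ω} (C : Cl A B Om j act mo ψ π l c)
    (s : Ω ≃ₐ[F] Ω) : l • c s = 0 := by
  obtain ⟨u, hu⟩ := C.dvd
  have h1 : (l : 𝓞 F) = cj u * cj π := by
    have h2 := congrArg cj hu
    rw [map_natCast, map_mul] at h2
    rw [h2, mul_comm]
  rw [← act_nat (act := act), h1, act_mul, mem_Tor.1 (C.val s), map_zero]

/-- At the places above π in the split case. -/
theorem c_inert_zero {π : 𝓞 F} {l : ℕ} {c : (Ω ≃ₐ[F] Ω) → Pt (WAB A B) Ω} (C : Cl A B Om j act mo ψ π l c)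
    (V : ValuationSubring Ω) (hG : GV A B V) (hc : vo V (cj π) = 1) (s : Ω ≃ₐ[F] Ω) (hs : Inert V s) :
    c s = 0 := by
  obtain ⟨P, hP⟩ := C.loc V
  refine kr_tor C.cma hG (cj π) hc (C.val s) ?_
  rw [hP s hs]
  exact kr_inert hG s hs P

/-- At the places not above l, for the elements fixing the points killed by π. -/
theorem c_inert_away {π : 𝓞 F} {l : ℕ} {c : (Ω ≃ₐ[F] Ω) → Pt (WAB A B) Ω} (C : Cl A B Om j act mo ψ π l c)
    (V : ValuationSubring Ω) (hV : V.valuation (l : Ω) = 1) (s : Ω ≃ₐ[F] Ω) (hs : Inert V s)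
    (hf : ∀ T ∈ Tor act π, ac (WAB A B) s T = T) : c s = 0 := by
  obtain ⟨Kg, u, hK⟩ := C.dta.gmod V
  obtain ⟨P, hP⟩ := C.loc V
  have h1 := inert_fix C.cma C.hl C.five C.pr C.dvd hK hV s hs hf l hV P (by rw [← hP s hs]; exact cl_l C s)
  rw [hP s hs, h1, sub_self]

end H55K.S
end

-- from Lib.H55K.K5
section

open NumberField IsDedekindDomain WeierstrassCurve

namespace H55K

open H55P (IQ embF eF LF Per IsHecke Pt ac Inert Dec Nm)
open H35P (WAB Ker tt)
open H55R (Pl ord es fs smulP)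

/-! Chunk K5 (M, port of H28G/K7.lean). w above v = (b) in the field N generated over F by the points killed by b. k5_res = H28G.K7_res for a variable F (copy). exists_loc: tot_ram gives TR; ker, surj, ram (w.valuation b = exp(-es), es = Nm b - 1 ≥ 2, integers have value ≤ 1), inv (TR.one, under_smulP), unif (TR.val, BF1_val), act:
r(y) = q y = χ σ; s an extension of σ (exists_lft), ac s T = act y T (hχ), V above w, hG: tt_act: V(tt(act y T) - ak y * tt T) ≤ V(tt T)^2, tt (ac s T) = s (tt T) = algebraMap N Ω (σ t) (tt_ac, Lft); Abw.le with t^2; w(t)^2 = exp(-2) (TR.val). Ker V T from tor_ram. -/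

variable {F : Type} [Field F] [NumberField F] [IQ F] {A B : F} {Om : ℂ} {Ω : Type} [Field Ω] [DecidableEq Ω]
  [Algebra F Ω] {j : Ω →+* ℂ} {act : 𝓞 F →+* AddMonoid.End (Pt (WAB A B) Ω)}
  {N : Type} [Field N] [NumberField N] [Algebra F N] [Algebra N Ω] [IsScalarTower F N Ω]

omit [IQ F] in
/-- The residue fields agree. -/
theorem k5_res {N : Type} [Field N] [NumberField N] [Algebra F N] [IsGalois F N] (v : Pl F) (w : Pl N)
    (hw : w.under (𝓞 F) = v) (hf : fs F N v = 1) {k : Type} [Field k] (q : 𝓞 F →+* k)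
    (hk : ∀ x : 𝓞 F, q x = 0 ↔ x ∈ v.asIdeal) : ∃ r : 𝓞 N →+* k,
      (∀ x : 𝓞 N, r x = 0 ↔ x ∈ w.asIdeal) ∧ ∀ y : 𝓞 F, r (algebraMap (𝓞 F) (𝓞 N) y) = q y := by
  have hu : ∀ y : 𝓞 F, y ∈ v.asIdeal ↔ algebraMap (𝓞 F) (𝓞 N) y ∈ w.asIdeal := by
    intro y
    rw [← hw]
    exact Iff.rfl
  let φ : (𝓞 F ⧸ v.asIdeal) →+* (𝓞 N ⧸ w.asIdeal) :=
    Ideal.quotientMap w.asIdeal (algebraMap (𝓞 F) (𝓞 N)) fun y hy => (hu y).1 hy
  have hφ1 : Function.Injective φ := Ideal.quotientMap_injective' fun y hy => (hu y).2 hy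
  have hfin1 : Finite (𝓞 F ⧸ v.asIdeal) := Ideal.finiteQuotientOfFreeOfNeBot v.asIdeal v.ne_bot
  have hfin2 : Finite (𝓞 N ⧸ w.asIdeal) := Ideal.finiteQuotientOfFreeOfNeBot w.asIdeal w.ne_bot
  have hcard : Nat.card (𝓞 F ⧸ v.asIdeal) = Nat.card (𝓞 N ⧸ w.asIdeal) := by
    have h1 := H55R.D5_norm v w hw
    rw [hf, pow_one, Ideal.absNorm_apply, Ideal.absNorm_apply, Submodule.cardQuot_apply,
      Submodule.cardQuot_apply] at h1
    exact h1.symm
  have hφ : Function.Bijective φ := (Nat.bijective_iff_injective_and_card φ).2 ⟨hφ1, hcard⟩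
  let ψ : (𝓞 F ⧸ v.asIdeal) ≃+* (𝓞 N ⧸ w.asIdeal) := RingEquiv.ofBijective φ hφ
  let q' : (𝓞 F ⧸ v.asIdeal) →+* k := Ideal.Quotient.lift v.asIdeal q fun a ha => (hk a).2 ha
  let r : 𝓞 N →+* k := q'.comp ((ψ.symm : (𝓞 N ⧸ w.asIdeal) →+* (𝓞 F ⧸ v.asIdeal)).comp
    (Ideal.Quotient.mk w.asIdeal))
  have hr : ∀ y : 𝓞 F, r (algebraMap (𝓞 F) (𝓞 N) y) = q y := by
    intro y
    have e1 : ψ (Ideal.Quotient.mk v.asIdeal y) = Ideal.Quotient.mk w.asIdeal (algebraMap (𝓞 F) (𝓞 N) y) := rfl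
    show q' (ψ.symm (Ideal.Quotient.mk w.asIdeal (algebraMap (𝓞 F) (𝓞 N) y))) = q y
    rw [← e1, RingEquiv.symm_apply_apply]
    rfl
  refine ⟨r, fun x => ?_, hr⟩
  obtain ⟨z, hz⟩ := hφ.2 (Ideal.Quotient.mk w.asIdeal x)
  obtain ⟨y, rfl⟩ := Ideal.Quotient.mk_surjective z
  have e2 : Ideal.Quotient.mk w.asIdeal (algebraMap (𝓞 F) (𝓞 N) y) = Ideal.Quotient.mk w.asIdeal x := hz
  have e3 : r x = q y := by
    rw [← hr y]
    show q' (ψ.symm (Ideal.Quotient.mk w.asIdeal x)) =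
      q' (ψ.symm (Ideal.Quotient.mk w.asIdeal (algebraMap (𝓞 F) (𝓞 N) y)))
    rw [e2]
  rw [e3, hk, hu, ← Ideal.Quotient.eq_zero_iff_mem, e2, Ideal.Quotient.eq_zero_iff_mem]

theorem exists_loc [IsAlgClosure F Ω] (h : CMA F A B Om j act) {b : 𝓞 F} (hp : Prime b)
    (hN : TFld act F N b) (h3 : 2 < Nm b)
    (hG : ∀ V : ValuationSubring Ω, V.valuation (ak Ω b) < 1 → GV A B V) {k : Type} [Field k]
    (q : 𝓞 F →+* k) (hq : Function.Surjective q) (hk : ∀ x, q x = 0 ↔ b ∣ x) (χ : Gal(N/F) →* kˣ)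
    (hχ : ∀ (σ : Gal(N/F)) (s : Ω ≃ₐ[F] Ω) (c : 𝓞 F), Lft σ s → q c = χ σ → ∀ R ∈ Tor act b,
      ac (WAB A B) s R = act c R) (v : Pl F)
    (hv : v.asIdeal = Ideal.span {b}) (w : Pl N) (hw : w.under (𝓞 F) = v) (T : Pt (WAB A B) Ω)
    (hT : T ∈ Tor act b) (h0 : T ≠ 0) (t : Nˣ) (ht : algebraMap N Ω (t : N) = tt T) :
    ∃ r : 𝓞 N →+* k, Ab.Loc χ w t r ∧ ∀ y : 𝓞 F, r (algebraMap (𝓞 F) (𝓞 N) y) = q y := by
  have hgal : IsGalois F N := hN.gal
  have hb0 : b ≠ 0 := hp.ne_zero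
  have hval : v.valuation F (algebraMap F F (b : F)) = WithZero.exp (-1 : ℤ) := by
    have e : algebraMap F F (b : F) = algebraMap (𝓞 F) F b := rfl
    rw [e, v.valuation_of_algebraMap, v.intValuation_singleton hb0 hv]
  have TR := tot_ram h hp hN v hval hG
  obtain ⟨r, hr1, hr2⟩ := k5_res v w hw TR.fs q fun x => by
    rw [hk, hv, Ideal.mem_span_singleton]
  have hbF : (b : F) ≠ 0 := fun h1 => hb0 (RingOfIntegers.coe_injective (h1.trans (map_zero _).symm))
  have hwb : w.valuation N (algebraMap F N (b : F)) = WithZero.exp (-(es F N v : ℤ)) := by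
    let u : Fˣ := Units.mk0 _ hbF
    have h1 : ord v u = 1 := by
      have h2 := H55R.BF1_val v u
      have h3 : v.valuation F (b : F) = WithZero.exp (-1 : ℤ) := hval
      rw [Units.val_mk0, h3, WithZero.exp_inj] at h2
      omega
    have h2 := H55R.ord_map w v hw u
    rw [h1, mul_one] at h2
    have h4 := H55R.BF1_val w (Units.map (algebraMap F N : F →* N) u)
    rw [h2] at h4
    exact h4
  have hT2 : w.valuation N (t : N) = WithZero.exp (-1 : ℤ) := TR.val w hw T hT h0 t ht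
  refine ⟨r, ⟨hr1, fun c => ?_, fun y hy => ?_, fun σ => ?_, ?_, fun σ y hy => ?_⟩, hr2⟩
  · obtain ⟨y, hy⟩ := hq c
    exact ⟨y, (hr2 y).trans hy⟩
  · have h1 : q y = 0 := (hr2 y).symm.trans hy
    rw [hk] at h1
    obtain ⟨c, rfl⟩ := h1
    have e1 : algebraMap F N ((b * c : 𝓞 F) : F) = algebraMap F N (b : F) * algebraMap F N (c : F) := by
      rw [← map_mul]
      rfl
    have h5 : w.valuation N (algebraMap F N (c : F)) ≤ 1 := by
      have e2 : algebraMap F N (c : F) = algebraMap (𝓞 N) N (algebraMap (𝓞 F) (𝓞 N) c) := rfl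
      rw [e2]
      exact w.valuation_le_one _
    rw [e1, map_mul, hwb]
    refine (mul_le_of_le_one_right' h5).trans ?_
    rw [WithZero.exp_le_exp, TR.es]
    omega
  · exact TR.one _ _ ((H55R.under_smulP σ w).trans hw) hw
  · have h1 := H55R.BF1_val w t
    rw [hT2, WithZero.exp_inj] at h1
    omega
  · have h1 : q y = χ σ := (hr2 y).symm.trans hy
    obtain ⟨s, hs⟩ := exists_lft (F := F) (Ω := Ω) σ
    have h2 := hχ σ s y hs h1 T hT
    obtain ⟨V, hV⟩ := exists_abw Ω w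
    have hVv : Abw V v := hV.below hw
    have hVb : V.valuation (ak Ω b) < 1 := (hVv.lt _).2 ((v.valuation_lt_one_iff_mem b).2 (by
      rw [hv]
      exact Ideal.mem_span_singleton_self b))
    have hGV := hG V hVb
    have hK := (tor_ram h hGV hp hVb hT h0).1
    have h4 := tt_act h hGV y hK
    rw [← h2, tt_ac, ← ht, hs] at h4
    have e3 : ak Ω y = algebraMap N Ω (algebraMap F N (y : F)) := IsScalarTower.algebraMap_apply F N Ω _
    rw [e3, ← map_mul, ← map_sub, ← map_pow, ← map_pow, hV.le, map_pow, hT2] at h4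
    refine h4.trans (le_of_eq ?_)
    rw [← WithZero.exp_nsmul]
    norm_num

end H55K
end

-- from Lib.H55K.K9
section

open NumberField IsDedekindDomain WeierstrassCurve

namespace H55K

open H55P (IQ embF eF LF Per IsHecke Pt ac Inert Dec Nm)
open H35P (WAB Ker tt)
open H55R (Pl ord es fs smulP)

/-! Chunk K9 (M/L, port of exists_aux in H28G/K11.lean). β = ψ (Q.under).asIdeal, aux_prime (hv.cop); hn from it. N from exists_TFld L β. hG for β: V(ak β) < 1 implies V(absNorm v) < 1 (absNorm v = Nm β = β cj β, ak_le; mul_cj), so GV by hv.gv. tot_ram L N β at smulP σ Q for every σ (valuation exp(-1)). R in Tor act β nonzero (exists_tor);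
t : N with algebraMap N Ω t = tt R (tt_xy, hN.crd: t = x / y), t ≠ 0 (value exp(-1)); al : N with algebraMap N Ω al = Ξ (T + R): mem_of_fxd, because s with Fxd N s fixes R (crd, ac_fix) and T (L ⊂ N), hX.gal; al ≠ 0 (value 1 at some V).
gal: hN.gal. cyc: exists_chi for the field 𝓞 F ⧸ span {β} (injection of Gal(N/L) into the units of a finite field: isCyclic_of_injective). card: IsGalois.card_aut_eq_finrank, TotRam.deg. ram: TotRam.es. unr: unram (hv.gv with Nm β = absNorm v). unif: TotRam.val, BF1_val.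
κ: for g choose an extension s of g, ac s R = act c R (tor_gen, ac_tor), c = n mod β for an integer n (H28G/K11.lean K11_int for variable F: the residue field has a prime number of elements), κ g = n. tame: V above W (exists_abw): tt_act for n: V(tt (act n R) - n tt R) ≤ V(tt R)^2; tt (act n R) = tt (ac s R) = s (tt R) = algebraMap N Ω (g t);
Abw.le with t^2; W(t)^2 = exp(-2) (TotRam.val). Ker V R from tor_ram (V(ak β) < 1: β in smulP σ Q). norm: norm_xi with fix_T and hv.xi (third part). unit: V above W, hv.xi first part, Abw.eq_one, BF1_val. congr: V above W above smulP σ Q, V(ak β) < 1, hv.xi second part, Abw.lt; algebraMap N Ω (algebraMap L N ξ) = Ξ T. -/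

variable {F : Type} [Field F] [NumberField F] [IQ F] {A B : F} {Om : ℂ} {Ω : Type} [Field Ω] [DecidableEq Ω]
  [Algebra F Ω] {j : Ω →+* ℂ} {act : 𝓞 F →+* AddMonoid.End (Pt (WAB A B) Ω)}
  {L : Type} [Field L] [NumberField L] [Algebra F L] [Algebra L Ω] [IsScalarTower F L Ω]

omit [IQ F] [DecidableEq Ω] [Algebra F Ω] in
theorem k9_int {β : 𝓞 F} (hN : (Nm β).Prime) (c : 𝓞 F) : ∃ n : ℤ, β ∣ c - n := by
  have hf : Fact (Nm β).Prime := ⟨hN⟩
  have hcard : Nat.card (𝓞 F ⧸ Ideal.span {β}) = Nm β := by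
    unfold H55P.Nm
    rw [Ideal.absNorm_apply, Submodule.cardQuot_apply]
  have h1 : (1 : 𝓞 F ⧸ Ideal.span {β}) ≠ 0 := by
    intro h0
    have hs : Subsingleton (𝓞 F ⧸ Ideal.span {β}) := subsingleton_of_zero_eq_one h0.symm
    rw [Nat.card_of_subsingleton (0 : 𝓞 F ⧸ Ideal.span {β})] at hcard
    rw [← hcard] at hN
    exact Nat.not_prime_one hN
  have h2 := mem_zmultiples_of_prime_card hcard h1 (g' := Ideal.Quotient.mk (Ideal.span {β}) c)
  obtain ⟨n, hn⟩ := AddSubgroup.mem_zmultiples_iff.1 h2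
  refine ⟨n, ?_⟩
  rw [← Ideal.mem_span_singleton, ← Ideal.Quotient.eq, ← hn, map_intCast, zsmul_eq_mul, mul_one]


omit [NumberField F] [IQ F] in
theorem k9_fix {N : Type} [Field N] [Algebra N Ω] {b : 𝓞 F}
    (hcrd : ∀ T ∈ Tor act b, ∃ x y : N, algebraMap N Ω x = xc T ∧ algebraMap N Ω y = yc T)
    {s : Ω ≃ₐ[F] Ω} (hs : Fxd N s) {T : Pt (WAB A B) Ω} (hT : T ∈ Tor act b) :
    ac (WAB A B) s T = T := by
  obtain ⟨x, y, hx, hy⟩ := hcrd T hT
  exact ac_fix s (by rw [← hx, hs]) (by rw [← hy, hs])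

omit [NumberField F] [IQ F] in
theorem k9_tt {N : Type} [Field N] [Algebra N Ω] {b : 𝓞 F}
    (hcrd : ∀ T ∈ Tor act b, ∃ x y : N, algebraMap N Ω x = xc T ∧ algebraMap N Ω y = yc T)
    {T : Pt (WAB A B) Ω} (hT : T ∈ Tor act b) : ∃ t : N, algebraMap N Ω t = tt T := by
  obtain ⟨x, y, hx, hy⟩ := hcrd T hT
  exact ⟨x / y, by rw [tt_xy, map_div₀, hx, hy]⟩

theorem k9_small {V : ValuationSubring Ω} {β : 𝓞 F} (hv : V.valuation (ak Ω β) < 1) :
    V.valuation ((Nm β : ℕ) : Ω) < 1 := by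
  have h1 : ((Nm β : ℕ) : Ω) = ak Ω β * ak Ω (cj β) := by
    have h2 := mul_cj β
    have h3 := congrArg (fun x : 𝓞 F => ak Ω x) h2
    show _ = algebraMap F Ω (β : F) * algebraMap F Ω ((cj β : 𝓞 F) : F)
    rw [← map_mul]
    have h4 : ((β : F) * ((cj β : 𝓞 F) : F)) = ((Nm β : ℕ) : F) := by
      have h5 := congrArg (algebraMap (𝓞 F) F) h2
      rw [map_mul, map_natCast] at h5
      exact h5
    rw [h4, map_natCast]
  rw [h1, map_mul]
  exact mul_lt_one_of_lt_of_le hv (ak_le V _)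

theorem exists_aux [IsAlgClosure F Ω] {m : Ideal (𝓞 F)} {ψ : Ideal (𝓞 F) →*₀ 𝓞 F} {l : ℕ} {π : 𝓞 F}
    {Ξ : Pt (WAB A B) Ω → Ω} (h : Dta A B Om j act m ψ l) (hX : XiD act ψ π Ξ) (hπ : Prime π)
    (hd : π ∣ (l : 𝓞 F)) (hL : TFld act F L π) {T : Pt (WAB A B) Ω} (hT : T ∈ Tor act π) (h0 : T ≠ 0)
    (ξ : Lˣ) (hξ : algebraMap L Ω (ξ : L) = Ξ T) (Q : Pl L)
    (hv : Okv A B act m ψ l π Ξ (Q.under (𝓞 F))) (hQ : (Ideal.absNorm Q.asIdeal).Prime)
    (he : es F L (Q.under (𝓞 F)) = 1) :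
    ∃ (N : Type) (_ : Field N) (_ : NumberField N) (_ : Algebra L N) (κ : Gal(N/L) → ℤ)
      (t al : Nˣ), Ab.Aux F L Q ξ N κ t al := by
  classical
  have hC := h.cma
  have hgalL := hL.gal
  obtain ⟨β, hβe⟩ : ∃ β, β = ψ (Q.under (𝓞 F)).asIdeal := ⟨_, rfl⟩
  obtain ⟨hp, hspan, hN, hn, hmem, hval⟩ := aux_prime h.hecke Q hv.cop hQ he β hβe
  obtain ⟨N, i1, i2, i3, i4, i5, i6, i7, i8, hNf⟩ := exists_TFld hC L hp.ne_zero
  have hgal := hNf.gal
  have hGN : ∀ V : ValuationSubring Ω, V.valuation ((Nm β : ℕ) : Ω) < 1 → GV A B V := by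
    intro V hV
    apply hv.gv V
    rw [hn, ← hN]
    exact hV
  have hG : ∀ V : ValuationSubring Ω, V.valuation (ak Ω β) < 1 → GV A B V :=
    fun V hV => hGN V (k9_small hV)
  have tr : ∀ σ : Gal(L/F), TotRam act L N β (smulP σ Q) := fun σ => tot_ram hC hp hNf _ (hval σ) hG
  obtain ⟨R, hR, hR0⟩ := exists_tor hC hp
  obtain ⟨t, ht⟩ := k9_tt hNf.crd hR
  have hval2 : ∀ σ : Gal(L/F), ∀ W : Pl N, W.under (𝓞 L) = smulP σ Q →
      W.valuation N t = WithZero.exp (-1 : ℤ) := fun σ W hW => (tr σ).val W hW R hR hR0 t ht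
  -- the uniformizer
  obtain ⟨W0, hW0⟩ := H55R.under_exists (K := L) (L := N) (smulP (1 : Gal(L/F)) Q)
  have htt : t ≠ 0 := by
    intro h0
    have h := hval2 1 W0 hW0
    rw [h0, map_zero] at h
    exact WithZero.exp_ne_zero h.symm
  -- V above W above a conjugate of Q
  have hVβ : ∀ σ : Gal(L/F), ∀ W : Pl N, W.under (𝓞 L) = smulP σ Q → ∀ V : ValuationSubring Ω, Abw V W →
      V.valuation (ak Ω β) < 1 := by
    intro σ W hW V hV
    have h1 : Abw V (smulP σ Q) := hV.below hW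
    have h2 : ak Ω β = algebraMap L Ω (algebraMap F L (β : F)) :=
      IsScalarTower.algebraMap_apply F L Ω (β : F)
    rw [h2, h1.lt, hval σ, ← WithZero.exp_zero, WithZero.exp_lt_exp]
    norm_num
  -- the unit
  have hxi := hv.xi T hT h0
  rw [← hβe] at hxi
  obtain ⟨al, hal⟩ : ∃ al : N, algebraMap N Ω al = Ξ (T + R) := by
    refine mem_of_fxd (F := F) N _ fun s hs => ?_
    have hsL : Fxd L s := by
      intro x
      rw [IsScalarTower.algebraMap_apply L N Ω x]
      exact hs _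
    rw [hX.gal, map_add, k9_fix hL.crd hsL hT, k9_fix hNf.crd hs hR]
  have hone : ∀ V : ValuationSubring Ω, V.valuation (algebraMap N Ω al) = 1 := fun V => by
    rw [hal]
    exact hxi.1 R hR V
  have hne : al ≠ 0 := by
    intro h1
    obtain ⟨V, -⟩ := exists_abw Ω W0
    have h2 := hone V
    rw [h1, map_zero, map_zero] at h2
    exact zero_ne_one h2
  -- the character
  have hκ : ∀ g : Gal(N/L), ∃ n : ℤ, ∀ s : Ω ≃ₐ[F] Ω, Lft g s → ac (WAB A B) s R = act (n : 𝓞 F) R := by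
    intro g
    obtain ⟨s, hs⟩ := exists_lft (F := F) (Ω := Ω) g
    obtain ⟨c, hc⟩ := tor_gen hC hp hR (ac_tor hC s hR) hR0
    obtain ⟨n, y, hy⟩ := k9_int (by rw [hN]; exact hQ) c
    refine ⟨n, fun s' hs' => ?_⟩
    have e1 : c = y * β + n := by linear_combination hy
    rw [lft_tor hNf hs' hs hR, ← hc, e1, map_add, map_mul]
    have hR' : act β R = 0 := hR
    show act y (act β R) + act (n : 𝓞 F) R = act (n : 𝓞 F) R
    rw [hR', map_zero, zero_add]
  choose κ hκ using hκ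
  refine ⟨N, i1, i2, i4, κ, Units.mk0 t htt, Units.mk0 al hne, ?_⟩
  refine ⟨hgal, ?_, ?_, ?_, ?_, ?_, ?_, ?_, ?_, ?_⟩
  · have hmax : (Ideal.span {β}).IsMaximal := by
      have h1 : (Ideal.span {β}).IsPrime := (Ideal.span_singleton_prime hp.ne_zero).2 hp
      exact h1.isMaximal (by rw [Ne, Ideal.span_singleton_eq_bot]; exact hp.ne_zero)
    let _ := Ideal.Quotient.field (Ideal.span {β})
    have hfin : Finite (𝓞 F ⧸ Ideal.span {β}) := by
      apply Ideal.finiteQuotientOfFreeOfNeBot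
      rw [Ne, Ideal.span_singleton_eq_bot]
      exact hp.ne_zero
    obtain ⟨χ, hχ, -⟩ := exists_chi hC hp hNf (Ideal.Quotient.mk (Ideal.span {β}))
      Ideal.Quotient.mk_surjective (fun x => by
        rw [Ideal.Quotient.eq_zero_iff_mem, Ideal.mem_span_singleton])
    exact isCyclic_of_injective χ hχ
  · rw [IsGalois.card_aut_eq_finrank, (tr 1).deg, hN]
  · intro σ
    rw [(tr σ).es, hN]
  · intro v hv'
    exact unram h hπ hd hL hp hNf hGN v fun h => by
      obtain ⟨σ, hσ⟩ := (hmem v).1 h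
      exact hv' σ hσ
  · intro σ W hW
    have h4 := H55R.BF1_val W (Units.mk0 t htt)
    rw [Units.val_mk0, hval2 σ W hW] at h4
    have h5 := WithZero.exp_injective h4
    omega
  · intro σ W hW g
    obtain ⟨V, hV⟩ := exists_abw Ω W
    have hVb := hVβ σ W hW V hV
    have hK := (tor_ram hC (hG V hVb) hp hVb hR hR0).1
    obtain ⟨s, hs⟩ := exists_lft (F := F) (Ω := Ω) g
    have h1 := tt_act hC (hG V hVb) ((κ g : ℤ) : 𝓞 F) hK
    rw [← hκ g s hs, tt_ac, ← ht, hs] at h1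
    have h7 : ak Ω ((κ g : ℤ) : 𝓞 F) = algebraMap N Ω (κ g : N) := by
      rw [map_intCast]
      show algebraMap F Ω (((κ g : ℤ) : 𝓞 F) : F) = _
      have : ((((κ g : ℤ) : 𝓞 F)) : F) = ((κ g : ℤ) : F) := map_intCast (algebraMap (𝓞 F) F) _
      rw [this, map_intCast]
    rw [h7, ← map_mul, ← map_sub, ← map_pow, ← map_pow, hV.le, map_pow, hval2 σ W hW] at h1
    refine h1.trans (le_of_eq ?_)
    rw [← WithZero.exp_nsmul]
    rfl
  · refine norm_xi hC hp hL hNf (tr 1).orb hX.gal hT (fun S' hS' => ?_) hR hR0 al hal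
    refine hxi.2.2 ?_ S' hS'
    rw [hβe]
    exact fix_T hd hL Q hv hQ hn he hT
  · intro W
    obtain ⟨V, hV⟩ := exists_abw Ω W
    rw [H55R.HB1_ord_zero]
    exact (hV.eq_one al).1 (hone V)
  · intro σ W hW
    obtain ⟨V, hV⟩ := exists_abw Ω W
    rw [Units.val_mk0]
    rw [← hV.lt, map_sub, hal, ← IsScalarTower.algebraMap_apply L N Ω, hξ]
    exact hxi.2.1 R hR V (hVβ σ W hW V hV)

end H55K
end

-- from Lib.H35P.EVp
section

/-! The target of the elliptic part, from the general lattice. -/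

open NumberField IsDedekindDomain

namespace H55P

theorem sR_eq (F : Type) [Field F] [NumberField F] [IQ F] (R : ℝ) (z : ℂ) : sR F R z = H35P.sL (LF F) R z := by
  unfold sR H35P.sL
  rw [← (LF_equiv F).tsum_eq]
  rfl

/-- The values of the Eisenstein sum at points of order prime to the residue characteristic. -/
theorem s_exists (F : Type) [Field F] [NumberField F] [IQ F] (A B Om : ℂ) (h : Per F A B Om) (z : ℂ)
    (r : ℕ) (hr : 0 < r) (hz : ¬ ∃ y : 𝓞 F, z = eF F y) (hrz : ∃ y : 𝓞 F, (r : ℂ) * z = eF F y) :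
    ∃ S : ℂ, Filter.Tendsto (fun R : ℝ => sR F R z) Filter.atTop (nhds S) ∧
      ∀ V : ValuationSubring ℂ, GoodV A B V → V.valuation (r : ℂ) = 1 → V.valuation (S / Om) ≤ 1 := by
  obtain ⟨S, hS, hV⟩ := H35P.sL_exists (LF F) A B Om h.ne h.g2 h.g3 z r hr
    (fun hc => hz ((mem_LF z).1 hc)) ((mem_LF _).2 hrz)
  refine ⟨S, ?_, fun V hG hrV => hV V hG.a hG.b hG.two hG.disc hrV⟩
  simpa only [sR_eq] using hS

end H55P
end

-- from Lib.H55P.E8
section

open NumberField IsDedekindDomain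

namespace H55P

open H55N
open H55B (g)

variable {F : Type} [Field F] [NumberField F] [IQ F] {K : Type} [Field K] [NumberField K]
  [Algebra F K] {m : ℕ}

/-! Chunk PE8 (M), PORT of Lib/H55N/E8.lean. The one dimensional sums: e1_sum below replaces e1_sum of H55N/E6.lean: (e a + m0 e x)^(-1) R^2/(R^2+|e a + m0 e x|^2) = m0^(-1) times the
term of sR F (R/m0) at z = e a/m0 (|m0| = m0 > 0), so the sum is m0^(-1) sR F (R/m0) z, and R/m0 tends to infinity; s_exists (H55P/EV.lean) with r = m0: m0 z = e a, z is not in the lattice because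
m0 does not divide a (l divides m0 and not a). Its value at V: V(S/Om) <= 1, V(m0) = 1. In rat_val everything is as in H55N, at the fixed valuation ring V (in place of Int2). -/

theorem pe8_fin (F : Type) [Field F] [NumberField F] [IQ F] (C : ℝ) :
    {x : 𝓞 F | ‖eF F x‖ ≤ C}.Finite := by
  rcases lt_or_ge C 0 with hC | hC
  · refine Set.Finite.subset Set.finite_empty fun x hx => ?_
    have h1 : ‖eF F x‖ ≤ C := hx
    exact absurd (norm_nonneg (eF F x)) (by linarith)
  · have h1 := (summable_e (F := F) (r := 3) (by norm_num)).tendsto_cofinite_zero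
    have h2 : (0 : ℝ) < (1 + C) ^ (-(3 : ℝ)) := Real.rpow_pos_of_pos (by linarith) _
    have h3 := h1.eventually (gt_mem_nhds h2)
    rw [Filter.eventually_cofinite] at h3
    refine h3.subset fun x hx => ?_
    have h4 : ‖eF F x‖ ≤ C := hx
    change ¬ ((1 + ‖eF F x‖) ^ (-(3 : ℝ)) < (1 + C) ^ (-(3 : ℝ)))
    rw [not_lt]
    exact Real.rpow_le_rpow_of_nonpos (by positivity) (by linarith) (by norm_num)

theorem pe8_summable (F : Type) [Field F] [NumberField F] [IQ F] (R : ℝ) (hR : 0 < R) (z : ℂ) :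
    Summable fun x : 𝓞 F =>
      ‖(z + eF F x)⁻¹ * ((R ^ 2 / (R ^ 2 + ‖z + eF F x‖ ^ 2) : ℝ) : ℂ)‖ := by
  have h1 : Summable (fun x : 𝓞 F => 8 * R ^ 2 * (1 + ‖eF F x‖) ^ (-(3 : ℝ))) :=
    (summable_e (by norm_num)).mul_left _
  refine h1.of_norm_bounded_eventually ?_
  rw [Filter.eventually_cofinite]
  refine (pe8_fin F (2 * ‖z‖ + 1)).subset ?_
  intro x hx
  by_contra hne
  apply hx
  have hne' : 2 * ‖z‖ + 1 < ‖eF F x‖ := not_le.mp hne
  have h2 : (1 + ‖eF F x‖) / 2 ≤ ‖z + eF F x‖ := by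
    have h3 : ‖eF F x‖ ≤ ‖z + eF F x‖ + ‖z‖ := by
      have h4 : eF F x = (z + eF F x) - z := by ring
      calc ‖eF F x‖ = ‖(z + eF F x) - z‖ := by rw [← h4]
        _ ≤ _ := norm_sub_le _ _
    linarith
  have h3 : 0 < 1 + ‖eF F x‖ := by positivity
  have h4 : 0 < ‖z + eF F x‖ := by linarith
  rw [norm_norm, norm_mul, norm_inv, Complex.norm_real, Real.norm_eq_abs,
    abs_of_nonneg (by positivity)]
  have h5 : (1 + ‖eF F x‖) ^ (-(3 : ℝ)) = 1 / (1 + ‖eF F x‖) ^ 3 := by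
    rw [Real.rpow_neg h3.le]
    norm_num
  rw [h5]
  calc ‖z + eF F x‖⁻¹ * (R ^ 2 / (R ^ 2 + ‖z + eF F x‖ ^ 2))
      ≤ ((1 + ‖eF F x‖) / 2)⁻¹ * (R ^ 2 / (((1 + ‖eF F x‖) / 2) ^ 2)) := by
        gcongr
        nlinarith [sq_nonneg R]
    _ = 8 * R ^ 2 * (1 / (1 + ‖eF F x‖) ^ 3) := by
        field_simp
        ring

theorem e1_sum (Ac Bc Om : ℂ) (hper : Per F Ac Bc Om) (a : 𝓞 F) (m₀ : ℕ) (h0 : m₀ ≠ 0)
    (ha : ¬ (m₀ : 𝓞 F) ∣ a) :
    (∀ R : ℝ, 0 < R → Summable fun x : 𝓞 F => ‖(eF F a + m₀ * eF F x)⁻¹ *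
      ((R ^ 2 / (R ^ 2 + ‖eF F a + m₀ * eF F x‖ ^ 2) : ℝ) : ℂ)‖) ∧
    ∃ S : ℂ, Filter.Tendsto (fun R : ℝ => ∑' x : 𝓞 F, (eF F a + m₀ * eF F x)⁻¹ *
      ((R ^ 2 / (R ^ 2 + ‖eF F a + m₀ * eF F x‖ ^ 2) : ℝ) : ℂ)) Filter.atTop (nhds S) ∧
      ∀ V : ValuationSubring ℂ, GoodV Ac Bc V → V.valuation (m₀ : ℂ) = 1 → V.valuation (S / Om) ≤ 1 := by
  have hj0 : 0 < m₀ := Nat.pos_of_ne_zero h0
  have hjr : (0 : ℝ) < m₀ := by exact_mod_cast hj0
  have hjc : (m₀ : ℂ) ≠ 0 := by exact_mod_cast h0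
  set z : ℂ := eF F a / m₀ with hzdef
  have hmz : (m₀ : ℂ) * z = eF F a := by
    rw [hzdef]
    field_simp
  have hsc : ∀ y : 𝓞 F, eF F a + m₀ * eF F y = m₀ * (z + eF F y) := by
    intro y
    rw [mul_add, hmz]
  have hz : ¬ ∃ y : 𝓞 F, z = eF F y := by
    rintro ⟨y, hy⟩
    apply ha
    refine ⟨y, eF_inj ?_⟩
    rw [map_mul, map_natCast, ← hmz, hy]
  have hterm : ∀ (R : ℝ) (y : 𝓞 F), (eF F a + m₀ * eF F y)⁻¹ *
      ((R ^ 2 / (R ^ 2 + ‖eF F a + m₀ * eF F y‖ ^ 2) : ℝ) : ℂ) =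
      (m₀ : ℂ)⁻¹ * ((z + eF F y)⁻¹ *
        (((R / m₀) ^ 2 / ((R / m₀) ^ 2 + ‖z + eF F y‖ ^ 2) : ℝ) : ℂ)) := by
    intro R y
    rw [hsc y, norm_mul, Complex.norm_natCast, mul_inv]
    have h5 : R ^ 2 / (R ^ 2 + (m₀ * ‖z + eF F y‖) ^ 2) =
        (R / m₀) ^ 2 / ((R / m₀) ^ 2 + ‖z + eF F y‖ ^ 2) := by
      have h6 : R ^ 2 = (m₀ : ℝ) ^ 2 * (R / m₀) ^ 2 := by
        field_simp
      have h7 : R ^ 2 + (m₀ * ‖z + eF F y‖) ^ 2 =
          (m₀ : ℝ) ^ 2 * ((R / m₀) ^ 2 + ‖z + eF F y‖ ^ 2) := by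
        rw [mul_add, ← h6]
        ring
      rw [h7]
      conv_lhs => rw [h6]
      exact mul_div_mul_left _ _ (by positivity)
    rw [h5]
    ring
  constructor
  · intro R hR
    have h1 := (pe8_summable F (R / m₀) (by positivity) z).mul_left ‖(m₀ : ℂ)⁻¹‖
    refine h1.congr fun y => ?_
    rw [hterm R y, norm_mul (m₀ : ℂ)⁻¹]
  · obtain ⟨S, hS, hSv⟩ := s_exists F Ac Bc Om hper z m₀ hj0 hz ⟨a, hmz⟩
    refine ⟨(m₀ : ℂ)⁻¹ * S, ?_, ?_⟩
    · have ht : Filter.Tendsto (fun R : ℝ => R / m₀) Filter.atTop Filter.atTop :=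
        Filter.tendsto_id.atTop_div_const hjr
      refine ((hS.comp ht).const_mul (m₀ : ℂ)⁻¹).congr fun R => ?_
      simp only [hterm]
      rw [tsum_mul_left]
      rfl
    · intro V hV v
      rw [mul_div_assoc, map_mul, map_inv₀, v, inv_one, one_mul]
      exact hSv V hV v

theorem pe8_int_sum (V : ValuationSubring ℂ) {ι : Type} (s : Finset ι) (a : ι → ℂ)
    (ha : ∀ i ∈ s, V.valuation (a i) ≤ 1) : V.valuation (∑ i ∈ s, a i) ≤ 1 := by
  rw [ValuationSubring.valuation_le_one_iff]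
  exact V.toSubring.sum_mem fun i hi => (ValuationSubring.valuation_le_one_iff V _).1 (ha i hi)

theorem pe8_int_prod (V : ValuationSubring ℂ) {ι : Type} (s : Finset ι) (a : ι → ℂ)
    (ha : ∀ i ∈ s, V.valuation (a i) ≤ 1) : V.valuation (∏ i ∈ s, a i) ≤ 1 := by
  rw [ValuationSubring.valuation_le_one_iff]
  exact V.toSubring.prod_mem fun i hi => (ValuationSubring.valuation_le_one_iff V _).1 (ha i hi)

theorem pe8_int_g (V : ValuationSubring ℂ) (D : Ctx F K m) (x : 𝓞 K) :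
    V.valuation (D.g x) ≤ 1 := by
  classical
  unfold Ctx.g gw
  refine pe8_int_prod V _ _ fun i _ => ?_
  rw [ValuationSubring.valuation_le_one_iff]
  split_ifs
  · exact V.toSubring.sub_mem V.toSubring.one_mem (natCast_mem V.toSubring _)
  · exact V.toSubring.one_mem

theorem pe8_g (D : Ctx F K m) (x z : 𝓞 K) (hz : ∀ i, z ∈ D.c i) : D.g (x + z) = D.g x := by
  classical
  unfold Ctx.g gw
  refine Finset.prod_congr rfl fun i _ => ?_
  have h : x + z ∈ D.c i ↔ x ∈ D.c i := (D.c i).add_mem_iff_left (hz i)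
  by_cases hx : x ∈ D.c i
  · rw [if_pos (h.2 hx), if_pos hx]
  · rw [if_neg (fun h' => hx (h.1 h')), if_neg hx]

theorem rat_val (D : Ctx F K m) (hD : D.Ok) (A : Fin (m + 1) → K) (w : Fin (m + 1) × Fin 2 → 𝓞 K)
    (hdir : D.Dirs A w) (l : 𝓞 F) (hl : Prime l)
    (hone : ∀ x ∈ D.X, ∀ k, ∃ y : 𝓞 F, D.Tr (A k) x = eF F (1 + l * y))
    (m₀ : ℕ) (h0 : m₀ ≠ 0) (hlm : l ∣ (m₀ : 𝓞 F))
    (hm₀ : ∀ y : Fin (m + 1) → 𝓞 F, ∃ x : 𝓞 K, x ∈ D.I ∧ (∀ i, x ∈ D.c i) ∧
      ∀ k, D.Tr (A k) x = m₀ * eF F (y k)) (S : ℂ)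
    (hS : Filter.Tendsto (fun R : ℝ => ∑' x : D.X, D.g x * (∏ k, (D.Tr (A k) x)⁻¹) *
      (D.pcut A R x : ℂ)) Filter.atTop (nhds S)) (Ac Bc Om : ℂ) (hper : Per F Ac Bc Om)
    (V : ValuationSubring ℂ) (hV : GoodV Ac Bc V) (hVm : V.valuation (m₀ : ℂ) = 1) :
    V.valuation (S / Om ^ (m + 1)) ≤ 1 := by
  classical
  -- coordinates
  have hY : ∀ x : D.X, ∃ y : Fin (m + 1) → 𝓞 F, ∀ k, D.Tr (A k) x = eF F (y k) ∧ ¬ l ∣ y k := by
    intro x
    choose y hy using hone x x.2
    refine ⟨fun k => 1 + l * y k, fun k => ⟨hy k, ?_⟩⟩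
    intro hdvd
    have h1 : l ∣ 1 := by
      have := dvd_sub hdvd (Dvd.intro (y k) rfl : l ∣ l * y k)
      rwa [add_sub_cancel_right] at this
    exact hl.not_isUnit (isUnit_of_dvd_one h1)
  choose Y hYY using hY
  have hndvd : ∀ x k, ¬ (m₀ : 𝓞 F) ∣ Y x k := fun x k h => (hYY x k).2 (hlm.trans h)
  choose z hzI hzc hzT using hm₀
  have hm0 : (m₀ : ℂ) ≠ 0 := by exact_mod_cast h0
  have hm0' : (m₀ : 𝓞 F) ≠ 0 := by
    intro h
    apply hm0
    have := congrArg (eF F) h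
    rwa [map_natCast, map_zero] at this
  have hfin : Finite (𝓞 F ⧸ Ideal.span {(m₀ : 𝓞 F)}) :=
    Ideal.finiteQuotientOfFreeOfNeBot _ (fun h => hm0' (Ideal.span_singleton_eq_bot.1 h))
  have hfin' : Finite (Fin (m + 1) → (𝓞 F ⧸ Ideal.span {(m₀ : 𝓞 F)})) := inferInstance
  letI : Fintype (Fin (m + 1) → (𝓞 F ⧸ Ideal.span {(m₀ : 𝓞 F)})) := Fintype.ofFinite _
  let q : D.X → (Fin (m + 1) → (𝓞 F ⧸ Ideal.span {(m₀ : 𝓞 F)})) := fun x k =>
    Ideal.Quotient.mk (Ideal.span {(m₀ : 𝓞 F)}) (Y x k)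
  let T : ℝ → D.X → ℂ := fun R x => D.g x * (∏ k, (D.Tr (A k) x)⁻¹) * (D.pcut A R x : ℂ)
  let φ : ℝ → 𝓞 F → 𝓞 F → ℂ := fun R α y => (eF F α + m₀ * eF F y)⁻¹ *
      ((R ^ 2 / (R ^ 2 + ‖eF F α + m₀ * eF F y‖ ^ 2) : ℝ) : ℂ)
  have hclass : ∀ c : Fin (m + 1) → (𝓞 F ⧸ Ideal.span {(m₀ : 𝓞 F)}), ∃ (U : ℝ → ℂ) (L : ℂ),
      (∀ R : ℝ, 0 < R → HasSum (fun x : D.X => if q x = c then T R x else 0) (U R)) ∧
      Filter.Tendsto U Filter.atTop (nhds L) ∧ V.valuation (L / Om ^ (m + 1)) ≤ 1 := by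
    intro c
    by_cases hc : ∃ x₀ : D.X, q x₀ = c
    · obtain ⟨x₀, rfl⟩ := hc
      have hE := fun k => e1_sum Ac Bc Om hper (Y x₀ k) m₀ h0 (hndvd x₀ k)
      choose Sk hSk hSi using fun k => (hE k).2
      let j : (Fin (m + 1) → 𝓞 F) → D.X := fun y => ⟨x₀ + z y, D.X_add x₀.2 (hzI y)⟩
      have hjT : ∀ y k, D.Tr (A k) (j y) = eF F (Y x₀ k) + m₀ * eF F (y k) := by
        intro y k
        show D.Tr (A k) (x₀ + z y) = _
        rw [D.Tr_add, (hYY x₀ k).1, hzT]
      have hjY : ∀ y k, Y (j y) k = Y x₀ k + m₀ * y k := by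
        intro y k
        apply eF_inj
        rw [← (hYY (j y) k).1, hjT, map_add, map_mul, map_natCast]
      have hjinj : Function.Injective j := by
        intro y y' h
        funext k
        have h1 := hjT y k
        rw [h, hjT y' k] at h1
        have h2 : eF F (y' k) = eF F (y k) := mul_left_cancel₀ hm0 (add_left_cancel h1)
        exact (eF_inj h2).symm
      have hjq : ∀ y, q (j y) = q x₀ := by
        intro y
        funext k
        show Ideal.Quotient.mk _ (Y (j y) k) = Ideal.Quotient.mk _ (Y x₀ k)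
        rw [hjY, Ideal.Quotient.eq, add_sub_cancel_left]
        exact Ideal.mul_mem_right _ _ (Ideal.mem_span_singleton_self _)
      have hjr : ∀ x : D.X, q x = q x₀ → x ∈ Set.range j := by
        intro x hx
        have h1 : ∀ k, ∃ t : 𝓞 F, Y x k - Y x₀ k = m₀ * t := by
          intro k
          have h2 : Ideal.Quotient.mk (Ideal.span {(m₀ : 𝓞 F)}) (Y x k) =
              Ideal.Quotient.mk (Ideal.span {(m₀ : 𝓞 F)}) (Y x₀ k) := congrFun hx k
          exact Ideal.mem_span_singleton.1 (Ideal.Quotient.eq.1 h2)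
        choose t ht using h1
        refine ⟨t, Subtype.ext ?_⟩
        show (x₀ : 𝓞 K) + z t = x
        have h2 : z t = x - x₀ := by
          refine Tr_inj D hD.emb A hdir.ind _ _ fun k => ?_
          rw [hzT, D.Tr_sub, (hYY x k).1, (hYY x₀ k).1, ← map_sub, ht k, map_mul, map_natCast]
        rw [h2]; ring
      refine ⟨fun R => D.g x₀ * ∏ k, ∑' y, φ R (Y x₀ k) y, D.g x₀ * ∏ k, Sk k, ?_, ?_, ?_⟩
      · intro R hR
        have hs := (pi_hasSum (m + 1) (fun k => φ R (Y x₀ k)) (fun k => (hE k).1 R hR)).mul_left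
          (D.g x₀)
        refine (hjinj.hasSum_iff ?_).1 ?_
        · intro x hx
          exact if_neg fun h => hx (hjr x h)
        · have hcongr : ((fun x : D.X => if q x = q x₀ then T R x else 0) ∘ j) =
              fun y => D.g x₀ * ∏ k, φ R (Y x₀ k) (y k) := by
            funext y
            show (if q (j y) = q x₀ then T R (j y) else 0) = _
            rw [if_pos (hjq y)]
            show D.g ((x₀ : 𝓞 K) + z y) * (∏ k, (D.Tr (A k) (j y))⁻¹) *
              ((∏ k, R ^ 2 / (R ^ 2 + ‖D.Tr (A k) (j y)‖ ^ 2) : ℝ) : ℂ) = _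
            rw [pe8_g D _ _ (hzc y), Complex.ofReal_prod, mul_assoc, ← Finset.prod_mul_distrib]
            congr 1
            refine Finset.prod_congr rfl fun k _ => ?_
            rw [hjT]
          rw [hcongr]
          exact hs
      · exact (tendsto_finsetProd _ fun k _ => hSk k).const_mul _
      · have h1 : D.g x₀ * (∏ k, Sk k) / Om ^ (m + 1) = D.g x₀ * ∏ k, (Sk k / Om) := by
          rw [Finset.prod_div_distrib, Finset.prod_const, Finset.card_univ, Fintype.card_fin,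
            mul_div_assoc]
        rw [h1, map_mul]
        exact mul_le_one' (pe8_int_g V D _) (pe8_int_prod V _ _ fun k _ => hSi k V hV hVm)
    · refine ⟨fun _ => 0, 0, fun R _ => ?_, tendsto_const_nhds, ?_⟩
      · have : (fun x : D.X => if q x = c then T R x else 0) = fun _ => 0 := by
          funext x
          exact if_neg fun h => hc ⟨x, h⟩
        rw [this]
        exact hasSum_zero
      · rw [zero_div, map_zero]
        exact zero_le_one
  choose U L hU hL hLi using hclass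
  have hsum : ∀ R : ℝ, 0 < R → ∑' x : D.X, T R x = ∑ c, U c R := by
    intro R hR
    have h1 := hasSum_sum (s := Finset.univ) (fun c _ => hU c R hR)
    have h2 : (fun x : D.X => ∑ c, if q x = c then T R x else 0) = T R := by
      funext x
      rw [Finset.sum_ite_eq]
      exact if_pos (Finset.mem_univ _)
    rw [h2] at h1
    exact h1.tsum_eq
  have hlim : Filter.Tendsto (fun R : ℝ => ∑' x : D.X, T R x) Filter.atTop (nhds (∑ c, L c)) := by
    refine (tendsto_finsetSum _ fun c _ => hL c).congr' ?_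
    filter_upwards [Filter.eventually_gt_atTop 0] with R hR
    exact (hsum R hR).symm
  have hSL : S = ∑ c, L c := tendsto_nhds_unique hS hlim
  rw [hSL, Finset.sum_div]
  exact pe8_int_sum V _ _ fun c _ => hLi c

end H55P
end

-- from Lib.H55P.L2
section

open NumberField IsDedekindDomain

namespace H55P

open H55N
open H55B (g)

variable {F : Type} [Field F] [NumberField F] [IQ F] {K : Type} [Field K] [NumberField K]
  [Algebra F K] {m : ℕ}

/-! Chunk PL2 (M), PORT of Lib/H55N/L2.lean (L2_col, L2_bij, L2_uu_add, ... of H55N/L2.lean do not use F: use them). Changes: 2 becomes p, lam becomes l, 6 becomes p l; the coordinate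
vectors are Yv s j = [s = j] + p (b' (1 - c s)) [j0 = j] with a' l + b' (p c_{j0}) = 1. In labels_low: D.I = mK K M * f * b and M <= (l), so an element of mK K M * (f * b) is l t with t in b
(mK K M <= span {algebraMap l}, Ideal.mem_span_singleton_mul). one_le_e in H55P/F0.lean gives the lower bound. labels_indep: d <> 0 because p is not a unit of O. -/

theorem L2F_trace_mul (t : 𝓞 F) (x : K) :
    Algebra.trace F K (((algebraMap (𝓞 F) (𝓞 K) t : 𝓞 K) : K) * x) =
      algebraMap (𝓞 F) F t * Algebra.trace F K x := by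
  have h : ((algebraMap (𝓞 F) (𝓞 K) t : 𝓞 K) : K) * x = (algebraMap (𝓞 F) F t) • x := by
    rw [Algebra.smul_def]
    rfl
  rw [h, map_smul, smul_eq_mul]

theorem L2F_coe_mul {K : Type} [Field K] [NumberField K] (x y : 𝓞 K) :
    ((x * y : 𝓞 K) : K) = (x : K) * (y : K) := rfl

theorem L2F_coe_add {K : Type} [Field K] [NumberField K] (x y : 𝓞 K) :
    ((x + y : 𝓞 K) : K) = (x : K) + (y : K) := rfl

theorem L2F_coe_sum {K : Type} [Field K] [NumberField K] {ι : Type} (s : Finset ι) (f : ι → 𝓞 K) :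
    ((∑ i ∈ s, f i : 𝓞 K) : K) = ∑ i ∈ s, (f i : K) := map_sum (algebraMap (𝓞 K) K) f s

/-- The trace pairing of two vectors in dual bases. -/
theorem L2F_pair (β : Fin (m + 1) → 𝓞 K) (β' : Fin (m + 1) → K)
    (hdual : ∀ j k, Algebra.trace F K ((β j : K) * β' k) = if j = k then 1 else 0)
    (x y : Fin (m + 1) → 𝓞 F) :
    Algebra.trace F K (((∑ j, algebraMap (𝓞 F) (𝓞 K) (x j) * β j : 𝓞 K) : K) *
      ∑ k, (algebraMap (𝓞 F) F (y k)) • β' k) = algebraMap (𝓞 F) F (∑ j, x j * y j) := by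
  rw [L2F_coe_sum, Finset.sum_mul, map_sum, map_sum]
  refine Finset.sum_congr rfl fun j _ => ?_
  rw [L2F_coe_mul, mul_assoc, L2F_trace_mul, map_mul (algebraMap (𝓞 F) F)]
  congr 1
  rw [Finset.mul_sum, map_sum, Finset.sum_eq_single j]
  · rw [mul_smul_comm, map_smul, hdual, if_pos rfl, smul_eq_mul, mul_one]
  · intro k _ hk
    rw [mul_smul_comm, map_smul, hdual, if_neg hk.symm, smul_zero]
  · intro h
    exact absurd (Finset.mem_univ j) h

theorem L2F_uu_add {K : Type} [Field K] [NumberField K] (u : Fin m → (𝓞 K)ˣ) (z z' : Fin m → ℤ) :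
    uu u (z + z') = uu u z * uu u z' := by
  unfold uu
  rw [← Finset.prod_mul_distrib]
  exact Finset.prod_congr rfl fun j _ => by rw [Pi.add_apply, zpow_add]

theorem L2F_coprime_of_sq {p d : 𝓞 F} (h : Ideal.Quotient.mk (Ideal.span {p}) (d * d) = 1) :
    IsCoprime d p := by
  rw [← map_one (Ideal.Quotient.mk (Ideal.span {p})), Ideal.Quotient.eq,
    Ideal.mem_span_singleton] at h
  obtain ⟨t, ht⟩ := h
  exact ⟨d, -t, by linear_combination ht⟩

/-- A matrix congruent to a permutation matrix modulo p has determinant prime to p. -/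
theorem L2F_det (p : 𝓞 F) (s : Equiv.Perm (Fin (m + 1)))
    (Y W : Matrix (Fin (m + 1)) (Fin (m + 1)) (𝓞 F))
    (hY : ∀ k j, Y k j = (if s k = j then 1 else 0) + p * W k j) : IsCoprime Y.det p := by
  apply L2F_coprime_of_sq
  set φ := Ideal.Quotient.mk (Ideal.span {p}) with hφ
  have h2 : φ p = 0 := by
    rw [hφ, Ideal.Quotient.eq_zero_iff_mem]
    exact Ideal.mem_span_singleton_self p
  have h1 : φ.mapMatrix Y =
      (1 : Matrix (Fin (m + 1)) (Fin (m + 1)) (𝓞 F ⧸ Ideal.span {p})).submatrix s id := by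
    ext k j
    rw [RingHom.mapMatrix_apply, Matrix.map_apply, hY, map_add, map_mul, h2, zero_mul, add_zero,
      Matrix.submatrix_apply, Matrix.one_apply]
    rw [id_eq]
    by_cases h : s k = j
    · rw [if_pos h, if_pos h, map_one]
    · rw [if_neg h, if_neg h, map_zero]
  rw [map_mul, RingHom.map_det, h1, Matrix.det_permute, Matrix.det_one, mul_one]
  rcases Int.units_eq_one_or (Equiv.Perm.sign s) with h | h <;> rw [h] <;> simp

theorem L2F_not_unit (p : ℕ) (hp : p.Prime) : ¬ IsUnit (p : 𝓞 F) := by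
  intro h
  have h4 := (Ideal.absNorm_eq_one_iff (I := Ideal.span {(p : 𝓞 F)})).2
    (Ideal.span_singleton_eq_top.2 h)
  rw [Ideal.absNorm_span_singleton] at h4
  have h5 : (Algebra.norm ℤ (p : 𝓞 F)) = (p : ℤ) ^ Module.finrank ℤ (𝓞 F) := by
    have h6 := Algebra.norm_algebraMap (S := 𝓞 F) (p : ℤ)
    simpa using h6
  rw [h5, Int.natAbs_pow, Int.natAbs_natCast] at h4
  have h7 : Module.finrank ℤ (𝓞 F) ≠ 0 := by
    rw [RingOfIntegers.rank]
    exact Module.finrank_pos.ne'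
  have h9 := Nat.one_lt_pow h7 hp.one_lt
  omega

theorem labels_exist (hm : Module.finrank F K = m + 1) (p : ℕ) (hp : p.Prime) (l : 𝓞 F)
    (hl : Prime l) (hlp : IsCoprime l (p : 𝓞 F)) (b : Ideal (𝓞 K)) (hb : b ≠ ⊥)
    (c₀ : 𝓞 K) (hc : c₀ ∈ b) (hc' : c₀ ∉ Ideal.span {algebraMap (𝓞 F) (𝓞 K) l} * b)
    (u : Fin m → (𝓞 K)ˣ)
    (hu : ∀ z, (uu u z : 𝓞 K) - 1 ∈ Ideal.span {(p : 𝓞 K) * algebraMap (𝓞 F) (𝓞 K) l}) :
    ∃ L : (Fin m → ℤ) → K, LabP p l b c₀ u L := by
  classical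
  obtain ⟨β, β', hβ, hdual, hrep, hind⟩ := dual_basis hm b hb
  obtain ⟨c, hcc⟩ := hrep c₀ hc
  -- a coordinate not divisible by l
  obtain ⟨j₀, hj₀⟩ : ∃ j₀, ¬ l ∣ c j₀ := by
    by_contra hcon
    push Not at hcon
    choose c' hc'' using hcon
    apply hc'
    rw [Ideal.mem_span_singleton_mul]
    refine ⟨∑ j, algebraMap (𝓞 F) (𝓞 K) (c' j) * β j, b.sum_mem fun j _ => b.mul_mem_left _ (hβ j), ?_⟩
    rw [hcc, Finset.mul_sum]
    refine Finset.sum_congr rfl fun j _ => ?_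
    rw [hc'' j, map_mul]
    ring
  have hcop : IsCoprime l ((p : 𝓞 F) * c j₀) :=
    IsCoprime.mul_right hlp ((Prime.coprime_iff_not_dvd hl).2 hj₀)
  obtain ⟨a', b', hab⟩ := hcop
  -- the coordinate vectors
  let Yv : Fin (m + 1) → Fin (m + 1) → 𝓞 F := fun s j =>
    (if s = j then 1 else 0) + (p : 𝓞 F) * (b' * (1 - c s) * if j₀ = j then 1 else 0)
  have hYone : ∀ s, ∑ j, c j * Yv s j = 1 + l * (-(a' * (1 - c s))) := by
    intro s
    have h1 : ∑ j, c j * Yv s j = c s + (p : 𝓞 F) * (b' * (1 - c s)) * c j₀ := by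
      simp only [Yv, mul_add, Finset.sum_add_distrib]
      congr 1
      · simp
      · rw [Finset.sum_eq_single j₀]
        · rw [if_pos rfl]; ring
        · intro j _ hj
          rw [if_neg hj.symm]; ring
        · intro h
          exact absurd (Finset.mem_univ _) h
    rw [h1]
    linear_combination (1 - c s) * hab
  let L0 : Fin (m + 1) → K := fun s => ∑ k, (algebraMap (𝓞 F) F (Yv s k)) • β' k
  have hL0 : ∀ (x : Fin (m + 1) → 𝓞 F) (s : Fin (m + 1)),
      Algebra.trace F K (((∑ j, algebraMap (𝓞 F) (𝓞 K) (x j) * β j : 𝓞 K) : K) * L0 s) =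
        algebraMap (𝓞 F) F (∑ j, x j * Yv s j) := fun x s => L2F_pair β β' hdual x (Yv s)
  have hL0b : ∀ x ∈ b, ∀ s, ∃ y : 𝓞 F, Algebra.trace F K ((x : K) * L0 s) = algebraMap (𝓞 F) F y := by
    intro x hx s
    obtain ⟨y, hy⟩ := hrep x hx
    exact ⟨_, by rw [hy]; exact hL0 y s⟩
  let L : (Fin m → ℤ) → K := fun a =>
    ((uu u (fun i => a i / ((m + 1 : ℕ) : ℤ)) : 𝓞 K) : K) * L0 (L2_col a)
  -- the action of the units modulo p l
  have hmod : ∀ (x : 𝓞 K) (_ : x ∈ b) (z : Fin m → ℤ) (s : Fin (m + 1)), ∃ w : 𝓞 F,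
      Algebra.trace F K ((x : K) * (((uu u z : 𝓞 K) : K) * L0 s)) =
        Algebra.trace F K ((x : K) * L0 s) + algebraMap (𝓞 F) F ((p : 𝓞 F) * l * w) := by
    intro x hx z s
    obtain ⟨t, ht⟩ := Ideal.mem_span_singleton.1 (hu z)
    obtain ⟨w, hw⟩ := hL0b (t * x) (b.mul_mem_left _ hx) s
    refine ⟨w, ?_⟩
    have h1 : (uu u z : 𝓞 K) = 1 + algebraMap (𝓞 F) (𝓞 K) ((p : 𝓞 F) * l) * t := by
      rw [map_mul, map_natCast]
      linear_combination ht
    have h2 : (x : K) * (((uu u z : 𝓞 K) : K) * L0 s) =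
        (x : K) * L0 s + ((algebraMap (𝓞 F) (𝓞 K) ((p : 𝓞 F) * l) : 𝓞 K) : K) *
          (((t * x : 𝓞 K) : K) * L0 s) := by
      rw [h1]
      have h3 : ((1 + algebraMap (𝓞 F) (𝓞 K) ((p : 𝓞 F) * l) * t : 𝓞 K) : K) =
          1 + ((algebraMap (𝓞 F) (𝓞 K) ((p : 𝓞 F) * l) : 𝓞 K) : K) * (t : K) := by
        rw [L2F_coe_add, L2F_coe_mul]
        rfl
      rw [h3, L2F_coe_mul]
      ring
    rw [h2, map_add, L2F_trace_mul, hw, ← map_mul (algebraMap (𝓞 F) F)]
  refine ⟨L, ⟨?_, ?_, ?_, ?_⟩⟩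
  · intro a z
    have hn : ((m + 1 : ℕ) : ℤ) ≠ 0 := by positivity
    have h1 : L2_col (a + ((m + 1 : ℕ) : ℤ) • z) = L2_col a := by
      apply L2_col_eq
      have : ∑ i, (a + ((m + 1 : ℕ) : ℤ) • z) i = ∑ i, a i + ((m + 1 : ℕ) : ℤ) * ∑ i, z i := by
        simp only [Pi.add_apply, Pi.smul_apply, smul_eq_mul, Finset.sum_add_distrib, Finset.mul_sum]
      rw [this, Int.add_mul_emod_self_left]
    have h2 : (fun i => (a + ((m + 1 : ℕ) : ℤ) • z) i / ((m + 1 : ℕ) : ℤ)) =
        (fun i => a i / ((m + 1 : ℕ) : ℤ)) + z := by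
      funext i
      simp only [Pi.add_apply, Pi.smul_apply, smul_eq_mul]
      rw [Int.add_mul_ediv_left _ _ hn]
    show ((uu u (fun i => (a + ((m + 1 : ℕ) : ℤ) • z) i / ((m + 1 : ℕ) : ℤ)) : 𝓞 K) : K) *
      L0 (L2_col (a + ((m + 1 : ℕ) : ℤ) • z)) = _
    rw [h1, h2, L2F_uu_add, Units.val_mul, L2F_coe_mul]
    show _ = ((uu u z : 𝓞 K) : K) *
      (((uu u (fun i => a i / ((m + 1 : ℕ) : ℤ)) : 𝓞 K) : K) * L0 (L2_col a))
    ring
  · intro a x hx
    have h1 : (x : K) * L a =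
        ((x * (uu u (fun i => a i / ((m + 1 : ℕ) : ℤ)) : 𝓞 K) : 𝓞 K) : K) * L0 (L2_col a) := by
      rw [L2F_coe_mul, mul_assoc]
    rw [h1]
    exact hL0b _ (b.mul_mem_right _ hx) _
  · intro a
    obtain ⟨w, hw⟩ := hmod c₀ hc (fun i => a i / ((m + 1 : ℕ) : ℤ)) (L2_col a)
    have h1 := hL0 c (L2_col a)
    rw [← hcc, hYone] at h1
    refine ⟨-(a' * (1 - c (L2_col a))) + (p : 𝓞 F) * w, ?_⟩
    show Algebra.trace F K ((c₀ : K) *
      (((uu u (fun i => a i / ((m + 1 : ℕ) : ℤ)) : 𝓞 K) : K) * L0 (L2_col a))) = _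
    rw [hw, h1, ← map_add]
    congr 1
    ring
  · intro a π
    let s : Equiv.Perm (Fin (m + 1)) := Equiv.ofBijective _ (L2_bij a π)
    have hs : ∀ k, s k = L2_col (kv a π k) := fun k => rfl
    -- the matrix of the coordinates
    have hY : ∀ k j : Fin (m + 1), ∃ W : 𝓞 F, Algebra.trace F K ((β j : K) * L (kv a π k)) =
        algebraMap (𝓞 F) F ((if s k = j then 1 else 0) + (p : 𝓞 F) * W) := by
      intro k j
      obtain ⟨w, hw⟩ := hmod (β j) (hβ j) (fun i => kv a π k i / ((m + 1 : ℕ) : ℤ))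
        (L2_col (kv a π k))
      have h1 := hL0 (Pi.single j 1) (L2_col (kv a π k))
      have h2 : ∑ i, algebraMap (𝓞 F) (𝓞 K) ((Pi.single j 1 : Fin (m + 1) → 𝓞 F) i) * β i = β j := by
        rw [Finset.sum_eq_single j]
        · rw [Pi.single_eq_same, map_one, one_mul]
        · intro i _ hi
          rw [Pi.single_eq_of_ne hi, map_zero, zero_mul]
        · intro h
          exact absurd (Finset.mem_univ _) h
      have h3 : ∑ i, (Pi.single j 1 : Fin (m + 1) → 𝓞 F) i * Yv (L2_col (kv a π k)) i =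
          Yv (L2_col (kv a π k)) j := by
        rw [Finset.sum_eq_single j]
        · rw [Pi.single_eq_same, one_mul]
        · intro i _ hi
          rw [Pi.single_eq_of_ne hi, zero_mul]
        · intro h
          exact absurd (Finset.mem_univ _) h
      rw [h2, h3] at h1
      refine ⟨b' * (1 - c (L2_col (kv a π k))) * (if j₀ = j then 1 else 0) + l * w, ?_⟩
      show Algebra.trace F K ((β j : K) *
        (((uu u (fun i => kv a π k i / ((m + 1 : ℕ) : ℤ)) : 𝓞 K) : K) * L0 (L2_col (kv a π k)))) = _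
      rw [hw, h1, ← map_add]
      congr 1
      rw [hs]
      simp only [Yv]
      ring
    choose W hW using hY
    let Y : Matrix (Fin (m + 1)) (Fin (m + 1)) (𝓞 F) := fun k j => (if s k = j then 1 else 0) + (p : 𝓞 F) * W k j
    refine ⟨Y.det, L2F_det (p : 𝓞 F) s Y W fun k j => rfl, fun y => ?_⟩
    refine ⟨∑ j, algebraMap (𝓞 F) (𝓞 K) ((Y.adjugate.mulVec y) j) * β j,
      b.sum_mem fun j _ => b.mul_mem_left _ (hβ j), fun k => ?_⟩
    rw [L2F_coe_sum, Finset.sum_mul, map_sum]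
    have h1 : ∀ j, Algebra.trace F K
        (((algebraMap (𝓞 F) (𝓞 K) ((Y.adjugate.mulVec y) j) * β j : 𝓞 K) : K) * L (kv a π k)) =
          algebraMap (𝓞 F) F (Y k j * (Y.adjugate.mulVec y) j) := by
      intro j
      rw [L2F_coe_mul, mul_assoc, L2F_trace_mul, hW k j, mul_comm, ← map_mul]
    rw [Finset.sum_congr rfl fun j _ => h1 j, ← map_sum]
    congr 1
    have h2 : Y.mulVec (Y.adjugate.mulVec y) = Y.det • y := by
      rw [Matrix.mulVec_mulVec, Matrix.mul_adjugate, Matrix.smul_mulVec, Matrix.one_mulVec]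
    exact congrFun h2 k

/-- The labels of a simplex are linearly independent over F: if sum_k f_k L_k = 0, multiply by x in b with Tr(x L_k) = d y_k and take traces: sum_k f_k d y_k = 0 for all y in
O^n, d <> 0 (2 is not a unit of O). -/
theorem labels_indep (p : ℕ) (hp : p.Prime) (l : 𝓞 F) (b : Ideal (𝓞 K)) (c₀ : 𝓞 K) (u : Fin m → (𝓞 K)ˣ)
    (L : (Fin m → ℤ) → K) (hL : LabP p l b c₀ u L) (a : Fin m → ℤ) (π : Equiv.Perm (Fin m)) :
    LinearIndependent F fun k : Fin (m + 1) => L (kv a π k) := by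
  rw [Fintype.linearIndependent_iff]
  intro g hg k₀
  obtain ⟨d, hd, h⟩ := hL.cop a π
  obtain ⟨x, _, hx⟩ := h (Pi.single k₀ 1)
  have hd0 : d ≠ 0 := by
    rintro rfl
    exact L2F_not_unit p hp (isCoprime_zero_left.1 hd)
  have h1 := congrArg (fun t => Algebra.trace F K ((x : K) * t)) hg
  simp only [Finset.mul_sum, map_sum, mul_zero, map_zero, mul_smul_comm, map_smul, smul_eq_mul,
    hx] at h1
  rw [Finset.sum_eq_single k₀] at h1
  · rw [Pi.single_eq_same, mul_one] at h1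
    rcases mul_eq_zero.1 h1 with h2 | h2
    · exact h2
    · exfalso
      apply hd0
      exact RingOfIntegers.coe_injective (h2.trans (map_zero _).symm)
  · intro k _ hk
    rw [Pi.single_eq_of_ne hk, mul_zero, map_zero, mul_zero]
  · intro h
    exact absurd (Finset.mem_univ _) h

/-- The values on the class X = c₀ + 3 f b. -/
theorem labels_low (D : Ctx F K m) (hE : Emb F D.σ) (p : ℕ) (M : Ideal (𝓞 F)) (l : 𝓞 F) (hl : Prime l)
    (hM : M ≤ Ideal.span {l}) (b f : Ideal (𝓞 K)) (c₀ : 𝓞 K)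
    (hD : D.I = mK K M * f * b ∧ D.c₀ = c₀) (u : Fin m → (𝓞 K)ˣ) (L : (Fin m → ℤ) → K)
    (hL : LabP p l b c₀ u L) (a : Fin m → ℤ) :
    ∀ x ∈ D.X, (∃ y : 𝓞 F, D.Tr (L a) x = eF F (1 + l * y)) ∧ 1 ≤ ‖D.Tr (L a) x‖ := by
  intro x hx
  have key : ∃ y : 𝓞 F, D.Tr (L a) x = eF F (1 + l * y) := by
    have hx1 : x - c₀ ∈ Ideal.span {algebraMap (𝓞 F) (𝓞 K) l} * (f * b) := by
      have h0 : mK K M * (f * b) = D.I := by
        rw [hD.1]
        exact (mul_assoc _ _ _).symm
      have h1 : mK K M ≤ Ideal.span {algebraMap (𝓞 F) (𝓞 K) l} := by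
        have h2 := Ideal.map_mono (f := algebraMap (𝓞 F) (𝓞 K)) hM
        rw [Ideal.map_span, Set.image_singleton] at h2
        exact h2
      refine Ideal.mul_mono_left h1 ?_
      rw [h0, ← hD.2]
      exact hx
    obtain ⟨t, ht, hxt⟩ := Ideal.mem_span_singleton_mul.1 hx1
    have htb : t ∈ b := Ideal.mul_le_right ht
    obtain ⟨y, hy⟩ := hL.one a
    obtain ⟨w, hw⟩ := hL.int a t htb
    refine ⟨y + w, ?_⟩
    rw [Tr_eq D hE]
    have h1 : (x : K) * L a = (c₀ : K) * L a +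
        ((algebraMap (𝓞 F) (𝓞 K) l : 𝓞 K) : K) * ((t : K) * L a) := by
      have h2 : x = c₀ + algebraMap (𝓞 F) (𝓞 K) l * t := by linear_combination -hxt
      rw [h2, L2F_coe_add, L2F_coe_mul]
      ring
    rw [h1, map_add, L2F_trace_mul, hy, hw, ← map_mul (algebraMap (𝓞 F) F),
      ← map_add (algebraMap (𝓞 F) F)]
    show eF F _ = eF F _
    congr 1
    ring
  refine ⟨key, ?_⟩
  obtain ⟨y, hy⟩ := key
  rw [hy]
  refine one_le_e ?_
  intro h3
  apply hl.not_isUnit
  apply isUnit_of_dvd_one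
  exact ⟨-y, by linear_combination h3⟩

end H55P
end

-- from Lib.H55N.H9
section

open NumberField IsDedekindDomain

namespace H55N

open H55B H55C

/-- The Euler factor. -/
noncomputable def H9_EF {K : Type} [Field K] [NumberField K] (h : Ideal (𝓞 K) →*₀ ℂ)
    (w : HeightOneSpectrum (𝓞 K)) : ArithmeticFunction ℂ :=
  ArithmeticFunction.ofPowerSeries (Ideal.absNorm w.asIdeal)
    ((1 - PowerSeries.C (h w.asIdeal) * PowerSeries.X)⁻¹ : PowerSeries ℂ)

theorem H9_ps (a : ℂ) : ((1 - PowerSeries.C (a ^ 2) * PowerSeries.X ^ 2)⁻¹ : PowerSeries ℂ) =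
    (1 - PowerSeries.C a * PowerSeries.X)⁻¹ * (1 - PowerSeries.C (a * -1) * PowerSeries.X)⁻¹ := by
  symm
  apply I2_inv_unique
  · simp
  · have h1 : (1 - PowerSeries.C (a ^ 2) * PowerSeries.X ^ 2 : PowerSeries ℂ) =
        (1 - PowerSeries.C a * PowerSeries.X) * (1 - PowerSeries.C (a * -1) * PowerSeries.X) := by
      rw [map_pow, map_mul, map_neg, map_one]
      ring
    have h2 : (1 - PowerSeries.C a * PowerSeries.X : PowerSeries ℂ) *
        (1 - PowerSeries.C a * PowerSeries.X)⁻¹ = 1 :=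
      PowerSeries.mul_inv_cancel _ (by simp)
    have h3 : (1 - PowerSeries.C (a * -1) * PowerSeries.X : PowerSeries ℂ) *
        (1 - PowerSeries.C (a * -1) * PowerSeries.X)⁻¹ = 1 :=
      PowerSeries.mul_inv_cancel _ (by simp)
    rw [h1]
    linear_combination ((1 - PowerSeries.C (a * -1) * PowerSeries.X : PowerSeries ℂ) *
      (1 - PowerSeries.C (a * -1) * PowerSeries.X)⁻¹) * h2 + h3

theorem H9_sq (q : ℕ) (a : ℂ) :
    ArithmeticFunction.ofPowerSeries (q ^ 2)
      ((1 - PowerSeries.C (a ^ 2) * PowerSeries.X)⁻¹ : PowerSeries ℂ) =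
    ArithmeticFunction.ofPowerSeries q ((1 - PowerSeries.C a * PowerSeries.X)⁻¹ : PowerSeries ℂ) *
    ArithmeticFunction.ofPowerSeries q
      ((1 - PowerSeries.C (a * -1) * PowerSeries.X)⁻¹ : PowerSeries ℂ) := by
  rw [ArithmeticFunction.ofPowerSeries_pow q two_ne_zero, I2_subst_inv two_ne_zero _ (by simp),
    I2_subst_lin two_ne_zero, ← map_mul, H9_ps]

section

variable (K K' : Type) [Field K] [NumberField K] [Algebra F K] [Field K'] [NumberField K']
    [Algebra F K'] [Algebra K K'] [IsScalarTower F K K']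

theorem H9_Psi (W : Ideal (𝓞 K')) : Psi K' W = Psi K (Ideal.relNorm (𝓞 K) W) := by
  show psiF (Ideal.relNorm O W) = psiF (Ideal.relNorm O (Ideal.relNorm (𝓞 K) W))
  rw [Ideal.relNorm_relNorm]

theorem H9_norm (W : Ideal (𝓞 K')) :
    Ideal.absNorm W = Ideal.absNorm (Ideal.relNorm (𝓞 K) W) := by
  rw [Ideal.absNorm_relNorm]

theorem H9_loc (χ : Ideal (𝓞 K) →*₀ ℂ) (hχ : SplitChr K K' χ) (w : HeightOneSpectrum (𝓞 K)) :
    ∃ A : Finset (HeightOneSpectrum (𝓞 K')), (∀ W, W ∈ A ↔ W.asIdeal.under (𝓞 K) = w.asIdeal) ∧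
      ∏ W ∈ A, H9_EF (Psi K') W = H9_EF (Psi K) w * H9_EF (Psi K * χ : Ideal (𝓞 K) →*₀ ℂ) w := by
  classical
  have hmul : (Psi K * χ : Ideal (𝓞 K) →*₀ ℂ) w.asIdeal = Psi K w.asIdeal * χ w.asIdeal := rfl
  rcases hχ w with ⟨h1, W₁, W₂, hne, hset, hn1, hn2⟩ | ⟨h1, W, hset, hn⟩ | ⟨h1, W, hset, hn⟩
  · refine ⟨{W₁, W₂}, fun W => ?_, ?_⟩
    · have h2 := Set.ext_iff.1 hset W
      rw [Finset.mem_insert, Finset.mem_singleton]
      simpa using h2.symm
    · rw [Finset.prod_pair hne]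
      unfold H9_EF
      rw [H9_Psi K K', H9_Psi K K', H9_norm K K', H9_norm K K', hn1, hn2, hmul, h1, mul_one]
  · refine ⟨{W}, fun W' => ?_, ?_⟩
    · have h2 := Set.ext_iff.1 hset W'
      rw [Finset.mem_singleton]
      simpa using h2.symm
    · rw [Finset.prod_singleton]
      unfold H9_EF
      rw [H9_Psi K K', H9_norm K K', hn, hmul, h1, map_pow, map_pow]
      exact H9_sq _ _
  · refine ⟨{W}, fun W' => ?_, ?_⟩
    · have h2 := Set.ext_iff.1 hset W'
      rw [Finset.mem_singleton]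
      simpa using h2.symm
    · rw [Finset.prod_singleton]
      unfold H9_EF
      rw [H9_Psi K K', H9_norm K K', hn, hmul, h1, mul_zero, map_zero, zero_mul, sub_zero]
      have h2 : ((1 : PowerSeries ℂ)⁻¹) = 1 := by simp
      rw [h2, map_one, mul_one]

end

/-- Chunk H9 (M), the quadratic step for the Euler products. Psi K' W = Psi K (relNorm (𝓞 K) W)
(Ideal.relNorm_relNorm), absNorm W = absNorm (relNorm W) (Ideal.absNorm_relNorm). For a prime w of K let a = Psi K w,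
q = absNorm w. Product of the factors of the primes W above w: split: two times 1/(1 - aX) at q; inert: 1/(1 - a^2 X) at q^2, which is
1/(1 - a^2 X^2) = 1/(1 - aX) 1/(1 + aX) at q (ArithmeticFunction.ofPowerSeries_pow, H55B.I2_ofPS_pow); ramified: 1/(1 - aX) at q. In all
cases it is the factor of a times the factor of a chi(w). Every finite set S of primes of K has the finite set S' of primes
above, and S' contains any given finite set when S is large (the primes below); so the eventual equalities of AI_euler for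
K' along S' = S'(S) (Filter.Tendsto to atTop), and for K along S twice (product at n depends on the coefficients
at m <= n, H55B.I2_mul_congr) give the identity. -/
theorem AI_step (K K' : Type) [Field K] [NumberField K] [Algebra F K] [Field K'] [NumberField K']
    [Algebra F K'] [Algebra K K'] [IsScalarTower F K K'] (χ : Ideal (𝓞 K) →*₀ ℂ)
    (hχ : SplitChr K K' χ) :
    AI (Psi K') = AI (Psi K) * AI (Psi K * χ : Ideal (𝓞 K) →*₀ ℂ) := by
  classical
  choose A hA hprod using H9_loc K K' χ hχ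
  ext n
  have e1 : ∀ᶠ S : Finset (HeightOneSpectrum (𝓞 K)) in Filter.atTop,
      (∏ W ∈ S.biUnion A, H9_EF (Psi K') W) n = AI (Psi K') n := by
    have h1 := AI_euler (Psi K') n
    have h2 : Filter.Tendsto (fun S : Finset (HeightOneSpectrum (𝓞 K)) => S.biUnion A)
        Filter.atTop Filter.atTop := by
      rw [Filter.tendsto_atTop]
      intro T
      filter_upwards [Filter.eventually_ge_atTop (T.image (HeightOneSpectrum.under (𝓞 K)))] with S hS
      intro W hW
      rw [Finset.mem_biUnion]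
      refine ⟨HeightOneSpectrum.under (𝓞 K) W, hS (Finset.mem_image_of_mem _ hW), ?_⟩
      rw [hA]
      rfl
    exact h2.eventually h1
  have e2 : ∀ h : Ideal (𝓞 K) →*₀ ℂ, ∀ᶠ S : Finset (HeightOneSpectrum (𝓞 K)) in Filter.atTop,
      ∀ m ∈ Finset.range (n + 1), (∏ w ∈ S, H9_EF h w) m = AI h m := by
    intro h
    rw [Filter.eventually_all_finset]
    intro m _
    exact AI_euler h m
  obtain ⟨S, h1, h2, h3⟩ := (e1.and ((e2 (Psi K)).and
    (e2 (Psi K * χ : Ideal (𝓞 K) →*₀ ℂ)))).exists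
  rw [← h1, Finset.prod_biUnion, Finset.prod_congr rfl fun w _ => hprod w, Finset.prod_mul_distrib]
  · exact I2_mul_congr (fun m hm => h2 m (Finset.mem_range.2 (by omega)))
      (fun m hm => h3 m (Finset.mem_range.2 (by omega))) n le_rfl
  · intro w _ w' _ hne
    rw [Function.onFun, Finset.disjoint_left]
    intro W hW hW'
    rw [hA] at hW hW'
    exact hne (HeightOneSpectrum.ext (hW.symm.trans hW'))

end H55N
end

-- from Lib.H55P.T4
section

open NumberField IsDedekindDomain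

namespace H55P

open H55N
open H55B (g)

variable {F : Type} [Field F] [NumberField F] [IQ F]

/-! Chunk PT4 (M/L), the step of prime degree p for the Euler products; PORT of Lib/H19T/A5.lean (AI_stepT, with H9_EF, H9_norm of H55N/H9.lean). For a prime w of K, a = Ψ(w), z = χ(w), q = absNorm w. Identity of power series for a primitive
p-th root of unity z: 1 - a^p X^p = prod_{j=0}^{p-1} (1 - a z^j X) (IsPrimitiveRoot: X^p - Y^p = prod (X - z^j Y): Polynomial/IsPrimitiveRoot.pow_sub_pow_eq_prod_sub_mul). split: p factors 1/(1 - aX) at q, z = 1. inert: 1/(1 - a^p X) at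
q^p, = the product over j of 1/(1 - a z^j X) at q; z primitive since z^p = 1, z <> 1, p prime (IsPrimitiveRoot from orderOf_eq_prime). ramified: z = 0: 1/(1-aX) at q, the other factors 1. Then finite sets of primes as in A5. -/

theorem pt4_prod {R : Type} [CommRing R] [IsDomain R] {p : ℕ} (hp : 0 < p) {z : R}
    (hz : IsPrimitiveRoot z p) (y : R) : 1 - y ^ p = ∏ j ∈ Finset.range p, (1 - z ^ j * y) := by
  classical
  have h1 := hz.pow_sub_pow_eq_prod_sub_mul 1 y hp
  rw [one_pow] at h1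
  rw [h1, Polynomial.nthRootsFinset_def, hz.nthRoots_eq (one_pow p)]
  simp only [mul_one]
  have h2 : (Multiset.map (fun x => z ^ x) (Multiset.range p)).toFinset =
      (Finset.range p).image (fun x => z ^ x) := rfl
  rw [h2, Finset.prod_image]
  intro i hi j hj hij
  exact hz.pow_inj (Finset.mem_range.1 hi) (Finset.mem_range.1 hj) hij

theorem pt4_ps (a z : ℂ) (p : ℕ) (hp : 0 < p) (hz : IsPrimitiveRoot z p) :
    ((1 - PowerSeries.C (a ^ p) * PowerSeries.X ^ p)⁻¹ : PowerSeries ℂ) =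
    ∏ j ∈ Finset.range p, (1 - PowerSeries.C (a * z ^ j) * PowerSeries.X)⁻¹ := by
  symm
  apply H55B.I2_inv_unique
  · have hp' : p ≠ 0 := hp.ne'
    simp [hp']
  · have hz' : IsPrimitiveRoot (PowerSeries.C z : PowerSeries ℂ) p :=
      hz.map_of_injective (f := (PowerSeries.C : ℂ →+* PowerSeries ℂ)) PowerSeries.C_injective
    have h1 : (1 - PowerSeries.C (a ^ p) * PowerSeries.X ^ p : PowerSeries ℂ) =
        ∏ j ∈ Finset.range p, (1 - PowerSeries.C (a * z ^ j) * PowerSeries.X) := by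
      rw [map_pow, ← mul_pow, pt4_prod hp hz']
      refine Finset.prod_congr rfl fun j _ => ?_
      rw [map_mul, map_pow]
      ring
    rw [h1, ← Finset.prod_mul_distrib]
    refine Finset.prod_eq_one fun j _ => ?_
    exact PowerSeries.mul_inv_cancel _ (by simp)

theorem pt4_cu (q : ℕ) (a z : ℂ) (p : ℕ) (hp : 0 < p) (hz : IsPrimitiveRoot z p) :
    ArithmeticFunction.ofPowerSeries (q ^ p)
      ((1 - PowerSeries.C (a ^ p) * PowerSeries.X)⁻¹ : PowerSeries ℂ) =
    ∏ j ∈ Finset.range p, ArithmeticFunction.ofPowerSeries q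
      ((1 - PowerSeries.C (a * z ^ j) * PowerSeries.X)⁻¹ : PowerSeries ℂ) := by
  rw [ArithmeticFunction.ofPowerSeries_pow q hp.ne', H55B.I2_subst_inv hp.ne' _ (by simp),
    H55B.I2_subst_lin hp.ne', ← map_prod, pt4_ps a z p hp hz]

section

variable (K K' : Type) [Field K] [NumberField K] [Algebra F K] [Field K'] [NumberField K']
    [Algebra F K'] [Algebra K K'] [IsScalarTower F K K']

omit [IQ F] [Algebra F K] [Algebra F K'] [IsScalarTower F K K'] in
theorem pt4_norm (W : Ideal (𝓞 K')) :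
    Ideal.absNorm W = Ideal.absNorm (Ideal.relNorm (𝓞 K) W) := by
  rw [Ideal.absNorm_relNorm]

theorem pt4_loc (ψ : Ideal (𝓞 F) →*₀ 𝓞 F) (p : ℕ) (hp : p.Prime)
    (χ : Ideal (𝓞 K) →*₀ ℂ) (hχ : SplitP K K' p χ) (w : HeightOneSpectrum (𝓞 K)) :
    ∃ A : Finset (HeightOneSpectrum (𝓞 K')), (∀ W, W ∈ A ↔ W.asIdeal.under (𝓞 K) = w.asIdeal) ∧
      ∏ W ∈ A, H9_EF (PsiP K' ψ) W = H9_EF (PsiP K ψ) w *
        ∏ j ∈ Finset.range (p - 1), H9_EF (PsiP K ψ * chp χ j : Ideal (𝓞 K) →*₀ ℂ) w := by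
  classical
  have hmul : ∀ j, (PsiP K ψ * chp χ j : Ideal (𝓞 K) →*₀ ℂ) w.asIdeal =
      PsiP K ψ w.asIdeal * χ w.asIdeal ^ (j + 1) := by
    intro j
    rw [← chp_apply]
    rfl
  have hp1 : p - 1 + 1 = p := Nat.sub_add_cancel hp.one_le
  obtain ⟨T, hT, h⟩ := hχ w
  refine ⟨T, hT, ?_⟩
  rcases h with ⟨h1, hc, hn⟩ | ⟨h1, h1', hc, hn⟩ | ⟨h1, hc, hn⟩
  · have e1 : ∀ W ∈ T, H9_EF (PsiP K' ψ) W = H9_EF (PsiP K ψ) w := by
      intro W hW
      unfold H9_EF
      rw [PsiP_top (K := K) ψ K', pt4_norm K K', hn W hW]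
    have e2 : ∀ j ∈ Finset.range (p - 1), H9_EF (PsiP K ψ * chp χ j : Ideal (𝓞 K) →*₀ ℂ) w =
        H9_EF (PsiP K ψ) w := by
      intro j _
      unfold H9_EF
      rw [hmul, h1, one_pow, mul_one]
    rw [Finset.prod_congr rfl e1, Finset.prod_congr rfl e2, Finset.prod_const, Finset.prod_const,
      hc, Finset.card_range, ← pow_succ', hp1]
  · obtain ⟨W, rfl⟩ := Finset.card_eq_one.1 hc
    have hW := hn W (Finset.mem_singleton_self _)
    have hz : IsPrimitiveRoot (χ w.asIdeal) p := by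
      have := Fact.mk hp
      rw [← orderOf_eq_prime h1 h1']
      exact IsPrimitiveRoot.orderOf _
    rw [Finset.prod_singleton]
    have e1 : H9_EF (PsiP K' ψ) W = ∏ j ∈ Finset.range p,
        ArithmeticFunction.ofPowerSeries (Ideal.absNorm w.asIdeal)
          ((1 - PowerSeries.C (PsiP K ψ w.asIdeal * χ w.asIdeal ^ j) * PowerSeries.X)⁻¹ :
            PowerSeries ℂ) := by
      unfold H9_EF
      rw [PsiP_top (K := K) ψ K', pt4_norm K K', hW, map_pow, map_pow]
      exact pt4_cu _ _ _ p hp.pos hz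
    rw [e1]
    conv_lhs => rw [← hp1]
    rw [Finset.prod_range_succ', pow_zero, mul_one, mul_comm]
    unfold H9_EF
    refine congrArg₂ _ rfl (Finset.prod_congr rfl fun j _ => ?_)
    rw [hmul]
  · obtain ⟨W, rfl⟩ := Finset.card_eq_one.1 hc
    have hW := hn W (Finset.mem_singleton_self _)
    rw [Finset.prod_singleton]
    have e1 : H9_EF (PsiP K' ψ) W = H9_EF (PsiP K ψ) w := by
      unfold H9_EF
      rw [PsiP_top (K := K) ψ K', pt4_norm K K', hW]
    rw [e1, Finset.prod_eq_one, mul_one]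
    intro j _
    unfold H9_EF
    rw [hmul, h1, zero_pow (Nat.succ_ne_zero j), mul_zero, map_zero, zero_mul, sub_zero]
    have h2 : ((1 : PowerSeries ℂ)⁻¹) = 1 := by simp
    rw [h2, map_one]

end

theorem AI_stepP (K K' : Type) [Field K] [NumberField K] [Algebra F K] [Field K'] [NumberField K']
    [Algebra F K'] [Algebra K K'] [IsScalarTower F K K'] (ψ : Ideal (𝓞 F) →*₀ 𝓞 F) (p : ℕ) (hp : p.Prime)
    (χ : Ideal (𝓞 K) →*₀ ℂ) (hχ : SplitP K K' p χ) :
    AI (PsiP K' ψ) = AI (PsiP K ψ) *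
      ∏ j ∈ Finset.range (p - 1), AI (PsiP K ψ * chp χ j : Ideal (𝓞 K) →*₀ ℂ) := by
  classical
  choose A hA hprod using pt4_loc K K' ψ p hp χ hχ
  ext n
  have e1 : ∀ᶠ S : Finset (HeightOneSpectrum (𝓞 K)) in Filter.atTop,
      (∏ W ∈ S.biUnion A, H9_EF (PsiP K' ψ) W) n = AI (PsiP K' ψ) n := by
    have h1 := AI_euler (PsiP K' ψ) n
    have h2 : Filter.Tendsto (fun S : Finset (HeightOneSpectrum (𝓞 K)) => S.biUnion A)
        Filter.atTop Filter.atTop := by
      rw [Filter.tendsto_atTop]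
      intro T
      filter_upwards [Filter.eventually_ge_atTop (T.image (HeightOneSpectrum.under (𝓞 K)))] with S hS
      intro W hW
      rw [Finset.mem_biUnion]
      refine ⟨HeightOneSpectrum.under (𝓞 K) W, hS (Finset.mem_image_of_mem _ hW), ?_⟩
      rw [hA]
      rfl
    exact h2.eventually h1
  have e2 : ∀ h : Ideal (𝓞 K) →*₀ ℂ, ∀ᶠ S : Finset (HeightOneSpectrum (𝓞 K)) in Filter.atTop,
      ∀ m ∈ Finset.range (n + 1), (∏ w ∈ S, H9_EF h w) m = AI h m := by
    intro h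
    rw [Filter.eventually_all_finset]
    intro m _
    exact AI_euler h m
  have e3 : ∀ᶠ S : Finset (HeightOneSpectrum (𝓞 K)) in Filter.atTop,
      ∀ j ∈ Finset.range (p - 1), ∀ m ∈ Finset.range (n + 1),
        (∏ w ∈ S, H9_EF (PsiP K ψ * chp χ j : Ideal (𝓞 K) →*₀ ℂ) w) m =
          AI (PsiP K ψ * chp χ j : Ideal (𝓞 K) →*₀ ℂ) m := by
    rw [Filter.eventually_all_finset]
    intro j _
    exact e2 _
  obtain ⟨S, h1, h2, h3⟩ := (e1.and ((e2 (PsiP K ψ)).and e3)).exists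
  rw [← h1, Finset.prod_biUnion, Finset.prod_congr rfl fun w _ => hprod w,
    Finset.prod_mul_distrib, Finset.prod_comm]
  · exact H55B.I2_mul_congr (fun m hm => h2 m (Finset.mem_range.2 (by omega)))
      (H55B.I2_prod_congr _ _ _ fun j hj m hm => h3 j hj m (Finset.mem_range.2 (by omega))) n le_rfl
  · intro w _ w' _ hne
    rw [Function.onFun, Finset.disjoint_left]
    intro W hW hW'
    rw [hA] at hW hW'
    exact hne (HeightOneSpectrum.ext (hW.symm.trans hW'))

end H55P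
end

-- from Lib.H55P.T5
section

open NumberField IsDedekindDomain

namespace H55P

open H55N
open H55B (g)

variable {F : Type} [Field F] [NumberField F] [IQ F]

/-! Chunk PT5 (M), the step for the L-values; PORT of Lib/H19T/A5b.lean. Λ' = Λ * prod_j Λ_j. The L-series of the product of arithmetic functions over a finset: induction with LSeriesHasSum_mul (or
ArithmeticFunction.LSeriesHasSum_mul) . Value: V multiplicative, Om^(finrank F K') = Om^(finrank F K * p), finrank F K' = finrank F K * p. chp_PChr: val: (χ^(j+1))^p = (χ^p)^(j+1). -/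

theorem PChr.norm_le {K : Type} [Field K] [NumberField K] {p : ℕ} (hp : p ≠ 0) {f : Ideal (𝓞 K)}
    {χ : Ideal (𝓞 K) →*₀ ℂ} (h : PChr p f χ) (a : Ideal (𝓞 K)) : ‖χ a‖ ≤ 1 := by
  by_cases ha : a = ⊥
  · have : χ ⊥ = 0 := χ.map_zero
    rw [ha, this, norm_zero]
    exact zero_le_one
  · by_cases hc : IsCoprime a f
    · exact (Complex.norm_eq_one_of_pow_eq_one (h.val a ha hc) hp).le
    · rw [h.zero a hc, norm_zero]
      exact zero_le_one

theorem chp_PChr {K : Type} [Field K] [NumberField K] {p : ℕ} {f : Ideal (𝓞 K)}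
    {χ : Ideal (𝓞 K) →*₀ ℂ} (h : PChr p f χ) (j : ℕ) : PChr p f (chp χ j) := by
  refine ⟨h.ne, h.cop, ?_, ?_, ?_⟩
  · intro a ha hc
    rw [chp_apply, ← pow_mul, mul_comm, pow_mul, h.val a ha hc, one_pow]
  · intro a hc
    rw [chp_apply, h.zero a hc, zero_pow (Nat.succ_ne_zero j)]
  · intro x y hx hy hc hxy
    rw [chp_apply, chp_apply, h.per x y hx hy hc hxy]

theorem pt5_prod {s : ℂ} (n : ℕ) (f : ℕ → ArithmeticFunction ℂ) (a : ℕ → ℂ)
    (h : ∀ j, j < n → LSeriesHasSum (fun k => f j k) s (a j)) :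
    LSeriesHasSum (fun k => (∏ j ∈ Finset.range n, f j) k) s (∏ j ∈ Finset.range n, a j) := by
  induction n with
  | zero =>
    rw [Finset.prod_range_zero, Finset.prod_range_zero]
    have h1 : HasSum (LSeries.term (fun k => (1 : ArithmeticFunction ℂ) k) s)
        (LSeries.term (fun k => (1 : ArithmeticFunction ℂ) k) s 1) := by
      refine hasSum_single 1 fun n hn => ?_
      rw [LSeries.term_def]
      split_ifs with h0
      · rfl
      · rw [ArithmeticFunction.one_apply_ne hn, zero_div]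
    have h2 : LSeries.term (fun k => (1 : ArithmeticFunction ℂ) k) s 1 = 1 := by
      rw [LSeries.term_def, if_neg one_ne_zero, ArithmeticFunction.one_one, Nat.cast_one,
        Complex.one_cpow, div_one]
    rw [h2] at h1
    exact h1
  | succ n ih =>
    rw [Finset.prod_range_succ, Finset.prod_range_succ]
    exact ArithmeticFunction.LSeriesHasSum_mul (ih fun j hj => h j (by omega)) (h n (by omega))

theorem LVP_of_step (K K' : Type) [Field K] [NumberField K] [Algebra F K] [Field K'] [NumberField K']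
    [Algebra F K'] [Algebra K K'] [IsScalarTower F K K'] {M : Ideal (𝓞 F)} {ψ : Ideal (𝓞 F) →*₀ 𝓞 F}
    (h : IsHecke M ψ) (p : ℕ) (hp : p.Prime) (hn : Module.finrank K K' = p)
    (f : Ideal (𝓞 K)) (χ : Ideal (𝓞 K) →*₀ ℂ) (hf : PChr p f χ) (hχ : SplitP K K' p χ)
    (V : ValuationSubring ℂ) (Om : ℂ) (h1 : LVP F V Om (PsiP K ψ))
    (h2 : ∀ j, j < p - 1 → LVP F V Om (PsiP K ψ * chp χ j : Ideal (𝓞 K) →*₀ ℂ)) :
    LVP F V Om (PsiP K' ψ) := by
  obtain ⟨Λ₁, ha1, hs1, hu1⟩ := h1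
  have h2' : ∀ j, ∃ Λ : ℂ → ℂ, j < p - 1 → AnalyticOnNhd ℂ Λ {s | 1 / 2 < s.re} ∧
      (∀ s : ℂ, 3 / 2 < s.re → HasSum (tm (PsiP K ψ * chp χ j : Ideal (𝓞 K) →*₀ ℂ) s) (Λ s)) ∧
      V.valuation (Λ 1 / Om ^ Module.finrank F K) = 1 := by
    intro j
    by_cases hj : j < p - 1
    · obtain ⟨Λ, hΛ⟩ := h2 j hj
      exact ⟨Λ, fun _ => hΛ⟩
    · exact ⟨fun _ => 0, fun h => absurd h hj⟩
  choose Λ hΛ using h2'
  have hb : ∀ j, ∀ a : Ideal (𝓞 K),
      ‖(PsiP K ψ * chp χ j : Ideal (𝓞 K) →*₀ ℂ) a‖ ^ 2 ≤ Ideal.absNorm a := by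
    intro j a
    refine le_trans ?_ (PsiP_norm_le h a)
    have h4 : (PsiP K ψ * chp χ j : Ideal (𝓞 K) →*₀ ℂ) a = PsiP K ψ a * chp χ j a := rfl
    rw [h4, norm_mul, mul_pow]
    exact mul_le_of_le_one_right (by positivity)
      (pow_le_one₀ (norm_nonneg _) ((chp_PChr hf j).norm_le hp.ne_zero a))
  refine ⟨fun s => Λ₁ s * ∏ j ∈ Finset.range (p - 1), Λ j s, fun s hs => (ha1 s hs).mul ?_,
    fun s hs => ?_, ?_⟩
  · exact Finset.analyticAt_fun_prod _ fun j hj => (hΛ j (Finset.mem_range.1 hj)).1 s hs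
  · have hsum := tm_summable (PsiP K' ψ) (fun a => PsiP_norm_le h a) s hs
    have hL := AI_LSeries (PsiP K' ψ) (PsiP K' ψ).map_zero s hsum
    have hsum1 := tm_summable (PsiP K ψ) (fun a => PsiP_norm_le h a) s hs
    have hL1 := AI_LSeries (PsiP K ψ) (PsiP K ψ).map_zero s hsum1
    have hL2 := fun j => AI_LSeries (PsiP K ψ * chp χ j : Ideal (𝓞 K) →*₀ ℂ)
      (PsiP K ψ * chp χ j : Ideal (𝓞 K) →*₀ ℂ).map_zero s
      (tm_summable (PsiP K ψ * chp χ j : Ideal (𝓞 K) →*₀ ℂ) (hb j) s hs)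
    have hL3 := pt5_prod (p - 1) (fun j => AI (PsiP K ψ * chp χ j : Ideal (𝓞 K) →*₀ ℂ))
      (fun j => Λ j s) (fun j hj => by
        have h3 := hL2 j
        rw [((hΛ j hj).2.1 s hs).tsum_eq] at h3
        exact h3)
    have hL4 := ArithmeticFunction.LSeriesHasSum_mul hL1 hL3
    rw [← AI_stepP K K' ψ p hp χ hχ] at hL4
    have h5 : ∑' a, tm (PsiP K' ψ) s a = Λ₁ s * ∏ j ∈ Finset.range (p - 1), Λ j s := by
      rw [hL.unique hL4, (hs1 s hs).tsum_eq]
    show HasSum (tm (PsiP K' ψ) s) (Λ₁ s * ∏ j ∈ Finset.range (p - 1), Λ j s)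
    rw [← h5]
    exact hsum.of_norm.hasSum
  · have h5 : Om ^ Module.finrank F K' = Om ^ Module.finrank F K *
        ∏ j ∈ Finset.range (p - 1), Om ^ Module.finrank F K := by
      rw [← Module.finrank_mul_finrank F K K', hn, pow_mul, Finset.prod_const, Finset.card_range,
        ← pow_succ', Nat.sub_add_cancel hp.one_le]
    show V.valuation ((Λ₁ 1 * ∏ j ∈ Finset.range (p - 1), Λ j 1) / Om ^ Module.finrank F K') = 1
    rw [h5, mul_div_mul_comm, ← Finset.prod_div_distrib, map_mul, hu1, one_mul, map_prod]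
    exact Finset.prod_eq_one fun j hj => (hΛ j (Finset.mem_range.1 hj)).2.2

end H55P
end
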