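import Mathlib
import Pool.Agent.Lib.H1M.PP.M008
import Pool.Agent.Lib.H1M.PP.M010
import Pool.Agent.Lib.H1M.PP.M021
import Pool.Agent.Lib.H1M.PP.M039
import Pool.Agent.Lib.H1M.PP.M040
import Pool.Agent.Lib.H1M.PP.M041
import Pool.Agent.Lib.H1M.PP.M047

/-! Merged copies (to shorten the build) of Lib.H13X.XG, Lib.H55K.C18, Lib.H55K.SS0, Lib.H55P.T6, Lib.H55P.T12, Lib.H55K.C16, Lib.H55K.C17, Lib.H55K.C28, Lib.H55P.T2, Lib.H55P.T3. -/

-- from Lib.H13X.XG
section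

/-! # H13X: decomposition groups and fixed elements (port of H13Z.LG, H13Y.YG) -/

open NumberField IsDedekindDomain WeierstrassCurve

namespace H13X

open H55P (IQ embF eF LF Per IsHecke Pt ac Inert Dec Nm Coc)
open H35P (WAB Ker tt)
open H55K (Tor ak xc yc CMA Dta GV GMod cj cj_cj mul_cj cj_prime cj_dvd cj_nat Nm_cj Nm_mul Nm_nat)
open H55K.S
open H13S (Abv)

section gal

variable {F : Type} [Field F] {Ω : Type} [Field Ω] [Algebra F Ω] {V : ValuationSubring Ω}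

theorem gi_dec (V : ValuationSubring Ω) (s : Ω ≃ₐ[F] Ω) (h : Inert V s) : Dec V s := by
  intro x
  have hmem : ∀ x ∈ V, s x ∈ V := by
    intro x hx
    have h1 : s x = x + (s x - x) := by ring
    rw [h1]
    refine V.add_mem _ _ hx ?_
    exact (V.valuation_le_one_iff _).1 (h x hx).le
  refine ⟨fun hsx => ?_, hmem x⟩
  by_contra hx
  have hx0 : x ≠ 0 := by
    rintro rfl
    exact hx V.zero_mem
  have h1 : x⁻¹ ∈ V := (V.mem_or_inv_mem x).resolve_left hx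
  have h2 := h x⁻¹ h1
  have h3 : V.valuation x⁻¹ < 1 := by
    rw [map_inv₀]
    have h4 : ¬ V.valuation x ≤ 1 := fun h4 => hx ((V.valuation_le_one_iff _).1 h4)
    rw [not_le] at h4
    exact inv_lt_one_of_one_lt₀ h4
  have h4 : V.valuation (s x⁻¹) < 1 := by
    have h5 : s x⁻¹ = (s x⁻¹ - x⁻¹) + x⁻¹ := by ring
    rw [h5]
    exact V.valuation.map_add_lt h2 h3
  rw [map_inv₀, map_inv₀] at h4
  have h5 : V.valuation (s x) ≤ 1 := (V.valuation_le_one_iff _).2 hsx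
  have h6 : V.valuation (s x) ≠ 0 := by
    rw [Valuation.ne_zero_iff]
    exact (map_ne_zero s).2 hx0
  have h7 : 1 ≤ (V.valuation (s x))⁻¹ := (one_le_inv₀ (zero_lt_iff.2 h6)).2 h5
  exact absurd h4 (not_lt.2 h7)


theorem Dec.mul' {s t : Ω ≃ₐ[F] Ω} (hs : Dec V s) (ht : Dec V t) : Dec V (s * t) := by
  intro x
  exact (hs (t x)).trans (ht x)

theorem Dec.inv' {s : Ω ≃ₐ[F] Ω} (hs : Dec V s) : Dec V s⁻¹ := by
  intro x
  have h1 := hs (s⁻¹ x)
  have h2 : s (s⁻¹ x) = x := s.apply_symm_apply x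
  rw [h2] at h1
  exact h1.symm

/-- Elements of the decomposition group preserve the inequalities between values (H13S.dv_le). -/
theorem Dec.lt {s : Ω ≃ₐ[F] Ω} (hs : Dec V s) (a b : Ω) :
    V.valuation (s a) < V.valuation (s b) ↔ V.valuation a < V.valuation b := by
  rw [← not_le, ← not_le, H13S.dv_le s hs b a]

theorem Dec.lt_one {s : Ω ≃ₐ[F] Ω} (hs : Dec V s) (a : Ω) : V.valuation (s a) < 1 ↔ V.valuation a < 1 := by
  have h := Dec.lt hs a 1
  rwa [map_one, map_one] at h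

theorem Dec.le_one {s : Ω ≃ₐ[F] Ω} (hs : Dec V s) (a : Ω) : V.valuation (s a) ≤ 1 ↔ V.valuation a ≤ 1 := by
  have h := H13S.dv_le s hs a 1
  rwa [map_one, map_one] at h

/-- s has a finite orbit on a: as in H13S.qv_val. -/
theorem Dec.val [Algebra.IsAlgebraic F Ω] {s : Ω ≃ₐ[F] Ω} (hs : Dec V s) (a : Ω) :
    V.valuation (s a) = V.valuation a := by
  obtain ⟨n, hn, hna⟩ := qv_orb s a
  have hstep : ∀ k : ℕ, (s ^ (k + 1)) a = s ((s ^ k) a) := by
    intro k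
    rw [pow_succ']
    rfl
  rcases lt_trichotomy (V.valuation (s a)) (V.valuation a) with h | h | h
  · exfalso
    have h1 : ∀ k : ℕ, V.valuation ((s ^ (k + 1)) a) < V.valuation a := by
      intro k
      induction k with
      | zero =>
        rw [zero_add, pow_one]
        exact h
      | succ k ih =>
        rw [hstep (k + 1)]
        exact lt_trans ((Dec.lt hs _ _).2 ih) h
    have h2 := h1 (n - 1)
    rw [Nat.sub_add_cancel hn, hna] at h2
    exact lt_irrefl _ h2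
  · exact h
  · exfalso
    have h1 : ∀ k : ℕ, V.valuation a < V.valuation ((s ^ (k + 1)) a) := by
      intro k
      induction k with
      | zero =>
        rw [zero_add, pow_one]
        exact h
      | succ k ih =>
        rw [hstep (k + 1)]
        exact lt_trans h ((Dec.lt hs _ _).2 ih)
    have h2 := h1 (n - 1)
    rw [Nat.sub_add_cancel hn, hna] at h2
    exact lt_irrefl _ h2

/-- The inertia group is contained in the decomposition group (H13S.git_dec). -/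
theorem Inert.dec {s : Ω ≃ₐ[F] Ω} (hs : Inert V s) : Dec V s := gi_dec V s hs

/-- Conjugates of inertia elements by decomposition elements are inertia elements. -/
theorem Inert.conj {s σ : Ω ≃ₐ[F] Ω} (hs : Inert V s) (hσ : Dec V σ) : Inert V (σ⁻¹ * s * σ) := by
  intro x hx
  have h1 := hs (σ x) ((hσ x).2 hx)
  have h2 := (Dec.lt_one (Dec.inv' hσ) (s (σ x) - σ x)).2 h1
  rw [map_sub] at h2
  have h3 : σ⁻¹ (σ x) = x := σ.symm_apply_apply x
  rw [h3] at h2
  exact h2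

theorem lcb_mul {s t : Ω ≃ₐ[F] Ω} (hs : Inert V s) (ht : Inert V t) : Inert V (s * t) := by
  intro x hx
  have h1 := hs (t x) ((Inert.dec ht x).2 hx)
  have h2 := ht x hx
  have h3 : (s * t) x - x = (s (t x) - t x) + (t x - x) := by
    change s (t x) - x = _
    ring
  rw [h3]
  exact (V.valuation.map_add _ _).trans_lt (max_lt h1 h2)

theorem lcb_inv {s : Ω ≃ₐ[F] Ω} (hs : Inert V s) : Inert V s⁻¹ := by
  intro x hx
  have e : s (s⁻¹ x) = x := AlgEquiv.apply_symm_apply s x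
  have h1 : s⁻¹ x ∈ V := by
    rw [← Inert.dec hs, e]
    exact hx
  have h2 := hs _ h1
  rw [e] at h2
  rw [← V.valuation.map_neg, neg_sub]
  exact h2

theorem lcb_one : Inert V (1 : Ω ≃ₐ[F] Ω) := by
  intro x _
  have : (1 : Ω ≃ₐ[F] Ω) x - x = 0 := sub_self x
  rw [this, map_zero]
  exact zero_lt_one

end gal

section act

variable {F : Type} [Field F] [NumberField F] [IQ F] {A B : F} {Om : ℂ} {Ω : Type} [Field Ω] [DecidableEq Ω]
  [Algebra F Ω] {j : Ω →+* ℂ} {act : 𝓞 F →+* AddMonoid.End (Pt (WAB A B) Ω)} {mo : Ideal (𝓞 F)}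
  {ψ : Ideal (𝓞 F) →*₀ 𝓞 F}

/-- An automorphism acting as act a on Tor β and moving a point has no fixed point. -/
theorem no_fix (hA : CMA F A B Om j act) {β : 𝓞 F} (hβ : Prime β) {s : Ω ≃ₐ[F] Ω}
    (h : ∃ T ∈ Tor act β, ac (WAB A B) s T ≠ T) {T : Pt (WAB A B) Ω} (hT : T ∈ Tor act β)
    (hs : ac (WAB A B) s T = T) : T = 0 := by
  obtain ⟨-, T₀, hT₀, hgen, hker⟩ := H55K.S.gi_gen hA β hβ
  obtain ⟨a, ha⟩ := hgen _ (ac_mem hA s hT₀)
  have hall : ∀ X ∈ Tor act β, ac (WAB A B) s X = act a X := by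
    intro X hX
    obtain ⟨b, rfl⟩ := hgen X hX
    rw [ac_act hA, ha, ← act_mul, ← act_mul, mul_comm]
  obtain ⟨T₁, hT₁, hne⟩ := h
  have hnd : ¬ β ∣ a - 1 := by
    rintro ⟨c, hc⟩
    apply hne
    rw [hall T₁ hT₁, ← sub_eq_zero]
    have h1 : act (a - 1) T₁ = 0 := by
      rw [hc, mul_comm, act_mul, mem_Tor.1 hT₁]
      exact map_zero _
    rwa [act_sub, act_one] at h1
  obtain ⟨u, v, huv⟩ := (hβ.irreducible.coprime_iff_not_dvd).2 hnd
  have h1 : act (a - 1) T = 0 := by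
    rw [act_sub, act_one, ← hall T hT, hs, sub_self]
  have h2 : act (u * β + v * (a - 1)) T = 0 := by
    rw [act_add, act_mul, act_mul, mem_Tor.1 hT, h1, map_zero, map_zero, add_zero]
  rwa [huv, act_one] at h2

variable {π : 𝓞 F} {l : ℕ} {N : IntermediateField F Ω} {V : ValuationSubring Ω}

theorem Hx.add {x y : Ω} (hx : Hx act π N V x) (hy : Hx act π N V y) : Hx act π N V (x + y) := by
  intro s hs
  rw [map_add, hx s hs, hy s hs]

theorem Hx.sub {x y : Ω} (hx : Hx act π N V x) (hy : Hx act π N V y) : Hx act π N V (x - y) := by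
  intro s hs
  rw [map_sub, hx s hs, hy s hs]

theorem Hx.mul {x y : Ω} (hx : Hx act π N V x) (hy : Hx act π N V y) : Hx act π N V (x * y) := by
  intro s hs
  rw [map_mul, hx s hs, hy s hs]

theorem Hx.div {x y : Ω} (hx : Hx act π N V x) (hy : Hx act π N V y) : Hx act π N V (x / y) := by
  intro s hs
  rw [map_div₀, hx s hs, hy s hs]

theorem Hx.inv {x : Ω} (hx : Hx act π N V x) : Hx act π N V x⁻¹ := by
  intro s hs
  rw [map_inv₀, hx s hs]

theorem Hx.pow {x : Ω} (hx : Hx act π N V x) (n : ℕ) : Hx act π N V (x ^ n) := by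
  intro s hs
  rw [map_pow, hx s hs]

theorem Hx.zpow {x : Ω} (hx : Hx act π N V x) (n : ℤ) : Hx act π N V (x ^ n) := by
  intro s hs
  rw [map_zpow₀, hx s hs]

theorem Hx.alg (a : F) : Hx act π N V (algebraMap F Ω a) := by
  intro s _
  exact s.commutes a

theorem Hx.nat (n : ℕ) : Hx act π N V (n : Ω) := by
  intro s _
  exact map_natCast s n

theorem Hx.one : Hx act π N V (1 : Ω) := by
  intro s _
  exact map_one s

theorem Hx.of_mem {x : Ω} (hx : x ∈ N) : Hx act π N V x := fun s hs =>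
  (IntermediateField.mem_fixingSubgroup_iff N s).1 hs.1.1 x hx

theorem Hx.tt {T : Pt (WAB A B) Ω} (hT : T ∈ Tor act π) : Hx act π N V (H35P.tt T) := by
  intro s hs
  rw [← tt_ac, hs.2 T hT]

theorem DecN.mul {s t : Ω ≃ₐ[F] Ω} (hs : DecN N V s) (ht : DecN N V t) : DecN N V (s * t) :=
  ⟨mul_mem hs.1 ht.1, Dec.mul' hs.2 ht.2⟩

theorem DecN.inv {s : Ω ≃ₐ[F] Ω} (hs : DecN N V s) : DecN N V s⁻¹ :=
  ⟨inv_mem hs.1, Dec.inv' hs.2⟩

/-- Inertia elements above l are in the decomposition group over N. -/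
theorem Nb.dec (hN : Nb l N) (h : V.valuation (l : Ω) < 1)
    {s : Ω ≃ₐ[F] Ω} (hs : Inert V s) : DecN N V s :=
  ⟨hN.inert V h s hs, Inert.dec hs⟩

theorem DT.conj (hA : CMA F A B Om j act) {σ : Ω ≃ₐ[F] Ω} (hσ : DecN N V σ) {s : Ω ≃ₐ[F] Ω} (hs : DT act π N V s) :
    DT act π N V (σ⁻¹ * s * σ) := by
  refine ⟨(hσ.inv.mul hs.1).mul hσ, fun T hT => ?_⟩
  rw [ac_mul, ac_mul, hs.2 _ (ac_mem hA σ hT), ← ac_mul, inv_mul_cancel, ac_one]

theorem Hx.dec (hA : CMA F A B Om j act) {x : Ω} (hx : Hx act π N V x) {σ : Ω ≃ₐ[F] Ω} (hσ : DecN N V σ) : Hx act π N V (σ x) := by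
  intro s hs
  have h2 := hx _ (DT.conj hA hσ hs)
  have h3 : s (σ x) = σ ((σ⁻¹ * s * σ) x) := by
    have h4 : (σ⁻¹ * s * σ) x = σ⁻¹ (s (σ x)) := rfl
    rw [h4]
    exact (σ.apply_symm_apply _).symm
  rw [h3, h2]

/-- The cocycle condition over N gives the one on the inertia group. -/
theorem Dc.sub_cob (hA : CMA F A B Om j act) {c : (Ω ≃ₐ[F] Ω) → Pt (WAB A B) Ω} (hc : Dc act π N V c) {X : Pt (WAB A B) Ω} (hX : X ∈ Tor act (cj π)) :
    Dc act π N V fun s => c s - (ac (WAB A B) s X - X) := by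
  refine ⟨fun s hs t ht => ?_, fun s hs => sub_mem (hc.val s hs) (sub_mem (ac_mem hA s hX) hX)⟩
  show c (s * t) - (ac (WAB A B) (s * t) X - X) = c s - (ac (WAB A B) s X - X) + ac (WAB A B) s (c t - (ac (WAB A B) t X - X))
  rw [hc.mul s hs t ht, ac_mul, map_sub, map_sub]
  abel

theorem Dc.sub {c c' : (Ω ≃ₐ[F] Ω) → Pt (WAB A B) Ω} (hc : Dc act π N V c) (hc' : Dc act π N V c') :
    Dc act π N V fun s => c s - c' s := by
  refine ⟨fun s hs t ht => ?_, fun s hs => sub_mem (hc.val s hs) (hc'.val s hs)⟩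
  show c (s * t) - c' (s * t) = c s - c' s + ac (WAB A B) s (c t - c' t)
  rw [hc.mul s hs t ht, hc'.mul s hs t ht, map_sub]
  abel

theorem Dc.one {c : (Ω ≃ₐ[F] Ω) → Pt (WAB A B) Ω} (hc : Dc act π N V c) : c 1 = 0 := by
  have h1 : DecN N V (1 : Ω ≃ₐ[F] Ω) := ⟨one_mem _, fun x => Iff.rfl⟩
  have h2 := hc.mul 1 h1 1 h1
  rw [mul_one, ac_one] at h2
  exact left_eq_add.mp h2

/-- A cocycle vanishing on an inertia element: c (s n) = c s etc. -/
theorem Dc.conj_eq {c : (Ω ≃ₐ[F] Ω) → Pt (WAB A B) Ω} (hc : Dc act π N V c) {σ s : Ω ≃ₐ[F] Ω} (hσ : DecN N V σ)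
    (hs : DecN N V s) (h1 : c σ = 0) (h2 : c (s⁻¹ * σ * s) = 0) : ac (WAB A B) σ (c s) = c s := by
  have h3 := hc.mul σ hσ s hs
  have h4 := hc.mul s hs (s⁻¹ * σ * s) ((hs.inv.mul hσ).mul hs)
  have e : s * (s⁻¹ * σ * s) = σ * s := by group
  rw [e, h2, map_zero, add_zero] at h4
  rw [h1, zero_add, h4] at h3
  exact h3.symm

/-- If a cocycle vanishes on the inertia group over N and some inertia element has no fixed point then it vanishes. -/
theorem cob_dec_ram {c : (Ω ≃ₐ[F] Ω) → Pt (WAB A B) Ω} (hc : Dc act π N V c)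
    (h : ∀ s ∈ N.fixingSubgroup, Inert V s → c s = 0)
    (hσ : ∃ s ∈ N.fixingSubgroup, Inert V s ∧ ∀ T ∈ Tor act (cj π), ac (WAB A B) s T = T → T = 0) :
    ∀ s, DecN N V s → c s = 0 := by
  obtain ⟨σ, hσN, hσ1, hσ2⟩ := hσ
  intro s hs
  have hσD : DecN N V σ := ⟨hσN, Inert.dec hσ1⟩
  exact hσ2 _ (hc.val s hs) (hc.conj_eq hσD hs (h σ hσN hσ1)
    (h _ ((hs.inv.mul hσD).mul hs).1 (Inert.conj hσ1 hs.2)))

end act

end H13X
end

-- from Lib.H55K.C18
section

open NumberField WeierstrassCurve Polynomial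

namespace H55K.CC

open H55P (IQ embF eF LF Per Pt ac mem_LF eF_inj eF_ne Nm Nm_eq)
open H35P (WAB)

variable {F : Type} [Field F] [NumberField F] [IQ F] {Ω : Type} [Field Ω] [DecidableEq Ω] [Algebra F Ω]
  {A B : F} {Om : ℂ} {j : Ω →+* ℂ} {act : 𝓞 F →+* AddMonoid.End (Pt (WAB A B) Ω)}

/-! Chunk C18 (S/M). act_surj: n = Nm b > 0 is b c (Ideal.absNorm_mem); P = n • P' by H55P.div_pt (the curve is elliptic: Δ = -16 (4A^3 + 27B^2), see Lib/H35P/B1.lean B1_delta; CharZero Ω: charZero_of_injective_algebraMap), so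
P = act (n) P' = act b (act c P') (map_natCast, map_mul). act_gen: T0 with U T0 (1/e(b)) (U_tors, lat_nm). T in Tor act b, U T w (U_ex): U 0 (e(b) w), so e(b) w = e(a) (mem_LF), and T, act a T0 have the same
parameter e(a)/e(b) = w (U_inj). act a T0 = 0 iff e(a)/e(b) in Λ iff b | a (U.zero_iff, mem_LF, eF_inj). Coordinates: U.xc_eq, U.yc_eq, unfold XL YL. -/

omit [DecidableEq Ω] in
theorem c18_ell (h : CH A B Om j) : (WAB A B).IsElliptic := by
  refine ⟨isUnit_iff_ne_zero.2 ?_⟩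
  have h1 : (WAB A B).Δ = -16 * (4 * A ^ 3 + 27 * B ^ 2) := by
    unfold WeierstrassCurve.Δ WeierstrassCurve.b₂ WeierstrassCurve.b₄ WeierstrassCurve.b₆ WeierstrassCurve.b₈ WAB
    ring
  rw [h1]
  exact mul_ne_zero (by norm_num) h.disc

theorem act_surj [IsAlgClosed Ω] [Algebra.IsAlgebraic F Ω] (h : CH A B Om j) {b : 𝓞 F} (hb : b ≠ 0)
    (P : Pt (WAB A B) Ω) : ∃ Q, act b Q = P := by
  have hE := c18_ell h
  have hchar : CharZero Ω := charZero_of_injective_algebraMap (algebraMap F Ω).injective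
  have hn : 0 < Nm b := Nat.pos_of_ne_zero fun h => hb (H55P.Nm_eq_zero.1 h)
  obtain ⟨P', hP'⟩ := H55P.div_pt (WAB A B) (Nm b) hn P
  have h1 : (Nm b : 𝓞 F) ∈ Ideal.span {b} := Ideal.absNorm_mem (Ideal.span {b})
  rw [Ideal.mem_span_singleton] at h1
  obtain ⟨c, hc⟩ := h1
  refine ⟨act c P', ?_⟩
  have h2 : act (b * c) P' = act b (act c P') := by
    rw [map_mul]
    rfl
  rw [← h2, ← hc, map_natCast, ← hP']
  rfl

theorem act_gen [IsAlgClosed Ω] (h : CH A B Om j) (hact : Act A B Om j act) {b : 𝓞 F} (hb : b ≠ 0) :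
    ∃ T₀ ∈ Tor act b, (∀ T ∈ Tor act b, ∃ a, T = act a T₀) ∧
    (∀ a, act a T₀ = 0 ↔ b ∣ a) ∧ ∀ a, ¬ b ∣ a →
      j (xc (act a T₀)) = (LF F).weierstrassP (eF F a / eF F b) / Om ^ 2 ∧
      j (yc (act a T₀)) = (LF F).derivWeierstrassP (eF F a / eF F b) / (2 * Om ^ 3) := by
  have hb' : eF F b ≠ 0 := eF_ne hb
  have h1 : eF F b * (1 / eF F b) ∈ (LF F).lattice := by
    rw [mul_one_div_cancel hb', mem_LF]
    exact ⟨1, (map_one _).symm⟩
  obtain ⟨hn, hn'⟩ := lat_nm hb h1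
  obtain ⟨T₀, hT₀⟩ := U_tors h hn hn'
  have hU : ∀ a, U A B Om j (act a T₀) (eF F a / eF F b) := by
    intro a
    have := hact a T₀ _ hT₀
    rwa [mul_one_div] at this
  have hdvd : ∀ a, act a T₀ = 0 ↔ b ∣ a := by
    intro a
    rw [(hU a).zero_iff, mem_LF]
    constructor
    · rintro ⟨y, hy⟩
      rw [div_eq_iff hb', ← map_mul] at hy
      exact ⟨y, by rw [eF_inj hy, mul_comm]⟩
    · rintro ⟨y, rfl⟩
      exact ⟨y, by rw [map_mul, mul_div_cancel_left₀ _ hb']⟩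
  refine ⟨T₀, ?_, ?_, hdvd, ?_⟩
  · exact (hdvd b).2 dvd_rfl
  · intro T hT
    obtain ⟨w, hw⟩ := U_ex h T
    have h2 := hact b T w hw
    have h3 : act b T = 0 := hT
    rw [h3] at h2
    have h4 := h2.zero_iff.1 rfl
    rw [mem_LF] at h4
    obtain ⟨a, ha⟩ := h4
    refine ⟨a, U_inj h hw ?_⟩
    have h5 := hU a
    rwa [← ha, mul_div_cancel_left₀ _ hb'] at h5
  · intro a ha
    rcases hU a with ⟨h2, -⟩ | ⟨-, -, h3, h4⟩
    · exact absurd ((hdvd a).1 h2) ha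
    · exact ⟨h3, h4⟩

end H55K.CC
end

-- from Lib.H55K.SS0
section

/-! # H55K, part S: decomposition of a Selmer class (port of H13S/S0) -/

open NumberField IsDedekindDomain WeierstrassCurve

namespace H55K.S

open H55P (IQ embF eF LF Per IsHecke Pt ac Inert Dec Nm Coc SelZero)
open H35P (WAB Ker tt)
open H13S (Abv)

variable {F : Type} [Field F] [NumberField F] [IQ F] {A B : F} {Om : ℂ} {Ω : Type} [Field Ω] [DecidableEq Ω]
  [Algebra F Ω] {j : Ω →+* ℂ} {act : 𝓞 F →+* AddMonoid.End (Pt (WAB A B) Ω)} {mo : Ideal (𝓞 F)}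
  {ψ : Ideal (𝓞 F) →*₀ 𝓞 F}

/-- Multiples of a cocycle. -/
theorem s0_cl {π : 𝓞 F} {l : ℕ} (dta : Dta A B Om j act mo ψ l) (hπ : Prime π)
    (hd : π ∣ (l : 𝓞 F)) {c : (Ω ≃ₐ[F] Ω) → Pt (WAB A B) Ω} (h1 : Coc (WAB A B) (⊥ : IntermediateField F Ω) c)
    (hloc : ∀ V : ValuationSubring Ω, ∃ P : Pt (WAB A B) Ω, ∀ s : Ω ≃ₐ[F] Ω, Inert V s →
      c s = ac (WAB A B) s P - P)
    (a : 𝓞 F) (hv : ∀ s, act (cj π) (act a (c s)) = 0) : Cl A B Om j act mo ψ π l fun s => act a (c s) := by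
  have hA := dta.cma
  have hbot : ∀ s : Ω ≃ₐ[F] Ω, s ∈ (⊥ : IntermediateField F Ω).fixingSubgroup := by
    intro s
    rw [IntermediateField.fixingSubgroup_bot]
    exact Subgroup.mem_top s
  refine ⟨dta, hπ, hd, ?_, ?_, hv, ?_⟩
  · intro s t
    show act a (c (s * t)) = act a (c s) + ac (WAB A B) s (act a (c t))
    rw [h1.mul s (hbot s) t (hbot t), map_add, ac_act hA]
  · obtain ⟨L, hL1, hL2⟩ := h1.cont
    refine ⟨L, hL1, fun s hs => ?_⟩
    show act a (c s) = 0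
    rw [hL2 s (hbot s) hs, map_zero]
  · intro V
    obtain ⟨P, hP⟩ := hloc V
    refine ⟨act a P, fun s hs => ?_⟩
    show act a (c s) = ac (WAB A B) s (act a P) - act a P
    rw [hP s hs, map_sub, ac_act hA]

/-- The Selmer group over F is zero if all classes with values in the points killed by a prime element above l are coboundaries. -/
theorem selzero_of (l : ℕ) (dta : Dta A B Om j act mo ψ l)
    (H : ∀ (π : 𝓞 F) (c : (Ω ≃ₐ[F] Ω) → Pt (WAB A B) Ω), Cl A B Om j act mo ψ π l c →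
      ∃ X ∈ Tor act (cj π), ∀ s, c s = ac (WAB A B) s X - X) :
    SelZero (WAB A B) l (⊥ : IntermediateField F Ω) := by
  have hA := dta.cma
  intro c hc hlc hloc
  have hbot : ∀ s : Ω ≃ₐ[F] Ω, s ∈ (⊥ : IntermediateField F Ω).fixingSubgroup := by
    intro s
    rw [IntermediateField.fixingSubgroup_bot]
    exact Subgroup.mem_top s
  have hloc' : ∀ V : ValuationSubring Ω, ∃ P : Pt (WAB A B) Ω, ∀ s : Ω ≃ₐ[F] Ω, Inert V s →
      c s = ac (WAB A B) s P - P := by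
    intro V
    obtain ⟨P, hP⟩ := hloc V
    exact ⟨P, fun s hs => hP s (hbot s) hs⟩
  have hlc' : ∀ s, act (l : 𝓞 F) (c s) = 0 := by
    intro s
    rw [act_nat]
    exact hlc s (hbot s)
  have hlX : ∀ X : Pt (WAB A B) Ω, act (l : 𝓞 F) X = 0 → l • X = 0 := fun X hX => by
    rwa [act_nat] at hX
  obtain ⟨π, hπ, hd⟩ := exists_prime_above (F := F) dta.prime
  rcases dichotomy dta.prime dta.unr hπ hd with ⟨h1, -, h3⟩ | ⟨h1, -, -, h4⟩
  · have hT : Tor act (cj π) = Tor act (l : 𝓞 F) := tor_assoc (h1.trans h3.symm)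
    have hv : ∀ s, act (cj π) (act 1 (c s)) = 0 := by
      intro s
      rw [act_one, ← mem_Tor, hT, mem_Tor]
      exact hlc' s
    obtain ⟨X, hX, hX2⟩ := H π _ (s0_cl dta hπ hd hc hloc' 1 hv)
    refine ⟨X, ?_, fun s _ => ?_⟩
    · rw [hT] at hX
      exact hlX X hX
    · have h4 := hX2 s
      change act (1 : 𝓞 F) (c s) = _ at h4
      rw [act_one] at h4
      exact h4
  · have hco : IsCoprime π (cj π) := (hπ.irreducible.coprime_iff_not_dvd).2 h1
    obtain ⟨a, b, hab⟩ := hco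
    have hπ' : Prime (cj π) := cj_prime hπ
    have hd' : cj π ∣ (l : 𝓞 F) := by
      rw [cj_dvd, cj_nat]
      exact hd
    have hC1 := s0_cl dta hπ hd hc hloc' (a * π) (by
      intro s
      rw [← act_mul]
      have e : cj π * (a * π) = a * (l : 𝓞 F) := by
        rw [← h4]
        ring
      rw [e, act_mul, hlc', map_zero])
    have hC2 := s0_cl dta hπ' hd' hc hloc' (b * cj π) (by
      intro s
      rw [← act_mul, cj_cj]
      have e : π * (b * cj π) = b * (l : 𝓞 F) := by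
        rw [← h4]
        ring
      rw [e, act_mul, hlc', map_zero])
    obtain ⟨X, hX, hX2⟩ := H π _ hC1
    obtain ⟨Y, hY, hY2⟩ := H (cj π) _ hC2
    rw [cj_cj] at hY
    refine ⟨X + Y, hlX _ ?_, fun s _ => ?_⟩
    · have e1 : act (l : 𝓞 F) X = 0 := by
        rw [← h4, act_mul, mem_Tor.1 hX, map_zero]
      have e2 : act (l : 𝓞 F) Y = 0 := by
        rw [← h4, mul_comm, act_mul, mem_Tor.1 hY, map_zero]
      rw [map_add, e1, e2, add_zero]
    · have h6 := hX2 s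
      have h5' := hY2 s
      change act (a * π) (c s) = _ at h6
      change act (b * cj π) (c s) = _ at h5'
      have e : c s = act (a * π) (c s) + act (b * cj π) (c s) := by
        rw [← act_add, hab, act_one]
      rw [e, h6, h5', map_add]
      abel

end H55K.S
end

-- from Lib.H55P.T6
section

open NumberField IsDedekindDomain

namespace H55P

open H55N
open H55B (g)

variable {F : Type} [Field F] [NumberField F] [IQ F] {K : Type} [Field K] [NumberField K]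
  [Algebra F K] {m : ℕ}

/-! Chunk PT6 (S/M). Ports: one_sumP of one_sum (Lib/H55N/TW2.lean; TW2_coprime is reusable), P_neP of P_ne (Lib/H55N/TW3.lean: |q Ψ(c) χ(c) q^(-s)| = q^(3/2 - Re s) > 1 or the value is 0), factorP: 1 - q tm(Ψχ) 1 c = 1 - Ψ(c) χ(c) =
(1 - Ψ(c)) - Ψ(c)(χ(c) - 1), and V(χ(c) - 1) < 1 (root_max) or χ(c) = 0. EfacP: if Ψ(w) <> 0: tm Ψ 1 w = Ψ(w)/absNorm w = 1/conj(Ψ(w)) (PsiP_norm), 1 - 1/c = (c - 1)/c, V(c) = 1. root_max: ζ^p = 1 implies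
(ζ - 1)^p in p Z[ζ]: (ζ-1)^p = ζ^p - 1 + p(..) (add_pow_char style: exists_add_pow_prime_eq), ζ in V, so V(ζ-1)^p <= V(p) < 1. pow_max: x in V: V(1 - x) = 1 iff V(1 - x^(p^j)) = 1 (Frobenius of the residue field: (1-x)^(p^j) = 1 - x^(p^j) modulo p). -/

theorem pt6_le {V : ValuationSubring ℂ} {x : ℂ} {n : ℕ} (hn : n ≠ 0)
    (h : V.valuation x ^ n = 1) : V.valuation x = 1 := by
  rcases lt_trichotomy (V.valuation x) 1 with h1 | h1 | h1
  · exact absurd h (ne_of_lt (pow_lt_one₀ zero_le h1 hn))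
  · exact h1
  · exact absurd h (ne_of_gt (one_lt_pow₀ h1 hn))

theorem pt6_pow (p : ℕ) (hp : p.Prime) (V : ValuationSubring ℂ) (x : ℂ) (hx : V.valuation x ≤ 1) :
    ∃ r : ℂ, V.valuation r ≤ 1 ∧ (x + 1) ^ p = x ^ p + 1 + p * r := by
  have hx' : x ∈ V := (ValuationSubring.valuation_le_one_iff V x).1 hx
  obtain ⟨r, hr⟩ := exists_add_pow_prime_eq hp (⟨x, hx'⟩ : V) 1
  refine ⟨x * r, ?_, ?_⟩
  · rw [map_mul]
    exact mul_le_one' hx ((ValuationSubring.valuation_le_one_iff V _).2 r.2)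
  · have h1 := congrArg (fun z : V => (z : ℂ)) hr
    simp only [one_pow, mul_one] at h1
    have h2 : (((⟨x, hx'⟩ + 1) ^ p : V) : ℂ) = (x + 1) ^ p := rfl
    have h3 : (((⟨x, hx'⟩ : V) ^ p + 1 + (p : V) * (⟨x, hx'⟩ : V) * r : V) : ℂ) =
        x ^ p + 1 + ((p : V) : ℂ) * x * r := rfl
    have h4 : ((p : V) : ℂ) = (p : ℂ) := by
      exact map_natCast V.subtype p
    rw [h2, h3, h4] at h1
    rw [h1, mul_assoc]

theorem root_max (p : ℕ) (hp : p.Prime) (V : ValuationSubring ℂ) (hV : V.valuation (p : ℂ) < 1) (ζ : ℂ)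
    (h : ζ ^ p = 1) : V.valuation (ζ - 1) < 1 := by
  have h1 : V.valuation ζ = 1 := by
    apply pt6_le hp.ne_zero
    rw [← map_pow, h, map_one]
  have h2 : V.valuation (ζ - 1) ≤ 1 :=
    (Valuation.map_sub _ _ _).trans (max_le h1.le (by rw [map_one]))
  obtain ⟨r, hr, h3⟩ := pt6_pow p hp V (ζ - 1) h2
  rw [sub_add_cancel, h] at h3
  have h4 : (ζ - 1) ^ p = -(p * r) := by linear_combination -h3
  by_contra hcon
  have h5 : V.valuation (ζ - 1) = 1 := le_antisymm h2 (not_lt.1 hcon)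
  have h6 := congrArg V.valuation h4
  rw [map_pow, h5, one_pow, Valuation.map_neg, map_mul] at h6
  exact absurd h6.symm (ne_of_lt (lt_of_le_of_lt (mul_le_of_le_one_right' hr) hV))

theorem pt6_pow1 (p : ℕ) (hp : p.Prime) (V : ValuationSubring ℂ) (hV : V.valuation (p : ℂ) < 1) (x : ℂ)
    (hx : V.valuation x ≤ 1) (h : V.valuation (1 - x) = 1) : V.valuation (1 - x ^ p) = 1 := by
  have h1 : V.valuation (x - 1) = 1 := by rw [← h, Valuation.map_sub_swap]
  obtain ⟨r, hr, h3⟩ := pt6_pow p hp V (x - 1) h1.le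
  rw [sub_add_cancel] at h3
  have h4 : x ^ p - 1 = (p : ℂ) * r + (x - 1) ^ p := by rw [h3]; ring
  rw [Valuation.map_sub_swap, h4]
  have h5 : V.valuation ((x - 1) ^ p) = 1 := by rw [map_pow, h1, one_pow]
  have h6 : V.valuation ((p : ℂ) * r) < 1 := by
    rw [map_mul]
    exact lt_of_le_of_lt (mul_le_of_le_one_right' hr) hV
  rw [Valuation.map_add_eq_of_lt_right _ (by rw [h5]; exact h6), h5]

theorem pow_max (p : ℕ) (hp : p.Prime) (V : ValuationSubring ℂ) (hV : V.valuation (p : ℂ) < 1) (x : ℂ)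
    (hx : V.valuation x ≤ 1) (h : V.valuation (1 - x) = 1) (j : ℕ) : V.valuation (1 - x ^ p ^ j) = 1 := by
  induction j with
  | zero => rw [pow_zero, pow_one]; exact h
  | succ j ih =>
    rw [pow_succ, pow_mul]
    refine pt6_pow1 p hp V hV _ ?_ ih
    rw [map_pow]
    exact pow_le_one₀ zero_le hx

theorem one_sumP {M : Ideal (𝓞 F)} {ψ : Ideal (𝓞 F) →*₀ 𝓞 F} (h : IsHecke M ψ) (f : Ideal (𝓞 K))
    (hf : f ≠ ⊥) :
    ∃ S : Finset (HeightOneSpectrum (𝓞 K)), (∀ w, w ∈ S ↔ f ≤ w.asIdeal) ∧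
      ∀ s : ℂ, 3 / 2 < s.re →
        HasSum (tm (PsiP K ψ * oneI f : Ideal (𝓞 K) →*₀ ℂ) s)
          ((∏ w ∈ S, (1 - tm (PsiP K ψ) s w.asIdeal)) * ∑' a, tm (PsiP K ψ) s a) := by
  classical
  have hfin : {w : HeightOneSpectrum (𝓞 K) | w.asIdeal ∣ f}.Finite := Ideal.finite_factors hf
  have hS : ∀ w, w ∈ hfin.toFinset ↔ f ≤ w.asIdeal := by
    intro w
    rw [Set.Finite.mem_toFinset]
    exact Ideal.dvd_iff_le
  refine ⟨hfin.toFinset, hS, fun s hs => ?_⟩
  set S := hfin.toFinset with hSd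
  have hk : Summable fun a => ‖tmH (PsiP K ψ) s a‖ := tm_summable (PsiP K ψ) (PsiP_norm_le h) s hs
  have h1 := smooth_sum (tmH (PsiP K ψ) s) hk (fun w : S => w.1.asIdeal) (fun w => w.1.isPrime)
    (fun w => w.1.ne_bot) (fun w w' h => Subtype.ext (HeightOneSpectrum.ext h)) (fun _ => 1)
  have h2 : (∏ w : S, (1 - 1 * (tmH (PsiP K ψ) s) w.1.asIdeal)) =
      ∏ w ∈ S, (1 - tm (PsiP K ψ) s w.asIdeal) := by
    rw [← Finset.prod_coe_sort S]
    refine Finset.prod_congr rfl fun w _ => ?_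
    rw [one_mul]
    rfl
  rw [h2] at h1
  refine h1.congr_fun fun a => ?_
  have h3 : tm (PsiP K ψ * oneI f : Ideal (𝓞 K) →*₀ ℂ) s a = tmH (PsiP K ψ) s a * oneI f a := by
    show (PsiP K ψ a * oneI f a) * (Ideal.absNorm a : ℂ) ^ (-s) =
      (PsiP K ψ a * (Ideal.absNorm a : ℂ) ^ (-s)) * oneI f a
    ring
  rw [h3]
  by_cases ha : a = ⊥
  · rw [ha]
    have h4 : tmH (PsiP K ψ) s (⊥ : Ideal (𝓞 K)) = 0 := (tmH (PsiP K ψ) s).map_zero
    rw [h4, zero_mul, zero_mul]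
  · congr 1
    have h5 : oneI f a = if a ≠ ⊥ ∧ IsCoprime a f then 1 else 0 := rfl
    rw [h5]
    by_cases hc : IsCoprime a f
    · rw [if_pos ⟨ha, hc⟩]
      symm
      refine Finset.prod_eq_one fun w _ => ?_
      rw [if_neg ((TW2_coprime a f ha S hS).1 hc w.1 w.2)]
    · rw [if_neg (fun h => hc h.2)]
      rw [TW2_coprime a f ha S hS] at hc
      push Not at hc
      obtain ⟨w, hw, haw⟩ := hc
      symm
      refine Finset.prod_eq_zero (Finset.mem_univ (⟨w, hw⟩ : S)) ?_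
      rw [if_pos haw, sub_self]

theorem P_neP {M : Ideal (𝓞 F)} {ψ : Ideal (𝓞 F) →*₀ 𝓞 F} (h : IsHecke M ψ) (p : ℕ) (hp : p.Prime)
    (f : Ideal (𝓞 K)) (χ : Ideal (𝓞 K) →*₀ ℂ) (hχ : PChr p f χ) (c : Ideal (𝓞 K)) (q : ℕ) (hq : q.Prime)
    (hc : Ideal.absNorm c = q) (s : ℂ) (hs : s.re < 3 / 2) :
    1 - (q : ℂ) * tm (PsiP K ψ * χ : Ideal (𝓞 K) →*₀ ℂ) s c ≠ 0 := by
  have hp0 : (0 : ℝ) < q := by exact_mod_cast hq.pos
  have hp1 : (1 : ℝ) < q := by exact_mod_cast hq.one_lt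
  have hc0 : c ≠ ⊥ := by
    intro h
    rw [h, Ideal.absNorm_bot] at hc
    exact hq.ne_zero hc.symm
  intro hh
  have h1 : (q : ℂ) * tm (PsiP K ψ * χ : Ideal (𝓞 K) →*₀ ℂ) s c = 1 := by linear_combination -hh
  have h2 : tm (PsiP K ψ * χ : Ideal (𝓞 K) →*₀ ℂ) s c = PsiP K ψ c * χ c * (q : ℂ) ^ (-s) := by
    unfold tm
    rw [hc]
    rfl
  rw [h2] at h1
  have h3 : PsiP K ψ c ≠ 0 := by
    intro h0
    rw [h0] at h1
    simp at h1
  have h4 : χ c ≠ 0 := by
    intro h0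
    rw [h0] at h1
    simp at h1
  have h5 : ‖χ c‖ = 1 := by
    have hcop : IsCoprime c f := by
      by_contra hn
      exact h4 (hχ.zero c hn)
    have h9 := congrArg norm (hχ.val c hc0 hcop)
    rw [norm_pow, NormOneClass.norm_one] at h9
    exact (pow_eq_one_iff_of_nonneg (norm_nonneg _) hp.ne_zero).1 h9
  have h6 : ‖PsiP K ψ c‖ ^ 2 = q := by
    rw [PsiP_norm h c hc0 ((PsiP_ne h c hc0).1 h3), hc]
  have h7 : ‖PsiP K ψ c‖ = (q : ℝ) ^ (1 / 2 : ℝ) := by
    rw [← Real.sqrt_eq_rpow, ← h6, Real.sqrt_sq (norm_nonneg _)]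
  have h8 := congrArg norm h1
  rw [norm_mul, norm_mul, norm_mul, h5, h7, NormOneClass.norm_one, Complex.norm_natCast,
    Complex.norm_natCast_cpow_of_pos hq.pos, mul_one, Complex.neg_re] at h8
  have h9 : (q : ℝ) * ((q : ℝ) ^ (1 / 2 : ℝ) * (q : ℝ) ^ (-s.re)) = (q : ℝ) ^ (3 / 2 - s.re) := by
    have h11 : (3 / 2 - s.re) = 1 + (1 / 2 + -s.re) := by ring
    rw [h11, Real.rpow_add hp0, Real.rpow_add hp0, Real.rpow_one]
  rw [h9] at h8
  have h10 : 1 < (q : ℝ) ^ (3 / 2 - s.re) := Real.one_lt_rpow hp1 (by linarith)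
  rw [h8] at h10
  exact lt_irrefl _ h10

theorem factorP (p : ℕ) (hp : p.Prime) (V : ValuationSubring ℂ) (hV : V.valuation (p : ℂ) < 1)
    (ψ : Ideal (𝓞 F) →*₀ 𝓞 F) (χ : Ideal (𝓞 K) →*₀ ℂ) (c : Ideal (𝓞 K)) (q : ℕ) (hq : q.Prime)
    (hc : Ideal.absNorm c = q) (hu : V.valuation (1 - PsiP K ψ c) = 1) (hχ : χ c ^ p = 1 ∨ χ c = 0) :
    V.valuation (1 - (q : ℂ) * tm (PsiP K ψ * χ : Ideal (𝓞 K) →*₀ ℂ) 1 c) = 1 := by
  have hq0 : (q : ℂ) ≠ 0 := by exact_mod_cast hq.ne_zero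
  have h2 : (q : ℂ) * tm (PsiP K ψ * χ : Ideal (𝓞 K) →*₀ ℂ) 1 c = PsiP K ψ c * χ c := by
    have h1 : tm (PsiP K ψ * χ : Ideal (𝓞 K) →*₀ ℂ) 1 c = PsiP K ψ c * χ c * (q : ℂ) ^ (-1 : ℂ) := by
      unfold tm
      rw [hc]
      rfl
    rw [h1, Complex.cpow_neg_one]
    field_simp
  rw [h2]
  rcases hχ with h | h
  · have h3 : 1 - PsiP K ψ c * χ c = -(PsiP K ψ c * (χ c - 1)) + (1 - PsiP K ψ c) := by ring
    rw [h3, Valuation.map_add_eq_of_lt_right, hu]
    rw [hu, Valuation.map_neg, map_mul]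
    exact lt_of_le_of_lt (mul_le_of_le_one_left' (PsiP_int ψ c V).1) (root_max p hp V hV _ h)
  · rw [h, mul_zero, sub_zero, map_one]

theorem EfacP (p : ℕ) (hp : p.Prime) (V : ValuationSubring ℂ) (hV : V.valuation (p : ℂ) < 1)
    {M : Ideal (𝓞 F)} {ψ : Ideal (𝓞 F) →*₀ 𝓞 F} (h : IsHecke M ψ) (w : HeightOneSpectrum (𝓞 K))
    (hwp : IsCoprime w.asIdeal (Ideal.span {(p : 𝓞 K)}))
    (hw : V.valuation (1 - (starRingEnd ℂ) (PsiP K ψ w.asIdeal)) = 1) :
    V.valuation (1 - tm (PsiP K ψ) 1 w.asIdeal) = 1 := by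
  by_cases h0 : PsiP K ψ w.asIdeal = 0
  · unfold tm
    rw [h0, zero_mul, sub_zero, map_one]
  · have hcop := (PsiP_ne h w.asIdeal w.ne_bot).1 h0
    have hn := PsiP_norm h w.asIdeal w.ne_bot hcop
    have hu := PsiP_unit p hp h w.asIdeal w.ne_bot hcop hwp V hV
    have hc0 : (starRingEnd ℂ) (PsiP K ψ w.asIdeal) ≠ 0 := by
      rw [Ne, map_eq_zero]
      exact h0
    have hN : (Ideal.absNorm w.asIdeal : ℂ) =
        PsiP K ψ w.asIdeal * (starRingEnd ℂ) (PsiP K ψ w.asIdeal) := by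
      rw [Complex.mul_conj, Complex.normSq_eq_norm_sq, hn]
      push_cast
      rfl
    have h1 : 1 - tm (PsiP K ψ) 1 w.asIdeal =
        -((1 - (starRingEnd ℂ) (PsiP K ψ w.asIdeal)) / (starRingEnd ℂ) (PsiP K ψ w.asIdeal)) := by
      unfold tm
      rw [Complex.cpow_neg_one, hN]
      field_simp
      ring
    rw [h1, Valuation.map_neg, map_div₀, hw, hu.2, div_one]

end H55P
end

-- from Lib.H55P.T12
section

open NumberField IsDedekindDomain

namespace H55P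

open H55N
open H55B (g)

variable {F : Type} [Field F] [NumberField F] [IQ F]

/-! Chunk PT12 (M). Going up. NTP_up: the ideal a O' (a.map): relNorm (a.map) = a^[K':K] (Ideal.relNorm_algebraMap), so PsiP K' (a.map) = PsiP K a ^ (p^k) by PsiP_top, pow_max. Coprimality: map. adm_up: for W above w, relNorm W = w^f (CH2_norm or
Ideal.relNorm_eq_pow_of_isMaximal), f = inertiaDeg is a power of p: hf. PsiP K' W = PsiP K w ^ f; conj; pow_max with x = conj (PsiP K w), PsiP_int. -/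

theorem pt12_rank (K K' : Type) [Field K] [NumberField K] [Field K'] [NumberField K']
    [Algebra K K'] : Module.finrank (𝓞 K) (𝓞 K') = Module.finrank K K' :=
  (IsFractionRing.finrank_eq (𝓞 K) K (𝓞 K') K').symm

theorem NTP_up (K K' : Type) [Field K] [NumberField K] [Algebra F K] [Field K'] [NumberField K']
    [Algebra F K'] [Algebra K K'] [IsScalarTower F K K'] (p : ℕ) (hp : p.Prime) (k : ℕ)
    (hn : Module.finrank K K' = p ^ k) {M : Ideal (𝓞 F)} {ψ : Ideal (𝓞 F) →*₀ 𝓞 F}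
    (V : ValuationSubring ℂ) (hV : V.valuation (p : ℂ) < 1) (h : NTP K p M ψ V) : NTP K' p M ψ V := by
  obtain ⟨a, ha1, ha2, ha3⟩ := h
  refine ⟨a.map (algebraMap (𝓞 K) (𝓞 K')), ?_, ?_, ?_⟩
  · have h1 := ha1.map (Ideal.mapHom (algebraMap (𝓞 K) (𝓞 K')))
    have h2 : (Ideal.span {(p : 𝓞 K)}).map (algebraMap (𝓞 K) (𝓞 K')) =
        Ideal.span {(p : 𝓞 K')} := by
      rw [Ideal.map_span, Set.image_singleton, map_natCast]
    rw [← h2]
    exact h1
  · have h1 := ha2.map (Ideal.mapHom (algebraMap (𝓞 K) (𝓞 K')))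
    have h2 : (mK K M).map (algebraMap (𝓞 K) (𝓞 K')) = mK K' M := by
      unfold mK
      rw [Ideal.map_map, ← IsScalarTower.algebraMap_eq]
    rw [← h2]
    exact h1
  · rw [PsiP_top (K := K), Ideal.relNorm_algebraMap, pt12_rank, hn, map_pow]
    exact pow_max p hp V hV _ (PsiP_int ψ a V).1 ha3 k

theorem adm_up (K K' : Type) [Field K] [NumberField K] [Algebra F K] [Field K'] [NumberField K']
    [Algebra F K'] [Algebra K K'] [IsScalarTower F K K'] (p : ℕ) (hp : p.Prime)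
    {ψ : Ideal (𝓞 F) →*₀ 𝓞 F} (V : ValuationSubring ℂ) (hV : V.valuation (p : ℂ) < 1)
    (w : HeightOneSpectrum (𝓞 K)) (W : HeightOneSpectrum (𝓞 K'))
    (hW : W.asIdeal.under (𝓞 K) = w.asIdeal) (hf : ∃ j : ℕ, W.asIdeal.inertiaDeg (𝓞 K) = p ^ j)
    (h : V.valuation (1 - (starRingEnd ℂ) (PsiP K ψ w.asIdeal)) = 1) :
    V.valuation (1 - (starRingEnd ℂ) (PsiP K' ψ W.asIdeal)) = 1 := by
  obtain ⟨j, hj⟩ := hf
  have hl : W.asIdeal.LiesOver w.asIdeal := ⟨hW.symm⟩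
  have hw := w.isMaximal
  have hwp := w.isPrime
  have hWm := W.isMaximal
  have hWp := W.isPrime
  have h1 := Ideal.relNorm_eq_pow_of_isMaximal W.asIdeal w.asIdeal
  rw [PsiP_top (K := K), h1, hj, map_pow, map_pow]
  exact pow_max p hp V hV _ (PsiP_int ψ w.asIdeal V).2 h j

end H55P
end

-- from Lib.H55K.C16
section

open NumberField WeierstrassCurve Polynomial

namespace H55K.CC

open H55P (IQ embF eF LF Per Pt ac mem_LF eF_inj eF_ne Nm Nm_eq)
open H35P (WAB)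

variable {F : Type} [Field F] [NumberField F] [IQ F] {Ω : Type} [Field Ω] [DecidableEq Ω] [Algebra F Ω]
  {A B : F} {Om : ℂ} {j : Ω →+* ℂ}

/-! Chunk C16 (M). If e(a) z in Λ (in particular if a = 0): Q = 0. Otherwise a <> 0, S from exists_Rep; for r in S a point T_r with U T_r r (U_tors, lat_nm); z + r not in Λ (Rep.zr_out), so
XL(z + r) = j(xc(P + T_r)), YL(z + r) = j(yc(P + T_r)) (U_add, U.xc_eq, U.yc_eq). E1, E1d divided by Om^2, 2 Om^3: XL(e(a) z), YL(e(a) z) are in the range of j (e(a) = j(ak Ω a): h.ovr), a subring closed under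
division (write them as j of explicit elements; j(∑ ..) = ∑ j(..), map_div₀). U_alg. -/

theorem U_act [IsAlgClosed Ω] (h : CH A B Om j) (a : 𝓞 F) {P : Pt (WAB A B) Ω} {z : ℂ} (hP : U A B Om j P z) :
    ∃ Q, U A B Om j Q (eF F a * z) := by
  classical
  by_cases hz : eF F a * z ∈ (LF F).lattice
  · exact ⟨0, Or.inl ⟨rfl, hz⟩⟩
  have ha : a ≠ 0 := by
    rintro rfl
    apply hz
    rw [map_zero, zero_mul]
    exact zero_mem _
  obtain ⟨S, hS⟩ := exists_Rep ha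
  have hT : ∀ r, r ∈ S → ∃ T, U A B Om j T r := by
    intro r hr
    obtain ⟨h1, h2⟩ := lat_nm ha (hS.mem r hr)
    exact U_tors h h1 h2
  choose! T hT using hT
  have hz0 := hS.z_out hz
  have e0 : j (algebraMap F Ω (a : F)) = eF F a := h.ovr (a : F)
  have hb : eF F a ≠ 0 := eF_ne ha
  have hx : j ((xc P + ∑ r ∈ S, (xc (P + T r) - xc (T r))) / algebraMap F Ω (a : F) ^ 2) =
      XL (LF F) Om (eF F a * z) := by
    rw [map_div₀, map_add, map_pow, map_sum, e0, hP.xc_eq hz0]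
    have e1 : ∀ r ∈ S, j (xc (P + T r) - xc (T r)) = XL (LF F) Om (z + r) - XL (LF F) Om r := by
      intro r hr
      rw [map_sub, (U_add h hP (hT r hr)).xc_eq (hS.zr_out hz hr), (hT r hr).xc_eq (hS.out r hr)]
    rw [Finset.sum_congr rfl e1, div_eq_iff (pow_ne_zero 2 hb)]
    have e2 := E1 hS hz
    unfold XL
    rw [div_mul_eq_mul_div, mul_comm _ (eF F a ^ 2), e2, add_div, Finset.sum_div]
    congr 1
    exact Finset.sum_congr rfl fun r _ => by rw [sub_div]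
  have hy : j ((yc P + ∑ r ∈ S, yc (P + T r)) / algebraMap F Ω (a : F) ^ 3) =
      YL (LF F) Om (eF F a * z) := by
    rw [map_div₀, map_add, map_pow, map_sum, e0, hP.yc_eq hz0]
    have e1 : ∀ r ∈ S, j (yc (P + T r)) = YL (LF F) Om (z + r) := by
      intro r hr
      rw [(U_add h hP (hT r hr)).yc_eq (hS.zr_out hz hr)]
    rw [Finset.sum_congr rfl e1, div_eq_iff (pow_ne_zero 3 hb)]
    have e2 := E1d hS hz
    unfold YL
    rw [div_mul_eq_mul_div, mul_comm _ (eF F a ^ 3), e2, add_div, Finset.sum_div]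
  exact U_alg h hz hx hy

end H55K.CC
end

-- from Lib.H55K.C17
section

open NumberField WeierstrassCurve Polynomial

namespace H55K.CC

open H55P (IQ embF eF LF Per Pt ac mem_LF eF_inj eF_ne Nm Nm_eq)
open H35P (WAB)

variable {F : Type} [Field F] [NumberField F] [IQ F] {Ω : Type} [Field Ω] [DecidableEq Ω] [Algebra F Ω]
  {A B : F} {Om : ℂ} {j : Ω →+* ℂ}

/-! Chunk C17 (S/M). Choose z for every P (U_ex) and act a P with U (act a P) (e(a) z) (U_act). If U P z' then z - z' in Λ (U_mod), e(a) (z - z') in Λ (mem_LF), so U (act a P) (e(a) z') (U_mod).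
All the identities (act a (P + Q) = act a P + act a Q, act (a + b) P, act (a b) P, act 1 P, act 0 P = 0) by U_inj: both sides have the same parameter (U_add; U 0 0). AddMonoidHom.mk', RingHom structure on
AddMonoid.End (mul is composition). -/

theorem exists_act [IsAlgClosed Ω] (h : CH A B Om j) :
    ∃ act : 𝓞 F →+* AddMonoid.End (Pt (WAB A B) Ω), Act A B Om j act := by
  have hz : ∀ P : Pt (WAB A B) Ω, ∃ z, U A B Om j P z := U_ex h
  choose ζ hζ using hz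
  have hf : ∀ (a : 𝓞 F) (P : Pt (WAB A B) Ω), ∃ Q : Pt (WAB A B) Ω, U A B Om j Q (eF F a * ζ P) :=
    fun a P => U_act h a (hζ P)
  choose f hf using hf
  have hu : ∀ (a : 𝓞 F) (P : Pt (WAB A B) Ω) (z : ℂ), U A B Om j P z → U A B Om j (f a P) (eF F a * z) := by
    intro a P z hP
    rw [U_mod h (hf a P)]
    have h1 := (U_mod h (hζ P)).1 hP
    obtain ⟨y, hy⟩ := (mem_LF _).1 h1
    rw [← mul_sub, hy, ← map_mul]
    exact (mem_LF _).2 ⟨a * y, rfl⟩
  have h0 : U A B Om j (0 : Pt (WAB A B) Ω) 0 := Or.inl ⟨rfl, zero_mem _⟩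
  have hadd : ∀ (a : 𝓞 F) (P Q : Pt (WAB A B) Ω), f a (P + Q) = f a P + f a Q := by
    intro a P Q
    have h1 := hu a (P + Q) _ (U_add h (hζ P) (hζ Q))
    have h2 := U_add h (hf a P) (hf a Q)
    rw [← mul_add] at h2
    exact U_inj h h1 h2
  let g : 𝓞 F → AddMonoid.End (Pt (WAB A B) Ω) := fun a => AddMonoidHom.mk' (f a) (hadd a)
  have hg : ∀ a P, g a P = f a P := fun a P => rfl
  refine ⟨{ toFun := g, map_one' := ?_, map_mul' := ?_, map_zero' := ?_, map_add' := ?_ }, ?_⟩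
  · refine AddMonoidHom.ext fun P => ?_
    have h1 := hf 1 P
    rw [map_one, one_mul] at h1
    exact U_inj h h1 (hζ P)
  · intro a b
    refine AddMonoidHom.ext fun P => ?_
    have h1 := hf (a * b) P
    have h2 := hu a _ _ (hf b P)
    rw [map_mul, mul_assoc] at h1
    exact U_inj h h1 h2
  · refine AddMonoidHom.ext fun P => ?_
    have h1 := hf 0 P
    rw [map_zero, zero_mul] at h1
    exact U_inj h h1 h0
  · intro a b
    refine AddMonoidHom.ext fun P => ?_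
    have h1 := hf (a + b) P
    have h2 := U_add h (hf a P) (hf b P)
    rw [map_add, add_mul] at h1
    exact U_inj h h1 h2
  · intro a P z hP
    exact hu a P z hP

end H55K.CC
end

-- from Lib.H55K.C28
section

open NumberField WeierstrassCurve Polynomial

namespace H55K.CC

open H55P (IQ embF eF LF Per Pt ac mem_LF eF_inj eF_ne Nm Nm_eq)
open H35P (WAB)

variable {F : Type} [Field F] [NumberField F] [IQ F] {Ω : Type} [Field Ω] [DecidableEq Ω] [Algebra F Ω]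
  {A B : F} {Om : ℂ} {j : Ω →+* ℂ} {act : 𝓞 F →+* AddMonoid.End (Pt (WAB A B) Ω)}

/-! Chunk C28 (S/M). fin_ker: act a P = 0, U P z (U_ex): e(a) z in Λ, so z in Λ (P = 0) or z - r in Λ for some r in S (exists_Rep): U P r (U_mod), and P is determined by r (U_inj): the set is contained in {0} union the image
of S under a choice function. inf_pt: n -> the point with parameter 1/(n+2) (U_tors): injective (U_mod: 1/(n+2) - 1/(m+2) in Λ has absolute value < 1; the elements <> 0 of Λ have absolute value ≥ 1: H55P.one_le_e, mem_LF).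
add_fin: pure group theory: δ vanishes outside a finite set Z of the infinite group G: for P choose Q not in Z and not in {Q | P + Q in Z} (finite: preimage of a finite set under an injective map): δ P = δ (P + Q) - δ Q = 0. -/

theorem fin_ker [IsAlgClosed Ω] (h : CH A B Om j) (hact : Act A B Om j act) {a : 𝓞 F} (ha : a ≠ 0) :
    {P : Pt (WAB A B) Ω | act a P = 0}.Finite := by
  classical
  obtain ⟨S, hS⟩ := exists_Rep ha
  have hf : ∀ r : ℂ, ∃ Q : Pt (WAB A B) Ω, (∃ P, U A B Om j P r) → U A B Om j Q r := by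
    intro r
    by_cases h1 : ∃ P, U A B Om j P r
    · obtain ⟨P, hP⟩ := h1
      exact ⟨P, fun _ => hP⟩
    · exact ⟨0, fun h2 => absurd h2 h1⟩
  choose f hf using hf
  refine Set.Finite.subset ((Set.finite_singleton (0 : Pt (WAB A B) Ω)).union ((S.image f).finite_toSet)) ?_
  intro P hP
  have hP' : act a P = 0 := hP
  obtain ⟨z, hz⟩ := U_ex h P
  have h1 : eF F a * z ∈ (LF F).lattice := ((hact a P z hz).zero_iff).1 hP'
  rcases hS.ex z h1 with h2 | ⟨r, hr, h2⟩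
  · exact Or.inl ((hz.zero_iff).2 h2)
  · right
    have h3 : U A B Om j P r := (U_mod h hz).2 h2
    rw [U_inj h h3 (hf r ⟨P, h3⟩)]
    exact Finset.mem_coe.2 (Finset.mem_image_of_mem f hr)

theorem inf_pt [IsAlgClosed Ω] (h : CH A B Om j) : Infinite (Pt (WAB A B) Ω) := by
  have h1 : ∀ n : ℕ, ∃ P : Pt (WAB A B) Ω, U A B Om j P (1 / ((n : ℂ) + 2)) := by
    intro n
    have h2 : ((n : ℂ) + 2) ≠ 0 := by exact_mod_cast (by omega : n + 2 ≠ 0)
    refine U_tors h (n := n + 2) (by omega) ?_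
    rw [mem_LF]
    refine ⟨1, ?_⟩
    rw [map_one]
    push_cast
    field_simp
  choose f hf using h1
  refine Infinite.of_injective f ?_
  intro m n hmn
  have h2 := hf m
  rw [hmn] at h2
  have h3 := (U_mod h h2).1 (hf n)
  obtain ⟨y, hy⟩ := (mem_LF _).1 h3
  have e1 : (1 : ℂ) / ((m : ℂ) + 2) - 1 / ((n : ℂ) + 2) = ((1 / ((m : ℝ) + 2) - 1 / ((n : ℝ) + 2) : ℝ) : ℂ) := by
    push_cast
    ring
  have hm : (0 : ℝ) < 1 / ((m : ℝ) + 2) ∧ 1 / ((m : ℝ) + 2) < 1 := by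
    have h4 : (0 : ℝ) < (m : ℝ) + 2 := by positivity
    refine ⟨by positivity, ?_⟩
    rw [div_lt_one h4]
    have : (0 : ℝ) ≤ m := Nat.cast_nonneg m
    linarith
  have hn : (0 : ℝ) < 1 / ((n : ℝ) + 2) ∧ 1 / ((n : ℝ) + 2) < 1 := by
    have h4 : (0 : ℝ) < (n : ℝ) + 2 := by positivity
    refine ⟨by positivity, ?_⟩
    rw [div_lt_one h4]
    have : (0 : ℝ) ≤ n := Nat.cast_nonneg n
    linarith
  by_cases hy0 : y = 0
  · rw [hy0, map_zero, e1] at hy
    have h5 : (1 / ((m : ℝ) + 2) - 1 / ((n : ℝ) + 2) : ℝ) = 0 := by exact_mod_cast hy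
    have h6 : (m : ℝ) + 2 = (n : ℝ) + 2 := by
      have h7 : 1 / ((m : ℝ) + 2) = 1 / ((n : ℝ) + 2) := by linarith
      have h8 : (0 : ℝ) < (m : ℝ) + 2 := by positivity
      have h9 : (0 : ℝ) < (n : ℝ) + 2 := by positivity
      field_simp at h7
      linarith
    have h7 : (m : ℝ) = n := by linarith
    exact_mod_cast h7
  · exfalso
    have h5 := H55P.one_le_e hy0
    rw [← hy, e1, Complex.norm_real, Real.norm_eq_abs] at h5
    have h6 : |1 / ((m : ℝ) + 2) - 1 / ((n : ℝ) + 2)| < 1 := by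
      rw [abs_lt]
      constructor <;> linarith [hm.1, hm.2, hn.1, hn.2]
    linarith

theorem add_fin {G H : Type} [AddCommGroup G] [AddCommGroup H] [Infinite G] (δ : G →+ H) {Z : Set G} (hZ : Z.Finite)
    (h : ∀ P, P ∉ Z → δ P = 0) (P : G) : δ P = 0 := by
  have h1 : (Z ∪ (fun Q => P + Q) ⁻¹' Z).Finite := by
    refine hZ.union (hZ.preimage ?_)
    intro x _ y _ hxy
    exact add_left_cancel hxy
  obtain ⟨Q, hQ⟩ := h1.exists_notMem
  have h2 : Q ∉ Z := fun h3 => hQ (Or.inl h3)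
  have h3 : P + Q ∉ Z := fun h4 => hQ (Or.inr h4)
  have h4 := h _ h3
  rw [map_add, h _ h2, add_zero] at h4
  exact h4

end H55K.CC
end

-- from Lib.H55P.T2
section

open NumberField IsDedekindDomain

namespace H55P

open H55N
open H55B (g)

variable {F : Type} [Field F] [NumberField F] [IQ F] {K : Type} [Field K] [NumberField K]
  [Algebra F K] {m : ℕ}

/-! Chunk PT2 (M). The constants of the classes; PORT of exists_kappa in Lib/H55N/H14.lean. For x in X: (x) = a b, x is prime to J = mK K M * f (at a prime w containing J: x in w b would give c₀ in w b, hp; b is coprime to J),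
so x, c₀ are coprime to mK K M and f. With N = intNorm: relNorm (x) = (N x) (Ideal.relNorm_singleton), so ψ(relNorm a) ψ(relNorm b) = ψ((N x)), and N x - N c₀ in M (intNorm_cong), so by per
ψ((N x)) N c₀ = ψ((N c₀)) N x. Hence Ψ(a) = κ' conj(e(N x)) with κ' = conj(e(ψ((N c₀))))/(conj(e(N c₀)) Ψ(b)) ; ψ((N c₀)) and N c₀ generate the same ideal, their quotient is a unit of O, so a unit at every V; Ψ(b) is a
unit at V by PsiP_unit. χ(a) χ(b) = χ((x)) = χ((c₀)) (per), ζ = χ((c₀)) χ(b)^(-1), ζ^p = 1 (val; both coprime to f). -/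

theorem PT2_norm (x : 𝓞 K) :
    embF F (Algebra.norm F (x : K)) = eF F (Algebra.intNorm (𝓞 F) (𝓞 K) x) := by
  rw [eF_apply]
  congr 1
  exact (Algebra.algebraMap_intNorm (A := 𝓞 F) (K := F) (L := K) (B := 𝓞 K) x).symm

omit [IQ F] in
theorem PT2_mK (M : Ideal (𝓞 F)) (hM : M ≠ ⊥) : mK K M ≠ ⊥ := by
  intro h
  apply hM
  unfold mK at h
  rwa [Ideal.map_eq_bot_iff_of_injective (FaithfulSMul.algebraMap_injective (𝓞 F) (𝓞 K))] at h

theorem PT2_ne (M : Ideal (𝓞 F)) (hM : M ≠ ⊤) (x : 𝓞 K)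
    (hx : IsCoprime (Ideal.span {x}) (mK K M)) : x ≠ 0 := by
  rintro rfl
  rw [Ideal.span_singleton_eq_bot.2 rfl, ← Ideal.zero_eq_bot, isCoprime_zero_left,
    Ideal.isUnit_iff] at hx
  apply hM
  have h1 : (1 : 𝓞 K) - 0 ∈ mK K M := by
    rw [hx]
    exact Submodule.mem_top
  have h2 := intNorm_cong M 1 0 h1
  rw [map_one, Algebra.intNorm_zero, sub_zero] at h2
  exact (Ideal.eq_top_iff_one M).2 h2

theorem PT2_unit (u : (𝓞 F)ˣ) (V : ValuationSubring ℂ) :
    V.valuation ((starRingEnd ℂ) (eF F (u : 𝓞 F))) = 1 := by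
  have h1 := PT1_int ((starRingEnd ℂ).comp (eF F)) (u : 𝓞 F) V
  have h2 := PT1_int ((starRingEnd ℂ).comp (eF F)) ((u⁻¹ : (𝓞 F)ˣ) : 𝓞 F) V
  have h3 : V.valuation ((starRingEnd ℂ) (eF F (u : 𝓞 F))) *
      V.valuation ((starRingEnd ℂ) (eF F ((u⁻¹ : (𝓞 F)ˣ) : 𝓞 F))) = 1 := by
    rw [← map_mul, ← map_mul, ← map_mul, u.mul_inv, map_one, map_one, map_one]
  refine le_antisymm h1 ?_
  by_contra hlt
  have h5 := mul_lt_one_of_nonneg_of_lt_one_left zero_le (not_le.1 hlt) h2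
  have h6 : V.valuation ((starRingEnd ℂ) (eF F (u : 𝓞 F))) *
      V.valuation ((starRingEnd ℂ) (eF F ((u⁻¹ : (𝓞 F)ˣ) : 𝓞 F))) < 1 := h5
  rw [h3] at h6
  exact lt_irrefl _ h6

theorem exists_kappaP (p : ℕ) (hp : p.Prime) {M : Ideal (𝓞 F)} {ψ : Ideal (𝓞 F) →*₀ 𝓞 F}
    (h : IsHecke M ψ) (hMp : IsCoprime M (Ideal.span {(p : 𝓞 F)})) (f : Ideal (𝓞 K))
    (χ : Ideal (𝓞 K) →*₀ ℂ) (hχ : PChr p f χ) (b : Ideal (𝓞 K)) (hb : b ≠ ⊥)
    (hbc : IsCoprime b (Ideal.span {(p : 𝓞 K)} * (mK K M * f))) (c₀ : 𝓞 K) (hc : c₀ ∈ b)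
    (hpr : ∀ w : HeightOneSpectrum (𝓞 K), mK K M * f ≤ w.asIdeal → c₀ ∉ w.asIdeal * b) :
    ∃ κ κ' ζ : ℂ, (∀ V : ValuationSubring ℂ, V.valuation (p : ℂ) < 1 → V.valuation κ' = 1) ∧
      ζ ^ p = 1 ∧ κ = κ' * ζ ∧
      ∀ x ∈ XS (mK K M * f * b) c₀, ∀ a : Ideal (𝓞 K), a * b = Ideal.span {x} → x ≠ 0 ∧
        (PsiP K ψ * χ) a = κ * (starRingEnd ℂ) (embF F (Algebra.norm F (x : K))) ∧
        (PsiP K ψ * oneI f) a = κ' * (starRingEnd ℂ) (embF F (Algebra.norm F (x : K))) := by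
  classical
  have hm0 : mK K M ≠ ⊥ := PT2_mK M h.ne
  have hJ0 : mK K M * f ≠ ⊥ := mul_ne_zero hm0 hχ.ne
  have hbJ : IsCoprime b (mK K M * f) := hbc.of_mul_right_right
  have hbp : IsCoprime b (Ideal.span {(p : 𝓞 K)}) := hbc.of_mul_right_left
  have hbM : IsCoprime b (mK K M) := hbJ.of_mul_right_left
  have hbf : IsCoprime b f := hbJ.of_mul_right_right
  have hcop : IsCoprime (Ideal.span {c₀}) (mK K M * f) := by
    rw [Ideal.isCoprime_iff_sup_eq]
    by_contra hne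
    obtain ⟨P, hP, hle⟩ := Ideal.exists_le_maximal _ hne
    have hPf : mK K M * f ≤ P := le_sup_right.trans hle
    have hPc : Ideal.span {c₀} ≤ P := le_sup_left.trans hle
    have hP0 : P ≠ ⊥ := by
      rintro rfl
      exact hJ0 (le_bot_iff.1 hPf)
    have hbP : ¬ b ≤ P := by
      intro h1
      rw [Ideal.isCoprime_iff_sup_eq] at hbJ
      exact hP.ne_top (top_le_iff.1 (hbJ ▸ sup_le h1 hPf))
    obtain ⟨d, hd⟩ := Ideal.dvd_iff_le.2 ((Ideal.span_singleton_le_iff_mem b).2 hc)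
    rw [hd] at hPc
    have hdP : d ≤ P := (hP.isPrime.mul_le.1 hPc).resolve_left hbP
    refine hpr ⟨P, hP.isPrime, hP0⟩ hPf ?_
    have h1 : c₀ ∈ b * d := by rw [← hd]; exact Ideal.mem_span_singleton_self _
    rw [mul_comm]
    exact Ideal.mul_mono_right hdP h1
  have hXcop : ∀ x ∈ XS (mK K M * f * b) c₀,
      IsCoprime (Ideal.span {x}) (mK K M * f) := by
    intro x hx
    have hx' : x - c₀ ∈ mK K M * f :=
      Ideal.mul_le_left (show x - c₀ ∈ mK K M * f * b from hx)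
    rw [Ideal.isCoprime_iff_exists] at hcop ⊢
    obtain ⟨i, hi, j, hj, hij⟩ := hcop
    obtain ⟨r, rfl⟩ := Ideal.mem_span_singleton.1 hi
    refine ⟨x * r, Ideal.mul_mem_right _ _ (Ideal.mem_span_singleton_self x),
      j - (x - c₀) * r, Ideal.sub_mem _ hj (Ideal.mul_mem_right _ _ hx'), ?_⟩
    linear_combination hij
  have hcM : IsCoprime (Ideal.span {c₀}) (mK K M) := hcop.of_mul_right_left
  have hc0 : c₀ ≠ 0 := PT2_ne M h.ntop c₀ hcM
  have hc0' : Ideal.span {c₀} ≠ ⊥ := fun h1 => hc0 (Ideal.span_singleton_eq_bot.1 h1)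
  have hPb : PsiP K ψ b ≠ 0 := (PsiP_ne h b hb).2 hbM
  have hχb := hχ.val b hb hbf
  have hχb0 : χ b ≠ 0 := by
    intro h0
    rw [h0, zero_pow hp.ne_zero] at hχb
    exact zero_ne_one hχb
  have hχc := hχ.val (Ideal.span {c₀}) hc0' hcop.of_mul_right_right
  have hNc := (PsiP_cop h (Ideal.span {c₀}) hc0').2 hcM
  rw [Ideal.relNorm_singleton] at hNc
  obtain ⟨nc, hnc⟩ : ∃ nc, nc = Algebra.intNorm (𝓞 F) (𝓞 K) c₀ := ⟨_, rfl⟩
  rw [← hnc] at hNc
  have hnc0 : nc ≠ 0 := by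
    rintro rfl
    have h1 := Ideal.relNorm_singleton (𝓞 F) c₀
    rw [← hnc, Ideal.span_singleton_eq_bot.2 rfl] at h1
    exact hc0' (Ideal.relNorm_eq_bot_iff.1 h1)
  obtain ⟨A, hA⟩ : ∃ A, A = (starRingEnd ℂ) (eF F (ψ (Ideal.span {nc}))) := ⟨_, rfl⟩
  obtain ⟨B, hB⟩ : ∃ B, B = (starRingEnd ℂ) (eF F nc) := ⟨_, rfl⟩
  have hB0 : B ≠ 0 := by
    rw [hB, map_ne_zero]
    exact eF_ne hnc0
  refine ⟨A / (B * PsiP K ψ b) * (χ (Ideal.span {c₀}) * (χ b)⁻¹), A / (B * PsiP K ψ b),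
    χ (Ideal.span {c₀}) * (χ b)⁻¹, ?_, ?_, rfl, ?_⟩
  · intro V hV
    have h1 := (PsiP_unit p hp h b hb hbM hbp V hV).1
    obtain ⟨u, hu⟩ := Ideal.span_singleton_eq_span_singleton.1 (h.gen _ hNc)
    have h2 : V.valuation A = V.valuation B := by
      rw [hB, ← hu, map_mul, map_mul, map_mul, PT2_unit u V, mul_one, hA]
    rw [map_div₀, map_mul, h1, mul_one, h2]
    exact div_self ((Valuation.ne_zero_iff _).2 hB0)
  · rw [mul_pow, inv_pow, hχb, hχc, inv_one, mul_one]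
  · intro x hx a hab
    have hxc := hXcop x hx
    have hxM : IsCoprime (Ideal.span {x}) (mK K M) := hxc.of_mul_right_left
    have hx0 : x ≠ 0 := PT2_ne M h.ntop x hxM
    have hx0' : Ideal.span {x} ≠ ⊥ := fun h1 => hx0 (Ideal.span_singleton_eq_bot.1 h1)
    have hxJ : x - c₀ ∈ mK K M * f :=
      Ideal.mul_le_left (show x - c₀ ∈ mK K M * f * b from hx)
    have hxm : x - c₀ ∈ mK K M := Ideal.mul_le_left hxJ
    have hxf : x - c₀ ∈ f := Ideal.mul_le_right hxJ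
    have hNx := (PsiP_cop h (Ideal.span {x}) hx0').2 hxM
    rw [Ideal.relNorm_singleton] at hNx
    have hper := h.per _ _ hNx hNc (by rw [hnc]; exact intNorm_cong M x c₀ hxm)
    have ha0 : a ≠ ⊥ := by
      rintro rfl
      apply hx0
      rw [← Ideal.span_singleton_eq_bot, ← hab]
      exact zero_mul b
    have haf : IsCoprime a f := by
      have h1 : IsCoprime (a * b) f := by rw [hab]; exact hxc.of_mul_right_right
      exact h1.of_mul_left_left
    have hPx : PsiP K ψ (Ideal.span {x}) * B = A * (starRingEnd ℂ) (embF F (Algebra.norm F (x : K))) := by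
      rw [PsiP_apply, Ideal.relNorm_singleton, hA, hB, PT2_norm, ← map_mul, ← map_mul, ← map_mul,
        ← map_mul, hper]
    have hPa : PsiP K ψ a = A / (B * PsiP K ψ b) *
        (starRingEnd ℂ) (embF F (Algebra.norm F (x : K))) := by
      have h1 : PsiP K ψ a * PsiP K ψ b = PsiP K ψ (Ideal.span {x}) := by rw [← map_mul, hab]
      rw [div_mul_eq_mul_div, ← hPx, ← h1, eq_div_iff (mul_ne_zero hB0 hPb)]
      ring
    have hχa : χ a = χ (Ideal.span {c₀}) * (χ b)⁻¹ := by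
      have h1 : χ a * χ b = χ (Ideal.span {x}) := by rw [← map_mul, hab]
      rw [hχ.per x c₀ hx0 hc0 hxc.of_mul_right_right hxf] at h1
      rw [← h1, mul_assoc, mul_inv_cancel₀ hχb0, mul_one]
    refine ⟨hx0, ?_, ?_⟩
    · show PsiP K ψ a * χ a = _
      rw [hPa, hχa]
      ring
    · show PsiP K ψ a * oneI f a = _
      have h1 : oneI f a = 1 := if_pos ⟨ha0, haf⟩
      rw [hPa, h1, mul_one]

end H55P
end

-- from Lib.H55P.T3
section

open NumberField IsDedekindDomain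

namespace H55P

open H55N
open H55B (g)

variable {F : Type} [Field F] [NumberField F] [IQ F] {K : Type} [Field K] [NumberField K]
  [Algebra F K] {m : ℕ}

/-! Chunk PT3 (M). The series; PORT of term_eq (Lib/H55N/H15.lean; absNorm_spanF of H55P/N1.lean in place of absNorm_span) and of Coef, series_eq, series_eq0, coef_mul in Lib/H55N/TW.lean (TW_ne, TW_inj, cpow facts are reusable),
with J = mK K M * f and CDJ in place of CD, cdj_hasSum in place of cd_hasSum. -/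

/-- The hypotheses on the coefficients. -/
structure CoefP (F : Type) [Field F] [NumberField F] [IQ F] {K : Type} [Field K] [NumberField K]
    [Algebra F K] (J : Ideal (𝓞 K)) (ι : Type) (b : ι → Ideal (𝓞 K)) (c₀ : ι → 𝓞 K)
    (h : Ideal (𝓞 K) →*₀ ℂ) (κ : ι → ℂ) : Prop where
  sup : ∀ a, h a ≠ 0 → a ≠ ⊥ ∧ IsCoprime a J
  nrm : ∀ a, ‖h a‖ ^ 2 ≤ Ideal.absNorm a
  kap : ∀ i, ∀ x ∈ XS (J * b i) (c₀ i), ∀ a : Ideal (𝓞 K), a * b i = Ideal.span {x} →
      x ≠ 0 ∧ h a = κ i * (starRingEnd ℂ) (embF F (Algebra.norm F (x : K)))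

/-! General facts without the base field. -/

theorem pt3_ne {K : Type} [Field K] [NumberField K] {m : ℕ}
    {c : Fin (m + 1) × Fin 2 → Ideal (𝓞 K)} {p : Fin (m + 1) × Fin 2 → ℕ}
    (hs : Smooth c p) (i) : c i ≠ ⊥ := by
  intro h
  have h1 := hs.norm i
  rw [h, Ideal.absNorm_bot] at h1
  exact (hs.prime i).ne_zero h1.symm

theorem pt3_inj {K : Type} [Field K] [NumberField K] {m : ℕ}
    {c : Fin (m + 1) × Fin 2 → Ideal (𝓞 K)} {p : Fin (m + 1) × Fin 2 → ℕ}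
    (hs : Smooth c p) : Function.Injective c := by
  intro i j h
  apply hs.inj
  rw [← hs.norm i, ← hs.norm j, h]

open Classical in
theorem pt3_oneI_norm_le {K : Type} [Field K] [NumberField K] (f a : Ideal (𝓞 K)) :
    ‖oneI f a‖ ≤ 1 := by
  show ‖(if a ≠ ⊥ ∧ IsCoprime a f then (1 : ℂ) else 0)‖ ≤ 1
  split_ifs <;> simp

open Classical in
theorem pt3_oneI_zero {K : Type} [Field K] [NumberField K] (f a : Ideal (𝓞 K))
    (h : ¬ IsCoprime a f) : oneI f a = 0 := by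
  show (if a ≠ ⊥ ∧ IsCoprime a f then (1 : ℂ) else 0) = 0
  rw [if_neg fun h1 => h h1.2]

open Classical in
theorem pt3_oneI_eq {K : Type} [Field K] [NumberField K] (f a : Ideal (𝓞 K)) :
    oneI f a = 1 ∨ oneI f a = 0 := by
  show (if a ≠ ⊥ ∧ IsCoprime a f then (1 : ℂ) else 0) = 1 ∨
    (if a ≠ ⊥ ∧ IsCoprime a f then (1 : ℂ) else 0) = 0
  split_ifs <;> simp

theorem pt3_pow_analytic (n : ℕ) (hn : n ≠ 0) (U : Set ℂ) :
    AnalyticOnNhd ℂ (fun s : ℂ => (n : ℂ) ^ s) U := by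
  have h : (n : ℂ) ≠ 0 := Nat.cast_ne_zero.2 hn
  have h1 : (fun s : ℂ => (n : ℂ) ^ s) = fun s => Complex.exp (Complex.log n * s) := by
    funext s
    rw [Complex.cpow_def_of_ne_zero h]
  rw [h1]
  intro s _
  exact (analyticAt_const.mul analyticAt_id).cexp

theorem pt3_tm_analytic {K : Type} [Field K] [NumberField K] (h : Ideal (𝓞 K) → ℂ)
    (a : Ideal (𝓞 K)) (ha : a ≠ ⊥) (U : Set ℂ) :
    AnalyticOnNhd ℂ (fun s : ℂ => tm h s a) U := by
  have hn : Ideal.absNorm a ≠ 0 := by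
    rw [Ne, Ideal.absNorm_eq_zero_iff]
    exact ha
  have h : (Ideal.absNorm a : ℂ) ≠ 0 := Nat.cast_ne_zero.2 hn
  intro s _
  unfold tm
  have h1 : (fun s : ℂ => (Ideal.absNorm a : ℂ) ^ (-s)) =
      fun s => Complex.exp (Complex.log (Ideal.absNorm a : ℂ) * (-s)) := by
    funext s
    rw [Complex.cpow_def_of_ne_zero h]
  have h2 : AnalyticAt ℂ (fun s : ℂ => (Ideal.absNorm a : ℂ) ^ (-s)) s := by
    rw [h1]
    exact (analyticAt_const.mul analyticAt_id.neg).cexp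
  exact analyticAt_const.mul h2

open Classical in
theorem term_eqP {m : ℕ} (h : Ideal (𝓞 K) → ℂ) (κ : ℂ) (a b : Ideal (𝓞 K)) (x : 𝓞 K) (hx : x ≠ 0)
    (hab : a * b = Ideal.span {x})
    (hh : h a = κ * (starRingEnd ℂ) (embF F (Algebra.norm F (x : K)))) (s : ℂ) :
    tm h s a = κ * (Ideal.absNorm b : ℂ) ^ s * nf F s x ∧
    ∀ (c : Fin (m + 1) × Fin 2 → Ideal (𝓞 K)) (p : Fin (m + 1) × Fin 2 → ℕ),
      (∀ i, (c i).IsPrime) → (∀ i, IsCoprime b (c i)) →
      tm h s a * ∏ i, (if a ≤ c i then 1 - (p i : ℂ) else 1) =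
        κ * (Ideal.absNorm b : ℂ) ^ s * (gw c p x * nf F s x) := by
  have hx0 : Ideal.span {x} ≠ ⊥ := fun h => hx (Ideal.span_singleton_eq_bot.1 h)
  have ha0 : a ≠ ⊥ := by
    rintro rfl
    apply hx0
    rw [← hab]
    exact zero_mul b
  have hb0 : b ≠ ⊥ := by
    rintro rfl
    apply hx0
    rw [← hab]
    exact mul_zero a
  have hA : (0 : ℝ) < (Ideal.absNorm a : ℝ) := by
    have h1 : Ideal.absNorm a ≠ 0 := fun h => ha0 (Ideal.absNorm_eq_zero_iff.1 h)
    exact_mod_cast Nat.pos_of_ne_zero h1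
  have hB : (0 : ℝ) < (Ideal.absNorm b : ℝ) := by
    have h1 : Ideal.absNorm b ≠ 0 := fun h => hb0 (Ideal.absNorm_eq_zero_iff.1 h)
    exact_mod_cast Nat.pos_of_ne_zero h1
  have hAB : (Ideal.absNorm a : ℝ) * (Ideal.absNorm b : ℝ) =
      ‖embF F (Algebra.norm F (x : K))‖ ^ 2 := by
    have h1 := absNorm_spanF (F := F) x
    rw [← hab, map_mul, Nat.cast_mul] at h1
    exact h1
  set r : ℝ := ‖embF F (Algebra.norm F (x : K))‖ with hr
  have hr0 : 0 < r := by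
    have h1 : 0 ≤ r := norm_nonneg _
    have h2 : r ≠ 0 := by
      intro h3
      rw [h3] at hAB
      have : 0 < (Ideal.absNorm a : ℝ) * (Ideal.absNorm b : ℝ) := mul_pos hA hB
      rw [hAB] at this
      norm_num at this
    exact lt_of_le_of_ne h1 (Ne.symm h2)
  have hlog : Real.log (Ideal.absNorm a : ℝ) = 2 * Real.log r - Real.log (Ideal.absNorm b : ℝ) := by
    have h1 := congrArg Real.log hAB
    rw [Real.log_mul hA.ne' hB.ne', Real.log_pow] at h1
    push_cast at h1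
    linarith
  have hkey : (Ideal.absNorm a : ℂ) ^ (-s) = (Ideal.absNorm b : ℂ) ^ s * (r : ℂ) ^ (-2 * s) := by
    have e1 : (Ideal.absNorm a : ℂ) = ((Ideal.absNorm a : ℝ) : ℂ) := by push_cast; rfl
    have e2 : (Ideal.absNorm b : ℂ) = ((Ideal.absNorm b : ℝ) : ℂ) := by push_cast; rfl
    rw [e1, e2, H15_cpow hA, H15_cpow hB, H15_cpow hr0, ← Complex.exp_add, hlog]
    congr 1
    push_cast
    ring
  have hmain : tm h s a = κ * (Ideal.absNorm b : ℂ) ^ s * nf F s x := by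
    unfold tm nf H55B.g
    rw [hh, hkey]
    ring
  refine ⟨hmain, fun c p hc hbc => ?_⟩
  have hprod : ∏ i, (if a ≤ c i then 1 - (p i : ℂ) else 1) = gw c p x := by
    unfold gw
    refine Finset.prod_congr rfl fun i _ => ?_
    have hiff : a ≤ c i ↔ x ∈ c i := by
      constructor
      · intro h1
        apply h1
        have h2 : x ∈ a * b := by rw [hab]; exact Ideal.mem_span_singleton_self x
        exact Ideal.mul_le_left h2
      · intro h1
        have h2 : a * b ≤ c i := by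
          rw [hab, Ideal.span_singleton_le_iff_mem]
          exact h1
        rcases (hc i).mul_le.1 h2 with h3 | h3
        · exact h3
        · exfalso
          have h4 := Ideal.isCoprime_iff_sup_eq.1 (hbc i)
          rw [sup_eq_right.2 h3] at h4
          exact (hc i).ne_top h4
    by_cases h1 : a ≤ c i
    · rw [if_pos h1, if_pos (hiff.1 h1)]
    · rw [if_neg h1, if_neg fun h2 => h1 (hiff.2 h2)]
  rw [hprod, hmain]
  ring

theorem series_eqP {J g : Ideal (𝓞 K)} (hgJ : g ≤ J) (hJ1 : J ≠ ⊤) {ι : Type} [Fintype ι]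
    {b : ι → Ideal (𝓞 K)} {c₀ : ι → 𝓞 K}
    {T : ι → Set (𝓞 K)} (hcd : CDJ J g ι b c₀ T) {h : Ideal (𝓞 K) →*₀ ℂ} {κ : ι → ℂ}
    (hc : CoefP F J ι b c₀ h κ) {m : ℕ} {c : Fin (m + 1) × Fin 2 → Ideal (𝓞 K)}
    {p : Fin (m + 1) × Fin 2 → ℕ} (hs : Smooth c p) (hcp : ∀ i, (c i).IsPrime)
    (hbc : ∀ i j, IsCoprime (b i) (c j)) (Z : ι → ℂ → ℂ) (s : ℂ) (hre : 3 / 2 < s.re)
    (hZ : ∀ i, HasSum (fun x : T i => gw c p x * nf F s (x : 𝓞 K)) (Z i s)) :
    (∏ i, (1 - (p i : ℂ) * tm h s (c i))) * ∑' a, tm h s a =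
      ∑ i, κ i * (Ideal.absNorm (b i) : ℂ) ^ s * Z i s := by
  classical
  have hsum : Summable fun a => ‖tmH h s a‖ := tm_summable h hc.nrm s hre
  have h1 := smooth_sum (tmH h s) hsum c hcp (pt3_ne hs) (pt3_inj hs) (fun i => (p i : ℂ))
  have h2 := cdj_hasSum J g hgJ hJ1 ι b c₀ T hcd
    (fun a => tmH h s a * ∏ i, (if a ≤ c i then 1 - (p i : ℂ) else 1))
    (by
      intro a ha
      have : h a ≠ 0 := by
        intro h0
        apply ha
        show tm h s a * _ = 0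
        unfold tm
        rw [h0, zero_mul, zero_mul]
      exact hc.sup a this)
    (fun i x => κ i * (Ideal.absNorm (b i) : ℂ) ^ s * (gw c p x * nf F s x))
    (by
      intro i x hx a ha
      obtain ⟨hx0, hh⟩ := hc.kap i x ((hcd.trans i).sub hx) a ha
      have h3 := (term_eqP (m := m) h (κ i) a (b i) x hx0 ha hh s).2 c p hcp (fun j => hbc i j)
      rw [← h3]
      show tm h s a * _ = _
      congr 1)
    (fun i => κ i * (Ideal.absNorm (b i) : ℂ) ^ s * Z i s)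
    (fun i => (hZ i).mul_left _)
  exact h1.unique (by convert h2)

theorem series_eq0P {J g : Ideal (𝓞 K)} (hgJ : g ≤ J) (hJ1 : J ≠ ⊤) {ι : Type} [Fintype ι]
    {b : ι → Ideal (𝓞 K)}
    {c₀ : ι → 𝓞 K} {T : ι → Set (𝓞 K)} (hcd : CDJ J g ι b c₀ T) {h : Ideal (𝓞 K) →*₀ ℂ} {κ : ι → ℂ}
    (hc : CoefP F J ι b c₀ h κ) (Z : ι → ℂ → ℂ) (s : ℂ)
    (hZ : ∀ i, HasSum (fun x : T i => nf F s (x : 𝓞 K)) (Z i s)) :
    HasSum (tm h s) (∑ i, κ i * (Ideal.absNorm (b i) : ℂ) ^ s * Z i s) := by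
  classical
  exact cdj_hasSum J g hgJ hJ1 ι b c₀ T hcd (tm h s)
    (by
      intro a ha
      have : h a ≠ 0 := by
        intro h0
        apply ha
        unfold tm
        rw [h0, zero_mul]
      exact hc.sup a this)
    (fun i x => κ i * (Ideal.absNorm (b i) : ℂ) ^ s * nf F s x)
    (by
      intro i x hx a ha
      obtain ⟨hx0, hh⟩ := hc.kap i x ((hcd.trans i).sub hx) a ha
      exact (term_eqP (m := 0) h (κ i) a (b i) x hx0 ha hh s).1)
    (fun i => κ i * (Ideal.absNorm (b i) : ℂ) ^ s * Z i s)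
    (fun i => (hZ i).mul_left _)

theorem coef_mulP {M : Ideal (𝓞 F)} {ψ : Ideal (𝓞 F) →*₀ 𝓞 F} (hH : IsHecke M ψ)
    {f : Ideal (𝓞 K)} {ι : Type} {b : ι → Ideal (𝓞 K)} {c₀ : ι → 𝓞 K}
    {χ : Ideal (𝓞 K) →*₀ ℂ} {κ : ι → ℂ} (h0 : ∀ a, ¬ IsCoprime a f → χ a = 0)
    (h1 : ∀ a, ‖χ a‖ ≤ 1)
    (hk : ∀ i, ∀ x ∈ XS (mK K M * f * b i) (c₀ i), ∀ a : Ideal (𝓞 K),
      a * b i = Ideal.span {x} →
        x ≠ 0 ∧ (PsiP K ψ * χ) a = κ i * (starRingEnd ℂ) (embF F (Algebra.norm F (x : K)))) :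
    CoefP F (mK K M * f) ι b c₀ (PsiP K ψ * χ) κ where
  sup a ha := by
    have ha' : PsiP K ψ a * χ a ≠ 0 := ha
    have hPsi : PsiP K ψ a ≠ 0 := left_ne_zero_of_mul ha'
    have hchi : χ a ≠ 0 := right_ne_zero_of_mul ha'
    have hne : a ≠ ⊥ := by
      rintro rfl
      exact hchi (map_zero χ)
    refine ⟨hne, IsCoprime.mul_right ((PsiP_ne hH a hne).1 hPsi) ?_⟩
    by_contra h
    exact hchi (h0 a h)
  nrm a := by
    show ‖PsiP K ψ a * χ a‖ ^ 2 ≤ _
    rw [norm_mul, mul_pow]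
    have h2 := PsiP_norm_le (K := K) hH a
    have h3 : ‖χ a‖ ^ 2 ≤ 1 := pow_le_one₀ (norm_nonneg _) (h1 a)
    calc ‖PsiP K ψ a‖ ^ 2 * ‖χ a‖ ^ 2 ≤ ‖PsiP K ψ a‖ ^ 2 * 1 :=
          mul_le_mul_of_nonneg_left h3 (by positivity)
      _ = ‖PsiP K ψ a‖ ^ 2 := mul_one _
      _ ≤ _ := h2
  kap := hk

end H55P
end
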