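import Mathlib
import Pool.Agent.Lib.H1M.PP.M002
import Pool.Agent.Lib.H1M.PP.M015
import Pool.Agent.Lib.H1M.PP.M040
import Pool.Agent.Lib.H1M.PP.M041
import Pool.Agent.Lib.H1M.PP.M045
import Pool.Agent.Lib.H1M.PP.M049
import Pool.Agent.Lib.H1M.PP.M051
import Pool.Agent.Lib.H1M.PP.M052
import Pool.Agent.Lib.H1M.PP.M056

/-! Merged copies (to shorten the build) of Lib.H55P.U7, Lib.H55P.Core, Lib.H55P.N3, Lib.H55P.N4, Lib.H55P.T8, Lib.H55P.T9, Lib.H55P.I1, Lib.H55P.N5, Lib.H55P.N6, Lib.H55P.T13, Lib.H55P.T15. -/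

-- from Lib.H55P.U7
section

open NumberField IsDedekindDomain MeasureTheory

namespace H55P

open H55N
open H55B (g)

variable {F : Type} [Field F] [NumberField F] [IQ F] {K : Type} [Field K] [NumberField K]
  [Algebra F K] {m : ℕ}

theorem U7_conj (γ : 𝓞 F) : ∃ γ' : 𝓞 F, eF F γ' = (starRingEnd ℂ) (eF F γ) := by
  have hq : Algebra.IsQuadraticExtension ℚ F := ⟨IQ.deg⟩
  have : IsGalois ℚ F := inferInstance
  obtain ⟨σ, hσ⟩ := ComplexEmbedding.exists_comp_symm_eq_of_comp_eq (k := ℚ) (embF F)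
    (ComplexEmbedding.conjugate (embF F)) (Subsingleton.elim _ _)
  refine ⟨⟨σ.symm γ, ?_⟩, ?_⟩
  · exact γ.2.map (σ.symm.toAlgHom.restrictScalars ℤ)
  · have h := RingHom.congr_fun hσ (γ : F)
    exact h

/-- A suitable multiplier. -/
theorem U7_k (z : ℂ) (hz : z.im ≠ 0) (N : ℕ) (hN : N ≠ 0) (n : ℕ) (hn : 0 < n) :
    ∃ k : ℕ, (1 + (N * k : ℕ) * z) ^ n ≠ (1 + (N * k : ℕ) * (starRingEnd ℂ) z) ^ n := by
  by_contra hcon
  push Not at hcon
  have hne : ∀ k : ℕ, (1 + (N * k : ℕ) * (starRingEnd ℂ) z : ℂ) ≠ 0 := by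
    intro k h
    have him := congrArg Complex.im h
    have hre := congrArg Complex.re h
    simp at him hre
    rcases him with h1 | h1
    · rcases h1 with h2 | h2
      · exact hN h2
      · rw [h2] at hre
        simp at hre
    · exact hz h1
  let q : ℕ → ℂ := fun k => (1 + (N * k : ℕ) * z) / (1 + (N * k : ℕ) * (starRingEnd ℂ) z)
  have hq : ∀ k, q k ∈ Polynomial.nthRootsFinset n (1 : ℂ) := by
    intro k
    rw [Polynomial.mem_nthRootsFinset hn]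
    change ((1 + (N * k : ℕ) * z) / (1 + (N * k : ℕ) * (starRingEnd ℂ) z)) ^ n = 1
    rw [div_pow, hcon k, div_self]
    exact pow_ne_zero _ (hne k)
  have hinj : Function.Injective q := by
    intro k l h
    change (1 + (N * k : ℕ) * z) / (1 + (N * k : ℕ) * (starRingEnd ℂ) z) =
      (1 + (N * l : ℕ) * z) / (1 + (N * l : ℕ) * (starRingEnd ℂ) z) at h
    rw [div_eq_div_iff (hne k) (hne l)] at h
    have h1 : ((N * k : ℕ) - (N * l : ℕ) : ℂ) * (z - (starRingEnd ℂ) z) = 0 := by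
      linear_combination h
    rcases mul_eq_zero.1 h1 with h2 | h2
    · have h3 : N * k = N * l := by exact_mod_cast sub_eq_zero.1 h2
      exact Nat.eq_of_mul_eq_mul_left (Nat.pos_of_ne_zero hN) h3
    · exfalso
      exact hz (Complex.conj_eq_iff_im.1 (sub_eq_zero.1 h2).symm)
  exact not_injective_infinite_finite
    (fun k => (⟨q k, hq k⟩ : {x // x ∈ Polynomial.nthRootsFinset n (1 : ℂ)}))
    fun k l h => hinj (congrArg Subtype.val h)

/-- The Euler type factor. -/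
noncomputable def U7_f (F : Type) [Field F] [NumberField F] [IQ F] (m : ℕ) (α : 𝓞 F) (s : ℂ) : ℂ :=
  1 - (Nm α : ℂ) ^ (m + 1) * (starRingEnd ℂ) (eF F α) ^ (m + 1) *
    (Nm α : ℂ) ^ (-((m + 1 : ℕ) * s))

theorem U7_f_an (α : 𝓞 F) (hα : α ≠ 0) : Differentiable ℂ (U7_f F m α) := by
  have h0 : (Nm α : ℂ) ≠ 0 := by
    exact_mod_cast fun h => hα (Nm_eq_zero.1 h)
  unfold U7_f
  intro s
  refine DifferentiableAt.const_sub (DifferentiableAt.const_mul ?_ _) _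
  refine DifferentiableAt.const_cpow ?_ (Or.inl h0)
  fun_prop

/-! Chunk PU7 (M). The unsmoothed series has no poles near Re s = 3/2.
PROOF. n = m+1. Let N be a nonzero integer with N c₀ in I (absNorm of I). There is γ in O with e(γ) not real (IQ.im; F0_im in H55P/F0.lean). Let α = 1 + N k γ, α' in O with e α' = conj(e α)
(F is quadratic, so the conjugate of an integer is an integer: Tr γ - γ, Tr γ in Z: Algebra.trace ℤ or minpoly; e(γ) + conj e(γ) is an integer); α' = 1 + N k γ'. Both satisfy the hypothesis h1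
of zfun_al. Choose k >= 1 such that (e α / conj e α)^n <> 1: otherwise for k = 1, 2, ..., n+1 ... the numbers (1 + N k z)/(1 + N k conj z) (z = e γ) would be n-th roots of unity; the map
k -> (1 + N k z)/(1 + N k conj z) is injective (z not real), and there are at most n roots (Polynomial.card_roots or: finitely many n-th roots of unity, infinitely many k). f(s) = 1 - Nm(α)^n conj(eα)^n
Nm(α)^(-ns), f'(s) the same for α' (Nm α' = Nm α). For Re s > 3/2 - 1/(2n): a common zero s of f and f' gives conj(eα)^n = Nm(α)^(ns - n) = (e α)^n, contradiction. Zα, Zα' from zfun_al; f' Zα = f Zα' for Re s > 3/2 (if a T exists, both are f f' times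
the sum), hence on the half plane (AnalyticOnNhd.eqOn_of_preconnected_of_eventuallyEq; halfspace convex). Z(s) = Zα(s)/f(s) if f(s) <> 0, else Zα'(s)/f'(s): analytic. If no T exists take Z = 0 (T exists always, but the
case distinction is cheap). For Re s > 3/2 the sum over T of nf is Z(s): if f(s) <> 0 divide, else f'(s) <> 0, divide. -/
theorem zfun_one (D : Ctx F K m) (hE : Emb F D.σ) (h0 : D.c₀ ∉ D.I) (hI : D.I ≠ ⊥)
    (u : Fin m → (𝓞 K)ˣ) (hu : D.UOk u) :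
    ∃ Z : ℂ → ℂ, AnalyticOnNhd ℂ Z {s | 3 / 2 - 1 / (2 * (m + 1)) < s.re} ∧
      ∀ T : Set (𝓞 K), T ⊆ D.X →
        (∀ x ∈ D.X, ∃! q : (Fin m → ℤ) × T, x = (uu u q.1 : 𝓞 K) * q.2) →
        ∀ s : ℂ, 3 / 2 < s.re → HasSum (fun x : T => nf F s (x : 𝓞 K)) (Z s) := by
  classical
  by_cases hT : ∃ T : Set (𝓞 K), T ⊆ D.X ∧
        (∀ x ∈ D.X, ∃! q : (Fin m → ℤ) × T, x = (uu u q.1 : 𝓞 K) * q.2)
  swap
  · refine ⟨fun _ => 0, fun _ _ => analyticAt_const, ?_⟩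
    intro T h1 h2
    exact absurd ⟨T, h1, h2⟩ hT
  obtain ⟨T0, hT0, hT0'⟩ := hT
  -- the choice of α and its conjugate
  obtain ⟨γ, hγ⟩ := F0_im (F := F)
  obtain ⟨γ', hγ'⟩ := U7_conj γ
  set N : ℕ := Ideal.absNorm D.I with hNdef
  have hN : N ≠ 0 := by
    rw [hNdef, Ne, Ideal.absNorm_eq_zero_iff]
    exact hI
  have hNI : (N : 𝓞 K) ∈ D.I := Ideal.absNorm_mem D.I
  obtain ⟨k, hk⟩ := U7_k (eF F γ) hγ N hN (m + 1) (Nat.succ_pos m)
  have hα : ∀ δ : 𝓞 F, algebraMap (𝓞 F) (𝓞 K) ((1 + (N * k : ℕ) * δ) - 1) * D.c₀ ∈ D.I := by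
    intro δ
    have h1 : (1 + (N * k : ℕ) * δ) - 1 = (N : 𝓞 F) * ((k : 𝓞 F) * δ) := by
      push_cast
      ring
    rw [h1, map_mul, map_natCast, mul_assoc]
    exact D.I.mul_mem_right _ hNI
  set α : 𝓞 F := 1 + (N * k : ℕ) * γ with hαdef
  set α' : 𝓞 F := 1 + (N * k : ℕ) * γ' with hα'def
  have heα : eF F α = 1 + (N * k : ℕ) * eF F γ := by
    rw [hαdef, map_add, map_one, map_mul, map_natCast]
  have heα' : eF F α' = (starRingEnd ℂ) (eF F α) := by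
    rw [heα, hα'def, map_add, map_one, map_mul, map_natCast, hγ', map_add, map_one, map_mul,
      map_natCast]
  have hne' : (eF F α) ^ (m + 1) ≠ (starRingEnd ℂ) (eF F α) ^ (m + 1) := by
    rw [← heα', hα'def, heα, map_add, map_one, map_mul, map_natCast, hγ']
    exact hk
  have hα0 : α ≠ 0 := by
    intro h
    apply hne'
    rw [h, map_zero, map_zero]
  have hα'0 : α' ≠ 0 := by
    intro h
    apply hα0
    apply eF_inj
    have h1 : (starRingEnd ℂ) (eF F α) = 0 := by rw [← heα', h, map_zero]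
    rw [map_zero]
    exact (map_eq_zero (starRingEnd ℂ)).1 h1
  have hNm : Nm α' = Nm α := by
    have h1 := Nm_eq α
    have h2 := Nm_eq α'
    rw [heα', RCLike.norm_conj, ← h1] at h2
    exact_mod_cast h2
  obtain ⟨Z1, hZ1, hZ1'⟩ := zfun_al D hE h0 hI u hu α hα0 (hα γ)
  obtain ⟨Z2, hZ2, hZ2'⟩ := zfun_al D hE h0 hI u hu α' hα'0 (hα γ')
  set f : ℂ → ℂ := U7_f F m α with hfdef
  set f' : ℂ → ℂ := U7_f F m α' with hf'def
  have hf : Differentiable ℂ f := U7_f_an α hα0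
  have hf' : Differentiable ℂ f' := U7_f_an α' hα'0
  have hff : ∀ s, f s = 0 → f' s ≠ 0 := by
    intro s h1 h2
    apply hne'
    rw [hfdef, U7_f, sub_eq_zero] at h1
    rw [hf'def, U7_f, sub_eq_zero, hNm, heα', Complex.conj_conj] at h2
    have h3 : (Nm α : ℂ) ≠ 0 := by exact_mod_cast fun h => hα0 (Nm_eq_zero.1 h)
    have h4 : (Nm α : ℂ) ^ (-((m + 1 : ℕ) * s)) ≠ 0 := by
      rw [Complex.cpow_ne_zero_iff]
      exact Or.inl h3
    have h5 : (Nm α : ℂ) ^ (m + 1) ≠ 0 := pow_ne_zero _ h3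
    have h6 : (Nm α : ℂ) ^ (m + 1) * (Nm α : ℂ) ^ (-((m + 1 : ℕ) * s)) ≠ 0 := mul_ne_zero h5 h4
    apply mul_left_cancel₀ h6
    linear_combination h1 - h2
  have hid0 : ∀ s : ℂ, 3 / 2 < s.re → f' s * Z1 s = f s * Z2 s := by
    intro s hs
    have h1 := (hZ1' T0 hT0 hT0' s hs).mul_left (f' s)
    have h2 := (hZ2' T0 hT0 hT0' s hs).mul_left (f s)
    refine h1.unique ?_
    convert h2 using 2 with x
    change f' s * (f s * nf F s (x : 𝓞 K)) = f s * (f' s * nf F s (x : 𝓞 K))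
    ring
  set U : Set ℂ := {s | 3 / 2 - 1 / (2 * (m + 1)) < s.re} with hU
  have hUo : IsOpen U := isOpen_lt continuous_const Complex.continuous_re
  have hid : Set.EqOn (fun s => f' s * Z1 s) (fun s => f s * Z2 s) U := by
    refine AnalyticOnNhd.eqOn_of_preconnected_of_eventuallyEq (𝕜 := ℂ) (z₀ := 2) ?_ ?_
      (convex_halfSpace_re_gt _).isPreconnected ?_ ?_
    · exact fun s hs => (hf'.analyticAt s).mul (hZ1 s hs)
    · exact fun s hs => (hf.analyticAt s).mul (hZ2 s hs)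
    · change (3 : ℝ) / 2 - 1 / (2 * (m + 1)) < (2 : ℂ).re
      have : (0 : ℝ) < 1 / (2 * (m + 1)) := by positivity
      rw [Complex.re_ofNat]
      linarith
    · have h1 : {s : ℂ | 3 / 2 < s.re} ∈ nhds (2 : ℂ) := by
        refine IsOpen.mem_nhds (isOpen_lt continuous_const Complex.continuous_re) ?_
        change (3 : ℝ) / 2 < (2 : ℂ).re
        norm_num
      exact Filter.eventuallyEq_of_mem h1 fun s hs => hid0 s hs
  refine ⟨fun s => if f s ≠ 0 then Z1 s / f s else Z2 s / f' s, ?_, ?_⟩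
  · intro s hs
    by_cases h : f s = 0
    · have h1 : f' s ≠ 0 := hff s h
      have h2 : AnalyticAt ℂ (fun s => Z2 s / f' s) s := (hZ2 s hs).div (hf'.analyticAt s) h1
      refine h2.congr ?_
      filter_upwards [(hf'.continuous.continuousAt (x := s)).eventually_ne h1, hUo.mem_nhds hs]
        with t ht1 ht2
      by_cases h3 : f t = 0
      · rw [if_neg (not_not.2 h3)]
      · rw [if_pos h3, div_eq_div_iff ht1 h3]
        have h4 : f' t * Z1 t = f t * Z2 t := hid ht2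
        linear_combination -h4
    · have h2 : AnalyticAt ℂ (fun s => Z1 s / f s) s := (hZ1 s hs).div (hf.analyticAt s) h
      refine h2.congr ?_
      filter_upwards [(hf.continuous.continuousAt (x := s)).eventually_ne h] with t ht1
      rw [if_pos ht1]
  · intro T hT hbij s hs
    by_cases h : f s = 0
    · have h1 : f' s ≠ 0 := hff s h
      change HasSum _ (if f s ≠ 0 then Z1 s / f s else Z2 s / f' s)
      rw [if_neg (not_not.2 h)]
      have h2 := (hZ2' T hT hbij s hs).div_const (f' s)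
      refine h2.congr_fun ?_
      intro x
      change _ = f' s * nf F s (x : 𝓞 K) / f' s
      rw [mul_div_cancel_left₀ _ h1]
    · change HasSum _ (if f s ≠ 0 then Z1 s / f s else Z2 s / f' s)
      rw [if_pos h]
      have h2 := (hZ1' T hT hbij s hs).div_const (f s)
      refine h2.congr_fun ?_
      intro x
      change _ = f s * nf F s (x : 𝓞 K) / f s
      rw [mul_div_cancel_left₀ _ h]

end H55P
end

-- from Lib.H55P.Core
section

open NumberField IsDedekindDomain MeasureTheory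

namespace H55P

open H55N
open H55B (g)

variable {F : Type} [Field F] [NumberField F] [IQ F] {K : Type} [Field K] [NumberField K]
  [Algebra F K] {m : ℕ}

theorem pc_int (V : ValuationSubring ℂ) (n : ℤ) : V.valuation (n : ℂ) ≤ 1 := by
  rw [ValuationSubring.valuation_le_one_iff]
  exact intCast_mem V.toSubring n

theorem pc_det (V : ValuationSubring ℂ) {n : ℕ} (A : Matrix (Fin n) (Fin n) ℂ)
    (hA : ∀ i j, V.valuation (A i j) ≤ 1) : V.valuation A.det ≤ 1 := by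
  have h1 : A = (V.subtype).mapMatrix (Matrix.of fun i j =>
      (⟨A i j, (ValuationSubring.valuation_le_one_iff V _).1 (hA i j)⟩ : V)) := by
    ext i j
    rfl
  rw [h1, ← RingHom.map_det, ValuationSubring.valuation_le_one_iff]
  exact SetLike.coe_mem _

theorem pc_CN (p : ℕ) (hp : p.Prime) {M : Ideal (𝓞 F)} {l : 𝓞 F} (hM : Mod p M l)
    (hK : UnrP p K) (D : Ctx F K m) (hD : D.Ok) (b f : Ideal (𝓞 K))
    (hbp : IsCoprime b (Ideal.span {(p : 𝓞 K)})) (hf : f ≠ ⊥)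
    (hfp : IsCoprime f (Ideal.span {(p : 𝓞 K)}))
    (hI : D.I = mK K M * f * b) (hpi : ∀ i, D.p i ≠ p) (u : Fin m → (𝓞 K)ˣ)
    (L : (Fin m → ℤ) → K) (hL : LabP p l b D.c₀ u L)
    (hdirs : ∀ (a : Fin m → Fin (m + 1)) (π : Equiv.Perm (Fin m)),
      ∃ w', D.Dirs (fun k : Fin (m + 1) => L (kv (fun k => ((a k : ℕ) : ℤ)) π k)) w')
    (Ac Bc Om : ℂ) (hper : Per F Ac Bc Om) (V : ValuationSubring ℂ)
    (hVp : V.valuation (p : ℂ) < 1) (hV : GoodV Ac Bc V) :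
    V.valuation (CN (m + 1) D.Jv (fun a => .A (L a)) / Om ^ (m + 1)) ≤ 1 := by
  unfold CN
  rw [Finset.sum_div]
  refine pe8_int_sum V _ _ fun a _ => ?_
  rw [Finset.sum_div]
  refine pe8_int_sum V _ _ fun π _ => ?_
  rw [mul_div_assoc, map_mul]
  refine mul_le_one' (pc_int V _) ?_
  obtain ⟨w', hw'⟩ := hdirs a π
  obtain ⟨S, hS, hlim⟩ := Jv_A D hD _ w' hw'
  rw [hS, mul_div_assoc, map_mul]
  refine mul_le_one' (pc_det V _ fun k i => ?_) ?_
  · exact label_int p hp hK b hbp _ (hL.int _) (D.σ i) V hVp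
  · obtain ⟨m₀, h0, hpm, hlm, hm⟩ := m0_exists D hD p hp hM b f hf hfp hI hpi u L hL
      (fun k => ((a k : ℕ) : ℤ)) π
    exact rat_val D hD _ w' hw' l hM.prime
      (fun x hx k => (labels_low D hD.emb p M l hM.prime hM.le b f D.c₀ ⟨hI, rfl⟩ u L hL _ x hx).1)
      m₀ h0 hlm hm S hlim Ac Bc Om hper V hV (val_nat p hp V hVp m₀ hpm)

theorem pc_gw (c : Fin (m + 1) × Fin 2 → Ideal (𝓞 K)) (q : Fin (m + 1) × Fin 2 → ℕ) (u : (𝓞 K)ˣ)
    (x : 𝓞 K) : gw c q ((u : 𝓞 K) * x) = gw c q x := by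
  unfold gw
  refine Finset.prod_congr rfl fun i _ => ?_
  have : (u : 𝓞 K) * x ∈ c i ↔ x ∈ c i := Ideal.unit_mul_mem_iff_mem _ u.isUnit
  by_cases h : x ∈ c i
  · rw [if_pos (this.2 h), if_pos h]
  · rw [if_neg (fun h' => h (this.1 h')), if_neg h]

theorem pc_nf {σ : Fin (m + 1) → K →+* ℂ} (hσ : Emb F σ) (s : ℂ) (u : (𝓞 K)ˣ)
    (hu : ∏ i, σ i ((u : 𝓞 K) : K) = 1) (x : 𝓞 K) : nf F s ((u : 𝓞 K) * x) = nf F s x := by
  have h : ∏ i, σ i (((u : 𝓞 K) * x : 𝓞 K) : K) = ∏ i, σ i (x : K) := by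
    have h1 : ∀ i, σ i (((u : 𝓞 K) * x : 𝓞 K) : K) = σ i ((u : 𝓞 K) : K) * σ i (x : K) := by
      intro i
      rw [← map_mul]
      rfl
    rw [Finset.prod_congr rfl fun i _ => h1 i, Finset.prod_mul_distrib, hu, one_mul]
  unfold nf
  rw [← norm_eq hσ, ← norm_eq hσ, h]

theorem pc_mK {M : Ideal (𝓞 F)} {l : 𝓞 F} (hM : M ≤ Ideal.span {l}) :
    mK K M ≤ Ideal.span {algebraMap (𝓞 F) (𝓞 K) l} := by
  unfold mK
  rw [Ideal.map_le_iff_le_comap]
  intro x hx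
  obtain ⟨t, rfl⟩ := Ideal.mem_span_singleton.1 (hM hx)
  rw [Ideal.mem_comap, map_mul]
  exact Ideal.mul_mem_right _ _ (Ideal.mem_span_singleton_self _)

theorem pc_mK_ne {M : Ideal (𝓞 F)} (hM : M ≠ ⊥) : mK K M ≠ ⊥ := by
  unfold mK
  rw [Ne, Ideal.map_eq_bot_iff_of_injective (FaithfulSMul.algebraMap_injective (𝓞 F) (𝓞 K))]
  exact hM

theorem pc_cop {p : ℕ} {M : Ideal (𝓞 F)} {l : 𝓞 F} (hM : Mod p M l) :
    IsCoprime l (p : 𝓞 F) := by
  rw [← Ideal.isCoprime_span_singleton_iff, Ideal.isCoprime_iff_sup_eq, eq_top_iff]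
  rw [← Ideal.isCoprime_iff_sup_eq.1 hM.cop]
  exact sup_le_sup_right hM.le _

theorem pc_bij {J' : Ideal (𝓞 K)} {X T : Set (𝓞 K)} (h0 : (0 : 𝓞 K) ∉ X) (hT : Transv J' X T)
    (u : Fin m → (𝓞 K)ˣ) (hu2 : ∀ z, (uu u z : 𝓞 K) - 1 ∈ J')
    (hu3 : ∀ v : (𝓞 K)ˣ, (v : 𝓞 K) - 1 ∈ J' → ∃! z : Fin m → ℤ, v = uu u z) :
    ∀ x ∈ X, ∃! q : (Fin m → ℤ) × T, x = (uu u q.1 : 𝓞 K) * q.2 := by
  intro x hx
  obtain ⟨r, hr, v, hv, hxv⟩ := hT.cover x hx
  obtain ⟨z, hz, hzu⟩ := hu3 v hv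
  refine ⟨(z, ⟨r, hr⟩), ?_, ?_⟩
  · simp only
    rw [← hz]
    exact hxv
  · rintro ⟨z', r'⟩ h'
    simp only at h'
    have e1 : (r' : 𝓞 K) = (((uu u z')⁻¹ * v : (𝓞 K)ˣ) : 𝓞 K) * r := by
      rw [Units.val_mul, mul_assoc, ← hxv, h', Units.inv_mul_cancel_left]
    have e2 : (((uu u z')⁻¹ * v : (𝓞 K)ˣ) : 𝓞 K) - 1 ∈ J' := by
      have e3 : (((uu u z')⁻¹ * v : (𝓞 K)ˣ) : 𝓞 K) - 1 =
          (((uu u z')⁻¹ : (𝓞 K)ˣ) : 𝓞 K) * (((v : 𝓞 K) - 1) - ((uu u z' : 𝓞 K) - 1)) := by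
        have e4 : (((uu u z')⁻¹ : (𝓞 K)ˣ) : 𝓞 K) * (uu u z' : 𝓞 K) = 1 := Units.inv_mul _
        rw [Units.val_mul]
        linear_combination e4
      rw [e3]
      exact J'.mul_mem_left _ (J'.sub_mem hv (hu2 z'))
    have e5 : (r' : 𝓞 K) = r := hT.uniq r hr r' r'.2 _ e2 e1
    have hr0 : r ≠ 0 := by
      rintro rfl
      exact h0 (hT.sub hr)
    have e6 : v = uu u z' := by
      apply Units.ext
      rw [e5, hxv] at h'
      exact mul_right_cancel₀ hr0 h'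
    have e7 : z' = z := hzu z' e6
    subst e7
    congr 1
    exact Subtype.ext e5

/-- The ideals J = M f and J' = p J. -/
theorem pc_J {p : ℕ} (hp : p.Prime) {M : Ideal (𝓞 F)} {l : 𝓞 F} (hM : Mod p M l)
    (f : Ideal (𝓞 K)) (hf : f ≠ ⊥) (J J' : Ideal (𝓞 K)) (hJ : J = mK K M * f)
    (hJ' : J' = Ideal.span {(p : 𝓞 K)} * J) :
    J ≠ ⊥ ∧ J' ≠ ⊥ ∧ J' ≤ J ∧ J ≤ mK K M ∧ J' ≤ Ideal.span {(p : 𝓞 K)} ∧
      J' ≤ Ideal.span {algebraMap (𝓞 F) (𝓞 K) l} ∧
      J' ≤ Ideal.span {(p : 𝓞 K) * algebraMap (𝓞 F) (𝓞 K) l} := by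
  have hp0 : (p : 𝓞 K) ≠ 0 := by exact_mod_cast hp.ne_zero
  have h1 : J ≠ ⊥ := by
    rw [hJ]
    exact mul_ne_zero (pc_mK_ne hM.ne) hf
  have h2 : J' ≠ ⊥ := by
    rw [hJ']
    exact mul_ne_zero (by simpa using hp0) h1
  have h3 : J' ≤ J := hJ' ▸ Ideal.mul_le_right
  have h4 : J ≤ mK K M := hJ ▸ Ideal.mul_le_left
  have h5 : J' ≤ Ideal.span {(p : 𝓞 K)} := hJ' ▸ Ideal.mul_le_left
  have h6 : J ≤ Ideal.span {algebraMap (𝓞 F) (𝓞 K) l} := h4.trans (pc_mK hM.le)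
  refine ⟨h1, h2, h3, h4, h5, h3.trans h6, ?_⟩
  rw [hJ', ← Ideal.span_singleton_mul_span_singleton]
  exact Ideal.mul_mono_right h6

/-! Chunk PCore (M), PORT of Lib/H55N/Z2.lean and Lib/H55N/Core.lean. J = mK K M * f, J' = (p) J. Units: units_basis with htf = torsion_free (J' <= (p), J' <= J <= mK K M <= (l); IsCoprime l p because M <= (l) is
coprime to p: Mod.cop). labels from labels_exist (J' <= (p l): J' = (p) J and J <= (l)). The set Bad: as there, and the c containing p (so p_i <> p). In the last step prime_change gives nu prime to p: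
V(nu) = 1 by val_nat. All valuation statements are at a fixed V (V(p) < 1, GoodV Ac Bc V). The exceptional set must not depend on V, Ac, Bc, Om. nopoles: as there with zfun_one of H55P/U7.lean. -/

theorem core (p : ℕ) (hp : p.Prime) {M : Ideal (𝓞 F)} {l : 𝓞 F} (hM : Mod p M l)
    (K : Type) [Field K] [NumberField K] [Algebra F K] (m : ℕ)
    (hm : Module.finrank F K = m + 1) (hK : UnrP p K) (b f : Ideal (𝓞 K)) (hb : b ≠ ⊥)
    (hbp : IsCoprime b (Ideal.span {(p : 𝓞 K)})) (hf : f ≠ ⊥)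
    (hfp : IsCoprime f (Ideal.span {(p : 𝓞 K)}))
    (c₀ : 𝓞 K) (hc : c₀ ∈ b) (hc' : c₀ ∉ Ideal.span {algebraMap (𝓞 F) (𝓞 K) l} * b) :
    ∃ Bad : Set (Ideal (𝓞 K)), Bad.Finite ∧
      ∀ (c : Fin (m + 1) × Fin 2 → Ideal (𝓞 K)) (q : Fin (m + 1) × Fin 2 → ℕ), Smooth c q →
        (∀ i, c i ∉ Bad) → ∃ Z : ℂ → ℂ, AnalyticOnNhd ℂ Z {s | 1 / 2 < s.re} ∧
          (∀ T : Set (𝓞 K), Transv (mK K M * f) (XS (mK K M * f * b) c₀) T →
            ∀ s : ℂ, 3 / 2 < s.re → HasSum (fun x : T => gw c q x * nf F s (x : 𝓞 K)) (Z s)) ∧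
          ∀ Ac Bc Om : ℂ, Per F Ac Bc Om → ∀ V : ValuationSubring ℂ, V.valuation (p : ℂ) < 1 →
            GoodV Ac Bc V → V.valuation (Z 1 / Om ^ (m + 1)) ≤ 1 := by
  classical
  obtain ⟨σ, hσ⟩ := emb_exists (F := F) K m hm
  set J : Ideal (𝓞 K) := mK K M * f with hJdef
  set J' : Ideal (𝓞 K) := Ideal.span {(p : 𝓞 K)} * J with hJ'def
  obtain ⟨hJ0, hJ'0, hJ'J, hJM, hJ'p, hJ'l, hJ'pl⟩ := pc_J hp hM f hf J J' hJdef hJ'def
  obtain ⟨u, hu1, hu2, hu3, hu4⟩ := units_basis hm J' hJ'0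
    (torsion_free p hp l hM.prime (pc_cop hM) J' hJ'p hJ'l)
  obtain ⟨L, hL⟩ := labels_exist hm p hp l hM.prime (pc_cop hM) b hb c₀ hc hc' u
    (fun z => hJ'pl (hu2 z))
  have hle : mK K M * f * b ≤ Ideal.span {algebraMap (𝓞 F) (𝓞 K) l} * b :=
    Ideal.mul_mono_left (hJM.trans (pc_mK hM.le))
  have hI0 : mK K M * f * b ≠ ⊥ := mul_ne_zero hJ0 hb
  have hdir := fun (q : (Fin m → Fin (m + 1)) × Equiv.Perm (Fin m)) =>
    directions hm (fun k : Fin (m + 1) => L (kv (fun k => ((q.1 k : ℕ) : ℤ)) q.2 k))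
      (labels_indep p hp l b c₀ u L hL _ _) (mK K M * f * b) hI0
  choose d hd1 hd2 hd3 using hdir
  have hp0 : (p : 𝓞 K) ≠ 0 := by exact_mod_cast hp.ne_zero
  refine ⟨(⋃ q : ((Fin m → Fin (m + 1)) × Equiv.Perm (Fin m)) × Fin (m + 1),
    {c : Ideal (𝓞 K) | d q.1 q.2 ∈ c}) ∪ {c : Ideal (𝓞 K) | (p : 𝓞 K) ∈ c}, ?_, ?_⟩
  · refine Set.Finite.union (Set.finite_iUnion fun q => finite_ideals _ (hd2 _ _)) ?_
    exact finite_ideals _ hp0
  intro c q hcq hbad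
  let D : Ctx F K m := ⟨σ, mK K M * f * b, c₀, c, q⟩
  have hD : D.Ok := ⟨hσ, fun h => hc' (hle h), hcq⟩
  have h0X : (0 : 𝓞 K) ∉ D.X := fun h => D.X_ne hD.ne h rfl
  have hp2 : ∀ i, D.p i ≠ p := by
    intro i hi
    apply hbad i
    right
    have h1 : ((Ideal.absNorm (c i) : ℕ) : 𝓞 K) ∈ c i := Ideal.absNorm_mem _
    rw [hcq.norm i] at h1
    have h2 : q i = p := hi
    rw [h2] at h1
    exact h1
  have hact : ∀ v : (𝓞 K)ˣ, (v : 𝓞 K) - 1 ∈ J → ((v : 𝓞 K) - 1) * D.c₀ ∈ D.I :=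
    fun v hv => Ideal.mul_mem_mul hv hc
  have hu : D.UOk u := ⟨fun j => hact _ (hJ'J (hu1 j)),
    fun j => norm_one D hσ hM (u j) (hJM (hJ'J (hu1 j))), delta_ne D hσ u hu4⟩
  have hlow := labels_low D hσ p M l hM.prime hM.le b f c₀ ⟨rfl, rfl⟩ u L hL
  have hdirs : ∀ (a : Fin m → Fin (m + 1)) (π : Equiv.Perm (Fin m)),
      ∃ w', D.Dirs (fun k : Fin (m + 1) => L (kv (fun k => ((a k : ℕ) : ℤ)) π k)) w' := by
    intro a π
    refine dirs_of D hD _ (d (a, π)) (hd1 (a, π)) ?_ (hd3 (a, π)) ?_ ?_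
      (labels_indep p hp l b c₀ u L hL _ _)
    · intro i j hj
      apply hbad i
      left
      exact Set.mem_iUnion.2 ⟨((a, π), j), hj⟩
    · intro x hx k
      obtain ⟨⟨y, hy⟩, -⟩ := hlow (kv (fun k => ((a k : ℕ) : ℤ)) π k) x hx
      exact ⟨_, hy⟩
    · intro x hx k
      exact (hlow (kv (fun k => ((a k : ℕ) : ℤ)) π k) x hx).2
  obtain ⟨w, hw⟩ := hdirs (fun _ => 0) 1
  obtain ⟨G, hG⟩ := gspec_exists D hD _ w hw
  obtain ⟨Z, hZ1, hZ2, hZ3⟩ := zfun D hD u hu _ w hw G hG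
  have hval := CN_value D hD u hu _ w hw G hG L hL.equi hdirs
  have hJ2 : IsCoprime J (Ideal.span {(p : 𝓞 K)}) := by
    rw [hJdef]
    exact IsCoprime.mul_left (pe9_cop hM.cop) hfp
  obtain ⟨ν, hν, hT⟩ := prime_change p hp hK J J' hJ0 hJ2 hJ'def D.X h0X (by
    intro v hv x hx
    have h1 : (v : 𝓞 K) * x - D.c₀ = ((v : 𝓞 K) - 1) * D.c₀ + v * (x - D.c₀) := by ring
    rw [D.mem_X, h1]
    exact D.I.add_mem (hact v hv) (D.I.mul_mem_left _ hx))
  refine ⟨fun s => Z s / ν, ?_, ?_, ?_⟩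
  · exact fun s hs => (hZ1 s hs).div_const
  · intro T hTT s hs
    obtain ⟨T', hT', hφ⟩ := hT T hTT
    refine hφ (fun x => gw c q x * nf F s x) (Z s) ?_ ?_
    · intro v hv x _
      rw [pc_gw, pc_nf hσ s v (norm_one D hσ hM v (hJM hv))]
    · exact hZ2 T' hT'.sub (pc_bij h0X hT' u hu2 hu3) s hs
  · intro Ac Bc Om hper V hVp hV
    have hint := pc_CN p hp hM hK D hD b f hbp hf hfp rfl hp2 u L hL hdirs Ac Bc Om hper V hVp hV
    have hZint : V.valuation (Z 1 / Om ^ (m + 1)) ≤ 1 := by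
      rcases le_total 0 (Delta (D.lm u)) with h | h
      · rw [hZ3, abs_of_nonneg h, ← hval]
        exact hint
      · rw [hZ3, abs_of_nonpos h]
        have : (m.factorial : ℂ) * ((-Delta (D.lm u) : ℝ) : ℂ) *
            (∫ z in Set.Icc (0 : Fin m → ℝ) 1, D.Bv w G (fun _ => tt (D.lm u) z)) / Om ^ (m + 1) =
            -(CN (m + 1) D.Jv (fun a => .A (L a)) / Om ^ (m + 1)) := by
          rw [hval]
          push_cast
          ring
        rw [this, Valuation.map_neg]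
        exact hint
    have : Z 1 / (ν : ℂ) / Om ^ (m + 1) = Z 1 / Om ^ (m + 1) / ν := by
      rw [div_right_comm]
    show V.valuation (Z 1 / (ν : ℂ) / Om ^ (m + 1)) ≤ 1
    rw [this, map_div₀, val_nat p hp V hVp ν hν, div_one]
    exact hZint

theorem nopoles (p : ℕ) (hp : p.Prime) {M : Ideal (𝓞 F)} {l : 𝓞 F} (hM : Mod p M l)
    (K : Type) [Field K] [NumberField K] [Algebra F K] (m : ℕ)
    (hm : Module.finrank F K = m + 1) (b f : Ideal (𝓞 K)) (hb : b ≠ ⊥)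
    (hf : f ≠ ⊥) (c₀ : 𝓞 K) (hc : c₀ ∈ b)
    (hc' : c₀ ∉ Ideal.span {algebraMap (𝓞 F) (𝓞 K) l} * b) :
    ∃ Z : ℂ → ℂ, AnalyticOnNhd ℂ Z {s | 3 / 2 - 1 / (2 * (m + 1)) < s.re} ∧
      ∀ T : Set (𝓞 K), Transv (mK K M * f) (XS (mK K M * f * b) c₀) T →
        ∀ s : ℂ, 3 / 2 < s.re → HasSum (fun x : T => nf F s (x : 𝓞 K)) (Z s) := by
  classical
  obtain ⟨σ, hσ⟩ := emb_exists (F := F) K m hm
  set J : Ideal (𝓞 K) := mK K M * f with hJdef
  set J' : Ideal (𝓞 K) := Ideal.span {(p : 𝓞 K)} * J with hJ'def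
  obtain ⟨hJ0, hJ'0, hJ'J, hJM, hJ'p, hJ'l, hJ'pl⟩ := pc_J hp hM f hf J J' hJdef hJ'def
  obtain ⟨u, hu1, hu2, hu3, hu4⟩ := units_basis hm J' hJ'0
    (torsion_free p hp l hM.prime (pc_cop hM) J' hJ'p hJ'l)
  have hle : mK K M * f * b ≤ Ideal.span {algebraMap (𝓞 F) (𝓞 K) l} * b :=
    Ideal.mul_mono_left (hJM.trans (pc_mK hM.le))
  let D : Ctx F K m := ⟨σ, mK K M * f * b, c₀, fun _ => ⊥, fun _ => 0⟩
  have hne : D.c₀ ∉ D.I := fun h => hc' (hle h)
  have h0X : (0 : 𝓞 K) ∉ D.X := fun h => D.X_ne hne h rfl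
  have hact : ∀ v : (𝓞 K)ˣ, (v : 𝓞 K) - 1 ∈ J → ((v : 𝓞 K) - 1) * D.c₀ ∈ D.I :=
    fun v hv => Ideal.mul_mem_mul hv hc
  have hu : D.UOk u := ⟨fun j => hact _ (hJ'J (hu1 j)),
    fun j => norm_one D hσ hM (u j) (hJM (hJ'J (hu1 j))), delta_ne D hσ u hu4⟩
  have hI0 : D.I ≠ ⊥ := mul_ne_zero hJ0 hb
  obtain ⟨Z, hZ1, hZ2⟩ := zfun_one D hσ hne hI0 u hu
  obtain ⟨ν, hν, hT⟩ := finite_change J J' hJ'0 hJ'J D.X h0X (by
    intro v hv x hx
    have h1 : (v : 𝓞 K) * x - D.c₀ = ((v : 𝓞 K) - 1) * D.c₀ + v * (x - D.c₀) := by ring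
    rw [D.mem_X, h1]
    exact D.I.add_mem (hact v hv) (D.I.mul_mem_left _ hx))
  refine ⟨fun s => Z s / ν, ?_, ?_⟩
  · exact fun s hs => (hZ1 s hs).div_const
  · intro T hTT s hs
    obtain ⟨T', hT', hφ⟩ := hT T hTT
    refine hφ (fun x => nf F s x) (Z s) ?_ ?_
    · intro v hv x _
      exact pc_nf hσ s v (norm_one D hσ hM v (hJM hv)) x
    · exact hZ2 T' hT'.sub (pc_bij h0X hT' u hu2 hu3) s hs

end H55P
end

-- from Lib.H55P.N3
section

open NumberField IsDedekindDomain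

namespace H55P

open H55N
open H55B (g)

variable {F : Type} [Field F] [NumberField F] [IQ F] {K : Type} [Field K] [NumberField K]
  [Algebra F K] {m : ℕ}

/-! Chunk PN3 (M/L), PORT of Lib/H55R/D12.lean (class_bdd). J = (3) f, J' = (2) J c; units_basis of H55P/D1.lean with htf = H55N.D1_six (H55N/D1.lean; J' <= (6)); norm_one3 in place of norm_one (J <= (3));
delta_ne, finite_change, unfold, fs_summable, uu_act of H55P; Z3_bij of H55N/Core.lean has [Algebra F K] of the old F: copy it (it does not use F) as pn3_bij. -/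

theorem pn3_fin (F : Type) [Field F] [NumberField F] {K : Type} [Field K] [NumberField K]
    [Algebra F K] : ∃ m : ℕ, Module.finrank F K = m + 1 := by
  have : IsScalarTower ℚ F K := IsScalarTower.of_algebraMap_eq' (Subsingleton.elim _ _)
  have : Module.Finite F K := Module.Finite.of_restrictScalars_finite ℚ F K
  have h : 0 < Module.finrank F K := Module.finrank_pos
  exact ⟨Module.finrank F K - 1, by omega⟩

omit [Algebra F K] in
theorem pn3_bij {J' : Ideal (𝓞 K)} {X T : Set (𝓞 K)} (h0 : (0 : 𝓞 K) ∉ X) (hT : Transv J' X T)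
    (u : Fin m → (𝓞 K)ˣ) (hu2 : ∀ z, (uu u z : 𝓞 K) - 1 ∈ J')
    (hu3 : ∀ v : (𝓞 K)ˣ, (v : 𝓞 K) - 1 ∈ J' → ∃! z : Fin m → ℤ, v = uu u z) :
    ∀ x ∈ X, ∃! q : (Fin m → ℤ) × T, x = (uu u q.1 : 𝓞 K) * q.2 := by
  intro x hx
  obtain ⟨r, hr, v, hv, hxv⟩ := hT.cover x hx
  obtain ⟨z, hz, hzu⟩ := hu3 v hv
  refine ⟨(z, ⟨r, hr⟩), ?_, ?_⟩
  · simp only
    rw [← hz]
    exact hxv
  · rintro ⟨z', r'⟩ h'
    simp only at h'
    have e1 : (r' : 𝓞 K) = (((uu u z')⁻¹ * v : (𝓞 K)ˣ) : 𝓞 K) * r := by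
      rw [Units.val_mul, mul_assoc, ← hxv, h', Units.inv_mul_cancel_left]
    have e2 : (((uu u z')⁻¹ * v : (𝓞 K)ˣ) : 𝓞 K) - 1 ∈ J' := by
      have e3 : (((uu u z')⁻¹ * v : (𝓞 K)ˣ) : 𝓞 K) - 1 =
          (((uu u z')⁻¹ : (𝓞 K)ˣ) : 𝓞 K) * (((v : 𝓞 K) - 1) - ((uu u z' : 𝓞 K) - 1)) := by
        have e4 : (((uu u z')⁻¹ : (𝓞 K)ˣ) : 𝓞 K) * (uu u z' : 𝓞 K) = 1 := Units.inv_mul _
        rw [Units.val_mul]
        linear_combination e4
      rw [e3]
      exact J'.mul_mem_left _ (J'.sub_mem hv (hu2 z'))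
    have e5 : (r' : 𝓞 K) = r := hT.uniq r hr r' r'.2 _ e2 e1
    have hr0 : r ≠ 0 := by
      rintro rfl
      exact h0 (hT.sub hr)
    have e6 : v = uu u z' := by
      apply Units.ext
      rw [e5, hxv] at h'
      exact mul_right_cancel₀ hr0 h'
    have e7 : z' = z := hzu z' e6
    subst e7
    congr 1
    exact Subtype.ext e5

theorem pn3_N (D : Ctx F K m) (hσ : Emb F D.σ) (x : 𝓞 K) :
    D.N x = embF F (Algebra.norm F (x : K)) := norm_eq hσ _

theorem pn3_nn (D : Ctx F K m) (hσ : Emb F D.σ) (x : 𝓞 K) : nnF F x = ‖D.N x‖ := by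
  rw [pn3_N D hσ]
  rfl

theorem pn3_Nmul (D : Ctx F K m) (u x : 𝓞 K) : D.N (u * x) = D.N u * D.N x := by
  unfold Ctx.N
  rw [← Finset.prod_mul_distrib]
  refine Finset.prod_congr rfl fun i _ => ?_
  rw [← map_mul]
  rfl

theorem pn3_N_ne (D : Ctx F K m) {x : 𝓞 K} (hx : x ≠ 0) : D.N x ≠ 0 := by
  unfold Ctx.N
  refine Finset.prod_ne_zero_iff.2 fun i _ => ?_
  rw [Ne, map_eq_zero]
  exact fun h => hx (RingOfIntegers.coe_eq_zero_iff.1 h)

theorem pn3_Q_pos (D : Ctx F K m) (t : Fin (m + 1) → ℝ) (ht : ∀ i, 0 < t i) {x : 𝓞 K} (hx : x ≠ 0) :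
    0 < D.Q t x := by
  unfold Ctx.Q
  refine Finset.sum_pos (fun i _ => ?_) Finset.univ_nonempty
  have h1 : D.σ i (x : K) ≠ 0 := by
    rw [Ne, map_eq_zero]
    exact fun h => hx (RingOfIntegers.coe_eq_zero_iff.1 h)
  have := ht i
  have h2 := norm_pos_iff.2 h1
  positivity

theorem pn3_nf (D : Ctx F K m) (hσ : Emb F D.σ) (s : ℝ) {x : 𝓞 K} (hx : x ≠ 0) :
    D.N x / (‖D.N x‖ : ℂ) * nf F ((s + 1 / 2 : ℝ) : ℂ) x = ((nnF F x ^ (-2 * s) : ℝ) : ℂ) := by
  have hN := pn3_N_ne D hx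
  have h0 : 0 < ‖D.N x‖ := norm_pos_iff.2 hN
  unfold nf g
  rw [← pn3_N D hσ, ← mul_assoc, H55R.D12_conj _ hN, pn3_nn D hσ]
  have h1 : (-2 * ((s + 1 / 2 : ℝ) : ℂ)) = ((-2 * (s + 1 / 2) : ℝ) : ℂ) := by push_cast; ring
  rw [h1, ← Complex.ofReal_cpow h0.le, ← Complex.ofReal_mul]
  congr 1
  have h2 : ‖D.N x‖ * ‖D.N x‖ ^ (-2 * (s + 1 / 2)) = ‖D.N x‖ ^ (1 : ℝ) * ‖D.N x‖ ^ (-2 * (s + 1 / 2)) := by
    rw [Real.rpow_one]
  rw [h2, ← Real.rpow_add h0]
  congr 1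
  ring

theorem pn3_fs (D : Ctx F K m) (t : Fin (m + 1) → ℝ) (ht : ∀ i, 0 < t i) (s : ℝ) {x : 𝓞 K}
    (hx : x ≠ 0) : D.N x / (‖D.N x‖ : ℂ) * D.fs t (s : ℂ) x = ((‖D.fs t (s : ℂ) x‖ : ℝ) : ℂ) := by
  have hN := pn3_N_ne D hx
  have hQ := pn3_Q_pos D t ht hx
  have h1 : (-((m + 1 : ℕ) * (s : ℂ))) = ((-((m + 1 : ℕ) * s) : ℝ) : ℂ) := by push_cast; ring
  have h2 : D.fs t (s : ℂ) x = (starRingEnd ℂ) (D.N x) * ((D.Q t x ^ (-((m + 1 : ℕ) * s)) : ℝ) : ℂ) := by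
    unfold Ctx.fs
    rw [h1, ← Complex.ofReal_cpow hQ.le]
  have h3 : 0 ≤ D.Q t x ^ (-((m + 1 : ℕ) * s)) := Real.rpow_nonneg hQ.le _
  rw [h2, ← mul_assoc, H55R.D12_conj _ hN, norm_mul, RCLike.norm_conj, Complex.norm_real,
    Real.norm_of_nonneg h3, Complex.ofReal_mul]

theorem class_bddF (f b : Ideal (𝓞 K))
    (hf : f ≠ ⊥) (hb : b ≠ ⊥) (c₀ : 𝓞 K) (hc : c₀ ∈ b)
    (hp : ∀ w : HeightOneSpectrum (𝓞 K), Ideal.span {3} * f ≤ w.asIdeal → c₀ ∉ w.asIdeal * b)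
    (c : H55R.Pl K) (hcc : IsCoprime (Ideal.span {3} * f * b) c.asIdeal) (T : Set (𝓞 K))
    (hT : Transv (Ideal.span {3} * f) (XS (Ideal.span {3} * f * b) c₀) T) :
    ∃ C : ℝ, ∀ s ∈ Set.Ioc (1 : ℝ) 2, ∃ Z : ℂ, ‖Z‖ ≤ C ∧
      HasSum (fun x : T => H55R.wt c.asIdeal (x : 𝓞 K) * ((nnF F (x : 𝓞 K) ^ (-2 * s) : ℝ) : ℂ)) Z := by
  classical
  obtain ⟨m, hm⟩ := pn3_fin F (K := K)
  obtain ⟨σ, hσ⟩ := emb_exists (F := F) K m hm
  have hne0 := H55R.D12_ne f b hf c₀ hp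
  obtain ⟨J, hJdef⟩ : ∃ J : Ideal (𝓞 K), J = Ideal.span {3} * f := ⟨_, rfl⟩
  obtain ⟨J', hJ'def⟩ : ∃ J' : Ideal (𝓞 K), J' = Ideal.span {2} * J := ⟨_, rfl⟩
  rw [← hJdef] at hT hne0 hcc
  have hJ0 : J ≠ ⊥ := by
    rw [hJdef]
    exact mul_ne_zero (by simp) hf
  have hJ'0 : J' ≠ ⊥ := by
    rw [hJ'def]
    exact mul_ne_zero (by simp) hJ0
  have hJ'J : J' ≤ J := by
    rw [hJ'def]
    exact Ideal.mul_le_right
  have hJ3 : J ≤ Ideal.span {3} := by
    rw [hJdef]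
    exact Ideal.mul_le_left
  have hJ6 : J' ≤ Ideal.span {6} := by
    rw [hJ'def, hJdef, ← mul_assoc, Ideal.span_singleton_mul_span_singleton]
    have : (2 : 𝓞 K) * 3 = 6 := by norm_num
    rw [this]
    exact Ideal.mul_le_left
  obtain ⟨u, hu1, hu2, hu3, hu4⟩ := units_basis hm J' hJ'0 (fun ζ hζ q hq h => H55N.D1_six hJ6 hζ hq h)
  obtain ⟨D, hDσ, hDI, hDc⟩ : ∃ D : Ctx F K m, D.σ = σ ∧ D.I = J * b ∧ D.c₀ = c₀ :=
    ⟨⟨σ, J * b, c₀, fun _ => ⊥, fun _ => 0⟩, rfl, rfl, rfl⟩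
  have hσ' : Emb F D.σ := by
    rw [hDσ]
    exact hσ
  have hne : D.c₀ ∉ D.I := by
    rw [hDI, hDc]
    exact hne0
  have hDX : D.X = XS (J * b) c₀ := by
    unfold Ctx.X
    rw [hDI, hDc]
  rw [← hDX] at hT
  have h0X : (0 : 𝓞 K) ∉ D.X := fun h => D.X_ne hne h rfl
  have hact : ∀ v : (𝓞 K)ˣ, (v : 𝓞 K) - 1 ∈ J → ((v : 𝓞 K) - 1) * D.c₀ ∈ D.I := by
    intro v hv
    rw [hDI, hDc]
    exact Ideal.mul_mem_mul hv hc
  have hu : D.UOk u := ⟨fun j => hact _ (hJ'J (hu1 j)),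
    fun j => norm_one3 D hσ' (u j) (hJ3 (hJ'J (hu1 j))), delta_ne D hσ' u hu4⟩
  obtain ⟨ν, hν, hT2⟩ := finite_change J J' hJ'0 hJ'J D.X h0X (by
    intro v hv x hx
    have h1 : (v : 𝓞 K) * x - D.c₀ = ((v : 𝓞 K) - 1) * D.c₀ + v * (x - D.c₀) := by ring
    rw [D.mem_X, h1]
    exact D.I.add_mem (hact v hv) (D.I.mul_mem_left _ hx))
  obtain ⟨T', hT', hφ⟩ := hT2 T hT
  obtain ⟨a, b', ha, hab⟩ := U4_tt_bd (D.lm u)
  obtain ⟨C, hC⟩ := cube_bddF D hσ' hne c.asIdeal c.ne_bot (by rw [hDI]; exact hcc) a b' ha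
  obtain ⟨δ, hδ, hlow⟩ := H55R.cst_low (D.lm u) (lm_sum D u hu) hu.reg
  have hinv : ∀ v : (𝓞 K)ˣ, ∏ i, D.σ i ((v : 𝓞 K) : K) = 1 → ∀ x : 𝓞 K,
      D.N ((v : 𝓞 K) * x) = D.N x := by
    intro v hv x
    rw [pn3_Nmul]
    have : D.N (v : 𝓞 K) = 1 := hv
    rw [this, one_mul]
  have hunf := fun s' : ℂ => unfold D hσ' hne u hu
    (fun x => H55R.wt c.asIdeal x * (D.N x / (‖D.N x‖ : ℂ)))
    ⟨1 + Ideal.absNorm c.asIdeal, fun x => by
      rw [norm_mul]
      refine (mul_le_of_le_one_right (norm_nonneg _) ?_).trans (H55R.D12_wt_bd _ _)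
      rw [norm_div, Complex.norm_real, norm_norm]
      exact div_self_le_one _⟩
    (fun x _ z => by
      show H55R.wt c.asIdeal ((uu u z : 𝓞 K) * x) * (D.N ((uu u z : 𝓞 K) * x) /
        (‖D.N ((uu u z : 𝓞 K) * x)‖ : ℂ)) = H55R.wt c.asIdeal x * (D.N x / (‖D.N x‖ : ℂ))
      rw [H55R.D12_wt, hinv _ (uu_act D u hu z).2.1])
    T' hT'.sub (pn3_bij h0X hT' u hu2 hu3) s'
  refine ⟨C / δ / ν, fun s hs => ?_⟩
  obtain ⟨hs1, hs2⟩ := hs
  obtain ⟨hsum, hint⟩ := hunf ((s + 1 / 2 : ℝ) : ℂ) (by rw [Complex.ofReal_re]; linarith)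
  have hterm : ∀ x : T', H55R.wt c.asIdeal (x : 𝓞 K) * (D.N (x : 𝓞 K) / (‖D.N (x : 𝓞 K)‖ : ℂ)) *
      nf F ((s + 1 / 2 : ℝ) : ℂ) (x : 𝓞 K) =
      H55R.wt c.asIdeal (x : 𝓞 K) * ((nnF F (x : 𝓞 K) ^ (-2 * s) : ℝ) : ℂ) := by
    intro x
    rw [mul_assoc, pn3_nf D hσ' s (D.X_ne hne (hT'.sub x.2))]
  have hsum' : Summable fun x : T' => H55R.wt c.asIdeal (x : 𝓞 K) *
      ((nnF F (x : 𝓞 K) ^ (-2 * s) : ℝ) : ℂ) := by
    refine (hsum.of_norm).congr fun x => ?_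
    exact hterm x
  have hhas := hsum'.hasSum
  refine ⟨(∑' x : T', H55R.wt c.asIdeal (x : 𝓞 K) * ((nnF F (x : 𝓞 K) ^ (-2 * s) : ℝ) : ℂ)) / ν, ?_, ?_⟩
  · have hν0 : (0 : ℝ) < ν := by exact_mod_cast hν
    rw [norm_div, Complex.norm_natCast]
    refine div_le_div_of_nonneg_right ?_ hν0.le
    rw [le_div_iff₀ hδ]
    have h1 : (∑' x : T', H55R.wt c.asIdeal (x : 𝓞 K) * (D.N (x : 𝓞 K) / (‖D.N (x : 𝓞 K)‖ : ℂ)) *
      nf F ((s + 1 / 2 : ℝ) : ℂ) (x : 𝓞 K)) =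
        ∑' x : T', H55R.wt c.asIdeal (x : 𝓞 K) * ((nnF F (x : 𝓞 K) ^ (-2 * s) : ℝ) : ℂ) :=
      tsum_congr hterm
    have h2 : ‖∑' x : T', H55R.wt c.asIdeal (x : 𝓞 K) * ((nnF F (x : 𝓞 K) ^ (-2 * s) : ℝ) : ℂ)‖ *
        ‖cst (D.lm u) ((s + 1 / 2 : ℝ) : ℂ)‖ ≤ C := by
      rw [← norm_mul, ← h1, hint]
      have h3 := MeasureTheory.norm_setIntegral_le_of_norm_le_const (C := C)
        (μ := MeasureTheory.volume) (s := Set.Icc (0 : Fin m → ℝ) 1)
        (f := fun z => ∑' x : D.X, H55R.wt c.asIdeal (x : 𝓞 K) *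
          (D.N (x : 𝓞 K) / (‖D.N (x : 𝓞 K)‖ : ℂ)) *
            D.fs (tt (D.lm u) z) ((s + 1 / 2 : ℝ) : ℂ) x)
        (by
          rw [Real.volume_Icc_pi]
          simp) (by
          intro z hz
          have hz2 := hab z hz
          have h4 := hC (tt (D.lm u) z) hz2 (s + 1 / 2) ⟨by linarith, by linarith⟩
          refine (le_of_eq ?_).trans h4
          congr 1
          refine tsum_congr fun x => ?_
          rw [mul_assoc, pn3_fs D (tt (D.lm u) z) (fun i => ha.trans_le (hz2 i).1) (s + 1 / 2)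
            (D.X_ne hne x.2)])
      refine h3.trans (le_of_eq ?_)
      have h5 : MeasureTheory.volume.real (Set.Icc (0 : Fin m → ℝ) 1) = 1 := by
        rw [MeasureTheory.measureReal_def, Real.volume_Icc_pi]
        simp
      rw [h5, mul_one]
    exact (mul_le_mul_of_nonneg_left (hlow (s + 1 / 2) ⟨by linarith, by linarith⟩)
      (norm_nonneg _)).trans h2
  · refine hφ (fun x => H55R.wt c.asIdeal x * ((nnF F x ^ (-2 * s) : ℝ) : ℂ)) _ ?_ hhas
    intro v hv x _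
    have h1 : nnF F ((v : 𝓞 K) * x) = nnF F x := by
      rw [pn3_nn D hσ', pn3_nn D hσ', hinv v (norm_one3 D hσ' v (hJ3 hv))]
    show H55R.wt c.asIdeal ((v : 𝓞 K) * x) * ((nnF F ((v : 𝓞 K) * x) ^ (-2 * s) : ℝ) : ℂ) = _
    rw [H55R.D12_wt, h1]

end H55P
end

-- from Lib.H55P.N4
section

open NumberField IsDedekindDomain

namespace H55P

open H55N
open H55B (g)



/-! Chunk PN4 (M), PORT of Lib/H55R/D13.lean (bdd; with CDJ J g, J = (3) f, g = (6) f, exists_CDJ, cdj_hasSum of H55P/CD.lean) and of density_ker in Lib/H55R/Den.lean. F must be an explicit argument. -/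

theorem pn4_ne_top {K : Type} [Field K] [NumberField K] (f : Ideal (𝓞 K)) :
    Ideal.span {(3 : 𝓞 K)} * f ≠ ⊤ := by
  intro h
  have h1 : Ideal.span {(3 : 𝓞 K)} = ⊤ := by
    rw [eq_top_iff, ← h]
    exact Ideal.mul_le_left
  have h2 : Ideal.absNorm (Ideal.span {(3 : 𝓞 K)}) = 1 := by rw [h1]; exact Ideal.absNorm_top
  rw [Ideal.absNorm_span_singleton] at h2
  have h3 : (Algebra.norm ℤ (3 : 𝓞 K)) = 3 ^ Module.finrank ℤ (𝓞 K) := by
    have := Algebra.norm_algebraMap (S := 𝓞 K) (3 : ℤ)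
    rw [map_ofNat] at this
    exact this
  rw [h3, Int.natAbs_pow] at h2
  have h4 : 0 < Module.finrank ℤ (𝓞 K) := Module.finrank_pos
  have h5 : 1 < 3 ^ Module.finrank ℤ (𝓞 K) := Nat.one_lt_pow h4.ne' (by norm_num)
  have h6 : (3 : ℤ).natAbs = 3 := rfl
  rw [h6] at h2
  omega

theorem bddF (F : Type) [Field F] [NumberField F] [IQ F] {K : Type} [Field K] [NumberField K]
    [Algebra F K] (f : Ideal (𝓞 K)) (hf : f ≠ ⊥)
    (φ : H55R.Pl K → ℂˣ) (hφ : φ ∈ H55R.RC f) (hn : ∀ v, ‖(φ v : ℂ)‖ = 1) (h1 : φ ≠ 1) :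
    ∃ C : ℝ, ∀ s ∈ Set.Ioc (1 : ℝ) 2, ‖H55R.Ls (H55R.tI f φ) s‖ ≤ C := by
  classical
  obtain ⟨C₁, hC₁, hmod⟩ := H55R.change_mod f hf φ hn
  have h3 : (Ideal.span {(3 : 𝓞 K)}) ≠ ⊥ := by
    rw [Ne, Ideal.span_singleton_eq_bot]
    exact OfNat.ofNat_ne_zero 3
  set J : Ideal (𝓞 K) := Ideal.span {3} * f with hJ
  have hJ0 : J ≠ ⊥ := mul_ne_zero h3 hf
  have h6 : Ideal.span {(6 : 𝓞 K)} ≤ Ideal.span {(3 : 𝓞 K)} := by
    rw [Ideal.span_singleton_le_span_singleton]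
    exact ⟨2, by norm_num⟩
  have h60 : (Ideal.span {(6 : 𝓞 K)}) ≠ ⊥ := by
    rw [Ne, Ideal.span_singleton_eq_bot]
    exact OfNat.ofNat_ne_zero 6
  have hgJ : Ideal.span {(6 : 𝓞 K)} * f ≤ J := Ideal.mul_mono_left h6
  have hJ1 : J ≠ ⊤ := pn4_ne_top f
  obtain ⟨ι, _, b, c₀, T, hCD⟩ := exists_CDJ J (Ideal.span {6} * f) hJ0 (mul_ne_zero h60 hf) hgJ hJ1
  have hg : J * ∏ i, b i ≠ ⊥ := mul_ne_zero hJ0 (Finset.prod_ne_zero_iff.2 fun i _ => hCD.ne i)
  obtain ⟨c, hcf, hcg, hφc⟩ := H55R.exists_prime f hf φ hφ h1 _ hg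
  have hcmax : c.asIdeal.IsMaximal := c.isPrime.isMaximal c.ne_bot
  have hcop : ∀ I : Ideal (𝓞 K), ¬ I ≤ c.asIdeal → IsCoprime I c.asIdeal := by
    intro I hI
    rw [Ideal.isCoprime_iff_sup_eq]
    by_contra hne
    obtain ⟨M, hM, hle⟩ := Ideal.exists_le_maximal _ hne
    have h4 : c.asIdeal = M := hcmax.eq_of_le hM.ne_top (le_sup_right.trans hle)
    exact hI (h4 ▸ le_sup_left.trans hle)
  have hJc : ¬ J ≤ c.asIdeal := fun h => hcg (Ideal.mul_le_left.trans h)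
  have hbc : ∀ i, ¬ b i ≤ c.asIdeal := fun i h => hcg
    (Ideal.mul_le_right.trans ((Ideal.prod_le_inf.trans (Finset.inf_le (Finset.mem_univ i))).trans h))
  have hcJ : IsCoprime J c.asIdeal := hcop J hJc
  have hcb : ∀ i, IsCoprime (b i) c.asIdeal := fun i => hcop _ (hbc i)
  choose κ hκ using fun i => term_classF (F := F) f (b i) hf (hCD.ne i) φ hφ (hCD.cop i) (c₀ i) (hCD.mem i)
    (hCD.prim i)
  choose C hC using fun i => class_bddF (F := F) f (b i) hf (hCD.ne i) (c₀ i) (hCD.mem i) (hCD.prim i) c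
    ((hcJ.mul_left (hcb i))) (T i) (hCD.trans i)
  have hh : ∀ a, ‖H55R.tI J φ a‖ ≤ 1 := H55R.dd_norm_tI J φ hn
  have htc : H55R.tI J φ c.asIdeal = (φ c : ℂ) := by
    rw [H55R.tI_apply J φ c.ne_bot hcJ.symm, H55R.pv_prime]
  obtain ⟨δ, hδ, hlow⟩ := H55R.fac_low (Ideal.absNorm c.asIdeal) (H55R.dd_two_le c) (φ c : ℂ) (hn c)
    (fun h => hφc (Units.ext h))
  refine ⟨C₁ * ((∑ i, ‖κ i‖ * ((Ideal.absNorm (b i) : ℝ) ^ (2 : ℝ)) * C i) / δ), fun s hs => ?_⟩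
  refine (hmod s hs).trans (mul_le_mul_of_nonneg_left ?_ hC₁.le)
  rw [le_div_iff₀ hδ]
  -- the smoothed series
  have hsum := H55R.dd_tm_summable (H55R.tI J φ) hh s hs.1
  have hsm := smooth_sum (tmH (H55R.tI J φ) s) hsum (fun _ : Unit => c.asIdeal)
    (fun _ => c.isPrime) (fun _ => c.ne_bot) (fun _ _ _ => rfl)
    (fun _ => (Ideal.absNorm c.asIdeal : ℂ))
  simp only [Finset.univ_unique, Finset.prod_singleton] at hsm
  choose Z hZ1 hZ2 using fun i => hC i s hs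
  have hcd := cdj_hasSum J (Ideal.span {6} * f) hgJ hJ1 ι b c₀ T hCD
    (fun a => tm (H55R.tI J φ) s a *
      (if a ≤ c.asIdeal then 1 - (Ideal.absNorm c.asIdeal : ℂ) else 1))
    (fun a ha => by
      by_contra hne
      apply ha
      have h5 : H55R.tI J φ a = 0 := if_neg hne
      show H55R.tI J φ a * _ * _ = 0
      rw [h5, zero_mul, zero_mul])
    (fun i x => κ i * (((Ideal.absNorm (b i) : ℝ) ^ s : ℝ) : ℂ) *
            (H55R.wt c.asIdeal x * ((nnF F x ^ (-2 * s) : ℝ) : ℂ)))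
    (fun i x hx a hab => hκ i c (hcb i) x ((hCD.trans i).sub hx) a hab s)
    (fun i => κ i * (((Ideal.absNorm (b i) : ℝ) ^ s : ℝ) : ℂ) * Z i)
    (fun i => (hZ2 i).mul_left _)
  have heq : (1 - (Ideal.absNorm c.asIdeal : ℂ) * tmH (H55R.tI J φ) s c.asIdeal) *
      ∑' a, tmH (H55R.tI J φ) s a = ∑ i, κ i * (((Ideal.absNorm (b i) : ℝ) ^ s : ℝ) : ℂ) * Z i :=
    hsm.unique hcd
  have hk : tmH (H55R.tI J φ) s c.asIdeal = (φ c : ℂ) * (Ideal.absNorm c.asIdeal : ℂ) ^ (-(s : ℂ)) := by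
    show H55R.tI J φ c.asIdeal * _ = _
    rw [htc]
  have hL : ∑' a, tmH (H55R.tI J φ) s a = H55R.Ls (H55R.tI J φ) s := rfl
  rw [hk, hL] at heq
  calc ‖H55R.Ls (H55R.tI J φ) s‖ * δ ≤ ‖H55R.Ls (H55R.tI J φ) s‖ * ‖1 - (Ideal.absNorm c.asIdeal : ℂ) *
        ((φ c : ℂ) * (Ideal.absNorm c.asIdeal : ℂ) ^ (-(s : ℂ)))‖ :=
        mul_le_mul_of_nonneg_left (hlow s ⟨hs.1.le, hs.2⟩) (norm_nonneg _)
    _ = ‖∑ i, κ i * (((Ideal.absNorm (b i) : ℝ) ^ s : ℝ) : ℂ) * Z i‖ := by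
        rw [mul_comm, ← norm_mul, heq]
    _ ≤ ∑ i, ‖κ i * (((Ideal.absNorm (b i) : ℝ) ^ s : ℝ) : ℂ) * Z i‖ := norm_sum_le _ _
    _ ≤ ∑ i, ‖κ i‖ * ((Ideal.absNorm (b i) : ℝ) ^ (2 : ℝ)) * C i := by
        refine Finset.sum_le_sum fun i _ => ?_
        have hb1 : (1 : ℝ) ≤ (Ideal.absNorm (b i) : ℝ) := by
          have h6 : Ideal.absNorm (b i) ≠ 0 := fun h => hCD.ne i (Ideal.absNorm_eq_zero_iff.1 h)
          exact_mod_cast Nat.one_le_iff_ne_zero.2 h6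
        rw [norm_mul, norm_mul, Complex.norm_real, Real.norm_of_nonneg (by positivity)]
        refine mul_le_mul (mul_le_mul_of_nonneg_left ?_ (norm_nonneg _)) (hZ1 i) (norm_nonneg _)
          (by positivity)
        exact Real.rpow_le_rpow_of_exponent_le hb1 hs.2

/-- Primes in the kernel of a finite group of ray class characters. -/
theorem density_kerF (F : Type) [Field F] [NumberField F] [IQ F] {K : Type} [Field K] [NumberField K]
    [Algebra F K] (f : Ideal (𝓞 K))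
    (hf : f ≠ ⊥) (hf' : f ≠ ⊤) (Y : Subgroup (H55R.Pl K → ℂˣ)) [Finite Y] (hY : Y ≤ H55R.RC f) :
    ∃ C : ℝ, ∀ s ∈ Set.Ioc (1 : ℝ) 2, H55R.PS {v : H55R.Pl K | ¬ f ≤ v.asIdeal ∧ ∀ φ ∈ Y, φ v = 1} s ≤
      (1 / Nat.card Y : ℝ) * Real.log (1 / (s - 1)) + C := by
  classical
  have := Fintype.ofFinite Y
  obtain ⟨C₂, hC₂⟩ := H55R.log_cmp K
  obtain ⟨C₃, hC₃⟩ := H55R.zeta_log K
  have hb : ∀ φ : Y, ∃ B : ℝ, ∀ s ∈ Set.Ioc (1 : ℝ) 2,
      ∑' v : H55R.Pl K, (H55R.tI f (φ : H55R.Pl K → ℂˣ) v.asIdeal).re * (Ideal.absNorm v.asIdeal : ℝ) ^ (-s) ≤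
        (if φ = 1 then Real.log (1 / (s - 1)) else 0) + B := by
    intro φ
    have hn := H55R.dd_norm_Y Y φ.1 φ.2
    have hh := H55R.dd_norm_tI f φ.1 hn
    by_cases h1 : φ = 1
    · subst h1
      refine ⟨C₂ + C₃, fun s hs => ?_⟩
      have e1 := (abs_le.1 (hC₂ (H55R.tI f ((1 : Y) : H55R.Pl K → ℂˣ)) hh s hs)).2
      obtain ⟨e2, e3⟩ := hC₃ s hs
      have e4 := (abs_le.1 e3).2
      have e5 := (H55R.euler (H55R.tI f ((1 : Y) : H55R.Pl K → ℂˣ)) hh s hs.1).1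
      have e6 := Real.log_le_log (norm_pos_iff.2 e5) (H55R.den_trivial f s hs.1)
      rw [if_pos rfl]
      linarith
    · have h2 : φ.1 ≠ 1 := fun h => h1 (Subtype.ext h)
      obtain ⟨B, hB⟩ := bddF F f hf φ.1 (hY φ.2) hn h2
      refine ⟨C₂ + Real.log B, fun s hs => ?_⟩
      have e1 := (abs_le.1 (hC₂ (H55R.tI f φ.1) hh s hs)).2
      have e5 := (H55R.euler (H55R.tI f φ.1) hh s hs.1).1
      have e6 := Real.log_le_log (norm_pos_iff.2 e5) (hB s hs)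
      rw [if_neg h1]
      linarith
  choose B hB using hb
  refine ⟨(1 / Nat.card Y : ℝ) * ∑ φ, B φ, fun s hs => ?_⟩
  have hc : (0 : ℝ) < Nat.card Y := by exact_mod_cast Nat.card_pos
  have h1 := H55R.orth f Y s hs.1
  have h2 : (Nat.card Y : ℝ) * H55R.PS {v : H55R.Pl K | ¬ f ≤ v.asIdeal ∧ ∀ φ ∈ Y, φ v = 1} s ≤
      Real.log (1 / (s - 1)) + ∑ φ, B φ := by
    rw [h1]
    refine (Finset.sum_le_sum fun φ _ => hB φ s hs).trans (le_of_eq ?_)
    rw [Finset.sum_add_distrib, Finset.sum_ite_eq' Finset.univ (1 : Y)]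
    simp
  have h3 : H55R.PS {v : H55R.Pl K | ¬ f ≤ v.asIdeal ∧ ∀ φ ∈ Y, φ v = 1} s =
      (1 / Nat.card Y : ℝ) *
        ((Nat.card Y : ℝ) * H55R.PS {v : H55R.Pl K | ¬ f ≤ v.asIdeal ∧ ∀ φ ∈ Y, φ v = 1} s) := by
    field_simp
  rw [h3, ← mul_add]
  exact mul_le_mul_of_nonneg_left h2 (by positivity)

end H55P
end

-- from Lib.H55P.T8
section

open NumberField IsDedekindDomain

namespace H55P

open H55N
open H55B (g)

section pt8

variable {K : Type} [Field K] [NumberField K]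

theorem pt8_pow (v : H55R.Pl K) : ∃ q f : ℕ, q.Prime ∧ 0 < f ∧ Ideal.absNorm v.asIdeal = q ^ f ∧
    (q : 𝓞 K) ∈ v.asIdeal := by
  have hm : v.asIdeal.IsMaximal := v.isMaximal
  have h0 : Ideal.absNorm v.asIdeal ≠ 0 := fun h => v.ne_bot (Ideal.absNorm_eq_zero_iff.1 h)
  let _ : Field (𝓞 K ⧸ v.asIdeal) := Ideal.Quotient.field v.asIdeal
  have hfin : Finite (𝓞 K ⧸ v.asIdeal) := by
    apply Nat.finite_of_card_ne_zero
    exact h0
  let _ : Fintype (𝓞 K ⧸ v.asIdeal) := Fintype.ofFinite _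
  obtain ⟨q, hq⟩ := CharP.exists (𝓞 K ⧸ v.asIdeal)
  obtain ⟨n, hp, hc⟩ := FiniteField.card (𝓞 K ⧸ v.asIdeal) q
  refine ⟨q, n, hp, n.pos, ?_, ?_⟩
  · show Nat.card (𝓞 K ⧸ v.asIdeal) = _
    rw [Nat.card_eq_fintype_card, hc]
  · rw [← Ideal.Quotient.eq_zero_iff_mem, map_natCast]
    exact CharP.cast_eq_zero _ q

/-- The primes above a rational prime. -/
theorem pt8_count (q : ℕ) (hq : q.Prime) (U : Finset (H55R.Pl K))
    (hU : ∀ v ∈ U, (q : 𝓞 K) ∈ v.asIdeal) (hU2 : ∀ v ∈ U, q ≤ Ideal.absNorm v.asIdeal) :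
    U.card ≤ Module.finrank ℚ K := by
  classical
  have h1 : ∏ v ∈ U, v.asIdeal ∣ Ideal.span {(q : 𝓞 K)} := by
    apply Finset.prod_dvd_of_coprime
    · intro v _ w _ hvw
      refine Ideal.isCoprime_of_isMaximal ?_
      intro h
      exact hvw (HeightOneSpectrum.ext h)
    · intro v hv
      rw [Ideal.dvd_span_singleton]
      exact hU v hv
  have h2 := map_dvd Ideal.absNorm h1
  rw [map_prod] at h2
  have h3 : Ideal.absNorm (Ideal.span {(q : 𝓞 K)}) = q ^ Module.finrank ℚ K := by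
    rw [Ideal.absNorm_span_singleton]
    have h4 := Algebra.norm_algebraMap (S := 𝓞 K) (q : ℤ)
    rw [map_natCast, RingOfIntegers.rank] at h4
    rw [h4, Int.natAbs_pow, Int.natAbs_natCast]
  rw [h3] at h2
  have h5 : ∏ v ∈ U, q ≤ ∏ v ∈ U, Ideal.absNorm v.asIdeal := Finset.prod_le_prod' hU2
  rw [Finset.prod_const] at h5
  have h6 := Nat.le_of_dvd (pow_pos hq.pos _) h2
  exact (Nat.pow_le_pow_iff_right hq.one_lt).1 (h5.trans h6)

theorem pt8_norm (q : ℕ) :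
    Ideal.absNorm (Ideal.span {(q : 𝓞 K)}) = q ^ Module.finrank ℚ K := by
  rw [Ideal.absNorm_span_singleton]
  have h4 := Algebra.norm_algebraMap (S := 𝓞 K) (q : ℤ)
  rw [map_natCast, RingOfIntegers.rank] at h4
  rw [h4, Int.natAbs_pow, Int.natAbs_natCast]

theorem pt8_one_le (v : H55R.Pl K) : (1 : ℝ) ≤ (Ideal.absNorm v.asIdeal : ℝ) := by
  have h0 : Ideal.absNorm v.asIdeal ≠ 0 := fun h => v.ne_bot (Ideal.absNorm_eq_zero_iff.1 h)
  exact_mod_cast Nat.one_le_iff_ne_zero.2 h0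

theorem pt8_summable (s : ℝ) (hs : 1 < s) :
    Summable fun v : H55R.Pl K => (Ideal.absNorm v.asIdeal : ℝ) ^ (-s) :=
  (H55N.ideal_summable (K := K) s hs).comp_injective (i := fun v : H55R.Pl K => v.asIdeal)
    fun _ _ h => HeightOneSpectrum.ext h

theorem pt8_sum (S : Set (H55R.Pl K)) (s : ℝ) (hs : 1 < s) :
    Summable (S.indicator fun v : H55R.Pl K => (Ideal.absNorm v.asIdeal : ℝ) ^ (-s)) :=
  (pt8_summable s hs).indicator S

theorem pt8_mono {S T : Set (H55R.Pl K)} (h : S ⊆ T) (s : ℝ) (hs : 1 < s) :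
    H55R.PS S s ≤ H55R.PS T s := by
  unfold H55R.PS
  refine (pt8_sum S s hs).tsum_le_tsum (fun v => ?_) (pt8_sum T s hs)
  exact Set.indicator_le_indicator_of_subset h (fun v => by positivity) v

theorem pt8_nonneg (S : Set (H55R.Pl K)) (s : ℝ) : 0 ≤ H55R.PS S s := by
  unfold H55R.PS
  exact tsum_nonneg fun v => Set.indicator_nonneg (fun v _ => by positivity) v

theorem pt8_union (S T : Set (H55R.Pl K)) (s : ℝ) (hs : 1 < s) :
    H55R.PS (S ∪ T) s ≤ H55R.PS S s + H55R.PS T s := by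
  have h1 : H55R.PS (S ∪ T) s + H55R.PS (S ∩ T) s = H55R.PS S s + H55R.PS T s := by
    unfold H55R.PS
    rw [← (pt8_sum (S ∪ T) s hs).tsum_add (pt8_sum (S ∩ T) s hs),
      ← (pt8_sum S s hs).tsum_add (pt8_sum T s hs)]
    exact tsum_congr fun v => Set.indicator_union_add_inter_apply _ S T v
  have h2 := pt8_nonneg (S ∩ T) s
  linarith

theorem pt8_fin {S : Set (H55R.Pl K)} (hS : S.Finite) (s : ℝ) (hs : 1 < s) :
    H55R.PS S s ≤ hS.toFinset.card := by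
  unfold H55R.PS
  rw [tsum_eq_sum (s := hS.toFinset) fun v hv => by
    rw [Set.indicator_of_notMem]
    exact fun h => hv (hS.mem_toFinset.2 h)]
  have h1 : ∀ v ∈ hS.toFinset, S.indicator (fun v : H55R.Pl K => (Ideal.absNorm v.asIdeal : ℝ) ^ (-s)) v ≤
      1 := by
    intro v hv
    rw [Set.indicator_of_mem (hS.mem_toFinset.1 hv)]
    apply Real.rpow_le_one_of_one_le_of_nonpos (pt8_one_le v)
    linarith
  calc _ ≤ ∑ v ∈ hS.toFinset, (1 : ℝ) := Finset.sum_le_sum h1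
    _ = _ := by simp

/-- The primes whose norm is not a prime number. -/
theorem pt8_np : ∃ C : ℝ, ∀ s : ℝ, 1 < s →
    H55R.PS {v : H55R.Pl K | ¬ (Ideal.absNorm v.asIdeal).Prime} s ≤ C := by
  classical
  have hz : Summable fun q : ℕ => (Module.finrank ℚ K : ℝ) * ((q : ℝ) ^ 2)⁻¹ :=
    (Real.summable_nat_pow_inv.2 one_lt_two).mul_left _
  refine ⟨∑' q : ℕ, (Module.finrank ℚ K : ℝ) * ((q : ℝ) ^ 2)⁻¹, fun s hs => ?_⟩
  unfold H55R.PS
  refine (pt8_sum _ s hs).tsum_le_of_sum_le fun U => ?_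
  choose q f hq hf hn hm using fun v : H55R.Pl K => pt8_pow v
  have h1 : ∑ v ∈ U, ({v : H55R.Pl K | ¬ (Ideal.absNorm v.asIdeal).Prime}.indicator
      (fun v => (Ideal.absNorm v.asIdeal : ℝ) ^ (-s))) v =
      ∑ r ∈ U.image q, ∑ v ∈ U with q v = r, ({v : H55R.Pl K | ¬ (Ideal.absNorm v.asIdeal).Prime}.indicator
      (fun v => (Ideal.absNorm v.asIdeal : ℝ) ^ (-s))) v := by
    rw [Finset.sum_fiberwise_of_maps_to]
    intro v hv
    exact Finset.mem_image_of_mem q hv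
  rw [h1]
  have h2 : ∀ v : H55R.Pl K, ({v : H55R.Pl K | ¬ (Ideal.absNorm v.asIdeal).Prime}.indicator
      (fun v => (Ideal.absNorm v.asIdeal : ℝ) ^ (-s))) v ≤ ((q v : ℝ) ^ 2)⁻¹ := by
    intro v
    by_cases hv : (Ideal.absNorm v.asIdeal).Prime
    · rw [Set.indicator_of_notMem (show v ∉ {v : H55R.Pl K | ¬ (Ideal.absNorm v.asIdeal).Prime} from
        fun h => h hv)]
      positivity
    · rw [Set.indicator_of_mem (show v ∈ {v : H55R.Pl K | ¬ (Ideal.absNorm v.asIdeal).Prime} from hv)]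
      have h3 : 2 ≤ f v := by
        by_contra h4
        have h5 : f v = 1 := by
          have := hf v
          omega
        apply hv
        rw [hn v, h5, pow_one]
        exact hq v
      have h6 : (Ideal.absNorm v.asIdeal : ℝ) ^ (-s) ≤ (Ideal.absNorm v.asIdeal : ℝ) ^ (-(1 : ℝ)) :=
        Real.rpow_le_rpow_of_exponent_le (pt8_one_le v) (by linarith)
      refine h6.trans ?_
      rw [Real.rpow_neg_one, hn v]
      have hq1 : (1 : ℝ) ≤ (q v : ℝ) := by exact_mod_cast (hq v).one_lt.le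
      push_cast
      apply inv_anti₀ (by positivity)
      exact pow_le_pow_right₀ hq1 h3
  have h3 : ∀ r ∈ U.image q, ∑ v ∈ U with q v = r, ({v : H55R.Pl K | ¬ (Ideal.absNorm v.asIdeal).Prime}.indicator
      (fun v => (Ideal.absNorm v.asIdeal : ℝ) ^ (-s))) v ≤ (Module.finrank ℚ K : ℝ) * ((r : ℝ) ^ 2)⁻¹ := by
    intro r hr
    obtain ⟨v₀, -, hv₀⟩ := Finset.mem_image.1 hr
    have hrp : r.Prime := hv₀ ▸ hq v₀
    have h4 : ∀ v ∈ U.filter (fun v => q v = r), ({v : H55R.Pl K | ¬ (Ideal.absNorm v.asIdeal).Prime}.indicator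
      (fun v => (Ideal.absNorm v.asIdeal : ℝ) ^ (-s))) v ≤ ((r : ℝ) ^ 2)⁻¹ := by
      intro v hv
      have h5 := h2 v
      rw [(Finset.mem_filter.1 hv).2] at h5
      exact h5
    refine (Finset.sum_le_sum h4).trans ?_
    rw [Finset.sum_const, nsmul_eq_mul]
    refine mul_le_mul_of_nonneg_right ?_ (by positivity)
    have h6 : (U.filter (fun v => q v = r)).card ≤ Module.finrank ℚ K := by
      apply pt8_count r hrp
      · intro v hv
        have h7 := hm v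
        rw [(Finset.mem_filter.1 hv).2] at h7
        exact h7
      · intro v hv
        have h7 := hn v
        rw [(Finset.mem_filter.1 hv).2] at h7
        rw [h7]
        exact Nat.le_self_pow (hf v).ne' r
    exact_mod_cast h6
  refine (Finset.sum_le_sum h3).trans ?_
  exact hz.sum_le_tsum _ fun r _ => by positivity

theorem pt8_finnorm (S : Set ℕ) (hS : S.Finite) :
    {v : H55R.Pl K | Ideal.absNorm v.asIdeal ∈ S}.Finite := by
  have h1 : {v : H55R.Pl K | Ideal.absNorm v.asIdeal ∈ S} ⊆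
      (fun v : H55R.Pl K => v.asIdeal) ⁻¹' (⋃ n ∈ S, {I : Ideal (𝓞 K) | Ideal.absNorm I = n}) := by
    intro v hv
    simp only [Set.mem_preimage, Set.mem_iUnion, Set.mem_ofPred_eq]
    exact ⟨_, hv, rfl⟩
  refine Set.Finite.subset (Set.Finite.preimage (fun v _ w _ h => HeightOneSpectrum.ext h) ?_) h1
  refine hS.biUnion fun n hn => ?_
  exact Ideal.finite_setOfPred_absNorm_eq n

end pt8

variable {F : Type} [Field F] [NumberField F] [IQ F] {K : Type} [Field K] [NumberField K]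
  [Algebra F K] {m : ℕ}

theorem pt8_log : ∃ C : ℝ, ∀ s ∈ Set.Ioc (1 : ℝ) 2,
    Real.log (1 / (s - 1)) - C ≤ H55R.PS (Set.univ : Set (H55R.Pl K)) s := by
  obtain ⟨C, hC⟩ := H55R.density_split K K
  refine ⟨C, fun s hs => ?_⟩
  have h1 := (abs_le.1 (hC s hs)).1
  rw [Module.finrank_self, Nat.cast_one, div_one, one_mul] at h1
  have h2 := pt8_mono (Set.subset_univ {v : H55R.Pl K | H55R.Spl K K v}) s hs.1
  linarith

theorem pt8_lim {a b D : ℝ}
    (h : ∀ s ∈ Set.Ioc (1 : ℝ) 2, a * Real.log (1 / (s - 1)) ≤ b * Real.log (1 / (s - 1)) + D) :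
    a ≤ b := by
  by_contra hab
  push Not at hab
  set T : ℝ := max 0 (D / (a - b)) + 1 with hT
  have hT1 : 0 < T := by
    have := le_max_left 0 (D / (a - b))
    linarith
  have hab' : 0 < a - b := by linarith
  have hT2 : D < (a - b) * T := by
    have h1 := le_max_right 0 (D / (a - b))
    have h2 : D / (a - b) < T := by linarith
    rw [div_lt_iff₀ hab'] at h2
    linarith
  have h3 := h (1 + Real.exp (-T)) ⟨by linarith [Real.exp_pos (-T)], by
    have := Real.exp_le_one_iff.2 (by linarith : -T ≤ 0)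
    linarith⟩
  rw [add_sub_cancel_left, one_div, ← Real.exp_neg, neg_neg, Real.log_exp] at h3
  linarith

include F in
theorem pt8_infinite (f : Ideal (𝓞 K)) (hf : f ≠ ⊥) (hf' : f ≠ ⊤) (φ : H55R.Pl K → ℂˣ)
    (hφ : φ ∈ H55R.RC f) (h1 : φ ≠ 1) (hfo : IsOfFinOrder φ) (Bad : Set (Ideal (𝓞 K)))
    (hB : Bad.Finite) :
    {q : ℕ | q.Prime ∧ ∃ w : H55R.Pl K, w.asIdeal ∉ Bad ∧ Ideal.absNorm w.asIdeal = q ∧
      ¬ f ≤ w.asIdeal ∧ φ w ≠ 1}.Infinite := by
  classical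
  intro hfin
  have hYf : Finite (Subgroup.zpowers φ) := (finite_zpowers.2 hfo).to_subtype
  have hY : Subgroup.zpowers φ ≤ H55R.RC f := by
    rw [Subgroup.zpowers_le]
    exact hφ
  obtain ⟨C₁, hC₁⟩ := density_kerF F f hf hf' (Subgroup.zpowers φ) hY
  obtain ⟨C₂, hC₂⟩ := pt8_log (K := K)
  obtain ⟨C₃, hC₃⟩ := pt8_np (K := K)
  have hcard : 2 ≤ Nat.card (Subgroup.zpowers φ) := by
    rw [Nat.card_zpowers]
    have e1 : 0 < orderOf φ := orderOf_pos_iff.2 hfo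
    have e2 : orderOf φ ≠ 1 := fun h => h1 (orderOf_eq_one_iff.1 h)
    omega
  have hfF : {v : H55R.Pl K | f ≤ v.asIdeal}.Finite :=
    (Ideal.finite_factors hf).subset fun v hv => Ideal.dvd_iff_le.2 hv
  have hBF : {v : H55R.Pl K | v.asIdeal ∈ Bad}.Finite :=
    Set.Finite.preimage (fun v _ w _ h => HeightOneSpectrum.ext h) hB
  have hSF := pt8_finnorm (K := K) _ hfin
  have hF := (hfF.union hBF).union hSF
  have hcov : (Set.univ : Set (H55R.Pl K)) ⊆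
      ({v : H55R.Pl K | ¬ f ≤ v.asIdeal ∧ ∀ χ ∈ Subgroup.zpowers φ, χ v = 1} ∪
        {v : H55R.Pl K | ¬ (Ideal.absNorm v.asIdeal).Prime}) ∪
      (({v : H55R.Pl K | f ≤ v.asIdeal} ∪ {v : H55R.Pl K | v.asIdeal ∈ Bad}) ∪
        {v : H55R.Pl K | Ideal.absNorm v.asIdeal ∈ {q : ℕ | q.Prime ∧ ∃ w : H55R.Pl K,
          w.asIdeal ∉ Bad ∧ Ideal.absNorm w.asIdeal = q ∧ ¬ f ≤ w.asIdeal ∧ φ w ≠ 1}}) := by
    intro v _
    by_cases hv1 : (Ideal.absNorm v.asIdeal).Prime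
    swap
    · exact Or.inl (Or.inr hv1)
    by_cases hv2 : f ≤ v.asIdeal
    · exact Or.inr (Or.inl (Or.inl hv2))
    by_cases hv3 : v.asIdeal ∈ Bad
    · exact Or.inr (Or.inl (Or.inr hv3))
    by_cases hv4 : φ v = 1
    · refine Or.inl (Or.inl ⟨hv2, fun χ hχ => ?_⟩)
      obtain ⟨k, rfl⟩ := Subgroup.mem_zpowers_iff.1 hχ
      rw [Pi.pow_apply, hv4, one_zpow]
    · exact Or.inr (Or.inr ⟨hv1, v, hv3, rfl, hv2, hv4⟩)
  have hle : (1 : ℝ) ≤ 1 / Nat.card (Subgroup.zpowers φ) := by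
    refine pt8_lim (D := C₁ + C₂ + C₃ + hF.toFinset.card) fun s hs => ?_
    have e1 := hC₁ s hs
    have e2 := hC₂ s hs
    have e3 := hC₃ s hs.1
    have e4 := pt8_mono hcov s hs.1
    have e5 := pt8_union ({v : H55R.Pl K | ¬ f ≤ v.asIdeal ∧ ∀ χ ∈ Subgroup.zpowers φ, χ v = 1} ∪
        {v : H55R.Pl K | ¬ (Ideal.absNorm v.asIdeal).Prime})
      (({v : H55R.Pl K | f ≤ v.asIdeal} ∪ {v : H55R.Pl K | v.asIdeal ∈ Bad}) ∪
        {v : H55R.Pl K | Ideal.absNorm v.asIdeal ∈ {q : ℕ | q.Prime ∧ ∃ w : H55R.Pl K,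
          w.asIdeal ∉ Bad ∧ Ideal.absNorm w.asIdeal = q ∧ ¬ f ≤ w.asIdeal ∧ φ w ≠ 1}}) s hs.1
    have e6 := pt8_union {v : H55R.Pl K | ¬ f ≤ v.asIdeal ∧ ∀ χ ∈ Subgroup.zpowers φ, χ v = 1}
        {v : H55R.Pl K | ¬ (Ideal.absNorm v.asIdeal).Prime} s hs.1
    have e7 := pt8_fin hF s hs.1
    linarith
  have hc2 : (2 : ℝ) ≤ Nat.card (Subgroup.zpowers φ) := by exact_mod_cast hcard
  rw [le_div_iff₀ (by linarith)] at hle
  linarith

/-! Chunk PT8 (M). Smoothing primes.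
PROOF. g = span {p} * mK K M, φ from exists_theta, Y = Subgroup.zpowers φ (finite, card >= 2, <= RC g). density_kerF: the primes v with not g <= v and φ v = 1 (all of Y is 1 iff φ v = 1) have PS <= (1/2) log(1/(s-1)) + C on (1,2]. The sum over all primes of
Nv^(-s) is >= log(1/(s-1)) - C' (density_split K K, or zeta_log and log_cmp with the trivial character). The primes whose norm is not a prime number: over each rational prime there are at most n = [K:ℚ] primes, and Nv >= p^2 for these, so the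
sum of Nv^(-s) over them is at most n * sum p^(-2) < infinity (or: Nv = q^f, f >= 2; Summable over Nat of n^(-2) with fibres at most ..., e.g. from D5_card_le with base field ℚ (D5_T (L := K) for primes of ℚ), or number of ideals of prime power norm). The
primes in a finite set or containing g (finitely many) contribute at most a constant. Suppose that only finitely many rational primes q are norms of primes w not in Bad with φ w <> 1, not g <= w. Then all primes outside a set of bounded PS have φ = 1, so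
log(1/(s-1)) <= (1/2) log(1/(s-1)) + const on (1,2], contradiction as s -> 1 (X10_lim in H55R/X10.lean). So the set of such q is infinite; conclude as in exists_smooth of Lib/H55N/S4.lean. -/

theorem exists_smoothP (p : ℕ) (hp : p.Prime) {M : Ideal (𝓞 F)} {ψ : Ideal (𝓞 F) →*₀ 𝓞 F}
    (h : IsHecke M ψ) (hMp : IsCoprime M (Ideal.span {(p : 𝓞 F)})) (V : ValuationSubring ℂ)
    (hV : V.valuation (p : ℂ) < 1) (hNT : NTP K p M ψ V) (m : ℕ) (Bad : Set (Ideal (𝓞 K)))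
    (hB : Bad.Finite) :
    ∃ (c : Fin (m + 1) × Fin 2 → Ideal (𝓞 K)) (q : Fin (m + 1) × Fin 2 → ℕ), Smooth c q ∧
      (∀ i, (c i).IsPrime ∧ c i ∉ Bad) ∧ ∀ i, V.valuation (1 - PsiP K ψ (c i)) = 1 := by
  classical
  obtain ⟨φ, hφ, hφ1, hfo, hval⟩ := exists_theta p hp h hMp V hV hNT
  have hpK : (p : 𝓞 K) ≠ 0 := by
    exact_mod_cast hp.ne_zero
  have hf : Ideal.span {(p : 𝓞 K)} * mK K M ≠ ⊥ := by
    apply mul_ne_zero
    · rw [Ne, Ideal.zero_eq_bot, Ideal.span_singleton_eq_bot]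
      exact hpK
    · intro h0
      apply h.ne
      exact (Ideal.map_eq_bot_iff_of_injective (FaithfulSMul.algebraMap_injective (𝓞 F) (𝓞 K))).1 h0
  have hf' : Ideal.span {(p : 𝓞 K)} * mK K M ≠ ⊤ := by
    intro h0
    have h01 : Ideal.span {(p : 𝓞 K)} * mK K M ≤ Ideal.span {(p : 𝓞 K)} := Ideal.mul_le_left
    rw [h0] at h01
    have h1 : Ideal.span {(p : 𝓞 K)} = ⊤ := top_le_iff.1 h01
    have h2 := pt8_norm (K := K) p
    rw [h1, Ideal.absNorm_top] at h2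
    have h3 : 1 < p ^ Module.finrank ℚ K := Nat.one_lt_pow Module.finrank_pos.ne' hp.one_lt
    omega
  have hS := pt8_infinite (F := F) _ hf hf' φ hφ hφ1 hfo Bad hB
  set S := {q : ℕ | q.Prime ∧ ∃ w : H55R.Pl K, w.asIdeal ∉ Bad ∧ Ideal.absNorm w.asIdeal = q ∧
      ¬ Ideal.span {(p : 𝓞 K)} * mK K M ≤ w.asIdeal ∧ φ w ≠ 1} with hSdef
  let f : Fin (m + 1) × Fin 2 → ℕ := fun i => (hS.natEmbedding S (Encodable.encode i) : ℕ)
  have hfi : Function.Injective f := by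
    intro i j hij
    exact Encodable.encode_injective ((hS.natEmbedding S).injective (Subtype.ext hij))
  have hfS : ∀ i, f i ∈ S := fun i => (hS.natEmbedding S (Encodable.encode i)).2
  choose hp w hwB hwn hw1 hw2 using hfS
  exact ⟨fun i => (w i).asIdeal, f, ⟨hwn, hp, hfi⟩, fun i => ⟨(w i).isPrime, hwB i⟩,
    fun i => hval (w i) (hw1 i) (hw2 i)⟩

end H55P
end

-- from Lib.H55P.T9
section

open NumberField IsDedekindDomain

namespace H55P

open H55N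
open H55B (g)

variable {F : Type} [Field F] [NumberField F] [IQ F] {K : Type} [Field K] [NumberField K]
  [Algebra F K] {m : ℕ}

/-! Chunk PT9 (M/L). The twisted L-value; PORT of LV_twist in Lib/H55N/TWF.lean (see also LVT_twist in Lib/H19T/TWF.lean) at a fixed V. Data: l from IsHecke.toMod; J = mK K M * f, g = span {p} * J, exists_CDJ J g (J <> top because M <> top: mK K M <> top since relNorm / a prime above);
hlam: c₀ i is not in span {l} * b i: there is a prime w of K containing l, mK K M * f <= mK K M <= (l) <= w, hprim. core and nopoles of H55P/Core.lean, exists_smoothP, exists_kappaP, series_eqP twice, series_eq0P, glue, ident (H55N/TW1.lean), one_sumP, P_neP, factorP, EfacP.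
The comparison at s = 1: κ i = κ' i + κ' i (ζ i - 1), V(ζ i - 1) < 1 (root_max), V(Z i 1 / Om^n) <= 1 from core, V(absNorm) <= 1. The sum for κ' is a unit at V by (one_sumP, ident): smoothing factors (factorP) times Euler factors (EfacP: primes w containing f are prime to p: hχ.cop) times
Λ(1)/Om^n. -/

theorem pt9_above (K : Type) [Field K] [NumberField K] [Algebra F K]
    (v : HeightOneSpectrum (𝓞 F)) :
    ∃ w : HeightOneSpectrum (𝓞 K), v.asIdeal = w.asIdeal.comap (algebraMap (𝓞 F) (𝓞 K)) := by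
  have hint : Algebra.IsIntegral (𝓞 F) (𝓞 K) := inferInstance
  have hinj : Function.Injective (algebraMap (𝓞 F) (𝓞 K)) := FaithfulSMul.algebraMap_injective _ _
  have := v.isPrime
  obtain ⟨Q, hQ, hQv⟩ := Ideal.exists_ideal_over_prime_of_isIntegral_of_isDomain
    (S := 𝓞 K) v.asIdeal (by
      rw [(RingHom.injective_iff_ker_eq_bot _).1 hinj]
      exact bot_le)
  have hQb : Q ≠ ⊥ := by
    rintro rfl
    apply v.ne_bot
    rw [← hQv, ← RingHom.ker_eq_comap_bot]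
    exact (RingHom.injective_iff_ker_eq_bot _).1 hinj
  exact ⟨⟨Q, hQ, hQb⟩, hQv.symm⟩

theorem pt9_prime (K : Type) [Field K] [NumberField K] [Algebra F K] {p : ℕ} {M : Ideal (𝓞 F)}
    {l : 𝓞 F} (hl : Mod p M l) : ∃ w : HeightOneSpectrum (𝓞 K),
      algebraMap (𝓞 F) (𝓞 K) l ∈ w.asIdeal ∧ mK K M ≤ w.asIdeal := by
  let v : HeightOneSpectrum (𝓞 F) := ⟨Ideal.span {l},
    (Ideal.span_singleton_prime hl.prime.ne_zero).2 hl.prime, by simpa using hl.prime.ne_zero⟩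
  obtain ⟨w, hw⟩ := pt9_above K v
  refine ⟨w, ?_, ?_⟩
  · have h2 : l ∈ v.asIdeal := Ideal.mem_span_singleton_self _
    rw [hw] at h2
    exact h2
  · unfold mK
    rw [Ideal.map_le_iff_le_comap, ← hw]
    exact hl.le

theorem pt9_mK_ne {M : Ideal (𝓞 F)} (hM : M ≠ ⊥) : mK K M ≠ ⊥ := by
  have hinj : Function.Injective (algebraMap (𝓞 F) (𝓞 K)) := FaithfulSMul.algebraMap_injective _ _
  unfold mK
  rw [Ne, Ideal.map_eq_bot_iff_of_injective hinj]
  exact hM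

theorem pt9_finite (b : Ideal (𝓞 K)) (hb : b ≠ ⊥) : {w : Ideal (𝓞 K) | b ≤ w}.Finite := by
  refine (Ideal.finite_setOfPred_absNorm_le (S := 𝓞 K) (Ideal.absNorm b)).subset ?_
  intro w hw
  have h1 : w ∣ b := Ideal.dvd_iff_le.2 hw
  have h2 : Ideal.absNorm w ∣ Ideal.absNorm b := map_dvd _ h1
  refine Nat.le_of_dvd (Nat.pos_of_ne_zero ?_) h2
  rw [Ne, Ideal.absNorm_eq_zero_iff]
  exact hb

theorem pt9_nat (V : ValuationSubring ℂ) (n : ℕ) : V.valuation (n : ℂ) ≤ 1 :=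
  (V.valuation_le_one_iff _).2 (natCast_mem V n)

theorem LVP_twist (p : ℕ) (hp : p.Prime) {M : Ideal (𝓞 F)} {ψ : Ideal (𝓞 F) →*₀ 𝓞 F}
    (h : IsHecke M ψ) (hMp : IsCoprime M (Ideal.span {(p : 𝓞 F)})) (hK : UnrP p K)
    (Ac Bc Om : ℂ) (hper : Per F Ac Bc Om) (V : ValuationSubring ℂ)
    (hV : V.valuation (p : ℂ) < 1) (hg : GoodV Ac Bc V) (hNT : NTP K p M ψ V) (f : Ideal (𝓞 K))
    (χ : Ideal (𝓞 K) →*₀ ℂ) (hχ : PChr p f χ)
    (hf : ∀ w : HeightOneSpectrum (𝓞 K), f ≤ w.asIdeal →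
      V.valuation (1 - (starRingEnd ℂ) (PsiP K ψ w.asIdeal)) = 1)
    (hL : LVP F V Om (PsiP K ψ)) : LVP F V Om (PsiP K ψ * χ : Ideal (𝓞 K) →*₀ ℂ) := by
  classical
  obtain ⟨l, hl⟩ := h.toMod p hMp
  obtain ⟨w0, hw0l, hw0M⟩ := pt9_prime K hl
  obtain ⟨m, hm⟩ : ∃ m, Module.finrank F K = m + 1 :=
    ⟨Module.finrank F K - 1, (Nat.sub_add_cancel Module.finrank_pos).symm⟩
  have hJM : mK K M * f ≤ mK K M := Ideal.mul_le_left
  have hJ0 : mK K M * f ≠ ⊥ := mul_ne_zero (pt9_mK_ne h.ne) hχ.ne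
  have hJ1 : mK K M * f ≠ ⊤ := by
    intro h1
    apply w0.isPrime.ne_top
    rw [← top_le_iff, ← h1]
    exact hJM.trans hw0M
  have hg0 : Ideal.span {(p : 𝓞 K)} * (mK K M * f) ≠ ⊥ := by
    refine mul_ne_zero ?_ hJ0
    have h1 : Ideal.span {(p : 𝓞 K)} ≠ ⊥ := by
      rw [Ne, Ideal.span_singleton_eq_bot, Nat.cast_eq_zero]
      exact hp.ne_zero
    exact h1
  have hgJ : Ideal.span {(p : 𝓞 K)} * (mK K M * f) ≤ mK K M * f := Ideal.mul_le_right
  obtain ⟨ι, hι, b, c₀, T, hcd⟩ := exists_CDJ (mK K M * f) (Ideal.span {(p : 𝓞 K)} * (mK K M * f))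
    hJ0 hg0 hgJ hJ1
  have hbp : ∀ i, IsCoprime (b i) (Ideal.span {(p : 𝓞 K)}) := fun i =>
    (hcd.cop i).of_mul_right_left
  have hlam : ∀ i, c₀ i ∉ Ideal.span {algebraMap (𝓞 F) (𝓞 K) l} * b i := by
    intro i hi
    refine hcd.prim i w0 (hJM.trans hw0M) (Ideal.mul_mono_left ?_ hi)
    rw [Ideal.span_singleton_le_iff_mem]
    exact hw0l
  have hcore := fun i => core p hp hl K m hm hK (b i) f (hcd.ne i) (hbp i) hχ.ne hχ.cop (c₀ i)
    (hcd.mem i) (hlam i)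
  choose Bad hBad hcore using hcore
  have hnop := fun i => nopoles p hp hl K m hm (b i) f (hcd.ne i) hχ.ne (c₀ i) (hcd.mem i) (hlam i)
  choose Z0 hZ0 hZ0s using hnop
  obtain ⟨c, q, hs, hcb, hun⟩ := exists_smoothP p hp h hMp V hV hNT m
    ((⋃ i, Bad i) ∪ ⋃ i, {w : Ideal (𝓞 K) | b i ≤ w})
    ((Set.finite_iUnion hBad).union (Set.finite_iUnion fun i => pt9_finite (b i) (hcd.ne i)))
  have hcp : ∀ j, (c j).IsPrime := fun j => (hcb j).1
  have hbc : ∀ i j, IsCoprime (b i) (c j) := by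
    intro i j
    rw [Ideal.isCoprime_iff_sup_eq]
    by_contra h
    have hmax : (c j).IsMaximal := (hcp j).isMaximal (pt3_ne hs j)
    have h1 : c j ≤ b i ⊔ c j := le_sup_right
    have h2 : b i ⊔ c j = c j := (hmax.eq_of_le h h1).symm
    apply (hcb j).2
    refine Or.inr (Set.mem_iUnion.2 ⟨i, ?_⟩)
    show b i ≤ c j
    rw [← h2]
    exact le_sup_left
  have hZex := fun i => hcore i c q hs (fun j hj => (hcb j).2 (Or.inl (Set.mem_iUnion.2 ⟨i, hj⟩)))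
  choose Z hZa hZs hZi using hZex
  have hkap := fun i => exists_kappaP p hp h hMp f χ hχ (b i) (hcd.ne i) (hcd.cop i) (c₀ i)
    (hcd.mem i) (hcd.prim i)
  choose κ κ' ζ hκu hζ hκζ hκ using hkap
  have hC : CoefP F (mK K M * f) ι b c₀ (PsiP K ψ * χ) κ := coef_mulP h hχ.zero
    (fun a => hχ.norm_le hp.ne_zero a)
    (fun i x hx a ha => ⟨(hκ i x hx a ha).1, (hκ i x hx a ha).2.1⟩)
  have hC' : CoefP F (mK K M * f) ι b c₀ (PsiP K ψ * oneI f) κ' := coef_mulP h (pt3_oneI_zero f)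
    (pt3_oneI_norm_le f)
    (fun i x hx a ha => ⟨(hκ i x hx a ha).1, (hκ i x hx a ha).2.2⟩)
  have hNb : ∀ i, Ideal.absNorm (b i) ≠ 0 := fun i => by
    rw [Ne, Ideal.absNorm_eq_zero_iff]
    exact hcd.ne i
  -- the smoothed functions
  have hZsum : ∀ i s, 3 / 2 < s.re → HasSum (fun x : T i => gw c q x * nf F s (x : 𝓞 K)) (Z i s) :=
    fun i s hs' => hZs i (T i) (hcd.trans i) s hs'
  have e1 : ∀ s : ℂ, 3 / 2 < s.re →
      (∏ j, (1 - (q j : ℂ) * tm (PsiP K ψ * χ : Ideal (𝓞 K) →*₀ ℂ) s (c j))) *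
      ∑' a, tm (PsiP K ψ * χ : Ideal (𝓞 K) →*₀ ℂ) s a =
        ∑ i, κ i * (Ideal.absNorm (b i) : ℂ) ^ s * Z i s :=
    fun s hs' => series_eqP hgJ hJ1 hcd hC hs hcp hbc Z s hs' fun i => hZsum i s hs'
  have e2 : ∀ s : ℂ, 3 / 2 < s.re →
      (∏ j, (1 - (q j : ℂ) * tm (PsiP K ψ * oneI f : Ideal (𝓞 K) →*₀ ℂ) s (c j))) *
      ∑' a, tm (PsiP K ψ * oneI f : Ideal (𝓞 K) →*₀ ℂ) s a =
        ∑ i, κ' i * (Ideal.absNorm (b i) : ℂ) ^ s * Z i s :=
    fun s hs' => series_eqP hgJ hJ1 hcd hC' hs hcp hbc Z s hs' fun i => hZsum i s hs'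
  have e3 : ∀ s : ℂ, 3 / 2 < s.re → HasSum (tm (PsiP K ψ * χ : Ideal (𝓞 K) →*₀ ℂ) s)
      (∑ i, κ i * (Ideal.absNorm (b i) : ℂ) ^ s * Z0 i s) :=
    fun s hs' => series_eq0P hgJ hJ1 hcd hC Z0 s fun i => hZ0s i (T i) (hcd.trans i) s hs'
  have hGa : ∀ κ : ι → ℂ, AnalyticOnNhd ℂ
      (fun s : ℂ => ∑ i, κ i * (Ideal.absNorm (b i) : ℂ) ^ s * Z i s) {s | 1 / 2 < s.re} := by
    intro κ s hs'
    exact Finset.analyticAt_fun_sum _ fun i _ =>
      (analyticAt_const.mul (pt3_pow_analytic _ (hNb i) Set.univ s trivial)).mul (hZa i s hs')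
  have hZ0a : AnalyticOnNhd ℂ
      (fun s : ℂ => ∑ i, κ i * (Ideal.absNorm (b i) : ℂ) ^ s * Z0 i s)
      {s | 3 / 2 - 1 / (2 * (m + 1 : ℝ)) < s.re} := by
    intro s hs'
    exact Finset.analyticAt_fun_sum _ fun i _ =>
      (analyticAt_const.mul (pt3_pow_analytic _ (hNb i) Set.univ s trivial)).mul (hZ0 i s hs')
  have hPa : ∀ h : Ideal (𝓞 K) →*₀ ℂ, AnalyticOnNhd ℂ
      (fun s : ℂ => ∏ j, (1 - (q j : ℂ) * tm h s (c j))) {s | 1 / 2 < s.re} := by
    intro h s hs'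
    exact Finset.analyticAt_fun_prod _ fun j _ =>
      (analyticAt_const.sub (analyticAt_const.mul
        (pt3_tm_analytic h (c j) (pt3_ne hs j) Set.univ s trivial)))
  obtain ⟨Λ, hΛa, hΛ, hΛG⟩ := glue (1 / (2 * (m + 1 : ℝ))) (by positivity)
    (fun s : ℂ => ∑ i, κ i * (Ideal.absNorm (b i) : ℂ) ^ s * Z i s)
    (fun s : ℂ => ∑ i, κ i * (Ideal.absNorm (b i) : ℂ) ^ s * Z0 i s)
    (fun s : ℂ => ∏ j, (1 - (q j : ℂ) * tm (PsiP K ψ * χ : Ideal (𝓞 K) →*₀ ℂ) s (c j)))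
    (hGa κ) hZ0a (hPa _)
    (fun s hs' => Finset.prod_ne_zero_iff.2 fun j _ => P_neP h p hp f χ hχ (c j) (q j) (hs.prime j)
      (hs.norm j) s hs')
    (fun s hs' => by
      show _ = _ * _
      rw [← e1 s hs', (e3 s hs').tsum_eq])
  refine ⟨Λ, hΛa, fun s hs' => ?_, ?_⟩
  · rw [hΛ s hs']
    exact e3 s hs'
  -- the value at 1
  obtain ⟨ΛK, hKa, hKs, hKu⟩ := hL
  obtain ⟨S, hS, hSs⟩ := one_sumP h f hχ.ne
  have e4 : ∀ s : ℂ, 1 / 2 < s.re →
      (∑ i, κ' i * (Ideal.absNorm (b i) : ℂ) ^ s * Z i s) =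
      (∏ j, (1 - (q j : ℂ) * tm (PsiP K ψ * oneI f : Ideal (𝓞 K) →*₀ ℂ) s (c j))) *
        ((∏ w ∈ S, (1 - tm (PsiP K ψ) s w.asIdeal)) * ΛK s) := by
    intro s hs'
    refine ident (fun s : ℂ => ∑ i, κ' i * (Ideal.absNorm (b i) : ℂ) ^ s * Z i s)
      (fun s : ℂ => (∏ j, (1 - (q j : ℂ) * tm (PsiP K ψ * oneI f : Ideal (𝓞 K) →*₀ ℂ) s (c j))) *
        ((∏ w ∈ S, (1 - tm (PsiP K ψ) s w.asIdeal)) * ΛK s)) (hGa κ') ?_ ?_ s hs'
    · refine (hPa _).mul (AnalyticOnNhd.mul ?_ hKa)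
      intro z hz
      exact Finset.analyticAt_fun_prod _ fun w _ =>
        (analyticAt_const.sub (pt3_tm_analytic (PsiP K ψ) w.asIdeal w.ne_bot Set.univ z trivial))
    · intro z hz
      show _ = _ * (_ * _)
      rw [← e2 z hz, (hSs z hz).tsum_eq, (hKs z hz).tsum_eq]
  have h1re : (1 / 2 : ℝ) < (1 : ℂ).re := by norm_num
  have u1 : V.valuation (∏ j, (1 - (q j : ℂ) * tm (PsiP K ψ * χ : Ideal (𝓞 K) →*₀ ℂ) 1 (c j))) = 1 := by
    rw [map_prod]
    refine Finset.prod_eq_one fun j _ => factorP p hp V hV ψ χ (c j) (q j) (hs.prime j) (hs.norm j)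
      (hun j) ?_
    by_cases hj : IsCoprime (c j) f
    · exact Or.inl (hχ.val _ (pt3_ne hs j) hj)
    · exact Or.inr (hχ.zero _ hj)
  have u2 : V.valuation
      (∏ j, (1 - (q j : ℂ) * tm (PsiP K ψ * oneI f : Ideal (𝓞 K) →*₀ ℂ) 1 (c j))) = 1 := by
    rw [map_prod]
    refine Finset.prod_eq_one fun j _ => factorP p hp V hV ψ (oneI f) (c j) (q j) (hs.prime j)
      (hs.norm j) (hun j) ?_
    rcases pt3_oneI_eq f (c j) with h | h
    · exact Or.inl (by rw [h, one_pow])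
    · exact Or.inr h
  have u3 : V.valuation (∏ w ∈ S, (1 - tm (PsiP K ψ) 1 w.asIdeal)) = 1 := by
    rw [map_prod]
    refine Finset.prod_eq_one fun w hw => EfacP p hp V hV h w ?_ (hf w ((hS w).1 hw))
    have h1 := hχ.cop
    rw [Ideal.isCoprime_iff_sup_eq] at h1 ⊢
    rw [← top_le_iff, ← h1]
    exact sup_le_sup_right ((hS w).1 hw) _
  have u4 : V.valuation ((∑ i, κ' i * (Ideal.absNorm (b i) : ℂ) ^ (1 : ℂ) * Z i 1) /
      Om ^ Module.finrank F K) = 1 := by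
    rw [e4 1 h1re, mul_div_assoc, mul_div_assoc, map_mul, map_mul, u2, u3, hKu, one_mul, one_mul]
  have u5 : V.valuation ((∑ i, κ i * (Ideal.absNorm (b i) : ℂ) ^ (1 : ℂ) * Z i 1) /
      Om ^ Module.finrank F K) = 1 := by
    have h2 : (∑ i, κ i * (Ideal.absNorm (b i) : ℂ) ^ (1 : ℂ) * Z i 1) / Om ^ Module.finrank F K =
        (∑ i, κ' i * (ζ i - 1) * ((Ideal.absNorm (b i) : ℕ) : ℂ) * (Z i 1 / Om ^ (m + 1))) +
        (∑ i, κ' i * (Ideal.absNorm (b i) : ℂ) ^ (1 : ℂ) * Z i 1) / Om ^ Module.finrank F K := by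
      rw [hm, Finset.sum_div, Finset.sum_div, ← Finset.sum_add_distrib]
      refine Finset.sum_congr rfl fun i _ => ?_
      rw [hκζ i, Complex.cpow_one]
      ring
    have h3 : V.valuation (∑ i, κ' i * (ζ i - 1) * ((Ideal.absNorm (b i) : ℕ) : ℂ) *
        (Z i 1 / Om ^ (m + 1))) < 1 := by
      refine Valuation.map_sum_lt _ one_ne_zero fun i _ => ?_
      rw [map_mul, map_mul, map_mul, hκu i V hV, one_mul, mul_assoc]
      refine mul_lt_one_of_lt_of_le (root_max p hp V hV (ζ i) (hζ i)) (mul_le_one' (pt9_nat V _) ?_)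
      exact hZi i Ac Bc Om hper V hV hg
    rw [h2, Valuation.map_add_eq_of_lt_right _ (by rw [u4]; exact h3), u4]
  have e5 := hΛG 1 h1re
  have hne : (∏ j, (1 - (q j : ℂ) * tm (PsiP K ψ * χ : Ideal (𝓞 K) →*₀ ℂ) 1 (c j))) ≠ 0 := by
    intro h0
    rw [h0, map_zero] at u1
    exact zero_ne_one u1
  have h6 : Λ 1 / Om ^ Module.finrank F K =
      ((∑ i, κ i * (Ideal.absNorm (b i) : ℂ) ^ (1 : ℂ) * Z i 1) / Om ^ Module.finrank F K) *
      (∏ j, (1 - (q j : ℂ) * tm (PsiP K ψ * χ : Ideal (𝓞 K) →*₀ ℂ) 1 (c j)))⁻¹ := by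
    rw [e5]
    field_simp
  rw [h6, map_mul, map_inv₀, u1, u5, inv_one, mul_one]

end H55P
end

-- from Lib.H55P.I1
section

open NumberField IsDedekindDomain

namespace H55P

open H55N
open H55B (g)

variable {F : Type} [Field F] [NumberField F] [IQ F] {K : Type} [Field K] [NumberField K]
  [Algebra F K] {m : ℕ}

/-! The exact criterion, analytic side: integrality of the L-values, and the twisted L-value is a unit if and only if the
untwisted one is and the Euler factors are. -/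

/-- The L-series of h converges for Re s > 3/2, continues to Re s > 1/2 and its value at 1, divided by
the power of the period, is integral at V. -/
def LVI (F : Type) [Field F] [NumberField F] [IQ F] {K : Type} [Field K] [NumberField K] [Algebra F K]
    (V : ValuationSubring ℂ) (Om : ℂ) (h : Ideal (𝓞 K) →*₀ ℂ) : Prop :=
  ∃ Λ : ℂ → ℂ, AnalyticOnNhd ℂ Λ {s | 1 / 2 < s.re} ∧
    (∀ s : ℂ, 3 / 2 < s.re → HasSum (tm h s) (Λ s)) ∧
    V.valuation (Λ 1 / Om ^ Module.finrank F K) ≤ 1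

/-- The term at 1 of a prime is 0 or the inverse of the conjugate. -/
theorem tm_one (p : ℕ) (hp : p.Prime) (V : ValuationSubring ℂ) (hV : V.valuation (p : ℂ) < 1)
    {M : Ideal (𝓞 F)} {ψ : Ideal (𝓞 F) →*₀ 𝓞 F} (h : IsHecke M ψ) (w : HeightOneSpectrum (𝓞 K))
    (hwp : IsCoprime w.asIdeal (Ideal.span {(p : 𝓞 K)})) :
    V.valuation (1 - tm (PsiP K ψ) 1 w.asIdeal) ≤ 1 ∧
      (V.valuation (1 - tm (PsiP K ψ) 1 w.asIdeal) = 1 ↔
        V.valuation (1 - (starRingEnd ℂ) (PsiP K ψ w.asIdeal)) = 1) := by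
  by_cases h0 : PsiP K ψ w.asIdeal = 0
  · have h1 : tm (PsiP K ψ) 1 w.asIdeal = 0 := by
      unfold tm
      rw [h0, zero_mul]
    rw [h1, h0, map_zero, sub_zero, map_one]
    exact ⟨le_rfl, Iff.rfl⟩
  · have hcop := (PsiP_ne h w.asIdeal w.ne_bot).1 h0
    have hn := PsiP_norm h w.asIdeal w.ne_bot hcop
    have hu := PsiP_unit p hp h w.asIdeal w.ne_bot hcop hwp V hV
    have hc0 : (starRingEnd ℂ) (PsiP K ψ w.asIdeal) ≠ 0 := by
      rw [Ne, map_eq_zero]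
      exact h0
    have hN : (Ideal.absNorm w.asIdeal : ℂ) =
        PsiP K ψ w.asIdeal * (starRingEnd ℂ) (PsiP K ψ w.asIdeal) := by
      rw [Complex.mul_conj, Complex.normSq_eq_norm_sq, hn]
      push_cast
      rfl
    have h1 : 1 - tm (PsiP K ψ) 1 w.asIdeal =
        -((1 - (starRingEnd ℂ) (PsiP K ψ w.asIdeal)) / (starRingEnd ℂ) (PsiP K ψ w.asIdeal)) := by
      unfold tm
      rw [Complex.cpow_neg_one, hN]
      field_simp
      ring
    rw [h1, Valuation.map_neg, map_div₀, hu.2, div_one]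
    refine ⟨?_, Iff.rfl⟩
    exact (Valuation.map_sub _ _ _).trans (max_le (by rw [map_one]) hu.2.le)

/-- THE EXACT CRITERION for one twist. -/
theorem twist_main (p : ℕ) (hp : p.Prime) {M : Ideal (𝓞 F)} {ψ : Ideal (𝓞 F) →*₀ 𝓞 F}
    (h : IsHecke M ψ) (hMp : IsCoprime M (Ideal.span {(p : 𝓞 F)})) (hK : UnrP p K)
    (Ac Bc Om : ℂ) (hper : Per F Ac Bc Om) (V : ValuationSubring ℂ)
    (hV : V.valuation (p : ℂ) < 1) (hg : GoodV Ac Bc V) (hNT : NTP K p M ψ V) (f : Ideal (𝓞 K))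
    (χ : Ideal (𝓞 K) →*₀ ℂ) (hχ : PChr p f χ) :
    ∃ Λ : ℂ → ℂ, AnalyticOnNhd ℂ Λ {s | 1 / 2 < s.re} ∧
      (∀ s : ℂ, 3 / 2 < s.re → HasSum (tm (PsiP K ψ * χ : Ideal (𝓞 K) →*₀ ℂ) s) (Λ s)) ∧
      V.valuation (Λ 1 / Om ^ Module.finrank F K) ≤ 1 ∧
      ∀ ΛK : ℂ → ℂ, AnalyticOnNhd ℂ ΛK {s | 1 / 2 < s.re} →
        (∀ s : ℂ, 3 / 2 < s.re → HasSum (tm (PsiP K ψ) s) (ΛK s)) →
        V.valuation (ΛK 1 / Om ^ Module.finrank F K) ≤ 1 →
        (V.valuation (Λ 1 / Om ^ Module.finrank F K) = 1 ↔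
          V.valuation (ΛK 1 / Om ^ Module.finrank F K) = 1 ∧
          ∀ w : HeightOneSpectrum (𝓞 K), f ≤ w.asIdeal →
            V.valuation (1 - (starRingEnd ℂ) (PsiP K ψ w.asIdeal)) = 1) := by
  classical
  obtain ⟨l, hl⟩ := h.toMod p hMp
  obtain ⟨w0, hw0l, hw0M⟩ := pt9_prime K hl
  obtain ⟨m, hm⟩ : ∃ m, Module.finrank F K = m + 1 :=
    ⟨Module.finrank F K - 1, (Nat.sub_add_cancel Module.finrank_pos).symm⟩
  have hJM : mK K M * f ≤ mK K M := Ideal.mul_le_left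
  have hJ0 : mK K M * f ≠ ⊥ := mul_ne_zero (pt9_mK_ne h.ne) hχ.ne
  have hJ1 : mK K M * f ≠ ⊤ := by
    intro h1
    apply w0.isPrime.ne_top
    rw [← top_le_iff, ← h1]
    exact hJM.trans hw0M
  have hg0 : Ideal.span {(p : 𝓞 K)} * (mK K M * f) ≠ ⊥ := by
    refine mul_ne_zero ?_ hJ0
    have h1 : Ideal.span {(p : 𝓞 K)} ≠ ⊥ := by
      rw [Ne, Ideal.span_singleton_eq_bot, Nat.cast_eq_zero]
      exact hp.ne_zero
    exact h1
  have hgJ : Ideal.span {(p : 𝓞 K)} * (mK K M * f) ≤ mK K M * f := Ideal.mul_le_right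
  obtain ⟨ι, hι, b, c₀, T, hcd⟩ := exists_CDJ (mK K M * f) (Ideal.span {(p : 𝓞 K)} * (mK K M * f))
    hJ0 hg0 hgJ hJ1
  have hbp : ∀ i, IsCoprime (b i) (Ideal.span {(p : 𝓞 K)}) := fun i =>
    (hcd.cop i).of_mul_right_left
  have hlam : ∀ i, c₀ i ∉ Ideal.span {algebraMap (𝓞 F) (𝓞 K) l} * b i := by
    intro i hi
    refine hcd.prim i w0 (hJM.trans hw0M) (Ideal.mul_mono_left ?_ hi)
    rw [Ideal.span_singleton_le_iff_mem]
    exact hw0l
  have hcore := fun i => core p hp hl K m hm hK (b i) f (hcd.ne i) (hbp i) hχ.ne hχ.cop (c₀ i)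
    (hcd.mem i) (hlam i)
  choose Bad hBad hcore using hcore
  have hnop := fun i => nopoles p hp hl K m hm (b i) f (hcd.ne i) hχ.ne (c₀ i) (hcd.mem i) (hlam i)
  choose Z0 hZ0 hZ0s using hnop
  obtain ⟨c, q, hs, hcb, hun⟩ := exists_smoothP p hp h hMp V hV hNT m
    ((⋃ i, Bad i) ∪ ⋃ i, {w : Ideal (𝓞 K) | b i ≤ w})
    ((Set.finite_iUnion hBad).union (Set.finite_iUnion fun i => pt9_finite (b i) (hcd.ne i)))
  have hcp : ∀ j, (c j).IsPrime := fun j => (hcb j).1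
  have hbc : ∀ i j, IsCoprime (b i) (c j) := by
    intro i j
    rw [Ideal.isCoprime_iff_sup_eq]
    by_contra h
    have hmax : (c j).IsMaximal := (hcp j).isMaximal (pt3_ne hs j)
    have h1 : c j ≤ b i ⊔ c j := le_sup_right
    have h2 : b i ⊔ c j = c j := (hmax.eq_of_le h h1).symm
    apply (hcb j).2
    refine Or.inr (Set.mem_iUnion.2 ⟨i, ?_⟩)
    show b i ≤ c j
    rw [← h2]
    exact le_sup_left
  have hZex := fun i => hcore i c q hs (fun j hj => (hcb j).2 (Or.inl (Set.mem_iUnion.2 ⟨i, hj⟩)))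
  choose Z hZa hZs hZi using hZex
  have hkap := fun i => exists_kappaP p hp h hMp f χ hχ (b i) (hcd.ne i) (hcd.cop i) (c₀ i)
    (hcd.mem i) (hcd.prim i)
  choose κ κ' ζ hκu hζ hκζ hκ using hkap
  have hC : CoefP F (mK K M * f) ι b c₀ (PsiP K ψ * χ) κ := coef_mulP h hχ.zero
    (fun a => hχ.norm_le hp.ne_zero a)
    (fun i x hx a ha => ⟨(hκ i x hx a ha).1, (hκ i x hx a ha).2.1⟩)
  have hC' : CoefP F (mK K M * f) ι b c₀ (PsiP K ψ * oneI f) κ' := coef_mulP h (pt3_oneI_zero f)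
    (pt3_oneI_norm_le f)
    (fun i x hx a ha => ⟨(hκ i x hx a ha).1, (hκ i x hx a ha).2.2⟩)
  have hNb : ∀ i, Ideal.absNorm (b i) ≠ 0 := fun i => by
    rw [Ne, Ideal.absNorm_eq_zero_iff]
    exact hcd.ne i
  -- the smoothed functions
  have hZsum : ∀ i s, 3 / 2 < s.re → HasSum (fun x : T i => gw c q x * nf F s (x : 𝓞 K)) (Z i s) :=
    fun i s hs' => hZs i (T i) (hcd.trans i) s hs'
  have e1 : ∀ s : ℂ, 3 / 2 < s.re →
      (∏ j, (1 - (q j : ℂ) * tm (PsiP K ψ * χ : Ideal (𝓞 K) →*₀ ℂ) s (c j))) *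
      ∑' a, tm (PsiP K ψ * χ : Ideal (𝓞 K) →*₀ ℂ) s a =
        ∑ i, κ i * (Ideal.absNorm (b i) : ℂ) ^ s * Z i s :=
    fun s hs' => series_eqP hgJ hJ1 hcd hC hs hcp hbc Z s hs' fun i => hZsum i s hs'
  have e2 : ∀ s : ℂ, 3 / 2 < s.re →
      (∏ j, (1 - (q j : ℂ) * tm (PsiP K ψ * oneI f : Ideal (𝓞 K) →*₀ ℂ) s (c j))) *
      ∑' a, tm (PsiP K ψ * oneI f : Ideal (𝓞 K) →*₀ ℂ) s a =
        ∑ i, κ' i * (Ideal.absNorm (b i) : ℂ) ^ s * Z i s :=
    fun s hs' => series_eqP hgJ hJ1 hcd hC' hs hcp hbc Z s hs' fun i => hZsum i s hs'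
  have e3 : ∀ s : ℂ, 3 / 2 < s.re → HasSum (tm (PsiP K ψ * χ : Ideal (𝓞 K) →*₀ ℂ) s)
      (∑ i, κ i * (Ideal.absNorm (b i) : ℂ) ^ s * Z0 i s) :=
    fun s hs' => series_eq0P hgJ hJ1 hcd hC Z0 s fun i => hZ0s i (T i) (hcd.trans i) s hs'
  have hGa : ∀ κ : ι → ℂ, AnalyticOnNhd ℂ
      (fun s : ℂ => ∑ i, κ i * (Ideal.absNorm (b i) : ℂ) ^ s * Z i s) {s | 1 / 2 < s.re} := by
    intro κ s hs'
    exact Finset.analyticAt_fun_sum _ fun i _ =>
      (analyticAt_const.mul (pt3_pow_analytic _ (hNb i) Set.univ s trivial)).mul (hZa i s hs')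
  have hZ0a : AnalyticOnNhd ℂ
      (fun s : ℂ => ∑ i, κ i * (Ideal.absNorm (b i) : ℂ) ^ s * Z0 i s)
      {s | 3 / 2 - 1 / (2 * (m + 1 : ℝ)) < s.re} := by
    intro s hs'
    exact Finset.analyticAt_fun_sum _ fun i _ =>
      (analyticAt_const.mul (pt3_pow_analytic _ (hNb i) Set.univ s trivial)).mul (hZ0 i s hs')
  have hPa : ∀ h : Ideal (𝓞 K) →*₀ ℂ, AnalyticOnNhd ℂ
      (fun s : ℂ => ∏ j, (1 - (q j : ℂ) * tm h s (c j))) {s | 1 / 2 < s.re} := by
    intro h s hs'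
    exact Finset.analyticAt_fun_prod _ fun j _ =>
      (analyticAt_const.sub (analyticAt_const.mul
        (pt3_tm_analytic h (c j) (pt3_ne hs j) Set.univ s trivial)))
  obtain ⟨Λ, hΛa, hΛ, hΛG⟩ := glue (1 / (2 * (m + 1 : ℝ))) (by positivity)
    (fun s : ℂ => ∑ i, κ i * (Ideal.absNorm (b i) : ℂ) ^ s * Z i s)
    (fun s : ℂ => ∑ i, κ i * (Ideal.absNorm (b i) : ℂ) ^ s * Z0 i s)
    (fun s : ℂ => ∏ j, (1 - (q j : ℂ) * tm (PsiP K ψ * χ : Ideal (𝓞 K) →*₀ ℂ) s (c j)))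
    (hGa κ) hZ0a (hPa _)
    (fun s hs' => Finset.prod_ne_zero_iff.2 fun j _ => P_neP h p hp f χ hχ (c j) (q j) (hs.prime j)
      (hs.norm j) s hs')
    (fun s hs' => by
      show _ = _ * _
      rw [← e1 s hs', (e3 s hs').tsum_eq])
  have h1re : (1 / 2 : ℝ) < (1 : ℂ).re := by norm_num
  have u1 : V.valuation (∏ j, (1 - (q j : ℂ) * tm (PsiP K ψ * χ : Ideal (𝓞 K) →*₀ ℂ) 1 (c j))) = 1 := by
    rw [map_prod]
    refine Finset.prod_eq_one fun j _ => factorP p hp V hV ψ χ (c j) (q j) (hs.prime j) (hs.norm j)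
      (hun j) ?_
    by_cases hj : IsCoprime (c j) f
    · exact Or.inl (hχ.val _ (pt3_ne hs j) hj)
    · exact Or.inr (hχ.zero _ hj)
  have e5 := hΛG 1 h1re
  have hne : (∏ j, (1 - (q j : ℂ) * tm (PsiP K ψ * χ : Ideal (𝓞 K) →*₀ ℂ) 1 (c j))) ≠ 0 := by
    intro h0
    rw [h0, map_zero] at u1
    exact zero_ne_one u1
  have h6 : Λ 1 / Om ^ Module.finrank F K =
      ((∑ i, κ i * (Ideal.absNorm (b i) : ℂ) ^ (1 : ℂ) * Z i 1) / Om ^ Module.finrank F K) *
      (∏ j, (1 - (q j : ℂ) * tm (PsiP K ψ * χ : Ideal (𝓞 K) →*₀ ℂ) 1 (c j)))⁻¹ := by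
    rw [e5]
    field_simp
  have h7 : V.valuation (Λ 1 / Om ^ Module.finrank F K) =
      V.valuation ((∑ i, κ i * (Ideal.absNorm (b i) : ℂ) ^ (1 : ℂ) * Z i 1) /
        Om ^ Module.finrank F K) := by
    rw [h6, map_mul, map_inv₀, u1, inv_one, mul_one]
  have hζ1 : ∀ i, V.valuation (ζ i) = 1 := fun i => by
    have h1 : V.valuation (ζ i) ^ p = 1 := by rw [← map_pow, hζ i, map_one]
    exact (pow_eq_one_iff_of_nonneg zero_le hp.ne_zero).1 h1
  have hZi' : ∀ i, V.valuation (Z i 1 / Om ^ (m + 1)) ≤ 1 := fun i =>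
    hZi i Ac Bc Om hper V hV hg
  refine ⟨Λ, hΛa, fun s hs' => ?_, ?_, fun ΛK hKa hKs hKi => ?_⟩
  · rw [hΛ s hs']
    exact e3 s hs'
  · rw [h7, hm, Finset.sum_div]
    refine Valuation.map_sum_le _ fun i _ => ?_
    rw [mul_div_assoc, map_mul, map_mul, hκζ i, map_mul, hκu i V hV, hζ1 i, one_mul, one_mul,
      Complex.cpow_one]
    exact mul_le_one' (pt9_nat V _) (hZi' i)
  -- the value at 1
  obtain ⟨S, hS, hSs⟩ := one_sumP h f hχ.ne
  have e4 : ∀ s : ℂ, 1 / 2 < s.re →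
      (∑ i, κ' i * (Ideal.absNorm (b i) : ℂ) ^ s * Z i s) =
      (∏ j, (1 - (q j : ℂ) * tm (PsiP K ψ * oneI f : Ideal (𝓞 K) →*₀ ℂ) s (c j))) *
        ((∏ w ∈ S, (1 - tm (PsiP K ψ) s w.asIdeal)) * ΛK s) := by
    intro s hs'
    refine ident (fun s : ℂ => ∑ i, κ' i * (Ideal.absNorm (b i) : ℂ) ^ s * Z i s)
      (fun s : ℂ => (∏ j, (1 - (q j : ℂ) * tm (PsiP K ψ * oneI f : Ideal (𝓞 K) →*₀ ℂ) s (c j))) *
        ((∏ w ∈ S, (1 - tm (PsiP K ψ) s w.asIdeal)) * ΛK s)) (hGa κ') ?_ ?_ s hs'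
    · refine (hPa _).mul (AnalyticOnNhd.mul ?_ hKa)
      intro z hz
      exact Finset.analyticAt_fun_prod _ fun w _ =>
        (analyticAt_const.sub (pt3_tm_analytic (PsiP K ψ) w.asIdeal w.ne_bot Set.univ z trivial))
    · intro z hz
      show _ = _ * (_ * _)
      rw [← e2 z hz, (hSs z hz).tsum_eq, (hKs z hz).tsum_eq]
  have u2 : V.valuation
      (∏ j, (1 - (q j : ℂ) * tm (PsiP K ψ * oneI f : Ideal (𝓞 K) →*₀ ℂ) 1 (c j))) = 1 := by
    rw [map_prod]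
    refine Finset.prod_eq_one fun j _ => factorP p hp V hV ψ (oneI f) (c j) (q j) (hs.prime j)
      (hs.norm j) (hun j) ?_
    rcases pt3_oneI_eq f (c j) with h | h
    · exact Or.inl (by rw [h, one_pow])
    · exact Or.inr h
  have hcopw : ∀ w ∈ S, IsCoprime w.asIdeal (Ideal.span {(p : 𝓞 K)}) := fun w hw => by
    have h1 := hχ.cop
    rw [Ideal.isCoprime_iff_sup_eq] at h1 ⊢
    rw [← top_le_iff, ← h1]
    exact sup_le_sup_right ((hS w).1 hw) _
  have u3 : V.valuation (∏ w ∈ S, (1 - tm (PsiP K ψ) 1 w.asIdeal)) ≤ 1 ∧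
      (V.valuation (∏ w ∈ S, (1 - tm (PsiP K ψ) 1 w.asIdeal)) = 1 ↔
        ∀ w : HeightOneSpectrum (𝓞 K), f ≤ w.asIdeal →
          V.valuation (1 - (starRingEnd ℂ) (PsiP K ψ w.asIdeal)) = 1) := by
    rw [map_prod]
    have h1 : ∀ w ∈ S, V.valuation (1 - tm (PsiP K ψ) 1 w.asIdeal) ≤ 1 := fun w hw =>
      (tm_one p hp V hV h w (hcopw w hw)).1
    refine ⟨Finset.prod_le_one' h1, ?_⟩
    rw [Finset.prod_eq_one_iff_of_le_one' h1]
    constructor
    · exact fun h2 w hw => (tm_one p hp V hV h w (hcopw w ((hS w).2 hw))).2.1 (h2 w ((hS w).2 hw))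
    · exact fun h2 w hw => (tm_one p hp V hV h w (hcopw w hw)).2.2 (h2 w ((hS w).1 hw))
  have u4 : V.valuation ((∑ i, κ' i * (Ideal.absNorm (b i) : ℂ) ^ (1 : ℂ) * Z i 1) /
      Om ^ Module.finrank F K) = V.valuation (∏ w ∈ S, (1 - tm (PsiP K ψ) 1 w.asIdeal)) *
        V.valuation (ΛK 1 / Om ^ Module.finrank F K) := by
    rw [e4 1 h1re, mul_div_assoc, mul_div_assoc, map_mul, map_mul, u2, one_mul]
  have h2 : (∑ i, κ i * (Ideal.absNorm (b i) : ℂ) ^ (1 : ℂ) * Z i 1) / Om ^ Module.finrank F K =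
      (∑ i, κ' i * (ζ i - 1) * ((Ideal.absNorm (b i) : ℕ) : ℂ) * (Z i 1 / Om ^ (m + 1))) +
      (∑ i, κ' i * (Ideal.absNorm (b i) : ℂ) ^ (1 : ℂ) * Z i 1) / Om ^ Module.finrank F K := by
    rw [hm, Finset.sum_div, Finset.sum_div, ← Finset.sum_add_distrib]
    refine Finset.sum_congr rfl fun i _ => ?_
    rw [hκζ i, Complex.cpow_one]
    ring
  have h3 : V.valuation (∑ i, κ' i * (ζ i - 1) * ((Ideal.absNorm (b i) : ℕ) : ℂ) *
      (Z i 1 / Om ^ (m + 1))) < 1 := by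
    refine Valuation.map_sum_lt _ one_ne_zero fun i _ => ?_
    rw [map_mul, map_mul, map_mul, hκu i V hV, one_mul, mul_assoc]
    exact mul_lt_one_of_lt_of_le (root_max p hp V hV (ζ i) (hζ i)) (mul_le_one' (pt9_nat V _) (hZi' i))
  have h8 : V.valuation (Λ 1 / Om ^ Module.finrank F K) = 1 ↔
      V.valuation ((∑ i, κ' i * (Ideal.absNorm (b i) : ℂ) ^ (1 : ℂ) * Z i 1) /
        Om ^ Module.finrank F K) = 1 := by
    rw [h7, h2]
    constructor
    · intro h9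
      have h10 := Valuation.map_sub_eq_of_lt_left V.valuation (x := (∑ i, κ' i * (ζ i - 1) *
        ((Ideal.absNorm (b i) : ℕ) : ℂ) * (Z i 1 / Om ^ (m + 1))) +
        (∑ i, κ' i * (Ideal.absNorm (b i) : ℂ) ^ (1 : ℂ) * Z i 1) / Om ^ Module.finrank F K)
        (y := ∑ i, κ' i * (ζ i - 1) * ((Ideal.absNorm (b i) : ℕ) : ℂ) * (Z i 1 / Om ^ (m + 1)))
        (by rw [h9]; exact h3)
      rw [add_sub_cancel_left, h9] at h10
      exact h10
    · intro h9
      rw [Valuation.map_add_eq_of_lt_right _ (by rw [h9]; exact h3), h9]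
  rw [h8, u4]
  constructor
  · intro h9
    have h10 : V.valuation (∏ w ∈ S, (1 - tm (PsiP K ψ) 1 w.asIdeal)) = 1 := by
      refine le_antisymm u3.1 ?_
      by_contra hlt
      have h11 := mul_lt_one_of_lt_of_le (not_le.1 hlt) hKi
      rw [h9] at h11
      exact lt_irrefl _ h11
    rw [h10, one_mul] at h9
    exact ⟨h9, u3.2.1 h10⟩
  · rintro ⟨h9, h10⟩
    rw [u3.2.2 h10, h9, one_mul]

end H55P
end

-- from Lib.H55P.N5
section

open NumberField IsDedekindDomain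

namespace H55P

open H55N
open H55B (g)



/-! Chunk PN5 (S/M), PORT of second_ineq and indep in Lib/H55R/X10.lean, with density_kerF in place of density_ker. -/

theorem second_ineqF (F : Type) [Field F] [NumberField F] [IQ F] (K N : Type) [Field K] [NumberField K]
    [Algebra F K] [Field N] [NumberField N]
    [Algebra K N] [IsGalois K N] (A : Subgroup Gal(N/K)) (hA : A.Normal) (f : Ideal (𝓞 K))
    (hf : f ≠ ⊥) (hf' : f ≠ ⊤) (Y : Subgroup (H55R.Pl K → ℂˣ)) (hYf : Finite Y) (hY : Y ≤ H55R.RC f)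
    (h : ∀ φ ∈ Y, ∀ v : H55R.Pl K, ¬ f ≤ v.asIdeal → H55R.SplA A v → φ v = 1) :
    Nat.card Y ≤ A.index := by
  obtain ⟨C, hC⟩ := H55R.density_A K N A hA
  obtain ⟨C', hC'⟩ := density_kerF F f hf hf' Y hY
  have hY0 : (0 : ℝ) < Nat.card Y := by exact_mod_cast Nat.card_pos
  have hA0 := H55R.X10_index A
  have h1 : (1 / A.index : ℝ) ≤ 1 / Nat.card Y := by
    refine H55R.X10_lim (D := C + C' + (H55R.X10_bad hf).toFinset.card) fun s hs => ?_
    have e1 := (abs_le.1 (hC s hs)).1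
    have e2 := hC' s hs
    have e3 := H55R.X10_cmp hf (S := {v : H55R.Pl K | H55R.SplA A v})
      (T := {v : H55R.Pl K | ¬ f ≤ v.asIdeal ∧ ∀ φ ∈ Y, φ v = 1})
      (fun v hv hb => ⟨hb, fun φ hφ => h φ hφ v hb hv⟩) s hs.1
    linarith
  rw [one_div_le_one_div hA0 hY0] at h1
  exact_mod_cast h1

theorem indepF (F : Type) [Field F] [NumberField F] [IQ F] (K N : Type) [Field K] [NumberField K]
    [Algebra F K] [Field N] [NumberField N]
    [Algebra K N] [IsGalois K N] (A B : Subgroup Gal(N/K)) (hA : A.Normal) (hB : B.Normal)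
    (hAB : ¬ A ≤ B) (f : Ideal (𝓞 K)) (hf : f ≠ ⊥) (hf' : f ≠ ⊤) (Z : Subgroup (H55R.Pl K → ℂˣ))
    (hZf : Finite Z) (hZ : Z ≤ H55R.RC f)
    (h : ∀ φ ∈ Z, ∀ v : H55R.Pl K, ¬ f ≤ v.asIdeal → H55R.SplA A v ∨ H55R.SplA B v → φ v = 1) :
    Nat.card Z < B.index := by
  obtain ⟨C₁, hC₁⟩ := H55R.density_A K N A hA
  obtain ⟨C₂, hC₂⟩ := H55R.density_A K N B hB
  have hAB' : (A ⊓ B).Normal := Subgroup.normal_inf_normal A B
  obtain ⟨C₃, hC₃⟩ := H55R.density_A K N (A ⊓ B) hAB'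
  obtain ⟨C', hC'⟩ := density_kerF F f hf hf' Z hZ
  have hZ0 : (0 : ℝ) < Nat.card Z := by exact_mod_cast Nat.card_pos
  have hA0 := H55R.X10_index A
  have hB0 := H55R.X10_index B
  have hAB0 := H55R.X10_index (A ⊓ B)
  have hint : {v : H55R.Pl K | H55R.SplA A v} ∩ {v : H55R.Pl K | H55R.SplA B v} = {v : H55R.Pl K | H55R.SplA (A ⊓ B) v} := by
    ext v
    constructor
    · rintro ⟨h1, h2⟩ W hW σ hσ
      exact ⟨h1 W hW σ hσ, h2 W hW σ hσ⟩
    · intro h1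
      exact ⟨fun W hW σ hσ => (h1 W hW σ hσ).1, fun W hW σ hσ => (h1 W hW σ hσ).2⟩
  have h1 : (1 / A.index + 1 / B.index - 1 / (A ⊓ B).index : ℝ) ≤ 1 / Nat.card Z := by
    refine H55R.X10_lim (D := C₁ + C₂ + C₃ + C' + (H55R.X10_bad hf).toFinset.card) fun s hs => ?_
    have e1 := (abs_le.1 (hC₁ s hs)).1
    have e2 := (abs_le.1 (hC₂ s hs)).1
    have e3 := (abs_le.1 (hC₃ s hs)).2
    have e4 := hC' s hs
    have e5 := H55R.X10_cmp hf (S := {v : H55R.Pl K | H55R.SplA A v} ∪ {v : H55R.Pl K | H55R.SplA B v})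
      (T := {v : H55R.Pl K | ¬ f ≤ v.asIdeal ∧ ∀ φ ∈ Z, φ v = 1})
      (fun v hv hb => ⟨hb, fun φ hφ => h φ hφ v hb hv⟩) s hs.1
    have e6 := H55R.X10_union {v : H55R.Pl K | H55R.SplA A v} {v : H55R.Pl K | H55R.SplA B v} s hs.1
    rw [hint] at e6
    linarith
  have h2 : A.index < (A ⊓ B).index := by
    have e1 := Subgroup.relIndex_mul_index (inf_le_left : A ⊓ B ≤ A)
    have e2 : (A ⊓ B).relIndex A ≠ 1 := by
      intro e
      rw [Subgroup.relIndex_eq_one] at e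
      exact hAB (e.trans inf_le_right)
    have e3 : (A ⊓ B).relIndex A ≠ 0 := by
      intro e
      rw [e, zero_mul] at e1
      exact Subgroup.index_ne_zero_of_finite e1.symm
    have e4 : 0 < A.index := Nat.pos_of_ne_zero Subgroup.index_ne_zero_of_finite
    rw [← e1]
    exact lt_mul_of_one_lt_left e4 (by omega)
  have h3 : (1 / (A ⊓ B).index : ℝ) < 1 / A.index := by
    rw [one_div_lt_one_div hAB0 hA0]
    exact_mod_cast h2
  have h4 : (1 / B.index : ℝ) < 1 / Nat.card Z := by linarith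
  rw [one_div_lt_one_div hB0 hZ0] at h4
  exact_mod_cast h4

end H55P
end

-- from Lib.H55P.N6
section

open NumberField IsDedekindDomain

namespace H55P

open H55N
open H55B (g)

/-! Chunk PN6 (M), PORT of Lib/H55R/Cross.lean (cross) and Lib/H55R/Fin.lean (reciprocity): K over a general imaginary quadratic field F. complexF: the places of F are complex (F0_card), so those of K are.
Everything else is copied, with second_ineqF F, indepF F, density_kerF F, bddF F in place of the old ones. -/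

theorem complexG (F : Type) [Field F] [NumberField F] [IQ F] (K : Type) [Field K] [NumberField K]
    [Algebra F K] (v : InfinitePlace K) : v.IsComplex := by
  classical
  rw [← InfinitePlace.not_isReal_iff_isComplex]
  intro h
  have h1 : (v.comap (algebraMap F K)).IsReal := h.comap (algebraMap F K)
  have h2 : InfinitePlace.nrRealPlaces F = 0 := (F0_card (F := F)).1
  have h3 : 0 < InfinitePlace.nrRealPlaces F := Fintype.card_pos_iff.2 ⟨⟨_, h1⟩⟩
  omega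

open H55R

/-- Inert primes are not in the kernel of the character (assembly). -/
theorem crossF (F : Type) [Field F] [NumberField F] [IQ F] {K L : Type} [Field K] [NumberField K]
    [Algebra F K] [Field L] [NumberField L]
    [Algebra K L] [IsGalois K L] (l : ℕ) (hl : l.Prime) (hn : Module.finrank K L = l)
    (hcL : ∀ g h : Gal(L/K), g * h = h * g) (f : Ideal (𝓞 K))
    (hf : f ≠ ⊥) (hf0 : ∀ v : Pl K, ¬ f ≤ v.asIdeal → es K L v = 1)
    (htame : ∀ v : Pl K, es K L v ∣ Ideal.absNorm v.asIdeal - 1) (φ : Pl K → ℂˣ) (hφ : φ ∈ RC f)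
    (hφl : φ ^ l = 1) (hφ1 : φ ≠ 1)
    (hφS : ∀ v : Pl K, ¬ f ≤ v.asIdeal → Spl K L v → φ v = 1) (w : Pl K)
    (hw : ¬ f ≤ w.asIdeal) (hns : ¬ Spl K L w) : φ w ≠ 1 := by
  classical
  set q := Ideal.absNorm w.asIdeal with hq
  have hK : ∀ v : InfinitePlace K, v.IsComplex := complexG F K
  have hq1 : 1 < q := by
    have h1 : q ≠ 0 := by
      rw [hq, Ne, Ideal.absNorm_eq_zero_iff]
      exact w.ne_bot
    have h2 : q ≠ 1 := by
      rw [hq, Ne, Ideal.absNorm_eq_one_iff]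
      exact w.isPrime.ne_top
    omega
  obtain ⟨p, hp, hpq, hpbad, hord⟩ := exists_p q l hq1 hl (Ideal.absNorm f).primeFactors
  have hpf : ¬ p ∣ Ideal.absNorm f := by
    intro h
    exact hpbad (Nat.mem_primeFactors.2 ⟨hp, h, by rwa [Ne, Ideal.absNorm_eq_zero_iff]⟩)
  have := Fact.mk hp
  -- the unit q modulo p
  have hqu : IsUnit (q : ZMod p) := by
    rw [isUnit_iff_ne_zero, Ne, ZMod.natCast_eq_zero_iff]
    exact hpq
  set u : (ZMod p)ˣ := hqu.unit with hu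
  have huq : (u : ZMod p) = (q : ℕ) := hqu.unit_spec
  have hou : l ∣ orderOf u := by
    rw [← orderOf_units, huq]
    exact hord
  obtain ⟨θ, hθ1, hθ2⟩ := H55R.exists_theta p l hl u hou
  obtain ⟨N, i1, i2, i3, i4, i5, ζ, hζ, i6, hc, hN⟩ := exists_N K L hcL p hp
  set f' : Ideal (𝓞 K) := f * Ideal.span {(p : 𝓞 K)} with hf'
  have hp0 : (p : 𝓞 K) ≠ 0 := Nat.cast_ne_zero.2 hp.ne_zero
  have hf'0 : f' ≠ ⊥ := mul_ne_zero hf (by
    rw [Ne, Ideal.zero_eq_bot, Ideal.span_singleton_eq_bot]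
    exact hp0)
  have hle1 : f' ≤ f := Ideal.mul_le_left
  have hle2 : f' ≤ Ideal.span {(p : 𝓞 K)} := Ideal.mul_le_right
  have hv' : ∀ v : Pl K, ¬ f' ≤ v.asIdeal → ¬ f ≤ v.asIdeal ∧ (p : 𝓞 K) ∉ v.asIdeal :=
    fun v hv => ⟨fun h => hv (hle1.trans h), fun h => hv (hle2.trans (by
      rw [Ideal.span_singleton_le_iff_mem]
      exact h))⟩
  have hv'' : ∀ v : Pl K, ¬ f ≤ v.asIdeal → (p : 𝓞 K) ∉ v.asIdeal → ¬ f' ≤ v.asIdeal := by
    intro v h1 h2 h3
    rcases (v.isPrime.mul_le).1 h3 with h | h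
    · exact h1 h
    · rw [Ideal.span_singleton_le_iff_mem] at h
      exact h2 h
  have hf't : f' ≠ ⊤ := by
    intro h
    have h1 : (p : 𝓞 K) ∣ 1 := by
      rw [← Ideal.mem_span_singleton]
      exact hle2 (by rw [h]; trivial)
    have h2 := Algebra.norm ℤ (p : 𝓞 K)
    have h3 : IsUnit (p : 𝓞 K) := isUnit_of_dvd_one h1
    have h4 := (Ideal.absNorm_eq_one_iff (I := Ideal.span {(p : 𝓞 K)})).2
      (Ideal.span_singleton_eq_top.2 h3)
    rw [Ideal.absNorm_span_singleton] at h4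
    have h5 : (Algebra.norm ℤ (p : 𝓞 K)) = (p : ℤ) ^ Module.finrank ℤ (𝓞 K) := by
      have h6 := Algebra.norm_algebraMap (S := 𝓞 K) (p : ℤ)
      simpa using h6
    rw [h5, Int.natAbs_pow, Int.natAbs_natCast] at h4
    have h7 : Module.finrank ℤ (𝓞 K) ≠ 0 := by
      rw [RingOfIntegers.rank]
      exact Module.finrank_pos.ne'
    have h8 := hp.one_lt
    have h9 := Nat.one_lt_pow h7 h8
    omega
  -- primes dividing f and p
  have hcop : ∀ v : Pl K, (p : 𝓞 K) ∈ v.asIdeal → ¬ f ≤ v.asIdeal := by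
    intro v h1 h2
    have h3 := Ideal.absNorm_dvd_absNorm_of_le h2
    have h4 : p ∣ Ideal.absNorm v.asIdeal := by
      have h5 : (Ideal.absNorm v.asIdeal : 𝓞 K) ∈ v.asIdeal := Ideal.absNorm_mem v.asIdeal
      by_contra h6
      have h7 : IsCoprime (p : ℤ) (Ideal.absNorm v.asIdeal : ℤ) :=
        Nat.isCoprime_iff_coprime.2 ((Nat.Prime.coprime_iff_not_dvd hp).2 h6)
      obtain ⟨a, b, hab⟩ := h7
      apply v.isPrime.ne_top
      rw [Ideal.eq_top_iff_one]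
      have h8 : (1 : 𝓞 K) = a * p + b * (Ideal.absNorm v.asIdeal : 𝓞 K) := by
        exact_mod_cast (congrArg (fun z : ℤ => (z : 𝓞 K)) hab).symm
      rw [h8]
      exact add_mem (Ideal.mul_mem_left _ _ h1) (Ideal.mul_mem_left _ _ h5)
    exact hpf (h4.trans h3)
  have hram : ∀ v : Pl K, ¬ f' ≤ v.asIdeal → es K N v = 1 := by
    intro v hv
    obtain ⟨h1, h2⟩ := hv' v hv
    have h3 := es_N K L N p hp ζ hζ hN v h2
    rw [hf0 v h1] at h3
    exact Nat.dvd_one.1 h3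
  have htame' : ∀ v : Pl K, es K N v ∣ Ideal.absNorm v.asIdeal - 1 := by
    intro v
    by_cases h : (p : 𝓞 K) ∈ v.asIdeal
    · have h1 := es_N' K L N p hp ζ hζ hN v (hf0 v (hcop v h))
      refine h1.trans ?_
      -- the norm of v is a power of p
      have h2 : ∃ k : ℕ, Ideal.absNorm v.asIdeal = p ^ k := by
        have h3 := Ideal.absNorm_dvd_absNorm_of_le
          ((Ideal.span_singleton_le_iff_mem v.asIdeal).2 h)
        rw [Ideal.absNorm_span_singleton] at h3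
        have h5 : (Algebra.norm ℤ (p : 𝓞 K)) = (p : ℤ) ^ Module.finrank ℤ (𝓞 K) := by
          have h6 := Algebra.norm_algebraMap (S := 𝓞 K) (p : ℤ)
          simpa using h6
        rw [h5, Int.natAbs_pow, Int.natAbs_natCast] at h3
        obtain ⟨k, -, hk⟩ := (Nat.dvd_prime_pow hp).1 h3
        exact ⟨k, hk⟩
      obtain ⟨k, hk⟩ := h2
      rw [hk]
      exact Nat.sub_one_dvd_pow_sub_one p k
    · exact (es_N K L N p hp ζ hζ hN v h).trans (htame v)
  -- the Frobenius of w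
  have hpw : (p : 𝓞 K) ∉ w.asIdeal := by
    intro h
    apply hpq
    rw [hq]
    have h5 : (Ideal.absNorm w.asIdeal : 𝓞 K) ∈ w.asIdeal := Ideal.absNorm_mem w.asIdeal
    by_contra h6
    have h7 : IsCoprime (p : ℤ) (Ideal.absNorm w.asIdeal : ℤ) :=
      Nat.isCoprime_iff_coprime.2 ((Nat.Prime.coprime_iff_not_dvd hp).2 h6)
    obtain ⟨a, b, hab⟩ := h7
    apply w.isPrime.ne_top
    rw [Ideal.eq_top_iff_one]
    have h8 : (1 : 𝓞 K) = a * p + b * (Ideal.absNorm w.asIdeal : 𝓞 K) := by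
      exact_mod_cast (congrArg (fun z : ℤ => (z : 𝓞 K)) hab).symm
    rw [h8]
    exact add_mem (Ideal.mul_mem_left _ _ h) (Ideal.mul_mem_left _ _ h5)
  have hw' : ¬ f' ≤ w.asIdeal := hv'' w hw hpw
  obtain ⟨g, hg1, hg2⟩ := exists_frob K N hc w (hram w hw')
  have hgζ : g ζ = ζ ^ q := hg2 p ζ hp hζ hpw
  have hgpow : ∀ k : ℕ, (g ^ k) ζ = ζ ^ (q ^ k) := by
    intro k
    induction k with
    | zero => rw [pow_zero, pow_zero, pow_one]; rfl
    | succ k ih =>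
      rw [pow_succ', AlgEquiv.mul_apply, ih, map_pow, hgζ, ← pow_mul, pow_succ']
  have hnorm : ∀ A : Subgroup Gal(N/K), A.Normal := fun A => ⟨fun a ha x => by
    rw [hc x a, mul_assoc, mul_inv_cancel, mul_one]
    exact ha⟩
  set B : Subgroup Gal(N/K) := (AlgEquiv.restrictNormalHom L : Gal(N/K) →* Gal(L/K)).ker with hB
  obtain ⟨hBc, hBi⟩ := ker_cyclic K L N p hp ζ hζ hN
  rw [hn] at hBi
  have hgB : g ∉ B := by
    intro h
    apply hns
    rw [spl_iff K L N w]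
    exact (hg1 _).2 h
  have hog : l ∣ orderOf g := by
    refine hord.trans ?_
    rw [orderOf_dvd_iff_pow_eq_one]
    have h1 := hgpow (orderOf g)
    rw [pow_orderOf_eq_one, AlgEquiv.one_apply] at h1
    have h2 : ζ ^ (q ^ orderOf g) = ζ ^ 1 := by rw [← h1, pow_one]
    have h3 := root_pow_eq hζ hp.ne_zero h2
    have h4 := (ZMod.natCast_eq_natCast_iff _ _ _).2 h3
    push_cast at h4
    exact h4
  obtain ⟨σ, hσ⟩ := gen_exists hc l hl g B hBi hBc hgB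
  -- the characters of M
  obtain ⟨YM, m1, m2, m3, m4⟩ := first_A K N (Subgroup.zpowers g) (hnorm _) σ hσ hK f' hf'0 hram
    htame'
  have hwM : SplA (Subgroup.zpowers g) w := (hg1 _).2 (Subgroup.mem_zpowers g)
  -- the restriction of φ
  set φ' : Pl K → ℂˣ := resF f' φ with hφ'
  have hφ'v : ∀ v : Pl K, ¬ f' ≤ v.asIdeal → φ' v = φ v := fun v hv => if_neg hv
  have hφ'RC : φ' ∈ RC f' := resF_RC f f' hle1 φ hφ
  have hφ'1 : φ' ≠ 1 := fun h => hφ1 (resF_one f f' hle1 hf'0 φ hφ h)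
  have hφ'l : φ' ^ l = 1 := by
    funext v
    by_cases hv : f' ≤ v.asIdeal
    · have h1 : φ' v = 1 := if_pos hv
      rw [Pi.pow_apply, h1, one_pow, Pi.one_apply]
    · rw [Pi.pow_apply, hφ'v v hv]
      exact congrFun hφl v
  have hφ'S : ∀ v : Pl K, ¬ f' ≤ v.asIdeal → SplA B v → φ' v = 1 := by
    intro v hv hs
    rw [hφ'v v hv]
    exact hφS v (hv' v hv).1 ((spl_iff K L N v).2 hs)
  have hzl : Nat.card (Subgroup.zpowers φ') = l := by
    have := Fact.mk hl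
    rw [Nat.card_zpowers]
    exact orderOf_eq_prime hφ'l hφ'1
  have hzfin : Finite (Subgroup.zpowers φ') :=
    Nat.finite_of_card_ne_zero (by rw [hzl]; exact hl.ne_zero)
  -- independence
  have hnot : φ' ∉ YM := by
    intro hmem
    have h1 := indepF F K N (Subgroup.zpowers g) B (hnorm _) (hnorm _)
      (fun h => hgB (h (Subgroup.mem_zpowers g))) f' hf'0 hf't (Subgroup.zpowers φ') hzfin
      (by rw [Subgroup.zpowers_le]; exact hφ'RC) (by
        rintro ψ ⟨j, rfl⟩ v hv hs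
        have h2 : φ' v = 1 := by
          rcases hs with hs | hs
          · exact m4 φ' hmem v hv hs
          · exact hφ'S v hv hs
        show (φ' ^ j) v = 1
        rw [Pi.pow_apply, h2, one_zpow])
    rw [hzl, hBi] at h1
    exact lt_irrefl _ h1
  -- the cyclotomic character
  set θ' : Pl K → ℂˣ := thetaF f' p θ with hθ'
  have hθ'RC : θ' ∈ RC f' := theta_RC hK f' p hp hle2 θ
  have hθ'pow : θ' ^ (p - 1) = 1 := by
    funext v
    rw [Pi.pow_apply, Pi.one_apply]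
    by_cases h : ¬ f' ≤ v.asIdeal ∧ IsUnit ((Ideal.absNorm v.asIdeal : ℕ) : ZMod p)
    · have h1 : θ' v = θ h.2.unit := dif_pos h
      rw [h1, ← map_pow, ZMod.units_pow_card_sub_one_eq_one, map_one]
    · have h1 : θ' v = 1 := dif_neg h
      rw [h1, one_pow]
  have hp1 : 0 < p - 1 := by
    have := hp.two_le
    omega
  set A2 : Subgroup Gal(N/K) := Subgroup.zpowers (g ^ l) with hA2
  have hA21 : A2 ≤ Subgroup.zpowers g := by
    rw [hA2, Subgroup.zpowers_le]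
    exact Subgroup.pow_mem _ (Subgroup.mem_zpowers g) l
  have hA2B : A2 ≤ B := by
    rw [hA2, Subgroup.zpowers_le]
    exact pow_mem_index hc l g B hBi
  have hθ'S : ∀ v : Pl K, ¬ f' ≤ v.asIdeal → SplA A2 v → θ' v = 1 := by
    intro v hv hs
    obtain ⟨h1, h2⟩ := hv' v hv
    obtain ⟨gv, hgv1, hgv2⟩ := exists_frob K N hc v (hram v hv)
    have h3 := (hgv1 A2).1 hs
    obtain ⟨i, hi⟩ := (mem_zpowers_iff_mem_range_orderOf.1 h3 |> Finset.mem_image.1)
    have h4 : gv ζ = ζ ^ Ideal.absNorm v.asIdeal := hgv2 p ζ hp hζ h2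
    rw [← hi.2, ← pow_mul, hgpow] at h4
    have h5 := root_pow_eq hζ hp.ne_zero h4
    have h6 := (ZMod.natCast_eq_natCast_iff _ _ _).2 h5
    have h7 : ((u ^ (l * i) : (ZMod p)ˣ) : ZMod p) = (Ideal.absNorm v.asIdeal : ℕ) := by
      rw [← h6, Units.val_pow_eq_pow_val, huq]
      push_cast
      rfl
    rw [hθ', theta_apply f' p hp θ v hv _ h7, pow_mul, map_pow, hθ2, one_pow]
  -- counting
  have hYfin : Finite (YM ⊔ Subgroup.zpowers φ' : Subgroup (Pl K → ℂˣ)) :=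
    fin_adjoin YM m1 φ' l hl.pos hφ'l
  have hYcard := card_adjoin YM m1 φ' l hl hφ'l hnot
  have hY'fin : Finite ((YM ⊔ Subgroup.zpowers φ') ⊔ Subgroup.zpowers θ' :
      Subgroup (Pl K → ℂˣ)) := fin_adjoin _ hYfin θ' (p - 1) hp1 hθ'pow
  have hY'RC : ((YM ⊔ Subgroup.zpowers φ') ⊔ Subgroup.zpowers θ' : Subgroup (Pl K → ℂˣ)) ≤
      RC f' := by
    refine sup_le (sup_le m2 ?_) ?_
    · rw [Subgroup.zpowers_le]; exact hφ'RC
    · rw [Subgroup.zpowers_le]; exact hθ'RC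
  have h2 := second_ineqF F K N A2 (hnorm _) f' hf'0 hf't _ hY'fin hY'RC (by
    intro ψ hψ v hv hs
    obtain ⟨ν, hν, j, rfl⟩ := mem_adjoin _ _ _ hψ
    obtain ⟨μ, hμ, k, rfl⟩ := mem_adjoin _ _ _ hν
    have e1 : μ v = 1 := m4 μ hμ v hv (SplA_mono hA21 hs)
    have e2 : φ' v = 1 := hφ'S v hv (SplA_mono hA2B hs)
    have e3 : θ' v = 1 := hθ'S v hv hs
    simp only [Pi.mul_apply, Pi.pow_apply, e1, e2, e3, one_zpow, mul_one])
  rw [hA2, index_pow l hl g hog] at h2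
  have hge : Nat.card ((YM ⊔ Subgroup.zpowers φ') ⊔ Subgroup.zpowers θ' :
      Subgroup (Pl K → ℂˣ)) ≤ Nat.card (YM ⊔ Subgroup.zpowers φ' : Subgroup (Pl K → ℂˣ)) := by
    refine h2.trans (le_trans ?_ hYcard)
    exact Nat.mul_le_mul_left l m3
  have heq := Subgroup.eq_of_le_of_card_ge
    (le_sup_left : (YM ⊔ Subgroup.zpowers φ') ≤ (YM ⊔ Subgroup.zpowers φ') ⊔ Subgroup.zpowers θ')
    hge
  have hmem : θ' ∈ YM ⊔ Subgroup.zpowers φ' := by
    rw [heq]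
    exact (le_sup_right : Subgroup.zpowers θ' ≤ _) (Subgroup.mem_zpowers θ')
  obtain ⟨μ, hμ, j, hj⟩ := mem_adjoin _ _ _ hmem
  have e1 := congrFun hj w
  have e2 : θ' w = θ u := by
    rw [hθ', theta_apply f' p hp θ w hw' u (by rw [huq])]
  have e3 : μ w = 1 := m4 μ hμ w hw' hwM
  rw [e2, Pi.mul_apply, Pi.pow_apply, e3, one_mul, hφ'v w hw'] at e1
  intro h
  rw [h, one_zpow] at e1
  exact hθ1 e1

/-- THEOREM: reciprocity. -/
theorem reciprocityF (F : Type) [Field F] [NumberField F] [IQ F] (K L : Type) [Field K] [NumberField K]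
    [Algebra F K] [Field L] [NumberField L]
    [Algebra K L] [IsGalois K L] (l : ℕ) (hl : l.Prime) (hn : Module.finrank K L = l)
    (htame : ∀ v : H55R.Pl K, H55R.es K L v ≠ 1 → l ∣ Ideal.absNorm v.asIdeal - 1) :
    ∃ (f : Ideal (𝓞 K)) (ρ : Ideal (𝓞 K) →*₀ ℂ), H55R.IsRec K L l f ρ := by
  classical
  have hl1 := Fact.mk hl
  have hcard : Nat.card Gal(L/K) = l := by
    rw [IsGalois.card_aut_eq_finrank, hn]
  have hcyc : IsCyclic Gal(L/K) := isCyclic_of_prime_card hcard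
  obtain ⟨σ, hσ⟩ := hcyc.exists_generator
  have hc : ∀ g h : Gal(L/K), g * h = h * g := by
    intro g h
    obtain ⟨i, rfl⟩ := hσ g
    obtain ⟨j, rfl⟩ := hσ h
    exact Commute.zpow_zpow (Commute.refl σ) i j
  obtain ⟨f, hf, hsq, hram⟩ := exists_mod K L
  have hf0 : ∀ v : Pl K, ¬ f ≤ v.asIdeal → es K L v = 1 := fun v hv => by
    by_contra h
    exact hv ((hram v).2 h)
  have htame' : ∀ v : Pl K, es K L v ∣ Ideal.absNorm v.asIdeal - 1 := by
    intro v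
    by_cases h : es K L v = 1
    · rw [h]
      exact one_dvd _
    · have h1 : es K L v ∣ l := by
        have h2 := card_above (K := K) (L := L) v (above_finite v).toFinset (fun W => by simp)
        rw [hn] at h2
        exact ⟨(above_finite (K := K) (L := L) v).toFinset.card * fs K L v, by rw [← h2]; ring⟩
      rcases (Nat.dvd_prime hl).1 h1 with h2 | h2
      · exact absurd h2 h
      · rw [h2]
        exact htame v h
  obtain ⟨Y, hY1, hY2, hY3, hY4, hY5⟩ := first_ineq σ hσ (complexG F K) f hf hf0 htame'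
  rw [hn] at hY3 hY4
  -- a nontrivial element
  obtain ⟨φ, hφ, hφ1⟩ : ∃ φ ∈ Y, φ ≠ 1 := by
    by_contra hcon
    push Not at hcon
    have h1 : Y = ⊥ := by
      rw [Subgroup.eq_bot_iff_forall]
      exact hcon
    rw [h1, Subgroup.card_bot] at hY3
    have := hl.two_le
    omega
  have hcross := fun w hw hns => crossF F (K := K) (L := L) l hl hn hc f hf hf0 htame' φ (hY2 hφ)
    (hY4 φ hφ) hφ1 (fun v hv hs => hY5 φ hφ v hv hs) w hw hns
  refine ⟨f, tI f φ, hf, hsq, hram, ?_, ?_, ?_, ?_⟩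
  · intro a ha hac
    rw [tI_apply f φ ha hac, ← Units.val_pow_eq_pow_val, ← pv_pow, hY4 φ hφ, pv_one_fun,
      Units.val_one]
  · intro a ha
    exact tI_zero f φ ha
  · intro x y hx hy hxc hxy
    have hyc : IsCoprime (Ideal.span {y}) f := by
      rw [Ideal.isCoprime_iff_sup_eq] at hxc ⊢
      rw [eq_top_iff, ← hxc]
      refine sup_le ?_ le_sup_right
      rw [Ideal.span_singleton_le_iff_mem]
      have h1 : x = y + (x - y) := by ring
      rw [h1]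
      exact add_mem (Ideal.mem_sup_left (Ideal.mem_span_singleton_self y))
        (Ideal.mem_sup_right hxy)
    rw [tI_apply f φ (by rwa [Ne, Ideal.span_singleton_eq_bot]) hxc,
      tI_apply f φ (by rwa [Ne, Ideal.span_singleton_eq_bot]) hyc, (hY2 hφ).2 x y hx hy hxc hxy]
  · intro v hv
    rw [tI_apply f φ v.ne_bot (cop_prime v f hv), pv_prime, Units.val_eq_one]
    constructor
    · intro h
      by_contra hns
      exact hcross v hv hns h
    · exact fun h => hY5 φ hφ v hv h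

end H55P
end

-- from Lib.H55P.T13
section

open NumberField IsDedekindDomain

namespace H55P

open H55N
open H55B (g)

variable {F : Type} [Field F] [NumberField F] [IQ F]

/-! Assembly: one cyclic step of degree p. -/

theorem LVP_step (K K' : Type) [Field K] [NumberField K] [Algebra F K] [Field K'] [NumberField K']
    [Algebra F K'] [Algebra K K'] [IsScalarTower F K K'] [IsGalois K K'] (p : ℕ) (hp : p.Prime)
    (hn : Module.finrank K K' = p) {M : Ideal (𝓞 F)} {ψ : Ideal (𝓞 F) →*₀ 𝓞 F} (h : IsHecke M ψ)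
    (hMp : IsCoprime M (Ideal.span {(p : 𝓞 F)})) (hU : UnrP p K') (Ac Bc Om : ℂ)
    (hper : Per F Ac Bc Om) (V : ValuationSubring ℂ) (hV : V.valuation (p : ℂ) < 1)
    (hg : GoodV Ac Bc V) (hNT : NTP K p M ψ V)
    (hr : ∀ w : HeightOneSpectrum (𝓞 K), H55R.es K K' w ≠ 1 →
      V.valuation (1 - (starRingEnd ℂ) (PsiP K ψ w.asIdeal)) = 1)
    (hL : LVP F V Om (PsiP K ψ)) : LVP F V Om (PsiP K' ψ) := by
  have hK := UnrP.down K K' p hp hU
  obtain ⟨f, ρ, hρ⟩ := reciprocityF F K K' p hp hn fun v he =>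
    tame_dvd K K' p hp hn v (fun hpv => he (pt10_ram K K' p hU v hpv)) he
  have hf : PChr p f ρ := rec_PChr K K' p hp hn hU f ρ hρ
  have hs : SplitP K K' p ρ := rec_split K K' p hp hn f ρ hρ
  refine LVP_of_step K K' h p hp hn f ρ hf hs V Om hL fun j _ => ?_
  exact LVP_twist p hp h hMp hK Ac Bc Om hper V hV hg hNT f (chp ρ j) (chp_PChr hf j)
    (fun w hw => hr w ((hρ.ram w).1 hw)) hL

end H55P
end

-- from Lib.H55P.T15
section

open NumberField IsDedekindDomain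

namespace H55P

open H55N
open H55B (g)

/-! Assembly: the tower theorem for the L-values, inside an algebraic closure Ω of F. -/

section tower

variable {F : Type} [Field F] [NumberField F] {Ω : Type} [Field Ω] [Algebra F Ω]

theorem alg_tower (N K : IntermediateField F Ω) (h : N ≤ K) :
    letI : Algebra N K := (IntermediateField.inclusion h).toRingHom.toAlgebra
    IsScalarTower F N K := by
  letI : Algebra N K := (IntermediateField.inclusion h).toRingHom.toAlgebra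
  exact IsScalarTower.of_algebraMap_eq fun x => ((IntermediateField.inclusion h).commutes x).symm

theorem finDim_of_le {N K : IntermediateField F Ω} [FiniteDimensional F K] (h : N ≤ K) :
    FiniteDimensional F N :=
  Module.Finite.of_injective (IntermediateField.inclusion h).toLinearMap
    (IntermediateField.inclusion h).injective

theorem pext_deg (p : ℕ) (hp : p.Prime) (M N L : IntermediateField F Ω) (hL : PExt p M L) (hMN : M ≤ N)
    (hNL : N ≤ L) :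
    letI : Algebra M N := (IntermediateField.inclusion hMN).toRingHom.toAlgebra
    ∃ j : ℕ, Module.finrank M N = p ^ j := by
  letI : Algebra M N := (IntermediateField.inclusion hMN).toRingHom.toAlgebra
  letI : Algebra N L := (IntermediateField.inclusion hNL).toRingHom.toAlgebra
  have h1 : IsScalarTower F M N := alg_tower M N hMN
  have h2 : IsScalarTower F N L := alg_tower N L hNL
  have hLf : FiniteDimensional F L := hL.fin
  have hMf : FiniteDimensional F M := finDim_of_le hL.le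
  obtain ⟨k, hk⟩ := hL.deg
  have h3 : Module.finrank F M * Module.finrank M N = Module.finrank F N :=
    Module.finrank_mul_finrank F M N
  have h4 : Module.finrank F N * Module.finrank N L = Module.finrank F L :=
    Module.finrank_mul_finrank F N L
  have h5 : Module.finrank M N * Module.finrank N L = p ^ k := by
    have h6 : Module.finrank F M * (Module.finrank M N * Module.finrank N L) =
        Module.finrank F M * p ^ k := by
      rw [← mul_assoc, h3, h4, hk]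
    exact Nat.eq_of_mul_eq_mul_left Module.finrank_pos h6
  obtain ⟨j, -, hj⟩ := (Nat.dvd_prime_pow hp).1 (Dvd.intro _ h5)
  exact ⟨j, hj⟩

end tower

variable {F : Type} [Field F] [NumberField F] [IQ F] {Ω : Type} [Field Ω] [DecidableEq Ω]
  [Algebra F Ω] [IsAlgClosed Ω] [Algebra.IsAlgebraic F Ω] [CharZero Ω]

theorem LVP_tower (p : ℕ) (hp : p.Prime) (M L : IntermediateField F Ω) (hL : PExt p M L)
    [NumberField M] [NumberField L] {m : Ideal (𝓞 F)} {ψ : Ideal (𝓞 F) →*₀ 𝓞 F} (h : IsHecke m ψ)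
    (hmp : IsCoprime m (Ideal.span {(p : 𝓞 F)})) (hU : UnrP p L) (Ac Bc Om : ℂ)
    (hper : Per F Ac Bc Om) (V : ValuationSubring ℂ) (hV : V.valuation (p : ℂ) < 1)
    (hg : GoodV Ac Bc V) (hNT : NTP M p m ψ V)
    (hr : ∀ v : HeightOneSpectrum (𝓞 M), Ram M L v.asIdeal →
      V.valuation (1 - (starRingEnd ℂ) (PsiP M ψ v.asIdeal)) = 1)
    (hL0 : LVP F V Om (PsiP M ψ)) (K : IntermediateField F Ω) [NumberField K] (hMK : M ≤ K)
    (hKL : K ≤ L) : LVP F V Om (PsiP K ψ) := by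
  have hLf : FiniteDimensional F L := hL.fin
  have hMf : FiniteDimensional F M := finDim_of_le hL.le
  have key : ∀ (n : ℕ) (K : IntermediateField F Ω) [NumberField K], M ≤ K → K ≤ L →
      Module.finrank F K = n → LVP F V Om (PsiP K ψ) := by
    intro n
    induction n using Nat.strong_induction_on with
    | _ n ih =>
      intro K _ hMK hKL hn
      rcases eq_or_ne K M with rfl | hne
      · exact hL0
      obtain ⟨N, hMN, hNK, hdeg, hnorm⟩ := chain_step p hp M K L hL hMK hKL hne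
      have hKf : FiniteDimensional F K := finDim_of_le hKL
      have hNf : FiniteDimensional F N := finDim_of_le hNK
      have hNn : NumberField N := H16C.FR_numberField N
      have hNpos : 0 < Module.finrank F N := Module.finrank_pos
      have hlt : Module.finrank F N < n := by
        rw [← hn, hdeg]
        exact lt_mul_of_one_lt_right hNpos hp.one_lt
      have hLN := ih _ hlt N hMN (hNK.trans hKL) rfl
      letI iNK : Algebra N K := (IntermediateField.inclusion hNK).toRingHom.toAlgebra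
      letI iMN : Algebra M N := (IntermediateField.inclusion hMN).toRingHom.toAlgebra
      letI iKL : Algebra K L := (IntermediateField.inclusion hKL).toRingHom.toAlgebra
      obtain ⟨hst, hgal, hfr⟩ := chain_types p hp N K hNK hnorm hdeg
      have hstM : IsScalarTower F M N := alg_tower M N hMN
      have hUK : UnrP p K := UnrP.down K L p hp hU
      obtain ⟨j, hj⟩ := pext_deg p hp M N L hL hMN (hNK.trans hKL)
      have hNTN : NTP N p m ψ V := NTP_up M N p hp j hj V hV hNT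
      refine LVP_step N K p hp hfr h hmp hUK Ac Bc Om hper V hV hg hNTN (fun w hw => ?_) hLN
      obtain ⟨v, hv, hram, hf⟩ := ram_down p hp M N K L hL hMN hNK hKL hnorm w hw
      exact adm_up M N p hp V hV v w hv hf (hr v hram)
  exact key _ K hMK hKL rfl

end H55P
end
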