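import Mathlib
import Pool.Agent.Lib.H1M.PP.D_H55K_D2
import Pool.Agent.Lib.H1M.PP.D_H55P_Stm
import Pool.Agent.Lib.H1M.PP.D_H55P_Z10
import Pool.Agent.Lib.H1M.PP.D_H55P_ZD
import Pool.Agent.Lib.H1M.PP.M001
import Pool.Agent.Lib.H1M.PP.M004
import Pool.Agent.Lib.H1M.PP.M009
import Pool.Agent.Lib.H1M.PP.M010
import Pool.Agent.Lib.H1M.PP.M015
import Pool.Agent.Lib.H1M.PP.M018
import Pool.Agent.Lib.H1M.PP.M021
import Pool.Agent.Lib.H1M.PP.M030
import Pool.Agent.Lib.H1M.PP.M032
import Pool.Agent.Lib.H1M.PP.M033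
import Pool.Agent.Lib.H1M.PP.M034
import Pool.Agent.Lib.H1M.PP.M036
import Pool.Agent.Lib.H1M.PP.M037
import Pool.Agent.Lib.H1M.PP.M040
import Pool.Agent.Lib.H1M.PP.M041
import Pool.Agent.Lib.H1M.PP.M042
import Pool.Agent.Lib.H1M.PP.M047
import Pool.Agent.Lib.H1M.PP.M050

/-! Merged copies (to shorten the build) of Lib.H28G.K14, Lib.H55P.Z3, Lib.H55P.Z13, Lib.H55K.FB3A, Lib.H55K.D6, Lib.H55K.D7, Lib.H55K.J12, Lib.H55K.J11, Lib.H55K.M4C, Lib.H55K.T1, Lib.H55B.I4, Lib.H55N.H7, Lib.H55N.H8, Lib.H55P.Z6, Lib.H55K.C25, Lib.H55K.SKU1. -/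

-- from Lib.H28G.K14
section

open NumberField IsDedekindDomain WeierstrassCurve

namespace H28G

open H55B H55R H99B

/-! Chunk K14 (S/M): small arithmetic facts for the assembly. arith: π | l with l >= 5 prime, π prime and Prim: Nm π divides Nm l = l^2 and is > 1, so Nm π >= 5 > 2; IsCoprime π 6: π does not divide 6 (otherwise π | 6 and π | l, coprime integers, π | 1); not π | 2; not π | -4 (2 om + 1)
((2 om + 1)^2 = -3). below: v = w.under (𝓞 F) contains π, (π) is maximal. val_gen: HeightOneSpectrum.intValuation_singleton or the definition, ak_int. chi_bij: Nat.card Gal(L/F) = finrank = Nm π - 1 = card kˣ (k = O/(π): Nm π = absNorm = card of the quotient) and χ is injective (χ σ = 1 gives sp σ R = act 1 R = R).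
card_k: card k = Nm π. not_three: 3 and π are coprime (Prim: 3 | π - 1). xi_form: 12/(2 om + 1) = -4 (2 om + 1) as (2 om + 1)^2 = -3 in L (ok_rel). pi_finite: finitely many primes contain a nonzero element (Ideal.finite_factors or X10_bad of H55R.X10). -/

theorem K14_not_six {l : ℕ} [Fact l.Prime] (h5 : 5 ≤ l) {π : O} (hp : Prime π)
    (hd : π ∣ (l : O)) : ¬ π ∣ 6 := by
  intro h
  have hl : l.Prime := Fact.out
  have h1 : Nat.Coprime l 6 := by
    rw [Nat.Prime.coprime_iff_not_dvd hl]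
    intro h2
    have h3 : l ∣ 2 * 3 := h2
    rcases (Nat.Prime.dvd_mul hl).1 h3 with h4 | h4
    · have := Nat.le_of_dvd (by norm_num) h4
      omega
    · have := Nat.le_of_dvd (by norm_num) h4
      omega
  have h2 : IsCoprime (l : ℤ) (6 : ℤ) := Nat.isCoprime_iff_coprime.2 h1
  obtain ⟨a, b, hab⟩ := h2
  have h3 : ((a * l + b * 6 : ℤ) : O) = 1 := by rw [hab, Int.cast_one]
  push_cast at h3
  apply hp.not_isUnit
  rw [isUnit_iff_dvd_one, ← h3]
  exact dvd_add (Dvd.dvd.mul_left hd _) (Dvd.dvd.mul_left h _)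

theorem K14_Nm_nat (l : ℕ) : Nm (l : O) = l ^ 2 := by
  have h := Nm_repr (l : ℤ) 0
  have h1 : ((l : ℤ) : O) + ((0 : ℤ) : O) * om = (l : O) := by push_cast; ring
  rw [h1] at h
  have h2 : ((Nm (l : O) : ℕ) : ℤ) = ((l ^ 2 : ℕ) : ℤ) := by
    rw [h]
    push_cast
    ring
  exact_mod_cast h2

theorem arith {l : ℕ} [Fact l.Prime] (h5 : 5 ≤ l) {π : O} (hp : Prime π) (hπ : Prim π)
    (hd : π ∣ (l : O)) : 2 < Nm π ∧ IsCoprime π 6 ∧ ¬ π ∣ 2 ∧ ¬ π ∣ (-4 * (2 * om + 1) : O) := by
  have hl : l.Prime := Fact.out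
  have h6 := K14_not_six h5 hp hd
  have h2 : ¬ π ∣ 2 := by
    intro h
    apply h6
    have h3 : (6 : O) = 2 * 3 := by norm_num
    rw [h3]
    exact Dvd.dvd.mul_right h _
  refine ⟨?_, ?_, h2, ?_⟩
  · obtain ⟨y, hy⟩ := hd
    have h3 : Nm π ∣ l ^ 2 := by
      rw [← K14_Nm_nat, hy, Nm_mul]
      exact Dvd.intro _ rfl
    obtain ⟨i, hi, hi2⟩ := (Nat.dvd_prime_pow hl).1 h3
    have h4 : Nm π ≠ 1 := fun h => hp.not_isUnit (Nm_eq_one.1 h)
    rw [hi2] at h4 ⊢
    rcases i with _ | i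
    · exact absurd (pow_zero l) h4
    · have : l ≤ l ^ (i + 1) := Nat.le_self_pow (by omega) l
      omega
  · exact (hp.irreducible.coprime_iff_not_dvd).2 h6
  · intro h
    have h3 : (-4 * (2 * om + 1) : O) * (-4 * (2 * om + 1)) = -(6 * (2 * (2 * 2))) := by
      linear_combination 64 * om_rel
    have h4 : π ∣ -(6 * (2 * (2 * 2)) : O) := by
      rw [← h3]
      exact Dvd.dvd.mul_right h _
    rw [dvd_neg] at h4
    rcases hp.dvd_or_dvd h4 with h5 | h5
    · exact h6 h5
    rcases hp.dvd_or_dvd h5 with h5 | h5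
    · exact h2 h5
    rcases hp.dvd_or_dvd h5 with h5 | h5
    · exact h2 h5
    · exact h2 h5

theorem K14_max {π : O} (hp : Prime π) : (Ideal.span {π}).IsMaximal := by
  have h1 : (Ideal.span {π}).IsPrime := (Ideal.span_singleton_prime hp.ne_zero).2 hp
  refine h1.isMaximal ?_
  rw [Ne, Ideal.span_singleton_eq_bot]
  exact hp.ne_zero

theorem below {L : Type} [Field L] [NumberField L] [Algebra F L] {π : O} (hp : Prime π) (w : Pl L)
    (hw : algebraMap O (𝓞 L) π ∈ w.asIdeal) : ∃ v : Pl F, v.asIdeal = Ideal.span {π} ∧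
      w.under (𝓞 F) = v := by
  refine ⟨w.under (𝓞 F), ?_, rfl⟩
  have h1 := K14_max hp
  refine (h1.eq_of_le (w.under (𝓞 F)).isPrime.ne_top ?_).symm
  rw [Ideal.span_singleton_le_iff_mem]
  exact hw

theorem val_gen {π : O} (v : Pl F) (hv : v.asIdeal = Ideal.span {π}) :
    v.valuation F (ak F π) = WithZero.exp (-1 : ℤ) := by
  have h0 : π ≠ 0 := by
    rintro rfl
    apply v.ne_bot
    rw [hv, Ideal.span_singleton_eq_bot]
  have h1 : ak F π = algebraMap (𝓞 F) F π := rfl
  rw [h1, HeightOneSpectrum.valuation_of_algebraMap]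
  exact HeightOneSpectrum.intValuation_singleton v h0 hv

theorem K14_card {π : O} {k : Type} [Field k] (q : O →+* k)
    (hq : Function.Surjective q) (hk : ∀ x, q x = 0 ↔ π ∣ x) : Nat.card k = Nm π := by
  have h1 : RingHom.ker q = Ideal.span {π} := by
    ext x
    rw [RingHom.mem_ker, hk, Ideal.mem_span_singleton]
  have h2 : Nat.card (O ⧸ RingHom.ker q) = Nat.card k :=
    Nat.card_congr (RingHom.quotientKerEquivOfSurjective hq).toEquiv
  rw [← h2, h1]
  unfold H55B.Nm
  rw [Ideal.absNorm_apply, Submodule.cardQuot_apply]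

theorem chi_bij {L : Type} [Field L] [NumberField L] [DecidableEq L] [Algebra F L] {π : O}
    (hp : Prime π) (hL : TFld F L π) (hdeg : Module.finrank F L = Nm π - 1) {k : Type} [Field k]
    [Fintype k] (q : O →+* k) (hq : Function.Surjective q) (hk : ∀ x, q x = 0 ↔ π ∣ x)
    (χ : Gal(L/F) →* kˣ)
    (hχ : ∀ (σ : Gal(L/F)) (c : O), q c = χ σ → ∀ R ∈ Tor π L, sp σ R = act c R) :
    Function.Bijective χ := by
  classical
  have hgal : IsGalois F L := hL.gal
  have hfin : Finite kˣ := inferInstance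
  rw [Nat.bijective_iff_injective_and_card]
  constructor
  · rw [injective_iff_map_eq_one]
    intro σ hσ
    refine hL.gen σ fun R hR => ?_
    rw [hχ σ 1 (by rw [hσ, map_one, Units.val_one]) R hR, act_one]
  · rw [IsGalois.card_aut_eq_finrank, hdeg, ← K14_card q hq hk, Nat.card_units]

theorem card_k {π : O} (hp : Prime π) {k : Type} [Field k] [Fintype k] (q : O →+* k)
    (hq : Function.Surjective q) (hk : ∀ x, q x = 0 ↔ π ∣ x) (h : 2 < Nm π) :
    2 < Fintype.card k := by
  rw [← Nat.card_eq_fintype_card, K14_card q hq hk]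
  exact h

theorem not_three {L : Type} [Field L] [NumberField L] [Algebra F L] {π : O} (hπ : Prim π)
    (w : Pl L) (hw : algebraMap O (𝓞 L) π ∈ w.asIdeal) : (3 : 𝓞 L) ∉ w.asIdeal := by
  intro h
  obtain ⟨y, hy⟩ := hπ
  have h1 : (1 : 𝓞 L) = algebraMap O (𝓞 L) π - 3 * algebraMap O (𝓞 L) y := by
    have h2 : π = 1 + 3 * y := by linear_combination hy
    rw [h2, map_add, map_mul, map_one, map_ofNat]
    ring
  apply w.isPrime.ne_top
  rw [Ideal.eq_top_iff_one, h1]
  exact Ideal.sub_mem _ hw (Ideal.mul_mem_right _ _ h)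

theorem xi_form {L : Type} [Field L] [DecidableEq L] [Algebra F L] {x t : L} :
    x / algebraMap F L (-1) - 1 - algebraMap F L ((-4 * (2 * om + 1) : O) : F) * t =
      -(x + 1 + 12 / (2 * ok L + 1) * t) := by
  have h0 := char0 (k := L)
  have h1 : algebraMap F L ((-4 * (2 * om + 1) : O) : F) = -4 * (2 * ok L + 1) := by
    unfold ok
    push_cast
    simp only [map_mul, map_add, map_neg, map_one, map_ofNat]
  have h2 : (2 * ok L + 1) ^ 2 = -3 := by linear_combination 4 * ok_rel (k := L)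
  have h3 : (2 * ok L + 1) ≠ 0 := by
    intro h
    rw [h] at h2
    norm_num at h2
  have h4 : 12 / (2 * ok L + 1) = -4 * (2 * ok L + 1) := by
    rw [div_eq_iff h3]
    linear_combination 4 * h2
  rw [h1, h4, map_neg, map_one]
  ring

theorem pi_finite {L : Type} [Field L] [NumberField L] [Algebra F L] {π : O} (hp : Prime π) :
    {v : Pl L | algebraMap O (𝓞 L) π ∈ v.asIdeal}.Finite := by
  have h1 : algebraMap O (𝓞 L) π ≠ 0 := by
    intro h
    have h2 := congrArg (fun x : 𝓞 L => (x : L)) h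
    have h3 : ((algebraMap O (𝓞 L) π : 𝓞 L) : L) = algebraMap F L (π : F) := rfl
    simp only [h3] at h2
    have h4 : algebraMap F L (π : F) = algebraMap F L 0 := by
      rw [map_zero]
      exact h2
    have h5 := (algebraMap F L).injective h4
    exact hp.ne_zero (RingOfIntegers.ext h5)
  have h2 : Ideal.span {algebraMap O (𝓞 L) π} ≠ ⊥ := by
    rw [Ne, Ideal.span_singleton_eq_bot]
    exact h1
  refine (Ideal.finite_factors h2).subset fun v hv => ?_
  show v.asIdeal ∣ _
  rw [Ideal.dvd_span_singleton]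
  exact hv

end H28G
end

-- from Lib.H55P.Z3
section

open NumberField IsDedekindDomain

namespace H55P

open H55N
open H55B (F O om e emb Prim R)

/-! Chunk PZ3 (M). The base of the induction, K = F (finrank 1).
baseE: PORT of LV_base in Lib/H55N/T2.lean: Λ s = -(1/3) G (e om - 1) s, Λ 1 = -R0/3, Λ 1 / OmE = -1/(3 e(2 om + 1)), a unit since V(3) = 1 (e(2 om + 1)^2 = -3). R0 is not 0: E5_R0.
ntpE: the ideal a = (4) of 𝓞 K: PsiP K psiE a = Psi K a = conj(e(pg((4)))) = 4 (relNorm of (4) is (4)^1: Ideal.relNorm_algebraMap; 4 = 1 + 3 is primary, pg_span), 1 - 4 = -3, V(3) = 1 since p >= 5 and V(p) < 1. (4) is coprime to p and to mK K m3 = (3). -/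

theorem PZ3_sq3 (V : ValuationSubring ℂ) (h3 : V.valuation 3 = 1) : V.valuation (e (2 * om + 1)) = 1 := by
  have h1 : e (2 * om + 1) ^ 2 = -3 := by
    have h2 : (2 * om + 1 : O) ^ 2 = -3 := by linear_combination 4 * H55B.om_rel
    rw [← map_pow, h2, map_neg, map_ofNat]
  have h2 : V.valuation (e (2 * om + 1)) ^ 2 = 1 := by
    rw [← map_pow, h1, Valuation.map_neg, h3]
  exact (pow_eq_one_iff_of_nonneg zero_le two_ne_zero).1 h2

theorem PZ3_cop {R : Type} [CommRing R] (a b : ℕ) (h : Nat.Coprime a b) :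
    IsCoprime (Ideal.span {(a : R)}) (Ideal.span {(b : R)}) := by
  rw [Ideal.isCoprime_span_singleton_iff]
  have h1 : IsCoprime (a : ℤ) (b : ℤ) := Nat.isCoprime_iff_coprime.2 h
  have h2 := h1.map (Int.castRingHom R)
  simpa using h2

theorem baseE (K : Type) [Field K] [NumberField K] [Algebra F K] (h1 : Module.finrank F K = 1)
    (V : ValuationSubring ℂ) (h3 : V.valuation 3 = 1) : LVP F V OmE (PsiP K psiE) := by
  obtain ⟨ε, hε⟩ := T2_equiv K h1
  refine ⟨fun s => -(1 / 3) * H55B.G (e om - 1) s, ?_, ?_, ?_⟩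
  · exact analyticOnNhd_const.mul (H55B.G_analytic (e om - 1))
  · intro s hs
    have h2 := T2_hasSum s hs
    rw [H55B.Kf_one s hs] at h2
    rw [← ε.hasSum_iff]
    refine h2.congr_fun fun J => ?_
    show psiF (Ideal.relNorm O (ε J)) * (Ideal.absNorm (ε J) : ℂ) ^ (-s) = _
    rw [(hε J).1, (hε J).2]
  · have h3' := E5_R0.2
    have h4 : (fun s => -(1 / 3) * H55B.G (e om - 1) s) 1 / OmE ^ Module.finrank F K =
        -(1 / (3 * e (2 * om + 1))) := by
      rw [h1, pow_one]
      show -(1 / 3) * H55B.G (e om - 1) 1 / OmE = _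
      rw [H55B.G_one]
      have h5 : R (e om - 1) = R0 := rfl
      have h6 : e (2 * om + 1) ≠ 0 := by
        intro h0
        have := PZ3_sq3 V h3
        rw [h0, map_zero] at this
        exact zero_ne_one this
      unfold OmE
      rw [h5]
      field_simp
    rw [h4, Valuation.map_neg, one_div, map_inv₀, map_mul, h3, PZ3_sq3 V h3, one_mul, inv_one]

theorem val3 (p : ℕ) (hp : p.Prime) (h5 : 5 ≤ p) (V : ValuationSubring ℂ)
    (hV : V.valuation (p : ℂ) < 1) : V.valuation (3 : ℂ) = 1 ∧ V.valuation (2 : ℂ) = 1 := by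
  have h1 := val_nat p hp V hV 3 (fun h => by
    have := Nat.le_of_dvd (by norm_num) h
    omega)
  have h2 := val_nat p hp V hV 2 (fun h => by
    have := Nat.le_of_dvd (by norm_num) h
    omega)
  exact ⟨by exact_mod_cast h1, by exact_mod_cast h2⟩

theorem ntpE (K : Type) [Field K] [NumberField K] [Algebra F K] (h1 : Module.finrank F K = 1) (p : ℕ)
    (hp : p.Prime) (h5 : 5 ≤ p) (V : ValuationSubring ℂ) (hV : V.valuation (p : ℂ) < 1) :
    NTP K p m3 psiE V := by
  have hp5 := h5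
  have hr : Module.finrank O (𝓞 K) = 1 := by
    rw [← h1]
    exact (IsFractionRing.finrank_eq O F (𝓞 K) K).symm
  have e4 : Ideal.span {(4 : 𝓞 K)} = (Ideal.span {(4 : O)}).map (algebraMap O (𝓞 K)) := by
    rw [Ideal.map_span, Set.image_singleton, map_ofNat]
  have e3 : mK K m3 = Ideal.span {(3 : 𝓞 K)} := by
    unfold mK m3
    rw [Ideal.map_span, Set.image_singleton, map_ofNat]
  have hp4 : Nat.Coprime 4 p := by
    have h : Nat.Coprime 2 p := (Nat.coprime_primes Nat.prime_two hp).2 (by omega)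
    exact Nat.Coprime.pow_left 2 h
  refine ⟨Ideal.span {(4 : 𝓞 K)}, ?_, ?_, ?_⟩
  · have := PZ3_cop (R := 𝓞 K) 4 p hp4
    exact_mod_cast this
  · rw [e3]
    have := PZ3_cop (R := 𝓞 K) 4 3 (by norm_num)
    exact_mod_cast this
  · have h4 : PsiP K psiE (Ideal.span {(4 : 𝓞 K)}) = 4 := by
      have hprim : Prim (4 : O) := ⟨1, by norm_num⟩
      rw [PsiP_apply, e4, Ideal.relNorm_algebraMap, hr, pow_one, psiE_apply, pg_span hprim, map_ofNat,
        map_ofNat]
    rw [h4]
    have h5 : (1 : ℂ) - 4 = -3 := by norm_num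
    rw [h5, Valuation.map_neg]
    exact (val3 p hp hp5 V hV).1

theorem goodE (V : ValuationSubring ℂ) (h3 : V.valuation 3 = 1) (h2 : V.valuation 2 = 1) :
    GoodV (0 : ℂ) (1 / 4) V := by
  have h4 : V.valuation (4 : ℂ) = 1 := by
    have e : (4 : ℂ) = 2 * 2 := by norm_num
    rw [e, map_mul, h2, one_mul]
  refine ⟨zero_mem V, ?_, h2, ?_⟩
  · rw [← V.valuation_le_one_iff, one_div, map_inv₀, h4, inv_one]
  · have e : (4 : ℂ) * 0 ^ 3 + 27 * (1 / 4) ^ 2 = (3 * 3 * 3) / (4 * 4) := by norm_num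
    rw [e, map_div₀, map_mul, map_mul, map_mul, h3, h4, one_mul, one_mul, div_one]

theorem m3_cop (p : ℕ) (hp : p.Prime) (h5 : 5 ≤ p) : IsCoprime m3 (Ideal.span {(p : O)}) := by
  have h : Nat.Coprime 3 p := (Nat.coprime_primes Nat.prime_three hp).2 (by omega)
  have := PZ3_cop (R := O) 3 p h
  unfold m3
  exact_mod_cast this

end H55P
end

-- from Lib.H55P.Z13
section

open NumberField IsDedekindDomain WeierstrassCurve

namespace H55P

section gen

variable {F : Type} [Field F] [NumberField F] {Ω : Type} [Field Ω] [Algebra F Ω]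

/-! Chunk PZ13 (M). Conversions between abstract fields and subfields of Ω.
ramF_range: the isomorphism 𝓞 L ≃ 𝓞 j.fieldRange (AlgEquiv.ofInjectiveField j, RingOfIntegers.mapRingEquiv) over 𝓞 F; W = the inverse image of the prime W' of RamF; v.map <= W^2, so W lies over v (v is maximal, v.map <= W) and the ramification index is >= 2
(Ideal.le_pow_ramificationIdx / ramificationIdx'_spec; see pt10_ram in Lib/H55P/T10.lean).
unr3_down: e(W|v) = e(W|w) e(w|v) (Ideal.ramificationIdx_tower) for a prime W of K' above w; 3 in w implies 3 in W.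
LVP_congr: the same Λ; HasSum over the ideals of 𝓞 K and of 𝓞 K' correspond under the bijection of ideals given by the isomorphism (RingEquiv.idealComapOrderIso or Ideal.map): absNorm is the same (quotients are isomorphic), relNorm is the same (Ideal.relNorm_map or
PsiP_top with K' as an extension of K of degree one: PsiP K' (a.map) = PsiP K (relNorm (a.map)) = PsiP K a; see T2_equiv in Lib/H55N/T2.lean for the degree one computation). finrank F K = finrank F K'. -/

theorem ramF_range (L : Type) [Field L] [NumberField L] [Algebra F L] (j : L →ₐ[F] Ω)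
    (v : HeightOneSpectrum (𝓞 F)) (h : RamF j.fieldRange v.asIdeal) :
    ∃ W : HeightOneSpectrum (𝓞 L), v.asIdeal = W.asIdeal.under (𝓞 F) ∧
      W.asIdeal.ramificationIdx (𝓞 F) ≠ 1 := by
  obtain ⟨W', hW', hle⟩ := h
  obtain ⟨θ, hθ⟩ : ∃ θ : 𝓞 L ≃+* 𝓞 j.fieldRange, ∀ x : 𝓞 F,
      θ (algebraMap (𝓞 F) (𝓞 L) x) = algebraMap (𝓞 F) (𝓞 j.fieldRange) x := by
    let e : L ≃ₐ[F] j.fieldRange := AlgEquiv.ofInjectiveField j
    refine ⟨RingOfIntegers.mapRingEquiv e, fun x => ?_⟩
    apply RingOfIntegers.coe_injective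
    show e (algebraMap F L (x : F)) = algebraMap F j.fieldRange (x : F)
    exact e.commutes _
  have hmap : (v.asIdeal.map (algebraMap (𝓞 F) (𝓞 L))).map (θ : 𝓞 L →+* 𝓞 j.fieldRange) =
      v.asIdeal.map (algebraMap (𝓞 F) (𝓞 j.fieldRange)) := by
    rw [Ideal.map_map]
    congr 1
    exact RingHom.ext fun x => hθ x
  obtain ⟨P, hP⟩ : ∃ P : Ideal (𝓞 L), P = W'.comap (θ : 𝓞 L →+* 𝓞 j.fieldRange) := ⟨_, rfl⟩
  have hPp : P.IsPrime := by
    rw [hP]
    exact hW'.comap _
  have hPmap : P.map (θ : 𝓞 L →+* 𝓞 j.fieldRange) = W' := by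
    rw [hP]
    exact Ideal.map_comap_of_surjective _ θ.surjective _
  have h2 : v.asIdeal.map (algebraMap (𝓞 F) (𝓞 L)) ≤ P ^ 2 := by
    have h3 : (v.asIdeal.map (algebraMap (𝓞 F) (𝓞 L))).map (θ : 𝓞 L →+* 𝓞 j.fieldRange) ≤
        (P ^ 2).map (θ : 𝓞 L →+* 𝓞 j.fieldRange) := by
      rw [hmap, Ideal.map_pow, hPmap]
      exact hle
    have h4 := Ideal.comap_mono (f := (θ : 𝓞 L →+* 𝓞 j.fieldRange)) h3
    have h5 : ∀ I : Ideal (𝓞 L), (I.map (θ : 𝓞 L →+* 𝓞 j.fieldRange)).comap
        (θ : 𝓞 L →+* 𝓞 j.fieldRange) = I := fun I =>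
      Ideal.comap_map_of_bijective _ θ.bijective
    rwa [h5, h5] at h4
  have h1 : v.asIdeal.map (algebraMap (𝓞 F) (𝓞 L)) ≤ P := h2.trans (Ideal.pow_le_self two_ne_zero)
  have hv0 : v.asIdeal.map (algebraMap (𝓞 F) (𝓞 L)) ≠ ⊥ := by
    rw [Ne, Ideal.map_eq_bot_iff_of_injective (FaithfulSMul.algebraMap_injective (𝓞 F) (𝓞 L))]
    exact v.ne_bot
  have hP0 : P ≠ ⊥ := by
    intro h
    rw [h] at h1
    exact hv0 (le_bot_iff.1 h1)
  have hvm := v.isMaximal
  have hunder : v.asIdeal = P.under (𝓞 F) := by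
    refine hvm.eq_of_le (Ideal.IsPrime.ne_top inferInstance) ?_
    rw [Ideal.under_def, ← Ideal.map_le_iff_le_comap]
    exact h1
  refine ⟨⟨P, hPp, hP0⟩, hunder, ?_⟩
  have hlies : P.LiesOver v.asIdeal := ⟨hunder⟩
  show P.ramificationIdx (𝓞 F) ≠ 1
  rw [← Ideal.ramificationIdx'_eq_ramificationIdx v.asIdeal P v.ne_bot,
    Ideal.ramificationIdx'_ne_one_iff h1]
  exact h2

end gen

theorem unr3_down (K K' : Type) [Field K] [NumberField K] [Algebra H55B.F K] [Field K'] [NumberField K']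
    [Algebra H55B.F K'] [Algebra K K'] [IsScalarTower H55B.F K K'] (h : H35N.Unr3 K') : H35N.Unr3 K := by
  intro w hw
  have hwm := w.isMaximal
  obtain ⟨Q, hQ1, hQ2⟩ := Ideal.exists_maximal_ideal_liesOver_of_isIntegral (S := 𝓞 K') w.asIdeal
  have hQ0 : Q ≠ ⊥ := Ideal.ne_bot_of_liesOver_of_ne_bot w.ne_bot Q
  have h3 : (3 : 𝓞 K') ∈ Q := by
    have h4 : algebraMap (𝓞 K) (𝓞 K') 3 ∈ Q := by
      have h5 : (3 : 𝓞 K) ∈ Q.under (𝓞 K) := by
        rw [← hQ2.over]
        exact hw
      exact h5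
    rwa [map_ofNat] at h4
  have h6 := h ⟨Q, hQ1.isPrime, hQ0⟩ h3
  have h7 := Ideal.ramificationIdx_tower (R := H55B.O) w.asIdeal Q
  have h8 : Q.ramificationIdx H55B.O = 1 := h6
  rw [h8] at h7
  exact Nat.eq_one_of_mul_eq_one_right h7.symm

theorem pz13_equiv (K K' : Type) [Field K] [NumberField K] [Field K'] [NumberField K'] [Algebra K K']
    (hsurj : Function.Surjective (algebraMap K K')) :
    ∃ ε : Ideal (𝓞 K) ≃ Ideal (𝓞 K'), ∀ J : Ideal (𝓞 K), Ideal.relNorm (𝓞 K) (ε J) = J ∧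
      Ideal.absNorm (ε J) = Ideal.absNorm J := by
  have h1 : Module.finrank K K' = 1 := by
    rw [finrank_eq_one_iff_of_nonzero' (1 : K') one_ne_zero]
    intro x
    obtain ⟨c, hc⟩ := hsurj x
    exact ⟨c, by rw [← hc, Algebra.smul_def, mul_one]⟩
  have hinj : Function.Injective (algebraMap (𝓞 K) (𝓞 K')) :=
    FaithfulSMul.algebraMap_injective (𝓞 K) (𝓞 K')
  have hsurjO : Function.Surjective (algebraMap (𝓞 K) (𝓞 K')) := by
    intro x
    obtain ⟨y, hy⟩ := hsurj (x : K')
    have hyi : IsIntegral ℤ y := by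
      have h2 : IsIntegral ℤ (algebraMap K K' y) := by
        rw [hy]
        exact RingOfIntegers.isIntegral_coe x
      exact (isIntegral_algebraMap_iff (algebraMap K K').injective).1 h2
    refine ⟨⟨y, hyi⟩, ?_⟩
    apply RingOfIntegers.ext
    rw [← hy]
    rfl
  let ε₀ : 𝓞 K ≃+* 𝓞 K' := RingEquiv.ofBijective (algebraMap (𝓞 K) (𝓞 K')) ⟨hinj, hsurjO⟩
  have hr : Module.finrank (𝓞 K) (𝓞 K') = 1 := by
    rw [← h1]
    exact (IsFractionRing.finrank_eq (𝓞 K) K (𝓞 K') K').symm
  have key : ∀ J : Ideal (𝓞 K), Ideal.relNorm (𝓞 K) (J.map (algebraMap (𝓞 K) (𝓞 K'))) = J := by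
    intro J
    rw [Ideal.relNorm_algebraMap (𝓞 K') J, hr, pow_one]
  refine ⟨(ε₀.idealComapOrderIso.symm).toEquiv, fun J => ?_⟩
  have h3 : (ε₀.idealComapOrderIso.symm).toEquiv J = J.map (algebraMap (𝓞 K) (𝓞 K')) := rfl
  rw [h3]
  refine ⟨key J, ?_⟩
  rw [← Ideal.absNorm_relNorm (𝓞 K) (𝓞 K'), key J]

theorem LVP_congr {F : Type} [Field F] [NumberField F] [IQ F] (K K' : Type) [Field K] [NumberField K]
    [Algebra F K] [Field K'] [NumberField K'] [Algebra F K'] (θ : K ≃ₐ[F] K')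
    (V : ValuationSubring ℂ) (Om : ℂ) (ψ : Ideal (𝓞 F) →*₀ 𝓞 F) (h : LVP F V Om (PsiP K' ψ)) :
    LVP F V Om (PsiP K ψ) := by
  obtain ⟨Λ, h1, h2, h3⟩ := h
  letI : Algebra K K' := (θ : K →+* K').toAlgebra
  have hst : IsScalarTower F K K' := IsScalarTower.of_algebraMap_eq fun x => (θ.commutes x).symm
  have hsurj : Function.Surjective (algebraMap K K') := θ.surjective
  obtain ⟨ε, hε⟩ := pz13_equiv K K' hsurj
  refine ⟨Λ, h1, fun s hs => ?_, ?_⟩
  · have h4 := h2 s hs
    rw [← ε.hasSum_iff] at h4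
    have h5 : (H55N.tm (PsiP K' ψ) s) ∘ ε = H55N.tm (PsiP K ψ) s := by
      funext a
      obtain ⟨e1, e2⟩ := hε a
      show PsiP K' ψ (ε a) * (Ideal.absNorm (ε a) : ℂ) ^ (-s) =
        PsiP K ψ a * (Ideal.absNorm a : ℂ) ^ (-s)
      rw [PsiP_top (K := K) ψ K' (ε a), e1, e2]
    rwa [h5] at h4
  · rw [θ.toLinearEquiv.finrank_eq]
    exact h3

end H55P
end

-- from Lib.H55K.FB3A
section

/-! # H55K: the L-function over K -/

open NumberField IsDedekindDomain WeierstrassCurve

namespace H55K.TQ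

open H55P (IQ embF eF LF Per IsHecke Pt ac Inert Dec Nm UnitP)
open H35P (WAB Ker tt GoodW IntW)
open H55K.MG (VC Crd)

variable {F : Type} [Field F] [NumberField F] [IQ F] {W : WeierstrassCurve ℤ} {Om : ℂ}
    {m : Ideal (𝓞 F)} {ψ : Ideal (𝓞 F) →*₀ 𝓞 F} {p : ℕ}

/-- Chunk FB3A (S). Extract from H55P.LVP_congr (Z13.lean): the L-series over isomorphic fields. -/
theorem tm_congr (K K' : Type) [Field K] [NumberField K] [Algebra F K] [Field K'] [NumberField K'] [Algebra F K'] (θ : K ≃ₐ[F] K')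
    (s x : ℂ) (h : HasSum (H55N.tm (H55P.PsiP K' ψ) s) x) : HasSum (H55N.tm (H55P.PsiP K ψ) s) x := by
  letI : Algebra K K' := (θ : K →+* K').toAlgebra
  have hst : IsScalarTower F K K' := IsScalarTower.of_algebraMap_eq fun x => (θ.commutes x).symm
  have hsurj : Function.Surjective (algebraMap K K') := θ.surjective
  obtain ⟨ε, hε⟩ := H55P.pz13_equiv K K' hsurj
  rw [← ε.hasSum_iff] at h
  have h5 : (H55N.tm (H55P.PsiP K' ψ) s) ∘ ε = H55N.tm (H55P.PsiP K ψ) s := by
    funext a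
    obtain ⟨e1, e2⟩ := hε a
    show H55P.PsiP K' ψ (ε a) * (Ideal.absNorm (ε a) : ℂ) ^ (-s) =
      H55P.PsiP K ψ a * (Ideal.absNorm a : ℂ) ^ (-s)
    rw [H55P.PsiP_top (K := K) ψ K' (ε a), e1, e2]
  rwa [h5] at h

/-- Chunk FB3A (S). (W⁄(𝓞 F))⁄F)⁄K = W⁄K. -/
theorem cur_eq (K : Type) [Field K] [NumberField K] [Algebra F K] : ((W⁄(𝓞 F))⁄F)⁄K = W⁄K := by
  show ((W.map (algebraMap ℤ (𝓞 F))).map (algebraMap (𝓞 F) F)).map (algebraMap F K) = W.map (algebraMap ℤ K)
  rw [WeierstrassCurve.map_map, WeierstrassCurve.map_map]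
  congr 1
  exact Subsingleton.elim _ _

end H55K.TQ
end

-- from Lib.H55K.D6
section

/-! # H55K, part D: the local Euler factors -/

open NumberField IsDedekindDomain WeierstrassCurve

namespace H55K.DD

theorem d6_one_lt {K : Type} [Field K] [NumberField K] (w : HeightOneSpectrum (𝓞 K)) :
    1 < Ideal.absNorm w.asIdeal := by
  have h1 : Ideal.absNorm w.asIdeal ≠ 1 := by
    rw [Ne, Ideal.absNorm_eq_one_iff]; exact w.isPrime.ne_top
  have h0 : Ideal.absNorm w.asIdeal ≠ 0 := by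
    rw [Ne, Ideal.absNorm_eq_zero_iff]; exact w.ne_bot
  omega

/-- The ring homomorphism from the integers of F to the integers of the completion. -/
noncomputable def d6_hom (F K : Type) [Field F] [NumberField F] [Field K] [NumberField K] [Algebra F K]
    (w : HeightOneSpectrum (𝓞 K)) : 𝓞 F →+* w.adicCompletionIntegers K :=
  (algebraMap (𝓞 K) (w.adicCompletionIntegers K)).comp (algebraMap (𝓞 F) (𝓞 K))

theorem d6_curve {F K : Type} [Field F] [NumberField F] [Field K] [NumberField K] [Algebra F K]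
    (W₀ : WeierstrassCurve (𝓞 F)) (w : HeightOneSpectrum (𝓞 K)) :
    ((W₀⁄F)⁄K)⁄(w.adicCompletion K) = (W₀.map (d6_hom F K w))⁄(w.adicCompletion K) := by
  show ((W₀.map (algebraMap (𝓞 F) F)).map (algebraMap F K)).map (algebraMap K (w.adicCompletion K)) =
    (W₀.map (d6_hom F K w)).map (algebraMap (w.adicCompletionIntegers K) (w.adicCompletion K))
  rw [WeierstrassCurve.map_map, WeierstrassCurve.map_map, WeierstrassCurve.map_map]
  congr 1

theorem d6_unit {F K : Type} [Field F] [NumberField F] [Field K] [NumberField K] [Algebra F K]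
    (W₀ : WeierstrassCurve (𝓞 F)) (w : HeightOneSpectrum (𝓞 K)) (v : HeightOneSpectrum (𝓞 F))
    (hv : v.asIdeal = w.asIdeal.under (𝓞 F)) (hΔ : W₀.Δ ∉ v.asIdeal) :
    IsUnit (W₀.map (d6_hom F K w)).Δ := by
  rw [WeierstrassCurve.map_Δ]
  by_contra hcon
  apply hΔ
  rw [hv, Ideal.under_def, Ideal.mem_comap, ← H55B.residue_ker K w, RingHom.mem_ker,
    RingHom.comp_apply, IsLocalRing.residue_eq_zero_iff, IsLocalRing.mem_maximalIdeal]
  exact hcon

/-- Chunk D6 (M). Good w: R_w = w.adicCompletionIntegers K, W₀' = W₀.map (algebraMap (𝓞 F) → 𝓞 K → R_w), unit discriminant (residue_ker: W₀.Δ not in v = w ∩ 𝓞 F; see H55B.F4_unit); ((W₀⁄F)⁄K)⁄K_w = W₀'⁄K_w (map_map and compatibility of the algebra maps). good_loc; the residue field k' = ResidueField R_w, φ = residue ∘ algebraMap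
(H55B.residue_ker, residue_surj, residue_card); pts_res: the number of points N is q + 1 - α^f - β^f, q = absNorm w = (α β)^f (absNorm v ^ f). So the local polynomial with complex coefficients is (1 - α^f X)(1 - β^f X) (see H55B.loc_good), and the Euler factor is the product of two (H55B.I2_local_good, I2_cast_ofPS, I2_map_invOfUnit; PowerSeries.mul_inv_rev;
H55N or H55C.b8_LEF: the form with absNorm w). -/
theorem lf_good {F K : Type} [Field F] [NumberField F] [Field K] [NumberField K] [Algebra F K]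
    (W₀ : WeierstrassCurve (𝓞 F)) (w : HeightOneSpectrum (𝓞 K)) (v : HeightOneSpectrum (𝓞 F))
    (hv : v.asIdeal = w.asIdeal.under (𝓞 F)) (hΔ : W₀.Δ ∉ v.asIdeal) (α β : ℂ)
    (h1 : α + β = (Ideal.absNorm v.asIdeal : ℂ) + 1 - (Nat.card (W₀⁄(𝓞 F ⧸ v.asIdeal)).toAffine.Point : ℂ))
    (h2 : α * β = (Ideal.absNorm v.asIdeal : ℂ)) :
    LF' ((W₀⁄F)⁄K) w = ef (Ideal.absNorm w.asIdeal) (α ^ (w.asIdeal.inertiaDeg (𝓞 F))) *
      ef (Ideal.absNorm w.asIdeal) (β ^ (w.asIdeal.inertiaDeg (𝓞 F))) := by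
  have hq := d6_one_lt w
  set f := w.asIdeal.inertiaDeg (𝓞 F) with hf
  obtain ⟨hfin, hcard⟩ := H55B.residue_card K w
  have hker := H55B.residue_ker K w
  set φ := (IsLocalRing.residue (w.adicCompletionIntegers K)).comp
    (algebraMap (𝓞 K) (w.adicCompletionIntegers K)) with hφ
  have hpts := pts_res W₀ w v hv hΔ α β h1 h2 (IsLocalRing.ResidueField (w.adicCompletionIntegers K)) φ
    (H55B.residue_surj K w) hker
  have hnorm : (Ideal.absNorm w.asIdeal : ℂ) = α ^ f * β ^ f := by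
    have hlies : w.asIdeal.LiesOver v.asIdeal := ⟨hv⟩
    have hmax : v.asIdeal.IsMaximal := v.isMaximal
    have h := Ideal.absNorm_eq_pow_inertiaDeg'_of_liesOver w.asIdeal v.asIdeal v.isPrime v.ne_bot
    rw [Ideal.inertiaDeg'_algebraMap] at h
    rw [hf, Ideal.inertiaDeg_eq_of_isMaximal v.asIdeal w.asIdeal, h, ← mul_pow, h2]
    push_cast
    rfl
  have hcomp : W₀.map (φ.comp (algebraMap (𝓞 F) (𝓞 K))) =
      (W₀.map (d6_hom F K w)).map (IsLocalRing.residue (w.adicCompletionIntegers K)) := by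
    rw [WeierstrassCurve.map_map]
    rfl
  rw [hcomp] at hpts
  have hP : ((((W₀⁄F)⁄K)⁄(w.adicCompletion K)).localPolynomial (w.adicCompletionIntegers K)).map
      (Int.castRingHom ℂ) =
      (1 - Polynomial.C (α ^ f) * Polynomial.X) * (1 - Polynomial.C (β ^ f) * Polynomial.X) := by
    rw [d6_curve, good_loc _ _ _ (d6_unit W₀ w v hv hΔ), hcard]
    simp only [Polynomial.map_add, Polynomial.map_sub, Polynomial.map_one, Polynomial.map_mul,
      Polynomial.map_X, Polynomial.map_pow, Polynomial.map_C]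
    set N := Nat.card ((W₀.map (d6_hom F K w)).map
      (IsLocalRing.residue (w.adicCompletionIntegers K))).toAffine.Point with hN
    have e1 : (Int.castRingHom ℂ) ((Ideal.absNorm w.asIdeal : ℤ) + 1 - (N : ℤ)) = α ^ f + β ^ f := by
      simp only [eq_intCast, Int.cast_sub, Int.cast_add, Int.cast_natCast, Int.cast_one]
      rw [hpts]
      ring
    have e2 : (Int.castRingHom ℂ) (Ideal.absNorm w.asIdeal : ℤ) = α ^ f * β ^ f := by
      rw [eq_intCast, Int.cast_natCast, hnorm]
    rw [e1, e2, map_add, map_mul]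
    ring
  have hP0 : ((((W₀⁄F)⁄K)⁄(w.adicCompletion K)).localPolynomial
      (w.adicCompletionIntegers K)).coeff 0 = 1 := by
    have := congrArg (fun P : Polynomial ℂ => P.coeff 0) hP
    simp only [Polynomial.coeff_map, Polynomial.mul_coeff_zero] at this
    simpa using this
  unfold LF' ef
  rw [WeierstrassCurve.localEulerFactor, hcard, H55B.I2_cast_ofPS hq,
    WeierstrassCurve.localPowerSeries, H55B.I2_map_invOfUnit _ hP0, hP, ← map_mul,
    mul_comm ((1 - PowerSeries.C (α ^ f) * PowerSeries.X)⁻¹ : PowerSeries ℂ),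
    ← PowerSeries.mul_inv_rev]
  congr 2
  simp

/-- Chunk D6. Bad w: bad_loc with bad_compl, the element j₀ of R_w is the image of j₀ of 𝓞 F (c₄ and Δ of the base change: map_c₄, map_Δ). Then the Euler factor is 1 (see H55B.I2_local_bad). -/
theorem lf_bad {F K : Type} [Field F] [NumberField F] [Field K] [NumberField K] [Algebra F K]
    (W₀ : WeierstrassCurve (𝓞 F)) (w : HeightOneSpectrum (𝓞 K)) (j₀ : 𝓞 F) (hj : W₀.c₄ ^ 3 = j₀ * W₀.Δ)
    (hb : ¬ GoodAt ((W₀⁄F)⁄K) w) : LF' ((W₀⁄F)⁄K) w = 1 := by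
  have hloc : (((W₀⁄F)⁄K)⁄(w.adicCompletion K)).localPolynomial (w.adicCompletionIntegers K) = 1 := by
    refine bad_loc (w.adicCompletionIntegers K) (w.adicCompletion K)
      (((W₀⁄F)⁄K)⁄(w.adicCompletion K)) (d6_hom F K w j₀) ?_ (fun C hC => bad_compl ((W₀⁄F)⁄K) w hb C hC)
    rw [d6_curve]
    show ((W₀.map (d6_hom F K w)).map
      (algebraMap (w.adicCompletionIntegers K) (w.adicCompletion K))).c₄ ^ 3 =
      algebraMap (w.adicCompletionIntegers K) (w.adicCompletion K) (d6_hom F K w j₀) *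
      ((W₀.map (d6_hom F K w)).map
        (algebraMap (w.adicCompletionIntegers K) (w.adicCompletion K))).Δ
    rw [WeierstrassCurve.map_c₄, WeierstrassCurve.map_Δ, WeierstrassCurve.map_c₄,
      WeierstrassCurve.map_Δ, ← map_pow, ← map_pow, hj, map_mul, map_mul]
  unfold LF'
  rw [WeierstrassCurve.localEulerFactor, WeierstrassCurve.localPowerSeries, hloc]
  have h1 : PowerSeries.invOfUnit ((1 : Polynomial ℤ) : PowerSeries ℤ) 1 = 1 := by
    have h2 := PowerSeries.mul_invOfUnit ((1 : Polynomial ℤ) : PowerSeries ℤ) 1 (by simp)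
    rw [Polynomial.coe_one, one_mul] at h2
    rw [Polynomial.coe_one]
    exact h2
  rw [h1, map_one]
  simp

end H55K.DD
end

-- from Lib.H55K.D7
section

set_option autoImplicit false

/-! # H55K, part D: the Euler product -/

open NumberField IsDedekindDomain WeierstrassCurve

namespace H55K.DD

open H55N

theorem lfun {K : Type} [Field K] [NumberField K] (W : WeierstrassCurve K) (h : Ideal (𝓞 K) →*₀ ℂ)
    (hloc : ∀ w : HeightOneSpectrum (𝓞 K), LF' W w = ef (Ideal.absNorm w.asIdeal) (h w.asIdeal) *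
      ef (Ideal.absNorm w.asIdeal) ((starRingEnd ℂ) (h w.asIdeal))) (n : ℕ) :
    ((W.LFunction n : ℤ) : ℂ) = (AI h * AI (fun a => (starRingEnd ℂ) (h a))) n := by
  classical
  set L : HeightOneSpectrum (𝓞 K) → ArithmeticFunction ℤ := fun w =>
    (W.baseChange (w.adicCompletion K)).localEulerFactor
      (w.adicCompletionIntegers K) with hLdef
  have hL : ∀ᶠ T in Filter.atTop, (∏ w ∈ T, L w) n = W.LFunction n := by
    have hN : Northcott (fun w : HeightOneSpectrum (𝓞 K) =>
        Nat.card (IsLocalRing.ResidueField (w.adicCompletionIntegers K))) := by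
      have h1 : (fun w : HeightOneSpectrum (𝓞 K) =>
        Nat.card (IsLocalRing.ResidueField (w.adicCompletionIntegers K))) =
          fun w => Ideal.absNorm w.asIdeal := funext fun w => (H55B.residue_card K w).2
      rw [h1]
      infer_instance
    exact ArithmeticFunction.tendsTo_eulerProduct_ofPowerSeries
      (fun w : HeightOneSpectrum (𝓞 K) =>
        Nat.card (IsLocalRing.ResidueField (w.adicCompletionIntegers K)))
      (fun w => (W.baseChange (w.adicCompletion K)).localPowerSeries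
        (w.adicCompletionIntegers K))
      (fun w => by simp [WeierstrassCurve.localPowerSeries]) n
  have hA : ∀ᶠ T : Finset (HeightOneSpectrum (𝓞 K)) in Filter.atTop,
      ∀ m ∈ Finset.range (n + 1),
      (∏ w ∈ T, ef (Ideal.absNorm w.asIdeal) (h w.asIdeal)) m = AI h m ∧
      (∏ w ∈ T, ef (Ideal.absNorm w.asIdeal) ((starRingEnd ℂ) (h w.asIdeal))) m =
          AI (fun a => (starRingEnd ℂ) (h a)) m := by
    rw [Filter.eventually_all_finset]
    intro m _
    exact (AI_euler h m).and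
      (AI_euler ((starRingEnd ℂ).toMonoidWithZeroHom.comp h) m)
  obtain ⟨T, hT1, hT2⟩ := (hL.and hA).exists
  rw [← hT1, ← ArithmeticFunction.intCoe_apply, H55B.I2_cast_prod]
  have h1 : ∀ w ∈ T, ((L w : ArithmeticFunction ℤ) : ArithmeticFunction ℂ) =
      ef (Ideal.absNorm w.asIdeal) (h w.asIdeal) *
      ef (Ideal.absNorm w.asIdeal) ((starRingEnd ℂ) (h w.asIdeal)) := fun w _ => hloc w
  rw [Finset.prod_congr rfl h1, Finset.prod_mul_distrib]
  refine H55B.I2_mul_congr ?_ ?_ n le_rfl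
  · intro m hm
    exact (hT2 m (Finset.mem_range.2 (by omega))).1
  · intro m hm
    exact (hT2 m (Finset.mem_range.2 (by omega))).2

end H55K.DD
end

-- from Lib.H55K.J12
section

open NumberField IsDedekindDomain

namespace H55K.JJ

/-! Chunk J12 (S). For every height one prime v of 𝓞 F there is V over v (exists_abw with N = F in K0A.lean), so v.valuation x ≤ 1 (Abw.le with y = 1); then x is an integer: HeightOneSpectrum.mem_integers_of_valuation_le_one. -/

theorem int_of_val {F : Type} [Field F] [NumberField F] (Ω : Type) [Field Ω] [Algebra F Ω] (x : F)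
    (hx : ∀ V : ValuationSubring Ω, V.valuation (algebraMap F Ω x) ≤ 1) : ∃ x₀ : 𝓞 F, (x₀ : F) = x := by
  have h1 : ∀ v : HeightOneSpectrum (𝓞 F), v.valuation F x ≤ 1 := by
    intro v
    obtain ⟨V, hV⟩ := exists_abw Ω (N := F) v
    have h3 := hV.le x 1
    rw [map_one, map_one, map_one] at h3
    exact h3.1 (hx V)
  obtain ⟨x₀, hx₀⟩ := HeightOneSpectrum.mem_integers_of_valuation_le_one F x h1
  exact ⟨x₀, hx₀⟩

end H55K.JJ
end

-- from Lib.H55K.J11
section

open NumberField WeierstrassCurve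

namespace H55K.JJ

open H55P (IQ embF eF LF Per Pt ac Nm)
open H35P (WAB Ker IntW)

/-! Chunk J11 (S/M). jj = 6912 A^3/(4A^3 + 27B^2) in Ω, V(jj) > 1, so V(jj - 1728) = V(jj) > 1. W' = ⟨1, 0, 0, -36/(jj - 1728), -1/(jj - 1728)⟩: V(a4), V(a6) < 1; Δ = jj^2/(jj - 1728)^3 <> 0, c4 = jj/(jj - 1728), c4^3 = jj Δ (unfold, field_simp, ring).
W = (WAB A B)⁄Ω: c4^3 = jj Δ, Δ <> 0 as in good_model (M2C). vc_of_j: VC W W' u r s t; h1: u = 2 s (a1 = 0, a1' = 1), h2: 0 = 3 r - s^2, h3: 0 = 2 t, so s = u/2, r = u^2/12, t = 0. vc_iso (M1B): Θ. -/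

theorem exists_md {F : Type} [Field F] [NumberField F] {Ω : Type} [Field Ω] [DecidableEq Ω] [Algebra F Ω]
    [IsAlgClosed Ω] {A B : F} (hd : 4 * A ^ 3 + 27 * B ^ 2 ≠ 0) (V : ValuationSubring Ω)
    (hj : 1 < V.valuation (algebraMap F Ω (6912 * A ^ 3 / (4 * A ^ 3 + 27 * B ^ 2)))) :
    ∃ (W' : WeierstrassCurve Ω) (u : Ω) (Θ : Pt (WAB A B) Ω ≃+ W'.toAffine.Point), Md A B V W' u Θ := by
  have c0 : CharZero Ω := charZero_of_injective_algebraMap (algebraMap F Ω).injective
  obtain ⟨jj, hjj⟩ : ∃ jj, jj = algebraMap F Ω (6912 * A ^ 3 / (4 * A ^ 3 + 27 * B ^ 2)) := ⟨_, rfl⟩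
  rw [← hjj] at hj
  have hΔ : ((WAB A B)⁄Ω).Δ = algebraMap F Ω (-16 * (4 * A ^ 3 + 27 * B ^ 2)) := by
    refine ((WAB A B).map_Δ (algebraMap F Ω)).trans ?_
    congr 1
    simp only [WAB, WeierstrassCurve.Δ, WeierstrassCurve.b₂, WeierstrassCurve.b₄,
      WeierstrassCurve.b₆, WeierstrassCurve.b₈]
    ring
  have hc : ((WAB A B)⁄Ω).c₄ = algebraMap F Ω (-48 * A) := by
    refine ((WAB A B).map_c₄ (algebraMap F Ω)).trans ?_
    congr 1
    simp only [WAB, WeierstrassCurve.c₄, WeierstrassCurve.b₂, WeierstrassCurve.b₄]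
    ring
  have h1 : ((WAB A B)⁄Ω).Δ ≠ 0 := by
    rw [hΔ]
    exact (map_ne_zero _).2 (mul_ne_zero (by norm_num) hd)
  have h3 : ((WAB A B)⁄Ω).c₄ ^ 3 = jj * ((WAB A B)⁄Ω).Δ := by
    rw [hΔ, hc, hjj, ← map_pow, ← map_mul]
    congr 1
    have e := div_mul_cancel₀ (6912 * A ^ 3) hd
    linear_combination (16 : F) * e
  have hnat : ∀ n : ℕ, V.valuation (n : Ω) ≤ 1 := by
    intro n
    rw [V.valuation_le_one_iff]
    exact natCast_mem V n
  have hj0 : jj ≠ 0 := by
    intro h
    rw [h, map_zero] at hj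
    exact not_lt_zero hj
  have hm : V.valuation (jj - 1728) = V.valuation jj := by
    have h := hnat 1728
    have e : jj - 1728 = jj + -((1728 : ℕ) : Ω) := by push_cast; ring
    rw [e]
    exact Valuation.map_add_eq_of_lt_left _ (by rw [Valuation.map_neg]; exact lt_of_le_of_lt h hj)
  have hm0 : jj - 1728 ≠ 0 := by
    intro h
    rw [h, map_zero] at hm
    rw [← hm] at hj
    exact not_lt_zero hj
  have hvm : 1 < V.valuation (jj - 1728) := by rw [hm]; exact hj
  have hinv : V.valuation (jj - 1728)⁻¹ < 1 := by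
    rw [map_inv₀]
    exact inv_lt_one_of_one_lt₀ hvm
  have hΔ' : (⟨1, 0, 0, -36 / (jj - 1728), -1 / (jj - 1728)⟩ : WeierstrassCurve Ω).Δ =
      jj ^ 2 / (jj - 1728) ^ 3 := by
    simp only [WeierstrassCurve.Δ, WeierstrassCurve.b₂, WeierstrassCurve.b₄,
      WeierstrassCurve.b₆, WeierstrassCurve.b₈]
    field_simp
    ring
  have hc' : (⟨1, 0, 0, -36 / (jj - 1728), -1 / (jj - 1728)⟩ : WeierstrassCurve Ω).c₄ =
      jj / (jj - 1728) := by
    simp only [WeierstrassCurve.c₄, WeierstrassCurve.b₂, WeierstrassCurve.b₄]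
    field_simp
    ring
  have h2 : (⟨1, 0, 0, -36 / (jj - 1728), -1 / (jj - 1728)⟩ : WeierstrassCurve Ω).Δ ≠ 0 := by
    rw [hΔ']
    exact div_ne_zero (pow_ne_zero _ hj0) (pow_ne_zero _ hm0)
  have h4 : (⟨1, 0, 0, -36 / (jj - 1728), -1 / (jj - 1728)⟩ : WeierstrassCurve Ω).c₄ ^ 3 =
      jj * (⟨1, 0, 0, -36 / (jj - 1728), -1 / (jj - 1728)⟩ : WeierstrassCurve Ω).Δ := by
    rw [hΔ', hc']
    field_simp
  obtain ⟨u, r, s, t, hvc⟩ := MG.vc_of_j h1 h2 h3 h4
  obtain ⟨Θ, hΘ⟩ := MG.vc_iso hvc h1 h2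
  have e1 : ((WAB A B)⁄Ω).a₁ = 0 := by
    refine ((WAB A B).map_a₁ (algebraMap F Ω)).trans ?_
    simp [WAB]
  have e2 : ((WAB A B)⁄Ω).a₂ = 0 := by
    refine ((WAB A B).map_a₂ (algebraMap F Ω)).trans ?_
    simp [WAB]
  have e3 : ((WAB A B)⁄Ω).a₃ = 0 := by
    refine ((WAB A B).map_a₃ (algebraMap F Ω)).trans ?_
    simp [WAB]
  have g1 := hvc.h1
  have g2 := hvc.h2
  have g3 := hvc.h3
  rw [e1] at g1 g2 g3
  rw [e2] at g2
  rw [e3] at g3
  simp only at g1 g2 g3
  have hs : s = u / 2 := by linear_combination -(g1 / 2)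
  have ht : t = 0 := by linear_combination -(g3 / 2)
  have hr : r = u ^ 2 / 12 := by
    have h12 : (12 : Ω) ≠ 0 := by norm_num
    rw [eq_div_iff h12]
    linear_combination (-4) * g2 + 4 * (s + u / 2) * hs
  refine ⟨_, u, Θ, ⟨hvc.une, ⟨rfl, rfl, rfl, ?_, ?_⟩, h2, ?_⟩⟩
  · show V.valuation (-36 / (jj - 1728)) < 1
    rw [neg_div, Valuation.map_neg, div_eq_mul_inv, map_mul]
    have h := hnat 36
    push_cast at h
    exact lt_of_le_of_lt (mul_le_of_le_one_left' h) hinv
  · show V.valuation (-1 / (jj - 1728)) < 1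
    rw [neg_div, Valuation.map_neg, one_div]
    exact hinv
  · rw [hs, ht, hr] at hΘ
    exact hΘ

end H55K.JJ
end

-- from Lib.H55K.M4C
section

open NumberField WeierstrassCurve

namespace H55K.MG

open H55P (IQ Pt ac Inert)
open H35P (WAB Ker GoodW IntW)

variable {F : Type} [Field F] {Ω : Type} [Field Ω] [DecidableEq Ω] [Algebra F Ω] {W : WeierstrassCurve F}
  {W' : WeierstrassCurve Ω} {u r s t : Ω} {Θ : (W⁄Ω).toAffine.Point ≃+ W'.toAffine.Point} {V : ValuationSubring Ω}

/-! Chunk M4C (M). ũ = g u/u, r̃, s̃, t̃ as in tilde. small_tilde: T1, T2 fixed by g: X_i = xc (Θ T_i), Y_i = yc (Θ T_i) in V (int_crd), X_i' = g X_i, Y_i' = g Y_i (hg: Inert gives V(X_i' - X_i) < 1); tilde gives e_i, f_i;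
V(X1 - X2) = 1 (unit_diff, Θ (T1 ± T2) = Θ T1 ± Θ T2). If V(2) = 1, a1 = a3 = 0: V(Y1) = 1 (unit_y), and tilde for -T_i (also fixed: map_neg) with yc (Θ (-T_i)) = -Y_i (yc_neg'): -Y_i = -ũ^3 Y_i' + s̃ X_i' + t̃; adding f_i:
2 (s̃ X_i' + t̃) = 0 (2 <> 0 as V(2) = 1). val_tilde. inert_ker: P <> 0. P not in the kernel: X = xc (Θ P), Y in V; V(g X - X) < 1, so xc (Θ (g P)) - X = ũ^2 g X + r̃ - X has value < 1 (V(ũ - 1) < 1, g X in V), the same for Y, so Θ (g P) is not in
the kernel (ker_crd: its x-coordinate is in V; it is not 0) and cong_ker. P in the kernel: V(X) > 1, so V(g X) > 1 (Inert for X^(-1): V(g(X^(-1)) - X^(-1)) < 1), V(ũ^2 g X + r̃) > 1: Θ (g P) is in the kernel, and so is the difference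
(H35P.ker_sub). -/

theorem m4c_ne {P : Pt W Ω} (h : ¬ Ker V (Θ P)) : P ≠ 0 := by
  rintro rfl
  apply h
  rw [map_zero]
  trivial

theorem small_tilde (hu : u ≠ 0) (hW : GoodW W' V) (hc : Crd u r s t Θ)
    (h2 : (V.valuation (2 : Ω) = 1 ∧ W'.a₁ = 0 ∧ W'.a₃ = 0) ∨ V.valuation (2 : Ω) < 1) (g : Ω ≃ₐ[F] Ω)
    (hg : Inert V g) {T₁ T₂ : Pt W Ω} (k₁ : ¬ Ker V (Θ T₁)) (k₂ : ¬ Ker V (Θ T₂)) (k₃ : ¬ Ker V (Θ (T₁ - T₂)))
    (k₄ : ¬ Ker V (Θ (T₁ + T₂))) (k₅ : ¬ Ker V (Θ (T₁ + T₁))) (f₁ : ac W g T₁ = T₁) (f₂ : ac W g T₂ = T₂) :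
    V.valuation (g u / u - 1) < 1 ∧ V.valuation ((g r - r) / u ^ 2) < 1 ∧
      V.valuation (g u ^ 2 * (g s - s) / u ^ 3) < 1 ∧ V.valuation ((g t - t - s * (g r - r)) / u ^ 3) < 1 := by
  obtain ⟨-, x1, y1⟩ := int_crd hW k₁
  obtain ⟨-, x2, y2⟩ := int_crd hW k₂
  have n1 := m4c_ne k₁
  have n2 := m4c_ne k₂
  obtain ⟨e1, f1⟩ := tilde hu hc g n1
  obtain ⟨e2, f2⟩ := tilde hu hc g n2
  rw [f₁] at e1 f1
  rw [f₂] at e2 f2
  have hδ := unit_diff hW k₁ k₂ (by rw [← map_sub]; exact k₃) (by rw [← map_add]; exact k₄)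
  refine val_tilde V x1 x2 y1 y2 (hg _ x1) (hg _ x2) (hg _ y1) (hg _ y2) e1 e2 f1 f2 hδ ?_
  rcases h2 with ⟨h2, a1, a3⟩ | h2
  · left
    have h20 : (2 : Ω) ≠ 0 := by
      intro h
      rw [h, map_zero] at h2
      exact zero_ne_one h2
    refine ⟨unit_y hW a1 a3 k₁ (by rw [← map_add]; exact k₅), ?_, ?_⟩
    · obtain ⟨-, q⟩ := tilde hu hc g (neg_ne_zero.2 n1)
      rw [map_neg, f₁, map_neg, (yc_neg' a1 a3).1, (yc_neg' a1 a3).2, map_neg] at q
      have q2 : 2 * (g u ^ 2 * (g s - s) / u ^ 3 * g (xc (Θ T₁)) + (g t - t - s * (g r - r)) / u ^ 3) = 0 := by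
        linear_combination (-1) * q - f1
      exact (mul_eq_zero.1 q2).resolve_left h20
    · obtain ⟨-, q⟩ := tilde hu hc g (neg_ne_zero.2 n2)
      rw [map_neg, f₂, map_neg, (yc_neg' a1 a3).1, (yc_neg' a1 a3).2, map_neg] at q
      have q2 : 2 * (g u ^ 2 * (g s - s) / u ^ 3 * g (xc (Θ T₂)) + (g t - t - s * (g r - r)) / u ^ 3) = 0 := by
        linear_combination (-1) * q - f2
      exact (mul_eq_zero.1 q2).resolve_left h20
  · exact Or.inr h2

theorem m4c_lt {x y : Ω} (hx : V.valuation x < 1) (hy : V.valuation y ≤ 1) : V.valuation (x * y) < 1 := by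
  rw [map_mul]
  exact mul_lt_one_of_lt_of_le hx hy

theorem m4c_in (g : Ω ≃ₐ[F] Ω) (hg : Inert V g) {x : Ω} (hx : x ∈ V) : V.valuation (g x) ≤ 1 := by
  have h1 := (hg x hx).le
  have h2 := (V.valuation_le_one_iff x).2 hx
  have e : g x = (g x - x) + x := by ring
  rw [e]
  exact (Valuation.map_add _ _ _).trans (max_le h1 h2)

theorem inert_ker (hu : u ≠ 0) (hW : GoodW W' V) (hc : Crd u r s t Θ) (g : Ω ≃ₐ[F] Ω) (hg : Inert V g)
    (hs : V.valuation (g u / u - 1) < 1 ∧ V.valuation ((g r - r) / u ^ 2) < 1 ∧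
      V.valuation (g u ^ 2 * (g s - s) / u ^ 3) < 1 ∧ V.valuation ((g t - t - s * (g r - r)) / u ^ 3) < 1)
    (P : Pt W Ω) : Ker V (Θ (ac W g P - P)) := by
  rcases eq_or_ne P 0 with rfl | hP
  · rw [map_zero, sub_zero, map_zero]
    trivial
  obtain ⟨s1, s2, s3, s4⟩ := hs
  obtain ⟨e1, f1⟩ := tilde hu hc g hP
  have hgP : ac W g P ≠ 0 := fun h => hP ((ac_crd g P).2.2.1 h)
  have hΘg : Θ (ac W g P) ≠ 0 := (hc _ hgP).1
  have hΘ : Θ P ≠ 0 := (hc _ hP).1
  have hu1 : V.valuation (g u / u) = 1 := by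
    have e : g u / u = 1 + (g u / u - 1) := by ring
    rw [e]
    exact Valuation.map_one_add_of_lt _ s1
  rw [map_sub]
  by_cases hK : Ker V (Θ P)
  · have h1 : 1 < V.valuation (xc (Θ P)) := (ker_crd hΘ).1 hK
    have h0 : xc (Θ P) ≠ 0 := by
      intro h
      rw [h, map_zero] at h1
      exact not_lt.2 zero_le h1
    have h2 : V.valuation (xc (Θ P))⁻¹ < 1 := by
      rw [map_inv₀]
      exact inv_lt_one_of_one_lt₀ h1
    have h3 := hg _ ((V.valuation_le_one_iff _).1 h2.le)
    have h4 : V.valuation (g (xc (Θ P))⁻¹) < 1 := by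
      have e : g (xc (Θ P))⁻¹ = (g (xc (Θ P))⁻¹ - (xc (Θ P))⁻¹) + (xc (Θ P))⁻¹ := by ring
      rw [e]
      exact Valuation.map_add_lt _ h3 h2
    have h5 : 1 < V.valuation (g (xc (Θ P))) := by
      rw [map_inv₀, map_inv₀] at h4
      have h6 : V.valuation (g (xc (Θ P))) ≠ 0 :=
        (V.valuation).ne_zero_iff.2 ((map_ne_zero g).2 h0)
      have h7 := (inv_lt_one₀ (zero_lt_iff.2 h6)).1 h4
      exact h7
    have h6 : 1 < V.valuation ((g u / u) ^ 2 * g (xc (Θ P))) := by
      rw [map_mul, map_pow, hu1, one_pow, one_mul]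
      exact h5
    have h7 : Ker V (Θ (ac W g P)) := by
      rw [ker_crd hΘg, e1, Valuation.map_add_eq_of_lt_left _ (s2.trans h6)]
      exact h6
    exact H35P.ker_sub hW.toIntW _ _ h7 hK
  · obtain ⟨-, x1, y1⟩ := int_crd hW hK
    have gx := m4c_in g hg x1
    have gy := m4c_in g hg y1
    have v1 : V.valuation (1 : Ω) = 1 := map_one _
    have hp : V.valuation (g u / u + 1) ≤ 1 :=
      (Valuation.map_add _ _ _).trans (max_le hu1.le v1.le)
    have hq : V.valuation ((g u / u) ^ 2 + g u / u + 1) ≤ 1 := by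
      refine (Valuation.map_add _ _ _).trans (max_le ((Valuation.map_add _ _ _).trans (max_le ?_ hu1.le)) v1.le)
      rw [map_pow, hu1, one_pow]
    have d1 : V.valuation (xc (Θ (ac W g P)) - xc (Θ P)) < 1 := by
      have e : xc (Θ (ac W g P)) - xc (Θ P) = (g u / u - 1) * ((g u / u + 1) * g (xc (Θ P))) +
          (g (xc (Θ P)) - xc (Θ P)) + (g r - r) / u ^ 2 := by
        rw [e1]
        ring
      rw [e]
      refine Valuation.map_add_lt _ (Valuation.map_add_lt _ (m4c_lt s1 ?_) (hg _ x1)) s2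
      rw [map_mul]
      exact mul_le_one' hp gx
    have d2 : V.valuation (yc (Θ (ac W g P)) - yc (Θ P)) < 1 := by
      have e : yc (Θ (ac W g P)) - yc (Θ P) = (g u / u - 1) * (((g u / u) ^ 2 + g u / u + 1) * g (yc (Θ P))) +
          (g (yc (Θ P)) - yc (Θ P)) + (g u ^ 2 * (g s - s) / u ^ 3) * g (xc (Θ P)) +
          (g t - t - s * (g r - r)) / u ^ 3 := by
        rw [f1]
        ring
      rw [e]
      refine Valuation.map_add_lt _ (Valuation.map_add_lt _ (Valuation.map_add_lt _ (m4c_lt s1 ?_) (hg _ y1))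
        (m4c_lt s3 gx)) s4
      rw [map_mul]
      exact mul_le_one' hq gy
    have hK' : ¬ Ker V (Θ (ac W g P)) := by
      rw [ker_crd hΘg, not_lt]
      have e : xc (Θ (ac W g P)) = (xc (Θ (ac W g P)) - xc (Θ P)) + xc (Θ P) := by ring
      rw [e]
      exact (Valuation.map_add _ _ _).trans (max_le d1.le ((V.valuation_le_one_iff _).2 x1))
    exact cong_ker hW hK' hK d1 d2

end H55K.MG
end

-- from Lib.H55K.T1
section

/-! # H55K: good reduction over M: inertia acts trivially on torsion points -/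

open NumberField IsDedekindDomain WeierstrassCurve

namespace H55K.TQ

open H55P (IQ embF eF LF Per IsHecke Pt ac Inert Dec Nm UnitP)
open H35P (WAB Ker tt GoodW IntW)
open H55K.MG (VC Crd)

variable {F : Type} [Field F] [NumberField F] {Ω : Type} [Field Ω] [DecidableEq Ω] [Algebra F Ω]

/-- Chunk T1 (S/M). Θ from MG.vc_iso (Δ ≠ 0; W'.Δ ≠ 0: GoodW). s fixes u, r, s, t (they are in M). MG.inert_ker (M4C.lean): the four values are V(0) < 1 (s u / u = 1), so Ker V (Θ (ac W g T - T)); n • (ac T - T) = 0, MG.kg_tors. -/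
theorem inert_triv {W : WeierstrassCurve F} (hΔ : W.Δ ≠ 0) {V : ValuationSubring Ω} {M : Set Ω}
    (h : GMd (W⁄Ω) V M) (g : Ω ≃ₐ[F] Ω) (hM : ∀ x ∈ M, g x = x) (hg : Inert V g) (n : ℕ)
    (hn : V.valuation (n : Ω) = 1) (T : Pt W Ω) (hT : n • T = 0) : ac W g T = T := by
  obtain ⟨W', u, r, s, t, hu, hr, hs, ht, hv, hG⟩ := h
  have h1 : (W⁄Ω).Δ ≠ 0 := by
    have e : (W⁄Ω).Δ = algebraMap F Ω W.Δ := W.map_Δ (algebraMap F Ω)
    rw [e]
    exact (map_ne_zero _).2 hΔ
  have h2 : W'.Δ ≠ 0 := by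
    intro h0
    have h3 := hG.disc
    rw [h0, map_zero] at h3
    exact zero_ne_one h3
  obtain ⟨Θ, hc⟩ := MG.vc_iso hv h1 h2
  have hK := MG.inert_ker hv.une hG hc g hg (by
    rw [hM u hu, hM r hr, hM s hs, hM t ht, div_self hv.une, sub_self, sub_self, sub_self, sub_self, zero_div,
      mul_zero, zero_div, mul_zero, sub_zero, zero_div, map_zero]
    exact ⟨zero_lt_one, zero_lt_one, zero_lt_one, zero_lt_one⟩) T
  have h4 : n • (ac W g T - T) = 0 := by
    rw [smul_sub, ← map_nsmul, hT, map_zero, sub_zero]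
  exact sub_eq_zero.1 (MG.kg_tors hG hn hK h4)

end H55K.TQ
end

-- from Lib.H55B.I4
section

open NumberField IsDedekindDomain

namespace H55B

/-! Chunk I4: the analytic half of the theorem.
Choose Kummer data (G1.kummer). LSeries of a finite product of arithmetic functions with summable L-series is
the product (LSeries_mul', LSeriesSummable.convolution; induction over the finite set of characters). Put
Lambda(s) = product over chi of Lambda_chi(s) * conj(Lambda_chi(conj s)), Lambda_chi from AN.analytic_main;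
s -> conj(f(conj s)) is analytic on the half plane. At 1: product of |Lambda_chi(1)|^2 <> 0. -/

open ArithmeticFunction in
lemma I4_prod {ι : Type*} (t : Finset ι) (f : ι → ArithmeticFunction ℂ) (l : ι → ℂ) (s : ℂ)
    (h : ∀ i ∈ t, LSeriesHasSum (fun n => f i n) s (l i)) :
    LSeriesHasSum (fun n => (∏ i ∈ t, f i) n) s (∏ i ∈ t, l i) := by
  classical
  induction t using Finset.induction_on with
  | empty =>
    simp only [Finset.prod_empty]
    have h1 : (fun n => (1 : ArithmeticFunction ℂ) n) = LSeries.delta := one_eq_delta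
    rw [h1]
    unfold LSeriesHasSum
    have : LSeries.term LSeries.delta s = fun n => if n = 1 then 1 else 0 := by
      funext n
      exact LSeries.term_delta s n
    rw [this]
    exact hasSum_ite_eq 1 1
  | insert i t hi ih =>
    rw [Finset.prod_insert hi, Finset.prod_insert hi]
    exact LSeriesHasSum_mul (h i (Finset.mem_insert_self i t))
      (ih fun j hj => h j (Finset.mem_insert_of_mem hj))

lemma I4_conj {f : ℂ → ℂ} (hf : AnalyticOnNhd ℂ f {s | 1 / 2 < s.re}) :
    AnalyticOnNhd ℂ (fun s => (starRingEnd ℂ) (f ((starRingEnd ℂ) s))) {s | 1 / 2 < s.re} := by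
  have ho : IsOpen {s : ℂ | 1 / 2 < s.re} := isOpen_lt continuous_const Complex.continuous_re
  apply DifferentiableOn.analyticOnNhd _ ho
  intro s hs
  have hs' : (starRingEnd ℂ) s ∈ {s : ℂ | 1 / 2 < s.re} := by
    simpa using hs
  have := (hf _ hs').differentiableAt.conj_conj
  rw [Complex.conj_conj] at this
  exact this.differentiableWithinAt

lemma I4_Sym_abs_le (a x : O) : |Sym a x| ≤ 1 := by
  unfold Sym
  refine finprod_mem_induction (fun z : ℤ => |z| ≤ 1) (by simp) ?_ ?_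
  · intro y z hy hz
    rw [abs_mul]
    exact mul_le_one₀ hy (abs_nonneg z) hz
  · intro v _
    unfold sym
    split_ifs <;> simp

variable {K : Type*} [Field K] [NumberField K] [Algebra F K]

theorem L_final (S : Set K)
    (hS : ∀ s ∈ S, ∃ a : O, Adm a ∧ s ^ 2 = algebraMap O K a) (hgen : Algebra.adjoin F S = ⊤) :
    ∃ Λ : ℂ → ℂ, AnalyticOnNhd ℂ Λ {s | 1 / 2 < s.re} ∧
      (∀ s : ℂ, 3 / 2 < s.re → LSeriesSummable (fun n => (((E27.baseChange K).LFunction n : ℤ) : ℂ)) s ∧
        Λ s = (E27.baseChange K).LSeries s) ∧ Λ 1 ≠ 0 := by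
  classical
  have hfin : Finite (K ≃ₐ[F] K) := inferInstance
  have hfin2 : Finite ((K ≃ₐ[F] K) →* ℤˣ) := (card_dual (K ≃ₐ[F] K) (gal_sq S hS hgen)).1
  have hft : Fintype ((K ≃ₐ[F] K) →* ℤˣ) := Fintype.ofFinite _
  choose a s hk using kummer S hS hgen
  choose L hLa hLe hL1 using fun χ => analytic_main (hk χ).1
  have hb : ∀ χ x, |Sym (a χ) x| ≤ 1 := fun χ x => I4_Sym_abs_le (a χ) x
  refine ⟨fun z => ∏ χ, (L χ z * (starRingEnd ℂ) (L χ ((starRingEnd ℂ) z))), ?_, ?_, ?_⟩
  · apply Finset.analyticOnNhd_fun_prod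
    intro χ _
    exact (hLa χ).mul (I4_conj (hLa χ))
  · intro z hz
    have hz' : 3 / 2 < ((starRingEnd ℂ) z).re := by simpa using hz
    have key : LSeriesHasSum (fun n => (((E27.baseChange K).LFunction n : ℤ) : ℂ)) z
        (∏ χ, (L χ z * (starRingEnd ℂ) (L χ ((starRingEnd ℂ) z)))) := by
      have e1 : (fun n => (((E27.baseChange K).LFunction n : ℤ) : ℂ)) = fun n =>
          (∏ χ : (K ≃ₐ[F] K) →* ℤˣ, (Ac (fun x => (Sym (a χ) x : ℂ) * e x) *
            Ac (fun x => (Sym (a χ) x : ℂ) * (starRingEnd ℂ) (e x)))) n := by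
        funext n
        rw [LFunction_eq S hS hgen a s (fun χ => hk χ) n, finprod_eq_prod_of_fintype]
      rw [e1]
      apply I4_prod
      intro χ _
      have h1 := LS_e (Sym (a χ)) (hb χ) z hz
      have h2 := LS_conj (Sym (a χ)) (hb χ) z hz
      rw [hLe χ z hz, hLe χ _ hz']
      have h3 := ArithmeticFunction.LSeriesHasSum_mul h1.1.LSeriesHasSum h2.1.LSeriesHasSum
      rw [h1.2, h2.2, mul_comm ((starRingEnd ℂ) _)] at h3
      exact h3
    refine ⟨key.LSeriesSummable, ?_⟩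
    have h3 := key.LSeries_eq
    exact h3.symm
  · show (∏ χ, (L χ 1 * (starRingEnd ℂ) (L χ ((starRingEnd ℂ) 1)))) ≠ 0
    rw [Finset.prod_ne_zero_iff]
    intro χ _
    rw [map_one]
    exact mul_ne_zero (hL1 χ) ((map_ne_zero _).mpr (hL1 χ))

end H55B
end

-- from Lib.H55N.H7
section

open NumberField IsDedekindDomain

namespace H55N

open H55B H55C

theorem H7_three {K : Type} [Field K] [NumberField K] [Algebra F K] (w : HeightOneSpectrum (𝓞 K))
    (h3 : (3 : 𝓞 K) ∈ w.asIdeal) : Psi K w.asIdeal = 0 := by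
  by_contra h
  exact (H1_coprime w).1 ((H1_Psi_prime w).1 h) h3

theorem H7_ps : ((1 - PowerSeries.C (0 : ℂ) * PowerSeries.X : PowerSeries ℂ)⁻¹) = 1 := by
  rw [map_zero, zero_mul, sub_zero]
  exact (PowerSeries.eq_inv_iff_mul_eq_one (by simp)).2 (by rw [one_mul]) |>.symm

theorem H7_LEF {K : Type} [Field K] [NumberField K] [Algebra F K] (hU : UnrOut K)
    (w : HeightOneSpectrum (𝓞 K)) :
    LEF K w = ArithmeticFunction.ofPowerSeries (Ideal.absNorm w.asIdeal)
        ((1 - PowerSeries.C (Psi K w.asIdeal) * PowerSeries.X)⁻¹ : PowerSeries ℂ) *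
      ArithmeticFunction.ofPowerSeries (Ideal.absNorm w.asIdeal)
        ((1 - PowerSeries.C ((starRingEnd ℂ) (Psi K w.asIdeal)) *
          PowerSeries.X)⁻¹ : PowerSeries ℂ) := by
  by_cases h3 : (3 : 𝓞 K) ∈ w.asIdeal
  · rw [H7_three w h3, map_zero (starRingEnd ℂ), H7_ps, map_one, mul_one]
    exact I2_local_bad w (val_three hU w h3)
  · obtain ⟨v, hv⟩ := H1_below w
    have hv3 : (3 : O) ∉ v.asIdeal := by
      intro h
      apply h3
      rw [hv, Ideal.mem_comap, map_ofNat] at h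
      exact h
    rw [b8_LEF w h3 v hv, Psi_prime w v hv, psiF_prime v hv3,
      map_pow (starRingEnd ℂ) ((starRingEnd ℂ) (e (gen v))), Complex.conj_conj, mul_comm]

/-- The complex conjugate of Psi. -/
noncomputable def H7_conj (K : Type) [Field K] [NumberField K] [Algebra F K] :
    Ideal (𝓞 K) →*₀ ℂ := (starRingEnd ℂ).toMonoidWithZeroHom.comp (Psi K)

/-- Chunk H7 (M), the L-function of E27 over K. For w not above 3: b8_LEF (H55C.B8), with
conj(psi) as in psiF_prime, Psi_prime, and complex conjugation for the second factor. For w above 3: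
LEF K w = 1 (H55B.I2_local_bad with val_three hU of H55C.B0), Psi K w = 0 (psiF_three, Psi_prime: the inertia degree is positive) and
(1 - 0)⁻¹ = 1, ofPowerSeries q 1 = 1. So for every finite set S the product over S of LEF K w is the product of the two
products of AI_euler (for h = Psi K and for its complex conjugate, MonoidWithZeroHom: (starRingEnd C).toMonoidWithZeroHom.comp
(Psi K)). The coefficient of LFunction at n is eventually the coefficient of the finite product
(ArithmeticFunction.tendsTo_eulerProduct_ofPowerSeries / tendsTo_eulerProduct_of_tendsTo, see how H55B.I2 LFunction_eq or H55C.B6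
LFun do it, with I2_cast_prod), and the products at n only depend on the coefficients at m <= n (I2_mul_congr). Two
eventually equal constants are equal. -/
theorem LFunction_Psi (K : Type) [Field K] [NumberField K] [Algebra F K] (hU : UnrOut K) (n : ℕ) :
    (((E27.baseChange K).LFunction n : ℤ) : ℂ) =
      (AI (Psi K) * AI (fun a => (starRingEnd ℂ) (Psi K a))) n := by
  classical
  set L : HeightOneSpectrum (𝓞 K) → ArithmeticFunction ℤ := fun w =>
    ((E27.baseChange K).baseChange (w.adicCompletion K)).localEulerFactor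
      (w.adicCompletionIntegers K) with hLdef
  have hL : ∀ᶠ T in Filter.atTop, (∏ w ∈ T, L w) n = (E27.baseChange K).LFunction n := by
    have hN : Northcott (fun w : HeightOneSpectrum (𝓞 K) =>
        Nat.card (IsLocalRing.ResidueField (w.adicCompletionIntegers K))) := by
      have h1 : (fun w : HeightOneSpectrum (𝓞 K) =>
        Nat.card (IsLocalRing.ResidueField (w.adicCompletionIntegers K))) =
          fun w => Ideal.absNorm w.asIdeal := funext fun w => (residue_card K w).2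
      rw [h1]
      infer_instance
    exact ArithmeticFunction.tendsTo_eulerProduct_ofPowerSeries
      (fun w : HeightOneSpectrum (𝓞 K) =>
        Nat.card (IsLocalRing.ResidueField (w.adicCompletionIntegers K)))
      (fun w => ((E27.baseChange K).baseChange (w.adicCompletion K)).localPowerSeries
        (w.adicCompletionIntegers K))
      (fun w => by simp [WeierstrassCurve.localPowerSeries]) n
  have hA : ∀ᶠ T : Finset (HeightOneSpectrum (𝓞 K)) in Filter.atTop,
      ∀ m ∈ Finset.range (n + 1),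
      (∏ w ∈ T, ArithmeticFunction.ofPowerSeries (Ideal.absNorm w.asIdeal)
        ((1 - PowerSeries.C (Psi K w.asIdeal) * PowerSeries.X)⁻¹ : PowerSeries ℂ)) m =
          AI (Psi K) m ∧
      (∏ w ∈ T, ArithmeticFunction.ofPowerSeries (Ideal.absNorm w.asIdeal)
        ((1 - PowerSeries.C ((starRingEnd ℂ) (Psi K w.asIdeal)) *
          PowerSeries.X)⁻¹ : PowerSeries ℂ)) m =
          AI (fun a => (starRingEnd ℂ) (Psi K a)) m := by
    rw [Filter.eventually_all_finset]
    intro m _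
    exact (AI_euler (Psi K) m).and (AI_euler (H7_conj K) m)
  obtain ⟨T, hT1, hT2⟩ := (hL.and hA).exists
  rw [← hT1, ← ArithmeticFunction.intCoe_apply, I2_cast_prod]
  have h1 : ∀ w ∈ T, ((L w : ArithmeticFunction ℤ) : ArithmeticFunction ℂ) =
      ArithmeticFunction.ofPowerSeries (Ideal.absNorm w.asIdeal)
        ((1 - PowerSeries.C (Psi K w.asIdeal) * PowerSeries.X)⁻¹ : PowerSeries ℂ) *
      ArithmeticFunction.ofPowerSeries (Ideal.absNorm w.asIdeal)
        ((1 - PowerSeries.C ((starRingEnd ℂ) (Psi K w.asIdeal)) *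
          PowerSeries.X)⁻¹ : PowerSeries ℂ) := fun w _ => H7_LEF hU w
  rw [Finset.prod_congr rfl h1, Finset.prod_mul_distrib]
  refine I2_mul_congr ?_ ?_ n le_rfl
  · intro m hm
    exact (hT2 m (Finset.mem_range.2 (by omega))).1
  · intro m hm
    exact (hT2 m (Finset.mem_range.2 (by omega))).2

end H55N
end

-- from Lib.H55N.H8
section

open NumberField IsDedekindDomain

namespace H55N

open H55B H55C

theorem H8_tm {K : Type} [Field K] [NumberField K] (h : Ideal (𝓞 K) → ℂ) (z : ℂ)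
    (a : Ideal (𝓞 K)) :
    tm (fun a => (starRingEnd ℂ) (h a)) z a = (starRingEnd ℂ) (tm h ((starRingEnd ℂ) z) a) := by
  unfold tm
  rw [map_mul]
  congr 1
  rw [← map_neg]
  have h1 : Complex.arg ((Ideal.absNorm a : ℕ) : ℂ) ≠ Real.pi := by
    rw [Complex.natCast_arg]
    exact Real.pi_ne_zero.symm
  have h2 := Complex.cpow_conj ((Ideal.absNorm a : ℕ) : ℂ) (-z) h1
  rw [Complex.conj_natCast] at h2
  rw [h2, Complex.conj_conj]

/-- Chunk H8 (M), the L-function of E27 over K from the L-series of Psi K. Put L(s) = Lam(s) * conj(Lam(conj s)), analytic for Re s > 1/2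
(see how H55C.B10 does it). For Re s > 3/2: the series of AI (Psi K) and AI (conj Psi K) converge absolutely
(tm_summable with Psi_norm_le, AI_LSeries), with sums Lam(s) and conj(Lam(conj s)) (tm of the conjugate function at s is the conjugate
of tm (Psi K) at conj s), and the Dirichlet series of the product AI * AI is the product (ArithmeticFunction.LSeriesHasSum_mul or
LSeries_mul', used in H55C.B10); LFunction_Psi. Value: Lam(1)/R0^n and conj(Lam(1)/R0^n) are units (Unit2.mul, Unit2.conj),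
R0 = R (e om - 1), n = finrank F K. Unit2.ne_zero gives the nonvanishing. -/
theorem L_valN (K : Type) [Field K] [NumberField K] [Algebra F K] (hU : UnrOut K)
    (h : LV (Psi K)) :
    ∃ Λ : ℂ → ℂ, AnalyticOnNhd ℂ Λ {s | 1 / 2 < s.re} ∧
      (∀ s : ℂ, 3 / 2 < s.re →
        LSeriesSummable (fun n => (((E27.baseChange K).LFunction n : ℤ) : ℂ)) s ∧
        Λ s = (E27.baseChange K).LSeries s) ∧ Λ 1 ≠ 0 ∧
      Unit2 (Λ 1 / (R (e om - 1) * (starRingEnd ℂ) (R (e om - 1))) ^ Module.finrank F K) := by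
  obtain ⟨L, hLa, hLs, hL1⟩ := h
  have hval : Unit2 ((L 1 * (starRingEnd ℂ) (L ((starRingEnd ℂ) 1))) /
      (R (e om - 1) * (starRingEnd ℂ) (R (e om - 1))) ^ Module.finrank F K) := by
    have e1 : (L 1 * (starRingEnd ℂ) (L ((starRingEnd ℂ) 1))) /
        (R (e om - 1) * (starRingEnd ℂ) (R (e om - 1))) ^ Module.finrank F K =
        (L 1 / R0 ^ Module.finrank F K) * (starRingEnd ℂ) (L 1 / R0 ^ Module.finrank F K) := by
      rw [map_one, map_div₀, map_pow, mul_pow, mul_div_mul_comm]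
      rfl
    rw [e1]
    exact Unit2.mul hL1 (Unit2.conj hL1)
  refine ⟨fun z => L z * (starRingEnd ℂ) (L ((starRingEnd ℂ) z)), hLa.mul (I4_conj hLa), ?_, ?_,
    hval⟩
  · intro z hz
    have hz' : 3 / 2 < ((starRingEnd ℂ) z).re := by simpa using hz
    have h0 : Psi K ⊥ = 0 := (Psi K).map_zero
    have h1 := AI_LSeries (fun a => Psi K a) h0 z (tm_summable _ Psi_norm_le z hz)
    have h2 := AI_LSeries (fun a => (starRingEnd ℂ) (Psi K a)) (by rw [h0, map_zero]) z
      (tm_summable _ (fun a => by rw [RCLike.norm_conj]; exact Psi_norm_le a) z hz)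
    have e1 : ∑' a, tm (fun a => Psi K a) z a = L z := (hLs z hz).tsum_eq
    have e2 : ∑' a, tm (fun a => (starRingEnd ℂ) (Psi K a)) z a =
        (starRingEnd ℂ) (L ((starRingEnd ℂ) z)) := by
      have h3 := (Complex.hasSum_conj').2 (hLs _ hz')
      have h4 := h3.tsum_eq
      rw [← h4]
      exact tsum_congr fun a => H8_tm _ z a
    rw [e1] at h1
    rw [e2] at h2
    have h3 := ArithmeticFunction.LSeriesHasSum_mul h1 h2
    have e3 : (fun n => (((E27.baseChange K).LFunction n : ℤ) : ℂ)) = fun n =>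
        (AI (Psi K) * AI (fun a => (starRingEnd ℂ) (Psi K a))) n :=
      funext fun n => LFunction_Psi K hU n
    have key : LSeriesHasSum (fun n => (((E27.baseChange K).LFunction n : ℤ) : ℂ)) z
        (L z * (starRingEnd ℂ) (L ((starRingEnd ℂ) z))) := by
      rw [e3]
      exact h3
    exact ⟨key.LSeriesSummable, key.LSeries_eq.symm⟩
  · have h1 := hval.ne_zero
    exact (div_ne_zero_iff.1 h1).1

end H55N
end

-- from Lib.H55P.Z6
section

open NumberField IsDedekindDomain WeierstrassCurve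

namespace H55P

open H55N
open H55B (F O om e emb Prim R E27)

/-! Chunk PZ6 (M). The L-function of y^2 + y = x^3 over K containing F, unramified over F at the primes above 3 (H35N.Unr3).
val_threeU: PORT of val_three (Lib/H55C/B0.lean) with val_lam3 (Lib/H35N/U3.lean; lam = om - 1) in place of val_lam. LFunctionU: PORT of LFunction_Psi (Lib/H55N/H7.lean): hU is only used through val_three.
L_valU: PORT of L_valN (Lib/H55N/H8.lean). LVP at V gives a function Λ_V; for a fixed V₀ above p (exists: hex) take Λ = Λ_(V₀); for the other V: Λ_V 1 = Λ 1 by the identity theorem on the connected half plane (see glue, ident in Lib/H55N/TW1.lean; AnalyticOnNhd.eqOn_of_preconnected_of_eventuallyEq). The valuation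
of conj z at V is the valuation of z at the conjugate of V (V.comap (starRingEnd ℂ), also above p). exists_above_p: a valuation ring of ℂ above p: (H55B or H55C have a similar lemma; LocalSubring.exists_le_valuationSubring or
exists_factor_valuationRing for the localisation of the algebraic integers / for ℤ_(p)). -/

theorem exists_above_p (p : ℕ) (hp : p.Prime) : ∃ V : ValuationSubring ℂ, V.valuation (p : ℂ) < 1 := by
  let A : Subring ℂ := (Int.castRingHom ℂ).range
  have h2A : (p : ℂ) ∈ A := ⟨p, by simp⟩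
  let t : A := ⟨p, h2A⟩
  have hI : Ideal.span {t} ≠ ⊤ := by
    intro h
    have h1 : (1 : A) ∈ Ideal.span {t} := by rw [h]; trivial
    rw [Ideal.mem_span_singleton] at h1
    obtain ⟨⟨c, ⟨n, hn⟩⟩, hc⟩ := h1
    have h3 : (1 : ℂ) = (p : ℂ) * c := congrArg Subtype.val hc
    rw [← hn] at h3
    simp only [eq_intCast] at h3
    have h4 : (1 : ℤ) = (p : ℤ) * n := by exact_mod_cast h3
    have h5 : (p : ℤ) ∣ 1 := ⟨n, h4⟩
    have h6 : (p : ℤ) ≤ 1 := Int.le_of_dvd one_pos h5
    have h7 := hp.two_le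
    omega
  obtain ⟨B, -, hB⟩ := Ideal.image_subset_nonunits_valuationSubring (Ideal.span {t}) hI
  refine ⟨B, ?_⟩
  rw [← ValuationSubring.mem_nonunits_iff]
  exact hB ⟨t, Ideal.mem_span_singleton_self t, rfl⟩

theorem val_threeU {K : Type} [Field K] [NumberField K] [Algebra F K] (hU : H35N.Unr3 K)
    (w : HeightOneSpectrum (𝓞 K)) (h3 : (3 : 𝓞 K) ∈ w.asIdeal) :
    w.valuation K (3 : K) = WithZero.exp (-2 : ℤ) := by
  have h1 : w.valuation K (algebraMap O K (om - 1)) = WithZero.exp (-1 : ℤ) :=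
    H35N.val_lam3 hU w h3
  have h2 : (3 : K) = algebraMap O K 3 := (map_ofNat (algebraMap O K) 3).symm
  have hu : IsUnit (algebraMap O (𝓞 K) (om ^ 2)) := by
    have hom3 : (om : O) ^ 2 * om = 1 := by
      have := H55B.om_rel
      linear_combination (om - 1) * this
    exact (IsUnit.of_mul_eq_one om hom3).map _
  have h4 : w.valuation K (algebraMap O K (om ^ 2)) = 1 := by
    have h5 : algebraMap O K (om ^ 2) = algebraMap (𝓞 K) K (algebraMap O (𝓞 K) (om ^ 2)) :=
      IsScalarTower.algebraMap_apply O (𝓞 K) K _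
    rw [h5, HeightOneSpectrum.valuation_of_algebraMap, HeightOneSpectrum.intValuation_eq_one_iff]
    intro h6
    exact w.isPrime.ne_top (Ideal.eq_top_of_isUnit_mem _ h6 hu)
  rw [h2, H55B.three_eq, neg_mul, map_neg, Valuation.map_neg, map_mul, map_mul, h4,
    map_pow _ (om - 1), map_pow, h1, one_mul]
  rfl

theorem pz6_LEF {K : Type} [Field K] [NumberField K] [Algebra F K] (hU : H35N.Unr3 K)
    (w : HeightOneSpectrum (𝓞 K)) :
    H55C.LEF K w = ArithmeticFunction.ofPowerSeries (Ideal.absNorm w.asIdeal)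
        ((1 - PowerSeries.C (Psi K w.asIdeal) * PowerSeries.X)⁻¹ : PowerSeries ℂ) *
      ArithmeticFunction.ofPowerSeries (Ideal.absNorm w.asIdeal)
        ((1 - PowerSeries.C ((starRingEnd ℂ) (Psi K w.asIdeal)) *
          PowerSeries.X)⁻¹ : PowerSeries ℂ) := by
  by_cases h3 : (3 : 𝓞 K) ∈ w.asIdeal
  · rw [H7_three w h3, map_zero (starRingEnd ℂ), H7_ps, map_one, mul_one]
    exact H55B.I2_local_bad w (val_threeU hU w h3)
  · obtain ⟨v, hv⟩ := H1_below w
    have hv3 : (3 : O) ∉ v.asIdeal := by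
      intro h
      apply h3
      rw [hv, Ideal.mem_comap, map_ofNat] at h
      exact h
    rw [H55C.b8_LEF w h3 v hv, Psi_prime w v hv, psiF_prime v hv3,
      map_pow (starRingEnd ℂ) ((starRingEnd ℂ) (e (H55B.gen v))), Complex.conj_conj, mul_comm]

theorem LFunctionU (K : Type) [Field K] [NumberField K] [Algebra F K] (hU : H35N.Unr3 K) (n : ℕ) :
    (((E27.baseChange K).LFunction n : ℤ) : ℂ) =
      (AI (Psi K) * AI (fun a => (starRingEnd ℂ) (Psi K a))) n := by
  classical
  set L : HeightOneSpectrum (𝓞 K) → ArithmeticFunction ℤ := fun w =>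
    ((E27.baseChange K).baseChange (w.adicCompletion K)).localEulerFactor
      (w.adicCompletionIntegers K) with hLdef
  have hL : ∀ᶠ T in Filter.atTop, (∏ w ∈ T, L w) n = (E27.baseChange K).LFunction n := by
    have hN : Northcott (fun w : HeightOneSpectrum (𝓞 K) =>
        Nat.card (IsLocalRing.ResidueField (w.adicCompletionIntegers K))) := by
      have h1 : (fun w : HeightOneSpectrum (𝓞 K) =>
        Nat.card (IsLocalRing.ResidueField (w.adicCompletionIntegers K))) =
          fun w => Ideal.absNorm w.asIdeal := funext fun w => (H55B.residue_card K w).2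
      rw [h1]
      infer_instance
    exact ArithmeticFunction.tendsTo_eulerProduct_ofPowerSeries
      (fun w : HeightOneSpectrum (𝓞 K) =>
        Nat.card (IsLocalRing.ResidueField (w.adicCompletionIntegers K)))
      (fun w => ((E27.baseChange K).baseChange (w.adicCompletion K)).localPowerSeries
        (w.adicCompletionIntegers K))
      (fun w => by simp [WeierstrassCurve.localPowerSeries]) n
  have hA : ∀ᶠ T : Finset (HeightOneSpectrum (𝓞 K)) in Filter.atTop,
      ∀ m ∈ Finset.range (n + 1),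
      (∏ w ∈ T, ArithmeticFunction.ofPowerSeries (Ideal.absNorm w.asIdeal)
        ((1 - PowerSeries.C (Psi K w.asIdeal) * PowerSeries.X)⁻¹ : PowerSeries ℂ)) m =
          AI (Psi K) m ∧
      (∏ w ∈ T, ArithmeticFunction.ofPowerSeries (Ideal.absNorm w.asIdeal)
        ((1 - PowerSeries.C ((starRingEnd ℂ) (Psi K w.asIdeal)) *
          PowerSeries.X)⁻¹ : PowerSeries ℂ)) m =
          AI (fun a => (starRingEnd ℂ) (Psi K a)) m := by
    rw [Filter.eventually_all_finset]
    intro m _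
    exact (AI_euler (Psi K) m).and (AI_euler (H7_conj K) m)
  obtain ⟨T, hT1, hT2⟩ := (hL.and hA).exists
  rw [← hT1, ← ArithmeticFunction.intCoe_apply, H55B.I2_cast_prod]
  have h1 : ∀ w ∈ T, ((L w : ArithmeticFunction ℤ) : ArithmeticFunction ℂ) =
      ArithmeticFunction.ofPowerSeries (Ideal.absNorm w.asIdeal)
        ((1 - PowerSeries.C (Psi K w.asIdeal) * PowerSeries.X)⁻¹ : PowerSeries ℂ) *
      ArithmeticFunction.ofPowerSeries (Ideal.absNorm w.asIdeal)
        ((1 - PowerSeries.C ((starRingEnd ℂ) (Psi K w.asIdeal)) *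
          PowerSeries.X)⁻¹ : PowerSeries ℂ) := fun w _ => pz6_LEF hU w
  rw [Finset.prod_congr rfl h1, Finset.prod_mul_distrib]
  refine H55B.I2_mul_congr ?_ ?_ n le_rfl
  · intro m hm
    exact (hT2 m (Finset.mem_range.2 (by omega))).1
  · intro m hm
    exact (hT2 m (Finset.mem_range.2 (by omega))).2

/-- the value of the conjugate -/
theorem pz6_conj {p : ℕ} (hp : p.Prime) {x : ℂ} (hx0 : x ≠ 0) (hx : UnitP p x) :
    UnitP p ((starRingEnd ℂ) x) := by
  intro A hA
  have h2 : (p : ℂ) ≠ 0 := Nat.cast_ne_zero.2 hp.ne_zero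
  set B : ValuationSubring ℂ := A.comap (starRingEnd ℂ) with hB
  have hmem : ∀ z : ℂ, z ∈ B ↔ (starRingEnd ℂ) z ∈ A := fun z => Iff.rfl
  have hB2 : B.valuation (p : ℂ) < 1 := by
    rw [H55C.B9_lt B h2, hmem, map_inv₀, map_natCast, ← H55C.B9_lt A h2]
    exact hA
  have h3 := (H55C.B9_eq B hx0).1 (hx B hB2)
  rw [hmem, hmem, map_inv₀] at h3
  exact (H55C.B9_eq A ((map_ne_zero (starRingEnd ℂ)).2 hx0)).2 h3

theorem pz6_ne {p : ℕ} (hp : p.Prime) {x : ℂ} (hx : UnitP p x) : x ≠ 0 := by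
  obtain ⟨A, hA⟩ := exists_above_p p hp
  intro h
  have h1 := hx A hA
  rw [h, map_zero] at h1
  exact zero_ne_one h1

/-- one continuation for all valuations above p -/
theorem pz6_glue {K : Type} [Field K] [NumberField K] [Algebra F K] {p : ℕ} (hp : p.Prime)
    {Om : ℂ} {h : Ideal (𝓞 K) →*₀ ℂ}
    (hL : ∀ V : ValuationSubring ℂ, V.valuation (p : ℂ) < 1 → LVP F V Om h) :
    ∃ Λ : ℂ → ℂ, AnalyticOnNhd ℂ Λ {s | 1 / 2 < s.re} ∧
      (∀ s : ℂ, 3 / 2 < s.re → HasSum (tm h s) (Λ s)) ∧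
      UnitP p (Λ 1 / Om ^ Module.finrank F K) := by
  obtain ⟨V₀, hV₀⟩ := exists_above_p p hp
  obtain ⟨L, hLa, hLs, -⟩ := hL V₀ hV₀
  refine ⟨L, hLa, hLs, fun V hV => ?_⟩
  obtain ⟨L', hLa', hLs', hV'⟩ := hL V hV
  have h1 : L 1 = L' 1 := ident L L' hLa hLa' (fun s hs => (hLs s hs).unique (hLs' s hs)) 1
    (by norm_num)
  rw [h1]
  exact hV'

theorem L_valU (K : Type) [Field K] [NumberField K] [Algebra F K] (hU : H35N.Unr3 K) (p : ℕ)
    (hp : p.Prime) (h : ∀ V : ValuationSubring ℂ, V.valuation (p : ℂ) < 1 → LVP F V OmE (PsiP K psiE)) :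
    ∃ Λ : ℂ → ℂ, AnalyticOnNhd ℂ Λ {s | 1 / 2 < s.re} ∧
      (∀ s : ℂ, 3 / 2 < s.re →
        LSeriesSummable (fun n => (((E27.baseChange K).LFunction n : ℤ) : ℂ)) s ∧
        Λ s = (E27.baseChange K).LSeries s) ∧ Λ 1 ≠ 0 ∧
      UnitP p (Λ 1 / (OmE * (starRingEnd ℂ) OmE) ^ Module.finrank F K) := by
  obtain ⟨L, hLa, hLs', hL1⟩ := pz6_glue hp h
  have hLs : ∀ s : ℂ, 3 / 2 < s.re → HasSum (tm (Psi K) s) (L s) := fun s hs => hLs' s hs
  have hval : UnitP p ((L 1 * (starRingEnd ℂ) (L ((starRingEnd ℂ) 1))) /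
      (OmE * (starRingEnd ℂ) OmE) ^ Module.finrank F K) := by
    have e1 : (L 1 * (starRingEnd ℂ) (L ((starRingEnd ℂ) 1))) /
        (OmE * (starRingEnd ℂ) OmE) ^ Module.finrank F K =
        (L 1 / OmE ^ Module.finrank F K) *
          (starRingEnd ℂ) (L 1 / OmE ^ Module.finrank F K) := by
      rw [map_one, map_div₀, map_pow, mul_pow, mul_div_mul_comm]
    rw [e1]
    intro V hV
    rw [map_mul, hL1 V hV, pz6_conj hp (pz6_ne hp hL1) hL1 V hV, one_mul]
  refine ⟨fun z => L z * (starRingEnd ℂ) (L ((starRingEnd ℂ) z)), hLa.mul (H55B.I4_conj hLa), ?_, ?_,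
    hval⟩
  · intro z hz
    have hz' : 3 / 2 < ((starRingEnd ℂ) z).re := by simpa using hz
    have h0 : Psi K ⊥ = 0 := (Psi K).map_zero
    have h1 := AI_LSeries (fun a => Psi K a) h0 z (tm_summable _ Psi_norm_le z hz)
    have h2 := AI_LSeries (fun a => (starRingEnd ℂ) (Psi K a)) (by rw [h0, map_zero]) z
      (tm_summable _ (fun a => by rw [RCLike.norm_conj]; exact Psi_norm_le a) z hz)
    have e1 : ∑' a, tm (fun a => Psi K a) z a = L z := (hLs z hz).tsum_eq
    have e2 : ∑' a, tm (fun a => (starRingEnd ℂ) (Psi K a)) z a =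
        (starRingEnd ℂ) (L ((starRingEnd ℂ) z)) := by
      have h3 := (Complex.hasSum_conj').2 (hLs _ hz')
      have h4 := h3.tsum_eq
      rw [← h4]
      exact tsum_congr fun a => H8_tm _ z a
    rw [e1] at h1
    rw [e2] at h2
    have h3 := ArithmeticFunction.LSeriesHasSum_mul h1 h2
    have e3 : (fun n => (((E27.baseChange K).LFunction n : ℤ) : ℂ)) = fun n =>
        (AI (Psi K) * AI (fun a => (starRingEnd ℂ) (Psi K a))) n :=
      funext fun n => LFunctionU K hU n
    have key : LSeriesHasSum (fun n => (((E27.baseChange K).LFunction n : ℤ) : ℂ)) z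
        (L z * (starRingEnd ℂ) (L ((starRingEnd ℂ) z))) := by
      rw [e3]
      exact h3
    exact ⟨key.LSeriesSummable, key.LSeries_eq.symm⟩
  · have h1 := pz6_ne hp hval
    exact (div_ne_zero_iff.1 h1).1

end H55P
end

-- from Lib.H55K.C25
section

open Polynomial

namespace H55K.CC

/-! Chunk C25 (M, pure algebra). U = N E - M D, G = D E, f = X^3 + C A X + C B. Suppose U <> 0, n = natDegree U, u = leading coefficient. Multiply the first equation by E^4, the second by D^4 and subtract: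
f ((W1 E^2)^2 - (W2 D^2)^2) = C(α^2) G U Q, W1 = N'D - ND', W2 = M'E - ME', Q = N^2E^2 + N E M D + M^2D^2 + C A D^2E^2, and W1 E^2 - W2 D^2 = U'G - UG' (ring, derivative_mul). So
f (U'G - UG') (W1 E^2 + W2 D^2) = C(α^2) G U Q. Multiply by X^2 and compare the coefficients of X^(n + 3g + 4), g = d + e, with Polynomial.coeff_mul_of_natDegree_le (coeff (P Q) (m + k) = coeff P m * coeff Q k if natDegree P ≤ m,
natDegree Q ≤ k). Top coefficients (γ = α^(-2), so N has γ, D has 1, M has γ, E has 1; the derivative enters as X P', whose coefficient of X^m is m times that of P):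
f: 1 (degree 3); X(U'G - UG') = (XU')G - U(XG'), degree ≤ n + g: (n - g) u; X W1: degree ≤ 2d+1: ((d+1) - d) γ = γ; X W1 E^2: degree ≤ 2g+1: γ; X W2 D^2: γ; the sum 2γ.
Left side: 2 γ (n - g) u, total degree 3 + (n+g) + (2g+1). Right side: X^2 C(α^2) G U Q: 2 + g + n + (2g+2); Q: 3 γ^2 (the last term has degree ≤ 2g: coefficient 0 at 2g+2). So 2 γ (n-g) u = α^2 3 γ^2 u = 3 γ u,
2 (n - g) = 3 in K, i.e. 2 n = 2 g + 3 in K, by CharZero in ℕ: absurd. -/

theorem ND_unique {K : Type} [Field K] [CharZero K] {α A B : K} (hα : α ≠ 0) {d e : ℕ} {N D M E : K[X]}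
    (h1 : ND α A B d N D) (h2 : ND α A B e M E) : N * E = M * D := by
  obtain ⟨dN, cN, dD, cD, o1⟩ := h1
  obtain ⟨dM, cM, dE, cE, o2⟩ := h2
  obtain ⟨γ, hγ⟩ : ∃ γ, γ = N.coeff (d + 1) := ⟨_, rfl⟩
  rw [← hγ] at cN
  have hγM : M.coeff (e + 1) = γ := mul_left_cancel₀ (pow_ne_zero 2 hα) (cM.trans cN.symm)
  have hγ0 : γ ≠ 0 := by
    rintro rfl
    rw [mul_zero] at cN
    exact zero_ne_one cN
  by_contra hne
  obtain ⟨U, hU⟩ : ∃ U, U = N * E - M * D := ⟨_, rfl⟩
  have hU0 : U ≠ 0 := by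
    rw [hU]
    exact sub_ne_zero.2 hne
  obtain ⟨G, hG⟩ : ∃ G, G = D * E := ⟨_, rfl⟩
  obtain ⟨n, hn⟩ : ∃ n, n = U.natDegree := ⟨_, rfl⟩
  obtain ⟨u, hu⟩ : ∃ u, u = U.coeff n := ⟨_, rfl⟩
  have hu0 : u ≠ 0 := by
    rw [hu, hn]
    exact leadingCoeff_ne_zero.2 hU0
  obtain ⟨P1, hP1⟩ : ∃ P, P = (derivative N * D - N * derivative D) * E ^ 2 := ⟨_, rfl⟩
  obtain ⟨P2, hP2⟩ : ∃ P, P = (derivative M * E - M * derivative E) * D ^ 2 := ⟨_, rfl⟩
  obtain ⟨Q, hQ⟩ : ∃ Q, Q = (N * E) ^ 2 + (N * E) * (M * D) + (M * D) ^ 2 + C A * G ^ 2 := ⟨_, rfl⟩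
  have hdU : derivative U = derivative N * E + N * derivative E - (derivative M * D + M * derivative D) := by
    rw [hU, derivative_sub, derivative_mul, derivative_mul]
  have hdG : derivative G = derivative D * E + D * derivative E := by
    rw [hG, derivative_mul]
  have hdiff : P1 - P2 = derivative U * G - U * derivative G := by
    rw [hdU, hdG, hP1, hP2, hG, hU]
    ring
  have hsq : (X ^ 3 + C A * X + C B) * ((P1 - P2) * (P1 + P2)) = C (α ^ 2) * (G * (U * Q)) := by
    have e1 := congrArg (· * E ^ 4) o1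
    have e2 := congrArg (· * D ^ 4) o2
    beta_reduce at e1 e2
    have e3 : (X ^ 3 + C A * X + C B) * ((P1 - P2) * (P1 + P2)) =
        (X ^ 3 + C A * X + C B) * (derivative N * D - N * derivative D) ^ 2 * E ^ 4 -
        (X ^ 3 + C A * X + C B) * (derivative M * E - M * derivative E) ^ 2 * D ^ 4 := by
      rw [hP1, hP2]
      ring
    rw [e3, e1, e2, hQ, hU, hG]
    ring
  have hθ : ∀ P : K[X], ∀ m : ℕ, (X * derivative P).coeff m = (m : K) * P.coeff m := by
    intro P m
    rcases m with _ | m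
    · rw [coeff_X_mul_zero, Nat.cast_zero, zero_mul]
    · rw [coeff_X_mul, coeff_derivative]
      push_cast
      ring
  have hθd : ∀ P : K[X], ∀ m : ℕ, P.natDegree ≤ m → (X * derivative P).natDegree ≤ m := by
    intro P m hm
    rw [natDegree_le_iff_coeff_eq_zero]
    intro k hk
    rw [hθ, coeff_eq_zero_of_natDegree_lt (lt_of_le_of_lt hm hk), mul_zero]
  have dG : G.natDegree ≤ d + e := by
    rw [hG]
    exact natDegree_mul_le_of_le dD dE
  have cG : G.coeff (d + e) = 1 := by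
    rw [hG, coeff_mul_add_eq_of_natDegree_le dD dE, cD, cE, mul_one]
  -- the second factor
  have hF2 : (X * (P1 - P2)).coeff (n + (d + e)) = ((n : K) - (d + e : ℕ)) * u ∧
      (X * (P1 - P2)).natDegree ≤ n + (d + e) := by
    have e1 : X * (P1 - P2) = (X * derivative U) * G - U * (X * derivative G) := by
      rw [hdiff]
      ring
    have a1 : (X * derivative U).natDegree ≤ n := hθd U n hn.ge
    have a2 : (X * derivative G).natDegree ≤ d + e := hθd G _ dG
    rw [e1]
    constructor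
    · rw [coeff_sub, coeff_mul_add_eq_of_natDegree_le a1 dG, coeff_mul_add_eq_of_natDegree_le hn.ge a2, hθ, hθ, cG, ← hu]
      ring
    · exact (natDegree_sub_le _ _).trans (max_le (natDegree_mul_le_of_le a1 dG) (natDegree_mul_le_of_le hn.ge a2))
  have hW : ∀ (N D E : K[X]) (d e : ℕ), N.natDegree ≤ d + 1 → N.coeff (d + 1) = γ → D.natDegree ≤ d → D.coeff d = 1 →
      E.natDegree ≤ e → E.coeff e = 1 →
      (X * ((derivative N * D - N * derivative D) * E ^ 2)).coeff (2 * (d + e) + 1) = γ ∧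
      (X * ((derivative N * D - N * derivative D) * E ^ 2)).natDegree ≤ 2 * (d + e) + 1 := by
    intro N D E d e dN cN dD cD dE cE
    have e1 : X * ((derivative N * D - N * derivative D) * E ^ 2) =
        ((X * derivative N) * D - N * (X * derivative D)) * (E * E) := by ring
    have a1 : (X * derivative N).natDegree ≤ d + 1 := hθd N _ dN
    have a2 : (X * derivative D).natDegree ≤ d := hθd D _ dD
    have a3 : (E * E).natDegree ≤ e + e := natDegree_mul_le_of_le dE dE
    have a4 : ((X * derivative N) * D - N * (X * derivative D)).natDegree ≤ (d + 1) + d :=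
      (natDegree_sub_le _ _).trans (max_le (natDegree_mul_le_of_le a1 dD) (natDegree_mul_le_of_le dN a2))
    have e2 : 2 * (d + e) + 1 = ((d + 1) + d) + (e + e) := by ring
    rw [e1, e2]
    constructor
    · rw [coeff_mul_add_eq_of_natDegree_le a4 a3, coeff_sub, coeff_mul_add_eq_of_natDegree_le a1 dD, coeff_mul_add_eq_of_natDegree_le dN a2,
        hθ, hθ, coeff_mul_add_eq_of_natDegree_le dE dE, cN, cD, cE]
      push_cast
      ring
    · exact natDegree_mul_le_of_le a4 a3
  obtain ⟨w1, w2⟩ := hW N D E d e dN hγ.symm dD cD dE cE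
  obtain ⟨w3, w4⟩ := hW M E D e d dM hγM dE cE dD cD
  rw [← hP1] at w1 w2
  rw [← hP2, add_comm e d] at w3 w4
  have hF3 : (X * (P1 + P2)).coeff (2 * (d + e) + 1) = 2 * γ ∧ (X * (P1 + P2)).natDegree ≤ 2 * (d + e) + 1 := by
    rw [mul_add]
    constructor
    · rw [coeff_add, w1, w3]
      ring
    · exact (natDegree_add_le _ _).trans (max_le w2 w4)
  have hF1 : (X ^ 3 + C A * X + C B : K[X]).coeff 3 = 1 ∧ (X ^ 3 + C A * X + C B : K[X]).natDegree ≤ 3 := by
    constructor
    · rw [coeff_add, coeff_add, coeff_C_mul, coeff_X_pow_self, coeff_C, coeff_X]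
      norm_num
    · compute_degree
  have hNE : (N * E).coeff (d + e + 1) = γ ∧ (N * E).natDegree ≤ d + e + 1 := by
    have : d + e + 1 = (d + 1) + e := by ring
    rw [this]
    exact ⟨by rw [coeff_mul_add_eq_of_natDegree_le dN dE, cE, ← hγ, mul_one], natDegree_mul_le_of_le dN dE⟩
  have hMD : (M * D).coeff (d + e + 1) = γ ∧ (M * D).natDegree ≤ d + e + 1 := by
    have : d + e + 1 = (e + 1) + d := by ring
    rw [this]
    exact ⟨by rw [coeff_mul_add_eq_of_natDegree_le dM dD, cD, hγM, mul_one], natDegree_mul_le_of_le dM dD⟩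
  have hGG : (C A * G ^ 2).natDegree ≤ (d + e) + (d + e) := by
    rw [sq]
    exact (natDegree_C_mul_le _ _).trans (natDegree_mul_le_of_le dG dG)
  have hQ2 : Q.coeff ((d + e + 1) + (d + e + 1)) = 3 * γ ^ 2 ∧ Q.natDegree ≤ (d + e + 1) + (d + e + 1) := by
    rw [hQ, sq (N * E), sq (M * D)]
    constructor
    · rw [coeff_add, coeff_add, coeff_add, coeff_mul_add_eq_of_natDegree_le hNE.2 hNE.2, coeff_mul_add_eq_of_natDegree_le hNE.2 hMD.2,
        coeff_mul_add_eq_of_natDegree_le hMD.2 hMD.2, coeff_eq_zero_of_natDegree_lt (lt_of_le_of_lt hGG (by omega)), hNE.1, hMD.1]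
      ring
    · exact (natDegree_add_le _ _).trans (max_le ((natDegree_add_le _ _).trans (max_le ((natDegree_add_le _ _).trans
        (max_le (natDegree_mul_le_of_le hNE.2 hNE.2) (natDegree_mul_le_of_le hNE.2 hMD.2)))
        (natDegree_mul_le_of_le hMD.2 hMD.2))) (hGG.trans (by omega)))
  have hfin := congrArg (fun P => (X ^ 2 * P).coeff (3 + ((n + (d + e)) + (2 * (d + e) + 1)))) hsq
  beta_reduce at hfin
  have l1 : X ^ 2 * ((X ^ 3 + C A * X + C B) * ((P1 - P2) * (P1 + P2))) =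
      (X ^ 3 + C A * X + C B) * ((X * (P1 - P2)) * (X * (P1 + P2))) := by ring
  have l2 : X ^ 2 * (C (α ^ 2) * (G * (U * Q))) = C (α ^ 2) * (X ^ 2 * (G * (U * Q))) := by ring
  have l3 : 3 + ((n + (d + e)) + (2 * (d + e) + 1)) = 2 + ((d + e) + (n + ((d + e + 1) + (d + e + 1)))) := by ring
  rw [l1, l2, coeff_mul_add_eq_of_natDegree_le hF1.2 (natDegree_mul_le_of_le hF2.2 hF3.2),
    coeff_mul_add_eq_of_natDegree_le hF2.2 hF3.2, l3, coeff_C_mul,
    coeff_mul_add_eq_of_natDegree_le (natDegree_X_pow_le 2) (natDegree_mul_le_of_le dG (natDegree_mul_le_of_le hn.ge hQ2.2)),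
    coeff_mul_add_eq_of_natDegree_le dG (natDegree_mul_le_of_le hn.ge hQ2.2),
    coeff_mul_add_eq_of_natDegree_le hn.ge hQ2.2, hF1.1, hF2.1, hF3.1, coeff_X_pow_self, cG, ← hu, hQ2.1] at hfin
  have h5 : (γ * u) * (2 * ((n : K) - (d + e : ℕ)) - 3) = 0 := by
    linear_combination hfin + 3 * u * γ * cN
  have h6 := (mul_eq_zero.1 h5).resolve_left (mul_ne_zero hγ0 hu0)
  have h7 : ((2 * n : ℕ) : K) = ((2 * (d + e) + 3 : ℕ) : K) := by
    push_cast
    push_cast at h6
    linear_combination h6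
  have h8 := Nat.cast_injective h7
  omega

theorem ND_map {K : Type} [Field K] {α A B : K} {d : ℕ} {N D : K[X]} (h : ND α A B d N D) (s : K →+* K)
    (h1 : s α = α) (h2 : s A = A) (h3 : s B = B) : ND α A B d (N.map s) (D.map s) := by
  refine ⟨(natDegree_map_le).trans h.dN, ?_, (natDegree_map_le).trans h.dD, ?_, ?_⟩
  · rw [coeff_map]
    have := congrArg s h.cN
    rwa [map_mul, map_pow, h1, map_one] at this
  · rw [coeff_map, h.cD, map_one]
  · have := congrArg (Polynomial.map s) h.ode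
    simp only [Polynomial.map_mul, Polynomial.map_add, Polynomial.map_sub, Polynomial.map_pow, map_X, map_C,
      map_pow, h1, h2, h3, ← derivative_map] at this
    simpa only [map_pow] using this

end H55K.CC
end

-- from Lib.H55K.SKU1
section

/-! # H55K, part S: port of H13S/KU1 -/

open NumberField IsDedekindDomain WeierstrassCurve

namespace H55K.S

open H55P (IQ embF eF LF Per IsHecke Pt ac Inert Dec Nm)
open H35P (WAB Ker tt)
open H13S (Abv)




variable {F : Type} [Field F] [NumberField F] [IQ F] {A B : F} {Om : ℂ} {Ω : Type} [Field Ω] [DecidableEq Ω]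
  [Algebra F Ω] [IsAlgClosure F Ω] {j : Ω →+* ℂ} {act : 𝓞 F →+* AddMonoid.End (Pt (WAB A B) Ω)} {mo : Ideal (𝓞 F)}
  {ψ : Ideal (𝓞 F) →*₀ 𝓞 F}

/-- Chunk KU1 (M). Kummer generators by Hilbert 90. E₁ = the field of C.cont; zeta = a primitive l-th root of unity; N = normal closure over F of the compositum of
E₁, L, F(zeta): finite Galois over F, N ≥ L. For n in N.fixingSubgroup: c n = 0; so c (s n) = c s. For s in L.fixingSubgroup put u s = e (c s) T: an l-th root of
unity (he.root, C.val), in N. u (s t) = e (c s + ac s (c t)) T = u s * e (ac s (c t)) (ac s T) = u s * s (u t), because ac s T = T (IsTF), he.add_left, he.gal. So u induces a multiplicative 1-cocycle of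
Gal(N/L) (elements of Gal(N/L) lift to L.fixingSubgroup, u does not depend on the lift) with values in N^*. Hilbert 90
(groupCohomology.isMulCoboundary₁_of_isMulCocycle₁_of_aut_to_units, or Dedekind independence by hand) gives y in N^* with s y = u s * y. -/
theorem exists_kum {π : 𝓞 F} {l : ℕ} {c : (Ω ≃ₐ[F] Ω) → Pt (WAB A B) Ω} (C : Cl A B Om j act mo ψ π l c) {e : Pt (WAB A B) Ω → Pt (WAB A B) Ω → Ω}
    (he : Pairing A B act π l e) {L : IntermediateField F Ω} (hL : IsTF act π L) {T : Pt (WAB A B) Ω} (hT : T ∈ Tor act π) :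
    ∃ y : Ω, Kum L e c T y := by
  classical
  have hA := C.cma
  obtain ⟨E₁, hE₁, hc₁⟩ := C.cont
  have hNF : Normal F Ω := IsAlgClosure.normal F Ω
  have hNL : Normal L Ω := Normal.tower_top_of_normal F L Ω
  let b := Module.finBasis F E₁
  let S : Set Ω := Set.range (fun i => ((b i : E₁) : Ω)) ∪ {x : Ω | x ^ l = 1}
  have hl0 : 0 < l := C.hl.pos
  have hfr : {x : Ω | x ^ l = 1}.Finite := by
    have h1 := (Polynomial.nthRoots l (1 : Ω)).toFinset.finite_toSet
    refine h1.subset fun x hx => ?_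
    rw [Finset.mem_coe, Multiset.mem_toFinset, Polynomial.mem_nthRoots hl0]
    exact hx
  have hSf : Finite S := ((Set.finite_range _).union hfr).to_subtype
  -- the inclusion of the automorphism groups
  have hmem : ∀ s : Ω ≃ₐ[L] Ω, s.restrictScalars F ∈ L.fixingSubgroup := by
    intro s
    rw [IntermediateField.mem_fixingSubgroup_iff]
    intro x hx
    exact s.commutes ⟨x, hx⟩
  have hacT : ∀ s : Ω ≃ₐ[L] Ω, ac (WAB A B) (s.restrictScalars F) T = T := fun s =>
    (hL.2 _).1 (hmem s) T hT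
  have h0 : ∀ s : Ω ≃ₐ[L] Ω, e (c (s.restrictScalars F)) T ≠ 0 := by
    intro s h0
    have h1 := he.root _ (C.val (s.restrictScalars F)) T hT
    rw [h0, zero_pow hl0.ne'] at h1
    exact zero_ne_one h1
  have hcoc : ∀ s t : Ω ≃ₐ[L] Ω, e (c ((s * t).restrictScalars F)) T =
      e (c (s.restrictScalars F)) T * s (e (c (t.restrictScalars F)) T) := by
    intro s t
    have h1 : (s * t).restrictScalars F = s.restrictScalars F * t.restrictScalars F := rfl
    rw [h1, C.mul, he.add_left _ (C.val _) _ (ac_mem hA _ (C.val _)) T hT]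
    congr 1
    have h2 := he.gal (s.restrictScalars F) _ (C.val (t.restrictScalars F)) T hT
    rw [hacT] at h2
    exact h2.symm
  have htriv : ∀ n : Ω ≃ₐ[L] Ω, (∀ x ∈ S, n x = x) → e (c (n.restrictScalars F)) T = 1 := by
    intro n hn
    have h1 : n.restrictScalars F ∈ E₁.fixingSubgroup := by
      rw [IntermediateField.mem_fixingSubgroup_iff]
      intro x hx
      have h2 := b.sum_repr ⟨x, hx⟩
      have h3 : x = ∑ i, (b.repr ⟨x, hx⟩ i) • ((b i : E₁) : Ω) := by
        have h4 := congrArg (fun z : E₁ => (z : Ω)) h2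
        refine h4.symm.trans ?_
        push_cast
        rfl
      rw [h3, map_sum]
      refine Finset.sum_congr rfl fun i _ => ?_
      rw [map_smul]
      congr 1
      exact hn _ (Or.inl ⟨i, rfl⟩)
    have h2 := hc₁ _ h1
    rw [h2]
    have h3 := he.add_left 0 (zero_mem _) 0 (zero_mem _) T hT
    rw [add_zero] at h3
    have h4 := he.root 0 (zero_mem _) T hT
    have h5 : e 0 T ≠ 0 := by
      intro h0
      rw [h0, zero_pow hl0.ne'] at h4
      exact zero_ne_one h4
    exact (mul_eq_left₀ h5).1 h3.symm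
  obtain ⟨y, hy0, hy⟩ := H13S.ku1_h90 (k := L) (Ω := Ω) (fun s => e (c (s.restrictScalars F)) T) h0 hcoc S
    (fun s => Or.inr (he.root _ (C.val _) T hT)) htriv
  refine ⟨y, hy0, fun s hs => ?_⟩
  exact hy (IntermediateField.fixingSubgroupEquiv L ⟨s, hs⟩)

end H55K.S
end
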