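import Mathlib
import Pool.Agent.Lib.H1M.PP.M005
import Pool.Agent.Lib.H1M.PP.M011
import Pool.Agent.Lib.H1M.PP.M015
import Pool.Agent.Lib.H1M.PP.M029
import Pool.Agent.Lib.H1M.PP.M030
import Pool.Agent.Lib.H1M.PP.M046
import Pool.Agent.Lib.H1M.PP.M047
import Pool.Agent.Lib.H1M.PP.M048
import Pool.Agent.Lib.H1M.PP.M050
import Pool.Agent.Lib.H1M.PP.M051
import Pool.Agent.Lib.H1M.PP.M056
import Pool.Agent.Lib.H1M.PP.M059

/-! Merged copies (to shorten the build) of Lib.H13S.DC, Lib.H13Z.LPA, Lib.H13X.XLV0, Lib.H55K.QE0, Lib.H55K.T5, Lib.H55K.T7B, Lib.H55K.T8. -/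

-- from Lib.H13S.DC
section

open NumberField IsDedekindDomain

namespace H13S

open H55P H28G H55B

variable {Ω : Type} [Field Ω] [DecidableEq Ω] [Algebra F Ω] [IsAlgClosure F Ω]

theorem dc_prim_cj {x : O} (h : Prim x) : Prim (cj x) := by
  obtain ⟨y, hy⟩ := h
  refine ⟨cj y, ?_⟩
  have h1 := congrArg cj hy
  rw [map_sub, map_one, map_mul, map_ofNat] at h1
  exact h1

theorem dc_Nm_cj (x : O) : H55B.Nm (cj x) = H55B.Nm x := by
  have h1 := mul_cj x
  have h2 := mul_cj (cj x)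
  rw [cj_cj, mul_comm, h1] at h2
  exact_mod_cast h2.symm

theorem dc_Nm_nat (l : ℕ) : H55B.Nm (l : O) = l ^ 2 := by
  have h := Nm_repr (l : ℤ) 0
  simp only [Int.cast_natCast, Int.cast_zero, zero_mul, add_zero] at h
  have h2 : (H55B.Nm (l : O) : ℤ) = (l : ℤ) ^ 2 := by rw [h]; ring
  exact_mod_cast h2

/-- Chunk DC (S/M), arithmetic. pi primary prime above l ≥ 5: either cj pi = pi and Nm pi = l^2, or pi does not divide cj pi, Nm pi = l, and then pi does not divide
cj pi - 1. Proof: pi divides l, so Nm pi divides l^2 and Nm pi = l or l^2. If Nm pi = l^2: pi and l are associated (l = pi x, Nm x = 1), cj pi is associated to pi, and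
primary elements which are associated (and prime to 3) are equal. If Nm pi = l: if pi divided cj pi then cj pi = u pi, = pi (primary), pi^2 = l: but l is not a square of an Eisenstein integer (pi =
a + b om = cj pi gives b = 0, a^2 = l, false). If pi divides cj pi - 1 then pi divides the integer t = pi + cj pi - 1, so l divides t (Nm); |pi + cj pi| ≤ 2 sqrt l, so |t| ≤ 2 sqrt l + 1 < l for
l ≥ 7 (l = 5: Nm pi = 5 is impossible, a^2 - a b + b^2 = 5 has no solution, norms are 0 or 1 modulo 3), so t = 0; but t = 1 + 1 - 1 = 1 modulo 3. -/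
theorem dichotomy (π : O) (l : ℕ) (hl : l.Prime) (h5 : 5 ≤ l) (hπ : Prime π) (h3 : Prim π)
    (hd : π ∣ (l : O)) : (cj π = π ∧ H55B.Nm π = l ^ 2) ∨ (¬ π ∣ cj π ∧ H55B.Nm π = l ∧ ¬ π ∣ cj π - 1) := by
  obtain ⟨x, hx⟩ := hd
  have hl0 : (l : O) ≠ 0 := by exact_mod_cast hl.ne_zero
  have hN : H55B.Nm π * H55B.Nm x = l ^ 2 := by rw [← Nm_mul, ← hx, dc_Nm_nat]
  obtain ⟨k, hk, hk2⟩ := (Nat.dvd_prime_pow hl).1 (Dvd.intro _ hN)
  have hlp : 0 < l := hl.pos
  have hk0 : k ≠ 0 := by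
    rintro rfl
    rw [pow_zero] at hk2
    exact hπ.not_isUnit (Nm_eq_one.1 hk2)
  have hk12 : k = 1 ∨ k = 2 := by omega
  rcases hk12 with rfl | rfl
  · right
    rw [pow_one] at hk2
    have hmc : π * cj π = (l : O) := by rw [mul_cj, hk2]
    obtain ⟨a, b, hab⟩ := exists_repr π
    have hcj : cj π = ((a - b : ℤ) : O) + ((-b : ℤ) : O) * om := by
      rw [hab, map_add, map_mul, map_intCast, map_intCast, cj_om]
      push_cast
      linear_combination (b : O) * om_rel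
    have hnorm : (l : ℤ) = a ^ 2 - a * b + b ^ 2 := by
      rw [← hk2, hab]
      exact Nm_repr a b
    refine ⟨?_, hk2, ?_⟩
    · rintro ⟨u, hu⟩
      have h1 : H55B.Nm π * H55B.Nm u = H55B.Nm π * 1 := by rw [← Nm_mul, ← hu, dc_Nm_cj, mul_one]
      have h2 : H55B.Nm u = 1 := Nat.eq_of_mul_eq_mul_left (by rw [hk2]; exact hlp) h1
      have h4 : Associated π (cj π) := by
        obtain ⟨w, hw⟩ := Nm_eq_one.1 h2
        exact ⟨w, by rw [hw, hu]⟩
      have h6 : π = cj π := h3.eq_of_associated (dc_prim_cj h3) h4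
      rw [hcj] at h6
      nth_rw 1 [hab] at h6
      have h7 := (repr_unique h6).2
      have h8 : b = 0 := by omega
      rw [h8] at hnorm
      have h9 : (l : ℤ) = a * a := by rw [hnorm]; ring
      have h10 : l = a.natAbs * a.natAbs := by
        rw [← Int.natAbs_mul, ← h9, Int.natAbs_natCast]
      have h11 : ¬ Nat.Prime (a.natAbs * a.natAbs) := Nat.not_prime_mul (by
        intro h; rw [h] at h10; omega) (by intro h; rw [h] at h10; omega)
      exact h11 (h10 ▸ hl)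
    · intro h
      have h1 : π ∣ ((2 * a - b - 1 : ℤ) : O) := by
        have e : ((2 * a - b - 1 : ℤ) : O) = π + (cj π - 1) := by
          rw [hcj]
          nth_rw 1 [hab]
          push_cast
          ring
        rw [e]
        exact dvd_add dvd_rfl h
      obtain ⟨y, hy⟩ := h1
      have h2 : (H55B.Nm ((2 * a - b - 1 : ℤ) : O) : ℤ) = (2 * a - b - 1) ^ 2 := by
        have h := Nm_repr (2 * a - b - 1) 0
        rw [Int.cast_zero, zero_mul, add_zero] at h
        rw [h]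
        ring
      have h4 : (l : ℤ) ∣ (2 * a - b - 1) ^ 2 := by
        rw [← h2, hy, Nm_mul, hk2]
        push_cast
        exact Dvd.intro _ rfl
      have h6 : (l : ℤ) ∣ 2 * a - b - 1 := (Nat.prime_iff_prime_int.1 hl).dvd_of_dvd_pow h4
      -- the congruences modulo three
      have h7 : (3 : O) ∣ ((a - 1 : ℤ) : O) + (b : ℤ) * om := by
        have h8 : (3 : O) ∣ π - 1 := h3
        have e : ((a - 1 : ℤ) : O) + (b : ℤ) * om = π - 1 := by
          rw [hab]
          push_cast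
          ring
        rw [e]
        exact h8
      obtain ⟨h8, h9⟩ := Z3_three_dvd h7
      obtain ⟨c, hc⟩ := h6
      have h10 : (2 * a - b) ^ 2 ≤ 4 * (l : ℤ) := by
        rw [hnorm]
        nlinarith [sq_nonneg b]
      have h5' : (5 : ℤ) ≤ l := by exact_mod_cast h5
      have h11 : c ≠ 0 := by
        rintro rfl
        rw [mul_zero] at hc
        omega
      have h12 : 2 * a - b = l * c + 1 := by linarith
      rw [h12] at h10
      have hl5 : (l : ℤ) ≤ 5 := by
        rcases lt_or_gt_of_ne h11 with h13 | h13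
        · have h14 : c ≤ -1 := by omega
          have h15 : (l : ℤ) * c + 1 ≤ -(l - 1) := by nlinarith
          have h16 : ((l : ℤ) - 1) ^ 2 ≤ (l * c + 1) ^ 2 := by nlinarith
          nlinarith
        · have h14 : 1 ≤ c := by omega
          have h15 : (l : ℤ) + 1 ≤ l * c + 1 := by nlinarith
          have h16 : ((l : ℤ) + 1) ^ 2 ≤ (l * c + 1) ^ 2 := by nlinarith
          nlinarith
      have hl5' : (l : ℤ) = 5 := le_antisymm hl5 h5'
      rw [hl5'] at hnorm
      obtain ⟨a', ha'⟩ := h8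
      obtain ⟨b', hb'⟩ := h9
      have ha : a = 3 * a' + 1 := by linarith
      rw [ha, hb'] at hnorm
      ring_nf at hnorm
      omega
  · left
    refine ⟨?_, hk2⟩
    have h1 : H55B.Nm x = 1 := by
      rw [hk2] at hN
      exact Nat.eq_of_mul_eq_mul_left (pow_pos hlp 2) (by rw [hN, mul_one])
    have h2 := Nm_eq_one.1 h1
    have h4 : Associated π (l : O) := by
      obtain ⟨w, hw⟩ := h2
      exact ⟨w, by rw [hw, hx]⟩
    have h6 : Associated (cj π) (l : O) := by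
      obtain ⟨w, hw⟩ := h4
      refine ⟨Units.map (cj : O →* O) w, ?_⟩
      have h7 := congrArg cj hw
      rw [map_mul, map_natCast] at h7
      exact h7
    exact (dc_prim_cj h3).eq_of_associated h3 (h6.trans h4.symm)

/-- At the places above cj pi (split case) some element of the decomposition group moves a point: s = Frobenius element (exists_frob for the prime span {cj pi}), gi_frob with
gamma = cj pi: ac s T = act (cj pi) T, not T for T ≠ 0 because pi does not divide cj pi - 1. -/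
theorem dec_conj (π : O) (l : ℕ) (hl : l.Prime) (h5 : 5 ≤ l) (hπ : Prime π) (h3 : Prim π)
    (hd : π ∣ (l : O)) (hs : ¬ π ∣ cj π) (V : ValuationSubring Ω) (hV : vo V (cj π) < 1) :
    ∃ s : Ω ≃ₐ[F] Ω, Dec V s ∧ ∃ T ∈ Tor π Ω, ac W27 s T ≠ T := by
  have hc : Prime (cj π) := (MulEquiv.prime_iff cj.toMulEquiv).2 hπ
  have hne : ¬ cj π ∣ π := by
    intro h
    apply hs
    have h1 := map_dvd cj h
    rwa [cj_cj] at h1
  have hd1 : ¬ π ∣ cj π - 1 := by
    rcases dichotomy π l hl h5 hπ h3 hd with h | h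
    · exact absurd (by rw [h.1]) hs
    · exact h.2.2
  let v : HeightOneSpectrum O := ⟨Ideal.span {cj π}, (Ideal.span_singleton_prime hc.ne_zero).2 hc, by
    rw [Ne, Ideal.span_singleton_eq_bot]
    exact hc.ne_zero⟩
  obtain ⟨s, hs1, hs2⟩ := exists_frob v V (by
    intro a ha
    obtain ⟨b, rfl⟩ := Ideal.mem_span_singleton.1 ha
    have e : algebraMap F Ω ((cj π * b : O) : F) =
        algebraMap F Ω ((cj π : O) : F) * algebraMap F Ω ((b : O) : F) := by
      rw [← map_mul]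
      rfl
    rw [e, map_mul]
    exact mul_lt_one_of_lt_of_le hV (ak_le V.valuation b))
  obtain ⟨-, T, hT, -, hT2⟩ := gi_gen (Ω := Ω) π hπ h3
  refine ⟨s, hs1, T, hT, ?_⟩
  rw [gi_frob π (cj π) hπ h3 hc (dc_prim_cj h3) hne V hV s hs2 T hT]
  intro h
  apply hd1
  rw [← hT2, act_sub, h, act_one, sub_self]

end H13S
end

-- from Lib.H13Z.LPA
section

open NumberField IsDedekindDomain

namespace H13Z

open H55P H28G H55B H13S

/-- an additive and multiplicative map fixes the prime field -/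
theorem lpa_fix {K : Type} [Field K] {l : ℕ} [Fact l.Prime] [CharP K l] (f : K →+* K) {a : K}
    (ha : a ^ l = a) : f a = a := by
  have h1 : a ∈ (⊥ : Subfield K) := (Subfield.mem_bot_iff_pow_eq_self K l).2 ha
  have h2 : (⊥ : Subfield K) ≤ f.eqLocusField (RingHom.id K) := bot_le
  exact h2 h1

theorem lpa_field {K : Type} [Field K] [Finite K] {l : ℕ} [Fact l.Prime] [CharP K l] {i : ℕ}
    (f : K →+* K) (hf : ∀ x, f x = x ^ i) (hc : Nat.card K = l ∨ Nat.card K = l ^ 2) :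
    ((Nat.card K : ℤ) - 1) ∣ (i : ℤ) - 1 ∨
      (Nat.card K = l ^ 2 ∧ ((Nat.card K : ℤ) - 1) ∣ (i : ℤ) - l) := by
  have hft : Fintype K := Fintype.ofFinite K
  have hcard : Nat.card K = Fintype.card K := Nat.card_eq_fintype_card
  obtain ⟨g, hg⟩ := IsCyclic.exists_generator (α := Kˣ)
  have ho : orderOf g = Nat.card K - 1 := by
    rw [orderOf_eq_card_of_forall_mem_zpowers hg, Nat.card_units]
  have hc1 : 1 ≤ Nat.card K := Nat.card_pos
  have hcast : ((Nat.card K : ℤ) - 1) = ((orderOf g : ℕ) : ℤ) := by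
    rw [ho]
    push_cast [hc1]
    ring
  have hpow : ∀ j : ℕ, (g : K) ^ i = (g : K) ^ j → ((Nat.card K : ℤ) - 1) ∣ (i : ℤ) - j := by
    intro j hj
    have h1 : g ^ j = g ^ i := by
      apply Units.ext
      rw [Units.val_pow_eq_pow_val, Units.val_pow_eq_pow_val]
      exact hj.symm
    rw [pow_eq_pow_iff_modEq] at h1
    rw [hcast]
    exact Nat.modEq_iff_dvd.1 h1
  rcases hc with hc | hc
  · left
    have h1 : (g : K) ^ i = (g : K) ^ 1 := by
      rw [← hf, pow_one]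
      apply lpa_fix (l := l) f
      rw [← hc, hcard]
      exact FiniteField.pow_card _
    have h2 := hpow 1 h1
    rwa [Nat.cast_one] at h2
  · have hq : ∀ x : K, x ^ (l ^ 2) = x := by
      intro x
      rw [← hc, hcard]
      exact FiniteField.pow_card x
    obtain ⟨x, hx⟩ : ∃ x : K, x = (g : K) := ⟨_, rfl⟩
    have hxl : (x ^ l) ^ l = x := by
      rw [← pow_mul, ← sq]
      exact hq x
    have ha : f (x + x ^ l) = x + x ^ l := by
      apply lpa_fix (l := l) f
      rw [add_pow_char, hxl, add_comm]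
    have hb : f (x * x ^ l) = x * x ^ l := by
      apply lpa_fix (l := l) f
      rw [mul_pow, hxl, mul_comm]
    rw [map_add] at ha
    rw [map_mul] at hb
    have h0 : (f x - x) * (f x - x ^ l) = 0 := by
      have e1 : (f x - x) * (f x - x ^ l) = f x * f x - (x + x ^ l) * f x + x * x ^ l := by ring
      rw [e1, ← ha, ← hb]
      ring
    rcases mul_eq_zero.1 h0 with h1 | h1
    · left
      have h2 := hpow 1 (by rw [← hx, ← hf, pow_one]; exact sub_eq_zero.1 h1)
      rwa [Nat.cast_one] at h2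
    · right
      exact ⟨hc, hpow l (by rw [← hx, ← hf]; exact sub_eq_zero.1 h1)⟩

/-- Chunk LPA (S/M), pure algebra. K = O/π is a field with l or l^2 elements, x → x^i is an additive and multiplicative map, so a ring homomorphism f : K → K; for x in K the polynomial (X - x)(X - x^l) (or X - x if Nm π = l) has coefficients fixed by Frobenius, that is in the prime field (natural numbers), so f x is a root of it:
f x = x or f x = x^l. For a generator x of K^*: q - 1 divides i - 1 or i - l. If Nm π = l: x^l = x, so q - 1 = l - 1 divides i - 1. -/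
theorem pow_add_class {π : O} {l : ℕ} (D : Dat π l) {i : ℕ} (hi : 1 ≤ i)
    (h : ∀ x y : O, π ∣ (x + y) ^ i - x ^ i - y ^ i) :
    ((H55B.Nm π : ℤ) - 1) ∣ (i : ℤ) - 1 ∨ (H55B.Nm π = l ^ 2 ∧ ((H55B.Nm π : ℤ) - 1) ∣ (i : ℤ) - l) := by
  have hfp : Fact l.Prime := ⟨D.hl⟩
  have hmax := K14_max D.pr
  let _ : Field (O ⧸ Ideal.span {π}) := Ideal.Quotient.field _
  let q : O →+* O ⧸ Ideal.span {π} := Ideal.Quotient.mk _
  have hq : Function.Surjective q := Ideal.Quotient.mk_surjective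
  have hk : ∀ x, q x = 0 ↔ π ∣ x := by
    intro x
    rw [← Ideal.mem_span_singleton]
    exact Ideal.Quotient.eq_zero_iff_mem
  have hcd : Nat.card (O ⧸ Ideal.span {π}) = H55B.Nm π := K14_card q hq hk
  have hNm : H55B.Nm π = l ∨ H55B.Nm π = l ^ 2 := by
    rcases dichotomy π l D.hl D.five D.pr D.prim D.dvd with h1 | h1
    · exact Or.inr h1.2
    · exact Or.inl h1.2.1
  have hl1 := D.hl.pos
  have hNpos : H55B.Nm π ≠ 0 := by
    rcases hNm with h1 | h1
    · rw [h1]; omega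
    · rw [h1]; positivity
  have hfin : Finite (O ⧸ Ideal.span {π}) := Nat.finite_of_card_ne_zero (by rw [hcd]; exact hNpos)
  have hchar : CharP (O ⧸ Ideal.span {π}) l := by
    rw [CharP.charP_iff_prime_eq_zero D.hl]
    have h1 := (hk (l : O)).2 D.dvd
    rwa [map_natCast] at h1
  let f : (O ⧸ Ideal.span {π}) →+* (O ⧸ Ideal.span {π}) :=
    { toFun := fun x => x ^ i
      map_one' := one_pow i
      map_mul' := fun x y => mul_pow x y i
      map_zero' := zero_pow (by omega)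
      map_add' := fun x y => by
        obtain ⟨a, rfl⟩ := hq x
        obtain ⟨b, rfl⟩ := hq y
        have h1 := (hk _).2 (h a b)
        rw [map_sub, map_sub, map_pow, map_pow, map_pow, map_add, sub_sub, sub_eq_zero] at h1
        exact h1 }
  have h1 := lpa_field f (fun x => rfl) (l := l) (i := i) (by rw [hcd]; exact hNm)
  rw [hcd] at h1
  exact h1

end H13Z
end

-- from Lib.H13X.XLV0
section

/-! # H13X: port of H13Z/LV -/

open NumberField IsDedekindDomain WeierstrassCurve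

namespace H13X

open H55P (IQ embF eF LF Per IsHecke Pt ac Inert Dec Nm Coc)
open H35P (WAB Ker tt)
open H55K (Tor ak xc yc CMA Dta GV GMod cj cj_cj mul_cj cj_prime cj_dvd cj_nat Nm_cj Nm_mul Nm_nat)
open H55K.S
open H13S (Abv)




variable {F : Type} [Field F] [NumberField F] [IQ F] {A B : F} {Om : ℂ} {Ω : Type} [Field Ω] [DecidableEq Ω]
  [Algebra F Ω] [IsAlgClosure F Ω] {j : Ω →+* ℂ} {act : 𝓞 F →+* AddMonoid.End (Pt (WAB A B) Ω)} {mo : Ideal (𝓞 F)}
  {ψ : Ideal (𝓞 F) →*₀ 𝓞 F}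

variable {π : 𝓞 F} {l : ℕ} {V : ValuationSubring Ω} {t : Ω} {e0 : ℕ} {e : Pt (WAB A B) Ω → Pt (WAB A B) Ω → Ω}

/-- the roots of unity are in L -/
theorem lv_mu (D : Dat A B Om j act mo ψ π l) (hin : Tor act (cj π) = Tor act π) (he : Pairing A B act π l e) {B₀ L : IntermediateField F Ω}
    (hL : IsTB act π B₀ L) (ζ : Ω) (hζ : ζ ^ l = 1) : ζ ∈ L := by
  have hl := D.hl
  obtain ⟨-, X, hX, -, hX0⟩ := gi_gen D.cma π D.pr
  have hXne : X ≠ 0 := by
    intro h
    have h1 : act (1 : 𝓞 F) X = 0 := by rw [h, map_zero]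
    exact D.pr.not_isUnit (isUnit_of_dvd_one ((hX0 1).1 h1))
  have hX' : X ∈ Tor act (cj π) := by rw [hin]; exact hX
  obtain ⟨T, hT, hTe⟩ : ∃ T ∈ Tor act π, e X T ≠ 1 := by
    by_contra h
    push Not at h
    exact hXne (he.nondeg X hX' h)
  have hprim : IsPrimitiveRoot (e X T) l := by
    have : Fact l.Prime := ⟨hl⟩
    have h1 := orderOf_eq_prime (he.root X hX' T hT) hTe
    rw [← h1]
    exact IsPrimitiveRoot.orderOf _
  have : NeZero l := ⟨hl.ne_zero⟩
  obtain ⟨i, -, hi⟩ := hprim.eq_pow_of_pow_eq_one hζ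
  have hmem : e X T ∈ L := by
    apply ku2_mem
    intro s hs
    rw [he.gal s X hX' T hT, ((hL.fix s).1 hs).2 T hT, ((hL.fix s).1 hs).2 X hX]
  rw [← hi]
  exact pow_mem hmem i

theorem level_gen (D : Dat A B Om j act mo ψ π l) (hin : Tor act (cj π) = Tor act π) (hq : Nm π = l ^ 2) (he : Pairing A B act π l e)
    {B₀ L : IntermediateField F Ω} [NumberField L] (hL : IsTB act π B₀ L) (V : ValuationSubring Ω) (hG : GV A B V)
    (hV : vo V π < 1) (hVl : V.valuation (l : Ω) = vo V π) (w : HeightOneSpectrum (𝓞 L)) (hw : Abv L V w) {P : Pt (WAB A B) Ω} (hP : Ker V P)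
    (hPv : V.valuation (tt P) ^ Nm π = vo V π) (C : Cc act π B₀ fun s => ac (WAB A B) s P - P)
    (T : Pt (WAB A B) Ω) (hT : T ∈ Tor act π) (m : L) (hm : m ≠ 0) (y : Ω)
    (hyk : Kum L e (fun s => ac (WAB A B) s P - P) T y) (hy : y ^ l = (m : Ω)) :
    ∃ z : L, z ≠ 0 ∧ w.valuation L (m / z ^ l - 1) ≤ WithZero.exp (-2 : ℤ) := by
  obtain ⟨c, hcdef⟩ : ∃ c : (Ω ≃ₐ[F] Ω) → Pt (WAB A B) Ω, c = fun s => ac (WAB A B) s P - P := ⟨_, rfl⟩
  rw [← hcdef] at C hyk
  classical
  have hchar : CharZero Ω := charZero_of_injective_algebraMap (algebraMap F Ω).injective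
  have hl0 : l ≠ 0 := D.hl.ne_zero
  have hVl1 : V.valuation (l : Ω) < 1 := hVl ▸ hV
  by_contra hlev
  have hex : ∃ s ∈ L.fixingSubgroup, Inert V s ∧ s y ≠ y := by
    by_contra hcon
    push Not at hcon
    exact hlev (H13S.level_unr L V w hw l D.hl hVl1 m hm y hy hcon)
  obtain ⟨s₁, hs1, hi1, hne1⟩ := hex
  have hTfix : ∀ s ∈ L.fixingSubgroup, ∀ R ∈ Tor act π, ac (WAB A B) s R = R := fun s hs => ((hL.fix s).1 hs).2
  have hcT : ∀ s ∈ L.fixingSubgroup, c s ∈ Tor act π := fun s hs => by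
    have := C.val s (hL.mono hs)
    rwa [hin] at this
  have hc1 : c s₁ ≠ 0 := by
    intro h0
    apply hne1
    rw [hyk.2 s₁ hs1, h0, ld3_e0 hl0 he hT, one_mul]
  have hT0 : T ≠ 0 := by
    intro h0
    apply hne1
    rw [hyk.2 s₁ hs1, h0, ld3_e0' hl0 he (C.val _ (hL.mono hs1)), one_mul]
  have hQc : ∀ h : Ω ≃ₐ[F] Ω, c h = ac (WAB A B) h P - P := fun h => by rw [hcdef]
  have hr := hPv
  have hq3 : 3 ≤ Nm π := by
    rw [hq]
    nlinarith [D.five]
  have hvr := fun R (hR : R ∈ Tor act π) (h0 : R ≠ 0) => val_ratio D.cma D.pr hq3 V hG hV P hP hr R hR h0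
  have hcard : Nat.card (Tor act π) = Nm π := (gi_gen D.cma π D.pr).1
  have hfin : Finite (Tor act π) := Nat.finite_of_card_ne_zero (by rw [hcard]; omega)
  have hV0 : vo V π ≠ 0 := by
    unfold vo
    rw [Ne, map_eq_zero, map_eq_zero]
    exact_mod_cast D.pr.ne_zero
  have hQ0 : V.valuation (tt P) ≠ 0 := by
    intro h0
    rw [h0, zero_pow (by omega)] at hr
    exact hV0 hr.symm
  -- the set J
  have hJfin : {R : Pt (WAB A B) Ω | ∃ h ∈ L.fixingSubgroup, Inert V h ∧ h y = y ∧ c h = R}.Finite := by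
    refine Set.Finite.subset (Set.toFinite (Tor act π : Set (Pt (WAB A B) Ω))) ?_
    rintro R ⟨h, hh, -, -, rfl⟩
    exact hcT h hh
  set J : Finset (Pt (WAB A B) Ω) := hJfin.toFinset with hJ
  have hJmem : ∀ R, R ∈ J ↔ ∃ h ∈ L.fixingSubgroup, Inert V h ∧ h y = y ∧ c h = R := fun R => by
    rw [hJ, Set.Finite.mem_toFinset]
    rfl
  have hJT : ∀ R ∈ J, R ∈ Tor act π := fun R hR => by
    obtain ⟨h, hh, -, -, rfl⟩ := (hJmem R).1 hR
    exact hcT h hh
  have hJcard : J.card ≤ Nm π := by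
    rw [← hcard]
    have h1 : (J : Set (Pt (WAB A B) Ω)) ⊆ (Tor act π : Set (Pt (WAB A B) Ω)) := fun R hR => hJT R hR
    calc J.card = Set.ncard (J : Set (Pt (WAB A B) Ω)) := (Set.ncard_coe_finset J).symm
      _ ≤ Set.ncard (Tor act π : Set (Pt (WAB A B) Ω)) := Set.ncard_le_ncard h1 (Set.toFinite _)
      _ = Nat.card (Tor act π) := rfl
  have hJ0 : (0 : Pt (WAB A B) Ω) ∈ J := (hJmem 0).2 ⟨1, Subgroup.one_mem _, fun x _ => by simp, rfl, C.one⟩
  have hcadd : ∀ h ∈ L.fixingSubgroup, ∀ h' ∈ L.fixingSubgroup, c (h * h') = c h + c h' := fun h hh h' hh' => by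
    rw [C.mul h (hL.mono hh) h' (hL.mono hh'), hTfix h hh _ (hcT h' hh')]
  have hcinv : ∀ h ∈ L.fixingSubgroup, c h⁻¹ = -c h := fun h hh => by
    have h1 := hcadd h hh h⁻¹ (Subgroup.inv_mem _ hh)
    rw [mul_inv_cancel, C.one] at h1
    exact (neg_eq_of_add_eq_zero_right h1.symm).symm
  -- values
  have hval : ∀ R ∈ Tor act π, V.valuation (tt (P + R)) = V.valuation (tt P) := fun R hR => by
    by_cases h0 : R = 0
    · rw [h0, add_zero]
    · exact (hvr R hR h0).1
  have htau : ∀ R ∈ Tor act π, R ≠ 0 → V.valuation (tt R) = V.valuation (tt T) := fun R hR h0 => by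
    have h1 := (kr_tor_ram D.cma hG π D.pr hV hR h0).2
    have h2 := (kr_tor_ram D.cma hG π D.pr hV hT hT0).2
    exact (pow_left_inj₀ zero_le zero_le (by omega)).1 (h1.trans h2.symm)
  have hTQ : V.valuation (tt T) < V.valuation (tt P) := (hvr T hT hT0).2.2
  have hTv : V.valuation (tt T) ^ (Nm π - 1) = vo V π := (kr_tor_ram D.cma hG π D.pr hV hT hT0).2
  have hT0' : V.valuation (tt T) ≠ 0 := by
    intro h0
    rw [h0, zero_pow (by omega)] at hTv
    exact hV0 hTv.symm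
  obtain ⟨a, ha⟩ : ∃ a, a = V.valuation (tt T) / V.valuation (tt P) := ⟨_, rfl⟩
  have ha1 : a < 1 := by
    rw [ha]
    exact (div_lt_one₀ (zero_lt_iff.2 hQ0)).2 hTQ
  have ha0 : 0 < a := by
    rw [ha, zero_lt_iff]
    exact div_ne_zero hT0' hQ0
  have haq : a ^ (Nm π * (Nm π - 1)) = vo V π := by
    have h1 : V.valuation (tt T) ^ (Nm π * (Nm π - 1)) = vo V π ^ Nm π := by
      rw [mul_comm, pow_mul, hTv]
    have h2 : V.valuation (tt P) ^ (Nm π * (Nm π - 1)) = vo V π ^ (Nm π - 1) := by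
      rw [pow_mul, hr]
    have h3 : vo V π ^ Nm π = vo V π ^ (Nm π - 1) * vo V π := by
      rw [← pow_succ]
      congr 1
      omega
    rw [ha, div_pow, h1, h2, h3]
    exact mul_div_cancel_left₀ _ (pow_ne_zero _ hV0)
  -- the bound
  have hbd := H13S.prod_bound V J hJ0 (fun R => tt T / tt (P + R))
    (fun R hR => by
      rw [map_div₀, hval R (hJT R hR), ← ha]
      exact ha1.le)
    {σ : Ω ≃+* Ω | ∃ h ∈ L.fixingSubgroup, Inert V h ∧ h y = y ∧ σ = (h : Ω ≃+* Ω)}
    (by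
      rintro σ ⟨h, hh, hih, hhy, rfl⟩
      refine ⟨c h, fun R hR => ?_, fun R => ⟨fun hR => ?_, fun hR => ?_⟩⟩
      · change h (tt T / tt (P + R)) = tt T / tt (P + (R + c h))
        rw [map_div₀, ← tt_ac, ← tt_ac, hTfix h hh T hT, map_add, hTfix h hh R (hJT R hR)]
        have h1 : ac (WAB A B) h P = c h + P := by
          rw [hQc h, sub_add_cancel]
        rw [h1]
        congr 2
        abel
      · obtain ⟨k, hk, hik, hky, rfl⟩ := (hJmem R).1 hR
        refine (hJmem _).2 ⟨k * h, Subgroup.mul_mem _ hk hh, lcb_mul hik hih, ?_, hcadd k hk h hh⟩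
        change k (h y) = y
        rw [hhy, hky]
      · obtain ⟨k, hk, hik, hky, hkc⟩ := (hJmem _).1 hR
        refine (hJmem _).2 ⟨k * h⁻¹, Subgroup.mul_mem _ hk (Subgroup.inv_mem _ hh),
          lcb_mul hik (lcb_inv hih), ?_, ?_⟩
        · change k (h⁻¹ y) = y
          have h1 : h⁻¹ y = y := by
            have h2 : h⁻¹ (h y) = y := AlgEquiv.symm_apply_apply h y
            rwa [hhy] at h2
          rw [h1, hky]
        · rw [hcadd k hk h⁻¹ (Subgroup.inv_mem _ hh), hcinv h hh, hkc, add_neg_cancel_right])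
    (s₁ : Ω ≃+* Ω) (l - 1) (V.valuation (l : Ω))
    (fun b hb hf => H13S.coef_bound L V w hw l D.hl (by have := D.five; omega) hVl1
      (lv_mu D hin he hL) m hm y hy hlev b hb
      (fun s hs hi hsy => hf (s : Ω ≃+* Ω) ⟨s, hs, hi, hsy, rfl⟩) s₁ hs1 hi1)
  have hterm : ∀ R ∈ J, V.valuation (tt T / tt (P + 0) - (s₁ : Ω ≃+* Ω) (tt T / tt (P + R))) = a ^ 2 := by
    intro R hR
    have hR' := hJT R hR
    have h0 : R + c s₁ ≠ 0 := by
      intro h0
      obtain ⟨k, hk, hik, hky, hkc⟩ := (hJmem R).1 hR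
      apply hne1
      have h1 : c s₁ = c k⁻¹ := by
        rw [hcinv k hk, hkc]
        exact eq_neg_of_add_eq_zero_right h0
      have h2 : k⁻¹ y = y := by
        have h3 : k⁻¹ (k y) = y := AlgEquiv.symm_apply_apply k y
        rwa [hky] at h3
      rw [hyk.2 s₁ hs1, h1, ← hyk.2 k⁻¹ (Subgroup.inv_mem _ hk), h2]
    have hT' : R + c s₁ ∈ Tor act π := AddSubgroup.add_mem _ hR' (hcT s₁ hs1)
    have e1 : (s₁ : Ω ≃+* Ω) (tt T / tt (P + R)) = tt T / tt (P + (R + c s₁)) := by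
      change s₁ (tt T / tt (P + R)) = _
      rw [map_div₀, ← tt_ac, ← tt_ac, hTfix s₁ hs1 T hT, map_add, hTfix s₁ hs1 R hR']
      have h1 : ac (WAB A B) s₁ P = c s₁ + P := by
        rw [hQc s₁, sub_add_cancel]
      rw [h1]
      congr 2
      abel
    rw [e1, add_zero]
    have hv1 := hvr _ hT' h0
    have hne2 : tt (P + (R + c s₁)) ≠ 0 := by
      intro h1
      rw [h1, map_zero] at hv1
      exact hQ0 hv1.1.symm
    have hne3 : tt P ≠ 0 := by
      intro h1
      rw [h1, map_zero] at hQ0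
      exact hQ0 rfl
    have e2 : tt T / tt P - tt T / tt (P + (R + c s₁)) =
        tt T * (tt (P + (R + c s₁)) - tt P) / (tt P * tt (P + (R + c s₁))) := by
      field_simp
    rw [e2, map_div₀, map_mul, map_mul, hv1.1, hv1.2.1, htau _ hT' h0, ha, div_pow, sq, sq]
  rw [Finset.prod_congr rfl (fun R hR => rfl), map_prod] at hbd
  rw [Finset.prod_congr rfl hterm, Finset.prod_const, hVl, ← haq, ← pow_mul, ← pow_mul] at hbd
  have h1 := (pow_le_pow_iff_right_of_lt_one₀ ha0 ha1).1 hbd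
  have h2 : 2 * J.card * (l - 1) ≤ 2 * Nm π * (l - 1) := by
    exact Nat.mul_le_mul_right _ (Nat.mul_le_mul_left _ hJcard)
  have h3 : Nm π * (Nm π - 1) ≤ Nm π * (2 * (l - 1)) := by
    calc Nm π * (Nm π - 1) ≤ 2 * (J.card * (l - 1)) := h1
      _ = 2 * J.card * (l - 1) := by ring
      _ ≤ 2 * Nm π * (l - 1) := h2
      _ = Nm π * (2 * (l - 1)) := by ring
  have h4 := Nat.le_of_mul_le_mul_left h3 (by omega)
  rw [hq] at h4
  have h5 := D.five
  have h6 : l * l = l ^ 2 := by ring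
  have h7 : 5 * l ≤ l ^ 2 := by
    rw [← h6]
    exact Nat.mul_le_mul_right l h5
  omega


end H13X
end

-- from Lib.H55K.QE0
section

/-! # H55K: the good model given by a point -/

open NumberField IsDedekindDomain WeierstrassCurve

namespace H55K.TQ

open H55P (IQ embF eF LF Per IsHecke Pt ac Inert Dec Nm UnitP)
open H35P (WAB Ker tt GoodW IntW)
open H55K.MG (VC Crd)

/-- Chunk QE0 (M). A point P of W over Ω with P, 2P, 3P, 4P outside the kernel of reduction of the good model W' gives a good model with coefficients in terms of P and 2P. x₁ = xc P, x₂ = xc (2P) and so on; on W': Θ P = (x', y'), Θ (2P) = (x₂', y₂') integral (not Ker: MG.int_crd),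
x = u^2 x' + r, ... (Crd), δ = x' - x₂' is a unit (MG.unit_diff for ΘP, 2ΘP: their difference and sum are ∓ΘP, 3ΘP, not in Ker), η = y₂' - negY' x₂' y₂' is a unit (MG.cong_ker: otherwise 2ΘP and -2ΘP are congruent, they have the same x-coordinate, and 4ΘP is in Ker), λ = (y' - y₂')/δ is integral.
vc_negY (M1A.lean): y₂ - negY x₂ y₂ = u^3 η, x₁ - x₂ = u^2 δ, y₁ - y₂ = u^3 (y' - y₂') + s u^2 δ, so u₀ = u e with e = η/δ a unit; s₀ = u λ + s; r₀ = u^2 x' + r, t₀ = u^3 y' + s u^2 x' + t: the change (u₀, r₀, s₀, t₀) is the composition (vc_comp) of (u, r, s, t) with (e, x', λ, y') on W'; W'' from vc_ex (for W' and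
(e, x', λ, y')), good by vc_good. -/
theorem rat_core {Ω : Type} [Field Ω] [DecidableEq Ω] {W W' : WeierstrassCurve Ω} {V : ValuationSubring Ω} {u r s t : Ω}
    (hv : VC W W' u r s t) (hG : GoodW W' V) {Θ : W.toAffine.Point ≃+ W'.toAffine.Point} (hc : Crd u r s t Θ)
    (P : W.toAffine.Point) (h1 : ¬ Ker V (Θ P)) (h2 : ¬ Ker V (Θ (2 • P))) (h3 : ¬ Ker V (Θ (3 • P)))
    (h4 : ¬ Ker V (Θ (4 • P))) :
    ∃ W'' : WeierstrassCurve Ω, VC W W''
      ((yc (2 • P) - W.toAffine.negY (xc (2 • P)) (yc (2 • P))) / (xc P - xc (2 • P))) (xc P)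
      ((yc P - yc (2 • P)) / (xc P - xc (2 • P))) (yc P) ∧ GoodW W'' V := by


  have hP0 : P ≠ 0 := by
    rintro rfl
    apply h1
    rw [map_zero]
    exact trivial
  have h2P0 : 2 • P ≠ 0 := by
    intro h0
    apply h2
    rw [h0, map_zero]
    exact trivial
  obtain ⟨-, hx1, hy1⟩ := hc P hP0
  obtain ⟨-, hx2, hy2⟩ := hc (2 • P) h2P0
  obtain ⟨-, ix, iy⟩ := MG.int_crd hG h1
  obtain ⟨hΘ2, ix2, iy2⟩ := MG.int_crd hG h2
  have hd : V.valuation (xc (Θ P) - xc (Θ (2 • P))) = 1 := by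
    refine MG.unit_diff hG h1 h2 ?_ ?_
    · intro hk
      apply h1
      rw [← map_sub] at hk
      have e : P - 2 • P = -P := by
        rw [two_nsmul]; abel
      rw [e, map_neg] at hk
      exact (H35P.ker_neg (Θ P)).1 hk
    · intro hk
      apply h3
      rw [← map_add] at hk
      have e : P + 2 • P = 3 • P := by
        rw [succ_nsmul P 2, add_comm]
      rw [e] at hk
      exact hk
  have hneg2 : ¬ Ker V (-Θ (2 • P)) := fun hk => h2 ((H35P.ker_neg _).1 hk)
  have hxn : xc (-Θ (2 • P)) = xc (Θ (2 • P)) ∧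
      yc (-Θ (2 • P)) = W'.toAffine.negY (xc (Θ (2 • P))) (yc (Θ (2 • P))) := by
    rcases hq : Θ (2 • P) with _ | ⟨x', y', hn'⟩
    · exact absurd hq hΘ2
    · exact ⟨rfl, rfl⟩
  have iyn : W'.toAffine.negY (xc (Θ (2 • P))) (yc (Θ (2 • P))) ∈ V := by
    rw [← hxn.2]
    exact (MG.int_crd hG hneg2).2.2
  have he : V.valuation (yc (Θ (2 • P)) - W'.toAffine.negY (xc (Θ (2 • P))) (yc (Θ (2 • P)))) = 1 := by
    refine le_antisymm ((V.valuation_le_one_iff _).2 (sub_mem iy2 iyn)) (not_lt.1 fun hlt => ?_)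
    apply h4
    have hk := MG.cong_ker hG h2 hneg2 (by
      rw [hxn.1, sub_self, map_zero]
      exact zero_lt_one) (by rw [hxn.2]; exact hlt)
    rw [sub_neg_eq_add, ← map_add] at hk
    have e : 2 • P + 2 • P = 4 • P := by
      rw [← add_nsmul]
    rw [e] at hk
    exact hk
  have hd0 : xc (Θ P) - xc (Θ (2 • P)) ≠ 0 := by
    intro h0
    rw [h0, map_zero] at hd
    exact zero_ne_one hd
  have he0 : yc (Θ (2 • P)) - W'.toAffine.negY (xc (Θ (2 • P))) (yc (Θ (2 • P))) ≠ 0 := by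
    intro h0
    rw [h0, map_zero] at he
    exact zero_ne_one he
  have hu := hv.une
  obtain ⟨W'', hW''⟩ := vc_ex W' (div_ne_zero he0 hd0) (xc (Θ P))
    ((yc (Θ P) - yc (Θ (2 • P))) / (xc (Θ P) - xc (Θ (2 • P)))) (yc (Θ P))
  have hcomp := vc_comp hv hW''
  have hgood : GoodW W'' V := by
    refine vc_good hW'' hG ?_ ix ?_ iy
    · rw [map_div₀, he, hd, div_one]
    · rw [← V.valuation_le_one_iff, map_div₀, hd, div_one, V.valuation_le_one_iff]
      exact sub_mem iy iy2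
  refine ⟨W'', ?_, hgood⟩
  have ex : xc P - xc (2 • P) = u ^ 2 * (xc (Θ P) - xc (Θ (2 • P))) := by
    rw [hx1, hx2]; ring
  have e1 : (yc (2 • P) - W.toAffine.negY (xc (2 • P)) (yc (2 • P))) / (xc P - xc (2 • P)) =
      u * ((yc (Θ (2 • P)) - W'.toAffine.negY (xc (Θ (2 • P))) (yc (Θ (2 • P)))) /
        (xc (Θ P) - xc (Θ (2 • P)))) := by
    rw [ex, hx2, hy2, MG.vc_negY hv]
    rw [mul_div_assoc', div_eq_div_iff (mul_ne_zero (pow_ne_zero 2 hu) hd0) hd0]
    ring
  have e2 : (yc P - yc (2 • P)) / (xc P - xc (2 • P)) =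
      u * ((yc (Θ P) - yc (Θ (2 • P))) / (xc (Θ P) - xc (Θ (2 • P)))) + s := by
    rw [ex, hy1, hy2, mul_div_assoc', div_add' _ _ _ hd0,
      div_eq_div_iff (mul_ne_zero (pow_ne_zero 2 hu) hd0) hd0]
    ring
  rw [e1, e2, hx1, hy1]
  exact hcomp

end H55K.TQ
end

-- from Lib.H55K.T5
section

/-! # H55K: Neron-Ogg-Shafarevich over the inertia field -/

open NumberField IsDedekindDomain WeierstrassCurve

namespace H55K.TQ

open H55P (IQ embF eF LF Per IsHecke Pt ac Inert Dec Nm UnitP)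
open H35P (WAB Ker tt GoodW IntW)
open H55K.MG (VC Crd)

variable {F : Type} [Field F] [NumberField F] {Ω : Type} [Field Ω] [DecidableEq Ω] [Algebra F Ω]

/-- Chunk T5 (S/M). W'₀, u, r, s, t from gmodel over Ω, Θ from MG.vc_iso. T ≠ 0, p • T = 0: T, 2T, 3T, 4T are not 0 (p ≥ 5), killed by p, so not in the kernel (MG.kg_tors, V(p) = 1). rat_core for T: the change of variables is given by the coordinates of T and 2T, which are fixed by the g with ac W g T = T (MG.ac_crd in M4B.lean: xc (ac g T) = g (xc T); ac g (2T) = 2 (ac g T);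
negY has coefficients in F). M = the set of the elements fixed by all g with Inert V g. -/
theorem nos_up [IsAlgClosed Ω] {W : WeierstrassCurve F} (hΔ : W.Δ ≠ 0) {V : ValuationSubring Ω} {jj : Ω} (hj : jj ∈ V)
    (h : (W⁄Ω).c₄ ^ 3 = jj * (W⁄Ω).Δ) {p : ℕ} (hp : p.Prime) (h5 : 5 ≤ p) (hV : V.valuation (p : Ω) = 1)
    {T : Pt W Ω} (hT : p • T = 0) (h0 : T ≠ 0) (hfix : ∀ g : Ω ≃ₐ[F] Ω, Inert V g → ac W g T = T) :
    GMd (W⁄Ω) V {x | ∀ g : Ω ≃ₐ[F] Ω, Inert V g → g x = x} := by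
  have h1 : (W⁄Ω).Δ ≠ 0 := by
    have e : (W⁄Ω).Δ = algebraMap F Ω W.Δ := W.map_Δ (algebraMap F Ω)
    rw [e]
    exact (map_ne_zero _).2 hΔ
  obtain ⟨W', u, r, s, t, hv, hG⟩ := gmodel h1 hj h
  have h2 : W'.Δ ≠ 0 := by
    intro h0
    have h3 := hG.disc
    rw [h0, map_zero] at h3
    exact zero_ne_one h3
  obtain ⟨Θ, hc⟩ := MG.vc_iso hv h1 h2
  have hnk : ∀ i : ℕ, 0 < i → i < 5 → ¬ Ker V (Θ (i • T)) := by
    intro i hi0 hi5 hK
    have h3 : p • (i • T) = 0 := by rw [smul_comm, hT, smul_zero]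
    have h4 := MG.kg_tors hG hV hK h3
    have hcop : Nat.Coprime i p := by
      rw [Nat.coprime_comm, Nat.Prime.coprime_iff_not_dvd hp]
      intro h5
      have h6 := Nat.le_of_dvd hi0 h5
      omega
    obtain ⟨x, y, hxy⟩ := Nat.isCoprime_iff_coprime.2 hcop
    apply h0
    have h7 : (1 : ℤ) • T = 0 := by
      rw [← hxy, add_smul, mul_smul, mul_smul, natCast_zsmul, natCast_zsmul, h4, hT, smul_zero, smul_zero,
        add_zero]
    rwa [one_smul] at h7
  have k1 : ¬ Ker V (Θ T) := by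
    have := hnk 1 (by norm_num) (by norm_num)
    rwa [one_nsmul] at this
  obtain ⟨W'', hv', hG'⟩ := rat_core hv hG hc T k1 (hnk 2 (by norm_num) (by norm_num))
    (hnk 3 (by norm_num) (by norm_num)) (hnk 4 (by norm_num) (by norm_num))
  have hx : ∀ g : Ω ≃ₐ[F] Ω, Inert V g → g (xc T) = xc T ∧ g (yc T) = yc T ∧ g (xc (2 • T)) = xc (2 • T) ∧
      g (yc (2 • T)) = yc (2 • T) := by
    intro g hg
    have h3 := hfix g hg
    have h4 : ac W g (2 • T) = 2 • T := by rw [map_nsmul, h3]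
    obtain ⟨a1, a2, -⟩ := MG.ac_crd (W := W) g T
    obtain ⟨b1, b2, -⟩ := MG.ac_crd (W := W) g (2 • T)
    rw [h3] at a1 a2
    rw [h4] at b1 b2
    exact ⟨a1.symm, a2.symm, b1.symm, b2.symm⟩
  refine ⟨W'', _, _, _, _, ?_, ?_, ?_, ?_, hv', hG'⟩
  · intro g hg
    obtain ⟨e1, e2, e3, e4⟩ := hx g hg
    have e5 : g ((W⁄Ω).toAffine.negY (xc (2 • T)) (yc (2 • T))) =
        (W⁄Ω).toAffine.negY (xc (2 • T)) (yc (2 • T)) := by
      unfold Affine.negY
      have ea1 : g ((W⁄Ω).toAffine.a₁) = (W⁄Ω).toAffine.a₁ := g.commutes W.a₁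
      have ea3 : g ((W⁄Ω).toAffine.a₃) = (W⁄Ω).toAffine.a₃ := g.commutes W.a₃
      rw [map_sub, map_sub, map_neg, map_mul, e3, e4, ea1, ea3]
    rw [map_div₀, map_sub, map_sub, e1, e3, e4, e5]
  · intro g hg
    exact (hx g hg).1
  · intro g hg
    obtain ⟨e1, e2, e3, e4⟩ := hx g hg
    rw [map_div₀, map_sub, map_sub, e1, e2, e3, e4]
  · intro g hg
    exact (hx g hg).2.1

end H55K.TQ
end

-- from Lib.H55K.T7B
section

/-! # H55K: descent of a good equation from the inertia field -/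

open NumberField IsDedekindDomain WeierstrassCurve

namespace H55K.TQ

open H55P (IQ embF eF LF Per IsHecke Pt ac Inert Dec Nm UnitP)
open H35P (WAB Ker tt GoodW IntW)
open H55K.MG (VC Crd)

variable {F : Type} [Field F] [NumberField F] {Ω : Type} [Field Ω] [Algebra F Ω] [IsAlgClosure F Ω] {V : ValuationSubring Ω}

/-- Composition with an integral change of variables. -/
theorem t7b_step {k : Type} [Field k] {V : ValuationSubring k} {W W' : WeierstrassCurve k} {u r s t e' r' s' t' : k}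
    (h : VC W W' u r s t) (hG : GoodW W' V) (he : V.valuation e' = 1) (hr : r' ∈ V) (hs : s' ∈ V) (ht : t' ∈ V) :
    ∃ W'' : WeierstrassCurve k, VC W W'' (u * e') (u ^ 2 * r' + r) (u * s' + s) (u ^ 3 * t' + s * u ^ 2 * r' + t) ∧
      GoodW W'' V := by
  have he0 : e' ≠ 0 := by
    rintro rfl
    rw [map_zero] at he
    exact zero_ne_one he
  obtain ⟨W'', h2⟩ := vc_ex W' he0 r' s' t'
  exact ⟨W'', vc_comp h h2, vc_good h2 hG he hr hs ht⟩

theorem t7b_div {k : Type} [Field k] {V : ValuationSubring k} {a b : k} (hb : b ≠ 0)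
    (h : V.valuation a ≤ V.valuation b) : a / b ∈ V := by
  have hb' : V.valuation b ≠ 0 := (map_ne_zero _).2 hb
  rw [← V.valuation_le_one_iff, map_div₀]
  exact (div_le_one₀ (zero_lt_iff.2 hb')).2 h

/-- Chunk T7B (M). u: H13S.value_fixed (bottom field): V(u) = V(a), a in F; compose with (a/u, 0, 0, 0): (a, r, s, t) is a good change (vc_comp, vc_ex, vc_good). dec_int, approx' for r with c = a^2 and for s with c = a: r₁, s₁ in F. Compose with (1, (r₁ - r)/a^2, (s₁ - s)/a, 0), integral (vc_good): the change (a, r₁, s₁, t₂), t₂ = s a^2 (r₁ - r)/a^2 + t = t + s (r₁ - r)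
is fixed by inertia. dec_int again (g r₁ = r₁, g s₁ = s₁): V(g t₂ - t₂) ≤ V(a^3); approx': t₁ in F; compose with (1, 0, 0, (t₁ - t₂)/a^3). So (a, r₁, s₁, t₁) in F is a good change of variables. W'' over F from vc_ex; its base change is the good curve (vc_map, vc_uniq). -/
theorem descent {v : HeightOneSpectrum (𝓞 F)} (hv : ∀ a : 𝓞 F, a ∈ v.asIdeal → V.valuation (ak Ω a) < 1)
    {W : WeierstrassCurve F} (h : GMd (W⁄Ω) V {x | ∀ g : Ω ≃ₐ[F] Ω, Inert V g → g x = x}) :
    ∃ (W'' : WeierstrassCurve F) (u r s t : F), VC W W'' u r s t ∧ GoodW (W''⁄Ω) V := by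



  obtain ⟨W', u, r, s, t, hu, hr, hs, ht, hV0, hG0⟩ := h
  have hu0 : u ≠ 0 := hV0.une
  have hbn : NumberField (⊥ : IntermediateField F Ω) := H16C.FR_numberField _
  obtain ⟨a', ha'0, hva⟩ := H13S.value_fixed (⊥ : IntermediateField F Ω) V u hu0 (fun g _ hg => hu g hg)
  obtain ⟨a, ha⟩ := IntermediateField.mem_bot.1 a'.2
  have ha0 : a ≠ 0 := by
    rintro rfl
    apply ha'0
    apply Subtype.ext
    rw [← ha, map_zero]
    rfl
  rw [← ha] at hva
  set e : F →+* Ω := algebraMap F Ω with he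
  have hea0 : e a ≠ 0 := (map_ne_zero e).2 ha0
  have hge : ∀ (g : Ω ≃ₐ[F] Ω) (x : F), g (e x) = e x := fun g x => g.commutes x
  obtain ⟨W1, hV1, hG1⟩ := t7b_step hV0 hG0 (e' := e a / u) (r' := 0) (s' := 0) (t' := 0)
    (by rw [map_div₀, hva, div_self]; rw [← hva]; exact (map_ne_zero _).2 hu0) V.zero_mem V.zero_mem V.zero_mem
  rw [mul_div_cancel₀ _ hu0] at hV1
  simp only [mul_zero, zero_add] at hV1
  have hd1 : ∀ g : Ω ≃ₐ[F] Ω, Dec V g → _ := fun g hg => dec_int hV1 hG1 g hg (hge g a)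
  obtain ⟨r₁, hr₁⟩ := approx' hv (x := r) (c := a ^ 2) (pow_ne_zero 2 ha0) hr (fun g hg => by
    rw [map_pow]
    exact (hd1 g hg).1)
  obtain ⟨s₁, hs₁⟩ := approx' hv (x := s) (c := a) ha0 hs (fun g hg => (hd1 g hg).2.1)
  rw [map_pow] at hr₁
  rw [← he] at hr₁ hs₁
  obtain ⟨W2, hV2, hG2⟩ := t7b_step hV1 hG1 (e' := 1) (r' := (e r₁ - r) / e a ^ 2) (s' := (e s₁ - s) / e a) (t' := 0)
    (map_one _) (t7b_div (pow_ne_zero 2 hea0) (by rw [← neg_sub, Valuation.map_neg]; exact hr₁))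
    (t7b_div hea0 (by rw [← neg_sub, Valuation.map_neg]; exact hs₁)) V.zero_mem
  have e1 : e a ^ 2 * ((e r₁ - r) / e a ^ 2) + r = e r₁ := by
    rw [mul_div_cancel₀ _ (pow_ne_zero 2 hea0)]
    ring
  have e2 : e a * ((e s₁ - s) / e a) + s = e s₁ := by
    rw [mul_div_cancel₀ _ hea0]
    ring
  have e3 : e a ^ 3 * 0 + s * e a ^ 2 * ((e r₁ - r) / e a ^ 2) + t = s * (e r₁ - r) + t := by
    rw [mul_assoc s, mul_div_cancel₀ _ (pow_ne_zero 2 hea0)]
    ring
  rw [mul_one, e1, e2, e3] at hV2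
  obtain ⟨t₁, ht₁⟩ := approx' hv (x := s * (e r₁ - r) + t) (c := a ^ 3) (pow_ne_zero 3 ha0) (fun g hg => by
      rw [map_add, map_mul, map_sub, hge, hr g hg, hs g hg, ht g hg]) (fun g hg => by
    rw [map_pow]
    exact (dec_int hV2 hG2 g hg (hge g a)).2.2 (hge g r₁) (hge g s₁))
  rw [map_pow] at ht₁
  rw [← he] at ht₁
  obtain ⟨W3, hV3, hG3⟩ := t7b_step hV2 hG2 (e' := 1) (r' := 0) (s' := 0)
    (t' := (e t₁ - (s * (e r₁ - r) + t)) / e a ^ 3)
    (map_one _) V.zero_mem V.zero_mem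
    (t7b_div (pow_ne_zero 3 hea0) (by rw [← neg_sub, Valuation.map_neg]; exact ht₁))
  rw [mul_div_cancel₀ _ (pow_ne_zero 3 hea0)] at hV3
  simp only [mul_zero, zero_add, mul_one, add_zero, sub_add_cancel] at hV3
  obtain ⟨W'', hW⟩ := vc_ex W ha0 r₁ s₁ t₁
  have h5 : W''⁄Ω = W3 := vc_uniq (vc_map e hW) hV3
  exact ⟨W'', a, r₁, s₁, t₁, hW, by rw [h5]; exact hG3⟩

end H55K.TQ
end

-- from Lib.H55K.T8
section

/-! # H55K: bad reduction stays bad in p-extensions -/

open NumberField IsDedekindDomain WeierstrassCurve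

namespace H55K.TQ

open H55P (IQ embF eF LF Per IsHecke Pt ac Inert Dec Nm UnitP)
open H35P (WAB Ker tt GoodW IntW)
open H55K.MG (VC Crd)

theorem t8_le {F : Type} [Field F] [NumberField F] {Ω : Type} [Field Ω] [Algebra F Ω]
    (V : ValuationSubring Ω) (a : 𝓞 F) : ak Ω a ∈ V := by
  have h1 : IsIntegral ℤ (a : F) := a.isIntegral_coe
  have h2 : IsIntegral ℤ (algebraMap F Ω (a : F)) := h1.map (algebraMap F Ω).toIntAlgHom
  have h3 : IsIntegral V (algebraMap F Ω (a : F)) := h2.tower_top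
  obtain ⟨y, hy⟩ := (IsIntegrallyClosed.isIntegral_iff (R := V) (K := Ω)).1 h3
  change algebraMap F Ω (a : F) ∈ V
  rw [← hy]
  exact y.2

theorem t8_val {F : Type} [Field F] [NumberField F] {Ω : Type} [Field Ω] [Algebra F Ω]
    {V : ValuationSubring Ω} {v : HeightOneSpectrum (𝓞 F)}
    (hv : ∀ a : 𝓞 F, a ∈ v.asIdeal → V.valuation (ak Ω a) < 1) {a : 𝓞 F} (ha : a ∉ v.asIdeal) :
    V.valuation (ak Ω a) = 1 := by
  have hmax : v.asIdeal.IsMaximal := v.isMaximal
  obtain ⟨b, c, hc, hbc⟩ := hmax.exists_inv ha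
  have hle : ∀ x : 𝓞 F, V.valuation (ak Ω x) ≤ 1 := fun x => (V.valuation_le_one_iff _).2 (t8_le V x)
  refine le_antisymm (hle a) ?_
  by_contra hcon
  rw [not_le] at hcon
  have e1 : ak Ω b * ak Ω a + ak Ω c = 1 := by
    unfold ak
    rw [← map_mul, ← map_add]
    have : ((b : F) * (a : F) + (c : F)) = 1 := by exact_mod_cast congrArg (fun z : 𝓞 F => (z : F)) hbc
    rw [this, map_one]
  have h3 : V.valuation (ak Ω b * ak Ω a + ak Ω c) < 1 := by
    refine V.valuation.map_add_lt ?_ (hv c hc)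
    rw [map_mul]
    exact lt_of_le_of_lt (mul_le_of_le_one_left' (hle b)) hcon
  rw [e1, map_one] at h3
  exact lt_irrefl _ h3

theorem t8_dvd {F : Type} [Field F] [NumberField F] {p : ℕ} (hp : p.Prime) : ¬ (p : 𝓞 F) ∣ 1 := by
  intro h
  have h1 := map_dvd (Algebra.norm ℤ) h
  have h2 : Algebra.norm ℤ ((p : ℕ) : 𝓞 F) = (p : ℤ) ^ Module.finrank ℤ (𝓞 F) := by
    have := Algebra.norm_algebraMap_of_basis (NumberField.RingOfIntegers.basis F) (p : ℤ)
    rw [← Module.finrank_eq_card_basis (NumberField.RingOfIntegers.basis F)] at this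
    rw [← this]
    congr 1
    simp
  rw [h2, map_one] at h1
  have h3 : IsUnit ((p : ℤ) ^ Module.finrank ℤ (𝓞 F)) := isUnit_of_dvd_one h1
  have h4 : 0 < Module.finrank ℤ (𝓞 F) := Module.finrank_pos
  have h5 : IsUnit (p : ℤ) := (isUnit_pow_iff h4.ne').1 h3
  exact (Nat.prime_iff_prime_int.1 hp).not_isUnit h5

/-- Chunk T8 (S/M). pow_fix: k. Let Inert V g. g^(p^k) is in L.fixingSubgroup, so it fixes M, and it is in the inertia group (H55P.inS). inert_triv (n = p): it fixes the points killed by p. fix_all: g fixes the points killed by p. A point T ≠ 0 killed by p exists (h.gen for b = p: T₀ ≠ 0 since p does not divide 1). nos_up (jj: hj with the images in Ω, integral: ak_le), descent. -/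
theorem good_down {F : Type} [Field F] [NumberField F] [IQ F] {A B : F} {Om : ℂ} {Ω : Type} [Field Ω] [DecidableEq Ω]
    [Algebra F Ω] [IsAlgClosure F Ω] [IsAlgClosed Ω] {j : Ω →+* ℂ} {act : 𝓞 F →+* AddMonoid.End (Pt (WAB A B) Ω)}
    (h : CMA F A B Om j act) (hj : ∃ j₀ : 𝓞 F, (WAB A B).c₄ ^ 3 = (j₀ : F) * (WAB A B).Δ) {p : ℕ}
    (hp : p.Prime) (h5 : 5 ≤ p) (hunr : ∀ v : HeightOneSpectrum (𝓞 F), (p : 𝓞 F) ∉ v.asIdeal ^ 2)
    {L M : IntermediateField F Ω} (hL : H55P.PExt p ⊥ L) (hM : M ≤ L) {V : ValuationSubring Ω}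
    {v : HeightOneSpectrum (𝓞 F)} (hv : ∀ a : 𝓞 F, a ∈ v.asIdeal → V.valuation (ak Ω a) < 1) (hpv : (p : 𝓞 F) ∉ v.asIdeal)
    (hG : GMd ((WAB A B)⁄Ω) V (M : Set Ω)) :
    ∃ (W'' : WeierstrassCurve F) (u r s t : F), VC (WAB A B) W'' u r s t ∧ GoodW (W''⁄Ω) V := by
  have halg : Algebra.IsAlgebraic F Ω := IsAlgClosure.isAlgebraic
  have hΔ : (WAB A B).Δ ≠ 0 := by
    have hd := h.disc
    have e : (WAB A B).Δ = -16 * (4 * A ^ 3 + 27 * B ^ 2) := by
      unfold WAB WeierstrassCurve.Δ WeierstrassCurve.b₂ WeierstrassCurve.b₄ WeierstrassCurve.b₆ WeierstrassCurve.b₈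
      ring
    rw [e]
    exact mul_ne_zero (by norm_num) hd
  obtain ⟨k, hk⟩ := pow_fix hL
  have hVp : V.valuation (p : Ω) = 1 := by
    have h1 := t8_val hv hpv
    have e : ak Ω ((p : ℕ) : 𝓞 F) = (p : Ω) := by
      have e1 : (((p : ℕ) : 𝓞 F) : F) = (p : F) := map_natCast (algebraMap (𝓞 F) F) p
      unfold ak
      rw [e1, map_natCast]
    rwa [e] at h1
  have hfix : ∀ g : Ω ≃ₐ[F] Ω, Inert V g → ∀ T : Pt (WAB A B) Ω, p • T = 0 → ac (WAB A B) g T = T := by
    intro g hg T hT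
    refine fix_all h hp hunr g (k := k) ?_ T hT
    intro T hT
    refine inert_triv hΔ hG (g ^ (p ^ k)) ?_ ?_ p hVp T hT
    · intro x hx
      exact (IntermediateField.mem_fixingSubgroup_iff L _).1 (hk g) x (hM hx)
    · have h1 : g ∈ H55P.inS F V := hg
      exact pow_mem h1 (p ^ k)
  have hp0 : ((p : ℕ) : 𝓞 F) ≠ 0 := by
    intro h0
    exact hp.ne_zero (by exact_mod_cast h0)
  obtain ⟨T₀, hT₀, -, hT₁, -⟩ := h.gen ((p : ℕ) : 𝓞 F) hp0
  have hT0 : T₀ ≠ 0 := by
    intro h0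
    have h1 := (hT₁ 1).1 (by rw [h0]; exact map_zero _)
    exact t8_dvd hp h1
  have hpT : p • T₀ = 0 := by
    have h1 : act ((p : ℕ) : 𝓞 F) T₀ = 0 := hT₀
    rw [map_natCast] at h1
    rw [← AddMonoid.End.natCast_apply]
    exact h1
  obtain ⟨j₀, hj₀⟩ := hj
  have hjj : ((WAB A B)⁄Ω).c₄ ^ 3 = ak Ω j₀ * ((WAB A B)⁄Ω).Δ := by
    have e1 : ((WAB A B)⁄Ω).c₄ = algebraMap F Ω (WAB A B).c₄ := WeierstrassCurve.map_c₄ _ _
    have e2 : ((WAB A B)⁄Ω).Δ = algebraMap F Ω (WAB A B).Δ := WeierstrassCurve.map_Δ _ _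
    rw [e1, e2, ← map_pow, hj₀, map_mul]
  exact descent hv (nos_up hΔ (t8_le V j₀) hjj hp h5 hVp hpT hT0 (fun g hg => hfix g hg T₀ hpT))

end H55K.TQ
end
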