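import Mathlib
import Pool.Agent.Lib.H1M.PP.D_H55D_Defs
import Pool.Agent.Lib.H1M.PP.D_H55P_ZD
import Pool.Agent.Lib.H1M.PP.M009
import Pool.Agent.Lib.H1M.PP.M017
import Pool.Agent.Lib.H1M.PP.M019
import Pool.Agent.Lib.H1M.PP.M021
import Pool.Agent.Lib.H1M.PP.M022
import Pool.Agent.Lib.H1M.PP.M028
import Pool.Agent.Lib.H1M.PP.M030
import Pool.Agent.Lib.H1M.PP.M032
import Pool.Agent.Lib.H1M.PP.M036
import Pool.Agent.Lib.H1M.PP.M037
import Pool.Agent.Lib.H1M.PP.M039
import Pool.Agent.Lib.H1M.PP.M050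

/-! Merged copies (to shorten the build) of Lib.H13E.Q4, Lib.H13E.Q5, Lib.H13E.Q6, Lib.H55D.Q5, Lib.H35T.I4, Lib.H35T.W2, Lib.H13E.T4, Lib.H55D.T4, Lib.H55P.Z2. -/

-- from Lib.H13E.Q4
section

open NumberField IsDedekindDomain

namespace H13E

open H55B H35T

variable {K₀ K : Type} [Field K₀] [NumberField K₀] [Field K] [NumberField K] [Algebra F K] [Algebra K₀ K]

/-! Chunk Q4 (M): the Frobenius eigenvalue at an inert prime. Let l be the rational prime in w', q = absNorm w' = l^f' = 2 mod 3: l = 2 mod 3 and f' is odd; l is odd. v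
contains l, v is the only prime above l: v = (l) with absNorm v = l^2 (H55B.H1 prime_types / a prime of O containing l with l = 2 mod 3), gen v = -l (-l - 1 is
divisible by 3; Prim.eq_of_associated, gen_spec). absNorm w = q^2 = l^(2 f') (split_two) = (absNorm v)^f, f = inertiaDeg (absNorm_inertia), so f = f' is odd. eta (-l) = 1:
Nm (-l) = l^2, chi4 (l^2) = 1 (l odd), kap (-l) = 1 (kap_one). So fe v = -l and fe v^f = -l^f = -q. -/

theorem q4_norm_mod (v : HeightOneSpectrum O) (h3 : (3 : O) ∉ v.asIdeal) :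
    Ideal.absNorm v.asIdeal % 3 = 1 := by
  obtain ⟨z, hz⟩ := (gen_spec v h3).2
  obtain ⟨a, b, rfl⟩ := exists_repr z
  have h1 : gen v = ((1 + 3 * a : ℤ) : O) + ((3 * b : ℤ) : O) * om := by
    push_cast
    linear_combination hz
  have h2 := Nm_repr (1 + 3 * a) (3 * b)
  rw [← h1] at h2
  have h3' : (Nm (gen v) : ℤ) = 3 * (2 * a + 3 * a ^ 2 - (1 + 3 * a) * b + 3 * b ^ 2) + 1 := by
    rw [h2]; ring
  rw [absNorm_gen v h3]
  omega

/-- the prime of the Eisenstein integers below an inert prime -/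
theorem q4_below (v : HeightOneSpectrum O) (h3 : (3 : O) ∉ v.asIdeal) (q f : ℕ)
    (hq : q % 3 = 2) (h : Ideal.absNorm v.asIdeal ^ f = q ^ 2) :
    ∃ l : ℕ, l.Prime ∧ l % 3 = 2 ∧ v.asIdeal = Ideal.span {(l : O)} ∧ l ^ f = q := by
  rcases prime_types v h3 with ⟨l, hl, -, hN⟩ | ⟨l, hl, hl3, hv⟩
  · exfalso
    have h1 := q4_norm_mod v h3
    rw [hN] at h1 h
    have h2 : q ∣ l ^ f := by rw [h]; exact dvd_pow_self q (by norm_num)
    obtain ⟨j, -, hj⟩ := (Nat.dvd_prime_pow hl).1 h2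
    rw [hj, Nat.pow_mod, h1, one_pow] at hq
    omega
  · refine ⟨l, hl, hl3, hv, ?_⟩
    have h1 := Nm_repr l 0
    push_cast at h1
    rw [zero_mul, add_zero] at h1
    have h2 : (Nm (l : O) : ℤ) = (l ^ 2 : ℕ) := by rw [h1]; push_cast; ring
    have h4 : Ideal.absNorm v.asIdeal = l ^ 2 := by
      rw [hv]
      exact_mod_cast h2
    rw [h4, ← pow_mul, mul_comm, pow_mul] at h
    exact Nat.pow_left_injective (n := 2) (by norm_num) h

theorem q4_gen (v : HeightOneSpectrum O) (h3 : (3 : O) ∉ v.asIdeal) (l : ℕ) (hl3 : l % 3 = 2)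
    (hv : v.asIdeal = Ideal.span {(l : O)}) : gen v = -(l : O) := by
  apply Prim.eq_of_associated (gen_spec v h3).2
  · obtain ⟨m, hm⟩ : ∃ m : ℕ, l + 1 = 3 * m := ⟨(l + 1) / 3, by omega⟩
    refine ⟨-(m : O), ?_⟩
    have h4 := congrArg (fun z : ℕ => (z : O)) hm
    push_cast at h4
    linear_combination -h4
  · apply Associated.neg_right
    rw [← Ideal.span_singleton_eq_span_singleton, ← (gen_spec v h3).1, hv]

theorem q4_fe (v : HeightOneSpectrum O) (h3 : (3 : O) ∉ v.asIdeal) (h2 : (2 : O) ∉ v.asIdeal)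
    (l : ℕ) (hl : l.Prime) (hl3 : l % 3 = 2)
    (hv : v.asIdeal = Ideal.span {(l : O)}) : fe v = -(l : ℂ) := by
  have hg := q4_gen v h3 l hl3 hv
  have hodd : l % 2 = 1 := by
    rcases hl.eq_two_or_odd with h | h
    · exfalso
      apply h2
      rw [hv, h]
      exact Ideal.mem_span_singleton_self _
    · exact h
  have hNm : Nm (gen v) = l ^ 2 := by
    have h1 := Nm_repr (-(l : ℤ)) 0
    push_cast at h1
    rw [zero_mul, add_zero, ← hg] at h1
    have h4 : (Nm (gen v) : ℤ) = (l ^ 2 : ℕ) := by rw [h1]; push_cast; ring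
    exact_mod_cast h4
  have hkap : kap (gen v) = 1 := by
    rw [kap_one, hg]
    obtain ⟨m, hm⟩ : ∃ m : ℕ, l + 1 = 2 * m := ⟨(l + 1) / 2, by omega⟩
    refine ⟨-(m : O), ?_⟩
    have h5 := congrArg (fun z : ℕ => (z : O)) hm
    push_cast at h5
    linear_combination -h5
  have hchi : ZMod.χ₄ ((Nm (gen v) : ℕ) : ZMod 4) = 1 := by
    rw [hNm, Nat.cast_pow, map_pow]
    have h4 : ((l : ℕ) : ZMod 4) ≠ 0 ∧ ((l : ℕ) : ZMod 4) ≠ 2 := by
      constructor
      · intro h
        have := (ZMod.natCast_eq_zero_iff l 4).1 h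
        omega
      · intro h
        have h5 : ((l : ℕ) : ZMod 4) = ((2 : ℕ) : ZMod 4) := by rw [h]; rfl
        have := (ZMod.natCast_eq_natCast_iff' l 2 4).1 h5
        omega
    generalize ((l : ℕ) : ZMod 4) = x at h4
    revert x
    decide
  have heta : eta (gen v) = 1 := by
    unfold eta
    rw [hchi, hkap]
    push_cast
    ring
  unfold fe
  rw [heta, hg, map_one, map_one, one_mul, map_neg, map_natCast]

theorem fe_inert (hQ : Quad K₀ K) (w' : HeightOneSpectrum (𝓞 K₀)) (h3 : (3 : 𝓞 K₀) ∉ w'.asIdeal)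
    (h2 : (2 : 𝓞 K₀) ∉ w'.asIdeal) (h : Ideal.absNorm w'.asIdeal % 3 = 2)
    (w : HeightOneSpectrum (𝓞 K)) (hw : w'.asIdeal = w.asIdeal.under (𝓞 K₀))
    (v : HeightOneSpectrum O) (hv : v.asIdeal = w.asIdeal.under O) :
    fe v ^ (w.asIdeal.inertiaDeg O) = -(Ideal.absNorm w'.asIdeal : ℂ) ∧
      Ideal.absNorm v.asIdeal ^ (w.asIdeal.inertiaDeg O) = Ideal.absNorm w'.asIdeal ^ 2 := by
  obtain ⟨w₁, hw₁, hN⟩ := split_two hQ w' h3 h
  have hww : w = w₁ := (hw₁ w).1 hw
  subst hww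
  have hmem : ∀ n : ℕ, (n : 𝓞 K₀) ∉ w'.asIdeal → (n : O) ∉ v.asIdeal := by
    intro n hn hc
    apply hn
    rw [hw, Ideal.mem_comap, map_natCast]
    rw [hv, Ideal.mem_comap, map_natCast] at hc
    exact hc
  have h3v : (3 : O) ∉ v.asIdeal := by
    have := hmem 3 (by exact_mod_cast h3)
    exact_mod_cast this
  have h2v : (2 : O) ∉ v.asIdeal := by
    have := hmem 2 (by exact_mod_cast h2)
    exact_mod_cast this
  have hpow : Ideal.absNorm v.asIdeal ^ (w.asIdeal.inertiaDeg O) = Ideal.absNorm w'.asIdeal ^ 2 := by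
    rw [← absNorm_inertia K w v hv, hN]
  refine ⟨?_, hpow⟩
  obtain ⟨l, hl, hl3, hvl, hlf⟩ := q4_below v h3v _ _ h hpow
  have hfodd : Odd (w.asIdeal.inertiaDeg O) := by
    rw [← Nat.not_even_iff_odd]
    rintro ⟨j, hj⟩
    rw [← hlf, hj, ← two_mul, pow_mul, Nat.pow_mod] at h
    have h5 : l ^ 2 % 3 = 1 := by rw [Nat.pow_mod, hl3]
    rw [h5, one_pow] at h
    omega
  rw [q4_fe v h3v h2v l hl hl3 hvl, hfodd.neg_pow, ← hlf]
  push_cast
  rfl

/-! Chunk Q4, second part: the local factor at w is the square of the local factor at w'. euler_good for w: with a = fe v^f = -q (real), N = absNorm v: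
ofPowerSeries N ((1 + q X^f)⁻¹ (1 + q X^f)⁻¹). By I2_ofPS_pow this is ofPowerSeries (N^f) ((1 + q X)^2)⁻¹ = ofPowerSeries (q^2) (...) = ofPowerSeries q ((1 + q X^2)⁻¹)^2 (I2_ofPS_pow
again with q and k = 2), the square of LEF_inert. -/
theorem LEF_two (hQ : Quad K₀ K) (w' : HeightOneSpectrum (𝓞 K₀)) (h3 : (3 : 𝓞 K₀) ∉ w'.asIdeal)
    (h2 : (2 : 𝓞 K₀) ∉ w'.asIdeal) (h : Ideal.absNorm w'.asIdeal % 3 = 2)
    (w : HeightOneSpectrum (𝓞 K)) (hw : w'.asIdeal = w.asIdeal.under (𝓞 K₀)) :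
    LEF K w = LEF K₀ w' * LEF K₀ w' := by
  obtain ⟨hfe, hpow⟩ := fe_inert hQ w' h3 h2 h w hw (I2_under w) rfl
  have hmem : ∀ n : ℕ, (n : 𝓞 K₀) ∉ w'.asIdeal → (n : 𝓞 K) ∉ w.asIdeal := by
    intro n hn hc
    apply hn
    rw [hw, Ideal.mem_comap, map_natCast]
    exact hc
  have h3w : (3 : 𝓞 K) ∉ w.asIdeal := by
    have := hmem 3 (by exact_mod_cast h3)
    exact_mod_cast this
  have h2w : (2 : 𝓞 K) ∉ w.asIdeal := by
    have := hmem 2 (by exact_mod_cast h2)
    exact_mod_cast this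
  have hf0 : w.asIdeal.inertiaDeg O ≠ 0 := by
    intro h0
    rw [h0, pow_zero] at hpow
    have h1 := q3_norm K₀ w'
    have h4 : 1 < Ideal.absNorm w'.asIdeal ^ 2 := Nat.one_lt_pow (by norm_num) h1
    omega
  have hconj : (starRingEnd ℂ) (fe (I2_under w)) ^ (w.asIdeal.inertiaDeg O) =
      -(Ideal.absNorm w'.asIdeal : ℂ) := by
    rw [← map_pow, hfe, map_neg, map_natCast]
  rw [euler_good w h3w h2w (I2_under w) rfl _ rfl hf0, ← I2_ofPS_pow hf0, hfe, hconj, hpow,
    I2_ofPS_pow (k := 2) (by norm_num), map_mul, LEF_inert K₀ w' h3 h2 h]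
  have e1 : (1 - PowerSeries.C (-(Ideal.absNorm w'.asIdeal : ℂ)) * PowerSeries.X ^ 2 : PowerSeries ℂ) =
      1 + PowerSeries.C (Ideal.absNorm w'.asIdeal : ℂ) * PowerSeries.X ^ 2 := by
    rw [map_neg]
    ring
  rw [e1]

end H13E
end

-- from Lib.H13E.Q5
section

open NumberField IsDedekindDomain

namespace H13E

open H55B H35T

variable {K₀ K : Type} [Field K₀] [NumberField K₀] [Field K] [NumberField K] [Algebra F K] [Algebra K₀ K]

/-! Chunk Q5 (M): all places. LEF_sq (assembly): norm_mod3, split_one (both primes above have the same norm as w': LEF_eq; they do not contain 2 or 3),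
split_two (LEF_two). val0_two, val0_three: let w be a prime of K above w' (exists); for z in K₀ w.valuation K z = (w'.valuation K₀ z)^e with e >= 1 (H55C.exists_iota together with
H55C.valued_alg; or HeightOneSpectrum.valuation_comap). val_two: exp(-1) = (w'.valuation 2)^e, so e = 1; val_three: exp(-2) = (w'.valuation 3)^e, e = 1 or 2. LEF_bad: H35T.bad_local (432 = 2^4 3^3:
the valuation of 432 at w' above 2 is exp(-4) (v(3) = 1), above 3 exp(-3) or exp(-6) (v(2) = 1)); compare H35T.F4 loc_bad2, loc_bad3 and euler_bad. LEF_badK: euler_bad with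
val_two, val_three. -/

/-- a prime above a prime of K₀, with the valuation -/
theorem q5_above (K : Type) [Field K] [NumberField K] [Algebra K₀ K]
    (w' : HeightOneSpectrum (𝓞 K₀)) : ∃ (w : HeightOneSpectrum (𝓞 K)) (e : ℕ),
      w'.asIdeal = w.asIdeal.under (𝓞 K₀) ∧ e ≠ 0 ∧
      ∀ z : K₀, w.valuation K (algebraMap K₀ K z) = w'.valuation K₀ z ^ e := by
  have hvm := w'.isMaximal
  obtain ⟨W⟩ := (inferInstance : Nonempty (w'.asIdeal.primesOver (𝓞 K)))
  obtain ⟨w, -, hw⟩ : ∃ w : HeightOneSpectrum (𝓞 K), w.asIdeal = W.1 ∧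
      w'.asIdeal = w.asIdeal.under (𝓞 K₀) := by
    obtain ⟨P, h1, h2⟩ := W
    have hb : P ≠ ⊥ := Ideal.ne_bot_of_liesOver_of_ne_bot w'.ne_bot P
    exact ⟨⟨P, h1, hb⟩, rfl, h2.over⟩
  obtain ⟨w'', e, h1, h2, h3⟩ := H55C.A4_glob (K := K₀) (N := K) w
  have h4 : w'' = w' := HeightOneSpectrum.ext (h1.trans hw.symm)
  subst h4
  exact ⟨w, e, hw, h2, h3⟩

theorem q5_val {K₀ : Type} [Field K₀] [NumberField K₀] (w' : HeightOneSpectrum (𝓞 K₀)) {x : K₀}
    (hx : x ≠ 0) {e : ℕ} {n : ℤ} (h : WithZero.exp n = w'.valuation K₀ x ^ e) :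
    ∃ k : ℤ, w'.valuation K₀ x = WithZero.exp k ∧ n = e * k := by
  have h0 : w'.valuation K₀ x ≠ 0 := (Valuation.ne_zero_iff _).2 hx
  refine ⟨WithZero.log (w'.valuation K₀ x), (WithZero.exp_log h0).symm, ?_⟩
  rw [← WithZero.exp_log h0, ← WithZero.exp_nsmul, WithZero.exp_inj] at h
  rw [h, nsmul_eq_mul]

theorem q5_mem (w' : HeightOneSpectrum (𝓞 K₀)) (w : HeightOneSpectrum (𝓞 K))
    (hw : w'.asIdeal = w.asIdeal.under (𝓞 K₀)) (n : ℕ) [n.AtLeastTwo] :
    (OfNat.ofNat n : 𝓞 K₀) ∈ w'.asIdeal ↔ (OfNat.ofNat n : 𝓞 K) ∈ w.asIdeal := by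
  rw [hw, Ideal.mem_comap, map_ofNat]

theorem q5_curve (K : Type) [Field K] [NumberField K] (w : HeightOneSpectrum (𝓞 K)) :
    (E144.baseChange K).baseChange (w.adicCompletion K) = ⟨0, 0, 0, 0, -1⟩ := by
  ext <;> simp [E144, WeierstrassCurve.baseChange]

theorem q5_bad (K : Type) [Field K] [NumberField K] (w : HeightOneSpectrum (𝓞 K)) (n : ℤ)
    (hn : ∀ k : ℤ, n ≠ 12 * k) (h : w.valuation K (432 : K) = WithZero.exp n) : LEF K w = 1 := by
  have hP : ((E144.baseChange K).baseChange (w.adicCompletion K)).localPolynomial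
      (w.adicCompletionIntegers K) = 1 := by
    rw [q5_curve]
    apply H35T.bad_local
    intro u hu h1
    have h27 : (432 : w.adicCompletion K) = algebraMap K (w.adicCompletion K) 432 := by
      rw [map_ofNat]
    rw [h27, valuation_compl, h] at h1
    set val := (IsDiscreteValuationRing.maximalIdeal (w.adicCompletionIntegers K)).valuation
      (w.adicCompletion K) u with hval
    have h0 : val ≠ 0 := (Valuation.ne_zero_iff _).mpr hu
    rw [← WithZero.exp_log h0, ← WithZero.exp_nsmul, WithZero.exp_inj] at h1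
    simp only [nsmul_eq_mul] at h1
    push_cast at h1
    exact hn _ h1
  unfold LEF
  rw [WeierstrassCurve.localEulerFactor, WeierstrassCurve.localPowerSeries, hP]
  have : PowerSeries.invOfUnit ((1 : Polynomial ℤ) : PowerSeries ℤ) 1 = 1 := by
    have h := PowerSeries.mul_invOfUnit ((1 : Polynomial ℤ) : PowerSeries ℤ) 1 (by simp)
    simpa using h
  rw [this, map_one]
  simp

theorem LEF_sq (hQ : Quad K₀ K) (w' : HeightOneSpectrum (𝓞 K₀)) (h3 : (3 : 𝓞 K₀) ∉ w'.asIdeal)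
    (h2 : (2 : 𝓞 K₀) ∉ w'.asIdeal) (T : Finset (HeightOneSpectrum (𝓞 K)))
    (hT : ∀ w, w ∈ T ↔ w'.asIdeal = w.asIdeal.under (𝓞 K₀)) :
    ∏ w ∈ T, LEF K w = LEF K₀ w' * LEF K₀ w' := by
  classical
  rcases norm_mod3 w' h3 with h | h
  · obtain ⟨w₁, w₂, hne, hall, hn1, hn2⟩ := split_one hQ w' h3 h
    have hT' : T = {w₁, w₂} := by
      ext w
      rw [hT, hall, Finset.mem_insert, Finset.mem_singleton]
    have hw1 := (hall w₁).2 (Or.inl rfl)
    have hw2 := (hall w₂).2 (Or.inr rfl)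
    rw [hT', Finset.prod_pair hne,
      LEF_eq K K₀ w₁ w' (fun hc => h3 ((q5_mem w' w₁ hw1 3).2 hc))
        (fun hc => h2 ((q5_mem w' w₁ hw1 2).2 hc)) h3 h2 hn1,
      LEF_eq K K₀ w₂ w' (fun hc => h3 ((q5_mem w' w₂ hw2 3).2 hc))
        (fun hc => h2 ((q5_mem w' w₂ hw2 2).2 hc)) h3 h2 hn2]
  · obtain ⟨w₁, hall, hn1⟩ := split_two hQ w' h3 h
    have hT' : T = {w₁} := by
      ext w
      rw [hT, hall, Finset.mem_singleton]
    rw [hT', Finset.prod_singleton]
    exact LEF_two hQ w' h3 h2 h w₁ ((hall w₁).2 rfl)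

theorem val0_two (K : Type) [Field K] [NumberField K] [Algebra F K] [Algebra K₀ K] (hU : UnrOut K) (w' : HeightOneSpectrum (𝓞 K₀)) (h2 : (2 : 𝓞 K₀) ∈ w'.asIdeal) :
    w'.valuation K₀ (2 : K₀) = WithZero.exp (-1 : ℤ) := by
  obtain ⟨w, e, hw, he, hv⟩ := q5_above K w'
  have h1 := val_two hU w ((q5_mem w' w hw 2).1 h2)
  have h3 := hv 2
  rw [map_ofNat, h1] at h3
  obtain ⟨k, hk, hk2⟩ := q5_val w' two_ne_zero h3
  have h4 : (e : ℤ) ∣ 1 := ⟨-k, by linear_combination -hk2⟩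
  have h5 : (e : ℤ) = 1 := by
    have h6 := Int.le_of_dvd one_pos h4
    omega
  rw [hk]
  congr 1
  rw [h5] at hk2
  omega

theorem val0_three (K : Type) [Field K] [NumberField K] [Algebra F K] [Algebra K₀ K] (hU : UnrOut K) (w' : HeightOneSpectrum (𝓞 K₀)) (h3 : (3 : 𝓞 K₀) ∈ w'.asIdeal) :
    w'.valuation K₀ (3 : K₀) = WithZero.exp (-1 : ℤ) ∨
      w'.valuation K₀ (3 : K₀) = WithZero.exp (-2 : ℤ) := by
  obtain ⟨w, e, hw, he, hv⟩ := q5_above K w'
  have h1 := val_three hU w ((q5_mem w' w hw 3).1 h3)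
  have h4 := hv 3
  rw [map_ofNat, h1] at h4
  obtain ⟨k, hk, hk2⟩ := q5_val w' three_ne_zero h4
  have h5 : (e : ℤ) ∣ 2 := ⟨-k, by linear_combination -hk2⟩
  have h6 := Int.le_of_dvd two_pos h5
  have h7 : (e : ℤ) = 1 ∨ (e : ℤ) = 2 := by omega
  rcases h7 with h7 | h7 <;> rw [h7] at hk2
  · right
    rw [hk]
    congr 1
    omega
  · left
    rw [hk]
    congr 1
    omega

theorem LEF_bad (K : Type) [Field K] [NumberField K] [Algebra F K] [Algebra K₀ K] (hU : UnrOut K) (w' : HeightOneSpectrum (𝓞 K₀))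
    (h : (2 : 𝓞 K₀) ∈ w'.asIdeal ∨ (3 : 𝓞 K₀) ∈ w'.asIdeal) : LEF K₀ w' = 1 := by
  have h432 : (432 : K₀) = 2 ^ 4 * 3 ^ 3 := by norm_num
  rcases h with h | h
  · have h2 := val0_two K hU w' h
    have h3 : w'.valuation K₀ (3 : K₀) = 1 := by
      have e1 : (3 : K₀) = 1 + 2 := by norm_num
      rw [e1, Valuation.map_add_eq_of_lt_left, map_one]
      rw [h2, map_one, ← WithZero.exp_zero, WithZero.exp_lt_exp]
      norm_num
    apply q5_bad K₀ w' (-4) (by intro k; omega)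
    rw [h432, map_mul, map_pow, map_pow, h3, h2, one_pow, mul_one, ← WithZero.exp_nsmul]
    norm_num
  · rcases val0_three K hU w' h with h3 | h3
    · have h2 : w'.valuation K₀ (2 : K₀) = 1 := by
        have e1 : (2 : K₀) = -1 + 3 := by norm_num
        rw [e1, Valuation.map_add_eq_of_lt_left, Valuation.map_neg, map_one]
        rw [h3, Valuation.map_neg, map_one, ← WithZero.exp_zero, WithZero.exp_lt_exp]
        norm_num
      apply q5_bad K₀ w' (-3) (by intro k; omega)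
      rw [h432, map_mul, map_pow, map_pow, h3, h2, one_pow, one_mul, ← WithZero.exp_nsmul]
      norm_num
    · have h2 : w'.valuation K₀ (2 : K₀) = 1 := by
        have e1 : (2 : K₀) = -1 + 3 := by norm_num
        rw [e1, Valuation.map_add_eq_of_lt_left, Valuation.map_neg, map_one]
        rw [h3, Valuation.map_neg, map_one, ← WithZero.exp_zero, WithZero.exp_lt_exp]
        norm_num
      apply q5_bad K₀ w' (-6) (by intro k; omega)
      rw [h432, map_mul, map_pow, map_pow, h3, h2, one_pow, one_mul, ← WithZero.exp_nsmul]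
      norm_num

theorem LEF_badK (hU : UnrOut K) (w : HeightOneSpectrum (𝓞 K))
    (h : (2 : 𝓞 K) ∈ w.asIdeal ∨ (3 : 𝓞 K) ∈ w.asIdeal) : LEF K w = 1 :=
  euler_bad w (h.imp (fun h2 => val_two hU w h2) (fun h3 => val_three hU w h3))

end H13E
end

-- from Lib.H13E.Q6
section

open NumberField IsDedekindDomain

namespace H13E

open H55B H35T

variable {K₀ K : Type} [Field K₀] [NumberField K₀] [Field K] [NumberField K] [Algebra F K] [Algebra K₀ K]

/-! Chunk Q6 (M): the L-function of E144 over K is the square of the L-function over K₀ (Dirichlet convolution). See H55B.I2 (LFunction_eq) and H55C.B6 (LFun): for fixed n both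
LFunctions at all m <= n are finite products of local factors (ArithmeticFunction.tendsTo_eulerProduct_ofPowerSeries: eventually for all large finite sets; Filter.eventually_all_finset over
m in range (n + 1)). Choose a finite set t of primes w' of K₀ containing the one for K₀ and the primes below the one for K; T = union of the finite sets of primes above w' in t (finite: as
I2_over_finite). Group the product over T by w' (Finset.prod_biUnion, disjoint): the inner product is LEF K₀ w' * LEF K₀ w' by LEF_sq, or 1 = 1 * 1 by LEF_bad and LEF_badK.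
I2_cast_prod, I2_mul_congr. -/

/-- the Euler product, up to `n` -/
theorem q6_ev (K : Type) [Field K] [NumberField K] (m : ℕ) :
    ∀ᶠ T : Finset (HeightOneSpectrum (𝓞 K)) in Filter.atTop,
      (∏ w ∈ T, LEF K w) m = (((E144.baseChange K).LFunction m : ℤ) : ℂ) := by
  have hN : Northcott (fun w : HeightOneSpectrum (𝓞 K) =>
      Nat.card (IsLocalRing.ResidueField (w.adicCompletionIntegers K))) := by
    have h1 : (fun w : HeightOneSpectrum (𝓞 K) =>
      Nat.card (IsLocalRing.ResidueField (w.adicCompletionIntegers K))) =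
        fun w => Ideal.absNorm w.asIdeal := funext fun w => (residue_card K w).2
    rw [h1]
    infer_instance
  have h := ArithmeticFunction.tendsTo_eulerProduct_ofPowerSeries
    (fun w : HeightOneSpectrum (𝓞 K) =>
      Nat.card (IsLocalRing.ResidueField (w.adicCompletionIntegers K)))
    (fun w => ((E144.baseChange K).baseChange (w.adicCompletion K)).localPowerSeries
      (w.adicCompletionIntegers K))
    (fun w => by simp [WeierstrassCurve.localPowerSeries]) m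
  have h' : ∀ᶠ T : Finset (HeightOneSpectrum (𝓞 K)) in Filter.atTop,
      (∏ w ∈ T, ((E144.baseChange K).baseChange (w.adicCompletion K)).localEulerFactor
        (w.adicCompletionIntegers K)) m = (E144.baseChange K).LFunction m := h
  refine h'.mono fun T hT => ?_
  rw [← hT, ← ArithmeticFunction.intCoe_apply, I2_cast_prod]
  rfl

/-- the place below -/
noncomputable def q6_under (K₀ : Type) {K : Type} [Field K₀] [NumberField K₀] [Field K] [NumberField K]
    [Algebra K₀ K] (w : HeightOneSpectrum (𝓞 K)) : HeightOneSpectrum (𝓞 K₀) :=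
  ⟨w.asIdeal.under (𝓞 K₀), w.isPrime.under (𝓞 K₀), Ideal.IsIntegral.comap_ne_bot _ w.ne_bot⟩

theorem q6_fin (K : Type) [Field K] [NumberField K] [Algebra K₀ K] (w' : HeightOneSpectrum (𝓞 K₀)) :
    {w : HeightOneSpectrum (𝓞 K) | w'.asIdeal = w.asIdeal.under (𝓞 K₀)}.Finite := by
  have himg : (fun w : HeightOneSpectrum (𝓞 K) => w.asIdeal) ''
      {w : HeightOneSpectrum (𝓞 K) | w'.asIdeal = w.asIdeal.under (𝓞 K₀)} ⊆
        w'.asIdeal.primesOver (𝓞 K) := by
    rintro P ⟨w, hw, rfl⟩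
    exact ⟨w.isPrime, ⟨hw⟩⟩
  have hinj : Function.Injective (fun w : HeightOneSpectrum (𝓞 K) => w.asIdeal) :=
    fun a b h => HeightOneSpectrum.ext h
  have hvm := w'.isMaximal
  apply Set.Finite.of_finite_image (f := fun w : HeightOneSpectrum (𝓞 K) => w.asIdeal)
  · exact (IsDedekindDomain.primesOver_finite w'.asIdeal (𝓞 K)).subset himg
  · exact hinj.injOn

theorem LFun_sq (hQ : Quad K₀ K) (hU : UnrOut K) (n : ℕ) :
    (((E144.baseChange K).LFunction n : ℤ) : ℂ) =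
      ((((E144.baseChange K₀).LFunction : ArithmeticFunction ℤ) : ArithmeticFunction ℂ) *
        (((E144.baseChange K₀).LFunction : ArithmeticFunction ℤ) : ArithmeticFunction ℂ)) n := by
  classical
  obtain ⟨s0, hs0⟩ := Filter.eventually_atTop.1 (q6_ev K n)
  have hR : ∀ᶠ t : Finset (HeightOneSpectrum (𝓞 K₀)) in Filter.atTop,
      ∀ m ∈ Finset.range (n + 1),
      (∏ w ∈ t, LEF K₀ w) m = (((E144.baseChange K₀).LFunction m : ℤ) : ℂ) := by
    rw [Filter.eventually_all_finset]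
    intro m _
    exact q6_ev K₀ m
  obtain ⟨t0, ht0⟩ := Filter.eventually_atTop.1 hR
  set ov : HeightOneSpectrum (𝓞 K₀) → Finset (HeightOneSpectrum (𝓞 K)) :=
    fun v => (q6_fin K v).toFinset with hov
  have hmo : ∀ v w, w ∈ ov v ↔ v.asIdeal = w.asIdeal.under (𝓞 K₀) := by
    intro v w
    simp [hov]
  set t : Finset (HeightOneSpectrum (𝓞 K₀)) := t0 ∪ s0.image (q6_under K₀) with ht
  set T : Finset (HeightOneSpectrum (𝓞 K)) := t.biUnion ov with hTdef
  have hsub : s0 ⊆ T := by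
    intro w hw
    rw [hTdef, Finset.mem_biUnion]
    refine ⟨q6_under K₀ w, Finset.mem_union_right _ (Finset.mem_image_of_mem _ hw), ?_⟩
    rw [hmo]
    rfl
  rw [← hs0 T hsub, hTdef, Finset.prod_biUnion]
  · have h2 : ∀ v ∈ t, ∏ w ∈ ov v, LEF K w = LEF K₀ v * LEF K₀ v := by
      intro v _
      by_cases hb : (2 : 𝓞 K₀) ∈ v.asIdeal ∨ (3 : 𝓞 K₀) ∈ v.asIdeal
      · rw [LEF_bad K hU v hb, mul_one]
        apply Finset.prod_eq_one
        intro w hw
        rw [hmo] at hw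
        refine LEF_badK hU w (hb.imp (fun h => ?_) (fun h => ?_))
        · exact (q5_mem v w hw 2).1 h
        · exact (q5_mem v w hw 3).1 h
      · rw [not_or] at hb
        exact LEF_sq hQ v hb.2 hb.1 (ov v) (hmo v)
    rw [Finset.prod_congr rfl h2, Finset.prod_mul_distrib]
    have hts : t0 ⊆ t := Finset.subset_union_left
    refine I2_mul_congr ?_ ?_ n le_rfl
    · intro m hm
      rw [ht0 t hts m (Finset.mem_range.2 (by omega)), ArithmeticFunction.intCoe_apply]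
    · intro m hm
      rw [ht0 t hts m (Finset.mem_range.2 (by omega)), ArithmeticFunction.intCoe_apply]
  · intro v _ v' _ hne
    rw [Function.onFun, Finset.disjoint_left]
    intro w hw hw'
    rw [hmo] at hw hw'
    apply hne
    apply HeightOneSpectrum.ext
    rw [hw, hw']

end H13E
end

-- from Lib.H55D.Q5
section

open NumberField IsDedekindDomain

namespace H55D

open H55B H55C

variable {K₀ K : Type} [Field K₀] [NumberField K₀] [Field K] [NumberField K] [Algebra F K] [Algebra K₀ K]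

/-! Chunk Q5 (M): COPY/ADAPT of H13E/Q5 (E27 has good reduction at 2, so there is no condition at 2). LEF_sq: H13E.norm_mod3, H13E.split_one, LEF_eq; H13E.split_two, LEF_two.
val0_two, val0_three: choose w above w' with w.valuation K z = w'.valuation K₀ z ^ e, e > 0 (q5_above in H13E, or copy), H55C val_two/val_three over K (UnrOut K: the value of 2 is exp(-1), the value of 3 is
exp(-2); see H55C/B0). LEF_bad: H55B.bad_local: the value of 27 is exp(-3) or exp(-6), not a 12-th power. LEF_badK: H55B.loc_bad, val_three. -/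

theorem DQ5_bad (K : Type) [Field K] [NumberField K] (w : HeightOneSpectrum (𝓞 K)) (n : ℤ)
    (hn : ∀ k : ℤ, n ≠ 12 * k) (h : w.valuation K (27 : K) = WithZero.exp n) : LEF K w = 1 := by
  have hP : ((E27.baseChange K).baseChange (w.adicCompletion K)).localPolynomial
      (w.adicCompletionIntegers K) = 1 := by
    have hcurve : (E27.baseChange K).baseChange (w.adicCompletion K) = ⟨0, 0, 1, 0, 0⟩ := by
      ext <;> simp [E27, WeierstrassCurve.baseChange]
    rw [hcurve]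
    apply H55B.bad_local
    intro u hu h1
    have h27 : (27 : w.adicCompletion K) = algebraMap K (w.adicCompletion K) 27 := by
      rw [map_ofNat]
    rw [h27, valuation_compl, h] at h1
    set val := (IsDiscreteValuationRing.maximalIdeal (w.adicCompletionIntegers K)).valuation
      (w.adicCompletion K) u with hval
    have h0 : val ≠ 0 := (Valuation.ne_zero_iff _).mpr hu
    rw [← WithZero.exp_log h0, ← WithZero.exp_nsmul, WithZero.exp_inj] at h1
    simp only [nsmul_eq_mul] at h1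
    push_cast at h1
    exact hn _ h1
  unfold LEF
  rw [WeierstrassCurve.localEulerFactor, WeierstrassCurve.localPowerSeries, hP]
  have : PowerSeries.invOfUnit ((1 : Polynomial ℤ) : PowerSeries ℤ) 1 = 1 := by
    have h := PowerSeries.mul_invOfUnit ((1 : Polynomial ℤ) : PowerSeries ℤ) 1 (by simp)
    simpa using h
  rw [this, map_one]
  simp

theorem LEF_sq (hQ : H13E.Quad K₀ K) (w' : HeightOneSpectrum (𝓞 K₀)) (h3 : (3 : 𝓞 K₀) ∉ w'.asIdeal)
    (T : Finset (HeightOneSpectrum (𝓞 K))) (hT : ∀ w, w ∈ T ↔ w'.asIdeal = w.asIdeal.under (𝓞 K₀)) :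
    ∏ w ∈ T, LEF K w = LEF K₀ w' * LEF K₀ w' := by
  classical
  rcases H13E.norm_mod3 w' h3 with h | h
  · obtain ⟨w₁, w₂, hne, hall, hn1, hn2⟩ := H13E.split_one hQ w' h3 h
    have hT' : T = {w₁, w₂} := by
      ext w
      rw [hT, hall, Finset.mem_insert, Finset.mem_singleton]
    have hw1 := (hall w₁).2 (Or.inl rfl)
    have hw2 := (hall w₂).2 (Or.inr rfl)
    rw [hT', Finset.prod_pair hne,
      LEF_eq K K₀ w₁ w' (fun hc => h3 ((H13E.q5_mem w' w₁ hw1 3).2 hc)) h3 hn1,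
      LEF_eq K K₀ w₂ w' (fun hc => h3 ((H13E.q5_mem w' w₂ hw2 3).2 hc)) h3 hn2]
  · obtain ⟨w₁, hall, hn1⟩ := H13E.split_two hQ w' h3 h
    have hT' : T = {w₁} := by
      ext w
      rw [hT, hall, Finset.mem_singleton]
    rw [hT', Finset.prod_singleton]
    exact LEF_two hQ w' h3 h w₁ ((hall w₁).2 rfl)

theorem val0_two (K : Type) [Field K] [NumberField K] [Algebra F K] [Algebra K₀ K] (hU : UnrOut K)
    (w' : HeightOneSpectrum (𝓞 K₀)) (h2 : (2 : 𝓞 K₀) ∈ w'.asIdeal) :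
    w'.valuation K₀ (2 : K₀) = WithZero.exp (-1 : ℤ) := by
  obtain ⟨w, e, hw, he, hv⟩ := H13E.q5_above K w'
  have h1 := val_two hU w ((H13E.q5_mem w' w hw 2).1 h2)
  have h3 := hv 2
  rw [map_ofNat, h1] at h3
  obtain ⟨k, hk, hk2⟩ := H13E.q5_val w' two_ne_zero h3
  have h4 : (e : ℤ) ∣ 1 := ⟨-k, by linear_combination -hk2⟩
  have h5 : (e : ℤ) = 1 := by
    have h6 := Int.le_of_dvd one_pos h4
    omega
  rw [hk]
  congr 1
  rw [h5] at hk2
  omega

theorem val0_three (K : Type) [Field K] [NumberField K] [Algebra F K] [Algebra K₀ K] (hU : UnrOut K)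
    (w' : HeightOneSpectrum (𝓞 K₀)) (h3 : (3 : 𝓞 K₀) ∈ w'.asIdeal) :
    w'.valuation K₀ (3 : K₀) = WithZero.exp (-1 : ℤ) ∨
      w'.valuation K₀ (3 : K₀) = WithZero.exp (-2 : ℤ) := by
  obtain ⟨w, e, hw, he, hv⟩ := H13E.q5_above K w'
  have h1 := val_three hU w ((H13E.q5_mem w' w hw 3).1 h3)
  have h4 := hv 3
  rw [map_ofNat, h1] at h4
  obtain ⟨k, hk, hk2⟩ := H13E.q5_val w' three_ne_zero h4
  have h5 : (e : ℤ) ∣ 2 := ⟨-k, by linear_combination -hk2⟩
  have h6 := Int.le_of_dvd two_pos h5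
  have h7 : (e : ℤ) = 1 ∨ (e : ℤ) = 2 := by omega
  rcases h7 with h7 | h7 <;> rw [h7] at hk2
  · right
    rw [hk]
    congr 1
    omega
  · left
    rw [hk]
    congr 1
    omega

theorem LEF_bad (K : Type) [Field K] [NumberField K] [Algebra F K] [Algebra K₀ K] (hU : UnrOut K)
    (w' : HeightOneSpectrum (𝓞 K₀)) (h : (3 : 𝓞 K₀) ∈ w'.asIdeal) : LEF K₀ w' = 1 := by
  have h27 : (27 : K₀) = 3 ^ 3 := by norm_num
  rcases val0_three K hU w' h with h3 | h3
  · apply DQ5_bad K₀ w' (-3) (by intro k; omega)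
    rw [h27, map_pow, h3, ← WithZero.exp_nsmul]
    norm_num
  · apply DQ5_bad K₀ w' (-6) (by intro k; omega)
    rw [h27, map_pow, h3, ← WithZero.exp_nsmul]
    norm_num

theorem LEF_badK (hU : UnrOut K) (w : HeightOneSpectrum (𝓞 K)) (h : (3 : 𝓞 K) ∈ w.asIdeal) :
    LEF K w = 1 :=
  I2_local_bad w (val_three hU w h)

/-- The discriminant of K₀ is odd: 2 is unramified (val0_two; NumberField.not_dvd_discr_iff_forall_mem as in H55C/W7 odd_discr). -/
theorem odd_discr0 (K : Type) [Field K] [NumberField K] [Algebra F K] [Algebra K₀ K] (hU : UnrOut K) :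
    Odd (NumberField.discr K₀) := by
  obtain ⟨z, hz⟩ := NumberField.discr_dvd_discr K₀ K
  have h := odd_discr K hU
  rw [hz, Int.odd_mul] at h
  exact h.1

end H55D
end

-- from Lib.H35T.I4
section

open NumberField IsDedekindDomain

namespace H35T

open H55B

/-! Chunk I4 (M): 3-adic units (adapt H55C.B9). ne_zero: there is a valuation subring of the complex numbers with v(3) < 1 (copy of
H55B.D0.exists_val with 3 instead of 2). conj: pull back of a valuation subring by complex conjugation. EF_unit: with a = fe v ^ f,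
q = a conj(a): (1 - a/q)(1 - conj(a)/q) = (conj a - 1)(a - 1)/q. v good: eta (gen v) = -om^j (eta_good) and gen v = 1 mod 3, so fe v = e of the
element -om^(2j) gen v of O, congruent to -1 modulo om - 1; f is odd, so its f-th power is congruent to -1 and that minus 1 to -2 = 1 mod om - 1: norm
prime to 3, val_e_unit; q is the norm of an element prime to 3. -/

theorem exists_val3 : ∃ A : ValuationSubring ℂ, A.valuation 3 < 1 := by
  let A : Subring ℂ := (Int.castRingHom ℂ).range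
  have h2A : (3 : ℂ) ∈ A := ⟨3, by simp⟩
  let t : A := ⟨3, h2A⟩
  have hI : Ideal.span {t} ≠ ⊤ := by
    intro h
    have h1 : (1 : A) ∈ Ideal.span {t} := by rw [h]; trivial
    rw [Ideal.mem_span_singleton] at h1
    obtain ⟨⟨c, ⟨n, hn⟩⟩, hc⟩ := h1
    have h3 : (1 : ℂ) = 3 * c := congrArg Subtype.val hc
    rw [← hn] at h3
    simp only [eq_intCast] at h3
    have h4 : (1 : ℤ) = 3 * n := by exact_mod_cast h3
    omega
  obtain ⟨B, -, hB⟩ := Ideal.image_subset_nonunits_valuationSubring (Ideal.span {t}) hI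
  refine ⟨B, ?_⟩
  rw [← ValuationSubring.mem_nonunits_iff]
  exact hB ⟨t, Ideal.mem_span_singleton_self t, rfl⟩

theorem i4_lt (A : ValuationSubring ℂ) {x : ℂ} (hx : x ≠ 0) : A.valuation x < 1 ↔ x⁻¹ ∉ A := by
  rw [← A.valuation_le_one_iff, map_inv₀, not_le]
  exact (one_lt_inv₀ (zero_lt_iff.2 ((Valuation.ne_zero_iff _).2 hx))).symm

theorem i4_eq (A : ValuationSubring ℂ) {x : ℂ} (hx : x ≠ 0) :
    A.valuation x = 1 ↔ x ∈ A ∧ x⁻¹ ∈ A := by
  have h1 := i4_lt A hx
  rw [← A.valuation_le_one_iff x]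
  constructor
  · intro h
    refine ⟨h.le, ?_⟩
    by_contra h2
    exact absurd h (h1.2 h2).ne
  · rintro ⟨h2, h3⟩
    refine le_antisymm h2 ?_
    by_contra h4
    exact h1.1 (not_le.1 h4) h3

theorem Unit3.mul {x y : ℂ} (hx : Unit3 x) (hy : Unit3 y) : Unit3 (x * y) := by
  intro A hA
  rw [map_mul, hx A hA, hy A hA, one_mul]

theorem Unit3.inv {x : ℂ} (hx : Unit3 x) : Unit3 x⁻¹ := by
  intro A hA
  rw [map_inv₀, hx A hA, inv_one]

theorem Unit3.div {x y : ℂ} (hx : Unit3 x) (hy : Unit3 y) : Unit3 (x / y) := by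
  rw [div_eq_mul_inv]
  exact hx.mul hy.inv

theorem Unit3.pow {x : ℂ} (hx : Unit3 x) (n : ℕ) : Unit3 (x ^ n) := by
  intro A hA
  rw [map_pow, hx A hA, one_pow]

theorem Unit3.one : Unit3 1 := fun A _ => map_one A.valuation

theorem Unit3.prod {ι : Type} (s : Finset ι) (x : ι → ℂ) (hx : ∀ i ∈ s, Unit3 (x i)) :
    Unit3 (∏ i ∈ s, x i) := by
  intro A hA
  rw [map_prod]
  exact Finset.prod_eq_one fun i hi => hx i hi A hA

theorem Unit3.ne_zero {x : ℂ} (hx : Unit3 x) : x ≠ 0 := by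
  rintro rfl
  obtain ⟨A, hA⟩ := exists_val3
  have := hx A hA
  rw [map_zero] at this
  exact zero_ne_one this

theorem Unit3.conj {x : ℂ} (hx : Unit3 x) : Unit3 ((starRingEnd ℂ) x) := by
  intro A hA
  have hx0 := hx.ne_zero
  have h2 : (3 : ℂ) ≠ 0 := three_ne_zero
  set B : ValuationSubring ℂ := A.comap (starRingEnd ℂ) with hB
  have hmem : ∀ z : ℂ, z ∈ B ↔ (starRingEnd ℂ) z ∈ A := fun z => Iff.rfl
  have hB2 : B.valuation 3 < 1 := by
    rw [i4_lt B h2, hmem, map_inv₀, map_ofNat, ← i4_lt A h2]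
    exact hA
  have h3 := (i4_eq B hx0).1 (hx B hB2)
  rw [hmem, hmem, map_inv₀] at h3
  exact (i4_eq A ((map_ne_zero (starRingEnd ℂ)).2 hx0)).2 h3

/-- Roots: if a power of x is a unit then x is a unit. -/
theorem Unit3.of_pow {x : ℂ} {n : ℕ} (hn : n ≠ 0) (hx : Unit3 (x ^ n)) : Unit3 x := by
  intro A hA
  have h := hx A hA
  rw [map_pow] at h
  exact (pow_eq_one_iff_of_nonneg zero_le hn).1 h

theorem Unit3.nat {n : ℕ} (hn : ¬ 3 ∣ n) : Unit3 (n : ℂ) := fun A hA => val_nat A hA n hn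

theorem i4_norm {x : O} (h : (om - 1) ∣ x - 1 ∨ (om - 1) ∣ x + 1) : ¬ 3 ∣ Nm x := by
  have hrel := om_rel
  obtain ⟨ε, hε, z, hz⟩ : ∃ ε : ℤ, (ε = 1 ∨ ε = -1) ∧ ∃ z : O, x = ε + (om - 1) * z := by
    rcases h with ⟨z, hz⟩ | ⟨z, hz⟩
    · exact ⟨1, Or.inl rfl, z, by push_cast; linear_combination hz⟩
    · exact ⟨-1, Or.inr rfl, z, by push_cast; linear_combination hz⟩
  obtain ⟨c, d, hcd⟩ := exists_repr z
  have h1 : x = ((ε - c - d : ℤ) : O) + ((c - 2 * d : ℤ) : O) * om := by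
    push_cast
    rw [hz, hcd]
    linear_combination (d : O) * hrel
  have h2 := Nm_repr (ε - c - d) (c - 2 * d)
  rw [← h1] at h2
  intro h3
  have h4 : (3 : ℤ) ∣ (Nm x : ℤ) := by exact_mod_cast h3
  rw [h2] at h4
  obtain ⟨k, hk⟩ := h4
  have hε2 : ε ^ 2 = 1 := by rcases hε with rfl | rfl <;> norm_num
  have : (1 : ℤ) = 3 * (k + (ε - c - d) * (c - 2 * d) - (3 * d ^ 2 - 2 * ε * d)) := by
    linear_combination hk - hε2
  omega

theorem i4_three : (om - 1) ∣ (3 : O) := by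
  refine ⟨-(om ^ 2) * (om - 1), ?_⟩
  linear_combination (om ^ 2 - 3 * om + 3) * om_rel

theorem i4_fe {v : HeightOneSpectrum O} (hv : Good v) : ∃ y : O, fe v = e y ∧ (om - 1) ∣ y + 1 := by
  obtain ⟨j, hj⟩ := eta_good hv
  have h3 : (3 : O) ∉ v.asIdeal := hv.2.1
  obtain ⟨c, hc⟩ := (gen_spec v h3).2
  refine ⟨-(om ^ 2) ^ j * gen v, ?_, ?_⟩
  · unfold fe
    rw [← e_cj, ← map_mul, hj, map_neg, map_pow, cj_om]
  · obtain ⟨t, ht⟩ := i4_three
    have h1 : (om - 1) ∣ (om ^ 2) ^ j - 1 := by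
      have h2 : om ^ 2 - 1 ∣ (om ^ 2) ^ j - 1 := by
        have := sub_dvd_pow_sub_pow (om ^ 2) 1 j
        rwa [one_pow] at this
      exact dvd_trans ⟨om + 1, by ring⟩ h2
    obtain ⟨r, hr⟩ := h1
    refine ⟨-(r * gen v + t * c), ?_⟩
    linear_combination (-gen v) * hr - hc - c * ht

theorem EF_unit {v : HeightOneSpectrum O} (hv : Good v) (f : ℕ) (hf : ∃ j : ℕ, f = 3 ^ j) (q : ℂ)
    (hq : q = (fe v * (starRingEnd ℂ) (fe v)) ^ f) :
    Unit3 (((1 - fe v ^ f * q⁻¹) * (1 - (starRingEnd ℂ) (fe v) ^ f * q⁻¹))⁻¹) := by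
  obtain ⟨y, hy, hd⟩ := i4_fe hv
  have hodd : Odd f := by
    obtain ⟨j, rfl⟩ := hf
    exact Odd.pow (by decide)
  have hx1 : Unit3 (fe v) := fun A hA => by
    rw [hy]
    exact val_e_unit A hA _ (i4_norm (Or.inr hd))
  have ha : Unit3 (fe v ^ f) := hx1.pow _
  have ha1 : Unit3 (fe v ^ f - 1) := by
    intro A hA
    have h1 : (om - 1) ∣ y ^ f + 1 := by
      refine dvd_trans hd ?_
      have := Odd.add_dvd_pow_add_pow y 1 hodd
      rwa [one_pow] at this
    have h2 : (om - 1) ∣ (y ^ f - 1) - 1 := by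
      have h3 : (y ^ f - 1) - 1 = (y ^ f + 1) - 3 := by ring
      rw [h3]
      exact dvd_sub h1 i4_three
    have h4 := val_e_unit A hA _ (i4_norm (Or.inl h2))
    rw [map_sub, map_one, map_pow, ← hy] at h4
    exact h4
  have hb : Unit3 ((starRingEnd ℂ) (fe v) ^ f) := by
    rw [← map_pow]
    exact ha.conj
  have hb1 : Unit3 ((starRingEnd ℂ) (fe v) ^ f - 1) := by
    have h4 := ha1.conj
    rw [map_sub, map_one, map_pow] at h4
    exact h4
  have ha0 := ha.ne_zero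
  have hb0 := hb.ne_zero
  have hqe : q = fe v ^ f * (starRingEnd ℂ) (fe v) ^ f := by
    rw [hq, mul_pow]
  have key : (1 - fe v ^ f * q⁻¹) * (1 - (starRingEnd ℂ) (fe v) ^ f * q⁻¹) =
      (((starRingEnd ℂ) (fe v) ^ f - 1) * (fe v ^ f - 1)) *
        ((starRingEnd ℂ) (fe v) ^ f * fe v ^ f)⁻¹ := by
    rw [hqe]
    field_simp
  rw [key]
  exact ((hb1.mul ha1).mul (hb.mul ha).inv).inv

end H35T
end

-- from Lib.H35T.W2
section

open NumberField IsDedekindDomain

namespace H35T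

open H55B

/-! Chunk W2 (S): the period lattice of E144 (y = P'/2, P'^2 = 4 P^3 - 4) and R0 = R(e om - 1). LL has g_2 = 0 (g2_zero), g_3 = p^3, p = wp 1,
R0^2 = 3 p (R0_sq), so |R0|^2 = 3 |p|. Choose c with c^6 = p^3/4 and apply H55C.W1_scale (H55C.Om and Om are equal by definition): g_2 = 0,
g_3 = 4, Om = |c|^2 Om LL = |c|^2 * 18 |Im om|, (Im om)^2 = 3/4 (A0_im), |c|^6 = |p|^3/4. So z = 3 R0 conj(R0)/Om * e sq3 =
9 |p| e sq3/(18 |c|^2 |Im om|), z^6 = (1/2)^6 |p|^6 (e sq3)^6/(|c|^12 |Im om|^6) = (1/64) * 16 * (-27) * (64/27) = -16. Unit3.of_pow. -/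

theorem W2_Om (L : PeriodPair) : Om L = H55C.Om L := rfl

theorem exists_period : ∃ L : PeriodPair, L.g₂ = 0 ∧ L.g₃ = 4 ∧
    Unit3 (3 * R (e om - 1) * (starRingEnd ℂ) (R (e om - 1)) / (Om L : ℂ) * e sq3) := by
  obtain ⟨hR2, hg3, hp⟩ := R0_sq
  obtain ⟨c, hc⟩ := IsAlgClosed.exists_pow_nat_eq (wp 1 ^ 3 / 4) (n := 6) (by norm_num)
  have hc0 : c ≠ 0 := by
    rintro rfl
    rw [zero_pow (by norm_num)] at hc
    exact pow_ne_zero 3 hp (by linear_combination -4 * hc)
  obtain ⟨L, h1, h2, h3⟩ := H55C.W1_scale LL c hc0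
  refine ⟨L, ?_, ?_, ?_⟩
  · rw [h1, g2_zero, mul_zero]
  · rw [h2, hg3, hc]
    have := pow_ne_zero 3 hp
    field_simp
  · have hcn : ‖c‖ ^ 6 * 4 = ‖wp 1‖ ^ 3 := by
      have h4 := congrArg norm hc
      rw [norm_pow, norm_div, norm_pow] at h4
      rw [h4]
      norm_num
    have hR : ‖R (e om - 1)‖ ^ 2 = 3 * ‖wp 1‖ := by
      rw [← norm_pow, hR2, norm_mul]
      norm_num
    have him := A0_im
    have himne : |(e om).im| ≠ 0 := abs_ne_zero.2 A0_im_ne
    have hpn : ‖wp 1‖ ≠ 0 := norm_ne_zero_iff.2 hp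
    have hcnn : ‖c‖ ≠ 0 := norm_ne_zero_iff.2 hc0
    have hOm : Om L = ‖c‖ ^ 2 * (18 * |(e om).im|) := by
      rw [W2_Om, h3, H55C.W2_Om_LL]
    set z : ℂ := 3 * R (e om - 1) * (starRingEnd ℂ) (R (e om - 1)) / (Om L : ℂ) * e sq3 with hz
    have hz2 : z = ((9 * ‖wp 1‖ / (‖c‖ ^ 2 * (18 * |(e om).im|)) : ℝ) : ℂ) * e sq3 := by
      rw [hz]
      congr 1
      rw [mul_assoc, Complex.mul_conj, Complex.normSq_eq_norm_sq, hR, hOm]
      push_cast
      ring
    have hzz : z ^ 6 = -16 := by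
      have e2 := e_sq3
      have e6 : e sq3 ^ 6 = -27 := by
        have : e sq3 ^ 6 = (e sq3 ^ 2) ^ 3 := by ring
        rw [this, e2]
        norm_num
      have h6 : |(e om).im| ^ 6 = 27 / 64 := by
        have : |(e om).im| ^ 6 = (|(e om).im| ^ 2) ^ 3 := by ring
        rw [this, sq_abs, him]
        norm_num
      have h5 : (9 * ‖wp 1‖ / (‖c‖ ^ 2 * (18 * |(e om).im|))) ^ 6 = (16 / 27 : ℝ) := by
        have e7 : (9 * ‖wp 1‖ / (‖c‖ ^ 2 * (18 * |(e om).im|))) ^ 6 =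
            (‖wp 1‖ ^ 3) ^ 2 / (64 * (‖c‖ ^ 6) ^ 2 * |(e om).im| ^ 6) := by
          field_simp
          ring
        rw [e7, ← hcn, h6]
        field_simp
        norm_num
      rw [hz2, mul_pow, ← Complex.ofReal_pow, h5, e6]
      push_cast
      norm_num
    refine Unit3.of_pow (n := 6) (by norm_num) ?_
    rw [hzz]
    intro A hA
    have h16 : A.valuation ((16 : ℕ) : ℂ) = 1 := val_nat A hA 16 (by decide)
    rw [Valuation.map_neg]
    exact_mod_cast h16

theorem period_unit (L : PeriodPair) (h2 : L.g₂ = 0) (h3 : L.g₃ = 4) :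
    Unit3 (3 * R (e om - 1) * (starRingEnd ℂ) (R (e om - 1)) / (Om L : ℂ) * e sq3) := by
  obtain ⟨L', h2', h3', h⟩ := exists_period
  have h1 : Om L = Om L' := H55C.Om_lattice L L'
    (H55C.lattice_unique L L' (h2.trans h2'.symm) (h3.trans h3'.symm))
  rw [h1]
  exact h

end H35T
end

-- from Lib.H13E.T4
section

open NumberField IsDedekindDomain

namespace H13E

open H55B H35T

/-! Chunk T4: the real period. R0 is real and R0^2 = 3 p(1), g_3(LL) = p(1)^3, so p(1) is a positive real number and there is a real scaling factor: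
L.lattice = 3c e(O) with c > 0 (lattice_unique). -/

theorem T4_wp_pos : ∃ r : ℝ, 0 < r ∧ wp 1 = (r : ℂ) := by
  obtain ⟨hR2, -, hp⟩ := R0_sq
  obtain ⟨t, ht⟩ := Complex.conj_eq_iff_real.1 R_real
  refine ⟨t ^ 2 / 3, ?_, ?_⟩
  · have ht0 : t ≠ 0 := by
      rintro rfl
      rw [ht] at hR2
      apply hp
      have : (3 : ℂ) * wp 1 = 0 := by rw [← hR2]; simp
      rcases mul_eq_zero.1 this with h | h
      · norm_num at h
      · exact h
    positivity
  · rw [ht] at hR2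
    push_cast
    linear_combination (1 / 3 : ℂ) * (-hR2)

theorem T4_lattice (L : PeriodPair) (h2 : L.g₂ = 0) (h3 : L.g₃ = 4) :
    ∃ c : ℝ, 0 < c ∧ Om L = 9 * Real.sqrt 3 * c ^ 2 ∧
      ∀ x : ℂ, x ∈ L.lattice ↔ ∃ m n : ℤ, (m : ℂ) * (c * 3) + n * (c * (3 * e om)) = x := by
  obtain ⟨r, hr, hwr⟩ := T4_wp_pos
  obtain ⟨-, hg3, -⟩ := R0_sq
  set c : ℝ := (r ^ 3 / 4) ^ ((1 : ℝ) / 6) with hc
  have hc0 : 0 < c := Real.rpow_pos_of_pos (by positivity) _
  have hc6 : c ^ 6 = r ^ 3 / 4 := by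
    rw [hc, ← Real.rpow_natCast, ← Real.rpow_mul (by positivity)]
    norm_num
  have hcc : (c : ℂ) ≠ 0 := by exact_mod_cast hc0.ne'
  have hL2 : (H55C.W1_L LL (c : ℂ) hcc).g₂ = 0 := by
    unfold PeriodPair.g₂
    rw [H55C.W1_G]
    have h := g2_zero
    unfold PeriodPair.g₂ at h
    linear_combination ((c : ℂ) ^ 4)⁻¹ * h
  have hL3 : (H55C.W1_L LL (c : ℂ) hcc).g₃ = 4 := by
    have h : (H55C.W1_L LL (c : ℂ) hcc).g₃ = ((c : ℂ) ^ 6)⁻¹ * LL.g₃ := by
      unfold PeriodPair.g₃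
      rw [H55C.W1_G]
      ring
    have hc6' : (c : ℂ) ^ 6 = (r : ℂ) ^ 3 / 4 := by exact_mod_cast congrArg (fun z : ℝ => (z : ℂ)) hc6
    rw [h, hg3, hwr, hc6']
    have hr' : (r : ℂ) ≠ 0 := by exact_mod_cast hr.ne'
    field_simp
  have hlat := H55C.lattice_unique L (H55C.W1_L LL (c : ℂ) hcc) (h2.trans hL2.symm) (h3.trans hL3.symm)
  refine ⟨c, hc0, ?_, ?_⟩
  · have h1 : Om L = Om (H55C.W1_L LL (c : ℂ) hcc) := H55C.Om_lattice _ _ hlat
    rw [h1]
    unfold Om
    show 2 * |((c : ℂ) * 3).re * ((c : ℂ) * (3 * e om)).im - ((c : ℂ) * 3).im * ((c : ℂ) * (3 * e om)).re| = _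
    have e1 : ((c : ℂ) * 3).re * ((c : ℂ) * (3 * e om)).im - ((c : ℂ) * 3).im * ((c : ℂ) * (3 * e om)).re =
        9 * c ^ 2 * (e om).im := by
      simp [Complex.mul_re, Complex.mul_im]
      ring
    rw [e1, abs_mul, abs_of_nonneg (by positivity : (0 : ℝ) ≤ 9 * c ^ 2)]
    have him : |(e om).im| = Real.sqrt 3 / 2 := by
      rw [← Real.sqrt_sq_eq_abs, A0_im, Real.sqrt_div (by norm_num)]
      congr 1
      rw [show (4 : ℝ) = 2 ^ 2 by norm_num, Real.sqrt_sq (by norm_num)]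
    rw [him]
    ring
  · intro x
    rw [hlat, PeriodPair.mem_lattice]
    rfl

theorem Omr_eq_aux (L : PeriodPair) (c : ℝ) (hc : 0 < c)
    (h : ∀ x : ℂ, x ∈ L.lattice ↔ ∃ m n : ℤ, (m : ℂ) * (c * 3) + n * (c * (3 * e om)) = x) :
    Omr L = 3 * c := by
  have hset : {x : ℝ | 0 < x ∧ (x : ℂ) ∈ L.lattice} = {x : ℝ | ∃ m : ℤ, 0 < m ∧ x = 3 * c * m} := by
    ext x
    simp only [Set.mem_setOf_eq]
    constructor
    · rintro ⟨hx, hm⟩
      obtain ⟨m, n, hmn⟩ := (h _).1 hm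
      have him := congrArg Complex.im hmn
      have hre := congrArg Complex.re hmn
      simp [Complex.mul_re, Complex.mul_im] at him hre
      have hn : (n : ℝ) = 0 := by
        rcases him with h1 | h1
        · exact_mod_cast h1
        · rcases h1 with h1 | h1
          · exact absurd h1 hc.ne'
          · exact absurd h1 A0_im_ne
      refine ⟨m, ?_, ?_⟩
      · rw [hn] at hre
        have h3 : (m : ℝ) * (c * 3) = x := by linarith
        have h4 : 0 < (m : ℝ) := by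
          by_contra hcon
          push Not at hcon
          nlinarith
        exact_mod_cast h4
      · rw [hn] at hre
        linarith
    · rintro ⟨m, hm, rfl⟩
      have hm' : (0 : ℝ) < m := by exact_mod_cast hm
      refine ⟨by positivity, (h _).2 ⟨m, 0, ?_⟩⟩
      push_cast
      ring
  unfold Omr
  rw [hset]
  apply le_antisymm
  · apply csInf_le
    · refine ⟨0, ?_⟩
      rintro x ⟨m, hm, rfl⟩
      have hm' : (0 : ℝ) < m := by exact_mod_cast hm
      positivity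
    · exact ⟨1, by norm_num, by push_cast; ring⟩
  · apply le_csInf
    · exact ⟨3 * c, 1, by norm_num, by push_cast; ring⟩
    · rintro x ⟨m, hm, rfl⟩
      have hm' : (1 : ℝ) ≤ m := by exact_mod_cast hm
      nlinarith

theorem Omr_eq (L : PeriodPair) (h2 : L.g₂ = 0) (h3 : L.g₃ = 4) :
    0 < Omr L ∧ Om L = Real.sqrt 3 * Omr L ^ 2 := by
  obtain ⟨c, hc, hOm, hl⟩ := T4_lattice L h2 h3
  rw [Omr_eq_aux L c hc hl, hOm]
  refine ⟨by positivity, ?_⟩
  ring

/-- Chunk T4, second part: 3 R0^2 / Omr^2 is a 3-adic unit: its product with e sq3/sqrt 3 (whose square is -1) is the unit of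
period_unit (R_real). -/
theorem Omr_unit (L : PeriodPair) (h2 : L.g₂ = 0) (h3 : L.g₃ = 4) :
    Unit3 (3 * R (e om - 1) ^ 2 / (Omr L : ℂ) ^ 2) := by
  obtain ⟨hpos, hOm⟩ := Omr_eq L h2 h3
  have h1 := period_unit L h2 h3
  rw [R_real, hOm] at h1
  have hO : (Omr L : ℂ) ≠ 0 := by exact_mod_cast hpos.ne'
  have hs3 : ((Real.sqrt 3 : ℝ) : ℂ) ^ 2 = 3 := by
    rw [← Complex.ofReal_pow, Real.sq_sqrt (by norm_num)]
    norm_num
  have hs0 : ((Real.sqrt 3 : ℝ) : ℂ) ≠ 0 := by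
    intro h
    rw [h] at hs3
    norm_num at hs3
  have hes : e sq3 ^ 2 = -3 := e_sq3
  refine Unit3.of_pow (n := 2) (by norm_num) ?_
  have e1 : (3 * R (e om - 1) ^ 2 / (Omr L : ℂ) ^ 2) ^ 2 =
      -(3 * R (e om - 1) * R (e om - 1) / ((Real.sqrt 3 * Omr L ^ 2 : ℝ) : ℂ) * e sq3) ^ 2 := by
    push_cast
    have e2 : (3 * R (e om - 1) * R (e om - 1) / (((Real.sqrt 3 : ℝ) : ℂ) * (Omr L : ℂ) ^ 2) * e sq3) ^ 2 =
        (3 * R (e om - 1) * R (e om - 1) / (Omr L : ℂ) ^ 2) ^ 2 * (e sq3 ^ 2 / ((Real.sqrt 3 : ℝ) : ℂ) ^ 2) := by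
      field_simp
    rw [e2, hes, hs3]
    ring
  rw [e1]
  have h4 := h1.pow 2
  intro A hA
  rw [Valuation.map_neg]
  exact h4 A hA

end H13E
end

-- from Lib.H55D.T4
section

open NumberField IsDedekindDomain

namespace H55D

open H55B H55C

/-! Chunk T4: the real period of y^2 + y = x^3. wp 1 is a positive real number (H13E.T4_wp_pos), so scaling LL by i c, c^6 = wp(1)^3, gives g_2 = 0,
g_3 = -1; the real elements of the lattice 3 i c Z[om] are the multiples of 3 sqrt 3 c. -/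

theorem T4_lattice (L : PeriodPair) (h2 : L.g₂ = 0) (h3 : L.g₃ = -1) :
    ∃ c : ℝ, 0 < c ∧ Om L = 9 * Real.sqrt 3 * c ^ 2 ∧
      ∀ x : ℂ, x ∈ L.lattice ↔ ∃ m n : ℤ, (m : ℂ) * ((c : ℂ) * Complex.I * 3) +
        n * ((c : ℂ) * Complex.I * (3 * e om)) = x := by
  obtain ⟨r, hr, hwr⟩ := H13E.T4_wp_pos
  set c : ℝ := Real.sqrt r with hc
  have hc0 : 0 < c := Real.sqrt_pos.2 hr
  have hc6 : c ^ 6 = r ^ 3 := by
    have h1 : c ^ 2 = r := Real.sq_sqrt hr.le
    calc c ^ 6 = (c ^ 2) ^ 3 := by ring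
      _ = r ^ 3 := by rw [h1]
  have hcc : (c : ℂ) * Complex.I ≠ 0 :=
    mul_ne_zero (by exact_mod_cast hc0.ne') Complex.I_ne_zero
  have hI6 : ((c : ℂ) * Complex.I) ^ 6 = -(r : ℂ) ^ 3 := by
    have hc6' : (c : ℂ) ^ 6 = (r : ℂ) ^ 3 := by exact_mod_cast congrArg (fun z : ℝ => (z : ℂ)) hc6
    rw [mul_pow, hc6', show (6 : ℕ) = 4 + 2 by norm_num, pow_add, Complex.I_pow_four, Complex.I_sq]
    ring
  have hL2 : (W1_L LL ((c : ℂ) * Complex.I) hcc).g₂ = 0 := by
    unfold PeriodPair.g₂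
    rw [W1_G]
    have h := g2_zero
    unfold PeriodPair.g₂ at h
    linear_combination (((c : ℂ) * Complex.I) ^ 4)⁻¹ * h
  have hL3 : (W1_L LL ((c : ℂ) * Complex.I) hcc).g₃ = -1 := by
    have h : (W1_L LL ((c : ℂ) * Complex.I) hcc).g₃ = (((c : ℂ) * Complex.I) ^ 6)⁻¹ * LL.g₃ := by
      unfold PeriodPair.g₃
      rw [W1_G]
      ring
    rw [h, A3_g3, hwr, hI6]
    have hr' : (r : ℂ) ≠ 0 := by exact_mod_cast hr.ne'
    field_simp
  have hlat := lattice_unique L (W1_L LL ((c : ℂ) * Complex.I) hcc) (h2.trans hL2.symm)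
    (h3.trans hL3.symm)
  refine ⟨c, hc0, ?_, ?_⟩
  · have h1 : Om L = Om (W1_L LL ((c : ℂ) * Complex.I) hcc) := Om_lattice _ _ hlat
    rw [h1]
    unfold Om
    show 2 * |((c : ℂ) * Complex.I * 3).re * ((c : ℂ) * Complex.I * (3 * e om)).im -
      ((c : ℂ) * Complex.I * 3).im * ((c : ℂ) * Complex.I * (3 * e om)).re| = _
    have e1 : ((c : ℂ) * Complex.I * 3).re * ((c : ℂ) * Complex.I * (3 * e om)).im -
        ((c : ℂ) * Complex.I * 3).im * ((c : ℂ) * Complex.I * (3 * e om)).re =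
        9 * c ^ 2 * (e om).im := by
      simp [Complex.mul_re, Complex.mul_im]
      ring
    rw [e1, abs_mul, abs_of_nonneg (by positivity : (0 : ℝ) ≤ 9 * c ^ 2)]
    have him : |(e om).im| = Real.sqrt 3 / 2 := by
      rw [← Real.sqrt_sq_eq_abs, A0_im, Real.sqrt_div (by norm_num)]
      congr 1
      rw [show (4 : ℝ) = 2 ^ 2 by norm_num, Real.sqrt_sq (by norm_num)]
    rw [him]
    ring
  · intro x
    rw [hlat, PeriodPair.mem_lattice]
    rfl

theorem T4_aux (L : PeriodPair) (c : ℝ) (hc : 0 < c)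
    (h : ∀ x : ℂ, x ∈ L.lattice ↔ ∃ m n : ℤ, (m : ℂ) * ((c : ℂ) * Complex.I * 3) +
        n * ((c : ℂ) * Complex.I * (3 * e om)) = x) :
    Omr L = 3 * Real.sqrt 3 * c := by
  have hre2 : (e om).re = -1 / 2 := e_om_re
  have him2 : (e om).im ^ 2 = 3 / 4 := A0_im
  have hs : Real.sqrt 3 ^ 2 = 3 := Real.sq_sqrt (by norm_num)
  have hsp : 0 < Real.sqrt 3 := Real.sqrt_pos.2 (by norm_num)
  have him3 : (e om).im = Real.sqrt 3 / 2 ∨ (e om).im = -(Real.sqrt 3 / 2) := by
    have h1 : ((e om).im - Real.sqrt 3 / 2) * ((e om).im + Real.sqrt 3 / 2) = 0 := by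
      nlinarith
    rcases mul_eq_zero.1 h1 with h2 | h2
    · left; linarith
    · right; linarith
  have hset : {x : ℝ | 0 < x ∧ (x : ℂ) ∈ L.lattice} =
      {x : ℝ | ∃ m : ℤ, 0 < m ∧ x = 3 * Real.sqrt 3 * c * m} := by
    ext x
    simp only [Set.mem_ofPred_eq]
    constructor
    · rintro ⟨hx, hm⟩
      obtain ⟨m, n, hmn⟩ := (h _).1 hm
      have him := congrArg Complex.im hmn
      have hre := congrArg Complex.re hmn
      simp [Complex.mul_re, Complex.mul_im, hre2] at him hre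
      have h1 : (m : ℝ) * (c * 3) + n * (c * (3 * (-1 / 2))) = 0 := by linarith
      have h2 : (2 : ℝ) * m = n := by
        have h3 : c * (3 / 2) * (2 * (m : ℝ) - n) = 0 := by linarith
        rcases mul_eq_zero.1 h3 with h4 | h4
        · exfalso
          have : 0 < c * (3 / 2) := by positivity
          linarith
        · linarith
      have h3 : x = -(6 * c * m * (e om).im) := by
        have h4 : -((n : ℝ) * (c * (3 * (e om).im))) = x := by linarith
        rw [← h4, ← h2]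
        ring
      rcases him3 with h4 | h4
      · refine ⟨-m, ?_, ?_⟩
        · rw [h4] at h3
          have h5 : (m : ℝ) < 0 := by
            by_contra hcon
            push Not at hcon
            have : 0 ≤ 6 * c * m * (Real.sqrt 3 / 2) := by positivity
            linarith
          have h6 : m < 0 := by exact_mod_cast h5
          omega
        · rw [h3, h4]
          push_cast
          ring
      · refine ⟨m, ?_, ?_⟩
        · rw [h4] at h3
          have h5 : 0 < (m : ℝ) := by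
            by_contra hcon
            push Not at hcon
            have : 0 ≤ 6 * c * (-(m : ℝ)) * (Real.sqrt 3 / 2) := by
              have : 0 ≤ -(m : ℝ) := by linarith
              positivity
            nlinarith
          exact_mod_cast h5
        · rw [h3, h4]
          ring
    · rintro ⟨m, hm, rfl⟩
      have hm' : (0 : ℝ) < m := by exact_mod_cast hm
      refine ⟨by positivity, (h _).2 ?_⟩
      rcases him3 with h4 | h4
      · refine ⟨-m, -(2 * m), ?_⟩
        apply Complex.ext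
        · simp [Complex.mul_re, Complex.mul_im, hre2, h4]
          ring
        · simp [Complex.mul_re, Complex.mul_im, hre2, h4]
          ring
      · refine ⟨m, 2 * m, ?_⟩
        apply Complex.ext
        · simp [Complex.mul_re, Complex.mul_im, hre2, h4]
          ring
        · simp [Complex.mul_re, Complex.mul_im, hre2, h4]
          ring
  unfold Omr
  rw [hset]
  apply le_antisymm
  · apply csInf_le
    · refine ⟨0, ?_⟩
      rintro x ⟨m, hm, rfl⟩
      have hm' : (0 : ℝ) < m := by exact_mod_cast hm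
      positivity
    · exact ⟨1, by norm_num, by push_cast; ring⟩
  · apply le_csInf
    · exact ⟨3 * Real.sqrt 3 * c, 1, by norm_num, by push_cast; ring⟩
    · rintro x ⟨m, hm, rfl⟩
      have hm' : (1 : ℝ) ≤ m := by exact_mod_cast hm
      have : 0 < 3 * Real.sqrt 3 * c := by positivity
      nlinarith

theorem Omr_eq (L : PeriodPair) (h2 : L.g₂ = 0) (h3 : L.g₃ = -1) :
    0 < Omr L ∧ Real.sqrt 3 * Om L = Omr L ^ 2 := by
  obtain ⟨c, hc, hOm, hl⟩ := T4_lattice L h2 h3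
  have hs : Real.sqrt 3 ^ 2 = 3 := Real.sq_sqrt (by norm_num)
  rw [T4_aux L c hc hl, hOm]
  have hsp : 0 < Real.sqrt 3 := Real.sqrt_pos.2 (by norm_num)
  refine ⟨by positivity, ?_⟩
  ring

theorem T4_of_pow {x : ℂ} {n : ℕ} (hn : n ≠ 0) (hx : Unit2 (x ^ n)) : Unit2 x := by
  intro A hA
  have h := hx A hA
  rw [map_pow] at h
  exact (pow_eq_one_iff_of_nonneg zero_le hn).1 h

theorem R0_Omr (L : PeriodPair) (h2 : L.g₂ = 0) (h3 : L.g₃ = -1) :
    Unit2 (H55N.R0 / (Omr L : ℂ)) ∧ Unit2 (H55N.R0 ^ 2 / (Om L : ℂ)) := by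
  obtain ⟨hpos, hOm⟩ := Omr_eq L h2 h3
  have h1 := period_unit L h2 h3
  rw [H13E.R_real] at h1
  have h1' : Unit2 (H55N.R0 ^ 2 / (Om L : ℂ)) := by
    have e1 : H55N.R0 ^ 2 / (Om L : ℂ) = R (e om - 1) * R (e om - 1) / (Om L : ℂ) := by
      unfold H55N.R0
      rw [sq]
    rw [e1]
    exact h1
  refine ⟨?_, h1'⟩
  have hO : (Omr L : ℂ) ≠ 0 := by exact_mod_cast hpos.ne'
  have hs3 : ((Real.sqrt 3 : ℝ) : ℂ) ^ 2 = 3 := by
    rw [← Complex.ofReal_pow, Real.sq_sqrt (by norm_num)]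
    norm_num
  have hs0 : ((Real.sqrt 3 : ℝ) : ℂ) ≠ 0 := by
    intro h
    rw [h] at hs3
    norm_num at hs3
  have hOm0 : (Om L : ℂ) ≠ 0 := by
    intro h
    have h5 : ((Real.sqrt 3 * Om L : ℝ) : ℂ) = ((Omr L ^ 2 : ℝ) : ℂ) := by rw [hOm]
    push_cast at h5
    rw [h, mul_zero] at h5
    exact pow_ne_zero 2 hO h5.symm
  have hOmc : (Omr L : ℂ) ^ 2 = ((Real.sqrt 3 : ℝ) : ℂ) * (Om L : ℂ) := by
    have h5 : ((Real.sqrt 3 * Om L : ℝ) : ℂ) = ((Omr L ^ 2 : ℝ) : ℂ) := by rw [hOm]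
    push_cast at h5
    exact h5.symm
  refine T4_of_pow (n := 4) (by norm_num) ?_
  have e1 : (H55N.R0 / (Omr L : ℂ)) ^ 4 = (H55N.R0 ^ 2 / (Om L : ℂ)) ^ 2 * (3 : ℂ)⁻¹ := by
    have e2 : (H55N.R0 / (Omr L : ℂ)) ^ 4 = (H55N.R0 ^ 2 / (Omr L : ℂ) ^ 2) ^ 2 := by
      field_simp
    rw [e2, hOmc, div_pow, div_pow, mul_pow, hs3]
    field_simp
  rw [e1]
  have h3u : Unit2 (3 : ℂ) := by
    intro A hA
    have h6 : A.valuation ((3 : ℕ) : ℂ) = 1 := val_odd A hA 3 (by decide)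
    have h7 : ((3 : ℕ) : ℂ) = 3 := by norm_num
    rwa [h7] at h6
  exact (h1'.pow 2).mul h3u.inv

end H55D
end

-- from Lib.H55P.Z2
section

open NumberField IsDedekindDomain

namespace H55P

open H55N
open H55B (F O om e emb Prim R LL wp)

/-! Chunk PZ2 (M). The period of y^2 + y = x^3, that is y^2 = x^3 + 1/4 after completing the square.
The lattice LF F (H55P/F0.lean) is the lattice of integers O (LF_mem or so), LL of H55B/A0.lean is 3 O, so G_n(LF F) = 3^n G_n(LL) (W1_scale, W1_G of H55C/W1.lean with c = 3 and the uniqueness of the lattice / equality of the sums over equal lattices: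
if the lattices of two period pairs agree then g₂, g₃ agree, they are sums over the lattice). g₂(LL) = 0 (g2_zero), g₃(LL) = wp(1)^3 (A3_g3), so g₃(LF F) = 3^6 wp(1)^3. R0^2 = 3 wp(1) (W2_R0_sq), e(2 om + 1)^2 = -3, so OmE^6 = -27 * 27 wp(1)^3 = -3^6 wp(1)^3.
Per: g₂ = 0, g₃ = -4 (1/4) OmE^6.
periodE: |OmE|^2 = 3 |R0|^2 = 9 |wp 1|; Om L = 9 sqrt 3 |wp 1| for the lattice with g₂ = 0, g₃ = -1 (exists_period in W2.lean and lattice_unique, Om_lattice as in W6.lean; or the formulas of H55D/T4.lean: Omr_eq), so the quotient is 1/sqrt 3, a unit outside 3.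
R0_Omr_P: PORT of R0_Omr of H55D/T4.lean: some power of R0/Omr is a power of 3 (see the proof there): a unit at V with V(3) = 1. -/

theorem PZ2_sq3 : e (2 * om + 1) ^ 2 = -3 := by
  have h2 : (2 * om + 1 : O) ^ 2 = -3 := by linear_combination 4 * H55B.om_rel
  rw [← map_pow, h2, map_neg, map_ofNat]

theorem PZ2_G (L L' : PeriodPair) (h : L.lattice = L'.lattice) (n : ℕ) : L.G n = L'.G n := by
  unfold PeriodPair.G
  rw [h]

theorem PZ2_lattice : (LF F).lattice =
    (H55C.W1_L LL (3 : ℂ)⁻¹ (inv_ne_zero (by norm_num))).lattice := by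
  ext z
  rw [mem_LF, PeriodPair.mem_lattice]
  constructor
  · rintro ⟨y, rfl⟩
    obtain ⟨a, b, hab⟩ := H55B.exists_repr y
    refine ⟨a, b, ?_⟩
    show (a : ℂ) * ((3 : ℂ)⁻¹ * 3) + (b : ℂ) * ((3 : ℂ)⁻¹ * (3 * e om)) = e y
    rw [hab, map_add, map_mul, map_intCast, map_intCast]
    ring
  · rintro ⟨m, n, h⟩
    refine ⟨m + n * om, ?_⟩
    rw [← h]
    show (m : ℂ) * ((3 : ℂ)⁻¹ * 3) + (n : ℂ) * ((3 : ℂ)⁻¹ * (3 * e om)) = e (m + n * om)
    rw [map_add, map_mul, map_intCast, map_intCast]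
    ring

theorem PZ2_GLF (n : ℕ) : (LF F).G n = 3 ^ n * LL.G n := by
  rw [PZ2_G _ _ PZ2_lattice, H55C.W1_G, inv_pow, inv_inv]

theorem PZ2_exists : ∃ L : PeriodPair, L.g₂ = 0 ∧ L.g₃ = -1 ∧
    (R (e om - 1) * (starRingEnd ℂ) (R (e om - 1)) / (H55C.Om L : ℂ)) ^ 2 * 27 = 1 := by
  have hp := H55B.A3_wp_one_ne
  obtain ⟨c, hc⟩ := IsAlgClosed.exists_pow_nat_eq (-(wp 1 ^ 3)) (n := 6) (by norm_num)
  have hc0 : c ≠ 0 := by
    rintro rfl
    rw [zero_pow (by norm_num)] at hc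
    exact pow_ne_zero 3 hp (by linear_combination hc)
  obtain ⟨L, h1, h2, h3⟩ := H55C.W1_scale LL c hc0
  refine ⟨L, ?_, ?_, ?_⟩
  · rw [h1, H55B.g2_zero, mul_zero]
  · rw [h2, H55B.A3_g3, hc]
    have := pow_ne_zero 3 hp
    field_simp
  · have hcn : ‖c‖ ^ 2 = ‖wp 1‖ := by
      have h4 := congrArg norm hc
      rw [norm_pow, norm_neg, norm_pow] at h4
      have h5 : (‖c‖ ^ 2) ^ 3 = ‖wp 1‖ ^ 3 := by rw [← h4]; ring
      exact (pow_left_inj₀ (by positivity) (by positivity) (by norm_num)).1 h5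
    have hR : ‖R (e om - 1)‖ ^ 2 = 3 * ‖wp 1‖ := by
      rw [← norm_pow, H55C.W2_R0_sq, norm_mul]
      norm_num
    set z : ℂ := R (e om - 1) * (starRingEnd ℂ) (R (e om - 1)) / (H55C.Om L : ℂ) with hz
    have him := H55B.A0_im
    have himne : |(e om).im| ≠ 0 := abs_ne_zero.2 H55B.A0_im_ne
    have hpn : ‖wp 1‖ ≠ 0 := norm_ne_zero_iff.2 hp
    have hz2 : z = ((1 / (6 * |(e om).im|) : ℝ) : ℂ) := by
      rw [hz, Complex.mul_conj, Complex.normSq_eq_norm_sq, hR, h3, hcn, H55C.W2_Om_LL,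
        ← Complex.ofReal_div]
      congr 1
      field_simp
      norm_num
    rw [hz2, ← Complex.ofReal_pow]
    have h4 : (1 / (6 * |(e om).im|)) ^ 2 * 27 = (1 : ℝ) := by
      rw [div_pow, mul_pow, sq_abs, him]
      norm_num
    exact_mod_cast h4

theorem PZ2_sq (L : PeriodPair) (g2 : L.g₂ = 0) (g3 : L.g₃ = -1) :
    (R0 * (starRingEnd ℂ) R0 / (H55C.Om L : ℂ)) ^ 2 * 27 = 1 := by
  obtain ⟨L', h2', h3', h⟩ := PZ2_exists
  rw [H55C.Om_lattice L L' (H55C.lattice_unique L L' (g2.trans h2'.symm) (g3.trans h3'.symm))]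
  exact h

theorem perE : Per F 0 (1 / 4) OmE := by
  refine ⟨?_, ?_, ?_⟩
  · unfold OmE
    refine mul_ne_zero ?_ E5_R0.2
    intro h
    have h1 := PZ2_sq3
    rw [h] at h1
    norm_num at h1
  · unfold PeriodPair.g₂
    rw [PZ2_GLF]
    have h := H55B.g2_zero
    unfold PeriodPair.g₂ at h
    linear_combination 81 * h
  · unfold PeriodPair.g₃
    rw [PZ2_GLF]
    have h := H55B.A3_g3
    unfold PeriodPair.g₃ at h
    have h1 : OmE ^ 6 = -729 * wp 1 ^ 3 := by
      have h2 : OmE ^ 6 = (e (2 * om + 1) ^ 2) ^ 3 * (R (e om - 1) ^ 2) ^ 3 := by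
        unfold OmE R0
        ring
      rw [h2, PZ2_sq3, H55C.W2_R0_sq]
      ring
    rw [h1]
    linear_combination 729 * h

theorem periodE (V : ValuationSubring ℂ) (h3 : V.valuation 3 = 1) (L : PeriodPair) (g2 : L.g₂ = 0)
    (g3 : L.g₃ = -1) :
    V.valuation (OmE * (starRingEnd ℂ) OmE / (H55C.Om L : ℂ)) = 1 := by
  have h1 := PZ2_sq L g2 g3
  have h2 : e (2 * om + 1) * (starRingEnd ℂ) (e (2 * om + 1)) = 3 := by
    rw [Complex.mul_conj, Complex.normSq_apply]
    have h4 : e (2 * om + 1) = 2 * e om + 1 := by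
      rw [map_add, map_mul, map_ofNat, map_one]
    have hre : (e (2 * om + 1)).re = 0 := by
      rw [h4]
      simp [Complex.add_re, Complex.mul_re, H55B.e_om_re]
      norm_num
    have him : (e (2 * om + 1)).im = 2 * (e om).im := by
      rw [h4]
      simp [Complex.add_im, Complex.mul_im]
    have h5 := H55B.A0_im
    have h6 : (e (2 * om + 1)).re * (e (2 * om + 1)).re +
        (e (2 * om + 1)).im * (e (2 * om + 1)).im = 3 := by
      rw [hre, him]
      linear_combination 4 * h5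
    rw [h6]
    norm_num
  have h4 : (OmE * (starRingEnd ℂ) OmE / (H55C.Om L : ℂ)) ^ 2 * 3 = 1 := by
    have h5 : OmE * (starRingEnd ℂ) OmE / (H55C.Om L : ℂ) =
        3 * (R0 * (starRingEnd ℂ) R0 / (H55C.Om L : ℂ)) := by
      unfold OmE
      rw [map_mul, ← h2]
      ring
    rw [h5]
    linear_combination h1
  have h5 := congrArg V.valuation h4
  rw [map_mul, map_pow, map_one, h3, mul_one] at h5
  exact (pow_eq_one_iff_of_nonneg zero_le two_ne_zero).1 h5

theorem R0_Omr_P (V : ValuationSubring ℂ) (h3 : V.valuation 3 = 1) (L : PeriodPair) (g2 : L.g₂ = 0)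
    (g3 : L.g₃ = -1) : V.valuation (R0 / (H55D.Omr L : ℂ)) = 1 ∧
      V.valuation (R0 ^ 2 / (H55C.Om L : ℂ)) = 1 := by
  obtain ⟨hpos, hOm⟩ := H55D.Omr_eq L g2 g3
  have h1 := PZ2_sq L g2 g3
  have hreal : (starRingEnd ℂ) R0 = R0 := H13E.R_real
  rw [hreal] at h1
  have h1' : V.valuation (R0 ^ 2 / (H55C.Om L : ℂ)) = 1 := by
    have h5 := congrArg V.valuation h1
    have h27 : V.valuation (27 : ℂ) = 1 := by
      have h6 : (27 : ℂ) = 3 ^ 3 := by norm_num
      rw [h6, map_pow, h3, one_pow]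
    rw [map_mul, map_pow, map_one, h27, mul_one, ← sq] at h5
    exact (pow_eq_one_iff_of_nonneg zero_le two_ne_zero).1 h5
  refine ⟨?_, h1'⟩
  have hO : (H55D.Omr L : ℂ) ≠ 0 := by exact_mod_cast hpos.ne'
  have hs3 : ((Real.sqrt 3 : ℝ) : ℂ) ^ 2 = 3 := by
    rw [← Complex.ofReal_pow, Real.sq_sqrt (by norm_num)]
    norm_num
  have hs0 : ((Real.sqrt 3 : ℝ) : ℂ) ≠ 0 := by
    intro h
    rw [h] at hs3
    norm_num at hs3
  have hOm0 : (H55C.Om L : ℂ) ≠ 0 := by
    intro h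
    have h5 : ((Real.sqrt 3 * H55C.Om L : ℝ) : ℂ) = ((H55D.Omr L ^ 2 : ℝ) : ℂ) := by rw [hOm]
    push_cast at h5
    rw [h, mul_zero] at h5
    exact pow_ne_zero 2 hO h5.symm
  have hOmc : (H55D.Omr L : ℂ) ^ 2 = ((Real.sqrt 3 : ℝ) : ℂ) * (H55C.Om L : ℂ) := by
    have h5 : ((Real.sqrt 3 * H55C.Om L : ℝ) : ℂ) = ((H55D.Omr L ^ 2 : ℝ) : ℂ) := by rw [hOm]
    push_cast at h5
    exact h5.symm
  have e1 : (R0 / (H55D.Omr L : ℂ)) ^ 4 = (R0 ^ 2 / (H55C.Om L : ℂ)) ^ 2 * (3 : ℂ)⁻¹ := by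
    have e2 : (R0 / (H55D.Omr L : ℂ)) ^ 4 = (R0 ^ 2 / (H55D.Omr L : ℂ) ^ 2) ^ 2 := by
      field_simp
    rw [e2, hOmc, div_pow, div_pow, mul_pow, hs3]
    field_simp
  have h5 := congrArg V.valuation e1
  rw [map_pow, map_mul, map_pow, h1', one_pow, one_mul, map_inv₀, h3, inv_one] at h5
  exact (pow_eq_one_iff_of_nonneg zero_le (by norm_num)).1 h5

/-- The square root of -3 is a unit outside 3. -/
theorem sq3_unit (V : ValuationSubring ℂ) (h3 : V.valuation 3 = 1) : V.valuation (e (2 * om + 1)) = 1 := by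
  have h2 : V.valuation (e (2 * om + 1)) ^ 2 = 1 := by
    rw [← map_pow, PZ2_sq3, Valuation.map_neg, h3]
  exact (pow_eq_one_iff_of_nonneg zero_le two_ne_zero).1 h2

end H55P
end
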