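import Mathlib
import Pool.Agent.Lib.H1M.PP.M010
import Pool.Agent.Lib.H1M.PP.M017
import Pool.Agent.Lib.H1M.PP.M047
import Pool.Agent.Lib.H1M.PP.M050

/-! Merged copies (to shorten the build) of Lib.H55K.C19, Lib.H55K.C4, Lib.H55K.C5, Lib.H55K.C7, Lib.H55K.C8, Lib.H55K.C9, Lib.H55K.C20, Lib.H55K.C24, Lib.H55K.C26, Lib.H55K.J3B, Lib.H55K.J3C, Lib.H55K.J6, Lib.H55K.J7, Lib.H55K.J8. -/

-- from Lib.H55K.C19
section

open NumberField WeierstrassCurve Polynomial

namespace H55K.CC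

open H55P (IQ embF eF LF Per Pt ac mem_LF eF_inj eF_ne Nm Nm_eq)
open H35P (WAB)

variable {F : Type} [Field F] [NumberField F] [IQ F] {Ω : Type} [Field Ω] [DecidableEq Ω] [Algebra F Ω]
  {A B : F} {Om : ℂ} {j : Ω →+* ℂ} {act : 𝓞 F →+* AddMonoid.End (Pt (WAB A B) Ω)}

/-! Chunk C19 (S/M). ζ by choice from U_ex. T in S: act b T = 0 and T <> 0, so e(b) ζ T in Λ, ζ T not in Λ (U.zero_iff, hact). ζ T - ζ T' in Λ gives T = T' (U_mod, U_inj). ex: w with e(b) w in Λ, w not in Λ: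
a point T with U T w (U_tors, lat_nm), T in S, w - ζ T in Λ (U_mod). -/

theorem TN_rep [IsAlgClosed Ω] (h : CH A B Om j) (hact : Act A B Om j act) {b : 𝓞 F} (hb : b ≠ 0)
    {S : Finset (Pt (WAB A B) Ω)} (hS : TN act b S) : ∃ (ζ : Pt (WAB A B) Ω → ℂ) (R : Finset ℂ),
      (∀ T, U A B Om j T (ζ T)) ∧ Rep (LF F) (eF F b) R ∧ (∀ φ : ℂ → ℂ, ∑ r ∈ R, φ r = ∑ T ∈ S, φ (ζ T)) ∧
      ∀ φ : ℂ → ℂ, ∏ r ∈ R, φ r = ∏ T ∈ S, φ (ζ T) := by
  classical
  have hz : ∀ P : Pt (WAB A B) Ω, ∃ z, U A B Om j P z := U_ex h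
  choose ζ hζ using hz
  have hb0 : eF F b ≠ 0 := eF_ne hb
  have hkill : ∀ T : Pt (WAB A B) Ω, act b T = 0 ↔ eF F b * ζ T ∈ (LF F).lattice := fun T =>
    (hact b T _ (hζ T)).zero_iff
  have hinj : ∀ T T' : Pt (WAB A B) Ω, ζ T - ζ T' ∈ (LF F).lattice → T = T' := by
    intro T T' h1
    exact U_inj h ((U_mod h (hζ T)).2 h1) (hζ T')
  have hinj' : Set.InjOn ζ (S : Set (Pt (WAB A B) Ω)) := by
    intro T _ T' _ h1
    refine hinj T T' ?_
    rw [h1, sub_self]
    exact zero_mem _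
  refine ⟨ζ, S.image ζ, hζ, ⟨hb0, ?_, ?_, ?_, ?_, ?_⟩, fun φ => Finset.sum_image hinj',
    fun φ => Finset.prod_image hinj'⟩
  · intro l hl
    obtain ⟨y, hy⟩ := (mem_LF _).1 hl
    rw [hy, ← map_mul]
    exact (mem_LF _).2 ⟨b * y, rfl⟩
  · intro r hr
    obtain ⟨T, hT, rfl⟩ := Finset.mem_image.1 hr
    exact (hkill T).1 ((hS T).1 hT).1
  · intro r hr
    obtain ⟨T, hT, rfl⟩ := Finset.mem_image.1 hr
    intro h1
    exact ((hS T).1 hT).2 ((hζ T).zero_iff.2 h1)
  · intro r hr r' hr' h1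
    obtain ⟨T, hT, rfl⟩ := Finset.mem_image.1 hr
    obtain ⟨T', hT', rfl⟩ := Finset.mem_image.1 hr'
    rw [hinj T T' h1]
  · intro w hw
    by_cases hw0 : w ∈ (LF F).lattice
    · exact Or.inl hw0
    · right
      obtain ⟨h1, h2⟩ := lat_nm hb hw
      obtain ⟨T, hT⟩ := U_tors h h1 h2
      have hT0 : T ≠ 0 := fun h3 => hw0 (hT.zero_iff.1 h3)
      have hTb : act b T = 0 := (hact b T _ hT).zero_iff.2 hw
      refine ⟨ζ T, Finset.mem_image_of_mem _ ((hS T).2 ⟨hTb, hT0⟩), ?_⟩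
      exact (U_mod h hT).1 (hζ T)

end H55K.CC
end

-- from Lib.H55K.C4
section

namespace H55K.CC

open H28G (Od)

/-! Chunk C4 (M). od_wp: z in Λ: for t near z, t <> z: wp t = wp(t - z) = ((t-z)^2)^(-1) + u(t - z) (H35P.wp_zero, wp_per), so wp t - wp w = (t-z)^(-2) (1 + (t-z)^2 (u(t-z) - wp w)).
z not in Λ, z - w or z + w in Λ: wp z = wp w (wp_per, L.weierstrassP_neg), the derivative wp' z is not 0 by H35P.wpd_ne (2 z is not in Λ since 2 w is not): H28G.Od.of_simple.
Otherwise wp z <> wp w by H35P.wp_ne: H28G.Od.of_ne. ind_wp: case distinctions (w, 2w not in Λ: the three conditions exclude each other). -/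

open Classical in
theorem od_wp (L : PeriodPair) {w : ℂ} (hw : w ∉ L.lattice) (h2 : 2 * w ∉ L.lattice) (z : ℂ) :
    Od (fun t => L.weierstrassP t - L.weierstrassP w) z
      (if z ∈ L.lattice then -2 else if z - w ∈ L.lattice ∨ z + w ∈ L.lattice then 1 else 0) := by
  by_cases hz : z ∈ L.lattice
  · rw [if_pos hz]
    obtain ⟨u, hu, hu0, hu1⟩ := H35P.wp_zero L
    refine ⟨fun t => 1 + (t - z) ^ 2 * (u (t - z) - L.weierstrassP w), ?_, ?_, ?_⟩
    · have h1 : AnalyticAt ℂ (fun t : ℂ => t - z) z := analyticAt_id.sub analyticAt_const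
      have h2 : AnalyticAt ℂ (fun t : ℂ => u (t - z)) z := by
        refine AnalyticAt.fun_comp ?_ h1
        rwa [sub_self]
      exact analyticAt_const.add ((h1.pow 2).mul (h2.sub analyticAt_const))
    · simp
    · filter_upwards [self_mem_nhdsWithin] with t ht
      have ht0 : t - z ≠ 0 := sub_ne_zero.2 ht
      have h1 : L.weierstrassP t = L.weierstrassP (t - z) := by
        have := wp_per L (t - z) hz
        rwa [sub_add_cancel] at this
      rw [h1, hu1 _ ht0]
      have h2 : (t - z) ^ (-2 : ℤ) = ((t - z) ^ 2)⁻¹ := by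
        rw [zpow_neg]
        rfl
      rw [h2]
      field_simp
      ring
  · rw [if_neg hz]
    have hand : AnalyticAt ℂ (fun t => L.weierstrassP t - L.weierstrassP w) z :=
      (H35P.wp_analytic L z hz).sub analyticAt_const
    by_cases hc : z - w ∈ L.lattice ∨ z + w ∈ L.lattice
    · rw [if_pos hc]
      have hval : L.weierstrassP z = L.weierstrassP w := by
        rcases hc with hc | hc
        · have := wp_per L w hc
          rwa [add_sub_cancel] at this
        · have := wp_per L (-w) hc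
          rw [L.weierstrassP_neg] at this
          have e1 : -w + (z + w) = z := by ring
          rwa [e1] at this
      have h2z : 2 * z ∉ L.lattice := by
        intro h
        apply h2
        rcases hc with hc | hc
        · have h3 := sub_mem (sub_mem h hc) hc
          have e1 : 2 * z - (z - w) - (z - w) = 2 * w := by ring
          rwa [e1] at h3
        · have h3 := sub_mem (add_mem hc hc) h
          have e1 : z + w + (z + w) - 2 * z = 2 * w := by ring
          rwa [e1] at h3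
      refine Od.of_simple hand ?_ ?_
      · rw [hval, sub_self]
      · rw [((H35P.wp_hasDeriv L z hz).sub_const _).deriv]
        exact H35P.wpd_ne L z hz h2z
    · rw [if_neg hc]
      push Not at hc
      exact Od.of_ne hand (sub_ne_zero.2 (H35P.wp_ne L z w hz hw hc.2 hc.1))

open Classical in
theorem ind_wp (L : PeriodPair) {w : ℂ} (hw : w ∉ L.lattice) (h2 : 2 * w ∉ L.lattice) (z : ℂ) :
    (if z ∈ L.lattice then (-2 : ℤ) else if z - w ∈ L.lattice ∨ z + w ∈ L.lattice then 1 else 0) =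
    -2 * (if z ∈ L.lattice then 1 else 0) + (if z - w ∈ L.lattice then 1 else 0) +
      (if z + w ∈ L.lattice then 1 else 0) := by
  by_cases hz : z ∈ L.lattice
  · have h3 : z - w ∉ L.lattice := by
      intro h
      apply hw
      have h4 := sub_mem hz h
      have e1 : z - (z - w) = w := by ring
      rwa [e1] at h4
    have h4 : z + w ∉ L.lattice := by
      intro h
      apply hw
      have h4 := sub_mem h hz
      have e1 : z + w - z = w := by ring
      rwa [e1] at h4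
    rw [if_pos hz, if_pos hz, if_neg h3, if_neg h4]
    norm_num
  · rw [if_neg hz, if_neg hz]
    by_cases h3 : z - w ∈ L.lattice
    · have h4 : z + w ∉ L.lattice := by
        intro h
        apply h2
        have h4 := sub_mem h h3
        have e1 : z + w - (z - w) = 2 * w := by ring
        rwa [e1] at h4
      rw [if_pos (Or.inl h3), if_pos h3, if_neg h4]
      norm_num
    · by_cases h4 : z + w ∈ L.lattice
      · rw [if_pos (Or.inr h4), if_neg h3, if_pos h4]
        norm_num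
      · rw [if_neg (not_or.2 ⟨h3, h4⟩), if_neg h3, if_neg h4]
        norm_num

end H55K.CC
end

-- from Lib.H55K.C5
section

namespace H55K.CC

/-! Chunk C5 (S/M). At most one term of the left side is 1: y + r, y + r' in Λ gives r - r' in Λ (h.inj, h.out; r or r' may be 0). If β y in Λ: h.ex for -y gives r in insert 0 S with y + r in Λ.
Conversely y + r in Λ gives β y in Λ (h.st, h.mem). Model: GB3_sum in Lib/H28G/GB3.lean. -/

theorem c5_inj {L : PeriodPair} {β : ℂ} {S : Finset ℂ} (h : Rep L β S) {r r' : ℂ}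
    (hr : r ∈ insert 0 S) (hr' : r' ∈ insert 0 S) (hd : r - r' ∈ L.lattice) : r = r' := by
  rw [Finset.mem_insert] at hr hr'
  rcases hr with rfl | hr
  · rcases hr' with rfl | hr'
    · rfl
    · exfalso
      apply h.out r' hr'
      rw [zero_sub] at hd
      simpa using neg_mem hd
  · rcases hr' with rfl | hr'
    · exfalso
      apply h.out r hr
      rwa [sub_zero] at hd
    · exact h.inj r hr r' hr' hd

open Classical in
theorem count_rep {L : PeriodPair} {β : ℂ} {S : Finset ℂ} (h : Rep L β S) (y : ℂ) :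
    (∑ r ∈ insert 0 S, if y + r ∈ L.lattice then (1 : ℤ) else 0) = if β * y ∈ L.lattice then 1 else 0 := by
  by_cases hQ : β * y ∈ L.lattice
  · rw [if_pos hQ]
    have hex : ∃ r ∈ insert 0 S, y + r ∈ L.lattice := by
      have h1 : β * (-y) ∈ L.lattice := by
        rw [mul_neg]
        exact neg_mem hQ
      rcases h.ex (-y) h1 with h2 | ⟨r, hr, h2⟩
      · refine ⟨0, Finset.mem_insert_self _ _, ?_⟩
        rw [add_zero]
        simpa using neg_mem h2
      · refine ⟨r, Finset.mem_insert_of_mem hr, ?_⟩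
        have h3 := neg_mem h2
        have h4 : -(-y - r) = y + r := by ring
        rwa [h4] at h3
    obtain ⟨r, hr, h1⟩ := hex
    rw [Finset.sum_eq_single_of_mem r hr]
    · exact if_pos h1
    · intro r' hr' hne
      refine if_neg fun h2 => hne (c5_inj h hr' hr ?_)
      have h3 := sub_mem h2 h1
      have h4 : y + r' - (y + r) = r' - r := by ring
      rwa [h4] at h3
  · rw [if_neg hQ]
    refine Finset.sum_eq_zero fun r hr => if_neg fun h2 => hQ ?_
    have h3 := h.st _ h2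
    have h4 : β * r ∈ L.lattice := by
      rw [Finset.mem_insert] at hr
      rcases hr with rfl | hr
      · rw [mul_zero]
        exact zero_mem _
      · exact h.mem r hr
    have h5 := sub_mem h3 h4
    have h6 : β * (y + r) - β * r = β * y := by ring
    rwa [h6] at h5

end H55K.CC
end

-- from Lib.H55K.C7
section

namespace H55K.CC

open H28G (Od)

/-! Chunk C7 (M). G z = product over r in insert 0 S of (wp(z + r) - wp w), H z = wp(β z) - wp(β w), both periodic (wp_per, h.st). w, 2 w are not in Λ (h.st). Orders: G at z0: Od.prod, Od.comp_add, od_wp at z0 + r;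
H at z0: Od.comp_mul (h.ne), od_wp at β z0 (for β w). Equal: ind_wp and count_rep for y = z0, z0 - w, z0 + w: (z0 + r) -+ w = (z0 -+ w) + r, β (z0 -+ w) = β z0 -+ β w (Finset.sum_add_distrib, Finset.mul_sum).
quot_const: G = c H near every point (punctured). Then at z with β z not in Λ both sides are continuous (Rep.z_out, Rep.zr_out), so G z = c H z (tendsto_nhds_unique on nhdsWithin z {z}ᶜ, see GB5_point in
Lib/H28G/GB5.lean). -/

theorem E2_aux {L : PeriodPair} {β : ℂ} {S : Finset ℂ} (h : Rep L β S) {w : ℂ} (hw : β * w ∉ L.lattice)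
    (h2 : 2 * (β * w) ∉ L.lattice) : ∃ c : ℂ, c ≠ 0 ∧ ∀ z, β * z ∉ L.lattice →
      ∏ r ∈ insert 0 S, (L.weierstrassP (z + r) - L.weierstrassP w) =
        c * (L.weierstrassP (β * z) - L.weierstrassP (β * w)) := by
  classical
  have hw0 : w ∉ L.lattice := h.z_out hw
  have hw2 : 2 * w ∉ L.lattice := by
    intro h0
    apply h2
    have h1 := h.st _ h0
    have e1 : β * (2 * w) = 2 * (β * w) := by ring
    rwa [e1] at h1
  obtain ⟨G, hG⟩ : ∃ G : ℂ → ℂ, G = fun z => ∏ r ∈ insert 0 S, (L.weierstrassP (z + r) - L.weierstrassP w) :=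
    ⟨_, rfl⟩
  obtain ⟨H, hH⟩ : ∃ H : ℂ → ℂ, H = fun z => L.weierstrassP (β * z) - L.weierstrassP (β * w) := ⟨_, rfl⟩
  have pG : ∀ z, ∀ l ∈ L.lattice, G (z + l) = G z := by
    intro z l hl
    rw [hG]
    refine Finset.prod_congr rfl fun r _ => ?_
    have e1 : z + l + r = z + r + l := by ring
    rw [e1, wp_per L _ hl]
  have pH : ∀ z, ∀ l ∈ L.lattice, H (z + l) = H z := by
    intro z l hl
    rw [hH]
    show L.weierstrassP (β * (z + l)) - L.weierstrassP (β * w) = L.weierstrassP (β * z) - L.weierstrassP (β * w)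
    rw [mul_add, wp_per L _ (h.st l hl)]
  have nH : ∀ z, Od H z (if β * z ∈ L.lattice then -2 else
      if β * z - β * w ∈ L.lattice ∨ β * z + β * w ∈ L.lattice then 1 else 0) := by
    intro z
    rw [hH]
    exact Od.comp_mul h.ne (od_wp L hw h2 (β * z))
  have nG : ∀ z, Od G z (if β * z ∈ L.lattice then -2 else
      if β * z - β * w ∈ L.lattice ∨ β * z + β * w ∈ L.lattice then 1 else 0) := by
    intro z
    have h1 := Od.prod (insert 0 S) (g := fun r t => L.weierstrassP (t + r) - L.weierstrassP w) (z₀ := z)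
      (n := fun r => if z + r ∈ L.lattice then -2 else
        if z + r - w ∈ L.lattice ∨ z + r + w ∈ L.lattice then 1 else 0)
      (fun r _ => Od.comp_add (od_wp L hw0 hw2 (z + r)))
    have h3 : (∑ r ∈ insert 0 S, (if z + r ∈ L.lattice then (-2 : ℤ) else
        if z + r - w ∈ L.lattice ∨ z + r + w ∈ L.lattice then 1 else 0)) =
        if β * z ∈ L.lattice then -2 else
        if β * z - β * w ∈ L.lattice ∨ β * z + β * w ∈ L.lattice then 1 else 0 := by
      have h4 : ∀ r, (if z + r ∈ L.lattice then (-2 : ℤ) else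
          if z + r - w ∈ L.lattice ∨ z + r + w ∈ L.lattice then 1 else 0) =
          -2 * (if z + r ∈ L.lattice then 1 else 0) + (if z - w + r ∈ L.lattice then 1 else 0) +
          (if z + w + r ∈ L.lattice then 1 else 0) := by
        intro r
        rw [ind_wp L hw0 hw2 (z + r), show z + r - w = z - w + r by ring, show z + r + w = z + w + r by ring]
      rw [Finset.sum_congr rfl fun r _ => h4 r, Finset.sum_add_distrib, Finset.sum_add_distrib, ← Finset.mul_sum,
        count_rep h z, count_rep h (z - w), count_rep h (z + w), ind_wp L hw h2 (β * z), mul_sub, mul_add]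
    rw [h3] at h1
    rw [hG]
    exact h1
  obtain ⟨c, hc, hcz⟩ := quot_const L G H pG pH _ nG nH
  refine ⟨c, hc, fun z hz => ?_⟩
  have cG : ContinuousAt G z := by
    rw [hG]
    refine tendsto_finsetProd _ fun r hr => ?_
    have hzr : z + r ∉ L.lattice := by
      rw [Finset.mem_insert] at hr
      rcases hr with rfl | hr
      · rw [add_zero]
        exact h.z_out hz
      · exact h.zr_out hz hr
    have h1 : ContinuousAt (fun t : ℂ => L.weierstrassP (t + r)) z :=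
      ContinuousAt.comp (f := fun t : ℂ => t + r) (g := L.weierstrassP) (H35P.wp_analytic L _ hzr).continuousAt
        (continuous_add_right r).continuousAt
    exact h1.sub continuousAt_const
  have cH : ContinuousAt H z := by
    rw [hH]
    have h1 : ContinuousAt (fun t : ℂ => L.weierstrassP (β * t)) z :=
      ContinuousAt.comp (f := fun t : ℂ => β * t) (g := L.weierstrassP) (H35P.wp_analytic L _ hz).continuousAt
        (continuous_const_mul β).continuousAt
    exact h1.sub continuousAt_const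
  have e1 : G z = c * H z := by
    have t1 : Filter.Tendsto G (nhdsWithin z {z}ᶜ) (nhds (G z)) := cG.tendsto.mono_left nhdsWithin_le_nhds
    have t2 : Filter.Tendsto (fun t => c * H t) (nhdsWithin z {z}ᶜ) (nhds (c * H z)) :=
      (cH.tendsto.const_mul c).mono_left nhdsWithin_le_nhds
    exact tendsto_nhds_unique (t1.congr' (hcz z)) t2
  rw [hG, hH] at e1
  exact e1

end H55K.CC
end

-- from Lib.H55K.C8
section

namespace H55K.CC

/-! Chunk C8 (M). Let c be from E2_aux. For z near 0, z <> 0: β z not in Λ (H35P.ev_compl, H35P.tendsto_punct). Multiply by z^2 and let z -> 0 (punctured): z^2 wp z -> 1 (H35P.wp_zero: z^2 wp z = 1 + z^2 u z), so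
z^2 (wp z - wp w) -> 1 and the left side tends to the product over r in S of (wp r - wp w) (0 is not in S: h.out; continuity of wp at r); z^2 (wp(β z) - wp(β w)) -> 1/β^2. So
c = β^2 prod over S of (wp r - wp w) (tendsto_nhds_unique). Then E2 for z by E2_aux, Finset.prod_insert. -/

theorem E2_gen {L : PeriodPair} {β : ℂ} {S : Finset ℂ} (h : Rep L β S) {z w : ℂ} (hz : β * z ∉ L.lattice)
    (hw : β * w ∉ L.lattice) (h2 : 2 * (β * w) ∉ L.lattice) :
    β ^ 2 * (L.weierstrassP (β * z) - L.weierstrassP (β * w)) * ∏ r ∈ S, (L.weierstrassP r - L.weierstrassP w) =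
      (L.weierstrassP z - L.weierstrassP w) * ∏ r ∈ S, (L.weierstrassP (z + r) - L.weierstrassP w) := by
  obtain ⟨c, hc0, hc⟩ := E2_aux h hw h2
  have h0S : (0 : ℂ) ∉ S := fun h0 => h.out 0 h0 (zero_mem _)
  have hc' : ∀ z, β * z ∉ L.lattice →
      (L.weierstrassP z - L.weierstrassP w) * ∏ r ∈ S, (L.weierstrassP (z + r) - L.weierstrassP w) =
        c * (L.weierstrassP (β * z) - L.weierstrassP (β * w)) := by
    intro z hz
    rw [← hc z hz, Finset.prod_insert h0S, add_zero]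
  obtain ⟨u, hu, hu0, hu2⟩ := H35P.wp_zero L
  have huc : ContinuousAt u 0 := hu.continuousAt
  have hβ := h.ne
  have hev : ∀ᶠ z in nhdsWithin (0 : ℂ) {0}ᶜ, β * z ∉ L.lattice := by
    have ht := H35P.tendsto_punct (fun z : ℂ => β * z) 0 (by fun_prop)
      (fun x y hxy => mul_left_cancel₀ hβ hxy)
    exact ht.eventually (H35P.ev_compl L _)
  have hL : Filter.Tendsto (fun z : ℂ => (1 + z ^ 2 * u z - z ^ 2 * L.weierstrassP w) *
      ∏ r ∈ S, (L.weierstrassP (z + r) - L.weierstrassP w)) (nhdsWithin (0 : ℂ) {0}ᶜ)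
      (nhds (∏ r ∈ S, (L.weierstrassP r - L.weierstrassP w))) := by
    have h3 : ContinuousAt (fun z : ℂ => (1 + z ^ 2 * u z - z ^ 2 * L.weierstrassP w) *
      ∏ r ∈ S, (L.weierstrassP (z + r) - L.weierstrassP w)) 0 := by
      refine ContinuousAt.mul (by fun_prop) ?_
      refine tendsto_finsetProd _ fun r hr => ?_
      have h4 : ContinuousAt L.weierstrassP (0 + r) := by
        rw [zero_add]
        exact (H35P.wp_analytic L r (h.out r hr)).continuousAt
      have h5 : ContinuousAt (fun z : ℂ => L.weierstrassP (z + r)) 0 :=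
        ContinuousAt.comp (f := fun z : ℂ => z + r) h4 (by fun_prop)
      exact (h5.sub continuousAt_const)
    have h6 := h3.tendsto
    simp only [zero_add, ne_eq, OfNat.ofNat_ne_zero, not_false_eq_true, zero_pow, zero_mul, add_zero, sub_zero,
      one_mul] at h6
    exact h6.mono_left nhdsWithin_le_nhds
  have hR : Filter.Tendsto (fun z : ℂ => c * ((β ^ 2)⁻¹ + z ^ 2 * u (β * z) - z ^ 2 * L.weierstrassP (β * w)))
      (nhdsWithin (0 : ℂ) {0}ᶜ) (nhds (c * (β ^ 2)⁻¹)) := by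
    have h4 : ContinuousAt u (β * 0) := by rwa [mul_zero]
    have h5 : ContinuousAt (fun z : ℂ => u (β * z)) 0 :=
      ContinuousAt.comp (f := fun z : ℂ => β * z) h4 (by fun_prop)
    have h3 : ContinuousAt (fun z : ℂ => c * ((β ^ 2)⁻¹ + z ^ 2 * u (β * z) - z ^ 2 * L.weierstrassP (β * w))) 0 := by
      fun_prop
    have h6 := h3.tendsto
    simp only [ne_eq, OfNat.ofNat_ne_zero, not_false_eq_true, zero_pow, zero_mul, add_zero, sub_zero] at h6
    exact h6.mono_left nhdsWithin_le_nhds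
  have heq : ∀ᶠ z in nhdsWithin (0 : ℂ) {0}ᶜ, (1 + z ^ 2 * u z - z ^ 2 * L.weierstrassP w) *
      ∏ r ∈ S, (L.weierstrassP (z + r) - L.weierstrassP w) =
      c * ((β ^ 2)⁻¹ + z ^ 2 * u (β * z) - z ^ 2 * L.weierstrassP (β * w)) := by
    filter_upwards [hev, self_mem_nhdsWithin] with z hz1 hz2
    have hz0 : z ≠ 0 := hz2
    have h3 := hc' z hz1
    have e1 : 1 + z ^ 2 * u z - z ^ 2 * L.weierstrassP w = z ^ 2 * (L.weierstrassP z - L.weierstrassP w) := by
      rw [hu2 z hz0]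
      field_simp
    have e2 : (β ^ 2)⁻¹ + z ^ 2 * u (β * z) - z ^ 2 * L.weierstrassP (β * w) =
        z ^ 2 * (L.weierstrassP (β * z) - L.weierstrassP (β * w)) := by
      rw [hu2 (β * z) (mul_ne_zero hβ hz0)]
      field_simp
    rw [e1, e2, mul_assoc, h3]
    ring
  have hlim := tendsto_nhds_unique (hL.congr' heq) hR
  have hcc : c = β ^ 2 * ∏ r ∈ S, (L.weierstrassP r - L.weierstrassP w) := by
    rw [hlim]
    field_simp
  rw [hc' z hz, hcc]
  ring

end H55K.CC
end

-- from Lib.H55K.C9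
section

namespace H55K.CC

/-! Chunk C9 (S/M): continuity in w. For t near w, t <> w: β t not in Λ (open condition, H35P.compl_open) and 2 (β t) not in Λ (H35P.ev_compl at 2 β w, H35P.tendsto_punct for t -> 2 (β t)), so E2_gen holds for z, t.
Both sides are continuous functions of t at w (wp is continuous at w and at β w), so they agree at w: tendsto_nhds_unique on nhdsWithin w {w}ᶜ. -/

theorem c9_cont (L : PeriodPair) {z : ℂ} (hz : z ∉ L.lattice) : ContinuousAt L.weierstrassP z :=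
  (H35P.wp_hasDeriv L z hz).continuousAt

/-- (E2) -/
theorem E2 {L : PeriodPair} {β : ℂ} {S : Finset ℂ} (h : Rep L β S) {z w : ℂ} (hz : β * z ∉ L.lattice)
    (hw : β * w ∉ L.lattice) :
    β ^ 2 * (L.weierstrassP (β * z) - L.weierstrassP (β * w)) * ∏ r ∈ S, (L.weierstrassP r - L.weierstrassP w) =
      (L.weierstrassP z - L.weierstrassP w) * ∏ r ∈ S, (L.weierstrassP (z + r) - L.weierstrassP w) := by
  have hw' : w ∉ L.lattice := h.z_out hw
  have c1 : ContinuousAt (fun t : ℂ => L.weierstrassP t) w := c9_cont L hw'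
  have c2 : ContinuousAt (fun t : ℂ => L.weierstrassP (β * t)) w :=
    ContinuousAt.comp (f := fun t : ℂ => β * t) (c9_cont L hw) (by fun_prop)
  have hA : ContinuousAt (fun t : ℂ => β ^ 2 * (L.weierstrassP (β * z) - L.weierstrassP (β * t)) *
      ∏ r ∈ S, (L.weierstrassP r - L.weierstrassP t)) w := by
    refine (continuousAt_const.mul (continuousAt_const.sub c2)).mul ?_
    exact tendsto_finsetProd S fun r _ => (continuousAt_const.sub c1 : ContinuousAt _ w)
  have hB : ContinuousAt (fun t : ℂ => (L.weierstrassP z - L.weierstrassP t) *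
      ∏ r ∈ S, (L.weierstrassP (z + r) - L.weierstrassP t)) w := by
    refine (continuousAt_const.sub c1).mul ?_
    exact tendsto_finsetProd S fun r _ => (continuousAt_const.sub c1 : ContinuousAt _ w)
  have hinj : Function.Injective fun t : ℂ => 2 * (β * t) := by
    intro t t' htt
    exact mul_left_cancel₀ h.ne (mul_left_cancel₀ two_ne_zero htt)
  have e1 : ∀ᶠ t in nhdsWithin w {w}ᶜ, 2 * (β * t) ∉ L.lattice :=
    (H35P.tendsto_punct (fun t : ℂ => 2 * (β * t)) w (by fun_prop) hinj).eventually (H35P.ev_compl L _)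
  have e2 : ∀ᶠ t in nhdsWithin w {w}ᶜ, β * t ∉ L.lattice := by
    apply Filter.Eventually.filter_mono nhdsWithin_le_nhds
    have h3 : ContinuousAt (fun t : ℂ => β * t) w := by fun_prop
    exact h3.eventually ((H35P.compl_open L).mem_nhds hw)
  have e3 : (fun t : ℂ => β ^ 2 * (L.weierstrassP (β * z) - L.weierstrassP (β * t)) *
      ∏ r ∈ S, (L.weierstrassP r - L.weierstrassP t)) =ᶠ[nhdsWithin w {w}ᶜ]
      fun t : ℂ => (L.weierstrassP z - L.weierstrassP t) *
      ∏ r ∈ S, (L.weierstrassP (z + r) - L.weierstrassP t) := by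
    filter_upwards [e1, e2] with t h1 h2
    exact E2_gen h hz h2 h1
  have t1 := hA.tendsto.mono_left (nhdsWithin_le_nhds (s := {w}ᶜ))
  have t2 := hB.tendsto.mono_left (nhdsWithin_le_nhds (s := {w}ᶜ))
  exact tendsto_nhds_unique t1 (t2.congr' e3.symm)

end H55K.CC
end

-- from Lib.H55K.C20
section

open NumberField WeierstrassCurve Polynomial

namespace H55K.CC

open H55P (IQ embF eF LF Per Pt ac mem_LF eF_inj eF_ne Nm Nm_eq)
open H35P (WAB)

variable {F : Type} [Field F] [NumberField F] [IQ F] {Ω : Type} [Field Ω] [DecidableEq Ω] [Algebra F Ω]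
  {A B : F} {Om : ℂ} {j : Ω →+* ℂ} {act : 𝓞 F →+* AddMonoid.End (Pt (WAB A B) Ω)}

/-! Chunk C20 (M). Apply the injective j (map_sum, map_prod; j(ak Ω a) = e(a) by h.ovr). ζ, R from TN_rep; z with U P z (U_ex); U (act a P) (e(a) z) and act a P <> 0, so e(a) z not in Λ (U.zero_iff), and
z, z + ζ T not in Λ for T in S (act a (P + T) = act a P <> 0; or Rep.zr_out). xc, yc of P, P + T, T, act a P by U.xc_eq, U.yc_eq, U_add. Then E1, E1d, E2 divided by powers of Om (∑ f/Om^2 = (∑ f)/Om^2, Finset.sum_div; in e2 both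
products have the same number of factors: write wp = Om^2 XL, Finset.prod_congr, Finset.prod_mul_distrib, Finset.prod_const). -/

theorem c20_out (hact : Act A B Om j act) {b : 𝓞 F} {P : Pt (WAB A B) Ω} (hP : act b P ≠ 0)
    {z : ℂ} (hz : U A B Om j P z) : eF F b * z ∉ (LF F).lattice := fun h0 =>
  hP ((hact b P z hz).zero_iff.2 h0)

theorem c20_T {b : 𝓞 F} {S : Finset (Pt (WAB A B) Ω)} (hS : TN act b S) {ζ : Pt (WAB A B) Ω → ℂ}
    (hζ : ∀ T, U A B Om j T (ζ T)) {T : Pt (WAB A B) Ω} (hT : T ∈ S) : ζ T ∉ (LF F).lattice := fun h0 =>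
  ((hS T).1 hT).2 ((hζ T).zero_iff.2 h0)

theorem c20_PT (h : CH A B Om j) {b : 𝓞 F} {S : Finset (Pt (WAB A B) Ω)} (hS : TN act b S)
    {ζ : Pt (WAB A B) Ω → ℂ} (hζ : ∀ T, U A B Om j T (ζ T)) {P : Pt (WAB A B) Ω} (hP : act b P ≠ 0)
    {z : ℂ} (hz : U A B Om j P z) {T : Pt (WAB A B) Ω} (hT : T ∈ S) : z + ζ T ∉ (LF F).lattice := by
  intro h0
  have h1 := (U_add h hz (hζ T)).zero_iff.2 h0
  apply hP
  have h2 : act b (P + T) = act b P := by rw [map_add, ((hS T).1 hT).1, add_zero]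
  rw [← h2, h1, map_zero]

theorem act_e1x [IsAlgClosed Ω] (h : CH A B Om j) (hact : Act A B Om j act) {a : 𝓞 F} (ha : a ≠ 0)
    {S : Finset (Pt (WAB A B) Ω)} (hS : TN act a S) {P : Pt (WAB A B) Ω} (hP : act a P ≠ 0) :
    ak Ω a ^ 2 * xc (act a P) = xc P + ∑ T ∈ S, (xc (P + T) - xc T) := by
  obtain ⟨ζ, R, hζ, hR, hsum, -⟩ := TN_rep h hact ha hS
  obtain ⟨z, hz⟩ := U_ex h P
  have h1 := c20_out hact hP hz
  have h2 := hR.z_out h1
  apply j.injective
  have e0 : j (ak Ω a) = eF F a := h.ovr (a : F)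
  rw [map_mul, map_pow, map_add, map_sum, e0, (hact a P z hz).xc_eq h1, hz.xc_eq h2]
  have e1 : ∀ T ∈ S, j (xc (P + T) - xc T) = XL (LF F) Om (z + ζ T) - XL (LF F) Om (ζ T) := by
    intro T hT
    rw [map_sub, (U_add h hz (hζ T)).xc_eq (c20_PT h hS hζ hP hz hT), (hζ T).xc_eq (c20_T hS hζ hT)]
  rw [Finset.sum_congr rfl e1]
  have e2 := E1 hR h1
  rw [hsum (fun r => (LF F).weierstrassP (z + r) - (LF F).weierstrassP r)] at e2
  unfold XL
  rw [mul_div_assoc', e2, add_div, Finset.sum_div]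
  congr 1
  exact Finset.sum_congr rfl fun r _ => by rw [sub_div]

theorem act_e1y [IsAlgClosed Ω] (h : CH A B Om j) (hact : Act A B Om j act) {a : 𝓞 F} (ha : a ≠ 0)
    {S : Finset (Pt (WAB A B) Ω)} (hS : TN act a S) {P : Pt (WAB A B) Ω} (hP : act a P ≠ 0) :
    ak Ω a ^ 3 * yc (act a P) = yc P + ∑ T ∈ S, yc (P + T) := by
  obtain ⟨ζ, R, hζ, hR, hsum, -⟩ := TN_rep h hact ha hS
  obtain ⟨z, hz⟩ := U_ex h P
  have h1 := c20_out hact hP hz
  have h2 := hR.z_out h1
  apply j.injective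
  have e0 : j (ak Ω a) = eF F a := h.ovr (a : F)
  rw [map_mul, map_pow, map_add, map_sum, e0, (hact a P z hz).yc_eq h1, hz.yc_eq h2]
  have e1 : ∀ T ∈ S, j (yc (P + T)) = YL (LF F) Om (z + ζ T) := by
    intro T hT
    rw [(U_add h hz (hζ T)).yc_eq (c20_PT h hS hζ hP hz hT)]
  rw [Finset.sum_congr rfl e1]
  have e2 := E1d hR h1
  rw [hsum (fun r => (LF F).derivWeierstrassP (z + r))] at e2
  unfold YL
  rw [mul_div_assoc', e2, add_div, Finset.sum_div]

theorem act_e2 [IsAlgClosed Ω] (h : CH A B Om j) (hact : Act A B Om j act) {b : 𝓞 F} (hb : b ≠ 0)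
    {S : Finset (Pt (WAB A B) Ω)} (hS : TN act b S) {P Q : Pt (WAB A B) Ω} (hP : act b P ≠ 0) (hQ : act b Q ≠ 0) :
    ak Ω b ^ 2 * (xc (act b P) - xc (act b Q)) * ∏ R ∈ S, (xc R - xc Q) =
      (xc P - xc Q) * ∏ R ∈ S, (xc (P + R) - xc Q) := by
  obtain ⟨ζ, R, hζ, hR, -, hprod⟩ := TN_rep h hact hb hS
  obtain ⟨z, hz⟩ := U_ex h P
  obtain ⟨w, hw⟩ := U_ex h Q
  have h1 := c20_out hact hP hz
  have h2 := hR.z_out h1
  have h3 := c20_out hact hQ hw
  have h4 := hR.z_out h3
  apply j.injective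
  have e0 : j (ak Ω b) = eF F b := h.ovr (b : F)
  rw [map_mul, map_mul, map_mul, map_pow, map_sub, map_sub, map_prod, map_prod, e0,
    (hact b P z hz).xc_eq h1, (hact b Q w hw).xc_eq h3, hz.xc_eq h2, hw.xc_eq h4]
  have e1 : ∀ T ∈ S, j (xc T - xc Q) = ((LF F).weierstrassP (ζ T) - (LF F).weierstrassP w) / Om ^ 2 := by
    intro T hT
    rw [map_sub, (hζ T).xc_eq (c20_T hS hζ hT), hw.xc_eq h4]
    unfold XL
    rw [sub_div]
  have e1' : ∀ T ∈ S, j (xc (P + T) - xc Q) =
      ((LF F).weierstrassP (z + ζ T) - (LF F).weierstrassP w) / Om ^ 2 := by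
    intro T hT
    rw [map_sub, (U_add h hz (hζ T)).xc_eq (c20_PT h hS hζ hP hz hT), hw.xc_eq h4]
    unfold XL
    rw [sub_div]
  rw [Finset.prod_congr rfl e1, Finset.prod_congr rfl e1', Finset.prod_div_distrib, Finset.prod_div_distrib]
  have e2 := E2 hR h1 h3
  rw [hprod (fun r => (LF F).weierstrassP r - (LF F).weierstrassP w),
    hprod (fun r => (LF F).weierstrassP (z + r) - (LF F).weierstrassP w)] at e2
  unfold XL
  rw [← sub_div, ← sub_div, ← mul_div_assoc (eF F b ^ 2), div_mul_div_comm, div_mul_div_comm, e2]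

end H55K.CC
end

-- from Lib.H55K.C24
section

open NumberField WeierstrassCurve Polynomial

namespace H55K.CC

open H55P (IQ embF eF LF Per Pt ac mem_LF eF_inj eF_ne Nm Nm_eq)
open H35P (WAB)

variable {F : Type} [Field F] [NumberField F] [IQ F] {Ω : Type} [Field Ω] [DecidableEq Ω] [Algebra F Ω]
  {A B : F} {Om : ℂ} {j : Ω →+* ℂ}

/-! Chunk C24 (M). mr_ode: for z with β z not in Λ, x = XL z: square mr_deriv, yl_sq for z and β z, XL(β z) = N(x)/D(x): β^2 D (N^3 + A N D^2 + B D^3) = f (N'D - ND')^2 at x (multiply out D <> 0). The values x: every c is XL z for some z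
not in Λ (wp_surj, Om <> 0); if β z in Λ then z = r modulo Λ for some r in S (h.ex), c = XL r. So the two sides agree at all x outside the finite set XL(S): Polynomial.eq_of_infinite_eval_eq (the complement of a finite
set of ℂ is infinite). exists_ND: exists_ND0, mr_ode for (LF F), N.map j, D.map j (h.per, g2, g3; Rep from exists_Rep), the identity is the image under Polynomial.map j (injective: Polynomial.map_injective) of the identity over Ω
(derivative_map, map_mul ..., j(algebraMap F Ω A) = embF F A). -/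

theorem mr_ode {L : PeriodPair} {A B Om β : ℂ} (hO : Om ≠ 0) (g2 : L.g₂ = -4 * A * Om ^ 4)
    (g3 : L.g₃ = -4 * B * Om ^ 6) {S : Finset ℂ} (hS : Rep L β S) {N D : Polynomial ℂ} (h : MR L Om β N D) :
    (X ^ 3 + C A * X + C B) * (derivative N * D - N * derivative D) ^ 2 =
      C (β ^ 2) * D * (N ^ 3 + C A * N * D ^ 2 + C B * D ^ 3) := by
  classical
  refine Polynomial.eq_of_infinite_eval_eq _ _ ?_
  refine (Set.Finite.infinite_compl (Finset.finite_toSet (S.image (XL L Om)))).mono ?_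
  intro c hc
  obtain ⟨z, hz, hzc⟩ := wp_surj L (c * Om ^ 2)
  have hx : XL L Om z = c := by
    unfold XL
    rw [hzc, mul_div_cancel_right₀ _ (pow_ne_zero 2 hO)]
  have hb : β * z ∉ L.lattice := by
    intro h1
    rcases hS.ex z h1 with h2 | ⟨r, hr, h2⟩
    · exact hz h2
    · apply hc
      rw [Finset.mem_coe, Finset.mem_image]
      refine ⟨r, hr, ?_⟩
      rw [← hx]
      unfold XL
      rw [show z = r + (z - r) by ring, wp_per L r h2]
  obtain ⟨d0, e1⟩ := h z hb
  have e2 := mr_deriv hO hS.st h hb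
  have e3 := yl_sq L hO g2 g3 hz
  have e4 := yl_sq L hO g2 g3 hb
  rw [hx] at d0 e1 e2 e3
  change eval c _ = eval c _
  set Z := (derivative N * D - N * derivative D).eval c with hZ
  have e5 : eval c ((X ^ 3 + C A * X + C B) * (derivative N * D - N * derivative D) ^ 2) =
      (c ^ 3 + A * c + B) * Z ^ 2 := by
    rw [eval_mul, eval_pow, ← hZ]
    simp
  have e6 : eval c (C (β ^ 2) * D * (N ^ 3 + C A * N * D ^ 2 + C B * D ^ 3)) =
      β ^ 2 * D.eval c * (N.eval c ^ 3 + A * N.eval c * D.eval c ^ 2 + B * D.eval c ^ 3) := by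
    simp
  rw [e5, e6, ← e3, ← e1]
  have e7 : (β * YL L Om (β * z) * D.eval c ^ 2) ^ 2 = (Z * YL L Om z) ^ 2 := by rw [e2]
  linear_combination -e7 + β ^ 2 * D.eval c ^ 4 * e4

theorem exists_ND [IsAlgClosed Ω] (h : CH A B Om j) {a : 𝓞 F} (ha : a ≠ 0) : ∃ (d : ℕ) (N D : Polynomial Ω),
    ND (ak Ω a) (algebraMap F Ω A) (algebraMap F Ω B) d N D ∧ MR (LF F) Om (eF F a) (N.map j) (D.map j) := by
  obtain ⟨d, N, D, h1, h2, h3, h4, h5⟩ := exists_ND0 h ha
  obtain ⟨S, hS⟩ := exists_Rep (F := F) ha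
  refine ⟨d, N, D, ⟨h1, h2, h3, h4, ?_⟩, h5⟩
  have h6 := mr_ode h.per.ne h.per.g2 h.per.g3 hS h5
  apply Polynomial.map_injective j j.injective
  simp only [Polynomial.map_mul, Polynomial.map_add, Polynomial.map_pow, Polynomial.map_sub, map_X, map_C,
    ← derivative_map, h.ovr, map_pow]
  rw [Polynomial.C_pow] at h6
  exact h6

end H55K.CC
end

-- from Lib.H55K.C26
section

open NumberField WeierstrassCurve Polynomial

namespace H55K.CC

open H55P (IQ embF eF LF Per Pt ac mem_LF eF_inj eF_ne Nm Nm_eq)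
open H35P (WAB)

variable {F : Type} [Field F] [NumberField F] [IQ F] {Ω : Type} [Field Ω] [DecidableEq Ω] [Algebra F Ω]
  {A B : F} {Om : ℂ} {j : Ω →+* ℂ} {act : 𝓞 F →+* AddMonoid.End (Pt (WAB A B) Ω)}

/-! Chunk C26 (S/M). z with U P z (U_ex); U (act a P) (e(a) z), act a P <> 0 so e(a) z not in Λ and z not in Λ (U.zero_iff; act a 0 = 0). MR and mr_deriv at z (h.per.ne; the lattice is stable under e(a): mem_LF); XL z = j(xc P) etc.
(U.xc_eq, U.yc_eq), (N.map j).eval (j x) = j (N.eval x) (Polynomial.eval_map_apply / eval₂_at_apply, derivative_map, map_mul, map_sub), j(ak Ω a) = e(a) (h.ovr), injectivity of j. -/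

theorem act_xy (h : CH A B Om j) (hact : Act A B Om j act) {a : 𝓞 F} {N D : Polynomial Ω}
    (hM : MR (LF F) Om (eF F a) (N.map j) (D.map j)) {P : Pt (WAB A B) Ω} (hP : act a P ≠ 0) :
    D.eval (xc P) ≠ 0 ∧ xc (act a P) * D.eval (xc P) = N.eval (xc P) ∧
    ak Ω a * yc (act a P) * D.eval (xc P) ^ 2 =
      (derivative N * D - N * derivative D).eval (xc P) * yc P := by
  obtain ⟨z, hz⟩ := U_ex h P
  have hQ := hact a P z hz
  have haz : eF F a * z ∉ (LF F).lattice := fun h1 => hP ((hQ.zero_iff).2 h1)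
  have st : ∀ l ∈ (LF F).lattice, eF F a * l ∈ (LF F).lattice := by
    intro l hl
    obtain ⟨y, rfl⟩ := (mem_LF l).1 hl
    exact (mem_LF _).2 ⟨a * y, by rw [map_mul]⟩
  have hz0 : z ∉ (LF F).lattice := fun h1 => haz (st z h1)
  have ha : j (ak Ω a) = eF F a := h.ovr _
  have hx := hz.xc_eq hz0
  have hy := hz.yc_eq hz0
  have hX := hQ.xc_eq haz
  have hY := hQ.yc_eq haz
  obtain ⟨h1, h2⟩ := hM z haz
  have h3 := mr_deriv h.per.ne st hM haz
  have ev : ∀ (p : Polynomial Ω) (x : Ω), (p.map j).eval (j x) = j (p.eval x) := fun p x => by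
    rw [Polynomial.eval_map, Polynomial.eval₂_at_apply]
  rw [← hx, ev] at h1
  rw [← hx, ← hX, ev, ev] at h2
  rw [← hx, ← hY, ← hy, ev, derivative_map, derivative_map, ← Polynomial.map_mul, ← Polynomial.map_mul,
    ← Polynomial.map_sub, ev, ← ha] at h3
  refine ⟨fun h4 => h1 (by rw [h4, map_zero]), ?_, ?_⟩
  · apply j.injective
    rw [map_mul]
    exact h2
  · apply j.injective
    rw [map_mul, map_mul, map_mul, map_pow]
    exact h3

end H55K.CC
end

-- from Lib.H55K.J3B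
section

open NumberField WeierstrassCurve

namespace H55K.JJ

open H35P (WAB Ker IntW)

variable {k : Type} [Field k] [DecidableEq k] [IsAlgClosed k] {W : WeierstrassCurve k} {V : ValuationSubring k}

theorem j3b_xu {κ : Type} [Field κ] {u w : κ} (hu : u ≠ 1) (hw : w ≠ 1) (h : xu u = xu w) : u = w ∨ u * w = 1 := by
  unfold xu at h
  have h1 : (u - 1) ^ 2 ≠ 0 := pow_ne_zero 2 (sub_ne_zero.2 hu)
  have h2 : (w - 1) ^ 2 ≠ 0 := pow_ne_zero 2 (sub_ne_zero.2 hw)
  rw [div_eq_div_iff h1 h2] at h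
  have h3 : (u - w) * (u * w - 1) = 0 := by linear_combination -h
  rcases mul_eq_zero.1 h3 with h4 | h4
  · exact Or.inl (sub_eq_zero.1 h4)
  · exact Or.inr (sub_eq_zero.1 h4)

theorem j3b_w {κ : Type} [Field κ] [Infinite κ] (a b : κ) (ha : a ≠ 0) :
    ∃ w : κ, w ≠ 0 ∧ w ≠ 1 ∧ w ≠ a ∧ w ≠ a⁻¹ ∧ w ≠ b ∧ w ≠ b⁻¹ ∧ a * w ^ 2 ≠ b := by
  classical
  have hfin : {w : κ | a * w ^ 2 = b}.Finite := by
    by_cases hex : ∃ w₀, a * w₀ ^ 2 = b
    · obtain ⟨w₀, h0⟩ := hex
      refine (Set.toFinite ({w₀, -w₀} : Set κ)).subset ?_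
      intro w hw
      have hw' : a * w ^ 2 = b := hw
      have h1 : w ^ 2 = w₀ ^ 2 := mul_left_cancel₀ ha (by rw [hw', h0])
      rcases sq_eq_sq_iff_eq_or_eq_neg.1 h1 with h2 | h2
      · exact Or.inl h2
      · exact Or.inr h2
    · refine Set.finite_empty.subset ?_
      intro w hw
      exact absurd ⟨w, hw⟩ hex
  have hT : (({0, 1, a, a⁻¹, b, b⁻¹} : Set κ) ∪ {w : κ | a * w ^ 2 = b}).Finite := (Set.toFinite _).union hfin
  obtain ⟨w, hw⟩ := hT.exists_notMem
  rw [Set.mem_union, not_or] at hw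
  obtain ⟨h1, h2⟩ := hw
  simp only [Set.mem_insert_iff, Set.mem_singleton_iff, not_or] at h1
  exact ⟨w, h1.1, h1.2.1, h1.2.2.1, h1.2.2.2.1, h1.2.2.2.2.1, h1.2.2.2.2.2, h2⟩

/-! Chunk J3B (M). xu_eq: xu u = xu w iff u = w or u w = 1 (u, w <> 1, <> 0). ub_mul: a = ub P, b = ub Q, a b <> 1. Choose w in the infinite residue field (res_inf) outside the finite set of the w with w = 0, w = 1, w = a, a w = 1, b w = 1, w = b,
a w^2 = b (at most 2 roots of a nonzero polynomial), R with ub R = w (ex_fn). fn_add for (P, R): P1 = P + R, ub = a w; for (Q, -R) (fn_neg): P2 = Q - R, ub = b w^(-1); for (P1, P2): a w <> b w^(-1), a w b w^(-1) = a b <> 1: P1 + P2 = P + Q.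
ub_mul': if ub P * ub Q = 1 then ub P = ub (-Q), so Ker (P + Q) (rd_fn). ker_shift: P in Ker, R in Fn: P + R is in E0 (e0_add, e0_iff), not in Ker (R = (P + R) - P, H35P.ker_sub), so Fn. If ub (P + R) <> ub R then ub_mul for (P + R, -R) gives Fn P:
contradiction (ker_fn). -/
theorem ub_mul (h : Nod W V) (hΔ : W.Δ ≠ 0) {P Q : W.toAffine.Point} (hP : Fn V P) (hQ : Fn V Q)
    (hu : ub V P * ub V Q ≠ 1) : Fn V (P + Q) ∧ ub V (P + Q) = ub V P * ub V Q := by
  have := res_inf V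
  obtain ⟨-, a0, a1, a2, -, -⟩ := fn_ub h hP
  obtain ⟨-, b0, b1, b2, -, -⟩ := fn_ub h hQ
  obtain ⟨w, w0, w1, wa, wa', wb, wb', wab⟩ := j3b_w (ub V P) (ub V Q) a0
  obtain ⟨R, hR, hRw⟩ := ex_fn h hΔ w0 w1
  obtain ⟨-, r0, r1, r2, -, -⟩ := fn_ub h hR
  obtain ⟨hnR, hnRu⟩ := fn_neg h hR
  obtain ⟨-, n0, n1, n2, -, -⟩ := fn_ub h hnR
  have h1 : rs V (xc P) ≠ rs V (xc R) := by
    rw [a2, r2]
    intro e
    rcases j3b_xu a1 r1 e with e1 | e1
    · rw [hRw] at e1
      exact wa e1.symm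
    · rw [hRw] at e1
      exact wa' (eq_inv_of_mul_eq_one_right e1)
  obtain ⟨hP1, hu1⟩ := fn_add h hP hR h1
  have h2 : rs V (xc Q) ≠ rs V (xc (-R)) := by
    rw [b2, n2]
    intro e
    rcases j3b_xu b1 n1 e with e1 | e1
    · rw [hnRu, hRw] at e1
      apply wb'
      rw [e1, inv_inv]
    · rw [hnRu, hRw] at e1
      have e2 := eq_inv_of_mul_eq_one_left e1
      rw [inv_inv] at e2
      exact wb e2.symm
  obtain ⟨hP2, hu2⟩ := fn_add h hQ hnR h2
  obtain ⟨-, -, c1, c2, -, -⟩ := fn_ub h hP1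
  obtain ⟨-, -, d1, d2, -, -⟩ := fn_ub h hP2
  have h3 : rs V (xc (P + R)) ≠ rs V (xc (Q + -R)) := by
    rw [c2, d2]
    intro e
    rcases j3b_xu c1 d1 e with e1 | e1
    · rw [hu1, hu2, hnRu, hRw] at e1
      apply wab
      have e2 : ub V P * w * w = ub V Q * w⁻¹ * w := by rw [e1]
      rw [inv_mul_cancel_right₀ w0] at e2
      rw [← e2]
      ring
    · rw [hu1, hu2, hnRu, hRw] at e1
      apply hu
      rw [← e1]
      field_simp
  obtain ⟨hs, hus⟩ := fn_add h hP1 hP2 h3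
  have e : P + R + (Q + -R) = P + Q := by abel
  rw [e] at hs hus
  refine ⟨hs, ?_⟩
  rw [hus, hu1, hu2, hnRu, hRw]
  field_simp

theorem ub_mul' (h : Nod W V) (hΔ : W.Δ ≠ 0) {P Q : W.toAffine.Point} (hP : Fn V P) (hQ : Fn V Q)
    (hk : ¬ Ker V (P + Q)) : Fn V (P + Q) ∧ ub V (P + Q) = ub V P * ub V Q := by
  refine ub_mul h hΔ hP hQ ?_
  intro hu
  apply hk
  obtain ⟨hnQ, hnu⟩ := fn_neg h hQ
  have e : ub V P = ub V (-Q) := by
    rw [hnu]
    exact eq_inv_of_mul_eq_one_left hu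
  have h1 := rd_fn h hP hnQ e
  rwa [sub_neg_eq_add] at h1

theorem ker_shift (h : Nod W V) (hΔ : W.Δ ≠ 0) {P R : W.toAffine.Point} (hP : Ker V P) (hR : Fn V R) :
    Fn V (P + R) ∧ ub V (P + R) = ub V R := by
  have h1 : E0 V (P + R) := e0_add h (e0_iff.2 (Or.inl hP)) (e0_iff.2 (Or.inr hR))
  have h2 : ¬ Ker V (P + R) := by
    intro hk
    have h3 := H35P.ker_sub h.intW (P + R) P hk hP
    rw [add_sub_cancel_left] at h3
    exact ker_fn hR h3
  have h3 : Fn V (P + R) := (e0_iff.1 h1).resolve_left h2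
  refine ⟨h3, ?_⟩
  by_contra hne
  obtain ⟨hnR, hnu⟩ := fn_neg h hR
  obtain ⟨-, r0, -, -, -, -⟩ := fn_ub h hR
  have h4 := (ub_mul h hΔ h3 hnR (by
    rw [hnu]
    intro e
    apply hne
    have e1 := eq_inv_of_mul_eq_one_left e
    rwa [inv_inv] at e1)).1
  rw [add_neg_cancel_right] at h4
  exact ker_fn h4 hP

end H55K.JJ
end

-- from Lib.H55K.J3C
section

set_option autoImplicit false

/-! Chunk J3C (M). ub_nsmul: induction on n ≥ 1: n • P + P, ub (n • P) * ub P = ub P^(n+1) <> 1, ub_mul. ub_prod: for T, T' in S: ub (T + T') = ub T * ub T' (T = 0 or T' = 0: ub_zero; T + T' = 0: fn_neg; otherwise T + T' is a nonzero element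
of S, so Fn, so not Ker: ub_mul'). Injective on S: ub T = ub T': both nonzero: Ker (T - T') (rd_fn), T - T' in S, so T - T' = 0 (ker_fn); one zero: ub T = 1 is impossible for Fn T (fn_ub). S.card • T = 0 for T in S (S is a finite group: Lagrange), so
ub T ^ S.card = 1. The S.card different values are roots of the monic polynomial X^(S.card) - 1 of degree S.card: it is the product of the X - ub T (e.g. Polynomial.prod_multiset_X_sub_C_of_monic_of_roots_card_eq, or
Multiset/Finset: the product divides it and both are monic of the same degree). -/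

open NumberField WeierstrassCurve

namespace H55K.JJ

open H35P (WAB Ker IntW)

open Polynomial

variable {k : Type} [Field k] [DecidableEq k] [IsAlgClosed k] {W : WeierstrassCurve k} {V : ValuationSubring k}

theorem ub_nsmul (h : Nod W V) (hΔ : W.Δ ≠ 0) {P : W.toAffine.Point} (hP : Fn V P) {n : ℕ} (hn : 0 < n)
    (hu : ∀ m : ℕ, 0 < m → m ≤ n → ub V P ^ m ≠ 1) : Fn V (n • P) ∧ ub V (n • P) = ub V P ^ n := by
  induction n with
  | zero => exact absurd hn (lt_irrefl 0)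
  | succ n ih =>
    rcases Nat.eq_zero_or_pos n with h0 | h0
    · subst h0
      rw [zero_add, one_smul, pow_one]
      exact ⟨hP, rfl⟩
    · obtain ⟨h1, h2⟩ := ih h0 fun m hm hmn => hu m hm (by omega)
      have h3 : ub V (n • P) * ub V P = ub V P ^ (n + 1) := by rw [h2, pow_succ]
      have h4 := ub_mul h hΔ h1 hP (by rw [h3]; exact hu (n + 1) (Nat.succ_pos n) le_rfl)
      rw [succ_nsmul]
      exact ⟨h4.1, by rw [h4.2, h3]⟩

theorem j3c_mul (h : Nod W V) (hΔ : W.Δ ≠ 0) (S : Finset W.toAffine.Point) (h0 : 0 ∈ S)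
    (hs : ∀ T ∈ S, ∀ T' ∈ S, T - T' ∈ S) (hF : ∀ T ∈ S, T ≠ 0 → Fn V T)
    {T T' : W.toAffine.Point} (hT : T ∈ S) (hT' : T' ∈ S) :
    ub V (T + T') = ub V T * ub V T' := by
  by_cases h1 : T = 0
  · rw [h1, zero_add, ub_zero, one_mul]
  by_cases h2 : T' = 0
  · rw [h2, add_zero, ub_zero, mul_one]
  have hf := hF T hT h1
  by_cases h3 : T + T' = 0
  · have h4 : T' = -T := (neg_eq_of_add_eq_zero_right h3).symm
    rw [h3, ub_zero, h4, (fn_neg h hf).2, mul_inv_cancel₀ (fn_ub h hf).2.1]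
  · have h5 : T + T' ∈ S := by
      have h6 : -T' ∈ S := by
        have := hs 0 h0 T' hT'
        rwa [zero_sub] at this
      have := hs T hT (-T') h6
      rwa [sub_neg_eq_add] at this
    exact (ub_mul' h hΔ hf (hF T' hT' h2) (ker_fn (hF _ h5 h3))).2

theorem j3c_inj (h : Nod W V) (S : Finset W.toAffine.Point)
    (hs : ∀ T ∈ S, ∀ T' ∈ S, T - T' ∈ S) (hF : ∀ T ∈ S, T ≠ 0 → Fn V T)
    {T T' : W.toAffine.Point} (hT : T ∈ S) (hT' : T' ∈ S) (hu : ub V T = ub V T') : T = T' := by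
  by_cases h1 : T = 0
  · by_cases h2 : T' = 0
    · rw [h1, h2]
    · rw [h1, ub_zero] at hu
      exact absurd hu.symm (fn_ub h (hF T' hT' h2)).2.2.1
  · by_cases h2 : T' = 0
    · rw [h2, ub_zero] at hu
      exact absurd hu (fn_ub h (hF T hT h1)).2.2.1
    · have hk := rd_fn h (hF T hT h1) (hF T' hT' h2) hu
      by_contra hne
      exact ker_fn (hF _ (hs T hT T' hT') (sub_ne_zero.2 hne)) hk

theorem ub_prod (h : Nod W V) (hΔ : W.Δ ≠ 0) (S : Finset W.toAffine.Point) (h0 : 0 ∈ S)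
    (hs : ∀ T ∈ S, ∀ T' ∈ S, T - T' ∈ S) (hF : ∀ T ∈ S, T ≠ 0 → Fn V T) :
    ∏ T ∈ S, (X - C (ub V T)) = X ^ S.card - 1 := by
  classical
  have hcpos : 0 < S.card := Finset.card_pos.2 ⟨0, h0⟩
  -- the group
  have hneg : ∀ T ∈ S, -T ∈ S := fun T hT => by
    have := hs 0 h0 T hT
    rwa [zero_sub] at this
  have hadd : ∀ T ∈ S, ∀ T' ∈ S, T + T' ∈ S := fun T hT T' hT' => by
    have := hs T hT (-T') (hneg T' hT')
    rwa [sub_neg_eq_add] at this
  let G : AddSubgroup W.toAffine.Point :=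
    { carrier := (S : Set W.toAffine.Point)
      zero_mem' := h0
      add_mem' := fun {a b} ha hb => hadd a ha b hb
      neg_mem' := fun {a} ha => hneg a ha }
  have hcard : Nat.card G = S.card := by
    have h1 : Nat.card G = Nat.card (S : Set W.toAffine.Point) := rfl
    rw [h1]
    simp
  have hnT : ∀ T ∈ S, S.card • T = 0 := by
    intro T hT
    have h1 : Nat.card G • (⟨T, hT⟩ : G) = 0 := card_nsmul_eq_zero'
    rw [hcard] at h1
    have h2 := congrArg (Subtype.val : G → W.toAffine.Point) h1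
    exact h2
  have hpow : ∀ T ∈ S, ∀ n : ℕ, n • T ∈ S ∧ ub V (n • T) = ub V T ^ n := by
    intro T hT n
    induction n with
    | zero =>
      rw [zero_smul, pow_zero, ub_zero]
      exact ⟨h0, rfl⟩
    | succ n ih =>
      rw [succ_nsmul, pow_succ, ← ih.2]
      exact ⟨hadd _ ih.1 _ hT, j3c_mul h hΔ S h0 hs hF ih.1 hT⟩
  have hroot : ∀ T ∈ S, ub V T ^ S.card = 1 := by
    intro T hT
    rw [← (hpow T hT S.card).2, hnT T hT, ub_zero]
  have hinj : Set.InjOn (fun T => ub V T) (S : Set W.toAffine.Point) :=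
    fun T hT T' hT' hu => j3c_inj h S hs hF hT hT' hu
  have hic : (S.image fun T => ub V T).card = S.card := Finset.card_image_of_injOn hinj
  have hm1 : (∏ T ∈ S, (X - C (ub V T))).Monic := monic_prod_of_monic _ _ fun T _ => monic_X_sub_C _
  have hm2 : (X ^ S.card - 1 : (IsLocalRing.ResidueField V)[X]).Monic :=
    monic_X_pow_sub_C (1 : IsLocalRing.ResidueField V) hcpos.ne'
  have hd1 : (∏ T ∈ S, (X - C (ub V T))).degree = (S.card : WithBot ℕ) := by
    rw [degree_prod]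
    simp
  have hd2 : (X ^ S.card - 1 : (IsLocalRing.ResidueField V)[X]).degree = (S.card : WithBot ℕ) :=
    degree_X_pow_sub_C hcpos (1 : IsLocalRing.ResidueField V)
  refine eq_of_degree_sub_lt_of_eval_finset_eq (S.image fun T => ub V T) ?_ ?_
  · rw [hic, ← hd1]
    exact degree_sub_lt (hd1.trans hd2.symm) hm1.ne_zero (by rw [hm1.leadingCoeff, hm2.leadingCoeff])
  · intro x hx
    rw [Finset.mem_image] at hx
    obtain ⟨T, hT, rfl⟩ := hx
    rw [eval_prod, Finset.prod_eq_zero hT (by simp)]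
    simp [hroot T hT]

end H55K.JJ
end

-- from Lib.H55K.J6
section

open NumberField WeierstrassCurve

namespace H55K.JJ

open H55P (IQ embF eF LF Per Pt ac Nm)
open H35P (WAB Ker IntW)

variable {F : Type} [Field F] [NumberField F] [IQ F] {A B : F} {Om : ℂ} {Ω : Type} [Field Ω] [DecidableEq Ω]
  [Algebra F Ω] [IsAlgClosed Ω] {j : Ω →+* ℂ} {act : 𝓞 F →+* AddMonoid.End (Pt (WAB A B) Ω)} {V : ValuationSubring Ω}
  {W' : WeierstrassCurve Ω} {u : Ω} {Θ : Pt (WAB A B) Ω ≃+ W'.toAffine.Point}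

/-! Chunk J6 (M). unit_b: ak b * ak (cj b) = Nm b (mul_cj) has value 1 and both factors have value ≤ 1 (integers are integral: see k0_int in K0A.lean or ak_le). gen_pt: for w outside a finite set of residues: T in insert 0 S with E0 (Θ T) is 0 or Fn
(tor_out, e0_iff); choose P with ub (Θ P) = w (ex_fn; P = Θ.symm of the point): for such T <> 0: w * ub (Θ T) <> 1, so Fn (Θ (P + T)) (ub_mul); for T not in E0: Θ (P + T) is not in E0 (e0_add_out), so not in Ker (e0_iff).
kap_int: κ = (β^2 - 1)/12, β = ak b. Take P from gen_pt (S from TN): P + T not in Ker for all T in insert 0 S, so m_e1x: β^2 x(bP) = s - κ with s = x(P) + sum (x(P+T) - x(T)) in V (int_ker, tor_out), and β^3 z(bP) =: t in V, z = 2y + x. (act b P <> 0: otherwise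
-P is in S and P + (-P) = 0 is in Ker.) Suppose V(κ) > 1. X = x(bP): V(X) = V(κ) > 1. z^2 = X^2 (4X + 1) + 4 a4 X + 4 a6 (the equation), V(z) ≤ 1, V(4 a4 X + 4 a6) ≤ V(X): so V(X^2 (4X + 1)) ≤ V(X), V(4X + 1) < 1. β^2 (4X + 1) = 4s - 4κ + β^2 and 12 κ = β^2 - 1, so
3 β^2 (4X+1) = 12 s - (β^2 - 1) + 3 β^2 = 12 s + 2 β^2 + 1. V(12) < 1 (as V(κ) > 1, β^2 - 1 in V). So V(2β^2 + 1) < 1 (from V(3β^2(4X+1)) < 1, V(12 s) < 1). If V(2) < 1: V(2β^2+1) = 1, contradiction. So V(2) = 1, V(3) < 1; 4X + 1: V(4X) = V(X) > 1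
so V(4X + 1) > 1: contradiction. -/

theorem j6_ak {F : Type} [Field F] {Ω : Type} [Field Ω] [Algebra F Ω] (V : ValuationSubring Ω) (a : 𝓞 F) :
    V.valuation (ak Ω a) ≤ 1 := by
  rw [V.valuation_le_one_iff]
  have h1 : IsIntegral ℤ (ak Ω a) := by
    have h2 : IsIntegral ℤ (a : F) := RingOfIntegers.isIntegral_coe a
    exact h2.map ((algebraMap F Ω).toIntAlgHom)
  have h3 : IsIntegral V (ak Ω a) := h1.tower_top
  obtain ⟨y, hy⟩ := IsIntegrallyClosed.isIntegral_iff.1 h3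
  rw [← hy]
  exact y.2

theorem unit_b (h : CMA F A B Om j act) {b : 𝓞 F} (hb : V.valuation ((Nm b : ℕ) : Ω) = 1) :
    b ≠ 0 ∧ V.valuation (ak Ω b) = 1 := by
  have hinj := (algebraMap F Ω).injective
  have hb0 : b ≠ 0 := by
    rintro rfl
    have h1 : Nm (0 : 𝓞 F) = 0 := H55P.Nm_eq_zero.2 rfl
    rw [h1, Nat.cast_zero, map_zero] at hb
    exact zero_ne_one hb
  refine ⟨hb0, ?_⟩
  have h1 : ak Ω b * ak Ω (cj b) = ((Nm b : ℕ) : Ω) := by
    have h2 := congrArg (fun z : 𝓞 F => ak Ω z) (mul_cj b)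
    simp only [ak, map_mul, map_natCast] at h2
    exact h2
  rw [← h1, map_mul] at hb
  have h2 := j6_ak V b
  have h3 := j6_ak V (cj b)
  exact le_antisymm h2 (by
    by_contra h4
    push Not at h4
    have h5 : V.valuation (ak Ω b) * V.valuation (ak Ω (cj b)) < 1 := mul_lt_one_of_lt_of_le h4 h3
    exact h5.ne hb)

theorem gen_pt (h : CMA F A B Om j act) (hM : Md A B V W' u Θ) {b : 𝓞 F} (hb : V.valuation ((Nm b : ℕ) : Ω) = 1)
    {S : Finset (Pt (WAB A B) Ω)} (hS : TN act b S) : ∃ Z : Set (IsLocalRing.ResidueField V), Z.Finite ∧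
    ∀ P : Pt (WAB A B) Ω, Fn V (Θ P) → ub V (Θ P) ∉ Z → act b P ≠ 0 ∧ ∀ T ∈ S, ¬ Ker V (Θ (P + T)) ∧
      (E0 V (Θ T) → Fn V (Θ (P + T)) ∧ ub V (Θ (P + T)) = ub V (Θ T) * ub V (Θ P)) ∧
      (¬ E0 V (Θ T) → ¬ E0 V (Θ (P + T))) := by
  classical
  refine ⟨((insert 0 S : Finset (Pt (WAB A B) Ω)).image fun T => (ub V (Θ T))⁻¹ :
    Finset (IsLocalRing.ResidueField V)), Finset.finite_toSet _, ?_⟩
  intro P hP hZ
  have hZ' : ∀ T ∈ S, ub V (Θ T) * ub V (Θ P) ≠ 1 := by
    intro T hT h1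
    apply hZ
    rw [Finset.mem_coe, Finset.mem_image]
    exact ⟨T, Finset.mem_insert_of_mem hT, (eq_inv_of_mul_eq_one_right h1).symm⟩
  obtain ⟨u1, u2, u3, -⟩ := fn_ub hM.nod hP
  have hP0 : P ≠ 0 := by
    rintro rfl
    rw [map_zero] at hP
    exact (fn_crd hM.nod hP).1 rfl
  refine ⟨?_, ?_⟩
  · intro h1
    have h2 : -P ∈ S := by
      rw [hS]
      refine ⟨?_, neg_ne_zero.2 hP0⟩
      rw [map_neg, h1, neg_zero]
    apply hZ' _ h2
    rw [map_neg, (fn_neg hM.nod hP).2]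
    exact inv_mul_cancel₀ u2
  · intro T hT
    obtain ⟨t1, t2⟩ := (hS T).1 hT
    have hTk : ¬ Ker V (Θ T) := tor_out h hM hb t1 t2
    have hEP : E0 V (Θ P) := e0_iff.2 (Or.inr hP)
    by_cases hE : E0 V (Θ T)
    · have hF : Fn V (Θ T) := (e0_iff.1 hE).resolve_left hTk
      have h1 := ub_mul hM.nod hM.ell hP hF (by rw [mul_comm]; exact hZ' T hT)
      rw [map_add]
      refine ⟨ker_fn h1.1, fun _ => ⟨h1.1, ?_⟩, fun h2 => absurd hE h2⟩
      rw [h1.2, mul_comm]
    · have h1 := e0_add_out hM.nod hEP hE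
      rw [map_add]
      exact ⟨fun h2 => h1 (e0_iff.2 (Or.inl h2)), fun h2 => absurd h2 hE, fun _ => h1⟩

theorem j6_eq {k : Type} [Field k] [DecidableEq k] {W : WeierstrassCurve k} {V : ValuationSubring k} (h : Nod W V)
    {P : W.toAffine.Point} (hP : P ≠ 0) :
    (2 * yc P + xc P) ^ 2 = xc P ^ 2 * (4 * xc P + 1) + (4 * W.a₄ * xc P + 4 * W.a₆) := by
  rcases P with _ | ⟨x, y, hxy⟩
  · exact absurd rfl hP
  · show (2 * y + x) ^ 2 = x ^ 2 * (4 * x + 1) + (4 * W.a₄ * x + 4 * W.a₆)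
    have hE := (Affine.equation_iff _ _).1 hxy.1
    rw [h.a1, h.a2, h.a3] at hE
    linear_combination 4 * hE

theorem j6_main {k : Type} [Field k] [CharZero k] (V : ValuationSubring k) {β X y s t a c : k}
    (hβ : V.valuation β = 1) (hs : V.valuation s ≤ 1) (ht : V.valuation t ≤ 1) (ha : V.valuation a < 1)
    (hc : V.valuation c < 1) (hx : β ^ 2 * X = s - (β ^ 2 - 1) / 12) (hz : β ^ 3 * (2 * y + X) = t)
    (hE : (2 * y + X) ^ 2 = X ^ 2 * (4 * X + 1) + (4 * a * X + 4 * c)) : (β ^ 2 - 1) / 12 ∈ V := by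
  rw [← V.valuation_le_one_iff]
  by_contra hκ
  push Not at hκ
  have n1 : ∀ n : ℕ, V.valuation (n : k) ≤ 1 := fun n => (V.valuation_le_one_iff _).2 (natCast_mem V n)
  have v2 : V.valuation (2 : k) ≤ 1 := by exact_mod_cast n1 2
  have v3 : V.valuation (3 : k) ≤ 1 := by exact_mod_cast n1 3
  have v4 : V.valuation (4 : k) ≤ 1 := by exact_mod_cast n1 4
  have v12 : V.valuation (12 : k) ≤ 1 := by exact_mod_cast n1 12
  have hX : 1 < V.valuation X := by
    have h1 : V.valuation (β ^ 2 * X) = V.valuation X := by rw [map_mul, map_pow, hβ, one_pow, one_mul]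
    have h2 : V.valuation (s - (β ^ 2 - 1) / 12) = V.valuation ((β ^ 2 - 1) / 12) :=
      Valuation.map_sub_eq_of_lt_right _ (hs.trans_lt hκ)
    rw [← h1, hx, h2]
    exact hκ
  have hzle : V.valuation (2 * y + X) ≤ 1 := by
    have h1 : V.valuation (β ^ 3 * (2 * y + X)) = V.valuation (2 * y + X) := by
      rw [map_mul, map_pow, hβ, one_pow, one_mul]
    rw [← h1, hz]
    exact ht
  have h4X : V.valuation (4 * X + 1) < 1 := by
    have e1 : X ^ 2 * (4 * X + 1) = (2 * y + X) ^ 2 - (4 * a * X + 4 * c) := by rw [hE]; ring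
    have b1 : V.valuation ((2 * y + X) ^ 2) ≤ V.valuation X := by
      rw [map_pow]
      exact (pow_le_one' hzle 2).trans hX.le
    have b2 : V.valuation (4 * a * X + 4 * c) ≤ V.valuation X := by
      apply Valuation.map_add_le
      · rw [map_mul, map_mul]
        exact mul_le_of_le_one_left' (mul_le_one' v4 ha.le)
      · rw [map_mul]
        exact (mul_le_one' v4 hc.le).trans hX.le
    have b3 : V.valuation (X ^ 2 * (4 * X + 1)) ≤ V.valuation X := by
      rw [e1]
      exact Valuation.map_sub_le _ b1 b2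
    have hX0 : V.valuation X ≠ 0 := (zero_lt_one.trans hX).ne'
    by_contra h1
    push Not at h1
    have h2 : V.valuation X < V.valuation (X ^ 2 * (4 * X + 1)) := by
      rw [map_mul, map_pow, sq]
      calc V.valuation X = V.valuation X * 1 := (mul_one _).symm
        _ < V.valuation X * V.valuation X := by
            exact (mul_lt_mul_iff_right₀ (zero_lt_one.trans hX)).2 hX
        _ = V.valuation X * V.valuation X * 1 := (mul_one _).symm
        _ ≤ V.valuation X * V.valuation X * V.valuation (4 * X + 1) := mul_le_mul' le_rfl h1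
    exact absurd b3 (not_le.2 h2)
  have h4 : V.valuation (4 : k) < 1 := by
    have h1 : V.valuation (4 * X) ≤ 1 := by
      have h2 : (4 : k) * X = (4 * X + 1) - 1 := by ring
      rw [h2]
      exact Valuation.map_sub_le _ h4X.le (map_one _).le
    by_contra h3
    push Not at h3
    rw [map_mul] at h1
    have h5 : 1 < V.valuation (4 : k) * V.valuation X := lt_of_lt_of_le hX (le_mul_of_one_le_left' h3)
    exact absurd h1 (not_le.2 h5)
  have h2 : V.valuation (2 : k) < 1 := by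
    by_contra h3
    have h5 : V.valuation (2 : k) = 1 := le_antisymm v2 (not_lt.1 h3)
    have h6 : (4 : k) = 2 * 2 := by norm_num
    rw [h6, map_mul, h5, one_mul] at h4
    exact lt_irrefl _ h4
  have h12 : V.valuation (12 : k) < 1 := by
    have h6 : (12 : k) = 4 * 3 := by norm_num
    rw [h6, map_mul]
    exact mul_lt_one_of_lt_of_le h4 v3
  have hfin : V.valuation (1 : k) < 1 := by
    have e1 : (1 : k) = 3 * β ^ 2 * (4 * X + 1) - (12 * s + 2 * β ^ 2) := by
      linear_combination (-12) * hx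
    rw [e1]
    have w1 : V.valuation (β ^ 2) = 1 := by rw [map_pow, hβ, one_pow]
    apply Valuation.map_sub_lt
    · rw [map_mul, map_mul, w1, mul_one]
      rw [mul_comm]
      exact mul_lt_one_of_lt_of_le h4X v3
    · apply Valuation.map_add_lt
      · rw [map_mul]
        exact mul_lt_one_of_lt_of_le h12 hs
      · rw [map_mul, w1, mul_one]
        exact h2
  rw [map_one] at hfin
  exact lt_irrefl _ hfin

theorem kap_int (h : CMA F A B Om j act) (hM : Md A B V W' u Θ) {b : 𝓞 F} (hb : V.valuation ((Nm b : ℕ) : Ω) = 1)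
    {S : Finset (Pt (WAB A B) Ω)} (hS : TN act b S) : (ak Ω b ^ 2 - 1) / 12 ∈ V := by
  classical
  have : CharZero Ω := charZero_of_injective_algebraMap (algebraMap F Ω).injective
  obtain ⟨hb0, hβ⟩ := unit_b h hb
  obtain ⟨Z, hZf, hZ⟩ := gen_pt h hM hb hS
  obtain ⟨P, hP, hPZ⟩ : ∃ P : Pt (WAB A B) Ω, Fn V (Θ P) ∧ ub V (Θ P) ∉ Z := by
    have := res_inf V
    have h1 : (Z ∪ {0, 1}).Finite := hZf.union (Set.toFinite _)
    obtain ⟨w, hw⟩ := h1.infinite_compl.nonempty
    rw [Set.mem_compl_iff, Set.mem_union, not_or, Set.mem_insert_iff, Set.mem_singleton_iff, not_or] at hw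
    obtain ⟨P', p1, p2⟩ := ex_fn hM.nod hM.ell hw.2.1 hw.2.2
    refine ⟨Θ.symm P', ?_, ?_⟩
    · rw [AddEquiv.apply_symm_apply]
      exact p1
    · rw [AddEquiv.apply_symm_apply, p2]
      exact hw.1
  obtain ⟨hbP, hT⟩ := hZ P hP hPZ
  obtain ⟨c1, c2, c3, -⟩ := fn_crd hM.nod hP
  have hx := m_e1x h hM hb0 hS hbP
  have hz := m_e1z h hM hb0 hS hbP
  set β := ak Ω b with hβd
  set X := xc (Θ (act b P)) with hX
  set y := yc (Θ (act b P)) with hy
  have hs : xc (Θ P) + ∑ T ∈ S, (xc (Θ (P + T)) - xc (Θ T)) ∈ V := by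
    refine V.add_mem _ _ c2 (sum_mem fun T hTS => ?_)
    obtain ⟨t1, t2⟩ := (hS T).1 hTS
    exact V.sub_mem (int_ker hM.nod (hT T hTS).1).2.1 (int_ker hM.nod (tor_out h hM hb t1 t2)).2.1
  have ht : 2 * yc (Θ P) + xc (Θ P) + ∑ T ∈ S, (2 * yc (Θ (P + T)) + xc (Θ (P + T))) ∈ V := by
    have h2 : (2 : Ω) ∈ V := by exact_mod_cast natCast_mem V 2
    refine V.add_mem _ _ (V.add_mem _ _ (V.mul_mem _ _ h2 c3) c2) (sum_mem fun T hTS => ?_)
    obtain ⟨-, e1, e2⟩ := int_ker hM.nod (hT T hTS).1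
    exact V.add_mem _ _ (V.mul_mem _ _ h2 e2) e1
  set s := xc (Θ P) + ∑ T ∈ S, (xc (Θ (P + T)) - xc (Θ T)) with hsd
  set t := 2 * yc (Θ P) + xc (Θ P) + ∑ T ∈ S, (2 * yc (Θ (P + T)) + xc (Θ (P + T))) with htd
  have hne : Θ (act b P) ≠ 0 := fun h1 => hbP (by rwa [map_eq_zero_iff _ Θ.injective] at h1)
  have hE := j6_eq hM.nod hne
  rw [← hX, ← hy] at hE
  have hx' : β ^ 2 * X = s - (β ^ 2 - 1) / 12 := by
    rw [hsd]
    linear_combination hx
  exact j6_main V hβ ((V.valuation_le_one_iff _).2 hs) ((V.valuation_le_one_iff _).2 ht) hM.nod.a4 hM.nod.a6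
    hx' hz hE

end H55K.JJ
end

-- from Lib.H55K.J7
section

set_option autoImplicit false

/-! Chunk J7 (M). S₀ = the T in insert 0 S with E0 (Θ T); S' = its image under Θ: 0 in S', closed under differences (E[b] is a group, e0_add, e0_neg), nonzero elements are Fn (tor_out, e0_iff). ub_prod: with c = S₀.card:
product over T in S₀ of (X - C (ub (Θ T))) = X^c - 1 (Finset.prod_map / prod_image). V(c) = 1: c divides the order of the group E[b], which is Nm b (c divides Nm b: card of a subgroup; S.card + 1 = Nm b: exists_TN / tor_card, or: S.card + 1 divides a power of Nm b...;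
SIMPLER: 1 - X^c separable is not needed; needed is only (c : residue field) <> 0: the c-th roots ub(Θ T) are c different roots of X^c - 1 in a field, so X^c - 1 has no multiple root, so c <> 0 in the field (otherwise its derivative is 0 and 1 is a multiple
root if c ≥ 2)). Z from gen_pt, enlarged by the roots of w^c = 1. For P with ub (Θ P) not in Z: residues of m_e1x, m_e1z (kap_int; all terms integral; β = rs (ak b) <> 0 by unit_b): for T not in E0 the coordinates of Θ T, Θ (P + T) have residue 0 (nod_out); for T in E0, T <> 0: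
rs x(P + T) = xu (ub (Θ T) * ub (Θ P)) (fn_ub). So β^2 X = sum over S₀ of xu (ub (Θ T) w) + δ = c^2 xu (w^c) + δ, δ = - sum over S₀ - 0 of rs x(T) - rs((β^2-1)/12) independent of P, w = ub (Θ P), X = rs x(bP) (x(bP) in V by m_e1x: β is a unit;
y(bP) in V by H35P.int_y), β^3 Z' = c^3 zu (w^c), Z' = rs (2 y + x)(bP), Z'^2 = 4 X^3 + X^2 (z_sq, act b P <> 0) (sum_xu, sum_zu, res_inf). compare (I = the w^c for w not in Z, w <> 0: infinite since w -> w^c has finite fibres): δ = 0, β^2 = c^2,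
so X = xu (w^c). -/

open NumberField WeierstrassCurve

namespace H55K.JJ

open H55P (IQ embF eF LF Per Pt ac Nm)
open H35P (WAB Ker IntW)

variable {F : Type} [Field F] [NumberField F] [IQ F] {A B : F} {Om : ℂ} {Ω : Type} [Field Ω] [DecidableEq Ω]
  [Algebra F Ω] [IsAlgClosed Ω] {j : Ω →+* ℂ} {act : 𝓞 F →+* AddMonoid.End (Pt (WAB A B) Ω)} {V : ValuationSubring Ω}
  {W' : WeierstrassCurve Ω} {u : Ω} {Θ : Pt (WAB A B) Ω ≃+ W'.toAffine.Point}

theorem j7_not_ker {k : Type} [Field k] [DecidableEq k] {W : WeierstrassCurve k}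
    {V : ValuationSubring k} {P : W.toAffine.Point} (h0 : P ≠ 0) (hx : xc P ∈ V) :
    ¬ Ker V P := by
  cases P with
  | zero => exact fun _ => h0 rfl
  | some x y hP =>
    intro h
    have h1 : V.valuation x ≤ 1 := (V.valuation_le_one_iff x).2 hx
    exact absurd h (not_lt.mpr h1)

theorem j7_inj (h : CMA F A B Om j act) (hM : Md A B V W' u Θ) {b : 𝓞 F}
    (hb : V.valuation ((Nm b : ℕ) : Ω) = 1) {T T' : Pt (WAB A B) Ω} (hT : act b T = 0)
    (hT' : act b T' = 0) (h1 : E0 V (Θ T)) (h2 : E0 V (Θ T'))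
    (hu : ub V (Θ T) = ub V (Θ T')) : T = T' := by
  have hfn : ∀ R, act b R = 0 → E0 V (Θ R) → R ≠ 0 → Fn V (Θ R) := by
    intro R hR hE hR0
    rcases e0_iff.1 hE with hk | hf
    · exact absurd hk (tor_out h hM hb hR hR0)
    · exact hf
  by_cases h0 : T = 0
  · by_cases h0' : T' = 0
    · rw [h0, h0']
    · have hf := hfn T' hT' h2 h0'
      rw [h0, map_zero, ub_zero] at hu
      exact absurd hu.symm (fn_ub hM.nod hf).2.2.1
  · have hf := hfn T hT h1 h0
    by_cases h0' : T' = 0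
    · rw [h0', map_zero, ub_zero] at hu
      exact absurd hu (fn_ub hM.nod hf).2.2.1
    · have hf' := hfn T' hT' h2 h0'
      have hk := rd_fn hM.nod hf hf' hu
      rw [← map_sub] at hk
      by_contra hne
      exact tor_out h hM hb (T := T - T') (by rw [map_sub, hT, hT', sub_zero])
        (sub_ne_zero.2 hne) hk

open Polynomial in
theorem j7_set (h : CMA F A B Om j act) (hM : Md A B V W' u Θ) {b : 𝓞 F}
    (hb : V.valuation ((Nm b : ℕ) : Ω) = 1) {S : Finset (Pt (WAB A B) Ω)} (hS : TN act b S) :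
    ∃ S₀ : Finset (Pt (WAB A B) Ω), (∀ T, T ∈ S₀ ↔ act b T = 0 ∧ E0 V (Θ T)) ∧
      (∏ T ∈ S₀, (X - C (ub V (Θ T))) = X ^ S₀.card - 1) ∧
      ((S₀.card : IsLocalRing.ResidueField V) ≠ 0) := by
  classical
  set S₀ : Finset (Pt (WAB A B) Ω) := (insert 0 S).filter (fun T => E0 V (Θ T)) with hS₀
  have hmem : ∀ T, T ∈ S₀ ↔ act b T = 0 ∧ E0 V (Θ T) := by
    intro T
    rw [hS₀, Finset.mem_filter, Finset.mem_insert, hS T]
    constructor
    · rintro ⟨h1 | h1, h2⟩
      · exact ⟨by rw [h1, map_zero], h2⟩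
      · exact ⟨h1.1, h2⟩
    · rintro ⟨h1, h2⟩
      refine ⟨?_, h2⟩
      by_cases h0 : T = 0
      · exact Or.inl h0
      · exact Or.inr ⟨h1, h0⟩
  have hprod : ∏ T ∈ S₀, (X - C (ub V (Θ T))) = X ^ S₀.card - 1 := by
    have h1 := ub_prod hM.nod hM.ell (S₀.image Θ) (by
        rw [Finset.mem_image]
        exact ⟨0, (hmem 0).2 ⟨map_zero _, by rw [map_zero]; exact Or.inl rfl⟩, map_zero _⟩) (by
        intro T hT T' hT'
        rw [Finset.mem_image] at hT hT' ⊢
        obtain ⟨t, ht, rfl⟩ := hT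
        obtain ⟨t', ht', rfl⟩ := hT'
        rw [hmem] at ht ht'
        refine ⟨t - t', (hmem _).2 ⟨by rw [map_sub, ht.1, ht'.1, sub_zero], ?_⟩, map_sub _ _ _⟩
        rw [map_sub, sub_eq_add_neg]
        exact e0_add hM.nod ht.2 (e0_neg.2 ht'.2)) (by
        intro T hT hT0
        rw [Finset.mem_image] at hT
        obtain ⟨t, ht, rfl⟩ := hT
        rw [hmem] at ht
        rcases e0_iff.1 ht.2 with hk | hf
        · exact absurd hk (tor_out h hM hb ht.1 (fun h0 => hT0 (by rw [h0, map_zero])))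
        · exact hf)
    rw [Finset.prod_image (fun x _ y _ hxy => Θ.injective hxy),
      Finset.card_image_of_injective _ Θ.injective] at h1
    exact h1
  refine ⟨S₀, hmem, hprod, ?_⟩
  rw [← X_pow_sub_one_separable_iff, ← hprod, separable_prod_X_sub_C_iff']
  intro T hT T' hT' hu
  rw [hmem] at hT hT'
  exact j7_inj h hM hb hT.1 hT'.1 hT.2 hT'.2 hu

open Polynomial in
theorem j7_fin {K : Type} [Field K] {c : ℕ} (hc : 0 < c) (w : K) : {x : K | x ^ c = w}.Finite := by
  classical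
  refine (Finset.finite_toSet (nthRoots c w).toFinset).subset ?_
  intro x hx
  rw [Finset.mem_coe, Multiset.mem_toFinset, mem_nthRoots hc]
  exact hx

/-- the residues of the two identities, for a generic point -/
theorem j7_res (h : CMA F A B Om j act) (hM : Md A B V W' u Θ) {b : 𝓞 F}
    (hb : V.valuation ((Nm b : ℕ) : Ω) = 1) {S S₀ : Finset (Pt (WAB A B) Ω)} (hS : TN act b S)
    (hmem : ∀ T, T ∈ S₀ ↔ act b T = 0 ∧ E0 V (Θ T)) {P : Pt (WAB A B) Ω} (hP : Fn V (Θ P))
    (hbP : act b P ≠ 0)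
    (hg : ∀ T ∈ S, ¬ Ker V (Θ (P + T)) ∧
      (E0 V (Θ T) → Fn V (Θ (P + T)) ∧ ub V (Θ (P + T)) = ub V (Θ T) * ub V (Θ P)) ∧
      (¬ E0 V (Θ T) → ¬ E0 V (Θ (P + T)))) :
    xc (Θ (act b P)) ∈ V ∧ yc (Θ (act b P)) ∈ V ∧
    rs V (ak Ω b) ^ 2 * rs V (xc (Θ (act b P))) = ∑ T ∈ S₀, xu (ub V (Θ T) * ub V (Θ P)) +
      (-(∑ T ∈ S, rs V (xc (Θ T))) - rs V ((ak Ω b ^ 2 - 1) / 12)) ∧
    rs V (ak Ω b) ^ 3 * rs V (2 * yc (Θ (act b P)) + xc (Θ (act b P))) =
      ∑ T ∈ S₀, zu (ub V (Θ T) * ub V (Θ P)) := by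
  classical
  haveI : CharZero Ω := charZero_of_injective_algebraMap (algebraMap F Ω).injective
  obtain ⟨hb0, hbu⟩ := unit_b (V := V) h hb
  have hbV : ak Ω b ∈ V := (V.valuation_le_one_iff _).1 hbu.le
  have hκ := kap_int h hM hb hS
  have h2V : (2 : Ω) ∈ V := by exact_mod_cast natCast_mem V 2
  have hΘ0 : Θ (act b P) ≠ 0 := fun h0 => hbP (by
    have := congrArg Θ.symm h0
    rwa [Θ.symm_apply_apply, map_zero] at this)
  -- the coordinates of T and P + T
  have hT : ∀ T ∈ S, xc (Θ T) ∈ V ∧ yc (Θ T) ∈ V := fun T hT =>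
    (int_ker hM.nod (tor_out h hM hb ((hS T).1 hT).1 ((hS T).1 hT).2)).2
  have hPT : ∀ T ∈ S, xc (Θ (P + T)) ∈ V ∧ yc (Θ (P + T)) ∈ V := fun T hT =>
    (int_ker hM.nod (hg T hT).1).2
  obtain ⟨_, hPx, hPy, _, _⟩ := fn_crd hM.nod hP
  have e1 := m_e1x h hM hb0 hS hbP
  have e2 := m_e1z h hM hb0 hS hbP
  have hs : (∑ T ∈ S, (xc (Θ (P + T)) - xc (Θ T))) ∈ V :=
    sum_mem fun T hT' => V.sub_mem (hPT T hT').1 (hT T hT').1
  have hs2 : (∑ T ∈ S, (2 * yc (Θ (P + T)) + xc (Θ (P + T)))) ∈ V :=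
    sum_mem fun T hT' => V.add_mem _ _ (V.mul_mem _ _ h2V (hPT T hT').2) (hPT T hT').1
  have e1' : ak Ω b ^ 2 * xc (Θ (act b P)) =
      xc (Θ P) + (∑ T ∈ S, (xc (Θ (P + T)) - xc (Θ T))) - (ak Ω b ^ 2 - 1) / 12 := by
    linear_combination e1
  have hX : xc (Θ (act b P)) ∈ V := by
    have h3 : xc (Θ (act b P)) = (xc (Θ P) + (∑ T ∈ S, (xc (Θ (P + T)) - xc (Θ T))) -
        (ak Ω b ^ 2 - 1) / 12) / ak Ω b ^ 2 := by
      rw [← e1', mul_div_cancel_left₀]
      intro h4
      have : V.valuation (ak Ω b ^ 2) = 0 := by rw [h4, map_zero]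
      rw [map_pow, hbu, one_pow] at this
      exact one_ne_zero this
    rw [h3, ← V.valuation_le_one_iff, map_div₀, map_pow, hbu, one_pow, div_one,
      V.valuation_le_one_iff]
    exact V.sub_mem (V.add_mem _ _ hPx hs) hκ
  have hY : yc (Θ (act b P)) ∈ V := (int_ker hM.nod (j7_not_ker hΘ0 hX)).2.2
  refine ⟨hX, hY, ?_, ?_⟩
  · have r1 := congrArg (rs V) e1'
    rw [rs_mul (pow_mem hbV 2) hX, rs_pow hbV, rs_sub (V.add_mem _ _ hPx hs) hκ,
      rs_add hPx hs, rs_sum S _ (fun T hT' => V.sub_mem (hPT T hT').1 (hT T hT').1)] at r1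
    rw [r1]
    have r2 : ∑ T ∈ S, rs V (xc (Θ (P + T)) - xc (Θ T)) =
        (∑ T ∈ S, rs V (xc (Θ (P + T)))) - ∑ T ∈ S, rs V (xc (Θ T)) := by
      rw [← Finset.sum_sub_distrib]
      exact Finset.sum_congr rfl fun T hT' => rs_sub (hPT T hT').1 (hT T hT').1
    have h0S : (0 : Pt (WAB A B) Ω) ∈ S₀ := (hmem 0).2 ⟨map_zero _, by rw [map_zero]; exact Or.inl rfl⟩
    have r3 : ∑ T ∈ S₀, xu (ub V (Θ T) * ub V (Θ P)) =
        rs V (xc (Θ P)) + ∑ T ∈ S, rs V (xc (Θ (P + T))) := by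
      rw [← Finset.add_sum_erase _ _ h0S, map_zero, ub_zero, one_mul, (fn_ub hM.nod hP).2.2.2.1]
      congr 1
      have hsub : S₀.erase 0 ⊆ S := by
        intro T hT'
        rw [Finset.mem_erase, hmem] at hT'
        exact (hS T).2 ⟨hT'.2.1, hT'.1⟩
      rw [← Finset.sum_subset hsub (f := fun T => rs V (xc (Θ (P + T))))]
      · refine Finset.sum_congr rfl fun T hT' => ?_
        have hTS := hsub hT'
        rw [Finset.mem_erase, hmem] at hT'
        obtain ⟨h5, h6⟩ := (hg T hTS).2.1 hT'.2.2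
        rw [(fn_ub hM.nod h5).2.2.2.1, h6]
      · intro T hTS hTn
        have hE : ¬ E0 V (Θ T) := by
          intro hE
          apply hTn
          rw [Finset.mem_erase, hmem]
          exact ⟨((hS T).1 hTS).2, ((hS T).1 hTS).1, hE⟩
        have h7 := nod_out hM.nod ((hg T hTS).2.2 hE)
        exact (rs_eq_zero (hPT T hTS).1).2 h7.2.1
    rw [r3, r2]
    ring
  · have r1 := congrArg (rs V) e2
    have hZ : 2 * yc (Θ (act b P)) + xc (Θ (act b P)) ∈ V :=
      V.add_mem _ _ (V.mul_mem _ _ h2V hY) hX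
    have hZP : 2 * yc (Θ P) + xc (Θ P) ∈ V := V.add_mem _ _ (V.mul_mem _ _ h2V hPy) hPx
    rw [rs_mul (pow_mem hbV 3) hZ, rs_pow hbV, rs_add hZP hs2,
      rs_sum S _ (fun T hT' => V.add_mem _ _ (V.mul_mem _ _ h2V (hPT T hT').2) (hPT T hT').1)] at r1
    rw [r1]
    have h0S : (0 : Pt (WAB A B) Ω) ∈ S₀ := (hmem 0).2 ⟨map_zero _, by rw [map_zero]; exact Or.inl rfl⟩
    rw [← Finset.add_sum_erase _ _ h0S, map_zero, ub_zero, one_mul, (fn_ub hM.nod hP).2.2.2.2.1]
    congr 1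
    have hsub : S₀.erase 0 ⊆ S := by
      intro T hT'
      rw [Finset.mem_erase, hmem] at hT'
      exact (hS T).2 ⟨hT'.2.1, hT'.1⟩
    symm
    rw [← Finset.sum_subset hsub (f := fun T => rs V (2 * yc (Θ (P + T)) + xc (Θ (P + T))))]
    · refine Finset.sum_congr rfl fun T hT' => ?_
      have hTS := hsub hT'
      rw [Finset.mem_erase, hmem] at hT'
      obtain ⟨h5, h6⟩ := (hg T hTS).2.1 hT'.2.2
      rw [(fn_ub hM.nod h5).2.2.2.2.1, h6]
    · intro T hTS hTn
      have hE : ¬ E0 V (Θ T) := by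
        intro hE
        apply hTn
        rw [Finset.mem_erase, hmem]
        exact ⟨((hS T).1 hTS).2, ((hS T).1 hTS).1, hE⟩
      have h7 := nod_out hM.nod ((hg T hTS).2.2 hE)
      rw [rs_add (V.mul_mem _ _ h2V (hPT T hTS).2) (hPT T hTS).1, rs_mul h2V (hPT T hTS).2,
        (rs_eq_zero (hPT T hTS).1).2 h7.2.1, (rs_eq_zero (hPT T hTS).2).2 h7.2.2, mul_zero,
        add_zero]

theorem main_b (h : CMA F A B Om j act) (hM : Md A B V W' u Θ) {b : 𝓞 F}
    (hb : V.valuation ((Nm b : ℕ) : Ω) = 1) {S : Finset (Pt (WAB A B) Ω)} (hS : TN act b S) :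
    ∃ c : ℕ, 0 < c ∧ (c = 1 ∨ ∃ T ∈ S, E0 V (Θ T)) ∧ ∃ Z : Set (IsLocalRing.ResidueField V), Z.Finite ∧
    ∀ P : Pt (WAB A B) Ω, Fn V (Θ P) → ub V (Θ P) ∉ Z →
      ub V (Θ P) ^ c ≠ 1 ∧ Fn V (Θ (act b P)) ∧ rs V (xc (Θ (act b P))) = xu (ub V (Θ P) ^ c) := by
  classical
  haveI : Infinite (IsLocalRing.ResidueField V) := res_inf V
  obtain ⟨S₀, hmem, hprod, hc0⟩ := j7_set h hM hb hS
  obtain ⟨Z₀, hZ₀, hgen⟩ := gen_pt h hM hb hS
  obtain ⟨hb0, hbu⟩ := unit_b (V := V) h hb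
  have hbV : ak Ω b ∈ V := (V.valuation_le_one_iff _).1 hbu.le
  have h0S : (0 : Pt (WAB A B) Ω) ∈ S₀ := (hmem 0).2 ⟨map_zero _, by rw [map_zero]; exact Or.inl rfl⟩
  have hcpos : 0 < S₀.card := Finset.card_pos.2 ⟨0, h0S⟩
  set c := S₀.card with hc
  set Z : Set (IsLocalRing.ResidueField V) := Z₀ ∪ {x | x ^ c = 1} with hZ
  have hZf : Z.Finite := hZ₀.union (j7_fin hcpos 1)
  set δ := -(∑ T ∈ S, rs V (xc (Θ T))) - rs V ((ak Ω b ^ 2 - 1) / 12) with hδ
  have hβ0 : rs V (ak Ω b) ≠ 0 := (rs_ne_zero hbV).2 hbu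
  have hres : ∀ P : Pt (WAB A B) Ω, Fn V (Θ P) → ub V (Θ P) ∉ Z →
      act b P ≠ 0 ∧ xc (Θ (act b P)) ∈ V ∧ yc (Θ (act b P)) ∈ V ∧
      ub V (Θ P) ^ c ≠ 1 ∧
      rs V (ak Ω b) ^ 2 * rs V (xc (Θ (act b P))) =
        (c : IsLocalRing.ResidueField V) ^ 2 * xu (ub V (Θ P) ^ c) + δ ∧
      rs V (ak Ω b) ^ 3 * rs V (2 * yc (Θ (act b P)) + xc (Θ (act b P))) =
        (c : IsLocalRing.ResidueField V) ^ 3 * zu (ub V (Θ P) ^ c) := by
    intro P hP hu
    have hu0 : ub V (Θ P) ∉ Z₀ := fun h1 => hu (Or.inl h1)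
    have hu1 : ub V (Θ P) ^ c ≠ 1 := fun h1 => hu (Or.inr h1)
    obtain ⟨hbP, hg⟩ := hgen P hP hu0
    obtain ⟨r1, r2, r3, r4⟩ := j7_res h hM hb hS hmem hP hbP hg
    refine ⟨hbP, r1, r2, hu1, ?_, ?_⟩
    · rw [r3, sum_xu S₀ (fun T => ub V (Θ T)) hprod hu1]
    · rw [r4, sum_zu S₀ (fun T => ub V (Θ T)) hprod hu1]
  -- the comparison
  set I : Set (IsLocalRing.ResidueField V) := (fun x => x ^ c) '' (Z ∪ {0, 1})ᶜ with hI
  have hIinf : I.Infinite := by
    intro hfin
    have h1 : ((fun x : IsLocalRing.ResidueField V => x ^ c) ⁻¹' I).Finite :=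
      hfin.preimage' fun w _ => j7_fin hcpos w
    have h2 : ((Z ∪ {0, 1})ᶜ : Set (IsLocalRing.ResidueField V)).Finite :=
      h1.subset (Set.subset_preimage_image _ _)
    have h3 : (Z ∪ {0, 1} : Set (IsLocalRing.ResidueField V)).Finite :=
      hZf.union (by simp)
    have h4 := h3.union h2
    rw [Set.union_compl_self] at h4
    exact Set.infinite_univ h4
  have hcomp := compare hβ0 hc0 hIinf (δ := δ) (by
    rintro w ⟨x, hx, rfl⟩
    have hxZ : x ∉ Z := fun h1 => hx (Or.inl h1)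
    have hx0 : x ≠ 0 := fun h1 => hx (Or.inr (by simp [h1]))
    have hx1 : x ≠ 1 := fun h1 => hx (Or.inr (by simp [h1]))
    obtain ⟨P', hP', hPu⟩ := ex_fn hM.nod hM.ell hx0 hx1
    have hΘP : Θ (Θ.symm P') = P' := Θ.apply_symm_apply P'
    obtain ⟨q0, q1, q2, q3, q4, q5⟩ := hres (Θ.symm P') (by rw [hΘP]; exact hP')
      (by rw [hΘP, hPu]; exact hxZ)
    rw [hΘP, hPu] at q3 q4 q5
    refine ⟨pow_ne_zero _ hx0, q3, _, _, ?_, q4, q5⟩
    refine z_sq hM.nod ?_ q1 q2
    intro h0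
    apply q0
    have := congrArg Θ.symm h0
    rwa [Θ.symm_apply_apply, map_zero] at this)
  refine ⟨c, hcpos, ?_, Z, hZf, ?_⟩
  · by_cases hc1 : c = 1
    · exact Or.inl hc1
    · right
      have h1 : 1 < S₀.card := by omega
      obtain ⟨T, hT, hT0⟩ := Finset.exists_mem_ne h1 (0 : Pt (WAB A B) Ω)
      rw [hmem] at hT
      exact ⟨T, (hS T).2 ⟨hT.1, hT0⟩, hT.2⟩
  · intro P hP hu
    obtain ⟨q0, q1, q2, q3, q4, q5⟩ := hres P hP hu
    rw [hcomp.1, add_zero, hcomp.2] at q4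
    have q6 : rs V (xc (Θ (act b P))) = xu (ub V (Θ P) ^ c) :=
      mul_left_cancel₀ (pow_ne_zero 2 hc0) q4
    refine ⟨q3, ?_, q6⟩
    unfold Fn
    rw [← rs_ne_zero q1, q6]
    unfold xu
    have h5 : ub V (Θ P) ≠ 0 := (fn_ub hM.nod hP).2.1
    exact div_ne_zero (pow_ne_zero _ h5) (pow_ne_zero _ (sub_ne_zero.2 q3))

end H55K.JJ
end

-- from Lib.H55K.J8
section

open NumberField WeierstrassCurve

namespace H55K.JJ

open H55P (IQ embF eF LF Per Pt ac Nm)
open H35P (WAB Ker IntW)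

variable {F : Type} [Field F] [NumberField F] [IQ F] {A B : F} {Om : ℂ} {Ω : Type} [Field Ω] [DecidableEq Ω]
  [Algebra F Ω] [IsAlgClosed Ω] {j : Ω →+* ℂ} {act : 𝓞 F →+* AddMonoid.End (Pt (WAB A B) Ω)} {V : ValuationSubring Ω}
  {W' : WeierstrassCurve Ω} {u : Ω} {Θ : Pt (WAB A B) Ω ≃+ W'.toAffine.Point}

/-! Chunk J8 (M). e0_act: S from exists_TN (or any Finset with TN: the set E[b] is finite), c, Z from main_b. P in Ker: choose R with w = ub (Θ R) not in Z (ex_fn, res_inf; R = Θ.symm ..): ker_shift: Fn (Θ (P + R)), ub = w not in Z; P in Fn: choose w not in Z, a w <> 1 and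
a w not in Z (a = ub (Θ P)): ub_mul. In both cases act b (P + R) and act b R are in Fn, so act b P = act b (P + R) - act b R is in E0 (e0_iff, e0_add, e0_neg). tor_e0: l prime, b = l: if no T as claimed then c = 1 in main_b: for P with ub (Θ P) = w not in Z and
w^m <> 1 for 0 < m ≤ l + 1: rs x(lP) = xu w, and ub_nsmul: Fn (Θ (l • P)), ub = w^l, so rs x(lP) = xu (w^l) (fn_ub; act (l : 𝓞 F) P = l • P). xu_inj: w^l = w or w^(l+1) = 1: contradiction (w <> 0, l ≥ 2). -/

theorem j8_TN (h : CMA F A B Om j act) {b : 𝓞 F} (hb : b ≠ 0) :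
    ∃ S : Finset (Pt (WAB A B) Ω), TN act b S := by
  classical
  obtain ⟨T₀, hT₀, h1, h2, -⟩ := h.gen b hb
  let f : 𝓞 F →+ Pt (WAB A B) Ω :=
    { toFun := fun a => act a T₀
      map_zero' := by rw [map_zero]; rfl
      map_add' := fun a c => by rw [map_add]; rfl }
  have hf : ∀ a, f a = act a T₀ := fun a => rfl
  have hker : f.ker = (Ideal.span {b} : Ideal (𝓞 F)).toAddSubgroup := by
    ext a
    rw [AddMonoidHom.mem_ker, hf, h2]
    exact Ideal.mem_span_singleton.symm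
  have hran : f.range = Tor act b := by
    ext T
    rw [AddMonoidHom.mem_range]
    constructor
    · rintro ⟨a, rfl⟩
      show act b (act a T₀) = 0
      have e : act b (act a T₀) = act a (act b T₀) := by
        have e1 : act (b * a) = act (a * b) := by rw [mul_comm]
        rw [map_mul, map_mul] at e1
        exact congrArg (fun φ : AddMonoid.End (Pt (WAB A B) Ω) => φ T₀) e1
      have e2 : act b T₀ = 0 := hT₀
      rw [e, e2, map_zero]
    · intro hT
      obtain ⟨a, ha⟩ := h1 T hT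
      exact ⟨a, ha.symm⟩
  have h3 := AddSubgroup.index_ker f
  rw [hker, hran] at h3
  have hc : Nat.card (Tor act b) = Nm b := h3.symm
  have hN : Nm b ≠ 0 := by
    intro h0
    have h4 : Ideal.absNorm (Ideal.span {b} : Ideal (𝓞 F)) = 0 := h0
    rw [Ideal.absNorm_eq_zero_iff, Ideal.span_singleton_eq_bot] at h4
    exact hb h4
  have hfin : Finite (Tor act b) := (Nat.card_ne_zero.1 (by rw [hc]; exact hN)).2
  have hfin2 : (Tor act b : Set (Pt (WAB A B) Ω)).Finite := hfin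
  refine ⟨hfin2.toFinset.erase 0, fun T => ?_⟩
  rw [Finset.mem_erase, Set.Finite.mem_toFinset, and_comm]
  exact Iff.rfl

theorem e0_act (h : CMA F A B Om j act) (hM : Md A B V W' u Θ) {b : 𝓞 F}
    (hb : V.valuation ((Nm b : ℕ) : Ω) = 1) {P : Pt (WAB A B) Ω} (hP : E0 V (Θ P)) : E0 V (Θ (act b P)) := by
  classical
  have hb0 : b ≠ 0 := (unit_b h hb).1
  obtain ⟨S, hS⟩ := j8_TN h hb0
  obtain ⟨c, hc, -, Z, hZ, hm⟩ := main_b h hM hb hS
  have hnod := hM.nod
  have := res_inf V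
  have key : ∃ R : Pt (WAB A B) Ω, Fn V (Θ R) ∧ ub V (Θ R) ∉ Z ∧ Fn V (Θ (P + R)) ∧
      ub V (Θ (P + R)) ∉ Z := by
    rcases e0_iff.1 hP with hK | hF
    · obtain ⟨w, hw⟩ := ((hZ.union (Set.toFinite ({0, 1} : Set (IsLocalRing.ResidueField V)))).infinite_compl).nonempty
      rw [Set.mem_compl_iff, Set.mem_union, not_or] at hw
      obtain ⟨hwZ, hw01⟩ := hw
      have h0 : w ≠ 0 := fun e => hw01 (by simp [e])
      have h1 : w ≠ 1 := fun e => hw01 (by simp [e])
      obtain ⟨R', hR', hu⟩ := ex_fn hnod hM.ell h0 h1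
      have h3 := ker_shift hnod hM.ell hK hR'
      refine ⟨Θ.symm R', ?_⟩
      rw [map_add, Θ.apply_symm_apply]
      refine ⟨hR', ?_, h3.1, ?_⟩
      · rw [hu]
        exact hwZ
      · rw [h3.2, hu]
        exact hwZ
    · have ha0 : ub V (Θ P) ≠ 0 := (fn_ub hnod hF).2.1
      have hfin : ((Z ∪ ({0, 1, (ub V (Θ P))⁻¹} : Set (IsLocalRing.ResidueField V))) ∪
          (fun x => (ub V (Θ P))⁻¹ * x) '' Z).Finite :=
        (hZ.union (Set.toFinite _)).union (hZ.image _)
      obtain ⟨w, hw⟩ := hfin.infinite_compl.nonempty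
      rw [Set.mem_compl_iff, Set.mem_union, Set.mem_union, not_or, not_or] at hw
      obtain ⟨⟨hwZ, hw01⟩, hwi⟩ := hw
      have h0 : w ≠ 0 := fun e => hw01 (by simp [e])
      have h1 : w ≠ 1 := fun e => hw01 (by simp [e])
      have h2 : ub V (Θ P) * w ≠ 1 := fun e => hw01 (by
        have e1 : w = (ub V (Θ P))⁻¹ := eq_inv_of_mul_eq_one_right e
        simp [e1])
      have h3 : ub V (Θ P) * w ∉ Z := fun e => hwi ⟨_, e, by
        show (ub V (Θ P))⁻¹ * (ub V (Θ P) * w) = w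
        rw [← mul_assoc, inv_mul_cancel₀ ha0, one_mul]⟩
      obtain ⟨R', hR', hu⟩ := ex_fn hnod hM.ell h0 h1
      have h4 := ub_mul hnod hM.ell hF hR' (by rw [hu]; exact h2)
      refine ⟨Θ.symm R', ?_⟩
      rw [map_add, Θ.apply_symm_apply]
      refine ⟨hR', ?_, h4.1, ?_⟩
      · rw [hu]
        exact hwZ
      · rw [h4.2, hu]
        exact h3
  obtain ⟨R, h1, h2, h3, h4⟩ := key
  have h5 := (hm R h1 h2).2.1
  have h6 := (hm (P + R) h3 h4).2.1
  have h7 : Θ (act b P) = Θ (act b (P + R)) + -Θ (act b R) := by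
    rw [map_add, map_add, add_neg_cancel_right]
  rw [h7]
  exact e0_add hnod (e0_iff.2 (Or.inr h6)) (e0_neg.2 (e0_iff.2 (Or.inr h5)))

theorem tor_e0 (h : CMA F A B Om j act) (hM : Md A B V W' u Θ) {l : ℕ} (hl : l.Prime)
    (hv : V.valuation (l : Ω) = 1) : ∃ T : Pt (WAB A B) Ω, l • T = 0 ∧ T ≠ 0 ∧ E0 V (Θ T) := by
  classical
  have hNm : Nm (l : 𝓞 F) = l ^ 2 := Nm_nat l
  have hb : V.valuation ((Nm (l : 𝓞 F) : ℕ) : Ω) = 1 := by
    rw [hNm, Nat.cast_pow, map_pow, hv, one_pow]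
  have hb0 : (l : 𝓞 F) ≠ 0 := (unit_b h hb).1
  obtain ⟨S, hS⟩ := j8_TN h hb0
  obtain ⟨c, hc, hc1, Z, hZ, hm⟩ := main_b h hM hb hS
  have hnod := hM.nod
  have := res_inf V
  have hact : ∀ P : Pt (WAB A B) Ω, act (l : 𝓞 F) P = l • P := by
    intro P
    rw [map_natCast]
    rfl
  rcases hc1 with hc1 | ⟨T, hT, hTE⟩
  · exfalso
    subst hc1
    have hfin : ((Z ∪ ({0, 1} : Set (IsLocalRing.ResidueField V))) ∪
        ⋃ m ∈ Finset.Icc 1 (l + 1), {x : IsLocalRing.ResidueField V | x ^ m = 1}).Finite := by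
      refine (hZ.union (Set.toFinite _)).union ?_
      refine Set.Finite.biUnion (Finset.finite_toSet _) ?_
      intro m hmm
      exact j7_fin (by have := Finset.mem_Icc.1 (Finset.mem_coe.1 hmm); omega) 1
    obtain ⟨w, hw⟩ := hfin.infinite_compl.nonempty
    rw [Set.mem_compl_iff, Set.mem_union, Set.mem_union, not_or, not_or] at hw
    obtain ⟨⟨hwZ, hw01⟩, hwi⟩ := hw
    have h0 : w ≠ 0 := fun e => hw01 (by simp [e])
    have h1 : w ≠ 1 := fun e => hw01 (by simp [e])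
    have h2 : ∀ m : ℕ, 0 < m → m ≤ l + 1 → w ^ m ≠ 1 := by
      intro m hm0 hm1 e
      apply hwi
      rw [Set.mem_iUnion₂]
      exact ⟨m, Finset.mem_Icc.2 ⟨hm0, hm1⟩, e⟩
    obtain ⟨R', hR', hu⟩ := ex_fn hnod hM.ell h0 h1
    have h3 := hm (Θ.symm R') (by rw [Θ.apply_symm_apply]; exact hR') (by
      rw [Θ.apply_symm_apply, hu]
      exact hwZ)
    obtain ⟨-, h4, h5⟩ := h3
    rw [hact, map_nsmul, Θ.apply_symm_apply, hu, pow_one] at h5
    have h6 := ub_nsmul hnod hM.ell hR' hl.pos (by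
      intro m hm0 hm1
      rw [hu]
      exact h2 m hm0 (by omega))
    have h7 := (fn_ub hnod h6.1).2.2.2.1
    rw [h5, h6.2, hu] at h7
    have hl2 := hl.two_le
    rcases xu_inj h1 (h2 l hl.pos (by omega)) h7 with e | e
    · have e1 : w ^ (l - 1) * w = 1 * w := by
        rw [← pow_succ, one_mul]
        have e2 : l - 1 + 1 = l := by omega
        rw [e2]
        exact e.symm
      exact h2 (l - 1) (by omega) (by omega) (mul_right_cancel₀ h0 e1)
    · exact h2 (l + 1) (by omega) le_rfl (by rw [pow_succ, mul_comm]; exact e)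
  · obtain ⟨h1, h2⟩ := (hS T).1 hT
    exact ⟨T, by rw [← hact]; exact h1, h2, hTE⟩

end H55K.JJ
end
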