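import Mathlib
import Pool.Agent.Lib.H1M.PP.M027
import Pool.Agent.Lib.H1M.PP.M036
import Pool.Agent.Lib.H1M.PP.M037
import Pool.Agent.Lib.H1M.PP.M039
import Pool.Agent.Lib.H1M.PP.M041
import Pool.Agent.Lib.H1M.PP.M042
import Pool.Agent.Lib.H1M.PP.M048
import Pool.Agent.Lib.H1M.PP.M056
import Pool.Agent.Lib.H1M.PP.M057
import Pool.Agent.Lib.H1M.PP.M059
import Pool.Agent.Lib.H1M.PP.M060

/-! Merged copies (to shorten the build) of Lib.H55D.Fin1, Lib.H55P.Z8, Lib.H55P.Z9, Lib.H55K.DM, Lib.H55K.G9A, Lib.H55K.C27, Lib.H55K.CM, Lib.H55K.J9, Lib.H55K.JM, Lib.H55K.JE, Lib.H55K.CG, Lib.H55K.CU, Lib.H55K.RF. -/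

-- from Lib.H55D.Fin1
section

open NumberField IsDedekindDomain

namespace H55D

open H55B H55C H55N

variable {K₀ K : Type} [Field K₀] [NumberField K₀] [Field K] [NumberField K] [Algebra F K] [Algebra K₀ K]

theorem Fin1_finrank_F : Module.finrank ℚ F = 2 := by
  have h := IsCyclotomicExtension.finrank (n := 3) F
    (Polynomial.cyclotomic.irreducible_rat (by norm_num))
  rw [h]
  decide

theorem Fin1_rank (hQ : H13E.Quad K₀ K) : Module.finrank F K =
    InfinitePlace.nrRealPlaces K₀ + 2 * InfinitePlace.nrComplexPlaces K₀ := by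
  have h1 := InfinitePlace.card_add_two_mul_card_eq_rank K₀
  have h2 := Module.finrank_mul_finrank ℚ K₀ K
  have h3 := Module.finrank_mul_finrank ℚ F K
  rw [hQ.rank] at h2
  rw [Fin1_finrank_F] at h3
  omega

theorem Fin1_alg (L1 s E o p T r : ℂ) (r1 r2 : ℕ) (hr : r ≠ 0) :
    L1 * s * E ^ 2 / (o ^ r1 * p ^ r2 * T) =
      L1 / r ^ (r1 + 2 * r2) * (r / o) ^ r1 * (r ^ 2 / p) ^ r2 * s * E ^ 2 / T := by
  have h1 : r ^ (r1 + 2 * r2) = r ^ r1 * (r ^ 2) ^ r2 := by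
    rw [pow_add, pow_mul]
  have h2 : r ^ r1 ≠ 0 := pow_ne_zero _ hr
  have h3 : (r ^ 2) ^ r2 ≠ 0 := pow_ne_zero _ (pow_ne_zero _ hr)
  rw [h1, div_pow, div_pow]
  generalize r ^ r1 = x at h2 ⊢
  generalize (r ^ 2) ^ r2 = y at h3 ⊢
  generalize o ^ r1 = z
  generalize p ^ r2 = w
  simp only [div_eq_mul_inv, mul_inv]
  have hx : x⁻¹ * x = 1 := inv_mul_cancel₀ h2
  have hy : y⁻¹ * y = 1 := inv_mul_cancel₀ h3
  linear_combination (-(L1 * s * E ^ 2 * z⁻¹ * w⁻¹ * T⁻¹) * (y⁻¹ * y)) * hx -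
    (L1 * s * E ^ 2 * z⁻¹ * w⁻¹ * T⁻¹) * hy

/-! Chunk Fin1 (M): the 2-part over K₀. n = finrank F K = finrank ℚ K₀ = r1 + 2 r2 (finrank ℚ K = 2 finrank ℚ K₀ = 2 finrank F K; InfinitePlace.card_add_two_mul_card_eq_rank). shaAn = (L1/R0^n) (R0/Omr)^(r1) (R0^2/Om)^(r2) sqrt|D| E^2/prod tam;
all factors are units: R0_Omr, W13_sqrt with odd_discr0, W13_nat, tam0_prod. -/

theorem shaAn0_unit (hQ : H13E.Quad K₀ K) (hU : UnrOut K)
    (hE : Odd (Nat.card (E27.baseChange K₀).toAffine.Point)) (L1 : ℂ)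
    (hL : Unit2 (L1 / R0 ^ Module.finrank F K)) (L : PeriodPair) (h2 : L.g₂ = 0) (h3 : L.g₃ = -1) :
    Unit2 (shaAn K₀ L L1) := by
  obtain ⟨X, hR0, -⟩ := exists_X
  have hr : R0 ≠ 0 := hR0
  obtain ⟨hv, hw⟩ := R0_Omr L h2 h3
  have ht := tam0_prod (K₀ := K₀) K hU
  have hE' := (W13_nat hE).pow 2
  have hs := W13_sqrt _ (odd_discr0 (K₀ := K₀) K hU)
  rw [Fin1_rank hQ] at hL
  unfold shaAn
  rw [Fin1_alg L1 _ _ _ _ _ R0 _ _ hr]
  exact W13_div ((((hL.mul (hv.pow _)).mul (hw.pow _)).mul hs).mul hE') ht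

/-! For fields containing F: BSDTwo of H55C and BSD2 agree (no real places: complex_places and the rank formula; E0, tam are the same definitions). -/

theorem Fin1_real (K : Type) [Field K] [NumberField K] [Algebra F K] :
    InfinitePlace.nrRealPlaces K = 0 := by
  have h1 := InfinitePlace.card_add_two_mul_card_eq_rank K
  have h2 := complex_places K
  have h3 := Module.finrank_mul_finrank ℚ F K
  rw [Fin1_finrank_F] at h3
  omega

theorem Fin1_shaAn (K : Type) [Field K] [NumberField K] [Algebra F K] (L : PeriodPair) (L1 : ℂ) :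
    shaAn K L L1 = H55C.shaAn K L L1 := by
  unfold shaAn H55C.shaAn
  rw [Fin1_real, pow_zero, one_mul]
  rfl

theorem BSD2_of (K : Type) [Field K] [NumberField K] [Algebra F K] (h : BSDTwo K) : BSD2 K := by
  obtain ⟨h1, h2, Λ, h3, h4, h5, h6⟩ := h
  refine ⟨h1, h2, Λ, h3, h4, h5, fun L hL2 hL3 => ?_⟩
  rw [Fin1_shaAn]
  exact h6 L hL2 hL3

end H55D
end

-- from Lib.H55P.Z8
section

open NumberField IsDedekindDomain WeierstrassCurve

namespace H55P

open H55N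
open H55B (F O om e emb Prim R E27)

/-! Chunk PZ8 (M). Tamagawa numbers and discriminant.
tam_prodU: PORT of tam0_prod, tam0_three, tam0_one of Lib/H55D/T2.lean: the index is 1 for w' not above 3; above 3 it divides the index over K (index_dvd of T1.lean) which divides 3 (in W12_index of Lib/H55C/W12.lean the proof shows that the index divides 3: h3'), with val_threeU (Z6.lean) in
place of val_three. So all Tamagawa numbers divide 3 and the product is a unit at V, V(3) = 1 (finprod_induction).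
discr_unit: p does not divide the discriminant of K₀: NumberField.not_dvd_discr_iff_forall_mem and UnrP p K (squarefree (p) in K; the ramification index over ℤ of a prime P of K₀ above p is at most the one of a prime of K above P, Ideal.ramificationIdx_tower; see odd_discr in Lib/H55C/W7.lean,
odd_discr0 in Lib/H55D/Q5.lean). Then sqrt |D| is a unit at V (its square is a natural number prime to p; W13_sqrt in Lib/H55C/W13.lean). -/


variable {K₀ K : Type} [Field K₀] [NumberField K₀] [Field K] [NumberField K] [Algebra F K]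
  [Algebra K₀ K]

theorem PZ8_index {A : Type*} [AddCommGroup A] (H : AddSubgroup A) (T : A) (h3 : 3 • T = 0)
    (h : ∀ P, P ∈ H ∨ P - T ∈ H ∨ P + T ∈ H) : H.index ∣ 3 := by
  have h1 : AddSubgroup.zmultiples (QuotientAddGroup.mk T : A ⧸ H) = ⊤ := by
    rw [eq_top_iff]
    intro q _
    obtain ⟨P, rfl⟩ := QuotientAddGroup.mk_surjective q
    rw [AddSubgroup.mem_zmultiples_iff]
    rcases h P with hP | hP | hP
    · exact ⟨0, by rw [zero_smul]; exact ((QuotientAddGroup.eq_zero_iff P).2 hP).symm⟩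
    · refine ⟨1, ?_⟩
      rw [one_smul]
      have h2 := (QuotientAddGroup.eq_zero_iff (P - T)).2 hP
      rw [QuotientAddGroup.mk_sub] at h2
      exact (sub_eq_zero.1 h2).symm
    · refine ⟨-1, ?_⟩
      rw [neg_smul, one_smul]
      have h2 := (QuotientAddGroup.eq_zero_iff (P + T)).2 hP
      rw [QuotientAddGroup.mk_add] at h2
      exact (eq_neg_of_add_eq_zero_left h2).symm
  have h2 : H.index = addOrderOf (QuotientAddGroup.mk T : A ⧸ H) := by
    rw [← Nat.card_zmultiples, h1, AddSubgroup.card_top]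
    rfl
  rw [h2]
  apply addOrderOf_dvd_of_nsmul_eq_zero
  rw [← QuotientAddGroup.mk_nsmul, h3]
  rfl

theorem PZ8_tamK (K : Type) [Field K] [NumberField K] [Algebra F K] (hK : H35N.Unr3 K)
    (w : HeightOneSpectrum (𝓞 K)) (h : (3 : 𝓞 K) ∈ w.asIdeal) : H55C.tam K w ∣ 3 := by
  classical
  obtain ⟨T, h3, hT⟩ := H55C.cosets K w (val_threeU hK w h)
  unfold H55C.tam
  refine PZ8_index _ T h3 fun P => ?_
  rcases hT P with h1 | h1 | h1
  · exact Or.inl (AddSubgroup.subset_closure h1)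
  · exact Or.inr (Or.inl (AddSubgroup.subset_closure h1))
  · exact Or.inr (Or.inr (AddSubgroup.subset_closure h1))

theorem PZ8_tam0 (K : Type) [Field K] [NumberField K] [Algebra F K] [Algebra K₀ K] (hU : H35N.Unr3 K)
    (w' : HeightOneSpectrum (𝓞 K₀)) (h : (3 : 𝓞 K₀) ∈ w'.asIdeal) : H55D.tam K₀ w' ∣ 3 := by
  classical
  obtain ⟨Q, hQ, hQl⟩ := Ideal.exists_maximal_ideal_liesOver_of_isIntegral (S := 𝓞 K) w'.asIdeal
  have hunder : w'.asIdeal = Q.under (𝓞 K₀) := hQl.over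
  have hQ0 : Q ≠ ⊥ := by
    rintro rfl
    apply w'.ne_bot
    rw [hunder]
    exact Ideal.under_bot (𝓞 K₀) (𝓞 K)
  obtain ⟨w, hw⟩ : ∃ w : HeightOneSpectrum (𝓞 K), w.asIdeal = Q := ⟨⟨Q, hQ.isPrime, hQ0⟩, rfl⟩
  rw [← hw] at hunder
  have h3w : (3 : 𝓞 K) ∈ w.asIdeal := by
    have h1 : (3 : 𝓞 K₀) ∈ w.asIdeal.under (𝓞 K₀) := hunder ▸ h
    rw [Ideal.mem_under] at h1
    rwa [map_ofNat] at h1
  obtain ⟨ι, e, he, -, hv⟩ := H55C.exists_iota K₀ K w w' hunder
  refine Nat.dvd_trans ?_ (PZ8_tamK K hU w h3w)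
  exact H55D.index_dvd (Valued.v (R := w'.adicCompletion K₀)) (Valued.v (R := w.adicCompletion K))
    (H55D.DT2_val3 K₀ w' h) (H55D.DT2_val3 K w h3w) ι e he hv

theorem tam_prodU (hU : H35N.Unr3 K) (V : ValuationSubring ℂ) (h3 : V.valuation 3 = 1) :
    V.valuation (∏ᶠ w : HeightOneSpectrum (𝓞 K₀), (H55D.tam K₀ w : ℂ)) = 1 := by
  refine finprod_induction (fun z : ℂ => V.valuation z = 1) (map_one _) (fun x y hx hy => ?_) fun w => ?_
  · show V.valuation (x * y) = 1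
    rw [map_mul, hx, hy, mul_one]
  · show V.valuation ((H55D.tam K₀ w : ℕ) : ℂ) = 1
    have h : H55D.tam K₀ w ∣ 3 := by
      by_cases h : (3 : 𝓞 K₀) ∈ w.asIdeal
      · exact PZ8_tam0 K hU w h
      · rw [H55D.tam0_one w h]
        exact one_dvd 3
    rcases (Nat.dvd_prime Nat.prime_three).1 h with h4 | h4
    · rw [h4, Nat.cast_one, map_one]
    · rw [h4]
      exact_mod_cast h3

theorem discr_unit (p : ℕ) (hp : p.Prime) (hU : UnrP p K) (V : ValuationSubring ℂ)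
    (hV : V.valuation (p : ℂ) < 1) :
    V.valuation ((Real.sqrt |(NumberField.discr K₀ : ℝ)| : ℝ) : ℂ) = 1 := by
  obtain ⟨z, hz⟩ := NumberField.discr_dvd_discr K₀ K
  have h := pl1_discr p hp hU
  have h0 : ¬ (p : ℤ) ∣ NumberField.discr K₀ := fun hd => h (hd.trans ⟨z, hz⟩)
  obtain ⟨D, hD⟩ : ∃ D, D = NumberField.discr K₀ := ⟨_, rfl⟩
  rw [← hD] at h0 ⊢
  have h1 : (((Real.sqrt |(D : ℝ)| : ℝ) : ℂ)) ^ 2 = ((D.natAbs : ℕ) : ℂ) := by
    rw [← Complex.ofReal_pow, Real.sq_sqrt (abs_nonneg _), ← Int.cast_abs, Int.abs_eq_natAbs]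
    simp only [Int.cast_natCast, Complex.ofReal_natCast]
  have h2 := val_nat p hp V hV D.natAbs (fun hd => h0 (Int.natCast_dvd.2 hd))
  rw [← h1, map_pow] at h2
  exact (pow_eq_one_iff_of_nonneg zero_le two_ne_zero).1 h2

end H55P
end

-- from Lib.H55P.Z9
section

open NumberField IsDedekindDomain WeierstrassCurve

namespace H55P

open H55N
open H55B (F O om e emb Prim R E27)

/-! Chunk PZ9 (M). The analytic order of the Tate-Shafarevich group is a p-adic unit.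
shaU: K₀ does not contain om: PORT of shaAn0_unit (Lib/H55D/Fin1.lean: Fin1_alg, Fin1_rank), R0_Omr_P (Z2.lean), tam_prodU, discr_unit (Z8.lean), val3 (Z3.lean). shaUF: K contains F: PORT of shaAn_unitN (Lib/H55N/Fin.lean) with OmE in place of R0 and periodE, Fin1_shaAn, complex_places;
tam_prodU with K₀ = K (Algebra.id). -/

variable {K₀ K : Type} [Field K₀] [NumberField K₀] [Field K] [NumberField K] [Algebra F K]
  [Algebra K₀ K]

theorem PZ9_alg (L1 s E p T c : ℂ) (r2 : ℕ) (hc : c ≠ 0) :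
    L1 * s * E ^ 2 / (p ^ r2 * T) = L1 / c ^ r2 * (c / p) ^ r2 * s * E ^ 2 / T := by
  have hc' := pow_ne_zero r2 hc
  rw [div_pow, div_mul_div_comm, mul_comm (c ^ r2) (p ^ r2), mul_div_mul_right _ _ hc', ← div_div]
  congr 1
  ring

theorem PZ9_card (p : ℕ) (hp : p.Prime) (A : ValuationSubring ℂ) (hA : A.valuation (p : ℂ) < 1) (n : ℕ)
    (hn : ¬ p ∣ n) : A.valuation ((n : ℂ) ^ 2) = 1 := by
  rw [map_pow, val_nat p hp A hA n hn, one_pow]

theorem shaU (hQ : H13E.Quad K₀ K) (hU : H35N.Unr3 K) (p : ℕ) (hp : p.Prime) (h5 : 5 ≤ p)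
    (hUp : UnrP p K) (hE : ¬ p ∣ Nat.card (E27.baseChange K₀).toAffine.Point) (L1 : ℂ)
    (hL : UnitP p (L1 / R0 ^ Module.finrank F K)) (L : PeriodPair) (g2 : L.g₂ = 0) (g3 : L.g₃ = -1) :
    UnitP p (H55D.shaAn K₀ L L1) := by
  intro A hA
  obtain ⟨h3, -⟩ := val3 p hp h5 A hA
  obtain ⟨X, hR0, -⟩ := H55B.exists_X
  have hr : R0 ≠ 0 := hR0
  obtain ⟨hv, hw⟩ := R0_Omr_P A h3 L g2 g3
  have ht := tam_prodU (K₀ := K₀) hU A h3
  have hs := discr_unit (K₀ := K₀) p hp hUp A hA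
  have hc := PZ9_card p hp A hA _ hE
  have hL' := hL A hA
  rw [H55D.Fin1_rank hQ] at hL'
  unfold H55D.shaAn
  rw [H55D.Fin1_alg L1 _ _ _ _ _ R0 _ _ hr]
  rw [map_div₀, map_mul, map_mul, map_mul, map_mul, hL', map_pow, hv, map_pow, hw, hs, hc, ht]
  simp

theorem shaUF (hU : H35N.Unr3 K) (p : ℕ) (hp : p.Prime) (h5 : 5 ≤ p) (hUp : UnrP p K)
    (hE : ¬ p ∣ Nat.card (E27.baseChange K).toAffine.Point) (L1 : ℂ)
    (hL : UnitP p (L1 / (OmE * (starRingEnd ℂ) OmE) ^ Module.finrank F K)) (L : PeriodPair)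
    (g2 : L.g₂ = 0) (g3 : L.g₃ = -1) : UnitP p (H55D.shaAn K L L1) := by
  intro A hA
  obtain ⟨h3, -⟩ := val3 p hp h5 A hA
  have hv := periodE A h3 L g2 g3
  have hr : OmE * (starRingEnd ℂ) OmE ≠ 0 := by
    intro h0
    rw [h0, zero_div, map_zero] at hv
    exact zero_ne_one hv
  have ht := tam_prodU (K₀ := K) hU A h3
  have hs := discr_unit (K₀ := K) p hp hUp A hA
  have hc := PZ9_card p hp A hA _ hE
  have hL' := hL A hA
  rw [← H55C.complex_places] at hL'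
  unfold H55D.shaAn
  rw [H55D.Fin1_real, pow_zero, one_mul, PZ9_alg L1 _ _ _ _ (OmE * (starRingEnd ℂ) OmE) _ hr]
  rw [map_div₀, map_mul, map_mul, map_mul, hL', map_pow, hv, hs, hc, ht]
  simp

end H55P
end

-- from Lib.H55K.DM
section

/-! # H55K, part D: the L-function of a curve with complex multiplication over a number field -/

open NumberField IsDedekindDomain WeierstrassCurve

namespace H55K

open H55P (IQ embF eF LF Per IsHecke Pt ac Inert Dec Nm CMData PsiP mK DeuG)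
open DD

variable {F : Type} [Field F] [NumberField F] [IQ F] {W₀ : WeierstrassCurve (𝓞 F)} {m : Ideal (𝓞 F)}
  {ψ : Ideal (𝓞 F) →*₀ 𝓞 F}

/-- The number of points over the residue fields of an extension. -/
theorem pts_w {K : Type} [Field K] [NumberField K] [Algebra F K] (hψ : IsHecke m ψ)
    (hdeu : ∀ v : HeightOneSpectrum (𝓞 F), W₀.Δ ∉ v.asIdeal → ¬ m ≤ v.asIdeal →
      Nat.card (W₀⁄(𝓞 F ⧸ v.asIdeal)).toAffine.Point = Nm (1 - ψ v.asIdeal))
    (w : HeightOneSpectrum (𝓞 K)) (hΔ : algebraMap (𝓞 F) (𝓞 K) W₀.Δ ∉ w.asIdeal) (hm : ¬ mK K m ≤ w.asIdeal) :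
    Nat.card (W₀⁄(𝓞 K ⧸ w.asIdeal)).toAffine.Point = Nm (1 - ψ (Ideal.relNorm (𝓞 F) w.asIdeal)) := by
  obtain ⟨v, hv, hN, hf, hmv⟩ := below (m := m) w
  have hΔ' : W₀.Δ ∉ v.asIdeal := by
    rw [hv]
    exact hΔ
  have hm' : ¬ m ≤ v.asIdeal := fun h => hm (hmv.2 h)
  obtain ⟨t1, t2⟩ := trc hψ hm'
  rw [← hdeu v hΔ' hm'] at t2
  have hmax : w.asIdeal.IsMaximal := w.isMaximal
  let _ : Field (𝓞 K ⧸ w.asIdeal) := Ideal.Quotient.field _
  have h := pts_res W₀ w v hv hΔ' _ _ t2 t1 (𝓞 K ⧸ w.asIdeal) (Ideal.Quotient.mk w.asIdeal)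
    Ideal.Quotient.mk_surjective Ideal.mk_ker
  have hb : W₀.map ((Ideal.Quotient.mk w.asIdeal).comp (algebraMap (𝓞 F) (𝓞 K))) = W₀⁄(𝓞 K ⧸ w.asIdeal) := rfl
  rw [hb] at h
  have hn : (Ideal.absNorm w.asIdeal : ℂ) = (eF F (ψ v.asIdeal) * (starRingEnd ℂ) (eF F (ψ v.asIdeal))) ^
      (w.asIdeal.inertiaDeg (𝓞 F)) := by
    rw [t1, ← Ideal.absNorm_relNorm (𝓞 F) (𝓞 K) w.asIdeal, hN, map_pow, Nat.cast_pow]
  have hNm : ((Nm (1 - ψ (Ideal.relNorm (𝓞 F) w.asIdeal)) : ℕ) : ℂ) =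
      (1 - eF F (ψ v.asIdeal) ^ (w.asIdeal.inertiaDeg (𝓞 F))) *
        (1 - (starRingEnd ℂ) (eF F (ψ v.asIdeal)) ^ (w.asIdeal.inertiaDeg (𝓞 F))) := by
    have h1 := mul_cj (1 - ψ (Ideal.relNorm (𝓞 F) w.asIdeal))
    have h2 := congrArg (eF F) h1
    rw [map_mul, e_cj, map_natCast] at h2
    rw [← h2, hN, map_pow, map_sub, map_one, map_pow, map_sub, map_one, map_pow]
  have h4 : ((Nat.card (W₀⁄(𝓞 K ⧸ w.asIdeal)).toAffine.Point : ℕ) : ℂ) =
      ((Nm (1 - ψ (Ideal.relNorm (𝓞 F) w.asIdeal)) : ℕ) : ℂ) := by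
    rw [h, hNm, hn, mul_pow]
    ring
  exact_mod_cast h4

/-- THE L-FUNCTION (Deuring). The numbers of points of W₀ over the residue fields of F are given by ψ; j is integral; the primes dividing the discriminant
divide the modulus; W₀ has bad reduction at the primes of K above the modulus. Then the L-function of W₀ over K is the product of the
L-functions of ψ ∘ N and its conjugate. -/
theorem lfun_K {K : Type} [Field K] [NumberField K] [Algebra F K] (hψ : IsHecke m ψ)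
    (hdeu : ∀ v : HeightOneSpectrum (𝓞 F), W₀.Δ ∉ v.asIdeal → ¬ m ≤ v.asIdeal →
      Nat.card (W₀⁄(𝓞 F ⧸ v.asIdeal)).toAffine.Point = Nm (1 - ψ v.asIdeal))
    (hΔm : ∀ v : HeightOneSpectrum (𝓞 F), W₀.Δ ∈ v.asIdeal → m ≤ v.asIdeal)
    (hj : ∃ j₀ : 𝓞 F, W₀.c₄ ^ 3 = j₀ * W₀.Δ)
    (hbad : ∀ w : HeightOneSpectrum (𝓞 K), mK K m ≤ w.asIdeal → ¬ GoodAt ((W₀⁄F)⁄K) w) (n : ℕ) :
    ((((W₀⁄F)⁄K).LFunction n : ℤ) : ℂ) =
      (H55N.AI (PsiP K ψ) * H55N.AI (fun a => (starRingEnd ℂ) (PsiP K ψ a))) n := by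
  refine lfun _ _ (fun w => ?_) n
  obtain ⟨j₀, hj₀⟩ := hj
  obtain ⟨v, hv, hN, hf, hmv⟩ := below (m := m) w
  by_cases hm : mK K m ≤ w.asIdeal
  · have h0 := psi_bad hψ w hm
    rw [lf_bad W₀ w j₀ hj₀ (hbad w hm), h0, map_zero]
    have h1 : ef (Ideal.absNorm w.asIdeal) 0 = 1 := by
      unfold ef
      rw [H55N.H7_ps, map_one]
    rw [h1, mul_one]
  · have hm' : ¬ m ≤ v.asIdeal := fun h => hm (hmv.2 h)
    have hΔ' : W₀.Δ ∉ v.asIdeal := fun h => hm' (hΔm v h)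
    obtain ⟨t1, t2⟩ := trc hψ hm'
    rw [← hdeu v hΔ' hm'] at t2
    rw [lf_good W₀ w v hv hΔ' _ _ t2 t1, H55P.PsiP_apply, hN, map_pow, map_pow, map_pow, map_pow, Complex.conj_conj,
      mul_comm]

/-- Part D for intermediate fields. -/
theorem deuG (hψ : IsHecke m ψ)
    (hdeu : ∀ v : HeightOneSpectrum (𝓞 F), W₀.Δ ∉ v.asIdeal → ¬ m ≤ v.asIdeal →
      Nat.card (W₀⁄(𝓞 F ⧸ v.asIdeal)).toAffine.Point = Nm (1 - ψ v.asIdeal))
    (hΔm : ∀ v : HeightOneSpectrum (𝓞 F), W₀.Δ ∈ v.asIdeal → m ≤ v.asIdeal)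
    (hj : ∃ j₀ : 𝓞 F, W₀.c₄ ^ 3 = j₀ * W₀.Δ)
    (M : IntermediateField F (AlgebraicClosure F)) [NumberField M]
    (hbad : ∀ w : HeightOneSpectrum (𝓞 M), mK M m ≤ w.asIdeal → ¬ GoodAt ((W₀⁄F)⁄M) w) : DeuG W₀ ψ M :=
  fun n => lfun_K hψ hdeu hΔm hj hbad n

end H55K
end

-- from Lib.H55K.G9A
section

/-! # H55K: counting the points of the reduction -/

open NumberField IsDedekindDomain WeierstrassCurve

namespace H55K

open H55P (IQ embF eF LF Per IsHecke Pt ac Inert Dec Nm)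
open H35P (WAB Ker tt)


variable {F : Type} [Field F] [NumberField F] [IQ F] {A B : F} {Om : ℂ} {Ω : Type} [Field Ω] [DecidableEq Ω]
  [Algebra F Ω] {j : Ω →+* ℂ} {act : 𝓞 F →+* AddMonoid.End (Pt (WAB A B) Ω)} {V : ValuationSubring Ω}

/-- A point killed by b and congruent to X modulo the kernel of reduction. -/
theorem g9_surj (h : CMA F A B Om j act) (hV : GV A B V) {b : 𝓞 F} (hb : V.valuation (ak Ω b) = 1)
    {X : Pt (WAB A B) Ω} (hX : Ker V (act b X)) : ∃ T ∈ Tor act b, Ker V (X - T) := by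
  have hb0 : b ≠ 0 := by
    rintro rfl
    have h1 : ak Ω (0 : 𝓞 F) = 0 := by
      show algebraMap F Ω ((0 : 𝓞 F) : F) = 0
      simp
    rw [h1, map_zero] at hb
    exact zero_ne_one hb
  by_cases hK0 : act b X = 0
  · refine ⟨X, hK0, ?_⟩
    rw [sub_self]
    exact ker_zero V
  by_contra hcon
  push Not at hcon
  -- no translate of X by a torsion point is in the kernel
  have hno : ∀ R, act b R = 0 → ¬ Ker V (X + R) := by
    intro R hR hk
    refine hcon (-R) ?_ ?_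
    · show act b (-R) = 0
      rw [map_neg, hR, neg_zero]
    · rw [sub_neg_eq_add]
      exact hk
  obtain ⟨S, hS, -⟩ := exists_TN h hb0
  obtain ⟨Y, hY, hYS⟩ := inf_cls h hV (Hb act hV b) (Hb_ne h hV hb0) S
  have hYb : ¬ Ker V (act b Y) := fun hk => hY ((mem_Hb hV b Y).2 hk)
  have hY0 : act b Y ≠ 0 := (not_ker V hYb).1
  have hYk : ¬ Ker V Y := (Hb_add h hV hY (map_zero (act b))).2.1
  have hXk : ¬ Ker V X := by
    have := hno 0 (map_zero (act b))
    rwa [add_zero] at this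
  have he := h.e2 b S hb0 hS X Y hK0 hY0
  have hv := congrArg V.valuation he
  rw [map_mul, map_mul, map_mul, map_pow, hb, one_pow, one_mul, map_prod, map_prod] at hv
  have h1 : 1 < V.valuation (xc (act b X)) := (ker_iff V hK0).1 hX
  have h2 : V.valuation (xc (act b Y)) ≤ 1 := (not_ker V hYb).2
  have h3 : V.valuation (xc (act b X) - xc (act b Y)) = V.valuation (xc (act b X)) :=
    Valuation.map_sub_eq_of_lt_left V.valuation (h2.trans_lt h1)
  have h4 : ∏ R ∈ S, V.valuation (xc R - xc Y) = 1 := by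
    apply Finset.prod_eq_one
    intro R hR
    have hR' := (hS R).1 hR
    have hRk : ¬ Ker V R := fun hk => hR'.2 (tor_unit h hV hb hR'.1 hk)
    have hYR : ¬ Ker V (Y - R) := hYS R hR
    have hnR : -R ∈ S := (hS (-R)).2 ⟨by rw [map_neg, hR'.1, neg_zero], neg_ne hR'.2⟩
    have hYR2 : ¬ Ker V (Y - (-R)) := hYS (-R) hnR
    apply cls_diff hV hRk hYk
    · intro hk
      apply hYR
      have := kneg hk
      rwa [neg_sub] at this
    · intro hk
      apply hYR2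
      rwa [sub_neg_eq_add, add_comm]
  rw [h3, h4, mul_one] at hv
  have hint : ∀ P : Pt (WAB A B) Ω, ¬ Ker V P → V.valuation (xc P - xc Y) ≤ 1 := by
    intro P hP
    exact (Valuation.map_sub _ _ _).trans (max_le (not_ker V hP).2 (not_ker V hYk).2)
  have h5 : V.valuation (xc X - xc Y) * ∏ R ∈ S, V.valuation (xc (X + R) - xc Y) ≤ 1 := by
    refine mul_le_one' (hint X hXk) (Finset.prod_le_one' ?_)
    intro R hR
    exact hint _ (hno R ((hS R).1 hR).1)
  rw [← hv] at h5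
  exact absurd h1 (not_lt.2 h5)

/-- Chunk G9A (M). b with V(b) = 1 (b ≠ 0). The map Tor act b -> {classes c of X modulo kerG : act b X in Ker} is bijective. Injective: tor_unit. Surjective: let act b X = K in Ker. If K = 0 done. It is enough to find Z in Ker with act b Z = K (then X - Z is in Tor and has the same class). surj: act b Z₀ = K. S the nonzero points killed by b (exists_TN).
Suppose Z₀ + R is not in Ker for R = 0 and all R in S. Take Y not in Hb act hV b (Hb_ne) with Y - R, Y + R not in Ker for R in S (inf_cls). e2 (X = Z₀): V(xc K - xc (act b Y)) > 1 (xc K large, act b Y not in Ker), V(xc R - xc Y) = 1 for R in S (R is not in Ker by tor_unit; cls_diff), and the right side has value ≤ 1: contradiction. -/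
theorem cls_card (h : CMA F A B Om j act) (hV : GV A B V) {b : 𝓞 F} (hb : V.valuation (ak Ω b) = 1) :
    Nat.card {c : Pt (WAB A B) Ω ⧸ kerG hV // ∃ X : Pt (WAB A B) Ω, (X : Pt (WAB A B) Ω ⧸ kerG hV) = c ∧
      Ker V (act b X)} = Nm b := by
  have hb0 : b ≠ 0 := by
    rintro rfl
    have h1 : ak Ω (0 : 𝓞 F) = 0 := by
      show algebraMap F Ω ((0 : 𝓞 F) : F) = 0
      simp
    rw [h1, map_zero] at hb
    exact zero_ne_one hb
  rw [← tor_card h hb0]
  symm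
  have hk : ∀ T : Tor act b, Ker V (act b (T : Pt (WAB A B) Ω)) := by
    intro T
    have h1 : act b (T : Pt (WAB A B) Ω) = 0 := T.2
    rw [h1]
    exact ker_zero V
  apply Nat.card_eq_of_bijective (fun T : Tor act b =>
    (⟨((T : Pt (WAB A B) Ω) : Pt (WAB A B) Ω ⧸ kerG hV), T, rfl, hk T⟩ :
      {c : Pt (WAB A B) Ω ⧸ kerG hV // ∃ X : Pt (WAB A B) Ω, (X : Pt (WAB A B) Ω ⧸ kerG hV) = c ∧
        Ker V (act b X)}))
  constructor
  · intro T T' hTT
    have h1 := congrArg Subtype.val hTT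
    simp only at h1
    rw [QuotientAddGroup.eq] at h1
    have h2 : (-T + T' : Tor act b) = 0 := by
      apply Subtype.ext
      exact tor_unit h hV hb (-T + T' : Tor act b).2 h1
    exact neg_add_eq_zero.1 h2
  · rintro ⟨c, X, rfl, hX⟩
    obtain ⟨T, hT, hXT⟩ := g9_surj h hV hb hX
    refine ⟨⟨T, hT⟩, ?_⟩
    apply Subtype.ext
    show (T : Pt (WAB A B) Ω ⧸ kerG hV) = X
    rw [QuotientAddGroup.eq, neg_add_eq_sub]
    exact hXT

end H55K
end

-- from Lib.H55K.C27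
section

open NumberField WeierstrassCurve Polynomial

namespace H55K.CC

open H55P (IQ embF eF LF Per Pt ac mem_LF eF_inj eF_ne Nm Nm_eq)
open H35P (WAB)

variable {F : Type} [Field F] [NumberField F] [IQ F] {Ω : Type} [Field Ω] [DecidableEq Ω] [Algebra F Ω]
  {A B : F} {Om : ℂ} {j : Ω →+* ℂ} {act : 𝓞 F →+* AddMonoid.End (Pt (WAB A B) Ω)}

/-! Chunk C27 (M). xc (ac s P) = s (xc P), yc the same (cases on P; ac is Affine.Point.map). N, D from exists_ND; Ns = N.map s, Ds = D.map s (s as a ring homomorphism): ND_map (s fixes the image of F), ND_unique: Ns D = N Ds. act_xy for P,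
apply s: with x = s (xc P) = xc (ac s P), y = s (yc P): X1 = s (xc (act a P)), Y1 = s (yc (act a P)): Ds(x) <> 0, X1 Ds(x) = Ns(x), α Y1 Ds(x)^2 = (Ns' Ds - Ns Ds')(x) y. act_xy for ac s P: D(x) <> 0, X2 D(x) = N(x),
α Y2 D(x)^2 = (N'D - ND')(x) y. Evaluate Ns D = N Ds and its derivative at x: with n' = Ns(x), d' = Ds(x), n = N(x), d = D(x), n1', d1', n1, d1 the derivatives: n' d = n d', n1' d + n' d1 = n1 d' + n d1'. X1 d' d = n' d = n d' = X2 d d'.
(n1' d' - n' d1') d^2 = (n1 d - n d1) d'^2 (linear_combination), so Y1 = Y2. The two points are not 0 and have the same coordinates: equal (cases). -/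

omit [NumberField F] [IQ F] [DecidableEq Ω] in
theorem c27_ne (W : WeierstrassCurve F) [DecidableEq Ω] (s : Ω ≃ₐ[F] Ω) {P : Pt W Ω} (hP : P ≠ 0) :
    ac W s P ≠ 0 := by
  rcases P with _ | ⟨x, y, h⟩
  · exact absurd rfl hP
  · unfold ac
    rw [Affine.Point.map_some]
    exact Affine.Point.some_ne_zero _

omit [NumberField F] [IQ F] [DecidableEq Ω] in
theorem c27_xc (W : WeierstrassCurve F) [DecidableEq Ω] (s : Ω ≃ₐ[F] Ω) (P : Pt W Ω) :
    xc (ac W s P) = s (xc P) := by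
  rcases P with _ | ⟨x, y, h⟩
  · have : ac W s (Affine.Point.zero : Pt W Ω) = 0 := map_zero _
    rw [this]
    exact (map_zero s).symm
  · unfold ac
    rw [Affine.Point.map_some]
    rfl

omit [NumberField F] [IQ F] [DecidableEq Ω] in
theorem c27_yc (W : WeierstrassCurve F) [DecidableEq Ω] (s : Ω ≃ₐ[F] Ω) (P : Pt W Ω) :
    yc (ac W s P) = s (yc P) := by
  rcases P with _ | ⟨x, y, h⟩
  · have : ac W s (Affine.Point.zero : Pt W Ω) = 0 := map_zero _
    rw [this]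
    exact (map_zero s).symm
  · unfold ac
    rw [Affine.Point.map_some]
    rfl

omit [NumberField F] [IQ F] [DecidableEq Ω] in
theorem c27_ext {W : WeierstrassCurve F} {P Q : Pt W Ω} (hP : P ≠ 0) (hQ : Q ≠ 0) (hx : xc P = xc Q)
    (hy : yc P = yc Q) : P = Q := by
  rcases P with _ | ⟨x, y, h⟩
  · exact absurd rfl hP
  · rcases Q with _ | ⟨x', y', h'⟩
    · exact absurd rfl hQ
    · have h1 : x = x' := hx
      have h2 : y = y' := hy
      subst h1
      subst h2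
      rfl

theorem gal_gen [IsAlgClosed Ω] (h : CH A B Om j) (hact : Act A B Om j act) {a : 𝓞 F} (ha : a ≠ 0) (s : Ω ≃ₐ[F] Ω)
    {P : Pt (WAB A B) Ω} (h1 : act a P ≠ 0) (h2 : act a (ac (WAB A B) s P) ≠ 0) :
    ac (WAB A B) s (act a P) = act a (ac (WAB A B) s P) := by
  have hc : CharZero Ω := charZero_of_injective_algebraMap (algebraMap F Ω).injective
  obtain ⟨d, N, D, hND, hMR⟩ := exists_ND h ha
  have hα : ak Ω a ≠ 0 := by
    intro h0
    apply ha
    have e1 : algebraMap F Ω (a : F) = algebraMap F Ω 0 := by rw [map_zero]; exact h0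
    have e2 := (algebraMap F Ω).injective e1
    exact_mod_cast e2
  have hev : ∀ (q : Polynomial Ω) (x : Ω), (q.map (s : Ω →+* Ω)).eval (s x) = s (q.eval x) := by
    intro q x
    rw [eval_map]
    exact eval₂_at_apply (s : Ω →+* Ω) x
  have hmap := ND_map hND (s : Ω →+* Ω) (s.commutes _) (s.commutes _) (s.commutes _)
  have heq := ND_unique hα hmap hND
  obtain ⟨p1, p2, p3⟩ := act_xy h hact hMR h1
  obtain ⟨q1, q2, q3⟩ := act_xy h hact hMR h2
  rw [c27_xc] at q1 q2 q3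
  rw [c27_yc] at q3
  have heq1 := congrArg (eval (s (xc P))) heq
  have heq2 := congrArg (fun r => eval (s (xc P)) (derivative r)) heq
  simp only [derivative_mul, eval_add, eval_mul] at heq1 heq2
  rw [hev, hev] at heq1
  rw [hev, hev, derivative_map, derivative_map, hev, hev] at heq2
  have r1 : s (D.eval (xc P)) ≠ 0 := (map_ne_zero s).2 p1
  have r2 := congrArg s p2
  have r3 := congrArg s p3
  have hs1 : s (ak Ω a) = ak Ω a := s.commutes _
  simp only [eval_sub, eval_mul, map_mul, map_sub, map_pow, hs1] at r2 r3 q3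
  have hx : xc (ac (WAB A B) s (act a P)) = xc (act a (ac (WAB A B) s P)) := by
    rw [c27_xc]
    apply mul_right_cancel₀ (mul_ne_zero r1 q1)
    linear_combination (D.eval (s (xc P))) * r2 + heq1 - (s (D.eval (xc P))) * q2
  have hy : yc (ac (WAB A B) s (act a P)) = yc (act a (ac (WAB A B) s P)) := by
    rw [c27_yc]
    apply mul_right_cancel₀ (mul_ne_zero (mul_ne_zero hα (pow_ne_zero 2 r1)) (pow_ne_zero 2 q1))
    linear_combination (D.eval (s (xc P))) ^ 2 * r3 - (s (D.eval (xc P))) ^ 2 * q3 +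
      (s (D.eval (xc P)) * D.eval (s (xc P)) * s (yc P)) * heq2 -
      ((s ((derivative D).eval (xc P)) * D.eval (s (xc P)) + (derivative D).eval (s (xc P)) * s (D.eval (xc P))) *
        s (yc P)) * heq1
  exact c27_ext (c27_ne _ s h1) h2 hx hy

end H55K.CC
end

-- from Lib.H55K.CM
section

/-! # H55K, part C: existence of the complex multiplication -/

open NumberField WeierstrassCurve Polynomial

namespace H55K

open H55P (IQ embF eF LF Per Pt ac mem_LF eF_inj eF_ne Nm Nm_eq)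
open H35P (WAB)
open CC (CH Act U)

variable {F : Type} [Field F] [NumberField F] [IQ F] {Ω : Type} [Field Ω] [DecidableEq Ω] [Algebra F Ω]
  {A B : F} {Om : ℂ} {j : Ω →+* ℂ} {act : 𝓞 F →+* AddMonoid.End (Pt (WAB A B) Ω)}

theorem cm_ac_inj (s : Ω ≃ₐ[F] Ω) {P : Pt (WAB A B) Ω} (hP : ac (WAB A B) s P = 0) : P = 0 := by
  unfold ac at hP
  rcases P with _ | ⟨x, y, hxy⟩
  · rfl
  · rw [Affine.Point.map_some] at hP
    exact absurd hP (Affine.Point.some_ne_zero _)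

theorem cm_gal [IsAlgClosed Ω] (h : CH A B Om j) (hact : Act A B Om j act) (s : Ω ≃ₐ[F] Ω) (a : 𝓞 F)
    (P : Pt (WAB A B) Ω) : ac (WAB A B) s (act a P) = act a (ac (WAB A B) s P) := by
  by_cases ha : a = 0
  · subst ha
    have h0 : ∀ Q : Pt (WAB A B) Ω, act 0 Q = 0 := fun Q => by
      rw [map_zero]
      rfl
    rw [h0, h0, map_zero]
  · have := CC.inf_pt h
    set δ : Pt (WAB A B) Ω →+ Pt (WAB A B) Ω := (ac (WAB A B) s).comp (act a : Pt (WAB A B) Ω →+ Pt (WAB A B) Ω) -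
      (act a : Pt (WAB A B) Ω →+ Pt (WAB A B) Ω).comp (ac (WAB A B) s) with hδ
    have h1 : ∀ Q, δ Q = ac (WAB A B) s (act a Q) - act a (ac (WAB A B) s Q) := fun Q => rfl
    have hf := CC.fin_ker h hact ha
    have hZ : ({Q : Pt (WAB A B) Ω | act a Q = 0} ∪ {Q | act a (ac (WAB A B) s Q) = 0}).Finite := by
      refine hf.union (hf.preimage (f := fun Q => ac (WAB A B) s Q) ?_)
      intro x _ y _ hxy
      have h2 : ac (WAB A B) s (x - y) = 0 := by
        rw [map_sub, sub_eq_zero]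
        exact hxy
      exact sub_eq_zero.1 (cm_ac_inj s h2)
    have h3 := CC.add_fin δ hZ (fun Q hQ => by
      rw [h1, sub_eq_zero]
      exact CC.gal_gen h hact ha s (fun h4 => hQ (Or.inl h4)) (fun h4 => hQ (Or.inr h4))) P
    rw [h1, sub_eq_zero] at h3
    exact h3

theorem exists_CMA (F : Type) [Field F] [NumberField F] [IQ F] (A B : F) (Om : ℂ) {Ω : Type} [Field Ω] [DecidableEq Ω]
    [Algebra F Ω] [IsAlgClosed Ω] [Algebra.IsAlgebraic F Ω] (j : Ω →+* ℂ) (disc : 4 * A ^ 3 + 27 * B ^ 2 ≠ 0)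
    (per : Per F (embF F A) (embF F B) Om) (ovr : ∀ x : F, j (algebraMap F Ω x) = embF F x) :
    ∃ act : 𝓞 F →+* AddMonoid.End (Pt (WAB A B) Ω), CMA F A B Om j act := by
  have h : CH A B Om j := ⟨disc, per, ovr⟩
  obtain ⟨act, hact⟩ := CC.exists_act h
  exact ⟨act, {
    disc := disc
    per := per
    ovr := ovr
    gal := fun s a P => cm_gal h hact s a P
    surj := fun b hb P => CC.act_surj h hb P
    gen := fun b hb => CC.act_gen h hact hb
    e1x := fun a S ha hS P hP => CC.act_e1x h hact ha hS hP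
    e1y := fun a S ha hS P hP => CC.act_e1y h hact ha hS hP
    e2 := fun b S hb hS P Q hP hQ => CC.act_e2 h hact hb hS hP hQ }⟩

end H55K
end

-- from Lib.H55K.J9
section

open NumberField WeierstrassCurve

namespace H55K.JJ

open H55P (IQ embF eF LF Per Pt ac Nm)
open H35P (WAB Ker IntW)

section gen

variable {k : Type} [Field k] [DecidableEq k] [IsAlgClosed k] {W : WeierstrassCurve k} {V : ValuationSubring k}

/-- The points killed by l with nonsingular reduction. -/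
def J9G (V : ValuationSubring k) (l : ℕ) (X : W.toAffine.Point) : Prop := E0 V X ∧ l • X = 0

theorem j9_zero (l : ℕ) : J9G V l (0 : W.toAffine.Point) := ⟨Or.inl rfl, smul_zero _⟩

theorem j9_add (h : Nod W V) {l : ℕ} {X Y : W.toAffine.Point} (hX : J9G V l X) (hY : J9G V l Y) : J9G V l (X + Y) :=
  ⟨e0_add h hX.1 hY.1, by rw [smul_add, hX.2, hY.2, add_zero]⟩

theorem j9_neg {l : ℕ} {X : W.toAffine.Point} (hX : J9G V l X) : J9G V l (-X) :=
  ⟨e0_neg.2 hX.1, by rw [smul_neg, hX.2, neg_zero]⟩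

theorem j9_nsmul (h : Nod W V) {l : ℕ} {X : W.toAffine.Point} (hX : J9G V l X) (n : ℕ) : J9G V l (n • X) := by
  induction n with
  | zero => rw [zero_smul]; exact j9_zero l
  | succ n ih => rw [succ_nsmul]; exact j9_add h ih hX

theorem j9_fn (h : Nod W V) {l : ℕ} (hv : V.valuation (l : k) = 1) {X : W.toAffine.Point} (hX : J9G V l X)
    (h0 : X ≠ 0) : Fn V X := by
  rcases e0_iff.1 hX.1 with hk | hf
  · exact absurd (H35P.fg h.intW X l hv hX.2 hk) h0
  · exact hf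

theorem j9_mul (h : Nod W V) (hΔ : W.Δ ≠ 0) {l : ℕ} (hv : V.valuation (l : k) = 1) {X Y : W.toAffine.Point}
    (hX : J9G V l X) (hY : J9G V l Y) : ub V (X + Y) = ub V X * ub V Y := by
  by_cases hX0 : X = 0
  · rw [hX0, zero_add, ub_zero, one_mul]
  by_cases hY0 : Y = 0
  · rw [hY0, add_zero, ub_zero, mul_one]
  by_cases hXY : X + Y = 0
  · have e : X = -Y := eq_neg_of_add_eq_zero_left hXY
    have hf := j9_fn h hv hY hY0
    rw [hXY, ub_zero, e, (fn_neg h hf).2, inv_mul_cancel₀ (fn_ub h hf).2.1]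
  · exact (ub_mul' h hΔ (j9_fn h hv hX hX0) (j9_fn h hv hY hY0)
      (ker_fn (j9_fn h hv (j9_add h hX hY) hXY))).2

theorem j9_pow (h : Nod W V) (hΔ : W.Δ ≠ 0) {l : ℕ} (hv : V.valuation (l : k) = 1) {X : W.toAffine.Point}
    (hX : J9G V l X) (n : ℕ) : ub V (n • X) = ub V X ^ n := by
  induction n with
  | zero => rw [zero_smul, ub_zero, pow_zero]
  | succ n ih => rw [succ_nsmul, j9_mul h hΔ hv (j9_nsmul h hX n) hX, ih, pow_succ]

theorem j9_cyc (h : Nod W V) (hΔ : W.Δ ≠ 0) {l : ℕ} (hl : l.Prime) (hv : V.valuation (l : k) = 1)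
    {X Y : W.toAffine.Point} (hX : J9G V l X) (hX0 : X ≠ 0) (hY : J9G V l Y) : ∃ n : ℕ, Y = n • X := by
  have := Fact.mk hl
  have h1 : ub V X ≠ 1 := (fn_ub h (j9_fn h hv hX hX0)).2.2.1
  have h2 : ub V X ^ l = 1 := by rw [← j9_pow h hΔ hv hX, hX.2, ub_zero]
  have h3 : ub V Y ^ l = 1 := by rw [← j9_pow h hΔ hv hY, hY.2, ub_zero]
  have h4 : orderOf (ub V X) = l := orderOf_eq_prime h2 h1
  have h5 : IsPrimitiveRoot (ub V X) l := by
    have := IsPrimitiveRoot.orderOf (ub V X)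
    rwa [h4] at this
  have : NeZero l := ⟨hl.ne_zero⟩
  obtain ⟨n, -, hn⟩ := h5.eq_pow_of_pow_eq_one h3
  refine ⟨n, ?_⟩
  have hnX := j9_nsmul h hX n
  have hD := j9_add h hY (j9_neg hnX)
  have e : ub V Y = ub V (Y + -(n • X)) * ub V (n • X) := by
    rw [← j9_mul h hΔ hv hD hnX, neg_add_cancel_right]
  rw [j9_pow h hΔ hv hX, hn] at e
  have hY0 : ub V Y ≠ 0 := by
    intro h0
    rw [h0, zero_pow hl.ne_zero] at h3
    exact zero_ne_one h3
  have e1 : ub V (Y + -(n • X)) = 1 := by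
    have : ub V (Y + -(n • X)) * ub V Y = 1 * ub V Y := by rw [← e, one_mul]
    exact mul_right_cancel₀ hY0 this
  by_contra hne
  have hD0 : Y + -(n • X) ≠ 0 := fun h0 => hne (by rwa [← sub_eq_add_neg, sub_eq_zero] at h0)
  exact (fn_ub h (j9_fn h hv hD hD0)).2.2.1 e1

end gen

variable {F : Type} [Field F] [NumberField F] [IQ F] {A B : F} {Om : ℂ} {Ω : Type} [Field Ω] [DecidableEq Ω]
  [Algebra F Ω] [IsAlgClosed Ω] {j : Ω →+* ℂ} {act : 𝓞 F →+* AddMonoid.End (Pt (WAB A B) Ω)} {V : ValuationSubring Ω}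
  {W' : WeierstrassCurve Ω} {u : Ω} {Θ : Pt (WAB A B) Ω ≃+ W'.toAffine.Point}

theorem j9_nat (act : 𝓞 F →+* AddMonoid.End (Pt (WAB A B) Ω)) (n : ℕ) (T : Pt (WAB A B) Ω) :
    act (n : 𝓞 F) T = n • T := by
  rw [map_natCast]
  exact AddMonoid.End.natCast_apply n T

/-! Chunk J9 (M). T from tor_e0; T' = act b T is in E0 (e0_act), l • T' = 0. If T' = 0 then n = 0 works below. ub (Θ T) is <> 1 and its l-th power is 1 (Fn (Θ T) by tor_out-type argument: H35P.fg; k • T for 0 < k < l is in E0, not 0, so Fn; ub is multiplicative on the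
multiples of T: ub_mul', induction; l • T = 0): a primitive l-th root of unity (l prime). T' <> 0: Fn (Θ T'), ub (Θ T')^l = 1 in the same way, so ub (Θ T') = ub (Θ T)^n for some 0 ≤ n < l (IsPrimitiveRoot.eq_pow_of_pow_eq_one), = ub (Θ (n • T)) (n <> 0), so
Ker (Θ (T' - n • T)) (rd_fn) and T' - n • T is killed by l: it is 0 (H35P.fg). So act (b - n) T = 0. h.gen for l: T = act a T0, not l | a (T <> 0), act ((b - n) a) T0 = 0, so l | (b - n) a, and l is prime in 𝓞 F: l | b - n: contradiction to hn. -/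
theorem absurd_lb (h : CMA F A B Om j act) (hM : Md A B V W' u Θ) {l : ℕ} (hl : l.Prime)
    (hp : Prime (l : 𝓞 F)) (hv : V.valuation (l : Ω) = 1) {b : 𝓞 F} (hb : V.valuation ((Nm b : ℕ) : Ω) = 1)
    (hn : ∀ n : ℤ, ¬ (l : 𝓞 F) ∣ b - n) : False := by
  obtain ⟨T, hT, hT0, hTE⟩ := tor_e0 h hM hl hv
  have hX : J9G V l (Θ T) := ⟨hTE, by rw [← map_nsmul, hT, map_zero]⟩
  have hX0 : Θ T ≠ 0 := fun h0 => hT0 (by
    have := congrArg Θ.symm h0
    rwa [Θ.symm_apply_apply, map_zero] at this)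
  have hY : J9G V l (Θ (act b T)) := ⟨e0_act h hM hb hTE, by rw [← map_nsmul, ← map_nsmul, hT, map_zero, map_zero]⟩
  obtain ⟨n, hn'⟩ := j9_cyc hM.nod hM.ell hl hv hX hX0 hY
  rw [← map_nsmul] at hn'
  have e1 : act b T = n • T := Θ.injective hn'
  have e2 : act (b - (n : 𝓞 F)) T = 0 := by
    rw [map_sub]
    show act b T - act (n : 𝓞 F) T = 0
    rw [e1, j9_nat, sub_self]
  obtain ⟨T₀, -, g2, g3, -⟩ := h.gen (l : 𝓞 F) hp.ne_zero
  obtain ⟨a, ha⟩ := g2 T (by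
    show act (l : 𝓞 F) T = 0
    rw [j9_nat, hT])
  have e3 : act ((b - (n : 𝓞 F)) * a) T₀ = 0 := by
    rw [map_mul]
    show act (b - (n : 𝓞 F)) (act a T₀) = 0
    rw [← ha, e2]
  rcases hp.dvd_or_dvd ((g3 _).1 e3) with h1 | h1
  · exact hn n (by exact_mod_cast h1)
  · apply hT0
    rw [ha]
    exact (g3 a).2 h1

end H55K.JJ
end

-- from Lib.H55K.JM
section

/-! # H55K, part J: the j-invariant of a curve with complex multiplication is integral -/

open NumberField WeierstrassCurve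

namespace H55K

open H55P (IQ embF eF LF Per Pt ac Nm)
open H35P (WAB Ker IntW)

theorem exists_jint {F : Type} [Field F] [NumberField F] [IQ F] {A B : F} {Om : ℂ} {Ω : Type} [Field Ω] [DecidableEq Ω]
    [Algebra F Ω] [IsAlgClosed Ω] {j : Ω →+* ℂ} {act : 𝓞 F →+* AddMonoid.End (Pt (WAB A B) Ω)}
    (h : CMA F A B Om j act) : ∃ j₀ : 𝓞 F, (j₀ : F) * (4 * A ^ 3 + 27 * B ^ 2) = 6912 * A ^ 3 := by
  have hC : CharZero Ω := charZero_of_injective_algebraMap (algebraMap F Ω).injective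
  obtain ⟨x₀, hx₀⟩ := JJ.int_of_val Ω (6912 * A ^ 3 / (4 * A ^ 3 + 27 * B ^ 2)) (fun V => by
    by_contra hV
    rw [not_le] at hV
    obtain ⟨W', u, Θ, hM⟩ := JJ.exists_md h.disc V hV
    obtain ⟨l, b, hl, hp, hv, hb, hn⟩ := JJ.choose_lb F V
    exact JJ.absurd_lb h hM hl hp hv hb hn)
  refine ⟨x₀, ?_⟩
  rw [hx₀, div_mul_cancel₀ _ h.disc]

end H55K
end

-- from Lib.H55K.JE
section

/-! # H55K, part J: the j-invariant of a curve with complex multiplication is integral -/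

open NumberField IsDedekindDomain WeierstrassCurve

namespace H55K

open H55P (IQ embF eF LF Per IsHecke Pt ac Inert Dec Nm CMData)
open H35P (WAB Ker tt)

variable {F : Type} [Field F] [NumberField F] [IQ F] {W₀ : WeierstrassCurve (𝓞 F)} {Om : ℂ}
    {m : Ideal (𝓞 F)} {ψ : Ideal (𝓞 F) →*₀ 𝓞 F}

/-- THE j-INVARIANT IS INTEGRAL, for all the curves with complex multiplication by the integers of F (from the period lattice). -/
theorem jint_of (hD : Per F (-(eF F W₀.c₄) / 48) (-(eF F W₀.c₆) / 864) Om) (hΔ : W₀.Δ ≠ 0) :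
    ∃ j₀ : 𝓞 F, W₀.c₄ ^ 3 = j₀ * W₀.Δ := by
  classical
  obtain ⟨j, hj⟩ := exists_j F (AlgebraicClosure F)
  obtain ⟨A, hA⟩ : ∃ A : F, A = -(algebraMap (𝓞 F) F W₀.c₄) / 48 := ⟨_, rfl⟩
  obtain ⟨B, hB'⟩ : ∃ B : F, B = -(algebraMap (𝓞 F) F W₀.c₆) / 864 := ⟨_, rfl⟩
  have hd := y3_ne W₀ hA hB' hΔ
  have hper : Per F (embF F A) (embF F B) Om := by
    have e1 : embF F A = -(eF F W₀.c₄) / 48 := by
      rw [hA, map_div₀, map_neg, map_ofNat]
      rfl
    have e2 : embF F B = -(eF F W₀.c₆) / 864 := by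
      rw [hB', map_div₀, map_neg, map_ofNat]
      rfl
    rw [e1, e2]
    exact hD
  obtain ⟨act, hact⟩ := exists_CMA F A B Om j hd hper hj
  obtain ⟨j₀, hj₀⟩ := exists_jint hact
  refine ⟨j₀, ?_⟩
  have hc : (1728 : 𝓞 F) * W₀.Δ = W₀.c₄ ^ 3 - W₀.c₆ ^ 2 := W₀.c_relation
  have hc' : (1728 : F) * algebraMap (𝓞 F) F W₀.Δ = algebraMap (𝓞 F) F W₀.c₄ ^ 3 - algebraMap (𝓞 F) F W₀.c₆ ^ 2 := by
    have := congrArg (algebraMap (𝓞 F) F) hc
    rw [map_mul, map_ofNat, map_sub, map_pow, map_pow] at this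
    exact this
  have h16 : (j₀ : F) * algebraMap (𝓞 F) F W₀.Δ = algebraMap (𝓞 F) F W₀.c₄ ^ 3 := by
    rw [hA, hB'] at hj₀
    have e : (4 : F) * (-(algebraMap (𝓞 F) F W₀.c₄) / 48) ^ 3 + 27 * (-(algebraMap (𝓞 F) F W₀.c₆) / 864) ^ 2 =
        -(algebraMap (𝓞 F) F W₀.Δ) / 16 := by
      linear_combination (1 / 27648 : F) * hc'
    rw [e] at hj₀
    linear_combination (-16 : F) * hj₀
  apply RingOfIntegers.coe_injective
  rw [map_pow, map_mul]
  exact h16.symm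

end H55K
end

-- from Lib.H55K.CG
section

/-! # H55K, part C: automorphisms of Ω which are the complex conjugation on F -/

open NumberField WeierstrassCurve Polynomial

namespace H55K

open H55P (IQ embF eF LF Per Pt ac mem_LF eF_inj eF_ne Nm Nm_eq)
open H35P (WAB)
open CC (CH Act U ND MR)

section action

variable {F : Type} [Field F] {Ω : Type} [Field Ω] [Algebra F Ω] {A B : F}

/-- The fixed field of s. -/
def cgS (s : Ω ≃+* Ω) : Subfield Ω where
  carrier := {x | s x = x}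
  mul_mem' := fun {x y} hx hy => by
    show s (x * y) = x * y
    rw [map_mul, show s x = x from hx, show s y = y from hy]
  one_mem' := map_one s
  add_mem' := fun {x y} hx hy => by
    show s (x + y) = x + y
    rw [map_add, show s x = x from hx, show s y = y from hy]
  zero_mem' := map_zero s
  neg_mem' := fun {x} hx => by
    show s (-x) = -x
    rw [map_neg, show s x = x from hx]
  inv_mem' := fun x hx => by
    show s x⁻¹ = x⁻¹
    rw [map_inv₀, show s x = x from hx]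

/-- s as an algebra homomorphism over its fixed field. -/
def cgH (s : Ω ≃+* Ω) : Ω →ₐ[cgS s] Ω where
  toRingHom := (s : Ω →+* Ω)
  commutes' := fun x => x.2

theorem exists_pm [DecidableEq Ω] (s : Ω ≃+* Ω) (E : WeierstrassCurve Ω) (hE : E.map (s : Ω →+* Ω) = E) :
    ∃ f : E.toAffine.Point →+ E.toAffine.Point, ∀ P, xc (f P) = s (xc P) ∧ yc (f P) = s (yc P) ∧ (f P = 0 ↔ P = 0) := by
  have h1 : s E.a₁ = E.a₁ := congrArg WeierstrassCurve.a₁ hE
  have h2 : s E.a₂ = E.a₂ := congrArg WeierstrassCurve.a₂ hE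
  have h3 : s E.a₃ = E.a₃ := congrArg WeierstrassCurve.a₃ hE
  have h4 : s E.a₄ = E.a₄ := congrArg WeierstrassCurve.a₄ hE
  have h6 : s E.a₆ = E.a₆ := congrArg WeierstrassCurve.a₆ hE
  obtain ⟨W, rfl⟩ : ∃ W : WeierstrassCurve (cgS s), W⁄Ω = E :=
    ⟨⟨⟨E.a₁, h1⟩, ⟨E.a₂, h2⟩, ⟨E.a₃, h3⟩, ⟨E.a₄, h4⟩, ⟨E.a₆, h6⟩⟩, rfl⟩
  refine ⟨Affine.Point.map (W' := W.toAffine) (cgH s), fun P => ?_⟩
  rcases P with _ | ⟨x, y, h⟩
  · refine ⟨(map_zero s).symm, (map_zero s).symm, ?_⟩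
    exact ⟨fun _ => rfl, fun _ => map_zero _⟩
  · rw [Affine.Point.map_some]
    exact ⟨rfl, rfl, ⟨fun h0 => absurd h0 (Affine.Point.some_ne_zero _), fun h0 => absurd h0 (Affine.Point.some_ne_zero _)⟩⟩

theorem cg_map (s : Ω ≃+* Ω) (hA : s (algebraMap F Ω A) = algebraMap F Ω A)
    (hB : s (algebraMap F Ω B) = algebraMap F Ω B) : ((WAB A B)⁄Ω).map (s : Ω →+* Ω) = (WAB A B)⁄Ω := by
  ext <;> simp [WAB, WeierstrassCurve.map, WeierstrassCurve.baseChange, hA, hB]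

variable [DecidableEq Ω]

/-- The action of an automorphism s of Ω fixing A and B on the points over Ω. -/
noncomputable def acr (s : Ω ≃+* Ω) (hA : s (algebraMap F Ω A) = algebraMap F Ω A)
    (hB : s (algebraMap F Ω B) = algebraMap F Ω B) : Pt (WAB A B) Ω →+ Pt (WAB A B) Ω :=
  (exists_pm s ((WAB A B)⁄Ω) (cg_map s hA hB)).choose

theorem xc_acr (s : Ω ≃+* Ω) (hA : s (algebraMap F Ω A) = algebraMap F Ω A)
    (hB : s (algebraMap F Ω B) = algebraMap F Ω B) (P : Pt (WAB A B) Ω) : xc (acr s hA hB P) = s (xc P) :=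
  ((exists_pm s ((WAB A B)⁄Ω) (cg_map s hA hB)).choose_spec P).1

theorem yc_acr (s : Ω ≃+* Ω) (hA : s (algebraMap F Ω A) = algebraMap F Ω A)
    (hB : s (algebraMap F Ω B) = algebraMap F Ω B) (P : Pt (WAB A B) Ω) : yc (acr s hA hB P) = s (yc P) :=
  ((exists_pm s ((WAB A B)⁄Ω) (cg_map s hA hB)).choose_spec P).2.1

theorem acr_zero_iff (s : Ω ≃+* Ω) (hA : s (algebraMap F Ω A) = algebraMap F Ω A)
    (hB : s (algebraMap F Ω B) = algebraMap F Ω B) (P : Pt (WAB A B) Ω) : acr s hA hB P = 0 ↔ P = 0 :=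
  ((exists_pm s ((WAB A B)⁄Ω) (cg_map s hA hB)).choose_spec P).2.2

theorem acr_inj (s : Ω ≃+* Ω) (hA : s (algebraMap F Ω A) = algebraMap F Ω A)
    (hB : s (algebraMap F Ω B) = algebraMap F Ω B) : Function.Injective (acr (A := A) (B := B) s hA hB) := by
  intro P Q hPQ
  have h : acr (A := A) (B := B) s hA hB (P - Q) = 0 := by
    rw [map_sub, hPQ, sub_self]
  exact sub_eq_zero.1 ((acr_zero_iff s hA hB _).1 h)

/-- For automorphisms over F this is the usual action. -/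
theorem acr_eq_ac (s : Ω ≃ₐ[F] Ω) (hA : (s : Ω ≃+* Ω) (algebraMap F Ω A) = algebraMap F Ω A)
    (hB : (s : Ω ≃+* Ω) (algebraMap F Ω B) = algebraMap F Ω B) (P : Pt (WAB A B) Ω) :
    acr (s : Ω ≃+* Ω) hA hB P = ac (WAB A B) s P := by
  by_cases hP : P = 0
  · rw [hP, map_zero, map_zero]
  · refine CC.c27_ext (fun h => hP ((acr_zero_iff _ hA hB P).1 h)) (CC.c27_ne _ s hP) ?_ ?_
    · rw [xc_acr, CC.c27_xc]
      rfl
    · rw [yc_acr, CC.c27_yc]
      rfl

/-- Composition. -/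
theorem acr_trans (s t : Ω ≃+* Ω) (hA : s (algebraMap F Ω A) = algebraMap F Ω A)
    (hB : s (algebraMap F Ω B) = algebraMap F Ω B) (hA' : t (algebraMap F Ω A) = algebraMap F Ω A)
    (hB' : t (algebraMap F Ω B) = algebraMap F Ω B) (hA'' : (s.trans t) (algebraMap F Ω A) = algebraMap F Ω A)
    (hB'' : (s.trans t) (algebraMap F Ω B) = algebraMap F Ω B) (P : Pt (WAB A B) Ω) :
    acr t hA' hB' (acr s hA hB P) = acr (s.trans t) hA'' hB'' P := by
  by_cases hP : P = 0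
  · rw [hP, map_zero, map_zero, map_zero]
  · refine CC.c27_ext (fun h => hP ((acr_zero_iff s hA hB P).1 ((acr_zero_iff _ hA' hB' _).1 h)))
      (fun h => hP ((acr_zero_iff _ hA'' hB'' P).1 h)) ?_ ?_
    · rw [xc_acr, xc_acr, xc_acr]
      rfl
    · rw [yc_acr, yc_acr, yc_acr]
      rfl

end action

variable {F : Type} [Field F] [NumberField F] [IQ F] {Ω : Type} [Field Ω] [DecidableEq Ω] [Algebra F Ω]
  {A B : F} {Om : ℂ} {j : Ω →+* ℂ} {act : 𝓞 F →+* AddMonoid.End (Pt (WAB A B) Ω)}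

omit [DecidableEq Ω] [Algebra F Ω] [NumberField F] [IQ F] [Field F] in
theorem cg_ND {α β A B : Ω} {d : ℕ} {N D : Polynomial Ω} (h : ND α A B d N D) (s : Ω →+* Ω)
    (h1 : s α = β) (h2 : s A = A) (h3 : s B = B) : ND β A B d (N.map s) (D.map s) := by
  refine ⟨(natDegree_map_le).trans h.dN, ?_, (natDegree_map_le).trans h.dD, ?_, ?_⟩
  · rw [coeff_map]
    have := congrArg s h.cN
    rwa [map_mul, map_pow, h1, map_one] at this
  · rw [coeff_map, h.cD, map_one]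
  · have := congrArg (Polynomial.map s) h.ode
    simp only [Polynomial.map_mul, Polynomial.map_add, Polynomial.map_sub, Polynomial.map_pow, map_X, map_C,
      map_pow, h1, h2, h3, ← derivative_map] at this
    simpa only [map_pow] using this

theorem cg_gen [IsAlgClosed Ω] (h : CH A B Om j) (hact : Act A B Om j act) {a : 𝓞 F} (ha : a ≠ 0) (s : Ω ≃+* Ω)
    (hA : s (algebraMap F Ω A) = algebraMap F Ω A) (hB : s (algebraMap F Ω B) = algebraMap F Ω B)
    (hs : s (ak Ω a) = ak Ω (cj a))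
    {P : Pt (WAB A B) Ω} (h1 : act a P ≠ 0) (h2 : act (cj a) (acr s hA hB P) ≠ 0) :
    acr s hA hB (act a P) = act (cj a) (acr s hA hB P) := by
  have hc : CharZero Ω := charZero_of_injective_algebraMap (algebraMap F Ω).injective
  have ha' : cj a ≠ 0 := fun h0 => ha ((map_eq_zero_iff (cj (F := F)) (cj (F := F)).injective).1 h0)
  obtain ⟨d, N, D, hND, hMR⟩ := CC.exists_ND h ha
  obtain ⟨e, M, E, hME, hMR'⟩ := CC.exists_ND h ha'
  have hα : ak Ω (cj a) ≠ 0 := by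
    intro h0
    apply ha'
    have e1 : algebraMap F Ω ((cj a : 𝓞 F) : F) = algebraMap F Ω 0 := by rw [map_zero]; exact h0
    have e2 := (algebraMap F Ω).injective e1
    exact_mod_cast e2
  have hev : ∀ (q : Polynomial Ω) (x : Ω), (q.map (s : Ω →+* Ω)).eval (s x) = s (q.eval x) := by
    intro q x
    rw [eval_map]
    exact eval₂_at_apply (s : Ω →+* Ω) x
  have hmap := cg_ND hND (s : Ω →+* Ω) hs hA hB
  have heq := CC.ND_unique hα hmap hME
  obtain ⟨p1, p2, p3⟩ := CC.act_xy h hact hMR h1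
  obtain ⟨q1, q2, q3⟩ := CC.act_xy h hact hMR' h2
  rw [xc_acr] at q1 q2 q3
  rw [yc_acr] at q3
  have heq1 := congrArg (eval (s (xc P))) heq
  have heq2 := congrArg (fun r => eval (s (xc P)) (derivative r)) heq
  simp only [derivative_mul, eval_add, eval_mul] at heq1 heq2
  rw [hev, hev] at heq1
  rw [hev, hev, derivative_map, derivative_map, hev, hev] at heq2
  have r1 : s (D.eval (xc P)) ≠ 0 := (map_ne_zero s).2 p1
  have r2 := congrArg s p2
  have r3 := congrArg s p3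
  simp only [eval_sub, eval_mul, map_mul, map_sub, map_pow, hs] at r2 r3 q3
  have hx : xc (acr s hA hB (act a P)) = xc (act (cj a) (acr s hA hB P)) := by
    rw [xc_acr]
    apply mul_right_cancel₀ (mul_ne_zero r1 q1)
    linear_combination (E.eval (s (xc P))) * r2 + heq1 - (s (D.eval (xc P))) * q2
  have hy : yc (acr s hA hB (act a P)) = yc (act (cj a) (acr s hA hB P)) := by
    rw [yc_acr]
    apply mul_right_cancel₀ (mul_ne_zero (mul_ne_zero hα (pow_ne_zero 2 r1)) (pow_ne_zero 2 q1))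
    linear_combination (E.eval (s (xc P))) ^ 2 * r3 - (s (D.eval (xc P))) ^ 2 * q3 +
      (s (D.eval (xc P)) * E.eval (s (xc P)) * s (yc P)) * heq2 -
      ((s ((derivative D).eval (xc P)) * E.eval (s (xc P)) + (derivative E).eval (s (xc P)) * s (D.eval (xc P))) *
        s (yc P)) * heq1
  exact CC.c27_ext (fun h0 => h1 ((acr_zero_iff s hA hB _).1 h0)) h2 hx hy

/-- An automorphism of Ω which is the complex conjugation on F and fixes A and B is semilinear. -/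
theorem cm_galr [IsAlgClosed Ω] (h : CH A B Om j) (hact : Act A B Om j act) (s : Ω ≃+* Ω)
    (hA : s (algebraMap F Ω A) = algebraMap F Ω A) (hB : s (algebraMap F Ω B) = algebraMap F Ω B)
    (hs : ∀ a : 𝓞 F, s (ak Ω a) = ak Ω (cj a)) (a : 𝓞 F)
    (P : Pt (WAB A B) Ω) : acr s hA hB (act a P) = act (cj a) (acr s hA hB P) := by
  by_cases ha : a = 0
  · subst ha
    have h0 : ∀ Q : Pt (WAB A B) Ω, act 0 Q = 0 := fun Q => by
      rw [map_zero]
      rfl
    rw [h0, map_zero, map_zero, h0]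
  · have ha' : cj a ≠ 0 := fun h0 => ha ((map_eq_zero_iff (cj (F := F)) (cj (F := F)).injective).1 h0)
    have := CC.inf_pt h
    set δ : Pt (WAB A B) Ω →+ Pt (WAB A B) Ω :=
      (acr s hA hB).comp (act a : Pt (WAB A B) Ω →+ Pt (WAB A B) Ω) -
      (act (cj a) : Pt (WAB A B) Ω →+ Pt (WAB A B) Ω).comp (acr s hA hB) with hδ
    have h1 : ∀ Q, δ Q = acr s hA hB (act a Q) - act (cj a) (acr s hA hB Q) := fun Q => rfl
    have hf := CC.fin_ker h hact ha
    have hf' := CC.fin_ker h hact ha'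
    have hZ : ({Q : Pt (WAB A B) Ω | act a Q = 0} ∪ {Q | act (cj a) (acr s hA hB Q) = 0}).Finite := by
      refine hf.union (hf'.preimage (f := fun Q => acr s hA hB Q) ?_)
      exact (acr_inj s hA hB).injOn
    have h3 := CC.add_fin δ hZ (fun Q hQ => by
      rw [h1, sub_eq_zero]
      exact cg_gen h hact ha s hA hB (hs a) (fun h4 => hQ (Or.inl h4)) (fun h4 => hQ (Or.inr h4))) P
    rw [h1, sub_eq_zero] at h3
    exact h3

end H55K
end

-- from Lib.H55K.CU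
section

/-! # H55K, part C: uniqueness of the complex multiplication -/

open NumberField WeierstrassCurve Polynomial

namespace H55K

open H55P (IQ embF eF LF Per Pt ac mem_LF eF_inj eF_ne Nm Nm_eq)
open H35P (WAB)

variable {F : Type} [Field F] [NumberField F] [IQ F] {Ω : Type} [Field Ω] [DecidableEq Ω] [Algebra F Ω]
  {A B : F} {Om Om' : ℂ} {j : Ω →+* ℂ} {act act' : 𝓞 F →+* AddMonoid.End (Pt (WAB A B) Ω)}

omit [NumberField F] [IQ F] in
theorem cu_nat (act : 𝓞 F →+* AddMonoid.End (Pt (WAB A B) Ω)) (n : ℕ) (T : Pt (WAB A B) Ω) :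
    act (n : 𝓞 F) T = n • T := by
  rw [map_natCast]
  rfl

/-- The two actions agree on the points of finite order. -/
theorem cu_tors (h : CMA F A B Om j act) (h' : CMA F A B Om j act') {n : ℕ} (hn : 2 ≤ n) {T : Pt (WAB A B) Ω}
    (hT : n • T = 0) (a : 𝓞 F) : act a T = act' a T := by
  have hb : (n : 𝓞 F) ≠ 0 := by exact_mod_cast (by omega : n ≠ 0)
  have hnu : ¬ (n : 𝓞 F) ∣ 1 := by
    intro hd
    have h1 : IsUnit (n : 𝓞 F) := isUnit_of_dvd_one hd
    have h2 : Nm (n : 𝓞 F) = 1 := by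
      unfold Nm
      rw [Ideal.span_singleton_eq_top.2 h1, ← Ideal.one_eq_top, map_one]
    rw [Nm_nat] at h2
    nlinarith
  obtain ⟨T₀, hT₀, g1, g2, g3⟩ := h.gen (n : 𝓞 F) hb
  obtain ⟨T₁, hT₁, k1, k2, k3⟩ := h'.gen (n : 𝓞 F) hb
  have key : ∀ c : 𝓞 F, act c T₀ = act' c T₁ := by
    intro c
    by_cases hc : (n : 𝓞 F) ∣ c
    · rw [(g2 c).2 hc, (k2 c).2 hc]
    · have e1 := g3 c hc
      have e2 := k3 c hc
      refine CC.c27_ext (fun h0 => hc ((g2 c).1 h0)) (fun h0 => hc ((k2 c).1 h0)) ?_ ?_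
      · exact j.injective (e1.1.trans e2.1.symm)
      · exact j.injective (e1.2.trans e2.2.symm)
  have h01 : T₀ = T₁ := by
    have := key 1
    rw [map_one, map_one] at this
    exact this
  obtain ⟨c, hc⟩ := g1 T (by
    show act (n : 𝓞 F) T = 0
    rw [cu_nat]
    exact hT)
  have hc' : T = act' c T₀ := by
    rw [hc, key c, h01]
  have e1 : act a T = act (a * c) T₀ := by
    rw [hc, map_mul]
    rfl
  have e2 : act' a T = act' (a * c) T₀ := by
    rw [hc', map_mul]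
    rfl
  rw [e1, e2, key, h01]

/-- The complex multiplication is unique. -/
theorem cma_unique (h : CMA F A B Om j act) (h' : CMA F A B Om j act') (a : 𝓞 F) (P : Pt (WAB A B) Ω) :
    act a P = act' a P := by
  by_cases ha : a = 0
  · rw [ha, map_zero, map_zero]
  · have hN : Nm a ≠ 0 := by
      rw [Ne, H55P.Nm_eq_zero]
      exact ha
    have hk : ∀ (act₁ : 𝓞 F →+* AddMonoid.End (Pt (WAB A B) Ω)) (Q : Pt (WAB A B) Ω), act₁ a Q = 0 →
        (2 * Nm a) • Q = 0 := by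
      intro act₁ Q hQ
      rw [← cu_nat act₁, Nat.cast_mul, ← mul_cj a, show ((2 : ℕ) : 𝓞 F) * (a * cj a) = (2 : ℕ) * cj a * a by ring, map_mul]
      show act₁ _ (act₁ a Q) = 0
      rw [hQ, map_zero]
    have hker : ∀ Q, act a Q = 0 ↔ act' a Q = 0 := by
      intro Q
      constructor
      · intro hQ
        rw [← cu_tors h h' (by omega) (hk act Q hQ) a]
        exact hQ
      · intro hQ
        rw [cu_tors h h' (by omega) (hk act' Q hQ) a]
        exact hQ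
    obtain ⟨S, hS, -⟩ := exists_TN h ha
    have hS' : TN act' a S := fun T => by
      rw [hS T, hker]
    by_cases hP : act a P = 0
    · rw [hP, (hker P).1 hP]
    · have hP' : act' a P ≠ 0 := fun h0 => hP ((hker P).2 h0)
      have hak : ak Ω a ≠ 0 := by
        intro h0
        apply ha
        have e1 : algebraMap F Ω (a : F) = algebraMap F Ω 0 := by rw [map_zero]; exact h0
        have e2 := (algebraMap F Ω).injective e1
        exact_mod_cast e2
      refine CC.c27_ext hP hP' ?_ ?_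
      · exact mul_left_cancel₀ (pow_ne_zero 2 hak) ((h.e1x a S ha hS P hP).trans (h'.e1x a S ha hS' P hP').symm)
      · exact mul_left_cancel₀ (pow_ne_zero 3 hak) ((h.e1y a S ha hS P hP).trans (h'.e1y a S ha hS' P hP').symm)

/-- An automorphism of Ω which is the complex conjugation on F and fixes A and B is semilinear for the complex multiplication. -/
theorem cma_galr [IsAlgClosed Ω] [Algebra.IsAlgebraic F Ω] (h : CMA F A B Om j act) (s : Ω ≃+* Ω)
    (hA : s (algebraMap F Ω A) = algebraMap F Ω A) (hB : s (algebraMap F Ω B) = algebraMap F Ω B)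
    (hs : ∀ a : 𝓞 F, s (ak Ω a) = ak Ω (cj a)) (a : 𝓞 F)
    (P : Pt (WAB A B) Ω) : acr s hA hB (act a P) = act (cj a) (acr s hA hB P) := by
  have hC : CC.CH A B Om j := ⟨h.disc, h.per, h.ovr⟩
  obtain ⟨act₁, hact₁⟩ := CC.exists_act hC
  have h₁ : CMA F A B Om j act₁ :=
    { disc := h.disc
      per := h.per
      ovr := h.ovr
      gal := fun s a P => cm_gal hC hact₁ s a P
      surj := fun b hb P => CC.act_surj hC hb P
      gen := fun b hb => CC.act_gen hC hact₁ hb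
      e1x := fun a S ha hS P hP => CC.act_e1x hC hact₁ ha hS hP
      e1y := fun a S ha hS P hP => CC.act_e1y hC hact₁ ha hS hP
      e2 := fun b S hb hS P Q hP hQ => CC.act_e2 hC hact₁ hb hS hP hQ }
  rw [cma_unique h h₁, cma_unique h h₁]
  exact cm_galr hC hact₁ s hA hB hs a P

end H55K
end

-- from Lib.H55K.RF
section

/-! # H55K: the primes of F ramified over the rational numbers are primes of bad reduction of a curve over the rational numbers -/

open NumberField IsDedekindDomain WeierstrassCurve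

namespace H55K.TQ

open H55P (IQ embF eF LF Per IsHecke Pt ac Inert Dec Nm UnitP)
open H35P (WAB Ker tt GoodW IntW)
open H55K.MG (VC Crd)

section arith

variable {F : Type} [Field F] [NumberField F] [IQ F]

theorem rf_tr (a : 𝓞 F) : ∃ n : ℤ, a + cj a = (n : 𝓞 F) := by
  refine ⟨(Nm (1 + a) : ℤ) - 1 - Nm a, ?_⟩
  have h1 := mul_cj (1 + a)
  have h2 := mul_cj a
  rw [map_add, map_one] at h1
  push_cast
  linear_combination h1 - h2

theorem rf_card {p : ℕ} (hp : p.Prime) (hp2 : p ≠ 2) (h : ∀ a : 𝓞 F, (p : 𝓞 F) ∣ a - cj a) : False := by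
  have h1 : ∀ a : 𝓞 F, ∃ n : ℤ, (p : 𝓞 F) ∣ a - n := by
    intro a
    obtain ⟨t, ht⟩ := rf_tr a
    obtain ⟨c, hc⟩ := h a
    obtain ⟨k, hk⟩ := hp.odd_of_ne_two hp2
    refine ⟨(k + 1) * t, a * (-1) + (k + 1) * c, ?_⟩
    have hk' : (p : 𝓞 F) = 2 * k + 1 := by
      rw [hk]
      push_cast
      rfl
    push_cast
    rw [hk'] at hc ⊢
    linear_combination (k + 1 : 𝓞 F) * ht + (k + 1 : 𝓞 F) * hc
  have hp0 := hp.pos
  have hF : Fact p.Prime := ⟨hp⟩
  have hs : Function.Surjective (fun n : Fin p => (Ideal.Quotient.mk (Ideal.span {(p : 𝓞 F)}) ((n : ℕ) : 𝓞 F))) := by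
    intro y
    obtain ⟨a, rfl⟩ := Ideal.Quotient.mk_surjective y
    obtain ⟨n, hn⟩ := h1 a
    have hm : 0 ≤ n % (p : ℤ) := Int.emod_nonneg _ (by exact_mod_cast hp.ne_zero)
    have hm2 : n % (p : ℤ) < p := Int.emod_lt_of_pos _ (by exact_mod_cast hp0)
    refine ⟨⟨(n % (p : ℤ)).toNat, by omega⟩, ?_⟩
    show Ideal.Quotient.mk _ (((n % (p : ℤ)).toNat : ℕ) : 𝓞 F) = _
    rw [Ideal.Quotient.eq, Ideal.mem_span_singleton]
    have e1 : (((n % (p : ℤ)).toNat : ℕ) : 𝓞 F) = ((n % (p : ℤ) : ℤ) : 𝓞 F) := by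
      have e2 : (((n % (p : ℤ)).toNat : ℕ) : ℤ) = n % (p : ℤ) := Int.toNat_of_nonneg hm
      rw [← e2]
      push_cast
      rfl
    rw [e1]
    have e3 : n % (p : ℤ) = n - p * (n / p) := Int.emod_def _ _
    rw [e3]
    push_cast
    have e4 : (n : 𝓞 F) - (p : 𝓞 F) * ((n / (p : ℤ) : ℤ) : 𝓞 F) - a = -(a - n) - (p : 𝓞 F) * ((n / (p : ℤ) : ℤ) : 𝓞 F) := by ring
    rw [e4]
    exact dvd_sub (dvd_neg.2 hn) (dvd_mul_right _ _)
  have h2 : Nat.card (𝓞 F ⧸ Ideal.span {(p : 𝓞 F)}) ≤ p := by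
    have h3 := Nat.card_le_card_of_surjective _ hs
    rw [Nat.card_fin] at h3
    exact h3
  have h3 : Nat.card (𝓞 F ⧸ Ideal.span {(p : 𝓞 F)}) = p ^ 2 := Nm_nat (F := F) p
  rw [h3] at h2
  nlinarith [hp.two_le]

end arith

section curve

variable {F : Type} [Field F] [NumberField F] [IQ F]

open scoped Classical in
/-- A curve over the rational numbers with good reduction at V: elements of the inertia group fix the torsion prime to the residue characteristic. -/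
theorem rf_fix {Ω : Type} [Field Ω] [Algebra ℚ Ω] (W : WeierstrassCurve ℚ) {V : ValuationSubring Ω} (hI : GoodW (W⁄Ω) V)
    (hΔ : W.Δ ≠ 0) {A₀ B₀ : ℚ} (hA : A₀ = -W.c₄ / 48) (hB : B₀ = -W.c₆ / 864) (g : Ω ≃ₐ[ℚ] Ω) (hg : Inert V g) (n : ℕ)
    (hn : V.valuation (n : Ω) = 1) (E : WeierstrassCurve Ω) (hE : E = (WAB A₀ B₀)⁄Ω) (T : E.toAffine.Point) (hT : n • T = 0) :
    g (xc T) = xc T ∧ g (yc T) = yc T := by
  subst hE
  have h48 : (48 : ℚ) ≠ 0 := by norm_num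
  have hd : (WAB A₀ B₀).Δ = W.Δ := by
    have h1 := W.c_relation
    have h2 : (WAB A₀ B₀).Δ = -16 * (4 * A₀ ^ 3 + 27 * B₀ ^ 2) := by
      simp only [WAB, WeierstrassCurve.Δ, WeierstrassCurve.b₂, WeierstrassCurve.b₄, WeierstrassCurve.b₆, WeierstrassCurve.b₈]
      ring
    rw [h2, hA, hB]
    linear_combination (-1 / 1728 : ℚ) * h1
  have hG : GMd ((WAB A₀ B₀)⁄Ω) V (Set.range (algebraMap ℚ Ω)) := by
    refine ⟨W⁄Ω, algebraMap ℚ Ω 1, algebraMap ℚ Ω (W.b₂ / 12), algebraMap ℚ Ω (W.a₁ / 2), algebraMap ℚ Ω (W.a₃ / 2), ⟨_, rfl⟩, ⟨_, rfl⟩, ⟨_, rfl⟩, ⟨_, rfl⟩, ?_, hI⟩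
    have k1 : (1 : ℚ) * W.a₁ = (WAB A₀ B₀).a₁ + 2 * (W.a₁ / 2) := by
      simp only [WAB]
      ring
    have k2 : (1 : ℚ) ^ 2 * W.a₂ = (WAB A₀ B₀).a₂ - (W.a₁ / 2) * (WAB A₀ B₀).a₁ + 3 * (W.b₂ / 12) - (W.a₁ / 2) ^ 2 := by
      simp only [WAB, WeierstrassCurve.b₂]
      ring
    have k3 : (1 : ℚ) ^ 3 * W.a₃ = (WAB A₀ B₀).a₃ + (W.b₂ / 12) * (WAB A₀ B₀).a₁ + 2 * (W.a₃ / 2) := by
      simp only [WAB]
      ring
    have k4 : (1 : ℚ) ^ 4 * W.a₄ = (WAB A₀ B₀).a₄ - (W.a₁ / 2) * (WAB A₀ B₀).a₃ + 2 * (W.b₂ / 12) * (WAB A₀ B₀).a₂ -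
        (W.a₃ / 2 + (W.b₂ / 12) * (W.a₁ / 2)) * (WAB A₀ B₀).a₁ + 3 * (W.b₂ / 12) ^ 2 - 2 * (W.a₁ / 2) * (W.a₃ / 2) := by
      simp only [WAB, WeierstrassCurve.b₂, hA, WeierstrassCurve.c₄, WeierstrassCurve.b₄]
      ring
    have k6 : (1 : ℚ) ^ 6 * W.a₆ = (WAB A₀ B₀).a₆ + (W.b₂ / 12) * (WAB A₀ B₀).a₄ + (W.b₂ / 12) ^ 2 * (WAB A₀ B₀).a₂ + (W.b₂ / 12) ^ 3 -
        (W.a₃ / 2) * (WAB A₀ B₀).a₃ - (W.a₃ / 2) ^ 2 - (W.b₂ / 12) * (W.a₃ / 2) * (WAB A₀ B₀).a₁ := by
      simp only [WAB, WeierstrassCurve.b₂, hA, hB, WeierstrassCurve.c₄, WeierstrassCurve.b₄, WeierstrassCurve.c₆, WeierstrassCurve.b₆]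
      ring
    have j1 := congrArg (algebraMap ℚ Ω) k1
    have j2 := congrArg (algebraMap ℚ Ω) k2
    have j3 := congrArg (algebraMap ℚ Ω) k3
    have j4 := congrArg (algebraMap ℚ Ω) k4
    have j6 := congrArg (algebraMap ℚ Ω) k6
    simp only [map_add, map_sub, map_mul, map_pow, map_ofNat] at j1 j2 j3 j4 j6
    exact ⟨by rw [map_one]; exact one_ne_zero, j1, j2, j3, j4, j6⟩
  have h0 : ac (WAB A₀ B₀) g T = T := inert_triv (by rw [hd]; exact hΔ) hG g (by
    rintro _ ⟨x, rfl⟩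
    exact g.commutes x) hg n hn T hT
  have h1 := MG.ac_crd g T
  rw [h0] at h1
  exact ⟨h1.1.symm, h1.2.1.symm⟩

omit [IQ F] in
theorem rf_one {Ω : Type} [Field Ω] [Algebra F Ω] {V : ValuationSubring Ω} {v : HeightOneSpectrum (𝓞 F)} (hV : Abw V v) {x : 𝓞 F}
    (hx : x ∉ v.asIdeal) : V.valuation (ak Ω x) = 1 := by
  have h1 : v.valuation F (algebraMap (𝓞 F) F x) = 1 :=
    le_antisymm (v.valuation_le_one _) (not_lt.1 fun h3 => hx ((v.valuation_lt_one_iff_mem _).1 h3))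
  exact (hV.eq_one (x : F)).2 h1

/-- The primes of F ramified over the rational numbers divide the discriminant. -/
theorem hram_of {W : WeierstrassCurve ℤ} {Om : ℂ} {m : Ideal (𝓞 F)}
    {ψ : Ideal (𝓞 F) →*₀ 𝓞 F} (hH : BaseH F (W⁄(𝓞 F)) Om m ψ) (v : HeightOneSpectrum (𝓞 F))
    (hv : ∀ a : 𝓞 F, a - cj a ∈ v.asIdeal) : (W⁄(𝓞 F)).Δ ∈ v.asIdeal := by
  classical
  by_contra hΔ
  -- the prime number p
  obtain ⟨p, hp, hp2, hpv⟩ : ∃ p : ℕ, p.Prime ∧ p ≠ 2 ∧ (p : 𝓞 F) ∉ v.asIdeal := by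
    by_cases h3 : ((3 : ℕ) : 𝓞 F) ∈ v.asIdeal
    · refine ⟨5, by norm_num, by norm_num, fun h5 => ?_⟩
      apply v.isPrime.ne_top
      rw [Ideal.eq_top_iff_one]
      have e : (1 : 𝓞 F) = 2 * ((3 : ℕ) : 𝓞 F) - ((5 : ℕ) : 𝓞 F) := by norm_num
      rw [e]
      exact v.asIdeal.sub_mem (v.asIdeal.mul_mem_left _ h3) h5
    · exact ⟨3, by norm_num, by norm_num, h3⟩
  set Ω := AlgebraicClosure F with hΩ
  have hcl : IsAlgClosure ℚ Ω := ⟨inferInstance, Algebra.IsAlgebraic.trans ℚ F Ω⟩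
  -- the valuation ring
  obtain ⟨V, hV⟩ := exists_abw Ω v
  -- the automorphism
  obtain ⟨σ, hσ⟩ := d1_sigma F
  have hσ' : ∀ a : 𝓞 F, σ (a : F) = ((cj a : 𝓞 F) : F) := by
    intro a
    apply (embF F).injective
    rw [hσ]
    exact (e_cj a).symm
  have hn : Normal ℚ Ω := IsAlgClosure.normal ℚ Ω
  set s0 : Ω ≃ₐ[ℚ] Ω := AlgEquiv.liftNormal σ Ω with hs0
  have hs0' : ∀ x : F, s0 (algebraMap F Ω x) = algebraMap F Ω (σ x) := fun x => AlgEquiv.liftNormal_commutes _ _ _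
  set N' : IntermediateField ℚ Ω := (IsScalarTower.toAlgHom ℚ F Ω).fieldRange with hN'
  have hfin : FiniteDimensional ℚ N' :=
    (AlgEquiv.ofInjectiveField (IsScalarTower.toAlgHom ℚ F Ω)).toLinearEquiv.finiteDimensional
  have hmem : ∀ x : Ω, x ∈ N' → ∃ y : F, algebraMap F Ω y = x := by
    rintro x ⟨y, hy⟩
    exact ⟨y, hy⟩
  obtain ⟨s, hsI, hs1⟩ := H13S.inertia_lift N' V s0 (by
      intro x hx
      obtain ⟨y, rfl⟩ := hmem x hx
      rw [hs0']
      exact ⟨σ y, rfl⟩) (by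
      intro x hx hxV
      obtain ⟨y, rfl⟩ := hmem x hx
      rw [hs0', ← map_sub, hV.lt]
      refine H13S.in4_val v σ ?_ y ((hV y).1 hxV)
      intro z
      have e : σ • z = cj z := by
        apply RingOfIntegers.coe_injective
        exact hσ' z
      rw [e, ← neg_sub]
      exact v.asIdeal.neg_mem (hv z))
  have hs : ∀ x : F, s (algebraMap F Ω x) = algebraMap F Ω (σ x) := by
    intro x
    rw [hs1 (algebraMap F Ω x) ⟨x, rfl⟩, hs0']
  -- the curve over the rational numbers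
  set A₀ : ℚ := -(W⁄ℚ).c₄ / 48 with hA₀
  set B₀ : ℚ := -(W⁄ℚ).c₆ / 864 with hB₀
  have hc4 : algebraMap (𝓞 F) F (W⁄(𝓞 F)).c₄ = algebraMap ℚ F (W⁄ℚ).c₄ := by
    have e1 : (W⁄(𝓞 F)).c₄ = algebraMap ℤ (𝓞 F) W.c₄ := W.map_c₄ _
    have e2 : (W⁄ℚ).c₄ = algebraMap ℤ ℚ W.c₄ := W.map_c₄ _
    rw [e1, e2]
    simp
  have hc6 : algebraMap (𝓞 F) F (W⁄(𝓞 F)).c₆ = algebraMap ℚ F (W⁄ℚ).c₆ := by
    have e1 : (W⁄(𝓞 F)).c₆ = algebraMap ℤ (𝓞 F) W.c₆ := W.map_c₆ _
    have e2 : (W⁄ℚ).c₆ = algebraMap ℤ ℚ W.c₆ := W.map_c₆ _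
    rw [e1, e2]
    simp
  obtain ⟨A, hA⟩ : ∃ A : F, A = -(algebraMap (𝓞 F) F (W⁄(𝓞 F)).c₄) / 48 := ⟨_, rfl⟩
  obtain ⟨B, hB⟩ : ∃ B : F, B = -(algebraMap (𝓞 F) F (W⁄(𝓞 F)).c₆) / 864 := ⟨_, rfl⟩
  have hA' : A = algebraMap ℚ F A₀ := by
    rw [hA, hc4, hA₀, map_div₀, map_neg, map_ofNat]
  have hB' : B = algebraMap ℚ F B₀ := by
    rw [hB, hc6, hB₀, map_div₀, map_neg, map_ofNat]
  have hΔ0 := hH.data.ell
  have hd := y3_ne (W⁄(𝓞 F)) hA hB hΔ0
  have hper : Per F (embF F A) (embF F B) Om := by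
    have e1 : embF F A = -(eF F (W⁄(𝓞 F)).c₄) / 48 := by
      rw [hA, map_div₀, map_neg, map_ofNat]
      rfl
    have e2 : embF F B = -(eF F (W⁄(𝓞 F)).c₆) / 864 := by
      rw [hB, map_div₀, map_neg, map_ofNat]
      rfl
    rw [e1, e2]
    exact hH.data.per
  obtain ⟨j, hj⟩ := exists_j F Ω
  obtain ⟨act, h⟩ := exists_CMA F A B Om j hd hper hj
  set s' : Ω ≃+* Ω := (s : Ω ≃+* Ω) with hs'
  have hsA : s' (algebraMap F Ω A) = algebraMap F Ω A := by
    rw [hA', ← IsScalarTower.algebraMap_apply ℚ F Ω]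
    exact s.commutes _
  have hsB : s' (algebraMap F Ω B) = algebraMap F Ω B := by
    rw [hB', ← IsScalarTower.algebraMap_apply ℚ F Ω]
    exact s.commutes _
  have hsc : ∀ a : 𝓞 F, s' (ak Ω a) = ak Ω (cj a) := by
    intro a
    show s (algebraMap F Ω (a : F)) = _
    rw [hs, hσ']
  have hsl := cma_galr h s' hsA hsB hsc
  -- good reduction
  have hVp : V.valuation (p : Ω) = 1 := by
    have h1 := rf_one hV hpv
    have e : ak Ω (p : 𝓞 F) = (p : Ω) := by
      show algebraMap F Ω (((p : 𝓞 F)) : F) = _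
      simp
    rwa [e] at h1
  have hcast : ∀ n : ℤ, algebraMap ℚ Ω (algebraMap ℤ ℚ n) = (n : Ω) := fun n => by simp
  have hcast' : ∀ n : ℤ, algebraMap ℚ Ω (algebraMap ℤ ℚ n) ∈ V := fun n => by
    rw [hcast]
    exact intCast_mem V n
  have hΔQ : (W⁄ℚ).Δ = algebraMap ℤ ℚ W.Δ := W.map_Δ _
  have hΔF : (W⁄(𝓞 F)).Δ = algebraMap ℤ (𝓞 F) W.Δ := W.map_Δ _
  have hΔQ0 : (W⁄ℚ).Δ ≠ 0 := by
    intro h0
    apply hΔ0
    rw [hΔQ] at h0
    have h1 : W.Δ = 0 := by
      have h2 : (W.Δ : ℚ) = 0 := h0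
      exact_mod_cast h2
    rw [hΔF, h1, map_zero]
  have hGood : GoodW ((W⁄ℚ)⁄Ω) V := by
    refine ⟨⟨hcast' _, hcast' _, hcast' _, hcast' _, hcast' _⟩, ?_⟩
    have e1 : ((W⁄ℚ)⁄Ω).Δ = algebraMap ℚ Ω (W⁄ℚ).Δ := (W⁄ℚ).map_Δ _
    have h1 := rf_one hV hΔ
    have e2 : ak Ω (W⁄(𝓞 F)).Δ = (W.Δ : Ω) := by
      rw [hΔF]
      show algebraMap F Ω ((algebraMap ℤ (𝓞 F) W.Δ : 𝓞 F) : F) = _
      simp
    rw [e1, hΔQ, hcast, ← e2]
    exact h1
  have hE : (WAB A B)⁄Ω = (WAB A₀ B₀)⁄Ω := by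
    have e1 : algebraMap F Ω A = algebraMap ℚ Ω A₀ := by rw [hA', ← IsScalarTower.algebraMap_apply ℚ F Ω]
    have e2 : algebraMap F Ω B = algebraMap ℚ Ω B₀ := by rw [hB', ← IsScalarTower.algebraMap_apply ℚ F Ω]
    ext <;> simp [WAB, WeierstrassCurve.map, WeierstrassCurve.baseChange, e1, e2]
  have hfix : ∀ T : Pt (WAB A B) Ω, p • T = 0 → acr s' hsA hsB T = T := by
    intro T hT
    obtain ⟨f1, f2⟩ := rf_fix (W⁄ℚ) hGood hΔQ0 hA₀ hB₀ s hsI p hVp ((WAB A B)⁄Ω) hE T hT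
    by_cases hT0 : T = 0
    · rw [hT0, map_zero]
    · refine CC.c27_ext (fun h0 => hT0 ((acr_zero_iff s' hsA hsB T).1 h0)) hT0 ?_ ?_
      · rw [xc_acr]
        exact f1
      · rw [yc_acr]
        exact f2
  -- the contradiction
  refine rf_card (F := F) hp hp2 (fun a => ?_)
  have hpne : (p : 𝓞 F) ≠ 0 := by exact_mod_cast hp.ne_zero
  obtain ⟨T₀, hT₀, g1, g2, -⟩ := h.gen (p : 𝓞 F) hpne
  have hT₀' : p • T₀ = 0 := by
    rw [← cu_nat act]
    exact hT₀
  have e0 : p • act a T₀ = 0 := by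
    rw [← map_nsmul, hT₀', map_zero]
  have e1 := hsl a T₀
  rw [hfix T₀ hT₀', hfix _ e0] at e1
  rw [← g2 (a - cj a), map_sub]
  show act a T₀ - act (cj a) T₀ = 0
  rw [← e1, sub_self]

end curve

end H55K.TQ
end
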