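import Mathlib
import Pool.Agent.Lib.H1M.PP.D_H55K_RD
import Pool.Agent.Lib.H1M.PP.M010
import Pool.Agent.Lib.H1M.PP.M015
import Pool.Agent.Lib.H1M.PP.M016
import Pool.Agent.Lib.H1M.PP.M021
import Pool.Agent.Lib.H1M.PP.M029
import Pool.Agent.Lib.H1M.PP.M030
import Pool.Agent.Lib.H1M.PP.M036
import Pool.Agent.Lib.H1M.PP.M039
import Pool.Agent.Lib.H1M.PP.M041
import Pool.Agent.Lib.H1M.PP.M042
import Pool.Agent.Lib.H1M.PP.M043
import Pool.Agent.Lib.H1M.PP.M046
import Pool.Agent.Lib.H1M.PP.M047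
import Pool.Agent.Lib.H1M.PP.M048
import Pool.Agent.Lib.H1M.PP.M056
import Pool.Agent.Lib.H1M.PP.M061

/-! Merged copies (to shorten the build) of Lib.H13D.B1, Lib.H55K.RP1, Lib.H13D.B2, Lib.H13D.B3, Lib.H13X.XE, Lib.H13X.XZ2, Lib.H13Z.CZ1, Lib.H13X.XZ1, Lib.H13X.XCB, Lib.H13Z.LG, Lib.H13Z.LI, Lib.H13X.XI, Lib.H13Z.LDG, Lib.H13X.XDG. -/

-- from Lib.H13D.B1
section

/-! # H13D, part B: integral models -/

open NumberField IsDedekindDomain WeierstrassCurve

namespace H13D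

open H55P (IQ embF eF LF Per IsHecke Pt ac Inert Dec Nm)
open H35P (WAB Ker tt GoodW IntW)
open H55K
open H55K.MG (VC Crd)

theorem b1_div {k : Type} [Field k] {V : ValuationSubring k} {a b : k} (ha : a ∈ V) (hb : V.valuation b = 1) :
    a / b ∈ V := by
  rw [← V.valuation_le_one_iff, map_div₀, hb, div_one, V.valuation_le_one_iff]
  exact ha

theorem b1_addX {k : Type} [Field k] {W : WeierstrassCurve k} {V : ValuationSubring k} (h : IntW W V) {x x' l : k}
    (hx : x ∈ V) (hx' : x' ∈ V) (hl : l ∈ V) : W.toAffine.addX x x' l ∈ V := by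
  unfold Affine.addX
  exact sub_mem (sub_mem (sub_mem (add_mem (pow_mem hl 2) (mul_mem h.a1 hl)) h.a2) hx) hx'

theorem b1_unit {k : Type} [Field k] {V : ValuationSubring k} {a : k} (ha : a ∈ V) (h : ¬ V.valuation a < 1) :
    V.valuation a = 1 :=
  le_antisymm ((V.valuation_le_one_iff _).2 ha) (not_lt.1 h)

/-- Chunk B1 (M). Points congruent modulo the kernel of reduction have congruent coordinates (any good Weierstrass equation, all residue characteristics). Ker is a subgroup (MG.kg_ex in M3B.lean with Θ the identity, or H35P.ker_add). Q is not in Ker, else P = Q - (Q - P) is. P, Q have integral coordinates x, y and x', y' (MG.int_crd).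
x' congruent to x: otherwise V(x' - x) = 1; Q - P = Q + (-P), -P = (x, y°), y° = -y - a₁ x - a₃ (Affine.Point.neg_some, negY); add_some with the slope l = (y' - y°)/(x' - x) in V (slope_of_X_ne); the x-coordinate l^2 + a₁ l - a₂ - x' - x of Q - P is in V, so Q - P is not in Ker (Ker on some): contradiction.
y' congruent to y: otherwise V(y' - y) = 1. The equations give (y' - y)(y' - y°) = y'^2 + a₁ x y' + a₃ y' - (y^2 + a₁ x y + a₃ y), which is congruent to the difference of the cubics in x' and x, so it has value < 1: V(y' - y°) < 1, and Ker (Q - (-P)) by MG.cong_ker (Q, -P). So Ker (P + P) (P + P = (Q + P) - (Q - P)). But V(y - y°) = 1 (y - y° = (y - y') + (y' - y°)), so y ≠ y°,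
P + P = some with the tangent slope l = (3x^2 + 2a₂ x + a₄ - a₁ y)/(y - y°) in V (Affine.slope_of_Y_ne), x-coordinate l^2 + a₁ l - a₂ - 2x in V: P + P is not in Ker: contradiction. -/
theorem conv_gen {k : Type} [Field k] [DecidableEq k] {W : WeierstrassCurve k} {V : ValuationSubring k} (h : GoodW W V)
    {P Q : W.toAffine.Point} (hP : ¬ Ker V P) (hK : Ker V (Q - P)) :
    ¬ Ker V Q ∧ V.valuation (xc Q - xc P) < 1 ∧ V.valuation (yc Q - yc P) < 1 := by
  have hQ : ¬ Ker V Q := by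
    intro hQ
    apply hP
    have h1 := H35P.ker_add h.toIntW Q (-(Q - P)) hQ ((H35P.ker_neg _).2 hK)
    have h2 : Q + -(Q - P) = P := by abel
    rwa [h2] at h1
  obtain ⟨hP0, hPx, hPy⟩ := MG.int_crd h hP
  obtain ⟨hQ0, hQx, hQy⟩ := MG.int_crd h hQ
  rcases P with _ | ⟨x, y, hn⟩
  · exact absurd rfl hP0
  rcases Q with _ | ⟨x', y', hn'⟩
  · exact absurd rfl hQ0
  change x ∈ V at hPx
  change y ∈ V at hPy
  change x' ∈ V at hQx
  change y' ∈ V at hQy
  have hy0 : W.toAffine.negY x y ∈ V := by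
    unfold Affine.negY
    exact sub_mem (sub_mem (neg_mem hPy) (mul_mem h.a1 hPx)) h.a3
  have hX : V.valuation (x' - x) < 1 := by
    by_contra hlt
    have hu := b1_unit (sub_mem hQx hPx) hlt
    have hne : x' ≠ x := by
      intro he
      rw [he, sub_self, map_zero] at hu
      exact zero_ne_one hu
    have hK' := hK
    rw [sub_eq_add_neg, Affine.Point.neg_some, Affine.Point.add_some (fun hc => hne hc.1)] at hK'
    have h3 : W.toAffine.addX x' x (W.toAffine.slope x' x y' (W.toAffine.negY x y)) ∈ V := by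
      rw [Affine.slope_of_X_ne hne]
      exact b1_addX h.toIntW hQx hPx (b1_div (sub_mem hQy hy0) hu)
    exact absurd ((V.valuation_le_one_iff _).2 h3) (not_le.2 hK')
  refine ⟨hQ, hX, ?_⟩
  show V.valuation (y' - y) < 1
  by_contra hlt
  have hu := b1_unit (sub_mem hQy hPy) hlt
  have e1 := (Affine.equation_iff _ _).1 hn.1
  have e2 := (Affine.equation_iff _ _).1 hn'.1
  have hkey : (y' - y) * (y' - W.toAffine.negY x y) = (x' ^ 2 + x' * x + x ^ 2 +
      W.a₂ * (x' + x) + W.a₄ - W.a₁ * y') * (x' - x) := by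
    unfold Affine.negY
    linear_combination e2 - e1
  have hin : x' ^ 2 + x' * x + x ^ 2 + W.a₂ * (x' + x) + W.a₄ - W.a₁ * y' ∈ V :=
    sub_mem (add_mem (add_mem (add_mem (add_mem (pow_mem hQx 2) (mul_mem hQx hPx)) (pow_mem hPx 2))
      (mul_mem h.a2 (add_mem hQx hPx))) h.a4) (mul_mem h.a1 hQy)
  have hs : V.valuation (y' - W.toAffine.negY x y) < 1 := by
    have hv := congrArg V.valuation hkey
    rw [map_mul, map_mul, hu, one_mul] at hv
    rw [hv]
    exact mul_lt_one_of_nonneg_of_lt_one_right ((V.valuation_le_one_iff _).2 hin) zero_le hX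
  have hPn : ¬ Ker V (-(Affine.Point.some x y hn : W.toAffine.Point)) := fun hk => hP ((H35P.ker_neg _).1 hk)
  have hQP : Ker V ((Affine.Point.some x' y' hn' : W.toAffine.Point) - -(Affine.Point.some x y hn : W.toAffine.Point)) :=
    MG.cong_ker h hQ hPn (by rw [Affine.Point.neg_some]; exact hX) (by rw [Affine.Point.neg_some]; exact hs)
  have hPP : Ker V ((Affine.Point.some x y hn : W.toAffine.Point) + (Affine.Point.some x y hn : W.toAffine.Point)) := by
    have h1 := H35P.ker_add h.toIntW _ _ hQP ((H35P.ker_neg _).2 hK)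
    have h2 : ∀ P Q : W.toAffine.Point, Q - -P + -(Q - P) = P + P := by
      intro P Q
      abel
    rwa [h2] at h1
  have hvy : V.valuation (y - W.toAffine.negY x y) = 1 := by
    have h1 : y - W.toAffine.negY x y = -(y' - y) + (y' - W.toAffine.negY x y) := by ring
    rw [h1]
    rw [Valuation.map_add_eq_of_lt_left _ (by rw [Valuation.map_neg, hu]; exact hs), Valuation.map_neg, hu]
  have hyne : y ≠ W.toAffine.negY x y := by
    intro he
    rw [← he, sub_self, map_zero] at hvy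
    exact zero_ne_one hvy
  rw [Affine.Point.add_some (fun hc => hyne hc.2)] at hPP
  have h3 : W.toAffine.addX x x (W.toAffine.slope x x y y) ∈ V := by
    rw [Affine.slope_of_Y_ne rfl hyne]
    refine b1_addX h.toIntW hPx hPx (b1_div ?_ hvy)
    have two : (2 : k) ∈ V := by exact_mod_cast natCast_mem V 2
    have three : (3 : k) ∈ V := by exact_mod_cast natCast_mem V 3
    exact sub_mem (add_mem (add_mem (mul_mem three (pow_mem hPx 2)) (mul_mem (mul_mem two h.a2) hPx)) h.a4) (mul_mem h.a1 hPy)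
  exact absurd ((V.valuation_le_one_iff _).2 h3) (not_le.2 hPP)

end H13D
end

-- from Lib.H55K.RP1
section

/-! # H55K: the field generated by F over a field K -/

open NumberField IsDedekindDomain WeierstrassCurve

namespace H55K.TQ

open H55P (IQ embF eF LF Per IsHecke Pt ac Inert Dec Nm UnitP)
open H35P (WAB Ker tt GoodW IntW)
open H55K.MG (VC Crd)

variable (F : Type) [Field F] [NumberField F] [IQ F] {Ω : Type} [Field Ω] [Algebra F Ω] [Algebra ℚ Ω] [IsScalarTower ℚ F Ω]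

/-- Chunk RP1 (S). -/
theorem kg_le (K : Type) [Field K] [NumberField K] (ι : K →ₐ[ℚ] Ω) :
    ι.fieldRange ≤ (KG F K ι).restrictScalars ℚ := by
  rintro _ ⟨x, rfl⟩
  exact IntermediateField.subset_adjoin F _ ⟨x, rfl⟩

/-- Chunk RP1 (S/M). F/ℚ is quadratic, so normal: s maps the image of F in Ω to itself (every element of the image is a root of its minimal polynomial over ℚ, whose roots are in F); s fixes the range of ι; adjoin induction (H55P.pz14_stable in Z14.lean). -/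
theorem kg_stable (K : Type) [Field K] [NumberField K] (ι : K →ₐ[ℚ] Ω)
    (s : Ω ≃ₐ[ℚ] Ω) (hs : ∀ x : K, s (ι x) = ι x) (y : Ω) (hy : y ∈ KG F K ι) : s y ∈ KG F K ι := by
  have halg : ∀ x : F, s (algebraMap F Ω x) ∈ KG F K ι := by
    intro x
    have hq : Algebra.IsQuadraticExtension ℚ F := ⟨IQ.deg⟩
    have hn : Normal ℚ F := Algebra.IsQuadraticExtension.normal ℚ F
    rw [← AlgEquiv.restrictNormal_commutes s F x]
    exact (KG F K ι).algebraMap_mem _
  refine IntermediateField.adjoin_induction F (p := fun x _ => s x ∈ KG F K ι) ?_ ?_ ?_ ?_ ?_ hy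
  · rintro _ ⟨x, rfl⟩
    rw [hs x]
    exact IntermediateField.subset_adjoin F _ ⟨x, rfl⟩
  · intro x
    exact halg x
  · intro x y _ _ h1 h2
    rw [map_add]
    exact add_mem h1 h2
  · intro x _ h1
    rw [map_inv₀]
    exact inv_mem h1
  · intro x y _ _ h1 h2
    rw [map_mul]
    exact mul_mem h1 h2

/-- Chunk RP1 (S/M). Port of H55P.kf_norm (Z14.lean). -/
theorem kg_norm (K : Type) [Field K] [NumberField K] (ι : K →ₐ[ℚ] Ω)
    (s : Ω ≃ₐ[ℚ] Ω) (hs : s ∈ ι.fieldRange.fixingSubgroup) (t : Ω ≃ₐ[ℚ] Ω)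
    (ht : t ∈ ((KG F K ι).restrictScalars ℚ).fixingSubgroup) :
    s * t * s⁻¹ ∈ ((KG F K ι).restrictScalars ℚ).fixingSubgroup := by
  rw [IntermediateField.mem_fixingSubgroup_iff] at hs ht ⊢
  intro y hy
  have hs' : ∀ x : K, s⁻¹ (ι x) = ι x := by
    intro x
    have h1 : s (ι x) = ι x := hs (ι x) ⟨x, rfl⟩
    have h2 : s⁻¹ (s (ι x)) = ι x := s.symm_apply_apply _
    rwa [h1] at h2
  have h1 : s⁻¹ y ∈ KG F K ι := kg_stable F K ι s⁻¹ hs' y hy
  have h2 : t (s⁻¹ y) = s⁻¹ y := ht (s⁻¹ y) h1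
  change s (t (s⁻¹ y)) = y
  rw [h2]
  exact s.apply_symm_apply _

end H55K.TQ
end

-- from Lib.H13D.B2
section

/-! # H13D, part B: integral models -/

open NumberField IsDedekindDomain WeierstrassCurve

namespace H13D

open H55P (IQ embF eF LF Per IsHecke Pt ac Inert Dec Nm)
open H35P (WAB Ker tt GoodW IntW)
open H55K
open H55K.MG (VC Crd)

variable {F : Type} [Field F] {A B : F} {Ω : Type} [Field Ω] [DecidableEq Ω] [Algebra F Ω] {V : ValuationSubring Ω}

/-- Chunk B2 (S). hc: xc P = u^2 xc (Θ P) + r for P ≠ 0. -/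
theorem xn_crd {W' : WeierstrassCurve Ω} {u r s t : Ω} (hu : u ≠ 0) {Θ : Pt (WAB A B) Ω ≃+ W'.toAffine.Point} (hc : Crd u r s t Θ)
    {P : Pt (WAB A B) Ω} (h0 : P ≠ 0) : xn u r P = xc (Θ P) := by
  unfold xn
  rw [(hc P h0).2.1, add_sub_cancel_right, mul_div_cancel_left₀ _ (pow_ne_zero 2 hu)]

/-- Chunk B2 (S/M). For P ≠ 0: xn P = xc (Θ P) (xn_crd). tors: MG.kg_tors (M3B.lean). int, big: P not in Kg is not 0; MG.int_crd, MG.ker_crd (M3A.lean) for Θ P. diff: MG.unit_diff for Θ P, Θ Q (map_sub, map_add). conv: conv_gen for Θ P, Θ Q (P, Q ≠ 0: P not in Kg; Q not in Kg by conv_gen, so Q ≠ 0). -/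
theorem rm_of {W' : WeierstrassCurve Ω} (hG : GoodW W' V) {u r s t : Ω} (hu : u ≠ 0) {Θ : Pt (WAB A B) Ω ≃+ W'.toAffine.Point}
    (hc : Crd u r s t Θ) {Kg : AddSubgroup (Pt (WAB A B) Ω)} (hK : ∀ P, P ∈ Kg ↔ Ker V (Θ P)) : RM A B V Kg u r := by
  have hne : ∀ P : Pt (WAB A B) Ω, P ∉ Kg → P ≠ 0 := by
    intro P hP h0
    rw [h0] at hP
    exact hP Kg.zero_mem
  refine ⟨hu, ?_, ?_, ?_, ?_, ?_⟩
  · intro n hn T hT h0
    exact MG.kg_tors hG hn ((hK T).1 hT) h0
  · intro P hP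
    rw [xn_crd hu hc (hne P hP)]
    exact (V.valuation_le_one_iff _).2 (MG.int_crd hG (fun h => hP ((hK P).2 h))).2.1
  · intro P hP h0
    rw [xn_crd hu hc h0]
    exact (MG.ker_crd (hc P h0).1).1 ((hK P).1 hP)
  · intro P Q hP hQ h1 h2
    rw [xn_crd hu hc (hne P hP), xn_crd hu hc (hne Q hQ)]
    rw [hK] at hP hQ h1 h2
    rw [map_sub] at h1
    rw [map_add] at h2
    exact MG.unit_diff hG hP hQ h1 h2
  · intro P Q hP h1
    have hP' : ¬ Ker V (Θ P) := fun h => hP ((hK P).2 h)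
    rw [hK, map_sub] at h1
    obtain ⟨h2, h3, -⟩ := conv_gen hG hP' h1
    have hQ : Q ∉ Kg := fun h => h2 ((hK Q).1 h)
    rw [xn_crd hu hc (hne P hP), xn_crd hu hc (hne Q hQ)]
    exact h3

end H13D
end

-- from Lib.H13D.B3
section

/-! # H13D, part B: integral models -/

open NumberField IsDedekindDomain WeierstrassCurve

namespace H13D

open H55P (IQ embF eF LF Per IsHecke Pt ac Inert Dec Nm)
open H35P (WAB Ker tt GoodW IntW)
open H55K
open H55K.MG (VC Crd)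

variable {F : Type} [Field F] [NumberField F] {A B : F} {Ω : Type} [Field Ω] [DecidableEq Ω] [Algebra F Ω] {V : ValuationSubring Ω}

/-- Chunk B3 (M). The change of variables between the short equation and W₀: see the proof of rf_fix in H55K/RF.lean (k1 .. k6: VC with u = 1, r = b₂/12, s = a₁/2, t = a₃/2; there over the rational numbers, here over F with the coefficients of W₀⁄F, i.e. algebraMap (𝓞 F) F W₀.a₁ and so on; map_c₄, map_c₆, map_b₂). MG.vc_iso (M1B.lean); the two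
discriminants are not 0 (Y3.lean: y3_ne; hΔ). Equivariance: P = 0 clear; otherwise compare the coordinates (xc_ac, yc_ac; s fixes the images of F; Crd for P and for ac s P; ac s P ≠ 0; H55K.pt_ext in E0.lean). -/
theorem exists_model (W₀ : WeierstrassCurve (𝓞 F)) (hA : A = -(algebraMap (𝓞 F) F W₀.c₄) / 48)
    (hB : B = -(algebraMap (𝓞 F) F W₀.c₆) / 864) (hΔ : W₀.Δ ≠ 0) : ∃ Θ : Pt (WAB A B) Ω ≃+ Pt (W₀⁄F) Ω,
      Crd 1 (algebraMap F Ω (algebraMap (𝓞 F) F W₀.b₂ / 12)) (algebraMap F Ω (algebraMap (𝓞 F) F W₀.a₁ / 2))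
        (algebraMap F Ω (algebraMap (𝓞 F) F W₀.a₃ / 2)) Θ ∧
      ∀ (s : Ω ≃ₐ[F] Ω) (P : Pt (WAB A B) Ω), Θ (ac (WAB A B) s P) = ac (W₀⁄F) s (Θ P) := by
  have h48 : (48 : F) ≠ 0 := by norm_num
  set w : 𝓞 F →+* F := algebraMap (𝓞 F) F with hw
  have hd0 : (4 * A ^ 3 + 27 * B ^ 2) ≠ 0 := by
    rw [y3_disc W₀ hA hB]
    refine div_ne_zero (neg_ne_zero.2 ?_) (by norm_num)
    exact (map_ne_zero_iff _ (RingOfIntegers.coe_injective)).2 hΔ
  have hd : (WAB A B).Δ ≠ 0 := by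
    have h2 : (WAB A B).Δ = -16 * (4 * A ^ 3 + 27 * B ^ 2) := by
      simp only [WAB, WeierstrassCurve.Δ, WeierstrassCurve.b₂, WeierstrassCurve.b₄, WeierstrassCurve.b₆, WeierstrassCurve.b₈]
      ring
    rw [h2]
    exact mul_ne_zero (by norm_num) hd0
  have hd1 : ((WAB A B)⁄Ω).Δ ≠ 0 := by
    have e1 : ((WAB A B)⁄Ω).Δ = algebraMap F Ω (WAB A B).Δ := (WAB A B).map_Δ _
    rw [e1]
    exact (map_ne_zero _).2 hd
  have hd2 : ((W₀⁄F)⁄Ω).Δ ≠ 0 := by
    have e1 : ((W₀⁄F)⁄Ω).Δ = algebraMap F Ω (W₀⁄F).Δ := (W₀⁄F).map_Δ _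
    have e2 : (W₀⁄F).Δ = algebraMap (𝓞 F) F W₀.Δ := W₀.map_Δ _
    rw [e1, e2]
    exact (map_ne_zero _).2 ((map_ne_zero_iff _ (RingOfIntegers.coe_injective)).2 hΔ)
  have k1 : (1 : F) * (w W₀.a₁) = (WAB A B).a₁ + 2 * (w W₀.a₁ / 2) := by
    simp only [WAB]
    ring
  have k2 : (1 : F) ^ 2 * (w W₀.a₂) = (WAB A B).a₂ - (w W₀.a₁ / 2) * (WAB A B).a₁ + 3 * (w W₀.b₂ / 12) - (w W₀.a₁ / 2) ^ 2 := by
    simp only [WAB, WeierstrassCurve.b₂, map_add, map_sub, map_mul, map_pow, map_ofNat]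
    ring
  have k3 : (1 : F) ^ 3 * (w W₀.a₃) = (WAB A B).a₃ + (w W₀.b₂ / 12) * (WAB A B).a₁ + 2 * (w W₀.a₃ / 2) := by
    simp only [WAB]
    ring
  have k4 : (1 : F) ^ 4 * (w W₀.a₄) = (WAB A B).a₄ - (w W₀.a₁ / 2) * (WAB A B).a₃ + 2 * (w W₀.b₂ / 12) * (WAB A B).a₂ -
      (w W₀.a₃ / 2 + (w W₀.b₂ / 12) * (w W₀.a₁ / 2)) * (WAB A B).a₁ + 3 * (w W₀.b₂ / 12) ^ 2 - 2 * (w W₀.a₁ / 2) * (w W₀.a₃ / 2) := by
    simp only [WAB, WeierstrassCurve.b₂, hA, WeierstrassCurve.c₄, WeierstrassCurve.b₄, map_add, map_sub, map_mul, map_pow, map_ofNat]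
    ring
  have k6 : (1 : F) ^ 6 * (w W₀.a₆) = (WAB A B).a₆ + (w W₀.b₂ / 12) * (WAB A B).a₄ + (w W₀.b₂ / 12) ^ 2 * (WAB A B).a₂ + (w W₀.b₂ / 12) ^ 3 -
      (w W₀.a₃ / 2) * (WAB A B).a₃ - (w W₀.a₃ / 2) ^ 2 - (w W₀.b₂ / 12) * (w W₀.a₃ / 2) * (WAB A B).a₁ := by
    simp only [WAB, WeierstrassCurve.b₂, hA, hB, WeierstrassCurve.c₄, WeierstrassCurve.b₄, WeierstrassCurve.c₆, WeierstrassCurve.b₆, map_neg, map_add, map_sub, map_mul, map_pow, map_ofNat]
    ring
  have j1 := congrArg (algebraMap F Ω) k1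
  have j2 := congrArg (algebraMap F Ω) k2
  have j3 := congrArg (algebraMap F Ω) k3
  have j4 := congrArg (algebraMap F Ω) k4
  have j6 := congrArg (algebraMap F Ω) k6
  simp only [map_add, map_sub, map_mul, map_pow, map_ofNat, map_one] at j1 j2 j3 j4 j6
  have hVC : VC ((WAB A B)⁄Ω) ((W₀⁄F)⁄Ω) 1 (algebraMap F Ω (w W₀.b₂ / 12)) (algebraMap F Ω (w W₀.a₁ / 2))
      (algebraMap F Ω (w W₀.a₃ / 2)) := ⟨one_ne_zero, j1, j2, j3, j4, j6⟩
  obtain ⟨Θ, hΘ⟩ := MG.vc_iso hVC hd1 hd2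
  refine ⟨Θ, hΘ, ?_⟩
  intro s P
  by_cases hP : P = 0
  · rw [hP, map_zero, map_zero, map_zero]
  · obtain ⟨a1, a2, a3⟩ := MG.ac_crd (W := WAB A B) s P
    have hsP : ac (WAB A B) s P ≠ 0 := fun h0 => hP (a3.1 h0)
    obtain ⟨b1, b2, b3⟩ := hΘ P hP
    obtain ⟨c1, c2, c3⟩ := hΘ _ hsP
    obtain ⟨d1, d2, d3⟩ := MG.ac_crd (W := W₀⁄F) s (Θ P)
    have hx : xc (Θ (ac (WAB A B) s P)) = xc (ac (W₀⁄F) s (Θ P)) := by
      rw [d1]
      have e1 := congrArg s b2
      rw [← a1, c2] at e1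
      simp only [map_add, map_mul, map_pow, map_one, AlgEquiv.commutes] at e1
      linear_combination e1
    refine pt_ext c1 (fun h0 => b1 (d3.1 h0)) hx ?_
    rw [d2]
    have e2 := congrArg s b3
    rw [← a2, c3] at e2
    simp only [map_add, map_mul, map_pow, map_one, AlgEquiv.commutes] at e2
    rw [← d1, ← hx] at e2
    linear_combination e2

/-- Chunk B3 (S). The coefficients are ak Ω of integers (ak_le); V(ak Ω Δ) = 1: H55K.g10b_one (G10B.lean) or H55K.TQ.rf_one. -/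
theorem good_model (W₀ : WeierstrassCurve (𝓞 F)) {v : HeightOneSpectrum (𝓞 F)} (hΔ : W₀.Δ ∉ v.asIdeal)
    (hv : ∀ a : 𝓞 F, a ∈ v.asIdeal → V.valuation (ak Ω a) < 1) : GoodW ((W₀⁄F)⁄Ω) V := by
  have hle : ∀ x : 𝓞 F, ak Ω x ∈ V := fun x => (V.valuation_le_one_iff _).1 (y3_le V x)
  refine ⟨⟨hle _, hle _, hle _, hle _, hle _⟩, ?_⟩
  have e : ((W₀⁄F)⁄Ω).Δ = ak Ω W₀.Δ := by
    have e1 : ((W₀⁄F)⁄Ω).Δ = algebraMap F Ω (W₀⁄F).Δ := (W₀⁄F).map_Δ _
    have e2 : (W₀⁄F).Δ = algebraMap (𝓞 F) F W₀.Δ := W₀.map_Δ _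
    rw [e1, e2]
  rw [e]
  exact g10b_one V v hv _ hΔ

end H13D
end

-- from Lib.H13X.XE
section

/-! # H13X: port of H13Z/LE -/

open NumberField IsDedekindDomain WeierstrassCurve

namespace H13X

open H55P (IQ embF eF LF Per IsHecke Pt ac Inert Dec Nm Coc)
open H35P (WAB Ker tt)
open H55K (Tor ak xc yc CMA Dta GV GMod cj cj_cj mul_cj cj_prime cj_dvd cj_nat Nm_cj Nm_mul Nm_nat)
open H55K.S
open H13S (Abv)




variable {F : Type} [Field F] [NumberField F] [IQ F] {A B : F} {Om : ℂ} {Ω : Type} [Field Ω] [DecidableEq Ω]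
  [Algebra F Ω] [IsAlgClosure F Ω] {j : Ω →+* ℂ} {act : 𝓞 F →+* AddMonoid.End (Pt (WAB A B) Ω)} {mo : Ideal (𝓞 F)}
  {ψ : Ideal (𝓞 F) →*₀ 𝓞 F}

variable {V : ValuationSubring Ω}

/-- Inertia fixes the torsion of order prime to V. -/
theorem inert_tors (hA : CMA F A B Om j act) (hG : GV A B V) {a : 𝓞 F} (ha : H55K.S.vo V a = 1) {s : Ω ≃ₐ[F] Ω}
    (hs : H55P.Inert V s) {T : Pt (WAB A B) Ω} (hT : T ∈ Tor act a) : ac (WAB A B) s T = T :=
  sub_eq_zero.1 (H55K.S.kr_tor hA hG a ha (sub_mem (ac_mem hA s hT) hT) (kr_inert hG s hs T))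

/-- Chunk LE4 (S/M). Frobenius elements over K: H13S.exists_frob with K in place of F₀ (Ω is an algebraic closure of K), restrictScalars F. -/
theorem exists_frobK (K : IntermediateField F Ω) [NumberField K] {w : HeightOneSpectrum (𝓞 K)}
    (hw : Abv K V w) : ∃ s ∈ K.fixingSubgroup, H55P.Dec V s ∧
      ∀ x ∈ V, V.valuation (s x - x ^ Ideal.absNorm w.asIdeal) < 1 := by
  have hac : IsAlgClosed Ω := IsAlgClosure.isAlgClosed F
  have hal : Algebra.IsAlgebraic F Ω := IsAlgClosure.isAlgebraic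
  have hK : IsAlgClosure K Ω := ⟨hac, Algebra.IsAlgebraic.tower_top (K := F) K⟩
  obtain ⟨s, hs1, hs2⟩ := H13S.exists_frob w V (fun a ha => by
    rw [← HeightOneSpectrum.valuation_lt_one_iff_mem (K := K)] at ha
    exact (hw.lt _).2 ha)
  refine ⟨s.restrictScalars F, ?_, hs1, hs2⟩
  rw [IntermediateField.mem_fixingSubgroup_iff]
  intro x hx
  exact s.commutes ⟨x, hx⟩

/-- The residue field of w is an extension of degree f of the one of γ (w contains γ by Abv.lt; absNorm of w is the cardinality of 𝓞 K/w, a finite extension of 𝓞 F/γ, which has Nm γ elements). -/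
theorem norm_above (K : IntermediateField F Ω) [NumberField K] {w : HeightOneSpectrum (𝓞 K)}
    (hw : Abv K V w) {γ : 𝓞 F} (hγ : Prime γ) (hV : H55K.S.vo V γ < 1) :
    ∃ f : ℕ, 0 < f ∧ Ideal.absNorm w.asIdeal = Nm γ ^ f := by
  have hmem : algebraMap (𝓞 F) (𝓞 K) γ ∈ w.asIdeal := by
    rw [← HeightOneSpectrum.valuation_lt_one_iff_mem (K := K), ← hw.lt]
    exact hV
  have hle : Ideal.span {γ} ≤ w.asIdeal.comap (algebraMap (𝓞 F) (𝓞 K)) := by
    rw [Ideal.span_singleton_le_iff_mem, Ideal.mem_comap]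
    exact hmem
  have hbot : Ideal.span {γ} ≠ ⊥ := by
    rw [Ne, Ideal.span_singleton_eq_bot]
    exact hγ.ne_zero
  have hp : (Ideal.span {γ}).IsPrime := (Ideal.span_singleton_prime hγ.ne_zero).2 hγ
  have hm : (Ideal.span {γ}).IsMaximal := hp.isMaximal hbot
  have hfin : Finite (𝓞 F ⧸ Ideal.span {γ}) := Ideal.finiteQuotientOfFreeOfNeBot _ hbot
  have hfin2 : Finite (𝓞 K ⧸ w.asIdeal) := Ideal.finiteQuotientOfFreeOfNeBot _ w.ne_bot
  have hwm := w.isMaximal
  letI : Field (𝓞 F ⧸ Ideal.span {γ}) := Ideal.Quotient.field _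
  letI : Algebra (𝓞 F ⧸ Ideal.span {γ}) (𝓞 K ⧸ w.asIdeal) := Ideal.Quotient.algebraQuotientOfLEComap hle
  have hnt : Nontrivial (𝓞 K ⧸ w.asIdeal) := Ideal.Quotient.nontrivial_iff.2 hwm.ne_top
  have hft1 : Fintype (𝓞 F ⧸ Ideal.span {γ}) := Fintype.ofFinite _
  have hft2 : Fintype (𝓞 K ⧸ w.asIdeal) := Fintype.ofFinite _
  have hmf : Module.Finite (𝓞 F ⧸ Ideal.span {γ}) (𝓞 K ⧸ w.asIdeal) := Module.Finite.of_finite
  have hcard := Module.card_eq_pow_finrank (K := 𝓞 F ⧸ Ideal.span {γ}) (V := 𝓞 K ⧸ w.asIdeal)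
  refine ⟨Module.finrank (𝓞 F ⧸ Ideal.span {γ}) (𝓞 K ⧸ w.asIdeal), Module.finrank_pos, ?_⟩
  have e1 : Ideal.absNorm w.asIdeal = Nat.card (𝓞 K ⧸ w.asIdeal) := rfl
  have e2 : Nm γ = Nat.card (𝓞 F ⧸ Ideal.span {γ}) := rfl
  rw [e1, e2, Nat.card_eq_fintype_card, Nat.card_eq_fintype_card, hcard]

end H13X
end

-- from Lib.H13X.XZ2
section

/-! # H13X: port of H13Z/CZ2 -/

open NumberField IsDedekindDomain WeierstrassCurve

namespace H13X

open H55P (IQ embF eF LF Per IsHecke Pt ac Inert Dec Nm Coc)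
open H35P (WAB Ker tt)
open H55K (Tor ak xc yc CMA Dta GV GMod cj cj_cj mul_cj cj_prime cj_dvd cj_nat Nm_cj Nm_mul Nm_nat)
open H55K.S
open H13S (Abv)




variable {F : Type} [Field F] [NumberField F] [IQ F] {A B : F} {Om : ℂ} {Ω : Type} [Field Ω] [DecidableEq Ω]
  [Algebra F Ω] [IsAlgClosure F Ω] {j : Ω →+* ℂ} {act : 𝓞 F →+* AddMonoid.End (Pt (WAB A B) Ω)} {mo : Ideal (𝓞 F)}
  {ψ : Ideal (𝓞 F) →*₀ 𝓞 F}

theorem cz2_prime_cj {x : 𝓞 F} (h : Prime x) : Prime (cj x) := (MulEquiv.prime_iff cj).2 h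

/-- Chunk CZ2 (M). The pairing is perfect. Let A₀ be the group Hom(Multiplicative (Tor π), Ωˣ) (or into the l-th roots of unity); Tor π is a finite group of exponent l and Ω has enough roots of unity, so card A₀ = card Tor π = Nm π
(CommGroup.card_monoidHom_of_hasEnoughRootsOfUnity or the like; HasEnoughRootsOfUnity for an algebraically closed field of characteristic 0). X -> e X · is an injective (he.nondeg, he.add_left) map from Tor (cj π), which has Nm (cj π) = Nm π elements (gi_gen), to A₀, hence surjective. -/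
theorem pair_surj {π : 𝓞 F} {l : ℕ} (D : Dat A B Om j act mo ψ π l) {e : Pt (WAB A B) Ω → Pt (WAB A B) Ω → Ω} (he : Pairing A B act π l e)
    (κ : Pt (WAB A B) Ω → Ω) (hκ : ∀ T ∈ Tor act π, κ T ^ l = 1)
    (hadd : ∀ T ∈ Tor act π, ∀ T' ∈ Tor act π, κ (T + T') = κ T * κ T') :
    ∃ X ∈ Tor act (cj π), ∀ T ∈ Tor act π, e X T = κ T := by
  classical
  have hchar : CharZero Ω := charZero_of_injective_algebraMap (algebraMap F Ω).injective
  have : IsAlgClosed Ω := IsAlgClosure.isAlgClosed F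
  have hl0 : l ≠ 0 := D.hl.ne_zero
  have hNc : Nm (cj π) = Nm π := Nm_cj π
  have hπc : Prime (cj π) := cj_prime D.pr
  obtain ⟨hc1, -⟩ := H55K.S.gi_gen D.cma π D.pr
  obtain ⟨hc2, -⟩ := H55K.S.gi_gen D.cma (cj π) hπc
  have hN0 : Nm π ≠ 0 := fun h => D.pr.ne_zero (H55P.Nm_eq_zero.1 h)
  have hf1 : Finite (Tor act π) := Nat.finite_of_card_ne_zero (by rw [hc1]; exact hN0)
  have hf2 : Finite (Tor act (cj π)) := Nat.finite_of_card_ne_zero (by rw [hc2, hNc]; exact hN0)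
  -- the characters
  let G := Multiplicative (Tor act π)
  have : Finite G := hf1
  have hex : NeZero (Monoid.exponent G) := ⟨Monoid.exponent_ne_zero_of_finite⟩
  have : NeZero ((Monoid.exponent G : ℕ) : Ω) := ⟨Nat.cast_ne_zero.2 hex.out⟩
  have hcard : Nat.card (G →* Ωˣ) = Nm π := by
    rw [CommGroup.card_monoidHom_of_hasEnoughRootsOfUnity]
    exact hc1
  have : Finite (G →* Ωˣ) := Nat.finite_of_card_ne_zero (by rw [hcard]; exact hN0)
  -- the character of a function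
  have hunit : ∀ f : Pt (WAB A B) Ω → Ω, (∀ T ∈ Tor act π, f T ^ l = 1) →
      (∀ T ∈ Tor act π, ∀ T' ∈ Tor act π, f (T + T') = f T * f T') →
      ∃ χ : G →* Ωˣ, ∀ T : Tor act π, (χ (Multiplicative.ofAdd T) : Ω) = f T := by
    intro f hf hm
    have hne : ∀ T : Tor act π, f T ≠ 0 := by
      intro T h
      have h1 := hf T T.2
      rw [h, zero_pow hl0] at h1
      exact zero_ne_one h1
    refine ⟨MonoidHom.mk' (fun T => Units.mk0 (f (Multiplicative.toAdd T : Tor act π)) (hne _)) ?_, ?_⟩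
    · intro a b
      apply Units.ext
      rw [Units.val_mul, Units.val_mk0, Units.val_mk0, Units.val_mk0]
      exact hm _ (Multiplicative.toAdd a : Tor act π).2 _ (Multiplicative.toAdd b : Tor act π).2
    · intro T
      rfl
  choose ψ hψ using fun X : Tor act (cj π) => hunit (e X) (fun T hT => he.root X X.2 T hT)
    (fun T hT T' hT' => he.add_right X X.2 T hT T' hT')
  have hinj : Function.Injective ψ := by
    intro X Y hXY
    have h1 : ∀ T ∈ Tor act π, e X T = e Y T := by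
      intro T hT
      rw [← hψ X ⟨T, hT⟩, ← hψ Y ⟨T, hT⟩, hXY]
    have h2 : (X - Y : Pt (WAB A B) Ω) = 0 := by
      refine he.nondeg _ (AddSubgroup.sub_mem _ X.2 Y.2) fun T hT => ?_
      have h3 := he.add_left (X - Y) (AddSubgroup.sub_mem _ X.2 Y.2) Y Y.2 T hT
      rw [sub_add_cancel, h1 T hT] at h3
      have h4 : e (Y : Pt (WAB A B) Ω) T ≠ 0 := by
        intro h
        have h5 := he.root Y Y.2 T hT
        rw [h, zero_pow hl0] at h5
        exact zero_ne_one h5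
      exact (mul_eq_right₀ h4).1 h3.symm
    exact Subtype.ext (sub_eq_zero.1 h2)
  have hbij : Function.Bijective ψ :=
    (Nat.bijective_iff_injective_and_card ψ).2 ⟨hinj, by rw [hcard, hc2, hNc]⟩
  obtain ⟨χ, hχ⟩ := hunit κ hκ hadd
  obtain ⟨X, hX⟩ := hbij.2 χ
  refine ⟨X, X.2, fun T hT => ?_⟩
  rw [← hψ X ⟨T, hT⟩, ← hχ ⟨T, hT⟩, hX]

end H13X
end

-- from Lib.H13Z.CZ1
section

open NumberField IsDedekindDomain

namespace H13Z

open H55P H28G H55B H13S

variable {Ω : Type} [Field Ω] [DecidableEq Ω] [Algebra F Ω] [IsAlgClosure F Ω]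

/-- An additive map modulo l-th powers, evaluated on a combination. -/
theorem cz1_quot {A G : Type} [AddCommGroup A] [CommGroup G] (l : ℕ) (m : A → G)
    (hadd : ∀ T T', ∃ z : G, m (T + T') = m T * m T' * z ^ l) {ι : Type} [Fintype ι] (b : ι → A)
    (c : ι → ℕ) : ∃ z : G, (∏ i, m (b i) ^ c i) = m (∑ i, c i • b i) * z ^ l := by
  classical
  let N : Subgroup G := (powMonoidHom l : G →* G).range
  let μ : A →+ Additive (G ⧸ N) :=
    { toFun := fun T => Additive.ofMul (QuotientGroup.mk' N (m T))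
      map_zero' := by
        obtain ⟨z, hz⟩ := hadd 0 0
        have h1 : m 0 = (z⁻¹) ^ l := by
          rw [add_zero] at hz
          have h2 : m 0 * z ^ l = 1 := by
            have h3 : m 0 * 1 = m 0 * (m 0 * z ^ l) := by
              rw [mul_one, ← mul_assoc]
              exact hz
            exact (mul_left_cancel h3).symm
          rw [inv_pow]
          exact eq_inv_of_mul_eq_one_left h2
        have h2 : QuotientGroup.mk' N (m 0) = 1 := by
          rw [QuotientGroup.mk'_apply, QuotientGroup.eq_one_iff]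
          exact ⟨z⁻¹, h1.symm⟩
        rw [h2]
        rfl
      map_add' := fun T T' => by
        obtain ⟨z, hz⟩ := hadd T T'
        have h2 : QuotientGroup.mk' N (z ^ l) = 1 := by
          rw [QuotientGroup.mk'_apply, QuotientGroup.eq_one_iff]
          exact ⟨z, rfl⟩
        have h3 : QuotientGroup.mk' N (m (T + T')) = QuotientGroup.mk' N (m T) * QuotientGroup.mk' N (m T') := by
          rw [hz, map_mul, map_mul, h2, mul_one]
        rw [h3]
        rfl }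
  have h1 : μ (∑ i, c i • b i) = ∑ i, c i • μ (b i) := by
    rw [map_sum]
    exact Finset.sum_congr rfl fun i _ => map_nsmul μ _ _
  have h2 : QuotientGroup.mk' N (m (∑ i, c i • b i)) = QuotientGroup.mk' N (∏ i, m (b i) ^ c i) := by
    have h3 : Additive.ofMul (QuotientGroup.mk' N (∏ i, m (b i) ^ c i)) = ∑ i, c i • μ (b i) := by
      rw [map_prod, ofMul_prod]
      refine Finset.sum_congr rfl fun i _ => ?_
      rw [map_pow, ofMul_pow]
      rfl
    have h4 : Additive.ofMul (QuotientGroup.mk' N (m (∑ i, c i • b i))) = ∑ i, c i • μ (b i) := h1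
    exact Additive.ofMul.injective (h4.trans h3.symm)
  rw [QuotientGroup.mk'_apply, QuotientGroup.mk'_apply, QuotientGroup.eq] at h2
  obtain ⟨z, hz⟩ := h2
  refine ⟨z, ?_⟩
  change z ^ l = _ at hz
  rw [hz, mul_inv_cancel_left]

/-- Chunk CZ1 (M). Additive system of l-th roots. -/
theorem y_system {π : O} {l : ℕ} (D : Dat π l) (L : IntermediateField F Ω) (m : P27 Ω → (L)ˣ)
    (hadd : ∀ T ∈ Tor π Ω, ∀ T' ∈ Tor π Ω, ∃ z : (L)ˣ, m (T + T') = m T * m T' * z ^ l) :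
    ∃ y : P27 Ω → Ω, (∀ T ∈ Tor π Ω, y T ≠ 0 ∧ ∃ z : (L)ˣ, y T ^ l = ((m T * z ^ l : (L)ˣ) : L)) ∧
      ∀ T ∈ Tor π Ω, ∀ T' ∈ Tor π Ω, ∃ z : (L)ˣ, y (T + T') = y T * y T' * ((z : L) : Ω) := by
  classical
  have hl : Fact l.Prime := ⟨D.hl⟩
  have hl0 : l ≠ 0 := D.hl.ne_zero
  have hAC : IsAlgClosed Ω := IsAlgClosure.isAlgClosed F
  have hfull := (gi_gen (Ω := Ω) π D.pr D.prim).1
  have hfin : Finite (Tor π Ω) := (show Full π Ω from hfull).finite D.pr.ne_zero
  have hkill : ∀ T : Tor π Ω, l • T = 0 := by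
    rintro ⟨T, hT⟩
    apply Subtype.ext
    change l • T = 0
    obtain ⟨c, hc⟩ := D.dvd
    rw [← act_nat, hc, mul_comm, act_mul, mem_Tor.1 hT, map_zero]
  obtain ⟨iM⟩ : Nonempty (Module (ZMod l) (Tor π Ω)) := ⟨AddCommGroup.zmodModule hkill⟩
  have iF : Module.Finite (ZMod l) (Tor π Ω) := Module.Finite.of_finite
  obtain ⟨n, b⟩ : Σ n : ℕ, Module.Basis (Fin n) (ZMod l) (Tor π Ω) := ⟨_, Module.finBasis (ZMod l) ↥(Tor π Ω)⟩
  have hrep : ∀ T : Tor π Ω, T = ∑ i, (b.repr T i).val • b i := by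
    intro T
    conv_lhs => rw [← b.sum_repr T]
    refine Finset.sum_congr rfl fun i _ => ?_
    conv_lhs => rw [← ZMod.natCast_zmod_val (b.repr T i)]
    exact Nat.cast_smul_eq_nsmul (ZMod l) _ _
  have hroot : ∀ i : Fin n, ∃ w : Ω, w ^ l = ((m (b i) : L) : Ω) := fun i =>
    IsAlgClosed.exists_pow_nat_eq _ (Nat.pos_of_ne_zero hl0)
  choose w hw using hroot
  have hw0 : ∀ i, w i ≠ 0 := by
    intro i h
    have h1 := hw i
    rw [h, zero_pow hl0] at h1
    have h2 : ((m (b i) : L)) ≠ 0 := Units.ne_zero _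
    apply h2
    exact_mod_cast h1.symm
  let cc : P27 Ω → Fin n → ℕ := fun T i => if h : T ∈ Tor π Ω then (b.repr ⟨T, h⟩ i).val else 0
  let y : P27 Ω → Ω := fun T => ∏ i, w i ^ cc T i
  have hcc : ∀ T (h : T ∈ Tor π Ω) i, cc T i = (b.repr ⟨T, h⟩ i).val := fun T h i => dif_pos h
  have hprod : ∀ (e : Fin n → ℕ), (∏ i, (w i ^ l) ^ e i) = (((∏ i, m (b i) ^ e i : (L)ˣ) : L) : Ω) := by
    intro e
    rw [Units.coe_prod]
    rw [show ((((∏ i, ((m (b i) ^ e i : (L)ˣ) : L)) : L)) : Ω) = L.val (∏ i, ((m (b i) ^ e i : (L)ˣ) : L)) from rfl,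
      map_prod]
    refine Finset.prod_congr rfl fun i _ => ?_
    rw [hw i, Units.val_pow_eq_pow_val, map_pow]
    rfl
  refine ⟨y, fun T hT => ⟨Finset.prod_ne_zero_iff.2 fun i _ => pow_ne_zero _ (hw0 i), ?_⟩,
    fun T hT T' hT' => ?_⟩
  · obtain ⟨z, hz⟩ := cz1_quot (A := Tor π Ω) l (fun T => m T) (fun T T' => hadd T T.2 T' T'.2) b (cc T)
    refine ⟨z, ?_⟩
    have h1 : (∑ i, cc T i • b i) = ⟨T, hT⟩ := by
      conv_rhs => rw [hrep ⟨T, hT⟩]
      exact Finset.sum_congr rfl fun i _ => by rw [hcc T hT i]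
    rw [h1] at hz
    change (∏ i, w i ^ cc T i) ^ l = _
    rw [← Finset.prod_pow]
    have h2 : (∏ i, (w i ^ cc T i) ^ l) = ∏ i, (w i ^ l) ^ cc T i :=
      Finset.prod_congr rfl fun i _ => by rw [← pow_mul, ← pow_mul, mul_comm]
    rw [h2, hprod, hz]
  · let q : Fin n → ℕ := fun i => (cc T i + cc T' i) / l
    refine ⟨(∏ i, m (b i) ^ q i)⁻¹, ?_⟩
    have h1 : ∀ i, cc T i + cc T' i = cc (T + T') i + l * q i := by
      intro i
      have h2 : cc (T + T') i = (cc T i + cc T' i) % l := by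
        rw [hcc _ ((Tor π Ω).add_mem hT hT'), hcc T hT, hcc T' hT']
        rw [← ZMod.val_add]
        congr 1
        have h3 : (⟨T + T', (Tor π Ω).add_mem hT hT'⟩ : Tor π Ω) = ⟨T, hT⟩ + ⟨T', hT'⟩ := rfl
        rw [h3, map_add]
        rfl
      rw [h2]
      exact (Nat.mod_add_div _ _).symm
    have h2 : y T * y T' = y (T + T') * (((∏ i, m (b i) ^ q i : (L)ˣ) : L) : Ω) := by
      change (∏ i, w i ^ cc T i) * (∏ i, w i ^ cc T' i) = (∏ i, w i ^ cc (T + T') i) * _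
      rw [← hprod, ← Finset.prod_mul_distrib, ← Finset.prod_mul_distrib]
      refine Finset.prod_congr rfl fun i _ => ?_
      rw [← pow_add, ← pow_mul, ← pow_add, h1 i]
    rw [h2, mul_assoc]
    have h3 : (((∏ i, m (b i) ^ q i : (L)ˣ) : L) : Ω) * ((((∏ i, m (b i) ^ q i : (L)ˣ)⁻¹ : (L)ˣ) : L) : Ω) = 1 := by
      have h4 : ((∏ i, m (b i) ^ q i : (L)ˣ) : L) * (((∏ i, m (b i) ^ q i : (L)ˣ)⁻¹ : (L)ˣ) : L) = 1 :=
        Units.mul_inv _
      have h5 := congrArg (fun x : L => (x : Ω)) h4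
      simpa using h5
    rw [h3, mul_one]

end H13Z
end

-- from Lib.H13X.XZ1
section

/-! # H13X: port of H13Z/CZ1 -/

open NumberField IsDedekindDomain WeierstrassCurve

namespace H13X

open H55P (IQ embF eF LF Per IsHecke Pt ac Inert Dec Nm Coc)
open H35P (WAB Ker tt)
open H55K (Tor ak xc yc CMA Dta GV GMod cj cj_cj mul_cj cj_prime cj_dvd cj_nat Nm_cj Nm_mul Nm_nat)
open H55K.S
open H13S (Abv)




variable {F : Type} [Field F] [NumberField F] [IQ F] {A B : F} {Om : ℂ} {Ω : Type} [Field Ω] [DecidableEq Ω]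
  [Algebra F Ω] [IsAlgClosure F Ω] {j : Ω →+* ℂ} {act : 𝓞 F →+* AddMonoid.End (Pt (WAB A B) Ω)} {mo : Ideal (𝓞 F)}
  {ψ : Ideal (𝓞 F) →*₀ 𝓞 F}

/-- Chunk CZ1 (M). Additive system of l-th roots. -/
theorem y_system {π : 𝓞 F} {l : ℕ} (D : Dat A B Om j act mo ψ π l) (L : IntermediateField F Ω) (m : Pt (WAB A B) Ω → (L)ˣ)
    (hadd : ∀ T ∈ Tor act π, ∀ T' ∈ Tor act π, ∃ z : (L)ˣ, m (T + T') = m T * m T' * z ^ l) :
    ∃ y : Pt (WAB A B) Ω → Ω, (∀ T ∈ Tor act π, y T ≠ 0 ∧ ∃ z : (L)ˣ, y T ^ l = ((m T * z ^ l : (L)ˣ) : L)) ∧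
      ∀ T ∈ Tor act π, ∀ T' ∈ Tor act π, ∃ z : (L)ˣ, y (T + T') = y T * y T' * ((z : L) : Ω) := by
  classical
  have hl : Fact l.Prime := ⟨D.hl⟩
  have hl0 : l ≠ 0 := D.hl.ne_zero
  have hAC : IsAlgClosed Ω := IsAlgClosure.isAlgClosed F
  have hfull := (gi_gen D.cma π D.pr).1
  have hfin : Finite (Tor act π) := Nat.finite_of_card_ne_zero (by rw [hfull]; exact fun h => D.pr.ne_zero (H55P.Nm_eq_zero.1 h))
  have hkill : ∀ T : Tor act π, l • T = 0 := by
    rintro ⟨T, hT⟩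
    apply Subtype.ext
    change l • T = 0
    obtain ⟨c, hc⟩ := D.dvd
    rw [← act_nat (act := act), hc, mul_comm, act_mul, mem_Tor.1 hT, map_zero]
  obtain ⟨iM⟩ : Nonempty (Module (ZMod l) (Tor act π)) := ⟨AddCommGroup.zmodModule hkill⟩
  have iF : Module.Finite (ZMod l) (Tor act π) := Module.Finite.of_finite
  obtain ⟨n, b⟩ : Σ n : ℕ, Module.Basis (Fin n) (ZMod l) (Tor act π) := ⟨_, Module.finBasis (ZMod l) ↥(Tor act π)⟩
  have hrep : ∀ T : Tor act π, T = ∑ i, (b.repr T i).val • b i := by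
    intro T
    conv_lhs => rw [← b.sum_repr T]
    refine Finset.sum_congr rfl fun i _ => ?_
    conv_lhs => rw [← ZMod.natCast_zmod_val (b.repr T i)]
    exact Nat.cast_smul_eq_nsmul (ZMod l) _ _
  have hroot : ∀ i : Fin n, ∃ w : Ω, w ^ l = ((m (b i) : L) : Ω) := fun i =>
    IsAlgClosed.exists_pow_nat_eq _ (Nat.pos_of_ne_zero hl0)
  choose w hw using hroot
  have hw0 : ∀ i, w i ≠ 0 := by
    intro i h
    have h1 := hw i
    rw [h, zero_pow hl0] at h1
    have h2 : ((m (b i) : L)) ≠ 0 := Units.ne_zero _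
    apply h2
    exact_mod_cast h1.symm
  let cc : Pt (WAB A B) Ω → Fin n → ℕ := fun T i => if h : T ∈ Tor act π then (b.repr ⟨T, h⟩ i).val else 0
  let y : Pt (WAB A B) Ω → Ω := fun T => ∏ i, w i ^ cc T i
  have hcc : ∀ T (h : T ∈ Tor act π) i, cc T i = (b.repr ⟨T, h⟩ i).val := fun T h i => dif_pos h
  have hprod : ∀ (e : Fin n → ℕ), (∏ i, (w i ^ l) ^ e i) = (((∏ i, m (b i) ^ e i : (L)ˣ) : L) : Ω) := by
    intro e
    rw [Units.coe_prod]
    rw [show ((((∏ i, ((m (b i) ^ e i : (L)ˣ) : L)) : L)) : Ω) = L.val (∏ i, ((m (b i) ^ e i : (L)ˣ) : L)) from rfl,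
      map_prod]
    refine Finset.prod_congr rfl fun i _ => ?_
    rw [hw i, Units.val_pow_eq_pow_val, map_pow]
    rfl
  refine ⟨y, fun T hT => ⟨Finset.prod_ne_zero_iff.2 fun i _ => pow_ne_zero _ (hw0 i), ?_⟩,
    fun T hT T' hT' => ?_⟩
  · obtain ⟨z, hz⟩ := H13Z.cz1_quot (A := Tor act π) l (fun T => m T) (fun T T' => hadd T T.2 T' T'.2) b (cc T)
    refine ⟨z, ?_⟩
    have h1 : (∑ i, cc T i • b i) = ⟨T, hT⟩ := by
      conv_rhs => rw [hrep ⟨T, hT⟩]
      exact Finset.sum_congr rfl fun i _ => by rw [hcc T hT i]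
    rw [h1] at hz
    change (∏ i, w i ^ cc T i) ^ l = _
    rw [← Finset.prod_pow]
    have h2 : (∏ i, (w i ^ cc T i) ^ l) = ∏ i, (w i ^ l) ^ cc T i :=
      Finset.prod_congr rfl fun i _ => by rw [← pow_mul, ← pow_mul, mul_comm]
    rw [h2, hprod, hz]
  · let q : Fin n → ℕ := fun i => (cc T i + cc T' i) / l
    refine ⟨(∏ i, m (b i) ^ q i)⁻¹, ?_⟩
    have h1 : ∀ i, cc T i + cc T' i = cc (T + T') i + l * q i := by
      intro i
      have h2 : cc (T + T') i = (cc T i + cc T' i) % l := by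
        rw [hcc _ ((Tor act π).add_mem hT hT'), hcc T hT, hcc T' hT']
        rw [← ZMod.val_add]
        congr 1
        have h3 : (⟨T + T', (Tor act π).add_mem hT hT'⟩ : Tor act π) = ⟨T, hT⟩ + ⟨T', hT'⟩ := rfl
        rw [h3, map_add]
        rfl
      rw [h2]
      exact (Nat.mod_add_div _ _).symm
    have h2 : y T * y T' = y (T + T') * (((∏ i, m (b i) ^ q i : (L)ˣ) : L) : Ω) := by
      change (∏ i, w i ^ cc T i) * (∏ i, w i ^ cc T' i) = (∏ i, w i ^ cc (T + T') i) * _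
      rw [← hprod, ← Finset.prod_mul_distrib, ← Finset.prod_mul_distrib]
      refine Finset.prod_congr rfl fun i _ => ?_
      rw [← pow_add, ← pow_mul, ← pow_add, h1 i]
    rw [h2, mul_assoc]
    have h3 : (((∏ i, m (b i) ^ q i : (L)ˣ) : L) : Ω) * ((((∏ i, m (b i) ^ q i : (L)ˣ)⁻¹ : (L)ˣ) : L) : Ω) = 1 := by
      have h4 : ((∏ i, m (b i) ^ q i : (L)ˣ) : L) * (((∏ i, m (b i) ^ q i : (L)ˣ)⁻¹ : (L)ˣ) : L) = 1 :=
        Units.mul_inv _
      have h5 := congrArg (fun x : L => (x : Ω)) h4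
      simpa using h5
    rw [h3, mul_one]

end H13X
end

-- from Lib.H13X.XCB
section

/-! # H13X: port of H13Y/YCB -/

open NumberField IsDedekindDomain WeierstrassCurve

namespace H13X

open H55P (IQ embF eF LF Per IsHecke Pt ac Inert Dec Nm Coc)
open H35P (WAB Ker tt)
open H55K (Tor ak xc yc CMA Dta GV GMod cj cj_cj mul_cj cj_prime cj_dvd cj_nat Nm_cj Nm_mul Nm_nat)
open H55K.S
open H13S (Abv)





variable {F : Type} [Field F] [NumberField F] [IQ F] {A B : F} {Om : ℂ} {Ω : Type} [Field Ω] [DecidableEq Ω]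
  [Algebra F Ω] [IsAlgClosure F Ω] {j : Ω →+* ℂ} {act : 𝓞 F →+* AddMonoid.End (Pt (WAB A B) Ω)} {mo : Ideal (𝓞 F)}
  {ψ : Ideal (𝓞 F) →*₀ 𝓞 F}

variable {π : 𝓞 F} {l : ℕ} {N : IntermediateField F Ω} {V : ValuationSubring Ω} {c : (Ω ≃ₐ[F] Ω) → Pt (WAB A B) Ω}

theorem lcb_l (D : Dat A B Om j act mo ψ π l) {P : Pt (WAB A B) Ω} (hP : P ∈ Tor act (cj π)) : l • P = 0 := by
  obtain ⟨u, hu⟩ := D.dvd
  have h1 : (l : 𝓞 F) = cj u * cj π := by
    have h2 := congrArg cj hu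
    rw [cj_nat, map_mul] at h2
    rw [h2, mul_comm]
  have h3 : act (cj π) P = 0 := mem_Tor.1 hP
  rw [← act_nat (act := act), h1, act_mul, h3, map_zero]

/-- A cocycle on the decomposition group which vanishes on the inertia elements fixing Tor pi and Tor (cj pi) is a coboundary on inertia. -/
theorem cob_inert (D : Dat A B Om j act mo ψ π l) (hc : Dc act π N V c)
    (h : ∀ s ∈ N.fixingSubgroup, JV act π V s → c s = 0) :
    ∃ X ∈ Tor act (cj π), ∀ s ∈ N.fixingSubgroup, Inert V s → c s = ac (WAB A B) s X - X := by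
  obtain ⟨N₁, hN₁, hn₁, hd₁, h0₁⟩ := stab_index D.cma π D.pr
  obtain ⟨N₂, hN₂, hn₂, hd₂, h0₂⟩ := stab_index D.cma (cj π) (cj_prime D.pr)
  have hlN : l ∣ Nm π := CO2_Nm D.hl D.pr D.dvd
  have hN0 : Nm π ≠ 0 := fun h => D.pr.ne_zero (H55P.Nm_eq_zero.1 h)
  rw [Nm_cj] at hd₂
  have hidx : (N₁ ⊓ N₂).index = N₁.relIndex N₂ * N₂.index := by
    rw [← Subgroup.relIndex_mul_index (inf_le_right : N₁ ⊓ N₂ ≤ N₂), Subgroup.inf_relIndex_right]
  have hrel : N₁.relIndex N₂ ∣ N₁.index := Subgroup.relIndex_dvd_index_of_normal N₁ N₂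
  have hcop : l.Coprime (N₁ ⊓ N₂).index := by
    rw [hidx]
    exact Nat.Coprime.mul_right (CO2_cop D.hl hlN hN0 (hrel.trans hd₁)) (CO2_cop D.hl hlN hN0 hd₂)
  have hne : (N₁ ⊓ N₂).index ≠ 0 := by
    rw [hidx]
    refine mul_ne_zero (fun h => h0₁ ?_) h0₂
    rw [h] at hrel
    exact Nat.eq_zero_of_zero_dvd hrel
  let I : Subgroup (Ω ≃ₐ[F] Ω) :=
    { carrier := {s | Inert V s ∧ s ∈ N.fixingSubgroup}
      mul_mem' := fun hs ht => ⟨lcb_mul hs.1 ht.1, mul_mem hs.2 ht.2⟩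
      one_mem' := ⟨lcb_one, one_mem _⟩
      inv_mem' := fun hs => ⟨lcb_inv hs.1, inv_mem hs.2⟩ }
  have hI : ∀ s : I, Inert V s.1 := fun s => s.2.1
  have hID : ∀ s : I, DecN N V s.1 := fun s => ⟨s.2.2, Inert.dec s.2.1⟩
  have hdvd : (N₁ ⊓ N₂).relIndex I ∣ (N₁ ⊓ N₂).index := Subgroup.relIndex_dvd_index_of_normal _ _
  have hcop' : l.Coprime ((N₁ ⊓ N₂).subgroupOf I).index := Nat.Coprime.coprime_dvd_right hdvd hcop
  have hne' : ((N₁ ⊓ N₂).subgroupOf I).index ≠ 0 := by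
    intro h1
    have h2 : (N₁ ⊓ N₂).relIndex I = 0 := h1
    rw [h2] at hdvd
    exact hne (Nat.eq_zero_of_zero_dvd hdvd)
  have hvan : ∀ n ∈ (N₁ ⊓ N₂).subgroupOf I, c n.1 = 0 := by
    intro s hs
    rw [Subgroup.mem_subgroupOf] at hs
    obtain ⟨hs₁, hs₂⟩ := Subgroup.mem_inf.1 hs
    rw [hN₁] at hs₁
    rw [hN₂] at hs₂
    exact h s.1 (hID s).1 ⟨hI s, hs₁, hs₂⟩
  obtain ⟨X, hX, hX2⟩ := H13S.cob_of_vanish (G := I) (fun s => (ac (WAB A B) s.1 : Pt (WAB A B) Ω →+ Pt (WAB A B) Ω))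
    (fun s t P => ac_mul s.1 t.1 P) (fun s => c s.1)
    (fun s t => hc.mul s.1 (hID s) t.1 (hID t))
    ((N₁ ⊓ N₂).subgroupOf I) hne' hvan l hcop' (fun s => lcb_l D (hc.val s.1 (hID s))) (Tor act (cj π))
    (fun s => hc.val s.1 (hID s))
  exact ⟨X, hX, fun s hs hs2 => hX2 ⟨s, hs2, hs⟩⟩

/-- Extension of the vanishing from inertia to the decomposition group with a Frobenius element. -/
theorem cob_frob (D : Dat A B Om j act mo ψ π l) (hc : Dc act π N V c)
    (h : ∀ s ∈ N.fixingSubgroup, Inert V s → c s = 0) {φ : Ω ≃ₐ[F] Ω}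
    (hφ : DecN N V φ) {n : ℕ} (hn : ∀ x ∈ V, V.valuation (φ x - x ^ n) < 1)
    (h0 : ∀ T ∈ Tor act (cj π), ac (WAB A B) φ T = T → T = 0) :
    ∃ X ∈ Tor act (cj π), ∀ s, DecN N V s → c s = ac (WAB A B) s X - X := by
  have hpr := cj_prime D.pr
  have hcard := (H55K.S.gi_gen D.cma (cj π) hpr).1
  have hN0 : Nm (cj π) ≠ 0 := fun h => hpr.ne_zero (H55P.Nm_eq_zero.1 h)
  have hfin : Finite (Tor act (cj π)) := Nat.finite_of_card_ne_zero (by rw [hcard]; exact hN0)
  let f : Tor act (cj π) → Tor act (cj π) := fun T => ⟨ac (WAB A B) φ T.1 - T.1, sub_mem (ac_mem D.cma φ T.2) T.2⟩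
  have hinj : Function.Injective f := by
    intro T T' hTT
    have h1 : ac (WAB A B) φ T.1 - T.1 = ac (WAB A B) φ T'.1 - T'.1 := congrArg Subtype.val hTT
    have h2 : ac (WAB A B) φ (T.1 - T'.1) = T.1 - T'.1 := by
      rw [map_sub, sub_eq_sub_iff_sub_eq_sub.1 h1]
    exact Subtype.ext (sub_eq_zero.1 (h0 _ (sub_mem T.2 T'.2) h2))
  obtain ⟨⟨X, hX⟩, hfX⟩ := Finite.surjective_of_injective hinj ⟨c φ, hc.val φ hφ⟩
  have hφX : ac (WAB A B) φ X - X = c φ := congrArg Subtype.val hfX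
  obtain ⟨χ, hχ, -⟩ := H55K.S.exists_chi D.cma (cj π) hpr
  have hact : ∀ s : Ω ≃ₐ[F] Ω, ∃ a : 𝓞 F, ∀ T ∈ Tor act (cj π), ac (WAB A B) s T = act a T := by
    intro s
    obtain ⟨a, ha⟩ := Ideal.Quotient.mk_surjective (χ s : 𝓞 F ⧸ Ideal.span {cj π})
    exact ⟨a, hχ s a ha⟩
  refine ⟨X, hX, fun s hs => ?_⟩
  have hi : Inert V ((s * φ)⁻¹ * (φ * s)) := by
    intro x hx
    have hd : Dec V (s * φ)⁻¹ := (hs.mul hφ).inv.2
    have e1 : ((s * φ)⁻¹ * (φ * s)) x - x = (s * φ)⁻¹ (φ (s x) - s (φ x)) := by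
      rw [map_sub]
      have e2 : (s * φ)⁻¹ (s (φ x)) = x := AlgEquiv.symm_apply_apply (s * φ) x
      rw [e2]
      rfl
    rw [e1, Dec.lt_one hd]
    have hsx : s x ∈ V := (hs.2 x).2 hx
    have e3 : φ (s x) - s (φ x) = (φ (s x) - s x ^ n) - s (φ x - x ^ n) := by
      rw [map_sub, map_pow]
      ring
    rw [e3]
    exact V.valuation.map_sub_lt (hn _ hsx) ((Dec.lt_one hs.2 _).2 (hn x hx))
  have h1 : c (φ * s) = c (s * φ) := by
    have e : φ * s = (s * φ) * ((s * φ)⁻¹ * (φ * s)) := by group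
    have hiN := (hs.mul hφ).inv.mul (hφ.mul hs)
    rw [e, hc.mul _ (hs.mul hφ) _ hiN, h _ hiN.1 hi, map_zero, add_zero]
  rw [hc.mul φ hφ s hs, hc.mul s hs φ hφ, ← hφX] at h1
  obtain ⟨a, ha⟩ := hact s
  obtain ⟨b, hb⟩ := hact φ
  have hcomm : ac (WAB A B) s (ac (WAB A B) φ X) = ac (WAB A B) φ (ac (WAB A B) s X) := by
    rw [ha _ (ac_mem D.cma φ hX), hb _ hX, ha _ hX, ac_act D.cma, hb _ hX]
  have h2 : ac (WAB A B) φ (c s - (ac (WAB A B) s X - X)) = c s - (ac (WAB A B) s X - X) := by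
    rw [map_sub, map_sub]
    rw [map_sub, hcomm] at h1
    have h3 : ac (WAB A B) φ (c s) = c s + (ac (WAB A B) φ (ac (WAB A B) s X) - ac (WAB A B) s X) - (ac (WAB A B) φ X - X) := by
      rw [← h1]
      abel
    rw [h3]
    abel
  exact sub_eq_zero.1 (h0 _ (sub_mem (hc.val s hs) (sub_mem (ac_mem D.cma s hX) hX)) h2)

/-- From cocycles and Kummer generators over a field B₀ to the local notions. -/
theorem dc_of_cc {B₀ : IntermediateField F Ω} (hc : Cc act π B₀ c) (hB : ∀ s, DecN N V s → s ∈ B₀.fixingSubgroup) :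
    Dc act π N V c :=
  ⟨fun s hs t ht => hc.mul s (hB s hs) t (hB t ht), fun s hs => hc.val s (hB s hs)⟩

theorem ks_of_kum {B₀ L : IntermediateField F Ω} (hL : IsTB act π B₀ L)
    (hB : ∀ s, DecN N V s → s ∈ B₀.fixingSubgroup) {e : Pt (WAB A B) Ω → Pt (WAB A B) Ω → Ω} {y : Pt (WAB A B) Ω → Ω}
    (hy : ∀ T ∈ Tor act π, Kum L e c T (y T)) : KS act π N V e c y :=
  ⟨fun T hT => (hy T hT).1, fun T hT s hs => (hy T hT).2 s ((hL.fix s).2 ⟨hB s hs.1, hs.2⟩)⟩

/-- The two local reductions: on inertia to zero, then ramified torsion. If c vanishes on the inertia elements over N fixing Tor π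
and Tor (cj π), and some inertia element over N has no fixed point, then c is the coboundary of a point of Tor (cj π). -/
theorem cob_ram (D : Dat A B Om j act mo ψ π l) (hc : Dc act π N V c)
    (h : ∀ s ∈ N.fixingSubgroup, JV act π V s → c s = 0)
    (hσ : ∃ s ∈ N.fixingSubgroup, Inert V s ∧ ∀ T ∈ Tor act (cj π), ac (WAB A B) s T = T → T = 0) :
    ∃ X ∈ Tor act (cj π), ∀ s, DecN N V s → c s = ac (WAB A B) s X - X := by
  obtain ⟨X, hX, h1⟩ := cob_inert D hc h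
  refine ⟨X, hX, fun s hs => ?_⟩
  have h2 := cob_dec_ram (hc.sub_cob D.cma hX) (fun s hsN hs => by
    show c s - (ac (WAB A B) s X - X) = 0
    rw [h1 s hsN hs, sub_self]) hσ s hs
  exact sub_eq_zero.1 h2

/-- Elements of JV fix the l-th roots of unity. -/
theorem JV.mu (D : Dat A B Om j act mo ψ π l) {e : Pt (WAB A B) Ω → Pt (WAB A B) Ω → Ω} (he : Pairing A B act π l e)
    {s : Ω ≃ₐ[F] Ω} (hs : JV act π V s) (ζ : Ω) (hζ : ζ ^ l = 1) : s ζ = ζ := by
  have hpr := cj_prime D.pr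
  obtain ⟨-, X, hX, -, hX0⟩ := H55K.S.gi_gen D.cma (cj π) hpr
  have hXne : X ≠ 0 := by
    intro h0
    apply hpr.not_unit
    rw [isUnit_iff_dvd_one]
    apply (hX0 1).1
    rw [h0, map_zero]
  have hex : ∃ T ∈ Tor act π, e X T ≠ 1 := by
    by_contra hcon
    push Not at hcon
    exact hXne (he.nondeg X hX hcon)
  obtain ⟨T, hT, hne1⟩ := hex
  have hroot := he.root X hX T hT
  have hprim : IsPrimitiveRoot (e X T) l := by
    have h1 : Fact l.Prime := ⟨D.hl⟩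
    rw [← orderOf_eq_prime hroot hne1]
    exact IsPrimitiveRoot.orderOf _
  have hfix : s (e X T) = e X T := by
    rw [he.gal s _ hX T hT, hs.2.2 _ hX, hs.2.1 T hT]
  have hl0 : NeZero l := ⟨D.hl.ne_zero⟩
  obtain ⟨i, -, hi⟩ := hprim.eq_pow_of_pow_eq_one hζ
  rw [← hi, map_pow, hfix]

end H13X
end

-- from Lib.H13Z.LG
section

open NumberField IsDedekindDomain

namespace H13Z

open H55P H28G H55B H13S

variable {Ω : Type} [Field Ω] [DecidableEq Ω] [Algebra F Ω]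

variable {π : O} {V : ValuationSubring Ω}

/-- Chunk LG (S), closure properties, all direct from the definitions. -/
theorem Hx.add {x y : Ω} (hx : Hx π V x) (hy : Hx π V y) : Hx π V (x + y) := by
  intro s hs
  rw [map_add, hx s hs, hy s hs]

theorem Hx.sub {x y : Ω} (hx : Hx π V x) (hy : Hx π V y) : Hx π V (x - y) := by
  intro s hs
  rw [map_sub, hx s hs, hy s hs]

theorem Hx.mul {x y : Ω} (hx : Hx π V x) (hy : Hx π V y) : Hx π V (x * y) := by
  intro s hs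
  rw [map_mul, hx s hs, hy s hs]

theorem Hx.div {x y : Ω} (hx : Hx π V x) (hy : Hx π V y) : Hx π V (x / y) := by
  intro s hs
  rw [map_div₀, hx s hs, hy s hs]

theorem Hx.inv {x : Ω} (hx : Hx π V x) : Hx π V x⁻¹ := by
  intro s hs
  rw [map_inv₀, hx s hs]

theorem Hx.pow {x : Ω} (hx : Hx π V x) (n : ℕ) : Hx π V (x ^ n) := by
  intro s hs
  rw [map_pow, hx s hs]

theorem Hx.zpow {x : Ω} (hx : Hx π V x) (n : ℤ) : Hx π V (x ^ n) := by
  intro s hs
  rw [map_zpow₀, hx s hs]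

theorem Hx.alg (a : F) : Hx π V (algebraMap F Ω a) := by
  intro s _
  exact s.commutes a

theorem Hx.nat (n : ℕ) : Hx π V (n : Ω) := by
  intro s _
  exact map_natCast s n

theorem Hx.one : Hx π V (1 : Ω) := by
  intro s _
  exact map_one s

/-- tt_mp, ac_eq. -/
theorem Hx.tt {T : P27 Ω} (hT : T ∈ Tor π Ω) : Hx π V (H28G.tt T) := by
  intro s hs
  have h1 : H28G.tt (ac W27 s T) = s (H28G.tt T) := tt_mp s.toAlgHom T
  rw [← h1, hs.2 T hT]

theorem Dec.mul' {s t : Ω ≃ₐ[F] Ω} (hs : Dec V s) (ht : Dec V t) : Dec V (s * t) := by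
  intro x
  exact (hs (t x)).trans (ht x)

theorem Dec.inv' {s : Ω ≃ₐ[F] Ω} (hs : Dec V s) : Dec V s⁻¹ := by
  intro x
  have h1 := hs (s⁻¹ x)
  have h2 : s (s⁻¹ x) = x := s.apply_symm_apply x
  rw [h2] at h1
  exact h1.symm

/-- Elements of the decomposition group preserve the inequalities between values (H13S.dv_le). -/
theorem Dec.lt {s : Ω ≃ₐ[F] Ω} (hs : Dec V s) (a b : Ω) :
    V.valuation (s a) < V.valuation (s b) ↔ V.valuation a < V.valuation b := by
  rw [← not_le, ← not_le, dv_le s hs b a]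

theorem Dec.lt_one {s : Ω ≃ₐ[F] Ω} (hs : Dec V s) (a : Ω) : V.valuation (s a) < 1 ↔ V.valuation a < 1 := by
  have h := Dec.lt hs a 1
  rwa [map_one, map_one] at h

theorem Dec.le_one {s : Ω ≃ₐ[F] Ω} (hs : Dec V s) (a : Ω) : V.valuation (s a) ≤ 1 ↔ V.valuation a ≤ 1 := by
  have h := dv_le s hs a 1
  rwa [map_one, map_one] at h

/-- s has a finite orbit on a: as in H13S.qv_val. -/
theorem Dec.val [Algebra.IsAlgebraic F Ω] {s : Ω ≃ₐ[F] Ω} (hs : Dec V s) (a : Ω) :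
    V.valuation (s a) = V.valuation a := by
  obtain ⟨n, hn, hna⟩ := qv_orb s a
  have hstep : ∀ k : ℕ, (s ^ (k + 1)) a = s ((s ^ k) a) := by
    intro k
    rw [pow_succ']
    rfl
  rcases lt_trichotomy (V.valuation (s a)) (V.valuation a) with h | h | h
  · exfalso
    have h1 : ∀ k : ℕ, V.valuation ((s ^ (k + 1)) a) < V.valuation a := by
      intro k
      induction k with
      | zero =>
        rw [zero_add, pow_one]
        exact h
      | succ k ih =>
        rw [hstep (k + 1)]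
        exact lt_trans ((Dec.lt hs _ _).2 ih) h
    have h2 := h1 (n - 1)
    rw [Nat.sub_add_cancel hn, hna] at h2
    exact lt_irrefl _ h2
  · exact h
  · exfalso
    have h1 : ∀ k : ℕ, V.valuation a < V.valuation ((s ^ (k + 1)) a) := by
      intro k
      induction k with
      | zero =>
        rw [zero_add, pow_one]
        exact h
      | succ k ih =>
        rw [hstep (k + 1)]
        exact lt_trans h ((Dec.lt hs _ _).2 ih)
    have h2 := h1 (n - 1)
    rw [Nat.sub_add_cancel hn, hna] at h2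
    exact lt_irrefl _ h2

/-- The inertia group is contained in the decomposition group (H13S.git_dec). -/
theorem Inert.dec {s : Ω ≃ₐ[F] Ω} (hs : Inert V s) : Dec V s := git_dec V s hs

/-- Conjugation: s σ x = σ (σ⁻¹ s σ) x, and σ⁻¹ s σ is again in DT (the points killed by pi are stable: ac_mem, ac_mul). -/
theorem Hx.dec {x : Ω} (hx : Hx π V x) {σ : Ω ≃ₐ[F] Ω} (hσ : Dec V σ) : Hx π V (σ x) := by
  intro s hs
  have h1 : DT π V (σ⁻¹ * s * σ) := by
    refine ⟨Dec.mul' (Dec.mul' (Dec.inv' hσ) hs.1) hσ, ?_⟩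
    intro T hT
    rw [ac_mul, ac_mul, hs.2 _ (ac_mem σ hT), ← ac_mul, inv_mul_cancel, ac_one]
  have h2 := hx _ h1
  have h3 : s (σ x) = σ ((σ⁻¹ * s * σ) x) := by
    have h4 : (σ⁻¹ * s * σ) x = σ⁻¹ (s (σ x)) := rfl
    rw [h4]
    exact (σ.apply_symm_apply _).symm
  rw [h3, h2]

/-- Conjugates of inertia elements by decomposition elements are inertia elements. -/
theorem Inert.conj {s σ : Ω ≃ₐ[F] Ω} (hs : Inert V s) (hσ : Dec V σ) : Inert V (σ⁻¹ * s * σ) := by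
  intro x hx
  have h1 := hs (σ x) ((hσ x).2 hx)
  have h2 := (Dec.lt_one (Dec.inv' hσ) (s (σ x) - σ x)).2 h1
  rw [map_sub] at h2
  have h3 : σ⁻¹ (σ x) = x := σ.symm_apply_apply x
  rw [h3] at h2
  exact h2

/-- An automorphism acting as act a on Tor β (β prime, primary) and moving a point has no fixed point: act (a - 1) T = 0 and β does not divide a - 1 (Bezout: β and a - 1 are coprime). a from exists_chi (CH.lean) or gi_gen. -/
theorem no_fix [IsAlgClosure F Ω] {β : O} (hβ : Prime β) (h3 : Prim β) {s : Ω ≃ₐ[F] Ω}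
    (h : ∃ T ∈ Tor β Ω, ac W27 s T ≠ T) {T : P27 Ω} (hT : T ∈ Tor β Ω) (hs : ac W27 s T = T) : T = 0 := by
  obtain ⟨-, T₀, hT₀, hgen, hker⟩ := gi_gen (Ω := Ω) β hβ h3
  obtain ⟨a, ha⟩ := hgen _ (ac_mem s hT₀)
  have hall : ∀ X ∈ Tor β Ω, ac W27 s X = H28G.act a X := by
    intro X hX
    obtain ⟨b, rfl⟩ := hgen X hX
    rw [ac_act, ha, ← act_mul, ← act_mul, mul_comm]
  obtain ⟨T₁, hT₁, hne⟩ := h
  have hnd : ¬ β ∣ a - 1 := by
    rintro ⟨c, hc⟩
    apply hne
    rw [hall T₁ hT₁, ← sub_eq_zero]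
    have h1 : H28G.act (a - 1) T₁ = 0 := by
      rw [hc, mul_comm, act_mul, mem_Tor.1 hT₁]
      exact map_zero _
    rwa [act_sub, act_one] at h1
  obtain ⟨u, v, huv⟩ := (hβ.irreducible.coprime_iff_not_dvd).2 hnd
  have h1 : H28G.act (a - 1) T = 0 := by
    rw [act_sub, act_one, ← hall T hT, hs, sub_self]
  have h2 : H28G.act (u * β + v * (a - 1)) T = 0 := by
    rw [act_add, act_mul, act_mul, mem_Tor.1 hT, h1, map_zero, map_zero, add_zero]
  rwa [huv, act_one] at h2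

end H13Z
end

-- from Lib.H13Z.LI
section

open NumberField IsDedekindDomain

namespace H13Z

open H55P H28G H55B H13S

variable {Ω : Type} [Field Ω] [DecidableEq Ω] [Algebra F Ω] [IsAlgClosure F Ω]

variable {β : O} {V : ValuationSubring Ω}

theorem li_zpow {Γ : Type} [LinearOrderedCommGroupWithZero Γ] {r : Γ} (h0 : r ≠ 0) (h1 : r < 1) (k : ℤ) {n : ℕ}
    (hn : 2 ≤ n) : (r ^ k) ^ n ≠ r := by
  intro h
  have h2 : r ^ (k * (n : ℤ)) = r ^ (1 : ℤ) := by
    rw [zpow_mul, zpow_natCast, zpow_one, h]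
  have h3 := zpow_right_injective₀ (zero_lt_iff.2 h0) h1.ne h2
  have h4 : (n : ℤ) ∣ 1 := ⟨k, by rw [mul_comm]; exact h3.symm⟩
  have h5 := Int.le_of_dvd one_pos h4
  omega

/-- the value of the parameter of a point fixed by inertia -/
theorem li_val (hβ : Prime β) (hV : vo V β < 1) {P : P27 Ω} (hP : Kr V P) (h0 : P ≠ 0)
    (h : ∀ s : Ω ≃ₐ[F] Ω, Inert V s → ac W27 s P = P) : ∃ k : ℤ, V.valuation (tt P) = vo V β ^ k := by
  have ht : tt P ≠ 0 := fun hc => h0 ((kr_tt_zero V hP).1 hc)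
  have hfix : ∀ s ∈ (⊥ : IntermediateField F Ω).fixingSubgroup, Inert V s → s (tt P) = tt P := by
    intro s _ hs
    rw [← qv_tt, h s hs]
  have hnf : NumberField (⊥ : IntermediateField F Ω) := NumberField.of_module_finite F _
  obtain ⟨a, ha0, ha⟩ := value_fixed (⊥ : IntermediateField F Ω) V (tt P) ht hfix
  obtain ⟨b, hb⟩ := IntermediateField.mem_bot.1 a.2
  have hb0 : b ≠ 0 := by
    rintro rfl
    rw [map_zero] at hb
    exact ha0 (Subtype.ext hb.symm)
  rw [ha, ← hb]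
  exact qv_intpow V hβ hV b hb0

/-- Chunk LI1 (S/M). T₁ ≠ 0 in Tor β (gi_gen). If all inertia elements fixed all points of Tor β then tt T₁ would be fixed by the inertia group: value_fixed for K = ⊥ and qv_intpow: V (tt T₁) = (V β)^n; V (tt T₁)^(Nm β - 1) = V β (kr_tor_ram), so n (Nm β - 1) = 1, impossible. no_fix. -/
theorem moved_ram (hβ : Prime β) (h3 : Prim β) (hN : 4 ≤ H55B.Nm β) (hV : vo V β < 1) :
    ∃ s : Ω ≃ₐ[F] Ω, Inert V s ∧ ∀ T ∈ Tor β Ω, ac W27 s T = T → T = 0 := by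
  have key : ∃ s : Ω ≃ₐ[F] Ω, Inert V s ∧ ∃ T ∈ Tor β Ω, ac W27 s T ≠ T := by
    by_contra hcon
    push Not at hcon
    obtain ⟨-, T, hT, -, hT0⟩ := gi_gen (Ω := Ω) β hβ h3
    have hTne : T ≠ 0 := by
      intro h0
      apply hβ.not_isUnit
      rw [isUnit_iff_dvd_one]
      apply (hT0 1).1
      rw [h0, map_zero]
    obtain ⟨hK, hv⟩ := kr_tor_ram β hβ h3 V hV hT hTne
    obtain ⟨k, hk⟩ := li_val hβ hV hK hTne (fun s hs => hcon s hs T hT)
    rw [hk] at hv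
    exact li_zpow (qv_pos V hβ.ne_zero) hV k (by omega) hv
  obtain ⟨s, hs, h⟩ := key
  exact ⟨s, hs, fun T hT hTs => no_fix hβ h3 h hT hTs⟩

/-- Chunk LI2 (S/M). Copy of H13S.gi_three (GIT.lean): its proof uses only that fc T is fixed by the inertia group (value_fixed), so the element can be taken in the inertia group. Then no_fix. -/
theorem moved_three (hβ : Prime β) (h3 : Prim β) (h2 : ¬ β ∣ 2) (hV : V.valuation (3 : Ω) < 1) :
    ∃ s : Ω ≃ₐ[F] Ω, Inert V s ∧ ∀ T ∈ Tor β Ω, ac W27 s T = T → T = 0 := by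
  have key : ∃ s : Ω ≃ₐ[F] Ω, Inert V s ∧ ∃ T ∈ Tor β Ω, ac W27 s T ≠ T := by
    by_contra hcon
    push Not at hcon
    obtain ⟨-, T, hT, -, hT0⟩ := gi_gen (Ω := Ω) β hβ h3
    have hTne : T ≠ 0 := by
      intro h0
      apply hβ.not_isUnit
      rw [isUnit_iff_dvd_one]
      apply (hT0 1).1
      rw [h0, map_zero]
    have hcop : IsCoprime β 6 := by
      have h6 : (6 : O) = 2 * 3 := by norm_num
      rw [h6]
      refine IsCoprime.mul_right (hβ.coprime_iff_not_dvd.2 h2) ?_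
      obtain ⟨c, hc⟩ := h3
      exact ⟨1, -c, by linear_combination hc⟩
    have hval := D_val V.valuation hV hcop hT hTne
    have hch : CharZero Ω := H28G.char0 (k := Ω)
    have h30 : V.valuation (3 : Ω) ≠ 0 := by
      rw [Valuation.ne_zero_iff]
      norm_num
    have hf0 : fc T ≠ 0 := by
      intro h0
      rw [h0, map_zero, zero_pow (by norm_num)] at hval
      exact pow_ne_zero 3 h30 hval.symm
    have hfix : ∀ s ∈ (⊥ : IntermediateField F Ω).fixingSubgroup, Inert V s → s (fc T) = fc T := by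
      intro s _ hs
      have h4 := hcon s hs T hT
      have h5 : fc (ac W27 s T) = s (fc T) := fc_mp s.toAlgHom T
      rw [h4] at h5
      exact h5.symm
    have hnf : NumberField (⊥ : IntermediateField F Ω) := NumberField.of_module_finite F _
    obtain ⟨a, ha0, ha⟩ := value_fixed (⊥ : IntermediateField F Ω) V (fc T) hf0 hfix
    obtain ⟨b, hb⟩ := IntermediateField.mem_bot.1 a.2
    have hb0 : b ≠ 0 := by
      rintro rfl
      rw [map_zero] at hb
      exact ha0 (Subtype.ext hb.symm)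
    rw [ha, ← hb] at hval
    obtain ⟨x, y, hy, rfl⟩ := IsFractionRing.div_surjective (A := O) b
    have hy0 : y ≠ 0 := nonZeroDivisors.ne_zero hy
    have hx0 : x ≠ 0 := by
      rintro rfl
      apply hb0
      rw [map_zero, zero_div]
    obtain ⟨i, hi⟩ := git_pow (k := Ω) V.valuation hV hx0
    obtain ⟨j, hj⟩ := git_pow (k := Ω) V.valuation hV hy0
    have hyv : V.valuation (ak Ω y) ≠ 0 := by
      rw [Valuation.ne_zero_iff]
      unfold ak
      rw [RingHom.comp_apply, Ne, map_eq_zero_iff _ (algebraMap F Ω).injective,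
        map_eq_zero_iff _ (FaithfulSMul.algebraMap_injective O F)]
      exact hy0
    have hd : V.valuation ((algebraMap F Ω) (algebraMap O F x / algebraMap O F y)) =
        V.valuation (ak Ω x) / V.valuation (ak Ω y) := by
      rw [map_div₀, map_div₀]
      rfl
    rw [hd, hi, hj, div_pow, div_eq_iff (by rw [← hj]; exact pow_ne_zero 4 hyv)] at hval
    have hr : V.valuation (ak Ω (2 * om + 1)) ^ 2 = V.valuation (3 : Ω) := by
      rw [← map_pow, ← map_pow, GV10_s_sq, map_neg, Valuation.map_neg]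
      congr 1
      exact map_ofNat _ 3
    rw [← hr, ← pow_mul, ← pow_mul, ← pow_mul, ← pow_add] at hval
    have hr1 : V.valuation (ak Ω (2 * om + 1)) < 1 := by
      by_contra h4
      rw [not_lt] at h4
      have h5 : 1 ≤ V.valuation (ak Ω (2 * om + 1)) ^ 2 := one_le_pow₀ h4
      rw [hr] at h5
      exact absurd hV (not_lt.2 h5)
    have hr0 : 0 < V.valuation (ak Ω (2 * om + 1)) := by
      rw [zero_lt_iff]
      intro h4
      rw [h4] at hr
      exact h30 (by rw [← hr]; exact zero_pow (by norm_num))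
    have h5 := pow_right_injective₀ hr0 hr1.ne hval
    omega
  obtain ⟨s, hs, h⟩ := key
  exact ⟨s, hs, fun T hT hTs => no_fix hβ h3 h hT hTs⟩

/-- Chunk LN (S/M). P - X would be fixed by the inertia group, V (tt (P - X)) = V (tt P) (H13S.val_ratio with R = -X, if X ≠ 0), and it is a power of V β (value_fixed for K = ⊥, qv_intpow; tt ≠ 0): n * Nm β = 1, impossible. -/
theorem pt_nontriv (hβ : Prime β) (h3 : Prim β) (hN : 4 ≤ H55B.Nm β) (hV : vo V β < 1) {P : P27 Ω} (hP : Kr V P)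
    (hv : V.valuation (tt P) ^ H55B.Nm β = vo V β) :
    ¬ ∃ X ∈ Tor β Ω, ∀ s : Ω ≃ₐ[F] Ω, Inert V s → ac W27 s P - P = ac W27 s X - X := by
  rintro ⟨X, hX, h⟩
  have hfix : ∀ s : Ω ≃ₐ[F] Ω, Inert V s → ac W27 s (P - X) = P - X := by
    intro s hs
    have h1 := h s hs
    rw [map_sub, sub_eq_sub_iff_sub_eq_sub.1 h1]
  have hval : Kr V (P - X) ∧ V.valuation (tt (P - X)) = V.valuation (tt P) := by
    by_cases h0 : X = 0
    · rw [h0, sub_zero]
      exact ⟨hP, rfl⟩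
    · have hnX : -X ∈ Tor β Ω := neg_mem hX
      have hn0 : -X ≠ 0 := neg_ne_zero.2 h0
      rw [sub_eq_add_neg]
      exact ⟨kr_add V hP (kr_tor_ram β hβ h3 V hV hnX hn0).1,
        (val_ratio hβ h3 (by omega) V hV P hP hv (-X) hnX hn0).1⟩
  have hβ0 := qv_pos V hβ.ne_zero
  have hne : P - X ≠ 0 := by
    intro hc
    have h1 := hval.2
    rw [hc, gia_tt0, map_zero] at h1
    rw [← h1, zero_pow (by omega)] at hv
    exact hβ0 hv.symm
  obtain ⟨k, hk⟩ := li_val hβ hV hval.1 hne hfix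
  rw [← hval.2, hk] at hv
  exact li_zpow hβ0 hV k (by omega) hv

end H13Z
end

-- from Lib.H13X.XI
section

/-! # H13X: port of H13Z/LI -/

open NumberField IsDedekindDomain WeierstrassCurve

namespace H13X

open H55P (IQ embF eF LF Per IsHecke Pt ac Inert Dec Nm Coc)
open H35P (WAB Ker tt)
open H55K (Tor ak xc yc CMA Dta GV GMod cj cj_cj mul_cj cj_prime cj_dvd cj_nat Nm_cj Nm_mul Nm_nat)
open H55K.S
open H13S (Abv)




variable {F : Type} [Field F] [NumberField F] [IQ F] {A B : F} {Om : ℂ} {Ω : Type} [Field Ω] [DecidableEq Ω]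
  [Algebra F Ω] [IsAlgClosure F Ω] {j : Ω →+* ℂ} {act : 𝓞 F →+* AddMonoid.End (Pt (WAB A B) Ω)} {mo : Ideal (𝓞 F)}
  {ψ : Ideal (𝓞 F) →*₀ 𝓞 F}

variable {β : 𝓞 F} {V : ValuationSubring Ω}

/-- the value of the parameter of a point fixed by inertia -/
theorem li_val (hA : CMA F A B Om j act) (hG : GV A B V) (hβ : Prime β) (hV : vo V β < 1) {P : Pt (WAB A B) Ω} (hP : Ker V P) (h0 : P ≠ 0)
    (h : ∀ s : Ω ≃ₐ[F] Ω, Inert V s → ac (WAB A B) s P = P) : ∃ k : ℤ, V.valuation (tt P) = vo V β ^ k := by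
  have ht : tt P ≠ 0 := fun hc => h0 ((kr_tt_zero hG hP).1 hc)
  have hfix : ∀ s ∈ (⊥ : IntermediateField F Ω).fixingSubgroup, Inert V s → s (tt P) = tt P := by
    intro s _ hs
    rw [← tt_ac, h s hs]
  have hnf : NumberField (⊥ : IntermediateField F Ω) := NumberField.of_module_finite F _
  obtain ⟨a, ha0, ha⟩ := H13S.value_fixed (⊥ : IntermediateField F Ω) V (tt P) ht hfix
  obtain ⟨b, hb⟩ := IntermediateField.mem_bot.1 a.2
  have hb0 : b ≠ 0 := by
    rintro rfl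
    rw [map_zero] at hb
    exact ha0 (Subtype.ext hb.symm)
  rw [ha, ← hb]
  exact qv_intpow V hβ hV b hb0

/-- Chunk LI1 (S/M). T₁ ≠ 0 in Tor β (gi_gen). If all inertia elements fixed all points of Tor β then tt T₁ would be fixed by the inertia group: H13S.value_fixed for K = ⊥ and qv_intpow: V (tt T₁) = (V β)^n; V (tt T₁)^(Nm β - 1) = V β (kr_tor_ram), so n (Nm β - 1) = 1, impossible. no_fix. -/
theorem moved_ram (hA : CMA F A B Om j act) (hG : GV A B V) (hβ : Prime β) (hN : 4 ≤ Nm β) (hV : vo V β < 1) :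
    ∃ s : Ω ≃ₐ[F] Ω, Inert V s ∧ ∀ T ∈ Tor act β, ac (WAB A B) s T = T → T = 0 := by
  have key : ∃ s : Ω ≃ₐ[F] Ω, Inert V s ∧ ∃ T ∈ Tor act β, ac (WAB A B) s T ≠ T := by
    by_contra hcon
    push Not at hcon
    obtain ⟨-, T, hT, -, hT0⟩ := gi_gen hA β hβ
    have hTne : T ≠ 0 := by
      intro h0
      apply hβ.not_isUnit
      rw [isUnit_iff_dvd_one]
      apply (hT0 1).1
      rw [h0, map_zero]
    obtain ⟨hK, hv⟩ := kr_tor_ram hA hG β hβ hV hT hTne
    obtain ⟨k, hk⟩ := li_val hA hG hβ hV hK hTne (fun s hs => hcon s hs T hT)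
    rw [hk] at hv
    exact H13Z.li_zpow (vo_ne V hβ.ne_zero) hV k (by omega) hv
  obtain ⟨s, hs, h⟩ := key
  exact ⟨s, hs, fun T hT hTs => no_fix hA hβ h hT hTs⟩

/-- Chunk LN (S/M). P - X would be fixed by the inertia group, V (tt (P - X)) = V (tt P) (H13S.val_ratio with R = -X, if X ≠ 0), and it is a power of V β (H13S.value_fixed for K = ⊥, qv_intpow; tt ≠ 0): n * Nm β = 1, impossible. -/
theorem pt_nontriv (hA : CMA F A B Om j act) (hG : GV A B V) (hβ : Prime β) (hN : 4 ≤ Nm β) (hV : vo V β < 1) {P : Pt (WAB A B) Ω} (hP : Ker V P)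
    (hv : V.valuation (tt P) ^ Nm β = vo V β) :
    ¬ ∃ X ∈ Tor act β, ∀ s : Ω ≃ₐ[F] Ω, Inert V s → ac (WAB A B) s P - P = ac (WAB A B) s X - X := by
  rintro ⟨X, hX, h⟩
  have hfix : ∀ s : Ω ≃ₐ[F] Ω, Inert V s → ac (WAB A B) s (P - X) = P - X := by
    intro s hs
    have h1 := h s hs
    rw [map_sub, sub_eq_sub_iff_sub_eq_sub.1 h1]
  have hval : Ker V (P - X) ∧ V.valuation (tt (P - X)) = V.valuation (tt P) := by
    by_cases h0 : X = 0
    · rw [h0, sub_zero]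
      exact ⟨hP, rfl⟩
    · have hnX : -X ∈ Tor act β := neg_mem hX
      have hn0 : -X ≠ 0 := neg_ne_zero.2 h0
      rw [sub_eq_add_neg]
      exact ⟨kr_add hG hP (kr_tor_ram hA hG β hβ hV hnX hn0).1,
        (val_ratio hA hβ (by omega) V hG hV P hP hv (-X) hnX hn0).1⟩
  have hβ0 := vo_ne V hβ.ne_zero
  have hne : P - X ≠ 0 := by
    intro hc
    have h1 := hval.2
    rw [hc, tt_zero, map_zero] at h1
    rw [← h1, zero_pow (by omega)] at hv
    exact hβ0 hv.symm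
  obtain ⟨k, hk⟩ := li_val hA hG hβ hV hval.1 hne hfix
  rw [← hval.2, hk] at hv
  exact H13Z.li_zpow hβ0 hV k (by omega) hv

end H13X
end

-- from Lib.H13Z.LDG
section

open NumberField IsDedekindDomain

namespace H13Z

open H55P H28G H55B H13S

variable {Ω : Type} [Field Ω] [DecidableEq Ω] [Algebra F Ω] [IsAlgClosure F Ω]

theorem LDG_ff {k R : Type} [Field k] [Finite k] [Field R] [Finite R] (ι : k →+* R) (τ : R →+* R)
    (h : ∀ a, τ (ι a) = ι a) : ∃ j : ℕ, ∀ x, τ x = x ^ (Nat.card k ^ j) := by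
  let _ : Algebra k R := ι.toAlgebra
  let _ : Fintype k := Fintype.ofFinite k
  let τ' : R →ₐ[k] R := { τ with commutes' := h }
  obtain ⟨n, hn⟩ := (FiniteField.bijective_frobeniusAlgHom_pow k R).2 τ'
  refine ⟨n.1, fun x => ?_⟩
  have h1 := DFunLike.congr_fun hn x
  simp only [AlgHom.coe_pow, FiniteField.coe_frobeniusAlgHom, pow_iterate] at h1
  rw [Nat.card_eq_fintype_card]
  exact h1.symm

theorem LDG_pow {L : Type} [Field L] (V : ValuationSubring L) {x y : L} (hx : V.valuation x ≤ 1)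
    (hy : V.valuation y ≤ 1) (h : V.valuation (x - y) < 1) (n : ℕ) : V.valuation (x ^ n - y ^ n) < 1 := by
  induction n with
  | zero =>
    rw [pow_zero, pow_zero, sub_self, map_zero]
    exact zero_lt_one
  | succ n ih =>
    have e : x ^ (n + 1) - y ^ (n + 1) = x ^ n * (x - y) + (x ^ n - y ^ n) * y := by ring
    rw [e]
    refine V.valuation.map_add_lt ?_ ?_
    · rw [map_mul, map_pow]
      exact lt_of_le_of_lt (mul_le_of_le_one_left' (pow_le_one' hx n)) h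
    · rw [map_mul]
      exact lt_of_le_of_lt (mul_le_of_le_one_right' hy) ih

theorem LDG_decpow {Ω : Type} [Field Ω] [DecidableEq Ω] [Algebra F Ω] {V : ValuationSubring Ω}
    {φ : Ω ≃ₐ[F] Ω} (hφ : Dec V φ) (j : ℕ) : Dec V (φ ^ j) := by
  induction j with
  | zero =>
    intro x
    rw [pow_zero]
    rfl
  | succ j ih =>
    rw [pow_succ]
    exact Dec.mul' ih hφ

theorem LDG_phi {Ω : Type} [Field Ω] [DecidableEq Ω] [Algebra F Ω] {V : ValuationSubring Ω}
    {φ : Ω ≃ₐ[F] Ω} (hφ : Dec V φ) {Q : ℕ} (hφF : ∀ x ∈ V, V.valuation (φ x - x ^ Q) < 1) (j : ℕ)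
    {y : Ω} (hy : y ∈ V) : V.valuation ((φ ^ j) y - y ^ (Q ^ j)) < 1 := by
  induction j with
  | zero =>
    rw [pow_zero, pow_zero, pow_one]
    have : (1 : Ω ≃ₐ[F] Ω) y - y = 0 := sub_self y
    rw [this, map_zero]
    exact zero_lt_one
  | succ j ih =>
    have h1 : (φ ^ j) y ∈ V := (LDG_decpow hφ j y).2 hy
    have h2 := hφF _ h1
    have h3 := LDG_pow V ((V.valuation_le_one_iff _).2 h1)
      ((V.valuation_le_one_iff _).2 (V.pow_mem hy (Q ^ j))) ih Q
    have h4 : (φ ^ (j + 1)) y = φ ((φ ^ j) y) := by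
      rw [pow_succ']
      rfl
    have e : (φ ^ (j + 1)) y - y ^ (Q ^ (j + 1)) = (φ ((φ ^ j) y) - ((φ ^ j) y) ^ Q) +
        (((φ ^ j) y) ^ Q - (y ^ (Q ^ j)) ^ Q) := by
      rw [h4, pow_succ Q j, pow_mul]
      ring
    rw [e]
    exact V.valuation.map_add_lt h2 h3

theorem LDG_frobN {K : IntermediateField F Ω} [NumberField K] {V : ValuationSubring Ω}
    {w : HeightOneSpectrum (𝓞 K)} (hw : Abv K V w) (N : IntermediateField F Ω) [NumberField N]
    (W : HeightOneSpectrum (𝓞 N)) (hW : Abv N V W) (hKN : K ≤ N)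
    (hN : ∀ s : Ω ≃ₐ[F] Ω, ∀ x ∈ N, s x ∈ N) {s : Ω ≃ₐ[F] Ω} (hs : s ∈ K.fixingSubgroup) (hsD : Dec V s) :
    ∃ j : ℕ, ∀ a : 𝓞 N, V.valuation (s ((a : N) : Ω) - ((a : N) : Ω) ^ (Ideal.absNorm w.asIdeal ^ j)) < 1 := by
  let sN : N →+* N := (((s : Ω →ₐ[F] Ω).comp N.val).codRestrict N.toSubalgebra (fun x => hN s x x.2)).toRingHom
  let sO : 𝓞 N →+* 𝓞 N := RingOfIntegers.mapRingHom sN
  have hsO : ∀ a : 𝓞 N, (((sO a : 𝓞 N) : N) : Ω) = s ((a : N) : Ω) := fun a => rfl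
  let iN : K →+* N := (IntermediateField.inclusion hKN).toRingHom
  let iO : 𝓞 K →+* 𝓞 N := RingOfIntegers.mapRingHom iN
  have hiO : ∀ a : 𝓞 K, (((iO a : 𝓞 N) : N) : Ω) = ((a : K) : Ω) := fun a => rfl
  have memW : ∀ a : 𝓞 N, a ∈ W.asIdeal ↔ V.valuation ((a : N) : Ω) < 1 := by
    intro a
    rw [hW.lt]
    exact (W.valuation_lt_one_iff_mem a).symm
  have memw : ∀ a : 𝓞 K, a ∈ w.asIdeal ↔ V.valuation ((a : K) : Ω) < 1 := by
    intro a
    rw [hw.lt]
    exact (w.valuation_lt_one_iff_mem a).symm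
  have hle1 : W.asIdeal ≤ W.asIdeal.comap sO := by
    intro a ha
    rw [Ideal.mem_comap, memW, hsO, Dec.lt_one hsD]
    exact (memW a).1 ha
  have hle2 : w.asIdeal ≤ W.asIdeal.comap iO := by
    intro a ha
    rw [Ideal.mem_comap, memW, hiO]
    exact (memw a).1 ha
  have hwm := w.isMaximal
  have hWm := W.isMaximal
  let _ : Field (𝓞 K ⧸ w.asIdeal) := Ideal.Quotient.field w.asIdeal
  let _ : Field (𝓞 N ⧸ W.asIdeal) := Ideal.Quotient.field W.asIdeal
  have hfin1 : Finite (𝓞 K ⧸ w.asIdeal) := Ideal.finiteQuotientOfFreeOfNeBot _ w.ne_bot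
  have hfin2 : Finite (𝓞 N ⧸ W.asIdeal) := Ideal.finiteQuotientOfFreeOfNeBot _ W.ne_bot
  obtain ⟨j, hj⟩ := LDG_ff (Ideal.quotientMap W.asIdeal iO hle2) (Ideal.quotientMap W.asIdeal sO hle1) (by
    intro a
    obtain ⟨a, rfl⟩ := Ideal.Quotient.mk_surjective a
    rw [Ideal.quotientMap_mk, Ideal.quotientMap_mk]
    congr 1
    apply RingOfIntegers.coe_injective
    apply Subtype.ext
    rw [hsO, hiO]
    exact (IntermediateField.mem_fixingSubgroup_iff K s).1 hs _ (a : K).2)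
  refine ⟨j, fun a => ?_⟩
  have h1 := hj (Ideal.Quotient.mk W.asIdeal a)
  rw [Ideal.quotientMap_mk, ← map_pow, Ideal.Quotient.mk_eq_mk_iff_sub_mem, memW] at h1
  have h3 : Ideal.absNorm w.asIdeal = Nat.card (𝓞 K ⧸ w.asIdeal) := rfl
  rw [h3]
  exact h1

theorem LDG_ext (N : IntermediateField F Ω) [NumberField N] {V : ValuationSubring Ω}
    (W : HeightOneSpectrum (𝓞 N)) (hW : Abv N V W) {s : Ω ≃ₐ[F] Ω} (hsD : Dec V s) (q : ℕ)
    (h : ∀ a : 𝓞 N, V.valuation (s ((a : N) : Ω) - ((a : N) : Ω) ^ q) < 1) (x : Ω) (hx : x ∈ N) (hxV : x ∈ V) :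
    V.valuation (s x - x ^ q) < 1 := by
  obtain ⟨n, d, hnd⟩ := HeightOneSpectrum.exists_primeCompl_mul_eq_of_integer W (⟨x, hx⟩ : N)
    ((hW ⟨x, hx⟩).1 hxV)
  have hxd : x * (((d : 𝓞 N) : N) : Ω) = ((n : N) : Ω) := congrArg Subtype.val hnd
  have hd1 : ¬ V.valuation (((d : 𝓞 N) : N) : Ω) < 1 := by
    intro h1
    rw [hW.lt] at h1
    exact d.2 ((W.valuation_lt_one_iff_mem (d : 𝓞 N)).1 h1)
  have hsd : V.valuation (s (((d : 𝓞 N) : N) : Ω)) = 1 := by
    refine le_antisymm ?_ ?_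
    · rw [Dec.le_one hsD]
      exact vw_int N V d
    · rw [← not_lt, Dec.lt_one hsD]
      exact hd1
  have h1 := h (d : 𝓞 N)
  have h2 := h n
  have hxv : V.valuation (x ^ q) ≤ 1 := (V.valuation_le_one_iff _).2 (V.pow_mem hxV q)
  have e : (s x - x ^ q) * s (((d : 𝓞 N) : N) : Ω) = (s ((n : N) : Ω) - ((n : N) : Ω) ^ q) -
      x ^ q * (s (((d : 𝓞 N) : N) : Ω) - (((d : 𝓞 N) : N) : Ω) ^ q) := by
    rw [← hxd, map_mul, mul_pow]
    ring
  have h3 : V.valuation ((s x - x ^ q) * s (((d : 𝓞 N) : N) : Ω)) < 1 := by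
    rw [e]
    refine lt_of_le_of_lt (V.valuation.map_sub _ _) (max_lt h2 ?_)
    rw [map_mul]
    exact lt_of_le_of_lt (mul_le_of_le_one_left' hxv) h1
  rw [map_mul, hsd, mul_one] at h3
  exact h3

theorem LDG_top {K : IntermediateField F Ω} [NumberField K] {V : ValuationSubring Ω}
    {w : HeightOneSpectrum (𝓞 K)} (hw : Abv K V w) : ∃ x : K, (x : Ω) ∉ V := by
  obtain ⟨a, ha, ha0⟩ := Submodule.exists_mem_ne_zero_of_ne_bot w.ne_bot
  have h1 : V.valuation ((a : K) : Ω) < 1 := by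
    rw [hw.lt]
    exact (w.valuation_lt_one_iff_mem a).2 ha
  have ha1 : ((a : K) : Ω) ≠ 0 := by
    intro h
    apply ha0
    apply RingOfIntegers.coe_injective
    exact Subtype.ext h
  refine ⟨(a : K)⁻¹, fun h => ?_⟩
  have e : (((a : K)⁻¹ : K) : Ω) = ((a : K) : Ω)⁻¹ := rfl
  rw [e, ← V.valuation_le_one_iff, map_inv₀, inv_le_one₀ (zero_lt_iff.2 ((map_ne_zero _).2 ha1))] at h
  exact absurd h1 (not_lt.2 h)

/-- Chunk LDG1 (M). The decomposition group is generated by a Frobenius element and elements which are inertial on a given finite subfield N. N may be enlarged to a normal extension of F containing K (normalClosure). s in Dec V, s in K.fixingSubgroup. W = the prime of 𝓞 N below V (exists_below; V is not ⊤), the residue field 𝓞 N/W is finite,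
with the subfield 𝓞 K/w with Q = absNorm w elements. s and φ map 𝓞 N to itself and preserve W (Dec), s induces an automorphism of 𝓞 N/W over 𝓞 K/w, so x → x^(Q^j) for some j (FiniteField: the Galois group is generated by Frobenius; e.g. bijective_frobeniusAlgEquivOfAlgebraic_pow, or IsCyclic..), as φ^j.
So s φ^(-j) x - x has value < 1 for x in 𝓞 N, hence for x in N, x in V (x = a/b with a, b in 𝓞 N, b not in W). -/
theorem dec_frob {K : IntermediateField F Ω} [NumberField K] {V : ValuationSubring Ω}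
    {w : HeightOneSpectrum (𝓞 K)} (hw : Abv K V w) {φ : Ω ≃ₐ[F] Ω} (hφ : φ ∈ K.fixingSubgroup)
    (hφD : Dec V φ) (hφF : ∀ x ∈ V, V.valuation (φ x - x ^ Ideal.absNorm w.asIdeal) < 1)
    (N : IntermediateField F Ω) [FiniteDimensional F N] (hKN : K ≤ N)
    (hN : ∀ s : Ω ≃ₐ[F] Ω, ∀ x ∈ N, s x ∈ N) {s : Ω ≃ₐ[F] Ω} (hs : s ∈ K.fixingSubgroup) (hsD : Dec V s) :
    ∃ j : ℕ, ∀ x ∈ N, x ∈ V → V.valuation ((s * (φ ^ j)⁻¹) x - x) < 1 := by
  have hNnf : NumberField N := NumberField.of_module_finite F N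
  have hVN : ∃ x : N, (x : Ω) ∉ V := by
    obtain ⟨x, hx⟩ := LDG_top hw
    exact ⟨⟨x, hKN x.2⟩, hx⟩
  obtain ⟨W, hW⟩ := H13S.exists_below N V hVN
  obtain ⟨j, hj⟩ := LDG_frobN hw N W hW hKN hN hs hsD
  refine ⟨j, fun x hx hxV => ?_⟩
  have hy : (φ ^ j)⁻¹ x ∈ N := hN _ x hx
  have hyV : (φ ^ j)⁻¹ x ∈ V := (Dec.inv' (LDG_decpow hφD j) x).2 hxV
  have h1 := LDG_ext N W hW hsD _ hj _ hy hyV
  have h2 := LDG_phi hφD hφF j hyV
  have h3 : (φ ^ j) ((φ ^ j)⁻¹ x) = x := by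
    have h4 : ((φ ^ j) * (φ ^ j)⁻¹) x = x := by
      rw [mul_inv_cancel]
      rfl
    exact h4
  rw [h3] at h2
  have e : (s * (φ ^ j)⁻¹) x - x = (s ((φ ^ j)⁻¹ x) - ((φ ^ j)⁻¹ x) ^ (Ideal.absNorm w.asIdeal ^ j)) -
      (x - ((φ ^ j)⁻¹ x) ^ (Ideal.absNorm w.asIdeal ^ j)) := by
    have : (s * (φ ^ j)⁻¹) x = s ((φ ^ j)⁻¹ x) := rfl
    rw [this]
    ring
  rw [e]
  exact lt_of_le_of_lt (V.valuation.map_sub _ _) (max_lt h1 h2)

/-- Chunk LDG2 (S/M). A cocycle on the decomposition group over K vanishing on inertia and at Frobenius is zero. Enlarge N (from hc) to a finite normal extension of F containing K. dec_frob: s' = s φ^(-j) is inertial on N, inertia_lift: s'' with Inert V s'', s'' = s' on N; s'' is in K.fixingSubgroup (K ≤ N), n = s''⁻¹ s' is in N.fixingSubgroup and Dec V n.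
d s' = d (s'' n) = d s'' + ac s'' (d n) = 0; d (φ^j) = 0 (induction); d s = d (s' φ^j) = 0. -/
theorem dec_gen {K : IntermediateField F Ω} [NumberField K] {V : ValuationSubring Ω}
    {w : HeightOneSpectrum (𝓞 K)} (hw : Abv K V w) {d : (Ω ≃ₐ[F] Ω) → P27 Ω}
    (hd : ∀ s ∈ K.fixingSubgroup, Dec V s → ∀ t ∈ K.fixingSubgroup, Dec V t →
      d (s * t) = d s + ac W27 s (d t))
    (hc : ∃ N : IntermediateField F Ω, FiniteDimensional F N ∧
      ∀ s ∈ K.fixingSubgroup, s ∈ N.fixingSubgroup → Dec V s → d s = 0)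
    (hI : ∀ s ∈ K.fixingSubgroup, Inert V s → d s = 0) {φ : Ω ≃ₐ[F] Ω} (hφ : φ ∈ K.fixingSubgroup)
    (hφD : Dec V φ) (hφF : ∀ x ∈ V, V.valuation (φ x - x ^ Ideal.absNorm w.asIdeal) < 1) (h0 : d φ = 0)
    {s : Ω ≃ₐ[F] Ω} (hs : s ∈ K.fixingSubgroup) (hsD : Dec V s) : d s = 0 := by
  obtain ⟨N0, hN0f, hN0⟩ := hc
  have hcl0 : IsAlgClosed Ω := IsAlgClosure.isAlgClosed F
  have hal0 : Algebra.IsAlgebraic F Ω := IsAlgClosure.isAlgebraic
  have hnorm : Normal F Ω := IsAlgClosure.normal F Ω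
  have hKfin : FiniteDimensional F K := FiniteDimensional.right ℚ F K
  let M : IntermediateField F Ω := K ⊔ N0
  have hMfin : FiniteDimensional F M := IntermediateField.finiteDimensional_sup K N0
  let N : IntermediateField F Ω := IntermediateField.normalClosure F M Ω
  have hNfin : FiniteDimensional F N := normalClosure.is_finiteDimensional F M Ω
  have hNnorm : Normal F N := normalClosure.normal F M Ω
  have hMN : M ≤ N := IntermediateField.le_normalClosure M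
  have hKN : K ≤ N := le_trans le_sup_left hMN
  have hN0N : N0 ≤ N := le_trans le_sup_right hMN
  have hst : ∀ s : Ω ≃ₐ[F] Ω, ∀ x ∈ N, s x ∈ N := by
    intro s x hx
    exact (IntermediateField.normal_iff_forall_map_le'.1 hNnorm) s ⟨x, hx, rfl⟩
  obtain ⟨j, hj⟩ := dec_frob hw hφ hφD hφF N hKN hst hs hsD
  have hφj : φ ^ j ∈ K.fixingSubgroup := pow_mem hφ j
  have hφjD := LDG_decpow hφD j
  obtain ⟨s', hs'⟩ : ∃ s', s' = s * (φ ^ j)⁻¹ := ⟨_, rfl⟩
  rw [← hs'] at hj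
  have hs'K : s' ∈ K.fixingSubgroup := by
    rw [hs']
    exact mul_mem hs (inv_mem hφj)
  have hs'D : Dec V s' := by
    rw [hs']
    exact Dec.mul' hsD (Dec.inv' hφjD)
  obtain ⟨t, htI, ht⟩ := inertia_lift N V s' (fun x hx => hst s' x hx) hj
  have htD : Dec V t := Inert.dec htI
  have htK : t ∈ K.fixingSubgroup := by
    rw [IntermediateField.mem_fixingSubgroup_iff]
    intro x hx
    rw [ht x (hKN hx)]
    exact (IntermediateField.mem_fixingSubgroup_iff K s').1 hs'K x hx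
  have hnK : t⁻¹ * s' ∈ K.fixingSubgroup := mul_mem (inv_mem htK) hs'K
  have hnN : t⁻¹ * s' ∈ N0.fixingSubgroup := by
    rw [IntermediateField.mem_fixingSubgroup_iff]
    intro x hx
    have h1 : (t⁻¹ * s') x = t⁻¹ (s' x) := rfl
    rw [h1, ← ht x (hN0N hx)]
    have h2 : (t⁻¹ * t) x = x := by
      rw [inv_mul_cancel]
      rfl
    exact h2
  have hnD : Dec V (t⁻¹ * s') := Dec.mul' (Dec.inv' htD) hs'D
  have h1 : d s' = 0 := by
    have h2 := hd t htK htD (t⁻¹ * s') hnK hnD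
    rw [mul_inv_cancel_left, hI t htK htI, hN0 _ hnK hnN hnD, map_zero, add_zero] at h2
    exact h2
  have hd1 : d 1 = 0 := by
    have h2 := hd 1 (one_mem _) (LDG_decpow hφD 0 |> fun h => by rwa [pow_zero] at h) 1 (one_mem _)
      (LDG_decpow hφD 0 |> fun h => by rwa [pow_zero] at h)
    rw [mul_one, ac_one] at h2
    exact left_eq_add.1 h2
  have h3 : ∀ j : ℕ, d (φ ^ j) = 0 := by
    intro j
    induction j with
    | zero => rw [pow_zero, hd1]
    | succ j ih =>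
      rw [pow_succ, hd _ (pow_mem hφ j) (LDG_decpow hφD j) _ hφ hφD, ih, h0, map_zero, add_zero]
  have h4 : s = s' * φ ^ j := by
    rw [hs', inv_mul_cancel_right]
  rw [h4, hd s' hs'K hs'D _ hφj hφjD, h1, h3 j, map_zero, add_zero]

end H13Z
end

-- from Lib.H13X.XDG
section

/-! # H13X: port of H13Z/LDG -/

open NumberField IsDedekindDomain WeierstrassCurve

namespace H13X

open H55P (IQ embF eF LF Per IsHecke Pt ac Inert Dec Nm Coc)
open H35P (WAB Ker tt)
open H55K (Tor ak xc yc CMA Dta GV GMod cj cj_cj mul_cj cj_prime cj_dvd cj_nat Nm_cj Nm_mul Nm_nat)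
open H55K.S
open H13S (Abv)




variable {F : Type} [Field F] [NumberField F] [IQ F] {A B : F} {Om : ℂ} {Ω : Type} [Field Ω] [DecidableEq Ω]
  [Algebra F Ω] [IsAlgClosure F Ω] {j : Ω →+* ℂ} {act : 𝓞 F →+* AddMonoid.End (Pt (WAB A B) Ω)} {mo : Ideal (𝓞 F)}
  {ψ : Ideal (𝓞 F) →*₀ 𝓞 F}

theorem LDG_pow {L : Type} [Field L] (V : ValuationSubring L) {x y : L} (hx : V.valuation x ≤ 1)
    (hy : V.valuation y ≤ 1) (h : V.valuation (x - y) < 1) (n : ℕ) : V.valuation (x ^ n - y ^ n) < 1 := by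
  induction n with
  | zero =>
    rw [pow_zero, pow_zero, sub_self, map_zero]
    exact zero_lt_one
  | succ n ih =>
    have e : x ^ (n + 1) - y ^ (n + 1) = x ^ n * (x - y) + (x ^ n - y ^ n) * y := by ring
    rw [e]
    refine V.valuation.map_add_lt ?_ ?_
    · rw [map_mul, map_pow]
      exact lt_of_le_of_lt (mul_le_of_le_one_left' (pow_le_one' hx n)) h
    · rw [map_mul]
      exact lt_of_le_of_lt (mul_le_of_le_one_right' hy) ih

theorem LDG_decpow {Ω : Type} [Field Ω] [DecidableEq Ω] [Algebra F Ω] {V : ValuationSubring Ω}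
    {φ : Ω ≃ₐ[F] Ω} (hφ : Dec V φ) (j : ℕ) : Dec V (φ ^ j) := by
  induction j with
  | zero =>
    intro x
    rw [pow_zero]
    rfl
  | succ j ih =>
    rw [pow_succ]
    exact Dec.mul' ih hφ

theorem LDG_phi {Ω : Type} [Field Ω] [DecidableEq Ω] [Algebra F Ω] {V : ValuationSubring Ω}
    {φ : Ω ≃ₐ[F] Ω} (hφ : Dec V φ) {Q : ℕ} (hφF : ∀ x ∈ V, V.valuation (φ x - x ^ Q) < 1) (j : ℕ)
    {y : Ω} (hy : y ∈ V) : V.valuation ((φ ^ j) y - y ^ (Q ^ j)) < 1 := by
  induction j with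
  | zero =>
    rw [pow_zero, pow_zero, pow_one]
    have : (1 : Ω ≃ₐ[F] Ω) y - y = 0 := sub_self y
    rw [this, map_zero]
    exact zero_lt_one
  | succ j ih =>
    have h1 : (φ ^ j) y ∈ V := (LDG_decpow hφ j y).2 hy
    have h2 := hφF _ h1
    have h3 := LDG_pow V ((V.valuation_le_one_iff _).2 h1)
      ((V.valuation_le_one_iff _).2 (V.pow_mem hy (Q ^ j))) ih Q
    have h4 : (φ ^ (j + 1)) y = φ ((φ ^ j) y) := by
      rw [pow_succ']
      rfl
    have e : (φ ^ (j + 1)) y - y ^ (Q ^ (j + 1)) = (φ ((φ ^ j) y) - ((φ ^ j) y) ^ Q) +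
        (((φ ^ j) y) ^ Q - (y ^ (Q ^ j)) ^ Q) := by
      rw [h4, pow_succ Q j, pow_mul]
      ring
    rw [e]
    exact V.valuation.map_add_lt h2 h3

theorem LDG_frobN {K : IntermediateField F Ω} [NumberField K] {V : ValuationSubring Ω}
    {w : HeightOneSpectrum (𝓞 K)} (hw : Abv K V w) (N : IntermediateField F Ω) [NumberField N]
    (W : HeightOneSpectrum (𝓞 N)) (hW : Abv N V W) (hKN : K ≤ N)
    (hN : ∀ s : Ω ≃ₐ[F] Ω, ∀ x ∈ N, s x ∈ N) {s : Ω ≃ₐ[F] Ω} (hs : s ∈ K.fixingSubgroup) (hsD : Dec V s) :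
    ∃ j : ℕ, ∀ a : 𝓞 N, V.valuation (s ((a : N) : Ω) - ((a : N) : Ω) ^ (Ideal.absNorm w.asIdeal ^ j)) < 1 := by
  let sN : N →+* N := (((s : Ω →ₐ[F] Ω).comp N.val).codRestrict N.toSubalgebra (fun x => hN s x x.2)).toRingHom
  let sO : 𝓞 N →+* 𝓞 N := RingOfIntegers.mapRingHom sN
  have hsO : ∀ a : 𝓞 N, (((sO a : 𝓞 N) : N) : Ω) = s ((a : N) : Ω) := fun a => rfl
  let iN : K →+* N := (IntermediateField.inclusion hKN).toRingHom
  let iO : 𝓞 K →+* 𝓞 N := RingOfIntegers.mapRingHom iN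
  have hiO : ∀ a : 𝓞 K, (((iO a : 𝓞 N) : N) : Ω) = ((a : K) : Ω) := fun a => rfl
  have memW : ∀ a : 𝓞 N, a ∈ W.asIdeal ↔ V.valuation ((a : N) : Ω) < 1 := by
    intro a
    rw [hW.lt]
    exact (W.valuation_lt_one_iff_mem a).symm
  have memw : ∀ a : 𝓞 K, a ∈ w.asIdeal ↔ V.valuation ((a : K) : Ω) < 1 := by
    intro a
    rw [hw.lt]
    exact (w.valuation_lt_one_iff_mem a).symm
  have hle1 : W.asIdeal ≤ W.asIdeal.comap sO := by
    intro a ha
    rw [Ideal.mem_comap, memW, hsO, Dec.lt_one hsD]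
    exact (memW a).1 ha
  have hle2 : w.asIdeal ≤ W.asIdeal.comap iO := by
    intro a ha
    rw [Ideal.mem_comap, memW, hiO]
    exact (memw a).1 ha
  have hwm := w.isMaximal
  have hWm := W.isMaximal
  let _ : Field (𝓞 K ⧸ w.asIdeal) := Ideal.Quotient.field w.asIdeal
  let _ : Field (𝓞 N ⧸ W.asIdeal) := Ideal.Quotient.field W.asIdeal
  have hfin1 : Finite (𝓞 K ⧸ w.asIdeal) := Ideal.finiteQuotientOfFreeOfNeBot _ w.ne_bot
  have hfin2 : Finite (𝓞 N ⧸ W.asIdeal) := Ideal.finiteQuotientOfFreeOfNeBot _ W.ne_bot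
  obtain ⟨j, hj⟩ := H13Z.LDG_ff (Ideal.quotientMap W.asIdeal iO hle2) (Ideal.quotientMap W.asIdeal sO hle1) (by
    intro a
    obtain ⟨a, rfl⟩ := Ideal.Quotient.mk_surjective a
    rw [Ideal.quotientMap_mk, Ideal.quotientMap_mk]
    congr 1
    apply RingOfIntegers.coe_injective
    apply Subtype.ext
    rw [hsO, hiO]
    exact (IntermediateField.mem_fixingSubgroup_iff K s).1 hs _ (a : K).2)
  refine ⟨j, fun a => ?_⟩
  have h1 := hj (Ideal.Quotient.mk W.asIdeal a)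
  rw [Ideal.quotientMap_mk, ← map_pow, Ideal.Quotient.mk_eq_mk_iff_sub_mem, memW] at h1
  have h3 : Ideal.absNorm w.asIdeal = Nat.card (𝓞 K ⧸ w.asIdeal) := rfl
  rw [h3]
  exact h1

theorem LDG_ext (N : IntermediateField F Ω) [NumberField N] {V : ValuationSubring Ω}
    (W : HeightOneSpectrum (𝓞 N)) (hW : Abv N V W) {s : Ω ≃ₐ[F] Ω} (hsD : Dec V s) (q : ℕ)
    (h : ∀ a : 𝓞 N, V.valuation (s ((a : N) : Ω) - ((a : N) : Ω) ^ q) < 1) (x : Ω) (hx : x ∈ N) (hxV : x ∈ V) :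
    V.valuation (s x - x ^ q) < 1 := by
  obtain ⟨n, d, hnd⟩ := HeightOneSpectrum.exists_primeCompl_mul_eq_of_integer W (⟨x, hx⟩ : N)
    ((hW ⟨x, hx⟩).1 hxV)
  have hxd : x * (((d : 𝓞 N) : N) : Ω) = ((n : N) : Ω) := congrArg Subtype.val hnd
  have hd1 : ¬ V.valuation (((d : 𝓞 N) : N) : Ω) < 1 := by
    intro h1
    rw [hW.lt] at h1
    exact d.2 ((W.valuation_lt_one_iff_mem (d : 𝓞 N)).1 h1)
  have hsd : V.valuation (s (((d : 𝓞 N) : N) : Ω)) = 1 := by
    refine le_antisymm ?_ ?_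
    · rw [Dec.le_one hsD]
      exact H13S.vw_int N V d
    · rw [← not_lt, Dec.lt_one hsD]
      exact hd1
  have h1 := h (d : 𝓞 N)
  have h2 := h n
  have hxv : V.valuation (x ^ q) ≤ 1 := (V.valuation_le_one_iff _).2 (V.pow_mem hxV q)
  have e : (s x - x ^ q) * s (((d : 𝓞 N) : N) : Ω) = (s ((n : N) : Ω) - ((n : N) : Ω) ^ q) -
      x ^ q * (s (((d : 𝓞 N) : N) : Ω) - (((d : 𝓞 N) : N) : Ω) ^ q) := by
    rw [← hxd, map_mul, mul_pow]
    ring
  have h3 : V.valuation ((s x - x ^ q) * s (((d : 𝓞 N) : N) : Ω)) < 1 := by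
    rw [e]
    refine lt_of_le_of_lt (V.valuation.map_sub _ _) (max_lt h2 ?_)
    rw [map_mul]
    exact lt_of_le_of_lt (mul_le_of_le_one_left' hxv) h1
  rw [map_mul, hsd, mul_one] at h3
  exact h3

theorem LDG_top {K : IntermediateField F Ω} [NumberField K] {V : ValuationSubring Ω}
    {w : HeightOneSpectrum (𝓞 K)} (hw : Abv K V w) : ∃ x : K, (x : Ω) ∉ V := by
  obtain ⟨a, ha, ha0⟩ := Submodule.exists_mem_ne_zero_of_ne_bot w.ne_bot
  have h1 : V.valuation ((a : K) : Ω) < 1 := by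
    rw [hw.lt]
    exact (w.valuation_lt_one_iff_mem a).2 ha
  have ha1 : ((a : K) : Ω) ≠ 0 := by
    intro h
    apply ha0
    apply RingOfIntegers.coe_injective
    exact Subtype.ext h
  refine ⟨(a : K)⁻¹, fun h => ?_⟩
  have e : (((a : K)⁻¹ : K) : Ω) = ((a : K) : Ω)⁻¹ := rfl
  rw [e, ← V.valuation_le_one_iff, map_inv₀, inv_le_one₀ (zero_lt_iff.2 ((map_ne_zero _).2 ha1))] at h
  exact absurd h1 (not_lt.2 h)

/-- Chunk LDG1 (M). The decomposition group is generated by a Frobenius element and elements which are inertial on a given finite subfield N. N may be enlarged to a normal extension of F containing K (normalClosure). s in Dec V, s in K.fixingSubgroup. W = the prime of 𝓞 N below V (exists_below; V is not ⊤), the residue field 𝓞 N/W is finite,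
with the subfield 𝓞 K/w with Q = absNorm w elements. s and φ map 𝓞 N to itself and preserve W (Dec), s induces an automorphism of 𝓞 N/W over 𝓞 K/w, so x → x^(Q^j) for some j (FiniteField: the Galois group is generated by Frobenius; e.g. bijective_frobeniusAlgEquivOfAlgebraic_pow, or IsCyclic..), as φ^j.
So s φ^(-j) x - x has value < 1 for x in 𝓞 N, hence for x in N, x in V (x = a/b with a, b in 𝓞 N, b not in W). -/
theorem dec_frob {K : IntermediateField F Ω} [NumberField K] {V : ValuationSubring Ω}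
    {w : HeightOneSpectrum (𝓞 K)} (hw : Abv K V w) {φ : Ω ≃ₐ[F] Ω} (hφ : φ ∈ K.fixingSubgroup)
    (hφD : Dec V φ) (hφF : ∀ x ∈ V, V.valuation (φ x - x ^ Ideal.absNorm w.asIdeal) < 1)
    (N : IntermediateField F Ω) [FiniteDimensional F N] (hKN : K ≤ N)
    (hN : ∀ s : Ω ≃ₐ[F] Ω, ∀ x ∈ N, s x ∈ N) {s : Ω ≃ₐ[F] Ω} (hs : s ∈ K.fixingSubgroup) (hsD : Dec V s) :
    ∃ j : ℕ, ∀ x ∈ N, x ∈ V → V.valuation ((s * (φ ^ j)⁻¹) x - x) < 1 := by
  have hNnf : NumberField N := NumberField.of_module_finite F N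
  have hVN : ∃ x : N, (x : Ω) ∉ V := by
    obtain ⟨x, hx⟩ := LDG_top hw
    exact ⟨⟨x, hKN x.2⟩, hx⟩
  obtain ⟨W, hW⟩ := H13S.exists_below N V hVN
  obtain ⟨j, hj⟩ := LDG_frobN hw N W hW hKN hN hs hsD
  refine ⟨j, fun x hx hxV => ?_⟩
  have hy : (φ ^ j)⁻¹ x ∈ N := hN _ x hx
  have hyV : (φ ^ j)⁻¹ x ∈ V := (Dec.inv' (LDG_decpow hφD j) x).2 hxV
  have h1 := LDG_ext N W hW hsD _ hj _ hy hyV
  have h2 := LDG_phi hφD hφF j hyV
  have h3 : (φ ^ j) ((φ ^ j)⁻¹ x) = x := by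
    have h4 : ((φ ^ j) * (φ ^ j)⁻¹) x = x := by
      rw [mul_inv_cancel]
      rfl
    exact h4
  rw [h3] at h2
  have e : (s * (φ ^ j)⁻¹) x - x = (s ((φ ^ j)⁻¹ x) - ((φ ^ j)⁻¹ x) ^ (Ideal.absNorm w.asIdeal ^ j)) -
      (x - ((φ ^ j)⁻¹ x) ^ (Ideal.absNorm w.asIdeal ^ j)) := by
    have : (s * (φ ^ j)⁻¹) x = s ((φ ^ j)⁻¹ x) := rfl
    rw [this]
    ring
  rw [e]
  exact lt_of_le_of_lt (V.valuation.map_sub _ _) (max_lt h1 h2)

/-- Chunk LDG2 (S/M). A₀ cocycle on the decomposition group over K vanishing on inertia and at Frobenius is zero. Enlarge N (from hc) to a finite normal extension of F containing K. dec_frob: s' = s φ^(-j) is inertial on N, inertia_lift: s'' with Inert V s'', s'' = s' on N; s'' is in K.fixingSubgroup (K ≤ N), n = s''⁻¹ s' is in N.fixingSubgroup and Dec V n.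
d s' = d (s'' n) = d s'' + ac s'' (d n) = 0; d (φ^j) = 0 (induction); d s = d (s' φ^j) = 0. -/
theorem dec_gen {K : IntermediateField F Ω} [NumberField K] {V : ValuationSubring Ω}
    {w : HeightOneSpectrum (𝓞 K)} (hw : Abv K V w) {d : (Ω ≃ₐ[F] Ω) → Pt (WAB A B) Ω}
    (hd : ∀ s ∈ K.fixingSubgroup, Dec V s → ∀ t ∈ K.fixingSubgroup, Dec V t →
      d (s * t) = d s + ac (WAB A B) s (d t))
    (hc : ∃ N : IntermediateField F Ω, FiniteDimensional F N ∧
      ∀ s ∈ K.fixingSubgroup, s ∈ N.fixingSubgroup → Dec V s → d s = 0)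
    (hI : ∀ s ∈ K.fixingSubgroup, Inert V s → d s = 0) {φ : Ω ≃ₐ[F] Ω} (hφ : φ ∈ K.fixingSubgroup)
    (hφD : Dec V φ) (hφF : ∀ x ∈ V, V.valuation (φ x - x ^ Ideal.absNorm w.asIdeal) < 1) (h0 : d φ = 0)
    {s : Ω ≃ₐ[F] Ω} (hs : s ∈ K.fixingSubgroup) (hsD : Dec V s) : d s = 0 := by
  obtain ⟨N0, hN0f, hN0⟩ := hc
  have hcl0 : IsAlgClosed Ω := IsAlgClosure.isAlgClosed F
  have hal0 : Algebra.IsAlgebraic F Ω := IsAlgClosure.isAlgebraic
  have hnorm : Normal F Ω := IsAlgClosure.normal F Ω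
  have hKfin : FiniteDimensional F K := FiniteDimensional.right ℚ F K
  let M : IntermediateField F Ω := K ⊔ N0
  have hMfin : FiniteDimensional F M := IntermediateField.finiteDimensional_sup K N0
  let N : IntermediateField F Ω := IntermediateField.normalClosure F M Ω
  have hNfin : FiniteDimensional F N := normalClosure.is_finiteDimensional F M Ω
  have hNnorm : Normal F N := normalClosure.normal F M Ω
  have hMN : M ≤ N := IntermediateField.le_normalClosure M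
  have hKN : K ≤ N := le_trans le_sup_left hMN
  have hN0N : N0 ≤ N := le_trans le_sup_right hMN
  have hst : ∀ s : Ω ≃ₐ[F] Ω, ∀ x ∈ N, s x ∈ N := by
    intro s x hx
    exact (IntermediateField.normal_iff_forall_map_le'.1 hNnorm) s ⟨x, hx, rfl⟩
  obtain ⟨j, hj⟩ := dec_frob hw hφ hφD hφF N hKN hst hs hsD
  have hφj : φ ^ j ∈ K.fixingSubgroup := pow_mem hφ j
  have hφjD := LDG_decpow hφD j
  obtain ⟨s', hs'⟩ : ∃ s', s' = s * (φ ^ j)⁻¹ := ⟨_, rfl⟩
  rw [← hs'] at hj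
  have hs'K : s' ∈ K.fixingSubgroup := by
    rw [hs']
    exact mul_mem hs (inv_mem hφj)
  have hs'D : Dec V s' := by
    rw [hs']
    exact Dec.mul' hsD (Dec.inv' hφjD)
  obtain ⟨t, htI, ht⟩ := H13S.inertia_lift N V s' (fun x hx => hst s' x hx) hj
  have htD : Dec V t := Inert.dec htI
  have htK : t ∈ K.fixingSubgroup := by
    rw [IntermediateField.mem_fixingSubgroup_iff]
    intro x hx
    rw [ht x (hKN hx)]
    exact (IntermediateField.mem_fixingSubgroup_iff K s').1 hs'K x hx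
  have hnK : t⁻¹ * s' ∈ K.fixingSubgroup := mul_mem (inv_mem htK) hs'K
  have hnN : t⁻¹ * s' ∈ N0.fixingSubgroup := by
    rw [IntermediateField.mem_fixingSubgroup_iff]
    intro x hx
    have h1 : (t⁻¹ * s') x = t⁻¹ (s' x) := rfl
    rw [h1, ← ht x (hN0N hx)]
    have h2 : (t⁻¹ * t) x = x := by
      rw [inv_mul_cancel]
      rfl
    exact h2
  have hnD : Dec V (t⁻¹ * s') := Dec.mul' (Dec.inv' htD) hs'D
  have h1 : d s' = 0 := by
    have h2 := hd t htK htD (t⁻¹ * s') hnK hnD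
    rw [mul_inv_cancel_left, hI t htK htI, hN0 _ hnK hnN hnD, map_zero, add_zero] at h2
    exact h2
  have hd1 : d 1 = 0 := by
    have h2 := hd 1 (one_mem _) (LDG_decpow hφD 0 |> fun h => by rwa [pow_zero] at h) 1 (one_mem _)
      (LDG_decpow hφD 0 |> fun h => by rwa [pow_zero] at h)
    rw [mul_one, ac_one] at h2
    exact left_eq_add.1 h2
  have h3 : ∀ j : ℕ, d (φ ^ j) = 0 := by
    intro j
    induction j with
    | zero => rw [pow_zero, hd1]
    | succ j ih =>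
      rw [pow_succ, hd _ (pow_mem hφ j) (LDG_decpow hφD j) _ hφ hφD, ih, h0, map_zero, add_zero]
  have h4 : s = s' * φ ^ j := by
    rw [hs', inv_mul_cancel_right]
  rw [h4, hd s' hs'K hs'D _ hφj hφjD, h1, h3 j, map_zero, add_zero]

end H13X
end
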