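import Mathlib
import Pool.Agent.Lib.H1M.PP.D_H55K_D2
import Pool.Agent.Lib.H1M.PP.D_H55P_Stm
import Pool.Agent.Lib.H1M.PP.D_H55P_Z10
import Pool.Agent.Lib.H1M.PP.M001
import Pool.Agent.Lib.H1M.PP.M003
import Pool.Agent.Lib.H1M.PP.M021
import Pool.Agent.Lib.H1M.PP.M042
import Pool.Agent.Lib.H1M.PP.M047
import Pool.Agent.Lib.H1M.PP.M050
import Pool.Agent.Lib.H1M.PP.M056
import Pool.Agent.Lib.H1M.PP.M057
import Pool.Agent.Lib.H1M.PP.M059
import Pool.Agent.Lib.H1M.PP.M061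
import Pool.Agent.Lib.H1M.PP.M062

/-! Merged copies (to shorten the build) of Lib.H13X.XK, Lib.H55K.RI1, Lib.H55K.QF1A, Lib.H55K.QF1C, Lib.H55K.QH3, Lib.H55K.QS1, Lib.H55D.Q6, Lib.H55D.QA, Lib.H55P.Z7, Lib.H55K.MM, Lib.H55K.QP2B, Lib.H55K.RA2. -/

-- from Lib.H13X.XK
section

/-! # H13X: port of H13Y/YK -/

open NumberField IsDedekindDomain WeierstrassCurve

namespace H13X

open H55P (IQ embF eF LF Per IsHecke Pt ac Inert Dec Nm Coc)
open H35P (WAB Ker tt)
open H55K (Tor ak xc yc CMA Dta GV GMod cj cj_cj mul_cj cj_prime cj_dvd cj_nat Nm_cj Nm_mul Nm_nat)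
open H55K.S
open H13S (Abv)





variable {F : Type} [Field F] [NumberField F] [IQ F] {A B : F} {Om : ℂ} {Ω : Type} [Field Ω] [DecidableEq Ω]
  [Algebra F Ω] {j : Ω →+* ℂ} {act : 𝓞 F →+* AddMonoid.End (Pt (WAB A B) Ω)} {mo : Ideal (𝓞 F)}
  {ψ : Ideal (𝓞 F) →*₀ 𝓞 F}

variable {π : 𝓞 F} {l : ℕ} {N : IntermediateField F Ω} {V : ValuationSubring Ω} {e : Pt (WAB A B) Ω → Pt (WAB A B) Ω → Ω} {c : (Ω ≃ₐ[F] Ω) → Pt (WAB A B) Ω}
  {y : Pt (WAB A B) Ω → Ω}

theorem lk_ne (D : Dat A B Om j act mo ψ π l) (he : Pairing A B act π l e) {X T : Pt (WAB A B) Ω} (hX : X ∈ Tor act (cj π))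
    (hT : T ∈ Tor act π) : e X T ≠ 0 := by
  intro h
  have h1 := he.root X hX T hT
  rw [h, zero_pow (by have := D.five; omega)] at h1
  exact zero_ne_one h1

theorem lk_sub (D : Dat A B Om j act mo ψ π l) (he : Pairing A B act π l e) {X Y T : Pt (WAB A B) Ω} (hX : X ∈ Tor act (cj π))
    (hY : Y ∈ Tor act (cj π)) (hT : T ∈ Tor act π) : e (X - Y) T = e X T / e Y T := by
  have h1 := he.add_left (X - Y) (sub_mem hX hY) Y hY T hT
  rw [sub_add_cancel] at h1
  rw [h1, mul_div_assoc, div_self (lk_ne D he hY hT), mul_one]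

theorem lk_act (D : Dat A B Om j act mo ψ π l) (he : Pairing A B act π l e) (hc : Dc act π N V c) (hy : KS act π N V e c y)
    {σ : Ω ≃ₐ[F] Ω} (hσ : DecN N V σ) {T : Pt (WAB A B) Ω} (hT : T ∈ Tor act π) {s : Ω ≃ₐ[F] Ω} (hs : DT act π N V s) :
    s (σ (y T) / e (c σ) (ac (WAB A B) σ T)) = e (c s) (ac (WAB A B) σ T) * (σ (y T) / e (c σ) (ac (WAB A B) σ T)) := by
  have hT' := ac_mem D.cma σ hT
  have hg := lk_ne D he (hc.val σ hσ) hT'
  have hs' := DT.conj D.cma hσ hs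
  have e1 : σ * (σ⁻¹ * s * σ) = s * σ := by group
  have e2 : ac (WAB A B) σ (c (σ⁻¹ * s * σ)) = c s + ac (WAB A B) s (c σ) - c σ := by
    have h1 := hc.mul σ hσ (σ⁻¹ * s * σ) hs'.1
    rw [e1, hc.mul s hs.1 σ hσ] at h1
    rw [h1, add_sub_cancel_left]
  have e3 : s (σ (y T)) = e (c s + ac (WAB A B) s (c σ) - c σ) (ac (WAB A B) σ T) * σ (y T) := by
    have h1 : s (σ (y T)) = σ ((σ⁻¹ * s * σ) (y T)) := by
      show (s * σ) (y T) = (σ * (σ⁻¹ * s * σ)) (y T)
      rw [e1]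
    rw [h1, hy.gal T hT _ hs', map_mul, he.gal σ _ (hc.val _ hs'.1) _ hT, e2]
  have hXs := ac_mem D.cma s (hc.val σ hσ)
  have e4 : s (e (c σ) (ac (WAB A B) σ T)) = e (ac (WAB A B) s (c σ)) (ac (WAB A B) σ T) := by
    rw [he.gal s _ (hc.val σ hσ) _ hT', hs.2 _ hT']
  have hg2 := lk_ne D he hXs hT'
  rw [map_div₀, e3, e4, lk_sub D he (add_mem (hc.val s hs.1) hXs) (hc.val σ hσ) hT',
    he.add_left _ (hc.val s hs.1) _ hXs _ hT']
  field_simp

theorem sys_of (D : Dat A B Om j act mo ψ π l) (he : Pairing A B act π l e) (hc : Dc act π N V c) (hy : KS act π N V e c y) :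
    Sys act π l N V fun T => y T ^ l := by
  refine ⟨fun T hT => pow_ne_zero l (hy.ne T hT), fun T hT s hs => ?_, fun T hT T' hT' => ?_,
    fun σ hσ T hT => ?_⟩
  · rw [map_pow, hy.gal T hT s hs, mul_pow, he.root _ (hc.val s hs.1) _ hT, one_mul]
  · have h1 := hy.ne T hT
    have h2 := hy.ne T' hT'
    have h3 := hy.ne (T + T') (add_mem hT hT')
    refine ⟨y (T + T') / (y T * y T'), fun s hs => ?_, div_ne_zero h3 (mul_ne_zero h1 h2), ?_⟩
    · have h4 := lk_ne D he (hc.val s hs.1) hT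
      have h5 := lk_ne D he (hc.val s hs.1) hT'
      rw [map_div₀, map_mul, hy.gal _ (add_mem hT hT') s hs, hy.gal T hT s hs, hy.gal T' hT' s hs,
        he.add_right _ (hc.val s hs.1) _ hT _ hT']
      field_simp
    · rw [div_pow, mul_pow]
      field_simp
  · have hT' := ac_mem D.cma σ hT
    have hg := lk_ne D he (hc.val σ hσ) hT'
    have h1 : σ (y T) ≠ 0 := by
      rw [Ne, map_eq_zero_iff σ σ.injective]
      exact hy.ne T hT
    have h2 := hy.ne _ hT'
    have h3 : σ (y T) / e (c σ) (ac (WAB A B) σ T) ≠ 0 := div_ne_zero h1 hg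
    refine ⟨y (ac (WAB A B) σ T) / (σ (y T) / e (c σ) (ac (WAB A B) σ T)), fun s hs => ?_, div_ne_zero h2 h3, ?_⟩
    · have h4 := lk_ne D he (hc.val s hs.1) hT'
      rw [map_div₀, lk_act D he hc hy hσ hT hs, hy.gal _ hT' s hs, mul_div_mul_left _ _ h4]
    · show y (ac (WAB A B) σ T) ^ l = σ (y T ^ l) * _
      rw [div_pow, div_pow, he.root _ (hc.val σ hσ) _ hT', div_one, map_pow]
      field_simp

theorem ks_sub (D : Dat A B Om j act mo ψ π l) (he : Pairing A B act π l e) (hc : Dc act π N V c) (hy : KS act π N V e c y)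
    {c₁ : (Ω ≃ₐ[F] Ω) → Pt (WAB A B) Ω} {y₁ : Pt (WAB A B) Ω → Ω} (hc₁ : Dc act π N V c₁) (hy₁ : KS act π N V e c₁ y₁) :
    KS act π N V e (fun s => c s - c₁ s) (fun T => y T / y₁ T) := by
  refine ⟨fun T hT => div_ne_zero (hy.ne T hT) (hy₁.ne T hT), fun T hT s hs => ?_⟩
  have h2 := lk_ne D he (hc₁.val s hs.1) hT
  have h3 := hy₁.ne T hT
  show s (y T / y₁ T) = e (c s - c₁ s) T * (y T / y₁ T)
  rw [map_div₀, hy.gal T hT s hs, hy₁.gal T hT s hs, lk_sub D he (hc.val s hs.1) (hc₁.val s hs.1) hT]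
  field_simp

theorem c_zero (D : Dat A B Om j act mo ψ π l) (he : Pairing A B act π l e) (hc : Dc act π N V c) (hy : KS act π N V e c y) {s : Ω ≃ₐ[F] Ω}
    (hs : DT act π N V s) (h : ∀ T ∈ Tor act π, s (y T) = y T) : c s = 0 := by
  apply he.nondeg _ (hc.val s hs.1)
  intro T hT
  have h1 := hy.gal T hT s hs
  rw [h T hT] at h1
  have h2 := hy.ne T hT
  field_simp at h1
  exact h1.symm

end H13X
end

-- from Lib.H55K.RI1
section

/-! # H55K: the L-function over a field which does not contain F -/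

open NumberField IsDedekindDomain WeierstrassCurve

namespace H55K.TQ

open H55P (IQ embF eF LF Per IsHecke Pt ac Inert Dec Nm UnitP)
open H35P (WAB Ker tt GoodW IntW)
open H55K.MG (VC Crd)
open H55K.DD (LF' ef)

variable {F K₀ K : Type} [Field F] [NumberField F] [IQ F] [Field K₀] [NumberField K₀] [Field K] [NumberField K]
  [Algebra F K] [Algebra K₀ K]

/-- the Euler product, up to m -/
theorem ri1_ev {K : Type} [Field K] [NumberField K] (W : WeierstrassCurve K) (m : ℕ) :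
    ∀ᶠ T : Finset (HeightOneSpectrum (𝓞 K)) in Filter.atTop,
      (∏ w ∈ T, LF' W w) m = ((W.LFunction m : ℤ) : ℂ) := by
  have hN : Northcott (fun w : HeightOneSpectrum (𝓞 K) =>
      Nat.card (IsLocalRing.ResidueField (w.adicCompletionIntegers K))) := by
    have h1 : (fun w : HeightOneSpectrum (𝓞 K) =>
      Nat.card (IsLocalRing.ResidueField (w.adicCompletionIntegers K))) =
        fun w => Ideal.absNorm w.asIdeal := funext fun w => (H55B.residue_card K w).2
    rw [h1]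
    infer_instance
  have h := ArithmeticFunction.tendsTo_eulerProduct_ofPowerSeries
    (fun w : HeightOneSpectrum (𝓞 K) =>
      Nat.card (IsLocalRing.ResidueField (w.adicCompletionIntegers K)))
    (fun w => (W.baseChange (w.adicCompletion K)).localPowerSeries
      (w.adicCompletionIntegers K))
    (fun w => by simp [WeierstrassCurve.localPowerSeries]) m
  have h' : ∀ᶠ T : Finset (HeightOneSpectrum (𝓞 K)) in Filter.atTop,
      (∏ w ∈ T, (W.baseChange (w.adicCompletion K)).localEulerFactor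
        (w.adicCompletionIntegers K)) m = W.LFunction m := h
  refine h'.mono fun T hT => ?_
  rw [← hT, ← ArithmeticFunction.intCoe_apply, H55B.I2_cast_prod]
  rfl

/-- Chunk RI1 (M). Port of H55P.pz7_sq (Z7.lean) with LF' for LEF (H55D.DQ6_ev: the coefficient of the L-function is eventually the one of finite products of local factors: copy for W⁄K; q6_fin, q6_under from H13E.Q6). -/
theorem lfun_sq {W : WeierstrassCurve ℤ}
    (h : ∀ (v : HeightOneSpectrum (𝓞 K₀)) (T : Finset (HeightOneSpectrum (𝓞 K))),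
      (∀ w, w ∈ T ↔ v.asIdeal = w.asIdeal.under (𝓞 K₀)) → ∏ w ∈ T, LF' (W⁄K) w = LF' (W⁄K₀) v * LF' (W⁄K₀) v)
    (n : ℕ) : (((W⁄K).LFunction n : ℤ) : ℂ) =
      ((((W⁄K₀).LFunction : ArithmeticFunction ℤ) : ArithmeticFunction ℂ) *
        (((W⁄K₀).LFunction : ArithmeticFunction ℤ) : ArithmeticFunction ℂ)) n := by
  classical
  obtain ⟨s0, hs0⟩ := Filter.eventually_atTop.1 (ri1_ev (W⁄K) n)
  have hR : ∀ᶠ t : Finset (HeightOneSpectrum (𝓞 K₀)) in Filter.atTop,
      ∀ m ∈ Finset.range (n + 1),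
      (∏ w ∈ t, LF' (W⁄K₀) w) m = (((W⁄K₀).LFunction m : ℤ) : ℂ) := by
    rw [Filter.eventually_all_finset]
    intro m _
    exact ri1_ev (W⁄K₀) m
  obtain ⟨t0, ht0⟩ := Filter.eventually_atTop.1 hR
  set ov : HeightOneSpectrum (𝓞 K₀) → Finset (HeightOneSpectrum (𝓞 K)) :=
    fun v => (H13E.q6_fin K v).toFinset with hov
  have hmo : ∀ v w, w ∈ ov v ↔ v.asIdeal = w.asIdeal.under (𝓞 K₀) := by
    intro v w
    simp [hov]
  set t : Finset (HeightOneSpectrum (𝓞 K₀)) := t0 ∪ s0.image (H13E.q6_under K₀) with ht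
  set T : Finset (HeightOneSpectrum (𝓞 K)) := t.biUnion ov with hTdef
  have hsub : s0 ⊆ T := by
    intro w hw
    rw [hTdef, Finset.mem_biUnion]
    refine ⟨H13E.q6_under K₀ w, Finset.mem_union_right _ (Finset.mem_image_of_mem _ hw), ?_⟩
    rw [hmo]
    rfl
  rw [← hs0 T hsub, hTdef, Finset.prod_biUnion]
  · have h2 : ∀ v ∈ t, ∏ w ∈ ov v, LF' (W⁄K) w = LF' (W⁄K₀) v * LF' (W⁄K₀) v := by
      intro v _
      exact h v (ov v) (hmo v)
    rw [Finset.prod_congr rfl h2, Finset.prod_mul_distrib]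
    have hts : t0 ⊆ t := Finset.subset_union_left
    refine H55B.I2_mul_congr ?_ ?_ n le_rfl
    · intro m hm
      rw [ht0 t hts m (Finset.mem_range.2 (by omega)), ArithmeticFunction.intCoe_apply]
    · intro m hm
      rw [ht0 t hts m (Finset.mem_range.2 (by omega)), ArithmeticFunction.intCoe_apply]
  · intro v _ v' _ hne
    rw [Function.onFun, Finset.disjoint_left]
    intro w hw hw'
    rw [hmo] at hw hw'
    apply hne
    apply HeightOneSpectrum.ext
    rw [hw, hw']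

end H55K.TQ
end

-- from Lib.H55K.QF1A
section

set_option autoImplicit false

/-! # H55K: the index of the kernel of reduction at a bad place -/

open NumberField IsDedekindDomain WeierstrassCurve

namespace H55K.TQ

open H55P (IQ embF eF LF Per IsHecke Pt ac Inert Dec Nm UnitP)
open H35P (WAB Ker tt GoodW IntW)
open H55K.MG (VC Crd)

variable {k : Type} [Field k] {W : WeierstrassCurve k}

/-- good reduction descends -/
theorem qf1a_good {Ω : Type} [Field Ω] [Algebra k Ω] {V₀ : ValuationSubring k}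
    {V : ValuationSubring Ω} (hV : ∀ x : k, algebraMap k Ω x ∈ V ↔ x ∈ V₀)
    {W'' : WeierstrassCurve k} (h : GoodW (W''⁄Ω) V) : GoodW W'' V₀ := by
  have hd : V₀.valuation W''.Δ = 1 := by
    have h1 : V.valuation (algebraMap k Ω W''.Δ) = 1 := by
      have h5 := h.disc
      have h6 : (W''⁄Ω).Δ = algebraMap k Ω W''.Δ := WeierstrassCurve.map_Δ W'' (algebraMap k Ω)
      rwa [h6] at h5
    have h2 : V.valuation (algebraMap k Ω (1 : k)) = 1 := by rw [map_one, map_one]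
    have h3 := (ext_val hV W''.Δ 1).1
    have h4 := (ext_val hV 1 W''.Δ).1
    rw [h1, h2, map_one] at h3
    rw [h1, h2, map_one] at h4
    exact le_antisymm (h3.1 le_rfl) (h4.1 le_rfl)
  have e1 : W''.a₁ ∈ V₀ := (hV _).1 h.a1
  have e2 : W''.a₂ ∈ V₀ := (hV _).1 h.a2
  have e3 : W''.a₃ ∈ V₀ := (hV _).1 h.a3
  have e4 : W''.a₄ ∈ V₀ := (hV _).1 h.a4
  have e6 : W''.a₆ ∈ V₀ := (hV _).1 h.a6
  exact { a1 := e1, a2 := e2, a3 := e3, a4 := e4, a6 := e6, disc := hd }

theorem index_coprime [DecidableEq k] {V₀ : ValuationSubring k} (hI : IntW W V₀) (hΔ : W.Δ ≠ 0) {jj : k} (hj : jj ∈ V₀)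
    (hjj : W.c₄ ^ 3 = jj * W.Δ) (hf : FinR V₀) (hA : Arch V₀) {q : ℕ} (hq : q.Prime) (hqv : V₀.valuation (q : k) < 1)
    (hbad : ¬ PG W V₀) {p : ℕ} (hp : p.Prime) (h5 : 5 ≤ p) (hpq : p ≠ q) :
    ∃ K1 : AddSubgroup W.toAffine.Point, (∀ P, P ∈ K1 ↔ Ker V₀ P) ∧ K1.FiniteIndex ∧ ¬ p ∣ K1.index := by
  classical
  let Ω := AlgebraicClosure k
  obtain ⟨V, hV⟩ := exists_ext (Ω := Ω) V₀
  have hAV : Arch V := arch_ext hV hA
  have hinj : Function.Injective (algebraMap k Ω) := (algebraMap k Ω).injective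
  have hbΔ : (W⁄Ω).Δ = algebraMap k Ω W.Δ := WeierstrassCurve.map_Δ W (algebraMap k Ω)
  have hbc : (W⁄Ω).c₄ = algebraMap k Ω W.c₄ := WeierstrassCurve.map_c₄ W (algebraMap k Ω)
  have hΔ' : (W⁄Ω).Δ ≠ 0 := by
    rw [hbΔ]
    exact fun h0 => hΔ (hinj (by rw [h0, map_zero]))
  have hc4 : (W⁄Ω).c₄ ^ 3 = algebraMap k Ω jj * (W⁄Ω).Δ := by
    rw [hbΔ, hbc, ← map_pow, hjj, map_mul]
  obtain ⟨W', u, r, s, t, hv, hG⟩ := gmodel hΔ' ((hV jj).2 hj) hc4
  have hW' : W'.Δ ≠ 0 := by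
    intro h0
    have := hG.disc
    rw [h0, map_zero] at this
    exact zero_ne_one this
  obtain ⟨Θ, hc⟩ := MG.vc_iso hv hΔ' hW'
  obtain ⟨φ, hφ⟩ := exists_inc (Ω := Ω) W
  obtain ⟨K1, hK1, hfin⟩ := fin_index hI hΔ hf
  refine ⟨K1, hK1, hfin, fun hdvd => ?_⟩
  haveI := hfin
  haveI : Finite (W.toAffine.Point ⧸ K1) := AddSubgroup.finite_quotient_of_finiteIndex
  haveI : Fintype (W.toAffine.Point ⧸ K1) := Fintype.ofFinite _
  haveI : Fact p.Prime := ⟨hp⟩
  rw [AddSubgroup.index_eq_card, Nat.card_eq_fintype_card] at hdvd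
  obtain ⟨x, hx⟩ := exists_prime_addOrderOf_dvd_card p hdvd
  obtain ⟨P, rfl⟩ := QuotientAddGroup.mk_surjective x
  -- multiples of kernel points
  have hnsmul : ∀ (R : W.toAffine.Point) (n : ℕ), Ker V (Θ (φ R)) → Ker V (Θ (φ (n • R))) := by
    intro R n hR
    induction n with
    | zero =>
      rw [zero_smul, map_zero, map_zero]
      exact trivial
    | succ n ih =>
      rw [succ_nsmul, map_add, map_add]
      exact H35P.ker_add hG.toIntW _ _ ih hR
  have h12 : Ker V (Θ (φ (12 • P))) := by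
    by_cases k1 : Ker V (Θ (φ P))
    · exact hnsmul P 12 k1
    by_cases k2 : Ker V (Θ (φ (2 • P)))
    · have := hnsmul (2 • P) 6 k2
      rwa [smul_smul] at this
    by_cases k3 : Ker V (Θ (φ (3 • P)))
    · have := hnsmul (3 • P) 4 k3
      rwa [smul_smul] at this
    by_cases k4 : Ker V (Θ (φ (4 • P)))
    · have := hnsmul (4 • P) 3 k4
      rwa [smul_smul] at this
    exfalso
    obtain ⟨W'', u', r', s', t', hv', hG'⟩ := rat_model hv hG hc hφ P k1 k2 k3 k4
    exact hbad ⟨W'', u', r', s', t', hv', qf1a_good hV hG'⟩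
  have hq' : V.valuation ((q : ℕ) : Ω) < 1 := by
    have h1 := (ext_val hV (q : k) 1).2.2 (by rw [map_one]; exact hqv)
    rwa [map_one, map_one, map_natCast] at h1
  obtain ⟨n, hn⟩ := contract hV hAV hG hv.une hc hφ hq' (12 • P) h12
  rw [← hK1, smul_smul] at hn
  have h1 : (q ^ n * 12) • (QuotientAddGroup.mk P : W.toAffine.Point ⧸ K1) = 0 := by
    rw [← QuotientAddGroup.mk_nsmul]
    exact (QuotientAddGroup.eq_zero_iff _).2 hn
  have h2 : p ∣ q ^ n * 12 := by
    rw [← hx]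
    exact addOrderOf_dvd_of_nsmul_eq_zero h1
  rcases (Nat.Prime.dvd_mul hp).1 h2 with h3 | h3
  · exact hpq ((Nat.prime_dvd_prime_iff_eq hp hq).1 (hp.dvd_of_dvd_pow h3))
  · have h4 : p ∣ 4 * 3 := h3
    rcases (Nat.Prime.dvd_mul hp).1 h4 with h6 | h6
    · have := Nat.le_of_dvd (by norm_num) h6
      omega
    · have := Nat.le_of_dvd (by norm_num) h6
      omega

end H55K.TQ
end

-- from Lib.H55K.QF1C
section

/-! # H55K: the index of the kernel of reduction at a bad place -/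

open NumberField IsDedekindDomain WeierstrassCurve

namespace H55K.TQ

open H55P (IQ embF eF LF Per IsHecke Pt ac Inert Dec Nm UnitP)
open H35P (WAB Ker tt GoodW IntW)
open H55K.MG (VC Crd)

variable {k : Type} [Field k] {W : WeierstrassCurve k}

/-- Chunk QF1C (S/M). Either PG W V₀ (then W is good: hmin) and the closure is everything, index 1; or index_coprime: K1 is contained in the closure (ker_e0), so the index of the closure divides the index of K1 (AddSubgroup.index_dvd_of_le). -/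
theorem index_e0 [DecidableEq k] {V₀ : ValuationSubring k} (hI : IntW W V₀) (hΔ : W.Δ ≠ 0) {jj : k} (hj : jj ∈ V₀)
    (hjj : W.c₄ ^ 3 = jj * W.Δ) (hf : FinR V₀) (hA : Arch V₀) {q : ℕ} (hq : q.Prime) (hqv : V₀.valuation (q : k) < 1)
    (hmin : PG W V₀ → GoodW W V₀) {p : ℕ} (hp : p.Prime) (h5 : 5 ≤ p) (hpq : p ≠ q ∨ PG W V₀) :
    ¬ p ∣ (AddSubgroup.closure (E0V W V₀)).index := by
  by_cases hg : PG W V₀
  · have h1 : AddSubgroup.closure (E0V W V₀) = ⊤ := by
      rw [AddSubgroup.eq_top_iff']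
      exact fun P => AddSubgroup.subset_closure (good_e0 (hmin hg) P)
    rw [h1, AddSubgroup.index_top]
    exact hp.one_lt.ne' ∘ Nat.dvd_one.1
  · obtain ⟨K1, hK, -, hn⟩ := index_coprime hI hΔ hj hjj hf hA hq hqv hg hp h5 (hpq.resolve_right hg)
    intro hd
    apply hn
    refine hd.trans (AddSubgroup.index_dvd_of_le ?_)
    intro P hP
    exact AddSubgroup.subset_closure (ker_e0 hI ((hK P).1 hP))

end H55K.TQ
end

-- from Lib.H55K.QH3
section

/-! # H55K: the Tamagawa numbers are prime to p -/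

open NumberField IsDedekindDomain WeierstrassCurve

namespace H55K.TQ

open H55P (IQ embF eF LF Per IsHecke Pt ac Inert Dec Nm UnitP)
open H35P (WAB Ker tt GoodW IntW)
open H55K.MG (VC Crd)

variable {K : Type} [Field K] [NumberField K] (w : HeightOneSpectrum (𝓞 K))

/-- Chunk QH3 (S/M). index_e0 for k the completion, W the minimal equation (wm_int; Δ ≠ 0 by vc_disc; c₄^3 = j₀ Δ is invariant: vc_disc; j₀ in the ring by int_w), fin_w, arch_w, res_w, hmin from wm_good and pg_iff, e0_w; p = q: then p is in w (q and p prime numbers, the same residue characteristic), so h. -/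
theorem tam_unit (W : WeierstrassCurve K) (hΔ : W.Δ ≠ 0) (hj : ∃ j₀ : 𝓞 K, W.c₄ ^ 3 = (j₀ : K) * W.Δ) {p : ℕ}
    (hp : p.Prime) (h5 : 5 ≤ p)
    (h : (p : 𝓞 K) ∈ w.asIdeal → PG (W⁄(w.adicCompletion K)) (w.adicCompletionIntegers K)) :
    ¬ p ∣ tamG K W w := by
  classical
  obtain ⟨u, r, s, t, hvc⟩ := wm_vc w W
  obtain ⟨hd, hc4, -⟩ := vc_disc hvc
  obtain ⟨j₀, hj₀⟩ := hj
  obtain ⟨q, hq, hqw, hqv⟩ := res_w w
  have e1 : (W⁄(w.adicCompletion K)).Δ = algebraMap K (w.adicCompletion K) W.Δ :=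
    W.map_Δ (algebraMap K (w.adicCompletion K))
  have e2 : (W⁄(w.adicCompletion K)).c₄ = algebraMap K (w.adicCompletion K) W.c₄ :=
    W.map_c₄ (algebraMap K (w.adicCompletion K))
  have hbΔ : (W⁄(w.adicCompletion K)).Δ ≠ 0 := by
    rw [e1]
    exact (map_ne_zero_iff _ (algebraMap K (w.adicCompletion K)).injective).2 hΔ
  have hΔm : (Wm K W w).Δ ≠ 0 := by
    intro h0
    rw [h0, mul_zero] at hd
    exact hbΔ hd.symm
  have hjj : (Wm K W w).c₄ ^ 3 = algebraMap K (w.adicCompletion K) (j₀ : K) * (Wm K W w).Δ := by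
    have h1 : (W⁄(w.adicCompletion K)).c₄ ^ 3 =
        algebraMap K (w.adicCompletion K) (j₀ : K) * (W⁄(w.adicCompletion K)).Δ := by
      rw [e1, e2, ← map_pow, hj₀, map_mul]
    rw [← hd, ← hc4] at h1
    apply mul_left_cancel₀ (pow_ne_zero 12 hvc.une)
    linear_combination h1
  have hmin : PG (Wm K W w) (w.adicCompletionIntegers K) → GoodW (Wm K W w) (w.adicCompletionIntegers K) :=
    fun h => wm_good w W ((pg_iff hvc).2 h)
  have hpq : p ≠ q ∨ PG (Wm K W w) (w.adicCompletionIntegers K) := by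
    by_cases hpq : p = q
    · right
      rw [hpq] at h
      exact (pg_iff hvc).1 (h hqw)
    · left
      exact hpq
  have hfin := index_e0 (wm_int w W) hΔm (int_w w j₀).1 hjj (fin_w w) (arch_w w) hq hqv hmin hp h5 hpq
  unfold tamG
  rw [e0_w]
  convert hfin

end H55K.TQ
end

-- from Lib.H55K.QS1
section

/-! # H55K: the value of the analytic order of the Tate-Shafarevich group -/

open NumberField IsDedekindDomain WeierstrassCurve

namespace H55K.TQ

open H55P (IQ embF eF LF Per IsHecke Pt ac Inert Dec Nm UnitP)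
open H35P (WAB Ker tt GoodW IntW)
open H55K.MG (VC Crd)

variable {F : Type} [Field F] [NumberField F] [IQ F] {W : WeierstrassCurve ℤ} {Om : ℂ} {L : PeriodPair} {p : ℕ}

theorem qs1_cast {K : Type} [Field K] [NumberField K] (w : HeightOneSpectrum (𝓞 K)) (m : ℤ) :
    algebraMap K (w.adicCompletion K) (algebraMap ℤ K m) =
      algebraMap K (w.adicCompletion K) ((m : 𝓞 K) : K) := by
  congr 1

theorem qs1_int {K : Type} [Field K] [NumberField K] (w : HeightOneSpectrum (𝓞 K)) (m : ℤ) :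
    algebraMap K (w.adicCompletion K) (algebraMap ℤ K m) ∈ w.adicCompletionIntegers K := by
  rw [qs1_cast]
  exact (int_w w (m : 𝓞 K)).1

/-- Chunk QS1 (S/M). W has integral coefficients and the discriminant Δ is prime to p (integers), so at a place w above p the base change of W to the completion is good (int_w for integers; a Bezout relation a p + b Δ = 1 gives V(Δ) = 1). -/
theorem good_W {K : Type} [Field K] [NumberField K] (w : HeightOneSpectrum (𝓞 K)) (hp : p.Prime)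
    (hΔ : ¬ (p : ℤ) ∣ W.Δ) (hw : (p : 𝓞 K) ∈ w.asIdeal) :
    GoodW ((W⁄K)⁄(w.adicCompletion K)) (w.adicCompletionIntegers K) := by
  have hΔw : ((W.Δ : ℤ) : 𝓞 K) ∉ w.asIdeal := by
    intro h
    have hco : IsCoprime (p : ℤ) W.Δ := by
      rw [Int.isCoprime_iff_gcd_eq_one]
      have h1 := (Nat.Prime.coprime_iff_not_dvd hp).2 (fun h2 => hΔ (Int.natCast_dvd.2 h2))
      exact h1
    obtain ⟨a, b, hab⟩ := hco
    apply w.isPrime.ne_top
    rw [Ideal.eq_top_iff_one]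
    have h1 : (1 : 𝓞 K) = (a : 𝓞 K) * (p : 𝓞 K) + (b : 𝓞 K) * ((W.Δ : ℤ) : 𝓞 K) := by
      have h2 := congrArg (fun z : ℤ => (z : 𝓞 K)) hab
      push_cast at h2
      exact h2.symm
    rw [h1]
    exact w.asIdeal.add_mem (w.asIdeal.mul_mem_left _ hw) (w.asIdeal.mul_mem_left _ h)
  refine ⟨⟨qs1_int w _, qs1_int w _, qs1_int w _, qs1_int w _, qs1_int w _⟩, ?_⟩
  have e1 : ((W⁄K)⁄(w.adicCompletion K)).Δ =
      algebraMap K (w.adicCompletion K) (algebraMap ℤ K W.Δ) := by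
    have e2 : ((W⁄K)⁄(w.adicCompletion K)).Δ = algebraMap K (w.adicCompletion K) (W⁄K).Δ :=
      (W⁄K).map_Δ (algebraMap K (w.adicCompletion K))
    have e3 : (W⁄K).Δ = algebraMap ℤ K W.Δ := W.map_Δ (algebraMap ℤ K)
    rw [e2, e3]
  rw [e1, qs1_cast]
  exact (int_w w ((W.Δ : ℤ) : 𝓞 K)).2.2.2 hΔw

/-- Chunk QS1 (S/M). tam_unit, dfac_unit for W⁄K with good_W (PG from GoodW: VC with 1 0 0 0), prod_unit. (W⁄K).Δ = Δ ≠ 0. -/
theorem prod_W (K : Type) [Field K] [NumberField K] (hp : p.Prime) (h5 : 5 ≤ p) (hΔ : ¬ (p : ℤ) ∣ W.Δ)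
    (hj : ∃ j₀ : ℤ, W.c₄ ^ 3 = j₀ * W.Δ) :
    UnitP p (∏ᶠ w : HeightOneSpectrum (𝓞 K), ((tamG K (W⁄K) w : ℂ) * (dfac K (W⁄K) w : ℂ))) := by
  have e3 : (W⁄K).Δ = algebraMap ℤ K W.Δ := W.map_Δ (algebraMap ℤ K)
  have e4 : (W⁄K).c₄ = algebraMap ℤ K W.c₄ := W.map_c₄ (algebraMap ℤ K)
  have hΔ0 : W.Δ ≠ 0 := by
    intro h
    apply hΔ
    rw [h]
    exact dvd_zero _
  have hΔK : (W⁄K).Δ ≠ 0 := by
    rw [e3]
    simpa using hΔ0
  obtain ⟨j₀, hj₀⟩ := hj
  refine prod_unit hp (fun w => tamG K (W⁄K) w) (fun w => dfac K (W⁄K) w) ?_ ?_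
  · intro w
    refine tam_unit w (W⁄K) hΔK ⟨(j₀ : 𝓞 K), ?_⟩ hp h5 ?_
    · rw [e3, e4]
      have h1 := congrArg (algebraMap ℤ K) hj₀
      rw [map_pow, map_mul] at h1
      rw [h1]
      congr 1
    · intro hw
      exact ⟨_, 1, 0, 0, 0, ⟨one_ne_zero, by ring, by ring, by ring, by ring, by ring⟩,
        good_W w hp hΔ hw⟩
  · intro w
    exact dfac_unit w (W⁄K) hΔK hp (fun hw => good_W w hp hΔ hw)

end H55K.TQ
end

-- from Lib.H55D.Q6
section

open NumberField IsDedekindDomain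

namespace H55D

open H55B H55C

variable {K₀ K : Type} [Field K₀] [NumberField K₀] [Field K] [NumberField K] [Algebra F K] [Algebra K₀ K]

/-! Chunk Q6 (S/M): COPY of H13E/Q6 with E144 replaced by E27 and the bad places those above 3 only (LEF_sq, LEF_bad, LEF_badK). -/

/-- the Euler product, up to `n` -/
theorem DQ6_ev (K : Type) [Field K] [NumberField K] (m : ℕ) :
    ∀ᶠ T : Finset (HeightOneSpectrum (𝓞 K)) in Filter.atTop,
      (∏ w ∈ T, LEF K w) m = (((E27.baseChange K).LFunction m : ℤ) : ℂ) := by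
  have hN : Northcott (fun w : HeightOneSpectrum (𝓞 K) =>
      Nat.card (IsLocalRing.ResidueField (w.adicCompletionIntegers K))) := by
    have h1 : (fun w : HeightOneSpectrum (𝓞 K) =>
      Nat.card (IsLocalRing.ResidueField (w.adicCompletionIntegers K))) =
        fun w => Ideal.absNorm w.asIdeal := funext fun w => (residue_card K w).2
    rw [h1]
    infer_instance
  have h := ArithmeticFunction.tendsTo_eulerProduct_ofPowerSeries
    (fun w : HeightOneSpectrum (𝓞 K) =>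
      Nat.card (IsLocalRing.ResidueField (w.adicCompletionIntegers K)))
    (fun w => ((E27.baseChange K).baseChange (w.adicCompletion K)).localPowerSeries
      (w.adicCompletionIntegers K))
    (fun w => by simp [WeierstrassCurve.localPowerSeries]) m
  have h' : ∀ᶠ T : Finset (HeightOneSpectrum (𝓞 K)) in Filter.atTop,
      (∏ w ∈ T, ((E27.baseChange K).baseChange (w.adicCompletion K)).localEulerFactor
        (w.adicCompletionIntegers K)) m = (E27.baseChange K).LFunction m := h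
  refine h'.mono fun T hT => ?_
  rw [← hT, ← ArithmeticFunction.intCoe_apply, I2_cast_prod]
  rfl

theorem LFun_sq (hQ : H13E.Quad K₀ K) (hU : UnrOut K) (n : ℕ) :
    (((E27.baseChange K).LFunction n : ℤ) : ℂ) =
      ((((E27.baseChange K₀).LFunction : ArithmeticFunction ℤ) : ArithmeticFunction ℂ) *
        (((E27.baseChange K₀).LFunction : ArithmeticFunction ℤ) : ArithmeticFunction ℂ)) n := by
  classical
  obtain ⟨s0, hs0⟩ := Filter.eventually_atTop.1 (DQ6_ev K n)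
  have hR : ∀ᶠ t : Finset (HeightOneSpectrum (𝓞 K₀)) in Filter.atTop,
      ∀ m ∈ Finset.range (n + 1),
      (∏ w ∈ t, LEF K₀ w) m = (((E27.baseChange K₀).LFunction m : ℤ) : ℂ) := by
    rw [Filter.eventually_all_finset]
    intro m _
    exact DQ6_ev K₀ m
  obtain ⟨t0, ht0⟩ := Filter.eventually_atTop.1 hR
  set ov : HeightOneSpectrum (𝓞 K₀) → Finset (HeightOneSpectrum (𝓞 K)) :=
    fun v => (H13E.q6_fin K v).toFinset with hov
  have hmo : ∀ v w, w ∈ ov v ↔ v.asIdeal = w.asIdeal.under (𝓞 K₀) := by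
    intro v w
    simp [hov]
  set t : Finset (HeightOneSpectrum (𝓞 K₀)) := t0 ∪ s0.image (H13E.q6_under K₀) with ht
  set T : Finset (HeightOneSpectrum (𝓞 K)) := t.biUnion ov with hTdef
  have hsub : s0 ⊆ T := by
    intro w hw
    rw [hTdef, Finset.mem_biUnion]
    refine ⟨H13E.q6_under K₀ w, Finset.mem_union_right _ (Finset.mem_image_of_mem _ hw), ?_⟩
    rw [hmo]
    rfl
  rw [← hs0 T hsub, hTdef, Finset.prod_biUnion]
  · have h2 : ∀ v ∈ t, ∏ w ∈ ov v, LEF K w = LEF K₀ v * LEF K₀ v := by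
      intro v _
      by_cases hb : (3 : 𝓞 K₀) ∈ v.asIdeal
      · rw [LEF_bad K hU v hb, mul_one]
        apply Finset.prod_eq_one
        intro w hw
        rw [hmo] at hw
        exact LEF_badK hU w ((H13E.q5_mem v w hw 3).1 hb)
      · exact LEF_sq hQ v hb (ov v) (hmo v)
    rw [Finset.prod_congr rfl h2, Finset.prod_mul_distrib]
    have hts : t0 ⊆ t := Finset.subset_union_left
    refine I2_mul_congr ?_ ?_ n le_rfl
    · intro m hm
      rw [ht0 t hts m (Finset.mem_range.2 (by omega)), ArithmeticFunction.intCoe_apply]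
    · intro m hm
      rw [ht0 t hts m (Finset.mem_range.2 (by omega)), ArithmeticFunction.intCoe_apply]
  · intro v _ v' _ hne
    rw [Function.onFun, Finset.disjoint_left]
    intro w hw hw'
    rw [hmo] at hw hw'
    apply hne
    apply HeightOneSpectrum.ext
    rw [hw, hw']

end H55D
end

-- from Lib.H55D.QA
section

open NumberField IsDedekindDomain

namespace H55D

open H55B H55C H55N

variable {K₀ K : Type} [Field K₀] [NumberField K₀] [Field K] [NumberField K] [Algebra F K] [Algebra K₀ K]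

/-! Chunk QA (M): the Hecke L-function is real. c = the nontrivial automorphism of K/K₀ (H13E.exists_c): c(algebraMap O K x) = algebraMap O K (cj x). It induces a bijection a -> c a of the ideals of O_K (map/comap by the
ring automorphism of O_K), absNorm (c a) = absNorm a, and relNorm_O (c a) = cj (relNorm_O a) (on primes: c w lies above cj v with the same inertia degree; multiplicativity, or Ideal.relNorm_algEquiv-type lemma;
alternatively Psi_prime for primes and multiplicativity of both sides over normalizedFactors / induction on ideals). pg (cj J) = cj (pg J) (primary elements are preserved by cj). So Psi K (c a) = conj (Psi K a) (e_cj), and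
AI (fun a => conj (Psi K a)) n = sum over absNorm a = n of Psi K (c a) = AI (Psi K) n (finsum reindexed by the bijection). -/

theorem DQA_absNorm {R : Type} [CommRing R] [IsDedekindDomain R] [Module.Free ℤ R]
    (σ : R ≃+* R) (a : Ideal R) :
    Ideal.absNorm (a.map (σ : R →+* R)) = Ideal.absNorm a := by
  rw [Ideal.absNorm_apply, Ideal.absNorm_apply, Submodule.cardQuot_apply, Submodule.cardQuot_apply]
  exact Nat.card_congr (Ideal.quotientEquiv a (a.map (σ : R →+* R)) σ rfl).toEquiv.symm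

theorem DQA_prim {x : O} (hx : Prim x) : Prim (cj x) := by
  obtain ⟨z, hz⟩ := hx
  refine ⟨cj z, ?_⟩
  have h := congrArg cj hz
  rw [map_sub, map_one, map_mul, map_ofNat] at h
  exact h

theorem DQA_cjcj (J : Ideal O) : (J.map (cj : O →+* O)).map (cj : O →+* O) = J := by
  rw [Ideal.map_map]
  have h : (cj : O →+* O).comp (cj : O →+* O) = RingHom.id O := by
    ext1 x
    exact cj_cj x
  rw [h, Ideal.map_id]

theorem DQA_psiF (J : Ideal O) : psiF (J.map (cj : O →+* O)) = (starRingEnd ℂ) (psiF J) := by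
  by_cases h : ∃ x : O, J = Ideal.span {x} ∧ Prim x
  · obtain ⟨x, rfl, hx⟩ := h
    have h1 : (Ideal.span {x}).map (cj : O →+* O) = Ideal.span {cj x} := by
      rw [Ideal.map_span, Set.image_singleton]
      rfl
    rw [h1, psiF_apply, psiF_apply, pg_span hx, pg_span (DQA_prim hx), e_cj]
  · have h' : ¬ ∃ x : O, J.map (cj : O →+* O) = Ideal.span {x} ∧ Prim x := by
      rintro ⟨y, hy, hp⟩
      apply h
      refine ⟨cj y, ?_, DQA_prim hp⟩
      rw [← DQA_cjcj J, hy, Ideal.map_span, Set.image_singleton]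
      rfl
    rw [psiF_apply, psiF_apply, pg_of_not h, pg_of_not h', map_zero, map_zero, map_zero]

omit [NumberField K₀] [NumberField K] in
theorem DQA_sigma (c : K ≃ₐ[K₀] K) (hc : ∀ x : O, c (algebraMap O K x) = algebraMap O K (cj x)) :
    ∃ σ : 𝓞 K ≃+* 𝓞 K, ∀ x : O, σ (algebraMap O (𝓞 K) x) = algebraMap O (𝓞 K) (cj x) := by
  refine ⟨NumberField.RingOfIntegers.mapRingEquiv (c : K ≃+* K), fun x => ?_⟩
  apply NumberField.RingOfIntegers.ext
  exact hc x

theorem DQA_prime (σ : 𝓞 K ≃+* 𝓞 K) (hσ : ∀ x : O, σ (algebraMap O (𝓞 K) x) = algebraMap O (𝓞 K) (cj x))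
    (w : HeightOneSpectrum (𝓞 K)) :
    Psi K (w.asIdeal.map (σ : 𝓞 K →+* 𝓞 K)) = (starRingEnd ℂ) (Psi K w.asIdeal) := by
  obtain ⟨v, hv⟩ := H1_below w
  have hwp := w.isPrime
  obtain ⟨w', hw'⟩ : ∃ w' : HeightOneSpectrum (𝓞 K), w'.asIdeal = w.asIdeal.map (σ : 𝓞 K →+* 𝓞 K) := by
    refine ⟨⟨w.asIdeal.map (σ : 𝓞 K →+* 𝓞 K), Ideal.map_isPrime_of_equiv σ, ?_⟩, rfl⟩
    intro h
    exact w.ne_bot ((Ideal.map_eq_bot_iff_of_injective σ.injective).1 h)
  obtain ⟨v', hv'⟩ := H1_below w'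
  have hvv : v'.asIdeal = v.asIdeal.map (cj : O →+* O) := by
    ext x
    rw [hv', Ideal.under_def, Ideal.mem_comap, hw',
      Ideal.mem_map_iff_of_surjective (σ : 𝓞 K →+* 𝓞 K) σ.surjective,
      Ideal.mem_map_iff_of_surjective (cj : O →+* O) cj.surjective]
    constructor
    · rintro ⟨y, hy, hyx⟩
      have hyx' : σ y = algebraMap O (𝓞 K) x := hyx
      have h1 : y = algebraMap O (𝓞 K) (cj x) := by
        apply σ.injective
        rw [hσ, cj_cj, hyx']
      refine ⟨cj x, ?_, cj_cj x⟩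
      rw [hv, Ideal.under_def, Ideal.mem_comap, ← h1]
      exact hy
    · rintro ⟨y, hy, hyx⟩
      refine ⟨algebraMap O (𝓞 K) y, ?_, ?_⟩
      · rw [hv, Ideal.under_def, Ideal.mem_comap] at hy
        exact hy
      · have hyx' : cj y = x := hyx
        show σ (algebraMap O (𝓞 K) y) = algebraMap O (𝓞 K) x
        rw [hσ, hyx']
  have hdeg : w'.asIdeal.inertiaDeg O = w.asIdeal.inertiaDeg O := by
    have h1 := absNorm_inertia K w v hv
    have h2 := absNorm_inertia K w' v' hv'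
    rw [hw', DQA_absNorm, hvv, DQA_absNorm, h1] at h2
    have h3 : 2 ≤ Ideal.absNorm v.asIdeal := by
      have h4 : Ideal.absNorm v.asIdeal ≠ 1 := by
        rw [Ne, Ideal.absNorm_eq_one_iff]; exact v.isPrime.ne_top
      have h5 : Ideal.absNorm v.asIdeal ≠ 0 := by
        rw [Ne, Ideal.absNorm_eq_zero_iff]; exact v.ne_bot
      omega
    rw [← hw'] at h2
    exact (Nat.pow_right_injective h3 h2).symm
  rw [← hw', Psi_prime w' v' hv', Psi_prime w v hv, hvv, DQA_psiF, map_pow, hdeg]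

theorem DQA_Psi (σ : 𝓞 K ≃+* 𝓞 K) (hσ : ∀ x : O, σ (algebraMap O (𝓞 K) x) = algebraMap O (𝓞 K) (cj x))
    (a : Ideal (𝓞 K)) :
    Psi K (a.map (σ : 𝓞 K →+* 𝓞 K)) = (starRingEnd ℂ) (Psi K a) := by
  induction a using UniqueFactorizationMonoid.induction_on_prime with
  | h₁ =>
    have h : (0 : Ideal (𝓞 K)).map (σ : 𝓞 K →+* 𝓞 K) = 0 := Ideal.map_bot
    rw [h, map_zero, map_zero]
  | h₂ x hx =>
    rw [Ideal.isUnit_iff] at hx
    rw [hx, Ideal.map_top, ← Ideal.one_eq_top, map_one, map_one]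
  | h₃ x p hx hp ih =>
    have h1 := DQA_prime σ hσ ⟨p, Ideal.isPrime_of_prime hp, hp.ne_zero⟩
    simp only at h1
    rw [Ideal.map_mul, map_mul, map_mul, map_mul, ih, h1]

theorem AI_real (hQ : H13E.Quad K₀ K) :
    AI (fun a : Ideal (𝓞 K) => (starRingEnd ℂ) (Psi K a)) = AI (Psi K) := by
  obtain ⟨c, -, hc, -, -, -⟩ := H13E.exists_c hQ
  obtain ⟨σ, hσ⟩ := DQA_sigma c hc
  let E : Ideal (𝓞 K) ≃ Ideal (𝓞 K) :=
    { toFun := fun a => a.map (σ : 𝓞 K →+* 𝓞 K)
      invFun := fun a => a.map (σ.symm : 𝓞 K →+* 𝓞 K)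
      left_inv := fun a => Ideal.map_of_equiv σ
      right_inv := fun a => Ideal.map_of_equiv σ.symm }
  ext n
  show (if n = 0 then 0 else ∑ᶠ (a : Ideal (𝓞 K)) (_ : Ideal.absNorm a = n), (starRingEnd ℂ) (Psi K a)) =
    if n = 0 then 0 else ∑ᶠ (a : Ideal (𝓞 K)) (_ : Ideal.absNorm a = n), Psi K a
  by_cases hn : n = 0
  · rw [if_pos hn, if_pos hn]
  · rw [if_neg hn, if_neg hn,
      ← finsum_comp_equiv E (f := fun b : Ideal (𝓞 K) => ∑ᶠ (_ : Ideal.absNorm b = n), Psi K b)]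
    refine finsum_congr fun a => ?_
    show _ = ∑ᶠ (_ : Ideal.absNorm (a.map (σ : 𝓞 K →+* 𝓞 K)) = n), Psi K (a.map (σ : 𝓞 K →+* 𝓞 K))
    rw [DQA_absNorm, DQA_Psi σ hσ]

theorem DQA_prod_one {ι : Type} (s : Finset ι) (f : ι → ArithmeticFunction ℂ)
    (h : ∀ i ∈ s, f i 1 = 1) : (∏ i ∈ s, f i) 1 = 1 := by
  classical
  induction s using Finset.induction_on with
  | empty => simp
  | insert i s hi ih =>
    rw [Finset.prod_insert hi, ArithmeticFunction.mul_apply_one, h i (Finset.mem_insert_self _ _),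
      ih fun j hj => h j (Finset.mem_insert_of_mem hj), one_mul]

theorem DQA_LEF_one (L : Type) [Field L] [NumberField L] (w : HeightOneSpectrum (𝓞 L)) :
    LEF L w 1 = 1 := by
  unfold LEF WeierstrassCurve.localEulerFactor
  rw [ArithmeticFunction.intCoe_apply]
  simp [WeierstrassCurve.localPowerSeries]

theorem DQA_LFun_one (L : Type) [Field L] [NumberField L] :
    (((E27.baseChange L).LFunction 1 : ℤ) : ℂ) = 1 := by
  obtain ⟨s, hs⟩ := (DQ6_ev L 1).exists
  rw [← hs]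
  exact DQA_prod_one s _ fun w _ => DQA_LEF_one L w

theorem DQA_AI_one : AI (Psi K) 1 = 1 := by
  show (if (1 : ℕ) = 0 then (0 : ℂ) else
    ∑ᶠ (a : Ideal (𝓞 K)) (_ : Ideal.absNorm a = 1), Psi K a) = 1
  rw [if_neg one_ne_zero, finsum_eq_single _ (1 : Ideal (𝓞 K))]
  · rw [finsum_eq_if, if_pos (map_one _), map_one]
  · intro x hx
    rw [finsum_eq_if, if_neg]
    intro hn
    exact hx (by rw [Ideal.absNorm_eq_one_iff] at hn; rw [hn, Ideal.one_eq_top])

/-- The L-function over K₀ is the Hecke L-function: LFun_sq, LFunction_Psi, AI_real give L(K₀)^2 = L(K) = AI(Psi)^2; both have value 1 at 1; H13E.sqrt_unique. -/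
theorem LFun0 (hQ : H13E.Quad K₀ K) (hU : UnrOut K) (n : ℕ) :
    (((E27.baseChange K₀).LFunction n : ℤ) : ℂ) = AI (Psi K) n := by
  have hf1 : (((E27.baseChange K₀).LFunction : ArithmeticFunction ℤ) : ArithmeticFunction ℂ) 1 = 1 := by
    rw [ArithmeticFunction.intCoe_apply]
    exact DQA_LFun_one K₀
  have hsq : ∀ m, ((((E27.baseChange K₀).LFunction : ArithmeticFunction ℤ) : ArithmeticFunction ℂ) *
      (((E27.baseChange K₀).LFunction : ArithmeticFunction ℤ) : ArithmeticFunction ℂ)) m =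
      (AI (Psi K) * AI (Psi K)) m := by
    intro m
    rw [← LFun_sq hQ hU m, LFunction_Psi K hU m, AI_real hQ]
  have hfg := H13E.sqrt_unique hf1 (g := AI (Psi K)) DQA_AI_one hsq
  rw [← hfg, ArithmeticFunction.intCoe_apply]

end H55D
end

-- from Lib.H55P.Z7
section

open NumberField IsDedekindDomain WeierstrassCurve

namespace H55P

open H55N
open H55B (F O om e emb Prim R E27)

/-! Chunk PZ7 (M). The L-function over a field K₀ which does not contain the cube roots of unity, K = K₀(om) (H13E.Quad K₀ K).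
PORTS, UnrOut K replaced by H35N.Unr3 K (it is only used through val_three: val_threeU in Z6.lean): val0_threeU of val0_three (Lib/H55D/Q5.lean), LEF_badU of LEF_bad, LFun_sqU of LFun_sq (Q6.lean), LFunU0 of LFun0 (QA.lean: uses LFunction_Psi: LFunctionU here).
L_valU0: PORT of L_val0 (V.lean), with the choice of Λ and of V as in L_valU; OmE = e(2 om + 1) R0 and e(2 om + 1) is a unit at V for p >= 5 (its square is -3). -/

variable {K₀ K : Type} [Field K₀] [NumberField K₀] [Field K] [NumberField K] [Algebra F K]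
  [Algebra K₀ K]

theorem val0_threeU (hU : H35N.Unr3 K)
    (w' : HeightOneSpectrum (𝓞 K₀)) (h3 : (3 : 𝓞 K₀) ∈ w'.asIdeal) :
    w'.valuation K₀ (3 : K₀) = WithZero.exp (-1 : ℤ) ∨
      w'.valuation K₀ (3 : K₀) = WithZero.exp (-2 : ℤ) := by
  obtain ⟨w, e, hw, he, hv⟩ := H13E.q5_above K w'
  have h1 := val_threeU hU w ((H13E.q5_mem w' w hw 3).1 h3)
  have h4 := hv 3
  rw [map_ofNat, h1] at h4
  obtain ⟨k, hk, hk2⟩ := H13E.q5_val w' three_ne_zero h4
  have h5 : (e : ℤ) ∣ 2 := ⟨-k, by linear_combination -hk2⟩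
  have h6 := Int.le_of_dvd two_pos h5
  have h7 : (e : ℤ) = 1 ∨ (e : ℤ) = 2 := by omega
  rcases h7 with h7 | h7 <;> rw [h7] at hk2
  · right
    rw [hk]
    congr 1
    omega
  · left
    rw [hk]
    congr 1
    omega

theorem pz7_bad (hU : H35N.Unr3 K)
    (w' : HeightOneSpectrum (𝓞 K₀)) (h : (3 : 𝓞 K₀) ∈ w'.asIdeal) : H55C.LEF K₀ w' = 1 := by
  have h27 : (27 : K₀) = 3 ^ 3 := by norm_num
  rcases val0_threeU hU w' h with h3 | h3
  · apply H55D.DQ5_bad K₀ w' (-3) (by intro k; omega)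
    rw [h27, map_pow, h3, ← WithZero.exp_nsmul]
    norm_num
  · apply H55D.DQ5_bad K₀ w' (-6) (by intro k; omega)
    rw [h27, map_pow, h3, ← WithZero.exp_nsmul]
    norm_num

theorem pz7_badK (hU : H35N.Unr3 K) (w : HeightOneSpectrum (𝓞 K)) (h : (3 : 𝓞 K) ∈ w.asIdeal) :
    H55C.LEF K w = 1 :=
  H55B.I2_local_bad w (val_threeU hU w h)

theorem pz7_sq (hQ : H13E.Quad K₀ K) (hU : H35N.Unr3 K) (n : ℕ) :
    (((E27.baseChange K).LFunction n : ℤ) : ℂ) =
      ((((E27.baseChange K₀).LFunction : ArithmeticFunction ℤ) : ArithmeticFunction ℂ) *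
        (((E27.baseChange K₀).LFunction : ArithmeticFunction ℤ) : ArithmeticFunction ℂ)) n := by
  classical
  obtain ⟨s0, hs0⟩ := Filter.eventually_atTop.1 (H55D.DQ6_ev K n)
  have hR : ∀ᶠ t : Finset (HeightOneSpectrum (𝓞 K₀)) in Filter.atTop,
      ∀ m ∈ Finset.range (n + 1),
      (∏ w ∈ t, H55C.LEF K₀ w) m = (((E27.baseChange K₀).LFunction m : ℤ) : ℂ) := by
    rw [Filter.eventually_all_finset]
    intro m _
    exact H55D.DQ6_ev K₀ m
  obtain ⟨t0, ht0⟩ := Filter.eventually_atTop.1 hR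
  set ov : HeightOneSpectrum (𝓞 K₀) → Finset (HeightOneSpectrum (𝓞 K)) :=
    fun v => (H13E.q6_fin K v).toFinset with hov
  have hmo : ∀ v w, w ∈ ov v ↔ v.asIdeal = w.asIdeal.under (𝓞 K₀) := by
    intro v w
    simp [hov]
  set t : Finset (HeightOneSpectrum (𝓞 K₀)) := t0 ∪ s0.image (H13E.q6_under K₀) with ht
  set T : Finset (HeightOneSpectrum (𝓞 K)) := t.biUnion ov with hTdef
  have hsub : s0 ⊆ T := by
    intro w hw
    rw [hTdef, Finset.mem_biUnion]
    refine ⟨H13E.q6_under K₀ w, Finset.mem_union_right _ (Finset.mem_image_of_mem _ hw), ?_⟩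
    rw [hmo]
    rfl
  rw [← hs0 T hsub, hTdef, Finset.prod_biUnion]
  · have h2 : ∀ v ∈ t, ∏ w ∈ ov v, H55C.LEF K w = H55C.LEF K₀ v * H55C.LEF K₀ v := by
      intro v _
      by_cases hb : (3 : 𝓞 K₀) ∈ v.asIdeal
      · rw [pz7_bad hU v hb, mul_one]
        apply Finset.prod_eq_one
        intro w hw
        rw [hmo] at hw
        exact pz7_badK hU w ((H13E.q5_mem v w hw 3).1 hb)
      · exact H55D.LEF_sq hQ v hb (ov v) (hmo v)
    rw [Finset.prod_congr rfl h2, Finset.prod_mul_distrib]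
    have hts : t0 ⊆ t := Finset.subset_union_left
    refine H55B.I2_mul_congr ?_ ?_ n le_rfl
    · intro m hm
      rw [ht0 t hts m (Finset.mem_range.2 (by omega)), ArithmeticFunction.intCoe_apply]
    · intro m hm
      rw [ht0 t hts m (Finset.mem_range.2 (by omega)), ArithmeticFunction.intCoe_apply]
  · intro v _ v' _ hne
    rw [Function.onFun, Finset.disjoint_left]
    intro w hw hw'
    rw [hmo] at hw hw'
    apply hne
    apply HeightOneSpectrum.ext
    rw [hw, hw']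

theorem LFunU0 (hQ : H13E.Quad K₀ K) (hU : H35N.Unr3 K) (n : ℕ) :
    (((E27.baseChange K₀).LFunction n : ℤ) : ℂ) = AI (Psi K) n := by
  have hf1 : (((E27.baseChange K₀).LFunction : ArithmeticFunction ℤ) : ArithmeticFunction ℂ) 1 = 1 := by
    rw [ArithmeticFunction.intCoe_apply]
    exact H55D.DQA_LFun_one K₀
  have hsq : ∀ m, ((((E27.baseChange K₀).LFunction : ArithmeticFunction ℤ) : ArithmeticFunction ℂ) *
      (((E27.baseChange K₀).LFunction : ArithmeticFunction ℤ) : ArithmeticFunction ℂ)) m =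
      (AI (Psi K) * AI (Psi K)) m := by
    intro m
    rw [← pz7_sq hQ hU m, LFunctionU K hU m, H55D.AI_real hQ]
  have hfg := H13E.sqrt_unique hf1 (g := AI (Psi K)) H55D.DQA_AI_one hsq
  rw [← hfg, ArithmeticFunction.intCoe_apply]

/-- the square of e(2 om + 1) is -3 -/
theorem pz7_sq3 : e (2 * om + 1) ^ 2 = -3 := by
  have h1 : (2 * om + 1 : O) ^ 2 = -3 := by
    have := H55B.om_rel
    linear_combination 4 * this
  rw [← map_pow, h1, map_neg, map_ofNat]

/-- 3 is a unit above p -/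
theorem pz7_three {p : ℕ} (hp : p.Prime) (h5 : 5 ≤ p) (V : ValuationSubring ℂ)
    (hV : V.valuation (p : ℂ) < 1) : V.valuation (3 : ℂ) = 1 := by
  have hcop : IsCoprime (p : ℤ) 3 := by
    have h1 : Nat.Coprime p 3 := by
      rw [Nat.coprime_primes hp Nat.prime_three]
      omega
    have h2 := Nat.isCoprime_iff_coprime.2 h1
    exact_mod_cast h2
  obtain ⟨a, b, hab⟩ := hcop
  have hint : ∀ z : ℤ, V.valuation (z : ℂ) ≤ 1 := fun z => by
    rw [ValuationSubring.valuation_le_one_iff]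
    exact intCast_mem V z
  have h3 : V.valuation (3 : ℂ) ≤ 1 := by
    have := hint 3
    exact_mod_cast this
  refine le_antisymm h3 (not_lt.1 fun hlt => ?_)
  have h4 : ((a : ℂ) * (p : ℂ) + (b : ℂ) * 3) = 1 := by exact_mod_cast hab
  have h6 : V.valuation ((a : ℂ) * (p : ℂ) + (b : ℂ) * 3) < 1 := by
    apply Valuation.map_add_lt
    · rw [map_mul]
      exact (mul_le_of_le_one_left' (hint a)).trans_lt hV
    · rw [map_mul]
      exact (mul_le_of_le_one_left' (hint b)).trans_lt hlt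
  rw [h4, map_one] at h6
  exact lt_irrefl _ h6

theorem pz7_val {p : ℕ} (hp : p.Prime) (h5 : 5 ≤ p) (V : ValuationSubring ℂ)
    (hV : V.valuation (p : ℂ) < 1) : V.valuation (e (2 * om + 1)) = 1 := by
  have h1 : V.valuation (e (2 * om + 1)) ^ 2 = 1 := by
    rw [← map_pow, pz7_sq3, Valuation.map_neg]
    exact pz7_three hp h5 V hV
  exact (pow_eq_one_iff_of_nonneg zero_le two_ne_zero).1 h1

theorem L_valU0 (hQ : H13E.Quad K₀ K) (hU : H35N.Unr3 K) (p : ℕ) (hp : p.Prime) (h5 : 5 ≤ p)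
    (h : ∀ V : ValuationSubring ℂ, V.valuation (p : ℂ) < 1 → LVP F V OmE (PsiP K psiE)) :
    ∃ Λ : ℂ → ℂ, AnalyticOnNhd ℂ Λ {s | 1 / 2 < s.re} ∧
      (∀ s : ℂ, 3 / 2 < s.re →
        LSeriesSummable (fun n => (((E27.baseChange K₀).LFunction n : ℤ) : ℂ)) s ∧
        Λ s = (E27.baseChange K₀).LSeries s) ∧ Λ 1 ≠ 0 ∧
      UnitP p (Λ 1 / R0 ^ Module.finrank F K) := by
  obtain ⟨Λ, hA, hsum', hval⟩ := pz6_glue hp h
  have hsum : ∀ s : ℂ, 3 / 2 < s.re → HasSum (tm (Psi K) s) (Λ s) := fun s hs => hsum' s hs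
  refine ⟨Λ, hA, ?_, (div_ne_zero_iff.1 (pz6_ne hp hval)).1, ?_⟩
  · intro s hs
    have h0 : Psi K ⊥ = 0 := (Psi K).map_zero
    have h1 := AI_LSeries (fun a => Psi K a) h0 s
      (tm_summable (fun a => Psi K a) Psi_norm_le s hs)
    have h2 : ∑' a : Ideal (𝓞 K), tm (fun a => Psi K a) s a = Λ s := (hsum s hs).tsum_eq
    rw [h2] at h1
    have key : LSeriesHasSum (fun n => (((E27.baseChange K₀).LFunction n : ℤ) : ℂ)) s (Λ s) := by
      have e1 : (fun n => (((E27.baseChange K₀).LFunction n : ℤ) : ℂ)) =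
          fun n => AI (fun a => Psi K a) n := by
        funext n
        exact LFunU0 hQ hU n
      rw [e1]
      exact h1
    exact ⟨key.LSeriesSummable, key.LSeries_eq.symm⟩
  · intro V hV
    have h1 := hval V hV
    have h2 : Λ 1 / R0 ^ Module.finrank F K =
        Λ 1 / OmE ^ Module.finrank F K * e (2 * om + 1) ^ Module.finrank F K := by
      unfold OmE
      have h3 : e (2 * om + 1) ≠ 0 := by
        intro h0
        have := pz7_sq3
        rw [h0] at this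
        norm_num at this
      rw [mul_pow, div_mul_eq_div_div, div_right_comm, div_mul_cancel₀ _ (pow_ne_zero _ h3)]
    rw [h2, map_mul, h1, map_pow, pz7_val hp h5 V hV, one_pow, one_mul]

end H55P
end

-- from Lib.H55K.MM
section

/-! # H55K, part M: good models -/

open NumberField WeierstrassCurve

namespace H55K

open H55P (IQ Pt ac Inert)
open H35P (WAB Ker GoodW IntW)

theorem exists_gmod {F : Type} [Field F] [NumberField F] {Ω : Type} [Field Ω] [DecidableEq Ω] [Algebra F Ω]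
    [IsAlgClosed Ω] {A B : F} (hd : 4 * A ^ 3 + 27 * B ^ 2 ≠ 0)
    (hj : ∃ j₀ : 𝓞 F, (j₀ : F) * (4 * A ^ 3 + 27 * B ^ 2) = 6912 * A ^ 3) (V : ValuationSubring Ω) :
    ∃ (Kg : AddSubgroup (Pt (WAB A B) Ω)) (u : Ω), GMod (WAB A B) V Kg u := by
  obtain ⟨W', u, r, s, t, hVC, hΔ, hW, h2⟩ := MG.good_model hd hj V
  have hΔ' : W'.Δ ≠ 0 := by
    intro h0
    have h1 := hW.disc
    rw [h0, map_zero] at h1
    exact zero_ne_one h1
  obtain ⟨Θ, hc⟩ := MG.vc_iso hVC hΔ hΔ'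
  obtain ⟨Kg, hK⟩ := MG.kg_ex hW Θ
  refine ⟨Kg, u, hVC.une, ?_, ?_, ?_, ?_⟩
  · intro n hn T hT h0
    exact MG.kg_tors hW hn ((hK T).1 hT) h0
  · intro P Q hP hQ h1 h3
    rw [hK] at hP hQ h1 h3
    exact MG.kg_diff hW hc hP hQ h1 h3
  · intro P P' Q hP hP' hQ h0
    rw [hK] at hP hP' hQ
    exact MG.kg_far hW hc hP hP' hQ h0
  · rintro g hg ⟨T₁, T₂, k₁, k₂, k₃, k₄, k₅, f₁, f₂⟩ P
    rw [hK] at k₁ k₂ k₃ k₄ k₅ ⊢
    exact MG.inert_ker hVC.une hW hc g hg (MG.small_tilde hVC.une hW hc h2 g hg k₁ k₂ k₃ k₄ k₅ f₁ f₂) P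

end H55K
end

-- from Lib.H55K.QP2B
section

/-! # H55K: the complex and the real period are p-adic units times the periods -/

open NumberField IsDedekindDomain WeierstrassCurve

namespace H55K.TQ

open H55P (IQ embF eF LF Per IsHecke Pt ac Inert Dec Nm UnitP)
open H35P (WAB Ker tt GoodW IntW)
open H55K.MG (VC Crd)

variable {F : Type} [Field F] [NumberField F] [IQ F] {W : WeierstrassCurve ℤ} {Om : ℂ} {L : PeriodPair} {p : ℕ}

theorem qp2b_fin (L : PeriodPair) (r : ℝ) : {x : ℝ | 0 < x ∧ x ≤ r ∧ (x : ℂ) ∈ L.lattice}.Finite := by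
  have h0 : DiscreteTopology (L.lattice : Set ℂ) := inferInstanceAs (DiscreteTopology L.lattice)
  have h1 : (Metric.closedBall (0 : ℂ) r ∩ (L.lattice : Set ℂ)).Finite :=
    Metric.finite_isBounded_inter_isClosed DiscreteTopology.isDiscrete Metric.isBounded_closedBall L.isClosed_lattice
  refine (h1.preimage (f := fun x : ℝ => (x : ℂ)) Complex.ofReal_injective.injOn).subset ?_
  rintro x ⟨hx, hxr, hxl⟩
  refine ⟨?_, hxl⟩
  rw [mem_closedBall_zero_iff, Complex.norm_real, Real.norm_of_nonneg hx.le]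
  exact hxr

theorem qp2b_re (hL : PerZ W L) {z : ℂ} (hz : z ∈ L.lattice) (h : z.re ≠ 0) :
    ∃ t : ℝ, 0 < t ∧ (t : ℂ) ∈ L.lattice := by
  have h1 : ((2 * z.re : ℝ) : ℂ) ∈ L.lattice := by
    rw [← Complex.add_conj]
    exact add_mem hz (lat_conj hL hz)
  rcases lt_or_gt_of_ne h with h2 | h2
  · refine ⟨-(2 * z.re), by linarith, ?_⟩
    rw [Complex.ofReal_neg]
    exact neg_mem h1
  · exact ⟨2 * z.re, by linarith, h1⟩

theorem qp2b_ex (hL : PerZ W L) : ∃ t : ℝ, 0 < t ∧ (t : ℂ) ∈ L.lattice := by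
  by_cases h1 : L.ω₁.re = 0
  · by_cases h2 : L.ω₂.re = 0
    · exfalso
      have h3 := LinearIndependent.pair_iff.1 L.indep L.ω₂.im (-L.ω₁.im) (by
        apply Complex.ext
        · simp [h1, h2]
        · simp
          ring)
      have h4 : L.ω₁ = 0 := Complex.ext h1 (by simpa using h3.2)
      exact L.indep.ne_zero 0 h4
    · exact qp2b_re hL L.ω₂_mem_lattice h2
  · exact qp2b_re hL L.ω₁_mem_lattice h1

/-- Chunk QP2B (M). The least positive real element exists and is Om α: the lattice is discrete and contains a positive real (Om conj(..): for z in L.lattice also z + conj z (lat_conj), not all z + conj z are 0: z and i-multiples: if z + conj z = 0 for all z in the lattice then the lattice is contained in the imaginary line, impossible for a lattice; so some real t ≠ 0, and |t| > 0). So the set has a minimum (discreteness: finitely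
many lattice points in the disc of radius t). -/
theorem omr_mem (hL : PerZ W L) : 0 < H55D.Omr L ∧ ((H55D.Omr L : ℝ) : ℂ) ∈ L.lattice ∧
    ∀ x : ℝ, 0 < x → (x : ℂ) ∈ L.lattice → H55D.Omr L ≤ x := by
  obtain ⟨t, ht, htl⟩ := qp2b_ex hL
  obtain ⟨m, ⟨hm0, hmt, hml⟩, hmin⟩ := Set.exists_min_image _ id (qp2b_fin L t) ⟨t, ht, le_rfl, htl⟩
  have h1 : ∀ x : ℝ, 0 < x → (x : ℂ) ∈ L.lattice → m ≤ x := by
    intro x hx hxl
    by_cases h : x ≤ t
    · exact hmin x ⟨hx, h, hxl⟩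
    · exact hmt.trans (not_le.1 h).le
  have h2 : IsLeast {x : ℝ | 0 < x ∧ (x : ℂ) ∈ L.lattice} m := ⟨⟨hm0, hml⟩, fun x hx => h1 x hx.1 hx.2⟩
  have h3 : H55D.Omr L = m := h2.csInf_eq
  rw [h3]
  exact ⟨hm0, hml, h1⟩

end H55K.TQ
end

-- from Lib.H55K.RA2
section

/-! # H55K: the local factor of a curve over the rationals -/

open NumberField IsDedekindDomain WeierstrassCurve

namespace H55K.TQ

open H55P (IQ embF eF LF Per IsHecke Pt ac Inert Dec Nm UnitP)
open H35P (WAB Ker tt GoodW IntW)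
open H55K.MG (VC Crd)
open H55K.DD (LF' ef)

/-- the curve over the integers of the rationals -/
theorem ra2_W (W : WeierstrassCurve ℤ) (K : Type) [Field K] [NumberField K] :
    (((W.map (algebraMap ℤ (𝓞 ℚ)))⁄ℚ)⁄K) = W⁄K := by
  show ((W.map (algebraMap ℤ (𝓞 ℚ))).map (algebraMap (𝓞 ℚ) ℚ)).map (algebraMap ℚ K) =
    W.map (algebraMap ℤ K)
  rw [WeierstrassCurve.map_map, WeierstrassCurve.map_map]
  congr 1
  exact RingHom.ext_int _ _

/-- `ZMod l` is the residue field -/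
theorem ra2_equiv {v : Ideal (𝓞 ℚ)} (hv : v.IsPrime) {l : ℕ} (hl : l.Prime) (hlv : (l : 𝓞 ℚ) ∈ v) :
    Nonempty (ZMod l ≃+* 𝓞 ℚ ⧸ v) := by
  haveI : Fact l.Prime := ⟨hl⟩
  haveI : Nontrivial (𝓞 ℚ ⧸ v) := Ideal.Quotient.nontrivial_iff.2 hv.ne_top
  have h0 : ((l : ℕ) : 𝓞 ℚ ⧸ v) = 0 := by
    rw [← map_natCast (Ideal.Quotient.mk v), Ideal.Quotient.eq_zero_iff_mem]
    exact hlv
  haveI : CharP (𝓞 ℚ ⧸ v) l := by
    obtain ⟨p, hp⟩ := CharP.exists (𝓞 ℚ ⧸ v)
    have h1 : p ∣ l := (CharP.cast_eq_zero_iff _ p l).1 h0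
    rcases (Nat.dvd_prime hl).1 h1 with h2 | h2
    · exfalso
      rw [h2] at hp
      exact one_ne_zero ((CharP.cast_eq_zero_iff (𝓞 ℚ ⧸ v) 1 1).2 (dvd_refl 1) ▸ (Nat.cast_one (R := 𝓞 ℚ ⧸ v)).symm)
    · rwa [h2] at hp
  refine ⟨RingEquiv.ofBijective (ZMod.castHom (dvd_refl l) (𝓞 ℚ ⧸ v)) ⟨RingHom.injective _, ?_⟩⟩
  intro x
  obtain ⟨y, rfl⟩ := Ideal.Quotient.mk_surjective x
  refine ⟨((Rat.ringOfIntegersEquiv y : ℤ) : ZMod l), ?_⟩
  rw [map_intCast, ← map_intCast (Ideal.Quotient.mk v)]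
  congr 1
  apply Rat.ringOfIntegersEquiv.injective
  rw [map_intCast]
  simp

/-- The rational prime below w -/
theorem ra2_below {K : Type} [Field K] [NumberField K] (w : HeightOneSpectrum (𝓞 K)) :
    ∃ (l f : ℕ), l.Prime ∧ (l : 𝓞 K) ∈ w.asIdeal ∧ 0 < f ∧ Ideal.absNorm w.asIdeal = l ^ f := by
  have hmax : w.asIdeal.IsMaximal := w.isMaximal
  letI : Field (𝓞 K ⧸ w.asIdeal) := Ideal.Quotient.field w.asIdeal
  have h0 : Ideal.absNorm w.asIdeal ≠ 0 := by
    rw [Ne, Ideal.absNorm_eq_zero_iff]; exact w.ne_bot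
  have hcard : Ideal.absNorm w.asIdeal = Nat.card (𝓞 K ⧸ w.asIdeal) := rfl
  haveI : Finite (𝓞 K ⧸ w.asIdeal) := Nat.finite_of_card_ne_zero (by rw [← hcard]; exact h0)
  letI : Fintype (𝓞 K ⧸ w.asIdeal) := Fintype.ofFinite _
  obtain ⟨p, hp⟩ := CharP.exists (𝓞 K ⧸ w.asIdeal)
  obtain ⟨n, hpp, hn⟩ := FiniteField.card (𝓞 K ⧸ w.asIdeal) p
  refine ⟨p, n, hpp, ?_, n.pos, ?_⟩
  · rw [← Ideal.Quotient.eq_zero_iff_mem, map_natCast]
    exact CharP.cast_eq_zero _ p
  · rw [hcard, Nat.card_eq_fintype_card, hn]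

/-- the prime of the integers of the rationals below `w` -/
theorem ra2_v {K : Type} [Field K] [NumberField K] (w : HeightOneSpectrum (𝓞 K)) :
    ∃ v : HeightOneSpectrum (𝓞 ℚ), v.asIdeal = w.asIdeal.under (𝓞 ℚ) := by
  obtain ⟨l, f, hl, hlw, -, -⟩ := ra2_below w
  have hpr : (w.asIdeal.under (𝓞 ℚ)).IsPrime := by
    have := w.isPrime
    infer_instance
  refine ⟨⟨w.asIdeal.under (𝓞 ℚ), hpr, ?_⟩, rfl⟩
  intro hbot
  have h1 : (l : 𝓞 ℚ) ∈ w.asIdeal.under (𝓞 ℚ) := by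
    rw [Ideal.under_def, Ideal.mem_comap, map_natCast]
    exact hlw
  rw [hbot, Ideal.mem_bot] at h1
  exact hl.ne_zero (by exact_mod_cast h1)

/-- Chunk RA2 (M). lf_good (D6.lean) with F = ℚ and W₀ = W.map (algebraMap ℤ (𝓞 ℚ)): v = the prime of 𝓞 ℚ below w; 𝓞 ℚ is ℤ (Rat.ringOfIntegersEquiv), v is generated by l, absNorm v = l, the residue field 𝓞 ℚ ⧸ v is isomorphic to ZMod l (both have l elements and W⁄ of it is the image of W: a ring isomorphism ZMod l ≃ 𝓞 ℚ ⧸ v; H55P.pz10_card in Z10.lean for the number of points over isomorphic rings).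
absNorm w = l^f = absNorm v ^ inertiaDeg, so f = inertiaDeg. (W₀⁄ℚ)⁄K = W⁄K (map_map; ring homomorphisms from ℤ are equal: RingHom.ext_int or Subsingleton). -/
theorem lf_W (W : WeierstrassCurve ℤ) {K : Type} [Field K] [NumberField K] (w : HeightOneSpectrum (𝓞 K)) {l : ℕ}
    (hl : l.Prime) (hw : (l : 𝓞 K) ∈ w.asIdeal) (hΔ : ¬ (l : ℤ) ∣ W.Δ) (α β : ℂ)
    (h1 : α + β = (l : ℂ) + 1 - (Nat.card (W⁄(ZMod l)).toAffine.Point : ℂ)) (h2 : α * β = (l : ℂ)) {f : ℕ}
    (hf : Ideal.absNorm w.asIdeal = l ^ f) :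
    LF' (W⁄K) w = ef (Ideal.absNorm w.asIdeal) (α ^ f) * ef (Ideal.absNorm w.asIdeal) (β ^ f) := by
  obtain ⟨v, hv⟩ := ra2_v w
  have hlv : (l : 𝓞 ℚ) ∈ v.asIdeal := by
    rw [hv, Ideal.under_def, Ideal.mem_comap, map_natCast]
    exact hw
  obtain ⟨φ⟩ := ra2_equiv v.isPrime hl hlv
  haveI : Fact l.Prime := ⟨hl⟩
  have hcv : Ideal.absNorm v.asIdeal = l := by
    have h3 : Ideal.absNorm v.asIdeal = Nat.card (𝓞 ℚ ⧸ v.asIdeal) := rfl
    rw [h3, ← Nat.card_congr φ.toEquiv, Nat.card_zmod]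
  have hΔ' : (W.map (algebraMap ℤ (𝓞 ℚ))).Δ ∉ v.asIdeal := by
    intro hcon
    rw [WeierstrassCurve.map_Δ] at hcon
    have h3 : IsCoprime (l : ℤ) W.Δ := (Nat.prime_iff_prime_int.1 hl).coprime_iff_not_dvd.2 hΔ
    obtain ⟨a, b, hab⟩ := h3
    apply v.isPrime.ne_top
    rw [Ideal.eq_top_iff_one]
    have h4 : (1 : 𝓞 ℚ) = algebraMap ℤ (𝓞 ℚ) a * (l : 𝓞 ℚ) + algebraMap ℤ (𝓞 ℚ) b *
        algebraMap ℤ (𝓞 ℚ) W.Δ := by
      rw [← map_mul, ← map_natCast (algebraMap ℤ (𝓞 ℚ)) l, ← map_mul, ← map_add]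
      rw [show a * ((l : ℕ) : ℤ) + b * W.Δ = 1 from hab, map_one]
    rw [h4]
    exact v.asIdeal.add_mem (v.asIdeal.mul_mem_left _ hlv) (v.asIdeal.mul_mem_left _ hcon)
  have hpts : Nat.card (((W.map (algebraMap ℤ (𝓞 ℚ)))⁄(𝓞 ℚ ⧸ v.asIdeal)).toAffine.Point) =
      Nat.card (W⁄(ZMod l)).toAffine.Point := by
    have e : ((W.map (algebraMap ℤ (𝓞 ℚ)))⁄(𝓞 ℚ ⧸ v.asIdeal)) =
        (W⁄(ZMod l)).map (φ : ZMod l →+* 𝓞 ℚ ⧸ v.asIdeal) := by
      show (W.map (algebraMap ℤ (𝓞 ℚ))).map (algebraMap (𝓞 ℚ) (𝓞 ℚ ⧸ v.asIdeal)) =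
        (W.map (algebraMap ℤ (ZMod l))).map (φ : ZMod l →+* 𝓞 ℚ ⧸ v.asIdeal)
      rw [WeierstrassCurve.map_map, WeierstrassCurve.map_map]
      congr 1
      exact RingHom.ext_int _ _
    rw [e]
    exact H55P.pz10_card _ _
  have h := H55K.DD.lf_good (W.map (algebraMap ℤ (𝓞 ℚ))) w v hv hΔ' α β
    (by rw [hcv, hpts]; exact h1) (by rw [hcv]; exact h2)
  have hfi : w.asIdeal.inertiaDeg (𝓞 ℚ) = f := by
    have hlies : w.asIdeal.LiesOver v.asIdeal := ⟨hv⟩
    have hmax : v.asIdeal.IsMaximal := v.isMaximal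
    have h3 := Ideal.absNorm_eq_pow_inertiaDeg'_of_liesOver w.asIdeal v.asIdeal v.isPrime v.ne_bot
    rw [Ideal.inertiaDeg'_algebraMap, hcv, hf] at h3
    rw [Ideal.inertiaDeg_eq_of_isMaximal v.asIdeal w.asIdeal]
    exact (Nat.pow_right_injective hl.two_le h3).symm
  rw [hfi] at h
  rw [← ra2_W W K]
  exact h

/-- Chunk RA2 (S/M). lf_bad with F = ℚ. -/
theorem lf_W_bad (W : WeierstrassCurve ℤ) {K : Type} [Field K] [NumberField K] (w : HeightOneSpectrum (𝓞 K)) {j₀ : ℤ}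
    (hj : W.c₄ ^ 3 = j₀ * W.Δ) (hb : ¬ GoodAt (W⁄K) w) : LF' (W⁄K) w = 1 := by
  rw [← ra2_W W K] at hb ⊢
  refine H55K.DD.lf_bad (W.map (algebraMap ℤ (𝓞 ℚ))) w (algebraMap ℤ (𝓞 ℚ) j₀) ?_ hb
  rw [WeierstrassCurve.map_c₄, WeierstrassCurve.map_Δ, ← map_pow, hj, map_mul]

/-- Chunk RA2 (S). The rational prime below w: Ideal.absNorm is a power of it. -/
theorem below_W {K : Type} [Field K] [NumberField K] (w : HeightOneSpectrum (𝓞 K)) :
    ∃ (l f : ℕ), l.Prime ∧ (l : 𝓞 K) ∈ w.asIdeal ∧ 0 < f ∧ Ideal.absNorm w.asIdeal = l ^ f := by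
  exact ra2_below w

end H55K.TQ
end
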