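import Mathlib
import Pool.Agent.Lib.H1M.PP.D_H13Z_TR
import Pool.Agent.Lib.H1M.PP.D_H55K_RD
import Pool.Agent.Lib.H1M.PP.M006
import Pool.Agent.Lib.H1M.PP.M017
import Pool.Agent.Lib.H1M.PP.M020
import Pool.Agent.Lib.H1M.PP.M036
import Pool.Agent.Lib.H1M.PP.M041
import Pool.Agent.Lib.H1M.PP.M043
import Pool.Agent.Lib.H1M.PP.M048
import Pool.Agent.Lib.H1M.PP.M051
import Pool.Agent.Lib.H1M.PP.M053
import Pool.Agent.Lib.H1M.PP.M054
import Pool.Agent.Lib.H1M.PP.M058
import Pool.Agent.Lib.H1M.PP.M059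
import Pool.Agent.Lib.H1M.PP.M061
import Pool.Agent.Lib.H1M.PP.M062
import Pool.Agent.Lib.H1M.PP.M068
import Pool.Agent.Lib.H1M.PP.M069
import Pool.Agent.Lib.H1M.PP.M070
import Pool.Agent.Lib.H1M.PP.M072
import Pool.Agent.Lib.H1M.PP.M073

/-! Merged copies (to shorten the build) of Lib.H55P.Fin, Lib.H13Y.G4, Lib.H55K.FB1, Lib.H55K.G8C, Lib.H55K.G10C, Lib.H55K.Y5, Lib.H55K.BH1, Lib.H55K.FB9A, Lib.H55K.FB9B, Lib.H55K.T11B, Lib.H55K.T10, Lib.H55K.FB3B. -/

-- from Lib.H55P.Fin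
section

open NumberField IsDedekindDomain WeierstrassCurve

namespace H55P

open H55N
open H55B (F O om e E27)

/-! The assembly for y^2 + y = x^3. -/

/-- An algebraic closure of F. -/
abbrev FB : Type := AlgebraicClosure F

noncomputable instance decFB : DecidableEq FB := Classical.decEq _

theorem W27O_base : (W27O⁄F) = H28G.W27 := by
  ext <;> simp [W27O, H28G.W27]

theorem E27_base : (E27⁄F) = H28G.W27 := by
  ext <;> simp [E27, H28G.W27]

theorem W27O_disc : W27O.Δ = -27 := by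
  simp [W27O, WeierstrassCurve.Δ, WeierstrassCurve.b₂, WeierstrassCurve.b₄, WeierstrassCurve.b₆,
    WeierstrassCurve.b₈]

theorem W27_ell : H28G.W27.IsElliptic := by
  rw [WeierstrassCurve.isElliptic_iff]
  have h : H28G.W27.Δ = -27 := by
    simp [H28G.W27, WeierstrassCurve.Δ, WeierstrassCurve.b₂, WeierstrassCurve.b₄,
      WeierstrassCurve.b₆, WeierstrassCurve.b₈]
  rw [h]
  exact IsUnit.mk0 _ (by norm_num)

instance instEll : (W27O⁄F).IsElliptic := by
  rw [W27O_base]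
  exact W27_ell

instance instEllQ : (E27 : WeierstrassCurve ℚ).IsElliptic := by
  rw [WeierstrassCurve.isElliptic_iff]
  have h : E27.Δ = -27 := by
    simp [E27, WeierstrassCurve.Δ, WeierstrassCurve.b₂, WeierstrassCurve.b₄,
      WeierstrassCurve.b₆, WeierstrassCurve.b₈]
  rw [h]
  exact IsUnit.mk0 _ (by norm_num)

theorem finrank_bot' : Module.finrank F (⊥ : IntermediateField F FB) = 1 :=
  IntermediateField.finrank_bot

/-- The discriminant is prime to a prime not above 3. -/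
theorem disc_notMem {M : IntermediateField F FB} (v : HeightOneSpectrum (𝓞 M))
    (h3 : (3 : 𝓞 M) ∉ v.asIdeal) : algebraMap O (𝓞 M) W27O.Δ ∉ v.asIdeal := by
  rw [W27O_disc, map_neg, neg_mem_iff]
  intro h
  apply h3
  have h27 : algebraMap O (𝓞 M) 27 = 3 ^ 3 := by
    rw [map_ofNat]
    norm_num
  rw [h27] at h
  exact v.isPrime.mem_of_pow_mem 3 h

section tower

variable {p : ℕ} (hp : p.Prime) (h5 : 5 ≤ p) (L : IntermediateField F FB) (hL : PExt p ⊥ L)
  (hram : ∀ v₀ : HeightOneSpectrum O, RamF L v₀.asIdeal → GoodP p v₀)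

include hp h5 hL hram

omit hp h5 in
/-- The conditions at the ramified primes of the bottom field. -/
theorem ram_good (v : HeightOneSpectrum (𝓞 (⊥ : IntermediateField F FB)))
    (h : Ram (⊥ : IntermediateField F FB) L v.asIdeal) :
    (3 : 𝓞 (⊥ : IntermediateField F FB)) ∉ v.asIdeal ∧
      (p : 𝓞 (⊥ : IntermediateField F FB)) ∉ v.asIdeal ∧
      ¬ p ∣ Nat.card (W27O⁄(𝓞 (⊥ : IntermediateField F FB) ⧸ v.asIdeal)).toAffine.Point := by
  obtain ⟨v₀, h1, h2, h3⟩ := bot_conv W27O L v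
  obtain ⟨g3, gp, gc⟩ := hram v₀ (h2 h)
  refine ⟨fun hm => g3 ((h1 3).2 (by rwa [map_ofNat])), fun hm => gp ((h1 p).2 (by rwa [map_natCast])), ?_⟩
  rw [h3]
  exact gc

theorem sel_all (hRB : SelZero H28G.W27 p (⊥ : IntermediateField F FB)) (K : IntermediateField F FB)
    (hKL : K ≤ L) : SelZero H28G.W27 p K ∧
      ∀ T : Pt H28G.W27 FB, p • T = 0 → (∀ s ∈ K.fixingSubgroup, ac H28G.W27 s T = T) → T = 0 := by
  have hb : FiniteDimensional F (⊥ : IntermediateField F FB) := inferInstance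
  have hbn : NumberField (⊥ : IntermediateField F FB) := H16C.FR_numberField _
  have h0 : ∀ T : Pt (W27O⁄F) FB, p • T = 0 →
      (∀ s ∈ (⊥ : IntermediateField F FB).fixingSubgroup, ac (W27O⁄F) s T = T) → T = 0 := by
    obtain ⟨v, h3, hpv, hc⟩ := card_two p hp h5 (⊥ : IntermediateField F FB) finrank_bot'
    exact fun T hT hf => tors_of_prime W27O p hp ⊥ v (disc_notMem v h3) hpv hc T hT hf
  have h1 := sel_tower W27O p hp ⊥ L hL h0
    (fun v hv => ⟨disc_notMem v (ram_good L hL hram v hv).1, (ram_good L hL hram v hv).2⟩)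
    (by rw [W27O_base]; exact hRB) K bot_le hKL
  have h2 := tors_tower (W27O⁄F) p hp ⊥ L hL h0 K hKL
  rw [W27O_base] at h1 h2
  exact ⟨h1, h2⟩

theorem lvp_all (K : IntermediateField F FB) [NumberField K] (hKL : K ≤ L) (V : ValuationSubring ℂ)
    (hV : V.valuation (p : ℂ) < 1) : LVP F V OmE (PsiP K psiE) := by
  have hLf : FiniteDimensional F L := hL.fin
  have hLn : NumberField L := H16C.FR_numberField L
  have hbn : NumberField (⊥ : IntermediateField F FB) := H16C.FR_numberField _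
  obtain ⟨h3, h2⟩ := val3 p hp h5 V hV
  refine LVP_tower p hp ⊥ L hL isHeckeE (m3_cop p hp h5) ?_ 0 (1 / 4) OmE perE V hV (goodE V h3 h2)
    (ntpE _ finrank_bot' p hp h5 V hV) (fun v hv => ?_) (baseE _ finrank_bot' V h3) K bot_le hKL
  · exact unrP_sub p hp L (sqfree_E p hp h5) fun v hv => (hram v hv).2.1
  · obtain ⟨g3, gp, gc⟩ := ram_good L hL hram v hv
    exact admE _ v g3 p hp gc V hV

end tower

section final

theorem rat_tower (A B : Type) [Field A] [Field B] [Algebra ℚ A] [Algebra ℚ B] [Algebra A B] :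
    IsScalarTower ℚ A B :=
  IsScalarTower.of_algebraMap_eq fun x => by
    rw [eq_ratCast (algebraMap ℚ B) x, eq_ratCast (algebraMap ℚ A) x, map_ratCast]

theorem tower_QF : IsScalarTower ℚ F FB := rat_tower F FB

theorem alg_QFB : Algebra.IsAlgebraic ℚ FB := Algebra.IsAlgebraic.trans ℚ F FB

/-- The image of a Galois extension of degree p^k in the algebraic closure. -/
theorem pext_range (p : ℕ) (hp : p.Prime) (L : Type) [Field L] [NumberField L] [Algebra F L] (hG : IsGalois F L)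
    (k : ℕ) (hk : Module.finrank F L = p ^ k) (j : L →ₐ[F] FB) : PExt p ⊥ j.fieldRange := by
  let E : L ≃ₐ[F] j.fieldRange := AlgEquiv.ofInjectiveField j
  have hfL : FiniteDimensional F L := Module.finite_of_finrank_pos (by rw [hk]; exact pow_pos hp.pos k)
  have hn : Normal F j.fieldRange := Normal.of_algEquiv E
  refine ⟨Module.Finite.equiv E.toLinearEquiv, bot_le, fun s _ x hx => ?_, k, ?_⟩
  · have h1 := (IntermediateField.normal_iff_forall_map_le' (K := j.fieldRange)).1 hn s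
    exact h1 ⟨x, hx, rfl⟩
  · rw [finrank_bot', one_mul, ← hk]
    exact E.toLinearEquiv.finrank_eq.symm

/-- THEOREM for y^2 + y = x^3, from the base case. -/
theorem bsdP_of (p : ℕ) (hp : p.Prime) (h5 : 5 ≤ p)
    (hRB : SelZero H28G.W27 p (⊥ : IntermediateField F FB))
    (K : Type) [Field K] [NumberField K] (hK : InP p K) : BSDP p K := by
  obtain ⟨Lt, _, _, _, _, hG, ⟨k, hk⟩, hunr⟩ := hK
  have hfL : FiniteDimensional F Lt := Module.finite_of_finrank_pos (by rw [hk]; exact pow_pos hp.pos k)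
  let j : Lt →ₐ[F] FB := IsAlgClosed.lift
  set L : IntermediateField F FB := j.fieldRange with hLdef
  have hL : PExt p ⊥ L := pext_range p hp Lt hG k hk j
  have hLf : FiniteDimensional F L := hL.fin
  have hLn : NumberField L := H16C.FR_numberField L
  have hram : ∀ v₀ : HeightOneSpectrum O, RamF L v₀.asIdeal → GoodP p v₀ := by
    intro v₀ h
    by_contra hng
    obtain ⟨W, hW, he⟩ := ramF_range Lt j v₀ h
    exact he (hunr W v₀ hW hng)
  let ι₀ : K →+* FB := j.toRingHom.comp (algebraMap K Lt)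
  let ι : K →ₐ[ℚ] FB := ι₀.toRatAlgHom
  set K' : IntermediateField F FB := KF K ι with hK'
  have hK'L : K' ≤ L := by
    rw [hK']
    unfold KF
    rw [IntermediateField.adjoin_le_iff]
    rintro _ ⟨x, rfl⟩
    exact ⟨algebraMap K Lt x, rfl⟩
  have hK'f : FiniteDimensional F K' := finDim_of_le hK'L
  have hK'n : NumberField K' := H16C.FR_numberField K'
  have hQF := tower_QF
  have hQA := alg_QFB
  -- Selmer groups
  obtain ⟨hS, hT⟩ := sel_all hp h5 L hL hram hRB K' hK'L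
  have hS1 : SelZero (E27 : WeierstrassCurve ℚ) p (K'.restrictScalars ℚ) :=
    sel_base (F := F) E27 p K' (by rw [E27_base]; exact hS)
  have hT1 : ∀ T : Pt E27 FB, p • T = 0 →
      (∀ s ∈ (K'.restrictScalars ℚ).fixingSubgroup, ac E27 s T = T) → T = 0 :=
    tors_base (F := F) E27 p K' (by rw [E27_base]; exact hT)
  have hKQ : FiniteDimensional ℚ (K'.restrictScalars ℚ) := by
    have : FiniteDimensional ℚ K' := Module.Finite.trans F K'
    exact this
  have hS2 : SelZero (E27 : WeierstrassCurve ℚ) p ι.fieldRange :=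
    sel_down E27 p ι.fieldRange (K'.restrictScalars ℚ) (kf_le K ι) (kf_norm K ι) hT1 hS1
  have hfr : FiniteDimensional ℚ ι.fieldRange :=
    Module.Finite.equiv (AlgEquiv.ofInjectiveField ι).toLinearEquiv
  have hpt := pts_congr E27 K ι p (by
    classical
    exact pts_fin E27 p hp ι.fieldRange hS2)
  have hsel : SelTriv (E27.baseChange K) p := sel_transport E27 p K ι hS2
  have hsha : ShaTriv (E27.baseChange K) p := sha_transport E27 p K ι (sha_zero E27 p hp _ hS2)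
  refine ⟨⟨hsel, hsha, hpt.1, hpt.2⟩, H55C.period_exists, ?_⟩
  -- L-values
  have hUL : UnrP p L := unrP_sub p hp L (sqfree_E p hp h5) fun v hv => (hram v hv).2.1
  have hUK' : UnrP p K' := by
    letI : Algebra K' L := (IntermediateField.inclusion hK'L).toRingHom.toAlgebra
    exact UnrP.down K' L p hp hUL
  have h3K' : H35N.Unr3 K' := fun w hw =>
    unr_sub K' L hK'L 3 (by norm_num) (fun v hv => by
      have := (hram v hv).1
      exact_mod_cast this) w (by exact_mod_cast hw)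
  have hlvp : ∀ V : ValuationSubring ℂ, V.valuation (p : ℂ) < 1 → LVP F V OmE (PsiP K' psiE) :=
    fun V hV => lvp_all hp h5 L hL hram K' hK'L V hV
  by_cases hroot : ∃ x : K, x ^ 2 + x + 1 = 0
  · obtain ⟨x, hx⟩ := hroot
    obtain ⟨f, hf⟩ := exists_F K ι x hx
    letI : Algebra F K := f.toAlgebra
    obtain ⟨θ⟩ := kf_iso K ι f hf
    letI : Algebra K K' := θ.toRingHom.toAlgebra
    have hst : IsScalarTower F K K' := IsScalarTower.of_algebraMap_eq fun y => (θ.commutes y).symm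
    have hUK : UnrP p K := UnrP.down K K' p hp hUK'
    have h3K : H35N.Unr3 K := unr3_down K K' h3K'
    obtain ⟨Λ, a1, a2, a3, a4⟩ := L_valU K h3K p hp fun V hV => LVP_congr K K' θ V OmE psiE (hlvp V hV)
    exact ⟨Λ, a1, a2, a3, fun L g2 g3 => shaUF h3K p hp h5 hUK hpt.2 (Λ 1) a4 L g2 g3⟩
  · push Not at hroot
    letI : Algebra K K' := (KFmap K ι).toAlgebra
    have hQ : H13E.Quad K K' := kf_quad K ι hroot
    obtain ⟨Λ, a1, a2, a3, a4⟩ := L_valU0 hQ h3K' p hp h5 hlvp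
    exact ⟨Λ, a1, a2, a3, fun L g2 g3 => shaU hQ h3K' p hp h5 hUK' hpt.2 (Λ 1) a4 L g2 g3⟩

end final

end H55P
end

-- from Lib.H13Y.G4
section

open NumberField IsDedekindDomain WeierstrassCurve

namespace H13Y

open H55P H28G H13S
open H13Z (SelNon)

section gen

variable {k : Type} [Field k] {Ω : Type} [Field Ω] [DecidableEq Ω] [Algebra k Ω]

/-- Chunk YG6 (S/M). d s = c s - (ac s T - T) is a cocycle on the group of N, zero on the group of N' (normal in it: g⁻¹ s g maps x in N' to itself because g x is in N'). For g in the group of N, s in the group of N': d (s g) = ac s (d g) and d (s g) = d (g (g⁻¹ s g)) = d g, so d g is fixed by the group of N' and killed by p: 0. -/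
theorem cob_down (W : WeierstrassCurve k) (p : ℕ) {N N' : IntermediateField k Ω} (hNN : N ≤ N')
    (hn : ∀ s ∈ N.fixingSubgroup, ∀ x ∈ N', s x ∈ N')
    (ht : ∀ R : Pt W Ω, p • R = 0 → (∀ s ∈ N'.fixingSubgroup, ac W s R = R) → R = 0)
    {c : (Ω ≃ₐ[k] Ω) → Pt W Ω}
    (hm : ∀ s ∈ N.fixingSubgroup, ∀ t ∈ N.fixingSubgroup, c (s * t) = c s + ac W s (c t))
    (hl : ∀ s ∈ N.fixingSubgroup, p • c s = 0) {T : Pt W Ω} (hT : p • T = 0)
    (h : ∀ s ∈ N'.fixingSubgroup, c s = ac W s T - T) :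
    ∀ s ∈ N.fixingSubgroup, c s = ac W s T - T := by
  have hle : ∀ s ∈ N'.fixingSubgroup, s ∈ N.fixingSubgroup := by
    intro s hs
    rw [IntermediateField.mem_fixingSubgroup_iff] at hs ⊢
    exact fun x hx => hs x (hNN hx)
  have hac : ∀ (s t : Ω ≃ₐ[k] Ω) (P : Pt W Ω), ac W (s * t) P = ac W s (ac W t P) := by
    intro s t P
    have h1 := (acR W).map_mul s t
    exact DFunLike.congr_fun h1 P
  intro s hs
  have hd : c s - (ac W s T - T) = 0 := by
    apply ht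
    · rw [nsmul_sub, nsmul_sub, hl s hs, ← map_nsmul, hT, map_zero, sub_zero, sub_zero]
    · intro t htN
      have ht' : s⁻¹ * t * s ∈ N'.fixingSubgroup := by
        rw [IntermediateField.mem_fixingSubgroup_iff] at htN ⊢
        intro x hx
        rw [AlgEquiv.mul_apply, AlgEquiv.mul_apply, htN _ (hn s hs x hx)]
        exact s.symm_apply_apply x
      have e1 : s * (s⁻¹ * t * s) = t * s := by group
      have h2 := hm s hs _ (hle _ ht')
      have h3 := hm t (hle t htN) s hs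
      rw [e1] at h2
      rw [h2, h t htN, h _ ht', map_sub, ← hac, e1, hac] at h3
      rw [map_sub, map_sub]
      have h4 : ac W t (c s) = c s + (ac W t (ac W s T) - ac W s T) - (ac W t T - T) := by
        rw [h3]
        abel
      rw [h4]
      abel
  rw [← sub_eq_zero]
  exact hd

/-- The class restricted to N' is again nonzero. -/
theorem non_up (W : WeierstrassCurve k) (p : ℕ) {N N' : IntermediateField k Ω} (hNN : N ≤ N')
    (hn : ∀ s ∈ N.fixingSubgroup, ∀ x ∈ N', s x ∈ N')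
    (ht : ∀ R : Pt W Ω, p • R = 0 → (∀ s ∈ N'.fixingSubgroup, ac W s R = R) → R = 0)
    (h : SelNon W p N) : SelNon W p N' := by
  have hle : ∀ s ∈ N'.fixingSubgroup, s ∈ N.fixingSubgroup := by
    intro s hs
    rw [IntermediateField.mem_fixingSubgroup_iff] at hs ⊢
    exact fun x hx => hs x (hNN hx)
  obtain ⟨c, hc, hp, hV, hno⟩ := h
  refine ⟨c, ⟨fun s hs t ht => hc.mul s (hle s hs) t (hle t ht), ?_⟩, fun s hs => hp s (hle s hs),
    fun V hVt => ?_, ?_⟩
  · obtain ⟨L, hL, hLc⟩ := hc.cont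
    exact ⟨L, hL, fun s hs hsL => hLc s (hle s hs) hsL⟩
  · obtain ⟨P, hP⟩ := hV V hVt
    exact ⟨P, fun s hs hI => hP s (hle s hs) hI⟩
  · rintro ⟨T, hT, hcT⟩
    exact hno ⟨T, hT, cob_down W p hNN hn ht hc.mul hp hT hcT⟩

end gen

open H55B (F O)

/-- Chunk YG7 (S). No p-torsion: the second part of H55P.sel_all (Fin.lean) does not need its ramification hypothesis: h0 from card_two and tors_of_prime, then tors_tower, W27O_base. -/
theorem no_tors {p : ℕ} (hp : p.Prime) (h5 : 5 ≤ p) {L₀ K : IntermediateField F FB} (hL : PExt p ⊥ L₀)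
    (hKL : K ≤ L₀) (R : Pt W27 FB) (hR : p • R = 0) (h : ∀ s ∈ K.fixingSubgroup, ac W27 s R = R) :
    R = 0 := by
  have hb : FiniteDimensional F (⊥ : IntermediateField F FB) := inferInstance
  have hbn : NumberField (⊥ : IntermediateField F FB) := H16C.FR_numberField _
  have h0 : ∀ T : Pt (W27O⁄F) FB, p • T = 0 →
      (∀ s ∈ (⊥ : IntermediateField F FB).fixingSubgroup, ac (W27O⁄F) s T = T) → T = 0 := by
    obtain ⟨v, h3, hpv, hc⟩ := card_two p hp h5 (⊥ : IntermediateField F FB) finrank_bot'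
    exact fun T hT hf => tors_of_prime W27O p hp ⊥ v (disc_notMem v h3) hpv hc T hT hf
  have h2 := tors_tower (W27O⁄F) p hp ⊥ L₀ hL h0 K hKL
  rw [W27O_base] at h2
  exact h2 R hR h

end H13Y
end

-- from Lib.H55K.FB1
section

/-! # H55K: fields inside the algebraic closure -/

open NumberField IsDedekindDomain WeierstrassCurve

namespace H55K.TQ

open H55P (IQ embF eF LF Per IsHecke Pt ac Inert Dec Nm UnitP)
open H35P (WAB Ker tt GoodW IntW)
open H55K.MG (VC Crd)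

/-- Chunk FB1 (S). Port of H55P.pext_range, rat_tower, alg_QFB (H55P/Fin.lean). -/
theorem tower_QFF (F : Type) [Field F] [NumberField F] : IsScalarTower ℚ F (AlgebraicClosure F) :=
  H55P.rat_tower F (AlgebraicClosure F)

theorem alg_QFF (F : Type) [Field F] [NumberField F] : Algebra.IsAlgebraic ℚ (AlgebraicClosure F) := by
  have h := tower_QFF F
  exact Algebra.IsAlgebraic.trans ℚ F (AlgebraicClosure F)

theorem pextF_range {F : Type} [Field F] [NumberField F] (p : ℕ) (hp : p.Prime) (L : Type) [Field L] [NumberField L] [Algebra F L] (hG : IsGalois F L)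
    (k : ℕ) (hk : Module.finrank F L = p ^ k) (j : L →ₐ[F] AlgebraicClosure F) : H55P.PExt p ⊥ j.fieldRange := by
  let E : L ≃ₐ[F] j.fieldRange := AlgEquiv.ofInjectiveField j
  have hfL : FiniteDimensional F L := Module.finite_of_finrank_pos (by rw [hk]; exact pow_pos hp.pos k)
  have hn : Normal F j.fieldRange := Normal.of_algEquiv E
  refine ⟨Module.Finite.equiv E.toLinearEquiv, bot_le, fun s _ x hx => ?_, k, ?_⟩
  · have h1 := (IntermediateField.normal_iff_forall_map_le' (K := j.fieldRange)).1 hn s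
    exact h1 ⟨x, hx, rfl⟩
  · rw [IntermediateField.finrank_bot, one_mul, ← hk]
    exact E.toLinearEquiv.finrank_eq.symm

/-- Chunk FB1 (S/M). The beginning of bsdP_of and crit_sub (H55P/Fin.lean, I7.lean): j : L → Ω over F, L' the range of j, ι = j composed with K → L. UnrP for the range: UnrP.down with the inverse isomorphism; RamF: H55P.ramF_range (Z13.lean). -/
theorem sub_setup {F : Type} [Field F] [NumberField F] [IQ F] (p : ℕ) (hp : p.Prime) (K L : Type) [Field K] [NumberField K] [Field L] [NumberField L]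
    [Algebra F L] [Algebra K L] (hG : IsGalois F L) (k : ℕ) (hk : Module.finrank F L = p ^ k) (hU : H55P.UnrP p L) :
    ∃ (L' : IntermediateField F (AlgebraicClosure F)) (_ : NumberField L') (ι : K →ₐ[ℚ] AlgebraicClosure F),
      H55P.PExt p ⊥ L' ∧ H55P.UnrP p L' ∧ KG F K ι ≤ L' ∧
      ∀ v : HeightOneSpectrum (𝓞 F), H55P.RamF L' v.asIdeal →
        ∃ w : HeightOneSpectrum (𝓞 L), v.asIdeal = w.asIdeal.under (𝓞 F) ∧ w.asIdeal.ramificationIdx (𝓞 F) ≠ 1 := by
  have hfL : FiniteDimensional F L := Module.finite_of_finrank_pos (by rw [hk]; exact pow_pos hp.pos k)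
  let j : L →ₐ[F] AlgebraicClosure F := IsAlgClosed.lift
  have hL : H55P.PExt p ⊥ j.fieldRange := pextF_range p hp L hG k hk j
  have hLf : FiniteDimensional F j.fieldRange := hL.fin
  have hLn : NumberField j.fieldRange := NumberField.of_module_finite F j.fieldRange
  let ι₀ : K →+* AlgebraicClosure F := j.toRingHom.comp (algebraMap K L)
  let ι : K →ₐ[ℚ] AlgebraicClosure F := ι₀.toRatAlgHom
  refine ⟨j.fieldRange, hLn, ι, hL, ?_, ?_, fun v h => H55P.ramF_range L j v h⟩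
  · letI : Algebra j.fieldRange L :=
      (AlgEquiv.ofInjectiveField j).symm.toRingEquiv.toRingHom.toAlgebra
    exact H55P.UnrP.down j.fieldRange L p hp hU
  · unfold KG
    rw [IntermediateField.adjoin_le_iff]
    rintro _ ⟨x, rfl⟩
    exact ⟨algebraMap K L x, rfl⟩

end H55K.TQ
end

-- from Lib.H55K.G8C
section

/-! # H55K: Frobenius elements: the generator -/

open NumberField IsDedekindDomain WeierstrassCurve

namespace H55K

open H55P (IQ embF eF LF Per IsHecke Pt ac Inert Dec Nm)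
open H35P (WAB Ker tt)


variable {F : Type} [Field F] [NumberField F] [IQ F] {A B : F} {Om : ℂ} {Ω : Type} [Field Ω] [DecidableEq Ω]
  [Algebra F Ω] {j : Ω →+* ℂ} {act : 𝓞 F →+* AddMonoid.End (Pt (WAB A B) Ω)} {V : ValuationSubring Ω}

omit [NumberField F] [IQ F] [DecidableEq Ω] in
theorem g8c_dec {q : ℕ} (hq : 0 < q) (s : Ω ≃ₐ[F] Ω) (hs : ∀ x ∈ V, V.valuation (s x - x ^ q) < 1) : Dec V s := by
  have h1 : ∀ x ∈ V, s x ∈ V := by
    intro x hx
    have e : s x = (s x - x ^ q) + x ^ q := by ring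
    rw [e]
    exact V.add_mem _ _ ((V.valuation_le_one_iff _).1 (hs x hx).le) (pow_mem hx q)
  intro x
  refine ⟨fun hx => ?_, h1 x⟩
  by_contra hc
  have h2 : 1 < V.valuation x := by
    rw [← not_le, V.valuation_le_one_iff]
    exact hc
  have hx0 : x ≠ 0 := by
    rintro rfl
    exact hc V.zero_mem
  have h3 : V.valuation x⁻¹ < 1 := by
    rw [map_inv₀]
    exact inv_lt_one_of_one_lt₀ h2
  have h4 : V.valuation (s x⁻¹) < 1 := by
    have h5 := hs x⁻¹ ((V.valuation_le_one_iff _).1 h3.le)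
    have h6 : V.valuation (x⁻¹ ^ q) < 1 := by
      rw [map_pow]
      exact pow_lt_one₀ zero_le h3 hq.ne'
    have e : s x⁻¹ = (s x⁻¹ - x⁻¹ ^ q) + x⁻¹ ^ q := by ring
    rw [e]
    exact V.valuation.map_add_lt h5 h6
  have h7 : V.valuation (s x) * V.valuation (s x⁻¹) = 1 := by
    rw [← map_mul, ← map_mul, mul_inv_cancel₀ hx0, map_one, map_one]
  have h8 : V.valuation (s x) * V.valuation (s x⁻¹) < 1 := by
    rw [mul_comm]
    exact mul_lt_one_of_lt_of_le h4 ((V.valuation_le_one_iff _).2 hx)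
  rw [h7] at h8
  exact lt_irrefl _ h8

/-- Chunk G8C (M). THE FROBENIUS ELEMENT IS A MULTIPLICATION. κ from frob_x, u from unit_sq (zero_A, zero_B; not A = B = 0 by h.disc). β' = u⁻¹ β: xc (β' X) = u^2 xc (βX) (act_unit_x), so V(xc (β'X) - xc X^q) < 1 for X not in Ker. hs: V(xc (sX) - xc X^q) < 1, V(yc (sX) - yc X^q) < 1 (xc_ac, yc_ac; xc X, yc X in V: not_ker, gv_y).
So xc (β'X), xc (sX) are congruent, both points are not in Ker (ker_red, ker_ac; hs implies Dec V s: x in V implies s x in V, and conversely if s x in V and x not in V then 1/x has value < 1 and so has s (1/x)): cls_x: β'X - sX or β'X + sX in Ker. For X in Ker both β'X and sX are in Ker (ker_act, ker_ac). two_sub with K = kerG: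
γ = β' or γ = -β'. -/
theorem frob_gen (h : CMA F A B Om j act) (hV : GV A B V) {β : 𝓞 F} (hβ : Prime β)
    (hv : V.valuation (ak Ω β) < 1) (hq : (Nm β).Prime)
    (hA : A = 0 ∨ V.valuation (algebraMap F Ω A) = 1) (hB : B = 0 ∨ V.valuation (algebraMap F Ω B) = 1)
    (s : Ω ≃ₐ[F] Ω) (hs : ∀ x ∈ V, V.valuation (s x - x ^ Nm β) < 1) :
    ∃ γ : 𝓞 F, Associated β γ ∧ ∀ X : Pt (WAB A B) Ω, Ker V (act γ X - ac (WAB A B) s X) := by
  obtain ⟨κ, hκ, hx, h2, h3⟩ := frob_x h hV hβ hv hq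
  have hAB : ¬(A = 0 ∧ B = 0) := by
    rintro ⟨rfl, rfl⟩
    apply h.disc
    ring
  obtain ⟨u, hu⟩ := unit_sq V hA hB hAB (fun hA0 => zero_A h.per hA0) (fun hB0 => zero_B h.per hB0) κ hκ h2 h3
  have hDec : Dec V s := g8c_dec hq.pos s hs
  have hmul : ∀ (a b : 𝓞 F) (X : Pt (WAB A B) Ω), act (a * b) X = act a (act b X) := by
    intro a b X
    rw [map_mul]
    rfl
  set β' : 𝓞 F := ((u⁻¹ : (𝓞 F)ˣ) : 𝓞 F) * β with hβ'
  have hβx : ∀ X : Pt (WAB A B) Ω, xc (act β' X) = ak Ω (u : 𝓞 F) ^ 2 * xc (act β X) := by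
    intro X
    have e1 := act_unit_x h u⁻¹ (act β X)
    have e2 : ak Ω (u : 𝓞 F) * ak Ω ((u⁻¹ : (𝓞 F)ˣ) : 𝓞 F) = 1 := by
      have e3 : (u : 𝓞 F) * ((u⁻¹ : (𝓞 F)ˣ) : 𝓞 F) = 1 := Units.mul_inv u
      have e5 : ak Ω ((u : 𝓞 F) * ((u⁻¹ : (𝓞 F)ˣ) : 𝓞 F)) = ak Ω (u : 𝓞 F) * ak Ω ((u⁻¹ : (𝓞 F)ˣ) : 𝓞 F) := by
        unfold ak
        rw [← map_mul, ← map_mul]
      rw [← e5, e3]
      exact (congrArg (algebraMap F Ω) (map_one (algebraMap (𝓞 F) F))).trans (map_one _)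
    rw [hβ', hmul, ← e1]
    linear_combination (-(1 + ak Ω (u : 𝓞 F) * ak Ω ((u⁻¹ : (𝓞 F)ˣ) : 𝓞 F)) *
      xc (act ((u⁻¹ : (𝓞 F)ˣ) : 𝓞 F) (act β X))) * e2
  have hkey : ∀ X : Pt (WAB A B) Ω, ¬ Ker V X →
      Ker V (act β' X - ac (WAB A B) s X) ∨ Ker V (act β' X + ac (WAB A B) s X) := by
    intro X hX
    have n1 : ¬ Ker V (act β X) := fun h' => hX (ker_red h hV hβ hv h')
    have n2 : ¬ Ker V (act β' X) := by
      intro h'
      apply n1
      have := ker_act h hV (u : 𝓞 F) h'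
      rw [← hmul, hβ', ← mul_assoc, Units.mul_inv, one_mul] at this
      exact this
    have n3 : ¬ Ker V (ac (WAB A B) s X) := fun h' => hX ((ker_ac s hDec).1 h')
    refine cls_x hV n2 n3 ?_
    have v1 := hx X hX
    have v2 : V.valuation ((κ - ak Ω (u : 𝓞 F) ^ 2) * xc (act β X)) < 1 := by
      rw [map_mul]
      exact mul_lt_one_of_lt_of_le hu (not_ker V n1).2
    have v3 : V.valuation (s (xc X) - xc X ^ Nm β) < 1 :=
      hs _ ((V.valuation_le_one_iff _).1 (not_ker V hX).2)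
    have e : xc (act β' X) - xc (ac (WAB A B) s X) = (κ * xc (act β X) - xc X ^ Nm β) -
        (κ - ak Ω (u : 𝓞 F) ^ 2) * xc (act β X) - (s (xc X) - xc X ^ Nm β) := by
      rw [hβx, xc_ac]
      ring
    rw [e]
    exact (V.valuation.map_sub_lt (V.valuation.map_sub_lt v1 v2) v3)
  have hall : ∀ X : Pt (WAB A B) Ω, (act β' X - ac (WAB A B) s X ∈ kerG hV) ∨
      (act β' X + ac (WAB A B) s X ∈ kerG hV) := by
    intro X
    by_cases hX : Ker V X
    · left
      exact ksub hV (ker_act h hV _ hX) ((ker_ac s hDec).2 hX)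
    · exact hkey X hX
  rcases two_sub (kerG hV) (act β' : Pt (WAB A B) Ω →+ Pt (WAB A B) Ω) (ac (WAB A B) s) hall with h5 | h5
  · refine ⟨β', ⟨u⁻¹, mul_comm _ _⟩, fun X => h5 X⟩
  · refine ⟨-β', ?_, fun X => ?_⟩
    · exact Associated.neg_right ⟨u⁻¹, mul_comm _ _⟩
    · have e : act (-β') X - ac (WAB A B) s X = -(act β' X + ac (WAB A B) s X) := by
        rw [map_neg]
        change -(act β' X) - ac (WAB A B) s X = _
        abel
      rw [e]
      exact kneg (h5 X)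

end H55K
end

-- from Lib.H55K.G10C
section

/-! # H55K: the Frobenius elements are the values of the Hecke character -/

open NumberField IsDedekindDomain WeierstrassCurve

namespace H55K

open H55P (IQ embF eF LF Per IsHecke Pt ac Inert Dec Nm)
open H35P (WAB Ker tt)


variable {F : Type} [Field F] [NumberField F] [IQ F] {A B : F} {Om : ℂ} {Ω : Type} [Field Ω] [DecidableEq Ω]
  [Algebra F Ω] {j : Ω →+* ℂ} {act : 𝓞 F →+* AddMonoid.End (Pt (WAB A B) Ω)} {V : ValuationSubring Ω}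

/-- Chunk G10C (M). Assembly. S = the union of the finite sets for the elements 2, 3, 4A^3 + 27B^2, A (if ≠ 0), B (if ≠ 0), Δ(W₀) (fin_unit; V(Δ) = 1 excludes Δ in v), gam_eq and the primes containing m (finite, m ≠ bottom: h.hecke ne; Ideal.finite_factors). For v outside S, V above v: GV A B V. -/
theorem gv_fin (hd : 4 * A ^ 3 + 27 * B ^ 2 ≠ 0) (Ω : Type) [Field Ω] [Algebra F Ω] :
    ∃ S : Set (HeightOneSpectrum (𝓞 F)), S.Finite ∧ ∀ v ∉ S, ∀ V : ValuationSubring Ω,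
      (∀ a : 𝓞 F, a ∈ v.asIdeal → V.valuation (ak Ω a) < 1) → GV A B V ∧
        (A = 0 ∨ V.valuation (algebraMap F Ω A) = 1) ∧ (B = 0 ∨ V.valuation (algebraMap F Ω B) = 1) := by
  have hfin : ∀ x : F, ∃ S : Set (HeightOneSpectrum (𝓞 F)), S.Finite ∧ ∀ v ∉ S, ∀ V : ValuationSubring Ω,
      (∀ a : 𝓞 F, a ∈ v.asIdeal → V.valuation (ak Ω a) < 1) →
        x = 0 ∨ V.valuation (algebraMap F Ω x) = 1 := by
    intro x
    by_cases hx : x = 0
    · exact ⟨∅, Set.finite_empty, fun _ _ _ _ => Or.inl hx⟩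
    · obtain ⟨S, hS, h⟩ := fin_unit Ω x hx
      exact ⟨S, hS, fun v hv V hV => Or.inr (h v hv V hV)⟩
  obtain ⟨S₁, f₁, g₁⟩ := hfin A
  obtain ⟨S₂, f₂, g₂⟩ := hfin B
  obtain ⟨S₃, f₃, g₃⟩ := hfin 2
  obtain ⟨S₄, f₄, g₄⟩ := hfin 3
  obtain ⟨S₅, f₅, g₅⟩ := hfin (4 * A ^ 3 + 27 * B ^ 2)
  refine ⟨S₁ ∪ S₂ ∪ S₃ ∪ S₄ ∪ S₅, (((f₁.union f₂).union f₃).union f₄).union f₅, fun v hv V hV => ?_⟩
  simp only [Set.mem_union, not_or] at hv
  obtain ⟨⟨⟨⟨v₁, v₂⟩, v₃⟩, v₄⟩, v₅⟩ := hv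
  have c₁ := g₁ v v₁ V hV
  have c₂ := g₂ v v₂ V hV
  have c₃ := (g₃ v v₃ V hV).resolve_left two_ne_zero
  have c₄ := (g₄ v v₄ V hV).resolve_left three_ne_zero
  have c₅ := (g₅ v v₅ V hV).resolve_left hd
  rw [map_ofNat] at c₃ c₄
  have hmem : ∀ x : F, (x = 0 ∨ V.valuation (algebraMap F Ω x) = 1) → algebraMap F Ω x ∈ V := by
    rintro x (rfl | h)
    · rw [map_zero]
      exact V.zero_mem
    · exact (V.valuation_le_one_iff _).1 h.le
  exact ⟨⟨hmem A c₁, hmem B c₂, c₃, c₄, c₅⟩, c₁, c₂⟩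

/-- Chunk G10C. THE VALUES OF ψ ARE THE FROBENIUS ELEMENTS. v outside the finite set, of degree one, prime to m, v = span {ψ v} (hecke.gen, v coprime to m), β = ψ v prime, Nm β = absNorm v. frob_gen: γ associated to β, Ker V (γX - sX) for all X. red_card and cls_card for b = γ - 1 (V(γ) < 1, so V(γ - 1) = 1; Ker V (sX - X) iff
Ker V (act (γ - 1) X)): Nm (γ - 1) = number of points of W₀ = Nm (1 - ψ v) (hDeu). gam_eq: γ = ψ v. For n • T = 0, V(n) = 1: n • (γT - sT) = 0, ker_tors: γT = sT. -/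
theorem dta_frob [IsAlgClosed Ω] (h : CMA F A B Om j act) (W₀ : WeierstrassCurve (𝓞 F))
    (hA : A = -(algebraMap (𝓞 F) F W₀.c₄) / 48) (hB : B = -(algebraMap (𝓞 F) F W₀.c₆) / 864)
    (hΔ : W₀.Δ ≠ 0) (m : Ideal (𝓞 F)) (ψ : Ideal (𝓞 F) →*₀ 𝓞 F) (hψ : IsHecke m ψ)
    (hDeu : ∀ v : HeightOneSpectrum (𝓞 F), W₀.Δ ∉ v.asIdeal → ¬ m ≤ v.asIdeal →
      Nat.card (W₀⁄(𝓞 F ⧸ v.asIdeal)).toAffine.Point = Nm (1 - ψ v.asIdeal)) :
    ∃ S : Set (HeightOneSpectrum (𝓞 F)), S.Finite ∧ ∀ v ∉ S, (Ideal.absNorm v.asIdeal).Prime →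
    ∀ V : ValuationSubring Ω, (∀ a : 𝓞 F, a ∈ v.asIdeal → V.valuation (ak Ω a) < 1) →
      ∀ s : Ω ≃ₐ[F] Ω, (∀ x ∈ V, V.valuation (s x - x ^ Ideal.absNorm v.asIdeal) < 1) →
        ∀ n : ℕ, V.valuation (n : Ω) = 1 → ∀ T : Pt (WAB A B) Ω, n • T = 0 →
          ac (WAB A B) s T = act (ψ v.asIdeal) T := by
  obtain ⟨S₁, f₁, g₁⟩ := gv_fin (A := A) (B := B) h.disc Ω
  obtain ⟨S₂, f₂, g₂⟩ := gam_eq F
  have hΔ' : ((W₀.Δ : 𝓞 F) : F) ≠ 0 := fun h0 => hΔ (RingOfIntegers.coe_injective (h0.trans (map_zero (algebraMap (𝓞 F) F)).symm))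
  obtain ⟨S₃, f₃, g₃⟩ := fin_unit Ω ((W₀.Δ : 𝓞 F) : F) hΔ'
  have f₄ : {v : HeightOneSpectrum (𝓞 F) | v.asIdeal ∣ m}.Finite := Ideal.finite_factors hψ.ne
  refine ⟨S₁ ∪ S₂ ∪ S₃ ∪ {v | v.asIdeal ∣ m}, ((f₁.union f₂).union f₃).union f₄,
    fun v hv hpr V hV s hs n hn T hT => ?_⟩
  simp only [Set.mem_union, not_or] at hv
  obtain ⟨⟨⟨v₁, v₂⟩, v₃⟩, v₄⟩ := hv
  obtain ⟨hG, hA', hB'⟩ := g₁ v v₁ V hV
  have hΔv : W₀.Δ ∉ v.asIdeal := by
    intro h0
    have h1 := hV _ h0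
    have h2 := g₃ v v₃ V hV
    rw [h2] at h1
    exact lt_irrefl _ h1
  have hmv : ¬ m ≤ v.asIdeal := fun h0 => v₄ (Ideal.dvd_iff_le.2 h0)
  have hcop : IsCoprime v.asIdeal m := by
    rw [Ideal.isCoprime_iff_sup_eq]
    by_contra hne
    have h1 := v.isMaximal.eq_of_le hne le_sup_left
    exact hmv (by rw [h1]; exact le_sup_right)
  have hgen : Ideal.span {ψ v.asIdeal} = v.asIdeal := hψ.gen _ hcop
  have hβ0 : ψ v.asIdeal ≠ 0 := by
    intro h0
    apply v.ne_bot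
    rw [← hgen, h0, Ideal.span_singleton_eq_bot]
  have hβ : Prime (ψ v.asIdeal) := by
    rw [← Ideal.span_singleton_prime hβ0, hgen]
    exact v.isPrime
  have hβv : ψ v.asIdeal ∈ v.asIdeal := by
    have h1 := Ideal.mem_span_singleton_self (ψ v.asIdeal)
    rw [hgen] at h1
    exact h1
  have hNm : Nm (ψ v.asIdeal) = Ideal.absNorm v.asIdeal := by
    unfold Nm
    rw [hgen]
  obtain ⟨γ, hγ, hker⟩ := frob_gen h hG hβ (hV _ hβv) (by rw [hNm]; exact hpr) hA' hB' s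
    (by rw [hNm]; exact hs)
  have hγv : V.valuation (ak Ω γ) < 1 := hV _ (by
    obtain ⟨u, hu⟩ := hγ
    rw [← hu]
    exact Ideal.mul_mem_right _ _ hβv)
  have hγ1 : V.valuation (ak Ω (γ - 1)) = 1 := by
    have e : ak Ω (γ - 1) = -(1 - ak Ω γ) := by
      have e1 : ((γ - 1 : 𝓞 F) : F) = (γ : F) - 1 := by
        have := map_sub (algebraMap (𝓞 F) F) γ 1
        rw [map_one] at this
        exact this
      unfold ak
      rw [e1, map_sub, map_one]
      ring
    rw [e, Valuation.map_neg]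
    have h1 := V.valuation.map_sub_eq_of_lt_right (x := ak Ω γ) (y := (1 : Ω)) (by rw [map_one]; exact hγv)
    rw [← h1.trans (map_one _)]
    exact Valuation.map_sub_swap _ _ _
  have hc1 := red_card hG W₀ hA hB v hΔv hV s hs
  have hc2 := cls_card h hG hγ1
  have hiff : ∀ X : Pt (WAB A B) Ω, Ker V (ac (WAB A B) s X - X) ↔ Ker V (act (γ - 1) X) := by
    intro X
    have e : act (γ - 1) X = act γ X - X := by
      rw [map_sub, map_one]
      rfl
    rw [e]
    constructor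
    · intro h1
      have e2 : act γ X - X = (act γ X - ac (WAB A B) s X) + (ac (WAB A B) s X - X) := by abel
      rw [e2]
      exact kadd hG (hker X) h1
    · intro h1
      have e2 : ac (WAB A B) s X - X = (act γ X - X) - (act γ X - ac (WAB A B) s X) := by abel
      rw [e2]
      exact ksub hG h1 (hker X)
  have hN : Nm (γ - 1) = Nm (1 - ψ v.asIdeal) := by
    rw [← hc2, ← hDeu v hΔv hmv, hc1]
    simp only [hiff]
  have hγψ : γ = ψ v.asIdeal := g₂ v v₂ hpr _ _ hgen hγ hN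
  have hK := hker T
  have hz : n • (act γ T - ac (WAB A B) s T) = 0 := by
    rw [smul_sub, ← map_nsmul, ← map_nsmul, hT, map_zero, map_zero, sub_zero]
  have h0 := ker_tors hG n hn hz hK
  rw [← hγψ]
  exact (sub_eq_zero.1 h0).symm

end H55K
end

-- from Lib.H55K.Y5
section

/-! # H55K: the complete data exist -/

open NumberField IsDedekindDomain WeierstrassCurve

namespace H55K

open H55P (IQ embF eF LF Per IsHecke Pt ac Inert Dec Nm CMData)
open H35P (WAB Ker tt)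

/-- The hypotheses of the base theorem: W₀ is a curve over the integers of F with complex multiplication by the integers of F, with
integral j-invariant, whose numbers of points are given by the Hecke character ψ of modulus m; p ≥ 5 is a prime number,
unramified in F, prime to the discriminant of W₀ and to m. -/
structure Base (F : Type) [Field F] [NumberField F] [IQ F] (W₀ : WeierstrassCurve (𝓞 F)) (Om : ℂ)
    (m : Ideal (𝓞 F)) (ψ : Ideal (𝓞 F) →*₀ 𝓞 F) (p : ℕ) : Prop where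
  data : CMData F W₀ Om m ψ
  jint : ∃ j₀ : 𝓞 F, W₀.c₄ ^ 3 = j₀ * W₀.Δ
  deu : ∀ v : HeightOneSpectrum (𝓞 F), W₀.Δ ∉ v.asIdeal → ¬ m ≤ v.asIdeal →
    Nat.card (W₀⁄(𝓞 F ⧸ v.asIdeal)).toAffine.Point = Nm (1 - ψ v.asIdeal)
  prime : p.Prime
  five : 5 ≤ p
  unr : ∀ v : HeightOneSpectrum (𝓞 F), (p : 𝓞 F) ∉ v.asIdeal ^ 2
  cop : IsCoprime (Ideal.span {W₀.Δ} * m) (Ideal.span {(p : 𝓞 F)})

variable {F : Type} [Field F] [NumberField F] [IQ F] {W₀ : WeierstrassCurve (𝓞 F)} {Om : ℂ}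
    {m : Ideal (𝓞 F)} {ψ : Ideal (𝓞 F) →*₀ 𝓞 F} {p : ℕ} {Ω : Type} [Field Ω] [Algebra F Ω]

/-- The complete data. -/
theorem mk_Dta [DecidableEq Ω] [IsAlgClosure F Ω] [IsAlgClosed Ω] (hB : Base F W₀ Om m ψ p) {A B : F}
    (hA : A = -(algebraMap (𝓞 F) F W₀.c₄) / 48) (hB' : B = -(algebraMap (𝓞 F) F W₀.c₆) / 864) {j : Ω →+* ℂ}
    {act : 𝓞 F →+* AddMonoid.End (Pt (WAB A B) Ω)} (hC : CMA F A B Om j act)
    (hG : ∀ V : ValuationSubring Ω, ∃ (Kg : AddSubgroup (Pt (WAB A B) Ω)) (u : Ω), GMod (WAB A B) V Kg u) :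
    Dta A B Om j act m ψ p where
  cma := hC
  hecke := hB.data.hecke
  prime := hB.prime
  five := hB.five
  unr := hB.unr
  cop := hB.cop.of_mul_left_right
  good := fun V hV => gv_l hB.prime hB.five W₀ hB.cop.of_mul_left_left hA hB' V hV
  gmod := hG
  fin := by
    obtain ⟨S, hS, h⟩ := gv_fin (A := A) (B := B) hC.disc Ω
    exact ⟨S, hS, fun v hv V hV => (h v hv V hV).1⟩
  frob := dta_frob hC W₀ hA hB' hB.data.ell m ψ hB.data.hecke hB.deu

end H55K
end

-- from Lib.H55K.BH1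
section

/-! # H55K: the hypotheses on the curve and the prime number -/

open NumberField IsDedekindDomain WeierstrassCurve

namespace H55K.TQ

open H55P (IQ embF eF LF Per IsHecke Pt ac Inert Dec Nm UnitP)
open H35P (WAB Ker tt GoodW IntW)
open H55K.MG (VC Crd)

variable {F : Type} [Field F] [NumberField F] [IQ F] {W₀ : WeierstrassCurve (𝓞 F)} {Om : ℂ}
    {m : Ideal (𝓞 F)} {ψ : Ideal (𝓞 F) →*₀ 𝓞 F} {p : ℕ}

theorem BH1_ne {F : Type} [Field F] [NumberField F] {p : ℕ} (hp : p.Prime) : (p : 𝓞 F) ≠ 0 := by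
  exact_mod_cast hp.ne_zero

/-- Chunk BH1 (S/M). Squarefree (p) in the Dedekind domain 𝓞 F iff p is in no v^2. -/
theorem unr_iff {F : Type} [Field F] [NumberField F] {p : ℕ} (hp : p.Prime) :
    H55P.UnrP p F ↔ ∀ v : HeightOneSpectrum (𝓞 F), (p : 𝓞 F) ∉ v.asIdeal ^ 2 := by
  constructor
  · intro h v hv
    have h1 : v.asIdeal * v.asIdeal ∣ Ideal.span {(p : 𝓞 F)} := by
      rw [Ideal.dvd_iff_le, Ideal.span_singleton_le_iff_mem, ← pow_two]
      exact hv
    have h2 := h _ h1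
    rw [Ideal.isUnit_iff] at h2
    exact v.isPrime.ne_top h2
  · intro h x hx
    rw [Ideal.isUnit_iff]
    by_contra hne
    obtain ⟨M, hM, hle⟩ := Ideal.exists_le_maximal x hne
    have hx0 : x ≠ ⊥ := by
      rintro rfl
      rw [Ideal.dvd_iff_le, Ideal.span_singleton_le_iff_mem] at hx
      have h1 : (p : 𝓞 F) ∈ (⊥ : Ideal (𝓞 F)) := Ideal.mul_le_left hx
      exact BH1_ne hp (Ideal.mem_bot.1 h1)
    have hM0 : M ≠ ⊥ := by
      rintro rfl
      exact hx0 (le_bot_iff.1 hle)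
    apply h ⟨M, hM.isPrime, hM0⟩
    have h2 : M ^ 2 ∣ Ideal.span {(p : 𝓞 F)} := by
      refine dvd_trans ?_ hx
      rw [pow_two]
      exact mul_dvd_mul (Ideal.dvd_iff_le.2 hle) (Ideal.dvd_iff_le.2 hle)
    rw [Ideal.dvd_iff_le, Ideal.span_singleton_le_iff_mem] at h2
    exact h2

/-- Chunk BH1 (S/M). jint from JE.lean (jint_of); deu: Δ not in v; cop: Δ is coprime to p, and m as well: a maximal ideal containing m and p is some v (m ≠ bottom is not needed: p ≠ 0), Δ in v by supp, contradiction to the coprimality; so m ⊔ (p) = ⊤. -/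
theorem base_of (hH : BaseH F W₀ Om m ψ) (hp : PrimeH F W₀ p) : Base F W₀ Om m ψ p := by
  refine ⟨hH.data, jint_of hH.data.per hH.data.ell, fun v h _ => hH.deu v h, hp.prime, hp.five,
    (unr_iff hp.prime).1 hp.unr, IsCoprime.mul_left hp.cop ?_⟩
  rw [Ideal.isCoprime_iff_sup_eq]
  by_contra hne
  obtain ⟨M, hM, hle⟩ := Ideal.exists_le_maximal _ hne
  have hpM : (p : 𝓞 F) ∈ M := hle (Ideal.mem_sup_right (Ideal.mem_span_singleton_self _))
  have hmM : m ≤ M := le_sup_left.trans hle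
  have hM0 : M ≠ ⊥ := by
    rintro rfl
    exact BH1_ne hp.prime (Ideal.mem_bot.1 hpM)
  have hΔ : W₀.Δ ∈ M := (hH.supp ⟨M, hM.isPrime, hM0⟩).2 hmM
  have h1 := Ideal.isCoprime_iff_sup_eq.1 hp.cop
  apply hM.ne_top
  rw [← top_le_iff, ← h1]
  exact sup_le ((Ideal.span_singleton_le_iff_mem _).2 hΔ) ((Ideal.span_singleton_le_iff_mem _).2 hpM)

end H55K.TQ
end

-- from Lib.H55K.FB9A
section

/-! # H55K: Selmer groups over K -/

open NumberField IsDedekindDomain WeierstrassCurve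

namespace H55K.TQ

open H55P (IQ embF eF LF Per IsHecke Pt ac Inert Dec Nm UnitP)
open H35P (WAB Ker tt GoodW IntW)
open H55K.MG (VC Crd)

variable {F : Type} [Field F] [NumberField F] [IQ F] {W : WeierstrassCurve ℤ} {Om : ℂ}
    {m : Ideal (𝓞 F)} {ψ : Ideal (𝓞 F) →*₀ 𝓞 F} {p : ℕ}

/-- Chunk FB9A (S/M). exists_goodG (Y7), tors_of_prime, tors_tower (H55P/S14.lean), as in gen_sel (H55P/Gen.lean). -/
theorem tors_K {W₀ : WeierstrassCurve (𝓞 F)} (hH : BaseH F W₀ Om m ψ) (hp : PrimeH F W₀ p) {L K : IntermediateField F (AlgebraicClosure F)}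
    [DecidableEq (AlgebraicClosure F)] (hL : H55P.PExt p ⊥ L) (hK : K ≤ L) (T : Pt (W₀⁄F) (AlgebraicClosure F)) (hT : p • T = 0)
    (hf : ∀ s ∈ K.fixingSubgroup, ac (W₀⁄F) s T = T) : T = 0 := by
  have hb := base_of hH hp
  have hbn : NumberField (⊥ : IntermediateField F (AlgebraicClosure F)) := H16C.FR_numberField _
  obtain ⟨v, hv⟩ := exists_goodG hp.prime hp.five hb.unr hH.data.hecke W₀ hH.data.ell
    hb.cop.of_mul_left_right hb.deu
  have hE : (W₀⁄F).IsElliptic := by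
    have e : (W₀⁄F).Δ = algebraMap (𝓞 F) F W₀.Δ := W₀.map_Δ (algebraMap (𝓞 F) F)
    rw [WeierstrassCurve.isElliptic_iff, e]
    exact IsUnit.mk0 _ fun h0 =>
      hH.data.ell ((map_eq_zero_iff _ (FaithfulSMul.algebraMap_injective (𝓞 F) F)).1 h0)
  exact H55P.tors_tower (W₀⁄F) p hp.prime ⊥ L hL
    (fun T hT hf => H55P.tors_of_prime W₀ p hp.prime ⊥ v hv.disc hv.res hv.pts T hT hf) K hK T hT hf

end H55K.TQ
end

-- from Lib.H55K.FB9B
section

/-! # H55K: Selmer groups over K -/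

open NumberField IsDedekindDomain WeierstrassCurve

namespace H55K.TQ

open H55P (IQ embF eF LF Per IsHecke Pt ac Inert Dec Nm UnitP)
open H35P (WAB Ker tt GoodW IntW)
open H55K.MG (VC Crd)

variable {F : Type} [Field F] [NumberField F] [IQ F] {W : WeierstrassCurve ℤ} {Om : ℂ}
    {m : Ideal (𝓞 F)} {ψ : Ideal (𝓞 F) →*₀ 𝓞 F} {p : ℕ}

theorem fb9b_map {A B : Type} [CommRing A] [CommRing B] [Algebra A B] (W : WeierstrassCurve ℤ) :
    (W⁄A)⁄B = W⁄B :=
  (WeierstrassCurve.map_map W (algebraMap ℤ A) (algebraMap A B)).trans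
    (congrArg W.map (RingHom.ext_int _ _))

open Classical in
/-- The groups of points over K and over its image. -/
theorem fb9b_pts {Ω : Type} [Field Ω] [Algebra ℚ Ω] (W : WeierstrassCurve ℚ) (K : Type) [Field K] [Algebra ℚ K]
    (ι : K →ₐ[ℚ] Ω) (p : ℕ)
    (h : Finite (Pt W ι.fieldRange) ∧ ¬ p ∣ Nat.card (Pt W ι.fieldRange)) :
    Finite (Pt W K) ∧ ¬ p ∣ Nat.card (Pt W K) := by
  let e0 : K →+* ι.fieldRange :=
    { toFun := fun x => ⟨ι x, ⟨x, rfl⟩⟩
      map_one' := Subtype.ext (map_one ι)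
      map_mul' := fun x y => Subtype.ext (map_mul ι x y)
      map_zero' := Subtype.ext (map_zero ι)
      map_add' := fun x y => Subtype.ext (map_add ι x y) }
  have hs : Function.Surjective e0 := by
    rintro ⟨_, y, rfl⟩
    exact ⟨y, rfl⟩
  let e1 : K ≃+* ι.fieldRange := RingEquiv.ofBijective e0 ⟨e0.injective, hs⟩
  have e : K ≃ₐ[ℚ] ι.fieldRange := AlgEquiv.ofRingEquiv (f := e1) (fun q => by
    rw [eq_ratCast, map_ratCast, eq_ratCast])
  have h1 : Function.Injective (Affine.Point.map (W' := W.toAffine) e.toAlgHom) :=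
    Affine.Point.map_injective _
  have h2 : Function.Injective (Affine.Point.map (W' := W.toAffine) e.symm.toAlgHom) :=
    Affine.Point.map_injective _
  have hf : Finite (Pt W K) := by
    have := h.1
    exact Finite.of_injective _ h1
  refine ⟨hf, ?_⟩
  have := h.1
  have h3 : Nat.card (Pt W K) = Nat.card (Pt W ι.fieldRange) :=
    le_antisymm (Nat.card_le_card_of_injective _ h1) (Nat.card_le_card_of_injective _ h2)
  rw [h3]
  exact h.2

/-- Chunk FB9B (M). As in H55P.bsdP_of (Fin.lean), with W⁄ℚ for E27: sel_base, tors_base, sel_down (Z11.lean) with kg_le, kg_norm (RP1.lean) and tors_K, sel_transport, sha_transport, sha_zero, pts_fin, pts_congr. The curves (W⁄ℚ)⁄F and (W⁄(𝓞 F))⁄F agree (map_map), also (W⁄ℚ)⁄K = W⁄K. -/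
theorem sel_abs (hH : BaseH F (W⁄(𝓞 F)) Om m ψ) (hp : PrimeH F (W⁄(𝓞 F)) p) {L : IntermediateField F (AlgebraicClosure F)}
    (hL : H55P.PExt p ⊥ L) (K : Type) [Field K] [NumberField K] (ι : K →ₐ[ℚ] AlgebraicClosure F) (hK : KG F K ι ≤ L)
    (hS : H55P.SelG p (W⁄(𝓞 F)) (KG F K ι)) :
    H55P.SelTriv (W⁄K) p ∧ H55P.ShaTriv (W⁄K) p ∧
      Finite (W⁄K).toAffine.Point ∧ ¬ p ∣ Nat.card (W⁄K).toAffine.Point := by
  classical
  have hQF := tower_QFF F
  have hQA := alg_QFF F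
  have hLf : FiniteDimensional F L := hL.fin
  have hK'f : FiniteDimensional F (KG F K ι) := H55P.finDim_of_le hK
  have hd : W.Δ ≠ 0 := by
    intro h
    apply hH.data.ell
    have e := WeierstrassCurve.map_Δ W (algebraMap ℤ (𝓞 F))
    rw [h, map_zero] at e
    exact e
  have hell : (W⁄ℚ).IsElliptic := by
    rw [WeierstrassCurve.isElliptic_iff]
    have e := WeierstrassCurve.map_Δ W (algebraMap ℤ ℚ)
    refine IsUnit.mk0 _ ?_
    intro h
    apply hd
    have h1 : (algebraMap ℤ ℚ) W.Δ = 0 := e.symm.trans h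
    rw [eq_intCast] at h1
    exact_mod_cast h1
  have e1 : ((W⁄ℚ)⁄F) = ((W⁄(𝓞 F))⁄F) := by
    rw [fb9b_map, fb9b_map]
  have hS0 : H55P.SelZero ((W⁄ℚ)⁄F) p (KG F K ι) := by
    rw [e1]
    exact hS
  have hS1 : H55P.SelZero (W⁄ℚ) p ((KG F K ι).restrictScalars ℚ) :=
    H55P.sel_base (F := F) (W⁄ℚ) p (KG F K ι) hS0
  have hT0 : ∀ T : Pt ((W⁄ℚ)⁄F) (AlgebraicClosure F), p • T = 0 →
      (∀ s ∈ (KG F K ι).fixingSubgroup, ac ((W⁄ℚ)⁄F) s T = T) → T = 0 := by
    rw [e1]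
    exact tors_K hH hp hL hK
  have hT1 : ∀ T : Pt (W⁄ℚ) (AlgebraicClosure F), p • T = 0 →
      (∀ s ∈ ((KG F K ι).restrictScalars ℚ).fixingSubgroup, ac (W⁄ℚ) s T = T) → T = 0 :=
    H55P.tors_base (F := F) (W⁄ℚ) p (KG F K ι) hT0
  have hKQ : FiniteDimensional ℚ ((KG F K ι).restrictScalars ℚ) := by
    have : FiniteDimensional ℚ (KG F K ι) := Module.Finite.trans F (KG F K ι)
    exact this
  have hS2 : H55P.SelZero (W⁄ℚ) p ι.fieldRange :=
    H55P.sel_down (W⁄ℚ) p ι.fieldRange ((KG F K ι).restrictScalars ℚ) (kg_le F K ι) (kg_norm F K ι) hT1 hS1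
  have hfr : FiniteDimensional ℚ ι.fieldRange :=
    Module.Finite.equiv (AlgEquiv.ofInjectiveField ι).toLinearEquiv
  have hpt := fb9b_pts (W⁄ℚ) K ι p (H55P.pts_fin (W⁄ℚ) p hp.prime ι.fieldRange hS2)
  have hsel := H55P.sel_transport (W⁄ℚ) p K ι hS2
  have hsha := H55P.sha_transport (W⁄ℚ) p K ι (H55P.sha_zero (W⁄ℚ) p hp.prime _ hS2)
  have e2 : ((W⁄ℚ)⁄K) = (W⁄K) := fb9b_map W
  change Finite ((W⁄ℚ)⁄K).toAffine.Point ∧ ¬ p ∣ Nat.card ((W⁄ℚ)⁄K).toAffine.Point at hpt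
  rw [e2] at hpt hsel hsha
  exact ⟨hsel, hsha, hpt.1, hpt.2⟩

end H55K.TQ
end

-- from Lib.H55K.T11B
section

/-! # H55K: no p-torsion fixed by inertia at a bad prime -/

open NumberField IsDedekindDomain WeierstrassCurve

namespace H55K.TQ

open H55P (IQ embF eF LF Per IsHecke Pt ac Inert Dec Nm UnitP)
open H35P (WAB Ker tt GoodW IntW)
open H55K.MG (VC Crd)

variable {F : Type} [Field F] [NumberField F] [IQ F] {W₀ : WeierstrassCurve (𝓞 F)} {Om : ℂ}
    {m : Ideal (𝓞 F)} {ψ : Ideal (𝓞 F) →*₀ 𝓞 F} {p : ℕ}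

open Classical in
/-- Chunk T11B (M). Transport to WAB A B (an isomorphism of the groups of points over Ω commuting with ac: vc_short, MG.vc_iso, or PS4_iso in H55P/S4.lean, or H55K/Y6.lean sel_short for the style). Suppose T ≠ 0. By fix_from_one (exists_gmod in MM.lean; V(p) = 1 because v contains Δ, so not p) every s in K.fixingSubgroup with Inert V s fixes all points killed by p. As in T8 (good_down):
for g with Inert V g, g^(p^k) is in L.fixingSubgroup (pow_fix), so in K.fixingSubgroup, and inertial; it fixes the points killed by p; fix_all: g does. nos_up, descent, good_of_V: GoodAt (W₀⁄F) v, against hH.bad. -/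
theorem bad_tors (hH : BaseH F W₀ Om m ψ) (hp : PrimeH F W₀ p) {L K : IntermediateField F (AlgebraicClosure F)}
    (hL : H55P.PExt p ⊥ L) (hK : K ≤ L) {V : ValuationSubring (AlgebraicClosure F)} {v : HeightOneSpectrum (𝓞 F)}
    (hv : ∀ a : 𝓞 F, a ∈ v.asIdeal → V.valuation (ak (AlgebraicClosure F) a) < 1) (hΔ : W₀.Δ ∈ v.asIdeal)
    (T : Pt (W₀⁄F) (AlgebraicClosure F)) (hT : p • T = 0)
    (hf : ∀ s ∈ K.fixingSubgroup, Inert V s → ac (W₀⁄F) s T = T) : T = 0 := by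
  obtain ⟨A, hA⟩ : ∃ A : F, A = -(algebraMap (𝓞 F) F W₀.c₄) / 48 := ⟨_, rfl⟩
  obtain ⟨B, hB⟩ : ∃ B : F, B = -(algebraMap (𝓞 F) F W₀.c₆) / 864 := ⟨_, rfl⟩
  have hell := hH.data.ell
  have hd := y3_ne W₀ hA hB hell
  obtain ⟨j, hj⟩ := exists_j F (AlgebraicClosure F)
  have hper : Per F (embF F A) (embF F B) Om := by
    have e1 : embF F A = -(eF F W₀.c₄) / 48 := by
      rw [hA, map_div₀, map_neg, map_ofNat]
      rfl
    have e2 : embF F B = -(eF F W₀.c₆) / 864 := by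
      rw [hB, map_div₀, map_neg, map_ofNat]
      rfl
    rw [e1, e2]
    exact hH.data.per
  obtain ⟨act, hC⟩ := exists_CMA F A B Om j hd hper hj
  have hjint := jint_of hH.data.per hell
  obtain ⟨Kg, u, hG⟩ := exists_gmod (Ω := AlgebraicClosure F) hd (y3_j W₀ hA hB hjint) V
  have hunr := (unr_iff hp.prime).1 hp.unr
  have hpv : (p : 𝓞 F) ∉ v.asIdeal := by
    intro hpv
    obtain ⟨x, hx, y, hy, hxy⟩ := Ideal.isCoprime_iff_exists.1 hp.cop
    have h1 : x ∈ v.asIdeal := (Ideal.span_singleton_le_iff_mem _).2 hΔ hx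
    have h2 : y ∈ v.asIdeal := (Ideal.span_singleton_le_iff_mem _).2 hpv hy
    have h3 : (1 : 𝓞 F) ∈ v.asIdeal := hxy ▸ add_mem h1 h2
    exact v.isPrime.ne_top ((Ideal.eq_top_iff_one _).2 h3)
  have hVp : V.valuation (p : AlgebraicClosure F) = 1 := by
    have h1 := t8_val hv hpv
    have e : ak (AlgebraicClosure F) ((p : ℕ) : 𝓞 F) = (p : AlgebraicClosure F) := by
      have e1 : (((p : ℕ) : 𝓞 F) : F) = (p : F) := map_natCast (algebraMap (𝓞 F) F) p
      unfold ak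
      rw [e1, map_natCast]
    rwa [e] at h1
  have hΔA : (WAB A B).Δ ≠ 0 := by
    have e : (WAB A B).Δ = -16 * (4 * A ^ 3 + 27 * B ^ 2) := by
      unfold WAB WeierstrassCurve.Δ WeierstrassCurve.b₂ WeierstrassCurve.b₄ WeierstrassCurve.b₆ WeierstrassCurve.b₈
      ring
    rw [e]
    exact mul_ne_zero (by norm_num) hd
  obtain ⟨r, s, t, hVC⟩ := vc_short W₀ hA hB
  have hVC' := vc_map (algebraMap F (AlgebraicClosure F)) hVC
  have hΔ1 : ((WAB A B).map (algebraMap F (AlgebraicClosure F))).Δ ≠ 0 := by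
    rw [WeierstrassCurve.map_Δ]
    exact (map_ne_zero _).2 hΔA
  have hΔ2 : ((W₀⁄F).map (algebraMap F (AlgebraicClosure F))).Δ ≠ 0 := by
    have e : (W₀⁄F).Δ = algebraMap (𝓞 F) F W₀.Δ := WeierstrassCurve.map_Δ _ _
    rw [WeierstrassCurve.map_Δ, e]
    refine (map_ne_zero _).2 fun h1 => hell ?_
    exact (map_eq_zero_iff _ (FaithfulSMul.algebraMap_injective (𝓞 F) F)).1 h1
  obtain ⟨Θ, hΘ⟩ : ∃ Θ : Pt (WAB A B) (AlgebraicClosure F) ≃+ Pt (W₀⁄F) (AlgebraicClosure F),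
      Crd (algebraMap F (AlgebraicClosure F) 1) (algebraMap F (AlgebraicClosure F) r)
        (algebraMap F (AlgebraicClosure F) s) (algebraMap F (AlgebraicClosure F) t) Θ := MG.vc_iso hVC' hΔ1 hΔ2
  have hcom : ∀ (g : AlgebraicClosure F ≃ₐ[F] AlgebraicClosure F) (P : Pt (WAB A B) (AlgebraicClosure F)),
      ac (W₀⁄F) g (Θ P) = Θ (ac (WAB A B) g P) := by
    intro g P
    by_cases hP : P = 0
    · subst hP
      rw [map_zero, map_zero, map_zero, map_zero]
    · obtain ⟨a1, a2, a3⟩ := hΘ P hP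
      obtain ⟨b1, b2, b3⟩ := MG.ac_crd (W := WAB A B) g P
      have hP' : ac (WAB A B) g P ≠ 0 := fun h => hP (b3.1 h)
      obtain ⟨c1, c2, c3⟩ := hΘ _ hP'
      obtain ⟨d1, d2, d3⟩ := MG.ac_crd (W := W₀⁄F) g (Θ P)
      have e2 := congrArg g a2
      have e3 := congrArg g a3
      simp only [map_add, map_mul, map_pow, map_one, AlgEquiv.commutes, one_pow, one_mul, mul_one] at e2 e3 c2 c3
      have f2 : xc (ac (W₀⁄F) g (Θ P)) = xc (Θ (ac (WAB A B) g P)) := by
        rw [d1]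
        linear_combination c2 - e2 - b1
      refine pt_ext (fun h => a1 (d3.1 h)) c1 f2 ?_
      rw [d2]
      rw [d1] at f2
      linear_combination c3 - e3 - b2 - (algebraMap F (AlgebraicClosure F) s) * f2
  by_contra h0
  obtain ⟨T', hT'⟩ := Θ.surjective T
  have hT0 : T' ≠ 0 := by
    rintro rfl
    exact h0 (by rw [← hT', map_zero])
  have hTp : p • T' = 0 := by
    apply Θ.injective
    rw [map_nsmul, hT', hT, map_zero]
  obtain ⟨k, hk⟩ := pow_fix hL
  have hfix : ∀ g : AlgebraicClosure F ≃ₐ[F] AlgebraicClosure F, Inert V g →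
      ∀ P : Pt (WAB A B) (AlgebraicClosure F), p • P = 0 → ac (WAB A B) g P = P := by
    intro g hg P hP
    refine fix_all hC hp.prime hunr g (k := k) ?_ P hP
    intro P hP
    have hI : Inert V (g ^ (p ^ k)) := by
      have h1 : g ∈ H55P.inS F V := hg
      exact pow_mem h1 (p ^ k)
    refine fix_from_one hC hG hp.prime hp.five hVp (g ^ (p ^ k)) hI hTp hT0 ?_ P hP
    apply Θ.injective
    rw [← hcom, hT']
    refine hf _ ?_ hI
    exact (IntermediateField.mem_fixingSubgroup_iff K _).2 fun x hx =>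
      (IntermediateField.mem_fixingSubgroup_iff L _).1 (hk g) x (hK hx)
  obtain ⟨j₀, hj₀⟩ := hjint
  obtain ⟨j₁, hj₁⟩ := y3_j W₀ hA hB ⟨j₀, hj₀⟩
  have hc4 : (WAB A B).c₄ ^ 3 = (j₁ : F) * (WAB A B).Δ := by
    have e1 : (WAB A B).Δ = -16 * (4 * A ^ 3 + 27 * B ^ 2) := by
      unfold WAB WeierstrassCurve.Δ WeierstrassCurve.b₂ WeierstrassCurve.b₄ WeierstrassCurve.b₆ WeierstrassCurve.b₈
      ring
    have e2 : (WAB A B).c₄ = -48 * A := by
      unfold WAB WeierstrassCurve.c₄ WeierstrassCurve.b₂ WeierstrassCurve.b₄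
      ring
    rw [e1, e2]
    linear_combination (16 : F) * hj₁
  have hjj : ((WAB A B)⁄(AlgebraicClosure F)).c₄ ^ 3 = ak (AlgebraicClosure F) j₁ * ((WAB A B)⁄(AlgebraicClosure F)).Δ := by
    have e1 : ((WAB A B)⁄(AlgebraicClosure F)).c₄ = algebraMap F (AlgebraicClosure F) (WAB A B).c₄ :=
      WeierstrassCurve.map_c₄ _ _
    have e2 : ((WAB A B)⁄(AlgebraicClosure F)).Δ = algebraMap F (AlgebraicClosure F) (WAB A B).Δ :=
      WeierstrassCurve.map_Δ _ _
    rw [e1, e2, ← map_pow, hc4, map_mul]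
  have hdes := descent hv (nos_up hΔA (t8_le V j₁) hjj hp.prime hp.five hVp hTp hT0
    (fun g hg => hfix g hg T' hTp))
  exact hH.bad v hΔ (good_of_V W₀ hA hB v hv hdes)

end H55K.TQ
end

-- from Lib.H55K.T10
section

/-! # H55K: bad primes stay bad -/

open NumberField IsDedekindDomain WeierstrassCurve

namespace H55K.TQ

open H55P (IQ embF eF LF Per IsHecke Pt ac Inert Dec Nm UnitP)
open H35P (WAB Ker tt GoodW IntW)
open H55K.MG (VC Crd)

variable {F : Type} [Field F] [NumberField F] [IQ F] {W₀ : WeierstrassCurve (𝓞 F)} {Om : ℂ}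
    {m : Ideal (𝓞 F)} {ψ : Ideal (𝓞 F) →*₀ 𝓞 F} {p : ℕ}

/-- Chunk T10 (S/M). V from exists_V. v = w ∩ 𝓞 F (the prime below: mK M m ≤ w implies m ≤ v; Δ in v by supp). GoodAt → GMd (gmd_of_good) → good_down (T8.lean; CMA from exists_j, exists_CMA as in Y8.lean; p not in v by cop; jint: JE.lean and y3: c₄ of WAB A B is -48 A, its discriminant -16 (4 A^3 + 27 B^2)) → good_of_V: contradiction to hH.bad. -/
theorem bad_K (hH : BaseH F W₀ Om m ψ) (hp : PrimeH F W₀ p) {L M : IntermediateField F (AlgebraicClosure F)}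
    [NumberField M] (hL : H55P.PExt p ⊥ L) (hM : M ≤ L) (w : HeightOneSpectrum (𝓞 M)) (hw : H55P.mK M m ≤ w.asIdeal) :
    ¬ GoodAt ((W₀⁄F)⁄M) w := by
  classical
  intro hgood
  obtain ⟨V, hV⟩ := exists_V M w
  obtain ⟨j, hj⟩ := exists_j F (AlgebraicClosure F)
  obtain ⟨A, hA⟩ : ∃ A : F, A = -(algebraMap (𝓞 F) F W₀.c₄) / 48 := ⟨_, rfl⟩
  obtain ⟨B, hB⟩ : ∃ B : F, B = -(algebraMap (𝓞 F) F W₀.c₆) / 864 := ⟨_, rfl⟩
  have hd := y3_ne W₀ hA hB hH.data.ell
  have hper : Per F (embF F A) (embF F B) Om := by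
    have e1 : embF F A = -(eF F W₀.c₄) / 48 := by
      rw [hA, map_div₀, map_neg, map_ofNat]
      rfl
    have e2 : embF F B = -(eF F W₀.c₆) / 864 := by
      rw [hB, map_div₀, map_neg, map_ofNat]
      rfl
    rw [e1, e2]
    exact hH.data.per
  obtain ⟨act, hact⟩ := exists_CMA F A B Om j hd hper hj
  obtain ⟨v, hvw⟩ : ∃ v : HeightOneSpectrum (𝓞 F), v.asIdeal = w.asIdeal.under (𝓞 F) :=
    ⟨⟨w.asIdeal.under (𝓞 F), inferInstance, mt Ideal.eq_bot_of_comap_eq_bot w.ne_bot⟩, rfl⟩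
  have hmv : m ≤ v.asIdeal := by
    rw [hvw]
    exact Ideal.map_le_iff_le_comap.1 hw
  have hΔv : W₀.Δ ∈ v.asIdeal := (hH.supp v).2 hmv
  have hpv : (p : 𝓞 F) ∉ v.asIdeal := by
    intro h0
    have h1 : Ideal.span {W₀.Δ} ≤ v.asIdeal := (Ideal.span_singleton_le_iff_mem _).2 hΔv
    have h2 : Ideal.span {(p : 𝓞 F)} ≤ v.asIdeal := (Ideal.span_singleton_le_iff_mem _).2 h0
    have h3 := Ideal.isCoprime_iff_sup_eq.1 hp.cop
    have h4 : v.asIdeal = ⊤ := top_le_iff.1 (h3 ▸ sup_le h1 h2)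
    exact v.isPrime.ne_top h4
  have hv : ∀ a : 𝓞 F, a ∈ v.asIdeal → V.valuation (ak (AlgebraicClosure F) a) < 1 := by
    intro a ha
    rw [hvw] at ha
    have h1 : algebraMap (𝓞 F) (𝓞 M) a ∈ w.asIdeal := ha
    exact hV _ h1
  have hjj : ∃ j₀ : 𝓞 F, (WAB A B).c₄ ^ 3 = (j₀ : F) * (WAB A B).Δ := by
    obtain ⟨j₀, hj₀⟩ := y3_j W₀ hA hB (jint_of hH.data.per hH.data.ell)
    refine ⟨j₀, ?_⟩
    have e1 : (WAB A B).Δ = -16 * (4 * A ^ 3 + 27 * B ^ 2) := by
      unfold WAB WeierstrassCurve.Δ WeierstrassCurve.b₂ WeierstrassCurve.b₄ WeierstrassCurve.b₆ WeierstrassCurve.b₈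
      ring
    have e2 : (WAB A B).c₄ = -48 * A := by
      unfold WAB WeierstrassCurve.c₄ WeierstrassCurve.b₂ WeierstrassCurve.b₄
      ring
    rw [e1, e2]
    linear_combination (16 : F) * hj₀
  exact hH.bad v hΔv (good_of_V W₀ hA hB v hv (good_down hact hjj hp.prime hp.five ((unr_iff hp.prime).1 hp.unr) hL hM hv hpv
    (gmd_of_good W₀ hA hB w hV hgood)))

end H55K.TQ
end

-- from Lib.H55K.FB3B
section

/-! # H55K: the L-function over K -/

open NumberField IsDedekindDomain WeierstrassCurve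

namespace H55K.TQ

open H55P (IQ embF eF LF Per IsHecke Pt ac Inert Dec Nm UnitP)
open H35P (WAB Ker tt GoodW IntW)
open H55K.MG (VC Crd)

variable {F : Type} [Field F] [NumberField F] [IQ F] {W : WeierstrassCurve ℤ} {Om : ℂ}
    {m : Ideal (𝓞 F)} {ψ : Ideal (𝓞 F) →*₀ 𝓞 F} {p : ℕ}

/-- Bad reduction over K. -/
theorem fb3b_bad (hH : BaseH F (W⁄(𝓞 F)) Om m ψ) (hp : PrimeH F (W⁄(𝓞 F)) p) {L : IntermediateField F (AlgebraicClosure F)}
    (hL : H55P.PExt p ⊥ L) (K : Type) [Field K] [NumberField K] [Algebra F K] (K' : IntermediateField F (AlgebraicClosure F)) [NumberField K']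
    (hK : K' ≤ L) (θ : K ≃ₐ[F] K') (w : HeightOneSpectrum (𝓞 K)) (hw : H55P.mK K m ≤ w.asIdeal) :
    ¬ GoodAt (((W⁄(𝓞 F))⁄F)⁄K) w := by
  intro hgood
  let _ : Algebra K K' := (θ : K →+* K').toAlgebra
  have hst : IsScalarTower F K K' := IsScalarTower.of_algebraMap_eq fun x => (θ.commutes x).symm
  have hwm := w.isMaximal
  obtain ⟨Q, hQ1, hQ2⟩ := Ideal.exists_maximal_ideal_liesOver_of_isIntegral (S := 𝓞 K') w.asIdeal
  have hQ0 : Q ≠ ⊥ := Ideal.ne_bot_of_liesOver_of_ne_bot w.ne_bot Q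
  have hover : w.asIdeal = Q.under (𝓞 K) := hQ2.over
  have hmQ : H55P.mK K' m ≤ Q := by
    have h1 : H55P.mK K' m = (H55P.mK K m).map (algebraMap (𝓞 K) (𝓞 K')) := by
      unfold H55P.mK
      rw [Ideal.map_map, ← IsScalarTower.algebraMap_eq]
    rw [h1, Ideal.map_le_iff_le_comap]
    exact hw.trans (le_of_eq hover)
  have hg : GoodAt ((((W⁄(𝓞 F))⁄F)⁄K)⁄K') ⟨Q, hQ1.isPrime, hQ0⟩ := good_up hover hgood
  refine bad_K hH hp hL hK ⟨Q, hQ1.isPrime, hQ0⟩ hmQ ?_
  have he : (((W⁄(𝓞 F))⁄F)⁄K)⁄K' = ((W⁄(𝓞 F))⁄F)⁄K' := by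
    rw [WeierstrassCurve.baseChange, WeierstrassCurve.baseChange, WeierstrassCurve.baseChange, WeierstrassCurve.map_map]
    congr 1
    exact (IsScalarTower.algebraMap_eq F K K').symm
  rw [← he]
  exact hg

/-- Chunk FB3B (M). The L-series over K contains F. K' = KG F K ι, θ : K ≃ₐ[F] K' (kg_iso). lfun_K (DM.lean) for K: the condition hbad for W⁄K at w with mK K m ≤ w: a prime w' of K' above w (algebra K → K' by θ), mK K' m ≤ w', bad_K (T10.lean) for K' ≤ L, good_up (RG.lean). Then as in gen_lval (H55P/Gen.lean) or i5_lfun (I5.lean), with tm_congr. -/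
theorem lser_F (hH : BaseH F (W⁄(𝓞 F)) Om m ψ) (hp : PrimeH F (W⁄(𝓞 F)) p) {L : IntermediateField F (AlgebraicClosure F)}
    (hL : H55P.PExt p ⊥ L) (K : Type) [Field K] [NumberField K] [Algebra F K] (K' : IntermediateField F (AlgebraicClosure F)) [NumberField K']
    (hK : K' ≤ L) (θ : K ≃ₐ[F] K') (Φ : ℂ → ℂ) (hΦ : ∀ s : ℂ, 3 / 2 < s.re → HasSum (H55N.tm (H55P.PsiP K' ψ) s) (Φ s)) (s : ℂ)
    (hs : 3 / 2 < s.re) :
    LSeriesHasSum (fun n => (((W⁄K).LFunction n : ℤ) : ℂ)) s (Φ s * (starRingEnd ℂ) (Φ ((starRingEnd ℂ) s))) := by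
  classical
  have hLs : ∀ s : ℂ, 3 / 2 < s.re → HasSum (H55N.tm (H55P.PsiP K ψ) s) (Φ s) := fun s hs => tm_congr K K' θ s _ (hΦ s hs)
  have hs' : 3 / 2 < ((starRingEnd ℂ) s).re := by simpa using hs
  have h := hH.data.hecke
  have h0 : H55P.PsiP K ψ ⊥ = 0 := (H55P.PsiP K ψ).map_zero
  have h1 := H55N.AI_LSeries (fun a => H55P.PsiP K ψ a) h0 s (H55N.tm_summable _ (H55P.PsiP_norm_le h) s hs)
  have h2 := H55N.AI_LSeries (fun a => (starRingEnd ℂ) (H55P.PsiP K ψ a)) (by rw [h0, map_zero]) s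
    (H55N.tm_summable _ (fun a => by rw [RCLike.norm_conj]; exact H55P.PsiP_norm_le h a) s hs)
  have e1 : ∑' a, H55N.tm (fun a => H55P.PsiP K ψ a) s a = Φ s := (hLs s hs).tsum_eq
  have e2 : ∑' a, H55N.tm (fun a => (starRingEnd ℂ) (H55P.PsiP K ψ a)) s a =
      (starRingEnd ℂ) (Φ ((starRingEnd ℂ) s)) := by
    have h3 := (Complex.hasSum_conj').2 (hLs _ hs')
    have h4 := h3.tsum_eq
    rw [← h4]
    exact tsum_congr fun a => H55N.H8_tm _ s a
  rw [e1] at h1
  rw [e2] at h2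
  have h3 := ArithmeticFunction.LSeriesHasSum_mul h1 h2
  have e3 : (fun n => (((W⁄K).LFunction n : ℤ) : ℂ)) = fun n =>
      (H55N.AI (H55P.PsiP K ψ) * H55N.AI (fun a => (starRingEnd ℂ) (H55P.PsiP K ψ a))) n := by
    funext n
    rw [← cur_eq (F := F) (W := W) K]
    exact lfun_K h (fun v hv _ => hH.deu v hv) (fun v hv => (hH.supp v).1 hv) (jint_of hH.data.per hH.data.ell)
      (fun w hw => fb3b_bad hH hp hL K K' hK θ w hw) n
  rw [e3]
  exact h3

end H55K.TQ
end
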