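import Mathlib
import Pool.Agent.Lib.H1M.PP.M001
import Pool.Agent.Lib.H1M.PP.M005

/-! Merged copies (to shorten the build) of Lib.H13D.E7, Lib.H55W.ZA, Lib.H28I.E1, Lib.H28I.E2, Lib.H28T.CC1A, Lib.H13N.Defs, Lib.H35T.A6, Lib.H35T.A1, Lib.H35T.A2, Lib.H35T.A3, Lib.H28R.W10, Lib.H28R.W19, Lib.H55W.G4, Lib.H55C.A1, Lib.H55C.A2, Lib.H55C.A3. -/

-- from Lib.H13D.E7
section

/-! # H13D, part E: rational numbers and valuation rings -/

namespace H13D

theorem e7_int_le {Ω : Type} [Field Ω] (V : ValuationSubring Ω) (n : ℤ) : V.valuation (n : Ω) ≤ 1 := by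
  rw [V.valuation_le_one_iff]
  exact intCast_mem V n

theorem e7_int_lt {Ω : Type} [Field Ω] (V : ValuationSubring Ω) {p : ℕ} (hp : p.Prime) (hV : V.valuation (p : Ω) < 1)
    (n : ℤ) : V.valuation (n : Ω) < 1 ↔ (p : ℤ) ∣ n := by
  constructor
  · intro h
    by_contra hn
    have hc : IsCoprime (p : ℤ) n := by
      rw [Int.isCoprime_iff_gcd_eq_one]
      rw [← Int.isCoprime_iff_gcd_eq_one]
      exact (Prime.coprime_iff_not_dvd (Nat.prime_iff_prime_int.1 hp)).2 hn
    obtain ⟨u, w, huw⟩ := hc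
    have h1 : (u : Ω) * (p : Ω) + (w : Ω) * (n : Ω) = 1 := by exact_mod_cast congrArg (fun z : ℤ => (z : Ω)) huw
    have h2 : V.valuation ((u : Ω) * (p : Ω) + (w : Ω) * (n : Ω)) < 1 := by
      refine Valuation.map_add_lt _ ?_ ?_
      · rw [map_mul]
        exact mul_lt_one_of_nonneg_of_lt_one_right (e7_int_le V u) zero_le hV
      · rw [map_mul]
        exact mul_lt_one_of_nonneg_of_lt_one_right (e7_int_le V w) zero_le h
    rw [h1, map_one] at h2
    exact lt_irrefl _ h2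
  · rintro ⟨c, rfl⟩
    push_cast
    rw [map_mul]
    exact mul_lt_one_of_lt_of_le hV (e7_int_le V c)

theorem e7_int_eq {Ω : Type} [Field Ω] (V : ValuationSubring Ω) {p : ℕ} (hp : p.Prime) (hV : V.valuation (p : Ω) < 1)
    {n : ℤ} (hn : ¬ (p : ℤ) ∣ n) : V.valuation (n : Ω) = 1 := by
  refine le_antisymm (e7_int_le V n) (not_lt.1 fun h => hn ((e7_int_lt V hp hV n).1 h))

theorem e7_rat {Ω : Type} [Field Ω] [Algebra ℚ Ω] (q : ℚ) : algebraMap ℚ Ω q * ((q.den : ℤ) : Ω) = ((q.num : ℤ) : Ω) := by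
  have h1 : q * (q.den : ℚ) = (q.num : ℚ) := Rat.mul_den_eq_num q
  have h2 := congrArg (algebraMap ℚ Ω) h1
  rw [map_mul, map_natCast, map_intCast] at h2
  rw [← h2]
  push_cast
  rfl

/-- Chunk E7 (S/M). V(n) ≤ 1 for integers n; V(n) < 1 iff p divides n (if not, u n + w p = 1); q = num/den, num and den are coprime. -/
theorem rat_le {Ω : Type} [Field Ω] [Algebra ℚ Ω] (V : ValuationSubring Ω) {p : ℕ} (hp : p.Prime) (hV : V.valuation (p : Ω) < 1)
    (q : ℚ) (hq : V.valuation (algebraMap ℚ Ω q) ≤ 1) : ¬ p ∣ q.den := by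
  intro hd
  have h1 : ¬ (p : ℤ) ∣ q.num := by
    intro h2
    have h3 := q.reduced
    have h4 : p ∣ q.num.natAbs := Int.natCast_dvd.1 h2
    have h5 := Nat.dvd_gcd h4 hd
    rw [Nat.Coprime] at h3
    rw [h3] at h5
    exact hp.one_lt.ne' (Nat.dvd_one.1 h5)
  have h2 := congrArg V.valuation (e7_rat (Ω := Ω) q)
  rw [map_mul, e7_int_eq V hp hV h1] at h2
  have h3 : V.valuation ((q.den : ℤ) : Ω) < 1 := (e7_int_lt V hp hV _).2 (by exact_mod_cast hd)
  have h4 : V.valuation (algebraMap ℚ Ω q) * V.valuation ((q.den : ℤ) : Ω) < 1 :=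
    mul_lt_one_of_nonneg_of_lt_one_right hq zero_le h3
  rw [h2] at h4
  exact lt_irrefl _ h4

/-- Chunk E7 (S). rat_le for q and its inverse (or directly). -/
theorem rat_eq {Ω : Type} [Field Ω] [Algebra ℚ Ω] (V : ValuationSubring Ω) {p : ℕ} (hp : p.Prime) (hV : V.valuation (p : Ω) < 1)
    (q : ℚ) (hq : V.valuation (algebraMap ℚ Ω q) = 1) : ¬ (p : ℤ) ∣ q.num ∧ ¬ p ∣ q.den := by
  have h1 := rat_le V hp hV q hq.le
  refine ⟨fun h2 => ?_, h1⟩
  have h3 := congrArg V.valuation (e7_rat (Ω := Ω) q)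
  have h4 : V.valuation ((q.den : ℤ) : Ω) = 1 := e7_int_eq V hp hV (by exact_mod_cast h1)
  rw [map_mul, hq, h4, one_mul] at h3
  have h5 := (e7_int_lt V hp hV q.num).2 h2
  rw [← h3] at h5
  exact lt_irrefl _ h5

theorem e7_sq {x : ℤ} (hx : ¬ (2 : ℤ) ∣ x) : ∃ k : ℤ, x ^ 2 = 4 * k + 1 := by
  obtain ⟨k, hk⟩ : Odd x := Int.not_even_iff_odd.1 fun h => hx (even_iff_two_dvd.1 h)
  exact ⟨k ^ 2 + k, by rw [hk]; ring⟩

theorem e7_odd_mul {x y : ℤ} (hx : ¬ (2 : ℤ) ∣ x) (hy : ¬ (2 : ℤ) ∣ y) : ¬ (2 : ℤ) ∣ x * y := by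
  intro h
  rcases Int.prime_two.dvd_or_dvd h with h | h
  · exact hx h
  · exact hy h

/-- Chunk E7 (M). Put n = e.num * e.den (an integer ≠ 0), e = n/den^2. |n| = b^2 c with c squarefree (Nat.sq_mul_squarefree), d = sign(n) c, f = b/den: e = d f^2, f ≠ 0. A prime p dividing d divides n, so it divides e.num or e.den, so p divides N (h). If 2 does not divide N: n, den, b, d are odd; e = z^2 + 4w with z, w of odd denominators:
n (z.den w.den)^2 = (z.num e.den w.den)^2 + 4 (integer) (multiply by (e.den z.den w.den)^2), odd squares are 1 modulo 4 (even 8) and the left side is odd, so n is 1 modulo 4, and n = d b^2 gives d % 4 = 1 (Int.emod_emod_of_dvd, decide on residues modulo 4). -/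
theorem e_form {N : ℕ} {e : ℚ} (he : e ≠ 0) (h : ∀ p : ℕ, p.Prime → ¬ p ∣ N → ¬ (p : ℤ) ∣ e.num ∧ ¬ p ∣ e.den)
    (h2 : ¬ 2 ∣ N → ∃ z w : ℚ, e = z ^ 2 + 4 * w ∧ ¬ 2 ∣ z.den ∧ ¬ 2 ∣ w.den) :
    ∃ (d : ℤ) (f : ℚ), Squarefree d ∧ f ≠ 0 ∧ e = d * f ^ 2 ∧ (∀ p : ℕ, p.Prime → (p : ℤ) ∣ d → p ∣ N) ∧ (¬ 2 ∣ N → d % 4 = 1) := by
  have hden0 : (e.den : ℚ) ≠ 0 := by exact_mod_cast e.den_nz
  have hnum0 : e.num ≠ 0 := Rat.num_ne_zero.2 he
  set n : ℤ := e.num * e.den with hn
  have hn0 : n ≠ 0 := mul_ne_zero hnum0 (by exact_mod_cast e.den_nz)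
  have hen : e * (e.den : ℚ) ^ 2 = (n : ℚ) := by
    have h1 : e * (e.den : ℚ) = (e.num : ℚ) := Rat.mul_den_eq_num e
    rw [hn, sq, ← mul_assoc, h1]
    push_cast
    ring
  obtain ⟨c, b, hbc, hcs⟩ := Nat.sq_mul_squarefree n.natAbs
  have hbcn : n = n.sign * c * (b : ℤ) ^ 2 := by
    have h1 : ((b : ℤ) ^ 2 * c) = (n.natAbs : ℤ) := by exact_mod_cast hbc
    rw [mul_assoc, mul_comm (c : ℤ), h1]
    exact (Int.sign_mul_natAbs n).symm
  set d : ℤ := n.sign * c with hd
  have hdabs : d.natAbs = c := by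
    rw [hd, Int.natAbs_mul, Int.natAbs_sign_of_ne_zero hn0, one_mul, Int.natAbs_natCast]
  have hb0 : (b : ℚ) ≠ 0 := by
    intro h1
    have h3 : (b : ℤ) = 0 := by exact_mod_cast h1
    rw [h3] at hbcn
    apply hn0
    rw [hbcn]
    ring
  have hdiv : ∀ p : ℕ, p.Prime → (p : ℤ) ∣ n → p ∣ N := by
    intro p hp hpn
    by_contra hN
    obtain ⟨h3, h4⟩ := h p hp hN
    rcases (Nat.prime_iff_prime_int.1 hp).dvd_or_dvd hpn with h5 | h5
    · exact h3 h5
    · exact h4 (by exact_mod_cast h5)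
  refine ⟨d, b / e.den, ?_, div_ne_zero hb0 hden0, ?_, ?_, ?_⟩
  · rw [← Int.squarefree_natAbs, hdabs]
    exact hcs
  · have h1 : (n : ℚ) = (d : ℚ) * (b : ℚ) ^ 2 := by exact_mod_cast congrArg (fun z : ℤ => (z : ℚ)) hbcn
    rw [h1] at hen
    field_simp
    exact hen
  · intro p hp hpd
    refine hdiv p hp ?_
    rw [hbcn]
    exact dvd_mul_of_dvd_left hpd _
  · intro h2N
    obtain ⟨z, w, hzw, hz, hw⟩ := h2 h2N
    have hnodd : ¬ (2 : ℤ) ∣ n := fun h3 => h2N (hdiv 2 Nat.prime_two (by exact_mod_cast h3))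
    have hz' : ¬ (2 : ℤ) ∣ (z.den : ℤ) := fun h3 => hz (by exact_mod_cast h3)
    have hw' : ¬ (2 : ℤ) ∣ (w.den : ℤ) := fun h3 => hw (by exact_mod_cast h3)
    have hid : n * ((z.den : ℤ) * w.den) ^ 2 = ((e.den : ℤ) * z.num * w.den) ^ 2 +
        4 * ((e.den : ℤ) ^ 2 * w.num * w.den * (z.den : ℤ) ^ 2) := by
      have h3 : z * (z.den : ℚ) = (z.num : ℚ) := Rat.mul_den_eq_num z
      have h4 : w * (w.den : ℚ) = (w.num : ℚ) := Rat.mul_den_eq_num w
      have h5 : ((n * ((z.den : ℤ) * w.den) ^ 2 : ℤ) : ℚ) = ((((e.den : ℤ) * z.num * w.den) ^ 2 +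
        4 * ((e.den : ℤ) ^ 2 * w.num * w.den * (z.den : ℤ) ^ 2) : ℤ) : ℚ) := by
        push_cast
        rw [← hen, ← h3, ← h4, hzw]
        ring
      exact_mod_cast h5
    obtain ⟨k₁, hk₁⟩ := e7_sq (e7_odd_mul hz' hw')
    have hodd : ¬ (2 : ℤ) ∣ (e.den : ℤ) * z.num * w.den := by
      intro h3
      have h4 : ¬ (2 : ℤ) ∣ n * ((z.den : ℤ) * w.den) ^ 2 := by
        rw [sq]
        exact e7_odd_mul hnodd (e7_odd_mul (e7_odd_mul hz' hw') (e7_odd_mul hz' hw'))
      apply h4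
      rw [hid]
      refine dvd_add ?_ ?_
      · rw [sq]
        exact dvd_mul_of_dvd_left h3 _
      · exact dvd_mul_of_dvd_left (by norm_num) _
    obtain ⟨k₂, hk₂⟩ := e7_sq hodd
    have hbodd : ¬ (2 : ℤ) ∣ (b : ℤ) := by
      intro h3
      apply hnodd
      rw [hbcn, sq]
      exact dvd_mul_of_dvd_right (dvd_mul_of_dvd_left h3 _) _
    obtain ⟨k₃, hk₃⟩ := e7_sq hbodd
    rw [hk₁, hk₂] at hid
    rw [hk₃] at hbcn
    have h6 : n = 4 * (k₂ + (e.den : ℤ) ^ 2 * w.num * w.den * (z.den : ℤ) ^ 2 - n * k₁) + 1 := by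
      linear_combination hid
    have h7 : d = 4 * (k₂ + (e.den : ℤ) ^ 2 * w.num * w.den * (z.den : ℤ) ^ 2 - n * k₁ - d * k₃) + 1 := by
      linear_combination h6 - hbcn
    generalize (k₂ + (e.den : ℤ) ^ 2 * w.num * w.den * (z.den : ℤ) ^ 2 - n * k₁ - d * k₃) = M at h7
    omega

end H13D
end

-- from Lib.H55W.ZA
section

/-! # H55W, part Z: Weierstrass equations over ℤ with complex multiplication by the fields of discriminant -3, -4, -8 (pure arithmetic) -/

open WeierstrassCurve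

namespace H55W

theorem za_twelve {x y : ℤ} (h : x ^ 2 = 24 * y) : ∃ β : ℤ, x = 12 * β := by
  obtain ⟨q, r, hx, hr0, hr1⟩ : ∃ q r : ℤ, x = 12 * q + r ∧ 0 ≤ r ∧ r < 12 :=
    ⟨x / 12, x % 12, by omega, by omega, by omega⟩
  obtain ⟨Q, hQ⟩ : ∃ Q, Q = q ^ 2 := ⟨_, rfl⟩
  have h1 : 144 * Q + 24 * (q * r) + r ^ 2 = 24 * y := by
    rw [← h, hx, hQ]
    ring
  refine ⟨q, ?_⟩
  interval_cases r <;> omega

/-- Chunk ZA (S/M). c₄ = b₂^2 - 24 b₄ = 0: 12 divides b₂ (24 | b₂^2), b₂ = 12 β, b₄ = 6 β^2, c₆ = -b₂^3 + 36 b₂ b₄ - 216 b₆ = -216 (b₆ - 4β^3), b' = b₆ - 4β^3; 1728 Δ = c₄^3 - c₆^2 (WeierstrassCurve.c_relation): Δ = -27 b'^2. b' odd: b₆ = a₃^2 + 4 a₆ is odd, so 1 mod 4 (b₂, b₆: unfold), b' = 1 mod 4. -/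
theorem arith_three (W : WeierstrassCurve ℤ) (h : W.c₄ = 0) : ∃ b' : ℤ, W.c₆ = -216 * b' ∧ W.Δ = -27 * b' ^ 2 ∧ (b' % 2 = 1 → b' % 4 = 1) := by
  have h4 : W.b₂ ^ 2 - 24 * W.b₄ = 0 := h
  obtain ⟨β, hβ⟩ := za_twelve (x := W.b₂) (y := W.b₄) (by linarith)
  have hb4 : W.b₄ = 6 * β ^ 2 := by
    rw [hβ] at h4
    nlinarith
  have hc6 : W.c₆ = -216 * (W.b₆ - 4 * β ^ 3) := by
    have e : W.c₆ = -W.b₂ ^ 3 + 36 * W.b₂ * W.b₄ - 216 * W.b₆ := rfl
    rw [e, hβ, hb4]
    ring
  refine ⟨W.b₆ - 4 * β ^ 3, hc6, ?_, ?_⟩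
  · have h1 := W.c_relation
    rw [h, hc6] at h1
    have h2 : (0 : ℤ) ^ 3 - (-216 * (W.b₆ - 4 * β ^ 3)) ^ 2 =
        1728 * (-27 * (W.b₆ - 4 * β ^ 3) ^ 2) := by ring
    rw [h2] at h1
    exact mul_left_cancel₀ (by norm_num : (1728 : ℤ) ≠ 0) h1
  · intro hodd
    have e : W.b₆ = W.a₃ ^ 2 + 4 * W.a₆ := rfl
    obtain ⟨q, r, hx, hr0, hr1⟩ : ∃ q r : ℤ, W.a₃ = 2 * q + r ∧ 0 ≤ r ∧ r < 2 :=
      ⟨W.a₃ / 2, W.a₃ % 2, by omega, by omega, by omega⟩
    have e2 : W.a₃ ^ 2 = 4 * (q ^ 2 + q * r) + r ^ 2 := by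
      rw [hx]
      ring
    rw [e, e2] at hodd ⊢
    interval_cases r
    · exfalso
      omega
    · omega

/-- Chunk ZA (S/M). c₄^3 = 1728 Δ = 12^3 Δ (c_relation): 12 divides c₄ (12^3 | c₄^3: 2^6 3^3 | c₄^3 gives 4 | c₄ and 3 | c₄; or Int.pow_dvd_pow_iff), c₄ = 12 δ, δ^3 = Δ. -/
theorem arith_four (W : WeierstrassCurve ℤ) (h : W.c₆ = 0) : ∃ δ : ℤ, W.c₄ = 12 * δ ∧ W.Δ = δ ^ 3 := by
  have h1 := W.c_relation
  rw [h] at h1
  have h2 : (12 : ℤ) ^ 3 ∣ W.c₄ ^ 3 := ⟨W.Δ, by linarith⟩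
  rw [Int.pow_dvd_pow_iff (by norm_num)] at h2
  obtain ⟨δ, hδ⟩ := h2
  refine ⟨δ, hδ, ?_⟩
  rw [hδ] at h1
  have h3 : (12 * δ) ^ 3 - (0 : ℤ) ^ 2 = 1728 * δ ^ 3 := by ring
  rw [h3] at h1
  exact mul_left_cancel₀ (by norm_num : (1728 : ℤ) ≠ 0) h1

/-- Chunk ZA (M). n = -5 c₆/(14 c₄), a rational number (c₄ ≠ 0: otherwise c₆ = 0 and Δ = 0): n^2 = 25 c₆^2/(196 c₄^2) = c₄/10 (h), -28 n^3 = c₆; 1728 Δ = c₄^3 - c₆^2 = 1000 n^6 - 784 n^6 = 216 n^6: n^6 = 8 Δ, an integer, so n is an integer (a rational number with an integral power is an integer: Rat.isInt.. / IsIntegrallyClosed ℤ / num_dvd_of_is_root, Rat.den: n^6 integer implies den = 1). -/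
theorem arith_eight (W : WeierstrassCurve ℤ) (hΔ : W.Δ ≠ 0) (h : 125 * W.c₆ ^ 2 = 98 * W.c₄ ^ 3) :
    ∃ n : ℤ, W.c₄ = 10 * n ^ 2 ∧ W.c₆ = -28 * n ^ 3 ∧ 8 * W.Δ = n ^ 6 := by
  have hrel := W.c_relation
  have h4 : W.c₄ ≠ 0 := by
    intro h0
    rw [h0] at h
    have h6 : W.c₆ ^ 2 = 0 := by linarith
    rw [h0, h6] at hrel
    apply hΔ
    linarith
  have h4' : (W.c₄ : ℚ) ≠ 0 := by exact_mod_cast h4
  have hq : (125 : ℚ) * (W.c₆ : ℚ) ^ 2 = 98 * (W.c₄ : ℚ) ^ 3 := by exact_mod_cast h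
  have hrelq : (1728 : ℚ) * (W.Δ : ℚ) = (W.c₄ : ℚ) ^ 3 - (W.c₆ : ℚ) ^ 2 := by exact_mod_cast hrel
  obtain ⟨q, hqd⟩ : ∃ q : ℚ, q = -5 * (W.c₆ : ℚ) / (14 * (W.c₄ : ℚ)) := ⟨_, rfl⟩
  have hq2 : (W.c₄ : ℚ) = 10 * q ^ 2 := by
    rw [hqd]
    field_simp
    linarith
  have hq3 : (W.c₆ : ℚ) = -28 * q ^ 3 := by
    have e : q * (14 * (W.c₄ : ℚ)) = -5 * (W.c₆ : ℚ) := by
      rw [hqd]
      field_simp
    rw [hq2] at e
    linarith
  have hq6 : (8 : ℚ) * (W.Δ : ℚ) = q ^ 6 := by
    rw [hq2, hq3] at hrelq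
    linarith
  have hint : _root_.IsIntegral ℤ (q ^ 6) := by
    rw [← hq6]
    have e : (8 : ℚ) * (W.Δ : ℚ) = algebraMap ℤ ℚ (8 * W.Δ) := by
      simp
    rw [e]
    exact isIntegral_algebraMap
  obtain ⟨n, hn⟩ := IsIntegrallyClosed.exists_algebraMap_eq_of_isIntegral_pow
    (R := ℤ) (K := ℚ) (n := 6) (by norm_num) hint
  have hn' : (n : ℚ) = q := hn
  rw [← hn'] at hq2 hq3 hq6
  exact ⟨n, by exact_mod_cast hq2, by exact_mod_cast hq3, by exact_mod_cast hq6⟩

end H55W
end

-- from Lib.H28I.E1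
section

/-! # H28I, part E: group theory, the image of s - 1 -/

namespace H28I

/-- Chunk E1 (S). A finite abelian group killed by m > 0: its order divides a power of m (the prime divisors of the order divide m by Cauchy; or card_dvd_exponent_nsmul_rank). -/
theorem card_dvd {G : Type} [AddCommGroup G] [Finite G] {m : ℕ} (hm : 0 < m) (h : ∀ x : G, m • x = 0) : ∃ k : ℕ, Nat.card G ∣ m ^ k := by
  have h1 : ∀ q : ℕ, q.Prime → q ∣ Nat.card G → q ∣ m := by
    intro q hq hd
    haveI : Fact q.Prime := ⟨hq⟩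
    obtain ⟨x, hx⟩ := exists_prime_addOrderOf_dvd_card' (G := G) q hd
    rw [← hx]
    exact addOrderOf_dvd_of_nsmul_eq_zero (h x)
  have hc : Nat.card G ≠ 0 := Nat.card_pos.ne'
  refine ⟨Nat.card G, ?_⟩
  rw [Nat.dvd_iff_prime_pow_dvd_dvd]
  intro q k hq hk
  rcases Nat.eq_zero_or_pos k with rfl | hk0
  · simp
  · have h2 : q ∣ Nat.card G := (dvd_pow_self q hk0.ne').trans hk
    have h3 : k < Nat.card G + 1 := by
      have h4 : q ^ k ≤ Nat.card G := Nat.le_of_dvd (Nat.pos_of_ne_zero hc) hk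
      have h5 : k < q ^ k := Nat.lt_pow_self hq.one_lt
      omega
    exact (pow_dvd_pow_of_dvd (h1 q hq h2) k).trans (pow_dvd_pow m (by omega))

/-- Chunk E1 (M), pure group theory. q = 0: q • y = 0, so Q is trivial. q > 0: G n = {x | q ^ n • x = 0}, a finite subgroup (increasing in n), f = σ - 1 maps G n to itself; K n = the kernel of f on G n, contained in the finite set of hfix, increasing in n, so K n = K N for n ≥ N. κ = the order of K N divides q^m for some m (card_dvd with q^N).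
For n ≥ N: the image f (G n) has index κ in G n (order of the image times order of the kernel), so κ • x is in f (G n) for x in G n (the quotient has κ elements), so q^m • x is in f (G n). Given x in G n₀: y with q^m • y = x (hsurj, m times), y is in G (n₀ + m), contained in G n with n = max N (n₀ + m): x = q^m • y = f z. -/
theorem tor_in {Q : Type} [AddCommGroup Q] (σ : Q →+ Q) (q : ℕ) (hsurj : ∀ x : Q, ∃ y, q • y = x)
    (hfin : ∀ n : ℕ, {x : Q | q ^ n • x = 0}.Finite) (hfix : {x : Q | σ x = x}.Finite) {x : Q} (hx : ∃ n : ℕ, q ^ n • x = 0) :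
    ∃ y, σ y - y = x := by
  obtain ⟨n₀, hn₀⟩ := hx
  rcases Nat.eq_zero_or_pos q with rfl | hq
  · obtain ⟨y, hy⟩ := hsurj x
    rw [zero_nsmul] at hy
    exact ⟨0, by rw [map_zero, sub_zero, hy]⟩
  -- divisibility by powers
  have hsurj' : ∀ m : ℕ, ∀ x : Q, ∃ y, q ^ m • y = x := by
    intro m
    induction m with
    | zero => exact fun x => ⟨x, by rw [pow_zero, one_nsmul]⟩
    | succ m ih =>
      intro x
      obtain ⟨y, hy⟩ := ih x
      obtain ⟨z, hz⟩ := hsurj y
      exact ⟨z, by rw [pow_succ, mul_nsmul', hz, hy]⟩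
  set G : ℕ → AddSubgroup Q := fun n => (nsmulAddMonoidHom (α := Q) (q ^ n)).ker with hG
  have mG : ∀ n x, x ∈ G n ↔ q ^ n • x = 0 := fun n x => by
    rw [hG]
    exact AddMonoidHom.mem_ker
  have hGf : ∀ n, Finite (G n) := by
    intro n
    refine Set.Finite.to_subtype ((hfin n).subset fun x hx => ?_)
    exact (mG n x).1 hx
  set f : Q →+ Q := σ - AddMonoidHom.id Q with hf
  have hfx : ∀ x, f x = σ x - x := fun x => rfl
  have hfG : ∀ n x, x ∈ G n → f x ∈ G n := by
    intro n x hx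
    rw [mG] at hx ⊢
    rw [← map_nsmul, hx, map_zero]
  -- the restriction of f
  set F : ∀ n, G n →+ G n := fun n => (f.comp (G n).subtype).codRestrict (G n) (fun x => hfG n x x.2) with hF
  have hFx : ∀ n (x : G n), ((F n x : G n) : Q) = f x := fun n x => rfl
  have hker : ∀ n (x : G n), x ∈ (F n).ker ↔ σ (x : Q) = x := by
    intro n x
    rw [AddMonoidHom.mem_ker]
    constructor
    · intro h
      have h1 := congrArg (fun y : G n => (y : Q)) h
      simp only [hFx, hfx, ZeroMemClass.coe_zero] at h1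
      exact sub_eq_zero.1 h1
    · intro h
      apply Subtype.ext
      rw [hFx, hfx, h, sub_self]
      rfl
  -- the fixed torsion points
  set K : ℕ → Set Q := fun n => {x | σ x = x ∧ q ^ n • x = 0} with hK
  have hKmono : ∀ n m, n ≤ m → K n ⊆ K m := by
    intro n m hnm x hx
    refine ⟨hx.1, ?_⟩
    obtain ⟨k, rfl⟩ := Nat.exists_eq_add_of_le hnm
    rw [pow_add, mul_comm, mul_nsmul', hx.2, nsmul_zero]
  have hKfin : (⋃ n, K n).Finite := hfix.subset (Set.iUnion_subset fun n x hx => hx.1)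
  obtain ⟨N, hN⟩ : ∃ N, ⋃ n, K n ⊆ K N := by
    have h1 : ∀ x : Q, ∃ n, x ∈ (⋃ n, K n) → x ∈ K n := by
      intro x
      by_cases hx : x ∈ ⋃ n, K n
      · obtain ⟨n, hn⟩ := Set.mem_iUnion.1 hx
        exact ⟨n, fun _ => hn⟩
      · exact ⟨0, fun h => absurd h hx⟩
    choose g hg using h1
    refine ⟨hKfin.toFinset.sup g, fun x hx => ?_⟩
    exact hKmono _ _ (Finset.le_sup (f := g) (hKfin.mem_toFinset.2 hx)) (hg x hx)
  -- the order of the kernel
  haveI := hGf N
  obtain ⟨m, hm⟩ : ∃ m : ℕ, Nat.card (F N).ker ∣ q ^ m := by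
    have h1 := card_dvd (G := (F N).ker) (m := q ^ N) (Nat.pow_pos hq) (by
      intro y
      apply Subtype.ext
      apply Subtype.ext
      exact (mG N _).1 y.1.2)
    obtain ⟨k, hk⟩ := h1
    exact ⟨N * k, by rw [pow_mul]; exact hk⟩
  have hcard : ∀ n, N ≤ n → Nat.card (F n).ker = Nat.card (F N).ker := by
    intro n hn
    have hle : ∀ y : Q, y ∈ G N → y ∈ G n := by
      intro y hy
      rw [mG] at hy ⊢
      obtain ⟨k, rfl⟩ := Nat.exists_eq_add_of_le hn
      rw [pow_add, mul_comm, mul_nsmul', hy, nsmul_zero]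
    refine Nat.card_congr ⟨fun y => ⟨⟨(y.1 : Q), ?_⟩, ?_⟩, fun y => ⟨⟨(y.1 : Q), hle _ y.1.2⟩, ?_⟩, ?_, ?_⟩
    · have h1 : (y.1 : Q) ∈ K n := ⟨(hker n y.1).1 y.2, (mG n _).1 y.1.2⟩
      exact (mG N _).2 (hN (Set.mem_iUnion.2 ⟨n, h1⟩)).2
    · exact (hker N _).2 ((hker n y.1).1 y.2)
    · exact (hker n _).2 ((hker N y.1).1 y.2)
    · intro y
      rfl
    · intro y
      rfl
  -- the main step
  set n := max N (n₀ + m) with hn
  obtain ⟨y, hy⟩ := hsurj' m x
  have hyG : y ∈ G n := by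
    rw [mG]
    have h1 : q ^ (n₀ + m) • y = 0 := by rw [pow_add, mul_nsmul', hy, hn₀]
    obtain ⟨k, hk⟩ := Nat.exists_eq_add_of_le (le_max_right N (n₀ + m))
    rw [hn, hk, pow_add, mul_comm, mul_nsmul', h1, nsmul_zero]
  haveI := hGf n
  have hindex : (F n).range.index = Nat.card (F n).ker := by
    have h1 := (F n).range.card_mul_index
    have h2 : Nat.card (F n).ker * Nat.card (F n).range = Nat.card (G n) := by
      have h3 := AddSubgroup.card_eq_card_quotient_mul_card_addSubgroup (F n).ker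
      have h4 : Nat.card (G n ⧸ (F n).ker) = Nat.card (F n).range :=
        Nat.card_congr (QuotientAddGroup.quotientKerEquivRange (F n)).toEquiv
      rw [h3, h4, mul_comm]
    have h5 : 0 < Nat.card (F n).range := Nat.card_pos
    have h6 : Nat.card (F n).range * (F n).range.index = Nat.card (F n).range * Nat.card (F n).ker := by
      rw [h1, ← h2, mul_comm]
    exact Nat.eq_of_mul_eq_mul_left h5 h6
  have hmem : q ^ m • (⟨y, hyG⟩ : G n) ∈ (F n).range := by
    have h1 : (F n).range.index • (⟨y, hyG⟩ : G n) ∈ (F n).range := AddSubgroup.nsmul_index_mem _ _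
    rw [hindex, hcard n (le_max_left _ _)] at h1
    obtain ⟨k, hk⟩ := hm
    rw [hk, mul_comm, mul_nsmul']
    exact AddSubgroup.nsmul_mem _ h1 k
  obtain ⟨z, hz⟩ := hmem
  refine ⟨(z : Q), ?_⟩
  have h1 := congrArg (fun w : G n => (w : Q)) hz
  simp only [hFx, hfx] at h1
  rw [h1]
  exact hy

end H28I
end

-- from Lib.H28I.E2
section

/-! # H28I, part E: group theory, the count -/

namespace H28I

/-- order of a group = order of the kernel times order of the range -/
theorem e2_card {G H : Type} [AddCommGroup G] [AddCommGroup H] (f : G →+ H) :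
    Nat.card G = Nat.card f.range * Nat.card f.ker := by
  rw [AddSubgroup.card_eq_card_quotient_mul_card_addSubgroup f.ker,
    Nat.card_congr (QuotientAddGroup.quotientKerEquivRange f).toEquiv]

/-- Chunk E2 (M), pure group theory (snake lemma). C = the kernel of Φ (killed by q, so finite by hfin 1; every element of C is σ y - y by tor_in). S = {x | Φ (σ x - x) = 0}, a subgroup. f : S → C, f x = σ x - x is surjective with kernel {x | σ x = x}: |S| = |fix σ| |C|. Φ maps S onto {x' | σ' x' = x'} (he, hΦ) with kernel C: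
|S| = |fix σ'| |C|. |C| > 0. (AddSubgroup.card_eq_card_quotient_mul_card_addSubgroup, QuotientAddGroup.quotientKerEquivOfSurjective.) -/
theorem snake {Q Q' : Type} [AddCommGroup Q] [AddCommGroup Q'] (σ : Q →+ Q) (σ' : Q' →+ Q') (Φ : Q →+ Q')
    (hΦ : Function.Surjective Φ) (he : ∀ x, Φ (σ x) = σ' (Φ x)) (q : ℕ) (hk : ∀ x, Φ x = 0 → q • x = 0)
    (hsurj : ∀ x : Q, ∃ y, q • y = x) (hfin : ∀ n : ℕ, {x : Q | q ^ n • x = 0}.Finite) (hfix : {x : Q | σ x = x}.Finite) :
    Nat.card {x' : Q' // σ' x' = x'} = Nat.card {x : Q // σ x = x} := by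
  classical
  set S : AddSubgroup Q := (Φ.comp (σ - AddMonoidHom.id Q)).ker with hS
  have memS : ∀ x : Q, x ∈ S ↔ Φ (σ x - x) = 0 := fun x => Iff.rfl
  have memS' : ∀ x : Q, x ∈ S ↔ σ' (Φ x) = Φ x := fun x => by
    rw [memS, map_sub, he, sub_eq_zero]
  set f : S →+ Q := (σ - AddMonoidHom.id Q).comp S.subtype with hf
  have fval : ∀ x : S, f x = σ x - x := fun x => rfl
  set g : S →+ Q' := Φ.comp S.subtype with hg
  have gval : ∀ x : S, g x = Φ x := fun x => rfl
  have hCfin : Finite Φ.ker := by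
    have : ((Φ.ker : AddSubgroup Q) : Set Q).Finite := (hfin 1).subset fun x hx => by
      have := hk x hx
      simpa using this
    exact this.to_subtype
  -- range of f is the kernel of Φ
  have h1 : Nat.card f.range = Nat.card Φ.ker := by
    have : f.range = Φ.ker := by
      ext c
      constructor
      · rintro ⟨x, rfl⟩
        rw [AddMonoidHom.mem_ker, fval]
        exact (memS _).1 x.2
      · intro hc
        obtain ⟨y, hy⟩ := tor_in σ q hsurj hfin hfix (x := c) ⟨1, by simpa using hk c hc⟩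
        have hyS : y ∈ S := by rw [memS, hy]; exact hc
        exact ⟨⟨y, hyS⟩, by rw [fval]; exact hy⟩
    rw [this]
  have h2 : Nat.card f.ker = Nat.card {x : Q // σ x = x} := by
    refine Nat.card_congr
      { toFun := fun x => ⟨x.1.1, by
          have := x.2
          rw [AddMonoidHom.mem_ker, fval, sub_eq_zero] at this
          exact this⟩
        invFun := fun x => ⟨⟨x.1, by rw [memS, x.2, sub_self, map_zero]⟩, by
          rw [AddMonoidHom.mem_ker, fval]
          exact sub_eq_zero.2 x.2⟩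
        left_inv := fun x => rfl
        right_inv := fun x => rfl }
  have h3 : Nat.card g.range = Nat.card {x' : Q' // σ' x' = x'} := by
    refine Nat.card_congr (Equiv.subtypeEquivRight fun x' => ?_)
    constructor
    · rintro ⟨x, rfl⟩
      rw [gval]
      exact (memS' _).1 x.2
    · intro hx'
      obtain ⟨x, rfl⟩ := hΦ x'
      exact ⟨⟨x, (memS' _).2 hx'⟩, rfl⟩
  have h4 : Nat.card g.ker = Nat.card Φ.ker := by
    refine Nat.card_congr
      { toFun := fun x => ⟨x.1.1, x.2⟩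
        invFun := fun x => ⟨⟨x.1, by
          rw [memS', (AddMonoidHom.mem_ker.1 x.2), map_zero]⟩, x.2⟩
        left_inv := fun x => rfl
        right_inv := fun x => rfl }
  have h5 := e2_card f
  have h6 := e2_card g
  rw [h1, h2] at h5
  rw [h3, h4] at h6
  have hpos : 0 < Nat.card Φ.ker := Nat.card_pos
  have h7 : Nat.card {x' : Q' // σ' x' = x'} * Nat.card Φ.ker = Nat.card {x : Q // σ x = x} * Nat.card Φ.ker := by
    rw [← h6, h5, mul_comm]
  exact Nat.eq_of_mul_eq_mul_right hpos h7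

/-- Chunk E2 (S/M). snake for Q = P ⧸ Kg, Q' = P' ⧸ Kg', the induced maps (QuotientAddGroup.map). The class c of X satisfies σ c = c iff f X - X is in Kg (QuotientAddGroup.eq); for another representative as well. -/
theorem count_grp {P P' : Type} [AddCommGroup P] [AddCommGroup P'] (Kg : AddSubgroup P) (Kg' : AddSubgroup P') (Φ : P →+ P')
    (hs : Function.Surjective Φ) (f : P →+ P) (f' : P' →+ P') (he : ∀ X, Φ (f X) = f' (Φ X)) (hf : ∀ X ∈ Kg, f X ∈ Kg)
    (hf' : ∀ X ∈ Kg', f' X ∈ Kg') (h1 : ∀ X ∈ Kg, Φ X ∈ Kg') (q : ℕ) (h2 : ∀ X, Φ X ∈ Kg' → q • X ∈ Kg)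
    (hq : ∀ X : P, ∃ Y, q • Y = X) (hfin : ∀ n : ℕ, {c : P ⧸ Kg | q ^ n • c = 0}.Finite)
    (hfix : Finite {c : P ⧸ Kg // ∃ X : P, (X : P ⧸ Kg) = c ∧ f X - X ∈ Kg}) :
    Nat.card {c : P' ⧸ Kg' // ∃ X : P', (X : P' ⧸ Kg') = c ∧ f' X - X ∈ Kg'} =
      Nat.card {c : P ⧸ Kg // ∃ X : P, (X : P ⧸ Kg) = c ∧ f X - X ∈ Kg} := by
  set σ : P ⧸ Kg →+ P ⧸ Kg := QuotientAddGroup.map Kg Kg f (fun X hX => hf X hX) with hσ
  set σ' : P' ⧸ Kg' →+ P' ⧸ Kg' := QuotientAddGroup.map Kg' Kg' f' (fun X hX => hf' X hX) with hσ'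
  set Ψ : P ⧸ Kg →+ P' ⧸ Kg' := QuotientAddGroup.map Kg Kg' Φ (fun X hX => h1 X hX) with hΨ
  have e1 : ∀ X : P, σ (X : P ⧸ Kg) = ((f X : P) : P ⧸ Kg) := fun X => rfl
  have e2 : ∀ X : P', σ' (X : P' ⧸ Kg') = ((f' X : P') : P' ⧸ Kg') := fun X => rfl
  have e3 : ∀ X : P, Ψ (X : P ⧸ Kg) = ((Φ X : P') : P' ⧸ Kg') := fun X => rfl
  have k1 : ∀ c : P ⧸ Kg, (∃ X : P, (X : P ⧸ Kg) = c ∧ f X - X ∈ Kg) ↔ σ c = c := by
    intro c
    constructor
    · rintro ⟨X, rfl, hX⟩
      rw [e1]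
      exact (QuotientAddGroup.eq_iff_sub_mem).2 hX
    · intro hc
      obtain ⟨X, rfl⟩ := QuotientAddGroup.mk_surjective c
      rw [e1] at hc
      exact ⟨X, rfl, (QuotientAddGroup.eq_iff_sub_mem).1 hc⟩
  have k2 : ∀ c : P' ⧸ Kg', (∃ X : P', (X : P' ⧸ Kg') = c ∧ f' X - X ∈ Kg') ↔ σ' c = c := by
    intro c
    constructor
    · rintro ⟨X, rfl, hX⟩
      rw [e2]
      exact (QuotientAddGroup.eq_iff_sub_mem).2 hX
    · intro hc
      obtain ⟨X, rfl⟩ := QuotientAddGroup.mk_surjective c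
      rw [e2] at hc
      exact ⟨X, rfl, (QuotientAddGroup.eq_iff_sub_mem).1 hc⟩
  rw [Nat.card_congr (Equiv.subtypeEquivRight k1), Nat.card_congr (Equiv.subtypeEquivRight k2)]
  refine snake σ σ' Ψ ?_ ?_ q ?_ ?_ hfin ?_
  · intro c'
    obtain ⟨X', rfl⟩ := QuotientAddGroup.mk_surjective c'
    obtain ⟨X, rfl⟩ := hs X'
    exact ⟨(X : P ⧸ Kg), rfl⟩
  · intro c
    obtain ⟨X, rfl⟩ := QuotientAddGroup.mk_surjective c
    rw [e1, e3, e3, e2, he]
  · intro c hc
    obtain ⟨X, rfl⟩ := QuotientAddGroup.mk_surjective c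
    rw [e3] at hc
    have := h2 X ((QuotientAddGroup.eq_zero_iff _).1 hc)
    rw [← QuotientAddGroup.mk_nsmul]
    exact (QuotientAddGroup.eq_zero_iff _).2 this
  · intro c
    obtain ⟨X, rfl⟩ := QuotientAddGroup.mk_surjective c
    obtain ⟨Y, rfl⟩ := hq X
    exact ⟨(Y : P ⧸ Kg), by rw [← QuotientAddGroup.mk_nsmul]⟩
  · have : {x : P ⧸ Kg | σ x = x} = {c : P ⧸ Kg | ∃ X : P, (X : P ⧸ Kg) = c ∧ f X - X ∈ Kg} := by
      ext c; exact (k1 c).symm
    rw [this]
    exact Set.finite_coe_iff.1 hfix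

end H28I
end

-- from Lib.H28T.CC1A
section

namespace H28T

theorem cc1a_jac {D l : ℕ} (hD : 0 < D) (hlD : 4 * D ∣ l + 1) : jacobiSym (-(D : ℤ)) l = -1 := by
  obtain ⟨k, hk⟩ := hlD
  have hk0 : 0 < k := by
    rcases Nat.eq_zero_or_pos k with rfl | h
    · omega
    · exact h
  obtain ⟨k', rfl⟩ : ∃ k', k = k' + 1 := ⟨k - 1, by omega⟩
  have hlodd : Odd l := by
    refine ⟨2 * (D * (k' + 1)) - 1, ?_⟩
    have h1 : 4 * D * (k' + 1) = 4 * (D * (k' + 1)) := by ring
    have h2 : 0 < D * (k' + 1) := Nat.mul_pos hD (Nat.succ_pos _)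
    omega
  have hmod : l % (4 * D) = 4 * D - 1 := by
    have h1 : l = (4 * D - 1) + 4 * D * k' := by
      have h2 : 4 * D * (k' + 1) = 4 * D * k' + 4 * D := by ring
      omega
    rw [h1, Nat.add_mul_mod_self_left, Nat.mod_eq_of_lt (by omega)]
  have hodd : Odd (4 * D - 1) := ⟨2 * D - 1, by omega⟩
  have h1 : jacobiSym (-(D : ℤ)) l = jacobiSym (-(D : ℤ)) (4 * D - 1) := by
    rw [jacobiSym.mod_right _ hlodd, Int.natAbs_neg, Int.natAbs_natCast, hmod]
  have h2 : jacobiSym 4 (4 * D - 1) = 1 := by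
    have h3 : (4 : ℤ) = 2 ^ 2 := by norm_num
    rw [h3]
    refine jacobiSym.sq_one' ?_
    have h4 : Nat.Coprime 2 (4 * D - 1) := hodd.coprime_two_left
    exact_mod_cast h4
  have h3 : jacobiSym (-(D : ℤ)) (4 * D - 1) = jacobiSym (-1) (4 * D - 1) := by
    have h4 : jacobiSym (4 * (-(D : ℤ))) (4 * D - 1) = jacobiSym (-1) (4 * D - 1) := by
      refine jacobiSym.mod_left' ?_
      have h5 : ((4 * D - 1 : ℕ) : ℤ) = 4 * D - 1 := by
        rw [Nat.cast_sub (by omega)]
        push_cast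
        ring
      rw [h5]
      have h6 : (4 * (-(D : ℤ))) = -1 + (4 * D - 1) * (-1) := by ring
      rw [h6, Int.add_mul_emod_self_left]
    rw [jacobiSym.mul_left, h2, one_mul] at h4
    exact h4
  rw [h1, h3, jacobiSym.at_neg_one hodd, ZMod.χ₄_nat_three_mod_four (by omega)]

/-- Chunk CC1A (S/M). Let D > 0, l a prime number, l ≡ -1 modulo 4 D. Then -D is not a square modulo l. jacobiSym.mod_right (J(a | b) = J(a | b % (4 * a.natAbs)) for odd b): J(-D | l) = J(-D | 4 D - 1) (l is odd; l % (4 D) = 4 D - 1). J(-D | 4 D - 1) = J(-4 D | 4 D - 1) (J(4 | odd) = J(2)^2 = 1: jacobiSym.mul_left, sq_one'),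
-4 D ≡ -1 modulo 4 D - 1 (jacobiSym.mod_left'), J(-1 | 4 D - 1) = -1 because 4 D - 1 ≡ 3 modulo 4 (jacobiSym.at_neg_one, ZMod.χ₄_nat_three_mod_four). So the symbol is -1; jacobiSym for the prime l is the Legendre symbol (jacobiSym.legendreSym.to_jacobiSym), legendreSym.eq_neg_one_iff or eq_one_iff. -/
theorem cc1a_sq {D l : ℕ} (hD : 0 < D) (hl : l.Prime) (hlD : 4 * D ∣ l + 1) (x : ℤ) : ¬ (l : ℤ) ∣ x ^ 2 + D := by
  intro hdvd
  have : Fact l.Prime := ⟨hl⟩
  have h1 := cc1a_jac hD hlD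
  rw [← jacobiSym.legendreSym.to_jacobiSym, legendreSym.eq_neg_one_iff] at h1
  apply h1
  refine ⟨(x : ZMod l), ?_⟩
  have h2 : ((x ^ 2 + D : ℤ) : ZMod l) = 0 := (ZMod.intCast_zmod_eq_zero_iff_dvd _ l).2 hdvd
  push_cast at h2 ⊢
  linear_combination -h2

end H28T
end

-- from Lib.H13N.Defs
section

/-!
# H13N: the final statement for p = 3 (nonabelian 3-extensions), for all subfields

See PROOF.md.
-/

open NumberField IsDedekindDomain

namespace H13N

open H55B H35T

/-- Involutions of a group. -/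
abbrev Inv (Γ : Type) [Group Γ] : Type := {γ : Γ // γ ≠ 1 ∧ γ * γ = 1}

/-- N is a Galois extension of the rationals containing F, of 3-power degree over F, unramified outside
the good primes. -/
structure GalN (N : Type) [Field N] [NumberField N] [Algebra F N] (k : ℕ) : Prop where
  gal : IsGalois ℚ N
  deg : Module.finrank F N = 3 ^ k
  unr : UnrOut N

variable (K₀ N : Type) [Field K₀] [NumberField K₀] [Field N] [NumberField N] [Algebra K₀ N]

/-- The primes of N above 3 whose inertia group over the rationals meets the Galois group of N over K₀. -/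
abbrev WI : Type := {w : HeightOneSpectrum (𝓞 N) // (3 : 𝓞 N) ∈ w.asIdeal ∧
  ∃ γ : N ≃ₐ[K₀] N, γ ≠ 1 ∧ ∀ y : 𝓞 N, γ • y - y ∈ w.asIdeal}

/-- The primes of N above 3. -/
abbrev W3 : Type := {w : HeightOneSpectrum (𝓞 N) // (3 : 𝓞 N) ∈ w.asIdeal}

end H13N
end

-- from Lib.H35T.A6
section

open NumberField IsDedekindDomain

namespace H35T

open H55B

/-! Chunk A6 (M): consequences of Comp (compare H55C.A6). Everything from span: a ring homomorphism on N is determined by its values on K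
and on iota. ext: hom_ext. T_i: T_M and tau_i. T_T, act_mul, act_one, act_T by ext. fixT: z = a + b iota, T z = a - b iota = z gives
b = 0 (indep). norm_K: z T z is fixed by T. fixed: z = a + b iota fixed by all act g: g a = a, g b = b (indep) so a, b in F (IsGalois),
z is the image of a' + b' iota in M. mfix: the same for tau. om_eq, sq3_eq: compatibility of the two maps O -> N (tower). -/

variable {K M N : Type} [Field K] [NumberField K] [Algebra F K] [Field M] [NumberField M]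
  [Algebra F M] [Field N] [NumberField N] [Algebra K N] [Algebra M N] {ι : M} {τ : M ≃+* M}
  {T : N ≃+* N} {act : (K ≃ₐ[F] K) → (N ≃+* N)}

theorem ext_hom (C : Comp K M N ι τ T act) {R : Type} [Ring R] (f g : N →+* R)
    (h1 : ∀ x : K, f (algebraMap K N x) = g (algebraMap K N x))
    (h2 : f (algebraMap M N ι) = g (algebraMap M N ι)) (z : N) : f z = g z := by
  obtain ⟨a, b, rfl⟩ := C.span z
  simp only [map_add, map_mul, h1, h2]

theorem O_eq (C : Comp K M N ι τ T act) (x : O) :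
    algebraMap M N (algebraMap O M x) = algebraMap K N (algebraMap O K x) := by
  have h1 : algebraMap O M x = algebraMap F M (algebraMap O F x) :=
    IsScalarTower.algebraMap_apply O F M x
  have h2 : algebraMap O K x = algebraMap F K (algebraMap O F x) :=
    IsScalarTower.algebraMap_apply O F K x
  rw [h1, h2, C.tower]

theorem T_i (C : Comp K M N ι τ T act) : T (algebraMap M N ι) = -algebraMap M N ι := by
  rw [C.T_M, C.tau_i, map_neg]

theorem T_T (C : Comp K M N ι τ T act) (z : N) : T (T z) = z := by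
  have h := ext_hom C (T.trans T : N ≃+* N).toRingHom (RingHom.id N)
    (fun x => by
      show T (T (algebraMap K N x)) = algebraMap K N x
      rw [C.T_K, C.T_K]) (by
      show T (T (algebraMap M N ι)) = algebraMap M N ι
      rw [T_i C, map_neg, T_i C, neg_neg]) z
  exact h

theorem act_mul (C : Comp K M N ι τ T act) (g h : K ≃ₐ[F] K) (z : N) :
    act (g * h) z = act g (act h z) := by
  have h' := ext_hom C (act (g * h)).toRingHom ((act h).trans (act g) : N ≃+* N).toRingHom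
    (fun x => by
      show act (g * h) (algebraMap K N x) = act g (act h (algebraMap K N x))
      rw [C.act_K, C.act_K, C.act_K]
      rfl) (by
      show act (g * h) (algebraMap M N ι) = act g (act h (algebraMap M N ι))
      rw [C.act_M, C.act_M, C.act_M]) z
  exact h'

theorem act_one (C : Comp K M N ι τ T act) (z : N) : act 1 z = z := by
  have h' := ext_hom C (act 1).toRingHom (RingHom.id N)
    (fun x => by
      show act 1 (algebraMap K N x) = algebraMap K N x
      rw [C.act_K]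
      rfl) (by
      show act 1 (algebraMap M N ι) = algebraMap M N ι
      rw [C.act_M]) z
  exact h'

theorem act_T (C : Comp K M N ι τ T act) (g : K ≃ₐ[F] K) (z : N) :
    act g (T z) = T (act g z) := by
  have h' := ext_hom C (T.trans (act g) : N ≃+* N).toRingHom ((act g).trans T : N ≃+* N).toRingHom
    (fun x => by
      show act g (T (algebraMap K N x)) = T (act g (algebraMap K N x))
      rw [C.T_K, C.act_K, C.T_K]) (by
      show act g (T (algebraMap M N ι)) = T (act g (algebraMap M N ι))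
      rw [C.act_M, C.T_M, C.act_M]) z
  exact h'

theorem fixT (C : Comp K M N ι τ T act) (z : N) (hz : T z = z) :
    ∃ x : K, algebraMap K N x = z := by
  obtain ⟨a, b, rfl⟩ := C.span z
  simp only [map_add, map_mul, C.T_K, T_i C] at hz
  obtain ⟨-, hb⟩ := C.indep 0 (2 * b) (by
    simp only [map_zero, map_mul, map_ofNat]
    linear_combination -hz)
  have hb' : b = 0 := (mul_eq_zero.1 hb).resolve_left two_ne_zero
  exact ⟨a, by rw [hb']; simp⟩

theorem norm_K (C : Comp K M N ι τ T act) (z : N) :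
    ∃ x : K, z * T z = algebraMap K N x := by
  obtain ⟨x, hx⟩ := fixT C (z * T z) (by
    rw [map_mul, T_T C]
    ring)
  exact ⟨x, hx.symm⟩

theorem fixed (C : Comp K M N ι τ T act) (hG : IsGalois F K) (z : N)
    (hz : ∀ g, act g z = z) : ∃ m : M, algebraMap M N m = z := by
  obtain ⟨a, b, rfl⟩ := C.span z
  have key : ∀ g : K ≃ₐ[F] K, g a = a ∧ g b = b := by
    intro g
    have h := hz g
    simp only [map_add, map_mul, C.act_K, C.act_M] at h
    obtain ⟨h1, h2⟩ := C.indep (g a - a) (g b - b) (by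
      simp only [map_sub]
      linear_combination h)
    exact ⟨sub_eq_zero.1 h1, sub_eq_zero.1 h2⟩
  obtain ⟨a', ha⟩ := (IsGalois.mem_range_algebraMap_iff_fixed a).2 fun g => (key g).1
  obtain ⟨b', hb⟩ := (IsGalois.mem_range_algebraMap_iff_fixed b).2 fun g => (key g).2
  refine ⟨algebraMap F M a' + algebraMap F M b' * ι, ?_⟩
  simp only [map_add, map_mul, ← C.tower, ha, hb]

theorem tau_tau (C : Comp K M N ι τ T act) (z : M) : τ (τ z) = z := by
  obtain ⟨a, b, rfl⟩ := C.mspan z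
  simp only [map_add, map_mul, C.tau_F, C.tau_i, map_neg, neg_neg]

end H35T
end

-- from Lib.H35T.A1
section

open NumberField IsDedekindDomain

namespace H35T

open H55B

/-! Chunk A1 (S): local valuations away from 2. Compare H55C.A1. Y = algebraMap K N y, X = algebraMap K N x. s = Y - i, s' = Y + i,
s s' = Y^2 + 1 = X^3, s' - s = 2i has value 1 (v(i) = 1 because v(i)^2 = v(-1) = 1). X is nonzero.
v(Y) > 1: v(s) = v(s') = v(Y), so v(Y)^2 = v(X)^3 and v(Y) = (v(Y)/v(X))^3. v(Y) <= 1: v(s), v(s') <= 1 and they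
are not both < 1. If v(s) = 1 take k = 0; if v(s') = 1 then v(s) = v(X)^3. Every nonzero value is exp of an
integer (WithZero.exp_log). -/

theorem A1_exp (g : WithZero (Multiplicative ℤ)) (h : g ≠ 0) : ∃ k : ℤ, g = WithZero.exp k :=
  ⟨WithZero.log g, (WithZero.exp_log h).symm⟩

theorem A1_pow (k : ℤ) (n : ℕ) : (WithZero.exp k : WithZero (Multiplicative ℤ)) ^ n =
    WithZero.exp ((n : ℤ) * k) := by
  rw [← nsmul_eq_mul, WithZero.exp_nsmul]

theorem loc1 {K N : Type} [Field K] [Field N] [Algebra K N]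
    (v : Valuation N (WithZero (Multiplicative ℤ))) (i : N) (hi : i ^ 2 = -1) (h2 : v 2 = 1) (x y : K)
    (hxy : y ^ 2 = x ^ 3 - 1) (hx : x ≠ 0) :
    ∃ k : ℤ, v (algebraMap K N y - i) = WithZero.exp (3 * k) := by
  have vi : v i = 1 := by
    have h : v i ^ 2 = 1 := by rw [← map_pow, hi, Valuation.map_neg, map_one]
    exact (pow_eq_one_iff_of_nonneg zero_le two_ne_zero).mp h
  set Y : N := algebraMap K N y with hY
  set X : N := algebraMap K N x with hX
  have hcur : (Y - i) * (Y + i) = X ^ 3 := by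
    have := congrArg (algebraMap K N) hxy
    rw [map_pow, map_sub, map_pow, map_one] at this
    linear_combination this - hi
  have hX0 : v X ≠ 0 := by
    rw [Valuation.ne_zero_iff]
    exact (map_ne_zero _).2 hx
  obtain ⟨l, hl⟩ := A1_exp _ hX0
  have hprod : v (Y - i) * v (Y + i) = WithZero.exp (3 * l) := by
    rw [← Valuation.map_mul, hcur, Valuation.map_pow, hl, A1_pow]
    push_cast
    rfl
  have hm0 : v (Y - i) ≠ 0 := by
    intro h
    rw [h, zero_mul] at hprod
    exact WithZero.exp_ne_zero hprod.symm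
  obtain ⟨j, hj⟩ := A1_exp _ hm0
  rcases lt_or_ge 1 (v Y) with h1 | h1
  · have e1 : v (Y - i) = v Y := Valuation.map_sub_eq_of_lt_left _ (by rw [vi]; exact h1)
    have e2 : v (Y + i) = v Y := Valuation.map_add_eq_of_lt_left _ (by rw [vi]; exact h1)
    have e3 : v (Y + i) = WithZero.exp j := by rw [e2, ← e1, hj]
    rw [hj, e3, ← WithZero.exp_add, WithZero.exp_inj] at hprod
    refine ⟨j - l, ?_⟩
    rw [hj, WithZero.exp_inj]
    linarith
  · have hs : v (Y - i) ≤ 1 := Valuation.map_sub_le _ h1 (by rw [vi])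
    rcases lt_or_eq_of_le hs with hs | hs
    · have f : Y + i = (Y - i) + 2 * i := by ring
      have g : v (Y + i) = 1 := by
        have h2i : v (2 * i) = 1 := by rw [Valuation.map_mul, h2, vi, one_mul]
        rw [f, Valuation.map_add_eq_of_lt_right _ (by rw [h2i]; exact hs), h2i]
      rw [g, mul_one] at hprod
      exact ⟨l, hprod⟩
    · exact ⟨0, by rw [hs, mul_zero, WithZero.exp_zero]⟩

end H35T
end

-- from Lib.H35T.A2
section

open NumberField IsDedekindDomain

namespace H35T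

open H55B

/-! Chunk A2 (M): local condition above 2. Compare H55C.A2. Notation of A1. (1 - i)^2 = -2i, so v(1 - i)^2 = v(2) and
v(2) < v(1 - i) < 1. v(Y) > 1: as in A1 (v(s) = v(s') = v(Y)). v(Y) <= 1: v(s) <= 1. Suppose v(s) < 1. Then
v(Y - 1) = v(s + (i - 1)) < 1, so v(Y - 1) <= v(2) by hK (applied to y - 1), hence v(s) = v((Y - 1) + (1 - i)) = v(1 - i) and
v(s') = v(s + 2i) = v(1 - i). So v(X)^3 = v(2), v(X) < 1, v(X) <= v(2) by hK, v(X)^3 <= v(2)^3 < v(2): contradiction. So v(s) = 1. -/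

theorem a2_exp {z : WithZero (Multiplicative ℤ)} (h : z ≠ 0) : ∃ m : ℤ, z = WithZero.exp m :=
  ⟨WithZero.log z, (WithZero.exp_log h).symm⟩

theorem loc2 {K N : Type} [Field K] [Field N] [Algebra K N]
    (v : Valuation N (WithZero (Multiplicative ℤ))) (i : N) (hi : i ^ 2 = -1) (h20 : v 2 ≠ 0)
    (h2 : v 2 < 1) (hK : ∀ z : K, v (algebraMap K N z) < 1 → v (algebraMap K N z) ≤ v 2) (x y : K)
    (hxy : y ^ 2 = x ^ 3 - 1) (hx : x ≠ 0) :
    ∃ k : ℤ, v (algebraMap K N y - i) = WithZero.exp (3 * k) := by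
  have hX0 : algebraMap K N x ≠ 0 := by
    rw [Ne, map_eq_zero]
    exact hx
  have hY : (algebraMap K N y) ^ 2 = (algebraMap K N x) ^ 3 - 1 := by
    rw [← map_pow, hxy, map_sub, map_pow, map_one]
  have hKy : v (algebraMap K N y - 1) < 1 → v (algebraMap K N y - 1) ≤ v 2 := by
    have := hK (y - 1)
    rw [map_sub, map_one] at this
    exact this
  have hKx := hK x
  generalize algebraMap K N x = X at hX0 hY hKx
  generalize algebraMap K N y = Y at hY hKy ⊢
  have hvi : v i = 1 := by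
    have h1 : v i ^ 2 = 1 := by
      rw [← map_pow, hi, Valuation.map_neg, map_one]
    exact (pow_eq_one_iff_of_nonneg zero_le two_ne_zero).mp h1
  have hprod : (Y - i) * (Y + i) = X ^ 3 := by
    have h1 : (Y - i) * (Y + i) = Y ^ 2 - i ^ 2 := by ring
    rw [h1, hY, hi]
    ring
  have hvp : v (Y - i) * v (Y + i) = v X ^ 3 := by
    rw [← map_mul, hprod, map_pow]
  have hvX : v X ≠ 0 := (Valuation.ne_zero_iff v).2 hX0
  rcases lt_or_ge 1 (v Y) with hY1 | hY1
  · -- a pole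
    have e1 : v (Y - i) = v Y := Valuation.map_sub_eq_of_lt_left v (by rw [hvi]; exact hY1)
    have e2 : v (Y + i) = v Y := Valuation.map_add_eq_of_lt_left v (by rw [hvi]; exact hY1)
    rw [e1, e2] at hvp
    have hvY : v Y ≠ 0 := (lt_trans zero_lt_one hY1).ne'
    obtain ⟨m, hm⟩ := a2_exp hvX
    obtain ⟨a, ha⟩ := a2_exp hvY
    rw [e1]
    rw [ha, hm, ← WithZero.exp_add, ← WithZero.exp_nsmul] at hvp
    have h3 := WithZero.exp_injective hvp
    refine ⟨m - m / 2 , ?_⟩
    rw [ha]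
    congr 1
    simp only [nsmul_eq_mul, Nat.cast_ofNat] at h3
    omega
  · have hs1 : v (Y - i) ≤ 1 := by
      refine le_trans (v.map_sub Y i) ?_
      rw [hvi]
      exact max_le hY1 le_rfl
    rcases hs1.lt_or_eq with hs | hs
    · exfalso
      have hp : (1 - i) ^ 2 = -(2 * i) := by
        have h1 : (1 - i) ^ 2 = 1 - 2 * i + i ^ 2 := by ring
        rw [h1, hi]
        ring
      have hpi : v (1 - i) ^ 2 = v 2 := by
        rw [← map_pow, hp, Valuation.map_neg, map_mul, hvi, mul_one]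
      have hp1 : v (1 - i) < 1 := by
        by_contra hcon
        have h3 : 1 ≤ v (1 - i) := not_lt.1 hcon
        have h4 : 1 ≤ v (1 - i) ^ 2 := one_le_pow₀ h3
        rw [hpi] at h4
        exact absurd h2 (not_lt.2 h4)
      have hp0 : v (1 - i) ≠ 0 := by
        intro h0
        apply h20
        rw [← hpi, h0]
        exact zero_pow (by norm_num)
      have h2p : v 2 < v (1 - i) := by
        rw [← hpi, pow_two]
        exact mul_lt_of_lt_one_right (zero_lt_iff.2 hp0) hp1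
      have e0 : Y - 1 = (Y - i) - (1 - i) := by ring
      have hy1 : v (Y - 1) < 1 := by
        rw [e0]
        exact lt_of_le_of_lt (v.map_sub _ _) (max_lt hs hp1)
      have hy2 := hKy hy1
      have e1 : Y - i = (Y - 1) + (1 - i) := by ring
      have hsv : v (Y - i) = v (1 - i) := by
        rw [e1]
        exact Valuation.map_add_eq_of_lt_right v (lt_of_le_of_lt hy2 h2p)
      have e2 : Y + i = 2 * i + (Y - i) := by ring
      have hsv' : v (Y + i) = v (1 - i) := by
        rw [e2, ← hsv]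
        refine Valuation.map_add_eq_of_lt_right v ?_
        rw [map_mul, hvi, mul_one, hsv]
        exact h2p
      rw [hsv, hsv', ← pow_two, hpi] at hvp
      have hX1 : v X < 1 := by
        by_contra hcon
        have h3 : 1 ≤ v X := not_lt.1 hcon
        have h4 : 1 ≤ v X ^ 3 := one_le_pow₀ h3
        rw [← hvp] at h4
        exact absurd h2 (not_lt.2 h4)
      have hX2 := hKx hX1
      have h5 : v X ^ 3 ≤ v 2 ^ 3 := pow_le_pow_left₀ zero_le hX2 3
      rw [← hvp] at h5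
      have h6 : v 2 ^ 3 < v 2 := by
        have h7 : v 2 ^ 3 = v 2 * v 2 ^ 2 := pow_succ' _ 2
        rw [h7]
        exact mul_lt_of_lt_one_right (zero_lt_iff.2 h20) (pow_lt_one₀ zero_le h2 (by norm_num))
      exact absurd h6 (not_lt.2 h5)
    · exact ⟨0, by rw [hs]; rfl⟩

end H35T
end

-- from Lib.H35T.A3
section

open NumberField IsDedekindDomain

namespace H35T

open H55B

/-! Chunk A3 (M): local condition above 3. X, Y, i as in A1, rho = image of r, lam = rho - 1, 3 = -rho^2 lam^2, v(3) = v(lam)^2, v(rho) = 1.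
Every nonzero z in K has v(z) = v(lam)^n, n an integer (hK). Y^2 + 1 = X^3, Y^2 = (X - 1)(X - rho)(X - rho^2).
(a) v(Y) > 1: v(Y)^2 = v(X)^3 with v(Y) = v(lam)^(-a), v(X) = v(lam)^(-b), 2a = 3b, a > 0, so a >= 3 and v(1/Y) <= v(lam)^3.
b := Y/X: (Y - i)/b^3 = (Y - i) X^3/Y^3 = (Y - i)(Y^2 + 1)/Y^3 = (1 - i/Y)(1 + 1/Y^2), so
v((Y - i)/b^3 - 1) <= v(1/Y) <= v(lam)^3 <= v(3).
(b) v(Y) <= 1: first there is b0 in K (as an element B of N) with v(B) <= 1 and v(Y - B^3) <= v(3):
if v(Y) = 1: B = Y/(X - 1): Y^2 = X^3 - 1 = (X-1)^3 + 3X(X-1), v(X) <= 1, v(X - 1) = 1 (else v(Y) < 1), and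
Y - B^3 = Y ((X-1)^3 - Y^2)/(X-1)^3 = -3XY(X-1)/(X-1)^3.
if v(Y) < 1: B = 0: one of the three factors X - rho^j has value < 1, so <= v(lam) by hK, then all three are <= v(lam) since their
differences have value v(lam) (rho^2 - rho = rho lam, 1 - rho^2 = -(rho+1) lam, v(rho + 1) = v(-rho^2) = 1), so
v(Y)^2 <= v(lam)^3 and with v(Y) = v(lam)^n: n >= 2, v(Y) <= v(lam)^2 = v(3). (If Y = 0 trivial.)
Put b = B + i. b is nonzero and v(b) = 1 by h1: 1 = v(B^2 + 1) = v(B + i) v(B - i), both <= 1.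
b^3 = B^3 + 3 B^2 i - 3 B - i, Y - i - b^3 = (Y - B^3) - 3 (B^2 i - B) has value <= v(3). -/

theorem A3_exp (g : WithZero (Multiplicative ℤ)) (h : g ≠ 0) : ∃ k : ℤ, g = WithZero.exp k :=
  ⟨WithZero.log g, (WithZero.exp_log h).symm⟩

theorem A3_pow (k : ℤ) (n : ℕ) : (WithZero.exp k : WithZero (Multiplicative ℤ)) ^ n =
    WithZero.exp ((n : ℤ) * k) := by
  rw [← nsmul_eq_mul, WithZero.exp_nsmul]

theorem A3_lt (k : ℤ) : (WithZero.exp k : WithZero (Multiplicative ℤ)) < 1 ↔ k < 0 := by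
  rw [← WithZero.exp_zero, WithZero.exp_lt_exp]

theorem A3_i {N : Type} [Field N] (v : Valuation N (WithZero (Multiplicative ℤ))) (i : N)
    (hi : i ^ 2 = -1) : v i = 1 := by
  have h : v i ^ 2 = 1 := by
    rw [← map_pow, hi, Valuation.map_neg, map_one]
  exact (pow_eq_one_iff_of_nonneg zero_le two_ne_zero).mp h

/-- From a cube root modulo 3 in K to a cube root of Y - i. -/
theorem A3_cube {K N : Type} [Field K] [Field N] [Algebra K N]
    (v : Valuation N (WithZero (Multiplicative ℤ))) (i : N)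
    (hi : i ^ 2 = -1)
    (h1 : ∀ z : K, v (algebraMap K N z) ≤ 1 → v (algebraMap K N z ^ 2 + 1) = 1)
    (Y : N) (β : K) (hβ : v (algebraMap K N β) ≤ 1) (hY : v (Y - algebraMap K N β ^ 3) ≤ v 3) :
    ∃ b : N, b ≠ 0 ∧ v ((Y - i) / b ^ 3 - 1) ≤ v 3 := by
  have hvi := A3_i v i hi
  set B : N := algebraMap K N β with hB
  have hp : v (B + i) ≤ 1 := Valuation.map_add_le _ hβ hvi.le
  have hm : v (B - i) ≤ 1 := Valuation.map_sub_le _ hβ hvi.le
  have hprod : v (B + i) * v (B - i) = 1 := by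
    rw [← map_mul, ← h1 β hβ]
    congr 1
    linear_combination (-1 : N) * hi
  have hb1 : v (B + i) = 1 := by
    refine le_antisymm hp ?_
    rw [← hprod]
    exact mul_le_of_le_one_right' hm
  have hb0 : B + i ≠ 0 := by
    intro h
    rw [h, map_zero] at hb1
    exact zero_ne_one hb1
  refine ⟨B + i, hb0, ?_⟩
  have e : (Y - i) / (B + i) ^ 3 - 1 =
      ((Y - B ^ 3) - 3 * (B ^ 2 * i - B)) / (B + i) ^ 3 := by
    rw [div_sub_one (pow_ne_zero 3 hb0)]
    congr 1
    linear_combination (-(3 * B) - i) * hi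
  rw [e, map_div₀, map_pow, hb1, one_pow, div_one]
  refine Valuation.map_sub_le _ hY ?_
  rw [map_mul]
  refine mul_le_of_le_one_right' ?_
  refine Valuation.map_sub_le _ ?_ hβ
  rw [map_mul, map_pow, hvi, mul_one]
  exact pow_le_one' hβ 2

theorem loc3 {K N : Type} [Field K] [Field N] [Algebra K N]
    (v : Valuation N (WithZero (Multiplicative ℤ))) (r : K) (hr : r ^ 2 + r + 1 = 0) (i : N)
    (hi : i ^ 2 = -1) (h30 : v 3 ≠ 0) (h3 : v 3 < 1)
    (hK : ∀ z : K, v (algebraMap K N z) < 1 → v (algebraMap K N z) ≤ v (algebraMap K N (r - 1)))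
    (h1 : ∀ z : K, v (algebraMap K N z) ≤ 1 → v (algebraMap K N z ^ 2 + 1) = 1)
    (x y : K) (hxy : y ^ 2 = x ^ 3 - 1) (hx : x ≠ 0) :
    ∃ b : N, b ≠ 0 ∧ v ((algebraMap K N y - i) / b ^ 3 - 1) ≤ v 3 := by
  have hvi := A3_i v i hi
  have hR : (algebraMap K N r) ^ 2 + algebraMap K N r + 1 = 0 := by
    have := congrArg (algebraMap K N) hr
    rwa [map_add, map_add, map_pow, map_one, map_zero] at this
  have hcur : (algebraMap K N y) ^ 2 = (algebraMap K N x) ^ 3 - 1 := by
    have := congrArg (algebraMap K N) hxy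
    rwa [map_sub, map_pow, map_pow, map_one] at this
  have hX0 : algebraMap K N x ≠ 0 := (map_ne_zero _).2 hx
  have hL : algebraMap K N (r - 1) = algebraMap K N r - 1 := by rw [map_sub, map_one]
  set R : N := algebraMap K N r with hR'
  set X : N := algebraMap K N x with hX'
  set Y : N := algebraMap K N y with hY'
  set L : N := algebraMap K N (r - 1) with hL'
  have hvR : v R = 1 := by
    have h : v R ^ 3 = 1 := by
      rw [← map_pow, show R ^ 3 = 1 by linear_combination (R - 1) * hR, map_one]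
    exact (pow_eq_one_iff_of_nonneg zero_le three_ne_zero).mp h
  have hvL2 : v 3 = v L ^ 2 := by
    have h : v (L ^ 2) = v (3 * R) := by
      rw [hL, show (R - 1) ^ 2 = -(3 * R) by linear_combination hR, Valuation.map_neg]
    rw [map_mul, hvR, mul_one, map_pow] at h
    exact h.symm
  have hvL0 : v L ≠ 0 := by
    intro h
    rw [h, zero_pow two_ne_zero] at hvL2
    exact h30 hvL2
  obtain ⟨s, hs⟩ := A3_exp _ hvL0
  have hv3 : v 3 = WithZero.exp (2 * s) := by
    rw [hvL2, hs, A3_pow]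
    push_cast
    rfl
  have hs0 : s < 0 := by
    rw [hv3, A3_lt] at h3
    linarith
  rcases lt_or_ge 1 (v Y) with hY | hY
  · -- v(Y) > 1
    have hY0v : v Y ≠ 0 := by
      intro h
      rw [h] at hY
      exact absurd hY (by simp)
    have hY0 : Y ≠ 0 := (Valuation.ne_zero_iff _).mp hY0v
    obtain ⟨b, hb⟩ := A3_exp _ hY0v
    obtain ⟨a, ha⟩ := A3_exp _ ((Valuation.ne_zero_iff v).mpr hX0)
    have hb0 : 0 < b := by
      rw [hb, ← WithZero.exp_zero, WithZero.exp_lt_exp] at hY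
      exact hY
    have h2b : 3 * a = 2 * b := by
      have h1 : v (X ^ 3) = v (Y ^ 2) := by
        have e : X ^ 3 = Y ^ 2 + 1 := by rw [hcur]; ring
        rw [e]
        apply Valuation.map_add_eq_of_lt_left
        rw [map_one, map_pow]
        exact one_lt_pow₀ hY two_ne_zero
      rw [map_pow, map_pow, ha, hb, A3_pow, A3_pow, WithZero.exp_inj] at h1
      push_cast at h1
      exact h1
    have k1 : a - b ≤ s := by
      have h1 : v (algebraMap K N (x / y)) = WithZero.exp (a - b) := by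
        rw [map_div₀, map_div₀, ← hX', ← hY', ha, hb, WithZero.exp_sub]
      have h3 := hK (x / y) (by rw [h1, A3_lt]; linarith)
      rw [h1, hs, WithZero.exp_le_exp] at h3
      exact h3
    refine ⟨Y / X, div_ne_zero hY0 hX0, ?_⟩
    have e : (Y - i) / (Y / X) ^ 3 - 1 = Y⁻¹ * (Y⁻¹ - i - i * Y⁻¹ ^ 2) := by
      have e1 : (Y - i) / (Y / X) ^ 3 = (Y - i) * (Y ^ 2 + 1) / Y ^ 3 := by
        rw [div_pow, hcur]
        field_simp
        ring
      rw [e1]
      field_simp
      ring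
    have hYi : v Y⁻¹ ≤ 1 := by
      rw [map_inv₀]
      exact inv_le_one_of_one_le₀ hY.le
    rw [e, map_mul]
    refine (mul_le_of_le_one_right' ?_).trans ?_
    · refine Valuation.map_sub_le _ (Valuation.map_sub_le _ hYi hvi.le) ?_
      rw [map_mul, map_pow, hvi, one_mul]
      exact pow_le_one' hYi 2
    · rw [map_inv₀, hb, hv3, ← WithZero.exp_neg, WithZero.exp_le_exp]
      linarith
  · rcases eq_or_lt_of_le hY with hY1 | hY1
    · -- v(Y) = 1
      have hX1 : v X ≤ 1 := by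
        have h : v X ^ 3 ≤ 1 := by
          rw [← map_pow, show X ^ 3 = Y ^ 2 + 1 by rw [hcur]; ring]
          refine Valuation.map_add_le _ ?_ (by rw [map_one])
          rw [map_pow]
          exact pow_le_one' hY 2
        exact (pow_le_one_iff three_ne_zero).mp h
      have hfac : Y ^ 2 = (X - 1) * (X ^ 2 + X + 1) := by rw [hcur]; ring
      have hXm : v (X - 1) ≤ 1 := Valuation.map_sub_le _ hX1 (by rw [map_one])
      have hXq : v (X ^ 2 + X + 1) ≤ 1 := by
        refine Valuation.map_add_le _ (Valuation.map_add_le _ ?_ hX1) (by rw [map_one])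
        rw [map_pow]
        exact pow_le_one' hX1 2
      have hXm1 : v (X - 1) = 1 := by
        refine le_antisymm hXm ?_
        have h : v (X - 1) * v (X ^ 2 + X + 1) = 1 := by
          rw [← map_mul, ← hfac, map_pow, hY1, one_pow]
        rw [← h]
        exact mul_le_of_le_one_right' hXq
      have hX10 : X - 1 ≠ 0 := by
        intro h
        rw [h, map_zero] at hXm1
        exact zero_ne_one hXm1
      have hBe : algebraMap K N (y / (x - 1)) = Y / (X - 1) := by
        rw [map_div₀, map_sub, map_one]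
      refine A3_cube v i hi h1 Y (y / (x - 1)) ?_ ?_
      · rw [hBe, map_div₀, hXm1, div_one]
        exact hY
      · rw [hBe]
        have e : Y - (Y / (X - 1)) ^ 3 = 3 * (-(X * Y) / (X - 1) ^ 2) := by
          have e1 : (Y / (X - 1)) ^ 3 = Y * (X ^ 3 - 1) / (X - 1) ^ 3 := by
            rw [div_pow, ← hcur]
            ring
          rw [e1]
          field_simp
          ring
        rw [e, map_mul]
        refine mul_le_of_le_one_right' ?_
        rw [map_div₀, Valuation.map_neg, map_mul, map_pow, hXm1, one_pow, div_one]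
        exact mul_le_one' hX1 hY
    · -- v(Y) < 1
      refine A3_cube v i hi h1 Y 0 (by rw [map_zero, map_zero]; exact zero_le_one) ?_
      rw [map_zero, zero_pow three_ne_zero, sub_zero]
      by_cases hY0 : Y = 0
      · rw [hY0, map_zero]
        exact zero_le
      have hfac : Y ^ 2 = (X - 1) * (X - R) * (X - R ^ 2) := by
        rw [hcur]
        linear_combination (X - 1) * (X - (R - 1)) * hR
      have hX1 : v X ≤ 1 := by
        have h : v X ^ 3 ≤ 1 := by
          rw [← map_pow, show X ^ 3 = Y ^ 2 + 1 by rw [hcur]; ring]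
          refine Valuation.map_add_le _ ?_ (by rw [map_one])
          rw [map_pow]
          exact pow_le_one' hY 2
        exact (pow_le_one_iff three_ne_zero).mp h
      have hR1 : v (R + 1) = 1 := by
        rw [show R + 1 = -(R ^ 2) by linear_combination hR, Valuation.map_neg, map_pow, hvR,
          one_pow]
      have g0 : v (X - 1) ≤ 1 := Valuation.map_sub_le _ hX1 (by rw [map_one])
      have g1 : v (X - R) ≤ 1 := Valuation.map_sub_le _ hX1 hvR.le
      have g2 : v (X - R ^ 2) ≤ 1 := Valuation.map_sub_le _ hX1 (by rw [map_pow, hvR, one_pow])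
      have d01 : v (R - 1) ≤ v L := by rw [hL]
      have d02 : v (R ^ 2 - 1) ≤ v L := by
        rw [show R ^ 2 - 1 = L * (R + 1) by rw [hL]; ring, map_mul, hR1, mul_one]
      have d12 : v (R ^ 2 - R) ≤ v L := by
        rw [show R ^ 2 - R = L * R by rw [hL]; ring, map_mul, hvR, mul_one]
      have q0 : v (X - 1) < 1 → v (X - 1) ≤ v L := by
        intro h
        have := hK (x - 1) (by rw [map_sub, map_one]; exact h)
        rwa [map_sub, map_one] at this
      have q1 : v (X - R) < 1 → v (X - R) ≤ v L := by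
        intro h
        have := hK (x - r) (by rw [map_sub]; exact h)
        rwa [map_sub] at this
      have q2 : v (X - R ^ 2) < 1 → v (X - R ^ 2) ≤ v L := by
        intro h
        have := hK (x - r ^ 2) (by rw [map_sub, map_pow]; exact h)
        rwa [map_sub, map_pow] at this
      have hall : v (X - 1) ≤ v L ∧ v (X - R) ≤ v L ∧ v (X - R ^ 2) ≤ v L := by
        rcases lt_or_eq_of_le g0 with h0 | h0
        · have h := q0 h0
          refine ⟨h, ?_, ?_⟩
          · rw [show X - R = (X - 1) - (R - 1) by ring]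
            exact Valuation.map_sub_le _ h d01
          · rw [show X - R ^ 2 = (X - 1) - (R ^ 2 - 1) by ring]
            exact Valuation.map_sub_le _ h d02
        rcases lt_or_eq_of_le g1 with h1 | h1
        · have h := q1 h1
          refine ⟨?_, h, ?_⟩
          · rw [show X - 1 = (X - R) + (R - 1) by ring]
            exact Valuation.map_add_le _ h d01
          · rw [show X - R ^ 2 = (X - R) - (R ^ 2 - R) by ring]
            exact Valuation.map_sub_le _ h d12
        rcases lt_or_eq_of_le g2 with h2 | h2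
        · have h := q2 h2
          refine ⟨?_, ?_, h⟩
          · rw [show X - 1 = (X - R ^ 2) + (R ^ 2 - 1) by ring]
            exact Valuation.map_add_le _ h d02
          · rw [show X - R = (X - R ^ 2) + (R ^ 2 - R) by ring]
            exact Valuation.map_add_le _ h d12
        exfalso
        have h : v (Y ^ 2) = 1 := by rw [hfac, map_mul, map_mul, h0, h1, h2, one_mul, one_mul]
        rw [map_pow] at h
        have h' := (pow_eq_one_iff_of_nonneg zero_le two_ne_zero).mp h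
        rw [h'] at hY1
        exact lt_irrefl _ hY1
      obtain ⟨n, hn⟩ := A3_exp _ ((Valuation.ne_zero_iff v).mpr hY0)
      have h2n : 2 * n ≤ 3 * s := by
        have h : v (Y ^ 2) ≤ v L * v L * v L := by
          rw [hfac, map_mul, map_mul]
          exact mul_le_mul' (mul_le_mul' hall.1 hall.2.1) hall.2.2
        rw [map_pow, hn, hs, A3_pow, ← WithZero.exp_add, ← WithZero.exp_add,
          WithZero.exp_le_exp] at h
        push_cast at h
        linarith
      have k1 : n - s ≤ s := by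
        have h1 : v (algebraMap K N (y / (r - 1))) = WithZero.exp (n - s) := by
          rw [map_div₀, map_div₀, ← hY', ← hL', hn, hs, WithZero.exp_sub]
        have h3 := hK (y / (r - 1)) (by rw [h1, A3_lt]; linarith)
        rw [h1, hs, WithZero.exp_le_exp] at h3
        exact h3
      rw [hn, hv3, WithZero.exp_le_exp]
      linarith

end H35T
end

-- from Lib.H28R.W10
section

namespace H28R

/-! Chunk W10 (M), pure group theory. V <= H normal in the finite group A, V a p-group, [H:V] prime to p, V central in H; S a p-subgroup of A with [A:S] = [H:V]. By Schur-Zassenhaus (Subgroup.exists_right_complement'_of_coprime for V as a subgroup of H) there is D0 <= H with D0 V = H, D0 meets V trivially; as V is central, H = V x D0 and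
D0 = {h in H : the order of h is prime to p} = {h in H : h^m = 1}, m = [H:V] (h = v d: h^m = v^m d^m = v^m, and v^m = 1 iff v = 1 as V is a p-group and m is prime to p). So D = {h in H | h^m = 1} is a subgroup, normal in A (H is normal), of order m. A -> A/D restricted to S is injective (S meets D trivially: orders p-power and prime
to p) and |S| = |A|/m = |A/D|: an isomorphism S = A/D. -/

theorem hall {A : Type} [Group A] [Finite A] {p : ℕ} (hp : p.Prime) (V H S : Subgroup A)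
    (hVn : V.Normal) (hHn : H.Normal) (hVH : V ≤ H) (hV : ∃ n : ℕ, Nat.card V = p ^ n)
    (hm : (V.relIndex H).Coprime p) (hc : ∀ v ∈ V, ∀ u ∈ H, v * u = u * v)
    (hS : ∃ n : ℕ, Nat.card S = p ^ n) (hSi : S.index = V.relIndex H) :
    ∃ (D : Subgroup A) (_ : D.Normal), D ≤ H ∧ Nonempty ((A ⧸ D) ≃* S) := by
  obtain ⟨n, hn⟩ := hV
  obtain ⟨k, hk⟩ := hS
  set m := V.relIndex H with hmdef
  -- V as a subgroup of H
  have hNn : (V.subgroupOf H).Normal := hVn.subgroupOf H
  have hcardN : Nat.card (V.subgroupOf H) = p ^ n := by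
    rw [← hn]
    exact Nat.card_congr (Subgroup.subgroupOfEquivOfLe hVH).toEquiv
  have hindN : (V.subgroupOf H).index = m := rfl
  obtain ⟨D0, hD0⟩ := Subgroup.exists_right_complement'_of_coprime (N := V.subgroupOf H) (by
    rw [hcardN, hindN]; exact (hm.pow_right n).symm)
  have hcardD0 : Nat.card D0 = m := by
    rw [← hindN]; exact hD0.symm.index_eq_card.symm
  -- every element of H is v * d
  have hdec : ∀ h ∈ H, ∃ v ∈ V, ∃ d ∈ D0.map H.subtype, h = v * d := by
    intro h hh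
    obtain ⟨⟨a, b⟩, hab⟩ := hD0.2 ⟨h, hh⟩
    refine ⟨(a : H), Subgroup.mem_subgroupOf.mp a.2, (b : H), ⟨(b : H), b.2, rfl⟩, ?_⟩
    have := congrArg (Subtype.val) hab
    simpa using this.symm
  have hdpow : ∀ d ∈ D0.map H.subtype, d ^ m = 1 := by
    rintro d ⟨d', hd', rfl⟩
    have h1 : (⟨d', hd'⟩ : D0) ^ m = 1 := by
      rw [← hcardD0]; exact pow_card_eq_one'
    have h2 := congrArg (fun x : D0 => ((x : H) : A)) h1
    simpa using h2
  have hvpow : ∀ v ∈ V, v ^ m = 1 → v = 1 := by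
    intro v hv h1
    have h2 : v ^ (p ^ n) = 1 := by
      have : (⟨v, hv⟩ : V) ^ (p ^ n) = 1 := by
        rw [← hn]; exact pow_card_eq_one'
      simpa using congrArg (fun x : V => (x : A)) this
    have h3 : orderOf v ∣ m := orderOf_dvd_of_pow_eq_one h1
    have h4 : orderOf v ∣ p ^ n := orderOf_dvd_of_pow_eq_one h2
    have h5 : orderOf v = 1 := Nat.eq_one_of_dvd_coprimes (hm.pow_right n) h3 h4
    exact orderOf_eq_one_iff.mp h5
  have hDH : D0.map H.subtype ≤ H := by
    rintro d ⟨d', _, rfl⟩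
    exact d'.2
  have hiff : ∀ h ∈ H, h ^ m = 1 → h ∈ D0.map H.subtype := by
    intro h hh h1
    obtain ⟨v, hv, d, hd, rfl⟩ := hdec h hh
    have hcomm : Commute v d := hc v hv d (hDH hd)
    rw [hcomm.mul_pow, hdpow d hd, mul_one] at h1
    rw [hvpow v hv h1, one_mul]
    exact hd
  have hDn : (D0.map H.subtype).Normal := by
    constructor
    intro d hd g
    apply hiff _ (hHn.conj_mem d (hDH hd) g)
    rw [conj_pow, hdpow d hd]
    simp
  have hcardD : Nat.card (D0.map H.subtype) = m := by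
    rw [← hcardD0]
    exact (Nat.card_congr (D0.equivMapOfInjective H.subtype H.subtype_injective).toEquiv).symm
  refine ⟨D0.map H.subtype, hDn, hDH, ?_⟩
  have hmpos : 0 < m := by
    rw [← hcardD0]; exact Nat.card_pos
  -- the map S -> A/D
  let f : S →* A ⧸ (D0.map H.subtype) := (QuotientGroup.mk' _).comp S.subtype
  have hf : Function.Injective f := by
    rw [injective_iff_map_eq_one]
    intro s hs
    have h1 : (s : A) ∈ D0.map H.subtype := by
      have : QuotientGroup.mk' (D0.map H.subtype) (s : A) = 1 := hs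
      rwa [QuotientGroup.mk'_apply, QuotientGroup.eq_one_iff] at this
    have h2 : (s : A) ^ m = 1 := hdpow _ h1
    have h3 : s ^ m = 1 := by
      apply Subtype.ext
      simpa using h2
    have h4 : s ^ (p ^ k) = 1 := by
      rw [← hk]; exact pow_card_eq_one'
    have h5 : orderOf s = 1 := Nat.eq_one_of_dvd_coprimes (hm.pow_right k)
      (orderOf_dvd_of_pow_eq_one h3) (orderOf_dvd_of_pow_eq_one h4)
    exact orderOf_eq_one_iff.mp h5
  have hcards : Nat.card S = Nat.card (A ⧸ (D0.map H.subtype)) := by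
    have h1 : Nat.card S * m = Nat.card A := by
      rw [← hSi]; exact S.card_mul_index
    have h2 : Nat.card (A ⧸ (D0.map H.subtype)) * m = Nat.card A := by
      rw [← hcardD]
      exact (Subgroup.card_eq_card_quotient_mul_card_subgroup _).symm
    exact Nat.eq_of_mul_eq_mul_right hmpos (h1.trans h2.symm)
  have hbij : Function.Bijective f := by
    rw [Nat.bijective_iff_injective_and_card]
    exact ⟨hf, hcards⟩
  exact ⟨(MulEquiv.ofBijective f hbij).symm⟩

end H28R
end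

-- from Lib.H28R.W19
section

namespace H28R

/-! Chunk W19 (S/M), pure group theory: ports of H19T/W8.lean (kk3) and of w9_centre in H19T/W9.lean, and functoriality of the regular wreath product in the top group. -/

/-- Kaloujnine-Krasner for a kernel of order p (the proof of H19T.kk3, H19T/W8.lean, with p in place of 3). -/
theorem kkP {p : ℕ} (hp : p.Prime) (H G : Type) [Group H] [Finite H] [Group G] [Finite G]
    (φ : H →* G) (hk : Nat.card φ.ker = p) :
    ∃ ψ : H →* Multiplicative (ZMod p) ≀ᵣ G, Function.Injective ψ := by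
  classical
  let c : G → G := fun x => Quotient.out (Quotient.mk (QuotientGroup.rightRel φ.range) x)
  have hc1 : ∀ x, x * (c x)⁻¹ ∈ φ.range := by
    intro x
    have h : (QuotientGroup.rightRel φ.range) (c x) x := Quotient.mk_out x
    rwa [QuotientGroup.rightRel_apply] at h
  have hc2 : ∀ (h : H) (x : G), c (φ h * x) = c x := by
    intro h x
    have e : Quotient.mk (QuotientGroup.rightRel φ.range) (φ h * x) =
        Quotient.mk (QuotientGroup.rightRel φ.range) x := by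
      apply Quotient.sound
      change (QuotientGroup.rightRel φ.range) (φ h * x) x
      rw [QuotientGroup.rightRel_apply]
      refine ⟨h⁻¹, ?_⟩
      rw [map_inv]; group
    change Quotient.out _ = Quotient.out _
    rw [e]
  choose s hs using hc1
  have hfm : ∀ (h : H) (x : G), (s x)⁻¹ * h * s ((φ h)⁻¹ * x) ∈ φ.ker := by
    intro h x
    rw [MonoidHom.mem_ker, map_mul, map_mul, map_inv, hs, hs]
    have e : c ((φ h)⁻¹ * x) = c x := by
      rw [← map_inv]; exact hc2 h⁻¹ x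
    rw [e]; group
  let ψ0 : H →* φ.ker ≀ᵣ G :=
    { toFun := fun h => ⟨fun x => ⟨(s x)⁻¹ * h * s ((φ h)⁻¹ * x), hfm h x⟩, φ h⟩
      map_one' := by
        ext x
        · simp
        · simp
      map_mul' := by
        intro h k
        ext x
        · simp only [RegularWreathProduct.mul_left, Pi.mul_apply, Subgroup.coe_mul, map_mul]
          have e : (φ h * φ k)⁻¹ * x = (φ k)⁻¹ * ((φ h)⁻¹ * x) := by group
          rw [e]
          group
        · simp }
  have hψ0 : Function.Injective ψ0 := by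
    rw [injective_iff_map_eq_one]
    intro h hh
    have h1 : φ h = 1 := congrArg RegularWreathProduct.right hh
    have h2 : (s 1)⁻¹ * h * s ((φ h)⁻¹ * 1) = 1 :=
      congrArg Subtype.val (congrFun (congrArg RegularWreathProduct.left hh) 1)
    rw [h1, inv_one, one_mul] at h2
    have h3 : h = s 1 * ((s 1)⁻¹ * h * s 1) * (s 1)⁻¹ := by group
    rw [h3, h2]; group
  have hC : Nat.card (Multiplicative (ZMod p)) = p := by
    rw [Nat.card_eq_of_bijective Multiplicative.toAdd Multiplicative.toAdd.bijective, Nat.card_zmod]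
  have hpF : Fact (Nat.Prime p) := ⟨hp⟩
  let e : φ.ker ≃* Multiplicative (ZMod p) := mulEquivOfPrimeCardEq hk hC
  refine ⟨(RegularWreathProduct.congr e (MulEquiv.refl G)).toMonoidHom.comp ψ0, ?_⟩
  exact (RegularWreathProduct.congr e (MulEquiv.refl G)).injective.comp hψ0

/-- A central subgroup of order p (H19T.w9_centre, H19T/W9.lean). -/
theorem centreP {p : ℕ} (hp : p.Prime) (H : Type) [Group H] [Finite H] (k : ℕ)
    (hH : Nat.card H = p ^ (k + 1)) :
    ∃ Z : Subgroup H, Z.Normal ∧ Nat.card Z = p ∧ Nat.card (H ⧸ Z) = p ^ k := by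
  haveI : Fact (Nat.Prime p) := ⟨hp⟩
  have hpG : IsPGroup p H := IsPGroup.of_card hH
  haveI : Nontrivial H := by
    apply Finite.one_lt_card_iff_nontrivial.1
    rw [hH]
    exact Nat.one_lt_pow (Nat.succ_ne_zero k) hp.one_lt
  haveI := hpG.center_nontrivial
  have hc : IsPGroup p (Subgroup.center H) := hpG.to_subgroup _
  obtain ⟨j, hj⟩ := IsPGroup.iff_card.1 hc
  have hj0 : j ≠ 0 := by
    rintro rfl
    have h1 : 1 < Nat.card (Subgroup.center H) := Finite.one_lt_card_iff_nontrivial.2 inferInstance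
    rw [hj, pow_zero] at h1
    exact lt_irrefl _ h1
  obtain ⟨z, hz⟩ := exists_prime_orderOf_dvd_card' (G := Subgroup.center H) p
    (by rw [hj]; exact dvd_pow_self p hj0)
  have hz2 : orderOf (z : H) = p := by rw [Subgroup.orderOf_coe, hz]
  have hle : Subgroup.zpowers (z : H) ≤ Subgroup.center H := by
    rw [Subgroup.zpowers_le]
    exact z.2
  have hcard : Nat.card (Subgroup.zpowers (z : H)) = p := by rw [Nat.card_zpowers, hz2]
  refine ⟨Subgroup.zpowers (z : H), ⟨fun n hn g => ?_⟩, hcard, ?_⟩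
  · have h1 := Subgroup.mem_center_iff.1 (hle hn) g
    rw [h1, mul_inv_cancel_right]
    exact hn
  · have h1 := Subgroup.card_eq_card_quotient_mul_card_subgroup (Subgroup.zpowers (z : H))
    rw [hH, hcard, pow_succ] at h1
    exact (Nat.eq_of_mul_eq_mul_right hp.pos h1).symm

/-- The regular wreath product respects isomorphisms of the top group. -/
theorem wr_congr {D G G' : Type} [Group D] [Group G] [Group G'] (e : G ≃* G') :
    Nonempty ((D ≀ᵣ G) ≃* (D ≀ᵣ G')) :=
  ⟨RegularWreathProduct.congr (MulEquiv.refl D) e⟩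

end H28R
end

-- from Lib.H55W.G4
section

/-! # H55W, part G: quartic Gauss sums in characteristic l (pure Mathlib) -/

namespace H55W

variable {k0 R' : Type} [Field k0] [Fintype k0] [Field R']

/-- Chunk G4A (M). g1, g2, g3 = gaussSum of χ, χ^2, χ^3 (ψ fixed). jacobiSum_mul_nontrivial for χ * χ^2 = χ^3 ≠ 1: g3 J = g1 g2. gaussSum_mul_gaussSum_eq_card / gaussSum_sq for the quadratic character χ^2 (IsQuadratic? use: χ^2 ≠ 1, (χ^2)⁻¹ = χ^2): g2^2 = χ^2(-1) card = card (χ(-1)^2 = χ(1) = 1). g1 g3 = χ(-1) card: χ^3 = χ⁻¹, gaussSum χ ψ * gaussSum χ⁻¹ ψ⁻¹ = card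
(gaussSum_mul_gaussSum_eq_card) and gaussSum χ⁻¹ ψ⁻¹ = χ(-1) gaussSum χ⁻¹ ψ (gaussSum_mulShift with the unit -1; AddChar.inv_mulShift). g3 ≠ 0 (gaussSum_ne_zero_of_nontrivial). J^2 g3^2 = g1^2 card, multiply by g1^2: J^2 card^2 = g1^4 card, divide by card ≠ 0. -/
theorem gs_four (χ : MulChar k0 R') (h4 : orderOf χ = 4) (ψ : AddChar k0 R') (hψ : ψ.IsPrimitive)
    (hq : (Fintype.card k0 : R') ≠ 0) :
    gaussSum χ ψ ^ 4 = (Fintype.card k0 : R') * jacobiSum χ (χ ^ 2) ^ 2 ∧
      gaussSum χ ψ * gaussSum (χ ^ 3) ψ = χ (-1) * (Fintype.card k0 : R') ∧ gaussSum χ ψ ≠ 0 := by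
  have hc1 : χ ≠ 1 := by
    rintro rfl
    rw [orderOf_one] at h4
    omega
  have hp4 : χ ^ 4 = 1 := by rw [← h4]; exact pow_orderOf_eq_one χ
  have hc2 : χ ^ 2 ≠ 1 := fun h => by
    have := orderOf_dvd_of_pow_eq_one h
    rw [h4] at this
    omega
  have hc3 : χ ^ 3 ≠ 1 := fun h => by
    have := orderOf_dvd_of_pow_eq_one h
    rw [h4] at this
    omega
  have hneg : χ (-1) ^ 2 = 1 := by
    rw [← map_pow]
    simp
  have hg1 : gaussSum χ ψ ≠ 0 := gaussSum_ne_zero_of_nontrivial hq hc1 hψ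
  have h13 : gaussSum χ ψ * gaussSum (χ ^ 3) ψ = χ (-1) * (Fintype.card k0 : R') := by
    have h := gaussSum_mul_gaussSum_pow_orderOf_sub_one hc1 hψ
    rw [h4] at h
    exact h
  have hinv : (χ ^ 2)⁻¹ = χ ^ 2 := by
    rw [inv_eq_iff_mul_eq_one, ← pow_add]
    exact hp4
  have h22 : gaussSum (χ ^ 2) ψ * gaussSum (χ ^ 2) ψ = (Fintype.card k0 : R') := by
    have h := gaussSum_mul_gaussSum_eq_card hc2 hψ
    have h' := mul_gaussSum_inv_eq_gaussSum (χ ^ 2) ψ
    rw [MulChar.pow_apply' χ two_ne_zero, hneg, one_mul] at h'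
    rw [hinv, h'] at h
    exact h
  have hJ : gaussSum (χ ^ 3) ψ * jacobiSum χ (χ ^ 2) = gaussSum χ ψ * gaussSum (χ ^ 2) ψ := by
    have h := jacobiSum_mul_nontrivial (χ := χ) (φ := χ ^ 2) (by rw [← pow_succ']; exact hc3) ψ
    rw [← pow_succ'] at h
    exact h
  refine ⟨?_, h13, hg1⟩
  set g1 := gaussSum χ ψ
  set g2 := gaussSum (χ ^ 2) ψ
  set g3 := gaussSum (χ ^ 3) ψ
  set J := jacobiSum χ (χ ^ 2)
  set q : R' := (Fintype.card k0 : R')
  have e1 : χ (-1) * q * J = g1 ^ 2 * g2 := by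
    rw [← h13, mul_assoc, hJ]
    ring
  have e2 : q * (g1 ^ 4) = q * (q * J ^ 2) := by
    have e3 : (χ (-1) * q * J) ^ 2 = (g1 ^ 2 * g2) ^ 2 := by rw [e1]
    have e4 : (χ (-1) * q * J) ^ 2 = q * (q * J ^ 2) := by
      calc (χ (-1) * q * J) ^ 2 = χ (-1) ^ 2 * (q * (q * J ^ 2)) := by ring
        _ = q * (q * J ^ 2) := by rw [hneg, one_mul]
    have e5 : (g1 ^ 2 * g2) ^ 2 = q * g1 ^ 4 := by
      calc (g1 ^ 2 * g2) ^ 2 = (g2 * g2) * g1 ^ 4 := by ring
        _ = q * g1 ^ 4 := by rw [h22]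
    rw [← e5, ← e3, e4]
  exact mul_left_cancel₀ hq e2

/-- Chunk G4B (M). Compare H35T.r2_abs in H35T/R2.lean. gaussSum_frob l: g^l = gaussSum (χ^l) (ψ^l) = gaussSum χ (mulShift ψ l) (l = 4t + 1, χ^l = χ; AddChar.pow_mulShift); gaussSum_mulShift with the unit l: χ(l) g^l = g; g^l = (g^4)^t g (gs_four). Cancel g. -/
theorem gs_one (l : ℕ) [Fact l.Prime] [CharP R' l] (hl : (l : k0) ≠ 0) (χ : MulChar k0 R') (h4 : orderOf χ = 4)
    (ψ : AddChar k0 R') (hψ : ψ.IsPrimitive) (hq : (Fintype.card k0 : R') ≠ 0) (t : ℕ) (ht : l = 4 * t + 1) :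
    χ (l : k0) * ((Fintype.card k0 : R') * jacobiSum χ (χ ^ 2) ^ 2) ^ t = 1 := by
  obtain ⟨h1, -, hg⟩ := gs_four χ h4 ψ hψ hq
  have hp4 : χ ^ 4 = 1 := by rw [← h4]; exact pow_orderOf_eq_one χ
  have h2 : gaussSum χ ψ ^ l = gaussSum χ (AddChar.mulShift ψ (l : k0)) := by
    rw [gaussSum_frob l, AddChar.pow_mulShift]
    congr 1
    rw [ht, pow_succ, pow_mul, hp4, one_pow, one_mul]
  have h3 := gaussSum_mulShift χ ψ (Units.mk0 _ hl)
  rw [Units.val_mk0, ← h2] at h3
  have h5 : gaussSum χ ψ ^ l =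
      ((Fintype.card k0 : R') * jacobiSum χ (χ ^ 2) ^ 2) ^ t * gaussSum χ ψ := by
    rw [ht, pow_succ, pow_mul, h1]
  rw [h5, ← mul_assoc] at h3
  exact mul_right_cancel₀ hg (by rw [h3, one_mul])

/-- Chunk G4B (M). g^(l+1) = g^l g, g^l = gaussSum (χ^3) (mulShift ψ l) (l + 1 = 4t: l = 4(t-1) + 3, χ^l = χ^3), gaussSum_mulShift: χ^3(l) gaussSum (χ^3) (mulShift ψ l) = gaussSum (χ^3) ψ, so g^l = χ(l) gaussSum (χ^3) ψ (χ(l)^4 = 1), g^(l+1) = χ(l) χ(-1) card (gs_four); and g^(l+1) = (g^4)^t. -/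
theorem gs_three (l : ℕ) [Fact l.Prime] [CharP R' l] (hl : (l : k0) ≠ 0) (χ : MulChar k0 R') (h4 : orderOf χ = 4)
    (ψ : AddChar k0 R') (hψ : ψ.IsPrimitive) (hq : (Fintype.card k0 : R') ≠ 0) (t : ℕ) (ht : l + 1 = 4 * t) :
    ((Fintype.card k0 : R') * jacobiSum χ (χ ^ 2) ^ 2) ^ t = χ (-(l : k0)) * (Fintype.card k0 : R') := by
  obtain ⟨h1, h13, hg⟩ := gs_four χ h4 ψ hψ hq
  have hp4 : χ ^ 4 = 1 := by rw [← h4]; exact pow_orderOf_eq_one χ
  have hl4 : χ ^ l = χ ^ 3 := by
    obtain ⟨m, rfl⟩ : ∃ m, l = 4 * m + 3 := ⟨t - 1, by omega⟩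
    rw [pow_add, pow_mul, hp4, one_pow, one_mul]
  have h2 : gaussSum χ ψ ^ l = gaussSum (χ ^ 3) (AddChar.mulShift ψ (l : k0)) := by
    rw [gaussSum_frob l, AddChar.pow_mulShift, hl4]
  have h3 := gaussSum_mulShift (χ ^ 3) ψ (Units.mk0 _ hl)
  rw [Units.val_mk0, ← h2, MulChar.pow_apply' χ three_ne_zero] at h3
  have hc : χ (l : k0) ^ 4 = 1 := by
    rw [← MulChar.pow_apply' χ four_ne_zero, hp4]
    exact MulChar.one_apply (Ne.isUnit hl)
  have h5 : gaussSum χ ψ ^ l = χ (l : k0) * gaussSum (χ ^ 3) ψ := by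
    rw [← h3]
    calc gaussSum χ ψ ^ l = χ (l : k0) ^ 4 * gaussSum χ ψ ^ l := by rw [hc, one_mul]
      _ = _ := by ring
  rw [← h1, ← pow_mul, ← ht, pow_succ, h5]
  calc χ (l : k0) * gaussSum (χ ^ 3) ψ * gaussSum χ ψ
      = χ (l : k0) * (gaussSum χ ψ * gaussSum (χ ^ 3) ψ) := by ring
    _ = (χ (-1) * χ (l : k0)) * (Fintype.card k0 : R') := by rw [h13]; ring
    _ = χ (-(l : k0)) * (Fintype.card k0 : R') := by rw [← map_mul, neg_one_mul]

end H55W
end

-- from Lib.H55C.A1
section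

open NumberField IsDedekindDomain

namespace H55C

open H55B

/-! Chunk A1 (S): local valuations away from 6. v is a valuation on N, x, Y in K, Y^2 = 4x^3 + 1, m = 2(2x + theta).
Write s_j = 2x + r^j theta (j = 0, 1, 2), s_0 s_1 s_2 = 8x^3 + 2 = 2Y^2, v(theta) = v(r) = v(1 - r) = 1
((1 - r)(1 - r^2) = 3), v(2) = 1. If v(x) > 1 then all v(s_j) = v(x), v(x)^3 = v(Y)^2, v(m) = v(x) = v(Y/x)^2.
If v(x) <= 1 and v(s_0) < 1: s_j - s_0 = (r^j - 1) theta has value 1 so v(s_1) = v(s_2) = 1 and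
v(m) = v(s_0) = v(Y)^2. Otherwise v(m) = 1. Y <> 0 has value exp k. Compare H55B.J1. -/

theorem A1_exp (g : WithZero (Multiplicative ℤ)) (h : g ≠ 0) : ∃ k : ℤ, g = WithZero.exp k :=
  ⟨WithZero.log g, (WithZero.exp_log h).symm⟩

theorem A1_pow (k : ℤ) (n : ℕ) : (WithZero.exp k : WithZero (Multiplicative ℤ)) ^ n =
    WithZero.exp ((n : ℤ) * k) := by
  rw [← nsmul_eq_mul, WithZero.exp_nsmul]

theorem loc1 {K N : Type} [Field K] [Field N] [Algebra K N]
    (v : Valuation N (WithZero (Multiplicative ℤ))) (r : K) (hr : r ^ 2 + r + 1 = 0) (θ : N)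
    (hθ : θ ^ 3 = 2) (h2 : v 2 = 1) (h3 : v 3 = 1) (x Y : K) (hY : Y ^ 2 = 4 * x ^ 3 + 1)
    (hY0 : Y ≠ 0) :
    ∃ k : ℤ, v (2 * (2 * algebraMap K N x + θ)) = WithZero.exp (2 * k) := by
  have vθ : v θ = 1 := by
    have h : v θ ^ 3 = 1 := by rw [← map_pow, hθ, h2]
    exact (pow_eq_one_iff_of_nonneg zero_le three_ne_zero).mp h
  set c : N := algebraMap K N r with hc
  have hω : c ^ 2 + c + 1 = 0 := by
    have := congrArg (algebraMap K N) hr
    simpa using this
  have vc : v c = 1 := by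
    have h1 : c ^ 3 = 1 := by linear_combination (c - 1) * hω
    have h : v c ^ 3 = 1 := by rw [← map_pow, h1, map_one]
    exact (pow_eq_one_iff_of_nonneg zero_le three_ne_zero).mp h
  have vc1 : v (c - 1) = 1 := by
    have h1 : v 3 = v (c - 1) ^ 2 := by
      have h4 : (3 : N) = -(c ^ 2) * (c - 1) ^ 2 := by
        linear_combination (c ^ 2 - 3 * c + 3) * hω
      rw [h4, Valuation.map_mul, Valuation.map_neg, Valuation.map_pow, Valuation.map_pow, vc,
        one_pow, one_mul]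
    rw [h3] at h1
    exact (pow_eq_one_iff_of_nonneg zero_le two_ne_zero).mp h1.symm
  set X : N := 2 * algebraMap K N x with hX'
  set y : N := algebraMap K N Y with hy'
  have hy0 : v y ≠ 0 := by
    rw [Valuation.ne_zero_iff, hy']
    exact (map_ne_zero _).2 hY0
  have hcur : y ^ 2 = 4 * algebraMap K N x ^ 3 + 1 := by
    have := congrArg (algebraMap K N) hY
    rw [map_pow, map_add, map_mul, map_pow, map_ofNat, map_one] at this
    exact this
  have hm : v (2 * (X + θ)) = v (X + θ) := by rw [Valuation.map_mul, h2, one_mul]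
  have e1 : X ^ 3 + 2 = 2 * y ^ 2 := by rw [hcur, hX']; ring
  have e2 : v (X ^ 3 + 2) = v y ^ 2 := by
    rw [e1, Valuation.map_mul, Valuation.map_pow, h2, one_mul]
  rw [hm]
  rcases lt_or_ge 1 (v X) with hX | hX
  · have h1 : v (X + θ) = v X :=
      Valuation.map_add_eq_of_lt_left _ (by rw [vθ]; exact hX)
    have h4 : v X ^ 3 = v y ^ 2 := by
      rw [← e2, ← Valuation.map_pow]
      symm
      apply Valuation.map_add_eq_of_lt_left
      rw [Valuation.map_pow, h2]
      exact one_lt_pow₀ hX three_ne_zero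
    have hX0 : v X ≠ 0 := by
      intro h
      rw [h] at hX
      exact absurd hX (by simp)
    rw [h1]
    obtain ⟨j, hj⟩ := A1_exp _ hy0
    obtain ⟨l, hl⟩ := A1_exp _ hX0
    rw [hj, hl, A1_pow, A1_pow, WithZero.exp_inj] at h4
    refine ⟨j - l, ?_⟩
    rw [hl, WithZero.exp_inj]
    push_cast at h4
    linarith
  · have hprod : X ^ 3 + 2 = (X + θ) * (X + c * θ) * (X + c ^ 2 * θ) := by
      linear_combination (-(X ^ 2 * θ) - X * θ ^ 2 * c - θ ^ 3 * (c - 1)) * hω - hθ
    have d1 : v ((c - 1) * θ) = 1 := by rw [Valuation.map_mul, vθ, mul_one, vc1]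
    have d2 : v ((c ^ 2 - 1) * θ) = 1 := by
      have : c ^ 2 - 1 = -(c ^ 2) * (c - 1) := by linear_combination (c - 1) * hω
      rw [this, Valuation.map_mul, vθ, mul_one, Valuation.map_mul, Valuation.map_neg,
        Valuation.map_pow, vc, vc1, one_pow, one_mul]
    have f1 : X + c * θ = (X + θ) + (c - 1) * θ := by ring
    have f2 : X + c ^ 2 * θ = (X + θ) + (c ^ 2 - 1) * θ := by ring
    have hs1 : v (X + θ) ≤ 1 := Valuation.map_add_le _ hX (by rw [vθ])
    rcases lt_or_eq_of_le hs1 with hs | hs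
    · have g1 : v (X + c * θ) = 1 := by
        rw [f1, Valuation.map_add_eq_of_lt_right _ (by rw [d1]; exact hs), d1]
      have g2 : v (X + c ^ 2 * θ) = 1 := by
        rw [f2, Valuation.map_add_eq_of_lt_right _ (by rw [d2]; exact hs), d2]
      have h4 : v (X + θ) = v y ^ 2 := by
        rw [← e2, hprod, Valuation.map_mul, Valuation.map_mul, g1, g2, mul_one, mul_one]
      obtain ⟨j, hj⟩ := A1_exp _ hy0
      refine ⟨j, ?_⟩
      rw [h4, hj, A1_pow]
      push_cast
      rfl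
    · exact ⟨0, by rw [hs, mul_zero, WithZero.exp_zero]⟩

end H55C
end

-- from Lib.H55C.A2
section

open NumberField IsDedekindDomain

namespace H55C

open H55B

/-! Chunk A2 (M): local condition above 2. v(2) = exp(-3t), v(theta) = exp(-t), t >= 1 (from theta^3 = 2). hK says that
2 has the largest value < 1 on K, so every nonzero z in K has v(z) = exp(3t n) for some integer n (divide by a
power of 2). m = 2(2x + theta).
v(x) <= 1: b = theta^2, since 2 = theta^3: m = theta^4 (1 + theta^2 x), so m/b^2 - 1 = theta^2 x.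
v(x) > 1: v(x) = exp(3t n), n >= 1; v(4x^3) = exp(3t(3n - 2)) > 1 so v(Y)^2 = exp(3t(3n - 2)), v(Y) = exp(3t n'),
2n' = 3n - 2, n is even, n >= 2. b = Y/x: 4x = (Y^2 - 1)/x^2 = b^2 (1 - Y^(-2)) and m = 4x(1 + theta/(2x)), so
m/b^2 - 1 = (1 - Y^(-2))(1 + theta/(2x)) - 1; v(theta/(2x)) = exp(2t - 3tn) <= exp(-4t), v(Y^(-2)) <= exp(-12t),
all <= v(theta^2) = exp(-2t). -/

theorem A2_exp (g : WithZero (Multiplicative ℤ)) (h : g ≠ 0) : ∃ k : ℤ, g = WithZero.exp k :=
  ⟨WithZero.log g, (WithZero.exp_log h).symm⟩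

theorem A2_pow (k : ℤ) (n : ℕ) : (WithZero.exp k : WithZero (Multiplicative ℤ)) ^ n =
    WithZero.exp ((n : ℤ) * k) := by
  rw [← nsmul_eq_mul, WithZero.exp_nsmul]

theorem A2_lt (k : ℤ) : (WithZero.exp k : WithZero (Multiplicative ℤ)) < 1 ↔ k < 0 := by
  rw [← WithZero.exp_zero, WithZero.exp_lt_exp]

theorem loc2 {K N : Type} [Field K] [Field N] [Algebra K N]
    (v : Valuation N (WithZero (Multiplicative ℤ))) (θ : N)
    (hθ : θ ^ 3 = 2) (h20 : v 2 ≠ 0) (h2 : v 2 < 1)
    (hK : ∀ z : K, v (algebraMap K N z) < 1 → v (algebraMap K N z) ≤ v 2)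
    (x Y : K) (hY : Y ^ 2 = 4 * x ^ 3 + 1) (hY0 : Y ≠ 0) :
    ∃ b : N, b ≠ 0 ∧ v (2 * (2 * algebraMap K N x + θ) / b ^ 2 - 1) ≤ v (θ ^ 2) := by
  have hT : v θ ^ 3 = v 2 := by rw [← map_pow, hθ]
  have hT0 : v θ ≠ 0 := by
    intro h
    rw [h, zero_pow three_ne_zero] at hT
    exact h20 hT.symm
  have hθ0 : θ ≠ 0 := (Valuation.ne_zero_iff _).mp hT0
  obtain ⟨s, hs⟩ := A2_exp _ hT0
  have hv2 : v 2 = WithZero.exp (3 * s) := by
    rw [← hT, hs, A2_pow]
    push_cast
    rfl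
  have hs0 : s < 0 := by
    rw [hv2, A2_lt] at h2
    linarith
  have hT2 : v (θ ^ 2) = WithZero.exp (2 * s) := by
    rw [Valuation.map_pow, hs, A2_pow]
    push_cast
    rfl
  set X : N := algebraMap K N x with hX'
  set y : N := algebraMap K N Y with hy'
  have hcur : y ^ 2 = 4 * X ^ 3 + 1 := by
    have := congrArg (algebraMap K N) hY
    rw [map_pow, map_add, map_mul, map_pow, map_ofNat, map_one] at this
    exact this
  have hy0 : y ≠ 0 := (map_ne_zero _).2 hY0
  rcases le_or_gt (v X) 1 with hX | hX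
  · refine ⟨θ ^ 2, pow_ne_zero 2 hθ0, ?_⟩
    have e : 2 * (2 * X + θ) / (θ ^ 2) ^ 2 - 1 = θ ^ 2 * X := by
      rw [← hθ]
      field_simp
      ring
    rw [e, Valuation.map_mul]
    exact mul_le_of_le_one_right' hX
  · have hX0v : v X ≠ 0 := by
      intro h
      rw [h] at hX
      exact absurd hX (by simp)
    have hX0 : X ≠ 0 := (Valuation.ne_zero_iff _).mp hX0v
    have hx0 : x ≠ 0 := by
      intro h
      rw [hX', h, map_zero] at hX0
      exact hX0 rfl
    have h2N : (2 : N) ≠ 0 := (Valuation.ne_zero_iff _).mp h20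
    have h2K : (2 : K) ≠ 0 := by
      intro h
      apply h2N
      have := congrArg (algebraMap K N) h
      rwa [map_ofNat, map_zero] at this
    obtain ⟨a, ha⟩ := A2_exp _ hX0v
    obtain ⟨b, hb⟩ := A2_exp _ ((Valuation.ne_zero_iff v).mpr hy0)
    have ha0 : 0 < a := by
      rw [ha, ← WithZero.exp_zero, WithZero.exp_lt_exp] at hX
      exact hX
    have k1 : -a ≤ 3 * s := by
      have h1 : v (algebraMap K N x⁻¹) = WithZero.exp (-a) := by
        rw [map_inv₀, map_inv₀, ← hX', ha, WithZero.exp_neg]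
      have h3 := hK x⁻¹ (by rw [h1, A2_lt]; linarith)
      rw [h1, hv2, WithZero.exp_le_exp] at h3
      exact h3
    have h4x : v (4 * X ^ 3) = WithZero.exp (6 * s + 3 * a) := by
      have h4 : (4 : N) * X ^ 3 = 2 ^ 2 * X ^ 3 := by ring
      rw [h4, Valuation.map_mul, Valuation.map_pow, Valuation.map_pow, hv2, ha, A2_pow, A2_pow,
        ← WithZero.exp_add, WithZero.exp_inj]
      push_cast
      ring
    have h2b : 2 * b = 6 * s + 3 * a := by
      have h1 : v (y ^ 2) = WithZero.exp (6 * s + 3 * a) := by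
        rw [hcur, ← h4x]
        apply Valuation.map_add_eq_of_lt_left
        rw [map_one, h4x, ← WithZero.exp_zero, WithZero.exp_lt_exp]
        linarith
      rw [Valuation.map_pow, hb, A2_pow, WithZero.exp_inj] at h1
      push_cast at h1
      exact h1
    have k2 : -b ≤ 3 * s := by
      have h1 : v (algebraMap K N Y⁻¹) = WithZero.exp (-b) := by
        rw [map_inv₀, map_inv₀, ← hy', hb, WithZero.exp_neg]
      have h3 := hK Y⁻¹ (by rw [h1, A2_lt]; linarith)
      rw [h1, hv2, WithZero.exp_le_exp] at h3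
      exact h3
    have k3 : -(3 * s + a) ≤ 3 * s := by
      have h1 : v (algebraMap K N (2 * x)⁻¹) = WithZero.exp (-(3 * s + a)) := by
        rw [map_inv₀, map_inv₀, map_mul, map_ofNat, ← hX', Valuation.map_mul, hv2, ha,
          ← WithZero.exp_add, WithZero.exp_neg]
      have h3 := hK (2 * x)⁻¹ (by rw [h1, A2_lt]; linarith)
      rw [h1, hv2, WithZero.exp_le_exp] at h3
      exact h3
    refine ⟨y / X, div_ne_zero hy0 hX0, ?_⟩
    have e : 2 * (2 * X + θ) / (y / X) ^ 2 - 1 = -(y ^ 2)⁻¹ + 2 * θ * X ^ 2 * (y ^ 2)⁻¹ := by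
      have h5 : 4 * X ^ 3 = y ^ 2 - 1 := by rw [hcur]; ring
      field_simp
      linear_combination h5
    have hy2 : v ((y ^ 2)⁻¹) = WithZero.exp (-(2 * b)) := by
      rw [map_inv₀, Valuation.map_pow, hb, A2_pow, WithZero.exp_neg]
      push_cast
      rfl
    rw [e, hT2]
    apply Valuation.map_add_le
    · rw [Valuation.map_neg, hy2, WithZero.exp_le_exp]
      linarith
    · rw [Valuation.map_mul, Valuation.map_mul, Valuation.map_mul, Valuation.map_pow, hv2, hs, ha,
        hy2, A2_pow, ← WithZero.exp_add, ← WithZero.exp_add, ← WithZero.exp_add,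
        WithZero.exp_le_exp]
      push_cast
      linarith

end H55C
end

-- from Lib.H55C.A3
section

open NumberField IsDedekindDomain

namespace H55C

open H55B

/-! Chunk A3 (M): local valuations above 3. v(3) < 1, so v(2) = 1 (2 = 3 - 1), v(theta) = 1, v(r) = 1; lam = r - 1,
3 = -r^2 lam^2, so v(3) = v(lam)^2 and v(lam) < 1. X = 2x, s_j = X + r^j theta, s_0 s_1 s_2 = X^3 + 2 = 2Y^2,
v(m) = v(s_0). If v(X) > 1: v(s_0) = v(X), v(X)^3 = v(Y)^2, v(m) = v(Y/X)^2. If v(X) <= 1: all v(s_j) <= 1 and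
differences s_i - s_j have value v(lam). Suppose v(s_0) <= v(lam): then all v(s_j) <= v(lam) and
v(X^3 + 2) <= v(lam)^3. Put z = X - 1: X^3 + 2 = z^3 + 3z^2 + 3z + 3, so v(z) < 1, by hK v(z) <= v(lam), so
z^3, 3z^2, 3z have value <= v(lam)^3 and v(3) = v(lam)^2 <= v(lam)^3: contradiction. So v(s_0) > v(lam), all v(s_j) are
equal to s, s^3 = v(Y)^2, v(m) = s = (v(Y)/s)^2, and v(Y)/s = v(Y/s_0) is exp k. -/

theorem A3_root {N : Type} [Field N] (v : Valuation N (WithZero (Multiplicative ℤ))) (a b : N)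
    (ha : v a ≠ 0) (hb : v b ≠ 0) (h : v a ^ 3 = v b ^ 2) :
    ∃ k : ℤ, v a = WithZero.exp (2 * k) := by
  have hc : v b / v a ≠ 0 := div_ne_zero hb ha
  refine ⟨WithZero.log (v b / v a), ?_⟩
  have h1 : WithZero.exp (2 * WithZero.log (v b / v a)) = (v b / v a) ^ 2 := by
    rw [two_mul, WithZero.exp_add, WithZero.exp_log hc, sq]
  rw [h1, div_pow, ← h]
  field_simp

theorem loc3 {K N : Type} [Field K] [Field N] [Algebra K N]
    (v : Valuation N (WithZero (Multiplicative ℤ))) (r : K) (hr : r ^ 2 + r + 1 = 0) (θ : N)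
    (hθ : θ ^ 3 = 2) (h30 : v 3 ≠ 0) (h3 : v 3 < 1)
    (hK : ∀ z : K, v (algebraMap K N z) < 1 → v (algebraMap K N z) ≤ v (algebraMap K N (r - 1)))
    (x Y : K) (hY : Y ^ 2 = 4 * x ^ 3 + 1) (hY0 : Y ≠ 0) :
    ∃ k : ℤ, v (2 * (2 * algebraMap K N x + θ)) = WithZero.exp (2 * k) := by
  have v2 : v (2 : N) = 1 := by
    have h := v.map_sub_eq_of_lt_right (x := 3) (y := 1) (by rw [map_one]; exact h3)
    rw [map_one] at h
    rw [← h]
    congr 1
    norm_num
  have vθ : v θ = 1 := by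
    have h : v θ ^ 3 = 1 := by rw [← map_pow, hθ, v2]
    exact (pow_eq_one_iff_of_nonneg (zero_le) (by norm_num)).1 h
  set ρ : N := algebraMap K N r with hρ
  have hr' : ρ ^ 2 + ρ + 1 = 0 := by
    have := congrArg (algebraMap K N) hr
    simpa using this
  have hρ3 : ρ ^ 3 = 1 := by linear_combination (ρ - 1) * hr'
  have vρ : v ρ = 1 := by
    have h : v ρ ^ 3 = 1 := by rw [← map_pow, hρ3, map_one]
    exact (pow_eq_one_iff_of_nonneg (zero_le) (by norm_num)).1 h
  have v3 : v (3 : N) = v (ρ - 1) ^ 2 := by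
    have h : (3 : N) = -(ρ ^ 2 * (ρ - 1) ^ 2) := by
      linear_combination (ρ ^ 2 - 3 * ρ + 3) * hr'
    rw [h, Valuation.map_neg, map_mul, map_pow, map_pow, vρ, one_pow, one_mul]
  have hlam0 : v (ρ - 1) ≠ 0 := by
    intro h
    rw [h] at v3
    exact h30 (by rw [v3]; simp)
  have hlampos : 0 < v (ρ - 1) := zero_lt_iff.2 hlam0
  have hlam1 : v (ρ - 1) < 1 := by
    rw [v3] at h3
    exact lt_of_pow_lt_pow_left₀ 2 zero_le_one (by rwa [one_pow])
  set X : N := 2 * algebraMap K N x with hX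
  set y : N := algebraMap K N Y with hy
  have hy0 : y ≠ 0 := by
    rw [hy]
    exact (map_ne_zero_iff _ (algebraMap K N).injective).2 hY0
  have vy0 : v y ≠ 0 := (v.ne_zero_iff).2 hy0
  have hXY : X ^ 3 + 2 = 2 * y ^ 2 := by
    have := congrArg (algebraMap K N) hY
    simp only [map_pow, map_add, map_mul, map_one, map_ofNat] at this
    rw [hX, hy, this]
    ring
  have vXY : v (X ^ 3 + 2) = v y ^ 2 := by rw [hXY, map_mul, v2, one_mul, map_pow]
  have vm : v (2 * (X + θ)) = v (X + θ) := by rw [map_mul, v2, one_mul]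
  rw [vm]
  by_cases hX1 : 1 < v X
  · have h1 : v (X + θ) = v X := v.map_add_eq_of_lt_left (by rw [vθ]; exact hX1)
    have hX3 : 1 < v (X ^ 3) := by
      rw [map_pow]; exact one_lt_pow₀ hX1 (by norm_num)
    have h2 : v (X ^ 3 + 2) = v X ^ 3 := by
      rw [v.map_add_eq_of_lt_left (by rw [v2]; exact hX3), map_pow]
    rw [h1]
    exact A3_root v X y (zero_lt_iff.1 (zero_lt_one.trans hX1)) vy0 (by rw [← h2, vXY])
  · have hX1' : v X ≤ 1 := not_lt.1 hX1
    have hprod : (X + θ) * (X + ρ * θ) * (X + ρ ^ 2 * θ) = X ^ 3 + 2 := by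
      linear_combination (X ^ 2 * θ + X * θ ^ 2 * ρ + (ρ - 1) * θ ^ 3) * hr' + hθ
    have d1 : v (ρ * θ - θ) = v (ρ - 1) := by
      have : ρ * θ - θ = (ρ - 1) * θ := by ring
      rw [this, map_mul, vθ, mul_one]
    have d2 : v (ρ ^ 2 * θ - θ) = v (ρ - 1) := by
      have : ρ ^ 2 * θ - θ = -(ρ ^ 2 * (ρ - 1) * θ) := by
        linear_combination (ρ - 1) * θ * hr'
      rw [this, Valuation.map_neg, map_mul, map_mul, map_pow, vρ, vθ, one_pow, one_mul, mul_one]
    have e1 : X + ρ * θ = (X + θ) + (ρ * θ - θ) := by ring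
    have e2 : X + ρ ^ 2 * θ = (X + θ) + (ρ ^ 2 * θ - θ) := by ring
    have hgt : v (ρ - 1) < v (X + θ) := by
      by_contra hcon
      have s0 : v (X + θ) ≤ v (ρ - 1) := not_lt.1 hcon
      have s1 : v (X + ρ * θ) ≤ v (ρ - 1) := by
        rw [e1]; exact v.map_add_le s0 d1.le
      have s2 : v (X + ρ ^ 2 * θ) ≤ v (ρ - 1) := by
        rw [e2]; exact v.map_add_le s0 d2.le
      have s3 : v (X ^ 3 + 2) ≤ v (ρ - 1) ^ 3 := by
        rw [← hprod, map_mul, map_mul]
        calc v (X + θ) * v (X + ρ * θ) * v (X + ρ ^ 2 * θ)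
            ≤ v (ρ - 1) * v (ρ - 1) * v (ρ - 1) := by gcongr
          _ = v (ρ - 1) ^ 3 := (pow_three' _).symm
      have hz1 : v (X - 1) ≤ 1 := v.map_sub_le hX1' (by rw [map_one])
      have hexp : X ^ 3 + 2 = (X - 1) ^ 3 + 3 * (X - 1) ^ 2 + 3 * (X - 1) + 3 := by ring
      have hzl : v (X - 1) < 1 := by
        have h4 : (X - 1) ^ 3 = (X ^ 3 + 2) - 3 * ((X - 1) ^ 2 + (X - 1) + 1) := by
          rw [hexp]; ring
        have h5 : v ((X - 1) ^ 2 + (X - 1) + 1) ≤ 1 :=
          v.map_add_le (v.map_add_le (by rw [map_pow]; exact pow_le_one₀ (zero_le) hz1) hz1)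
            (by rw [map_one])
        have h6 : v ((X - 1) ^ 3) < 1 := by
          rw [h4]
          refine v.map_sub_lt (lt_of_le_of_lt s3 (pow_lt_one₀ (zero_le) hlam1 (by norm_num))) ?_
          rw [map_mul]
          exact lt_of_le_of_lt (mul_le_of_le_one_right' h5) h3
        rw [map_pow] at h6
        exact lt_of_pow_lt_pow_left₀ 3 zero_le_one (by rwa [one_pow])
      have hz2 : v (X - 1) ≤ v (ρ - 1) := by
        have h7 := hK (2 * x - 1)
        have h8 : algebraMap K N (2 * x - 1) = X - 1 := by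
          rw [map_sub, map_mul, map_one, map_ofNat, hX]
        have h9 : algebraMap K N (r - 1) = ρ - 1 := by simp [hρ]
        rw [h8, h9] at h7
        exact h7 hzl
      have t1 : v ((X - 1) ^ 3) ≤ v (ρ - 1) ^ 3 := by
        rw [map_pow]; exact pow_le_pow_left₀ (zero_le) hz2 3
      have t2 : v (3 * (X - 1) ^ 2) ≤ v (ρ - 1) ^ 3 := by
        rw [map_mul, map_pow, v3]
        calc v (ρ - 1) ^ 2 * v (X - 1) ^ 2 ≤ v (ρ - 1) ^ 2 * v (ρ - 1) ^ 2 := by gcongr
          _ = v (ρ - 1) ^ 3 * v (ρ - 1) := by rw [← pow_add, ← pow_succ]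
          _ ≤ v (ρ - 1) ^ 3 * 1 := by gcongr
          _ = v (ρ - 1) ^ 3 := mul_one _
      have t3 : v (3 * (X - 1)) ≤ v (ρ - 1) ^ 3 := by
        rw [map_mul, v3]
        calc v (ρ - 1) ^ 2 * v (X - 1) ≤ v (ρ - 1) ^ 2 * v (ρ - 1) := by gcongr
          _ = v (ρ - 1) ^ 3 := (pow_succ _ 2).symm
      have t4 : v (3 : N) ≤ v (ρ - 1) ^ 3 := by
        have h10 : (3 : N) = (X ^ 3 + 2) - (X - 1) ^ 3 - 3 * (X - 1) ^ 2 - 3 * (X - 1) := by
          rw [hexp]; ring
        rw [h10]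
        exact v.map_sub_le (v.map_sub_le (v.map_sub_le s3 t1) t2) t3
      rw [v3] at t4
      have t5 : v (ρ - 1) ^ 3 < v (ρ - 1) ^ 2 := by
        rw [pow_succ (v (ρ - 1)) 2]
        exact mul_lt_of_lt_one_right (zero_lt_iff.2 (pow_ne_zero 2 hlam0)) hlam1
      exact absurd t5 (not_lt.2 t4)
    have s1 : v (X + ρ * θ) = v (X + θ) := by
      rw [e1]; exact v.map_add_eq_of_lt_left (by rw [d1]; exact hgt)
    have s2 : v (X + ρ ^ 2 * θ) = v (X + θ) := by
      rw [e2]; exact v.map_add_eq_of_lt_left (by rw [d2]; exact hgt)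
    have s3 : v (X + θ) ^ 3 = v y ^ 2 := by
      rw [← vXY, ← hprod, map_mul, map_mul, s1, s2, pow_three']
    exact A3_root v (X + θ) y (zero_lt_iff.1 (hlampos.trans hgt)) vy0 s3

end H55C
end
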