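import Mathlib
import Pool.Agent.Lib.H1M.PP.D_H55B_Defs
import Pool.Agent.Lib.H1M.PP.D_H55P_Sel
import Pool.Agent.Lib.H1M.PP.M010
import Pool.Agent.Lib.H1M.PP.M013
import Pool.Agent.Lib.H1M.PP.M014
import Pool.Agent.Lib.H1M.PP.M015
import Pool.Agent.Lib.H1M.PP.M016
import Pool.Agent.Lib.H1M.PP.M017
import Pool.Agent.Lib.H1M.PP.M024
import Pool.Agent.Lib.H1M.PP.M025

/-! Merged copies (to shorten the build) of Lib.H13Y.GT, Lib.H28R.W11, Lib.H35T.K1, Lib.H55B.X1, Lib.H55K.A.C1, Lib.H55K.A.C2, Lib.H55K.A.E1, Lib.H55K.A.D2, Lib.H55K.A.D3, Lib.H55K.A.T1, Lib.H55K.A.T3. -/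

-- from Lib.H13Y.GT
section

open NumberField IsDedekindDomain

namespace H13Y

open H55P H13S

/-- Chunk YGT (M). N'/N Galois of prime degree l, w ramified in N': totally ramified, and every value of an element of N at a place above w is the l-th power of the value of an element of N'. N' over N: s13_alg, s13_galois (H55P/S13.lean), [N' : N] = l (ramificationIdxIn divides l by e f g = l; Ram gives a prime W of 𝓞 N' above w with index ≥ 2: all primes above w have the same index e ≥ 2 dividing l, so e = l).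
V above w: W' = the prime of N' below V (exists_below: V does not contain N), W' ∩ 𝓞 N = w (Abv). For a in N: W'(a) = w(a)^l (HeightOneSpectrum valuation in extensions: e = l; K5_ord or IsDedekindDomain.HeightOneSpectrum.valuation_comap). w(a) = exp(k): x = u^(-k), u a uniformizer of W': W'(x)^l = W'(a), Abv.le twice. -/
theorem ram_step {F : Type} [Field F] [NumberField F] {Ω : Type} [Field Ω] [DecidableEq Ω] [Algebra F Ω]
    {l : ℕ} (hl : l.Prime) {N N' : IntermediateField F Ω} [NumberField N] [NumberField N']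
    [FiniteDimensional F N'] (hNN : N ≤ N') (hn : ∀ s ∈ N.fixingSubgroup, ∀ x ∈ N', s x ∈ N')
    [IsAlgClosure F Ω] (hd : Module.finrank F N' = Module.finrank F N * l) {w : HeightOneSpectrum (𝓞 N)}
    (hr : Ram N N' w.asIdeal) {V : ValuationSubring Ω} (hV : Abv N V w) {a : Ω} (ha : a ∈ N) (h0 : a ≠ 0) :
    ∃ x ∈ N', V.valuation x ^ l = V.valuation a := by
  have hac : IsAlgClosed Ω := IsAlgClosure.isAlgClosed F
  have halg : Algebra.IsAlgebraic F Ω := IsAlgClosure.isAlgebraic
  have hch : CharZero Ω := charZero_of_injective_algebraMap (algebraMap F Ω).injective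
  let _ : Algebra N N' := s13_alg hNN
  have hgal : IsGalois N N' := s13_galois N N' hNN hn
  have hNf : FiniteDimensional F N := s13_fin hNN
  have hst : IsScalarTower F N N' := IsScalarTower.of_algebraMap_eq fun x => rfl
  have hfr : Module.finrank N N' = l := by
    have h1 := Module.finrank_mul_finrank F N N'
    rw [hd] at h1
    exact Nat.eq_of_mul_eq_mul_left Module.finrank_pos h1
  -- the ramification index is l
  have hes : H55R.es N N' w = l := by
    have h1 := (H55R.HC6_dvd (L := N') w).1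
    rw [hfr] at h1
    rcases (Nat.dvd_prime hl).1 h1 with h2 | h2
    · exfalso
      obtain ⟨W, hWp, hW⟩ := hr
      have hwm := w.isMaximal
      have hwp := w.isPrime
      have hle2 : Ideal.map (algebraMap (𝓞 N) (𝓞 N')) w.asIdeal ≤ W ^ 2 := by
        rw [Ideal.map_le_iff_le_comap]
        intro x hx
        exact hW x _ hx rfl
      have hle1 : Ideal.map (algebraMap (𝓞 N) (𝓞 N')) w.asIdeal ≤ W :=
        hle2.trans (Ideal.pow_le_self two_ne_zero)
      have hlo : W.LiesOver w.asIdeal := by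
        constructor
        have h3 : w.asIdeal ≤ W.under (𝓞 N) := Ideal.map_le_iff_le_comap.1 hle1
        have h4 : (W.under (𝓞 N)).IsPrime := inferInstance
        exact hwm.eq_of_le h4.ne_top h3
      have h5 : w.asIdeal.ramificationIdx' W ≠ 1 := (Ideal.ramificationIdx'_ne_one_iff hle1).2 hle2
      rw [Ideal.ramificationIdx'_eq_ramificationIdx w.asIdeal W w.ne_bot,
        ← Ideal.ramificationIdxIn_eq_ramificationIdx w.asIdeal W Gal(N'/N)] at h5
      exact h5 h2
    · exact h2
  -- the prime below V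
  obtain ⟨W', hW'⟩ : ∃ W' : HeightOneSpectrum (𝓞 N'), Abv N' V W' := by
    apply exists_below
    obtain ⟨π, hπ⟩ := H55R.HB1_pi w
    refine ⟨algebraMap N N' ((π⁻¹ : (N)ˣ) : N), ?_⟩
    have h1 := hV ((π⁻¹ : (N)ˣ) : N)
    have h2 : ¬ w.valuation N ((π⁻¹ : (N)ˣ) : N) ≤ 1 := by
      rw [H55R.BF1_val, H55R.ord_inv, hπ, neg_neg, not_le, ← WithZero.exp_zero,
        WithZero.exp_lt_exp]
      norm_num
    intro h3
    exact h2 (h1.1 h3)
  have hund : W'.under (𝓞 N) = w := by
    apply HeightOneSpectrum.ext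
    ext z
    show algebraMap (𝓞 N) (𝓞 N') z ∈ W'.asIdeal ↔ z ∈ w.asIdeal
    rw [← W'.valuation_lt_one_iff_mem (K := N'), ← w.valuation_lt_one_iff_mem (K := N)]
    have h1 := hW'.lt ((algebraMap (𝓞 N) (𝓞 N') z : 𝓞 N') : N')
    have h2 := hV.lt ((z : 𝓞 N) : N)
    exact h1.symm.trans h2
  -- the values
  have ha0 : (⟨a, ha⟩ : N) ≠ 0 := by
    intro h
    exact h0 (congrArg Subtype.val h)
  obtain ⟨u, hu⟩ := H55R.HB1_pi W'
  obtain ⟨k, hk⟩ : ∃ k : ℤ, k = H55R.ord w (Units.mk0 _ ha0) := ⟨_, rfl⟩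
  refine ⟨(((u ^ k : (N')ˣ) : N') : Ω), ((u ^ k : (N')ˣ) : N').2, ?_⟩
  have h1 := H55R.ord_map (L := N') W' w hund (Units.mk0 _ ha0)
  rw [hes, ← hk] at h1
  have h2 : W'.valuation N' (((u ^ k : (N')ˣ) : N') ^ l) =
      W'.valuation N' (algebraMap N N' (⟨a, ha⟩ : N)) := by
    have e1 : algebraMap N N' (⟨a, ha⟩ : N) =
        ((Units.map (algebraMap N N' : N →* N') (Units.mk0 _ ha0) : (N')ˣ) : N') := rfl
    rw [e1, H55R.BF1_val, h1, map_pow, H55R.BF1_val, H55R.ord_zpow, hu, mul_one,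
      ← WithZero.exp_nsmul]
    congr 1
    rw [nsmul_eq_mul]
    ring
  have h3 := (hW'.le _ _).2 h2.le
  have h4 := (hW'.le _ _).2 h2.ge
  have h5 := le_antisymm h3 h4
  rw [← map_pow]
  exact h5

end H13Y
end

-- from Lib.H28R.W11
section

open NumberField IsDedekindDomain

namespace H28R

open H55P H55R

/-! Chunk W11 (M): the field K' fixed by D. K' = IntermediateField.fixedField D (an IntermediateField F₀ N), a number field (NumberField.of_module_finite or the instance for intermediate fields), Algebra K K' by codRestrict of algebraMap K N (hDK), towers. IsGalois F₀ K' and the isomorphism of its group with the quotient: D is normal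
(IsGalois.normalAutEquivQuotient, or IsGalois.of_fixedField_normal_subgroup). Ramification: for a prime W' of K' let W be a prime of N above W' (under_exists). e = ramificationIdx over 𝓞 F₀: multiplicative in towers (Ideal.ramificationIdx_tower), so e(W') divides e(W); e(W') divides [K':F₀] (K'/F₀ Galois: H55R.HC6_dvd for es, es = ramificationIdx by
Ideal.ramificationIdxIn_eq_ramificationIdx). ram_one: if [K':F₀] = p^n and e(W) divides m, m prime to p, then e(W') = 1. -/

theorem exists_fix (F₀ K N : Type) [Field F₀] [NumberField F₀] [Field K] [NumberField K] [Field N]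
    [NumberField N] [Algebra F₀ K] [Algebra K N] [Algebra F₀ N] [IsScalarTower F₀ K N]
    [IsGalois F₀ N] (D : Subgroup (N ≃ₐ[F₀] N)) (hD : D.Normal)
    (hDK : ∀ d ∈ D, ∀ x : K, d (algebraMap K N x) = algebraMap K N x) :
    ∃ (K' : Type) (_ : Field K') (_ : NumberField K') (_ : Algebra F₀ K') (_ : Algebra K K')
      (_ : IsScalarTower F₀ K K') (_ : Algebra K' N) (_ : IsScalarTower F₀ K' N)
      (_ : IsScalarTower K K' N), IsGalois F₀ K' ∧
      Nonempty ((K' ≃ₐ[F₀] K') ≃* ((N ≃ₐ[F₀] N) ⧸ D)) := by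
  have hfd : FiniteDimensional F₀ N := FiniteDimensional.right ℚ F₀ N
  let E : IntermediateField F₀ N := IntermediateField.fixedField D
  have hmem : ∀ x : K, algebraMap K N x ∈ E := by
    intro x
    rw [IntermediateField.mem_fixedField_iff]
    intro d hd
    exact hDK d hd x
  let f : K →+* E := (algebraMap K N).codRestrict E.toSubring hmem
  let algE : Algebra K E := f.toAlgebra
  have t1 : IsScalarTower K E N := IsScalarTower.of_algebraMap_eq (fun x => rfl)
  have t2 : IsScalarTower F₀ K E := IsScalarTower.of_algebraMap_eq (fun x => by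
    apply Subtype.ext
    show algebraMap F₀ N x = algebraMap K N (algebraMap F₀ K x)
    exact IsScalarTower.algebraMap_apply F₀ K N x)
  have hnf : NumberField E := NumberField.of_module_finite F₀ E
  have hg : IsGalois F₀ E := IsGalois.of_fixedField_normal_subgroup D
  exact ⟨E, inferInstance, hnf, inferInstance, algE, t2, inferInstance, inferInstance, t1, hg,
    ⟨(IsGalois.normalAutEquivQuotient D).symm⟩⟩

theorem ram_one {F₀ K' N : Type} [Field F₀] [NumberField F₀] [Field K'] [NumberField K'] [Field N]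
    [NumberField N] [Algebra F₀ K'] [Algebra K' N] [Algebra F₀ N] [IsScalarTower F₀ K' N]
    [IsGalois F₀ K'] {p : ℕ} (hp : p.Prime) (hk : ∃ n : ℕ, Module.finrank F₀ K' = p ^ n) {m : ℕ}
    (hm : m.Coprime p) (W' : Pl K') (W : Pl N) (hW : W.under (𝓞 K') = W')
    (he : W.asIdeal.ramificationIdx (𝓞 F₀) ∣ m) : W'.asIdeal.ramificationIdx (𝓞 F₀) = 1 := by
  obtain ⟨n, hn⟩ := hk
  have hl : W.asIdeal.LiesOver W'.asIdeal := (BF2_mem W' W hW).2
  have h1 := Ideal.ramificationIdx_tower (R := 𝓞 F₀) W'.asIdeal W.asIdeal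
  have h2 : W'.asIdeal.ramificationIdx (𝓞 F₀) ∣ m := (Dvd.intro _ h1.symm).trans he
  have hv : W'.under (𝓞 F₀) = W'.under (𝓞 F₀) := rfl
  have hl' : W'.asIdeal.LiesOver (W'.under (𝓞 F₀)).asIdeal := (BF2_mem _ W' hv).2
  have hWp := W'.isPrime
  have h3 := Ideal.ramificationIdxIn_eq_ramificationIdx (W'.under (𝓞 F₀)).asIdeal W'.asIdeal Gal(K'/F₀)
  have h4 : es F₀ K' (W'.under (𝓞 F₀)) = W'.asIdeal.ramificationIdx (𝓞 F₀) := h3
  have h5 := (HC6_dvd (L := K') (W'.under (𝓞 F₀))).1
  rw [h4, hn] at h5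
  have h6 : Nat.Coprime m (p ^ n) := Nat.Coprime.pow_right n hm
  exact Nat.eq_one_of_dvd_coprimes h6 h2 h5

end H28R
end

-- from Lib.H35T.K1
section

open NumberField IsDedekindDomain

namespace H35T

open H55B

variable {K : Type} [Field K] [NumberField K] [Algebra F K]

/-! Chunk K1 (M): fields generated by cube roots. Adapt H55B.G0. Every s in S is a root of X^3 - a, which splits in K (om in F) and is separable; K is generated
by S. For g in the Galois group g s = om^j s, so g (h s) = h (g s) and g^3 s = s for s in S (s nonzero because a is nonzero: a = 1 modulo 3), so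
the group is commutative of exponent 3; its order is a power of 3 (IsPGroup.iff_card). -/

theorem Adm.ne_zero {a : O} (ha : Adm a) : a ≠ 0 := by
  rintro rfl
  have h := (dvd_mul_right (3 : O) (om - 1)).trans ha.1
  have h3 : ((3 : ℤ) : O) ∣ ((-1 : ℤ) : O) + ((0 : ℤ) : O) * om := by
    have e : ((-1 : ℤ) : O) + ((0 : ℤ) : O) * om = 0 - 1 := by push_cast; ring
    rw [e]
    exact_mod_cast h
  have := (H4_dvd h3).1
  omega

theorem K1_rel : algebraMap O K om ^ 2 + algebraMap O K om + 1 = 0 := by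
  have h := congrArg (algebraMap O K) om_rel
  simpa using h

theorem K1_cube : algebraMap O K om ^ 3 = 1 := by
  linear_combination (algebraMap O K om - 1) * (K1_rel (K := K))

theorem K1_fix (g : K ≃ₐ[F] K) (a : O) : g (algebraMap O K a) = algebraMap O K a := by
  rw [IsScalarTower.algebraMap_apply O F K a, AlgEquiv.commutes]

open Polynomial in
theorem isGalois3 (S : Set K) (hS : ∀ s ∈ S, ∃ a : O, Adm a ∧ s ^ 3 = algebraMap O K a)
    (hgen : Algebra.adjoin F S = ⊤) : IsGalois F K := by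
  have : IsScalarTower ℚ F K := IsScalarTower.of_algebraMap_eq' (Subsingleton.elim _ _)
  have : FiniteDimensional F K := Module.Finite.of_restrictScalars_finite ℚ F K
  have hint : ∀ x : K, IsIntegral F x := fun x => Algebra.IsIntegral.isIntegral x
  have htop : ∀ x : K, x ∈ IntermediateField.adjoin F S := by
    intro x
    have h1 : x ∈ Algebra.adjoin F S := hgen ▸ Algebra.mem_top
    exact IntermediateField.algebra_adjoin_le_adjoin F S h1
  have hsp : ∀ s ∈ S, ((minpoly F s).map (algebraMap F K)).Splits := by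
    intro s hs
    obtain ⟨a, -, ha⟩ := hS s hs
    have h1 : minpoly F s ∣ X ^ 3 - C (algebraMap O F a) := by
      refine minpoly.dvd F s ?_
      rw [map_sub, map_pow, aeval_X, aeval_C, ha, ← IsScalarTower.algebraMap_apply O F K a,
        sub_self]
    have h2 : (X ^ 3 - C (algebraMap O F a)).map (algebraMap F K) =
        (X - C s) * (X - C (algebraMap O K om * s)) * (X - C (algebraMap O K om ^ 2 * s)) := by
      rw [Polynomial.map_sub, Polynomial.map_pow, map_X, map_C,
        ← IsScalarTower.algebraMap_apply O F K a, ← ha, C_pow, C_mul, C_mul, C_pow]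
      have hr := congrArg (C : K → K[X]) (K1_rel (K := K))
      simp only [C_add, C_pow, C_1, C_0] at hr
      linear_combination (C s * X ^ 2 - C (algebraMap O K om) * C s ^ 2 * X +
        (C (algebraMap O K om) - 1) * C s ^ 3) * hr
    have h3 : (minpoly F s).map (algebraMap F K) ∣
        (X - C s) * (X - C (algebraMap O K om * s)) * (X - C (algebraMap O K om ^ 2 * s)) := by
      rw [← h2]
      exact Polynomial.map_dvd _ h1
    exact (((Splits.X_sub_C s).mul (Splits.X_sub_C _)).mul (Splits.X_sub_C _)).of_dvd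
      (mul_ne_zero (mul_ne_zero (X_sub_C_ne_zero _) (X_sub_C_ne_zero _)) (X_sub_C_ne_zero _)) h3
  have hn : Normal F K := normal_iff.mpr fun x =>
    ⟨hint x, IntermediateField.splits_of_mem_adjoin F K (L := K) (S := S)
      (fun s hs => ⟨hint s, hsp s hs⟩) (htop x)⟩
  exact ⟨⟩

theorem gal_om (s : K) (a : O) (hs : s ^ 3 = algebraMap O K a) (g : K ≃ₐ[F] K) :
    ∃ j : ℕ, j < 3 ∧ g s = algebraMap O K om ^ j * s := by
  have h1 : (g s) ^ 3 = s ^ 3 := by
    rw [← map_pow, hs, K1_fix]
  have h2 : (g s - s) * (g s - algebraMap O K om * s) * (g s - algebraMap O K om ^ 2 * s) = 0 := by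
    have hr := K1_rel (K := K)
    linear_combination h1 - (s * (g s) ^ 2 - algebraMap O K om * s ^ 2 * g s +
      (algebraMap O K om - 1) * s ^ 3) * hr
  rcases mul_eq_zero.1 h2 with h3 | h3
  · rcases mul_eq_zero.1 h3 with h4 | h4
    · exact ⟨0, by norm_num, by rw [pow_zero, one_mul]; exact sub_eq_zero.1 h4⟩
    · exact ⟨1, by norm_num, by rw [pow_one]; exact sub_eq_zero.1 h4⟩
  · exact ⟨2, by norm_num, sub_eq_zero.1 h3⟩

theorem gal_comm (S : Set K) (hS : ∀ s ∈ S, ∃ a : O, Adm a ∧ s ^ 3 = algebraMap O K a)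
    (hgen : Algebra.adjoin F S = ⊤) (g h : K ≃ₐ[F] K) : g * h = h * g := by
  have h1 : ((g * h : K ≃ₐ[F] K) : K →ₐ[F] K) = ((h * g : K ≃ₐ[F] K) : K →ₐ[F] K) := by
    refine AlgHom.ext_of_adjoin_eq_top hgen fun s hs => ?_
    obtain ⟨a, -, ha⟩ := hS s hs
    obtain ⟨i, -, hi⟩ := gal_om s a ha g
    obtain ⟨j, -, hj⟩ := gal_om s a ha h
    show g (h s) = h (g s)
    rw [hi, hj, map_mul, map_mul, map_pow, map_pow, K1_fix, K1_fix, hi, hj]
    ring
  ext x
  exact congrArg (fun f : K →ₐ[F] K => f x) h1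

theorem K1_pow (S : Set K) (hS : ∀ s ∈ S, ∃ a : O, Adm a ∧ s ^ 3 = algebraMap O K a)
    (hgen : Algebra.adjoin F S = ⊤) (g : K ≃ₐ[F] K) : g ^ 3 = 1 := by
  have h1 : ((g * g * g : K ≃ₐ[F] K) : K →ₐ[F] K) = AlgHom.id F K := by
    refine AlgHom.ext_of_adjoin_eq_top hgen fun s hs => ?_
    obtain ⟨a, -, ha⟩ := hS s hs
    obtain ⟨i, -, hi⟩ := gal_om s a ha g
    show g (g (g s)) = s
    rw [hi, map_mul, map_pow, K1_fix, hi, map_mul, map_mul, map_pow, K1_fix, hi]
    have h3 : (algebraMap O K om ^ i) ^ 3 = 1 := by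
      rw [← pow_mul, mul_comm, pow_mul, K1_cube, one_pow]
    calc algebraMap O K om ^ i * (algebraMap O K om ^ i * (algebraMap O K om ^ i * s)) =
        (algebraMap O K om ^ i) ^ 3 * s := by ring
      _ = s := by rw [h3, one_mul]
  rw [pow_succ, pow_two]
  ext x
  exact congrArg (fun f : K →ₐ[F] K => f x) h1

theorem gal_card (S : Set K) (hS : ∀ s ∈ S, ∃ a : O, Adm a ∧ s ^ 3 = algebraMap O K a)
    (hgen : Algebra.adjoin F S = ⊤) : ∃ k : ℕ, Module.finrank F K = 3 ^ k := by
  have : IsScalarTower ℚ F K := IsScalarTower.of_algebraMap_eq' (Subsingleton.elim _ _)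
  have : FiniteDimensional F K := Module.Finite.of_restrictScalars_finite ℚ F K
  have := isGalois3 S hS hgen
  have hp : Fact (Nat.Prime 3) := ⟨Nat.prime_three⟩
  have h1 : IsPGroup 3 (K ≃ₐ[F] K) := fun g => ⟨1, by rw [pow_one]; exact K1_pow S hS hgen g⟩
  obtain ⟨k, hk⟩ := IsPGroup.iff_card.1 h1
  exact ⟨k, by rw [← hk, IsGalois.card_aut_eq_finrank]⟩

theorem K1_mem_fin (S : Set K) (x : K) (hx : x ∈ Algebra.adjoin F S) :
    ∃ S' : Set K, S' ⊆ S ∧ S'.Finite ∧ x ∈ Algebra.adjoin F S' := by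
  induction hx using Algebra.adjoin_induction with
  | mem x hx =>
    exact ⟨{x}, Set.singleton_subset_iff.2 hx, Set.finite_singleton x,
      Algebra.subset_adjoin (Set.mem_singleton x)⟩
  | algebraMap r => exact ⟨∅, Set.empty_subset _, Set.finite_empty, Subalgebra.algebraMap_mem _ r⟩
  | add x y _ _ hx hy =>
    obtain ⟨S1, h1, h2, h3⟩ := hx
    obtain ⟨S2, h4, h5, h6⟩ := hy
    exact ⟨S1 ∪ S2, Set.union_subset h1 h4, h2.union h5,
      add_mem (Algebra.adjoin_mono Set.subset_union_left h3)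
        (Algebra.adjoin_mono Set.subset_union_right h6)⟩
  | mul x y _ _ hx hy =>
    obtain ⟨S1, h1, h2, h3⟩ := hx
    obtain ⟨S2, h4, h5, h6⟩ := hy
    exact ⟨S1 ∪ S2, Set.union_subset h1 h4, h2.union h5,
      mul_mem (Algebra.adjoin_mono Set.subset_union_left h3)
        (Algebra.adjoin_mono Set.subset_union_right h6)⟩

/-- Finitely many of the generators suffice. -/
theorem finite_gen (S : Set K) (hgen : Algebra.adjoin F S = ⊤) :
    ∃ S' : Set K, S' ⊆ S ∧ S'.Finite ∧ Algebra.adjoin F S' = ⊤ := by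
  have : IsScalarTower ℚ F K := IsScalarTower.of_algebraMap_eq' (Subsingleton.elim _ _)
  have : FiniteDimensional F K := Module.Finite.of_restrictScalars_finite ℚ F K
  let b := Module.finBasis F K
  have hb : ∀ i, ∃ S' : Set K, S' ⊆ S ∧ S'.Finite ∧ b i ∈ Algebra.adjoin F S' := fun i =>
    K1_mem_fin S (b i) (hgen ▸ Algebra.mem_top)
  choose T h1 h2 h3 using hb
  refine ⟨⋃ i, T i, Set.iUnion_subset h1, Set.finite_iUnion h2, ?_⟩
  rw [Algebra.eq_top_iff]
  intro x
  rw [← b.sum_repr x]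
  exact Subalgebra.sum_mem _ fun i _ => Subalgebra.smul_mem _
    (Algebra.adjoin_mono (Set.subset_iUnion T i) (h3 i)) _

end H35T
end

-- from Lib.H55B.X1
section

open NumberField IsDedekindDomain

namespace H55B

/-! Chunk X1: infinitely many primes modulo which 2 is not a cube.
Converse of E3.odd_norm: if 2 is a cube modulo v (v not above 6) then 4x^3 + 1 = 0 has exactly 3 roots in O/v
(cube roots of unity are in O/v), the involution (x, y) -> (x, -1-y) on the affine points of y^2 + y = x^3 has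
exactly 3 fixed points, so the number of affine points is odd and Nm(gen v - 1) (one more) is even; then
2 | gen v - 1 (a^2 - ab + b^2 even iff a, b even). Euclid: given a finite set T of rational primes, let P be the
product of the odd ones and beta = 1 + 3 om P: primary, coprime to T and to 2 and 3 (1 + om P = 1 + om = -om^2
mod 2), not congruent to 1 mod 2; it is the product of the primary generators of its prime factors, so one
of them is not 1 mod 2. Its norm is a power of a rational prime not in T. -/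

theorem X1_inv (α : Type*) [Finite α] (f : α → α) (hf : ∀ x, f (f x) = x) :
    Nat.card α % 2 = Nat.card {x // f x = x} % 2 := by
  classical
  have := Fintype.ofFinite α
  have h2 := Fact.mk Nat.prime_two
  have h := Equiv.Perm.card_fixedPoints_modEq (f := (f : Function.End α)) (p := 2) (n := 1) (by
    funext x
    exact hf x)
  rw [Nat.card_eq_fintype_card, Nat.card_eq_fintype_card]
  have h3 : Fintype.card α % 2 = Fintype.card (Function.fixedPoints (f : Function.End α)) % 2 := h
  rw [h3]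
  congr 1

/-- three roots -/
theorem X1_roots {k : Type*} [Field k] {w r : k} (hw : w ^ 2 + w + 1 = 0) (h3 : (3 : k) ≠ 0) (h2 : (2 : k) ≠ 0)
    (hr : 4 * r ^ 3 + 1 = 0) : Nat.card {x : k // 4 * x ^ 3 + 1 = 0} = 3 := by
  classical
  have hr0 : r ≠ 0 := by
    rintro rfl
    simp at hr
  have hw1 : w ≠ 1 := by
    rintro rfl
    apply h3
    linear_combination hw
  have hw0 : w ≠ 0 := by
    rintro rfl
    simp at hw
  have h4 : (4 : k) ≠ 0 := by
    have : (4 : k) = 2 * 2 := by norm_num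
    rw [this]
    exact mul_ne_zero h2 h2
  have hset : {x : k | 4 * x ^ 3 + 1 = 0} = (({r, w * r, w ^ 2 * r} : Finset k) : Set k) := by
    ext x
    simp only [Set.mem_ofPred_eq, Finset.coe_insert, Finset.coe_singleton, Set.mem_insert_iff,
      Set.mem_singleton_iff]
    constructor
    · intro hx
      have h5 : (x - r) * ((x - w * r) * (x - w ^ 2 * r)) = 0 := by
        have h6 : x ^ 3 - r ^ 3 = 0 := by
          apply mul_left_cancel₀ h4
          linear_combination hx - hr
        linear_combination h6 + (-(x ^ 2) * r + x * r ^ 2 * w - r ^ 3 * (w - 1)) * hw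
      rcases mul_eq_zero.1 h5 with h | h
      · exact Or.inl (sub_eq_zero.1 h)
      · rcases mul_eq_zero.1 h with h | h
        · exact Or.inr (Or.inl (sub_eq_zero.1 h))
        · exact Or.inr (Or.inr (sub_eq_zero.1 h))
    · have hw3 : w ^ 3 = 1 := by linear_combination (w - 1) * hw
      rintro (rfl | rfl | rfl)
      · exact hr
      · linear_combination hr + 4 * r ^ 3 * hw3
      · linear_combination hr + 4 * r ^ 3 * (w ^ 3 + 1) * hw3
  have h1 : Nat.card {x : k // 4 * x ^ 3 + 1 = 0} = Nat.card ({x : k | 4 * x ^ 3 + 1 = 0} : Set k) := rfl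
  rw [h1, hset, Nat.card_coe_set_eq, Set.ncard_coe_finset]
  have n1 : r ≠ w * r := by
    intro h
    apply hw1
    apply mul_right_cancel₀ hr0
    rw [one_mul]; exact h.symm
  have n2 : r ≠ w ^ 2 * r := by
    intro h
    apply hw1
    have h7 : w ^ 2 = 1 := by
      apply mul_right_cancel₀ hr0
      rw [one_mul]; exact h.symm
    have h8 : w = -2 := by linear_combination hw - h7
    exfalso
    rw [h8] at hw
    apply h3
    linear_combination hw
  have n3 : w * r ≠ w ^ 2 * r := by
    intro h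
    apply hw1
    have h7 : w = w ^ 2 := mul_right_cancel₀ hr0 h
    have h8 : w * 1 = w * w := by rw [mul_one]; linear_combination h7
    exact (mul_left_cancel₀ hw0 h8).symm
  rw [Finset.card_insert_of_notMem, Finset.card_insert_of_notMem, Finset.card_singleton]
  · simpa using n3
  · simp only [Finset.mem_insert, Finset.mem_singleton, not_or]
    exact ⟨n1, n2⟩

theorem X1_count {k : Type*} [Field k] [Finite k] (h2 : (2 : k) ≠ 0) (h3 : (3 : k) ≠ 0) {w c : k}
    (hw : w ^ 2 + w + 1 = 0) (hc : c ^ 3 = 2) :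
    Nat.card {p : k × k // p.2 ^ 2 + p.2 = p.1 ^ 3} % 2 = 1 := by
  have h4 : (4 : k) ≠ 0 := by
    have : (4 : k) = 2 * 2 := by norm_num
    rw [this]
    exact mul_ne_zero h2 h2
  have hc0 : c ≠ 0 := by
    intro h0
    rw [h0] at hc
    apply h2
    rw [← hc]; ring
  have hr : 4 * (-(c ^ 2)⁻¹) ^ 3 + 1 = (0 : k) := by
    have h6 : (c ^ 2) ^ 3 = 4 := by
      have : (c ^ 2) ^ 3 = (c ^ 3) ^ 2 := by ring
      rw [this, hc]; norm_num
    have h7 : (c ^ 2) * (c ^ 2)⁻¹ = 1 := mul_inv_cancel₀ (pow_ne_zero 2 hc0)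
    have h8 : 4 * ((c ^ 2)⁻¹) ^ 3 = 1 := by
      rw [← h6, ← mul_pow, h7, one_pow]
    linear_combination -h8
  have hroots := X1_roots hw h3 h2 hr
  have h7 : (2 : k) * 2⁻¹ = 1 := mul_inv_cancel₀ h2
  let f : {p : k × k // p.2 ^ 2 + p.2 = p.1 ^ 3} → {p : k × k // p.2 ^ 2 + p.2 = p.1 ^ 3} :=
    fun p => ⟨(p.1.1, -1 - p.1.2), by
      have := p.2
      simp only
      linear_combination this⟩
  have hpar := X1_inv _ f (by
      intro p
      apply Subtype.ext
      simp [f])
  rw [hpar]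
  have hfix : Nat.card {p // f p = p} = Nat.card {x : k // 4 * x ^ 3 + 1 = 0} := by
    refine Nat.card_congr
      { toFun := fun p => ⟨p.1.1.1, ?_⟩
        invFun := fun z => ⟨⟨(z.1, -2⁻¹), ?_⟩, ?_⟩
        left_inv := ?_
        right_inv := ?_ }
    · have h5 : -1 - p.1.1.2 = p.1.1.2 := congrArg (fun z => z.1.2) p.2
      have h6 := p.1.2
      linear_combination (-4 : k) * h6 - (2 * p.1.1.2 + 1) * h5
    · have h6 := z.2
      simp only
      apply mul_left_cancel₀ h4
      linear_combination (2 * 2⁻¹ - 1) * h7 - h6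
    · apply Subtype.ext
      apply Prod.ext
      · rfl
      · show -1 - (-2⁻¹ : k) = -2⁻¹
        linear_combination h7
    · intro p
      apply Subtype.ext
      apply Subtype.ext
      have h5 : -1 - p.1.1.2 = p.1.1.2 := congrArg (fun z => z.1.2) p.2
      apply Prod.ext
      · rfl
      · show (-2⁻¹ : k) = p.1.1.2
        apply mul_left_cancel₀ h2
        linear_combination h5 - h7
    · intro z
      rfl
  rw [hfix, hroots]

theorem even_norm (v : HeightOneSpectrum O) (h3 : (3 : O) ∉ v.asIdeal) (h2 : (2 : O) ∉ v.asIdeal)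
    (x : O) (h : x ^ 3 - 2 ∈ v.asIdeal) : (2 : O) ∣ gen v - 1 := by
  classical
  have hmax : v.asIdeal.IsMaximal := v.isMaximal
  letI : Field (O ⧸ v.asIdeal) := Ideal.Quotient.field v.asIdeal
  have hfin : Finite (O ⧸ v.asIdeal) := Ideal.finiteQuotientOfFreeOfNeBot v.asIdeal v.ne_bot
  have hcard : Nat.card (O ⧸ v.asIdeal) = Ideal.absNorm v.asIdeal ^ 1 := by
    rw [pow_one]; rfl
  have hp := pts v h3 (O ⧸ v.asIdeal) (Ideal.Quotient.mk v.asIdeal) (Ideal.mk_ker) 1 one_pos hcard
  have hmk : ∀ n : ℕ, (Ideal.Quotient.mk v.asIdeal) (n : O) = (n : O ⧸ v.asIdeal) := fun n => map_natCast _ n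
  have hpar : Nat.card {p : (O ⧸ v.asIdeal) × (O ⧸ v.asIdeal) // p.2 ^ 2 + p.2 = p.1 ^ 3} % 2 = 1 := by
    apply X1_count (w := Ideal.Quotient.mk v.asIdeal om) (c := Ideal.Quotient.mk v.asIdeal x)
    · intro h0
      apply h2
      rw [← Ideal.Quotient.eq_zero_iff_mem]
      have := hmk 2
      push_cast at this
      rw [this]; exact h0
    · intro h0
      apply h3
      rw [← Ideal.Quotient.eq_zero_iff_mem]
      have := hmk 3
      push_cast at this
      rw [this]; exact h0
    · rw [← map_pow, ← map_add, ← map_one (Ideal.Quotient.mk v.asIdeal), ← map_add, om_rel, map_zero]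
    · have := Ideal.Quotient.eq_zero_iff_mem.2 h
      rw [map_sub, map_pow, sub_eq_zero] at this
      rw [this]
      have := hmk 2
      push_cast at this
      exact this
  set N := Nat.card {p : (O ⧸ v.asIdeal) × (O ⧸ v.asIdeal) // p.2 ^ 2 + p.2 = p.1 ^ 3} with hNdef
  have hNm : ((Nm (gen v - 1) : ℕ) : ℂ) = ((N + 1 : ℕ) : ℂ) := by
    have h1 : ((Nm (gen v - 1) : ℕ) : ℂ) = e ((gen v - 1) * cj (gen v - 1)) := by
      rw [mul_cj, map_natCast]
    rw [h1]
    have h4 := gen_mul_conj v h3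
    simp only [map_mul, map_sub, e_cj, map_one]
    push_cast
    rw [hp]
    simp only [pow_one]
    linear_combination h4
  have hNm' : Nm (gen v - 1) = N + 1 := by exact_mod_cast hNm
  have hdvd : (2 : O) ∣ (gen v - 1) * cj (gen v - 1) := by
    rw [mul_cj, hNm']
    obtain ⟨m, hm⟩ : ∃ m, N + 1 = 2 * m := ⟨(N + 1) / 2, by omega⟩
    rw [hm]
    push_cast
    exact dvd_mul_right _ _
  rcases two_prime.dvd_or_dvd hdvd with h | h
  · exact h
  · obtain ⟨z, hz⟩ := h
    refine ⟨cj z, ?_⟩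
    have h5 := congrArg cj hz
    rw [cj_cj, map_mul, map_ofNat] at h5
    exact h5

theorem X1_Nm_pos {x : O} (hx : x ≠ 0) : 0 < Nm x := Nat.pos_of_ne_zero fun h => hx (Nm_eq_zero.1 h)

/-- a primary element all of whose primary prime factors are 1 mod 2 is 1 mod 2 -/
theorem X1_ind : ∀ (n : ℕ) (x : O), Nm x = n → x ≠ 0 → Prim x →
    (∀ v : HeightOneSpectrum O, (3 : O) ∉ v.asIdeal → x ∈ v.asIdeal → (2 : O) ∣ gen v - 1) →
    (2 : O) ∣ x - 1 := by
  intro n
  induction n using Nat.strong_induction_on with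
  | _ n ih =>
    intro x hn hx0 hx h
    by_cases hu : IsUnit x
    · have : x = 1 := hx.eq_of_associated prim_one (associated_one_iff_isUnit.2 hu)
      rw [this, sub_self]
      exact dvd_zero _
    · obtain ⟨π, hπ, hπx⟩ := WfDvdMonoid.exists_irreducible_factor hu hx0
      have hπp : Prime π := hπ.prime
      let v : HeightOneSpectrum O := ⟨Ideal.span {π}, (Ideal.span_singleton_prime hπp.ne_zero).2 hπp, by
        rw [Ne, Ideal.span_singleton_eq_bot]; exact hπp.ne_zero⟩
      have hxv : x ∈ v.asIdeal := Ideal.mem_span_singleton.2 hπx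
      have h3 : (3 : O) ∉ v.asIdeal := by
        intro h3
        apply v.isPrime.ne_top
        rw [Ideal.eq_top_iff_one]
        obtain ⟨z, hz⟩ := hx
        have : (1 : O) = x - 3 * z := by rw [← hz]; ring
        rw [this]
        exact v.asIdeal.sub_mem hxv (v.asIdeal.mul_mem_right _ h3)
      obtain ⟨y, hy⟩ := (gen_dvd_iff v h3 x).2 hxv
      have hg := gen_spec v h3
      have hy0 : y ≠ 0 := by
        rintro rfl
        exact hx0 (by rw [hy, mul_zero])
      have hyP : Prim y := by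
        obtain ⟨z, hz⟩ := hx
        obtain ⟨z', hz'⟩ := hg.2
        refine ⟨z - z' * y, ?_⟩
        linear_combination hz - y * hz' - hy
      have hg1 : Nm (gen v) ≠ 1 := by
        intro h1
        exact (gen_prime v h3).not_isUnit (Nm_eq_one.1 h1)
      have hlt : Nm y < n := by
        rw [← hn, hy, Nm_mul]
        have h5 := X1_Nm_pos (gen_prime v h3).ne_zero
        have h6 := X1_Nm_pos hy0
        have h7 : 2 ≤ Nm (gen v) := by omega
        nlinarith
      have h8 := ih _ hlt y rfl hy0 hyP (fun v' h3' hv' => h v' h3' (by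
        rw [hy]; exact v'.asIdeal.mul_mem_left _ hv'))
      have h9 := h v h3 hxv
      obtain ⟨z, hz⟩ := h8
      obtain ⟨z', hz'⟩ := h9
      refine ⟨z' * y + z, ?_⟩
      rw [hy]
      linear_combination y * hz' + hz

theorem exists_noncube (T : Finset ℕ) : ∃ v : HeightOneSpectrum O, (3 : O) ∉ v.asIdeal ∧
    (2 : O) ∉ v.asIdeal ∧ (¬ ∃ x : O, x ^ 3 - 2 ∈ v.asIdeal) ∧
    ∀ p ∈ T, p.Prime → (p : O) ∉ v.asIdeal := by
  classical
  set P : ℕ := ∏ p ∈ T.filter (fun p => p.Prime ∧ p ≠ 2), p with hP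
  have hPodd : Odd P := by
    rw [hP]
    apply Finset.prod_induction _ (fun n : ℕ => Odd n) (fun a b ha hb => ha.mul hb) odd_one
    intro p hp
    rw [Finset.mem_filter] at hp
    exact hp.2.1.odd_of_ne_two hp.2.2
  obtain ⟨m, hm⟩ := hPodd
  set β : O := 1 + 3 * om * P with hβ
  have hβ2 : ∀ v : HeightOneSpectrum O, β ∈ v.asIdeal → (2 : O) ∉ v.asIdeal := by
    intro v h1 h2
    apply v.isPrime.ne_top
    rw [Ideal.eq_top_iff_one]
    have h3 : (1 : O) = -om * β + 2 * (om * (3 * om * m + om - om + 2 * om - om)) + 2 * 0 +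
        (1 + om * β - 2 * (om * (3 * om * m + om))) := by ring
    have h4 : om ^ 3 = 1 := by linear_combination (om - 1) * om_rel
    have h5 : (1 : O) = -om * β + 2 * (3 * om ^ 2 * m + om ^ 2) := by
      rw [hβ, hm]
      push_cast
      linear_combination om_rel
    rw [h5]
    exact v.asIdeal.add_mem (v.asIdeal.mul_mem_left _ h1) (v.asIdeal.mul_mem_right _ h2)
  have hβ0 : β ≠ 0 := by
    intro h0
    have h2 : (2 : O) ∣ β - 1 - om := ⟨3 * om * m + om, by rw [hβ, hm]; push_cast; ring⟩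
    rw [h0] at h2
    obtain ⟨z, hz⟩ := h2
    have : om ^ 2 = 2 * z := by rw [← hz]; linear_combination om_rel
    have h4 : (2 : O) ∣ 1 := ⟨z * om, by
      have h5 : om ^ 3 = 1 := by linear_combination (om - 1) * om_rel
      linear_combination om * this - h5⟩
    exact two_prime.not_isUnit (isUnit_of_dvd_one h4)
  have hβP : Prim β := ⟨om * P, by rw [hβ]; ring⟩
  have hβ1 : ¬ (2 : O) ∣ β - 1 := by
    rintro ⟨z, hz⟩
    have h1 : om * (3 * P) = 2 * z := by rw [← hz, hβ]; ring
    have h4 : (2 : O) ∣ 1 := ⟨z * om ^ 2 - 3 * m - 1, by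
      have h5 : om ^ 3 = 1 := by linear_combination (om - 1) * om_rel
      rw [hm] at h1
      push_cast at h1
      linear_combination om ^ 2 * h1 - 3 * (2 * m + 1) * h5⟩
    exact two_prime.not_isUnit (isUnit_of_dvd_one h4)
  obtain ⟨v, h3, hv, hg⟩ : ∃ v : HeightOneSpectrum O, (3 : O) ∉ v.asIdeal ∧ β ∈ v.asIdeal ∧
      ¬ (2 : O) ∣ gen v - 1 := by
    by_contra hcon
    push Not at hcon
    exact hβ1 (X1_ind _ β rfl hβ0 hβP hcon)
  have h2 := hβ2 v hv
  refine ⟨v, h3, h2, ?_, ?_⟩
  · rintro ⟨x, hx⟩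
    exact hg (even_norm v h3 h2 x hx)
  · intro p hp hpp hpv
    by_cases hp2 : p = 2
    · subst hp2
      exact h2 (by exact_mod_cast hpv)
    · have hdvd : p ∣ P := Finset.dvd_prod_of_mem _ (Finset.mem_filter.2 ⟨hp, hpp, hp2⟩)
      obtain ⟨k, hk⟩ := hdvd
      apply v.isPrime.ne_top
      rw [Ideal.eq_top_iff_one]
      have : (1 : O) = β - (p : O) * (3 * om * k) := by
        rw [hβ, hk]; push_cast; ring
      rw [this]
      exact v.asIdeal.sub_mem hv (v.asIdeal.mul_mem_right _ hpv)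

end H55B
end

-- from Lib.H55K.A.C1
section

/-!
Chunk C1 (M). The group of divisors and the class group with the action of the Galois group.
Div = Pl L →₀ ℤ. divF x = the divisor of x (finite support: H55R.HA11_finite). gD σ = Finsupp.mapDomain (smulP σ) (a monoid homomorphism by smulP_mul, smulP_one;
mapDomain_comp). gD_div: gD σ (divF x) = divF (gu σ x): at smulP σ v both are ord v x (mapDomain_apply with the injectivity of smulP σ, ord_smul; every prime is
smulP σ v). gD_apply: value at smulP σ v.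
fin_class: the quotient of Div by the principal divisors is finite: the additive map Div → Additive (ClassGroup (𝓞 L)) sending the basis vector of v to the class
of v.asIdeal (ClassGroup.mk0) has kernel contained in the principal divisors: for D = D1 - D2 with D1, D2 ≥ 0 in the kernel, the ideals a1, a2 (products of primes) have the same
class, so x a1 = y a2 with integers x, y (ClassGroup.mk0_eq_mk0_iff), and D = div(y/x) (counting orders; ord of an integral element is the multiplicity in its ideal: H55R.ord_int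
or HA5_ord). So Div / principal injects into the finite ClassGroup (or: it is a quotient of .. choose what is easiest; one can also prove that the index of the range of divF is
not 0 by AddSubgroup.index / AddMonoidHom.ker, index_ker, index_antitone).
-/

open NumberField IsDedekindDomain

namespace H55K.Ab

open H55R

variable {F : Type} [Field F] [NumberField F]

variable {L : Type} [Field L] [NumberField L]

/-- The divisor of an element. -/
noncomputable def divF : Additive Lˣ →+ (Pl L →₀ ℤ) where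
  toFun x := Finsupp.ofSupportFinite (fun v => ord v x.toMul) (HA11_finite x.toMul)
  map_zero' := by
    ext v
    exact ord_one v
  map_add' x y := by
    ext v
    exact ord_mul v x.toMul y.toMul

theorem divF_apply (x : Lˣ) (v : Pl L) : divF (Additive.ofMul x) v = ord v x := rfl

open scoped nonZeroDivisors

/-- The fractional ideal of a prime. -/
noncomputable def c1_U (v : Pl L) : (FractionalIdeal (𝓞 L)⁰ L)ˣ :=
  Units.mk0 (v.asIdeal : FractionalIdeal (𝓞 L)⁰ L) (FractionalIdeal.coeIdeal_ne_zero.mpr v.ne_bot)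

/-- The class of a divisor. -/
noncomputable def c1_phi : (Pl L →₀ ℤ) →+ Additive (ClassGroup (𝓞 L)) where
  toFun D := Additive.ofMul (ClassGroup.mk (K := L) (D.prod fun v n => c1_U v ^ n))
  map_zero' := by
    rw [Finsupp.prod_zero_index, map_one]
    rfl
  map_add' D D' := by
    rw [Finsupp.prod_add_index' (fun v => zpow_zero _) (fun v m n => zpow_add _ _ _), map_mul]
    rfl

theorem c1_coe (D : Pl L →₀ ℤ) : (((D.prod fun v n => c1_U v ^ n : (FractionalIdeal (𝓞 L)⁰ L)ˣ)) :
    FractionalIdeal (𝓞 L)⁰ L) = D.prod fun v n => ((v.asIdeal : FractionalIdeal (𝓞 L)⁰ L)) ^ n := by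
  unfold Finsupp.prod
  rw [Units.coe_prod]
  refine Finset.prod_congr rfl fun v _ => ?_
  rw [Units.val_zpow_eq_zpow_val]
  rfl

open Classical in
theorem c1_count (v : Pl L) (x : Lˣ) :
    FractionalIdeal.count L v (FractionalIdeal.spanSingleton (𝓞 L)⁰ (x : L)) = ord v x := by
  obtain ⟨a, b, hb, hab⟩ := IsFractionRing.div_surjective (A := 𝓞 L) (x : L)
  have hinj : Function.Injective (algebraMap (𝓞 L) L) := IsFractionRing.injective (𝓞 L) L
  have hb0 : b ≠ 0 := nonZeroDivisors.ne_zero hb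
  have ha0 : a ≠ 0 := by
    rintro rfl
    rw [map_zero, zero_div] at hab
    exact x.ne_zero hab.symm
  have hab0 : algebraMap (𝓞 L) L a ≠ 0 := by rwa [Ne, map_eq_zero_iff _ hinj]
  have hbb0 : algebraMap (𝓞 L) L b ≠ 0 := by rwa [Ne, map_eq_zero_iff _ hinj]
  have h1 : FractionalIdeal.spanSingleton (𝓞 L)⁰ (x : L) =
      FractionalIdeal.spanSingleton (𝓞 L)⁰ ((algebraMap (𝓞 L) L b))⁻¹ * ((Ideal.span {a} : Ideal (𝓞 L)) : FractionalIdeal (𝓞 L)⁰ L) := by
    rw [FractionalIdeal.coeIdeal_span_singleton, FractionalIdeal.spanSingleton_mul_spanSingleton, ← hab, div_eq_inv_mul]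
  have h0 : FractionalIdeal.spanSingleton (𝓞 L)⁰ (x : L) ≠ 0 :=
    FractionalIdeal.spanSingleton_ne_zero_iff.2 x.ne_zero
  rw [FractionalIdeal.count_well_defined L v h0 h1]
  have e1 := HA5_ord v (Units.mk0 _ hab0) a ha0 rfl
  have e2 := HA5_ord v (Units.mk0 _ hbb0) b hb0 rfl
  have e3 : x * Units.mk0 _ hbb0 = Units.mk0 _ hab0 := by
    ext
    change (x : L) * algebraMap (𝓞 L) L b = algebraMap (𝓞 L) L a
    rw [← hab, div_mul_cancel₀ _ hbb0]
  have e4 := ord_mul v x (Units.mk0 _ hbb0)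
  rw [e3, e1, e2] at e4
  linarith

theorem fin_class : Finite ((Pl L →₀ ℤ) ⧸ (divF (L := L)).range) := by
  classical
  have hle : (c1_phi (L := L)).ker ≤ (divF (L := L)).range := by
    intro D hD
    rw [AddMonoidHom.mem_ker] at hD
    have h1 : ClassGroup.mk (K := L) (D.prod fun v n => c1_U v ^ n) = 1 := hD
    rw [ClassGroup.mk_eq_one_iff, FractionalIdeal.isPrincipal_iff] at h1
    obtain ⟨x, hx⟩ := h1
    have hx0 : x ≠ 0 := by
      rintro rfl
      rw [FractionalIdeal.spanSingleton_zero] at hx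
      exact Units.ne_zero _ hx
    refine ⟨Additive.ofMul (Units.mk0 x hx0), ?_⟩
    ext v
    rw [divF_apply, ← c1_count v (Units.mk0 x hx0), Units.val_mk0, ← hx, c1_coe]
    exact FractionalIdeal.count_finsuppProd L v D
  have h2 : (c1_phi (L := L)).ker.FiniteIndex := inferInstance
  have h3 : (divF (L := L)).range.FiniteIndex := AddSubgroup.finiteIndex_of_le hle
  infer_instance

variable [Algebra F L]

/-- The Galois action on the divisors. -/
noncomputable def gD : Gal(L/F) →* AddMonoid.End (Pl L →₀ ℤ) where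
  toFun σ := Finsupp.mapDomain.addMonoidHom (smulP σ)
  map_one' := by
    refine AddMonoidHom.ext fun D => ?_
    change Finsupp.mapDomain (smulP (1 : Gal(L/F))) D = D
    have h : (smulP (1 : Gal(L/F)) : Pl L → Pl L) = id := funext fun v => smulP_one v
    rw [h, Finsupp.mapDomain_id]
  map_mul' σ τ := by
    refine AddMonoidHom.ext fun D => ?_
    change Finsupp.mapDomain (smulP (σ * τ)) D = Finsupp.mapDomain (smulP σ) (Finsupp.mapDomain (smulP τ) D)
    have h : (smulP (σ * τ) : Pl L → Pl L) = smulP σ ∘ smulP τ := funext fun v => smulP_mul σ τ v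
    rw [h, Finsupp.mapDomain_comp]

theorem c1_inj (σ : Gal(L/F)) : Function.Injective (smulP σ : Pl L → Pl L) := by
  intro v w h
  have h1 := congrArg (smulP σ⁻¹) h
  rwa [← smulP_mul, ← smulP_mul, inv_mul_cancel, smulP_one, smulP_one] at h1

theorem gD_apply (σ : Gal(L/F)) (D : Pl L →₀ ℤ) (v : Pl L) : gD σ D (smulP σ v) = D v :=
  Finsupp.mapDomain_apply (c1_inj σ) D v

theorem gD_single (σ : Gal(L/F)) (v : Pl L) (n : ℤ) :
    gD σ (Finsupp.single v n) = Finsupp.single (smulP σ v) n :=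
  Finsupp.mapDomain_single

theorem gD_div (σ : Gal(L/F)) (x : Lˣ) :
    gD σ (divF (Additive.ofMul x)) = divF (Additive.ofMul (gu σ x)) := by
  ext v
  have h1 : v = smulP σ (smulP σ⁻¹ v) := by rw [← smulP_mul, mul_inv_cancel, smulP_one]
  rw [h1, gD_apply, divF_apply, divF_apply]
  exact (ord_smul σ (smulP σ⁻¹ v) x).symm

end H55K.Ab
end

-- from Lib.H55K.A.C2
section

/-!
Chunk C2 (M). From an equivariant m with divisors divisible by l: either the class group has an equivariant homomorphism θ to k, not 0, or m is represented by units.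
PROOF. C = Div / principal, finite (fin_class), with the action of G = Gal(L/F) induced by gD (QuotientAddGroup.map, gD_div; a monoid homomorphism G →* AddMonoid.End C: gD is one).
D a = divF (m a) / l (the function v ↦ ord v (m a) / l). l • D a = divF (m a). From m (a+b) = m a m b z^l: D (a+b) = D a + D b + divF z (multiply by l, Div is torsion free), so
M a = class of D a is additive, and M (χ σ a) = ac σ (M a). If M a ≠ 0 for some a: dual_hom gives θ0 : C →+ k equivariant, not 0; θ v = θ0 (class of the basis vector of v): equiv by gD_single;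
for x: θ0 (class of divF x) = 0 and divF x = sum ord v x • single v 1 (Finsupp.sum_single), so the finite sum is 0 (finsum_eq_sum_of_support_subset; (n • c) = (n : k) * c).
θ v ≠ 0 for some v: otherwise θ0 kills all basis vectors, so θ0 = 0.
If M a = 0 for all a: D a = divF (z a), z a : Lˣ, m' a = m a * (z a ^ l)⁻¹ has divisor 0, and it is EqHom (it differs from m by l-th powers).
-/

open NumberField IsDedekindDomain

namespace H55K.Ab

open H55R

variable {F : Type} [Field F] [NumberField F]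

section c2aux

variable {A : Type} [CommGroup A] {l : ℕ}

/-- Equality up to l-th powers. -/
private def c2R (l : ℕ) (x y : A) : Prop := ∃ z : A, x = y * z ^ l

private theorem c2_refl (x : A) : c2R l x x := ⟨1, by simp⟩

private theorem c2_symm {x y : A} (h : c2R l x y) : c2R l y x := by
  obtain ⟨z, rfl⟩ := h
  exact ⟨z⁻¹, by simp⟩

private theorem c2_trans {x y w : A} (h : c2R l x y) (h' : c2R l y w) : c2R l x w := by
  obtain ⟨z, rfl⟩ := h
  obtain ⟨v, rfl⟩ := h'
  exact ⟨v * z, by rw [mul_pow, mul_assoc]⟩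

private theorem c2_mul {x y x' y' : A} (h : c2R l x y) (h' : c2R l x' y') : c2R l (x * x') (y * y') := by
  obtain ⟨z, rfl⟩ := h
  obtain ⟨v, rfl⟩ := h'
  exact ⟨z * v, by rw [mul_pow, mul_mul_mul_comm]⟩

private theorem c2_map (f : Monoid.End A) {x y : A} (h : c2R l x y) : c2R l (f x) (f y) := by
  obtain ⟨z, rfl⟩ := h
  exact ⟨f z, by rw [map_mul, map_pow]⟩

end c2aux

/-- The action on the class group. -/
private noncomputable def c2ac (L : Type) [Field L] [NumberField L] [Algebra F L] :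
    Gal(L/F) →* AddMonoid.End ((Pl L →₀ ℤ) ⧸ (divF (L := L)).range) where
  toFun σ := QuotientAddGroup.map _ _ (gD σ) (by
    rintro _ ⟨x, rfl⟩
    exact ⟨Additive.ofMul (gu σ x.toMul), (gD_div σ x.toMul).symm⟩)
  map_one' := by
    ext x
    induction x using QuotientAddGroup.induction_on with
    | H x =>
      have h : (gD (1 : Gal(L/F))) x = x := by
        rw [map_one]
        rfl
      exact congrArg (QuotientAddGroup.mk (s := (divF (L := L)).range)) h
  map_mul' σ τ := by
    ext x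
    induction x using QuotientAddGroup.induction_on with
    | H x =>
      have h : (gD (σ * τ)) x = gD σ (gD τ x) := by
        rw [map_mul]
        rfl
      exact congrArg (QuotientAddGroup.mk (s := (divF (L := L)).range)) h

private theorem c2ac_mk {L : Type} [Field L] [NumberField L] [Algebra F L] (σ : Gal(L/F)) (D : Pl L →₀ ℤ) :
    c2ac L σ (QuotientAddGroup.mk' _ D) = QuotientAddGroup.mk' _ (gD σ D) := rfl

theorem class_step {L : Type} [Field L] [NumberField L] [Algebra F L] {l : ℕ} [Fact l.Prime]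
    {k : Type} [Field k] [Fintype k] [DecidableEq k] [CharP k l] {χ : Gal(L/F) →* kˣ}
    (hχ : Function.Bijective χ) (ρ : k →+ ZMod l) (hρ : IsRho l ρ) {m : k → Lˣ}
    (hm : EqHom l χ m) (hd : ∀ (a : k) (v : Pl L), (l : ℤ) ∣ ord v (m a)) :
    (∃ θ : Pl L → k, IsTh χ θ ∧ ∃ v, θ v ≠ 0) ∨
      ∃ m' : k → Lˣ, EqHom l χ m' ∧ (∀ (a : k) (v : Pl L), ord v (m' a) = 0) ∧
        ∀ a, ∃ z : Lˣ, m a = m' a * z ^ l := by
  classical
  have hl : (l : ℤ) ≠ 0 := by exact_mod_cast (Fact.out : l.Prime).ne_zero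
  have hfin : Finite ((Pl L →₀ ℤ) ⧸ (divF (L := L)).range) := fin_class
  have hcanc : ∀ D D' : Pl L →₀ ℤ, (l : ℤ) • D = (l : ℤ) • D' → D = D' := by
    intro D D' h
    ext v
    have := DFunLike.congr_fun h v
    simp only [Finsupp.smul_apply, smul_eq_mul] at this
    exact mul_left_cancel₀ hl this
  have hordpow : ∀ (x : Lˣ), divF (Additive.ofMul (x ^ l)) = (l : ℤ) • divF (Additive.ofMul x) := by
    intro x
    rw [ofMul_pow, map_nsmul]
    simp
  set D : k → (Pl L →₀ ℤ) := fun a => (divF (Additive.ofMul (m a))).mapRange (fun n => n / (l : ℤ)) (by simp) with hD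
  have hDl : ∀ a, (l : ℤ) • D a = divF (Additive.ofMul (m a)) := by
    intro a
    ext v
    rw [hD]
    simp only [Finsupp.smul_apply, Finsupp.mapRange_apply, smul_eq_mul]
    exact Int.mul_ediv_cancel' (hd a v)
  have hadd : ∀ a b, ∃ z : Lˣ, D (a + b) = D a + D b + divF (Additive.ofMul z) := by
    intro a b
    obtain ⟨z, hz⟩ := hm.add a b
    refine ⟨z, hcanc _ _ ?_⟩
    rw [hDl, smul_add, smul_add, hDl, hDl, hz, ofMul_mul, ofMul_mul, map_add, map_add, hordpow]
  have hequiv : ∀ σ a, ∃ z : Lˣ, D (χ σ * a) = gD σ (D a) + divF (Additive.ofMul z) := by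
    intro σ a
    obtain ⟨z, hz⟩ := hm.equiv σ a
    refine ⟨z, hcanc _ _ ?_⟩
    rw [hDl, smul_add, ← map_zsmul, hDl, gD_div, hz, ofMul_mul, map_add, hordpow]
  set mkq : (Pl L →₀ ℤ) →+ (Pl L →₀ ℤ) ⧸ (divF (L := L)).range := QuotientAddGroup.mk' _ with hmkq
  have hmk0 : ∀ x : Lˣ, mkq (divF (Additive.ofMul x)) = 0 := fun x =>
    (QuotientAddGroup.eq_zero_iff _).2 ⟨_, rfl⟩
  have hMadd : ∀ a b, mkq (D (a + b)) = mkq (D a) + mkq (D b) := by
    intro a b
    obtain ⟨z, hz⟩ := hadd a b
    rw [hz, map_add, map_add, hmk0, add_zero]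
  set M : k →+ (Pl L →₀ ℤ) ⧸ (divF (L := L)).range := AddMonoidHom.mk' (fun a => mkq (D a)) hMadd with hM
  have hMeq : ∀ (σ : Gal(L/F)) (a : k), M (χ σ * a) = c2ac L σ (M a) := by
    intro σ a
    obtain ⟨z, hz⟩ := hequiv σ a
    change mkq (D (χ σ * a)) = c2ac L σ (mkq (D a))
    rw [hz, map_add, hmk0, add_zero, hmkq, c2ac_mk]
  by_cases hM0 : ∃ a, M a ≠ 0
  · left
    obtain ⟨θ0, hθ1, x0, hx0⟩ := dual_hom (c2ac L) χ hχ ρ hρ M hMeq hM0
    set Φ : (Pl L →₀ ℤ) →+ k := θ0.comp mkq with hΦ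
    have hΦs : ∀ v n, Φ (Finsupp.single v n) = (n : k) * Φ (Finsupp.single v 1) := by
      intro v n
      have : Finsupp.single v n = n • Finsupp.single v (1 : ℤ) := by
        rw [Finsupp.smul_single, smul_eq_mul, mul_one]
      rw [this, map_zsmul, zsmul_eq_mul]
    have hΦD : ∀ E : Pl L →₀ ℤ, Φ E = ∑ v ∈ E.support, (E v : k) * Φ (Finsupp.single v 1) := by
      intro E
      conv_lhs => rw [← Finsupp.sum_single E]
      rw [Finsupp.sum, map_sum]
      exact Finset.sum_congr rfl fun v _ => hΦs v (E v)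
    refine ⟨fun v => Φ (Finsupp.single v 1), ⟨fun σ v => ?_, fun x => ?_⟩, ?_⟩
    · rw [← gD_single]
      change θ0 (mkq (gD σ (Finsupp.single v 1))) = _
      rw [hmkq, ← c2ac_mk, hθ1]
      rfl
    · have h1 : Φ (divF (Additive.ofMul x)) = 0 := by
        change θ0 (mkq _) = 0
        rw [hmk0, map_zero]
      rw [hΦD] at h1
      rw [← h1]
      refine finsum_eq_sum_of_support_subset _ fun v hv => ?_
      rw [Finset.mem_coe, Finsupp.mem_support_iff]
      intro h0
      apply hv
      have h2 : ord v x = 0 := h0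
      simp only [h2, Int.cast_zero, zero_mul]
    · by_contra hcon
      push Not at hcon
      apply hx0
      obtain ⟨E, rfl⟩ := QuotientAddGroup.mk'_surjective _ x0
      change Φ E = 0
      rw [hΦD]
      exact Finset.sum_eq_zero fun v _ => by rw [hcon v, mul_zero]
  · right
    push Not at hM0
    have hex : ∀ a, ∃ z : Lˣ, divF (Additive.ofMul z) = D a := by
      intro a
      obtain ⟨z, hz⟩ := (QuotientAddGroup.eq_zero_iff _).1 (hM0 a)
      exact ⟨z.toMul, hz⟩
    choose z hz using hex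
    set m' : k → Lˣ := fun a => m a * (z a ^ l)⁻¹ with hm'
    have hmm : ∀ a, m a = m' a * z a ^ l := fun a => by
      rw [hm']
      simp
    have hR : ∀ a, c2R l (m a) (m' a) := fun a => ⟨z a, hmm a⟩
    refine ⟨m', ⟨fun a b => ?_, fun σ a => ?_⟩, fun a v => ?_, fun a => ⟨z a, hmm a⟩⟩
    · exact c2_trans (c2_symm (hR _)) (c2_trans (hm.add a b) (c2_mul (hR a) (hR b)))
    · exact c2_trans (c2_symm (hR _)) (c2_trans (hm.equiv σ a) (c2_map (gu σ) (hR a)))
    · have h1 : divF (Additive.ofMul (m a)) = divF (Additive.ofMul (m' a)) + (l : ℤ) • divF (Additive.ofMul (z a)) := by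
        rw [← hordpow, ← map_add, ← ofMul_mul, ← hmm]
      rw [hz, hDl] at h1
      have h2 : divF (Additive.ofMul (m' a)) = 0 := by
        have h3 : divF (Additive.ofMul (m a)) + 0 = divF (Additive.ofMul (m a)) + divF (Additive.ofMul (m' a)) := by
          rw [add_zero, add_comm]
          exact h1
        exact (add_left_cancel h3).symm
      have := DFunLike.congr_fun h2 v
      exact this

end H55K.Ab
end

-- from Lib.H55K.A.E1
section

/-!
Chunk E1 (M). The level one component of eta_a(ξ) is not trivial.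
PROOF. Notation: v = the order at w (valuation exp(-n)); x ≡ y means that x - y has order at least 2. Lifts: for b : k let b' ∈ 𝓞 F with r b' = b (Loc.surj). ξ = a0 (1 + c t + O(2)), c, a0 in F,
c of order 0 at w. σ ξ = a0 (1 + c σ t + O(2)) (σ w = w, so σ preserves the order: ord_smul) ≡ a0 (1 + c (χ σ)' t) up to the factor a0 (Loc.act). So, with n σ = cf χ ρ a σ and N = sum n σ:
eta χ ρ a ξ = prod (σ ξ)^(n σ) = a0^N (1 + c t sum n σ (χ σ)' + O(2)) (products of elements 1 + O(1): (1+x)(1+y) ≡ 1 + x + y), and r(sum n σ (χ σ)') = chs χ (cf χ ρ a) = -a (chs_nn), so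
with e ∈ 𝓞 F, r e = -a c ≠ 0: eta = a0^N (1 + e t + O(2)) (an element of 𝓞 F with r = 0 has order at least 2: Loc.ram).
l divides N: in ZMod l: N = sum_σ ρ(a χ(σ)⁻¹) = ρ(a sum_{c ∈ kˣ} c⁻¹) = ρ 0 = 0 (FiniteField.sum_pow_units or sum_units_eq_zero-type lemma; card k > 2). N = l N'.
Suppose Lev: eta = z^l (1 + O(2)). With y = z / a0^N': y^l = 1 + e t + O(2). Then y has order 0. There is y0 ∈ 𝓞 F with v(y - y0) ≥ 1 (y is a fraction of elements of 𝓞 L prime to w,
H55R.exists_frac; reduce them by Loc.surj), y0 of order 0. y = y0 (1 + s), v(s) ≥ 1, and (1 + s)^l ≡ 1: the binomial terms are l s (..), order ≥ 2 because l ∈ 𝓞 F, r l = 0 (CharP k l, Loc.ram),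
and s^l, order ≥ l ≥ 2 (use (1+s)^l = 1 + l s g + s^l with g integral at w: e.g. add_pow_prime / exists_add_pow_prime_eq). So y0^l ≡ 1 + e t. Hence v(y0^l - 1) ≥ 1, y0^l - 1 ∈ 𝓞 F, r(..) = 0 (Loc.ker), so
y0^l - 1 has order ≥ 2 (Loc.ram), so e t has order ≥ 2; but its order is 1 (r e ≠ 0, Loc.unif). Contradiction.
-/

open NumberField IsDedekindDomain

namespace H55K.Ab

open H55R

variable {F : Type} [Field F] [NumberField F]

open scoped WithZero

/-- Products of elements congruent to 1 + e t. -/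
theorem e1_mul {L : Type} [Field L] (v : Valuation L ℤᵐ⁰) {t x y e f : L}
    (ht : v t ≤ WithZero.exp (-1 : ℤ)) (he : v e ≤ 1) (hf : v f ≤ 1)
    (hx : v (x - 1 - e * t) ≤ WithZero.exp (-2 : ℤ)) (hy : v (y - 1 - f * t) ≤ WithZero.exp (-2 : ℤ)) :
    v (x * y - 1 - (e + f) * t) ≤ WithZero.exp (-2 : ℤ) := by
  have h21 : WithZero.exp (-2 : ℤ) ≤ (1 : ℤᵐ⁰) := by
    rw [← WithZero.exp_zero, WithZero.exp_le_exp]
    norm_num
  have h11 : WithZero.exp (-1 : ℤ) ≤ (1 : ℤᵐ⁰) := by
    rw [← WithZero.exp_zero, WithZero.exp_le_exp]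
    norm_num
  have ht1 : v t ≤ 1 := ht.trans h11
  have hy1 : v y ≤ 1 := by
    have e1 : y = (y - 1 - f * t) + (1 + f * t) := by ring
    rw [e1]
    refine v.map_add_le (hy.trans h21) (v.map_add_le (by rw [map_one]) ?_)
    rw [map_mul]
    exact mul_le_one' hf ht1
  have e2 : x * y - 1 - (e + f) * t = (x - 1 - e * t) * y + (1 + e * t) * (y - 1 - f * t) +
      e * f * (t * t) := by ring
  rw [e2]
  refine v.map_add_le (v.map_add_le ?_ ?_) ?_
  · rw [map_mul]
    calc v (x - 1 - e * t) * v y ≤ WithZero.exp (-2 : ℤ) * 1 := mul_le_mul' hx hy1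
      _ = _ := mul_one _
  · rw [map_mul]
    have h3 : v (1 + e * t) ≤ 1 := by
      refine v.map_add_le (by rw [map_one]) ?_
      rw [map_mul]
      exact mul_le_one' he ht1
    calc v (1 + e * t) * v (y - 1 - f * t) ≤ 1 * WithZero.exp (-2 : ℤ) := mul_le_mul' h3 hy
      _ = _ := one_mul _
  · rw [map_mul, map_mul, map_mul]
    calc v e * v f * (v t * v t) ≤ 1 * (WithZero.exp (-1 : ℤ) * WithZero.exp (-1 : ℤ)) :=
          mul_le_mul' (mul_le_one' he hf) (mul_le_mul' ht ht)
      _ = WithZero.exp (-2 : ℤ) := by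
          rw [one_mul, ← WithZero.exp_add]
          norm_num

theorem e1_pow {L : Type} [Field L] (v : Valuation L ℤᵐ⁰) {t x e : L}
    (ht : v t ≤ WithZero.exp (-1 : ℤ)) (he : v e ≤ 1)
    (hx : v (x - 1 - e * t) ≤ WithZero.exp (-2 : ℤ)) (n : ℕ) :
    v (x ^ n - 1 - ((n : L) * e) * t) ≤ WithZero.exp (-2 : ℤ) ∧ v ((n : L) * e) ≤ 1 := by
  induction n with
  | zero =>
    have : x ^ 0 - 1 - (((0 : ℕ) : L) * e) * t = 0 := by
      rw [Nat.cast_zero]
      ring
    rw [this, map_zero]
    refine ⟨zero_le, ?_⟩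
    rw [Nat.cast_zero, zero_mul, map_zero]
    exact zero_le
  | succ n ih =>
    obtain ⟨h1, h2⟩ := ih
    have h3 : (((n + 1 : ℕ) : L) * e) = (n : L) * e + e := by
      push_cast
      ring
    rw [h3, pow_succ]
    exact ⟨e1_mul v ht h2 he h1 hx, v.map_add_le h2 he⟩

theorem e1_prod {L : Type} [Field L] (v : Valuation L ℤᵐ⁰) {ι : Type} [DecidableEq ι]
    (s : Finset ι) {t : L} (x e : ι → L) (n : ι → ℕ)
    (ht : v t ≤ WithZero.exp (-1 : ℤ)) (he : ∀ i ∈ s, v (e i) ≤ 1)
    (hx : ∀ i ∈ s, v (x i - 1 - e i * t) ≤ WithZero.exp (-2 : ℤ)) :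
    v (∏ i ∈ s, x i ^ n i - 1 - (∑ i ∈ s, (n i : L) * e i) * t) ≤ WithZero.exp (-2 : ℤ) ∧
      v (∑ i ∈ s, (n i : L) * e i) ≤ 1 := by
  induction s using Finset.induction_on with
  | empty =>
    rw [Finset.prod_empty, Finset.sum_empty, sub_self, zero_mul, sub_zero, map_zero]
    exact ⟨zero_le, zero_le⟩
  | insert i s hi ih =>
    obtain ⟨h1, h2⟩ := ih (fun j hj => he j (Finset.mem_insert_of_mem hj))
      (fun j hj => hx j (Finset.mem_insert_of_mem hj))
    obtain ⟨h3, h4⟩ := e1_pow v ht (he i (Finset.mem_insert_self i s)) (hx i (Finset.mem_insert_self i s)) (n i)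
    rw [Finset.prod_insert hi, Finset.sum_insert hi]
    exact ⟨e1_mul v ht h4 h2 h3 h1, v.map_add_le h4 h2⟩

/-- The l-th power of y0 + s. -/
theorem e1_lpow {L : Type} [Field L] (v : Valuation L ℤᵐ⁰) {l : ℕ} (hl : l.Prime)
    (hvl : v (l : L) ≤ WithZero.exp (-2 : ℤ)) {y s : L} (hy : v y ≤ 1)
    (hs : v s ≤ WithZero.exp (-1 : ℤ)) : v ((y + s) ^ l - y ^ l) ≤ WithZero.exp (-2 : ℤ) := by
  have h11 : WithZero.exp (-1 : ℤ) ≤ (1 : ℤᵐ⁰) := by
    rw [← WithZero.exp_zero, WithZero.exp_le_exp]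
    norm_num
  have hs1 : v s ≤ 1 := hs.trans h11
  obtain ⟨r, hr⟩ := exists_add_pow_prime_eq hl (⟨y, hy⟩ : v.integer) (⟨s, hs1⟩ : v.integer)
  have hr2 := congrArg (Subtype.val) hr
  have hr3 : (y + s) ^ l = y ^ l + s ^ l + (l : L) * y * s * (r : L) := by
    push_cast at hr2
    exact hr2
  have e1 : (y + s) ^ l - y ^ l = s ^ l + (l : L) * (y * s * (r : L)) := by
    rw [hr3]
    ring
  rw [e1]
  refine v.map_add_le ?_ ?_
  · rw [map_pow]
    calc v s ^ l ≤ v s ^ 2 := pow_le_pow_right_of_le_one' hs1 hl.two_le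
      _ ≤ (WithZero.exp (-1 : ℤ)) ^ 2 := pow_le_pow_left₀ zero_le hs 2
      _ = WithZero.exp (-2 : ℤ) := by
        rw [sq, ← WithZero.exp_add]
        norm_num
  · rw [map_mul]
    have h3 : v (y * s * (r : L)) ≤ 1 := by
      rw [map_mul, map_mul]
      exact mul_le_one' (mul_le_one' hy hs1) r.2
    calc v (l : L) * v (y * s * (r : L)) ≤ WithZero.exp (-2 : ℤ) * 1 := mul_le_mul' hvl h3
      _ = _ := mul_one _

theorem e1_lt {x : ℤᵐ⁰} (h : x < 1) : x ≤ WithZero.exp (-1 : ℤ) := by
  by_cases hx : x = 0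
  · rw [hx]
    exact zero_le
  · rw [← WithZero.exp_log hx] at h ⊢
    rw [← WithZero.exp_zero, WithZero.exp_lt_exp] at h
    rw [WithZero.exp_le_exp]
    omega

variable {L : Type} [Field L] [NumberField L] [Algebra F L]

theorem e1_gal {w : Pl L} {σ : Gal(L/F)} (h : smulP σ w = w) (x : L) :
    w.valuation L (σ x) = w.valuation L x := by
  by_cases hx : x = 0
  · rw [hx, map_zero]
  · have h1 := ord_smul σ w (Units.mk0 x hx)
    rw [h] at h1
    have h2 := BF1_val w (Units.map ((σ : L ≃ₐ[F] L) : L →* L) (Units.mk0 x hx))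
    rw [h1, ← BF1_val w (Units.mk0 x hx)] at h2
    exact h2

theorem e1_val {k : Type} [Field k] {χ : Gal(L/F) →* kˣ} {w : Pl L} {t : Lˣ} {r : 𝓞 L →+* k}
    (hloc : Loc χ w t r) (y : 𝓞 F) :
    w.valuation L (algebraMap F L (y : F)) ≤ 1 ∧
    (w.valuation L (algebraMap F L (y : F)) < 1 → r (algebraMap (𝓞 F) (𝓞 L) y) = 0) := by
  have e : algebraMap F L (y : F) = algebraMap (𝓞 L) L (algebraMap (𝓞 F) (𝓞 L) y) := by
    rfl
  rw [e]
  refine ⟨w.valuation_le_one _, fun h => ?_⟩
  rw [hloc.ker]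
  exact (w.valuation_lt_one_iff_mem _).1 h

/-- The exponents sum to a multiple of l. -/
theorem e1_sum {l : ℕ} [Fact l.Prime] {G : Type} [Group G] [Fintype G]
    {k : Type} [Field k] [Fintype k] [DecidableEq k] (hq : 2 < Fintype.card k)
    {χ : G →* kˣ} (hχ : Function.Bijective χ) (ρ : k →+ ZMod l) (a : k) :
    l ∣ ∑ σ : G, (ρ (a * ((χ σ)⁻¹ : kˣ))).val := by
  rw [← ZMod.natCast_eq_zero_iff, Nat.cast_sum]
  have h1 : ∀ σ : G, (((ρ (a * ((χ σ)⁻¹ : kˣ))).val : ℕ) : ZMod l) = ρ (a * ((χ σ)⁻¹ : kˣ)) :=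
    fun σ => ZMod.natCast_zmod_val _
  simp only [h1]
  rw [← map_sum, ← Finset.mul_sum]
  have h2 : ∑ σ : G, (((χ σ)⁻¹ : kˣ) : k) = ∑ c : kˣ, ((c⁻¹ : kˣ) : k) :=
    Function.Bijective.sum_comp hχ (fun c : kˣ => ((c⁻¹ : kˣ) : k))
  have h3 : ∑ c : kˣ, ((c⁻¹ : kˣ) : k) = ∑ c : kˣ, (c : k) :=
    Equiv.sum_comp (Equiv.inv kˣ) (fun c : kˣ => (c : k))
  have h4 : ∑ c : kˣ, (c : k) = 0 := by
    have h5 := FiniteField.sum_pow_units k 1
    have h6 : ¬ (Fintype.card k - 1 ∣ 1) := by
      intro h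
      have := Nat.le_of_dvd one_pos h
      omega
    rw [if_neg h6] at h5
    simpa using h5
  rw [h2, h3, h4, mul_zero, map_zero]

theorem lev_eta {L : Type} [Field L] [NumberField L] [Algebra F L] {l : ℕ} [Fact l.Prime]
    {k : Type} [Field k] [Fintype k] [DecidableEq k] [CharP k l] (hq : 2 < Fintype.card k)
    {χ : Gal(L/F) →* kˣ} (hχ : Function.Bijective χ) (ρ : k →+ ZMod l) (hρ : IsRho l ρ)
    {w : Pl L} {t : Lˣ} {r : 𝓞 L →+* k} (hloc : Loc χ w t r) (ξ : Lˣ) (a0 : F) (ha0 : a0 ≠ 0)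
    (c : 𝓞 F) (hc : r (algebraMap (𝓞 F) (𝓞 L) c) ≠ 0)
    (hξ : w.valuation L ((ξ : L) / algebraMap F L a0 - 1 - algebraMap F L (c : F) * (t : L)) ≤
      WithZero.exp (-2 : ℤ)) (a : k) (ha : a ≠ 0) : ¬ Lev l w (eta χ ρ a ξ) := by
  classical
  have hlp : l.Prime := Fact.out
  have h21 : WithZero.exp (-2 : ℤ) ≤ (1 : ℤᵐ⁰) := by
    rw [← WithZero.exp_zero, WithZero.exp_le_exp]
    norm_num
  have h2l : WithZero.exp (-2 : ℤ) < (1 : ℤᵐ⁰) := by
    rw [← WithZero.exp_zero, WithZero.exp_lt_exp]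
    norm_num
  have h1l : WithZero.exp (-1 : ℤ) < (1 : ℤᵐ⁰) := by
    rw [← WithZero.exp_zero, WithZero.exp_lt_exp]
    norm_num
  have ht : w.valuation L (t : L) = WithZero.exp (-1 : ℤ) := by
    rw [BF1_val, hloc.unif]
  have hA0 : algebraMap F L a0 ≠ 0 := by
    rw [Ne, map_eq_zero]
    exact ha0
  -- lifts of the values of χ
  choose X hX using fun σ : Gal(L/F) => hloc.surj (χ σ : k)
  -- the elements σ ξ / a0
  have hψ : ∀ σ : Gal(L/F), w.valuation L ((σ (ξ : L)) / algebraMap F L a0 - 1 -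
      (algebraMap F L ((c * X σ : 𝓞 F) : F)) * (t : L)) ≤ WithZero.exp (-2 : ℤ) := by
    intro σ
    have h1 : w.valuation L (σ ((ξ : L) / algebraMap F L a0 - 1 - algebraMap F L (c : F) * (t : L))) ≤
        WithZero.exp (-2 : ℤ) := by
      rw [e1_gal (hloc.inv σ)]
      exact hξ
    have h0 : σ ((ξ : L) / algebraMap F L a0 - 1 - algebraMap F L (c : F) * (t : L)) =
        σ (ξ : L) / algebraMap F L a0 - 1 - algebraMap F L (c : F) * σ (t : L) := by
      rw [map_sub, map_sub, map_div₀, map_mul, map_one, AlgEquiv.commutes, AlgEquiv.commutes]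
    rw [h0] at h1
    have h2 := hloc.act σ (X σ) (hX σ)
    have e : (σ (ξ : L)) / algebraMap F L a0 - 1 -
        (algebraMap F L ((c * X σ : 𝓞 F) : F)) * (t : L) =
        ((σ (ξ : L)) / algebraMap F L a0 - 1 - algebraMap F L (c : F) * σ (t : L)) +
        algebraMap F L (c : F) * (σ (t : L) - algebraMap F L (X σ : F) * (t : L)) := by
      have : ((c * X σ : 𝓞 F) : F) = (c : F) * (X σ : F) := rfl
      rw [this, map_mul]
      ring
    rw [e]
    refine Valuation.map_add_le _ h1 ?_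
    rw [map_mul]
    calc _ ≤ 1 * WithZero.exp (-2 : ℤ) := mul_le_mul' (e1_val hloc c).1 h2
      _ = _ := one_mul _
  -- the product
  let n : Gal(L/F) → ℕ := fun σ => (ρ (a * ((χ σ)⁻¹ : kˣ))).val
  obtain ⟨hP, hE1⟩ := e1_prod (w.valuation L) Finset.univ
    (fun σ : Gal(L/F) => (σ (ξ : L)) / algebraMap F L a0)
    (fun σ : Gal(L/F) => algebraMap F L ((c * X σ : 𝓞 F) : F)) n ht.le
    (fun σ _ => (e1_val hloc _).1) (fun σ _ => hψ σ)
  set Pr : L := ∏ σ : Gal(L/F), ((σ (ξ : L)) / algebraMap F L a0) ^ n σ with hPr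
  obtain ⟨E, hE⟩ : ∃ E : 𝓞 F, E = ∑ σ : Gal(L/F), (n σ : 𝓞 F) * (c * X σ) := ⟨_, rfl⟩
  have hEmap : (∑ σ : Gal(L/F), (n σ : L) * algebraMap F L ((c * X σ : 𝓞 F) : F)) =
      algebraMap F L (E : F) := by
    have e1 : (E : F) = ∑ σ : Gal(L/F), (n σ : F) * ((c * X σ : 𝓞 F) : F) := by
      rw [hE]
      have := map_sum (algebraMap (𝓞 F) F) (fun σ : Gal(L/F) => (n σ : 𝓞 F) * (c * X σ)) Finset.univ
      rw [show ((∑ σ : Gal(L/F), (n σ : 𝓞 F) * (c * X σ) : 𝓞 F) : F) =
        algebraMap (𝓞 F) F (∑ σ : Gal(L/F), (n σ : 𝓞 F) * (c * X σ)) from rfl, this]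
      refine Finset.sum_congr rfl fun σ _ => ?_
      rw [map_mul, map_natCast]
    rw [e1, map_sum]
    refine Finset.sum_congr rfl fun σ _ => ?_
    rw [map_mul, map_natCast]
  rw [hEmap] at hP hE1
  -- the reduction of E
  have hrE : r (algebraMap (𝓞 F) (𝓞 L) E) ≠ 0 := by
    have e1 : r (algebraMap (𝓞 F) (𝓞 L) E) = r (algebraMap (𝓞 F) (𝓞 L) c) * (-a) := by
      rw [← chs_nn χ ρ hχ hρ a, hE, map_sum, map_sum]
      unfold chs
      rw [Finset.mul_sum]
      refine Finset.sum_congr rfl fun σ _ => ?_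
      have h9 : ((cf χ ρ a σ : ℤ) : k) = (n σ : k) := Int.cast_natCast _
      rw [map_mul, map_mul, map_mul, map_mul, map_natCast, map_natCast, hX, h9]
      ring
    rw [e1]
    exact mul_ne_zero hc (neg_ne_zero.2 ha)
  have hvE : w.valuation L (algebraMap F L (E : F)) = 1 := by
    refine le_antisymm hE1 (not_lt.1 fun h => hrE ((e1_val hloc E).2 h))
  -- eta
  obtain ⟨N', hN'⟩ := e1_sum hq hχ ρ a
  have hN : ∑ σ : Gal(L/F), n σ = l * N' := hN'
  have heta : ((eta χ ρ a ξ : Lˣ) : L) = (algebraMap F L a0 ^ N') ^ l * Pr := by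
    have e1 : ((eta χ ρ a ξ : Lˣ) : L) = ∏ σ : Gal(L/F), (σ (ξ : L)) ^ n σ := by
      unfold eta pw
      rw [Units.coe_prod]
      refine Finset.prod_congr rfl fun σ _ => ?_
      have : cf χ ρ a σ = ((n σ : ℕ) : ℤ) := rfl
      rw [this, zpow_natCast, Units.val_pow_eq_pow_val, gu_apply]
    rw [e1, ← pow_mul, mul_comm N' l, ← hN, ← Finset.prod_pow_eq_pow_sum, hPr, ← Finset.prod_mul_distrib]
    refine Finset.prod_congr rfl fun σ _ => ?_
    rw [← mul_pow, mul_div_cancel₀ _ hA0]
  rintro ⟨z, hz⟩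
  -- y = z / a0^N'
  obtain ⟨y, hy⟩ : ∃ y : L, y = (z : L) / algebraMap F L a0 ^ N' := ⟨_, rfl⟩
  have hz0 : (z : L) ≠ 0 := z.ne_zero
  have hA0N : algebraMap F L a0 ^ N' ≠ 0 := pow_ne_zero _ hA0
  have hy0 : y ≠ 0 := by
    rw [hy]
    exact div_ne_zero hz0 hA0N
  have hyz : (((eta χ ρ a ξ) * (z ^ l)⁻¹ : Lˣ) : L) = Pr / y ^ l := by
    rw [Units.val_mul, Units.val_inv_eq_inv_val, Units.val_pow_eq_pow_val, heta, hy, div_pow]
    field_simp
  rw [hyz] at hz
  have htE : w.valuation L (algebraMap F L (E : F) * (t : L)) = WithZero.exp (-1 : ℤ) := by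
    rw [map_mul, hvE, one_mul, ht]
  have hvP : w.valuation L Pr = 1 := by
    have e1 : Pr = 1 + ((Pr - 1 - algebraMap F L (E : F) * (t : L)) + algebraMap F L (E : F) * (t : L)) := by
      ring
    rw [e1]
    apply Valuation.map_one_add_of_lt
    refine Valuation.map_add_lt _ (lt_of_le_of_lt hP h2l) ?_
    rw [htE]
    exact h1l
  have hvyl : w.valuation L (y ^ l) = 1 := by
    have e1 : w.valuation L (Pr / y ^ l) = 1 := by
      have e2 : Pr / y ^ l = 1 + (Pr / y ^ l - 1) := by ring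
      rw [e2]
      exact Valuation.map_one_add_of_lt _ (lt_of_le_of_lt hz h2l)
    rw [map_div₀, hvP] at e1
    have h3 : w.valuation L (y ^ l) ≠ 0 := by
      rw [Ne, map_eq_zero]
      exact pow_ne_zero _ hy0
    rw [div_eq_one_iff_eq h3] at e1
    exact e1.symm
  have hvy : w.valuation L y = 1 := by
    rw [map_pow] at hvyl
    exact (pow_eq_one_iff_of_nonneg zero_le hlp.ne_zero).1 hvyl
  have hPy : w.valuation L (Pr - y ^ l) ≤ WithZero.exp (-2 : ℤ) := by
    have e1 : Pr - y ^ l = (Pr / y ^ l - 1) * y ^ l := by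
      field_simp
    rw [e1, map_mul, hvyl, mul_one]
    exact hz
  -- y0
  obtain ⟨p, q, hp, hq', hpq⟩ := exists_frac w (Units.mk0 y hy0) (by
    have h3 := BF1_val w (Units.mk0 y hy0)
    rw [Units.val_mk0, hvy, ← WithZero.exp_zero] at h3
    have := WithZero.exp_injective h3
    omega)
  rw [Units.val_mk0] at hpq
  obtain ⟨y0, hy0'⟩ := hloc.surj (r p / r q)
  have hrq : r q ≠ 0 := fun h => hq' ((hloc.ker q).1 h)
  have hmem : p - q * algebraMap (𝓞 F) (𝓞 L) y0 ∈ w.asIdeal := by
    rw [← hloc.ker, map_sub, map_mul, hy0', mul_div_cancel₀ _ hrq, sub_self]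
  have hvq : w.valuation L (q : L) = 1 := (HeightOneSpectrum.valuation_eq_one_iff_notMem (K := L) w).2 hq'
  have hq0 : (q : L) ≠ 0 := by
    intro h
    rw [h, map_zero] at hvq
    exact zero_ne_one hvq
  have hs : w.valuation L (y - algebraMap F L (y0 : F)) ≤ WithZero.exp (-1 : ℤ) := by
    apply e1_lt
    have e1 : y - algebraMap F L (y0 : F) = ((p - q * algebraMap (𝓞 F) (𝓞 L) y0 : 𝓞 L) : L) / (q : L) := by
      rw [hpq, eq_div_iff hq0]
      have : ((p - q * algebraMap (𝓞 F) (𝓞 L) y0 : 𝓞 L) : L) = (p : L) - (q : L) * algebraMap F L (y0 : F) := rfl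
      rw [this]
      field_simp
    rw [e1, map_div₀, hvq, div_one]
    exact (w.valuation_lt_one_iff_mem _).2 hmem
  have hvl : w.valuation L ((l : ℕ) : L) ≤ WithZero.exp (-2 : ℤ) := by
    have h3 := hloc.ram ((l : ℕ) : 𝓞 F) (by rw [map_natCast, map_natCast, CharP.cast_eq_zero])
    have e1 : algebraMap F L (((l : ℕ) : 𝓞 F) : F) = ((l : ℕ) : L) := by
      have : (((l : ℕ) : 𝓞 F) : F) = ((l : ℕ) : F) := map_natCast (algebraMap (𝓞 F) F) l
      rw [this, map_natCast]
    rw [e1] at h3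
    exact h3
  have hpow := e1_lpow (w.valuation L) hlp hvl (e1_val hloc y0).1 hs
  have e3 : algebraMap F L (y0 : F) + (y - algebraMap F L (y0 : F)) = y := by ring
  rw [e3] at hpow
  have hfin : w.valuation L (algebraMap F L (y0 : F) ^ l - 1 - algebraMap F L (E : F) * (t : L)) ≤
      WithZero.exp (-2 : ℤ) := by
    have e4 : algebraMap F L (y0 : F) ^ l - 1 - algebraMap F L (E : F) * (t : L) =
        (Pr - 1 - algebraMap F L (E : F) * (t : L)) - (Pr - y ^ l) - (y ^ l - algebraMap F L (y0 : F) ^ l) := by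
      ring
    rw [e4]
    exact Valuation.map_sub_le _ (Valuation.map_sub_le _ hP hPy) hpow
  have e5 : algebraMap F L (y0 : F) ^ l - 1 = algebraMap F L ((y0 ^ l - 1 : 𝓞 F) : F) := by
    have : ((y0 ^ l - 1 : 𝓞 F) : F) = (y0 : F) ^ l - 1 := rfl
    rw [this, map_sub, map_pow, map_one]
  have hlt : w.valuation L (algebraMap F L ((y0 ^ l - 1 : 𝓞 F) : F)) < 1 := by
    rw [← e5]
    have e6 : algebraMap F L (y0 : F) ^ l - 1 = (algebraMap F L (y0 : F) ^ l - 1 -
        algebraMap F L (E : F) * (t : L)) + algebraMap F L (E : F) * (t : L) := by ring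
    rw [e6]
    refine Valuation.map_add_lt _ (lt_of_le_of_lt hfin h2l) ?_
    rw [htE]
    exact h1l
  have h7 := hloc.ram _ ((e1_val hloc _).2 hlt)
  rw [← e5] at h7
  have h8 : w.valuation L (algebraMap F L (E : F) * (t : L)) ≤ WithZero.exp (-2 : ℤ) := by
    have e7 : algebraMap F L (E : F) * (t : L) = (algebraMap F L (y0 : F) ^ l - 1) -
        (algebraMap F L (y0 : F) ^ l - 1 - algebraMap F L (E : F) * (t : L)) := by ring
    rw [e7]
    exact Valuation.map_sub_le _ h7 hfin
  rw [htE, WithZero.exp_le_exp] at h8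
  norm_num at h8

end H55K.Ab
end

-- from Lib.H55K.A.D2
section

/-!
Chunk D2 (M). Roots of unity and Kummer extensions.
exists_cyc: L' = CyclotomicField l L (L is a number field): Galois over L, [L':L] divides l - 1 (the Galois group embeds in (ZMod l)ˣ: IsPrimitiveRoot.autToPow_injective), so it is prime to l.
not_pow: if the image of x in L' is z^l then x^d = N(x) = N(z)^l with d = [L':L] prime to l (Algebra.norm_algebraMap), so x is an l-th power in L (lpow_of_coprime).
kummer: x ∈ L' not an l-th power, ζ ∈ L': X^l - x is irreducible (X_pow_sub_C_irreducible_of_prime), M = AdjoinRoot or the splitting field is Galois of degree l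
(isGalois_of_isSplittingField_X_pow_sub_C, finrank_of_isSplittingField_X_pow_sub_C), a number field (finite over L'). β ∈ M with β^l = x.
kummer_spl: v a prime of L' with l ∉ v, PowMod l v x. Then v splits completely in M = L'(β). PROOF: replace x by x z^(-l), β by β/z: v.valuation(x - 1) < 1. By spl_bot we need: W above v, σ W = W imply
σ = 1. σ β = ζ^j β. Modulo W: β^l = x = 1 (W.valuation (x - 1) < 1), so prod_i (β - ζ^i) = β^l - 1 has positive order at W and β = ζ^i mod W for some i (β is W-integral). As σ W = W and σ ζ = ζ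
(ζ ∈ L'): σ β = ζ^i mod W, so ζ^j β = β mod W, W.valuation (ζ^j - 1) < 1. If ζ^j ≠ 1 then ζ^j - 1 divides l (prod_{i=1}^{l-1} (1 - ζ^i) = l) in 𝓞, contradiction to l ∉ W. So σ β = β, and β generates M
over L' (hgen), σ = 1.
-/

open NumberField IsDedekindDomain

namespace H55K.Ab

open H55R

variable {F : Type} [Field F] [NumberField F]

open Polynomial in
theorem emb27 {K : Type} [Field K] [NumberField K] {ζ : K} (hζ : IsPrimitiveRoot ζ 3) :
    Nonempty (H55B.F →+* K) := by
  have h1 : (X ^ 3 - C (1 : K)).Splits := X_pow_sub_one_splits hζ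
  have h2 : ((cyclotomic 3 ℚ).map (algebraMap ℚ K)).Splits := by
    rw [map_cyclotomic]
    refine h1.of_dvd (X_pow_sub_C_ne_zero (by norm_num) 1) ?_
    rw [C_1]
    exact cyclotomic.dvd_X_pow_sub_one 3 K
  have h3 : IsSplittingField ℚ H55B.F (cyclotomic 3 ℚ) :=
    IsCyclotomicExtension.splitting_field_cyclotomic 3 ℚ H55B.F
  exact ⟨(IsSplittingField.lift H55B.F (cyclotomic 3 ℚ) h2).toRingHom⟩

theorem exists_cyc (L : Type) [Field L] [NumberField L] (l : ℕ) [Fact l.Prime] (hl5 : 5 ≤ l) :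
    ∃ (L' : Type) (_ : Field L') (_ : NumberField L') (_ : Algebra L L') (_ : IsGalois L L')
      (_ : Algebra H55B.F L') (ζ : L'), IsPrimitiveRoot ζ l ∧ (Module.finrank L L').Coprime l := by
  have hl : l.Prime := Fact.out
  have hl0 : l ≠ 0 := hl.ne_zero
  have : NeZero (3 * l) := ⟨by omega⟩
  have hg : IsGalois L (CyclotomicField (3 * l) L) :=
    IsCyclotomicExtension.isGalois {3 * l} L (CyclotomicField (3 * l) L)
  have hζ := IsCyclotomicExtension.zeta_spec (3 * l) L (CyclotomicField (3 * l) L)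
  have hζ3 : IsPrimitiveRoot (IsCyclotomicExtension.zeta (3 * l) L (CyclotomicField (3 * l) L) ^ l) 3 :=
    hζ.pow (by omega) (mul_comm 3 l)
  have hζl : IsPrimitiveRoot (IsCyclotomicExtension.zeta (3 * l) L (CyclotomicField (3 * l) L) ^ 3) l :=
    hζ.pow (by omega) rfl
  obtain ⟨φ⟩ := emb27 hζ3
  refine ⟨CyclotomicField (3 * l) L, inferInstance, inferInstance, inferInstance, hg,
    φ.toAlgebra, _, hζl, ?_⟩
  rw [← IsGalois.card_aut_eq_finrank]
  have hinj := hζ.autToPow_injective (K := L)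
  have hdvd : Nat.card Gal(CyclotomicField (3 * l) L/L) ∣ Nat.card (ZMod (3 * l))ˣ :=
    Subgroup.card_dvd_of_injective (hζ.autToPow L) hinj
  rw [Nat.card_eq_fintype_card (α := (ZMod (3 * l))ˣ), ZMod.card_units_eq_totient] at hdvd
  have h0 : (l - 1).Coprime l := by
    have h2 := hl.one_lt
    rw [Nat.coprime_comm]
    rw [Nat.Prime.coprime_iff_not_dvd hl]
    intro h3
    have := Nat.le_of_dvd (by omega) h3
    omega
  have h5 : Nat.Coprime 3 l := (Nat.coprime_primes (by norm_num) hl).2 (by omega)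
  have h6 : Nat.totient 3 = 2 := by decide
  rw [Nat.totient_mul h5, Nat.totient_prime hl, h6] at hdvd
  refine Nat.Coprime.coprime_dvd_left hdvd (Nat.Coprime.mul_left ?_ h0)
  exact (Nat.coprime_primes Nat.prime_two hl).2 (by omega)

theorem not_pow {L L' : Type} [Field L] [NumberField L] [Field L'] [NumberField L']
    [Algebra L L'] {l : ℕ} [Fact l.Prime] (hc : (Module.finrank L L').Coprime l) (x : Lˣ)
    (hx : ∃ z : L'ˣ, Units.map (algebraMap L L' : L →* L') x = z ^ l) : ∃ z : Lˣ, x = z ^ l := by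
  obtain ⟨z, hz⟩ := hx
  apply lpow_of_coprime (Module.finrank L L' : ℤ) x (Nat.isCoprime_iff_coprime.2 hc)
  refine ⟨Units.map (Algebra.norm L : L' →* L) z, ?_⟩
  apply Units.ext
  have h1 := congrArg (fun u : L'ˣ => Algebra.norm L (u : L')) hz
  simp only [Units.coe_map, MonoidHom.coe_coe, Units.val_pow_eq_pow_val, map_pow] at h1
  rw [Algebra.norm_algebraMap] at h1
  simpa using h1

theorem kummer {L' : Type} [Field L'] [NumberField L'] {l : ℕ} [Fact l.Prime] (ζ : L')
    (hζ : IsPrimitiveRoot ζ l) (x : L'ˣ) (hx : ¬ ∃ z : L'ˣ, x = z ^ l) :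
    ∃ (M : Type) (_ : Field M) (_ : NumberField M) (_ : Algebra L' M) (_ : IsGalois L' M) (β : M),
      Module.finrank L' M = l ∧ β ^ l = algebraMap L' M x ∧
        ∀ σ : Gal(M/L'), σ β = β → σ = 1 := by
  have hl : l.Prime := Fact.out
  have : NeZero l := ⟨hl.ne_zero⟩
  have hirr : Irreducible (Polynomial.X ^ l - Polynomial.C (x : L')) := by
    apply X_pow_sub_C_irreducible_of_prime hl
    intro b hb
    have hb0 : b ≠ 0 := by
      rintro rfl
      rw [zero_pow hl.ne_zero] at hb
      exact x.ne_zero hb.symm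
    exact hx ⟨Units.mk0 b hb0, Units.ext (by simpa using hb.symm)⟩
  have hne : (primitiveRoots l L').Nonempty := ⟨ζ, (mem_primitiveRoots hl.pos).2 hζ⟩
  let M := (Polynomial.X ^ l - Polynomial.C (x : L')).SplittingField
  have hfd : FiniteDimensional L' M := inferInstance
  have hnf : NumberField M := NumberField.of_module_finite L' M
  refine ⟨M, inferInstance, hnf, inferInstance, isGalois_of_isSplittingField_X_pow_sub_C hne hirr M,
    rootOfSplitsXPowSubC hl.pos (x : L') M, finrank_of_isSplittingField_X_pow_sub_C hne hirr M,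
    rootOfSplitsXPowSubC_pow (x : L') M, ?_⟩
  intro σ hσ
  have htop := Algebra.adjoin_root_eq_top_of_isSplittingField hne hirr
    (rootOfSplitsXPowSubC_pow (x : L') M)
  have h1 : (σ : M →ₐ[L'] M) = AlgHom.id L' M := by
    apply AlgHom.ext_of_adjoin_eq_top htop
    intro y hy
    rw [Set.mem_singleton_iff] at hy
    rw [hy]
    exact hσ
  ext y
  exact DFunLike.congr_fun h1 y

/-- σ W = W implies that W is invariant. -/
theorem d2_inv {K M : Type} [Field K] [NumberField K] [Field M] [NumberField M] [Algebra K M]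
    (W : Pl M) (σ : Gal(M/K)) (hσ : smulP σ W = W) (y : M) :
    W.valuation M (σ y) = W.valuation M y := by
  by_cases hy : y = 0
  · rw [hy, map_zero]
  · have h1 := ord_smul σ W (Units.mk0 y hy)
    rw [hσ] at h1
    have h2 := BF1_val W (Units.map ((σ : M ≃ₐ[K] M) : M →* M) (Units.mk0 y hy))
    have h3 := BF1_val W (Units.mk0 y hy)
    rw [h1, ← h3] at h2
    exact h2

theorem kummer_spl {L' : Type} [Field L'] [NumberField L'] {l : ℕ} [Fact l.Prime] (ζ : L')
    (hζ : IsPrimitiveRoot ζ l) (x : L'ˣ) {M : Type} [Field M] [NumberField M] [Algebra L' M]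
    [IsGalois L' M] (β : M) (hβ : β ^ l = algebraMap L' M x)
    (hgen : ∀ σ : Gal(M/L'), σ β = β → σ = 1) (v : Pl L') (hl : (l : 𝓞 L') ∉ v.asIdeal)
    (hv : PowMod l v x) : Spl L' M v := by
  have hlp : l.Prime := Fact.out
  have : NeZero l := ⟨hlp.ne_zero⟩
  rw [spl_bot]
  intro W hW σ hσ
  rw [Subgroup.mem_bot]
  have hsm : smulP σ W = W := HeightOneSpectrum.ext hσ
  obtain ⟨z, hz⟩ := hv
  have hWv : v.asIdeal = W.asIdeal.under (𝓞 L') := by
    rw [← hW]
    rfl
  have hlo : W.asIdeal.LiesOver v.asIdeal := ⟨hWv⟩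
  have hWp := W.isPrime
  have he : v.asIdeal.ramificationIdx' W.asIdeal ≠ 0 :=
    Ideal.IsDedekindDomain.ramificationIdx'_ne_zero_of_liesOver W.asIdeal v.ne_bot
  have hval : ∀ y : L', W.valuation M (algebraMap L' M y) =
      v.valuation L' y ^ (v.asIdeal.ramificationIdx' W.asIdeal) := fun y =>
    (HeightOneSpectrum.valuation_liesOver M v W y).symm
  -- the normalised root
  set u : M := β / algebraMap L' M z with hu
  have hz0 : algebraMap L' M z ≠ 0 := (map_ne_zero _).2 z.ne_zero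
  have hul : u ^ l = algebraMap L' M ((x * (z ^ l)⁻¹ : L'ˣ) : L') := by
    rw [hu, div_pow, hβ, Units.val_mul, map_mul, Units.val_inv_eq_inv_val, map_inv₀, Units.val_pow_eq_pow_val,
      map_pow, div_eq_mul_inv]
  have h1 : W.valuation M (u ^ l - 1) < 1 := by
    rw [hul, ← map_one (algebraMap L' M), ← map_sub, hval]
    exact pow_lt_one₀ zero_le hz he
  have hζM : IsPrimitiveRoot (algebraMap L' M ζ) l := hζ.map_of_injective (algebraMap L' M).injective
  have hu1 : W.valuation M (u ^ l) = 1 := by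
    have e : u ^ l = 1 + (u ^ l - 1) := by ring
    rw [e, Valuation.map_add_eq_of_lt_left _ (by rw [map_one]; exact h1), map_one]
  have hW1 : W.valuation M u = 1 := by
    rw [map_pow] at hu1
    exact (pow_eq_one_iff_of_nonneg zero_le hlp.ne_zero).1 hu1
  have hu0 : u ≠ 0 := by
    intro h0
    rw [h0, map_zero] at hW1
    exact zero_ne_one hW1
  -- one of the factors is small
  have hprod : u ^ l - 1 = ∏ y ∈ Polynomial.nthRootsFinset l (1 : M), (u - y) := by
    have h2 := hζM.pow_sub_pow_eq_prod_sub_mul u 1 hlp.pos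
    rw [one_pow] at h2
    rw [h2]
    exact Finset.prod_congr rfl fun y _ => by rw [mul_one]
  have hex : ∃ i, W.valuation M (u - algebraMap L' M ζ ^ i) < 1 := by
    by_contra hcon
    rw [hprod, map_prod] at h1
    refine absurd h1 (not_lt.2 (Finset.one_le_prod' fun y hy => ?_))
    rw [Polynomial.mem_nthRootsFinset hlp.pos] at hy
    obtain ⟨i, -, hi⟩ := hζM.eq_pow_of_pow_eq_one hy
    rw [← hi]
    exact not_lt.1 fun h3 => hcon ⟨i, h3⟩
  obtain ⟨i, hi⟩ := hex
  have hi2 : W.valuation M (σ u - algebraMap L' M ζ ^ i) < 1 := by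
    have h2 := d2_inv W σ hsm (u - algebraMap L' M ζ ^ i)
    rw [map_sub, map_pow, AlgEquiv.commutes] at h2
    rw [h2]
    exact hi
  have h3 : W.valuation M (σ u - u) < 1 := by
    have e : σ u - u = (σ u - algebraMap L' M ζ ^ i) - (u - algebraMap L' M ζ ^ i) := by ring
    rw [e]
    exact lt_of_le_of_lt (Valuation.map_sub _ _ _) (max_lt hi2 hi)
  -- the quotient
  set η : M := σ u / u with hη
  have hηl : η ^ l = 1 := by
    rw [hη, div_pow, ← map_pow, hul, AlgEquiv.commutes, div_self]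
    rw [← hul]
    exact pow_ne_zero _ hu0
  have h4 : W.valuation M (η - 1) < 1 := by
    have e : η - 1 = (σ u - u) / u := by
      rw [hη]
      field_simp
    rw [e, map_div₀, hW1, div_one]
    exact h3
  have h5 : η = 1 := by
    by_contra hne
    have h6 : ∑ i ∈ Finset.range l, η ^ i = 0 := by
      have h7 := mul_geom_sum η l
      rw [hηl, sub_self] at h7
      exact (mul_eq_zero.1 h7).resolve_left (sub_ne_zero.2 hne)
    have hη1 : W.valuation M η = 1 := by
      have e : η = 1 + (η - 1) := by ring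
      rw [e, Valuation.map_add_eq_of_lt_left _ (by rw [map_one]; exact h4), map_one]
    have h8 : ∀ i : ℕ, W.valuation M (η ^ i - 1) < 1 := by
      intro i
      rw [← mul_geom_sum, map_mul]
      have h9 : W.valuation M (∑ j ∈ Finset.range i, η ^ j) ≤ 1 := by
        apply Valuation.map_sum_le
        intro j _
        rw [map_pow, hη1, one_pow]
      calc W.valuation M (η - 1) * W.valuation M (∑ j ∈ Finset.range i, η ^ j)
          ≤ W.valuation M (η - 1) * 1 := mul_le_mul_right h9 _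
        _ < 1 := by rw [mul_one]; exact h4
    have h10 : W.valuation M (l : M) < 1 := by
      have e : (l : M) = -∑ i ∈ Finset.range l, (η ^ i - 1) := by
        rw [Finset.sum_sub_distrib, h6]
        simp
      rw [e, Valuation.map_neg]
      apply Valuation.map_sum_lt _ one_ne_zero
      intro i _
      exact h8 i
    have h11 : v.valuation L' (l : L') = 1 := by
      have h12 : v.valuation L' (algebraMap (𝓞 L') L' (l : 𝓞 L')) ≤ 1 :=
        HeightOneSpectrum.valuation_le_one (K := L') v (l : 𝓞 L')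
      have h13 : ¬ v.valuation L' (algebraMap (𝓞 L') L' (l : 𝓞 L')) < 1 :=
        (not_congr (HeightOneSpectrum.valuation_lt_one_iff_mem (K := L') v (l : 𝓞 L'))).2 hl
      rw [map_natCast] at h12 h13
      exact le_antisymm h12 (not_lt.1 h13)
    have h14 := hval (l : L')
    rw [map_natCast, h11, one_pow] at h14
    exact absurd h10 (by rw [h14]; exact lt_irrefl _)
  have h15 : σ u = u := by
    rw [hη, div_eq_one_iff_eq hu0] at h5
    exact h5
  apply hgen
  have h16 : β = u * algebraMap L' M z := by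
    rw [hu]
    field_simp
  rw [h16, map_mul, h15, AlgEquiv.commutes]

end H55K.Ab
end

-- from Lib.H55K.A.D3
section

/-!
Chunk D3 (M). The ray class character of L' defined by θ.
PROOF. Choose v0 with θ v0 ≠ 0 and W0 above v0; f0 = fs L L' v0 divides [L':L] (card_above), so (f0 : k) ≠ 0 (CharP k l, coprime). ρ ≠ 0 (hρ), so there is c : k with ρ(c * (f0 * θ v0)) ≠ 0.
Let e : ZMod l → ℂˣ be the additive character: e(t) = exp(2 π i t/l) (ZMod.toCircle or ZMod.rootsOfUnity..; a monoid hom Multiplicative (ZMod l) → ℂˣ which is injective).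
φ0 W = e(ρ(c * (fs L L' v * θ v))), v = W.under (𝓞 L). For x ∈ 𝓞 L' nonzero: pv φ0 (span x) = e(ρ(c * sum_W ord W x * f_W θ(W.under))) = e(ρ(c * sum_v ord v (N x) θ v)) = 1: pv over the prime
factorisation (HC4.pv_elem expresses pv by orders), ord_norm: ord v (nrm x) = fs * sum_{W | v} ord W x, and IsTh.princ for nrm x. So φ0 ∈ RC ⊤ (⊤ ≤ v.asIdeal is impossible), φ = resF f φ0 ∈ RC f (resF_RC, f ≤ ⊤), φ ≠ 1
by resF_one because φ0 W0 ≠ 1. φ^l = 1 because l • t = 0 in ZMod l. If θ (W.under) = 0 then φ W = e 0 = 1.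
-/

open NumberField IsDedekindDomain

namespace H55K.Ab

open H55R

variable {F : Type} [Field F] [NumberField F]

/-- The additive character of ZMod l with values in the units of the complex numbers. -/
private noncomputable def D3_e (l : ℕ) [NeZero l] (t : ZMod l) : ℂˣ :=
  Circle.toUnits (ZMod.toCircle t)

private theorem D3_e_add (l : ℕ) [NeZero l] (a b : ZMod l) : D3_e l (a + b) = D3_e l a * D3_e l b := by
  unfold D3_e
  rw [AddChar.map_add_eq_mul, map_mul]

private theorem D3_e_zero (l : ℕ) [NeZero l] : D3_e l 0 = 1 := by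
  unfold D3_e
  rw [AddChar.map_zero_eq_one, map_one]

private noncomputable def D3_hom (l : ℕ) [NeZero l] : Multiplicative (ZMod l) →* ℂˣ where
  toFun t := D3_e l t.toAdd
  map_one' := D3_e_zero l
  map_mul' a b := D3_e_add l a.toAdd b.toAdd

private theorem D3_e_zsmul (l : ℕ) [NeZero l] (n : ℤ) (a : ZMod l) : D3_e l (n • a) = D3_e l a ^ n :=
  map_zpow (D3_hom l) (Multiplicative.ofAdd a) n

private theorem D3_e_sum (l : ℕ) [NeZero l] {ι : Type} (s : Finset ι) (f : ι → ZMod l) :
    D3_e l (∑ i ∈ s, f i) = ∏ i ∈ s, D3_e l (f i) := by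
  classical
  induction s using Finset.induction_on with
  | empty => rw [Finset.sum_empty, Finset.prod_empty, D3_e_zero]
  | insert a s ha ih => rw [Finset.sum_insert ha, Finset.prod_insert ha, D3_e_add, ih]

private theorem D3_zpow {ι : Type} (s : Finset ι) (f : ι → ℤ) (a : ℂˣ) :
    ∏ i ∈ s, a ^ f i = a ^ ∑ i ∈ s, f i := by
  classical
  induction s using Finset.induction_on with
  | empty => rw [Finset.sum_empty, Finset.prod_empty, zpow_zero]
  | insert a s ha ih => rw [Finset.sum_insert ha, Finset.prod_insert ha, zpow_add, ih]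

private theorem D3_e_inj (l : ℕ) [NeZero l] {t : ZMod l} (h : D3_e l t = 1) : t = 0 := by
  apply ZMod.injective_toCircle
  rw [AddChar.map_zero_eq_one]
  have h1 : ((D3_e l t : ℂˣ) : ℂ) = 1 := by rw [h]; rfl
  apply Subtype.ext
  exact h1

theorem theta_char {L L' : Type} [Field L] [NumberField L] [Algebra F L] [Field L']
    [NumberField L'] [Algebra L L'] [IsGalois L L'] {l : ℕ} [Fact l.Prime]
    (hc : (Module.finrank L L').Coprime l) {k : Type} [Field k] [CharP k l]
    {χ : Gal(L/F) →* kˣ} (ρ : k →+ ZMod l) (hρ : ρ ≠ 0) {θ : Pl L → k} (hθ : IsTh χ θ)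
    (h0 : ∃ v, θ v ≠ 0) (f : Ideal (𝓞 L')) (hf : f ≠ ⊥) :
    ∃ φ ∈ RC f, φ ≠ 1 ∧ φ ^ l = 1 ∧ ∀ W : Pl L', θ (W.under (𝓞 L)) = 0 → φ W = 1 := by
  classical
  have hl : l.Prime := Fact.out
  have : NeZero l := ⟨hl.ne_zero⟩
  obtain ⟨v0, hv0⟩ := h0
  obtain ⟨W0, hW0⟩ := under_exists (L := L') v0
  have hf0 : ((fs L L' v0 : ℕ) : k) ≠ 0 := by
    intro h
    rw [CharP.cast_eq_zero_iff k l] at h
    have h1 := card_above v0 (above_finite (L := L') v0).toFinset (fun W => by simp)
    have h2 : l ∣ Module.finrank L L' := by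
      rw [← h1]
      exact Dvd.dvd.mul_left (Dvd.dvd.mul_left h _) _
    have h3 : l ∣ 1 := by
      have := Nat.dvd_gcd h2 (dvd_refl l)
      rwa [hc] at this
    exact hl.one_lt.ne' (Nat.dvd_one.1 h3)
  obtain ⟨a, ha⟩ : ∃ a, ρ a ≠ 0 := by
    by_contra hne
    push Not at hne
    exact hρ (AddMonoidHom.ext hne)
  obtain ⟨c, hcc⟩ : ∃ c : k, c * ((fs L L' v0 : ℕ) * θ v0) = a :=
    ⟨a / ((fs L L' v0 : ℕ) * θ v0), div_mul_cancel₀ _ (mul_ne_zero hf0 hv0)⟩
  let φ0 : Pl L' → ℂˣ := fun W =>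
    D3_e l (ρ (c * ((fs L L' (W.under (𝓞 L)) : ℕ) * θ (W.under (𝓞 L)))))
  have hpv : ∀ x : 𝓞 L', x ≠ 0 → pv φ0 (Ideal.span {x}) = 1 := by
    intro x hx
    have hx' : (x : L') ≠ 0 := by
      intro h
      exact hx (RingOfIntegers.ext (by rw [h]; rfl))
    let y : L'ˣ := Units.mk0 (x : L') hx'
    have hy : (y : L') = x := rfl
    -- primes containing x are finite
    have hfin : {W : Pl L' | x ∈ W.asIdeal}.Finite := by
      have h1 : (Ideal.span {x} : Ideal (𝓞 L')) ≠ 0 := by
        rw [Ne, Ideal.zero_eq_bot, Ideal.span_singleton_eq_bot]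
        exact hx
      refine (Ideal.finite_factors h1).subset fun W hW => ?_
      exact Ideal.dvd_span_singleton.2 hW
    let V : Finset (Pl L) := hfin.toFinset.image (fun W => W.under (𝓞 L))
    let U : Finset (Pl L') := V.biUnion fun v => (above_finite (L := L') v).toFinset
    have hU : ∀ W : Pl L', x ∈ W.asIdeal → W ∈ U := by
      intro W hW
      rw [Finset.mem_biUnion]
      refine ⟨W.under (𝓞 L), ?_, ?_⟩
      · rw [Finset.mem_image]
        exact ⟨W, by simpa using hW, rfl⟩
      · simp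
    rw [pv_elem φ0 x y hy U hU, Finset.prod_biUnion]
    swap
    · intro v _ v' _ hne
      rw [Function.onFun, Finset.disjoint_left]
      intro W h1 h2
      simp only [Set.Finite.mem_toFinset, Set.mem_ofPred_eq] at h1 h2
      exact hne (h1.symm.trans h2)
    have hstep : ∀ v ∈ V, ∏ W ∈ (above_finite (L := L') v).toFinset, φ0 W ^ ord W y =
        D3_e l (ρ (c * ((ord v (nrm L L' y) : k) * θ v))) := by
      intro v _
      have h1 : ∀ W ∈ (above_finite (L := L') v).toFinset, φ0 W ^ ord W y =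
          D3_e l (ρ (c * ((fs L L' v : ℕ) * θ v))) ^ ord W y := by
        intro W hW
        simp only [Set.Finite.mem_toFinset, Set.mem_ofPred_eq] at hW
        simp only [φ0]
        rw [hW]
      rw [Finset.prod_congr rfl h1, D3_zpow, ← D3_e_zsmul, ← map_zsmul]
      congr 2
      rw [ord_norm v (above_finite (L := L') v).toFinset (fun W => by simp) y, zsmul_eq_mul]
      push_cast
      ring
    rw [Finset.prod_congr rfl hstep, ← D3_e_sum, ← map_sum, ← Finset.mul_sum]
    have hsum : ∑ v ∈ V, (ord v (nrm L L' y) : k) * θ v = 0 := by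
      have h1 := hθ.princ (nrm L L' y)
      rw [finsum_eq_sum_of_support_subset _ (s := V)] at h1
      · exact h1
      · intro v hv
        rw [Function.mem_support] at hv
        by_contra hvV
        apply hv
        have h2 : ord v (nrm L L' y) = 0 := by
          rw [ord_norm v (above_finite (L := L') v).toFinset (fun W => by simp) y]
          rw [Finset.sum_eq_zero, mul_zero]
          intro W hW
          simp only [Set.Finite.mem_toFinset, Set.mem_ofPred_eq] at hW
          apply HC4_zero x y hy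
          intro hxW
          apply hvV
          simp only [V, Finset.coe_image, Set.mem_image, Finset.mem_coe, Set.Finite.mem_toFinset,
            Set.mem_ofPred_eq]
          exact ⟨W, hxW, hW⟩
        rw [h2]
        simp
    rw [hsum, mul_zero, map_zero, D3_e_zero]
  have hRC : φ0 ∈ RC (⊤ : Ideal (𝓞 L')) := by
    refine ⟨fun v hv => absurd (top_unique hv) v.isPrime.ne_top, fun x y hx hy _ _ => ?_⟩
    rw [hpv x hx, hpv y hy]
  refine ⟨resF f φ0, resF_RC ⊤ f le_top φ0 hRC, ?_, ?_, ?_⟩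
  · intro h
    have h1 := resF_one ⊤ f le_top hf φ0 hRC h
    have h2 := congrFun h1 W0
    simp only [φ0, Pi.one_apply] at h2
    rw [hW0] at h2
    have h3 := D3_e_inj l h2
    rw [hcc] at h3
    exact ha h3
  · funext W
    rw [Pi.pow_apply, Pi.one_apply]
    unfold resF
    split_ifs with h
    · exact one_pow l
    · have h1 : D3_e l (ρ (c * ((fs L L' (W.under (𝓞 L)) : ℕ) * θ (W.under (𝓞 L))))) ^ (l : ℤ) = 1 := by
        rw [← D3_e_zsmul, zsmul_eq_mul]
        rw [show (((l : ℤ) : ZMod l)) = 0 by simp, zero_mul, D3_e_zero]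
      exact_mod_cast h1
  · intro W hW
    unfold resF
    split_ifs with h
    · rfl
    · simp only [φ0]
      rw [hW, mul_zero, mul_zero, map_zero, D3_e_zero]

end H55K.Ab
end

-- from Lib.H55K.A.T1
section

/-!
Chunk T1 (S/M). Hilbert 90 and the divisor of the norm.
hilb: groupCohomology.exists_div_of_norm_eq_one (as in H55R.HA11), x = z / h z, b = z⁻¹.
ord_inv_gen: for W above v: ord (smulP h⁻¹ W) b = ord W (h b) (ord_smul) = ord W al + ord W b = ord W b, the prime smulP h⁻¹ W is again above v (under_smulP), so by induction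
ord (smulP g W) b = ord W b for all g (zpowers; for negative powers use finiteness of the order or the equation backwards).
ord_nrm: ord_norm with T = the (finite, above_finite) set of primes above v, all ord W' b equal (smulP_trans), card_above: card T * (es * fs) = finrank = card Gal. So
es * ord v (nrm b) = es * fs * card T * ord W b = card Gal * ord W b.
-/

open NumberField IsDedekindDomain

namespace H55K.Ab

open H55R

variable {F : Type} [Field F] [NumberField F]

variable {L B : Type} [Field L] [NumberField L] [Field B] [NumberField B] [Algebra L B]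

theorem hilb [IsGalois L B] (h : Gal(B/L)) (hh : ∀ g : Gal(B/L), g ∈ Subgroup.zpowers h) (al : Bˣ)
    (hal : Algebra.norm L (al : B) = 1) :
    ∃ b : Bˣ, Units.map ((h : B ≃ₐ[L] B) : B →* B) b = al * b := by
  have : FiniteDimensional L B := Module.Finite.of_restrictScalars_finite ℚ L B
  have hcy : IsCyclic Gal(B/L) := ⟨h, hh⟩
  obtain ⟨z, hz⟩ := groupCohomology.exists_div_of_norm_eq_one hh hal
  refine ⟨z⁻¹, ?_⟩
  apply Units.ext
  have hz0 : (z : B) ≠ 0 := z.ne_zero
  have hz1 : h (z : B) ≠ 0 := (map_ne_zero h).2 hz0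
  rw [map_inv, Units.val_mul, Units.val_inv_eq_inv_val, Units.val_inv_eq_inv_val, Units.coe_map]
  change (h (z : B))⁻¹ = (al : B) * (z : B)⁻¹
  rw [← hz]
  field_simp

theorem t1_ord (h : Gal(B/L)) (al b : Bˣ) (hb : Units.map ((h : B ≃ₐ[L] B) : B →* B) b = al * b)
    (v : Pl L) (hv : ∀ W : Pl B, W.under (𝓞 L) = v → ord W al = 0) (W : Pl B)
    (hW : W.under (𝓞 L) = v) : ord (smulP h⁻¹ W) b = ord W b := by
  have h1 := ord_smul h (smulP h⁻¹ W) b
  rw [← smulP_mul, mul_inv_cancel, smulP_one, hb, ord_mul, hv W hW, zero_add] at h1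
  exact h1.symm

/-- The elements of the Galois group which preserve the orders of `b` above `v`. -/
def t1_sub (b : Bˣ) (v : Pl L) : Subgroup Gal(B/L) where
  carrier := {g | ∀ W : Pl B, W.under (𝓞 L) = v → ord (smulP g W) b = ord W b}
  one_mem' := fun W _ => by rw [smulP_one]
  mul_mem' := by
    intro g g' hg hg' W hW
    rw [smulP_mul, hg _ ((under_smulP g' W).trans hW), hg' W hW]
  inv_mem' := by
    intro g hg W hW
    have h1 := hg (smulP g⁻¹ W) ((under_smulP g⁻¹ W).trans hW)
    rw [← smulP_mul, mul_inv_cancel, smulP_one] at h1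
    exact h1.symm

theorem ord_inv_gen [IsGalois L B] (h : Gal(B/L)) (hh : ∀ g : Gal(B/L), g ∈ Subgroup.zpowers h)
    (al b : Bˣ) (hb : Units.map ((h : B ≃ₐ[L] B) : B →* B) b = al * b) (v : Pl L)
    (hv : ∀ W : Pl B, W.under (𝓞 L) = v → ord W al = 0) (W W' : Pl B) (hW : W.under (𝓞 L) = v)
    (hW' : W'.under (𝓞 L) = v) : ord W b = ord W' b := by
  have h1 : h⁻¹ ∈ t1_sub b v := fun W₁ hW₁ => t1_ord h al b hb v hv W₁ hW₁
  have h2 : h ∈ t1_sub b v := by
    have := (t1_sub b v).inv_mem h1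
    rwa [inv_inv] at this
  obtain ⟨σ, hσ⟩ := smulP_trans (K := L) (L := B) W W' (hW.trans hW'.symm)
  have h3 : σ ∈ t1_sub b v := (Subgroup.zpowers_le.2 h2) (hh σ)
  rw [← hσ]
  exact (h3 W hW).symm

theorem ord_nrm [IsGalois L B] (h : Gal(B/L)) (hh : ∀ g : Gal(B/L), g ∈ Subgroup.zpowers h)
    (al b : Bˣ) (hb : Units.map ((h : B ≃ₐ[L] B) : B →* B) b = al * b) (v : Pl L)
    (hv : ∀ W : Pl B, W.under (𝓞 L) = v → ord W al = 0) (W : Pl B) (hW : W.under (𝓞 L) = v) :
    (es L B v : ℤ) * ord v (nrm L B b) = Nat.card Gal(B/L) * ord W b := by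
  have hT : ∀ W', W' ∈ (above_finite (L := B) v).toFinset ↔ W'.under (𝓞 L) = v := fun W' => by
    rw [Set.Finite.mem_toFinset]
    rfl
  have h1 := ord_norm v _ hT b
  have h2 := card_above v _ hT
  have h3 : ∑ W' ∈ (above_finite (L := B) v).toFinset, ord W' b =
      (above_finite (L := B) v).toFinset.card * ord W b := by
    rw [Finset.sum_congr rfl fun W' hW' => ord_inv_gen h hh al b hb v hv W' W ((hT W').1 hW') hW,
      Finset.sum_const, nsmul_eq_mul]
  rw [IsGalois.card_aut_eq_finrank, ← h2, h1, h3]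
  push_cast
  ring

end H55K.Ab
end

-- from Lib.H55K.A.T3
section

/-!
Chunk T3 (M). The relation of Thaine and Kolyvagin.
theta_three: for v above 3 with σ v = v, σ ≠ 1: θ v = θ (σ v) = χ σ θ v and χ σ ≠ 1 (χ injective), so θ v = 0.
PROOF of thaine. h a generator of Gal(B/L) (Aux.cyc), b from hilb, c = nrm L B b ∈ Lˣ. For v not above 3 and not conjugate to Q: by ord_nrm (Aux.unit: the primes above v are not above 3) and
Aux.unr, ord v c = (N Q - 1) ord W b, divisible by l, so (ord v c : k) = 0. For v = σ Q: not above 3 (hQ3 and Galois), Aux.ram: ord v c = ord W b =: j σ, W the prime above.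
IsTh.princ for c: the sum over v; terms outside the conjugates of Q vanish (theta_three above 3), the conjugates σ Q are distinct (hinj), so sum_σ (j σ : k) χ σ θ Q = 0, hence
(*) sum_σ (j σ : k) χ σ = 0 if θ Q ≠ 0. By tame_res with κ = κ h: (σ Q).valuation (ξ - κ^(j σ)) < 1 and (σ Q).valuation κ = 1. Apply σ⁻¹ (valuation at σ⁻¹ σ Q = Q of σ⁻¹ x = valuation at σ Q
of x: ord_smul / BF1_val, treat 0 separately): Q.valuation (gu σ⁻¹ ξ - κ^(j σ)) < 1, so gu σ⁻¹ ξ / κ^(j σ) is congruent to 1 modulo Q (Q.valuation κ = 1).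
eta χ ρ a ξ = prod_σ (gu σ ξ)^(cf χ ρ a σ) is congruent to κ^E, E = sum_σ cf χ ρ a σ * j σ⁻¹ (multiplicative congruence). In ZMod l: E = sum_σ ρ(a χ(σ)⁻¹) j σ⁻¹ = ρ(a sum_σ (j σ) χ σ) = 0 by (*)
(ρ additive: ρ(n • x) = n • ρ x). So E = l s and eta χ ρ a ξ is congruent to (κ^s)^l: PowMod with z = κ^s (κ ≠ 0 because its valuation is 1).
-/

open NumberField IsDedekindDomain

namespace H55K.Ab

open H55R

variable {F : Type} [Field F] [NumberField F]

section T3

theorem T3_zpow {ι A : Type*} [CommGroup A] (s : Finset ι) (f : ι → ℤ) (x : A) :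
    ∏ i ∈ s, x ^ f i = x ^ ∑ i ∈ s, f i := by
  classical
  induction s using Finset.induction_on with
  | empty => simp
  | insert i s hi ih => rw [Finset.prod_insert hi, Finset.sum_insert hi, ih, zpow_add]

variable {L : Type} [Field L] [NumberField L] [Algebra F L]

theorem T3_val (σ : Gal(L/F)) (Q : Pl L) (x : L) :
    Q.valuation L (σ⁻¹ x) = (smulP σ Q).valuation L x := by
  by_cases hx : x = 0
  · rw [hx, map_zero, map_zero, map_zero]
  · let u : Lˣ := Units.mk0 x hx
    have h1 := ord_smul σ⁻¹ (smulP σ Q) u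
    rw [← smulP_mul, inv_mul_cancel, smulP_one] at h1
    have h2 := BF1_val Q (Units.map ((σ⁻¹ : L ≃ₐ[F] L) : L →* L) u)
    rw [h1, ← BF1_val (smulP σ Q) u] at h2
    exact h2

/-- The exponents and the congruences. -/
theorem T3_aux [IsGalois F L] (Q : Pl L) (ξ : Lˣ) {B : Type} [Field B]
    [NumberField B] [Algebra L B] {κ : Gal(B/L) → ℤ} {t al : Bˣ} (haux : Aux F L Q ξ B κ t al) :
    ∃ (c : Lˣ) (j : Gal(L/F) → ℤ) (kL : Lˣ),
      (∀ v : Pl L, (∀ σ : Gal(L/F), v ≠ smulP σ Q) →
        ((Ideal.absNorm Q.asIdeal - 1 : ℕ) : ℤ) ∣ ord v c) ∧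
      (∀ σ : Gal(L/F), ord (smulP σ Q) c = j σ) ∧
      (∀ σ : Gal(L/F), gu σ⁻¹ ξ / kL ^ j σ ∈ T2_U (Q.valuation L)) := by
  have hgal := haux.gal
  have hcyc := haux.cyc
  obtain ⟨h, hh⟩ := IsCyclic.exists_generator (α := Gal(B/L))
  obtain ⟨b, hb⟩ := hilb h hh al haux.norm
  have hcard : (0 : ℤ) < (Nat.card Gal(B/L) : ℤ) := by exact_mod_cast Nat.card_pos
  choose W hW using fun σ : Gal(L/F) => under_exists (L := B) (smulP σ Q)
  have hr : ∀ σ : Gal(L/F), es L B (smulP σ Q) = Nat.card Gal(B/L) := fun σ => by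
    rw [haux.ram σ, haux.card]
  have key := fun σ : Gal(L/F) => tame_res (smulP σ Q) (W σ) (hW σ) (hr σ) h al b t hb
    (haux.unif σ (W σ) (hW σ)) (κ h) (haux.tame σ (W σ) (hW σ) h) ξ (haux.congr σ (W σ) (hW σ))
  have hκ0 : (κ h : L) ≠ 0 := by
    intro h0
    have := (key 1).1
    rw [h0, map_zero] at this
    exact zero_ne_one this
  refine ⟨nrm L B b, fun σ => ord (W σ) b, Units.mk0 _ hκ0, ?_, ?_, ?_⟩
  · intro v hvc
    obtain ⟨W', hW'⟩ := under_exists (L := B) v
    have h1 := ord_nrm h hh al b hb v (fun W _ => haux.unit W) W' hW'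
    rw [haux.unr v hvc, Nat.cast_one, one_mul, haux.card] at h1
    exact ⟨_, h1⟩
  · intro σ
    have h1 := ord_nrm h hh al b hb (smulP σ Q) (fun W _ => haux.unit W) (W σ) (hW σ)
    rw [hr σ] at h1
    exact mul_left_cancel₀ hcard.ne' h1
  · intro σ
    obtain ⟨h1, h2⟩ := key σ
    rw [← T3_val] at h1 h2
    rw [map_intCast] at h1
    have hv1 : Q.valuation L (((Units.mk0 _ hκ0 : Lˣ) ^ ord (W σ) b : Lˣ) : L) = 1 := by
      rw [Units.val_zpow_eq_zpow_val, map_zpow₀, Units.val_mk0, h1, one_zpow]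
    apply T2_div
    rw [hv1]
    have e : ((gu σ⁻¹ ξ : Lˣ) : L) - (((Units.mk0 _ hκ0 : Lˣ) ^ ord (W σ) b : Lˣ) : L) =
        σ⁻¹ ((ξ : L) - (κ h : L) ^ ord (W σ) b) := by
      rw [gu_apply, Units.val_zpow_eq_zpow_val, Units.val_mk0, map_sub, map_zpow₀, map_intCast]
    rw [e]
    exact h2

end T3

theorem thaine {L : Type} [Field L] [NumberField L] [Algebra F L] [IsGalois F L] {l : ℕ}
    [Fact l.Prime] {k : Type} [Field k] [CharP k l] {χ : Gal(L/F) →* kˣ}
    (hχ : Function.Bijective χ) (ρ : k →+ ZMod l)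
    (Q : Pl L) (hl : l ∣ Ideal.absNorm Q.asIdeal - 1)
    (hinj : Function.Injective fun σ : Gal(L/F) => smulP σ Q) (ξ : Lˣ) {B : Type} [Field B]
    [NumberField B] [Algebra L B] {κ : Gal(B/L) → ℤ} {t al : Bˣ} (haux : Aux F L Q ξ B κ t al)
    {θ : Pl L → k} (hθ : IsTh χ θ) (hQ : θ Q ≠ 0) (a : k) : PowMod l Q (eta χ ρ a ξ) := by
  classical
  obtain ⟨c, j, kL, hc1, hc2, hc3⟩ := T3_aux Q ξ haux
  -- the sum of the class group relation
  have hsum : ∑ σ : Gal(L/F), (j σ : k) * (χ σ : k) = 0 := by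
    have h1 := hθ.princ c
    have h2 : (Function.support fun v : Pl L => (ord v c : k) * θ v) ⊆
        ((Finset.univ.map ⟨fun σ : Gal(L/F) => smulP σ Q, hinj⟩ : Finset (Pl L)) : Set (Pl L)) := by
      intro v hv
      rw [Finset.coe_map, Finset.coe_univ, Set.image_univ]
      by_contra hcon
      apply hv
      have h4 := hc1 v fun σ h => hcon ⟨σ, h.symm⟩
      have h5 : (l : ℤ) ∣ ord v c := (Int.natCast_dvd_natCast.2 hl).trans h4
      show (ord v c : k) * θ v = 0
      rw [(CharP.intCast_eq_zero_iff k l _).2 h5, zero_mul]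
    rw [finsum_eq_sum_of_support_subset _ h2, Finset.sum_map] at h1
    have h6 : ∀ σ : Gal(L/F), (ord (smulP σ Q) c : k) * θ (smulP σ Q) =
        ((j σ : k) * (χ σ : k)) * θ Q := by
      intro σ
      rw [hc2, hθ.equiv]
      ring
    simp only [Function.Embedding.coeFn_mk] at h1
    rw [Finset.sum_congr rfl fun σ _ => h6 σ, ← Finset.sum_mul] at h1
    exact (mul_eq_zero.1 h1).resolve_right hQ
  -- the exponent
  have hE : (l : ℤ) ∣ ∑ σ : Gal(L/F), j σ * cf χ ρ a σ⁻¹ := by
    rw [← ZMod.intCast_zmod_eq_zero_iff_dvd]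
    push_cast
    have h1 : ∀ σ : Gal(L/F), (j σ : ZMod l) * ((cf χ ρ a σ⁻¹ : ℤ) : ZMod l) =
        ρ (a * ((j σ : k) * (χ σ : k))) := by
      intro σ
      unfold cf
      rw [map_inv, inv_inv, Int.cast_natCast, ZMod.natCast_val, ZMod.cast_id, ← zsmul_eq_mul, ← map_zsmul,
        zsmul_eq_mul]
      congr 1
      ring
    rw [Finset.sum_congr rfl fun σ _ => h1 σ, ← map_sum, ← Finset.mul_sum, hsum, mul_zero, map_zero]
  obtain ⟨s, hs⟩ := hE
  refine ⟨kL ^ s, ?_⟩
  rw [← T2_mem]
  have h1 : eta χ ρ a ξ * ((kL ^ s) ^ l)⁻¹ =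
      ∏ σ : Gal(L/F), (gu σ⁻¹ ξ / kL ^ j σ) ^ cf χ ρ a σ⁻¹ := by
    unfold eta pw
    rw [← Equiv.prod_comp (Equiv.inv Gal(L/F)), Finset.prod_congr rfl fun σ _ => div_zpow _ _ _,
      Finset.prod_div_distrib, div_eq_mul_inv]
    congr 2
    rw [Finset.prod_congr rfl fun σ _ => (zpow_mul kL (j σ) (cf χ ρ a σ⁻¹)).symm,
      T3_zpow, hs, ← zpow_natCast, ← zpow_mul, mul_comm]
  rw [h1]
  exact prod_mem fun σ _ => zpow_mem (hc3 σ) _

end H55K.Ab
end
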