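import Mathlib
import Pool.Agent.Lib.H1M.PP.D_H13D_MD
import Pool.Agent.Lib.H1M.PP.D_H28R_Defs
import Pool.Agent.Lib.H1M.PP.D_H28T_CD
import Pool.Agent.Lib.H1M.PP.D_H55C_Defs
import Pool.Agent.Lib.H1M.PP.D_H55K_D2
import Pool.Agent.Lib.H1M.PP.D_H55P_Sel
import Pool.Agent.Lib.H1M.PP.M007
import Pool.Agent.Lib.H1M.PP.M009
import Pool.Agent.Lib.H1M.PP.M011
import Pool.Agent.Lib.H1M.PP.M013
import Pool.Agent.Lib.H1M.PP.M018
import Pool.Agent.Lib.H1M.PP.M026
import Pool.Agent.Lib.H1M.PP.M033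
import Pool.Agent.Lib.H1M.PP.M037

/-! Merged copies (to shorten the build) of Lib.H13D.H1, Lib.H55W.CL1, Lib.H55C.A18, Lib.H28T.Gen, Lib.H28T.A2, Lib.H55C.Y10, Lib.H55C.Y17, Lib.H28T.A3, Lib.H28T.AQ1, Lib.H28T.AR4, Lib.H28T.CC2A, Lib.H13D.M1, Lib.H13D.M2, Lib.H13D.M3, Lib.H13D.M4, Lib.H13D.M5, Lib.H13D.M6. -/

-- from Lib.H13D.H1
section

/-! # H13D, part H: norms and congruences -/

open NumberField IsDedekindDomain WeierstrassCurve

namespace H13D

open H55P (IQ embF eF LF Per IsHecke Pt ac Inert Dec Nm)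
open H55K

variable {F : Type} [Field F] [NumberField F] [IQ F]

/-- Chunk H1 (S). If n = N c in 𝓞 F then Nm n = n^2 = N^2 Nm c (Nm_mul, Nm of an integer is its square: mul_cj, cj_int), so N^2 divides n^2 and N divides n. -/
theorem dvd_int (N : ℕ) (n : ℤ) (h : (N : 𝓞 F) ∣ (n : 𝓞 F)) : (N : ℤ) ∣ n := by
  have h1 : (N : 𝓞 F) ∣ ((n.natAbs : ℕ) : 𝓞 F) := by
    rcases Int.natAbs_eq n with h2 | h2
    · rw [h2, Int.cast_natCast] at h
      exact h
    · rw [h2, Int.cast_neg, Int.cast_natCast] at h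
      exact (dvd_neg.1 h)
  obtain ⟨c, hc⟩ := h1
  have h2 := congrArg Nm hc
  rw [Nm_mul, Nm_nat, Nm_nat] at h2
  have h3 : N ^ 2 ∣ n.natAbs ^ 2 := ⟨_, h2⟩
  have h4 : N ∣ n.natAbs := (Nat.pow_dvd_pow_iff two_ne_zero).1 h3
  exact Int.natCast_dvd.2 h4

/-- Chunk H1 (S/M). Ideal.isCoprime_span_singleton_iff, IsCoprime.pow_right_iff: the left side says a x + b N = 1. If so, multiply with the conjugate equation (cj a) (cj x) + (cj b) N = 1: a (cj a) Nm x = 1 + N (..) (mul_cj), so a prime p dividing Nm x and N divides 1 in 𝓞 F: contradiction (dvd_int). Conversely u Nm x + w N = 1 with integers u, w and Nm x = x cj x. -/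
theorem cop_iff (N : ℕ) (x : 𝓞 F) : IsCoprime (Ideal.span {x}) (Ideal.span {(N : 𝓞 F) ^ 3}) ↔ (Nm x).Coprime N := by
  rw [Ideal.isCoprime_span_singleton_iff, IsCoprime.pow_right_iff (by norm_num)]
  constructor
  · rintro ⟨a, b, hab⟩
    have h1 := congrArg cj hab
    rw [map_add, map_mul, map_mul, map_natCast, map_one] at h1
    have h2 := mul_cj x
    have h3 : (1 : 𝓞 F) = a * cj a * (Nm x : 𝓞 F) + (N : 𝓞 F) * (b + cj b - b * cj b * N) := by
      rw [← h2]
      linear_combination (-(cj a * cj x)) * hab - (1 - b * N) * h1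
    have h4 : ((Nat.gcd (Nm x) N : ℕ) : 𝓞 F) ∣ ((1 : ℤ) : 𝓞 F) := by
      rw [Int.cast_one, h3]
      refine dvd_add (Dvd.dvd.mul_left ?_ _) (Dvd.dvd.mul_right ?_ _)
      · exact Nat.cast_dvd_cast (Nat.gcd_dvd_left _ _)
      · exact Nat.cast_dvd_cast (Nat.gcd_dvd_right _ _)
    have h5 := dvd_int _ _ h4
    have h6 : Nat.gcd (Nm x) N ∣ 1 := by exact_mod_cast h5
    exact Nat.dvd_one.1 h6
  · intro h
    have h1 : IsCoprime ((Nm x : ℕ) : ℤ) (N : ℤ) := Nat.isCoprime_iff_coprime.2 h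
    obtain ⟨u, w, huw⟩ := h1
    have h2 := congrArg (fun k : ℤ => (k : 𝓞 F)) huw
    simp only [Int.cast_add, Int.cast_mul, Int.cast_natCast, Int.cast_one] at h2
    rw [← mul_cj x] at h2
    exact ⟨u * cj x, w, by linear_combination h2⟩

/-- Chunk H1 (S/M). Nm x - Nm y = x cj x - y cj y (mul_cj); x - y is divisible by N^3 and so is cj x - cj y: dvd_int for N^3 (Nat.modEq_iff_dvd). -/
theorem Nm_congr (N : ℕ) {x y : 𝓞 F} (h : x - y ∈ Ideal.span {(N : 𝓞 F) ^ 3}) : Nm x ≡ Nm y [MOD N ^ 3] := by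
  rw [Nat.modEq_iff_dvd]
  apply dvd_int (F := F)
  obtain ⟨c, hc⟩ := Ideal.mem_span_singleton.1 h
  have h1 := congrArg cj hc
  rw [map_sub, map_mul, map_pow, map_natCast] at h1
  have h2 := mul_cj x
  have h3 := mul_cj y
  refine ⟨-(x * cj c + c * cj y), ?_⟩
  push_cast
  linear_combination h2 - h3 - x * h1 - cj y * hc

end H13D
end

-- from Lib.H55W.CL1
section

/-! # H55W, part CL: the imaginary quadratic fields of class number one (elementary part of the classification) -/

open NumberField IsDedekindDomain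

namespace H55W

open H55P (IQ embF eF Nm)
open H55K (cj)

/-- θ is a square root of -d in the integers of F, d a squarefree natural number, d > 0. -/
structure TH {F : Type} [Field F] [NumberField F] (θ : 𝓞 F) (d : ℕ) : Prop where
  sq : θ ^ 2 = -(d : 𝓞 F)
  sf : Squarefree d
  pos : 0 < d

variable {F : Type} [Field F] [NumberField F] [IQ F] {θ : 𝓞 F} {d : ℕ}

theorem cl1_int {x : 𝓞 F} {q : ℚ} (h : algebraMap ℚ F q = (x : F)) : ∃ n : ℤ, x = (n : 𝓞 F) := by
  have h2 : IsIntegral ℤ q := by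
    rw [← isIntegral_algebraMap_iff (algebraMap ℚ F).injective, h]
    exact x.2
  obtain ⟨m, hm⟩ := IsIntegrallyClosed.isIntegral_iff.1 h2
  refine ⟨m, ?_⟩
  apply RingOfIntegers.ext
  rw [← h, ← hm]
  simp

theorem cl1_emb (x : 𝓞 F) : embF F (x : F) = eF F x := rfl

/-- Chunk CL1 (S/M). x fixed by cj: x is rational (e.g. eF x real; F of degree 2 over ℚ with a non-real element: 1, θ a basis; or the fixed field of the nontrivial automorphism (H55K.d1_sigma, IsGalois) is ℚ) and integral over ℤ: an integer (IsIntegrallyClosed ℤ). -/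
theorem int_of_cj {x : 𝓞 F} (h : cj x = x) : ∃ n : ℤ, x = (n : 𝓞 F) := by
  obtain ⟨σ, hσ⟩ := H55K.d1_sigma F
  have hq : Algebra.IsQuadraticExtension ℚ F := ⟨IQ.deg⟩
  have hG : IsGalois ℚ F := inferInstance
  have hx : embF F (σ (x : F)) = embF F (x : F) := by
    rw [hσ, cl1_emb, ← H55K.e_cj, h]
  have hfix : ∀ g : F ≃ₐ[ℚ] F, g (x : F) = (x : F) := by
    intro g
    by_cases hg : (embF F).comp (g : F →+* F) = embF F
    · apply (embF F).injective
      exact RingHom.congr_fun hg (x : F)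
    · have hs : (embF F).comp (σ : F →+* F) ≠ embF F := by
        intro h1
        apply H55K.d1_conj_ne F
        ext y
        have h2 := RingHom.congr_fun h1 y
        have h3 : (embF F).comp (σ : F →+* F) y = (starRingEnd ℂ) (embF F y) := hσ y
        rw [RingHom.comp_apply, ← h3, h2]
      have h1 := H55K.d1_emb F _ _ hg hs
      apply (embF F).injective
      have h2 := RingHom.congr_fun h1 (x : F)
      have h3 : embF F (g (x : F)) = embF F (σ (x : F)) := h2
      rw [h3, hx]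
  obtain ⟨q, hq'⟩ := (IsGalois.mem_range_algebraMap_iff_fixed (F := ℚ) (x : F)).2 hfix
  exact cl1_int hq'

/-- Chunk CL1 (M). x in 𝓞 F with eF x not real (H55P.F0_im). t = x + cj x and N = x cj x are integers (int_of_cj, cj_cj), y = 2x - t satisfies y^2 = t^2 - 4N =: -D, D > 0 because y is purely imaginary, not 0 (eF (y^2) = - |..|^2). D = k^2 d with d squarefree (Nat.sq_mul_squarefree), θ = y/k in F, θ^2 = -d: integral over ℤ, so in 𝓞 F. -/
theorem exists_TH (F : Type) [Field F] [NumberField F] [IQ F] : ∃ (θ : 𝓞 F) (d : ℕ), TH θ d := by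
  obtain ⟨x, hx⟩ := H55P.F0_im (F := F)
  obtain ⟨T, hT⟩ := int_of_cj (x := x + cj x) (by rw [map_add, H55K.cj_cj, add_comm])
  have hN := H55K.mul_cj x
  have hy : (x - cj x) ^ 2 = ((T ^ 2 - 4 * (Nm x : ℕ) : ℤ) : 𝓞 F) := by
    push_cast
    rw [← hT, ← hN]
    ring
  have hD : 0 < 4 * ((Nm x : ℕ) : ℤ) - T ^ 2 := by
    have h1 := congrArg (eF F) hy
    rw [map_pow, map_sub, H55K.e_cj, map_intCast] at h1
    have h2 := congrArg Complex.re h1
    rw [Complex.intCast_re] at h2
    have h3 : ((eF F x - (starRingEnd ℂ) (eF F x)) ^ 2).re = -(4 * (eF F x).im ^ 2) := by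
      simp [pow_two, Complex.mul_re]
      ring
    rw [h3] at h2
    have h4 : 0 < (eF F x).im ^ 2 := by positivity
    have h5 : ((T ^ 2 - 4 * ((Nm x : ℕ) : ℤ) : ℤ) : ℝ) < 0 := by
      rw [← h2]
      linarith
    have h6 : T ^ 2 - 4 * ((Nm x : ℕ) : ℤ) < 0 := by exact_mod_cast h5
    linarith
  obtain ⟨D, hDD⟩ : ∃ D : ℕ, (D : ℤ) = 4 * ((Nm x : ℕ) : ℤ) - T ^ 2 := ⟨_, Int.toNat_of_nonneg hD.le⟩
  obtain ⟨d, k, hk, hd⟩ := Nat.sq_mul_squarefree D
  have hD0 : 0 < D := by omega
  have hk0 : k ≠ 0 := by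
    rintro rfl
    rw [← hk] at hD0
    simp at hD0
  have hd0 : 0 < d := by
    rcases Nat.eq_zero_or_pos d with h1 | h1
    · rw [h1, mul_zero] at hk
      omega
    · exact h1
  have hkF : (k : F) ≠ 0 := by exact_mod_cast hk0
  have hyF : ((x : F) - (cj x : 𝓞 F)) ^ 2 = -((k : F) ^ 2 * d) := by
    have h1 : (((x - cj x) ^ 2 : 𝓞 F) : F) = (((T ^ 2 - 4 * (Nm x : ℕ) : ℤ) : 𝓞 F) : F) := by rw [hy]
    have h2 : (T ^ 2 - 4 * (Nm x : ℕ) : ℤ) = -((k ^ 2 * d : ℕ) : ℤ) := by
      rw [hk, hDD]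
      ring
    rw [h2] at h1
    push_cast at h1
    exact h1
  have hsq : (((x : F) - (cj x : 𝓞 F)) / k) ^ 2 = -(d : F) := by
    rw [div_pow, hyF]
    field_simp
  have hint : IsIntegral ℤ (((x : F) - (cj x : 𝓞 F)) / k) := by
    refine IsIntegral.of_pow (n := 2) (by norm_num) ?_
    rw [hsq]
    have h1 : (-(d : F)) = algebraMap ℤ F (-(d : ℤ)) := by simp
    rw [h1]
    exact isIntegral_algebraMap
  refine ⟨⟨((x : F) - (cj x : 𝓞 F)) / k, hint⟩, d, ⟨?_, hd, hd0⟩⟩
  apply RingOfIntegers.ext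
  push_cast
  exact hsq

/-- Chunk CL1 (S). (cj θ)^2 = θ^2; cj θ = θ would make θ a rational integer with negative square (int_of_cj). -/
theorem th_cj (h : TH θ d) : cj θ = -θ := by
  have h1 : (cj θ) ^ 2 = θ ^ 2 := by
    rw [← map_pow, h.sq, map_neg, H55K.cj_nat]
  rcases sq_eq_sq_iff_eq_or_eq_neg.1 h1 with h2 | h2
  · exfalso
    obtain ⟨n, hn⟩ := int_of_cj h2
    have h3 := h.sq
    rw [hn] at h3
    have h4 : n ^ 2 = -(d : ℤ) := by
      apply Int.cast_injective (α := 𝓞 F)
      push_cast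
      exact h3
    have h5 := h.pos
    nlinarith [sq_nonneg n]
  · exact h2

end H55W
end

-- from Lib.H55C.A18
section

open NumberField IsDedekindDomain

namespace H55C

open H55B

/-! Chunk A18 (L): Selmer elements satisfy Cond. m in Sel K, m' = phi m in N. ne: m is a unit. norm: Algebra.norm K m = m' T(m') T(T m')
(N/K is Galois with group {1, T, T^2}; or compute the norm of a + b theta + c theta^2: a^3 + 2b^3 + 4c^3 - 6abc, both sides)
and it is a nonzero square. Let P be a prime of N, w the prime below, iota from A17. LocIm at w: x, y in K_w,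
Y = 2y + 1 <> 0, Y^2 = 4x^3 + 1, and b in Cub K_w with m(2(2x + T)) = b^2. Apply the ring hom
Cub K_w -> N_P (iota on K_w, root -> theta; AdjoinRoot.lift): m' * 2(2 iota(x) + theta) = b'^2 in N_P. Now apply loc1, loc2, loc3 to
the fields K_w, N_P with the algebra structure iota and v = Valued.v (r = image of om): K_w has v(z) < 1 ->
v(z) <= v(2) = exp(-1) (val_two) at primes above 2, and similarly with om - 1 above 3 (val_lam), raised to the power e.
even: v(m') = v(b')^2 / v(2(2x + theta)). two: 2(2x + theta) = b''^2 (1 + small), so m' = (b'/b'')^2 (1 + small)^(-1); approximate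
b'/b'' by an element of N (exists_approx, relative error <= v(theta^2)). -/

variable {K M L N : Type} [Field K] [NumberField K] [Algebra F K] [Field M] [NumberField M]
  [Algebra F M] [Field L] [NumberField L] [Algebra L M] [Field N] [NumberField N] [Algebra K N]
  [Algebra M N] {θ : M} {t : L} {τ σ : M ≃+* M} {T : N ≃+* N} {act : (K ≃ₐ[F] K) → (N ≃+* N)}

/-! ### valuations -/

theorem A18_lt_one {x : WithZero (Multiplicative ℤ)} (h : x < 1) : x ≤ WithZero.exp (-1 : ℤ) := by
  rcases eq_or_ne x 0 with rfl | hx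
  · exact zero_le
  · have h1 : WithZero.log x < WithZero.log (1 : WithZero (Multiplicative ℤ)) :=
      (WithZero.log_lt_log hx one_ne_zero).2 h
    rw [WithZero.log_one] at h1
    rw [← WithZero.log_le_iff_le_exp hx]
    omega

section U

variable {N' : Type} [Field N'] (v : Valuation N' (WithZero (Multiplicative ℤ)))

theorem A18_v_one {ρ : WithZero (Multiplicative ℤ)} (hρ : ρ < 1) {a : N'} (ha : v (a - 1) ≤ ρ) :
    v a = 1 := by
  have h3 : v (a - 1) < v 1 := by
    rw [map_one]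
    exact lt_of_le_of_lt ha hρ
  rw [Valuation.map_eq_of_sub_lt v h3, map_one]

theorem A18_U_mul {ρ : WithZero (Multiplicative ℤ)} (hρ : ρ < 1) {a b : N'} (ha : v (a - 1) ≤ ρ)
    (hb : v (b - 1) ≤ ρ) : v (a * b - 1) ≤ ρ := by
  have h1 : a * b - 1 = (a - 1) * b + (b - 1) := by ring
  rw [h1]
  refine (Valuation.map_add v _ _).trans (max_le ?_ hb)
  rw [map_mul, A18_v_one v hρ hb, mul_one]
  exact ha

theorem A18_U_inv {ρ : WithZero (Multiplicative ℤ)} (hρ : ρ < 1) {a : N'} (ha : v (a - 1) ≤ ρ) :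
    v (a⁻¹ - 1) ≤ ρ := by
  have hva := A18_v_one v hρ ha
  have ha0 : a ≠ 0 := by
    rintro rfl
    rw [map_zero] at hva
    exact zero_ne_one hva
  have h1 : a⁻¹ - 1 = -((a - 1) * a⁻¹) := by
    field_simp
    ring
  rw [h1, Valuation.map_neg, map_mul, map_inv₀, hva, inv_one, mul_one]
  exact ha

theorem A18_exp {z : N'} (hz : z ≠ 0) : ∃ k : ℤ, v z = WithZero.exp k :=
  ⟨WithZero.log (v z), (WithZero.exp_log ((Valuation.ne_zero_iff v).2 hz)).symm⟩

theorem A18_even_of_two {ϑ m b : N'}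
    (hϑ : v ϑ < 1) (hb : b ≠ 0) (h : v (m / b ^ 2 - 1) ≤ v (ϑ ^ 2)) :
    ∃ k : ℤ, v m = WithZero.exp (2 * k) := by
  have h1 : v (ϑ ^ 2) < 1 := by
    rw [map_pow]
    exact pow_lt_one₀ zero_le hϑ two_ne_zero
  have h2 := A18_v_one v h1 h
  have hvb : v b ≠ 0 := (Valuation.ne_zero_iff v).2 hb
  rw [map_div₀, map_pow, div_eq_one_iff_eq (pow_ne_zero 2 hvb)] at h2
  refine ⟨WithZero.log (v b), ?_⟩
  rw [h2, two_mul, WithZero.exp_add, WithZero.exp_log hvb, pow_two]

theorem A18_val_theta {ϑ : N'} (hϑ : ϑ ^ 3 = 2) (h2 : v 2 < 1) : v ϑ < 1 := by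
  by_contra h
  push Not at h
  have h3 : 1 ≤ v ϑ ^ 3 := one_le_pow₀ h
  rw [← map_pow, hϑ] at h3
  exact absurd h2 (not_lt.2 h3)

theorem A18_even_of_mul {m g β : N'} (hm : m ≠ 0) (hg : g ≠ 0) (h : m * g = β ^ 2)
    (hk : ∃ k : ℤ, v g = WithZero.exp (2 * k)) : ∃ k : ℤ, v m = WithZero.exp (2 * k) := by
  obtain ⟨k, hk⟩ := hk
  have hβ : β ≠ 0 := by
    rintro rfl
    rw [zero_pow two_ne_zero] at h
    exact mul_ne_zero hm hg h
  obtain ⟨j, hj⟩ := A18_exp v hβ
  obtain ⟨i, hi⟩ := A18_exp v hm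
  have h1 := congrArg v h
  rw [map_mul, map_pow, hk, hj, hi, pow_two, ← WithZero.exp_add, ← WithZero.exp_add,
    WithZero.exp_inj] at h1
  refine ⟨j - k, ?_⟩
  rw [hi]
  congr 1
  omega

end U

theorem A18_val_lt {N : Type} [Field N] [NumberField N] (P : HeightOneSpectrum (𝓞 N)) (n : ℕ)
    [n.AtLeastTwo] : P.valuation N (OfNat.ofNat n : N) < 1 ↔ (OfNat.ofNat n : 𝓞 N) ∈ P.asIdeal := by
  have e : algebraMap (𝓞 N) N (OfNat.ofNat n) = OfNat.ofNat n := map_ofNat _ n
  have h : P.valuation N (algebraMap (𝓞 N) N (OfNat.ofNat n)) < 1 ↔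
      (OfNat.ofNat n : 𝓞 N) ∈ P.asIdeal :=
    HeightOneSpectrum.valuation_lt_one_iff_mem (K := N) P (OfNat.ofNat n)
  rwa [e] at h

theorem A18_val_eq {N : Type} [Field N] [NumberField N] (P : HeightOneSpectrum (𝓞 N)) (n : ℕ)
    [n.AtLeastTwo] (h : (OfNat.ofNat n : 𝓞 N) ∉ P.asIdeal) : P.valuation N (OfNat.ofNat n : N) = 1 := by
  have e : algebraMap (𝓞 N) N (OfNat.ofNat n) = OfNat.ofNat n := map_ofNat _ n
  have h1 : P.valuation N (algebraMap (𝓞 N) N (OfNat.ofNat n)) = 1 :=
    (HeightOneSpectrum.valuation_eq_one_iff_notMem (K := N) P).2 h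
  rwa [e] at h1

/-- the valuation of a numeral in the completion -/
theorem A18_valued_ofNat {N : Type} [Field N] [NumberField N] (P : HeightOneSpectrum (𝓞 N)) (n : ℕ)
    [n.AtLeastTwo] : Valued.v (OfNat.ofNat n : P.adicCompletion N) = P.valuation N (OfNat.ofNat n : N) := by
  have h := valued_alg N P (OfNat.ofNat n)
  rwa [map_ofNat (algebraMap N (P.adicCompletion N))] at h

/-! ### the norm -/

theorem A18_om (K : Type) [Field K] [NumberField K] [Algebra F K] :
    algebraMap O K om ^ 2 + algebraMap O K om + 1 = 0 := by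
  have h := congrArg (algebraMap O K) om_rel
  rwa [map_add, map_add, map_pow, map_one, map_zero] at h

theorem A18_root (K : Type) [Field K] : (AdjoinRoot.root (Polynomial.X ^ 3 - Polynomial.C 2 : Polynomial K)) ^ 3 = 2 := by
  have h := AdjoinRoot.eval₂_root (Polynomial.X ^ 3 - Polynomial.C 2 : Polynomial K)
  rw [Polynomial.eval₂_sub, Polynomial.eval₂_pow, Polynomial.eval₂_X, Polynomial.eval₂_C,
    map_ofNat, sub_eq_zero] at h
  exact h

/-- the norm of an element of the cubic algebra -/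
theorem A18_norm (K : Type) [Field K] (a b c : K) :
    Algebra.norm K (AdjoinRoot.of _ a + AdjoinRoot.of _ b * AdjoinRoot.root _ +
      AdjoinRoot.of _ c * AdjoinRoot.root _ ^ 2 : Cub K) =
      a ^ 3 + 2 * b ^ 3 + 4 * c ^ 3 - 6 * a * b * c := by
  have hf : (Polynomial.X ^ 3 - Polynomial.C 2 : Polynomial K).Monic :=
    Polynomial.monic_X_pow_sub_C 2 three_ne_zero
  have hd : (AdjoinRoot.powerBasis' hf).dim = 3 := by
    rw [AdjoinRoot.powerBasis'_dim, Polynomial.natDegree_X_pow_sub_C]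
  set B : Module.Basis (Fin 3) K (Cub K) := (AdjoinRoot.powerBasis' hf).basis.reindex (finCongr hd)
    with hB
  have hBi : ∀ i : Fin 3, B i = AdjoinRoot.root _ ^ (i : ℕ) := by
    intro i
    rw [hB, Module.Basis.reindex_apply, PowerBasis.basis_eq_pow, AdjoinRoot.powerBasis'_gen]
    rfl
  have hroot := A18_root K
  have h2 : AdjoinRoot.of (Polynomial.X ^ 3 - Polynomial.C 2 : Polynomial K) 2 = 2 := map_ofNat _ 2
  set m : Cub K := AdjoinRoot.of _ a + AdjoinRoot.of _ b * AdjoinRoot.root _ +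
      AdjoinRoot.of _ c * AdjoinRoot.root _ ^ 2 with hm
  set D : Matrix (Fin 3) (Fin 3) K := !![a, 2 * c, 2 * b; b, a, 2 * c; c, b, a] with hD
  have hM : Algebra.leftMulMatrix B m = D := by
    ext i j
    rw [Algebra.leftMulMatrix_eq_repr_mul]
    have h1 : m * B j = ∑ i, D i j • B i := by
      rw [Fin.sum_univ_three, hBi, hBi, hBi, hBi]
      simp only [Algebra.smul_def, AdjoinRoot.algebraMap_eq]
      fin_cases j
      · simp [hD, hm]
      · simp [hD, hm]
        linear_combination (AdjoinRoot.of _ c) * hroot - (AdjoinRoot.of _ c) * h2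
      · simp [hD, hm]
        linear_combination (AdjoinRoot.of _ b + AdjoinRoot.of _ c * AdjoinRoot.root _) * hroot -
          (AdjoinRoot.of _ b + AdjoinRoot.of _ c * AdjoinRoot.root _) * h2
    rw [h1]
    exact congrFun (B.repr_sum_self (fun i => D i j)) i
  rw [Algebra.norm_eq_matrix_det B, hM, Matrix.det_fin_three]
  simp [hD]
  ring

theorem A18_cube (C : Comp K M L N θ t τ σ T act) : algebraMap M N θ ^ 3 = 2 := by
  rw [← map_pow, C.sex.cube, map_ofNat]

theorem A18_norm_T (C : Comp K M L N θ t τ σ T act) (a b c : K) :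
    (algebraMap K N a + algebraMap K N b * algebraMap M N θ +
      algebraMap K N c * algebraMap M N θ ^ 2) *
    T (algebraMap K N a + algebraMap K N b * algebraMap M N θ +
      algebraMap K N c * algebraMap M N θ ^ 2) *
    T (T (algebraMap K N a + algebraMap K N b * algebraMap M N θ +
      algebraMap K N c * algebraMap M N θ ^ 2)) =
    algebraMap K N (a ^ 3 + 2 * b ^ 3 + 4 * c ^ 3 - 6 * a * b * c) := by
  have hr : algebraMap K N (algebraMap O K om) ^ 2 + algebraMap K N (algebraMap O K om) + 1 = 0 := by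
    have h := congrArg (algebraMap K N) (A18_om K)
    rwa [map_add, map_add, map_pow, map_one, map_zero] at h
  have hcube := A18_cube C
  have hT := T_theta C
  simp only [map_add, map_mul, map_pow, map_sub, map_ofNat, C.T_K, hT]
  generalize algebraMap K N a = a' at *
  generalize algebraMap K N b = b' at *
  generalize algebraMap K N c = c' at *
  generalize algebraMap K N (algebraMap O K om) = r at *
  generalize algebraMap M N θ = u at *
  have h3 : r ^ 3 = 1 := by linear_combination (r - 1) * hr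
  have key : (a' + b' * u + c' * u ^ 2) * (a' + b' * (r * u) + c' * (r * u) ^ 2) *
      (a' + b' * (r * (r * u)) + c' * (r * (r * u)) ^ 2) =
      a' ^ 3 + b' ^ 3 * u ^ 3 + c' ^ 3 * (u ^ 3) ^ 2 - 3 * a' * b' * c' * u ^ 3 := by
    linear_combination (a' + b' * u + c' * u ^ 2) * ((b' * u) ^ 2 +
      (a' * (c' * u ^ 2) + b' * u * (c' * u ^ 2)) * r + b' * u * (c' * u ^ 2) * r ^ 2 +
      (c' * u ^ 2) ^ 2 * (r ^ 3 + 1)) * h3 + (a' + b' * u + c' * u ^ 2) *
      (a' * (b' * u) + a' * (c' * u ^ 2) + b' * u * (c' * u ^ 2)) * hr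
  rw [key, hcube]
  ring

/-- elements of the cubic algebra -/
theorem A18_repr (C : Comp K M L N θ t τ σ T act) (φ : Cub K ≃+* N)
    (hφ : ∀ x : K, φ (AdjoinRoot.of _ x) = algebraMap K N x)
    (hφr : φ (AdjoinRoot.root _) = algebraMap M N θ) (m : Cub K) :
    ∃ a b c : K, m = AdjoinRoot.of _ a + AdjoinRoot.of _ b * AdjoinRoot.root _ +
      AdjoinRoot.of _ c * AdjoinRoot.root _ ^ 2 ∧
      φ m = algebraMap K N a + algebraMap K N b * algebraMap M N θ +
        algebraMap K N c * algebraMap M N θ ^ 2 := by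
  obtain ⟨a, b, c, h⟩ := C.span (φ m)
  refine ⟨a, b, c, ?_, h⟩
  apply φ.injective
  rw [h, map_add, map_add, map_mul, map_mul, map_pow, hφ, hφ, hφ, hφr]

theorem A18_loc (C : Comp K M L N θ t τ σ T act) (φ : Cub K ≃+* N)
    (hφ : ∀ x : K, φ (AdjoinRoot.of _ x) = algebraMap K N x)
    (hφr : φ (AdjoinRoot.root _) = algebraMap M N θ) (m : Cub K) (hm : m ∈ Sel K)
    (P : HeightOneSpectrum (𝓞 N)) :
    ∃ (w : HeightOneSpectrum (𝓞 K)) (ι : w.adicCompletion K →+* P.adicCompletion N) (e : ℕ),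
      w.asIdeal = P.asIdeal.under (𝓞 K) ∧ 0 < e ∧
      (∀ x : K, ι (algebraMap K _ x) = algebraMap N _ (algebraMap K N x)) ∧
      (∀ z : w.adicCompletion K, Valued.v (ι z) = Valued.v z ^ e) ∧
      ∃ (x Y : w.adicCompletion K) (β : P.adicCompletion N), Y ^ 2 = 4 * x ^ 3 + 1 ∧ Y ≠ 0 ∧
        algebraMap N (P.adicCompletion N) (φ m) *
          (2 * (2 * ι x + algebraMap N (P.adicCompletion N) (algebraMap M N θ))) = β ^ 2 := by
  let w : HeightOneSpectrum (𝓞 K) :=
    ⟨P.asIdeal.under (𝓞 K), P.isPrime.under (𝓞 K), Ideal.IsIntegral.comap_ne_bot _ P.ne_bot⟩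
  obtain ⟨ι, e, he, hι, hv⟩ := exists_iota K N P w rfl
  obtain ⟨x, y, hxy, hY0, b, hb⟩ := hm.2.2 w
  have hcube : algebraMap N (P.adicCompletion N) (algebraMap M N θ) ^ 3 = 2 := by
    rw [← map_pow, A18_cube C, map_ofNat]
  let ψ : Cub (w.adicCompletion K) →+* P.adicCompletion N :=
    AdjoinRoot.lift ι (algebraMap N (P.adicCompletion N) (algebraMap M N θ)) (by
      rw [Polynomial.eval₂_sub, Polynomial.eval₂_pow, Polynomial.eval₂_X, Polynomial.eval₂_C,
        map_ofNat, hcube, sub_self])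
  have hψo : ∀ z : w.adicCompletion K, ψ (AdjoinRoot.of _ z) = ι z := fun z => AdjoinRoot.lift_of _
  have hψr : ψ (AdjoinRoot.root _) = algebraMap N (P.adicCompletion N) (algebraMap M N θ) :=
    AdjoinRoot.lift_root _
  refine ⟨w, ι, e, rfl, he, hι, hv, x, 2 * y + 1, ψ b, by linear_combination 4 * hxy, hY0, ?_⟩
  obtain ⟨a', b', c', hm1, hm2⟩ := A18_repr C φ hφ hφr m
  have h1 : ψ (cmap (algebraMap K (w.adicCompletion K)) m) =
      algebraMap N (P.adicCompletion N) (φ m) := by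
    have hco : ∀ z : K, cmap (algebraMap K (w.adicCompletion K)) (AdjoinRoot.of _ z) =
        AdjoinRoot.of _ (algebraMap K (w.adicCompletion K) z) := fun z => AdjoinRoot.map_of _ _ _ _ z
    have hcr : cmap (algebraMap K (w.adicCompletion K)) (AdjoinRoot.root _) =
        AdjoinRoot.root _ := AdjoinRoot.map_root _ _ _ _
    rw [hm2, hm1]
    simp only [map_add, map_mul, map_pow, hco, hcr, hψo, hψr, hι]
  have h2 := congrArg ψ hb
  rw [map_mul, h1, map_pow] at h2
  simp only [map_add, map_mul, map_ofNat, hψo, hψr] at h2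
  exact h2

theorem A18_under (P : HeightOneSpectrum (𝓞 N)) (w : HeightOneSpectrum (𝓞 K))
    (hw : w.asIdeal = P.asIdeal.under (𝓞 K)) (n : ℕ) [n.AtLeastTwo]
    (h : (OfNat.ofNat n : 𝓞 N) ∈ P.asIdeal) : (OfNat.ofNat n : 𝓞 K) ∈ w.asIdeal := by
  rw [hw]
  change (OfNat.ofNat n : 𝓞 K) ∈ Ideal.comap (algebraMap (𝓞 K) (𝓞 N)) P.asIdeal
  rw [Ideal.mem_comap, map_ofNat]
  exact h

/-- values smaller than one are at most the e-th power of the value of a uniformizer -/
theorem A18_le {e : ℕ} (he : 0 < e) {z u : WithZero (Multiplicative ℤ)} (hu : u = WithZero.exp (-1 : ℤ))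
    (hz : z ^ e < 1) : z ^ e ≤ u ^ e := by
  have h1 : z < 1 := by
    by_contra h
    push Not at h
    exact absurd hz (not_lt.2 (one_le_pow₀ h))
  exact pow_le_pow_left₀ zero_le ((A18_lt_one h1).trans (le_of_eq hu.symm)) e

theorem sel_cond (C : Comp K M L N θ t τ σ T act) (hU : UnrOut K) (φ : Cub K ≃+* N)
    (hφ : ∀ x : K, φ (AdjoinRoot.of _ x) = algebraMap K N x)
    (hφr : φ (AdjoinRoot.root _) = algebraMap M N θ) (m : Cub K) (hm : m ∈ Sel K) :
    Cond K N (algebraMap M N θ) T (φ m) := by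
  have hcube := A18_cube C
  have hne : φ m ≠ 0 := (hm.1.map φ).ne_zero
  have htwo : ∀ P : HeightOneSpectrum (𝓞 N), (2 : 𝓞 N) ∈ P.asIdeal →
      ∃ b : N, b ≠ 0 ∧ P.valuation N (φ m / b ^ 2 - 1) ≤ P.valuation N (algebraMap M N θ ^ 2) := by
    intro P h2P
    obtain ⟨w, ι, e, hw, he, hι, hv, x, Y, β, hY, hY0, hβ⟩ := A18_loc C φ hφ hφr m hm P
    have hw2 : w.valuation K (2 : K) = WithZero.exp (-1 : ℤ) :=
      val_two hU w (A18_under P w hw 2 h2P)
    have hcubeP : algebraMap N (P.adicCompletion N) (algebraMap M N θ) ^ 3 = 2 := by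
      rw [← map_pow, hcube, map_ofNat]
    have hv2 : Valued.v (2 : P.adicCompletion N) < 1 := by
      rw [A18_valued_ofNat P 2]
      exact (A18_val_lt P 2).2 h2P
    have hv20 : Valued.v (2 : P.adicCompletion N) ≠ 0 := by
      rw [A18_valued_ofNat P 2]
      exact (Valuation.ne_zero_iff _).2 two_ne_zero
    have hK : ∀ z : w.adicCompletion K, Valued.v (ι z) < 1 →
        Valued.v (ι z) ≤ Valued.v (2 : P.adicCompletion N) := by
      intro z hz
      have e1 : Valued.v (2 : P.adicCompletion N) = Valued.v (2 : w.adicCompletion K) ^ e := by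
        have e2 : ι (2 : w.adicCompletion K) = 2 := map_ofNat ι 2
        rw [← hv, e2]
      rw [e1, hv]
      rw [hv] at hz
      exact A18_le he ((A18_valued_ofNat w 2).trans hw2) hz
    obtain ⟨b₂, hb0, hb2⟩ := @loc2 (w.adicCompletion K) (P.adicCompletion N) _ _ ι.toAlgebra
      Valued.v (algebraMap N (P.adicCompletion N) (algebraMap M N θ)) hcubeP hv20 hv2 hK x Y hY hY0
    change Valued.v (2 * (2 * ι x + algebraMap N (P.adicCompletion N) (algebraMap M N θ)) / b₂ ^ 2 - 1) ≤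
      Valued.v (algebraMap N (P.adicCompletion N) (algebraMap M N θ) ^ 2) at hb2
    set g : P.adicCompletion N :=
      2 * (2 * ι x + algebraMap N (P.adicCompletion N) (algebraMap M N θ)) with hg
    set ρ := Valued.v (algebraMap N (P.adicCompletion N) (algebraMap M N θ) ^ 2) with hρ
    have hρ1 : ρ < 1 := by
      rw [hρ, map_pow]
      exact pow_lt_one₀ zero_le (A18_val_theta Valued.v hcubeP hv2) two_ne_zero
    have hθ0 : algebraMap N (P.adicCompletion N) (algebraMap M N θ) ≠ 0 := by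
      intro h0
      rw [h0] at hcubeP
      have : (2 : P.adicCompletion N) = 0 := by rw [← hcubeP]; ring
      rw [this, map_zero] at hv20
      exact hv20 rfl
    have hρ0 : ρ ≠ 0 := (Valuation.ne_zero_iff _).2 (pow_ne_zero 2 hθ0)
    have hg1 := A18_v_one Valued.v hρ1 hb2
    have hg0 : g ≠ 0 := by
      intro h0
      rw [h0, zero_div, map_zero] at hg1
      exact zero_ne_one hg1
    have hm0 : algebraMap N (P.adicCompletion N) (φ m) ≠ 0 := by
      rw [Ne, map_eq_zero]
      exact hne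
    have hβ0 : β ≠ 0 := by
      intro h0
      rw [h0, zero_pow two_ne_zero] at hβ
      exact mul_ne_zero hm0 hg0 hβ
    have hc0 : β / b₂ ≠ 0 := div_ne_zero hβ0 hb0
    have hvc : Valued.v (β / b₂) ≠ 0 := (Valuation.ne_zero_iff _).2 hc0
    obtain ⟨b, hb⟩ := exists_approx N P (β / b₂) (Valued.v (β / b₂) * ρ) (mul_ne_zero hvc hρ0)
    have hu2 : Valued.v (algebraMap N (P.adicCompletion N) b / (β / b₂) - 1) ≤ ρ := by
      have e1 : algebraMap N (P.adicCompletion N) b / (β / b₂) - 1 =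
          -((β / b₂ - algebraMap N (P.adicCompletion N) b) / (β / b₂)) := by
        rw [sub_div, div_self hc0]
        ring
      rw [e1, Valuation.map_neg, map_div₀]
      rw [div_le_iff₀ (zero_lt_iff.2 hvc), mul_comm]
      exact hb.le
    have hu21 := A18_v_one Valued.v hρ1 hu2
    have hbP0 : algebraMap N (P.adicCompletion N) b ≠ 0 := by
      intro h0
      rw [h0, zero_div, map_zero] at hu21
      exact zero_ne_one hu21
    have hb0' : b ≠ 0 := by
      rintro rfl
      exact hbP0 (map_zero _)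
    refine ⟨b, hb0', ?_⟩
    have hfin : Valued.v (algebraMap N (P.adicCompletion N) (φ m) /
        algebraMap N (P.adicCompletion N) b ^ 2 - 1) ≤ ρ := by
      have e1 : algebraMap N (P.adicCompletion N) (φ m) / algebraMap N (P.adicCompletion N) b ^ 2 =
          (g / b₂ ^ 2)⁻¹ * ((algebraMap N (P.adicCompletion N) b / (β / b₂))⁻¹ *
            (algebraMap N (P.adicCompletion N) b / (β / b₂))⁻¹) := by
        have e2 : algebraMap N (P.adicCompletion N) (φ m) = β ^ 2 / g := by
          rw [eq_div_iff hg0]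
          exact hβ
        rw [e2]
        field_simp
      rw [e1]
      exact A18_U_mul Valued.v hρ1 (A18_U_inv Valued.v hρ1 hb2)
        (A18_U_mul Valued.v hρ1 (A18_U_inv Valued.v hρ1 hu2) (A18_U_inv Valued.v hρ1 hu2))
    rw [← valued_alg, ← valued_alg, map_sub, map_div₀, map_pow, map_pow, map_one]
    exact hfin
  refine ⟨hne, ?_, ?_, htwo⟩
  · obtain ⟨n, hn⟩ := hm.2.1
    obtain ⟨a, b, c, hm1, hm2⟩ := A18_repr C φ hφ hφr m
    have h1 : φ m * T (φ m) * T (T (φ m)) = algebraMap K N n ^ 2 := by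
      rw [hm2, A18_norm_T C, ← map_pow, ← hn, hm1, A18_norm]
    refine ⟨n, ?_, h1⟩
    rintro rfl
    rw [map_zero, zero_pow two_ne_zero] at h1
    have h2 : T (φ m) ≠ 0 := by
      rw [Ne, map_eq_zero_iff T T.injective]
      exact hne
    have h3 : T (T (φ m)) ≠ 0 := by
      rw [Ne, map_eq_zero_iff T T.injective]
      exact h2
    exact mul_ne_zero (mul_ne_zero hne h2) h3 h1
  · intro P
    by_cases h2P : (2 : 𝓞 N) ∈ P.asIdeal
    · obtain ⟨b, hb0, hb⟩ := htwo P h2P
      exact A18_even_of_two (P.valuation N)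
        (A18_val_theta (P.valuation N) hcube ((A18_val_lt P 2).2 h2P)) hb0 hb
    · obtain ⟨w, ι, e, hw, he, hι, hv, x, Y, β, hY, hY0, hβ⟩ := A18_loc C φ hφ hφr m hm P
      have hcubeP : algebraMap N (P.adicCompletion N) (algebraMap M N θ) ^ 3 = 2 := by
        rw [← map_pow, hcube, map_ofNat]
      have hr : algebraMap K (w.adicCompletion K) (algebraMap O K om) ^ 2 +
          algebraMap K (w.adicCompletion K) (algebraMap O K om) + 1 = 0 := by
        have h := congrArg (algebraMap K (w.adicCompletion K)) (A18_om K)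
        rwa [map_add, map_add, map_pow, map_one, map_zero] at h
      have hgex : ∃ k : ℤ, Valued.v (2 * (2 * ι x +
          algebraMap N (P.adicCompletion N) (algebraMap M N θ))) = WithZero.exp (2 * k) := by
        by_cases h3P : (3 : 𝓞 N) ∈ P.asIdeal
        · have hw3 : w.valuation K (algebraMap O K (om - 1)) = WithZero.exp (-1 : ℤ) :=
            val_lam hU w (A18_under P w hw 3 h3P)
          have hv3 : Valued.v (3 : P.adicCompletion N) < 1 := by
            rw [A18_valued_ofNat P 3]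
            exact (A18_val_lt P 3).2 h3P
          have hv30 : Valued.v (3 : P.adicCompletion N) ≠ 0 := by
            rw [A18_valued_ofNat P 3]
            exact (Valuation.ne_zero_iff _).2 three_ne_zero
          have hK : ∀ z : w.adicCompletion K, Valued.v (ι z) < 1 →
              Valued.v (ι z) ≤
                Valued.v (ι (algebraMap K (w.adicCompletion K) (algebraMap O K om) - 1)) := by
            intro z hz
            rw [hv, hv]
            rw [hv] at hz
            refine A18_le he ?_ hz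
            have e1 : algebraMap K (w.adicCompletion K) (algebraMap O K om) - 1 =
                algebraMap K (w.adicCompletion K) (algebraMap O K (om - 1)) := by
              rw [map_sub, map_sub, map_one, map_one]
            rw [e1, valued_alg, hw3]
          exact @loc3 (w.adicCompletion K) (P.adicCompletion N) _ _ ι.toAlgebra
            Valued.v _ hr (algebraMap N (P.adicCompletion N) (algebraMap M N θ)) hcubeP hv30 hv3
            hK x Y hY hY0
        · have hv2 : Valued.v (2 : P.adicCompletion N) = 1 := by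
            rw [A18_valued_ofNat P 2]
            exact A18_val_eq P 2 h2P
          have hv3 : Valued.v (3 : P.adicCompletion N) = 1 := by
            rw [A18_valued_ofNat P 3]
            exact A18_val_eq P 3 h3P
          exact @loc1 (w.adicCompletion K) (P.adicCompletion N) _ _ ι.toAlgebra
            Valued.v _ hr (algebraMap N (P.adicCompletion N) (algebraMap M N θ)) hcubeP hv2 hv3
            x Y hY hY0
      have hm0 : algebraMap N (P.adicCompletion N) (φ m) ≠ 0 := by
        rw [Ne, map_eq_zero]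
        exact hne
      have hg0 : 2 * (2 * ι x + algebraMap N (P.adicCompletion N) (algebraMap M N θ)) ≠ 0 := by
        obtain ⟨k, hk⟩ := hgex
        intro h0
        rw [h0, map_zero] at hk
        exact WithZero.exp_ne_zero hk.symm
      rw [← valued_alg]
      exact A18_even_of_mul Valued.v hm0 hg0 hβ hgex

end H55C
end

-- from Lib.H28T.Gen
section

/-! # H28T: general facts -/

open NumberField IsDedekindDomain

namespace H28T

open H28R
open H55P H55R

variable {F : Type} [Field F] [NumberField F]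

theorem ge_unr_base (w : HeightOneSpectrum (𝓞 F)) : w.asIdeal.ramificationIdx (𝓞 F) = 1 := by
  have hp := w.isPrime
  exact Ideal.ramificationIdx_eq_one w.asIdeal (𝓞 F)

theorem ge_card (L : Type) [Field L] [NumberField L] [Algebra F L] (hG : IsGalois F L)
    (w : HeightOneSpectrum (𝓞 L)) :
    Nat.card (w.asIdeal.inertia (L ≃ₐ[F] L)) = w.asIdeal.ramificationIdx (𝓞 F) := by
  have hwm := w.isMaximal
  have hwp := w.isPrime
  have hl : w.asIdeal.LiesOver (w.asIdeal.under (𝓞 F)) := ⟨rfl⟩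
  have hum : (w.asIdeal.under (𝓞 F)).IsMaximal := Ideal.IsMaximal.under _ _
  have hub : w.asIdeal.under (𝓞 F) ≠ ⊥ := Ideal.IsIntegral.comap_ne_bot _ w.ne_bot
  have hfin : Finite (𝓞 F ⧸ w.asIdeal.under (𝓞 F)) :=
    Ideal.finiteQuotientOfFreeOfNeBot _ hub
  rw [Ideal.card_inertia_eq_ramificationIdxIn (G := L ≃ₐ[F] L)
      (w.asIdeal.under (𝓞 F)) w.asIdeal,
      Ideal.ramificationIdxIn_eq_ramificationIdx (w.asIdeal.under (𝓞 F)) w.asIdeal (L ≃ₐ[F] L)]

section

variable {K : Type} [Field K] [NumberField K] [Algebra F K]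

omit [NumberField F] [NumberField K] [Algebra F K] in
theorem ge_prim {M : ℕ} (hM : 0 < M) {s : K} (hs : s ^ M = 1) :
    0 < orderOf s ∧ IsPrimitiveRoot s (orderOf s) :=
  ⟨(isOfFinOrder_iff_pow_eq_one.2 ⟨M, hM, hs⟩).orderOf_pos, IsPrimitiveRoot.orderOf s⟩

omit [NumberField F] [NumberField K] in
/-- a conjugate of a root of unity is a power of it -/
theorem ge_pow {M : ℕ} (hM : 0 < M) {s : K} (hs : s ^ M = 1) (g : K ≃ₐ[F] K) :
    ∃ i : ℕ, g s = s ^ i := by
  obtain ⟨hd, hprim⟩ := ge_prim hM hs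
  have : NeZero (orderOf s) := ⟨hd.ne'⟩
  obtain ⟨i, -, hi⟩ := hprim.eq_pow_of_pow_eq_one (ξ := g s) (by
    rw [← map_pow, pow_orderOf_eq_one, map_one])
  exact ⟨i, hi.symm⟩

omit [NumberField F] [NumberField K] in
open Polynomial in
theorem ge_splits {M : ℕ} (hM : 0 < M) {s : K} (hs : s ^ M = 1) :
    ((minpoly F s).map (algebraMap F K)).Splits := by
  obtain ⟨hd, hprim⟩ := ge_prim hM hs
  have h1 : minpoly F s ∣ X ^ (orderOf s) - 1 := by
    refine minpoly.dvd F s ?_
    rw [map_sub, map_pow, aeval_X, map_one, pow_orderOf_eq_one, sub_self]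
  have h2 : (X ^ (orderOf s) - 1 : F[X]).map (algebraMap F K) = X ^ (orderOf s) - 1 := by
    rw [Polynomial.map_sub, Polynomial.map_pow, map_X, Polynomial.map_one]
  have h3 : (minpoly F s).map (algebraMap F K) ∣ X ^ (orderOf s) - 1 := by
    rw [← h2]
    exact Polynomial.map_dvd _ h1
  exact (X_pow_sub_one_splits hprim).of_dvd (X_pow_sub_C_ne_zero hd 1) h3

theorem ge_galois (M : ℕ) (hM : 0 < M) (S : Set K) (hS : ∀ s ∈ S, s ^ M = 1)
    (hgen : Algebra.adjoin F S = ⊤) : IsGalois F K ∧ ∀ g h : K ≃ₐ[F] K, g * h = h * g := by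
  have : IsScalarTower ℚ F K := IsScalarTower.of_algebraMap_eq' (Subsingleton.elim _ _)
  have : FiniteDimensional F K := Module.Finite.of_restrictScalars_finite ℚ F K
  constructor
  · have hint : ∀ x : K, IsIntegral F x := fun x => Algebra.IsIntegral.isIntegral x
    have htop : ∀ x : K, x ∈ IntermediateField.adjoin F S := by
      intro x
      have h1 : x ∈ Algebra.adjoin F S := hgen ▸ Algebra.mem_top
      exact IntermediateField.algebra_adjoin_le_adjoin F S h1
    have hsp : ∀ s ∈ S, ((minpoly F s).map (algebraMap F K)).Splits := fun s hs => ge_splits hM (hS s hs)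
    have hn : Normal F K := normal_iff.mpr fun x =>
      ⟨hint x, IntermediateField.splits_of_mem_adjoin F K (L := K) (S := S)
        (fun s hs => ⟨hint s, hsp s hs⟩) (htop x)⟩
    exact ⟨⟩
  · intro g h
    have h1 : ((g * h : K ≃ₐ[F] K) : K →ₐ[F] K) = ((h * g : K ≃ₐ[F] K) : K →ₐ[F] K) := by
      refine AlgHom.ext_of_adjoin_eq_top hgen fun s hs => ?_
      show g (h s) = h (g s)
      obtain ⟨i, hi⟩ := ge_pow hM (hS s hs) g
      obtain ⟨j, hj⟩ := ge_pow hM (hS s hs) h
      rw [hi, hj, map_pow, map_pow, hi, hj, ← pow_mul, ← pow_mul, mul_comm]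
    ext x
    exact congrArg (fun f : K →ₐ[F] K => f x) h1

end

end H28T
end

-- from Lib.H28T.A2
section

open NumberField IsDedekindDomain

namespace H28T

open H28R
open H55P H55R

variable {F : Type} [Field F] [NumberField F] {G : HeightOneSpectrum (𝓞 F) → Prop}

/-! Chunk A2 (M): fields generated over F by m-th roots of unity. mu_gal: H13E.gen_galois (Gen: the first case). mu_unr: H13N.g2_card: the ramification index is the order of the inertia group {g : g y - y in W for all y in 𝓞 N}. Let g be in the inertia group and s in S, s^m = 1: s is integral (an element of 𝓞 N), g s = z s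
with z^m = 1, g s - s = (z - 1) s in W, s is a unit, so z - 1 in W. If z <> 1, then z is a root of 1 + x + ... + x^(m-1) (Finset.geom_sum / geom_sum_eq: (z - 1) * sum = z^m - 1 = 0), and modulo W this sum is m (z = 1 modulo W), so m in W: contradiction. So g s = s for s in S, g = 1 (Algebra.adjoin F S = ⊤, AlgHom.ext_of_adjoin_eq_top). -/

theorem mu_gal {N : Type} [Field N] [NumberField N] [Algebra F N] {m : ℕ} (hm : m ≠ 0) {S : Set N}
    (hS : ∀ s ∈ S, s ^ m = 1) (hgen : Algebra.adjoin F S = ⊤) :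
    IsGalois F N ∧ ∀ g h : N ≃ₐ[F] N, g * h = h * g :=
  ge_galois m (Nat.pos_of_ne_zero hm) S hS hgen

theorem A2_one {R : Type} [CommRing R] [IsDomain R] (W : Ideal R) {m : ℕ}
    (hW : (m : R) ∉ W) {z : R} (hz : z ^ m = 1) (h1 : z - 1 ∈ W) : z = 1 := by
  by_contra hne
  apply hW
  have h2 : (∑ i ∈ Finset.range m, z ^ i) * (z - 1) = 0 := by
    rw [geom_sum_mul, hz, sub_self]
  have h3 : ∑ i ∈ Finset.range m, z ^ i = 0 := (mul_eq_zero.1 h2).resolve_right (sub_ne_zero.2 hne)
  have h4 : (m : R) = -∑ i ∈ Finset.range m, (z ^ i - 1) := by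
    rw [Finset.sum_sub_distrib, h3]
    simp
  rw [h4]
  refine W.neg_mem (W.sum_mem fun i _ => ?_)
  obtain ⟨c, hc⟩ := sub_one_dvd_pow_sub_one z i
  rw [hc]
  exact W.mul_mem_right _ h1

theorem mu_unr {N : Type} [Field N] [NumberField N] [Algebra F N] {m : ℕ} (hm : m ≠ 0) {S : Set N}
    (hS : ∀ s ∈ S, s ^ m = 1) (hgen : Algebra.adjoin F S = ⊤) (W : HeightOneSpectrum (𝓞 N))
    (hW : (m : 𝓞 N) ∉ W.asIdeal) : W.asIdeal.ramificationIdx (𝓞 F) = 1 := by
  obtain ⟨hG, -⟩ := mu_gal hm hS hgen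
  rw [← ge_card N hG W, Subgroup.card_eq_one, Subgroup.eq_bot_iff_forall]
  intro g hg
  have hg' : ∀ y : 𝓞 N, g • y - y ∈ W.asIdeal := hg
  have hfix : ∀ s ∈ S, g s = s := by
    intro s hs
    have hint : IsIntegral ℤ s := IsIntegral.of_pow (Nat.pos_of_ne_zero hm) (by
      rw [hS s hs]
      exact isIntegral_one)
    let y : 𝓞 N := ⟨s, hint⟩
    have hy : y ^ m = 1 := by
      apply RingOfIntegers.coe_injective
      rw [map_pow, map_one]
      exact hS s hs
    have hgy : (g • y) ^ m = 1 := by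
      rw [← smul_pow', hy]
      exact smul_one g
    obtain ⟨k, rfl⟩ : ∃ k, m = k + 1 := ⟨m - 1, by omega⟩
    have hyk : y * y ^ k = 1 := by rw [← pow_succ']; exact hy
    have h1 : (g • y) * y ^ k = 1 := by
      refine A2_one W.asIdeal hW ?_ ?_
      · rw [mul_pow, hgy, one_mul, ← pow_mul, mul_comm, pow_mul, hy, one_pow]
      · have h2 : (g • y) * y ^ k - 1 = (g • y - y) * y ^ k := by
          rw [sub_mul, hyk]
        rw [h2]
        exact W.asIdeal.mul_mem_right _ (hg' y)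
    have h3 : g • y = y := by
      calc g • y = (g • y) * (y * y ^ k) := by rw [hyk, mul_one]
        _ = ((g • y) * y ^ k) * y := by ring
        _ = y := by rw [h1, one_mul]
    have h4 := congrArg (algebraMap (𝓞 N) N) h3
    exact h4
  have h5 : (g : N →ₐ[F] N) = AlgHom.id F N := AlgHom.ext_of_adjoin_eq_top hgen fun s hs => hfix s hs
  ext x
  exact DFunLike.congr_fun h5 x

end H28T
end

-- from Lib.H55C.Y10
section

open NumberField IsDedekindDomain

namespace H55C

open H55B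

/-! Chunk Y10: good primes of prime norm l = 1 mod 2^n, l > N (adapt H55B.X1.exists_noncube).
Let M be the product of all odd primes p <= N + 3, x = M om, y = x^(2^n) + 1. M is odd, 3 | M, so y = 1 mod 3 (Prim) and
x = om mod 2, y = 1 + om^(2^n) = 1 + om or 1 + om^2 mod 2 (2^n is 1 or 2 mod 3), which is not 0 and not 1 mod 2.
By X1_ind there is v not above 3 with y in v and 2 not dividing gen v - 1. v is not above 2 (2 in v would give v = (2) and 2 | y)
so v is Good by even_norm. By prime_types v has prime norm l, or v = (q) with a prime q = 2 mod 3; in the second case q is odd,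
and gen v = -q (both primary and associated: Prim.eq_of_associated), so 2 | gen v - 1, contradiction. So l = Nm (gen v)
(absNorm_gen) is prime. l > N: otherwise l is an odd prime <= N, l | M, l in v (the norm is in the ideal: mul_cj), so x in v and
y = 1 mod v. In the field O/v of l elements x^(2^n) = -1 and -1 is not 1, so x has order 2^(n+1) and 2^(n+1) divides l - 1. -/
theorem Y10_one {v : HeightOneSpectrum O} (h : (1 : O) ∈ v.asIdeal) : False :=
  v.isPrime.ne_top ((Ideal.eq_top_iff_one _).2 h)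

theorem Y10_om_pow (n : ℕ) : om ^ (2 ^ n) = om ∨ om ^ (2 ^ n) = om ^ 2 := by
  induction n with
  | zero => left; rw [pow_zero, pow_one]
  | succ n ih =>
    rw [pow_succ, pow_mul]
    rcases ih with h | h
    · right; rw [h]
    · left
      rw [h]
      linear_combination (om ^ 2 - om) * om_rel

theorem Y10_order (v : HeightOneSpectrum O) (h2 : (2 : O) ∉ v.asIdeal) (x : O) (n : ℕ)
    (hx : x ^ (2 ^ n) + 1 ∈ v.asIdeal) : 2 ^ n ∣ Ideal.absNorm v.asIdeal - 1 := by
  have hmax : v.asIdeal.IsMaximal := v.isMaximal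
  letI : Field (O ⧸ v.asIdeal) := Ideal.Quotient.field v.asIdeal
  have hfin : Finite (O ⧸ v.asIdeal) := Ideal.finiteQuotientOfFreeOfNeBot v.asIdeal v.ne_bot
  have hcard : Nat.card (O ⧸ v.asIdeal) = Ideal.absNorm v.asIdeal := rfl
  set t : O ⧸ v.asIdeal := Ideal.Quotient.mk v.asIdeal x with ht
  have ht1 : t ^ (2 ^ n) = -1 := by
    have h1 := Ideal.Quotient.eq_zero_iff_mem.2 hx
    rw [map_add, map_pow, map_one] at h1
    exact eq_neg_of_add_eq_zero_left h1
  have h2' : (2 : O ⧸ v.asIdeal) ≠ 0 := by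
    intro h
    apply h2
    rw [← Ideal.Quotient.eq_zero_iff_mem, map_ofNat]
    exact h
  have hne : ¬ t ^ (2 ^ n) = 1 := by
    rw [ht1]
    intro h
    apply h2'
    linear_combination -h
  have h3 : t ^ (2 ^ (n + 1)) = 1 := by
    rw [pow_succ, pow_mul, ht1]; ring
  have hord : orderOf t = 2 ^ (n + 1) := by
    have := Fact.mk Nat.prime_two
    exact orderOf_eq_prime_pow hne h3
  have ht0 : t ≠ 0 := by
    intro h0
    rw [h0, zero_pow (pow_ne_zero _ two_ne_zero)] at ht1
    have : (1 : O ⧸ v.asIdeal) = 0 := by linear_combination ht1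
    exact one_ne_zero this
  have h4 : orderOf (Units.mk0 t ht0) ∣ Nat.card (O ⧸ v.asIdeal)ˣ := orderOf_dvd_natCard _
  rw [← orderOf_units, Units.val_mk0, hord, Nat.card_units, hcard] at h4
  exact (pow_dvd_pow 2 (Nat.le_succ n)).trans h4

theorem exists_good_prime (n N : ℕ) : ∃ v : HeightOneSpectrum O, Good v ∧ (Nm (gen v)).Prime ∧
    N < Nm (gen v) ∧ 2 ^ n ∣ Nm (gen v) - 1 := by
  classical
  set M : ℕ := ∏ p ∈ (Finset.range (N + 4)).filter (fun p => p.Prime ∧ p ≠ 2), p with hM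
  have hMmem : ∀ p : ℕ, p < N + 4 → p.Prime → p ≠ 2 → p ∣ M := fun p h1 h2 h3 =>
    Finset.dvd_prod_of_mem _ (Finset.mem_filter.2 ⟨Finset.mem_range.2 h1, h2, h3⟩)
  have hModd : Odd M := by
    rw [hM]
    apply Finset.prod_induction _ (fun n : ℕ => Odd n) (fun a b ha hb => ha.mul hb) odd_one
    intro p hp
    rw [Finset.mem_filter] at hp
    exact hp.2.1.odd_of_ne_two hp.2.2
  obtain ⟨m, hm⟩ := hModd
  obtain ⟨m3, hm3⟩ := hMmem 3 (by omega) Nat.prime_three (by norm_num)
  have h2n : 1 ≤ 2 ^ n := Nat.one_le_two_pow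
  set x : O := (M : O) * om with hx
  set y : O := x ^ (2 ^ n) + 1 with hy
  -- x is om modulo 2
  have hx2 : (2 : O) ∣ x ^ (2 ^ n) - om ^ (2 ^ n) := by
    have h1 : x - om = 2 * (m * om) := by rw [hx, hm]; push_cast; ring
    exact (Dvd.intro _ h1.symm).trans (sub_dvd_pow_sub_pow _ _ _)
  have hom3 : om ^ 3 = 1 := by linear_combination (om - 1) * om_rel
  have homu : ∃ t : O, om ^ (2 ^ n) * t = 1 := by
    rcases Y10_om_pow n with h | h
    · exact ⟨om ^ 2, by rw [h]; linear_combination hom3⟩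
    · exact ⟨om, by rw [h]; linear_combination hom3⟩
  have hyu : ∃ t : O, (1 + om ^ (2 ^ n)) * t = 1 := by
    rcases Y10_om_pow n with h | h
    · exact ⟨-om, by rw [h]; linear_combination -om_rel⟩
    · exact ⟨-om ^ 2, by rw [h]; linear_combination (-om ^ 2 + om - 1) * om_rel⟩
  have hy2 : ∀ v : HeightOneSpectrum O, y ∈ v.asIdeal → (2 : O) ∉ v.asIdeal := by
    intro v h1 h2
    obtain ⟨t, ht⟩ := hyu
    obtain ⟨z, hz⟩ := hx2
    apply Y10_one (v := v)
    have h3 : (1 : O) = t * y - 2 * (t * z) := by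
      rw [← ht, hy]
      linear_combination -t * hz
    rw [h3]
    exact v.asIdeal.sub_mem (v.asIdeal.mul_mem_left _ h1) (v.asIdeal.mul_mem_right _ h2)
  have hyP : Prim y := by
    have h1 : (3 : O) ∣ x := ⟨m3 * om, by rw [hx, hm3]; push_cast; ring⟩
    have h2 : x ∣ x ^ (2 ^ n) := dvd_pow_self x (by positivity)
    show (3 : O) ∣ y - 1
    rw [hy, add_sub_cancel_right]
    exact h1.trans h2
  have hy1 : ¬ (2 : O) ∣ y - 1 := by
    rintro ⟨z, hz⟩
    obtain ⟨t, ht⟩ := homu
    obtain ⟨z', hz'⟩ := hx2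
    have h4 : (2 : O) ∣ 1 := ⟨t * (z - z'), by
      rw [← ht]
      rw [hy] at hz
      linear_combination t * hz - t * hz'⟩
    exact two_prime.not_isUnit (isUnit_of_dvd_one h4)
  have hy0 : y ≠ 0 := by
    intro h0
    obtain ⟨t, ht⟩ := hyu
    obtain ⟨z, hz⟩ := hx2
    have h4 : (2 : O) ∣ 1 := ⟨-(t * z), by
      rw [← ht]
      rw [hy] at h0
      linear_combination t * h0 - t * hz⟩
    exact two_prime.not_isUnit (isUnit_of_dvd_one h4)
  obtain ⟨v, h3, hv, hg⟩ : ∃ v : HeightOneSpectrum O, (3 : O) ∉ v.asIdeal ∧ y ∈ v.asIdeal ∧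
      ¬ (2 : O) ∣ gen v - 1 := by
    by_contra hcon
    push Not at hcon
    exact hy1 (X1_ind _ y rfl hy0 hyP hcon)
  have h2 := hy2 v hv
  have hgood : Good v := by
    refine ⟨h2, h3, ?_⟩
    rintro ⟨z, hz⟩
    exact hg (even_norm v h3 h2 z hz)
  have hord := Y10_order v h2 x n hv
  rw [absNorm_gen v h3] at hord
  rcases prime_types v h3 with ⟨l, hl, hl3, hlN⟩ | ⟨q, hq, hq3, hqv⟩
  · rw [absNorm_gen v h3] at hlN
    refine ⟨v, hgood, by rw [hlN]; exact hl, ?_, hord⟩
    rw [hlN]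
    by_contra hle
    push Not at hle
    obtain ⟨t, ht⟩ := hMmem l (by omega) hl (by omega)
    have hlv : (l : O) ∈ v.asIdeal := by
      rw [← hlN, ← absNorm_gen v h3]
      exact Ideal.absNorm_mem v.asIdeal
    apply Y10_one (v := v)
    have hxv : x ∈ v.asIdeal := by
      rw [hx, ht]
      push_cast
      exact v.asIdeal.mul_mem_right _ (v.asIdeal.mul_mem_right _ hlv)
    have h4 : (1 : O) = y - x ^ (2 ^ n) := by rw [hy]; ring
    rw [h4]
    exact v.asIdeal.sub_mem hv (Ideal.pow_mem_of_mem _ hxv _ (by positivity))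
  · exfalso
    have hq2 : q ≠ 2 := by
      rintro rfl
      apply h2
      rw [hqv]
      exact_mod_cast Ideal.mem_span_singleton_self _
    have hqodd : Odd q := hq.odd_of_ne_two hq2
    have hgs := gen_spec v h3
    have hPq : Prim (-(q : O)) := by
      obtain ⟨t, ht⟩ : ∃ t, q + 1 = 3 * t := ⟨(q + 1) / 3, by omega⟩
      refine ⟨-(t : O), ?_⟩
      have := congrArg (fun z : ℕ => (z : O)) ht
      push_cast at this
      linear_combination -this
    have hass : Associated (gen v) (-(q : O)) := by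
      have h5 : Ideal.span {gen v} = Ideal.span {(q : O)} := by rw [← hgs.1, hqv]
      exact (Ideal.span_singleton_eq_span_singleton.1 h5).neg_right
    have heq : gen v = -(q : O) := hgs.2.eq_of_associated hPq hass
    apply hg
    obtain ⟨t, ht⟩ := hqodd
    rw [heq, ht]
    refine ⟨-(t : O) - 1, ?_⟩
    push_cast
    ring

end H55C
end

-- from Lib.H55C.Y17
section

open NumberField IsDedekindDomain

namespace H55C

open H55B

/-- Pure group theory and CRT: let l : A -> ℕ be injective with prime values such that Nat.card A divides l a - 1. Then (Z/m)^* maps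
onto A, m = prod of the l a. For a in A the group (Z/(l a))^* is cyclic of order l a - 1, let u_a be a generator; since
a^(l a - 1) = 1 there is a homomorphism φ_a to A with φ_a(u_a) = a (monoidHomOfForallMemZpowers). Put Φ x = prod_a φ_a(x mod l a)
(ZMod.unitsMap). Φ is onto: given b, by the Chinese remainder theorem there is x in (Z/m)^* with x = u_b mod l b and x = 1 mod l a
for a different from b; Φ x = b. -/
theorem Y17_surj (A : Type) [CommGroup A] [Fintype A] (l : A → ℕ) (hl : Function.Injective l)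
    (hp : ∀ a, (l a).Prime) (hd : ∀ a, Nat.card A ∣ l a - 1) :
    ∃ Φ : (ZMod (∏ a, l a))ˣ →* A, Function.Surjective Φ := by
  classical
  have hfact : ∀ a, Fact (l a).Prime := fun a => ⟨hp a⟩
  have hdvd : ∀ a, l a ∣ ∏ a, l a := fun a => Finset.dvd_prod_of_mem l (Finset.mem_univ a)
  have hcop : Pairwise (Function.onFun Nat.Coprime l) := by
    intro a b hab
    exact (Nat.coprime_primes (hp a) (hp b)).2 (fun h => hab (hl h))
  have hcyc : ∀ a, ∃ g : (ZMod (l a))ˣ, ∀ x, x ∈ Subgroup.zpowers g := fun a =>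
    IsCyclic.exists_generator
  choose u hu using hcyc
  have hord : ∀ a, orderOf a ∣ orderOf (u a) := by
    intro a
    have h1 : orderOf (u a) = Nat.card (ZMod (l a))ˣ := orderOf_eq_card_of_forall_mem_zpowers (hu a)
    have h2 : Nat.card (ZMod (l a))ˣ = l a - 1 := by
      rw [Nat.card_eq_fintype_card, ZMod.card_units]
    rw [h1, h2]
    exact (orderOf_dvd_natCard a).trans (hd a)
  let φ : ∀ a, (ZMod (l a))ˣ →* A := fun a => monoidHomOfForallMemZpowers (hu a) (hord a)
  have hφ : ∀ a, φ a (u a) = a := fun a => monoidHomOfForallMemZpowers_apply_gen (hu a) (hord a)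
  let Φ : (ZMod (∏ a, l a))ˣ →* A := ∏ a, (φ a).comp (ZMod.unitsMap (hdvd a))
  have hΦ : ∀ x, Φ x = ∏ a, φ a (ZMod.unitsMap (hdvd a) x) := by
    intro x
    exact MonoidHom.finsetProd_apply _ _ x
  refine ⟨Φ, fun b => ?_⟩
  let y : ∀ a, (ZMod (l a))ˣ := Function.update (fun _ => 1) b (u b)
  let e := ZMod.prodEquivPi l hcop
  have he : ∀ a x, (ZMod.castHom (hdvd a) (ZMod (l a))) x = e x a := by
    intro a x
    have h1 : ZMod.castHom (hdvd a) (ZMod (l a)) = (Pi.evalRingHom (fun a => ZMod (l a)) a).comp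
      (e : ZMod (∏ a, l a) →+* ∀ a, ZMod (l a)) := Subsingleton.elim _ _
    rw [h1]
    rfl
  let x : (ZMod (∏ a, l a))ˣ :=
    { val := e.symm (fun a => (y a : ZMod (l a)))
      inv := e.symm (fun a => ((y a)⁻¹ : (ZMod (l a))ˣ))
      val_inv := by
        rw [← map_mul]
        have : (fun a => (y a : ZMod (l a))) * (fun a => (((y a)⁻¹ : (ZMod (l a))ˣ) : ZMod (l a))) = 1 := by
          funext a
          exact Units.mul_inv (y a)
        rw [this, map_one]
      inv_val := by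
        rw [← map_mul]
        have : (fun a => (((y a)⁻¹ : (ZMod (l a))ˣ) : ZMod (l a))) * (fun a => (y a : ZMod (l a))) = 1 := by
          funext a
          exact Units.inv_mul (y a)
        rw [this, map_one] }
  have hx : ∀ a, ZMod.unitsMap (hdvd a) x = y a := by
    intro a
    apply Units.ext
    show ZMod.castHom (hdvd a) (ZMod (l a)) (e.symm (fun a => (y a : ZMod (l a)))) = y a
    rw [he, RingEquiv.apply_symm_apply]
  refine ⟨x, ?_⟩
  rw [hΦ]
  rw [Finset.prod_eq_single b]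
  · have hyb : y b = u b := by simp [y]
    rw [hx, hyb]
    exact hφ b
  · intro a _ hab
    have hya : y a = 1 := by simp [y, Function.update_of_ne hab]
    rw [hx, hya, map_one]
  · intro h
    exact absurd (Finset.mem_univ b) h

/-! Chunk Y17: a finite abelian 2-group is a quotient of (Z/m)^*, m a product of distinct norms > N of good primes, congruent
to 1 modulo the order of the group (choose the primes l_a one after the other by exists_good_prime; Y17_surj). m > 1 because
A is nonempty. 3 does not divide m because Good primes are not above 3 (or choose l_a > 3 + N). -/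
theorem exists_quot (A : Type) [CommGroup A] [Finite A] (k : ℕ) (hA : Nat.card A = 2 ^ k) (N : ℕ) :
    ∃ m : ℕ, 1 < m ∧ ¬ 3 ∣ m ∧ Squarefree m ∧
      (∀ l : ℕ, l.Prime → l ∣ m → N < l ∧ ∃ v : HeightOneSpectrum O, Good v ∧ Nm (gen v) = l) ∧
      ∃ Φ : (ZMod m)ˣ →* A, Function.Surjective Φ := by
  classical
  have := Fintype.ofFinite A
  choose f hf using fun N' : ℕ => exists_good_prime k N'
  set g : ℕ → ℕ := fun N' => Nm (gen (f N')) with hg
  let s : ℕ → ℕ := fun n => Nat.rec (g (N + 3)) (fun _ r => g r) n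
  have hs0 : s 0 = g (N + 3) := rfl
  have hs1 : ∀ n, s (n + 1) = g (s n) := fun n => rfl
  have hgN : ∀ N', N' < g N' := fun N' => (hf N').2.2.1
  have hmono : StrictMono s := strictMono_nat_of_lt_succ (fun n => by rw [hs1]; exact hgN _)
  have hsN : ∀ n, N + 3 < s n := by
    intro n
    have h1 : s 0 ≤ s n := hmono.monotone (Nat.zero_le n)
    have h2 := hgN (N + 3)
    rw [← hs0] at h2
    omega
  have hsg : ∀ n, ∃ N', s n = g N' := by
    intro n
    cases n with
    | zero => exact ⟨_, hs0⟩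
    | succ n => exact ⟨_, hs1 n⟩
  let e := Fintype.equivFin A
  let l : A → ℕ := fun a => s (e a)
  have hl : Function.Injective l := by
    intro a b hab
    exact e.injective (Fin.ext (hmono.injective hab))
  have hprop : ∀ a, (l a).Prime ∧ Nat.card A ∣ l a - 1 ∧ N + 3 < l a ∧
      ∃ v : HeightOneSpectrum O, Good v ∧ Nm (gen v) = l a := by
    intro a
    obtain ⟨N', hN'⟩ := hsg (e a)
    have h1 := hf N'
    have h2 : l a = Nm (gen (f N')) := hN'
    refine ⟨?_, ?_, hsN _, f N', h1.1, h2.symm⟩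
    · rw [h2]; exact h1.2.1
    · rw [h2, hA]; exact h1.2.2.2
  obtain ⟨Φ, hΦ⟩ := Y17_surj A l hl (fun a => (hprop a).1) (fun a => (hprop a).2.1)
  have hdiv : ∀ q : ℕ, q.Prime → q ∣ ∏ a, l a → ∃ a, q = l a := by
    intro q hq hqd
    obtain ⟨a, -, ha⟩ := (Nat.Prime.prime hq).exists_mem_finset_dvd hqd
    exact ⟨a, (Nat.prime_dvd_prime_iff_eq hq (hprop a).1).1 ha⟩
  refine ⟨∏ a, l a, ?_, ?_, ?_, ?_, Φ, hΦ⟩
  · have h1 : l 1 ∣ ∏ a, l a := Finset.dvd_prod_of_mem l (Finset.mem_univ 1)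
    have h2 : 0 < ∏ a, l a := Finset.prod_pos fun a _ => (hprop a).1.pos
    exact lt_of_lt_of_le (hprop 1).1.one_lt (Nat.le_of_dvd h2 h1)
  · intro h3
    obtain ⟨a, ha⟩ := hdiv 3 Nat.prime_three h3
    have := (hprop a).2.2.1
    omega
  · refine Finset.squarefree_prod_of_pairwise_isCoprime ?_ (fun a _ =>
      (Nat.Prime.prime (hprop a).1).squarefree)
    intro a _ b _ hab
    exact Nat.coprime_iff_isRelPrime.1
      ((Nat.coprime_primes (hprop a).1 (hprop b).1).2 (fun h => hab (hl h)))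
  · intro q hq hqd
    obtain ⟨a, rfl⟩ := hdiv q hq hqd
    refine ⟨?_, (hprop a).2.2.2⟩
    have := (hprop a).2.2.1
    omega

end H55C
end

-- from Lib.H28T.A3
section

open NumberField IsDedekindDomain

namespace H28T

open H28R
open H55P H55R

variable {F : Type} [Field F] [NumberField F] {G : HeightOneSpectrum (𝓞 F) → Prop}

/-! Chunk A3 (S/M): subfields of the fields generated by roots of unity. exp_ram: let W be a prime of N above w (under_exists); the ramification index over (𝓞 F) of W is the product of that of w and that of W over 𝓞 K (Ideal.ramificationIdx_tower; all ideals nonzero), so by mu_unr (W contains m iff w contains m) the index of w is 1.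
exp_ext: N/F is Galois with commutative group (mu_gal), so K/F is Galois (IsAbelianGalois.tower_bot, see H13E.sub_mod in H13E/X4.lean). If w is a prime of K over v and v is not good, then m is not in w: v contains a prime number l; if m is in w then m is in v, so a prime divisor l' of m is in v (v prime), GoodL p l' gives G v: contradiction. -/

theorem exp_ram {K N : Type} [Field K] [NumberField K] [Field N] [NumberField N] [Algebra F K]
    [Algebra F N] [Algebra K N] [IsScalarTower F K N] {m : ℕ} (hm : m ≠ 0) {S : Set N}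
    (hS : ∀ s ∈ S, s ^ m = 1) (hgen : Algebra.adjoin F S = ⊤) (w : HeightOneSpectrum (𝓞 K))
    (hw : (m : 𝓞 K) ∉ w.asIdeal) : w.asIdeal.ramificationIdx (𝓞 F) = 1 := by
  obtain ⟨W, hW⟩ := under_exists (K := K) (L := N) w
  have hW' : W.asIdeal.under (𝓞 K) = w.asIdeal := congrArg HeightOneSpectrum.asIdeal hW
  have hwp := w.isPrime
  have hWp := W.isPrime
  have hl : W.asIdeal.LiesOver w.asIdeal := ⟨hW'.symm⟩
  have hmW : (m : 𝓞 N) ∉ W.asIdeal := by
    intro h
    apply hw
    rw [← hW', Ideal.mem_under, map_natCast]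
    exact h
  have h1 := mu_unr hm hS hgen W hmW
  rw [Ideal.ramificationIdx_tower (R := (𝓞 F)) (S := 𝓞 K) w.asIdeal W.asIdeal] at h1
  exact Nat.eq_one_of_mul_eq_one_right h1

/-- A prime ideal which contains the natural number m contains a prime factor of m. -/
theorem mem_factor {K : Type} [Field K] [NumberField K] (w : HeightOneSpectrum (𝓞 K)) {m : ℕ}
    (hm : m ≠ 0) (hw : (m : 𝓞 K) ∈ w.asIdeal) :
    ∃ l : ℕ, l.Prime ∧ l ∣ m ∧ (l : 𝓞 K) ∈ w.asIdeal ∧ l ≤ Ideal.absNorm w.asIdeal := by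
  have hwp := w.isPrime
  have hone : (1 : 𝓞 K) ∉ w.asIdeal := fun h => hwp.ne_top ((Ideal.eq_top_iff_one _).2 h)
  have key : ∀ n : ℕ, n ≠ 0 → (n : 𝓞 K) ∈ w.asIdeal →
      ∃ l : ℕ, l.Prime ∧ l ∣ n ∧ (l : 𝓞 K) ∈ w.asIdeal := by
    intro n
    induction n using Nat.strong_induction_on with
    | _ n ih =>
      intro hn hnw
      have h1 : n ≠ 1 := by
        rintro rfl
        rw [Nat.cast_one] at hnw
        exact hone hnw
      obtain ⟨k, hk⟩ := Nat.minFac_dvd n
      have hp := Nat.minFac_prime h1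
      have hnw' : ((n.minFac * k : ℕ) : 𝓞 K) ∈ w.asIdeal := by rw [← hk]; exact hnw
      rw [Nat.cast_mul] at hnw'
      rcases hwp.mem_or_mem hnw' with h2 | h2
      · exact ⟨n.minFac, hp, Nat.minFac_dvd n, h2⟩
      · have hk0 : k ≠ 0 := by
          rintro rfl
          rw [mul_zero] at hk
          exact hn hk
        have hkn : k < n := by
          have h3 := hp.two_le
          have h4 : 0 < k := Nat.pos_of_ne_zero hk0
          have h5 : 2 * k ≤ n.minFac * k := Nat.mul_le_mul_right k h3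
          omega
        obtain ⟨l, hl1, hl2, hl3⟩ := ih k hkn hk0 h2
        exact ⟨l, hl1, hl2.trans (Dvd.intro_left _ hk.symm), hl3⟩
  obtain ⟨l, hl1, hl2, hl3⟩ := key m hm hw
  refine ⟨l, hl1, hl2, hl3, ?_⟩
  have hN0 : Ideal.absNorm w.asIdeal ≠ 0 := by
    rw [Ne, Ideal.absNorm_eq_zero_iff]
    exact w.ne_bot
  refine Nat.le_of_dvd (Nat.pos_of_ne_zero hN0) ?_
  by_contra hnd
  have hcop : Nat.Coprime l (Ideal.absNorm w.asIdeal) := (Nat.Prime.coprime_iff_not_dvd hl1).2 hnd
  have h1 : IsCoprime (l : ℤ) (Ideal.absNorm w.asIdeal : ℤ) := Nat.isCoprime_iff_coprime.2 hcop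
  obtain ⟨a, b, hab⟩ := h1
  apply hone
  have h2 := congrArg (Int.cast : ℤ → 𝓞 K) hab
  push_cast at h2
  rw [← h2]
  exact w.asIdeal.add_mem (w.asIdeal.mul_mem_left _ hl3)
    (w.asIdeal.mul_mem_left _ (Ideal.absNorm_mem w.asIdeal))

theorem exp_ext {p : ℕ} {K : Type} [Field K] [NumberField K] [Algebra F K] (h : ExplicitG G K)
    (hk : ∃ k : ℕ, Module.finrank F K = p ^ k) : ExtG G p K := by
  obtain ⟨N, _, _, _, _, _, m, S, hm, hgood, hS, hgen⟩ := h
  obtain ⟨hG, hc⟩ := mu_gal hm hS hgen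
  have hN : IsAbelianGalois F N := { toIsGalois := hG, is_comm := ⟨hc⟩ }
  have hK : IsAbelianGalois F K := IsAbelianGalois.tower_bot F K N
  refine ⟨inferInstance, hk, ?_⟩
  intro W v hv hng
  apply exp_ram (N := N) hm hS hgen
  intro hmW
  apply hng
  have h1 : (m : (𝓞 F)) ∈ v.asIdeal := by
    rw [hv, Ideal.mem_under, map_natCast]
    exact hmW
  obtain ⟨l, hl1, hl2, hl3, -⟩ := mem_factor v hm h1
  exact hgood l hl1 hl2 v hl3

end H28T
end

-- from Lib.H28T.AQ1
section

open NumberField IsDedekindDomain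

namespace H28T

open H55P H55R

variable {F : Type} [Field F] [NumberField F] {G : HeightOneSpectrum (𝓞 F) → Prop}

/-- Chunk AQ1 (S/M), port of H28R.exists_quotP (H28R/A5.lean) with hD k' N' (k' = k + 1 or k) in place of exists_prime_p; no condition modulo 3. -/
theorem aq1_quot {p : ℕ} (hp : p.Prime) (hD : DirH G p) (A : Type) [CommGroup A] [Finite A]
    (k : ℕ) (hA : Nat.card A = p ^ k) (N : ℕ) :
    ∃ m : ℕ, 1 < m ∧ (∀ l : ℕ, l.Prime → l ∣ m → N < l ∧ GoodL G l) ∧
      ∃ Φ : (ZMod m)ˣ →* A, Function.Surjective Φ := by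
  classical
  have := Fintype.ofFinite A
  choose g hg using fun N' : ℕ => hD k N'
  let s : ℕ → ℕ := fun n => Nat.rec (g N) (fun _ r => g r) n
  have hs0 : s 0 = g N := rfl
  have hs1 : ∀ n, s (n + 1) = g (s n) := fun n => rfl
  have hgN : ∀ N', N' < g N' := fun N' => (hg N').2.1
  have hmono : StrictMono s := strictMono_nat_of_lt_succ (fun n => by rw [hs1]; exact hgN _)
  have hsN : ∀ n, N < s n := by
    intro n
    have h1 : s 0 ≤ s n := hmono.monotone (Nat.zero_le n)
    have h2 := hgN N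
    rw [← hs0] at h2
    omega
  have hsg : ∀ n, ∃ N', s n = g N' := by
    intro n
    cases n with
    | zero => exact ⟨_, hs0⟩
    | succ n => exact ⟨_, hs1 n⟩
  let e := Fintype.equivFin A
  let l : A → ℕ := fun a => s (e a)
  have hl : Function.Injective l := by
    intro a b hab
    exact e.injective (Fin.ext (hmono.injective hab))
  have hprop : ∀ a, (l a).Prime ∧ p ^ k ∣ l a - 1 ∧ N < l a ∧ GoodL G (l a) := by
    intro a
    obtain ⟨N', hN'⟩ := hsg (e a)
    have h1 := hg N'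
    have h2 : l a = g N' := hN'
    refine ⟨?_, ?_, hsN _, ?_⟩
    · rw [h2]; exact h1.1
    · rw [h2]; exact h1.2.2.1
    · rw [h2]; exact h1.2.2.2
  have hcard : ∀ a, Nat.card A ∣ l a - 1 := by
    intro a
    rw [hA]
    exact (hprop a).2.1
  obtain ⟨Φ, hΦ⟩ := H55C.Y17_surj A l hl (fun a => (hprop a).1) hcard
  refine ⟨∏ a, l a, ?_, ?_, Φ, hΦ⟩
  · have h1 : l 1 ∣ ∏ a, l a := Finset.dvd_prod_of_mem l (Finset.mem_univ 1)
    have h2 : 0 < ∏ a, l a := Finset.prod_pos fun a _ => (hprop a).1.pos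
    exact lt_of_lt_of_le (hprop 1).1.one_lt (Nat.le_of_dvd h2 h1)
  · intro q hq hqd
    obtain ⟨a, -, ha⟩ := (Nat.Prime.prime hq).exists_mem_finset_dvd hqd
    have e2 : q = l a := (Nat.prime_dvd_prime_iff_eq hq (hprop a).1).1 ha
    rw [e2]
    exact ⟨(hprop a).2.2.1, (hprop a).2.2.2⟩

end H28T
end

-- from Lib.H28T.AR4
section

open NumberField IsDedekindDomain

namespace H28T

open H28R (SubQ)
open H55P H55R
open H55K

variable {F : Type} [Field F] [NumberField F] [IQ F] {G : HeightOneSpectrum (𝓞 F) → Prop}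

theorem ar4_pos (K₀ : Type) [Field K₀] [NumberField K₀] (j : K₀ →+* ℂ)
    (hj : ComplexEmbedding.IsReal j) : 0 < InfinitePlace.nrRealPlaces K₀ := by
  classical
  rw [← InfinitePlace.card_real_embeddings, Fintype.card_pos_iff]
  exact ⟨⟨j, hj⟩⟩

theorem ar4_nonreal (N : Type) [Field N] [NumberField N] [Algebra F N] (i : N →+* ℂ) :
    (starRingEnd ℂ).comp i ≠ i := by
  intro h
  obtain ⟨x, hx⟩ := IQ.im (F := F)
  apply hx
  have h1 : (starRingEnd ℂ) (i (algebraMap F N x)) = i (algebraMap F N x) :=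
    RingHom.congr_fun h _
  have h2 : (i (algebraMap F N x)).im = 0 := Complex.conj_eq_iff_im.1 h1
  by_cases h3 : i.comp (algebraMap F N) = embF F
  · have h4 : i (algebraMap F N x) = embF F x := RingHom.congr_fun h3 x
    rw [h4] at h2
    exact h2
  · have h4 : i (algebraMap F N x) = (starRingEnd ℂ) (embF F x) :=
      RingHom.congr_fun (d1_emb F _ _ h3 (d1_conj_ne F)) x
    rw [h4, Complex.conj_im, neg_eq_zero] at h2
    exact h2

/-- Chunk AR4 (S/M), port of H13N.x3_real (H13N/X3.lean). The complex conjugation γ of a Galois field N over ℚ containing F (under an embedding i of N in ℂ) is not the identity: its restriction to F is not (F has no real embedding: i ∘ algebraMap F N is embF F or its conjugate, IQ.im; H55K.d1_emb). The rest as in x3_real (without noroot). -/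
theorem ar4_real (N : Type) [Field N] [NumberField N] [Algebra F N] (hG : IsGalois ℚ N) :
    ∃ (K₀ : Type) (_ : Field K₀) (_ : NumberField K₀) (_ : Algebra K₀ N),
      0 < InfinitePlace.nrRealPlaces K₀ ∧ Module.finrank K₀ N = 2 := by
  obtain ⟨i⟩ : Nonempty (N →+* ℂ) := inferInstance
  have h1 : i.comp (algebraMap ℚ N) = ((starRingEnd ℂ).comp i).comp (algebraMap ℚ N) :=
    Subsingleton.elim _ _
  obtain ⟨σ, hσ⟩ := ComplexEmbedding.exists_comp_symm_eq_of_comp_eq i _ h1
  let γ : N ≃ₐ[ℚ] N := σ.symm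
  have hγ : ∀ z, i (γ z) = (starRingEnd ℂ) (i z) := fun z =>
    congrArg (fun φ : N →+* ℂ => φ z) hσ
  have hγ1 : γ ≠ 1 := by
    intro h
    apply ar4_nonreal (F := F) N i
    ext z
    show (starRingEnd ℂ) (i z) = i z
    rw [← hγ, h]
    rfl
  have hγ2 : γ * γ = 1 := by
    ext z
    apply i.injective
    change i (γ (γ z)) = i z
    rw [hγ, hγ, Complex.conj_conj]
  let K₀ : IntermediateField ℚ N := IntermediateField.fixedField (Subgroup.zpowers γ)
  have hfix : ∀ x : K₀, γ (x : N) = x := by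
    intro x
    exact x.2 ⟨γ, Subgroup.mem_zpowers γ⟩
  have hreal : ∀ x : K₀, (starRingEnd ℂ) (i (x : N)) = i (x : N) := by
    intro x
    rw [← hγ, hfix]
  have hrank : Module.finrank K₀ N = 2 := by
    have h2 : Module.finrank K₀ N = Nat.card (Subgroup.zpowers γ) :=
      IntermediateField.finrank_fixedField_eq_card _
    rw [h2, Nat.card_zpowers]
    exact orderOf_eq_prime (by rw [pow_two, hγ2]) hγ1
  refine ⟨K₀, inferInstance, inferInstance, inferInstance, ?_, hrank⟩
  let j : K₀ →+* ℂ := i.comp (algebraMap K₀ N)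
  have hj : ComplexEmbedding.IsReal j := by
    rw [ComplexEmbedding.isReal_iff]
    ext x
    exact hreal x
  exact ar4_pos K₀ j hj

end H28T
end

-- from Lib.H28T.CC2A
section

open NumberField IsDedekindDomain

namespace H28T

open H55P

variable {F : Type} [Field F] [NumberField F] [IQ F] {m : Ideal (𝓞 F)} {ψ : Ideal (𝓞 F) →*₀ 𝓞 F}

/-- Chunk CC2A (S). absNorm m divides l + 1 (so l + 1 is in m: Ideal.absNorm_mem). IsHecke.per with x = -l, y = 1: both generate ideals coprime to m (span {-l} ⊔ m contains l + 1 and l: 1 = (l + 1) + (-l)), x - y = -(l + 1) in m: ψ(span {-l}) * 1 = ψ(span {1}) * (-l), ψ(⊤) = 1 (map_one; span {1} = ⊤ = 1), span {-l} = span {l}. -/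
theorem cc2a_psi (hψ : IsHecke m ψ) {l : ℕ} (hl : Ideal.absNorm m ∣ l + 1) :
    ψ (Ideal.span {(l : 𝓞 F)}) = -(l : 𝓞 F) := by
  have hmem : (l : 𝓞 F) + 1 ∈ m := by
    obtain ⟨k, hk⟩ := hl
    have h1 : (l : 𝓞 F) + 1 = (k : 𝓞 F) * (Ideal.absNorm m : 𝓞 F) := by
      have h2 : ((l + 1 : ℕ) : 𝓞 F) = ((Ideal.absNorm m * k : ℕ) : 𝓞 F) := congrArg _ hk
      push_cast at h2
      rw [h2]
      ring
    rw [h1]
    exact m.mul_mem_left _ (Ideal.absNorm_mem m)
  have hc1 : IsCoprime (Ideal.span {-(l : 𝓞 F)}) m := by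
    rw [Ideal.isCoprime_iff_exists]
    exact ⟨-(l : 𝓞 F), Ideal.mem_span_singleton_self _, (l : 𝓞 F) + 1, hmem, by ring⟩
  have hc2 : IsCoprime (Ideal.span {(1 : 𝓞 F)}) m := by
    rw [Ideal.span_singleton_one, ← Ideal.one_eq_top]
    exact isCoprime_one_left
  have h := hψ.per (-(l : 𝓞 F)) 1 hc1 hc2 (by
    have e : -(l : 𝓞 F) - 1 = -((l : 𝓞 F) + 1) := by ring
    rw [e]
    exact m.neg_mem hmem)
  rw [Ideal.span_singleton_one, ← Ideal.one_eq_top, map_one, mul_one, one_mul,
    Ideal.span_singleton_neg] at h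
  exact h

end H28T
end

-- from Lib.H13D.M1
section

/-! # H13D, part M: changes of variables between integral equations -/

open NumberField IsDedekindDomain WeierstrassCurve

namespace H13D

variable {k Γ : Type} [Field k] [LinearOrderedCommGroupWithZero Γ] {v : Valuation k Γ} {E : WeierstrassCurve k}

/-- A step of the Horner scheme. -/
theorem m1_add {y c : k} (hy : 1 < v y) (hc : v c ≤ 1) : 1 < v (y + c) := by
  rw [Valuation.map_add_eq_of_lt_left v (lt_of_le_of_lt hc hy)]
  exact hy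

theorem m1_mul {x y : k} (hx : 1 < v x) (hy : 1 < v y) : 1 < v (x * y) := by
  rw [map_mul]
  exact one_lt_mul'' hx hy

theorem m1_unit (e : k) (he : v e = 1) {y : k} (hy : 1 < v y) : 1 < v (e * y) := by
  rw [map_mul, he, one_mul]
  exact hy

theorem m1_b (hE : VI v E) : v E.b₂ ≤ 1 ∧ v E.b₄ ≤ 1 ∧ v E.b₆ ≤ 1 ∧ v E.b₈ ≤ 1 := by
  obtain ⟨h1, h2, h3, h4, h6⟩ := hE
  have g : ∀ n : ℕ, (n : k) ∈ v.integer := fun n => natCast_mem _ n
  have g4 : (4 : k) ∈ v.integer := by exact_mod_cast g 4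
  have g2 : (2 : k) ∈ v.integer := by exact_mod_cast g 2
  change E.a₁ ∈ v.integer at h1
  change E.a₂ ∈ v.integer at h2
  change E.a₃ ∈ v.integer at h3
  change E.a₄ ∈ v.integer at h4
  change E.a₆ ∈ v.integer at h6
  refine ⟨?_, ?_, ?_, ?_⟩
  · change E.b₂ ∈ v.integer
    rw [WeierstrassCurve.b₂]
    exact add_mem (pow_mem h1 2) (mul_mem g4 h2)
  · change E.b₄ ∈ v.integer
    rw [WeierstrassCurve.b₄]
    exact add_mem (mul_mem g2 h4) (mul_mem h1 h3)
  · change E.b₆ ∈ v.integer
    rw [WeierstrassCurve.b₆]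
    exact add_mem (pow_mem h3 2) (mul_mem g4 h6)
  · change E.b₈ ∈ v.integer
    rw [WeierstrassCurve.b₈]
    exact sub_mem (add_mem (sub_mem (add_mem (mul_mem (pow_mem h1 2) h6) (mul_mem (mul_mem g4 h2) h6))
      (mul_mem (mul_mem h1 h3) h4)) (mul_mem h2 (pow_mem h3 2))) (pow_mem h4 2)

/-- Chunk M1 (M). v of an integer is ≤ 1. V(2) = 1 or V(3) = 1 (3 - 2 = 1). The quantities b₂, b₄, b₆, b₈ of both equations are integral. r: suppose V(r) > 1. If V(3) = 1: b₈' = b₈ + 3 r b₆ + 3 r^2 b₄ + r^3 b₂ + 3 r^4 (variableChange_b₈, u = 1) has the value V(r)^4 > 1 (the other terms have value ≤ V(r)^3): contradiction. If V(2) = 1: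
b₆' = b₆ + 2 r b₄ + r^2 b₂ + 4 r^3 has the value V(r)^3 > 1: contradiction. s: s^2 + a₁ s = a₂ - a₂' + 3 r (variableChange_a₂) is integral; if V(s) > 1 then V(s^2 + a₁ s) = V(s)^2 > 1. t: t^2 + (a₃ + r a₁) t = a₆ + r a₄ + r^2 a₂ + r^3 - a₆' is integral: the same argument. -/
theorem vi_uniq (hE : VI v E) {r s t : k} (hE' : VI v ((⟨1, r, s, t⟩ : VariableChange k) • E)) : v r ≤ 1 ∧ v s ≤ 1 ∧ v t ≤ 1 := by
  have g : ∀ n : ℕ, (n : k) ∈ v.integer := fun n => natCast_mem _ n
  have g2 : (2 : k) ∈ v.integer := by exact_mod_cast g 2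
  have g3 : (3 : k) ∈ v.integer := by exact_mod_cast g 3
  obtain ⟨hb2, hb4, hb6, hb8⟩ := m1_b hE
  obtain ⟨hb2', hb4', hb6', hb8'⟩ := m1_b hE'
  obtain ⟨h1, h2, h3, h4, h6⟩ := hE
  obtain ⟨h1', h2', h3', h4', h6'⟩ := hE'
  rw [variableChange_b₆] at hb6'
  rw [variableChange_b₈] at hb8'
  rw [variableChange_a₂] at h2'
  rw [variableChange_a₆] at h6'
  simp only [inv_one, Units.val_one, one_pow, one_mul] at hb6' hb8' h2' h6'
  change E.a₁ ∈ v.integer at h1
  change E.a₂ ∈ v.integer at h2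
  change E.a₃ ∈ v.integer at h3
  change E.a₄ ∈ v.integer at h4
  change E.a₆ ∈ v.integer at h6
  change E.b₂ ∈ v.integer at hb2
  change E.b₄ ∈ v.integer at hb4
  change E.b₆ ∈ v.integer at hb6
  change E.b₈ ∈ v.integer at hb8
  -- `r`
  have hr : v r ≤ 1 := by
    by_contra hlt
    rw [not_le] at hlt
    have h23 : v (2 : k) = 1 ∨ v (3 : k) = 1 := by
      by_contra hcon
      rw [not_or] at hcon
      have l2 : v (2 : k) < 1 := lt_of_le_of_ne g2 hcon.1
      have l3 : v (3 : k) < 1 := lt_of_le_of_ne g3 hcon.2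
      have e : (1 : k) = 3 - 2 := by norm_num
      have := Valuation.map_sub_lt v l3 l2
      rw [← e, map_one] at this
      exact lt_irrefl _ this
    rcases h23 with h | h
    · have e4 : v (4 : k) = 1 := by
        have : (4 : k) = 2 * 2 := by norm_num
        rw [this, map_mul, h, one_mul]
      have k1 : 1 < v (4 * r) := m1_unit 4 e4 hlt
      have k2 := m1_mul hlt (m1_add k1 hb2)
      have k3 := m1_mul hlt (m1_add k2 (mul_mem g2 hb4))
      have k4 := m1_add k3 hb6
      have e : E.b₆ + 2 * r * E.b₄ + r ^ 2 * E.b₂ + 4 * r ^ 3 = r * (r * (4 * r + E.b₂) + 2 * E.b₄) + E.b₆ := by ring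
      rw [e] at hb6'
      exact absurd hb6' (not_le.2 k4)
    · have k1 : 1 < v (3 * r) := m1_unit 3 h hlt
      have k2 := m1_mul hlt (m1_add k1 hb2)
      have k3 := m1_mul hlt (m1_add k2 (mul_mem g3 hb4))
      have k4 := m1_mul hlt (m1_add k3 (mul_mem g3 hb6))
      have k5 := m1_add k4 hb8
      have e : E.b₈ + 3 * r * E.b₆ + 3 * r ^ 2 * E.b₄ + r ^ 3 * E.b₂ + 3 * r ^ 4 =
        r * (r * (r * (3 * r + E.b₂) + 3 * E.b₄) + 3 * E.b₆) + E.b₈ := by ring
      rw [e] at hb8'
      exact absurd hb8' (not_le.2 k5)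
  have hr' : r ∈ v.integer := hr
  -- a quadratic equation
  have quad : ∀ x b c : k, x ^ 2 + b * x = c → b ∈ v.integer → c ∈ v.integer → v x ≤ 1 := by
    intro x b c e hb hc
    by_contra hlt
    rw [not_le] at hlt
    have k1 := m1_mul hlt (m1_add hlt hb)
    have e' : x * (x + b) = c := by rw [← e]; ring
    rw [e'] at k1
    exact absurd hc (not_le.2 k1)
  refine ⟨hr, quad s E.a₁ (E.a₂ + 3 * r - (E.a₂ - s * E.a₁ + 3 * r - s ^ 2)) (by ring) h1 ?_,
    quad t (E.a₃ + r * E.a₁) (E.a₆ + r * E.a₄ + r ^ 2 * E.a₂ + r ^ 3 -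
      (E.a₆ + r * E.a₄ + r ^ 2 * E.a₂ + r ^ 3 - t * E.a₃ - t ^ 2 - r * t * E.a₁)) (by ring) ?_ ?_⟩
  · exact sub_mem (add_mem h2 (mul_mem g3 hr')) h2'
  · exact add_mem h3 (mul_mem hr' h1)
  · exact sub_mem (add_mem (add_mem (add_mem h6 (mul_mem hr' h4)) (mul_mem (pow_mem hr' 2) h2)) (pow_mem hr' 3)) h6'

/-- Chunk M1 (S). The formulas variableChange_a₁, .. with u = 1. -/
theorem vi_change (hE : VI v E) {r s t : k} (hr : v r ≤ 1) (hs : v s ≤ 1) (ht : v t ≤ 1) :
    VI v ((⟨1, r, s, t⟩ : VariableChange k) • E) := by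
  have g : ∀ n : ℕ, (n : k) ∈ v.integer := fun n => natCast_mem _ n
  have g2 : (2 : k) ∈ v.integer := by exact_mod_cast g 2
  have g3 : (3 : k) ∈ v.integer := by exact_mod_cast g 3
  obtain ⟨h1, h2, h3, h4, h6⟩ := hE
  change E.a₁ ∈ v.integer at h1
  change E.a₂ ∈ v.integer at h2
  change E.a₃ ∈ v.integer at h3
  change E.a₄ ∈ v.integer at h4
  change E.a₆ ∈ v.integer at h6
  change r ∈ v.integer at hr
  change s ∈ v.integer at hs
  change t ∈ v.integer at ht
  constructor
  · rw [variableChange_a₁]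
    simp only [inv_one, Units.val_one, one_pow, one_mul]
    exact add_mem h1 (mul_mem g2 hs)
  · rw [variableChange_a₂]
    simp only [inv_one, Units.val_one, one_pow, one_mul]
    exact sub_mem (add_mem (sub_mem h2 (mul_mem hs h1)) (mul_mem g3 hr)) (pow_mem hs 2)
  · rw [variableChange_a₃]
    simp only [inv_one, Units.val_one, one_pow, one_mul]
    exact add_mem (add_mem h3 (mul_mem hr h1)) (mul_mem g2 ht)
  · rw [variableChange_a₄]
    simp only [inv_one, Units.val_one, one_pow, one_mul]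
    exact sub_mem (add_mem (sub_mem (add_mem (sub_mem h4 (mul_mem hs h3)) (mul_mem (mul_mem g2 hr) h2))
      (mul_mem (add_mem ht (mul_mem hr hs)) h1)) (mul_mem g3 (pow_mem hr 2))) (mul_mem (mul_mem g2 hs) ht)
  · rw [variableChange_a₆]
    simp only [inv_one, Units.val_one, one_pow, one_mul]
    exact sub_mem (sub_mem (sub_mem (add_mem (add_mem (add_mem h6 (mul_mem hr h4)) (mul_mem (pow_mem hr 2) h2))
      (pow_mem hr 3)) (mul_mem ht h3)) (pow_mem ht 2)) (mul_mem (mul_mem hr ht) h1)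

/-- Chunk M1 (S). The coefficients of ⟨u ε, r, s, t⟩ • E are those of ⟨u, r, s, t⟩ • E divided by powers of ε, V(ε) = 1. -/
theorem vi_unit {u ε : kˣ} (hε : v (ε : k) = 1) {r s t : k} (h : VI v ((⟨u * ε, r, s, t⟩ : VariableChange k) • E)) :
    VI v ((⟨u, r, s, t⟩ : VariableChange k) • E) := by
  obtain ⟨h1, h2, h3, h4, h6⟩ := h
  have hεi : v ((ε⁻¹ : kˣ) : k) = 1 := by
    rw [Units.val_inv_eq_inv_val, map_inv₀, hε, inv_one]
  rw [variableChange_a₁] at h1
  rw [variableChange_a₂] at h2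
  rw [variableChange_a₃] at h3
  rw [variableChange_a₄] at h4
  rw [variableChange_a₆] at h6
  simp only [mul_inv_rev, Units.val_mul, mul_pow, map_mul, map_pow, hεi, one_pow, one_mul] at h1 h2 h3 h4 h6
  constructor
  · rw [variableChange_a₁, map_mul]
    exact h1
  · rw [variableChange_a₂, map_mul, map_pow]
    exact h2
  · rw [variableChange_a₃, map_mul, map_pow]
    exact h3
  · rw [variableChange_a₄, map_mul, map_pow]
    exact h4
  · rw [variableChange_a₆, map_mul, map_pow]
    exact h6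

/-- Chunk M1 (S). Composition: x = u^2 x' + r, x' = x'' + r' and so on: both sides have the same coefficients (WeierstrassCurve.ext, variableChange formulas, field_simp, ring) or VariableChange multiplication (mul_smul). -/
theorem vi_comp (u : kˣ) (r s t r' s' t' : k) :
    (⟨1, r', s', t'⟩ : VariableChange k) • ((⟨u, r, s, t⟩ : VariableChange k) • E) =
      (⟨u, r + u ^ 2 * r', s + u * s', t + u ^ 3 * t' + u ^ 2 * s * r'⟩ : VariableChange k) • E := by
  rw [← mul_smul]
  congr 1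
  rw [VariableChange.mul_def]
  ext
  · simp
  · simp
    ring
  · simp
    ring
  · simp
    ring

end H13D
end

-- from Lib.H13D.M2
section

/-! # H13D, part M: primes and conjugation -/

open NumberField IsDedekindDomain WeierstrassCurve

namespace H13D

open H55P (IQ embF eF LF Per IsHecke Pt ac Inert Dec Nm)
open H55K

variable {F : Type} [Field F] [NumberField F] [IQ F] {σ : F ≃ₐ[ℚ] F} {v : HeightOneSpectrum (𝓞 F)}

/-- Chunk M2 (S). H55K.d1_sigma (the automorphism which is the complex conjugation), e_cj, injectivity of embF. See the proof of hram_of in H55K/RF.lean (hσ'). -/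
theorem exists_cj (F : Type) [Field F] [NumberField F] [IQ F] : ∃ σ : F ≃ₐ[ℚ] F, Cj σ := by
  obtain ⟨σ, hσ⟩ := d1_sigma F
  refine ⟨σ, fun a => ?_⟩
  apply (embF F).injective
  rw [hσ]
  exact (e_cj a).symm

theorem m2_tr (a : 𝓞 F) : ∃ n : ℤ, a + cj a = (n : 𝓞 F) := by
  refine ⟨(Nm (1 + a) : ℤ) - 1 - Nm a, ?_⟩
  have h1 := mul_cj (1 + a)
  have h2 := mul_cj a
  rw [map_add, map_one] at h1
  push_cast
  linear_combination h1 - h2

/-- Every element is an integer divided by a natural number. -/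
theorem m2_frac (x : F) : ∃ (a : 𝓞 F) (n : ℕ), n ≠ 0 ∧ x * (n : F) = (a : F) := by
  obtain ⟨⟨a, b⟩, hab⟩ := IsLocalization.surj (nonZeroDivisors (𝓞 F)) x
  have hb : (b : 𝓞 F) ≠ 0 := nonZeroDivisors.ne_zero b.2
  refine ⟨a * cj (b : 𝓞 F), Nm (b : 𝓞 F), fun h => hb (H55P.Nm_eq_zero.1 h), ?_⟩
  have h1 := congrArg (algebraMap (𝓞 F) F) (mul_cj (b : 𝓞 F))
  rw [map_mul, map_natCast] at h1
  have h2 : x * algebraMap (𝓞 F) F (b : 𝓞 F) = algebraMap (𝓞 F) F a := hab
  show x * ((Nm (b : 𝓞 F) : ℕ) : F) = algebraMap (𝓞 F) F (a * cj (b : 𝓞 F))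
  rw [← h1, map_mul, ← h2]
  ring

theorem m2_invol (hσ : Cj σ) (x : F) : σ (σ x) = x := by
  obtain ⟨a, n, hn, h⟩ := m2_frac x
  have hn' : (n : F) ≠ 0 := Nat.cast_ne_zero.2 hn
  have h1 : σ x * (n : F) = ((cj a : 𝓞 F) : F) := by
    rw [← hσ a, ← h, map_mul, map_natCast]
  have h2 : σ (σ x) * (n : F) = (a : F) := by
    have h3 := congrArg σ h1
    rw [map_mul, map_natCast, hσ, cj_cj] at h3
    exact h3
  exact mul_right_cancel₀ hn' (h2.trans h.symm)

/-- Chunk M2 (S). σ has order 2; x with σ x = x: x = a/n, .. or: embF x is real, so x is in the image of the rational numbers: the fixed field of σ has degree 1 over ℚ ([F : ℚ] = 2 and σ is not the identity: IQ.im). Or: 2x = x + σ x is the trace. -/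
theorem rat_of_fix (hσ : Cj σ) {x : F} (hx : σ x = x) : ∃ q : ℚ, algebraMap ℚ F q = x := by
  obtain ⟨a, n, hn, h⟩ := m2_frac x
  have hn' : (n : F) ≠ 0 := Nat.cast_ne_zero.2 hn
  obtain ⟨t, ht⟩ := m2_tr a
  have h1 : x * (n : F) = ((cj a : 𝓞 F) : F) := by
    rw [← hσ a, ← h, map_mul, map_natCast, hx]
  have h2 := congrArg (algebraMap (𝓞 F) F) ht
  rw [map_add, map_intCast] at h2
  have h3 : 2 * (n : F) * x = (t : F) := by
    have e1 : (a : F) = algebraMap (𝓞 F) F a := rfl
    have e2 : ((cj a : 𝓞 F) : F) = algebraMap (𝓞 F) F (cj a) := rfl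
    rw [← h2, ← e1, ← e2, ← h1, ← h]
    ring
  refine ⟨(t : ℚ) / (2 * n), ?_⟩
  rw [map_div₀, map_intCast, map_mul, map_ofNat, map_natCast, ← h3]
  field_simp

theorem m2_lt (hσ : Cj σ) (hv : ∀ a : 𝓞 F, a ∈ v.asIdeal → cj a ∈ v.asIdeal) {y : F} (hy : v.valuation F y < 1) :
    v.valuation F (σ y) < 1 := by
  obtain ⟨n, d, hnd⟩ := v.exists_primeCompl_mul_eq_of_integer y hy.le
  have hd : (d : 𝓞 F) ∉ v.asIdeal := d.2
  have hd' : cj (d : 𝓞 F) ∉ v.asIdeal := by
    intro h
    have h1 := hv _ h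
    rw [cj_cj] at h1
    exact hd h1
  have h1 := congrArg (v.valuation F) hnd
  rw [map_mul, (HeightOneSpectrum.valuation_eq_one_iff_notMem (K := F) (v := v)).2 hd, mul_one] at h1
  rw [h1, v.valuation_lt_one_iff_mem] at hy
  have h2 := congrArg σ hnd
  rw [map_mul] at h2
  have h3 : σ y * algebraMap (𝓞 F) F (cj (d : 𝓞 F)) = algebraMap (𝓞 F) F (cj n) := by
    have e1 : algebraMap (𝓞 F) F (cj (d : 𝓞 F)) = σ (algebraMap (𝓞 F) F (d : 𝓞 F)) := (hσ _).symm
    have e2 : algebraMap (𝓞 F) F (cj n) = σ (algebraMap (𝓞 F) F n) := (hσ _).symm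
    rw [e1, e2, h2]
  have h4 := congrArg (v.valuation F) h3
  rw [map_mul, (HeightOneSpectrum.valuation_eq_one_iff_notMem (K := F) (v := v)).2 hd', mul_one] at h4
  rw [h4]
  exact (v.valuation_lt_one_iff_mem _).2 (hv _ hy)

/-- Chunk M2 (S/M). v is stable under the conjugation: a in v implies cj a in v, and conversely (cj_cj). Valuations: x = a/b; v.valuation (a : F) depends only on the largest power of v containing a; or: v.valuation composed with σ is the valuation of the prime cj v = v (HeightOneSpectrum.valuation and maps; intValuation by powers: v.intValuation_le_pow_iff_mem). -/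
theorem val_cj (hσ : Cj σ) (hv : ∀ a : 𝓞 F, a ∈ v.asIdeal → cj a ∈ v.asIdeal) (x : F) : v.valuation F (σ x) = v.valuation F x := by
  by_cases hx : x = 0
  · rw [hx, map_zero]
  have hσx : σ x ≠ 0 := (map_ne_zero σ).2 hx
  have hprod : (σ x / x) * σ (σ x / x) = 1 := by
    rw [map_div₀, m2_invol hσ]
    field_simp
  have hvx : v.valuation F x ≠ 0 := (Valuation.ne_zero_iff _).2 hx
  have h0 : ∀ y : F, y * σ y = 1 → ¬ v.valuation F y < 1 := by
    intro y hy h1
    have h2 := m2_lt hσ hv h1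
    have h3 := congrArg (v.valuation F) hy
    rw [map_mul, map_one] at h3
    have h4 := mul_lt_one_of_lt_of_le h1 h2.le
    rw [h3] at h4
    exact lt_irrefl _ h4
  have h1 := h0 _ hprod
  have h2 := h0 (σ (σ x / x)) (by
    rw [m2_invol hσ, mul_comm]
    exact hprod)
  have h3 : v.valuation F (σ x / x) = 1 := by
    have h4 := congrArg (v.valuation F) hprod
    rw [map_mul, map_one] at h4
    rw [not_lt] at h1 h2
    refine le_antisymm (not_lt.1 fun h5 => ?_) h1
    have h6 : 1 < v.valuation F (σ x / x) * v.valuation F (σ (σ x / x)) := one_lt_mul_of_lt_of_le h5 h2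
    rw [h4] at h6
    exact lt_irrefl _ h6
  rw [map_div₀, div_eq_one_iff_eq hvx] at h3
  exact h3

/-- Chunk M2 (S/M). If l were in v^2: absNorm v is l or l^2 and l^2 = absNorm (l) = absNorm(v)^2 absNorm(..), so absNorm v = l, v^2 = (l) (equal norms, divisibility), cj v = v (unique prime above l); 𝓞 F ⧸ v has l elements, every a is congruent to an integer n modulo v, cj a is congruent to n modulo cj v = v: a - cj a in v for all a: contradiction to hun.
So v.valuation F l = exp (-1) (l in v, not in v^2: HeightOneSpectrum.intValuation_le_pow_iff_mem / valuation_of_algebraMap). -/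
theorem val_l (hun : ∃ a : 𝓞 F, a - cj a ∉ v.asIdeal) {l : ℕ} (hl : l.Prime) (hlv : (l : 𝓞 F) ∈ v.asIdeal) :
    v.valuation F (l : F) = WithZero.exp (-1 : ℤ) := by
  have h2 : (l : 𝓞 F) ∉ v.asIdeal ^ 2 := by
    intro h
    have hdvd : v.asIdeal ^ 2 ∣ Ideal.span {(l : 𝓞 F)} := Ideal.dvd_span_singleton.2 h
    obtain ⟨J, hJ⟩ := hdvd
    have hN : Ideal.absNorm (Ideal.span {(l : 𝓞 F)}) = l ^ 2 := Nm_nat l
    have hN2 := congrArg Ideal.absNorm hJ
    rw [hN, map_mul, map_pow] at hN2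
    have hN1 : Ideal.absNorm v.asIdeal ≠ 1 := by
      rw [Ne, Ideal.absNorm_eq_one_iff]
      exact v.isPrime.ne_top
    have hN3 : Ideal.absNorm v.asIdeal ∣ l := by
      rw [← Nat.pow_dvd_pow_iff two_ne_zero]
      exact ⟨_, hN2⟩
    have hN4 : Ideal.absNorm v.asIdeal = l := (hl.eq_one_or_self_of_dvd _ hN3).resolve_left hN1
    have hJ1 : Ideal.absNorm J = 1 := by
      rw [hN4] at hN2
      have h3 : 0 < l ^ 2 := pow_pos hl.pos 2
      have h4 : l ^ 2 * Ideal.absNorm J = l ^ 2 * 1 := by rw [← hN2, mul_one]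
      exact Nat.eq_of_mul_eq_mul_left h3 h4
    rw [Ideal.absNorm_eq_one_iff] at hJ1
    have hsp : v.asIdeal ^ 2 = Ideal.span {(l : 𝓞 F)} := by
      rw [hJ, hJ1, ← Ideal.one_eq_top, mul_one]
    have hstab : ∀ a : 𝓞 F, a ∈ v.asIdeal → cj a ∈ v.asIdeal := by
      intro a ha
      have h3 : a ^ 2 ∈ v.asIdeal ^ 2 := Ideal.pow_mem_pow ha 2
      rw [hsp, Ideal.mem_span_singleton] at h3
      obtain ⟨c, hc⟩ := h3
      have h4 := congrArg cj hc
      rw [map_pow, map_mul, cj_nat] at h4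
      have h5 : (cj a) ^ 2 ∈ v.asIdeal := by
        rw [h4]
        exact v.asIdeal.mul_mem_right _ hlv
      exact v.isPrime.mem_of_pow_mem 2 h5
    have hex : ∀ a : 𝓞 F, ∃ n : ℕ, a - n ∈ v.asIdeal := by
      have hcard : Nat.card (𝓞 F ⧸ v.asIdeal) = l := hN4
      have hfin : Finite (𝓞 F ⧸ v.asIdeal) := Nat.finite_of_card_ne_zero (by rw [hcard]; exact hl.ne_zero)
      let f : Fin l → 𝓞 F ⧸ v.asIdeal := fun k => Ideal.Quotient.mk _ ((k : ℕ) : 𝓞 F)
      have hf : Function.Injective f := by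
        intro a b hab
        have h1 : Ideal.Quotient.mk v.asIdeal (((a : ℕ) : 𝓞 F)) = Ideal.Quotient.mk v.asIdeal (((b : ℕ) : 𝓞 F)) := hab
        rw [Ideal.Quotient.eq] at h1
        by_contra hne
        have h2 := a.2
        have h3 := b.2
        have h4 : ¬ (l : ℤ) ∣ ((a : ℕ) : ℤ) - ((b : ℕ) : ℤ) := by
          intro h5
          have h7 : ((a : ℕ) : ℤ) - ((b : ℕ) : ℤ) = 0 := by
            apply Int.eq_zero_of_abs_lt_dvd h5
            rw [abs_lt]
            constructor <;> omega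
          apply hne
          apply Fin.ext
          omega
        obtain ⟨u, w, huw⟩ := (Nat.prime_iff_prime_int.1 hl).irreducible.coprime_iff_not_dvd.2 h4
        apply v.isPrime.ne_top
        rw [Ideal.eq_top_iff_one]
        have h5 : (1 : 𝓞 F) = (u : 𝓞 F) * (l : 𝓞 F) + (w : 𝓞 F) * (((a : ℕ) : 𝓞 F) - ((b : ℕ) : 𝓞 F)) := by
          have := congrArg (fun z : ℤ => (z : 𝓞 F)) huw
          push_cast at this
          exact this.symm
        rw [h5]
        exact v.asIdeal.add_mem (v.asIdeal.mul_mem_left _ hlv) (v.asIdeal.mul_mem_left _ h1)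
      have hb : Function.Bijective f := by
        rw [Nat.bijective_iff_injective_and_card]
        refine ⟨hf, ?_⟩
        rw [hcard, Nat.card_eq_fintype_card, Fintype.card_fin]
      intro a
      obtain ⟨k, hk⟩ := hb.2 (Ideal.Quotient.mk _ a)
      refine ⟨(k : ℕ), ?_⟩
      rw [← Ideal.Quotient.eq]
      exact hk.symm
    obtain ⟨a, ha⟩ := hun
    apply ha
    obtain ⟨n, hn⟩ := hex a
    have h3 := hstab _ hn
    rw [map_sub, cj_nat] at h3
    have h4 : a - cj a = (a - n) - (cj a - n) := by ring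
    rw [h4]
    exact v.asIdeal.sub_mem hn h3
  have e1 : v.valuation F (l : F) = v.intValuation (l : 𝓞 F) := by
    rw [← v.valuation_of_algebraMap (K := F)]
    exact congrArg (v.valuation F) (map_natCast (algebraMap (𝓞 F) F) l).symm
  have hl0 : (l : 𝓞 F) ≠ 0 := Nat.cast_ne_zero.2 hl.ne_zero
  have e2 : v.intValuation (l : 𝓞 F) ≤ WithZero.exp (-((1 : ℕ) : ℤ)) := by
    rw [v.intValuation_le_pow_iff_mem, pow_one]
    exact hlv
  have e3 : ¬ v.intValuation (l : 𝓞 F) ≤ WithZero.exp (-((2 : ℕ) : ℤ)) := by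
    rw [v.intValuation_le_pow_iff_mem]
    exact h2
  rw [e1]
  have e4 : v.intValuation (l : 𝓞 F) ≠ 0 := v.intValuation_ne_zero _ hl0
  rw [← WithZero.exp_log e4] at e2 e3 ⊢
  rw [WithZero.exp_le_exp] at e2 e3
  congr 1
  push_cast at e2 e3
  omega

end H13D
end

-- from Lib.H13D.M3
section

/-! # H13D, part M: elements of trace one -/

open NumberField IsDedekindDomain WeierstrassCurve

namespace H13D

open H55P (IQ embF eF LF Per IsHecke Pt ac Inert Dec Nm)
open H55K

variable {F : Type} [Field F] [NumberField F] [IQ F] {σ : F ≃ₐ[ℚ] F} {v : HeightOneSpectrum (𝓞 F)}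

/-- Chunk M3 (S/M). v stable under the conjugation. l odd (2 not in v): e = 1/2. l = 2 (2 in v): a with a - cj a not in v, t = a + cj a = (a - cj a) + 2 cj a is not in v, e = a/t (t is fixed by σ). Values: a integral, v.valuation t = 1, val_cj. -/
theorem e_inert (hσ : Cj σ) (hun : ∃ a : 𝓞 F, a - cj a ∉ v.asIdeal) (hv : ∀ a : 𝓞 F, a ∈ v.asIdeal → cj a ∈ v.asIdeal) :
    ∃ e : F, e + σ e = 1 ∧ v.valuation F e ≤ 1 ∧ v.valuation F (σ e) ≤ 1 := by
  by_cases h2 : (2 : 𝓞 F) ∈ v.asIdeal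
  · obtain ⟨a, ha⟩ := hun
    set t : 𝓞 F := a + cj a with ht
    have ht' : t ∉ v.asIdeal := by
      intro hmem
      apply ha
      have e : a - cj a = t - 2 * cj a := by rw [ht]; ring
      rw [e]
      exact v.asIdeal.sub_mem hmem (v.asIdeal.mul_mem_right _ h2)
    have ht0 : (t : F) ≠ 0 := by
      intro h0
      apply ht'
      have : t = 0 := by exact_mod_cast h0
      rw [this]
      exact v.asIdeal.zero_mem
    have hvt : v.valuation F (t : F) = 1 := (HeightOneSpectrum.valuation_eq_one_iff_notMem v).2 ht'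
    have hst : σ (t : F) = (t : F) := by
      rw [hσ, ht, map_add, cj_cj, add_comm]
    refine ⟨(a : F) / (t : F), ?_, ?_, ?_⟩
    · rw [map_div₀, hst, hσ, ← add_div, div_eq_one_iff_eq ht0, ht]
      simp
    · rw [map_div₀, hvt, div_one]
      exact v.valuation_le_one a
    · rw [map_div₀, hst, hσ, map_div₀, hvt, div_one]
      exact v.valuation_le_one (cj a)
  · have h2' : v.valuation F (2 : F) = 1 := by
      have h3 := (HeightOneSpectrum.valuation_eq_one_iff_notMem (K := F) v (r := 2)).2 h2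
      rwa [map_ofNat] at h3
    have e2 : v.valuation F ((2 : F)⁻¹) = 1 := by rw [map_inv₀, h2', inv_one]
    refine ⟨(2 : F)⁻¹, ?_, e2.le, ?_⟩
    · rw [map_inv₀, map_ofNat]
      norm_num
    · rw [map_inv₀, map_ofNat]
      exact e2.le

/-- Chunk M3 (M). v not stable: the conjugate prime w (a in w iff cj a in v; Ideal.comap cj) is different from v, so v^K and w^K are coprime ideals: x in 𝓞 F with x - 1 in v^K and x in w^K; cj x is in v^K. t = x + cj x is congruent to 1 modulo v^K (K ≥ 1), so v.valuation t = 1; e = x/t: σ e = cj x/t, e + σ e = 1, v(e) ≤ 1, v(σ e) = v(cj x) ≤ exp (-K)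
(HeightOneSpectrum.intValuation_le_pow_iff_mem, valuation_of_algebraMap). -/
theorem e_split (hσ : Cj σ) (hv : ¬ ∀ a : 𝓞 F, a ∈ v.asIdeal → cj a ∈ v.asIdeal) (K : ℕ) :
    ∃ e : F, e + σ e = 1 ∧ v.valuation F e ≤ 1 ∧ v.valuation F (σ e) ≤ WithZero.exp (-(K : ℤ)) := by
  set w : Ideal (𝓞 F) := Ideal.comap cj v.asIdeal with hw
  have hwmem : ∀ a, a ∈ w ↔ cj a ∈ v.asIdeal := fun a => Ideal.mem_comap
  have hvmax : v.asIdeal.IsMaximal := v.isMaximal
  have hwmax : w.IsMaximal := Ideal.comap_isMaximal_of_equiv cj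
  have hne : v.asIdeal ≠ w := by
    intro h
    apply hv
    intro a ha
    rw [← hwmem, ← h]
    exact ha
  have hcop : IsCoprime (v.asIdeal ^ (K + 1)) (w ^ (K + 1)) := (Ideal.isCoprime_of_isMaximal hne).pow
  obtain ⟨i, hi, x, hx, hix⟩ := Ideal.isCoprime_iff_exists.1 hcop
  have hcx : cj x ∈ v.asIdeal ^ (K + 1) := by
    have := Ideal.le_comap_pow cj (K := v.asIdeal) (K + 1) hx
    exact Ideal.mem_comap.1 this
  have hpow : v.asIdeal ^ (K + 1) ≤ v.asIdeal := Ideal.pow_le_self (by omega)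
  set t : 𝓞 F := x + cj x with ht
  have ht' : t ∉ v.asIdeal := by
    intro hmem
    apply v.isPrime.ne_top
    rw [Ideal.eq_top_iff_one]
    have e : (1 : 𝓞 F) = i + t - cj x := by rw [ht, ← hix]; ring
    rw [e]
    exact v.asIdeal.sub_mem (v.asIdeal.add_mem (hpow hi) hmem) (hpow hcx)
  have ht0 : (t : F) ≠ 0 := by
    intro h0
    apply ht'
    have : t = 0 := by exact_mod_cast h0
    rw [this]
    exact v.asIdeal.zero_mem
  have hvt : v.valuation F (t : F) = 1 := (HeightOneSpectrum.valuation_eq_one_iff_notMem v).2 ht'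
  have hst : σ (t : F) = (t : F) := by
    rw [hσ, ht, map_add, cj_cj, add_comm]
  refine ⟨(x : F) / (t : F), ?_, ?_, ?_⟩
  · rw [map_div₀, hst, hσ, ← add_div, div_eq_one_iff_eq ht0, ht]
    simp
  · rw [map_div₀, hvt, div_one]
    exact v.valuation_le_one x
  · rw [map_div₀, hst, hσ, map_div₀, hvt, div_one, v.valuation_of_algebraMap (K := F)]
    refine ((v.intValuation_le_pow_iff_mem (cj x) (K + 1)).2 hcx).trans ?_
    rw [WithZero.exp_le_exp]
    push_cast
    linarith

end H13D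
end

-- from Lib.H13D.M4
section

/-! # H13D, part M: descent of a good equation from F to the rational numbers -/

open NumberField IsDedekindDomain WeierstrassCurve

namespace H13D

open H55P (IQ embF eF LF Per IsHecke Pt ac Inert Dec Nm)
open H55K

variable {F : Type} [Field F] [NumberField F] [IQ F] {σ : F ≃ₐ[ℚ] F} {v : HeightOneSpectrum (𝓞 F)}

theorem m4_ss (hσ : Cj σ) (x : F) : σ (σ x) = x := by
  obtain ⟨a, b, _, rfl⟩ := IsFractionRing.div_surjective (A := 𝓞 F) x
  rw [map_div₀, map_div₀, hσ a, hσ b, hσ, hσ, cj_cj, cj_cj]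

theorem m4_map (σ : F ≃ₐ[ℚ] F) (E : WeierstrassCurve ℚ) (C : VariableChange F) :
    (C.map (σ : F →+* F)) • (E⁄F) = (C • (E⁄F)).map (σ : F →+* F) := by
  have e : (E⁄F).map (σ : F →+* F) = E⁄F := by
    rw [WeierstrassCurve.baseChange, WeierstrassCurve.map_map]
    congr 1
    exact Subsingleton.elim _ _
  rw [← WeierstrassCurve.map_variableChange, e]

/-- Chunk M4 (S/M). v stable. c = l^n as a unit of F (rational). E' = ⟨c, r, s, t⟩ • (E⁄F) is integral, and so is its image under σ, which is ⟨c, σ r, σ s, σ t⟩ • (E⁄F) (map_variableChange; E is over ℚ; val_cj), and this is ⟨1, r', s', t'⟩ • E' with r' = (σ r - r)/c^2, s' = (σ s - s)/c, t' = (σ t - t - s (σ r - r))/c^3 (vi_comp). vi_uniq for E'. -/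
theorem conj_bounds (hσ : Cj σ) (hv : ∀ a : 𝓞 F, a ∈ v.asIdeal → cj a ∈ v.asIdeal) (E : WeierstrassCurve ℚ) {c : Fˣ} (hc : σ (c : F) = c)
    {r s t : F} (h : VI (v.valuation F) ((⟨c, r, s, t⟩ : VariableChange F) • (E⁄F))) :
    v.valuation F ((σ r - r) / (c : F) ^ 2) ≤ 1 ∧ v.valuation F ((σ s - s) / (c : F)) ≤ 1 ∧
      v.valuation F ((σ t - t - s * (σ r - r)) / (c : F) ^ 3) ≤ 1 := by
  have hmap := m4_map σ E (⟨c, r, s, t⟩ : VariableChange F)
  have hcu : Units.map ((σ : F →+* F) : F →* F) c = c := by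
    ext
    exact hc
  have hmap' : (⟨c, σ r, σ s, σ t⟩ : VariableChange F) • (E⁄F) =
      ((⟨c, r, s, t⟩ : VariableChange F) • (E⁄F)).map (σ : F →+* F) := by
    rw [← hmap]
    congr 1
    ext
    · exact hc.symm
    · rfl
    · rfl
    · rfl
  have hVI' : VI (v.valuation F) ((⟨c, σ r, σ s, σ t⟩ : VariableChange F) • (E⁄F)) := by
    rw [hmap']
    obtain ⟨h1, h2, h3, h4, h6⟩ := h
    refine ⟨?_, ?_, ?_, ?_, ?_⟩
    · exact (val_cj hσ hv _).le.trans h1
    · exact (val_cj hσ hv _).le.trans h2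
    · exact (val_cj hσ hv _).le.trans h3
    · exact (val_cj hσ hv _).le.trans h4
    · exact (val_cj hσ hv _).le.trans h6
  have hcomp := vi_comp (E := E⁄F) c r s t ((σ r - r) / (c : F) ^ 2) ((σ s - s) / (c : F))
    ((σ t - t - s * (σ r - r)) / (c : F) ^ 3)
  have hc0 : (c : F) ≠ 0 := c.ne_zero
  have e1 : r + (c : F) ^ 2 * ((σ r - r) / (c : F) ^ 2) = σ r := by field_simp; ring
  have e2 : s + (c : F) * ((σ s - s) / (c : F)) = σ s := by field_simp; ring
  have e3 : t + (c : F) ^ 3 * ((σ t - t - s * (σ r - r)) / (c : F) ^ 3) + (c : F) ^ 2 * s * ((σ r - r) / (c : F) ^ 2) = σ t := by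
    field_simp; ring
  rw [e1, e2, e3] at hcomp
  refine vi_uniq h ?_
  rw [hcomp]
  exact hVI'

/-- Chunk M4 (S/M). r₁ = r + σ e (σ r - r) = e r + σ e σ r is fixed by σ (σ σ = id), s₁ and t₁ = τ + σ e (σ τ - τ) too: rat_of_fix gives rational numbers r₀, s₀, t₀; c is the image of c₀. ⟨c, r₁, s₁, t₁⟩ • (E⁄F) = ⟨1, r', s', t'⟩ • (⟨c, r, s, t⟩ • (E⁄F)) with r' = σ e (σ r - r)/c^2, s' = σ e (σ s - s)/c and t' = (t₁ - τ)/c^3, τ = t + s (r₁ - r)
(vi_comp: t + c^3 t' + c^2 s r' = t + (t₁ - τ) + s (r₁ - r) = t₁). vi_change. It is the image of ⟨c₀, r₀, s₀, t₀⟩ • E (map_variableChange). -/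
theorem descend_core (hσ : Cj σ) (E : WeierstrassCurve ℚ) {c₀ : ℚˣ} {c : Fˣ} (hc : algebraMap ℚ F (c₀ : ℚ) = c)
    {r s t e : F} (h : VI (v.valuation F) ((⟨c, r, s, t⟩ : VariableChange F) • (E⁄F))) (he : e + σ e = 1)
    (h1 : v.valuation F (σ e * (σ r - r) / (c : F) ^ 2) ≤ 1) (h2 : v.valuation F (σ e * (σ s - s) / (c : F)) ≤ 1)
    (h3 : ∀ τ : F, τ = t + s * (σ e * (σ r - r)) → v.valuation F (σ e * (σ τ - τ) / (c : F) ^ 3) ≤ 1) :
    ∃ r₀ s₀ t₀ : ℚ, VI (v.valuation F) (((⟨c₀, r₀, s₀, t₀⟩ : VariableChange ℚ) • E)⁄F) := by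
  have hs2 := m4_ss hσ
  have he' : σ e + e = 1 := by rw [add_comm]; exact he
  have e1 : e = 1 - σ e := by rw [← he]; ring
  -- the new parameters
  set r₁ : F := r + σ e * (σ r - r) with hr₁
  set s₁ : F := s + σ e * (σ s - s) with hs₁
  set τ : F := t + s * (σ e * (σ r - r)) with hτ
  set t₁ : F := τ + σ e * (σ τ - τ) with ht₁
  have fix : ∀ x : F, σ (x + σ e * (σ x - x)) = x + σ e * (σ x - x) := by
    intro x
    rw [map_add, map_mul, map_sub, hs2, hs2]
    linear_combination (x - σ x) * he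
  obtain ⟨r₀, hr₀⟩ := rat_of_fix hσ (fix r)
  obtain ⟨s₀, hs₀⟩ := rat_of_fix hσ (fix s)
  obtain ⟨t₀, ht₀⟩ := rat_of_fix hσ (fix τ)
  refine ⟨r₀, s₀, t₀, ?_⟩
  have hc0 : (c : F) ≠ 0 := c.ne_zero
  have hcomp := vi_comp (E := E⁄F) c r s t (σ e * (σ r - r) / (c : F) ^ 2) (σ e * (σ s - s) / (c : F))
    (σ e * (σ τ - τ) / (c : F) ^ 3)
  have g1 : r + (c : F) ^ 2 * (σ e * (σ r - r) / (c : F) ^ 2) = r₁ := by rw [hr₁]; field_simp
  have g2 : s + (c : F) * (σ e * (σ s - s) / (c : F)) = s₁ := by rw [hs₁]; field_simp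
  have g3 : t + (c : F) ^ 3 * (σ e * (σ τ - τ) / (c : F) ^ 3) + (c : F) ^ 2 * s * (σ e * (σ r - r) / (c : F) ^ 2) = t₁ := by
    rw [ht₁, mul_div_cancel₀ _ (pow_ne_zero 3 hc0)]
    have : (c : F) ^ 2 * s * (σ e * (σ r - r) / (c : F) ^ 2) = s * (σ e * (σ r - r)) := by field_simp
    rw [this, hτ]
    ring
  rw [g1, g2, g3] at hcomp
  have hVI : VI (v.valuation F) ((⟨c, r₁, s₁, t₁⟩ : VariableChange F) • (E⁄F)) := by
    rw [← hcomp]
    exact vi_change h h1 h2 (h3 τ rfl)
  have hfin : ((⟨c₀, r₀, s₀, t₀⟩ : VariableChange ℚ) • E)⁄F = (⟨c, r₁, s₁, t₁⟩ : VariableChange F) • (E⁄F) := by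
    rw [WeierstrassCurve.baseChange, ← WeierstrassCurve.map_variableChange]
    congr 1
    ext
    · exact hc
    · exact hr₀
    · exact hs₀
    · exact ht₀
  rw [hfin]
  exact hVI

end H13D
end

-- from Lib.H13D.M5
section

/-! # H13D, part M: descent of a good equation from F to the rational numbers -/

open NumberField IsDedekindDomain WeierstrassCurve

namespace H13D

open H55P (IQ embF eF LF Per IsHecke Pt ac Inert Dec Nm)
open H55K

variable {F : Type} [Field F] [NumberField F] [IQ F] {σ : F ≃ₐ[ℚ] F} {v : HeightOneSpectrum (𝓞 F)}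

theorem m5_big (B : WithZero (Multiplicative ℤ)) : ∃ K : ℕ, WithZero.exp (-(K : ℤ)) * B ≤ 1 := by
  by_cases hB : B = 0
  · exact ⟨0, by rw [hB, mul_zero]; exact zero_le⟩
  · refine ⟨(WithZero.log B).toNat, ?_⟩
    rw [← WithZero.exp_log hB, ← WithZero.exp_add, ← WithZero.exp_zero, WithZero.exp_le_exp]
    rw [WithZero.log_exp]
    have := Int.self_le_toNat (WithZero.log B)
    omega

theorem m5_mul {Γ : Type} [LinearOrderedCommGroupWithZero Γ] {w : Valuation F Γ} {x y : F} (hx : w x ≤ 1) (hy : w y ≤ 1) :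
    w (x * y) ≤ 1 := by
  rw [map_mul]
  exact mul_le_one' hx hy

/-- Chunk M5 (M). c in Q^*, h as in descend_core. v stable: e from e_inert, conj_bounds: h1, h2 are products of integral elements. h3: σ τ - τ with τ = t + s (σ e (σ r - r)): σ τ = σ t + σ s (e (r - σ r)) (σ σ = id, σ σ e = e), so σ τ - τ = (σ t - t - s (σ r - r)) + s (σ r - r) (1 - σ e) - σ s e (σ r - r) = (σ t - t - s (σ r - r)) - e (σ s - s) (σ r - r) (1 - σ e = e);
divided by c^3 both terms are integral (conj_bounds). v not stable: let B ≥ 1 be a bound for the values of (σ r - r)/c^2, (σ s - s)/c, s (σ r - r)/c^3 and σ s (σ r - r)/c^3, (σ t - t)/c^3; K with exp (-K) B ≤ 1; e from e_split: h1, h2 clear; h3: σ τ - τ = (σ t - t) - σ s e (σ r - r) - s σ e (σ r - r), V(e) ≤ 1, V(σ e) ≤ 1, so the value of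
(σ τ - τ)/c^3 is ≤ B. descend_core. -/
theorem descend_vi (hσ : Cj σ) (hun : ∃ a : 𝓞 F, a - cj a ∉ v.asIdeal) (E : WeierstrassCurve ℚ) {c₀ : ℚˣ} {c : Fˣ}
    (hc : algebraMap ℚ F (c₀ : ℚ) = c) {r s t : F} (h : VI (v.valuation F) ((⟨c, r, s, t⟩ : VariableChange F) • (E⁄F))) :
    ∃ r₀ s₀ t₀ : ℚ, VI (v.valuation F) (((⟨c₀, r₀, s₀, t₀⟩ : VariableChange ℚ) • E)⁄F) := by
  have hc0 : (c : F) ≠ 0 := c.ne_zero
  have hcσ : σ (c : F) = c := by
    rw [← hc]
    exact σ.commutes _
  have hinv := m2_invol hσ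
  have hτ : ∀ e : F, σ (t + s * (σ e * (σ r - r))) = σ t + σ s * (e * (r - σ r)) := by
    intro e
    rw [map_add, map_mul, map_mul, map_sub, hinv, hinv]
  by_cases hv : ∀ a : 𝓞 F, a ∈ v.asIdeal → cj a ∈ v.asIdeal
  · obtain ⟨e, he, he1, he2⟩ := e_inert hσ hun hv
    obtain ⟨b1, b2, b3⟩ := conj_bounds hσ hv E hcσ h
    refine descend_core hσ E hc h he ?_ ?_ ?_
    · rw [mul_div_assoc]
      exact m5_mul he2 b1
    · rw [mul_div_assoc]
      exact m5_mul he2 b2
    · rintro τ rfl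
      have e1 : σ e * (σ (t + s * (σ e * (σ r - r))) - (t + s * (σ e * (σ r - r)))) / (c : F) ^ 3 =
          σ e * ((σ t - t - s * (σ r - r)) / (c : F) ^ 3 - e * (((σ s - s) / (c : F)) * ((σ r - r) / (c : F) ^ 2))) := by
        rw [hτ]
        have he3 : σ e = 1 - e := by rw [← he]; ring
        rw [he3]
        field_simp
        ring
      rw [e1]
      refine m5_mul he2 ((Valuation.map_sub _ _ _).trans (max_le b3 (m5_mul he1 (m5_mul b2 b1))))
  · set w := v.valuation F with hw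
    set B : WithZero (Multiplicative ℤ) := max (max (w ((σ r - r) / (c : F) ^ 2)) (w ((σ s - s) / (c : F))))
      (max (max (w (s * (σ r - r) / (c : F) ^ 3)) (w (σ s * (σ r - r) / (c : F) ^ 3))) (w ((σ t - t) / (c : F) ^ 3))) with hB
    obtain ⟨K, hK⟩ := m5_big B
    obtain ⟨e, he, he1, he2⟩ := e_split hσ hv K
    have he2' : w (σ e) ≤ 1 := he2.trans (by
      rw [← WithZero.exp_zero, WithZero.exp_le_exp]
      omega)
    have hb : ∀ y : F, w y ≤ B → w (σ e * y) ≤ 1 := by
      intro y hy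
      rw [map_mul]
      exact (mul_le_mul' he2 hy).trans hK
    have c1 : w ((σ r - r) / (c : F) ^ 2) ≤ B := (le_max_left _ _).trans (le_max_left _ _)
    have c2 : w ((σ s - s) / (c : F)) ≤ B := (le_max_right _ _).trans (le_max_left _ _)
    have c3 : w (s * (σ r - r) / (c : F) ^ 3) ≤ B := ((le_max_left _ _).trans (le_max_left _ _)).trans (le_max_right _ _)
    have c4 : w (σ s * (σ r - r) / (c : F) ^ 3) ≤ B := ((le_max_right _ _).trans (le_max_left _ _)).trans (le_max_right _ _)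
    have c5 : w ((σ t - t) / (c : F) ^ 3) ≤ B := (le_max_right _ _).trans (le_max_right _ _)
    refine descend_core hσ E hc h he ?_ ?_ ?_
    · rw [mul_div_assoc]
      exact hb _ c1
    · rw [mul_div_assoc]
      exact hb _ c2
    · rintro τ rfl
      have e1 : σ e * (σ (t + s * (σ e * (σ r - r))) - (t + s * (σ e * (σ r - r)))) / (c : F) ^ 3 =
          σ e * ((σ t - t) / (c : F) ^ 3) - e * (σ e * (σ s * (σ r - r) / (c : F) ^ 3)) -
            σ e * (σ e * (s * (σ r - r) / (c : F) ^ 3)) := by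
        rw [hτ]
        field_simp
        ring
      rw [e1]
      refine (Valuation.map_sub _ _ _).trans (max_le ((Valuation.map_sub _ _ _).trans (max_le (hb _ c5) ?_)) ?_)
      · exact m5_mul he1 (hb _ c4)
      · exact m5_mul he2' (hb _ c3)

theorem m5_int {l : ℕ} (hl : l.Prime) (hlv : (l : 𝓞 F) ∈ v.asIdeal) (n : ℤ) : (n : 𝓞 F) ∈ v.asIdeal ↔ (l : ℤ) ∣ n := by
  constructor
  · intro h
    by_contra hn
    obtain ⟨u, w, huw⟩ := (Nat.prime_iff_prime_int.1 hl).irreducible.coprime_iff_not_dvd.2 hn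
    apply v.isPrime.ne_top
    rw [Ideal.eq_top_iff_one]
    have h5 : (1 : 𝓞 F) = (u : 𝓞 F) * (l : 𝓞 F) + (w : 𝓞 F) * (n : 𝓞 F) := by
      have := congrArg (fun z : ℤ => (z : 𝓞 F)) huw
      push_cast at this
      exact this.symm
    rw [h5]
    exact v.asIdeal.add_mem (v.asIdeal.mul_mem_left _ hlv) (v.asIdeal.mul_mem_left _ h)
  · rintro ⟨c, rfl⟩
    push_cast
    exact v.asIdeal.mul_mem_right _ hlv

theorem m5_val (n : ℤ) : v.valuation F ((n : ℤ) : F) < 1 ↔ (n : 𝓞 F) ∈ v.asIdeal := by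
  rw [← v.valuation_lt_one_iff_mem (K := F)]
  have e : algebraMap (𝓞 F) F (n : 𝓞 F) = ((n : ℤ) : F) := map_intCast _ n
  rw [← e]

theorem m5_val1 (n : ℤ) : v.valuation F ((n : ℤ) : F) ≤ 1 := by
  have e : algebraMap (𝓞 F) F (n : 𝓞 F) = ((n : ℤ) : F) := map_intCast _ n
  rw [← e]
  exact v.valuation_le_one _

theorem m5_rat (q : ℚ) : algebraMap ℚ F q * ((q.den : ℤ) : F) = ((q.num : ℤ) : F) := by
  have h1 : q * (q.den : ℚ) = (q.num : ℚ) := Rat.mul_den_eq_num q
  have h2 := congrArg (algebraMap ℚ F) h1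
  rw [map_mul, map_natCast, map_intCast] at h2
  rw [← h2]
  push_cast
  rfl

/-- Chunk M5 (S). v.valuation F (q : F) ≤ 1 implies that l does not divide the denominator: q = num/den; if l divides den then not num (coprime), V(den) < 1, V(num) = 1 (an integer prime to l is not in v). -/
theorem den_of_val {l : ℕ} (hl : l.Prime) (hlv : (l : 𝓞 F) ∈ v.asIdeal) (q : ℚ) (h : v.valuation F (algebraMap ℚ F q) ≤ 1) : ¬ l ∣ q.den := by
  intro hd
  have h1 : ¬ (l : ℤ) ∣ q.num := by
    intro h2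
    have h3 := q.reduced
    have h4 : l ∣ q.num.natAbs := Int.natCast_dvd.1 h2
    have h5 := Nat.dvd_gcd h4 hd
    rw [Nat.Coprime] at h3
    rw [h3] at h5
    exact hl.one_lt.ne' (Nat.dvd_one.1 h5)
  have h2 := congrArg (v.valuation F) (m5_rat (F := F) q)
  rw [map_mul] at h2
  have h3 : v.valuation F ((q.den : ℤ) : F) < 1 := (m5_val _).2 ((m5_int hl hlv _).2 (by exact_mod_cast hd))
  have h4 : v.valuation F (algebraMap ℚ F q) * v.valuation F ((q.den : ℤ) : F) < 1 :=
    mul_lt_one_of_nonneg_of_lt_one_right h zero_le h3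
  rw [h2, m5_val, m5_int hl hlv] at h4
  exact h1 h4

/-- Chunk M5 (S). The same for the numerator. -/
theorem num_of_val {l : ℕ} (hl : l.Prime) (hlv : (l : 𝓞 F) ∈ v.asIdeal) (q : ℚ) (h : v.valuation F (algebraMap ℚ F q) = 1) : ¬ (l : ℤ) ∣ q.num := by
  intro h2
  have h3 := congrArg (v.valuation F) (m5_rat (F := F) q)
  rw [map_mul, h, one_mul] at h3
  have h4 := (m5_val (v := v) q.num).2 ((m5_int hl hlv _).2 h2)
  rw [← h3, m5_val, m5_int hl hlv] at h4
  exact den_of_val hl hlv q h.le (by exact_mod_cast h4)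

end H13D
end

-- from Lib.H13D.M6
section

/-! # H13D, part M: descent of a good equation from F to the rational numbers -/

open NumberField IsDedekindDomain WeierstrassCurve

namespace H13D

open H55P (IQ embF eF LF Per IsHecke Pt ac Inert Dec Nm)
open H55K

variable {F : Type} [Field F] [NumberField F] [IQ F] {v : HeightOneSpectrum (𝓞 F)}

/-- Chunk M6 (M). UNRAMIFIED PRIMES. h: C = ⟨u, r, s, t⟩ over F with C • (E⁄F) integral, discriminant of value 1. v.valuation F l = exp (-1) (val_l), so V(u) = V(l^n) for an integer n (the valuation of u ≠ 0 is exp of an integer), u = c ε with c the image of c₀ = l^n (a unit of ℚ; zpow), V(ε) = 1: vi_unit gives VI for ⟨c, r, s, t⟩. descend_vi: r₀, s₀, t₀; E' = ⟨c₀, r₀, s₀, t₀⟩ • E.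
The discriminant of E' is E.Δ/c₀^12 (variableChange_Δ), that of C • (E⁄F) is E.Δ/u^12: V(E'.Δ) = V(E.Δ)/V(c)^12 = V(E.Δ)/V(u)^12 = 1. den_of_val, num_of_val (the coefficients of E'⁄F are the images). -/
theorem descend (hun : ∃ a : 𝓞 F, a - cj a ∉ v.asIdeal) {l : ℕ} (hl : l.Prime) (hlv : (l : 𝓞 F) ∈ v.asIdeal) (E : WeierstrassCurve ℚ)
    (h : GoodAt (E⁄F) v) : ∃ C : VariableChange ℚ, IntL (C • E) l := by
  obtain ⟨σ, hσ⟩ := exists_cj F
  obtain ⟨C, k1, k2, k3, k4, k6, kΔ⟩ := h
  obtain ⟨u, r, s, t⟩ := C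
  have hl0 : (l : F) ≠ 0 := by exact_mod_cast hl.ne_zero
  have hlQ : (l : ℚ) ≠ 0 := by exact_mod_cast hl.ne_zero
  have hvl := val_l hun hl hlv
  have hu0 : v.valuation F (u : F) ≠ 0 := (Valuation.ne_zero_iff _).2 u.ne_zero
  set n : ℤ := WithZero.log (v.valuation F (u : F)) with hn
  have hvu : v.valuation F (u : F) = WithZero.exp n := (WithZero.exp_log hu0).symm
  set c₀ : ℚˣ := (Units.mk0 (l : ℚ) hlQ) ^ (-n) with hc₀
  set c : Fˣ := Units.map ((algebraMap ℚ F : ℚ →+* F) : ℚ →* F) c₀ with hc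
  have hcc : algebraMap ℚ F (c₀ : ℚ) = (c : F) := rfl
  have hvc : v.valuation F (c : F) = WithZero.exp n := by
    rw [← hcc, hc₀, Units.val_zpow_eq_zpow_val, Units.val_mk0, map_zpow₀, map_natCast, map_zpow₀, hvl, ← WithZero.exp_zsmul]
    congr 1
    simp
  have hvε : v.valuation F (((c⁻¹ * u : Fˣ) : F)) = 1 := by
    rw [Units.val_mul, Units.val_inv_eq_inv_val, map_mul, map_inv₀, hvc, hvu]
    exact inv_mul_cancel₀ WithZero.exp_ne_zero
  have hVI : VI (v.valuation F) ((⟨c * (c⁻¹ * u), r, s, t⟩ : VariableChange F) • (E⁄F)) := by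
    rw [mul_inv_cancel_left]
    exact ⟨k1, k2, k3, k4, k6⟩
  obtain ⟨r₀, s₀, t₀, h0⟩ := descend_vi hσ hun E hcc (vi_unit hvε hVI)
  have hΔ : v.valuation F (algebraMap ℚ F ((⟨c₀, r₀, s₀, t₀⟩ : VariableChange ℚ) • E).Δ) = 1 := by
    rw [variableChange_Δ] at kΔ ⊢
    have e1 : (E⁄F).Δ = algebraMap ℚ F E.Δ := E.map_Δ _
    rw [e1] at kΔ
    simp only [map_mul, map_pow, Units.val_inv_eq_inv_val, map_inv₀] at kΔ ⊢
    rw [hcc, hvc]
    rw [hvu] at kΔ
    exact kΔ
  refine ⟨⟨c₀, r₀, s₀, t₀⟩, ?_, ?_, ?_, ?_, ?_, ?_, ?_⟩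
  · exact den_of_val hl hlv _ h0.a1
  · exact den_of_val hl hlv _ h0.a2
  · exact den_of_val hl hlv _ h0.a3
  · exact den_of_val hl hlv _ h0.a4
  · exact den_of_val hl hlv _ h0.a6
  · exact num_of_val hl hlv _ hΔ
  · exact den_of_val hl hlv _ hΔ.le

end H13D
end
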