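import Mathlib
import Pool.Agent.Lib.H1M.PP.D_H13Z_TR
import Pool.Agent.Lib.H1M.PP.D_H28R_Defs
import Pool.Agent.Lib.H1M.PP.D_H28T_CD
import Pool.Agent.Lib.H1M.PP.D_H28T_Defs
import Pool.Agent.Lib.H1M.PP.M008
import Pool.Agent.Lib.H1M.PP.M010
import Pool.Agent.Lib.H1M.PP.M013
import Pool.Agent.Lib.H1M.PP.M016
import Pool.Agent.Lib.H1M.PP.M018
import Pool.Agent.Lib.H1M.PP.M020
import Pool.Agent.Lib.H1M.PP.M021
import Pool.Agent.Lib.H1M.PP.M026
import Pool.Agent.Lib.H1M.PP.M034
import Pool.Agent.Lib.H1M.PP.M037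
import Pool.Agent.Lib.H1M.PP.M038
import Pool.Agent.Lib.H1M.PP.M040
import Pool.Agent.Lib.H1M.PP.M043
import Pool.Agent.Lib.H1M.PP.M044

/-! Merged copies (to shorten the build) of Lib.H13R.N3, Lib.H28I.C2, Lib.H28I.C3, Lib.H28T.AR2, Lib.H55W.CL2, Lib.H55W.CL3, Lib.H28T.WSt, Lib.H28T.W21, Lib.H28T.W8, Lib.H28T.W7, Lib.H55N.S2, Lib.H55N.S3, Lib.H55N.WR1, Lib.H28T.W6. -/

-- from Lib.H13R.N3
section

/-! # H13R: transport of the vanishing of the Selmer group -/

open NumberField IsDedekindDomain WeierstrassCurve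

namespace H13R

open H55P
open H13Z (SelNon SelNonT)

/-- Chunk N3 (S/M). The positive version of H13Y.non_base (D1.lean) for the inertia conditions: given a class c for W⁄F over K (as in SelZero) the function c' of the proof of non_base is a class for W over K.restrictScalars k; Inert V (t.restrictScalars k) iff Inert V t (same function; V = ⊤ allowed). hS gives T', and φ T' works for c (end of that proof). -/
theorem zero_base {k F Ω : Type} [Field k] [Field F] [Field Ω] [DecidableEq Ω] [Algebra k F] [Algebra k Ω]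
    [Algebra F Ω] [IsScalarTower k F Ω] [FiniteDimensional k F] (W : WeierstrassCurve k) (p : ℕ)
    (K : IntermediateField F Ω) [FiniteDimensional F K] (hS : SelZero W p (K.restrictScalars k)) :
    SelZero (W⁄F) p K := by
  classical
  intro c hc hp hV
  obtain ⟨φ, hφ⟩ := base_iso (F := F) (Ω := Ω) W
  obtain ⟨c', hc'⟩ : ∃ c' : (Ω ≃ₐ[k] Ω) → Pt W Ω, ∀ t : Ω ≃ₐ[F] Ω, t ∈ K.fixingSubgroup →
      c' (t.restrictScalars k) = φ.symm (c t) := by
    refine ⟨fun s => if h : ∃ t : Ω ≃ₐ[F] Ω, t.restrictScalars k = s ∧ t ∈ K.fixingSubgroup then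
      φ.symm (c h.choose) else 0, fun t ht => ?_⟩
    have h : ∃ t' : Ω ≃ₐ[F] Ω, t'.restrictScalars k = t.restrictScalars k ∧ t' ∈ K.fixingSubgroup :=
      ⟨t, rfl, ht⟩
    have h2 : h.choose = t := AlgEquiv.restrictScalars_injective k h.choose_spec.1
    show (if h : ∃ t' : Ω ≃ₐ[F] Ω, t'.restrictScalars k = t.restrictScalars k ∧ t' ∈ K.fixingSubgroup then
      φ.symm (c h.choose) else 0) = _
    rw [dif_pos h, h2]
  have hac : ∀ (t : Ω ≃ₐ[F] Ω) (Q : Pt (W⁄F) Ω), ac W (t.restrictScalars k) (φ.symm Q) =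
      φ.symm (ac (W⁄F) t Q) := by
    intro t Q
    apply φ.injective
    rw [hφ, AddEquiv.apply_symm_apply, AddEquiv.apply_symm_apply]
  have g1 : Coc W (K.restrictScalars k) c' := by
    refine ⟨?_, ?_⟩
    · intro s hs s' hs'
      obtain ⟨t, rfl, ht⟩ := Z11_lift K s hs
      obtain ⟨t', rfl, ht'⟩ := Z11_lift K s' hs'
      have h2 : (t.restrictScalars k) * (t'.restrictScalars k) = (t * t').restrictScalars k := rfl
      rw [h2, hc' _ (mul_mem ht ht'), hc' _ ht, hc' _ ht', hc.mul t ht t' ht', map_add, hac]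
    · obtain ⟨L, hL, hLc⟩ := hc.cont
      refine ⟨L.restrictScalars k, ?_, ?_⟩
      · have : FiniteDimensional k L := FiniteDimensional.trans k F L
        exact this
      · intro s hs hsL
        obtain ⟨t, rfl, ht⟩ := Z11_lift K s hs
        have htL : t ∈ L.fixingSubgroup := by
          rw [IntermediateField.mem_fixingSubgroup_iff] at hsL ⊢
          exact hsL
        rw [hc' _ ht, hLc _ ht htL, map_zero]
  have g2 : ∀ s ∈ (K.restrictScalars k).fixingSubgroup, p • c' s = 0 := by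
    intro s hs
    obtain ⟨t, rfl, ht⟩ := Z11_lift K s hs
    rw [hc' _ ht, ← map_nsmul, hp _ ht, map_zero]
  have g3 : ∀ V : ValuationSubring Ω, ∃ P : Pt W Ω, ∀ s ∈ (K.restrictScalars k).fixingSubgroup,
      Inert V s → c' s = ac W s P - P := by
    intro V
    obtain ⟨P, hP⟩ := hV V
    refine ⟨φ.symm P, fun s hs hD => ?_⟩
    obtain ⟨t, rfl, ht⟩ := Z11_lift K s hs
    have hDt : Inert V t := fun x hx => hD x hx
    rw [hc' _ ht, hP t ht hDt, map_sub, hac]
  obtain ⟨T, hpT, hcT⟩ := hS c' g1 g2 g3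
  refine ⟨φ T, ?_, fun t ht => ?_⟩
  · rw [← map_nsmul, hpT, map_zero]
  · have h1 := hcT _ (Z11_mem (k := k) K t ht)
    rw [hc' _ ht] at h1
    have h2 := congrArg φ h1
    rw [AddEquiv.apply_symm_apply, map_sub, hφ] at h2
    exact h2

theorem n3_core {k : Type} [Field k] (W : WeierstrassCurve k) (K : Type) [Field K]
    [Algebra k K] [FiniteDimensional k K] {Ω : Type} [Field Ω] [DecidableEq Ω] [Algebra k Ω]
    [IsAlgClosed Ω] [Algebra.IsAlgebraic k Ω] (ι : K →ₐ[k] Ω) [DecidableEq (AlgebraicClosure K)] :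
    ∃ (Φ : Pt (W⁄K) (AlgebraicClosure K) ≃+ Pt W Ω)
      (hat : (AlgebraicClosure K ≃ₐ[K] AlgebraicClosure K) → (Ω ≃ₐ[k] Ω)),
      (∀ s t, hat (s * t) = hat s * hat t) ∧
      (∀ t, t ∈ ι.fieldRange.fixingSubgroup ↔ ∃ s, hat s = t) ∧
      (∀ s P, Φ (ac (W⁄K) s P) = ac W (hat s) (Φ P)) ∧
      (∀ L' : IntermediateField k Ω, FiniteDimensional k L' →
        ∃ L : IntermediateField K (AlgebraicClosure K), FiniteDimensional K L ∧
          ∀ s ∈ L.fixingSubgroup, hat s ∈ L'.fixingSubgroup) ∧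
      (∀ V' : ValuationSubring (AlgebraicClosure K), ∃ V : ValuationSubring Ω, ∀ s,
        Inert V' s → Inert V (hat s)) := by
  let algKΩ : Algebra K Ω := ι.toRingHom.toAlgebra
  have htow : IsScalarTower k K Ω := IsScalarTower.of_algebraMap_eq fun x => (ι.commutes x).symm
  have halg : Algebra.IsAlgebraic K Ω := Algebra.IsAlgebraic.tower_top (K := k) K
  have hcl : IsAlgClosure K Ω := ⟨inferInstance, halg⟩
  let θ : AlgebraicClosure K ≃ₐ[K] Ω := IsAlgClosure.equiv K (AlgebraicClosure K) Ω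
  let θk : AlgebraicClosure K ≃ₐ[k] Ω := θ.restrictScalars k
  obtain ⟨φ, hφ⟩ := base_iso (k := k) (F := K) (Ω := AlgebraicClosure K) W
  refine ⟨φ.symm.trans (z12_pt W θk), z12_hat θk, ?_, ?_, ?_, ?_, ?_⟩
  · intro s t
    apply AlgEquiv.ext
    intro x
    rw [AlgEquiv.mul_apply, z12_hat_apply, z12_hat_apply, z12_hat_apply, θk.symm_apply_apply,
      AlgEquiv.mul_apply]
  · intro t
    rw [IntermediateField.mem_fixingSubgroup_iff]
    constructor
    · intro ht
      have h1 : ∀ x : K, t (algebraMap K Ω x) = algebraMap K Ω x := fun x => ht _ ⟨x, rfl⟩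
      let tK : Ω ≃ₐ[K] Ω := AlgEquiv.ofRingEquiv (f := (t : Ω ≃+* Ω)) h1
      refine ⟨(θ.trans tK).trans θ.symm, AlgEquiv.ext fun x => ?_⟩
      rw [z12_hat_apply]
      show θ (θ.symm (t (θ (θ.symm x)))) = t x
      rw [θ.apply_symm_apply, θ.apply_symm_apply]
    · rintro ⟨s, rfl⟩ x ⟨y, rfl⟩
      rw [z12_hat_apply]
      show θ (s (θ.symm (algebraMap K Ω y))) = algebraMap K Ω y
      rw [θ.symm.commutes, s.commutes, θ.commutes]
  · intro s P
    have h1 : φ.symm (ac (W⁄K) s P) = ac W (s.restrictScalars k) (φ.symm P) := by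
      apply φ.injective
      rw [hφ, φ.apply_symm_apply, φ.apply_symm_apply]
    show z12_pt W θk (φ.symm (ac (W⁄K) s P)) = ac W (z12_hat θk s) (z12_pt W θk (φ.symm P))
    rw [h1]
    generalize φ.symm P = Q
    show Affine.Point.map (W' := W.toAffine) θk.toAlgHom
      (Affine.Point.map (W' := W.toAffine) (s.restrictScalars k).toAlgHom Q) =
      Affine.Point.map (W' := W.toAffine) (z12_hat θk s).toAlgHom
        (Affine.Point.map (W' := W.toAffine) θk.toAlgHom Q)
    rw [Affine.Point.map_map, Affine.Point.map_map]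
    congr 1
    congr 1
    ext x
    show θk (s x) = z12_hat θk s (θk x)
    rw [z12_hat_apply, θk.symm_apply_apply]
  · intro L' hL'
    obtain ⟨L'', hL'', h1⟩ := Z11_field (F := K) L'
    let e := IntermediateField.intermediateFieldMap θ.symm L''
    refine ⟨L''.map θ.symm.toAlgHom, Module.Finite.equiv e.toLinearEquiv, ?_⟩
    intro s hs
    rw [IntermediateField.mem_fixingSubgroup_iff] at hs
    have h2 := h1 ((θ.symm.trans s).trans θ) (by
      rw [IntermediateField.mem_fixingSubgroup_iff]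
      intro x hx
      show θ (s (θ.symm x)) = x
      rw [hs (θ.symm x) ⟨x, hx, rfl⟩, θ.apply_symm_apply])
    exact h2
  · intro V'
    have hm : ∀ x, x ∈ V'.comap (θk.symm : Ω →+* AlgebraicClosure K) ↔ θk.symm x ∈ V' := fun x =>
      ValuationSubring.mem_comap
    have hlt : ∀ x, (V'.comap (θk.symm : Ω →+* AlgebraicClosure K)).valuation x < 1 ↔
        V'.valuation (θk.symm x) < 1 := by
      intro x
      rw [lt1_iff, lt1_iff, hm, map_inv₀]
      simp
    refine ⟨V'.comap (θk.symm : Ω →+* AlgebraicClosure K), fun s h x hx => ?_⟩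
    have h1 := h (θk.symm x) ((hm x).1 hx)
    rw [hlt, map_sub, z12_hat_apply, θk.symm_apply_apply]
    exact h1

/-- Chunk N3 (M). The converse of H55P.sel_transport (Z12.lean). Port of H13Z.tr_core and non_transport (TR.lean) with Inert in place of Dec: the last item of tr_core becomes: for all V' there is V (= V'.comap θk.symm) with Inert V' s → Inert V (hat s) for all s (as in z12_core: hlt, lt1_iff). Then: given a class c for W over ι.fieldRange, s ↦ Φ.symm (c (hat s)) is a class for W⁄K as in non_transport;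
SelTriv gives T, and Φ T works for c. unfold SelTriv; open Classical instances as in non_transport (classical at the beginning). -/
theorem zero_transport {k : Type} [Field k] (W : WeierstrassCurve k) (p : ℕ) (K : Type) [Field K]
    [Algebra k K] [FiniteDimensional k K] {Ω : Type} [Field Ω] [DecidableEq Ω] [Algebra k Ω]
    [IsAlgClosed Ω] [Algebra.IsAlgebraic k Ω] (ι : K →ₐ[k] Ω) (hS : SelTriv (W⁄K) p) :
    SelZero W p ι.fieldRange := by
  classical
  intro c hc hp hV
  unfold SelTriv at hS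
  obtain ⟨Φ, hat, hmul, hfix, hact, hfield, hval⟩ := n3_core W K ι
  have hmem : ∀ s, hat s ∈ ι.fieldRange.fixingSubgroup := fun s => (hfix _).2 ⟨s, rfl⟩
  have hact' : ∀ s P, Φ.symm (ac W (hat s) P) = ac (W⁄K) s (Φ.symm P) := by
    intro s P
    apply Φ.injective
    rw [hact, Φ.apply_symm_apply, Φ.apply_symm_apply]
  obtain ⟨T, hpT, hcT⟩ := hS (fun s => Φ.symm (c (hat s))) ⟨by
    intro s t
    show Φ.symm (c (hat (s * t))) = Φ.symm (c (hat s)) + ac (W⁄K) s (Φ.symm (c (hat t)))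
    rw [hmul, hc.mul _ (hmem s) _ (hmem t), map_add, hact'], by
    obtain ⟨L', hL', hLc⟩ := hc.cont
    obtain ⟨L, hL, h1⟩ := hfield L' hL'
    refine ⟨L, hL, ?_⟩
    intro s hs
    show Φ.symm (c (hat s)) = 0
    rw [hLc _ (hmem s) (h1 s hs), map_zero]⟩ (by
    intro s
    show p • Φ.symm (c (hat s)) = 0
    rw [← map_nsmul, hp _ (hmem s), map_zero]) (by
    intro V'
    obtain ⟨V, h1⟩ := hval V'
    obtain ⟨P, hP⟩ := hV V
    refine ⟨Φ.symm P, ?_⟩
    intro s hs
    show Φ.symm (c (hat s)) = _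
    rw [hP _ (hmem s) (h1 s hs), map_sub, hact'])
  refine ⟨Φ T, ?_, ?_⟩
  · rw [← map_nsmul, hpT, map_zero]
  · intro t ht
    obtain ⟨s, rfl⟩ := (hfix _).1 ht
    have h1 : Φ.symm (c (hat s)) = ac (W⁄K) s T - T := hcT s
    have h2 := congrArg Φ h1
    rwa [Φ.apply_symm_apply, map_sub, hact] at h2

end H13R
end

-- from Lib.H28I.C2
section

/-! # H28I, part C: the Selmer group -/

open NumberField IsDedekindDomain WeierstrassCurve

namespace H28I

open H55P (IQ embF eF LF Per IsHecke Pt ac Inert Dec Nm)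
open H35P (WAB Ker tt GoodW IntW)
open H55K (xc yc)

/-- Chunk C2 (S). gcd(6, p) = 1: integers with 6 a + p b = 1; a 6 T + b p T = T. -/
theorem six_inv {M : Type} [AddCommGroup M] {p : ℕ} (hp : p.Prime) (h5 : 5 ≤ p) : ∃ a b : ℤ, ∀ T : M, a • ((6 : ℕ) • T) + b • (p • T) = T := by
  have hc : Nat.Coprime 6 p := by
    rw [Nat.coprime_comm, hp.coprime_iff_not_dvd]
    intro hd
    have h1 : p ≤ 6 := Nat.le_of_dvd (by norm_num) hd
    interval_cases p
    · omega
    · exact absurd hp (by norm_num)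
  have hc' : IsCoprime ((6 : ℕ) : ℤ) (p : ℤ) := Nat.isCoprime_iff_coprime.2 hc
  obtain ⟨a, b, hab⟩ := hc'
  refine ⟨a, b, fun T => ?_⟩
  rw [← natCast_zsmul, ← natCast_zsmul, smul_smul, smul_smul, ← add_smul, hab, one_smul]

variable {K : Type} [Field K] {W₁ W₂ : WeierstrassCurve K} {p : ℕ}

open Classical in
/-- The image of a cocycle under an equivariant homomorphism is a cocycle. -/
theorem c2_coc {V₁ V₂ : WeierstrassCurve K} (Ψ : Pt V₁ (AlgebraicClosure K) →+ Pt V₂ (AlgebraicClosure K))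
    (h4 : ∀ (s : AlgebraicClosure K ≃ₐ[K] AlgebraicClosure K) P, Ψ (ac V₁ s P) = ac V₂ s (Ψ P))
    {c : (AlgebraicClosure K ≃ₐ[K] AlgebraicClosure K) → Pt V₁ (AlgebraicClosure K)} (hc : H55P.Cocycle V₁ c) :
    H55P.Cocycle V₂ (fun s => Ψ (c s)) := by
  refine ⟨fun s t => ?_, ?_⟩
  · rw [hc.mul, map_add, h4]
  · obtain ⟨L, hL, h⟩ := hc.cont
    refine ⟨L, hL, fun s hs => ?_⟩
    rw [h s hs, map_zero]

open Classical in
/-- Chunk C2 (M). Φ, Ψ from h. Let c be a cocycle for W₂ with p • c s = 0 and local conditions. Ψ ∘ c is a cocycle for W₁ with the same properties (the field L of H55P.Cocycle.cont is the same; the local points Ψ P). So Ψ (c s) = ac s T - T with p • T = 0; apply Φ: 6 • c s = ac s (Φ T) - Φ T; a • (..) and p • c s = 0 (six_inv):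
c s = ac s T' - T' with T' = a • Φ T. -/
theorem sel_iso (hp : p.Prime) (h5 : 5 ≤ p) (h : Iso6 W₁ W₂ (AlgebraicClosure K)) (hS : H55P.SelTriv W₁ p) : H55P.SelTriv W₂ p := by
  obtain ⟨Φ, Ψ, h1, h2, h3, h4⟩ := h
  obtain ⟨a, b, hab⟩ := six_inv (M := Pt W₂ (AlgebraicClosure K)) hp h5
  intro c hc hpc hV
  obtain ⟨T, hT, hcT⟩ := hS (fun s => Ψ (c s)) (c2_coc Ψ h4 hc)
    (fun s => by
      rw [← map_nsmul, hpc s, map_zero])
    (fun V => by
      obtain ⟨P, hP⟩ := hV V
      refine ⟨Ψ P, fun s hs => ?_⟩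
      rw [hP s hs, map_sub, h4])
  refine ⟨a • Φ T, ?_, fun s => ?_⟩
  · rw [smul_comm, ← map_nsmul, hT, map_zero, smul_zero]
  · have e1 : (6 : ℕ) • c s = ac W₂ s (Φ T) - Φ T := by
      rw [← h2, hcT s, map_sub, h3]
    have e2 := hab (c s)
    rw [hpc s, smul_zero, add_zero, e1, smul_sub, ← map_zsmul] at e2
    exact e2.symm

open Classical in
/-- Chunk C2 (M). The same: p • c s = ac s Q - Q gives p • Ψ (c s) = ac s (Ψ Q) - Ψ Q; Ψ (c s) = ac s P - P; 6 • c s = ac s (Φ P) - Φ P; c s = a • 6 • c s + b • p • c s = ac s P' - P' with P' = a • Φ P + b • Q. -/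
theorem sha_iso (hp : p.Prime) (h5 : 5 ≤ p) (h : Iso6 W₁ W₂ (AlgebraicClosure K)) (hS : H55P.ShaTriv W₁ p) : H55P.ShaTriv W₂ p := by
  obtain ⟨Φ, Ψ, h1, h2, h3, h4⟩ := h
  obtain ⟨a, b, hab⟩ := six_inv (M := Pt W₂ (AlgebraicClosure K)) hp h5
  intro c hc hQ hV
  obtain ⟨Q, hQ⟩ := hQ
  obtain ⟨T, hcT⟩ := hS (fun s => Ψ (c s)) (c2_coc Ψ h4 hc)
    ⟨Ψ Q, fun s => by
      change p • Ψ (c s) = _
      rw [← map_nsmul, hQ s, map_sub, h4]⟩
    (fun V hV0 => by
      obtain ⟨P, hP⟩ := hV V hV0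
      refine ⟨Ψ P, fun s hs => ?_⟩
      rw [hP s hs, map_sub, h4])
  refine ⟨a • Φ T + b • Q, fun s => ?_⟩
  have e1 : (6 : ℕ) • c s = ac W₂ s (Φ T) - Φ T := by
    rw [← h2, hcT s, map_sub, h3]
  have e2 := hab (c s)
  rw [hQ s, e1, smul_sub, smul_sub] at e2
  have e3 : ac W₂ s (a • Φ T + b • Q) = a • ac W₂ s (Φ T) + b • ac W₂ s Q := by
    rw [map_add, map_zsmul, map_zsmul]
  rw [e3, ← e2]
  abel

open Classical in
/-- Chunk C2 (M). c for W₁; Φ ∘ c for W₂. If Φ (c s) = ac s T - T with p • T = 0 then 6 • c s = ac s (Ψ T) - Ψ T and c s = ac s T' - T', T' = a • Ψ T, p • T' = 0: contradiction. -/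
theorem selnon_iso (hp : p.Prime) (h5 : 5 ≤ p) (h : Iso6 W₁ W₂ (AlgebraicClosure K)) (hS : H13Z.SelNonT W₁ p) : H13Z.SelNonT W₂ p := by
  obtain ⟨Φ, Ψ, h1, h2, h3, h4⟩ := h
  obtain ⟨a, b, hab⟩ := six_inv (M := Pt W₁ (AlgebraicClosure K)) hp h5
  obtain ⟨c, hc, hpc, hV, hn⟩ := hS
  refine ⟨fun s => Φ (c s), c2_coc Φ h3 hc, fun s => ?_, fun V hV0 => ?_, ?_⟩
  · change p • Φ (c s) = 0
    rw [← map_nsmul, hpc s, map_zero]
  · obtain ⟨P, hP⟩ := hV V hV0
    refine ⟨Φ P, fun s hs => ?_⟩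
    change Φ (c s) = _
    rw [hP s hs, map_sub, h3]
  · rintro ⟨T, hT, hcT⟩
    apply hn
    refine ⟨a • Ψ T, ?_, fun s => ?_⟩
    · rw [smul_comm, ← map_nsmul, hT, map_zero, smul_zero]
    · have e1 : (6 : ℕ) • c s = ac W₁ s (Ψ T) - Ψ T := by
        have e3 : Φ (c s) = ac W₂ s T - T := hcT s
        rw [← h1, e3, map_sub, h4]
      have e2 := hab (c s)
      rw [hpc s, smul_zero, add_zero, e1, smul_sub, ← map_zsmul] at e2
      exact e2.symm

end H28I
end

-- from Lib.H28I.C3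
section

/-! # H28I, part C: the points over K -/

open NumberField IsDedekindDomain WeierstrassCurve

namespace H28I

open H55P (IQ embF eF LF Per IsHecke Pt ac Inert Dec Nm)
open H35P (WAB Ker tt GoodW IntW)
open H55K (xc yc)

open Classical in
/-- Chunk C3 (M). J₁, J₂ the injective maps from the points over K to the points over the algebraic closure (Affine.Point.map (Algebra.ofId ..); the points of W over K and Pt W K = the points of W⁄K: WeierstrassCurve.map_id, see H13Z.tr_divp). Let P be a point of W₂ over K. Ψ (J₂ P) is fixed by all s (h, and ac s (J₂ P) = J₂ P as in H13Z.sha_or_point),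
so it is J₁ Q (H13Z.tr_fixed). With n = the number of points of W₁ over K: n • Q = 0, so 6 n • J₂ P = Φ Ψ (n • J₂ P) = 0. The points of W₂ over the algebraic closure killed by 6 n > 0 are finitely many (H55P.tors_fin in H55P/S5.lean; instance IsElliptic from hΔ), J₂ is injective: finite.
If p divides the number of points of W₂ there is P ≠ 0 with p • P = 0 (Cauchy: exists_prime_addOrderOf_dvd_card'), Q with J₁ Q = Ψ (J₂ P), p • Q = 0, so Q = 0 (Nat.card prime to p: addOrderOf_dvd_natCard), 6 • J₂ P = 0 and p • J₂ P = 0: P = 0 (six_inv). -/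
theorem pts_iso {K : Type} [Field K] [NumberField K] {W₁ W₂ : WeierstrassCurve K} {p : ℕ} (hp : p.Prime) (h5 : 5 ≤ p) (hΔ : W₂.Δ ≠ 0)
    (h : Iso6 W₁ W₂ (AlgebraicClosure K)) (hf : Finite W₁.toAffine.Point) (hc : ¬ p ∣ Nat.card W₁.toAffine.Point) :
    Finite W₂.toAffine.Point ∧ ¬ p ∣ Nat.card W₂.toAffine.Point := by
  obtain ⟨Φ, Ψ, h1, h2, hΦ, hΨ⟩ := h
  have hW₁ : W₁⁄K = W₁ := WeierstrassCurve.map_id W₁
  have hW₂ : W₂⁄K = W₂ := WeierstrassCurve.map_id W₂
  have hf' : Finite (Pt W₁ K) := by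
    have : Finite (W₁⁄K).toAffine.Point := by rw [hW₁]; exact hf
    exact this
  have hc' : ¬ p ∣ Nat.card (Pt W₁ K) := by
    have : Nat.card (W₁⁄K).toAffine.Point = Nat.card W₁.toAffine.Point := by rw [hW₁]
    rw [← this] at hc
    exact hc
  obtain ⟨J₁, hJ₁⟩ : ∃ J : Pt W₁ K →+ Pt W₁ (AlgebraicClosure K),
      J = Affine.Point.map (W' := W₁.toAffine) (Algebra.ofId K (AlgebraicClosure K)) := ⟨_, rfl⟩
  obtain ⟨J₂, hJ₂⟩ : ∃ J : Pt W₂ K →+ Pt W₂ (AlgebraicClosure K),
      J = Affine.Point.map (W' := W₂.toAffine) (Algebra.ofId K (AlgebraicClosure K)) := ⟨_, rfl⟩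
  have i1 : Function.Injective J₁ := by
    rw [hJ₁]
    exact Affine.Point.map_injective (Algebra.ofId K (AlgebraicClosure K))
  have i2 : Function.Injective J₂ := by
    rw [hJ₂]
    exact Affine.Point.map_injective (Algebra.ofId K (AlgebraicClosure K))
  have f2 : ∀ s P, ac W₂ s (J₂ P) = J₂ P := by
    intro s P
    rw [hJ₂]
    unfold ac
    rw [Affine.Point.map_map]
    congr 2
    exact Subsingleton.elim _ _
  have hQ : ∀ P : Pt W₂ K, ∃ Q : Pt W₁ K, J₁ Q = Ψ (J₂ P) := by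
    intro P
    rw [hJ₁]
    exact H13Z.tr_fixed W₁ (Ψ (J₂ P)) fun s => by rw [← hΨ, f2]
  have hn : 0 < Nat.card (Pt W₁ K) := Nat.card_pos
  have hell : W₂.IsElliptic := ⟨isUnit_iff_ne_zero.2 hΔ⟩
  have hkill : ∀ P : Pt W₂ K, (6 * Nat.card (Pt W₁ K)) • J₂ P = 0 := by
    intro P
    obtain ⟨Q, hQ⟩ := hQ P
    have h3 : Nat.card (Pt W₁ K) • Q = 0 := by
      have := card_nsmul_eq_zero' (x := Q)
      exact this
    have h4 : Nat.card (Pt W₁ K) • Ψ (J₂ P) = 0 := by
      rw [← hQ, ← map_nsmul, h3, map_zero]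
    have h5 := congrArg Φ h4
    rw [map_nsmul, h2, map_zero] at h5
    rw [mul_comm, mul_nsmul', h5]
  have hfin : Finite (Pt W₂ K) := by
    have h3 := H55P.tors_fin (Ω := AlgebraicClosure K) W₂ (6 * Nat.card (Pt W₁ K)) (by omega)
    have h4 : Finite {P : Pt W₂ (AlgebraicClosure K) | (6 * Nat.card (Pt W₁ K)) • P = 0} := h3
    exact Finite.of_injective (fun P : Pt W₂ K => (⟨J₂ P, hkill P⟩ : {P : Pt W₂ (AlgebraicClosure K) | (6 * Nat.card (Pt W₁ K)) • P = 0}))
      fun P Q hPQ => i2 (congrArg Subtype.val hPQ)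
  have hnd : ¬ p ∣ Nat.card (Pt W₂ K) := by
    intro hd
    have : Fact p.Prime := ⟨hp⟩
    obtain ⟨P, hP⟩ := exists_prime_addOrderOf_dvd_card' p hd
    have hpP : p • P = 0 := by
      rw [← hP]
      exact addOrderOf_nsmul_eq_zero P
    have hP0 : P ≠ 0 := by
      intro h0
      rw [h0, addOrderOf_zero] at hP
      exact hp.one_lt.ne hP
    obtain ⟨Q, hQ⟩ := hQ P
    have hpQ : p • Q = 0 := by
      apply i1
      rw [map_nsmul, hQ, ← map_nsmul, ← map_nsmul, hpP, map_zero, map_zero, map_zero]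
    have hQ0 : Q = 0 := by
      by_contra hne
      have h3 : addOrderOf Q = p := addOrderOf_eq_prime hpQ hne
      have h4 : addOrderOf Q ∣ Nat.card (Pt W₁ K) := addOrderOf_dvd_natCard Q
      rw [h3] at h4
      exact hc' h4
    rw [hQ0, map_zero] at hQ
    have h6 : (6 : ℕ) • J₂ P = 0 := by
      rw [← h2, ← hQ, map_zero]
    have h7 : p • J₂ P = 0 := by
      rw [← map_nsmul, hpP, map_zero]
    obtain ⟨a, b, hab⟩ := six_inv (M := Pt W₂ (AlgebraicClosure K)) hp h5
    have h8 := hab (J₂ P)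
    rw [h6, h7, smul_zero, smul_zero, add_zero] at h8
    apply hP0
    apply i2
    rw [← h8, map_zero]
  constructor
  · have : Finite (W₂⁄K).toAffine.Point := hfin
    rw [hW₂] at this
    exact this
  · have : Nat.card (W₂⁄K).toAffine.Point = Nat.card W₂.toAffine.Point := by rw [hW₂]
    rw [← this]
    exact hnd

end H28I
end

-- from Lib.H28T.AR2
section

open NumberField IsDedekindDomain WeierstrassCurve

namespace H28T

open H55P
open H55K

variable {F : Type} [Field F] [NumberField F] [IQ F]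

variable {W : WeierstrassCurve ℤ} {p : ℕ}

theorem ar2_card {R S : Type} [CommRing R] [CommRing S] (e : R ≃+* S) (V : WeierstrassCurve R) :
    Nat.card V.toAffine.Point = Nat.card (V.map (e : R →+* S)).toAffine.Point := by
  have hinj : Function.Injective (e : R →+* S) := e.injective
  let f : V.toAffine.Point → (V.map (e : R →+* S)).toAffine.Point := fun P =>
    match P with
    | .zero => .zero
    | .some x y h => .some ((e : R →+* S) x) ((e : R →+* S) y)
        ((Affine.map_nonsingular (W := V) hinj x y).2 h)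
  refine Nat.card_congr (Equiv.ofBijective f ⟨?_, ?_⟩)
  · rintro (_ | ⟨x, y, h⟩) (_ | ⟨x', y', h'⟩) hh
    · rfl
    · simp [f] at hh
    · simp [f] at hh
    · simp only [f, Affine.Point.some.injEq] at hh
      obtain ⟨h1, h2⟩ := hh
      have h1' := hinj h1
      have h2' := hinj h2
      subst h1' h2'
      rfl
  · rintro (_ | ⟨x, y, h⟩)
    · exact ⟨.zero, rfl⟩
    · have h1 : (e : R →+* S) (e.symm x) = x := e.apply_symm_apply x
      have h2 : (e : R →+* S) (e.symm y) = y := e.apply_symm_apply y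
      have h3 : V.toAffine.Nonsingular (e.symm x) (e.symm y) := by
        rw [← Affine.map_nonsingular (W := V) hinj, h1, h2]
        exact h
      refine ⟨.some _ _ h3, ?_⟩
      simp only [f, Affine.Point.some.injEq]
      exact ⟨h1, h2⟩

/-- Chunk AR2 (S/M). The primes in Gd are stable under conjugation, W over the integers. Δ of the curve over 𝓞 F is the image of the integer W.Δ (WeierstrassCurve.map_Δ), p is an integer: cj fixes them, so Δ, p are not in v'. The numbers of points: cj induces a ring isomorphism θ : 𝓞 F ⧸ v ≃ 𝓞 F ⧸ v' (Ideal.quotientEquiv with the hypothesis h: v' is the image of v under cj; cj_cj);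
the curve over the quotient is the image of W under ℤ → 𝓞 F → 𝓞 F ⧸ v (WeierstrassCurve.map_map) and θ composed with this map is ℤ → 𝓞 F ⧸ v' (all ring homomorphisms from ℤ agree: Subsingleton / RingHom.ext_int), so θ maps the reduction to the reduction and gives a bijection of the affine points (equations and
nonsingularity are preserved by a ring isomorphism: WeierstrassCurve.Affine.Point.map with 𝓞 F ⧸ v' as an algebra over 𝓞 F ⧸ v, injective: Point.map_injective; and the inverse; or the two inequalities from injections in both directions: Nat.card_le_card_of_injective, finite types). Fields: Ideal.Quotient.field is needed for Affine.Point: look at how Nat.card (W₀⁄(𝓞 F ⧸ v.asIdeal)).toAffine.Point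
is handled in H55K/PC.lean (pts_odd, pts_even), H55K/DM.lean or H28R/A9.lean; Affine.Point only needs a commutative ring for the type, so a bijection of the types can be built by cases (0 to 0, some h to some h'). -/
theorem ar2_conj (v v' : HeightOneSpectrum (𝓞 F)) (h : ∀ x : 𝓞 F, cj x ∈ v'.asIdeal ↔ x ∈ v.asIdeal)
    (hg : Gd (W⁄(𝓞 F)) p v) : Gd (W⁄(𝓞 F)) p v' := by
  obtain ⟨h1, h2, h3⟩ := hg
  have hi : ∀ m : ℤ, (m : 𝓞 F) ∈ v'.asIdeal ↔ (m : 𝓞 F) ∈ v.asIdeal := by
    intro m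
    have h4 := h (m : 𝓞 F)
    rwa [cj_int] at h4
  have hΔ : (W⁄(𝓞 F)).Δ = ((W.Δ : ℤ) : 𝓞 F) := by
    have h5 := WeierstrassCurve.map_Δ W (algebraMap ℤ (𝓞 F))
    rw [eq_intCast] at h5
    exact h5
  refine ⟨?_, ?_, ?_⟩
  · rw [hΔ, hi, ← hΔ]
    exact h1
  · have h4 := hi (p : ℤ)
    rw [Int.cast_natCast] at h4
    rw [h4]
    exact h2
  · have hI : v'.asIdeal = v.asIdeal.map ((cj : 𝓞 F ≃+* 𝓞 F) : 𝓞 F →+* 𝓞 F) := by
      ext y
      rw [Ideal.mem_map_iff_of_surjective ((cj : 𝓞 F ≃+* 𝓞 F) : 𝓞 F →+* 𝓞 F)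
        (cj : 𝓞 F ≃+* 𝓞 F).surjective]
      constructor
      · intro hy
        refine ⟨cj y, ?_, cj_cj y⟩
        rw [← h, cj_cj]
        exact hy
      · rintro ⟨x, hx, rfl⟩
        exact (h x).2 hx
    have e1 := ar2_card (Ideal.quotientEquiv v.asIdeal v'.asIdeal cj hI)
      ((W⁄(𝓞 F))⁄(𝓞 F ⧸ v.asIdeal))
    have e2 : ((W⁄(𝓞 F))⁄(𝓞 F ⧸ v.asIdeal)).map
        ((Ideal.quotientEquiv v.asIdeal v'.asIdeal cj hI : 𝓞 F ⧸ v.asIdeal ≃+* 𝓞 F ⧸ v'.asIdeal) :
          𝓞 F ⧸ v.asIdeal →+* 𝓞 F ⧸ v'.asIdeal) = (W⁄(𝓞 F))⁄(𝓞 F ⧸ v'.asIdeal) := by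
      simp only [WeierstrassCurve.baseChange, WeierstrassCurve.map_map]
      congr 1
      exact Subsingleton.elim _ _
    rw [e2] at e1
    rw [← e1]
    exact h3

end H28T
end

-- from Lib.H55W.CL2
section

/-! # H55W, part CL: the imaginary quadratic fields of class number one (elementary part of the classification) -/

open NumberField IsDedekindDomain

namespace H55W

open H55P (IQ embF eF Nm)
open H55K (cj)

variable {F : Type} [Field F] [NumberField F] [IQ F] {θ : 𝓞 F} {d : ℕ}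

theorem cl2_inj {m n : ℤ} (h : (m : 𝓞 F) = (n : 𝓞 F)) : m = n := by exact_mod_cast h

theorem th_ne (h : TH θ d) : θ ≠ 0 := by
  intro h0
  have h1 := h.sq
  rw [h0] at h1
  have h2 : ((d : ℤ) : 𝓞 F) = ((0 : ℤ) : 𝓞 F) := by
    push_cast
    linear_combination h1
  have h3 := cl2_inj h2
  have h4 := h.pos
  omega

theorem sf_dvd {d : ℕ} (h : Squarefree d) {c : ℤ} (hc : (d : ℤ) ∣ c ^ 2) : (d : ℤ) ∣ c := by
  have h1 : d ∣ c.natAbs ^ 2 := by
    have h2 := Int.natAbs_dvd_natAbs.2 hc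
    rwa [Int.natAbs_natCast, Int.natAbs_pow] at h2
  have h2 : d ∣ c.natAbs := (h.dvd_pow_iff_dvd two_ne_zero).1 h1
  exact Int.natCast_dvd.2 h2

/-- Chunk CL2 (M). a = x + cj x is an integer (int_of_cj); (x - cj x) θ is fixed by cj: it is an integer b' with x - cj x = - b' θ / d... : (x - cj x)^2 = -b'^2/d·... Precisely: c = (x - cj x) θ in ℤ, c θ = -(x - cj x) d, c^2 = -(x - cj x)^2 d, and (x - cj x)^2 = a^2 - 4 x cj x is an integer m: c^2 = -m d, d squarefree: d divides c^2, so d divides c (Squarefree: each prime factor): c = -d b,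
x - cj x = b θ, 2x = a + b θ; 4 x cj x = a^2 + d b^2. -/
theorem two_mul_eq (h : TH θ d) (x : 𝓞 F) : ∃ a b : ℤ, 2 * x = (a : 𝓞 F) + (b : 𝓞 F) * θ ∧ 4 ∣ a ^ 2 + d * b ^ 2 := by
  obtain ⟨a, ha⟩ := int_of_cj (x := x + cj x) (by rw [map_add, H55K.cj_cj, add_comm])
  have hc := th_cj h
  obtain ⟨c, hcc⟩ := int_of_cj (x := (x - cj x) * θ) (by rw [map_mul, map_sub, H55K.cj_cj, hc]; ring)
  have hN := H55K.mul_cj x
  have hsq := h.sq
  have e1 : ((c ^ 2 : ℤ) : 𝓞 F) = ((d * (4 * Nm x - a ^ 2) : ℤ) : 𝓞 F) := by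
    push_cast
    rw [← hcc, ← hN, ← ha]
    linear_combination (x - cj x) ^ 2 * hsq
  have e2 := cl2_inj e1
  have hdc : (d : ℤ) ∣ c := sf_dvd h.sf ⟨_, e2⟩
  obtain ⟨k, hk⟩ := hdc
  have hd0 : (d : ℤ) ≠ 0 := by exact_mod_cast h.pos.ne'
  have hd0' : (d : 𝓞 F) ≠ 0 := by exact_mod_cast h.pos.ne'
  refine ⟨a, -k, ?_, Nm x, ?_⟩
  · have e3 : x - cj x = ((-k : ℤ) : 𝓞 F) * θ := by
      apply mul_left_cancel₀ hd0'
      have e4 : (c : 𝓞 F) = d * k := by
        rw [hk]
        push_cast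
        rfl
      rw [e4] at hcc
      push_cast
      linear_combination (-(θ)) * hcc + (x - cj x) * hsq
    linear_combination ha + e3
  · rw [hk] at e2
    have e5 : (d : ℤ) * (d * k ^ 2) = d * (4 * Nm x - a ^ 2) := by linear_combination e2
    have e6 := mul_left_cancel₀ hd0 e5
    linear_combination e6

/-- Chunk CL2 (S). two_mul_eq with d = 1: 4 | a^2 + b^2: a, b even. -/
theorem gi_of (h : TH θ 1) : GI θ := by
  refine ⟨by rw [h.sq]; norm_num, fun x => ?_⟩
  obtain ⟨a, b, h1, h2⟩ := two_mul_eq h x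
  rw [Nat.cast_one, one_mul] at h2
  have h3 : a % 2 = 0 ∧ b % 2 = 0 := by
    obtain ⟨c, hc⟩ := h2
    rcases Int.emod_two_eq_zero_or_one a with ha | ha <;> rcases Int.emod_two_eq_zero_or_one b with hb | hb
    · exact ⟨ha, hb⟩
    all_goals
      exfalso
      have ea := Int.emod_add_mul_ediv a 2
      have eb := Int.emod_add_mul_ediv b 2
      rw [ha] at ea
      rw [hb] at eb
      rw [← ea, ← eb] at hc
      ring_nf at hc
      omega
  refine ⟨a / 2, b / 2, ?_⟩
  apply mul_left_cancel₀ (two_ne_zero (α := 𝓞 F))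
  rw [h1]
  have ea : ((2 * (a / 2) : ℤ) : 𝓞 F) = a := by rw [Int.mul_ediv_cancel' (Int.dvd_of_emod_eq_zero h3.1)]
  have eb : ((2 * (b / 2) : ℤ) : 𝓞 F) = b := by rw [Int.mul_ediv_cancel' (Int.dvd_of_emod_eq_zero h3.2)]
  push_cast at ea eb
  linear_combination -ea - θ * eb

/-- Chunk CL2 (S). 4 | a^2 + 2b^2: a, b even. -/
theorem ti_of (h : TH θ 2) : TI θ := by
  refine ⟨by rw [h.sq]; norm_num, fun x => ?_⟩
  obtain ⟨a, b, h1, h2⟩ := two_mul_eq h x
  push_cast at h2
  have h3 : a % 2 = 0 ∧ b % 2 = 0 := by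
    obtain ⟨c, hc⟩ := h2
    rcases Int.emod_two_eq_zero_or_one a with ha | ha <;> rcases Int.emod_two_eq_zero_or_one b with hb | hb
    · exact ⟨ha, hb⟩
    all_goals
      exfalso
      have ea := Int.emod_add_mul_ediv a 2
      have eb := Int.emod_add_mul_ediv b 2
      rw [ha] at ea
      rw [hb] at eb
      rw [← ea, ← eb] at hc
      ring_nf at hc
      omega
  refine ⟨a / 2, b / 2, ?_⟩
  apply mul_left_cancel₀ (two_ne_zero (α := 𝓞 F))
  rw [h1]
  have ea : ((2 * (a / 2) : ℤ) : 𝓞 F) = a := by rw [Int.mul_ediv_cancel' (Int.dvd_of_emod_eq_zero h3.1)]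
  have eb : ((2 * (b / 2) : ℤ) : 𝓞 F) = b := by rw [Int.mul_ediv_cancel' (Int.dvd_of_emod_eq_zero h3.2)]
  push_cast at ea eb
  linear_combination -ea - θ * eb

/-- Chunk CL2 (S/M). w = (-1 + θ)/2 is integral over ℤ (root of X^2 + X + 1); 2x = a + b θ, 4 | a^2 + 3b^2: a ≡ b mod 2; x = (a + b)/2 + b w. -/
theorem ei_of (h : TH θ 3) : ∃ w : 𝓞 F, EI w := by
  have hθF : (θ : F) ^ 2 = -3 := by
    have h1 := congrArg (algebraMap (𝓞 F) F) h.sq
    rw [map_pow, map_neg, map_natCast] at h1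
    exact_mod_cast h1
  have hint : IsIntegral ℤ ((-1 + (θ : F)) / 2) := by
    refine ⟨Polynomial.X ^ 2 + Polynomial.X + 1, by monicity!, ?_⟩
    simp only [Polynomial.eval₂_add, Polynomial.eval₂_pow, Polynomial.eval₂_X, Polynomial.eval₂_one]
    linear_combination (1 / 4 : F) * hθF
  set w : 𝓞 F := ⟨(-1 + (θ : F)) / 2, hint⟩ with hw
  have hw2 : 2 * w = -1 + θ := by
    apply RingOfIntegers.coe_injective
    show algebraMap (𝓞 F) F (2 * w) = algebraMap (𝓞 F) F (-1 + θ)
    rw [map_mul, map_ofNat, map_add, map_neg, map_one]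
    show 2 * ((-1 + (θ : F)) / 2) = -1 + (θ : F)
    ring
  refine ⟨w, ?_, fun x => ?_⟩
  · have h40 : (4 : 𝓞 F) ≠ 0 := by
      have h5 : ((4 : ℤ) : 𝓞 F) ≠ ((0 : ℤ) : 𝓞 F) := fun h6 => by
        have h7 := cl2_inj h6
        omega
      push_cast at h5
      exact h5
    apply mul_left_cancel₀ h40
    have h1 := h.sq
    push_cast at h1
    linear_combination (2 * w + (-1 + θ) + 2) * hw2 + h1
  · obtain ⟨a, b, h1, h2⟩ := two_mul_eq h x
    push_cast at h2
    have h3 : (a + b) % 2 = 0 := by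
      obtain ⟨c, hc⟩ := h2
      rcases Int.emod_two_eq_zero_or_one a with ha | ha <;> rcases Int.emod_two_eq_zero_or_one b with hb | hb
      · omega
      · exfalso
        have ea := Int.emod_add_mul_ediv a 2
        have eb := Int.emod_add_mul_ediv b 2
        rw [ha] at ea
        rw [hb] at eb
        rw [← ea, ← eb] at hc
        ring_nf at hc
        omega
      · exfalso
        have ea := Int.emod_add_mul_ediv a 2
        have eb := Int.emod_add_mul_ediv b 2
        rw [ha] at ea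
        rw [hb] at eb
        rw [← ea, ← eb] at hc
        ring_nf at hc
        omega
      · omega
    refine ⟨(a + b) / 2, b, ?_⟩
    apply mul_left_cancel₀ (two_ne_zero (α := 𝓞 F))
    rw [h1]
    have ea : ((2 * ((a + b) / 2) : ℤ) : 𝓞 F) = ((a + b : ℤ) : 𝓞 F) := by
      rw [Int.mul_ediv_cancel' (Int.dvd_of_emod_eq_zero h3)]
    push_cast at ea
    linear_combination -ea - (b : 𝓞 F) * hw2

end H55W
end

-- from Lib.H55W.CL3
section

/-! # H55W, part CL: the imaginary quadratic fields of class number one (elementary part of the classification) -/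

open NumberField IsDedekindDomain

namespace H55W

open H55P (IQ embF eF Nm)
open H55K (cj)

variable {F : Type} [Field F] [NumberField F] [IQ F] {θ : 𝓞 F} {d : ℕ}

theorem cl3_sf4 {d : ℕ} (h : Squarefree d) (h4 : 4 ∣ d) : False := by
  have h1 : IsUnit 2 := h 2 (by simpa using h4)
  rw [Nat.isUnit_iff] at h1
  omega

/-- α^2 divides q, q divides α^2: q is plus or minus a square. -/
theorem cl3_sq (h : TH θ d) (h1 : ∀ u : 𝓞 F, IsUnit u → u = 1 ∨ u = -1) {q : ℕ} {α : 𝓞 F}
    (hα : α ^ 2 ∣ (q : 𝓞 F)) (hα' : (q : 𝓞 F) ∣ α ^ 2) : α ^ 2 = (q : 𝓞 F) ∨ α ^ 2 = -(q : 𝓞 F) := by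
  obtain ⟨u, hu⟩ := associated_of_dvd_dvd hα hα'
  rcases h1 u u.isUnit with h2 | h2
  · left
    rw [← hu, h2, mul_one]
  · right
    rw [← hu, h2]
    ring

theorem cl3_gen (x y : 𝓞 F) : ∃ α a b : 𝓞 F, α ∣ x ∧ α ∣ y ∧ α = a * x + b * y := by
  have hp : IsPrincipalIdealRing (𝓞 F) := IQ.pid
  obtain ⟨α, hα⟩ := (hp.principal (Ideal.span {x, y})).principal
  have hα' : Ideal.span {x, y} = Ideal.span {α} := hα
  refine ⟨α, ?_⟩
  have h1 : α ∈ Ideal.span {x, y} := by
    rw [hα']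
    exact Ideal.mem_span_singleton_self α
  obtain ⟨a, b, hab⟩ := Ideal.mem_span_pair.1 h1
  refine ⟨a, b, ?_, ?_, hab.symm⟩
  · rw [← Ideal.mem_span_singleton, ← hα']
    exact Ideal.subset_span (Set.mem_insert _ _)
  · rw [← Ideal.mem_span_singleton, ← hα']
    exact Ideal.subset_span (Set.mem_insert_of_mem _ rfl)

/-- Chunk CL3 (S/M). Nm u = 1: u cj u = 1, t = u + cj u an integer, u^2 - t u + 1 = 0. 4 = t^2 + (..): 4 - t^2 = -(u - cj u)^2 = d b^2 ≥ 0 with 2u = a + bθ, a = t (two_mul_eq: a^2 + d b^2 = 4). If b = 0 then a = ±2, u = ±1. If b ≠ 0 then d b^2 ≤ 4: d = 1, 2, 3 or 4 - with a^2 = 4 - d b^2 a square: d = 1 (b = ±2, a = 0; b = ±1 gives a^2 = 3 no), d = 3 (b = ±1, a = ±1), d = 2: 4 - 2 = 2, no; d = 4 not squarefree. So d = 1 or d = 3. -/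
theorem th_unit (h : TH θ d) (h1 : d ≠ 1) (h3 : d ≠ 3) {u : 𝓞 F} (hu : IsUnit u) : u = 1 ∨ u = -1 := by
  obtain ⟨a, b, h2, -⟩ := two_mul_eq h u
  have h4 := congrArg cj h2
  rw [map_mul, map_ofNat, map_add, map_mul, H55K.cj_int, H55K.cj_int, th_cj h] at h4
  have hN := H55K.mul_cj u
  rw [g0_nm_unit hu, Nat.cast_one] at hN
  have h5 : ((a ^ 2 + d * b ^ 2 : ℤ) : 𝓞 F) = ((4 : ℤ) : 𝓞 F) := by
    push_cast
    have h6 := h.sq
    linear_combination 4 * hN - 2 * cj u * h2 - (a + b * θ) * h4 + b ^ 2 * h6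
  have h6 : a ^ 2 + d * b ^ 2 = 4 := cl2_inj h5
  have hb : b = 0 := by
    by_contra hb
    have h7 : 1 ≤ b ^ 2 := by
      have := pow_pos (abs_pos.2 hb) 2
      rw [sq_abs] at this
      omega
    have hd : (d : ℤ) ≤ 4 := by nlinarith [sq_nonneg a]
    have hd' : d ≤ 4 := by exact_mod_cast hd
    have hdc : d = 2 ∨ d = 4 := by
      have := h.pos
      omega
    rcases hdc with hd2 | hd4
    · rw [hd2] at h6
      push_cast at h6
      have hb2 : b ^ 2 ≤ 2 := by nlinarith [sq_nonneg a]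
      have hbb : b ≤ 1 ∧ -1 ≤ b := by constructor <;> nlinarith
      have hb1 : b ^ 2 = 1 := by
        have : b = 1 ∨ b = -1 := by omega
        rcases this with h8 | h8 <;> rw [h8] <;> norm_num
      rw [hb1] at h6
      have ha : a ^ 2 = 2 := by linarith
      have ha2 : a ≤ 1 ∧ -1 ≤ a := by constructor <;> nlinarith
      have : a = -1 ∨ a = 0 ∨ a = 1 := by omega
      rcases this with h8 | h8 | h8 <;> rw [h8] at ha <;> norm_num at ha
    · exact cl3_sf4 h.sf (by rw [hd4])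
  rw [hb] at h6 h2
  have ha : a = 2 ∨ a = -2 := by
    have h7 : (a - 2) * (a + 2) = 0 := by linear_combination h6
    rcases mul_eq_zero.1 h7 with h8 | h8
    · left; linarith
    · right; linarith
  rcases ha with ha | ha
  · left
    apply mul_left_cancel₀ (two_ne_zero (α := 𝓞 F))
    rw [h2, ha]
    push_cast
    ring
  · right
    apply mul_left_cancel₀ (two_ne_zero (α := 𝓞 F))
    rw [h2, ha]
    push_cast
    ring

/-- Chunk CL3 (S/M). α^2 = ± q, q a prime number (or 2): 2α = a + b θ: 4α^2 = a^2 - d b^2 + 2ab θ is an integer, so a b = 0 (θ is not rational). b = 0: a^2 = ± 4q: impossible (q prime: not a square; or negative). a = 0: -d b^2 = ± 4q: d b^2 = 4 q, d squarefree, q prime: b^2 | 4q so b^2 = 1 or 4 (if b^2 = 4 q.. not a square unless..): b = ±2: d = q; b = ±1: d = 4q not squarefree (b^2 = 4q impossible). -/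
theorem sq_prime (h : TH θ d) {q : ℕ} (hq : q.Prime) {α : 𝓞 F} (hα : α ^ 2 = (q : 𝓞 F) ∨ α ^ 2 = -(q : 𝓞 F)) : d = q := by
  obtain ⟨a, b, h2, -⟩ := two_mul_eq h α
  obtain ⟨ε, hε, hαε⟩ : ∃ ε : ℤ, (ε = 1 ∨ ε = -1) ∧ α ^ 2 = ((ε * q : ℤ) : 𝓞 F) := by
    rcases hα with h3 | h3
    · exact ⟨1, Or.inl rfl, by rw [h3]; push_cast; ring⟩
    · exact ⟨-1, Or.inr rfl, by rw [h3]; push_cast; ring⟩
  have hsq := h.sq
  have e1 : ((a ^ 2 - d * b ^ 2 - 4 * (ε * q) : ℤ) : 𝓞 F) + ((2 * a * b : ℤ) : 𝓞 F) * θ = 0 := by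
    push_cast at hαε ⊢
    linear_combination 4 * hαε - (2 * α + (a + b * θ)) * h2 - b ^ 2 * hsq
  have e2 := congrArg cj e1
  rw [map_add, map_mul, H55K.cj_int, H55K.cj_int, th_cj h, map_zero] at e2
  have e3 : ((2 * a * b : ℤ) : 𝓞 F) * θ = 0 := by
    apply mul_left_cancel₀ (two_ne_zero (α := 𝓞 F))
    linear_combination e1 - e2
  have e4 : ((2 * a * b : ℤ) : 𝓞 F) = ((0 : ℤ) : 𝓞 F) := by
    rw [Int.cast_zero]
    exact (mul_eq_zero.1 e3).resolve_right (th_ne h)
  have e5 : 2 * a * b = 0 := cl2_inj e4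
  rw [e5, Int.cast_zero, zero_mul, add_zero] at e1
  have e6 : a ^ 2 - d * b ^ 2 - 4 * (ε * q) = 0 := by
    apply cl2_inj (F := F)
    rw [e1, Int.cast_zero]
  have hq0 : (0 : ℤ) < q := by exact_mod_cast hq.pos
  have hd0 : (0 : ℤ) < d := by exact_mod_cast h.pos
  have hqp : Prime (q : ℤ) := Nat.prime_iff_prime_int.1 hq
  have hab : a = 0 ∨ b = 0 := by
    rcases mul_eq_zero.1 e5 with h7 | h7
    · left
      omega
    · right
      exact h7
  rcases hab with ha | hb
  · -- a = 0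
    rw [ha] at e6
    have hε1 : ε = -1 := by
      rcases hε with h7 | h7
      · exfalso
        rw [h7] at e6
        nlinarith [sq_nonneg b, mul_nonneg hd0.le (sq_nonneg b)]
      · exact h7
    rw [hε1] at e6
    have e7 : (d : ℤ) * b ^ 2 = 4 * q := by linear_combination -e6
    rcases Int.even_or_odd b with hb | hb
    · obtain ⟨c, hc⟩ := hb
      rw [hc] at e7
      have e8 : (d : ℤ) * c ^ 2 = q := by
        apply mul_left_cancel₀ (show (4 : ℤ) ≠ 0 by norm_num)
        linear_combination e7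
      have hcu : IsUnit c := by
        have h9 := hqp.irreducible.squarefree
        apply h9 c
        exact ⟨d, by linear_combination -e8⟩
      have hc2 : c ^ 2 = 1 := by
        rcases Int.isUnit_iff.1 hcu with h9 | h9 <;> rw [h9] <;> norm_num
      rw [hc2, mul_one] at e8
      exact_mod_cast e8
    · exfalso
      have h9 : (4 : ℤ) ∣ d := by
        have h10 : IsCoprime (4 : ℤ) (b ^ 2) := by
          have h11 : IsCoprime (2 : ℤ) b := by
            obtain ⟨c, hc⟩ := hb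
            exact ⟨-c, 1, by rw [hc]; ring⟩
          have := h11.pow (m := 2) (n := 2)
          norm_num at this
          exact this
        exact h10.dvd_of_dvd_mul_right ⟨q, e7⟩
      exact cl3_sf4 h.sf (by exact_mod_cast h9)
  · -- b = 0
    exfalso
    rw [hb] at e6
    have e7 : a ^ 2 = 4 * (ε * q) := by linear_combination e6
    have hε1 : ε = 1 := by
      rcases hε with h7 | h7
      · exact h7
      · exfalso
        rw [h7] at e7
        nlinarith [sq_nonneg a]
    rw [hε1] at e7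
    have h2a : (2 : ℤ) ∣ a := by
      have : (2 : ℤ) ∣ a ^ 2 := ⟨2 * q, by linear_combination e7⟩
      exact Int.prime_two.dvd_of_dvd_pow this
    obtain ⟨c, hc⟩ := h2a
    have e8 : (q : ℤ) = c ^ 2 := by
      apply mul_left_cancel₀ (show (4 : ℤ) ≠ 0 by norm_num)
      rw [hc] at e7
      linear_combination -e7
    have h9 := hqp.irreducible.squarefree
    have hcu : IsUnit c := h9 c ⟨1, by linear_combination e8⟩
    have hc2 : c ^ 2 = 1 := by
      rcases Int.isUnit_iff.1 hcu with h9 | h9 <;> rw [h9] <;> norm_num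
    rw [hc2] at e8
    have : q = 1 := by exact_mod_cast e8
    exact hq.one_lt.ne' this

/-- Chunk CL3 (M). CLASS NUMBER ONE. Suppose d ≠ 1, 3. (1) q a prime factor of d: the ideal (q, θ) = (α) is principal and (q, θ)^2 = (q^2, q θ, d) = (q) (d = q d', q and d' coprime since d is squarefree; Ideal.span_pair_mul..., or elements: α divides q and θ, α = x q + y θ; α^2 divides q^2, qθ, θ^2 = -d, so q = a q^2 + b d.. : gcd(q^2, d) = q is divisible by α^2;
and α^2 = x^2 q^2 + 2xy q θ - y^2 d is divisible by q). So α^2 = u q, u = ±1 (th_unit): d = q (sq_prime). So d is a prime number. (2) If d % 4 = 1 (d odd prime): the ideal (2, 1 + θ) = (α): α^2 divides 4, 2(1+θ), (1+θ)^2 = 1 - d + 2θ, so also 2(1 + θ) - (1 - d + 2θ) = 1 + d ≡ 2 mod 4, so 2; and α^2 = 4x^2 + 4xy(1+θ) + y^2 (1 - d + 2θ) is divisible by 2: α^2 = ±2, d = 2 (sq_prime), contradiction.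
So d = 2 or d % 4 = 3, d prime, d ≠ 3. -/
theorem class_one (h : TH θ d) : d = 1 ∨ d = 2 ∨ d = 3 ∨ (d.Prime ∧ d % 4 = 3 ∧ 3 < d) := by
  by_cases h1 : d = 1
  · exact Or.inl h1
  by_cases h3 : d = 3
  · exact Or.inr (Or.inr (Or.inl h3))
  have hun : ∀ u : 𝓞 F, IsUnit u → u = 1 ∨ u = -1 := fun u hu => th_unit h h1 h3 hu
  have hsq := h.sq
  -- d is a prime number
  have hdp : d.Prime := by
    obtain ⟨q, hq, hqd⟩ := Nat.exists_prime_and_dvd h1
    obtain ⟨d', hd'⟩ := hqd
    have hcop : Nat.Coprime q d' := by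
      refine hq.coprime_iff_not_dvd.2 fun hdiv => ?_
      obtain ⟨z, hz⟩ := hdiv
      have h5 : IsUnit q := h.sf q ⟨z, by rw [hd', hz]; ring⟩
      exact hq.one_lt.ne' (Nat.isUnit_iff.1 h5)
    obtain ⟨m, n, hmn⟩ := Nat.isCoprime_iff_coprime.2 hcop
    obtain ⟨α, a, b, ha, hb, hab⟩ := cl3_gen (q : 𝓞 F) θ
    have hdF : (d : 𝓞 F) = q * d' := by
      rw [hd']
      push_cast
      rfl
    have hmnF : (m : 𝓞 F) * q + n * d' = 1 := by
      have := congrArg (fun z : ℤ => (z : 𝓞 F)) hmn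
      push_cast at this
      exact this
    have k1 : α ^ 2 ∣ (q : 𝓞 F) := by
      have k2 : α ^ 2 ∣ (q : 𝓞 F) ^ 2 := pow_dvd_pow_of_dvd ha 2
      have k3 : α ^ 2 ∣ θ ^ 2 := pow_dvd_pow_of_dvd hb 2
      have e : (q : 𝓞 F) = m * (q : 𝓞 F) ^ 2 - n * θ ^ 2 := by
        rw [hsq, hdF]
        linear_combination -(q : 𝓞 F) * hmnF
      rw [e]
      exact dvd_sub (k2.mul_left _) (k3.mul_left _)
    have k2 : (q : 𝓞 F) ∣ α ^ 2 := by
      refine ⟨a ^ 2 * q + 2 * a * b * θ - b ^ 2 * d', ?_⟩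
      rw [hab]
      rw [hdF] at hsq
      linear_combination b ^ 2 * hsq
    have k3 := cl3_sq h hun k1 k2
    rw [sq_prime h hq k3]
    exact hq
  by_cases h2 : d = 2
  · exact Or.inr (Or.inl h2)
  refine Or.inr (Or.inr (Or.inr ⟨hdp, ?_, ?_⟩))
  · by_contra h43
    have hodd := hdp.odd_of_ne_two h2
    have h41 : d % 4 = 1 := by
      have := Nat.odd_iff.1 hodd
      omega
    obtain ⟨k, hk⟩ : ∃ k : ℕ, d = 4 * k + 1 := ⟨d / 4, by omega⟩
    have hkF : (d : 𝓞 F) = 4 * k + 1 := by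
      rw [hk]
      push_cast
      ring
    obtain ⟨α, a, b, ha, hb, hab⟩ := cl3_gen ((2 : ℕ) : 𝓞 F) (1 + θ)
    have k1 : α ^ 2 ∣ ((2 : ℕ) : 𝓞 F) := by
      have k2 : α ^ 2 ∣ ((2 : ℕ) : 𝓞 F) ^ 2 := pow_dvd_pow_of_dvd ha 2
      have k3 : α ^ 2 ∣ (1 + θ) ^ 2 := pow_dvd_pow_of_dvd hb 2
      have k4 : α ^ 2 ∣ ((2 : ℕ) : 𝓞 F) * (1 + θ) := by
        rw [pow_two]
        exact mul_dvd_mul ha hb
      have e : ((2 : ℕ) : 𝓞 F) = ((2 : ℕ) : 𝓞 F) * (1 + θ) - (1 + θ) ^ 2 - k * ((2 : ℕ) : 𝓞 F) ^ 2 := by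
        rw [hkF] at hsq
        push_cast
        linear_combination hsq
      rw [e]
      exact dvd_sub (dvd_sub k4 k3) (k2.mul_left _)
    have k2 : ((2 : ℕ) : 𝓞 F) ∣ α ^ 2 := by
      refine ⟨2 * a ^ 2 + 2 * a * b * (1 + θ) + b ^ 2 * (θ - 2 * k), ?_⟩
      rw [hab]
      rw [hkF] at hsq
      push_cast
      linear_combination b ^ 2 * hsq
    exact h2 (sq_prime h Nat.prime_two (cl3_sq h hun k1 k2))
  · have := hdp.two_le
    omega

end H55W
end

-- from Lib.H28T.WSt
section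

open NumberField IsDedekindDomain
open scoped Pointwise

namespace H28T

open H28R
open H55P H55R

variable {F : Type} [Field F] [NumberField F] {G : HeightOneSpectrum (𝓞 F) → Prop}

/-! Helper file for the chunks W7 and W21: the stabiliser of a nice prime is trivial. -/

theorem wst_one {C : Type} [Field C] [NumberField C] [Algebra F C] [IsGalois F C] (w : Pl C)
    (hd : w.asIdeal.inertiaDeg (𝓞 F) = 1) (hu : w.asIdeal.ramificationIdx (𝓞 F) = 1)
    (σ : Gal(C/F)) (h : smulP σ w = w) : σ = 1 := by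
  have hv : w.under (𝓞 F) = w.under (𝓞 F) := rfl
  have h1 := card_stab w (w.under (𝓞 F)) hv
  have hp := (w.under (𝓞 F)).isPrime
  have hw := w.isPrime
  have hl : w.asIdeal.LiesOver (w.under (𝓞 F)).asIdeal := (BF2_mem (w.under (𝓞 F)) w hv).2
  have e1 : es F C (w.under (𝓞 F)) = 1 := by
    unfold es
    rw [Ideal.ramificationIdxIn_eq_ramificationIdx (w.under (𝓞 F)).asIdeal w.asIdeal Gal(C/F)]
    exact hu
  have e2 : fs F C (w.under (𝓞 F)) = 1 := by
    unfold fs
    rw [Ideal.inertiaDegIn_eq_inertiaDeg (w.under (𝓞 F)).asIdeal w.asIdeal Gal(C/F)]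
    exact hd
  rw [e1, e2, mul_one] at h1
  have h2 := (Nat.card_eq_one_iff_unique.1 h1).1
  have h3 := h2.elim (⟨σ, h⟩ : {σ : Gal(C/F) // smulP σ w = w}) ⟨1, smulP_one w⟩
  exact congrArg Subtype.val h3

theorem wst_res {K C : Type} [Field K] [NumberField K] [Field C] [NumberField C]
    [Algebra F K] [Algebra F C] [Algebra K C] [IsScalarTower F K C] (δ : C ≃ₐ[K] C) (w : Pl C) :
    smulP (δ.restrictScalars F : Gal(C/F)) w = smulP (δ : Gal(C/K)) w := by
  apply HeightOneSpectrum.ext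
  show (δ.restrictScalars F : Gal(C/F)) • w.asIdeal = (δ : Gal(C/K)) • w.asIdeal
  rw [Ideal.pointwise_smul_def, Ideal.pointwise_smul_def]
  congr 1

/-- Two conjugates of w agree only if the automorphisms agree. -/
theorem wst_eq {C : Type} [Field C] [NumberField C] [Algebra F C] [IsGalois F C] (w : Pl C)
    (hd : w.asIdeal.inertiaDeg (𝓞 F) = 1) (hu : w.asIdeal.ramificationIdx (𝓞 F) = 1)
    (σ τ : Gal(C/F)) (h : smulP σ w = smulP τ w) : σ = τ := by
  have h1 : smulP (τ⁻¹ * σ) w = w := by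
    rw [smulP_mul, h, ← smulP_mul, inv_mul_cancel, smulP_one]
  have h2 := wst_one w hd hu _ h1
  rw [inv_mul_eq_one] at h2
  exact h2.symm

theorem wst_prod {C : Type} [Field C] [NumberField C] (P : Pl C) {ι : Type} (s : Finset ι)
    (f : ι → Cˣ) (n : ι → ℕ) : ord P (∏ i ∈ s, f i ^ n i) = ∑ i ∈ s, (n i : ℤ) * ord P (f i) := by
  classical
  induction s using Finset.induction_on with
  | empty => simp [ord_one]
  | insert i s hi ih =>
    rw [Finset.prod_insert hi, Finset.sum_insert hi, ord_mul, ih]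
    congr 1
    have h := ord_zpow P (f i) (n i : ℤ)
    rw [zpow_natCast] at h
    exact h

end H28T
end

-- from Lib.H28T.W21
section

open NumberField IsDedekindDomain

namespace H28T

open H28R
open H55P H55R

variable {F : Type} [Field F] [NumberField F] {G : HeightOneSpectrum (𝓞 F) → Prop}

/-! Chunk W21 (M). The conjugates of γ under FixZ F ζ are independent modulo p-th powers. Let a h <> 0, P = h w (smulP): ord P (g γ) = ord (g⁻¹ h w) γ is divisible by p unless g⁻¹ h w = δ w for some δ in the group of C/K (δ w' lies over another prime), i.e. δ⁻¹ g⁻¹ h = 1 (trivial stabiliser) and then h = g δ,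
δ fixes ζ, δ = 1, g = h. So the order of the product at P is a h times ord w γ modulo p. (Trivial stabiliser: H55R card_stab with Nice.deg and Nice.unr, see the header of W7; ord_smul for the action on primes. A shared helper file is fine.) -/

theorem not_pow {p : ℕ} (hp : p.Prime) {K C : Type} [Field K] [NumberField K]
    [Field C] [NumberField C] [Algebra F K] [Algebra F C] [Algebra K C] [IsScalarTower F K C]
    {ζ : C} (h : Cyc F p K C ζ) {B : ℕ} {γ : Cˣ} {w w' : Pl C} (hγ : Gam G p K C ζ B γ w w')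
    [Fintype (FixZ F ζ)] (a : FixZ F ζ → ZMod p) (ha : a ≠ 0) :
    ¬ ∃ z : C, z ^ p = ∏ g : FixZ F ζ, ((g : C ≃ₐ[F] C) (γ : C)) ^ (a g).val := by
  classical
  have hGal := h.gal
  have hpf : Fact p.Prime := ⟨hp⟩
  rintro ⟨z, hz⟩
  obtain ⟨h0, hh0⟩ := Function.ne_iff.1 ha
  -- the units
  set G : FixZ F ζ → Cˣ := fun g => Units.map (((g : C ≃ₐ[F] C) : C ≃ₐ[F] C) : C →* C) γ with hG
  have hGv : ∀ g, ((G g : Cˣ) : C) = (g : C ≃ₐ[F] C) (γ : C) := fun g => rfl
  have hprod : z ^ p = ((∏ g : FixZ F ζ, G g ^ (a g).val : Cˣ) : C) := by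
    rw [hz, Units.coe_prod]
    refine Finset.prod_congr rfl fun g _ => ?_
    rw [Units.val_pow_eq_pow_val, hGv]
  have hz0 : z ≠ 0 := by
    intro h1
    rw [h1, zero_pow hp.ne_zero] at hprod
    exact (Units.ne_zero _) hprod.symm
  have hzu : (Units.mk0 z hz0) ^ p = ∏ g : FixZ F ζ, G g ^ (a g).val := by
    apply Units.ext
    rw [Units.val_pow_eq_pow_val, Units.val_mk0]
    exact hprod
  -- the prime
  set P : Pl C := smulP (h0 : C ≃ₐ[F] C) w with hP
  have e1 : ord P ((Units.mk0 z hz0) ^ p) = (p : ℤ) * ord P (Units.mk0 z hz0) := by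
    have h := ord_zpow P (Units.mk0 z hz0) (p : ℤ)
    rw [zpow_natCast] at h
    exact h
  have e2 : (p : ℤ) ∣ ∑ g : FixZ F ζ, ((a g).val : ℤ) * ord P (G g) := by
    rw [← wst_prod P Finset.univ G fun g => (a g).val, ← hzu, e1]
    exact dvd_mul_right _ _
  have e3 : ∀ g : FixZ F ζ, ord P (G g) =
      ord (smulP ((g : C ≃ₐ[F] C)⁻¹ * (h0 : C ≃ₐ[F] C)) w) γ := by
    intro g
    rw [smulP_mul, ← hP, ← ord_smul (g : C ≃ₐ[F] C) (smulP ((g : C ≃ₐ[F] C)⁻¹) P) γ,
      ← smulP_mul, mul_inv_cancel, smulP_one]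
  have e4 : ∀ g : FixZ F ζ, g ≠ h0 → (p : ℤ) ∣ ord P (G g) := by
    intro g hg
    rw [e3]
    apply hγ.oth
    intro δ
    constructor
    · intro hδ
      rw [← wst_res (F := F) δ w] at hδ
      have h1 := wst_eq w hγ.nice.deg hγ.nice.unr _ _ hδ
      have h2 : (g : C ≃ₐ[F] C)⁻¹ * (h0 : C ≃ₐ[F] C) ∈ FixZ F ζ :=
        (FixZ F ζ).mul_mem ((FixZ F ζ).inv_mem g.2) h0.2
      rw [h1] at h2
      have h3 : δ ζ = ζ := h2
      have h4 := h.gen δ h3
      rw [h4] at h1
      have h5 : (g : C ≃ₐ[F] C)⁻¹ * (h0 : C ≃ₐ[F] C) = 1 := by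
        rw [h1]
        rfl
      rw [inv_mul_eq_one] at h5
      exact hg (Subtype.ext h5)
    · intro hδ
      rw [← wst_res (F := F) δ w'] at hδ
      have h1 := congrArg (fun W : Pl C => W.under (𝓞 F)) hδ
      simp only [under_smulP] at h1
      exact hγ.ne (congrArg HeightOneSpectrum.asIdeal h1)
  have e5 : (p : ℤ) ∣ ((a h0).val : ℤ) * ord P (G h0) := by
    rw [← Finset.add_sum_erase _ _ (Finset.mem_univ h0)] at e2
    refine (dvd_add_left (Finset.dvd_sum fun g hg => ?_)).1 e2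
    exact dvd_mul_of_dvd_right (e4 g (Finset.ne_of_mem_erase hg)) _
  have e6 : ord P (G h0) = ord w γ := by
    rw [e3, inv_mul_cancel, smulP_one]
  rw [e6] at e5
  rcases Int.Prime.dvd_mul' hp e5 with h1 | h1
  · rw [Int.natCast_dvd_natCast] at h1
    have h2 : (a h0).val < p := ZMod.val_lt _
    have h3 : (a h0).val = 0 := Nat.eq_zero_of_dvd_of_lt h1 h2
    exact hh0 ((ZMod.val_eq_zero _).1 h3)
  · exact hγ.at1 h1

end H28T
end

-- from Lib.H28T.W8
section

open NumberField IsDedekindDomain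

namespace H28T

open H28R
open H55P H55R

variable {F : Type} [Field F] [NumberField F] {G : HeightOneSpectrum (𝓞 F) → Prop}

/-! Chunk W8 (M/L): the field N. Ω = AlgebraicClosure C, r0 g in Ω with r0 g ^ p = g γ (g in FixZ F ζ), N = IntermediateField.adjoin C (range r0) (compare H19T/W3.lean, exists_Wr3). N/F is Galois: an F-embedding σ of Ω restricts to an element s of the group of C/F (h.gal), s = g1 δ (h.dec) with
g1 in FixZ, δ in the group of C/K; δ ζ = ζ^n for some n; (δ γ) = γ^n z^p (heig). For g in FixZ: s (g γ) = g1 (δ (g γ)) = g1 (g (δ γ)) (h.comm) = ((g1 g) γ)^n ((g1 g) z)^p. So σ (r0 g)^p = (r0 (g1 g)^n * (g1 g) z)^p, σ (r0 g) = ζ^i r0 (g1 g)^n (g1 g) z in N (p-th roots of unity are the powers of ζ: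
IsPrimitiveRoot.eq_pow_of_pow_eq_one). WrP.gen: Algebra.adjoin = ⊤ for algebraic elements (IntermediateField.adjoin_toSubalgebra_of_isAlgebraic or as in H19T/W3). Centrality: τ in the group of N/C, u in the group of N/K; u restricts to C as s with s fixing K, so s = δ in the group of C/K; u (r g) = ζ^i r_g^n (g z) as above (g1 = 1), τ (r g) = ζ^e r g.
τ (u (r g)) = ζ^i (ζ^e r g)^n (g z) = ζ^(e n) u (r g) and u (τ (r g)) = u(ζ)^e u (r g) = ζ^(n e) u (r g). The elements fixed by both compositions: both are ring homomorphisms equal to u on C and equal on the generators r g (AlgHom.ext_of_adjoin_eq_top for the C-algebra structure twisted, or Algebra.adjoin_induction). -/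

theorem W8_root {L : Type} [Field L] {p : ℕ} (hp : 0 < p) {z : L} (hz : IsPrimitiveRoot z p)
    {x y : L} (hy : y ≠ 0) (h : x ^ p = y ^ p) : ∃ i : ℕ, x = z ^ i * y := by
  have : NeZero p := ⟨hp.ne'⟩
  have h1 : (x / y) ^ p = 1 := by
    rw [div_pow, h, div_self (pow_ne_zero _ hy)]
  obtain ⟨i, -, hi⟩ := hz.eq_pow_of_pow_eq_one h1
  refine ⟨i, ?_⟩
  rw [hi, div_mul_cancel₀ _ hy]

theorem W8_exp {p : ℕ} (hp : 0 < p) {K C : Type} [Field K]
    [Field C] [Algebra K C] {ζ : C} (hz : IsPrimitiveRoot ζ p) (δ : C ≃ₐ[K] C) :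
    ∃ n : ℕ, δ ζ = ζ ^ n := by
  have : NeZero p := ⟨hp.ne'⟩
  have h1 : (δ ζ) ^ p = 1 := by rw [← map_pow, hz.pow_eq_one, map_one]
  obtain ⟨i, -, hi⟩ := hz.eq_pow_of_pow_eq_one h1
  exact ⟨i, hi.symm⟩

/-- The action on the conjugate. -/
theorem W8_act {p : ℕ} {K C : Type} [Field K] [NumberField K]
    [Field C] [NumberField C] [Algebra F K] [Algebra F C] [Algebra K C] [IsScalarTower F K C]
    {ζ : C} (h : Cyc F p K C ζ) (γ : C) (z : C) (δ : C ≃ₐ[K] C) (n : ℕ)
    (hz : δ γ = γ ^ n * z ^ p) (g1 g : FixZ F ζ) :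
    (g1 : C ≃ₐ[F] C) (δ ((g : C ≃ₐ[F] C) γ)) =
      (((g1 * g : FixZ F ζ) : C ≃ₐ[F] C) γ) ^ n * (((g1 * g : FixZ F ζ) : C ≃ₐ[F] C) z) ^ p := by
  rw [← h.comm g δ γ, hz]
  simp only [map_mul, map_pow]
  rfl

theorem W8_central {p : ℕ} (hp : 0 < p) {K C N : Type} [Field K] [NumberField K]
    [Field C] [NumberField C] [Field N] [Algebra F K] [Algebra F C] [Algebra K C]
    [IsScalarTower F K C] [Algebra F N] [Algebra C N] [Algebra K N] [IsScalarTower K C N]
    {ζ : C} (h : Cyc F p K C ζ) (γ : Cˣ)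
    (heig : ∀ (δ : C ≃ₐ[K] C) (n : ℕ), δ ζ = ζ ^ n → ∃ z : Cˣ, δ (γ : C) = (γ : C) ^ n * (z : C) ^ p)
    {r : FixZ F ζ → N} (hr : WrP p F C N ζ γ r) (τ : N ≃ₐ[C] N) (u : N ≃ₐ[K] N) (x : N) :
    τ (u x) = u (τ x) := by
  have := h.gal
  have : IsGalois K C := IsGalois.tower_top_of_isGalois F K C
  have : Normal K C := inferInstance
  let δ : C ≃ₐ[K] C := u.restrictNormal C
  have hδ : ∀ c : C, u (algebraMap C N c) = algebraMap C N (δ c) := fun c =>
    (AlgEquiv.restrictNormal_commutes u C c).symm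
  obtain ⟨n, hn⟩ := W8_exp hp h.prim δ
  obtain ⟨z, hz⟩ := heig δ n hn
  have hzN : IsPrimitiveRoot (algebraMap C N ζ) p :=
    h.prim.map_of_injective (algebraMap C N).injective
  have hr0 : ∀ g, r g ≠ 0 := by
    intro g h0
    have h1 := hr.pow g
    rw [h0, zero_pow hp.ne'] at h1
    have h2 : (g : C ≃ₐ[F] C) (γ : C) = 0 :=
      (algebraMap C N).injective (by rw [map_zero]; exact h1.symm)
    have h3 : (γ : C) = 0 := (g : C ≃ₐ[F] C).injective (by rw [h2, map_zero])
    exact γ.ne_zero h3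
  have hu : ∀ g : FixZ F ζ, ∃ i : ℕ, u (r g) =
      (algebraMap C N ζ) ^ i * (r g ^ n * algebraMap C N ((g : C ≃ₐ[F] C) z)) := by
    intro g
    refine W8_root hp hzN ?_ ?_
    · refine mul_ne_zero (pow_ne_zero _ (hr0 g)) ?_
      rw [Ne, map_eq_zero_iff _ (algebraMap C N).injective,
        map_eq_zero_iff _ (g : C ≃ₐ[F] C).injective]
      exact z.ne_zero
    · rw [← map_pow, hr.pow, hδ, mul_pow, ← pow_mul, mul_comm n p, pow_mul, hr.pow]
      have h4 := W8_act h (γ : C) (z : C) δ n hz 1 g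
      rw [one_mul] at h4
      have h5 : ((1 : FixZ F ζ) : C ≃ₐ[F] C) (δ ((g : C ≃ₐ[F] C) (γ : C))) =
        δ ((g : C ≃ₐ[F] C) (γ : C)) := rfl
      rw [h5] at h4
      rw [h4, map_mul, map_pow, map_pow]
  have hτ : ∀ g : FixZ F ζ, ∃ e : ℕ, τ (r g) = (algebraMap C N ζ) ^ e * r g := by
    intro g
    refine W8_root hp hzN (hr0 g) ?_
    rw [← map_pow, hr.pow, AlgEquiv.commutes]
  have hx : x ∈ Algebra.adjoin C (Set.range r) := by rw [hr.gen]; trivial
  refine Algebra.adjoin_induction (p := fun x _ => τ (u x) = u (τ x)) ?_ ?_ ?_ ?_ hx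
  · rintro _ ⟨g, rfl⟩
    obtain ⟨i, hi⟩ := hu g
    obtain ⟨e, he⟩ := hτ g
    have h6 : u (algebraMap C N ζ) = (algebraMap C N ζ) ^ n := by
      rw [hδ, hn, map_pow]
    rw [he, map_mul, map_pow, h6, hi]
    simp only [map_mul, map_pow, AlgEquiv.commutes, he]
    ring
  · intro c
    rw [hδ, AlgEquiv.commutes, AlgEquiv.commutes, hδ]
  · intro a b _ _ ha hb
    simp only [map_add, ha, hb]
  · intro a b _ _ ha hb
    simp only [map_mul, ha, hb]

theorem exists_N {p : ℕ} (hp : p.Prime) {K C : Type} [Field K] [NumberField K]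
    [Field C] [NumberField C] [Algebra F K] [Algebra F C] [Algebra K C] [IsScalarTower F K C]
    {ζ : C} (h : Cyc F p K C ζ) (γ : Cˣ)
    (heig : ∀ (δ : C ≃ₐ[K] C) (n : ℕ), δ ζ = ζ ^ n → ∃ z : Cˣ, δ (γ : C) = (γ : C) ^ n * (z : C) ^ p) :
    ∃ (N : Type) (_ : Field N) (_ : NumberField N) (_ : Algebra C N) (_ : Algebra K N)
      (_ : Algebra F N) (_ : IsScalarTower F C N) (_ : IsScalarTower K C N)
      (_ : IsScalarTower F K N) (r : FixZ F ζ → N), WrP p F C N ζ γ r ∧
      ∀ (τ : N ≃ₐ[C] N) (u : N ≃ₐ[K] N) (x : N), τ (u x) = u (τ x) := by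
  classical
  have := h.gal
  have hp0 : 0 < p := hp.pos
  have htow : IsScalarTower ℚ F C := IsScalarTower.of_algebraMap_eq' (Subsingleton.elim _ _)
  have hfinFC : FiniteDimensional F C := Module.Finite.of_restrictScalars_finite ℚ F C
  have hfinG : Finite (C ≃ₐ[F] C) := inferInstance
  have hfinS : Finite (FixZ F ζ) := inferInstance
  have hsq : ∀ g : FixZ F ζ, ∃ y : AlgebraicClosure C,
      y ^ p = algebraMap C (AlgebraicClosure C) ((g : C ≃ₐ[F] C) (γ : C)) := fun g =>
    IsAlgClosed.exists_pow_nat_eq _ hp0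
  choose r0 hr0 using hsq
  have hint : ∀ x ∈ Set.range r0, IsIntegral C x := by
    rintro _ ⟨g, rfl⟩
    exact (Algebra.IsAlgebraic.isAlgebraic (r0 g)).isIntegral
  let E : IntermediateField C (AlgebraicClosure C) := IntermediateField.adjoin C (Set.range r0)
  have hEfin : FiniteDimensional C E := IntermediateField.finiteDimensional_adjoin hint
  have hmem : ∀ g, r0 g ∈ E := fun g => IntermediateField.subset_adjoin C _ ⟨g, rfl⟩
  have hnf : NumberField E := NumberField.of_module_finite C E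
  have halg : Algebra.IsAlgebraic F (AlgebraicClosure C) :=
    Algebra.IsAlgebraic.trans F C (AlgebraicClosure C)
  have hac : IsAlgClosure F (AlgebraicClosure C) := ⟨inferInstance, halg⟩
  have hnorm : Normal F (AlgebraicClosure C) := IsAlgClosure.normal F _
  have hz0 : IsPrimitiveRoot (algebraMap C (AlgebraicClosure C) ζ) p :=
    h.prim.map_of_injective (algebraMap C (AlgebraicClosure C)).injective
  have hne : ∀ g, r0 g ≠ 0 := by
    intro g h0
    have h1 := hr0 g
    rw [h0, zero_pow hp0.ne'] at h1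
    have h2 : (g : C ≃ₐ[F] C) (γ : C) = 0 :=
      (algebraMap C (AlgebraicClosure C)).injective (by rw [map_zero]; exact h1.symm)
    have h3 : (γ : C) = 0 := (g : C ≃ₐ[F] C).injective (by rw [h2, map_zero])
    exact γ.ne_zero h3
  have hE0 : ∀ (σ : AlgebraicClosure C →ₐ[F] AlgebraicClosure C) (x : AlgebraicClosure C),
      x ∈ E → σ x ∈ E := by
    intro σ x hx
    refine IntermediateField.adjoin_induction C (p := fun x _ => σ x ∈ E) ?_ ?_ ?_ ?_ ?_ hx
    · rintro _ ⟨g, rfl⟩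
      obtain ⟨g1, δ, hs⟩ := h.dec (σ.restrictNormal' C)
      obtain ⟨n, hn⟩ := W8_exp hp0 h.prim δ
      obtain ⟨z, hz⟩ := heig δ n hn
      have h1 : σ (r0 g) ^ p = (r0 (g1 * g) ^ n * algebraMap C (AlgebraicClosure C)
          (((g1 * g : FixZ F ζ) : C ≃ₐ[F] C) (z : C))) ^ p := by
        rw [← map_pow, hr0, mul_pow, ← pow_mul, mul_comm n p, pow_mul, hr0]
        have h2 : σ (algebraMap C (AlgebraicClosure C) ((g : C ≃ₐ[F] C) (γ : C))) =
            algebraMap C (AlgebraicClosure C)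
              ((σ.restrictNormal' C) ((g : C ≃ₐ[F] C) (γ : C))) :=
          (AlgHom.restrictNormal_commutes σ C ((g : C ≃ₐ[F] C) (γ : C))).symm
        rw [h2, hs, W8_act h (γ : C) (z : C) δ n hz g1 g, map_mul, map_pow, map_pow]
      obtain ⟨i, hi⟩ := W8_root hp0 hz0 (by
        refine mul_ne_zero (pow_ne_zero _ (hne _)) ?_
        rw [Ne, map_eq_zero_iff _ (algebraMap C (AlgebraicClosure C)).injective,
          map_eq_zero_iff _ ((g1 * g : FixZ F ζ) : C ≃ₐ[F] C).injective]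
        exact z.ne_zero) h1
      rw [hi]
      refine mul_mem (pow_mem (E.algebraMap_mem _) _) (mul_mem (pow_mem (hmem _) _)
        (E.algebraMap_mem _))
    · intro x
      rw [← AlgHom.restrictNormal_commutes σ C x]
      exact E.algebraMap_mem _
    · intro x y _ _ h1 h2
      rw [map_add]
      exact add_mem h1 h2
    · intro x _ h1
      rw [map_inv₀]
      exact inv_mem h1
    · intro x y _ _ h1 h2
      rw [map_mul]
      exact mul_mem h1 h2
  have hE : Normal F (E.restrictScalars F) := by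
    rw [IntermediateField.normal_iff_forall_map_le]
    intro σ
    rintro _ ⟨x, hx, rfl⟩
    exact hE0 σ x hx
  have hE' : Normal F E := hE
  have hFKE : IsScalarTower F K E := by
    refine IsScalarTower.of_algebraMap_eq fun x => ?_
    apply Subtype.ext
    show algebraMap F (AlgebraicClosure C) x = algebraMap K (AlgebraicClosure C) (algebraMap F K x)
    rw [IsScalarTower.algebraMap_apply F C (AlgebraicClosure C),
      IsScalarTower.algebraMap_apply K C (AlgebraicClosure C),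
      IsScalarTower.algebraMap_apply F K C]
  have hwr : WrP p F C E ζ γ (fun g => ⟨r0 g, hmem g⟩) := by
    refine ⟨?_, ?_, ?_⟩
    · intro g
      apply Subtype.ext
      exact hr0 g
    · have h1 : (⊤ : Subalgebra C E) = Algebra.adjoin C
          (Set.range fun g => (⟨r0 g, hmem g⟩ : E)) := by
        apply Subalgebra.map_injective (f := E.val) E.val.injective
        rw [← Algebra.adjoin_image, ← Set.range_comp]
        have h2 : (E.val ∘ fun g => (⟨r0 g, hmem g⟩ : E)) = r0 := rfl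
        rw [h2, ← IntermediateField.adjoin_toSubalgebra_of_isAlgebraic
          (fun x hx => (hint x hx).isAlgebraic)]
        ext x
        constructor
        · rintro ⟨y, -, rfl⟩
          exact y.2
        · intro hx
          exact ⟨⟨x, hx⟩, Algebra.mem_top, rfl⟩
      exact h1.symm
    · exact { to_normal := hE' }
  exact ⟨E, inferInstance, hnf, inferInstance, inferInstance, inferInstance, inferInstance,
    inferInstance, hFKE, fun g => ⟨r0 g, hmem g⟩, hwr,
    fun τ u x => W8_central hp0 h γ heig hwr τ u x⟩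

end H28T
end

-- from Lib.H28T.W7
section

open NumberField IsDedekindDomain

namespace H28T

open H28R
open H55P H55R

variable {F : Type} [Field F] [NumberField F] {G : HeightOneSpectrum (𝓞 F) → Prop}

/-! Chunk W7 (M): the eigenvector. For δ in Δ = group of C/K there is a unique a(δ) in {1,..,p-1} with ζ = (δ ζ)^a(δ) (δ ζ = ζ^n, n prime to p; a(δ) the inverse of n modulo p). γ = product over δ of (δ α)^(a δ) (units). pp: a = product of (δ a0)^(a δ), a0 in 𝓞 C with p^2 | a0 - 1; δ a0 = 1 mod p^2 (δ acts on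
𝓞 C and fixes p). eig: δ' γ = product of (δ' δ α)^(a δ) = product over δ of (δ α)^(a(δ'⁻¹ δ)), and a(δ'⁻¹ δ) = n' a(δ) mod p if δ' ζ = ζ^n' (check: ((δ'⁻¹ δ) ζ)^(n' a δ) = δ'⁻¹ ((δ ζ)^(n' a δ)) = δ'⁻¹ (ζ^n') = ζ); so δ' γ = γ^n' times a p-th power (exponents differ by multiples of p: zpow). For every natural
number n with δ' ζ = ζ^n. Orders: ord P (δ α) = ord (δ⁻¹ P) α (H55R.ord_smul). If P is not one of the δ w, δ w': all the orders are divisible by p. At w: the stabiliser of w in the group of C/F is trivial (card_stab: inertia degree and ramification index 1: fs = es = 1), so δ⁻¹ w = w only for δ = 1, and δ⁻¹ w <> w' because w' lies over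
another prime of F (under_smulP): ord w γ = a(1) ord w α = ord w α = 1 mod p. -/

theorem w7_cong {R : Type} [CommRing R] (q : R) {ι : Type} (s : Finset ι) (f : ι → R) (n : ι → ℕ)
    (h : ∀ i ∈ s, q ∣ f i - 1) : q ∣ ∏ i ∈ s, f i ^ n i - 1 := by
  have hm : ∀ x y : R, q ∣ x - 1 → q ∣ y - 1 → q ∣ x * y - 1 := by
    intro x y hx hy
    have e : x * y - 1 = x * (y - 1) + (x - 1) := by ring
    rw [e]
    exact dvd_add (dvd_mul_of_dvd_right hy x) hx
  refine Finset.prod_induction _ (fun x => q ∣ x - 1) hm (by simp) ?_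
  intro i hi
  induction n i with
  | zero => simp
  | succ m ih =>
    rw [pow_succ]
    exact hm _ _ ih (h i hi)

theorem w7_mod {C : Type} [Field C] {ζ : C} {p : ℕ} (h : IsPrimitiveRoot ζ p) (hp : 0 < p)
    {i j : ℕ} (e : ζ ^ i = ζ ^ j) : i ≡ j [MOD p] := by
  have e1 : ∀ m : ℕ, ζ ^ m = ζ ^ (m % p) := by
    intro m
    conv_lhs => rw [← Nat.div_add_mod m p, pow_add, pow_mul, h.pow_eq_one, one_pow, one_mul]
  rw [e1 i, e1 j] at e
  exact h.pow_inj (Nat.mod_lt _ hp) (Nat.mod_lt _ hp) e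

theorem exists_gam {p : ℕ} (hp : p.Prime) {K C : Type} [Field K] [NumberField K]
    [Field C] [NumberField C] [Algebra F K] [Algebra F C] [Algebra K C] [IsScalarTower F K C]
    {ζ : C} (h : Cyc F p K C ζ) {B : ℕ} {α : Cˣ} {w w' : Pl C} (hα : Alp G p C B α w w') :
    ∃ γ : Cˣ, Gam G p K C ζ B γ w w' := by
  classical
  have hGal := h.gal
  have hpf : Fact p.Prime := ⟨hp⟩
  have hroot : ∀ δ : C ≃ₐ[K] C, ∃ i : ℕ, δ⁻¹ ζ = ζ ^ i := by
    intro δ
    have h1 : (δ⁻¹ ζ) ^ p = 1 := by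
      rw [← map_pow, h.prim.pow_eq_one, map_one]
    obtain ⟨i, -, hi⟩ := h.prim.eq_pow_of_pow_eq_one h1
    exact ⟨i, hi.symm⟩
  choose a ha using hroot
  set G : (C ≃ₐ[K] C) → Cˣ := fun δ => Units.map ((δ : C ≃ₐ[K] C) : C →* C) α with hG
  have hGv : ∀ δ, ((G δ : Cˣ) : C) = δ (α : C) := fun δ => rfl
  set γ : Cˣ := ∏ δ : C ≃ₐ[K] C, G δ ^ a δ with hγ
  -- orders
  have e3 : ∀ (P : Pl C) (δ : C ≃ₐ[K] C), ord P (G δ) = ord (smulP (δ⁻¹ : Gal(C/K)) P) α := by
    intro P δ
    rw [← ord_smul (δ : Gal(C/K)) (smulP (δ⁻¹ : Gal(C/K)) P) α, ← smulP_mul, mul_inv_cancel,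
      smulP_one]
  have e4 : ∀ P : Pl C, ord P γ =
      ∑ δ : C ≃ₐ[K] C, (a δ : ℤ) * ord (smulP (δ⁻¹ : Gal(C/K)) P) α := by
    intro P
    rw [hγ, wst_prod]
    exact Finset.sum_congr rfl fun δ _ => by rw [e3]
  have e5 : ∀ (σ : Gal(C/K)) (P Q : Pl C), smulP (σ⁻¹) P = Q → P = smulP σ Q := by
    intro σ P Q hPQ
    rw [← hPQ, ← smulP_mul, mul_inv_cancel, smulP_one]
  refine ⟨γ, ?_, ?_, ?_, ?_, hα.ne, hα.nice, hα.nice'⟩
  · obtain ⟨a0, ha0, ha1⟩ := hα.pp
    refine ⟨∏ δ : C ≃ₐ[K] C, ((δ : Gal(C/K)) • a0 : 𝓞 C) ^ a δ, ?_, ?_⟩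
    · rw [hγ, Units.coe_prod]
      have e6 : ((∏ δ : C ≃ₐ[K] C, ((δ : Gal(C/K)) • a0 : 𝓞 C) ^ a δ : 𝓞 C) : C) =
          ∏ δ : C ≃ₐ[K] C, (((δ : Gal(C/K)) • a0 : 𝓞 C) : C) ^ a δ := by
        show algebraMap (𝓞 C) C (∏ δ : C ≃ₐ[K] C, ((δ : Gal(C/K)) • a0 : 𝓞 C) ^ a δ) = _
        rw [map_prod]
        exact Finset.prod_congr rfl fun δ _ => map_pow _ _ _
      rw [e6]
      refine Finset.prod_congr rfl fun δ _ => ?_
      rw [Units.val_pow_eq_pow_val, hGv, BF1_coe, ha0]
    · apply w7_cong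
      intro δ _
      obtain ⟨b, hb⟩ := ha1
      refine ⟨(δ : Gal(C/K)) • b, ?_⟩
      have e7 : (δ : Gal(C/K)) • a0 - 1 = (δ : Gal(C/K)) • (a0 - 1) := by
        rw [smul_sub, smul_one]
      rw [e7, hb, smul_mul', smul_pow']
      congr 2
      apply RingOfIntegers.ext
      rw [BF1_coe]
      exact map_natCast _ _
  · intro hdiv
    rw [e4, ← Finset.add_sum_erase _ _ (Finset.mem_univ (1 : C ≃ₐ[K] C))] at hdiv
    have h1 : (p : ℤ) ∣ ∑ δ ∈ Finset.univ.erase (1 : C ≃ₐ[K] C),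
        (a δ : ℤ) * ord (smulP (δ⁻¹ : Gal(C/K)) w) α := by
      refine Finset.dvd_sum fun δ hδ => dvd_mul_of_dvd_right (hα.oth _ ?_ ?_) _
      · intro h2
        rw [← wst_res (F := F) (δ⁻¹) w] at h2
        have h3 := wst_one w hα.nice.deg hα.nice.unr _ h2
        have h4 : δ⁻¹ = 1 := by
          ext x
          exact congrArg (fun s : C ≃ₐ[F] C => s x) h3
        exact Finset.ne_of_mem_erase hδ (inv_eq_one.1 h4)
      · intro h2
        rw [← wst_res (F := F) (δ⁻¹) w] at h2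
        have h3 := congrArg (fun W : Pl C => W.under (𝓞 F)) h2
        simp only [under_smulP] at h3
        exact hα.ne (congrArg HeightOneSpectrum.asIdeal h3)
    have h2 := (dvd_add_left h1).1 hdiv
    rw [inv_one, smulP_one] at h2
    have h3 : ζ ^ a 1 = ζ ^ 1 := by
      rw [← ha 1, inv_one, pow_one]
      rfl
    have h4 : ((a 1 : ℕ) : ℤ) ≡ ((1 : ℕ) : ℤ) [ZMOD p] := by
      rw [Int.natCast_modEq_iff]
      exact w7_mod h.prim hp.pos h3
    rcases Int.Prime.dvd_mul' hp h2 with h5 | h5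
    · have h6 := (Int.modEq_iff_dvd.1 h4.symm)
      have h7 : (p : ℤ) ∣ 1 := by
        have h8 := dvd_sub h5 h6
        simpa using h8
      exact hp.one_lt.ne' (by exact_mod_cast Int.eq_one_of_dvd_one (by positivity) h7)
    · have h7 : (p : ℤ) ∣ 1 := by
        have h8 := dvd_sub h5 hα.at1
        simpa using h8
      exact hp.one_lt.ne' (by exact_mod_cast Int.eq_one_of_dvd_one (by positivity) h7)
  · intro P hP
    rw [e4]
    refine Finset.dvd_sum fun δ _ => dvd_mul_of_dvd_right (hα.oth _ ?_ ?_) _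
    · intro h2
      exact (hP δ).1 (e5 δ P w h2)
    · intro h2
      exact (hP δ).2 (e5 δ P w' h2)
  · intro δ' n hn
    have h1 : ∀ δ : C ≃ₐ[K] C, ∃ k : ℤ, (a (δ'⁻¹ * δ) : ℤ) = n * a δ + p * k := by
      intro δ
      have h2 : ζ ^ a (δ'⁻¹ * δ) = ζ ^ (n * a δ) := by
        rw [← ha, mul_inv_rev, inv_inv]
        show δ⁻¹ (δ' ζ) = _
        rw [hn, map_pow, ha, ← pow_mul, mul_comm]
      have h3 : (((n * a δ : ℕ)) : ℤ) ≡ ((a (δ'⁻¹ * δ) : ℕ) : ℤ) [ZMOD p] := by
        rw [Int.natCast_modEq_iff]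
        exact (w7_mod h.prim hp.pos h2).symm
      obtain ⟨k, hk⟩ := Int.modEq_iff_dvd.1 h3
      refine ⟨k, ?_⟩
      push_cast at hk
      linarith
    choose k hk using h1
    refine ⟨∏ δ : C ≃ₐ[K] C, G δ ^ k δ, ?_⟩
    have h2 : Units.map ((δ' : C ≃ₐ[K] C) : C →* C) γ =
        ∏ δ : C ≃ₐ[K] C, G δ ^ (a (δ'⁻¹ * δ)) := by
      rw [hγ, map_prod]
      refine Fintype.prod_equiv (Equiv.mulLeft δ') _ _ fun δ => ?_
      rw [map_pow]
      have e8 : Equiv.mulLeft δ' δ = δ' * δ := rfl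
      rw [e8, inv_mul_cancel_left]
      congr 1
    have h3 : Units.map ((δ' : C ≃ₐ[K] C) : C →* C) γ =
        γ ^ n * (∏ δ : C ≃ₐ[K] C, G δ ^ k δ) ^ p := by
      rw [h2, hγ, ← Finset.prod_pow, ← Finset.prod_pow, ← Finset.prod_mul_distrib]
      refine Finset.prod_congr rfl fun δ _ => ?_
      rw [← zpow_natCast (G δ) (a (δ'⁻¹ * δ)), hk, zpow_add, zpow_mul', zpow_mul']
      simp only [zpow_natCast]
    have h4 := congrArg (fun u : Cˣ => (u : C)) h3
    simp only [Units.val_mul, Units.val_pow_eq_pow_val] at h4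
    exact h4

end H28T
end

-- from Lib.H55N.S2
section

open NumberField IsDedekindDomain

namespace H55N

open H55B H55C

/-! Chunk S2 (M/L): an element of 𝓞 K with prescribed norm class, divisible (above odd primes) only by primes of residue degree one.
avoid: intNorm (theta + a) = det (M_theta + a) modulo v is the value at a of a monic polynomial of degree n = finrank over the field O/v (the
characteristic polynomial of -M_theta), which has at most n < N v roots.
exists_elt: Let P1 = P, the primes above 3 and the primes v with absNorm v <= n (finite set), without those containing 2. Choose mu in O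
with mu = om mod 2, mu = 1 mod 3 and mod all v in P1 (Chinese remainder theorem), nu in O nonzero, divisible by 6 and contained in all v in P1,
theta0 in 𝓞 K with F(theta0) = K (primitive element, multiplied by a denominator), theta = mu + nu theta0. Let d be as in deg_one
for theta. Choose a in O with a = 0 mod 6, a in v for v in P1, and intNorm (theta + a) not in v for the primes v containing d, not in
P1 and not containing 2 (avoid; the class modulo v only matters by norm_congr; CRT). z = theta + a. Then z = om mod 2, z = 1 mod 3;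
for v in P1: z - 1 is in the ideal generated by a generator of v, so intNorm z - 1 is in v (norm_congr; intNorm 1 = 1).
If z in w, 2 not in w, v below w: intNorm z in v (Ideal.relNorm_le_comap or Algebra.dvd_algebraMap_intNorm_self), so v is not in P1 and does not
contain d, hence deg_one. -/

variable {K : Type} [Field K] [NumberField K] [Algebra F K]

theorem s2_charpoly (θ : 𝓞 K) : ∃ p : Polynomial O, p.Monic ∧ p.natDegree = Module.finrank F K ∧
    ∀ a : O, Algebra.intNorm O (𝓞 K) (θ + algebraMap O (𝓞 K) a) = p.eval a := by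
  classical
  let b := Module.Free.chooseBasis O (𝓞 K)
  refine ⟨(-(Algebra.leftMulMatrix b θ)).charpoly, Matrix.charpoly_monic _, ?_, ?_⟩
  · rw [Matrix.charpoly_natDegree_eq_dim, ← Module.finrank_eq_card_chooseBasisIndex]
    exact (IsFractionRing.finrank_eq O F (𝓞 K) K).symm
  · intro a
    rw [Algebra.intNorm_eq_norm, Algebra.norm_eq_matrix_det b, Matrix.eval_charpoly, map_add,
      AlgHom.commutes, sub_neg_eq_add, add_comm]
    rfl

theorem avoid (θ : 𝓞 K) (v : HeightOneSpectrum O)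
    (hv : Module.finrank F K < Ideal.absNorm v.asIdeal) :
    ∃ a : O, Algebra.intNorm O (𝓞 K) (θ + algebraMap O (𝓞 K) a) ∉ v.asIdeal := by
  classical
  obtain ⟨p, hp, hd, hpa⟩ := s2_charpoly (K := K) θ
  by_contra hcon
  push Not at hcon
  have := v.isMaximal
  let _ : Field (O ⧸ v.asIdeal) := Ideal.Quotient.field v.asIdeal
  have : Finite (O ⧸ v.asIdeal) := Ideal.finiteQuotientOfFreeOfNeBot v.asIdeal v.ne_bot
  let _ := Fintype.ofFinite (O ⧸ v.asIdeal)
  set q := p.map (Ideal.Quotient.mk v.asIdeal) with hq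
  have hqm : q.Monic := hp.map _
  have hroot : ∀ y : O ⧸ v.asIdeal, q.eval y = 0 := by
    intro y
    obtain ⟨a, rfl⟩ := Ideal.Quotient.mk_surjective y
    rw [hq, Polynomial.eval_map, Polynomial.eval₂_at_apply, Ideal.Quotient.eq_zero_iff_mem,
      ← hpa a]
    exact hcon a
  have hsub : (Finset.univ : Finset (O ⧸ v.asIdeal)) ⊆ q.roots.toFinset := by
    intro y _
    rw [Multiset.mem_toFinset, Polynomial.mem_roots hqm.ne_zero]
    exact hroot y
  have h1 := Finset.card_le_card hsub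
  have h2 : q.roots.toFinset.card ≤ q.natDegree :=
    (Multiset.toFinset_card_le _).trans (Polynomial.card_roots' q)
  have h3 : q.natDegree = Module.finrank F K := by
    rw [hq, hp.natDegree_map, hd]
  have h4 : Ideal.absNorm v.asIdeal = (Finset.univ : Finset (O ⧸ v.asIdeal)).card := by
    rw [Ideal.absNorm_apply, Submodule.cardQuot_apply, Nat.card_eq_fintype_card,
      Finset.card_univ]
  omega

/-- Generators of the primes of O. -/
theorem s2_gen (v : HeightOneSpectrum O) : ∃ π : O, v.asIdeal = Ideal.span {π} :=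
  (IsPrincipalIdealRing.principal v.asIdeal).principal

theorem s2_norm_mem (v : HeightOneSpectrum O) (x y : 𝓞 K) (h : ∃ a ∈ v.asIdeal, ∃ r : 𝓞 K,
    x - y = algebraMap O (𝓞 K) a * r) :
    Algebra.intNorm O (𝓞 K) x - Algebra.intNorm O (𝓞 K) y ∈ v.asIdeal := by
  obtain ⟨π, hπ⟩ := s2_gen v
  obtain ⟨a, ha, r, hr⟩ := h
  rw [hπ, Ideal.mem_span_singleton] at ha
  obtain ⟨c, hc⟩ := ha
  rw [hπ, Ideal.mem_span_singleton]
  apply norm_congr
  rw [Ideal.mem_span_singleton, hr, hc, map_mul]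
  exact ⟨algebraMap O (𝓞 K) c * r, by ring⟩

theorem s2_avoid (θ : 𝓞 K) (c : O) (v : HeightOneSpectrum O) (hc : c ∉ v.asIdeal)
    (hv : Module.finrank F K < Ideal.absNorm v.asIdeal) :
    ∃ a : O, Algebra.intNorm O (𝓞 K) (θ + algebraMap O (𝓞 K) (c * a)) ∉ v.asIdeal := by
  obtain ⟨a, ha⟩ := avoid θ v hv
  obtain ⟨y, i, hi, hy⟩ := v.isMaximal.exists_inv hc
  refine ⟨y * a, fun h => ha ?_⟩
  have h1 := s2_norm_mem (K := K) v (θ + algebraMap O (𝓞 K) a)
    (θ + algebraMap O (𝓞 K) (c * (y * a))) ⟨i, hi, algebraMap O (𝓞 K) a, by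
      have : c * (y * a) = a - i * a := by linear_combination a * hy
      rw [this, map_sub, map_mul]
      ring⟩
  have h2 := v.asIdeal.add_mem h1 h
  rwa [sub_add_cancel] at h2

theorem s2_crt (s : Finset (HeightOneSpectrum O)) (x : HeightOneSpectrum O → O) :
    ∃ a : O, ∀ v ∈ s, a - x v ∈ v.asIdeal := by
  obtain ⟨y, hy⟩ := IsDedekindDomain.exists_forall_sub_mem_ideal (s := s)
    (fun v : HeightOneSpectrum O => v.asIdeal) (fun _ => 1)
    (fun v _ => v.prime) (fun v _ w _ h h' => h (HeightOneSpectrum.ext h')) (fun v => x v)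
  exact ⟨y, fun v hv => by simpa using hy v hv⟩

theorem s2_fin (d : O) (hd : d ≠ 0) : {v : HeightOneSpectrum O | d ∈ v.asIdeal}.Finite := by
  have h := Ideal.finite_factors (R := O) (I := Ideal.span {d}) (by
    rw [Ne, Submodule.zero_eq_bot, Ideal.span_singleton_eq_bot]
    exact hd)
  exact h.subset fun v hv => Ideal.dvd_span_singleton.2 hv

theorem s2_fin_norm (n : ℕ) : {v : HeightOneSpectrum O | Ideal.absNorm v.asIdeal ≤ n}.Finite :=
  (Ideal.finite_setOfPred_absNorm_le (S := O) n).preimage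
    fun v _ w _ h => HeightOneSpectrum.ext h

theorem s2_mem_under (w : HeightOneSpectrum (𝓞 K)) (z : 𝓞 K) (hz : z ∈ w.asIdeal) :
    Algebra.intNorm O (𝓞 K) z ∈ w.asIdeal.under O := by
  rw [Ideal.under_def, Ideal.mem_comap]
  exact Ideal.mem_of_dvd _ (Algebra.dvd_algebraMap_intNorm_self O (𝓞 K) z) hz

theorem s2_under (w : HeightOneSpectrum (𝓞 K)) :
    ∃ v : HeightOneSpectrum O, v.asIdeal = w.asIdeal.under O := by
  have hp : (w.asIdeal.under O).IsPrime := inferInstance
  have hne : w.asIdeal.under O ≠ ⊥ := by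
    obtain ⟨x, hx, hx0⟩ := Submodule.exists_mem_ne_zero_of_ne_bot w.ne_bot
    exact Ideal.comap_ne_bot_of_integral_mem hx0 hx (Algebra.IsIntegral.isIntegral x)
  exact ⟨⟨_, hp, hne⟩, rfl⟩

/-- The auxiliary modulus. -/
theorem s2_mod (s : Finset (HeightOneSpectrum O)) (h2 : ∀ v ∈ s, (2 : O) ∉ v.asIdeal)
    (h3 : ∀ v : HeightOneSpectrum O, (3 : O) ∈ v.asIdeal → (2 : O) ∉ v.asIdeal → v ∈ s) :
    ∃ N : O, N ≠ 0 ∧ (3 : O) ∣ N ∧ IsCoprime 2 N ∧ (∀ v ∈ s, N ∈ v.asIdeal) ∧
      ∀ v : HeightOneSpectrum O, (2 : O) ∉ v.asIdeal → v ∉ s → N ∉ v.asIdeal := by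
  choose π hπ using s2_gen
  have hπ0 : ∀ v, π v ≠ 0 := by
    intro v h
    apply v.ne_bot
    rw [hπ, h]
    exact Ideal.span_singleton_eq_bot.2 rfl
  have hmem : ∀ v, π v ∈ v.asIdeal := fun v => by
    have := Ideal.mem_span_singleton_self (π v)
    rwa [← hπ v] at this
  refine ⟨3 * ∏ v ∈ s, π v, ?_, dvd_mul_right _ _, ?_, ?_, ?_⟩
  · exact mul_ne_zero (OfNat.ofNat_ne_zero 3) (Finset.prod_ne_zero_iff.2 fun v _ => hπ0 v)
  · refine IsCoprime.mul_right ⟨-1, 1, by norm_num⟩ (IsCoprime.prod_right fun v hv => ?_)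
    obtain ⟨y, i, hi, hy⟩ := v.isMaximal.exists_inv (h2 v hv)
    rw [hπ v, Ideal.mem_span_singleton] at hi
    obtain ⟨c, hc⟩ := hi
    exact ⟨y, c, by rw [← hy, hc]; ring⟩
  · intro v hv
    exact v.asIdeal.mul_mem_left _ (Ideal.mem_of_dvd _ (Finset.dvd_prod_of_mem π hv) (hmem v))
  · intro v hv2 hvs h
    rcases v.isPrime.mem_or_mem h with h | h
    · exact hvs (h3 v h hv2)
    · obtain ⟨v', hv', h'⟩ := (v.isPrime.prod_mem_iff).1 h
      have hle : v'.asIdeal ≤ v.asIdeal := by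
        rw [hπ v', Ideal.span_singleton_le_iff_mem]
        exact h'
      have heq : v'.asIdeal = v.asIdeal :=
        v'.isMaximal.eq_of_le v.isPrime.ne_top hle
      exact hvs (HeightOneSpectrum.ext heq ▸ hv')

/-- A primitive element in the ring of integers, scaled and translated. -/
theorem s2_prim (K : Type) [Field K] [NumberField K] [Algebra F K] :
    ∃ x : 𝓞 K, ∀ μ ν : O, ν ≠ 0 →
      Algebra.adjoin F {((algebraMap O (𝓞 K) μ + algebraMap O (𝓞 K) ν * x : 𝓞 K) : K)} = ⊤ := by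
  have : IsScalarTower ℚ F K := IsScalarTower.of_algebraMap_eq' (Subsingleton.elim _ _)
  have : FiniteDimensional F K := Module.Finite.of_restrictScalars_finite ℚ F K
  obtain ⟨α, hα⟩ := Field.exists_primitive_element F K
  have hα2 : Algebra.adjoin F {α} = ⊤ := by
    rw [← IntermediateField.adjoin_simple_toSubalgebra_of_isAlgebraic
      (Algebra.IsAlgebraic.isAlgebraic α), hα]
    rfl
  obtain ⟨y, hy0, hy⟩ := exists_integral_multiples ℤ ℚ ({α} : Finset K)
  obtain ⟨x, hx⟩ : ∃ x : 𝓞 K, (x : K) = y • α :=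
    ⟨⟨y • α, hy α (Finset.mem_singleton_self α)⟩, rfl⟩
  refine ⟨x, fun μ ν hν => ?_⟩
  rw [eq_top_iff, ← hα2]
  apply Algebra.adjoin_le
  rw [Set.singleton_subset_iff, SetLike.mem_coe]
  set S := Algebra.adjoin F {((algebraMap O (𝓞 K) μ + algebraMap O (𝓞 K) ν * x : 𝓞 K) : K)}
    with hS
  have h1 : ((algebraMap O (𝓞 K) μ + algebraMap O (𝓞 K) ν * x : 𝓞 K) : K) ∈ S :=
    Algebra.self_mem_adjoin_singleton F _
  have h2 : ((algebraMap O (𝓞 K) μ + algebraMap O (𝓞 K) ν * x : 𝓞 K) : K) =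
      algebraMap F K (μ : F) + algebraMap F K ((ν : F) * y) * α := by
    have e1 : ((algebraMap O (𝓞 K) μ + algebraMap O (𝓞 K) ν * x : 𝓞 K) : K) =
        algebraMap F K (μ : F) + algebraMap F K (ν : F) * (x : K) := rfl
    rw [e1, hx, map_mul, map_intCast, zsmul_eq_mul, mul_assoc]
  rw [h2] at h1
  have h3 : algebraMap F K ((ν : F) * y) * α ∈ S := by
    have := S.sub_mem h1 (S.algebraMap_mem (μ : F))
    rwa [add_sub_cancel_left] at this
  have hne : (ν : F) * y ≠ 0 := by
    refine mul_ne_zero ?_ ?_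
    · exact_mod_cast hν
    · exact_mod_cast hy0
  have h4 := S.mul_mem (S.algebraMap_mem ((ν : F) * y)⁻¹) h3
  rwa [← mul_assoc, ← map_mul, inv_mul_cancel₀ hne, map_one, one_mul] at h4

theorem exists_elt (K : Type) [Field K] [NumberField K] [Algebra F K]
    (P : Finset (HeightOneSpectrum O)) :
    ∃ z : 𝓞 K, z - algebraMap O (𝓞 K) om ∈ Ideal.span {(2 : 𝓞 K)} ∧
      z - 1 ∈ Ideal.span {(3 : 𝓞 K)} ∧
      (∀ v ∈ P, (2 : O) ∉ v.asIdeal → Algebra.intNorm O (𝓞 K) z ∉ v.asIdeal) ∧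
      ∀ w : HeightOneSpectrum (𝓞 K), (2 : 𝓞 K) ∉ w.asIdeal → z ∈ w.asIdeal →
        w.asIdeal.inertiaDeg O = 1 := by
  classical
  set P1 : Finset (HeightOneSpectrum O) :=
    (P ∪ (s2_fin_norm (Module.finrank F K)).toFinset ∪
      (s2_fin 3 (OfNat.ofNat_ne_zero 3)).toFinset).filter fun v => (2 : O) ∉ v.asIdeal with hP1
  obtain ⟨N, hN0, ⟨N3, hN3⟩, ⟨a2, b2, hab⟩, hNP, hNn⟩ := s2_mod P1
    (fun v hv => (Finset.mem_filter.1 hv).2)
    (fun v hv hv2 => by
      rw [hP1, Finset.mem_filter]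
      refine ⟨?_, hv2⟩
      rw [Finset.mem_union]
      right
      rw [Set.Finite.mem_toFinset]
      exact hv)
  obtain ⟨x, hx⟩ := s2_prim K
  set μ : O := om * (b2 * N) + a2 * 2 with hμ
  set θ : 𝓞 K := algebraMap O (𝓞 K) μ + algebraMap O (𝓞 K) (2 * N) * x with hθ
  have h2N : (2 * N : O) ≠ 0 := mul_ne_zero (OfNat.ofNat_ne_zero 2) hN0
  obtain ⟨d, hd0, hd⟩ := deg_one θ (hx μ (2 * N) h2N)
  set P2 : Finset (HeightOneSpectrum O) :=
    (s2_fin d hd0).toFinset.filter fun v => (2 : O) ∉ v.asIdeal ∧ v ∉ P1 with hP2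
  have hcv : ∀ v : HeightOneSpectrum O, (2 : O) ∉ v.asIdeal → v ∉ P1 →
      2 * N ∉ v.asIdeal := by
    intro v h2 h1 h
    rcases v.isPrime.mem_or_mem h with h | h
    · exact h2 h
    · exact hNn v h2 h1 h
  have hav : ∀ v ∈ P2, ∃ a : O,
      Algebra.intNorm O (𝓞 K) (θ + algebraMap O (𝓞 K) (2 * N * a)) ∉ v.asIdeal := by
    intro v hv
    obtain ⟨-, h2, h1⟩ := Finset.mem_filter.1 hv
    refine s2_avoid θ (2 * N) v (hcv v h2 h1) ?_
    by_contra hle
    push Not at hle
    apply h1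
    rw [hP1, Finset.mem_filter]
    refine ⟨?_, h2⟩
    rw [Finset.mem_union, Finset.mem_union]
    left
    right
    rw [Set.Finite.mem_toFinset]
    exact hle
  choose! av hav using hav
  obtain ⟨a, ha⟩ := s2_crt P2 av
  set z : 𝓞 K := θ + algebraMap O (𝓞 K) (2 * N * a) with hz
  have hzP1 : ∀ v ∈ P1, Algebra.intNorm O (𝓞 K) z ∉ v.asIdeal := by
    intro v hv h
    have h1 := s2_norm_mem (K := K) v z 1 ⟨N, hNP v hv,
      algebraMap O (𝓞 K) (om * b2 - b2) + algebraMap O (𝓞 K) 2 * x +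
        algebraMap O (𝓞 K) (2 * a), by
      have e1 : μ = 1 + N * (om * b2 - b2) := by
        rw [hμ]
        linear_combination hab
      rw [hz, hθ, e1]
      simp only [map_add, map_mul, map_one, map_sub]
      ring⟩
    have h2 := v.asIdeal.sub_mem h h1
    rw [sub_sub_cancel, map_one] at h2
    exact v.isPrime.ne_top ((Ideal.eq_top_iff_one _).2 h2)
  have hzP2 : ∀ v ∈ P2, Algebra.intNorm O (𝓞 K) z ∉ v.asIdeal := by
    intro v hv h
    have h1 := s2_norm_mem (K := K) v z (θ + algebraMap O (𝓞 K) (2 * N * av v))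
      ⟨a - av v, ha v hv, algebraMap O (𝓞 K) (2 * N), by
        rw [hz]
        simp only [map_mul, map_sub]
        ring⟩
    have h2 := v.asIdeal.sub_mem h h1
    rw [sub_sub_cancel] at h2
    exact hav v hv h2
  refine ⟨z, ?_, ?_, ?_, ?_⟩
  · rw [Ideal.mem_span_singleton]
    refine ⟨algebraMap O (𝓞 K) (a2 - a2 * om) + algebraMap O (𝓞 K) N * x +
      algebraMap O (𝓞 K) (N * a), ?_⟩
    have e1 : μ = om + 2 * (a2 - a2 * om) := by
      rw [hμ]
      linear_combination om * hab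
    rw [hz, hθ, e1]
    simp only [map_add, map_mul, map_sub, map_ofNat]
    ring
  · rw [Ideal.mem_span_singleton]
    refine ⟨algebraMap O (𝓞 K) (N3 * (om * b2 - b2)) + algebraMap O (𝓞 K) (2 * N3) * x +
      algebraMap O (𝓞 K) (2 * N3 * a), ?_⟩
    have e1 : μ = 1 + 3 * N3 * (om * b2 - b2) := by
      rw [← hN3, hμ]
      linear_combination hab
    rw [hz, hθ, e1, hN3]
    simp only [map_add, map_mul, map_sub, map_ofNat, map_one]
    ring
  · intro v hv h2
    refine hzP1 v ?_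
    rw [hP1, Finset.mem_filter]
    refine ⟨?_, h2⟩
    rw [Finset.mem_union, Finset.mem_union]
    left
    left
    exact hv
  · intro w h2 hzw
    obtain ⟨v, hv⟩ := s2_under w
    have hzv : Algebra.intNorm O (𝓞 K) z ∈ v.asIdeal := by
      rw [hv]
      exact s2_mem_under w z hzw
    have hv2 : (2 : O) ∉ v.asIdeal := by
      intro h
      rw [hv, Ideal.under_def, Ideal.mem_comap, map_ofNat] at h
      exact h2 h
    have hvP1 : v ∉ P1 := fun h => hzP1 v h hzv
    refine hd w v hv ?_ (2 * N * a) hzw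
    intro hdv
    refine hzP2 v ?_ hzv
    rw [hP2, Finset.mem_filter]
    refine ⟨?_, hv2, hvP1⟩
    rw [Set.Finite.mem_toFinset]
    exact hdv

end H55N
end

-- from Lib.H55N.S3
section

open NumberField IsDedekindDomain

namespace H55N

open H55B H55C

theorem S3_two_dvd_cj {x : O} (h : (2 : O) ∣ cj x) : (2 : O) ∣ x := by
  obtain ⟨z, hz⟩ := h
  refine ⟨cj z, ?_⟩
  have h1 := congrArg cj hz
  rw [cj_cj, map_mul, map_ofNat] at h1
  exact h1

theorem S3_odd {x : O} (h : ¬ (2 : O) ∣ x) : Odd (Nm x) := by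
  by_contra hc
  rw [Nat.not_odd_iff_even] at hc
  obtain ⟨k, hk⟩ := hc
  have h1 : (2 : O) ∣ x * cj x := by
    rw [mul_cj, hk]
    push_cast
    exact ⟨k, by ring⟩
  rcases two_prime.dvd_or_dvd h1 with h2 | h2
  · exact h h2
  · exact h (S3_two_dvd_cj h2)

theorem S3_Unit2_e {x : O} (h : ¬ (2 : O) ∣ x) : Unit2 (e x) := fun A hA =>
  val_e_odd A hA x (S3_odd h)

theorem S3_two_not_dvd_lam : ¬ (2 : O) ∣ om - 1 := by
  intro h
  have h1 := (two_prime.irreducible.dvd_symm lam_prime.irreducible h)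
  obtain ⟨t, ht⟩ := h1
  apply lam_prime.not_isUnit
  apply isUnit_of_dvd_one
  refine ⟨-om ^ 2 * (om - 1) - t, ?_⟩
  have h3 := three_eq
  linear_combination h3 - ht

theorem S3_om_pow (n : ℕ) (hn : ¬ 3 ∣ n) : ¬ (2 : O) ∣ om ^ n - 1 := by
  have h3 : om ^ 3 = (1 : O) := Z3_om_cube
  have h1 : om ^ n = om ^ (n % 3) := by
    conv_lhs => rw [← Nat.div_add_mod n 3, pow_add, pow_mul, h3, one_pow, one_mul]
  rw [h1]
  have h2 : n % 3 = 1 ∨ n % 3 = 2 := by omega
  rcases h2 with h2 | h2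
  · rw [h2, pow_one]
    exact S3_two_not_dvd_lam
  · rw [h2]
    intro h
    apply S3_two_not_dvd_lam
    obtain ⟨t, ht⟩ := h
    refine ⟨-om * t, ?_⟩
    linear_combination (-om) * ht + h3

theorem S3_absNorm_prime (v : HeightOneSpectrum O) (h3 : (3 : O) ∉ v.asIdeal)
    (h2 : (2 : O) ∉ v.asIdeal) (hg : ¬ (2 : O) ∣ gen v - 1) : (Ideal.absNorm v.asIdeal).Prime := by
  have hp := gen_prime v h3
  have hgs := gen_spec v h3
  have hN : Ideal.absNorm v.asIdeal = Nm (gen v) := by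
    unfold Nm
    rw [← hgs.1]
  rw [hN]
  have hN1 : Nm (gen v) ≠ 1 := fun h => hp.not_isUnit (Nm_eq_one.1 h)
  have hN0 : Nm (gen v) ≠ 0 := fun h => hp.ne_zero (Nm_eq_zero.1 h)
  -- a rational prime divisible by gen v
  obtain ⟨q, hq, hqN, hgq⟩ : ∃ q : ℕ, q.Prime ∧ q ∣ Nm (gen v) ∧ gen v ∣ (q : O) := by
    have h1 : gen v ∣ ((Nm (gen v) : ℕ) : O) := ⟨cj (gen v), (mul_cj _).symm⟩
    have h4 : ∀ n : ℕ, n ≠ 0 → gen v ∣ (n : O) → ∃ q : ℕ, q.Prime ∧ q ∣ n ∧ gen v ∣ (q : O) := by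
      intro n
      induction n using Nat.strong_induction_on with
      | _ n ih =>
        intro hn0 hn
        by_cases hn1 : n = 1
        · rw [hn1, Nat.cast_one] at hn
          exact absurd (isUnit_of_dvd_one hn) hp.not_isUnit
        · have hq := Nat.minFac_prime hn1
          obtain ⟨k, hk⟩ := Nat.minFac_dvd n
          rw [hk, Nat.cast_mul] at hn
          rcases hp.dvd_or_dvd hn with h5 | h5
          · exact ⟨_, hq, Nat.minFac_dvd n, h5⟩
          · have hk0 : k ≠ 0 := by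
              rintro rfl
              rw [mul_zero] at hk
              exact hn0 hk
            have hlt : k < n := by
              have := hq.two_le
              have h6 : k < n.minFac * k := by nlinarith [Nat.pos_of_ne_zero hk0]
              rwa [← hk] at h6
            obtain ⟨q, h7, h8, h9⟩ := ih k hlt hk0 h5
            exact ⟨q, h7, h8.trans ⟨n.minFac, by rw [mul_comm]; exact hk⟩, h9⟩
    exact h4 _ hN0 h1
  obtain ⟨h, hh⟩ := hgq
  have hNq : Nm ((q : ℕ) : O) = q ^ 2 := by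
    have h1 := Nm_repr (q : ℤ) 0
    push_cast at h1
    rw [zero_mul, add_zero] at h1
    have h5 : ((Nm ((q : ℕ) : O) : ℕ) : ℤ) = ((q ^ 2 : ℕ) : ℤ) := by
      rw [h1]
      push_cast
      ring
    exact_mod_cast h5
  have hmul : Nm (gen v) * Nm h = q ^ 2 := by rw [← Nm_mul, ← hh, hNq]
  have hdvd : Nm (gen v) ∣ q ^ 2 := ⟨Nm h, hmul.symm⟩
  rcases (Nat.dvd_prime_pow hq).1 hdvd with ⟨i, hi, hi2⟩
  interval_cases i
  · rw [pow_zero] at hi2
    exact absurd hi2 hN1
  · rw [pow_one] at hi2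
    rw [hi2]
    exact hq
  · exfalso
    rw [hi2] at hmul
    have hq0 : 0 < q ^ 2 := pow_pos hq.pos 2
    have h5 : Nm h = 1 := by
      have h6 : q ^ 2 * Nm h = q ^ 2 * 1 := by rw [mul_one]; exact hmul
      exact Nat.eq_of_mul_eq_mul_left hq0 h6
    have hunit := Nm_eq_one.1 h5
    have hassoc : Associated (gen v) (q : O) := by
      obtain ⟨u, hu⟩ := hunit
      exact ⟨u, by rw [hu, hh]⟩
    have hq3 : ¬ 3 ∣ q := by
      intro h6
      have h7 : q = 3 := ((Nat.prime_dvd_prime_iff_eq Nat.prime_three hq).1 h6).symm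
      apply h3
      rw [hgs.1, Ideal.mem_span_singleton]
      rw [h7] at hh
      exact ⟨h, by rw [← hh]; norm_num⟩
    have hq2 : ¬ 2 ∣ q := by
      intro h6
      have h7 : q = 2 := ((Nat.prime_dvd_prime_iff_eq Nat.prime_two hq).1 h6).symm
      apply h2
      rw [hgs.1, Ideal.mem_span_singleton]
      rw [h7] at hh
      exact ⟨h, by rw [← hh]; norm_num⟩
    have h8 : q % 3 = 1 ∨ q % 3 = 2 := by omega
    rcases h8 with h8 | h8
    · have hpr : Prim (q : O) := by
        refine ⟨((q / 3 : ℕ) : O), ?_⟩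
        have h9 : q = 3 * (q / 3) + 1 := by omega
        have h10 : ((q : ℕ) : O) = ((3 * (q / 3) + 1 : ℕ) : O) := by rw [← h9]
        rw [h10]
        push_cast
        ring
      have h11 := hgs.2.eq_of_associated hpr hassoc
      apply hg
      rw [h11]
      refine ⟨((q / 2 : ℕ) : O), ?_⟩
      have h9 : q = 2 * (q / 2) + 1 := by omega
      have h10 : ((q : ℕ) : O) = ((2 * (q / 2) + 1 : ℕ) : O) := by rw [← h9]
      rw [h10]
      push_cast
      ring
    · have hpr : Prim (-(q : O)) := by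
        refine ⟨-((q / 3 : ℕ) : O) - 1, ?_⟩
        have h9 : q = 3 * (q / 3) + 2 := by omega
        have h10 : ((q : ℕ) : O) = ((3 * (q / 3) + 2 : ℕ) : O) := by rw [← h9]
        rw [h10]
        push_cast
        ring
      have h11 := hgs.2.eq_of_associated hpr hassoc.neg_right
      apply hg
      rw [h11]
      refine ⟨-((q / 2 : ℕ) : O) - 1, ?_⟩
      have h9 : q = 2 * (q / 2) + 1 := by omega
      have h10 : ((q : ℕ) : O) = ((2 * (q / 2) + 1 : ℕ) : O) := by rw [← h9]
      rw [h10]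
      push_cast
      ring

theorem S3_prime_over {K : Type} [Field K] [NumberField K] [Algebra F K]
    (v : HeightOneSpectrum O) (I : Ideal (𝓞 K)) (hI : I ≠ 0)
    (h : Ideal.relNorm O I ≤ v.asIdeal) :
    ∃ w : HeightOneSpectrum (𝓞 K), I ≤ w.asIdeal ∧ v.asIdeal = w.asIdeal.under O := by
  induction I using UniqueFactorizationMonoid.induction_on_prime with
  | h₁ => exact absurd rfl hI
  | h₂ x hx =>
    rw [Ideal.isUnit_iff] at hx
    rw [hx, ← Ideal.one_eq_top, map_one, Ideal.one_eq_top, top_le_iff] at h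
    exact absurd h v.isPrime.ne_top
  | h₃ x p hx hp ih =>
    rw [map_mul] at h
    rcases v.isPrime.mul_le.1 h with h1 | h1
    · let w : HeightOneSpectrum (𝓞 K) := ⟨p, Ideal.isPrime_of_prime hp, hp.ne_zero⟩
      obtain ⟨v', hv'⟩ := H1_below w
      refine ⟨w, Ideal.mul_le_left, ?_⟩
      · have : w.asIdeal.LiesOver v'.asIdeal := ⟨hv'⟩
        have := w.isMaximal
        have := v'.isMaximal
        have h2 : Ideal.relNorm O w.asIdeal = v'.asIdeal ^ w.asIdeal.inertiaDeg O :=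
          Ideal.relNorm_eq_pow_of_isMaximal w.asIdeal v'.asIdeal
        have h3 : v'.asIdeal ^ w.asIdeal.inertiaDeg O ≤ v.asIdeal := by rw [← h2]; exact h1
        have h4 := v.isPrime.le_of_pow_le h3
        have h5 := v'.isMaximal.eq_of_le v.isPrime.ne_top h4
        rw [← hv', h5]
    · obtain ⟨w, hw, hw2⟩ := ih hx h1
      exact ⟨w, (Ideal.mul_le_right).trans hw, hw2⟩

theorem S3_intNorm_algebraMap (K : Type) [Field K] [NumberField K] [Algebra F K] (x : O) :
    Algebra.intNorm O (𝓞 K) (algebraMap O (𝓞 K) x) = x ^ Module.finrank F K := by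
  apply RingOfIntegers.coe_injective
  rw [Algebra.algebraMap_intNorm (A := O) (K := F) (L := K) (B := 𝓞 K), map_pow]
  exact Algebra.norm_algebraMap (algebraMap O F x)

/-- Chunk S3 (M), smoothing primes. z from exists_elt, y = intNorm z. y = 1 mod 3 (norm_congr with m = 3), so y is primary. y = om^n mod 2,
n = finrank (norm_congr with m = 2; intNorm (algebraMap om) = om^n), and 2 does not divide om^n - 1 because 3 does not divide n. By
H55B.X1_ind there is v with 3 not in v, y in v and 2 not dividing gen v - 1 (so 2 is not a cube modulo v: the other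
direction is in H55B.X1, where a cube gives gen v = 1 mod 2; hence Good v). 2 is not in v (otherwise v = (2), y in (2), but
y = om^n mod 2 is a unit mod 2). v is not in P. There is a prime w of K containing z with w over v: relNorm (span z) = span y <= v; if all prime
factors w of span z were over other primes, relNorm (span z), a product of powers of those, would not be contained in v
(relNorm_eq_pow_of_isMaximal, or exists_relNorm_eq_pow_of_isPrime). inertiaDeg w = 1, so absNorm w = absNorm v (absNorm_inertia) and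
Psi w = psiF v = conj(e(gen v)). absNorm v is prime: otherwise v = (q) for a rational prime q (v contains a rational prime q,
absNorm v is q or q^2 as it divides q^2 = absNorm (q); in the second case v = (q)), gen v is associated to q, and gen v = q or -q (the one which is
1 mod 3: Prim.eq_of_associated), q odd, so 2 divides gen v - 1, a contradiction. Units: Nm (1 - gen v) and Nm (1 + gen v) are odd
(2 is a prime of O; 2 | Nm x implies 2 | x), val_e_odd (H55B.D0), Unit2.conj. -/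
theorem exists_smoothing (K : Type) [Field K] [NumberField K] [Algebra F K]
    (hn : ¬ 3 ∣ Module.finrank F K) (P : Finset (HeightOneSpectrum O)) :
    ∃ w : HeightOneSpectrum (𝓞 K), (∀ v ∈ P, v.asIdeal ≠ w.asIdeal.under O) ∧
      (∀ v : HeightOneSpectrum O, v.asIdeal = w.asIdeal.under O → H55C.Good v) ∧
      (Ideal.absNorm w.asIdeal).Prime ∧
      Unit2 (1 - Psi K w.asIdeal) ∧ Unit2 (1 + Psi K w.asIdeal) := by
  obtain ⟨z, hz2, hz3, hzP, hzd⟩ := exists_elt K P
  set y := Algebra.intNorm O (𝓞 K) z with hy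
  have hy3 : Prim y := by
    have h1 : z - 1 ∈ Ideal.span {algebraMap O (𝓞 K) 3} := by
      rw [map_ofNat]; exact hz3
    have h2 := norm_congr 3 z 1 h1
    rw [map_one] at h2
    exact h2
  have hy2 : (2 : O) ∣ y - om ^ Module.finrank F K := by
    have h1 : z - algebraMap O (𝓞 K) om ∈ Ideal.span {algebraMap O (𝓞 K) 2} := by
      rw [map_ofNat]; exact hz2
    have h2 := norm_congr 2 z _ h1
    rw [S3_intNorm_algebraMap] at h2
    exact h2
  have hy1 : ¬ (2 : O) ∣ y - 1 := by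
    intro h
    apply S3_om_pow _ hn
    have h1 := dvd_sub h hy2
    have h2 : y - 1 - (y - om ^ Module.finrank F K) = om ^ Module.finrank F K - 1 := by ring
    rwa [h2] at h1
  obtain ⟨v, h3, hyv, hg⟩ : ∃ v : HeightOneSpectrum O, (3 : O) ∉ v.asIdeal ∧ y ∈ v.asIdeal ∧
      ¬ (2 : O) ∣ gen v - 1 := by
    by_contra hcon
    push Not at hcon
    exact hy1 (X1_ind _ y rfl hy3.ne_zero hy3 hcon)
  have h2 : (2 : O) ∉ v.asIdeal := by
    intro h2
    obtain ⟨t, ht⟩ := hy2
    have h4 : om ^ Module.finrank F K ∈ v.asIdeal := by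
      have h5 : om ^ Module.finrank F K = y - 2 * t := by linear_combination -ht
      rw [h5]
      exact v.asIdeal.sub_mem hyv (v.asIdeal.mul_mem_right _ h2)
    have h6 : om ∈ v.asIdeal := v.isPrime.mem_of_pow_mem _ h4
    apply v.isPrime.ne_top
    rw [Ideal.eq_top_iff_one, ← Z3_om_cube, pow_succ]
    exact v.asIdeal.mul_mem_left _ h6
  have hz0 : Ideal.span {z} ≠ (0 : Ideal (𝓞 K)) := by
    intro h
    rw [Ideal.zero_eq_bot, Ideal.span_singleton_eq_bot] at h
    rw [h, Algebra.intNorm_zero] at hy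
    exact hy3.ne_zero hy
  obtain ⟨w, hw, hvw⟩ := S3_prime_over v (Ideal.span {z}) hz0 (by
    rw [Ideal.relNorm_singleton, Ideal.span_singleton_le_iff_mem]
    exact hyv)
  rw [Ideal.span_singleton_le_iff_mem] at hw
  have h2w : (2 : 𝓞 K) ∉ w.asIdeal := by
    intro h
    apply h2
    rw [hvw, Ideal.under_def, Ideal.mem_comap, map_ofNat]
    exact h
  have hdeg := hzd w h2w hw
  have habs : Ideal.absNorm w.asIdeal = Ideal.absNorm v.asIdeal := by
    rw [absNorm_inertia K w v hvw, hdeg, pow_one]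
  have hPsi : Psi K w.asIdeal = (starRingEnd ℂ) (e (gen v)) := by
    rw [Psi_prime w v hvw, hdeg, pow_one, psiF_prime v h3]
  refine ⟨w, ?_, ?_, ?_, ?_, ?_⟩
  · intro v' hv' h
    have hvv : v' = v := HeightOneSpectrum.ext (h.trans hvw.symm)
    rw [hvv] at hv'
    exact hzP v hv' h2 hyv
  · intro v' hv'
    have hvv : v' = v := HeightOneSpectrum.ext (hv'.trans hvw.symm)
    rw [hvv]
    exact ⟨h2, h3, fun ⟨x, hx⟩ => hg (even_norm v h3 h2 x hx)⟩
  · rw [habs]
    exact S3_absNorm_prime v h3 h2 hg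
  · rw [hPsi]
    have h4 : 1 - (starRingEnd ℂ) (e (gen v)) = (starRingEnd ℂ) (e (1 - gen v)) := by
      rw [map_sub, map_sub, map_one, map_one]
    rw [h4]
    apply Unit2.conj
    apply S3_Unit2_e
    rintro ⟨t, ht⟩
    exact hg ⟨-t, by linear_combination -ht⟩
  · rw [hPsi]
    have h4 : 1 + (starRingEnd ℂ) (e (gen v)) = (starRingEnd ℂ) (e (1 + gen v)) := by
      rw [map_add, map_add, map_one, map_one]
    rw [h4]
    apply Unit2.conj
    apply S3_Unit2_e
    rintro ⟨t, ht⟩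
    exact hg ⟨t - 1, by linear_combination ht⟩

end H55N
end

-- from Lib.H55N.WR1
section

open NumberField IsDedekindDomain

namespace H55N

open H55B H55C

/-- The exponent of a prime in an ideal. -/
noncomputable def WR1_cnt {K : Type} [Field K] [NumberField K] (p : HeightOneSpectrum (𝓞 K))
    (I : Ideal (𝓞 K)) : ℕ := (Associates.mk p.asIdeal).count (Associates.mk I).factors

section

variable {K : Type} [Field K] [NumberField K]

theorem WR1_cnt_mul (p : HeightOneSpectrum (𝓞 K)) {I J : Ideal (𝓞 K)} (hI : I ≠ ⊥) (hJ : J ≠ ⊥) :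
    WR1_cnt p (I * J) = WR1_cnt p I + WR1_cnt p J := by
  unfold WR1_cnt
  rw [← Associates.mk_mul_mk]
  exact Associates.count_mul (Associates.mk_ne_zero.2 hI) (Associates.mk_ne_zero.2 hJ)
    p.associates_irreducible

theorem WR1_cnt_self (p : HeightOneSpectrum (𝓞 K)) : WR1_cnt p p.asIdeal = 1 :=
  Associates.count_self p.associates_irreducible

theorem WR1_cnt_ne (p q : HeightOneSpectrum (𝓞 K)) (h : p ≠ q) : WR1_cnt p q.asIdeal = 0 := by
  refine Associates.count_eq_zero_of_ne p.associates_irreducible q.associates_irreducible fun h2 => ?_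
  exact h (HeightOneSpectrum.ext (associated_iff_eq.1 (Associates.mk_eq_mk_iff_associated.1 h2)))

theorem WR1_val (p : HeightOneSpectrum (𝓞 K)) {x : 𝓞 K} (hx : x ≠ 0) :
    p.valuation K (x : K) = WithZero.exp (-(WR1_cnt p (Ideal.span {x}) : ℤ)) := by
  have h := p.valuation_of_algebraMap (K := K) x
  rw [p.intValuation_if_neg hx] at h
  exact h

theorem WR1_fin [Algebra F K] (hT : TwoExt K) (B : ℕ) (P : Finset (HeightOneSpectrum O)) :
    ∃ w : HeightOneSpectrum (𝓞 K), (∀ v ∈ P, v.asIdeal ≠ w.asIdeal.under O) ∧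
      (∀ v : HeightOneSpectrum O, v.asIdeal = w.asIdeal.under O → H55C.Good v) ∧
      w.asIdeal.inertiaDeg O = 1 ∧ w.asIdeal.ramificationIdx O = 1 ∧
      B < Ideal.absNorm w.asIdeal := by
  classical
  have h3 : ¬ 3 ∣ Module.finrank F K := by
    obtain ⟨k, hk⟩ := hT.2
    rw [hk]
    intro h
    have := Nat.prime_three.dvd_of_dvd_pow h
    norm_num at this
  have hd0 : Ideal.span {((discr K : ℤ) : O)} ≠ 0 := by
    rw [Ne, Ideal.zero_eq_bot, Ideal.span_singleton_eq_bot]
    exact_mod_cast discr_ne_zero K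
  have hS1 : {v : HeightOneSpectrum O | v.asIdeal ∣ Ideal.span {((discr K : ℤ) : O)}}.Finite :=
    Ideal.finite_factors hd0
  have hS2 : {v : HeightOneSpectrum O | Ideal.absNorm v.asIdeal ≤ B}.Finite := by
    refine Set.Finite.preimage (f := HeightOneSpectrum.asIdeal)
      (fun v _ v' _ h => HeightOneSpectrum.ext h) (Ideal.finite_setOf_absNorm_le B)
  obtain ⟨w, hw1, hw2, hw3, -, -⟩ := exists_smoothing K h3 (P ∪ (hS1.toFinset ∪ hS2.toFinset))
  have hwm := w.isMaximal
  let v : HeightOneSpectrum O := HeightOneSpectrum.under O w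
  have hv : v.asIdeal = w.asIdeal.under O := rfl
  have hnorm := absNorm_inertia K w v hv
  have hf : w.asIdeal.inertiaDeg O = 1 := by
    rw [hnorm] at hw3
    exact hw3.eq_one_of_pow
  rw [hf, pow_one] at hnorm
  refine ⟨w, fun v' hv' => hw1 v' (Finset.mem_union_left _ hv'), hw2, hf, ?_, ?_⟩
  · have h4 : ¬ ((Ideal.absNorm w.asIdeal : ℕ) : ℤ) ∣ discr K := by
      intro h
      apply hw1 v _ hv
      apply Finset.mem_union_right
      apply Finset.mem_union_left
      rw [Set.Finite.mem_toFinset]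
      show v.asIdeal ∣ _
      rw [Ideal.dvd_span_singleton]
      obtain ⟨c, hc⟩ := h
      rw [hc, Int.cast_mul, Int.cast_natCast, hnorm]
      exact v.asIdeal.mul_mem_right _ (Ideal.absNorm_mem _)
    have h5 := (NumberField.not_dvd_discr_iff_forall_mem K (𝓞 K)
      (Nat.prime_iff_prime_int.1 hw3)).1 h4 w.asIdeal w.isPrime (by
        rw [Int.cast_natCast]
        exact Ideal.absNorm_mem _)
    have h6 : w.asIdeal.ramificationIdx ℤ = 1 := by
      have := w.isPrime
      exact Ideal.ramificationIdx_eq_one_iff.2 h5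
    have ht := Ideal.ramificationIdx_tower (R := ℤ) (w.asIdeal.under O) w.asIdeal
    rw [h6] at ht
    exact Nat.eq_one_of_mul_eq_one_left ht.symm
  · by_contra h
    apply hw1 v _ hv
    apply Finset.mem_union_right
    apply Finset.mem_union_right
    rw [Set.Finite.mem_toFinset]
    show Ideal.absNorm v.asIdeal ≤ B
    rw [← hnorm]
    omega

end

/-- Chunk WR1 (M), pigeonhole. Let P be the finite set of the primes v of O with absNorm v <= B or ramified in K (finitely many: the primes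
below the divisors of the different ideal, or the primes dividing a discriminant). exists_smoothing gives, for every finite set
containing P, a prime w over v not in the set, v good, absNorm w prime, so inertiaDeg w = 1 (absNorm w = (absNorm v)^f,
absNorm_inertia) and w is unramified over O. So there is an infinite family of such w over pairwise different v. For each of them take an
ideal J (depending only on the class of w; fixed representatives of the inverse class prime to 2) with w J = (x_w), x_w prime to 2. By the pigeonhole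
principle (class group times 𝓞 K/(4) is finite) there are w, w' over different primes with the same J and x_w = x_w' mod 4. Choose y with y x_w = 1 mod 4
(x_w is a unit modulo 4), a = y x_w', a' = y x_w; both are 1 mod 4 and (a) w = (a') w' (cancel J). beta = a a': from (a) w = (a') w' the
valuation of a is that of a' plus [p = w'] minus [p = w], so that of beta is even unless p = w or p = w'. -/
theorem exists_beta (K : Type) [Field K] [NumberField K] [Algebra F K] (hT : TwoExt K) (B : ℕ) :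
    ∃ (β : 𝓞 K) (w w' : HeightOneSpectrum (𝓞 K)), Beta K β w w' ∧
      B < Ideal.absNorm w.asIdeal ∧ B < Ideal.absNorm w'.asIdeal := by
  classical
  set V : Set (HeightOneSpectrum O) := {v | ∃ w : HeightOneSpectrum (𝓞 K),
    v.asIdeal = w.asIdeal.under O ∧
      (∀ v : HeightOneSpectrum O, v.asIdeal = w.asIdeal.under O → H55C.Good v) ∧
      w.asIdeal.inertiaDeg O = 1 ∧ w.asIdeal.ramificationIdx O = 1 ∧
      B < Ideal.absNorm w.asIdeal} with hV
  have hVinf : V.Infinite := by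
    intro hfin
    obtain ⟨w, hw1, hw2⟩ := WR1_fin hT B hfin.toFinset
    apply hw1 (HeightOneSpectrum.under O w) _ rfl
    rw [Set.Finite.mem_toFinset]
    exact ⟨w, rfl, hw2⟩
  haveI : Infinite V := hVinf.to_subtype
  choose W hW1 hW2 using fun v : V => v.2
  have h20 : (Ideal.span {(2 : 𝓞 K)}) ≠ ⊥ := by
    rw [Ne, Ideal.span_singleton_eq_bot]
    exact two_ne_zero
  choose b hb hcop hcl using exists_rep (K := K) (Ideal.span {2}) h20
  let κ : V → ClassGroup (𝓞 K) := fun v =>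
    (ClassGroup.mk0 ⟨(W v).asIdeal, mem_nonZeroDivisors_iff_ne_zero.2 (W v).ne_bot⟩)⁻¹
  have hprin : ∀ v : V, ∃ x : 𝓞 K, (W v).asIdeal * b (κ v) = Ideal.span {x} := by
    intro v
    have h1 : ClassGroup.mk0 (⟨(W v).asIdeal, mem_nonZeroDivisors_iff_ne_zero.2 (W v).ne_bot⟩ *
        ⟨b (κ v), mem_nonZeroDivisors_iff_ne_zero.2 (hb (κ v))⟩) = 1 := by
      rw [map_mul, hcl]
      exact mul_inv_cancel _
    have h2 := (ClassGroup.mk0_eq_one_iff _).1 h1
    obtain ⟨x, hx⟩ := h2.principal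
    exact ⟨x, hx⟩
  choose x hx using hprin
  have hxcop : ∀ v : V, IsCoprime (x v) 4 := by
    intro v
    have h1 : IsCoprime (W v).asIdeal (Ideal.span {(2 : 𝓞 K)}) := by
      have hm := (W v).isMaximal
      have h2 : (2 : 𝓞 K) ∉ (W v).asIdeal := by
        intro h
        apply ((hW2 v).1 _ (hW1 v)).1
        rw [hW1 v]
        show algebraMap O (𝓞 K) 2 ∈ (W v).asIdeal
        rw [map_ofNat]
        exact h
      obtain ⟨y, i, hi, hyi⟩ := hm.exists_inv h2
      rw [Ideal.isCoprime_iff_exists]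
      exact ⟨i, hi, y * 2, Ideal.mul_mem_left _ y (Ideal.mem_span_singleton_self (2 : 𝓞 K)), by
        rw [add_comm]; exact hyi⟩
    have h2 := IsCoprime.mul_left h1 (hcop (κ v))
    rw [hx, Ideal.isCoprime_span_singleton_iff] at h2
    have h3 := h2.pow_right (n := 2)
    have h4 : (2 : 𝓞 K) ^ 2 = 4 := by norm_num
    rwa [h4] at h3
  have h40 : Ideal.span {(4 : 𝓞 K)} ≠ ⊥ := by
    rw [Ne, Ideal.span_singleton_eq_bot]
    intro h
    norm_num at h
  haveI : Finite (𝓞 K ⧸ Ideal.span {(4 : 𝓞 K)}) := Ideal.finiteQuotientOfFreeOfNeBot _ h40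
  haveI : Finite (ClassGroup (𝓞 K)) := inferInstance
  obtain ⟨v1, v2, hne, heq⟩ := Finite.exists_ne_map_eq_of_infinite
    (fun v : V => (κ v, Ideal.Quotient.mk (Ideal.span {(4 : 𝓞 K)}) (x v)))
  obtain ⟨hκ, hmk⟩ := Prod.ext_iff.1 heq
  simp only at hκ hmk
  rw [Ideal.Quotient.eq, Ideal.mem_span_singleton] at hmk
  obtain ⟨t, ht⟩ := hmk
  obtain ⟨y, z, hyz⟩ := hxcop v1
  have hyz2 := hyz
  have hy0 : y ≠ 0 := by
    rintro rfl
    rw [zero_mul, zero_add] at hyz
    have h1 : IsUnit (4 : 𝓞 K) := IsUnit.of_mul_eq_one z (by rw [mul_comm]; exact hyz)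
    have h2 : (2 : 𝓞 K) ^ 2 = 4 := by norm_num
    rw [← h2] at h1
    have h3 := (isUnit_pow_iff two_ne_zero).1 h1
    have h6 := (isUnit_iff_norm (x := (2 : 𝓞 K))).1 h3
    have h7 : Algebra.norm ℚ ((2 : 𝓞 K) : K) = 2 ^ Module.finrank ℚ K := by
      have h8 : ((2 : 𝓞 K) : K) = algebraMap ℚ K 2 := by
        rw [map_ofNat]
        rfl
      rw [h8, Algebra.norm_algebraMap]
    rw [RingOfIntegers.coe_norm, h7] at h6
    have h9 : Module.finrank ℚ K ≠ 0 := (Module.finrank_pos (R := ℚ) (M := K)).ne'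
    have h10 : (1 : ℚ) < 2 ^ Module.finrank ℚ K := one_lt_pow₀ (by norm_num) h9
    rw [abs_of_pos (by positivity)] at h6
    linarith
  have hx0 : ∀ v, x v ≠ 0 := by
    intro v h
    have h1 := hx v
    rw [h] at h1
    have h2 : (W v).asIdeal * b (κ v) = ⊥ := by rw [h1]; simp
    rcases Ideal.mul_eq_bot.1 h2 with h3 | h3
    · exact (W v).ne_bot h3
    · exact hb _ h3
  have hcx : ∀ (p : HeightOneSpectrum (𝓞 K)) (v : V), WR1_cnt p (Ideal.span {x v}) =
      WR1_cnt p (W v).asIdeal + WR1_cnt p (b (κ v)) := by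
    intro p v
    rw [← hx, WR1_cnt_mul p (W v).ne_bot (hb _)]
  have hβ0 : (y * x v2) * (y * x v1) ≠ 0 :=
    mul_ne_zero (mul_ne_zero hy0 (hx0 _)) (mul_ne_zero hy0 (hx0 _))
  have hcβ : ∀ p : HeightOneSpectrum (𝓞 K), WR1_cnt p (Ideal.span {(y * x v2) * (y * x v1)}) =
      2 * (WR1_cnt p (Ideal.span {y}) + WR1_cnt p (b (κ v1))) +
        (WR1_cnt p (W v1).asIdeal + WR1_cnt p (W v2).asIdeal) := by
    intro p
    have hs : ∀ {a : 𝓞 K}, a ≠ 0 → Ideal.span {a} ≠ ⊥ := fun ha => by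
      rw [Ne, Ideal.span_singleton_eq_bot]
      exact ha
    rw [← Ideal.span_singleton_mul_span_singleton, ← Ideal.span_singleton_mul_span_singleton,
      ← Ideal.span_singleton_mul_span_singleton,
      WR1_cnt_mul p (mul_ne_zero (hs hy0) (hs (hx0 _))) (mul_ne_zero (hs hy0) (hs (hx0 _))),
      WR1_cnt_mul p (hs hy0) (hs (hx0 _)), WR1_cnt_mul p (hs hy0) (hs (hx0 _)), hcx, hcx, ← hκ]
    ring
  have hWne : W v1 ≠ W v2 := by
    intro h
    apply hne
    apply Subtype.ext
    apply HeightOneSpectrum.ext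
    rw [hW1 v1, hW1 v2, h]
  refine ⟨(y * x v2) * (y * x v1), W v1, W v2, ?_, (hW2 v1).2.2.2, (hW2 v2).2.2.2⟩
  refine ⟨?_, ?_, ?_, ?_, (hW2 v1).2.1, (hW2 v1).2.2.1, (hW2 v1).1, (hW2 v2).1⟩
  · refine ⟨-z - y * t - z + 4 * (z + y * t) * z, ?_⟩
    have e1 : y * x v1 = 1 - 4 * z := by linear_combination hyz2
    have e2 : y * x v2 = 1 - 4 * (z + y * t) := by
      linear_combination hyz2 - y * ht
    rw [e1, e2]
    ring
  · refine ⟨-(WR1_cnt (W v1) (Ideal.span {y}) + WR1_cnt (W v1) (b (κ v1)) : ℕ) - 1, ?_⟩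
    rw [WR1_val _ hβ0, hcβ, WR1_cnt_self, WR1_cnt_ne _ _ hWne]
    congr 1
    push_cast
    ring
  · intro p h1 h2
    refine ⟨-(WR1_cnt p (Ideal.span {y}) + WR1_cnt p (b (κ v1)) : ℕ), ?_⟩
    rw [WR1_val _ hβ0, hcβ, WR1_cnt_ne _ _ h1, WR1_cnt_ne _ _ h2]
    congr 1
    push_cast
    ring
  · rw [← hW1, ← hW1]
    intro h
    exact hne (Subtype.ext (HeightOneSpectrum.ext h))

end H55N
end

-- from Lib.H28T.W6
section

open NumberField IsDedekindDomain

namespace H28T

open H28R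
open H55P H55R H55N

variable {F : Type} [Field F] [NumberField F] {G : HeightOneSpectrum (𝓞 F) → Prop}

/-! Chunk W6 (M), pigeonhole: the proof of H19T.W1 (exists_beta3), with p^2 in place of 9 and the prime p in place of 3. Infinitely many nice primes w over pairwise different primes v of F (hinf applied to the finite sets of the primes above finitely many v). J prime to p from the finitely many ideal classes
(H55N.exists_rep for the ideal span {p}), w J = (x_w), x_w prime to p; pigeonhole for the class of w and x_w modulo p^2: w, w' with the same J and x_w = x_w' mod p^2, over different v. y x_w = 1 mod p^2, a = y x_w', a' = y x_w: both are 1 mod p^2 and (a) w = (a') w', so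
ord_P a = ord_P a' + [P = w'] - [P = w]. α = a'^(p-1) a  has order p ord a' + [P = w'] - [P = w]; so take α with the roles of w and w' exchanged (at1: order 1 modulo p at w). Orders: H55R.ord, BF1_val, HB1_val; H55N.WR1_val, WR1_cnt. -/

theorem W6_ord {C : Type} [Field C] [NumberField C] (P : Pl C) (x : 𝓞 C) (y : Cˣ)
    (h : (y : C) = x) : ord P y = (WR1_cnt P (Ideal.span {x}) : ℤ) := by
  have hx : x ≠ 0 := by
    rintro rfl
    apply y.ne_zero
    rw [h]
    rfl
  have h1 := BF1_val P y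
  rw [h, WR1_val P hx] at h1
  have h2 := WithZero.exp_injective h1
  linarith

theorem exists_alp {p : ℕ} (hp : p.Prime) (C : Type) [Field C] [NumberField C] [Algebra F C] (B : ℕ)
    (hGp : ∀ v : HeightOneSpectrum (𝓞 F), G v → (p : 𝓞 F) ∉ v.asIdeal) (hinf : ∀ S : Set (Pl C), S.Finite → ∃ w : Pl C, w ∉ S ∧ Nice G p C B w) :
    ∃ (α : Cˣ) (w w' : Pl C), Alp G p C B α w w' := by
  classical
  set V : Set (HeightOneSpectrum (𝓞 F)) := {v | ∃ w : Pl C,
    v.asIdeal = w.asIdeal.under (𝓞 F) ∧ Nice G p C B w} with hV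
  have hVinf : V.Infinite := by
    intro hfin
    have hS : {w : Pl C | HeightOneSpectrum.under (𝓞 F) w ∈ V}.Finite := by
      have h1 : {w : Pl C | HeightOneSpectrum.under (𝓞 F) w ∈ V} =
          ⋃ v ∈ V, {w : Pl C | HeightOneSpectrum.under (𝓞 F) w = v} := by
        ext w
        simp
      rw [h1]
      refine Set.Finite.biUnion hfin fun v _ => ?_
      have h2 : v.asIdeal.map (algebraMap (𝓞 F) (𝓞 C)) ≠ 0 := by
        rw [Ne, Ideal.zero_eq_bot]
        exact Ideal.map_ne_bot_of_ne_bot v.ne_bot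
      refine (Ideal.finite_factors h2).subset ?_
      intro w hw
      show w.asIdeal ∣ _
      rw [Ideal.dvd_iff_le, Ideal.map_le_iff_le_comap]
      have h3 : HeightOneSpectrum.under (𝓞 F) w = v := hw
      rw [← h3]
      exact le_rfl
    obtain ⟨w, hw1, hw2⟩ := hinf _ hS
    apply hw1
    exact ⟨w, rfl, hw2⟩
  have : Infinite V := hVinf.to_subtype
  choose W hW1 hW2 using fun v : V => v.2
  have hp0 : (p : 𝓞 C) ≠ 0 := Nat.cast_ne_zero.2 hp.ne_zero
  have h30 : (Ideal.span {(p : 𝓞 C)}) ≠ ⊥ := by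
    rw [Ne, Ideal.span_singleton_eq_bot]
    exact hp0
  choose b hb hcop hcl using exists_rep (K := C) (Ideal.span {(p : 𝓞 C)}) h30
  let κ : V → ClassGroup (𝓞 C) := fun v =>
    (ClassGroup.mk0 ⟨(W v).asIdeal, mem_nonZeroDivisors_iff_ne_zero.2 (W v).ne_bot⟩)⁻¹
  have hprin : ∀ v : V, ∃ x : 𝓞 C, (W v).asIdeal * b (κ v) = Ideal.span {x} := by
    intro v
    have h1 : ClassGroup.mk0 (⟨(W v).asIdeal, mem_nonZeroDivisors_iff_ne_zero.2 (W v).ne_bot⟩ *
        ⟨b (κ v), mem_nonZeroDivisors_iff_ne_zero.2 (hb (κ v))⟩) = 1 := by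
      rw [map_mul, hcl]
      exact mul_inv_cancel _
    have h2 := (ClassGroup.mk0_eq_one_iff _).1 h1
    obtain ⟨x, hx⟩ := h2.principal
    exact ⟨x, hx⟩
  choose x hx using hprin
  have hxcop : ∀ v : V, IsCoprime (x v) ((p : 𝓞 C) ^ 2) := by
    intro v
    have h1 : IsCoprime (W v).asIdeal (Ideal.span {(p : 𝓞 C)}) := by
      have hm := (W v).isMaximal
      have h2 : (p : 𝓞 C) ∉ (W v).asIdeal := by
        intro h
        apply hGp _ ((hW2 v).good _ (hW1 v))
        rw [hW1 v]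
        show algebraMap (𝓞 F) (𝓞 C) p ∈ (W v).asIdeal
        rw [map_natCast]
        exact h
      obtain ⟨y, i, hi, hyi⟩ := hm.exists_inv h2
      rw [Ideal.isCoprime_iff_exists]
      exact ⟨i, hi, y * p, Ideal.mul_mem_left _ y (Ideal.mem_span_singleton_self (p : 𝓞 C)), by
        rw [add_comm]; exact hyi⟩
    have h2 := IsCoprime.mul_left h1 (hcop (κ v))
    rw [hx, Ideal.isCoprime_span_singleton_iff] at h2
    exact h2.pow_right (n := 2)
  have hp20 : ((p : 𝓞 C) ^ 2) ≠ 0 := pow_ne_zero 2 hp0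
  have h40 : Ideal.span {((p : 𝓞 C) ^ 2)} ≠ ⊥ := by
    rw [Ne, Ideal.span_singleton_eq_bot]
    exact hp20
  have : Finite (𝓞 C ⧸ Ideal.span {((p : 𝓞 C) ^ 2)}) := Ideal.finiteQuotientOfFreeOfNeBot _ h40
  have : Finite (ClassGroup (𝓞 C)) := inferInstance
  obtain ⟨v1, v2, hne, heq⟩ := Finite.exists_ne_map_eq_of_infinite
    (fun v : V => (κ v, Ideal.Quotient.mk (Ideal.span {((p : 𝓞 C) ^ 2)}) (x v)))
  obtain ⟨hκ, hmk⟩ := Prod.ext_iff.1 heq
  simp only at hκ hmk
  rw [Ideal.Quotient.eq, Ideal.mem_span_singleton] at hmk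
  obtain ⟨t, ht⟩ := hmk
  obtain ⟨y, z, hyz⟩ := hxcop v1
  have hy0 : y ≠ 0 := by
    rintro rfl
    rw [zero_mul, zero_add] at hyz
    have h1 : IsUnit ((p : 𝓞 C) ^ 2) := IsUnit.of_mul_eq_one z (by rw [mul_comm]; exact hyz)
    have h3 := (isUnit_pow_iff two_ne_zero).1 h1
    have h6 := (isUnit_iff_norm (x := (p : 𝓞 C))).1 h3
    have h7 : Algebra.norm ℚ ((p : 𝓞 C) : C) = p ^ Module.finrank ℚ C := by
      have h8 : ((p : 𝓞 C) : C) = algebraMap ℚ C p := by
        rw [map_natCast]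
        rfl
      rw [h8, Algebra.norm_algebraMap]
    rw [RingOfIntegers.coe_norm, h7] at h6
    have h9 : Module.finrank ℚ C ≠ 0 := (Module.finrank_pos (R := ℚ) (M := C)).ne'
    have h11 : (1 : ℚ) < p := by exact_mod_cast hp.one_lt
    have h10 : (1 : ℚ) < (p : ℚ) ^ Module.finrank ℚ C := one_lt_pow₀ h11 h9
    rw [abs_of_pos (by positivity)] at h6
    linarith
  have hx0 : ∀ v, x v ≠ 0 := by
    intro v h
    have h1 := hx v
    rw [h] at h1
    have h2 : (W v).asIdeal * b (κ v) = ⊥ := by rw [h1]; simp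
    rcases Ideal.mul_eq_bot.1 h2 with h3 | h3
    · exact (W v).ne_bot h3
    · exact hb _ h3
  have hcx : ∀ (P : Pl C) (v : V), WR1_cnt P (Ideal.span {x v}) =
      WR1_cnt P (W v).asIdeal + WR1_cnt P (b (κ v)) := by
    intro P v
    rw [← hx, WR1_cnt_mul P (W v).ne_bot (hb _)]
  have hs : ∀ {a : 𝓞 C}, a ≠ 0 → Ideal.span {a} ≠ ⊥ := fun ha => by
    rw [Ne, Ideal.span_singleton_eq_bot]
    exact ha
  have e1 : ∀ (P : Pl C) v, WR1_cnt P (Ideal.span {y * x v}) =
      WR1_cnt P (Ideal.span {y}) + (WR1_cnt P (W v).asIdeal + WR1_cnt P (b (κ v))) := by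
    intro P v
    rw [← Ideal.span_singleton_mul_span_singleton, WR1_cnt_mul P (hs hy0) (hs (hx0 _)), hcx]
  -- the two elements
  have hu : ∀ v, ((y * x v : 𝓞 C) : C) ≠ 0 := by
    intro v h
    exact mul_ne_zero hy0 (hx0 v) (RingOfIntegers.ext h)
  let a1 : Cˣ := Units.mk0 _ (hu v1)
  let a2 : Cˣ := Units.mk0 _ (hu v2)
  have ho1 : ∀ P, ord P a1 = (WR1_cnt P (Ideal.span {y * x v1}) : ℤ) := fun P =>
    W6_ord P _ _ rfl
  have ho2 : ∀ P, ord P a2 = (WR1_cnt P (Ideal.span {y * x v2}) : ℤ) := fun P =>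
    W6_ord P _ _ rfl
  have hpow : ∀ (P : Pl C) (u : Cˣ) (n : ℕ), ord P (u ^ n) = n * ord P u := by
    intro P u n
    rw [← zpow_natCast, ord_zpow]
  have hWne : W v1 ≠ W v2 := by
    intro h
    apply hne
    apply Subtype.ext
    apply HeightOneSpectrum.ext
    rw [hW1 v1, hW1 v2, h]
  have hp1 : ((p - 1 : ℕ) : ℤ) = (p : ℤ) - 1 := by
    rw [Nat.cast_sub hp.one_lt.le, Nat.cast_one]
  have hord : ∀ P, ord P (a1 * a2 ^ (p - 1)) =
      (p : ℤ) * ((WR1_cnt P (Ideal.span {y}) : ℤ) + (WR1_cnt P (W v2).asIdeal : ℤ) +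
        (WR1_cnt P (b (κ v1)) : ℤ)) +
        ((WR1_cnt P (W v1).asIdeal : ℤ) - (WR1_cnt P (W v2).asIdeal : ℤ)) := by
    intro P
    rw [ord_mul, hpow, ho1, ho2, e1, e1, ← hκ, hp1]
    push_cast
    ring
  refine ⟨a1 * a2 ^ (p - 1), W v1, W v2, ?_, ?_, ?_, ?_, ?_, hW2 v1, hW2 v2⟩
  · refine ⟨(y * x v1) * (y * x v2) ^ (p - 1), ?_, ?_⟩
    · rw [Units.val_mul, Units.val_pow_eq_pow_val]
      exact (map_mul (algebraMap (𝓞 C) C) _ _).trans
        (congrArg _ (map_pow (algebraMap (𝓞 C) C) _ _))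
    · have f1 : (p : 𝓞 C) ^ 2 ∣ y * x v1 - 1 := ⟨-z, by linear_combination hyz⟩
      have f2 : (p : 𝓞 C) ^ 2 ∣ y * x v2 - 1 := ⟨-(z + y * t), by
        linear_combination hyz - y * ht⟩
      have f3 : (p : 𝓞 C) ^ 2 ∣ (y * x v2) ^ (p - 1) - 1 := by
        refine dvd_trans f2 ?_
        have := sub_dvd_pow_sub_pow (y * x v2) 1 (p - 1)
        rwa [one_pow] at this
      have f4 : (y * x v1) * (y * x v2) ^ (p - 1) - 1 =
          (y * x v1) * ((y * x v2) ^ (p - 1) - 1) + (y * x v1 - 1) := by ring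
      rw [f4]
      exact dvd_add (dvd_mul_of_dvd_right f3 _) f1
  · rw [hord, WR1_cnt_self, WR1_cnt_ne _ _ hWne,
      show ∀ A : ℤ, A + (((1 : ℕ) : ℤ) - ((0 : ℕ) : ℤ)) - 1 = A from fun A => by push_cast; ring]
    exact dvd_mul_right _ _
  · rw [hord, WR1_cnt_self, WR1_cnt_ne _ _ hWne.symm,
      show ∀ A : ℤ, A + (((0 : ℕ) : ℤ) - ((1 : ℕ) : ℤ)) + 1 = A from fun A => by push_cast; ring]
    exact dvd_mul_right _ _
  · intro P h1 h2
    rw [hord, WR1_cnt_ne _ _ h1, WR1_cnt_ne _ _ h2,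
      show ∀ A : ℤ, A + (((0 : ℕ) : ℤ) - ((0 : ℕ) : ℤ)) = A from fun A => by push_cast; ring]
    exact dvd_mul_right _ _
  · rw [← hW1, ← hW1]
    intro h
    exact hne (Subtype.ext (HeightOneSpectrum.ext h))

end H28T
end
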