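import Mathlib
import Pool.Agent.Lib.H1M.PP.D_H13D_MD
import Pool.Agent.Lib.H1M.PP.D_H28T_CD
import Pool.Agent.Lib.H1M.PP.D_H55K_RD
import Pool.Agent.Lib.H1M.PP.D_H55P_Stm
import Pool.Agent.Lib.H1M.PP.M001
import Pool.Agent.Lib.H1M.PP.M004
import Pool.Agent.Lib.H1M.PP.M007
import Pool.Agent.Lib.H1M.PP.M018
import Pool.Agent.Lib.H1M.PP.M020
import Pool.Agent.Lib.H1M.PP.M021
import Pool.Agent.Lib.H1M.PP.M026
import Pool.Agent.Lib.H1M.PP.M036
import Pool.Agent.Lib.H1M.PP.M037
import Pool.Agent.Lib.H1M.PP.M042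
import Pool.Agent.Lib.H1M.PP.M044
import Pool.Agent.Lib.H1M.PP.M048
import Pool.Agent.Lib.H1M.PP.M054

/-! Merged copies (to shorten the build) of Lib.H35T.A18, Lib.H13E.S4, Lib.H13E.S5, Lib.H13N.G1, Lib.H13N.G2, Lib.H13N.G3, Lib.H28T.AR1, Lib.H13R.N1, Lib.H13R.N2, Lib.H28I.N0, Lib.H55K.FC1, Lib.H28T.AQ3A, Lib.H28T.AQ3, Lib.H28T.CC1B, Lib.H28T.CC2. -/

-- from Lib.H35T.A18
section

open NumberField IsDedekindDomain

namespace H35T

open H55B

/-! Chunk A18 (L): Selmer elements satisfy Cond. Compare H55C.A18 (sel_cond). m in Sel K, m' = phi m. ne: m is a unit. norm: Algebra.norm K m =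
m' T m' (norm of a + b T is a^2 + b^2; both sides; or Galois of degree 2). Let P be a prime of N, w the prime below, iota_P : K_w -> N_P and
e from H55C.exists_iota. LocIm at w: x, y in K_w, y^2 = x^3 - 1, x nonzero and b in Qd K_w with m (y - T) = b^3. Apply the ring homomorphism
Qd K_w -> N_P (iota_P on K_w, root -> image of iota: AdjoinRoot.lift): m' (iota_P y - i) = b'^3 in N_P. Now apply loc1, loc2, loc3
to K_w, N_P with the algebra structure iota_P and v = Valued.v (r = image of om): K_w has v(z) < 1 -> v(z) <= exp(-1) = v(2) (val_two) above 2,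
v(om - 1) = exp(-1) (val_lam) above 3, and res3 raised to the power e. val: v(m') = v(b')^3 / v(iota_P y - i); above 3 this also
follows from the congruence. three: iota_P y - i = b''^3 (1 + small), so m' = (b'/b'')^3 (1 + small)^(-1); approximate b'/b'' by an element of
N (H55C.exists_approx, relative error <= v(3)): (c (1 + d))^3 = c^3 (1 + small) with v(d) <= v(3). H55C.valued_alg. -/

variable {K M N : Type} [Field K] [NumberField K] [Algebra F K] [Field M] [NumberField M]
  [Algebra F M] [Field N] [NumberField N] [Algebra K N] [Algebra M N] {ι : M} {τ : M ≃+* M}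
  {T : N ≃+* N} {act : (K ≃ₐ[F] K) → (N ≃+* N)}

open H55C in
theorem A18_val_of_three {N' : Type} [Field N'] (v : Valuation N' (WithZero (Multiplicative ℤ)))
    {m b : N'} (h3 : v 3 < 1) (hb : b ≠ 0) (h : v (m / b ^ 3 - 1) ≤ v 3) :
    ∃ k : ℤ, v m = WithZero.exp (3 * k) := by
  have h2 := A18_v_one v h3 h
  have hvb : v b ≠ 0 := (Valuation.ne_zero_iff v).2 hb
  rw [map_div₀, map_pow, div_eq_one_iff_eq (pow_ne_zero 3 hvb)] at h2
  refine ⟨WithZero.log (v b), ?_⟩
  have e3 : 3 * WithZero.log (v b) = WithZero.log (v b) + WithZero.log (v b) +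
      WithZero.log (v b) := by ring
  rw [h2, e3, WithZero.exp_add, WithZero.exp_add, WithZero.exp_log hvb, pow_succ, pow_two]

open H55C in
theorem A18_val_of_mul {N' : Type} [Field N'] (v : Valuation N' (WithZero (Multiplicative ℤ)))
    {m g β : N'} (hm : m ≠ 0) (hg : g ≠ 0) (h : m * g = β ^ 3)
    (hk : ∃ k : ℤ, v g = WithZero.exp (3 * k)) : ∃ k : ℤ, v m = WithZero.exp (3 * k) := by
  obtain ⟨k, hk⟩ := hk
  have hβ : β ≠ 0 := by
    rintro rfl
    rw [zero_pow three_ne_zero] at h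
    exact mul_ne_zero hm hg h
  obtain ⟨j, hj⟩ := A18_exp v hβ
  obtain ⟨i, hi⟩ := A18_exp v hm
  have h1 := congrArg v h
  have e3 : β ^ 3 = β * β * β := by ring
  rw [e3, map_mul, map_mul, map_mul, hk, hj, hi, ← WithZero.exp_add, ← WithZero.exp_add,
    ← WithZero.exp_add, WithZero.exp_inj] at h1
  refine ⟨j - k, ?_⟩
  rw [hi]
  congr 1
  omega

theorem A18_root (K : Type) [Field K] :
    (AdjoinRoot.root (Polynomial.X ^ 2 + Polynomial.C 1 : Polynomial K)) ^ 2 = -1 := by
  have h := AdjoinRoot.eval₂_root (Polynomial.X ^ 2 + Polynomial.C 1 : Polynomial K)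
  rw [Polynomial.eval₂_add, Polynomial.eval₂_pow, Polynomial.eval₂_X, Polynomial.eval₂_C,
    map_one] at h
  exact eq_neg_of_add_eq_zero_left h

/-- the norm of an element of the quadratic algebra -/
theorem A18_norm (K : Type) [Field K] (a b : K) :
    Algebra.norm K (AdjoinRoot.of _ a + AdjoinRoot.of _ b * AdjoinRoot.root _ : Qd K) =
      a ^ 2 + b ^ 2 := by
  have hf : (Polynomial.X ^ 2 + Polynomial.C 1 : Polynomial K).Monic :=
    Polynomial.monic_X_pow_add_C 1 two_ne_zero
  have hd : (AdjoinRoot.powerBasis' hf).dim = 2 := by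
    rw [AdjoinRoot.powerBasis'_dim, Polynomial.natDegree_X_pow_add_C]
  set B : Module.Basis (Fin 2) K (Qd K) := (AdjoinRoot.powerBasis' hf).basis.reindex (finCongr hd)
    with hB
  have hBi : ∀ i : Fin 2, B i = AdjoinRoot.root _ ^ (i : ℕ) := by
    intro i
    rw [hB, Module.Basis.reindex_apply, PowerBasis.basis_eq_pow, AdjoinRoot.powerBasis'_gen]
    rfl
  have hroot := A18_root K
  set m : Qd K := AdjoinRoot.of _ a + AdjoinRoot.of _ b * AdjoinRoot.root _ with hm
  set D : Matrix (Fin 2) (Fin 2) K := !![a, -b; b, a] with hD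
  have hM : Algebra.leftMulMatrix B m = D := by
    ext i j
    rw [Algebra.leftMulMatrix_eq_repr_mul]
    have h1 : m * B j = ∑ i, D i j • B i := by
      rw [Fin.sum_univ_two, hBi, hBi, hBi]
      simp only [Algebra.smul_def, AdjoinRoot.algebraMap_eq]
      fin_cases j
      · simp [hD, hm]
      · simp [hD, hm]
        linear_combination (AdjoinRoot.of _ b) * hroot
    rw [h1]
    exact congrFun (B.repr_sum_self (fun i => D i j)) i
  rw [Algebra.norm_eq_matrix_det B, hM, Matrix.det_fin_two]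
  simp [hD]
  ring

theorem A18_sq (C : Comp K M N ι τ T act) : algebraMap M N ι ^ 2 = -1 := by
  rw [← map_pow, C.sq, map_neg, map_one]

theorem A18_norm_T (C : Comp K M N ι τ T act) (a b : K) :
    (algebraMap K N a + algebraMap K N b * algebraMap M N ι) *
    T (algebraMap K N a + algebraMap K N b * algebraMap M N ι) =
    algebraMap K N (a ^ 2 + b ^ 2) := by
  have hsq := A18_sq C
  have hT := T_i C
  simp only [map_add, map_mul, map_pow, C.T_K, hT]
  linear_combination (-(algebraMap K N b) ^ 2) * hsq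

/-- elements of the quadratic algebra -/
theorem A18_repr (C : Comp K M N ι τ T act) (φ : Qd K ≃+* N)
    (hφ : ∀ x : K, φ (AdjoinRoot.of _ x) = algebraMap K N x)
    (hφr : φ (AdjoinRoot.root _) = algebraMap M N ι) (m : Qd K) :
    ∃ a b : K, m = AdjoinRoot.of _ a + AdjoinRoot.of _ b * AdjoinRoot.root _ ∧
      φ m = algebraMap K N a + algebraMap K N b * algebraMap M N ι := by
  obtain ⟨a, b, h⟩ := C.span (φ m)
  refine ⟨a, b, ?_, h⟩
  apply φ.injective
  rw [h, map_add, map_mul, hφ, hφ, hφr]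

open H55C in
theorem A18_loc (C : Comp K M N ι τ T act) (φ : Qd K ≃+* N)
    (hφ : ∀ x : K, φ (AdjoinRoot.of _ x) = algebraMap K N x)
    (hφr : φ (AdjoinRoot.root _) = algebraMap M N ι) (m : Qd K) (hm : m ∈ Sel K)
    (P : HeightOneSpectrum (𝓞 N)) :
    ∃ (w : HeightOneSpectrum (𝓞 K)) (ι' : w.adicCompletion K →+* P.adicCompletion N) (e : ℕ),
      w.asIdeal = P.asIdeal.under (𝓞 K) ∧ 0 < e ∧
      (∀ x : K, ι' (algebraMap K _ x) = algebraMap N _ (algebraMap K N x)) ∧
      (∀ z : w.adicCompletion K, Valued.v (ι' z) = Valued.v z ^ e) ∧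
      ∃ (x y : w.adicCompletion K) (β : P.adicCompletion N), y ^ 2 = x ^ 3 - 1 ∧ x ≠ 0 ∧
        algebraMap N (P.adicCompletion N) (φ m) *
          (ι' y - algebraMap N (P.adicCompletion N) (algebraMap M N ι)) = β ^ 3 := by
  let w : HeightOneSpectrum (𝓞 K) :=
    ⟨P.asIdeal.under (𝓞 K), P.isPrime.under (𝓞 K), Ideal.IsIntegral.comap_ne_bot _ P.ne_bot⟩
  obtain ⟨ι', e, he, hι, hv⟩ := exists_iota K N P w rfl
  obtain ⟨x, y, hxy, hx0, b, hb⟩ := hm.2.2 w
  have hsq : algebraMap N (P.adicCompletion N) (algebraMap M N ι) ^ 2 = -1 := by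
    rw [← map_pow, A18_sq C, map_neg, map_one]
  let ψ : Qd (w.adicCompletion K) →+* P.adicCompletion N :=
    AdjoinRoot.lift ι' (algebraMap N (P.adicCompletion N) (algebraMap M N ι)) (by
      rw [Polynomial.eval₂_add, Polynomial.eval₂_pow, Polynomial.eval₂_X, Polynomial.eval₂_C,
        map_one, hsq, neg_add_cancel])
  have hψo : ∀ z : w.adicCompletion K, ψ (AdjoinRoot.of _ z) = ι' z := fun z => AdjoinRoot.lift_of _
  have hψr : ψ (AdjoinRoot.root _) = algebraMap N (P.adicCompletion N) (algebraMap M N ι) :=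
    AdjoinRoot.lift_root _
  refine ⟨w, ι', e, rfl, he, hι, hv, x, y, ψ b, hxy, hx0, ?_⟩
  obtain ⟨a', b', hm1, hm2⟩ := A18_repr C φ hφ hφr m
  have h1 : ψ (qmap (algebraMap K (w.adicCompletion K)) m) =
      algebraMap N (P.adicCompletion N) (φ m) := by
    have hco : ∀ z : K, qmap (algebraMap K (w.adicCompletion K)) (AdjoinRoot.of _ z) =
        AdjoinRoot.of _ (algebraMap K (w.adicCompletion K) z) := fun z => AdjoinRoot.map_of _ _ _ _ z
    have hcr : qmap (algebraMap K (w.adicCompletion K)) (AdjoinRoot.root _) =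
        AdjoinRoot.root _ := AdjoinRoot.map_root _ _ _ _
    rw [hm2, hm1]
    simp only [map_add, map_mul, hco, hcr, hψo, hψr, hι]
  have h2 := congrArg ψ hb
  rw [map_mul, h1, map_pow, map_sub, hψo, hψr] at h2
  exact h2

open H55C in
theorem sel_cond (C : Comp K M N ι τ T act) (hG : IsGalois F K) (k : ℕ)
    (hk : Module.finrank F K = 3 ^ k) (hU : UnrOut K) (φ : Qd K ≃+* N)
    (hφ : ∀ x : K, φ (AdjoinRoot.of _ x) = algebraMap K N x)
    (hφr : φ (AdjoinRoot.root _) = algebraMap M N ι) (m : Qd K) (hm : m ∈ Sel K) :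
    Cond K N T (φ m) := by
  have hne : φ m ≠ 0 := (hm.1.map φ).ne_zero
  have hthree : ∀ P : HeightOneSpectrum (𝓞 N), (3 : 𝓞 N) ∈ P.asIdeal →
      ∃ b : N, b ≠ 0 ∧ P.valuation N (φ m / b ^ 3 - 1) ≤ P.valuation N 3 := by
    intro P h3P
    obtain ⟨w, ι', e, hw, he, hι, hv, x, y, β, hxy, hx0, hβ⟩ := A18_loc C φ hφ hφr m hm P
    have h3w := A18_under P w hw 3 h3P
    have hw3 : w.valuation K (algebraMap O K (om - 1)) = WithZero.exp (-1 : ℤ) :=
      H35T.val_lam hU w h3w
    have hsqP : algebraMap N (P.adicCompletion N) (algebraMap M N ι) ^ 2 = -1 := by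
      rw [← map_pow, A18_sq C, map_neg, map_one]
    have hr : algebraMap K (w.adicCompletion K) (algebraMap O K om) ^ 2 +
        algebraMap K (w.adicCompletion K) (algebraMap O K om) + 1 = 0 := by
      have h := congrArg (algebraMap K (w.adicCompletion K)) (A18_om K)
      rwa [map_add, map_add, map_pow, map_one, map_zero] at h
    have hv3 : Valued.v (3 : P.adicCompletion N) < 1 := by
      rw [A18_valued_ofNat P 3]
      exact (A18_val_lt P 3).2 h3P
    have hv30 : Valued.v (3 : P.adicCompletion N) ≠ 0 := by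
      rw [A18_valued_ofNat P 3]
      exact (Valuation.ne_zero_iff _).2 three_ne_zero
    have hK : ∀ z : w.adicCompletion K, Valued.v (ι' z) < 1 →
        Valued.v (ι' z) ≤
          Valued.v (ι' (algebraMap K (w.adicCompletion K) (algebraMap O K om) - 1)) := by
      intro z hz
      rw [hv, hv]
      rw [hv] at hz
      refine A18_le he ?_ hz
      have e1 : algebraMap K (w.adicCompletion K) (algebraMap O K om) - 1 =
          algebraMap K (w.adicCompletion K) (algebraMap O K (om - 1)) := by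
        rw [map_sub, map_sub, map_one, map_one]
      rw [e1, valued_alg, hw3]
    have h1 : ∀ z : w.adicCompletion K, Valued.v (ι' z) ≤ 1 → Valued.v (ι' z ^ 2 + 1) = 1 := by
      intro z hz
      have hz1 : Valued.v z ≤ 1 := by
        rw [hv] at hz
        by_contra h
        push Not at h
        exact absurd hz (not_le.2 (one_lt_pow₀ h he.ne'))
      have h2 := res3 hG k hk w h3w z hz1
      have e1 : ι' z ^ 2 + 1 = ι' (z ^ 2 + 1) := by rw [map_add, map_pow, map_one]
      rw [e1, hv, h2, one_pow]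
    obtain ⟨b₂, hb0, hb2⟩ := @H35T.loc3 (w.adicCompletion K) (P.adicCompletion N) _ _ ι'.toAlgebra
      Valued.v _ hr (algebraMap N (P.adicCompletion N) (algebraMap M N ι)) hsqP hv30 hv3 hK h1
      x y hxy hx0
    change Valued.v ((ι' y - algebraMap N (P.adicCompletion N) (algebraMap M N ι)) / b₂ ^ 3 - 1) ≤
      Valued.v (3 : P.adicCompletion N) at hb2
    set g : P.adicCompletion N :=
      ι' y - algebraMap N (P.adicCompletion N) (algebraMap M N ι) with hg
    set ρ := Valued.v (3 : P.adicCompletion N) with hρ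
    have hg1 := A18_v_one Valued.v hv3 hb2
    have hg0 : g ≠ 0 := by
      intro h0
      rw [h0, zero_div, map_zero] at hg1
      exact zero_ne_one hg1
    have hm0 : algebraMap N (P.adicCompletion N) (φ m) ≠ 0 := by
      rw [Ne, map_eq_zero]
      exact hne
    have hβ0 : β ≠ 0 := by
      intro h0
      rw [h0, zero_pow three_ne_zero] at hβ
      exact mul_ne_zero hm0 hg0 hβ
    have hc0 : β / b₂ ≠ 0 := div_ne_zero hβ0 hb0
    have hvc : Valued.v (β / b₂) ≠ 0 := (Valuation.ne_zero_iff _).2 hc0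
    obtain ⟨b, hb⟩ := exists_approx N P (β / b₂) (Valued.v (β / b₂) * ρ) (mul_ne_zero hvc hv30)
    have hu2 : Valued.v (algebraMap N (P.adicCompletion N) b / (β / b₂) - 1) ≤ ρ := by
      have e1 : algebraMap N (P.adicCompletion N) b / (β / b₂) - 1 =
          -((β / b₂ - algebraMap N (P.adicCompletion N) b) / (β / b₂)) := by
        rw [sub_div, div_self hc0]
        ring
      rw [e1, Valuation.map_neg, map_div₀]
      rw [div_le_iff₀ (zero_lt_iff.2 hvc), mul_comm]
      exact hb.le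
    have hu21 := A18_v_one Valued.v hv3 hu2
    have hbP0 : algebraMap N (P.adicCompletion N) b ≠ 0 := by
      intro h0
      rw [h0, zero_div, map_zero] at hu21
      exact zero_ne_one hu21
    have hb0' : b ≠ 0 := by
      rintro rfl
      exact hbP0 (map_zero _)
    refine ⟨b, hb0', ?_⟩
    have hfin : Valued.v (algebraMap N (P.adicCompletion N) (φ m) /
        algebraMap N (P.adicCompletion N) b ^ 3 - 1) ≤ ρ := by
      have e1 : algebraMap N (P.adicCompletion N) (φ m) / algebraMap N (P.adicCompletion N) b ^ 3 =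
          (g / b₂ ^ 3)⁻¹ * ((algebraMap N (P.adicCompletion N) b / (β / b₂))⁻¹ *
            ((algebraMap N (P.adicCompletion N) b / (β / b₂))⁻¹ *
            (algebraMap N (P.adicCompletion N) b / (β / b₂))⁻¹)) := by
        have e2 : algebraMap N (P.adicCompletion N) (φ m) = β ^ 3 / g := by
          rw [eq_div_iff hg0]
          exact hβ
        rw [e2]
        field_simp
      rw [e1]
      exact A18_U_mul Valued.v hv3 (A18_U_inv Valued.v hv3 hb2)
        (A18_U_mul Valued.v hv3 (A18_U_inv Valued.v hv3 hu2)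
          (A18_U_mul Valued.v hv3 (A18_U_inv Valued.v hv3 hu2) (A18_U_inv Valued.v hv3 hu2)))
    have e3 : P.valuation N (3 : N) = Valued.v (3 : P.adicCompletion N) := (A18_valued_ofNat P 3).symm
    have e4 : algebraMap N (P.adicCompletion N) (φ m / b ^ 3 - 1) =
        algebraMap N (P.adicCompletion N) (φ m) / algebraMap N (P.adicCompletion N) b ^ 3 - 1 := by
      rw [map_sub, map_div₀, map_pow, (algebraMap N (P.adicCompletion N)).map_one]
    rw [e3, ← valued_alg, e4]
    exact hfin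
  refine ⟨hne, ?_, ?_, hthree⟩
  · obtain ⟨n, hn⟩ := hm.2.1
    obtain ⟨a, b, hm1, hm2⟩ := A18_repr C φ hφ hφr m
    have h1 : φ m * T (φ m) = algebraMap K N n ^ 3 := by
      rw [hm2, A18_norm_T C, ← map_pow, ← hn, hm1, A18_norm]
    refine ⟨n, ?_, h1⟩
    rintro rfl
    rw [map_zero, zero_pow three_ne_zero] at h1
    have h2 : T (φ m) ≠ 0 := by
      rw [Ne, map_eq_zero_iff T T.injective]
      exact hne
    exact mul_ne_zero hne h2 h1
  · intro P
    by_cases h3P : (3 : 𝓞 N) ∈ P.asIdeal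
    · obtain ⟨b, hb0, hb⟩ := hthree P h3P
      exact A18_val_of_three (P.valuation N) ((A18_val_lt P 3).2 h3P) hb0 hb
    · obtain ⟨w, ι', e, hw, he, hι, hv, x, y, β, hxy, hx0, hβ⟩ := A18_loc C φ hφ hφr m hm P
      have hsqP : algebraMap N (P.adicCompletion N) (algebraMap M N ι) ^ 2 = -1 := by
        rw [← map_pow, A18_sq C, map_neg, map_one]
      have hgex : ∃ k : ℤ, Valued.v (ι' y -
          algebraMap N (P.adicCompletion N) (algebraMap M N ι)) = WithZero.exp (3 * k) := by
        by_cases h2P : (2 : 𝓞 N) ∈ P.asIdeal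
        · have hw2 : w.valuation K (2 : K) = WithZero.exp (-1 : ℤ) :=
            H35T.val_two hU w (A18_under P w hw 2 h2P)
          have hv2 : Valued.v (2 : P.adicCompletion N) < 1 := by
            rw [A18_valued_ofNat P 2]
            exact (A18_val_lt P 2).2 h2P
          have hv20 : Valued.v (2 : P.adicCompletion N) ≠ 0 := by
            rw [A18_valued_ofNat P 2]
            exact (Valuation.ne_zero_iff _).2 two_ne_zero
          have hK : ∀ z : w.adicCompletion K, Valued.v (ι' z) < 1 →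
              Valued.v (ι' z) ≤ Valued.v (2 : P.adicCompletion N) := by
            intro z hz
            have e1 : Valued.v (2 : P.adicCompletion N) = Valued.v (2 : w.adicCompletion K) ^ e := by
              have e2 : ι' (2 : w.adicCompletion K) = 2 := map_ofNat ι' 2
              rw [← hv, e2]
            rw [e1, hv]
            rw [hv] at hz
            exact A18_le he ((A18_valued_ofNat w 2).trans hw2) hz
          exact @H35T.loc2 (w.adicCompletion K) (P.adicCompletion N) _ _ ι'.toAlgebra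
            Valued.v (algebraMap N (P.adicCompletion N) (algebraMap M N ι)) hsqP hv20 hv2 hK
            x y hxy hx0
        · have hv2 : Valued.v (2 : P.adicCompletion N) = 1 := by
            rw [A18_valued_ofNat P 2]
            exact A18_val_eq P 2 h2P
          exact @H35T.loc1 (w.adicCompletion K) (P.adicCompletion N) _ _ ι'.toAlgebra
            Valued.v (algebraMap N (P.adicCompletion N) (algebraMap M N ι)) hsqP hv2 x y hxy hx0
      have hm0 : algebraMap N (P.adicCompletion N) (φ m) ≠ 0 := by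
        rw [Ne, map_eq_zero]
        exact hne
      have hg0 : ι' y - algebraMap N (P.adicCompletion N) (algebraMap M N ι) ≠ 0 := by
        obtain ⟨k, hk⟩ := hgex
        intro h0
        rw [h0, map_zero] at hk
        exact WithZero.exp_ne_zero hk.symm
      rw [← valued_alg]
      exact A18_val_of_mul Valued.v hm0 hg0 hβ hgex

end H35T
end

-- from Lib.H13E.S4
section

open NumberField IsDedekindDomain

namespace H13E

open H55B H35T

/-! Chunk S4 (M): descent of the Selmer group in a Galois extension K'/K of 3-power degree, both containing F. no_i: -1 is not a square in K' (otherwise F(i), of degree 2 over F, embeds in K', of odd degree over F; i is not in F: F has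
discriminant -3, or z^2 = -1 and om generate the 12th cyclotomic field of degree 4), so Qd K' is a field (AdjoinRoot of an irreducible polynomial X^2 + 1). Let m be in Sel K; m' = qmap m is in Sel K' (as in chunk S2: norm and
completions, H55C.exists_iota), m' = b^3. Let g be in Gal(K'/K), acting on the coefficients of Qd K' (ring automorphism qmap g; it commutes with the conjugation T: root -> -root). (g b)^3 = b^3, so g b = z b with z^3 = 1 in the field Qd K', so z is in
{1, om, om^2} (X^3 - 1 has at most 3 roots), fixed by T. N b = b T b is in K' and (N b)^3 = N m' = n^3 with n in K (norm condition of Sel K), so N b = z' n with z' in {1, om, om^2} is fixed by g; but g (N b) = z^2 N b, so z^2 = 1 and z = 1. So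
b is fixed by all g, its coefficients are in K (K'/K Galois), b = qmap b0 and m = b0^3 (qmap injective). If m = 0... m is a unit. -/

theorem no_i (K' : Type) [Field K'] [NumberField K'] [Algebra F K'] (k : ℕ)
    (hk : Module.finrank F K' = 3 ^ k) (z : K') : z ^ 2 + 1 ≠ 0 := fun h =>
  H35T.no_i K' k hk z (eq_neg_of_add_eq_zero_left h)

/-- `qmap` in coordinates -/
theorem S4_qmap {k k' : Type} [Field k] [Field k'] (f : k →+* k') (a b : k) :
    qmap f (AdjoinRoot.of _ a + AdjoinRoot.of _ b * AdjoinRoot.root _ : Qd k) =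
      AdjoinRoot.of _ (f a) + AdjoinRoot.of _ (f b) * AdjoinRoot.root _ := by
  have h1 : ∀ x : k, qmap f (AdjoinRoot.of _ x) = AdjoinRoot.of _ (f x) := fun x =>
    AdjoinRoot.map_of _ _ _ _ x
  have h2 : qmap f (AdjoinRoot.root _) = AdjoinRoot.root _ := AdjoinRoot.map_root _ _ _ _
  rw [map_add, map_mul, h1, h1, h2]

/-- uniqueness of the coordinates -/
theorem S4_inj {k : Type} [Field k] {a b c d : k}
    (h : (AdjoinRoot.of _ a + AdjoinRoot.of _ b * AdjoinRoot.root _ : Qd k) =
      AdjoinRoot.of _ c + AdjoinRoot.of _ d * AdjoinRoot.root _) : a = c ∧ b = d := by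
  have h1 := A5_indep k (a - c) (b - d) (by
    rw [map_sub, map_sub]
    linear_combination h)
  exact ⟨sub_eq_zero.1 h1.1, sub_eq_zero.1 h1.2⟩

theorem S4_comp {k k' k'' : Type} [Field k] [Field k'] [Field k''] (f : k →+* k') (g : k' →+* k'')
    (h : k →+* k'') (hfg : ∀ x, g (f x) = h x) (m : Qd k) : qmap g (qmap f m) = qmap h m := by
  obtain ⟨a, b, rfl⟩ := A5_span k m
  rw [S4_qmap, S4_qmap, S4_qmap, hfg, hfg]

theorem S4_norm {k k' : Type} [Field k] [Field k'] (f : k →+* k') (m : Qd k) :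
    Algebra.norm k' (qmap f m) = f (Algebra.norm k m) := by
  obtain ⟨a, b, rfl⟩ := A5_span k m
  rw [S4_qmap, A18_norm, A18_norm, map_add, map_pow, map_pow]

/-- the Selmer group under extension of the field -/
theorem S4_push (K K' : Type) [Field K] [NumberField K] [Field K'] [NumberField K'] [Algebra K K']
    (m : Qd K) (hm : m ∈ Sel K) : qmap (algebraMap K K') m ∈ Sel K' := by
  refine ⟨hm.1.map _, ?_, ?_⟩
  · obtain ⟨n, hn⟩ := hm.2.1
    exact ⟨algebraMap K K' n, by rw [S4_norm, hn, map_pow]⟩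
  · intro P
    let w : HeightOneSpectrum (𝓞 K) :=
      ⟨P.asIdeal.under (𝓞 K), P.isPrime.under (𝓞 K), Ideal.IsIntegral.comap_ne_bot _ P.ne_bot⟩
    obtain ⟨ι, e, -, hι, -⟩ := H55C.exists_iota K K' P w rfl
    obtain ⟨x, y, hxy, hx0, b, hb⟩ := hm.2.2 w
    refine ⟨ι x, ι y, ?_, ?_, qmap ι b, ?_⟩
    · rw [← map_pow, hxy, map_sub, map_pow, map_one]
    · rw [Ne, map_eq_zero]
      exact hx0
    · have h1 : qmap ι (AdjoinRoot.of _ y - AdjoinRoot.root _) =
          AdjoinRoot.of _ (ι y) - AdjoinRoot.root _ := by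
        have h2 : ∀ x, qmap ι (AdjoinRoot.of _ x) = AdjoinRoot.of _ (ι x) := fun x =>
          AdjoinRoot.map_of _ _ _ _ x
        have h3 : qmap ι (AdjoinRoot.root _) = AdjoinRoot.root _ := AdjoinRoot.map_root _ _ _ _
        rw [map_sub, h2, h3]
      have h4 : qmap (algebraMap K' (P.adicCompletion K')) (qmap (algebraMap K K') m) =
          qmap ι (qmap (algebraMap K (w.adicCompletion K)) m) := by
        rw [S4_comp (algebraMap K K') (algebraMap K' (P.adicCompletion K'))
          (ι.comp (algebraMap K (w.adicCompletion K))) (fun x => (hι x).symm),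
          S4_comp (algebraMap K (w.adicCompletion K)) ι
          (ι.comp (algebraMap K (w.adicCompletion K))) (fun x => rfl)]
      rw [h4, ← h1, ← map_mul, hb, map_pow]

theorem S4_one {K' : Type} [Field K'] [NumberField K'] {W : K'} (h : W ^ 2 + W + 1 = 0)
    (h1 : W = 1) : False := by
  rw [h1] at h
  norm_num at h

theorem sel_gal (K K' : Type) [Field K] [NumberField K] [Algebra F K] [Field K'] [NumberField K']
    [Algebra F K'] [Algebra K K'] [IsScalarTower F K K'] (hG : IsGalois F K') (k : ℕ)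
    (hk : Module.finrank F K' = 3 ^ k) (h : ∀ m ∈ Sel K', ∃ b : Qd K', m = b ^ 3) :
    ∀ m ∈ Sel K, ∃ b : Qd K, m = b ^ 3 := by
  intro m hm
  have hirr : Irreducible (A5_q K') := A5_irr K' (H35T.no_i K' k hk)
  have hdom : IsDomain (Qd K') := AdjoinRoot.isDomain_of_prime hirr.prime
  obtain ⟨b, hb⟩ := h _ (S4_push K K' m hm)
  obtain ⟨c, d, hcd⟩ := A5_span K m
  obtain ⟨p, q, hpq⟩ := A5_span K' b
  -- the cube root of unity
  set W : K' := algebraMap O K' om with hW
  have hWK : W = algebraMap K K' (algebraMap F K (algebraMap O F om)) := by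
    rw [hW, IsScalarTower.algebraMap_apply O F K' om, IsScalarTower.algebraMap_apply F K K']
  have hWr : W ^ 2 + W + 1 = 0 := K1_rel
  have hW3 : W ^ 3 = 1 := K1_cube
  -- the norm
  have hbu : IsUnit b := by
    have h1 : IsUnit (b ^ 3) := by
      rw [← hb]
      exact hm.1.map _
    exact isUnit_pow_iff three_ne_zero |>.1 h1
  have hr : Algebra.norm K' b = p ^ 2 + q ^ 2 := by
    rw [hpq, A18_norm]
  have hr0 : p ^ 2 + q ^ 2 ≠ 0 := by
    rw [← hr]
    exact (hbu.map (Algebra.norm K')).ne_zero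
  obtain ⟨n, hn⟩ := hm.2.1
  have hr3 : (p ^ 2 + q ^ 2) ^ 3 = (algebraMap K K' n) ^ 3 := by
    rw [← hr, ← map_pow, ← hb, S4_norm, hn, map_pow]
  have hrn : ∃ i : ℕ, p ^ 2 + q ^ 2 = W ^ i * algebraMap K K' n := by
    have h2 : (p ^ 2 + q ^ 2 - algebraMap K K' n) * (p ^ 2 + q ^ 2 - W * algebraMap K K' n) *
        (p ^ 2 + q ^ 2 - W ^ 2 * algebraMap K K' n) = 0 := by
      generalize p ^ 2 + q ^ 2 = x at *
      generalize algebraMap K K' n = y at *
      linear_combination hr3 - (y * x ^ 2 - W * y ^ 2 * x + (W - 1) * y ^ 3) * hWr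
    rcases mul_eq_zero.1 h2 with h3 | h3
    · rcases mul_eq_zero.1 h3 with h4 | h4
      · exact ⟨0, by rw [pow_zero, one_mul]; exact sub_eq_zero.1 h4⟩
      · exact ⟨1, by rw [pow_one]; exact sub_eq_zero.1 h4⟩
    · exact ⟨2, sub_eq_zero.1 h3⟩
  obtain ⟨i, hi⟩ := hrn
  have hfix : ∀ g : K' ≃ₐ[K] K', g p = p ∧ g q = q := by
    intro g
    have hgW : g W = W := by rw [hWK, AlgEquiv.commutes]
    have hgr : (g p) ^ 2 + (g q) ^ 2 = p ^ 2 + q ^ 2 := by
      rw [← map_pow, ← map_pow, ← map_add, hi, map_mul, map_pow, hgW, AlgEquiv.commutes]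
    -- the action on b
    have hgm : (qmap (g : K' →+* K') b) ^ 3 = b ^ 3 := by
      rw [← map_pow, ← hb]
      exact S4_comp _ _ _ (fun x => g.commutes x) m
    have hgb : qmap (g : K' →+* K') b =
        AdjoinRoot.of _ (g p) + AdjoinRoot.of _ (g q) * AdjoinRoot.root _ := by
      rw [hpq]
      exact S4_qmap (g : K' →+* K') p q
    set B : Qd K' := qmap (g : K' →+* K') b with hB
    have hWr' : (AdjoinRoot.of _ W : Qd K') ^ 2 + AdjoinRoot.of _ W + 1 = 0 := by
      have := congrArg (AdjoinRoot.of (A5_q K')) hWr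
      simpa using this
    have h2 : (B - b) * (B - AdjoinRoot.of _ W * b) * (B - AdjoinRoot.of _ W ^ 2 * b) = 0 := by
      linear_combination hgm - (b * B ^ 2 - AdjoinRoot.of _ W * b ^ 2 * B +
        (AdjoinRoot.of _ W - 1) * b ^ 3) * hWr'
    have h5 : ∃ j : ℕ, (j = 0 ∨ j = 1 ∨ j = 2) ∧ g p = W ^ j * p ∧ g q = W ^ j * q := by
      rcases mul_eq_zero.1 h2 with h3 | h3
      · rcases mul_eq_zero.1 h3 with h4 | h4
        · refine ⟨0, Or.inl rfl, ?_⟩
          rw [pow_zero, one_mul, one_mul]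
          apply S4_inj
          rw [← hgb, ← hpq]
          exact sub_eq_zero.1 h4
        · refine ⟨1, Or.inr (Or.inl rfl), ?_⟩
          rw [pow_one]
          apply S4_inj
          rw [← hgb, sub_eq_zero.1 h4, hpq, map_mul, map_mul]
          ring
      · refine ⟨2, Or.inr (Or.inr rfl), ?_⟩
        apply S4_inj
        rw [← hgb, sub_eq_zero.1 h3, hpq, map_mul, map_mul, map_pow]
        ring
    obtain ⟨j, hj, hgp, hgq⟩ := h5
    have h6 : (W ^ j) ^ 2 = 1 := by
      have h7 : (W ^ j) ^ 2 * (p ^ 2 + q ^ 2) = 1 * (p ^ 2 + q ^ 2) := by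
        have h71 : (W ^ j) ^ 2 * (p ^ 2 + q ^ 2) = (g p) ^ 2 + (g q) ^ 2 := by
          rw [hgp, hgq]
          ring
        rw [h71, hgr, one_mul]
      exact mul_right_cancel₀ hr0 h7
    rcases hj with rfl | rfl | rfl
    · rw [pow_zero, one_mul] at hgp hgq
      exact ⟨hgp, hgq⟩
    · exfalso
      rw [pow_one] at h6
      apply S4_one hWr
      have h8 : W ^ 3 = W := by rw [pow_succ, h6, one_mul]
      rw [← h8, hW3]
    · exfalso
      apply S4_one hWr
      have h8 : (W ^ 2) ^ 2 = W := by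
        calc (W ^ 2) ^ 2 = W ^ 3 * W := by ring
          _ = W := by rw [hW3, one_mul]
      rw [← h8, h6]
  -- the coefficients are in K
  have hgal : IsGalois K K' := IsGalois.tower_top_of_isGalois F K K'
  have hst : IsScalarTower ℚ K K' := IsScalarTower.of_algebraMap_eq' (Subsingleton.elim _ _)
  have hfd : FiniteDimensional K K' := Module.Finite.of_restrictScalars_finite ℚ K K'
  obtain ⟨p0, hp0⟩ := (IsGalois.mem_range_algebraMap_iff_fixed p).2 fun g => (hfix g).1
  obtain ⟨q0, hq0⟩ := (IsGalois.mem_range_algebraMap_iff_fixed q).2 fun g => (hfix g).2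
  refine ⟨AdjoinRoot.of _ p0 + AdjoinRoot.of _ q0 * AdjoinRoot.root _, ?_⟩
  set b0 : Qd K := AdjoinRoot.of _ p0 + AdjoinRoot.of _ q0 * AdjoinRoot.root _ with hb0
  have h9 : qmap (algebraMap K K') b0 = b := by
    rw [hb0, S4_qmap, hp0, hq0, ← hpq]
  have h10 : qmap (algebraMap K K') m = qmap (algebraMap K K') (b0 ^ 3) := by
    rw [map_pow, h9, hb]
  obtain ⟨c', d', hcd'⟩ := A5_span K (b0 ^ 3)
  rw [hcd, hcd', S4_qmap, S4_qmap] at h10
  obtain ⟨h11, h12⟩ := S4_inj h10
  rw [hcd', hcd, (algebraMap K K').injective h11, (algebraMap K K').injective h12]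

end H13E
end

-- from Lib.H13E.S5
section

open NumberField IsDedekindDomain

namespace H13E

open H55B H35T

/-! Chunk S5 (M): all subfields K₀ of K'. Let z be the image of om in K'. Case 1: z is in the image of K₀. Then F -> K₀ (a ring homomorphism sending om to the preimage of z, its composition with K₀ -> K' is the given map: every element of F is a + b om with
a, b rational: exists_repr and fractions), IsScalarTower F K₀ K': sel_gal, selE_K. Case 2: otherwise (then z^2 is not in the image either) let K be the intermediate field K₀(z) of K'/K₀: K/K₀ has degree 2, F -> K, IsScalarTower F K K': sel_gal and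
selE_K for K, then sel_sub and selE_sub. -/

theorem S5_mem (K' : Type) [Field K'] [NumberField K'] [Algebra F K'] (R : Subfield K')
    (hz : algebraMap O K' om ∈ R) (x : F) : algebraMap F K' x ∈ R := by
  have hO : ∀ a : O, algebraMap F K' (algebraMap O F a) ∈ R := by
    intro a
    obtain ⟨p, q, rfl⟩ := exists_repr a
    have h1 : algebraMap F K' (algebraMap O F ((p : O) + q * om)) = (p : K') + q * algebraMap O K' om := by
      rw [map_add, map_mul, map_intCast, map_intCast, map_add, map_mul, map_intCast, map_intCast,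
        IsScalarTower.algebraMap_apply O F K' om]
    rw [h1]
    exact R.add_mem (intCast_mem R p) (R.mul_mem (intCast_mem R q) hz)
  obtain ⟨a, b, hb, rfl⟩ := IsFractionRing.div_surjective (A := O) x
  rw [map_div₀]
  exact R.div_mem (hO a) (hO b)

theorem S5_case1 (K₀ K' : Type) [Field K₀] [NumberField K₀] [Field K'] [NumberField K'] [Algebra F K']
    [Algebra K₀ K'] (hG : IsGalois F K') (k : ℕ) (hk : Module.finrank F K' = 3 ^ k)
    (h : ∀ m ∈ Sel K', ∃ b : Qd K', m = b ^ 3)
    (hz : algebraMap O K' om ∈ (algebraMap K₀ K').fieldRange) :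
    (∀ m ∈ Sel K₀, ∃ b : Qd K₀, m = b ^ 3) ∧ (∀ m ∈ SelE K₀, ∃ b : Qe K₀, m = b ^ 3) := by
  have hmem := S5_mem K' (algebraMap K₀ K').fieldRange hz
  have hbij : Function.Bijective (algebraMap K₀ K').rangeRestrictField := by
    refine ⟨(algebraMap K₀ K').rangeRestrictField.injective, ?_⟩
    rintro ⟨y, x, rfl⟩
    exact ⟨x, rfl⟩
  let f : F →+* K₀ :=
    ((RingEquiv.ofBijective _ hbij).symm : (algebraMap K₀ K').fieldRange →+* K₀).comp
      ((algebraMap F K').codRestrict (algebraMap K₀ K').fieldRange hmem)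
  have hf : ∀ x : F, algebraMap K₀ K' (f x) = algebraMap F K' x := by
    intro x
    have h1 : (RingEquiv.ofBijective _ hbij) (f x) =
        (algebraMap F K').codRestrict (algebraMap K₀ K').fieldRange hmem x :=
      (RingEquiv.ofBijective _ hbij).apply_symm_apply _
    exact congrArg Subtype.val h1
  letI : Algebra F K₀ := f.toAlgebra
  haveI : IsScalarTower F K₀ K' := IsScalarTower.of_algebraMap_eq fun x => (hf x).symm
  have h1 := sel_gal K₀ K' hG k hk h
  exact ⟨h1, selE_K K₀ h1⟩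

theorem S5_rank (K₀ K' : Type) [Field K₀] [NumberField K₀] [Field K'] [NumberField K'] [Algebra F K']
    [Algebra K₀ K'] (hz : algebraMap O K' om ∉ (algebraMap K₀ K').fieldRange) :
    Module.finrank K₀ (IntermediateField.adjoin K₀ {algebraMap O K' om}) = 2 := by
  set z : K' := algebraMap O K' om with hzdef
  have hrel : z ^ 2 + z + 1 = 0 := by
    have h := congrArg (algebraMap O K') om_rel
    rwa [map_add, map_add, map_pow, map_one, map_zero] at h
  have hmonic : (Polynomial.X ^ 2 + Polynomial.X + 1 : Polynomial K₀).Monic := by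
    monicity!
  have hdeg : (Polynomial.X ^ 2 + Polynomial.X + 1 : Polynomial K₀).natDegree = 2 := by
    compute_degree!
  have heval : Polynomial.aeval z (Polynomial.X ^ 2 + Polynomial.X + 1 : Polynomial K₀) = 0 := by
    simp [hrel]
  have hint : IsIntegral K₀ z := ⟨_, hmonic, by
    rw [← Polynomial.aeval_def]
    exact heval⟩
  rw [IntermediateField.adjoin.finrank hint]
  have h1 : (minpoly K₀ z).natDegree ≤ 2 := by
    rw [← hdeg]
    exact Polynomial.natDegree_le_of_dvd (minpoly.dvd K₀ z heval) hmonic.ne_zero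
  have h2 : (minpoly K₀ z).natDegree ≠ 1 := by
    intro h
    rw [minpoly.natDegree_eq_one_iff] at h
    exact hz h
  have h3 := minpoly.natDegree_pos hint
  omega

theorem sel_all (K₀ K' : Type) [Field K₀] [NumberField K₀] [Field K'] [NumberField K'] [Algebra F K']
    [Algebra K₀ K'] (hG : IsGalois F K') (k : ℕ) (hk : Module.finrank F K' = 3 ^ k)
    (h : ∀ m ∈ Sel K', ∃ b : Qd K', m = b ^ 3) :
    (∀ m ∈ Sel K₀, ∃ b : Qd K₀, m = b ^ 3) ∧ (∀ m ∈ SelE K₀, ∃ b : Qe K₀, m = b ^ 3) := by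
  by_cases hz : algebraMap O K' om ∈ (algebraMap K₀ K').fieldRange
  · exact S5_case1 K₀ K' hG k hk h hz
  · have hrank := S5_rank K₀ K' hz
    set K : IntermediateField K₀ K' := IntermediateField.adjoin K₀ {algebraMap O K' om} with hK
    have hfin : FiniteDimensional K₀ K' := by
      have := Module.Finite.of_restrictScalars_finite ℚ K₀ K'
      exact this
    haveI : NumberField K := NumberField.of_module_finite K₀ K
    have hzK : algebraMap O K' om ∈ (algebraMap K K').fieldRange := by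
      refine ⟨⟨algebraMap O K' om, ?_⟩, rfl⟩
      rw [hK]
      exact IntermediateField.mem_adjoin_simple_self K₀ _
    obtain ⟨h1, h2⟩ := S5_case1 K K' hG k hk h hzK
    exact ⟨sel_sub K₀ K hrank h1, selE_sub K₀ K hrank h2⟩

end H13E
end

-- from Lib.H13N.G1
section

open NumberField IsDedekindDomain

namespace H13N

open H55B H35T

/-! Chunk G1 (S/M): the Galois closure N of L over the rationals has 3-power degree over F. -/

/-- The image of om generates the image of F. -/
theorem g1_mem (N : Type) [Field N] [NumberField N] (i : F →+* N) (R : Subfield N)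
    (h : i (algebraMap O F om) ∈ R) (x : F) : i x ∈ R := by
  let _ : Algebra F N := i.toAlgebra
  refine H13E.S5_mem N R ?_ x
  rw [IsScalarTower.algebraMap_apply O F N]
  exact h

/-- The images of om under two embeddings. -/
theorem g1_two (N : Type) [Field N] [NumberField N] (i j : F →+* N) :
    j (algebraMap O F om) = i (algebraMap O F om) ∨
      j (algebraMap O F om) = i (algebraMap O F om) ^ 2 := by
  have h1 : ∀ l : F →+* N, l (algebraMap O F om) ^ 2 + l (algebraMap O F om) + 1 = 0 := by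
    intro l
    have h := congrArg (fun z : O => l (algebraMap O F z)) om_rel
    simpa only [map_add, map_pow, map_one, map_zero] using h
  have hi := h1 i
  have hj := h1 j
  have h2 : (j (algebraMap O F om) - i (algebraMap O F om)) *
      (j (algebraMap O F om) - i (algebraMap O F om) ^ 2) = 0 := by
    linear_combination hj + (i (algebraMap O F om) - 1 - j (algebraMap O F om)) * hi
  rcases mul_eq_zero.1 h2 with h | h
  · exact Or.inl (sub_eq_zero.1 h)
  · exact Or.inr (sub_eq_zero.1 h)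

/-- An element of Gal(N/F) fixes the image of F under every embedding. -/
theorem g1_fix (N : Type) [Field N] [NumberField N] [Algebra F N] (a : N ≃ₐ[F] N) (j : F →+* N)
    (x : F) : a (j x) = j x := by
  let R : Subfield N := (RingHom.eqLocusField (a : N →+* N) (RingHom.id N))
  have hmem : ∀ z, z ∈ R ↔ a z = z := fun z => Iff.rfl
  have h : j (algebraMap O F om) ∈ R := by
    rw [hmem]
    have h1 : a (algebraMap F N (algebraMap O F om)) = algebraMap F N (algebraMap O F om) :=
      a.commutes _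
    rcases g1_two N (algebraMap F N) j with h2 | h2
    · rw [h2, h1]
    · rw [h2, map_pow, h1]
  exact (hmem _).1 (g1_mem N j R h x)

theorem g1_aux {k L N : Type} [Field k] [Field L] [Field N] [Algebra k L] [Algebra k N]
    [Algebra L N] [IsScalarTower k L N] [Normal k L] (a : N ≃ₐ[k] N) :
    ∃ α : L ≃ₐ[k] L, ∀ x : L, a (algebraMap L N x) = algebraMap L N (α x) :=
  ⟨a.restrictNormal L, fun x => (AlgEquiv.restrictNormal_commutes a L x).symm⟩

/-- The restriction to L by an embedding. -/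
theorem g1_restrict (L N : Type) [Field L] [NumberField L] [Algebra F L] [Field N] [NumberField N]
    [Algebra F N] (hG : IsGalois F L) (a : N ≃ₐ[F] N) (τ : L →+* N) :
    ∃ α : L ≃ₐ[F] L, ∀ x : L, a (τ x) = τ (α x) := by
  have hfix := fun x => g1_fix N a (τ.comp (algebraMap F L)) x
  let iL : Algebra L N := τ.toAlgebra
  let iF : Algebra F N := (τ.comp (algebraMap F L)).toAlgebra
  have hT : @IsScalarTower F L N _ iL.toSMul iF.toSMul :=
    @IsScalarTower.of_algebraMap_eq F L N _ _ _ _ iL iF (fun x => rfl)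
  have hNm : Normal F L := inferInstance
  let a' : @AlgEquiv F N N _ _ _ iF iF :=
    @AlgEquiv.ofRingEquiv F N N _ _ _ iF iF (a : N ≃+* N) hfix
  exact @g1_aux F L N _ _ _ _ iF iL hT hNm a'

theorem g1_pow (L N : Type) [Field L] [NumberField L] [Algebra F L] [Field N] [NumberField N]
    [Algebra F N] (hG : IsGalois F L) (k : ℕ) (hk : Module.finrank F L = 3 ^ k)
    (hN : IsGalois ℚ N) (hgen : ∀ g : N ≃ₐ[F] N, (∀ (τ : L →+* N) (x : L), g (τ x) = τ x) → g = 1) :
    ∃ m : ℕ, Module.finrank F N = 3 ^ m := by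
  have hNF : IsGalois F N := IsGalois.tower_top_of_isGalois ℚ F N
  have hp : IsPGroup 3 (N ≃ₐ[F] N) := by
    intro a
    refine ⟨k, hgen _ ?_⟩
    intro τ x
    obtain ⟨α, hα⟩ := g1_restrict L N hG a τ
    have h1 : ∀ (n : ℕ) (x : L), (a ^ n) (τ x) = τ ((α ^ n) x) := by
      intro n
      induction n with
      | zero => intro x; simp
      | succ n ih =>
        intro x
        rw [pow_succ, pow_succ]
        show (a ^ n) (a (τ x)) = τ ((α ^ n) (α x))
        rw [hα, ih]
    have h2 : α ^ 3 ^ k = 1 := by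
      rw [← hk, ← IsGalois.card_aut_eq_finrank F L]
      exact pow_card_eq_one'
    rw [h1, h2]
    rfl
  obtain ⟨m, hm⟩ := (IsPGroup.iff_card (p := 3)).1 hp
  exact ⟨m, by rw [← IsGalois.card_aut_eq_finrank F N, hm]⟩

end H13N
end

-- from Lib.H13N.G2
section

open NumberField IsDedekindDomain

namespace H13N

open H55B H35T

/-! Chunk G2 (M): N is unramified outside the good primes. Let P be a prime of N over a prime v of O which is not good. N/F is Galois, so ramificationIdx P = order of the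
inertia group of P in Gal(N/F) (Ideal.card_inertia_eq_ramificationIdxIn, see t8_iff in H13E/T8.lean). Let g be in the inertia group: g y - y in P for y in 𝓞 N. For every
embedding τ : L → N, g ∘ τ = τ ∘ α (g1_restrict), and P' = τ^(-1)(P) (a prime of 𝓞 L, RingOfIntegers.mapRingHom, comap; not ⊥) satisfies α y - y in P'
for y in 𝓞 L. P' lies over v' = the preimage of P under O → 𝓞 L → 𝓞 N; τ restricted to O is either the given map or the given map after cj (τ om = om or om^2), so v' = v or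
v' = cj^(-1)(v), and v' is not good either: if x^2 + 1, 2 or 3 is in v then cj of it is in v'. By UnrOut L the index of P' is 1, the inertia group of
P' in Gal(L/F) is trivial, α = 1. So g ∘ τ = τ for all τ, g = 1 (hgen). -/

theorem good_cj (v v' : HeightOneSpectrum O) (h : ∀ x : O, cj x ∈ v'.asIdeal ↔ x ∈ v.asIdeal) :
    Good v' ↔ Good v := by
  have h2 : (2 : O) ∈ v'.asIdeal ↔ (2 : O) ∈ v.asIdeal := by
    have := h 2
    rwa [map_ofNat] at this
  have h3 : (3 : O) ∈ v'.asIdeal ↔ (3 : O) ∈ v.asIdeal := by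
    have := h 3
    rwa [map_ofNat] at this
  have hs : (∃ x : O, x ^ 2 + 1 ∈ v'.asIdeal) ↔ ∃ x : O, x ^ 2 + 1 ∈ v.asIdeal := by
    constructor
    · rintro ⟨x, hx⟩
      refine ⟨cj x, ?_⟩
      rw [← h, map_add, map_pow, map_one, cj_cj]
      exact hx
    · rintro ⟨x, hx⟩
      refine ⟨cj x, ?_⟩
      have := (h _).2 hx
      rwa [map_add, map_pow, map_one] at this
  unfold Good
  rw [h2, h3, hs]

theorem g2_card (L : Type) [Field L] [NumberField L] [Algebra F L] (hG : IsGalois F L)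
    (w : HeightOneSpectrum (𝓞 L)) :
    Nat.card (w.asIdeal.inertia (L ≃ₐ[F] L)) = w.asIdeal.ramificationIdx O := by
  have hwm := w.isMaximal
  have hwp := w.isPrime
  have hl : w.asIdeal.LiesOver (w.asIdeal.under O) := ⟨rfl⟩
  have hum : (w.asIdeal.under O).IsMaximal := Ideal.IsMaximal.under _ _
  have hub : w.asIdeal.under O ≠ ⊥ := Ideal.IsIntegral.comap_ne_bot _ w.ne_bot
  have hfin : Finite (O ⧸ w.asIdeal.under O) :=
    Ideal.finiteQuotientOfFreeOfNeBot _ hub
  rw [Ideal.card_inertia_eq_ramificationIdxIn (G := L ≃ₐ[F] L)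
      (w.asIdeal.under O) w.asIdeal,
      Ideal.ramificationIdxIn_eq_ramificationIdx (w.asIdeal.under O) w.asIdeal (L ≃ₐ[F] L)]

theorem g2_hom {R : Type*} [CommRing R] (i j : O →+* R) (h : j om = i om) (x : O) : j x = i x := by
  obtain ⟨a, b, rfl⟩ := exists_repr x
  rw [map_add, map_mul, map_intCast, map_intCast, map_add, map_mul, map_intCast, map_intCast, h]

theorem g2_hom2 {R : Type*} [CommRing R] (i j : O →+* R) (h : j om = i om ^ 2) (x : O) :
    j x = i (cj x) := by
  have := g2_hom (i.comp (cj : O →+* O)) j (by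
    rw [h, RingHom.comp_apply]
    show _ = i (cj om)
    rw [cj_om, map_pow]) x
  rw [this]
  rfl

theorem g2_unr (L N : Type) [Field L] [NumberField L] [Algebra F L] [Field N] [NumberField N]
    [Algebra F N] (hG : IsGalois F L) (hU : UnrOut L) (hN : IsGalois ℚ N)
    (hgen : ∀ g : N ≃ₐ[F] N, (∀ (τ : L →+* N) (x : L), g (τ x) = τ x) → g = 1) :
    UnrOut N := by
  intro P v hv hng
  have hNF : IsGalois F N := IsGalois.tower_top_of_isGalois ℚ F N
  rw [← g2_card N hNF P, Subgroup.card_eq_one, eq_bot_iff]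
  intro g hg
  rw [Subgroup.mem_bot]
  apply hgen
  intro τ x
  obtain ⟨α, hα⟩ := g1_restrict L N hG g τ
  suffices h1 : α = 1 by
    rw [hα, h1]
    rfl
  let t : 𝓞 L →+* 𝓞 N := RingOfIntegers.mapRingHom τ
  have ht : ∀ y : 𝓞 L, algebraMap (𝓞 N) N (t y) = τ (algebraMap (𝓞 L) L y) := fun y => rfl
  have hPp := P.isPrime
  have hne : P.asIdeal.comap t ≠ ⊥ := by
    intro h
    have hn : (Ideal.absNorm P.asIdeal : 𝓞 L) ∈ P.asIdeal.comap t := by
      rw [Ideal.mem_comap, map_natCast]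
      exact Ideal.absNorm_mem _
    rw [h, Ideal.mem_bot, Nat.cast_eq_zero, Ideal.absNorm_eq_zero_iff] at hn
    exact P.ne_bot hn
  let P' : HeightOneSpectrum (𝓞 L) := ⟨P.asIdeal.comap t, inferInstance, hne⟩
  have hP' : ∀ y, y ∈ P'.asIdeal ↔ t y ∈ P.asIdeal := fun y => Iff.rfl
  have hv'ne : P'.asIdeal.under O ≠ ⊥ := Ideal.IsIntegral.comap_ne_bot _ P'.ne_bot
  have hP'p := P'.isPrime
  let v' : HeightOneSpectrum O := ⟨P'.asIdeal.under O, inferInstance, hv'ne⟩
  have hv'm : ∀ y : O, y ∈ v'.asIdeal ↔ t (algebraMap O (𝓞 L) y) ∈ P.asIdeal := fun y => Iff.rfl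
  have hvm : ∀ y : O, y ∈ v.asIdeal ↔ algebraMap O (𝓞 N) y ∈ P.asIdeal := by
    intro y
    rw [hv, Ideal.under_def, Ideal.mem_comap]
  have hng' : ¬ Good v' := by
    rcases g1_two N (algebraMap F N) (τ.comp (algebraMap F L)) with h2 | h2
    · have h3 : (t.comp (algebraMap O (𝓞 L))) om = algebraMap O (𝓞 N) om := by
        apply RingOfIntegers.ext
        exact h2
      have h4 := g2_hom _ _ h3
      have h5 : v' = v := by
        apply HeightOneSpectrum.ext
        ext y
        rw [hv'm, hvm, ← h4]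
        rfl
      rw [h5]
      exact hng
    · have h3 : (t.comp (algebraMap O (𝓞 L))) om = algebraMap O (𝓞 N) om ^ 2 := by
        apply RingOfIntegers.ext
        exact h2
      have h4 := g2_hom2 _ _ h3
      rw [good_cj v v']
      · exact hng
      · intro y
        rw [hv'm, hvm]
        have h5 := h4 (cj y)
        rw [cj_cj] at h5
        rw [← h5]
        rfl
  have h6 : P'.asIdeal.ramificationIdx O = 1 := hU P' v' rfl hng'
  rw [← g2_card L hG P', Subgroup.card_eq_one] at h6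
  have h7 : α ∈ P'.asIdeal.inertia (L ≃ₐ[F] L) := by
    intro y
    show t (α • y - y) ∈ P.asIdeal
    have h8 : t (α • y - y) = g • t y - t y := by
      rw [map_sub]
      congr 1
      apply RingOfIntegers.ext
      exact (hα (y : L)).symm
    rw [h8]
    exact hg (t y)
  rw [h6, Subgroup.mem_bot] at h7
  exact h7

end H13N
end

-- from Lib.H13N.G3
section

open NumberField IsDedekindDomain

namespace H13N

open H55B H35T

/-! Chunk G3 (M): existence of the Galois closure. -/

theorem g3_closure (L : Type) [Field L] [NumberField L] :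
    ∃ (N : Type) (_ : Field N) (_ : NumberField N) (_ : Algebra L N), IsGalois ℚ N ∧
      ∀ g : N ≃ₐ[ℚ] N, (∀ (τ : L →+* N) (x : L), g (τ x) = τ x) → g = 1 := by
  have h1 : Algebra.IsAlgebraic ℚ (AlgebraicClosure L) :=
    Algebra.IsAlgebraic.trans ℚ L (AlgebraicClosure L)
  have h2 : IsAlgClosure ℚ (AlgebraicClosure L) := ⟨inferInstance, inferInstance⟩
  have h3 : Normal ℚ (AlgebraicClosure L) := IsAlgClosure.normal ℚ (AlgebraicClosure L)
  have h0 : Nonempty (L →ₐ[ℚ] AlgebraicClosure L) := ⟨IsScalarTower.toAlgHom ℚ L _⟩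
  let N := IntermediateField.normalClosure ℚ L (AlgebraicClosure L)
  have h4 : FiniteDimensional ℚ N := normalClosure.is_finiteDimensional ℚ L _
  have h5 : NumberField N := NumberField.of_module_finite ℚ N
  have h6 : Normal ℚ N := normalClosure.normal ℚ L _
  have h7 : IsGalois ℚ N := ⟨⟩
  refine ⟨N, inferInstance, h5, normalClosure.algebra ℚ L _, ?_, ?_⟩
  · convert h7
  · intro g hg
    have h8 : IsNormalClosure ℚ L N := isNormalClosure_normalClosure ℚ L _
    have h9 := (Algebra.IsAlgebraic.isNormalClosure_iff.1 h8).2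
    rw [normalClosure_def] at h9
    have hgq : ∀ q : ℚ, g (algebraMap ℚ N q) = algebraMap ℚ N q := fun q => by
      rw [eq_ratCast, map_ratCast]
    let R : IntermediateField ℚ N :=
      { carrier := {x | g x = x}
        mul_mem' := fun {a b} ha hb => by
          show g (a * b) = a * b
          rw [map_mul, show g a = a from ha, show g b = b from hb]
        one_mem' := map_one g
        add_mem' := fun {a b} ha hb => by
          show g (a + b) = a + b
          rw [map_add, show g a = a from ha, show g b = b from hb]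
        zero_mem' := map_zero g
        algebraMap_mem' := hgq
        inv_mem' := fun a ha => by
          show g a⁻¹ = a⁻¹
          rw [map_inv₀, show g a = a from ha] }
    have h10 : (⨆ f : L →ₐ[ℚ] N, f.fieldRange) ≤ R := by
      refine iSup_le fun f => ?_
      rintro _ ⟨x, rfl⟩
      exact hg (f : L →+* N) x
    ext x
    have hx : x ∈ R := h10 (by rw [h9]; exact IntermediateField.mem_top)
    exact congrArg Subtype.val (show g x = x from hx)

theorem exists_galN (L : Type) [Field L] [NumberField L] [Algebra F L] (hG : IsGalois F L) (k : ℕ)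
    (hk : Module.finrank F L = 3 ^ k) (hU : UnrOut L) :
    ∃ (N : Type) (_ : Field N) (_ : NumberField N) (_ : Algebra F N) (_ : Algebra L N)
      (_ : IsScalarTower F L N) (m : ℕ), GalN N m := by
  obtain ⟨N, i1, i2, i3, hN, hg⟩ := g3_closure L
  let i4 : Algebra F N := ((algebraMap L N).comp (algebraMap F L)).toAlgebra
  have i5 : IsScalarTower F L N := IsScalarTower.of_algebraMap_eq fun x => rfl
  have hgen : ∀ g : N ≃ₐ[F] N, (∀ (τ : L →+* N) (x : L), g (τ x) = τ x) → g = 1 := by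
    intro g h
    have h1 := hg (g.restrictScalars ℚ) h
    ext x
    exact congrArg (fun σ : N ≃ₐ[ℚ] N => σ x) h1
  obtain ⟨m, hm⟩ := g1_pow L N hG k hk hN hgen
  exact ⟨N, i1, i2, i4, i3, i5, m, hN, hm, g2_unr L N hG hU hN hgen⟩

end H13N
end

-- from Lib.H28T.AR1
section

open NumberField IsDedekindDomain

namespace H28T

open H55P
open H55K

variable {F : Type} [Field F] [NumberField F] [IQ F]

/-- Chunk AR1 (S/M). Two embeddings of F in a number field N agree on the integers up to the conjugation cj. Take an embedding i : N →+* ℂ; i ∘ f and i ∘ g are among embF F and its conjugate (H55K.d1_emb, d1_conj_ne in H55K/D1.lean: all embeddings different from embF F agree, and the conjugate of embF F is one of them); e_cj. -/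
theorem ar1_two (N : Type) [Field N] [NumberField N] (f g : F →+* N) :
    (∀ x : F, g x = f x) ∨ ∀ x : 𝓞 F, g (x : F) = f ((cj x : 𝓞 F) : F) := by
  obtain ⟨i⟩ : Nonempty (N →+* ℂ) := inferInstance
  have key : ∀ φ : F →+* ℂ, φ = embF F ∨ φ = (starRingEnd ℂ).comp (embF F) := by
    intro φ
    by_cases h : φ = embF F
    · exact Or.inl h
    · exact Or.inr (d1_emb F φ _ h (d1_conj_ne F))
  have hcj : ∀ x : 𝓞 F, embF F ((cj x : 𝓞 F) : F) = (starRingEnd ℂ) (embF F (x : F)) := fun x => e_cj x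
  rcases key (i.comp f) with h1 | h1 <;> rcases key (i.comp g) with h2 | h2
  · left
    intro x
    apply i.injective
    exact RingHom.congr_fun (h2.trans h1.symm) x
  · right
    intro x
    apply i.injective
    have e1 : i (g (x : F)) = (starRingEnd ℂ) (embF F (x : F)) := RingHom.congr_fun h2 (x : F)
    have e2 : i (f ((cj x : 𝓞 F) : F)) = embF F ((cj x : 𝓞 F) : F) := RingHom.congr_fun h1 _
    rw [e1, e2, hcj]
  · right
    intro x
    apply i.injective
    have e1 : i (g (x : F)) = embF F (x : F) := RingHom.congr_fun h2 (x : F)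
    have e2 : i (f ((cj x : 𝓞 F) : F)) = (starRingEnd ℂ) (embF F ((cj x : 𝓞 F) : F)) :=
      RingHom.congr_fun h1 _
    rw [e1, e2, hcj, Complex.conj_conj]
  · left
    intro x
    apply i.injective
    exact RingHom.congr_fun (h2.trans h1.symm) x

theorem ar1_fix (N : Type) [Field N] [NumberField N] [Algebra F N] (a : N ≃ₐ[F] N) (j : F →+* N)
    (x : F) : a (j x) = j x := by
  rcases ar1_two N (algebraMap F N) j with h | h
  · rw [h]
    exact a.commutes _
  · obtain ⟨b, c, -, rfl⟩ := IsFractionRing.div_surjective (A := 𝓞 F) x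
    have hb : a (j (algebraMap (𝓞 F) F b)) = j (algebraMap (𝓞 F) F b) := by
      have := h b
      rw [show j (algebraMap (𝓞 F) F b) = algebraMap F N ((cj b : 𝓞 F) : F) from this]
      exact a.commutes _
    have hc : a (j (algebraMap (𝓞 F) F c)) = j (algebraMap (𝓞 F) F c) := by
      have := h c
      rw [show j (algebraMap (𝓞 F) F c) = algebraMap F N ((cj c : 𝓞 F) : F) from this]
      exact a.commutes _
    rw [map_div₀, map_div₀, hb, hc]

/-- Chunk AR1 (S/M), port of H13N.g1_restrict (H13N/G1.lean). a fixes the image of F under every embedding j : F →+* N (ar1_two for algebraMap F N and j; a fixes algebraMap F N; every element of F is a quotient of integers: or F is generated by integers: IsFractionRing / x = a / b with a, b in 𝓞 F). The rest is H13N.g1_aux. -/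
theorem ar1_restrict (L N : Type) [Field L] [NumberField L] [Algebra F L] [Field N] [NumberField N]
    [Algebra F N] (hG : IsGalois F L) (a : N ≃ₐ[F] N) (τ : L →+* N) :
    ∃ α : L ≃ₐ[F] L, ∀ x : L, a (τ x) = τ (α x) := by
  have hfix := fun x => ar1_fix N a (τ.comp (algebraMap F L)) x
  let iL : Algebra L N := τ.toAlgebra
  let iF : Algebra F N := (τ.comp (algebraMap F L)).toAlgebra
  have hT : @IsScalarTower F L N _ iL.toSMul iF.toSMul :=
    @IsScalarTower.of_algebraMap_eq F L N _ _ _ _ iL iF (fun x => rfl)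
  have hNm : Normal F L := inferInstance
  let a' : @AlgEquiv F N N _ _ _ iF iF :=
    @AlgEquiv.ofRingEquiv F N N _ _ _ iF iF (a : N ≃+* N) hfix
  exact @H13N.g1_aux F L N _ _ _ _ iF iL hT hNm a'

end H28T
end

-- from Lib.H13R.N1
section

/-! # H13R: the Selmer group with inertia conditions along a quadratic extension -/

open NumberField IsDedekindDomain WeierstrassCurve

namespace H13R

open H55P (Pt ac Inert Dec Coc SelZero)
open H13Y

/-- Chunk N1 (S/M). H13Y.cor_two (D2.lean) with Inert in place of Dec: copy its proof. The only changes: all valuation rings V (no condition V ≠ ⊤), and the group DD = elements of K.fixingSubgroup with Inert V s; it is a subgroup: there is H13S or H55P lemma inS / decS (H55P/S13 or S14: grep inS, Inert; inS F V is the inertia group as a subgroup, so DD = K.fixingSubgroup ⊓ H55P.inS k V, membership Iff.rfl as in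
H55K/NA5.lean hI). For s in K₁.fixingSubgroup with Inert V s: τ⁻¹ s τ lies in the inertia group of V' = V.comap τ: for x in V' (τ x in V): V'.valuation (τ⁻¹ s τ x - x) < 1 iff V.valuation (s τ x - τ x) < 1 (see hlt in H55P/Z12.lean: lt1_iff, ValuationSubring.mem_comap). -/
theorem cor_twoI {k : Type} [Field k] {Ω : Type} [Field Ω] [DecidableEq Ω] [Algebra k Ω] [IsAlgClosure k Ω]
    [CharZero k] (W : WeierstrassCurve k) {p : ℕ} (hp : p % 2 = 1) {K K₁ : IntermediateField k Ω}
    [FiniteDimensional k K₁] (hK : K ≤ K₁) (hn : ∀ s ∈ K.fixingSubgroup, ∀ x ∈ K₁, s x ∈ K₁)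
    {τ : Ω ≃ₐ[k] Ω} (hτ : τ ∈ K.fixingSubgroup) (hτ1 : τ ∉ K₁.fixingSubgroup)
    (h2 : ∀ s ∈ K.fixingSubgroup, s ∉ K₁.fixingSubgroup → s * τ ∈ K₁.fixingSubgroup ∧
      τ⁻¹ * s ∈ K₁.fixingSubgroup)
    {d : (Ω ≃ₐ[k] Ω) → Pt W Ω} (hd : Coc W K₁ d) (hpd : ∀ s ∈ K₁.fixingSubgroup, p • d s = 0)
    (hV : ∀ V : ValuationSubring Ω, ∃ P : Pt W Ω, ∀ s ∈ K₁.fixingSubgroup, Inert V s →
      d s = ac W s P - P) :
    ∃ C : (Ω ≃ₐ[k] Ω) → Pt W Ω, Coc W K C ∧ (∀ s ∈ K.fixingSubgroup, p • C s = 0) ∧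
      (∀ V : ValuationSubring Ω, ∃ P : Pt W Ω, ∀ s ∈ K.fixingSubgroup, Inert V s →
        C s = ac W s P - P) ∧
      ∀ s ∈ K₁.fixingSubgroup, C s = d s + ac W τ (d (τ⁻¹ * s * τ)) := by
  classical
  have hle : K₁.fixingSubgroup ≤ K.fixingSubgroup := IntermediateField.fixingSubgroup_antitone hK
  have hnor : ∀ s ∈ K.fixingSubgroup, ∀ t ∈ K₁.fixingSubgroup, s⁻¹ * t * s ∈ K₁.fixingSubgroup := by
    intro s hs t ht
    rw [IntermediateField.mem_fixingSubgroup_iff] at ht ⊢
    intro x hx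
    have e : (s⁻¹ * t * s) x = s⁻¹ (t (s x)) := rfl
    rw [e, ht _ (hn s hs x hx)]
    exact s.symm_apply_apply x
  have hτi : ∀ t ∈ K₁.fixingSubgroup, τ⁻¹ * t * τ ∈ K₁.fixingSubgroup := hnor τ hτ
  obtain ⟨C, hC⟩ : ∃ C : (Ω ≃ₐ[k] Ω) → Pt W Ω, ∀ s, C s = if s ∈ K₁.fixingSubgroup then
      d s + ac W τ (d (τ⁻¹ * s * τ)) else ac W τ (d (τ⁻¹ * s)) + d (s * τ) := ⟨_, fun _ => rfl⟩
  have hCy : ∀ s ∈ K₁.fixingSubgroup, C s = d s + ac W τ (d (τ⁻¹ * s * τ)) := by
    intro s hs
    rw [hC, if_pos hs]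
  have hCn : ∀ s, s ∉ K₁.fixingSubgroup → C s = ac W τ (d (τ⁻¹ * s)) + d (s * τ) := by
    intro s hs
    rw [hC, if_neg hs]
  have hmul : ∀ s ∈ K.fixingSubgroup, ∀ t ∈ K.fixingSubgroup, C (s * t) = C s + ac W s (C t) := by
    intro s hs t ht
    by_cases hs1 : s ∈ K₁.fixingSubgroup
    · by_cases ht1 : t ∈ K₁.fixingSubgroup
      · rw [hCy _ (mul_mem hs1 ht1), hCy _ hs1, hCy _ ht1, hd.mul s hs1 t ht1]
        have e : τ⁻¹ * (s * t) * τ = (τ⁻¹ * s * τ) * (τ⁻¹ * t * τ) := by group
        rw [e, hd.mul _ (hτi s hs1) _ (hτi t ht1), map_add, map_add, ← YD2_mul, ← YD2_mul]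
        have e2 : τ * (τ⁻¹ * s * τ) = s * τ := by group
        rw [e2]
        abel
      · obtain ⟨h3, h4⟩ := h2 t ht ht1
        have hst : s * t ∉ K₁.fixingSubgroup := fun h => ht1 ((Subgroup.mul_mem_cancel_left _ hs1).1 h)
        rw [hCn _ hst, hCy _ hs1, hCn _ ht1]
        have e1 : τ⁻¹ * (s * t) = (τ⁻¹ * s * τ) * (τ⁻¹ * t) := by group
        have e2 : s * t * τ = s * (t * τ) := by group
        rw [e1, e2, hd.mul _ (hτi s hs1) _ h4, hd.mul _ hs1 _ h3, map_add, map_add, ← YD2_mul, ← YD2_mul]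
        have e3 : τ * (τ⁻¹ * s * τ) = s * τ := by group
        rw [e3]
        abel
    · obtain ⟨h3, h4⟩ := h2 s hs hs1
      by_cases ht1 : t ∈ K₁.fixingSubgroup
      · have hst : s * t ∉ K₁.fixingSubgroup := fun h => hs1 ((Subgroup.mul_mem_cancel_right _ ht1).1 h)
        rw [hCn _ hst, hCn _ hs1, hCy _ ht1]
        have e1 : τ⁻¹ * (s * t) = (τ⁻¹ * s) * t := by group
        have e2 : s * t * τ = (s * τ) * (τ⁻¹ * t * τ) := by group
        rw [e1, e2, hd.mul _ h4 _ ht1, hd.mul _ h3 _ (hτi t ht1), map_add, map_add, ← YD2_mul, ← YD2_mul]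
        have e3 : τ * (τ⁻¹ * s) = s := by group
        rw [e3]
        abel
      · obtain ⟨h5, h6⟩ := h2 t ht ht1
        have hst : s * t ∈ K₁.fixingSubgroup := by
          have e : s * t = (s * τ) * (τ⁻¹ * t) := by group
          rw [e]
          exact mul_mem h3 h6
        rw [hCy _ hst, hCn _ hs1, hCn _ ht1]
        have e1 : s * t = (s * τ) * (τ⁻¹ * t) := by group
        have e2 : τ⁻¹ * (s * t) * τ = (τ⁻¹ * s) * (t * τ) := by group
        rw [e2, e1, hd.mul _ h3 _ h6, hd.mul _ h4 _ h5, map_add, map_add, ← YD2_mul, ← YD2_mul]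
        have e3 : τ * (τ⁻¹ * s) = s := by group
        rw [e3]
        abel
  have hpC : ∀ s ∈ K.fixingSubgroup, p • C s = 0 := by
    intro s hs
    by_cases hs1 : s ∈ K₁.fixingSubgroup
    · rw [hCy _ hs1, smul_add, ← map_nsmul, hpd s hs1, hpd _ (hτi s hs1), map_zero, add_zero]
    · obtain ⟨h3, h4⟩ := h2 s hs hs1
      rw [hCn _ hs1, smul_add, ← map_nsmul, hpd _ h3, hpd _ h4, map_zero, add_zero]
  refine ⟨C, ⟨hmul, ?_⟩, hpC, ?_, hCy⟩
  · obtain ⟨L, hL, hLd⟩ := hd.cont
    let em := IntermediateField.intermediateFieldMap τ L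
    have hLm : FiniteDimensional k (L.map τ.toAlgHom) := Module.Finite.equiv em.toLinearEquiv
    refine ⟨(L ⊔ K₁) ⊔ L.map τ.toAlgHom, IntermediateField.finiteDimensional_sup _ _, fun s hs hsL => ?_⟩
    rw [IntermediateField.fixingSubgroup_sup, IntermediateField.fixingSubgroup_sup] at hsL
    obtain ⟨⟨hs1, hs2⟩, hs3⟩ := hsL
    have h7 : τ⁻¹ * s * τ ∈ L.fixingSubgroup := by
      rw [IntermediateField.mem_fixingSubgroup_iff]
      intro x hx
      have e : (τ⁻¹ * s * τ) x = τ⁻¹ (s (τ x)) := rfl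
      have h8 : s (τ x) = τ x := (IntermediateField.mem_fixingSubgroup_iff _ s).1 hs3 (τ x) ⟨x, hx, rfl⟩
      rw [e, h8]
      exact τ.symm_apply_apply x
    rw [hCy s hs2, hLd s hs2 hs1, hLd _ (hτi s hs2) h7, map_zero, add_zero]
  · intro V
    obtain ⟨P, hP⟩ := hV V
    have hm : ∀ x, x ∈ V.comap (τ : Ω →+* Ω) ↔ τ x ∈ V := fun x => ValuationSubring.mem_comap
    have hlt : ∀ x, (V.comap (τ : Ω →+* Ω)).valuation x < 1 ↔ V.valuation (τ x) < 1 := by
      intro x
      rw [H55P.lt1_iff, H55P.lt1_iff, hm, map_inv₀]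
      simp
    obtain ⟨P', hP'⟩ := hV (V.comap (τ : Ω →+* Ω))
    let DD : Subgroup (Ω ≃ₐ[k] Ω) := K.fixingSubgroup ⊓ H55P.inS k V
    have hDD : ∀ s, s ∈ DD ↔ s ∈ K.fixingSubgroup ∧ Inert V s := fun _ => Iff.rfl
    have hnD : ∀ s ∈ DD, s ∉ DD ⊓ K₁.fixingSubgroup → s ∉ K₁.fixingSubgroup :=
      fun s hs h h' => h (Subgroup.mem_inf.2 ⟨hs, h'⟩)
    have hcob := cob_two (fun s : Ω ≃ₐ[k] Ω => ac W s) (YD2_one W) (fun s t m => YD2_mul W s t m) DD
      (DD ⊓ K₁.fixingSubgroup) inf_le_left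
      (fun s hs t ht => Subgroup.mem_inf.2 ⟨mul_mem (mul_mem (inv_mem hs) ht.1) hs,
        hnor s hs.1 t ht.2⟩)
      (fun s hs hs' t ht ht' => Subgroup.mem_inf.2 ⟨mul_mem hs (inv_mem ht), by
        have e : s * t⁻¹ = (s * τ) * (t * τ)⁻¹ := by group
        rw [e]
        exact mul_mem (h2 s hs.1 (hnD s hs hs')).1 (inv_mem (h2 t ht.1 (hnD t ht ht')).1)⟩)
      (fun s hs hs' => Subgroup.mem_inf.2 ⟨mul_mem hs hs, by
        have e : s * s = (s * τ) * (τ⁻¹ * s) := by group
        rw [e]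
        exact mul_mem (h2 s hs.1 (hnD s hs hs')).1 (h2 s hs.1 (hnD s hs hs')).2⟩)
      C (fun s hs t ht => hmul s hs.1 t ht.1) hp (fun s hs => hpC s hs.1)
      ⟨P + ac W τ P', fun s hs => by
        have hs1 : s ∈ K₁.fixingSubgroup := hs.2
        have hdec : Inert V s := hs.1.2
        have h8 : Inert (V.comap (τ : Ω →+* Ω)) (τ⁻¹ * s * τ) := by
          intro x hx
          rw [hlt, map_sub]
          have e : τ ((τ⁻¹ * s * τ) x) = s (τ x) := τ.apply_symm_apply _
          rw [e]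
          exact hdec (τ x) ((hm x).1 hx)
        rw [hCy s hs1, hP s hs1 hdec, hP' _ (hτi s hs1) h8, map_sub, map_add, ← YD2_mul, ← YD2_mul]
        have e3 : τ * (τ⁻¹ * s * τ) = s * τ := by group
        rw [e3]
        abel⟩
    obtain ⟨R, hR⟩ := hcob
    exact ⟨R, fun s hs hs' => hR s ⟨hs, hs'⟩⟩

end H13R
end

-- from Lib.H13R.N2
section

/-! # H13R: vanishing of the Selmer group along a quadratic extension -/

open NumberField IsDedekindDomain WeierstrassCurve

namespace H13R

open H55P (Pt ac Inert Dec Coc SelZero)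
open H13Y

/-- Chunk N2 (S/M). Port of H55K.TQ.nk_desc (NK1.lean), which is the contrapositive with the local conditions Dec: given a class c over K₁ (Coc W K₁ c, p • c = 0, inertia conditions for all V) find T. Case 1: all s in K.fixingSubgroup fix ω: K and K₁ have the same fixing subgroups and h applies to c itself (hypotheses and conclusion restricted with hiff).
Case 2: τ as there; cor_twoI (N1.lean) for c and for S ∘ c (S commutes with ac W s if s ω = ω: h1) gives C₁, C₂, both satisfy the hypotheses of h (SelZero W p K): T₁, T₂; the rest of the proof of nk_desc (Y = S (S T₁ + T₂), hmain, hcop) gives T = (-u) • Y. -/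
theorem nk_descI {k : Type} [Field k] {Ω : Type} [Field Ω] [DecidableEq Ω] [Algebra k Ω] [IsAlgClosure k Ω]
    [CharZero k] (W : WeierstrassCurve k) {p : ℕ} (hp : p.Prime) (hp2 : p ≠ 2)
    {K K₁ : IntermediateField k Ω} [FiniteDimensional k K₁] (hK : K ≤ K₁)
    (hn : ∀ s ∈ K.fixingSubgroup, ∀ x ∈ K₁, s x ∈ K₁) (S : Pt W Ω →+ Pt W Ω) (d : ℕ) (hd : ¬ p ∣ d)
    (hS : ∀ P, S (S P) = -(d • P)) (ω ω' : Ω)
    (hω : ∀ s ∈ K.fixingSubgroup, s ∈ K₁.fixingSubgroup ↔ s ω = ω)
    (hω2 : ∀ s : Ω ≃ₐ[k] Ω, s ω = ω ∨ s ω = ω') (hω3 : ∀ s : Ω ≃ₐ[k] Ω, s ω = ω' → s ω' = ω)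
    (h1 : ∀ s : Ω ≃ₐ[k] Ω, s ω = ω → ∀ P, ac W s (S P) = S (ac W s P))
    (h2 : ∀ s : Ω ≃ₐ[k] Ω, s ω ≠ ω → ∀ P, ac W s (S P) = -S (ac W s P)) (h : SelZero W p K) :
    SelZero W p K₁ := by
  have hle : K₁.fixingSubgroup ≤ K.fixingSubgroup := IntermediateField.fixingSubgroup_antitone hK
  intro c hc hpc hV
  by_cases hall : ∀ s ∈ K.fixingSubgroup, s ω = ω
  · have hiff : ∀ s, s ∈ K.fixingSubgroup ↔ s ∈ K₁.fixingSubgroup :=
      fun s => ⟨fun hs => (hω s hs).2 (hall s hs), fun hs => hle hs⟩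
    obtain ⟨T, hT1, hT2⟩ := h c ⟨fun s hs t ht => hc.mul s ((hiff s).1 hs) t ((hiff t).1 ht), by
      obtain ⟨L, hL, h3⟩ := hc.cont
      exact ⟨L, hL, fun s hs => h3 s ((hiff s).1 hs)⟩⟩ (fun s hs => hpc s ((hiff s).1 hs)) (fun V => by
      obtain ⟨P, hP⟩ := hV V
      exact ⟨P, fun s hs => hP s ((hiff s).1 hs)⟩)
    exact ⟨T, hT1, fun s hs => hT2 s ((hiff s).2 hs)⟩
  push Not at hall
  obtain ⟨τ, hτ, hτω⟩ := hall
  have hτ1 : τ ∉ K₁.fixingSubgroup := fun h => hτω ((hω τ hτ).1 h)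
  have hτ' : τ ω = ω' := (hω2 τ).resolve_left hτω
  have h22 : ∀ s ∈ K.fixingSubgroup, s ∉ K₁.fixingSubgroup → s * τ ∈ K₁.fixingSubgroup ∧
      τ⁻¹ * s ∈ K₁.fixingSubgroup := by
    intro s hs hs1
    have hsω : s ω = ω' := (hω2 s).resolve_left fun h => hs1 ((hω s hs).2 h)
    constructor
    · refine (hω _ (mul_mem hs hτ)).2 ?_
      show s (τ ω) = ω
      rw [hτ']
      exact hω3 s hsω
    · refine (hω _ (mul_mem (inv_mem hτ) hs)).2 ?_
      show τ⁻¹ (s ω) = ω
      rw [hsω, ← hτ']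
      exact τ.symm_apply_apply ω
  have hfixω : ∀ s ∈ K₁.fixingSubgroup, s ω = ω := fun s hs => (hω s (hle hs)).1 hs
  have hp2' : p % 2 = 1 := by
    rcases hp.eq_two_or_odd with h3 | h3
    · exact absurd h3 hp2
    · exact h3
  obtain ⟨C₁, a1, a2, a3, a4⟩ := cor_twoI W hp2' hK hn hτ hτ1 h22 hc hpc hV
  have hSc : Coc W K₁ fun s => S (c s) := by
    refine ⟨fun s hs t ht => ?_, ?_⟩
    · rw [hc.mul s hs t ht, map_add, h1 s (hfixω s hs)]
    · obtain ⟨L, hL, h3⟩ := hc.cont
      exact ⟨L, hL, fun s hs hs' => by rw [h3 s hs hs', map_zero]⟩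
  obtain ⟨C₂, b1, b2, b3, b4⟩ := cor_twoI W hp2' hK hn hτ hτ1 h22 hSc
    (fun s hs => by rw [← map_nsmul, hpc s hs, map_zero]) (fun V => by
      obtain ⟨P, hP⟩ := hV V
      exact ⟨S P, fun s hs hs' => by rw [hP s hs hs', map_sub, h1 s (hfixω s hs)]⟩)
  obtain ⟨T₁, hT₁, hT₁'⟩ := h C₁ a1 a2 a3
  obtain ⟨T₂, hT₂, hT₂'⟩ := h C₂ b1 b2 b3
  obtain ⟨Y, hY⟩ : ∃ Y, Y = S (S T₁ + T₂) := ⟨_, rfl⟩
  have hpY : p • Y = 0 := by
    rw [hY, ← map_nsmul, smul_add, ← map_nsmul, hT₁, hT₂, map_zero, add_zero, map_zero]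
  have hmain : ∀ s ∈ K₁.fixingSubgroup, -((2 * d) • c s) = ac W s Y - Y := by
    intro s hs
    have e1 := a4 s hs
    have e2 := b4 s hs
    rw [hT₁' s (hle hs)] at e1
    rw [hT₂' s (hle hs), h2 τ hτω] at e2
    have e3 := congrArg S e1
    rw [map_sub, map_add, ← h1 s (hfixω s hs)] at e3
    have e4 : S (c s) + S (c s) = ac W s (S T₁ + T₂) - (S T₁ + T₂) := by
      rw [map_add]
      have e5 : ac W s (S T₁) + ac W s T₂ - (S T₁ + T₂) = (ac W s (S T₁) - S T₁) + (ac W s T₂ - T₂) := by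
        abel
      rw [e5, e3, e2]
      abel
    have e6 := congrArg S e4
    rw [map_add, hS, map_sub, ← h1 s (hfixω s hs), ← hY] at e6
    rw [← e6, two_mul, add_smul]
    abel
  have hcop : IsCoprime ((p : ℕ) : ℤ) (((2 * d : ℕ)) : ℤ) := by
    have h3 : Nat.Coprime p (2 * d) := by
      rw [Nat.Prime.coprime_iff_not_dvd hp]
      intro h4
      rcases (Nat.Prime.dvd_mul hp).1 h4 with h5 | h5
      · exact hp2 ((Nat.prime_dvd_prime_iff_eq hp Nat.prime_two).1 h5)
      · exact hd h5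
    exact Nat.isCoprime_iff_coprime.2 h3
  obtain ⟨v, u, huv⟩ := hcop
  refine ⟨(-u) • Y, ?_, fun s hs => ?_⟩
  · rw [smul_comm, hpY, smul_zero]
  · have h3 : c s = (v * (p : ℤ) + u * ((2 * d : ℕ) : ℤ)) • c s := by rw [huv, one_smul]
    have h4 : (v * (p : ℤ)) • c s = 0 := by
      rw [mul_smul, natCast_zsmul, hpc s hs, smul_zero]
    have h5 : (u * ((2 * d : ℕ) : ℤ)) • c s = (-u) • (-((2 * d) • c s)) := by
      rw [mul_smul, neg_smul, smul_neg, neg_neg, natCast_zsmul]
    rw [h3, add_smul, h4, zero_add, h5, hmain s hs, smul_sub, map_zsmul]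

end H13R
end

-- from Lib.H28I.N0
section

/-! # H28I, part N: the l-adic valuation of the rational numbers -/

open NumberField IsDedekindDomain WeierstrassCurve

namespace H28I

open H55P (IQ embF eF LF Per IsHecke Pt ac Inert Dec Nm)
open H35P (WAB Ker tt GoodW IntW)
open H55K (xc yc)
open H13D

variable {l : ℕ} [Fact l.Prime]

theorem n0_int {n : ℤ} : Rat.padicValuation l (n : ℚ) = 1 ↔ ¬ (l : ℤ) ∣ n := by
  rw [Rat.padicValuation_cast]
  exact Int.padicValuation_eq_one_iff

theorem n0_int_le (n : ℤ) : Rat.padicValuation l (n : ℚ) ≤ 1 := by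
  rw [Rat.padicValuation_cast]
  exact Int.padicValuation_le_one l n

/-- Chunk N0 (S). Rat.padicValuation_le_one_iff; x = num/den, the value of an integer is 1 iff l does not divide it (Int.padicValuation_eq_one_iff, Rat.padicValuation_cast). -/
theorem val_one_iff (x : ℚ) : Rat.padicValuation l x = 1 ↔ ¬ (l : ℤ) ∣ x.num ∧ ¬ l ∣ x.den := by
  constructor
  · intro h
    have h1 : ¬ l ∣ x.den := Rat.padicValuation_le_one_iff.1 h.le
    refine ⟨?_, h1⟩
    have h2 : Rat.padicValuation l ((x.den : ℤ) : ℚ) = 1 := n0_int.2 (fun h' => h1 (Int.natCast_dvd_natCast.1 h'))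
    have h3 : ((x.num : ℤ) : ℚ) = x * ((x.den : ℤ) : ℚ) := by
      have := Rat.mul_den_eq_num x
      push_cast
      exact this.symm
    apply n0_int.1
    rw [h3, map_mul, h, h2, one_mul]
  · rintro ⟨h1, h2⟩
    have h3 : Rat.padicValuation l ((x.den : ℤ) : ℚ) = 1 := n0_int.2 (fun h' => h2 (Int.natCast_dvd_natCast.1 h'))
    have h4 : Rat.padicValuation l ((x.num : ℤ) : ℚ) = 1 := n0_int.2 h1
    have h5 : ((x.num : ℤ) : ℚ) = x * ((x.den : ℤ) : ℚ) := by
      have := Rat.mul_den_eq_num x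
      push_cast
      exact this.symm
    rw [h5, map_mul, h3, mul_one] at h4
    exact h4

/-- Chunk N0 (S). -/
theorem intL_iff (E : WeierstrassCurve ℚ) : IntL E l ↔ H13D.VI (Rat.padicValuation l) E ∧ Rat.padicValuation l E.Δ = 1 := by
  constructor
  · rintro ⟨h1, h2, h3, h4, h6, h7, h8⟩
    exact ⟨⟨Rat.padicValuation_le_one_iff.2 h1, Rat.padicValuation_le_one_iff.2 h2, Rat.padicValuation_le_one_iff.2 h3,
      Rat.padicValuation_le_one_iff.2 h4, Rat.padicValuation_le_one_iff.2 h6⟩, (val_one_iff _).2 ⟨h7, h8⟩⟩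
  · rintro ⟨⟨h1, h2, h3, h4, h6⟩, h⟩
    obtain ⟨h7, h8⟩ := (val_one_iff _).1 h
    exact ⟨Rat.padicValuation_le_one_iff.1 h1, Rat.padicValuation_le_one_iff.1 h2, Rat.padicValuation_le_one_iff.1 h3,
      Rat.padicValuation_le_one_iff.1 h4, Rat.padicValuation_le_one_iff.1 h6, h7, h8⟩

/-- Chunk N0 (S/M). x = a/b, l does not divide b: an integer z with b z congruent to a modulo l^m (b is a unit modulo l^m): (z - x)/l^m = ((b z - a)/l^m)/b. -/
theorem approx_int {x : ℚ} (hx : Rat.padicValuation l x ≤ 1) (m : ℕ) : ∃ z : ℤ, Rat.padicValuation l (((z : ℚ) - x) / (l : ℚ) ^ m) ≤ 1 := by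
  have h1 : ¬ l ∣ x.den := Rat.padicValuation_le_one_iff.1 hx
  have h1' : ¬ (l : ℤ) ∣ (x.den : ℤ) := fun h' => h1 (Int.natCast_dvd_natCast.1 h')
  have hl : Prime (l : ℤ) := Nat.prime_iff_prime_int.1 (Fact.out : l.Prime)
  have hco : IsCoprime (x.den : ℤ) ((l : ℤ) ^ m) := by
    apply IsCoprime.pow_right
    exact ((Prime.coprime_iff_not_dvd hl).2 h1').symm
  obtain ⟨p, q, hpq⟩ := hco
  refine ⟨p * x.num, ?_⟩
  have hb : (x.den : ℚ) ≠ 0 := by exact_mod_cast x.den_ne_zero
  have hlq : (l : ℚ) ≠ 0 := by exact_mod_cast (Fact.out : l.Prime).ne_zero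
  have hpq' : (p : ℚ) * (x.den : ℚ) + (q : ℚ) * (l : ℚ) ^ m = 1 := by exact_mod_cast hpq
  have hxd : x * (x.den : ℚ) = (x.num : ℚ) := Rat.mul_den_eq_num x
  have e : (((p * x.num : ℤ) : ℚ) - x) / (l : ℚ) ^ m = (((- (x.num * q) : ℤ)) : ℚ) / ((x.den : ℤ) : ℚ) := by
    rw [div_eq_div_iff (pow_ne_zero _ hlq) (by push_cast; exact hb)]
    push_cast
    rw [← hxd]
    linear_combination (x * (x.den : ℚ)) * hpq'
  rw [e, map_div₀, n0_int.2 h1', div_one]
  exact n0_int_le _

/-- Chunk N0 (S). x = n/l^m and l does not divide the denominator of x: the denominator divides l^m, so it is 1. -/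
theorem int_of_val {n : ℤ} {m : ℕ} {x : ℚ} (hx : x * (l : ℚ) ^ m = n) (hv : Rat.padicValuation l x ≤ 1) : ∃ z : ℤ, x = z := by
  have h1 : ¬ l ∣ x.den := Rat.padicValuation_le_one_iff.1 hv
  have h2 : x.num * (l : ℤ) ^ m = n * (x.den : ℤ) := by
    have hxd : x * (x.den : ℚ) = (x.num : ℚ) := Rat.mul_den_eq_num x
    have : (x.num : ℚ) * (l : ℚ) ^ m = (n : ℚ) * (x.den : ℚ) := by
      rw [← hxd, ← hx]
      ring
    exact_mod_cast this
  have h3 : (x.den : ℤ) ∣ x.num * (l : ℤ) ^ m := ⟨n, by rw [h2]; ring⟩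
  have h4 : IsCoprime (x.den : ℤ) x.num := by
    have := x.reduced
    rw [Int.isCoprime_iff_gcd_eq_one, Int.gcd_comm]
    exact this
  have h5 : (x.den : ℤ) ∣ (l : ℤ) ^ m := h4.dvd_of_dvd_mul_left h3
  have h6 : x.den ∣ l ^ m := by exact_mod_cast h5
  have h7 : x.den = 1 := by
    obtain ⟨j, _, hj⟩ := (Nat.dvd_prime_pow (Fact.out : l.Prime)).1 h6
    rcases Nat.eq_zero_or_pos j with h | h
    · rw [hj, h, pow_zero]
    · exact absurd (hj ▸ dvd_pow_self l h.ne') h1
  exact ⟨x.num, (Rat.den_eq_one_iff _).1 h7 |>.symm⟩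

/-- Chunk N0 (S/M). A nonzero rational number of value < 1 is l^k ε with k ≥ 1 and ε of value 1 (padicValRat; Rat.padicValuation is exp (- padicValRat)). -/
theorem split_val {x : ℚ} (h0 : x ≠ 0) (hx : Rat.padicValuation l x < 1) : ∃ (k : ℕ) (ε : ℚ), 0 < k ∧ Rat.padicValuation l ε = 1 ∧ x = (l : ℚ) ^ k * ε := by
  have hlq : (l : ℚ) ≠ 0 := by exact_mod_cast (Fact.out : l.Prime).ne_zero
  have hxv : Rat.padicValuation l x = WithZero.exp (-padicValRat l x) := by
    simp [Rat.padicValuation, h0]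
  rw [hxv, ← WithZero.exp_zero, WithZero.exp_lt_exp] at hx
  have hk : 0 < padicValRat l x := by linarith
  refine ⟨(padicValRat l x).toNat, x / (l : ℚ) ^ (padicValRat l x).toNat, by omega, ?_, ?_⟩
  · rw [map_div₀, map_pow, Rat.padicValuation_self, hxv, ← WithZero.exp_nsmul]
    have : ((padicValRat l x).toNat • (-1 : ℤ)) = -padicValRat l x := by
      rw [nsmul_eq_mul, Int.toNat_of_nonneg hk.le]
      ring
    rw [this]
    exact div_self WithZero.exp_ne_zero
  · field_simp

end H28I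
end

-- from Lib.H55K.FC1
section

/-! # H55K: complex numbers which are integral above a prime -/

open NumberField IsDedekindDomain WeierstrassCurve

namespace H55K.TQ

open H55P (IQ embF eF LF Per IsHecke Pt ac Inert Dec Nm UnitP)
open H35P (WAB Ker tt GoodW IntW)
open H55K.MG (VC Crd)

/-- Chunk FC1 (M). Suppose x ≠ 0. In the subring A = Algebra.adjoin ℤ {x⁻¹} of ℂ the ideal (p, x⁻¹) is everything: otherwise Ideal.image_subset_nonunits_valuationSubring gives V containing A with V(p) < 1 and V(x⁻¹) < 1, so V(x) > 1 (see H55P.exists_above_p in Z6.lean). So 1 = p a(x⁻¹) + x⁻¹ b(x⁻¹) with a, b in ℤ[X]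
(Algebra.adjoin_singleton_eq_range_aeval): the polynomial p a + X b - 1 is not zero (its value at 0 is p a(0) - 1, p ≥ 2) and x⁻¹ is a root: x⁻¹ is algebraic, so x is. -/
theorem alg_of_int {p : ℕ} (hp : p.Prime) {x : ℂ} (h : ∀ V : ValuationSubring ℂ, V.valuation (p : ℂ) < 1 → x ∈ V) : IsAlgebraic ℤ x := by
  by_cases hx : x = 0
  · rw [hx]
    exact isAlgebraic_zero
  let φ : Polynomial ℤ →+* ℂ := (Polynomial.aeval (R := ℤ) x⁻¹).toRingHom
  have hφC : φ (Polynomial.C (p : ℤ)) = (p : ℂ) := by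
    show Polynomial.aeval x⁻¹ (Polynomial.C (p : ℤ)) = (p : ℂ)
    rw [Polynomial.aeval_C]
    simp
  have hφX : φ Polynomial.X = x⁻¹ := Polynomial.aeval_X x⁻¹
  let A : Subring ℂ := φ.range
  let tp : A := ⟨p, ⟨Polynomial.C (p : ℤ), hφC⟩⟩
  let tx : A := ⟨x⁻¹, ⟨Polynomial.X, hφX⟩⟩
  by_cases hI : Ideal.span {tp, tx} = ⊤
  · have h1 : (1 : A) ∈ Ideal.span {tp, tx} := by rw [hI]; trivial
    rw [Ideal.mem_span_pair] at h1
    obtain ⟨⟨a, ⟨P, hP⟩⟩, ⟨b, ⟨Q, hQ⟩⟩, hab⟩ := h1
    have h2 : a * (p : ℂ) + b * x⁻¹ = 1 := congrArg Subtype.val hab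
    have h3 : IsAlgebraic ℤ x⁻¹ := by
      refine ⟨P * Polynomial.C (p : ℤ) + Q * Polynomial.X - 1, ?_, ?_⟩
      · intro h0
        have h4 := congrArg (fun f : Polynomial ℤ => f.coeff 0) h0
        simp only [Polynomial.coeff_sub, Polynomial.coeff_add, Polynomial.mul_coeff_zero,
          Polynomial.coeff_C_zero, Polynomial.coeff_X_zero, mul_zero, add_zero,
          Polynomial.coeff_one_zero, Polynomial.coeff_zero] at h4
        have h5 : (p : ℤ) ∣ 1 := ⟨P.coeff 0, by linarith⟩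
        have h6 : (p : ℤ) ≤ 1 := Int.le_of_dvd one_pos h5
        have h7 := hp.two_le
        omega
      · show φ (P * Polynomial.C (p : ℤ) + Q * Polynomial.X - 1) = 0
        rw [map_sub, map_add, map_mul, map_mul, map_one, hφC, hφX, hP, hQ, h2, sub_self]
    exact IsAlgebraic.inv_iff.mp h3
  · exfalso
    obtain ⟨B, -, hB⟩ := Ideal.image_subset_nonunits_valuationSubring (Ideal.span {tp, tx}) hI
    have hBp : B.valuation (p : ℂ) < 1 := by
      rw [← ValuationSubring.mem_nonunits_iff]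
      exact hB ⟨tp, Ideal.subset_span (by simp), rfl⟩
    have hBx : B.valuation x⁻¹ < 1 := by
      rw [← ValuationSubring.mem_nonunits_iff]
      exact hB ⟨tx, Ideal.subset_span (by simp), rfl⟩
    have hxB : B.valuation x ≤ 1 := (B.valuation_le_one_iff x).mpr (h B hBp)
    have h1 : B.valuation x * B.valuation x⁻¹ = 1 := by
      rw [← map_mul, mul_inv_cancel₀ hx, map_one]
    have h2 : B.valuation x * B.valuation x⁻¹ < 1 := by
      rw [mul_comm]
      exact mul_lt_one_of_lt_of_le hBx hxB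
    rw [h1] at h2
    exact lt_irrefl _ h2

theorem fc1_int {z : ℂ} (hz : IsIntegral ℤ z) (V : ValuationSubring ℂ) : V.valuation z ≤ 1 := by
  have h3 : IsIntegral V z := hz.tower_top
  obtain ⟨t, ht⟩ := IsIntegrallyClosed.isIntegral_iff.1 h3
  rw [← ht]
  exact V.valuation_le_one t

theorem fc1_one {p : ℕ} (hp : p.Prime) (V : ValuationSubring ℂ) (hV : V.valuation (p : ℂ) < 1)
    (n : ℤ) (hn : ¬ (p : ℤ) ∣ n) : V.valuation (n : ℂ) = 1 := by
  have hint : ∀ k : ℤ, V.valuation (k : ℂ) ≤ 1 := fun k => by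
    have h := V.valuation_le_one (k : V)
    exact_mod_cast h
  have h1 : IsCoprime (p : ℤ) n := (Nat.prime_iff_prime_int.mp hp).coprime_iff_not_dvd.mpr hn
  obtain ⟨a, b, h⟩ := h1
  refine le_antisymm (hint n) ?_
  by_contra hcon
  push Not at hcon
  have h2 : (1 : ℂ) = (a : ℂ) * (p : ℂ) + (b : ℂ) * (n : ℂ) := by
    exact_mod_cast h.symm
  have h3 : V.valuation (1 : ℂ) < 1 := by
    rw [h2]
    refine lt_of_le_of_lt (V.valuation.map_add _ _) (max_lt ?_ ?_)
    · rw [map_mul, mul_comm]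
      exact mul_lt_one_of_lt_of_le hV (hint a)
    · rw [map_mul, mul_comm]
      exact mul_lt_one_of_lt_of_le hcon (hint b)
  rw [map_one] at h3
  exact lt_irrefl _ h3

/-- Chunk FC1 (S/M). exists_integral_multiple: n x and n' x⁻¹ are algebraic integers, n, n' ≠ 0 integers; algebraic integers are in all valuation rings (PT1_int style, or ValuationSubring: integrally closed), and V(n) = 1 if p does not divide n (H55P.val_nat). So UnitP p x for all p not dividing n n'. -/
theorem unit_almost {x : ℂ} (hx : x ≠ 0) (h : IsAlgebraic ℤ x) : {p : ℕ | p.Prime ∧ ¬ UnitP p x}.Finite := by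
  obtain ⟨n, hn, hnx⟩ := h.exists_integral_multiple
  obtain ⟨m, hm, hmx⟩ := h.inv.exists_integral_multiple
  have hfin : {p : ℕ | p ∣ (n * m).natAbs}.Finite :=
    Set.Finite.subset (Finset.finite_toSet ((n * m).natAbs.divisors)) fun p hp => by
      simp only [Finset.mem_coe, Nat.mem_divisors]
      exact ⟨hp, Int.natAbs_ne_zero.mpr (mul_ne_zero hn hm)⟩
  refine hfin.subset ?_
  rintro p ⟨hp, hU⟩
  by_contra hcon
  apply hU
  intro V hV
  have hdn : ¬ (p : ℤ) ∣ n := fun h1 => hcon (Int.natCast_dvd.mp (h1.mul_right m))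
  have hdm : ¬ (p : ℤ) ∣ m := fun h1 => hcon (Int.natCast_dvd.mp (h1.mul_left n))
  have h1 := fc1_int hnx V
  have h2 := fc1_int hmx V
  rw [zsmul_eq_mul, map_mul, fc1_one hp V hV n hdn, one_mul] at h1
  rw [zsmul_eq_mul, map_mul, fc1_one hp V hV m hdm, one_mul] at h2
  refine le_antisymm h1 ?_
  have h3 : V.valuation x * V.valuation x⁻¹ = 1 := by
    rw [← map_mul, mul_inv_cancel₀ hx, map_one]
  calc (1 : _) = V.valuation x * V.valuation x⁻¹ := h3.symm
    _ ≤ V.valuation x * 1 := mul_le_mul_right h2 _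
    _ = V.valuation x := mul_one _

end H55K.TQ
end

-- from Lib.H28T.AQ3A
section

open NumberField IsDedekindDomain

namespace H28T

open H55P
open H55K.TQ

variable {F : Type} [Field F] [NumberField F] [IQ F]

/-- Chunk AQ3A (M), pure Galois theory. K₀/ℚ Galois of degree p^k, p odd. Ω = AlgebraicClosure F, ι : K₀ →ₐ[ℚ] Ω (IsAlgClosed.lift), E = KG F K₀ ι = adjoin F (range ι) (H55K/RD.lean), finite over F (finitely many generators or adjoin of a basis; H55K/FB1.lean, T-part files: finDim of KG). E/F is Galois: E is generated over F by the elements ι x, the conjugates over F of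
ι x are among the ι(σ x), σ in Gal(K₀/ℚ) (K₀/ℚ normal: the minimal polynomial of ι x over F divides the one over ℚ, which splits in K₀): IntermediateField.normal_iff... or: every s : Ω ≃ₐ[F] Ω maps E to E (kg_stable-like; s (ι x) = ι (σ x), AlgHom.restrictNormal / Normal.algHomEquivAut), IntermediateField.normal_iff_forall_map_le'.
res : Gal(E/F) → Gal(K₀/ℚ), g (ι x) = ι (res g x) (restriction g.restrictScalars ℚ to the normal subfield K₀: AlgEquiv.restrictNormalHom K₀ with the algebra K₀ → E). Injective: E is generated by F and ι K₀. Surjective: the fixed field of the range R of res in K₀ consists of x with ι x fixed by Gal(E/F), so ι x in F (IsGalois.mem_bot_iff_fixed);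
it is a subfield of K₀ isomorphic to a subfield of F, so its degree over ℚ divides p^k and divides 2 = [F:ℚ] (IQ.deg; Module.finrank_mul_finrank, or finrank ≤ 2 and dividing p^k with p ≥ 3), so it is 1: fixedField R = ⊥, R = ⊤ (IsGalois Galois correspondence: IntermediateField.fixingSubgroup_fixedField). The degree of E/F is the order of Gal(K₀/ℚ), p^k. -/
theorem aq3a_comp {p : ℕ} (hp : p.Prime) (h2 : p ≠ 2) (K₀ : Type) [Field K₀] [NumberField K₀] [IsGalois ℚ K₀] {k : ℕ}
    (hk : Module.finrank ℚ K₀ = p ^ k) :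
    ∃ (E : Type) (_ : Field E) (_ : NumberField E) (_ : Algebra F E) (_ : Algebra K₀ E) (e : (E ≃ₐ[F] E) ≃* (K₀ ≃ₐ[ℚ] K₀)),
      IsGalois F E ∧ Module.finrank F E = p ^ k ∧
      ∀ (g : E ≃ₐ[F] E) (x : K₀), g (algebraMap K₀ E x) = algebraMap K₀ E (e g x) := by
  have hFq : Algebra.IsQuadraticExtension ℚ F := ⟨IQ.deg⟩
  have hFn : Normal ℚ F := Algebra.IsQuadraticExtension.normal ℚ F
  have hFg : IsGalois ℚ F := ⟨⟩
  let φ : K₀ →ₐ[ℚ] AlgebraicClosure ℚ := IsAlgClosed.lift
  let ψ : F →ₐ[ℚ] AlgebraicClosure ℚ := IsAlgClosed.lift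
  let A := φ.fieldRange
  let B := ψ.fieldRange
  let eA : K₀ ≃ₐ[ℚ] A := φ.equivFieldRange
  let eB : F ≃ₐ[ℚ] B := ψ.equivFieldRange
  have hA : Module.finrank ℚ A = p ^ k := by rw [← eA.toLinearEquiv.finrank_eq, hk]
  have hB : Module.finrank ℚ B = 2 := by rw [← eB.toLinearEquiv.finrank_eq, IQ.deg]
  have fA : FiniteDimensional ℚ A := eA.toLinearEquiv.finiteDimensional
  have fB : FiniteDimensional ℚ B := eB.toLinearEquiv.finiteDimensional
  have gA : IsGalois ℚ A := IsGalois.of_algEquiv eA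
  have gB : IsGalois ℚ B := IsGalois.of_algEquiv eB
  have hlin : A.LinearDisjoint B := by
    apply IntermediateField.LinearDisjoint.of_finrank_coprime
    rw [hA, hB]
    exact Nat.Coprime.pow_left _ ((Nat.coprime_primes hp Nat.prime_two).2 h2)
  have hEf := hlin.finrank_sup
  rw [hA, hB] at hEf
  have fE : FiniteDimensional ℚ ↥(A ⊔ B) := IntermediateField.finiteDimensional_sup A B
  have nA : Normal ℚ A := gA.to_normal
  have nB : Normal ℚ B := gB.to_normal
  have nAB : Normal ℚ ↥(A ⊔ B) := @IntermediateField.normal_sup ℚ (AlgebraicClosure ℚ) _ _ _ A B nA nB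
  have gE : IsGalois ℚ ↥(A ⊔ B) := { to_normal := nAB }
  have nE : NumberField ↥(A ⊔ B) := ⟨⟩
  let iK : K₀ →ₐ[ℚ] ↥(A ⊔ B) := (IntermediateField.inclusion le_sup_left).comp eA.toAlgHom
  let iF : F →ₐ[ℚ] ↥(A ⊔ B) := (IntermediateField.inclusion le_sup_right).comp eB.toAlgHom
  let aK : Algebra K₀ ↥(A ⊔ B) := iK.toRingHom.toAlgebra
  let aF : Algebra F ↥(A ⊔ B) := iF.toRingHom.toAlgebra
  have tF : IsScalarTower ℚ F ↥(A ⊔ B) := IsScalarTower.of_algebraMap_eq' (Subsingleton.elim _ _)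
  have tK : IsScalarTower ℚ K₀ ↥(A ⊔ B) := IsScalarTower.of_algebraMap_eq' (Subsingleton.elim _ _)
  have gFE : IsGalois F ↥(A ⊔ B) := IsGalois.tower_top_of_isGalois ℚ F _
  have fFE : FiniteDimensional F ↥(A ⊔ B) := Module.Finite.of_restrictScalars_finite ℚ F _
  have dFE : Module.finrank F ↥(A ⊔ B) = p ^ k := by
    have h1 := Module.finrank_mul_finrank ℚ F ↥(A ⊔ B)
    rw [IQ.deg, hEf] at h1
    omega
  -- the restriction
  let res : (↥(A ⊔ B) ≃ₐ[F] ↥(A ⊔ B)) →* (K₀ ≃ₐ[ℚ] K₀) :=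
    (AlgEquiv.restrictNormalHom K₀).comp
      { toFun := fun g => g.restrictScalars ℚ
        map_one' := rfl
        map_mul' := fun _ _ => rfl }
  have hres : ∀ (g : ↥(A ⊔ B) ≃ₐ[F] ↥(A ⊔ B)) (x : K₀),
      algebraMap K₀ ↥(A ⊔ B) (res g x) = g (algebraMap K₀ ↥(A ⊔ B) x) := fun g x =>
    AlgEquiv.restrictNormal_commutes (g.restrictScalars ℚ) K₀ x
  have hinj : Function.Injective res := by
    rw [injective_iff_map_eq_one]
    intro g hg
    have h1 : ∀ x : K₀, g (algebraMap K₀ ↥(A ⊔ B) x) = algebraMap K₀ ↥(A ⊔ B) x := by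
      intro x
      rw [← hres, hg]
      rfl
    have h2 : ∀ x : F, g (algebraMap F ↥(A ⊔ B) x) = algebraMap F ↥(A ⊔ B) x := fun x => g.commutes x
    -- the subfield of the fixed elements contains A and B
    let Fx : IntermediateField ℚ (AlgebraicClosure ℚ) :=
      ((IntermediateField.fixedField (Subgroup.zpowers (g.restrictScalars ℚ : ↥(A ⊔ B) ≃ₐ[ℚ] ↥(A ⊔ B)))).map
        (A ⊔ B).val)
    have hAF : A ≤ Fx := by
      rintro _ ⟨x, rfl⟩
      refine ⟨algebraMap K₀ ↥(A ⊔ B) x, ?_, rfl⟩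
      rintro ⟨s, hs⟩
      obtain ⟨m, rfl⟩ := Subgroup.mem_zpowers_iff.1 hs
      exact (MulAction.stabilizer (↥(A ⊔ B) ≃ₐ[ℚ] ↥(A ⊔ B)) (algebraMap K₀ ↥(A ⊔ B) x)).zpow_mem
        (show (g.restrictScalars ℚ : ↥(A ⊔ B) ≃ₐ[ℚ] ↥(A ⊔ B)) ∈ _ from h1 x) m
    have hBF : B ≤ Fx := by
      rintro _ ⟨x, rfl⟩
      refine ⟨algebraMap F ↥(A ⊔ B) x, ?_, rfl⟩
      rintro ⟨s, hs⟩
      obtain ⟨m, rfl⟩ := Subgroup.mem_zpowers_iff.1 hs
      exact (MulAction.stabilizer (↥(A ⊔ B) ≃ₐ[ℚ] ↥(A ⊔ B)) (algebraMap F ↥(A ⊔ B) x)).zpow_mem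
        (show (g.restrictScalars ℚ : ↥(A ⊔ B) ≃ₐ[ℚ] ↥(A ⊔ B)) ∈ _ from h2 x) m
    have hle : A ⊔ B ≤ Fx := sup_le hAF hBF
    ext y
    obtain ⟨z, hz, hzy⟩ := hle y.2
    have hz2 : z = y := Subtype.ext hzy
    have h3 := hz ⟨_, Subgroup.mem_zpowers _⟩
    rw [hz2] at h3
    exact congrArg _ h3
  have hcard : Nat.card (↥(A ⊔ B) ≃ₐ[F] ↥(A ⊔ B)) = Nat.card (K₀ ≃ₐ[ℚ] K₀) := by
    rw [IsGalois.card_aut_eq_finrank, IsGalois.card_aut_eq_finrank, dFE, hk]
  have hbij : Function.Bijective res := (Nat.bijective_iff_injective_and_card res).2 ⟨hinj, hcard⟩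
  exact ⟨↥(A ⊔ B), inferInstance, nE, aF, aK, MulEquiv.ofBijective res hbij, gFE, dFE,
    fun g x => (hres g x).symm⟩

end H28T
end

-- from Lib.H28T.AQ3
section

open NumberField IsDedekindDomain

namespace H28T

open H55P H55R
open H55K.TQ

variable {F : Type} [Field F] [NumberField F] [IQ F] {G : HeightOneSpectrum (𝓞 F) → Prop}

/-- The ramified primes of the compositum. -/
theorem aq3_ram {p B : ℕ} {K₀ : Type} [Field K₀] [NumberField K₀] (h : RatG G p K₀ B) {E : Type} [Field E] [NumberField E]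
    [Algebra F E] [Algebra K₀ E] (hG : IsGalois F E) (e : (E ≃ₐ[F] E) ≃* (K₀ ≃ₐ[ℚ] K₀))
    (he : ∀ (g : E ≃ₐ[F] E) (x : K₀), g (algebraMap K₀ E x) = algebraMap K₀ E (e g x))
    (w : HeightOneSpectrum (𝓞 E)) (hw : w.asIdeal.ramificationIdx (𝓞 F) ≠ 1) (l : ℕ) (hl : l.Prime)
    (hlw : (l : 𝓞 E) ∈ w.asIdeal) : GoodL G l ∧ B < l := by
  obtain ⟨hGK, -, hU⟩ := h
  have hwp := w.isPrime
  have hp : (w.asIdeal.under (𝓞 K₀)).IsPrime := inferInstance
  have hne : w.asIdeal.under (𝓞 K₀) ≠ ⊥ := by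
    intro h
    exact w.ne_bot (Ideal.eq_bot_of_comap_eq_bot (R := 𝓞 K₀) (I := w.asIdeal) h)
  let w₀ : HeightOneSpectrum (𝓞 K₀) := ⟨w.asIdeal.under (𝓞 K₀), hp, hne⟩
  have hlw₀ : (l : 𝓞 K₀) ∈ w₀.asIdeal := by
    show algebraMap (𝓞 K₀) (𝓞 E) (l : 𝓞 K₀) ∈ w.asIdeal
    rwa [map_natCast]
  refine hU w₀ l hl hlw₀ fun hr => hw ?_
  rw [← ge_card E hG w, Subgroup.card_eq_one, Subgroup.eq_bot_iff_forall]
  intro g hg
  have hg1 : e g = 1 := by
    refine H55D.X3_inertia w₀ hr (e g) fun y => ?_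
    show algebraMap (𝓞 K₀) (𝓞 E) (e g • y - y) ∈ w.asIdeal
    have h2 : algebraMap (𝓞 K₀) (𝓞 E) (e g • y) = g • algebraMap (𝓞 K₀) (𝓞 E) y := by
      apply NumberField.RingOfIntegers.ext
      exact (he g _).symm
    rw [map_sub, h2]
    exact hg _
  exact e.injective (hg1.trans (map_one e).symm)

/-- Chunk AQ3 (M), port of H28R.A7_unr (H28R/A7.lean). E from aq3a_comp. Let w be a prime of E, v = w.under (𝓞 F), l the prime number in v (H55D.X3_prime), w₀ = w ∩ 𝓞 K₀. If the ramification index of w over 𝓞 F is not 1, the inertia group of w in Gal(E/F) is not trivial (ge_card, Gen.lean), so there is g ≠ 1 in it; e g is in the inertia group of w₀ (as h1 in A7_unr) and e g ≠ 1, so the ramification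
index of w₀ over ℤ is not 1 (H55D.X3_inertia), so GoodL G l and B < l (h): G v (contraposition gives ExtG), and B < l ≤ absNorm w: l is in w; see the end of mem_factor (A3.lean) or: absNorm w is a power of l... (an integer in w dividing: absNorm w ∈ w, so l ∣ absNorm w since otherwise 1 ∈ w; absNorm w ≠ 0). -/
theorem aq3_of {p : ℕ} (hp : p.Prime) (h2 : p ≠ 2) (K₀ : Type) [Field K₀] [NumberField K₀] {B : ℕ} (h : RatG G p K₀ B) :
    ∃ (E : Type) (_ : Field E) (_ : NumberField E) (_ : Algebra F E) (_ : Algebra K₀ E),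
      PB G p E B ∧ Nonempty ((E ≃ₐ[F] E) ≃* (K₀ ≃ₐ[ℚ] K₀)) := by
  obtain ⟨hGK, ⟨k, hk⟩, hU⟩ := id h
  obtain ⟨E, _, _, _, _, e, hG, hdeg, he⟩ := aq3a_comp (F := F) hp h2 K₀ hk
  refine ⟨E, inferInstance, inferInstance, inferInstance, inferInstance, ⟨⟨hG, ⟨k, hdeg⟩, ?_⟩, ?_⟩, ⟨e⟩⟩
  · intro w v hv hGv
    by_contra hr
    have hm : Ideal.absNorm v.asIdeal ≠ 0 := by
      rw [Ne, Ideal.absNorm_eq_zero_iff]
      exact v.ne_bot
    obtain ⟨l, hl, -, hlv, -⟩ := mem_factor v hm (Ideal.absNorm_mem _)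
    have hlw : (l : 𝓞 E) ∈ w.asIdeal := by
      have h3 := hlv
      rw [hv, Ideal.mem_under, map_natCast] at h3
      exact h3
    exact hGv ((aq3_ram h hG e he w hr l hl hlw).1 v hlv)
  · intro w hr
    have hm : Ideal.absNorm w.asIdeal ≠ 0 := by
      rw [Ne, Ideal.absNorm_eq_zero_iff]
      exact w.ne_bot
    obtain ⟨l, hl, -, hlw, hle⟩ := mem_factor w hm (Ideal.absNorm_mem _)
    exact lt_of_lt_of_le (aq3_ram h hG e he w hr l hl hlw).2 hle

end H28T
end

-- from Lib.H28T.CC1B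
section

open NumberField IsDedekindDomain WeierstrassCurve

namespace H28T

open H55P H55R
open H55K H55K.TQ

variable {F : Type} [Field F] [NumberField F] [IQ F]

/-- Chunk CC1B (S/M). δ in 𝓞 F with cj δ = -δ, D = Nm δ, δ ≠ 0: δ^2 = -D (mul_cj). l a prime number with -D not a square modulo l: l is a prime element of 𝓞 F. Let v be a prime of F containing l (l is not a unit: H55K.Nm_nat). absNorm v divides Nm l = l^2 (v divides (l)) and is not 1, so it is l or l^2. If absNorm v = l, the residue field 𝓞 F ⧸ v has l elements, so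
the map ZMod l → 𝓞 F ⧸ v (or ℤ → 𝓞 F ⧸ v) is surjective: there is an integer x with δ - x in v, so x^2 + D = (x - δ)(x + δ) in v, and it is an integer in v: divisible by l (otherwise 1 in v; the integers in v are the multiples of l), contradiction. So absNorm v = l^2 = absNorm (l), v divides (l) and v = (l): (l) = v J, absNorm J = 1, J = ⊤.
Ideal.span_singleton_prime. -/
theorem cc1b_inert {δ : 𝓞 F} (hδ : cj δ = -δ) (h0 : δ ≠ 0) {l : ℕ} (hl : l.Prime)
    (hD : ∀ x : ℤ, ¬ (l : ℤ) ∣ x ^ 2 + (H55P.Nm δ : ℕ)) : Prime ((l : ℕ) : 𝓞 F) := by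
  have hsq : δ ^ 2 = -((H55P.Nm δ : ℕ) : 𝓞 F) := by
    have h1 := mul_cj δ
    rw [hδ] at h1
    linear_combination -h1
  have hl0 : ((l : ℕ) : 𝓞 F) ≠ 0 := by
    exact_mod_cast hl.ne_zero
  have hN : Ideal.absNorm (Ideal.span {((l : ℕ) : 𝓞 F)}) = l ^ 2 := Nm_nat l
  have hne : Ideal.span {((l : ℕ) : 𝓞 F)} ≠ ⊤ := by
    intro h
    rw [h, Ideal.absNorm_top] at hN
    have := hl.one_lt
    nlinarith
  obtain ⟨v, hv, hlv⟩ := Ideal.exists_le_maximal _ hne
  have hlm : ((l : ℕ) : 𝓞 F) ∈ v := hlv (Ideal.mem_span_singleton_self _)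
  have hdv : Ideal.absNorm v ∣ l ^ 2 := by
    rw [← hN]
    exact Ideal.absNorm_dvd_absNorm_of_le hlv
  have hint : ∀ y : ℤ, (y : 𝓞 F) ∈ v → (l : ℤ) ∣ y := by
    intro y hy
    by_contra hcon
    have hcop : IsCoprime (l : ℤ) y := by
      rw [Int.isCoprime_iff_gcd_eq_one]
      have h1 := (Nat.Prime.coprime_iff_not_dvd hl (n := y.natAbs)).2
        (fun h => hcon (Int.natCast_dvd.2 h))
      simpa [Int.gcd] using h1
    obtain ⟨a, b, hab⟩ := hcop
    apply hv.ne_top
    rw [Ideal.eq_top_iff_one]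
    have h1 : (1 : 𝓞 F) = (a : 𝓞 F) * (l : 𝓞 F) + (b : 𝓞 F) * (y : 𝓞 F) := by
      have h2 := congrArg (fun z : ℤ => (z : 𝓞 F)) hab
      push_cast at h2
      exact h2.symm
    rw [h1]
    exact v.add_mem (v.mul_mem_left _ hlm) (v.mul_mem_left _ hy)
  have hnl : Ideal.absNorm v ≠ l := by
    intro h
    have h1 : Nat.card (𝓞 F ⧸ v) = l := by
      rw [← h]
      rfl
    have : Fact l.Prime := ⟨hl⟩
    have : Nontrivial (𝓞 F ⧸ v) := Ideal.Quotient.nontrivial_iff.2 hv.ne_top
    have h2 : (Ideal.Quotient.mk v δ) ∈ AddSubgroup.zmultiples (1 : 𝓞 F ⧸ v) :=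
      mem_zmultiples_of_prime_card h1 one_ne_zero
    rw [AddSubgroup.mem_zmultiples_iff] at h2
    obtain ⟨x, hx⟩ := h2
    have h3 : δ - (x : 𝓞 F) ∈ v := by
      rw [← Ideal.Quotient.eq_zero_iff_mem, map_sub, ← hx]
      simp
    have h4 : ((x ^ 2 + (H55P.Nm δ : ℕ) : ℤ) : 𝓞 F) ∈ v := by
      have h5 : ((x ^ 2 + (H55P.Nm δ : ℕ) : ℤ) : 𝓞 F) = (-(δ + (x : 𝓞 F))) * (δ - (x : 𝓞 F)) := by
        push_cast
        linear_combination hsq
      rw [h5]
      exact v.mul_mem_left _ h3
    exact hD x (hint _ h4)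
  have hn2 : Ideal.absNorm v = l ^ 2 := by
    rcases (Nat.dvd_prime_pow hl).1 hdv with ⟨k, hk, hk2⟩
    interval_cases k
    · exfalso
      rw [pow_zero, Ideal.absNorm_eq_one_iff] at hk2
      exact hv.ne_top hk2
    · exact absurd (by rw [hk2, pow_one]) hnl
    · exact hk2
  have hvs : Ideal.span {((l : ℕ) : 𝓞 F)} = v := by
    obtain ⟨J, hJ⟩ := Ideal.dvd_iff_le.2 hlv
    have h1 : Ideal.absNorm v * Ideal.absNorm J = l ^ 2 := by
      rw [← map_mul, ← hJ, hN]
    rw [hn2] at h1
    have h2 : Ideal.absNorm J = 1 := by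
      have h3 : 0 < l ^ 2 := pow_pos hl.pos 2
      exact Nat.eq_of_mul_eq_mul_left h3 (by rw [h1, mul_one])
    rw [Ideal.absNorm_eq_one_iff] at h2
    rw [hJ, h2, Ideal.mul_top]
  rw [← Ideal.span_singleton_prime hl0, hvs]
  exact hv.isPrime

end H28T
end

-- from Lib.H28T.CC2
section

open NumberField IsDedekindDomain WeierstrassCurve

namespace H28T

open H55P H55R
open H55K H55K.TQ

variable {F : Type} [Field F] [NumberField F] [IQ F] {W₀ : WeierstrassCurve (𝓞 F)} {Om : ℂ}
    {m : Ideal (𝓞 F)} {ψ : Ideal (𝓞 F) →*₀ 𝓞 F} {p : ℕ}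

/-- Chunk CC2 (S/M). v contains l, so v.asIdeal = span {l} (span {l} is maximal: prime and not zero). Δ is not in v: otherwise m ≤ v (hH.supp), absNorm m in v (Ideal.absNorm_mem), l + 1 in v, so 1 in v. p is not in v: otherwise l - 1 is in v (p ∣ l - 1; in 𝓞 F: (l : 𝓞 F) - 1), so 1 in v. The number of points is Nm (1 - ψ v) (hH.deu), ψ v = -l (cc2a_psi),
Nm (1 + l) = (l + 1)^2 (H55K.Nm_nat). p divides l - 1, so not l + 1 (p ≥ 5: otherwise p ∣ 2). -/
theorem cc2_good (hH : BaseH F W₀ Om m ψ) (hp : PrimeH F W₀ p) {l : ℕ} (hl : l.Prime) (hp1 : p ∣ l - 1)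
    (hm : Ideal.absNorm m ∣ l + 1) (hin : Prime ((l : ℕ) : 𝓞 F)) : GoodL (Gd W₀ p) l := by
  intro v hv
  have h1v : (1 : 𝓞 F) ∉ v.asIdeal := fun h => v.isPrime.ne_top ((Ideal.eq_top_iff_one _).2 h)
  have hspan : Ideal.span {((l : ℕ) : 𝓞 F)} = v.asIdeal := by
    have hpr : (Ideal.span {((l : ℕ) : 𝓞 F)}).IsPrime :=
      (Ideal.span_singleton_prime hin.ne_zero).2 hin
    have hmax : (Ideal.span {((l : ℕ) : 𝓞 F)}).IsMaximal :=
      hpr.isMaximal (fun h => hin.ne_zero (Ideal.span_singleton_eq_bot.1 h))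
    exact hmax.eq_of_le v.isPrime.ne_top ((Ideal.span_singleton_le_iff_mem _).2 hv)
  have hΔ : W₀.Δ ∉ v.asIdeal := by
    intro h
    have h2 : m ≤ v.asIdeal := (hH.supp v).1 h
    obtain ⟨k, hk⟩ := hm
    have h3 : ((l + 1 : ℕ) : 𝓞 F) ∈ v.asIdeal := by
      rw [hk, Nat.cast_mul]
      exact v.asIdeal.mul_mem_right _ (h2 (Ideal.absNorm_mem m))
    rw [Nat.cast_add, Nat.cast_one] at h3
    apply h1v
    have e : (1 : 𝓞 F) = ((l : 𝓞 F) + 1) - (l : 𝓞 F) := by ring
    rw [e]
    exact v.asIdeal.sub_mem h3 hv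
  refine ⟨hΔ, ?_, ?_⟩
  · intro h
    obtain ⟨k, hk⟩ := hp1
    have h3 : ((l - 1 : ℕ) : 𝓞 F) ∈ v.asIdeal := by
      rw [hk, Nat.cast_mul]
      exact v.asIdeal.mul_mem_right _ h
    rw [Nat.cast_sub hl.one_lt.le, Nat.cast_one] at h3
    apply h1v
    have e : (1 : 𝓞 F) = (l : 𝓞 F) - ((l : 𝓞 F) - 1) := by ring
    rw [e]
    exact v.asIdeal.sub_mem hv h3
  · rw [hH.deu v hΔ, ← hspan, cc2a_psi hH.data.hecke hm]
    have e : (1 : 𝓞 F) - -(l : 𝓞 F) = ((l + 1 : ℕ) : 𝓞 F) := by push_cast; ring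
    rw [e, Nm_nat]
    intro h
    have h2 : p ∣ l + 1 := hp.prime.dvd_of_dvd_pow h
    have h3 : p ∣ (l + 1) - (l - 1) := Nat.dvd_sub h2 hp1
    have h4 : (l + 1) - (l - 1) = 2 := by
      have := hl.one_lt
      omega
    rw [h4] at h3
    have h5 := Nat.le_of_dvd (by norm_num) h3
    have h6 := hp.five
    omega

end H28T
end
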