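import Mathlib
import Pool.Agent.Lib.H1M.PP.M002
import Pool.Agent.Lib.H1M.PP.M003
import Pool.Agent.Lib.H1M.PP.M007
import Pool.Agent.Lib.H1M.PP.M038
import Pool.Agent.Lib.H1M.PP.M043
import Pool.Agent.Lib.H1M.PP.M054

/-! Merged copies (to shorten the build) of Lib.H28I.C1, Lib.H28I.E4, Lib.H28I.E5, Lib.H55W.Q2B, Lib.H55W.F3, Lib.H55W.L8C, Lib.H55W.F8, Lib.H55W.G5, Lib.H55W.G5A, Lib.H55W.G6, Lib.H55W.G8, Lib.H55W.F4. -/

-- from Lib.H28I.C1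
section

/-! # H28I, part C: isogenies with a map back -/

open NumberField IsDedekindDomain WeierstrassCurve

namespace H28I

open H55P (IQ embF eF LF Per IsHecke Pt ac Inert Dec Nm)
open H35P (WAB Ker tt GoodW IntW)
open H55K (xc yc)

variable {K : Type} [Field K] {Ω : Type} [Field Ω] [DecidableEq Ω] [Algebra K Ω]

/-- Chunk C1 (S/M). Ψ P' = 6 • P for any P with Φ P = P' (Classical.choose); well defined: Φ P = Φ Q implies 6 • (P - Q) = 0. Additive (AddMonoidHom.mk'). Ψ (Φ P) = 6 • P, Φ (Ψ P') = 6 • P'. Equivariance of Ψ: Φ (ac s P) = ac s P'. -/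
theorem iso6_of_surj {W₁ W₂ : WeierstrassCurve K} (Φ : Pt W₁ Ω →+ Pt W₂ Ω) (hs : Function.Surjective Φ)
    (h6 : ∀ P, Φ P = 0 → (6 : ℕ) • P = 0) (hg : ∀ (s : Ω ≃ₐ[K] Ω) (P : Pt W₁ Ω), Φ (ac W₁ s P) = ac W₂ s (Φ P)) :
    Iso6 W₁ W₂ Ω := by
  have hg' := hg
  clear hg
  choose g hg using hs
  have hwd : ∀ P Q : Pt W₁ Ω, Φ P = Φ Q → (6 : ℕ) • P = (6 : ℕ) • Q := by
    intro P Q h
    have h1 := h6 (P - Q) (by rw [map_sub, h, sub_self])
    rw [nsmul_sub] at h1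
    exact sub_eq_zero.1 h1
  refine ⟨Φ, AddMonoidHom.mk' (fun P => (6 : ℕ) • g P) (fun P Q => ?_), fun P => ?_, fun P => ?_, hg', fun s P => ?_⟩
  · rw [← nsmul_add]
    refine hwd _ _ ?_
    rw [hg, map_add, hg, hg]
  · show (6 : ℕ) • g (Φ P) = (6 : ℕ) • P
    exact hwd _ _ (hg _)
  · show Φ ((6 : ℕ) • g P) = (6 : ℕ) • P
    rw [map_nsmul, hg]
  · show (6 : ℕ) • g (ac W₂ s P) = ac W₁ s ((6 : ℕ) • g P)
    rw [map_nsmul]
    refine hwd _ _ ?_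
    rw [hg, hg', hg]

/-- Chunk C1 (S). -/
theorem iso6_symm {W₁ W₂ : WeierstrassCurve K} (h : Iso6 W₁ W₂ Ω) : Iso6 W₂ W₁ Ω := by
  obtain ⟨Φ, Ψ, h1, h2, h3, h4⟩ := h
  exact ⟨Ψ, Φ, h2, h1, h4, h3⟩

end H28I
end

-- from Lib.H28I.E4
section

/-! # H28I, part E: algebraic relations between the two equations -/

open NumberField IsDedekindDomain WeierstrassCurve

namespace H28I

open H55P (IQ embF eF LF Per IsHecke Pt ac Inert Dec Nm)
open H35P (WAB Ker tt GoodW IntW)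
open H55K (xc yc)

variable {k : Type} [Field k] [CharZero k] {V : ValuationSubring k}

theorem e4_c4 (W : WeierstrassCurve ℤ) : sA W k = -((W.b₂ : k) ^ 2 - 24 * W.b₄) / 48 := by
  unfold sA WeierstrassCurve.c₄
  push_cast
  ring

theorem e4_c6 (W : WeierstrassCurve ℤ) :
    sB W k = -(-(W.b₂ : k) ^ 3 + 36 * W.b₂ * W.b₄ - 216 * W.b₆) / 864 := by
  unfold sB WeierstrassCurve.c₆
  push_cast
  ring

theorem e4_b8 (W : WeierstrassCurve ℤ) : 4 * (W.b₈ : k) = W.b₂ * W.b₆ - (W.b₄ : k) ^ 2 := by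
  have h := congrArg (fun n : ℤ => (n : k)) W.b_relation
  push_cast at h
  exact h

/-- Chunk E4 (S). -/
theorem vint (V : ValuationSubring k) (n : ℤ) : V.valuation (n : k) ≤ 1 := by
  calc V.valuation (n : k) ≤ 1 := (V.valuation_le_one_iff _).2 (by
        have h : ((n : V) : k) = (n : k) := by simp
        rw [← h]
        exact (n : V).2)

/-- Chunk E4 (S/M). 4 (X^3 + A X + B) at X = e₀ + b₂/12, A = -c₄/48, B = -c₆/864, c₄ = b₂^2 - 24 b₄, c₆ = -b₂^3 + 36 b₂ b₄ - 216 b₆ (cast to k; push_cast). -/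
theorem four_f (W : WeierstrassCurve ℤ) (e₀ : k) :
    4 * ((e₀ + (W.b₂ : k) / 12) ^ 3 + sA W k * (e₀ + (W.b₂ : k) / 12) + sB W k) =
      4 * e₀ ^ 3 + W.b₂ * e₀ ^ 2 + 2 * W.b₄ * e₀ + W.b₆ ∧
    2 * (3 * (e₀ + (W.b₂ : k) / 12) ^ 2 + sA W k) = 6 * e₀ ^ 2 + W.b₂ * e₀ + W.b₄ := by
  rw [e4_c4, e4_c6]
  constructor
  · ring
  · ring

/-- Chunk E4 (S/M). By hA: with c₄ = b₂^2 - 24 b₄ for both equations (cast), lam^2 b₂' = b₂ + 12 ρ. -/
theorem rel4 (W W' : WeierstrassCurve ℤ) {t lam ρ : k} (hA : lam ^ 4 * sA W' k = sA W k - 5 * t)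
    (hρ : ρ = lam ^ 2 * ((W'.b₂ : k) / 12) - (W.b₂ : k) / 12) :
    (W.b₄ - 10 * t) + W.b₂ * ρ + 6 * ρ ^ 2 = lam ^ 4 * W'.b₄ := by
  rw [e4_c4, e4_c4] at hA
  have hb : lam ^ 2 * (W'.b₂ : k) = W.b₂ + 12 * ρ := by rw [hρ]; ring
  have hb2 : lam ^ 4 * (W'.b₂ : k) ^ 2 = ((W.b₂ : k) + 12 * ρ) ^ 2 := by rw [← hb]; ring
  linear_combination (-2 : k) * hA + (-1 / 24 : k) * hb2

/-- Chunk E4 (M). By four_f for W' at 0 : lam^6 b₆' = 4 ((lam^2 b₂'/12)^3 + lam^4 A'' (lam^2 b₂'/12) + lam^6 B''), and lam^2 b₂'/12 = ρ + b₂/12, lam^4 A'' = A - 5 t, lam^6 B'' = B - 7 (u + e t): expand (checked by computer with random numbers). -/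
theorem rel6 (W W' : WeierstrassCurve ℤ) {e t u lam ρ e₀ : k} (hA : lam ^ 4 * sA W' k = sA W k - 5 * t)
    (hB : lam ^ 6 * sB W' k = sB W k - 7 * (u + e * t)) (he : e₀ = e - (W.b₂ : k) / 12)
    (hρ : ρ = lam ^ 2 * ((W'.b₂ : k) / 12) - (W.b₂ : k) / 12) :
    4 * ρ ^ 3 + W.b₂ * ρ ^ 2 + (2 * W.b₄ - 20 * t) * ρ + (W.b₆ - 28 * (u + e₀ * t) - 4 * W.b₂ * t) = lam ^ 6 * W'.b₆ := by
  have h4 := rel4 W W' hA hρ
  rw [e4_c4] at hA
  rw [e4_c6, e4_c6] at hB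
  have hb : lam ^ 2 * (W'.b₂ : k) = W.b₂ + 12 * ρ := by rw [hρ]; ring
  have he' : e = e₀ + (W.b₂ : k) / 12 := by rw [he]; ring
  rw [he'] at hB
  have hb3 : lam ^ 6 * (W'.b₂ : k) ^ 3 = ((W.b₂ : k) + 12 * ρ) ^ 3 := by rw [← hb]; ring
  have hb4 : lam ^ 6 * ((W'.b₂ : k) * W'.b₄) = ((W.b₂ : k) + 12 * ρ) *
      ((W.b₄ - 10 * t) + W.b₂ * ρ + 6 * ρ ^ 2) := by rw [← hb, h4]; ring
  linear_combination (-4 : k) * hB + (1 / 216 : k) * hb3 + (-1 / 6 : k) * hb4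

/-- Chunk E4 (M). 4 b₈ = b₂ b₆ - b₄^2 for both equations (WeierstrassCurve.b_relation, cast): four times the right side is (lam^2 b₂') (lam^6 b₆') - (lam^4 b₄')^2, use lam^2 b₂' = b₂ + 12 ρ, rel6, rel4; expand and divide by 4 (checked by computer). -/
theorem rel8 (W W' : WeierstrassCurve ℤ) {e t u lam ρ e₀ : k} (hA : lam ^ 4 * sA W' k = sA W k - 5 * t)
    (hB : lam ^ 6 * sB W' k = sB W k - 7 * (u + e * t)) (he : e₀ = e - (W.b₂ : k) / 12)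
    (hρ : ρ = lam ^ 2 * ((W'.b₂ : k) / 12) - (W.b₂ : k) / 12) :
    3 * ρ ^ 4 + W.b₂ * ρ ^ 3 + 3 * (W.b₄ - 10 * t) * ρ ^ 2 + 3 * (W.b₆ - 4 * W.b₂ * t - 28 * (u + e₀ * t)) * ρ +
      (W.b₈ - W.b₂ ^ 2 * t - 7 * W.b₂ * (u + e₀ * t) + 5 * W.b₄ * t - 25 * t ^ 2) = lam ^ 8 * W'.b₈ := by
  have h4 := rel4 W W' hA hρ
  have h6 := rel6 W W' hA hB he hρ
  have hb : lam ^ 2 * (W'.b₂ : k) = W.b₂ + 12 * ρ := by rw [hρ]; ring
  have h8 := e4_b8 (k := k) W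
  have h8' := e4_b8 (k := k) W'
  have h1 : 4 * (lam ^ 8 * (W'.b₈ : k)) = (lam ^ 2 * (W'.b₂ : k)) * (lam ^ 6 * W'.b₆) -
      (lam ^ 4 * (W'.b₄ : k)) ^ 2 := by
    linear_combination lam ^ 8 * h8'
  rw [hb, ← h6, ← h4] at h1
  have h4k : (4 : k) ≠ 0 := by norm_num
  apply mul_left_cancel₀ h4k
  rw [h1]
  linear_combination h8

end H28I
end

-- from Lib.H28I.E5
section

/-! # H28I, part E: integrality -/

open NumberField IsDedekindDomain WeierstrassCurve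

namespace H28I

open H55P (IQ embF eF LF Per IsHecke Pt ac Inert Dec Nm)
open H35P (WAB Ker tt GoodW IntW)
open H55K (xc yc)

variable {k : Type} [Field k] [CharZero k] {V : ValuationSubring k}

theorem e5_int (V : ValuationSubring k) (n : ℤ) : (n : k) ∈ V := (V.valuation_le_one_iff _).1 (vint V n)

theorem e5_nat (V : ValuationSubring k) (n : ℕ) : (n : k) ∈ V := by
  have h := e5_int V (n : ℤ)
  rwa [Int.cast_natCast] at h

theorem e5_ofNat (V : ValuationSubring k) (n : ℕ) [n.AtLeastTwo] : (OfNat.ofNat n : k) ∈ V := by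
  have h := e5_nat V (OfNat.ofNat n)
  rwa [Nat.cast_ofNat] at h

/-- a unit can be cancelled -/
theorem e5_cancel {V : ValuationSubring k} {a x : k} (ha : V.valuation a = 1) (h : a * x ∈ V) : x ∈ V := by
  have h0 : a ≠ 0 := by
    rintro rfl
    rw [map_zero] at ha
    exact zero_ne_one ha
  have h1 : a⁻¹ ∈ V := (V.valuation_le_one_iff _).1 (by rw [map_inv₀, ha, inv_one])
  have h2 : x = a⁻¹ * (a * x) := by field_simp
  rw [h2]
  exact V.mul_mem _ _ h1 h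

theorem e5_lam {V : ValuationSubring k} {lam : k} (h : V.valuation lam = 1) : lam ∈ V :=
  (V.valuation_le_one_iff _).1 h.le

theorem e5_lt_mul {V : ValuationSubring k} {a x : k} (ha : V.valuation a < 1) (hx : x ∈ V) :
    V.valuation (a * x) < 1 := by
  rw [map_mul]
  calc V.valuation a * V.valuation x ≤ V.valuation a * 1 :=
        mul_le_mul_right ((V.valuation_le_one_iff _).2 hx) _
    _ < 1 := by rw [mul_one]; exact ha

/-- Chunk E5 (M). V(2) = 1 or V(3) = 1 (3 - 2 = 1). Suppose V(ρ) > 1. If V(2) = 1: rel6: 4 ρ^3 has the value V(ρ)^3, all the other terms have value ≤ V(ρ)^2: contradiction. If V(3) = 1: rel8: 3 ρ^4 has the value V(ρ)^4, the other terms have value ≤ V(ρ)^3. (All coefficients have value ≤ 1: vint, hlam, he0, ht, hu.) -/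
theorem rho_int (W W' : WeierstrassCurve ℤ) {e t u lam : k} (hA : lam ^ 4 * sA W' k = sA W k - 5 * t)
    (hB : lam ^ 6 * sB W' k = sB W k - 7 * (u + e * t)) (hlam : V.valuation lam = 1)
    (he0 : V.valuation (e - (W.b₂ : k) / 12) ≤ 1) (ht : V.valuation t ≤ 1) (hu : V.valuation u ≤ 1) :
    V.valuation (lam ^ 2 * ((W'.b₂ : k) / 12) - (W.b₂ : k) / 12) ≤ 1 := by
  set ρ := lam ^ 2 * ((W'.b₂ : k) / 12) - (W.b₂ : k) / 12 with hρ
  set e₀ := e - (W.b₂ : k) / 12 with he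
  have h6 := rel6 W W' hA hB he hρ
  have h8 := rel8 W W' hA hB he hρ
  rw [V.valuation_le_one_iff] at he0 ht hu ⊢
  have hl := e5_lam hlam
  by_contra hcon
  have hρ0 : ρ ≠ 0 := by
    intro h
    rw [h] at hcon
    exact hcon V.zero_mem
  have hs : ρ⁻¹ ∈ V := (V.mem_or_inv_mem ρ).resolve_left hcon
  have i2 := e5_int V W.b₂
  have i4 := e5_int V W.b₄
  have i6 := e5_int V W.b₆
  have i8 := e5_int V W.b₈
  have i6' := e5_int V W'.b₆
  have i8' := e5_int V W'.b₈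
  have hor : V.valuation (2 : k) = 1 ∨ V.valuation (3 : k) = 1 := by
    by_contra h
    push Not at h
    have a2 : V.valuation (2 : k) < 1 := lt_of_le_of_ne ((V.valuation_le_one_iff _).2 (e5_ofNat V 2)) h.1
    have a3 : V.valuation (3 : k) < 1 := lt_of_le_of_ne ((V.valuation_le_one_iff _).2 (e5_ofNat V 3)) h.2
    have a1 : V.valuation ((3 : k) - 2) < 1 := Valuation.map_sub_lt _ a3 a2
    have a0 : (3 : k) - 2 = 1 := by norm_num
    rw [a0, map_one] at a1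
    exact lt_irrefl _ a1
  rcases hor with h2 | h3
  · have h4 : V.valuation (4 : k) = 1 := by
      have : (4 : k) = 2 * 2 := by norm_num
      rw [this, map_mul, h2, one_mul]
    refine hcon (e5_cancel h4 ?_)
    have e1 : 4 * ρ = lam ^ 6 * W'.b₆ * ρ⁻¹ ^ 2 - (W.b₂ + (2 * W.b₄ - 20 * t) * ρ⁻¹ +
        (W.b₆ - 28 * (u + e₀ * t) - 4 * W.b₂ * t) * ρ⁻¹ ^ 2) := by
      rw [← h6]
      field_simp
      ring
    rw [e1]
    have n2 := e5_ofNat V 2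
    have n20 := e5_ofNat V 20
    have n28 := e5_ofNat V 28
    have n4 := e5_ofNat V 4
    exact sub_mem (mul_mem (mul_mem (pow_mem hl 6) i6') (pow_mem hs 2))
      (add_mem (add_mem i2 (mul_mem (sub_mem (mul_mem n2 i4) (mul_mem n20 ht)) hs))
        (mul_mem (sub_mem (sub_mem i6 (mul_mem n28 (add_mem hu (mul_mem he0 ht))))
          (mul_mem (mul_mem n4 i2) ht)) (pow_mem hs 2)))
  · refine hcon (e5_cancel h3 ?_)
    have e1 : 3 * ρ = lam ^ 8 * W'.b₈ * ρ⁻¹ ^ 3 - (W.b₂ + 3 * (W.b₄ - 10 * t) * ρ⁻¹ +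
        3 * (W.b₆ - 4 * W.b₂ * t - 28 * (u + e₀ * t)) * ρ⁻¹ ^ 2 +
        (W.b₈ - W.b₂ ^ 2 * t - 7 * W.b₂ * (u + e₀ * t) + 5 * W.b₄ * t - 25 * t ^ 2) * ρ⁻¹ ^ 3) := by
      rw [← h8]
      field_simp
      ring
    rw [e1]
    have n3 := e5_ofNat V 3
    have n10 := e5_ofNat V 10
    have n28 := e5_ofNat V 28
    have n4 := e5_ofNat V 4
    have n7 := e5_ofNat V 7
    have n5 := e5_ofNat V 5
    have n25 := e5_ofNat V 25
    have hue := add_mem hu (mul_mem he0 ht)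
    exact sub_mem (mul_mem (mul_mem (pow_mem hl 8) i8') (pow_mem hs 3))
      (add_mem (add_mem (add_mem i2 (mul_mem (mul_mem n3 (sub_mem i4 (mul_mem n10 ht))) hs))
        (mul_mem (mul_mem n3 (sub_mem (sub_mem i6 (mul_mem (mul_mem n4 i2) ht)) (mul_mem n28 hue)))
          (pow_mem hs 2)))
        (mul_mem (sub_mem (add_mem (sub_mem (sub_mem i8 (mul_mem (pow_mem i2 2) ht))
          (mul_mem (mul_mem n7 i2) hue)) (mul_mem (mul_mem n5 i4) ht))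
          (mul_mem n25 (pow_mem ht 2))) (pow_mem hs 3)))

/-- Chunk E5 (S/M). four_f with e₀ = e - b₂/12. First case: 2 t = 6 e₀^2 + b₂ e₀ + b₄, so t has value ≤ 1 if V(2) = 1. Second case: t = 6 e₀^2 + b₂ e₀ + b₄, u = 4 e₀^3 + b₂ e₀^2 + 2 b₄ e₀ + b₆. -/
theorem tu_int (W : WeierstrassCurve ℤ) {A' B' e t u : k} (h : VI (sA W k) (sB W k) A' B' e t u)
    (he0 : V.valuation (e - (W.b₂ : k) / 12) ≤ 1) (h2 : u = 0 → V.valuation (2 : k) = 1 ∨ V.valuation t ≤ 1) :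
    V.valuation t ≤ 1 ∧ V.valuation u ≤ 1 := by
  rw [V.valuation_le_one_iff] at he0 ⊢
  rw [V.valuation_le_one_iff]
  obtain ⟨f1, f2⟩ := four_f W (e - (W.b₂ : k) / 12)
  have he : e - (W.b₂ : k) / 12 + (W.b₂ : k) / 12 = e := by ring
  rw [he] at f1 f2
  have i2 := e5_int V W.b₂
  have i4 := e5_int V W.b₄
  have i6 := e5_int V W.b₆
  have n2 := e5_ofNat V 2
  have n4 := e5_ofNat V 4
  have n6 := e5_ofNat V 6
  have ht2 : 2 * (3 * e ^ 2 + sA W k) ∈ V := by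
    rw [f2]
    exact add_mem (add_mem (mul_mem n6 (pow_mem he0 2)) (mul_mem i2 he0)) i4
  rcases h.cs with ⟨c1, -, c3⟩ | ⟨c1, c2, -⟩
  · refine ⟨?_, by rw [c1]; exact V.zero_mem⟩
    rcases h2 c1 with a | a
    · rw [← c3] at ht2
      exact e5_cancel a ht2
    · exact (V.valuation_le_one_iff _).1 a
  · refine ⟨by rw [c1]; exact ht2, ?_⟩
    rw [c2, f1]
    exact add_mem (add_mem (add_mem (mul_mem n4 (pow_mem he0 3)) (mul_mem i2 (pow_mem he0 2)))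
      (mul_mem (mul_mem n2 i4) he0)) i6

/-- Chunk E5 (M). The ordinary case at 2. Let e₀ = e - b₂/12 and suppose V(e₀) > 1. four_f: 4 e₀^3 + b₂ e₀^2 + 2 b₄ e₀ + b₆ = 0 and 2 t = 6 e₀^2 + b₂ e₀ + b₄. In the first equation V(b₂ e₀^2) = V(e₀)^2 is larger than V(2 b₄ e₀) and V(b₆), so V(4 e₀^3) = V(e₀)^2, V(4 e₀) = 1. In the second: V(6 e₀^2) = V(2) V(e₀)^2 (V(3) = 1 because V(2) < 1), V(b₂ e₀) = V(e₀), V(b₄) ≤ 1 < V(e₀);
V(2) V(e₀) > 1 because V(4) V(e₀) = 1 and V(2) < 1 (V(4) < V(2)), so V(6 e₀^2) > V(e₀) and V(2 t) = V(2) V(e₀)^2, V(t) = V(e₀)^2 > 1: contradiction. -/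
theorem e0_ord (W : WeierstrassCurve ℤ) {e t : k} (h1 : e ^ 3 + sA W k * e + sB W k = 0) (h2 : t = 3 * e ^ 2 + sA W k)
    (hV2 : V.valuation (2 : k) < 1) (hb : V.valuation (W.b₂ : k) = 1) (ht : V.valuation t ≤ 1) :
    V.valuation (e - (W.b₂ : k) / 12) ≤ 1 := by
  rw [V.valuation_le_one_iff] at ht ⊢
  obtain ⟨f1, f2⟩ := four_f W (e - (W.b₂ : k) / 12)
  have he : e - (W.b₂ : k) / 12 + (W.b₂ : k) / 12 = e := by ring
  rw [he] at f1 f2
  rw [h1, mul_zero] at f1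
  rw [← h2] at f2
  set e₀ := e - (W.b₂ : k) / 12 with he0
  by_contra hcon
  have h0 : e₀ ≠ 0 := by
    intro h
    rw [h] at hcon
    exact hcon V.zero_mem
  have hs : e₀⁻¹ ∈ V := (V.mem_or_inv_mem e₀).resolve_left hcon
  have hs1 : V.valuation e₀⁻¹ < 1 := by
    refine lt_of_le_of_ne ((V.valuation_le_one_iff _).2 hs) fun h => hcon ?_
    rw [map_inv₀] at h
    exact (V.valuation_le_one_iff _).1 (inv_injective (h.trans inv_one.symm)).le
  have i2 := e5_int V W.b₂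
  have i4 := e5_int V W.b₄
  have i6 := e5_int V W.b₆
  have n2 := e5_ofNat V 2
  have a3 : V.valuation (3 : k) = 1 := by
    have h : (3 : k) = 1 + 2 := by norm_num
    rw [h]
    rw [Valuation.map_add_eq_of_lt_left _ (by rw [map_one]; exact hV2), map_one]
  have e1 : 3 * (W.b₂ + e₀⁻¹ * (2 * W.b₄ + W.b₆ * e₀⁻¹)) = 2 * (W.b₂ + W.b₄ * e₀⁻¹ - 2 * (t * e₀⁻¹)) := by
    field_simp
    linear_combination (-3 : k) * f1 + (2 * e₀ : k) * f2
  have b1 : V.valuation (3 * (W.b₂ + e₀⁻¹ * (2 * W.b₄ + W.b₆ * e₀⁻¹)) : k) = 1 := by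
    rw [map_mul, a3, one_mul]
    have b2 : V.valuation (e₀⁻¹ * (2 * W.b₄ + W.b₆ * e₀⁻¹) : k) < V.valuation (W.b₂ : k) := by
      rw [hb]
      exact e5_lt_mul hs1 (add_mem (mul_mem n2 i4) (mul_mem i6 hs))
    rw [Valuation.map_add_eq_of_lt_left _ b2, hb]
  have b3 : V.valuation (2 * (W.b₂ + W.b₄ * e₀⁻¹ - 2 * (t * e₀⁻¹)) : k) < 1 :=
    e5_lt_mul hV2 (sub_mem (add_mem i2 (mul_mem i4 hs)) (mul_mem n2 (mul_mem ht hs)))
  rw [← e1, b1] at b3
  exact lt_irrefl _ b3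

end H28I
end

-- from Lib.H55W.Q2B
section

/-! # H55W, part Q: quadratic characters -/

open NumberField IsDedekindDomain

namespace H55W

open H55P (IQ embF eF Nm)
open H55K (cj)

variable {F : Type} [Field F] [NumberField F] [IQ F]

/-- Chunk Q2B (S/M). Quadratic reciprocity: n ≡ 1 mod 4 (n may be negative), N odd natural: J(n | N) = J(N | |n|). n > 0: jacobiSym.quadratic_reciprocity_one_mod_four (n natural, 1 mod 4). n < 0: |n| = 3 mod 4, J(n | N) = J(-1 | N) J(|n| | N), J(-1 | N) = χ₄ N (jacobiSym.at_neg_one), jacobiSym.quadratic_reciprocity / quadratic_reciprocity_three_mod_four: cases N mod 4. Common factors: both 0. -/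
theorem jac_recip {n : ℤ} (hn : n % 4 = 1) {N : ℕ} (hN : N % 2 = 1) : jacobiSym n N = jacobiSym (N : ℤ) n.natAbs := by
  have hNo : Odd N := Nat.odd_iff.2 hN
  rcases le_or_gt 0 n with h0 | h0
  · obtain ⟨m, rfl⟩ := Int.eq_ofNat_of_zero_le h0
    rw [Int.natAbs_natCast]
    exact jacobiSym.quadratic_reciprocity_one_mod_four (by omega) hNo
  · obtain ⟨m, hm⟩ : ∃ m : ℕ, n = -(m : ℤ) := ⟨n.natAbs, by omega⟩
    subst hm
    have hm3 : m % 4 = 3 := by omega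
    rw [Int.natAbs_neg, Int.natAbs_natCast, jacobiSym.neg _ hNo]
    have hN4 : N % 4 = 1 ∨ N % 4 = 3 := by omega
    rcases hN4 with h1 | h1
    · rw [ZMod.χ₄_nat_one_mod_four h1, one_mul]
      exact jacobiSym.quadratic_reciprocity_one_mod_four' (Nat.odd_iff.2 (by omega)) h1
    · rw [ZMod.χ₄_nat_three_mod_four h1, jacobiSym.quadratic_reciprocity_three_mod_four hm3 h1]
      ring

/-- Chunk Q2B (M). κ x = jacobiSym (Nm x) |n|. root, mul (jacobiSym.mul_left), unit (jacobiSym.one_left), per (jacobiSym.mod_left', nm_per), euler: π does not divide 2 and n: jac_recip (Nm π is odd: pi_types), euler_nm. κ 2 = jacobiSym 4 |n| = (jacobiSym 2 |n|)^2 = 1 (n odd; Nm 2 = 4: Nm_nat). -/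
theorem quad_odd {n : ℤ} (hn : n % 4 = 1) : ∃ κ : 𝓞 F → 𝓞 F, PRC (𝓞 F) 2 n n n κ ∧
    (∀ x, IsCoprime x ((n : ℤ) : 𝓞 F) → κ x = 1 ∨ κ x = -1) ∧ κ 2 = 1 := by
  have hgcd : ∀ x : 𝓞 F, IsCoprime x ((n : ℤ) : 𝓞 F) → Int.gcd ((Nm x : ℕ) : ℤ) (n.natAbs : ℕ) = 1 := by
    intro x hx
    have h1 := Int.isCoprime_iff_gcd_eq_one.1 (nm_cop hx)
    unfold Int.gcd at h1 ⊢
    rw [Int.natAbs_natCast n.natAbs]
    exact h1
  have hval : ∀ x : 𝓞 F, IsCoprime x ((n : ℤ) : 𝓞 F) →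
      ((jacobiSym (Nm x : ℕ) n.natAbs : ℤ) : 𝓞 F) = 1 ∨ ((jacobiSym (Nm x : ℕ) n.natAbs : ℤ) : 𝓞 F) = -1 := by
    intro x hx
    rcases jacobiSym.eq_one_or_neg_one (hgcd x hx) with h1 | h1
    · left
      rw [h1, Int.cast_one]
    · right
      rw [h1, Int.cast_neg, Int.cast_one]
  refine ⟨fun x => ((jacobiSym (Nm x : ℕ) n.natAbs : ℤ) : 𝓞 F), ⟨?_, ?_, ?_, ?_, ?_⟩, hval, ?_⟩
  · intro x hx
    rcases hval x hx with h1 | h1
    · simp only [h1, one_pow]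
    · simp only [h1]
      norm_num
  · intro x y hx hy
    show ((jacobiSym (Nm (x * y) : ℕ) n.natAbs : ℤ) : 𝓞 F) =
      ((jacobiSym (Nm x : ℕ) n.natAbs : ℤ) : 𝓞 F) * ((jacobiSym (Nm y : ℕ) n.natAbs : ℤ) : 𝓞 F)
    rw [H55K.Nm_mul, Nat.cast_mul, jacobiSym.mul_left, Int.cast_mul]
  · intro x y hx hy hxy
    show ((jacobiSym (Nm x : ℕ) n.natAbs : ℤ) : 𝓞 F) = ((jacobiSym (Nm y : ℕ) n.natAbs : ℤ) : 𝓞 F)
    have h1 := nm_per hxy
    have h2 : ((Nm x : ℕ) : ℤ) % (n.natAbs : ℤ) = ((Nm y : ℕ) : ℤ) % (n.natAbs : ℤ) := by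
      have h3 : ((Nm y : ℕ) : ℤ) ≡ ((Nm x : ℕ) : ℤ) [ZMOD (n.natAbs : ℤ)] :=
        Int.modEq_iff_dvd.2 (Int.natAbs_dvd.2 h1)
      exact h3.symm
    rw [jacobiSym.mod_left' h2]
  · intro u hu
    show ((jacobiSym (Nm u : ℕ) n.natAbs : ℤ) : 𝓞 F) = 1
    rw [nm_unit hu, Nat.cast_one, jacobiSym.one_left, Int.cast_one]
  · intro π hπ hc hm
    rw [nm_card]
    have hm' : ¬ π ∣ 2 := fun h => hm (by exact_mod_cast h)
    obtain ⟨p, hp, hpd, hN⟩ := pi_types hπ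
    have hp2 : p ≠ 2 := by
      rintro rfl
      exact hm' (by exact_mod_cast hpd)
    have hodd : Nm π % 2 = 1 := by
      rcases hN with hN | ⟨hN, -⟩
      · rw [hN]
        exact Nat.odd_iff.1 (hp.odd_of_ne_two hp2)
      · rw [hN]
        exact Nat.odd_iff.1 (hp.odd_of_ne_two hp2).pow
    have h1 := euler_nm hπ hm' hc
    rw [jac_recip hn hodd] at h1
    exact h1
  · show ((jacobiSym (Nm (2 : 𝓞 F) : ℕ) n.natAbs : ℤ) : 𝓞 F) = 1
    have h1 := H55K.Nm_nat (F := F) 2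
    rw [Nat.cast_ofNat] at h1
    have h2 : Int.gcd (2 : ℤ) (n.natAbs : ℕ) = 1 := by
      have h3 : Nat.Coprime 2 n.natAbs := by
        rw [Nat.coprime_two_left]
        exact Nat.odd_iff.2 (by omega)
      exact h3
    rw [h1, show (((2 ^ 2 : ℕ) : ℕ) : ℤ) = (2 : ℤ) ^ 2 by norm_num, jacobiSym.sq_one' h2, Int.cast_one]

end H55W
end

-- from Lib.H55W.F3
section

/-! # H55W, part F: the function defining the Hecke character, discriminant -3 -/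

open NumberField IsDedekindDomain

namespace H55W

open H55P (IQ embF eF Nm)
open H55K (cj)

variable {F : Type} [Field F] [NumberField F] [IQ F] {w : 𝓞 F}

/-- Chunk F3 (S). IsCoprime (span {x}) (span {y}) iff IsCoprime x y (Ideal.isCoprime_span_singleton_iff); powers, divisors. -/
theorem cop_of {x : 𝓞 F} {D : ℤ} {c : 𝓞 F} {j : ℕ} (hc : c ∣ ((D : ℤ) : 𝓞 F) ^ j) (hx : IsCoprime (Ideal.span {x}) (Ideal.span {((D : ℤ) : 𝓞 F) ^ 3})) :
    IsCoprime x c := by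
  rw [Ideal.isCoprime_span_singleton_iff] at hx
  have h1 : IsCoprime x ((D : ℤ) : 𝓞 F) := (IsCoprime.pow_right_iff (by norm_num)).1 hx
  exact (h1.pow_right (n := j)).of_isCoprime_of_dvd_right hc

omit [IQ F] in
theorem f3_pc {γ a : 𝓞 F} (hγ : Prime γ) (h : ¬ γ ∣ a) : IsCoprime γ a := by
  have hp : (Ideal.span {γ}).IsPrime := (Ideal.span_singleton_prime hγ.ne_zero).2 hγ
  have hm : (Ideal.span {γ}).IsMaximal := hp.isMaximal (by
    rw [Ne, Ideal.span_singleton_eq_bot]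
    exact hγ.ne_zero)
  obtain ⟨y, i, hi, hyi⟩ := hm.exists_inv (x := a) (by rwa [Ideal.mem_span_singleton])
  obtain ⟨z, rfl⟩ := Ideal.mem_span_singleton.1 hi
  exact ⟨z, y, by rw [← hyi]; ring⟩

omit [NumberField F] [IQ F] in
theorem f3_uc {u c : 𝓞 F} (hu : IsUnit u) : IsCoprime u c := by
  obtain ⟨v, hv⟩ := hu.exists_left_inv
  exact ⟨v, 0, by rw [hv]; ring⟩

omit [NumberField F] [IQ F] in
theorem f3_diff {z z' : 𝓞 F} (hz : z ^ 3 = 1) (hz' : z' ^ 3 = 1) (hne : z ≠ z') : z - z' ∣ 3 := by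
  have h1 : (z - z') * (z ^ 2 + z * z' + z' ^ 2) = 0 := by linear_combination hz - hz'
  have h2 := (mul_eq_zero.1 h1).resolve_left (sub_ne_zero.2 hne)
  refine ⟨-((z - z') * z ^ 2 * z' ^ 2), ?_⟩
  linear_combination (-3) * z' ^ 3 * hz - 3 * hz' + z ^ 2 * z' ^ 2 * h2

/-- Euler's criterion for a quadratic character. -/
theorem f3_eu {γ η : 𝓞 F} {b' c k : ℤ} {κ : 𝓞 F → 𝓞 F} (hκ : PRC (𝓞 F) 2 b' c k κ)
    (hκ1 : ∀ x, IsCoprime x ((c : ℤ) : 𝓞 F) → κ x = 1 ∨ κ x = -1) (hγ : Prime γ) (g2 : ¬ γ ∣ 2)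
    (gc : ¬ γ ∣ ((c : ℤ) : 𝓞 F)) (hη : η = 1 ∨ η = -1) (h : γ ∣ (b' : 𝓞 F) ^ ((Nm γ - 1) / 2) - η) : κ γ = η := by
  have hk := hκ.euler γ hγ gc (by rw [Nat.cast_ofNat]; exact g2)
  rw [nm_card] at hk
  have hd : γ ∣ κ γ - η := by
    have := dvd_sub h hk
    have e : ((b' : 𝓞 F) ^ ((Nm γ - 1) / 2) - η) - ((b' : 𝓞 F) ^ ((Nm γ - 1) / 2) - κ γ) = κ γ - η := by ring
    rwa [e] at this
  rcases hκ1 γ (f3_pc hγ gc) with g | g <;> rcases hη with rfl | rfl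
  · exact g
  · rw [g] at hd
    have e : (1 : 𝓞 F) - -1 = 2 := by ring
    rw [e] at hd
    exact absurd hd g2
  · rw [g] at hd
    have e : (-1 : 𝓞 F) - 1 = -2 := by ring
    rw [e, dvd_neg] at hd
    exact absurd hd g2
  · exact g

/-- A prime element which divides 2 is 2 times a unit. -/
theorem f3_two (hw : EI w) {γ : 𝓞 F} (hγ : Prime γ) (h : γ ∣ 2) : ∃ u : 𝓞 F, IsUnit u ∧ 2 = γ * u := by
  obtain ⟨z, hz⟩ := h
  refine ⟨z, ?_, hz⟩
  obtain ⟨a, b, hab⟩ := hw.rep γ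
  have h1 := (ei_nm hw a b).2
  rw [← hab] at h1
  have h2 := (ei_nm hw 2 0).2
  have e2 : ((2 : ℤ) : 𝓞 F) + ((0 : ℤ) : 𝓞 F) * w = 2 := by push_cast; ring
  rw [e2, hz, H55K.Nm_mul] at h2
  push_cast at h2
  have h3 : Nm γ * Nm z = 4 := by
    have : ((Nm γ * Nm z : ℕ) : ℤ) = 4 := by push_cast; rw [h2]
    exact_mod_cast this
  have hne1 : Nm γ ≠ 1 := by
    intro hc
    apply hγ.not_isUnit
    rw [Nm, Ideal.absNorm_eq_one_iff, Ideal.span_singleton_eq_top] at hc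
    exact hc
  have hne2 : Nm γ ≠ 2 := by
    intro hc
    rw [hc] at h1
    push_cast at h1
    have ha : a % 2 = 0 ∨ a % 2 = 1 := by omega
    have hb : b % 2 = 0 ∨ b % 2 = 1 := by omega
    have hab2 : (a ^ 2 - a * b + b ^ 2) % 4 = 2 := by rw [← h1]; norm_num
    rcases ha with ha | ha <;> rcases hb with hb | hb
    · obtain ⟨c, rfl⟩ : ∃ c, a = 2 * c := ⟨a / 2, by omega⟩
      obtain ⟨d, rfl⟩ : ∃ d, b = 2 * d := ⟨b / 2, by omega⟩
      have : (2 * c) ^ 2 - 2 * c * (2 * d) + (2 * d) ^ 2 = 4 * (c ^ 2 - c * d + d ^ 2) := by ring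
      rw [this] at hab2
      omega
    · obtain ⟨c, rfl⟩ : ∃ c, a = 2 * c := ⟨a / 2, by omega⟩
      obtain ⟨d, rfl⟩ : ∃ d, b = 2 * d + 1 := ⟨b / 2, by omega⟩
      have : (2 * c) ^ 2 - 2 * c * (2 * d + 1) + (2 * d + 1) ^ 2 = 2 * (2 * c ^ 2 - c * (2 * d + 1) + 2 * d ^ 2 + 2 * d) + 1 := by ring
      rw [this] at hab2
      omega
    · obtain ⟨c, rfl⟩ : ∃ c, a = 2 * c + 1 := ⟨a / 2, by omega⟩
      obtain ⟨d, rfl⟩ : ∃ d, b = 2 * d := ⟨b / 2, by omega⟩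
      have : (2 * c + 1) ^ 2 - (2 * c + 1) * (2 * d) + (2 * d) ^ 2 = 2 * (2 * c ^ 2 + 2 * c - (2 * c + 1) * d + 2 * d ^ 2) + 1 := by ring
      rw [this] at hab2
      omega
    · obtain ⟨c, rfl⟩ : ∃ c, a = 2 * c + 1 := ⟨a / 2, by omega⟩
      obtain ⟨d, rfl⟩ : ∃ d, b = 2 * d + 1 := ⟨b / 2, by omega⟩
      have : (2 * c + 1) ^ 2 - (2 * c + 1) * (2 * d + 1) + (2 * d + 1) ^ 2 =
          2 * (2 * c ^ 2 + 2 * c - 2 * c * d - c - d + 2 * d ^ 2 + 2 * d) + 1 := by ring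
      rw [this] at hab2
      omega
  have hd : Nm γ ∣ 4 := ⟨_, h3.symm⟩
  have hle := Nat.le_of_dvd (by norm_num) hd
  have h4 : Nm γ = 4 := by
    interval_cases hN : Nm γ
    · omega
    · exact absurd rfl hne1
    · exact absurd rfl hne2
    · omega
    · rfl
  rw [h4] at h3
  have h5 : Nm z = 1 := by omega
  rw [Nm, Ideal.absNorm_eq_one_iff, Ideal.span_singleton_eq_top] at h5
  exact h5

/-- Chunk F3 (M). pr from exists_pr (n0 = 3: ei_ex, ei_uniq), κ₂ from quad_any (b' even: c = 2b', k = 8b') or quad_odd (b' odd, b' = 1 mod 4: c = k = b'). f x = pr x * κ₃ x * κ₂ x. x prime to M is prime to D = -27 b'^2 (cop_of), so to 3, 3 b', and to 2 b' if b' is even; elements of M are divisible by 27 b', by 3, and by 8 b' if b' is even (D^3 = -27^3 b'^6).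
un: κ₃^3 = 1, κ₂^2 = 1. mul, per: clear. inv: κ (u x) = κ u κ x = κ x (PRC.unit; a unit is prime to everything). The last statement: π = γ a prime, N = Nm γ (nm_card): pr γ = η ζ^2 =: u (exists_pr: u γ ≡ η ζ^2 η ζ = ζ^3 η^2 = 1 mod 3; ζ^3 = 1: ei_root); κ₃ γ = ζ: γ divides b'^((N-1)/3) - κ₃ γ (PRC.euler; γ does not divide 3 b' and 3) and b'^((N-1)/3) - ζ, so γ divides κ₃ γ - ζ; both are cube roots of 1
(powers of w: κ₃^3 = 1), and differences of different ones divide 3 (compare H35T.mu3_inj): κ₃ γ = ζ. κ₂ γ = η: if γ does not divide 2: the same with b'^((N-1)/2) (differences divide 2). If γ divides 2: γ does not divide b', so b' is odd, b' = 1 mod 4, η = 1; 2 is a prime element (the norm a^2 - ab + b^2 is never 2), γ = unit times 2, κ₂ γ = κ₂ 2 = 1. So f γ = η ζ^2 ζ η = 1. -/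
theorem exists_f3 (hw : EI w) {b' : ℤ} (hb : b' ≠ 0) (h4 : b' % 2 = 1 → b' % 4 = 1) {κ₃ : 𝓞 F → 𝓞 F}
    (hκ : PRC (𝓞 F) 3 b' (3 * b') (27 * b') κ₃) {D : ℤ} (hD : D = -27 * b' ^ 2) :
    ∃ f : 𝓞 F → 𝓞 F, HF (Ideal.span {((D : ℤ) : 𝓞 F) ^ 3}) f ∧ ∀ γ η ζ : 𝓞 F, Prime γ → ¬ γ ∣ ((D : ℤ) : 𝓞 F) → (3 : 𝓞 F) ∣ γ - η * ζ →
      (η = 1 ∨ η = -1) → (∃ i : ℕ, ζ = w ^ i) → γ ∣ (b' : 𝓞 F) ^ ((Nm γ - 1) / 3) - ζ →
      (¬ γ ∣ 2 → γ ∣ (b' : 𝓞 F) ^ ((Nm γ - 1) / 2) - η) → (γ ∣ 2 → b' % 4 = 1 → η = 1) → f γ = 1 := by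
  have hDc : ((D : ℤ) : 𝓞 F) = -27 * (b' : 𝓞 F) ^ 2 := by rw [hD]; push_cast; ring
  have hw3 : w ^ 3 = 1 := (ei_root hw).pow_eq_one
  have hwu : ∀ i : ℕ, IsUnit (w ^ i) := by
    intro i
    refine IsUnit.pow i (IsUnit.of_mul_eq_one (w ^ 2) ?_)
    rw [← hw3]
    ring
  obtain ⟨pr, p1, p2, p3, p4, p5⟩ := exists_pr (3 : 𝓞 F) (fun x hx => ei_ex hw hx) (fun u hu hd => ei_uniq hw hu hd)
  obtain ⟨κ, c, k, hk2, hk1, hcD, hkD, hfin⟩ : ∃ (κ : 𝓞 F → 𝓞 F) (c k : ℤ), PRC (𝓞 F) 2 b' c k κ ∧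
      (∀ x, IsCoprime x ((c : ℤ) : 𝓞 F) → κ x = 1 ∨ κ x = -1) ∧ ((c : ℤ) : 𝓞 F) ∣ ((D : ℤ) : 𝓞 F) ^ 1 ∧
      ((k : ℤ) : 𝓞 F) ∣ ((D : ℤ) : 𝓞 F) ^ 3 ∧ ∀ γ η : 𝓞 F, Prime γ → ¬ γ ∣ ((D : ℤ) : 𝓞 F) → (η = 1 ∨ η = -1) →
      (¬ γ ∣ 2 → γ ∣ (b' : 𝓞 F) ^ ((Nm γ - 1) / 2) - η) → (γ ∣ 2 → b' % 4 = 1 → η = 1) → κ γ = η := by
    rcases Int.emod_two_eq_zero_or_one b' with hb2 | hb2
    · obtain ⟨κ, hκ', hκ1⟩ := quad_any (F := F) hb
      obtain ⟨m, rfl⟩ : ∃ m, b' = 2 * m := ⟨b' / 2, by omega⟩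
      have c1 : ((2 * (2 * m) : ℤ) : 𝓞 F) ∣ ((D : ℤ) : 𝓞 F) ^ 1 := by
        rw [hDc]
        exact ⟨-27 * (m : 𝓞 F), by push_cast; ring⟩
      refine ⟨κ, _, _, hκ', hκ1, c1, ?_, ?_⟩
      · rw [hDc]
        exact ⟨-78732 * (m : 𝓞 F) ^ 5, by push_cast; ring⟩
      · intro γ η hγ hγD hη h1 h2
        have g2 : ¬ γ ∣ 2 := fun h => hγD (h.trans ⟨-54 * (m : 𝓞 F) ^ 2, by rw [hDc]; push_cast; ring⟩)
        have gc : ¬ γ ∣ ((2 * (2 * m) : ℤ) : 𝓞 F) := fun h => hγD (by rw [← pow_one ((D : ℤ) : 𝓞 F)]; exact h.trans c1)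
        exact f3_eu hκ' hκ1 hγ g2 gc hη (h1 g2)
    · have h41 := h4 hb2
      obtain ⟨κ, hκ', hκ1, hκ2⟩ := quad_odd (F := F) h41
      have c1 : ((b' : ℤ) : 𝓞 F) ∣ ((D : ℤ) : 𝓞 F) ^ 1 := by
        rw [hDc]
        exact ⟨-27 * (b' : 𝓞 F), by ring⟩
      refine ⟨κ, _, _, hκ', hκ1, c1, ?_, ?_⟩
      · rw [hDc]
        exact ⟨-19683 * (b' : 𝓞 F) ^ 5, by ring⟩
      · intro γ η hγ hγD hη h1 h2
        have gc : ¬ γ ∣ ((b' : ℤ) : 𝓞 F) := fun h => hγD (by rw [← pow_one ((D : ℤ) : 𝓞 F)]; exact h.trans c1)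
        by_cases g2 : γ ∣ 2
        · rw [h2 g2 h41]
          obtain ⟨u, hu, h2u⟩ := f3_two hw hγ g2
          have e := hκ'.mul γ u (f3_pc hγ gc) (f3_uc hu)
          rw [← h2u, hκ2, hκ'.unit u hu, mul_one] at e
          exact e.symm
        · exact f3_eu hκ' hκ1 hγ g2 gc hη (h1 g2)
  have c3 : ((3 * b' : ℤ) : 𝓞 F) ∣ ((D : ℤ) : 𝓞 F) ^ 1 := by
    rw [hDc]
    exact ⟨-9 * (b' : 𝓞 F), by push_cast; ring⟩
  have d3 : (3 : 𝓞 F) ∣ ((D : ℤ) : 𝓞 F) ^ 1 := by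
    rw [hDc]
    exact ⟨-9 * (b' : 𝓞 F) ^ 2, by ring⟩
  have k1 : ∀ z : 𝓞 F, z ∈ Ideal.span {((D : ℤ) : 𝓞 F) ^ 3} → (3 : 𝓞 F) ∣ z ∧ ((27 * b' : ℤ) : 𝓞 F) ∣ z ∧ ((k : ℤ) : 𝓞 F) ∣ z := by
    intro z hz
    rw [Ideal.mem_span_singleton] at hz
    refine ⟨dvd_trans ?_ hz, dvd_trans ?_ hz, hkD.trans hz⟩
    · rw [hDc]
      exact ⟨-6561 * (b' : 𝓞 F) ^ 6, by ring⟩
    · rw [hDc]
      exact ⟨-729 * (b' : 𝓞 F) ^ 5, by push_cast; ring⟩
  refine ⟨fun x => pr x * κ₃ x * κ x, ⟨?_, ?_, ?_, ?_⟩, ?_⟩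
  · intro x hx
    refine ((p1 x (cop_of d3 hx)).1.mul (IsUnit.of_mul_eq_one (κ₃ x ^ 2) ?_)).mul (IsUnit.of_mul_eq_one (κ x) ?_)
    · rw [← hκ.root x (cop_of c3 hx)]
      ring
    · rw [← hk2.root x (cop_of hcD hx)]
      ring
  · intro x y hx hy
    show pr (x * y) * κ₃ (x * y) * κ (x * y) = pr x * κ₃ x * κ x * (pr y * κ₃ y * κ y)
    rw [p2 x y (cop_of d3 hx) (cop_of d3 hy), hκ.mul x y (cop_of c3 hx) (cop_of c3 hy), hk2.mul x y (cop_of hcD hx) (cop_of hcD hy)]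
    ring
  · intro u x hu hx
    show pr (u * x) * κ₃ (u * x) * κ (u * x) * u = pr x * κ₃ x * κ x
    have g1 : κ₃ (u * x) = κ₃ x := by
      rw [hκ.mul u x (f3_uc hu) (cop_of c3 hx), hκ.unit u hu, one_mul]
    have g2 : κ (u * x) = κ x := by
      rw [hk2.mul u x (f3_uc hu) (cop_of hcD hx), hk2.unit u hu, one_mul]
    rw [g1, g2, ← p3 u x hu (cop_of d3 hx)]
    ring
  · intro x y hx hy hxy
    show pr x * κ₃ x * κ x = pr y * κ₃ y * κ y
    obtain ⟨g1, g2, g3⟩ := k1 _ hxy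
    rw [p4 x y (cop_of d3 hx) (cop_of d3 hy) g1, hκ.per x y (cop_of c3 hx) (cop_of c3 hy) g2,
      hk2.per x y (cop_of hcD hx) (cop_of hcD hy) g3]
  · rintro γ η _ hγ hγD h1 hη ⟨i, rfl⟩ h2 h3 h5
    show pr γ * κ₃ γ * κ γ = 1
    have gD : IsCoprime γ (((D : ℤ) : 𝓞 F) ^ 1) := f3_pc hγ (by rwa [pow_one])
    have g3 : ¬ γ ∣ 3 := fun h => hγD (by rw [← pow_one ((D : ℤ) : 𝓞 F)]; exact h.trans d3)
    have gc : ¬ γ ∣ ((3 * b' : ℤ) : 𝓞 F) := fun h => hγD (by rw [← pow_one ((D : ℤ) : 𝓞 F)]; exact h.trans c3)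
    have hz : (w ^ i) ^ 3 = 1 := by rw [← pow_mul, mul_comm, pow_mul, hw3, one_pow]
    have hη2 : η ^ 2 = 1 := by rcases hη with rfl | rfl <;> ring
    have hηu : IsUnit η := IsUnit.of_mul_eq_one η (by rw [← hη2]; ring)
    have hp : pr γ = η * (w ^ i) ^ 2 := by
      refine p5 _ γ (hηu.mul ((hwu i).pow 2)) (gD.of_isCoprime_of_dvd_right d3) ?_
      have e : η * (w ^ i) ^ 2 * γ - 1 = η * (w ^ i) ^ 2 * (γ - η * w ^ i) := by
        linear_combination (w ^ i) ^ 3 * hη2 + hz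
      rw [e]
      exact h1.mul_left _
    have hk3 := hκ.euler γ hγ gc (by rw [Nat.cast_ofNat]; exact g3)
    rw [nm_card] at hk3
    have hd : γ ∣ κ₃ γ - w ^ i := by
      have := dvd_sub h2 hk3
      have e : ((b' : 𝓞 F) ^ ((Nm γ - 1) / 3) - w ^ i) - ((b' : 𝓞 F) ^ ((Nm γ - 1) / 3) - κ₃ γ) = κ₃ γ - w ^ i := by ring
      rwa [e] at this
    have hk1' : κ₃ γ = w ^ i := by
      by_contra hne
      exact g3 (hd.trans (f3_diff (hκ.root γ (gD.of_isCoprime_of_dvd_right c3)) hz hne))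
    rw [hp, hk1', hfin γ η hγ hγD hη h3 h5]
    linear_combination (w ^ i) ^ 3 * hη2 + hz

end H55W
end

-- from Lib.H55W.L8C
section

/-! # H55W, part L: the integers a + b sqrt(-2) -/

open NumberField IsDedekindDomain

namespace H55W

open H55P (IQ embF eF Nm)
open H55K (cj)

variable {F : Type} [Field F] [NumberField F] [IQ F] {φ : 𝓞 F}

/-- Chunk L8C (M). The sign character. ε x = 1 if 2φ | x - kap (Nm x), -1 otherwise (classical). mul: kap_mul, ti_kap, kap_ne, Nm_mul. per: ti_per, x - y divisible by 8 (so by 2φ: 8 = 2φ (-2φ)). neg: Nm (-x) = Nm x. -/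
theorem exists_eps (h : TI φ) : ∃ ε : 𝓞 F → 𝓞 F, (∀ x, ¬ φ ∣ x → (ε x = 1 ∨ ε x = -1) ∧ 2 * φ ∣ ε x * x - kap φ (Nm x)) ∧
    (∀ x y, ¬ φ ∣ x → ¬ φ ∣ y → ε (x * y) = ε x * ε y) ∧ (∀ x, ¬ φ ∣ x → ε (-x) = -ε x) ∧
    (∀ x y, ¬ φ ∣ x → ¬ φ ∣ y → (8 : 𝓞 F) ∣ x - y → ε x = ε y) ∧
    ∀ x η, ¬ φ ∣ x → (η = 1 ∨ η = -1) → 2 * φ ∣ x - η * kap φ (Nm x) → ε x = η := by
  classical
  obtain ⟨ε, hε⟩ : ∃ ε : 𝓞 F → 𝓞 F, ε = fun x => if 2 * φ ∣ x - kap φ (Nm x) then 1 else -1 := ⟨_, rfl⟩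
  have e1 : ∀ x, 2 * φ ∣ x - kap φ (Nm x) → ε x = 1 := by
    intro x hx
    rw [hε]
    exact if_pos hx
  have e2 : ∀ x, ¬ 2 * φ ∣ x - kap φ (Nm x) → ε x = -1 := by
    intro x hx
    rw [hε]
    exact if_neg hx
  have e3 : ∀ x, ε x = 1 ∨ ε x = -1 := by
    intro x
    by_cases hx : 2 * φ ∣ x - kap φ (Nm x)
    · exact Or.inl (e1 x hx)
    · exact Or.inr (e2 x hx)
  have e4 : ∀ x η, (η = 1 ∨ η = -1) → 2 * φ ∣ x - η * kap φ (Nm x) → ε x = η := by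
    rintro x η (rfl | rfl) hx
    · rw [one_mul] at hx
      exact e1 x hx
    · refine e2 x fun h1 => ?_
      have h2 : x - -1 * kap φ (Nm x) = x + kap φ (Nm x) := by ring
      rw [h2] at hx
      exact kap_ne h h1 hx
  have e5 : ∀ x, ¬ φ ∣ x → 2 * φ ∣ x - ε x * kap φ (Nm x) := by
    intro x hx
    rcases (ti_kap h hx).2 with h1 | h1
    · rw [e1 x h1, one_mul]
      exact h1
    · have h2 : ¬ 2 * φ ∣ x - kap φ (Nm x) := fun h3 => kap_ne h h3 h1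
      rw [e2 x h2]
      have h3 : x - -1 * kap φ (Nm x) = x + kap φ (Nm x) := by ring
      rw [h3]
      exact h1
  have e6 : ∀ x, ε x * ε x = 1 := by
    intro x
    rcases e3 x with h1 | h1 <;> rw [h1] <;> ring
  refine ⟨ε, fun x hx => ⟨e3 x, ?_⟩, ?_, ?_, ?_, fun x η _ hη h1 => e4 x η hη h1⟩
  · have h1 : ε x * x - kap φ (Nm x) = ε x * (x - ε x * kap φ (Nm x)) := by
      linear_combination (kap φ (Nm x)) * e6 x
    rw [h1]
    exact (e5 x hx).mul_left _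
  · intro x y hx hy
    refine e4 _ _ ?_ ?_
    · rcases e3 x with h1 | h1 <;> rcases e3 y with h2 | h2 <;> rw [h1, h2] <;> simp
    · rw [H55K.Nm_mul]
      obtain ⟨z, hz⟩ := e5 x hx
      obtain ⟨z', hz'⟩ := e5 y hy
      obtain ⟨z'', hz''⟩ := (kap_mul h (ti_kap h hx).1 (ti_kap h hy).1).2
      refine ⟨z * y + ε x * kap φ (Nm x) * z' + ε x * ε y * z'', ?_⟩
      linear_combination y * hz + ε x * kap φ (Nm x) * hz' + ε x * ε y * hz''
  · intro x hx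
    have hN : Nm (-x) = Nm x := by
      unfold Nm
      rw [Ideal.span_singleton_neg]
    refine e4 _ _ ?_ ?_
    · rcases e3 x with h1 | h1 <;> rw [h1] <;> simp
    · rw [hN]
      have h1 : -x - -ε x * kap φ (Nm x) = -(x - ε x * kap φ (Nm x)) := by ring
      rw [h1]
      exact (e5 x hx).neg_right
  · intro x y hx hy hxy
    refine e4 _ _ (e3 y) ?_
    have h1 : kap φ (Nm x) = kap φ (Nm y) := by
      unfold kap
      rw [ti_per h hxy]
    rw [h1]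
    obtain ⟨z, hz⟩ := hxy
    obtain ⟨z', hz'⟩ := e5 y hy
    refine ⟨-2 * φ * z + z', ?_⟩
    linear_combination hz + hz' + 4 * z * h.sq

end H55W
end

-- from Lib.H55W.F8
section

/-! # H55W, part F: the function defining the Hecke character, discriminant -8 -/

open NumberField IsDedekindDomain

namespace H55W

open H55P (IQ embF eF Nm)
open H55K (cj)

variable {F : Type} [Field F] [NumberField F] [IQ F] {φ : 𝓞 F}

omit [NumberField F] [IQ F] in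
theorem f8_cop {x : 𝓞 F} {D : ℤ} {c : 𝓞 F} {j : ℕ} (hc : c ∣ ((D : ℤ) : 𝓞 F) ^ j)
    (hx : IsCoprime (Ideal.span {x}) (Ideal.span {((D : ℤ) : 𝓞 F) ^ 3})) : IsCoprime x c := by
  rw [Ideal.isCoprime_span_singleton_iff] at hx
  have h1 : IsCoprime x ((D : ℤ) : 𝓞 F) := (IsCoprime.pow_right_iff (by norm_num)).1 hx
  exact (h1.pow_right (n := j)).of_isCoprime_of_dvd_right hc

omit [IQ F] in
theorem f8_pc {γ a : 𝓞 F} (hγ : Prime γ) (h : ¬ γ ∣ a) : IsCoprime γ a := by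
  have hp : (Ideal.span {γ}).IsPrime := (Ideal.span_singleton_prime hγ.ne_zero).2 hγ
  have hm : (Ideal.span {γ}).IsMaximal := hp.isMaximal (by
    rw [Ne, Ideal.span_singleton_eq_bot]
    exact hγ.ne_zero)
  obtain ⟨y, i, hi, hyi⟩ := hm.exists_inv (x := a) (by rwa [Ideal.mem_span_singleton])
  obtain ⟨z, rfl⟩ := Ideal.mem_span_singleton.1 hi
  exact ⟨z, y, by rw [← hyi]; ring⟩

omit [NumberField F] [IQ F] in
theorem f8_uc {u c : 𝓞 F} (hu : IsUnit u) : IsCoprime u c := by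
  obtain ⟨v, hv⟩ := hu.exists_left_inv
  exact ⟨v, 0, by rw [hv]; ring⟩

omit [IQ F] in
theorem f8_two (hφ : TI φ) : φ ∣ 2 := ⟨-φ, by linear_combination hφ.sq⟩

theorem f8_nu (hφ : TI φ) : ¬ IsUnit φ := by
  intro hu
  have h1 := nm_unit hu
  have h2 := (ti_nm hφ 0 1).2
  have h3 : ((0 : ℤ) : 𝓞 F) + ((1 : ℤ) : 𝓞 F) * φ = φ := by push_cast; ring
  rw [h3, h1] at h2
  norm_num at h2

/-- Chunk F8 (M). ε from exists_eps, κ from quad_any for n (c = 2n, k = 8n); f x = ε x * κ x. 8D = n^6, D even (h2): n = 2n', D = 8n'^6. x prime to M is prime to D, so to 2, to φ (φ does not divide x: φ divides 2; φ is not a unit, ti_nm), to 2n (2n divides 4 n'.. divides D^j). Elements of M are divisible by 8 and by 8n = 16 n' (D^3 = 512 n'^18). inv: units are 1, -1 (ti_unit): ε (-x) (-1) = ε x; κ (u x) = κ x (PRC.unit).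
The last statement: γ a prime, N = Nm γ (nm_card): ε γ = η (exists_eps), κ γ = η: γ divides n^((N-1)/2) - κ γ (PRC.euler: γ does not divide 2n and 2) and n^((N-1)/2) - η, both are 1 or -1, γ does not divide 2. f γ = η η = 1. -/
theorem exists_f8 (hφ : TI φ) {n : ℤ} (h0 : n ≠ 0) {D : ℤ} (hD : 8 * D = n ^ 6) (h2 : D % 2 = 0) :
    ∃ f : 𝓞 F → 𝓞 F, HF (Ideal.span {((D : ℤ) : 𝓞 F) ^ 3}) f ∧ ∀ γ η : 𝓞 F, Prime γ → ¬ γ ∣ ((D : ℤ) : 𝓞 F) → (η = 1 ∨ η = -1) →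
      2 * φ ∣ γ - η * kap φ (Nm γ) → γ ∣ (n : 𝓞 F) ^ ((Nm γ - 1) / 2) - η → f γ = 1 := by
  obtain ⟨m, rfl⟩ : ∃ m, n = 2 * m := by
    have h1 : Even (n ^ 6) := by
      rw [← hD]
      exact ⟨4 * D, by ring⟩
    rw [Int.even_pow' (by norm_num)] at h1
    obtain ⟨m, hm⟩ := h1
    exact ⟨m, by rw [hm]; ring⟩
  have hD' : D = 8 * m ^ 6 := by
    have : 8 * D = 8 * (8 * m ^ 6) := by rw [hD]; ring
    linarith
  have hDc : ((D : ℤ) : 𝓞 F) = 8 * (m : 𝓞 F) ^ 6 := by rw [hD']; push_cast; ring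
  obtain ⟨ε, e1, e2, e3, e4, e5⟩ := exists_eps hφ
  obtain ⟨κ, hκ, hκ1⟩ := quad_any (F := F) h0
  -- coprimality
  have c1 : ((2 * (2 * m) : ℤ) : 𝓞 F) ∣ ((D : ℤ) : 𝓞 F) ^ 1 := by
    rw [hDc]
    exact ⟨2 * (m : 𝓞 F) ^ 5, by push_cast; ring⟩
  have d2 : (2 : 𝓞 F) ∣ ((D : ℤ) : 𝓞 F) ^ 1 := by
    rw [hDc]
    exact ⟨4 * (m : 𝓞 F) ^ 6, by ring⟩
  have c2 : φ ∣ ((D : ℤ) : 𝓞 F) ^ 1 := (f8_two hφ).trans d2
  have c3 : ∀ x : 𝓞 F, IsCoprime x φ → ¬ φ ∣ x := by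
    intro x hx hd
    exact f8_nu hφ (hx.isUnit_of_dvd' hd dvd_rfl)
  have k1 : ∀ z : 𝓞 F, z ∈ Ideal.span {((D : ℤ) : 𝓞 F) ^ 3} → (8 : 𝓞 F) ∣ z ∧ ((8 * (2 * m) : ℤ) : 𝓞 F) ∣ z := by
    intro z hz
    rw [Ideal.mem_span_singleton] at hz
    constructor
    · refine dvd_trans ?_ hz
      rw [hDc]
      exact ⟨64 * (m : 𝓞 F) ^ 18, by ring⟩
    · refine dvd_trans ?_ hz
      rw [hDc]
      exact ⟨32 * (m : 𝓞 F) ^ 17, by push_cast; ring⟩
  refine ⟨fun x => ε x * κ x, ⟨?_, ?_, ?_, ?_⟩, ?_⟩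
  · intro x hx
    have g1 := (e1 x (c3 x (f8_cop c2 hx))).1
    have g2 := hκ1 x (f8_cop c1 hx)
    refine IsUnit.mul ?_ ?_
    · rcases g1 with g | g <;> rw [g]
      · exact isUnit_one
      · exact isUnit_one.neg
    · rcases g2 with g | g <;> rw [g]
      · exact isUnit_one
      · exact isUnit_one.neg
  · intro x y hx hy
    show ε (x * y) * κ (x * y) = ε x * κ x * (ε y * κ y)
    rw [e2 x y (c3 x (f8_cop c2 hx)) (c3 y (f8_cop c2 hy)), hκ.mul x y (f8_cop c1 hx) (f8_cop c1 hy)]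
    ring
  · intro u x hu hx
    show ε (u * x) * κ (u * x) * u = ε x * κ x
    have g1 : κ (u * x) = κ x := by
      rw [hκ.mul u x (f8_uc hu) (f8_cop c1 hx), hκ.unit u hu, one_mul]
    rw [g1]
    rcases ti_unit hφ hu with rfl | rfl
    · rw [one_mul, mul_one]
    · rw [neg_one_mul, e3 x (c3 x (f8_cop c2 hx))]
      ring
  · intro x y hx hy hxy
    show ε x * κ x = ε y * κ y
    obtain ⟨g1, g2⟩ := k1 _ hxy
    rw [e4 x y (c3 x (f8_cop c2 hx)) (c3 y (f8_cop c2 hy)) g1, hκ.per x y (f8_cop c1 hx) (f8_cop c1 hy) g2]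
  · intro γ η hγ hγD hη h1 h2'
    show ε γ * κ γ = 1
    have gD : IsCoprime γ (((D : ℤ) : 𝓞 F) ^ 1) := f8_pc hγ (by rwa [pow_one])
    have g2 : ¬ γ ∣ 2 := fun h => hγD (by rw [← pow_one ((D : ℤ) : 𝓞 F)]; exact h.trans d2)
    have gc : ¬ γ ∣ ((2 * (2 * m) : ℤ) : 𝓞 F) := fun h => hγD (by rw [← pow_one ((D : ℤ) : 𝓞 F)]; exact h.trans c1)
    have gφ : ¬ φ ∣ γ := c3 γ (gD.of_isCoprime_of_dvd_right c2)
    have he : ε γ = η := e5 γ η gφ hη h1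
    have hk := hκ.euler γ hγ gc (by rw [Nat.cast_ofNat]; exact g2)
    rw [nm_card] at hk
    have hd : γ ∣ κ γ - η := by
      have := dvd_sub h2' hk
      have e : (((2 * m : ℤ) : 𝓞 F) ^ ((Nm γ - 1) / 2) - η) - (((2 * m : ℤ) : 𝓞 F) ^ ((Nm γ - 1) / 2) - κ γ) = κ γ - η := by ring
      rwa [e] at this
    have hkη : κ γ = η := by
      rcases hκ1 γ (gD.of_isCoprime_of_dvd_right c1) with g | g <;> rcases hη with rfl | rfl
      · exact g
      · rw [g] at hd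
        have e : (1 : 𝓞 F) - -1 = 2 := by ring
        rw [e] at hd
        exact absurd hd g2
      · rw [g] at hd
        have e : (-1 : 𝓞 F) - 1 = -2 := by ring
        rw [e, dvd_neg] at hd
        exact absurd hd g2
      · exact g
    rw [he, hkη]
    rcases hη with rfl | rfl <;> ring

end H55W
end

-- from Lib.H55W.G5
section

/-! # H55W, part G: quartic reciprocity for a prime of degree one and a rational prime -/

open NumberField IsDedekindDomain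

namespace H55W

open H55P (IQ embF eF Nm)
open H55K (cj)

variable {F : Type} [Field F] [NumberField F] [IQ F] {I : 𝓞 F} {P : Ideal (𝓞 F)} {p : ℕ} {k : Type} [Field k] [Fintype k] {φ : 𝓞 F →+* k} {χ : MulChar k (𝓞 F)}

/-- Chunk G5T (M). Compare H35T/R2.lean (gauss_law). κ = 𝓞 F ⧸ Λ, a finite field of characteristic l. ψ0 = FiniteField.primitiveChar k κ (ringChar κ = l ≠ p = ringChar k) with values in the cyclotomic field R' = CyclotomicField ψ0.n κ (ψ0.char, ψ0.prim); f = (algebraMap κ R').comp (Ideal.Quotient.mk Λ), kernel Λ (algebraMap of fields is injective).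
jacobiSum_ringHomComp; MulChar.ringHomComp_pow. Order 4: (χ comp f)^2 ≠ 1: otherwise f (χ y)^2 = 1 for all y ≠ 0, where χ y = ps = I^i (ps_spec, h.surj, h.chi), so I^(2i) - 1 is in Λ and I^(2i) = 1 (ps_inj for Λ), so χ^2 = 1: contradiction to the order; (χ comp f)^4 = 1 (χ^4 = 1). orderOf = 4: orderOf_eq_prime_pow or the divisors of 4. -/
theorem exists_R (h : QC I P p k φ χ) {Λ : Ideal (𝓞 F)} (hΛ : PP 4 I Λ) {l : ℕ} (hl : l.Prime) (hlΛ : (l : 𝓞 F) ∈ Λ)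
    (hne : l ≠ p) : ∃ (R' : Type) (_ : Field R') (_ : CharP R' l) (f : 𝓞 F →+* R') (ψ : AddChar k R'), RingHom.ker f = Λ ∧
      ψ.IsPrimitive ∧ orderOf (χ.ringHomComp f) = 4 ∧
      jacobiSum (χ.ringHomComp f) ((χ.ringHomComp f) ^ 2) = f (jacobiSum χ (χ ^ 2)) := by
  classical
  have hmax : Λ.IsMaximal := hΛ.pr.isMaximal hΛ.ne
  let i1 := Ideal.Quotient.field Λ
  have i3 : Finite (𝓞 F ⧸ Λ) := Ideal.finiteQuotientOfFreeOfNeBot Λ hΛ.ne
  let i2 := @Fintype.ofFinite _ i3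
  have hcl : CharP (𝓞 F ⧸ Λ) l := by
    have h0 : ((l : ℕ) : 𝓞 F ⧸ Λ) = 0 := by
      have := Ideal.Quotient.eq_zero_iff_mem.2 hlΛ
      simpa using this
    exact (CharP.charP_iff_prime_eq_zero hl).2 h0
  have hpF : Fact p.Prime := ⟨h.prime⟩
  have hcp : CharP k p := charP_of_card_eq_prime h.card
  have hch : ringChar (𝓞 F ⧸ Λ) ≠ ringChar k := by
    rw [ringChar.eq (𝓞 F ⧸ Λ) l, ringChar.eq k p]
    exact hne
  let ψ := AddChar.FiniteField.primitiveChar k (𝓞 F ⧸ Λ) hch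
  let R' := CyclotomicField ψ.n (𝓞 F ⧸ Λ)
  have hcR : CharP R' l := charP_of_injective_algebraMap (algebraMap (𝓞 F ⧸ Λ) R').injective l
  let ι : 𝓞 F →+* R' := (algebraMap (𝓞 F ⧸ Λ) R').comp (Ideal.Quotient.mk Λ)
  have hι : ∀ x : 𝓞 F, ι x = 0 ↔ x ∈ Λ := by
    intro x
    rw [← Ideal.Quotient.eq_zero_iff_mem]
    exact map_eq_zero (algebraMap (𝓞 F ⧸ Λ) R')
  have h4 : χ ^ 4 = 1 := by rw [← h.order]; exact pow_orderOf_eq_one χ
  have h2 : χ ^ 2 ≠ 1 := fun h3 => by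
    have := orderOf_dvd_of_pow_eq_one h3
    rw [h.order] at this
    omega
  refine ⟨R', inferInstance, hcR, ι, ψ.char, ?_, ψ.prim, ?_, ?_⟩
  · ext x
    rw [RingHom.mem_ker]
    exact hι x
  · have e : (4 : ℕ) = 2 ^ (1 + 1) := by norm_num
    rw [e]
    refine orderOf_eq_prime_pow (p := 2) (n := 1) ?_ ?_
    · intro h1
      rw [pow_one, MulChar.ringHomComp_pow] at h1
      apply h2
      apply MulChar.ext
      intro a
      obtain ⟨x, hx⟩ := h.surj (a : k)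
      have hxP : x ∉ P := by
        intro h0
        rw [← h.ker, RingHom.mem_ker, hx] at h0
        exact a.ne_zero h0
      have h5 : ((χ ^ 2).ringHomComp ι) a = 1 := by rw [h1, MulChar.one_apply_coe]
      rw [MulChar.ringHomComp_apply, MulChar.pow_apply_coe, ← hx, h.chi] at h5
      obtain ⟨i, hi⟩ := (ps_spec h.pp hxP).1
      rw [MulChar.one_apply_coe, MulChar.pow_apply_coe, ← hx, h.chi, hi, ← pow_mul]
      rw [hi, ← pow_mul] at h5
      have h6 : I ^ (i * 2) - I ^ 0 ∈ Λ := by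
        rw [← hι, map_sub, h5, pow_zero, map_one, sub_self]
      rw [ps_inj hΛ h6, pow_zero]
    · rw [MulChar.ringHomComp_pow]
      have e2 : χ ^ 2 ^ (1 + 1) = 1 := h4
      rw [e2]
      apply MulChar.ext
      intro a
      rw [MulChar.ringHomComp_apply, MulChar.one_apply_coe, map_one, MulChar.one_apply_coe]
  · rw [MulChar.ringHomComp_pow]
    exact jacobiSum_ringHomComp χ (χ ^ 2) ι

/-- Chunk G5E (S). k = 𝓞 F ⧸ span {π} with its structure of a finite field, φ the quotient map; exists_char (S3.lean), card_k, pp_pi (π is not divisible by 1 + I: pry_cop). -/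
theorem exists_QC (h : GI I) {π : 𝓞 F} (hπ : Prime π) (hp : Pry I π) (hpp : p.Prime) (hN : Nm π = p) :
    ∃ (k : Type) (_ : Field k) (_ : Fintype k) (φ : 𝓞 F →+* k) (χ : MulChar k (𝓞 F)), QC I (Ideal.span {π}) p k φ χ := by
  classical
  have hP : PP 4 I (Ideal.span {π}) := pp_pi h hπ (pry_cop h hp).1
  have hmax : (Ideal.span {π}).IsMaximal := hP.pr.isMaximal hP.ne
  let i1 := Ideal.Quotient.field (Ideal.span {π})
  have i3 : Finite (𝓞 F ⧸ Ideal.span {π}) := Ideal.finiteQuotientOfFreeOfNeBot _ hP.ne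
  let i2 := @Fintype.ofFinite _ i3
  obtain ⟨χ, h4, ho, hχ⟩ := exists_char hP (𝓞 F ⧸ Ideal.span {π}) (Ideal.Quotient.mk (Ideal.span {π}))
    Ideal.Quotient.mk_surjective Ideal.mk_ker
  exact ⟨𝓞 F ⧸ Ideal.span {π}, i1, i2, Ideal.Quotient.mk (Ideal.span {π}), χ, h, hP, hpp, hN,
    Ideal.Quotient.mk_surjective, Ideal.mk_ker, (card_k _ _ Ideal.Quotient.mk_surjective Ideal.mk_ker).trans hN,
    ho, hχ⟩

end H55W
end

-- from Lib.H55W.G5A
section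

/-! # H55W, part G: quartic reciprocity for a prime of degree one and a rational prime -/

open NumberField IsDedekindDomain

namespace H55W

open H55P (IQ embF eF Nm)
open H55K (cj)

variable {F : Type} [Field F] [NumberField F] [IQ F] {I : 𝓞 F}

/-- two coprime numbers are not both divisible by a prime element -/
theorem g5a_cop {π : 𝓞 F} (hπ : Prime π) {p l : ℕ} (hpp : p.Prime) (hl : l.Prime) (hne : l ≠ p)
    (h1 : π ∣ (p : 𝓞 F)) (h2 : π ∣ (l : 𝓞 F)) : False := by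
  have hc : IsCoprime (l : ℤ) (p : ℤ) := by
    rw [Nat.isCoprime_iff_coprime]
    exact (Nat.coprime_primes hl hpp).2 hne
  obtain ⟨a, b, hab⟩ := hc
  apply hπ.not_unit
  rw [isUnit_iff_dvd_one]
  have h3 : ((a * (l : ℤ) + b * (p : ℤ) : ℤ) : 𝓞 F) = 1 := by rw [hab, Int.cast_one]
  rw [← h3]
  push_cast
  exact dvd_add (h2.mul_left _) (h1.mul_left _)

theorem g5a_mem {x y : 𝓞 F} {R' : Type} [Field R'] {f : 𝓞 F →+* R'} {L : Ideal (𝓞 F)}
    (hk : RingHom.ker f = L) (h : f x = f y) : x - y ∈ L := by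
  rw [← hk, RingHom.mem_ker, map_sub, h, sub_self]

theorem g5a_setup (h : GI I) {π : 𝓞 F} (hπ : Prime π) (hp : Pry I π) {p : ℕ} (hpp : p.Prime)
    (hN : Nm π = p) {l : ℕ} (hl : l.Prime) (hne : l ≠ p) {L : Ideal (𝓞 F)} (hL : PP 4 I L)
    (hlL : (l : 𝓞 F) ∈ L) :
    (∀ t, l = 4 * t + 1 → ps 4 I (Ideal.span {π}) (l : 𝓞 F) * (π ^ 3 * cj π) ^ t - 1 ∈ L) ∧
    (∀ t, l + 1 = 4 * t → (π ^ 3 * cj π) ^ t -
      ps 4 I (Ideal.span {π}) (-(l : 𝓞 F)) * (π * cj π) ∈ L) := by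
  obtain ⟨k, i1, i2, φ, χ, hQ⟩ := exists_QC h hπ hp hpp hN
  obtain ⟨R', j1, j2, f, ψ, hker, hψ, ho, hJ⟩ := exists_R hQ hL hl hlL hne
  haveI : Fact l.Prime := ⟨hl⟩
  have hpc : π * cj π = (p : 𝓞 F) := by rw [H55K.mul_cj, hN]
  have hq : (Fintype.card k : R') ≠ 0 := by
    rw [hQ.card]
    intro h0
    rw [CharP.cast_eq_zero_iff R' l p] at h0
    exact hne ((Nat.prime_dvd_prime_iff_eq hl hpp).1 h0)
  have hlk : (l : k) ≠ 0 := by
    intro h0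
    have h1 : (l : 𝓞 F) ∈ RingHom.ker φ := by
      rw [RingHom.mem_ker, map_natCast]
      exact h0
    rw [hQ.ker, Ideal.mem_span_singleton] at h1
    exact g5a_cop hπ hpp hl hne ⟨cj π, hpc.symm⟩ h1
  have hJ2 : (Fintype.card k : R') * jacobiSum (χ.ringHomComp f) ((χ.ringHomComp f) ^ 2) ^ 2 =
      f (π ^ 3 * cj π) := by
    rw [hJ, qc_jac hQ rfl hp, hQ.card, ← map_natCast f p, ← hpc, ← map_pow, ← map_mul]
    congr 1
    ring
  constructor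
  · intro t ht
    have h1 := gs_one l hlk (χ.ringHomComp f) ho ψ hψ hq t ht
    rw [hJ2] at h1
    refine g5a_mem hker ?_
    rw [map_mul, map_pow, map_one, ← h1]
    congr 1
    rw [MulChar.ringHomComp_apply, ← map_natCast φ l, hQ.chi]
  · intro t ht
    have h1 := gs_three l hlk (χ.ringHomComp f) ho ψ hψ hq t ht
    rw [hJ2] at h1
    refine g5a_mem hker ?_
    rw [map_mul, map_pow, h1, hpc, map_natCast, hQ.card]
    congr 1
    rw [MulChar.ringHomComp_apply, ← map_natCast φ l, ← map_neg, hQ.chi]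

/-- Chunk G5A (M). exists_QC, exists_R for Λ = span {lam} (PP: pp_pi; 1 + I does not divide lam, which divides the odd l), gs_one with l = 4t + 1: f (χ (l : k)) (f p f(J)^2)^t = 1, J = -π (qc_jac), p = π cj π (mul_cj), χ (l : k) = χ (φ l) = ps (π) l. So ps (π) l * (π^3 cj π)^t - 1 is in Λ = ker f.
absNorm Λ = l (pi_type for lam, or: Nm lam = l or l^2; l^2 would make lam associated to l, but l = 1 mod 4 is not prime: split_l), so t = (absNorm - 1)/4 and (π^3 cj π)^t - ps (lam) (π^3 cj π) is in Λ (ps_spec; π, cj π are not in Λ: Nm π = p is prime to l). Both symbols are powers of I: the product is 1 (ps_inj with i, 0). -/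
theorem rec_one (h : GI I) {π : 𝓞 F} (hπ : Prime π) (hp : Pry I π) {p : ℕ} (hpp : p.Prime) (hN : Nm π = p) {l : ℕ} (hl : l.Prime)
    (hl1 : l % 4 = 1) (hne : l ≠ p) {lam : 𝓞 F} (hlam : Prime lam) (hd : lam ∣ (l : 𝓞 F)) :
    ps 4 I (Ideal.span {π}) (l : 𝓞 F) * ps 4 I (Ideal.span {lam}) (π ^ 3 * cj π) = 1 := by
  have hpc : π * cj π = (p : 𝓞 F) := by rw [H55K.mul_cj, hN]
  have hn : ¬ (1 + I) ∣ lam := by
    intro h1
    have h2 : Pry I ((l : ℤ) : 𝓞 F) := pry_int h (by omega)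
    apply (pry_cop h h2).1
    rw [Int.cast_natCast]
    exact h1.trans hd
  have hL := pp_pi h hlam hn
  have hlL : (l : 𝓞 F) ∈ Ideal.span {lam} := Ideal.mem_span_singleton.2 hd
  obtain ⟨t, ht⟩ : ∃ t, l = 4 * t + 1 := ⟨l / 4, by omega⟩
  have h1 := (g5a_setup h hπ hp hpp hN hl hne hL hlL).1 t ht
  have hNl : Nm lam = l := by
    obtain ⟨q, hq, ⟨e1, e2⟩ | ⟨e1, e2⟩⟩ := pi_type h hlam
    · have e3 : l = q := by
        by_contra hlq
        exact g5a_cop hlam hq hl hlq ⟨cj lam, e2.symm⟩ hd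
      rw [e1, e3]
    · exfalso
      have e3 : l = q := by
        by_contra hlq
        exact g5a_cop hlam hq hl hlq e2.dvd hd
      rw [← e3] at e2
      have e4 : Prime (l : 𝓞 F) := e2.prime_iff.1 hlam
      obtain ⟨w, hw, -, hw2, hw3, -⟩ := split_l h hl hl1
      have e5 : ∀ z : 𝓞 F, Nm z = l → ¬ (l : 𝓞 F) ∣ z := by
        rintro z hz ⟨y, rfl⟩
        rw [H55K.Nm_mul, H55K.Nm_nat] at hz
        have h5 : l ^ 2 ∣ l := ⟨_, hz.symm⟩
        have h6 := Nat.le_of_dvd hl.pos h5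
        have h7 := hl.two_le
        nlinarith
      rcases e4.dvd_or_dvd (a := w) (b := cj w) (by rw [hw3]) with e6 | e6
      · exact e5 w hw2 e6
      · exact e5 (cj w) (by rw [H55K.Nm_cj, hw2]) e6
  have hx : π ^ 3 * cj π ∉ Ideal.span {lam} := by
    rw [Ideal.mem_span_singleton]
    intro h2
    have h3 : lam ∣ (p : 𝓞 F) := by
      rw [← hpc]
      rcases hlam.dvd_or_dvd h2 with h3 | h3
      · exact (hlam.dvd_of_dvd_pow h3).mul_right _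
      · exact h3.mul_left _
    exact g5a_cop hlam hpp hl hne h3 hd
  obtain ⟨⟨i, hi⟩, h2⟩ := ps_spec hL hx
  have ht' : (Ideal.absNorm (Ideal.span {lam}) - 1) / 4 = t := by
    have : Ideal.absNorm (Ideal.span {lam}) = l := hNl
    rw [this]
    omega
  rw [ht'] at h2
  have hlp : (l : 𝓞 F) ∉ Ideal.span {π} := by
    rw [Ideal.mem_span_singleton]
    exact fun h3 => g5a_cop hπ hpp hl hne ⟨cj π, hpc.symm⟩ h3
  obtain ⟨⟨j, hj⟩, -⟩ := ps_spec (pp_pi h hπ (pry_cop h hp).1) hlp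
  rw [hj] at h1 ⊢
  rw [hi] at h2 ⊢
  have h3 : I ^ (j + i) - I ^ 0 ∈ Ideal.span {lam} := by
    have h4 := Ideal.sub_mem _ h1 (Ideal.mul_mem_left _ (I ^ j) h2)
    have h5 : I ^ j * (π ^ 3 * cj π) ^ t - 1 - I ^ j * ((π ^ 3 * cj π) ^ t - I ^ i) =
        I ^ (j + i) - I ^ 0 := by
      rw [pow_add, pow_zero]
      ring
    rwa [h5] at h4
  rw [← pow_add, ps_inj hL h3, pow_zero]

/-- Chunk G5B (S). x = a + b I: x^l is congruent to a^l + b^l I^l (add_pow_char in the quotient, or Int.ModEq / exists_add_pow_prime_eq), a^l to a (Fermat), I^l = I^3 = -I (l = 3 mod 4), cj x = a - b I (gi_cj, cj_int). -/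
theorem frob_cj (h : GI I) {l : ℕ} (hl : l.Prime) (hl3 : l % 4 = 3) (x : 𝓞 F) : (l : 𝓞 F) ∣ x ^ l - cj x := by
  obtain ⟨a, b, rfl⟩ := h.rep x
  have hI : I ^ l = -I := by
    obtain ⟨m, rfl⟩ : ∃ m, l = 4 * m + 3 := ⟨l / 4, by omega⟩
    have h4 : I ^ 4 = 1 := by
      rw [show (4 : ℕ) = 2 * 2 by norm_num, pow_mul, h.sq]
      ring
    rw [pow_add, pow_mul, h4, one_pow, one_mul, pow_succ, h.sq]
    ring
  have hfer : ∀ c : ℤ, (l : 𝓞 F) ∣ (c : 𝓞 F) ^ l - (c : 𝓞 F) := by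
    intro c
    haveI : Fact l.Prime := ⟨hl⟩
    have h1 : (l : ℤ) ∣ c ^ l - c := by
      rw [← ZMod.intCast_zmod_eq_zero_iff_dvd]
      push_cast
      rw [ZMod.pow_card, sub_self]
    obtain ⟨d, hd⟩ := h1
    refine ⟨(d : 𝓞 F), ?_⟩
    have := congrArg (fun z : ℤ => (z : 𝓞 F)) hd
    push_cast at this
    exact this
  obtain ⟨r, hr⟩ := exists_add_pow_prime_eq hl (a : 𝓞 F) ((b : 𝓞 F) * I)
  rw [hr, map_add, map_mul, H55K.cj_int, H55K.cj_int, gi_cj h, mul_pow, hI]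
  obtain ⟨u, hu⟩ := hfer a
  obtain ⟨v, hv⟩ := hfer b
  refine ⟨u - v * I + (a : 𝓞 F) * ((b : 𝓞 F) * I) * r, ?_⟩
  linear_combination hu - I * hv

/-- Chunk G5B (M). Λ = span {l} is prime (inert_l), PP (pp_pi). exists_QC, exists_R, gs_three with l + 1 = 4t, J = -π, p = π cj π: (π^3 cj π)^t - ps (π) (-l) * π * cj π is in Λ. cj π - π^l is in Λ (frob_cj): so π^((3 + l) t) - ps (π) (-l) π^(1 + l) is in Λ, and (3 + l) t = (1 + l) + (l^2 - 1)/4; π^(1+l) is not in Λ (Λ prime, π not in Λ because Nm π = p is prime to l)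
so π^((l^2 - 1)/4) - ps (π) (-l) is in Λ; absNorm Λ = l^2 (H55K.Nm_nat); ps (π) (-l) is a power of I (ps_spec): ps_uniq. -/
theorem rec_three (h : GI I) {π : 𝓞 F} (hπ : Prime π) (hp : Pry I π) {p : ℕ} (hpp : p.Prime) (hN : Nm π = p) {l : ℕ} (hl : l.Prime)
    (hl3 : l % 4 = 3) (hne : l ≠ p) : ps 4 I (Ideal.span {π}) (-(l : 𝓞 F)) = ps 4 I (Ideal.span {(l : 𝓞 F)}) π := by
  have hpc : π * cj π = (p : 𝓞 F) := by rw [H55K.mul_cj, hN]
  have hlP := inert_l h hl hl3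
  have hn : ¬ (1 + I) ∣ (l : 𝓞 F) := by
    intro h1
    have h2 : Pry I ((-(l : ℤ) : ℤ) : 𝓞 F) := pry_int h (by omega)
    apply (pry_cop h h2).1
    rw [Int.cast_neg, Int.cast_natCast, dvd_neg]
    exact h1
  have hL := pp_pi h hlP hn
  have hlL : (l : 𝓞 F) ∈ Ideal.span {(l : 𝓞 F)} := Ideal.mem_span_singleton_self _
  obtain ⟨t, ht⟩ : ∃ t, l + 1 = 4 * t := ⟨l / 4 + 1, by omega⟩
  have h1 := (g5a_setup h hπ hp hpp hN hl hne hL hlL).2 t ht
  have hlp : -(l : 𝓞 F) ∉ Ideal.span {π} := by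
    rw [Ideal.mem_span_singleton, dvd_neg]
    exact fun h3 => g5a_cop hπ hpp hl hne ⟨cj π, hpc.symm⟩ h3
  obtain ⟨⟨j, hj⟩, -⟩ := ps_spec (pp_pi h hπ (pry_cop h hp).1) hlp
  rw [hj] at h1 ⊢
  have hπL : π ∉ Ideal.span {(l : 𝓞 F)} := by
    rw [Ideal.mem_span_singleton]
    intro h3
    exact g5a_cop hlP hpp hl hne (by rw [← hpc]; exact h3.mul_right _) dvd_rfl
  have hfr : π ^ l - cj π ∈ Ideal.span {(l : 𝓞 F)} := Ideal.mem_span_singleton.2 (frob_cj h hl hl3 π)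
  have hab : (Ideal.absNorm (Ideal.span {(l : 𝓞 F)}) - 1) / 4 = 4 * t ^ 2 - 2 * t := by
    have h2 : Ideal.absNorm (Ideal.span {(l : 𝓞 F)}) = l ^ 2 := H55K.Nm_nat l
    rw [h2]
    have h3 : l = 4 * t - 1 := by omega
    obtain ⟨u, rfl⟩ : ∃ u, t = u + 1 := ⟨t - 1, by omega⟩
    have h4 : l = 4 * u + 3 := by omega
    rw [h4]
    have h5 : (4 * u + 3) ^ 2 - 1 = 4 * (4 * (u + 1) ^ 2 - 2 * (u + 1)) := by
      zify [show 2 * (u + 1) ≤ 4 * (u + 1) ^ 2 by nlinarith, show 1 ≤ (4 * u + 3) ^ 2 by nlinarith]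
      ring
    rw [h5]
    exact Nat.mul_div_cancel_left _ (by norm_num)
  refine (ps_uniq hL (i := j) ?_).symm
  rw [hab]
  have hpr : (Ideal.span {(l : 𝓞 F)}).IsPrime := hL.pr
  -- modulo `l`
  rw [← Ideal.Quotient.eq_zero_iff_mem] at h1 hfr ⊢
  rw [map_sub, sub_eq_zero] at h1 hfr ⊢
  have hπ0 : Ideal.Quotient.mk (Ideal.span {(l : 𝓞 F)}) π ≠ 0 := fun h3 =>
    hπL (Ideal.Quotient.eq_zero_iff_mem.1 h3)
  rw [map_pow, map_mul, map_pow, map_mul, map_mul, ← hfr, map_pow] at h1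
  rw [map_pow]
  set y := Ideal.Quotient.mk (Ideal.span {(l : 𝓞 F)}) π
  have h6 : y ^ (1 + l) ≠ 0 := pow_ne_zero _ hπ0
  refine mul_left_cancel₀ h6 ?_
  have h7 : (y ^ 3 * y ^ l) ^ t = y ^ (1 + l) * y ^ (4 * t ^ 2 - 2 * t) := by
    rw [← pow_add, ← pow_mul, ← pow_add]
    congr 1
    obtain ⟨u, rfl⟩ : ∃ u, t = u + 1 := ⟨t - 1, by omega⟩
    have h4 : l = 4 * u + 3 := by omega
    rw [h4]
    zify [show 2 * (u + 1) ≤ 4 * (u + 1) ^ 2 by nlinarith]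
    ring
  rw [← h7, h1]
  ring

end H55W
end

-- from Lib.H55W.G6
section

/-! # H55W, part G: quartic reciprocity for a primary prime and a primary rational prime -/

open NumberField IsDedekindDomain

namespace H55W

open H55P (IQ embF eF Nm)
open H55K (cj)

variable {F : Type} [Field F] [NumberField F] [IQ F] {I : 𝓞 F}

theorem g6_lam (h : GI I) {l : ℕ} (hl : l.Prime) (hl2 : l ≠ 2) {x : 𝓞 F} (hx : x ∣ (l : 𝓞 F)) : ¬ (1 + I) ∣ x := by
  intro hd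
  have h1 : (1 + I) ∣ (l : 𝓞 F) := hd.trans hx
  obtain ⟨c, hc⟩ := h1
  have h2 := H55K.Nm_mul (1 + I) c
  rw [← hc, H55K.Nm_nat] at h2
  have h3 : ((Nm (1 + I) : ℕ) : ℤ) = 2 := by
    have := gi_nm h 1 1
    simp only [Int.cast_one, one_mul] at this
    rw [this]; norm_num
  have h4 : Nm (1 + I) = 2 := by exact_mod_cast h3
  have h5 : 2 ∣ l ^ 2 := ⟨Nm c, by rw [h2, h4]⟩
  exact hl2 ((Nat.prime_dvd_prime_iff_eq Nat.prime_two hl).1 (Nat.prime_two.dvd_of_dvd_pow h5)).symm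

theorem g6_unit (h : GI I) {π : 𝓞 F} (hp : Pry I π) {p : ℕ} (hpp : p.Prime) (_hN : Nm π = p ^ 2)
    (ha : Associated π (p : 𝓞 F)) (h2 : p ≠ 2) : ∃ a : ℤ, a.natAbs = p ∧ a % 4 = 1 ∧ π = (a : 𝓞 F) := by
  have hodd : p % 2 = 1 := by rcases hpp.eq_two_or_odd with h | h; exact absurd h h2; exact h
  obtain ⟨a, hap, ha4⟩ : ∃ a : ℤ, a.natAbs = p ∧ a % 4 = 1 := by
    rcases (by omega : p % 4 = 1 ∨ p % 4 = 3) with h4 | h4
    · exact ⟨p, Int.natAbs_natCast p, by omega⟩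
    · exact ⟨-p, by simp, by omega⟩
  refine ⟨a, hap, ha4, ?_⟩
  have h3 : Associated (p : 𝓞 F) (a : 𝓞 F) := by
    rcases Int.natAbs_eq a with h5 | h5
    · rw [h5, hap, Int.cast_natCast]
    · rw [h5, hap, Int.cast_neg, Int.cast_natCast]
      exact (Associated.refl (p : 𝓞 F)).neg_right
  obtain ⟨u, hu⟩ := ha.trans h3
  obtain ⟨i, hi⟩ := gi_unit h u.isUnit
  have h6 : Pry I (π * I ^ i) := by rw [← hi, hu]; exact pry_int h ha4
  have h7 := gi_uniq h (pry_of_mul hp h6)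
  rw [← hu, hi, h7, mul_one]

/-- Chunk G6 (M). pi_type for π. (1) Nm π = p, π | p, so l ≠ p. If l = 1 mod 4 then n = l, (l) = (lam)(cj lam) (split_l; span_singleton_mul), pj (span {l}) π = z w, z = ps (lam) π, w = ps (cj lam) π (pj_mul_left, pj_prime), rec_one: ps (π) l * ps (lam) (π^3 cj π) = 1; ps (lam)(π^3 cj π) = z^3 ps (lam)(cj π) (ps_mul, ps_pow),
ps (lam) (cj π) = cj w (ps_cj for cj lam: cj (cj lam) = lam) = w^3 (w = I^i, cj w = (-I)^i = I^(3i); gi_cj), z^4 = w^4 = 1: so ps (π) l = z w. If l = 3 mod 4 then n = -l (n % 4 = 1), span {-l} = span {l} (Ideal.span_singleton_neg), pj_prime, rec_three. (2) π associated to p, p^2 = Nm π: π = I^i p (gi_unit); p is odd; p or -p is primary (pry_int), so by gi_uniq and pry_of_mul π = p or -p,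
a rational integer a; ps (π) n = pj (span {a}) n = 1 and pj (span {n}) a = 1 (rat_rat; a and n are coprime since π does not divide n). -/
theorem rec_prime (h : GI I) {π : 𝓞 F} (hπ : Prime π) (hp : Pry I π) {l : ℕ} (hl : l.Prime) (hl2 : l ≠ 2) {n : ℤ} (hnl : n.natAbs = l)
    (hn : n % 4 = 1) (hd : ¬ π ∣ (n : 𝓞 F)) : ps 4 I (Ideal.span {π}) (n : 𝓞 F) = pj 4 I (Ideal.span {(n : 𝓞 F)}) π := by
  obtain ⟨p, hpp, hcase⟩ := pi_type h hπ
  have hπn := (pry_cop h hp).1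
  have hπp : π ∣ (p : 𝓞 F) := by
    rcases hcase with ⟨-, h2⟩ | ⟨-, h2⟩
    · exact ⟨cj π, h2.symm⟩
    · exact h2.dvd
  have hlp : l ≠ p := by
    rintro rfl
    apply hd
    rcases Int.natAbs_eq n with h5 | h5
    · rw [h5, hnl, Int.cast_natCast]; exact hπp
    · rw [h5, hnl, Int.cast_neg, Int.cast_natCast, dvd_neg]; exact hπp
  have hp2 : p ≠ 2 := by
    rintro rfl
    have hPP := pp_pi h hπ hπn
    apply hPP.nm
    rw [Ideal.mem_span_singleton]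
    refine hπp.trans ⟨2, ?_⟩
    norm_num
  rcases hcase with ⟨hN, hcj⟩ | ⟨hN, hass⟩
  · rcases (by have := hl.eq_two_or_odd; omega : l % 4 = 1 ∨ l % 4 = 3) with h4 | h4
    · have hnl' : n = l := by omega
      subst hnl'
      rw [Int.cast_natCast]
      obtain ⟨lam, hlam, hlam1, hNl, hlc, -⟩ := split_l h hl h4
      have hlamd : lam ∣ (l : 𝓞 F) := ⟨cj lam, hlc.symm⟩
      have hcd : cj lam ∣ (l : 𝓞 F) := ⟨lam, by rw [← hlc]; ring⟩
      have hcp : Prime (cj lam) := H55K.cj_prime hlam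
      have hcn : ¬ (1 + I) ∣ cj lam := g6_lam h hl hl2 hcd
      have hrec := rec_one h hπ hp hpp hN hl h4 hlp hlam hlamd
      have hnot : ∀ q : 𝓞 F, q ∣ (l : 𝓞 F) → Prime q → ∀ r : 𝓞 F, r ∣ (p : 𝓞 F) → r ∉ Ideal.span {q} := by
        intro q hq hqp r hr hm
        rw [Ideal.mem_span_singleton] at hm
        have h6 : q ∣ (p : 𝓞 F) := hm.trans hr
        have h7 : IsCoprime (l : ℤ) (p : ℤ) := Nat.isCoprime_iff_coprime.2 ((Nat.coprime_primes hl hpp).2 hlp)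
        have h8 := h7.map (Int.castRingHom (𝓞 F))
        simp only [eq_intCast, Int.cast_natCast] at h8
        exact hqp.not_isUnit (h8.isUnit_of_dvd' hq h6)
      have hPl := pp_pi h hlam hlam1
      have hPc := pp_pi h hcp hcn
      have hπl := hnot lam hlamd hlam π hπp
      have hπc := hnot (cj lam) hcd hcp π hπp
      rw [ps_mul hPl, ps_pow hPl] at hrec
      have hcj2 := ps_cj h hcp hcn π
      rw [H55K.cj_cj] at hcj2
      obtain ⟨⟨i, hi⟩, -⟩ := ps_spec hPc hπc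
      have hw4 := ps_root hPc hπc
      have hz4 := ps_root hPl hπl
      have hw3 : cj (ps 4 I (Ideal.span {cj lam}) π) = ps 4 I (Ideal.span {cj lam}) π ^ 3 := by
        rw [hi, map_pow, gi_cj h, ← pow_mul, mul_comm, pow_mul]
        congr 1
        linear_combination (-I) * h.sq
      rw [hcj2, hw3] at hrec
      have hspan : Ideal.span {(l : 𝓞 F)} = Ideal.span {lam} * Ideal.span {cj lam} := by
        rw [Ideal.span_singleton_mul_span_singleton, hlc]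
      rw [hspan, pj_mul_left hPl.ne hPc.ne, pj_prime hPl, pj_prime hPc]
      set z := ps 4 I (Ideal.span {lam}) π
      set w := ps 4 I (Ideal.span {cj lam}) π
      set A := ps 4 I (Ideal.span {π}) (l : 𝓞 F)
      calc A = A * (z ^ 4) * (w ^ 4) := by rw [hz4, hw4]; ring
        _ = (A * (z ^ 3 * w ^ 3)) * (z * w) := by ring
        _ = z * w := by rw [hrec, one_mul]
    · have hnl' : n = -l := by omega
      subst hnl'
      rw [Int.cast_neg, Int.cast_natCast, Ideal.span_singleton_neg, pj_prime (pp_pi h (inert_l h hl h4) (g6_lam h hl hl2 dvd_rfl))]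
      exact rec_three h hπ hp hpp hN hl h4 hlp
  · obtain ⟨a, hap, ha4, rfl⟩ := g6_unit h hp hpp hN hass hp2
    have hcop : IsCoprime n a := by
      rw [Int.isCoprime_iff_gcd_eq_one, Int.gcd_eq_natAbs, hnl, hap]
      exact (Nat.coprime_primes hl hpp).2 hlp
    rw [← pj_prime (pp_pi h hπ hπn), rat_rat h (by omega) hcop, rat_rat h (by omega) hcop.symm]

/-- Chunk G6 (M). pry_factor: x = product of primary primes π (s), pj (span {x}) n = product of ps (π) n = product of pj (span {n}) π (rec_prime; π does not divide n: π divides x, and n divides x - 1) = pj (span {n}) x (pj_mul, pj_one, multiset induction; PJ of span {n}: n is odd) = pj (span {n}) 1 = 1 (pj_congr). -/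
theorem one_of_prime (h : GI I) {l : ℕ} (hl : l.Prime) (hl2 : l ≠ 2) {n : ℤ} (hnl : n.natAbs = l) (hn : n % 4 = 1) {x : 𝓞 F}
    (hx : Pry I x) (hxn : (n : 𝓞 F) ∣ x - 1) : pj 4 I (Ideal.span {x}) (n : 𝓞 F) = 1 := by
  obtain ⟨s, hs, hxs, hpj⟩ := pry_factor h x hx
  have hPJ : PJ 4 I (Ideal.span {(n : 𝓞 F)}) := (pry_cop h (pry_int h hn)).2.2
  have h1 : ∀ π ∈ s, ps 4 I (Ideal.span {π}) (n : 𝓞 F) = pj 4 I (Ideal.span {(n : 𝓞 F)}) π := by
    intro π hπ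
    obtain ⟨hp1, hp2⟩ := hs π hπ
    apply rec_prime h hp1 hp2 hl hl2 hnl hn
    intro hd
    have h2 : π ∣ x := by rw [hxs]; exact Multiset.dvd_prod hπ
    have h3 : π ∣ x - 1 := hd.trans hxn
    have h4 : π ∣ 1 := by
      have := dvd_sub h2 h3
      rwa [sub_sub_cancel] at this
    exact hp1.not_isUnit (isUnit_of_dvd_one h4)
  rw [hpj, Multiset.map_congr rfl h1]
  have h2 : ∀ t : Multiset (𝓞 F), (t.map fun π => pj 4 I (Ideal.span {(n : 𝓞 F)}) π).prod = pj 4 I (Ideal.span {(n : 𝓞 F)}) t.prod := by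
    intro t
    induction t using Multiset.induction_on with
    | empty => simp [pj_one hPJ]
    | cons a t ih => rw [Multiset.map_cons, Multiset.prod_cons, Multiset.prod_cons, pj_mul hPJ, ih]
  rw [h2, ← hxs, pj_congr hPJ (x := x) (y := 1) (Ideal.mem_span_singleton.2 hxn), pj_one hPJ]

end H55W
end

-- from Lib.H55W.G8
section

/-! # H55W, part G: the quartic residue character of a rational integer -/

open NumberField IsDedekindDomain

namespace H55W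

open H55P (IQ embF eF Nm)
open H55K (cj)

variable {F : Type} [Field F] [NumberField F] [IQ F] {I : 𝓞 F}

theorem g8_gcd (A B : ℤ) (hA : A % 4 = 1) (hB : B % 16 = 0) : ∃ g a b : ℤ, A = g * a ∧ B = g * b ∧ IsCoprime a b ∧ g % 4 = 1 ∧
    a % 4 = 1 ∧ b % 16 = 0 := by
  have hA0 : A ≠ 0 := by rintro rfl; omega
  have hg0 : 0 < Int.gcd A B := Int.gcd_pos_of_ne_zero_left _ hA0
  obtain ⟨a, ha⟩ := Int.gcd_dvd_left A B
  obtain ⟨b, hb⟩ := Int.gcd_dvd_right A B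
  have hcop : IsCoprime a b := by
    have h1 := Int.isCoprime_iff_gcd_eq_one.2 (Int.gcd_div_gcd_div_gcd hg0)
    have h2 : A / (Int.gcd A B : ℤ) = a := Int.ediv_eq_of_eq_mul_right (by omega) ha
    have h3 : B / (Int.gcd A B : ℤ) = b := Int.ediv_eq_of_eq_mul_right (by omega) hb
    rwa [h2, h3] at h1
  set G : ℤ := (Int.gcd A B : ℤ) with hG
  have hGo : G % 2 = 1 := by
    by_contra h
    have h1 : G % 2 = 0 := by omega
    obtain ⟨k, hk⟩ : ∃ k, G = 2 * k := ⟨G / 2, by omega⟩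
    rw [hk] at ha
    have : A = 2 * (k * a) := by rw [ha]; ring
    omega
  have key : ∀ g : ℤ, (g = G ∨ g = -G) → g % 4 = 1 → ∀ a' b' : ℤ, A = g * a' → B = g * b' → a' % 4 = 1 ∧ b' % 16 = 0 := by
    intro g hg hg4 a' b' h1 h2
    constructor
    · obtain ⟨k, hk⟩ : ∃ k, g = 4 * k + 1 := ⟨g / 4, by omega⟩
      have : A = 4 * (k * a') + a' := by rw [h1, hk]; ring
      omega
    · have h3 : (16 : ℤ) ∣ g * b' := by rw [← h2]; exact Int.dvd_of_emod_eq_zero hB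
      have h4 : IsCoprime (16 : ℤ) g := by
        have h5 : IsCoprime (2 : ℤ) g := by
          obtain ⟨k, hk⟩ : ∃ k, g = 2 * k + 1 := ⟨g / 2, by omega⟩
          exact ⟨-k, 1, by rw [hk]; ring⟩
        have h6 := IsCoprime.pow_left (m := 4) h5
        norm_num at h6
        exact h6
      exact Int.emod_eq_zero_of_dvd (h4.dvd_of_dvd_mul_left h3)
  have h4 : G % 4 = 1 ∨ G % 4 = 3 := by omega
  rcases h4 with h4 | h4
  · obtain ⟨h5, h6⟩ := key G (Or.inl rfl) h4 a b ha hb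
    exact ⟨G, a, b, ha, hb, hcop, h4, h5, h6⟩
  · have h7 : A = (-G) * (-a) := by rw [ha]; ring
    have h8 : B = (-G) * (-b) := by rw [hb]; ring
    obtain ⟨h5, h6⟩ := key (-G) (Or.inr rfl) (by omega) (-a) (-b) h7 h8
    exact ⟨-G, -a, -b, h7, h8, hcop.neg_neg, by omega, h5, h6⟩

omit [IQ F] in
theorem g8_pry (h : GI I) {x : 𝓞 F} (hx : (4 : 𝓞 F) ∣ x - 1) : Pry I x := by
  refine Dvd.dvd.trans ⟨(1 - I), ?_⟩ hx
  linear_combination (2 : 𝓞 F) * h.sq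

/-- Chunk G8A (M). x = a + b I, a = 1 mod 16, b = 0 mod 16 (GI.rep for (x-1)/16). g = gcd(a, b), odd, with the sign such that g = 1 mod 4: a = g a', b = g b', a', b' coprime, a' = 1 mod 4, b' divisible by 16; y = a' + b' I, x = g y. pj (span {x}) 2 = pj (span {g}) 2 * pj (span {y}) 2 (pj_mul_left), the first is 1 (rat_rat).
y is primary (y - 1 is divisible by 4). Modulo y: b' ≡ a' I, so (a' + b')^2 ≡ a'^2 (1 + I)^2 = 2 I a'^2: pj_congr, pj_mul for J = span {y}: pj(a'+b')^2 = pj 2 * pj I * pj(a')^2. The squares are Jacobi symbols (pj_sq, N = Nm y = a'^2 + b'^2 (gi_nm); a', a' + b' are prime to y: prime to N; IsCoprime of integers maps to 𝓞 F, y divides N) given by jac_ab.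
pj I = I^((N-1)/4) (pj_zeta; absNorm (span {y}) = Nm y): a' = 1, 7 mod 8: N = 1 mod 16, pj I = 1 and jac_ab = 1; a' = 3, 5 mod 8: N = 9 mod 16, pj I = I^2 = -1 (I^4 = 1) and jac_ab = -1. So pj 2 = 1. -/
theorem one_two (h : GI I) {x : 𝓞 F} (hx : (16 : 𝓞 F) ∣ x - 1) : pj 4 I (Ideal.span {x}) 2 = 1 := by
  obtain ⟨z, hz⟩ := hx
  obtain ⟨c, d, hcd⟩ := h.rep z
  obtain ⟨g, a, b, hA, hB, hab, hg, ha, hb⟩ := g8_gcd (1 + 16 * c) (16 * d) (by omega) (by omega)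
  set y : 𝓞 F := (a : 𝓞 F) + (b : 𝓞 F) * I with hy
  have hxy : x = (g : 𝓞 F) * y := by
    have h1 : ((1 + 16 * c : ℤ) : 𝓞 F) = ((g * a : ℤ) : 𝓞 F) := by rw [hA]
    have h2 : ((16 * d : ℤ) : 𝓞 F) = ((g * b : ℤ) : 𝓞 F) := by rw [hB]
    push_cast at h1 h2
    rw [hy]
    rw [hcd] at hz
    linear_combination hz + h1 + I * h2
  obtain ⟨a1, ha1⟩ : ∃ a1, a = 4 * a1 + 1 := ⟨a / 4, by omega⟩
  obtain ⟨b1, hb1⟩ : ∃ b1, b = 16 * b1 := ⟨b / 16, by omega⟩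
  have hypry : Pry I y := by
    apply g8_pry h
    refine ⟨(a1 : 𝓞 F) + 4 * (b1 : 𝓞 F) * I, ?_⟩
    rw [hy, ha1, hb1]; push_cast; ring
  obtain ⟨-, -, hPJ⟩ := pry_cop h hypry
  have hy0 : y ≠ 0 := by
    intro h0
    apply hPJ.ne
    rw [h0]; simp
  have hg0 : (g : 𝓞 F) ≠ 0 := by
    intro h0
    have : g = 0 := by exact_mod_cast h0
    omega
  have h1 : pj 4 I (Ideal.span {x}) 2 = pj 4 I (Ideal.span {y}) 2 := by
    rw [hxy, ← Ideal.span_singleton_mul_span_singleton, pj_mul_left (by rwa [Ne, Ideal.span_singleton_eq_bot]) (by rwa [Ne, Ideal.span_singleton_eq_bot])]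
    have h2 : pj 4 I (Ideal.span {(g : 𝓞 F)}) ((2 : ℤ) : 𝓞 F) = 1 := by
      apply rat_rat h (by omega)
      obtain ⟨k, hk⟩ : ∃ k, g = 2 * k + 1 := ⟨g / 2, by omega⟩
      exact ⟨-k, 1, by rw [hk]; ring⟩
    rw [Int.cast_ofNat] at h2
    rw [h2, one_mul]
  rw [h1]
  have hNm : ((Nm y : ℕ) : ℤ) = a ^ 2 + b ^ 2 := gi_nm h a b
  have hyN : y ∣ ((a ^ 2 + b ^ 2 : ℤ) : 𝓞 F) := by
    refine ⟨(a : 𝓞 F) - (b : 𝓞 F) * I, ?_⟩
    rw [hy]; push_cast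
    linear_combination (b : 𝓞 F) ^ 2 * h.sq
  have hca : IsCoprime y (a : 𝓞 F) := by
    have h2 : IsCoprime (a ^ 2 + b ^ 2) a := by
      have h3 : IsCoprime (b ^ 2) a := (IsCoprime.pow_right (n := 2) hab).symm
      have h4 : a ^ 2 + b ^ 2 = b ^ 2 + a * a := by ring
      rw [h4]
      exact IsCoprime.add_mul_left_left h3 a
    have h3 := h2.map (Int.castRingHom (𝓞 F))
    exact h3.of_isCoprime_of_dvd_left hyN
  have hcb : IsCoprime y ((a + b : ℤ) : 𝓞 F) := by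
    have h2 : IsCoprime (a ^ 2 + b ^ 2) (a + b) := by
      have h3 : IsCoprime (2 : ℤ) (a + b) := ⟨-(2 * a1 + 8 * b1), 1, by rw [ha1, hb1]; ring⟩
      have h5 : IsCoprime a (a + b) := by
        have := IsCoprime.add_mul_left_right hab 1
        rwa [mul_one, add_comm] at this
      have h6 : IsCoprime (2 * a ^ 2) (a + b) := h3.mul_left (IsCoprime.pow_left h5)
      have h4 : a ^ 2 + b ^ 2 = 2 * a ^ 2 + (a + b) * (b - a) := by ring
      rw [h4]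
      exact IsCoprime.add_mul_left_left h6 _
    have h3 := h2.map (Int.castRingHom (𝓞 F))
    exact h3.of_isCoprime_of_dvd_left hyN
  have h2 : pj 4 I (Ideal.span {y}) (((a + b : ℤ) : 𝓞 F) * ((a + b : ℤ) : 𝓞 F)) =
      pj 4 I (Ideal.span {y}) (2 * I * ((a : 𝓞 F) * (a : 𝓞 F))) := by
    apply pj_congr hPJ
    rw [Ideal.mem_span_singleton]
    refine ⟨-I * (((a : 𝓞 F) + (b : 𝓞 F)) + (a : 𝓞 F) * (1 + I)), ?_⟩
    rw [hy]; push_cast
    linear_combination (2 * (a : 𝓞 F) ^ 2 - (a : 𝓞 F) ^ 2 + (a : 𝓞 F) * (a + b + a * (1 + I)) - 0 + (b : 𝓞 F) * (a + b + a * (1 + I)) - (a : 𝓞 F) * (a + b + a * (1 + I))) * h.sq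
  rw [pj_mul hPJ, pj_mul hPJ, pj_mul hPJ, pj_mul hPJ, ← sq, ← sq, pj_sq h hypry hcb, pj_sq h hypry hca] at h2
  obtain ⟨hj1, hj2⟩ := jac_ab (a := a) (b := b) (by omega) hb hab hNm
  rw [hj1, hj2] at h2
  have h3 : pj 4 I (Ideal.span {y}) I = I ^ ((Nm y - 1) / 4) := (pj_zeta hPJ).2
  rcases (by omega : a % 8 = 1 ∨ a % 8 = 5) with h8 | h8
  · obtain ⟨k, hk⟩ : ∃ k, a = 8 * k + 1 := ⟨a / 8, by omega⟩
    have h9 : ((Nm y : ℕ) : ℤ) = 16 * (4 * k ^ 2 + k + 16 * b1 ^ 2) + 1 := by rw [hNm, hk, hb1]; ring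
    obtain ⟨j, hj⟩ : ∃ j, Nm y = 16 * j + 1 := ⟨Nm y / 16, by omega⟩
    have h10 : (Nm y - 1) / 4 = 4 * j := by omega
    rw [h10, pow_mul, (gi_root h).pow_eq_one, one_pow] at h3
    rw [h3, if_pos (Or.inl h8)] at h2
    simpa using h2.symm
  · obtain ⟨k, hk⟩ : ∃ k, a = 8 * k + 5 := ⟨a / 8, by omega⟩
    have h9 : ((Nm y : ℕ) : ℤ) = 16 * (4 * k ^ 2 + 5 * k + 1 + 16 * b1 ^ 2) + 9 := by rw [hNm, hk, hb1]; ring
    obtain ⟨j, hj⟩ : ∃ j, Nm y = 16 * j + 9 := ⟨Nm y / 16, by omega⟩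
    have h10 : (Nm y - 1) / 4 = 4 * j + 2 := by omega
    rw [h10, pow_add, pow_mul, (gi_root h).pow_eq_one, one_pow, one_mul, h.sq] at h3
    rw [h3, if_neg (by omega)] at h2
    simp only [Int.cast_neg, Int.cast_one, mul_one, mul_neg, neg_inj] at h2
    exact h2.symm

theorem g8_ind (h : GI I) (N : ℕ) : ∀ n : ℤ, n.natAbs = N → n ≠ 0 → ∀ x : 𝓞 F, ((16 * n : ℤ) : 𝓞 F) ∣ x - 1 →
    pj 4 I (Ideal.span {x}) (n : 𝓞 F) = 1 := by
  induction N using Nat.strong_induction_on with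
  | _ N ih =>
  intro n hN hn x hx
  have hx16 : (16 : 𝓞 F) ∣ x - 1 := by
    refine Dvd.dvd.trans ⟨(n : 𝓞 F), ?_⟩ hx
    push_cast; ring
  have hpry : Pry I x := g8_pry h (Dvd.dvd.trans ⟨4, by norm_num⟩ hx16)
  obtain ⟨-, -, hPJ⟩ := pry_cop h hpry
  by_cases h1 : n.natAbs = 1
  · rcases Int.natAbs_eq n with h2 | h2 <;> rw [h1] at h2 <;> subst h2
    · rw [Nat.cast_one, Int.cast_one]; exact pj_one hPJ
    · rw [Nat.cast_one, Int.cast_neg, Int.cast_one]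
      exact (one_neg h (Dvd.dvd.trans ⟨2, by norm_num⟩ hx16)).2
  · obtain ⟨q, hq, hqn⟩ := Nat.exists_prime_and_dvd h1
    have key : ∀ q' : ℤ, q'.natAbs = q → pj 4 I (Ideal.span {x}) (q' : 𝓞 F) = 1 →
        pj 4 I (Ideal.span {x}) (n : 𝓞 F) = 1 := by
      intro q' hq' h2
      have h3 : q' ∣ n := by rw [← Int.natAbs_dvd_natAbs, hq']; exact hqn
      obtain ⟨n', hn'⟩ := h3
      have h4 : n' ≠ 0 := by rintro rfl; apply hn; rw [hn']; ring
      have h5 : n'.natAbs < N := by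
        rw [← hN, hn', Int.natAbs_mul, hq']
        have := hq.two_le
        have h6 : 0 < n'.natAbs := Int.natAbs_pos.2 h4
        nlinarith
      have h6 := ih n'.natAbs h5 n' rfl h4 x (by
        refine Dvd.dvd.trans ⟨(q' : 𝓞 F), ?_⟩ hx
        rw [hn']; push_cast; ring)
      rw [hn', Int.cast_mul, pj_mul hPJ, h2, h6, one_mul]
    by_cases hq2 : q = 2
    · subst hq2
      apply key 2 rfl
      rw [Int.cast_ofNat]
      exact one_two h hx16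
    · have hodd : q % 2 = 1 := by rcases hq.eq_two_or_odd with h | h; exact absurd h hq2; exact h
      have hdv : ∀ q' : ℤ, q'.natAbs = q → (q' : 𝓞 F) ∣ x - 1 := by
        intro q' hq'
        have h3 : q' ∣ n := by rw [← Int.natAbs_dvd_natAbs, hq']; exact hqn
        have h4 : q' ∣ 16 * n := h3.mul_left _
        exact (Int.cast_dvd_cast (α := 𝓞 F) _ _ h4).trans hx
      rcases (by omega : q % 4 = 1 ∨ q % 4 = 3) with h4 | h4
      · apply key q (Int.natAbs_natCast q)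
        exact one_of_prime h hq hq2 (n := (q : ℤ)) (Int.natAbs_natCast q) (by omega) hpry (hdv _ (Int.natAbs_natCast q))
      · apply key (-q) (by simp)
        exact one_of_prime h hq hq2 (n := -(q : ℤ)) (by simp) (by omega) hpry (hdv _ (by simp))

/-- Chunk G8B (S/M). Strong induction on n.natAbs. n = 1: pj_one; n = -1: one_neg. Otherwise a prime number q divides n. q = 2: n = 2 n', one_two. q odd: q' = q or -q with q' % 4 = 1, n = q' n', one_of_prime. pj_mul; 16 n' divides 16 n. -/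
theorem one_all (h : GI I) {n : ℤ} (hn : n ≠ 0) {x : 𝓞 F} (hx : ((16 * n : ℤ) : 𝓞 F) ∣ x - 1) : pj 4 I (Ideal.span {x}) (n : 𝓞 F) = 1 := by
  exact g8_ind h _ n rfl hn x hx

/-- Chunk G8B (S). prc_of with m = 4, k = 16 n, j = 2 (16 n divides (4n)^2), one_all. -/
theorem quart (h : GI I) {n : ℤ} (hn : n ≠ 0) : ∃ κ : 𝓞 F → 𝓞 F, PRC (𝓞 F) 4 n (4 * n) (16 * n) κ := by
  have h1 := prc_of (m := 4) (gi_root h) (by norm_num) (n := n) (k := 16 * n) hn (j := 2) ⟨n, by push_cast; ring⟩ ⟨4, by push_cast; ring⟩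
      (fun x hx => one_all h hn hx)
  exact ⟨fun x => pj 4 I (Ideal.span {x}) (n : 𝓞 F), by exact_mod_cast h1⟩

end H55W
end

-- from Lib.H55W.F4
section

/-! # H55W, part F: the function defining the Hecke character, discriminants -4 and -8 -/

open NumberField IsDedekindDomain

namespace H55W

open H55P (IQ embF eF Nm)
open H55K (cj)

variable {F : Type} [Field F] [NumberField F] [IQ F] {I : 𝓞 F}

omit [NumberField F] [IQ F] in
theorem f4_cop {x : 𝓞 F} {D : ℤ} {c : 𝓞 F} {j : ℕ} (hc : c ∣ ((D : ℤ) : 𝓞 F) ^ j)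
    (hx : IsCoprime (Ideal.span {x}) (Ideal.span {((D : ℤ) : 𝓞 F) ^ 3})) : IsCoprime x c := by
  rw [Ideal.isCoprime_span_singleton_iff] at hx
  have h1 : IsCoprime x ((D : ℤ) : 𝓞 F) := (IsCoprime.pow_right_iff (by norm_num)).1 hx
  exact (h1.pow_right (n := j)).of_isCoprime_of_dvd_right hc

omit [IQ F] in
theorem f4_pc {γ a : 𝓞 F} (hγ : Prime γ) (h : ¬ γ ∣ a) : IsCoprime γ a := by
  have hp : (Ideal.span {γ}).IsPrime := (Ideal.span_singleton_prime hγ.ne_zero).2 hγ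
  have hm : (Ideal.span {γ}).IsMaximal := hp.isMaximal (by
    rw [Ne, Ideal.span_singleton_eq_bot]
    exact hγ.ne_zero)
  obtain ⟨y, i, hi, hyi⟩ := hm.exists_inv (x := a) (by rwa [Ideal.mem_span_singleton])
  obtain ⟨z, rfl⟩ := Ideal.mem_span_singleton.1 hi
  exact ⟨z, y, by rw [← hyi]; ring⟩

omit [NumberField F] [IQ F] in
theorem f4_uc {u c : 𝓞 F} (hu : IsUnit u) : IsCoprime u c := by
  obtain ⟨v, hv⟩ := hu.exists_left_inv
  exact ⟨v, 0, by rw [hv]; ring⟩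

omit [NumberField F] [IQ F] in
theorem f4_diff {z z' : 𝓞 F} (hz : z ^ 4 = 1) (hz' : z' ^ 4 = 1) (hne : z ≠ z') : z - z' ∣ 2 := by
  have h1 : (z - z') * ((z + z') * (z ^ 2 + z' ^ 2)) = 0 := by linear_combination hz - hz'
  rcases mul_eq_zero.1 ((mul_eq_zero.1 h1).resolve_left (sub_ne_zero.2 hne)) with h2 | h2
  · refine ⟨z ^ 3, ?_⟩
    linear_combination (-2) * hz + z ^ 3 * h2
  · refine ⟨-((z - z') * z ^ 3 * z' ^ 3), ?_⟩
    linear_combination (-2) * z' ^ 4 * hz - 2 * hz' + z ^ 3 * z' ^ 3 * h2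

/-- Chunk F4 (M). pr from exists_pr (n0 = 2 + 2I: x prime to 2 + 2I is not divisible by 1 + I: gi_exists; gi_unit, gi_uniq), κ from quart for n = -δ (c = 4 (-δ), k = 16 (-δ)). f x = pr x * (κ x)^3. D = δ^3, δ even: x prime to M is prime to δ, to 2, to 2 + 2I (divides 4) and to 4δ (Ideal.isCoprime_span_singleton_iff; 4δ divides D^3); elements of M are divisible by D^3 = δ^9, so by 16 δ and 2 + 2I.
un: κ^4 = 1. The last statement: γ a prime, N = Nm γ (nm_card): pr γ = ζ (ζ γ ≡ 1 mod 2 + 2I), κ γ = ζ: γ divides (-δ)^((N-1)/4) - κ γ (PRC.euler: γ does not divide 4δ, 4, because 2 divides δ) and (-δ)^((N-1)/4) - ζ; κ γ and ζ are powers of I (κ^4 = 1: (κ^2 - 1)(κ^2 + 1) = 0), differences of different ones divide 2: κ γ = ζ. f γ = ζ ζ^3 = 1. -/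
theorem exists_f4 (hI : GI I) {δ : ℤ} (h0 : δ ≠ 0) (h2 : δ % 2 = 0) {D : ℤ} (hD : D = δ ^ 3) :
    ∃ f : 𝓞 F → 𝓞 F, HF (Ideal.span {((D : ℤ) : 𝓞 F) ^ 3}) f ∧ ∀ γ ζ : 𝓞 F, Prime γ → ¬ γ ∣ ((D : ℤ) : 𝓞 F) → 2 + 2 * I ∣ γ * ζ - 1 →
      (∃ i : ℕ, ζ = I ^ i) → γ ∣ (-(δ : 𝓞 F)) ^ ((Nm γ - 1) / 4) - ζ → f γ = 1 := by
  obtain ⟨m, rfl⟩ : ∃ m, δ = 2 * m := ⟨δ / 2, by omega⟩
  have hDc : ((D : ℤ) : 𝓞 F) = 8 * (m : 𝓞 F) ^ 3 := by rw [hD]; push_cast; ring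
  have hI4 : I ^ 4 = 1 := g0_pow4 hI
  have hIu : ∀ i : ℕ, IsUnit (I ^ i) := by
    intro i
    refine IsUnit.pow i (IsUnit.of_mul_eq_one (I ^ 3) ?_)
    rw [← hI4]
    ring
  have hnu : ¬ IsUnit (1 + I) := by
    intro hu
    have h1 := g0_nm_unit hu
    rw [g0_nm11 hI] at h1
    norm_num at h1
  have hex : ∀ x : 𝓞 F, IsCoprime x (2 + 2 * I) → ∃ u, IsUnit u ∧ 2 + 2 * I ∣ u * x - 1 := by
    intro x hx
    obtain ⟨i, hi⟩ := gi_exists hI (x := x) (by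
      intro hd
      exact hnu (hx.isUnit_of_dvd' hd ⟨2, by ring⟩))
    exact ⟨I ^ i, hIu i, hi⟩
  have huniq : ∀ u : 𝓞 F, IsUnit u → 2 + 2 * I ∣ u - 1 → u = 1 := by
    intro u hu hd
    obtain ⟨i, rfl⟩ := gi_unit hI hu
    exact gi_uniq hI hd
  obtain ⟨pr, p1, p2, p3, p4, p5⟩ := exists_pr (2 + 2 * I) hex huniq
  obtain ⟨κ, hκ⟩ := quart hI (n := -(2 * m)) (neg_ne_zero.2 h0)
  -- coprimality
  have c1 : ((4 * -(2 * m) : ℤ) : 𝓞 F) ∣ ((D : ℤ) : 𝓞 F) ^ 1 := by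
    rw [hDc]
    exact ⟨-(m : 𝓞 F) ^ 2, by push_cast; ring⟩
  have d2 : (2 : 𝓞 F) ∣ ((D : ℤ) : 𝓞 F) ^ 1 := by
    rw [hDc]
    exact ⟨4 * (m : 𝓞 F) ^ 3, by ring⟩
  have d4 : (2 + 2 * I : 𝓞 F) ∣ 4 := ⟨1 - I, by linear_combination 2 * hI.sq⟩
  have c2 : (2 + 2 * I : 𝓞 F) ∣ ((D : ℤ) : 𝓞 F) ^ 1 := d4.trans (by
    rw [hDc]
    exact ⟨2 * (m : 𝓞 F) ^ 3, by ring⟩)
  have k1 : ∀ z : 𝓞 F, z ∈ Ideal.span {((D : ℤ) : 𝓞 F) ^ 3} → (2 + 2 * I : 𝓞 F) ∣ z ∧ ((16 * -(2 * m) : ℤ) : 𝓞 F) ∣ z := by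
    intro z hz
    rw [Ideal.mem_span_singleton] at hz
    constructor
    · refine dvd_trans (d4.trans ?_) hz
      rw [hDc]
      exact ⟨128 * (m : 𝓞 F) ^ 9, by ring⟩
    · refine dvd_trans ?_ hz
      rw [hDc]
      exact ⟨-(16 * (m : 𝓞 F) ^ 8), by push_cast; ring⟩
  have ku : ∀ x : 𝓞 F, IsCoprime x ((4 * -(2 * m) : ℤ) : 𝓞 F) → IsUnit (κ x) := by
    intro x hx
    refine IsUnit.of_mul_eq_one (κ x ^ 3) ?_
    rw [← hκ.root x hx]
    ring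
  refine ⟨fun x => pr x * κ x ^ 3, ⟨?_, ?_, ?_, ?_⟩, ?_⟩
  · intro x hx
    exact (p1 x (f4_cop c2 hx)).1.mul ((ku x (f4_cop c1 hx)).pow 3)
  · intro x y hx hy
    show pr (x * y) * κ (x * y) ^ 3 = pr x * κ x ^ 3 * (pr y * κ y ^ 3)
    rw [p2 x y (f4_cop c2 hx) (f4_cop c2 hy), hκ.mul x y (f4_cop c1 hx) (f4_cop c1 hy)]
    ring
  · intro u x hu hx
    show pr (u * x) * κ (u * x) ^ 3 * u = pr x * κ x ^ 3
    have g1 : κ (u * x) = κ x := by
      rw [hκ.mul u x (f4_uc hu) (f4_cop c1 hx), hκ.unit u hu, one_mul]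
    rw [g1, ← p3 u x hu (f4_cop c2 hx)]
    ring
  · intro x y hx hy hxy
    show pr x * κ x ^ 3 = pr y * κ y ^ 3
    obtain ⟨g1, g2⟩ := k1 _ hxy
    rw [p4 x y (f4_cop c2 hx) (f4_cop c2 hy) g1, hκ.per x y (f4_cop c1 hx) (f4_cop c1 hy) g2]
  · rintro γ _ hγ hγD h1 ⟨i, rfl⟩ h2'
    show pr γ * κ γ ^ 3 = 1
    have gD : IsCoprime γ (((D : ℤ) : 𝓞 F) ^ 1) := f4_pc hγ (by rwa [pow_one])
    have g2 : ¬ γ ∣ 2 := fun h => hγD (by rw [← pow_one ((D : ℤ) : 𝓞 F)]; exact h.trans d2)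
    have g4 : ¬ γ ∣ 4 := by
      intro h
      have e : (4 : 𝓞 F) = 2 * 2 := by norm_num
      rw [e] at h
      rcases hγ.dvd_or_dvd h with h | h <;> exact g2 h
    have gc : ¬ γ ∣ ((4 * -(2 * m) : ℤ) : 𝓞 F) := fun h => hγD (by rw [← pow_one ((D : ℤ) : 𝓞 F)]; exact h.trans c1)
    have hp : pr γ = I ^ i := p5 (I ^ i) γ (hIu i) (gD.of_isCoprime_of_dvd_right c2) (by rw [mul_comm (I ^ i) γ]; exact h1)
    have hk := hκ.euler γ hγ gc (by rw [Nat.cast_ofNat]; exact g4)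
    rw [nm_card] at hk
    have hd : γ ∣ κ γ - I ^ i := by
      have := dvd_sub h2' hk
      have e : ((-((2 * m : ℤ) : 𝓞 F)) ^ ((Nm γ - 1) / 4) - I ^ i) - (((-(2 * m) : ℤ) : 𝓞 F) ^ ((Nm γ - 1) / 4) - κ γ) = κ γ - I ^ i := by
        push_cast
        ring
      rwa [e] at this
    have hz : (I ^ i) ^ 4 = 1 := by rw [← pow_mul, mul_comm, pow_mul, hI4, one_pow]
    have hk1 : κ γ = I ^ i := by
      by_contra hne
      exact g2 (hd.trans (f4_diff (hκ.root γ (gD.of_isCoprime_of_dvd_right c1)) hz hne))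
    rw [hp, hk1, ← hz]
    ring

end H55W
end
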