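import Mathlib
import Pool.Agent.Lib.H1M.PP.D_H28T_CD
import Pool.Agent.Lib.H1M.PP.M002
import Pool.Agent.Lib.H1M.PP.M003
import Pool.Agent.Lib.H1M.PP.M015
import Pool.Agent.Lib.H1M.PP.M026
import Pool.Agent.Lib.H1M.PP.M030
import Pool.Agent.Lib.H1M.PP.M036
import Pool.Agent.Lib.H1M.PP.M037
import Pool.Agent.Lib.H1M.PP.M039
import Pool.Agent.Lib.H1M.PP.M041
import Pool.Agent.Lib.H1M.PP.M042
import Pool.Agent.Lib.H1M.PP.M043
import Pool.Agent.Lib.H1M.PP.M045
import Pool.Agent.Lib.H1M.PP.M046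
import Pool.Agent.Lib.H1M.PP.M047
import Pool.Agent.Lib.H1M.PP.M048
import Pool.Agent.Lib.H1M.PP.M049
import Pool.Agent.Lib.H1M.PP.M050
import Pool.Agent.Lib.H1M.PP.M053
import Pool.Agent.Lib.H1M.PP.M059
import Pool.Agent.Lib.H1M.PP.M061

/-! Merged copies (to shorten the build) of Lib.H13D.A5, Lib.H55K.FB5, Lib.H55K.Y2, Lib.H28T.CB1, Lib.H13Y.GN11a, Lib.H13Y.GN6b, Lib.H13Y.GN9b, Lib.H13Y.GN11b, Lib.H13D.A7, Lib.H13D.A8, Lib.H55W.L0, Lib.H13S.PA2, Lib.H55K.SPA2, Lib.H55K.SLV, Lib.H55K.A.D5, Lib.H55K.A.Main, Lib.H55K.K6A, Lib.H55K.K11, Lib.H55K.K12. -/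

-- from Lib.H13D.A5
section

/-! # H13D, part A: good reduction (generic) -/

open NumberField IsDedekindDomain WeierstrassCurve

namespace H13D

open H55P (IQ embF eF LF Per IsHecke Pt ac Inert Dec Nm)
open H35P (WAB Ker tt GoodW IntW)
open H55K

variable {F : Type} [Field F] [NumberField F] [IQ F] {A B : F} {Om : ℂ} {Ω : Type} [Field Ω] [DecidableEq Ω]
  [Algebra F Ω] {j : Ω →+* ℂ} {act : 𝓞 F →+* AddMonoid.End (Pt (WAB A B) Ω)} {V : ValuationSubring Ω}
  {Kg : AddSubgroup (Pt (WAB A B) Ω)} {u r : Ω}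

theorem a5_KN (h : CMA F A B Om j act) (Kg : AddSubgroup (Pt (WAB A B) Ω)) {b : 𝓞 F} (hb : b ≠ 0) :
    ∃ S₁ : Finset (Pt (WAB A B) Ω), KN act b Kg S₁ := by
  classical
  obtain ⟨S, hS, _⟩ := exists_TN h hb
  refine ⟨S.filter (fun T => T ∈ Kg), fun T => ?_⟩
  rw [Finset.mem_filter, hS T]
  tauto

theorem a5_ne {V : ValuationSubring Ω} {b : 𝓞 F} (hb : V.valuation (ak Ω b) = 1) : b ≠ 0 := by
  rintro rfl
  have h1 : ak Ω (0 : 𝓞 F) = 0 := by unfold ak; simp
  rw [h1, map_zero] at hb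
  exact zero_ne_one hb

/-- Chunk A5 (S). kprod for S₁ = the nonzero points killed by b in Kg (finite: exists_TN, filter): the product of V(xn R) > 1 (hR.big) over S₁ is 1, so S₁ is empty. b ≠ 0 because V(b) = 1. -/
theorem tor_unit' (h : CMA F A B Om j act) (hR : RM A B V Kg u r) {b : 𝓞 F} (hb : V.valuation (ak Ω b) = 1)
    {T : Pt (WAB A B) Ω} (hT : act b T = 0) (hK : T ∈ Kg) : T = 0 := by
  classical
  have hb0 : b ≠ 0 := a5_ne hb
  obtain ⟨S₁, hS₁⟩ := a5_KN h Kg hb0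
  have h1 := kprod h hR hb0 hS₁
  rw [hb, one_pow, one_mul] at h1
  by_contra h0
  have hTS : T ∈ S₁ := (hS₁ T).2 ⟨hT, h0, hK⟩
  have h2 : ∀ R ∈ S₁, 1 < V.valuation (xn u r R) := fun R hRS => by
    obtain ⟨_, h3, h4⟩ := (hS₁ R).1 hRS
    exact hR.big R h4 h3
  have h3 : (1 : V.ValueGroup) < ∏ R ∈ S₁, V.valuation (xn u r R) := by
    rw [← Finset.mul_prod_erase S₁ _ hTS]
    have h5 : (1 : V.ValueGroup) ≤ ∏ R ∈ S₁.erase T, V.valuation (xn u r R) :=
      Finset.one_le_prod' fun R hRS => (h2 R (Finset.mem_of_mem_erase hRS)).le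
    exact lt_of_lt_of_le (h2 T hTS) (le_mul_of_one_le_right' h5)
  rw [h1] at h3
  exact lt_irrefl _ h3

/-- Chunk A5 (S/M). kprod: V(β) < 1, so S₁ is not empty: there is R₀ ≠ 0 in Tor act β and in Kg. T = 0 clear; otherwise T = act c R₀ (H55K.tor_trans in G5B.lean), act_mem. -/
theorem tor_ker' (h : CMA F A B Om j act) (hR : RM A B V Kg u r) {β : 𝓞 F} (hβ : Prime β) (hv : V.valuation (ak Ω β) < 1)
    {T : Pt (WAB A B) Ω} (hT : act β T = 0) : T ∈ Kg := by
  classical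
  obtain ⟨S₁, hS₁⟩ := a5_KN h Kg hβ.ne_zero
  have h1 := kprod h hR hβ.ne_zero hS₁
  by_cases h0 : T = 0
  · rw [h0]
    exact Kg.zero_mem
  have hne : S₁.Nonempty := by
    rw [Finset.nonempty_iff_ne_empty]
    intro he
    rw [he, Finset.prod_empty, mul_one] at h1
    have h2 : V.valuation (ak Ω β) ^ 2 < 1 := pow_lt_one₀ zero_le hv two_ne_zero
    rw [h1] at h2
    exact lt_irrefl _ h2
  obtain ⟨R₀, hR₀⟩ := hne
  obtain ⟨h3, h4, h5⟩ := (hS₁ R₀).1 hR₀
  obtain ⟨c, hc, _⟩ := tor_trans h V hβ hv (R := R₀) (R' := T) h3 h4 hT h0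
  rw [hc]
  exact act_mem h hR c h5

/-- Chunk A5 (S). kprod with S₁ = S (tor_ker'). -/
theorem prod_xn (h : CMA F A B Om j act) (hR : RM A B V Kg u r) {β : 𝓞 F} (hβ : Prime β) (hv : V.valuation (ak Ω β) < 1)
    {S : Finset (Pt (WAB A B) Ω)} (hS : TN act β S) : V.valuation (ak Ω β ^ 2 * ∏ R ∈ S, xn u r R) = 1 := by
  classical
  have hK : KN act β Kg S := by
    intro T
    rw [hS T]
    constructor
    · rintro ⟨h1, h2⟩
      exact ⟨h1, h2, tor_ker' h hR hβ hv h1⟩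
    · rintro ⟨h1, h2, _⟩
      exact ⟨h1, h2⟩
  rw [map_mul, map_pow, map_prod]
  exact kprod h hR hβ.ne_zero hK

/-- Chunk A5 (M). Suppose act β X in Kg, X not in Kg. act β X ≠ 0 (tor_ker'). Y from exists_gen (b = β). e2n: the left side has value V(xn (act β X) - xn (act β Y)) (prod_xn; V(xn R - xn Y) = V(xn R) for all R in S), V(xn (act β Y)) ≤ 1, V(xn (act β X)) > 1: the left side has value > 1. The right side has value ≤ 1:
X, Y, X + R (R in Kg by tor_ker', X not in Kg) are not in Kg (hR.int). Contradiction. -/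
theorem ker_red' (h : CMA F A B Om j act) (hR : RM A B V Kg u r) {β : 𝓞 F} (hβ : Prime β) (hv : V.valuation (ak Ω β) < 1)
    {X : Pt (WAB A B) Ω} (hX : act β X ∈ Kg) : X ∈ Kg := by
  classical
  by_contra hXK
  have hX0 : act β X ≠ 0 := fun h0 => hXK (tor_ker' h hR hβ hv h0)
  obtain ⟨S, hS, _⟩ := exists_TN h hβ.ne_zero
  obtain ⟨Y, hY, hbY, _, _, hYK⟩ := exists_gen h hR hβ.ne_zero hS
  have hY0 : act β Y ≠ 0 := fun h0 => hbY (by rw [h0]; exact Kg.zero_mem)
  have he := e2n (r := r) h hR.une hβ.ne_zero hS hX0 hY0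
  have hSK : ∀ R ∈ S, R ∈ Kg := fun R hRS => tor_ker' h hR hβ hv ((hS R).1 hRS).1
  have hv1 := congrArg V.valuation he
  have h1 : V.valuation (xn u r (act β X) - xn u r (act β Y)) = V.valuation (xn u r (act β X)) :=
    Valuation.map_sub_eq_of_lt_left _ (lt_of_le_of_lt (hR.int _ hbY) (hR.big _ hX hX0))
  have h2 : ∏ R ∈ S, V.valuation (xn u r R - xn u r Y) = ∏ R ∈ S, V.valuation (xn u r R) :=
    Finset.prod_congr rfl fun R hRS => hYK R hRS (hSK R hRS)
  have h3 := prod_xn h hR hβ hv hS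
  rw [map_mul, map_pow, map_prod] at h3
  rw [map_mul, map_mul, map_pow, map_prod, map_mul, map_prod, h1, h2] at hv1
  have h4 : V.valuation (xn u r (act β X)) = V.valuation (xn u r X - xn u r Y) * ∏ R ∈ S, V.valuation (xn u r (X + R) - xn u r Y) := by
    rw [← hv1, mul_right_comm, h3, one_mul]
  have h5 : V.valuation (xn u r X - xn u r Y) ≤ 1 :=
    le_trans (Valuation.map_sub _ _ _) (max_le (hR.int X hXK) (hR.int Y hY))
  have h6 : ∏ R ∈ S, V.valuation (xn u r (X + R) - xn u r Y) ≤ 1 := by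
    refine Finset.prod_le_one' fun R hRS => ?_
    have h7 : X + R ∉ Kg := fun h8 => hXK (by
      have h9 := Kg.sub_mem h8 (hSK R hRS)
      rwa [add_sub_cancel_right] at h9)
    exact le_trans (Valuation.map_sub _ _ _) (max_le (hR.int _ h7) (hR.int Y hY))
  have h7 := hR.big _ hX hX0
  rw [h4] at h7
  exact absurd (mul_le_one' h5 h6) (not_le.2 h7)

end H13D
end

-- from Lib.H55K.FB5
section

/-! # H55K: the period and its conjugate -/

open NumberField IsDedekindDomain WeierstrassCurve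

namespace H55K.TQ

open H55P (IQ embF eF LF Per IsHecke Pt ac Inert Dec Nm UnitP)
open H35P (WAB Ker tt GoodW IntW)
open H55K.MG (VC Crd)

variable {F : Type} [Field F] [NumberField F] [IQ F] {W : WeierstrassCurve ℤ} {Om : ℂ}
    {m : Ideal (𝓞 F)} {ψ : Ideal (𝓞 F) →*₀ 𝓞 F} {p : ℕ}

/-- Chunk FB5 (S). Per for W⁄(𝓞 F) is PerW (eF F of an integer is the integer; the coefficients c₄, c₆ of the mapped curve). -/
theorem perW_of (hH : BaseH F (W⁄(𝓞 F)) Om m ψ) : PerW F W Om := by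
  have h := hH.data.per
  have e4 : eF F (W⁄(𝓞 F)).c₄ = (W.c₄ : ℂ) := by
    have e : (W⁄(𝓞 F)).c₄ = algebraMap ℤ (𝓞 F) W.c₄ := W.map_c₄ (algebraMap ℤ (𝓞 F))
    rw [e]
    simp
  have e6 : eF F (W⁄(𝓞 F)).c₆ = (W.c₆ : ℂ) := by
    have e : (W⁄(𝓞 F)).c₆ = algebraMap ℤ (𝓞 F) W.c₆ := W.map_c₆ (algebraMap ℤ (𝓞 F))
    rw [e]
    simp
  rw [e4, e6] at h
  exact h

/-- Chunk FB5 (S/M). conj Om = u Om with u a unit of 𝓞 F: the lattice Om * eF(𝓞 F) is the lattice of the PeriodPair L of lat_W / exists_perZ (QP1A.lean) and also (conj Om) * eF (𝓞 F) is a lattice with the same g₂, g₃ (conjugate of the Eisenstein series, real invariants; search conj in QP2*.lean, om_conj may exist there: grep);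
so conj Om = eF a Om and Om = eF b conj Om, ab = 1: V(eF a) = 1. -/
theorem om_conj_val (hper : PerW F W Om) (V : ValuationSubring ℂ) : V.valuation ((starRingEnd ℂ) Om / Om) = 1 := by
  obtain ⟨L, hL⟩ := exists_perZ hper
  obtain ⟨η, hη⟩ := om_conj hper hL
  have hne : Om ≠ 0 := hper.ne
  rw [hη, mul_div_cancel_left₀ _ hne]
  have hint : ∀ x : 𝓞 F, V.valuation (eF F x) ≤ 1 := by
    intro x
    have h2 : IsIntegral ℤ (eF F x) := (RingOfIntegers.isIntegral x).map ((eF F).toIntAlgHom)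
    rw [V.valuation_le_one_iff]
    have h3 : IsIntegral V (eF F x) := h2.tower_top
    obtain ⟨y, hy⟩ := IsIntegrallyClosed.isIntegral_iff.1 h3
    rw [← hy]
    exact y.2
  have h2 := hint η
  have h3 := hint (η⁻¹ : (𝓞 F)ˣ)
  have h4 : V.valuation (eF F η) * V.valuation (eF F ((η⁻¹ : (𝓞 F)ˣ) : 𝓞 F)) = 1 := by
    rw [← map_mul, ← map_mul, Units.mul_inv, map_one, map_one]
  refine le_antisymm h2 ?_
  rw [← h4]
  exact mul_le_of_le_one_right' h3

end H55K.TQ
end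

-- from Lib.H55K.Y2
section

/-! # H55K: the L-series over F and over the bottom field -/

open NumberField IsDedekindDomain WeierstrassCurve

namespace H55K

open H55P (IQ embF eF LF Per IsHecke Pt ac Inert Dec Nm)
open H35P (WAB Ker tt)


variable {F : Type} [Field F] [NumberField F] [IQ F]

/-- Chunk Y2 (S/M). H55P.pz13_equiv (Z13.lean) for K = F, K' = the bottom field (algebraMap is surjective) gives a bijection ε of the ideals with relNorm (ε J) = J and the same absolute norm: the HasSum over the ideals of the bottom field (tm (PsiP _ ψ) s, PsiP_apply) becomes the one over the ideals of F (Equiv.hasSum_iff).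
finrank of the bottom field is 1; UnitP is the condition val. -/
theorem LU_of {p : ℕ} {Om : ℂ} {ψ : Ideal (𝓞 F) →*₀ 𝓞 F}
    [NumberField (⊥ : IntermediateField F (AlgebraicClosure F))]
    (h : H55P.ValG p Om ψ (⊥ : IntermediateField F (AlgebraicClosure F))) : ∃ Λ : ℂ → ℂ, LU p Om ψ Λ := by
  obtain ⟨Λ, h1, h2, -, h3⟩ := h
  have hsurj : Function.Surjective
      (algebraMap F (⊥ : IntermediateField F (AlgebraicClosure F))) := by
    rintro ⟨x, hx⟩
    obtain ⟨y, hy⟩ := IntermediateField.mem_bot.1 hx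
    exact ⟨y, Subtype.ext hy⟩
  obtain ⟨ε, hε⟩ := H55P.pz13_equiv F (⊥ : IntermediateField F (AlgebraicClosure F)) hsurj
  refine ⟨Λ, h1, fun s hs => ?_, fun V hV => ?_⟩
  · have h4 := h2 s hs
    rw [← ε.hasSum_iff] at h4
    refine h4.congr_fun fun J => ?_
    obtain ⟨e1, e2⟩ := hε J
    show (starRingEnd ℂ) (eF F (ψ J)) * (Ideal.absNorm J : ℂ) ^ (-s) =
      H55P.PsiP _ ψ (ε J) * (Ideal.absNorm (ε J) : ℂ) ^ (-s)
    rw [H55P.PsiP_apply, e1, e2]
  · have h4 := h3 V hV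
    rwa [IntermediateField.finrank_bot, pow_one] at h4

end H55K
end

-- from Lib.H28T.CB1
section

open NumberField IsDedekindDomain WeierstrassCurve

namespace H28T

open H55P H55R
open H55K H55K.TQ

variable {F : Type} [Field F] [NumberField F] [IQ F] {W₀ : WeierstrassCurve (𝓞 F)} {Om : ℂ}
    {m : Ideal (𝓞 F)} {ψ : Ideal (𝓞 F) →*₀ 𝓞 F} {p : ℕ}

/-- Chunk CB1 (S/M, port of H28R.bad_dvd in H28R/A9.lean with ψ v in place of gen v). p divides the number of points (¬ Gd), which is Nm (1 - ψ v) (hH.deu), 1 - ψ v times its conjugate (mul_cj, D1.lean in H55K), so π divides 1 - ψ v or cj (1 - ψ v) = 1 - cj (ψ v). In the second case: v is not above m (hH.supp: Δ not in v), so v and m are coprime (v maximal),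
v.asIdeal = span {ψ v} (IsHecke.gen, hH.data.hecke), absNorm v = Nm (ψ v) (definition of Nm), ψ v * cj (ψ v) = Nm (ψ v) = 1 modulo π (hd, p ∣ absNorm v - 1, π ∣ p), ψ v - 1 = ψ v (1 - cj (ψ v)) + (ψ v cj (ψ v) - 1). -/
theorem cb1_dvd (hH : BaseH F W₀ Om m ψ) {v : HeightOneSpectrum (𝓞 F)} (hΔ : W₀.Δ ∉ v.asIdeal)
    (hv : (p : 𝓞 F) ∉ v.asIdeal) (hN : p ∣ Ideal.absNorm v.asIdeal - 1) (hg : ¬ Gd W₀ p v) {π : 𝓞 F}
    (hπ : Prime π) (hd : π ∣ (p : 𝓞 F)) : π ∣ ψ v.asIdeal - 1 := by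
  have h1 : p ∣ Nat.card (W₀⁄(𝓞 F ⧸ v.asIdeal)).toAffine.Point := by
    by_contra h
    exact hg ⟨hΔ, hv, h⟩
  rw [hH.deu v hΔ] at h1
  have key : ∀ n : ℕ, p ∣ n → π ∣ (n : 𝓞 F) := by
    rintro n ⟨k, rfl⟩
    rw [Nat.cast_mul]
    exact hd.mul_right _
  have h2 := key _ h1
  rw [← mul_cj] at h2
  rcases hπ.dvd_or_dvd h2 with h4 | h4
  · have e1 : ψ v.asIdeal - 1 = -(1 - ψ v.asIdeal) := by ring
    rw [e1]
    exact h4.neg_right
  · have h5 := key _ hN
    have hm : ¬ m ≤ v.asIdeal := fun h => hΔ ((hH.supp v).2 h)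
    have hcop : IsCoprime v.asIdeal m := by
      rw [Ideal.isCoprime_iff_sup_eq]
      by_contra hne
      obtain ⟨M, hM, hle⟩ := Ideal.exists_le_maximal _ hne
      have h7 : v.asIdeal = M := v.isMaximal.eq_of_le hM.ne_top (le_sup_left.trans hle)
      exact hm (h7 ▸ (le_sup_right.trans hle))
    have h8 : Ideal.absNorm v.asIdeal = H55P.Nm (ψ v.asIdeal) := by
      unfold H55P.Nm
      rw [hH.data.hecke.gen _ hcop]
    have h6 : 1 ≤ Ideal.absNorm v.asIdeal :=
      Nat.pos_of_ne_zero fun h => v.ne_bot (Ideal.absNorm_eq_zero_iff.1 h)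
    rw [Nat.cast_sub h6, h8, ← mul_cj, Nat.cast_one] at h5
    rw [map_sub, map_one] at h4
    have e1 : ψ v.asIdeal - 1 = ψ v.asIdeal * (1 - cj (ψ v.asIdeal)) +
        (ψ v.asIdeal * cj (ψ v.asIdeal) - 1) := by ring
    rw [e1]
    exact dvd_add (h4.mul_left _) h5

/-- Chunk CB1 (S/M). A prime element above p (p is not a unit: Nm p = p^2, H55K.Nm_nat; 𝓞 F is a principal ideal ring: IQ.pid; a maximal ideal containing p is generated by a prime element: Ideal.span_singleton_prime). -/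
theorem cb1_pi (hp : p.Prime) : ∃ π : 𝓞 F, Prime π ∧ π ∣ (p : 𝓞 F) := by
  haveI : IsPrincipalIdealRing (𝓞 F) := IQ.pid
  have h1 : ¬ IsUnit (p : 𝓞 F) := by
    intro h
    have h2 : H55P.Nm (p : 𝓞 F) = 1 := by
      unfold H55P.Nm
      rw [Ideal.span_singleton_eq_top.2 h, Ideal.absNorm_top]
    rw [Nm_nat] at h2
    have h3 : p = 1 := by
      have := Nat.pow_eq_one.1 h2
      rcases this with h | h
      · exact h
      · omega
    exact hp.one_lt.ne' h3
  have h2 : (p : 𝓞 F) ≠ 0 := by exact_mod_cast hp.ne_zero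
  obtain ⟨π, hπ, hd⟩ := WfDvdMonoid.exists_irreducible_factor h1 h2
  exact ⟨π, hπ.prime, hd⟩

end H28T
end

-- from Lib.H13Y.GN11a
section

open NumberField IsDedekindDomain WeierstrassCurve

namespace H13Y

open H55B H55R H28G H99B

/-- Chunk GN11a (S). There is a prime v of N above π (a prime of N above the prime span {π} of O); TotRam gives [L : N] = Nm π - 1 = card kˣ and χ is injective (TFld.gen: χ σ = 1 gives sp σ R = act 1 R = R): bijective. Compare H28G.chi_bij (K14.lean). -/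
theorem chi_bijN {π : O} (hp : Prime π) (hπ : Prim π) {N L : Type} [Field N]
    [NumberField N] [Field L] [NumberField L] [DecidableEq L] [Algebra F N] [Algebra N L] [Algebra F L]
    [IsScalarTower F N L] (hL : TFld N L π)
    (hun : ∀ v : Pl N, algebraMap O (𝓞 N) π ∈ v.asIdeal → v.valuation N (ak N π) = WithZero.exp (-1 : ℤ))
    {k : Type} [Field k] [Fintype k] (q : O →+* k) (hq : Function.Surjective q)
    (hk : ∀ x, q x = 0 ↔ π ∣ x) (χ : Gal(L/N) →* kˣ)
    (hχ : ∀ (σ : Gal(L/N)) (c : O), q c = χ σ → ∀ R ∈ Tor π L, sp σ R = act c R) :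
    Fintype.card k = Nm π ∧ Function.Bijective χ := by
  classical
  obtain ⟨v, hv⟩ : ∃ v : Pl N, algebraMap O (𝓞 N) π ∈ v.asIdeal := by
    have h1 : ¬ IsUnit (algebraMap O (𝓞 N) π) := by
      intro h
      exact hp.not_isUnit ((isUnit_map_iff (algebraMap O (𝓞 N)) π).1 h)
    have h0 : algebraMap O (𝓞 N) π ≠ 0 := by
      intro h
      apply hp.ne_zero
      exact (FaithfulSMul.algebraMap_injective O (𝓞 N)) (by rw [h, map_zero])
    obtain ⟨M, hM, hle⟩ := Ideal.exists_le_maximal (Ideal.span {algebraMap O (𝓞 N) π})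
      (by rwa [Ne, Ideal.span_singleton_eq_top])
    have hmem : algebraMap O (𝓞 N) π ∈ M := hle (Ideal.mem_span_singleton_self _)
    refine ⟨⟨M, hM.isPrime, ?_⟩, hmem⟩
    rintro rfl
    exact h0 (by simpa using hmem)
  have htot := tot_ram hp hπ hL v (hun v hv)
  have hgal : IsGalois N L := hL.gal
  have hfin : Finite kˣ := inferInstance
  refine ⟨by rw [← Nat.card_eq_fintype_card, K14_card q hq hk], ?_⟩
  rw [Nat.bijective_iff_injective_and_card]
  constructor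
  · rw [injective_iff_map_eq_one]
    intro σ hσ
    refine hL.gen σ fun R hR => ?_
    rw [hχ σ 1 (by rw [hσ, map_one, Units.val_one]) R hR, act_one]
  · rw [IsGalois.card_aut_eq_finrank, htot.deg, ← K14_card q hq hk, Nat.card_units]

end H13Y
end

-- from Lib.H13Y.GN6b
section

open NumberField IsDedekindDomain

namespace H13Y

open H55B H55R H28G H99B

section

variable {N L : Type} [Field N] [NumberField N] [Field L] [NumberField L] [Algebra N L]

/-- the twisted average of a function -/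
noncomputable def gn6b_F (ω : Gal(L/N) →* ℂˣ) (f : Lˣ → ℂ) (x : Lˣ) : ℂ :=
  ∑ σ : Gal(L/N), ((ω σ : ℂ))⁻¹ * f (guN σ x)

theorem gn6b_add (ω : Gal(L/N) →* ℂˣ) (f : Lˣ → ℂ) (hf : ∀ x y, f (x * y) = f x + f y) (x y : Lˣ) :
    gn6b_F ω f (x * y) = gn6b_F ω f x + gn6b_F ω f y := by
  unfold gn6b_F
  rw [← Finset.sum_add_distrib]
  refine Finset.sum_congr rfl fun σ _ => ?_
  rw [map_mul, hf, mul_add]

theorem gn6b_equiv (ω : Gal(L/N) →* ℂˣ) (f : Lˣ → ℂ) (g : Gal(L/N)) (x : Lˣ) :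
    gn6b_F ω f (guN g x) = (ω g : ℂ) * gn6b_F ω f x := by
  unfold gn6b_F
  rw [Finset.mul_sum]
  refine Fintype.sum_equiv (Equiv.mulRight g) _ _ fun σ => ?_
  have h1 : guN σ (guN g x) = guN (σ * g) x := by
    rw [map_mul]
    rfl
  rw [Equiv.coe_mulRight, ← h1, map_mul, Units.val_mul, mul_inv]
  have h2 : (ω g : ℂ) ≠ 0 := (ω g).ne_zero
  field_simp

/-- the functionals -/
noncomputable def gn6b_psi (ω : Gal(L/N) →* ℂˣ) (u : InfinitePlace N → InfinitePlace L) (Q : Pl L) :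
    Option (InfinitePlace N) → Lˣ → ℂ
  | none => gn6b_F ω (fun x => ((ord Q x : ℤ) : ℂ))
  | some v => gn6b_F ω (fun x => ((Real.log (u v (x : L)) : ℝ) : ℂ))

theorem gn6b_psi_add (ω : Gal(L/N) →* ℂˣ) (u : InfinitePlace N → InfinitePlace L) (Q : Pl L)
    (i : Option (InfinitePlace N)) (x y : Lˣ) :
    gn6b_psi ω u Q i (x * y) = gn6b_psi ω u Q i x + gn6b_psi ω u Q i y := by
  cases i with
  | none =>
    refine gn6b_add ω (fun x => ((ord Q x : ℤ) : ℂ)) (fun x y => ?_) x y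
    show ((ord Q (x * y) : ℤ) : ℂ) = ((ord Q x : ℤ) : ℂ) + ((ord Q y : ℤ) : ℂ)
    rw [ord_mul]
    push_cast
    rfl
  | some v =>
    refine gn6b_add ω (fun x => ((Real.log (u v (x : L)) : ℝ) : ℂ)) (fun x y => ?_) x y
    show ((Real.log (u v ((x * y : Lˣ) : L)) : ℝ) : ℂ) =
      ((Real.log (u v (x : L)) : ℝ) : ℂ) + ((Real.log (u v (y : L)) : ℝ) : ℂ)
    rw [Units.val_mul, map_mul, Real.log_mul (by simp) (by simp)]
    push_cast
    rfl

theorem gn6b_psi_equiv (ω : Gal(L/N) →* ℂˣ) (u : InfinitePlace N → InfinitePlace L) (Q : Pl L)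
    (i : Option (InfinitePlace N)) (g : Gal(L/N)) (x : Lˣ) :
    gn6b_psi ω u Q i (guN g x) = (ω g : ℂ) * gn6b_psi ω u Q i x := by
  cases i with
  | none => exact gn6b_equiv ω (fun x => ((ord Q x : ℤ) : ℂ)) g x
  | some v => exact gn6b_equiv ω (fun x => ((Real.log (u v (x : L)) : ℝ) : ℂ)) g x

theorem gn6b_cpx (hc : ∀ v : InfinitePlace N, v.IsComplex) (w : InfinitePlace L) : w.IsComplex := by
  rw [← InfinitePlace.not_isReal_iff_isComplex]
  intro h
  exact (InfinitePlace.not_isReal_iff_isComplex.2 (hc (w.comap (algebraMap N L)))) (h.comap _)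

theorem gn6b_some [IsGalois N L] (hc : ∀ v : InfinitePlace N, v.IsComplex) (ω : Gal(L/N) →* ℂˣ)
    (hω : ω ≠ 1) (u : InfinitePlace N → InfinitePlace L)
    (hu : Function.Bijective fun p : Gal(L/N) × InfinitePlace N =>
      (u p.2).comap ((p.1 : L ≃ₐ[N] L) : L →+* L))
    (w : Pl N) (Q : Pl L) (c : Option (InfinitePlace N) → ℂ)
    (h : ∀ x ∈ SU L w, ∑ i, c i * gn6b_psi ω u Q i x = 0) (v : InfinitePlace N) : c (some v) = 0 := by
  let e : Gal(L/N) × InfinitePlace N ≃ InfinitePlace L := Equiv.ofBijective _ hu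
  have he : ∀ p, e p = (u p.2).comap ((p.1 : L ≃ₐ[N] L) : L →+* L) := fun p => rfl
  let b : InfinitePlace L → ℂ := fun w' => c (some (e.symm w').2) * ((ω (e.symm w').1 : ℂ))⁻¹
  have hb : ∀ p, b (e p) = c (some p.2) * ((ω p.1 : ℂ))⁻¹ := by
    intro p
    show c (some (e.symm (e p)).2) * ((ω (e.symm (e p)).1 : ℂ))⁻¹ = _
    rw [Equiv.symm_apply_apply]
  have hrel : ∀ y : (𝓞 L)ˣ, ∑ w' : InfinitePlace L, b w' * (Real.log (w' ((y : 𝓞 L) : L)) : ℂ) = 0 := by
    intro y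
    set x : Lˣ := Units.map (algebraMap (𝓞 L) L : 𝓞 L →* L) y with hx
    have hxv : (x : L) = ((y : 𝓞 L) : L) := rfl
    have hord : ∀ v : Pl L, ord v x = 0 := HA7_ord_unit y
    have h1 := h x (fun v _ => hord v)
    rw [Fintype.sum_option] at h1
    have h2 : gn6b_psi ω u Q none x = 0 := by
      show ∑ σ : Gal(L/N), ((ω σ : ℂ))⁻¹ * ((ord Q (guN σ x) : ℤ) : ℂ) = 0
      refine Finset.sum_eq_zero fun σ _ => ?_
      rw [ord_guN, hord]
      simp
    rw [h2, mul_zero, zero_add] at h1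
    rw [← h1, ← Equiv.sum_comp e, Fintype.sum_prod_type_right]
    refine Finset.sum_congr rfl fun v' _ => ?_
    show _ = c (some v') * ∑ σ : Gal(L/N), ((ω σ : ℂ))⁻¹ * ((Real.log (u v' (guN σ x : Lˣ)) : ℝ) : ℂ)
    rw [Finset.mul_sum]
    refine Finset.sum_congr rfl fun σ _ => ?_
    rw [hb (σ, v'), mul_assoc]
    rfl
  have hconst := dir_rel (gn6b_cpx hc) b hrel
  obtain ⟨g, hg⟩ : ∃ g, ω g ≠ 1 := by
    by_contra hh
    push Not at hh
    exact hω (MonoidHom.ext hh)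
  have h3 := hconst (e (1, v)) (e (g, v))
  rw [hb, hb] at h3
  by_contra hcv
  have h4 := mul_left_cancel₀ hcv h3
  apply hg
  rw [map_one, Units.val_one, inv_one] at h4
  have h5 : (ω g : ℂ) = 1 := by
    rw [eq_comm, inv_eq_one] at h4
    exact h4
  exact Units.ext h5

theorem gn6b_none (ω : Gal(L/N) →* ℂˣ) (u : InfinitePlace N → InfinitePlace L)
    (w : Pl N) (Q : Pl L) (hQ : Q.under (𝓞 N) = w) (hst : ∀ σ : Gal(L/N), smulP σ Q = Q → σ = 1)
    (c : Option (InfinitePlace N) → ℂ)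
    (h : ∀ x ∈ SU L w, ∑ i, c i * gn6b_psi ω u Q i x = 0) (hv : ∀ v, c (some v) = 0) : c none = 0 := by
  obtain ⟨m, z, hm, hz, hz2⟩ := exists_zQ Q
  have h1 := h z (fun v hv' => hz2 v (by rintro rfl; exact hv' hQ))
  rw [Fintype.sum_option] at h1
  have h2 : ∑ v : InfinitePlace N, c (some v) * gn6b_psi ω u Q (some v) z = 0 :=
    Finset.sum_eq_zero fun v _ => by rw [hv, zero_mul]
  rw [h2, add_zero] at h1
  have h3 : gn6b_psi ω u Q none z = (m : ℂ) := by
    show ∑ σ : Gal(L/N), ((ω σ : ℂ))⁻¹ * ((ord Q (guN σ z) : ℤ) : ℂ) = _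
    rw [Finset.sum_eq_single 1]
    · rw [ord_guN, inv_one, smulP_one, hz, map_one, Units.val_one, inv_one, one_mul]
      push_cast
      rfl
    · intro σ _ hσ
      rw [ord_guN, hz2 _ (fun h4 => hσ (inv_eq_one.1 (hst _ h4)))]
      simp
    · intro h4
      exact absurd (Finset.mem_univ _) h4
  rw [h3] at h1
  rcases mul_eq_zero.1 h1 with h4 | h4
  · exact h4
  · exact absurd (Nat.cast_eq_zero.1 h4) hm

end

/-- Chunk GN6b (M). The functionals: ψ (some v) x = sum over σ of (ω σ)⁻¹ log (u v (σ x)) (u of places_bij), ψ none x = sum over σ of (ω σ)⁻¹ ord Q (guN σ x). Additive; ψ i (guN g x) = ω g ψ i x (substitution σ -> σ g⁻¹).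
Independence. Units u of 𝓞 L (as elements of Lˣ) lie in SU L w and ψ none vanishes on them. Let c satisfy the relation. On units: sum over v, σ of c (some v) (ω σ)⁻¹ log (((u v).comap σ) x) = 0, that is the sum over all infinite places w' of b w' log w' x, b ((u v).comap σ) = c (some v) (ω σ)⁻¹ (places_bij: reindex). The places of L are complex (above complex places). dir_rel: b is constant. σ = 1 and σ = g with ω g ≠ 1 (ω ≠ 1): c (some v) (1 - (ω g)⁻¹) = 0, c (some v) = 0.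
Then c none * ψ none z = 0 for the z of exists_zQ (GN7) for Q: z in SU L w (Q is above w); ord Q (guN σ z) = ord (smulP σ⁻¹ Q) z = h if σ = 1 and 0 otherwise (hst), ψ none z = h ≠ 0. -/
theorem exists_psi {N L : Type} [Field N] [NumberField N] [Field L] [NumberField L] [Algebra N L]
    [IsGalois N L] (hc : ∀ v : InfinitePlace N, v.IsComplex) (ω : Gal(L/N) →* ℂˣ) (hω : ω ≠ 1)
    (w : Pl N) (Q : Pl L) (hQ : Q.under (𝓞 N) = w) (hst : ∀ σ : Gal(L/N), smulP σ Q = Q → σ = 1) :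
    ∃ ψ : Option (InfinitePlace N) → Lˣ → ℂ,
      (∀ i x y, ψ i (x * y) = ψ i x + ψ i y) ∧
      (∀ i (g : Gal(L/N)) x, ψ i (guN g x) = (ω g : ℂ) * ψ i x) ∧
      ∀ c : Option (InfinitePlace N) → ℂ, (∀ x ∈ SU L w, ∑ i, c i * ψ i x = 0) → c = 0 := by
  obtain ⟨u, hu⟩ := places_bij (L := L) hc
  refine ⟨gn6b_psi ω u Q, gn6b_psi_add ω u Q, gn6b_psi_equiv ω u Q, fun c h => ?_⟩
  have hv := gn6b_some hc ω hω u hu w Q c h
  funext i
  cases i with
  | none => exact gn6b_none ω u w Q hQ hst c h hv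
  | some v => exact hv v

end H13Y
end

-- from Lib.H13Y.GN9b
section

open NumberField IsDedekindDomain WeierstrassCurve

namespace H13Y

open H55B H55R H28G H99B

theorem gn9b_tower {N L : Type} [Field N] [NumberField N] [Field L] [NumberField L] [Algebra F N]
    [Algebra N L] [Algebra F L] [IsScalarTower F N L] (y : O) :
    algebraMap O (𝓞 L) y = algebraMap (𝓞 N) (𝓞 L) (algebraMap O (𝓞 N) y) := by
  apply RingOfIntegers.ext
  exact IsScalarTower.algebraMap_apply F N L (y : F)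

theorem gn9b_surj {N L : Type} [Field N] [NumberField N] [Field L] [NumberField L] [Algebra N L] [IsGalois N L]
    (v : Pl N) (w : Pl L) (hw : w.under (𝓞 N) = v) (hf : fs N L v = 1) (b : 𝓞 L ⧸ w.asIdeal) :
    ∃ y : 𝓞 N, Ideal.Quotient.mk w.asIdeal (algebraMap (𝓞 N) (𝓞 L) y) = b := by
  have hu : ∀ y : 𝓞 N, y ∈ v.asIdeal ↔ algebraMap (𝓞 N) (𝓞 L) y ∈ w.asIdeal := by
    intro y
    rw [← hw]
    exact Iff.rfl
  let φ : (𝓞 N ⧸ v.asIdeal) →+* (𝓞 L ⧸ w.asIdeal) :=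
    Ideal.quotientMap w.asIdeal (algebraMap (𝓞 N) (𝓞 L)) fun y hy => (hu y).1 hy
  have hφ1 : Function.Injective φ := Ideal.quotientMap_injective' fun y hy => (hu y).2 hy
  have hfin1 : Finite (𝓞 N ⧸ v.asIdeal) := Ideal.finiteQuotientOfFreeOfNeBot v.asIdeal v.ne_bot
  have hfin2 : Finite (𝓞 L ⧸ w.asIdeal) := Ideal.finiteQuotientOfFreeOfNeBot w.asIdeal w.ne_bot
  have hcard : Nat.card (𝓞 N ⧸ v.asIdeal) = Nat.card (𝓞 L ⧸ w.asIdeal) := by
    have h1 := D5_norm v w hw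
    rw [hf, pow_one, Ideal.absNorm_apply, Ideal.absNorm_apply, Submodule.cardQuot_apply,
      Submodule.cardQuot_apply] at h1
    exact h1.symm
  have hφ : Function.Bijective φ := (Nat.bijective_iff_injective_and_card φ).2 ⟨hφ1, hcard⟩
  obtain ⟨z, hz⟩ := hφ.2 b
  obtain ⟨y, rfl⟩ := Ideal.Quotient.mk_surjective z
  exact ⟨y, hz⟩

theorem gn9b_ram {N L : Type} [Field N] [NumberField N] [Field L] [NumberField L] [Algebra N L] [IsGalois N L]
    (v : Pl N) (w : Pl L) (hw : w.under (𝓞 N) = v) (he : 2 ≤ es N L v) (y : 𝓞 N)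
    (hy : algebraMap (𝓞 N) (𝓞 L) y ∈ w.asIdeal) :
    w.valuation L (algebraMap N L (y : N)) ≤ WithZero.exp (-2 : ℤ) := by
  have hyv : y ∈ v.asIdeal := by
    rw [← hw]
    exact hy
  by_cases h0 : (y : N) = 0
  · rw [h0, map_zero, map_zero]
    exact zero_le
  · let u : Nˣ := Units.mk0 (y : N) h0
    have h1 : v.valuation N (y : N) < 1 := (v.valuation_lt_one_iff_mem y).2 hyv
    have h2 := BF1_val v u
    have h3 : (u : N) = (y : N) := rfl
    rw [h3] at h2
    rw [h2, ← WithZero.exp_zero, WithZero.exp_lt_exp] at h1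
    have h4 := ord_map w v hw u
    have h5 := BF1_val w (Units.map (algebraMap N L : N →* L) u)
    have h6 : ((Units.map (algebraMap N L : N →* L) u : Lˣ) : L) = algebraMap N L (y : N) := rfl
    rw [h6, h4] at h5
    rw [h5, WithZero.exp_le_exp]
    have h7 : (2 : ℤ) ≤ (es N L v : ℤ) := by exact_mod_cast he
    have h8 : 1 ≤ ord v u := by omega
    nlinarith

/-- Chunk GN9b (M), PORT of H28G.exists_loc (K7.lean) to the base field N, at every prime W above π. TotRam N L π v for v = W.under (𝓞 N) (tot_ram hp hπ hL v (hun v ..)); t = tt T, T in Tor π L, T ≠ 0 (exists_tor hp hL.full), ord W t = 1 (TotRam.val). j: k →+* Kap W: k = O/(π) through q (hq, hk) and O → 𝓞 L → Kap W kills π: j (q c) = kmk W (algebraMap c) (Ideal.Quotient.lift and the isomorphism O/ker q ≃ k, as q' in K7_res).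
surj: fs N L v = 1, so 𝓞 N / v → 𝓞 L / W is bijective (D5_norm and cardinalities, as in K7_res). ram: y in W ∩ 𝓞 N = v, W.valuation y ≤ exp(-es), es = Nm π - 1 ≥ 2 (ord_map / valuation of y at v ≤ exp(-1)). inv: TotRam.one, under_smulP. act: r y = j (χ σ) = kmk W c with q c = χ σ, c in O: sp σ T = act c T (hχ), so W.valuation (σ t - c t) ≤ exp(-2) (E1_act, tt_sp), y - c in W ∩ 𝓞 N, W.valuation ((y - c) t) ≤ exp(-2) by ram. -/
theorem exists_locN {l : ℕ} [Fact l.Prime] {π : O} (hp : Prime π) (hπ : Prim π) {N L : Type} [Field N]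
    [NumberField N] [Field L] [NumberField L] [DecidableEq L] [Algebra F N] [Algebra N L] [Algebra F L]
    [IsScalarTower F N L] (hL : TFld N L π) (h2 : 2 < Nm π)
    (hun : ∀ v : Pl N, algebraMap O (𝓞 N) π ∈ v.asIdeal → v.valuation N (ak N π) = WithZero.exp (-1 : ℤ))
    {k : Type} [Field k] (q : O →+* k) (hq : Function.Surjective q) (hk : ∀ x, q x = 0 ↔ π ∣ x)
    (χ : Gal(L/N) →* kˣ) (hχ : ∀ (σ : Gal(L/N)) (c : O), q c = χ σ → ∀ R ∈ Tor π L, sp σ R = act c R)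
    (W : Pl L) (hW : algebraMap O (𝓞 L) π ∈ W.asIdeal) :
    ∃ (j : k →+* Kap W) (t : Lˣ), LocN j χ W t (kmk W) := by
  have hgal : IsGalois N L := hL.gal
  obtain ⟨v, hWv⟩ : ∃ v : Pl N, W.under (𝓞 N) = v := ⟨_, rfl⟩
  have hmem : ∀ y : 𝓞 N, y ∈ v.asIdeal ↔ algebraMap (𝓞 N) (𝓞 L) y ∈ W.asIdeal := by
    intro y
    rw [← hWv]
    exact Iff.rfl
  have hv : algebraMap O (𝓞 N) π ∈ v.asIdeal := by
    rw [hmem, ← gn9b_tower]
    exact hW
  have TR := tot_ram hp hπ hL v (hun v hv)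
  have he : 2 ≤ es N L v := by
    rw [TR.es]
    omega
  obtain ⟨T, hT, h0⟩ := exists_tor hp hL.full
  obtain ⟨hT1, hT2⟩ := TR.val W hWv T hT h0
  have ht0 : tt T ≠ 0 := by
    intro h
    rw [h, map_zero] at hT2
    exact WithZero.exp_ne_zero hT2.symm
  have hψ : ∀ a : O, q a = 0 → ((kmk W).comp (algebraMap O (𝓞 L))) a = 0 := by
    intro a ha
    rw [hk] at ha
    obtain ⟨c, rfl⟩ := ha
    rw [map_mul, RingHom.comp_apply, (kmk_zero W _).2 hW, zero_mul]
  let j : k →+* Kap W := q.liftOfSurjective hq ⟨(kmk W).comp (algebraMap O (𝓞 L)), fun a ha => hψ a ha⟩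
  have hj : ∀ y : O, j (q y) = kmk W (algebraMap (𝓞 N) (𝓞 L) (algebraMap O (𝓞 N) y)) := by
    intro y
    rw [← gn9b_tower]
    exact RingHom.liftOfRightInverse_comp_apply q (Function.surjInv hq) (Function.rightInverse_surjInv hq)
      ⟨(kmk W).comp (algebraMap O (𝓞 L)), fun a ha => hψ a ha⟩ y
  refine ⟨j, Units.mk0 (tt T) ht0, ⟨fun x => kmk_zero W x, fun b => ?_, fun y hy => ?_, fun σ => ?_, ?_,
    fun σ y hy => ?_⟩⟩
  · exact gn9b_surj v W hWv TR.fs b
  · exact gn9b_ram v W hWv he y ((kmk_zero W _).1 hy)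
  · exact TR.one _ _ ((under_smulP σ W).trans hWv) hWv
  · have h1 := BF1_val W (Units.mk0 (tt T) ht0)
    rw [Units.val_mk0, hT2, WithZero.exp_inj] at h1
    omega
  · obtain ⟨c, hc⟩ := hq (χ σ : k)
    have h1 := hχ σ c hc T hT
    have h4 := (E1_act (W.valuation L) (P := T) (Or.inr hT1) c).2.1
    rw [← h1, tt_sp, hT2] at h4
    have h5 : W.valuation L (algebraMap N L (((y - algebraMap O (𝓞 N) c : 𝓞 N)) : N)) ≤
        WithZero.exp (-2 : ℤ) := by
      refine gn9b_ram v W hWv he _ ((kmk_zero W _).1 ?_)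
      rw [map_sub, map_sub, hy, ← hc, hj, sub_self]
    have h6 : ((y - algebraMap O (𝓞 N) c : 𝓞 N) : N) = (y : N) - algebraMap F N (c : F) := rfl
    have h10 : algebraMap N L (y : N) - algebraMap F L (c : F) =
        algebraMap N L (((y - algebraMap O (𝓞 N) c : 𝓞 N)) : N) := by
      rw [h6, map_sub, IsScalarTower.algebraMap_apply F N L]
    rw [← h10] at h5
    have h7 : σ ((Units.mk0 (tt T) ht0 : Lˣ) : L) - algebraMap N L (y : N) * ((Units.mk0 (tt T) ht0 : Lˣ) : L) =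
        (σ (tt T) - ak L c * tt T) - (algebraMap N L (y : N) - algebraMap F L (c : F)) * tt T := by
      have h8 : ak L c = algebraMap F L (c : F) := rfl
      rw [Units.val_mk0, h8]
      ring
    rw [h7]
    have h9 : (WithZero.exp (-1 : ℤ)) ^ 2 = (WithZero.exp (-2 : ℤ)) := by
      rw [← WithZero.exp_nsmul]
      norm_num
    rw [h9] at h4
    refine (W.valuation L).map_sub_le h4 ?_
    rw [map_mul, hT2]
    refine (mul_le_of_le_one_right' ?_).trans h5
    rw [← WithZero.exp_zero, WithZero.exp_le_exp]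
    norm_num

end H13Y
end

-- from Lib.H13Y.GN11b
section

open NumberField IsDedekindDomain WeierstrassCurve

namespace H13Y

open H55B H55R H28G H99B

/-- The elements of SU killed by a homomorphism. -/
def gn11b_K {N L : Type} [Field N] [NumberField N] [Field L] [NumberField L] [Algebra N L] (w : Pl N)
    {Λ : Type} [AddCommGroup Λ] (f : Lˣ → Λ)
    (f1 : ∀ x ∈ SU L w, ∀ y ∈ SU L w, f (x * y) = f x + f y) : Subgroup Lˣ where
  carrier := {y | y ∈ SU L w ∧ f y = 0}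
  mul_mem' := fun {x y} hx hy => ⟨mul_mem hx.1 hy.1, by rw [f1 x hx.1 y hy.1, hx.2, hy.2, add_zero]⟩
  one_mem' := ⟨one_mem _, by
    have h := f1 1 (one_mem _) 1 (one_mem _)
    rw [mul_one] at h
    exact left_eq_add.mp h⟩
  inv_mem' := fun {x} hx => ⟨inv_mem hx.1, by
    have h1 : f 1 = 0 := by
      have h := f1 1 (one_mem _) 1 (one_mem _)
      rw [mul_one] at h
      exact left_eq_add.mp h
    have h := f1 x hx.1 x⁻¹ (inv_mem hx.1)
    rw [mul_inv_cancel, h1, hx.2, zero_add] at h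
    exact h.symm⟩

theorem gn11b_K_mem {N L : Type} [Field N] [NumberField N] [Field L] [NumberField L] [Algebra N L] {w : Pl N}
    {Λ : Type} [AddCommGroup Λ] {f : Lˣ → Λ}
    {f1 : ∀ x ∈ SU L w, ∀ y ∈ SU L w, f (x * y) = f x + f y} {y : Lˣ} :
    y ∈ gn11b_K w f f1 ↔ y ∈ SU L w ∧ f y = 0 := Iff.rfl

theorem gn11b_units {l : ℕ} [Fact l.Prime] (h5 : 5 ≤ l) {k : Type} [Field k] [Fintype k] [CharP k l] :
    5 ≤ Fintype.card k ∧ ∃ u : kˣ, u ≠ 1 := by
  classical
  obtain ⟨n, -, hn⟩ := FiniteField.card k l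
  have h1 : 5 ≤ Fintype.card k := by
    rw [hn]
    exact h5.trans (Nat.le_self_pow n.pos.ne' l)
  refine ⟨h1, ?_⟩
  have h2 : 1 < Fintype.card kˣ := by
    rw [Fintype.card_units]
    omega
  have h3 : Nontrivial kˣ := Fintype.one_lt_card_iff_nontrivial.1 h2
  exact exists_ne 1

/-- Chunk GN11b (M). Assembly. ρ (exists_rho), V, ω (exists_teich), ω ≠ 1 because ω is injective and Gal(L/N) ≅ kˣ is not trivial (card k = Nm π > 2: H28G.arith); a prime Q of L above w (under_exists); exists_psi, places_card; exists_locN, TotRam.one, exists_Lam; for x in SU L w and W above π: W.under (𝓞 N) ≠ w (hwπ) so ord W x = 0.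
gn_alg with A = SU L w, ι = Option (InfinitePlace N) (card = [N : F] + 1): x with f x = 0 and M x not an l-th power in SU L w, so (SU_pow) not an l-th power in Lˣ. m a = pw guN (cf χ ρ a) x: etaN_hom, pwN_mem (ord v (m a) = 0 for v not above w); Lev: f (m a) = sum over δ of cf χ ρ a δ • f (guN δ x) = (a multiple of) f x = 0 (f additive, also for integral powers; or: the elements y of SU L w with f y = 0 form a subgroup stable under guN). The last clause: a = 1. -/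
theorem glob_N {l : ℕ} [Fact l.Prime] (h5 : 5 ≤ l) {π : O} (hp : Prime π) (hπ : Prim π)
    (hd : π ∣ (l : O)) {N L : Type} [Field N] [NumberField N] [Field L] [NumberField L] [DecidableEq L]
    [Algebra F N] [Algebra N L] [Algebra F L] [IsScalarTower F N L] (hL : TFld N L π)
    (hun : ∀ v : Pl N, algebraMap O (𝓞 N) π ∈ v.asIdeal → v.valuation N (ak N π) = WithZero.exp (-1 : ℤ))
    {k : Type} [Field k] [Fintype k] [DecidableEq k] [CharP k l] (q : O →+* k)
    (hq : Function.Surjective q) (hk : ∀ x, q x = 0 ↔ π ∣ x) (χ : Gal(L/N) →* kˣ)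
    (hχ : ∀ (σ : Gal(L/N)) (c : O), q c = χ σ → ∀ R ∈ Tor π L, sp σ R = act c R) (w : Pl N)
    (hwπ : algebraMap O (𝓞 N) π ∉ w.asIdeal)
    (hst : ∀ Q : Pl L, Q.under (𝓞 N) = w → ∀ σ : Gal(L/N), smulP σ Q = Q → σ = 1) :
    ∃ m : k → Lˣ, EqHomN l χ m ∧
      (∀ (a : k) (v : Pl L), v.under (𝓞 N) ≠ w → (l : ℤ) ∣ ord v (m a)) ∧
      (∀ (a : k) (W : Pl L), algebraMap O (𝓞 L) π ∈ W.asIdeal → Lev l W (m a)) ∧
      ∃ a : k, ∀ z : Lˣ, m a ≠ z ^ l := by
  have hgal : IsGalois N L := hL.gal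
  have hl : l.Prime := Fact.out
  obtain ⟨hcard, hχb⟩ := chi_bijN hp hπ hL hun q hq hk χ hχ
  obtain ⟨ρ, hρ⟩ := exists_rho l k
  obtain ⟨V, ω, hV, hωi, hω⟩ := exists_teich l χ hχb.1
  obtain ⟨hk5, u, hu⟩ := gn11b_units h5 (k := k)
  have h2 : 2 < Nm π := by
    rw [← hcard]
    omega
  have hω1 : ω ≠ 1 := by
    intro h
    obtain ⟨g, hg⟩ := hχb.2 u
    apply hu
    have h3 : g = 1 := hωi (by rw [h]; rfl)
    rw [← hg, h3, map_one]
  obtain ⟨Q, hQ⟩ := under_exists (L := L) w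
  obtain ⟨hc, hcardN⟩ := places_card N
  obtain ⟨ψ, p1, p2, p3⟩ := exists_psi hc ω hω1 w Q hQ (hst Q hQ)
  have htow : ∀ c : O, algebraMap O (𝓞 L) c = algebraMap (𝓞 N) (𝓞 L) (algebraMap O (𝓞 N) c) :=
    fun c => RingOfIntegers.ext (IsScalarTower.algebraMap_apply F N L (c : F))
  have hmem : ∀ W : Pl L, algebraMap O (𝓞 L) π ∈ W.asIdeal →
      algebraMap O (𝓞 N) π ∈ (W.under (𝓞 N)).asIdeal := by
    intro W hW
    rw [htow] at hW
    exact hW
  have hone : ∀ W W' : Pl L, algebraMap O (𝓞 L) π ∈ W.asIdeal → W.under (𝓞 N) = W'.under (𝓞 N) →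
      W = W' := by
    intro W W' hW hWW
    exact (tot_ram hp hπ hL (W.under (𝓞 N)) (hun _ (hmem W hW))).one W W' rfl hWW.symm
  have hloc : ∀ W : Pl L, algebraMap O (𝓞 L) π ∈ W.asIdeal →
      ∃ (j : k →+* Kap W) (t : Lˣ), LocN j χ W t (kmk W) := fun W hW =>
    exists_locN (l := l) hp hπ hL h2 hun q hq hk χ hχ W hW
  obtain ⟨Λ, i1, i2, i3, f, hfin, f1, f2, f3⟩ := exists_Lam hp.ne_zero hcard χ hone hloc
  have hdv : ∀ x ∈ SU L w, ∀ W : Pl L, algebraMap O (𝓞 L) π ∈ W.asIdeal → (l : ℤ) ∣ ord W x := by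
    intro x hx W hW
    have h3 : W.under (𝓞 N) ≠ w := by
      intro h
      apply hwπ
      rw [← h]
      exact hmem W hW
    rw [hx W h3]
    exact dvd_zero _
  have f1' : ∀ x ∈ SU L w, ∀ y ∈ SU L w, f (x * y) = f x + f y := fun x hx y hy =>
    f1 x y (hdv x hx) (hdv y hy)
  have f2' : ∀ g : Gal(L/N), ∀ x ∈ SU L w, f (guN g x) = (χ g : k) • f x := fun g x hx =>
    f2 g x (hdv x hx)
  obtain ⟨x, hx, hfx, hnx⟩ := gn_alg χ hχb ρ hρ (guN : Gal(L/N) →* Monoid.End Lˣ) (SU L w)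
    (fun g x hx => SU_act g hx) f f1' f2' (ι := Option (InfinitePlace N)) (by
      rw [Fintype.card_option, hcardN]
      omega) V hV ω hω ψ (fun i x _ y _ => p1 i x y) (fun i g x _ => p2 i g x) p3 (SU_fg w)
  have hK : ∀ g : Gal(L/N), guN g x ∈ gn11b_K w f f1' := by
    intro g
    refine ⟨SU_act g hx, ?_⟩
    rw [f2' g x hx, hfx, smul_zero]
  have hm0 : ∀ a : k, pw guN (cf χ ρ a) x ∈ gn11b_K w f f1' := by
    intro a
    unfold pw
    exact Subgroup.prod_mem _ fun g _ => Subgroup.zpow_mem _ (hK g) _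
  refine ⟨fun a => pw guN (cf χ ρ a) x, etaN_hom χ ρ x, ?_, ?_, 1, ?_⟩
  · intro a v hv
    show (l : ℤ) ∣ ord v (pw guN (cf χ ρ a) x)
    rw [(hm0 a).1 v hv]
    exact dvd_zero _
  · intro a W hW
    exact f3 _ (hdv _ (hm0 a).1) (hm0 a).2 W hW
  · intro z hz
    exact hnx z (SU_pow hl.ne_zero (hm0 1).1 hz) hz

end H13Y
end

-- from Lib.H13D.A7
section

/-! # H13D, part A: good reduction (generic) -/

open NumberField IsDedekindDomain WeierstrassCurve

namespace H13D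

open H55P (IQ embF eF LF Per IsHecke Pt ac Inert Dec Nm)
open H35P (WAB Ker tt GoodW IntW)
open H55K

/-- Chunk A7 (S/M). p prime, V(p) < 1, q = p^f: (x + y)^q is congruent to x^q + y^q and (x - y)^q to x^q - y^q. H55K.g7c_add (G7C.lean) or exists_add_pow_prime_eq; induction on f, or: in the residue field of V (characteristic p) sub_pow_char_pow; IsLocalRing.residue. For p = 2: -1 = 1. -/
theorem sub_pow_val {k : Type} [Field k] (V : ValuationSubring k) {p : ℕ} (hp : p.Prime) (hpV : V.valuation (p : k) < 1) (f : ℕ)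
    {x y : k} (hx : V.valuation x ≤ 1) (hy : V.valuation y ≤ 1) :
    V.valuation ((x - y) ^ p ^ f - (x ^ p ^ f - y ^ p ^ f)) < 1 := by
  set X : V := ⟨x, V.mem_of_valuation_le_one x hx⟩ with hX
  set Y : V := ⟨y, V.mem_of_valuation_le_one y hy⟩ with hY
  have hval : ∀ a : V, V.valuation (a : k) < 1 ↔ IsLocalRing.residue V a = 0 := by
    intro a
    rw [IsLocalRing.residue_eq_zero_iff, ← ValuationSubring.valuation_lt_one_iff]
  have hp0 : ((p : ℕ) : IsLocalRing.ResidueField V) = 0 := by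
    have h1 := (hval (p : V)).1 (by simpa using hpV)
    rw [map_natCast] at h1
    exact h1
  haveI : CharP (IsLocalRing.ResidueField V) p := (CharP.charP_iff_prime_eq_zero hp).2 hp0
  haveI : Fact p.Prime := ⟨hp⟩
  have h2 := (hval ((X - Y) ^ p ^ f - (X ^ p ^ f - Y ^ p ^ f))).2 (by
    rw [map_sub, map_pow, map_sub, map_sub, map_pow, map_pow, sub_pow_char_pow, sub_self])
  simpa using h2

variable {F : Type} [Field F] [NumberField F] [IQ F] {A B : F} {Om : ℂ} {Ω : Type} [Field Ω] [DecidableEq Ω]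
  [Algebra F Ω] {j : Ω →+* ℂ} {act : 𝓞 F →+* AddMonoid.End (Pt (WAB A B) Ω)} {V : ValuationSubring Ω}
  {Kg : AddSubgroup (Pt (WAB A B) Ω)} {u r : Ω}

/-- Chunk A7 (M). Port of H55K/G7C.lean (frob_diff), with xn in place of xc. κ = β^2 * product over S of xn R (S the nonzero points killed by β), V(κ) = 1 (prod_xn). For X, Y not in Kg: act β X, act β Y are not in Kg (ker_red'), so they are not 0; e2n: κ * prod (1 - xn Y/xn R) * (xn (βX) - xn (βY)) =
(xn X - xn Y) * prod (xn (X + R) - xn Y), where V(xn Y/xn R) < 1 (R in Kg by tor_ker') and V(xn (X + R) - xn X) < 1 (hR.conv): so κ (xn (βX) - xn (βY)) is congruent to (xn X - xn Y)^q, q = Nm β = S.card + 1 (exists_TN), and this to xn X^q - xn Y^q (sub_pow_val). -/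
theorem frob_diff' (h : CMA F A B Om j act) (hR : RM A B V Kg u r) {β : 𝓞 F} (hβ : Prime β) (hv : V.valuation (ak Ω β) < 1)
    {p f : ℕ} (hp : p.Prime) (hq : Nm β = p ^ f) (hpV : V.valuation (p : Ω) < 1) : ∃ κ : Ω, V.valuation κ = 1 ∧
    ∀ X Y : Pt (WAB A B) Ω, X ∉ Kg → Y ∉ Kg →
      V.valuation (κ * (xn u r (act β X) - xn u r (act β Y)) - (xn u r X ^ Nm β - xn u r Y ^ Nm β)) < 1 := by
  classical
  have hβ0 : β ≠ 0 := hβ.ne_zero
  obtain ⟨S, hS, hcard⟩ := exists_TN h hβ0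
  have hR1 : ∀ R ∈ S, R ≠ 0 ∧ R ∈ Kg ∧ 1 < V.valuation (xn u r R) := by
    intro R hRS
    obtain ⟨h1, h2⟩ := (hS R).1 hRS
    have h3 : R ∈ Kg := tor_ker' h hR hβ hv h1
    exact ⟨h2, h3, hR.big _ h3 h2⟩
  have hxR : ∀ R ∈ S, xn u r R ≠ 0 := by
    intro R hRS h0
    have := (hR1 R hRS).2.2
    rw [h0, map_zero] at this
    exact absurd this (not_lt.2 zero_le_one)
  have hred : ∀ X : Pt (WAB A B) Ω, X ∉ Kg → act β X ∉ Kg := fun X hX hX' =>
    hX (ker_red' h hR hβ hv hX')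
  have hκ : V.valuation (ak Ω β ^ 2 * ∏ R ∈ S, xn u r R) = 1 := prod_xn h hR hβ hv hS
  refine ⟨ak Ω β ^ 2 * ∏ R ∈ S, xn u r R, hκ, ?_⟩
  intro X Y hX hY
  have hX1 := hR.int _ hX
  have hY1 := hR.int _ hY
  have hbX := hred X hX
  have hbY := hred Y hY
  have hbX0 : act β X ≠ 0 := fun h0 => hbX (h0 ▸ Kg.zero_mem)
  have hbY0 : act β Y ≠ 0 := fun h0 => hbY (h0 ▸ Kg.zero_mem)
  have hbX1 := hR.int _ hbX
  have hbY1 := hR.int _ hbY
  have he2 := e2n (u := u) (r := r) h hR.une hβ0 hS hbX0 hbY0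
  have hu : V.valuation (∏ R ∈ S, (1 - xn u r Y / xn u r R) - ∏ R ∈ S, (1 : Ω)) < 1 := by
    have hlt : ∀ R ∈ S, V.valuation (xn u r Y / xn u r R) < 1 := by
      intro R hRS
      rw [map_div₀]
      have h1 := (hR1 R hRS).2.2
      exact (div_lt_one₀ (zero_lt_one.trans h1)).2 (hY1.trans_lt h1)
    refine g7c_prod V S _ _ (fun R hRS => ?_) (fun R hRS => (map_one _).le) (fun R hRS => ?_)
    · refine (V.valuation.map_sub _ _).trans (max_le (map_one _).le (hlt R hRS).le)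
    · have h1 : 1 - xn u r Y / xn u r R - 1 = -(xn u r Y / xn u r R) := by ring
      rw [h1, Valuation.map_neg]
      exact hlt R hRS
  rw [Finset.prod_const_one] at hu
  have hP : V.valuation (∏ R ∈ S, (xn u r (X + R) - xn u r Y) - ∏ R ∈ S, (xn u r X - xn u r Y)) < 1 := by
    have hc : ∀ R ∈ S, X + R ∉ Kg ∧ V.valuation (xn u r (X + R) - xn u r X) < 1 := by
      intro R hRS
      have h1 : X + R - X ∈ Kg := by
        rw [add_sub_cancel_left]
        exact (hR1 R hRS).2.1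
      refine ⟨fun hk => hX ?_, hR.conv _ _ hX h1⟩
      have h2 := Kg.sub_mem hk h1
      rwa [sub_sub_cancel] at h2
    refine g7c_prod V S _ _ (fun R hRS => ?_) (fun R hRS => ?_) (fun R hRS => ?_)
    · exact (V.valuation.map_sub _ _).trans (max_le (hR.int _ (hc R hRS).1) hY1)
    · exact (V.valuation.map_sub _ _).trans (max_le hX1 hY1)
    · have h1 : xn u r (X + R) - xn u r Y - (xn u r X - xn u r Y) = xn u r (X + R) - xn u r X := by ring
      rw [h1]
      exact (hc R hRS).2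
  rw [Finset.prod_const, hcard] at hP
  have hprod : ∏ R ∈ S, (xn u r R - xn u r Y) = (∏ R ∈ S, xn u r R) * ∏ R ∈ S, (1 - xn u r Y / xn u r R) := by
    rw [← Finset.prod_mul_distrib]
    refine Finset.prod_congr rfl fun R hRS => ?_
    have := hxR R hRS
    field_simp
  rw [hprod] at he2
  have hqpos : 1 ≤ Nm β := by
    rw [hq]
    exact Nat.one_le_pow _ _ hp.pos
  have hpow : (xn u r X - xn u r Y) * (xn u r X - xn u r Y) ^ (Nm β - 1) = (xn u r X - xn u r Y) ^ Nm β := by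
    rw [← pow_succ', Nat.sub_add_cancel hqpos]
  have hsub : V.valuation ((xn u r X - xn u r Y) ^ Nm β - (xn u r X ^ Nm β - xn u r Y ^ Nm β)) < 1 := by
    rw [hq]
    exact sub_pow_val V hp hpV f hX1 hY1
  have hD : V.valuation (xn u r (act β X) - xn u r (act β Y)) ≤ 1 :=
    (V.valuation.map_sub _ _).trans (max_le hbX1 hbY1)
  have hxy : V.valuation (xn u r X - xn u r Y) ≤ 1 := (V.valuation.map_sub _ _).trans (max_le hX1 hY1)
  set κ := ak Ω β ^ 2 * ∏ R ∈ S, xn u r R with hκdef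
  set w := ∏ R ∈ S, (1 - xn u r Y / xn u r R) with hudef
  set p' := ∏ R ∈ S, (xn u r (X + R) - xn u r Y) with hpdef
  have hfin : κ * (xn u r (act β X) - xn u r (act β Y)) - (xn u r X ^ Nm β - xn u r Y ^ Nm β) =
      (xn u r X - xn u r Y) * (p' - (xn u r X - xn u r Y) ^ (Nm β - 1)) - κ * (xn u r (act β X) - xn u r (act β Y)) * (w - 1) +
      ((xn u r X - xn u r Y) ^ Nm β - (xn u r X ^ Nm β - xn u r Y ^ Nm β)) := by
    rw [← hpow]
    have : κ * (xn u r (act β X) - xn u r (act β Y)) * w = (xn u r X - xn u r Y) * p' := by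
      rw [← he2, hκdef]
      ring
    linear_combination this
  rw [hfin]
  refine V.valuation.map_add_lt (V.valuation.map_sub_lt ?_ ?_) hsub
  · exact g7c_mul V hxy hP
  · refine g7c_mul V ?_ hu
    rw [map_mul, hκ, one_mul]
    exact hD

end H13D
end

-- from Lib.H13D.A8
section

/-! # H13D, part A: good reduction (generic) -/

open NumberField IsDedekindDomain WeierstrassCurve

namespace H13D

open H55P (IQ embF eF LF Per IsHecke Pt ac Inert Dec Nm)
open H35P (WAB Ker tt GoodW IntW)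
open H55K

variable {F : Type} [Field F] [NumberField F] [IQ F] {A B : F} {Om : ℂ} {Ω : Type} [Field Ω] [DecidableEq Ω]
  [Algebra F Ω] {j : Ω →+* ℂ} {act : 𝓞 F →+* AddMonoid.End (Pt (WAB A B) Ω)} {V : ValuationSubring Ω}
  {Kg : AddSubgroup (Pt (WAB A B) Ω)} {u r : Ω}

/-- Chunk A8 (S). xn (ac s P) = s (xn P) for P ≠ 0 (H55K.ac_crd in M4B.lean: xc (ac s P) = s (xc P); s u = u, s r = r) and for P = 0 (both are -r/u^2). -/
theorem xn_ac (s : Ω ≃ₐ[F] Ω) (hu : s u = u) (hr : s r = r) (P : Pt (WAB A B) Ω) :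
    xn u r (ac (WAB A B) s P) = s (xn u r P) := by
  unfold xn
  rw [xc_ac, map_div₀, map_sub, map_pow, hu, hr]

/-- Chunk A8 (S). mem_iff, xn_ac; s is a Frobenius element, so it is in the decomposition group (H55K.g8c_dec in G8C.lean): V(s x) > 1 iff V(x) > 1. -/
theorem ac_mem_iff (hR : RM A B V Kg u r) (s : Ω ≃ₐ[F] Ω) (hs : Dec V s) (hu : s u = u) (hr : s r = r) (P : Pt (WAB A B) Ω) :
    ac (WAB A B) s P ∈ Kg ↔ P ∈ Kg := by
  by_cases hP : P = 0
  · rw [hP, map_zero]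
  · have h0 : ac (WAB A B) s P ≠ 0 := fun h => hP (by
      obtain ⟨-, -, h1, -⟩ := MG.ac_crd (W := WAB A B) s P
      exact h1 h)
    rw [mem_iff hR h0, mem_iff hR hP, xn_ac s hu hr, ← not_le, ← not_le, V.valuation_le_one_iff, V.valuation_le_one_iff, hs]

/-- Chunk A8 (M). THE FROBENIUS ELEMENT IS A MULTIPLICATION. T, T' are not in Kg, nor T - T', T + T'; β T = ± sT (the x-coordinates agree) and the same for T'. κ from frob_diff'. xn (sT) = s (xn T) is congruent to (xn T)^q (hs; xn T in V by hR.int), the same for T'. So with D = xn (βT) - xn (βT') (V(D) = 1 by hR.diff: βT, βT', β(T - T'), β(T + T') are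
not in Kg by ker_red') frob_diff' says V(κ D - D) < 1, so V(κ - 1) < 1. For X not in Kg: frob_diff' for X and T: xn (βX) - xn (βT) is congruent to xn X^q - xn T^q (xn (βX), xn (βT) in V: ker_red'), and xn (βT) = xn (sT) is congruent to xn T^q: so xn (βX) is congruent to xn X^q, which is congruent to s (xn X) = xn (sX).
Both βX, sX are not in Kg (ker_red', ac_mem_iff): cls_of: βX - sX or βX + sX is in Kg. For X in Kg both are in Kg (act_mem, ac_mem_iff). H55K.two_sub (G8B.lean) with K = Kg, f = act β, g = ac s: γ = β or γ = -β. -/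
theorem frob_gen' (h : CMA F A B Om j act) (hR : RM A B V Kg u r) {β : 𝓞 F} (hβ : Prime β) (hv : V.valuation (ak Ω β) < 1)
    {p f : ℕ} (hp : p.Prime) (hq : Nm β = p ^ f) (hpV : V.valuation (p : Ω) < 1) (s : Ω ≃ₐ[F] Ω) (hs : Dec V s)
    (hsF : ∀ x ∈ V, V.valuation (s x - x ^ Nm β) < 1) (hu : s u = u) (hr : s r = r) {T T' : Pt (WAB A B) Ω}
    (h1 : T ∉ Kg) (h2 : T' ∉ Kg) (h3 : T - T' ∉ Kg) (h4 : T + T' ∉ Kg)
    (h5 : xc (ac (WAB A B) s T) = xc (act β T)) (h6 : xc (ac (WAB A B) s T') = xc (act β T')) :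
    ∃ γ : 𝓞 F, (γ = β ∨ γ = -β) ∧ ∀ X : Pt (WAB A B) Ω, act γ X - ac (WAB A B) s X ∈ Kg := by
  obtain ⟨κ, hκ, hfd⟩ := frob_diff' (u := u) (r := r) h hR hβ hv hp hq hpV
  have hred : ∀ X : Pt (WAB A B) Ω, X ∉ Kg → act β X ∉ Kg := fun X hX hX' =>
    hX (ker_red' h hR hβ hv hX')
  have hxs : ∀ X : Pt (WAB A B) Ω, X ∉ Kg → V.valuation (xn u r (ac (WAB A B) s X) - xn u r X ^ Nm β) < 1 := by
    intro X hX
    rw [xn_ac s hu hr]
    exact hsF _ ((V.valuation_le_one_iff _).1 (hR.int _ hX))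
  have hT : ∀ T : Pt (WAB A B) Ω, T ∉ Kg → xc (ac (WAB A B) s T) = xc (act β T) →
      V.valuation (xn u r (act β T) - xn u r T ^ Nm β) < 1 := by
    intro T hT1 hT2
    have e : xn u r (act β T) = xn u r (ac (WAB A B) s T) := by
      unfold xn
      rw [hT2]
    rw [e]
    exact hxs T hT1
  have hm : act β (T - T') = act β T - act β T' := map_sub _ _ _
  have hm' : act β (T + T') = act β T + act β T' := map_add _ _ _
  have hD : V.valuation (xn u r (act β T) - xn u r (act β T')) = 1 :=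
    hR.diff _ _ (hred T h1) (hred T' h2) (hm ▸ hred _ h3) (hm' ▸ hred _ h4)
  have hκ1 : V.valuation (κ - 1) < 1 := by
    have a1 := hfd T T' h1 h2
    have a2 := hT T h1 h5
    have a3 := hT T' h2 h6
    have a4 : V.valuation ((κ - 1) * (xn u r (act β T) - xn u r (act β T'))) < 1 := by
      have e : (κ - 1) * (xn u r (act β T) - xn u r (act β T')) =
          (κ * (xn u r (act β T) - xn u r (act β T')) - (xn u r T ^ Nm β - xn u r T' ^ Nm β)) -
          (xn u r (act β T) - xn u r T ^ Nm β) + (xn u r (act β T') - xn u r T' ^ Nm β) := by ring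
      rw [e]
      exact V.valuation.map_add_lt (V.valuation.map_sub_lt a1 a2) a3
    rwa [map_mul, hD, mul_one] at a4
  have hbx : ∀ X : Pt (WAB A B) Ω, X ∉ Kg → V.valuation (xn u r (act β X) - xn u r X ^ Nm β) < 1 := by
    intro X hX
    have b1 := hfd X T hX h1
    have b2 := hT T h1 h5
    have b3 : V.valuation ((κ - 1) * (xn u r (act β X) - xn u r (act β T))) < 1 := by
      rw [map_mul]
      refine mul_lt_one_of_lt_of_le hκ1 ?_
      exact (V.valuation.map_sub _ _).trans (max_le (hR.int _ (hred X hX)) (hR.int _ (hred T h1)))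
    have e : xn u r (act β X) - xn u r X ^ Nm β =
        (κ * (xn u r (act β X) - xn u r (act β T)) - (xn u r X ^ Nm β - xn u r T ^ Nm β)) -
        (κ - 1) * (xn u r (act β X) - xn u r (act β T)) + (xn u r (act β T) - xn u r T ^ Nm β) := by ring
    rw [e]
    exact V.valuation.map_add_lt (V.valuation.map_sub_lt b1 b3) b2
  have hall : ∀ X : Pt (WAB A B) Ω, (act β X - ac (WAB A B) s X ∈ Kg) ∨
      (act β X + ac (WAB A B) s X ∈ Kg) := by
    intro X
    by_cases hX : X ∈ Kg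
    · left
      exact Kg.sub_mem (act_mem h hR β hX) ((ac_mem_iff hR s hs hu hr X).2 hX)
    · refine cls_of hR (hred X hX) (fun h' => hX ((ac_mem_iff hR s hs hu hr X).1 h')) ?_
      have c1 := hbx X hX
      have c2 := hxs X hX
      have e : xn u r (act β X) - xn u r (ac (WAB A B) s X) =
          (xn u r (act β X) - xn u r X ^ Nm β) - (xn u r (ac (WAB A B) s X) - xn u r X ^ Nm β) := by ring
      rw [e]
      exact V.valuation.map_sub_lt c1 c2
  rcases two_sub Kg (act β : Pt (WAB A B) Ω →+ Pt (WAB A B) Ω) (ac (WAB A B) s) hall with h7 | h7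
  · exact ⟨β, Or.inl rfl, fun X => h7 X⟩
  · refine ⟨-β, Or.inr rfl, fun X => ?_⟩
    have e : act (-β) X - ac (WAB A B) s X = -(act β X + ac (WAB A B) s X) := by
      rw [map_neg]
      change -(act β X) - ac (WAB A B) s X = _
      abel
    rw [e]
    exact Kg.neg_mem (h7 X)

end H13D
end

-- from Lib.H55W.L0
section

/-! # H55W, part L: the Frobenius element at a prime of good reduction -/

open NumberField IsDedekindDomain WeierstrassCurve

namespace H55W

open H55P (IQ embF eF LF Per IsHecke Pt ac Inert Dec Nm)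
open H35P (WAB Ker tt GoodW IntW)
open H55K
open H13D (RM)

section

variable {F : Type} [Field F] [NumberField F] {Ω : Type} [Field Ω] [DecidableEq Ω] [Algebra F Ω]

/-- V lies over the prime v of good reduction, s is a Frobenius element at V, Kg is the kernel of reduction. -/
structure LD {A B : F} (v : HeightOneSpectrum (𝓞 F)) (V : ValuationSubring Ω) (s : Ω ≃ₐ[F] Ω) (Kg : AddSubgroup (Pt (WAB A B) Ω))
    (r : Ω) : Prop where
  rm : RM A B V Kg 1 r
  sr : s r = r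
  lt : ∀ a : 𝓞 F, a ∈ v.asIdeal → V.valuation (ak Ω a) < 1
  eq : ∀ a : 𝓞 F, a ∉ v.asIdeal → V.valuation (ak Ω a) = 1
  dec : Dec V s
  frob : ∀ x ∈ V, V.valuation (s x - x ^ Ideal.absNorm v.asIdeal) < 1

end

variable {F : Type} [Field F] [NumberField F] [IQ F] {A B : F} {Om : ℂ} {Ω : Type} [Field Ω] [DecidableEq Ω]
  [Algebra F Ω] {j : Ω →+* ℂ} {act : 𝓞 F →+* AddMonoid.End (Pt (WAB A B) Ω)} {V : ValuationSubring Ω}
  {Kg : AddSubgroup (Pt (WAB A B) Ω)} {v : HeightOneSpectrum (𝓞 F)} {s : Ω ≃ₐ[F] Ω} {r : Ω}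

theorem l0_mul (a b : 𝓞 F) (P : Pt (WAB A B) Ω) : act (a * b) P = act a (act b P) := by
  rw [map_mul]
  rfl

theorem l0_sub (a b : 𝓞 F) (P : Pt (WAB A B) Ω) : act (a - b) P = act a P - act b P := by
  rw [map_sub]
  rfl

theorem l0_one (P : Pt (WAB A B) Ω) : act 1 P = P := by
  rw [map_one]
  rfl

theorem l0_inj {u : 𝓞 F} (hu : IsUnit u) {P : Pt (WAB A B) Ω} (h : act u P = 0) : P = 0 := by
  obtain ⟨w, hw⟩ := hu.exists_left_inv
  have h1 : act (w * u) P = P := by rw [hw, l0_one]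
  rw [l0_mul, h, map_zero] at h1
  exact h1.symm

/-- Chunk L0 (S). h.e1x, h.e1y for the unit u and S = ∅ (TN act u ∅: act u T = 0 implies T = act u⁻¹ (act u T) = 0). P = 0: both sides are 0. -/
theorem act_unit (h : CMA F A B Om j act) {u : 𝓞 F} (hu : IsUnit u) (P : Pt (WAB A B) Ω) :
    ak Ω u ^ 2 * xc (act u P) = xc P ∧ ak Ω u ^ 3 * yc (act u P) = yc P := by
  by_cases hP : P = 0
  · rw [hP, map_zero, xc_zero, yc_zero, mul_zero, mul_zero]
    exact ⟨rfl, rfl⟩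
  · have hTN : TN act u ∅ := by
      intro T
      simp only [Finset.notMem_empty, false_iff, not_and, not_not]
      exact fun h1 => l0_inj hu h1
    have hne : act u P ≠ 0 := fun h1 => hP (l0_inj hu h1)
    have h1 := h.e1x u ∅ hu.ne_zero hTN P hne
    have h2 := h.e1y u ∅ hu.ne_zero hTN P hne
    rw [Finset.sum_empty, add_zero] at h1 h2
    exact ⟨h1, h2⟩

/-- Chunk L0 (S). act (-1) P = -P. -/
theorem act_neg (a : 𝓞 F) (P : Pt (WAB A B) Ω) : act (-a) P = -act a P := by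
  rw [map_neg]
  rfl

/-- Chunk L0 (M). Let a be one of 1, t, 1 - t, 1 + t (not divisible by n0; n0 is not a unit since it does not divide t): act a T ≠ 0 and act n0 (act a T) = 0, so act a T is not in Kg (H13D.tor_unit' with b = n0, V(n0) = 1). xc (ac s T) = xc (act β T): act c T = act β T or - act β T (n0 divides c - β or c + β: hTg; xc_neg). T' = act t T: ac s T' = act t (ac s T) (h.gal) = act c (act t T), the same.
H13D.frob_gen' with u = 1: γ = β or -β (Prime β: span {β} = v; V(β) < 1; Nm β = absNorm v = p^f: the residue field, H13D or H55K: absNorm of a prime ideal is a prime power, e.g. Ideal.absNorm and FiniteField.card; p in v). Then act γ T - ac s T = act (γ - c) T is in Kg and killed by n0, so it is 0 (tor_unit'), and n0 divides γ - c (hTg). -/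
theorem loc_gen (h : CMA F A B Om j act) (hL : LD v V s Kg r) {n0 : 𝓞 F} (hn0 : n0 ∉ v.asIdeal) {T : Pt (WAB A B) Ω}
    (hT : ∀ a, act a T = 0 ↔ n0 ∣ a) {c β t : 𝓞 F} (hβ : Ideal.span {β} = v.asIdeal)
    (hc : ac (WAB A B) s T = act c T) (hcβ : n0 ∣ c - β ∨ n0 ∣ c + β) (h0 : ¬ n0 ∣ t) (h1 : ¬ n0 ∣ 1 - t) (h2 : ¬ n0 ∣ 1 + t) :
    ∃ γ : 𝓞 F, Ideal.span {γ} = v.asIdeal ∧ n0 ∣ γ - c ∧ ∀ X : Pt (WAB A B) Ω, act γ X - ac (WAB A B) s X ∈ Kg := by
  have hVn : V.valuation (ak Ω n0) = 1 := hL.eq n0 hn0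
  have key : ∀ a : 𝓞 F, ¬ n0 ∣ a → act a T ∉ Kg := by
    intro a ha hK
    have h3 : act n0 (act a T) = 0 := by
      rw [← l0_mul]
      exact (hT _).2 (dvd_mul_right _ _)
    exact ha ((hT a).1 (H13D.tor_unit' h hL.rm hVn h3 hK))
  have hone : ¬ n0 ∣ 1 := fun h3 => h0 (h3.trans (one_dvd t))
  have hβ0 : β ≠ 0 := by
    rintro rfl
    rw [Ideal.span_singleton_eq_bot.2 rfl] at hβ
    exact v.ne_bot hβ.symm
  have hβp : Prime β := (Ideal.span_singleton_prime hβ0).1 (by rw [hβ]; exact v.isPrime)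
  have hβv : β ∈ v.asIdeal := by
    rw [← hβ]
    exact Ideal.mem_span_singleton_self β
  obtain ⟨p, f, hp, hpv, -, hN⟩ := H13D.below_v v
  have hNm : Nm β = Ideal.absNorm v.asIdeal := by
    unfold Nm
    rw [hβ]
  have hpV : V.valuation (p : Ω) < 1 := by
    have h3 := hL.lt _ hpv
    unfold ak at h3
    simpa using h3
  have hx : ∀ a : 𝓞 F, xc (ac (WAB A B) s (act a T)) = xc (act β (act a T)) := by
    intro a
    have h3 : ac (WAB A B) s (act a T) = act a (act c T) := by rw [h.gal, hc]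
    rw [h3]
    rcases hcβ with h4 | h4
    · have h5 := (hT _).2 h4
      rw [l0_sub, sub_eq_zero] at h5
      rw [h5, ← l0_mul, ← l0_mul, mul_comm]
    · have h5 : act c T = -act β T := by
        have h6 := (hT _).2 h4
        have h7 : c + β = c - -β := by ring
        rw [h7, l0_sub, sub_eq_zero] at h6
        rw [h6, act_neg]
      rw [h5, map_neg, xc_neg, ← l0_mul, ← l0_mul, mul_comm]
  have e1 : T - act t T = act (1 - t) T := by rw [l0_sub, l0_one]
  have e2 : T + act t T = act (1 + t) T := by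
    have h7 : (1 : 𝓞 F) + t = 1 - -t := by ring
    rw [h7, l0_sub, l0_one, act_neg, sub_neg_eq_add]
  have hT1 : T ∉ Kg := by
    have := key 1 hone
    rwa [l0_one] at this
  have hx1 : xc (ac (WAB A B) s T) = xc (act β T) := by
    have := hx 1
    rwa [l0_one] at this
  obtain ⟨γ, hγ, hγK⟩ := H13D.frob_gen' h hL.rm hβp (hL.lt β hβv) hp (hNm.trans hN) hpV s hL.dec
    (fun x hx => by rw [hNm]; exact hL.frob x hx) (map_one s) hL.sr hT1 (key t h0)
    (by rw [e1]; exact key _ h1) (by rw [e2]; exact key _ h2) hx1 (hx t)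
  refine ⟨γ, ?_, ?_, hγK⟩
  · rcases hγ with h3 | h3
    · rw [h3, hβ]
    · rw [h3, Ideal.span_singleton_neg, hβ]
  · have h3 := hγK T
    rw [hc, ← l0_sub] at h3
    have h4 : act n0 (act (γ - c) T) = 0 := by
      rw [← l0_mul]
      exact (hT _).2 (dvd_mul_right _ _)
    exact (hT _).1 (H13D.tor_unit' h hL.rm hVn h4 h3)

theorem l0_pow {Γ : Type*} [LinearOrderedCommGroupWithZero Γ] {x : Γ} {m : ℕ} (hm : m ≠ 0) (h : x ^ m = 1) : x = 1 := by
  rcases lt_trichotomy x 1 with h1 | h1 | h1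
  · exact absurd h (pow_lt_one₀ zero_le' h1 hm).ne
  · exact h1
  · exact absurd h (one_lt_pow₀ h1 hm).ne'

/-- Chunk L0 (S/M). X^m = c, c an integer of F not in v, s X = ζ X with ζ in F, m divides N - 1: s X is congruent to X^N = X c^((N-1)/m), V(X) = 1 (V(X)^m = V(c) = 1; LinearOrderedCommGroupWithZero), so V(ζ - c^((N-1)/m)) < 1 and c^((N-1)/m) - ζ is in v (hL.eq otherwise). -/
theorem frob_root (hL : LD v V s Kg r) {m : ℕ} (hm : 0 < m) (hd : m ∣ Ideal.absNorm v.asIdeal - 1) {c ζ : 𝓞 F} (hc : c ∉ v.asIdeal)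
    {X : Ω} (hX : X ^ m = ak Ω c) (hs : s X = ak Ω ζ * X) : c ^ ((Ideal.absNorm v.asIdeal - 1) / m) - ζ ∈ v.asIdeal := by
  have hXV : V.valuation X = 1 := by
    refine l0_pow hm.ne' ?_
    rw [← map_pow, hX]
    exact hL.eq c hc
  have hX' : X ∈ V := (V.valuation_le_one_iff X).1 hXV.le
  have hN0 : Ideal.absNorm v.asIdeal ≠ 0 := by
    rw [Ne, Ideal.absNorm_eq_zero_iff]
    exact v.ne_bot
  obtain ⟨k, hk⟩ := hd
  have hk' : (Ideal.absNorm v.asIdeal - 1) / m = k := by rw [hk, Nat.mul_div_cancel_left _ hm]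
  rw [hk']
  have h1 := hL.frob X hX'
  have h2 : X ^ Ideal.absNorm v.asIdeal = X * ak Ω (c ^ k) := by
    have h3 : Ideal.absNorm v.asIdeal = 1 + m * k := by omega
    rw [h3, pow_add, pow_one, pow_mul, hX]
    unfold ak
    rw [← map_pow]
    simp
  have h3 : s X - X ^ Ideal.absNorm v.asIdeal = X * -(ak Ω (c ^ k - ζ)) := by
    rw [hs, h2]
    unfold ak
    simp
    ring
  rw [h3, map_mul, hXV, one_mul, Valuation.map_neg] at h1
  by_contra h4
  rw [hL.eq _ h4] at h1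
  exact lt_irrefl _ h1

end H55W
end

-- from Lib.H13S.PA2
section

open NumberField IsDedekindDomain

namespace H13S

open H55P H28G H55B

variable {Ω : Type} [Field Ω] [DecidableEq Ω] [Algebra F Ω] [IsAlgClosure F Ω]

theorem PA2_prim {x : O} (h : Prim x) : Prim (cj x) := by
  obtain ⟨y, hy⟩ := h
  refine ⟨cj y, ?_⟩
  have h1 := congrArg cj hy
  rw [map_sub, map_one, map_mul, map_ofNat] at h1
  exact h1

theorem PA2_prime {x : O} (h : Prime x) : Prime (cj x) := (MulEquiv.prime_iff cj).2 h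

theorem PA2_dvd {x y : O} : cj x ∣ y ↔ x ∣ cj y := by
  constructor
  · rintro ⟨z, rfl⟩
    rw [map_mul, cj_cj]
    exact Dvd.intro _ rfl
  · rintro ⟨z, hz⟩
    refine ⟨cj z, ?_⟩
    rw [← map_mul, ← hz, cj_cj]

theorem PA2_form0 (l : ℕ) [Fact l.Prime] (V : Type) [AddCommGroup V] [Module (ZMod l) V] (v : V)
    (hv : v ≠ 0) : ∃ ρ : V →+ ZMod l, ρ v ≠ 0 := by
  by_contra hcon
  push Not at hcon
  apply hv
  refine (Module.forall_dual_apply_eq_zero_iff (ZMod l) v).1 ?_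
  intro φ
  exact hcon φ.toAddMonoidHom

theorem PA2_form (l : ℕ) (hl : l.Prime) (V : Type) [AddCommGroup V] (hz : ∀ x : V, l • x = 0) (v : V)
    (hv : v ≠ 0) : ∃ ρ : V →+ ZMod l, ρ v ≠ 0 := by
  have := Fact.mk hl
  exact @PA2_form0 l _ V _ (AddCommGroup.zmodModule hz) v hv

/-- A nonzero additive form on the residue field. -/
theorem PA2_rho (π : O) (l : ℕ) (hl : l.Prime) (hπ : Prime π) (hd : π ∣ (l : O)) :
    ∃ ρ : (O ⧸ Ideal.span {π}) →+ ZMod l, ρ 1 ≠ 0 := by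
  have hz : ∀ x : O ⧸ Ideal.span {π}, l • x = 0 := by
    intro x
    rw [nsmul_eq_mul]
    have h1 : ((l : ℕ) : O ⧸ Ideal.span {π}) = Ideal.Quotient.mk _ (l : O) := (map_natCast _ _).symm
    rw [h1, Ideal.Quotient.eq_zero_iff_mem.2 (Ideal.mem_span_singleton.2 hd), zero_mul]
  have h1 : (1 : O ⧸ Ideal.span {π}) ≠ 0 := by
    intro h
    rw [← map_one (Ideal.Quotient.mk (Ideal.span {π})), Ideal.Quotient.eq_zero_iff_mem,
      Ideal.mem_span_singleton] at h
    exact hπ.not_isUnit (isUnit_of_dvd_one h)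
  exact PA2_form l hl _ hz 1 h1

/-- Chunk PA2 (M). The pairing. T₀, T₀' generators of Tor pi, Tor (cj pi) (gi_gen; cj pi is a primary prime too), zeta a primitive
l-th root of unity in Ω. k = O/pi is a field of characteristic l; rho : k -> ZMod l a nonzero additive map (exists: k is a nonzero vector space over
ZMod l, e.g. a coordinate of a basis; or rho(class of x + y om) explicitly). e X T = zeta^(rho(class of cj a' * b)) if X = act a' T₀', T = act b T₀ (well defined: a' modulo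
cj pi, so cj a' modulo pi). Bilinear, values l-th roots of unity. Nondegenerate: if rho(cj a' b) = 0 for all b then cj a' = 0 in the field k. Equivariance: ac s T₀ = act a T₀,
ac s T₀' = act b₁ T₀', s zeta = zeta^c; ac s X = act (a' b₁) T₀', ac s T = act (b a) T₀; cj(a' b₁) b a = cj a' b (cj b₁ a) = c cj a' b modulo pi (char_id), rho is additive: rho(c z) = c rho(z). -/
theorem exists_pairing (π : O) (l : ℕ) (hl : l.Prime) (h5 : 5 ≤ l) (hπ : Prime π) (h3 : Prim π)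
    (hd : π ∣ (l : O)) : ∃ e : P27 Ω → P27 Ω → Ω, Pairing π l e := by
  classical
  have := Fact.mk hl
  have : NeZero l := ⟨hl.ne_zero⟩
  have hΩ : IsAlgClosed Ω := IsAlgClosure.isAlgClosed F
  have hc0 : CharZero Ω := char0
  obtain ⟨ζ, hζ⟩ := HasEnoughRootsOfUnity.exists_primitiveRoot Ω l
  obtain ⟨_, T₀, hT₀, hgen, hz⟩ := gi_gen (Ω := Ω) π hπ h3
  obtain ⟨_, T₀', hT₀', hgen', hz'⟩ := gi_gen (Ω := Ω) (cj π) (PA2_prime hπ) (PA2_prim h3)
  obtain ⟨ρ, hρ⟩ := PA2_rho π l hl hπ hd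
  -- the character
  set Z : ZMod l → Ω := fun z => ζ ^ z.val with hZ
  have Z_nat : ∀ n : ℕ, Z (n : ZMod l) = ζ ^ n := by
    intro n
    show ζ ^ (n : ZMod l).val = ζ ^ n
    rw [ZMod.val_natCast]
    conv_rhs => rw [← Nat.mod_add_div n l, pow_add, pow_mul, hζ.pow_eq_one, one_pow, mul_one]
  have Z_add : ∀ x y : ZMod l, Z (x + y) = Z x * Z y := by
    intro x y
    have h1 : x + y = ((x.val + y.val : ℕ) : ZMod l) := by
      rw [Nat.cast_add, ZMod.natCast_zmod_val, ZMod.natCast_zmod_val]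
    rw [h1, Z_nat, pow_add]
  have Z_root : ∀ x : ZMod l, Z x ^ l = 1 := by
    intro x
    show (ζ ^ x.val) ^ l = 1
    rw [← pow_mul, mul_comm, pow_mul, hζ.pow_eq_one, one_pow]
  have Z_one : ∀ x : ZMod l, Z x = 1 → x = 0 := by
    intro x hx
    have h1 : l ∣ x.val := (hζ.pow_eq_one_iff_dvd _).1 hx
    have h2 : x.val < l := ZMod.val_lt x
    have h4 : x.val = 0 := Nat.eq_zero_of_dvd_of_lt h1 h2
    exact (ZMod.val_eq_zero x).1 h4
  have Z_cmul : ∀ (c : ℕ) (x : ZMod l), Z ((c : ZMod l) * x) = Z x ^ c := by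
    intro c x
    have h1 : (c : ZMod l) * x = ((c * x.val : ℕ) : ZMod l) := by
      rw [Nat.cast_mul, ZMod.natCast_zmod_val]
    rw [h1, Z_nat]
    show _ = (ζ ^ x.val) ^ c
    rw [← pow_mul, mul_comm]
  have hmk : ∀ x y : O, π ∣ x - y → Ideal.Quotient.mk (Ideal.span {π}) x =
      Ideal.Quotient.mk (Ideal.span {π}) y := by
    intro x y h
    rw [Ideal.Quotient.mk_eq_mk_iff_sub_mem, Ideal.mem_span_singleton]
    exact h
  have hact : ∀ a b : O, act a T₀ = act b T₀ → π ∣ a - b := by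
    intro a b h
    rw [← hz, act_sub, h, sub_self]
  have hact' : ∀ a b : O, act a T₀' = act b T₀' → π ∣ cj a - cj b := by
    intro a b h
    rw [← map_sub, ← PA2_dvd, ← hz', act_sub, h, sub_self]
  let e : P27 Ω → P27 Ω → Ω := fun X T =>
    if h : ∃ a b : O, X = act a T₀' ∧ T = act b T₀ then
      Z (ρ (Ideal.Quotient.mk (Ideal.span {π}) (cj h.choose * h.choose_spec.choose))) else 1
  have he : ∀ a b : O, e (act a T₀') (act b T₀) =
      Z (ρ (Ideal.Quotient.mk (Ideal.span {π}) (cj a * b))) := by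
    intro a b
    have h : ∃ a₁ b₁ : O, act a T₀' = act a₁ T₀' ∧ act b T₀ = act b₁ T₀ := ⟨a, b, rfl, rfl⟩
    show (if h : ∃ a₁ b₁ : O, act a T₀' = act a₁ T₀' ∧ act b T₀ = act b₁ T₀ then
      Z (ρ (Ideal.Quotient.mk (Ideal.span {π}) (cj h.choose * h.choose_spec.choose))) else 1) = _
    rw [dif_pos h]
    obtain ⟨h1, h2⟩ := h.choose_spec.choose_spec
    have h4 := hact' _ _ h1
    have h6 := hact _ _ h2
    rw [map_mul (Ideal.Quotient.mk (Ideal.span {π})), map_mul (Ideal.Quotient.mk (Ideal.span {π})),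
      ← hmk _ _ h4, ← hmk _ _ h6]
  have hT1 : T₀ ≠ 0 := by
    intro h
    have h1 := (hz 1).1 (by rw [act_one, h])
    exact hπ.not_isUnit (isUnit_of_dvd_one h1)
  have hT1' : T₀' ≠ 0 := by
    intro h
    have h1 := (hz' 1).1 (by rw [act_one, h])
    exact (PA2_prime hπ).not_isUnit (isUnit_of_dvd_one h1)
  refine ⟨e, ?_, ?_, ?_, ?_, ?_⟩
  · intro X hX X' hX' T hT
    obtain ⟨a, rfl⟩ := hgen' X hX
    obtain ⟨a', rfl⟩ := hgen' X' hX'
    obtain ⟨b, rfl⟩ := hgen T hT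
    rw [← act_add, he, he, he, ← Z_add, ← map_add, ← map_add, map_add cj, add_mul]
  · intro X hX T hT T' hT'
    obtain ⟨a, rfl⟩ := hgen' X hX
    obtain ⟨b, rfl⟩ := hgen T hT
    obtain ⟨b', rfl⟩ := hgen T' hT'
    rw [← act_add, he, he, he, ← Z_add, ← map_add, ← map_add, mul_add]
  · intro X hX T hT
    obtain ⟨a, rfl⟩ := hgen' X hX
    obtain ⟨b, rfl⟩ := hgen T hT
    rw [he]
    exact Z_root _
  · intro s X hX T hT
    obtain ⟨a', rfl⟩ := hgen' X hX
    obtain ⟨b, rfl⟩ := hgen T hT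
    obtain ⟨a, ha⟩ := hgen _ (ac_mem s hT₀)
    obtain ⟨b₁, hb₁⟩ := hgen' _ (ac_mem s hT₀')
    have hs : (s ζ) ^ l = 1 := by rw [← map_pow, hζ.pow_eq_one, map_one]
    obtain ⟨c, _, hc⟩ := hζ.eq_pow_of_pow_eq_one hs
    have h1 := char_id π l hl h5 hπ h3 hd ζ hζ s a b₁ c T₀ T₀' hT₀ hT1 hT₀' hT1' ha hb₁ hc.symm
    rw [ac_act, ac_act, ha, hb₁, ← act_mul, ← act_mul, he, he]
    have h2 : Ideal.Quotient.mk (Ideal.span {π}) (cj (a' * b₁) * (b * a)) =
        ((c : ℕ) : O ⧸ Ideal.span {π}) * Ideal.Quotient.mk (Ideal.span {π}) (cj a' * b) := by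
      have h4 : cj (a' * b₁) * (b * a) = (cj b₁ * a) * (cj a' * b) := by
        rw [map_mul]
        ring
      rw [h4, map_mul, hmk _ _ h1, map_natCast]
    rw [h2, ← nsmul_eq_mul, map_nsmul, nsmul_eq_mul, Z_cmul]
    show s (ζ ^ _) = _
    rw [map_pow, ← hc, ← pow_mul, mul_comm, pow_mul]
  · intro X hX h
    obtain ⟨a', rfl⟩ := hgen' X hX
    rw [hz', PA2_dvd]
    by_contra hcon
    have hmax : (Ideal.span {π}).IsMaximal :=
      PrincipalIdealRing.isMaximal_of_irreducible hπ.irreducible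
    let : Field (O ⧸ Ideal.span {π}) := Ideal.Quotient.field _
    have h1 : Ideal.Quotient.mk (Ideal.span {π}) (cj a') ≠ 0 := by
      rw [Ne, Ideal.Quotient.eq_zero_iff_mem, Ideal.mem_span_singleton]
      exact hcon
    obtain ⟨b, hb⟩ := Ideal.Quotient.mk_surjective (Ideal.Quotient.mk (Ideal.span {π}) (cj a'))⁻¹
    have h2 := h (act b T₀) (by
      rw [mem_Tor, ← act_mul, mul_comm, act_mul, mem_Tor.1 hT₀, map_zero])
    rw [he] at h2
    have h4 := Z_one _ h2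
    rw [map_mul, hb, mul_inv_cancel₀ h1] at h4
    exact hρ h4

end H13S
end

-- from Lib.H55K.SPA2
section

/-! # H55K, part S: port of H13S/PA2 -/

open NumberField IsDedekindDomain WeierstrassCurve

namespace H55K.S

open H55P (IQ embF eF LF Per IsHecke Pt ac Inert Dec Nm)
open H35P (WAB Ker tt)
open H13S (Abv)




variable {F : Type} [Field F] [NumberField F] [IQ F] {A B : F} {Om : ℂ} {Ω : Type} [Field Ω] [DecidableEq Ω]
  [Algebra F Ω] [IsAlgClosure F Ω] {j : Ω →+* ℂ} {act : 𝓞 F →+* AddMonoid.End (Pt (WAB A B) Ω)} {mo : Ideal (𝓞 F)}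
  {ψ : Ideal (𝓞 F) →*₀ 𝓞 F}

/-- A nonzero additive form on the residue field. -/
theorem PA2_rho (π : 𝓞 F) (l : ℕ) (hl : l.Prime) (hπ : Prime π) (hd : π ∣ (l : 𝓞 F)) :
    ∃ ρ : (𝓞 F ⧸ Ideal.span {π}) →+ ZMod l, ρ 1 ≠ 0 := by
  have hz : ∀ x : 𝓞 F ⧸ Ideal.span {π}, l • x = 0 := by
    intro x
    rw [nsmul_eq_mul]
    have h1 : ((l : ℕ) : 𝓞 F ⧸ Ideal.span {π}) = Ideal.Quotient.mk _ (l : 𝓞 F) := (map_natCast _ _).symm
    rw [h1, Ideal.Quotient.eq_zero_iff_mem.2 (Ideal.mem_span_singleton.2 hd), zero_mul]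
  have h1 : (1 : 𝓞 F ⧸ Ideal.span {π}) ≠ 0 := by
    intro h
    rw [← map_one (Ideal.Quotient.mk (Ideal.span {π})), Ideal.Quotient.eq_zero_iff_mem,
      Ideal.mem_span_singleton] at h
    exact hπ.not_isUnit (isUnit_of_dvd_one h)
  exact H13S.PA2_form l hl _ hz 1 h1

/-- Chunk PA2 (M). The pairing. T₀, T₀' generators of Tor pi, Tor (cj pi) (gi_gen; cj pi is a primary prime too), zeta a primitive
l-th root of unity in Ω. k = 𝓞 F/pi is a field of characteristic l; rho : k -> ZMod l a nonzero additive map (exists: k is a nonzero vector space over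
ZMod l, e.g. a coordinate of a basis; or rho(class of x + y om) explicitly). e X T = zeta^(rho(class of cj a' * b)) if X = act a' T₀', T = act b T₀ (well defined: a' modulo
cj pi, so cj a' modulo pi). Bilinear, values l-th roots of unity. Nondegenerate: if rho(cj a' b) = 0 for all b then cj a' = 0 in the field k. Equivariance: ac s T₀ = act a T₀,
ac s T₀' = act b₁ T₀', s zeta = zeta^c; ac s X = act (a' b₁) T₀', ac s T = act (b a) T₀; cj(a' b₁) b a = cj a' b (cj b₁ a) = c cj a' b modulo pi (char_id), rho is additive: rho(c z) = c rho(z). -/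
theorem exists_pairing (π : 𝓞 F) (l : ℕ) (dta : Dta A B Om j act mo ψ l) (hπ : Prime π)
    (hd : π ∣ (l : 𝓞 F)) : ∃ e : Pt (WAB A B) Ω → Pt (WAB A B) Ω → Ω, Pairing A B act π l e := by
  classical
  have hA := dta.cma
  have hl := dta.prime
  have := Fact.mk hl
  have : NeZero l := ⟨hl.ne_zero⟩
  have hΩ : IsAlgClosed Ω := IsAlgClosure.isAlgClosed F
  have hc0 : CharZero Ω := charZero_of_injective_algebraMap (algebraMap F Ω).injective
  obtain ⟨ζ, hζ⟩ := HasEnoughRootsOfUnity.exists_primitiveRoot Ω l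
  obtain ⟨_, T₀, hT₀, hgen, hz⟩ := gi_gen hA π hπ
  obtain ⟨_, T₀', hT₀', hgen', hz'⟩ := gi_gen hA (cj π) (cj_prime hπ)
  obtain ⟨ρ, hρ⟩ := PA2_rho π l hl hπ hd
  -- the character
  set Z : ZMod l → Ω := fun z => ζ ^ z.val with hZ
  have Z_nat : ∀ n : ℕ, Z (n : ZMod l) = ζ ^ n := by
    intro n
    show ζ ^ (n : ZMod l).val = ζ ^ n
    rw [ZMod.val_natCast]
    conv_rhs => rw [← Nat.mod_add_div n l, pow_add, pow_mul, hζ.pow_eq_one, one_pow, mul_one]
  have Z_add : ∀ x y : ZMod l, Z (x + y) = Z x * Z y := by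
    intro x y
    have h1 : x + y = ((x.val + y.val : ℕ) : ZMod l) := by
      rw [Nat.cast_add, ZMod.natCast_zmod_val, ZMod.natCast_zmod_val]
    rw [h1, Z_nat, pow_add]
  have Z_root : ∀ x : ZMod l, Z x ^ l = 1 := by
    intro x
    show (ζ ^ x.val) ^ l = 1
    rw [← pow_mul, mul_comm, pow_mul, hζ.pow_eq_one, one_pow]
  have Z_one : ∀ x : ZMod l, Z x = 1 → x = 0 := by
    intro x hx
    have h1 : l ∣ x.val := (hζ.pow_eq_one_iff_dvd _).1 hx
    have h2 : x.val < l := ZMod.val_lt x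
    have h4 : x.val = 0 := Nat.eq_zero_of_dvd_of_lt h1 h2
    exact (ZMod.val_eq_zero x).1 h4
  have Z_cmul : ∀ (c : ℕ) (x : ZMod l), Z ((c : ZMod l) * x) = Z x ^ c := by
    intro c x
    have h1 : (c : ZMod l) * x = ((c * x.val : ℕ) : ZMod l) := by
      rw [Nat.cast_mul, ZMod.natCast_zmod_val]
    rw [h1, Z_nat]
    show _ = (ζ ^ x.val) ^ c
    rw [← pow_mul, mul_comm]
  have hmk : ∀ x y : 𝓞 F, π ∣ x - y → Ideal.Quotient.mk (Ideal.span {π}) x =
      Ideal.Quotient.mk (Ideal.span {π}) y := by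
    intro x y h
    rw [Ideal.Quotient.mk_eq_mk_iff_sub_mem, Ideal.mem_span_singleton]
    exact h
  have hact : ∀ a b : 𝓞 F, act a T₀ = act b T₀ → π ∣ a - b := by
    intro a b h
    rw [← hz, act_sub, h, sub_self]
  have hact' : ∀ a b : 𝓞 F, act a T₀' = act b T₀' → π ∣ cj a - cj b := by
    intro a b h
    rw [← map_sub, ← cj_dvd, ← hz', act_sub, h, sub_self]
  let e : Pt (WAB A B) Ω → Pt (WAB A B) Ω → Ω := fun X T =>
    if h : ∃ a b : 𝓞 F, X = act a T₀' ∧ T = act b T₀ then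
      Z (ρ (Ideal.Quotient.mk (Ideal.span {π}) (cj h.choose * h.choose_spec.choose))) else 1
  have he : ∀ a b : 𝓞 F, e (act a T₀') (act b T₀) =
      Z (ρ (Ideal.Quotient.mk (Ideal.span {π}) (cj a * b))) := by
    intro a b
    have h : ∃ a₁ b₁ : 𝓞 F, act a T₀' = act a₁ T₀' ∧ act b T₀ = act b₁ T₀ := ⟨a, b, rfl, rfl⟩
    show (if h : ∃ a₁ b₁ : 𝓞 F, act a T₀' = act a₁ T₀' ∧ act b T₀ = act b₁ T₀ then
      Z (ρ (Ideal.Quotient.mk (Ideal.span {π}) (cj h.choose * h.choose_spec.choose))) else 1) = _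
    rw [dif_pos h]
    obtain ⟨h1, h2⟩ := h.choose_spec.choose_spec
    have h4 := hact' _ _ h1
    have h6 := hact _ _ h2
    rw [map_mul (Ideal.Quotient.mk (Ideal.span {π})), map_mul (Ideal.Quotient.mk (Ideal.span {π})),
      ← hmk _ _ h4, ← hmk _ _ h6]
  have hT1 : T₀ ≠ 0 := by
    intro h
    have h1 := (hz 1).1 (by rw [act_one, h])
    exact hπ.not_isUnit (isUnit_of_dvd_one h1)
  have hT1' : T₀' ≠ 0 := by
    intro h
    have h1 := (hz' 1).1 (by rw [act_one, h])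
    exact (cj_prime hπ).not_isUnit (isUnit_of_dvd_one h1)
  refine ⟨e, ?_, ?_, ?_, ?_, ?_⟩
  · intro X hX X' hX' T hT
    obtain ⟨a, rfl⟩ := hgen' X hX
    obtain ⟨a', rfl⟩ := hgen' X' hX'
    obtain ⟨b, rfl⟩ := hgen T hT
    rw [← act_add, he, he, he, ← Z_add, ← map_add, ← map_add, map_add cj, add_mul]
  · intro X hX T hT T' hT'
    obtain ⟨a, rfl⟩ := hgen' X hX
    obtain ⟨b, rfl⟩ := hgen T hT
    obtain ⟨b', rfl⟩ := hgen T' hT'
    rw [← act_add, he, he, he, ← Z_add, ← map_add, ← map_add, mul_add]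
  · intro X hX T hT
    obtain ⟨a, rfl⟩ := hgen' X hX
    obtain ⟨b, rfl⟩ := hgen T hT
    rw [he]
    exact Z_root _
  · intro s X hX T hT
    obtain ⟨a', rfl⟩ := hgen' X hX
    obtain ⟨b, rfl⟩ := hgen T hT
    obtain ⟨a, ha⟩ := hgen _ (ac_mem hA s hT₀)
    obtain ⟨b₁, hb₁⟩ := hgen' _ (ac_mem hA s hT₀')
    have hs : (s ζ) ^ l = 1 := by rw [← map_pow, hζ.pow_eq_one, map_one]
    obtain ⟨c, _, hc⟩ := hζ.eq_pow_of_pow_eq_one hs
    have h1 := char_id π l dta hπ hd ζ hζ s a b₁ c T₀ T₀' hT₀ hT1 hT₀' hT1' ha hb₁ hc.symm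
    rw [ac_act hA, ac_act hA, ha, hb₁, ← act_mul, ← act_mul, he, he]
    have h2 : Ideal.Quotient.mk (Ideal.span {π}) (cj (a' * b₁) * (b * a)) =
        ((c : ℕ) : 𝓞 F ⧸ Ideal.span {π}) * Ideal.Quotient.mk (Ideal.span {π}) (cj a' * b) := by
      have h4 : cj (a' * b₁) * (b * a) = (cj b₁ * a) * (cj a' * b) := by
        rw [map_mul]
        ring
      rw [h4, map_mul, hmk _ _ h1, map_natCast]
    rw [h2, ← nsmul_eq_mul, map_nsmul, nsmul_eq_mul, Z_cmul]
    show s (ζ ^ _) = _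
    rw [map_pow, ← hc, ← pow_mul, mul_comm, pow_mul]
  · intro X hX h
    obtain ⟨a', rfl⟩ := hgen' X hX
    rw [hz', cj_dvd]
    by_contra hcon
    have hmax : (Ideal.span {π}).IsMaximal :=
      PrincipalIdealRing.isMaximal_of_irreducible hπ.irreducible
    let : Field (𝓞 F ⧸ Ideal.span {π}) := Ideal.Quotient.field _
    have h1 : Ideal.Quotient.mk (Ideal.span {π}) (cj a') ≠ 0 := by
      rw [Ne, Ideal.Quotient.eq_zero_iff_mem, Ideal.mem_span_singleton]
      exact hcon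
    obtain ⟨b, hb⟩ := Ideal.Quotient.mk_surjective (Ideal.Quotient.mk (Ideal.span {π}) (cj a'))⁻¹
    have h2 := h (act b T₀) (by
      rw [mem_Tor, ← act_mul, mul_comm, act_mul, mem_Tor.1 hT₀, map_zero])
    rw [he] at h2
    have h4 := Z_one _ h2
    rw [map_mul, hb, mul_inv_cancel₀ h1] at h4
    exact hρ h4

end H55K.S
end

-- from Lib.H55K.SLV
section

/-! # H55K, part S: the level at the primes above π -/

open NumberField IsDedekindDomain WeierstrassCurve

namespace H55K.S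

open H55P (IQ embF eF LF Per IsHecke Pt ac Inert Dec Nm)
open H35P (WAB Ker tt)
open H13S (Abv)

variable {F : Type} [Field F] [NumberField F] [IQ F] {A B : F} {Om : ℂ} {Ω : Type} [Field Ω] [DecidableEq Ω]
  [Algebra F Ω] [IsAlgClosure F Ω] {j : Ω →+* ℂ} {act : 𝓞 F →+* AddMonoid.End (Pt (WAB A B) Ω)} {mo : Ideal (𝓞 F)}
  {ψ : Ideal (𝓞 F) →*₀ 𝓞 F}

omit [IsAlgClosure F Ω] [DecidableEq Ω] in
theorem val_l {π : 𝓞 F} {l : ℕ} (hd : π ∣ (l : 𝓞 F)) (hle : ∀ (V : ValuationSubring Ω) (x : 𝓞 F), vo V x ≤ 1)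
    (V : ValuationSubring Ω) (hV : vo V π < 1) : V.valuation (l : Ω) < 1 := by
  obtain ⟨u, hu⟩ := hd
  rw [← vo_nat (F := F), hu, vo_mul]
  exact lt_of_le_of_lt (mul_le_of_le_one_right' (hle V u)) hV

/-- The level at the primes above π. -/
theorem level {π : 𝓞 F} {l : ℕ} {c : (Ω ≃ₐ[F] Ω) → Pt (WAB A B) Ω} (C : Cl A B Om j act mo ψ π l c)
    {e : Pt (WAB A B) Ω → Pt (WAB A B) Ω → Ω} (he : Pairing A B act π l e) {L : IntermediateField F Ω}
    (hL : IsTF act π L) [NumberField L] (V : ValuationSubring Ω) (hV : vo V π < 1) (w : HeightOneSpectrum (𝓞 L))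
    (hw : Abv L V w) (T : Pt (WAB A B) Ω) (hT : T ∈ Tor act π) (m : L) (hm : m ≠ 0) (y : Ω)
    (hyk : Kum L e c T y) (hy : y ^ l = (m : Ω)) :
    ∃ z : L, z ≠ 0 ∧ w.valuation L (m / z ^ l - 1) ≤ WithZero.exp (-2 : ℤ) := by
  have hVl := val_l C.dvd vo_le V hV
  have hG := C.dta.good V hVl
  rcases dichotomy C.hl C.dta.unr C.pr C.dvd with ⟨h1, h2, h3⟩ | ⟨h1, -, -, -⟩
  · exact level_inert C h3 (tor_assoc h1) h2 he hL V hG hV w hw T hT m hm y hyk hy
  · have hcj : vo V (cj π) = 1 := vo_unit ((C.pr.irreducible.coprime_iff_not_dvd).2 h1) hV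
    refine H13S.level_unr L V w hw l C.hl hVl m hm y hy ?_
    intro s hs hi
    rw [hyk.2 s hs, c_inert_zero C V hG hcj s hi, ld3_e0 C.hl.ne_zero he hT, one_mul]

end H55K.S
end

-- from Lib.H55K.A.D5
section

/-!
Chunk D5 (M/L). The choice of the auxiliary prime (assembly of D1, D2, D3, H55R.density_split, H55R.density_ker).
-/

open NumberField IsDedekindDomain

namespace H55K.Ab

open H55R

variable {F : Type} [Field F] [NumberField F]

/-- Primes outside four sets of small density. -/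
theorem d5_out {K : Type} [Field K] [NumberField K] (A S N R : Set (Pl K)) (hR : R.Finite)
    (l : ℕ) (hl : 3 ≤ l) (C₁ C₂ C₃ : ℝ)
    (hA : ∀ s ∈ Set.Ioc (1 : ℝ) 2, PS A s ≤ (1 / l : ℝ) * Real.log (1 / (s - 1)) + C₁)
    (hS : ∀ s ∈ Set.Ioc (1 : ℝ) 2, PS S s ≤ (1 / l : ℝ) * Real.log (1 / (s - 1)) + C₂)
    (hN : ∀ s ∈ Set.Ioc (1 : ℝ) 2, PS N s ≤ C₃) :
    ∃ v : Pl K, v ∉ A ∧ v ∉ S ∧ v ∉ N ∧ v ∉ R := by
  by_contra hcon
  push Not at hcon
  obtain ⟨C₀, hC₀⟩ := density_A K K ⊤ inferInstance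
  have hU : {v : Pl K | SplA (⊤ : Subgroup Gal(K/K)) v} ⊆ A ∪ (S ∪ (N ∪ R)) := by
    intro v _
    by_cases h1 : v ∈ A
    · exact Or.inl h1
    by_cases h2 : v ∈ S
    · exact Or.inr (Or.inl h2)
    by_cases h3 : v ∈ N
    · exact Or.inr (Or.inr (Or.inl h3))
    exact Or.inr (Or.inr (Or.inr (hcon v h1 h2 h3)))
  have hidx : ((⊤ : Subgroup Gal(K/K)).index : ℝ) = 1 := by
    rw [Subgroup.index_top, Nat.cast_one]
  have key : ∀ s ∈ Set.Ioc (1 : ℝ) 2, 1 * Real.log (1 / (s - 1)) ≤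
      (2 / l : ℝ) * Real.log (1 / (s - 1)) + (C₁ + C₂ + C₃ + hR.toFinset.card + C₀) := by
    intro s hs
    have h1 := X10_mono hU s hs.1
    have h2 := X10_union A (S ∪ (N ∪ R)) s hs.1
    have h3 := X10_union S (N ∪ R) s hs.1
    have h4 := X10_union N R s hs.1
    have n2 := X10_nonneg (A ∩ (S ∪ (N ∪ R))) s
    have n3 := X10_nonneg (S ∩ (N ∪ R)) s
    have n4 := X10_nonneg (N ∩ R) s
    have h5 := X10_fin hR s hs.1
    have h6 := hC₀ s hs
    rw [hidx, abs_le] at h6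
    have h7 := hA s hs
    have h8 := hS s hs
    have h9 := hN s hs
    have h10 : (2 / l : ℝ) * Real.log (1 / (s - 1)) = (1 / l : ℝ) * Real.log (1 / (s - 1)) +
        (1 / l : ℝ) * Real.log (1 / (s - 1)) := by ring
    rw [h10]
    linarith [h6.1]
  have h1 := X10_lim key
  have h2 : (3 : ℝ) ≤ l := by exact_mod_cast hl
  have h3 : (0 : ℝ) < l := by linarith
  rw [le_div_iff₀ h3] at h1
  linarith

theorem d5_order {K : Type} [Field K] [NumberField K] {l : ℕ} [Fact l.Prime] (ζ : K)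
    (hζ : IsPrimitiveRoot ζ l) (W : Pl K) (hl : (l : 𝓞 K) ∉ W.asIdeal) :
    l ∣ Ideal.absNorm W.asIdeal - 1 := by
  classical
  have hlp : l.Prime := Fact.out
  have hmax := W.isMaximal
  have hint : IsIntegral ℤ ζ := hζ.isIntegral hlp.pos
  obtain ⟨z, hz⟩ : ∃ z : 𝓞 K, (z : K) = ζ := ⟨⟨ζ, hint⟩, rfl⟩
  have hz1 : z ^ l = 1 := by
    apply RingOfIntegers.coe_injective
    rw [map_pow, map_one]
    show (z : K) ^ l = 1
    rw [hz]
    exact hζ.pow_eq_one
  have hzne : z ≠ 1 := by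
    intro h
    have h1 : ζ = 1 := by
      rw [← hz, h]
      exact map_one (algebraMap (𝓞 K) K)
    exact hζ.ne_one hlp.one_lt h1
  have hsum : ∑ i ∈ Finset.range l, z ^ i = 0 := by
    have h := mul_geom_sum z l
    rw [hz1, sub_self] at h
    rcases mul_eq_zero.1 h with h1 | h1
    · exact absurd (sub_eq_zero.1 h1) hzne
    · exact h1
  letI : Field (𝓞 K ⧸ W.asIdeal) := Ideal.Quotient.field W.asIdeal
  have hfin : Finite (𝓞 K ⧸ W.asIdeal) := Ideal.finiteQuotientOfFreeOfNeBot _ W.ne_bot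
  obtain ⟨y, hy⟩ : ∃ y : 𝓞 K ⧸ W.asIdeal, y = Ideal.Quotient.mk W.asIdeal z := ⟨_, rfl⟩
  have hy1 : y ^ l = 1 := by
    rw [hy, ← map_pow, hz1, map_one]
  have hyne : y ≠ 1 := by
    intro h
    have h1 := congrArg (Ideal.Quotient.mk W.asIdeal) hsum
    rw [map_sum, map_zero] at h1
    simp only [map_pow] at h1
    rw [← hy, h] at h1
    simp only [one_pow, Finset.sum_const, Finset.card_range, nsmul_eq_mul, mul_one] at h1
    apply hl
    rw [← Ideal.Quotient.eq_zero_iff_mem, map_natCast]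
    exact h1
  have hy0 : y ≠ 0 := by
    rintro rfl
    rw [zero_pow hlp.ne_zero] at hy1
    exact zero_ne_one hy1
  have hord : orderOf (Units.mk0 y hy0) = l := by
    apply orderOf_eq_prime
    · ext
      rw [Units.val_pow_eq_pow_val, Units.val_mk0, hy1, Units.val_one]
    · intro h
      apply hyne
      have := congrArg Units.val h
      rwa [Units.val_mk0, Units.val_one] at this
  have h1 := orderOf_dvd_natCard (Units.mk0 y hy0)
  rw [hord, Nat.card_units] at h1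
  exact h1

theorem d5_powmod {L L' : Type} [Field L] [NumberField L] [Field L'] [NumberField L']
    [Algebra L L'] {l : ℕ} (W : Pl L') (η : Lˣ) (h : PowMod l (W.under (𝓞 L)) η) :
    PowMod l W (Units.map (algebraMap L L' : L →* L') η) := by
  obtain ⟨z, hz⟩ := h
  refine ⟨Units.map (algebraMap L L' : L →* L') z, ?_⟩
  have hl : W.asIdeal.LiesOver (W.under (𝓞 L)).asIdeal := ⟨rfl⟩
  have h1 := HeightOneSpectrum.valuation_liesOver L' (W.under (𝓞 L)) W
    (((η * (z ^ l)⁻¹ : Lˣ) : L) - 1)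
  have h2 : algebraMap L L' (((η * (z ^ l)⁻¹ : Lˣ) : L) - 1) =
      (((Units.map (algebraMap L L' : L →* L') η *
        ((Units.map (algebraMap L L' : L →* L') z) ^ l)⁻¹ : L'ˣ) : L') - 1) := by
    rw [map_sub, map_one, ← map_pow, ← map_inv, ← map_mul]
    rfl
  rw [h2] at h1
  rw [← h1]
  exact pow_lt_one₀ (zero_le) hz (Ideal.IsDedekindDomain.ramificationIdx'_ne_zero_of_liesOver W.asIdeal
    (W.under (𝓞 L)).ne_bot)

theorem d5_above {K L : Type} [Field K] [NumberField K] [Field L] [NumberField L] [Algebra K L]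
    [IsGalois K L] {S : Set (Pl K)} (hS : S.Finite) : {W : Pl L | W.under (𝓞 K) ∈ S}.Finite := by
  have h1 : {W : Pl L | W.under (𝓞 K) ∈ S} = ⋃ v ∈ S, {W : Pl L | W.under (𝓞 K) = v} := by
    ext W
    simp only [Set.mem_ofPred_eq, Set.mem_iUnion, exists_prop, exists_eq_right']
  rw [h1]
  exact hS.biUnion fun v _ => above_finite v

theorem select {L : Type} [Field L] [NumberField L] [Algebra F L] [IsGalois F L] {l : ℕ}
    [Fact l.Prime] (h5 : 5 ≤ l) {k : Type} [Field k] [CharP k l] {χ : Gal(L/F) →* kˣ}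
    (ρ : k →+ ZMod l) (hρ : ρ ≠ 0) {θ : Pl L → k} (hθ : IsTh χ θ) (h0 : ∃ v, θ v ≠ 0) (η : Lˣ)
    (hη : ¬ ∃ z : Lˣ, η = z ^ l) (bad : Set (Pl L)) (hbad : bad.Finite) :
    ∃ Q : Pl L, Q ∉ bad ∧ (Ideal.absNorm Q.asIdeal).Prime ∧ l ∣ Ideal.absNorm Q.asIdeal - 1 ∧
      es F L (Q.under (𝓞 F)) = 1 ∧ θ Q ≠ 0 ∧ ¬ PowMod l Q η := by
  classical
  have hlp : l.Prime := Fact.out
  obtain ⟨L', i1, i2, i3, i4, i5, ζ, hζ, hc⟩ := exists_cyc L l h5
  obtain ⟨x, hxdef⟩ : ∃ x : L'ˣ, x = Units.map (algebraMap L L' : L →* L') η := ⟨_, rfl⟩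
  have hx : ¬ ∃ z : L'ˣ, x = z ^ l := by
    intro h
    rw [hxdef] at h
    exact hη (not_pow hc η h)
  obtain ⟨M, j1, j2, j3, j4, β, hM, hβ, hgen⟩ := kummer ζ hζ x hx
  obtain ⟨f, hfdef⟩ : ∃ f : Ideal (𝓞 L'), f = Ideal.span {(l : 𝓞 L')} := ⟨_, rfl⟩
  have hf : f ≠ ⊥ := by
    rw [hfdef, Ne, Ideal.span_singleton_eq_bot]
    exact Nat.cast_ne_zero.2 hlp.ne_zero
  have hf' : f ≠ ⊤ := by
    rw [hfdef]
    intro h
    have h2 : Ideal.absNorm (Ideal.span {(l : 𝓞 L')}) = 1 := by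
      rw [h]
      exact Ideal.absNorm_top
    rw [Ideal.absNorm_span_singleton] at h2
    have h3 : (Algebra.norm ℤ (l : 𝓞 L')) = (l : ℤ) ^ Module.finrank ℤ (𝓞 L') := by
      have := Algebra.norm_algebraMap (S := 𝓞 L') (l : ℤ)
      rw [map_natCast] at this
      exact this
    rw [h3, Int.natAbs_pow, Int.natAbs_natCast] at h2
    have h4 : 0 < Module.finrank ℤ (𝓞 L') := Module.finrank_pos
    have h6 := Nat.one_lt_pow h4.ne' hlp.one_lt
    omega
  obtain ⟨φ, hφ, hφ1, hφl, hφθ⟩ := theta_char hc ρ hρ hθ h0 f hf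
  have hord : orderOf φ = l := orderOf_eq_prime hφl hφ1
  have hcard : Nat.card (Subgroup.zpowers φ) = l := by
    rw [Nat.card_zpowers, hord]
  have hYfin : Finite (Subgroup.zpowers φ) := Nat.finite_of_card_ne_zero (by
    rw [hcard]
    exact hlp.ne_zero)
  have hY : Subgroup.zpowers φ ≤ RC f := by
    rw [Subgroup.zpowers_le]
    exact hφ
  obtain ⟨C₁, hC₁⟩ := density_ker f hf hf' (Subgroup.zpowers φ) hY
  obtain ⟨C₂, hC₂⟩ := density_split L' M
  obtain ⟨C₃, hC₃⟩ := deg_bound L'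
  rw [hcard] at hC₁
  rw [hM] at hC₂
  -- the finite set
  obtain ⟨bad', hbad'def⟩ : ∃ bad' : Set (Pl L), bad' = bad ∪
    {v : Pl L | v.under (𝓞 F) ∈ {u : Pl F | es F L u ≠ 1}} := ⟨_, rfl⟩
  have hbad' : bad'.Finite := by
    rw [hbad'def]
    exact hbad.union (d5_above (ram_fin F L))
  have hR : ({W : Pl L' | f ≤ W.asIdeal} ∪ {W : Pl L' | W.under (𝓞 L) ∈ bad'}).Finite :=
    (X10_bad hf).union (d5_above hbad')
  obtain ⟨W, hWA, hWS, hWN, hWR⟩ := d5_out
    {v : Pl L' | ¬ f ≤ v.asIdeal ∧ ∀ ψ ∈ Subgroup.zpowers φ, ψ v = 1} {v : Pl L' | Spl L' M v}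
    {v : Pl L' | ¬ (Ideal.absNorm v.asIdeal).Prime} _ hR l (by omega) C₁ C₂ C₃ hC₁
    (fun s hs => by
      have := (abs_le.1 (hC₂ s hs)).2
      linarith) hC₃
  have hfW : ¬ f ≤ W.asIdeal := fun h => hWR (Or.inl h)
  have hlW : (l : 𝓞 L') ∉ W.asIdeal := by
    intro h
    apply hfW
    rw [hfdef, Ideal.span_singleton_le_iff_mem]
    exact h
  have hWb : W.under (𝓞 L) ∉ bad' := fun h => hWR (Or.inr h)
  have hWp : (Ideal.absNorm W.asIdeal).Prime := by
    by_contra h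
    exact hWN h
  have hnorm := D5_norm (W.under (𝓞 L)) W rfl
  have hQp : (Ideal.absNorm (W.under (𝓞 L)).asIdeal).Prime ∧
      Ideal.absNorm W.asIdeal = Ideal.absNorm (W.under (𝓞 L)).asIdeal := by
    rw [hnorm] at hWp
    have h1 : fs L L' (W.under (𝓞 L)) = 1 := hWp.eq_one_of_pow
    rw [h1, pow_one] at hWp
    rw [h1, pow_one] at hnorm
    exact ⟨hWp, hnorm⟩
  refine ⟨W.under (𝓞 L), ?_, hQp.1, ?_, ?_, ?_, ?_⟩
  · intro h
    apply hWb
    rw [hbad'def]
    exact Or.inl h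
  · rw [← hQp.2]
    exact d5_order ζ hζ W hlW
  · by_contra h
    apply hWb
    rw [hbad'def]
    exact Or.inr h
  · intro h
    apply hWA
    refine ⟨hfW, fun ψ hψ => ?_⟩
    obtain ⟨n, rfl⟩ := Subgroup.mem_zpowers_iff.1 hψ
    rw [Pi.pow_apply, hφθ W h, one_zpow]
  · intro h
    apply hWS
    have h1 := d5_powmod W η h
    rw [← hxdef] at h1
    exact kummer_spl ζ hζ x β hβ hgen W hlW h1

end H55K.Ab
end

-- from Lib.H55K.A.Main
section

/-!
# H99B: the abstract theorem (assembly)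
-/

open NumberField IsDedekindDomain

namespace H55K.Ab

open H55R

variable {F : Type} [Field F] [NumberField F]

theorem rho_ne {l : ℕ} [Fact l.Prime] {k : Type} [Field k] [Fintype k] [DecidableEq k]
    {ρ : k →+ ZMod l} (hρ : IsRho l ρ) : ρ ≠ 0 := by
  rintro rfl
  have h := hρ.sum 1
  simp at h

/-- No equivariant homomorphism of the class group. -/
theorem no_theta {L : Type} [Field L] [NumberField L] [Algebra F L] [IsGalois F L] {l : ℕ}
    [Fact l.Prime] (h5 : 5 ≤ l) {k : Type} [Field k] [Fintype k] [DecidableEq k] [CharP k l]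
    {χ : Gal(L/F) →* kˣ} (hχ : Function.Bijective χ) (ρ : k →+ ZMod l) (hρ : IsRho l ρ)
    (w : Pl L) (ξ : Lˣ) (hlev : ¬ Lev l w (eta χ ρ 1 ξ))
    (bad : Set (Pl L)) (hbad : bad.Finite)
    (haux : ∀ Q : Pl L, Q ∉ bad → (Ideal.absNorm Q.asIdeal).Prime →
      l ∣ Ideal.absNorm Q.asIdeal - 1 → es F L (Q.under (𝓞 F)) = 1 →
      ∃ (B : Type) (_ : Field B) (_ : NumberField B) (_ : Algebra L B) (κ : Gal(B/L) → ℤ)
        (t al : Bˣ), Aux F L Q ξ B κ t al)
    (θ : Pl L → k) (hθ : IsTh χ θ) (v : Pl L) : θ v = 0 := by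
  by_contra hv
  have hη : ¬ ∃ z : Lˣ, eta χ ρ 1 ξ = z ^ l := by
    rintro ⟨z, hz⟩
    exact hlev (hz ▸ lev_pow z)
  obtain ⟨Q, hQ1, hQ2, hQ3, hQ4, hQ5, hQ6⟩ := select h5 ρ (rho_ne hρ) hθ ⟨v, hv⟩ (eta χ ρ 1 ξ) hη
    bad hbad
  obtain ⟨B, i1, i2, i3, κ, t, al, ha⟩ := haux Q hQ1 hQ2 hQ3 hQ4
  exact hQ6 (thaine hχ ρ Q hQ3 (stab_triv Q hQ2 hQ4) ξ ha hθ hQ5 1)

/-- THE ABSTRACT THEOREM. -/
theorem main_abs [H55P.IQ F] {L : Type} [Field L] [NumberField L] [Algebra F L] [IsGalois F L] {l : ℕ}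
    [Fact l.Prime] (h5 : 5 ≤ l) {k : Type} [Field k] [Fintype k] [DecidableEq k] [CharP k l]
    {χ : Gal(L/F) →* kˣ} (hχ : Function.Bijective χ) (ρ : k →+ ZMod l) (hρ : IsRho l ρ)
    (hcyc : ∀ ζ : Lˣ, IsPrimitiveRoot ζ l →
      ¬ ∀ (σ : Gal(L/F)) (n : ℕ), (n : k) = χ σ → gu σ ζ = ζ ^ n)
    (w : Pl L) (ξ : Lˣ) (hξ : ∀ v : Pl L, ord v ξ = 0)
    (hlev : ∀ a : k, a ≠ 0 → ¬ Lev l w (eta χ ρ a ξ))
    (bad : Set (Pl L)) (hbad : bad.Finite)
    (haux : ∀ Q : Pl L, Q ∉ bad → (Ideal.absNorm Q.asIdeal).Prime →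
      l ∣ Ideal.absNorm Q.asIdeal - 1 → es F L (Q.under (𝓞 F)) = 1 →
      ∃ (B : Type) (_ : Field B) (_ : NumberField B) (_ : Algebra L B) (κ : Gal(B/L) → ℤ)
        (t al : Bˣ), Aux F L Q ξ B κ t al)
    {m : k → Lˣ} (hm : EqHom l χ m) (hd : ∀ (a : k) (v : Pl L), (l : ℤ) ∣ ord v (m a))
    (hL : ∀ a, Lev l w (m a)) (a : k) : ∃ z : Lˣ, m a = z ^ l := by
  rcases class_step hχ ρ hρ hm hd with ⟨θ, hθ, v, hv⟩ | ⟨m', hm', hu, hmm⟩
  · exact absurd (no_theta h5 hχ ρ hρ w ξ (hlev 1 one_ne_zero) bad hbad haux θ hθ v) hv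
  · obtain ⟨z, hz⟩ := unit_step hχ ρ hρ hcyc w ξ hξ hlev hm' hu (fun b => by
      obtain ⟨y, hy⟩ := hmm b
      have h1 : m' b = m b * (y ^ l)⁻¹ := by rw [hy, mul_inv_cancel_right]
      rw [h1]
      exact lev_mul (hL b) (lev_inv (lev_pow y))) a
    obtain ⟨y, hy⟩ := hmm a
    exact ⟨z * y, by rw [hy, hz, mul_pow]⟩

end H55K.Ab
end

-- from Lib.H55K.K6A
section

open NumberField IsDedekindDomain WeierstrassCurve

namespace H55K

open H55P (IQ embF eF LF Per IsHecke Pt ac Inert Dec Nm)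
open H35P (WAB Ker tt)
open H55R (Pl ord es fs smulP)

/-! Chunk K6A (M). exists_okv: S is the union of the finite sets of XiD.fin, Dta.frob, of the primes dividing l or m (finitely many primes contain a nonzero element / ideal: H55R.X10_bad in H55R/X10.lean; v and m not coprime iff m ≤ v.asIdeal since v is maximal; IsHecke.ne: m ≠ ⊥),
and of S' = {v | (absNorm v : 𝓞 F) ∈ v'.asIdeal for some v' in S1}, S1 the finite set of Dta.fin. S' is finite: for v' in S1 let p be the prime number in v' (v'.asIdeal.under ℤ; or absNorm v' ∈ v'): if v has prime norm q and q ∈ v' then q = p (two different prime numbers in v' give 1 ∈ v'), so q = p ∈ v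
(Ideal.absNorm_mem), and finitely many v contain p ≠ 0. (Only v of prime norm matter; intersect S' with them.)
gv: let V(q) < 1, q = absNorm v prime. The set v' = {a in 𝓞 F | V(ak a) < 1} is a prime ideal (ak_le), contains q, so not zero: a prime v' of F with q ∈ v', so v' ∉ S1, Dta.fin gives GV A B V. -/

variable {F : Type} [Field F] [NumberField F] [IQ F] {A B : F} {Om : ℂ} {Ω : Type} [Field Ω] [DecidableEq Ω]
  [Algebra F Ω] {j : Ω →+* ℂ} {act : 𝓞 F →+* AddMonoid.End (Pt (WAB A B) Ω)}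

/-- The primes of prime norm whose norm is in v'. -/
def k6a_set (v' : Pl F) : Set (Pl F) :=
  {v | (Ideal.absNorm v.asIdeal).Prime ∧ ((Ideal.absNorm v.asIdeal : ℕ) : 𝓞 F) ∈ v'.asIdeal}

omit [IQ F] in
theorem k6a_fin (v' : Pl F) : (k6a_set v').Finite := by
  by_cases hne : (k6a_set v').Nonempty
  · obtain ⟨v0, hp0, hm0⟩ := hne
    have hne0 : Ideal.span {((Ideal.absNorm v0.asIdeal : ℕ) : 𝓞 F)} ≠ ⊥ := by
      rw [Ne, Ideal.span_singleton_eq_bot]
      exact_mod_cast hp0.ne_zero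
    refine (H55R.X10_bad hne0).subset fun v hv => ?_
    obtain ⟨hp, hm⟩ := hv
    have heq : Ideal.absNorm v.asIdeal = Ideal.absNorm v0.asIdeal := by
      by_contra hc
      have hcop : Nat.Coprime (Ideal.absNorm v.asIdeal) (Ideal.absNorm v0.asIdeal) :=
        (Nat.coprime_primes hp hp0).2 hc
      have h1 := Nat.isCoprime_iff_coprime.2 hcop
      obtain ⟨a, b, hab⟩ := h1
      have h2 := congrArg (fun t : ℤ => (t : 𝓞 F)) hab
      push_cast at h2
      have h3 : (1 : 𝓞 F) ∈ v'.asIdeal := by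
        rw [← h2]
        exact v'.asIdeal.add_mem (v'.asIdeal.mul_mem_left _ hm) (v'.asIdeal.mul_mem_left _ hm0)
      exact v'.isPrime.ne_top ((Ideal.eq_top_iff_one _).2 h3)
    show Ideal.span {((Ideal.absNorm v0.asIdeal : ℕ) : 𝓞 F)} ≤ v.asIdeal
    rw [Ideal.span_singleton_le_iff_mem, ← heq]
    exact Ideal.absNorm_mem v.asIdeal
  · rw [Set.not_nonempty_iff_eq_empty] at hne
    rw [hne]
    exact Set.finite_empty

omit [NumberField F] [IQ F] [DecidableEq Ω] in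
theorem k6a_cast (n : ℕ) : ak Ω (n : 𝓞 F) = (n : Ω) := by
  have e : ((n : 𝓞 F) : F) = (n : F) := by push_cast; rfl
  unfold ak
  rw [e, map_natCast]

omit [IQ F] [DecidableEq Ω] in
theorem k6a_below (V : ValuationSubring Ω) (q : ℕ) (hq : q.Prime) (hV : V.valuation (q : Ω) < 1) :
    ∃ v' : Pl F, ∀ a : 𝓞 F, a ∈ v'.asIdeal ↔ V.valuation (ak Ω a) < 1 := by
  let f : 𝓞 F →+* V :=
    { toFun := fun a => ⟨ak Ω a, (V.valuation_le_one_iff _).1 (ak_le V a)⟩
      map_one' := by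
        apply Subtype.ext
        simp [ak]
      map_mul' := fun a b => by
        apply Subtype.ext
        simp [ak]
      map_zero' := by
        apply Subtype.ext
        simp [ak]
      map_add' := fun a b => by
        apply Subtype.ext
        simp [ak] }
  have hmem : ∀ a : 𝓞 F, a ∈ Ideal.comap f (IsLocalRing.maximalIdeal V) ↔ V.valuation (ak Ω a) < 1 := by
    intro a
    rw [Ideal.mem_comap, V.valuation_lt_one_iff]
    exact Iff.rfl
  have hne : Ideal.comap f (IsLocalRing.maximalIdeal V) ≠ ⊥ := by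
    intro h0
    have h1 : (q : 𝓞 F) ∈ Ideal.comap f (IsLocalRing.maximalIdeal V) := by
      rw [hmem, k6a_cast]
      exact hV
    rw [h0, Ideal.mem_bot] at h1
    exact hq.ne_zero (by exact_mod_cast h1)
  exact ⟨⟨Ideal.comap f (IsLocalRing.maximalIdeal V), inferInstance, hne⟩, hmem⟩

theorem exists_okv {m : Ideal (𝓞 F)} {ψ : Ideal (𝓞 F) →*₀ 𝓞 F} {l : ℕ} {π : 𝓞 F}
    {Ξ : Pt (WAB A B) Ω → Ω} (h : Dta A B Om j act m ψ l) (hX : XiD act ψ π Ξ) :
    ∃ S : Set (Pl F), S.Finite ∧ ∀ v ∉ S, (Ideal.absNorm v.asIdeal).Prime → Okv A B act m ψ l π Ξ v := by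
  obtain ⟨S1, hS1, h1⟩ := h.fin
  obtain ⟨S2, hS2, h2⟩ := h.frob
  obtain ⟨S3, hS3, h3⟩ := hX.fin
  have hl0 : Ideal.span {(l : 𝓞 F)} ≠ ⊥ := by
    rw [Ne, Ideal.span_singleton_eq_bot]
    exact_mod_cast h.prime.ne_zero
  have hS4 := H55R.X10_bad hl0
  have hS5 := H55R.X10_bad h.hecke.ne
  have hS6 : (⋃ v' ∈ S1, k6a_set v').Finite := hS1.biUnion fun v' _ => k6a_fin v'
  refine ⟨S2 ∪ S3 ∪ {v : Pl F | Ideal.span {(l : 𝓞 F)} ≤ v.asIdeal} ∪ {v : Pl F | m ≤ v.asIdeal} ∪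
    ⋃ v' ∈ S1, k6a_set v', (((hS2.union hS3).union hS4).union hS5).union hS6, ?_⟩
  intro v hv hq
  simp only [Set.mem_union, not_or] at hv
  obtain ⟨⟨⟨⟨n2, n3⟩, n4⟩, n5⟩, n6⟩ := hv
  refine ⟨hq, fun h' => n4 ?_, ?_, fun V hV => ?_, h2 v n2 hq, h3 v n3 hq⟩
  · exact (Ideal.span_singleton_le_iff_mem _).2 h'
  · rw [Ideal.isCoprime_iff_sup_eq]
    by_contra hc
    apply n5
    have h5 : v.asIdeal = v.asIdeal ⊔ m := v.isMaximal.eq_of_le hc le_sup_left
    show m ≤ v.asIdeal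
    rw [h5]
    exact le_sup_right
  · obtain ⟨v', hv'⟩ := k6a_below (F := F) V _ hq hV
    have hn : v' ∉ S1 := by
      intro hm
      apply n6
      refine Set.mem_biUnion hm ?_
      exact ⟨hq, (hv' _).2 (by
        rw [k6a_cast]
        exact hV)⟩
    exact h1 v' hn V fun a ha => (hv' a).1 ha

end H55K
end

-- from Lib.H55K.K11
section

open NumberField IsDedekindDomain WeierstrassCurve

namespace H55K

open H55P (IQ embF eF LF Per IsHecke Pt ac Inert Dec Nm)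
open H35P (WAB Ker tt)
open H55R (Pl ord es fs smulP)

/-! Chunk K11 (M, port of H28G/K13.lean: geo_main). T in Tor act π nonzero (exists_tor). v = w.under, v.asIdeal = span {π}. hG for π: V(ak π) < 1 gives V(l) < 1 (π | l), h.good. tot_ram F L π v: TotRam; chi_bij. t : L with algebraMap L Ω t = tt T (tt_xy, crd), nonzero. exists_loc gives r, Loc.
ξ : L with algebraMap L Ω ξ = Ξ T (mem_of_fxd: s with Fxd L s fixes T, hX.gal), ξ ≠ 0 and ord v ξ = 0 for all v: V above v (exists_abw), hX.unit0, Abw.eq_one, BF1_val. ρ from Ab.exists_rho. c from hX.exp. Ab.lev_eta (2 < card k) with a0 = 1 and c: w(ξ/1 - 1 - c t) ≤ exp(-2) from hX.exp for V above w (V(ak π) < 1), Abw.le with t^2, TotRam.val; r(c) = q c ≠ 0.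
Ab.main_abs with hcyc from k10_cyc, bad = {Q | Q.under ∈ S} with S from exists_okv (k10_fin), haux from exists_aux: Okv for Q.under needs absNorm (Q.under) prime: absNorm Q = absNorm(Q.under)^fs prime (H55R.D5_norm). -/

variable {F : Type} [Field F] [NumberField F] [IQ F] {A B : F} {Om : ℂ} {Ω : Type} [Field Ω] [DecidableEq Ω]
  [Algebra F Ω] {j : Ω →+* ℂ} {act : 𝓞 F →+* AddMonoid.End (Pt (WAB A B) Ω)}
  {L : Type} [Field L] [NumberField L] [Algebra F L] [Algebra L Ω] [IsScalarTower F L Ω]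

/-- THE THEOREM OF THAINE, KOLYVAGIN AND RUBIN for the field L of the π-torsion. -/
theorem geo_main [IsAlgClosure F Ω] {m : Ideal (𝓞 F)} {ψ : Ideal (𝓞 F) →*₀ 𝓞 F} {l : ℕ} [Fact l.Prime]
    {π : 𝓞 F} {Ξ : Pt (WAB A B) Ω → Ω} (h : Dta A B Om j act m ψ l) (hX : XiD act ψ π Ξ) (hπ : Prime π)
    (hd : π ∣ (l : 𝓞 F))
    (hcyc : ¬ ∀ (s : Ω ≃ₐ[F] Ω) (n : ℕ), (∀ T ∈ Tor act π, ac (WAB A B) s T = n • T) →
      ∀ ζ : Ω, ζ ^ l = 1 → s ζ = ζ ^ n)
    (hL : TFld act F L π) {k : Type} [Field k] [Fintype k] [DecidableEq k] [CharP k l] (q : 𝓞 F →+* k)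
    (hq : Function.Surjective q) (hk : ∀ x, q x = 0 ↔ π ∣ x) (χ : Gal(L/F) →* kˣ)
    (hχ : ∀ (σ : Gal(L/F)) (s : Ω ≃ₐ[F] Ω) (c : 𝓞 F), Lft σ s → q c = χ σ → ∀ R ∈ Tor act π,
      ac (WAB A B) s R = act c R) (w : Pl L) (hw : algebraMap (𝓞 F) (𝓞 L) π ∈ w.asIdeal) {m' : k → Lˣ}
    (hm : Ab.EqHom l χ m') (hdv : ∀ (a : k) (v : Pl L), (l : ℤ) ∣ ord v (m' a))
    (hlev : ∀ a, Ab.Lev l w (m' a)) (a : k) : ∃ z : Lˣ, m' a = z ^ l := by
  classical
  have hC := h.cma
  have hl : l.Prime := Fact.out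
  have hgal : IsGalois F L := hL.gal
  have hNm := k10_arith hl h.five hπ hd
  have hG : ∀ V : ValuationSubring Ω, V.valuation (ak Ω π) < 1 → GV A B V := by
    intro V hV
    apply h.good V
    obtain ⟨c, hc⟩ := hd
    have h1 : (l : Ω) = ak Ω π * ak Ω c := by
      have h2 := congrArg (algebraMap (𝓞 F) F) hc
      rw [map_natCast, map_mul] at h2
      show _ = algebraMap F Ω (π : F) * algebraMap F Ω (c : F)
      rw [← map_mul]
      have h3 := congrArg (algebraMap F Ω) h2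
      rw [map_natCast] at h3
      exact h3
    rw [h1, map_mul]
    exact mul_lt_one_of_lt_of_le hV (ak_le V c)
  obtain ⟨T, hT, h0⟩ := exists_tor hC hπ
  have hspan := k10_below hπ w hw
  have TR := tot_ram hC hπ hL (w.under (𝓞 F)) (k10_val hπ _ hspan) hG
  have hχb := chi_bij hC hπ hL TR.deg q hq hk χ hχ
  obtain ⟨t, ht⟩ := k9_tt hL.crd hT
  have hwt := TR.val w rfl T hT h0 t ht
  have htt : t ≠ 0 := by
    intro h1
    rw [h1, map_zero] at hwt
    exact WithZero.exp_ne_zero hwt.symm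
  obtain ⟨r, hloc, hr⟩ := exists_loc hC hπ hL (by omega) hG q hq hk χ hχ _ hspan w rfl T hT h0
    (Units.mk0 t htt) ht
  obtain ⟨ξ, hξ⟩ : ∃ ξ : L, algebraMap L Ω ξ = Ξ T := by
    refine mem_of_fxd (F := F) L _ fun s hs => ?_
    rw [hX.gal, k9_fix hL.crd hs hT]
  have hone : ∀ V : ValuationSubring Ω, V.valuation (algebraMap L Ω ξ) = 1 := fun V => by
    rw [hξ]
    exact hX.unit0 T hT h0 V
  obtain ⟨V, hV⟩ := exists_abw Ω w
  have hne : ξ ≠ 0 := by
    intro h1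
    have h2 := hone V
    rw [h1, map_zero, map_zero] at h2
    exact zero_ne_one h2
  have hord : ∀ v : Pl L, ord v (Units.mk0 ξ hne) = 0 := by
    intro v
    obtain ⟨V', hV'⟩ := exists_abw Ω v
    rw [H55R.HB1_ord_zero]
    exact (hV'.eq_one ξ).1 (hone V')
  obtain ⟨ρ, hρ⟩ := Ab.exists_rho l k
  have hcard : 2 < Fintype.card k := by
    have h1 := k10_card q hq hk
    rw [Nat.card_eq_fintype_card] at h1
    omega
  obtain ⟨c, hc, hexp⟩ := hX.exp
  have hVπ : V.valuation (ak Ω π) < 1 := by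
    have h2 : ak Ω π = algebraMap L Ω ((algebraMap (𝓞 F) (𝓞 L) π : 𝓞 L) : L) :=
      IsScalarTower.algebraMap_apply F L Ω (π : F)
    rw [h2, hV.lt]
    exact (w.valuation_lt_one_iff_mem _).2 hw
  have hlev' : ∀ a : k, a ≠ 0 → ¬ Ab.Lev l w (Ab.eta χ ρ a (Units.mk0 ξ hne)) := by
    intro a ha
    refine Ab.lev_eta hcard hχb ρ hρ hloc (Units.mk0 ξ hne) 1 one_ne_zero c ?_ ?_ a ha
    · rw [hr, Ne, hk]
      exact hc
    · have h1 := hexp V hVπ T hT h0
      rw [← hξ, ← ht] at h1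
      have h2 : ak Ω c = algebraMap L Ω (algebraMap F L (c : F)) :=
        IsScalarTower.algebraMap_apply F L Ω (c : F)
      have h3 : (1 : Ω) = algebraMap L Ω 1 := (map_one _).symm
      rw [h2, h3, ← map_sub, ← map_mul, ← map_sub, ← map_pow, ← map_pow, hV.le, map_pow, hwt] at h1
      rw [map_one, div_one, Units.val_mk0, Units.val_mk0]
      refine h1.trans (le_of_eq ?_)
      rw [← WithZero.exp_nsmul]
      rfl
  obtain ⟨S, hS, hok⟩ := exists_okv h hX
  refine Ab.main_abs h.five hχb ρ hρ (fun ζ hζ => k10_cyc hC hl hπ hL q hq hk χ hχ hcyc ζ hζ) w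
    (Units.mk0 ξ hne) hord hlev' {Q : Pl L | Q.under (𝓞 F) ∈ S} (k10_fin hS) ?_ hm hdv hlev a
  intro Q hQ1 hQ2 hQ3 hQ4
  refine exists_aux h hX hπ hd hL hT h0 (Units.mk0 ξ hne) hξ Q (hok _ hQ1 ?_) hQ2 hQ4
  have h1 := H55R.D5_norm (Q.under (𝓞 F)) Q rfl
  rw [h1] at hQ2
  have h2 := hQ2.eq_one_of_pow
  rw [h2, pow_one] at hQ2
  exact hQ2

end H55K
end

-- from Lib.H55K.K12
section

open NumberField IsDedekindDomain WeierstrassCurve

namespace H55K

open H55P (IQ embF eF LF Per IsHecke Pt ac Inert Dec Nm)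
open H35P (WAB Ker tt)
open H55R (Pl ord es fs smulP)

/-! Chunk K12 (M, port of H99B/Geom.lean, last theorem). L : IntermediateField F Ω generated by the points killed by π (IsTF): TFld act F L π by tfld_of_istf. k = 𝓞 F ⧸ span {π} (a finite field of characteristic l), q = mk; χ from exists_chi; w a prime of L above (π) (under_exists); T0 in Tor act π nonzero; o : k -> 𝓞 F a section of q;
P a = act (o a) T0; m' a = m (P a); EqHom: add: P (a + b) = P a + P b (tor_zero: act depends only on q); equiv: for σ take an extension s: P (χ σ * a) = ac s (P a) and hact, s (m T : Ω) = (σ (m T) : Ω). Every T in Tor act π is P (q c) with act c T0 = T (tor_gen).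
geo_main. (DecidableEq by classical.) -/

variable {F : Type} [Field F] [NumberField F] [IQ F] {A B : F} {Om : ℂ} {Ω : Type} [Field Ω] [DecidableEq Ω]
  [Algebra F Ω] {j : Ω →+* ℂ} {act : 𝓞 F →+* AddMonoid.End (Pt (WAB A B) Ω)}

/-- Kummer form: functions on the π-torsion points with values in L = F(E[π]). -/
theorem geom_main [IsAlgClosure F Ω] {m : Ideal (𝓞 F)} {ψ : Ideal (𝓞 F) →*₀ 𝓞 F} {l : ℕ}
    {π : 𝓞 F} {Ξ : Pt (WAB A B) Ω → Ω} (h : Dta A B Om j act m ψ l) (hX : XiD act ψ π Ξ) (hπ : Prime π)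
    (hd : π ∣ (l : 𝓞 F))
    (hcyc : ¬ ∀ (s : Ω ≃ₐ[F] Ω) (n : ℕ), (∀ T ∈ Tor act π, ac (WAB A B) s T = n • T) →
      ∀ ζ : Ω, ζ ^ l = 1 → s ζ = ζ ^ n)
    (L : IntermediateField F Ω) (hL : IsTF act π L) [NumberField L] (M : Pt (WAB A B) Ω → Lˣ)
    (hadd : ∀ T ∈ Tor act π, ∀ T' ∈ Tor act π, ∃ z : Lˣ, M (T + T') = M T * M T' * z ^ l)
    (hact : ∀ s : Ω ≃ₐ[F] Ω, ∀ T ∈ Tor act π, ∃ z : Lˣ,
      ((M (ac (WAB A B) s T) : L) : Ω) = s ((M T : L) : Ω) * ((z : L) : Ω) ^ l)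
    (hord : ∀ T ∈ Tor act π, ∀ w : Pl L, (l : ℤ) ∣ ord w (M T))
    (hlev : ∀ T ∈ Tor act π, ∀ w : Pl L, w.valuation L (algebraMap F L (π : F)) < 1 →
      ∃ z : Lˣ, w.valuation L (((M T * (z ^ l)⁻¹ : Lˣ) : L) - 1) ≤ WithZero.exp (-2 : ℤ)) :
    ∀ T ∈ Tor act π, ∃ z : Lˣ, M T = z ^ l := by
  classical
  have hC := h.cma
  have hl : Fact l.Prime := ⟨h.prime⟩
  have hL' := tfld_of_istf hC hL
  have hgal : IsGalois F L := hL'.gal
  have hmax : (Ideal.span {π}).IsMaximal := by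
    have h1 : (Ideal.span {π}).IsPrime := (Ideal.span_singleton_prime hπ.ne_zero).2 hπ
    exact h1.isMaximal (by rw [Ne, Ideal.span_singleton_eq_bot]; exact hπ.ne_zero)
  have hb : Ideal.span {π} ≠ ⊥ := by
    rw [Ne, Ideal.span_singleton_eq_bot]
    exact hπ.ne_zero
  let k := 𝓞 F ⧸ Ideal.span {π}
  letI ik : Field k := Ideal.Quotient.field (Ideal.span {π})
  have hfin : Finite k := Ideal.finiteQuotientOfFreeOfNeBot _ hb
  letI : Fintype k := Fintype.ofFinite k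
  let q : 𝓞 F →+* k := Ideal.Quotient.mk (Ideal.span {π})
  have hq : Function.Surjective q := Ideal.Quotient.mk_surjective
  have hk : ∀ x, q x = 0 ↔ π ∣ x := fun x => by
    rw [Ideal.Quotient.eq_zero_iff_mem, Ideal.mem_span_singleton]
  have hchar : CharP k l := by
    have h1 : ((l : ℕ) : k) = 0 := by
      have h2 := (hk (l : 𝓞 F)).2 hd
      rw [map_natCast] at h2
      exact h2
    obtain ⟨p, hp⟩ := CharP.exists k
    have h2 : p ∣ l := (CharP.cast_eq_zero_iff k p l).1 h1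
    rcases (Nat.dvd_prime h.prime).1 h2 with h3 | h3
    · exfalso
      subst h3
      have h4 : ((1 : ℕ) : k) = 0 := (CharP.cast_eq_zero_iff k 1 1).2 (dvd_refl 1)
      rw [Nat.cast_one] at h4
      exact one_ne_zero h4
    · rw [← h3]
      exact hp
  obtain ⟨χ, -, hχ⟩ := exists_chi hC hπ hL' q hq hk
  obtain ⟨w, hw⟩ : ∃ w : Pl L, algebraMap (𝓞 F) (𝓞 L) π ∈ w.asIdeal := by
    obtain ⟨w, hw⟩ := H55R.under_exists (L := L) (⟨Ideal.span {π}, hmax.isPrime, hb⟩ : Pl F)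
    refine ⟨w, ?_⟩
    have h1 : π ∈ (w.under (𝓞 F)).asIdeal := by
      rw [hw]
      exact Ideal.mem_span_singleton_self π
    exact h1
  have hw1 : w.valuation L (algebraMap F L (π : F)) < 1 :=
    (w.valuation_lt_one_iff_mem (algebraMap (𝓞 F) (𝓞 L) π)).2 hw
  obtain ⟨T₀, hT₀, h0⟩ := exists_tor hC hπ
  obtain ⟨o, ho⟩ : ∃ o : k → 𝓞 F, ∀ a, q (o a) = a := ⟨Function.surjInv hq, Function.surjInv_eq hq⟩
  have hact0 : ∀ c c' : 𝓞 F, q c = q c' → act c T₀ = act c' T₀ := by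
    intro c c' h
    have h1 : act (c - c') T₀ = 0 := by
      rw [tor_zero hC hπ hT₀ h0, ← hk, map_sub, h, sub_self]
    rw [map_sub] at h1
    exact sub_eq_zero.1 h1
  let P : k → Pt (WAB A B) Ω := fun a => act (o a) T₀
  have hP : ∀ a, P a ∈ Tor act π := fun a => tor_act (o a) hT₀
  have hm : Ab.EqHom l χ fun a => M (P a) := by
    constructor
    · intro a b
      have h1 : P (a + b) = P a + P b := by
        show act (o (a + b)) T₀ = act (o a) T₀ + act (o b) T₀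
        rw [hact0 (o (a + b)) (o a + o b) (by rw [map_add, ho, ho, ho]), map_add]
        rfl
      show ∃ z, M (P (a + b)) = _
      rw [h1]
      exact hadd _ (hP a) _ (hP b)
    · intro σ a
      obtain ⟨s, hs⟩ := exists_lft (F := F) (Ω := Ω) σ
      have h1 : P (χ σ * a) = ac (WAB A B) s (P a) := by
        rw [hχ σ s (o (χ σ)) hs (ho _) _ (hP a)]
        show act (o (χ σ * a)) T₀ = act (o (χ σ)) (act (o a) T₀)
        rw [hact0 (o (χ σ * a)) (o (χ σ) * o a) (by rw [map_mul, ho, ho, ho]), map_mul]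
        rfl
      obtain ⟨z, hz⟩ := hact s (P a) (hP a)
      refine ⟨z, ?_⟩
      show M (P (χ σ * a)) = _
      rw [h1]
      ext
      rw [hz]
      have h2 := hs (M (P a) : L)
      have h3 : s ((M (P a) : L) : Ω) = ((σ (M (P a) : L) : L) : Ω) := h2
      rw [h3]
      rfl
  intro T hT
  obtain ⟨c, hc⟩ := tor_gen hC hπ hT₀ hT h0
  have h1 : T = P (q c) := by
    rw [← hc]
    exact hact0 _ _ (ho _).symm
  rw [h1]
  exact geo_main h hX hπ hd hcyc hL' q hq hk χ hχ w hw hm (fun a v => hord _ (hP a) v)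
    (fun a => hlev _ (hP a) w hw1) (q c)

end H55K
end
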