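import Mathlib
import Pool.Agent.Lib.H1M.PP.D_H28R_Defs
import Pool.Agent.Lib.H1M.PP.M002
import Pool.Agent.Lib.H1M.PP.M003
import Pool.Agent.Lib.H1M.PP.M011
import Pool.Agent.Lib.H1M.PP.M015
import Pool.Agent.Lib.H1M.PP.M036
import Pool.Agent.Lib.H1M.PP.M037
import Pool.Agent.Lib.H1M.PP.M038
import Pool.Agent.Lib.H1M.PP.M039
import Pool.Agent.Lib.H1M.PP.M049
import Pool.Agent.Lib.H1M.PP.M051
import Pool.Agent.Lib.H1M.PP.M054
import Pool.Agent.Lib.H1M.PP.M058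
import Pool.Agent.Lib.H1M.PP.M061
import Pool.Agent.Lib.H1M.PP.M070
import Pool.Agent.Lib.H1M.PP.M071
import Pool.Agent.Lib.H1M.PP.M072

/-! Merged copies (to shorten the build) of Lib.H13D.A6, Lib.H13D.B4, Lib.H13D.B5, Lib.H13D.C4, Lib.H28I.E0, Lib.H28I.E3, Lib.H13D.E3, Lib.H55W.Z0, Lib.H55W.Z1, Lib.H55W.L8G, Lib.H55W.L8H, Lib.H13X.XZ3, Lib.H13X.XZ5, Lib.H28R.A1, Lib.H28R.A9, Lib.H28R.W2, Lib.H28R.W3. -/

-- from Lib.H13D.A6
section

/-! # H13D, part A: good reduction (generic) -/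

open NumberField IsDedekindDomain WeierstrassCurve

namespace H13D

open H55P (IQ embF eF LF Per IsHecke Pt ac Inert Dec Nm)
open H35P (WAB Ker tt GoodW IntW)
open H55K

variable {F : Type} [Field F] [NumberField F] [IQ F] {A B : F} {Om : ℂ} {Ω : Type} [Field Ω] [DecidableEq Ω]
  [Algebra F Ω] {j : Ω →+* ℂ} {act : 𝓞 F →+* AddMonoid.End (Pt (WAB A B) Ω)} {V : ValuationSubring Ω}
  {Kg : AddSubgroup (Pt (WAB A B) Ω)} {u r : Ω}

theorem a6_ne {V : ValuationSubring Ω} {b : 𝓞 F} (hb : V.valuation (ak Ω b) = 1) : b ≠ 0 := by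
  rintro rfl
  have h1 : ak Ω (0 : 𝓞 F) = 0 := by
    show algebraMap F Ω ((0 : 𝓞 F) : F) = 0
    simp
  rw [h1, map_zero] at hb
  exact zero_ne_one hb

/-- Chunk A6 (M). Port of H55K/G9A.lean (g9_surj). b ≠ 0 since V(b) = 1. If act b X = 0 take T = X. It is enough to find Z in Kg with act b Z = act b X (then T = X - Z). S the nonzero points killed by b, none in Kg (tor_unit'). Suppose X + R is not in Kg for R = 0 and all R in S. Y from exists_gen; e2n for X and Y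
(act b X ≠ 0, act b Y ≠ 0): V(b) = 1, V(xn (act b X) - xn (act b Y)) = V(xn (act b X)) > 1 (act b X in Kg, ≠ 0; act b Y not in Kg), V(xn R - xn Y) = 1 for R in S; the right side has value ≤ 1 (X, Y, X + R not in Kg): contradiction. So X + R is in Kg for R = 0 or some R in S: T = - R. -/
theorem tor_surj (h : CMA F A B Om j act) (hR : RM A B V Kg u r) {b : 𝓞 F} (hb : V.valuation (ak Ω b) = 1)
    {X : Pt (WAB A B) Ω} (hX : act b X ∈ Kg) : ∃ T, act b T = 0 ∧ X - T ∈ Kg := by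
  have hb0 : b ≠ 0 := a6_ne hb
  by_cases hK0 : act b X = 0
  · exact ⟨X, hK0, by rw [sub_self]; exact Kg.zero_mem⟩
  by_contra hcon
  push Not at hcon
  have hno : ∀ R, act b R = 0 → X + R ∉ Kg := by
    intro R hR' hk
    refine hcon (-R) (by rw [map_neg, hR', neg_zero]) ?_
    rwa [sub_neg_eq_add]
  obtain ⟨S, hS, -⟩ := exists_TN h hb0
  obtain ⟨Y, hYk, hYb, hYS, hg1, hg2⟩ := exists_gen h hR hb0 hS
  have hY0 : act b Y ≠ 0 := fun h0 => hYb (h0 ▸ Kg.zero_mem)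
  have hXk : X ∉ Kg := by
    have := hno 0 (map_zero (act b))
    rwa [add_zero] at this
  have he := e2n (u := u) (r := r) h hR.une hb0 hS hK0 hY0
  have hv := congrArg V.valuation he
  rw [map_mul, map_mul, map_mul, map_pow, hb, one_pow, one_mul, map_prod, map_prod] at hv
  have h1 : 1 < V.valuation (xn u r (act b X)) := hR.big _ hX hK0
  have h2 : V.valuation (xn u r (act b Y)) ≤ 1 := hR.int _ hYb
  have h3 : V.valuation (xn u r (act b X) - xn u r (act b Y)) = V.valuation (xn u r (act b X)) :=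
    Valuation.map_sub_eq_of_lt_left V.valuation (h2.trans_lt h1)
  have h4 : ∏ R ∈ S, V.valuation (xn u r R - xn u r Y) = 1 := by
    apply Finset.prod_eq_one
    intro R hRS
    have hR' := (hS R).1 hRS
    exact hg1 R hRS (fun hk => hR'.2 (tor_unit' h hR hb hR'.1 hk))
  rw [h3, h4, mul_one] at hv
  have hint : ∀ P : Pt (WAB A B) Ω, P ∉ Kg → V.valuation (xn u r P - xn u r Y) ≤ 1 := fun P hP =>
    (Valuation.map_sub _ _ _).trans (max_le (hR.int _ hP) (hR.int _ hYk))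
  have h5 : V.valuation (xn u r X - xn u r Y) * ∏ R ∈ S, V.valuation (xn u r (X + R) - xn u r Y) ≤ 1 := by
    refine mul_le_one' (hint X hXk) (Finset.prod_le_one' ?_)
    intro R hRS
    exact hint _ (hno R ((hS R).1 hRS).1)
  rw [← hv] at h5
  exact absurd h1 (not_lt.2 h5)

/-- Chunk A6 (M). Port of H55K/G9A.lean (cls_card): the map Tor act b → {classes c of X modulo Kg : act b X in Kg} is bijective (injective: tor_unit'; surjective: tor_surj), Nat.card (Tor act b) = Nm b (tor_card). -/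
theorem cls_card' (h : CMA F A B Om j act) (hR : RM A B V Kg u r) {b : 𝓞 F} (hb : V.valuation (ak Ω b) = 1) :
    Nat.card {c : Pt (WAB A B) Ω ⧸ Kg // ∃ X : Pt (WAB A B) Ω, (X : Pt (WAB A B) Ω ⧸ Kg) = c ∧ act b X ∈ Kg} = Nm b := by
  have hb0 : b ≠ 0 := a6_ne hb
  rw [← tor_card h hb0]
  symm
  have hk : ∀ T : Tor act b, act b (T : Pt (WAB A B) Ω) ∈ Kg := by
    intro T
    have h1 : act b (T : Pt (WAB A B) Ω) = 0 := T.2
    rw [h1]
    exact Kg.zero_mem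
  apply Nat.card_eq_of_bijective (fun T : Tor act b =>
    (⟨((T : Pt (WAB A B) Ω) : Pt (WAB A B) Ω ⧸ Kg), T, rfl, hk T⟩ :
      {c : Pt (WAB A B) Ω ⧸ Kg // ∃ X : Pt (WAB A B) Ω, (X : Pt (WAB A B) Ω ⧸ Kg) = c ∧
        act b X ∈ Kg}))
  constructor
  · intro T T' hTT
    have h1 := congrArg Subtype.val hTT
    simp only at h1
    rw [QuotientAddGroup.eq] at h1
    have h2 : (-T + T' : Tor act b) = 0 := by
      apply Subtype.ext
      exact tor_unit' h hR hb (-T + T' : Tor act b).2 h1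
    exact neg_add_eq_zero.1 h2
  · rintro ⟨c, X, rfl, hX⟩
    obtain ⟨T, hT, hXT⟩ := tor_surj h hR hb hX
    refine ⟨⟨T, hT⟩, ?_⟩
    apply Subtype.ext
    show (T : Pt (WAB A B) Ω ⧸ Kg) = X
    rw [QuotientAddGroup.eq, neg_add_eq_sub]
    exact hXT

end H13D
end

-- from Lib.H13D.B4
section

/-! # H13D, part B: points over the residue fields -/

open NumberField IsDedekindDomain WeierstrassCurve

namespace H13D

open H55P (IQ embF eF LF Per IsHecke Pt ac Inert Dec Nm)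
open H35P (WAB Ker tt GoodW IntW)
open H55K
open H55K.MG (VC Crd)

variable {F : Type} [Field F] [NumberField F] {Ω : Type} [Field Ω] [DecidableEq Ω] [Algebra F Ω] {V : ValuationSubring Ω}

omit [NumberField F] [DecidableEq Ω] in
theorem b4_h (W₀ : WeierstrassCurve (𝓞 F)) (a b : 𝓞 F) : ak Ω (g9E W₀ a b) =
    ak Ω b ^ 2 + ak Ω W₀.a₁ * ak Ω a * ak Ω b + ak Ω W₀.a₃ * ak Ω b -
      (ak Ω a ^ 3 + ak Ω W₀.a₂ * ak Ω a ^ 2 + ak Ω W₀.a₄ * ak Ω a + ak Ω W₀.a₆) := by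
  unfold g9E
  simp only [← g9h_eq, map_sub, map_add, map_mul, map_pow]

omit [NumberField F] [DecidableEq Ω] in
theorem b4_coef (W₀ : WeierstrassCurve (𝓞 F)) : ((W₀⁄F)⁄Ω).a₁ = ak Ω W₀.a₁ ∧ ((W₀⁄F)⁄Ω).a₂ = ak Ω W₀.a₂ ∧
    ((W₀⁄F)⁄Ω).a₃ = ak Ω W₀.a₃ ∧ ((W₀⁄F)⁄Ω).a₄ = ak Ω W₀.a₄ ∧ ((W₀⁄F)⁄Ω).a₆ = ak Ω W₀.a₆ := ⟨rfl, rfl, rfl, rfl, rfl⟩

omit [NumberField F] in
theorem b4_eq (W₀ : WeierstrassCurve (𝓞 F)) {X : Pt (W₀⁄F) Ω} (hX : X ≠ 0) :
    yc X ^ 2 + ak Ω W₀.a₁ * xc X * yc X + ak Ω W₀.a₃ * yc X -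
      (xc X ^ 3 + ak Ω W₀.a₂ * xc X ^ 2 + ak Ω W₀.a₄ * xc X + ak Ω W₀.a₆) = 0 := by
  rcases X with _ | ⟨x, y, hn⟩
  · exact absurd rfl hX
  · have h1 := (Affine.equation_iff _ _).1 hn.1
    obtain ⟨e1, e2, e3, e4, e6⟩ := b4_coef (Ω := Ω) W₀
    show y ^ 2 + ak Ω W₀.a₁ * x * y + ak Ω W₀.a₃ * y - (x ^ 3 + ak Ω W₀.a₂ * x ^ 2 + ak Ω W₀.a₄ * x + ak Ω W₀.a₆) = 0
    rw [← e1, ← e2, ← e3, ← e4, ← e6, sub_eq_zero]
    exact h1

/-- Chunk B4 (M). Port of H55K.g9_lift (G9B.lean), simpler: the curve is W₀ itself. g9E W₀ a b = b^2 + a₁ a b + a₃ b - (a^3 + a₂ a^2 + a₄ a + a₆). The monic quadratic polynomial Y^2 + (a₁ a + a₃) Y - (a^3 + ..) over Ω has roots y₁, y₂ (Ω algebraically closed): (b - y₁)(b - y₂) is the image of g9E W₀ a b, of value < 1, so one factor has value < 1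
(if both had value ≥ 1 so would the product): y with V(b - y) < 1. X = some a y: the equation holds and the curve is nonsingular (good_model: Δ ≠ 0; Affine.equation_iff_nonsingular_of_Δ_ne_zero). Not in Ker: V(ak a) ≤ 1 (ak_le). -/
theorem lift_pt [IsAlgClosed Ω] (W₀ : WeierstrassCurve (𝓞 F)) (hG : GoodW ((W₀⁄F)⁄Ω) V) (a b : 𝓞 F)
    (hE : V.valuation (ak Ω (g9E W₀ a b)) < 1) : ∃ X : Pt (W₀⁄F) Ω, ¬ Ker V X ∧ xc X = ak Ω a ∧
      V.valuation (yc X - ak Ω b) < 1 := by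
  obtain ⟨e1, e2, e3, e4, e6⟩ := b4_coef (Ω := Ω) W₀
  -- the polynomial
  set β : Ω := ak Ω W₀.a₁ * ak Ω a + ak Ω W₀.a₃ with hβ
  set γ : Ω := ak Ω a ^ 3 + ak Ω W₀.a₂ * ak Ω a ^ 2 + ak Ω W₀.a₄ * ak Ω a + ak Ω W₀.a₆ with hγ
  obtain ⟨y₁, hy₁⟩ : ∃ y : Ω, y ^ 2 + β * y - γ = 0 := by
    have hd : (Polynomial.X ^ 2 + Polynomial.C β * Polynomial.X + Polynomial.C (-γ) : Polynomial Ω).degree = 2 := by
      have := Polynomial.degree_quadratic (a := (1 : Ω)) (b := β) (c := -γ) one_ne_zero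
      rwa [Polynomial.C_1, one_mul] at this
    obtain ⟨y, hy⟩ := IsAlgClosed.exists_root (Polynomial.X ^ 2 + Polynomial.C β * Polynomial.X + Polynomial.C (-γ) : Polynomial Ω)
      (by rw [hd]; norm_num)
    refine ⟨y, ?_⟩
    rw [Polynomial.IsRoot.def] at hy
    simp only [Polynomial.eval_add, Polynomial.eval_pow, Polynomial.eval_X, Polynomial.eval_mul, Polynomial.eval_C] at hy
    rw [sub_eq_add_neg]
    exact hy
  have hΔ : ((W₀⁄F)⁄Ω).Δ ≠ 0 := by
    intro h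
    have h1 := hG.disc
    rw [h, map_zero] at h1
    exact zero_ne_one h1
  have hpt : ∀ y' : Ω, y' ^ 2 + β * y' - γ = 0 → V.valuation (y' - ak Ω b) < 1 → ∃ X : Pt (W₀⁄F) Ω, ¬ Ker V X ∧
      xc X = ak Ω a ∧ V.valuation (yc X - ak Ω b) < 1 := by
    intro y' hy' hv'
    have heq : ((W₀⁄F)⁄Ω).toAffine.Equation (ak Ω a) y' := by
      rw [Affine.equation_iff]
      show y' ^ 2 + ((W₀⁄F)⁄Ω).a₁ * ak Ω a * y' + ((W₀⁄F)⁄Ω).a₃ * y' = ak Ω a ^ 3 + ((W₀⁄F)⁄Ω).a₂ * ak Ω a ^ 2 +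
        ((W₀⁄F)⁄Ω).a₄ * ak Ω a + ((W₀⁄F)⁄Ω).a₆
      rw [e1, e2, e3, e4, e6, ← hγ]
      rw [hβ] at hy'
      linear_combination hy'
    have hns := (Affine.equation_iff_nonsingular_of_Δ_ne_zero (W := ((W₀⁄F)⁄Ω).toAffine) hΔ).1 heq
    exact ⟨.some _ _ hns, fun hk => absurd (show 1 < V.valuation (ak Ω a) from hk) (not_lt.2 (ak_le V a)), rfl, hv'⟩
  have hprod : V.valuation (ak Ω b - y₁) * V.valuation (ak Ω b + y₁ + β) < 1 := by
    rw [← map_mul]
    have : (ak Ω b - y₁) * (ak Ω b + y₁ + β) = ak Ω (g9E W₀ a b) := by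
      rw [b4_h, hβ]
      rw [hβ, hγ] at hy₁
      linear_combination -hy₁
    rw [this]
    exact hE
  by_cases h1 : V.valuation (ak Ω b - y₁) < 1
  · refine hpt y₁ hy₁ ?_
    rw [Valuation.map_sub_swap]
    exact h1
  · have h7 : V.valuation (ak Ω b + y₁ + β) < 1 := by
      by_contra h8
      push Not at h1 h8
      exact absurd hprod (not_lt.2 (one_le_mul h1 h8))
    refine hpt (-y₁ - β) (by linear_combination hy₁) ?_
    have : -y₁ - β - ak Ω b = -(ak Ω b + y₁ + β) := by ring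
    rw [this, Valuation.map_neg]
    exact h7

/-- Chunk B4 (S/M). s (xc X) is congruent to (xc X)^q (hs; xc X in V by MG.int_crd), congruent to (ak a)^q (difference of powers), congruent to ak a (H55K.g9_frob in G9B.lean), congruent to xc X; the same for yc. xc_ac, yc_ac; ac s X is not in Ker (V(s x) ≤ 1); MG.cong_ker (M3A.lean). -/
theorem fix_pt (W₀ : WeierstrassCurve (𝓞 F)) (hG : GoodW ((W₀⁄F)⁄Ω) V) (v : HeightOneSpectrum (𝓞 F))
    (hv : ∀ a : 𝓞 F, a ∈ v.asIdeal → V.valuation (ak Ω a) < 1) (s : Ω ≃ₐ[F] Ω) (hD : Dec V s)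
    (hs : ∀ x ∈ V, V.valuation (s x - x ^ Ideal.absNorm v.asIdeal) < 1) (a b : 𝓞 F) {X : Pt (W₀⁄F) Ω}
    (hX : ¬ Ker V X) (hx : V.valuation (xc X - ak Ω a) < 1) (hy : V.valuation (yc X - ak Ω b) < 1) :
    Ker V (ac (W₀⁄F) s X - X) := by
  obtain ⟨hX0, hxV, hyV⟩ := MG.int_crd hG hX
  have hxi := (V.valuation_le_one_iff _).2 hxV
  have hyi := (V.valuation_le_one_iff _).2 hyV
  have e1 : V.valuation (xc X ^ Ideal.absNorm v.asIdeal - xc X) < 1 := (g9_frob hv hxi).2 ⟨a, hx⟩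
  have e2 : V.valuation (yc X ^ Ideal.absNorm v.asIdeal - yc X) < 1 := (g9_frob hv hyi).2 ⟨b, hy⟩
  have e3 := g9_tri (hs _ hxV) e1
  have e4 := g9_tri (hs _ hyV) e2
  have hsX : ¬ Ker V (ac (W₀⁄F) s X) := by
    rw [MG.ker_crd (ac_ne (W₀⁄F) s hX0), xc_ac, not_lt]
    have : s (xc X) = (s (xc X) - xc X) + xc X := by ring
    rw [this]
    exact (Valuation.map_add _ _ _).trans (max_le e3.le hxi)
  apply MG.cong_ker hG hsX hX
  · rw [xc_ac]
    exact e3
  · rw [yc_ac]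
    exact e4

/-- Chunk B4 (S/M). conv_gen (P = X, Q = ac s X): xc (sX) = s (xc X) is congruent to xc X and to (xc X)^q (hs), so V((xc X)^q - xc X) < 1: g9_frob gives a with V(xc X - ak a) < 1; the same for yc and b. The image of g9E W₀ a b is congruent to the value 0 of the equation at (xc X, yc X): value < 1, so g9E W₀ a b is in v (H55K.g9_ker). -/
theorem conv_pt (W₀ : WeierstrassCurve (𝓞 F)) (hG : GoodW ((W₀⁄F)⁄Ω) V) (v : HeightOneSpectrum (𝓞 F))
    (hv : ∀ a : 𝓞 F, a ∈ v.asIdeal → V.valuation (ak Ω a) < 1) (s : Ω ≃ₐ[F] Ω)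
    (hs : ∀ x ∈ V, V.valuation (s x - x ^ Ideal.absNorm v.asIdeal) < 1) {X : Pt (W₀⁄F) Ω}
    (hX : ¬ Ker V X) (hk : Ker V (ac (W₀⁄F) s X - X)) : ∃ a b : 𝓞 F, g9E W₀ a b ∈ v.asIdeal ∧
      V.valuation (xc X - ak Ω a) < 1 ∧ V.valuation (yc X - ak Ω b) < 1 := by
  obtain ⟨hX0, hxV, hyV⟩ := MG.int_crd hG hX
  have hxi := (V.valuation_le_one_iff _).2 hxV
  have hyi := (V.valuation_le_one_iff _).2 hyV
  obtain ⟨-, hx1, hy1⟩ := conv_gen hG hX hk
  rw [xc_ac] at hx1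
  rw [yc_ac] at hy1
  have e1 : V.valuation (xc X ^ Ideal.absNorm v.asIdeal - xc X) < 1 := by
    refine g9_tri ?_ hx1
    rw [Valuation.map_sub_swap]
    exact hs _ hxV
  have e2 : V.valuation (yc X ^ Ideal.absNorm v.asIdeal - yc X) < 1 := by
    refine g9_tri ?_ hy1
    rw [Valuation.map_sub_swap]
    exact hs _ hyV
  obtain ⟨a, ha⟩ := (g9_frob hv hxi).1 e1
  obtain ⟨b, hb⟩ := (g9_frob hv hyi).1 e2
  refine ⟨a, b, ?_, ha, hb⟩
  rw [← g9_ker hv, b4_h]
  have heq := b4_eq W₀ hX0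
  set x := xc X
  set y := yc X
  have h7 : ak Ω b ^ 2 + ak Ω W₀.a₁ * ak Ω a * ak Ω b + ak Ω W₀.a₃ * ak Ω b -
      (ak Ω a ^ 3 + ak Ω W₀.a₂ * ak Ω a ^ 2 + ak Ω W₀.a₄ * ak Ω a + ak Ω W₀.a₆) =
      (y - ak Ω b) * (-(y + ak Ω b + ak Ω W₀.a₁ * ak Ω a + ak Ω W₀.a₃)) +
      (x - ak Ω a) * (-(ak Ω W₀.a₁ * y) + (x ^ 2 + x * ak Ω a + ak Ω a ^ 2 + ak Ω W₀.a₂ * (x + ak Ω a) + ak Ω W₀.a₄)) := by
    linear_combination heq
  rw [h7]
  have hm : ∀ {x y : Ω}, V.valuation x ≤ 1 → V.valuation y ≤ 1 → V.valuation (x * y) ≤ 1 := by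
    intro x y hx hy
    rw [map_mul]
    exact mul_le_one' hx hy
  have hp : ∀ {x y : Ω}, V.valuation x ≤ 1 → V.valuation y ≤ 1 → V.valuation (x + y) ≤ 1 :=
    fun hx hy => (Valuation.map_add _ _ _).trans (max_le hx hy)
  have k := ak_le (Ω := Ω) V (F := F)
  refine Valuation.map_add_lt _ (g9_mul hb ?_) (g9_mul ha ?_)
  · rw [Valuation.map_neg]
    exact hp (hp (hp hyi (k b)) (hm (k _) (k a))) (k _)
  · refine hp ?_ ?_
    · rw [Valuation.map_neg]
      exact hm (k _) hyi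
    · rw [sq, sq]
      exact hp (hp (hp (hp (hm hxi hxi) (hm hxi (k a))) (hm (k a) (k a))) (hm (k _) (hp hxi (k a)))) (k _)

end H13D
end

-- from Lib.H13D.B5
section

/-! # H13D, part B: points over the residue fields -/

open NumberField IsDedekindDomain WeierstrassCurve

namespace H13D

open H55P (IQ embF eF LF Per IsHecke Pt ac Inert Dec Nm)
open H35P (WAB Ker tt GoodW IntW)
open H55K
open H55K.MG (VC Crd)

variable {F : Type} [Field F] [NumberField F] {Ω : Type} [Field Ω] [DecidableEq Ω] [Algebra F Ω] {V : ValuationSubring Ω}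

/-- The class c is the class of the lifts of the point P. -/
def b5R (W₀ : WeierstrassCurve (𝓞 F)) (v : HeightOneSpectrum (𝓞 F)) (V : ValuationSubring Ω) (KE : AddSubgroup (Pt (W₀⁄F) Ω))
    (P : (W₀⁄(𝓞 F ⧸ v.asIdeal)).toAffine.Point) (c : Pt (W₀⁄F) Ω ⧸ KE) : Prop :=
  (P = 0 ∧ c = 0) ∨ ∃ (a b : 𝓞 F) (h : (W₀⁄(𝓞 F ⧸ v.asIdeal)).toAffine.Nonsingular (Ideal.Quotient.mk v.asIdeal a)
    (Ideal.Quotient.mk v.asIdeal b)) (X : Pt (W₀⁄F) Ω), P = .some _ _ h ∧ c = (X : Pt (W₀⁄F) Ω ⧸ KE) ∧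
      ¬ Ker V X ∧ V.valuation (xc X - ak Ω a) < 1 ∧ V.valuation (yc X - ak Ω b) < 1

omit [DecidableEq Ω] in
theorem b5_sub (v : HeightOneSpectrum (𝓞 F))
    (hv : ∀ a : 𝓞 F, a ∈ v.asIdeal → V.valuation (ak Ω a) < 1) (a a' : 𝓞 F) :
    V.valuation (ak Ω a - ak Ω a') < 1 ↔ Ideal.Quotient.mk v.asIdeal a = Ideal.Quotient.mk v.asIdeal a' := by
  have h1 : ak Ω a - ak Ω a' = ak Ω (a - a') := by
    rw [← g9h_eq (Ω := Ω) (a - a'), map_sub, g9h_eq, g9h_eq]
  rw [h1, g9_ker hv, ← Ideal.Quotient.eq]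

/-- Chunk B5 (M). Port of H55K.red_card (G9B.lean, the relation g9R), simpler: the points (ā, b̄) of W₀ over k = 𝓞 F ⧸ v correspond to the classes modulo KE of the points X with sX - X in KE. Relation R(P, c): P = 0 and c = 0, or P = some (class of a) (class of b), c = class of X, X not in Ker, V(xc X - ak a) < 1, V(yc X - ak b) < 1.
Every P has a c (lift_pt; g9_nons: the equation modulo v is g9E in v), c is a fixed class (fix_pt), unique (MG.cong_ker: two lifts X, X' have congruent coordinates); every fixed class c has a P (conv_pt; X in Ker: c = 0), unique (conv_gen: X, X' in the same class have congruent coordinates, so a - a' is in v: H55K.g9_ker).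
So there is a bijection: Nat.card_congr (Equiv.ofBijective). -/
theorem red_card' [IsAlgClosed Ω] (W₀ : WeierstrassCurve (𝓞 F)) (v : HeightOneSpectrum (𝓞 F)) (hΔ : W₀.Δ ∉ v.asIdeal)
    (hv : ∀ a : 𝓞 F, a ∈ v.asIdeal → V.valuation (ak Ω a) < 1) (s : Ω ≃ₐ[F] Ω) (hD : Dec V s)
    (hs : ∀ x ∈ V, V.valuation (s x - x ^ Ideal.absNorm v.asIdeal) < 1) {KE : AddSubgroup (Pt (W₀⁄F) Ω)}
    (hKE : ∀ P, P ∈ KE ↔ Ker V P) :
    Nat.card (W₀⁄(𝓞 F ⧸ v.asIdeal)).toAffine.Point =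
      Nat.card {c : Pt (W₀⁄F) Ω ⧸ KE // ∃ X : Pt (W₀⁄F) Ω, (X : Pt (W₀⁄F) Ω ⧸ KE) = c ∧ ac (W₀⁄F) s X - X ∈ KE} := by
  have hG : GoodW ((W₀⁄F)⁄Ω) V := good_model W₀ hΔ hv
  -- every point has a class
  have htot : ∀ P : (W₀⁄(𝓞 F ⧸ v.asIdeal)).toAffine.Point, ∃ c : {c : Pt (W₀⁄F) Ω ⧸ KE //
      ∃ X : Pt (W₀⁄F) Ω, (X : Pt (W₀⁄F) Ω ⧸ KE) = c ∧ ac (W₀⁄F) s X - X ∈ KE},
      b5R W₀ v V KE P c.1 := by
    intro P
    rcases P with _ | ⟨x, y, h⟩
    · refine ⟨⟨0, 0, rfl, ?_⟩, Or.inl ⟨rfl, rfl⟩⟩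
      rw [map_zero, sub_zero]
      exact KE.zero_mem
    · obtain ⟨a, rfl⟩ := Ideal.Quotient.mk_surjective x
      obtain ⟨b, rfl⟩ := Ideal.Quotient.mk_surjective y
      obtain ⟨X, hX, hXx, hXy⟩ := lift_pt W₀ hG a b (hv _ ((g9_nons W₀ v hΔ a b).1 h))
      have hXx' : V.valuation (xc X - ak Ω a) < 1 := by
        rw [hXx, sub_self, map_zero]
        exact zero_lt_one
      exact ⟨⟨(X : Pt (W₀⁄F) Ω ⧸ KE), X, rfl, (hKE _).2 (fix_pt W₀ hG v hv s hD hs a b hX hXx' hXy)⟩,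
        Or.inr ⟨a, b, h, X, rfl, rfl, hX, hXx', hXy⟩⟩
  choose f hf using htot
  apply Nat.card_eq_of_bijective f
  have hno : ∀ X : Pt (W₀⁄F) Ω, ¬ Ker V X → (X : Pt (W₀⁄F) Ω ⧸ KE) ≠ 0 := by
    intro X hX h
    exact hX ((hKE X).1 ((QuotientAddGroup.eq_zero_iff X).1 h))
  constructor
  · intro P P' hPP
    have h1 := hf P
    have h2 := hf P'
    rw [← hPP] at h2
    rcases h1 with ⟨h1, h1'⟩ | ⟨a, b, h, X, hP, hc, hX, hx, hy⟩
    · rcases h2 with ⟨h2, h2'⟩ | ⟨a', b', h', X', hP', hc', hX', hx', hy'⟩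
      · rw [h1, h2]
      · exact (hno X' hX' (hc'.symm.trans h1')).elim
    · rcases h2 with ⟨h2, h2'⟩ | ⟨a', b', h', X', hP', hc', hX', hx', hy'⟩
      · exact (hno X hX (hc.symm.trans h2')).elim
      · have h3 : Ker V (X' - X) := by
          have h4 := hc.symm.trans hc'
          rw [QuotientAddGroup.eq, neg_add_eq_sub] at h4
          exact (hKE _).1 h4
        obtain ⟨-, h5, h6⟩ := conv_gen hG hX h3
        rw [Valuation.map_sub_swap] at h5 h6 hx hy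
        have h7 : V.valuation (ak Ω a - ak Ω a') < 1 := g9_tri (g9_tri hx h5) hx'
        have h8 : V.valuation (ak Ω b - ak Ω b') < 1 := g9_tri (g9_tri hy h6) hy'
        rw [hP, hP', Affine.Point.some.injEq]
        exact ⟨(b5_sub v hv a a').1 h7, (b5_sub v hv b b').1 h8⟩
  · rintro ⟨c, X, rfl, hX⟩
    by_cases hXk : Ker V X
    · refine ⟨0, ?_⟩
      apply Subtype.ext
      have h1 : (X : Pt (W₀⁄F) Ω ⧸ KE) = 0 := (QuotientAddGroup.eq_zero_iff X).2 ((hKE X).2 hXk)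
      show (f 0).1 = (X : Pt (W₀⁄F) Ω ⧸ KE)
      rw [h1]
      rcases hf 0 with ⟨-, h2⟩ | ⟨a, b, h, X, hP, -⟩
      · exact h2
      · exact absurd hP.symm (Affine.Point.some_ne_zero _)
    · obtain ⟨a, b, hE, hx, hy⟩ := conv_pt W₀ hG v hv s hs hXk ((hKE _).1 hX)
      refine ⟨.some _ _ ((g9_nons W₀ v hΔ a b).2 hE), ?_⟩
      apply Subtype.ext
      show (f _).1 = _
      rcases hf (.some _ _ ((g9_nons W₀ v hΔ a b).2 hE)) with ⟨h2, -⟩ | ⟨a', b', h', X', hP', hc', hX', hx', hy'⟩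
      · exact absurd h2 (Affine.Point.some_ne_zero _)
      · rw [hc', QuotientAddGroup.eq, neg_add_eq_sub]
        rw [Affine.Point.some.injEq] at hP'
        rw [Valuation.map_sub_swap] at hx' hy'
        exact (hKE _).2 (MG.cong_ker hG hXk hX' (g9_tri (g9_tri hx ((b5_sub v hv a a').2 hP'.1)) hx')
          (g9_tri (g9_tri hy ((b5_sub v hv b b').2 hP'.2)) hy'))

/-- Chunk B5 (S). Transport along Θ: QuotientAddGroup.congr Kg KE Θ (Θ maps Kg onto KE: hK, hKE), the condition corresponds by hΘ; Nat.card_congr. -/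
theorem card_transport {A B : F} (W₀ : WeierstrassCurve (𝓞 F)) (s : Ω ≃ₐ[F] Ω) {KE : AddSubgroup (Pt (W₀⁄F) Ω)}
    (hKE : ∀ P, P ∈ KE ↔ Ker V P) {Kg : AddSubgroup (Pt (WAB A B) Ω)} (Θ : Pt (WAB A B) Ω ≃+ Pt (W₀⁄F) Ω)
    (hK : ∀ P, P ∈ Kg ↔ Ker V (Θ P)) (hΘ : ∀ P, Θ (ac (WAB A B) s P) = ac (W₀⁄F) s (Θ P)) :
    Nat.card {c : Pt (W₀⁄F) Ω ⧸ KE // ∃ X : Pt (W₀⁄F) Ω, (X : Pt (W₀⁄F) Ω ⧸ KE) = c ∧ ac (W₀⁄F) s X - X ∈ KE} =
      Nat.card {c : Pt (WAB A B) Ω ⧸ Kg // ∃ X : Pt (WAB A B) Ω, (X : Pt (WAB A B) Ω ⧸ Kg) = c ∧ ac (WAB A B) s X - X ∈ Kg} := by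
  have hmap : Kg.map (Θ : Pt (WAB A B) Ω →+ Pt (W₀⁄F) Ω) = KE := by
    ext P
    constructor
    · rintro ⟨Q, hQ, rfl⟩
      exact (hKE _).2 ((hK Q).1 hQ)
    · intro hP
      refine ⟨Θ.symm P, (hK _).2 ?_, ?_⟩
      · rw [Θ.apply_symm_apply]
        exact (hKE _).1 hP
      · exact Θ.apply_symm_apply P
  symm
  refine Nat.card_congr (Equiv.subtypeEquiv (QuotientAddGroup.congr Kg KE Θ hmap).toEquiv ?_)
  intro c
  constructor
  · rintro ⟨X, rfl, hX⟩
    refine ⟨Θ X, rfl, ?_⟩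
    rw [← hΘ, ← map_sub]
    exact (hKE _).2 ((hK _).1 hX)
  · rintro ⟨Y, hY, hYK⟩
    refine ⟨Θ.symm Y, ?_, ?_⟩
    · apply (QuotientAddGroup.congr Kg KE Θ hmap).injective
      change _ = (QuotientAddGroup.congr Kg KE Θ hmap) c at hY
      rw [← hY]
      show ((Θ (Θ.symm Y) : Pt (W₀⁄F) Ω) : Pt (W₀⁄F) Ω ⧸ KE) = _
      rw [Θ.apply_symm_apply]
    · rw [hK, map_sub, hΘ, Θ.apply_symm_apply]
      exact (hKE _).1 hYK

end H13D
end

-- from Lib.H13D.C4
section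

/-! # H13D, part C: the number of points -/

open NumberField IsDedekindDomain WeierstrassCurve

namespace H13D

open H55P (IQ embF eF LF Per IsHecke Pt ac Inert Dec Nm)
open H35P (WAB Ker tt GoodW IntW)
open H55K
open H55K.MG (VC Crd)

variable {F : Type} [Field F] [NumberField F] [IQ F] {A B : F} {Om : ℂ} {Ω : Type} [Field Ω] [DecidableEq Ω]
  [Algebra F Ω] {j : Ω →+* ℂ} {act : 𝓞 F →+* AddMonoid.End (Pt (WAB A B) Ω)} {V : ValuationSubring Ω}

/-- Chunk C4 (S/M). The good model at V. Θ from exists_model, good_model, KE from MG.kg_ex (M3B.lean) for the identity, Kg from MG.kg_ex for Θ; rm_of with u = 1; red_card' and card_transport for the last statement. -/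
theorem exists_rm [IsAlgClosed Ω] (W₀ : WeierstrassCurve (𝓞 F)) (hA : A = -(algebraMap (𝓞 F) F W₀.c₄) / 48)
    (hB : B = -(algebraMap (𝓞 F) F W₀.c₆) / 864) (v : HeightOneSpectrum (𝓞 F)) (hΔ : W₀.Δ ∉ v.asIdeal)
    (hv : ∀ a : 𝓞 F, a ∈ v.asIdeal → V.valuation (ak Ω a) < 1) :
    ∃ (Kg : AddSubgroup (Pt (WAB A B) Ω)) (Θ : Pt (WAB A B) Ω ≃+ Pt (W₀⁄F) Ω), (∀ P, P ∈ Kg ↔ Ker V (Θ P)) ∧
      GoodW ((W₀⁄F)⁄Ω) V ∧
      Crd 1 (algebraMap F Ω (algebraMap (𝓞 F) F W₀.b₂ / 12)) (algebraMap F Ω (algebraMap (𝓞 F) F W₀.a₁ / 2))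
        (algebraMap F Ω (algebraMap (𝓞 F) F W₀.a₃ / 2)) Θ ∧
      RM A B V Kg 1 (algebraMap F Ω (algebraMap (𝓞 F) F W₀.b₂ / 12)) ∧
      ∀ s : Ω ≃ₐ[F] Ω, Dec V s → (∀ x ∈ V, V.valuation (s x - x ^ Ideal.absNorm v.asIdeal) < 1) →
        Nat.card (W₀⁄(𝓞 F ⧸ v.asIdeal)).toAffine.Point =
          Nat.card {c : Pt (WAB A B) Ω ⧸ Kg // ∃ X : Pt (WAB A B) Ω, (X : Pt (WAB A B) Ω ⧸ Kg) = c ∧ ac (WAB A B) s X - X ∈ Kg} := by
  have hΔ0 : W₀.Δ ≠ 0 := by
    intro h0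
    rw [h0] at hΔ
    exact hΔ v.asIdeal.zero_mem
  obtain ⟨Θ, hC, hΘ⟩ := exists_model (Ω := Ω) W₀ hA hB hΔ0
  have hG : GoodW ((W₀⁄F)⁄Ω) V := good_model W₀ hΔ hv
  obtain ⟨KE, hKE⟩ := MG.kg_ex hG (AddEquiv.refl (Pt (W₀⁄F) Ω))
  obtain ⟨Kg, hKg⟩ := MG.kg_ex hG Θ
  refine ⟨Kg, Θ, hKg, hG, hC, rm_of hG one_ne_zero hC hKg, fun s hD hs => ?_⟩
  rw [red_card' W₀ v hΔ hv s hD hs hKE, card_transport W₀ s hKE Θ hKg (hΘ s)]

/-- Chunk C4 (S/M). cls_card' for b = γ - 1: V(γ - 1) = 1 because V(γ) < 1; act (γ - 1) X = (act γ X - ac s X) + (ac s X - X), so act (γ - 1) X in Kg iff ac s X - X in Kg; Nm (γ - 1) = Nm (1 - γ) (Nm (-x) = Nm x: Ideal.span_singleton_neg). See the end of the proof of H55K.dta_frob (G10C.lean). -/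
theorem card_gamma (h : CMA F A B Om j act) {Kg : AddSubgroup (Pt (WAB A B) Ω)} {u r : Ω} (hR : RM A B V Kg u r) (s : Ω ≃ₐ[F] Ω)
    {γ : 𝓞 F} (hγ : V.valuation (ak Ω γ) < 1) (hK : ∀ X : Pt (WAB A B) Ω, act γ X - ac (WAB A B) s X ∈ Kg) :
    Nat.card {c : Pt (WAB A B) Ω ⧸ Kg // ∃ X : Pt (WAB A B) Ω, (X : Pt (WAB A B) Ω ⧸ Kg) = c ∧ ac (WAB A B) s X - X ∈ Kg} =
      Nm (1 - γ) := by
  have hγ1 : V.valuation (ak Ω (γ - 1)) = 1 := by
    have e : ak Ω (γ - 1) = -(1 - ak Ω γ) := by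
      have e1 : ((γ - 1 : 𝓞 F) : F) = (γ : F) - 1 := by
        have := map_sub (algebraMap (𝓞 F) F) γ 1
        rw [map_one] at this
        exact this
      unfold ak
      rw [e1, map_sub, map_one]
      ring
    rw [e, Valuation.map_neg]
    have h1 := V.valuation.map_sub_eq_of_lt_right (x := ak Ω γ) (y := (1 : Ω)) (by rw [map_one]; exact hγ)
    rw [← h1.trans (map_one _)]
    exact Valuation.map_sub_swap _ _ _
  have hc2 := cls_card' h hR hγ1
  have hiff : ∀ X : Pt (WAB A B) Ω, ac (WAB A B) s X - X ∈ Kg ↔ act (γ - 1) X ∈ Kg := by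
    intro X
    have e : act (γ - 1) X = act γ X - X := by
      rw [map_sub, map_one]
      rfl
    rw [e]
    constructor
    · intro h1
      have e2 : act γ X - X = (act γ X - ac (WAB A B) s X) + (ac (WAB A B) s X - X) := by abel
      rw [e2]
      exact Kg.add_mem (hK X) h1
    · intro h1
      have e2 : ac (WAB A B) s X - X = (act γ X - X) - (act γ X - ac (WAB A B) s X) := by abel
      rw [e2]
      exact Kg.sub_mem h1 (hK X)
  simp only [hiff]
  rw [hc2]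
  unfold Nm
  rw [← Ideal.span_singleton_neg, neg_sub]

end H13D
end

-- from Lib.H28I.E0
section

/-! # H28I, part E: the good model of an equation over the integers -/

open NumberField IsDedekindDomain WeierstrassCurve

namespace H28I

open H55P (IQ embF eF LF Per IsHecke Pt ac Inert Dec Nm)
open H35P (WAB Ker tt GoodW IntW)
open H55K (xc yc)
open H13D
open H55K (CMA ak)

/-- Chunk E0 (S/M). H13D.exists_rm (C4.lean) for W₀ = W⁄(𝓞 F): the coefficients of W₀ are the images of the integers W.c₄, W.c₆, W.b₂ (map_c₄, map_c₆, map_b₂), so A = sA W F, B = sB W F and r = W.b₂/12 in Ω. -/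
theorem exists_rmZ {F : Type} [Field F] [NumberField F] [IQ F] {Ω : Type} [Field Ω] [DecidableEq Ω] [Algebra F Ω] [IsAlgClosed Ω]
    {V : ValuationSubring Ω} (W : WeierstrassCurve ℤ) (v : HeightOneSpectrum (𝓞 F)) (hΔ : (W⁄(𝓞 F)).Δ ∉ v.asIdeal)
    (hv : ∀ a : 𝓞 F, a ∈ v.asIdeal → V.valuation (ak Ω a) < 1) :
    ∃ Kg : AddSubgroup (Pt (WAB (sA W F) (sB W F)) Ω), RM (sA W F) (sB W F) V Kg 1 ((W.b₂ : Ω) / 12) ∧
      ∀ s : Ω ≃ₐ[F] Ω, Dec V s → (∀ x ∈ V, V.valuation (s x - x ^ Ideal.absNorm v.asIdeal) < 1) →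
        Nat.card ((W⁄(𝓞 F))⁄(𝓞 F ⧸ v.asIdeal)).toAffine.Point =
          Nat.card {c : Pt (WAB (sA W F) (sB W F)) Ω ⧸ Kg // ∃ X : Pt (WAB (sA W F) (sB W F)) Ω,
            (X : Pt (WAB (sA W F) (sB W F)) Ω ⧸ Kg) = c ∧ ac (WAB (sA W F) (sB W F)) s X - X ∈ Kg} := by
  have hA : sA W F = -(algebraMap (𝓞 F) F (W⁄(𝓞 F)).c₄) / 48 := by
    have h1 : (W⁄(𝓞 F)).c₄ = algebraMap ℤ (𝓞 F) W.c₄ := WeierstrassCurve.map_c₄ W _
    rw [h1, sA]
    simp
  have hB : sB W F = -(algebraMap (𝓞 F) F (W⁄(𝓞 F)).c₆) / 864 := by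
    have h1 : (W⁄(𝓞 F)).c₆ = algebraMap ℤ (𝓞 F) W.c₆ := WeierstrassCurve.map_c₆ W _
    rw [h1, sB]
    simp
  have hr : algebraMap F Ω (algebraMap (𝓞 F) F (W⁄(𝓞 F)).b₂ / 12) = (W.b₂ : Ω) / 12 := by
    have h1 : (W⁄(𝓞 F)).b₂ = algebraMap ℤ (𝓞 F) W.b₂ := WeierstrassCurve.map_b₂ W _
    have h2 : algebraMap F Ω 12 = 12 := map_ofNat _ 12
    rw [h1, map_div₀, h2]
    simp
  obtain ⟨Kg, Θ, _, _, _, hRM, hcard⟩ := exists_rm (Ω := Ω) (V := V) (W⁄(𝓞 F)) hA hB v hΔ hv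
  rw [hr] at hRM
  exact ⟨Kg, hRM, hcard⟩

end H28I
end

-- from Lib.H28I.E3
section

/-! # H28I, part E: finitely many classes are killed by b -/

open NumberField IsDedekindDomain WeierstrassCurve

namespace H28I

open H55P (IQ embF eF LF Per IsHecke Pt ac Inert Dec Nm)
open H35P (WAB Ker tt GoodW IntW)
open H55K (xc yc)
open H13D
open H55K (CMA ak)

variable {F : Type} [Field F] [NumberField F] [IQ F] {A B : F} {Om : ℂ} {Ω : Type} [Field Ω] [DecidableEq Ω]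
  [Algebra F Ω] {j : Ω →+* ℂ} {act : 𝓞 F →+* AddMonoid.End (Pt (WAB A B) Ω)} {V : ValuationSubring Ω}
  {Kg : AddSubgroup (Pt (WAB A B) Ω)} {u r : Ω}

/-- Chunk E3 (M). 𝓞 F is a principal ideal domain (IQ F; see t11a_prime in H55K/T11A.lean): UniqueFactorizationMonoid.induction_on_prime. Unit b: act b X in Kg implies X = act b⁻¹ (act b X) in Kg (act_mem): only the class 0. b = β b', β prime, β b' ≠ 0: if V(β) < 1 then act β (act b' X) in Kg implies act b' X in Kg (ker_red' in A5.lean),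
so the set for b is the set for b'. If V(β) = 1 (V(β) ≤ 1: H55K.ak_le): the class map X ↦ act b' X (act b' maps Kg to Kg: act_mem) sends the set for b to the set for β, which is finite (cls_card' in A6.lean: Nm β ≠ 0 elements; Nat.finite_of_card_ne_zero), and two classes with the same image differ by an element of the set for b':
finite fibres (Set.Finite.preimage' or Set.Finite.of_finite_fibers). -/
theorem fin_tor (h : CMA F A B Om j act) (hR : RM A B V Kg u r) {b : 𝓞 F} (hb : b ≠ 0) :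
    {c : Pt (WAB A B) Ω ⧸ Kg | ∃ X : Pt (WAB A B) Ω, (X : Pt (WAB A B) Ω ⧸ Kg) = c ∧ act b X ∈ Kg}.Finite := by
  have hmul : ∀ (a b : 𝓞 F) (Q : Pt (WAB A B) Ω), act (a * b) Q = act a (act b Q) := by
    intro a b Q
    rw [map_mul]
    rfl
  induction b using UniqueFactorizationMonoid.induction_on_prime with
  | h₁ => exact absurd rfl hb
  | h₂ b hu =>
    obtain ⟨y, hy⟩ := hu.exists_left_inv
    refine (Set.finite_singleton (0 : Pt (WAB A B) Ω ⧸ Kg)).subset ?_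
    rintro c ⟨X, rfl, hX⟩
    have h1 := act_mem h hR y hX
    rw [← hmul, hy, map_one] at h1
    have h2 : X ∈ Kg := h1
    exact (QuotientAddGroup.eq_zero_iff X).2 h2
  | h₃ b' β hb' hβ ih =>
    have ih' := ih hb'
    rcases (H55K.ak_le V β).lt_or_eq with hv | hv
    · refine ih'.subset ?_
      rintro c ⟨X, rfl, hX⟩
      rw [hmul] at hX
      exact ⟨X, rfl, ker_red' h hR hβ hv hX⟩
    · have hfin : {c : Pt (WAB A B) Ω ⧸ Kg | ∃ X : Pt (WAB A B) Ω, (X : Pt (WAB A B) Ω ⧸ Kg) = c ∧ act β X ∈ Kg}.Finite := by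
        have h1 := cls_card' h hR hv
        have h2 : Nm β ≠ 0 := fun h3 => hβ.ne_zero (H55P.Nm_eq_zero.1 h3)
        exact Set.finite_coe_iff.1 (Nat.finite_of_card_ne_zero (by rw [← h1] at h2; exact h2))
      set g : Pt (WAB A B) Ω ⧸ Kg →+ Pt (WAB A B) Ω ⧸ Kg :=
        QuotientAddGroup.map Kg Kg (act b') (fun X hX => act_mem h hR b' hX) with hg
      have eg : ∀ X : Pt (WAB A B) Ω, g (X : Pt (WAB A B) Ω ⧸ Kg) = ((act b' X : Pt (WAB A B) Ω) : Pt (WAB A B) Ω ⧸ Kg) :=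
        fun X => rfl
      refine (Set.Finite.preimage' (f := g) hfin ?_).subset ?_
      · intro d _
        by_cases hne : (g ⁻¹' {d}).Nonempty
        · obtain ⟨c0, hc0⟩ := hne
          have hc0' : g c0 = d := hc0
          refine (ih'.image (fun c => c + c0)).subset ?_
          intro c hc
          have hc' : g c = d := hc
          obtain ⟨X, hX⟩ := QuotientAddGroup.mk_surjective (c - c0)
          refine ⟨c - c0, ⟨X, hX, ?_⟩, sub_add_cancel c c0⟩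
          have h3 : g (c - c0) = 0 := by rw [map_sub, hc', hc0', sub_self]
          rw [← hX, eg] at h3
          exact (QuotientAddGroup.eq_zero_iff _).1 h3
        · rw [Set.not_nonempty_iff_eq_empty.1 hne]
          exact Set.finite_empty
      · rintro c ⟨X, rfl, hX⟩
        rw [hmul] at hX
        exact ⟨act b' X, rfl, hX⟩

/-- Chunk E3 (S). fin_tor for b = n: act (n : 𝓞 F) X = n • X (H55K.cu_nat). -/
theorem fin_nsmul (h : CMA F A B Om j act) (hR : RM A B V Kg u r) {n : ℕ} (hn : 0 < n) :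
    {c : Pt (WAB A B) Ω ⧸ Kg | n • c = 0}.Finite := by
  have hn0 : (n : 𝓞 F) ≠ 0 := by exact_mod_cast hn.ne'
  refine (fin_tor h hR hn0).subset ?_
  intro c hc
  obtain ⟨X, rfl⟩ := QuotientAddGroup.mk_surjective c
  refine ⟨X, rfl, ?_⟩
  have h1 : n • (X : Pt (WAB A B) Ω ⧸ Kg) = 0 := hc
  rw [← QuotientAddGroup.mk_nsmul] at h1
  have h2 : act (n : 𝓞 F) X = n • X := by rw [map_natCast]; rfl
  rw [h2]
  exact (QuotientAddGroup.eq_zero_iff _).1 h1

/-- Chunk E3 (S). h.surj for b = n. -/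
theorem nsmul_surj (h : CMA F A B Om j act) {n : ℕ} (hn : 0 < n) (X : Pt (WAB A B) Ω) : ∃ Y, n • Y = X := by
  have hn0 : (n : 𝓞 F) ≠ 0 := by exact_mod_cast hn.ne'
  obtain ⟨Y, hY⟩ := h.surj (n : 𝓞 F) hn0 X
  refine ⟨Y, ?_⟩
  rw [map_natCast] at hY
  exact hY

end H28I
end

-- from Lib.H13D.E3
section

/-! # H13D, part E: the action on the elements Yel and Zel -/

open NumberField IsDedekindDomain WeierstrassCurve

namespace H13D

open H55P (IQ embF eF LF Per IsHecke Pt ac Inert Dec Nm)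
open H35P (WAB Ker tt GoodW IntW)
open H55K

variable {F : Type} [Field F] [NumberField F] [IQ F] {A B : F} {Ω : Type} [Field Ω] [DecidableEq Ω] [Algebra F Ω] {D : ℕ}

theorem e3_per {M : Type} [AddCommGroup M] {T₀ : M} (hT : D • T₀ = 0) {i j : ℤ} (h : (D : ℤ) ∣ i - j) : i • T₀ = j • T₀ := by
  obtain ⟨k, hk⟩ := h
  have h1 : i = j + D * k := by linarith
  rw [h1, add_zsmul, mul_comm, mul_zsmul, natCast_zsmul, hT, smul_zero, add_zero]

/-- Chunk E3 (S/M). s (yc (i • T₀)) = yc (acr s (i • T₀)) = yc ((a i) • T₀) (yc_acr, map_nsmul). prod_odd for g i = 2 * yc (i • T₀) (i an integer; hper from D • T₀ = 0; hodd: yc (-P) = -yc P: H55K.yc_neg). -/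
theorem Yel_acr (hD : D.Prime) (h4 : D % 4 = 3) (s : Ω ≃+* Ω) (hA : s (algebraMap F Ω A) = algebraMap F Ω A)
    (hB : s (algebraMap F Ω B) = algebraMap F Ω B) {T₀ : Pt (WAB A B) Ω} (hT : D • T₀ = 0) {a : ℤ} (hDa : ¬ (D : ℤ) ∣ a)
    (ha : acr s hA hB T₀ = a • T₀) : s (Yel D T₀) = ((jacobiSym a D : ℤ) : Ω) * Yel D T₀ := by
  have h1 := prod_odd hD h4 (fun i : ℤ => 2 * yc (i • T₀)) (fun i j hij => by
    show 2 * yc (i • T₀) = 2 * yc (j • T₀)
    rw [e3_per hT hij]) (fun i => by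
    show 2 * yc ((-i) • T₀) = -(2 * yc (i • T₀))
    rw [neg_zsmul, yc_neg, mul_neg]) hDa
  have h2 : Yel D T₀ = ∏ i ∈ QR D, 2 * yc ((i : ℤ) • T₀) := by
    unfold Yel
    refine Finset.prod_congr rfl fun i _ => ?_
    rw [natCast_zsmul]
  rw [h2, ← h1, map_prod]
  refine Finset.prod_congr rfl fun i _ => ?_
  have h3 : acr s hA hB ((i : ℤ) • T₀) = (a * (i : ℤ)) • T₀ := by
    rw [map_zsmul, ha, ← mul_zsmul, mul_comm]
  show s (2 * yc ((i : ℤ) • T₀)) = 2 * yc ((a * (i : ℤ)) • T₀)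
  rw [← h3, yc_acr, map_mul, map_ofNat]

/-- Chunk E3 (S/M). The same for an automorphism over F: xc_ac, yc_ac (E0.lean) or acr_eq_ac. -/
theorem Yel_ac (hD : D.Prime) (h4 : D % 4 = 3) (s : Ω ≃ₐ[F] Ω) {T₀ : Pt (WAB A B) Ω} (hT : D • T₀ = 0) {a : ℤ} (hDa : ¬ (D : ℤ) ∣ a)
    (ha : ac (WAB A B) s T₀ = a • T₀) : s (Yel D T₀) = ((jacobiSym a D : ℤ) : Ω) * Yel D T₀ := by
  have hA : (s : Ω ≃+* Ω) (algebraMap F Ω A) = algebraMap F Ω A := s.commutes A
  have hB : (s : Ω ≃+* Ω) (algebraMap F Ω B) = algebraMap F Ω B := s.commutes B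
  exact Yel_acr hD h4 (s : Ω ≃+* Ω) hA hB hT hDa (by rw [acr_eq_ac, ha])

/-- Chunk E3 (S/M). prod_even for g i = c₁ * (xc (i • T₀) - ρ) + c₃ (xc (-P) = xc P). -/
theorem Zel_acr (hD : D.Prime) (h4 : D % 4 = 3) (s : Ω ≃+* Ω) (hA : s (algebraMap F Ω A) = algebraMap F Ω A)
    (hB : s (algebraMap F Ω B) = algebraMap F Ω B) {T₀ : Pt (WAB A B) Ω} (hT : D • T₀ = 0) {a : ℤ} (hDa : ¬ (D : ℤ) ∣ a)
    (ha : acr s hA hB T₀ = a • T₀) {c₁ ρ c₃ : Ω} (h1 : s c₁ = c₁) (h2 : s ρ = ρ) (h3 : s c₃ = c₃) :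
    s (Zel D T₀ c₁ ρ c₃) = Zel D T₀ c₁ ρ c₃ := by
  have h5 := prod_even hD h4 (fun i : ℤ => c₁ * (xc (i • T₀) - ρ) + c₃) (fun i j hij => by
    show c₁ * (xc (i • T₀) - ρ) + c₃ = c₁ * (xc (j • T₀) - ρ) + c₃
    rw [e3_per hT hij]) (fun i => by
    show c₁ * (xc ((-i) • T₀) - ρ) + c₃ = c₁ * (xc (i • T₀) - ρ) + c₃
    rw [neg_zsmul, xc_neg]) hDa
  have h6 : Zel D T₀ c₁ ρ c₃ = ∏ i ∈ QR D, (c₁ * (xc ((i : ℤ) • T₀) - ρ) + c₃) := by
    unfold Zel
    refine Finset.prod_congr rfl fun i _ => ?_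
    rw [natCast_zsmul]
  have h7 : ∀ i ∈ QR D, s (c₁ * (xc ((i : ℤ) • T₀) - ρ) + c₃) = c₁ * (xc ((a * (i : ℤ)) • T₀) - ρ) + c₃ := by
    intro i _
    have h8 : acr s hA hB ((i : ℤ) • T₀) = (a * (i : ℤ)) • T₀ := by
      rw [map_zsmul, ha, ← mul_zsmul, mul_comm]
    rw [← h8, xc_acr, map_add, map_mul, map_sub, h1, h2, h3]
  rw [h6, map_prod, Finset.prod_congr rfl h7]
  exact h5

end H13D
end

-- from Lib.H55W.Z0
section

/-! # H55W, part Z: Deuring's theorem from the local and the arithmetic parts -/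

open NumberField IsDedekindDomain WeierstrassCurve

namespace H55W

open H55P (IQ embF eF LF Per IsHecke Pt ac Inert Dec Nm)
open H35P (WAB Ker tt GoodW IntW)
open H55K H55K.TQ
open H55K.TQ (BaseH)
open H13D (RM exists_rm card_gamma)

theorem z0_disc {F : Type} [Field F] [NumberField F] (W : WeierstrassCurve ℤ) : (W⁄(𝓞 F)).Δ = ((W.Δ : ℤ) : 𝓞 F) := by
  have := W.map_Δ (algebraMap ℤ (𝓞 F))
  exact this.trans (by simp)

theorem z0_span {F : Type} [Field F] [NumberField F] (D : ℤ) :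
    Ideal.span {((D.natAbs : ℕ) : 𝓞 F) ^ 3} = Ideal.span {((D : ℤ) : 𝓞 F) ^ 3} := by
  rcases Int.natAbs_eq D with h1 | h1
  · conv_rhs => rw [h1, Int.cast_natCast]
  · conv_rhs => rw [h1, Int.cast_neg, Int.cast_natCast, Odd.neg_pow (by decide)]
    rw [Ideal.span_singleton_neg]

theorem base_gen {F : Type} [Field F] [NumberField F] [IQ F] (W : WeierstrassCurve ℤ) (Om : ℂ)
    (hΔ : W.Δ ≠ 0) (hper : Per F (-(eF F (W⁄(𝓞 F)).c₄) / 48) (-(eF F (W⁄(𝓞 F)).c₆) / 864) Om)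
    (hbad : ∀ v : HeightOneSpectrum (𝓞 F), (W⁄(𝓞 F)).Δ ∈ v.asIdeal → ¬ GoodAt ((W⁄(𝓞 F))⁄F) v)
    {f : 𝓞 F → 𝓞 F} (hf : HF (Ideal.span {((W.Δ : ℤ) : 𝓞 F) ^ 3}) f) (hnu : ¬ IsUnit ((W.Δ : ℤ) : 𝓞 F))
    (hloc : ∀ (Ω : Type) [Field Ω] [DecidableEq Ω] [Algebra F Ω] [IsAlgClosed Ω] (A B : F) (j : Ω →+* ℂ)
      (act : 𝓞 F →+* AddMonoid.End (Pt (WAB A B) Ω)), A = -(algebraMap (𝓞 F) F (W⁄(𝓞 F)).c₄) / 48 →
      B = -(algebraMap (𝓞 F) F (W⁄(𝓞 F)).c₆) / 864 → CMA F A B Om j act →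
      ∀ (v : HeightOneSpectrum (𝓞 F)) (V : ValuationSubring Ω) (s : Ω ≃ₐ[F] Ω) (Kg : AddSubgroup (Pt (WAB A B) Ω)) (r : Ω),
        (W⁄(𝓞 F)).Δ ∉ v.asIdeal → LD v V s Kg r →
        ∃ γ : 𝓞 F, Ideal.span {γ} = v.asIdeal ∧ f γ = 1 ∧ ∀ X : Pt (WAB A B) Ω, act γ X - ac (WAB A B) s X ∈ Kg) :
    ∃ ψ : Ideal (𝓞 F) →*₀ 𝓞 F, BaseH F (W⁄(𝓞 F)) Om (Ideal.span {((W.Δ.natAbs : ℕ) : 𝓞 F) ^ 3}) ψ := by
  classical
  have hΔF := z0_disc (F := F) W
  have hD0 : ((W.Δ : ℤ) : 𝓞 F) ≠ 0 := by exact_mod_cast hΔ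
  have hΔ0 : (W⁄(𝓞 F)).Δ ≠ 0 := by rw [hΔF]; exact hD0
  rw [z0_span]
  set M := Ideal.span {((W.Δ : ℤ) : 𝓞 F) ^ 3} with hM
  have hM0 : M ≠ ⊥ := by
    rw [hM, Ne, Ideal.span_singleton_eq_bot]
    exact pow_ne_zero 3 hD0
  have hM1 : M ≠ ⊤ := by
    rw [hM, Ne, Ideal.span_singleton_eq_top]
    exact fun h => hnu (isUnit_of_dvd_unit (dvd_pow_self _ three_ne_zero) h)
  obtain ⟨ψ, hψ, hval⟩ := exists_hecke M hM0 hM1 f hf.un hf.mul hf.inv hf.per
  have hsupp : ∀ v : HeightOneSpectrum (𝓞 F), (W⁄(𝓞 F)).Δ ∈ v.asIdeal ↔ M ≤ v.asIdeal := by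
    intro v
    rw [hΔF, hM, Ideal.span_singleton_le_iff_mem]
    exact ⟨fun h1 => Ideal.pow_mem_of_mem _ h1 3 (by norm_num), fun h1 => v.isPrime.mem_of_pow_mem 3 h1⟩
  -- the analytic data
  obtain ⟨A, hA⟩ : ∃ A : F, A = -(algebraMap (𝓞 F) F (W⁄(𝓞 F)).c₄) / 48 := ⟨_, rfl⟩
  obtain ⟨B, hB⟩ : ∃ B : F, B = -(algebraMap (𝓞 F) F (W⁄(𝓞 F)).c₆) / 864 := ⟨_, rfl⟩
  have hdisc := y3_ne (W⁄(𝓞 F)) hA hB hΔ0
  have hper' : Per F (embF F A) (embF F B) Om := by
    have e1 : embF F A = -(eF F (W⁄(𝓞 F)).c₄) / 48 := by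
      rw [hA, map_div₀, map_neg, map_ofNat]
      rfl
    have e2 : embF F B = -(eF F (W⁄(𝓞 F)).c₆) / 864 := by
      rw [hB, map_div₀, map_neg, map_ofNat]
      rfl
    rw [e1, e2]
    exact hper
  set Ω := AlgebraicClosure F with hΩ
  obtain ⟨j, hj⟩ := exists_j F Ω
  obtain ⟨act, h⟩ := exists_CMA F A B Om j hdisc hper' hj
  refine ⟨ψ, ⟨⟨hΔ0, hper, hψ⟩, ?_, hsupp, hbad⟩⟩
  intro v hv
  obtain ⟨V, hV⟩ := exists_abw Ω v
  have hVv : ∀ a : 𝓞 F, a ∈ v.asIdeal → V.valuation (ak Ω a) < 1 := by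
    intro a ha
    rw [hV.lt]
    exact (v.valuation_lt_one_iff_mem _).2 ha
  obtain ⟨s, hDec, hs⟩ := H13S.exists_frob v V hVv
  obtain ⟨Kg, Θ, -, -, -, hRM, hcard⟩ := exists_rm (W⁄(𝓞 F)) hA hB v hv hVv
  have hL : LD v V s Kg (algebraMap F Ω (algebraMap (𝓞 F) F (W⁄(𝓞 F)).b₂ / 12)) :=
    ⟨hRM, s.commutes _, hVv, fun a ha => rf_one hV ha, hDec, hs⟩
  obtain ⟨γ, hγ, hfγ, hX⟩ := hloc Ω A B j act hA hB h v V s Kg _ hv hL
  have hcop : IsCoprime (Ideal.span {γ}) M := by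
    rw [hγ, Ideal.isCoprime_iff_sup_eq]
    by_contra hne
    have h1 := v.isMaximal.eq_of_le hne le_sup_left
    exact hv ((hsupp v).2 (by rw [h1]; exact le_sup_right))
  have e4 : ψ v.asIdeal = γ := by
    rw [← hγ, hval γ hcop, hfγ, one_mul]
  have hγv : γ ∈ v.asIdeal := by
    rw [← hγ]
    exact Ideal.mem_span_singleton_self γ
  rw [e4, hcard s hDec hs]
  exact card_gamma h hRM s (hVv γ hγv) hX

end H55W
end

-- from Lib.H55W.Z1
section

/-! # H55W, part Z: preparations for the assembly -/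

open NumberField IsDedekindDomain WeierstrassCurve

namespace H55W

open H55P (IQ embF eF LF Per IsHecke Pt ac Inert Dec Nm)
open H35P (WAB Ker tt GoodW IntW)
open H55K H55K.TQ
open H55K.TQ (BaseH)

theorem z1_c4 {F : Type} [Field F] [NumberField F] (W : WeierstrassCurve ℤ) :
    algebraMap (𝓞 F) F (W⁄(𝓞 F)).c₄ = ((W.c₄ : ℤ) : F) := by
  have := W.map_c₄ (algebraMap ℤ (𝓞 F))
  have e : (W⁄(𝓞 F)).c₄ = ((W.c₄ : ℤ) : 𝓞 F) := this.trans (by simp)
  rw [e, map_intCast]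

theorem z1_c6 {F : Type} [Field F] [NumberField F] (W : WeierstrassCurve ℤ) :
    algebraMap (𝓞 F) F (W⁄(𝓞 F)).c₆ = ((W.c₆ : ℤ) : F) := by
  have := W.map_c₆ (algebraMap ℤ (𝓞 F))
  have e : (W⁄(𝓞 F)).c₆ = ((W.c₆ : ℤ) : 𝓞 F) := this.trans (by simp)
  rw [e, map_intCast]

theorem z1_cma {F : Type} [Field F] [NumberField F] [IQ F] (W : WeierstrassCurve ℤ) (Om : ℂ)
    (hΔ : W.Δ ≠ 0) (hper : Per F (-(eF F (W⁄(𝓞 F)).c₄) / 48) (-(eF F (W⁄(𝓞 F)).c₆) / 864) Om) {A B : F}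
    (hA : A = -(algebraMap (𝓞 F) F (W⁄(𝓞 F)).c₄) / 48) (hB : B = -(algebraMap (𝓞 F) F (W⁄(𝓞 F)).c₆) / 864)
    [DecidableEq (AlgebraicClosure F)] : ∃ (j : AlgebraicClosure F →+* ℂ)
      (act : 𝓞 F →+* AddMonoid.End (Pt (WAB A B) (AlgebraicClosure F))), CMA F A B Om j act := by
  have hΔF := z0_disc (F := F) W
  have hD0 : ((W.Δ : ℤ) : 𝓞 F) ≠ 0 := by exact_mod_cast hΔ
  have hΔ0 : (W⁄(𝓞 F)).Δ ≠ 0 := by rw [hΔF]; exact hD0
  have hdisc := y3_ne (W⁄(𝓞 F)) hA hB hΔ0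
  have hper' : Per F (embF F A) (embF F B) Om := by
    have e1 : embF F A = -(eF F (W⁄(𝓞 F)).c₄) / 48 := by
      rw [hA, map_div₀, map_neg, map_ofNat]
      rfl
    have e2 : embF F B = -(eF F (W⁄(𝓞 F)).c₆) / 864 := by
      rw [hB, map_div₀, map_neg, map_ofNat]
      rfl
    rw [e1, e2]
    exact hper
  obtain ⟨j, hj⟩ := exists_j F (AlgebraicClosure F)
  obtain ⟨act, h⟩ := exists_CMA F A B Om j hdisc hper' hj
  exact ⟨j, act, h⟩

/-- a prime generator -/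
theorem z1_prime {F : Type} [Field F] [NumberField F] {v : HeightOneSpectrum (𝓞 F)} {γ : 𝓞 F} (h : Ideal.span {γ} = v.asIdeal) :
    Prime γ ∧ (∀ a : 𝓞 F, γ ∣ a ↔ a ∈ v.asIdeal) ∧ Nm γ = Ideal.absNorm v.asIdeal := by
  have h0 : γ ≠ 0 := by
    rintro rfl
    apply v.ne_bot
    rw [← h]
    exact Ideal.span_singleton_eq_bot.2 rfl
  refine ⟨(Ideal.span_singleton_prime h0).1 (h ▸ v.isPrime), fun a => ?_, ?_⟩
  · rw [← h, Ideal.mem_span_singleton]
  · unfold Nm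
    rw [h]

end H55W
end

-- from Lib.H55W.L8G
section

/-! # H55W, part L: the Frobenius element, discriminant -8 -/

open NumberField IsDedekindDomain WeierstrassCurve

namespace H55W

open H55P (IQ embF eF LF Per IsHecke Pt ac Inert Dec Nm)
open H35P (WAB Ker tt GoodW IntW)
open H55K
open H13D (RM)

variable {F : Type} [Field F] [NumberField F] [IQ F] {φ : 𝓞 F} {A B : F} {Om : ℂ} {Ω : Type} [Field Ω] [DecidableEq Ω]
  [Algebra F Ω] {j : Ω →+* ℂ} {act : 𝓞 F →+* AddMonoid.End (Pt (WAB A B) Ω)} {V : ValuationSubring Ω}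
  {Kg : AddSubgroup (Pt (WAB A B) Ω)} {v : HeightOneSpectrum (𝓞 F)} {s : Ω ≃ₐ[F] Ω} {r : Ω}

theorem l8g_sq (h2 : V.valuation (2 : Ω) = 1) {w : Ω} (hw : V.valuation (w - 1) < 1) : V.valuation (w ^ 2 - 1) < 1 ∧ (w ^ 2 = 1 → w = 1) := by
  have h3 : V.valuation (w + 1) ≤ 1 := by
    have e : w + 1 = (w - 1) + 2 := by ring
    rw [e]
    exact (Valuation.map_add _ _ _).trans (max_le hw.le h2.le)
  refine ⟨?_, fun h => ?_⟩
  · have e : w ^ 2 - 1 = (w - 1) * (w + 1) := by ring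
    rw [e, map_mul]
    exact mul_lt_one_of_lt_of_le hw h3
  · have h4 : (w - 1) * (w + 1) = 0 := by
      linear_combination h
    rcases mul_eq_zero.1 h4 with h5 | h5
    · exact sub_eq_zero.1 h5
    · exfalso
      have e : w - 1 = -2 := by linear_combination h5
      rw [e, Valuation.map_neg, h2] at hw
      exact lt_irrefl _ hw

/-- Chunk L8G (S). s ζ = ζ^N: s ζ and ζ^N are roots of X^8 + 1 or X^16 - 1, congruent at V, V(2) = 1: two 16th roots of unity z, z' with V(z - z') < 1 are equal: w = z/z', w^16 = 1, V(w - 1) < 1; if w ≠ 1 then some power w^(2^k) = -1 (16 = 2^4), and V(-1 - 1) < 1: contradiction. -/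
theorem frob_zeta (hL : LD v V s Kg r) (h2 : (2 : 𝓞 F) ∉ v.asIdeal) {ζ : Ω} (hζ : ζ ^ 8 = -1) : s ζ = ζ ^ Ideal.absNorm v.asIdeal := by
  have hV2 : V.valuation (2 : Ω) = 1 := by
    have h3 := hL.eq 2 h2
    have e : ak Ω (2 : 𝓞 F) = (2 : Ω) := by
      show algebraMap F Ω (algebraMap (𝓞 F) F 2) = 2
      rw [map_ofNat, map_ofNat]
    rwa [e] at h3
  have hζ16 : ζ ^ 16 = 1 := by
    have : ζ ^ 16 = (ζ ^ 8) ^ 2 := by ring
    rw [this, hζ]
    norm_num
  have hVζ : V.valuation ζ = 1 := by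
    have h3 := congrArg V.valuation hζ16
    rw [map_pow, map_one] at h3
    exact (pow_eq_one_iff_of_nonneg zero_le (by norm_num)).1 h3
  have hζV : ζ ∈ V := (V.valuation_le_one_iff ζ).1 hVζ.le
  have hf := hL.frob ζ hζV
  set N := Ideal.absNorm v.asIdeal with hN
  have hζ0 : ζ ≠ 0 := by
    intro h
    rw [h, map_zero] at hVζ
    exact zero_ne_one hVζ
  have hζN : ζ ^ N ≠ 0 := pow_ne_zero _ hζ0
  have hw : V.valuation (s ζ / ζ ^ N - 1) < 1 := by
    have e : s ζ / ζ ^ N - 1 = (s ζ - ζ ^ N) / ζ ^ N := by field_simp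
    rw [e, map_div₀, map_pow, hVζ, one_pow, div_one]
    exact hf
  have hw16 : (s ζ / ζ ^ N) ^ 16 = 1 := by
    rw [div_pow, ← map_pow, hζ16, map_one, ← pow_mul, mul_comm, pow_mul, hζ16, one_pow, div_one]
  set w := s ζ / ζ ^ N with hwdef
  obtain ⟨a1, b1⟩ := l8g_sq hV2 hw
  obtain ⟨a2, b2⟩ := l8g_sq hV2 a1
  obtain ⟨a3, b3⟩ := l8g_sq hV2 a2
  obtain ⟨a4, b4⟩ := l8g_sq hV2 a3
  have h5 : w = 1 := b1 (b2 (b3 (b4 (by
    have e : (((w ^ 2) ^ 2) ^ 2) ^ 2 = w ^ 16 := by ring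
    rw [e, hw16]))))
  rw [hwdef, div_eq_one_iff_eq hζN] at h5
  exact h5

theorem l8g_pm {T P : Pt (WAB A B) Ω} {κ η : 𝓞 F} (hκ : act κ T = P) (hP : P ≠ 0) (hT : T ≠ 0) (hη : η = 1 ∨ η = -1)
    (s : Ω ≃ₐ[F] Ω) (hx : s (xc T) = xc P) (hy : s (yc T) = ak Ω η * yc P) : ac (WAB A B) s T = act (η * κ) T := by
  have h1 : act (η * κ) T = act η P := by
    rw [map_mul, ← hκ]
    rfl
  have hac : ac (WAB A B) s T ≠ 0 := ac_ne (WAB A B) s hT
  rw [h1]
  rcases hη with rfl | rfl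
  · have h2 : act 1 P = P := by
      rw [map_one]
      rfl
    have h3 : ak Ω (1 : 𝓞 F) = 1 := by
      show algebraMap F Ω (algebraMap (𝓞 F) F 1) = 1
      rw [map_one, map_one]
    rw [h3, one_mul] at hy
    rw [h2]
    refine pt_ext hac hP ?_ ?_
    · rw [xc_ac, hx]
    · rw [yc_ac, hy]
  · have h2 : act (-1) P = -P := by
      rw [map_neg, map_one]
      rfl
    have h3 : ak Ω (-1 : 𝓞 F) = -1 := by
      show algebraMap F Ω (algebraMap (𝓞 F) F (-1)) = -1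
      rw [map_neg, map_one, map_neg, map_one]
    rw [h3] at hy
    rw [h2]
    refine pt_ext hac (neg_ne_zero.2 hP) ?_ ?_
    · rw [xc_ac, hx, xc_neg]
    · rw [yc_ac, hy, yc_neg]
      ring

/-- Chunk L8G (M). Computation with the coordinates: σ = ζ^2 - ζ^6, δ = 4 yc T/(n (ζ + ζ^(-1))), ζ^(-1) = -ζ^7, (ζ - ζ^7)^2 = 2 + σ ≠ 0 (σ^2 = 2), so δ^2 = n and yc T = n δ (ζ - ζ^7)/4. s δ = η δ, η = 1 or -1 (δ^2 = n). s ζ = ζ^N, N mod 16 in {1, 3, 9, 11}; ζ^8 = -1. The point ac s T has the coordinates n/3 + n s(σ)/4, n η δ (s ζ - (s ζ)^7)/4 (xc_ac, yc_ac).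
N = 1: (ζ, σ ↦ σ): ac s T = act η T. N = 9: ζ ↦ -ζ: ac s T = act (-η) T. N = 3: σ ↦ -σ, ζ - ζ^7 ↦ ζ^3 - ζ^21 = ζ^3 - ζ^5·ζ^16.. = ζ^3 - ζ^5, and (σ - 1)(ζ - ζ^7) = ζ^3 - ζ^5: ac s T = act (-η (1 + φ)) T (tg_add). N = 11: ζ^11 - ζ^77 = -(ζ^3 - ζ^5): ac s T = act (η (1 + φ)) T. Compare the coordinates: H55K.pt_ext, yc_neg, xc_neg; act (-1) = neg.
So ac s T = act (η kap N) T with η = 1 or -1 in 𝓞 F. -/
theorem zeta_act (h : CMA F A B Om j act) (hφ : TI φ) {n : ℤ} {T : Pt (WAB A B) Ω} (hT : TG act φ T) {ζ : Ω} (hζ : ζ ^ 8 = -1)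
    (hn : (n : Ω) ≠ 0) (hx : xc T = (n : Ω) / 3 + n * (ζ ^ 2 - ζ ^ 6) / 4) (hy : 16 * yc T ^ 2 = n ^ 3 * (2 + (ζ ^ 2 - ζ ^ 6)))
    (hx' : xc (act (1 + φ) T) = (n : Ω) / 3 - n * (ζ ^ 2 - ζ ^ 6) / 4) (hy' : yc (act (1 + φ) T) = -((ζ ^ 2 - ζ ^ 6) - 1) * yc T)
    (s : Ω ≃ₐ[F] Ω) {N : ℕ} (hN : NR N) (hs : s ζ = ζ ^ N) :
    ∃ (δ : Ω) (η : 𝓞 F), δ ^ 2 = (n : Ω) ∧ (η = 1 ∨ η = -1) ∧ s δ = ak Ω η * δ ∧ ac (WAB A B) s T = act (η * kap φ N) T := by
  have h2 : (2 : Ω) ≠ 0 := by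
    have := (map_ne_zero (algebraMap F Ω)).2 (two_ne_zero (α := F))
    rwa [map_ofNat] at this
  have h4 : (4 : Ω) ≠ 0 := by
    have e : (4 : Ω) = 2 * 2 := by norm_num
    rw [e]
    exact mul_ne_zero h2 h2
  have h16 : (16 : Ω) ≠ 0 := by
    have e : (16 : Ω) = 4 * 4 := by norm_num
    rw [e]
    exact mul_ne_zero h4 h4
  set σ : Ω := ζ ^ 2 - ζ ^ 6 with hσ
  set u : Ω := ζ - ζ ^ 7 with hu
  have hσ2 : σ ^ 2 = 2 := by
    rw [hσ]
    linear_combination (ζ ^ 4 - 2) * hζ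
  have hu2 : u ^ 2 = 2 + σ := by
    rw [hu, hσ]
    linear_combination (ζ ^ 6 - 2) * hζ
  have hσ' : 2 + σ ≠ 0 := by
    intro h0
    apply h2
    linear_combination (2 - σ) * h0 + hσ2
  have hσ1 : σ - 1 ≠ 0 := by
    intro h0
    have h1 : (1 : Ω) = 0 := by linear_combination (σ + 1) * h0 - hσ2
    exact one_ne_zero h1
  have hu0 : u ≠ 0 := by
    intro h0
    rw [h0] at hu2
    exact hσ' (by rw [← hu2]; ring)
  have hy0 : yc T ≠ 0 := by
    intro h0
    rw [h0] at hy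
    have h1 : (n : Ω) ^ 3 * (2 + σ) ≠ 0 := mul_ne_zero (pow_ne_zero 3 hn) hσ'
    exact h1 (by rw [← hy]; ring)
  have hyz : yc (0 : Pt (WAB A B) Ω) = 0 := rfl
  have hT0 : T ≠ 0 := by
    intro h0
    rw [h0] at hy0
    exact hy0 hyz
  have hT1 : act (1 + φ) T ≠ 0 := by
    intro h0
    rw [h0, hyz] at hy'
    exact mul_ne_zero (neg_ne_zero.2 hσ1) hy0 hy'.symm
  set δ : Ω := 4 * yc T / (n * u) with hδ
  have hδ2 : δ ^ 2 = (n : Ω) := by
    rw [hδ, div_pow, mul_pow, mul_pow, hu2, div_eq_iff (mul_ne_zero (pow_ne_zero 2 hn) hσ')]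
    linear_combination hy
  have hyδ : yc T = n * δ * u / 4 := by
    rw [hδ]
    field_simp
  have hsn : s (n : Ω) = n := map_intCast s n
  have hsδ : s δ = δ ∨ s δ = -δ := by
    apply sq_eq_sq_iff_eq_or_eq_neg.1
    rw [← map_pow, hδ2, hsn]
  have hs3 : s (3 : Ω) = 3 := map_ofNat s 3
  have hs4 : s (4 : Ω) = 4 := map_ofNat s 4
  obtain ⟨η, hη, hη'⟩ : ∃ η : 𝓞 F, (η = 1 ∨ η = -1) ∧ s δ = ak Ω η * δ := by
    rcases hsδ with h0 | h0
    · refine ⟨1, Or.inl rfl, ?_⟩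
      have h3 : ak Ω (1 : 𝓞 F) = 1 := by
        show algebraMap F Ω (algebraMap (𝓞 F) F 1) = 1
        rw [map_one, map_one]
      rw [h3, one_mul, h0]
    · refine ⟨-1, Or.inr rfl, ?_⟩
      have h3 : ak Ω (-1 : 𝓞 F) = -1 := by
        show algebraMap F Ω (algebraMap (𝓞 F) F (-1)) = -1
        rw [map_neg, map_one, map_neg, map_one]
      rw [h3, neg_one_mul, h0]
  refine ⟨δ, η, hδ2, hη, hη', ?_⟩
  have hsx : s (xc T) = n / 3 + n * s σ / 4 := by
    rw [hx, map_add, map_div₀, map_div₀, map_mul, hsn, hs3, hs4]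
  have hsy : s (yc T) = ak Ω η * (n * δ * s u / 4) := by
    rw [hyδ, map_div₀, map_mul, map_mul, hsn, hs4, hη']
    ring
  have hsσ : s σ = (s ζ) ^ 2 - (s ζ) ^ 6 := by
    rw [hσ, map_sub, map_pow, map_pow]
  have hsu : s u = s ζ - (s ζ) ^ 7 := by
    rw [hu, map_sub, map_pow]
  have hζ16 : ζ ^ 16 = 1 := by
    have e : ζ ^ 16 = (ζ ^ 8) ^ 2 := by ring
    rw [e, hζ]
    norm_num
  have hmod : ζ ^ N = ζ ^ (N % 16) := by
    conv_lhs => rw [← Nat.div_add_mod N 16]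
    rw [pow_add, pow_mul, hζ16, one_pow, one_mul]
  have hneg : act (-1) T = -T := by
    rw [map_neg, map_one]
    rfl
  have hone : act 1 T = T := by
    rw [map_one]
    rfl
  have hneg' : act (-(1 + φ)) T = -act (1 + φ) T := by
    rw [map_neg]
    rfl
  rcases hN with h0 | h0 | h0 | h0
  · -- 1
    have hk : kap φ N = 1 := by
      unfold kap
      rw [if_pos h0]
    have hz : s ζ = ζ := by rw [hs, hmod, h0, pow_one]
    rw [hk]
    refine l8g_pm hone hT0 hT0 hη s ?_ ?_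
    · rw [hsx, hsσ, hz, hx]
    · rw [hsy, hsu, hz, hyδ]
  · -- 3
    have hk : kap φ N = -(1 + φ) := by
      unfold kap
      rw [if_neg (by omega), if_neg (by omega), if_pos h0]
    have hz : s ζ = ζ ^ 3 := by rw [hs, hmod, h0]
    rw [hk]
    refine l8g_pm hneg' (neg_ne_zero.2 hT1) hT0 hη s ?_ ?_
    · rw [hsx, hsσ, hz, xc_neg, hx', hσ]
      have e : ((ζ ^ 3) ^ 2 - (ζ ^ 3) ^ 6 : Ω) = -(ζ ^ 2 - ζ ^ 6) := by
        linear_combination (-ζ ^ 10 + ζ ^ 2) * hζ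
      rw [e]
      ring
    · rw [hsy, hsu, hz, yc_neg, hy', hyδ]
      have e : (ζ ^ 3 - (ζ ^ 3) ^ 7 : Ω) = (σ - 1) * u := by
        rw [hσ, hu]
        linear_combination (-ζ ^ 13 + ζ) * hζ
      rw [e]
      ring
  · -- 9
    have hk : kap φ N = -1 := by
      unfold kap
      rw [if_neg (by omega), if_pos h0]
    have hz : s ζ = -ζ := by
      rw [hs, hmod, h0]
      linear_combination ζ * hζ
    rw [hk]
    refine l8g_pm hneg (neg_ne_zero.2 hT0) hT0 hη s ?_ ?_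
    · rw [hsx, hsσ, hz, xc_neg, hx, hσ]
      ring
    · rw [hsy, hsu, hz, yc_neg, hyδ, hu]
      ring
  · -- 11
    have hk : kap φ N = 1 + φ := by
      unfold kap
      rw [if_neg (by omega), if_neg (by omega), if_neg (by omega)]
    have hz : s ζ = -ζ ^ 3 := by
      rw [hs, hmod, h0]
      linear_combination ζ ^ 3 * hζ
    rw [hk]
    refine l8g_pm rfl hT1 hT0 hη s ?_ ?_
    · rw [hsx, hsσ, hz, hx', hσ]
      have e : ((-ζ ^ 3) ^ 2 - (-ζ ^ 3) ^ 6 : Ω) = -(ζ ^ 2 - ζ ^ 6) := by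
        linear_combination (-ζ ^ 10 + ζ ^ 2) * hζ
      rw [e]
      ring
    · rw [hsy, hsu, hz, hy', hyδ]
      have e : (-ζ ^ 3 - (-ζ ^ 3) ^ 7 : Ω) = -((σ - 1) * u) := by
        rw [hσ, hu]
        linear_combination (ζ ^ 13 - ζ) * hζ
      rw [e]
      ring

end H55W
end

-- from Lib.H55W.L8H
section

/-! # H55W, part L: the Frobenius element, discriminant -8 -/

open NumberField IsDedekindDomain WeierstrassCurve

namespace H55W

open H55P (IQ embF eF LF Per IsHecke Pt ac Inert Dec Nm)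
open H35P (WAB Ker tt GoodW IntW)
open H55K
open H13D (RM)

variable {F : Type} [Field F] [NumberField F] [IQ F] {φ : 𝓞 F} {A B : F} {Om : ℂ} {Ω : Type} [Field Ω] [DecidableEq Ω]
  [Algebra F Ω] {j : Ω →+* ℂ} {act : 𝓞 F →+* AddMonoid.End (Pt (WAB A B) Ω)} {V : ValuationSubring Ω}
  {Kg : AddSubgroup (Pt (WAB A B) Ω)} {v : HeightOneSpectrum (𝓞 F)} {s : Ω ≃ₐ[F] Ω} {r : Ω}

theorem l8h_gen [IsAlgClosed Ω] (hφ : TI φ) (h : CMA F A B Om j act) {n : ℤ} (hA : 24 * A = -5 * (n : F) ^ 2) (hB : 216 * B = 7 * (n : F) ^ 3)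
    {τ : Ω} (hτ : τ ^ 2 = 2) : ∃ T : Pt (WAB A B) Ω, TG act φ T ∧ (n : Ω) ≠ 0 ∧ xc T = (n : Ω) / 3 + n * τ / 4 ∧
      16 * yc T ^ 2 = n ^ 3 * (2 + τ) ∧ xc (act (1 + φ) T) = (n : Ω) / 3 - n * τ / 4 ∧ yc (act (1 + φ) T) = -(τ - 1) * yc T := by
  have : CharZero Ω := charZero_of_injective_algebraMap (algebraMap F Ω).injective
  obtain ⟨T0, hT0⟩ := exists_TG h hφ
  obtain ⟨hn0, σ0, hσ0, hx0, hy0, hx0', hy0'⟩ := tg_add h hφ hA hB hT0
  have h1 : (σ0 - τ) * (σ0 + τ) = 0 := by linear_combination hσ0 - hτ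
  rcases mul_eq_zero.1 h1 with h2 | h2
  · have h3 : σ0 = τ := sub_eq_zero.1 h2
    subst h3
    exact ⟨T0, hT0, hn0, hx0, hy0, hx0', hy0'⟩
  · have h3 : σ0 = -τ := by linear_combination h2
    have hT := tg_one hφ hT0
    obtain ⟨-, σ, hσ, hx, hy, hx', hy'⟩ := tg_add h hφ hA hB hT
    have h4 : (n : Ω) * (σ - τ) = 0 := by
      have h5 := hx.symm.trans hx0'
      rw [h3] at h5
      linear_combination 4 * h5
    have h6 : σ = τ := by
      rcases mul_eq_zero.1 h4 with h7 | h7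
      · exact absurd h7 hn0
      · exact sub_eq_zero.1 h7
    subst h6
    exact ⟨_, hT, hn0, hx, hy, hx', hy'⟩

theorem l8h_phi (hφ : TI φ) (h2 : (2 : 𝓞 F) ∉ v.asIdeal) : φ ∉ v.asIdeal := by
  intro h
  apply h2
  have h1 : (2 : 𝓞 F) = -φ * φ := by linear_combination hφ.sq
  rw [h1]
  exact v.asIdeal.mul_mem_left _ h

theorem l8h_ndvd (hφ : TI φ) (h2 : (2 : 𝓞 F) ∉ v.asIdeal) {β : 𝓞 F} (hβ : Ideal.span {β} = v.asIdeal) : ¬ φ ∣ β := by
  rintro ⟨c, hc⟩
  have hβm : β ∈ v.asIdeal := by rw [← hβ]; exact Ideal.mem_span_singleton_self β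
  have h3 : φ * c ∈ v.asIdeal := hc ▸ hβm
  rcases v.isPrime.mem_or_mem h3 with h4 | h4
  · exact l8h_phi hφ h2 h4
  · rw [← hβ, Ideal.mem_span_singleton] at h4
    obtain ⟨d, hd⟩ := h4
    have hβ0 : β ≠ 0 := by
      intro h0
      apply v.ne_bot
      rw [← hβ, h0]
      exact Ideal.span_singleton_eq_bot.2 rfl
    have h5 : φ * d = 1 := by
      apply mul_left_cancel₀ hβ0
      calc β * (φ * d) = φ * (β * d) := by ring
        _ = φ * c := by rw [← hd]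
        _ = β * 1 := by rw [← hc, mul_one]
    have h6 : (φ ^ 2 - 1 : 𝓞 F) = 0 := by
      rcases ti_unit hφ (IsUnit.of_mul_eq_one _ h5) with h7 | h7 <;> rw [h7] <;> ring
    have h8 : (3 : 𝓞 F) = 0 := by linear_combination -h6 + hφ.sq
    norm_num at h8

/-- Chunk L8H (M). T from exists_TG, σ from tg_add, ζ from exists_zeta: σ^2 = 2 = (ζ^2 - ζ^6)^2, so σ = ± (ζ^2 - ζ^6); in the case of the minus sign replace T by act (1 + φ) T (tg_one; its σ is the other one: tg_add for both: xc = n/3 - n σ/4). β a generator of v, Nm β = N = absNorm v, φ does not divide β (2 is not in v): ti_kap: NR N, 2φ | β ∓ kap N. frob_zeta, zeta_act: c = η kap N; frob_root with m = 2 (N is odd), X = δ, c = n.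
loc_gen with n0 = 2φ, c = η kap N (2φ divides c - β or c + β), t = φ: 2φ does not divide φ, 1 - φ, 1 + φ (ti_dvd). -/
theorem loc_eight [IsAlgClosed Ω] (hφ : TI φ) (h : CMA F A B Om j act) {n : ℤ} (hA : 24 * A = -5 * (n : F) ^ 2) (hB : 216 * B = 7 * (n : F) ^ 3)
    (hL : LD v V s Kg r) (h2 : (2 : 𝓞 F) ∉ v.asIdeal) (hn : (n : 𝓞 F) ∉ v.asIdeal) :
    ∃ γ η : 𝓞 F, Ideal.span {γ} = v.asIdeal ∧ (∀ X : Pt (WAB A B) Ω, act γ X - ac (WAB A B) s X ∈ Kg) ∧ (η = 1 ∨ η = -1) ∧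
      2 * φ ∣ γ - η * kap φ (Ideal.absNorm v.asIdeal) ∧
      (n : 𝓞 F) ^ ((Ideal.absNorm v.asIdeal - 1) / 2) - η ∈ v.asIdeal := by
  obtain ⟨ζ, hζ, hak⟩ := exists_zeta (Ω := Ω) hφ
  have hτ : (ζ ^ 2 - ζ ^ 6) ^ 2 = (2 : Ω) := by linear_combination (ζ ^ 4 - 2) * hζ
  obtain ⟨T, hT, hn0, hx, hy, hx', hy'⟩ := l8h_gen hφ h hA hB hτ
  obtain ⟨β, hβ'⟩ := (IsPrincipalIdealRing.principal v.asIdeal).principal
  have hβ : Ideal.span {β} = v.asIdeal := hβ'.symm
  have hN : Nm β = Ideal.absNorm v.asIdeal := by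
    unfold H55P.Nm
    rw [hβ]
  obtain ⟨hNR, hkap⟩ := ti_kap hφ (l8h_ndvd hφ h2 hβ)
  rw [hN] at hNR hkap
  obtain ⟨δ, η, hδ, hη, hsδ, hact⟩ := zeta_act h hφ hT hζ hn0 hx hy hx' hy' s hNR (frob_zeta hL h2 hζ)
  have hodd : 2 ∣ Ideal.absNorm v.asIdeal - 1 := by
    have := hNR
    unfold NR at this
    omega
  have h3 : (n : 𝓞 F) ^ ((Ideal.absNorm v.asIdeal - 1) / 2) - η ∈ v.asIdeal := by
    refine frob_root hL (by norm_num) hodd hn (X := δ) ?_ hsδ
    rw [hδ]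
    unfold H55K.ak
    simp
  have h4 : (2 * φ : 𝓞 F) ∉ v.asIdeal := by
    intro h5
    rcases v.isPrime.mem_or_mem h5 with h6 | h6
    · exact h2 h6
    · exact l8h_phi hφ h2 h6
  have h5 : 2 * φ ∣ η * kap φ (Ideal.absNorm v.asIdeal) - β ∨ 2 * φ ∣ η * kap φ (Ideal.absNorm v.asIdeal) + β := by
    rcases hη with rfl | rfl
    · rcases hkap with h6 | h6
      · left
        rw [one_mul, dvd_sub_comm]
        exact h6
      · right
        rw [one_mul, add_comm]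
        exact h6
    · rcases hkap with h6 | h6
      · right
        have h7 : -1 * kap φ (Ideal.absNorm v.asIdeal) + β = β - kap φ (Ideal.absNorm v.asIdeal) := by ring
        rw [h7]
        exact h6
      · left
        have h7 : -1 * kap φ (Ideal.absNorm v.asIdeal) - β = -(β + kap φ (Ideal.absNorm v.asIdeal)) := by ring
        rw [h7, dvd_neg]
        exact h6
  have e0 : ¬ 2 * φ ∣ φ := by
    intro h6
    have h7 := (ti_dvd hφ 0 1).1.1 (by simpa using h6)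
    omega
  have e1 : ¬ 2 * φ ∣ 1 - φ := by
    intro h6
    have h7 := (ti_dvd hφ 1 (-1)).1.1 (by
      have h8 : ((1 : ℤ) : 𝓞 F) + ((-1 : ℤ) : 𝓞 F) * φ = 1 - φ := by push_cast; ring
      rw [h8]
      exact h6)
    omega
  have e2 : ¬ 2 * φ ∣ 1 + φ := by
    intro h6
    have h7 := (ti_dvd hφ 1 1).1.1 (by simpa using h6)
    omega
  obtain ⟨γ, hγ, hγc, hX⟩ := loc_gen h hL h4 hT.zero hβ hact h5 e0 e1 e2
  exact ⟨γ, η, hγ, hX, hη, hγc, h3⟩

end H55W
end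

-- from Lib.H13X.XZ3
section

/-! # H13X: port of H13Y/YZ1 -/

open NumberField IsDedekindDomain WeierstrassCurve

namespace H13X

open H55P (IQ embF eF LF Per IsHecke Pt ac Inert Dec Nm Coc)
open H35P (WAB Ker tt)
open H55K (Tor ak xc yc CMA Dta GV GMod cj cj_cj mul_cj cj_prime cj_dvd cj_nat Nm_cj Nm_mul Nm_nat)
open H55K.S
open H13S (Abv)





variable {F : Type} [Field F] [NumberField F] [IQ F] {A B : F} {Om : ℂ} {Ω : Type} [Field Ω] [DecidableEq Ω]
  [Algebra F Ω] [IsAlgClosure F Ω] {j : Ω →+* ℂ} {act : 𝓞 F →+* AddMonoid.End (Pt (WAB A B) Ω)} {mo : Ideal (𝓞 F)}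
  {ψ : Ideal (𝓞 F) →*₀ 𝓞 F}

theorem cz3_ne {π : 𝓞 F} {l : ℕ} (hl : l ≠ 0) {e : Pt (WAB A B) Ω → Pt (WAB A B) Ω → Ω} (he : Pairing A B act π l e) {X T : Pt (WAB A B) Ω}
    (hX : X ∈ Tor act (cj π)) (hT : T ∈ Tor act π) : e X T ≠ 0 := by
  intro h
  have h1 := he.root X hX T hT
  rw [h, zero_pow hl] at h1
  exact zero_ne_one h1

theorem cz3_uniq {π : 𝓞 F} {l : ℕ} (hl : l ≠ 0) {e : Pt (WAB A B) Ω → Pt (WAB A B) Ω → Ω} (he : Pairing A B act π l e) {X Y : Pt (WAB A B) Ω}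
    (hX : X ∈ Tor act (cj π)) (hY : Y ∈ Tor act (cj π)) (h : ∀ T ∈ Tor act π, e X T = e Y T) : X = Y := by
  have h1 : X - Y = 0 := by
    refine he.nondeg _ (sub_mem hX hY) fun T hT => ?_
    have h2 := he.add_left (X - Y) (sub_mem hX hY) Y hY T hT
    rw [sub_add_cancel, h T hT] at h2
    exact (mul_eq_right₀ (cz3_ne hl he hY hT)).1 h2.symm
  exact sub_eq_zero.1 h1

/-- Either all l-th roots of unity are in L or only the trivial one. -/
theorem cz3_dich {l : ℕ} (hl : l.Prime) (L : IntermediateField F Ω) :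
    (∀ x : Ω, x ^ l = 1 → x ∈ L) ∨ ∀ x : Ω, x ^ l = 1 → x ∈ L → x = 1 := by
  by_cases h : ∃ x : Ω, x ^ l = 1 ∧ x ∈ L ∧ x ≠ 1
  · left
    have hlf : Fact l.Prime := ⟨hl⟩
    have hln : NeZero l := ⟨hl.ne_zero⟩
    obtain ⟨x, hx, hxL, hx1⟩ := h
    intro t ht
    have hp : IsPrimitiveRoot x l := by
      have h1 : orderOf x = l := orderOf_eq_prime hx hx1
      rw [← h1]
      exact IsPrimitiveRoot.orderOf x
    obtain ⟨i, -, hi⟩ := hp.eq_pow_of_pow_eq_one ht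
    rw [← hi]
    exact pow_mem hxL i
  · right
    intro x hx hxL
    by_contra h1
    exact h ⟨x, hx, hxL, h1⟩

/-- Chunk YZ1 (S/M), PORT of H13Z/CZ3.lean c0_exists to the base field N: IsTF act π L becomes IsTB act π N L, automorphisms σ, g are taken in N.fixingSubgroup (L is stable under them: tb_stable; every use of hL.2 becomes hL.fix with the membership in N.fixingSubgroup: elements of L.fixingSubgroup are in it by hL.mono). -/
theorem c0_exists {π : 𝓞 F} {l : ℕ} (D : Dat A B Om j act mo ψ π l) {e : Pt (WAB A B) Ω → Pt (WAB A B) Ω → Ω} (he : Pairing A B act π l e)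
    {N L : IntermediateField F Ω} (hL : IsTB act π N L) (m : Pt (WAB A B) Ω → (L)ˣ)
    (hact : ∀ σ ∈ N.fixingSubgroup, ∀ T ∈ Tor act π, ∃ z : (L)ˣ,
      ((m (ac (WAB A B) σ T) : L) : Ω) = σ ((m T : L) : Ω) * ((z : L) : Ω) ^ l)
    (y : Pt (WAB A B) Ω → Ω) (hy : ∀ T ∈ Tor act π, y T ≠ 0 ∧ ∃ z : (L)ˣ, y T ^ l = ((m T * z ^ l : (L)ˣ) : L))
    (hy2 : ∀ T ∈ Tor act π, ∀ T' ∈ Tor act π, ∃ z : (L)ˣ, y (T + T') = y T * y T' * ((z : L) : Ω)) :
    ∃ c₀ : (Ω ≃ₐ[F] Ω) → Pt (WAB A B) Ω,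
      (∀ s ∈ L.fixingSubgroup, c₀ s ∈ Tor act (cj π) ∧ ∀ T ∈ Tor act π, s (y T) = e (c₀ s) T * y T) ∧
      (∀ s ∈ L.fixingSubgroup, ∀ t ∈ L.fixingSubgroup, c₀ (s * t) = c₀ s + ac (WAB A B) s (c₀ t)) ∧
      (∃ M : IntermediateField F Ω, FiniteDimensional F M ∧
        ∀ s ∈ L.fixingSubgroup, s ∈ M.fixingSubgroup → c₀ s = 0) ∧
      ∀ g ∈ N.fixingSubgroup, ∃ X ∈ Tor act (cj π), ∀ s ∈ L.fixingSubgroup,
        ac (WAB A B) g (c₀ (g⁻¹ * s * g)) = c₀ s + ac (WAB A B) s X - X := by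
  classical
  have hl0 : l ≠ 0 := D.hl.ne_zero
  have hfixL : ∀ s ∈ L.fixingSubgroup, ∀ x : Ω, x ∈ L → s x = x := fun s hs x hx =>
    (IntermediateField.mem_fixingSubgroup_iff L _).1 hs x hx
  have hTfix : ∀ s ∈ L.fixingSubgroup, ∀ R ∈ Tor act π, ac (WAB A B) s R = R := fun s hs => ((hL.fix s).1 hs).2
  have hun : ∀ z : (L)ˣ, ((z : L) : Ω) ≠ 0 := fun z h => z.ne_zero (by exact_mod_cast h)
  -- existence
  have hex : ∀ s ∈ L.fixingSubgroup, ∃ X ∈ Tor act (cj π), ∀ T ∈ Tor act π, s (y T) = e X T * y T := by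
    intro s hs
    obtain ⟨X, hX, h⟩ := pair_surj D he (fun T => s (y T) / y T) (by
      intro T hT
      obtain ⟨h0, z, hz⟩ := hy T hT
      rw [div_pow, ← map_pow, hz, hfixL s hs _ (SetLike.coe_mem _), ← hz]
      exact div_self (pow_ne_zero _ h0)) (by
      intro T hT T' hT'
      obtain ⟨z, hz⟩ := hy2 T hT T' hT'
      have h0 := (hy T hT).1
      have h0' := (hy T' hT').1
      have hz0 := hun z
      rw [hz, map_mul, map_mul, hfixL s hs _ (SetLike.coe_mem (z : L))]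
      field_simp)
    refine ⟨X, hX, fun T hT => ?_⟩
    rw [h T hT, div_mul_cancel₀ _ (hy T hT).1]
  let c₀ : (Ω ≃ₐ[F] Ω) → Pt (WAB A B) Ω := fun s => if h : s ∈ L.fixingSubgroup then (hex s h).choose else 0
  have hc : ∀ s ∈ L.fixingSubgroup, c₀ s ∈ Tor act (cj π) ∧ ∀ T ∈ Tor act π, s (y T) = e (c₀ s) T * y T := by
    intro s hs
    have h1 : c₀ s = (hex s hs).choose := dif_pos hs
    rw [h1]
    exact (hex s hs).choose_spec
  refine ⟨c₀, hc, fun s hs t ht => ?_, ?_, fun g hg => ?_⟩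
  · -- cocycle
    have hst : s * t ∈ L.fixingSubgroup := Subgroup.mul_mem _ hs ht
    have h1 : ac (WAB A B) s (c₀ t) ∈ Tor act (cj π) := ac_mem D.cma s (hc t ht).1
    refine cz3_uniq hl0 he (hc _ hst).1 (add_mem (hc s hs).1 h1) fun T hT => ?_
    have h2 := (hc _ hst).2 T hT
    have h3 : (s * t) (y T) = s (t (y T)) := rfl
    rw [h3, (hc t ht).2 T hT, map_mul, he.gal s _ (hc t ht).1 T hT, hTfix s hs T hT, (hc s hs).2 T hT] at h2
    rw [he.add_left _ (hc s hs).1 _ h1 T hT]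
    have h4 : e (c₀ (s * t)) T * y T = (e (c₀ s) T * e (ac (WAB A B) s (c₀ t)) T) * y T := by
      rw [← h2]
      ring
    exact mul_right_cancel₀ (hy T hT).1 h4
  · -- continuity
    have hfin : Finite (Tor act π) :=
      Nat.finite_of_card_ne_zero (by rw [(H55K.S.gi_gen D.cma π D.pr).1]; exact fun h => D.pr.ne_zero (H55P.Nm_eq_zero.1 h))
    have hfs : (y '' (Tor act π : Set (Pt (WAB A B) Ω))).Finite := (Set.toFinite _).image y
    have hfs' := hfs.to_subtype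
    refine ⟨IntermediateField.adjoin F (y '' (Tor act π : Set (Pt (WAB A B) Ω))), ?_, fun s hs hsN => ?_⟩
    · apply IntermediateField.finiteDimensional_adjoin
      intro x _
      exact (Algebra.IsAlgebraic.isAlgebraic (R := F) x).isIntegral
    · refine he.nondeg _ (hc s hs).1 fun T hT => ?_
      have h1 : s (y T) = y T := (IntermediateField.mem_fixingSubgroup_iff _ _).1 hsN (y T)
        (IntermediateField.subset_adjoin _ _ ⟨T, hT, rfl⟩)
      have h2 := (hc s hs).2 T hT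
      rw [h1] at h2
      exact (mul_eq_right₀ (hy T hT).1).1 h2.symm
  · -- conjugation
    have hst : ∀ x : Ω, x ∈ L → g x ∈ L := fun x hx => tb_stable D.cma hL g hg ⟨x, hx⟩
    have hgT : ∀ T ∈ Tor act π, ac (WAB A B) g T ∈ Tor act π := fun T hT => ac_mem D.cma g hT
    have hgi : ∀ T ∈ Tor act π, ac (WAB A B) g⁻¹ T ∈ Tor act π := fun T hT => ac_mem D.cma g⁻¹ hT
    have hgg : ∀ T : Pt (WAB A B) Ω, ac (WAB A B) g (ac (WAB A B) g⁻¹ T) = T := fun T => ac_inv g T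
    have hgg' : ∀ T : Pt (WAB A B) Ω, ac (WAB A B) g⁻¹ (ac (WAB A B) g T) = T := fun T => by
      rw [← ac_mul, inv_mul_cancel, ac_one]
    have hη : ∀ T ∈ Tor act π, ∃ η z : Ω, η ^ l = 1 ∧ z ∈ L ∧ z ≠ 0 ∧ g (y T) = η * y (ac (WAB A B) g T) * z := by
      intro T hT
      obtain ⟨h0, z, hz⟩ := hy T hT
      obtain ⟨h0', z', hz'⟩ := hy _ (hgT T hT)
      obtain ⟨z'', hz''⟩ := hact g hg T hT
      have e1 : ((((m T * z ^ l : (L)ˣ) : L)) : Ω) = ((m T : L) : Ω) * ((z : L) : Ω) ^ l := by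
        push_cast
        ring
      have e2 : ((((m (ac (WAB A B) g T) * z' ^ l : (L)ˣ) : L)) : Ω) =
          ((m (ac (WAB A B) g T) : L) : Ω) * ((z' : L) : Ω) ^ l := by
        push_cast
        ring
      rw [e1] at hz
      rw [e2, hz''] at hz'
      have hgz : g ((z : L) : Ω) ≠ 0 := by
        rw [Ne, map_eq_zero]
        exact hun z
      have hm0 : g ((m T : L) : Ω) ≠ 0 := by
        rw [Ne, map_eq_zero]
        exact hun _
      have h1 : g (y T) ^ l = g ((m T : L) : Ω) * g ((z : L) : Ω) ^ l := by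
        rw [← map_pow, hz, map_mul, map_pow]
      have hw := hun z'
      have hw'' := hun z''
      have hgy : g (y T) ≠ 0 := by
        rw [Ne, map_eq_zero]
        exact h0
      have hzz : g ((z : L) : Ω) / (((z'' : L) : Ω) * ((z' : L) : Ω)) ≠ 0 :=
        div_ne_zero hgz (mul_ne_zero hw'' hw)
      refine ⟨g (y T) / (y (ac (WAB A B) g T) * (g ((z : L) : Ω) / (((z'' : L) : Ω) * ((z' : L) : Ω)))),
        g ((z : L) : Ω) / (((z'' : L) : Ω) * ((z' : L) : Ω)), ?_,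
        div_mem (hst _ (SetLike.coe_mem _)) (mul_mem (SetLike.coe_mem _) (SetLike.coe_mem _)), hzz, ?_⟩
      · rw [div_pow, mul_pow, div_pow, mul_pow, h1, hz']
        have p1 := pow_ne_zero l hgz
        have p2 := pow_ne_zero l hw
        have p3 := pow_ne_zero l hw''
        field_simp
      · field_simp
    have hconj : ∀ s ∈ L.fixingSubgroup, ∀ T ∈ Tor act π,
        e (ac (WAB A B) g (c₀ (g⁻¹ * s * g))) (ac (WAB A B) g T) * g (y T) = s (g (y T)) := by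
      intro s hs T hT
      have hs' := kb2_conj D.cma hL hg hs
      have h1 := (hc _ hs').2 T hT
      have h2 : g ((g⁻¹ * s * g) (y T)) = s (g (y T)) := by
        have e1 : g * (g⁻¹ * s * g) = s * g := by group
        exact congrArg (fun t : Ω ≃ₐ[F] Ω => t (y T)) e1
      rw [← h2, h1, map_mul, he.gal g _ (hc _ hs').1 T hT]
    rcases cz3_dich (Ω := Ω) D.hl L with hA | hB
    · refine ⟨0, zero_mem _, fun s hs => ?_⟩
      have hs' := kb2_conj D.cma hL hg hs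
      rw [map_zero, add_zero, sub_zero]
      refine cz3_uniq hl0 he (ac_mem D.cma g (hc _ hs').1) (hc s hs).1 fun R hR => ?_
      have h1 := hconj s hs _ (hgi R hR)
      obtain ⟨η, z, hη1, hzL, hz0, h2⟩ := hη _ (hgi R hR)
      rw [hgg] at h1 h2
      have hgy : g (y (ac (WAB A B) g⁻¹ R)) ≠ 0 := by
        rw [Ne, map_eq_zero]
        exact (hy _ (hgi R hR)).1
      have h3 : s (g (y (ac (WAB A B) g⁻¹ R))) = e (c₀ s) R * g (y (ac (WAB A B) g⁻¹ R)) := by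
        rw [h2, map_mul, map_mul, hfixL s hs η (hA η hη1), hfixL s hs z hzL, (hc s hs).2 R hR]
        ring
      rw [h3] at h1
      exact mul_right_cancel₀ hgy h1
    · choose! η z hη1 hzL hz0 hη2 using hη
      have hη0 : ∀ T ∈ Tor act π, η T ≠ 0 := fun T hT h => by
        have := hη1 T hT
        rw [h, zero_pow hl0] at this
        exact zero_ne_one this
      have hadd : ∀ T ∈ Tor act π, ∀ T' ∈ Tor act π, η (T + T') = η T * η T' := by
        intro T hT T' hT'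
        obtain ⟨u, hu⟩ := hy2 T hT T' hT'
        obtain ⟨v, hv⟩ := hy2 _ (hgT T hT) _ (hgT T' hT')
        have h1 := hη2 _ (add_mem hT hT')
        rw [hu, map_mul, map_mul, hη2 T hT, hη2 T' hT', map_add, hv] at h1
        have a1 := (hy _ (hgT T hT)).1
        have a2 := (hy _ (hgT T' hT')).1
        have a3 := hη0 T hT
        have a4 := hη0 T' hT'
        have a5 := hz0 _ (add_mem hT hT')
        have a6 := hun v
        have h2 : η (T + T') * (((v : L) : Ω) * z (T + T')) = η T * η T' * (z T * z T' * g ((u : L) : Ω)) := by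
          have h3 : (y (ac (WAB A B) g T) * y (ac (WAB A B) g T')) * (η (T + T') * (((v : L) : Ω) * z (T + T'))) =
              (y (ac (WAB A B) g T) * y (ac (WAB A B) g T')) * (η T * η T' * (z T * z T' * g ((u : L) : Ω))) := by
            linear_combination -h1
          exact mul_left_cancel₀ (mul_ne_zero a1 a2) h3
        have h4 : η (T + T') / (η T * η T') = 1 := by
          apply hB
          · rw [div_pow, mul_pow, hη1 _ (add_mem hT hT'), hη1 T hT, hη1 T' hT', mul_one, div_one]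
          · have h5 : η (T + T') / (η T * η T') =
                (z T * z T' * g ((u : L) : Ω)) / (((v : L) : Ω) * z (T + T')) := by
              rw [div_eq_div_iff (mul_ne_zero a3 a4) (mul_ne_zero a6 a5), h2]
              ring
            rw [h5]
            exact div_mem (mul_mem (mul_mem (hzL T hT) (hzL T' hT')) (hst _ (SetLike.coe_mem _)))
              (mul_mem (SetLike.coe_mem _) (hzL _ (add_mem hT hT')))
        rw [div_eq_one_iff_eq (mul_ne_zero a3 a4)] at h4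
        exact h4
      obtain ⟨X, hX, hXe⟩ := pair_surj D he (fun R => η (ac (WAB A B) g⁻¹ R)) (fun R hR => hη1 _ (hgi R hR))
        (fun R hR R' hR' => by rw [map_add]; exact hadd _ (hgi R hR) _ (hgi R' hR'))
      refine ⟨X, hX, fun s hs => ?_⟩
      have hs' := kb2_conj D.cma hL hg hs
      rw [eq_sub_iff_add_eq]
      refine cz3_uniq hl0 he (add_mem (ac_mem D.cma g (hc _ hs').1) hX)
        (add_mem (hc s hs).1 (ac_mem D.cma s hX)) fun R hR => ?_
      rw [he.add_left _ (ac_mem D.cma g (hc _ hs').1) _ hX R hR, he.add_left _ (hc s hs).1 _ (ac_mem D.cma s hX) R hR]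
      have h1 := hconj s hs _ (hgi R hR)
      have h2 := hη2 _ (hgi R hR)
      rw [hgg] at h1 h2
      have h3 : s (η (ac (WAB A B) g⁻¹ R)) = e (ac (WAB A B) s X) R := by
        have h4 := he.gal s X hX R hR
        rw [hXe R hR, hTfix s hs R hR] at h4
        exact h4
      rw [h2, map_mul, map_mul, h3, hfixL s hs _ (hzL _ (hgi R hR)), (hc s hs).2 R hR] at h1
      rw [hXe R hR]
      have b1 := (hy R hR).1
      have b2 := hz0 _ (hgi R hR)
      have h5 : (y R * z (ac (WAB A B) g⁻¹ R)) * (e (ac (WAB A B) g (c₀ (g⁻¹ * s * g))) R * η (ac (WAB A B) g⁻¹ R)) =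
          (y R * z (ac (WAB A B) g⁻¹ R)) * (e (c₀ s) R * e (ac (WAB A B) s X) R) := by
        linear_combination h1
      exact mul_left_cancel₀ (mul_ne_zero b1 b2) h5

end H13X
end

-- from Lib.H13X.XZ5
section

/-! # H13X: port of H13Y/YZ2 -/

open NumberField IsDedekindDomain WeierstrassCurve

namespace H13X

open H55P (IQ embF eF LF Per IsHecke Pt ac Inert Dec Nm Coc)
open H35P (WAB Ker tt)
open H55K (Tor ak xc yc CMA Dta GV GMod cj cj_cj mul_cj cj_prime cj_dvd cj_nat Nm_cj Nm_mul Nm_nat)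
open H55K.S
open H13S (Abv)





variable {F : Type} [Field F] [NumberField F] [IQ F] {A B : F} {Om : ℂ} {Ω : Type} [Field Ω] [DecidableEq Ω]
  [Algebra F Ω] [IsAlgClosure F Ω] {j : Ω →+* ℂ} {act : 𝓞 F →+* AddMonoid.End (Pt (WAB A B) Ω)} {mo : Ideal (𝓞 F)}
  {ψ : Ideal (𝓞 F) →*₀ 𝓞 F}

/-- Chunk YZ2 (M), PORT of H13Z/CZ5.lean cocycle_of_m to the base field N. H13Z.ext_cocycle (CZ4) for the group G = N.fixingSubgroup and its subgroup N₁ = (pointwise stabilizer of Tor π, stab_index).subgroupOf G: normal, index = relIndex dividing Nm π - 1 (Subgroup.relIndex_dvd_index_of_normal), prime to l, not 0; s in N₁ iff s in L.fixingSubgroup (hL.fix).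
c s = 0 for s not in G. Continuity: M' = the normal closure of L ⊔ M ⊔ adjoin (coordinates of Tor (cj π)), U = M'.fixingSubgroup.subgroupOf G (contained in N₁ because N ≤ L ≤ M'). Kummer generators as in CZ5. -/
theorem cocycle_of_m {π : 𝓞 F} {l : ℕ} (D : Dat A B Om j act mo ψ π l) {e : Pt (WAB A B) Ω → Pt (WAB A B) Ω → Ω} (he : Pairing A B act π l e)
    {N L : IntermediateField F Ω} (hL : IsTB act π N L) (m : Pt (WAB A B) Ω → (L)ˣ)
    (hadd : ∀ T ∈ Tor act π, ∀ T' ∈ Tor act π, ∃ z : (L)ˣ, m (T + T') = m T * m T' * z ^ l)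
    (hact : ∀ σ ∈ N.fixingSubgroup, ∀ T ∈ Tor act π, ∃ z : (L)ˣ,
      ((m (ac (WAB A B) σ T) : L) : Ω) = σ ((m T : L) : Ω) * ((z : L) : Ω) ^ l) :
    ∃ c : (Ω ≃ₐ[F] Ω) → Pt (WAB A B) Ω, Cc act π N c ∧ ∀ T ∈ Tor act π, ∃ y : Ω, Kum L e c T y ∧
      ∃ z : (L)ˣ, y ^ l = ((m T * z ^ l : (L)ˣ) : L) := by
  classical
  obtain ⟨y, hy, hy2⟩ := y_system D L m hadd
  obtain ⟨c₀, h1, h2, ⟨N₀, hN₀, h3⟩, h4⟩ := c0_exists D he hL m hact y hy hy2
  obtain ⟨N₁, hN₁, hn₁, hd₁, h0₁⟩ := stab_index D.cma π D.pr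
  have hlN : l ∣ Nm π := CO2_Nm D.hl D.pr D.dvd
  have hN0 : Nm π ≠ 0 := fun h => D.pr.ne_zero (H55P.Nm_eq_zero.1 h)
  have hlB : ∀ P ∈ Tor act (cj π), l • P = 0 := by
    intro P hP
    obtain ⟨u, hu⟩ := D.dvd
    have h5 : (l : 𝓞 F) = cj u * cj π := by
      have h6 := congrArg cj hu
      rw [map_natCast, map_mul] at h6
      rw [h6, mul_comm]
    have h7 : act (cj π) P = 0 := hP
    rw [← act_nat (act := act), h5, act_mul, h7, map_zero]
  -- the group and its subgroup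
  have hd₂ : (N₁.subgroupOf N.fixingSubgroup).index ∣ N₁.index :=
    Subgroup.relIndex_dvd_index_of_normal N₁ N.fixingSubgroup
  have hd₃ : (N₁.subgroupOf N.fixingSubgroup).index ∣ Nm π - 1 := hd₂.trans hd₁
  have h0₂ : (N₁.subgroupOf N.fixingSubgroup).index ≠ 0 := fun h => h0₁ (by
    rw [h] at hd₂
    exact Nat.eq_zero_of_zero_dvd hd₂)
  have hcop : l.Coprime (N₁.subgroupOf N.fixingSubgroup).index := CO2_cop D.hl hlN hN0 hd₃
  have hNL : ∀ s : N.fixingSubgroup, s ∈ N₁.subgroupOf N.fixingSubgroup ↔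
      (s : Ω ≃ₐ[F] Ω) ∈ L.fixingSubgroup := fun s => by
    rw [Subgroup.mem_subgroupOf, hN₁, hL.fix]
    exact ⟨fun h => ⟨s.2, h⟩, fun h => h.2⟩
  obtain ⟨c', hcB, hcm, ⟨X, hX, hcX⟩, hcU⟩ := H13Z.ext_cocycle (G := N.fixingSubgroup)
    (fun s => ac (WAB A B) (s : Ω ≃ₐ[F] Ω))
    (fun P => ac_one P) (fun s t P => ac_mul (s : Ω ≃ₐ[F] Ω) t P) (Tor act (cj π)) (fun g P hP => ac_mem D.cma g hP)
    l hlB (N₁.subgroupOf N.fixingSubgroup) h0₂ hcop (fun s => c₀ (s : Ω ≃ₐ[F] Ω))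
    (fun s hs => (h1 s ((hNL s).1 hs)).1)
    (fun s hs t ht => h2 s ((hNL s).1 hs) t ((hNL t).1 ht))
    (fun g => by
      obtain ⟨X, hX, h5⟩ := h4 g g.2
      exact ⟨X, hX, fun s hs => h5 s ((hNL s).1 hs)⟩)
  obtain ⟨c, hc⟩ : ∃ c : (Ω ≃ₐ[F] Ω) → Pt (WAB A B) Ω, ∀ s (hs : s ∈ N.fixingSubgroup), c s = c' ⟨s, hs⟩ :=
    ⟨fun s => if h : s ∈ N.fixingSubgroup then c' ⟨s, h⟩ else 0, fun s hs => dif_pos hs⟩
  -- the field of the coordinates of the points killed by the conjugate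
  obtain ⟨-, T₀, hT₀, hgen, -⟩ := gi_gen D.cma (cj π) (cj_prime D.pr)
  have hint : ∀ x : Ω, IsIntegral F x := fun x => (Algebra.IsAlgebraic.isAlgebraic x).isIntegral
  let A₀ : Set Ω := {xc T₀, yc T₀}
  have hAf : A₀.Finite := Set.toFinite A₀
  have hAf' : Finite A₀ := hAf
  have hLf : FiniteDimensional F (IntermediateField.adjoin F A₀) :=
    IntermediateField.finiteDimensional_adjoin fun x _ => hint x
  have hfix : ∀ t ∈ (IntermediateField.adjoin F A₀).fixingSubgroup, ∀ P ∈ Tor act (cj π),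
      ac (WAB A B) t P = P := by
    intro t ht
    have hfx : ∀ x ∈ A₀, t x = x := fun x hx =>
      ht ⟨x, IntermediateField.subset_adjoin F A₀ hx⟩
    have e1 : ac (WAB A B) t T₀ = T₀ := by
      by_cases hT0 : T₀ = 0
      · rw [hT0, map_zero]
      · refine pt_ext (ac_ne t hT0) hT0 ?_ ?_
        · rw [xc_ac]
          exact hfx _ (by simp [A₀])
        · rw [yc_ac]
          exact hfx _ (by simp [A₀])
    intro P hP
    obtain ⟨a, rfl⟩ := hgen P hP
    rw [ac_act D.cma, e1]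
  have hLfin : FiniteDimensional F L := hL.fin
  let M : IntermediateField F Ω := L ⊔ N₀ ⊔ IntermediateField.adjoin F A₀
  have hMf : FiniteDimensional F M := inferInstance
  let M' : IntermediateField F Ω := IntermediateField.normalClosure F M Ω
  have hNn : Normal F M' := normalClosure.normal F M Ω
  have hNf : FiniteDimensional F M' := normalClosure.is_finiteDimensional F M Ω
  have hMN : M ≤ M' := IntermediateField.le_normalClosure M
  have hLN : L ≤ M' := (le_sup_left.trans le_sup_left).trans hMN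
  have hN₀N : N₀ ≤ M' := (le_sup_right.trans le_sup_left).trans hMN
  have hAN : IntermediateField.adjoin F A₀ ≤ M' := le_sup_right.trans hMN
  have hUn' : M'.fixingSubgroup.Normal := inferInstance
  have hUn : (M'.fixingSubgroup.subgroupOf N.fixingSubgroup).Normal := hUn'.subgroupOf _
  have hmono : ∀ {E : IntermediateField F Ω}, E ≤ M' → ∀ s ∈ M'.fixingSubgroup, s ∈ E.fixingSubgroup :=
    fun h s hs => IntermediateField.fixingSubgroup_antitone h hs
  refine ⟨c, ⟨fun s hs t ht => ?_, ⟨M', hNf, fun s hs hs' => ?_⟩, fun s hs => ?_⟩, fun T hT => ?_⟩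
  · rw [hc _ (mul_mem hs ht), hc s hs, hc t ht]
    exact hcm ⟨s, hs⟩ ⟨t, ht⟩
  · rw [hc s hs]
    refine hcU (M'.fixingSubgroup.subgroupOf N.fixingSubgroup) hUn
      (fun t ht => (hNL t).2 (hmono hLN t (Subgroup.mem_subgroupOf.1 ht)))
      (fun t ht => h3 t (hmono hLN t (Subgroup.mem_subgroupOf.1 ht))
        (hmono hN₀N t (Subgroup.mem_subgroupOf.1 ht)))
      (fun t ht P hP => hfix t (hmono hAN t (Subgroup.mem_subgroupOf.1 ht)) P hP) ⟨s, hs⟩
      (Subgroup.mem_subgroupOf.2 hs')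
  · rw [hc s hs]
    exact hcB ⟨s, hs⟩
  · obtain ⟨hy0, z, hz⟩ := hy T hT
    have hr := he.root X hX T hT
    have he0 : e X T ≠ 0 := by
      intro h
      rw [h, zero_pow D.hl.ne_zero] at hr
      exact zero_ne_one hr
    refine ⟨e X T * y T, ⟨mul_ne_zero he0 hy0, fun s hs => ?_⟩, z, ?_⟩
    · have hsN : s ∈ N.fixingSubgroup := hL.mono hs
      have hs1 : (⟨s, hsN⟩ : N.fixingSubgroup) ∈ N₁.subgroupOf N.fixingSubgroup := (hNL ⟨s, hsN⟩).2 hs
      have hsT : ac (WAB A B) s T = T := ((hL.fix s).1 hs).2 T hT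
      obtain ⟨hc0B, hc0⟩ := h1 s hs
      have h6 : c s + X = c₀ s + ac (WAB A B) s X := by
        rw [hc s hsN, hcX _ hs1]
        abel
      have hcs : c s ∈ Tor act (cj π) := by
        rw [hc s hsN]
        exact hcB _
      have h7 := he.add_left (c s) hcs X hX T hT
      have h8 := he.add_left (c₀ s) hc0B (ac (WAB A B) s X) (ac_mem D.cma s hX) T hT
      rw [h6, h8] at h7
      rw [map_mul, he.gal s X hX T hT, hsT, hc0 T hT]
      linear_combination y T * h7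
    · rw [mul_pow, hr, one_mul, hz]

end H13X
end

-- from Lib.H28R.A1
section

open NumberField IsDedekindDomain WeierstrassCurve

namespace H28R

open H55B (F O om e Prim gen cj)
open H55P H55R

/-! Chunk A1 (M): numbers of points. card_pts: H55P.cardE for K = F (𝓞 F = O): Psi F v.asIdeal = conj (e (gen v)) (H55N.Psi, PsiP_apply, relNorm of v in O over O is v: Ideal.relNorm_self or Algebra.norm of the identity; H55N.psiF_prime), so the number of points is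
|1 - e(gen v)|^2 = Nm (1 - gen v) (H55B.Nm_eq, e injective ring homomorphism, casts). good_two: v contains l = 2 mod 3: 3 not in v, v = (l) (H55B.prime_types: the other case absNorm v = l' = 1 mod 3 with l' in v gives l = l'), gen v = - l (it is the primary generator: unique, gen_spec,
H55B.prim_unique or unit_cases; - l = 1 mod 3), the number of points is Nm (1 + l) = (l+1)^2 (K14_Nm_nat in H28G/K14 or Nm_repr), p does not divide it; p not in v: l <> p (p and l coprime integers). (bad_dvd is in A9.) -/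

theorem A1_under (v : HeightOneSpectrum (𝓞 F)) : v.asIdeal = v.asIdeal.under O := by
  rw [Ideal.under_def]
  ext x
  rw [Ideal.mem_comap]
  have h : algebraMap O (𝓞 F) x = x := by
    apply RingOfIntegers.ext
    rfl
  rw [h]

theorem A1_inertia (K : Type) [Field K] [NumberField K] [Algebra F K] (h1 : Module.finrank F K = 1)
    (v : HeightOneSpectrum (𝓞 K)) (u : HeightOneSpectrum O) (hu : u.asIdeal = v.asIdeal.under O) :
    v.asIdeal.inertiaDeg O = 1 := by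
  obtain ⟨ε, hε⟩ := H55N.T2_equiv K h1
  have hlies : v.asIdeal.LiesOver u.asIdeal := ⟨hu⟩
  have := v.isMaximal
  have := u.isMaximal
  have h6 := Ideal.relNorm_eq_pow_of_isMaximal v.asIdeal u.asIdeal
  have h7 : v.asIdeal = (ε u.asIdeal) ^ (v.asIdeal.inertiaDeg O) := by
    obtain ⟨J, hJ⟩ := ε.surjective v.asIdeal
    obtain ⟨J', hJ'⟩ := ε.surjective ((ε u.asIdeal) ^ (v.asIdeal.inertiaDeg O))
    have h8 := (hε J).1
    have h9 := (hε J').1
    rw [hJ, h6] at h8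
    rw [hJ', map_pow, (hε _).1] at h9
    have h10 : J = J' := by rw [← h8, ← h9]
    exact hJ.symm.trans ((congrArg ε h10).trans hJ')
  have hirr := v.irreducible
  have hpos : 0 < v.asIdeal.inertiaDeg O := Ideal.inertiaDeg_pos v.asIdeal O
  obtain ⟨g, hg'⟩ : ∃ g, v.asIdeal.inertiaDeg O = g + 1 := ⟨_, (Nat.sub_add_cancel hpos).symm⟩
  rw [hg'] at h7
  rw [hg']
  have hnu : ¬ IsUnit (ε u.asIdeal) := by
    intro h
    apply hirr.not_isUnit
    rw [h7]
    exact h.pow _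
  rw [h7, pow_succ] at hirr
  rcases hirr.isUnit_or_isUnit rfl with h | h
  · rcases Nat.eq_zero_or_pos g with h0 | h0
    · rw [h0]
    · exact absurd ((isUnit_pow_iff h0.ne').1 h) hnu
  · exact absurd h hnu

theorem A1_Psi (v : HeightOneSpectrum O) (h3 : (3 : O) ∉ v.asIdeal) :
    H55N.Psi F v.asIdeal = (starRingEnd ℂ) (e (gen v)) := by
  have h := H55N.Psi_prime (K := F) v v (A1_under v)
  rw [A1_inertia F (Module.finrank_self F) v v (A1_under v), pow_one, H55N.psiF_prime v h3] at h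
  exact h

theorem A1_card (v : HeightOneSpectrum (𝓞 F)) (h3 : (3 : 𝓞 F) ∉ v.asIdeal)
    (i : Algebra O (𝓞 F ⧸ v.asIdeal)) :
    Nat.card (W27O⁄(𝓞 F ⧸ v.asIdeal)).toAffine.Point =
      Nat.card {p : (𝓞 F ⧸ v.asIdeal) × (𝓞 F ⧸ v.asIdeal) // p.2 ^ 2 + p.2 = p.1 ^ 3} + 1 :=
  PZ5_card F v h3

theorem card_pts (v : HeightOneSpectrum O) (h3 : (3 : O) ∉ v.asIdeal) :
    Nat.card (W27O⁄(O ⧸ v.asIdeal)).toAffine.Point = H55B.Nm (1 - gen v) := by
  have h1 := cardE F v h3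
  rw [A1_Psi v h3] at h1
  rw [A1_card v h3] at h1
  have h4 : Nat.card (W27O⁄(O ⧸ v.asIdeal)).toAffine.Point =
      Nat.card {p : (O ⧸ v.asIdeal) × (O ⧸ v.asIdeal) // p.2 ^ 2 + p.2 = p.1 ^ 3} + 1 :=
    PZ5_card F v h3
  rw [h4]
  have h5 : ((Nat.card {p : (O ⧸ v.asIdeal) × (O ⧸ v.asIdeal) // p.2 ^ 2 + p.2 = p.1 ^ 3} + 1 : ℕ) : ℂ) =
      ((H55B.Nm (1 - gen v) : ℕ) : ℂ) := by
    rw [h1, Complex.conj_conj]
    have h6 : ((H55B.Nm (1 - gen v) : ℕ) : ℂ) = ((‖e (1 - gen v)‖ ^ 2 : ℝ) : ℂ) := by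
      rw [← H55B.Nm_eq]
      push_cast
      rfl
    rw [h6, Complex.sq_norm, ← Complex.mul_conj, map_sub, map_one, map_sub, map_one]
    ring
  exact_mod_cast h5

theorem good_two {p l : ℕ} (hp : p.Prime) (hl : l.Prime) (h3 : l % 3 = 2) (hlp : l ≠ p)
    (h : ¬ p ∣ l + 1) : GoodL p l := by
  intro v hlv
  have hint : ∀ n : ℕ, Nat.Coprime l n → (n : O) ∉ v.asIdeal := by
    intro n hn hnv
    apply v.isPrime.ne_top
    rw [Ideal.eq_top_iff_one]
    have h1 : IsCoprime (l : ℤ) (n : ℤ) := Nat.isCoprime_iff_coprime.2 hn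
    obtain ⟨a, b, hab⟩ := h1
    have h2 : (1 : O) = (a : O) * (l : O) + (b : O) * (n : O) := by
      have h4 := congrArg (Int.cast : ℤ → O) hab
      push_cast at h4
      exact h4.symm
    rw [h2]
    exact v.asIdeal.add_mem (v.asIdeal.mul_mem_left _ hlv) (v.asIdeal.mul_mem_left _ hnv)
  have h3v : (3 : O) ∉ v.asIdeal := by
    have := hint 3 ((Nat.coprime_primes hl Nat.prime_three).2 (by rintro rfl; omega))
    exact_mod_cast this
  refine ⟨h3v, hint p ((Nat.coprime_primes hl hp).2 hlp), ?_⟩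
  have hsp : v.asIdeal = Ideal.span {(l : O)} := by
    rcases H55B.prime_types v h3v with ⟨l', hl', h3l', hN⟩ | ⟨q, hq, hq3, hv⟩
    · exfalso
      have h5 : (l' : O) ∈ v.asIdeal := by
        rw [← hN]
        exact Ideal.absNorm_mem v.asIdeal
      have h6 : l = l' := by
        by_contra hne
        exact hint l' ((Nat.coprime_primes hl hl').2 hne) h5
      subst h6
      -- norm of gen v is l = 2 mod 3
      obtain ⟨hg1, hg2⟩ := H55B.gen_spec v h3v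
      have h7 := H55B.absNorm_gen v h3v
      obtain ⟨a, b, hab⟩ := H55B.exists_repr (gen v)
      have h8 := H55B.Nm_repr a b
      rw [← hab, ← h7, hN] at h8
      have h9 : (l : ℤ) % 3 = 2 := by exact_mod_cast (by omega : ((l % 3 : ℕ) : ℤ) = 2)
      rw [h8] at h9
      have h10 : (a ^ 2 - a * b + b ^ 2) % 3 = (a + b) ^ 2 % 3 := by
        have : (a ^ 2 - a * b + b ^ 2) = (a + b) ^ 2 - 3 * (a * b) := by ring
        rw [this]
        omega
      rw [h10] at h9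
      have h11 : ∀ c : ℤ, c ^ 2 % 3 ≠ 2 := by
        intro c
        have : c % 3 = 0 ∨ c % 3 = 1 ∨ c % 3 = 2 := by omega
        rcases this with h | h | h <;> rw [pow_two, Int.mul_emod, h] <;> norm_num
      exact h11 _ h9
    · have h5 : (q : O) ∈ v.asIdeal := by
        rw [hv]
        exact Ideal.mem_span_singleton_self _
      have h6 : l = q := by
        by_contra hne
        exact hint q ((Nat.coprime_primes hl hq).2 hne) h5
      rw [h6]
      exact hv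
  obtain ⟨hg1, hg2⟩ := H55B.gen_spec v h3v
  have hgen : gen v = -(l : O) := by
    apply H55B.Prim.eq_of_associated hg2
    · obtain ⟨k, hk⟩ : ∃ k : ℕ, l + 1 = 3 * k := ⟨(l + 1) / 3, by omega⟩
      refine ⟨-(k : O), ?_⟩
      have h5 : ((l + 1 : ℕ) : O) = ((3 * k : ℕ) : O) := by rw [hk]
      push_cast at h5
      linear_combination -h5
    · have h6 : Ideal.span {gen v} = Ideal.span {(l : O)} := by rw [← hg1, hsp]
      exact (Ideal.span_singleton_eq_span_singleton.1 h6).neg_right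
  rw [card_pts v h3v, hgen]
  have h8 := H55B.Nm_repr (l + 1) 0
  have h9 : (((l + 1 : ℤ) : O) + ((0 : ℤ) : O) * om) = 1 - -(l : O) := by push_cast; ring
  rw [h9] at h8
  have h10 : H55B.Nm (1 - -(l : O)) = (l + 1) ^ 2 := by
    have : ((H55B.Nm (1 - -(l : O)) : ℕ) : ℤ) = (((l + 1) ^ 2 : ℕ) : ℤ) := by
      rw [h8]
      push_cast
      ring
    exact_mod_cast this
  rw [h10]
  intro hd
  exact h (hp.dvd_of_dvd_pow hd)

end H28R
end

-- from Lib.H28R.A9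
section

open NumberField IsDedekindDomain WeierstrassCurve

namespace H28R

open H55B (F O om e Prim gen cj)
open H55P H55R

/-! Chunk A9 (M): bad_dvd: if v is not good, then p divides Nm (1 - gen v) = (1 - gen v)(cj (1 - gen v)) (mul_cj),
so π divides it, so π | 1 - gen v or π | cj(1 - gen v) = 1 - cj (gen v). In the second case: gen v * cj (gen v) = Nm (gen v) = absNorm v = 1 mod p, so modulo π: gen v = gen v * cj (gen v) = 1. (π | p; Nm (gen v) = absNorm v by gen_spec and the definition of Nm.) good_conj: card_pts for v and v': gen v' = cj (gen v) (both primary generators of v'), Nm (1 - cj g) = Nm (1 - g); 3 and p are fixed by cj. (If 3 is in v, v is not good.) exists_pi: a prime of O above p (exists_prime over p: under_exists or Ideal.exists_ideal_over / HeightOneSpectrum containing p), 3 is not in it, π = gen v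
(gen_spec: primary, generates v, so prime). -/

theorem A9_dvd {π : O} {n : ℕ} {p : ℕ} (hd : π ∣ (p : O)) (h : p ∣ n) : π ∣ (n : O) := by
  obtain ⟨m, rfl⟩ := h
  rw [Nat.cast_mul]
  exact hd.mul_right _

theorem bad_dvd {p : ℕ} (hp : p.Prime) (v : HeightOneSpectrum O) (h3 : (3 : O) ∉ v.asIdeal)
    (hpv : (p : O) ∉ v.asIdeal) (hN : p ∣ Ideal.absNorm v.asIdeal - 1) (hg : ¬ GoodP p v) {π : O}
    (hπ : Prime π) (hd : π ∣ (p : O)) : π ∣ gen v - 1 := by
  have h1 : p ∣ Nat.card (W27O⁄(O ⧸ v.asIdeal)).toAffine.Point := by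
    by_contra h
    exact hg ⟨h3, hpv, h⟩
  rw [card_pts v h3] at h1
  have h2 := A9_dvd hd h1
  rw [← H55B.mul_cj] at h2
  rcases hπ.dvd_or_dvd h2 with h4 | h4
  · have e1 : gen v - 1 = -(1 - gen v) := by ring
    rw [e1]
    exact h4.neg_right
  · have h5 := A9_dvd hd hN
    have h6 : 1 ≤ Ideal.absNorm v.asIdeal := by
      rw [H55B.absNorm_gen v h3]
      exact Nat.pos_of_ne_zero fun h => (H55B.gen_spec v h3).2.ne_zero (H55B.Nm_eq_zero.1 h)
    rw [Nat.cast_sub h6, H55B.absNorm_gen v h3, ← H55B.mul_cj, Nat.cast_one] at h5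
    rw [map_sub, map_one] at h4
    have e1 : gen v - 1 = gen v * (1 - cj (gen v)) + (gen v * cj (gen v) - 1) := by ring
    rw [e1]
    exact dvd_add (h4.mul_left _) h5

theorem A9_Nm (x : O) : H55B.Nm (cj x) = H55B.Nm x := by
  have h : (H55B.Nm (cj x) : ℝ) = (H55B.Nm x : ℝ) := by
    rw [H55B.Nm_eq, H55B.Nm_eq, H55B.e_cj, RCLike.norm_conj]
  exact_mod_cast h

/-- The good primes are stable under complex conjugation. -/
theorem good_conj {p : ℕ} (v v' : HeightOneSpectrum O)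
    (h : ∀ x : O, cj x ∈ v'.asIdeal ↔ x ∈ v.asIdeal) (hg : GoodP p v) : GoodP p v' := by
  obtain ⟨h3, hp, hc⟩ := hg
  have h3' : (3 : O) ∉ v'.asIdeal := by
    intro h4
    apply h3
    rw [← h, map_ofNat]
    exact h4
  have hp' : (p : O) ∉ v'.asIdeal := by
    intro h4
    apply hp
    rw [← h, map_natCast]
    exact h4
  refine ⟨h3', hp', ?_⟩
  have hg1 := H55B.gen_spec v h3
  have hg2 := H55B.gen_spec v' h3'
  have hprim : Prim (cj (gen v)) := by
    obtain ⟨a, ha⟩ := hg1.2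
    refine ⟨cj a, ?_⟩
    have h4 := congrArg cj ha
    rw [map_sub, map_one, map_mul, map_ofNat] at h4
    exact h4
  have hass : Associated (gen v') (cj (gen v)) := by
    refine associated_of_dvd_dvd ?_ ?_
    · rw [H55B.gen_dvd_iff v' h3', h]
      exact (H55B.gen_dvd_iff v h3 _).1 dvd_rfl
    · have h4 : cj (gen v') ∈ v.asIdeal := by
        rw [← h, H55B.cj_cj]
        exact (H55B.gen_dvd_iff v' h3' _).1 dvd_rfl
      obtain ⟨c, hc'⟩ := (H55B.gen_dvd_iff v h3 _).2 h4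
      refine ⟨cj c, ?_⟩
      rw [← map_mul, ← hc', H55B.cj_cj]
  have heq := hg2.2.eq_of_associated hprim hass
  rw [card_pts v' h3', heq]
  rw [card_pts v h3] at hc
  have e1 : 1 - cj (gen v) = cj (1 - gen v) := by rw [map_sub, map_one]
  rw [e1, A9_Nm]
  exact hc

/-- A primary prime element above p. -/
theorem exists_pi {p : ℕ} (hp : p.Prime) (h5 : 5 ≤ p) : ∃ π : O, Prime π ∧ Prim π ∧ π ∣ (p : O) := by
  have hnu : ¬ IsUnit (p : O) := by
    rw [← H55B.Nm_eq_one]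
    intro h
    have h1 := H55B.Nm_repr (p : ℤ) 0
    have e : ((p : ℤ) : O) + ((0 : ℤ) : O) * om = (p : O) := by push_cast; ring
    rw [e, h] at h1
    have h2 : (p : ℤ) ≥ 5 := by exact_mod_cast h5
    push_cast at h1
    nlinarith
  have hp0 : (p : O) ≠ 0 := by
    rw [Ne, Nat.cast_eq_zero]
    exact hp.ne_zero
  obtain ⟨M, hM, hpM⟩ := Ideal.exists_le_maximal (Ideal.span {(p : O)}) (by
    rw [Ne, Ideal.span_singleton_eq_top]
    exact hnu)
  have hpM' : (p : O) ∈ M := hpM (Ideal.mem_span_singleton_self _)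
  have hM0 : M ≠ ⊥ := by
    rintro rfl
    exact hp0 ((Submodule.mem_bot _).1 hpM')
  let v : HeightOneSpectrum O := ⟨M, hM.isPrime, hM0⟩
  have h3 : (3 : O) ∉ v.asIdeal := by
    intro h3
    have hcop : Nat.Coprime p 3 := (Nat.coprime_primes hp Nat.prime_three).2 (by omega)
    have h4 := Nat.isCoprime_iff_coprime.2 hcop
    obtain ⟨a, b, hab⟩ := h4
    apply hM.ne_top
    rw [Ideal.eq_top_iff_one]
    have e : (1 : O) = (a : O) * (p : O) + (b : O) * 3 := by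
      have h5 := congrArg (Int.cast : ℤ → O) hab
      push_cast at h5
      exact h5.symm
    rw [e]
    exact M.add_mem (M.mul_mem_left _ hpM') (M.mul_mem_left _ h3)
  exact ⟨gen v, H55B.gen_prime v h3, (H55B.gen_spec v h3).2, (H55B.gen_dvd_iff v h3 _).2 hpM'⟩

end H28R
end

-- from Lib.H28R.W2
section

open NumberField IsDedekindDomain

namespace H28R

open H55B (F O om Prim gen)
open H55P H55R
open H28G (P27 xc yc act Tor sp ak TFld)

/-! Chunk W2 (M): Frobenius elements act as multiplication. kron_nf: B, with TFld L B β, from H28G.exists_TFld; W a prime of B above Q (under_exists); X' = mp i X, i : L -> B (IsScalarTower.toAlgHom F L B), X' <> 0, act β X' = mp i (act β X); W.valuation of β is < 1, of xc X' is <= 1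
(H28G.lift_lt, lift_le). H28G.kron (j from H28G.exists_emb, TFld.full): the congruences for X' at W. They descend to Q: if y in L has W.valuation (algebraMap y) < 1 then Q.valuation y < 1 (otherwise Q.valuation y⁻¹ <= 1, lift_le). act β X <> 0 since mp i is injective.
frob_act: T = 0 clear. T <> 0 is Q-integral (H28G.tor_int), sp σ T and act β T are <> 0 and in Tor b L, their coordinates are congruent modulo Q: xc (sp σ T) = σ (xc T) = xc T ^ Nm β = xc (act β T) (hσ, xc_sp, H28G.int_y for yc). H28G.fix_of_cong. (H55B.Nm is the norm.) -/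

theorem W2_desc {L B : Type} [Field L] [NumberField L] [Field B] [NumberField B] [Algebra L B]
    (Q : Pl L) (W : Pl B) (hW : W.under (𝓞 L) = Q) (y : L)
    (h : W.valuation B (algebraMap L B y) < 1) : Q.valuation L y < 1 := by
  by_contra hc
  rw [not_lt] at hc
  have hy : y ≠ 0 := by
    rintro rfl
    rw [map_zero] at hc
    exact absurd hc (not_le.2 zero_lt_one)
  have h1 : Q.valuation L y⁻¹ ≤ 1 := by
    rw [map_inv₀]
    exact inv_le_one_of_one_le₀ hc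
  have h2 := H28G.lift_le Q W hW y⁻¹ h1
  have h3 : W.valuation B (algebraMap L B y * algebraMap L B y⁻¹) = 1 := by
    rw [← map_mul, mul_inv_cancel₀ hy, map_one, map_one]
  rw [map_mul] at h3
  have h4 : W.valuation B (algebraMap L B y) * W.valuation B (algebraMap L B y⁻¹) < 1 :=
    lt_of_le_of_lt (mul_le_of_le_one_right' h2) h
  exact absurd h3 h4.ne

theorem kron_nf {L : Type} [Field L] [NumberField L] [DecidableEq L] [Algebra F L] {β : O}
    (hp : Prime β) (hβ : Prim β) (Q : Pl L) (hQ : algebraMap O (𝓞 L) β ∈ Q.asIdeal) {X : P27 L}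
    (hX : X ≠ 0) (h1 : Q.valuation L (xc X) ≤ 1) :
    act β X ≠ 0 ∧ Q.valuation L (xc (act β X) - xc X ^ H55B.Nm β) < 1 ∧
      Q.valuation L (yc (act β X) - yc X ^ H55B.Nm β) < 1 := by
  obtain ⟨B, _, _, _, _, _, _, hT⟩ := H28G.exists_TFld L β hp.ne_zero
  obtain ⟨W, hW⟩ := under_exists (L := B) Q
  obtain ⟨j⟩ := H28G.exists_emb (N := B)
  let i : L →ₐ[F] B := IsScalarTower.toAlgHom F L B
  have hi : ∀ x : L, i x = algebraMap L B x := fun x => rfl
  have hak : ∀ c : O, ak B c = algebraMap L B (ak L c) := fun c =>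
    IsScalarTower.algebraMap_apply F L B (c : F)
  have hX0 : H28G.mp i X ≠ 0 := H28G.mp_ne i hX
  have hv : Q.valuation L (ak L β) < 1 := by
    rw [H28G.ak_int]
    exact (HeightOneSpectrum.valuation_lt_one_iff_mem Q (algebraMap O (𝓞 L) β)).2 hQ
  have hv' : W.valuation B (ak B β) < 1 := by
    rw [hak]
    exact H28G.lift_lt Q W hW _ hv
  have hint : W.valuation B (xc (H28G.mp i X)) ≤ 1 := by
    rw [H28G.xc_mp, hi]
    exact H28G.lift_le Q W hW _ h1
  obtain ⟨k1, k2, k3, k4⟩ := H28G.kron (W.valuation B) j hp hβ hT.full hv' hX0 hint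
  refine ⟨?_, ?_, ?_⟩
  · intro h0
    apply k1
    rw [← H28G.mp_act, h0, map_zero]
  · apply W2_desc Q W hW
    rw [← H28G.mp_act, H28G.xc_mp, H28G.xc_mp, hi, hi, ← map_pow, ← map_sub] at k3
    exact k3
  · apply W2_desc Q W hW
    rw [← H28G.mp_act, H28G.yc_mp, H28G.yc_mp, hi, hi, ← map_pow, ← map_sub] at k4
    exact k4

theorem frob_act {K L : Type} [Field K] [NumberField K] [Field L] [NumberField L] [DecidableEq L]
    [Algebra F K] [Algebra K L] [Algebra F L] [IsScalarTower F K L] {β : O} (hp : Prime β)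
    (hβ : Prim β) (Q : Pl L) (hQ : algebraMap O (𝓞 L) β ∈ Q.asIdeal) {b : O}
    (hb : algebraMap O (𝓞 L) b ∉ Q.asIdeal) (σ : L ≃ₐ[K] L)
    (hσ : ∀ x : L, Q.valuation L x ≤ 1 → Q.valuation L (σ x - x ^ H55B.Nm β) < 1) {T : P27 L}
    (hT : T ∈ Tor b L) : sp σ T = act β T := by
  by_cases h0 : T = 0
  · rw [h0, map_zero, map_zero]
  have hx : Q.valuation L (xc T) ≤ 1 := H28G.tor_int Q hb hT h0
  have hy : Q.valuation L (yc T) ≤ 1 := H28G.int_y (Q.valuation L) hx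
  obtain ⟨k1, k2, k3⟩ := kron_nf hp hβ Q hQ h0 hx
  have h3 : (3 : 𝓞 L) ∉ Q.asIdeal := by
    intro h3
    obtain ⟨c, hc⟩ := hβ
    have h4 : algebraMap O (𝓞 L) (β - 1) ∈ Q.asIdeal := by
      rw [hc, map_mul, map_ofNat]
      exact Q.asIdeal.mul_mem_right _ h3
    have h5 : (1 : 𝓞 L) ∈ Q.asIdeal := by
      have h6 := sub_mem hQ h4
      rw [map_sub, map_one] at h6
      simpa using h6
    exact Q.isPrime.ne_top ((Ideal.eq_top_iff_one _).2 h5)
  have hTa : act β T ∈ Tor b L := by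
    rw [H28G.mem_Tor, ← H28G.act_mul, mul_comm, H28G.act_mul, H28G.mem_Tor.1 hT]
    exact map_zero _
  refine H28G.fix_of_cong Q h3 hb ((H28G.sp_mem σ b T).2 hT) hTa (H28G.sp_ne σ h0) k1 ?_ ?_
  · rw [H28G.xc_sp]
    have e : σ (xc T) - xc (act β T) = (σ (xc T) - xc T ^ H55B.Nm β) -
      (xc (act β T) - xc T ^ H55B.Nm β) := by ring
    rw [e]
    exact (Q.valuation L).map_sub_lt (hσ _ hx) k2
  · rw [H28G.yc_sp]
    have e : σ (yc T) - yc (act β T) = (σ (yc T) - yc T ^ H55B.Nm β) -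
      (yc (act β T) - yc T ^ H55B.Nm β) := by ring
    rw [e]
    exact (Q.valuation L).map_sub_lt (hσ _ hy) k3

end H28R
end

-- from Lib.H28R.W3
section

open NumberField IsDedekindDomain

namespace H28R

open H55B (F O om Prim gen)
open H55P H55R
open H28G (P27 xc yc act Tor sp ak TFld Full)

/-! Chunk W3 (M): not all points killed by π are rational over C = K(ζ). Suppose Full π C; T in Tor π C, T <> 0 (H28G.exists_tor). l a prime, l = 2 mod 3, p | l - 1 (exists_prime_p with n = 1). β = -l: prime in O (l = 2 mod 3 is inert: H55B.prime_types, or Nm l = l^2 and no element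
of norm l; there should be a lemma for inert primes in H55B/H55C), Prim, Nm β = l^2. W a prime of C above v = (l) (under_exists), v.asIdeal = span {β}, absNorm v = l^2. H28G.frob: σ in the group of C/F with σ x = x^(l^2) mod W for W-integral x. σ ζ = ζ: σ ζ - ζ^(l^2) has valuation < 1,
ζ^(l^2) = ζ (p | l^2 - 1), σ ζ is a power of ζ, and different p-th roots of unity are not congruent modulo W (their difference divides p; p not in W as l <> p: compare H28G/K6.lean not_cyc). So σ is in FixZ, a group of order p^k (Cyc.card, Cyc.pow), σ^(p^k) = 1. frob_act: sp σ T = act β T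
(π not in W: Nm π divides p^2). So T = sp (σ^(p^k)) T = act (β^(p^k)) T (sp_mul, sp_one, sp_act), π | (-l)^(p^k) - 1 (H28G.act_eq_zero), and l = 1 mod p: (-l)^(p^k) = -1 mod p (p^k odd), so π | 2 and π | p: contradiction (p odd: coprime integers). -/

theorem W3_Nm_nat (l : ℕ) : H55B.Nm (l : O) = l ^ 2 := by
  have h := H55B.Nm_repr (l : ℤ) 0
  have h1 : ((l : ℤ) : O) + ((0 : ℤ) : O) * om = (l : O) := by push_cast; ring
  rw [h1] at h
  have h2 : ((H55B.Nm (l : O) : ℕ) : ℤ) = ((l ^ 2 : ℕ) : ℤ) := by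
    rw [h]
    push_cast
    ring
  exact_mod_cast h2

theorem W3_inert {l : ℕ} (hl : l.Prime) (h3 : l % 3 = 2) : Prime (l : O) := by
  have hl3 : l ≠ 3 := by
    rintro rfl
    norm_num at h3
  have hl0 : (l : O) ≠ 0 := by
    intro h
    have h1 := W3_Nm_nat l
    rw [h, H55B.Nm_eq_zero.2 rfl] at h1
    have := hl.pos
    have h2 : 0 < l ^ 2 := by positivity
    omega
  have hne : Ideal.span {(l : O)} ≠ ⊤ := by
    rw [Ne, Ideal.span_singleton_eq_top, ← H55B.Nm_eq_one, W3_Nm_nat]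
    intro h
    have h1 : l = 1 := by
      have := Nat.pow_eq_one.1 h
      omega
    exact hl.one_lt.ne' h1
  obtain ⟨M, hM, hle⟩ := Ideal.exists_le_maximal _ hne
  have hmem : (l : O) ∈ M := hle (Ideal.mem_span_singleton_self _)
  let v : HeightOneSpectrum O := ⟨M, hM.isPrime, by
    rintro rfl
    exact hl0 ((Submodule.mem_bot O).1 hmem)⟩
  have hv3 : (3 : O) ∉ v.asIdeal := by
    intro h
    have h1 := (H55B.H1_int_mem (v := v) hl hmem 3).1 (by exact_mod_cast h)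
    have h2 : l ∣ 3 := by exact_mod_cast h1
    exact hl3 ((Nat.prime_dvd_prime_iff_eq hl Nat.prime_three).1 h2)
  rcases H55B.prime_types v hv3 with ⟨l', hl', hl'3, hN⟩ | ⟨q, hq, hq3, hvq⟩
  · exfalso
    have h1 : ((l' : ℕ) : O) ∈ v.asIdeal := by
      rw [← hN]
      exact Ideal.absNorm_mem v.asIdeal
    have h2 := (H55B.H1_int_mem (v := v) hl hmem (l' : ℤ)).1 (by exact_mod_cast h1)
    have h3' : l ∣ l' := by exact_mod_cast h2
    have h4 : l = l' := (Nat.prime_dvd_prime_iff_eq hl hl').1 h3'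
    obtain ⟨π, hπ⟩ := (IsPrincipalIdealRing.principal v.asIdeal).principal
    have hπ' : v.asIdeal = Ideal.span {π} := hπ
    have hNm : H55B.Nm π = l := by
      rw [h4, ← hN, hπ']
      rfl
    obtain ⟨a, b, rfl⟩ := H55B.exists_repr π
    have h5 := H55B.Nm_repr a b
    rw [hNm] at h5
    have h6 : ((l : ℤ)) % 3 = 2 := by exact_mod_cast h3
    rw [h5] at h6
    have ha : a % 3 = 0 ∨ a % 3 = 1 ∨ a % 3 = 2 := by omega
    have hb : b % 3 = 0 ∨ b % 3 = 1 ∨ b % 3 = 2 := by omega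
    rcases ha with ha | ha | ha <;> rcases hb with hb | hb | hb <;>
      simp [pow_two, Int.sub_emod, Int.add_emod, Int.mul_emod, ha, hb] at h6
  · have h1 : ((q : ℕ) : O) ∈ v.asIdeal := by
      rw [hvq]
      exact Ideal.mem_span_singleton_self _
    have h2 := (H55B.H1_int_mem (v := v) hq h1 (l : ℤ)).1 (by exact_mod_cast hmem)
    have h3' : q ∣ l := by exact_mod_cast h2
    have h4 : q = l := (Nat.prime_dvd_prime_iff_eq hq hl).1 h3'
    rw [h4] at hvq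
    have h5 := v.isPrime
    rw [hvq] at h5
    exact (Ideal.span_singleton_prime hl0).1 h5

theorem W3_iter {C : Type} [Field C] [NumberField C] [DecidableEq C] [Algebra F C]
    {σ : C ≃ₐ[F] C} {T : P27 C} {β : O} (h : sp σ T = act β T) (n : ℕ) :
    sp (σ ^ n) T = act (β ^ n) T := by
  induction n with
  | zero => rw [pow_zero, pow_zero, H28G.sp_one, H28G.act_one]
  | succ n ih =>
    rw [pow_succ', H28G.sp_mul, ih, H28G.sp_act, h, ← H28G.act_mul, pow_succ]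

theorem not_full {p : ℕ} (hp : p.Prime) (h5 : 5 ≤ p) {K C : Type} [Field K] [NumberField K]
    [Field C] [NumberField C] [DecidableEq C] [Algebra F K] [Algebra F C] [Algebra K C]
    [IsScalarTower F K C] {ζ : C} (h : Cyc p K C ζ) {π : O} (hπ : Prime π) (hd : π ∣ (p : O)) :
    ¬ Full π C := by
  intro hF
  have hgal := h.gal
  obtain ⟨T, hT, hT0⟩ := H28G.exists_tor hπ hF
  obtain ⟨l, hl, hlp, h3, hpl⟩ := exists_prime_p hp h5 1 p
  rw [pow_one] at hpl
  have hin := W3_inert hl h3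
  have hl0 : (l : O) ≠ 0 := hin.ne_zero
  let v : Pl F := ⟨Ideal.span {(l : O)}, (Ideal.span_singleton_prime hl0).2 hin, by
    rw [Ne, Ideal.span_singleton_eq_bot]
    exact hl0⟩
  have hN : Ideal.absNorm v.asIdeal = l ^ 2 := W3_Nm_nat l
  obtain ⟨W, hW⟩ := under_exists (K := F) (L := C) v
  have hWp := W.isPrime
  obtain ⟨σ, hσ⟩ := H28G.K6_frob (K := F) W
  have hfr := H28G.K6_frob_val W v hW σ hσ
  have hunder : ∀ c : O, algebraMap O (𝓞 C) c ∈ W.asIdeal ↔ (l : O) ∣ c := by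
    intro c
    have e : W.asIdeal.under O = Ideal.span {(l : O)} := congrArg HeightOneSpectrum.asIdeal hW
    rw [← Ideal.mem_span_singleton, ← e]
    rfl
  have hlW : ((l : ℕ) : 𝓞 C) ∈ W.asIdeal := by
    have := (hunder (l : O)).2 dvd_rfl
    rwa [map_natCast] at this
  have hpW : ((p : ℕ) : 𝓞 C) ∉ W.asIdeal := by
    intro hpm
    have hc : IsCoprime (l : ℤ) (p : ℤ) := by
      rw [Nat.isCoprime_iff_coprime]
      exact (Nat.coprime_primes hl hp).2 (by omega)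
    obtain ⟨x, y, hxy⟩ := hc
    apply hWp.ne_top
    rw [Ideal.eq_top_iff_one]
    have e : (1 : 𝓞 C) = (x : 𝓞 C) * (l : 𝓞 C) + (y : 𝓞 C) * (p : 𝓞 C) := by
      have := congrArg (fun z : ℤ => (z : 𝓞 C)) hxy
      push_cast at this
      exact this.symm
    rw [e]
    exact add_mem (W.asIdeal.mul_mem_left _ hlW) (W.asIdeal.mul_mem_left _ hpm)
  have hπW : algebraMap O (𝓞 C) π ∉ W.asIdeal := by
    intro hm
    apply hpW
    obtain ⟨c, hc⟩ := hd
    have e : ((p : ℕ) : 𝓞 C) = algebraMap O (𝓞 C) π * algebraMap O (𝓞 C) c := by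
      rw [← map_mul, ← hc, map_natCast]
    rw [e]
    exact W.asIdeal.mul_mem_right _ hm
  have hβ : Prime (-(l : O)) := hin.neg
  have hβP : Prim (-(l : O)) := by
    have h1 : 3 ∣ l + 1 := by omega
    obtain ⟨m, hm⟩ := h1
    refine ⟨-(m : O), ?_⟩
    have h2 : ((l + 1 : ℕ) : O) = ((3 * m : ℕ) : O) := by rw [hm]
    push_cast at h2
    linear_combination -h2
  have hβN : H55B.Nm (-(l : O)) = l ^ 2 := by
    unfold H55B.Nm
    rw [Ideal.span_singleton_neg]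
    exact W3_Nm_nat l
  have hact : sp σ T = act (-(l : O)) T := by
    refine frob_act hβ hβP W ?_ hπW σ ?_ hT
    · rw [hunder]
      exact (dvd_neg).2 dvd_rfl
    · intro x hx
      rw [hβN, ← hN]
      exact hfr x hx
  have hζi : IsIntegral ℤ ζ := h.prim.isIntegral hp.pos
  let z : 𝓞 C := ⟨ζ, hζi⟩
  have hz : z ^ p = 1 := by
    apply RingOfIntegers.ext
    show ζ ^ p = 1
    exact h.prim.pow_eq_one
  have h11 := AlgHom.IsArithFrobAt.apply_of_pow_eq_one hσ hz hpW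
  rw [H28G.K6_card W v hW, hN] at h11
  have h12 : σ ζ = ζ := by
    have h13 := congrArg (fun x : 𝓞 C => (x : C)) h11
    have h14 : σ ζ = ζ ^ (l ^ 2) := h13
    rw [h14]
    obtain ⟨m, hm⟩ := hpl
    have hl1 : l = p * m + 1 := by
      have := hl.pos
      omega
    have hl2 : l ^ 2 = p * (m * (p * m + 2)) + 1 := by
      rw [hl1]
      ring
    rw [hl2, pow_succ, pow_mul, h.prim.pow_eq_one, one_pow, one_mul]
  obtain ⟨k, hk⟩ := h.pow
  have hcard := h.card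
  have hσn : σ ^ (p ^ k) = 1 := by
    have hfin : Finite (FixZ F ζ) := Finite.of_injective (fun s : FixZ F ζ => (s : C ≃ₐ[F] C))
      Subtype.val_injective
    have h1 : (⟨σ, h12⟩ : FixZ F ζ) ^ (p ^ k) = 1 := by
      rw [← hk, ← hcard]
      exact pow_card_eq_one'
    have h2 := congrArg (fun s : FixZ F ζ => (s : C ≃ₐ[F] C)) h1
    exact h2
  have h15 := W3_iter hact (p ^ k)
  rw [hσn, H28G.sp_one] at h15
  have h16 : act ((-(l : O)) ^ (p ^ k) - 1) T = 0 := by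
    rw [H28G.act_sub, ← h15, H28G.act_one, sub_self]
  have h17 : π ∣ (-(l : O)) ^ (p ^ k) - 1 := (H28G.act_eq_zero hπ hT hT0 _).1 h16
  have hodd : Odd (p ^ k) := (hp.odd_of_ne_two (by omega)).pow
  have h18 : π ∣ (-(l : O)) ^ (p ^ k) + 1 := by
    have h19 : (-(l : O)) - (-1) ∣ (-(l : O)) ^ (p ^ k) - (-1) ^ (p ^ k) := sub_dvd_pow_sub_pow _ _ _
    rw [hodd.neg_one_pow, sub_neg_eq_add, sub_neg_eq_add] at h19
    refine dvd_trans ?_ h19
    refine dvd_trans hd ?_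
    obtain ⟨m, hm⟩ := hpl
    refine ⟨-(m : O), ?_⟩
    have hl1 : l = p * m + 1 := by
      have := hl.pos
      omega
    have h2 : (l : O) = ((p * m + 1 : ℕ) : O) := by rw [← hl1]
    push_cast at h2
    linear_combination -h2
  have h20 : π ∣ 2 := by
    have h21 := dvd_sub h18 h17
    have e : ((-(l : O)) ^ (p ^ k) + 1) - ((-(l : O)) ^ (p ^ k) - 1) = 2 := by ring
    rwa [e] at h21
  obtain ⟨j, hj⟩ := hp.odd_of_ne_two (by omega)
  have h22 : π ∣ 1 := by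
    have h23 := dvd_sub hd (h20.mul_right (j : O))
    have e : (p : O) - 2 * (j : O) = 1 := by
      have h2 : (p : O) = ((2 * j + 1 : ℕ) : O) := by rw [← hj]
      push_cast at h2
      linear_combination h2
    rwa [e] at h23
  exact hπ.not_isUnit (isUnit_of_dvd_one h22)

/-- The field of the π-torsion over C is different from C. -/
theorem rank_ne {p : ℕ} (hp : p.Prime) (h5 : 5 ≤ p) {K C : Type} [Field K] [NumberField K]
    [Field C] [NumberField C] [DecidableEq C] [Algebra F K] [Algebra F C] [Algebra K C]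
    [IsScalarTower F K C] {ζ : C} (h : Cyc p K C ζ) {π : O} (hπ : Prime π) (hd : π ∣ (p : O))
    (D : Type) [Field D] [NumberField D] [DecidableEq D] [Algebra C D] [Algebra F D]
    [IsScalarTower F C D] (hD : TFld C D π) : Module.finrank C D ≠ 1 := by
  intro h1
  apply not_full hp h5 h hπ hd
  let i : C →ₐ[F] D := IsScalarTower.toAlgHom F C D
  have hinj : Function.Injective i := i.toRingHom.injective
  have hsurj : Function.Surjective i := by
    intro y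
    obtain ⟨v, hv⟩ := finrank_eq_one_iff'.1 h1
    obtain ⟨hv0, hv1⟩ := hv
    obtain ⟨c, hc⟩ := hv1 y
    obtain ⟨c1, hc1⟩ := hv1 1
    have hc10 : c1 ≠ 0 := by
      rintro rfl
      rw [zero_smul] at hc1
      exact zero_ne_one hc1
    refine ⟨c / c1, ?_⟩
    show algebraMap C D (c / c1) = y
    have e : v = c1⁻¹ • (1 : D) := by
      rw [← hc1, smul_smul, inv_mul_cancel₀ hc10, one_smul]
    rw [← hc, e, smul_smul, Algebra.smul_def, mul_one, div_eq_mul_inv]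
  let E : C ≃ₐ[F] D := AlgEquiv.ofBijective i ⟨hinj, hsurj⟩
  have hfull := hD.full
  unfold Full at hfull ⊢
  rw [← hfull]
  let φ : Tor π C → Tor π D := fun S =>
    ⟨H28G.mp (E : C →ₐ[F] D) S.1, (H28G.mp_mem_Tor (E : C →ₐ[F] D) π S.1).2 S.2⟩
  refine Nat.card_congr (Equiv.ofBijective φ ⟨?_, ?_⟩)
  · intro a b hab
    exact Subtype.ext (H28G.mp_inj _ (congrArg Subtype.val hab))
  · rintro ⟨R, hR⟩
    refine ⟨⟨H28G.mp (E.symm : D →ₐ[F] C) R, (H28G.mp_mem_Tor _ π R).2 hR⟩, ?_⟩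
    apply Subtype.ext
    show H28G.mp (E : C →ₐ[F] D) (H28G.mp (E.symm : D →ₐ[F] C) R) = R
    by_cases hR0 : R = 0
    · rw [hR0, map_zero, map_zero]
    · refine H28G.pt_ext (H28G.mp_ne _ (H28G.mp_ne _ hR0)) hR0 ?_ ?_
      · rw [H28G.xc_mp, H28G.xc_mp]
        exact E.apply_symm_apply _
      · rw [H28G.yc_mp, H28G.yc_mp]
        exact E.apply_symm_apply _

end H28R
end
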