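import Mathlib
import Pool.Agent.Lib.H1M.PP.D_H55P_Stm
import Pool.Agent.Lib.H1M.PP.M021
import Pool.Agent.Lib.H1M.PP.M042

/-! # H55K: the example y^2 + y = x^3 -/

open NumberField IsDedekindDomain WeierstrassCurve

namespace H55K.TQ

open H55P (IQ embF eF LF Per IsHecke Pt ac Inert Dec Nm UnitP)
open H35P (WAB Ker tt GoodW IntW)
open H55K.MG (VC Crd)

/-- The equation y^2 + y = x^3 over the integers. -/
def EZ : WeierstrassCurve ℤ := ⟨0, 0, 1, 0, 0⟩

theorem EZ_O : (EZ⁄(H55B.O)) = H55P.W27O := by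
  ext <;> simp [EZ, H55P.W27O, WeierstrassCurve.baseChange]

theorem EZ_K (K : Type) [Field K] [NumberField K] : (EZ⁄K) = H55B.E27.baseChange K := by
  ext <;> simp [EZ, H55B.E27, WeierstrassCurve.baseChange]

end H55K.TQ
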