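import Mathlib
import Pool.Agent.Lib.H1M.PP.D_H28T_Defs
import Pool.Agent.Lib.H1M.PP.D_H55P_Z10
import Pool.Agent.Lib.H1M.PP.M008
import Pool.Agent.Lib.H1M.PP.M010
import Pool.Agent.Lib.H1M.PP.M026
import Pool.Agent.Lib.H1M.PP.M034
import Pool.Agent.Lib.H1M.PP.M037
import Pool.Agent.Lib.H1M.PP.M038
import Pool.Agent.Lib.H1M.PP.M042
import Pool.Agent.Lib.H1M.PP.M047
import Pool.Agent.Lib.H1M.PP.M048
import Pool.Agent.Lib.H1M.PP.M054

/-! Merged copies (to shorten the build) of Lib.H13D.E5, Lib.H28I.V0, Lib.H28I.V5, Lib.H28I.LA2, Lib.H28I.LA3, Lib.H28I.LA3B, Lib.H28I.LA4, Lib.H28I.LA4B, Lib.H28I.V3, Lib.H28I.V4, Lib.H13D.P3, Lib.H13R.R5, Lib.H28I.G0, Lib.H55K.FC2, Lib.H28T.W13, Lib.H13R.R1. -/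

-- from Lib.H13D.E5
section

/-! # H13D, part E: the values of Yel and Zel at the good primes -/

open NumberField IsDedekindDomain WeierstrassCurve

namespace H13D

open H55P (IQ embF eF LF Per IsHecke Pt ac Inert Dec Nm)
open H35P (WAB Ker tt GoodW IntW)
open H55K
open H55K.MG (VC Crd)

variable {F : Type} [Field F] [NumberField F] [IQ F] {A B : F} {Ω : Type} [Field Ω] [DecidableEq Ω] [Algebra F Ω] {V : ValuationSubring Ω}

omit [NumberField F] [IQ F] in
theorem e5_neg (W₀ : WeierstrassCurve (𝓞 F)) {Q : Pt (W₀⁄F) Ω} (hQ : Q ≠ 0) : xc (-Q) = xc Q ∧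
    yc (-Q) = -yc Q - ak Ω W₀.a₁ * xc Q - ak Ω W₀.a₃ := by
  rcases Q with _ | ⟨x, y, hn⟩
  · exact absurd rfl hQ
  · exact ⟨rfl, rfl⟩

omit [NumberField F] [IQ F] in
theorem e5_eq (W₀ : WeierstrassCurve (𝓞 F)) {X : Pt (W₀⁄F) Ω} (hX : X ≠ 0) :
    yc X ^ 2 + ak Ω W₀.a₁ * xc X * yc X + ak Ω W₀.a₃ * yc X =
      xc X ^ 3 + ak Ω W₀.a₂ * xc X ^ 2 + ak Ω W₀.a₄ * xc X + ak Ω W₀.a₆ := by
  rcases X with _ | ⟨x, y, hn⟩
  · exact absurd rfl hX
  · exact (Affine.equation_iff _ _).1 hn.1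

omit [IQ F] in
theorem e5_two (W₀ : WeierstrassCurve (𝓞 F)) {Θ : Pt (WAB A B) Ω ≃+ Pt (W₀⁄F) Ω}
    (hc : Crd 1 (algebraMap F Ω (algebraMap (𝓞 F) F W₀.b₂ / 12)) (algebraMap F Ω (algebraMap (𝓞 F) F W₀.a₁ / 2))
        (algebraMap F Ω (algebraMap (𝓞 F) F W₀.a₃ / 2)) Θ) {P : Pt (WAB A B) Ω} (h0 : P ≠ 0) :
    2 * yc P = 2 * yc (Θ P) + ak Ω W₀.a₁ * xc (Θ P) + ak Ω W₀.a₃ := by
  have h1 := (hc P h0).2.2
  have h2 : (2 : Ω) * algebraMap F Ω (algebraMap (𝓞 F) F W₀.a₁ / 2) = ak Ω W₀.a₁ := by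
    have : (2 : Ω) = algebraMap F Ω 2 := (map_ofNat _ 2).symm
    rw [this, ← map_mul, mul_div_cancel₀ _ two_ne_zero]
  have h3 : (2 : Ω) * algebraMap F Ω (algebraMap (𝓞 F) F W₀.a₃ / 2) = ak Ω W₀.a₃ := by
    have : (2 : Ω) = algebraMap F Ω 2 := (map_ofNat _ 2).symm
    rw [this, ← map_mul, mul_div_cancel₀ _ two_ne_zero]
  rw [h1, ← h2, ← h3]
  ring

/-- Chunk E5 (S). yc P = y' + (a₁/2) x' + a₃/2 with (x', y') = Θ P (Crd; u = 1), Θ (-P) = -Θ P has the y-coordinate -y' - a₁ x' - a₃ (Affine.Point.neg_some, negY), so 2 yc P = y' - yc (-(Θ P)). -/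
theorem two_y (W₀ : WeierstrassCurve (𝓞 F)) {Θ : Pt (WAB A B) Ω ≃+ Pt (W₀⁄F) Ω}
    (hc : Crd 1 (algebraMap F Ω (algebraMap (𝓞 F) F W₀.b₂ / 12)) (algebraMap F Ω (algebraMap (𝓞 F) F W₀.a₁ / 2))
        (algebraMap F Ω (algebraMap (𝓞 F) F W₀.a₃ / 2)) Θ) {P : Pt (WAB A B) Ω} (h0 : P ≠ 0) :
    2 * yc P = yc (Θ P) - yc (-Θ P) := by
  rw [e5_two W₀ hc h0, (e5_neg W₀ (hc P h0).1).2]
  ring

/-- Chunk E5 (S/M). two_y; Θ P, -Θ P are integral (MG.int_crd, not in Ker), so the value is ≤ 1; if it were < 1 then Ker V (Θ P - (-Θ P)) by MG.cong_ker (equal x-coordinates), i.e. P + P in Kg. -/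
theorem val_two_y (W₀ : WeierstrassCurve (𝓞 F)) (hG : GoodW ((W₀⁄F)⁄Ω) V) {Θ : Pt (WAB A B) Ω ≃+ Pt (W₀⁄F) Ω}
    (hc : Crd 1 (algebraMap F Ω (algebraMap (𝓞 F) F W₀.b₂ / 12)) (algebraMap F Ω (algebraMap (𝓞 F) F W₀.a₁ / 2))
        (algebraMap F Ω (algebraMap (𝓞 F) F W₀.a₃ / 2)) Θ) {Kg : AddSubgroup (Pt (WAB A B) Ω)} (hK : ∀ P, P ∈ Kg ↔ Ker V (Θ P))
    {P : Pt (WAB A B) Ω} (hP : P ∉ Kg) (h2 : P + P ∉ Kg) : V.valuation (2 * yc P) = 1 := by
  have h0 : P ≠ 0 := by
    rintro rfl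
    exact hP Kg.zero_mem
  have hΘ : ¬ Ker V (Θ P) := fun h => hP ((hK P).2 h)
  have hΘ' : ¬ Ker V (-Θ P) := fun h => hΘ ((H35P.ker_neg _).1 h)
  obtain ⟨-, -, hy⟩ := MG.int_crd hG hΘ
  obtain ⟨-, -, hy'⟩ := MG.int_crd hG hΘ'
  rw [two_y W₀ hc h0]
  refine le_antisymm ((V.valuation_le_one_iff _).2 (sub_mem hy hy')) (not_lt.1 fun hlt => ?_)
  have h3 := MG.cong_ker hG hΘ hΘ' (by
    rw [(e5_neg W₀ (hc P h0).1).1, sub_self, map_zero]
    exact zero_lt_one) hlt
  apply h2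
  rw [hK, map_add]
  rwa [sub_neg_eq_add] at h3

/-- Chunk E5 (S). (2 y)^2 = (2y' + a₁ x' + a₃)^2 = 4x'^3 + b₂ x'^2 + 2 b₄ x' + b₆ = (a₁ x' + a₃)^2 + 4 (x'^3 + a₂ x'^2 + a₄ x' + a₆), x' = xc P - b₂/12 (Crd), from the equation of W₀ at Θ P. -/
theorem sq_two_y (W₀ : WeierstrassCurve (𝓞 F)) {Θ : Pt (WAB A B) Ω ≃+ Pt (W₀⁄F) Ω}
    (hc : Crd 1 (algebraMap F Ω (algebraMap (𝓞 F) F W₀.b₂ / 12)) (algebraMap F Ω (algebraMap (𝓞 F) F W₀.a₁ / 2))
        (algebraMap F Ω (algebraMap (𝓞 F) F W₀.a₃ / 2)) Θ) {P : Pt (WAB A B) Ω} (h0 : P ≠ 0) :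
    (2 * yc P) ^ 2 = (ak Ω W₀.a₁ * (xc P - algebraMap F Ω (algebraMap (𝓞 F) F W₀.b₂ / 12)) + ak Ω W₀.a₃) ^ 2 +
      4 * (xc (Θ P) ^ 3 + ak Ω W₀.a₂ * xc (Θ P) ^ 2 + ak Ω W₀.a₄ * xc (Θ P) + ak Ω W₀.a₆) := by
  have hx : xc P - algebraMap F Ω (algebraMap (𝓞 F) F W₀.b₂ / 12) = xc (Θ P) := by
    rw [(hc P h0).2.1]
    ring
  have he := e5_eq W₀ (hc P h0).1
  rw [hx, e5_two W₀ hc h0]
  linear_combination 4 * he

end H13D
end

-- from Lib.H28I.V0
section

/-! # H28I, part V: the points of the kernel -/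

open NumberField IsDedekindDomain WeierstrassCurve

namespace H28I

open H55P (IQ embF eF LF Per IsHecke Pt ac Inert Dec Nm)
open H35P (WAB Ker tt GoodW IntW)
open H55K (xc yc)

variable {k : Type} [Field k]

/-- Chunk V0 (S). t = 3 e^2 + A, e^3 + A e + B = 0: if t = 0 then A = -3 e^2, B = 2 e^3 and 4 A^3 + 27 B^2 = 0. -/
theorem t_ne {A B A' B' e t u : k} (h : VI A B A' B' e t u) (hu : u = 0) (he : e ^ 3 + A * e + B = 0)
    (ht : t = 3 * e ^ 2 + A) : t ≠ 0 := by
  intro h0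
  apply h.disc
  obtain rfl : A = -3 * e ^ 2 := by linear_combination h0 - ht
  obtain rfl : B = 2 * e ^ 3 := by linear_combination he
  ring

/-- Chunk V0 (S). If e^3 + A e + B = 0 then B = - e^3 - A e and 3 e^4 + 6 A e^2 + 12 B e - A^2 = - (3 e^2 + A)^2, so A = -3 e^2, B = 2 e^3 and 4 A^3 + 27 B^2 = 0. -/
theorem f_ne {A B e : k} (hd : 4 * A ^ 3 + 27 * B ^ 2 ≠ 0) (h3 : 3 * e ^ 4 + 6 * A * e ^ 2 + 12 * B * e - A ^ 2 = 0) :
    e ^ 3 + A * e + B ≠ 0 := by
  intro he
  apply hd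
  have h1 : (3 * e ^ 2 + A) ^ 2 = 0 := by linear_combination 12 * e * he - h3
  have h2 : 3 * e ^ 2 + A = 0 := pow_eq_zero_iff (two_ne_zero) |>.1 h1
  obtain rfl : A = -3 * e ^ 2 := by linear_combination h2
  obtain rfl : B = 2 * e ^ 3 := by linear_combination he
  ring

theorem v0_eq {A B x y : k} (h : (WAB A B).toAffine.Nonsingular x y) : y ^ 2 = x ^ 3 + A * x + B := by
  have h1 := (Affine.equation_iff x y).1 h.1
  simp only [WAB] at h1
  linear_combination h1

theorem v0_negY (A B x y : k) : (WAB A B).toAffine.negY x y = -y := by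
  unfold Affine.negY WAB
  ring

theorem v0_ext {W : WeierstrassCurve k} {P Q : W.toAffine.Point} (hP : P ≠ 0) (hQ : Q ≠ 0)
    (hx : xc P = xc Q) (hy : yc P = yc Q) : P = Q := by
  rcases P with _ | ⟨x, y, h⟩
  · exact absurd rfl hP
  rcases Q with _ | ⟨x', y', h'⟩
  · exact absurd rfl hQ
  have h1 : x = x' := hx
  have h2 : y = y' := hy
  subst h1 h2
  rfl

variable [DecidableEq k] [CharZero k]

/-- Chunk V0 (S/M). y^2 = 0 by the equation, so P = -P (Affine.Point.neg_some, negY = -y for the short equation). -/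
theorem two_pt {A B e : k} (he : e ^ 3 + A * e + B = 0) {P : (WAB A B).toAffine.Point} (h0 : P ≠ 0) (hx : xc P = e) :
    (2 : ℕ) • P = 0 := by
  rcases P with _ | ⟨x, y, hP⟩
  · exact absurd rfl h0
  have hxe : x = e := hx
  subst hxe
  have h1 := v0_eq hP
  rw [he] at h1
  have hy : y = 0 := pow_eq_zero_iff (two_ne_zero) |>.1 h1
  rw [two_nsmul]
  refine Affine.Point.add_self_of_Y_eq ?_
  rw [v0_negY, hy, neg_zero]

/-- Chunk V0 (M). P = some e y, y^2 = e^3 + A e + B ≠ 0 (f_ne). P + P = some x' .. with x' = ((3 e^2 + A)/(2 y))^2 - 2 e (Affine.Point.add_self_of_Y_ne, or add_some with slope_of_Y_ne; y ≠ negY = -y), and x' = e because (3 e^2 + A)^2 - 12 e y^2 = -(3 e^4 + 6 A e^2 + 12 B e - A^2) = 0.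
Two points with the same x-coordinate are equal or opposite: P + P = P gives P = 0, impossible; so P + P = -P. -/
theorem three_pt {A B e : k} (hd : 4 * A ^ 3 + 27 * B ^ 2 ≠ 0) (h3 : 3 * e ^ 4 + 6 * A * e ^ 2 + 12 * B * e - A ^ 2 = 0)
    {P : (WAB A B).toAffine.Point} (h0 : P ≠ 0) (hx : xc P = e) : (3 : ℕ) • P = 0 := by
  rcases P with _ | ⟨x, y, hP⟩
  · exact absurd rfl h0
  have hxe : x = e := hx
  subst hxe
  have h1 := v0_eq hP
  have hy : y ≠ 0 := by
    rintro rfl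
    apply f_ne hd h3
    rw [← h1]
    ring
  have hyn : y ≠ (WAB A B).toAffine.negY x y := by
    rw [v0_negY]
    intro h
    apply hy
    have h2 : 2 * y = 0 := by linear_combination h
    exact (mul_eq_zero.1 h2).resolve_left two_ne_zero
  have hadd := Affine.Point.add_self_of_Y_ne (h₁ := hP) hyn
  have hsl : (WAB A B).toAffine.slope x x y y = (3 * x ^ 2 + A) / (2 * y) := by
    rw [Affine.slope_of_Y_ne rfl hyn, v0_negY]
    have e1 : y - -y = 2 * y := by ring
    rw [e1]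
    simp only [WAB]
    congr 1
    ring
  have hX : (WAB A B).toAffine.addX x x ((WAB A B).toAffine.slope x x y y) = x := by
    rw [hsl]
    unfold Affine.addX
    simp only [WAB]
    have e2 : ((3 * x ^ 2 + A) / (2 * y)) ^ 2 = 3 * x := by
      rw [div_pow, div_eq_iff (pow_ne_zero 2 (mul_ne_zero two_ne_zero hy))]
      linear_combination -h3 - 12 * x * h1
    rw [e2]
    ring
  have hYY : (WAB A B).toAffine.addY x x y ((WAB A B).toAffine.slope x x y y) = -y := by
    unfold Affine.addY Affine.negAddY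
    rw [hX, v0_negY]
    ring
  have hPP : Affine.Point.some x y hP + Affine.Point.some x y hP = -Affine.Point.some x y hP := by
    rw [hadd, Affine.Point.neg_some]
    refine v0_ext (by simp) (by simp) hX ?_
    show (WAB A B).toAffine.addY x x y ((WAB A B).toAffine.slope x x y y) = (WAB A B).toAffine.negY x y
    rw [hYY, v0_negY]
  rw [succ_nsmul, two_nsmul, hPP, neg_add_cancel]

/-- Chunk V0 (S). two_pt or three_pt. -/
theorem six_pt {A B A' B' e t u : k} (h : VI A B A' B' e t u) {P : (WAB A B).toAffine.Point} (h0 : P ≠ 0) (hx : xc P = e) :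
    (6 : ℕ) • P = 0 := by
  rcases h.cs with ⟨-, he, -⟩ | ⟨-, -, h3⟩
  · have h1 := two_pt he h0 hx
    have h2 : (6 : ℕ) • P = (3 : ℕ) • ((2 : ℕ) • P) := by rw [← mul_nsmul']
    rw [h2, h1, nsmul_zero]
  · have h1 := three_pt h.disc h3 h0 hx
    have h2 : (6 : ℕ) • P = (2 : ℕ) • ((3 : ℕ) • P) := by rw [← mul_nsmul']
    rw [h2, h1, nsmul_zero]

end H28I
end

-- from Lib.H28I.V5
section

/-! # H28I, part V: surjectivity -/

open NumberField IsDedekindDomain WeierstrassCurve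

namespace H28I

open H55P (IQ embF eF LF Per IsHecke Pt ac Inert Dec Nm)
open H35P (WAB Ker tt GoodW IntW)
open H55K (xc yc)

variable {k : Type} [Field k] [CharZero k] [IsAlgClosed k]

/-- Chunk V5 (S/M). First case of h.cs: u = 0, t ≠ 0 (t_ne): the monic polynomial x (x - e) + t - X (x - e) has a root x (IsAlgClosed.exists_root, or the quadratic formula with a square root), x ≠ e because its value at e is t; vx e t 0 x = x + t/(x - e) = X. Second case: u = 4 (e^3 + A e + B) ≠ 0 (f_ne): a root x of the monic cubic x (x - e)^2 + t (x - e) + u - X (x - e)^2, x ≠ e. -/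
theorem vx_surj {A B A' B' e t u : k} (h : VI A B A' B' e t u) (X : k) : ∃ x, x ≠ e ∧ vx e t u x = X := by
  rcases h.cs with ⟨hu, he, ht⟩ | ⟨ht, hu, h3⟩
  · have ht0 := t_ne h hu he ht
    obtain ⟨s, hs⟩ := IsAlgClosed.exists_pow_nat_eq ((e - X) ^ 2 - 4 * t) (n := 2) (by norm_num)
    obtain ⟨z, hz⟩ : ∃ z, z = (-(e - X) + s) / 2 := ⟨_, rfl⟩
    have hz2 : z ^ 2 + (e - X) * z + t = 0 := by
      rw [hz]
      linear_combination (1 / 4 : k) * hs
    have hz0 : z ≠ 0 := by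
      rintro h0
      rw [h0] at hz2
      apply ht0
      linear_combination hz2
    refine ⟨z + e, ?_, ?_⟩
    · intro h1
      apply hz0
      linear_combination h1
    · unfold vx
      rw [add_sub_cancel_right, hu, zero_div, add_zero]
      field_simp
      linear_combination hz2
  · have hu0 : u ≠ 0 := by
      rw [hu]
      exact mul_ne_zero (by norm_num) (f_ne h.disc h3)
    obtain ⟨z, hz⟩ := IsAlgClosed.exists_root (Polynomial.C 1 * Polynomial.X ^ 3 + Polynomial.C (e - X) * Polynomial.X ^ 2 +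
      Polynomial.C t * Polynomial.X + Polynomial.C u : Polynomial k) (by
        rw [Polynomial.degree_cubic one_ne_zero]
        norm_num)
    have hz3 : z ^ 3 + (e - X) * z ^ 2 + t * z + u = 0 := by
      have h1 := hz
      rw [Polynomial.IsRoot.def] at h1
      simp only [Polynomial.eval_add, Polynomial.eval_mul, Polynomial.eval_C, Polynomial.eval_pow, Polynomial.eval_X,
        one_mul] at h1
      exact h1
    have hz0 : z ≠ 0 := by
      rintro h0
      rw [h0] at hz3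
      apply hu0
      linear_combination hz3
    refine ⟨z + e, ?_, ?_⟩
    · intro h1
      apply hz0
      linear_combination h1
    · unfold vx
      rw [add_sub_cancel_right]
      field_simp
      linear_combination hz3

/-- Chunk V5 (M). Q = 0: P = 0 (hΦ.zero). Q = some X Y: x from vx_surj, y with y^2 = x^3 + A x + B (IsAlgClosed.exists_pow_nat_eq); P = some x y (nonsingular: discriminant). vi_id: (vd x y)^2 = X^3 + A' X + B' = Y^2, so Y = vd x y or Y = - vd x y; in the second case take -y. Equality of points by coordinates (hΦ.x, hΦ.y, hΦ.ne). -/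
theorem v_surj {A B A' B' e t u : k} (h : VI A B A' B' e t u) {Φ : (WAB A B).toAffine.Point → (WAB A' B').toAffine.Point}
    (hΦ : IsV A B A' B' e t u Φ) : Function.Surjective Φ := by
  intro Q
  by_cases hQ : Q = 0
  · exact ⟨0, by rw [hΦ.zero, hQ]⟩
  obtain ⟨x, hx, hX⟩ := vx_surj h (xc Q)
  obtain ⟨y, hy⟩ := IsAlgClosed.exists_pow_nat_eq (x ^ 3 + A * x + B) (n := 2) (by norm_num)
  have hsq : (vd e t u x * y) ^ 2 = yc Q ^ 2 := by
    rw [mul_pow, hy, ← vi_id h hx, hX, v2_pt hQ]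
  have key : ∀ y' : k, y' ^ 2 = x ^ 3 + A * x + B → vd e t u x * y' = yc Q → ∃ P, Φ P = Q := by
    intro y' hy' hY
    have hP : (Affine.Point.some x y' (v2_ns h.disc hy') : (WAB A B).toAffine.Point) ≠ 0 :=
      Affine.Point.some_ne_zero _
    refine ⟨Affine.Point.some x y' (v2_ns h.disc hy'), v2_ext (hΦ.ne _ hP hx) hQ ?_ ?_⟩
    · rw [hΦ.x _ hP hx]
      exact hX
    · rw [hΦ.y _ hP hx]
      exact hY
  rcases sq_eq_sq_iff_eq_or_eq_neg.1 hsq with h1 | h1
  · exact key y hy h1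
  · refine key (-y) (by rw [neg_sq, hy]) ?_
    rw [mul_neg, h1, neg_neg]

end H28I
end

-- from Lib.H28I.LA2
section

/-! # H28I, part LA: the Weierstrass function of an overlattice -/

open NumberField IsDedekindDomain WeierstrassCurve

namespace H28I

open H55P (IQ embF eF LF Per IsHecke Pt ac Inert Dec Nm)
open H35P (WAB Ker tt GoodW IntW)
open H55K (xc yc)

/-- The difference. -/
noncomputable def la2_D (L L' : PeriodPair) (T : Finset ℂ) (z : ℂ) : ℂ :=
  L'.weierstrassP z - ∑ r ∈ T, L.weierstrassP (z + r)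

theorem la2_zero_notMem {L L' : PeriodPair} {S : Finset ℂ} (h : RepL L L' S) : (0 : ℂ) ∉ S :=
  fun h0 => h.out 0 h0 (zero_mem _)

theorem la2_per {L L' : PeriodPair} {S : Finset ℂ} (h : RepL L L' S) (T : Finset ℂ) (z : ℂ) (l : ℂ)
    (hl : l ∈ L.lattice) : la2_D L L' T (z + l) = la2_D L L' T z := by
  unfold la2_D
  rw [H55K.CC.wp_per L' z (h.le l hl)]
  congr 1
  refine Finset.sum_congr rfl fun r _ => ?_
  rw [show z + l + r = z + r + l by ring, H55K.CC.wp_per L (z + r) hl]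

open Classical in
theorem la2_out {L L' : PeriodPair} {S : Finset ℂ} (h : RepL L L' S) {z₀ r₀ : ℂ} (hr₀ : r₀ ∈ insert 0 S)
    (h0 : z₀ + r₀ ∈ L.lattice) {r : ℂ} (hr : r ∈ (insert 0 S).erase r₀) : z₀ + r ∉ L.lattice := by
  intro h1
  have hd : r - r₀ ∈ L.lattice := by
    have := sub_mem h1 h0
    rwa [show z₀ + r - (z₀ + r₀) = r - r₀ by ring] at this
  rw [Finset.mem_erase, Finset.mem_insert] at hr
  rw [Finset.mem_insert] at hr₀
  obtain ⟨hne, hr⟩ := hr
  rcases hr with rfl | hr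
  · rcases hr₀ with rfl | hr₀
    · exact hne rfl
    · rw [zero_sub, neg_mem_iff] at hd
      exact h.out _ hr₀ hd
  · rcases hr₀ with rfl | hr₀
    · rw [sub_zero] at hd
      exact h.out _ hr hd
    · exact hne (h.inj r hr r₀ hr₀ hd)

open Classical in
theorem la2_loc {L L' : PeriodPair} {S : Finset ℂ} (h : RepL L L' S) {z₀ r₀ : ℂ} (hr₀ : r₀ ∈ insert 0 S)
    (h0 : z₀ + r₀ ∈ L.lattice) {u u' : ℂ → ℂ} (hu : AnalyticAt ℂ u 0) (hu' : AnalyticAt ℂ u' 0)
    (hwp : ∀ z : ℂ, z ≠ 0 → L.weierstrassP z = (z ^ 2)⁻¹ + u z)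
    (hwp' : ∀ z : ℂ, z ≠ 0 → L'.weierstrassP z = (z ^ 2)⁻¹ + u' z) :
    AnalyticAt ℂ (fun z => u' (z - z₀) - u (z - z₀) -
      ∑ r ∈ (insert 0 S).erase r₀, L.weierstrassP (z + r)) z₀ ∧
    ∀ z, z ≠ z₀ → la2_D L L' (insert 0 S) z = u' (z - z₀) - u (z - z₀) -
      ∑ r ∈ (insert 0 S).erase r₀, L.weierstrassP (z + r) := by
  constructor
  · have h1 : AnalyticAt ℂ (fun z => u' (z - z₀)) z₀ := by
      have e : AnalyticAt ℂ u' ((fun z : ℂ => z - z₀) z₀) := by simpa using hu'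
      exact e.comp (f := fun z : ℂ => z - z₀) (by fun_prop)
    have h2 : AnalyticAt ℂ (fun z => u (z - z₀)) z₀ := by
      have e : AnalyticAt ℂ u ((fun z : ℂ => z - z₀) z₀) := by simpa using hu
      exact e.comp (f := fun z : ℂ => z - z₀) (by fun_prop)
    have h3 : AnalyticAt ℂ (fun z => ∑ r ∈ (insert 0 S).erase r₀, L.weierstrassP (z + r)) z₀ :=
      Finset.analyticAt_fun_sum _ fun r hr => H55K.CC.c2_an (la2_out h hr₀ h0 hr)
    exact (h1.sub h2).sub h3
  · intro z hz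
    have hz' : z - z₀ ≠ 0 := sub_ne_zero.2 hz
    have hb : z₀ ∈ L'.lattice := by
      have h1 := h.le _ h0
      have h2 : r₀ ∈ L'.lattice := by
        rw [Finset.mem_insert] at hr₀
        rcases hr₀ with rfl | hr₀
        · exact zero_mem _
        · exact h.mem _ hr₀
      have := sub_mem h1 h2
      rwa [show (z₀ + r₀) - r₀ = z₀ by ring] at this
    have e1 : L'.weierstrassP z = ((z - z₀) ^ 2)⁻¹ + u' (z - z₀) := by
      rw [← hwp' _ hz', ← H55K.CC.wp_per L' (z - z₀) hb]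
      congr 1
      ring
    have e2 : L.weierstrassP (z + r₀) = ((z - z₀) ^ 2)⁻¹ + u (z - z₀) := by
      rw [← hwp _ hz', ← H55K.CC.wp_per L (z - z₀) h0]
      congr 1
      ring
    unfold la2_D
    rw [← Finset.add_sum_erase _ _ hr₀, e1, e2]
    ring

open Classical in
/-- The proof of sum_wp. -/
theorem la2_main {L L' : PeriodPair} {S : Finset ℂ} (h : RepL L L' S) {z : ℂ} (hz : z ∉ L'.lattice) :
    L'.weierstrassP z = L.weierstrassP z + ∑ r ∈ S, (L.weierstrassP (z + r) - L.weierstrassP r) := by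
  obtain ⟨u, hu, hu0, hwp⟩ := H35P.wp_zero L
  obtain ⟨u', hu', hu'0, hwp'⟩ := H35P.wp_zero L'
  have han : ∀ z₀, z₀ ∉ L'.lattice → AnalyticAt ℂ (la2_D L L' (insert 0 S)) z₀ := by
    intro z₀ hz₀
    have h1 : AnalyticAt ℂ (fun z => L'.weierstrassP z) z₀ := H35P.wp_analytic L' _ hz₀
    have h3 : AnalyticAt ℂ (fun z => ∑ r ∈ insert 0 S, L.weierstrassP (z + r)) z₀ := by
      refine Finset.analyticAt_fun_sum _ fun r hr => H55K.CC.c2_an ?_
      rw [Finset.mem_insert] at hr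
      rcases hr with rfl | hr
      · rw [add_zero]; exact fun k => hz₀ (h.le _ k)
      · intro k
        apply hz₀
        have k1 := sub_mem (h.le _ k) (h.mem _ hr)
        rwa [show z₀ + r - r = z₀ by ring] at k1
    exact h1.sub h3
  obtain ⟨c, hc⟩ := H35P.liouville L (la2_D L L' (insert 0 S)) (fun z l hl => la2_per h _ z l hl) (by
    intro z₀
    by_cases hz₀ : z₀ ∈ L'.lattice
    · obtain ⟨r₀, hr₀, h0⟩ : ∃ r₀ ∈ insert 0 S, z₀ + r₀ ∈ L.lattice := by
        have h1 : (-z₀) ∈ L'.lattice := by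
          rw [neg_mem_iff]; exact hz₀
        rcases h.ex _ h1 with h2 | ⟨r, hr, h2⟩
        · exact ⟨0, Finset.mem_insert_self _ _, by rw [add_zero]; exact neg_mem_iff.1 h2⟩
        · refine ⟨r, Finset.mem_insert_of_mem hr, ?_⟩
          rw [← neg_mem_iff]
          rwa [show -(z₀ + r) = -z₀ - r by ring]
      obtain ⟨k1, k2⟩ := la2_loc h hr₀ h0 hu hu' hwp hwp'
      refine ⟨_, k1, ?_⟩
      filter_upwards [self_mem_nhdsWithin] with z hz using k2 z hz
    · exact ⟨_, han z₀ hz₀, Filter.Eventually.of_forall fun z => rfl⟩)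
  have h0 : (0 : ℂ) + 0 ∈ L.lattice := by rw [add_zero]; exact zero_mem _
  obtain ⟨k1, k2⟩ := la2_loc h (Finset.mem_insert_self 0 S) h0 hu hu' hwp hwp'
  have e1 := hc 0 _ k1.continuousAt (by
    filter_upwards [self_mem_nhdsWithin] with z hz using k2 z hz)
  have e2 := hc z _ (han z hz).continuousAt (Filter.Eventually.of_forall fun z => rfl)
  rw [← e1] at e2
  simp only [sub_zero, hu0, hu'0, zero_add, zero_sub] at e2
  rw [Finset.erase_insert (la2_zero_notMem h)] at e2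
  unfold la2_D at e2
  rw [Finset.sum_insert (la2_zero_notMem h), add_zero] at e2
  rw [Finset.sum_sub_distrib]
  linear_combination e2

/-- Chunk LA2 (M). Port of E1 (H55K/C2.lean) with two lattices: D(z) = wp_L'(z) - sum over r in insert 0 S of wp_L(z + r). It is periodic for the lattice of L' : for l in L' : translation by l permutes the classes modulo L (or, simpler: D is periodic for the lattice of L, which is enough for H35P.liouville L: wp_per for L and for L' (h.le)).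
Local: z0 not in L': every z0 + r (r in insert 0 S) is outside L' hence outside L: analytic (H35P.wp_analytic). z0 in L': there is exactly one r0 in insert 0 S with z0 + r0 in L (h.ex for -z0, h.inj, h.out); with u, u' from H35P.wp_zero for L, L': near z0: wp_L'(z) = ((z - z0)^2)^(-1) + u'(z - z0) and wp_L(z + r0) = ((z - z0)^2)^(-1) + u(z - z0), so
D(z) = u'(z - z0) - u(z - z0) - (the other terms), analytic. liouville gives a constant; at z0 = 0 (r0 = 0, u 0 = u' 0 = 0) it is - sum over S of wp_L r. -/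
theorem sum_wp {L L' : PeriodPair} {S : Finset ℂ} (h : RepL L L' S) {z : ℂ} (hz : z ∉ L'.lattice) :
    L'.weierstrassP z = L.weierstrassP z + ∑ r ∈ S, (L.weierstrassP (z + r) - L.weierstrassP r) :=
  la2_main h hz

end H28I
end

-- from Lib.H28I.LA3
section

/-! # H28I, part LA: translation by points of order 2 and 3 -/

open NumberField IsDedekindDomain WeierstrassCurve

namespace H28I

open H55P (IQ embF eF LF Per IsHecke Pt ac Inert Dec Nm)
open H35P (WAB Ker tt GoodW IntW)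
open H55K (xc yc)

/-- The formula with Om = 1. -/
theorem la3_add_sub (L : PeriodPair) {A B : ℂ} (g2 : L.g₂ = -4 * A) (g3 : L.g₃ = -4 * B) {w z : ℂ} (hw : w ∉ L.lattice)
    (hz : z ∉ L.lattice) (hzw : z + w ∉ L.lattice) (hzw' : z - w ∉ L.lattice) :
    L.weierstrassP z - L.weierstrassP w ≠ 0 ∧ L.weierstrassP (z + w) + L.weierstrassP (z - w) =
      2 * ((L.weierstrassP z + L.weierstrassP w) * (L.weierstrassP w * L.weierstrassP z + A) + 2 * B) /
        (L.weierstrassP z - L.weierstrassP w) ^ 2 := by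
  have h := H55K.CC.xl_add_sub L (A := A) (B := B) (Om := 1) one_ne_zero (by rw [g2]; ring) (by rw [g3]; ring) hz hw hzw hzw'
  simpa [H55K.CC.XL] using h

/-- The derivative vanishes at a point of order 2. -/
theorem la3_deriv (L : PeriodPair) {w : ℂ} (h2 : 2 * w ∈ L.lattice) : L.derivWeierstrassP w = 0 := by
  have h := H55K.CC.wpd_per L (-w) h2
  rw [show -w + 2 * w = w by ring, L.derivWeierstrassP_neg] at h
  linear_combination h / 2

/-- Chunk LA3 (S/M). z - w = (z + w) - 2 w is not in the lattice. H55K.CC.xl_add_sub with Om = 1 (XL L 1 z = wp z): wp z ≠ wp w and, wp(z - w) = wp(z + w) (periodicity), 2 wp(z + w) = 2 ((x + e)(x e + A) + 2 B)/(x - e)^2 with x = wp z, e = wp w. derivWeierstrassP w = 0 (odd, periodic: w and -w are congruent), so e^3 + A e + B = 0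
(L.derivWeierstrassP_sq). B = - e^3 - A e: field_simp, ring. -/
theorem two_add (L : PeriodPair) {A B : ℂ} (g2 : L.g₂ = -4 * A) (g3 : L.g₃ = -4 * B) {w z : ℂ} (hw : w ∉ L.lattice)
    (h2 : 2 * w ∈ L.lattice) (hz : z ∉ L.lattice) (hzw : z + w ∉ L.lattice) :
    L.weierstrassP z ≠ L.weierstrassP w ∧ L.weierstrassP (z + w) - L.weierstrassP w =
      (3 * L.weierstrassP w ^ 2 + A) / (L.weierstrassP z - L.weierstrassP w) := by
  have hzw' : z - w ∉ L.lattice := by
    intro h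
    apply hzw
    have := add_mem h h2
    rwa [show z - w + 2 * w = z + w by ring] at this
  obtain ⟨h0, h1⟩ := la3_add_sub L g2 g3 hw hz hzw hzw'
  have e1 : L.weierstrassP (z + w) = L.weierstrassP (z - w) := by
    rw [← H55K.CC.wp_per L (z - w) h2]
    congr 1
    ring
  have e2 := L.derivWeierstrassP_sq w hw
  rw [la3_deriv L h2, g2, g3] at e2
  rw [← e1] at h1
  refine ⟨sub_ne_zero.1 h0, ?_⟩
  have h1' : L.weierstrassP (z + w) = ((L.weierstrassP z + L.weierstrassP w) * (L.weierstrassP w * L.weierstrassP z + A) + 2 * B) /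
        (L.weierstrassP z - L.weierstrassP w) ^ 2 := by
    linear_combination h1 / 2
  rw [h1']
  set x := L.weierstrassP z
  set e := L.weierstrassP w
  have e3 : e ^ 3 + A * e + B = 0 := by linear_combination (-1 / 4 : ℂ) * e2
  rw [eq_div_iff h0, sub_mul, div_mul_eq_mul_div, pow_two (x - e), mul_div_mul_right _ _ h0, sub_eq_iff_eq_add,
    div_eq_iff h0]
  linear_combination 2 * e3

/-- Chunk LA3 (S/M). H55K.CC.xl_add_sub with Om = 1; the wp w are subtracted; field_simp, ring (no relation is needed: 2 ((x + e)(x e + A) + 2 B) - 2 e (x - e)^2 = 2 (3 e^2 + A)(x - e) + 4 (e^3 + A e + B)). -/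
theorem three_add (L : PeriodPair) {A B : ℂ} (g2 : L.g₂ = -4 * A) (g3 : L.g₃ = -4 * B) {w z : ℂ} (hw : w ∉ L.lattice)
    (hz : z ∉ L.lattice) (hzw : z + w ∉ L.lattice) (hzw' : z - w ∉ L.lattice) :
    L.weierstrassP z ≠ L.weierstrassP w ∧
      (L.weierstrassP (z + w) - L.weierstrassP w) + (L.weierstrassP (z - w) - L.weierstrassP w) =
      2 * (3 * L.weierstrassP w ^ 2 + A) / (L.weierstrassP z - L.weierstrassP w) +
        4 * (L.weierstrassP w ^ 3 + A * L.weierstrassP w + B) / (L.weierstrassP z - L.weierstrassP w) ^ 2 := by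
  obtain ⟨h0, h1⟩ := la3_add_sub L g2 g3 hw hz hzw hzw'
  refine ⟨sub_ne_zero.1 h0, ?_⟩
  have e1 : (L.weierstrassP (z + w) - L.weierstrassP w) + (L.weierstrassP (z - w) - L.weierstrassP w) =
    (L.weierstrassP (z + w) + L.weierstrassP (z - w)) - 2 * L.weierstrassP w := by ring
  rw [e1, h1]
  field_simp
  ring

end H28I
end

-- from Lib.H28I.LA3B
section

/-! # H28I, part LA: points of order 2 and 3 -/

open NumberField IsDedekindDomain WeierstrassCurve

namespace H28I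

open H55P (IQ embF eF LF Per IsHecke Pt ac Inert Dec Nm)
open H35P (WAB Ker tt GoodW IntW)
open H55K (xc yc)

/-- Chunk LA3B (M). H55K.CC.wp_surj: w with wp w = e. pt from H35P.pt_exists with Om = 1 (and pt z = 0 only for z in the lattice, since otherwise pt z = some). derivWeierstrassP_sq: (wp' w)^2 = 4 (e^3 + A e + B) = 0. So pt w = some e 0, - pt w = pt w (Affine.Point.neg_some, negY), pt (2 w) = pt w + pt w = 0, 2 w is in the lattice. -/
theorem two_tor (L : PeriodPair) {A B e : ℂ} (g2 : L.g₂ = -4 * A) (g3 : L.g₃ = -4 * B) (hd : 4 * A ^ 3 + 27 * B ^ 2 ≠ 0)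
    (he : e ^ 3 + A * e + B = 0) : ∃ w, w ∉ L.lattice ∧ L.weierstrassP w = e ∧ 2 * w ∈ L.lattice := by
  obtain ⟨w, hw, hwe⟩ := H55K.CC.wp_surj L e
  refine ⟨w, hw, hwe, ?_⟩
  by_contra h2
  have h3 := H35P.wpd_ne L w hw h2
  have e1 := L.derivWeierstrassP_sq w hw
  rw [g2, g3, hwe] at e1
  have e2 : L.derivWeierstrassP w ^ 2 = 0 := by linear_combination e1 + 4 * he
  exact h3 (pow_eq_zero_iff two_ne_zero |>.1 e2)

/-- Chunk LA3B (M). w and pt as in two_tor, P = pt w = some e y, y = wp' w/2, y^2 = e^3 + A e + B. y ≠ 0: otherwise e^3 + A e + B = 0 and 3 e^4 + 6 A e^2 + 12 B e - A^2 = 0, so with B = - e^3 - A e: - (3 e^2 + A)^2 = 0, A = -3 e^2, B = 2 e^3, 4 A^3 + 27 B^2 = 0, contradiction. P + P = some x' .. with x' = ((3 e^2 + A)/(2 y))^2 - 2 e (Affine.Point.add_self_of_Y_ne or add_some, slope_of_Y_ne),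
and x' = e because (3 e^2 + A)^2 - 12 e y^2 = -(3 e^4 + 6 A e^2 + 12 B e - A^2) = 0. Two points with the same x-coordinate are equal or opposite: P + P = P gives P = 0, impossible; so P + P = -P, 3 P = 0 and 3 w is in the lattice. -/
theorem three_tor (L : PeriodPair) {A B e : ℂ} (g2 : L.g₂ = -4 * A) (g3 : L.g₃ = -4 * B) (hd : 4 * A ^ 3 + 27 * B ^ 2 ≠ 0)
    (he : 3 * e ^ 4 + 6 * A * e ^ 2 + 12 * B * e - A ^ 2 = 0) :
    ∃ w, w ∉ L.lattice ∧ L.weierstrassP w = e ∧ 3 * w ∈ L.lattice := by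
  obtain ⟨w, hw, hwe⟩ := H55K.CC.wp_surj L e
  refine ⟨w, hw, hwe, ?_⟩
  by_contra h3
  have e1 := L.derivWeierstrassP_sq w hw
  rw [g2, g3, hwe] at e1
  have h2 : 2 * w ∉ L.lattice := by
    intro h2
    have h4 := H55K.CC.wpd_per L (-w) h2
    rw [show -w + 2 * w = w by ring, L.derivWeierstrassP_neg] at h4
    have h5 : L.derivWeierstrassP w = 0 := by linear_combination h4 / 2
    rw [h5] at e1
    have h6 : (3 * e ^ 2 + A) ^ 2 = 0 := by linear_combination (-1 : ℂ) * he - 3 * e * e1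
    have h7 : 3 * e ^ 2 + A = 0 := pow_eq_zero_iff two_ne_zero |>.1 h6
    apply hd
    have h8 : A = -3 * e ^ 2 := by linear_combination h7
    have h9 : B = 2 * e ^ 3 := by
      rw [h8] at e1
      linear_combination (-1 / 4 : ℂ) * e1
    rw [h8, h9]
    ring
  have h4 := H35P.dbl_x L w hw h2
  have h5 := H35P.wpd_ne L w hw h2
  have h6 : L.weierstrassP (2 * w) = L.weierstrassP w := by
    rw [h4, hwe]
    unfold H35P.md
    rw [hwe, g2, div_pow]
    have h7 : (6 * e ^ 2 - -4 * A / 2) ^ 2 / L.derivWeierstrassP w ^ 2 = 12 * e := by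
      rw [div_eq_iff (pow_ne_zero 2 h5), e1]
      linear_combination (-4 : ℂ) * he
    rw [h7]
    ring
  exact H35P.wp_ne L (2 * w) w h2 hw (by rwa [show 2 * w + w = 3 * w by ring]) (by rwa [show 2 * w - w = w by ring]) h6

end H28I
end

-- from Lib.H28I.LA4
section

/-! # H28I, part LA: the lattice of the isogenous curve -/

open NumberField IsDedekindDomain WeierstrassCurve

namespace H28I

open H55P (IQ embF eF LF Per IsHecke Pt ac Inert Dec Nm)
open H35P (WAB Ker tt GoodW IntW)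
open H55K (xc yc)

theorem la4_per (L : PeriodPair) {z w : ℂ} (h : z - w ∈ L.lattice) : L.weierstrassP z = L.weierstrassP w := by
  have h1 := L.weierstrassP_add_coe w ⟨z - w, h⟩
  rw [← h1]
  show L.weierstrassP z = L.weierstrassP (w + (z - w))
  rw [add_sub_cancel]

theorem la4_mul (L : PeriodPair) {z : ℂ} (n : ℤ) (h : z ∈ L.lattice) : (n : ℂ) * z ∈ L.lattice := by
  have h1 := L.lattice.smul_mem n h
  rwa [zsmul_eq_mul] at h1

/-- Chunk LA4 (M). First case of h.cs: w from two_tor, L' from over_pair (N = 2), S = {w} (rep_two). Second case: w from three_tor, N = 3, S = {w, -w} (rep_three, Finset.sum_pair; wp(-w) = wp w). For z outside L': z, z + w, z - w are outside L (they are outside L'), so sum_wp and two_add or three_add give L'.weierstrassP z = vx e t u (L.weierstrassP z) and wp_L z ≠ e.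
pole: z in L' is in L or z = ± w + l, where wp_L z = wp_L w = e. le, six: from the description of L'. -/
theorem iso_x (L : PeriodPair) {A B A' B' e t u : ℂ} (h : VI A B A' B' e t u) (g2 : L.g₂ = -4 * A) (g3 : L.g₃ = -4 * B) :
    ∃ L' : PeriodPair, (∀ z ∈ L.lattice, z ∈ L'.lattice) ∧ (∀ z ∈ L'.lattice, 6 * z ∈ L.lattice) ∧
      (∀ z ∈ L'.lattice, z ∈ L.lattice ∨ L.weierstrassP z = e) ∧ (∀ z, z ∉ L'.lattice → L.weierstrassP z ≠ e) ∧
      ∀ z, z ∉ L'.lattice → L'.weierstrassP z = vx e t u (L.weierstrassP z) := by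
  rcases h.cs with ⟨hu, he, ht⟩ | ⟨ht, hu, h3⟩
  · obtain ⟨w, hw, hwe, h2⟩ := two_tor L g2 g3 h.disc he
    obtain ⟨L', hL'⟩ := over_pair L Nat.prime_two hw (by exact_mod_cast h2)
    have hR := rep_two hw h2 hL'
    have hcl : ∀ z ∈ L'.lattice, z ∈ L.lattice ∨ z - w ∈ L.lattice := by
      intro z hz
      rcases hR.ex z hz with h1 | ⟨r, hr, h1⟩
      · exact Or.inl h1
      · rw [Finset.mem_singleton.1 hr] at h1
        exact Or.inr h1
    have hout : ∀ z, z ∉ L'.lattice → z ∉ L.lattice ∧ z + w ∉ L.lattice := by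
      intro z hz
      refine ⟨fun h1 => hz (hR.le z h1), fun h1 => hz ((hL' z).2 ⟨-1, ?_⟩)⟩
      push_cast
      have e1 : z - -1 * w = z + w := by ring
      rw [e1]
      exact h1
    refine ⟨L', hR.le, ?_, ?_, ?_, ?_⟩
    · intro z hz
      rcases hcl z hz with h1 | h1
      · exact_mod_cast la4_mul L 6 h1
      · have e1 : (6 : ℂ) * z = ((6 : ℤ) : ℂ) * (z - w) + ((3 : ℤ) : ℂ) * (2 * w) := by
          push_cast
          ring
        rw [e1]
        exact add_mem (la4_mul L 6 h1) (la4_mul L 3 h2)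
    · intro z hz
      rcases hcl z hz with h1 | h1
      · exact Or.inl h1
      · exact Or.inr (by rw [la4_per L h1, hwe])
    · intro z hz
      obtain ⟨a1, a2⟩ := hout z hz
      have a3 := (two_add L g2 g3 hw h2 a1 a2).1
      rwa [hwe] at a3
    · intro z hz
      obtain ⟨a1, a2⟩ := hout z hz
      have a3 := (two_add L g2 g3 hw h2 a1 a2).2
      rw [sum_wp hR hz, Finset.sum_singleton, a3, hwe, hu, ht]
      unfold vx
      rw [zero_div, add_zero]
  · obtain ⟨w, hw, hwe, h3w⟩ := three_tor L g2 g3 h.disc h3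
    obtain ⟨L', hL'⟩ := over_pair L Nat.prime_three hw (by exact_mod_cast h3w)
    obtain ⟨hR, hne⟩ := rep_three hw h3w hL'
    have hcl : ∀ z ∈ L'.lattice, z ∈ L.lattice ∨ z - w ∈ L.lattice ∨ z + w ∈ L.lattice := by
      intro z hz
      rcases hR.ex z hz with h1 | ⟨r, hr, h1⟩
      · exact Or.inl h1
      · rcases Finset.mem_insert.1 hr with h4 | h4
        · rw [h4] at h1
          exact Or.inr (Or.inl h1)
        · rw [Finset.mem_singleton.1 h4, sub_neg_eq_add] at h1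
          exact Or.inr (Or.inr h1)
    have hout : ∀ z, z ∉ L'.lattice → z ∉ L.lattice ∧ z + w ∉ L.lattice ∧ z - w ∉ L.lattice := by
      intro z hz
      refine ⟨fun h1 => hz (hR.le z h1), fun h1 => hz ((hL' z).2 ⟨-1, ?_⟩), fun h1 => hz ((hL' z).2 ⟨1, ?_⟩)⟩
      · push_cast
        have e1 : z - -1 * w = z + w := by ring
        rw [e1]
        exact h1
      · push_cast
        rw [one_mul]
        exact h1
    refine ⟨L', hR.le, ?_, ?_, ?_, ?_⟩
    · intro z hz
      rcases hcl z hz with h1 | h1 | h1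
      · exact_mod_cast la4_mul L 6 h1
      · have e1 : (6 : ℂ) * z = ((6 : ℤ) : ℂ) * (z - w) + ((2 : ℤ) : ℂ) * (3 * w) := by
          push_cast
          ring
        rw [e1]
        exact add_mem (la4_mul L 6 h1) (la4_mul L 2 h3w)
      · have e1 : (6 : ℂ) * z = ((6 : ℤ) : ℂ) * (z + w) + ((-2 : ℤ) : ℂ) * (3 * w) := by
          push_cast
          ring
        rw [e1]
        exact add_mem (la4_mul L 6 h1) (la4_mul L (-2) h3w)
    · intro z hz
      rcases hcl z hz with h1 | h1 | h1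
      · exact Or.inl h1
      · exact Or.inr (by rw [la4_per L h1, hwe])
      · refine Or.inr ?_
        have h4 : z - -w ∈ L.lattice := by rwa [sub_neg_eq_add]
        rw [la4_per L h4, L.weierstrassP_neg, hwe]
    · intro z hz
      obtain ⟨a1, a2, a3⟩ := hout z hz
      have a4 := (three_add L g2 g3 hw a1 a2 a3).1
      rwa [hwe] at a4
    · intro z hz
      obtain ⟨a1, a2, a3⟩ := hout z hz
      have a4 := (three_add L g2 g3 hw a1 a2 a3).2
      rw [sum_wp hR hz, Finset.sum_pair hne, L.weierstrassP_neg, ← sub_eq_add_neg z w, a4, hwe, hu, ht]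
      unfold vx
      ring

end H28I
end

-- from Lib.H28I.LA4B
section

/-! # H28I, part LA: the lattice of the isogenous curve -/

open NumberField IsDedekindDomain WeierstrassCurve

namespace H28I

open H55P (IQ embF eF LF Per IsHecke Pt ac Inert Dec Nm)
open H35P (WAB Ker tt GoodW IntW)
open H55K (xc yc)

theorem la4b_vx {e t u x : ℂ} (hx : x ≠ e) : HasDerivAt (fun y => vx e t u y) (vd e t u x) x := by
  have hx' : x - e ≠ 0 := sub_ne_zero.2 hx
  have h1 : HasDerivAt (fun y : ℂ => y - e) 1 x := (hasDerivAt_id x).sub_const e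
  have h2 := (((hasDerivAt_id x).add ((hasDerivAt_const x t).div h1 hx')).add
    ((hasDerivAt_const x u).div (h1.fun_pow 2) (pow_ne_zero 2 hx')))
  unfold vx vd
  refine HasDerivAt.congr_deriv h2 ?_
  simp only [Nat.cast_ofNat]
  field_simp
  ring

/-- Chunk LA4B (S/M). On the open set of the z outside L' (H35P.compl_open L') the two functions L'.weierstrassP and vx e t u ∘ L.weierstrassP agree; derivatives (H35P.wp_hasDeriv for L' and for L (z is outside L), the chain rule: the derivative of vx e t u at x ≠ e is vd e t u x), HasDerivAt.unique. -/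
theorem iso_y {L L' : PeriodPair} {e t u : ℂ} (hle : ∀ z ∈ L.lattice, z ∈ L'.lattice)
    (hne : ∀ z, z ∉ L'.lattice → L.weierstrassP z ≠ e)
    (hx : ∀ z, z ∉ L'.lattice → L'.weierstrassP z = vx e t u (L.weierstrassP z)) {z : ℂ} (hz : z ∉ L'.lattice) :
    L'.derivWeierstrassP z = vd e t u (L.weierstrassP z) * L.derivWeierstrassP z := by
  have hzL : z ∉ L.lattice := fun h => hz (hle z h)
  have h1 := H35P.wp_hasDeriv L' z hz
  have h2 := (la4b_vx (t := t) (u := u) (hne z hz)).comp z (H35P.wp_hasDeriv L z hzL)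
  have h3 : ∀ᶠ w in nhds z, w ∉ L'.lattice := (H35P.compl_open L').mem_nhds hz
  refine h1.unique (h2.congr_of_eventuallyEq ?_)
  filter_upwards [h3] with w hw
  exact hx w hw

/-- Chunk LA4B (M). g₂, g₃ of L': for z outside L' put X = L'.weierstrassP z, x = L.weierstrassP z. derivWeierstrassP_sq for L' : (vd x)^2 (wp' z)^2 = 4 X^3 - g₂' X - g₃'; for L: (wp' z)^2 = 4 (x^3 + A x + B); vi_id: so 4 (X^3 + A' X + B') = 4 X^3 - g₂' X - g₃', that is (4 A' + g₂') X + (4 B' + g₃') = 0. X takes the values 0 and 1 (H55K.CC.wp_surj L'). -/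
theorem iso_L (L : PeriodPair) {A B A' B' e t u : ℂ} (h : VI A B A' B' e t u) (g2 : L.g₂ = -4 * A) (g3 : L.g₃ = -4 * B) :
    ∃ L' : PeriodPair, IsoL L L' A' B' e t u := by
  obtain ⟨L', hle, hsix, hpole, hout, hx⟩ := iso_x L h g2 g3
  have hy : ∀ z, z ∉ L'.lattice → L'.derivWeierstrassP z = vd e t u (L.weierstrassP z) * L.derivWeierstrassP z :=
    fun z hz => iso_y hle hout hx hz
  have hkey : ∀ z, z ∉ L'.lattice → (4 * A' + L'.g₂) * L'.weierstrassP z + (4 * B' + L'.g₃) = 0 := by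
    intro z hz
    have hzL : z ∉ L.lattice := fun h => hz (hle z h)
    have e1 := L'.derivWeierstrassP_sq z hz
    have e2 := L.derivWeierstrassP_sq z hzL
    have e3 := vi_id h (hout z hz)
    rw [hy z hz] at e1
    rw [← hx z hz] at e3
    rw [g2, g3] at e2
    linear_combination e1 - (vd e t u (L.weierstrassP z)) ^ 2 * e2 + 4 * e3
  obtain ⟨z0, h0, h0'⟩ := H55K.CC.wp_surj L' 0
  obtain ⟨z1, h1, h1'⟩ := H55K.CC.wp_surj L' 1
  have k0 := hkey z0 h0
  have k1 := hkey z1 h1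
  rw [h0'] at k0
  rw [h1'] at k1
  refine ⟨L', ?_, ?_, hle, hsix, hpole, hout, hx, hy⟩
  · linear_combination k1 - k0
  · linear_combination k0

end H28I
end

-- from Lib.H28I.V3
section

/-! # H28I, part V: additivity over the complex numbers -/

open NumberField IsDedekindDomain WeierstrassCurve

namespace H28I

open H55P (IQ embF eF LF Per IsHecke Pt ac Inert Dec Nm)
open H35P (WAB Ker tt GoodW IntW)
open H55K (xc yc)

theorem v3_surj (L : PeriodPair) {A B : ℂ} (g2 : L.g₂ = -4 * A) (g3 : L.g₃ = -4 * B)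
    {pt : ℂ → (WAB A B).toAffine.Point} (h0 : pt 0 = 0)
    (p1 : ∀ z ∉ L.lattice, ∃ h, pt z = .some (L.weierstrassP z / 1 ^ 2) (L.derivWeierstrassP z / (2 * 1 ^ 3)) h) :
    Function.Surjective pt := by
  intro R
  rcases R with _ | ⟨x, y, hxy⟩
  · exact ⟨0, h0⟩
  · obtain ⟨z, hz, hz1⟩ := H55K.CC.wp_surj L x
    have hE := (Affine.equation_iff _ _).1 hxy.1
    simp only [WAB] at hE
    have hY := L.derivWeierstrassP_sq z hz
    rw [hz1, g2, g3] at hY
    have h2 : (L.derivWeierstrassP z / 2 - y) * (L.derivWeierstrassP z / 2 + y) = 0 := by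
      linear_combination (1 / 4 : ℂ) * hY - hE
    rcases mul_eq_zero.1 h2 with h3 | h3
    · obtain ⟨hns, e⟩ := p1 z hz
      refine ⟨z, ?_⟩
      rw [e, Affine.Point.some.injEq]
      constructor
      · rw [hz1]
        ring
      · linear_combination h3
    · have hz' : -z ∉ L.lattice := fun h0 => hz (by simpa using L.lattice.neg_mem h0)
      obtain ⟨hns, e⟩ := p1 (-z) hz'
      refine ⟨-z, ?_⟩
      rw [e, Affine.Point.some.injEq]
      constructor
      · rw [L.weierstrassP_neg, hz1]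
        ring
      · rw [L.derivWeierstrassP_neg]
        linear_combination -h3

open Classical in
/-- Chunk V3 (M). L' from iso_L. pt, pt' from H35P.pt_exists for L and L' with Om = 1 (g₂ = -4 A * 1^4). Claim: Φ (pt z) = pt' z for all z. z in L: both are 0. z in L' but not in L: pt z = some (wp z) .. with wp z = e (IsoL.pole), so Φ (pt z) = 0 = pt' z. z not in L' : wp z ≠ e (IsoL.out), and the coordinates agree (IsoL.x, IsoL.y; y = wp'/2): two nonzero points with equal coordinates.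
pt is surjective (H55K.CC.wp_surj, as in H55K/C12.lean): P = pt z, Q = pt w; Φ (P + Q) = pt' (z + w). -/
theorem v_add_C {A B A' B' e t u : ℂ} (h : VI A B A' B' e t u) (L : PeriodPair) (g2 : L.g₂ = -4 * A) (g3 : L.g₃ = -4 * B)
    {Φ : (WAB A B).toAffine.Point → (WAB A' B').toAffine.Point} (hΦ : IsV A B A' B' e t u Φ) (P Q : (WAB A B).toAffine.Point) :
    Φ (P + Q) = Φ P + Φ Q := by
  obtain ⟨L', hL⟩ := iso_L L h g2 g3
  obtain ⟨pt, p0, p1⟩ := H35P.pt_exists L A B 1 one_ne_zero (by rw [g2]; ring) (by rw [g3]; ring) h.disc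
  obtain ⟨pt', p0', p1'⟩ := H35P.pt_exists L' A' B' 1 one_ne_zero (by rw [hL.g2]; ring) (by rw [hL.g3]; ring) h.disc'
  have hkey : ∀ z, Φ (pt z) = pt' z := by
    intro z
    by_cases hz : z ∈ L.lattice
    · rw [p0 z hz, hΦ.zero, p0' z (hL.le z hz)]
    · obtain ⟨hns, e1⟩ := p1 z hz
      have hne : pt z ≠ 0 := by
        rw [e1]
        exact Affine.Point.some_ne_zero _
      have hxc : xc (pt z) = L.weierstrassP z := by
        rw [e1]
        show L.weierstrassP z / 1 ^ 2 = _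
        ring
      have hyc : yc (pt z) = L.derivWeierstrassP z / 2 := by
        rw [e1]
        show L.derivWeierstrassP z / (2 * 1 ^ 3) = _
        ring
      by_cases hz' : z ∈ L'.lattice
      · rw [p0' z hz', hΦ.ker _ hne (hxc.trans ((hL.pole z hz').resolve_left hz))]
      · obtain ⟨hns', e1'⟩ := p1' z hz'
        have hxe : xc (pt z) ≠ e := by
          rw [hxc]
          exact hL.out z hz'
        refine H55K.CC.c14_ext (hΦ.ne _ hne hxe) ?_ ?_ ?_
        · rw [e1']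
          exact Affine.Point.some_ne_zero _
        · rw [hΦ.x _ hne hxe, hxc, ← hL.x z hz', e1']
          show _ = L'.weierstrassP z / 1 ^ 2
          ring
        · rw [hΦ.y _ hne hxe, hxc, hyc, e1']
          show _ = L'.derivWeierstrassP z / (2 * 1 ^ 3)
          rw [hL.y z hz']
          ring
  have hs := v3_surj L g2 g3 (map_zero pt) p1
  obtain ⟨z, rfl⟩ := hs P
  obtain ⟨w, rfl⟩ := hs Q
  rw [← map_add, hkey, hkey, hkey, map_add]

end H28I
end

-- from Lib.H28I.V4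
section

/-! # H28I, part V: additivity over a field with a complex embedding -/

open NumberField IsDedekindDomain WeierstrassCurve

namespace H28I

open H55P (IQ embF eF LF Per IsHecke Pt ac Inert Dec Nm)
open H35P (WAB Ker tt GoodW IntW)
open H55K (xc yc)

variable {k k' : Type} [Field k] [Field k'] [DecidableEq k] [DecidableEq k']

theorem v4_key [Algebra k k'] (E E₁ : WeierstrassCurve k) (E' : WeierstrassCurve k') (h1 : E.baseChange k = E₁)
    (h2 : E.baseChange k' = E') : ∃ J : E₁.toAffine.Point →+ E'.toAffine.Point,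
    Function.Injective J ∧ ∀ P, P ≠ 0 → J P ≠ 0 ∧ xc (J P) = algebraMap k k' (xc P) ∧ yc (J P) = algebraMap k k' (yc P) := by
  subst h1 h2
  refine ⟨Affine.Point.map (W' := E.toAffine) (Algebra.ofId k k'), Affine.Point.map_injective (Algebra.ofId k k'), ?_⟩
  intro P hP
  rcases P with _ | ⟨x, y, hxy⟩
  · exact absurd rfl hP
  · rw [Affine.Point.map_some]
    exact ⟨Affine.Point.some_ne_zero _, rfl, rfl⟩

/-- Chunk V4 (M). Port of c11_key (H55K/C11.lean): give k' the algebra structure j.toAlgebra; (WAB A B).baseChange k' = WAB (j A) (j B) (ext, map_zero) and (WAB A B).baseChange k = WAB A B (map_id). Or, simpler: Affine.Point.map (W' := (WAB A B).toAffine) with the base field k, (WAB A B)⁄k = WAB A B by WeierstrassCurve.map_id; prove the statement for all E, E' with (WAB A B)⁄k = E,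
(WAB A B)⁄k' = E' by rintro _ _ rfl rfl. -/
theorem exists_jj (j : k →+* k') (A B : k) : ∃ J : (WAB A B).toAffine.Point →+ (WAB (j A) (j B)).toAffine.Point,
    Function.Injective J ∧ ∀ P, P ≠ 0 → J P ≠ 0 ∧ xc (J P) = j (xc P) ∧ yc (J P) = j (yc P) := by
  letI : Algebra k k' := j.toAlgebra
  refine v4_key (WAB A B) (WAB A B) (WAB (j A) (j B)) ?_ ?_
  · exact WeierstrassCurve.map_id _
  · ext
    · exact map_zero (algebraMap k k')
    · exact map_zero (algebraMap k k')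
    · exact map_zero (algebraMap k k')
    · rfl
    · rfl

/-- Chunk V4 (S). Apply j to the equations; j is injective. -/
theorem vi_map (j : k →+* k') {A B A' B' e t u : k} (h : VI A B A' B' e t u) :
    VI (j A) (j B) (j A') (j B') (j e) (j t) (j u) := by
  obtain ⟨h1, h2, h3, h4, h5⟩ := h
  refine ⟨?_, ?_, ?_, ?_, ?_⟩
  · have e : 4 * j A ^ 3 + 27 * j B ^ 2 = j (4 * A ^ 3 + 27 * B ^ 2) := by
      simp only [map_add, map_mul, map_pow, map_ofNat]
    rw [e]
    exact (map_ne_zero j).2 h1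
  · have e : 4 * j A' ^ 3 + 27 * j B' ^ 2 = j (4 * A' ^ 3 + 27 * B' ^ 2) := by
      simp only [map_add, map_mul, map_pow, map_ofNat]
    rw [e]
    exact (map_ne_zero j).2 h2
  · rw [h3]
    simp only [map_sub, map_mul, map_ofNat]
  · rw [h4]
    simp only [map_sub, map_mul, map_add, map_ofNat]
  · rcases h5 with ⟨a1, a2, a3⟩ | ⟨a1, a2, a3⟩
    · left
      refine ⟨by rw [a1, map_zero], ?_, ?_⟩
      · have := congrArg j a2
        simpa only [map_add, map_mul, map_pow, map_zero] using this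
      · rw [a3]
        simp only [map_add, map_mul, map_pow, map_ofNat]
    · right
      refine ⟨?_, ?_, ?_⟩
      · rw [a1]
        simp only [map_add, map_mul, map_pow, map_ofNat]
      · rw [a2]
        simp only [map_add, map_mul, map_pow, map_ofNat]
      · have := congrArg j a3
        simpa only [map_add, map_sub, map_mul, map_pow, map_ofNat, map_zero] using this

/-- Chunk V4 (M). J, J' from exists_jj for (A, B) and (A', B'), Ψ from exists_v for the images (vi_map). J' (Φ P) = Ψ (J P) for all P: P = 0; xc P = e: both 0; xc P ≠ e: xc (J P) = j (xc P) ≠ j e, the coordinates agree (map_div₀ and so on). Ψ is additive (v_add_C), J, J' are additive, J' is injective. -/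
theorem v_add [CharZero k] (j : k →+* ℂ) {A B A' B' e t u : k} (h : VI A B A' B' e t u) (L : PeriodPair) (g2 : L.g₂ = -4 * j A)
    (g3 : L.g₃ = -4 * j B) {Φ : (WAB A B).toAffine.Point → (WAB A' B').toAffine.Point} (hΦ : IsV A B A' B' e t u Φ)
    (P Q : (WAB A B).toAffine.Point) : Φ (P + Q) = Φ P + Φ Q := by
  obtain ⟨J, hJ, hJ1⟩ := exists_jj (k' := ℂ) j A B
  obtain ⟨J', hJ', hJ1'⟩ := exists_jj (k' := ℂ) j A' B'
  have hv := vi_map j h
  obtain ⟨Ψ, hΨ⟩ := exists_v hv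
  have hkey : ∀ P, J' (Φ P) = Ψ (J P) := by
    intro P
    by_cases hP : P = 0
    · rw [hP, hΦ.zero, map_zero, map_zero, hΨ.zero]
    · obtain ⟨a1, a2, a3⟩ := hJ1 P hP
      by_cases hx : xc P = e
      · rw [hΦ.ker P hP hx, map_zero, hΨ.ker _ a1 (by rw [a2, hx])]
      · have hx' : xc (J P) ≠ j e := by
          rw [a2]
          exact fun h0 => hx (j.injective h0)
        obtain ⟨b1, b2, b3⟩ := hJ1' _ (hΦ.ne P hP hx)
        refine H55K.CC.c14_ext b1 (hΨ.ne _ a1 hx') ?_ ?_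
        · rw [b2, hΦ.x P hP hx, hΨ.x _ a1 hx', a2]
          unfold vx
          simp only [map_add, map_div₀, map_sub, map_pow]
        · rw [b3, hΦ.y P hP hx, hΨ.y _ a1 hx', a2, a3]
          unfold vd
          simp only [map_sub, map_mul, map_div₀, map_pow, map_one, map_ofNat]
  apply hJ'
  rw [hkey, map_add, map_add, hkey, hkey]
  exact v_add_C hv L g2 g3 hΨ _ _

end H28I
end

-- from Lib.H13D.P3
section

/-! # H13D, part P: the quadratic symbol modulo δ -/

open NumberField IsDedekindDomain WeierstrassCurve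

namespace H13D

open H55P (IQ embF eF LF Per IsHecke Pt ac Inert Dec Nm)
open H35P (WAB Ker tt GoodW IntW)
open H55K

variable {F : Type} [Field F] [NumberField F] [IQ F] {δ : 𝓞 F} {D : ℕ}

/-- Chunk P3 (S/M). The chosen integer n' is congruent to n modulo D (del_dvd_int): jacobiSym.mod_left. -/
theorem lam_eq (hd : Del F δ D) {x : 𝓞 F} {n : ℤ} (h : δ ∣ x - n) : lam δ D x = jacobiSym n D := by
  have hex : ∃ n : ℤ, δ ∣ x - n := ⟨n, h⟩
  unfold lam
  rw [dif_pos hex]
  have h1 := hex.choose_spec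
  have h2 : δ ∣ ((n - hex.choose : ℤ) : 𝓞 F) := by
    have h3 := dvd_sub h1 h
    push_cast
    have e : (n : 𝓞 F) - (hex.choose : 𝓞 F) = x - (hex.choose : 𝓞 F) - (x - n) := by ring
    rw [e]
    exact h3
  rw [del_dvd_int hd] at h2
  rw [jacobiSym.mod_left hex.choose, jacobiSym.mod_left n]
  congr 1
  exact (Int.emod_eq_emod_iff_emod_sub_eq_zero.2 (Int.emod_eq_zero_of_dvd h2)).symm

/-- Chunk P3 (S). lam_eq, ex_int, jacobiSym.mul_left: x is congruent to n, y to k, x y to n k. -/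
theorem lam_mul (hd : Del F δ D) (x y : 𝓞 F) : lam δ D (x * y) = lam δ D x * lam δ D y := by
  obtain ⟨n, hn⟩ := ex_int hd x
  obtain ⟨k, hk⟩ := ex_int hd y
  have h1 : δ ∣ x * y - ((n * k : ℤ) : 𝓞 F) := by
    push_cast
    have e : x * y - (n : 𝓞 F) * k = (x - n) * y + n * (y - k) := by ring
    rw [e]
    exact dvd_add (hn.mul_right y) (hk.mul_left _)
  rw [lam_eq hd h1, lam_eq hd hn, lam_eq hd hk, jacobiSym.mul_left]

/-- Chunk P3 (S). -/
theorem lam_one (hd : Del F δ D) : lam δ D 1 = 1 := by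
  have h1 : δ ∣ (1 : 𝓞 F) - ((1 : ℤ) : 𝓞 F) := by
    rw [Int.cast_one, sub_self]
    exact dvd_zero _
  rw [lam_eq hd h1, jacobiSym.one_left]

/-- Chunk P3 (S/M). jacobiSym (-1) D = -1 because D % 4 = 3 (jacobiSym.at_neg_one, ZMod.χ₄_nat_three_mod_four); jacobiSym.mul_left / jacobiSym.neg. -/
theorem lam_neg (hd : Del F δ D) (x : 𝓞 F) : lam δ D (-x) = -lam δ D x := by
  obtain ⟨n, hn⟩ := ex_int hd x
  have h1 : δ ∣ -x - ((-n : ℤ) : 𝓞 F) := by
    push_cast
    have e : -x - -(n : 𝓞 F) = -(x - n) := by ring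
    rw [e]
    exact (dvd_neg).2 hn
  have hodd : Odd D := by
    have := hd.mod
    exact Nat.odd_iff.2 (by omega)
  rw [lam_eq hd h1, lam_eq hd hn, jacobiSym.neg n hodd, ZMod.χ₄_nat_three_mod_four hd.mod, neg_one_mul]

/-- Chunk P3 (S). -/
theorem lam_congr (hd : Del F δ D) {x y : 𝓞 F} (h : δ ∣ x - y) : lam δ D x = lam δ D y := by
  obtain ⟨n, hn⟩ := ex_int hd x
  have h1 : δ ∣ y - (n : 𝓞 F) := by
    have e : y - (n : 𝓞 F) = (x - n) - (x - y) := by ring
    rw [e]
    exact dvd_sub hn h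
  rw [lam_eq hd h1, lam_eq hd hn]

/-- Chunk P3 (S). x is congruent to n, D does not divide n (del_dvd_int), so n and D are coprime: jacobiSym.eq_one_or_neg_one. -/
theorem lam_pm (hd : Del F δ D) {x : 𝓞 F} (h : ¬ δ ∣ x) : lam δ D x = 1 ∨ lam δ D x = -1 := by
  obtain ⟨n, hn⟩ := ex_int hd x
  have h1 : ¬ (D : ℤ) ∣ n := by
    intro h2
    apply h
    have h3 := (del_dvd_int hd n).2 h2
    have e : x = (x - n) + n := by ring
    rw [e]
    exact dvd_add hn h3
  rw [lam_eq hd hn]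
  apply jacobiSym.eq_one_or_neg_one
  have h2 : IsCoprime (D : ℤ) n := (Nat.prime_iff_prime_int.1 hd.prime).irreducible.coprime_iff_not_dvd.2 h1
  rw [Int.gcd_comm]
  exact Int.isCoprime_iff_gcd_eq_one.1 h2

end H13D
end

-- from Lib.H13R.R5
section

/-! # H13R: multiplication by l on the kernel of reduction, any residue characteristic -/

open NumberField IsDedekindDomain WeierstrassCurve

namespace H13R

open H55P (IQ embF eF LF Per IsHecke Pt ac Inert Dec Nm Coc PExt UnrP Ram RamF)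
open H35P (WAB Ker tt GoodW IntW)
open H55K (Tor TN ak xc yc CMA Dta GV GMod cj cj_cj mul_cj cj_prime cj_dvd cj_nat Nm_cj Nm_mul Nm_nat)
open H55K.MG
open H55K.S
open H13S (Abv)
open H13X

variable {F : Type} [Field F] [NumberField F] [IQ F] {A B : F} {Om : ℂ} {Ω : Type} [Field Ω] [DecidableEq Ω]
  [Algebra F Ω] {j : Ω →+* ℂ} {act : 𝓞 F →+* AddMonoid.End (Pt (WAB A B) Ω)} {l : ℕ}

/-- A point X with l X in the kernel of reduction is congruent to a point killed by l. -/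
theorem surj_lR (h : CMA F A B Om j act) (W₀ : WeierstrassCurve (𝓞 F)) {r s t : F} (hVC : VC (WAB A B) (W₀⁄F) 1 r s t)
    {Θ : Pt (WAB A B) Ω ≃+ Pt (W₀⁄F) Ω}
    (hΘ : Crd (algebraMap F Ω 1) (algebraMap F Ω r) (algebraMap F Ω s) (algebraMap F Ω t) Θ)
    {V : ValuationSubring Ω} (hG : GoodW ((W₀⁄F)⁄Ω) V) (hl : l.Prime) (h5 : 5 ≤ l) (hlV : V.valuation (l : Ω) = 1)
    {X : Pt (WAB A B) Ω} (hX : Ker V (Θ (l • X))) : ∃ T : Pt (WAB A B) Ω, l • T = 0 ∧ Ker V (Θ (X - T)) := by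
  by_cases h0 : l • X = 0
  · refine ⟨X, h0, ?_⟩
    rw [sub_self, map_zero]
    trivial
  by_contra hcon
  push Not at hcon
  have hl0 : (l : 𝓞 F) ≠ 0 := by exact_mod_cast hl.ne_zero
  obtain ⟨S, hS, -⟩ := H55K.exists_TN h hl0
  have hact : ∀ P : Pt (WAB A B) Ω, act (l : 𝓞 F) P = l • P := fun P => act_nat (act := act) l P
  have hne : act (l : 𝓞 F) X ≠ 0 := by rwa [hact]
  have he := h.e1x (l : 𝓞 F) S hl0 hS X hne
  have hakl : ak Ω (l : 𝓞 F) = (l : Ω) := by
    show algebraMap F Ω ((l : 𝓞 F) : F) = l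
    simp
  rw [hakl, hact] at he
  -- coordinates
  have hc : ∀ P : Pt (WAB A B) Ω, P ≠ 0 → xc P = xc (Θ P) + algebraMap F Ω r := by
    intro P hP
    obtain ⟨-, h1, -⟩ := hΘ P hP
    rw [h1, map_one]
    ring
  have hno : ∀ T : Pt (WAB A B) Ω, l • T = 0 → ¬ Ker V (Θ (X + T)) := by
    intro T hT hk
    refine hcon (-T) (by rw [smul_neg, hT, neg_zero]) ?_
    rwa [sub_neg_eq_add]
  have hin : ∀ P : Pt (WAB A B) Ω, ¬ Ker V (Θ P) → P ≠ 0 ∧ xc (Θ P) ∈ V := by
    intro P hP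
    obtain ⟨h1, h2, -⟩ := int_crd hG hP
    exact ⟨fun h3 => h1 (by rw [h3, map_zero]), h2⟩
  have hX0 : ¬ Ker V (Θ X) := by
    have := hno 0 (smul_zero _)
    rwa [add_zero] at this
  have hsum : ∑ T ∈ S, (xc (X + T) - xc T) ∈ V := by
    refine sum_mem fun T hT => ?_
    obtain ⟨h1, h2⟩ := (hS T).1 hT
    rw [hact] at h1
    have h3 : ¬ Ker V (Θ T) := by
      intro hk
      have h4 : Θ T = 0 := H35P.fg hG.toIntW (Θ T) l hlV (by rw [← map_nsmul, h1, map_zero]) hk
      exact h2 ((map_eq_zero_iff Θ Θ.injective).1 h4)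
    obtain ⟨i1, i2⟩ := hin _ (hno T h1)
    obtain ⟨-, i3⟩ := hin _ h3
    rw [hc _ i1, hc _ h2, add_sub_add_right_eq_sub]
    exact sub_mem i2 i3
  obtain ⟨h1, h2⟩ := hin _ hX0
  -- the number (l^2 - 1) r is integral at V
  obtain ⟨k, hk⟩ : ∃ k : ℕ, l ^ 2 = 24 * k + 1 := by
    have h3 : l % 24 = 1 ∨ l % 24 = 5 ∨ l % 24 = 7 ∨ l % 24 = 11 ∨ l % 24 = 13 ∨ l % 24 = 17 ∨ l % 24 = 19 ∨ l % 24 = 23 := by
      have a2 : ¬ 2 ∣ l := fun hd => by
        have := (Nat.prime_dvd_prime_iff_eq Nat.prime_two hl).1 hd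
        omega
      have a3 : ¬ 3 ∣ l := fun hd => by
        have := (Nat.prime_dvd_prime_iff_eq Nat.prime_three hl).1 hd
        omega
      omega
    have h4 : l ^ 2 % 24 = 1 := by
      rw [Nat.pow_mod]
      rcases h3 with h3 | h3 | h3 | h3 | h3 | h3 | h3 | h3 <;> rw [h3]
    exact ⟨l ^ 2 / 24, by omega⟩
  have hr : ∃ z ∈ V, (12 : Ω) * algebraMap F Ω r = z := by
    refine ⟨((W₀⁄F)⁄Ω).a₁ ^ 2 + 4 * ((W₀⁄F)⁄Ω).a₂, ?_, ?_⟩
    · refine add_mem (pow_mem hG.a1 2) (mul_mem ?_ hG.a2)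
      exact_mod_cast natCast_mem V 4
    · have e1 := hVC.h1
      have e2 := hVC.h2
      have f1 : (WAB A B).a₁ = 0 := rfl
      have f2 : (WAB A B).a₂ = 0 := rfl
      rw [f1] at e1 e2
      rw [f2] at e2
      have e3 : (12 : F) * r = (W₀⁄F).a₁ ^ 2 + 4 * (W₀⁄F).a₂ := by
        linear_combination (-4) * e2 + (-(W₀⁄F).a₁ - 2 * s) * e1
      have e4 := congrArg (algebraMap F Ω) e3
      rw [map_mul, map_ofNat, map_add, map_mul, map_pow, map_ofNat] at e4
      exact e4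
  obtain ⟨z, hz, hrz⟩ := hr
  have hkey : (l : Ω) ^ 2 * xc (Θ (l • X)) = xc (Θ X) + ∑ T ∈ S, (xc (X + T) - xc T) - (2 * (k : Ω)) * z := by
    rw [hc _ h0, hc _ h1] at he
    have e5 : (l : Ω) ^ 2 = 24 * (k : Ω) + 1 := by
      have e6 := congrArg (fun n : ℕ => (n : Ω)) hk
      push_cast at e6
      exact e6
    rw [← hrz]
    linear_combination he - algebraMap F Ω r * e5
  have hmem : (l : Ω) ^ 2 * xc (Θ (l • X)) ∈ V := by
    rw [hkey]
    refine sub_mem (add_mem h2 hsum) (mul_mem ?_ hz)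
    have : (2 : Ω) * (k : Ω) = ((2 * k : ℕ) : Ω) := by push_cast; ring
    rw [this]
    exact natCast_mem V _
  have hne' : Θ (l • X) ≠ 0 := fun h3 => h0 ((map_eq_zero_iff Θ Θ.injective).1 h3)
  have h6 := (ker_crd hne').1 hX
  rw [← V.valuation_le_one_iff, map_mul, map_pow, hlV, one_pow, one_mul] at hmem
  exact absurd h6 (not_lt.2 hmem)

end H13R
end

-- from Lib.H28I.G0
section

/-! # H28I, part G: points of order q -/

open NumberField IsDedekindDomain WeierstrassCurve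

namespace H28I

open H55P (IQ embF eF LF Per IsHecke Pt ac Inert Dec Nm)
open H35P (WAB Ker tt GoodW IntW)
open H55K (xc yc)

theorem g0_delta {k : Type} [Field k] (A B : k) : (WAB A B).Δ = -16 * (4 * A ^ 3 + 27 * B ^ 2) := by
  simp only [WAB, WeierstrassCurve.Δ, WeierstrassCurve.b₂, WeierstrassCurve.b₄, WeierstrassCurve.b₆, WeierstrassCurve.b₈]
  ring

/-- Chunk G0 (M). W = WAB A B is a short equation with a₄ = A, a₆ = B (instances IsShortNF, IsElliptic: the discriminant is -16 (4 A^3 + 27 B^2)). W.ΨSq q has degree q^2 - 1 > 0 (WeierstrassCurve.natDegree_ΨSq, (q : Ω) ≠ 0), so it has a root x (IsAlgClosed.exists_root). y with y^2 = x^3 + A x + B (IsAlgClosed.exists_pow_nat_eq), T = some x y (nonsingular).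
H16C.psi_sq (H16C/D0.lean): psi^2 = ΨSq(x) = 0, H16C.smul_eq_zero_of_psi (D6.lean): q • T = 0. (xc, yc of H16C are the coordinates as here; use cases or rfl.) -/
theorem exists_tors {Ω : Type} [Field Ω] [DecidableEq Ω] [IsAlgClosed Ω] [CharZero Ω] {A B : Ω} (hd : 4 * A ^ 3 + 27 * B ^ 2 ≠ 0)
    {q : ℕ} (hq : 1 < q) : ∃ T : (WAB A B).toAffine.Point, T ≠ 0 ∧ q • T = 0 := by
  have hs : (WAB A B).toAffine.IsShortNF := ⟨rfl, rfl, rfl⟩
  have hD : (WAB A B).Δ ≠ 0 := by
    rw [g0_delta]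
    exact mul_ne_zero (by norm_num) hd
  have hE : (WAB A B).toAffine.IsElliptic := ⟨isUnit_iff_ne_zero.2 hD⟩
  have hq0 : ((q : ℤ) : Ω) ≠ 0 := by
    have : (q : Ω) ≠ 0 := Nat.cast_ne_zero.2 (by omega)
    simpa using this
  have hdeg : 0 < ((WAB A B).ΨSq (q : ℤ)).natDegree := (WAB A B).natDegree_ΨSq_pos (by simpa using hq) hq0
  have hdeg' : ((WAB A B).ΨSq (q : ℤ)).degree ≠ 0 := by
    intro h0
    have := Polynomial.natDegree_eq_of_degree_eq_some (n := 0) h0
    omega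
  obtain ⟨x, hx⟩ := IsAlgClosed.exists_root _ hdeg'
  obtain ⟨y, hy⟩ := IsAlgClosed.exists_pow_nat_eq (x ^ 3 + A * x + B) (n := 2) (by norm_num)
  have heq : (WAB A B).toAffine.Equation x y := by
    rw [Affine.equation_iff]
    simp only [WAB]
    linear_combination hy
  have hns : (WAB A B).toAffine.Nonsingular x y := (Affine.equation_iff_nonsingular_of_Δ_ne_zero hD).1 heq
  refine ⟨Affine.Point.some x y hns, Affine.Point.some_ne_zero _, ?_⟩
  refine H16C.smul_eq_zero_of_psi (Affine.Point.some_ne_zero _) q (by omega) ?_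
  have h1 := H16C.psi_sq (WAB A B).toAffine (x := x) (y := y) (by
    show y ^ 2 = x ^ 3 + A * x + B
    exact hy) (q : ℤ)
  have h2 : ((WAB A B).ΨSq (q : ℤ)).eval x = 0 := hx
  have h3 : H16C.psi (WAB A B).toAffine x y (q : ℤ) ^ 2 = 0 := h1.trans h2
  exact pow_eq_zero_iff (two_ne_zero) |>.1 h3

/-- Chunk G0 (S). W is isomorphic over Ω to the short equation: H55K.TQ.vc_short is for curves over the integers of a number field; here directly: VC (WAB A B) W 1 (b₂/12) (a₁/2) (a₃/2) with A = -c₄/48, B = -c₆/864 (see the proof of vc_short in H55K/T9A.lean), H55K.MG.vc_iso. -/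
theorem exists_tors' {Ω : Type} [Field Ω] [DecidableEq Ω] [IsAlgClosed Ω] [CharZero Ω] {E : WeierstrassCurve Ω} (hd : E.Δ ≠ 0)
    {q : ℕ} (hq : 1 < q) : ∃ T : E.toAffine.Point, T ≠ 0 ∧ q • T = 0 := by
  obtain ⟨A, hA⟩ : ∃ A : Ω, A = -E.c₄ / 48 := ⟨_, rfl⟩
  obtain ⟨B, hB⟩ : ∃ B : Ω, B = -E.c₆ / 864 := ⟨_, rfl⟩
  have hcr := E.c_relation
  have hd0 : 4 * A ^ 3 + 27 * B ^ 2 ≠ 0 := by
    have h1 : 4 * A ^ 3 + 27 * B ^ 2 = -E.Δ / 16 := by
      rw [hA, hB]
      linear_combination (1 / 27648 : Ω) * hcr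
    rw [h1]
    exact div_ne_zero (neg_ne_zero.2 hd) (by norm_num)
  have hD : (WAB A B).Δ ≠ 0 := by
    rw [g0_delta]
    exact mul_ne_zero (by norm_num) hd0
  have hVC : H55K.MG.VC (WAB A B) E 1 ((E.a₂ + (E.a₁ / 2) ^ 2) / 3) (E.a₁ / 2) (E.a₃ / 2) := by
    refine ⟨one_ne_zero, ?_, ?_, ?_, ?_, ?_⟩
    · show 1 * E.a₁ = 0 + 2 * (E.a₁ / 2)
      ring
    · show 1 ^ 2 * E.a₂ = 0 - E.a₁ / 2 * 0 + 3 * ((E.a₂ + (E.a₁ / 2) ^ 2) / 3) - (E.a₁ / 2) ^ 2
      ring
    · show 1 ^ 3 * E.a₃ = 0 + (E.a₂ + (E.a₁ / 2) ^ 2) / 3 * 0 + 2 * (E.a₃ / 2)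
      ring
    · show 1 ^ 4 * E.a₄ = A - E.a₁ / 2 * 0 + 2 * ((E.a₂ + (E.a₁ / 2) ^ 2) / 3) * 0 -
        (E.a₃ / 2 + (E.a₂ + (E.a₁ / 2) ^ 2) / 3 * (E.a₁ / 2)) * 0 +
        3 * ((E.a₂ + (E.a₁ / 2) ^ 2) / 3) ^ 2 - 2 * (E.a₁ / 2) * (E.a₃ / 2)
      rw [hA]
      unfold WeierstrassCurve.c₄ WeierstrassCurve.b₂ WeierstrassCurve.b₄
      ring
    · show 1 ^ 6 * E.a₆ = B + (E.a₂ + (E.a₁ / 2) ^ 2) / 3 * A +
        ((E.a₂ + (E.a₁ / 2) ^ 2) / 3) ^ 2 * 0 + ((E.a₂ + (E.a₁ / 2) ^ 2) / 3) ^ 3 - E.a₃ / 2 * 0 -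
        (E.a₃ / 2) ^ 2 - (E.a₂ + (E.a₁ / 2) ^ 2) / 3 * (E.a₃ / 2) * 0
      rw [hA, hB]
      unfold WeierstrassCurve.c₄ WeierstrassCurve.c₆ WeierstrassCurve.b₂ WeierstrassCurve.b₄
        WeierstrassCurve.b₆
      ring
  obtain ⟨Θ, -⟩ := H55K.MG.vc_iso hVC hD hd
  obtain ⟨T, hT, hqT⟩ := exists_tors hd0 hq
  refine ⟨Θ T, ?_, ?_⟩
  · intro h0
    apply hT
    apply Θ.injective
    rw [h0, map_zero]
  · rw [← map_nsmul, hqT, map_zero]

end H28I
end

-- from Lib.H55K.FC2
section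

/-! # H55K: almost all prime numbers -/

open NumberField IsDedekindDomain WeierstrassCurve

namespace H55K.TQ

open H55P (IQ embF eF LF Per IsHecke Pt ac Inert Dec Nm UnitP)
open H35P (WAB Ker tt GoodW IntW)
open H55K.MG (VC Crd)

theorem FC2_unr {F : Type} [Field F] [NumberField F] {p : ℕ} (hp : p.Prime)
    (hd : ¬ (p : ℤ) ∣ NumberField.discr F) : H55P.UnrP p F := by
  have hpp : Prime (p : ℤ) := Nat.prime_iff_prime_int.1 hp
  rw [NumberField.not_dvd_discr_iff_forall_mem F (𝓞 F) hpp] at hd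
  intro x hx
  rw [Ideal.isUnit_iff]
  by_contra hne
  obtain ⟨P, hP, hle⟩ := Ideal.exists_le_maximal x hne
  have hPp : P.IsPrime := hP.isPrime
  have h1 : P ^ 2 ∣ Ideal.span {(p : 𝓞 F)} := by
    refine dvd_trans ?_ hx
    rw [pow_two]
    exact mul_dvd_mul (Ideal.dvd_iff_le.2 hle) (Ideal.dvd_iff_le.2 hle)
  rw [Ideal.dvd_iff_le] at h1
  have h2 : (p : 𝓞 F) ∈ P := Ideal.pow_le_self two_ne_zero (h1 (Ideal.mem_span_singleton_self _))
  have h3 := hd P hPp (by exact_mod_cast h2)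
  have h4 : P.ramificationIdx ℤ = 1 := Ideal.ramificationIdx_eq_one_iff.2 h3
  have hover : P.under ℤ = Ideal.span {(p : ℤ)} := by
    have hmax : (Ideal.span {(p : ℤ)}).IsMaximal :=
      PrincipalIdealRing.isMaximal_of_irreducible hpp.irreducible
    refine (hmax.eq_of_le (Ideal.IsPrime.ne_top inferInstance) ?_).symm
    rw [Ideal.span_singleton_le_iff_mem, Ideal.under_def, Ideal.mem_comap, map_natCast]
    exact h2
  have : P.LiesOver (Ideal.span {(p : ℤ)}) := ⟨hover.symm⟩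
  have hne : Ideal.span {(p : ℤ)} ≠ ⊥ := by
    rw [Ne, Ideal.span_singleton_eq_bot]
    exact hpp.ne_zero
  rw [← Ideal.ramificationIdx'_eq_ramificationIdx (Ideal.span {(p : ℤ)}) P hne] at h4
  have hle' : Ideal.map (algebraMap ℤ (𝓞 F)) (Ideal.span {(p : ℤ)}) = Ideal.span {(p : 𝓞 F)} := by
    rw [Ideal.map_span, Set.image_singleton, map_natCast]
  have h5 : Ideal.map (algebraMap ℤ (𝓞 F)) (Ideal.span {(p : ℤ)}) ≤ P := by
    rw [hle', Ideal.span_singleton_le_iff_mem]
    exact h2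
  exact (Ideal.ramificationIdx'_ne_one_iff h5).2 (by rw [hle']; exact h1) h4

theorem FC2_cop {F : Type} [Field F] [NumberField F] {p : ℕ} (hp : p.Prime) {D : 𝓞 F}
    (hd : ¬ p ∣ Ideal.absNorm (Ideal.span {D})) :
    IsCoprime (Ideal.span {D}) (Ideal.span {(p : 𝓞 F)}) := by
  rw [Ideal.isCoprime_iff_sup_eq]
  by_contra hne
  obtain ⟨P, hP, hle⟩ := Ideal.exists_le_maximal _ hne
  apply hd
  have h1 : Ideal.absNorm P ∣ Ideal.absNorm (Ideal.span {D}) :=
    Ideal.absNorm_dvd_absNorm_of_le (le_sup_left.trans hle)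
  have h2 : Ideal.absNorm P ∣ Ideal.absNorm (Ideal.span {(p : 𝓞 F)}) :=
    Ideal.absNorm_dvd_absNorm_of_le (le_sup_right.trans hle)
  have h3 : Ideal.absNorm (Ideal.span {(p : 𝓞 F)}) = p ^ Module.finrank ℤ (𝓞 F) := by
    rw [Ideal.absNorm_span_singleton]
    have h4 : (p : 𝓞 F) = algebraMap ℤ (𝓞 F) (p : ℤ) := by simp
    rw [h4, Algebra.norm_algebraMap, Int.natAbs_pow, Int.natAbs_natCast]
  rw [h3, Nat.dvd_prime_pow hp] at h2
  obtain ⟨k, _, hk⟩ := h2
  refine dvd_trans ?_ h1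
  rw [hk]
  have hk0 : k ≠ 0 := by
    rintro rfl
    rw [pow_zero, Ideal.absNorm_eq_one_iff] at hk
    exact hP.ne_top hk
  exact dvd_pow_self p hk0

/-- Chunk FC2 (M). All but finitely many primes satisfy PrimeH: p ≥ 5; unramified: p does not divide the discriminant of F (NumberField.not_dvd_discr_iff_forall_mem, used in H55P/L1.lean pl1_discr; a square I^2 dividing (p) with I not a unit has a prime P, P^2 divides (p)); coprime: p does not divide the norm of Δ ≠ 0: if Δ and p are in a maximal ideal v then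
absNorm v is a power of p and divides the norm of Δ. -/
theorem prime_almost {F : Type} [Field F] [NumberField F] (W₀ : WeierstrassCurve (𝓞 F)) (h : W₀.Δ ≠ 0) :
    {p : ℕ | p.Prime ∧ ¬ PrimeH F W₀ p}.Finite := by
  have hD : (NumberField.discr F).natAbs ≠ 0 := by
    rw [Int.natAbs_ne_zero]
    exact NumberField.discr_ne_zero F
  have hN : Ideal.absNorm (Ideal.span {W₀.Δ}) ≠ 0 := by
    rw [Ne, Ideal.absNorm_eq_zero_iff, Ideal.span_singleton_eq_bot]
    exact h
  refine Set.Finite.subset ((Finset.range 5 ∪ (NumberField.discr F).natAbs.divisors ∪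
    (Ideal.absNorm (Ideal.span {W₀.Δ})).divisors).finite_toSet) ?_
  rintro p ⟨hp, hnot⟩
  rw [Finset.mem_coe, Finset.mem_union, Finset.mem_union, Finset.mem_range, Nat.mem_divisors,
    Nat.mem_divisors]
  by_contra hcon
  push Not at hcon
  obtain ⟨⟨h1, h2⟩, h3⟩ := hcon
  apply hnot
  refine ⟨hp, h1, FC2_unr hp ?_, FC2_cop hp ?_⟩
  · intro hd
    exact hD (h2 (Int.natCast_dvd.1 hd))
  · intro hd
    exact hN (h3 hd)

end H55K.TQ
end

-- from Lib.H28T.W13
section

open NumberField IsDedekindDomain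

namespace H28T

open H28R
open H55P H55R

variable {F : Type} [Field F] [NumberField F] {G : HeightOneSpectrum (𝓞 F) → Prop}

/-! Chunk W13 (M): ramification of K'/F. norm_le: absNorm of w' under is at most absNorm of w' (the residue field of w'.under embeds in that of w'). ram_PB: let W' be a prime of K' with ramificationIdx (𝓞 F) <> 1, W a prime of N above W' (under_exists), P = W.under (𝓞 C), Q = W.under (𝓞 K), v = W.under (𝓞 F) (= 𝓞 F). First case: v is not w.under, nor w'.under. For g in FixZ, ord P (g γ) = ord (g⁻¹ P) γ (H55R.ord_smul),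
g⁻¹ P lies over v (under_smulP), so it is not conjugate to w, w' and Gam.oth: p divides it. Gam.pp for g γ: apply g to a. unr_N with R = range r: the ramification index of W over 𝓞 C is 1. So the index of W over 𝓞 F is the product of the index of P over 𝓞 K (which divides [C:K], so p - 1: C/K is Galois (IsGalois.tower_top_of_isGalois), H55R.HC6_dvd for es and
Ideal.ramificationIdxIn_eq_ramificationIdx) and of the index of Q over 𝓞 F (Ideal.ramificationIdx_tower). If the last one is 1, ram_one with m = p - 1 gives ramificationIdx W' = 1: contradiction. So Q is ramified over F; by ExtG G p K, v is good, and B < absNorm Q <= absNorm W' (norm_le, Q = W'.under). Second case: v = w.under or w'.under: v is good and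
B < absNorm w = absNorm v (Nice.deg: inertia degree 1: absNorm w = absNorm v ^ inertiaDeg, H55R.D5_norm or Ideal.absNorm_eq_pow_inertiaDeg), absNorm v <= absNorm W'. ExtG G p K' (ramified primes lie over good primes) and the bound follow. -/

theorem norm_le {K L : Type} [Field K] [NumberField K] [Field L] [NumberField L] [Algebra K L]
    (W : Pl L) (w : Pl K) (h : W.under (𝓞 K) = w) :
    Ideal.absNorm w.asIdeal ≤ Ideal.absNorm W.asIdeal := by
  have h1 : w.asIdeal = W.asIdeal.comap (algebraMap (𝓞 K) (𝓞 L)) := by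
    rw [← h]
    rfl
  have hfin : Finite (𝓞 L ⧸ W.asIdeal) := Ideal.finiteQuotientOfFreeOfNeBot _ W.ne_bot
  have h2 := Ideal.quotientMap_injective' (f := algebraMap (𝓞 K) (𝓞 L)) (I := W.asIdeal)
    (H := h1.le) h1.ge
  have h3 := Nat.card_le_card_of_injective (α := 𝓞 K ⧸ w.asIdeal) (β := 𝓞 L ⧸ W.asIdeal) _ h2
  exact h3

/-- Ramification indices in towers. -/
theorem W13_tower {F₀ K L : Type} [Field F₀] [NumberField F₀] [Field K] [NumberField K] [Field L]
    [NumberField L] [Algebra F₀ K] [Algebra K L] [Algebra F₀ L] [IsScalarTower F₀ K L] (W : Pl L)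
    (w : Pl K) (h : W.under (𝓞 K) = w) :
    W.asIdeal.ramificationIdx (𝓞 F₀) =
      w.asIdeal.ramificationIdx (𝓞 F₀) * W.asIdeal.ramificationIdx (𝓞 K) := by
  have hl : W.asIdeal.LiesOver w.asIdeal := ⟨by rw [← h]; rfl⟩
  exact Ideal.ramificationIdx_tower (R := 𝓞 F₀) w.asIdeal W.asIdeal

theorem W13_dvd {K L : Type} [Field K] [NumberField K] [Field L] [NumberField L] [Algebra K L]
    [IsGalois K L] (W : Pl L) : W.asIdeal.ramificationIdx (𝓞 K) ∣ Module.finrank K L := by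
  have h1 := (HC6_dvd (L := L) (W.under (𝓞 K))).1
  have hp := (W.under (𝓞 K)).isPrime
  have hW := W.isPrime
  have hl : W.asIdeal.LiesOver (W.under (𝓞 K)).asIdeal := ⟨rfl⟩
  have h2 := Ideal.ramificationIdxIn_eq_ramificationIdx (W.under (𝓞 K)).asIdeal W.asIdeal Gal(L/K)
  rw [← h2]
  exact h1

theorem W13_norm {K L : Type} [Field K] [NumberField K] [Field L] [NumberField L] [Algebra K L]
    [IsGalois K L] (W : Pl L) (h : W.asIdeal.inertiaDeg (𝓞 K) = 1) :
    Ideal.absNorm W.asIdeal = Ideal.absNorm (W.under (𝓞 K)).asIdeal := by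
  have h1 := D5_norm (L := L) (W.under (𝓞 K)) W rfl
  have hp := (W.under (𝓞 K)).isPrime
  have hW := W.isPrime
  have hl : W.asIdeal.LiesOver (W.under (𝓞 K)).asIdeal := ⟨rfl⟩
  have h2 := Ideal.inertiaDegIn_eq_inertiaDeg (W.under (𝓞 K)).asIdeal W.asIdeal Gal(L/K)
  rw [h] at h2
  have h3 : fs K L (W.under (𝓞 K)) = 1 := h2
  rw [h3, pow_one] at h1
  exact h1

/-- A prime over a place which is not below w, w': the generators of N/C satisfy the hypothesis of unr_N. -/
theorem W13_one {p : ℕ} (hp : p.Prime) (h5 : 5 ≤ p) {K C N : Type} [Field K] [NumberField K]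
    [Field C] [NumberField C] [Field N] [NumberField N] [Algebra F K] [Algebra F C] [Algebra F N]
    [Algebra K C] [Algebra C N] [IsScalarTower F K C] [IsScalarTower F C N]
    {ζ : C} (hC : Cyc F p K C ζ) {B : ℕ} {γ : Cˣ} {w w' : Pl C}
    (hγ : Gam G p K C ζ B γ w w') {r : FixZ F ζ → N} (hr : WrP p F C N ζ γ r) (W : Pl N) (P : Pl C)
    (hP : W.under (𝓞 C) = P) (h1 : P.asIdeal.under (𝓞 F) ≠ w.asIdeal.under (𝓞 F))
    (h2 : P.asIdeal.under (𝓞 F) ≠ w'.asIdeal.under (𝓞 F)) : W.asIdeal.ramificationIdx (𝓞 C) = 1 := by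
  have hG := hr.gal
  have hGC : IsGalois C N := IsGalois.tower_top_of_isGalois F C N
  refine unr_N hp (by omega) hC.prim (Set.range r) hr.gen W P hP ?_
  rintro _ ⟨g, rfl⟩
  refine ⟨Units.map (((g : C ≃ₐ[F] C) : C ≃ₐ[F] C) : C →* C) γ, hr.pow g, ?_, ?_⟩
  · obtain ⟨a, ha, hd⟩ := hγ.pp
    refine ⟨(g : C ≃ₐ[F] C) • a, ?_, ?_⟩
    · show (g : C ≃ₐ[F] C) (a : C) = (g : C ≃ₐ[F] C) (γ : C)
      rw [ha]
    · obtain ⟨b, hb⟩ := hd
      refine ⟨(g : C ≃ₐ[F] C) • b, ?_⟩
      have h3 : (g : C ≃ₐ[F] C) • (a - 1) = (g : C ≃ₐ[F] C) • ((p : 𝓞 C) ^ 2 * b) := by rw [hb]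
      rw [smul_sub, smul_one, smul_mul', smul_pow'] at h3
      rw [h3]
      congr 2
      apply RingOfIntegers.ext
      have h4 : (((p : 𝓞 C)) : C) = (p : C) := map_natCast (algebraMap (𝓞 C) C) p
      show (g : C ≃ₐ[F] C) ((p : 𝓞 C) : C) = ((p : 𝓞 C) : C)
      rw [h4, map_natCast]
  · let g' : C ≃ₐ[F] C := (g : C ≃ₐ[F] C)
    have h3 := ord_smul g' (smulP g'⁻¹ P) γ
    rw [← smulP_mul, mul_inv_cancel, smulP_one] at h3
    have h4 : ord P (Units.map ((g' : C ≃ₐ[F] C) : C →* C) γ) = ord (smulP g'⁻¹ P) γ := h3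
    show (p : ℤ) ∣ ord P (Units.map ((g' : C ≃ₐ[F] C) : C →* C) γ)
    rw [h4]
    apply hγ.oth
    have hu : (smulP g'⁻¹ P).asIdeal.under (𝓞 F) = P.asIdeal.under (𝓞 F) :=
      congrArg HeightOneSpectrum.asIdeal (under_smulP g'⁻¹ P)
    have hd : ∀ (δ : C ≃ₐ[K] C) (x : Pl C), (smulP δ x).asIdeal.under (𝓞 F) = x.asIdeal.under (𝓞 F) := by
      intro δ x
      have h5 := congrArg HeightOneSpectrum.asIdeal (under_smulP δ x)
      have h6 : (smulP δ x).asIdeal.under (𝓞 K) = x.asIdeal.under (𝓞 K) := h5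
      have h7 : ∀ I : Ideal (𝓞 C), I.under (𝓞 F) = (I.under (𝓞 K)).under (𝓞 F) := fun I =>
        (Ideal.under_under I).symm
      rw [h7, h6, ← h7]
    intro δ
    constructor
    · intro h
      apply h1
      rw [← hu, h, hd]
    · intro h
      apply h2
      rw [← hu, h, hd]

theorem ram_PB {p : ℕ} (hp : p.Prime) (h5 : 5 ≤ p) {K C N K' : Type} [Field K] [NumberField K]
    [Field C] [NumberField C] [Field N] [NumberField N] [Field K'] [NumberField K'] [Algebra F K]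
    [Algebra F C] [Algebra F N] [Algebra F K'] [Algebra K C] [Algebra K N] [Algebra K K']
    [Algebra C N] [Algebra K' N] [IsScalarTower F K C] [IsScalarTower F C N] [IsScalarTower K C N]
    [IsScalarTower F K N] [IsScalarTower F K K'] [IsScalarTower F K' N] [IsScalarTower K K' N]
    {ζ : C} (hC : Cyc F p K C ζ) {B : ℕ} (hK : PB G p K B) {γ : Cˣ} {w w' : Pl C}
    (hγ : Gam G p K C ζ B γ w w') {r : FixZ F ζ → N} (hr : WrP p F C N ζ γ r) (hG : IsGalois F K')
    (hk : ∃ n : ℕ, Module.finrank F K' = p ^ n) : PB G p K' B := by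
  have hGN := hr.gal
  have hGC := hC.gal
  have key : ∀ W' : Pl K', W'.asIdeal.ramificationIdx (𝓞 F) ≠ 1 →
      (∀ v : HeightOneSpectrum (𝓞 F), v.asIdeal = W'.asIdeal.under (𝓞 F) → G v) ∧
      B < Ideal.absNorm W'.asIdeal := by
    intro W' hW'
    obtain ⟨W, hW⟩ := under_exists (L := N) W'
    have hv1 : W.asIdeal.under (𝓞 F) = W'.asIdeal.under (𝓞 F) := by
      rw [← hW]
      exact (Ideal.under_under W.asIdeal).symm
    have hv2 : (W.under (𝓞 C)).asIdeal.under (𝓞 F) = W'.asIdeal.under (𝓞 F) := by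
      rw [← hv1]
      exact Ideal.under_under W.asIdeal
    -- the primes below a nice prime
    have hnice : ∀ x : Pl C, Nice G p C B x → (W.under (𝓞 C)).asIdeal.under (𝓞 F) = x.asIdeal.under (𝓞 F) →
        (∀ v : HeightOneSpectrum (𝓞 F), v.asIdeal = W'.asIdeal.under (𝓞 F) → G v) ∧
        B < Ideal.absNorm W'.asIdeal := by
      intro x hx hxx
      refine ⟨fun v hv => hx.good v (by rw [hv, ← hv2, hxx]), ?_⟩
      have h1 : Ideal.absNorm x.asIdeal = Ideal.absNorm (x.under (𝓞 F)).asIdeal :=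
        W13_norm x hx.deg
      have h2 : (x.under (𝓞 F)) = W'.under (𝓞 F) := by
        apply HeightOneSpectrum.ext
        show x.asIdeal.under (𝓞 F) = W'.asIdeal.under (𝓞 F)
        rw [← hxx, hv2]
      have h3 := norm_le W' (W'.under (𝓞 F)) rfl
      rw [← h2, ← h1] at h3
      exact lt_of_lt_of_le hx.big h3
    by_cases h1 : (W.under (𝓞 C)).asIdeal.under (𝓞 F) = w.asIdeal.under (𝓞 F)
    · exact hnice w hγ.nice h1
    by_cases h2 : (W.under (𝓞 C)).asIdeal.under (𝓞 F) = w'.asIdeal.under (𝓞 F)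
    · exact hnice w' hγ.nice' h2
    have he := W13_one hp h5 hC hγ hr W _ rfl h1 h2
    have hQ : (W.under (𝓞 C)).under (𝓞 K) = W'.under (𝓞 K) := by
      apply HeightOneSpectrum.ext
      show (W.asIdeal.under (𝓞 C)).under (𝓞 K) = W'.asIdeal.under (𝓞 K)
      rw [Ideal.under_under, ← hW]
      exact (Ideal.under_under W.asIdeal).symm
    have ht1 := W13_tower (F₀ := F) W (W.under (𝓞 C)) rfl
    have ht2 := W13_tower (F₀ := F) (W.under (𝓞 C)) (W'.under (𝓞 K)) hQ
    have hGKC : IsGalois K C := IsGalois.tower_top_of_isGalois F K C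
    have hd1 := (W13_dvd (K := K) (W.under (𝓞 C))).trans hC.deg
    have hram : (W'.under (𝓞 K)).asIdeal.ramificationIdx (𝓞 F) ≠ 1 := by
      intro h0
      apply hW'
      have hcop : (p - 1).Coprime p := by
        have := (Nat.coprime_self_add_right (m := p - 1) (n := 1)).2 (Nat.coprime_one_right _)
        rwa [Nat.sub_add_cancel hp.one_le] at this
      refine ram_one (F₀ := F) hp hk hcop W' W hW ?_
      rw [ht1, he, mul_one, ht2]
      have h0' : (W'.under (𝓞 K)).asIdeal.ramificationIdx (𝓞 F) = 1 := h0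
      rw [h0', one_mul]
      exact hd1
    refine ⟨fun v hv => ?_, ?_⟩
    · by_contra hg
      apply hram
      refine hK.1.2.2 (W'.under (𝓞 K)) v ?_ hg
      rw [hv]
      exact (Ideal.under_under W'.asIdeal).symm
    · exact lt_of_lt_of_le (hK.2 _ hram) (norm_le W' _ rfl)
  refine ⟨⟨hG, hk, fun W' v hv hg => ?_⟩, fun W' hW' => (key W' hW').2⟩
  by_contra h
  exact hg ((key W' h).1 v hv)

end H28T
end

-- from Lib.H13R.R1
section

/-! # H13R: congruent points, any equation of good reduction -/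

open NumberField WeierstrassCurve

namespace H13R

open H35P (WAB Ker GoodW IntW)
open H55K H55K.MG

variable {k : Type} [Field k] [DecidableEq k] {W : WeierstrassCurve k} {V : ValuationSubring k}

/-- xc, yc of a sum of affine points with integral slope is integral: the sum is not in the kernel. -/
theorem r1_sum (hI : IntW W V) {x₁ y₁ x₂ y₂ : k} (h₁ : W.toAffine.Nonsingular x₁ y₁) (h₂ : W.toAffine.Nonsingular x₂ y₂)
    (hc : ¬ (x₁ = x₂ ∧ y₁ = W.toAffine.negY x₂ y₂)) (hx1 : x₁ ∈ V) (hx2 : x₂ ∈ V)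
    (hl : W.toAffine.slope x₁ x₂ y₁ y₂ ∈ V) :
    ¬ Ker V ((Affine.Point.some x₁ y₁ h₁ : W.toAffine.Point) + Affine.Point.some x₂ y₂ h₂) := by
  rw [Affine.Point.add_some hc]
  intro hK
  have hK' : 1 < V.valuation (W.toAffine.addX x₁ x₂ (W.toAffine.slope x₁ x₂ y₁ y₂)) := hK
  refine absurd hK' (not_lt.2 ((V.valuation_le_one_iff _).2 ?_))
  unfold Affine.addX
  exact sub_mem (sub_mem (sub_mem (add_mem (pow_mem hl 2) (mul_mem hI.a1 hl)) hI.a2) hx1) hx2

omit [DecidableEq k] in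
theorem r1_div {a b : k} (ha : a ∈ V) (hb : V.valuation b = 1) : a / b ∈ V := by
  rw [← V.valuation_le_one_iff, map_div₀, hb, div_one]
  exact (V.valuation_le_one_iff _).2 ha

/-- Chunk R1 (M), pure algebra (the converse of H55K.MG.cong_ker, M3A.lean; compare H35P.rd, RD.lean, whose private lemmas RD_le, RD_mul_lt may be copied). P not in Ker, Q - P in Ker. (1) Q is not in Ker: otherwise P = Q - (Q - P) in Ker (H35P.ker_sub h.toIntW). So the coordinates x₁, y₁ of P and x₂, y₂ of Q are in V (int_crd). P - Q in Ker (H35P.ker_neg).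
Write -Q = (x₂, n), n = negY x₂ y₂ = -y₂ - a₁ x₂ - a₃ (in V). P - Q = P + (-Q) (sub_eq_add_neg, Affine.Point.neg_some, Affine.Point.add_some), its x-coordinate is addX x₁ x₂ l = l^2 + a₁ l - a₂ - x₁ - x₂, l the slope of (x₁, y₁), (x₂, n). KEY: if l is in V then addX is in V, so P - Q is not in Ker (unless P + (-Q) = 0 by add_of_Y_eq: then P = Q and the claim is trivial).
(2) V(x₁ - x₂) < 1: otherwise it is 1 (both in V), l = (y₁ - n)/(x₁ - x₂) (slope_of_X_ne) is in V: contradiction. (3) V(y₁ - y₂) < 1: otherwise V(y₁ - y₂) = 1, so P ≠ Q. If x₁ ≠ x₂: the identity (y₁ - n)(y₁ - y₂) = (x₁ - x₂) G with G = x₁^2 + x₁ x₂ + x₂^2 + a₂ (x₁ + x₂) + a₄ - a₁ y₁ (hkey in the proof of unit_diff, from the two equations) gives l = (y₁ - n)/(x₁ - x₂) = G/(y₁ - y₂), in V: contradiction.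
If x₁ = x₂: Affine.Y_eq_of_X_eq gives y₁ = n (y₁ ≠ y₂), P = -Q, P + (-Q) = 2 P, slope_of_Y_ne: l = (3 x₁^2 + 2 a₂ x₁ + a₄ - a₁ y₁)/(y₁ - negY x₁ y₁) and negY x₁ y₁ = y₂ (negY_negY), so l is in V: contradiction. -/
theorem cls_convR (h : GoodW W V) {P Q : W.toAffine.Point} (hP : ¬ Ker V P) (hK : Ker V (Q - P)) : ¬ Ker V Q ∧
    V.valuation (xc Q - xc P) < 1 ∧ V.valuation (yc Q - yc P) < 1 := by
  have hI : IntW W V := h.toIntW
  have hQ : ¬ Ker V Q := by
    intro hQ
    apply hP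
    have h1 := H35P.ker_sub hI _ _ hQ hK
    rwa [sub_sub_cancel] at h1
  refine ⟨hQ, ?_⟩
  obtain ⟨hP0, hPx, hPy⟩ := int_crd h hP
  obtain ⟨hQ0, hQx, hQy⟩ := int_crd h hQ
  have hK2 : Ker V (P - Q) := by
    have h1 := (H35P.ker_neg (Q - P)).2 hK
    rwa [neg_sub] at h1
  rcases P with _ | ⟨x₁, y₁, h₁⟩
  · exact absurd rfl hP0
  rcases Q with _ | ⟨x₂, y₂, h₂⟩
  · exact absurd rfl hQ0
  change V.valuation (x₂ - x₁) < 1 ∧ V.valuation (y₂ - y₁) < 1
  have hx1 : x₁ ∈ V := hPx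
  have hx2 : x₂ ∈ V := hQx
  have hy1 : y₁ ∈ V := hPy
  have hy2 : y₂ ∈ V := hQy
  have hE1 := (Affine.equation_iff ..).1 h₁.1
  have hE2 := (Affine.equation_iff ..).1 h₂.1
  rw [sub_eq_add_neg, Affine.Point.neg_some] at hK2
  have hneg : W.toAffine.negY x₂ y₂ = -y₂ - W.a₁ * x₂ - W.a₃ := rfl
  have hnV : W.toAffine.negY x₂ y₂ ∈ V := by
    rw [hneg]
    exact sub_mem (sub_mem (neg_mem hy2) (mul_mem hI.a1 hx2)) hI.a3
  by_cases hc : x₁ = x₂ ∧ y₁ = W.toAffine.negY x₂ (W.toAffine.negY x₂ y₂)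
  · have hyy : y₁ = y₂ := by rw [hc.2, Affine.negY_negY]
    rw [hc.1, hyy, sub_self, sub_self, map_zero]
    exact ⟨zero_lt_one, zero_lt_one⟩
  have hslope : W.toAffine.slope x₁ x₂ y₁ (W.toAffine.negY x₂ y₂) ∉ V := fun hl =>
    r1_sum hI h₁ ((Affine.nonsingular_neg ..).2 h₂) hc hx1 hx2 hl hK2
  have hXlt : V.valuation (x₁ - x₂) < 1 := by
    refine lt_of_le_of_ne ((V.valuation_le_one_iff _).2 (sub_mem hx1 hx2)) fun he => ?_
    have hne : x₁ ≠ x₂ := by
      rintro rfl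
      rw [sub_self, map_zero] at he
      exact zero_ne_one he
    apply hslope
    rw [Affine.slope_of_X_ne hne]
    exact r1_div (sub_mem hy1 hnV) he
  have hYlt : V.valuation (y₁ - y₂) < 1 := by
    refine lt_of_le_of_ne ((V.valuation_le_one_iff _).2 (sub_mem hy1 hy2)) fun he => ?_
    have hyne : y₁ ≠ y₂ := by
      rintro rfl
      rw [sub_self, map_zero] at he
      exact zero_ne_one he
    by_cases hxx : x₁ = x₂
    · have hneg1 : y₁ = W.toAffine.negY x₂ y₂ := (Affine.Y_eq_of_X_eq h₁.1 h₂.1 hxx).resolve_left hyne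
      have hy' : y₁ ≠ W.toAffine.negY x₂ (W.toAffine.negY x₂ y₂) := fun hh => hc ⟨hxx, hh⟩
      apply hslope
      rw [Affine.slope_of_Y_ne hxx hy']
      have e : y₁ - W.toAffine.negY x₁ y₁ = y₁ - y₂ := by
        have e1 : W.toAffine.negY x₁ y₁ = y₂ := by
          rw [hneg1, hxx, Affine.negY_negY]
        rw [e1]
      rw [e]
      have h2V : (2 : k) ∈ V := by exact_mod_cast natCast_mem V 2
      have h3V : (3 : k) ∈ V := by exact_mod_cast natCast_mem V 3
      exact r1_div (sub_mem (add_mem (add_mem (mul_mem h3V (pow_mem hx1 2)) (mul_mem (mul_mem h2V hI.a2) hx1)) hI.a4)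
        (mul_mem hI.a1 hy1)) he
    · have hxx0 : x₁ - x₂ ≠ 0 := sub_ne_zero.2 hxx
      have hid : (y₁ - W.toAffine.negY x₂ y₂) * (y₁ - y₂) =
          (x₁ - x₂) * (x₁ ^ 2 + x₁ * x₂ + x₂ ^ 2 + W.a₂ * (x₁ + x₂) + W.a₄ - W.a₁ * y₁) := by
        rw [hneg]
        linear_combination hE1 - hE2
      apply hslope
      rw [Affine.slope_of_X_ne hxx]
      have e : (y₁ - W.toAffine.negY x₂ y₂) / (x₁ - x₂) =
          (x₁ ^ 2 + x₁ * x₂ + x₂ ^ 2 + W.a₂ * (x₁ + x₂) + W.a₄ - W.a₁ * y₁) / (y₁ - y₂) := by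
        rw [div_eq_div_iff hxx0 (sub_ne_zero.2 hyne), hid]
        ring
      rw [e]
      exact r1_div (sub_mem (add_mem (add_mem (add_mem (add_mem (pow_mem hx1 2) (mul_mem hx1 hx2)) (pow_mem hx2 2))
        (mul_mem hI.a2 (add_mem hx1 hx2))) hI.a4) (mul_mem hI.a1 hy1)) he
  refine ⟨?_, ?_⟩
  · rw [Valuation.map_sub_swap]
    exact hXlt
  · rw [Valuation.map_sub_swap]
    exact hYlt

end H13R
end
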