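import Mathlib
import Pool.Agent.Lib.H1M.PP.D_H55K_EX0
import Pool.Agent.Lib.H1M.PP.M012
import Pool.Agent.Lib.H1M.PP.M038
import Pool.Agent.Lib.H1M.PP.M047
import Pool.Agent.Lib.H1M.PP.M048
import Pool.Agent.Lib.H1M.PP.M050
import Pool.Agent.Lib.H1M.PP.M051
import Pool.Agent.Lib.H1M.PP.M056
import Pool.Agent.Lib.H1M.PP.M057
import Pool.Agent.Lib.H1M.PP.M058
import Pool.Agent.Lib.H1M.PP.M059
import Pool.Agent.Lib.H1M.PP.M061
import Pool.Agent.Lib.H1M.PP.M062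
import Pool.Agent.Lib.H1M.PP.M064
import Pool.Agent.Lib.H1M.PP.M069
import Pool.Agent.Lib.H1M.PP.M071
import Pool.Agent.Lib.H1M.PP.M072

/-! Merged copies (to shorten the build) of Lib.H13D.E6, Lib.H55K.EX1, Lib.H13R.R2, Lib.H28I.G1, Lib.H28I.G2, Lib.H13X.XP0, Lib.H13X.XP. -/

-- from Lib.H13D.E6
section

/-! # H13D, part E: the values of Yel and Zel at the good primes -/

open NumberField IsDedekindDomain WeierstrassCurve

namespace H13D

open H55P (IQ embF eF LF Per IsHecke Pt ac Inert Dec Nm)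
open H35P (WAB Ker tt GoodW IntW)
open H55K
open H55K.MG (VC Crd)

variable {F : Type} [Field F] [NumberField F] [IQ F] {A B : F} {Om : ℂ} {Ω : Type} [Field Ω] [DecidableEq Ω]
  [Algebra F Ω] {j : Ω →+* ℂ} {act : 𝓞 F →+* AddMonoid.End (Pt (WAB A B) Ω)} {V : ValuationSubring Ω} {δ : 𝓞 F} {D : ℕ}

/-- Chunk E6 (S/M). The points i • T₀ and (2i) • T₀ for i in QR D (0 < i < D: D does not divide i, 2i) are killed by δ and not 0 (zsmul_iff), so they are not in Kg (tor_unit' for δ). -/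
theorem QR_out (h : CMA F A B Om j act) (hd : Del F δ D) {Kg : AddSubgroup (Pt (WAB A B) Ω)} {u r : Ω} (hR : RM A B V Kg u r)
    (hδ : V.valuation (ak Ω δ) = 1) {T₀ : Pt (WAB A B) Ω} (hT : act δ T₀ = 0) (h0 : T₀ ≠ 0) {i : ℕ} (hi : i ∈ QR D) :
    i • T₀ ∉ Kg ∧ i • T₀ + i • T₀ ∉ Kg := by
  have key : ∀ k : ℕ, k • T₀ ∈ Kg → (D : ℤ) ∣ (k : ℤ) := by
    intro k hk
    have h1 : act δ (k • T₀) = 0 := by rw [map_nsmul, hT, smul_zero]
    have h2 := tor_unit' h hR hδ h1 hk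
    rw [← zsmul_iff hd hT h0, natCast_zsmul]
    exact h2
  rw [mem_QR hd.prime] at hi
  have hD : ¬ (D : ℤ) ∣ (i : ℤ) := by
    intro h1
    have h2 : D ∣ i := Int.natCast_dvd_natCast.1 h1
    have h3 : i = 0 := Nat.eq_zero_of_dvd_of_lt h2 hi.1
    have h4 := hi.2
    rw [h3, Nat.cast_zero, jacobiSym.zero_left hd.prime.one_lt] at h4
    exact absurd h4 (by norm_num)
  refine ⟨fun h1 => hD (key i h1), fun h1 => ?_⟩
  rw [← two_nsmul, ← mul_smul] at h1
  have h2 := key _ h1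
  push_cast at h2
  rcases (Nat.prime_iff_prime_int.1 hd.prime).dvd_or_dvd h2 with h3 | h3
  · have h4 := Int.le_of_dvd (by norm_num) h3
    have := hd.big
    omega
  · exact hD h3

/-- Chunk E6 (S). QR_out, val_two_y for every factor. -/
theorem val_Yel (h : CMA F A B Om j act) (hd : Del F δ D) (W₀ : WeierstrassCurve (𝓞 F)) (hG : GoodW ((W₀⁄F)⁄Ω) V)
    {Θ : Pt (WAB A B) Ω ≃+ Pt (W₀⁄F) Ω}
    (hc : Crd 1 (algebraMap F Ω (algebraMap (𝓞 F) F W₀.b₂ / 12)) (algebraMap F Ω (algebraMap (𝓞 F) F W₀.a₁ / 2))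
        (algebraMap F Ω (algebraMap (𝓞 F) F W₀.a₃ / 2)) Θ) {Kg : AddSubgroup (Pt (WAB A B) Ω)} (hK : ∀ P, P ∈ Kg ↔ Ker V (Θ P))
    {u r : Ω} (hR : RM A B V Kg u r) (hδ : V.valuation (ak Ω δ) = 1) {T₀ : Pt (WAB A B) Ω} (hT : act δ T₀ = 0) (h0 : T₀ ≠ 0) :
    V.valuation (Yel D T₀) = 1 := by
  unfold Yel
  rw [map_prod]
  refine Finset.prod_eq_one fun i hi => ?_
  obtain ⟨h1, h2⟩ := QR_out h hd hR hδ hT h0 hi
  exact val_two_y W₀ hG hc hK h1 h2

/-- Chunk E6 (S/M). By sq_two_y every factor of Yel^2 is α^2 + 4 c with α the factor of Zel, V(α) ≤ 1, V(c) ≤ 1 (xc (Θ P) = xc P - b₂/12 in V: MG.int_crd; ak_le). Products of such expressions: (α^2 + 4c)(α'^2 + 4c') = (αα')^2 + 4 (..): induction over the finite set. -/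
theorem sq_Yel (h : CMA F A B Om j act) (hd : Del F δ D) (W₀ : WeierstrassCurve (𝓞 F)) (hG : GoodW ((W₀⁄F)⁄Ω) V)
    {Θ : Pt (WAB A B) Ω ≃+ Pt (W₀⁄F) Ω}
    (hc : Crd 1 (algebraMap F Ω (algebraMap (𝓞 F) F W₀.b₂ / 12)) (algebraMap F Ω (algebraMap (𝓞 F) F W₀.a₁ / 2))
        (algebraMap F Ω (algebraMap (𝓞 F) F W₀.a₃ / 2)) Θ) {Kg : AddSubgroup (Pt (WAB A B) Ω)} (hK : ∀ P, P ∈ Kg ↔ Ker V (Θ P))
    {u r : Ω} (hR : RM A B V Kg u r) (hδ : V.valuation (ak Ω δ) = 1) {T₀ : Pt (WAB A B) Ω} (hT : act δ T₀ = 0) (h0 : T₀ ≠ 0) :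
    V.valuation (Zel D T₀ (ak Ω W₀.a₁) (algebraMap F Ω (algebraMap (𝓞 F) F W₀.b₂ / 12)) (ak Ω W₀.a₃)) ≤ 1 ∧
    ∃ w : Ω, V.valuation w ≤ 1 ∧ Yel D T₀ ^ 2 =
      Zel D T₀ (ak Ω W₀.a₁) (algebraMap F Ω (algebraMap (𝓞 F) F W₀.b₂ / 12)) (ak Ω W₀.a₃) ^ 2 + 4 * w := by
  classical
  have key : ∀ s : Finset ℕ, s ⊆ QR D →
      (∏ i ∈ s, (ak Ω W₀.a₁ * (xc (i • T₀) - algebraMap F Ω (algebraMap (𝓞 F) F W₀.b₂ / 12)) + ak Ω W₀.a₃)) ∈ V ∧
      ∃ w : Ω, w ∈ V ∧ (∏ i ∈ s, 2 * yc (i • T₀)) ^ 2 =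
        (∏ i ∈ s, (ak Ω W₀.a₁ * (xc (i • T₀) - algebraMap F Ω (algebraMap (𝓞 F) F W₀.b₂ / 12)) + ak Ω W₀.a₃)) ^ 2 + 4 * w := by
    intro s
    induction s using Finset.induction_on with
    | empty =>
      intro _
      simp only [Finset.prod_empty]
      exact ⟨V.one_mem, 0, V.zero_mem, by ring⟩
    | insert i s his ih =>
      intro hs
      obtain ⟨h1, w, hw, h2⟩ := ih (fun k hk => hs (Finset.mem_insert_of_mem hk))
      have hi := hs (Finset.mem_insert_self i s)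
      obtain ⟨h3, -⟩ := QR_out h hd hR hδ hT h0 hi
      have hP0 : i • T₀ ≠ 0 := fun h4 => h3 (by rw [h4]; exact Kg.zero_mem)
      have hker : ¬ Ker V (Θ (i • T₀)) := fun h4 => h3 ((hK _).2 h4)
      obtain ⟨-, hx, -⟩ := MG.int_crd hG hker
      obtain ⟨-, hxx, -⟩ := hc _ hP0
      have hx' : xc (i • T₀) - algebraMap F Ω (algebraMap (𝓞 F) F W₀.b₂ / 12) = xc (Θ (i • T₀)) := by
        rw [hxx]
        ring
      have hak : ∀ a : 𝓞 F, ak Ω a ∈ V := fun a => (V.valuation_le_one_iff _).1 (ak_le V a)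
      have hsq := sq_two_y W₀ hc hP0
      rw [hx'] at hsq
      have hα : ak Ω W₀.a₁ * xc (Θ (i • T₀)) + ak Ω W₀.a₃ ∈ V := V.add_mem _ _ (V.mul_mem _ _ (hak _) hx) (hak _)
      have hcc : xc (Θ (i • T₀)) ^ 3 + ak Ω W₀.a₂ * xc (Θ (i • T₀)) ^ 2 + ak Ω W₀.a₄ * xc (Θ (i • T₀)) + ak Ω W₀.a₆ ∈ V :=
        V.add_mem _ _ (V.add_mem _ _ (V.add_mem _ _ (pow_mem hx 3) (V.mul_mem _ _ (hak _) (pow_mem hx 2))) (V.mul_mem _ _ (hak _) hx)) (hak _)
      rw [Finset.prod_insert his, Finset.prod_insert his, hx']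
      generalize ak Ω W₀.a₁ * xc (Θ (i • T₀)) + ak Ω W₀.a₃ = α at hα hsq ⊢
      generalize xc (Θ (i • T₀)) ^ 3 + ak Ω W₀.a₂ * xc (Θ (i • T₀)) ^ 2 + ak Ω W₀.a₄ * xc (Θ (i • T₀)) + ak Ω W₀.a₆ = c at hcc hsq
      generalize (∏ i ∈ s, (ak Ω W₀.a₁ * (xc (i • T₀) - algebraMap F Ω (algebraMap (𝓞 F) F W₀.b₂ / 12)) + ak Ω W₀.a₃)) = β at h1 h2 ⊢
      refine ⟨V.mul_mem _ _ hα h1, α ^ 2 * w + c * β ^ 2 + 4 * (c * w), ?_, ?_⟩
      · refine V.add_mem _ _ (V.add_mem _ _ (V.mul_mem _ _ (pow_mem hα 2) hw) (V.mul_mem _ _ hcc (pow_mem h1 2))) (V.mul_mem _ _ ?_ (V.mul_mem _ _ hcc hw))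
        exact_mod_cast natCast_mem V 4
      · rw [mul_pow, hsq, h2]
        ring
  obtain ⟨h1, w, hw, h2⟩ := key (QR D) (fun _ h => h)
  exact ⟨(V.valuation_le_one_iff _).2 h1, w, (V.valuation_le_one_iff _).2 hw, h2⟩

end H13D
end

-- from Lib.H55K.EX1
section

/-! # H55K: the example y^2 + y = x^3: hypotheses -/

open NumberField IsDedekindDomain WeierstrassCurve

namespace H55K.TQ

open H55P (IQ embF eF LF Per IsHecke Pt ac Inert Dec Nm UnitP)
open H35P (WAB Ker tt GoodW IntW)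
open H55K.MG (VC Crd)

theorem ex1_lam : ((H55B.om : H55B.O) - 1) ^ 6 = -27 := by
  have h := H55B.om_rel
  linear_combination (H55B.om ^ 4 - 7 * H55B.om ^ 3 + 21 * H55B.om ^ 2 - 34 * H55B.om + 28) * h

theorem ex1_disc : H55P.W27O.Δ = -27 := by
  simp [H55P.W27O, WeierstrassCurve.Δ, WeierstrassCurve.b₂, WeierstrassCurve.b₄, WeierstrassCurve.b₆, WeierstrassCurve.b₈]

theorem ex1_mem (v : HeightOneSpectrum H55B.O) : (H55P.W27O.Δ ∈ v.asIdeal) ↔ (3 : H55B.O) ∈ v.asIdeal := by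
  rw [ex1_disc]
  have h27 : (-27 : H55B.O) = -(3 ^ 3) := by norm_num
  rw [h27, neg_mem_iff]
  constructor
  · intro h
    exact v.isPrime.mem_of_pow_mem _ h
  · intro h
    exact Ideal.pow_mem_of_mem _ h 3 (by norm_num)

/-- Chunk EX1 (S/M). y^2 + y = x^3 is bad at the prime above 3 of F: a change of variables with factor u gives Δ' = u^-12 Δ, Δ = -27 = unit * lam^6 with lam a uniformiser, so the valuation of Δ' is exp(-6 + 12 k), not 1. -/
theorem ex_bad (v : HeightOneSpectrum H55B.O) (hv : (3 : H55B.O) ∈ v.asIdeal) : ¬ GoodAt (H55P.W27O⁄(H55B.F)) v := by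
  rintro ⟨C, -, -, -, -, -, hΔ⟩
  have hlam : (H55B.om : H55B.O) - 1 ∈ v.asIdeal := by
    have h1 : ((H55B.om : H55B.O) - 1) ^ 6 ∈ v.asIdeal := by
      rw [ex1_lam, ← ex1_disc]
      exact (ex1_mem v).2 hv
    exact v.isPrime.mem_of_pow_mem _ h1
  have hspan : v.asIdeal = Ideal.span {(H55B.om : H55B.O) - 1} := by
    have hle : Ideal.span {(H55B.om : H55B.O) - 1} ≤ v.asIdeal := (Ideal.span_singleton_le_iff_mem _).2 hlam
    have hp : (Ideal.span {(H55B.om : H55B.O) - 1}).IsPrime :=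
      (Ideal.span_singleton_prime H55B.lam_prime.ne_zero).2 H55B.lam_prime
    have hmax : (Ideal.span {(H55B.om : H55B.O) - 1}).IsMaximal :=
      Ideal.IsPrime.isMaximal hp (by
        rw [Ne, Ideal.span_singleton_eq_bot]
        exact H55B.lam_prime.ne_zero)
    exact (hmax.eq_of_le v.isPrime.ne_top hle).symm
  have h1 : v.intValuation ((H55B.om : H55B.O) - 1) = WithZero.exp (-1 : ℤ) :=
    HeightOneSpectrum.intValuation_singleton v H55B.lam_prime.ne_zero hspan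
  have h2 : (H55P.W27O⁄(H55B.F)).Δ = algebraMap H55B.O H55B.F (((H55B.om : H55B.O) - 1) ^ 6) := by
    rw [ex1_lam, ← ex1_disc]
    exact H55P.W27O.map_Δ (algebraMap H55B.O H55B.F)
  rw [variableChange_Δ, h2, map_mul, map_pow, HeightOneSpectrum.valuation_of_algebraMap, map_pow, h1] at hΔ
  have hu : v.valuation H55B.F ((C.u⁻¹ : H55B.Fˣ) : H55B.F) ≠ 0 := (map_ne_zero _).2 (Units.ne_zero _)
  rw [← WithZero.exp_log hu, ← WithZero.exp_nsmul, ← WithZero.exp_nsmul, ← WithZero.exp_add, ← WithZero.exp_zero] at hΔ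
  have h3 := WithZero.exp_injective hΔ
  simp only [nsmul_eq_mul] at h3
  push_cast at h3
  omega

theorem ex1_relK (K : Type) [Field K] [NumberField K] [Algebra H55B.F K] (h1 : Module.finrank H55B.F K = 1)
    (J : Ideal H55B.O) : Ideal.relNorm H55B.O (J.map (algebraMap H55B.O (𝓞 K))) = J := by
  have hr : Module.finrank H55B.O (𝓞 K) = 1 := by
    rw [← h1]
    exact (IsFractionRing.finrank_eq H55B.O H55B.F (𝓞 K) K).symm
  rw [Ideal.relNorm_algebraMap (𝓞 K) J, hr, pow_one]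

theorem ex1_map {R : Type} [CommRing R] (f : R →+* R) (hf : ∀ x, f x = x) (J : Ideal R) : J.map f = J := by
  have h : f = RingHom.id R := RingHom.ext hf
  rw [h, Ideal.map_id]

theorem ex1_psi (J : Ideal H55B.O) :
    H55N.Psi H55B.F J = (starRingEnd ℂ) (eF H55B.F (H55P.psiE J)) := by
  have h := ex1_relK H55B.F (Module.finrank_self _) J
  rw [ex1_map _ (fun x => rfl) J] at h
  have h4 : H55N.Psi H55B.F J = (starRingEnd ℂ) (eF H55B.F (H55P.psiE (Ideal.relNorm H55B.O J))) := rfl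
  rw [h4]
  exact congrArg (fun I => (starRingEnd ℂ) (eF H55B.F (H55P.psiE I))) h

/-- Chunk EX1 (S/M). data: Δ = -27, perE (c₄ = 0, c₆ = -216), isHeckeE; deu: cardE (Z5.lean) for K = F (Psi F v = conj (e (psiE (relNorm v))), relNorm over F itself is the identity: use T2_equiv or Ideal.relNorm for the identity; or PsiP and H55K pts style; Nm z = e z conj (e z)); supp: Δ in v iff 3 in v iff m3 ≤ v. -/
theorem ex_base : BaseH H55B.F (EZ⁄(H55B.O)) H55P.OmE H55P.m3 H55P.psiE := by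
  rw [EZ_O]
  have h3v : ∀ v : HeightOneSpectrum H55B.O, H55P.m3 ≤ v.asIdeal ↔ (3 : H55B.O) ∈ v.asIdeal := by
    intro v
    unfold H55P.m3
    exact Ideal.span_singleton_le_iff_mem _
  refine ⟨⟨?_, ?_, H55P.isHeckeE⟩, ?_, ?_, ?_⟩
  · rw [ex1_disc]
    norm_num
  · have h4 : H55P.W27O.c₄ = 0 := by
      simp [H55P.W27O, WeierstrassCurve.c₄, WeierstrassCurve.b₂, WeierstrassCurve.b₄]
    have h6 : H55P.W27O.c₆ = -216 := by
      simp [H55P.W27O, WeierstrassCurve.c₆, WeierstrassCurve.b₂, WeierstrassCurve.b₄, WeierstrassCurve.b₆]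
    rw [h4, h6]
    have e1 : -(eF H55B.F (0 : 𝓞 H55B.F)) / 48 = (0 : ℂ) := by
      rw [map_zero]; norm_num
    have e2 : -(eF H55B.F (-216 : 𝓞 H55B.F)) / 864 = (1 / 4 : ℂ) := by
      rw [map_neg, map_ofNat]; norm_num
    rw [e1, e2]
    exact H55P.perE
  · intro v hv
    have h3 : (3 : H55B.O) ∉ v.asIdeal := fun h => hv ((ex1_mem v).2 h)
    have hc := H55P.cardE H55B.F v h3
    have hP : H55N.Psi H55B.F v.asIdeal = (starRingEnd ℂ) (eF H55B.F (H55P.psiE v.asIdeal)) := ex1_psi v.asIdeal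
    rw [hP, Complex.conj_conj] at hc
    have hN := H55P.Nm_eq (F := H55B.F) (1 - H55P.psiE v.asIdeal)
    have hN2 : ((Nm (1 - H55P.psiE v.asIdeal) : ℕ) : ℂ) =
        (1 - (starRingEnd ℂ) (eF H55B.F (H55P.psiE v.asIdeal))) * (1 - eF H55B.F (H55P.psiE v.asIdeal)) := by
      have h5 : ((Nm (1 - H55P.psiE v.asIdeal) : ℕ) : ℂ) =
          (((Nm (1 - H55P.psiE v.asIdeal) : ℕ) : ℝ) : ℂ) := by push_cast; rfl
      rw [h5, hN, ← Complex.normSq_eq_norm_sq, ← Complex.mul_conj, map_sub, map_sub, map_one, map_one]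
      ring
    have h6 := hc.trans hN2.symm
    exact_mod_cast h6
  · intro v
    rw [h3v, ex1_mem]
  · intro v hv
    exact ex_bad v ((ex1_mem v).1 hv)

/-- Chunk EX1 (S). sqfree_E; the ideals (27) and (p) are coprime. -/
theorem ex_prime {p : ℕ} (hp : p.Prime) (h5 : 5 ≤ p) : PrimeH H55B.F (EZ⁄(H55B.O)) p := by
  rw [EZ_O]
  refine ⟨hp, h5, H55P.sqfree_E p hp h5, ?_⟩
  rw [ex1_disc, Ideal.isCoprime_span_singleton_iff]
  have h1 : IsCoprime (-27 : ℤ) (p : ℤ) := by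
    rw [IsCoprime.neg_left_iff]
    have h2 : Nat.Coprime 27 p := by
      have h3 : Nat.Coprime 3 p := (Nat.coprime_primes Nat.prime_three hp).2 (by omega)
      have h4 : (27 : ℕ) = 3 ^ 3 := by norm_num
      rw [h4]
      exact Nat.Coprime.pow_left 3 h3
    exact_mod_cast Nat.isCoprime_iff_coprime.2 h2
  have h2 := h1.map (Int.castRingHom (𝓞 H55B.F))
  simpa using h2

end H55K.TQ
end

-- from Lib.H13R.R2
section

/-! # H13R: counting the points of the reduction, any equation of good reduction, any number field -/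

open NumberField IsDedekindDomain WeierstrassCurve

namespace H13R

open H55P (IQ embF eF LF Per IsHecke Pt ac Inert Dec Nm)
open H35P (WAB Ker tt GoodW IntW)
open H55K H55K.MG

/-- The kernel of reduction as a subgroup. -/
def kerR {k : Type} [Field k] [DecidableEq k] {W : WeierstrassCurve k} {V : ValuationSubring k} (h : GoodW W V) :
    AddSubgroup W.toAffine.Point where
  carrier := {P | Ker V P}
  add_mem' := fun hP hQ => H35P.ker_add h.toIntW _ _ hP hQ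
  zero_mem' := trivial
  neg_mem' := fun hP => (H35P.ker_neg _).2 hP

variable {F : Type} [Field F] [NumberField F] {Ω : Type} [Field Ω] [DecidableEq Ω]
  [Algebra F Ω] {V : ValuationSubring Ω}

omit [NumberField F] [DecidableEq Ω] in
theorem r2_mul {x y : Ω} (hx : V.valuation x ≤ 1) (hy : V.valuation y ≤ 1) : V.valuation (x * y) ≤ 1 := by
  rw [map_mul]
  exact mul_le_one' hx hy

omit [NumberField F] [DecidableEq Ω] in
theorem r2_add {x y : Ω} (hx : V.valuation x ≤ 1) (hy : V.valuation y ≤ 1) : V.valuation (x + y) ≤ 1 :=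
  (Valuation.map_add _ _ _).trans (max_le hx hy)

omit [NumberField F] [DecidableEq Ω] in
theorem r2_eval (W₀ : WeierstrassCurve (𝓞 F)) (a b : 𝓞 F) : ak Ω (g9E W₀ a b) =
    ak Ω b ^ 2 + ak Ω W₀.a₁ * ak Ω a * ak Ω b + ak Ω W₀.a₃ * ak Ω b -
      (ak Ω a ^ 3 + ak Ω W₀.a₂ * ak Ω a ^ 2 + ak Ω W₀.a₄ * ak Ω a + ak Ω W₀.a₆) := by
  unfold g9E
  simp only [← g9h_eq, map_sub, map_add, map_mul, map_pow]

omit [NumberField F] [DecidableEq Ω] in
/-- Existence of a lift of a point modulo v. -/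
theorem r2_lift [IsAlgClosed Ω] (W₀ : WeierstrassCurve (𝓞 F)) (hG : GoodW ((W₀⁄F)⁄Ω) V) (a b : 𝓞 F)
    (hE : V.valuation (ak Ω (g9E W₀ a b)) < 1) : ∃ X : Pt (W₀⁄F) Ω, ¬ Ker V X ∧ xc X = ak Ω a ∧
      V.valuation (yc X - ak Ω b) < 1 := by
  set β : Ω := ak Ω W₀.a₁ * ak Ω a + ak Ω W₀.a₃ with hβ
  set γ : Ω := -(ak Ω a ^ 3 + ak Ω W₀.a₂ * ak Ω a ^ 2 + ak Ω W₀.a₄ * ak Ω a + ak Ω W₀.a₆) with hγ
  obtain ⟨z, hz⟩ : ∃ z : Ω, z ^ 2 + β * z + γ = 0 := by
    have hd : (Polynomial.X ^ 2 + Polynomial.C β * Polynomial.X + Polynomial.C γ : Polynomial Ω).degree = 2 := by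
      compute_degree!
    obtain ⟨z, hz⟩ := IsAlgClosed.exists_root (Polynomial.X ^ 2 + Polynomial.C β * Polynomial.X +
      Polynomial.C γ : Polynomial Ω) (by rw [hd]; norm_num)
    refine ⟨z, ?_⟩
    rw [Polynomial.IsRoot.def] at hz
    simpa using hz
  have hid : (ak Ω b - z) * (ak Ω b - (-β - z)) = ak Ω (g9E W₀ a b) := by
    rw [r2_eval]
    linear_combination -hz
  have hprod : V.valuation (ak Ω b - z) * V.valuation (ak Ω b - (-β - z)) < 1 := by
    rw [← map_mul, hid]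
    exact hE
  have hΔ : ((W₀⁄F)⁄Ω).Δ ≠ 0 := by
    intro h
    have h4 := hG.disc
    rw [h, map_zero] at h4
    exact zero_ne_one h4
  have hpt : ∀ y' : Ω, y' ^ 2 + β * y' + γ = 0 → V.valuation (ak Ω b - y') < 1 → ∃ X : Pt (W₀⁄F) Ω, ¬ Ker V X ∧
      xc X = ak Ω a ∧ V.valuation (yc X - ak Ω b) < 1 := by
    intro y' hy' hv'
    have heq : ((W₀⁄F)⁄Ω).toAffine.Equation (ak Ω a) y' := by
      rw [Affine.equation_iff]
      have e1 : ((W₀⁄F)⁄Ω).a₁ = ak Ω W₀.a₁ := rfl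
      have e2 : ((W₀⁄F)⁄Ω).a₂ = ak Ω W₀.a₂ := rfl
      have e3 : ((W₀⁄F)⁄Ω).a₃ = ak Ω W₀.a₃ := rfl
      have e4 : ((W₀⁄F)⁄Ω).a₄ = ak Ω W₀.a₄ := rfl
      have e6 : ((W₀⁄F)⁄Ω).a₆ = ak Ω W₀.a₆ := rfl
      rw [e1, e2, e3, e4, e6]
      linear_combination hy'
    have hns := (Affine.equation_iff_nonsingular_of_Δ_ne_zero (W := ((W₀⁄F)⁄Ω).toAffine) hΔ).1 heq
    refine ⟨.some _ _ hns, ?_, rfl, ?_⟩
    · exact not_lt.2 (ak_le V a)
    · rw [Valuation.map_sub_swap]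
      exact hv'
  by_cases h1 : V.valuation (ak Ω b - z) < 1
  · exact hpt z hz h1
  · have h7 : V.valuation (ak Ω b - (-β - z)) < 1 := by
      by_contra h8
      push Not at h1 h8
      exact absurd hprod (not_lt.2 (one_le_mul h1 h8))
    exact hpt (-β - z) (by linear_combination hz) h7

/-- The class of a lift is fixed by the Frobenius element. -/
theorem r2_fix (W₀ : WeierstrassCurve (𝓞 F)) (hG : GoodW ((W₀⁄F)⁄Ω) V) (v : HeightOneSpectrum (𝓞 F))
    (hv : ∀ a : 𝓞 F, a ∈ v.asIdeal → V.valuation (ak Ω a) < 1) (s : Ω ≃ₐ[F] Ω)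
    (hs : ∀ x ∈ V, V.valuation (s x - x ^ Ideal.absNorm v.asIdeal) < 1) (a b : 𝓞 F) {X : Pt (W₀⁄F) Ω}
    (hX : ¬ Ker V X) (hx : V.valuation (xc X - ak Ω a) < 1) (hy : V.valuation (yc X - ak Ω b) < 1) :
    Ker V (ac (W₀⁄F) s X - X) := by
  obtain ⟨hX0, hxV, hyV⟩ := int_crd hG hX
  have hxi := (V.valuation_le_one_iff _).2 hxV
  have hyi := (V.valuation_le_one_iff _).2 hyV
  obtain ⟨a1, a2, a3⟩ := ac_crd s X
  have e1 : V.valuation (xc X ^ Ideal.absNorm v.asIdeal - xc X) < 1 := (g9_frob hv hxi).2 ⟨a, hx⟩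
  have e2 : V.valuation (yc X ^ Ideal.absNorm v.asIdeal - yc X) < 1 := (g9_frob hv hyi).2 ⟨b, hy⟩
  have e3 := g9_tri (hs _ hxV) e1
  have e4 := g9_tri (hs _ hyV) e2
  have hsX : ¬ Ker V (ac (W₀⁄F) s X) := by
    rw [ker_crd (fun h => hX0 (a3.1 h)), a1, not_lt]
    have : s (xc X) = (s (xc X) - xc X) + xc X := by ring
    rw [this]
    exact r2_add e3.le hxi
  apply cong_ker hG hsX hX
  · rw [a1]
    exact e3
  · rw [a2]
    exact e4

/-- A fixed class comes from a point modulo v. -/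
theorem r2_conv (W₀ : WeierstrassCurve (𝓞 F)) (hG : GoodW ((W₀⁄F)⁄Ω) V) (v : HeightOneSpectrum (𝓞 F))
    (hv : ∀ a : 𝓞 F, a ∈ v.asIdeal → V.valuation (ak Ω a) < 1) (s : Ω ≃ₐ[F] Ω)
    (hs : ∀ x ∈ V, V.valuation (s x - x ^ Ideal.absNorm v.asIdeal) < 1) {X : Pt (W₀⁄F) Ω}
    (hX : ¬ Ker V X) (hk : Ker V (ac (W₀⁄F) s X - X)) : ∃ a b : 𝓞 F, g9E W₀ a b ∈ v.asIdeal ∧
      V.valuation (xc X - ak Ω a) < 1 ∧ V.valuation (yc X - ak Ω b) < 1 := by
  obtain ⟨hX0, hxV, hyV⟩ := int_crd hG hX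
  have hxi := (V.valuation_le_one_iff _).2 hxV
  have hyi := (V.valuation_le_one_iff _).2 hyV
  obtain ⟨a1, a2, a3⟩ := ac_crd s X
  obtain ⟨-, hx1, hy1⟩ := cls_convR hG hX hk
  rw [a1] at hx1
  rw [a2] at hy1
  have e1 : V.valuation (xc X ^ Ideal.absNorm v.asIdeal - xc X) < 1 := by
    refine g9_tri ?_ hx1
    rw [Valuation.map_sub_swap]
    exact hs _ hxV
  have e2 : V.valuation (yc X ^ Ideal.absNorm v.asIdeal - yc X) < 1 := by
    refine g9_tri ?_ hy1
    rw [Valuation.map_sub_swap]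
    exact hs _ hyV
  obtain ⟨a, ha⟩ := (g9_frob hv hxi).1 e1
  obtain ⟨b, hb⟩ := (g9_frob hv hyi).1 e2
  refine ⟨a, b, ?_, ha, hb⟩
  rw [← g9_ker hv, r2_eval]
  have heq : yc X ^ 2 + ak Ω W₀.a₁ * xc X * yc X + ak Ω W₀.a₃ * yc X =
      xc X ^ 3 + ak Ω W₀.a₂ * xc X ^ 2 + ak Ω W₀.a₄ * xc X + ak Ω W₀.a₆ := by
    rcases X with _ | ⟨x, y, hn⟩
    · exact absurd rfl hX0
    · exact (Affine.equation_iff _ _).1 hn.1
  have hga := ak_le V a
  have hgb := ak_le V b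
  set x' := ak Ω a
  set y' := ak Ω b
  have h7 : y' ^ 2 + ak Ω W₀.a₁ * x' * y' + ak Ω W₀.a₃ * y' -
      (x' ^ 3 + ak Ω W₀.a₂ * x' ^ 2 + ak Ω W₀.a₄ * x' + ak Ω W₀.a₆) =
      -((yc X - y') * (yc X + y' + ak Ω W₀.a₁ * x' + ak Ω W₀.a₃)) +
        (xc X - x') * (xc X ^ 2 + xc X * x' + x' ^ 2 + ak Ω W₀.a₂ * (xc X + x') + ak Ω W₀.a₄ +
          -(ak Ω W₀.a₁ * yc X)) := by
    linear_combination heq
  rw [h7]
  refine Valuation.map_add_lt _ ?_ (g9_mul ha ?_)
  · rw [Valuation.map_neg]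
    exact g9_mul hb (r2_add (r2_add (r2_add hyi hgb) (r2_mul (ak_le V _) hga)) (ak_le V _))
  · rw [sq, sq]
    refine r2_add (r2_add (r2_add (r2_add (r2_add (r2_mul hxi hxi) (r2_mul hxi hga)) (r2_mul hga hga))
      (r2_mul (ak_le V _) (r2_add hxi hga))) (ak_le V _)) ?_
    rw [Valuation.map_neg]
    exact r2_mul (ak_le V _) hyi

/-- The class c is the class of the lifts of the point P. -/
def r2R (W₀ : WeierstrassCurve (𝓞 F)) (hG : GoodW ((W₀⁄F)⁄Ω) V) (v : HeightOneSpectrum (𝓞 F))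
    (P : (W₀⁄(𝓞 F ⧸ v.asIdeal)).toAffine.Point) (c : Pt (W₀⁄F) Ω ⧸ kerR hG) : Prop :=
  (P = 0 ∧ c = 0) ∨ ∃ (a b : 𝓞 F) (h : (W₀⁄(𝓞 F ⧸ v.asIdeal)).toAffine.Nonsingular (Ideal.Quotient.mk v.asIdeal a)
    (Ideal.Quotient.mk v.asIdeal b)) (X : Pt (W₀⁄F) Ω), P = .some _ _ h ∧ c = (X : Pt (W₀⁄F) Ω ⧸ kerR hG) ∧
      ¬ Ker V X ∧ V.valuation (xc X - ak Ω a) < 1 ∧ V.valuation (yc X - ak Ω b) < 1

omit [DecidableEq Ω] in
theorem r2_sub (v : HeightOneSpectrum (𝓞 F))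
    (hv : ∀ a : 𝓞 F, a ∈ v.asIdeal → V.valuation (ak Ω a) < 1) (a a' : 𝓞 F) :
    V.valuation (ak Ω a - ak Ω a') < 1 ↔ Ideal.Quotient.mk v.asIdeal a = Ideal.Quotient.mk v.asIdeal a' := by
  have h1 : ak Ω a - ak Ω a' = ak Ω (a - a') := by
    simp only [← g9h_eq, map_sub]
  rw [h1, g9_ker hv, ← Ideal.Quotient.eq]

/-- Chunk R2 (M/L). Port of H55K.red_card (G9B.lean) to the equation W₀ itself: any residue characteristic, no short form, so it is simpler: g9x Ω W₀ a is replaced by ak Ω a, g9y Ω W₀ a b by ak Ω b. Reusable (any number field): g9_ker, g9_frob, g9_tri, g9_mul, g9E, g9_nons, g9h, g9h_eq, ak_le. The steps: (lift) V(ak (g9E W₀ a b)) < 1: there is X in Pt (W₀⁄F) Ω, not Ker, xc X = ak a,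
V(yc X - ak b) < 1: the monic polynomial T^2 + (a₁ a + a₃) T - (a^3 + a₂ a^2 + a₄ a + a₆) over Ω has a root z (IsAlgClosed), the other root is z' = -(a₁ a + a₃) - z and (ak b - z)(ak b - z') = ak (g9E W₀ a b) (the coefficients of (W₀⁄F)⁄Ω are ak W₀.a₁ and so on), so V(ak b - z) < 1 or V(ak b - z') < 1; a point on the curve is nonsingular: Δ ≠ 0 (hG.disc), Affine.equation_iff_nonsingular_of_Δ_ne_zero.
(fix) as g9_fix: a X as above satisfies Ker V (ac s X - X): xc X, yc X are congruent to elements of 𝓞 F, so x^q - x has value < 1 (g9_frob), s x is congruent to x (hs): cong_ker (M3A.lean); s X is not in Ker: its x-coordinate s x is congruent to x. (conv) as g9_conv: X not in Ker, Ker V (ac s X - X): cls_convR (R1.lean) and hs and g9_frob: xc X, yc X are congruent to ak a, ak b;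
the equation gives g9E W₀ a b in v (g9_ker; difference of two polynomial expressions at congruent integral arguments; int_crd). Then the bijection as in red_card. xc, yc of ac: H55K.xc_ac, yc_ac or MG.ac_crd (M4B.lean). -/
theorem red_cardR [IsAlgClosed Ω] (W₀ : WeierstrassCurve (𝓞 F)) (hG : GoodW ((W₀⁄F)⁄Ω) V)
    (v : HeightOneSpectrum (𝓞 F)) (hΔ : W₀.Δ ∉ v.asIdeal)
    (hv : ∀ a : 𝓞 F, a ∈ v.asIdeal → V.valuation (ak Ω a) < 1) (s : Ω ≃ₐ[F] Ω)
    (hs : ∀ x ∈ V, V.valuation (s x - x ^ Ideal.absNorm v.asIdeal) < 1) :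
    Nat.card (W₀⁄(𝓞 F ⧸ v.asIdeal)).toAffine.Point =
      Nat.card {c : Pt (W₀⁄F) Ω ⧸ kerR hG // ∃ X : Pt (W₀⁄F) Ω, (X : Pt (W₀⁄F) Ω ⧸ kerR hG) = c ∧
        Ker V (ac (W₀⁄F) s X - X)} := by
  -- every point has a class
  have htot : ∀ P : (W₀⁄(𝓞 F ⧸ v.asIdeal)).toAffine.Point, ∃ c : {c : Pt (W₀⁄F) Ω ⧸ kerR hG //
      ∃ X : Pt (W₀⁄F) Ω, (X : Pt (W₀⁄F) Ω ⧸ kerR hG) = c ∧ Ker V (ac (W₀⁄F) s X - X)},
      r2R W₀ hG v P c.1 := by
    intro P
    rcases P with _ | ⟨x, y, h⟩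
    · refine ⟨⟨0, 0, rfl, ?_⟩, Or.inl ⟨rfl, rfl⟩⟩
      rw [map_zero, sub_zero]
      trivial
    · obtain ⟨a, rfl⟩ := Ideal.Quotient.mk_surjective x
      obtain ⟨b, rfl⟩ := Ideal.Quotient.mk_surjective y
      obtain ⟨X, hX, hXx, hXy⟩ := r2_lift W₀ hG a b (hv _ ((g9_nons W₀ v hΔ a b).1 h))
      have hXx' : V.valuation (xc X - ak Ω a) < 1 := by
        rw [hXx, sub_self, map_zero]
        exact zero_lt_one
      exact ⟨⟨(X : Pt (W₀⁄F) Ω ⧸ kerR hG), X, rfl, r2_fix W₀ hG v hv s hs a b hX hXx' hXy⟩,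
        Or.inr ⟨a, b, h, X, rfl, rfl, hX, hXx', hXy⟩⟩
  choose f hf using htot
  apply Nat.card_eq_of_bijective f
  have hno : ∀ X : Pt (W₀⁄F) Ω, ¬ Ker V X → (X : Pt (W₀⁄F) Ω ⧸ kerR hG) ≠ 0 := by
    intro X hX h
    exact hX ((QuotientAddGroup.eq_zero_iff X).1 h)
  constructor
  · intro P P' hPP
    have h1 := hf P
    have h2 := hf P'
    rw [← hPP] at h2
    rcases h1 with ⟨h1, h1'⟩ | ⟨a, b, h, X, hP, hc, hX, hx, hy⟩
    · rcases h2 with ⟨h2, h2'⟩ | ⟨a', b', h', X', hP', hc', hX', hx', hy'⟩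
      · rw [h1, h2]
      · exact (hno X' hX' (hc'.symm.trans h1')).elim
    · rcases h2 with ⟨h2, h2'⟩ | ⟨a', b', h', X', hP', hc', hX', hx', hy'⟩
      · exact (hno X hX (hc.symm.trans h2')).elim
      · have h3 : Ker V (X' - X) := by
          have h4 := hc.symm.trans hc'
          rw [QuotientAddGroup.eq, neg_add_eq_sub] at h4
          exact h4
        obtain ⟨-, h5, h6⟩ := cls_convR hG hX h3
        rw [Valuation.map_sub_swap] at h5 h6 hx hy
        have h7 : V.valuation (ak Ω a - ak Ω a') < 1 := g9_tri (g9_tri hx h5) hx'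
        have h8 : V.valuation (ak Ω b - ak Ω b') < 1 := g9_tri (g9_tri hy h6) hy'
        rw [hP, hP', Affine.Point.some.injEq]
        exact ⟨(r2_sub v hv a a').1 h7, (r2_sub v hv b b').1 h8⟩
  · rintro ⟨c, X, rfl, hX⟩
    by_cases hXk : Ker V X
    · refine ⟨0, ?_⟩
      apply Subtype.ext
      have h1 : (X : Pt (W₀⁄F) Ω ⧸ kerR hG) = 0 := (QuotientAddGroup.eq_zero_iff X).2 hXk
      show (f 0).1 = (X : Pt (W₀⁄F) Ω ⧸ kerR hG)
      rw [h1]
      rcases hf 0 with ⟨-, h2⟩ | ⟨a, b, h, X, hP, -⟩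
      · exact h2
      · exact absurd hP.symm (Affine.Point.some_ne_zero _)
    · obtain ⟨a, b, hE, hx, hy⟩ := r2_conv W₀ hG v hv s hs hXk hX
      refine ⟨.some _ _ ((g9_nons W₀ v hΔ a b).2 hE), ?_⟩
      apply Subtype.ext
      show (f _).1 = _
      rcases hf (.some _ _ ((g9_nons W₀ v hΔ a b).2 hE)) with ⟨h2, -⟩ | ⟨a', b', h', X', hP', hc', hX', hx', hy'⟩
      · exact absurd h2 (Affine.Point.some_ne_zero _)
      · rw [hc', QuotientAddGroup.eq, neg_add_eq_sub]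
        rw [Affine.Point.some.injEq] at hP'
        rw [Valuation.map_sub_swap] at hx' hy'
        exact cong_ker hG hXk hX' (g9_tri (g9_tri hx ((r2_sub v hv a a').2 hP'.1)) hx')
          (g9_tri (g9_tri hy ((r2_sub v hv b b').2 hP'.2)) hy')

end H13R
end

-- from Lib.H28I.G1
section

/-! # H28I, part G: good reduction over K and valuation rings -/

open NumberField IsDedekindDomain WeierstrassCurve

namespace H28I

open H55P (IQ embF eF LF Per IsHecke Pt ac Inert Dec Nm)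
open H35P (WAB Ker tt GoodW IntW)
open H55K (xc yc)
open H55K.TQ
open H55K.MG (VC Crd)

variable {K : Type} [Field K] [NumberField K] {Ω : Type} [Field Ω] [Algebra K Ω]

/-- Chunk G1 (S). As H55K.TQ.exists_V (T9D.lean), for K itself instead of an intermediate field: exists_ext, ext_val for the valuation ring of w.valuation K. -/
theorem exists_VK (Ω : Type) [Field Ω] [Algebra K Ω] (w : HeightOneSpectrum (𝓞 K)) :
    ∃ V : ValuationSubring Ω, ∀ a : 𝓞 K, a ∈ w.asIdeal → V.valuation (algebraMap K Ω (a : K)) < 1 := by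
  obtain ⟨V, hV⟩ := exists_ext (k := K) (Ω := Ω) (w.valuation K).valuationSubring
  refine ⟨V, fun a ha => ?_⟩
  have h1 := (ext_val hV (a : K) 1).2
  rw [map_one, map_one, map_one] at h1
  refine h1.2 ?_
  have h2 := (Valuation.isEquiv_valuation_valuationSubring (w.valuation K)).lt_one_iff_lt_one (x := (a : K))
  rw [← h2]
  have h3 : w.valuation K (algebraMap (𝓞 K) K a) < 1 := (HeightOneSpectrum.valuation_lt_one_iff_mem w a).2 ha
  exact h3

/-- Chunk G1 (S/M). As gmd_of_good (T9B.lean), simpler: C over K, vc_smul, vc_map; t9b_le, t9b_eq for M = K. -/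
theorem gmd_K {W : WeierstrassCurve K} {w : HeightOneSpectrum (𝓞 K)} {V : ValuationSubring Ω}
    (hV : ∀ a : 𝓞 K, a ∈ w.asIdeal → V.valuation (algebraMap K Ω (a : K)) < 1) (h : H55K.GoodAt W w) :
    GMd (W⁄Ω) V (Set.range (algebraMap K Ω)) := by
  obtain ⟨C, h1, h2, h3, h4, h6, hd⟩ := h
  have hC := vc_map (algebraMap K Ω) (vc_smul W C)
  refine ⟨_, _, _, _, _, ⟨_, rfl⟩, ⟨_, rfl⟩, ⟨_, rfl⟩, ⟨_, rfl⟩, hC, ?_⟩
  refine ⟨⟨?_, ?_, ?_, ?_, ?_⟩, ?_⟩
  · exact (V.valuation_le_one_iff _).1 (t9b_le hV h1)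
  · exact (V.valuation_le_one_iff _).1 (t9b_le hV h2)
  · exact (V.valuation_le_one_iff _).1 (t9b_le hV h3)
  · exact (V.valuation_le_one_iff _).1 (t9b_le hV h4)
  · exact (V.valuation_le_one_iff _).1 (t9b_le hV h6)
  · rw [WeierstrassCurve.map_Δ]
    exact t9b_eq hV hd

/-- Chunk G1 (S/M). As good_of_V (T9C.lean), without vc_short: C = ⟨u, r, s, t⟩, C • W = W'' (vc_smul, vc_uniq), t9c_le, t9c_eq. -/
theorem good_VK {W : WeierstrassCurve K} {w : HeightOneSpectrum (𝓞 K)} {V : ValuationSubring Ω}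
    (hV : ∀ a : 𝓞 K, a ∈ w.asIdeal → V.valuation (algebraMap K Ω (a : K)) < 1)
    (h : ∃ (W'' : WeierstrassCurve K) (u r s t : K), VC W W'' u r s t ∧ GoodW (W''⁄Ω) V) : H55K.GoodAt W w := by
  obtain ⟨W'', u, r, s, t, hvc, hg⟩ := h
  have h3 : (⟨Units.mk0 u hvc.une, r, s, t⟩ : VariableChange K) • W = W'' :=
    vc_uniq (vc_smul W ⟨Units.mk0 u hvc.une, r, s, t⟩) hvc
  refine ⟨⟨Units.mk0 u hvc.une, r, s, t⟩, ?_⟩
  rw [h3]
  refine ⟨?_, ?_, ?_, ?_, ?_, ?_⟩
  · exact t9c_le w hV (((ValuationSubring.valuation_le_one_iff V _).mpr hg.a1))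
  · exact t9c_le w hV (((ValuationSubring.valuation_le_one_iff V _).mpr hg.a2))
  · exact t9c_le w hV (((ValuationSubring.valuation_le_one_iff V _).mpr hg.a3))
  · exact t9c_le w hV (((ValuationSubring.valuation_le_one_iff V _).mpr hg.a4))
  · exact t9c_le w hV (((ValuationSubring.valuation_le_one_iff V _).mpr hg.a6))
  · apply t9c_eq w hV
    have h4 := hg.disc
    have h5 : (W''⁄Ω).Δ = algebraMap K Ω W''.Δ := W''.map_Δ (algebraMap K Ω)
    rw [h5] at h4
    exact h4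

/-- Chunk G1 (S). If V(5) < 1 and V(7) < 1 then V(3 * 7 - 4 * 5) < 1. V(n) ≤ 1 for integers n. -/
theorem exists_q (V : ValuationSubring Ω) : ∃ q : ℕ, q.Prime ∧ 5 ≤ q ∧ V.valuation (q : Ω) = 1 := by
  have hn : ∀ n : ℕ, V.valuation (n : Ω) ≤ 1 := fun n =>
    (V.valuation_le_one_iff _).2 (natCast_mem V n)
  by_cases h5 : V.valuation ((5 : ℕ) : Ω) = 1
  · exact ⟨5, by norm_num, le_refl _, h5⟩
  by_cases h7 : V.valuation ((7 : ℕ) : Ω) = 1
  · exact ⟨7, by norm_num, by norm_num, h7⟩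
  exfalso
  have a5 : V.valuation ((5 : ℕ) : Ω) < 1 := lt_of_le_of_ne (hn 5) h5
  have a7 : V.valuation ((7 : ℕ) : Ω) < 1 := lt_of_le_of_ne (hn 7) h7
  have b5 : V.valuation (((4 : ℕ) : Ω) * ((5 : ℕ) : Ω)) < 1 := by
    rw [map_mul]
    exact lt_of_le_of_lt (mul_le_of_le_one_left' (hn 4)) a5
  have b7 : V.valuation (((3 : ℕ) : Ω) * ((7 : ℕ) : Ω)) < 1 := by
    rw [map_mul]
    exact lt_of_le_of_lt (mul_le_of_le_one_left' (hn 3)) a7
  have e : ((3 : ℕ) : Ω) * ((7 : ℕ) : Ω) - ((4 : ℕ) : Ω) * ((5 : ℕ) : Ω) = 1 := by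
    push_cast
    norm_num
  have h := lt_of_le_of_lt (V.valuation.map_sub _ _) (max_lt b7 b5)
  rw [e, map_one] at h
  exact lt_irrefl _ h

end H28I
end

-- from Lib.H28I.G2
section

/-! # H28I, part G: good reduction is invariant -/

open NumberField IsDedekindDomain WeierstrassCurve

namespace H28I

open H55P (IQ embF eF LF Per IsHecke Pt ac Inert Dec Nm)
open H35P (WAB Ker tt GoodW IntW)
open H55K (xc yc)
open H55K.TQ
open H55K.MG (VC Crd)

open Classical in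
/-- Chunk G2 (M). Ω = the algebraic closure of K, V from exists_VK, q from exists_q. gmd_K for W₁; inert_triv (T1.lean, F := K): every g with Inert V g fixes the points of W₁ killed by q (it fixes the image of K). T from exists_tors' for (W₁⁄Ω); T' = Φ T is not 0 (Ψ Φ T = 6 • T ≠ 0: q is prime to 6), q • T' = 0, g T' = T'.
nos_up (T5.lean) for W₂ (jj = the image of j₀, in V: V(integer) ≤ 1; W₂⁄K has c₄, Δ the images of integers), descent (T7B.lean), good_VK. -/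
theorem good_iso {K : Type} [Field K] [NumberField K] {W₁ : WeierstrassCurve K} {W₂ : WeierstrassCurve ℤ} (h1 : W₁.Δ ≠ 0) (h2 : W₂.Δ ≠ 0)
    (hj : ∃ j₀ : ℤ, W₂.c₄ ^ 3 = j₀ * W₂.Δ) (h : Iso6 W₁ (W₂⁄K) (AlgebraicClosure K)) (w : HeightOneSpectrum (𝓞 K))
    (hg : H55K.GoodAt W₁ w) : H55K.GoodAt (W₂⁄K) w := by
  obtain ⟨Φ, Ψ, hΨΦ, hΦΨ, hΦ, hΨ⟩ := h
  obtain ⟨V, hV⟩ := exists_VK (AlgebraicClosure K) w
  obtain ⟨q, hq, h5, hqV⟩ := exists_q V
  have hG1 := gmd_K hV hg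
  have h1' : (W₁⁄(AlgebraicClosure K)).Δ ≠ 0 := by
    have e : (W₁⁄(AlgebraicClosure K)).Δ = algebraMap K (AlgebraicClosure K) W₁.Δ := W₁.map_Δ _
    rw [e]
    exact (map_ne_zero _).2 h1
  obtain ⟨T, hT0, hqT⟩ := exists_tors' h1' hq.one_lt
  have hfix1 : ∀ g : AlgebraicClosure K ≃ₐ[K] AlgebraicClosure K, Inert V g → ac W₁ g T = T := by
    intro g hgI
    refine inert_triv h1 hG1 g ?_ hgI q hqV T hqT
    rintro x ⟨a, rfl⟩
    exact g.commutes a
  have hT'0 : Φ T ≠ 0 := by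
    intro h0
    have h6 : (6 : ℕ) • T = 0 := by
      rw [← hΨΦ T, h0, map_zero]
    have hcop : Nat.Coprime q 6 := by
      rw [Nat.Prime.coprime_iff_not_dvd hq]
      intro hd
      have := Nat.le_of_dvd (by norm_num) hd
      interval_cases q
      · omega
      · exact absurd hq (by norm_num)
    have h7 : (1 : ℕ) • T = 0 := by
      have h8 := (addOrderOf_dvd_iff_nsmul_eq_zero).2 h6
      have h9 := (addOrderOf_dvd_iff_nsmul_eq_zero).2 hqT
      have h10 : addOrderOf T ∣ 1 := by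
        rw [← hcop]
        exact Nat.dvd_gcd h9 h8
      exact addOrderOf_dvd_iff_nsmul_eq_zero.1 h10
    exact hT0 (by simpa using h7)
  have hqT' : q • Φ T = 0 := by
    rw [← map_nsmul, hqT, map_zero]
  have hfix2 : ∀ g : AlgebraicClosure K ≃ₐ[K] AlgebraicClosure K, Inert V g → ac (W₂⁄K) g (Φ T) = Φ T := by
    intro g hgI
    rw [← hΦ g T, hfix1 g hgI]
  have hΔ2 : (W₂⁄K).Δ ≠ 0 := by
    have e : (W₂⁄K).Δ = algebraMap ℤ K W₂.Δ := W₂.map_Δ _
    rw [e]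
    simpa using h2
  obtain ⟨j₀, hj₀⟩ := hj
  have hjV : ((j₀ : ℤ) : AlgebraicClosure K) ∈ V := intCast_mem V j₀
  have hjE : ((W₂⁄K)⁄(AlgebraicClosure K)).c₄ ^ 3 = ((j₀ : ℤ) : AlgebraicClosure K) * ((W₂⁄K)⁄(AlgebraicClosure K)).Δ := by
    have e1 : ((W₂⁄K)⁄(AlgebraicClosure K)).c₄ = ((W₂.c₄ : ℤ) : AlgebraicClosure K) := by
      have e2 : ((W₂⁄K)⁄(AlgebraicClosure K)).c₄ = algebraMap K (AlgebraicClosure K) (W₂⁄K).c₄ := (W₂⁄K).map_c₄ _
      have e3 : (W₂⁄K).c₄ = algebraMap ℤ K W₂.c₄ := W₂.map_c₄ _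
      rw [e2, e3]
      simp
    have e4 : ((W₂⁄K)⁄(AlgebraicClosure K)).Δ = ((W₂.Δ : ℤ) : AlgebraicClosure K) := by
      have e2 : ((W₂⁄K)⁄(AlgebraicClosure K)).Δ = algebraMap K (AlgebraicClosure K) (W₂⁄K).Δ := (W₂⁄K).map_Δ _
      have e3 : (W₂⁄K).Δ = algebraMap ℤ K W₂.Δ := W₂.map_Δ _
      rw [e2, e3]
      simp
    rw [e1, e4]
    exact_mod_cast congrArg (Int.cast : ℤ → AlgebraicClosure K) hj₀
  have hG2 := nos_up hΔ2 hjV hjE hq h5 hqV hqT' hT'0 hfix2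
  have hD := descent (v := w) (fun a ha => hV a ha) hG2
  exact good_VK hV hD

end H28I
end

-- from Lib.H13X.XP0
section

/-! # H13X: port of H13Z/LP -/

open NumberField IsDedekindDomain WeierstrassCurve

namespace H13X

open H55P (IQ embF eF LF Per IsHecke Pt ac Inert Dec Nm Coc)
open H35P (WAB Ker tt)
open H55K (Tor ak xc yc CMA Dta GV GMod cj cj_cj mul_cj cj_prime cj_dvd cj_nat Nm_cj Nm_mul Nm_nat)
open H55K.S
open H13S (Abv)




variable {F : Type} [Field F] [NumberField F] [IQ F] {A B : F} {Om : ℂ} {Ω : Type} [Field Ω] [DecidableEq Ω]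
  [Algebra F Ω] [IsAlgClosure F Ω] {j : Ω →+* ℂ} {act : 𝓞 F →+* AddMonoid.End (Pt (WAB A B) Ω)} {mo : Ideal (𝓞 F)}
  {ψ : Ideal (𝓞 F) →*₀ 𝓞 F}

variable {V : ValuationSubring Ω}

theorem lp_fix (s : Ω ≃ₐ[F] Ω) {P : Pt (WAB A B) Ω} (hx : s (xc P) = xc P) (hy : s (yc P) = yc P) : ac (WAB A B) s P = P := by
  by_cases hP : P = 0
  · rw [hP, map_zero]
  · refine pt_ext (ac_ne s hP) hP ?_ ?_
    · rw [xc_ac, hx]
    · rw [yc_ac, hy]

theorem lp_adj (s : Ω ≃ₐ[F] Ω) (P : Pt (WAB A B) Ω)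
    (hs : s ∈ (IntermediateField.adjoin F {xc P, yc P}).fixingSubgroup) : ac (WAB A B) s P = P := by
  rw [IntermediateField.mem_fixingSubgroup_iff] at hs
  refine lp_fix s (hs _ ?_) (hs _ ?_)
  · exact IntermediateField.subset_adjoin F _ (by simp)
  · exact IntermediateField.subset_adjoin F _ (by simp)

theorem lp_fin (P : Pt (WAB A B) Ω) : FiniteDimensional F (IntermediateField.adjoin F {xc P, yc P}) := by
  have hal : Algebra.IsAlgebraic F Ω := IsAlgClosure.isAlgebraic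
  have hfin : Finite ({xc P, yc P} : Set Ω) := Set.Finite.to_subtype (Set.toFinite _)
  exact IntermediateField.finiteDimensional_adjoin fun x _ => (hal.isAlgebraic x).isIntegral

theorem lp_adjoin (s : Ω ≃ₐ[F] Ω) (S : Set Ω) (h : ∀ x ∈ S, s x = x) :
    s ∈ (IntermediateField.adjoin F S).fixingSubgroup := by
  rw [IntermediateField.mem_fixingSubgroup_iff]
  intro x hx
  induction hx using IntermediateField.adjoin_induction with
  | mem x hx => exact h x hx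
  | algebraMap a => exact s.commutes a
  | add x y _ _ hx hy => rw [map_add, hx, hy]
  | inv x _ hx => rw [map_inv₀, hx]
  | mul x y _ _ hx hy => rw [map_mul, hx, hy]

/-- The root of B w^3 + A t w^2 - w + t^3 in the maximal ideal. -/
theorem xp_root (hG : GV A B V) {t : Ω} (ht0 : t ≠ 0) (ht : V.valuation t < 1) :
    ∃ w : Ω, w = t ^ 3 + algebraMap F Ω A * t * w ^ 2 + algebraMap F Ω B * w ^ 3 ∧ V.valuation w < 1 ∧ w ≠ 0 := by
  have hac : IsAlgClosed Ω := IsAlgClosure.isAlgClosed F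
  let C : Cubic Ω := ⟨t ^ 3, -1, algebraMap F Ω A * t, algebraMap F Ω B⟩
  have ha : C.a ≠ 0 := pow_ne_zero 3 ht0
  have hs : (C.toPoly.map (RingHom.id Ω)).Splits := IsAlgClosed.splits _
  obtain ⟨x, y, z, h3⟩ := (Cubic.splits_iff_roots_eq_three (φ := RingHom.id Ω) ha).1 hs
  have hb := Cubic.b_eq_three_roots (φ := RingHom.id Ω) ha h3
  change (-1 : Ω) = t ^ 3 * -(x + y + z) at hb
  have hroot : ∀ r ∈ ({x, y, z} : Multiset Ω), t ^ 3 * r ^ 3 - r ^ 2 + algebraMap F Ω A * t * r + algebraMap F Ω B = 0 := by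
    intro r hr
    rw [← h3, Cubic.map_roots, Polynomial.mem_roots_map_of_injective (RingHom.id Ω).injective (Cubic.ne_zero_of_a_ne_zero ha)] at hr
    have h4 : t ^ 3 * r ^ 3 + -1 * r ^ 2 + algebraMap F Ω A * t * r + algebraMap F Ω B = 0 := by
      simpa [Cubic.toPoly, C] using hr
    linear_combination h4
  have hmax : ∃ r ∈ ({x, y, z} : Multiset Ω), 1 < V.valuation r := by
    by_contra hcon
    push Not at hcon
    have h4 : V.valuation (x + y + z) ≤ 1 := by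
      refine (V.valuation.map_add _ _).trans (max_le ((V.valuation.map_add _ _).trans (max_le ?_ ?_)) ?_)
      · exact hcon x (by simp)
      · exact hcon y (by simp)
      · exact hcon z (by simp)
    have h5 : t ^ 3 * (x + y + z) = 1 := by linear_combination hb
    have h6 : V.valuation (t ^ 3 * (x + y + z)) < 1 := by
      rw [map_mul, map_pow]
      exact (mul_le_of_le_one_right' h4).trans_lt (pow_lt_one₀ zero_le ht (by norm_num))
    rw [h5, map_one] at h6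
    exact lt_irrefl _ h6
  obtain ⟨r, hr, hr1⟩ := hmax
  have hr0 : r ≠ 0 := by
    rintro rfl
    rw [map_zero] at hr1
    exact absurd hr1 (not_lt.2 zero_le)
  refine ⟨r⁻¹, ?_, ?_, inv_ne_zero hr0⟩
  · have h4 := hroot r hr
    field_simp
    linear_combination -h4
  · rw [map_inv₀]
    exact inv_lt_one_of_one_lt₀ hr1

/-- Its uniqueness. -/
theorem xp_uniq (hG : GV A B V) {t w w' : Ω} (ht : V.valuation t < 1)
    (h : w = t ^ 3 + algebraMap F Ω A * t * w ^ 2 + algebraMap F Ω B * w ^ 3) (hw : V.valuation w < 1)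
    (h' : w' = t ^ 3 + algebraMap F Ω A * t * w' ^ 2 + algebraMap F Ω B * w' ^ 3) (hw' : V.valuation w' < 1) :
    w = w' := by
  have hA1 : V.valuation (algebraMap F Ω A) ≤ 1 := (V.valuation_le_one_iff _).2 hG.a
  have hB1 : V.valuation (algebraMap F Ω B) ≤ 1 := (V.valuation_le_one_iff _).2 hG.b
  have e1 : (w - w') * (1 - (algebraMap F Ω A * t * (w + w') + algebraMap F Ω B * (w ^ 2 + w * w' + w' ^ 2))) = 0 := by
    linear_combination h - h'
  rcases mul_eq_zero.1 e1 with h2 | h2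
  · exact sub_eq_zero.1 h2
  · exfalso
    have h3 : V.valuation (algebraMap F Ω A * t * (w + w') + algebraMap F Ω B * (w ^ 2 + w * w' + w' ^ 2)) < 1 := by
      refine (V.valuation.map_add _ _).trans_lt (max_lt ?_ ?_)
      · rw [map_mul, map_mul]
        have h4 : V.valuation (w + w') ≤ 1 := (V.valuation.map_add _ _).trans (max_le hw.le hw'.le)
        exact (mul_le_of_le_one_right' h4).trans_lt ((mul_le_of_le_one_left' hA1).trans_lt ht)
      · rw [map_mul]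
        refine (mul_le_of_le_one_left' hB1).trans_lt ?_
        refine (V.valuation.map_add _ _).trans_lt (max_lt ((V.valuation.map_add _ _).trans_lt (max_lt ?_ ?_)) ?_)
        · rw [map_pow]
          exact pow_lt_one₀ zero_le hw (by norm_num)
        · rw [map_mul]
          exact (mul_le_of_le_one_right' hw'.le).trans_lt hw
        · rw [map_pow]
          exact pow_lt_one₀ zero_le hw' (by norm_num)
    rw [← sub_eq_zero.1 h2, map_one] at h3
    exact lt_irrefl _ h3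

/-- A point in the kernel of reduction with a given parameter in N, defined over the decomposition field over N. -/
theorem local_ptt (hA : CMA F A B Om j act) (hG : GV A B V) {N : IntermediateField F Ω} [FiniteDimensional F N]
    {t : Ω} (htN : t ∈ N) (ht0 : t ≠ 0) (ht : V.valuation t < 1) :
    ∃ (Q : Pt (WAB A B) Ω) (B₀ : IntermediateField F Ω), FiniteDimensional F B₀ ∧
      (∀ s : Ω ≃ₐ[F] Ω, DecN N V s → s ∈ B₀.fixingSubgroup) ∧
      (∀ s ∈ B₀.fixingSubgroup, ac (WAB A B) s Q = Q) ∧ Ker V Q ∧ tt Q = t := by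
  have hal : Algebra.IsAlgebraic F Ω := IsAlgClosure.isAlgebraic
  obtain ⟨w, hw, hw1, hw0⟩ := xp_root hG ht0 ht
  have heq : (1 / w) ^ 2 = (t / w) ^ 3 + algebraMap F Ω A * (t / w) + algebraMap F Ω B := by
    field_simp
    linear_combination hw
  have hd : algebraMap F Ω (4 * A ^ 3 + 27 * B ^ 2) ≠ 0 := (map_ne_zero _).2 hA.disc
  have hΔ : ((WAB A B)⁄Ω).Δ ≠ 0 := by
    rw [H55K.s_Δ, H55K.base_a4, H55K.base_a6]
    have hch : CharZero Ω := charZero_of_injective_algebraMap (algebraMap F Ω).injective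
    refine mul_ne_zero (by norm_num) ?_
    rw [map_add, map_mul, map_mul, map_pow, map_pow] at hd
    intro h
    apply hd
    rw [← h]
    simp only [map_ofNat]
  obtain ⟨Q, hQ0, hQx, hQy⟩ := H55K.exists_pt (W := (WAB A B)⁄Ω) hΔ (x := t / w) (y := 1 / w) (by
    rw [H55K.base_a4, H55K.base_a6]
    exact heq)
  have htQ : tt Q = t := by
    rw [H55K.tt_eq, hQx, hQy]
    field_simp
  have hVw : V.valuation w = V.valuation t ^ 3 := by
    have hA1 : V.valuation (algebraMap F Ω A) ≤ 1 := (V.valuation_le_one_iff _).2 hG.a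
    have hB1 : V.valuation (algebraMap F Ω B) ≤ 1 := (V.valuation_le_one_iff _).2 hG.b
    have hw00 : 0 < V.valuation w := zero_lt_iff.2 ((map_ne_zero _).2 hw0)
    have h1 : V.valuation (algebraMap F Ω A * t * w ^ 2 + algebraMap F Ω B * w ^ 3) < V.valuation w := by
      have e : algebraMap F Ω A * t * w ^ 2 + algebraMap F Ω B * w ^ 3 =
          (algebraMap F Ω A * t * w + algebraMap F Ω B * w ^ 2) * w := by ring
      rw [e, map_mul]
      refine mul_lt_of_lt_one_left hw00 ?_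
      refine (V.valuation.map_add _ _).trans_lt (max_lt ?_ ?_)
      · rw [map_mul, map_mul]
        exact (mul_le_of_le_one_right' hw1.le).trans_lt ((mul_le_of_le_one_left' hA1).trans_lt ht)
      · rw [map_mul, map_pow]
        exact (mul_le_of_le_one_left' hB1).trans_lt (pow_lt_one₀ zero_le hw1 (by norm_num))
    have e2 : t ^ 3 = w - (algebraMap F Ω A * t * w ^ 2 + algebraMap F Ω B * w ^ 3) := by
      linear_combination -hw
    rw [← map_pow, e2, Valuation.map_sub_eq_of_lt_left _ h1]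
  have htV : 0 < V.valuation t := zero_lt_iff.2 ((map_ne_zero _).2 ht0)
  have hsw : ∀ s : Ω ≃ₐ[F] Ω, DecN N V s → s w = w := by
    intro s hs
    have hst : s t = t := (IntermediateField.mem_fixingSubgroup_iff N s).1 hs.1 t htN
    have h7 := congrArg s hw
    rw [map_add, map_add, map_mul, map_mul, map_mul, map_pow, map_pow, map_pow, hst, s.commutes, s.commutes] at h7
    exact xp_uniq hG ht h7 ((Dec.lt_one hs.2 w).2 hw1) hw hw1
  have hfd : FiniteDimensional F (IntermediateField.adjoin F {w}) :=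
    IntermediateField.adjoin.finiteDimensional (hal.isAlgebraic w).isIntegral
  refine ⟨Q, N ⊔ IntermediateField.adjoin F {w}, inferInstance, ?_, ?_, ?_, htQ⟩
  · intro s hs
    rw [IntermediateField.fixingSubgroup_sup, Subgroup.mem_inf]
    refine ⟨hs.1, lp_adjoin s _ ?_⟩
    intro x hx
    rw [Set.mem_singleton_iff] at hx
    rw [hx]
    exact hsw s hs
  · intro s hs
    rw [IntermediateField.fixingSubgroup_sup, Subgroup.mem_inf] at hs
    have h5 : s w = w := (IntermediateField.mem_fixingSubgroup_iff _ s).1 hs.2 w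
      (IntermediateField.mem_adjoin_simple_self F w)
    have h6 : s t = t := (IntermediateField.mem_fixingSubgroup_iff _ s).1 hs.1 t htN
    refine lp_fix s ?_ ?_
    · rw [hQx, map_div₀, h5, h6]
    · rw [hQy, map_div₀, map_one, h5]
  · rw [H55K.ker_iff V hQ0, hQx, map_div₀, hVw]
    rw [lt_div_iff₀ (pow_pos htV 3), one_mul]
    exact pow_lt_self_of_lt_one₀ htV ht (by norm_num)

/-- Chunk LP2 (M). act_div: act β P = Q. P in Ker V: otherwise P ≠ 0 and V (xc P) ≤ 1, kr_kron: V (xc Q) ≤ 1, Q ≠ 0 (tt Q ≠ 0), against Ker V Q. q = Nm β, τ = V (tt R) for R ≠ 0 in Tor β, τ^(q-1) = V β (kr_tor_ram). The points P + R are in Ker V (kr_add, kr_tor_ram). kr_prod: the product of the V (tt (P + R)) over R in Tor β (q points) is V (tt Q) = V β.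
If V (tt P) > τ: V (tt (P + R)) = V (tt P) for all R (kr_tt_add with c = V (tt P) < 1: c^2 < c), so V (tt P)^q = V β. If V (tt P) ≤ τ: V (tt (P + R)) ≤ τ for all R (kr_tt_add, c = τ), so V β ≤ τ^q = V β * τ < V β: contradiction. -/
theorem div_pt (hA : CMA F A B Om j act) (hG : GV A B V) {β : 𝓞 F} (hβ : Prime β) (hN : 4 ≤ Nm β) (hV : vo V β < 1) {Q : Pt (WAB A B) Ω}
    (hQ : Ker V Q) (hv : V.valuation (tt Q) = vo V β) :
    ∃ P : Pt (WAB A B) Ω, act β P = Q ∧ Ker V P ∧ V.valuation (tt P) ^ Nm β = vo V β := by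
  have hβ0 : vo V β ≠ 0 := by
    have h1 : algebraMap F Ω (β : F) ≠ 0 := by
      intro h
      have h2 : (β : F) = 0 := (map_eq_zero _).1 h
      exact hβ.ne_zero (by exact_mod_cast h2)
    simpa [vo] using h1
  obtain ⟨P, hP⟩ := hA.surj β hβ.ne_zero Q
  have hQ0 : Q ≠ 0 := by
    rintro rfl
    rw [tt_zero, map_zero] at hv
    exact hβ0 hv.symm
  have hK : Ker V P := by
    apply na_red hA hG hβ hV 1
    rw [pow_one, hP]
    exact hQ
  refine ⟨P, hP, hK, ?_⟩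
  have hcard : Nat.card (Tor act β) = Nm β := (gi_gen hA β hβ).1
  have hfin : Finite (Tor act β) := Nat.finite_of_card_ne_zero (by rw [hcard]; omega)
  have hfi : Fintype (Tor act β) := Fintype.ofFinite _
  have hcard' : (Finset.univ : Finset (Tor act β)).card = Nm β := by
    rw [Finset.card_univ, ← Nat.card_eq_fintype_card, hcard]
  have hprod := kr_prod hA hG β hβ hV hK
  rw [hP, hv, finprod_eq_prod_of_fintype] at hprod
  have hKR : ∀ R : Tor act β, Ker V (R : Pt (WAB A B) Ω) := by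
    intro R
    by_cases h0 : (R : Pt (WAB A B) Ω) = 0
    · rw [h0]
      exact trivial
    · exact (kr_tor_ram hA hG β hβ hV R.2 h0).1
  have hP0 : P ≠ 0 := by
    rintro rfl
    rw [map_zero] at hP
    exact hQ0 hP.symm
  have htP : tt P ≠ 0 := fun h => hP0 ((kr_tt_zero hG hK).1 h)
  have hc0 : 0 < V.valuation (tt P) := zero_lt_iff.2 ((Valuation.ne_zero_iff _).2 htP)
  have hc1 : V.valuation (tt P) < 1 := kr_tt_lt hG hK
  by_cases hcase : ∀ R : Tor act β, V.valuation (tt (R : Pt (WAB A B) Ω)) < V.valuation (tt P)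
  · have h1 : ∀ R ∈ (Finset.univ : Finset (Tor act β)), V.valuation (tt (P + (R : Pt (WAB A B) Ω))) = V.valuation (tt P) := by
      intro R _
      have h2 := kr_tt_add hG hK (hKR R) (V.valuation (tt P)) le_rfl (hcase R).le
      have h4 : V.valuation (tt P) ^ 2 < V.valuation (tt P) := pow_lt_self_of_lt_one₀ hc0 hc1 (by norm_num)
      have e : tt (P + (R : Pt (WAB A B) Ω)) = ((tt (P + (R : Pt (WAB A B) Ω)) - tt P - tt (R : Pt (WAB A B) Ω)) + tt (R : Pt (WAB A B) Ω)) + tt P := by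
        ring
      rw [e]
      refine V.valuation.map_add_eq_of_lt_right ?_
      exact lt_of_le_of_lt (V.valuation.map_add _ _) (max_lt (lt_of_le_of_lt h2 h4) (hcase R))
    rw [Finset.prod_congr rfl h1, Finset.prod_const, hcard'] at hprod
    exact hprod
  · exfalso
    rw [not_forall] at hcase
    obtain ⟨R₀, hR₀⟩ := hcase
    rw [not_lt] at hR₀
    have h0 : (R₀ : Pt (WAB A B) Ω) ≠ 0 := by
      intro h
      rw [h, tt_zero, map_zero] at hR₀
      exact absurd hR₀ (not_le.2 hc0)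
    obtain ⟨-, hτ⟩ := kr_tor_ram hA hG β hβ hV R₀.2 h0
    have hτ1 : V.valuation (tt (R₀ : Pt (WAB A B) Ω)) < 1 := kr_tt_lt hG (hKR R₀)
    have hRle : ∀ R : Tor act β, V.valuation (tt (R : Pt (WAB A B) Ω)) ≤ V.valuation (tt (R₀ : Pt (WAB A B) Ω)) := by
      intro R
      by_cases hR : (R : Pt (WAB A B) Ω) = 0
      · rw [hR, tt_zero, map_zero]
        exact zero_le
      · obtain ⟨-, h5⟩ := kr_tor_ram hA hG β hβ hV R.2 hR
        by_contra hlt
        rw [not_le] at hlt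
        have hn : Nm β - 1 ≠ 0 := by omega
        have h6 := pow_lt_pow_left₀ hlt zero_le hn
        rw [hτ, h5] at h6
        exact lt_irrefl _ h6
    have h1 : ∀ R ∈ (Finset.univ : Finset (Tor act β)), V.valuation (tt (P + (R : Pt (WAB A B) Ω))) ≤
        V.valuation (tt (R₀ : Pt (WAB A B) Ω)) := by
      intro R _
      have h2 := kr_tt_add hG hK (hKR R) (V.valuation (tt (R₀ : Pt (WAB A B) Ω))) hR₀ (hRle R)
      have h4 : V.valuation (tt (R₀ : Pt (WAB A B) Ω)) ^ 2 ≤ V.valuation (tt (R₀ : Pt (WAB A B) Ω)) :=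
        pow_le_of_le_one zero_le hτ1.le (by norm_num)
      have e : tt (P + (R : Pt (WAB A B) Ω)) = ((tt (P + (R : Pt (WAB A B) Ω)) - tt P - tt (R : Pt (WAB A B) Ω)) + tt (R : Pt (WAB A B) Ω)) + tt P := by
        ring
      rw [e]
      exact (V.valuation.map_add _ _).trans (max_le ((V.valuation.map_add _ _).trans
        (max_le (h2.trans h4) (hRle R))) hR₀)
    have h2 := Finset.prod_le_pow_card _ _ _ h1
    rw [hprod, hcard'] at h2
    have h5 : V.valuation (tt (R₀ : Pt (WAB A B) Ω)) ^ Nm β = vo V β * V.valuation (tt (R₀ : Pt (WAB A B) Ω)) := by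
      rw [← hτ, ← pow_succ]
      congr 1
      omega
    rw [h5] at h2
    have h6 : vo V β * V.valuation (tt (R₀ : Pt (WAB A B) Ω)) < vo V β * 1 :=
      mul_lt_mul_of_pos_left hτ1 (zero_lt_iff.2 hβ0)
    rw [mul_one] at h6
    exact absurd h2 (not_le.2 h6)

/-- Chunk LP3 (S). s → s P - P is a cocycle with values in Tor (cj π) on the group of B₀ if act (cj π) P is fixed by it. Continuous: N = adjoin F {xc P, yc P}. -/
theorem cc_pt (hA : CMA F A B Om j act) {π : 𝓞 F} {B₀ : IntermediateField F Ω} {P : Pt (WAB A B) Ω}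
    (hP : ∀ s ∈ B₀.fixingSubgroup, ac (WAB A B) s (act (cj π) P) = act (cj π) P) :
    Cc act π B₀ fun s => ac (WAB A B) s P - P := by
  refine ⟨fun s _ t _ => ?_, ?_, fun s hs => ?_⟩
  · rw [ac_mul, map_sub]
    abel
  · refine ⟨IntermediateField.adjoin F {xc P, yc P}, lp_fin P, fun s _ hs => ?_⟩
    rw [lp_adj s P hs, sub_self]
  · rw [mem_Tor, map_sub, ← ac_act hA, hP s hs, sub_self]

end H13X
end

-- from Lib.H13X.XP
section

/-! # H13X: port of H13Y/YP -/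

open NumberField IsDedekindDomain WeierstrassCurve

namespace H13X

open H55P (IQ embF eF LF Per IsHecke Pt ac Inert Dec Nm Coc)
open H35P (WAB Ker tt)
open H55K (Tor ak xc yc CMA Dta GV GMod cj cj_cj mul_cj cj_prime cj_dvd cj_nat Nm_cj Nm_mul Nm_nat)
open H55K.S
open H13S (Abv)





variable {F : Type} [Field F] [NumberField F] [IQ F] {A B : F} {Om : ℂ} {Ω : Type} [Field Ω] [DecidableEq Ω]
  [Algebra F Ω] [IsAlgClosure F Ω] {j : Ω →+* ℂ} {act : 𝓞 F →+* AddMonoid.End (Pt (WAB A B) Ω)} {mo : Ideal (𝓞 F)}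
  {ψ : Ideal (𝓞 F) →*₀ 𝓞 F}

variable {π : 𝓞 F} {l : ℕ} {N : IntermediateField F Ω} {V : ValuationSubring Ω} {e : Pt (WAB A B) Ω → Pt (WAB A B) Ω → Ω}

theorem local_ptu (hA : CMA F A B Om j act) (hG : GV A B V) [FiniteDimensional F N] (hl : l.Prime)
    (hV : V.valuation (l : Ω) < 1) {u : Ω} (hu : u ∈ N) (hu1 : V.valuation u = 1) :
    ∃ (Q : Pt (WAB A B) Ω) (B₀ : IntermediateField F Ω), FiniteDimensional F B₀ ∧
      (∀ s : Ω ≃ₐ[F] Ω, DecN N V s → s ∈ B₀.fixingSubgroup) ∧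
      (∀ s ∈ B₀.fixingSubgroup, ac (WAB A B) s Q = Q) ∧ Ker V Q ∧ tt Q = l * u := by
  have hch : CharZero Ω := charZero_of_injective_algebraMap (algebraMap F Ω).injective
  refine local_ptt hA hG (mul_mem (natCast_mem N l) hu) ?_ ?_
  · refine mul_ne_zero (Nat.cast_ne_zero.2 hl.ne_zero) ?_
    rintro rfl
    rw [map_zero] at hu1
    exact zero_ne_one hu1
  · rw [map_mul, hu1, mul_one]
    exact hV

/-- The norm of π. -/
theorem xp_nm (D : Dat A B Om j act mo ψ π l) : 4 ≤ Nm π ∧ 4 ≤ Nm (cj π) := by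
  have h1 := H55K.k10_arith D.hl D.five D.pr D.dvd
  rw [Nm_cj]
  omega

/-- Chunk YP2 (S). div_pt gives P₁ with act β P₁ = act β P; P = P₁ + R, R in Tor β; R = 0 or kr_tor_ram, kr_add, val_ratio. -/
theorem div_any (hA : CMA F A B Om j act) (hG : GV A B V) {β : 𝓞 F} (hβ : Prime β) (hN : 4 ≤ Nm β) (hV : vo V β < 1) {P : Pt (WAB A B) Ω}
    (hQ : Ker V (act β P)) (hv : V.valuation (tt (act β P)) = vo V β) :
    Ker V P ∧ V.valuation (tt P) ^ Nm β = vo V β := by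
  obtain ⟨P₁, h1, h2, h4⟩ := div_pt hA hG hβ hN hV hQ hv
  have hR : P - P₁ ∈ Tor act β := by
    rw [mem_Tor, map_sub, h1, sub_self]
  by_cases h0 : P - P₁ = 0
  · rw [sub_eq_zero.1 h0]
    exact ⟨h2, h4⟩
  · have e : P = P₁ + (P - P₁) := by abel
    rw [e]
    refine ⟨kr_add hG h2 (kr_tor_ram hA hG β hβ hV hR h0).1, ?_⟩
    rw [(val_ratio hA hβ (by omega) V hG hV P₁ h2 h4 (P - P₁) hR h0).1]
    exact h4

/-- Chunk YP3 (S/M). Ker V (-Q') and V (tt (-Q') + tt Q') ≤ V (tt Q')^2 (kr_act, kr_tt_act with a = -1, act_neg/act (-1) = neg), kr_add, kr_tt_add with c = V l: V (tt Q), V (tt Q') ≤ V l. So tt (Q - Q') = l (u - u') modulo elements of value < V l (V l^2 < V l). -/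
theorem tt_diff (hA : CMA F A B Om j act) (hG : GV A B V) {Q Q' : Pt (WAB A B) Ω} (hQ : Ker V Q) (hQ' : Ker V Q') (hl0 : V.valuation (l : Ω) ≠ 0)
    (hl : V.valuation (l : Ω) < 1) {u u' : Ω} (hu : V.valuation u ≤ 1) (hu' : V.valuation u' ≤ 1)
    (h : V.valuation (tt Q - l * u) < V.valuation (l : Ω))
    (h' : V.valuation (tt Q' - l * u') < V.valuation (l : Ω)) (hd : V.valuation (u - u') = 1) :
    Ker V (Q - Q') ∧ V.valuation (tt (Q - Q')) = V.valuation (l : Ω) := by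
  have hlp : 0 < V.valuation (l : Ω) := zero_lt_iff.2 hl0
  have hsq : V.valuation (l : Ω) ^ 2 < V.valuation (l : Ω) :=
    pow_lt_self_of_lt_one₀ hlp hl (by norm_num)
  have hle : ∀ (R : Pt (WAB A B) Ω) (v : Ω), V.valuation v ≤ 1 →
      V.valuation (tt R - l * v) < V.valuation (l : Ω) →
      V.valuation (tt R) ≤ V.valuation (l : Ω) := by
    intro R v hv h1
    have e : tt R = (tt R - l * v) + l * v := by ring
    rw [e]
    refine (V.valuation.map_add _ _).trans (max_le h1.le ?_)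
    rw [map_mul]
    exact mul_le_of_le_one_right' hv
  have hn : act (-1 : 𝓞 F) Q' = -Q' := by rw [act_neg, act_one]
  have hK' : Ker V (-Q') := by
    rw [← hn]
    exact kr_act hA hG _ hQ'
  have hm := kr_tt_act hA hG (-1 : 𝓞 F) hQ'
  have h1m : ak Ω (-1 : 𝓞 F) = -1 := by
    have e : (((-1 : 𝓞 F) : 𝓞 F) : F) = -1 := rfl
    show algebraMap F Ω (((-1 : 𝓞 F) : 𝓞 F) : F) = -1
    rw [e, map_neg, map_one]
  rw [hn, h1m] at hm
  have hQl := hle Q u hu h
  have hQ'l := hle Q' u' hu' h'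
  have hm2 : V.valuation (tt (-Q') - -1 * tt Q') ≤ V.valuation (l : Ω) ^ 2 :=
    hm.trans (pow_le_pow_left' hQ'l 2)
  have hnQ' : V.valuation (tt (-Q')) ≤ V.valuation (l : Ω) := by
    have e : tt (-Q') = (tt (-Q') - -1 * tt Q') - tt Q' := by ring
    rw [e]
    exact (V.valuation.map_sub _ _).trans (max_le (hm2.trans hsq.le) hQ'l)
  have ha := kr_tt_add hG hQ hK' (V.valuation (l : Ω)) hQl hnQ'
  rw [← sub_eq_add_neg] at ha
  refine ⟨by rw [sub_eq_add_neg]; exact kr_add hG hQ hK', ?_⟩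
  have e : tt (Q - Q') = ((((tt (Q - Q') - tt Q - tt (-Q')) +
      (tt (-Q') - -1 * tt Q')) + (tt Q - l * u)) - (tt Q' - l * u')) +
      l * (u - u') := by ring
  have hv : V.valuation ((l : Ω) * (u - u')) = V.valuation (l : Ω) := by
    rw [map_mul, hd, mul_one]
  rw [e, ← hv]
  refine V.valuation.map_add_eq_of_lt_right ?_
  rw [hv]
  exact V.valuation.map_sub_lt (V.valuation.map_add_lt (V.valuation.map_add_lt (ha.trans_lt hsq)
    (hm2.trans_lt hsq)) h) h'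

/-- Chunk YP4 (S). tt_diff for Q = act (cj π) P, Q' = act (cj π) P'; act (cj π) (P - P') = Q - Q'; div_any with β = cj π (LL1_prime_cj, LL1_prim_cj, LL1_nm), pt_nontriv for P - P'. -/
theorem pt_diff (D : Dat A B Om j act mo ψ π l) (hG : GV A B V) (hV : vo V (cj π) < 1) (hl : V.valuation (l : Ω) = vo V (cj π))
    {P P' : Pt (WAB A B) Ω} {u u' : Ω} (hu : V.valuation u ≤ 1) (hu' : V.valuation u' ≤ 1)
    (hQ : Ker V (act (cj π) P)) (hQ' : Ker V (act (cj π) P'))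
    (h : V.valuation (tt (act (cj π) P) - l * u) < V.valuation (l : Ω))
    (h' : V.valuation (tt (act (cj π) P') - l * u') < V.valuation (l : Ω))
    (hd : V.valuation (u - u') = 1) :
    ¬ ∃ X ∈ Tor act (cj π), ∀ s : Ω ≃ₐ[F] Ω, Inert V s →
      (ac (WAB A B) s P - P) - (ac (WAB A B) s P' - P') = ac (WAB A B) s X - X := by
  have hpr := cj_prime D.pr
  have hN := (xp_nm D).2
  have hl0 : V.valuation (l : Ω) ≠ 0 := by
    rw [hl]
    exact vo_ne V hpr.ne_zero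
  have hl1 : V.valuation (l : Ω) < 1 := by
    rw [hl]
    exact hV
  obtain ⟨h1, h2⟩ := tt_diff D.cma hG hQ hQ' hl0 hl1 hu hu' h h' hd
  rw [← map_sub] at h1 h2
  rw [hl] at h2
  obtain ⟨h3, h4⟩ := div_any D.cma hG hpr hN hV h1 h2
  rintro ⟨X, hX, hX2⟩
  refine pt_nontriv D.cma hG hpr hN hV h3 h4 ⟨X, hX, fun s hs => ?_⟩
  rw [← hX2 s hs, map_sub]
  abel

/-- Chunk YP5 (S/M), PORT of H13Z/LL1.lean exists_pt. If V u = 1: local_ptu, div_pt with β = cj π (V (tt Q) = V l), cc_pt, exists_TB, exists_kumB, dc_of_cc, ks_of_kum (YCB.lean). If V u < 1: P = 0 (tt 0 = 0: tt_zero; Ker V 0), B₀ = N, the same. -/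
theorem exists_ptu (D : Dat A B Om j act mo ψ π l) (hG : GV A B V) (he : Pairing A B act π l e) (hNb : Nb l N) (hV : vo V (cj π) < 1)
    (hl : V.valuation (l : Ω) = vo V (cj π)) {u : Ω} (hu : u ∈ N) (hu1 : V.valuation u ≤ 1) :
    ∃ (P : Pt (WAB A B) Ω) (B₀ L : IntermediateField F Ω) (y₁ : Pt (WAB A B) Ω → Ω),
      Ker V (act (cj π) P) ∧
      V.valuation (tt (act (cj π) P) - l * u) < V.valuation (l : Ω) ∧
      (P = 0 ∨ Ker V P ∧ V.valuation (tt P) ^ Nm (cj π) = vo V (cj π)) ∧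
      (∀ s, DecN N V s → s ∈ B₀.fixingSubgroup) ∧
      Cc act π B₀ (fun s => ac (WAB A B) s P - P) ∧ IsTB act π B₀ L ∧
      (∀ T ∈ Tor act π, Kum L e (fun s => ac (WAB A B) s P - P) T (y₁ T)) ∧
      Dc act π N V (fun s => ac (WAB A B) s P - P) ∧ KS act π N V e (fun s => ac (WAB A B) s P - P) y₁ := by
  classical
  have hfdN := hNb.fin
  have hVl : V.valuation (l : Ω) < 1 := by rw [hl]; exact hV
  have hpr := cj_prime D.pr
  have hl0 : V.valuation (l : Ω) ≠ 0 := by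
    rw [hl]
    exact vo_ne V hpr.ne_zero
  have key : ∀ (P : Pt (WAB A B) Ω) (B₀ : IntermediateField F Ω), FiniteDimensional F B₀ →
      (∀ s, DecN N V s → s ∈ B₀.fixingSubgroup) →
      (∀ s ∈ B₀.fixingSubgroup, ac (WAB A B) s (act (cj π) P) = act (cj π) P) →
      ∃ (L : IntermediateField F Ω) (y₁ : Pt (WAB A B) Ω → Ω), (∀ s, DecN N V s → s ∈ B₀.fixingSubgroup) ∧
      Cc act π B₀ (fun s => ac (WAB A B) s P - P) ∧ IsTB act π B₀ L ∧
      (∀ T ∈ Tor act π, Kum L e (fun s => ac (WAB A B) s P - P) T (y₁ T)) ∧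
      Dc act π N V (fun s => ac (WAB A B) s P - P) ∧ KS act π N V e (fun s => ac (WAB A B) s P - P) y₁ := by
    intro P B₀ hfd hB hP
    have C : Cc act π B₀ fun s => ac (WAB A B) s P - P := cc_pt D.cma hP
    obtain ⟨L, hL⟩ := exists_TB D.cma π D.pr B₀
    let y₁ : Pt (WAB A B) Ω → Ω := fun T => if hT : T ∈ Tor act π then (exists_kumB D C he hL hT).choose else 1
    have hy₁ : ∀ T ∈ Tor act π, Kum L e (fun s => ac (WAB A B) s P - P) T (y₁ T) := by
      intro T hT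
      have h1 : y₁ T = (exists_kumB D C he hL hT).choose := dif_pos hT
      rw [h1]
      exact (exists_kumB D C he hL hT).choose_spec
    exact ⟨L, y₁, hB, C, hL, hy₁, dc_of_cc C hB, ks_of_kum hL hB hy₁⟩
  rcases lt_or_eq_of_le hu1 with hu2 | hu2
  · obtain ⟨L, y₁, h⟩ := key 0 N hfdN (fun s hs => hs.1) (fun s _ => by rw [map_zero, map_zero])
    refine ⟨0, N, L, y₁, ?_, ?_, Or.inl rfl, h⟩
    · rw [map_zero]
      exact ker_zero V
    · rw [map_zero, tt_zero, zero_sub, Valuation.map_neg, map_mul]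
      exact mul_lt_of_lt_one_right (zero_lt_iff.2 hl0) hu2
  · obtain ⟨Q, B₀, hfd, hB, hQ, hQK, hQt⟩ := local_ptu (V := V) (N := N) D.cma hG D.hl hVl hu hu2
    have hQv : V.valuation (tt Q) = vo V (cj π) := by
      rw [hQt, map_mul, hu2, mul_one, hl]
    obtain ⟨P, hPQ, hPK, hPt⟩ := div_pt D.cma hG hpr (xp_nm D).2 hV hQK hQv
    obtain ⟨L, y₁, h⟩ := key P B₀ hfd hB (fun s hs => by rw [hPQ]; exact hQ s hs)
    refine ⟨P, B₀, L, y₁, ?_, ?_, Or.inr ⟨hPK, hPt⟩, h⟩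
    · rw [hPQ]
      exact hQK
    · rw [hPQ, hQt, sub_self, map_zero]
      exact zero_lt_iff.2 hl0

end H13X
end
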