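import Mathlib
import Pool.Agent.Lib.H1M.PP.D_H13Z_TR
import Pool.Agent.Lib.H1M.PP.D_H55P_Z10
import Pool.Agent.Lib.H1M.PP.M036
import Pool.Agent.Lib.H1M.PP.M041
import Pool.Agent.Lib.H1M.PP.M047
import Pool.Agent.Lib.H1M.PP.M048
import Pool.Agent.Lib.H1M.PP.M054
import Pool.Agent.Lib.H1M.PP.M058
import Pool.Agent.Lib.H1M.PP.M068
import Pool.Agent.Lib.H1M.PP.M070
import Pool.Agent.Lib.H1M.PP.M071
import Pool.Agent.Lib.H1M.PP.M072
import Pool.Agent.Lib.H1M.PP.M073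

/-! Merged copies (to shorten the build) of Lib.H13X.XNB, Lib.H55K.NK2, Lib.H55K.NK3, Lib.H55K.NQ, Lib.H13X.XNV, Lib.H13X.XQ1. -/

-- from Lib.H13X.XNB
section

/-! # H13X: port of H13Y/YN: the base fields -/

open NumberField IsDedekindDomain WeierstrassCurve

namespace H13X

open H55P (IQ embF eF LF Per IsHecke Pt ac Inert Dec Nm Coc)
open H35P (WAB Ker tt)
open H55K (Tor ak xc yc CMA Dta GV GMod cj cj_cj mul_cj cj_prime cj_dvd cj_nat Nm_cj Nm_mul Nm_nat)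
open H55K.S
open H13S (Abv)

variable {F : Type} [Field F] [NumberField F] [IQ F]

omit [NumberField F] [IQ F] in
theorem fix_bot {Ω : Type} [Field Ω] [Algebra F Ω] (s : Ω ≃ₐ[F] Ω) : s ∈ (⊥ : IntermediateField F Ω).fixingSubgroup := by
  rw [IntermediateField.fixingSubgroup_bot]
  exact Subgroup.mem_top s

theorem yn1_fin {Ω : Type} [Field Ω] [Algebra F Ω] (K : IntermediateField F Ω) [NumberField K] :
    FiniteDimensional F K := by
  have : IsScalarTower ℚ F K := IsScalarTower.of_algebraMap_eq' (Subsingleton.elim _ _)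
  exact Module.Finite.of_restrictScalars_finite ℚ F K

/-- Chunk YN1 (M). Inertia elements above an unramified prime of a normal extension act trivially on it. w below V (H13S.exists_below), v₀ = w.under 𝓞 F: h v₀. Gal(L₀/F): L₀ is normal over F (hn), IsGalois. Ideal.card_inertia_eq_ramificationIdxIn: the inertia group of w has e elements, e = 1 because not H55P.RamF (all primes above v₀ have index < 2; ramificationIdxIn).
σ = restriction of s to L₀ lies in the inertia group: for x in 𝓞 L₀, x in V, V (s x - x) < 1, so σ x - x in w (Abv.lt). So σ = 1. -/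
theorem inert_triv {Ω : Type} [Field Ω] [DecidableEq Ω] [Algebra F Ω] [IsAlgClosure F Ω]
    {L₀ : IntermediateField F Ω} [NumberField L₀] (hn : ∀ s : Ω ≃ₐ[F] Ω, ∀ x ∈ L₀, s x ∈ L₀)
    {V : ValuationSubring Ω} (hV : ∃ x : L₀, (x : Ω) ∉ V)
    (h : ∀ v₀ : HeightOneSpectrum (𝓞 F), (∀ x : 𝓞 F, x ∈ v₀.asIdeal ↔ V.valuation (algebraMap F Ω (x : F)) < 1) →
      ¬ H55P.RamF L₀ v₀.asIdeal) {s : Ω ≃ₐ[F] Ω} (hs : H55P.Inert V s) : s ∈ L₀.fixingSubgroup := by
  have hac : IsAlgClosed Ω := IsAlgClosure.isAlgClosed F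
  have hal : Algebra.IsAlgebraic F Ω := IsAlgClosure.isAlgebraic
  have hcz : CharZero Ω := charZero_of_injective_algebraMap (algebraMap F Ω).injective
  have hfin : FiniteDimensional F L₀ := yn1_fin L₀
  refine H55P.inert_mem ⊥ L₀ bot_le (fun s _ => hn s) V ?_ s (fix_bot s) hs
  intro v hv hram
  obtain ⟨v₀, h1, h2, -⟩ := H55P.bot_conv (⟨0, 0, 0, 0, 0⟩ : WeierstrassCurve (𝓞 F)) L₀ v
  refine h v₀ (fun x => ?_) (h2 hram)
  rw [h1, hv]
  rfl

theorem yn2_norm {Ω : Type} [Field Ω] [DecidableEq Ω] [Algebra F Ω] [IsAlgClosure F Ω] {l : ℕ}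
    {L₀ : IntermediateField F Ω} (hL : H55P.PExt l ⊥ L₀) : IsGalois F L₀ := by
  have hac : IsAlgClosed Ω := IsAlgClosure.isAlgClosed F
  have hal : Algebra.IsAlgebraic F Ω := IsAlgClosure.isAlgebraic
  have hnΩ : Normal F Ω := IsAlgClosure.normal F Ω
  have h1 : Normal F L₀ := by
    rw [IntermediateField.normal_iff_forall_map_le']
    rintro s _ ⟨x, hx, rfl⟩
    exact hL.norm s (fix_bot s) x hx
  exact ⟨⟩

/-- An element of N in V is congruent to an integer of N. -/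
theorem yn2_approx {Ω : Type} [Field Ω] [Algebra F Ω] (N : IntermediateField F Ω) [NumberField N]
    (V : ValuationSubring Ω) (w : HeightOneSpectrum (𝓞 N)) (hw : Abv N V w) (x : N) (hx : (x : Ω) ∈ V) :
    ∃ y : 𝓞 N, V.valuation ((x : Ω) - ((y : N) : Ω)) < 1 := by
  have hwm := w.isMaximal
  have hunit : ∀ d : 𝓞 N, d ∉ w.asIdeal → V.valuation ((d : N) : Ω) = 1 := by
    intro d hd
    refine le_antisymm (H13S.vw_int N V d) (not_lt.1 fun h' => hd ?_)
    have h2 := (hw.lt (d : N)).1 h'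
    exact (w.valuation_lt_one_iff_mem d).1 h2
  have hlt : ∀ d : 𝓞 N, d ∈ w.asIdeal → V.valuation ((d : N) : Ω) < 1 := by
    intro d hd
    exact (hw.lt (d : N)).2 ((w.valuation_lt_one_iff_mem d).2 hd)
  have hx' : w.valuation N x ≤ 1 := (hw x).1 hx
  have key : ∃ n d : 𝓞 N, d ∉ w.asIdeal ∧ x * (d : N) = (n : N) := by
    obtain ⟨n, d, h | h⟩ := w.exists_primeCompl_mul_eq_or_mul_eq x
    · exact ⟨n, d, d.2, h⟩
    · refine ⟨d, n, ?_, h⟩
      intro hn
      have h1 := congrArg (w.valuation N) h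
      rw [map_mul] at h1
      have h2 : w.valuation N (algebraMap (𝓞 N) N (d : 𝓞 N)) = 1 :=
        le_antisymm (w.valuation_le_one _) (not_lt.1 fun h' => d.2 ((w.valuation_lt_one_iff_mem _).1 h'))
      have h3 : w.valuation N (algebraMap (𝓞 N) N n) < 1 := (w.valuation_lt_one_iff_mem n).2 hn
      rw [h2] at h1
      exact absurd h1 (ne_of_lt (lt_of_le_of_lt (mul_le_of_le_one_left' hx') h3))
  obtain ⟨n, d, hd, hnd⟩ := key
  obtain ⟨c, hc⟩ : ∃ c : 𝓞 N, 1 - d * c ∈ w.asIdeal := by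
    obtain ⟨c, hc⟩ := Ideal.Quotient.exists_inv (I := w.asIdeal) (a := Ideal.Quotient.mk _ d)
      (by rw [Ne, Ideal.Quotient.eq_zero_iff_mem]; exact hd)
    obtain ⟨c', rfl⟩ := Ideal.Quotient.mk_surjective c
    refine ⟨c', ?_⟩
    rw [← Ideal.Quotient.eq_zero_iff_mem, map_sub, map_mul, hc, map_one, sub_self]
  refine ⟨n * c, ?_⟩
  have hd1 := hunit d hd
  have hd0 : ((d : N) : Ω) ≠ 0 := by
    intro h0
    rw [h0, map_zero] at hd1
    exact zero_ne_one hd1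
  have e1 : ((n : N) : Ω) = (x : Ω) * ((d : N) : Ω) := by
    have h4 := congrArg (fun z : N => (z : Ω)) hnd
    exact h4.symm
  have e2 : (x : Ω) - (((n * c : 𝓞 N) : N) : Ω) = (x : Ω) * (((1 - d * c : 𝓞 N) : N) : Ω) := by
    have h5 : (((n * c : 𝓞 N) : N) : Ω) = ((n : N) : Ω) * ((c : N) : Ω) := by simp
    have h6 : (((1 - d * c : 𝓞 N) : N) : Ω) = 1 - ((d : N) : Ω) * ((c : N) : Ω) := by simp
    rw [h5, h6, e1]
    ring
  rw [e2, map_mul]
  exact lt_of_le_of_lt (mul_le_of_le_one_left' ((V.valuation_le_one_iff _).2 hx)) (hlt _ hc)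

theorem yn2_exp {Ω : Type} [Field Ω] [DecidableEq Ω] [Algebra F Ω] [IsAlgClosure F Ω] {l : ℕ} (hl : l.Prime)
    {N L₀ : IntermediateField F Ω} [NumberField N] [NumberField L₀] (hL : H55P.PExt l ⊥ L₀) (hNL : N ≤ L₀)
    (V : ValuationSubring Ω) (β : 𝓞 F) (hβ : Prime β) (hV : H55K.S.vo V β < 1)
    (w : HeightOneSpectrum (𝓞 N)) (hw : Abv N V w) (w₀ : HeightOneSpectrum (𝓞 L₀)) (hw₀ : Abv L₀ V w₀) :
    ∃ j : ℕ, Ideal.absNorm w.asIdeal = Nm β ^ (l ^ j) := by
  have hac : IsAlgClosed Ω := IsAlgClosure.isAlgClosed F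
  have hal : Algebra.IsAlgebraic F Ω := IsAlgClosure.isAlgebraic
  have hcz : CharZero Ω := charZero_of_injective_algebraMap (algebraMap F Ω).injective
  have hG := yn2_norm hL
  let _ : Algebra N L₀ := H55P.s13_alg hNL
  have t1 : IsScalarTower F N L₀ := IsScalarTower.of_algebraMap_eq fun x => rfl
  have hwp := w.isPrime
  have hwm := w.isMaximal
  have hw0p := w₀.isPrime
  have hw0m := w₀.isMaximal
  obtain ⟨k, hk⟩ := hL.deg
  rw [IntermediateField.finrank_bot, one_mul] at hk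
  obtain ⟨j, hj⟩ := H55P.s13_inertia l hl (M := F) (L := L₀) k hk w₀.asIdeal w₀.ne_bot
  have hover : w₀.asIdeal.LiesOver w.asIdeal := by
    constructor
    ext x
    rw [Ideal.mem_under, ← w₀.valuation_lt_one_iff_mem (K := L₀), ← w.valuation_lt_one_iff_mem (K := N),
      ← hw.lt, ← hw₀.lt]
    rfl
  have h2 := Ideal.inertiaDeg_tower (R := 𝓞 F) w.asIdeal w₀.asIdeal
  have h3 : w.asIdeal.inertiaDeg (𝓞 F) ∣ l ^ j := by
    rw [← hj, h2]
    exact dvd_mul_right _ _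
  obtain ⟨i, -, hi⟩ := (Nat.dvd_prime_pow hl).1 h3
  refine ⟨i, ?_⟩
  have hbot : Ideal.span {β} ≠ ⊥ := by
    rw [Ne, Ideal.span_singleton_eq_bot]
    exact hβ.ne_zero
  have hp : (Ideal.span {β}).IsPrime := (Ideal.span_singleton_prime hβ.ne_zero).2 hβ
  have hm : (Ideal.span {β}).IsMaximal := hp.isMaximal hbot
  have hmem : algebraMap (𝓞 F) (𝓞 N) β ∈ w.asIdeal := by
    rw [← HeightOneSpectrum.valuation_lt_one_iff_mem (K := N), ← hw.lt]
    exact hV
  have hlies : w.asIdeal.LiesOver (Ideal.span {β}) := by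
    constructor
    refine hm.eq_of_le (Ideal.IsPrime.ne_top inferInstance) ?_
    rw [Ideal.span_singleton_le_iff_mem]
    exact hmem
  rw [← Ideal.absNorm_pow_inertiaDeg (Ideal.span {β}) w.asIdeal, hi]
  rfl

/-- Chunk YN2 (M). The residue field of N at V. w below V (H13S.exists_below: N is not contained in V because of 1/l). norm_above: absNorm w = Nm β^f. f is a power of l: w₀ = the prime of L₀ below V, absNorm w₀ = Nm β^f₀, f₀ = the inertia degree of w₀ over F divides [L₀ : F] = l^k (L₀/F Galois: e f g = n), f divides f₀ (absNorm w₀ = absNorm w^g', inertia degrees in the tower; or: the residue field of w is a subfield of the residue field of w₀).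
x in N, x in V: x = a/b, a, b in 𝓞 N, b not in w (or: x is congruent to an element of 𝓞 N), a^q - a in w (q = card of the residue field). φ: exists_frobK N. r: representatives of the q = absNorm w classes of 𝓞 N modulo w (Fin q ≃ 𝓞 N/w; differences are not in w: V = 1 by Abv). -/
theorem nb_res {Ω : Type} [Field Ω] [DecidableEq Ω] [Algebra F Ω] [IsAlgClosure F Ω] {l : ℕ} (hl : l.Prime)
    {N L₀ : IntermediateField F Ω} [NumberField N] [NumberField L₀] (hL : H55P.PExt l ⊥ L₀) (hNL : N ≤ L₀)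
    (V : ValuationSubring Ω) (β : 𝓞 F) (hβ : Prime β) (hV : H55K.S.vo V β < 1) (hVl : V.valuation (l : Ω) < 1) :
    ∃ q f : ℕ, 0 < f ∧ q = Nm β ^ f ∧ (∀ x ∈ N, x ∈ V → V.valuation (x ^ q - x) < 1) ∧
      (∃ φ ∈ N.fixingSubgroup, H55P.Dec V φ ∧ ∀ x ∈ V, V.valuation (φ x - x ^ q) < 1) ∧
      ∃ r : Fin q → Ω, (∀ i, r i ∈ N ∧ V.valuation (r i) ≤ 1) ∧
        (∀ i i', i ≠ i' → V.valuation (r i - r i') = 1) ∧
        ∀ x ∈ N, x ∈ V → ∃ i, V.valuation (x - r i) < 1 := by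
  have hcz : CharZero Ω := charZero_of_injective_algebraMap (algebraMap F Ω).injective
  have hl0 : (l : Ω) ≠ 0 := Nat.cast_ne_zero.2 hl.ne_zero
  have hlinv : ((l : Ω)⁻¹) ∉ V := by
    rw [← V.valuation_le_one_iff, map_inv₀, not_le]
    exact (one_lt_inv₀ (zero_lt_iff.2 ((map_ne_zero _).2 hl0))).2 hVl
  have hN : ∃ x : N, (x : Ω) ∉ V := by
    refine ⟨(l : N)⁻¹, ?_⟩
    have e : (((l : N)⁻¹ : N) : Ω) = (l : Ω)⁻¹ := by simp
    rw [e]
    exact hlinv
  have hL' : ∃ x : L₀, (x : Ω) ∉ V := by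
    refine ⟨(l : L₀)⁻¹, ?_⟩
    have e : (((l : L₀)⁻¹ : L₀) : Ω) = (l : Ω)⁻¹ := by simp
    rw [e]
    exact hlinv
  obtain ⟨w, hw⟩ := H13S.exists_below N V hN
  obtain ⟨w₀, hw₀⟩ := H13S.exists_below L₀ V hL'
  have hwm := w.isMaximal
  obtain ⟨j, hj⟩ := yn2_exp hl hL hNL V β hβ hV w hw w₀ hw₀
  obtain ⟨φ, hφN, hφD, hφ⟩ := exists_frobK N hw
  refine ⟨Ideal.absNorm w.asIdeal, l ^ j, pow_pos hl.pos j, hj, ?_, ⟨φ, hφN, hφD, hφ⟩, ?_⟩
  · intro x hx hxV
    have h1 := hφ x hxV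
    have h2 : φ x = x := (IntermediateField.mem_fixingSubgroup_iff N φ).1 hφN x hx
    rw [h2] at h1
    rw [← neg_sub, Valuation.map_neg]
    exact h1
  · have hcard : Nat.card (𝓞 N ⧸ w.asIdeal) = Ideal.absNorm w.asIdeal := rfl
    have hfin : Finite (𝓞 N ⧸ w.asIdeal) := Ideal.finiteQuotientOfFreeOfNeBot _ w.ne_bot
    have e : Fin (Ideal.absNorm w.asIdeal) ≃ (𝓞 N ⧸ w.asIdeal) := by
      rw [← hcard]
      exact (Finite.equivFin _).symm
    have hmk : ∀ y : 𝓞 N ⧸ w.asIdeal, Ideal.Quotient.mk w.asIdeal (Quotient.out y) = y := fun y =>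
      Quotient.out_eq y
    refine ⟨fun i => (((Quotient.out (e i) : 𝓞 N) : N) : Ω), fun i => ⟨?_, H13S.vw_int N V _⟩, ?_, ?_⟩
    · exact ((Quotient.out (e i) : 𝓞 N) : N).2
    · intro i i' hii
      have e1 : (((Quotient.out (e i) : 𝓞 N) : N) : Ω) - (((Quotient.out (e i') : 𝓞 N) : N) : Ω) =
          (((Quotient.out (e i) - Quotient.out (e i') : 𝓞 N) : N) : Ω) := by simp
      show V.valuation ((((Quotient.out (e i) : 𝓞 N) : N) : Ω) - (((Quotient.out (e i') : 𝓞 N) : N) : Ω)) = 1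
      rw [e1]
      refine le_antisymm (H13S.vw_int N V _) (not_lt.1 fun h' => hii ?_)
      have h2 := (w.valuation_lt_one_iff_mem _).1 ((hw.lt _).1 h')
      rw [← Ideal.Quotient.eq_zero_iff_mem, map_sub, hmk, hmk, sub_eq_zero] at h2
      exact e.injective h2
    · intro x hx hxV
      obtain ⟨y, hy⟩ := yn2_approx N V w hw ⟨x, hx⟩ hxV
      refine ⟨e.symm (Ideal.Quotient.mk w.asIdeal y), ?_⟩
      have h3 : y - Quotient.out (Ideal.Quotient.mk w.asIdeal y) ∈ w.asIdeal := by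
        rw [← Ideal.Quotient.eq_zero_iff_mem, map_sub, hmk, sub_self]
      have h4 := (hw.lt _).2 ((w.valuation_lt_one_iff_mem _).2 h3)
      show V.valuation (x - (((Quotient.out (e (e.symm (Ideal.Quotient.mk w.asIdeal y))) : 𝓞 N) : N) : Ω)) < 1
      rw [e.apply_symm_apply]
      have e2 : x - (((Quotient.out (Ideal.Quotient.mk w.asIdeal y) : 𝓞 N) : N) : Ω) =
          (x - ((y : N) : Ω)) + (((y - Quotient.out (Ideal.Quotient.mk w.asIdeal y) : 𝓞 N) : N) : Ω) := by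
        have h5 : (((y - Quotient.out (Ideal.Quotient.mk w.asIdeal y) : 𝓞 N) : N) : Ω) =
          ((y : N) : Ω) - (((Quotient.out (Ideal.Quotient.mk w.asIdeal y) : 𝓞 N) : N) : Ω) := by simp
        rw [h5]
        ring
      rw [e2]
      exact V.valuation.map_add_lt hy h4

/-- Extensions inside a Galois extension of degree a power of l, in which l is unramified, satisfy Nb. -/
theorem nb_of {Ω : Type} [Field Ω] [DecidableEq Ω] [Algebra F Ω] [IsAlgClosure F Ω] {l : ℕ} (hl : l.Prime)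
    {N L₀ : IntermediateField F Ω} [NumberField N] [NumberField L₀] (hL : H55P.PExt l ⊥ L₀) (hNL : N ≤ L₀)
    (hU : H55P.UnrP l L₀) : Nb l N := by
  have hLf : FiniteDimensional F L₀ := hL.fin
  have hcz : CharZero Ω := charZero_of_injective_algebraMap (algebraMap F Ω).injective
  refine ⟨H55P.finDim_of_le hNL, ?_, ?_⟩
  · intro V h s hs
    have hn : ∀ s : Ω ≃ₐ[F] Ω, ∀ x ∈ L₀, s x ∈ L₀ := fun s => hL.norm s (fix_bot s)
    have hVne : ∃ x : L₀, (x : Ω) ∉ V := by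
      have hl0 : (l : Ω) ≠ 0 := Nat.cast_ne_zero.2 hl.ne_zero
      refine ⟨(l : L₀)⁻¹, fun hmem => ?_⟩
      have h1 : V.valuation ((((l : L₀))⁻¹ : L₀) : Ω) ≤ 1 := (V.valuation_le_one_iff _).2 hmem
      have h2 : ((((l : L₀))⁻¹ : L₀) : Ω) = (l : Ω)⁻¹ := by push_cast; rfl
      rw [h2] at h1
      have h3 : V.valuation ((l : Ω) * (l : Ω)⁻¹) < 1 := by
        rw [map_mul]
        exact mul_lt_one_of_lt_of_le h h1
      rw [mul_inv_cancel₀ hl0, map_one] at h3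
      exact lt_irrefl _ h3
    refine IntermediateField.fixingSubgroup_le hNL (inert_triv hn hVne ?_ hs)
    intro v₀ hv₀ hr
    obtain ⟨W, hW, hle⟩ := hr
    have hlv : (l : 𝓞 F) ∈ v₀.asIdeal := by
      rw [hv₀]
      simpa using h
    have h1 : (l : 𝓞 L₀) ∈ W ^ 2 := by
      have := hle (Ideal.mem_map_of_mem (algebraMap (𝓞 F) (𝓞 L₀)) hlv)
      rwa [map_natCast] at this
    have h2 : W ^ 2 ∣ Ideal.span {(l : 𝓞 L₀)} := by
      rw [Ideal.dvd_iff_le, Ideal.span_singleton_le_iff_mem]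
      exact h1
    have h3 : IsUnit W := hU W (by rwa [← sq])
    exact hW.ne_top (Ideal.isUnit_iff.1 h3)
  · intro V β hβ h1 h2
    exact nb_res hl hL hNL V β hβ h1 h2

end H13X
end

-- from Lib.H55K.NK2
section

/-! # H55K: nonvanishing of the Selmer group over fields which do not contain F -/

open NumberField IsDedekindDomain WeierstrassCurve

namespace H55K.TQ

open H55P (IQ embF eF LF Per IsHecke Pt ac Inert Dec Nm UnitP UnrP)
open H35P (WAB Ker tt GoodW IntW)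
open H55K.MG (VC Crd)
open H13Z (SelNon SelNonT)

theorem nk2_vc (W : WeierstrassCurve ℚ) {A₀ B₀ : ℚ} (hA : A₀ = -W.c₄ / 48) (hB : B₀ = -W.c₆ / 864) :
    VC (WAB A₀ B₀) W 1 (W.b₂ / 12) (W.a₁ / 2) (W.a₃ / 2) := by
  refine ⟨one_ne_zero, ?_, ?_, ?_, ?_, ?_⟩
  · simp only [WAB]
    ring
  · simp only [WAB, WeierstrassCurve.b₂]
    ring
  · simp only [WAB]
    ring
  · simp only [WAB, WeierstrassCurve.b₂, hA, WeierstrassCurve.c₄, WeierstrassCurve.b₄]
    ring
  · simp only [WAB, WeierstrassCurve.b₂, hA, hB, WeierstrassCurve.c₄, WeierstrassCurve.b₄, WeierstrassCurve.c₆, WeierstrassCurve.b₆]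
    ring

/-- The isomorphism with the short equation over Ω, as a map from the points of an equal curve. -/
theorem nk2_iso {Ω : Type} [Field Ω] [DecidableEq Ω] [Algebra ℚ Ω] (W : WeierstrassCurve ℚ) (hΔ : W.Δ ≠ 0) {A₀ B₀ : ℚ}
    (hA : A₀ = -W.c₄ / 48) (hB : B₀ = -W.c₆ / 864) (E : WeierstrassCurve Ω) (hE : E = (WAB A₀ B₀)⁄Ω) :
    ∃ Θ : E.toAffine.Point ≃+ (W⁄Ω).toAffine.Point, ∀ P, P ≠ 0 → Θ P ≠ 0 ∧
      xc P = xc (Θ P) + algebraMap ℚ Ω (W.b₂ / 12) ∧
      yc P = yc (Θ P) + algebraMap ℚ Ω (W.a₁ / 2) * xc (Θ P) + algebraMap ℚ Ω (W.a₃ / 2) := by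
  subst hE
  have hd : (WAB A₀ B₀).Δ = W.Δ := by
    have h1 := W.c_relation
    have h2 : (WAB A₀ B₀).Δ = -16 * (4 * A₀ ^ 3 + 27 * B₀ ^ 2) := by
      simp only [WAB, WeierstrassCurve.Δ, WeierstrassCurve.b₂, WeierstrassCurve.b₄, WeierstrassCurve.b₆, WeierstrassCurve.b₈]
      ring
    rw [h2, hA, hB]
    linear_combination (-1 / 1728 : ℚ) * h1
  have hv : VC ((WAB A₀ B₀)⁄Ω) (W⁄Ω) (algebraMap ℚ Ω 1) (algebraMap ℚ Ω (W.b₂ / 12)) (algebraMap ℚ Ω (W.a₁ / 2))
    (algebraMap ℚ Ω (W.a₃ / 2)) := vc_map (algebraMap ℚ Ω) (nk2_vc W hA hB)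
  have e1 : ((WAB A₀ B₀)⁄Ω).Δ ≠ 0 := by
    have e : ((WAB A₀ B₀)⁄Ω).Δ = algebraMap ℚ Ω (WAB A₀ B₀).Δ := (WAB A₀ B₀).map_Δ _
    rw [e, hd]
    exact (map_ne_zero _).2 hΔ
  have e2 : (W⁄Ω).Δ ≠ 0 := by
    have e : (W⁄Ω).Δ = algebraMap ℚ Ω W.Δ := W.map_Δ _
    rw [e]
    exact (map_ne_zero _).2 hΔ
  obtain ⟨Θ, hΘ⟩ := MG.vc_iso hv e1 e2
  refine ⟨Θ, fun P hP => ?_⟩
  obtain ⟨g1, g2, g3⟩ := hΘ P hP
  refine ⟨g1, ?_, ?_⟩
  · rw [g2, map_one]
    ring
  · rw [g3, map_one]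
    ring

variable {F : Type} [Field F] [NumberField F] [IQ F]

/-- Every automorphism of Ω over the rational numbers is the identity or the conjugation on F. -/
theorem nk2_dich {Ω : Type} [Field Ω] [Algebra F Ω] [Algebra ℚ Ω] [IsScalarTower ℚ F Ω] (s : Ω ≃ₐ[ℚ] Ω) :
    (∀ x : F, s (algebraMap F Ω x) = algebraMap F Ω x) ∨
      ∀ a : 𝓞 F, s (ak Ω a) = ak Ω (cj a) := by
  have hq : Algebra.IsQuadraticExtension ℚ F := ⟨IQ.deg⟩
  have hn : Normal ℚ F := Algebra.IsQuadraticExtension.normal ℚ F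
  have h1 := AlgEquiv.restrictNormal_commutes s F
  obtain ⟨τ, hτ⟩ : ∃ τ, τ = s.restrictNormal F := ⟨_, rfl⟩
  rw [← hτ] at h1
  by_cases h2 : (embF F).comp (τ : F →+* F) = embF F
  · left
    intro x
    rw [← h1 x]
    congr 1
    exact (embF F).injective (RingHom.congr_fun h2 x)
  · right
    intro a
    have h3 := d1_emb F _ _ h2 (d1_conj_ne F)
    have h4 : τ (a : F) = ((cj a : 𝓞 F) : F) := by
      apply (embF F).injective
      have h5 := RingHom.congr_fun h3 (a : F)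
      exact h5.trans (e_cj a).symm
    show s (algebraMap F Ω (a : F)) = algebraMap F Ω ((cj a : 𝓞 F) : F)
    rw [← h1, h4]

/-- An element δ with cj δ = -δ and norm prime to p. -/
theorem nk2_delta {p : ℕ} (hp : p.Prime) (hp2 : p ≠ 2) (hU : UnrP p F) : ∃ δ : 𝓞 F, cj δ = -δ ∧ ¬ p ∣ Nm δ := by
  by_contra hcon
  push Not at hcon
  refine rf_card (F := F) hp hp2 (fun a => ?_)
  have h1 : cj (a - cj a) = -(a - cj a) := by
    rw [map_sub, cj_cj]
    ring
  obtain ⟨n, hn⟩ := hcon _ h1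
  have h2 := mul_cj (a - cj a)
  rw [h1, hn] at h2
  rw [← Ideal.mem_span_singleton]
  refine H55P.pd3_rad hp hU _ ?_
  have h3 : (a - cj a) ^ 2 ∈ Ideal.span {(p : 𝓞 F)} := by
    rw [Ideal.mem_span_singleton]
    refine ⟨-(n : 𝓞 F), ?_⟩
    push_cast at h2
    linear_combination -h2
  obtain ⟨k, hk⟩ : ∃ k, p = 2 + k := ⟨p - 2, by have := hp.two_le; omega⟩
  have h4 : (a - cj a) ^ p = (a - cj a) ^ 2 * (a - cj a) ^ k := by
    rw [← pow_add, ← hk]
  rw [h4]
  exact Ideal.mul_mem_right _ _ h3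

end H55K.TQ
end

-- from Lib.H55K.NK3
section

/-! # H55K: nonvanishing of the Selmer group over fields which do not contain F -/

open NumberField IsDedekindDomain WeierstrassCurve

namespace H55K.TQ

open H55P (IQ embF eF LF Per IsHecke Pt ac Inert Dec Nm UnitP UnrP)
open H35P (WAB Ker tt GoodW IntW)
open H55K.MG (VC Crd)
open H13Z (SelNon SelNonT)

variable {F : Type} [Field F] [NumberField F] [IQ F]

section main

variable {W : WeierstrassCurve ℤ} {Om : ℂ} {m : Ideal (𝓞 F)} {ψ : Ideal (𝓞 F) →*₀ 𝓞 F}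

open scoped Classical in
theorem nk3_data (hH : BaseH F (W⁄(𝓞 F)) Om m ψ) : ∃ (A B : F) (A₀ B₀ : ℚ) (j : AlgebraicClosure F →+* ℂ)
    (act : 𝓞 F →+* AddMonoid.End (Pt (WAB A B) (AlgebraicClosure F))), CMA F A B Om j act ∧
    A₀ = -(W⁄ℚ).c₄ / 48 ∧ B₀ = -(W⁄ℚ).c₆ / 864 ∧ A = algebraMap ℚ F A₀ ∧ B = algebraMap ℚ F B₀ ∧ (W⁄ℚ).Δ ≠ 0 := by
  have hc4 : algebraMap (𝓞 F) F (W⁄(𝓞 F)).c₄ = algebraMap ℚ F (W⁄ℚ).c₄ := by
    have e1 : (W⁄(𝓞 F)).c₄ = algebraMap ℤ (𝓞 F) W.c₄ := W.map_c₄ _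
    have e2 : (W⁄ℚ).c₄ = algebraMap ℤ ℚ W.c₄ := W.map_c₄ _
    rw [e1, e2]
    simp
  have hc6 : algebraMap (𝓞 F) F (W⁄(𝓞 F)).c₆ = algebraMap ℚ F (W⁄ℚ).c₆ := by
    have e1 : (W⁄(𝓞 F)).c₆ = algebraMap ℤ (𝓞 F) W.c₆ := W.map_c₆ _
    have e2 : (W⁄ℚ).c₆ = algebraMap ℤ ℚ W.c₆ := W.map_c₆ _
    rw [e1, e2]
    simp
  obtain ⟨A₀, hA₀⟩ : ∃ A₀ : ℚ, A₀ = -(W⁄ℚ).c₄ / 48 := ⟨_, rfl⟩
  obtain ⟨B₀, hB₀⟩ : ∃ B₀ : ℚ, B₀ = -(W⁄ℚ).c₆ / 864 := ⟨_, rfl⟩
  obtain ⟨A, hA⟩ : ∃ A : F, A = -(algebraMap (𝓞 F) F (W⁄(𝓞 F)).c₄) / 48 := ⟨_, rfl⟩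
  obtain ⟨B, hB⟩ : ∃ B : F, B = -(algebraMap (𝓞 F) F (W⁄(𝓞 F)).c₆) / 864 := ⟨_, rfl⟩
  have hA' : A = algebraMap ℚ F A₀ := by
    rw [hA, hc4, hA₀, map_div₀, map_neg, map_ofNat]
  have hB' : B = algebraMap ℚ F B₀ := by
    rw [hB, hc6, hB₀, map_div₀, map_neg, map_ofNat]
  have hΔ0 := hH.data.ell
  have hd := y3_ne (W⁄(𝓞 F)) hA hB hΔ0
  have hper : Per F (embF F A) (embF F B) Om := by
    have e1 : embF F A = -(eF F (W⁄(𝓞 F)).c₄) / 48 := by
      rw [hA, map_div₀, map_neg, map_ofNat]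
      rfl
    have e2 : embF F B = -(eF F (W⁄(𝓞 F)).c₆) / 864 := by
      rw [hB, map_div₀, map_neg, map_ofNat]
      rfl
    rw [e1, e2]
    exact hH.data.per
  obtain ⟨j, hj⟩ := exists_j F (AlgebraicClosure F)
  obtain ⟨act, h⟩ := exists_CMA F A B Om j hd hper hj
  have hΔQ : (W⁄ℚ).Δ = algebraMap ℤ ℚ W.Δ := W.map_Δ _
  have hΔF : (W⁄(𝓞 F)).Δ = algebraMap ℤ (𝓞 F) W.Δ := W.map_Δ _
  refine ⟨A, B, A₀, B₀, j, act, h, hA₀, hB₀, hA', hB', ?_⟩
  intro h0
  apply hΔ0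
  rw [hΔQ] at h0
  have h1 : W.Δ = 0 := by
    have h2 : (W.Δ : ℚ) = 0 := h0
    exact_mod_cast h2
  rw [hΔF, h1, map_zero]

open scoped Classical in
/-- Multiplication by δ = √-d on the points of the curve over the rational numbers. -/
theorem exists_sd (hH : BaseH F (W⁄(𝓞 F)) Om m ψ) (δ : 𝓞 F) (hδ : cj δ = -δ) :
    ∃ S : Pt (W⁄ℚ) (AlgebraicClosure F) →+ Pt (W⁄ℚ) (AlgebraicClosure F), (∀ P, S (S P) = -(Nm δ • P)) ∧
    (∀ s : AlgebraicClosure F ≃ₐ[ℚ] AlgebraicClosure F,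
      (∀ x : F, s (algebraMap F (AlgebraicClosure F) x) = algebraMap F (AlgebraicClosure F) x) →
        ∀ P, ac (W⁄ℚ) s (S P) = S (ac (W⁄ℚ) s P)) ∧
    (∀ s : AlgebraicClosure F ≃ₐ[ℚ] AlgebraicClosure F,
      (∀ a : 𝓞 F, s (ak (AlgebraicClosure F) a) = ak (AlgebraicClosure F) (cj a)) →
        ∀ P, ac (W⁄ℚ) s (S P) = -S (ac (W⁄ℚ) s P)) := by
  obtain ⟨A, B, A₀, B₀, j, act, h, hA₀, hB₀, hA, hB, hΔ⟩ := nk3_data hH
  set Ω := AlgebraicClosure F with hΩ
  have hE : (WAB A B)⁄Ω = (WAB A₀ B₀)⁄Ω := by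
    have e1 : algebraMap F Ω A = algebraMap ℚ Ω A₀ := by rw [hA, ← IsScalarTower.algebraMap_apply ℚ F Ω]
    have e2 : algebraMap F Ω B = algebraMap ℚ Ω B₀ := by rw [hB, ← IsScalarTower.algebraMap_apply ℚ F Ω]
    ext <;> simp [WAB, WeierstrassCurve.map, WeierstrassCurve.baseChange, e1, e2]
  obtain ⟨Θ, hΘ⟩ := nk2_iso (W⁄ℚ) hΔ hA₀ hB₀ ((WAB A B)⁄Ω) hE
  have hsA : ∀ s : Ω ≃ₐ[ℚ] Ω, (s : Ω ≃+* Ω) (algebraMap F Ω A) = algebraMap F Ω A := by
    intro s
    rw [hA, ← IsScalarTower.algebraMap_apply ℚ F Ω]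
    exact s.commutes _
  have hsB : ∀ s : Ω ≃ₐ[ℚ] Ω, (s : Ω ≃+* Ω) (algebraMap F Ω B) = algebraMap F Ω B := by
    intro s
    rw [hB, ← IsScalarTower.algebraMap_apply ℚ F Ω]
    exact s.commutes _
  -- Θ commutes with the automorphisms
  have hcomm : ∀ (s : Ω ≃ₐ[ℚ] Ω) (Q : Pt (WAB A B) Ω), ac (W⁄ℚ) s (Θ Q) = Θ (acr (s : Ω ≃+* Ω) (hsA s) (hsB s) Q) := by
    intro s Q
    by_cases hQ : Q = 0
    · rw [hQ, map_zero, map_zero, map_zero, map_zero]
    · have hQ' : acr (s : Ω ≃+* Ω) (hsA s) (hsB s) Q ≠ 0 := fun h0 => hQ ((acr_zero_iff _ _ _ Q).1 h0)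
      obtain ⟨a1, a2, a3⟩ := hΘ Q hQ
      obtain ⟨b1, b2, b3⟩ := hΘ _ hQ'
      obtain ⟨c1, c2, c3⟩ := MG.ac_crd (W := W⁄ℚ) s (Θ Q)
      rw [xc_acr] at b2
      rw [yc_acr] at b3
      have d2 := congrArg s a2
      have d3 := congrArg s a3
      rw [map_add, s.commutes] at d2
      rw [map_add, map_add, map_mul, s.commutes, s.commutes] at d3
      have b2' : s (xc Q) = xc (Θ ((acr (s : Ω ≃+* Ω) (hsA s) (hsB s)) Q)) + algebraMap ℚ Ω ((W⁄ℚ).b₂ / 12) := b2
      have b3' : s (yc Q) = yc (Θ ((acr (s : Ω ≃+* Ω) (hsA s) (hsB s)) Q)) +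
        algebraMap ℚ Ω ((W⁄ℚ).a₁ / 2) * xc (Θ ((acr (s : Ω ≃+* Ω) (hsA s) (hsB s)) Q)) + algebraMap ℚ Ω ((W⁄ℚ).a₃ / 2) := b3
      have hx : s (xc (Θ Q)) = xc (Θ ((acr (s : Ω ≃+* Ω) (hsA s) (hsB s)) Q)) := by
        linear_combination b2' - d2
      refine CC.c27_ext (fun h0 => a1 (c3.1 h0)) b1 ?_ ?_
      · rw [c1]
        exact hx
      · rw [c2]
        rw [hx] at d3
        linear_combination b3' - d3
  have hact : ∀ (a b : 𝓞 F) (Q : Pt (WAB A B) Ω), act a (act b Q) = act (a * b) Q := by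
    intro a b Q
    rw [map_mul]
    rfl
  have hneg : ∀ (a : 𝓞 F) (Q : Pt (WAB A B) Ω), act (-a) Q = -act a Q := by
    intro a Q
    rw [map_neg]
    rfl
  have hδ2 : δ * δ = -(Nm δ : 𝓞 F) := by
    have h1 := mul_cj δ
    rw [hδ] at h1
    linear_combination -h1
  obtain ⟨S, hS⟩ : ∃ S : Pt (W⁄ℚ) Ω →+ Pt (W⁄ℚ) Ω, ∀ Q, S (Θ Q) = Θ (act δ Q) := by
    refine ⟨(Θ : Pt (WAB A B) Ω →+ Pt (W⁄ℚ) Ω).comp ((act δ : Pt (WAB A B) Ω →+ Pt (WAB A B) Ω).comp
      (Θ.symm : Pt (W⁄ℚ) Ω →+ Pt (WAB A B) Ω)), fun Q => ?_⟩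
    show Θ (act δ (Θ.symm (Θ Q))) = _
    rw [Θ.symm_apply_apply]
  refine ⟨S, fun P => ?_, fun s hs P => ?_, fun s hs P => ?_⟩
  · obtain ⟨Q, rfl⟩ := Θ.surjective P
    rw [hS, hS, hact, hδ2, hneg, cu_nat, map_neg, map_nsmul]
  · obtain ⟨Q, rfl⟩ := Θ.surjective P
    rw [hS, hcomm, hcomm, hS]
    congr 1
    let sF : Ω ≃ₐ[F] Ω := AlgEquiv.ofRingEquiv (f := (s : Ω ≃+* Ω)) hs
    have h1 : ∀ R : Pt (WAB A B) Ω, acr (s : Ω ≃+* Ω) (hsA s) (hsB s) R = ac (WAB A B) sF R :=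
      fun R => acr_eq_ac sF (hsA s) (hsB s) R
    rw [h1, h1]
    exact h.gal sF δ Q
  · obtain ⟨Q, rfl⟩ := Θ.surjective P
    rw [hS, hcomm, hcomm, hS, cma_galr h (s : Ω ≃+* Ω) (hsA s) (hsB s) hs, hδ, hneg, map_neg]

open scoped Classical in
/-- A nonzero Selmer class over the field generated by F gives one over K. -/
theorem nonsel_KG (hH : BaseH F (W⁄(𝓞 F)) Om m ψ) {p : ℕ} (hp : p.Prime) (hp2 : p ≠ 2) (hU : UnrP p F)
    (K : Type) [Field K] [NumberField K] (ι : K →ₐ[ℚ] AlgebraicClosure F) [NumberField (KG F K ι)]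
    (h : SelNon ((W⁄(𝓞 F))⁄F) p (KG F K ι)) : SelNonT (W⁄K) p := by
  set Ω := AlgebraicClosure F with hΩ
  have hcl : IsAlgClosure ℚ Ω := ⟨inferInstance, Algebra.IsAlgebraic.trans ℚ F Ω⟩
  have hal : Algebra.IsAlgebraic ℚ Ω := IsAlgClosure.isAlgebraic
  have hfd : FiniteDimensional F (KG F K ι) := FiniteDimensional.right ℚ F (KG F K ι)
  have hfq : FiniteDimensional ℚ ((KG F K ι).restrictScalars ℚ) := by
    have : FiniteDimensional ℚ (KG F K ι) := inferInstance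
    exact this
  have hWF : (W⁄ℚ)⁄F = (W⁄(𝓞 F))⁄F := by
    ext <;> simp [WeierstrassCurve.map, WeierstrassCurve.baseChange]
  have hWK : (W⁄ℚ)⁄K = W⁄K := by
    ext <;> simp [WeierstrassCurve.map, WeierstrassCurve.baseChange]
  rw [← hWF] at h
  rw [← hWK]
  have h1 : SelNon (W⁄ℚ) p ((KG F K ι).restrictScalars ℚ) := H13Y.non_base (F := F) (W⁄ℚ) p (KG F K ι) h
  obtain ⟨δ, hδ, hNδ⟩ := nk2_delta hp hp2 hU
  obtain ⟨S, hS, hS1, hS2⟩ := exists_sd hH δ hδ
  have hδ0 : δ ≠ 0 := by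
    rintro rfl
    apply hNδ
    have e : Nm (0 : 𝓞 F) = 0 := H55P.Nm_eq_zero.2 rfl
    rw [e]
    exact dvd_zero p
  have hak : ak Ω δ ≠ 0 := by
    intro h0
    apply hδ0
    have e1 : algebraMap F Ω (δ : F) = algebraMap F Ω 0 := by rw [map_zero]; exact h0
    have e2 := (algebraMap F Ω).injective e1
    exact_mod_cast e2
  have hneg : ak Ω (cj δ) = -ak Ω δ := by
    rw [hδ]
    show algebraMap F Ω (algebraMap (𝓞 F) F (-δ)) = _
    rw [map_neg, map_neg]
  have hne : -ak Ω δ ≠ ak Ω δ := by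
    intro h0
    have h2 : (2 : Ω) * ak Ω δ = 0 := by linear_combination -h0
    rcases mul_eq_zero.1 h2 with h3 | h3
    · exact two_ne_zero h3
    · exact hak h3
  -- s δ = δ if and only if s is trivial on F
  have hd1 : ∀ s : Ω ≃ₐ[ℚ] Ω, s (ak Ω δ) = ak Ω δ → ∀ x : F, s (algebraMap F Ω x) = algebraMap F Ω x := by
    intro s hs
    rcases nk2_dich (F := F) s with h2 | h2
    · exact h2
    · exfalso
      rw [h2, hneg] at hs
      exact hne hs
  have hd2 : ∀ s : Ω ≃ₐ[ℚ] Ω, s (ak Ω δ) ≠ ak Ω δ → ∀ a : 𝓞 F, s (ak Ω a) = ak Ω (cj a) := by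
    intro s hs
    rcases nk2_dich (F := F) s with h2 | h2
    · exact absurd (h2 _) hs
    · exact h2
  have hfixK : ∀ s : Ω ≃ₐ[ℚ] Ω, s ∈ ι.fieldRange.fixingSubgroup → ∀ x : K, s (ι x) = ι x := fun s hs x =>
    (IntermediateField.mem_fixingSubgroup_iff _ s).1 hs (ι x) ⟨x, rfl⟩
  refine H13Z.non_transport (W⁄ℚ) p K ι ?_
  refine nk_desc (W⁄ℚ) hp hp2 (kg_le F K ι) ?_ S (Nm δ) hNδ hS (ak Ω δ) (-ak Ω δ) ?_ ?_ ?_
    (fun s hs => hS1 s (hd1 s hs)) (fun s hs => hS2 s (hd2 s hs)) h1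
  · intro s hs x hx
    exact kg_stable F K ι s (hfixK s hs) x hx
  · intro s hs
    constructor
    · intro hs'
      exact (IntermediateField.mem_fixingSubgroup_iff _ s).1 hs' _ ((KG F K ι).algebraMap_mem (δ : F))
    · intro hs'
      rw [IntermediateField.mem_fixingSubgroup_iff]
      intro y hy
      have hF := hd1 s hs'
      refine IntermediateField.adjoin_induction F (p := fun x _ => s x = x) ?_ ?_ ?_ ?_ ?_ hy
      · rintro _ ⟨x, rfl⟩
        exact hfixK s hs x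
      · exact hF
      · intro x y _ _ h1 h2
        rw [map_add, h1, h2]
      · intro x _ h1
        rw [map_inv₀, h1]
      · intro x y _ _ h1 h2
        rw [map_mul, h1, h2]
  · intro s
    by_cases hs : s (ak Ω δ) = ak Ω δ
    · exact Or.inl hs
    · right
      rw [hd2 s hs, hneg]
  · intro s hs
    rw [map_neg, hs, neg_neg]

open scoped Classical in
/-- The same for the Selmer group with local conditions on the inertia groups. -/
theorem nonsel_KT (hH : BaseH F (W⁄(𝓞 F)) Om m ψ) {p : ℕ} (hp : p.Prime) (hp2 : p ≠ 2) (hU : UnrP p F)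
    (K : Type) [Field K] [NumberField K] (ι : K →ₐ[ℚ] AlgebraicClosure F) [NumberField (KG F K ι)]
    (h : SelNon ((W⁄(𝓞 F))⁄F) p (KG F K ι)) : ¬ H55P.SelTriv (W⁄K) p :=
  H13Z.not_selTriv (W⁄K) p (nonsel_KG hH hp hp2 hU K ι h)

end main

end H55K.TQ
end

-- from Lib.H55K.NQ
section

/-! # H55K: interface: classical Selmer groups over fields which do not contain F -/

open NumberField IsDedekindDomain WeierstrassCurve

namespace H55K.TQ

open H55P (IQ embF eF LF Per IsHecke Pt ac Inert Dec Nm UnitP)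

variable {F : Type} [Field F] [NumberField F] [IQ F] {W : WeierstrassCurve ℤ} {Om : ℂ}
    {m : Ideal (𝓞 F)} {ψ : Ideal (𝓞 F) →*₀ 𝓞 F} {p : ℕ}

open Classical in
/-- Nonvanishing over the field generated by F over K gives nonvanishing over K. -/
theorem non_abs (hH : BaseH F (W⁄(𝓞 F)) Om m ψ) (hp : PrimeH F (W⁄(𝓞 F)) p) (K : Type) [Field K] [NumberField K]
    (ι : K →ₐ[ℚ] AlgebraicClosure F) [NumberField (KG F K ι)] (hS : H13Z.SelNon ((W⁄(𝓞 F))⁄F) p (KG F K ι)) :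
    H13Z.SelNonT (W⁄K) p :=
  nonsel_KG hH hp.prime (by have := hp.five; omega) hp.unr K ι hS

end H55K.TQ
end

-- from Lib.H13X.XNV
section

/-! # H13X: the values of the Kummer generators of a local point (from H55K.SNA) -/

open NumberField IsDedekindDomain WeierstrassCurve

namespace H13X

open H55P (IQ embF eF LF Per IsHecke Pt ac Inert Dec Nm Coc)
open H35P (WAB Ker tt)
open H55K (Tor ak xc yc CMA Dta GV GMod cj cj_cj mul_cj cj_prime cj_dvd cj_nat Nm_cj Nm_mul Nm_nat)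
open H55K.S
open H13S (Abv)

variable {F : Type} [Field F] [NumberField F] [IQ F] {A B : F} {Om : ℂ} {Ω : Type} [Field Ω] [DecidableEq Ω]
  [Algebra F Ω] [IsAlgClosure F Ω] {j : Ω →+* ℂ} {act : 𝓞 F →+* AddMonoid.End (Pt (WAB A B) Ω)} {mo : Ideal (𝓞 F)}
  {ψ : Ideal (𝓞 F) →*₀ 𝓞 F}

/-- The value of a Kummer generator of the class of a point in the kernel of reduction, in the split case above the conjugate
of π. -/
theorem na_val {π : 𝓞 F} {l : ℕ} (D : Dat A B Om j act mo ψ π l) {e : Pt (WAB A B) Ω → Pt (WAB A B) Ω → Ω}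
    (he : Pairing A B act π l e) (V : ValuationSubring Ω) (hG : GV A B V) (h1 : vo V π = 1)
    (hV : vo V (cj π) < 1) {P : Pt (WAB A B) Ω} (hPK : Ker V P)
    (hc' : ∀ s, H55P.Inert V s → ac (WAB A B) s P - P ∈ Tor act (cj π)) {T : Pt (WAB A B) Ω} (hT : T ∈ Tor act π)
    {y : Ω} (hy0 : y ≠ 0) (hyk : ∀ s, H55P.Inert V s → s y = e (ac (WAB A B) s P - P) T * y) :
    ∃ k : ℤ, V.valuation y = vo V (cj π) ^ k := by
  classical
  have hA := D.cma
  have hl := D.hl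
  have h5 := D.five
  have hl0 : l ≠ 0 := hl.ne_zero
  have hβ : Prime (cj π) := cj_prime D.pr
  have hnass : ¬ Associated (cj π) π := by
    intro h
    have h2 := vo_assoc V h (vo_le V)
    rw [h1] at h2
    exact absurd hV (by rw [h2]; exact lt_irrefl _)
  obtain ⟨hNπ, hπl⟩ : Nm π = l ∧ π * cj π = (l : 𝓞 F) := by
    rcases dichotomy hl D.dta.unr D.pr D.dvd with ⟨h2, -, -⟩ | ⟨-, -, h2, h3⟩
    · exact absurd h2 hnass
    · exact ⟨h2, h3⟩
  have hNβ : Nm (cj π) = l := by rw [Nm_cj, hNπ]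
  have hVlβ : V.valuation (l : Ω) = vo V (cj π) := by
    rw [← vo_nat (F := F), ← hπl, vo_mul, h1, one_mul]
  have hsT : ∀ s, H55P.Inert V s → ac (WAB A B) s T = T := fun s hs => by
    refine sub_eq_zero.1 (kr_tor hA hG π h1 ?_ (kr_inert hG s hs T))
    exact (Tor act π).sub_mem (ac_mem hA s hT) hT
  by_cases hT0 : T = 0
  · refine na_fix hβ hV hy0 fun s hs => ?_
    rw [hyk s hs, hT0, ld3_e0' hl0 he (hc' s hs), one_mul]
  by_cases hno : ∃ R ∈ Tor act (cj π), ∀ s, H55P.Inert V s → ac (WAB A B) s (P + R) = P + R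
  · obtain ⟨R, hR, hfix⟩ := hno
    have heR : e R T ≠ 0 := by
      intro h
      have h2 := he.root R hR T hT
      rw [h, zero_pow hl0] at h2
      exact zero_ne_one h2
    obtain ⟨k, hk⟩ := na_fix hβ hV (mul_ne_zero hy0 heR) fun s hi => by
      rw [map_mul, hyk s hi, he.gal s R hR T hT, hsT s hi]
      have h2 : R = (ac (WAB A B) s P - P) + ac (WAB A B) s R := by
        have h3 := hfix s hi
        rw [map_add] at h3
        rw [sub_add_eq_add_sub, h3, add_sub_cancel_left]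
      have h3 : e R T = e (ac (WAB A B) s P - P) T * e (ac (WAB A B) s R) T := by
        conv_lhs => rw [h2]
        exact he.add_left _ (hc' s hi) _ (ac_mem hA s hR) T hT
      rw [h3]
      ring
    refine ⟨k, ?_⟩
    have h4 : V.valuation (e R T) = 1 := by
      apply H13Z.lf1_one _ l hl0
      rw [← map_pow, he.root R hR T hT, map_one]
    rwa [map_mul, h4, mul_one] at hk
  · -- the value of tt P
    set β := cj π with hβd
    have hρ := na_point hA hβ (by rw [hNβ]; omega) V hG hV P hPK hc' hno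
    rw [hNβ] at hρ
    set ρ := V.valuation (tt P) with hρd
    have hϖ0 : vo V β ≠ 0 := vo_ne V hβ.ne_zero
    have hρ0 : ρ ≠ 0 := by
      intro h
      rw [h, zero_pow hl0] at hρ
      exact hϖ0 hρ.symm
    have hρ1 : ρ < 1 := kr_tt_lt hG hPK
    have hρp : 0 < ρ := zero_lt_iff.2 hρ0
    obtain ⟨k, hk⟩ := na_fix hβ hV (pow_ne_zero l hy0) fun s hs => by
      rw [map_pow, hyk s hs, mul_pow, he.root _ (hc' s hs) T hT, one_mul]
    by_cases hdvd : (l : ℤ) ∣ k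
    · obtain ⟨k', hk'⟩ := hdvd
      refine ⟨k', ?_⟩
      rw [map_pow, hk', mul_comm, zpow_mul, zpow_natCast] at hk
      exact (pow_left_inj₀ zero_le zero_le hl0).1 hk
    exfalso
    have hcop : IsCoprime k (l : ℤ) := by
      rw [isCoprime_comm]
      exact (Nat.prime_iff_prime_int.1 hl).coprime_iff_not_dvd.2 hdvd
    obtain ⟨a, b, hab⟩ := hcop
    -- the character f
    have heT : ∀ R ∈ Tor act β, e R T ≠ 0 := fun R hR h => by
      have h2 := he.root R hR T hT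
      rw [h, zero_pow hl0] at h2
      exact zero_ne_one h2
    have hgenT : ∀ R ∈ Tor act β, e R T = 1 → R = 0 := by
      intro R hR h2
      refine he.nondeg R hR fun X hX => ?_
      obtain ⟨x, rfl⟩ := (PA1_gen hA π D.pr T hT hT0).1 X hX
      obtain ⟨n, hn⟩ := exists_natmod hl hNπ x
      rw [← (PA1_gen hA π D.pr T hT hT0).2, act_sub, sub_eq_zero] at hn
      rw [hn, act_nat]
      have h3 : ∀ i : ℕ, e R (i • T) = 1 := by
        intro i
        induction i with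
        | zero => rw [zero_smul]; exact ld3_e0' hl0 he hR
        | succ i ih =>
          rw [succ_nsmul, he.add_right R hR _ ((Tor act π).nsmul_mem hT i) T hT, ih, h2, mul_one]
      exact h3 n
    let f : Tor act β → Ω := fun R => e (R : Pt (WAB A B) Ω) T ^ a
    have hfadd : ∀ R R' : Tor act β, f (R + R') = f R * f R' := by
      intro R R'
      show e ((R : Pt (WAB A B) Ω) + R') T ^ a = _
      rw [he.add_left _ R.2 _ R'.2 T hT, mul_zpow]
    have hfl : ∀ R : Tor act β, f R ^ l = 1 := by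
      intro R
      show (e (R : Pt (WAB A B) Ω) T ^ a) ^ l = 1
      rw [← zpow_natCast, ← zpow_mul, mul_comm, zpow_mul, zpow_natCast, he.root _ R.2 T hT, one_zpow]
    have hf1 : ∀ R : Tor act β, f R = 1 → R = 0 := by
      intro R h2
      apply Subtype.ext
      refine hgenT _ R.2 ?_
      have h3 : e (R : Pt (WAB A B) Ω) T ^ a = 1 := h2
      have h4 := he.root _ R.2 T hT
      have h5 : e (R : Pt (WAB A B) Ω) T ^ (a * k + b * l) = 1 := by
        rw [zpow_add₀ (heT _ R.2), zpow_mul, h3, one_zpow, one_mul, mul_comm, zpow_mul, zpow_natCast, h4, one_zpow]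
      rwa [hab, zpow_one] at h5
    have hf0 : f 0 = 1 := by
      show e ((0 : Tor act β) : Pt (WAB A B) Ω) T ^ a = 1
      rw [ZeroMemClass.coe_zero, ld3_e0 hl0 he hT, one_zpow]
    have hfne : ∀ R : Tor act β, f R ≠ 0 := fun R => zpow_ne_zero _ (heT _ R.2)
    have hfin : Finite (Tor act β) := by
      apply Nat.finite_of_card_ne_zero
      rw [(gi_gen hA β hβ).1, hNβ]
      exact hl0
    let _ : Fintype (Tor act β) := Fintype.ofFinite _
    -- y'
    let y' : Ω := y ^ a * ak Ω β ^ b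
    have hakβ : ak Ω β ≠ 0 := (Valuation.ne_zero_iff _).1 hϖ0
    have hy'0 : y' ≠ 0 := mul_ne_zero (zpow_ne_zero _ hy0) (zpow_ne_zero _ hakβ)
    have hy'v : V.valuation y' = ρ := by
      have h2 : V.valuation y' ^ l = ρ ^ l := by
        show V.valuation (y ^ a * ak Ω β ^ b) ^ l = _
        rw [hρ, ← map_pow, mul_pow, ← zpow_natCast, ← zpow_natCast, ← zpow_mul, ← zpow_mul, mul_comm a, zpow_mul y,
          zpow_natCast, map_mul, map_zpow₀, map_zpow₀, hk, ← zpow_mul, ← zpow_add₀ hϖ0]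
        have h3 : k * a + b * (l : ℤ) = 1 := by rw [mul_comm k a]; exact hab
        rw [h3, zpow_one]
      exact (pow_left_inj₀ zero_le zero_le hl0).1 h2
    let c' : (Ω ≃ₐ[F] Ω) → Tor act β := fun s => if h : H55P.Inert V s then ⟨ac (WAB A B) s P - P, hc' s h⟩ else 0
    have hcc : ∀ s, H55P.Inert V s → ((c' s : Tor act β) : Pt (WAB A B) Ω) = ac (WAB A B) s P - P := fun s hs => by
      show (((if h : H55P.Inert V s then ⟨ac (WAB A B) s P - P, hc' s h⟩ else 0 : Tor act β)) : Pt (WAB A B) Ω) = _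
      rw [dif_pos hs]
    have hsy' : ∀ s, H55P.Inert V s → s y' = f (c' s) * y' := by
      intro s hs
      show s (y ^ a * ak Ω β ^ b) = e (c' s : Pt (WAB A B) Ω) T ^ a * (y ^ a * ak Ω β ^ b)
      rw [hcc s hs, map_mul, map_zpow₀, map_zpow₀, hyk s hs, mul_zpow, s.commutes]
      ring
    -- the resolvents
    let t : Tor act β → Ω := fun R => tt (P + (R : Pt (WAB A B) Ω))
    let Ai : ℕ → Ω := fun i => ∑ R, f (-R) ^ i * t R
    have hsA : ∀ s, H55P.Inert V s → ∀ i, s (Ai i) = f (c' s) ^ i * Ai i := by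
      intro s hs i
      show s (∑ R, f (-R) ^ i * t R) = f (c' s) ^ i * ∑ R, f (-R) ^ i * t R
      rw [map_sum, Finset.mul_sum]
      let g : Tor act β → Tor act β := fun R => ⟨ac (WAB A B) s (R : Pt (WAB A B) Ω), ac_mem hA s R.2⟩ + c' s
      have hg : Function.Bijective g := by
        refine Finite.injective_iff_bijective.1 fun R R' h2 => ?_
        have h3 := congrArg Subtype.val (add_right_cancel h2)
        exact Subtype.ext (ac_inj s h3)
      refine Fintype.sum_bijective g hg _ _ fun R => ?_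
      have h2 : s (f (-R)) = f (c' s) * f (-(g R)) := by
        rw [← hfadd]
        show s (e ((-R : Tor act β) : Pt (WAB A B) Ω) T ^ a) = e ((c' s + -(g R) : Tor act β) : Pt (WAB A B) Ω) T ^ a
        rw [map_zpow₀, he.gal s _ (-R).2 T hT, hsT s hs]
        congr 2
        show ac (WAB A B) s (-(R : Pt (WAB A B) Ω)) = (c' s : Pt (WAB A B) Ω) +
          -(ac (WAB A B) s (R : Pt (WAB A B) Ω) + (c' s : Pt (WAB A B) Ω))
        rw [map_neg]
        abel
      have h3 : s (t R) = t (g R) := by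
        show s (tt (P + (R : Pt (WAB A B) Ω))) = tt (P + (ac (WAB A B) s (R : Pt (WAB A B) Ω) + (c' s : Pt (WAB A B) Ω)))
        rw [← tt_ac, map_add, hcc s hs]
        congr 1
        abel
      rw [map_mul, map_pow, h2, h3, mul_pow, mul_assoc]
    have hAv : ∀ i, Ai i ≠ 0 → ∃ n : ℤ, V.valuation (Ai i) = ρ ^ ((i : ℤ) + l * n) := by
      intro i h0
      have h2 : Ai i / y' ^ i ≠ 0 := div_ne_zero h0 (pow_ne_zero _ hy'0)
      obtain ⟨n, hn⟩ := na_fix hβ hV h2 fun s hs => by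
        rw [map_div₀, map_pow, hsA s hs, hsy' s hs, mul_pow,
          mul_div_mul_left _ _ (pow_ne_zero _ (hfne _))]
      refine ⟨n, ?_⟩
      rw [map_div₀, map_pow, hy'v, div_eq_iff (pow_ne_zero _ hρ0)] at hn
      rw [hn, ← hρ, ← zpow_natCast, ← zpow_mul, ← zpow_natCast, ← zpow_add₀ hρ0, add_comm]
    have hdist : ∀ i < l, ∀ k < l, i ≠ k → Ai i ≠ 0 → V.valuation (Ai i) ≠ V.valuation (Ai k) := by
      intro i hi k hk' hne h0 h2
      have h3 : Ai k ≠ 0 := by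
        rw [← Valuation.ne_zero_iff V.valuation, ← h2, Valuation.ne_zero_iff]
        exact h0
      obtain ⟨n, hn⟩ := hAv i h0
      obtain ⟨n', hn'⟩ := hAv k h3
      rw [hn, hn'] at h2
      have h4 := (zpow_right_injective₀ hρp hρ1.ne) h2
      have h5 : (i : ℤ) + l * n = k + l * n' := h4
      have h6 : (i : ℤ) % l = (k : ℤ) % l := by
        have h7 := congrArg (· % (l : ℤ)) h5
        simpa using h7
      rw [Int.emod_eq_of_lt (by positivity) (by exact_mod_cast hi),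
        Int.emod_eq_of_lt (by positivity) (by exact_mod_cast hk')] at h6
      exact hne (by exact_mod_cast h6)
    have hle := na_sum V l Ai hdist
    have hsum0 : ∑ i ∈ Finset.range l, Ai i = l * t 0 := by
      rw [← na_res hl f hfadd hfl hf1 t 0]
      refine Finset.sum_congr rfl fun i _ => ?_
      rw [hf0, one_pow, one_mul]
    have ht0 : t 0 = tt P := by
      show tt (P + ((0 : Tor act β) : Pt (WAB A B) Ω)) = tt P
      rw [ZeroMemClass.coe_zero, add_zero]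
    rw [hsum0, ht0, map_mul] at hle
    -- a nonzero point
    obtain ⟨-, R₀, hR₀T, -, hR₀z⟩ := gi_gen hA β hβ
    have hR₀0 : R₀ ≠ 0 := by
      intro h
      have h3 : act (1 : 𝓞 F) R₀ = 0 := by rw [h, map_zero]
      exact hβ.not_isUnit (isUnit_of_dvd_one ((hR₀z 1).1 h3))
    let R₁ : Tor act β := ⟨R₀, hR₀T⟩
    have hR₁ : f R₁ ≠ 1 := fun h => hR₀0 (congrArg Subtype.val (hf1 R₁ h))
    have hsum1 : (l : Ω) * (t R₁ - tt P) = ∑ i ∈ Finset.range l, (f R₁ ^ i - 1) * Ai i := by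
      rw [mul_sub, ← na_res hl f hfadd hfl hf1 t R₁, ← ht0, ← hsum0, ← Finset.sum_sub_distrib]
      refine Finset.sum_congr rfl fun i _ => ?_
      show f R₁ ^ i * Ai i - Ai i = _
      ring
    have hfv : V.valuation (f R₁) = 1 := by
      apply H13Z.lf1_one _ l hl0
      rw [← map_pow, hfl, map_one]
    have hbound : V.valuation ((l : Ω) * (t R₁ - tt P)) ≤
        V.valuation (f R₁ - 1) * (V.valuation (l : Ω) * ρ) := by
      rw [hsum1]
      refine Valuation.map_sum_le _ fun i hi => ?_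
      have h2 : f R₁ ^ i - 1 = (∑ n ∈ Finset.range i, f R₁ ^ n) * (f R₁ - 1) := (geom_sum_mul _ _).symm
      have h3 : V.valuation (∑ n ∈ Finset.range i, f R₁ ^ n) ≤ 1 := by
        refine Valuation.map_sum_le _ fun n _ => ?_
        rw [map_pow, hfv, one_pow]
      rw [map_mul, h2, map_mul]
      refine mul_le_mul' ?_ (hle i (Finset.mem_range.1 hi))
      calc V.valuation (∑ n ∈ Finset.range i, f R₁ ^ n) * V.valuation (f R₁ - 1)
          ≤ 1 * V.valuation (f R₁ - 1) := mul_le_mul' h3 le_rfl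
        _ = _ := one_mul _
    obtain ⟨-, hrat, -⟩ := val_ratio hA hβ (by rw [hNβ]; omega) V hG hV P hPK (by rw [hNβ]; exact hρ) R₀ hR₀T hR₀0
    obtain ⟨-, hτ⟩ := kr_tor_ram hA hG β hβ hV hR₀T hR₀0
    rw [hNβ] at hτ
    have hroot := na_root V l hl (f R₁) (hfl R₁) hR₁
    rw [hVlβ, ← hτ] at hroot
    have hfτ : V.valuation (f R₁ - 1) ≤ V.valuation (tt R₀) := by
      by_contra hcon
      push Not at hcon
      exact absurd hroot (not_le.2 (pow_lt_pow_left₀ hcon zero_le (by omega)))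
    have hVl0 : 0 < V.valuation (l : Ω) := by
      rw [hVlβ]
      exact zero_lt_iff.2 hϖ0
    rw [map_mul] at hbound
    have e1 : t R₁ - tt P = tt (P + R₀) - tt P := rfl
    rw [e1, hrat] at hbound
    have h6 : V.valuation (l : Ω) * V.valuation (tt R₀) ≤ V.valuation (l : Ω) * (V.valuation (tt R₀) * ρ) := by
      refine hbound.trans ?_
      calc V.valuation (f R₁ - 1) * (V.valuation (l : Ω) * ρ)
          ≤ V.valuation (tt R₀) * (V.valuation (l : Ω) * ρ) := mul_le_mul' hfτ le_rfl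
        _ = _ := by rw [mul_left_comm]
    have h7 : V.valuation (tt R₀) ≤ V.valuation (tt R₀) * ρ := (mul_le_mul_iff_right₀ hVl0).1 h6
    have hτ0 : 0 < V.valuation (tt R₀) := by
      rw [zero_lt_iff]
      intro h
      rw [h, zero_pow (by omega)] at hτ
      exact hϖ0 hτ.symm
    have h8 : V.valuation (tt R₀) * ρ < V.valuation (tt R₀) * 1 := mul_lt_mul_of_pos_left hρ1 hτ0
    rw [mul_one] at h8
    exact absurd h7 (not_le.2 h8)

end H13X
end

-- from Lib.H13X.XQ1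
section

/-! # H13X: port of H13Y/YQ1 -/

open NumberField IsDedekindDomain WeierstrassCurve

namespace H13X

open H55P (IQ embF eF LF Per IsHecke Pt ac Inert Dec Nm Coc)
open H35P (WAB Ker tt)
open H55K (Tor ak xc yc CMA Dta GV GMod cj cj_cj mul_cj cj_prime cj_dvd cj_nat Nm_cj Nm_mul Nm_nat)
open H55K.S
open H13S (Abv)





variable {F : Type} [Field F] [NumberField F] [IQ F] {A B : F} {Om : ℂ} {Ω : Type} [Field Ω] [DecidableEq Ω]
  [Algebra F Ω] [IsAlgClosure F Ω] {j : Ω →+* ℂ} {act : 𝓞 F →+* AddMonoid.End (Pt (WAB A B) Ω)} {mo : Ideal (𝓞 F)}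
  {ψ : Ideal (𝓞 F) →*₀ 𝓞 F}

section gen

variable {Ω : Type} [Field Ω] {l : ℕ} {V : ValuationSubring Ω}

theorem LQ1_pow {R : Type} [CommRing R] (y : R) (n : ℕ) : ∃ c : R,
    (1 + y) ^ n = 1 + n * y + y ^ 2 * c := by
  induction n with
  | zero => exact ⟨0, by simp⟩
  | succ n ih =>
    obtain ⟨c, hc⟩ := ih
    refine ⟨n + c + c * y, ?_⟩
    rw [pow_succ, hc]
    push_cast
    ring

theorem LQ1_est {y : Ω} (hy : V.valuation y ≤ 1) (n : ℕ) :
    V.valuation ((1 + y) ^ n - 1 - n * y) ≤ V.valuation y ^ 2 := by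
  have hyV : y ∈ V := (V.valuation_le_one_iff y).1 hy
  obtain ⟨c, hc⟩ := LQ1_pow (⟨y, hyV⟩ : V) n
  have hc' := congrArg (fun z : V => (z : Ω)) hc
  push_cast at hc'
  have e : (1 + y) ^ n - 1 - n * y = y ^ 2 * (c : Ω) := by
    rw [hc']
    ring
  rw [e, map_mul, map_pow]
  exact mul_le_of_le_one_right' ((V.valuation_le_one_iff _).2 c.2)

theorem LQ1_root (hl : l.Prime) (h5 : 5 ≤ l) (hVl : V.valuation (l : Ω) < 1) {z : Ω}
    (hz : V.valuation z ≤ 1) (h : V.valuation (z ^ l - 1) < 1) : V.valuation (z - 1) < 1 := by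
  have hzV : z ∈ V := (V.valuation_le_one_iff z).1 hz
  obtain ⟨r, hr⟩ := exists_add_pow_prime_eq hl (⟨z, hzV⟩ : V) (-1)
  have hr' := congrArg (fun z : V => (z : Ω)) hr
  push_cast at hr'
  have hodd : Odd l := hl.odd_of_ne_two (by omega)
  rw [hodd.neg_one_pow] at hr'
  have e : (z - 1) ^ l = (z ^ l - 1) + (l : Ω) * ((-⟨z, hzV⟩ * r : V) : Ω) := by
    rw [sub_eq_add_neg z 1, hr']
    push_cast
    ring
  have h2 : V.valuation ((z - 1) ^ l) < 1 := by
    rw [e]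
    refine Valuation.map_add_lt _ h ?_
    rw [map_mul]
    exact mul_lt_one_of_lt_of_le hVl ((V.valuation_le_one_iff _).2 (-⟨z, hzV⟩ * r : V).2)
  rw [map_pow] at h2
  by_contra hcon
  push Not at hcon
  exact absurd h2 (not_lt.2 (one_le_pow₀ hcon))

theorem LQ1_up {z : Ω} (h : V.valuation (z - 1) ≤ V.valuation (l : Ω)) (hVl : V.valuation (l : Ω) < 1) :
    V.valuation (z ^ l - 1) ≤ V.valuation (l : Ω) ^ 2 := by
  have h1 := LQ1_est (V := V) (y := z - 1) (h.trans hVl.le) l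
  have e1 : 1 + (z - 1) = z := by ring
  rw [e1] at h1
  have e : z ^ l - 1 = (z ^ l - 1 - l * (z - 1)) + l * (z - 1) := by ring
  rw [e]
  refine Valuation.map_add_le _ (h1.trans (pow_le_pow_left₀ zero_le h 2)) ?_
  rw [map_mul, sq]
  exact mul_le_mul' le_rfl h

end gen

/-- Existence of the data in the unramified case. -/
theorem exists_UV {π : 𝓞 F} {l : ℕ} {N : IntermediateField F Ω} {V : ValuationSubring Ω}
    (D : Dat A B Om j act mo ψ π l) (hNb : Nb l N) (hs : ¬ π ∣ cj π) (hV : vo V (cj π) < 1) :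
    ∃ (φ : Ω ≃ₐ[F] Ω) (q n : ℕ), UV A B Om j act mo ψ π l N V φ q n := by
  have hc := cj_prime D.pr
  have hA := D.cma
  have hVl : V.valuation (l : Ω) < 1 := H55K.S.val_l D.conj.dvd (fun V x => vo_le V x) V hV
  have hG := D.dta.good V hVl
  have hdi : Nm π = l := by
    rcases dichotomy D.hl D.dta.unr D.pr D.dvd with ⟨h, -, -⟩ | ⟨-, -, h, -⟩
    · exact absurd h.symm.dvd hs
    · exact h
  have hp1 : vo V π = 1 := vo_unit (IsCoprime.symm ((D.pr.irreducible.coprime_iff_not_dvd).2 hs)) hV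
  obtain ⟨q, f, hf, hq, -, ⟨φ, hφN, hφD, hφ⟩, r, hr1, hr2, -⟩ := hNb.res V (cj π) hc hV hVl
  have hNc : Nm (cj π) = l := by rw [Nm_cj, hdi]
  -- φ acts on the points killed by π as a number
  obtain ⟨-, T₀, hT₀, hgen, hz⟩ := gi_gen hA π D.pr
  obtain ⟨a, ha⟩ := hgen _ (ac_mem hA φ hT₀)
  obtain ⟨n, hn⟩ := exists_natmod D.hl hdi a
  have hact : ∀ T ∈ Tor act π, ac (WAB A B) φ T = n • T := by
    intro T hT
    obtain ⟨b, rfl⟩ := hgen T hT
    have h1 : act a T₀ = n • T₀ := by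
      obtain ⟨u, hu⟩ := hn
      rw [← act_nat (act := act), ← sub_eq_zero, ← act_sub, hu, mul_comm, act_mul, mem_Tor.1 hT₀, map_zero]
    rw [ac_act hA, ha, h1, map_nsmul]
  refine ⟨φ, q, n, D, hs, hV, hNb, ⟨hφN, hφD⟩, ?_, hφ, hact, ?_, r, hr1, hr2⟩
  · refine ⟨l ^ (f - 1), ?_, pow_pos D.hl.pos _⟩
    rw [hq, hNc, ← pow_succ', Nat.sub_add_cancel hf]
  · intro h
    have h1 := hact T₀ hT₀
    have h2 : n • T₀ = 0 := by
      obtain ⟨w, rfl⟩ := h
      rw [mul_comm, mul_nsmul, ← act_nat (act := act) l]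
      obtain ⟨u, hu⟩ := D.dvd
      rw [hu, mul_comm π u, act_mul, mem_Tor.1 (nsmul_mem hT₀ w), map_zero]
    rw [h2] at h1
    have hT0 : T₀ ≠ 0 := by
      intro h0
      exact D.pr.not_unit (isUnit_of_dvd_one ((hz 1).1 (by rw [h0, map_zero])))
    exact ac_ne φ hT0 h1

variable {π : 𝓞 F} {l : ℕ} {N : IntermediateField F Ω} {V : ValuationSubring Ω} {φ : Ω ≃ₐ[F] Ω} {q n : ℕ}
  {e : Pt (WAB A B) Ω → Pt (WAB A B) Ω → Ω}

theorem UV.val_l (U : UV A B Om j act mo ψ π l N V φ q n) : V.valuation (l : Ω) = vo V (cj π) ∧ vo V π = 1 ∧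
    GV A B V ∧ V.valuation (l : Ω) ≠ 0 ∧ V.valuation (l : Ω) < 1 := by
  have hp1 : vo V π = 1 := vo_unit (IsCoprime.symm ((U.D.pr.irreducible.coprime_iff_not_dvd).2 U.nd)) U.above
  have h2 : π * cj π = (l : 𝓞 F) := by
    rcases dichotomy U.D.hl U.D.dta.unr U.D.pr U.D.dvd with ⟨h, -, -⟩ | ⟨-, -, -, h⟩
    · exact absurd h.symm.dvd U.nd
    · exact h
  have h1 : V.valuation (l : Ω) = vo V (cj π) := by
    rw [← vo_nat (F := F), ← h2, vo_mul, hp1, one_mul]
  have hlt : V.valuation (l : Ω) < 1 := by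
    rw [h1]
    exact U.above
  refine ⟨h1, hp1, U.D.dta.good V hlt, ?_, hlt⟩
  rw [h1]
  exact vo_ne V (cj_prime U.D.pr).ne_zero

/-- PORT of UV.values: inertia elements are in DecN (U.nb.dec) and fix Tor π (inert_tors). -/
theorem UV.values (U : UV A B Om j act mo ψ π l N V φ q n) {x : Ω} (hx : Hx act π N V x) (h0 : x ≠ 0) :
    ∃ k : ℤ, V.valuation x = V.valuation (l : Ω) ^ k := by
  obtain ⟨h1, h2, h3, -, h5⟩ := U.val_l
  have hNF : NumberField (⊥ : IntermediateField F Ω) := NumberField.of_module_finite F _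
  have hfix : ∀ s ∈ (⊥ : IntermediateField F Ω).fixingSubgroup, Inert V s → s x = x := by
    intro s _ hs
    exact hx s ⟨U.nb.dec h5 hs, fun T hT => inert_tors U.D.cma h3 h2 hs hT⟩
  obtain ⟨a, ha, hva⟩ := H13S.value_fixed (⊥ : IntermediateField F Ω) V _ h0 hfix
  obtain ⟨a', ha'⟩ := IntermediateField.mem_bot.1 a.2
  have ha'0 : a' ≠ 0 := by
    rintro rfl
    rw [map_zero] at ha'
    exact ha (Subtype.ext ha'.symm)
  obtain ⟨k, hk⟩ := qv_intpow V (cj_prime U.D.pr) U.above a' ha'0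
  rw [ha'] at hk
  exact ⟨k, by rw [hva, hk, h1]⟩

theorem UV.step (U : UV A B Om j act mo ψ π l N V φ q n) {x : Ω} (hx : Hx act π N V x) (h : V.valuation x < 1) :
    V.valuation x ≤ V.valuation (l : Ω) := by
  obtain ⟨-, -, -, h4, h5⟩ := U.val_l
  by_cases h0 : x = 0
  · rw [h0, map_zero]
    exact zero_le
  obtain ⟨k, hk⟩ := U.values hx h0
  have h6 : 0 < V.valuation (l : Ω) := zero_lt_iff.2 h4
  rw [hk] at h ⊢
  have hk1 : 1 ≤ k := by
    by_contra hcon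
    push Not at hcon
    have h7 : k ≤ 0 := by omega
    have h8 : 1 ≤ V.valuation (l : Ω) ^ k := by
      have h9 := zpow_le_zpow_right_of_le_one₀ h6 h5.le h7
      rwa [zpow_zero] at h9
    exact absurd h (not_lt.2 h8)
  have h9 := zpow_le_zpow_right_of_le_one₀ h6 h5.le hk1
  rwa [zpow_one] at h9

theorem yq1_nsmul {m : Pt (WAB A B) Ω → Ω} (hm : Sys act π l N V m) {T : Pt (WAB A B) Ω}
    (hT : T ∈ Tor act π) (k : ℕ) : ∃ z : Ω, Hx act π N V z ∧ z ≠ 0 ∧ m (k • T) = m T ^ k * z ^ l := by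
  induction k with
  | zero =>
    obtain ⟨z, hz, hz0, he⟩ := hm.add 0 (zero_mem _) 0 (zero_mem _)
    have h0 := hm.ne 0 (zero_mem _)
    refine ⟨z⁻¹, hz.inv, inv_ne_zero hz0, ?_⟩
    rw [add_zero] at he
    have h1 : m 0 * z ^ l = 1 := by
      apply mul_left_cancel₀ h0
      rw [mul_one, ← mul_assoc]
      exact he.symm
    rw [zero_smul, pow_zero, one_mul, inv_pow]
    exact eq_inv_of_mul_eq_one_left h1
  | succ k ih =>
    obtain ⟨z₁, hz₁, hz₁0, he₁⟩ := ih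
    have hk : k • T ∈ Tor act π := nsmul_mem hT k
    obtain ⟨z, hz, hz0, he⟩ := hm.add _ hk _ hT
    refine ⟨z₁ * z, hz₁.mul hz, mul_ne_zero hz₁0 hz0, ?_⟩
    rw [succ_nsmul, he, he₁]
    ring

/-- Chunk YQ3 (S/M), PORT of UV.coef (LQ1.lean). The only change: φ is a Frobenius element with exponent q = l q': b = (φ⁻¹ u)^q', V (u - b^l) < 1; at the end V (φ x - x^q) < 1. -/
theorem UV.coef (U : UV A B Om j act mo ψ π l N V φ q n) {m : Pt (WAB A B) Ω → Ω} (hm : Sys act π l N V m) {T : Pt (WAB A B) Ω} (hT : T ∈ Tor act π)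
    (hvm : ∃ k : ℤ, V.valuation (m T) = V.valuation (l : Ω) ^ ((l : ℤ) * k)) :
    ∃ z x : Ω, Hx act π N V z ∧ z ≠ 0 ∧ Hx act π N V x ∧ V.valuation x ≤ 1 ∧ m T = z ^ l * (1 + l * x) ∧
      V.valuation (x ^ q - n * x) < 1 := by
  have halg : Algebra.IsAlgebraic F Ω := IsAlgClosure.isAlgebraic
  obtain ⟨-, -, -, h4, h5⟩ := U.val_l
  have hl := U.D.hl
  have hl5 := U.D.five
  have hL0 : (l : Ω) ≠ 0 := (Valuation.ne_zero_iff _).1 h4
  have hLp : 0 < V.valuation (l : Ω) := zero_lt_iff.2 h4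
  have hM0 := hm.ne T hT
  have hMx := hm.fx T hT
  obtain ⟨M, hMd⟩ : ∃ M : Ω, M = m T := ⟨_, rfl⟩
  rw [← hMd] at hM0 hMx ⊢
  -- the equation φ M = M^n z^l
  have hφM : ∃ z : Ω, Hx act π N V z ∧ z ≠ 0 ∧ φ M = M ^ n * z ^ l := by
    obtain ⟨z₁, hz₁, hz₁0, he₁⟩ := yq1_nsmul hm hT n
    obtain ⟨z₂, hz₂, hz₂0, he₂⟩ := hm.gal φ U.dec T hT
    rw [U.gal T hT, he₁] at he₂
    refine ⟨z₁ / z₂, hz₁.div hz₂, div_ne_zero hz₁0 hz₂0, ?_⟩
    rw [hMd, div_pow]
    field_simp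
    exact he₂.symm
  obtain ⟨z, hz, hz0, hφ⟩ := hφM
  obtain ⟨r', hvr⟩ := hvm
  obtain ⟨r, hr'⟩ : ∃ r : ℤ, r = (l : ℤ) * r' := ⟨_, rfl⟩
  have hr : V.valuation M = V.valuation (l : Ω) ^ r := by
    rw [hMd, hvr, hr']
  have hLx : Hx act π N V ((l : Ω) ^ r') := (Hx.nat l).zpow r'
  have hLr0 : (l : Ω) ^ r' ≠ 0 := zpow_ne_zero _ hL0
  obtain ⟨u, hud⟩ : ∃ u : Ω, u = M / ((l : Ω) ^ r') ^ l := ⟨_, rfl⟩
  have hux : Hx act π N V u := by
    rw [hud]
    exact hMx.div (hLx.pow l)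
  have hu1 : V.valuation u = 1 := by
    rw [hud, map_div₀, map_pow, map_zpow₀, hr, hr', ← zpow_natCast, ← zpow_mul, mul_comm r' (l : ℤ)]
    exact div_self (zpow_ne_zero _ h4)
  obtain ⟨q', hqq, hq'⟩ := U.ql
  obtain ⟨b', hbd⟩ : ∃ b' : Ω, b' = φ⁻¹ u := ⟨_, rfl⟩
  have hbx' : Hx act π N V b' := by
    rw [hbd]
    exact hux.dec U.D.cma U.dec.inv
  have hφb : φ b' = u := by
    rw [hbd, ← AlgEquiv.mul_apply, mul_inv_cancel]
    rfl
  have hb1' : V.valuation b' = 1 := by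
    rw [← Dec.val U.dec.2 b', hφb, hu1]
  obtain ⟨b, hbq⟩ : ∃ b : Ω, b = b' ^ q' := ⟨_, rfl⟩
  have hbx : Hx act π N V b := by
    rw [hbq]
    exact hbx'.pow q'
  have hb1 : V.valuation b = 1 := by
    rw [hbq, map_pow, hb1', one_pow]
  have hb0 : b ≠ 0 := by
    rintro rfl
    rw [map_zero] at hb1
    exact zero_ne_one hb1
  have hub : V.valuation (u - b ^ l) < 1 := by
    have h8 := U.frob b' ((V.valuation_le_one_iff b').1 hb1'.le)
    rw [hφb, hqq, mul_comm l q', pow_mul, ← hbq] at h8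
    exact h8
  obtain ⟨y, hyd⟩ : ∃ y : Ω, y = u / b ^ l - 1 := ⟨_, rfl⟩
  have hyx : Hx act π N V y := by
    rw [hyd]
    exact (hux.div (hbx.pow l)).sub Hx.one
  have hy1 : V.valuation y < 1 := by
    have e : y = (u - b ^ l) / b ^ l := by
      rw [hyd]
      field_simp
    rw [e, map_div₀, map_pow, hb1, one_pow, div_one]
    exact hub
  have hyl := U.step hyx hy1
  obtain ⟨x, hxd⟩ : ∃ x : Ω, x = y / l := ⟨_, rfl⟩
  have hxx : Hx act π N V x := by
    rw [hxd]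
    exact hyx.div (Hx.nat l)
  have hyx' : y = l * x := by
    rw [hxd]
    field_simp
  have hx1 : V.valuation x ≤ 1 := by
    rw [hxd, map_div₀]
    exact div_le_one_of_le₀ hyl zero_le
  have hub' : u = b ^ l * (1 + l * x) := by
    rw [← hyx', hyd]
    field_simp
    ring
  have hMw : M = ((l : Ω) ^ r' * b) ^ l * (1 + l * x) := by
    have h9 : M = ((l : Ω) ^ r') ^ l * u := by
      rw [hud]
      field_simp
    rw [h9, hub', mul_pow]
    ring
  refine ⟨(l : Ω) ^ r' * b, x, hLx.mul hbx, mul_ne_zero hLr0 hb0, hxx, hx1, hMw, ?_⟩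
  -- the congruence
  obtain ⟨w, hwd⟩ : ∃ w : Ω, w = (l : Ω) ^ r' * b := ⟨_, rfl⟩
  rw [← hwd] at hMw
  have hwx : Hx act π N V w := by
    rw [hwd]
    exact hLx.mul hbx
  have hw0 : w ≠ 0 := by
    rw [hwd]
    exact mul_ne_zero hLr0 hb0
  have hφw0 : φ w ≠ 0 := (map_ne_zero φ).2 hw0
  have hφl : φ (l : Ω) = l := map_natCast φ l
  have hφx1 : V.valuation (φ x) ≤ 1 := by
    rw [Dec.val U.dec.2 x]
    exact hx1
  obtain ⟨z', hz'd⟩ : ∃ z' : Ω, z' = w ^ n * z / φ w := ⟨_, rfl⟩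
  have hz'x : Hx act π N V z' := by
    rw [hz'd]
    exact ((hwx.pow n).mul hz).div (hwx.dec U.D.cma U.dec)
  have hkey : 1 + l * φ x = (1 + l * x) ^ n * z' ^ l := by
    have h10 : φ M = (φ w) ^ l * (1 + l * φ x) := by
      rw [hMw, map_mul, map_pow, map_add, map_mul, hφl, map_one]
    rw [hφ, hMw] at h10
    rw [hz'd, div_pow, mul_pow]
    have h11 : (φ w) ^ l ≠ 0 := pow_ne_zero _ hφw0
    field_simp
    have h12 : (w ^ l * (1 + l * x)) ^ n = (w ^ n) ^ l * (1 + l * x) ^ n := by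
      rw [mul_pow, ← pow_mul, ← pow_mul, mul_comm l n]
    rw [mul_comm, ← h10, h12]
    ring
  have hlx1 : V.valuation ((l : Ω) * x) ≤ V.valuation (l : Ω) := by
    rw [map_mul]
    exact mul_le_of_le_one_right' hx1
  have hlx2 : V.valuation ((l : Ω) * φ x) ≤ V.valuation (l : Ω) := by
    rw [map_mul]
    exact mul_le_of_le_one_right' hφx1
  have hu2 : V.valuation (1 + (l : Ω) * x) = 1 := by
    have h13 : V.valuation ((l : Ω) * x) < V.valuation (1 : Ω) := by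
      rw [map_one]
      exact lt_of_le_of_lt hlx1 h5
    have h14 := V.valuation.map_add_eq_of_lt_left h13
    rwa [map_one] at h14
  have hest := LQ1_est (V := V) (y := (l : Ω) * x) (hlx1.trans h5.le) n
  have hest' : V.valuation ((1 + (l : Ω) * x) ^ n - 1 - n * (l * x)) ≤ V.valuation (l : Ω) ^ 2 :=
    hest.trans (pow_le_pow_left₀ zero_le hlx1 2)
  have hnl : V.valuation ((n : Ω) * (l * x)) ≤ V.valuation (l : Ω) := by
    rw [map_mul]
    exact (mul_le_of_le_one_left' ((V.valuation_le_one_iff _).2 (natCast_mem V n))).trans hlx1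
  have hl2 : V.valuation (l : Ω) ^ 2 ≤ V.valuation (l : Ω) := by
    rw [sq]
    exact mul_le_of_le_one_right' h5.le
  have hz1 : V.valuation (z' ^ l - 1) ≤ V.valuation (l : Ω) := by
    have e : (1 + l * x) ^ n * (z' ^ l - 1) =
        l * φ x - (((1 + (l : Ω) * x) ^ n - 1 - n * (l * x)) + n * (l * x)) := by
      linear_combination -hkey
    have h15 : V.valuation ((1 + l * x) ^ n * (z' ^ l - 1)) ≤ V.valuation (l : Ω) := by
      rw [e]
      refine Valuation.map_sub_le _ hlx2 (Valuation.map_add_le _ (hest'.trans hl2) hnl)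
    rwa [map_mul, map_pow, hu2, one_pow, one_mul] at h15
  have hz'1 : V.valuation z' ≤ 1 := by
    have h16 : V.valuation (z' ^ l) ≤ 1 := by
      have e : z' ^ l = (z' ^ l - 1) + 1 := by ring
      rw [e]
      refine Valuation.map_add_le _ (hz1.trans h5.le) ?_
      rw [map_one]
    rw [map_pow] at h16
    exact (pow_le_one_iff_of_nonneg zero_le hl.ne_zero).1 h16
  have hz2 := LQ1_root hl hl5 h5 hz'1 (lt_of_le_of_lt hz1 h5)
  have hz3 := U.step (hz'x.sub Hx.one) hz2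
  have hz4 := LQ1_up hz3 h5
  have hfin : V.valuation ((l : Ω) * (φ x - n * x)) ≤ V.valuation (l : Ω) ^ 2 := by
    have e : (l : Ω) * (φ x - n * x) = ((1 + (l : Ω) * x) ^ n - 1 - n * (l * x)) +
        (1 + l * x) ^ n * (z' ^ l - 1) := by
      linear_combination hkey
    rw [e]
    refine Valuation.map_add_le _ hest' ?_
    rw [map_mul, map_pow, hu2, one_pow, one_mul]
    exact hz4
  rw [map_mul, sq] at hfin
  have hfin2 : V.valuation (φ x - n * x) ≤ V.valuation (l : Ω) := le_of_mul_le_mul_left hfin hLp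
  have hfr := U.frob x ((V.valuation_le_one_iff x).1 hx1)
  have e : x ^ q - n * x = (φ x - n * x) - (φ x - x ^ q) := by ring
  rw [e]
  exact Valuation.map_sub_lt _ (lt_of_le_of_lt hfin2 h5) hfr

/-- Chunk YQ4 (S), PORT of UV.fix and UV.zero (LQ3.lean; zero needs only D and nd). -/
theorem UV.fix (U : UV A B Om j act mo ψ π l N V φ q n) (he : Pairing A B act π l e) {y z v : Ω} (hz : Hx act π N V z) (h0 : z ≠ 0)
    (hv : Hx act π N V v) (h : y ^ l = z ^ l * v) (h1 : V.valuation (v - 1) ≤ V.valuation (l : Ω) ^ 2)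
    {s : Ω ≃ₐ[F] Ω} (hs : JV act π V s) : s y = y := by
  have hΩ : IsAlgClosed Ω := IsAlgClosure.isAlgClosed F
  have hc0 : CharZero Ω := charZero_of_injective_algebraMap (algebraMap F Ω).injective
  obtain ⟨_, _, _, _, hl1⟩ := U.val_l
  have hD : DecN N V s := U.nb.dec hl1 hs.1
  have hDT : DT act π N V s := ⟨hD, hs.2.1⟩
  have h2 : (y / z) ^ l = v := by
    rw [div_pow, h, mul_div_cancel_left₀ _ (pow_ne_zero l h0)]
  have h3 := H13Z.fix_strict V U.D.hl (by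
    have := U.D.five
    omega) hl1 h2 h1 hD.2 (fun ζ hζ => JV.mu U.D he hs ζ hζ) (hv s hDT)
  rw [map_div₀ s, hz s hDT] at h3
  exact (div_left_inj' h0).1 h3

theorem yq4_zero (D : Dat A B Om j act mo ψ π l) (he : Pairing A B act π l e) {X : Pt (WAB A B) Ω} (hX : X ∈ Tor act (cj π)) :
    e X 0 = 1 := by
  have h1 := he.add_right X hX 0 (zero_mem _) 0 (zero_mem _)
  rw [add_zero] at h1
  have h2 := lk_ne D he hX (zero_mem (Tor act π))
  exact (left_eq_mul₀ h2).1 h1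

theorem yq4_nsmul (D : Dat A B Om j act mo ψ π l) (he : Pairing A B act π l e) {X T : Pt (WAB A B) Ω} (hX : X ∈ Tor act (cj π))
    (hT : T ∈ Tor act π) (j : ℕ) : e (j • X) T = e X T ^ j := by
  induction j with
  | zero =>
    rw [zero_nsmul, pow_zero]
    have h1 := he.add_left 0 (zero_mem _) 0 (zero_mem _) T hT
    rw [add_zero] at h1
    have h2 := lk_ne D he (zero_mem (Tor act (cj π))) hT
    exact (left_eq_mul₀ h2).1 h1
  | succ j ih =>
    rw [succ_nsmul, he.add_left _ (nsmul_mem hX j) X hX T hT, ih, pow_succ]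

theorem UV.zero (U : UV A B Om j act mo ψ π l N V φ q n) (he : Pairing A B act π l e) {T₀ : Pt (WAB A B) Ω} (hT : T₀ ∈ Tor act π) (h0 : T₀ ≠ 0)
    {X : Pt (WAB A B) Ω} (hX : X ∈ Tor act (cj π)) (h : e X T₀ = 1) : X = 0 := by
  refine he.nondeg X hX fun T hTT => ?_
  have hcard : Nat.card (Tor act π) = l := by
    obtain ⟨h1, _⟩ := gi_gen U.D.cma π U.D.pr
    rw [h1]
    rcases dichotomy U.D.hl U.D.dta.unr U.D.pr U.D.dvd with ⟨h, -, -⟩ | ⟨-, -, h, -⟩
    · exact absurd h.symm.dvd U.nd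
    · exact h
  have hf : Fact (Nat.card (Tor act π)).Prime := ⟨by rw [hcard]; exact U.D.hl⟩
  let H : AddSubgroup (Tor act π) :=
    { carrier := {S | e X S = 1}
      zero_mem' := yq4_zero U.D he hX
      add_mem' := by
        intro S S' hS hS'
        show e X ((S + S' : Tor act π) : Pt (WAB A B) Ω) = 1
        have h1 : ((S + S' : Tor act π) : Pt (WAB A B) Ω) = (S : Pt (WAB A B) Ω) + S' := rfl
        rw [h1, he.add_right X hX S S.2 S' S'.2]
        have h2 : e X S = 1 := hS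
        have h3 : e X S' = 1 := hS'
        rw [h2, h3, one_mul]
      neg_mem' := by
        intro S hS
        show e X ((-S : Tor act π) : Pt (WAB A B) Ω) = 1
        have h1 := he.add_right X hX S S.2 ((-S : Tor act π) : Pt (WAB A B) Ω) (-S : Tor act π).2
        have h2 : e X S = 1 := hS
        have h3 : (S : Pt (WAB A B) Ω) + ((-S : Tor act π) : Pt (WAB A B) Ω) = 0 := by
          have : ((-S : Tor act π) : Pt (WAB A B) Ω) = -(S : Pt (WAB A B) Ω) := rfl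
          rw [this, add_neg_cancel]
        rw [h3, yq4_zero U.D he hX, h2, one_mul] at h1
        exact h1.symm }
  rcases AddSubgroup.eq_bot_or_eq_top_of_prime_card H with h1 | h1
  · exfalso
    have h2 : (⟨T₀, hT⟩ : Tor act π) ∈ H := h
    rw [h1, AddSubgroup.mem_bot] at h2
    exact h0 (congrArg Subtype.val h2)
  · have h2 : (⟨T, hTT⟩ : Tor act π) ∈ H := by
      rw [h1]
      trivial
    exact h2

end H13X
end
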