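import Mathlib
import Pool.Agent.Lib.H1M.PP.D_H13R_D
import Pool.Agent.Lib.H1M.PP.M002
import Pool.Agent.Lib.H1M.PP.M003
import Pool.Agent.Lib.H1M.PP.M007
import Pool.Agent.Lib.H1M.PP.M038
import Pool.Agent.Lib.H1M.PP.M041
import Pool.Agent.Lib.H1M.PP.M044
import Pool.Agent.Lib.H1M.PP.M048
import Pool.Agent.Lib.H1M.PP.M054
import Pool.Agent.Lib.H1M.PP.M062
import Pool.Agent.Lib.H1M.PP.M064
import Pool.Agent.Lib.H1M.PP.M066
import Pool.Agent.Lib.H1M.PP.M069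
import Pool.Agent.Lib.H1M.PP.M070
import Pool.Agent.Lib.H1M.PP.M071
import Pool.Agent.Lib.H1M.PP.M073
import Pool.Agent.Lib.H1M.PP.M076
import Pool.Agent.Lib.H1M.PP.M080

/-! Merged copies (to shorten the build) of Lib.H13D.C1, Lib.H13D.P2, Lib.H13D.H2, Lib.H13R.C2, Lib.H13R.C3, Lib.H13D.M0, Lib.H55W.L4A, Lib.H55W.L4B, Lib.H55W.B4, Lib.H55W.B8, Lib.H55W.L3. -/

-- from Lib.H13D.C1
section

/-! # H13D, part C: the cyclotomic character -/

open NumberField IsDedekindDomain WeierstrassCurve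

namespace H13D

open H55P (IQ embF eF LF Per IsHecke Pt ac Inert Dec Nm)
open H35P (WAB Ker tt GoodW IntW)
open H55K

variable {F : Type} [Field F] [NumberField F] [IQ F] {A B : F} {Om : ℂ} {Ω : Type} [Field Ω] [DecidableEq Ω]
  [Algebra F Ω] {j : Ω →+* ℂ} {act : 𝓞 F →+* AddMonoid.End (Pt (WAB A B) Ω)}

/-- Chunk C1 (S/M). S from H55K.gv_fin (G10C.lean). v = span {β} (IQ.pid: principal; β prime, Nm β = absNorm v), V(β) < 1. H55K.frob_gen (G8C.lean): γ associated to β (so Nm γ = Nm β) with Ker V (act γ X - ac s X) for all X. For n • T = 0, V(n) = 1: n • (act γ T - ac s T) = 0, H55K.ker_tors: act γ T = ac s T. See the proof of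
H55K.dta_frob (G10C.lean). -/
theorem frob_fin (h : CMA F A B Om j act) : ∃ S : Set (HeightOneSpectrum (𝓞 F)), S.Finite ∧
    ∀ v ∉ S, (Ideal.absNorm v.asIdeal).Prime →
    ∀ V : ValuationSubring Ω, (∀ a : 𝓞 F, a ∈ v.asIdeal → V.valuation (ak Ω a) < 1) →
      ∀ s : Ω ≃ₐ[F] Ω, (∀ x ∈ V, V.valuation (s x - x ^ Ideal.absNorm v.asIdeal) < 1) →
        ∃ γ : 𝓞 F, Nm γ = Ideal.absNorm v.asIdeal ∧ ∀ n : ℕ, V.valuation (n : Ω) = 1 → ∀ T : Pt (WAB A B) Ω, n • T = 0 →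
          ac (WAB A B) s T = act γ T := by
  obtain ⟨S₁, f₁, g₁⟩ := gv_fin (A := A) (B := B) h.disc Ω
  refine ⟨S₁, f₁, fun v v₁ hpr V hV s hs => ?_⟩
  obtain ⟨hG, hA', hB'⟩ := g₁ v v₁ V hV
  obtain ⟨β, hgen⟩ : ∃ β : 𝓞 F, Ideal.span {β} = v.asIdeal := by
    obtain ⟨β, hβ⟩ := (IQ.pid (F := F)).principal v.asIdeal
    exact ⟨β, hβ.symm⟩
  have hβ0 : β ≠ 0 := by
    intro h0
    apply v.ne_bot
    rw [← hgen, h0, Ideal.span_singleton_eq_bot]
  have hβ : Prime β := by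
    rw [← Ideal.span_singleton_prime hβ0, hgen]
    exact v.isPrime
  have hβv : β ∈ v.asIdeal := by
    have h1 := Ideal.mem_span_singleton_self β
    rw [hgen] at h1
    exact h1
  have hNm : Nm β = Ideal.absNorm v.asIdeal := by
    unfold Nm
    rw [hgen]
  obtain ⟨γ, hγ, hker⟩ := frob_gen h hG hβ (hV _ hβv) (by rw [hNm]; exact hpr) hA' hB' s
    (by rw [hNm]; exact hs)
  refine ⟨γ, ?_, fun n hn T hT => ?_⟩
  · rw [← hNm]
    unfold Nm
    rw [(Ideal.span_singleton_eq_span_singleton.2 hγ)]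
  · have hK := hker T
    have hz : n • (act γ T - ac (WAB A B) s T) = 0 := by
      rw [smul_sub, ← map_nsmul, ← map_nsmul, hT, map_zero, map_zero, sub_zero]
    have h0 := ker_tors hG n hn hz hK
    exact (sub_eq_zero.1 h0).symm

end H13D
end

-- from Lib.H13D.P2
section

/-! # H13D, part P: arithmetic of the field -/

open NumberField IsDedekindDomain WeierstrassCurve

namespace H13D

open H55P (IQ embF eF LF Per IsHecke Pt ac Inert Dec Nm)
open H35P (WAB Ker tt GoodW IntW)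
open H55K

variable {F : Type} [Field F] [NumberField F] [IQ F] {δ : 𝓞 F} {D : ℕ}

/-- Chunk P2 (M). x + cj x = a is an integer (H55K.TQ.rf_tr in RF.lean). x - cj x is divisible by δ (x and cj x are congruent to the same integer n modulo δ: ex_int, cj δ = -δ): x - cj x = δ w, and cj w = w (apply cj: cj x - x = -δ cj w; δ ≠ 0). w is an integer: 2 w = w + cj w = t is an integer (rf_tr), and w * w = Nm w (mul_cj) is an integer n, t^2 = 4 n, so t is even, w = t/2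
(characteristic 0, 2 ≠ 0). -/
theorem two_mul_eq (hd : Del F δ D) (x : 𝓞 F) : ∃ a b : ℤ, 2 * x = a + b * δ := by
  obtain ⟨a, ha⟩ := TQ.rf_tr x
  obtain ⟨n, c, hc⟩ := ex_int hd x
  obtain ⟨b, hb⟩ := TQ.rf_tr c
  refine ⟨a, b, ?_⟩
  have h1 := congrArg cj hc
  rw [map_sub, map_mul, cj_int, cj_del hd] at h1
  linear_combination ha + hc - h1 + δ * hb

/-- Chunk P2 (S/M). 2 u = a + b δ (two_mul_eq); Nm u = 1 (u * cj u = Nm u is a unit of 𝓞 F and a natural number; or Ideal.absNorm of the unit ideal), so 4 = (a + b δ)(a - b δ) = a^2 + D b^2 with D ≥ 7 (D > 3 prime, D % 4 = 3): b = 0, a = 2 or -2. -/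
theorem unit_pm (hd : Del F δ D) (u : (𝓞 F)ˣ) : (u : 𝓞 F) = 1 ∨ (u : 𝓞 F) = -1 := by
  obtain ⟨a, b, h1⟩ := two_mul_eq hd (u : 𝓞 F)
  have h2 := congrArg cj h1
  rw [map_mul, map_ofNat, map_add, map_mul, cj_int, cj_int, cj_del hd] at h2
  have h3 : Nm (u : 𝓞 F) = 1 := by
    unfold Nm
    rw [Ideal.absNorm_eq_one_iff, Ideal.span_singleton_eq_top]
    exact u.isUnit
  have h4 := mul_cj (u : 𝓞 F)
  rw [h3, Nat.cast_one] at h4
  have h5 : ((a ^ 2 + D * b ^ 2 : ℤ) : 𝓞 F) = ((4 : ℤ) : 𝓞 F) := by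
    push_cast
    have h6 := hd.sq
    linear_combination 4 * h4 - 2 * cj (u : 𝓞 F) * h1 - (a + b * δ) * h2 + b ^ 2 * h6
  have h6 : a ^ 2 + D * b ^ 2 = 4 := Int.cast_injective h5
  have hD : (7 : ℤ) ≤ D := by
    have h7 := hd.big
    have h8 := hd.mod
    omega
  have hb : b = 0 := by
    by_contra hb
    have h7 : 1 ≤ b ^ 2 := by
      have := pow_pos (abs_pos.2 hb) 2
      rw [sq_abs] at this
      omega
    nlinarith [sq_nonneg a]
  rw [hb] at h6 h1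
  have ha : a = 2 ∨ a = -2 := by
    have h7 : (a - 2) * (a + 2) = 0 := by linear_combination h6
    rcases mul_eq_zero.1 h7 with h8 | h8
    · left; linarith
    · right; linarith
  have h20 : (2 : 𝓞 F) ≠ 0 := two_ne_zero
  rcases ha with ha | ha
  · left
    apply mul_left_cancel₀ h20
    rw [h1, ha]
    push_cast
    ring
  · right
    apply mul_left_cancel₀ h20
    rw [h1, ha]
    push_cast
    ring

/-- Chunk P2 (S). Ideal.span_singleton_eq_span_singleton, unit_pm. -/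
theorem span_pm (hd : Del F δ D) {x y : 𝓞 F} (h : Ideal.span {x} = Ideal.span {y}) : y = x ∨ y = -x := by
  obtain ⟨u, hu⟩ := Ideal.span_singleton_eq_span_singleton.1 h
  rcases unit_pm hd u with h1 | h1
  · left
    rw [← hu, h1, mul_one]
  · right
    rw [← hu, h1, mul_neg, mul_one]

end H13D
end

-- from Lib.H13D.H2
section

/-! # H13D, part H: the Hecke character -/

open NumberField IsDedekindDomain WeierstrassCurve

namespace H13D

open H55P (IQ embF eF LF Per IsHecke Pt ac Inert Dec Nm)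
open H55K

variable {F : Type} [Field F] [NumberField F] [IQ F] {δ : 𝓞 F} {D : ℕ}

/-- Chunk H2 (S/M). For x with Nm x prime to N: δ does not divide x (D = Nm δ divides N), so the value is 1 or -1 (lam_pm, hχ.pm). -/
theorem eps_pm (hd : Del F δ D) {N : ℕ} (hDN : D ∣ N) {d : ℤ} {χ : ℕ → ℤ} (hχ : Kron d N χ) {x : 𝓞 F} (hx : (Nm x).Coprime N) :
    lam δ D x * χ (Nm x) = 1 ∨ lam δ D x * χ (Nm x) = -1 := by
  have h1 : ¬ δ ∣ x := by
    rintro ⟨c, rfl⟩
    rw [Nm_mul, Nm_del hd] at hx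
    have h2 : D.Coprime N := Nat.Coprime.coprime_mul_right hx
    have h3 := Nat.Coprime.eq_one_of_dvd h2 hDN
    exact hd.prime.one_lt.ne' h3
  rcases lam_pm hd h1 with h2 | h2 <;> rcases hχ.pm _ hx with h3 | h3 <;> rw [h2, h3]
  · left; norm_num
  · right; norm_num
  · right; norm_num
  · left; norm_num

/-- Chunk H2 (M). THE HECKE CHARACTER. M = span {N^3} is not bottom (N ≠ 0: D divides N and N ≠ 0) and not top (the prime D divides N). ε(x) = lam x * χ (Nm x) for x with Nm x prime to N (cop_iff): multiplicative (lam_mul, hχ.mul, Nm_mul), ε(-x) = -ε(x) (lam_neg, Nm (-x) = Nm x), ε(x) = ε(y) if x - y is in M (δ divides D, which divides N: lam_congr; Nm_congr, hχ.per).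
ψ(J) = ε(x) x for J = span {x} (IQ.pid; a generator is unique up to the sign: span_pm, and (-1)(-1) = 1) if J is prime to M, and 0 otherwise: a monoid homomorphism with zero (J K is prime to M iff J and K are; 0 is not). gen: ε(x) = ± 1. per: ε(x) = ε(y). If H55W/HB.lean (Hecke builder of helper55) is on main use it with f x = ε(x). -/
theorem exists_psi (hd : Del F δ D) {N : ℕ} (hN : N ≠ 0) (hDN : D ∣ N) {d : ℤ} {χ : ℕ → ℤ} (hχ : Kron d N χ) :
    ∃ ψ : Ideal (𝓞 F) →*₀ 𝓞 F, IsHecke (Ideal.span {(N : 𝓞 F) ^ 3}) ψ ∧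
      ∀ x : 𝓞 F, (Nm x).Coprime N → ψ (Ideal.span {x}) = ((lam δ D x * χ (Nm x) : ℤ) : 𝓞 F) * x := by
  have hbot : Ideal.span {(N : 𝓞 F) ^ 3} ≠ ⊥ := by
    rw [Ne, Ideal.span_singleton_eq_bot]
    exact pow_ne_zero 3 (Nat.cast_ne_zero.2 hN)
  have htop : Ideal.span {(N : 𝓞 F) ^ 3} ≠ ⊤ := by
    intro h
    have h1 : IsCoprime (Ideal.span {δ}) (Ideal.span {(N : 𝓞 F) ^ 3}) := by
      rw [h, ← Ideal.one_eq_top]
      exact isCoprime_one_right
    rw [cop_iff, Nm_del hd] at h1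
    exact hd.prime.one_lt.ne' (Nat.Coprime.eq_one_of_dvd h1 hDN)
  have hNneg : ∀ x : 𝓞 F, Nm (-x) = Nm x := by
    intro x
    unfold Nm
    rw [Ideal.span_singleton_neg]
  have key : ∃ ψ : Ideal (𝓞 F) →*₀ 𝓞 F, IsHecke (Ideal.span {(N : 𝓞 F) ^ 3}) ψ ∧
      ∀ x, IsCoprime (Ideal.span {x}) (Ideal.span {(N : 𝓞 F) ^ 3}) → ψ (Ideal.span {x}) =
        (fun x => ((lam δ D x * χ (Nm x) : ℤ) : 𝓞 F)) x * x := by
    refine H55W.exists_hecke (Ideal.span {(N : 𝓞 F) ^ 3}) hbot htop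
      (fun x => ((lam δ D x * χ (Nm x) : ℤ) : 𝓞 F)) ?_ ?_ ?_ ?_
    · intro x hx
      rcases eps_pm hd hDN hχ ((cop_iff N x).1 hx) with h | h
      · show IsUnit (((lam δ D x * χ (Nm x) : ℤ) : 𝓞 F))
        rw [h]
        simp
      · show IsUnit (((lam δ D x * χ (Nm x) : ℤ) : 𝓞 F))
        rw [h]
        simp
    · intro x y hx hy
      show ((lam δ D (x * y) * χ (Nm (x * y)) : ℤ) : 𝓞 F) = ((lam δ D x * χ (Nm x) : ℤ) : 𝓞 F) * ((lam δ D y * χ (Nm y) : ℤ) : 𝓞 F)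
      rw [lam_mul hd, Nm_mul, hχ.mul _ _ ((cop_iff N x).1 hx) ((cop_iff N y).1 hy)]
      push_cast
      ring
    · intro u x hu hx
      show ((lam δ D (u * x) * χ (Nm (u * x)) : ℤ) : 𝓞 F) * u = ((lam δ D x * χ (Nm x) : ℤ) : 𝓞 F)
      obtain ⟨w, rfl⟩ := hu
      rcases unit_pm hd w with h | h
      · rw [h, one_mul, mul_one]
      · rw [h, neg_one_mul, lam_neg hd, hNneg]
        push_cast
        ring
    · intro x y hx hy hxy
      show ((lam δ D x * χ (Nm x) : ℤ) : 𝓞 F) = ((lam δ D y * χ (Nm y) : ℤ) : 𝓞 F)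
      have h1 : δ ∣ x - y := by
        obtain ⟨c, hc⟩ := Ideal.mem_span_singleton.1 hxy
        have h3 : δ ∣ (N : 𝓞 F) := by
          obtain ⟨e, he⟩ := hDN
          refine ⟨-δ * e, ?_⟩
          rw [he]
          push_cast
          have := hd.sq
          linear_combination (e : 𝓞 F) * this
        rw [hc]
        exact dvd_mul_of_dvd_left (dvd_pow h3 (by norm_num)) _
      rw [lam_congr hd h1, hχ.per _ _ ((cop_iff N x).1 hx) ((cop_iff N y).1 hy) (Nm_congr N hxy)]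
  obtain ⟨ψ, h1, h2⟩ := key
  exact ⟨ψ, h1, fun x hx => h2 x ((cop_iff N x).2 hx)⟩

end H13D
end

-- from Lib.H13R.C2
section

/-! # H13R: a point of order p fixed by the inertia group over M -/

open NumberField IsDedekindDomain WeierstrassCurve

namespace H13R

open H55P (IQ embF eF LF Per IsHecke Pt ac Inert Dec Nm UnitP)
open H35P (WAB Ker tt GoodW IntW)
open H55K.MG (VC Crd)
open H55K H55K.TQ

variable {F : Type} [Field F] [NumberField F] {W₀ : WeierstrassCurve (𝓞 F)} {p : ℕ}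

omit [NumberField F] in
/-- Transport of a point of order p along an equality of curves. -/
theorem c2_tr {M Ω : Type} [Field M] [Field Ω] [DecidableEq Ω] [Algebra F Ω] [Algebra M Ω]
    {W₁ : WeierstrassCurve F} {W₂ : WeierstrassCurve M} (h : W₁⁄Ω = W₂⁄Ω) {p : ℕ} {T : Pt W₁ Ω} (hT : p • T = 0)
    (h0 : T ≠ 0) : ∃ T' : Pt W₂ Ω, p • T' = 0 ∧ T' ≠ 0 ∧ xc T' = xc T ∧ yc T' = yc T := by
  have key : ∀ (E₁ E₂ : WeierstrassCurve Ω) (_ : E₁ = E₂) (T : E₁.toAffine.Point), p • T = 0 → T ≠ 0 →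
      ∃ T' : E₂.toAffine.Point, p • T' = 0 ∧ T' ≠ 0 ∧ xc T' = xc T ∧ yc T' = yc T := by
    intro E₁ E₂ hE T hT h0
    subst hE
    exact ⟨T, hT, h0, rfl, rfl⟩
  exact key _ _ h T hT h0

/-- Chunk C2 (M). nos_up (T5.lean) and descent (T7B.lean) for the number field M in place of F (they are stated for any number field F and Ω an algebraic closure; Ω is an algebraic closure of M, g : Ω ≃ₐ[M] Ω gives g.restrictScalars F in M.fixingSubgroup), for the curve (WAB A B)⁄M = WAB A B over M (map_id of coefficients; ((WAB A B)⁄M)⁄Ω = (WAB A B)⁄Ω: transport the point T: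
equal curves, T = some x y; or cast), then good_of_V (T9C.lean) for M and the curve W₀⁄(𝓞 M) (its c₄, c₆ are the images; ((W₀⁄(𝓞 M))⁄M) = ((W₀⁄F)⁄M) by map_map): GoodAt ((W₀⁄F)⁄M) v, against hB. jj: c₄^3 = j₁ Δ for WAB A B as in T10.lean (y3_j), image in Ω; V contains the integers (t8_le). V(p) = 1: hV. -/
theorem core_bad (hΔ0 : W₀.Δ ≠ 0) (hj : ∃ j₀ : 𝓞 F, W₀.c₄ ^ 3 = j₀ * W₀.Δ) (hp : p.Prime) (h5 : 5 ≤ p) {A B : F}
    (hA : A = -(algebraMap (𝓞 F) F W₀.c₄) / 48) (hB' : B = -(algebraMap (𝓞 F) F W₀.c₆) / 864)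
    (M : IntermediateField F (AlgebraicClosure F)) [NumberField M] [DecidableEq (AlgebraicClosure F)] (hB : BadM W₀ M)
    {v : HeightOneSpectrum (𝓞 M)} (hΔ : algebraMap (𝓞 F) (𝓞 M) W₀.Δ ∈ v.asIdeal) {V : ValuationSubring (AlgebraicClosure F)}
    (hv : ∀ a : 𝓞 M, a ∈ v.asIdeal → V.valuation ((a : M) : AlgebraicClosure F) < 1)
    (hV : V.valuation (p : AlgebraicClosure F) = 1) {T : Pt (WAB A B) (AlgebraicClosure F)} (hT : p • T = 0) (h0 : T ≠ 0)
    (hfix : ∀ g ∈ M.fixingSubgroup, Inert V g → ac (WAB A B) g T = T) : False := by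
  have halg : Algebra.IsAlgebraic M (AlgebraicClosure F) := Algebra.IsAlgebraic.tower_top (K := F) M
  have hcl : IsAlgClosure M (AlgebraicClosure F) := ⟨inferInstance, halg⟩
  obtain ⟨W₁, hW₁⟩ : ∃ W₁ : WeierstrassCurve (𝓞 M), W₁ = W₀.map (algebraMap (𝓞 F) (𝓞 M)) := ⟨_, rfl⟩
  obtain ⟨A', hA'⟩ : ∃ A' : M, A' = algebraMap F M A := ⟨_, rfl⟩
  obtain ⟨B', hB''⟩ : ∃ B' : M, B' = algebraMap F M B := ⟨_, rfl⟩
  have hc4 : algebraMap (𝓞 M) M W₁.c₄ = algebraMap F M (algebraMap (𝓞 F) F W₀.c₄) := by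
    rw [hW₁, WeierstrassCurve.map_c₄, ← IsScalarTower.algebraMap_apply, ← IsScalarTower.algebraMap_apply]
  have hc6 : algebraMap (𝓞 M) M W₁.c₆ = algebraMap F M (algebraMap (𝓞 F) F W₀.c₆) := by
    rw [hW₁, WeierstrassCurve.map_c₆, ← IsScalarTower.algebraMap_apply, ← IsScalarTower.algebraMap_apply]
  have hA1 : A' = -(algebraMap (𝓞 M) M W₁.c₄) / 48 := by
    rw [hc4, hA', hA, map_div₀, map_neg, map_ofNat]
  have hB1 : B' = -(algebraMap (𝓞 M) M W₁.c₆) / 864 := by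
    rw [hc6, hB'', hB', map_div₀, map_neg, map_ofNat]
  have hW1Δ : W₁.Δ = algebraMap (𝓞 F) (𝓞 M) W₀.Δ := by
    rw [hW₁, WeierstrassCurve.map_Δ]
  have hW1c : W₁.c₄ = algebraMap (𝓞 F) (𝓞 M) W₀.c₄ := by
    rw [hW₁, WeierstrassCurve.map_c₄]
  have hΔ1 : W₁.Δ ≠ 0 := by
    rw [hW1Δ]
    exact (map_ne_zero_iff _ (FaithfulSMul.algebraMap_injective (𝓞 F) (𝓞 M))).2 hΔ0
  have hd := y3_ne W₁ hA1 hB1 hΔ1
  have hcur : (WAB A B)⁄(AlgebraicClosure F) = (WAB A' B')⁄(AlgebraicClosure F) := by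
    have e1 : algebraMap M (AlgebraicClosure F) A' = algebraMap F (AlgebraicClosure F) A := by
      rw [hA', ← IsScalarTower.algebraMap_apply]
    have e2 : algebraMap M (AlgebraicClosure F) B' = algebraMap F (AlgebraicClosure F) B := by
      rw [hB'', ← IsScalarTower.algebraMap_apply]
    apply WeierstrassCurve.ext
    · change algebraMap F (AlgebraicClosure F) 0 = algebraMap M (AlgebraicClosure F) 0
      rw [map_zero, map_zero]
    · change algebraMap F (AlgebraicClosure F) 0 = algebraMap M (AlgebraicClosure F) 0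
      rw [map_zero, map_zero]
    · change algebraMap F (AlgebraicClosure F) 0 = algebraMap M (AlgebraicClosure F) 0
      rw [map_zero, map_zero]
    · exact e1.symm
    · exact e2.symm
  obtain ⟨T', hT', h0', hx', hy'⟩ := c2_tr hcur hT h0
  have hfix' : ∀ g : AlgebraicClosure F ≃ₐ[M] AlgebraicClosure F, Inert V g → ac (WAB A' B') g T' = T' := by
    intro g hg
    have h1 : g.restrictScalars F ∈ M.fixingSubgroup := by
      rw [IntermediateField.mem_fixingSubgroup_iff]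
      intro x hx
      exact g.commutes ⟨x, hx⟩
    have h2 : Inert V (g.restrictScalars F) := fun x hx => hg x hx
    have h3 := hfix _ h1 h2
    obtain ⟨a1, a2, -⟩ := MG.ac_crd (W := WAB A B) (g.restrictScalars F) T
    obtain ⟨b1, b2, b3⟩ := MG.ac_crd (W := WAB A' B') g T'
    rw [h3] at a1 a2
    refine pt_ext (fun h => h0' (b3.1 h)) h0' ?_ ?_
    · rw [b1, hx']
      exact a1.symm
    · rw [b2, hy']
      exact a2.symm
  have hΔA : (WAB A' B').Δ ≠ 0 := by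
    have e : (WAB A' B').Δ = -16 * (4 * A' ^ 3 + 27 * B' ^ 2) := by
      unfold WAB WeierstrassCurve.Δ WeierstrassCurve.b₂ WeierstrassCurve.b₄ WeierstrassCurve.b₆ WeierstrassCurve.b₈
      ring
    rw [e]
    exact mul_ne_zero (by norm_num) hd
  have hj' : ∃ j₀ : 𝓞 M, W₁.c₄ ^ 3 = j₀ * W₁.Δ := by
    obtain ⟨j₀, hj₀⟩ := hj
    refine ⟨algebraMap (𝓞 F) (𝓞 M) j₀, ?_⟩
    rw [hW1c, hW1Δ, ← map_pow, hj₀, map_mul]
  obtain ⟨j₁, hj₁⟩ := y3_j W₁ hA1 hB1 hj'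
  have hc4' : (WAB A' B').c₄ ^ 3 = (j₁ : M) * (WAB A' B').Δ := by
    have e1 : (WAB A' B').Δ = -16 * (4 * A' ^ 3 + 27 * B' ^ 2) := by
      unfold WAB WeierstrassCurve.Δ WeierstrassCurve.b₂ WeierstrassCurve.b₄ WeierstrassCurve.b₆ WeierstrassCurve.b₈
      ring
    have e2 : (WAB A' B').c₄ = -48 * A' := by
      unfold WAB WeierstrassCurve.c₄ WeierstrassCurve.b₂ WeierstrassCurve.b₄
      ring
    rw [e1, e2]
    linear_combination (16 : M) * hj₁
  have hjj : ((WAB A' B')⁄(AlgebraicClosure F)).c₄ ^ 3 =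
      ak (AlgebraicClosure F) j₁ * ((WAB A' B')⁄(AlgebraicClosure F)).Δ := by
    have e1 : ((WAB A' B')⁄(AlgebraicClosure F)).c₄ = algebraMap M (AlgebraicClosure F) (WAB A' B').c₄ :=
      WeierstrassCurve.map_c₄ _ _
    have e2 : ((WAB A' B')⁄(AlgebraicClosure F)).Δ = algebraMap M (AlgebraicClosure F) (WAB A' B').Δ :=
      WeierstrassCurve.map_Δ _ _
    rw [e1, e2, ← map_pow, hc4', map_mul]
  have hv' : ∀ a : 𝓞 M, a ∈ v.asIdeal → V.valuation (ak (AlgebraicClosure F) a) < 1 := hv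
  have hdes := descent hv' (nos_up hΔA (t8_le V j₁) hjj hp h5 hV hT' h0' hfix')
  have hgood := good_of_V W₁ hA1 hB1 v hv' hdes
  have hcur2 : W₁⁄M = (W₀⁄F)⁄M := by
    rw [hW₁]
    change (W₀.map (algebraMap (𝓞 F) (𝓞 M))).map (algebraMap (𝓞 M) M) = (W₀.map (algebraMap (𝓞 F) F)).map (algebraMap F M)
    rw [WeierstrassCurve.map_map, WeierstrassCurve.map_map, ← IsScalarTower.algebraMap_eq, ← IsScalarTower.algebraMap_eq]
  rw [hcur2] at hgood
  exact hB v hΔ hgood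

end H13R
end

-- from Lib.H13R.C3
section

/-! # H13R: bad primes stay bad in p-extensions of M -/

open NumberField IsDedekindDomain WeierstrassCurve

namespace H13R

open H55P (IQ embF eF LF Per IsHecke Pt ac Inert Dec Nm UnitP PExt)
open H35P (WAB Ker tt GoodW IntW)
open H55K.MG (VC Crd)
open H55K H55K.TQ

variable {F : Type} [Field F] [NumberField F] [IQ F] {W₀ : WeierstrassCurve (𝓞 F)} {Om : ℂ}
    {m : Ideal (𝓞 F)} {ψ : Ideal (𝓞 F) →*₀ 𝓞 F} {p : ℕ}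

/-- The prime below in a smaller intermediate field. -/
theorem c3_below {F : Type} [Field F] [NumberField F] {Ω : Type} [Field Ω] [Algebra F Ω] {M K : IntermediateField F Ω}
    [NumberField M] [NumberField K] (hMK : M ≤ K) (w : HeightOneSpectrum (𝓞 K)) :
    ∃ v : HeightOneSpectrum (𝓞 M), ∀ (a : 𝓞 M) (b : 𝓞 K), ((a : M) : Ω) = ((b : K) : Ω) → (a ∈ v.asIdeal ↔ b ∈ w.asIdeal) := by
  letI : Algebra M K := (IntermediateField.inclusion hMK).toRingHom.toAlgebra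
  refine ⟨⟨w.asIdeal.under (𝓞 M), inferInstance, mt Ideal.eq_bot_of_comap_eq_bot w.ne_bot⟩, fun a b hab => ?_⟩
  have h1 : algebraMap (𝓞 M) (𝓞 K) a = b := by
    apply RingOfIntegers.ext
    apply Subtype.ext
    rw [← hab]
    rfl
  change algebraMap (𝓞 M) (𝓞 K) a ∈ w.asIdeal ↔ _
  rw [h1]

/-- A point of order p. -/
theorem c3_point {A B : F} {Ω : Type} [Field Ω] [DecidableEq Ω] [Algebra F Ω] {j : Ω →+* ℂ}
    {act : 𝓞 F →+* AddMonoid.End (Pt (WAB A B) Ω)} (h : CMA F A B Om j act) (hp : p.Prime) :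
    ∃ T : Pt (WAB A B) Ω, p • T = 0 ∧ T ≠ 0 := by
  have hp0 : ((p : ℕ) : 𝓞 F) ≠ 0 := by
    intro h0
    exact hp.ne_zero (by exact_mod_cast h0)
  obtain ⟨T₀, hT₀, -, hT₁, -⟩ := h.gen ((p : ℕ) : 𝓞 F) hp0
  refine ⟨T₀, ?_, ?_⟩
  · have h1 : act ((p : ℕ) : 𝓞 F) T₀ = 0 := hT₀
    rw [map_natCast] at h1
    rw [← AddMonoid.End.natCast_apply]
    exact h1
  · intro h0
    have h1 := (hT₁ 1).1 (by rw [h0]; exact map_zero _)
    exact t8_dvd hp h1

/-- p is a unit at the primes of the discriminant. -/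
theorem c3_vp (hp : PrimeH F W₀ p) {Ω : Type} [Field Ω] [Algebra F Ω] {M : IntermediateField F Ω} [NumberField M]
    {V : ValuationSubring Ω} {v : HeightOneSpectrum (𝓞 M)}
    (hv : ∀ a : 𝓞 M, a ∈ v.asIdeal → V.valuation ((a : M) : Ω) < 1)
    (hΔ : algebraMap (𝓞 F) (𝓞 M) W₀.Δ ∈ v.asIdeal) : V.valuation (p : Ω) = 1 := by
  have hpv : (p : 𝓞 M) ∉ v.asIdeal := by
    intro h0
    obtain ⟨x, hx, y, hy, hxy⟩ := Ideal.isCoprime_iff_exists.1 hp.cop
    obtain ⟨c, rfl⟩ := Ideal.mem_span_singleton'.1 hx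
    obtain ⟨d, rfl⟩ := Ideal.mem_span_singleton'.1 hy
    have h1 := congrArg (algebraMap (𝓞 F) (𝓞 M)) hxy
    rw [map_add, map_mul, map_mul, map_natCast, map_one] at h1
    have h2 : (1 : 𝓞 M) ∈ v.asIdeal := by
      rw [← h1]
      exact Ideal.add_mem _ (Ideal.mul_mem_left _ _ hΔ) (Ideal.mul_mem_left _ _ h0)
    exact v.isPrime.ne_top ((Ideal.eq_top_iff_one _).2 h2)
  have hv' : ∀ a : 𝓞 M, a ∈ v.asIdeal → V.valuation (ak Ω a) < 1 := hv
  have h1 := t8_val hv' hpv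
  have e : ak Ω ((p : ℕ) : 𝓞 M) = (p : Ω) := by
    have e1 : (((p : ℕ) : 𝓞 M) : M) = (p : M) := map_natCast (algebraMap (𝓞 M) M) p
    unfold ak
    rw [e1, map_natCast]
  rwa [e] at h1

/-- Chunk C3 (M). bad_K (T10.lean) and good_down (T8.lean) with the base M: V from exists_V for K, v = the prime of M below w (Algebra M K by inclusion; V(a) < 1 for a in v), Δ in v (m ≤ the prime of F below w: hH.supp), V(p) = 1 (p not in v because Δ in v; coprime). GMd from gmd_of_good. For g in M.fixingSubgroup with Inert V g: g^(p^k) in L.fixingSubgroup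
(H55P.PExt.pow, S12.lean), it fixes K, inert_triv (T1.lean): it fixes the points killed by p, fix_all: g does. A point T ≠ 0 killed by p (hact.gen as in good_down). core_bad (C2.lean). -/
theorem bad_KR (hH : BaseH F W₀ Om m ψ) (hp : PrimeH F W₀ p) {M L K : IntermediateField F (AlgebraicClosure F)}
    [NumberField M] [NumberField K] (hL : PExt p M L) (hMK : M ≤ K) (hKL : K ≤ L) (hB : BadM W₀ M)
    (w : HeightOneSpectrum (𝓞 K)) (hw : H55P.mK K m ≤ w.asIdeal) : ¬ GoodAt ((W₀⁄F)⁄K) w := by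
  classical
  intro hgood
  obtain ⟨V, hV⟩ := exists_V K w
  obtain ⟨j, hj⟩ := exists_j F (AlgebraicClosure F)
  obtain ⟨A, hA⟩ : ∃ A : F, A = -(algebraMap (𝓞 F) F W₀.c₄) / 48 := ⟨_, rfl⟩
  obtain ⟨B, hB'⟩ : ∃ B : F, B = -(algebraMap (𝓞 F) F W₀.c₆) / 864 := ⟨_, rfl⟩
  have hd := y3_ne W₀ hA hB' hH.data.ell
  have hper : Per F (embF F A) (embF F B) Om := by
    have e1 : embF F A = -(eF F W₀.c₄) / 48 := by
      rw [hA, map_div₀, map_neg, map_ofNat]
      rfl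
    have e2 : embF F B = -(eF F W₀.c₆) / 864 := by
      rw [hB', map_div₀, map_neg, map_ofNat]
      rfl
    rw [e1, e2]
    exact hH.data.per
  obtain ⟨act, hact⟩ := exists_CMA F A B Om j hd hper hj
  obtain ⟨u, huw⟩ : ∃ u : HeightOneSpectrum (𝓞 F), u.asIdeal = w.asIdeal.under (𝓞 F) :=
    ⟨⟨w.asIdeal.under (𝓞 F), inferInstance, mt Ideal.eq_bot_of_comap_eq_bot w.ne_bot⟩, rfl⟩
  have hmu : m ≤ u.asIdeal := by
    rw [huw]
    exact Ideal.map_le_iff_le_comap.1 hw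
  have hΔu : W₀.Δ ∈ u.asIdeal := (hH.supp u).2 hmu
  have hΔw : algebraMap (𝓞 F) (𝓞 K) W₀.Δ ∈ w.asIdeal := by
    rw [huw] at hΔu
    exact hΔu
  obtain ⟨v, hvw⟩ := c3_below hMK w
  have hv : ∀ a : 𝓞 M, a ∈ v.asIdeal → V.valuation ((a : M) : AlgebraicClosure F) < 1 := by
    intro a ha
    have h1 : ∃ b : 𝓞 K, ((a : M) : AlgebraicClosure F) = ((b : K) : AlgebraicClosure F) := by
      refine ⟨⟨⟨((a : M) : AlgebraicClosure F), hMK (a : M).2⟩, ?_⟩, rfl⟩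
      have h2 : IsIntegral ℤ (a : M) := a.isIntegral_coe
      have h3 : IsIntegral ℤ ((IntermediateField.inclusion hMK) (a : M)) :=
        h2.map ((IntermediateField.inclusion hMK).toRingHom.toIntAlgHom)
      exact h3
    obtain ⟨b, hb⟩ := h1
    rw [hb]
    exact hV b ((hvw a b hb).1 ha)
  have hΔv : algebraMap (𝓞 F) (𝓞 M) W₀.Δ ∈ v.asIdeal := (hvw _ (algebraMap (𝓞 F) (𝓞 K) W₀.Δ) rfl).2 hΔw
  have hVp : V.valuation (p : AlgebraicClosure F) = 1 := c3_vp hp hv hΔv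
  have hGM := gmd_of_good W₀ hA hB' w hV hgood
  have hΔA : (WAB A B).Δ ≠ 0 := by
    have e : (WAB A B).Δ = -16 * (4 * A ^ 3 + 27 * B ^ 2) := by
      unfold WAB WeierstrassCurve.Δ WeierstrassCurve.b₂ WeierstrassCurve.b₄ WeierstrassCurve.b₆ WeierstrassCurve.b₈
      ring
    rw [e]
    exact mul_ne_zero (by norm_num) hd
  obtain ⟨k, hk⟩ := H55P.PExt.pow p hp.prime M L hL
  obtain ⟨T, hT, hT0⟩ := c3_point hact hp.prime
  refine core_bad hH.data.ell (jint_of hH.data.per hH.data.ell) hp.prime hp.five hA hB' M hB hΔv hv hVp hT hT0 ?_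
  intro g hgM hg
  refine fix_all hact hp.prime ((unr_iff hp.prime).1 hp.unr) g (k := k) ?_ T hT
  intro P hP
  refine inert_triv hΔA hGM (g ^ (p ^ k)) ?_ ?_ p hVp P hP
  · intro x hx
    exact (IntermediateField.mem_fixingSubgroup_iff L _).1 (hk g hgM) x (hKL hx)
  · have h1 : g ∈ H55P.inS F V := hg
    exact pow_mem h1 (p ^ k)

open Classical in
/-- Chunk C3 (M). bad_tors (T11B.lean) with the base M (PExt.pow, core_bad). -/
theorem bad_torsR (hH : BaseH F W₀ Om m ψ) (hp : PrimeH F W₀ p) {M L K : IntermediateField F (AlgebraicClosure F)}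
    [NumberField M] (hL : PExt p M L) (hKL : K ≤ L) (hB : BadM W₀ M) {V : ValuationSubring (AlgebraicClosure F)}
    {v : HeightOneSpectrum (𝓞 M)} (hv : ∀ a : 𝓞 M, a ∈ v.asIdeal → V.valuation ((a : M) : AlgebraicClosure F) < 1)
    (hΔ : algebraMap (𝓞 F) (𝓞 M) W₀.Δ ∈ v.asIdeal) (T : Pt (W₀⁄F) (AlgebraicClosure F)) (hT : p • T = 0)
    (hf : ∀ s ∈ K.fixingSubgroup, Inert V s → ac (W₀⁄F) s T = T) : T = 0 := by
  obtain ⟨A, hA⟩ : ∃ A : F, A = -(algebraMap (𝓞 F) F W₀.c₄) / 48 := ⟨_, rfl⟩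
  obtain ⟨B, hB'⟩ : ∃ B : F, B = -(algebraMap (𝓞 F) F W₀.c₆) / 864 := ⟨_, rfl⟩
  have hell := hH.data.ell
  have hd := y3_ne W₀ hA hB' hell
  obtain ⟨j, hj⟩ := exists_j F (AlgebraicClosure F)
  have hper : Per F (embF F A) (embF F B) Om := by
    have e1 : embF F A = -(eF F W₀.c₄) / 48 := by
      rw [hA, map_div₀, map_neg, map_ofNat]
      rfl
    have e2 : embF F B = -(eF F W₀.c₆) / 864 := by
      rw [hB', map_div₀, map_neg, map_ofNat]
      rfl
    rw [e1, e2]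
    exact hH.data.per
  obtain ⟨act, hC⟩ := exists_CMA F A B Om j hd hper hj
  have hjint := jint_of hH.data.per hell
  obtain ⟨Kg, u, hG⟩ := exists_gmod (Ω := AlgebraicClosure F) hd (y3_j W₀ hA hB' hjint) V
  have hunr := (unr_iff hp.prime).1 hp.unr
  have hVp : V.valuation (p : AlgebraicClosure F) = 1 := c3_vp hp hv hΔ
  have hΔA : (WAB A B).Δ ≠ 0 := by
    have e : (WAB A B).Δ = -16 * (4 * A ^ 3 + 27 * B ^ 2) := by
      unfold WAB WeierstrassCurve.Δ WeierstrassCurve.b₂ WeierstrassCurve.b₄ WeierstrassCurve.b₆ WeierstrassCurve.b₈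
      ring
    rw [e]
    exact mul_ne_zero (by norm_num) hd
  obtain ⟨r, s, t, hVC⟩ := vc_short W₀ hA hB'
  have hVC' := vc_map (algebraMap F (AlgebraicClosure F)) hVC
  have hΔ1 : ((WAB A B).map (algebraMap F (AlgebraicClosure F))).Δ ≠ 0 := by
    rw [WeierstrassCurve.map_Δ]
    exact (map_ne_zero _).2 hΔA
  have hΔ2 : ((W₀⁄F).map (algebraMap F (AlgebraicClosure F))).Δ ≠ 0 := by
    have e : (W₀⁄F).Δ = algebraMap (𝓞 F) F W₀.Δ := WeierstrassCurve.map_Δ _ _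
    rw [WeierstrassCurve.map_Δ, e]
    refine (map_ne_zero _).2 fun h1 => hell ?_
    exact (map_eq_zero_iff _ (FaithfulSMul.algebraMap_injective (𝓞 F) F)).1 h1
  obtain ⟨Θ, hΘ⟩ : ∃ Θ : Pt (WAB A B) (AlgebraicClosure F) ≃+ Pt (W₀⁄F) (AlgebraicClosure F),
      Crd (algebraMap F (AlgebraicClosure F) 1) (algebraMap F (AlgebraicClosure F) r)
        (algebraMap F (AlgebraicClosure F) s) (algebraMap F (AlgebraicClosure F) t) Θ := MG.vc_iso hVC' hΔ1 hΔ2
  have hcom : ∀ (g : AlgebraicClosure F ≃ₐ[F] AlgebraicClosure F) (P : Pt (WAB A B) (AlgebraicClosure F)),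
      ac (W₀⁄F) g (Θ P) = Θ (ac (WAB A B) g P) := by
    intro g P
    by_cases hP : P = 0
    · subst hP
      rw [map_zero, map_zero, map_zero, map_zero]
    · obtain ⟨a1, a2, a3⟩ := hΘ P hP
      obtain ⟨b1, b2, b3⟩ := MG.ac_crd (W := WAB A B) g P
      have hP' : ac (WAB A B) g P ≠ 0 := fun h => hP (b3.1 h)
      obtain ⟨c1, c2, c3⟩ := hΘ _ hP'
      obtain ⟨d1, d2, d3⟩ := MG.ac_crd (W := W₀⁄F) g (Θ P)
      have e2 := congrArg g a2
      have e3 := congrArg g a3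
      simp only [map_add, map_mul, map_pow, map_one, AlgEquiv.commutes, one_pow, one_mul, mul_one] at e2 e3 c2 c3
      have f2 : xc (ac (W₀⁄F) g (Θ P)) = xc (Θ (ac (WAB A B) g P)) := by
        rw [d1]
        linear_combination c2 - e2 - b1
      refine pt_ext (fun h => a1 (d3.1 h)) c1 f2 ?_
      rw [d2]
      rw [d1] at f2
      linear_combination c3 - e3 - b2 - (algebraMap F (AlgebraicClosure F) s) * f2
  by_contra h0
  obtain ⟨T', hT'⟩ := Θ.surjective T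
  have hT0 : T' ≠ 0 := by
    rintro rfl
    exact h0 (by rw [← hT', map_zero])
  have hTp : p • T' = 0 := by
    apply Θ.injective
    rw [map_nsmul, hT', hT, map_zero]
  obtain ⟨k, hk⟩ := H55P.PExt.pow p hp.prime M L hL
  refine core_bad hell hjint hp.prime hp.five hA hB' M hB hΔ hv hVp hTp hT0 ?_
  intro g hgM hg
  refine fix_all hC hp.prime hunr g (k := k) ?_ T' hTp
  intro P hP
  have hI : Inert V (g ^ (p ^ k)) := by
    have h1 : g ∈ H55P.inS F V := hg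
    exact pow_mem h1 (p ^ k)
  refine fix_from_one hC hG hp.prime hp.five hVp (g ^ (p ^ k)) hI hTp hT0 ?_ P hP
  apply Θ.injective
  rw [← hcom, hT']
  refine hf _ ?_ hI
  exact (IntermediateField.mem_fixingSubgroup_iff K _).2 fun x hx =>
    (IntermediateField.mem_fixingSubgroup_iff L _).1 (hk g hgM) x (hKL hx)

end H13R
end

-- from Lib.H13D.M0
section

/-! # H13D, part M: the primes ramified in F -/

open NumberField IsDedekindDomain WeierstrassCurve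

namespace H13D

open H55P (IQ embF eF LF Per IsHecke Pt ac Inert Dec Nm)
open H35P (WAB Ker tt GoodW IntW)
open H55K H55K.TQ
open H55K.MG (VC Crd)

/-- Chunk M0 (S). Copy of the proof of H55K.TQ.hram_of (RF.lean), which uses of hH only hH.data.ell (the discriminant of W⁄(𝓞 F) is not 0: hΔ, W.map_Δ) and hH.data.per (hper). -/
theorem disc_ram {F : Type} [Field F] [NumberField F] [IQ F] {W : WeierstrassCurve ℤ} {Om : ℂ} (hΔ : W.Δ ≠ 0)
    (hper : Per F (-(eF F (W⁄(𝓞 F)).c₄) / 48) (-(eF F (W⁄(𝓞 F)).c₆) / 864) Om) (v : HeightOneSpectrum (𝓞 F))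
    (hv : ∀ a : 𝓞 F, a - cj a ∈ v.asIdeal) : (W⁄(𝓞 F)).Δ ∈ v.asIdeal := by
  classical
  by_contra hΔv
  -- the prime number p
  obtain ⟨p, hp, hp2, hpv⟩ : ∃ p : ℕ, p.Prime ∧ p ≠ 2 ∧ (p : 𝓞 F) ∉ v.asIdeal := by
    by_cases h3 : ((3 : ℕ) : 𝓞 F) ∈ v.asIdeal
    · refine ⟨5, by norm_num, by norm_num, fun h5 => ?_⟩
      apply v.isPrime.ne_top
      rw [Ideal.eq_top_iff_one]
      have e : (1 : 𝓞 F) = 2 * ((3 : ℕ) : 𝓞 F) - ((5 : ℕ) : 𝓞 F) := by norm_num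
      rw [e]
      exact v.asIdeal.sub_mem (v.asIdeal.mul_mem_left _ h3) h5
    · exact ⟨3, by norm_num, by norm_num, h3⟩
  set Ω := AlgebraicClosure F with hΩ
  have hcl : IsAlgClosure ℚ Ω := ⟨inferInstance, Algebra.IsAlgebraic.trans ℚ F Ω⟩
  -- the valuation ring
  obtain ⟨V, hV⟩ := exists_abw Ω v
  -- the automorphism
  obtain ⟨σ, hσ⟩ := d1_sigma F
  have hσ' : ∀ a : 𝓞 F, σ (a : F) = ((cj a : 𝓞 F) : F) := by
    intro a
    apply (embF F).injective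
    rw [hσ]
    exact (e_cj a).symm
  have hn : Normal ℚ Ω := IsAlgClosure.normal ℚ Ω
  set s0 : Ω ≃ₐ[ℚ] Ω := AlgEquiv.liftNormal σ Ω with hs0
  have hs0' : ∀ x : F, s0 (algebraMap F Ω x) = algebraMap F Ω (σ x) := fun x => AlgEquiv.liftNormal_commutes _ _ _
  set N' : IntermediateField ℚ Ω := (IsScalarTower.toAlgHom ℚ F Ω).fieldRange with hN'
  have hfin : FiniteDimensional ℚ N' :=
    (AlgEquiv.ofInjectiveField (IsScalarTower.toAlgHom ℚ F Ω)).toLinearEquiv.finiteDimensional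
  have hmem : ∀ x : Ω, x ∈ N' → ∃ y : F, algebraMap F Ω y = x := by
    rintro x ⟨y, hy⟩
    exact ⟨y, hy⟩
  obtain ⟨s, hsI, hs1⟩ := H13S.inertia_lift N' V s0 (by
      intro x hx
      obtain ⟨y, rfl⟩ := hmem x hx
      rw [hs0']
      exact ⟨σ y, rfl⟩) (by
      intro x hx hxV
      obtain ⟨y, rfl⟩ := hmem x hx
      rw [hs0', ← map_sub, hV.lt]
      refine H13S.in4_val v σ ?_ y ((hV y).1 hxV)
      intro z
      have e : σ • z = cj z := by
        apply RingOfIntegers.coe_injective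
        exact hσ' z
      rw [e, ← neg_sub]
      exact v.asIdeal.neg_mem (hv z))
  have hs : ∀ x : F, s (algebraMap F Ω x) = algebraMap F Ω (σ x) := by
    intro x
    rw [hs1 (algebraMap F Ω x) ⟨x, rfl⟩, hs0']
  -- the curve over the rational numbers
  set A₀ : ℚ := -(W⁄ℚ).c₄ / 48 with hA₀
  set B₀ : ℚ := -(W⁄ℚ).c₆ / 864 with hB₀
  have hc4 : algebraMap (𝓞 F) F (W⁄(𝓞 F)).c₄ = algebraMap ℚ F (W⁄ℚ).c₄ := by
    have e1 : (W⁄(𝓞 F)).c₄ = algebraMap ℤ (𝓞 F) W.c₄ := W.map_c₄ _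
    have e2 : (W⁄ℚ).c₄ = algebraMap ℤ ℚ W.c₄ := W.map_c₄ _
    rw [e1, e2]
    simp
  have hc6 : algebraMap (𝓞 F) F (W⁄(𝓞 F)).c₆ = algebraMap ℚ F (W⁄ℚ).c₆ := by
    have e1 : (W⁄(𝓞 F)).c₆ = algebraMap ℤ (𝓞 F) W.c₆ := W.map_c₆ _
    have e2 : (W⁄ℚ).c₆ = algebraMap ℤ ℚ W.c₆ := W.map_c₆ _
    rw [e1, e2]
    simp
  obtain ⟨A, hA⟩ : ∃ A : F, A = -(algebraMap (𝓞 F) F (W⁄(𝓞 F)).c₄) / 48 := ⟨_, rfl⟩
  obtain ⟨B, hB⟩ : ∃ B : F, B = -(algebraMap (𝓞 F) F (W⁄(𝓞 F)).c₆) / 864 := ⟨_, rfl⟩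
  have hA' : A = algebraMap ℚ F A₀ := by
    rw [hA, hc4, hA₀, map_div₀, map_neg, map_ofNat]
  have hB' : B = algebraMap ℚ F B₀ := by
    rw [hB, hc6, hB₀, map_div₀, map_neg, map_ofNat]
  have hΔ0 : (W⁄(𝓞 F)).Δ ≠ 0 := by
    intro h0
    have e1 : (W⁄(𝓞 F)).Δ = algebraMap ℤ (𝓞 F) W.Δ := W.map_Δ _
    rw [e1] at h0
    apply hΔ
    have e2 : ((W.Δ : ℤ) : 𝓞 F) = 0 := h0
    exact_mod_cast e2
  have hd := y3_ne (W⁄(𝓞 F)) hA hB hΔ0
  have hper' : Per F (embF F A) (embF F B) Om := by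
    have e1 : embF F A = -(eF F (W⁄(𝓞 F)).c₄) / 48 := by
      rw [hA, map_div₀, map_neg, map_ofNat]
      rfl
    have e2 : embF F B = -(eF F (W⁄(𝓞 F)).c₆) / 864 := by
      rw [hB, map_div₀, map_neg, map_ofNat]
      rfl
    rw [e1, e2]
    exact hper
  obtain ⟨j, hj⟩ := exists_j F Ω
  obtain ⟨act, h⟩ := exists_CMA F A B Om j hd hper' hj
  set s' : Ω ≃+* Ω := (s : Ω ≃+* Ω) with hs'
  have hsA : s' (algebraMap F Ω A) = algebraMap F Ω A := by
    rw [hA', ← IsScalarTower.algebraMap_apply ℚ F Ω]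
    exact s.commutes _
  have hsB : s' (algebraMap F Ω B) = algebraMap F Ω B := by
    rw [hB', ← IsScalarTower.algebraMap_apply ℚ F Ω]
    exact s.commutes _
  have hsc : ∀ a : 𝓞 F, s' (ak Ω a) = ak Ω (cj a) := by
    intro a
    show s (algebraMap F Ω (a : F)) = _
    rw [hs, hσ']
  have hsl := cma_galr h s' hsA hsB hsc
  -- good reduction
  have hVp : V.valuation (p : Ω) = 1 := by
    have h1 := rf_one hV hpv
    have e : ak Ω (p : 𝓞 F) = (p : Ω) := by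
      show algebraMap F Ω (((p : 𝓞 F)) : F) = _
      simp
    rwa [e] at h1
  have hcast : ∀ n : ℤ, algebraMap ℚ Ω (algebraMap ℤ ℚ n) = (n : Ω) := fun n => by simp
  have hcast' : ∀ n : ℤ, algebraMap ℚ Ω (algebraMap ℤ ℚ n) ∈ V := fun n => by
    rw [hcast]
    exact intCast_mem V n
  have hΔQ : (W⁄ℚ).Δ = algebraMap ℤ ℚ W.Δ := W.map_Δ _
  have hΔF : (W⁄(𝓞 F)).Δ = algebraMap ℤ (𝓞 F) W.Δ := W.map_Δ _
  have hΔQ0 : (W⁄ℚ).Δ ≠ 0 := by
    intro h0
    apply hΔ0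
    rw [hΔQ] at h0
    have h1 : W.Δ = 0 := by
      have h2 : (W.Δ : ℚ) = 0 := h0
      exact_mod_cast h2
    rw [hΔF, h1, map_zero]
  have hGood : GoodW ((W⁄ℚ)⁄Ω) V := by
    refine ⟨⟨hcast' _, hcast' _, hcast' _, hcast' _, hcast' _⟩, ?_⟩
    have e1 : ((W⁄ℚ)⁄Ω).Δ = algebraMap ℚ Ω (W⁄ℚ).Δ := (W⁄ℚ).map_Δ _
    have h1 := rf_one hV hΔv
    have e2 : ak Ω (W⁄(𝓞 F)).Δ = (W.Δ : Ω) := by
      rw [hΔF]
      show algebraMap F Ω ((algebraMap ℤ (𝓞 F) W.Δ : 𝓞 F) : F) = _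
      simp
    rw [e1, hΔQ, hcast, ← e2]
    exact h1
  have hE : (WAB A B)⁄Ω = (WAB A₀ B₀)⁄Ω := by
    have e1 : algebraMap F Ω A = algebraMap ℚ Ω A₀ := by rw [hA', ← IsScalarTower.algebraMap_apply ℚ F Ω]
    have e2 : algebraMap F Ω B = algebraMap ℚ Ω B₀ := by rw [hB', ← IsScalarTower.algebraMap_apply ℚ F Ω]
    ext <;> simp [WAB, WeierstrassCurve.map, WeierstrassCurve.baseChange, e1, e2]
  have hfix : ∀ T : Pt (WAB A B) Ω, p • T = 0 → acr s' hsA hsB T = T := by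
    intro T hT
    obtain ⟨f1, f2⟩ := rf_fix (W⁄ℚ) hGood hΔQ0 hA₀ hB₀ s hsI p hVp ((WAB A B)⁄Ω) hE T hT
    by_cases hT0 : T = 0
    · rw [hT0, map_zero]
    · refine CC.c27_ext (fun h0 => hT0 ((acr_zero_iff s' hsA hsB T).1 h0)) hT0 ?_ ?_
      · rw [xc_acr]
        exact f1
      · rw [yc_acr]
        exact f2
  -- the contradiction
  refine rf_card (F := F) hp hp2 (fun a => ?_)
  have hpne : (p : 𝓞 F) ≠ 0 := by exact_mod_cast hp.ne_zero
  obtain ⟨T₀, hT₀, g1, g2, -⟩ := h.gen (p : 𝓞 F) hpne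
  have hT₀' : p • T₀ = 0 := by
    rw [← cu_nat act]
    exact hT₀
  have e0 : p • act a T₀ = 0 := by
    rw [← map_nsmul, hT₀', map_zero]
  have e1 := hsl a T₀
  rw [hfix T₀ hT₀', hfix _ e0] at e1
  rw [← g2 (a - cj a), map_sub]
  show act a T₀ - act (cj a) T₀ = 0
  rw [← e1, sub_self]

end H13D
end

-- from Lib.H55W.L4A
section

/-! # H55W, part L: the Frobenius element, discriminant -4 -/

open NumberField IsDedekindDomain WeierstrassCurve

namespace H55W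

open H55P (IQ embF eF LF Per IsHecke Pt ac Inert Dec Nm)
open H35P (WAB Ker tt GoodW IntW)
open H55K
open H13D (RM)

variable {F : Type} [Field F] [NumberField F] [IQ F] {I : 𝓞 F} {A B : F} {Om : ℂ} {Ω : Type} [Field Ω] [DecidableEq Ω]
  [Algebra F Ω] {j : Ω →+* ℂ} {act : 𝓞 F →+* AddMonoid.End (Pt (WAB A B) Ω)} {V : ValuationSubring Ω}
  {Kg : AddSubgroup (Pt (WAB A B) Ω)} {v : HeightOneSpectrum (𝓞 F)} {s : Ω ≃ₐ[F] Ω} {r : Ω}

theorem l4a_unit (hI : GI I) : IsUnit I :=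
  IsUnit.of_mul_eq_one (-I) (by linear_combination (-1 : 𝓞 F) * hI.sq)

theorem l4a_ak (a : 𝓞 F) : ∀ n : ℕ, ak Ω (a ^ n) = ak Ω a ^ n := by
  intro n
  unfold ak
  rw [← map_pow]
  simp

theorem l4a_sq (hI : GI I) : ak Ω I ^ 2 = -1 := by
  rw [← l4a_ak, hI.sq]
  unfold ak
  simp

theorem l4a_nat {n : ℕ} (hn : n ≠ 0) (j : Ω →+* ℂ) : (n : Ω) ≠ 0 := by
  intro h
  have h1 := congrArg j h
  rw [map_natCast, map_zero, Nat.cast_eq_zero] at h1
  exact hn h1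

theorem l4a_add (a b : 𝓞 F) (P : Pt (WAB A B) Ω) : act (a + b) P = act a P + act b P := by
  rw [map_add]
  rfl

/-- the coordinates of act I P -/
theorem l4a_act (hI : GI I) (h : CMA F A B Om j act) (P : Pt (WAB A B) Ω) :
    xc (act I P) = -xc P ∧ yc (act I P) = ak Ω I * yc P := by
  obtain ⟨h1, h2⟩ := act_unit h (l4a_unit hI) P
  have h3 := l4a_sq (Ω := Ω) hI
  constructor
  · linear_combination (-1 : Ω) * h1 + xc (act I P) * h3
  · linear_combination ak Ω I * h2 - (ak Ω I ^ 2 - 1) * yc (act I P) * h3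

/-- Chunk L4A (S/M). A point P ≠ 0 (h.gen 5). act_unit for I: act I P = (I^(-2) x, I^(-3) y) = (-x, I y) is on the curve (eqnA): -y^2 = -x^3 - A x + B, and y^2 = x^3 + A x + B: so 2 B = 0. -/
theorem b_zero (hI : GI I) (h : CMA F A B Om j act) : B = 0 := by
  have h5 : (5 : 𝓞 F) ≠ 0 := by norm_num
  obtain ⟨P, -, -, hT, -⟩ := h.gen 5 h5
  have hP : P ≠ 0 := by
    intro h0
    have h1 : act 1 P = 0 := by rw [h0, map_zero]
    have h2 := g0_dvd_nm ((hT 1).1 h1)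
    have h3 := Nm_nat (F := F) 5
    have h4 := Nm_nat (F := F) 1
    rw [Nat.cast_ofNat] at h3
    rw [Nat.cast_one] at h4
    rw [h3, h4] at h2
    norm_num at h2
  have hQ : act I P ≠ 0 := fun h0 => hP (l0_inj (l4a_unit hI) h0)
  obtain ⟨e1, e2⟩ := l4a_act hI h P
  have e3 := eqnA hQ
  have e4 := eqnA hP
  rw [e1, e2] at e3
  have e5 := l4a_sq (Ω := Ω) hI
  have e6 : 2 * algebraMap F Ω B = 0 := by
    linear_combination (yc P) ^ 2 * e5 - e3 - e4
  have h20 : (2 : Ω) ≠ 0 := by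
    have := l4a_nat (Ω := Ω) (n := 2) (by norm_num) j
    exact_mod_cast this
  exact (map_eq_zero_iff _ (algebraMap F Ω).injective).1 ((mul_eq_zero.1 e6).resolve_left h20)

/-- Chunk L4A (M). T from h.gen (2 + 2I). Z = act (2I) T: not 0 (2 + 2I does not divide 2I: norm 8, 4), act (1 + I) Z = act (I (2 + 2I)) T = 0, so act I Z = -Z; act_unit: - xc (act I Z) = xc Z, xc (-Z) = xc Z: 2 xc Z = 0, xc Z = 0, yc Z^2 = B = 0 (eqnA). T + T = act 2 T = act (-I) Z: not 0, xc = 0 (act_unit for -I). yc T ≠ 0 (otherwise T = -T, T + T = 0).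
dbl_coords: 0 = ((3x^2 + A)/(2y))^2 - 2x: (3x^2 + A)^2 = 8 x y^2 = 8 x (x^3 + A x): (x^2 - A)^2 = 0. So x^2 = A ≠ 0 (h.disc), y^2 = 2 x^3; Y = y/x: Y^2 = 2x, Y^3 = 2y, Y^4 = 4 x^2 = 4A. -/
theorem tor_four (hI : GI I) (h : CMA F A B Om j act) {δ : ℤ} (hA : 4 * A = -(δ : F)) :
    ∃ (T : Pt (WAB A B) Ω) (Y : Ω), (∀ a : 𝓞 F, act a T = 0 ↔ 2 + 2 * I ∣ a) ∧
      (∀ P : Pt (WAB A B) Ω, act (2 + 2 * I) P = 0 → ∃ a : 𝓞 F, P = act a T) ∧
      2 * xc T = Y ^ 2 ∧ 2 * yc T = Y ^ 3 ∧ Y ^ 4 = -(δ : Ω) ∧ Y ≠ 0 := by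
  have hne : (2 + 2 * I : 𝓞 F) ≠ 0 := by
    intro h0
    have h1 := g0_nm22 hI
    rw [h0] at h1
    have h2 := Nm_nat (F := F) 0
    rw [Nat.cast_zero] at h2
    rw [h2] at h1
    norm_num at h1
  obtain ⟨T, -, hg, hT, -⟩ := h.gen (2 + 2 * I) hne
  have hB0 : algebraMap F Ω B = 0 := by rw [b_zero hI h, map_zero]
  have hAO : 4 * algebraMap F Ω A = -(δ : Ω) := by
    have h1 := congrArg (algebraMap F Ω) hA
    rw [map_mul, map_ofNat, map_neg, map_intCast] at h1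
    exact h1
  have hA0 : algebraMap F Ω A ≠ 0 := by
    intro h0
    have h1 := (map_eq_zero_iff _ (algebraMap F Ω).injective).1 h0
    apply h.disc
    rw [h1, b_zero hI h]
    norm_num
  have h20 : (2 : Ω) ≠ 0 := by
    have := l4a_nat (Ω := Ω) (n := 2) (by norm_num) j
    exact_mod_cast this
  have hZ0 : act (2 * I) T ≠ 0 := by
    intro h0
    have h1 := g0_dvd_nm ((hT _).1 h0)
    have h2 := gi_nm hI 0 2
    have h3 : ((0 : ℤ) : 𝓞 F) + ((2 : ℤ) : 𝓞 F) * I = 2 * I := by push_cast; ring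
    rw [h3] at h2
    have h4 : Nm (2 * I) = 4 := by
      have : ((Nm (2 * I) : ℕ) : ℤ) = 4 := by rw [h2]; norm_num
      exact_mod_cast this
    rw [g0_nm22 hI, h4] at h1
    norm_num at h1
  have hIZ : act I (act (2 * I) T) = -act (2 * I) T := by
    have h1 : act (1 + I) (act (2 * I) T) = 0 := by
      rw [← l0_mul]
      refine (hT _).2 ⟨I, ?_⟩
      ring
    rw [l4a_add, l0_one] at h1
    exact eq_neg_of_add_eq_zero_right h1
  have hxZ : xc (act (2 * I) T) = 0 := by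
    have h1 := (l4a_act hI h (act (2 * I) T)).1
    rw [hIZ, xc_neg] at h1
    have h2 : 2 * xc (act (2 * I) T) = 0 := by linear_combination h1
    exact (mul_eq_zero.1 h2).resolve_left h20
  have hTT : T + T = -act I (act (2 * I) T) := by
    have h1 : T + T = act 2 T := by
      have h2 : (2 : 𝓞 F) = 1 + 1 := by norm_num
      rw [h2, l4a_add, l0_one]
    rw [h1, ← l0_mul, ← act_neg]
    congr 1
    congr 1
    linear_combination (2 : 𝓞 F) * hI.sq
  have hTT0 : T + T ≠ 0 := by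
    rw [hTT, hIZ, neg_neg]
    exact hZ0
  have hxTT : xc (T + T) = 0 := by
    rw [hTT, hIZ, neg_neg, hxZ]
  have hT0 : T ≠ 0 := by
    intro h0
    rw [h0, add_zero] at hTT0
    exact hTT0 rfl
  have hy : 2 * yc T ≠ 0 := by
    intro h0
    have h1 : yc T = 0 := (mul_eq_zero.1 h0).resolve_left h20
    have h2 : -T = T := by
      refine pt_ext (neg_ne hT0) hT0 (xc_neg T) ?_
      rw [yc_neg, h1, neg_zero]
    apply hTT0
    nth_rewrite 1 [← h2]
    exact neg_add_cancel T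
  obtain ⟨-, e1, -⟩ := dbl_coords hT0 hy
  rw [hxTT, base_a4] at e1
  have e2 := eqnA hT0
  rw [hB0, add_zero] at e2
  have e3 : (3 * xc T ^ 2 + algebraMap F Ω A) ^ 2 = 8 * xc T * yc T ^ 2 := by
    have h1 : ((3 * xc T ^ 2 + algebraMap F Ω A) / (2 * yc T)) ^ 2 * (2 * yc T) ^ 2 =
        (3 * xc T ^ 2 + algebraMap F Ω A) ^ 2 := by
      rw [← mul_pow, div_mul_cancel₀ _ hy]
    have h2 : ((3 * xc T ^ 2 + algebraMap F Ω A) / (2 * yc T)) ^ 2 = 2 * xc T := by linear_combination -e1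
    rw [h2] at h1
    linear_combination -h1
  have e4 : (xc T ^ 2 - algebraMap F Ω A) ^ 2 = 0 := by
    linear_combination e3 + 8 * xc T * e2
  have e5 : xc T ^ 2 = algebraMap F Ω A := sub_eq_zero.1 (pow_eq_zero_iff (by norm_num) |>.1 e4)
  have hx0 : xc T ≠ 0 := by
    intro h0
    rw [h0, zero_pow (by norm_num)] at e5
    exact hA0 e5.symm
  have e6 : yc T ^ 2 = 2 * xc T ^ 3 := by
    rw [e2, ← e5]
    ring
  have hy0 : yc T ≠ 0 := fun h0 => hy (by rw [h0, mul_zero])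
  have e7 : (yc T / xc T) ^ 2 = 2 * xc T := by
    rw [div_pow, e6]
    field_simp
  refine ⟨T, yc T / xc T, hT, fun P hP => hg P hP, e7.symm, ?_, ?_, div_ne_zero hy0 hx0⟩
  · have h1 : (yc T / xc T) ^ 3 = (yc T / xc T) ^ 2 * (yc T / xc T) := by ring
    rw [h1, e7]
    field_simp
  · have h1 : (yc T / xc T) ^ 4 = ((yc T / xc T) ^ 2) ^ 2 := by ring
    rw [h1, e7]
    linear_combination 4 * e5 + hAO

end H55W
end

-- from Lib.H55W.L4B
section

/-! # H55W, part L: the Frobenius element, discriminant -4 -/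

open NumberField IsDedekindDomain WeierstrassCurve

namespace H55W

open H55P (IQ embF eF LF Per IsHecke Pt ac Inert Dec Nm)
open H35P (WAB Ker tt GoodW IntW)
open H55K
open H13D (RM)

variable {F : Type} [Field F] [NumberField F] [IQ F] {I : 𝓞 F} {A B : F} {Om : ℂ} {Ω : Type} [Field Ω] [DecidableEq Ω]
  [Algebra F Ω] {j : Ω →+* ℂ} {act : 𝓞 F →+* AddMonoid.End (Pt (WAB A B) Ω)} {V : ValuationSubring Ω}
  {Kg : AddSubgroup (Pt (WAB A B) Ω)} {v : HeightOneSpectrum (𝓞 F)} {s : Ω ≃ₐ[F] Ω} {r : Ω}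

theorem l4b_two (hI : GI I) : (1 + I) * ((1 + I) * -I) = 2 := by
  linear_combination (-I - 2) * hI.sq

theorem l4b_pp (hI : GI I) (h2 : (2 : 𝓞 F) ∉ v.asIdeal) : PP 4 I v.asIdeal where
  pr := v.isPrime
  ne := v.ne_bot
  nm := by
    intro h4
    have h5 : ((4 : ℕ) : 𝓞 F) = 2 * 2 := by push_cast; norm_num
    rw [h5] at h4
    rcases v.isPrime.mem_or_mem h4 with h6 | h6 <;> exact h2 h6
  root := gi_root hI
  two := by norm_num

theorem l4b_gen (hI : GI I) (h2 : (2 : 𝓞 F) ∉ v.asIdeal) {u : 𝓞 F} (hu : IsUnit u) :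
    ∃ β : 𝓞 F, Ideal.span {β} = v.asIdeal ∧ 2 + 2 * I ∣ u - β := by
  obtain ⟨β₀, hβ₀⟩ : ∃ β₀ : 𝓞 F, Ideal.span {β₀} = v.asIdeal :=
    ⟨Submodule.IsPrincipal.generator v.asIdeal, Ideal.span_singleton_generator v.asIdeal⟩
  have hβv : β₀ ∈ v.asIdeal := by
    rw [← hβ₀]
    exact Ideal.mem_span_singleton_self β₀
  have hβne : β₀ ≠ 0 := by
    rintro rfl
    rw [Ideal.span_singleton_eq_bot.2 rfl] at hβ₀
    exact v.ne_bot hβ₀.symm
  have hnd : ¬ (1 + I) ∣ β₀ := by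
    rintro ⟨z, hz⟩
    rw [hz] at hβv
    rcases v.isPrime.mem_or_mem hβv with h4 | h4
    · apply h2
      rw [← l4b_two hI]
      exact v.asIdeal.mul_mem_right _ h4
    · rw [← hβ₀, Ideal.mem_span_singleton] at h4
      obtain ⟨y, hy⟩ := h4
      have h5 : (1 + I) * y = 1 := by
        have h6 : β₀ * ((1 + I) * y - 1) = 0 := by linear_combination -(1 + I) * hy - hz
        exact sub_eq_zero.1 ((mul_eq_zero.1 h6).resolve_left hβne)
      have h6 := g0_nm_unit (IsUnit.of_mul_eq_one _ h5)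
      rw [g0_nm11 hI] at h6
      omega
  obtain ⟨k, hk⟩ := gi_exists hI hnd
  refine ⟨u * (I ^ k * β₀), ?_, ?_⟩
  · rw [← hβ₀, Ideal.span_singleton_eq_span_singleton, ← mul_assoc]
    exact associated_unit_mul_left β₀ _ (hu.mul ((l4a_unit hI).pow k))
  · have h5 : u - u * (I ^ k * β₀) = -u * (I ^ k * β₀ - 1) := by ring
    rw [h5]
    exact Dvd.dvd.mul_left hk _

theorem l4b_not (hI : GI I) {x : 𝓞 F} {a b : ℤ} (hx : x = (a : 𝓞 F) + (b : 𝓞 F) * I) (h : ¬ (8 : ℤ) ∣ a ^ 2 + b ^ 2) :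
    ¬ 2 + 2 * I ∣ x := by
  intro h1
  have h2 := g0_dvd_nm h1
  rw [g0_nm22 hI] at h2
  apply h
  rw [← gi_nm hI, ← hx]
  exact_mod_cast h2

/-- Chunk L4B (M). T, Y from tor_four. act (2 + 2I) (ac s T) = 0 (h.gal), so ac s T = act c T. 1 + I does not divide c: otherwise act 2 kills ac s T ((2 + 2I) | 2 (1 + I)), so act 2 T = 0 (ac_ne): 2 + 2I divides 2: contradiction. gi_exists: 2 + 2I | I^i c - 1; ζ = I^i, ac s T = act u T for u = I^(3i) (u ζ = 1). act_unit: s (xc T) = ζ^2 xc T, s (yc T) = ζ^3 yc T (xc_ac, yc_ac),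
so s Y = ζ Y (Y = Y^3 / Y^2 = yc T / xc T). frob_root with m = 4, c = -δ, X = Y (4 divides N - 1: ps_dvd for v.asIdeal, 4, I: 4 is not in v). δ is not in v.
γ: a generator β₀ of v is not divisible by 1 + I (2 is not in v), gi_exists: I^k β₀ is 1 modulo 2 + 2I, β = u I^k β₀: 2 + 2I | u - β (c ≡ u); loc_gen with n0 = 2 + 2I, c = u, t = 1 + I (t, 1 - t = -I, 1 + t = 2 + I have norms 2, 1, 5, not divisible by 8). γ ζ - 1 = (γ - u) ζ. -/
theorem loc_four (hI : GI I) (h : CMA F A B Om j act) {δ : ℤ} (hA : 4 * A = -(δ : F)) (hL : LD v V s Kg r)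
    (h2 : (2 : 𝓞 F) ∉ v.asIdeal) (hδ : (δ : 𝓞 F) ∉ v.asIdeal) :
    ∃ γ ζ : 𝓞 F, Ideal.span {γ} = v.asIdeal ∧ (∀ X : Pt (WAB A B) Ω, act γ X - ac (WAB A B) s X ∈ Kg) ∧
      2 + 2 * I ∣ γ * ζ - 1 ∧ (∃ i : ℕ, ζ = I ^ i) ∧
      (-(δ : 𝓞 F)) ^ ((Ideal.absNorm v.asIdeal - 1) / 4) - ζ ∈ v.asIdeal := by
  obtain ⟨T, Y, hT, hg, hx, hy, hY4, hY0⟩ := tor_four hI h hA
  have h1 : act (2 + 2 * I) (ac (WAB A B) s T) = 0 := by
    rw [← h.gal, (hT _).2 (dvd_refl _), ac_zero]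
  obtain ⟨c, hc⟩ := hg _ h1
  have hc1 : ¬ (1 + I) ∣ c := by
    rintro ⟨c', rfl⟩
    have h3 : act 2 (ac (WAB A B) s T) = 0 := by
      rw [hc, ← l0_mul]
      refine (hT _).2 ⟨c', ?_⟩
      ring
    rw [← h.gal] at h3
    have h4 : act 2 T = 0 := by
      by_contra h5
      exact ac_ne _ s h5 h3
    exact l4b_not hI (a := 2) (b := 0) (by push_cast; ring) (by norm_num) ((hT _).1 h4)
  obtain ⟨i, hi⟩ := gi_exists hI hc1
  have hI4 : I ^ 4 = 1 := (gi_root hI).pow_eq_one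
  have huz : I ^ (3 * i) * I ^ i = 1 := by
    rw [← pow_add, show 3 * i + i = 4 * i by ring, pow_mul, hI4, one_pow]
  have hu : IsUnit (I ^ (3 * i)) := (l4a_unit hI).pow _
  have hcu : ac (WAB A B) s T = act (I ^ (3 * i)) T := by
    have h3 : act (c - I ^ (3 * i)) T = 0 := by
      refine (hT _).2 ?_
      have h4 : c - I ^ (3 * i) = I ^ (3 * i) * (I ^ i * c - 1) := by linear_combination (-c) * huz
      rw [h4]
      exact Dvd.dvd.mul_left hi _
    rw [l0_sub, sub_eq_zero] at h3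
    rw [hc, h3]
  obtain ⟨e1, e2⟩ := act_unit h hu T
  rw [← hcu, xc_ac] at e1
  rw [← hcu, yc_ac] at e2
  have huzΩ : ak Ω (I ^ (3 * i)) * ak Ω (I ^ i) = 1 := by
    have h3 : ak Ω (I ^ (3 * i) * I ^ i) = ak Ω (I ^ (3 * i)) * ak Ω (I ^ i) := by
      unfold ak
      rw [← map_mul]
      rfl
    rw [← h3, huz]
    unfold ak
    simp
  have e3 : s (xc T) = ak Ω (I ^ i) ^ 2 * xc T := by
    linear_combination ak Ω (I ^ i) ^ 2 * e1 - (ak Ω (I ^ (3 * i)) * ak Ω (I ^ i) + 1) * s (xc T) * huzΩ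
  have e4 : s (yc T) = ak Ω (I ^ i) ^ 3 * yc T := by
    linear_combination ak Ω (I ^ i) ^ 3 * e2 -
      ((ak Ω (I ^ (3 * i)) * ak Ω (I ^ i)) ^ 2 + ak Ω (I ^ (3 * i)) * ak Ω (I ^ i) + 1) * s (yc T) * huzΩ
  have hsY : s Y = ak Ω (I ^ i) * Y := by
    have h3 : s Y ^ 2 = ak Ω (I ^ i) ^ 2 * Y ^ 2 := by
      rw [← map_pow, ← hx, map_mul, map_ofNat, e3]
      ring
    have h4 : s Y ^ 3 = ak Ω (I ^ i) ^ 3 * Y ^ 3 := by
      rw [← map_pow, ← hy, map_mul, map_ofNat, e4]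
      ring
    have h5 : s Y ^ 2 * (s Y - ak Ω (I ^ i) * Y) = 0 := by
      linear_combination h4 - ak Ω (I ^ i) * Y * h3
    have h6 : s Y ≠ 0 := by
      intro h7
      exact hY0 ((map_eq_zero_iff _ s.injective).1 h7)
    exact sub_eq_zero.1 ((mul_eq_zero.1 h5).resolve_left (pow_ne_zero _ h6))
  obtain ⟨β, hβ, h3β⟩ := l4b_gen (v := v) hI h2 hu
  have hn0 : 2 + 2 * I ∉ v.asIdeal := by
    intro h3
    have h4 : 2 + 2 * I = 2 * (1 + I) := by ring
    rw [h4] at h3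
    rcases v.isPrime.mem_or_mem h3 with h5 | h5
    · exact h2 h5
    · apply h2
      rw [← l4b_two hI]
      exact v.asIdeal.mul_mem_right _ h5
  obtain ⟨γ, hγ, hγu, hγK⟩ := loc_gen h hL hn0 hT hβ hcu (Or.inl h3β) (t := 1 + I)
    (l4b_not hI (a := 1) (b := 1) (by push_cast; ring) (by norm_num))
    (l4b_not hI (a := 0) (b := -1) (by push_cast; ring) (by norm_num))
    (l4b_not hI (a := 2) (b := 1) (by push_cast; ring) (by norm_num))
  refine ⟨γ, I ^ i, hγ, hγK, ?_, ⟨i, rfl⟩, ?_⟩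
  · have h3 : γ * I ^ i - 1 = (γ - I ^ (3 * i)) * I ^ i := by linear_combination huz
    rw [h3]
    exact Dvd.dvd.mul_right hγu _
  · refine frob_root hL (m := 4) (by norm_num) (ps_dvd (l4b_pp hI h2)).1 (c := -(δ : 𝓞 F)) ?_ (X := Y) ?_ hsY
    · intro h3
      exact hδ (by simpa using v.asIdeal.neg_mem h3)
    · rw [hY4]
      unfold ak
      simp

end H55W
end

-- from Lib.H55W.B4
section

/-! # H55W, part Z: Deuring's theorem, discriminant -4 -/

open NumberField IsDedekindDomain WeierstrassCurve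

namespace H55W

open H55P (IQ embF eF LF Per IsHecke Pt ac Inert Dec Nm)
open H35P (WAB Ker tt GoodW IntW)
open H55K H55K.TQ
open H55K.TQ (BaseH)

theorem b4_irr {F : Type} [Field F] [NumberField F] [IQ F] {π : 𝓞 F} {p : ℕ} (hp : p.Prime) (h : Nm π = p) : Prime π := by
  have h1 : Irreducible π := by
    constructor
    · intro hu
      rw [nm_unit hu] at h
      exact hp.one_lt.ne h
    · intro a b hab
      have h2 : Nm a * Nm b = p := by rw [← Nm_mul, ← hab, h]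
      have hu : ∀ x : 𝓞 F, Nm x = 1 → IsUnit x := by
        intro x hx
        unfold Nm at hx
        rw [Ideal.absNorm_eq_one_iff, Ideal.span_singleton_eq_top] at hx
        exact hx
      rcases (Nat.prime_mul_iff.1 (h2 ▸ hp)) with h3 | h3
      · exact Or.inr (hu b h3.2)
      · exact Or.inl (hu a h3.2)
  exact h1.prime

theorem base_4 {F : Type} [Field F] [NumberField F] [IQ F] {I : 𝓞 F} (hI : GI I) (W : WeierstrassCurve ℤ) (Om : ℂ)
    (hΔ : W.Δ ≠ 0) (hper : Per F (-(eF F (W⁄(𝓞 F)).c₄) / 48) (-(eF F (W⁄(𝓞 F)).c₆) / 864) Om)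
    (hbad : ∀ v : HeightOneSpectrum (𝓞 F), (W⁄(𝓞 F)).Δ ∈ v.asIdeal → ¬ GoodAt ((W⁄(𝓞 F))⁄F) v) :
    ∃ ψ : Ideal (𝓞 F) →*₀ 𝓞 F, BaseH F (W⁄(𝓞 F)) Om (Ideal.span {((W.Δ.natAbs : ℕ) : 𝓞 F) ^ 3}) ψ := by
  classical
  have hc6 : W.c₆ = 0 := by
    obtain ⟨j, act, h⟩ := z1_cma W Om hΔ hper rfl rfl
    have h1 := b_zero hI h
    rw [z1_c6, div_eq_zero_iff, neg_eq_zero] at h1
    rcases h1 with h1 | h1
    · exact_mod_cast h1
    · norm_num at h1
  obtain ⟨δ, h4, hD⟩ := arith_four W hc6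
  have hδ : δ ≠ 0 := by
    rintro rfl
    exact hΔ (by rw [hD]; ring)
  have hΔF := z0_disc (F := F) W
  have hdδ : (δ : 𝓞 F) ∣ ((W.Δ : ℤ) : 𝓞 F) := ⟨((δ ^ 2 : ℤ) : 𝓞 F), by rw [hD]; push_cast; ring⟩
  -- the ramified prime
  have hN2 : Nm (1 + I) = 2 := by
    have := gi_nm hI 1 1
    push_cast at this
    rw [one_mul] at this
    norm_num at this
    exact_mod_cast this
  have hpr : Prime (1 + I) := b4_irr Nat.prime_two hN2
  obtain ⟨v₂, hv₂⟩ : ∃ v : HeightOneSpectrum (𝓞 F), v.asIdeal = Ideal.span {1 + I} :=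
    ⟨⟨Ideal.span {1 + I}, (Ideal.span_singleton_prime hpr.ne_zero).2 hpr, by
      rw [Ne, Ideal.span_singleton_eq_bot]
      exact hpr.ne_zero⟩, rfl⟩
  have h2I : (1 + I) ∣ (2 : 𝓞 F) := ⟨1 - I, by linear_combination hI.sq⟩
  have hram : (W⁄(𝓞 F)).Δ ∈ v₂.asIdeal := by
    refine H13D.disc_ram hΔ hper v₂ (fun a => ?_)
    rw [hv₂, Ideal.mem_span_singleton]
    obtain ⟨x, y, rfl⟩ := hI.rep a
    rw [map_add, map_mul, cj_int, cj_int, gi_cj hI]
    have e : (x : 𝓞 F) + y * I - (x + y * -I) = 2 * (y * I) := by ring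
    rw [e]
    exact h2I.mul_right _
  have h2δ : δ % 2 = 0 := by
    rw [hΔF, hv₂, Ideal.mem_span_singleton, hD] at hram
    push_cast at hram
    have h1 := hpr.dvd_of_dvd_pow hram
    have h2 : Nm (1 + I) ∣ Nm (δ : 𝓞 F) := by
      obtain ⟨c, hc⟩ := h1
      rw [hc, Nm_mul]
      exact dvd_mul_right _ _
    have h3 : Nm (δ : 𝓞 F) = δ.natAbs ^ 2 := by
      rcases Int.natAbs_eq δ with h | h
      · conv_lhs => rw [h, Int.cast_natCast, Nm_nat]
      · conv_lhs => rw [h, Int.cast_neg, Int.cast_natCast]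
        unfold Nm
        rw [Ideal.span_singleton_neg]
        exact Nm_nat _
    rw [hN2, h3] at h2
    have h4 := Nat.prime_two.dvd_of_dvd_pow h2
    have h5 : (2 : ℤ) ∣ δ := by
      have := Int.natCast_dvd.2 h4
      exact_mod_cast this
    exact Int.emod_eq_zero_of_dvd h5
  have hd2 : (2 : 𝓞 F) ∣ ((W.Δ : ℤ) : 𝓞 F) := by
    obtain ⟨c, hc⟩ := Int.dvd_of_emod_eq_zero h2δ
    refine Dvd.dvd.trans ⟨((c : ℤ) : 𝓞 F), ?_⟩ hdδ
    rw [hc]
    push_cast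
    ring
  obtain ⟨f, hf, hlast⟩ := exists_f4 hI hδ h2δ hD
  refine base_gen W Om hΔ hper hbad hf ?_ ?_
  · intro hu
    have h3 : IsUnit (2 : 𝓞 F) := isUnit_of_dvd_unit hd2 hu
    have h9 : Nm (2 : 𝓞 F) = 1 := nm_unit h3
    have h9' : Nm (2 : 𝓞 F) = 2 ^ 2 := by
      have := Nm_nat (F := F) 2
      exact_mod_cast this
    rw [h9'] at h9
    norm_num at h9
  · intro Ω _ _ _ _ A B j act hA hB h v V s Kg r hv hL
    have hA' : 4 * A = -(δ : F) := by
      rw [hA, z1_c4, h4]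
      push_cast
      ring
    rw [hΔF] at hv
    have h2 : (2 : 𝓞 F) ∉ v.asIdeal := fun hh => hv (v.asIdeal.mem_of_dvd hd2 hh)
    have hδv : (δ : 𝓞 F) ∉ v.asIdeal := fun hh => hv (v.asIdeal.mem_of_dvd hdδ hh)
    obtain ⟨γ, ζ, hγ, hX, g1, g3, g4⟩ := loc_four hI h hA' hL h2 hδv
    obtain ⟨p1, p2, p3⟩ := z1_prime hγ
    refine ⟨γ, hγ, hlast γ ζ p1 (by rw [p2]; exact hv) g1 g3 ?_, hX⟩
    rw [p2, p3]
    exact g4

end H55W
end

-- from Lib.H55W.B8
section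

/-! # H55W, part Z: Deuring's theorem, discriminant -8 -/

open NumberField IsDedekindDomain WeierstrassCurve

namespace H55W

open H55P (IQ embF eF LF Per IsHecke Pt ac Inert Dec Nm)
open H35P (WAB Ker tt GoodW IntW)
open H55K H55K.TQ
open H55K.TQ (BaseH)

theorem b8_nat {F : Type} [Field F] [NumberField F] [IQ F] (δ : ℤ) : Nm (δ : 𝓞 F) = δ.natAbs ^ 2 := by
  rcases Int.natAbs_eq δ with h | h
  · conv_lhs => rw [h, Int.cast_natCast, Nm_nat]
  · conv_lhs => rw [h, Int.cast_neg, Int.cast_natCast]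
    unfold Nm
    rw [Ideal.span_singleton_neg]
    exact Nm_nat _

theorem base_8 {F : Type} [Field F] [NumberField F] [IQ F] {φ : 𝓞 F} (hφ : TI φ) (W : WeierstrassCurve ℤ) (Om : ℂ)
    (hΔ : W.Δ ≠ 0) (hper : Per F (-(eF F (W⁄(𝓞 F)).c₄) / 48) (-(eF F (W⁄(𝓞 F)).c₆) / 864) Om)
    (hbad : ∀ v : HeightOneSpectrum (𝓞 F), (W⁄(𝓞 F)).Δ ∈ v.asIdeal → ¬ GoodAt ((W⁄(𝓞 F))⁄F) v) :
    ∃ ψ : Ideal (𝓞 F) →*₀ 𝓞 F, BaseH F (W⁄(𝓞 F)) Om (Ideal.span {((W.Δ.natAbs : ℕ) : 𝓞 F) ^ 3}) ψ := by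
  classical
  have hrel : 125 * W.c₆ ^ 2 = 98 * W.c₄ ^ 3 := by
    obtain ⟨j, act, h⟩ := z1_cma W Om hΔ hper rfl rfl
    obtain ⟨T, hT⟩ := exists_TG h hφ
    obtain ⟨e, -, h1, h2, -⟩ := tg_coord h hφ hT
    rw [z1_c4] at h1
    rw [z1_c6] at h2
    have hc : CharZero (AlgebraicClosure F) := charZero_of_injective_algebraMap (algebraMap F (AlgebraicClosure F)).injective
    rw [map_div₀, map_neg, map_intCast, map_ofNat] at h1 h2
    have e1 : ((W.c₄ : ℤ) : AlgebraicClosure F) = 90 * e ^ 2 := by linear_combination (-6) * h1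
    have e2 : ((W.c₆ : ℤ) : AlgebraicClosure F) = -756 * e ^ 3 := by linear_combination (-108) * h2
    have e3 : ((125 * W.c₆ ^ 2 : ℤ) : AlgebraicClosure F) = ((98 * W.c₄ ^ 3 : ℤ) : AlgebraicClosure F) := by
      push_cast
      rw [e1, e2]
      ring
    exact_mod_cast e3
  obtain ⟨n, h4, h6, hD⟩ := arith_eight W hΔ hrel
  have hn : n ≠ 0 := by
    rintro rfl
    have : 8 * W.Δ = 0 := by rw [hD]; ring
    exact hΔ (by omega)
  have hΔF := z0_disc (F := F) W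
  have hN2 : Nm φ = 2 := by
    have := (ti_nm hφ 0 1).2
    push_cast at this
    rw [one_mul, zero_add] at this
    norm_num at this
    exact_mod_cast this
  have hpr : Prime φ := b4_irr Nat.prime_two hN2
  obtain ⟨v₂, hv₂⟩ : ∃ v : HeightOneSpectrum (𝓞 F), v.asIdeal = Ideal.span {φ} :=
    ⟨⟨Ideal.span {φ}, (Ideal.span_singleton_prime hpr.ne_zero).2 hpr, by
      rw [Ne, Ideal.span_singleton_eq_bot]
      exact hpr.ne_zero⟩, rfl⟩
  have hram : (W⁄(𝓞 F)).Δ ∈ v₂.asIdeal := by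
    refine H13D.disc_ram hΔ hper v₂ (fun a => ?_)
    rw [hv₂, Ideal.mem_span_singleton]
    obtain ⟨x, y, rfl⟩ := hφ.rep a
    rw [map_add, map_mul, cj_int, cj_int, (ti_nm hφ 0 0).1]
    exact ⟨2 * y, by ring⟩
  have h2D : W.Δ % 2 = 0 := by
    rw [hΔF, hv₂, Ideal.mem_span_singleton] at hram
    have h2 : Nm φ ∣ Nm ((W.Δ : ℤ) : 𝓞 F) := by
      obtain ⟨c, hc⟩ := hram
      rw [hc, Nm_mul]
      exact dvd_mul_right _ _
    rw [hN2, b8_nat] at h2
    have h4 := Nat.prime_two.dvd_of_dvd_pow h2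
    have h5 : (2 : ℤ) ∣ W.Δ := by
      have := Int.natCast_dvd.2 h4
      exact_mod_cast this
    exact Int.emod_eq_zero_of_dvd h5
  have hd2 : (2 : 𝓞 F) ∣ ((W.Δ : ℤ) : 𝓞 F) := by
    obtain ⟨c, hc⟩ := Int.dvd_of_emod_eq_zero h2D
    refine ⟨((c : ℤ) : 𝓞 F), ?_⟩
    rw [hc]
    push_cast
    ring
  obtain ⟨f, hf, hlast⟩ := exists_f8 hφ hn hD h2D
  refine base_gen W Om hΔ hper hbad hf ?_ ?_
  · intro hu
    have h3 : IsUnit (2 : 𝓞 F) := isUnit_of_dvd_unit hd2 hu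
    have h9 : Nm (2 : 𝓞 F) = 1 := nm_unit h3
    have h9' : Nm (2 : 𝓞 F) = 2 ^ 2 := by
      have := Nm_nat (F := F) 2
      exact_mod_cast this
    rw [h9'] at h9
    norm_num at h9
  · intro Ω _ _ _ _ A B j act hA hB h v V s Kg r hv hL
    have hA' : 24 * A = -5 * (n : F) ^ 2 := by
      rw [hA, z1_c4, h4]
      push_cast
      ring
    have hB' : 216 * B = 7 * (n : F) ^ 3 := by
      rw [hB, z1_c6, h6]
      push_cast
      ring
    rw [hΔF] at hv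
    have h2 : (2 : 𝓞 F) ∉ v.asIdeal := fun hh => hv (v.asIdeal.mem_of_dvd hd2 hh)
    have hnv : (n : 𝓞 F) ∉ v.asIdeal := by
      intro hh
      have h1 : ((8 * W.Δ : ℤ) : 𝓞 F) ∈ v.asIdeal := by
        rw [hD]
        push_cast
        exact Ideal.pow_mem_of_mem _ hh 6 (by norm_num)
      push_cast at h1
      rcases v.isPrime.mem_or_mem h1 with h3 | h3
      · have h8 : (8 : 𝓞 F) = 2 ^ 3 := by norm_num
        rw [h8] at h3
        exact h2 (v.isPrime.mem_of_pow_mem 3 h3)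
      · exact hv h3
    obtain ⟨γ, η, hγ, hX, g1, g3, g4⟩ := loc_eight hφ h hA' hB' hL h2 hnv
    obtain ⟨p1, p2, p3⟩ := z1_prime hγ
    refine ⟨γ, hγ, hlast γ η p1 (by rw [p2]; exact hv) g1 ?_ ?_, hX⟩
    · rw [p3]
      exact g3
    · rw [p2, p3]
      exact g4

end H55W
end

-- from Lib.H55W.L3
section

/-! # H55W, part L: the Frobenius element, discriminant -3 -/

open NumberField IsDedekindDomain WeierstrassCurve

namespace H55W

open H55P (IQ embF eF LF Per IsHecke Pt ac Inert Dec Nm)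
open H35P (WAB Ker tt GoodW IntW)
open H55K
open H13D (RM)

variable {F : Type} [Field F] [NumberField F] [IQ F] {w : 𝓞 F}

variable {A B : F} {Om : ℂ} {Ω : Type} [Field Ω] [DecidableEq Ω]
  [Algebra F Ω] {j : Ω →+* ℂ} {act : 𝓞 F →+* AddMonoid.End (Pt (WAB A B) Ω)} {V : ValuationSubring Ω}
  {Kg : AddSubgroup (Pt (WAB A B) Ω)} {v : HeightOneSpectrum (𝓞 F)} {s : Ω ≃ₐ[F] Ω} {r : Ω}

theorem l3_cube (hw : EI w) : w ^ 3 = 1 := by
  have h1 := hw.sq
  linear_combination (w - 1) * h1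

theorem l3_unit (hw : EI w) : IsUnit w :=
  IsUnit.of_mul_eq_one (w ^ 2) (by rw [← l3_cube hw]; ring)

theorem l3_ak (a : 𝓞 F) : ∀ n : ℕ, ak Ω (a ^ n) = ak Ω a ^ n := by
  intro n
  unfold ak
  rw [← map_pow]
  simp

theorem l3_om (hw : EI w) : ak Ω w ^ 2 + ak Ω w + 1 = 0 := by
  have h1 := hw.sq
  have h2 : algebraMap F Ω ((w ^ 2 + w + 1 : 𝓞 F) : F) = 0 := by rw [h1]; simp
  unfold ak
  simpa using h2

theorem l3_omcube (hw : EI w) : ak Ω w ^ 3 = 1 := by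
  have h1 := l3_om (Ω := Ω) hw
  linear_combination (ak Ω w - 1) * h1

theorem l3_nat {n : ℕ} (hn : n ≠ 0) (j : Ω →+* ℂ) : (n : Ω) ≠ 0 := by
  intro h
  have h1 := congrArg j h
  rw [map_natCast, map_zero, Nat.cast_eq_zero] at h1
  exact hn h1

theorem l3_om1 (hw : EI w) (j : Ω →+* ℂ) : ak Ω w ≠ 1 := by
  intro h
  have h1 := l3_om (Ω := Ω) hw
  rw [h] at h1
  have h2 : ((3 : ℕ) : Ω) = 0 := by
    push_cast
    linear_combination h1
  exact l3_nat (by norm_num) j h2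

theorem l3_add (a b : 𝓞 F) (P : Pt (WAB A B) Ω) : act (a + b) P = act a P + act b P := by
  rw [map_add]
  rfl

theorem l3_dvd {m n : ℕ} (h : (m : 𝓞 F) ∣ (n : 𝓞 F)) : m ^ 2 ∣ n ^ 2 := by
  obtain ⟨z, hz⟩ := h
  have h1 := congrArg Nm hz
  rw [Nm_mul, Nm_nat, Nm_nat] at h1
  exact ⟨Nm z, h1⟩

/-- the coordinates of act w P -/
theorem l3_act (hw : EI w) (h : CMA F A B Om j act) (P : Pt (WAB A B) Ω) :
    xc (act w P) = ak Ω w * xc P ∧ yc (act w P) = yc P := by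
  obtain ⟨h1, h2⟩ := act_unit h (l3_unit hw) P
  have h3 := l3_omcube (Ω := Ω) hw
  constructor
  · rw [← h1]
    linear_combination (-xc (act w P)) * h3
  · rw [← h2, h3, one_mul]

/-- Chunk L3 (S/M). A point P ≠ 0 with xc P ≠ 0 (h.gen 5: T₀ ≠ 0 killed by 5; if all nonzero multiples a T₀ had x = 0 there would be at most 2 of them (H55K.xc_eq), but there are 24: tor_card; or: two points T, T' with T' ≠ ±T and xc = 0 for both contradicts xc_eq). act_unit for w: (w^(-2) x, w^(-3) y) = (w x, y) is on the curve (eqnA for act w P ≠ 0):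
y^2 = x^3 + A w x + B = x^3 + A x + B, so A (w - 1) x = 0. ak is injective. -/
theorem a_zero (hw : EI w) (h : CMA F A B Om j act) : A = 0 := by
  have h5 : (5 : 𝓞 F) ≠ 0 := by norm_num
  obtain ⟨T, -, -, hT, -⟩ := h.gen 5 h5
  have hT0 : T ≠ 0 := by
    intro h0
    have h1 : act 1 T = 0 := by rw [h0, map_zero]
    have h2 := (hT 1).1 h1
    have h3 : 5 ^ 2 ∣ 1 ^ 2 := l3_dvd (F := F) (by exact_mod_cast h2)
    norm_num at h3
  have hT2 : act 2 T = T + T := by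
    have h1 : (2 : 𝓞 F) = 1 + 1 := by norm_num
    rw [h1, l3_add, l0_one]
  have hT20 : act 2 T ≠ 0 := by
    intro h0
    have h2 := (hT 2).1 h0
    have h3 : 5 ^ 2 ∣ 2 ^ 2 := l3_dvd (F := F) (by exact_mod_cast h2)
    norm_num at h3
  obtain ⟨P, hP, hPx⟩ : ∃ P : Pt (WAB A B) Ω, P ≠ 0 ∧ xc P ≠ 0 := by
    by_contra hcon
    push Not at hcon
    rcases xc_eq hT20 hT0 ((hcon _ hT20).trans (hcon _ hT0).symm) with h1 | h1
    · rw [hT2] at h1
      exact hT0 (by simpa using h1)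
    · have h2 : act 3 T = 0 := by
        have h3 : (3 : 𝓞 F) = 2 + 1 := by norm_num
        rw [h3, l3_add, l0_one, h1, neg_add_cancel]
      have h3 := (hT 3).1 h2
      have h4 : 5 ^ 2 ∣ 3 ^ 2 := l3_dvd (F := F) (by exact_mod_cast h3)
      norm_num at h4
  have hQ : act w P ≠ 0 := fun h0 => hP (l0_inj (l3_unit hw) h0)
  obtain ⟨e1, e2⟩ := l3_act hw h P
  have e3 := eqnA hQ
  have e4 := eqnA hP
  rw [e1, e2] at e3
  have e5 := l3_omcube (Ω := Ω) hw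
  have e6 : algebraMap F Ω A * ((ak Ω w - 1) * xc P) = 0 := by
    linear_combination e4 - e3 - (xc P) ^ 3 * e5
  have e7 : algebraMap F Ω A = 0 := by
    rcases mul_eq_zero.1 e6 with e8 | e8
    · exact e8
    · exfalso
      rcases mul_eq_zero.1 e8 with e9 | e9
      · exact l3_om1 hw j (sub_eq_zero.1 e9)
      · exact hPx e9
  exact (map_eq_zero_iff _ (algebraMap F Ω).injective).1 e7

/-- Chunk L3 (M). T from h.gen 3. x = xc T, y = yc T. act 3 T = T + T + T = 0 and T ≠ 0 (3 does not divide 1), T + T = -T ≠ 0, so y ≠ 0 (if y = 0 then T = -T: pt_ext, yc_neg; T + T = 0) and dbl_coords: x = ((3x^2 + A)/(2y))^2 - 2x with A = 0: 9x^4 = 12 x y^2 = 12 x (x^3 + B) (eqnA): 3 x^4 + 12 B x = 0 up to sign: x = 0 or x^3 = -4B. If x = 0: act w T has the coordinates of T (act_unit: w^2 x' = 0, w^3 y' = y, w^3 = 1), so act w T = T (pt_ext),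
act (w - 1) T = 0, 3 divides w - 1: contradiction (ei_uniq). So x^3 = -4B = -b', and (2y)^2 = 4x^3 + 4B = -3 b'. -/
theorem tor_three (hw : EI w) (h : CMA F A B Om j act) {b' : ℤ} (hB : 4 * B = (b' : F)) :
    ∃ T : Pt (WAB A B) Ω, (∀ a : 𝓞 F, act a T = 0 ↔ (3 : 𝓞 F) ∣ a) ∧ (∀ P : Pt (WAB A B) Ω, act 3 P = 0 → ∃ a : 𝓞 F, P = act a T) ∧
      xc T ^ 3 = -(b' : Ω) ∧ (2 * yc T) ^ 2 = -3 * (b' : Ω) := by
  have h3 : (3 : 𝓞 F) ≠ 0 := by norm_num
  obtain ⟨T, -, hg, hT, -⟩ := h.gen 3 h3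
  have hA0 : algebraMap F Ω A = 0 := by rw [a_zero hw h, map_zero]
  have hBO : 4 * algebraMap F Ω B = (b' : Ω) := by
    have h1 := congrArg (algebraMap F Ω) hB
    rw [map_mul, map_ofNat, map_intCast] at h1
    exact h1
  have hT0 : T ≠ 0 := by
    intro h0
    have h1 : act 1 T = 0 := by rw [h0, map_zero]
    have h2 := (hT 1).1 h1
    have h3 : 3 ^ 2 ∣ 1 ^ 2 := l3_dvd (F := F) (by exact_mod_cast h2)
    norm_num at h3
  have hTT : T + T = -T := by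
    have h1 : act 3 T = 0 := (hT 3).2 (dvd_refl _)
    have h2 : (3 : 𝓞 F) = 1 + 1 + 1 := by norm_num
    rw [h2, l3_add, l3_add, l0_one] at h1
    exact eq_neg_of_add_eq_zero_left h1
  have h20 : (2 : Ω) ≠ 0 := by
    have := l3_nat (Ω := Ω) (n := 2) (by norm_num) j
    exact_mod_cast this
  have hy : 2 * yc T ≠ 0 := by
    intro h0
    have h1 : yc T = 0 := (mul_eq_zero.1 h0).resolve_left h20
    have h2 : -T = T := by
      refine pt_ext (neg_ne hT0) hT0 (xc_neg T) ?_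
      rw [yc_neg, h1, neg_zero]
    rw [h2] at hTT
    exact hT0 (by simpa using hTT)
  obtain ⟨-, e1, -⟩ := dbl_coords hT0 hy
  rw [hTT, xc_neg, base_a4, hA0, add_zero] at e1
  have e2 := eqnA hT0
  rw [hA0, zero_mul, add_zero] at e2
  have e3 : 9 * xc T ^ 4 = 12 * xc T * yc T ^ 2 := by
    have h1 : ((3 * xc T ^ 2) / (2 * yc T)) ^ 2 * (2 * yc T) ^ 2 = (3 * xc T ^ 2) ^ 2 := by
      rw [← mul_pow, div_mul_cancel₀ _ hy]
    have h2 : ((3 * xc T ^ 2) / (2 * yc T)) ^ 2 = 3 * xc T := by linear_combination -e1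
    rw [h2] at h1
    linear_combination -h1
  have h30 : (3 : Ω) ≠ 0 := by
    have := l3_nat (Ω := Ω) (n := 3) (by norm_num) j
    exact_mod_cast this
  have e4 : 3 * (xc T * (xc T ^ 3 + 4 * algebraMap F Ω B)) = 0 := by
    linear_combination (-1 : Ω) * e3 - 12 * xc T * e2
  have e5 : xc T ^ 3 = -(b' : Ω) := by
    rcases mul_eq_zero.1 ((mul_eq_zero.1 e4).resolve_left h30) with e6 | e6
    · exfalso
      obtain ⟨e7, e8⟩ := l3_act hw h T
      have hQ : act w T ≠ 0 := fun h0 => hT0 (l0_inj (l3_unit hw) h0)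
      have e9 : act w T = T := pt_ext hQ hT0 (by rw [e7, e6, mul_zero]) e8
      have e10 : act (w - 1) T = 0 := by rw [l0_sub, l0_one, e9, sub_self]
      have e11 := ei_uniq hw (l3_unit hw) ((hT _).1 e10)
      have e12 := hw.sq
      rw [e11] at e12
      norm_num at e12
    · rw [← hBO]
      linear_combination e6
  refine ⟨T, hT, fun P hP => hg P ?_, e5, ?_⟩
  · exact hP
  · linear_combination 4 * e2 + 4 * e5 + hBO

end H55W
end
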