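import Mathlib
import Pool.Agent.Lib.H1M.PP.D_H28T_Defs
import Pool.Agent.Lib.H1M.PP.M015
import Pool.Agent.Lib.H1M.PP.M038
import Pool.Agent.Lib.H1M.PP.M045
import Pool.Agent.Lib.H1M.PP.M049
import Pool.Agent.Lib.H1M.PP.M054
import Pool.Agent.Lib.H1M.PP.M071
import Pool.Agent.Lib.H1M.PP.M073
import Pool.Agent.Lib.H1M.PP.M076
import Pool.Agent.Lib.H1M.PP.M080

/-! Merged copies (to shorten the build) of Lib.H28T.CB2A, Lib.H28T.CB2, Lib.H13R.B1, Lib.H28R.W4, Lib.H28R.W5, Lib.H28T.CB3A, Lib.H28T.DT, Lib.H13R.B2. -/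

-- from Lib.H28T.CB2A
section

open NumberField IsDedekindDomain WeierstrassCurve

namespace H28T

open H55P H55R
open H55K H55K.TQ

/-- Chunk CB2A (S/M). K any number field in which p is unramified, v a prime of K, π in v, π divides p: π is not in v^2 (unr_iff for K), so the valuation of π is exp(-1): valuation_of_algebraMap, intValuation_le_pow_iff_mem (or H55R.ord_int and BF1_val: ord v π = 1). -/
theorem cb2a_val {p : ℕ} (hp : p.Prime) {K : Type} [Field K] [NumberField K] (hU : H55P.UnrP p K) (v : Pl K)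
    {x : 𝓞 K} (hx : x ∣ (p : 𝓞 K)) (hv : x ∈ v.asIdeal) : v.valuation K (x : K) = WithZero.exp (-1 : ℤ) := by
  have hp0 : (p : 𝓞 K) ≠ 0 := by exact_mod_cast hp.ne_zero
  have hx0 : x ≠ 0 := by
    rintro rfl
    exact hp0 (zero_dvd_iff.1 hx)
  have hxK : (x : K) ≠ 0 := by
    intro h
    exact hx0 (RingOfIntegers.coe_injective (h.trans (map_zero (algebraMap (𝓞 K) K)).symm))
  have h1 : ((1 : ℕ) : ℤ) ≤ ord v (Units.mk0 (x : K) hxK) := by
    rw [ord_int v x _ (Units.val_mk0 hxK), pow_one]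
    exact hv
  have h2 : ¬ ((2 : ℕ) : ℤ) ≤ ord v (Units.mk0 (x : K) hxK) := by
    rw [ord_int v x _ (Units.val_mk0 hxK)]
    intro h
    obtain ⟨c, hc⟩ := hx
    refine (unr_iff hp).1 hU v ?_
    rw [hc]
    exact (v.asIdeal ^ 2).mul_mem_right c h
  have h3 := BF1_val v (Units.mk0 (x : K) hxK)
  have h4 : ord v (Units.mk0 (x : K) hxK) = 1 := by
    push_cast at h1 h2
    omega
  rw [Units.val_mk0, h4] at h3
  exact h3

/-- Chunk CB2A (S/M). A number field with a primitive p-th root of unity, in which a prime W has ramification index 1 over the prime below in K, K unramified at p: contradiction for p ≥ 3. W contains p. v = W.under (𝓞 K): v.valuation p = exp(-1) (cb2a_val), so W.valuation p = exp(-1) (H55R.ord_map with es = 1, BF1_val; as in the end of H55K/K6B.lean). On the other hand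
p = unit * (1 - ζ)^(p-1) : IsPrimitiveRoot: H28R.W12_p2 in H28R/W12.lean or IsPrimitiveRoot.toInteger... gives W.valuation p = W.valuation (1 - ζ)^(p-1), so -1 is a multiple of p - 1 ≥ 2. See the port of not_cyc in H28G/K6.lean and H28R/W12.lean. -/
theorem cb2a_ram {p : ℕ} (hp : p.Prime) (h3 : 3 ≤ p) {K C : Type} [Field K] [NumberField K] [Field C] [NumberField C]
    [Algebra K C] [IsGalois K C] (hU : H55P.UnrP p K) {ζ : C} (hζ : IsPrimitiveRoot ζ p) (W : Pl C) (hW : (p : 𝓞 C) ∈ W.asIdeal) :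
    es K C (W.under (𝓞 K)) ≠ 1 := by
  intro he
  have hpv : (p : 𝓞 K) ∈ (W.under (𝓞 K)).asIdeal := by
    show algebraMap (𝓞 K) (𝓞 C) (p : 𝓞 K) ∈ W.asIdeal
    rw [map_natCast]
    exact hW
  have h1 := cb2a_val hp hU (W.under (𝓞 K)) dvd_rfl hpv
  have hpK : ((p : 𝓞 K) : K) = (p : K) := by push_cast; rfl
  have hp0 : (p : K) ≠ 0 := by exact_mod_cast hp.ne_zero
  rw [hpK] at h1
  have h2 : ord (W.under (𝓞 K)) (Units.mk0 (p : K) hp0) = 1 := by
    have h3 := BF1_val (W.under (𝓞 K)) (Units.mk0 (p : K) hp0)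
    rw [Units.val_mk0, h1, WithZero.exp_inj] at h3
    omega
  have h4 := ord_map W (W.under (𝓞 K)) rfl (Units.mk0 (p : K) hp0)
  rw [he, h2] at h4
  have h5 := BF1_val W (Units.map (algebraMap K C : K →* C) (Units.mk0 (p : K) hp0))
  have h6 : ((Units.map (algebraMap K C : K →* C) (Units.mk0 (p : K) hp0) : Cˣ) : C) = (p : C) := by
    show algebraMap K C (p : K) = _
    rw [map_natCast]
  rw [h4, h6] at h5
  have h7 : W.valuation C (p : C) = WithZero.exp (-1 : ℤ) := by
    rw [h5]
    norm_num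
  have hv1 : W.valuation C ζ = 1 := by
    refine H28R.W12_root W hp.ne_zero ?_
    rw [← map_pow, hζ.pow_eq_one, map_one]
  have h8 := H28R.W12_p2 W hp hv1 hζ
  have hne : (1 : C) - ζ ≠ 0 := sub_ne_zero.2 (hζ.ne_one hp.one_lt).symm
  obtain ⟨a, ha⟩ : ∃ a : ℤ, W.valuation C (1 - ζ) = WithZero.exp (-a) := by
    have h9 := BF1_val W (Units.mk0 (1 - ζ) hne)
    exact ⟨_, h9⟩
  rw [map_div₀, map_pow, h7, ha] at h8
  have h9 : WithZero.exp (-1 : ℤ) ≤ WithZero.exp (-a) ^ (p - 1) := by
    have hpos : (0 : WithZero (Multiplicative ℤ)) < WithZero.exp (-a) ^ (p - 1) := pow_pos (WithZero.exp_pos) _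
    rwa [div_le_one₀ hpos] at h8
  rw [← WithZero.exp_nsmul, WithZero.exp_le_exp] at h9
  -- the other estimate
  have hodd : Odd p := hp.odd_of_ne_two (by omega)
  have hζi : IsIntegral ℤ ζ := hζ.isIntegral hp.pos
  obtain ⟨z, hz⟩ : ∃ z : 𝓞 C, (z : C) = ζ := ⟨⟨ζ, hζi⟩, rfl⟩
  have hzp : z ^ p = 1 := by
    apply RingOfIntegers.coe_injective
    rw [map_pow, map_one]
    have h12 : (z : C) ^ p = 1 := by rw [hz, hζ.pow_eq_one]
    exact h12
  obtain ⟨r, hr⟩ := exists_add_pow_prime_eq hp (1 : 𝓞 C) (-z)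
  have h10 : (1 + -z) ^ p = (p : 𝓞 C) * (-z * r) := by
    rw [hr, one_pow, hodd.neg_pow, hzp]
    ring
  have h11 : (1 - ζ) ^ p = (p : C) * ((-z * r : 𝓞 C) : C) := by
    have h12 := congrArg (algebraMap (𝓞 C) C) h10
    rw [map_pow, map_add, map_neg, map_one, map_mul, map_natCast] at h12
    rw [← hz, sub_eq_add_neg]
    exact h12
  have h13 : W.valuation C ((1 - ζ) ^ p) ≤ WithZero.exp (-1 : ℤ) := by
    rw [h11, map_mul, h7]
    exact mul_le_of_le_one_right' (W.valuation_le_one _)
  rw [map_pow, ha, ← WithZero.exp_nsmul, WithZero.exp_le_exp] at h13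
  simp only [nsmul_eq_mul] at h9 h13
  have hpp : ((p - 1 : ℕ) : ℤ) = (p : ℤ) - 1 := by
    have := hp.one_lt
    omega
  rw [hpp] at h9
  have hp3 : (3 : ℤ) ≤ (p : ℤ) := by exact_mod_cast h3
  have ha1 : 1 ≤ a := by
    by_contra hcon
    have h14 : a ≤ 0 := by omega
    nlinarith
  nlinarith

end H28T
end

-- from Lib.H28T.CB2
section

open NumberField IsDedekindDomain WeierstrassCurve

namespace H28T

open H55P H55R
open H35P (WAB Ker tt)
open H55K H55K.TQ

variable {F : Type} [Field F] [NumberField F] [IQ F] {A B : F} {Om : ℂ} {Ω : Type} [Field Ω] [DecidableEq Ω]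
  [Algebra F Ω] {j : Ω →+* ℂ} {act : 𝓞 F →+* AddMonoid.End (Pt (WAB A B) Ω)} {m : Ideal (𝓞 F)}
  {ψ : Ideal (𝓞 F) →*₀ 𝓞 F} {p : ℕ} {K C : Type} [Field K] [NumberField K] [Field C] [NumberField C] [Algebra F K]
  [Algebra F C] [Algebra K C] [IsScalarTower F K C] [Algebra K Ω] [Algebra C Ω] [IsScalarTower K C Ω]
  [IsScalarTower F K Ω] [IsScalarTower F C Ω]

/-- N is contained in C. -/
theorem cb2_hom [IsAlgClosure F Ω] (N : Type) [Field N] [NumberField N] [Algebra F N] [Algebra K N] [Algebra N Ω]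
    [IsScalarTower F K N] [IsScalarTower K N Ω] [IsScalarTower F N Ω]
    (h : ∀ s : Ω ≃ₐ[F] Ω, Fxd C s → Fxd N s) :
    ∃ f : N →ₐ[K] C, ∀ x : N, algebraMap C Ω (f x) = algebraMap N Ω x := by
  choose f hf using fun x : N => mem_of_fxd (F := F) C (algebraMap N Ω x) fun s hs => h s hs x
  have hinj : Function.Injective (algebraMap C Ω) := (algebraMap C Ω).injective
  refine ⟨{ toFun := f, map_one' := ?_, map_mul' := ?_, map_zero' := ?_, map_add' := ?_, commutes' := ?_ }, hf⟩
  · apply hinj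
    rw [hf, map_one, map_one]
  · intro x y
    apply hinj
    rw [hf, map_mul, map_mul, hf, hf]
  · apply hinj
    rw [hf, map_zero, map_zero]
  · intro x y
    apply hinj
    rw [hf, map_add, map_add, hf, hf]
  · intro x
    apply hinj
    rw [hf, ← IsScalarTower.algebraMap_apply K N Ω, ← IsScalarTower.algebraMap_apply K C Ω]

omit [IQ F] in
theorem cb2_unit {x : 𝓞 F} (h : Nm x = 1) : IsUnit x := by
  unfold H55P.Nm at h
  rwa [Ideal.absNorm_eq_one_iff, Ideal.span_singleton_eq_top] at h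

/-- Chunk CB2 (M/L), the port of H28R.not_full (H28R/W3.lean), new proof. The points killed by π are not all defined over C = K(ζ). Suppose they are (hF). N from exists_TFld K (K1A.lean; hπ.ne_zero). v : Pl K a prime containing the image of π (H55R.under_exists for the prime (π) of F), v.valuation K π = exp(-1) (cb2a_val, algebraMap π divides p). The good models hG at valuation rings with V(π) < 1:
V(p) < 1 (p = π π'), h.good. tot_ram (K3.lean): finrank K N = Nm π - 1. Every s with Fxd C s satisfies Fxd K s and fixes Tor act π (hF), so Fxd N s (TFld.gen); so the image of N in Ω is contained in the image of C (mem_of_fxd, K0B.lean, applied with C in place of N), which gives a K-algebra homomorphism N → C, so finrank K N ≤ finrank K C ≤ p - 1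
(hC.deg, Nat.le_of_dvd). Nm π divides Nm p = p^2 (Nm_nat, Nm_mul) and is not 1 (π not a unit, H55K/D0-D1), so Nm π = p (it is ≤ p), finrank K N = p - 1 = finrank K C and the image of N is the image of C (injective K-linear map between spaces of the same dimension): there is ζ' in N with algebraMap N Ω ζ' = algebraMap C Ω ζ, a primitive p-th root of unity.
π' with p = π π': Nm π' = p is a prime number so π' is not a unit; π does not divide π' (π^2 does not divide p: h.unr for the prime (π), or UnrP). w' : Pl N a prime containing the image of π' (first a prime ideal of F containing π': not a unit). N/K is Galois (TFld.gal). V above w' (exists_abw): V(π) = 1, because the prime of F below w' contains π' and not π: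
if it contains π and π' it is span {π} (π prime, maximal) and π ∣ π'; V(p) < 1, so GV A B V (h.good). For s in Inert V with Fxd K s, cong_fix (K4.lean) with β = π: every R in Tor act π is fixed (Inert V s: V(s x - x) < 1 for x in V), so Fxd N s (TFld.gen). unr_of_inert (K0C.lean): es K N (w'.under (𝓞 K)) = 1. This contradicts cb2a_ram (for N, ζ'; p ∈ w'). -/
theorem cb2_not [IsAlgClosure F Ω] (h : Dta A B Om j act m ψ p) (hU : H55P.UnrP p K) {ζ : C} (hC : Cyc F p K C ζ)
    {π : 𝓞 F} (hπ : Prime π) (hd : π ∣ (p : 𝓞 F)) :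
    ¬ ∀ s : Ω ≃ₐ[F] Ω, Fxd C s → ∀ T ∈ Tor act π, ac (WAB A B) s T = T := by
  intro hF
  have hp := h.prime
  have h5 := h.five
  obtain ⟨π', hπ'⟩ := hd
  have hNm : Nm π * Nm π' = p ^ 2 := by
    rw [← Nm_mul, ← hπ', Nm_nat]
  obtain ⟨N, _, _, _, _, _, _, _, _, hN⟩ := exists_TFld h.cma K hπ.ne_zero
  have hgalN : IsGalois K N := hN.gal
  -- the prime above π
  obtain ⟨v, hv⟩ := under_exists (K := F) (L := K) (⟨Ideal.span {π}, (Ideal.span_singleton_prime hπ.ne_zero).2 hπ, by
    rw [Ne, Ideal.span_singleton_eq_bot]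
    exact hπ.ne_zero⟩ : Pl F)
  have hπv : algebraMap (𝓞 F) (𝓞 K) π ∈ v.asIdeal := by
    have h1 : π ∈ (v.under (𝓞 F)).asIdeal := by
      rw [hv]
      exact Ideal.mem_span_singleton_self _
    exact h1
  have hdK : algebraMap (𝓞 F) (𝓞 K) π ∣ (p : 𝓞 K) := by
    refine ⟨algebraMap (𝓞 F) (𝓞 K) π', ?_⟩
    rw [← map_mul, ← hπ', map_natCast]
  have hval := cb2a_val hp hU v hdK hπv
  have hval' : v.valuation K (algebraMap F K (π : F)) = WithZero.exp (-1 : ℤ) := hval
  have hpΩ : ak Ω (p : 𝓞 F) = (p : Ω) := by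
    have e : ((p : 𝓞 F) : F) = (p : F) := by push_cast; rfl
    unfold ak
    rw [e, map_natCast]
  have hmulΩ : ak Ω (p : 𝓞 F) = ak Ω π * ak Ω π' := by
    rw [hπ']
    exact map_mul (algebraMap F Ω) (π : F) (π' : F)
  have hle1 : ∀ (V : ValuationSubring Ω) (a : 𝓞 F), V.valuation (ak Ω a) ≤ 1 := fun V a => k0_int (N := F) V a
  have TR := tot_ram h.cma hπ hN v hval' fun V hV => by
    apply h.good
    rw [← hpΩ, hmulΩ, map_mul]
    exact mul_lt_one_of_lt_of_le hV (hle1 V π')
  -- N in C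
  obtain ⟨f, hf⟩ := cb2_hom (F := F) (K := K) (C := C) (Ω := Ω) N fun s hs =>
    hN.gen s (fun x => by
      have h1 := hs (algebraMap K C x)
      rwa [← IsScalarTower.algebraMap_apply K C Ω] at h1) (hF s hs)
  have hfinC : FiniteDimensional K C := by
    have : IsScalarTower ℚ K C := IsScalarTower.of_algebraMap_eq' (Subsingleton.elim _ _)
    exact Module.Finite.of_restrictScalars_finite ℚ K C
  have hfinN : FiniteDimensional K N := by
    have : IsScalarTower ℚ K N := IsScalarTower.of_algebraMap_eq' (Subsingleton.elim _ _)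
    exact Module.Finite.of_restrictScalars_finite ℚ K N
  have hinj : Function.Injective f.toLinearMap := f.toRingHom.injective
  have hle := LinearMap.finrank_le_finrank_of_injective hinj
  have hdeg : Module.finrank K C ≤ p - 1 := Nat.le_of_dvd (by omega) hC.deg
  rw [TR.deg] at hle
  have hNp : Nm π = p := by
    obtain ⟨i, hi, hi2⟩ := (Nat.dvd_prime_pow hp).1 (Dvd.intro _ hNm)
    have hile : i = 0 ∨ i = 1 ∨ i = 2 := by omega
    rcases hile with rfl | rfl | rfl
    · rw [pow_zero] at hi2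
      exact absurd (cb2_unit hi2) hπ.not_isUnit
    · rwa [pow_one] at hi2
    · have h1 : p * 5 ≤ p ^ 2 := by
        rw [pow_two]
        exact Nat.mul_le_mul_left p h5
      omega
  have hNp' : Nm π' = p := by
    rw [hNp, pow_two] at hNm
    exact Nat.eq_of_mul_eq_mul_left hp.pos hNm
  have heq : Module.finrank K N = Module.finrank K C := by
    have h1 := TR.deg
    rw [hNp] at h1 hle
    omega
  have hsurj : Function.Surjective f.toLinearMap := (LinearMap.injective_iff_surjective_of_finrank_eq_finrank heq).1 hinj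
  obtain ⟨ζ', hζ'⟩ := hsurj ζ
  have hprim : IsPrimitiveRoot ζ' p := by
    refine IsPrimitiveRoot.of_map_of_injective (f := f) ?_ f.toRingHom.injective
    have e : f ζ' = ζ := hζ'
    rw [e]
    exact hC.prim
  -- the prime above π'
  have hnu : ¬ IsUnit π' := by
    intro hu
    have h1 : Nm π' = 1 := by
      unfold H55P.Nm
      rw [Ideal.absNorm_eq_one_iff, Ideal.span_singleton_eq_top]
      exact hu
    omega
  have hπ0 : π' ≠ 0 := by
    rintro rfl
    rw [mul_zero] at hπ'
    have h1 : p = 0 := by exact_mod_cast hπ'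
    omega
  obtain ⟨M, hM, hMπ⟩ := Ideal.exists_le_maximal (Ideal.span {π'}) (by
    rw [Ne, Ideal.span_singleton_eq_top]
    exact hnu)
  have hMm : π' ∈ M := hMπ (Ideal.mem_span_singleton_self _)
  obtain ⟨u, hu⟩ : ∃ u : Pl F, u.asIdeal = M := ⟨⟨M, hM.isPrime, by
    rintro rfl
    exact hπ0 ((Submodule.mem_bot _).1 hMm)⟩, rfl⟩
  have huπ : π ∉ u.asIdeal := by
    intro h1
    apply h.unr u
    rw [hπ', pow_two]
    exact Ideal.mul_mem_mul h1 (hu ▸ hMm)
  obtain ⟨W, hW⟩ := under_exists (K := F) (L := N) u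
  have hpu : (p : 𝓞 F) ∈ u.asIdeal := by
    rw [hπ', hu]
    exact M.mul_mem_left _ hMm
  have hpW : (p : 𝓞 N) ∈ W.asIdeal := by
    have h1 : (p : 𝓞 F) ∈ (W.under (𝓞 F)).asIdeal := by
      rw [hW]
      exact hpu
    have h2 : algebraMap (𝓞 F) (𝓞 N) (p : 𝓞 F) ∈ W.asIdeal := h1
    rwa [map_natCast] at h2
  obtain ⟨V, hV⟩ := exists_abw Ω W
  have hVu : Abw V u := hV.below hW
  have hπ1 : V.valuation (ak Ω π) = 1 :=
    (hVu.eq_one (π : F)).2 ((HeightOneSpectrum.valuation_eq_one_iff_notMem u).2 huπ)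
  have hp1 : V.valuation (p : Ω) < 1 := by
    rw [← hpΩ]
    exact (hVu.lt _).2 ((u.valuation_lt_one_iff_mem _).2 hpu)
  have hes : es K N (W.under (𝓞 K)) = 1 := by
    refine unr_of_inert (F := F) (K := K) hV ?_
    intro s hs hsK
    refine hN.gen s hsK ?_
    intro R hR
    exact cong_fix h.cma (h.good V hp1) hπ1 hR ⟨fun hx => hs _ hx, fun hy => hs _ hy⟩
  exact cb2a_ram hp (by omega) hU hprim W hpW hes

end H28T
end

-- from Lib.H13R.B1
section

/-! # H13R: the points killed by π are not all defined over K(ζ) -/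

open NumberField IsDedekindDomain WeierstrassCurve

namespace H13R

open H55P H55R
open H35P (WAB Ker tt)
open H55K H55K.TQ
open H28T

variable {F : Type} [Field F] [NumberField F] [IQ F] {A B : F} {Om : ℂ} {Ω : Type} [Field Ω] [DecidableEq Ω]
  [Algebra F Ω] {j : Ω →+* ℂ} {act : 𝓞 F →+* AddMonoid.End (Pt (WAB A B) Ω)} {m : Ideal (𝓞 F)}
  {ψ : Ideal (𝓞 F) →*₀ 𝓞 F} {p : ℕ} {K C : Type} [Field K] [NumberField K] [Field C] [NumberField C] [Algebra F K]
  [Algebra F C] [Algebra K C] [IsScalarTower F K C] [Algebra K Ω] [Algebra C Ω] [IsScalarTower K C Ω]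
  [IsScalarTower F K Ω] [IsScalarTower F C Ω]

/-- Chunk B1 (S). The proof of H28T.cb2_not (CB2.lean): it uses of hC : Cyc only hC.deg (finrank K C ≤ p - 1) and hC.prim. -/
theorem cb2_notR [IsAlgClosure F Ω] (h : Dta A B Om j act m ψ p) (hU : H55P.UnrP p K) {ζ : C} (hζ : IsPrimitiveRoot ζ p)
    (hdeg : Module.finrank K C ≤ p - 1) {π : 𝓞 F} (hπ : Prime π) (hd : π ∣ (p : 𝓞 F)) :
    ¬ ∀ s : Ω ≃ₐ[F] Ω, Fxd C s → ∀ T ∈ Tor act π, ac (WAB A B) s T = T := by
  intro hF
  have hp := h.prime
  have h5 := h.five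
  obtain ⟨π', hπ'⟩ := hd
  have hNm : Nm π * Nm π' = p ^ 2 := by
    rw [← Nm_mul, ← hπ', Nm_nat]
  obtain ⟨N, _, _, _, _, _, _, _, _, hN⟩ := exists_TFld h.cma K hπ.ne_zero
  have hgalN : IsGalois K N := hN.gal
  -- the prime above π
  obtain ⟨v, hv⟩ := under_exists (K := F) (L := K) (⟨Ideal.span {π}, (Ideal.span_singleton_prime hπ.ne_zero).2 hπ, by
    rw [Ne, Ideal.span_singleton_eq_bot]
    exact hπ.ne_zero⟩ : Pl F)
  have hπv : algebraMap (𝓞 F) (𝓞 K) π ∈ v.asIdeal := by
    have h1 : π ∈ (v.under (𝓞 F)).asIdeal := by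
      rw [hv]
      exact Ideal.mem_span_singleton_self _
    exact h1
  have hdK : algebraMap (𝓞 F) (𝓞 K) π ∣ (p : 𝓞 K) := by
    refine ⟨algebraMap (𝓞 F) (𝓞 K) π', ?_⟩
    rw [← map_mul, ← hπ', map_natCast]
  have hval := cb2a_val hp hU v hdK hπv
  have hval' : v.valuation K (algebraMap F K (π : F)) = WithZero.exp (-1 : ℤ) := hval
  have hpΩ : ak Ω (p : 𝓞 F) = (p : Ω) := by
    have e : ((p : 𝓞 F) : F) = (p : F) := by push_cast; rfl
    unfold ak
    rw [e, map_natCast]
  have hmulΩ : ak Ω (p : 𝓞 F) = ak Ω π * ak Ω π' := by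
    rw [hπ']
    exact map_mul (algebraMap F Ω) (π : F) (π' : F)
  have hle1 : ∀ (V : ValuationSubring Ω) (a : 𝓞 F), V.valuation (ak Ω a) ≤ 1 := fun V a => k0_int (N := F) V a
  have TR := tot_ram h.cma hπ hN v hval' fun V hV => by
    apply h.good
    rw [← hpΩ, hmulΩ, map_mul]
    exact mul_lt_one_of_lt_of_le hV (hle1 V π')
  -- N in C
  obtain ⟨f, hf⟩ := cb2_hom (F := F) (K := K) (C := C) (Ω := Ω) N fun s hs =>
    hN.gen s (fun x => by
      have h1 := hs (algebraMap K C x)
      rwa [← IsScalarTower.algebraMap_apply K C Ω] at h1) (hF s hs)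
  have hfinC : FiniteDimensional K C := by
    have : IsScalarTower ℚ K C := IsScalarTower.of_algebraMap_eq' (Subsingleton.elim _ _)
    exact Module.Finite.of_restrictScalars_finite ℚ K C
  have hfinN : FiniteDimensional K N := by
    have : IsScalarTower ℚ K N := IsScalarTower.of_algebraMap_eq' (Subsingleton.elim _ _)
    exact Module.Finite.of_restrictScalars_finite ℚ K N
  have hinj : Function.Injective f.toLinearMap := f.toRingHom.injective
  have hle := LinearMap.finrank_le_finrank_of_injective hinj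
  rw [TR.deg] at hle
  have hNp : Nm π = p := by
    obtain ⟨i, hi, hi2⟩ := (Nat.dvd_prime_pow hp).1 (Dvd.intro _ hNm)
    have hile : i = 0 ∨ i = 1 ∨ i = 2 := by omega
    rcases hile with rfl | rfl | rfl
    · rw [pow_zero] at hi2
      exact absurd (cb2_unit hi2) hπ.not_isUnit
    · rwa [pow_one] at hi2
    · have h1 : p * 5 ≤ p ^ 2 := by
        rw [pow_two]
        exact Nat.mul_le_mul_left p h5
      omega
  have hNp' : Nm π' = p := by
    rw [hNp, pow_two] at hNm
    exact Nat.eq_of_mul_eq_mul_left hp.pos hNm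
  have heq : Module.finrank K N = Module.finrank K C := by
    have h1 := TR.deg
    rw [hNp] at h1 hle
    omega
  have hsurj : Function.Surjective f.toLinearMap := (LinearMap.injective_iff_surjective_of_finrank_eq_finrank heq).1 hinj
  obtain ⟨ζ', hζ'⟩ := hsurj ζ
  have hprim : IsPrimitiveRoot ζ' p := by
    refine IsPrimitiveRoot.of_map_of_injective (f := f) ?_ f.toRingHom.injective
    have e : f ζ' = ζ := hζ'
    rw [e]
    exact hζ
  -- the prime above π'
  have hnu : ¬ IsUnit π' := by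
    intro hu
    have h1 : Nm π' = 1 := by
      unfold H55P.Nm
      rw [Ideal.absNorm_eq_one_iff, Ideal.span_singleton_eq_top]
      exact hu
    omega
  have hπ0 : π' ≠ 0 := by
    rintro rfl
    rw [mul_zero] at hπ'
    have h1 : p = 0 := by exact_mod_cast hπ'
    omega
  obtain ⟨M, hM, hMπ⟩ := Ideal.exists_le_maximal (Ideal.span {π'}) (by
    rw [Ne, Ideal.span_singleton_eq_top]
    exact hnu)
  have hMm : π' ∈ M := hMπ (Ideal.mem_span_singleton_self _)
  obtain ⟨u, hu⟩ : ∃ u : Pl F, u.asIdeal = M := ⟨⟨M, hM.isPrime, by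
    rintro rfl
    exact hπ0 ((Submodule.mem_bot _).1 hMm)⟩, rfl⟩
  have huπ : π ∉ u.asIdeal := by
    intro h1
    apply h.unr u
    rw [hπ', pow_two]
    exact Ideal.mul_mem_mul h1 (hu ▸ hMm)
  obtain ⟨W, hW⟩ := under_exists (K := F) (L := N) u
  have hpu : (p : 𝓞 F) ∈ u.asIdeal := by
    rw [hπ', hu]
    exact M.mul_mem_left _ hMm
  have hpW : (p : 𝓞 N) ∈ W.asIdeal := by
    have h1 : (p : 𝓞 F) ∈ (W.under (𝓞 F)).asIdeal := by
      rw [hW]
      exact hpu
    have h2 : algebraMap (𝓞 F) (𝓞 N) (p : 𝓞 F) ∈ W.asIdeal := h1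
    rwa [map_natCast] at h2
  obtain ⟨V, hV⟩ := exists_abw Ω W
  have hVu : Abw V u := hV.below hW
  have hπ1 : V.valuation (ak Ω π) = 1 :=
    (hVu.eq_one (π : F)).2 ((HeightOneSpectrum.valuation_eq_one_iff_notMem u).2 huπ)
  have hp1 : V.valuation (p : Ω) < 1 := by
    rw [← hpΩ]
    exact (hVu.lt _).2 ((u.valuation_lt_one_iff_mem _).2 hpu)
  have hes : es K N (W.under (𝓞 K)) = 1 := by
    refine unr_of_inert (F := F) (K := K) hV ?_
    intro s hs hsK
    refine hN.gen s hsK ?_
    intro R hR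
    exact cong_fix h.cma (h.good V hp1) hπ1 hR ⟨fun hx => hs _ hx, fun hy => hs _ hy⟩
  exact cb2a_ram hp (by omega) hU hprim W hpW hes

end H13R
end

-- from Lib.H28R.W4
section

open NumberField IsDedekindDomain

namespace H28R

open H55R

/-! Chunk W4 (M): a nontrivial Galois extension D/C has infinitely many primes of C of degree one over the rationals which do not split completely. Suppose all primes outside the finite set S, the set of the primes with Spl C D and the set of the primes with absNorm not prime are exhausted (they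
cover all primes). PS of the whole set is at least log (1/(s-1)) - C' (density_split for C/C, where every prime splits completely), PS of the split primes is log(1/(s-1))/[D:C] + O(1) (density_split), PS of the third set is bounded (H99B.deg_bound), PS S is bounded (finite). With
X10_union, X10_mono, X10_fin, X10_lim as in H99B/D5.lean (select): (1 - 1/[D:C]) log(1/(s-1)) bounded, so [D:C] = 1. -/

theorem exists_nonsplit (C D : Type) [Field C] [NumberField C] [Field D] [NumberField D]
    [Algebra C D] [IsGalois C D] (h : Module.finrank C D ≠ 1) (S : Set (Pl C)) (hS : S.Finite) :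
    ∃ w : Pl C, w ∉ S ∧ (Ideal.absNorm w.asIdeal).Prime ∧ ¬ Spl C D w := by
  by_contra hcon
  push Not at hcon
  obtain ⟨C₀, hC₀⟩ := density_A C C ⊤ inferInstance
  obtain ⟨C₁, hC₁⟩ := density_split C D
  obtain ⟨C₂, hC₂⟩ := H99B.deg_bound C
  have hU : {v : Pl C | SplA (⊤ : Subgroup Gal(C/C)) v} ⊆
      {v : Pl C | Spl C D v} ∪ ({v : Pl C | ¬ (Ideal.absNorm v.asIdeal).Prime} ∪ S) := by
    intro v _
    by_cases h1 : v ∈ S
    · exact Or.inr (Or.inr h1)
    by_cases h2 : (Ideal.absNorm v.asIdeal).Prime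
    · exact Or.inl (hcon v h1 h2)
    · exact Or.inr (Or.inl h2)
  have hidx : ((⊤ : Subgroup Gal(C/C)).index : ℝ) = 1 := by
    rw [Subgroup.index_top, Nat.cast_one]
  have key : ∀ s ∈ Set.Ioc (1 : ℝ) 2, 1 * Real.log (1 / (s - 1)) ≤
      (1 / Module.finrank C D : ℝ) * Real.log (1 / (s - 1)) +
        (C₁ + C₂ + hS.toFinset.card + C₀) := by
    intro s hs
    have h1 := X10_mono hU s hs.1
    have h2 := X10_union {v : Pl C | Spl C D v}
      ({v : Pl C | ¬ (Ideal.absNorm v.asIdeal).Prime} ∪ S) s hs.1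
    have h3 := X10_union {v : Pl C | ¬ (Ideal.absNorm v.asIdeal).Prime} S s hs.1
    have n2 := X10_nonneg ({v : Pl C | Spl C D v} ∩
      ({v : Pl C | ¬ (Ideal.absNorm v.asIdeal).Prime} ∪ S)) s
    have n3 := X10_nonneg ({v : Pl C | ¬ (Ideal.absNorm v.asIdeal).Prime} ∩ S) s
    have h5 := X10_fin hS s hs.1
    have h6 := hC₀ s hs
    rw [hidx, abs_le] at h6
    have h7 := (abs_le.1 (hC₁ s hs)).2
    have h8 := hC₂ s hs
    linarith [h6.1]
  have h1 := X10_lim key
  have h2 : 2 ≤ Module.finrank C D := by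
    have : 0 < Module.finrank C D := Module.finrank_pos
    omega
  have h3 : (2 : ℝ) ≤ Module.finrank C D := by exact_mod_cast h2
  rw [le_div_iff₀ (by linarith)] at h1
  linarith

end H28R
end

-- from Lib.H28R.W5
section

open NumberField IsDedekindDomain

namespace H28R

open H55B (F O om Prim gen)
open H55P H55R
open H28G (P27 xc yc act Tor sp ak TFld Full)

/-! Chunk W5 (M): infinitely many nice primes of C. π from exists_pi, D from H28G.exists_TFld C π, rank_ne. Apply exists_nonsplit to S together with the finite sets: primes containing 3, primes containing p, primes w with es F C (w.under) <> 1 (ram_fin; above_finite), primes of norm <= B (Ideal.finite_setOf_absNorm_le).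
w has prime norm q. v = w.under (𝓞 F): absNorm w = absNorm v ^ inertiaDeg, so inertiaDeg O = 1 and absNorm v = q (Cyc.gal: H55R.D5_norm, fs, es and Ideal.ramificationIdxIn_eq_ramificationIdx, inertiaDegIn_eq_inertiaDeg). ramificationIdx = es = 1. p | q - 1: ζ is a primitive p-th root of unity modulo w (p not in w), the units of the residue field
have order q - 1 (H99B.exists_cyc-type argument; or the q-th power argument: Frobenius for the prime w of C over C is trivial: ζ^q = ζ mod w (H28G.pow_norm), so ζ^(q-1) = 1 by separability and p | q - 1). Good: suppose v is not good. bad_dvd: π | gen v - 1. β = gen v is prime, primary, Nm β = q. Let W be a prime of D above w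
and τ in the group of D/C from H28G.frob (K = C, N = D): τ x = x^q mod W. frob_act (K = C, L = D, b = π; π not in W because p not in w): sp τ T = act β T = T for T in Tor π D (π | β - 1), so τ = 1 (TFld.gen). So x^q = x mod W for all W-integral x: the residue field of W has q elements, fs C D w = 1
(absNorm W = absNorm w ^ fs: D5_norm; a field in which all elements satisfy x^q = x has at most q elements) and es C D w = 1 (H28G.unram). So Spl C D w: contradiction. -/

theorem W5_fin_mem {C : Type} [Field C] [NumberField C] (x : 𝓞 C) (hx : x ≠ 0) :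
    {w : Pl C | x ∈ w.asIdeal}.Finite := by
  have hI : Ideal.span {x} ≠ ⊥ := by
    rw [Ne, Ideal.span_singleton_eq_bot]
    exact hx
  refine (Ideal.finite_factors hI).subset ?_
  intro w hw
  show w.asIdeal ∣ Ideal.span {x}
  rw [Ideal.dvd_span_singleton]
  exact hw

theorem W5_fin_norm {C : Type} [Field C] [NumberField C] (B : ℕ) :
    {w : Pl C | Ideal.absNorm w.asIdeal ≤ B}.Finite := by
  have h1 := Ideal.finite_setOfPred_absNorm_le (S := 𝓞 C) B
  refine Set.Finite.of_finite_image (f := HeightOneSpectrum.asIdeal) (h1.subset ?_) ?_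
  · rintro _ ⟨w, hw, rfl⟩
    exact hw
  · intro W _ W' _ h
    exact HeightOneSpectrum.ext h

theorem W5_fin_ram {C : Type} [Field C] [NumberField C] [Algebra F C] [IsGalois F C] :
    {w : Pl C | es F C (w.under (𝓞 F)) ≠ 1}.Finite := by
  have h1 := ram_fin F C
  exact h1.preimage' (f := fun w : Pl C => w.under (𝓞 F)) fun b _ => above_finite b

theorem W5_dvd {p : ℕ} (hp : p.Prime) {C : Type} [Field C] [NumberField C] {ζ : C}
    (hζ : IsPrimitiveRoot ζ p) (w : Pl C) (hpw : (p : 𝓞 C) ∉ w.asIdeal) :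
    p ∣ Ideal.absNorm w.asIdeal - 1 := by
  have hwp := w.isPrime
  obtain ⟨σ, hσ⟩ := H28G.K6_frob (K := C) (N := C) w
  have hζi : IsIntegral ℤ ζ := hζ.isIntegral hp.pos
  let z : 𝓞 C := ⟨ζ, hζi⟩
  have hz : z ^ p = 1 := by
    apply RingOfIntegers.ext
    show ζ ^ p = 1
    exact hζ.pow_eq_one
  have h11 := AlgHom.IsArithFrobAt.apply_of_pow_eq_one hσ hz hpw
  have hu : w.under (𝓞 C) = w := by
    apply HeightOneSpectrum.ext
    exact Ideal.comap_id _
  rw [H28G.K6_card w w hu] at h11
  have h13 := congrArg (fun x : 𝓞 C => (x : C)) h11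
  have h14 : σ ζ = ζ ^ Ideal.absNorm w.asIdeal := h13
  have h15 : σ ζ = ζ := σ.commutes ζ
  rw [h15] at h14
  apply hζ.dvd_of_pow_eq_one
  have hN : Ideal.absNorm w.asIdeal ≠ 0 := by
    rw [Ne, Ideal.absNorm_eq_zero_iff]
    exact w.ne_bot
  have h16 : ζ ^ (Ideal.absNorm w.asIdeal - 1) * ζ = ζ := by
    rw [← pow_succ, Nat.sub_add_cancel (by omega)]
    exact h14.symm
  have hζ0 : ζ ≠ 0 := hζ.ne_zero hp.ne_zero
  exact mul_right_cancel₀ hζ0 (by rw [h16, one_mul])

/-- A finite field in which all elements satisfy y^q = y has at most q elements. -/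
theorem W5_card (k : Type) [Field k] [Finite k] (q : ℕ) (hq : 1 < q) (h : ∀ y : k, y ^ q = y) :
    Nat.card k ≤ q := by
  classical
  have := Fintype.ofFinite k
  let P : Polynomial k := Polynomial.X ^ q - Polynomial.X
  have hP : P ≠ 0 := FiniteField.X_pow_card_sub_X_ne_zero k hq
  have hd : P.natDegree = q := FiniteField.X_pow_card_sub_X_natDegree_eq k hq
  have h1 : (Finset.univ : Finset k) ⊆ P.roots.toFinset := by
    intro y _
    rw [Multiset.mem_toFinset, Polynomial.mem_roots hP]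
    show P.eval y = 0
    simp only [P, Polynomial.eval_sub, Polynomial.eval_pow, Polynomial.eval_X, h y, sub_self]
  rw [Nat.card_eq_fintype_card, ← Finset.card_univ]
  calc (Finset.univ : Finset k).card ≤ P.roots.toFinset.card := Finset.card_le_card h1
    _ ≤ Multiset.card P.roots := Multiset.toFinset_card_le _
    _ ≤ P.natDegree := Polynomial.card_roots' P
    _ = q := hd

theorem exists_nice {p : ℕ} (hp : p.Prime) (h5 : 5 ≤ p) {K C : Type} [Field K] [NumberField K]
    [Field C] [NumberField C] [Algebra F K] [Algebra F C] [Algebra K C] [IsScalarTower F K C]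
    {ζ : C} (h : Cyc p K C ζ) (B : ℕ) (S : Set (Pl C)) (hS : S.Finite) :
    ∃ w : Pl C, w ∉ S ∧ Nice p C B w := by
  classical
  have hgal := h.gal
  obtain ⟨π, hπ, hπP, hπd⟩ := exists_pi hp h5
  obtain ⟨D, _, _, _, _, _, _, hD⟩ := H28G.exists_TFld C π hπ.ne_zero
  have hgalD := hD.gal
  have hrk := rank_ne hp h5 h hπ hπd D hD
  have h3C : (3 : 𝓞 C) ≠ 0 := by
    have : ((3 : ℕ) : 𝓞 C) ≠ 0 := Nat.cast_ne_zero.2 (by norm_num)
    exact_mod_cast this
  have hpC : ((p : ℕ) : 𝓞 C) ≠ 0 := Nat.cast_ne_zero.2 hp.ne_zero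
  obtain ⟨w, hwS, hwN, hwns⟩ := exists_nonsplit C D hrk
    (S ∪ ({w : Pl C | (3 : 𝓞 C) ∈ w.asIdeal} ∪ ({w : Pl C | (p : 𝓞 C) ∈ w.asIdeal} ∪
      ({w : Pl C | es F C (w.under (𝓞 F)) ≠ 1} ∪ {w : Pl C | Ideal.absNorm w.asIdeal ≤ B}))))
    (hS.union ((W5_fin_mem _ h3C).union ((W5_fin_mem _ hpC).union
      (W5_fin_ram.union (W5_fin_norm B)))))
  simp only [Set.mem_union, not_or] at hwS
  obtain ⟨hw1, hw3, hwp, hwe, hwB⟩ := hwS
  have hw3' : (3 : 𝓞 C) ∉ w.asIdeal := hw3
  have hwp' : (p : 𝓞 C) ∉ w.asIdeal := hwp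
  have hwe' : es F C (w.under (𝓞 F)) = 1 := not_not.1 hwe
  have hwB' : B < Ideal.absNorm w.asIdeal := not_le.1 hwB
  refine ⟨w, hw1, ?_⟩
  have hwpr := w.isPrime
  let v : Pl F := w.under (𝓞 F)
  have hvpr := v.isPrime
  have hlies : w.asIdeal.LiesOver v.asIdeal := ⟨rfl⟩
  have hnorm := D5_norm v w rfl
  have hfs : fs F C v = 1 := by
    have hpos := fs_pos (L := C) v
    by_contra hne
    have h2 : 2 ≤ fs F C v := by omega
    rw [hnorm] at hwN
    exact Nat.Prime.not_prime_pow h2 hwN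
  rw [hfs, pow_one] at hnorm
  have hgood : GoodP p v := by
    by_contra hng
    have hv3 : (3 : O) ∉ v.asIdeal := by
      intro hm
      apply hw3'
      have h1 : algebraMap O (𝓞 C) 3 ∈ w.asIdeal := hm
      rwa [map_ofNat] at h1
    have hvp : (p : O) ∉ v.asIdeal := by
      intro hm
      apply hwp'
      have h1 : algebraMap O (𝓞 C) (p : O) ∈ w.asIdeal := hm
      rwa [map_natCast] at h1
    have hdv : p ∣ Ideal.absNorm v.asIdeal - 1 := by
      rw [← hnorm]
      exact W5_dvd hp h.prim w hwp'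
    have hbd := bad_dvd hp v hv3 hvp hdv hng hπ hπd
    obtain ⟨hg1, hg2⟩ := H55B.gen_spec v hv3
    have hg0 : gen v ≠ 0 := by
      intro h0
      apply v.ne_bot
      rw [hg1, h0]
      exact Ideal.span_singleton_eq_bot.2 rfl
    have hgp : Prime (gen v) := by
      have := v.isPrime
      rw [hg1] at this
      exact (Ideal.span_singleton_prime hg0).1 this
    have hgN : H55B.Nm (gen v) = Ideal.absNorm w.asIdeal := by
      rw [hnorm]
      unfold H55B.Nm
      rw [← hg1]
    have hgmem : gen v ∈ v.asIdeal := by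
      rw [hg1]
      exact Ideal.mem_span_singleton_self _
    have hπw : algebraMap O (𝓞 C) π ∉ w.asIdeal := by
      intro hm
      apply hwp'
      obtain ⟨c, hc⟩ := hπd
      have e : ((p : ℕ) : 𝓞 C) = algebraMap O (𝓞 C) π * algebraMap O (𝓞 C) c := by
        rw [← map_mul, ← hc, map_natCast]
      rw [e]
      exact w.asIdeal.mul_mem_right _ hm
    obtain ⟨W, hW⟩ := under_exists (K := C) (L := D) w
    have hWp := W.isPrime
    have hunder : ∀ c : O, algebraMap O (𝓞 D) c ∈ W.asIdeal ↔ algebraMap O (𝓞 C) c ∈ w.asIdeal := by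
      intro c
      have e : W.asIdeal.under (𝓞 C) = w.asIdeal := congrArg HeightOneSpectrum.asIdeal hW
      have e2 : algebraMap O (𝓞 D) c = algebraMap (𝓞 C) (𝓞 D) (algebraMap O (𝓞 C) c) := by
        apply RingOfIntegers.ext
        show algebraMap F D (c : F) = algebraMap C D (algebraMap F C (c : F))
        exact IsScalarTower.algebraMap_apply F C D _
      rw [e2, ← e]
      rfl
    obtain ⟨τ, hτ⟩ := H28G.K6_frob (K := C) W
    have hfr := H28G.K6_frob_val W w hW τ hτ
    have hτ1 : τ = 1 := by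
      apply hD.gen
      intro R hR
      have h1 : sp τ R = act (gen v) R := by
        refine frob_act hgp hg2 W ?_ ?_ τ ?_ hR
        · rw [hunder]
          exact hgmem
        · rw [hunder]
          exact hπw
        · intro x hx
          rw [hgN]
          exact hfr x hx
      obtain ⟨c, hc⟩ := hbd
      have h2 : act (gen v - 1) R = 0 := by
        rw [hc, mul_comm, H28G.act_mul, (H28G.mem_Tor).1 hR, map_zero]
      rw [H28G.act_sub, H28G.act_one, sub_eq_zero] at h2
      rw [h1, h2]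
    have hfs2 : fs C D w = 1 := by
      have hWm := W.isMaximal
      let _ : Field (𝓞 D ⧸ W.asIdeal) := Ideal.Quotient.field W.asIdeal
      have hfin : Finite (𝓞 D ⧸ W.asIdeal) := Ideal.finiteQuotientOfFreeOfNeBot W.asIdeal W.ne_bot
      have hq1 : 1 < Ideal.absNorm w.asIdeal := hwN.one_lt
      have hcard := W5_card (𝓞 D ⧸ W.asIdeal) (Ideal.absNorm w.asIdeal) hq1 (by
        intro y
        obtain ⟨x, rfl⟩ := Ideal.Quotient.mk_surjective y
        rw [← map_pow, eq_comm, Ideal.Quotient.eq]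
        have h1 := hfr (x : D) (HeightOneSpectrum.valuation_le_one W x)
        rw [hτ1] at h1
        exact (HeightOneSpectrum.valuation_lt_one_iff_mem (K := D) W _).1 h1)
      have hN2 := D5_norm w W hW
      have hN3 : Nat.card (𝓞 D ⧸ W.asIdeal) = Ideal.absNorm W.asIdeal := by
        rw [Ideal.absNorm_apply, Submodule.cardQuot_apply]
      rw [hN3, hN2] at hcard
      have hpos := fs_pos (L := D) w
      by_contra hne
      have h2 : 1 < fs C D w := by omega
      have h3' : Ideal.absNorm w.asIdeal ^ 1 < Ideal.absNorm w.asIdeal ^ fs C D w :=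
        Nat.pow_lt_pow_right hq1 h2
      rw [pow_one] at h3'
      omega
    have hes2 : es C D w = 1 := H28G.unram hD w hw3' hπw
    exact hwns ⟨hes2, hfs2⟩
  refine ⟨?_, ?_, ?_, hwB'⟩
  · rw [← Ideal.inertiaDegIn_eq_inertiaDeg v.asIdeal w.asIdeal Gal(C/F)]
    exact hfs
  · rw [← Ideal.ramificationIdxIn_eq_ramificationIdx v.asIdeal w.asIdeal Gal(C/F)]
    exact hwe'
  · intro v' hv'
    have e : v' = v := HeightOneSpectrum.ext hv'
    rw [e]
    exact hgood

end H28R
end

-- from Lib.H28T.CB3A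
section

open NumberField IsDedekindDomain WeierstrassCurve

namespace H28T

open H55P H55R
open H35P (WAB Ker tt)
open H55K

variable {F : Type} [Field F] [NumberField F] [IQ F] {A B : F} {Om : ℂ} {Ω : Type} [Field Ω] [DecidableEq Ω]
  [Algebra F Ω] {j : Ω →+* ℂ} {act : 𝓞 F →+* AddMonoid.End (Pt (WAB A B) Ω)} {m : Ideal (𝓞 F)}
  {ψ : Ideal (𝓞 F) →*₀ 𝓞 F} {p : ℕ} {C D : Type} [Field C] [NumberField C] [Field D] [NumberField D] [Algebra F C]
  [Algebra F D] [Algebra C D] [IsScalarTower F C D] [Algebra C Ω] [Algebra D Ω] [IsScalarTower C D Ω]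
  [IsScalarTower F C Ω] [IsScalarTower F D Ω]

/-- Chunk CB3A (M). Almost all primes w of C of prime norm with π ∣ ψ(w ∩ F) - 1 split in the field D of the π-torsion over C. S = the primes w of C above the finite sets of h.fin and h.frob, the primes containing p (finite: H28R.W5_fin_mem, finitely many primes above a prime: H28R/H55R above_finite), and primes of C with fs F C ≠ 1 need not be excluded: w has prime norm q, v = w.under (𝓞 F), absNorm w = absNorm v ^ fs so
absNorm v = q is prime and fs = 1 (H55R.D5_norm, C/F Galois; hgal). Let w be outside S, W : Pl D above w (under_exists), V above W (exists_abw), so V is above w and v (Abw.below). (a) es C D w = 1: unr_of_inert (K0C.lean) with K = C, N = D: s in Inert V with Fxd C s fixes Tor act π: cong_fix (K4.lean), GV A B V by h.fin (v not in the finite set), V(π) = 1 since p not in w and π ∣ p. So Fxd D s (hD.gen).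
(b) fs C D w = 1: the Frobenius element: H13S.exists_frob for the field C in place of F? It is stated for F: use instead H28G.K6_frob (K := C) W : τ in Gal(D/C) with τ x - x^q in W for x in 𝓞 D, and H28G.K6_frob_val; we show τ = 1: let s be ANY extension of τ to Ω (exists_lft); it need not be a Frobenius element at V. So: take s0 : Ω ≃ₐ[F] Ω from H13S.exists_frob v V (V(a) < 1 for a in v): s0 x = x^q modulo V for x in V, q = absNorm v. For x in C with
x integral at w: s0 x = x^q = x modulo V (H28G.pow_norm w: x^q = x modulo w), so triv_of_es (K = F, N = C, es F C v = 1: ADD to S the primes w with es F C (w.under) ≠ 1: H28R.W5_fin_ram has F fixed, port it: H55R.ram_fin F C is general) gives Fxd C s0. h.frob: ac s0 T = act (ψ v) T = T for T in Tor act π (p • T = 0: π ∣ p, see H55K/K7.lean (hT1); V(p) = 1; π ∣ ψ v - 1 and act π T = 0), so Fxd D s0 (hD.gen).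
So for y in 𝓞 D: y^q = s0 y = y modulo V, i.e. y^q - y in W (Abw.lt, valuation_lt_one_iff_mem): all elements of the residue field 𝓞 D ⧸ W satisfy x^q = x, so it has at most q elements (H28R.W5_card), absNorm W = q^(fs) ≤ q (D5_norm w W), so fs C D w = 1. Compare the end of H28R/W5.lean (exists_nice) and H55K/K7.lean. -/
theorem cb3a_split [IsAlgClosure F Ω] [IsGalois F C] (h : Dta A B Om j act m ψ p) {π : 𝓞 F} (hπ : Prime π)
    (hd : π ∣ (p : 𝓞 F)) (hD : TFld act C D π) :
    ∃ S : Set (Pl C), S.Finite ∧ ∀ w : Pl C, w ∉ S → (Ideal.absNorm w.asIdeal).Prime →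
      π ∣ ψ (w.under (𝓞 F)).asIdeal - 1 → es C D w = 1 ∧ fs C D w = 1 := by
  have hgalD := hD.gal
  obtain ⟨S1, hS1f, hS1⟩ := h.fin
  obtain ⟨S2, hS2f, hS2⟩ := h.frob
  have hpC : ((p : ℕ) : 𝓞 C) ≠ 0 := Nat.cast_ne_zero.2 h.prime.ne_zero
  have hf1 : {w : Pl C | w.under (𝓞 F) ∈ S1}.Finite :=
    hS1f.preimage' (f := fun w : Pl C => w.under (𝓞 F)) fun b _ => above_finite b
  have hf2 : {w : Pl C | w.under (𝓞 F) ∈ S2}.Finite :=
    hS2f.preimage' (f := fun w : Pl C => w.under (𝓞 F)) fun b _ => above_finite b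
  have hf3 : {w : Pl C | es F C (w.under (𝓞 F)) ≠ 1}.Finite :=
    (ram_fin F C).preimage' (f := fun w : Pl C => w.under (𝓞 F)) fun b _ => above_finite b
  refine ⟨{w : Pl C | w.under (𝓞 F) ∈ S1} ∪ ({w : Pl C | w.under (𝓞 F) ∈ S2} ∪
    ({w : Pl C | es F C (w.under (𝓞 F)) ≠ 1} ∪ {w : Pl C | ((p : ℕ) : 𝓞 C) ∈ w.asIdeal})),
    hf1.union (hf2.union (hf3.union (H28R.W5_fin_mem _ hpC))), ?_⟩
  intro w hw hwN hπψ
  simp only [Set.mem_union, not_or] at hw
  obtain ⟨hw1, hw2, hw3, hw4⟩ := hw
  have hv1 : w.under (𝓞 F) ∉ S1 := hw1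
  have hv2 : w.under (𝓞 F) ∉ S2 := hw2
  have he : es F C (w.under (𝓞 F)) = 1 := not_not.1 hw3
  have hwp : ((p : ℕ) : 𝓞 C) ∉ w.asIdeal := hw4
  have hnorm := D5_norm (w.under (𝓞 F)) w rfl
  have hfs : fs F C (w.under (𝓞 F)) = 1 := by
    have hpos := fs_pos (L := C) (w.under (𝓞 F))
    by_contra hne
    have h2 : 2 ≤ fs F C (w.under (𝓞 F)) := by omega
    have hwN' := hwN
    rw [hnorm] at hwN'
    exact Nat.Prime.not_prime_pow h2 hwN'
  rw [hfs, pow_one] at hnorm
  have hvN : (Ideal.absNorm (w.under (𝓞 F)).asIdeal).Prime := by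
    rw [← hnorm]
    exact hwN
  obtain ⟨W, hW⟩ := under_exists (K := C) (L := D) w
  obtain ⟨V, hV⟩ := exists_abw Ω W
  have hVw : Abw V w := hV.below hW
  have hVv : Abw V (w.under (𝓞 F)) := hVw.below rfl
  have hva : ∀ a : 𝓞 F, a ∈ (w.under (𝓞 F)).asIdeal → V.valuation (ak Ω a) < 1 := fun a ha =>
    (hVv.lt _).2 (((w.under (𝓞 F)).valuation_lt_one_iff_mem a).2 ha)
  have hpv : ((p : ℕ) : 𝓞 F) ∉ (w.under (𝓞 F)).asIdeal := by
    intro hm
    apply hwp
    have h1 : algebraMap (𝓞 F) (𝓞 C) ((p : ℕ) : 𝓞 F) ∈ w.asIdeal := hm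
    rwa [map_natCast] at h1
  have hπv : π ∉ (w.under (𝓞 F)).asIdeal := by
    intro hm
    apply hpv
    obtain ⟨c, hc⟩ := hd
    rw [hc]
    exact (w.under (𝓞 F)).asIdeal.mul_mem_right _ hm
  have hπ1 : V.valuation (ak Ω π) = 1 :=
    (hVv.eq_one (π : F)).2 ((HeightOneSpectrum.valuation_eq_one_iff_notMem (w.under (𝓞 F))).2 hπv)
  have hcast : ∀ n : ℕ, algebraMap F Ω (((n : 𝓞 F) : F)) = (n : Ω) := by
    intro n
    have e : ((n : 𝓞 F) : F) = (n : F) := by push_cast; rfl
    rw [e, map_natCast]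
  have hp1 : V.valuation (p : Ω) = 1 := by
    have h1 := (hVv.eq_one (((p : ℕ) : 𝓞 F) : F)).2
      ((HeightOneSpectrum.valuation_eq_one_iff_notMem (w.under (𝓞 F))).2 hpv)
    rwa [hcast p] at h1
  have hGV : GV A B V := hS1 _ hv1 V hva
  have hes : es C D w = 1 := by
    rw [← hW]
    refine unr_of_inert (F := F) (K := C) hV ?_
    intro s hs hsC
    refine hD.gen s hsC ?_
    intro R hR
    exact cong_fix h.cma hGV hπ1 hR ⟨fun hx => hs _ hx, fun hy => hs _ hy⟩
  refine ⟨hes, ?_⟩
  obtain ⟨s, -, hs⟩ := H13S.exists_frob (w.under (𝓞 F)) V hva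
  have hsC : Fxd C s := by
    refine triv_of_es (K := F) hVw he s (fun x => s.commutes x) fun y hy => ?_
    have h1 := hs _ hy
    have h2 : V.valuation (algebraMap C Ω y ^ Ideal.absNorm (w.under (𝓞 F)).asIdeal - algebraMap C Ω y) < 1 := by
      rw [← hnorm, ← map_pow, ← map_sub, hVw.lt]
      exact H28G.pow_norm w y ((hVw y).1 hy)
    have e : s (algebraMap C Ω y) - algebraMap C Ω y =
        (s (algebraMap C Ω y) - algebraMap C Ω y ^ Ideal.absNorm (w.under (𝓞 F)).asIdeal) +
        (algebraMap C Ω y ^ Ideal.absNorm (w.under (𝓞 F)).asIdeal - algebraMap C Ω y) := by ring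
    rw [e]
    exact V.valuation.map_add_lt h1 h2
  have hsD : Fxd D s := by
    refine hD.gen s hsC ?_
    intro T hT
    have hT0 : act π T = 0 := hT
    have hT1 : p • T = 0 := by
      obtain ⟨c, hc⟩ := hd
      have h1 : act (p : 𝓞 F) T = 0 := by
        rw [hc, mul_comm, map_mul]
        show act c (act π T) = 0
        rw [hT0, map_zero]
      rw [map_natCast, AddMonoid.End.natCast_apply] at h1
      exact h1
    rw [hS2 _ hv2 hvN V hva s hs p hp1 T hT1]
    obtain ⟨c, hc⟩ := hπψ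
    have h2 : act (ψ (w.under (𝓞 F)).asIdeal) T = act (c * π + 1) T := by
      congr 2
      linear_combination hc
    rw [h2, map_add, map_mul, map_one]
    show act c (act π T) + T = T
    rw [hT0, map_zero, zero_add]
  have hWm := W.isMaximal
  let _ : Field (𝓞 D ⧸ W.asIdeal) := Ideal.Quotient.field W.asIdeal
  have hfin : Finite (𝓞 D ⧸ W.asIdeal) := Ideal.finiteQuotientOfFreeOfNeBot W.asIdeal W.ne_bot
  have hq1 : 1 < Ideal.absNorm w.asIdeal := hwN.one_lt
  have hcard := H28R.W5_card (𝓞 D ⧸ W.asIdeal) (Ideal.absNorm w.asIdeal) hq1 (by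
    intro y
    obtain ⟨x, rfl⟩ := Ideal.Quotient.mk_surjective y
    rw [← map_pow, eq_comm, Ideal.Quotient.eq]
    have h1 := hs (algebraMap D Ω (x : D)) ((hV _).2 (HeightOneSpectrum.valuation_le_one W x))
    rw [hsD, ← hnorm, ← map_pow, ← map_sub, hV.lt] at h1
    exact (HeightOneSpectrum.valuation_lt_one_iff_mem (K := D) W _).1 h1)
  have hN2 := D5_norm w W hW
  have hN3 : Nat.card (𝓞 D ⧸ W.asIdeal) = Ideal.absNorm W.asIdeal := by
    rw [Ideal.absNorm_apply, Submodule.cardQuot_apply]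
  rw [hN3, hN2] at hcard
  have hpos := fs_pos (L := D) w
  by_contra hne
  have h2 : 1 < fs C D w := by omega
  have h3' : Ideal.absNorm w.asIdeal ^ 1 < Ideal.absNorm w.asIdeal ^ fs C D w :=
    Nat.pow_lt_pow_right hq1 h2
  rw [pow_one] at h3'
  omega


end H28T
end

-- from Lib.H28T.DT
section

open NumberField IsDedekindDomain WeierstrassCurve

namespace H28T

open H55P (IQ embF eF LF Per IsHecke Pt ac Inert Dec Nm CMData)
open H35P (WAB Ker tt)
open H55K H55K.TQ

variable {F : Type} [Field F] [NumberField F] [IQ F] {W₀ : WeierstrassCurve (𝓞 F)} {Om : ℂ}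
    {m : Ideal (𝓞 F)} {ψ : Ideal (𝓞 F) →*₀ 𝓞 F} {p : ℕ}

/-- The complete data over the algebraic closure of F. -/
theorem exists_dta [DecidableEq (AlgebraicClosure F)] (hH : BaseH F W₀ Om m ψ) (hp : PrimeH F W₀ p) :
    ∃ (A B : F) (j : AlgebraicClosure F →+* ℂ) (act : 𝓞 F →+* AddMonoid.End (Pt (WAB A B) (AlgebraicClosure F))),
      Dta A B Om j act m ψ p := by
  have hB := base_of hH hp
  obtain ⟨j, hj⟩ := exists_j F (AlgebraicClosure F)
  obtain ⟨A, hA⟩ : ∃ A : F, A = -(algebraMap (𝓞 F) F W₀.c₄) / 48 := ⟨_, rfl⟩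
  obtain ⟨B, hB'⟩ : ∃ B : F, B = -(algebraMap (𝓞 F) F W₀.c₆) / 864 := ⟨_, rfl⟩
  have hd := y3_ne W₀ hA hB' hB.data.ell
  have hper : Per F (embF F A) (embF F B) Om := by
    have e1 : embF F A = -(eF F W₀.c₄) / 48 := by
      rw [hA, map_div₀, map_neg, map_ofNat]
      rfl
    have e2 : embF F B = -(eF F W₀.c₆) / 864 := by
      rw [hB', map_div₀, map_neg, map_ofNat]
      rfl
    rw [e1, e2]
    exact hB.data.per
  obtain ⟨act, hact⟩ := exists_CMA F A B Om j hd hper hj
  have hG : ∀ V : ValuationSubring (AlgebraicClosure F),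
      ∃ (Kg : AddSubgroup (Pt (WAB A B) (AlgebraicClosure F))) (u : AlgebraicClosure F),
        GMod (WAB A B) V Kg u := fun V => exists_gmod hd (y3_j W₀ hA hB' hB.jint) V
  exact ⟨A, B, j, act, mk_Dta hB hA hB' hact hG⟩

end H28T
end

-- from Lib.H13R.B2
section

/-! # H13R: a good prime of F with a prime of degree one above it in K(ζ) -/

open NumberField IsDedekindDomain WeierstrassCurve

namespace H13R

open H55P H55R
open H35P (WAB Ker tt)
open H55K H55K.TQ
open H28T

variable {F : Type} [Field F] [NumberField F] [IQ F] {W₀ : WeierstrassCurve (𝓞 F)} {Om : ℂ}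
    {m : Ideal (𝓞 F)} {ψ : Ideal (𝓞 F) →*₀ 𝓞 F} {p : ℕ}

/-- Chunk B2 (M). The proof of H28T.cb3_niceG (CB3.lean), without the class of fields: K is unramified at p, C/F Galois, ζ in C a primitive p-th root of unity,
finrank K C ≤ p - 1; cb2_notR (B1.lean) in place of cb2_not. The prime w of C has prime norm and does not split in C(E[π]), v = w.under (𝓞 F): fs F C v = 1, es F C v = 1, Gd W₀ p v. -/
theorem exists_niceR (hH : BaseH F W₀ Om m ψ) (hp : PrimeH F W₀ p) (K C : Type) [Field K] [NumberField K] [Field C] [NumberField C]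
    [Algebra F K] [Algebra F C] [Algebra K C] [IsScalarTower F K C] [IsGalois F C] (hU : H55P.UnrP p K) {ζ : C}
    (hζ : IsPrimitiveRoot ζ p) (hdeg : Module.finrank K C ≤ p - 1) :
    ∃ w : Pl C, Gd W₀ p (w.under (𝓞 F)) ∧ es F C (w.under (𝓞 F)) = 1 ∧ fs F C (w.under (𝓞 F)) = 1 := by
  classical
  have hF : IsScalarTower ℚ F C := IsScalarTower.of_algebraMap_eq' (Subsingleton.elim _ _)
  have hfin : FiniteDimensional F C := Module.Finite.of_restrictScalars_finite ℚ F C
  have halg : Algebra.IsAlgebraic F C := Algebra.IsAlgebraic.of_finite F C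
  let iC : C →ₐ[F] AlgebraicClosure F := IsAlgClosed.lift
  let algC : Algebra C (AlgebraicClosure F) := iC.toRingHom.toAlgebra
  let algK : Algebra K (AlgebraicClosure F) := (iC.toRingHom.comp (algebraMap K C)).toAlgebra
  have t1 : IsScalarTower K C (AlgebraicClosure F) := IsScalarTower.of_algebraMap_eq fun _ => rfl
  have t2 : IsScalarTower F C (AlgebraicClosure F) :=
    IsScalarTower.of_algebraMap_eq fun x => (iC.commutes x).symm
  have t3 : IsScalarTower F K (AlgebraicClosure F) := by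
    refine IsScalarTower.of_algebraMap_eq fun x => ?_
    show algebraMap F (AlgebraicClosure F) x = iC (algebraMap K C (algebraMap F K x))
    rw [← IsScalarTower.algebraMap_apply F K C, iC.commutes]
  obtain ⟨A, B, j, act, hDt⟩ := exists_dta hH hp
  obtain ⟨π, hπ, hπd⟩ := cb1_pi (F := F) hp.prime
  obtain ⟨D, _, _, _, _, _, t4, t5, t6, hD⟩ := exists_TFld hDt.cma C hπ.ne_zero
  have hgalD : IsGalois C D := hD.gal
  have hrk : Module.finrank C D ≠ 1 := by
    intro h1
    apply cb2_notR (K := K) (C := C) hDt hU hζ hdeg hπ hπd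
    intro s hs T hT
    have hsurj : Function.Surjective (algebraMap C D) := by
      intro y
      obtain ⟨v, hv⟩ := finrank_eq_one_iff'.1 h1
      obtain ⟨hv0, hv1⟩ := hv
      obtain ⟨c, hc⟩ := hv1 y
      obtain ⟨c1, hc1⟩ := hv1 1
      have hc10 : c1 ≠ 0 := by
        rintro rfl
        rw [zero_smul] at hc1
        exact zero_ne_one hc1
      refine ⟨c / c1, ?_⟩
      have e : v = c1⁻¹ • (1 : D) := by
        rw [← hc1, smul_smul, inv_mul_cancel₀ hc10, one_smul]
      rw [← hc, e, smul_smul, Algebra.smul_def, mul_one, div_eq_mul_inv]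
    have hfx : ∀ y : D, s (algebraMap D (AlgebraicClosure F) y) = algebraMap D (AlgebraicClosure F) y := by
      intro y
      obtain ⟨c, rfl⟩ := hsurj y
      rw [← IsScalarTower.algebraMap_apply C D (AlgebraicClosure F)]
      exact hs c
    obtain ⟨x, y, hx, hy⟩ := hD.crd T hT
    exact ac_fix s (by rw [← hx, hfx x]) (by rw [← hy, hfx y])
  obtain ⟨S', hS', hspl⟩ := cb3a_split (C := C) (D := D) hDt hπ hπd hD
  have hΔC : algebraMap (𝓞 F) (𝓞 C) W₀.Δ ≠ 0 := by
    intro h0
    apply hH.data.ell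
    apply RingOfIntegers.ext
    have h1 : algebraMap F C ((W₀.Δ : 𝓞 F) : F) = 0 := congrArg (fun x : 𝓞 C => (x : C)) h0
    rw [map_eq_zero] at h1
    exact h1
  have hpC : ((p : ℕ) : 𝓞 C) ≠ 0 := Nat.cast_ne_zero.2 hp.prime.ne_zero
  have hram : {w : Pl C | es F C (w.under (𝓞 F)) ≠ 1}.Finite :=
    (ram_fin F C).preimage' (f := fun w : Pl C => w.under (𝓞 F)) fun b _ => above_finite b
  obtain ⟨w, hwS, hwN, hwns⟩ := H28R.exists_nonsplit C D hrk
    (S' ∪ ({w : Pl C | algebraMap (𝓞 F) (𝓞 C) W₀.Δ ∈ w.asIdeal} ∪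
      ({w : Pl C | (p : 𝓞 C) ∈ w.asIdeal} ∪
        {w : Pl C | es F C (w.under (𝓞 F)) ≠ 1})))
    (hS'.union ((H28R.W5_fin_mem _ hΔC).union ((H28R.W5_fin_mem _ hpC).union hram)))
  simp only [Set.mem_union, not_or] at hwS
  obtain ⟨hwS', hwd, hwp, hwe⟩ := hwS
  have hwd' : algebraMap (𝓞 F) (𝓞 C) W₀.Δ ∉ w.asIdeal := hwd
  have hwp' : (p : 𝓞 C) ∉ w.asIdeal := hwp
  have hwe' : es F C (w.under (𝓞 F)) = 1 := not_not.1 hwe
  have hwpr := w.isPrime
  let v : Pl F := w.under (𝓞 F)
  have hvpr := v.isPrime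
  have hlies : w.asIdeal.LiesOver v.asIdeal := ⟨rfl⟩
  have hnorm := D5_norm v w rfl
  have hfs : fs F C v = 1 := by
    have hpos := fs_pos (L := C) v
    by_contra hne
    have h2 : 2 ≤ fs F C v := by omega
    rw [hnorm] at hwN
    exact Nat.Prime.not_prime_pow h2 hwN
  rw [hfs, pow_one] at hnorm
  have hgood : Gd W₀ p v := by
    by_contra hng
    have hvd : W₀.Δ ∉ v.asIdeal := fun hm => hwd' hm
    have hvp : (p : 𝓞 F) ∉ v.asIdeal := by
      intro hm
      apply hwp'
      have h1 : algebraMap (𝓞 F) (𝓞 C) (p : 𝓞 F) ∈ w.asIdeal := hm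
      rwa [map_natCast] at h1
    have hdv : p ∣ Ideal.absNorm v.asIdeal - 1 := by
      rw [← hnorm]
      exact H28R.W5_dvd hp.prime hζ w hwp'
    have hbd := cb1_dvd hH hvd hvp hdv hng hπ hπd
    exact hwns (hspl w hwS' hwN hbd)
  exact ⟨w, hgood, hwe', hfs⟩

end H13R
end
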