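import Mathlib
import Pool.Agent.Lib.H1M.PP.D_H28T_CE
import Pool.Agent.Lib.H1M.PP.M002
import Pool.Agent.Lib.H1M.PP.M003
import Pool.Agent.Lib.H1M.PP.M007
import Pool.Agent.Lib.H1M.PP.M038
import Pool.Agent.Lib.H1M.PP.M045
import Pool.Agent.Lib.H1M.PP.M051
import Pool.Agent.Lib.H1M.PP.M055
import Pool.Agent.Lib.H1M.PP.M065
import Pool.Agent.Lib.H1M.PP.M066
import Pool.Agent.Lib.H1M.PP.M071
import Pool.Agent.Lib.H1M.PP.M076
import Pool.Agent.Lib.H1M.PP.M077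
import Pool.Agent.Lib.H1M.PP.M078
import Pool.Agent.Lib.H1M.PP.M079
import Pool.Agent.Lib.H1M.PP.M080
import Pool.Agent.Lib.H1M.PP.M082
import Pool.Agent.Lib.H1M.PP.M083

/-! Merged copies (to shorten the build) of Lib.H13D.C3, Lib.H13D.C5, Lib.H13D.E4, Lib.H13D.E9, Lib.H13D.E10, Lib.H13D.H3, Lib.H13D.Main, Lib.H55W.L3D, Lib.H55W.B3, Lib.H55W.Main, Lib.H13R.J3, Lib.H28T.CB3, Lib.H55W.PR, Lib.H28T.CC1, Lib.H28T.CC2B, Lib.H28T.CC3. -/

-- from Lib.H13D.C3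
section

/-! # H13D, part C: the cyclotomic character -/

open NumberField IsDedekindDomain WeierstrassCurve

namespace H13D

open H55P (IQ embF eF LF Per IsHecke Pt ac Inert Dec Nm)
open H35P (WAB Ker tt GoodW IntW)
open H55K

variable {F : Type} [Field F] [NumberField F] [IQ F] {A B : F} {Om : ℂ} {Ω : Type} [Field Ω] [DecidableEq Ω]
  [Algebra F Ω] {j : Ω →+* ℂ} {act : 𝓞 F →+* AddMonoid.End (Pt (WAB A B) Ω)} {δ : 𝓞 F} {D : ℕ}

/-- Chunk C3 (M). THE SQUARE OF THE CHARACTER ON THE POINTS KILLED BY δ IS THE CYCLOTOMIC CHARACTER. Port of H55K.S.char_id (SPA1.lean), simpler: only T₀ (cj δ = -δ has the same points), integers a instead of elements of 𝓞 F. Every t in the group maps T₀ to a(t) • T₀ (ac t T₀ is killed by δ: h.gal; tor_gen) and ζ to ζ^(c(t)); a(t), c(t) are well defined modulo D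
(zsmul_iff; order of ζ), multiplicative. D₁(t) = a(t)^2, C₁(t) = c(t) in ZMod D are monoid homomorphisms from Ω ≃ₐ[F] Ω; the subgroup H where they agree (MonoidHom.eqLocus) is normal (ZMod D is commutative) and contains the fixing subgroup of L = F(xc T₀, yc T₀, ζ). H13S.PA1_top with the finite set of frob_fin together with the primes v containing D: for v outside,
of prime norm q, V above v (V(D) = 1), s a Frobenius element: frob_fin gives γ with Nm γ = q and ac s T₀ = act γ T₀ = n • T₀, γ congruent to n modulo δ (ex_int, act_tor), and q is congruent to n^2 modulo D (Nm_mod); s ζ = ζ^q (H55K.S.PA1_zeta). So s is in H. Hence H = everything. -/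
theorem chi_sq [IsAlgClosure F Ω] (h : CMA F A B Om j act) (hd : Del F δ D) {T₀ : Pt (WAB A B) Ω} (hT : act δ T₀ = 0) (h0 : T₀ ≠ 0)
    {ζ : Ω} (hζ : IsPrimitiveRoot ζ D) (s : Ω ≃ₐ[F] Ω) {a : ℤ} {c : ℕ} (ha : ac (WAB A B) s T₀ = a • T₀) (hc : s ζ = ζ ^ c) :
    (D : ℤ) ∣ a ^ 2 - c := by
  classical
  have hDp := hd.prime
  have hl0 : NeZero D := ⟨hDp.ne_zero⟩
  have hac : IsAlgClosed Ω := IsAlgClosure.isAlgClosed F
  have halg : Algebra.IsAlgebraic F Ω := IsAlgClosure.isAlgebraic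
  have hex : ∀ t : Ω ≃ₐ[F] Ω, ∃ p : ℤ × ℕ, ac (WAB A B) t T₀ = p.1 • T₀ ∧ t ζ = ζ ^ p.2 := by
    intro t
    have h1 : act δ (ac (WAB A B) t T₀) = 0 := by rw [← h.gal, hT, map_zero]
    obtain ⟨m, hm⟩ := tor_gen h hd hT h0 h1
    have h1 : (t ζ) ^ D = 1 := by rw [← map_pow, hζ.pow_eq_one, map_one]
    obtain ⟨i, _, hi⟩ := hζ.eq_pow_of_pow_eq_one h1
    exact ⟨⟨m, i⟩, hm, hi.symm⟩
  choose p hp using hex
  have hmk : ∀ x y : ℤ, (x : ZMod D) = (y : ZMod D) ↔ (D : ℤ) ∣ x - y := by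
    intro x y
    rw [← sub_eq_zero, ← Int.cast_sub, ZMod.intCast_zmod_eq_zero_iff_dvd]
  have uniq0 : ∀ (t : Ω ≃ₐ[F] Ω) (x : ℤ), ac (WAB A B) t T₀ = x • T₀ → (x : ZMod D) = ((p t).1 : ZMod D) := by
    intro t x hx
    rw [hmk, ← zsmul_iff hd hT h0, sub_smul, ← hx, ← (hp t).1, sub_self]
  have uniq1 : ∀ (t : Ω ≃ₐ[F] Ω) (x : ℤ), ac (WAB A B) t T₀ = x • T₀ → ((x : ZMod D)) ^ 2 = ((p t).1 : ZMod D) ^ 2 := by
    intro t x hx
    rw [uniq0 t x hx]
  have uniq2 : ∀ (t : Ω ≃ₐ[F] Ω) (n : ℕ), t ζ = ζ ^ n → (n : ZMod D) = ((p t).2 : ZMod D) := by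
    intro t n hn
    have h1 : ζ ^ n = ζ ^ (p t).2 := by rw [← hn, (hp t).2]
    have h2 : n ≡ (p t).2 [MOD D] := by
      rw [← pow_mod_orderOf, ← pow_mod_orderOf ζ (p t).2, ← hζ.eq_orderOf] at h1
      exact hζ.pow_inj (Nat.mod_lt _ hDp.pos) (Nat.mod_lt _ hDp.pos) h1
    exact (ZMod.natCast_eq_natCast_iff _ _ _).2 h2
  have hzs : ∀ (t : Ω ≃ₐ[F] Ω) (x : ℤ) (P : Pt (WAB A B) Ω), ac (WAB A B) t (x • P) = x • ac (WAB A B) t P :=
    fun t x P => map_zsmul (ac (WAB A B) t) x P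
  let D₁ : (Ω ≃ₐ[F] Ω) →* ZMod D :=
    { toFun := fun t => ((p t).1 : ZMod D) ^ 2
      map_one' := by
        rw [← uniq1 1 1 (by rw [H55K.S.ac_one, one_smul])]
        simp
      map_mul' := fun t u => by
        rw [← uniq1 (t * u) ((p u).1 * (p t).1)
          (by rw [H55K.S.ac_mul, (hp u).1, hzs, (hp t).1, mul_smul])]
        push_cast
        ring }
  let C₁ : (Ω ≃ₐ[F] Ω) →* ZMod D :=
    { toFun := fun t => ((p t).2 : ZMod D)
      map_one' := by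
        rw [← uniq2 1 1 (by rw [pow_one]; rfl)]
        simp
      map_mul' := fun t u => by
        rw [← uniq2 (t * u) ((p t).2 * (p u).2) (by
          rw [AlgEquiv.mul_apply, (hp u).2, map_pow, (hp t).2, pow_mul])]
        push_cast
        rfl }
  have hH : ∀ (t : Ω ≃ₐ[F] Ω) (x : ℤ) (n : ℕ), ac (WAB A B) t T₀ = x • T₀ →
      t ζ = ζ ^ n → (t ∈ MonoidHom.eqLocus D₁ C₁ ↔ (D : ℤ) ∣ x ^ 2 - n) := by
    intro t x n hx hn
    rw [← hmk]
    push_cast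
    rw [uniq1 t x hx, uniq2 t n hn]
    exact Iff.rfl
  have key : MonoidHom.eqLocus D₁ C₁ = ⊤ := by
    have hint : ∀ x : Ω, IsIntegral F x := fun x => (Algebra.IsAlgebraic.isAlgebraic x).isIntegral
    let A₁ : Set Ω := {xc T₀, yc T₀, ζ}
    have hAf : A₁.Finite := Set.toFinite A₁
    have hAf' : Finite A₁ := hAf
    have hLf : FiniteDimensional F (IntermediateField.adjoin F A₁) :=
      IntermediateField.finiteDimensional_adjoin fun x _ => hint x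
    obtain ⟨S₀, hS₀, hfr⟩ := frob_fin h
    refine H13S.PA1_top (F₀ := F) (MonoidHom.eqLocus D₁ C₁) ?_ (IntermediateField.adjoin F A₁) ?_
      (S₀ ∪ {v | (D : 𝓞 F) ∈ v.asIdeal}) ?_ ?_
    · constructor
      intro t ht g
      show D₁ (g * t * g⁻¹) = C₁ (g * t * g⁻¹)
      have h1 : D₁ t = C₁ t := ht
      rw [map_mul, map_mul, map_mul, map_mul, mul_right_comm, mul_right_comm (C₁ g), h1, ← map_mul,
        ← map_mul, mul_inv_cancel, map_one, map_one]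
    · intro t ht
      have hfix : ∀ x ∈ A₁, t x = x := fun x hx =>
        ht ⟨x, IntermediateField.subset_adjoin F A₁ hx⟩
      have e1 : ac (WAB A B) t T₀ = (1 : ℤ) • T₀ := by
        rw [one_smul]
        refine pt_ext (H55K.S.ac_ne t h0) h0 ?_ ?_
        · rw [H55K.S.xc_ac]
          exact hfix _ (by simp [A₁])
        · rw [H55K.S.yc_ac]
          exact hfix _ (by simp [A₁])
      rw [hH t 1 1 e1 (by rw [pow_one]; exact hfix _ (by simp [A₁]))]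
      simp
    · have hf : ∀ n : ℕ, n ≠ 0 → {v : HeightOneSpectrum (𝓞 F) | (n : 𝓞 F) ∈ v.asIdeal}.Finite := by
        intro n hn
        have h1 : Ideal.span {(n : 𝓞 F)} ≠ 0 := by
          rw [Ideal.zero_eq_bot, Ne, Ideal.span_singleton_eq_bot]
          exact Nat.cast_ne_zero.2 hn
        refine (Ideal.finite_factors h1).subset ?_
        intro v hv
        exact Ideal.dvd_span_singleton.2 hv
      exact hS₀.union (hf D hDp.ne_zero)
    · intro v hv hq V hV t ht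
      rw [Set.mem_union, not_or] at hv
      obtain ⟨hvS, hvl⟩ := hv
      change (D : 𝓞 F) ∉ v.asIdeal at hvl
      have hV1 : V.valuation (D : Ω) = 1 := by
        rw [← H55K.S.vo_nat (F := F)]
        exact g10b_one V v hV _ hvl
      have hVl : ¬ V.valuation (D : Ω) < 1 := by
        rw [hV1]
        exact lt_irrefl _
      obtain ⟨γ, hγ1, hγ2⟩ := hfr v hvS hq V hV t ht
      have f1 := hγ2 D hV1 T₀ (D_tor hd hT)
      obtain ⟨n, hn⟩ := ex_int hd γ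
      rw [act_tor hn hT] at f1
      have f3 := H55K.S.PA1_zeta D hDp ζ hζ V hVl _ t ht
      rw [hH t _ _ f1 f3]
      have h6 := Nm_mod hd hn
      rw [hγ1] at h6
      have h7 := dvd_neg.2 h6
      rwa [neg_sub] at h7
  have h1 : s ∈ MonoidHom.eqLocus D₁ C₁ := by
    rw [key]
    exact Subgroup.mem_top s
  exact (hH s a c ha hc).1 h1

end H13D
end

-- from Lib.H13D.C5
section

/-! # H13D, part C: the Frobenius elements at the good primes -/

open NumberField IsDedekindDomain WeierstrassCurve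

namespace H13D

open H55P (IQ embF eF LF Per IsHecke Pt ac Inert Dec Nm)
open H35P (WAB Ker tt GoodW IntW)
open H55K

variable {F : Type} [Field F] [NumberField F] [IQ F] {A B : F} {Om : ℂ} {Ω : Type} [Field Ω] [DecidableEq Ω]
  [Algebra F Ω] {j : Ω →+* ℂ} {act : 𝓞 F →+* AddMonoid.End (Pt (WAB A B) Ω)} {V : ValuationSubring Ω} {δ : 𝓞 F} {D : ℕ}

/-- Chunk C5 (M). THE FROBENIUS ELEMENT AT A GOOD PRIME v (also above 2 and 3) not containing δ. q = absNorm v = p^f, p in v (below_v in P0.lean). v = span {β} (IQ.pid), β prime, Nm β = q, V(β) < 1, V(p) < 1, V(δ) = 1, V(D) = 1 (g10b_one). Kg, RM from exists_rm (u = 1, r in F: s u = u, s r = r). ac s T₀ = a • T₀ (tor_gen; killed by δ by h.gal), β congruent to b modulo δ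
(ex_int), so act β T₀ = b • T₀ (act_tor). ζ a primitive D-th root of unity in Ω (HasEnoughRootsOfUnity.exists_primitiveRoot or IsAlgClosed), s ζ = ζ^q (H55K.S.PA1_zeta): D divides a^2 - q (chi_sq), and q - b^2 (Nm_mod), so D divides (a - b)(a + b): a • T₀ = b • T₀ or = -(b • T₀), and the same for T' = 2 • T₀: the x-coordinates of ac s T and act β T agree
for T = T₀, T' (xc (-P) = xc P). T₀, T', T₀ - T' = -T₀, T₀ + T' = 3 • T₀ are killed by δ and not 0 (zsmul_iff, D > 3), so they are not in Kg (tor_unit' for δ). frob_gen': γ = β or -β, act γ X - ac s X in Kg for all X; span {γ} = v. act γ T₀ - ac s T₀ is killed by δ and in Kg: it is 0 (tor_unit'); γ is congruent to g modulo δ: (g - a) • T₀ = 0, so δ divides γ - a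
(zsmul_iff, del_dvd_int). The number of points: exists_rm, card_gamma. -/
theorem frob_v [IsAlgClosure F Ω] (h : CMA F A B Om j act) (hd : Del F δ D) (W₀ : WeierstrassCurve (𝓞 F))
    (hA : A = -(algebraMap (𝓞 F) F W₀.c₄) / 48) (hB : B = -(algebraMap (𝓞 F) F W₀.c₆) / 864) (v : HeightOneSpectrum (𝓞 F))
    (hΔ : W₀.Δ ∉ v.asIdeal) (hδ : δ ∉ v.asIdeal) (hv : ∀ a : 𝓞 F, a ∈ v.asIdeal → V.valuation (ak Ω a) < 1)
    (s : Ω ≃ₐ[F] Ω) (hD : Dec V s) (hs : ∀ x ∈ V, V.valuation (s x - x ^ Ideal.absNorm v.asIdeal) < 1)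
    {T₀ : Pt (WAB A B) Ω} (hT : act δ T₀ = 0) (h0 : T₀ ≠ 0) {a : ℤ} (ha : ac (WAB A B) s T₀ = a • T₀) :
    ∃ γ : 𝓞 F, Ideal.span {γ} = v.asIdeal ∧ δ ∣ γ - a ∧
      Nat.card (W₀⁄(𝓞 F ⧸ v.asIdeal)).toAffine.Point = Nm (1 - γ) := by
  have hac : IsAlgClosed Ω := IsAlgClosure.isAlgClosed F
  obtain ⟨p, f, hp, hpv, -, hq⟩ := below_v v
  obtain ⟨Kg, Θ, hK, hG, hc, hR, hcard⟩ := exists_rm (A := A) (B := B) (Ω := Ω) (V := V) W₀ hA hB v hΔ hv
  -- the generator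
  obtain ⟨β, hβv'⟩ := (IQ.pid (F := F)).principal v.asIdeal
  have hgen : Ideal.span {β} = v.asIdeal := hβv'.symm
  have hβ0 : β ≠ 0 := by
    intro h0
    apply v.ne_bot
    rw [← hgen, h0, Ideal.span_singleton_eq_bot]
  have hβ : Prime β := by
    rw [← Ideal.span_singleton_prime hβ0, hgen]
    exact v.isPrime
  have hβv : β ∈ v.asIdeal := by
    have h1 := Ideal.mem_span_singleton_self β
    rw [hgen] at h1
    exact h1
  have hNm : Nm β = Ideal.absNorm v.asIdeal := by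
    unfold Nm
    rw [hgen]
  have hVβ : V.valuation (ak Ω β) < 1 := hv _ hβv
  have hVp : V.valuation (p : Ω) < 1 := by
    have h1 := hv _ hpv
    rwa [show ak Ω (p : 𝓞 F) = (p : Ω) from (map_natCast (g9h F Ω) p)] at h1
  have hVδ : V.valuation (ak Ω δ) = 1 := g10b_one V v hv δ hδ
  have hVD : V.valuation (D : Ω) = 1 := by
    have h1 : (D : Ω) = -(ak Ω δ) ^ 2 := by
      have h2 : g9h F Ω (δ ^ 2) = g9h F Ω (-(D : 𝓞 F)) := by rw [hd.sq]
      rw [map_pow, map_neg, map_natCast, g9h_eq] at h2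
      rw [h2, neg_neg]
    rw [h1, Valuation.map_neg, map_pow, hVδ, one_pow]
  -- the action on T₀
  obtain ⟨b, hb⟩ := ex_int hd β
  have hbT : act β T₀ = b • T₀ := act_tor hb hT
  have hζ0 : NeZero (D : Ω) := ⟨fun h1 => by
    rw [h1, map_zero] at hVD
    exact zero_ne_one hVD⟩
  obtain ⟨ζ, hζ⟩ := HasEnoughRootsOfUnity.exists_primitiveRoot Ω D
  have hsζ : s ζ = ζ ^ Ideal.absNorm v.asIdeal :=
    H55K.S.PA1_zeta D hd.prime ζ hζ V (by rw [hVD]; exact lt_irrefl _) _ s hs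
  have hdiv1 := chi_sq h hd hT h0 hζ s ha hsζ
  have hdiv2 := Nm_mod hd hb
  rw [hNm] at hdiv2
  have hdiv : (D : ℤ) ∣ (a - b) * (a + b) := by
    have h1 := dvd_add hdiv1 hdiv2
    have h2 : a ^ 2 - (Ideal.absNorm v.asIdeal : ℤ) + ((Ideal.absNorm v.asIdeal : ℤ) - b ^ 2) = (a - b) * (a + b) := by ring
    rwa [h2] at h1
  have hpD : Prime (D : ℤ) := Nat.prime_iff_prime_int.1 hd.prime
  have hpm : ac (WAB A B) s T₀ = act β T₀ ∨ ac (WAB A B) s T₀ = -(act β T₀) := by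
    rw [ha, hbT]
    rcases hpD.dvd_or_dvd hdiv with h1 | h1
    · left
      have h2 := (zsmul_iff hd hT h0 (a - b)).2 h1
      rwa [sub_smul, sub_eq_zero] at h2
    · right
      have h2 := (zsmul_iff hd hT h0 (a + b)).2 h1
      rwa [add_smul, add_eq_zero_iff_eq_neg] at h2
  have hDbig := hd.big
  -- multiples of T₀ are not in Kg
  have hnk : ∀ n : ℤ, ¬ (D : ℤ) ∣ n → n • T₀ ∉ Kg := by
    intro n hn hk
    apply hn
    rw [← zsmul_iff hd hT h0]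
    refine tor_unit' h hR hVδ ?_ hk
    have : act δ (n • T₀) = n • act δ T₀ := map_zsmul (act δ : Pt (WAB A B) Ω →+ Pt (WAB A B) Ω) n T₀
    rw [this, hT, smul_zero]
  have hnd : ∀ n : ℤ, 0 < n → n < D → ¬ (D : ℤ) ∣ n := fun n h1 h2 h3 => absurd (Int.le_of_dvd h1 h3) (not_le.2 h2)
  have hk1 : T₀ ∉ Kg := by
    have := hnk 1 (hnd 1 (by norm_num) (by omega))
    rwa [one_smul] at this
  have hk2 : (2 : ℤ) • T₀ ∉ Kg := hnk 2 (hnd 2 (by norm_num) (by omega))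
  have hk3 : T₀ - (2 : ℤ) • T₀ ∉ Kg := by
    have e : T₀ - (2 : ℤ) • T₀ = -T₀ := by rw [two_smul]; abel
    rw [e]
    exact fun hh => hk1 (by have := Kg.neg_mem hh; rwa [neg_neg] at this)
  have hk4 : T₀ + (2 : ℤ) • T₀ ∉ Kg := by
    have e : T₀ + (2 : ℤ) • T₀ = (3 : ℤ) • T₀ := by
      rw [show (3 : ℤ) = 1 + 2 by norm_num, add_smul, one_smul]
    rw [e]
    exact hnk 3 (hnd 3 (by norm_num) (by omega))
  have hx1 : xc (ac (WAB A B) s T₀) = xc (act β T₀) := by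
    rcases hpm with h1 | h1
    · rw [h1]
    · rw [h1, xc_neg]
  have hx2 : xc (ac (WAB A B) s ((2 : ℤ) • T₀)) = xc (act β ((2 : ℤ) • T₀)) := by
    have e1 : ac (WAB A B) s ((2 : ℤ) • T₀) = (2 : ℤ) • ac (WAB A B) s T₀ := map_zsmul _ _ _
    have e2 : act β ((2 : ℤ) • T₀) = (2 : ℤ) • act β T₀ := map_zsmul (act β : Pt (WAB A B) Ω →+ Pt (WAB A B) Ω) 2 T₀
    rw [e1, e2]
    rcases hpm with h1 | h1
    · rw [h1]
    · rw [h1, smul_neg, xc_neg]
  obtain ⟨γ, hγ, hγK⟩ := frob_gen' h hR hβ hVβ hp (hNm.trans hq) hVp s hD (by rw [hNm]; exact hs)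
    (map_one s) (s.commutes _) hk1 hk2 hk3 hk4 hx1 hx2
  have hγs : Ideal.span {γ} = v.asIdeal := by
    rcases hγ with h1 | h1
    · rw [h1, hgen]
    · rw [h1, Ideal.span_singleton_neg, hgen]
  have hγv : γ ∈ v.asIdeal := by
    rw [← hγs]
    exact Ideal.mem_span_singleton_self γ
  refine ⟨γ, hγs, ?_, ?_⟩
  · obtain ⟨g, hg⟩ := ex_int hd γ
    have h1 : act γ T₀ = g • T₀ := act_tor hg hT
    have h2 := hγK T₀
    have h3 : act γ T₀ - ac (WAB A B) s T₀ = (g - a) • T₀ := by rw [h1, ha, sub_smul]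
    rw [h3] at h2
    have h4 : (D : ℤ) ∣ g - a := by
      by_contra hn
      exact hnk _ hn h2
    rw [← del_dvd_int hd] at h4
    have h5 := dvd_add hg h4
    push_cast at h5
    rwa [sub_add_sub_cancel] at h5
  · rw [hcard s hD hs, card_gamma h hR s (hv _ hγv) hγK]

end H13D
end

-- from Lib.H13D.E4
section

/-! # H13D, part E: the Galois group of the rational numbers -/

open NumberField IsDedekindDomain WeierstrassCurve

namespace H13D

open H55P (IQ embF eF LF Per IsHecke Pt ac Inert Dec Nm)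
open H35P (WAB Ker tt GoodW IntW)
open H55K

variable {F : Type} [Field F] [NumberField F] [IQ F] {A B : F} {Om : ℂ} {Ω : Type} [Field Ω] [DecidableEq Ω]
  [Algebra F Ω] {j : Ω →+* ℂ} {act : 𝓞 F →+* AddMonoid.End (Pt (WAB A B) Ω)} {δ : 𝓞 F} {D : ℕ}

/-- Chunk E4 (S/M). H55K.nk2_dich (NK2.lean). If s fixes the image of F: s is an automorphism s' over F (AlgEquiv.ofRingEquiv), acr_eq_ac, h.gal: ac s' T₀ is killed by δ. Otherwise cma_galr (CU.lean): 0 = acr s (act δ T₀) = act (cj δ) (acr s T₀) = -act δ (acr s T₀) (cj_del). So acr s T₀ is killed by δ in both cases: tor_gen gives a;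
acr s T₀ ≠ 0 (acr_zero_iff), so D does not divide a (zsmul_iff). -/
theorem acr_T [Algebra ℚ Ω] [IsScalarTower ℚ F Ω] [IsAlgClosed Ω] [Algebra.IsAlgebraic F Ω] (h : CMA F A B Om j act) (hd : Del F δ D)
    (s : Ω ≃ₐ[ℚ] Ω) (hA : (s : Ω ≃+* Ω) (algebraMap F Ω A) = algebraMap F Ω A)
    (hB : (s : Ω ≃+* Ω) (algebraMap F Ω B) = algebraMap F Ω B) {T₀ : Pt (WAB A B) Ω} (hT : act δ T₀ = 0) (h0 : T₀ ≠ 0) :
    ∃ a : ℤ, ¬ (D : ℤ) ∣ a ∧ acr (s : Ω ≃+* Ω) hA hB T₀ = a • T₀ := by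
  have hne : acr (s : Ω ≃+* Ω) hA hB T₀ ≠ 0 := fun h1 => h0 ((acr_zero_iff _ hA hB _).1 h1)
  have hk : act δ (acr (s : Ω ≃+* Ω) hA hB T₀) = 0 := by
    rcases TQ.nk2_dich (F := F) s with h1 | h1
    · obtain ⟨s', hs'⟩ : ∃ s' : Ω ≃ₐ[F] Ω, (s' : Ω ≃+* Ω) = (s : Ω ≃+* Ω) :=
        ⟨AlgEquiv.ofRingEquiv (f := (s : Ω ≃+* Ω)) h1, by ext; rfl⟩
      have h2 : acr (s : Ω ≃+* Ω) hA hB T₀ = ac (WAB A B) s' T₀ := by
        rw [← acr_eq_ac s' (by rw [hs']; exact hA) (by rw [hs']; exact hB)]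
        congr 1
        simp only [hs']
      rw [h2, ← h.gal, hT, map_zero]
    · have h2 := cma_galr h (s : Ω ≃+* Ω) hA hB h1 δ T₀
      rw [hT, map_zero, cj_del hd] at h2
      have h3 : act (-δ) (acr (s : Ω ≃+* Ω) hA hB T₀) = - act δ (acr (s : Ω ≃+* Ω) hA hB T₀) := by
        rw [map_neg]
        rfl
      rw [h3] at h2
      exact neg_eq_zero.1 h2.symm
  obtain ⟨a, ha⟩ := tor_gen h hd hT h0 hk
  refine ⟨a, fun hD => hne ?_, ha⟩
  rw [ha, zsmul_iff hd hT h0]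
  exact hD

/-- Chunk E4 (S). Pure Galois theory: Ω/ℚ is Galois (characteristic 0, normal: IsAlgClosure.normal); an element fixed by all automorphisms is rational: InfiniteGalois.mem_bot_iff_fixed or IsGalois / minpoly: all roots of the minimal polynomial are images of x. -/
theorem fixed_rat {Ω : Type} [Field Ω] [Algebra ℚ Ω] [IsAlgClosure ℚ Ω] (x : Ω) (h : ∀ s : Ω ≃ₐ[ℚ] Ω, s x = x) :
    ∃ q : ℚ, algebraMap ℚ Ω q = x := by
  have hn : Normal ℚ Ω := IsAlgClosure.normal ℚ Ω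
  have hg : IsGalois ℚ Ω := {}
  have h1 : x ∈ (⊥ : IntermediateField ℚ Ω) := (InfiniteGalois.mem_bot_iff_fixed x).2 h
  exact IntermediateField.mem_bot.1 h1

end H13D
end

-- from Lib.H13D.E9
section

/-! # H13D, part E: the discriminant of the quadratic character -/

open NumberField IsDedekindDomain WeierstrassCurve

namespace H13D

open H55P (IQ embF eF LF Per IsHecke Pt ac Inert Dec Nm)
open H35P (WAB Ker tt GoodW IntW)
open H55K
open H55K.MG (VC Crd)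

/-- Chunk E9 (S). For a prime number p not dividing W.Δ there is a prime v of F containing p (p is not a unit of 𝓞 F: Nm p = p^2), and W.Δ is not in v (an integer in v is divisible by p: u p + w n = 1 otherwise); a valuation ring V above v: exists_abw (K0A.lean), Abw.lt. -/
theorem exists_vV {F : Type} [Field F] [NumberField F] [IQ F] (Ω : Type) [Field Ω] [Algebra F Ω] {p : ℕ} (hp : p.Prime) {n : ℤ} (hn : ¬ (p : ℤ) ∣ n) :
    ∃ (v : HeightOneSpectrum (𝓞 F)) (V : ValuationSubring Ω), (n : 𝓞 F) ∉ v.asIdeal ∧ (p : 𝓞 F) ∈ v.asIdeal ∧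
      (∀ a : 𝓞 F, a ∈ v.asIdeal → V.valuation (ak Ω a) < 1) ∧ V.valuation (p : Ω) < 1 := by
  have hp0 : (p : 𝓞 F) ≠ 0 := Nat.cast_ne_zero.2 hp.ne_zero
  have htop : Ideal.span {(p : 𝓞 F)} ≠ ⊤ := by
    intro h
    have h1 := Nm_nat (F := F) p
    unfold Nm at h1
    rw [h, Ideal.absNorm_top] at h1
    have h2 := hp.one_lt
    nlinarith
  obtain ⟨m, hm, hle⟩ := Ideal.exists_le_maximal _ htop
  have hpm : (p : 𝓞 F) ∈ m := hle (Ideal.mem_span_singleton_self _)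
  have hbot : m ≠ ⊥ := by
    rintro rfl
    exact hp0 ((Submodule.mem_bot _).1 hpm)
  obtain ⟨V, hV⟩ := exists_abw Ω (⟨m, hm.isPrime, hbot⟩ : HeightOneSpectrum (𝓞 F))
  have hlt : ∀ a : 𝓞 F, a ∈ m → V.valuation (ak Ω a) < 1 := by
    intro a ha
    have h1 := (hV.lt (algebraMap (𝓞 F) F a)).2
      ((HeightOneSpectrum.valuation_lt_one_iff_mem (K := F) ⟨m, hm.isPrime, hbot⟩ a).2 ha)
    exact h1
  refine ⟨⟨m, hm.isPrime, hbot⟩, V, ?_, hpm, hlt, ?_⟩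
  · intro hnm
    obtain ⟨u, w, huw⟩ := (Nat.prime_iff_prime_int.1 hp).irreducible.coprime_iff_not_dvd.2 hn
    apply hm.ne_top
    rw [Ideal.eq_top_iff_one]
    have h1 : (1 : 𝓞 F) = (u : 𝓞 F) * (p : 𝓞 F) + (w : 𝓞 F) * (n : 𝓞 F) := by
      have := congrArg (fun z : ℤ => (z : 𝓞 F)) huw
      push_cast at this
      exact this.symm
    rw [h1]
    exact m.add_mem (m.mul_mem_left _ hpm) (m.mul_mem_left _ hnm)
  · have h1 := hlt _ hpm
    rwa [show ak Ω (p : 𝓞 F) = (p : Ω) from (map_natCast (g9h F Ω) p)] at h1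

variable {F : Type} [Field F] [NumberField F] [IQ F] {A B : F} {Om : ℂ} {Ω : Type} [Field Ω] [DecidableEq Ω]
  [Algebra F Ω] [Algebra ℚ Ω] [IsScalarTower ℚ F Ω] {j : Ω →+* ℂ} {act : 𝓞 F →+* AddMonoid.End (Pt (WAB A B) Ω)} {δ : 𝓞 F} {D : ℕ}

/-- Chunk E9 (M). THE ELEMENTS Yel^2 AND Zel ARE RATIONAL. For s in Ω ≃ₐ[ℚ] Ω: s fixes the images of A and B (A = algebraMap ℚ F (..): the coefficients of W are integers; W⁄(𝓞 F) has c₄ = the integer W.c₄; see hc4, hA', hsA in the proof of H55K.TQ.hram_of in RF.lean), acr_T gives a, Yel_acr: s Yel = ± Yel (the symbol is 1 or -1: D prime, not dividing a),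
Zel_acr: s Zel = Zel (s fixes ak a₁, ak a₃ and the image of b₂/12: rational numbers). fixed_rat (IsAlgClosure ℚ Ω: Ω is algebraically closed and algebraic over F, hence over ℚ). -/
theorem exists_ez [IsAlgClosure F Ω] (h : CMA F A B Om j act) (hd : Del F δ D) (W : WeierstrassCurve ℤ)
    (hA : A = -(algebraMap (𝓞 F) F (W⁄(𝓞 F)).c₄) / 48) (hB : B = -(algebraMap (𝓞 F) F (W⁄(𝓞 F)).c₆) / 864)
    {T₀ : Pt (WAB A B) Ω} (hT : act δ T₀ = 0) (h0 : T₀ ≠ 0) :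
    ∃ e z : ℚ, algebraMap ℚ Ω e = Yel D T₀ ^ 2 ∧
      algebraMap ℚ Ω z = Zel D T₀ (ak Ω (W⁄(𝓞 F)).a₁) (algebraMap F Ω (algebraMap (𝓞 F) F (W⁄(𝓞 F)).b₂ / 12)) (ak Ω (W⁄(𝓞 F)).a₃) := by
  have hac : IsAlgClosed Ω := IsAlgClosure.isAlgClosed F
  have halg : Algebra.IsAlgebraic F Ω := IsAlgClosure.isAlgebraic
  have halg' : Algebra.IsAlgebraic ℚ Ω := Algebra.IsAlgebraic.trans ℚ F Ω
  have hcl : IsAlgClosure ℚ Ω := ⟨hac, halg'⟩
  have hc4 : algebraMap (𝓞 F) F (W⁄(𝓞 F)).c₄ = algebraMap ℚ F (W.c₄ : ℚ) := by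
    have e1 : (W⁄(𝓞 F)).c₄ = algebraMap ℤ (𝓞 F) W.c₄ := W.map_c₄ _
    rw [e1]
    simp
  have hc6 : algebraMap (𝓞 F) F (W⁄(𝓞 F)).c₆ = algebraMap ℚ F (W.c₆ : ℚ) := by
    have e1 : (W⁄(𝓞 F)).c₆ = algebraMap ℤ (𝓞 F) W.c₆ := W.map_c₆ _
    rw [e1]
    simp
  have hb2 : algebraMap (𝓞 F) F (W⁄(𝓞 F)).b₂ / 12 = algebraMap ℚ F ((W.b₂ : ℚ) / 12) := by
    have e1 : (W⁄(𝓞 F)).b₂ = algebraMap ℤ (𝓞 F) W.b₂ := W.map_b₂ _
    rw [e1]
    simp
  have ha1 : ak Ω (W⁄(𝓞 F)).a₁ = (W.a₁ : Ω) := by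
    have e1 : (W⁄(𝓞 F)).a₁ = ((W.a₁ : ℤ) : 𝓞 F) := rfl
    rw [e1]
    exact map_intCast (g9h F Ω) W.a₁
  have ha3 : ak Ω (W⁄(𝓞 F)).a₃ = (W.a₃ : Ω) := by
    have e1 : (W⁄(𝓞 F)).a₃ = ((W.a₃ : ℤ) : 𝓞 F) := rfl
    rw [e1]
    exact map_intCast (g9h F Ω) W.a₃
  have hA' : A = algebraMap ℚ F (-(W.c₄ : ℚ) / 48) := by
    rw [hA, hc4, map_div₀, map_neg, map_ofNat]
  have hB' : B = algebraMap ℚ F (-(W.c₆ : ℚ) / 864) := by
    rw [hB, hc6, map_div₀, map_neg, map_ofNat]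
  have hsA : ∀ s : Ω ≃ₐ[ℚ] Ω, (s : Ω ≃+* Ω) (algebraMap F Ω A) = algebraMap F Ω A := by
    intro s
    rw [hA', ← IsScalarTower.algebraMap_apply ℚ F Ω]
    exact s.commutes _
  have hsB : ∀ s : Ω ≃ₐ[ℚ] Ω, (s : Ω ≃+* Ω) (algebraMap F Ω B) = algebraMap F Ω B := by
    intro s
    rw [hB', ← IsScalarTower.algebraMap_apply ℚ F Ω]
    exact s.commutes _
  have hDT := D_tor hd hT
  have h1 : ∀ s : Ω ≃ₐ[ℚ] Ω, s (Yel D T₀ ^ 2) = Yel D T₀ ^ 2 := by
    intro s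
    obtain ⟨a, hDa, ha⟩ := acr_T h hd s (hsA s) (hsB s) hT h0
    have h2 : s (Yel D T₀) = ((jacobiSym a D : ℤ) : Ω) * Yel D T₀ :=
      Yel_acr hd.prime hd.mod (s : Ω ≃+* Ω) (hsA s) (hsB s) hDT hDa ha
    rw [map_pow, h2]
    rcases e1_pm hd.prime hDa with h3 | h3
    · rw [h3]
      push_cast
      ring
    · rw [h3]
      push_cast
      ring
  have h2 : ∀ s : Ω ≃ₐ[ℚ] Ω, s (Zel D T₀ (ak Ω (W⁄(𝓞 F)).a₁) (algebraMap F Ω (algebraMap (𝓞 F) F (W⁄(𝓞 F)).b₂ / 12)) (ak Ω (W⁄(𝓞 F)).a₃)) =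
      Zel D T₀ (ak Ω (W⁄(𝓞 F)).a₁) (algebraMap F Ω (algebraMap (𝓞 F) F (W⁄(𝓞 F)).b₂ / 12)) (ak Ω (W⁄(𝓞 F)).a₃) := by
    intro s
    obtain ⟨a, hDa, ha⟩ := acr_T h hd s (hsA s) (hsB s) hT h0
    refine Zel_acr hd.prime hd.mod (s : Ω ≃+* Ω) (hsA s) (hsB s) hDT hDa ha ?_ ?_ ?_
    · rw [ha1]
      exact map_intCast (s : Ω ≃+* Ω) _
    · rw [hb2, ← IsScalarTower.algebraMap_apply ℚ F Ω]
      exact s.commutes _
    · rw [ha3]
      exact map_intCast (s : Ω ≃+* Ω) _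
  obtain ⟨e, he⟩ := fixed_rat _ h1
  obtain ⟨z, hz⟩ := fixed_rat _ h2
  exact ⟨e, z, he, hz⟩

end H13D
end

-- from Lib.H13D.E10
section

/-! # H13D, part E: the quadratic character -/

open NumberField IsDedekindDomain WeierstrassCurve

namespace H13D

open H55P (IQ embF eF LF Per IsHecke Pt ac Inert Dec Nm)
open H35P (WAB Ker tt GoodW IntW)
open H55K
open H55K.MG (VC Crd)

variable {F : Type} [Field F] [NumberField F] [IQ F] {A B : F} {Om : ℂ} {Ω : Type} [Field Ω] [DecidableEq Ω]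
  [Algebra F Ω] [Algebra ℚ Ω] [IsScalarTower ℚ F Ω] {j : Ω →+* ℂ} {act : 𝓞 F →+* AddMonoid.End (Pt (WAB A B) Ω)} {δ : 𝓞 F} {D : ℕ}

omit [Algebra ℚ Ω] [IsScalarTower ℚ F Ω] in
theorem e10_key [IsAlgClosure F Ω] (h : CMA F A B Om j act) (hd : Del F δ D) (W : WeierstrassCurve ℤ)
    (hA : A = -(algebraMap (𝓞 F) F (W⁄(𝓞 F)).c₄) / 48) (hB : B = -(algebraMap (𝓞 F) F (W⁄(𝓞 F)).c₆) / 864)
    (hDN : D ∣ W.Δ.natAbs) {T₀ : Pt (WAB A B) Ω} (hT : act δ T₀ = 0) (h0 : T₀ ≠ 0) {p : ℕ} (hp : p.Prime)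
    (hpN : ¬ p ∣ W.Δ.natAbs) : ∃ V : ValuationSubring Ω, V.valuation (p : Ω) < 1 ∧ V.valuation (Yel D T₀) = 1 ∧
      V.valuation (Zel D T₀ (ak Ω (W⁄(𝓞 F)).a₁) (algebraMap F Ω (algebraMap (𝓞 F) F (W⁄(𝓞 F)).b₂ / 12)) (ak Ω (W⁄(𝓞 F)).a₃)) ≤ 1 ∧
      ∃ w : Ω, V.valuation w ≤ 1 ∧ Yel D T₀ ^ 2 =
        Zel D T₀ (ak Ω (W⁄(𝓞 F)).a₁) (algebraMap F Ω (algebraMap (𝓞 F) F (W⁄(𝓞 F)).b₂ / 12)) (ak Ω (W⁄(𝓞 F)).a₃) ^ 2 + 4 * w := by
  have hac : IsAlgClosed Ω := IsAlgClosure.isAlgClosed F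
  have hpZ : ¬ (p : ℤ) ∣ W.Δ := fun h1 => hpN (Int.natCast_dvd.1 h1)
  obtain ⟨v, V, hΔv, hpv, hv, hpV⟩ := exists_vV (F := F) Ω hp hpZ
  have hpD : ¬ (p : ℤ) ∣ (D : ℤ) := by
    intro h1
    have h2 : p ∣ D := by exact_mod_cast h1
    exact hpN (h2.trans hDN)
  have hδ : V.valuation (ak Ω δ) = 1 := by
    have h1 : V.valuation (((D : ℤ)) : Ω) = 1 := e7_int_eq V hp hpV hpD
    have h2 : ak Ω δ ^ 2 = -(((D : ℤ)) : Ω) := by
      have h3 := congrArg (g9h F Ω) hd.sq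
      rw [map_pow, map_neg, map_natCast] at h3
      rw [← g9h_eq, h3]
      push_cast
      rfl
    have h4 : V.valuation (ak Ω δ) ^ 2 = 1 := by rw [← map_pow, h2, Valuation.map_neg, h1]
    exact (pow_eq_one_iff_of_nonneg zero_le two_ne_zero).1 h4
  have hΔ' : (W⁄(𝓞 F)).Δ ∉ v.asIdeal := by
    have e1 : (W⁄(𝓞 F)).Δ = algebraMap ℤ (𝓞 F) W.Δ := W.map_Δ _
    rw [e1]
    exact hΔv
  obtain ⟨Kg, Θ, hK, hG, hc, hR, -⟩ := exists_rm (Ω := Ω) (V := V) (W⁄(𝓞 F)) hA hB v hΔ' hv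
  have h1 := val_Yel h hd (W⁄(𝓞 F)) hG hc hK hR hδ hT h0
  obtain ⟨h2, w, hw, h3⟩ := sq_Yel h hd (W⁄(𝓞 F)) hG hc hK hR hδ hT h0
  exact ⟨V, hpV, h1, h2, w, hw, h3⟩

/-- Chunk E10 (M). THE DISCRIMINANT. e, z from exists_ez; N = W.Δ.natAbs. For a prime p not dividing N (p ≠ D since D divides N): v, V from exists_vV (n = W.Δ), δ is not in v (else D in v, with p in v: 1 in v), V(δ) = 1 (g10b_one in H55K/G10B.lean); (W⁄(𝓞 F)).Δ = W.Δ not in v; Kg, Θ, .. from exists_rm (C4.lean); val_Yel: V(e) = 1 (V(Yel) = 1), so rat_eq: p divides neither e.num nor e.den.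
e ≠ 0 (such p exist, or directly: V(e) = 1 at one V; there are infinitely many primes). p = 2: sq_Yel: e = z^2 + 4 w₀ with V(z) ≤ 1, V(w₀) ≤ 1; w = (e - z^2)/4 is rational with image w₀ (Ω of characteristic 0), rat_le for z and w. e_form. -/
theorem exists_d [IsAlgClosure F Ω] (h : CMA F A B Om j act) (hd : Del F δ D) (W : WeierstrassCurve ℤ) (hΔ : W.Δ ≠ 0)
    (hA : A = -(algebraMap (𝓞 F) F (W⁄(𝓞 F)).c₄) / 48) (hB : B = -(algebraMap (𝓞 F) F (W⁄(𝓞 F)).c₆) / 864)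
    (hDN : D ∣ W.Δ.natAbs) {T₀ : Pt (WAB A B) Ω} (hT : act δ T₀ = 0) (h0 : T₀ ≠ 0) :
    ∃ (d : ℤ) (f : ℚ), Squarefree d ∧ f ≠ 0 ∧ Yel D T₀ ^ 2 = algebraMap ℚ Ω (d * f ^ 2) ∧
      (∀ p : ℕ, p.Prime → (p : ℤ) ∣ d → p ∣ W.Δ.natAbs) ∧ (¬ 2 ∣ W.Δ.natAbs → d % 4 = 1) := by
  have hch : CharZero Ω := algebraRat.charZero Ω
  obtain ⟨e, z, he, hz⟩ := exists_ez h hd W hA hB hT h0
  have hN : W.Δ.natAbs ≠ 0 := Int.natAbs_ne_zero.2 hΔ
  have he0 : e ≠ 0 := by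
    obtain ⟨p, hpl, hp⟩ := Nat.exists_infinite_primes (W.Δ.natAbs + 1)
    have hpN : ¬ p ∣ W.Δ.natAbs := fun h1 => by
      have := Nat.le_of_dvd (Nat.pos_of_ne_zero hN) h1
      omega
    obtain ⟨V, hpV, h1, -⟩ := e10_key h hd W hA hB hDN hT h0 hp hpN
    rintro rfl
    rw [map_zero] at he
    have h2 : Yel D T₀ = 0 := pow_eq_zero_iff two_ne_zero |>.1 he.symm
    rw [h2, map_zero] at h1
    exact zero_ne_one h1
  obtain ⟨d, f, h1, h2, h3, h4, h5⟩ := e_form (N := W.Δ.natAbs) he0 (by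
    intro p hp hpN
    obtain ⟨V, hpV, h1, -⟩ := e10_key h hd W hA hB hDN hT h0 hp hpN
    exact rat_eq V hp hpV e (by rw [he, map_pow, h1, one_pow])) (by
    intro h2N
    obtain ⟨V, hpV, h1, h2, w, hw, h3⟩ := e10_key h hd W hA hB hDN hT h0 Nat.prime_two h2N
    refine ⟨z, (e - z ^ 2) / 4, by ring, rat_le V Nat.prime_two hpV z (by rw [hz]; exact h2), rat_le V Nat.prime_two hpV _ ?_⟩
    have h4 : algebraMap ℚ Ω ((e - z ^ 2) / 4) = w := by
      rw [map_div₀, map_sub, map_pow, he, hz, h3, map_ofNat]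
      field_simp
      ring
    rw [h4]
    exact hw)
  exact ⟨d, f, h1, h2, by rw [← he, h3], h4, h5⟩

/-- Chunk E10 (M). THE QUADRATIC CHARACTER. d, f from exists_d, χ from kron_even or kron_odd with N = W.Δ.natAbs (squarefree d). For a good prime v: p, n from below_v, p does not divide N (else Δ in v: Δ is an integer divisible by p). w = Yel / f: w^2 = d. s w = η w with η = jacobiSym a D (Yel_ac: D does not divide a, because ac s T₀ ≠ 0; s fixes the rational number f),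
η = 1 or -1. V(p) < 1 (hv). frob_kron (s as a ring homomorphism): η = χ (p^n) = χ (absNorm v). -/
theorem exists_chi [IsAlgClosure F Ω] (h : CMA F A B Om j act) (hd : Del F δ D) (W : WeierstrassCurve ℤ) (hΔ : W.Δ ≠ 0)
    (hA : A = -(algebraMap (𝓞 F) F (W⁄(𝓞 F)).c₄) / 48) (hB : B = -(algebraMap (𝓞 F) F (W⁄(𝓞 F)).c₆) / 864)
    (hDN : D ∣ W.Δ.natAbs) {T₀ : Pt (WAB A B) Ω} (hT : act δ T₀ = 0) (h0 : T₀ ≠ 0) :
    ∃ (d : ℤ) (χ : ℕ → ℤ), Kron d W.Δ.natAbs χ ∧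
      ∀ v : HeightOneSpectrum (𝓞 F), (W⁄(𝓞 F)).Δ ∉ v.asIdeal → ∀ V : ValuationSubring Ω,
        (∀ a : 𝓞 F, a ∈ v.asIdeal → V.valuation (ak Ω a) < 1) → ∀ s : Ω ≃ₐ[F] Ω,
        (∀ x ∈ V, V.valuation (s x - x ^ Ideal.absNorm v.asIdeal) < 1) → ∀ a : ℤ, ac (WAB A B) s T₀ = a • T₀ →
        jacobiSym a D = χ (Ideal.absNorm v.asIdeal) := by
  have hch : CharZero Ω := algebraRat.charZero Ω
  obtain ⟨d, f, hsq, hf, hYd, hdN, h4⟩ := exists_d h hd W hΔ hA hB hDN hT h0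
  have hN : W.Δ.natAbs ≠ 0 := Int.natAbs_ne_zero.2 hΔ
  obtain ⟨χ, hχ⟩ : ∃ χ : ℕ → ℤ, Kron d W.Δ.natAbs χ := by
    by_cases h2 : 2 ∣ W.Δ.natAbs
    · exact kron_even hsq hdN h2 hN
    · exact kron_odd hsq hdN h2 (h4 h2)
  refine ⟨d, χ, hχ, fun v hΔv V hv s hs a ha => ?_⟩
  obtain ⟨p, n, hp, hpv, hn0, hnorm⟩ := below_v v
  have hpN : ¬ p ∣ W.Δ.natAbs := by
    intro h1
    apply hΔv
    obtain ⟨c, hc⟩ : (p : ℤ) ∣ W.Δ := Int.natCast_dvd.2 h1
    have e1 : (W⁄(𝓞 F)).Δ = ((W.Δ : ℤ) : 𝓞 F) := W.map_Δ _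
    rw [e1, hc]
    push_cast
    exact Ideal.mul_mem_right _ _ hpv
  have hpV : V.valuation (p : Ω) < 1 := by
    have h1 := hv _ hpv
    rwa [show ak Ω (p : 𝓞 F) = (p : Ω) from (map_natCast (g9h F Ω) p)] at h1
  have hne : ac (WAB A B) s T₀ ≠ 0 := H55K.ac_ne _ s h0
  have hDa : ¬ (D : ℤ) ∣ a := by
    intro h1
    apply hne
    rw [ha]
    exact (zsmul_iff hd hT h0 a).2 h1
  have hY := Yel_ac hd.prime hd.mod s (D_tor hd hT) hDa ha
  set fΩ : Ω := algebraMap ℚ Ω f with hfΩ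
  have hfΩ0 : fΩ ≠ 0 := by
    rw [hfΩ]
    exact (map_ne_zero _).2 hf
  have hsf : s fΩ = fΩ := by
    rw [hfΩ, IsScalarTower.algebraMap_apply ℚ F Ω]
    exact s.commutes _
  have hw : (Yel D T₀ / fΩ) ^ 2 = (d : Ω) := by
    rw [div_pow, hYd, map_mul, map_pow, ← hfΩ, map_intCast]
    field_simp
  have hsw : (s : Ω →+* Ω) (Yel D T₀ / fΩ) = ((jacobiSym a D : ℤ) : Ω) * (Yel D T₀ / fΩ) := by
    show s (Yel D T₀ / fΩ) = _
    rw [map_div₀, hY, hsf, mul_div_assoc]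
  rw [hnorm] at hs ⊢
  exact frob_kron V hp hpV hχ hdN h4 hpN hw (s : Ω →+* Ω) hs (e1_pm hd.prime hDa) hsw

end H13D
end

-- from Lib.H13D.H3
section

/-! # H13D: Deuring's theorem: the curves over the rational numbers with complex multiplication by the integers of the field of discriminant -D -/

open NumberField IsDedekindDomain WeierstrassCurve

namespace H13D

open H55P (IQ embF eF LF Per IsHecke Pt ac Inert Dec Nm)
open H35P (WAB Ker tt GoodW IntW)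
open H55K
open H55K.TQ (BaseH)

/-- The Hecke character of a curve over the rational numbers with complex multiplication by the integers of F, F of
discriminant -D, D > 3 a prime number. -/
theorem base_D {F : Type} [Field F] [NumberField F] [IQ F] {δ : 𝓞 F} {D : ℕ} (hd : Del F δ D) (W : WeierstrassCurve ℤ) (Om : ℂ)
    (hΔ : W.Δ ≠ 0) (hper : Per F (-(eF F (W⁄(𝓞 F)).c₄) / 48) (-(eF F (W⁄(𝓞 F)).c₆) / 864) Om)
    (hbad : ∀ v : HeightOneSpectrum (𝓞 F), (W⁄(𝓞 F)).Δ ∈ v.asIdeal → ¬ GoodAt ((W⁄(𝓞 F))⁄F) v) :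
    ∃ ψ : Ideal (𝓞 F) →*₀ 𝓞 F, BaseH F (W⁄(𝓞 F)) Om (Ideal.span {((W.Δ.natAbs : ℕ) : 𝓞 F) ^ 3}) ψ := by
  classical
  set N := W.Δ.natAbs with hN
  have hN0 : N ≠ 0 := Int.natAbs_ne_zero.2 hΔ
  have hΔF : (W⁄(𝓞 F)).Δ = ((W.Δ : ℤ) : 𝓞 F) := by
    have := W.map_Δ (algebraMap ℤ (𝓞 F))
    exact this.trans (by simp)
  have hΔ0 : (W⁄(𝓞 F)).Δ ≠ 0 := by
    rw [hΔF]
    exact_mod_cast hΔ
  -- D divides the discriminant
  have hD1 := hd.prime.one_lt
  obtain ⟨vδ, hvδ⟩ : ∃ v : HeightOneSpectrum (𝓞 F), v.asIdeal = Ideal.span {δ} := by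
    have hp := del_prime hd
    exact ⟨⟨Ideal.span {δ}, (Ideal.span_singleton_prime hp.ne_zero).2 hp, by
      rw [Ne, Ideal.span_singleton_eq_bot]
      exact hp.ne_zero⟩, rfl⟩
  have hram : (W⁄(𝓞 F)).Δ ∈ vδ.asIdeal := by
    refine disc_ram hΔ hper vδ (fun a => ?_)
    rw [hvδ, Ideal.mem_span_singleton]
    obtain ⟨n, c, hc⟩ := ex_int hd a
    have hc' : cj a - n = -δ * cj c := by
      have := congrArg cj hc
      rw [map_sub, map_mul, cj_int, cj_del hd] at this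
      exact this
    exact ⟨c + cj c, by linear_combination hc - hc'⟩
  have hDN : D ∣ N := by
    rw [hvδ, Ideal.mem_span_singleton, hΔF, del_dvd_int hd] at hram
    exact Int.natCast_dvd.1 hram
  -- the analytic data
  obtain ⟨A, hA⟩ : ∃ A : F, A = -(algebraMap (𝓞 F) F (W⁄(𝓞 F)).c₄) / 48 := ⟨_, rfl⟩
  obtain ⟨B, hB⟩ : ∃ B : F, B = -(algebraMap (𝓞 F) F (W⁄(𝓞 F)).c₆) / 864 := ⟨_, rfl⟩
  have hdisc := y3_ne (W⁄(𝓞 F)) hA hB hΔ0
  have hper' : Per F (embF F A) (embF F B) Om := by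
    have e1 : embF F A = -(eF F (W⁄(𝓞 F)).c₄) / 48 := by
      rw [hA, map_div₀, map_neg, map_ofNat]
      rfl
    have e2 : embF F B = -(eF F (W⁄(𝓞 F)).c₆) / 864 := by
      rw [hB, map_div₀, map_neg, map_ofNat]
      rfl
    rw [e1, e2]
    exact hper
  set Ω := AlgebraicClosure F with hΩ
  obtain ⟨j, hj⟩ := exists_j F Ω
  obtain ⟨act, h⟩ := exists_CMA F A B Om j hdisc hper' hj
  obtain ⟨T₀, hT, h0⟩ := exists_T h hd
  obtain ⟨d, χ, hχ, hfr⟩ := exists_chi h hd W hΔ hA hB hDN hT h0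
  obtain ⟨ψ, hψ, hval⟩ := exists_psi (F := F) hd hN0 hDN hχ
  have hmem : ∀ v : HeightOneSpectrum (𝓞 F), (W⁄(𝓞 F)).Δ ∈ v.asIdeal ↔ (N : 𝓞 F) ∈ v.asIdeal := by
    intro v
    rw [hΔF]
    rcases Int.natAbs_eq W.Δ with h1 | h1
    · rw [h1, ← hN, Int.cast_natCast]
    · rw [h1, ← hN, Int.cast_neg, Int.cast_natCast, neg_mem_iff]
  have hsupp : ∀ v : HeightOneSpectrum (𝓞 F), (W⁄(𝓞 F)).Δ ∈ v.asIdeal ↔ Ideal.span {(N : 𝓞 F) ^ 3} ≤ v.asIdeal := by
    intro v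
    rw [hmem, Ideal.span_singleton_le_iff_mem]
    exact ⟨fun h1 => Ideal.pow_mem_of_mem _ h1 3 (by norm_num), fun h1 => v.isPrime.mem_of_pow_mem 3 h1⟩
  refine ⟨ψ, ⟨⟨hΔ0, hper, hψ⟩, ?_, hsupp, hbad⟩⟩
  intro v hv
  obtain ⟨V, hV⟩ := exists_abw Ω v
  have hVv : ∀ a : 𝓞 F, a ∈ v.asIdeal → V.valuation (ak Ω a) < 1 := by
    intro a ha
    rw [hV.lt]
    exact (v.valuation_lt_one_iff_mem _).2 ha
  obtain ⟨s, hDec, hs⟩ := H13S.exists_frob v V hVv
  have hsT : act δ (ac (WAB A B) s T₀) = 0 := by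
    rw [← h.gal, hT, map_zero]
  obtain ⟨a, ha⟩ := tor_gen h hd hT h0 hsT
  have hδv : δ ∉ v.asIdeal := by
    intro h1
    apply hv
    rw [hmem]
    obtain ⟨c, hc⟩ := hDN
    rw [hc, Nat.cast_mul]
    refine Ideal.mul_mem_right _ _ ?_
    have h2 : (D : 𝓞 F) = -(δ * δ) := by
      have := hd.sq
      linear_combination this
    rw [h2]
    exact neg_mem (Ideal.mul_mem_left _ _ h1)
  obtain ⟨γ, hγ, hγa, hcard⟩ := frob_v h hd (W⁄(𝓞 F)) hA hB v hv hδv hVv s hDec hs hT h0 ha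
  have hNγ : Nm γ = Ideal.absNorm v.asIdeal := by
    unfold Nm
    rw [hγ]
  have hcopI : IsCoprime (Ideal.span {γ}) (Ideal.span {(N : 𝓞 F) ^ 3}) := by
    rw [hγ, Ideal.isCoprime_iff_sup_eq]
    by_contra hne
    have h1 := v.isMaximal.eq_of_le hne le_sup_left
    exact hv ((hsupp v).2 (by rw [h1]; exact le_sup_right))
  have hcop : (Nm γ).Coprime N := (cop_iff N γ).1 hcopI
  have e1 : lam δ D γ = jacobiSym a D := lam_eq hd hγa
  have e2 := hfr v hv V hVv s hs a ha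
  have e3 := hχ.pm _ hcop
  have e4 : ψ v.asIdeal = γ := by
    rw [← hγ, hval γ hcop, e1, e2, hNγ]
    rw [hNγ] at e3
    rcases e3 with e3 | e3
    · rw [e3]
      simp
    · rw [e3]
      simp
  rw [hcard, e4]

end H13D
end

-- from Lib.H13D.Main
section

/-! # H13D: Deuring's theorem for the global minimal equations over the rational numbers with complex multiplication by the integers
of the field of discriminant -D, D = 7, 11, 19, 43, 67, 163 -/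

open NumberField IsDedekindDomain WeierstrassCurve

namespace H13D

open H55P (IQ embF eF LF Per IsHecke Pt ac Inert Dec Nm)
open H55K
open H55K.TQ (BaseH)

theorem base_exists {F : Type} [Field F] [NumberField F] [IQ F] {δ : 𝓞 F} {D : ℕ} (hd : Del F δ D) (W : WeierstrassCurve ℤ) (Om : ℂ)
    (hΔ : W.Δ ≠ 0) (hper : Per F (-(eF F (W⁄(𝓞 F)).c₄) / 48) (-(eF F (W⁄(𝓞 F)).c₆) / 864) Om) (hmin : MinZ W) :
    ∃ ψ : Ideal (𝓞 F) →*₀ 𝓞 F, BaseH F (W⁄(𝓞 F)) Om (Ideal.span {((W.Δ.natAbs : ℕ) : 𝓞 F) ^ 3}) ψ :=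
  base_D hd W Om hΔ hper (bad_F hΔ hper hmin)

end H13D
end

-- from Lib.H55W.L3D
section

/-! # H55W, part L: the Frobenius element, discriminant -3 -/

open NumberField IsDedekindDomain WeierstrassCurve

namespace H55W

open H55P (IQ embF eF LF Per IsHecke Pt ac Inert Dec Nm)
open H35P (WAB Ker tt GoodW IntW)
open H55K
open H13D (RM)

variable {F : Type} [Field F] [NumberField F] [IQ F] {w : 𝓞 F} {A B : F} {Om : ℂ} {Ω : Type} [Field Ω] [DecidableEq Ω]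
  [Algebra F Ω] {j : Ω →+* ℂ} {act : 𝓞 F →+* AddMonoid.End (Pt (WAB A B) Ω)} {V : ValuationSubring Ω}
  {Kg : AddSubgroup (Pt (WAB A B) Ω)} {v : HeightOneSpectrum (𝓞 F)} {s : Ω ≃ₐ[F] Ω} {r : Ω}

theorem l3d_ndvd (hw : EI w) {a b : ℤ} (h : (3 : 𝓞 F) ∣ (a : 𝓞 F) + (b : 𝓞 F) * w) : (9 : ℤ) ∣ a ^ 2 - a * b + b ^ 2 := by
  obtain ⟨z, hz⟩ := h
  have h1 := (ei_nm hw a b).2
  have h3 : Nm (3 : 𝓞 F) = 9 := by
    have := Nm_nat (F := F) 3
    rw [Nat.cast_ofNat] at this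
    rw [this]
    norm_num
  rw [hz, Nm_mul, h3] at h1
  rw [← h1]
  push_cast
  exact dvd_mul_right _ _

theorem l3d_not (hw : EI w) {x : 𝓞 F} {a b : ℤ} (hx : x = (a : 𝓞 F) + (b : 𝓞 F) * w) (h : ¬ (9 : ℤ) ∣ a ^ 2 - a * b + b ^ 2) :
    ¬ (3 : 𝓞 F) ∣ x := by
  intro h1
  rw [hx] at h1
  exact h (l3d_ndvd hw h1)

theorem l3d_three (hw : EI w) : (1 - w) * (1 - w ^ 2) = 3 := by
  have h1 := hw.sq
  linear_combination (w - 2) * h1

/-- Chunk L3D (S/M). s permutes the points killed by 3: act 3 (ac s T) = ac s (act 3 T) = 0 (h.gal): ac s T = act c T. 1 - w does not divide c: otherwise act (1 - w^2) kills ac s T: (1 - w)(1 - w^2) = 3, so act (1 - w^2) (act c T) = 0, ac s (act (1 - w^2) T) = 0, act (1 - w^2) T = 0 (ac_ne), 3 divides 1 - w^2 = (1 - w)(1 + w): contradiction. ei_mod3: unit u with 3 | c - u: act c T = act u T. -/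
theorem three_unit (hw : EI w) (h : CMA F A B Om j act) (s : Ω ≃ₐ[F] Ω) {T : Pt (WAB A B) Ω} (hT : ∀ a : 𝓞 F, act a T = 0 ↔ (3 : 𝓞 F) ∣ a)
    (hg : ∀ P : Pt (WAB A B) Ω, act 3 P = 0 → ∃ a : 𝓞 F, P = act a T) : ∃ u : 𝓞 F, IsUnit u ∧ ac (WAB A B) s T = act u T := by
  have h1 : act 3 (ac (WAB A B) s T) = 0 := by
    rw [← h.gal, (hT 3).2 (dvd_refl _), ac_zero]
  obtain ⟨c, hc⟩ := hg _ h1
  have hc1 : ¬ (1 - w) ∣ c := by
    rintro ⟨c', rfl⟩
    have h2 : act (1 - w ^ 2) (ac (WAB A B) s T) = 0 := by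
      rw [hc, ← l0_mul]
      have h3 : (1 - w ^ 2) * ((1 - w) * c') = 3 * c' := by rw [← l3d_three hw]; ring
      rw [h3]
      exact (hT _).2 (dvd_mul_right _ _)
    rw [← h.gal] at h2
    have h3 : act (1 - w ^ 2) T = 0 := by
      by_contra h4
      exact ac_ne _ s h4 h2
    have h4 : (1 : 𝓞 F) - w ^ 2 = ((2 : ℤ) : 𝓞 F) + ((1 : ℤ) : 𝓞 F) * w := by
      push_cast
      linear_combination (-1 : 𝓞 F) * hw.sq
    exact l3d_not hw h4 (by norm_num) ((hT _).1 h3)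
  obtain ⟨u, hu, h3⟩ := ei_mod3 hw hc1
  refine ⟨u, hu, ?_⟩
  have h4 := (hT _).2 h3
  rw [l0_sub, sub_eq_zero] at h4
  rw [hc, h4]

theorem l3d_coords (hw : EI w) (h : CMA F A B Om j act) (s : Ω ≃ₐ[F] Ω) {T : Pt (WAB A B) Ω} {η : 𝓞 F} {i : ℕ}
    (hη : η = 1 ∨ η = -1) (hu : IsUnit (η * w ^ i)) (hc : ac (WAB A B) s T = act (η * w ^ i) T) :
    s (xc T) = ak Ω (w ^ i) * xc T ∧ s (yc T) = ak Ω η * yc T := by
  obtain ⟨h1, h2⟩ := act_unit h hu T
  rw [← hc, xc_ac] at h1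
  rw [← hc, yc_ac] at h2
  have h3 : ak Ω (η * w ^ i) = ak Ω η * ak Ω (w ^ i) := by
    unfold ak
    rw [← map_mul]
    rfl
  have h4 : ak Ω η ^ 2 = 1 := by
    rcases hη with h5 | h5
    · rw [h5]
      unfold ak
      simp
    · rw [h5]
      unfold ak
      simp
  have h5 : ak Ω (w ^ i) ^ 3 = 1 := by
    rw [l3_ak, ← pow_mul, mul_comm, pow_mul, l3_omcube hw, one_pow]
  rw [h3] at h1 h2
  constructor
  · have e1 : ak Ω (w ^ i) ^ 2 * s (xc T) = xc T := by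
      linear_combination h1 - ak Ω (w ^ i) ^ 2 * s (xc T) * h4
    linear_combination ak Ω (w ^ i) * e1 - s (xc T) * h5
  · have e1 : ak Ω η * s (yc T) = yc T := by
      linear_combination h2 - (ak Ω η ^ 3 * s (yc T)) * h5 - (ak Ω η * s (yc T)) * h4
    linear_combination ak Ω η * e1 - s (yc T) * h4

theorem l3d_pp (hw : EI w) (h3 : (3 : 𝓞 F) ∉ v.asIdeal) : PP 3 w v.asIdeal where
  pr := v.isPrime
  ne := v.ne_bot
  nm := by exact_mod_cast h3
  root := ei_root hw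
  two := by norm_num

theorem l3d_pp2 (h2 : (2 : 𝓞 F) ∉ v.asIdeal) : PP 2 (-1 : 𝓞 F) v.asIdeal where
  pr := v.isPrime
  ne := v.ne_bot
  nm := by exact_mod_cast h2
  root := IsPrimitiveRoot.neg_one 0 (by norm_num)
  two := le_rfl

/-- the square root of b' -/
theorem l3d_sqrt (hw : EI w) (j : Ω →+* ℂ) {b' : ℤ} {y : Ω} (hy : (2 * y) ^ 2 = -3 * (b' : Ω)) :
    (2 * y / (ak Ω w - ak Ω w ^ 2)) ^ 2 = (b' : Ω) := by
  have h1 : (ak Ω w - ak Ω w ^ 2) ^ 2 = -3 := by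
    linear_combination (ak Ω w ^ 2 - 3 * ak Ω w + 3) * l3_om (Ω := Ω) hw
  have h30 : (3 : Ω) ≠ 0 := by
    have := l3_nat (Ω := Ω) (n := 3) (by norm_num) j
    exact_mod_cast this
  rw [div_pow, h1, hy, neg_mul, neg_div_neg_eq, mul_div_cancel_left₀ _ h30]

theorem l3d_pow4 {V : ValuationSubring Ω} {z : Ω} (hz : z ∈ V) (h4 : V.valuation (z ^ 4 - z) < 1) (g : ℕ) :
    V.valuation (z ^ 4 ^ g - z) < 1 := by
  induction g with
  | zero =>
    rw [pow_zero, pow_one, sub_self, map_zero]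
    exact zero_lt_one
  | succ g ih =>
    have h1 : z ^ 4 ^ (g + 1) - z = (z ^ 4 ^ g - z) * ((z ^ 4 ^ g) ^ 3 + (z ^ 4 ^ g) ^ 2 * z + z ^ 4 ^ g * z ^ 2 + z ^ 3) +
        (z ^ 4 - z) := by
      rw [pow_succ 4 g, pow_mul]
      ring
    rw [h1]
    have h2 : (z ^ 4 ^ g) ^ 3 + (z ^ 4 ^ g) ^ 2 * z + z ^ 4 ^ g * z ^ 2 + z ^ 3 ∈ V :=
      V.add_mem _ _ (V.add_mem _ _ (V.add_mem _ _ (pow_mem (pow_mem hz _) _) (V.mul_mem _ _ (pow_mem (pow_mem hz _) _) hz))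
        (V.mul_mem _ _ (pow_mem hz _) (pow_mem hz _))) (pow_mem hz _)
    have h3 := (V.valuation_le_one_iff _).2 h2
    refine lt_of_le_of_lt (Valuation.map_add _ _ _) (max_lt ?_ h4)
    rw [map_mul]
    exact mul_lt_one_of_lt_of_le ih h3

/-- at 2 -/
theorem l3d_two (hL : LD v V s Kg r) (h2 : (2 : 𝓞 F) ∈ v.asIdeal) (h20 : (2 : Ω) ≠ 0)
    (h3 : 3 ∣ Ideal.absNorm v.asIdeal - 1) {b' : ℤ} (hb : (b' : 𝓞 F) ∉ v.asIdeal) (hb4 : b' % 4 = 1) {X : Ω}
    (hX : X ^ 2 = (b' : Ω)) (hs : s X = -X) : False := by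
  have hV2 : V.valuation (2 : Ω) < 1 := by
    have h4 := hL.lt _ h2
    have e1 : ak Ω (2 : 𝓞 F) = 2 := by
      unfold ak
      rw [show ((2 : 𝓞 F) : F) = 2 from map_ofNat (algebraMap (𝓞 F) F) 2, map_ofNat]
    rwa [e1] at h4
  have hXV : V.valuation X = 1 := by
    refine l0_pow (m := 2) (by norm_num) ?_
    rw [← map_pow, hX]
    have h4 := hL.eq _ hb
    unfold ak at h4
    simpa using h4
  obtain ⟨k, hk⟩ : ∃ k : ℤ, b' = 1 - 4 * k := ⟨(1 - b') / 4, by omega⟩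
  have hint : ∀ n : ℤ, (n : Ω) ∈ V := fun n => intCast_mem V n
  obtain ⟨z, hz⟩ : ∃ z : Ω, 2 * z = 1 + X := ⟨(1 + X) / 2, by rw [mul_div_cancel₀ _ h20]⟩
  have hz2 : z ^ 2 = z - (k : Ω) := by
    have h4 : (4 : Ω) ≠ 0 := by
      have : (4 : Ω) = 2 * 2 := by norm_num
      rw [this]
      exact mul_ne_zero h20 h20
    have h5 : (b' : Ω) = 1 - 4 * (k : Ω) := by rw [hk]; push_cast; ring
    have h6 : 4 * (z ^ 2 - (z - (k : Ω))) = 0 := by
      have h7 : X = 2 * z - 1 := by linear_combination -hz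
      rw [h7, h5] at hX
      linear_combination hX
    exact sub_eq_zero.1 ((mul_eq_zero.1 h6).resolve_left h4)
  have hzV : z ∈ V := by
    rcases V.mem_or_inv_mem z with h4 | h4
    · exact h4
    · by_cases hz0 : z = 0
      · rw [hz0]
        exact V.zero_mem
      · have h5 : z = 1 - (k : Ω) * z⁻¹ := by
          have h6 : z * z⁻¹ = 1 := mul_inv_cancel₀ hz0
          linear_combination z⁻¹ * hz2 - (z - 1) * h6
        rw [h5]
        exact sub_mem (one_mem _) (mul_mem (hint k) h4)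
  obtain ⟨k', hk'⟩ : ∃ k' : ℤ, k ^ 2 - k = 2 * k' := by
    obtain ⟨m, hm⟩ := Int.even_mul_succ_self (k - 1)
    exact ⟨m, by linear_combination hm⟩
  have h4 : V.valuation (z ^ 4 - z) < 1 := by
    have h5 : z ^ 4 - z = 2 * ((k' : Ω) - (k : Ω) * z) := by
      have h6 : (k : Ω) ^ 2 - (k : Ω) = 2 * (k' : Ω) := by exact_mod_cast congrArg (Int.cast (R := Ω)) hk'
      linear_combination (z ^ 2 + z - (k : Ω) + 1) * hz2 + h6
    rw [h5, map_mul]
    exact mul_lt_one_of_lt_of_le hV2 ((V.valuation_le_one_iff _).2 (sub_mem (hint _) (mul_mem (hint _) hzV)))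
  obtain ⟨p, f, hp, hpv, hf0, hN⟩ := H13D.below_v v
  have hp2 : p = 2 := by
    by_contra hne
    have h5 : Nat.Coprime p 2 := (Nat.coprime_primes hp Nat.prime_two).2 hne
    have h6 := Nat.isCoprime_iff_coprime.2 h5
    obtain ⟨a, b, hab⟩ := h6
    apply v.isPrime.ne_top
    rw [Ideal.eq_top_iff_one]
    have h7 : (1 : 𝓞 F) = (a : 𝓞 F) * (p : 𝓞 F) + (b : 𝓞 F) * 2 := by
      have := congrArg (Int.cast (R := 𝓞 F)) hab
      push_cast at this
      exact this.symm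
    rw [h7]
    exact v.asIdeal.add_mem (v.asIdeal.mul_mem_left _ hpv) (v.asIdeal.mul_mem_left _ h2)
  obtain ⟨g, hg⟩ : ∃ g, f = 2 * g := by
    rcases Nat.even_or_odd f with h5 | h5
    · obtain ⟨g, hg⟩ := h5
      exact ⟨g, by omega⟩
    · exfalso
      obtain ⟨g, hg⟩ := h5
      rw [hN, hp2, hg, pow_succ, pow_mul] at h3
      have h6 : (2 ^ 2) ^ g % 3 = 1 := by
        rw [Nat.pow_mod]
        norm_num
      have h7 : 1 ≤ (2 ^ 2) ^ g := Nat.one_le_pow _ _ (by norm_num)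
      omega
  have hN4 : Ideal.absNorm v.asIdeal = 4 ^ g := by
    rw [hN, hp2, hg, pow_mul]
    norm_num
  have h5 := hL.frob z hzV
  rw [hN4] at h5
  have h6 := l3d_pow4 hzV h4 g
  have h7 : s z = z - X := by
    have h8 : 2 * s z = 1 + s X := by
      have h9 := congrArg s hz
      rw [map_mul, map_add, map_one, map_ofNat] at h9
      exact h9
    rw [hs] at h8
    have h9 : 2 * (s z - (z - X)) = 0 := by linear_combination h8 - hz
    exact sub_eq_zero.1 ((mul_eq_zero.1 h9).resolve_left h20)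
  have h8 : -X = (s z - z ^ 4 ^ g) + (z ^ 4 ^ g - z) := by
    rw [h7]
    ring
  have h9 : V.valuation (-X) < 1 := by
    rw [h8]
    exact lt_of_le_of_lt (Valuation.map_add _ _ _) (max_lt h5 h6)
  rw [Valuation.map_neg, hXV] at h9
  exact lt_irrefl _ h9

theorem l3d_gen (hw : EI w) (h3 : (3 : 𝓞 F) ∉ v.asIdeal) {u : 𝓞 F} (hu : IsUnit u) :
    ∃ β : 𝓞 F, Ideal.span {β} = v.asIdeal ∧ (3 : 𝓞 F) ∣ u - β := by
  obtain ⟨β₀, hβ₀⟩ : ∃ β₀ : 𝓞 F, Ideal.span {β₀} = v.asIdeal :=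
    ⟨Submodule.IsPrincipal.generator v.asIdeal, Ideal.span_singleton_generator v.asIdeal⟩
  have hβv : β₀ ∈ v.asIdeal := by
    rw [← hβ₀]
    exact Ideal.mem_span_singleton_self β₀
  have hβne : β₀ ≠ 0 := by
    rintro rfl
    rw [Ideal.span_singleton_eq_bot.2 rfl] at hβ₀
    exact v.ne_bot hβ₀.symm
  have hnd : ¬ (1 - w) ∣ β₀ := by
    rintro ⟨z, hz⟩
    rw [hz] at hβv
    rcases v.isPrime.mem_or_mem hβv with h4 | h4
    · apply h3
      rw [← l3d_three hw]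
      exact v.asIdeal.mul_mem_right _ h4
    · rw [← hβ₀, Ideal.mem_span_singleton] at h4
      obtain ⟨y, hy⟩ := h4
      have h5 : (1 - w) * y = 1 := by
        have h6 : β₀ * ((1 - w) * y - 1) = 0 := by linear_combination -(1 - w) * hy - hz
        exact sub_eq_zero.1 ((mul_eq_zero.1 h6).resolve_left hβne)
      have h6 := congrArg Nm h5
      rw [Nm_mul] at h6
      have h7 := (ei_nm hw 1 (-1)).2
      have h8 : ((1 : ℤ) : 𝓞 F) + ((-1 : ℤ) : 𝓞 F) * w = 1 - w := by push_cast; ring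
      rw [h8] at h7
      have h9 : Nm (1 - w) = 3 := by
        have : ((Nm (1 - w) : ℕ) : ℤ) = 3 := by rw [h7]; norm_num
        exact_mod_cast this
      have h10 : Nm (1 : 𝓞 F) = 1 := by
        have := Nm_nat (F := F) 1
        rw [Nat.cast_one] at this
        rw [this]
        norm_num
      rw [h9, h10] at h6
      omega
  obtain ⟨u₀, hu₀, h4⟩ := ei_mod3 hw hnd
  obtain ⟨y, hy⟩ := hu₀.exists_left_inv
  have hyu : IsUnit y := IsUnit.of_mul_eq_one _ hy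
  refine ⟨u * y * β₀, ?_, ?_⟩
  · rw [← hβ₀, Ideal.span_singleton_eq_span_singleton]
    exact (associated_unit_mul_left β₀ _ (hu.mul hyu))
  · have h5 : u - u * y * β₀ = -(u * y) * (β₀ - u₀) := by linear_combination (-u) * hy
    rw [h5]
    exact Dvd.dvd.mul_left h4 _

/-- Chunk L3D (M). T from tor_three, u from three_unit, u = η w^i (ei_unit). (xc_ac, yc_ac, act_unit): s (xc T) = u^(-2) xc T, s (yc T) = u^(-3) yc T; u^(-2) = w^i =: ζ up to w^3 = 1 (w^(-2i) = w^i), u^(-3) = η. So u = η ζ. ζ: frob_root with m = 3, X = -xc T, X^3 = b' (3 divides N - 1: ps_dvd for P = v.asIdeal, m = 3, ζ = w: 3 is not in v).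
η: X = 2 yc T / (w - w^2) (w - w^2 is a square root of -3, in F): X^2 = b', s X = η X, frob_root with m = 2 if 2 is not in v (2 | N - 1: ps_dvd with ζ = -1, or N odd). If 2 is in v and b' % 4 = 1: z = (1 + X)/2, z^2 = z - k, k = (1 - b')/4 an integer, z in V (integral: V(z)^2 ≤ max ..), N = |O/v| = 4 because 2 is inert (2 is a prime element: Nm (a + b w) = a^2 - ab + b^2 is never 2):
z^4 - z = -2kz + k^2 - k has value < 1 (k^2 - k even), so V(s z - z) < 1, s z - z = (η - 1) X / 2, V(X) = 1: if η = -1 this is -X of value 1: contradiction.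
γ: a generator β₀ of v is prime to 1 - w (3 not in v), so by ei_mod3 3 | β₀ - u₀, β = u u₀⁻¹ β₀, 3 | u - β; loc_gen with n0 = 3, c = u, t = 1 - w (3 does not divide 1 - w, w, 2 - w: norms 3, 1, 7 are not divisible by 9). -/
theorem loc_three (hw : EI w) (h : CMA F A B Om j act) {b' : ℤ} (hB : 4 * B = (b' : F)) (hL : LD v V s Kg r)
    (h3 : (3 : 𝓞 F) ∉ v.asIdeal) (hb : (b' : 𝓞 F) ∉ v.asIdeal) :
    ∃ γ η ζ : 𝓞 F, Ideal.span {γ} = v.asIdeal ∧ (∀ X : Pt (WAB A B) Ω, act γ X - ac (WAB A B) s X ∈ Kg) ∧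
      (3 : 𝓞 F) ∣ γ - η * ζ ∧ (η = 1 ∨ η = -1) ∧ (∃ i : ℕ, ζ = w ^ i) ∧
      (b' : 𝓞 F) ^ ((Ideal.absNorm v.asIdeal - 1) / 3) - ζ ∈ v.asIdeal ∧
      ((2 : 𝓞 F) ∉ v.asIdeal → (b' : 𝓞 F) ^ ((Ideal.absNorm v.asIdeal - 1) / 2) - η ∈ v.asIdeal) ∧
      ((2 : 𝓞 F) ∈ v.asIdeal → b' % 4 = 1 → η = 1) := by
  obtain ⟨T, hT, hg, hx3, hy2⟩ := tor_three hw h hB
  obtain ⟨u, hu, hc⟩ := three_unit hw h s hT hg
  obtain ⟨η, i, hη, rfl⟩ := ei_unit hw hu
  obtain ⟨hsx, hsy⟩ := l3d_coords hw h s hη hu hc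
  obtain ⟨β, hβ, h3β⟩ := l3d_gen (v := v) hw h3 hu
  have n1 : ¬ (3 : 𝓞 F) ∣ 1 - w := l3d_not hw (a := 1) (b := -1) (by push_cast; ring) (by norm_num)
  have n2 : ¬ (3 : 𝓞 F) ∣ 1 - (1 - w) := l3d_not hw (a := 0) (b := 1) (by push_cast; ring) (by norm_num)
  have n3 : ¬ (3 : 𝓞 F) ∣ 1 + (1 - w) := l3d_not hw (a := 2) (b := -1) (by push_cast; ring) (by norm_num)
  obtain ⟨γ, hγ, hγu, hγK⟩ := loc_gen h hL h3 hT hβ hc (Or.inl h3β) n1 n2 n3
  have hd3 := (ps_dvd (l3d_pp hw h3)).1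
  have hakb : ak Ω (b' : 𝓞 F) = (b' : Ω) := by
    unfold ak
    simp
  have h20 : (2 : Ω) ≠ 0 := by
    have := l3_nat (Ω := Ω) (n := 2) (by norm_num) j
    exact_mod_cast this
  have hXs : s (2 * yc T / (ak Ω w - ak Ω w ^ 2)) = ak Ω η * (2 * yc T / (ak Ω w - ak Ω w ^ 2)) := by
    have e1 : s (ak Ω w) = ak Ω w := s.commutes _
    rw [map_div₀, map_mul, map_sub, map_pow, e1, hsy, map_ofNat]
    ring
  refine ⟨γ, η, w ^ i, hγ, hγK, hγu, hη, ⟨i, rfl⟩, ?_, ?_, ?_⟩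
  · refine frob_root hL (m := 3) (by norm_num) hd3 hb (X := -xc T) ?_ ?_
    · rw [hakb]
      linear_combination (-1 : Ω) * hx3
    · rw [map_neg, hsx]
      ring
  · intro h2
    refine frob_root hL (m := 2) (by norm_num) (ps_dvd (l3d_pp2 h2)).1 hb
      (X := 2 * yc T / (ak Ω w - ak Ω w ^ 2)) ?_ hXs
    rw [hakb]
    exact l3d_sqrt hw j hy2
  · intro h2 hb4
    rcases hη with h5 | h5
    · exact h5
    · exfalso
      refine l3d_two hL h2 h20 hd3 hb hb4 (l3d_sqrt hw j hy2) ?_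
      rw [hXs, h5]
      unfold ak
      simp

end H55W
end

-- from Lib.H55W.B3
section

/-! # H55W, part Z: Deuring's theorem, discriminant -3 -/

open NumberField IsDedekindDomain WeierstrassCurve

namespace H55W

open H55P (IQ embF eF LF Per IsHecke Pt ac Inert Dec Nm)
open H35P (WAB Ker tt GoodW IntW)
open H55K H55K.TQ
open H55K.TQ (BaseH)

theorem base_3 {F : Type} [Field F] [NumberField F] [IQ F] {w : 𝓞 F} (hw : EI w)
    (hcub : ∀ n : ℤ, n ≠ 0 → ∃ κ : 𝓞 F → 𝓞 F, PRC (𝓞 F) 3 n (3 * n) (27 * n) κ) (W : WeierstrassCurve ℤ) (Om : ℂ)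
    (hΔ : W.Δ ≠ 0) (hper : Per F (-(eF F (W⁄(𝓞 F)).c₄) / 48) (-(eF F (W⁄(𝓞 F)).c₆) / 864) Om)
    (hbad : ∀ v : HeightOneSpectrum (𝓞 F), (W⁄(𝓞 F)).Δ ∈ v.asIdeal → ¬ GoodAt ((W⁄(𝓞 F))⁄F) v) :
    ∃ ψ : Ideal (𝓞 F) →*₀ 𝓞 F, BaseH F (W⁄(𝓞 F)) Om (Ideal.span {((W.Δ.natAbs : ℕ) : 𝓞 F) ^ 3}) ψ := by
  classical
  have hc4 : W.c₄ = 0 := by
    obtain ⟨j, act, h⟩ := z1_cma W Om hΔ hper rfl rfl
    have h1 := a_zero hw h
    rw [z1_c4, div_eq_zero_iff, neg_eq_zero] at h1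
    rcases h1 with h1 | h1
    · exact_mod_cast h1
    · norm_num at h1
  obtain ⟨b', h6, hD, h4⟩ := arith_three W hc4
  have hb : b' ≠ 0 := by
    rintro rfl
    exact hΔ (by rw [hD]; ring)
  obtain ⟨κ₃, hκ⟩ := hcub b' hb
  obtain ⟨f, hf, hlast⟩ := exists_f3 hw hb h4 hκ hD
  have hΔF := z0_disc (F := F) W
  have hd3 : (3 : 𝓞 F) ∣ ((W.Δ : ℤ) : 𝓞 F) := ⟨((-9 * b' ^ 2 : ℤ) : 𝓞 F), by rw [hD]; push_cast; ring⟩
  have hdb : (b' : 𝓞 F) ∣ ((W.Δ : ℤ) : 𝓞 F) := ⟨((-27 * b' : ℤ) : 𝓞 F), by rw [hD]; push_cast; ring⟩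
  refine base_gen W Om hΔ hper hbad hf ?_ ?_
  · intro hu
    have h3 : IsUnit (3 : 𝓞 F) := isUnit_of_dvd_unit hd3 hu
    have h9 : Nm (3 : 𝓞 F) = 1 := nm_unit h3
    have h9' : Nm (3 : 𝓞 F) = 3 ^ 2 := by
      have := Nm_nat (F := F) 3
      exact_mod_cast this
    rw [h9'] at h9
    norm_num at h9
  · intro Ω _ _ _ _ A B j act hA hB h v V s Kg r hv hL
    have hB' : 4 * B = (b' : F) := by
      rw [hB, z1_c6, h6]
      push_cast
      ring
    rw [hΔF] at hv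
    have h3 : (3 : 𝓞 F) ∉ v.asIdeal := fun hh => hv (v.asIdeal.mem_of_dvd hd3 hh)
    have hbv : (b' : 𝓞 F) ∉ v.asIdeal := fun hh => hv (v.asIdeal.mem_of_dvd hdb hh)
    obtain ⟨γ, η, ζ, hγ, hX, g1, g2, g3, g4, g5, g6⟩ := loc_three hw h hB' hL h3 hbv
    obtain ⟨p1, p2, p3⟩ := z1_prime hγ
    refine ⟨γ, hγ, hlast γ η ζ p1 (by rw [p2]; exact hv) g1 g2 g3 ?_ ?_ ?_, hX⟩
    · rw [p2, p3]; exact g4
    · intro hh
      rw [p2] at hh ⊢
      rw [p3]
      exact g5 hh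
    · intro hh
      rw [p2] at hh
      exact g6 hh

end H55W
end

-- from Lib.H55W.Main
section

/-! # H55W: Deuring's theorem for the elliptic curves over the rational numbers with complex multiplication by the ring of
integers of F, all fields F -/

open NumberField IsDedekindDomain WeierstrassCurve

namespace H55W

open H55P (IQ embF eF LF Per IsHecke Pt ac Inert Dec Nm)
open H55K
open H55K.TQ (BaseH)

theorem base_all0 {F : Type} [Field F] [NumberField F] [IQ F]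
    (hcub : ∀ w : 𝓞 F, w ^ 2 + w + 1 = 0 → ∀ n : ℤ, n ≠ 0 → ∃ κ : 𝓞 F → 𝓞 F, PRC (𝓞 F) 3 n (3 * n) (27 * n) κ)
    (W : WeierstrassCurve ℤ) (Om : ℂ)
    (hΔ : W.Δ ≠ 0) (hper : Per F (-(eF F (W⁄(𝓞 F)).c₄) / 48) (-(eF F (W⁄(𝓞 F)).c₆) / 864) Om) (hmin : H13D.MinZ W) :
    ∃ ψ : Ideal (𝓞 F) →*₀ 𝓞 F, BaseH F (W⁄(𝓞 F)) Om (Ideal.span {((W.Δ.natAbs : ℕ) : 𝓞 F) ^ 3}) ψ := by
  have hbad := H13D.bad_F hΔ hper hmin
  obtain ⟨θ, d, h⟩ := exists_TH F
  rcases class_one h with h1 | h1 | h1 | ⟨hp, h4, h3⟩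
  · subst h1
    exact base_4 (gi_of h) W Om hΔ hper hbad
  · subst h1
    exact base_8 (ti_of h) W Om hΔ hper hbad
  · subst h1
    obtain ⟨w, hw⟩ := ei_of h
    exact base_3 hw (hcub w hw.sq) W Om hΔ hper hbad
  · exact H13D.base_exists ⟨hp, h4, h3, h.sq⟩ W Om hΔ hper hmin

end H55W
end

-- from Lib.H13R.J3
section

/-! # H13R: Selmer groups over K and over the field generated by F over K -/

open NumberField IsDedekindDomain WeierstrassCurve

namespace H13R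

open H55P (IQ embF eF LF Per IsHecke Pt ac Inert Dec Nm UnitP UnrP)
open H35P (WAB Ker tt GoodW IntW)
open H55K.MG (VC Crd)
open H55K H55K.TQ

variable {F : Type} [Field F] [NumberField F] [IQ F] {W : WeierstrassCurve ℤ} {Om : ℂ}
    {m : Ideal (𝓞 F)} {ψ : Ideal (𝓞 F) →*₀ 𝓞 F} {p : ℕ}

open Classical in
/-- Descent from KG to K. -/
theorem sel_absR (hH : BaseH F (W⁄(𝓞 F)) Om m ψ) (hp : PrimeH F (W⁄(𝓞 F)) p)
    (K : Type) [Field K] [NumberField K] (ι : K →ₐ[ℚ] AlgebraicClosure F) [FiniteDimensional F (KG F K ι)]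
    (hT : ∀ T : Pt ((W⁄(𝓞 F))⁄F) (AlgebraicClosure F), p • T = 0 →
      (∀ s ∈ (KG F K ι).fixingSubgroup, ac ((W⁄(𝓞 F))⁄F) s T = T) → T = 0)
    (hS : H55P.SelG p (W⁄(𝓞 F)) (KG F K ι)) :
    H55P.SelTriv (W⁄K) p ∧ H55P.ShaTriv (W⁄K) p ∧
      Finite (W⁄K).toAffine.Point ∧ ¬ p ∣ Nat.card (W⁄K).toAffine.Point := by
  classical
  have hQF := tower_QFF F
  have hQA := alg_QFF F
  have hd : W.Δ ≠ 0 := by
    intro h
    apply hH.data.ell
    have e := WeierstrassCurve.map_Δ W (algebraMap ℤ (𝓞 F))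
    rw [h, map_zero] at e
    exact e
  have hell : (W⁄ℚ).IsElliptic := by
    rw [WeierstrassCurve.isElliptic_iff]
    have e := WeierstrassCurve.map_Δ W (algebraMap ℤ ℚ)
    refine IsUnit.mk0 _ ?_
    intro h
    apply hd
    have h1 : (algebraMap ℤ ℚ) W.Δ = 0 := e.symm.trans h
    rw [eq_intCast] at h1
    exact_mod_cast h1
  have e1 : ((W⁄ℚ)⁄F) = ((W⁄(𝓞 F))⁄F) := by
    rw [fb9b_map, fb9b_map]
  have hS0 : H55P.SelZero ((W⁄ℚ)⁄F) p (KG F K ι) := by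
    rw [e1]
    exact hS
  have hS1 : H55P.SelZero (W⁄ℚ) p ((KG F K ι).restrictScalars ℚ) :=
    H55P.sel_base (F := F) (W⁄ℚ) p (KG F K ι) hS0
  have hT0 : ∀ T : Pt ((W⁄ℚ)⁄F) (AlgebraicClosure F), p • T = 0 →
      (∀ s ∈ (KG F K ι).fixingSubgroup, ac ((W⁄ℚ)⁄F) s T = T) → T = 0 := by
    rw [e1]
    exact hT
  have hT1 : ∀ T : Pt (W⁄ℚ) (AlgebraicClosure F), p • T = 0 →
      (∀ s ∈ ((KG F K ι).restrictScalars ℚ).fixingSubgroup, ac (W⁄ℚ) s T = T) → T = 0 :=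
    H55P.tors_base (F := F) (W⁄ℚ) p (KG F K ι) hT0
  have hKQ : FiniteDimensional ℚ ((KG F K ι).restrictScalars ℚ) := by
    have : FiniteDimensional ℚ (KG F K ι) := Module.Finite.trans F (KG F K ι)
    exact this
  have hS2 : H55P.SelZero (W⁄ℚ) p ι.fieldRange :=
    H55P.sel_down (W⁄ℚ) p ι.fieldRange ((KG F K ι).restrictScalars ℚ) (kg_le F K ι) (kg_norm F K ι) hT1 hS1
  have hfr : FiniteDimensional ℚ ι.fieldRange :=
    Module.Finite.equiv (AlgEquiv.ofInjectiveField ι).toLinearEquiv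
  have hpt := fb9b_pts (W⁄ℚ) K ι p (H55P.pts_fin (W⁄ℚ) p hp.prime ι.fieldRange hS2)
  have hsel := H55P.sel_transport (W⁄ℚ) p K ι hS2
  have hsha := H55P.sha_transport (W⁄ℚ) p K ι (H55P.sha_zero (W⁄ℚ) p hp.prime _ hS2)
  have e2 : ((W⁄ℚ)⁄K) = (W⁄K) := fb9b_map W
  change Finite ((W⁄ℚ)⁄K).toAffine.Point ∧ ¬ p ∣ Nat.card ((W⁄ℚ)⁄K).toAffine.Point at hpt
  rw [e2] at hpt hsel hsha
  exact ⟨hsel, hsha, hpt.1, hpt.2⟩

open Classical in
/-- Ascent from K to KG. -/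
theorem selG_of_triv (hH : BaseH F (W⁄(𝓞 F)) Om m ψ) {p : ℕ} (hp : p.Prime) (hp2 : p ≠ 2) (hU : UnrP p F)
    (K : Type) [Field K] [NumberField K] (ι : K →ₐ[ℚ] AlgebraicClosure F) [NumberField (KG F K ι)]
    (h : H55P.SelTriv (W⁄K) p) : H55P.SelG p (W⁄(𝓞 F)) (KG F K ι) := by
  set Ω := AlgebraicClosure F with hΩ
  have hcl : IsAlgClosure ℚ Ω := ⟨inferInstance, Algebra.IsAlgebraic.trans ℚ F Ω⟩
  have hal : Algebra.IsAlgebraic ℚ Ω := IsAlgClosure.isAlgebraic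
  have hfd : FiniteDimensional F (KG F K ι) := FiniteDimensional.right ℚ F (KG F K ι)
  have hfq : FiniteDimensional ℚ ((KG F K ι).restrictScalars ℚ) := by
    have : FiniteDimensional ℚ (KG F K ι) := inferInstance
    exact this
  have hWF : (W⁄ℚ)⁄F = (W⁄(𝓞 F))⁄F := by
    ext <;> simp [WeierstrassCurve.map, WeierstrassCurve.baseChange]
  have hWK : (W⁄ℚ)⁄K = W⁄K := by
    ext <;> simp [WeierstrassCurve.map, WeierstrassCurve.baseChange]
  obtain ⟨δ, hδ, hNδ⟩ := nk2_delta hp hp2 hU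
  obtain ⟨S, hS, hS1, hS2⟩ := exists_sd hH δ hδ
  have hδ0 : δ ≠ 0 := by
    rintro rfl
    apply hNδ
    have e : Nm (0 : 𝓞 F) = 0 := H55P.Nm_eq_zero.2 rfl
    rw [e]
    exact dvd_zero p
  have hak : ak Ω δ ≠ 0 := by
    intro h0
    apply hδ0
    have e1 : algebraMap F Ω (δ : F) = algebraMap F Ω 0 := by rw [map_zero]; exact h0
    have e2 := (algebraMap F Ω).injective e1
    exact_mod_cast e2
  have hneg : ak Ω (cj δ) = -ak Ω δ := by
    rw [hδ]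
    show algebraMap F Ω (algebraMap (𝓞 F) F (-δ)) = _
    rw [map_neg, map_neg]
  have hne : -ak Ω δ ≠ ak Ω δ := by
    intro h0
    have h2 : (2 : Ω) * ak Ω δ = 0 := by linear_combination -h0
    rcases mul_eq_zero.1 h2 with h3 | h3
    · exact two_ne_zero h3
    · exact hak h3
  have hd1 : ∀ s : Ω ≃ₐ[ℚ] Ω, s (ak Ω δ) = ak Ω δ → ∀ x : F, s (algebraMap F Ω x) = algebraMap F Ω x := by
    intro s hs
    rcases nk2_dich (F := F) s with h2 | h2
    · exact h2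
    · exfalso
      rw [h2, hneg] at hs
      exact hne hs
  have hd2 : ∀ s : Ω ≃ₐ[ℚ] Ω, s (ak Ω δ) ≠ ak Ω δ → ∀ a : 𝓞 F, s (ak Ω a) = ak Ω (cj a) := by
    intro s hs
    rcases nk2_dich (F := F) s with h2 | h2
    · exact absurd (h2 _) hs
    · exact h2
  have hfixK : ∀ s : Ω ≃ₐ[ℚ] Ω, s ∈ ι.fieldRange.fixingSubgroup → ∀ x : K, s (ι x) = ι x := fun s hs x =>
    (IntermediateField.mem_fixingSubgroup_iff _ s).1 hs (ι x) ⟨x, rfl⟩
  have h' : H55P.SelTriv ((W⁄ℚ)⁄K) p := by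
    rw [hWK]
    exact h
  have hz : H55P.SelZero (W⁄ℚ) p ι.fieldRange := zero_transport (W⁄ℚ) p K ι h'
  have hz1 : H55P.SelZero (W⁄ℚ) p ((KG F K ι).restrictScalars ℚ) := by
    refine nk_descI (W⁄ℚ) hp hp2 (kg_le F K ι) ?_ S (Nm δ) hNδ hS (ak Ω δ) (-ak Ω δ) ?_ ?_ ?_
      (fun s hs => hS1 s (hd1 s hs)) (fun s hs => hS2 s (hd2 s hs)) hz
    · intro s hs x hx
      exact kg_stable F K ι s (hfixK s hs) x hx
    · intro s hs
      constructor
      · intro hs'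
        exact (IntermediateField.mem_fixingSubgroup_iff _ s).1 hs' _ ((KG F K ι).algebraMap_mem (δ : F))
      · intro hs'
        rw [IntermediateField.mem_fixingSubgroup_iff]
        intro y hy
        have hF := hd1 s hs'
        refine IntermediateField.adjoin_induction F (p := fun x _ => s x = x) ?_ ?_ ?_ ?_ ?_ hy
        · rintro _ ⟨x, rfl⟩
          exact hfixK s hs x
        · exact hF
        · intro x y _ _ h1 h2
          rw [map_add, h1, h2]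
        · intro x _ h1
          rw [map_inv₀, h1]
        · intro x y _ _ h1 h2
          rw [map_mul, h1, h2]
    · intro s
      by_cases hs : s (ak Ω δ) = ak Ω δ
      · exact Or.inl hs
      · right
        rw [hd2 s hs, hneg]
    · intro s hs
      rw [map_neg, hs, neg_neg]
  have hz2 : H55P.SelZero ((W⁄ℚ)⁄F) p (KG F K ι) := zero_base (F := F) (W⁄ℚ) p (KG F K ι) hz1
  rw [hWF] at hz2
  exact hz2

end H13R
end

-- from Lib.H28T.CB3
section

open NumberField IsDedekindDomain WeierstrassCurve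

namespace H28T

open H55P H55R
open H35P (WAB Ker tt)
open H55K H55K.TQ


variable {F : Type} [Field F] [NumberField F] [IQ F] {W₀ : WeierstrassCurve (𝓞 F)} {Om : ℂ}
    {m : Ideal (𝓞 F)} {ψ : Ideal (𝓞 F) →*₀ 𝓞 F} {p : ℕ}

/-- Chunk CB3 (M), the port of H28R.exists_nice (H28R/W5.lean). Given K, C, ζ, hK : ExtG (Gd W₀ p) p K, hC : Cyc F p K C ζ, B, S. Ω = AlgebraicClosure F; C is algebraic over F: IsAlgClosed.lift : C →ₐ[F] Ω makes Ω a C-algebra and a K-algebra (composition with K → C; the towers by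
IsScalarTower.of_algebraMap_eq). π from cb1_pi. The data A, B, j, act, hD : Dta A B Om j act m ψ p from exists_dta hH hp (DT.lean). D from exists_TFld C (K1A.lean). finrank C D ≠ 1: otherwise algebraMap C D is surjective (end of H28R/W3.lean, rank_ne), every s with Fxd C s satisfies Fxd D s,
so it fixes Tor act π (hD'.crd, H55K.ac_fix): contradiction to cb2_not (cb0_unr: UnrP p K). S' from cb3a_split. Apply H28R.exists_nonsplit C D to the union of S, S', the primes containing p and those containing the image of W₀.Δ (not zero: hH.data.ell) (H28R.W5_fin_mem), the primes with es F C (w.under) ≠ 1 (H55R.ram_fin F C and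
H55R.above_finite, as H28R.W5_fin_ram), the primes of norm ≤ B (H28R.W5_fin_norm). w has prime norm q and does not split. Nice: as in H28R.exists_nice: fs F C v = 1, absNorm v = absNorm w, inertia degree and ramification index 1. Good: if ¬ Gd W₀ p v, then p ∣ absNorm v - 1 (H28R.W5_dvd with hC.prim),
π ∣ ψ v - 1 (cb1_dvd), so w splits in D (cb3a_split): contradiction (Spl C D w is es = 1 and fs = 1). -/
theorem cb3_niceG (hH : BaseH F W₀ Om m ψ) (hp : PrimeH F W₀ p) {G : HeightOneSpectrum (𝓞 F) → Prop}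
    (hG : ∀ v, Gd W₀ p v → G v) (hG' : ∀ v, G v → (p : 𝓞 F) ∉ v.asIdeal) : NiceH G p := by
  classical
  intro K C _ _ _ _ _ _ _ _ ζ hK hC B₀ S hS
  have hgal : IsGalois F C := hC.gal
  have hF : IsScalarTower ℚ F C := IsScalarTower.of_algebraMap_eq' (Subsingleton.elim _ _)
  have hfin : FiniteDimensional F C := Module.Finite.of_restrictScalars_finite ℚ F C
  have halg : Algebra.IsAlgebraic F C := Algebra.IsAlgebraic.of_finite F C
  let iC : C →ₐ[F] AlgebraicClosure F := IsAlgClosed.lift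
  let algC : Algebra C (AlgebraicClosure F) := iC.toRingHom.toAlgebra
  let algK : Algebra K (AlgebraicClosure F) := (iC.toRingHom.comp (algebraMap K C)).toAlgebra
  have t1 : IsScalarTower K C (AlgebraicClosure F) := IsScalarTower.of_algebraMap_eq fun _ => rfl
  have t2 : IsScalarTower F C (AlgebraicClosure F) :=
    IsScalarTower.of_algebraMap_eq fun x => (iC.commutes x).symm
  have t3 : IsScalarTower F K (AlgebraicClosure F) := by
    refine IsScalarTower.of_algebraMap_eq fun x => ?_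
    show algebraMap F (AlgebraicClosure F) x = iC (algebraMap K C (algebraMap F K x))
    rw [← IsScalarTower.algebraMap_apply F K C, iC.commutes]
  obtain ⟨A, B, j, act, hDt⟩ := exists_dta hH hp
  obtain ⟨π, hπ, hπd⟩ := cb1_pi (F := F) hp.prime
  obtain ⟨D, _, _, _, _, _, t4, t5, t6, hD⟩ := exists_TFld hDt.cma C hπ.ne_zero
  have hgalD : IsGalois C D := hD.gal
  have hrk : Module.finrank C D ≠ 1 := by
    intro h1
    apply cb2_not (K := K) (C := C) hDt (ce_unr hp.prime hp.unr hG' hK) hC hπ hπd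
    intro s hs T hT
    have hsurj : Function.Surjective (algebraMap C D) := by
      intro y
      obtain ⟨v, hv⟩ := finrank_eq_one_iff'.1 h1
      obtain ⟨hv0, hv1⟩ := hv
      obtain ⟨c, hc⟩ := hv1 y
      obtain ⟨c1, hc1⟩ := hv1 1
      have hc10 : c1 ≠ 0 := by
        rintro rfl
        rw [zero_smul] at hc1
        exact zero_ne_one hc1
      refine ⟨c / c1, ?_⟩
      have e : v = c1⁻¹ • (1 : D) := by
        rw [← hc1, smul_smul, inv_mul_cancel₀ hc10, one_smul]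
      rw [← hc, e, smul_smul, Algebra.smul_def, mul_one, div_eq_mul_inv]
    have hfx : ∀ y : D, s (algebraMap D (AlgebraicClosure F) y) = algebraMap D (AlgebraicClosure F) y := by
      intro y
      obtain ⟨c, rfl⟩ := hsurj y
      rw [← IsScalarTower.algebraMap_apply C D (AlgebraicClosure F)]
      exact hs c
    obtain ⟨x, y, hx, hy⟩ := hD.crd T hT
    exact ac_fix s (by rw [← hx, hfx x]) (by rw [← hy, hfx y])
  obtain ⟨S', hS', hspl⟩ := cb3a_split (C := C) (D := D) hDt hπ hπd hD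
  have hΔC : algebraMap (𝓞 F) (𝓞 C) W₀.Δ ≠ 0 := by
    intro h0
    apply hH.data.ell
    apply RingOfIntegers.ext
    have h1 : algebraMap F C ((W₀.Δ : 𝓞 F) : F) = 0 := congrArg (fun x : 𝓞 C => (x : C)) h0
    rw [map_eq_zero] at h1
    exact h1
  have hpC : ((p : ℕ) : 𝓞 C) ≠ 0 := Nat.cast_ne_zero.2 hp.prime.ne_zero
  have hram : {w : Pl C | es F C (w.under (𝓞 F)) ≠ 1}.Finite :=
    (ram_fin F C).preimage' (f := fun w : Pl C => w.under (𝓞 F)) fun b _ => above_finite b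
  obtain ⟨w, hwS, hwN, hwns⟩ := H28R.exists_nonsplit C D hrk
    (S ∪ (S' ∪ ({w : Pl C | algebraMap (𝓞 F) (𝓞 C) W₀.Δ ∈ w.asIdeal} ∪
      ({w : Pl C | (p : 𝓞 C) ∈ w.asIdeal} ∪
        ({w : Pl C | es F C (w.under (𝓞 F)) ≠ 1} ∪ {w : Pl C | Ideal.absNorm w.asIdeal ≤ B₀})))))
    (hS.union (hS'.union ((H28R.W5_fin_mem _ hΔC).union ((H28R.W5_fin_mem _ hpC).union
      (hram.union (H28R.W5_fin_norm B₀))))))
  simp only [Set.mem_union, not_or] at hwS
  obtain ⟨hw1, hwS', hwd, hwp, hwe, hwB⟩ := hwS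
  have hwd' : algebraMap (𝓞 F) (𝓞 C) W₀.Δ ∉ w.asIdeal := hwd
  have hwp' : (p : 𝓞 C) ∉ w.asIdeal := hwp
  have hwe' : es F C (w.under (𝓞 F)) = 1 := not_not.1 hwe
  have hwB' : B₀ < Ideal.absNorm w.asIdeal := not_le.1 hwB
  refine ⟨w, hw1, ?_⟩
  have hwpr := w.isPrime
  let v : Pl F := w.under (𝓞 F)
  have hvpr := v.isPrime
  have hlies : w.asIdeal.LiesOver v.asIdeal := ⟨rfl⟩
  have hnorm := D5_norm v w rfl
  have hfs : fs F C v = 1 := by
    have hpos := fs_pos (L := C) v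
    by_contra hne
    have h2 : 2 ≤ fs F C v := by omega
    rw [hnorm] at hwN
    exact Nat.Prime.not_prime_pow h2 hwN
  rw [hfs, pow_one] at hnorm
  have hgood : Gd W₀ p v := by
    by_contra hng
    have hvd : W₀.Δ ∉ v.asIdeal := fun hm => hwd' hm
    have hvp : (p : 𝓞 F) ∉ v.asIdeal := by
      intro hm
      apply hwp'
      have h1 : algebraMap (𝓞 F) (𝓞 C) (p : 𝓞 F) ∈ w.asIdeal := hm
      rwa [map_natCast] at h1
    have hdv : p ∣ Ideal.absNorm v.asIdeal - 1 := by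
      rw [← hnorm]
      exact H28R.W5_dvd hp.prime hC.prim w hwp'
    have hbd := cb1_dvd hH hvd hvp hdv hng hπ hπd
    exact hwns (hspl w hwS' hwN hbd)
  refine ⟨?_, ?_, ?_, hwB'⟩
  · rw [← Ideal.inertiaDegIn_eq_inertiaDeg v.asIdeal w.asIdeal Gal(C/F)]
    exact hfs
  · rw [← Ideal.ramificationIdxIn_eq_ramificationIdx v.asIdeal w.asIdeal Gal(C/F)]
    exact hwe'
  · intro v' hv'
    have e : v' = v := HeightOneSpectrum.ext hv'
    rw [e]
    exact hG v hgood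

theorem cb3_nice (hH : BaseH F W₀ Om m ψ) (hp : PrimeH F W₀ p) : NiceH (Gd W₀ p) p :=
  cb3_niceG hH hp (fun _ h => h) fun _ h => h.2.1

end H28T
end

-- from Lib.H55W.PR
section

/-! # H55W: the prime numbers of good reduction are unramified in F -/

open NumberField IsDedekindDomain WeierstrassCurve

namespace H55W

open H55P (IQ embF eF LF Per IsHecke Pt ac Inert Dec Nm)
open H55K
open H55K.TQ (BaseH PrimeH)

/-- A prime element π with Nm π = p whose square divides p: every a - cj a is divisible by π. -/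
theorem pr_ram {F : Type} [Field F] [NumberField F] [IQ F] {p : ℕ} (hp : p.Prime) {π : 𝓞 F} (hπ : Prime π) (hN : Nm π = p)
    (hd : π ^ 2 ∣ (p : 𝓞 F)) (a : 𝓞 F) : π ∣ a - cj a := by
  have hpp : π * cj π = (p : 𝓞 F) := by rw [mul_cj, hN]
  have hc : π ∣ cj π := by
    rw [← hpp, pow_two] at hd
    exact (mul_dvd_mul_iff_left hπ.ne_zero).1 hd
  -- the residue field has p elements
  have hcard : Nat.card (𝓞 F ⧸ Ideal.span {π}) = p := by rw [nm_card, hN]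
  have hn : ∃ n : ℤ, π ∣ a - (n : 𝓞 F) := by
    have hpos : 0 < p := hp.pos
    have hf : Finite (𝓞 F ⧸ Ideal.span {π}) := Nat.finite_of_card_ne_zero (by rw [hcard]; exact hp.ne_zero)
    have hft : Fintype (𝓞 F ⧸ Ideal.span {π}) := Fintype.ofFinite _
    have hinj : Function.Injective (fun i : Fin p => (Ideal.Quotient.mk (Ideal.span {π}) ((i : ℕ) : 𝓞 F))) := by
      intro i k hik
      have h1 : ((i : ℕ) : 𝓞 F) - ((k : ℕ) : 𝓞 F) ∈ Ideal.span {π} := by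
        rw [← Ideal.Quotient.eq]
        exact hik
      rw [Ideal.mem_span_singleton] at h1
      have h2 : ((p : ℕ) : ℤ) ∣ ((i : ℕ) : ℤ) - ((k : ℕ) : ℤ) := by
        have h3 : cj π ∣ ((i : ℕ) : 𝓞 F) - ((k : ℕ) : 𝓞 F) := by
          obtain ⟨c, hc'⟩ := h1
          refine ⟨cj c, ?_⟩
          have := congrArg cj hc'
          rw [map_sub, cj_nat, cj_nat, map_mul] at this
          exact this
        have h4 : Nm π ∣ Nm ((((i : ℕ) : ℤ) - ((k : ℕ) : ℤ) : ℤ) : 𝓞 F) := by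
          have e : ((((i : ℕ) : ℤ) - ((k : ℕ) : ℤ) : ℤ) : 𝓞 F) = ((i : ℕ) : 𝓞 F) - ((k : ℕ) : 𝓞 F) := by push_cast; ring
          rw [e]
          obtain ⟨c, hc'⟩ := h1
          rw [hc', Nm_mul]
          exact dvd_mul_right _ _
        have h5 : Nm ((((i : ℕ) : ℤ) - ((k : ℕ) : ℤ) : ℤ) : 𝓞 F) = (((i : ℕ) : ℤ) - ((k : ℕ) : ℤ)).natAbs ^ 2 := by
          set m : ℤ := ((i : ℕ) : ℤ) - ((k : ℕ) : ℤ)
          rcases Int.natAbs_eq m with h | h
          · conv_lhs => rw [h, Int.cast_natCast, Nm_nat]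
          · conv_lhs => rw [h, Int.cast_neg, Int.cast_natCast]
            unfold Nm
            rw [Ideal.span_singleton_neg]
            exact Nm_nat _
        rw [hN, h5] at h4
        exact Int.natCast_dvd.2 (hp.dvd_of_dvd_pow h4)
      have h6 : |((i : ℕ) : ℤ) - ((k : ℕ) : ℤ)| < p := by
        have := i.2
        have := k.2
        rw [abs_lt]
        omega
      have h7 := Int.eq_zero_of_abs_lt_dvd h2 h6
      exact Fin.ext (by omega)
    have hbij := (Fintype.bijective_iff_injective_and_card (fun i : Fin p => (Ideal.Quotient.mk (Ideal.span {π}) ((i : ℕ) : 𝓞 F)))).2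
      ⟨hinj, by rw [Fintype.card_fin, ← Nat.card_eq_fintype_card, hcard]⟩
    obtain ⟨i, hi⟩ := hbij.2 (Ideal.Quotient.mk (Ideal.span {π}) a)
    refine ⟨((i : ℕ) : ℤ), ?_⟩
    rw [← Ideal.mem_span_singleton, ← Ideal.Quotient.eq]
    rw [← hi]
    simp
  obtain ⟨n, c, hc'⟩ := hn
  have h1 : cj a - (n : 𝓞 F) = cj π * cj c := by
    have := congrArg cj hc'
    rw [map_sub, cj_int, map_mul] at this
    exact this
  have h2 : π ∣ cj a - (n : 𝓞 F) := by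
    rw [h1]
    exact hc.mul_right _
  have h3 : a - cj a = (a - (n : 𝓞 F)) - (cj a - (n : 𝓞 F)) := by ring
  rw [h3]
  exact dvd_sub ⟨c, hc'⟩ h2

theorem prime_simple {F : Type} [Field F] [NumberField F] [IQ F] {W : WeierstrassCurve ℤ} {Om : ℂ} (hΔ : W.Δ ≠ 0)
    (hper : Per F (-(eF F (W⁄(𝓞 F)).c₄) / 48) (-(eF F (W⁄(𝓞 F)).c₆) / 864) Om) {p : ℕ} (hp : p.Prime) (h5 : 5 ≤ p)
    (hd : ¬ (p : ℤ) ∣ W.Δ) : PrimeH F (W⁄(𝓞 F)) p := by
  have hΔF : (W⁄(𝓞 F)).Δ = ((W.Δ : ℤ) : 𝓞 F) := by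
    have := W.map_Δ (algebraMap ℤ (𝓞 F))
    exact this.trans (by simp)
  have hcop : IsCoprime W.Δ (p : ℤ) :=
    ((Nat.prime_iff_prime_int.1 hp).coprime_iff_not_dvd.2 hd).symm
  have hcop' : IsCoprime ((W.Δ : ℤ) : 𝓞 F) ((p : ℕ) : 𝓞 F) := by
    have := hcop.map (Int.castRingHom (𝓞 F))
    simpa using this
  refine ⟨hp, h5, ?_, ?_⟩
  · -- unramified
    have hp0 : ((p : ℕ) : 𝓞 F) ≠ 0 := by exact_mod_cast hp.ne_zero
    show Squarefree (Ideal.span {((p : ℕ) : 𝓞 F)})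
    intro J hJ
    by_contra hJu
    have hJ0 : J ≠ ⊥ := by
      rintro rfl
      have h1 := Ideal.dvd_iff_le.1 hJ
      rw [Ideal.bot_mul, le_bot_iff, Ideal.span_singleton_eq_bot] at h1
      exact hp0 h1
    set x := Submodule.IsPrincipal.generator J with hx
    have hxJ : Ideal.span {x} = J := Ideal.span_singleton_generator J
    have hx0 : x ≠ 0 := by
      intro h0
      rw [h0] at hxJ
      exact hJ0 (by rw [← hxJ]; exact Ideal.span_singleton_eq_bot.2 rfl)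
    have hxu : ¬ IsUnit x := by
      intro hu
      apply hJu
      rw [← hxJ, Ideal.span_singleton_eq_top.2 hu, ← Ideal.one_eq_top]
      exact isUnit_one
    obtain ⟨π, hπi, hπx⟩ := WfDvdMonoid.exists_irreducible_factor hxu hx0
    have hπ : Prime π := hπi.prime
    have hdp : π ^ 2 ∣ ((p : ℕ) : 𝓞 F) := by
      have h1 : x * x ∣ ((p : ℕ) : 𝓞 F) := by
        rw [← hxJ, Ideal.span_singleton_mul_span_singleton, Ideal.dvd_iff_le, Ideal.span_singleton_le_iff_mem,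
          Ideal.mem_span_singleton] at hJ
        exact hJ
      rw [pow_two]
      exact (mul_dvd_mul hπx hπx).trans h1
    have hN1 : Nm π ≠ 1 := fun h => hπ.not_unit (q1_unit h)
    have hNN : Nm π = p := by
      obtain ⟨c, hc⟩ := hdp
      have h1 : p ^ 2 = (Nm π) ^ 2 * Nm c := by
        rw [← Nm_nat (F := F) p, hc, Nm_mul, pow_two, Nm_mul]
        ring
      have h2 : Nm π ^ 2 ∣ p ^ 2 := ⟨Nm c, h1⟩
      have h3 : Nm π ∣ p := (Nat.pow_dvd_pow_iff two_ne_zero).1 h2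
      exact ((Nat.dvd_prime hp).1 h3).resolve_left hN1
    obtain ⟨v, hv⟩ : ∃ v : HeightOneSpectrum (𝓞 F), v.asIdeal = Ideal.span {π} :=
      ⟨⟨Ideal.span {π}, (Ideal.span_singleton_prime hπ.ne_zero).2 hπ, by
        rw [Ne, Ideal.span_singleton_eq_bot]
        exact hπ.ne_zero⟩, rfl⟩
    have h1 : (W⁄(𝓞 F)).Δ ∈ v.asIdeal := by
      refine H13D.disc_ram hΔ hper v (fun a => ?_)
      rw [hv, Ideal.mem_span_singleton]
      exact pr_ram hp hπ hNN hdp a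
    rw [hΔF, hv, Ideal.mem_span_singleton] at h1
    have h2 : π ∣ ((p : ℕ) : 𝓞 F) := (dvd_pow_self π two_ne_zero).trans hdp
    obtain ⟨a, b, hab⟩ := hcop'
    apply hπ.not_unit
    rw [isUnit_iff_dvd_one, ← hab]
    exact dvd_add (h1.mul_left _) (h2.mul_left _)
  · rw [hΔF, Ideal.isCoprime_span_singleton_iff]
    exact hcop'

end H55W
end

-- from Lib.H28T.CC1
section

open NumberField IsDedekindDomain WeierstrassCurve

namespace H28T

open H55P H55R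
open H55K H55K.TQ

variable {F : Type} [Field F] [NumberField F] [IQ F]

/-- Chunk CC1 (S/M). δ from nk2_delta (NK2.lean), D = Nm δ, p ∤ D, D ≠ 0. Q = 4 D N is prime to p^n (p is odd): Nat.chineseRemainder gives a with a ≡ -1 modulo Q (that is Q - 1), a ≡ 1 modulo p^n; a is prime to Q p^n; Dirichlet: Nat.forall_exists_prime_gt_and_modEq (see H28R/A4.lean). cc1a_sq, cc1b_inert. -/
theorem cc1_dir {p : ℕ} (hp : p.Prime) (hp2 : p ≠ 2) (hU : UnrP p F) {N : ℕ} (hN : ¬ p ∣ N) (n B : ℕ) :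
    ∃ l : ℕ, l.Prime ∧ B < l ∧ p ^ n ∣ l - 1 ∧ N ∣ l + 1 ∧ Prime ((l : ℕ) : 𝓞 F) := by
  obtain ⟨δ, hδ, hpD⟩ := nk2_delta hp hp2 hU
  have hD0 : Nm δ ≠ 0 := by
    intro h
    rw [h] at hpD
    exact hpD (dvd_zero p)
  have hδ0 : δ ≠ 0 := by
    intro h
    apply hD0
    have h1 := Nm_nat (F := F) 0
    rw [h]
    simpa using h1
  have hN0 : N ≠ 0 := by
    intro h
    rw [h] at hN
    exact hN (dvd_zero p)
  obtain ⟨q, hq⟩ : ∃ q, q = 4 * Nm δ * N := ⟨_, rfl⟩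
  have hp4 : ¬ p ∣ 4 := by
    intro h
    have h1 : p ∣ 2 := by
      have h2 : p ∣ 2 ^ 2 := by simpa using h
      exact hp.dvd_of_dvd_pow h2
    have h2 := (Nat.prime_dvd_prime_iff_eq hp Nat.prime_two).1 h1
    exact hp2 h2
  have hpq : ¬ p ∣ q := by
    rw [hq]
    intro h
    rcases (Nat.Prime.dvd_mul hp).1 h with h1 | h1
    · rcases (Nat.Prime.dvd_mul hp).1 h1 with h2 | h2
      · exact hp4 h2
      · exact hpD h2
    · exact hN h1
  have hq0 : q ≠ 0 := by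
    rintro rfl
    exact hpq (dvd_zero p)
  have hcop : Nat.Coprime q (p ^ n) :=
    Nat.Coprime.pow_right n ((Nat.Prime.coprime_iff_not_dvd hp).2 hpq).symm
  obtain ⟨a, ha1, ha2⟩ := Nat.chineseRemainder hcop (q - 1) 1
  have hac1 : Nat.Coprime a q := by
    have h1 : Nat.gcd a q = Nat.gcd (q - 1) q := ha1.gcd_eq
    unfold Nat.Coprime
    rw [h1]
    have h2 : Nat.Coprime (q - 1) (q - 1 + 1) := by
      rw [Nat.coprime_self_add_right]
      exact Nat.coprime_one_right _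
    rwa [Nat.sub_add_cancel (Nat.pos_of_ne_zero hq0)] at h2
  have hac2 : Nat.Coprime a (p ^ n) := by
    have h1 : Nat.gcd a (p ^ n) = Nat.gcd 1 (p ^ n) := ha2.gcd_eq
    unfold Nat.Coprime
    rw [h1, Nat.gcd_one_left]
  have hac : Nat.Coprime a (q * p ^ n) := Nat.Coprime.mul_right hac1 hac2
  have hm0 : q * p ^ n ≠ 0 := mul_ne_zero hq0 (pow_ne_zero _ hp.ne_zero)
  obtain ⟨l, hlB, hl, hla⟩ := Nat.forall_exists_prime_gt_and_modEq B hm0 hac
  have hl1 : l ≡ q - 1 [MOD q] := (hla.of_mul_right _).trans ha1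
  have hl2 : l ≡ 1 [MOD p ^ n] := (hla.of_mul_left _).trans ha2
  have hql : q ∣ l + 1 := by
    have h1 : l + 1 ≡ q - 1 + 1 [MOD q] := hl1.add_right 1
    rw [Nat.sub_add_cancel (Nat.pos_of_ne_zero hq0)] at h1
    have h2 : l + 1 ≡ 0 [MOD q] := h1.trans (by simp [Nat.ModEq])
    exact (Nat.modEq_zero_iff_dvd).1 h2
  have h4D : 4 * Nm δ ∣ l + 1 := dvd_trans ⟨N, hq⟩ hql
  refine ⟨l, hl, hlB, ?_, ?_, ?_⟩
  · exact (Nat.modEq_iff_dvd' hl.one_le).1 hl2.symm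
  · exact dvd_trans ⟨4 * Nm δ, by rw [hq]; ring⟩ hql
  · exact cc1b_inert hδ hδ0 hl fun x => cc1a_sq (Nat.pos_of_ne_zero hD0) hl h4D x

end H28T
end

-- from Lib.H28T.CC2B
section

open NumberField IsDedekindDomain WeierstrassCurve

namespace H28T

open H55P H55R
open H55K H55K.TQ

variable {F : Type} [Field F] [NumberField F] [IQ F] {W₀ : WeierstrassCurve (𝓞 F)} {Om : ℂ}
    {m : Ideal (𝓞 F)} {ψ : Ideal (𝓞 F) →*₀ 𝓞 F} {p : ℕ}

/-- Chunk CC2B (S/M). p does not divide absNorm m. p is coprime to m (hp.cop and hH.supp: base_of hH hp gives IsCoprime (span {Δ} * m) (span {p}), so IsCoprime m (span {p})). If p divides absNorm m = Nat.card (𝓞 F ⧸ m) (finite additive group), there is an element x of order p in 𝓞 F ⧸ m (exists_prime_addOrderOf_dvd_card'), p x = 0; a + b p = 1 with a in m,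
so x = (a + b p) x = 0, contradiction. -/
theorem cc2b_cop (hH : BaseH F W₀ Om m ψ) (hp : PrimeH F W₀ p) : ¬ p ∣ Ideal.absNorm m := by
  intro hd
  have hcop : IsCoprime m (Ideal.span {(p : 𝓞 F)}) :=
    (base_of hH hp).cop.of_isCoprime_of_dvd_left (dvd_mul_left _ _)
  have hne : Ideal.absNorm m ≠ 0 := fun h => hH.data.hecke.ne (Ideal.absNorm_eq_zero_iff.1 h)
  have hcard : Ideal.absNorm m = Nat.card (𝓞 F ⧸ m) := rfl
  have hfin : Finite (𝓞 F ⧸ m) := Nat.finite_of_card_ne_zero (by rw [← hcard]; exact hne)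
  haveI : Fact p.Prime := ⟨hp.prime⟩
  rw [hcard] at hd
  obtain ⟨x, hx⟩ := exists_prime_addOrderOf_dvd_card' p hd
  obtain ⟨y, rfl⟩ := Ideal.Quotient.mk_surjective x
  rw [Ideal.isCoprime_iff_exists] at hcop
  obtain ⟨a, ha, b, hb, hab⟩ := hcop
  obtain ⟨c, rfl⟩ := Ideal.mem_span_singleton'.1 hb
  have h1 : p • (Ideal.Quotient.mk m y) = 0 := by
    rw [← hx]
    exact addOrderOf_nsmul_eq_zero _
  have h2 : (p : 𝓞 F) * y ∈ m := by
    rw [← Ideal.Quotient.eq_zero_iff_mem, map_mul, map_natCast, ← nsmul_eq_mul]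
    exact h1
  have h3 : y ∈ m := by
    have e : y = a * y + c * ((p : 𝓞 F) * y) := by
      calc y = (a + c * (p : 𝓞 F)) * y := by rw [hab, one_mul]
        _ = a * y + c * ((p : 𝓞 F) * y) := by ring
    rw [e]
    exact m.add_mem (m.mul_mem_right _ ha) (m.mul_mem_left _ h2)
  rw [Ideal.Quotient.eq_zero_iff_mem.2 h3, addOrderOf_zero] at hx
  exact hp.prime.one_lt.ne hx

end H28T
end

-- from Lib.H28T.CC3
section

open NumberField IsDedekindDomain WeierstrassCurve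

namespace H28T

open H55P H55R
open H55K H55K.TQ

variable {F : Type} [Field F] [NumberField F] [IQ F] {W₀ : WeierstrassCurve (𝓞 F)} {Om : ℂ}
    {m : Ideal (𝓞 F)} {ψ : Ideal (𝓞 F) →*₀ 𝓞 F} {p : ℕ}

theorem cc_dirH (hH : BaseH F W₀ Om m ψ) (hp : PrimeH F W₀ p) : DirH (Gd W₀ p) p := by
  intro n N
  have hpp := hp.prime
  have h5 := hp.five
  obtain ⟨l, h1, h2, h3, h4, h6⟩ := cc1_dir hpp (by omega) hp.unr (cc2b_cop hH hp) (n + 1) N
  have h7 : p ∣ l - 1 := (dvd_pow_self p (Nat.succ_ne_zero n)).trans h3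
  exact ⟨l, h1, h2, (pow_dvd_pow p (Nat.le_succ n)).trans h3, cc2_good hH hp h1 h7 h4 h6⟩

end H28T
end
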