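import Mathlib
import Pool.Agent.Lib.H1M.PP.D_H28R_Defs
import Pool.Agent.Lib.H1M.PP.D_H28T_Defs
import Pool.Agent.Lib.H1M.PP.D_H55K_D2
import Pool.Agent.Lib.H1M.PP.D_H55K_RD
import Pool.Agent.Lib.H1M.PP.D_H55P_SD
import Pool.Agent.Lib.H1M.PP.D_H55P_Stm
import Pool.Agent.Lib.H1M.PP.M001
import Pool.Agent.Lib.H1M.PP.M007
import Pool.Agent.Lib.H1M.PP.M021
import Pool.Agent.Lib.H1M.PP.M030
import Pool.Agent.Lib.H1M.PP.M033
import Pool.Agent.Lib.H1M.PP.M041
import Pool.Agent.Lib.H1M.PP.M042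

/-! Merged copies (to shorten the build) of Lib.H28R.W20, Lib.H28R.W9, Lib.H28T.W1, Lib.H28T.W14, Lib.H55K.RA1, Lib.H55K.RC1, Lib.H55K.RC2, Lib.H55K.RB2, Lib.H55K.RE, Lib.H55K.RP3, Lib.H55K.RP2. -/

-- from Lib.H28R.W20
section

open NumberField IsDedekindDomain

namespace H28R

open H55P H55R

/-! Chunk W20 (M), Kummer theory: the degree of N/C (N/C is Galois since N/F₀ is). The group of N/C embeds in FixZ F₀ ζ -> ZMod p: τ (r g) = ζ^(e τ g) r g (IsPrimitiveRoot.eq_pow_of_pow_eq_one, r g <> 0, τ fixes C; injective by WrP.gen); its image is a ZMod p-subspace; if it is not everything there is a nonzero linear form a vanishing on it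
(Submodule.exists_le_ker_of_lt_top or exists_dual_map_eq_bot_of_lt_top; the linear form is x -> sum over g of a g * x g), the product of the (r g)^((a g).val) is fixed by the group of N/C, so it is an element z of C (IsGalois.mem_bot_iff_fixed) with z^p = product of (g γ)^((a g).val): contradiction to hn. So the degree is p^(card). Compare H19T/W5.lean
(wr_card3). -/

section

variable {p : ℕ} {F₀ C N : Type} [Field F₀] [Field C] [Field N] [CharZero F₀]
    [Algebra F₀ C] [Algebra F₀ N] [Algebra C N] [IsScalarTower F₀ C N] {ζ γ : C}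
    {r : FixZ F₀ ζ → N}

theorem w20_prim (N : Type) [Field N] [Algebra C N] (hζ : IsPrimitiveRoot ζ p) :
    IsPrimitiveRoot (algebraMap C N ζ) p :=
  hζ.map_of_injective (algebraMap C N).injective

/-- The power of ζ with exponent in ZMod p. -/
noncomputable def w20_zh (N : Type) [Field N] [Algebra C N] [NeZero p] (hζ : IsPrimitiveRoot ζ p) :
    Multiplicative (ZMod p) →* N where
  toFun ε := (algebraMap C N ζ) ^ (Multiplicative.toAdd ε).val
  map_one' := by simp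
  map_mul' a b := by
    rw [toAdd_mul, ZMod.val_add, ← pow_add]
    exact (pow_eq_pow_mod _ (w20_prim N hζ).pow_eq_one).symm

theorem w20_zh_apply (N : Type) [Field N] [Algebra C N] [NeZero p] (hζ : IsPrimitiveRoot ζ p)
    (a : ZMod p) : w20_zh N hζ (Multiplicative.ofAdd a) = (algebraMap C N ζ) ^ a.val := rfl

theorem w20_zh_inj (N : Type) [Field N] [Algebra C N] [NeZero p] (hζ : IsPrimitiveRoot ζ p)
    {a b : Multiplicative (ZMod p)} (h : w20_zh N hζ a = w20_zh N hζ b) : a = b := by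
  have h1 := (w20_prim N hζ).pow_inj (ZMod.val_lt _) (ZMod.val_lt _) h
  exact Multiplicative.toAdd.injective (ZMod.val_injective p h1)

theorem w20_fix [NeZero p] (hζ : IsPrimitiveRoot ζ p) (s : N ≃ₐ[C] N)
    (ε : Multiplicative (ZMod p)) : s (w20_zh N hζ ε) = w20_zh N hζ ε := by
  show s ((algebraMap C N ζ) ^ (Multiplicative.toAdd ε).val) = _
  rw [map_pow, AlgEquiv.commutes]
  rfl

theorem w20_ne (hp : p ≠ 0) (hγ : γ ≠ 0) (h : WrP p F₀ C N ζ γ r) (g : FixZ F₀ ζ) : r g ≠ 0 := by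
  intro h0
  have h1 := h.pow g
  rw [h0, zero_pow hp] at h1
  have h2 : (g : C ≃ₐ[F₀] C) γ = 0 := by
    apply (algebraMap C N).injective
    rw [map_zero, ← h1]
  apply hγ
  apply (g : C ≃ₐ[F₀] C).injective
  rw [h2, map_zero]

theorem w20_ex [NeZero p] (hζ : IsPrimitiveRoot ζ p) (hγ : γ ≠ 0) (h : WrP p F₀ C N ζ γ r)
    (s : N ≃ₐ[C] N) (g : FixZ F₀ ζ) :
    ∃ ε : Multiplicative (ZMod p), s (r g) = w20_zh N hζ ε * r g := by
  have hne := w20_ne (NeZero.ne p) hγ h g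
  have h1 : (s (r g) / r g) ^ p = 1 := by
    rw [div_pow, ← map_pow, h.pow, AlgEquiv.commutes]
    apply div_self
    rw [← h.pow]
    exact pow_ne_zero _ hne
  obtain ⟨i, hi, he⟩ := (w20_prim N hζ).eq_pow_of_pow_eq_one h1
  refine ⟨Multiplicative.ofAdd (i : ZMod p), ?_⟩
  rw [w20_zh_apply, ZMod.val_natCast_of_lt hi, he, div_mul_cancel₀ _ hne]

/-- The exponents. -/
noncomputable def w20_sg [NeZero p] (hζ : IsPrimitiveRoot ζ p) (hγ : γ ≠ 0)
    (h : WrP p F₀ C N ζ γ r) (s : N ≃ₐ[C] N) (g : FixZ F₀ ζ) :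
    ZMod p := Multiplicative.toAdd (Classical.choose (w20_ex hζ hγ h s g))

theorem w20_sg_spec [NeZero p] (hζ : IsPrimitiveRoot ζ p) (hγ : γ ≠ 0)
    (h : WrP p F₀ C N ζ γ r) (s : N ≃ₐ[C] N) (g : FixZ F₀ ζ) :
    s (r g) = w20_zh N hζ (Multiplicative.ofAdd (w20_sg hζ hγ h s g)) * r g :=
  Classical.choose_spec (w20_ex hζ hγ h s g)

theorem w20_sg_eq [NeZero p] (hζ : IsPrimitiveRoot ζ p) (hγ : γ ≠ 0)
    (h : WrP p F₀ C N ζ γ r) (s : N ≃ₐ[C] N) (g : FixZ F₀ ζ) (a : ZMod p)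
    (ha : s (r g) = w20_zh N hζ (Multiplicative.ofAdd a) * r g) : w20_sg hζ hγ h s g = a := by
  rw [w20_sg_spec hζ hγ h s g] at ha
  have h1 := w20_zh_inj N hζ (mul_right_cancel₀ (w20_ne (NeZero.ne p) hγ h g) ha)
  exact Multiplicative.ofAdd.injective h1

theorem w20_one [NeZero p] (hζ : IsPrimitiveRoot ζ p) (hγ : γ ≠ 0)
    (h : WrP p F₀ C N ζ γ r) (g : FixZ F₀ ζ) :
    w20_sg hζ hγ h (1 : N ≃ₐ[C] N) g = 0 := by
  apply w20_sg_eq
  rw [ofAdd_zero, map_one, one_mul]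
  rfl

theorem w20_mul [NeZero p] (hζ : IsPrimitiveRoot ζ p) (hγ : γ ≠ 0)
    (h : WrP p F₀ C N ζ γ r) (s t : N ≃ₐ[C] N) (g : FixZ F₀ ζ) :
    w20_sg hζ hγ h (s * t) g = w20_sg hζ hγ h s g + w20_sg hζ hγ h t g := by
  apply w20_sg_eq
  have e1 : (s * t) (r g) = s (t (r g)) := rfl
  rw [e1, w20_sg_spec hζ hγ h t g, map_mul, w20_fix, w20_sg_spec hζ hγ h s g, ofAdd_add, map_mul]
  ring

theorem w20_inv [NeZero p] (hζ : IsPrimitiveRoot ζ p) (hγ : γ ≠ 0)
    (h : WrP p F₀ C N ζ γ r) (s : N ≃ₐ[C] N) (g : FixZ F₀ ζ) :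
    w20_sg hζ hγ h s⁻¹ g = - w20_sg hζ hγ h s g := by
  have h1 := w20_mul hζ hγ h s⁻¹ s g
  rw [inv_mul_cancel, w20_one] at h1
  exact eq_neg_of_add_eq_zero_left h1.symm

/-- The exponent vectors. -/
noncomputable def w20_W [NeZero p] (hζ : IsPrimitiveRoot ζ p) (hγ : γ ≠ 0)
    (h : WrP p F₀ C N ζ γ r) : AddSubgroup (FixZ F₀ ζ → ZMod p) where
  carrier := Set.range fun s : N ≃ₐ[C] N => w20_sg hζ hγ h s
  zero_mem' := ⟨1, funext fun g => w20_one hζ hγ h g⟩
  add_mem' := by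
    rintro _ _ ⟨s, rfl⟩ ⟨t, rfl⟩
    exact ⟨s * t, funext fun g => w20_mul hζ hγ h s t g⟩
  neg_mem' := by
    rintro _ ⟨s, rfl⟩
    exact ⟨s⁻¹, funext fun g => w20_inv hζ hγ h s g⟩

theorem w20_top (hp : p.Prime) [NeZero p] [IsGalois F₀ C] [FiniteDimensional F₀ N]
    (hζ : IsPrimitiveRoot ζ p) (hγ : γ ≠ 0)
    (h : WrP p F₀ C N ζ γ r) [Fintype (FixZ F₀ ζ)]
    (hn : ∀ a : FixZ F₀ ζ → ZMod p, a ≠ 0 →
      ¬ ∃ z : C, z ^ p = ∏ g : FixZ F₀ ζ, ((g : C ≃ₐ[F₀] C) γ) ^ (a g).val)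
    (v : FixZ F₀ ζ → ZMod p) : v ∈ w20_W hζ hγ h := by
  classical
  haveI : Fact p.Prime := ⟨hp⟩
  have hfinK : FiniteDimensional C N := Module.Finite.of_restrictScalars_finite F₀ C N
  have hgal : IsGalois F₀ N := h.gal
  have hgal' : IsGalois C N := IsGalois.tower_top_of_isGalois F₀ C N
  set W : Submodule (ZMod p) (FixZ F₀ ζ → ZMod p) :=
    AddSubgroup.toZModSubmodule p (w20_W hζ hγ h) with hW
  have hmem : ∀ x, x ∈ W ↔ x ∈ w20_W hζ hγ h := fun x =>
    AddSubgroup.mem_toZModSubmodule (n := p) (x := x) (S := w20_W hζ hγ h)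
  rw [← hmem]
  by_contra hne'
  have hne : W ≠ ⊤ := by
    intro h1
    apply hne'
    rw [h1]
    trivial
  obtain ⟨f, hf0, hf⟩ := W.exists_le_ker_of_lt_top (lt_top_iff_ne_top.2 hne)
  set a : FixZ F₀ ζ → ZMod p := fun g => f (Pi.single g 1) with ha
  have hval : ∀ v : FixZ F₀ ζ → ZMod p, f v = ∑ g, a g * v g := by
    intro v
    have h1 : v = ∑ g, v g • (Pi.single g (1 : ZMod p) : FixZ F₀ ζ → ZMod p) := by
      ext x
      simp [Finset.sum_apply, Pi.single_apply]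
    conv_lhs => rw [h1]
    rw [map_sum]
    refine Finset.sum_congr rfl fun g _ => ?_
    rw [map_smul, smul_eq_mul, mul_comm]
  have hane : a ≠ 0 := by
    intro h0
    apply hf0
    ext v
    have h1 : f (Pi.single v 1) = a v := rfl
    have h2 : a v = 0 := congrFun h0 v
    simp [h1, h2]
  have hfix : ∀ s : N ≃ₐ[C] N, s (∏ g, r g ^ (a g).val) = ∏ g, r g ^ (a g).val := by
    intro s
    have h1 : f (w20_sg hζ hγ h s) = 0 := hf ((hmem _).2 ⟨s, rfl⟩)
    rw [hval] at h1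
    have h2 : ∏ g, w20_zh N hζ (Multiplicative.ofAdd (w20_sg hζ hγ h s g)) ^ (a g).val = 1 := by
      have h3 : ∏ g, w20_zh N hζ (Multiplicative.ofAdd (w20_sg hζ hγ h s g)) ^ (a g).val =
          w20_zh N hζ (∏ g, Multiplicative.ofAdd (w20_sg hζ hγ h s g) ^ (a g).val) := by
        rw [map_prod]
        refine Finset.prod_congr rfl fun g _ => ?_
        rw [map_pow]
      have h4 : ∏ g, Multiplicative.ofAdd (w20_sg hζ hγ h s g) ^ (a g).val =
          Multiplicative.ofAdd (∑ g, a g * w20_sg hζ hγ h s g) := by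
        rw [ofAdd_sum]
        refine Finset.prod_congr rfl fun g _ => ?_
        rw [← ofAdd_nsmul]
        congr 1
        rw [nsmul_eq_mul, ZMod.natCast_zmod_val]
      rw [h3, h4, h1, ofAdd_zero, map_one]
    rw [map_prod]
    have h5 : ∀ g, s (r g ^ (a g).val) =
        w20_zh N hζ (Multiplicative.ofAdd (w20_sg hζ hγ h s g)) ^ (a g).val *
          r g ^ (a g).val := by
      intro g
      rw [map_pow, w20_sg_spec hζ hγ h s g, mul_pow]
    rw [Finset.prod_congr rfl fun g _ => h5 g, Finset.prod_mul_distrib, h2, one_mul]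
  obtain ⟨x, hx⟩ := (IsGalois.mem_bot_iff_fixed (F := C) (E := N) _).2 hfix
  apply hn a hane
  refine ⟨x, ?_⟩
  apply (algebraMap C N).injective
  rw [map_prod, map_pow]
  have hx' : algebraMap C N x = ∏ g, r g ^ (a g).val := hx
  rw [hx', ← Finset.prod_pow]
  refine Finset.prod_congr rfl fun g _ => ?_
  rw [map_pow, ← h.pow, ← pow_mul, ← pow_mul, mul_comm]

end

theorem wr_deg {p : ℕ} (hp : p.Prime) {F₀ C N : Type} [Field F₀] [Field C] [Field N] [CharZero F₀]
    [Algebra F₀ C] [Algebra F₀ N] [Algebra C N] [IsScalarTower F₀ C N] [IsGalois F₀ C]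
    [FiniteDimensional F₀ N] {ζ γ : C} (hζ : IsPrimitiveRoot ζ p) (hγ : γ ≠ 0)
    {r : FixZ F₀ ζ → N} (h : WrP p F₀ C N ζ γ r) [Fintype (FixZ F₀ ζ)]
    (hn : ∀ a : FixZ F₀ ζ → ZMod p, a ≠ 0 →
      ¬ ∃ z : C, z ^ p = ∏ g : FixZ F₀ ζ, ((g : C ≃ₐ[F₀] C) γ) ^ (a g).val) :
    Module.finrank C N = p ^ Nat.card (FixZ F₀ ζ) := by
  haveI : NeZero p := ⟨hp.ne_zero⟩
  have hfinK : FiniteDimensional C N := Module.Finite.of_restrictScalars_finite F₀ C N
  have hgal : IsGalois F₀ N := h.gal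
  have hgal' : IsGalois C N := IsGalois.tower_top_of_isGalois F₀ C N
  have hbij : Function.Bijective fun s : N ≃ₐ[C] N => w20_sg hζ hγ h s := by
    constructor
    · intro s t hst
      have h1 : ∀ g, s (r g) = t (r g) := by
        intro g
        have h2 : w20_sg hζ hγ h s g = w20_sg hζ hγ h t g := congrFun hst g
        rw [w20_sg_spec hζ hγ h s g, w20_sg_spec hζ hγ h t g, h2]
      have h3 : (s : N →ₐ[C] N) = t := by
        refine AlgHom.ext_of_adjoin_eq_top h.gen ?_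
        rintro _ ⟨g, rfl⟩
        exact h1 g
      exact AlgEquiv.coe_toAlgHom_injective h3
    · intro v
      exact w20_top hp hζ hγ h hn v
  rw [← IsGalois.card_aut_eq_finrank C N, Nat.card_congr (Equiv.ofBijective _ hbij), Nat.card_fun,
    Nat.card_zmod]

end H28R
end

-- from Lib.H28R.W9
section

open NumberField IsDedekindDomain

namespace H28R

open H55P H55R

/-! Chunk W9 (M), pure Galois theory: the wreath product. See H19T/W4.lean (wr_embed3) and H19T/W5.lean (w5_W, w5_top, wr_card3, wr_iso3) for the case p = 3, F₀ = F, all of the group of C/F₀ instead of FixZ. Embedding: s in FixZ F₀ (algebraMap C N ζ) restricts to C as an element ρ s of FixZ F₀ ζ (restrictNormalHom C;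
AlgEquiv.restrictNormal_commutes). s (r ((ρ s)⁻¹ g))^p = (r g)^p, so s (r ((ρ s)⁻¹ g)) = ζ^(e) r g with e in ZMod p (IsPrimitiveRoot.eq_pow_of_pow_eq_one, r g <> 0); s -> (e, ρ s) is an injective homomorphism to the regular wreath product (s fixes ζ). Degree: the group of N/C embeds in FixZ F₀ ζ -> ZMod p; its image is a
ZMod p-subspace; if it is not everything there is a nonzero linear form a vanishing on it, the product of the (r g)^(a g).val is fixed by the group of N/C, so it is an element z of C with z^p = product of (g γ)^(a g).val: contradiction to hn. So the degree is p^(card). Isomorphism: the group of N/F₀ has order [N:C] [C:F₀];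
FixZ F₀ (ζ in N) is the preimage of FixZ F₀ ζ under the surjection to the group of C/F₀, so its order is [N:C] * card (FixZ F₀ ζ) = the order of the wreath product (RegularWreathProduct.card). -/

/-- The root of unity attached to an element of the cyclic group. -/
def w9_z {p : ℕ} {N : Type} [Field N] (ζ : N) (ε : CP p) : N := ζ ^ (Multiplicative.toAdd ε).val

theorem w9_one {p : ℕ} {N : Type} [Field N] (ζ : N) : w9_z (p := p) ζ 1 = 1 := by
  unfold w9_z
  rw [toAdd_one, ZMod.val_zero, pow_zero]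

theorem w9_mul {p : ℕ} [NeZero p] {N : Type} [Field N] {ζ : N} (hζ : ζ ^ p = 1) (a b : CP p) :
    w9_z ζ (a * b) = w9_z ζ a * w9_z ζ b := by
  have h : ∀ n : ℕ, ζ ^ (n % p) = ζ ^ n := by
    intro n
    conv_rhs => rw [← Nat.div_add_mod n p, pow_add, pow_mul, hζ, one_pow, one_mul]
  unfold w9_z
  rw [← pow_add, toAdd_mul, ZMod.val_add, h]

theorem w9_inj {p : ℕ} [NeZero p] {N : Type} [Field N] {ζ : N} (hζ : IsPrimitiveRoot ζ p) {a b : CP p}
    (h : w9_z ζ a = w9_z ζ b) : a = b := by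
  have h1 := hζ.pow_inj (ZMod.val_lt (Multiplicative.toAdd a)) (ZMod.val_lt (Multiplicative.toAdd b)) h
  exact Multiplicative.toAdd.injective (ZMod.val_injective p h1)

theorem w9_of {p : ℕ} [NeZero p] {N : Type} [Field N] {ζ : N} (hζ : IsPrimitiveRoot ζ p) {x y : N}
    (hy : y ≠ 0) (h : x ^ p = y ^ p) : ∃ ε : CP p, x = w9_z ζ ε * y := by
  have h2 : (x / y) ^ p = 1 := by
    rw [div_pow, h]
    exact div_self (pow_ne_zero _ hy)
  obtain ⟨i, hi, hi2⟩ := hζ.eq_pow_of_pow_eq_one h2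
  refine ⟨Multiplicative.ofAdd (i : ZMod p), ?_⟩
  unfold w9_z
  rw [toAdd_ofAdd, ZMod.val_natCast_of_lt hi, hi2, div_mul_cancel₀ _ hy]

theorem w9_map {p : ℕ} {F₀ N : Type} [Field F₀] [Field N] [Algebra F₀ N] {ζ : N} (s : FixZ F₀ ζ)
    (ε : CP p) : (s : N ≃ₐ[F₀] N) (w9_z ζ ε) = w9_z ζ ε := by
  unfold w9_z
  rw [map_pow, mem_FixZ.1 s.2]

theorem wr_embed {p : ℕ} (hp : p.Prime) {F₀ C N : Type} [Field F₀] [Field C] [Field N] [CharZero F₀]
    [Algebra F₀ C] [Algebra F₀ N] [Algebra C N] [IsScalarTower F₀ C N] [IsGalois F₀ C]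
    [FiniteDimensional F₀ N] {ζ γ : C} (hζ : IsPrimitiveRoot ζ p) (hγ : γ ≠ 0)
    {r : FixZ F₀ ζ → N} (h : WrP p F₀ C N ζ γ r) :
    ∃ φ : FixZ F₀ (algebraMap C N ζ) →* CP p ≀ᵣ (FixZ F₀ ζ), Function.Injective φ := by
  classical
  have hp0 : NeZero p := ⟨hp.ne_zero⟩
  have hζN : IsPrimitiveRoot (algebraMap C N ζ) p := hζ.map_of_injective (algebraMap C N).injective
  have hres : ∀ (s : N ≃ₐ[F₀] N) (x : C), algebraMap C N (AlgEquiv.restrictNormalHom C s x) =
      s (algebraMap C N x) := fun s x => AlgEquiv.restrictNormal_commutes s C x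
  let ρ : FixZ F₀ (algebraMap C N ζ) →* FixZ F₀ ζ :=
    MonoidHom.codRestrict ((AlgEquiv.restrictNormalHom (F := F₀) (K₁ := N) C).comp
      (FixZ F₀ (algebraMap C N ζ)).subtype) (FixZ F₀ ζ) (by
        intro s
        rw [mem_FixZ]
        apply (algebraMap C N).injective
        show algebraMap C N (AlgEquiv.restrictNormalHom C (s : N ≃ₐ[F₀] N) ζ) = _
        rw [hres]
        exact mem_FixZ.1 s.2)
  have hρ : ∀ (s : FixZ F₀ (algebraMap C N ζ)) (x : C),
      algebraMap C N ((ρ s : C ≃ₐ[F₀] C) x) = (s : N ≃ₐ[F₀] N) (algebraMap C N x) :=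
    fun s x => hres s x
  have hr0 : ∀ g, r g ≠ 0 := by
    intro g h0
    have h1 := h.pow g
    rw [h0, zero_pow hp.ne_zero] at h1
    have h2 : (g : C ≃ₐ[F₀] C) γ = 0 := (map_eq_zero_iff _ (algebraMap C N).injective).1 h1.symm
    exact hγ ((map_eq_zero_iff _ (g : C ≃ₐ[F₀] C).injective).1 h2)
  have hex : ∀ (s : FixZ F₀ (algebraMap C N ζ)) (x : FixZ F₀ ζ), ∃ e : CP p,
      (s : N ≃ₐ[F₀] N) (r ((ρ s)⁻¹ * x)) = w9_z (algebraMap C N ζ) e * r x := by
    intro s x
    have h1 : ((s : N ≃ₐ[F₀] N) (r ((ρ s)⁻¹ * x))) ^ p = (r x) ^ p := by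
      rw [← map_pow, h.pow, ← hρ, h.pow]
      congr 1
      rw [← AlgEquiv.mul_apply]
      have e1 : (ρ s : C ≃ₐ[F₀] C) * (((ρ s)⁻¹ * x : FixZ F₀ ζ) : C ≃ₐ[F₀] C) = x := by
        rw [← Subgroup.coe_mul, mul_inv_cancel_left]
      rw [e1]
    exact w9_of hζN (hr0 x) h1
  choose eps heps using hex
  let ψ : FixZ F₀ (algebraMap C N ζ) →* CP p ≀ᵣ (FixZ F₀ ζ) :=
    { toFun := fun s => ⟨eps s, ρ s⟩
      map_one' := by
        have h1 : eps 1 = 1 := by
          funext x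
          apply w9_inj hζN
          have h2 := heps 1 x
          rw [map_one, inv_one, one_mul] at h2
          have h3 : ((1 : FixZ F₀ (algebraMap C N ζ)) : N ≃ₐ[F₀] N) (r x) = r x := rfl
          rw [h3] at h2
          have h4 : w9_z (algebraMap C N ζ) (eps 1 x) = 1 := by
            have h5 : 1 * r x = w9_z (algebraMap C N ζ) (eps 1 x) * r x := by rw [one_mul]; exact h2
            exact (mul_right_cancel₀ (hr0 x) h5).symm
          rw [h4, Pi.one_apply, w9_one]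
        refine RegularWreathProduct.ext ?_ ?_
        · exact h1
        · exact map_one ρ
      map_mul' := by
        intro s t
        refine RegularWreathProduct.ext ?_ ?_
        · funext x
          change eps (s * t) x = eps s x * eps t ((ρ s)⁻¹ * x)
          apply w9_inj hζN
          have h1 := heps (s * t) x
          have h2 := heps s x
          have h3 := heps t ((ρ s)⁻¹ * x)
          have h4 : (ρ (s * t))⁻¹ * x = (ρ t)⁻¹ * ((ρ s)⁻¹ * x) := by
            rw [map_mul]; group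
          rw [h4] at h1
          have h5 : ((s * t : FixZ F₀ (algebraMap C N ζ)) : N ≃ₐ[F₀] N)
              (r ((ρ t)⁻¹ * ((ρ s)⁻¹ * x))) =
              (s : N ≃ₐ[F₀] N) ((t : N ≃ₐ[F₀] N) (r ((ρ t)⁻¹ * ((ρ s)⁻¹ * x)))) := rfl
          rw [h5, h3, map_mul, w9_map, h2] at h1
          have h6 : w9_z (algebraMap C N ζ) (eps s x) *
              w9_z (algebraMap C N ζ) (eps t ((ρ s)⁻¹ * x)) * r x =
              w9_z (algebraMap C N ζ) (eps (s * t) x) * r x := by rw [← h1]; ring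
          rw [w9_mul hζN.pow_eq_one]
          exact (mul_right_cancel₀ (hr0 x) h6).symm
        · exact map_mul ρ s t }
  refine ⟨ψ, ?_⟩
  rw [injective_iff_map_eq_one]
  intro s hs
  have h1 : ρ s = 1 := congrArg RegularWreathProduct.right hs
  have h2 : ∀ x, eps s x = 1 := fun x => congrFun (congrArg RegularWreathProduct.left hs) x
  have h3 : ∀ x, (s : N ≃ₐ[F₀] N) (r x) = r x := by
    intro x
    have h4 := heps s x
    rwa [h1, inv_one, one_mul, h2, w9_one, one_mul] at h4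
  have h5 : ∀ k : C, (s : N ≃ₐ[F₀] N) (algebraMap C N k) = algebraMap C N k := by
    intro k
    rw [← hρ, h1]; rfl
  let s' : N →ₐ[C] N := { ((s : N ≃ₐ[F₀] N) : N →+* N) with commutes' := h5 }
  have h6 : s' = AlgHom.id C N := by
    apply AlgHom.ext_of_adjoin_eq_top h.gen
    rintro _ ⟨x, rfl⟩
    exact h3 x
  apply Subtype.ext
  ext x
  exact congrArg (fun f : N →ₐ[C] N => f x) h6

theorem wr_iso {p : ℕ} (hp : p.Prime) {F₀ C N : Type} [Field F₀] [Field C] [Field N] [CharZero F₀]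
    [Algebra F₀ C] [Algebra F₀ N] [Algebra C N] [IsScalarTower F₀ C N] [IsGalois F₀ C]
    [FiniteDimensional F₀ N] {ζ γ : C} (hζ : IsPrimitiveRoot ζ p) (hγ : γ ≠ 0)
    {r : FixZ F₀ ζ → N} (h : WrP p F₀ C N ζ γ r)
    (hd : Module.finrank C N = p ^ Nat.card (FixZ F₀ ζ)) :
    Nat.card (FixZ F₀ (algebraMap C N ζ)) = p ^ Nat.card (FixZ F₀ ζ) * Nat.card (FixZ F₀ ζ) ∧
    Nonempty (FixZ F₀ (algebraMap C N ζ) ≃* CP p ≀ᵣ (FixZ F₀ ζ)) := by
  classical
  have hp0 : NeZero p := ⟨hp.ne_zero⟩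
  have hgal : IsGalois F₀ N := h.gal
  have hfC : FiniteDimensional F₀ C := FiniteDimensional.left F₀ C N
  have hfCN : FiniteDimensional C N := FiniteDimensional.right F₀ C N
  have hsur := AlgEquiv.restrictNormalHom_surjective (F := F₀) (K₁ := C) N
  have hres : ∀ (s : N ≃ₐ[F₀] N) (x : C), algebraMap C N (AlgEquiv.restrictNormalHom C s x) =
      s (algebraMap C N x) := fun s x => AlgEquiv.restrictNormal_commutes s C x
  have hcomap : (FixZ F₀ ζ).comap (AlgEquiv.restrictNormalHom (F := F₀) (K₁ := N) C) =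
      FixZ F₀ (algebraMap C N ζ) := by
    ext s
    rw [Subgroup.mem_comap, mem_FixZ, mem_FixZ, ← hres]
    exact ((algebraMap C N).injective.eq_iff).symm
  have hidx : (FixZ F₀ (algebraMap C N ζ)).index = (FixZ F₀ ζ).index := by
    rw [← hcomap]
    exact Subgroup.index_comap_of_surjective _ hsur
  have hfg : Finite (C ≃ₐ[F₀] C) := inferInstance
  have hi0 : (FixZ F₀ ζ).index ≠ 0 := Subgroup.index_ne_zero_of_finite
  have hc1 := Subgroup.card_mul_index (FixZ F₀ (algebraMap C N ζ))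
  have hc2 := Subgroup.card_mul_index (FixZ F₀ ζ)
  rw [hidx, IsGalois.card_aut_eq_finrank F₀ N, ← Module.finrank_mul_finrank F₀ C N, hd,
    ← IsGalois.card_aut_eq_finrank F₀ C, ← hc2] at hc1
  have hcard : Nat.card (FixZ F₀ (algebraMap C N ζ)) =
      p ^ Nat.card (FixZ F₀ ζ) * Nat.card (FixZ F₀ ζ) := by
    apply Nat.eq_of_mul_eq_mul_right (Nat.pos_of_ne_zero hi0)
    rw [hc1]
    ring
  refine ⟨hcard, ?_⟩
  obtain ⟨φ, hφ⟩ := wr_embed hp hζ hγ h
  have hfin : Finite (CP p ≀ᵣ (FixZ F₀ ζ)) := inferInstance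
  have hle : Nat.card (CP p ≀ᵣ (FixZ F₀ ζ)) ≤ Nat.card (FixZ F₀ (algebraMap C N ζ)) := by
    rw [RegularWreathProduct.card, hcard]
    have h2 : Nat.card (CP p) = p := by
      rw [Nat.card_congr (Multiplicative.toAdd), Nat.card_zmod]
    rw [h2]
  exact ⟨MulEquiv.ofBijective φ (hφ.bijective_of_nat_card_le hle)⟩

end H28R
end

-- from Lib.H28T.W1
section

open NumberField IsDedekindDomain

namespace H28T

open H28R
open H55P H55R

variable {F : Type} [Field F] [NumberField F] {G : HeightOneSpectrum (𝓞 F) → Prop}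

/-! Chunk W1 (M): the field C = K(ζ). C = CyclotomicField p K (or K(ζ) inside AlgebraicClosure K): IsCyclotomicExtension {p} K C, ζ = zeta. C/F is Galois: C is the splitting field over K of X^p - 1, which has coefficients in F, and K/F is normal:
every F-embedding of C into an algebraic closure maps K to K and ζ to a power of ζ (for example realise C as IntermediateField.adjoin K {ζ} in AlgebraicClosure K and use IntermediateField.normal_iff_forall_map_le over F, or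
Normal of a compositum). gen: C = K(ζ). deg: the group of C/K embeds in (ZMod p)ˣ (IsPrimitiveRoot.autToPow_injective or IsCyclotomicExtension), of order p - 1. Let Γ = group of C/F, |Γ| = p^k d, d = [C:K] dividing p - 1;
ω : Γ -> (ZMod p)ˣ (IsPrimitiveRoot.autToPow), kernel FixZ F ζ, so |FixZ| * |image| = p^k d, |image| divides p - 1, prime to p: p^k divides |FixZ|. The restriction FixZ -> group of K/F (restrictNormalHom) is injective (an element in the kernel is in the group of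
C/K and fixes ζ: gen), so |FixZ| <= p^k and it is bijective: iso. comm: σ in FixZ, δ in the group of C/K: σ δ σ⁻¹ δ⁻¹ fixes K (res is a homomorphism and δ restricts to 1) and fixes ζ (δ ζ = ζ^a, σ ζ = ζ), so it is 1. dec: given s, let σ in FixZ have the same
restriction to K, δ = σ⁻¹ s fixes K. -/

theorem W1_normal (p : ℕ) [NeZero p] (K : Type) [Field K] [NumberField K] [Algebra F K] [IsGalois F K]
    (C : Type) [Field C] [NumberField C] [Algebra F C] [Algebra K C] [IsScalarTower F K C]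
    [IsCyclotomicExtension {p} K C] : Normal F C := by
  let Ω := AlgebraicClosure C
  have hF : IsScalarTower ℚ F C := IsScalarTower.of_algebraMap_eq' (Subsingleton.elim _ _)
  have hfin : FiniteDimensional F C := Module.Finite.of_restrictScalars_finite ℚ F C
  let ζ : C := IsCyclotomicExtension.zeta p K C
  have hζ : IsPrimitiveRoot ζ p := IsCyclotomicExtension.zeta_spec p K C
  have hζ' : IsPrimitiveRoot (algebraMap C Ω ζ) p :=
    hζ.map_of_injective (algebraMap C Ω).injective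
  let i : C →ₐ[F] Ω := IsScalarTower.toAlgHom F C Ω
  have key : ∀ (σ : Ω →ₐ[F] Ω) (x : C), ∃ y : C, σ (algebraMap C Ω x) = algebraMap C Ω y := by
    intro σ x
    have hx : x ∈ Algebra.adjoin K {ζ} := by
      rw [IsCyclotomicExtension.adjoin_primitive_root_eq_top hζ]
      exact Algebra.mem_top
    refine Algebra.adjoin_induction (p := fun x _ => ∃ y : C, σ (algebraMap C Ω x) = algebraMap C Ω y)
      ?_ ?_ ?_ ?_ hx
    · rintro x hx
      rw [Set.mem_singleton_iff] at hx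
      subst hx
      have h1 : σ (algebraMap C Ω ζ) ^ p = 1 := by
        rw [← map_pow, ← map_pow, hζ.pow_eq_one, map_one, map_one]
      obtain ⟨j, -, hj⟩ := hζ'.eq_pow_of_pow_eq_one h1
      exact ⟨ζ ^ j, by rw [map_pow]; exact hj.symm⟩
    · intro a
      refine ⟨algebraMap K C (σ.restrictNormal K a), ?_⟩
      rw [← IsScalarTower.algebraMap_apply K C Ω, ← IsScalarTower.algebraMap_apply K C Ω]
      exact (AlgHom.restrictNormal_commutes σ K a).symm
    · rintro x y _ _ ⟨x', hx'⟩ ⟨y', hy'⟩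
      exact ⟨x' + y', by rw [map_add, map_add, hx', hy', map_add]⟩
    · rintro x y _ _ ⟨x', hx'⟩ ⟨y', hy'⟩
      exact ⟨x' * y', by rw [map_mul, map_mul, hx', hy', map_mul]⟩
  have hΩ : Normal F Ω := by
    have h1 : Algebra.IsAlgebraic F Ω := Algebra.IsAlgebraic.trans F C Ω
    have h2 : IsAlgClosure F Ω := ⟨inferInstance, inferInstance⟩
    exact IsAlgClosure.normal F Ω
  have h3 : Normal F i.fieldRange := by
    rw [IntermediateField.normal_iff_forall_map_le]
    intro σ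
    rintro _ ⟨_, ⟨x, rfl⟩, rfl⟩
    obtain ⟨y, hy⟩ := key σ x
    exact ⟨y, hy.symm⟩
  let j : C →ₐ[F] i.fieldRange := i.codRestrict i.fieldRange.toSubalgebra fun x => ⟨x, rfl⟩
  let e : C ≃ₐ[F] i.fieldRange := AlgEquiv.ofBijective j ⟨j.injective, by
    rintro ⟨_, x, rfl⟩
    exact ⟨x, rfl⟩⟩
  exact Normal.of_algEquiv e.symm

theorem W1_ex (p : ℕ) [NeZero p] (K : Type) [Field K] [NumberField K] :
    ∃ (C : Type) (_ : Field C) (_ : NumberField C) (_ : Algebra K C),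
      IsCyclotomicExtension {p} K C :=
  ⟨CyclotomicField p K, inferInstance, IsCyclotomicExtension.numberField {p} K _, inferInstance,
    inferInstance⟩

theorem exists_cyc (p : ℕ) (hp : p.Prime) (h5 : 5 ≤ p) (K : Type) [Field K] [NumberField K]
    [Algebra F K] (hG : IsGalois F K) (hk : ∃ k : ℕ, Module.finrank F K = p ^ k) :
    ∃ (C : Type) (_ : Field C) (_ : NumberField C) (_ : Algebra F C) (_ : Algebra K C)
      (_ : IsScalarTower F K C) (ζ : C), Cyc F p K C ζ := by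
  classical
  have hpF : Fact p.Prime := ⟨hp⟩
  have hp0 : NeZero p := ⟨hp.ne_zero⟩
  obtain ⟨C, iC, hC, iK, hCy⟩ := W1_ex p K
  let iF : Algebra F C := ((algebraMap K C).comp (algebraMap F K)).toAlgebra
  have hT : IsScalarTower F K C := IsScalarTower.of_algebraMap_eq fun x => rfl
  have hQ : IsScalarTower ℚ F C := IsScalarTower.of_algebraMap_eq' (Subsingleton.elim _ _)
  have hQK : IsScalarTower ℚ F K := IsScalarTower.of_algebraMap_eq' (Subsingleton.elim _ _)
  have hfin : FiniteDimensional F C := Module.Finite.of_restrictScalars_finite ℚ F C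
  have hfinK : FiniteDimensional F K := Module.Finite.of_restrictScalars_finite ℚ F K
  have hN : Normal F C := W1_normal p K C
  have hGC : IsGalois F C := { to_normal := hN }
  have hGKC : IsGalois K C := IsCyclotomicExtension.isGalois {p} K C
  let ζ : C := IsCyclotomicExtension.zeta p K C
  have hζ : IsPrimitiveRoot ζ p := IsCyclotomicExtension.zeta_spec p K C
  have hgen : ∀ σ : C ≃ₐ[K] C, σ ζ = ζ → σ = 1 := by
    intro σ hσ
    have h1 : (σ : C →ₐ[K] C) = AlgHom.id K C := by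
      apply AlgHom.ext_of_adjoin_eq_top (IsCyclotomicExtension.adjoin_primitive_root_eq_top hζ)
      intro x hx
      rw [Set.mem_singleton_iff] at hx
      rw [hx]
      exact hσ
    ext x
    exact congrArg (fun f : C →ₐ[K] C => f x) h1
  have hdeg : Module.finrank K C ∣ p - 1 := by
    rw [← IsGalois.card_aut_eq_finrank K C, ← ZMod.card_units p, ← Nat.card_eq_fintype_card]
    refine Subgroup.card_dvd_of_injective (hζ.autToPow K) ?_
    exact IsPrimitiveRoot.autToPow_injective K hζ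
  -- restriction
  let res : (C ≃ₐ[F] C) →* (K ≃ₐ[F] K) := AlgEquiv.restrictNormalHom K
  have hres : ∀ (s : C ≃ₐ[F] C) (x : K), s (algebraMap K C x) = algebraMap K C (res s x) := fun s x =>
    (AlgEquiv.restrictNormal_commutes s K x).symm
  have hlift : ∀ s : C ≃ₐ[F] C, res s = 1 → ∃ δ : C ≃ₐ[K] C, ∀ x, δ x = s x := by
    intro s hs
    refine ⟨AlgEquiv.ofRingEquiv (f := (s : C ≃+* C)) fun x => ?_, fun x => rfl⟩
    show s (algebraMap K C x) = algebraMap K C x
    rw [hres, hs]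
    rfl
  have hinj1 : ∀ s : C ≃ₐ[F] C, res s = 1 → s ζ = ζ → s = 1 := by
    intro s hs hsζ
    obtain ⟨δ, hδ⟩ := hlift s hs
    have h1 : δ = 1 := hgen δ (by rw [hδ, hsζ])
    ext x
    rw [← hδ, h1]
    rfl
  let ρ : FixZ F ζ →* (K ≃ₐ[F] K) := res.comp (FixZ F ζ).subtype
  have hρ : Function.Injective ρ := by
    rw [injective_iff_map_eq_one]
    intro σ hσ
    exact Subtype.ext (hinj1 _ hσ σ.2)
  -- counting
  have hker : (hζ.autToPow F).ker = FixZ F ζ := by
    ext f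
    rw [MonoidHom.mem_ker, mem_FixZ]
    have h1 := hζ.autToPow_spec F f
    constructor
    · intro h
      rw [h, Units.val_one, ZMod.val_one, pow_one] at h1
      exact h1.symm
    · intro h
      rw [h] at h1
      have h2 : ((hζ.autToPow F f : (ZMod p)ˣ) : ZMod p).val = 1 := by
        refine hζ.pow_inj (ZMod.val_lt _) hp.one_lt ?_
        rw [h1, pow_one]
      apply Units.ext
      rw [Units.val_one]
      have h3 := ZMod.natCast_zmod_val ((hζ.autToPow F f : (ZMod p)ˣ) : ZMod p)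
      rw [h2, Nat.cast_one] at h3
      exact h3.symm
  obtain ⟨k, hk'⟩ := hk
  have hcardK : Nat.card (K ≃ₐ[F] K) = p ^ k := by rw [IsGalois.card_aut_eq_finrank, hk']
  have hcardF : Nat.card (FixZ F ζ) = p ^ k := by
    have h1 := Subgroup.card_mul_index (hζ.autToPow F).ker
    rw [Subgroup.index_ker, hker, IsGalois.card_aut_eq_finrank,
      ← Module.finrank_mul_finrank F K C, hk'] at h1
    have h2 : Nat.card (hζ.autToPow F).range ∣ p - 1 := by
      rw [← ZMod.card_units p, ← Nat.card_eq_fintype_card]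
      exact Subgroup.card_subgroup_dvd_card _
    have h3 : (p ^ k).Coprime (Nat.card (hζ.autToPow F).range) := by
      apply Nat.Coprime.pow_left
      apply Nat.Coprime.coprime_dvd_right h2
      have := (Nat.coprime_self_add_left (m := p - 1) (n := 1)).2 (Nat.coprime_one_left _)
      rwa [Nat.sub_add_cancel hp.one_le] at this
    have h4 : p ^ k ∣ Nat.card (FixZ F ζ) :=
      h3.dvd_of_dvd_mul_right (h1 ▸ Dvd.intro _ rfl)
    have h5 : Nat.card (FixZ F ζ) ≤ p ^ k := by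
      rw [← hcardK]
      exact Nat.card_le_card_of_injective ρ hρ
    exact le_antisymm h5 (Nat.le_of_dvd Nat.card_pos h4)
  have hbij : Function.Bijective ρ := by
    have := Fintype.ofFinite (FixZ F ζ)
    have := Fintype.ofFinite (K ≃ₐ[F] K)
    rw [Fintype.bijective_iff_injective_and_card]
    refine ⟨hρ, ?_⟩
    rw [← Nat.card_eq_fintype_card, ← Nat.card_eq_fintype_card, hcardF, hcardK]
  let e : FixZ F ζ ≃* (K ≃ₐ[F] K) := MulEquiv.ofBijective ρ hbij
  have he : ∀ (σ : FixZ F ζ) (x : K),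
      (σ : C ≃ₐ[F] C) (algebraMap K C x) = algebraMap K C (e σ x) := fun σ x => hres _ _
  refine ⟨C, iC, hC, iF, iK, hT, ζ, hG, hGC, hζ, hgen, hdeg, ⟨k, hk'⟩,
    ⟨e, he⟩, ?_, ?_⟩
  · intro σ δ x
    let δ' : C ≃ₐ[F] C := δ.restrictScalars F
    have h1 : (σ : C ≃ₐ[F] C) * δ' * (σ : C ≃ₐ[F] C)⁻¹ * δ'⁻¹ = 1 := by
      apply hinj1
      · have h2 : res δ' = 1 := by
          ext y
          apply (algebraMap K C).injective
          rw [← hres]
          exact δ.commutes y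
        rw [map_mul, map_mul, map_mul, map_inv, map_inv, h2, inv_one, mul_one, mul_one,
          mul_inv_cancel]
      · have h3 := hζ.autToPow_spec K δ
        have hσ : (σ : C ≃ₐ[F] C) ζ = ζ := σ.2
        have hσ' : (σ : C ≃ₐ[F] C)⁻¹ ζ = ζ := (FixZ F ζ).inv_mem σ.2
        -- δ'⁻¹ ζ = ζ ^ m
        have h5 := hζ.autToPow_spec K δ⁻¹
        set m := ((hζ.autToPow K δ⁻¹ : (ZMod p)ˣ) : ZMod p).val with hm
        have h6 : δ'⁻¹ ζ = ζ ^ m := h5.symm
        show (σ : C ≃ₐ[F] C) (δ' ((σ : C ≃ₐ[F] C)⁻¹ (δ'⁻¹ ζ))) = ζ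
        rw [h6, map_pow, hσ', ← h6]
        show (σ : C ≃ₐ[F] C) (δ' (δ'⁻¹ ζ)) = ζ
        rw [show δ' (δ'⁻¹ ζ) = ζ from AlgEquiv.apply_symm_apply δ' ζ, hσ]
    have h2 : (σ : C ≃ₐ[F] C) * δ' = δ' * (σ : C ≃ₐ[F] C) := by
      rw [mul_inv_eq_one, mul_inv_eq_iff_eq_mul] at h1
      exact h1
    exact congrArg (fun f : C ≃ₐ[F] C => f x) h2
  · intro s
    obtain ⟨σ, hσ⟩ := hbij.2 (res s)
    obtain ⟨δ, hδ⟩ := hlift ((σ : C ≃ₐ[F] C)⁻¹ * s) (by
      rw [map_mul, map_inv]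
      have : res (σ : C ≃ₐ[F] C) = res s := hσ
      rw [this, inv_mul_cancel])
    refine ⟨σ, δ, fun x => ?_⟩
    rw [hδ]
    show s x = (σ : C ≃ₐ[F] C) ((σ : C ≃ₐ[F] C)⁻¹ (s x))
    exact (AlgEquiv.apply_symm_apply (σ : C ≃ₐ[F] C) (s x)).symm

/-- The group FixZ F ζ has p-power order. -/
theorem Cyc.card {p : ℕ} {K C : Type} [Field K] [NumberField K] [Field C] [NumberField C]
    [Algebra F K] [Algebra F C] [Algebra K C] [IsScalarTower F K C] {ζ : C} (h : Cyc F p K C ζ) :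
    Nat.card (FixZ F ζ) = Module.finrank F K := by
  have := h.galK
  obtain ⟨e, -⟩ := h.iso
  rw [Nat.card_congr e.toEquiv, IsGalois.card_aut_eq_finrank]

end H28T
end

-- from Lib.H28T.W14
section

open NumberField IsDedekindDomain

namespace H28T

open H28R
open H55P H55R

variable {F : Type} [Field F] [NumberField F] {G : HeightOneSpectrum (𝓞 F) → Prop}

/-! Chunk W14 (M): the subgroup D. A = N ≃ₐ[F] N (finite), V = the elements fixing C (IntermediateField.fixingSubgroup or a Subgroup defined as the kernel of restrictNormalHom C), H = the elements fixing K (kernel of restrictNormalHom K), S = FixZ F ζN, ζN = algebraMap C N ζ. V <= H, both normal. card V = [N:C] = p^card(FixZ F ζ) (wr_deg).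
card H = [N:K] = [N:C] [C:K], so V.relIndex H = [C:K], a divisor of p - 1, prime to p. V central in H: hc (an element of V is a C-automorphism, an element of H a K-automorphism). card S = p^card * card (FixZ F ζ) (wr_iso) = p^card * [K:F] (Cyc.card), a power of p (Cyc.pow). card A = [N:C] [C:F] = p^card [C:K] [K:F], so S.index = [C:K].
hall: D normal in A, D <= H, A/D isomorphic to S. wr_iso: S is isomorphic to CP p ≀ᵣ FixZ F ζ, and Cyc.iso with wr_congr: to CP p ≀ᵣ (K ≃ₐ[F] K). -/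

/-- The kernel of the restriction: elements acting trivially on the subfield. -/
theorem W14_mem {F₀ L N : Type} [Field F₀] [Field L] [Field N] [Algebra F₀ L] [Algebra F₀ N]
    [Algebra L N] [IsScalarTower F₀ L N] [Normal F₀ L] (σ : N ≃ₐ[F₀] N) :
    σ ∈ (AlgEquiv.restrictNormalHom (F := F₀) (K₁ := N) L).ker ↔
      ∀ x : L, σ (algebraMap L N x) = algebraMap L N x := by
  rw [MonoidHom.mem_ker]
  constructor
  · intro h x
    have h1 := AlgEquiv.restrictNormal_commutes σ L x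
    have h2 : σ.restrictNormal L = 1 := h
    rw [h2] at h1
    exact h1.symm
  · intro h
    apply AlgEquiv.ext
    intro x
    apply (algebraMap L N).injective
    have h1 := AlgEquiv.restrictNormal_commutes σ L x
    rw [h x] at h1
    exact h1

/-- The index of the kernel of the restriction. -/
theorem W14_index {F₀ L N : Type} [Field F₀] [Field L] [Field N] [Algebra F₀ L] [Algebra F₀ N]
    [Algebra L N] [IsScalarTower F₀ L N] [IsGalois F₀ L] [IsGalois F₀ N]
    [FiniteDimensional F₀ L] :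
    (AlgEquiv.restrictNormalHom (F := F₀) (K₁ := N) L).ker.index = Module.finrank F₀ L := by
  have h2 : Nat.card (L ≃ₐ[F₀] L) = Module.finrank F₀ L := IsGalois.card_aut_eq_finrank F₀ L
  have hsurj : Function.Surjective (AlgEquiv.restrictNormalHom (F := F₀) (K₁ := N) L) :=
    AlgEquiv.restrictNormalHom_surjective (F := F₀) (K₁ := L) N
  rw [Subgroup.index_ker, MonoidHom.range_eq_top.mpr hsurj, Subgroup.card_top, h2]

/-- The order of the kernel of the restriction. -/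
theorem W14_card {F₀ L N : Type} [Field F₀] [Field L] [Field N] [Algebra F₀ L] [Algebra F₀ N]
    [Algebra L N] [IsScalarTower F₀ L N] [IsGalois F₀ L] [IsGalois F₀ N]
    [FiniteDimensional F₀ N] [FiniteDimensional F₀ L] :
    Nat.card (AlgEquiv.restrictNormalHom (F := F₀) (K₁ := N) L).ker = Module.finrank L N := by
  have h1 : Nat.card (N ≃ₐ[F₀] N) = Module.finrank F₀ N := IsGalois.card_aut_eq_finrank F₀ N
  have h3 := W14_index (F₀ := F₀) (L := L) (N := N)
  have h4 := (AlgEquiv.restrictNormalHom (F := F₀) (K₁ := N) L).ker.card_mul_index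
  rw [h3, h1, ← Module.finrank_mul_finrank F₀ L N, mul_comm] at h4
  exact Nat.eq_of_mul_eq_mul_left Module.finrank_pos h4

theorem group_D {p : ℕ} (hp : p.Prime) (h5 : 5 ≤ p) {K C N : Type} [Field K] [NumberField K]
    [Field C] [NumberField C] [Field N] [NumberField N] [Algebra F K] [Algebra F C] [Algebra F N]
    [Algebra K C] [Algebra K N] [Algebra C N] [IsScalarTower F K C] [IsScalarTower F C N]
    [IsScalarTower K C N] [IsScalarTower F K N] {ζ : C} (hC : Cyc F p K C ζ) {γ : C} (hγ : γ ≠ 0)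
    {r : FixZ F ζ → N} (hr : WrP p F C N ζ γ r) [Fintype (FixZ F ζ)]
    (hn : ∀ a : FixZ F ζ → ZMod p, a ≠ 0 →
      ¬ ∃ z : C, z ^ p = ∏ g : FixZ F ζ, ((g : C ≃ₐ[F] C) γ) ^ (a g).val)
    (hc : ∀ (τ : N ≃ₐ[C] N) (u : N ≃ₐ[K] N) (x : N), τ (u x) = u (τ x)) :
    ∃ (D : Subgroup (N ≃ₐ[F] N)) (_ : D.Normal),
      (∀ d ∈ D, ∀ x : K, d (algebraMap K N x) = algebraMap K N x) ∧
      Nonempty (((N ≃ₐ[F] N) ⧸ D) ≃* CP p ≀ᵣ (K ≃ₐ[F] K)) := by
  have htN : IsScalarTower ℚ F N := IsScalarTower.of_algebraMap_eq' (Subsingleton.elim _ _)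
  have htC : IsScalarTower ℚ F C := IsScalarTower.of_algebraMap_eq' (Subsingleton.elim _ _)
  have htK : IsScalarTower ℚ F K := IsScalarTower.of_algebraMap_eq' (Subsingleton.elim _ _)
  have hfinN : FiniteDimensional F N := Module.Finite.of_restrictScalars_finite ℚ F N
  have hfinC : FiniteDimensional F C := Module.Finite.of_restrictScalars_finite ℚ F C
  have hfinK : FiniteDimensional F K := Module.Finite.of_restrictScalars_finite ℚ F K
  have hgK : IsGalois F K := hC.galK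
  have hgC : IsGalois F C := hC.gal
  have hgN : IsGalois F N := hr.gal
  have hdeg : Module.finrank C N = p ^ Nat.card (FixZ F ζ) := wr_deg hp hC.prim hγ hr hn
  obtain ⟨hcS, ⟨eS⟩⟩ := wr_iso hp hC.prim hγ hr hdeg
  have hcZ : Nat.card (FixZ F ζ) = Module.finrank F K := hC.card
  obtain ⟨eK, -⟩ := hC.iso
  obtain ⟨eW⟩ := wr_congr (D := CP p) eK
  set V : Subgroup (N ≃ₐ[F] N) := (AlgEquiv.restrictNormalHom (F := F) (K₁ := N) C).ker with hVdef
  set H : Subgroup (N ≃ₐ[F] N) := (AlgEquiv.restrictNormalHom (F := F) (K₁ := N) K).ker with hHdef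
  have hVn : V.Normal := MonoidHom.normal_ker _
  have hHn : H.Normal := MonoidHom.normal_ker _
  have hVH : V ≤ H := by
    intro σ hσ
    rw [hVdef, W14_mem] at hσ
    rw [hHdef, W14_mem]
    intro x
    rw [IsScalarTower.algebraMap_apply K C N x]
    exact hσ _
  have hcV : Nat.card V = Module.finrank C N := W14_card
  have hrel : V.relIndex H = Module.finrank K C := by
    have h1 : V.relIndex H * H.index = V.index := Subgroup.relIndex_mul_index hVH
    have hiV : V.index = Module.finrank F C := W14_index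
    have hiH : H.index = Module.finrank F K := W14_index
    rw [hiV, hiH, ← Module.finrank_mul_finrank F K C, mul_comm] at h1
    exact Nat.eq_of_mul_eq_mul_left Module.finrank_pos h1
  have hcopr : (V.relIndex H).Coprime p := by
    rw [hrel]
    apply Nat.Coprime.symm
    rw [Nat.Prime.coprime_iff_not_dvd hp]
    intro hd
    have h1 : p ∣ p - 1 := hd.trans hC.deg
    have h2 := Nat.le_of_dvd (by omega) h1
    omega
  have hcomm : ∀ v ∈ V, ∀ u ∈ H, v * u = u * v := by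
    intro v hv u hu
    rw [hVdef, W14_mem] at hv
    rw [hHdef, W14_mem] at hu
    let τ : N ≃ₐ[C] N := AlgEquiv.ofRingEquiv (f := (v : N ≃+* N)) hv
    let υ : N ≃ₐ[K] N := AlgEquiv.ofRingEquiv (f := (u : N ≃+* N)) hu
    apply AlgEquiv.ext
    intro x
    exact hc τ υ x
  have hcS' : Nat.card (FixZ F (algebraMap C N ζ)) =
      Module.finrank C N * Module.finrank F K := by
    rw [hcS, hdeg, hcZ]
  have hSi : (FixZ F (algebraMap C N ζ)).index = V.relIndex H := by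
    rw [hrel]
    have h1 := (FixZ F (algebraMap C N ζ)).card_mul_index
    rw [hcS', IsGalois.card_aut_eq_finrank F N, ← Module.finrank_mul_finrank F C N,
      ← Module.finrank_mul_finrank F K C] at h1
    have h2 : 0 < Module.finrank C N * Module.finrank F K :=
      Nat.mul_pos Module.finrank_pos Module.finrank_pos
    apply Nat.eq_of_mul_eq_mul_left h2
    rw [h1]
    ring
  obtain ⟨k, hk⟩ := hC.pow
  obtain ⟨D, hD, hDH, ⟨e⟩⟩ := hall hp V H (FixZ F (algebraMap C N ζ)) hVn hHn hVH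
    ⟨_, hcV.trans hdeg⟩ hcopr hcomm
    ⟨Nat.card (FixZ F ζ) + k, by rw [hcS', hdeg, hk, pow_add]⟩ hSi
  refine ⟨D, hD, ?_, ⟨(e.trans eS).trans eW⟩⟩
  intro d hd
  exact (W14_mem d).mp (hDH hd)

end H28T
end

-- from Lib.H55K.RA1
section

/-! # H55K: Euler factors of degree one -/

open NumberField IsDedekindDomain WeierstrassCurve

namespace H55K.TQ

open H55P (IQ embF eF LF Per IsHecke Pt ac Inert Dec Nm UnitP)
open H35P (WAB Ker tt GoodW IntW)
open H55K.MG (VC Crd)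
open H55K.DD (LF' ef)

/-- Chunk RA1 (S/M). (1 - a X)^-1 (1 + a X)^-1 = (1 - a^2 X^2)^-1 in power series; ofPowerSeries q is a ring homomorphism and ofPowerSeries (q^2) P = ofPowerSeries q (P(X^2)) for geometric series: H55B.I2_ofPS_pow (Lib/H55B/I2.lean), see H55D.LEF_two (Lib/H55D/Q4.lean). -/
theorem ef_sq {q : ℕ} (hq : 1 < q) (a : ℂ) : ef q a * ef q (-a) = ef (q ^ 2) (a ^ 2) := by
  have h := H55B.I2_ofPS_pow (q := q) (k := 2) two_ne_zero (a ^ 2) 0
  have e1 : ((1 - PowerSeries.C (a ^ 2) * PowerSeries.X) * (1 - PowerSeries.C (0 : ℂ) * PowerSeries.X) :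
      PowerSeries ℂ) = 1 - PowerSeries.C (a ^ 2) * PowerSeries.X := by
    rw [map_zero]; ring
  have e2 : ((1 - PowerSeries.C (a ^ 2) * PowerSeries.X ^ 2)⁻¹ *
      (1 - PowerSeries.C (0 : ℂ) * PowerSeries.X ^ 2)⁻¹ : PowerSeries ℂ) =
      (1 - PowerSeries.C a * PowerSeries.X)⁻¹ * (1 - PowerSeries.C (-a) * PowerSeries.X)⁻¹ := by
    rw [← PowerSeries.mul_inv_rev, ← PowerSeries.mul_inv_rev]
    congr 1
    rw [map_zero, map_neg, map_pow]
    ring
  rw [e1, e2] at h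
  unfold ef
  rw [h, map_mul]

/-- Chunk RA1 (S). Value at 1 is 1: see H55D.DQA_LEF_one (Lib/H55D/QA.lean). -/
theorem lf_one {K : Type} [Field K] [NumberField K] (W : WeierstrassCurve K) (w : HeightOneSpectrum (𝓞 K)) :
    LF' W w 1 = 1 := by
  unfold LF' WeierstrassCurve.localEulerFactor
  rw [ArithmeticFunction.intCoe_apply]
  simp [WeierstrassCurve.localPowerSeries]

end H55K.TQ
end

-- from Lib.H55K.RC1
section

/-! # H55K: the trace at inert primes is zero -/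

open NumberField IsDedekindDomain WeierstrassCurve

namespace H55K.TQ

open H55P (IQ embF eF LF Per IsHecke Pt ac Inert Dec Nm UnitP)
open H35P (WAB Ker tt GoodW IntW)
open H55K.MG (VC Crd)

variable {F : Type} [Field F] [NumberField F] [IQ F] {W : WeierstrassCurve ℤ} {m : Ideal (𝓞 F)} {ψ : Ideal (𝓞 F) →*₀ 𝓞 F}

theorem rc1_count {l : ℕ} (hl : l.Prime) (v : HeightOneSpectrum (𝓞 F)) (hv : v.asIdeal = Ideal.span {(l : 𝓞 F)})
    (hΔ : (W⁄(𝓞 F)).Δ ∉ v.asIdeal) {t : ℤ} (ht : t = l + 1 - (Nat.card (W⁄(ZMod l)).toAffine.Point : ℤ)) :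
    ((Nat.card ((W⁄(𝓞 F))⁄(𝓞 F ⧸ v.asIdeal)).toAffine.Point : ℤ)) = l ^ 2 + 1 - (t ^ 2 - 2 * l) := by
  have hfl : Fact l.Prime := ⟨hl⟩
  have hvm : v.asIdeal.IsMaximal := v.isMaximal
  let _i : Field (𝓞 F ⧸ v.asIdeal) := Ideal.Quotient.field v.asIdeal
  have hnK : Nat.card (𝓞 F ⧸ v.asIdeal) = l ^ 2 := by
    have h1 : Nat.card (𝓞 F ⧸ v.asIdeal) = Ideal.absNorm v.asIdeal := rfl
    rw [h1, hv]
    exact Nm_nat l
  have hfin : Finite (𝓞 F ⧸ v.asIdeal) := Nat.finite_of_card_ne_zero (by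
    rw [hnK]
    exact pow_ne_zero _ hl.ne_zero)
  have hchar : CharP (𝓞 F ⧸ v.asIdeal) l := by
    rw [CharP.charP_iff_prime_eq_zero hl]
    have h1 : (l : 𝓞 F) ∈ v.asIdeal := by
      rw [hv]
      exact Ideal.mem_span_singleton_self _
    have h2 := Ideal.Quotient.eq_zero_iff_mem.2 h1
    rw [map_natCast] at h2
    exact h2
  let _i : Algebra (ZMod l) (𝓞 F ⧸ v.asIdeal) := ZMod.algebra _ l
  have hrank : Module.finrank (ZMod l) (𝓞 F ⧸ v.asIdeal) = 2 := by
    have hmf : Module.Finite (ZMod l) (𝓞 F ⧸ v.asIdeal) := Module.Finite.of_finite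
    have h1 := Module.natCard_eq_pow_finrank (K := ZMod l) (V := 𝓞 F ⧸ v.asIdeal)
    rw [hnK, Nat.card_zmod] at h1
    exact (Nat.pow_right_injective hl.two_le h1).symm
  have hΔl : (W⁄(ZMod l)).Δ ≠ 0 := by
    intro h
    apply hΔ
    rw [← Ideal.Quotient.eq_zero_iff_mem]
    have h1 : Ideal.Quotient.mk v.asIdeal (W⁄(𝓞 F)).Δ = algebraMap (ZMod l) (𝓞 F ⧸ v.asIdeal) (W⁄(ZMod l)).Δ := by
      have e1 : (W⁄(𝓞 F)).Δ = algebraMap ℤ (𝓞 F) W.Δ := WeierstrassCurve.map_Δ _ _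
      have e2 : (W⁄(ZMod l)).Δ = algebraMap ℤ (ZMod l) W.Δ := WeierstrassCurve.map_Δ _ _
      rw [e1, e2]
      simp
    rw [h1, h, map_zero]
  have hcurve : (W⁄(𝓞 F))⁄(𝓞 F ⧸ v.asIdeal) = (W⁄(ZMod l))⁄(𝓞 F ⧸ v.asIdeal) := by
    ext <;> simp [WeierstrassCurve.baseChange]
  obtain ⟨s, hs⟩ := IsAlgClosed.exists_pow_nat_eq ((t : ℂ) ^ 2 - 4 * l) (n := 2) (by norm_num)
  have hw := weil (k := ZMod l) (K := 𝓞 F ⧸ v.asIdeal) (W⁄(ZMod l)) hΔl ((t + s) / 2) ((t - s) / 2)
    (by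
      rw [Nat.card_zmod, ht]
      push_cast
      ring) (by
      rw [Nat.card_zmod]
      linear_combination (-1 / 4 : ℂ) * hs)
  rw [hrank, hnK] at hw
  rw [hcurve]
  have h5 : ((Nat.card ((W⁄(ZMod l))⁄(𝓞 F ⧸ v.asIdeal)).toAffine.Point : ℤ) : ℂ) = ((l ^ 2 + 1 - (t ^ 2 - 2 * l) : ℤ) : ℂ) := by
    push_cast
    rw [hw]
    push_cast
    linear_combination (-1 / 2 : ℂ) * hs
  exact_mod_cast h5

/-- Chunk RC1 (M). k = ZMod l, K = 𝓞 F ⧸ v (a field with l^2 elements, a ZMod l algebra). H55K.weil for W⁄(ZMod l), n = 2, α, β the roots: #W(K) = l^2 + 1 - α^2 - β^2 = l^2 + 1 - (t^2 - 2 l), t = l + 1 - #W(ZMod l) an integer. It is Nm (1 - ψ v) (hdeu); ψ v generates v = (l) (hψ.gen, v prime to m), so ψ v = l ε, ε a unit, Nm ε = 1, and Nm (1 - ψ v) =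
1 - l (ε + cj ε) + l^2 (mul_cj). So t^2 = l (2 + T), T = ε + cj ε an integer, |T| ≤ 2 (T^2 ≤ 4 Nm ε). l divides t, so l divides 2 + T, 0 ≤ 2 + T ≤ 4. If 2 + T = 0 then t = 0 and ε = -1 ((ε + 1)^2 = ε^2 + 2 ε + 1 = (T + 2) ε = 0 since ε^2 - T ε + 1 = 0). Otherwise l ≤ 4 and l divides 2 + T: l = 2, 2 + T = 2: T = 0, ε^2 = -1, (1 + ε)^2 = 2 ε: 2 is prime in 𝓞 F
(v = (2)) so it divides 1 + ε, so 4 divides 2 ε, absurd; l = 2, 2 + T = 4: t^2 = 8 absurd; l = 3, 2 + T = 3: T = 1, ε^2 - ε + 1 = 0, (1 + ε)^2 = 3 ε: 3 divides 1 + ε, 9 divides 3 ε, absurd. -/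
theorem inert_F (hψ : H55P.IsHecke m ψ)
    (hdeu : ∀ v : HeightOneSpectrum (𝓞 F), (W⁄(𝓞 F)).Δ ∉ v.asIdeal → ¬ m ≤ v.asIdeal →
      Nat.card ((W⁄(𝓞 F))⁄(𝓞 F ⧸ v.asIdeal)).toAffine.Point = Nm (1 - ψ v.asIdeal)) {l : ℕ} (hl : l.Prime)
    (v : HeightOneSpectrum (𝓞 F)) (hv : v.asIdeal = Ideal.span {(l : 𝓞 F)}) (hΔ : (W⁄(𝓞 F)).Δ ∉ v.asIdeal)
    (hm : ¬ m ≤ v.asIdeal) : Nat.card (W⁄(ZMod l)).toAffine.Point = l + 1 ∧ ψ v.asIdeal = -(l : 𝓞 F) := by
  have hN2 := hdeu v hΔ hm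
  have hgen : Ideal.span {ψ v.asIdeal} = v.asIdeal := hψ.gen _ (DD.d8_cop hm)
  have hl0 : (l : 𝓞 F) ≠ 0 := Nat.cast_ne_zero.2 hl.ne_zero
  have hlp : Prime (l : 𝓞 F) := by
    rw [← Ideal.span_singleton_prime hl0, ← hv]
    exact v.isPrime
  obtain ⟨ε, hε⟩ : ∃ ε : (𝓞 F)ˣ, (l : 𝓞 F) * ε = ψ v.asIdeal := by
    have h1 : Ideal.span {(l : 𝓞 F)} = Ideal.span {ψ v.asIdeal} := by rw [hgen, hv]
    exact Ideal.span_singleton_eq_span_singleton.1 h1
  have hNε : Nm (ε : 𝓞 F) = 1 := by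
    show Ideal.absNorm (Ideal.span {(ε : 𝓞 F)}) = 1
    rw [Ideal.span_singleton_eq_top.2 ε.isUnit, Ideal.absNorm_top]
  have hεc : (ε : 𝓞 F) * cj (ε : 𝓞 F) = 1 := by
    rw [mul_cj, hNε, Nat.cast_one]
  obtain ⟨T, hT⟩ : ∃ T : ℤ, T = 2 - (Nm (1 - (ε : 𝓞 F)) : ℤ) := ⟨_, rfl⟩
  have hTe : (T : 𝓞 F) = ε + cj (ε : 𝓞 F) := by
    rw [hT]
    push_cast
    rw [← mul_cj, map_sub, map_one]
    linear_combination -hεc
  have hTN : ((Nm (1 - ψ v.asIdeal) : ℤ)) = 1 - l * T + l ^ 2 := by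
    have h1 : (((Nm (1 - ψ v.asIdeal) : ℤ)) : 𝓞 F) = ((1 - l * T + l ^ 2 : ℤ) : 𝓞 F) := by
      push_cast
      rw [← mul_cj, map_sub, map_one, ← hε, map_mul, map_natCast, hTe]
      linear_combination (l : 𝓞 F) ^ 2 * hεc
    exact_mod_cast h1
  have hT4 : T ^ 2 ≤ 4 := by
    have h1 : ((T : ℝ)) = 2 * (eF F (ε : 𝓞 F)).re := by
      have h2 := congrArg (eF F) hTe
      rw [map_intCast, map_add, e_cj, Complex.add_conj] at h2
      exact_mod_cast h2
    have h3 : ‖eF F (ε : 𝓞 F)‖ ^ 2 = 1 := by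
      rw [← H55P.Nm_eq, hNε, Nat.cast_one]
    have h4 : ‖eF F (ε : 𝓞 F)‖ = 1 := by
      have h5 := norm_nonneg (eF F (ε : 𝓞 F))
      nlinarith
    have h6 := Complex.abs_re_le_norm (eF F (ε : 𝓞 F))
    rw [h4, abs_le] at h6
    have h7 : (T : ℝ) ^ 2 ≤ 4 := by
      rw [h1]
      nlinarith
    exact_mod_cast h7
  -- the number of points
  obtain ⟨t, ht⟩ : ∃ t : ℤ, t = l + 1 - (Nat.card (W⁄(ZMod l)).toAffine.Point : ℤ) := ⟨_, rfl⟩
  have hcount : ((Nm (1 - ψ v.asIdeal) : ℤ)) = l ^ 2 + 1 - (t ^ 2 - 2 * l) := by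
    rw [← hN2]
    exact rc1_count hl v hv hΔ ht
  have hkey : t ^ 2 = l * (2 + T) := by
    rw [hTN] at hcount
    linear_combination hcount
  have hlZ : Prime (l : ℤ) := Nat.prime_iff_prime_int.1 hl
  have hlt : (l : ℤ) ∣ t := hlZ.dvd_of_dvd_pow (n := 2) ⟨_, hkey⟩
  obtain ⟨t', ht'⟩ := hlt
  have hl2 : (2 : ℤ) ≤ l := by exact_mod_cast hl.two_le
  have hc : 2 + T = l * t' ^ 2 := by
    have h1 : (l : ℤ) * (2 + T) = l * (l * t' ^ 2) := by
      rw [← hkey, ht']
      ring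
    exact mul_left_cancel₀ (by omega) h1
  have hTb : -2 ≤ T ∧ T ≤ 2 := by constructor <;> nlinarith
  have hc2 : t' ^ 2 ≤ 2 := by nlinarith [hTb.2, sq_nonneg t']
  have ht'b : -1 ≤ t' ∧ t' ≤ 1 := by constructor <;> nlinarith
  have hqe : (1 + (ε : 𝓞 F)) ^ 2 = ((2 + T : ℤ) : 𝓞 F) * ε := by
    push_cast
    rw [hTe]
    linear_combination -hεc
  have h01 : t' = 0 ∨ t' ^ 2 = 1 := by
    have h2 : t' = -1 ∨ t' = 0 ∨ t' = 1 := by omega
    rcases h2 with h2 | h2 | h2
    · right; rw [h2]; norm_num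
    · left; exact h2
    · right; rw [h2]; norm_num
  rcases h01 with h0 | h1
  · have ht0 : t = 0 := by rw [ht', h0, mul_zero]
    have hT2 : 2 + T = 0 := by rw [hc, h0]; ring
    rw [hT2, Int.cast_zero, zero_mul] at hqe
    have h3 : (ε : 𝓞 F) = -1 := by
      have h4 := pow_eq_zero_iff (two_ne_zero) |>.1 hqe
      linear_combination h4
    refine ⟨?_, ?_⟩
    · have h5 : (Nat.card (W⁄(ZMod l)).toAffine.Point : ℤ) = l + 1 := by omega
      exact_mod_cast h5
    · rw [← hε, h3]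
      ring
  · exfalso
    rw [hc, h1, mul_one] at hqe
    push_cast at hqe
    have h2 : (l : 𝓞 F) ∣ (1 + (ε : 𝓞 F)) := hlp.dvd_of_dvd_pow (n := 2) ⟨_, hqe⟩
    obtain ⟨z, hz⟩ := h2
    rw [hz] at hqe
    have h3 : (l : 𝓞 F) * ((l : 𝓞 F) * z ^ 2) = l * ε := by
      rw [← hqe]
      ring
    have h4 := mul_left_cancel₀ hl0 h3
    exact hlp.not_isUnit (isUnit_of_dvd_unit ⟨z ^ 2, h4.symm⟩ ε.isUnit)

end H55K.TQ
end

-- from Lib.H55K.RC2
section

/-! # H55K: the trace at inert primes is zero -/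

open NumberField IsDedekindDomain WeierstrassCurve

namespace H55K.TQ

open H55P (IQ embF eF LF Per IsHecke Pt ac Inert Dec Nm UnitP)
open H35P (WAB Ker tt GoodW IntW)
open H55K.MG (VC Crd)

variable {F : Type} [Field F] [NumberField F] [IQ F] {W : WeierstrassCurve ℤ} {m : Ideal (𝓞 F)} {ψ : Ideal (𝓞 F) →*₀ 𝓞 F}

/-- The points of a curve over isomorphic fields. -/
theorem rc2_card {A B : Type} [CommRing A] [CommRing B] (W : WeierstrassCurve A) (f : A ≃+* B) :
    Nat.card ((W.map (f : A →+* B)).toAffine.Point) = Nat.card W.toAffine.Point := by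
  have h : ∀ x y, (W.map (f : A →+* B)).toAffine.Nonsingular ((f : A →+* B) x) ((f : A →+* B) y) ↔
      W.toAffine.Nonsingular x y := fun x y =>
    WeierstrassCurve.Affine.map_nonsingular (W := W.toAffine) (f := (f : A →+* B)) f.injective x y
  have h' : ∀ x y, (W.map (f : A →+* B)).toAffine.Nonsingular x y →
      W.toAffine.Nonsingular (f.symm x) (f.symm y) := by
    intro x y hxy
    rw [← h]
    show (W.map (f : A →+* B)).toAffine.Nonsingular (f (f.symm x)) (f (f.symm y))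
    rw [f.apply_symm_apply, f.apply_symm_apply]
    exact hxy
  have hsome : ∀ {R : Type} [CommRing R] (V : WeierstrassCurve.Affine R) {x y x' y' : R}
      (hx : x = x') (hy : y = y') (h1 : V.Nonsingular x y) (h2 : V.Nonsingular x' y'),
      WeierstrassCurve.Affine.Point.some x y h1 = WeierstrassCurve.Affine.Point.some x' y' h2 := by
    intro R _ V x y x' y' hx hy h1 h2
    subst hx
    subst hy
    rfl
  refine Nat.card_congr ?_
  refine
    { toFun := fun P => match P with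
        | .zero => .zero
        | .some x y hxy => .some (f.symm x) (f.symm y) (h' x y hxy)
      invFun := fun P => match P with
        | .zero => .zero
        | .some x y hxy => .some (f x) (f y) ((h x y).2 hxy)
      left_inv := ?_
      right_inv := ?_ }
  · rintro (_ | ⟨x, y, hxy⟩)
    · rfl
    · exact hsome _ (f.apply_symm_apply x) (f.apply_symm_apply y) _ _
  · rintro (_ | ⟨x, y, hxy⟩)
    · rfl
    · exact hsome _ (f.symm_apply_apply x) (f.symm_apply_apply y) _ _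

theorem rc2_mem {I : Ideal (𝓞 F)} {x : 𝓞 F} :
    x ∈ I.map ((cj : 𝓞 F ≃+* 𝓞 F) : 𝓞 F →+* 𝓞 F) ↔ cj x ∈ I := by
  rw [Ideal.map_comap_of_equiv, Ideal.mem_comap]
  have : (cj : 𝓞 F ≃+* 𝓞 F).symm x = cj x := by
    rw [RingEquiv.symm_apply_eq, cj_cj]
  rw [this]

/-- The conjugate prime. -/
noncomputable def rc2_v (v : HeightOneSpectrum (𝓞 F)) : HeightOneSpectrum (𝓞 F) where
  asIdeal := v.asIdeal.map ((cj : 𝓞 F ≃+* 𝓞 F) : 𝓞 F →+* 𝓞 F)
  isPrime := by
    have := v.isPrime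
    exact Ideal.map_isPrime_of_equiv (cj : 𝓞 F ≃+* 𝓞 F)
  ne_bot := by
    intro h
    obtain ⟨x, hx, hx0⟩ := Submodule.exists_mem_ne_zero_of_ne_bot v.ne_bot
    have h1 : cj x ∈ v.asIdeal.map ((cj : 𝓞 F ≃+* 𝓞 F) : 𝓞 F →+* 𝓞 F) := Ideal.mem_map_of_mem _ hx
    rw [h, Ideal.mem_bot] at h1
    exact hx0 ((map_eq_zero_iff (cj : 𝓞 F ≃+* 𝓞 F) (cj : 𝓞 F ≃+* 𝓞 F).injective).1 h1)

theorem rc2_disc (W : WeierstrassCurve ℤ) : (cj : 𝓞 F ≃+* 𝓞 F) (W⁄(𝓞 F)).Δ = (W⁄(𝓞 F)).Δ := by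
  have h : (W⁄(𝓞 F)).Δ = ((W.Δ : ℤ) : 𝓞 F) := by
    show (W.map (algebraMap ℤ (𝓞 F))).Δ = _
    rw [WeierstrassCurve.map_Δ, eq_intCast]
  rw [h, cj_int]

theorem rc2_ncop {v : HeightOneSpectrum (𝓞 F)} (hv : m ≤ v.asIdeal) : ¬ IsCoprime v.asIdeal m := by
  intro hc
  have h6 := Ideal.isCoprime_iff_sup_eq.1 hc
  rw [sup_eq_left.2 hv] at h6
  exact v.isPrime.ne_top h6

/-- The case of a prime ideal. -/
theorem rc2_prime (hψ : H55P.IsHecke m ψ)
    (hdeu : ∀ v : HeightOneSpectrum (𝓞 F), (W⁄(𝓞 F)).Δ ∉ v.asIdeal → ¬ m ≤ v.asIdeal →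
      Nat.card ((W⁄(𝓞 F))⁄(𝓞 F ⧸ v.asIdeal)).toAffine.Point = Nm (1 - ψ v.asIdeal))
    (hsupp : ∀ v : HeightOneSpectrum (𝓞 F), (W⁄(𝓞 F)).Δ ∈ v.asIdeal ↔ m ≤ v.asIdeal)
    (hram : ∀ v : HeightOneSpectrum (𝓞 F), (∀ a : 𝓞 F, a - cj a ∈ v.asIdeal) → (W⁄(𝓞 F)).Δ ∈ v.asIdeal)
    (v : HeightOneSpectrum (𝓞 F)) : ψ (rc2_v v).asIdeal = cj (ψ v.asIdeal) := by
  have hΔ : (W⁄(𝓞 F)).Δ ∈ (rc2_v v).asIdeal ↔ (W⁄(𝓞 F)).Δ ∈ v.asIdeal := by
    show (W⁄(𝓞 F)).Δ ∈ v.asIdeal.map ((cj : 𝓞 F ≃+* 𝓞 F) : 𝓞 F →+* 𝓞 F) ↔ _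
    rw [rc2_mem, rc2_disc]
  by_cases hm : m ≤ v.asIdeal
  · have hm' : m ≤ (rc2_v v).asIdeal := (hsupp _).1 (hΔ.2 ((hsupp _).2 hm))
    rw [hψ.zero _ (rc2_ncop hm), hψ.zero _ (rc2_ncop hm'), map_zero]
  have hd : (W⁄(𝓞 F)).Δ ∉ v.asIdeal := fun h => hm ((hsupp _).1 h)
  have hd' : (W⁄(𝓞 F)).Δ ∉ (rc2_v v).asIdeal := fun h => hd (hΔ.1 h)
  have hm' : ¬ m ≤ (rc2_v v).asIdeal := fun h => hd' ((hsupp _).2 h)
  have g1 : Ideal.span {ψ v.asIdeal} = v.asIdeal := hψ.gen _ (H55K.DD.d8_cop hm)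
  have g2 : Ideal.span {ψ (rc2_v v).asIdeal} = (rc2_v v).asIdeal := hψ.gen _ (H55K.DD.d8_cop hm')
  have g3 : (rc2_v v).asIdeal = Ideal.span {cj (ψ v.asIdeal)} := by
    show v.asIdeal.map ((cj : 𝓞 F ≃+* 𝓞 F) : 𝓞 F →+* 𝓞 F) = _
    conv_lhs => rw [← g1]
    rw [Ideal.map_span, Set.image_singleton]
    rfl
  set z : 𝓞 F := ψ v.asIdeal with hz
  set z' : 𝓞 F := ψ (rc2_v v).asIdeal with hz'
  -- the numbers of points
  have hN : Nm (1 - z) = Nm (1 - z') := by
    rw [← hdeu v hd hm, ← hdeu (rc2_v v) hd' hm']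
    set f : (𝓞 F ⧸ v.asIdeal) ≃+* (𝓞 F ⧸ (rc2_v v).asIdeal) :=
      Ideal.quotientEquiv v.asIdeal (rc2_v v).asIdeal (cj : 𝓞 F ≃+* 𝓞 F) rfl
    have e : ((W⁄(𝓞 F))⁄(𝓞 F ⧸ (rc2_v v).asIdeal)) =
        ((W⁄(𝓞 F))⁄(𝓞 F ⧸ v.asIdeal)).map (f : (𝓞 F ⧸ v.asIdeal) →+* (𝓞 F ⧸ (rc2_v v).asIdeal)) := by
      show (W.map (algebraMap ℤ (𝓞 F))).map (algebraMap (𝓞 F) (𝓞 F ⧸ (rc2_v v).asIdeal)) =
        ((W.map (algebraMap ℤ (𝓞 F))).map (algebraMap (𝓞 F) (𝓞 F ⧸ v.asIdeal))).map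
          (f : (𝓞 F ⧸ v.asIdeal) →+* (𝓞 F ⧸ (rc2_v v).asIdeal))
      rw [WeierstrassCurve.map_map, WeierstrassCurve.map_map, WeierstrassCurve.map_map]
      congr 1
      exact Subsingleton.elim _ _
    rw [e, rc2_card]
  have hNz : Nm z = Nm z' := by
    have h1 : Ideal.span {z'} = Ideal.span {cj z} := g2.trans g3
    rw [← Nm_cj z]
    unfold H55P.Nm
    rw [h1]
  have k1 : z * cj z = z' * cj z' := by rw [mul_cj, mul_cj, hNz]
  have k2 : z + cj z = z' + cj z' := by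
    have h1 : (1 - z) * (1 - cj z) = (1 - z') * (1 - cj z') := by
      have e1 := mul_cj (1 - z)
      have e2 := mul_cj (1 - z')
      rw [map_sub, map_one] at e1 e2
      rw [e1, e2, hN]
    linear_combination k1 - h1
  have k3 : (z' - z) * (z' - cj z) = 0 := by
    linear_combination (-z') * k2 + k1
  rcases mul_eq_zero.1 k3 with h | h
  swap
  · exact sub_eq_zero.1 h
  have hzz : z' = z := sub_eq_zero.1 h
  have hvv : (rc2_v v).asIdeal = v.asIdeal := by rw [← g2, hzz, g1]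
  have hvcj : ∀ x : 𝓞 F, x ∈ v.asIdeal → cj x ∈ v.asIdeal := by
    intro x hx
    have h1 : cj x ∈ (rc2_v v).asIdeal := Ideal.mem_map_of_mem _ hx
    rwa [hvv] at h1
  -- the residue field
  have hmax := v.isMaximal
  letI : Field (𝓞 F ⧸ v.asIdeal) := Ideal.Quotient.field _
  have hfin : Finite (𝓞 F ⧸ v.asIdeal) := Ideal.finiteQuotientOfFreeOfNeBot _ v.ne_bot
  obtain ⟨l, hchar⟩ := CharP.exists (𝓞 F ⧸ v.asIdeal)
  have hl : l.Prime := CharP.char_is_prime (𝓞 F ⧸ v.asIdeal) l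
  have hlv : (l : 𝓞 F) ∈ v.asIdeal := by
    rw [← Ideal.Quotient.eq_zero_iff_mem, map_natCast]
    exact CharP.cast_eq_zero _ l
  have hNv : Nm z = Nat.card (𝓞 F ⧸ v.asIdeal) := by
    unfold H55P.Nm
    rw [g1]
    rfl
  have hzl : z ∣ (l : 𝓞 F) := by
    rw [← Ideal.mem_span_singleton, g1]
    exact hlv
  obtain ⟨y, hy⟩ := hzl
  have hprod : Nm z * Nm y = l ^ 2 := by
    rw [← Nm_mul, ← hy, Nm_nat]
  have hz1 : Nm z ≠ 1 := by
    rw [hNv]
    intro h1
    have := Finite.one_lt_card (α := 𝓞 F ⧸ v.asIdeal)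
    omega
  obtain ⟨i, hi, hNi⟩ := (Nat.dvd_prime_pow hl).1 (Dvd.intro _ hprod)
  interval_cases i
  · exact absurd hNi (by rw [pow_zero]; exact hz1)
  · -- the residue field is the prime field
    exfalso
    rw [pow_one] at hNi
    have hinj := ZMod.castHom_injective (n := l) (𝓞 F ⧸ v.asIdeal)
    have hbij := hinj.bijective_of_nat_card_le (by rw [← hNv, hNi, Nat.card_zmod])
    apply hd
    apply hram
    intro a
    obtain ⟨b, hb⟩ := hbij.2 (Ideal.Quotient.mk v.asIdeal a)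
    obtain ⟨c, rfl⟩ : ∃ c : ℕ, (c : ZMod l) = b := by
      have : NeZero l := ⟨hl.ne_zero⟩
      exact ⟨b.val, ZMod.natCast_zmod_val b⟩
    have h1 : a - (c : 𝓞 F) ∈ v.asIdeal := by
      rw [← Ideal.Quotient.mk_eq_mk_iff_sub_mem, ← hb, map_natCast, map_natCast]
    have h2 := hvcj _ h1
    rw [map_sub, cj_nat] at h2
    have h3 := sub_mem h1 h2
    have e : a - (c : 𝓞 F) - (cj a - (c : 𝓞 F)) = a - cj a := by ring
    rwa [e] at h3
  · -- inert
    have hy1 : Nm y = 1 := by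
      rw [hNi] at hprod
      exact Nat.eq_of_mul_eq_mul_left (pow_pos hl.pos 2) (by rw [hprod, mul_one])
    have hyu : IsUnit y := by
      have h1 : Ideal.span {y} = ⊤ := Ideal.absNorm_eq_one_iff.1 hy1
      exact Ideal.span_singleton_eq_top.1 h1
    have hvl : v.asIdeal = Ideal.span {(l : 𝓞 F)} := by
      rw [← g1, hy]
      exact (Ideal.span_singleton_mul_right_unit hyu z).symm
    have h2 := (inert_F hψ hdeu hl v hvl hd hm).2
    rw [hzz, hz, h2, map_neg, cj_nat]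

/-- Chunk RC2 (M). By multiplicativity (induction on prime factors; J = 0: both 0) J = v prime. If m ≤ v: Δ in v (hsupp), Δ is an integer, so Δ is in cj v, m ≤ cj v, both values are 0 (hψ.zero). Otherwise both are prime to m; z = ψ v, z' = ψ (cj v), span {z} = v, span {z'} = cj v. The residue fields are isomorphic by cj and W has integral coefficients, so the numbers of points are equal
(H55P.pz10_card): Nm (1 - z) = Nm (1 - z') (hdeu), Nm z = absNorm v = Nm z', so z + cj z = z' + cj z', z cj z = z' cj z': z' = z or z' = cj z. If z' = z then cj v = v: v contains the rational prime l; either v = (l) and z = -l (inert_F) so z' = z = cj z; or 𝓞 F ⧸ v has l elements, every a is congruent to an integer b modulo v and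
cj a is congruent to b modulo cj v = v, so a - cj a is in v for all a: hram gives Δ in v, m ≤ v: contradiction. -/
theorem psi_cj (hψ : H55P.IsHecke m ψ)
    (hdeu : ∀ v : HeightOneSpectrum (𝓞 F), (W⁄(𝓞 F)).Δ ∉ v.asIdeal → ¬ m ≤ v.asIdeal →
      Nat.card ((W⁄(𝓞 F))⁄(𝓞 F ⧸ v.asIdeal)).toAffine.Point = Nm (1 - ψ v.asIdeal))
    (hsupp : ∀ v : HeightOneSpectrum (𝓞 F), (W⁄(𝓞 F)).Δ ∈ v.asIdeal ↔ m ≤ v.asIdeal)
    (hram : ∀ v : HeightOneSpectrum (𝓞 F), (∀ a : 𝓞 F, a - cj a ∈ v.asIdeal) → (W⁄(𝓞 F)).Δ ∈ v.asIdeal)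
    (J : Ideal (𝓞 F)) : ψ (J.map ((cj : 𝓞 F ≃+* 𝓞 F) : 𝓞 F →+* 𝓞 F)) = cj (ψ J) := by
  induction J using UniqueFactorizationMonoid.induction_on_prime with
  | h₁ =>
    have e : (0 : Ideal (𝓞 F)).map ((cj : 𝓞 F ≃+* 𝓞 F) : 𝓞 F →+* 𝓞 F) = 0 := by
      rw [Ideal.zero_eq_bot, Ideal.map_bot]
    rw [e, map_zero, map_zero]
  | h₂ x hx =>
    rw [Ideal.isUnit_iff.1 hx, Ideal.map_top, ← Ideal.one_eq_top, map_one, map_one]
  | h₃ a p ha hp ih =>
    rw [Ideal.map_mul, map_mul, map_mul, map_mul, ih]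
    congr 1
    exact rc2_prime hψ hdeu hsupp hram ⟨p, Ideal.isPrime_of_prime hp, hp.ne_zero⟩

end H55K.TQ
end

-- from Lib.H55K.RB2
section

/-! # H55K: primes in the quadratic extension -/

open NumberField IsDedekindDomain WeierstrassCurve

namespace H55K.TQ

open H55P (IQ embF eF LF Per IsHecke Pt ac Inert Dec Nm UnitP)
open H35P (WAB Ker tt GoodW IntW)
open H55K.MG (VC Crd)

variable {F K₀ K : Type} [Field F] [NumberField F] [IQ F] [Field K₀] [NumberField K₀] [Field K] [NumberField K]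
  [Algebra F K] [Algebra K₀ K]

omit F K₀ K in
theorem rb2_roots {k k' : Type} [Field k] [Field k'] [Fintype k] {q : ℕ} (φ : k →+* k')
    (h1 : ∀ x : k, x ^ q = x) (h2 : Fintype.card k = q) (hq : 1 < q) (y : k') (hy : y ^ q = y) :
    ∃ x : k, φ x = y := by
  classical
  obtain ⟨p, hp⟩ : ∃ p : Polynomial k', p = Polynomial.X ^ q - Polynomial.X := ⟨_, rfl⟩
  have hd : p.natDegree = q := by
    rw [hp]
    exact FiniteField.X_pow_card_sub_X_natDegree_eq k' hq
  have hp0 : p ≠ 0 := by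
    intro h0
    rw [h0, Polynomial.natDegree_zero] at hd
    omega
  have hr : ∀ y : k', y ^ q = y → y ∈ p.roots.toFinset := by
    intro y hy
    rw [Multiset.mem_toFinset, Polynomial.mem_roots hp0, Polynomial.IsRoot.def, hp]
    simp [hy]
  have hsub : Finset.univ.image φ ⊆ p.roots.toFinset := by
    intro y hy
    obtain ⟨x, -, rfl⟩ := Finset.mem_image.1 hy
    exact hr _ (by rw [← map_pow, h1])
  have hcard : p.roots.toFinset.card ≤ (Finset.univ.image φ).card := by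
    rw [Finset.card_image_of_injective _ φ.injective, Finset.card_univ, h2]
    refine (Multiset.toFinset_card_le _).trans ?_
    rw [← hd]
    exact Polynomial.card_roots' p
  have heq := Finset.eq_of_subset_of_card_le hsub hcard
  have h3 := hr y hy
  rw [← heq] at h3
  obtain ⟨x, -, hx⟩ := Finset.mem_image.1 h3
  exact ⟨x, hx⟩

/-- Chunk RB2 (M). Let w be the only prime above v, N w = (N v)^2, l the rational prime below, not ramified in F in the sense h. Then l is inert in F and N v = l^f with f odd: v_F = w ∩ 𝓞 F. τ w = w and τ = cj on 𝓞 F, so cj v_F = v_F. 𝓞 F ⧸ v_F has l or l^2 elements (degree 2). If it has l elements then every a in 𝓞 F is congruent to an integer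
modulo v_F, so a - cj a is in v_F for all a: against h. So it has l^2 elements and v_F = (l). If f were even, the field 𝓞 K₀ ⧸ v (l^f elements) would contain a root of the polynomial x^2 - t x + n (t = a + cj a, n = a cj a integers) of every a in 𝓞 F (it contains the field with l^2 elements); take a with a not congruent to an integer modulo (l): there is z in 𝓞 K₀ with
z^2 - t z + n in v, so (z - a)(z - cj a) is in w: z - a or z - cj a in w, so a (or cj a) is congruent to z modulo w, and τ z = z gives a - cj a in w for this a, hence the class of a in 𝓞 F ⧸ v_F is fixed by the conjugation; l^2 elements, generated by a over the prime field: the conjugation acts trivially on 𝓞 F ⧸ v_F, against h. -/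
theorem quad_inert (hQ : QuadG F K₀ K) (v : HeightOneSpectrum (𝓞 K₀)) (w : HeightOneSpectrum (𝓞 K))
    (hN : Ideal.absNorm w.asIdeal = Ideal.absNorm v.asIdeal ^ 2)
    (hw : ∀ w' : HeightOneSpectrum (𝓞 K), v.asIdeal = w'.asIdeal.under (𝓞 K₀) ↔ w' = w)
    (h : ¬ ∀ a : 𝓞 F, algebraMap (𝓞 F) (𝓞 K) (a - cj a) ∈ w.asIdeal) {l f : ℕ} (hl : l.Prime)
    (hf : Ideal.absNorm v.asIdeal = l ^ f) :
    Odd f ∧ w.asIdeal.under (𝓞 F) = Ideal.span {(l : 𝓞 F)} := by
  classical
  obtain ⟨τ, hτ⟩ := hQ.tau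
  obtain ⟨T, hT⟩ : ∃ T : 𝓞 K ≃+* 𝓞 K, ∀ x : 𝓞 K, ((T x : 𝓞 K) : K) = τ (x : K) :=
    ⟨RingOfIntegers.mapRingEquiv (τ : K ≃+* K), fun x => rfl⟩
  have hTF : ∀ a : 𝓞 F, T (algebraMap (𝓞 F) (𝓞 K) a) = algebraMap (𝓞 F) (𝓞 K) (cj a) := by
    intro a
    apply RingOfIntegers.ext
    rw [hT]
    exact hτ a
  have hTK : ∀ z : 𝓞 K₀, T (algebraMap (𝓞 K₀) (𝓞 K) z) = algebraMap (𝓞 K₀) (𝓞 K) z := by
    intro z
    apply RingOfIntegers.ext
    rw [hT]
    exact τ.commutes (z : K₀)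
  have hv0 : v.asIdeal = w.asIdeal.under (𝓞 K₀) := (hw w).2 rfl
  have hwT : ∀ x : 𝓞 K, T x ∈ w.asIdeal ↔ x ∈ w.asIdeal := by
    have hp : (w.asIdeal.comap (T : 𝓞 K →+* 𝓞 K)).IsPrime := Ideal.comap_isPrime _ _
    have hb : w.asIdeal.comap (T : 𝓞 K →+* 𝓞 K) ≠ ⊥ := by
      intro h0
      obtain ⟨x, hx, hx0⟩ := Submodule.exists_mem_ne_zero_of_ne_bot w.ne_bot
      have h1 : T.symm x ∈ w.asIdeal.comap (T : 𝓞 K →+* 𝓞 K) := by
        rw [Ideal.mem_comap]
        show T (T.symm x) ∈ w.asIdeal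
        rw [T.apply_symm_apply]
        exact hx
      rw [h0] at h1
      have h2 : T.symm x = 0 := h1
      exact hx0 ((map_eq_zero_iff T.symm T.symm.injective).1 h2)
    have h1 := (hw ⟨w.asIdeal.comap (T : 𝓞 K →+* 𝓞 K), hp, hb⟩).1 (by
      rw [hv0]
      ext z
      rw [Ideal.under_def, Ideal.under_def, Ideal.mem_comap, Ideal.mem_comap, Ideal.mem_comap]
      show _ ↔ T (algebraMap (𝓞 K₀) (𝓞 K) z) ∈ w.asIdeal
      rw [hTK])
    intro x
    have h2 := congrArg HeightOneSpectrum.asIdeal h1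
    have h3 : x ∈ w.asIdeal.comap (T : 𝓞 K →+* 𝓞 K) ↔ x ∈ w.asIdeal := by
      rw [show w.asIdeal.comap (T : 𝓞 K →+* 𝓞 K) = w.asIdeal from h2]
    exact h3
  obtain ⟨P, hP⟩ : ∃ P, P = w.asIdeal.under (𝓞 F) := ⟨_, rfl⟩
  have hPm : ∀ a : 𝓞 F, a ∈ P ↔ algebraMap (𝓞 F) (𝓞 K) a ∈ w.asIdeal := by
    intro a
    rw [hP, Ideal.under_def, Ideal.mem_comap]
  have hPp : P.IsPrime := by
    rw [hP]
    infer_instance
  have hPc : ∀ a : 𝓞 F, cj a ∈ P ↔ a ∈ P := by
    intro a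
    rw [hPm, hPm, ← hTF, hwT]
  -- l in w
  have hlv : (l : 𝓞 K₀) ∈ v.asIdeal := by
    have h1 := Ideal.absNorm_mem v.asIdeal
    rw [hf, Nat.cast_pow] at h1
    exact v.isPrime.mem_of_pow_mem _ h1
  have hlP : (l : 𝓞 F) ∈ P := by
    rw [hPm, map_natCast]
    rw [hv0, Ideal.under_def, Ideal.mem_comap, map_natCast] at hlv
    exact hlv
  have hint : ∀ n : ℤ, (n : 𝓞 F) ∈ P → (l : ℤ) ∣ n := by
    intro n hn
    by_contra hnd
    have hc : IsCoprime (l : ℤ) n := (Nat.prime_iff_prime_int.1 hl).coprime_iff_not_dvd.2 hnd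
    obtain ⟨a, b, hab⟩ := hc
    apply hPp.ne_top
    rw [Ideal.eq_top_iff_one]
    have h1 : ((a * l + b * n : ℤ) : 𝓞 F) ∈ P := by
      push_cast
      exact P.add_mem (P.mul_mem_left _ hlP) (P.mul_mem_left _ hn)
    rw [hab] at h1
    exact_mod_cast h1
  have htr : ∀ x : 𝓞 F, ∃ n : ℤ, x + cj x = n := by
    intro x
    refine ⟨(Nm (1 + x) : ℤ) - Nm x - 1, ?_⟩
    have h1 := mul_cj (1 + x)
    have h2 := mul_cj x
    rw [map_add, map_one] at h1
    push_cast
    rw [← h1, ← h2]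
    ring
  push Not at h
  obtain ⟨a₀, ha₀⟩ := h
  rw [← hPm] at ha₀
  have hlmul : ∀ x : 𝓞 F, x + cj x ∈ P → ∃ y : 𝓞 F, x + cj x = l * y := by
    intro x hx
    obtain ⟨n, hn⟩ := htr x
    rw [hn] at hx
    obtain ⟨k, hk⟩ := hint n hx
    exact ⟨k, by rw [hn, hk]; push_cast; ring⟩
  have hPl : P = Ideal.span {(l : 𝓞 F)} := by
    apply le_antisymm
    · intro b hb
      have hb' := (hPc b).2 hb
      obtain ⟨y1, hy1⟩ := hlmul b (P.add_mem hb hb')
      obtain ⟨y2, hy2⟩ := hlmul (b * a₀) (P.add_mem (P.mul_mem_right _ hb) (by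
        rw [map_mul]; exact P.mul_mem_right _ hb'))
      rw [map_mul] at hy2
      have h1 : b * (a₀ - cj a₀) = l * (y2 - cj a₀ * y1) := by linear_combination hy2 - cj a₀ * hy1
      have h2 : ¬ (l : ℤ) ∣ (Nm (a₀ - cj a₀) : ℤ) := by
        intro hd
        obtain ⟨k, hk⟩ := hd
        have h3 : ((Nm (a₀ - cj a₀) : ℤ) : 𝓞 F) ∈ P := by
          rw [hk]
          push_cast
          exact P.mul_mem_right _ hlP
        have h4 : (a₀ - cj a₀) * cj (a₀ - cj a₀) ∈ P := by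
          rw [mul_cj]
          exact_mod_cast h3
        rcases hPp.mem_or_mem h4 with h5 | h5
        · exact ha₀ h5
        · exact ha₀ ((hPc _).1 h5)
      obtain ⟨c, d, hcd⟩ := (Nat.prime_iff_prime_int.1 hl).coprime_iff_not_dvd.2 h2
      rw [Ideal.mem_span_singleton]
      have h6 : (c : 𝓞 F) * l + d * (Nm (a₀ - cj a₀) : 𝓞 F) = 1 := by exact_mod_cast hcd
      rw [← mul_cj] at h6
      refine ⟨c * b + d * cj (a₀ - cj a₀) * (y2 - cj a₀ * y1), ?_⟩
      linear_combination (-b) * h6 + d * cj (a₀ - cj a₀) * h1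
    · rw [Ideal.span_singleton_le_iff_mem]
      exact hlP
  refine ⟨?_, by rw [← hP, hPl]⟩
  -- f is odd
  rw [← Nat.not_even_iff_odd]
  rintro ⟨m, hm⟩
  have hPne : P ≠ ⊥ := by
    intro h0
    rw [h0] at hlP
    have h1 : (l : 𝓞 F) = 0 := hlP
    exact hl.ne_zero (by exact_mod_cast h1)
  have hPmax : P.IsMaximal := hPp.isMaximal hPne
  have hN2 : Ideal.absNorm P = l ^ 2 := by
    rw [hPl]
    exact Nm_nat l
  letI : Field (𝓞 F ⧸ P) := Ideal.Quotient.field P
  have hfin : Finite (𝓞 F ⧸ P) := Ideal.finiteQuotientOfFreeOfNeBot P hPne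
  letI := Fintype.ofFinite (𝓞 F ⧸ P)
  have hcard : Fintype.card (𝓞 F ⧸ P) = l ^ 2 := by
    rw [← Nat.card_eq_fintype_card, ← hN2]
    rfl
  have hpow : ∀ a : 𝓞 F, a ^ (l ^ 2) - a ∈ P := by
    intro a
    rw [← Ideal.Quotient.eq_zero_iff_mem, map_sub, map_pow, ← hcard, FiniteField.pow_card, sub_self]
  have hpow2 : ∀ (k : ℕ) (a : 𝓞 F), a ^ ((l ^ 2) ^ k) - a ∈ P := by
    intro k
    induction k with
    | zero =>
      intro a
      rw [pow_zero, pow_one, sub_self]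
      exact P.zero_mem
    | succ k ih =>
      intro a
      have h1 := hpow (a ^ ((l ^ 2) ^ k))
      rw [← pow_mul, ← pow_succ] at h1
      have h2 := P.add_mem h1 (ih a)
      rwa [sub_add_sub_cancel] at h2
  have hq : (l ^ 2) ^ m = Ideal.absNorm v.asIdeal := by
    rw [hf, hm, ← pow_mul]
    congr 1
    ring
  -- the residue fields
  have hvmax := v.isMaximal
  have hwmax := w.isMaximal
  letI : Field (𝓞 K ⧸ w.asIdeal) := Ideal.Quotient.field w.asIdeal
  letI : Field (𝓞 K₀ ⧸ v.asIdeal) := Ideal.Quotient.field v.asIdeal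
  have hfinv : Finite (𝓞 K₀ ⧸ v.asIdeal) := Ideal.finiteQuotientOfFreeOfNeBot v.asIdeal v.ne_bot
  letI := Fintype.ofFinite (𝓞 K₀ ⧸ v.asIdeal)
  have hcardv : Fintype.card (𝓞 K₀ ⧸ v.asIdeal) = Ideal.absNorm v.asIdeal := by
    rw [← Nat.card_eq_fintype_card]
    rfl
  obtain ⟨φ, hφ⟩ : ∃ φ : (𝓞 K₀ ⧸ v.asIdeal) →+* (𝓞 K ⧸ w.asIdeal), ∀ z : 𝓞 K₀,
      φ (Ideal.Quotient.mk v.asIdeal z) = Ideal.Quotient.mk w.asIdeal (algebraMap (𝓞 K₀) (𝓞 K) z) := by
    refine ⟨Ideal.quotientMap w.asIdeal (algebraMap (𝓞 K₀) (𝓞 K)) (by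
      rw [hv0, Ideal.under_def]), fun z => ?_⟩
    rw [Ideal.quotientMap_mk]
  have hqq : 1 < Ideal.absNorm v.asIdeal := by
    rw [← hcardv]
    exact Fintype.one_lt_card
  have key := rb2_roots φ (fun x => by rw [← hcardv]; exact FiniteField.pow_card x)
    (by rw [hcardv]) hqq
  apply ha₀
  have h1 : (Ideal.Quotient.mk w.asIdeal (algebraMap (𝓞 F) (𝓞 K) a₀)) ^ (Ideal.absNorm v.asIdeal) =
      Ideal.Quotient.mk w.asIdeal (algebraMap (𝓞 F) (𝓞 K) a₀) := by
    rw [← sub_eq_zero, ← map_pow, ← map_pow, ← map_sub, ← map_sub, Ideal.Quotient.eq_zero_iff_mem,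
      ← hPm, ← hq]
    exact hpow2 m a₀
  obtain ⟨z, hz⟩ := key _ h1
  obtain ⟨z, rfl⟩ := Ideal.Quotient.mk_surjective z
  rw [hφ, Ideal.Quotient.eq] at hz
  have h2 := (hwT _).2 hz
  rw [map_sub, hTK, hTF] at h2
  rw [hPm]
  have h3 := w.asIdeal.sub_mem h2 hz
  rw [map_sub]
  have e : algebraMap (𝓞 F) (𝓞 K) a₀ - algebraMap (𝓞 F) (𝓞 K) (cj a₀) =
    (algebraMap (𝓞 K₀) (𝓞 K) z - algebraMap (𝓞 F) (𝓞 K) (cj a₀)) -
      (algebraMap (𝓞 K₀) (𝓞 K) z - algebraMap (𝓞 F) (𝓞 K) a₀) := by ring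
  rw [e]
  exact h3

end H55K.TQ
end

-- from Lib.H55K.RE
section

/-! # H55K: the Hecke L-series over the quadratic extension is real -/

open NumberField IsDedekindDomain WeierstrassCurve

namespace H55K.TQ

open H55P (IQ embF eF LF Per IsHecke Pt ac Inert Dec Nm UnitP)
open H35P (WAB Ker tt GoodW IntW)
open H55K.MG (VC Crd)

variable {F K₀ K : Type} [Field F] [NumberField F] [IQ F] [Field K₀] [NumberField K₀] [Field K] [NumberField K]
  [Algebra F K] [Algebra K₀ K]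

theorem re_absNorm {R : Type} [CommRing R] [IsDedekindDomain R] [Module.Free ℤ R]
    (σ : R ≃+* R) (a : Ideal R) :
    Ideal.absNorm (a.map (σ : R →+* R)) = Ideal.absNorm a := by
  rw [Ideal.absNorm_apply, Ideal.absNorm_apply, Submodule.cardQuot_apply, Submodule.cardQuot_apply]
  exact Nat.card_congr (Ideal.quotientEquiv a (a.map (σ : R →+* R)) σ rfl).toEquiv.symm

theorem re_inertia (w : HeightOneSpectrum (𝓞 K)) {v : HeightOneSpectrum (𝓞 F)} (hv : v.asIdeal = w.asIdeal.under (𝓞 F)) :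
    Ideal.absNorm w.asIdeal = Ideal.absNorm v.asIdeal ^ w.asIdeal.inertiaDeg (𝓞 F) := by
  have h0 : w.asIdeal.LiesOver v.asIdeal := ⟨hv⟩
  have h1 := w.isMaximal
  have h2 : v.asIdeal.IsMaximal := v.isMaximal
  rw [Ideal.inertiaDeg_eq_of_isMaximal v.asIdeal w.asIdeal]
  have h := Ideal.absNorm_eq_pow_inertiaDeg'_of_liesOver w.asIdeal v.asIdeal v.isPrime v.ne_bot
  rw [Ideal.inertiaDeg'_algebraMap] at h
  exact h

theorem re_prime (σ : 𝓞 K ≃+* 𝓞 K) (hσ : ∀ x : 𝓞 F, σ (algebraMap (𝓞 F) (𝓞 K) x) = algebraMap (𝓞 F) (𝓞 K) (cj x))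
    {ψ : Ideal (𝓞 F) →*₀ 𝓞 F}
    (hcj : ∀ J : Ideal (𝓞 F), ψ (J.map ((cj : 𝓞 F ≃+* 𝓞 F) : 𝓞 F →+* 𝓞 F)) = cj (ψ J))
    (w : HeightOneSpectrum (𝓞 K)) :
    H55P.PsiP K ψ (w.asIdeal.map (σ : 𝓞 K →+* 𝓞 K)) = (starRingEnd ℂ) (H55P.PsiP K ψ w.asIdeal) := by
  obtain ⟨v, hv, hr, -, -⟩ := DD.below (F := F) (m := ⊤) w
  have hwp := w.isPrime
  obtain ⟨w', hw'⟩ : ∃ w' : HeightOneSpectrum (𝓞 K), w'.asIdeal = w.asIdeal.map (σ : 𝓞 K →+* 𝓞 K) := by
    refine ⟨⟨w.asIdeal.map (σ : 𝓞 K →+* 𝓞 K), Ideal.map_isPrime_of_equiv σ, ?_⟩, rfl⟩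
    intro h
    exact w.ne_bot ((Ideal.map_eq_bot_iff_of_injective σ.injective).1 h)
  obtain ⟨v', hv', hr', -, -⟩ := DD.below (F := F) (m := ⊤) w'
  have hvv : v'.asIdeal = v.asIdeal.map ((cj : 𝓞 F ≃+* 𝓞 F) : 𝓞 F →+* 𝓞 F) := by
    ext x
    rw [hv', Ideal.under_def, Ideal.mem_comap, hw',
      Ideal.mem_map_iff_of_surjective (σ : 𝓞 K →+* 𝓞 K) σ.surjective,
      Ideal.mem_map_iff_of_surjective ((cj : 𝓞 F ≃+* 𝓞 F) : 𝓞 F →+* 𝓞 F) cj.surjective]
    constructor
    · rintro ⟨y, hy, hyx⟩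
      have hyx' : σ y = algebraMap (𝓞 F) (𝓞 K) x := hyx
      have h1 : y = algebraMap (𝓞 F) (𝓞 K) (cj x) := by
        apply σ.injective
        rw [hσ, cj_cj, hyx']
      refine ⟨cj x, ?_, cj_cj x⟩
      rw [hv, Ideal.under_def, Ideal.mem_comap, ← h1]
      exact hy
    · rintro ⟨y, hy, hyx⟩
      refine ⟨algebraMap (𝓞 F) (𝓞 K) y, ?_, ?_⟩
      · rw [hv, Ideal.under_def, Ideal.mem_comap] at hy
        exact hy
      · have hyx' : cj y = x := hyx
        show σ (algebraMap (𝓞 F) (𝓞 K) y) = algebraMap (𝓞 F) (𝓞 K) x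
        rw [hσ, hyx']
  have hdeg : w'.asIdeal.inertiaDeg (𝓞 F) = w.asIdeal.inertiaDeg (𝓞 F) := by
    have h1 := re_inertia w hv
    have h2 := re_inertia w' hv'
    rw [hw', re_absNorm, hvv, re_absNorm, h1] at h2
    have h3 : 2 ≤ Ideal.absNorm v.asIdeal := by
      have h4 : Ideal.absNorm v.asIdeal ≠ 1 := by
        rw [Ne, Ideal.absNorm_eq_one_iff]; exact v.isPrime.ne_top
      have h5 : Ideal.absNorm v.asIdeal ≠ 0 := by
        rw [Ne, Ideal.absNorm_eq_zero_iff]; exact v.ne_bot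
      omega
    rw [← hw'] at h2
    exact (Nat.pow_right_injective h3 h2).symm
  rw [← hw', H55P.PsiP_apply, H55P.PsiP_apply, hr', hr, hdeg, hvv, map_pow, map_pow, hcj, map_pow, map_pow, map_pow, map_pow, e_cj, map_pow]

theorem re_Psi (σ : 𝓞 K ≃+* 𝓞 K) (hσ : ∀ x : 𝓞 F, σ (algebraMap (𝓞 F) (𝓞 K) x) = algebraMap (𝓞 F) (𝓞 K) (cj x))
    {ψ : Ideal (𝓞 F) →*₀ 𝓞 F}
    (hcj : ∀ J : Ideal (𝓞 F), ψ (J.map ((cj : 𝓞 F ≃+* 𝓞 F) : 𝓞 F →+* 𝓞 F)) = cj (ψ J))
    (a : Ideal (𝓞 K)) :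
    H55P.PsiP K ψ (a.map (σ : 𝓞 K →+* 𝓞 K)) = (starRingEnd ℂ) (H55P.PsiP K ψ a) := by
  induction a using UniqueFactorizationMonoid.induction_on_prime with
  | h₁ =>
    have h : (0 : Ideal (𝓞 K)).map (σ : 𝓞 K →+* 𝓞 K) = 0 := Ideal.map_bot
    rw [h, map_zero, map_zero]
  | h₂ x hx =>
    rw [Ideal.isUnit_iff] at hx
    rw [hx, Ideal.map_top, ← Ideal.one_eq_top, map_one, map_one]
  | h₃ x p hx hp ih =>
    have h1 := re_prime σ hσ hcj ⟨p, Ideal.isPrime_of_prime hp, hp.ne_zero⟩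
    simp only at h1
    rw [Ideal.map_mul, map_mul, map_mul, map_mul, ih, h1]

/-- Chunk RE (M). Port of H55D.AI_real, DQA_sigma, DQA_prime, DQA_Psi (Lib/H55D/QA.lean): Psi replaced by PsiP K ψ, O by 𝓞 F, DQA_psiF by hcj (PsiP_apply, e_cj); the prime below w and relNorm: D8.lean (H55K below) or H55N.Psi_prime. -/
theorem ai_real (hQ : QuadG F K₀ K) {ψ : Ideal (𝓞 F) →*₀ 𝓞 F}
    (hcj : ∀ J : Ideal (𝓞 F), ψ (J.map ((cj : 𝓞 F ≃+* 𝓞 F) : 𝓞 F →+* 𝓞 F)) = cj (ψ J)) :
    H55N.AI (fun a : Ideal (𝓞 K) => (starRingEnd ℂ) (H55P.PsiP K ψ a)) = H55N.AI (fun a => H55P.PsiP K ψ a) := by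
  obtain ⟨c, hc⟩ := hQ.tau
  obtain ⟨σ, hσ⟩ : ∃ σ : 𝓞 K ≃+* 𝓞 K, ∀ x : 𝓞 F, σ (algebraMap (𝓞 F) (𝓞 K) x) = algebraMap (𝓞 F) (𝓞 K) (cj x) := by
    refine ⟨NumberField.RingOfIntegers.mapRingEquiv (c : K ≃+* K), fun x => ?_⟩
    apply NumberField.RingOfIntegers.ext
    exact hc x
  let E : Ideal (𝓞 K) ≃ Ideal (𝓞 K) :=
    { toFun := fun a => a.map (σ : 𝓞 K →+* 𝓞 K)
      invFun := fun a => a.map (σ.symm : 𝓞 K →+* 𝓞 K)
      left_inv := fun a => Ideal.map_of_equiv σ
      right_inv := fun a => Ideal.map_of_equiv σ.symm }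
  ext n
  show (if n = 0 then 0 else ∑ᶠ (a : Ideal (𝓞 K)) (_ : Ideal.absNorm a = n), (starRingEnd ℂ) (H55P.PsiP K ψ a)) =
    if n = 0 then 0 else ∑ᶠ (a : Ideal (𝓞 K)) (_ : Ideal.absNorm a = n), H55P.PsiP K ψ a
  by_cases hn : n = 0
  · rw [if_pos hn, if_pos hn]
  · rw [if_neg hn, if_neg hn,
      ← finsum_comp_equiv E (f := fun b : Ideal (𝓞 K) => ∑ᶠ (_ : Ideal.absNorm b = n), H55P.PsiP K ψ b)]
    refine finsum_congr fun a => ?_
    show _ = ∑ᶠ (_ : Ideal.absNorm (a.map (σ : 𝓞 K →+* 𝓞 K)) = n), H55P.PsiP K ψ (a.map (σ : 𝓞 K →+* 𝓞 K))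
    rw [re_absNorm, re_Psi σ hσ hcj]

end H55K.TQ
end

-- from Lib.H55K.RP3
section

/-! # H55K: the field generated by F over a field K -/

open NumberField IsDedekindDomain WeierstrassCurve

namespace H55K.TQ

open H55P (IQ embF eF LF Per IsHecke Pt ac Inert Dec Nm UnitP)
open H35P (WAB Ker tt GoodW IntW)
open H55K.MG (VC Crd)

variable (F : Type) [Field F] [NumberField F] [IQ F] {Ω : Type} [Field Ω] [Algebra F Ω] [Algebra ℚ Ω] [IsScalarTower ℚ F Ω]

/-- Chunk RP3 (S/M). Port of H55P.kf_iso (Z14.lean): the range of ι is the carrier of KG. -/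
theorem kg_iso (K : Type) [Field K] [NumberField K] (ι : K →ₐ[ℚ] Ω) (f : F →+* K)
    (hf : ∀ y : F, ι (f y) = algebraMap F Ω y) :
    letI : Algebra F K := f.toAlgebra
    Nonempty (K ≃ₐ[F] KG F K ι) := by
  letI : Algebra F K := f.toAlgebra
  let g : K →ₐ[F] KG F K ι :=
    { KGmap F K ι with
      commutes' := fun y => Subtype.ext (hf y) }
  have hsurj : Function.Surjective g := by
    rintro ⟨x, hx⟩
    have h1 : ∃ y : K, ι y = x := by
      refine IntermediateField.adjoin_induction F (p := fun x _ => ∃ y : K, ι y = x) ?_ ?_ ?_ ?_ ?_ hx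
      · rintro _ ⟨y, rfl⟩
        exact ⟨y, rfl⟩
      · intro x
        exact ⟨f x, hf x⟩
      · rintro x y _ _ ⟨a, rfl⟩ ⟨b, rfl⟩
        exact ⟨a + b, map_add ι a b⟩
      · rintro x _ ⟨a, rfl⟩
        exact ⟨a⁻¹, map_inv₀ ι a⟩
      · rintro x y _ _ ⟨a, rfl⟩ ⟨b, rfl⟩
        exact ⟨a * b, map_mul ι a b⟩
    obtain ⟨y, hy⟩ := h1
    exact ⟨y, Subtype.ext hy⟩
  exact ⟨AlgEquiv.ofBijective g ⟨g.toRingHom.injective, hsurj⟩⟩

/-- Chunk RP3 (S). [K : ℚ] = [KG : F] in the quadratic case: [KG : ℚ] = 2 [K : ℚ] = 2 [KG : F]. -/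
theorem quad_deg {K₀ K : Type} [Field K₀] [NumberField K₀] [Field K] [NumberField K] [Algebra F K] [Algebra K₀ K]
    (hQ : QuadG F K₀ K) : Module.finrank ℚ K₀ = Module.finrank F K := by
  have h1 := Module.finrank_mul_finrank ℚ K₀ K
  have h2 := Module.finrank_mul_finrank ℚ F K
  have h3 : Module.finrank ℚ F = 2 := IQ.deg
  rw [hQ.rank] at h1
  rw [h3] at h2
  omega

end H55K.TQ
end

-- from Lib.H55K.RP2
section

/-! # H55K: the field generated by F over a field K -/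

open NumberField IsDedekindDomain WeierstrassCurve

namespace H55K.TQ

open H55P (IQ embF eF LF Per IsHecke Pt ac Inert Dec Nm UnitP)
open H35P (WAB Ker tt GoodW IntW)
open H55K.MG (VC Crd)

variable (F : Type) [Field F] [NumberField F] [IQ F] {Ω : Type} [Field Ω] [Algebra F Ω] [Algebra ℚ Ω] [IsScalarTower ℚ F Ω]

theorem rp2_lift (K : Type) [Field K] [NumberField K] (ι : K →ₐ[ℚ] Ω)
    (hg : ∀ y, algebraMap F Ω y ∈ ι.fieldRange) : ∃ f : F →+* K, ∀ y, ι (f y) = algebraMap F Ω y := by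
  let e0 : K →+* ι.fieldRange :=
    { toFun := fun x => ⟨ι x, ⟨x, rfl⟩⟩
      map_one' := Subtype.ext (map_one ι)
      map_mul' := fun x y => Subtype.ext (map_mul ι x y)
      map_zero' := Subtype.ext (map_zero ι)
      map_add' := fun x y => Subtype.ext (map_add ι x y) }
  have hs : Function.Surjective e0 := by
    rintro ⟨_, y, rfl⟩
    exact ⟨y, rfl⟩
  let e : K ≃+* ι.fieldRange := RingEquiv.ofBijective e0 ⟨e0.injective, hs⟩
  let g' : F →+* ι.fieldRange := (algebraMap F Ω).codRestrict ι.fieldRange hg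
  refine ⟨(e.symm : ι.fieldRange →+* K).comp g', fun y => ?_⟩
  have h1 : e (e.symm (g' y)) = g' y := e.apply_symm_apply _
  exact congrArg Subtype.val h1

omit [Algebra ℚ Ω] [IsScalarTower ℚ F Ω] [Algebra F Ω] [Field Ω] in
theorem rp2_span (z : F) (hz : ∀ q : ℚ, z ≠ (q : F)) (y : F) : ∃ c d : ℚ, y = c + d * z := by
  have hli : LinearIndependent ℚ ![(1 : F), z] := by
    rw [LinearIndependent.pair_iff]
    intro s t h
    rw [Rat.smul_def, Rat.smul_def, mul_one] at h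
    by_cases ht : t = 0
    · rw [ht, Rat.cast_zero, zero_mul, add_zero] at h
      exact ⟨by exact_mod_cast h, ht⟩
    · exfalso
      apply hz (-s / t)
      have ht' : (t : F) ≠ 0 := by exact_mod_cast ht
      push_cast
      field_simp
      linear_combination h
  have hc : Fintype.card (Fin 2) = Module.finrank ℚ F := by
    rw [Fintype.card_fin, IQ.deg]
  have hB := (basisOfLinearIndependentOfCardEqFinrank hli hc).sum_repr y
  rw [Fin.sum_univ_two, coe_basisOfLinearIndependentOfCardEqFinrank] at hB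
  refine ⟨(basisOfLinearIndependentOfCardEqFinrank hli hc).repr y 0,
    (basisOfLinearIndependentOfCardEqFinrank hli hc).repr y 1, ?_⟩
  conv_lhs => rw [← hB]
  rw [Rat.smul_def, Rat.smul_def]
  simp

theorem rp2_ind (K : Type) [Field K] [NumberField K] (ι : K →ₐ[ℚ] Ω) (z : F)
    (hz : algebraMap F Ω z ∉ ι.fieldRange) (u v : K) (h : ι u + ι v * algebraMap F Ω z = 0) :
    u = 0 ∧ v = 0 := by
  by_cases hv : v = 0
  · rw [hv, map_zero, zero_mul, add_zero] at h
    exact ⟨(map_eq_zero ι).1 h, hv⟩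
  · exfalso
    apply hz
    refine ⟨-u / v, ?_⟩
    have hv' : ι v ≠ 0 := fun h0 => hv ((map_eq_zero ι).1 h0)
    change ι (-u / v) = _
    rw [map_div₀, map_neg]
    field_simp
    linear_combination -h

theorem rp2_car (K : Type) [Field K] [NumberField K] (ι : K →ₐ[ℚ] Ω) (z : F)
    (hz : algebraMap F Ω z ∉ ι.fieldRange) (b a : ℚ) (hspan : ∀ y : F, ∃ c d : ℚ, y = c + d * z)
    (hZ : (algebraMap F Ω z) ^ 2 = ι (b : K) + ι (a : K) * algebraMap F Ω z) (x : Ω) (hx : x ∈ KG F K ι) :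
    ∃ u v : K, x = ι u + ι v * algebraMap F Ω z := by
  refine IntermediateField.adjoin_induction F
    (p := fun x _ => ∃ u v : K, x = ι u + ι v * algebraMap F Ω z) ?_ ?_ ?_ ?_ ?_ hx
  · rintro _ ⟨y, rfl⟩
    exact ⟨y, 0, by rw [map_zero, zero_mul, add_zero]⟩
  · intro y
    obtain ⟨c, d, rfl⟩ := hspan y
    refine ⟨(c : K), (d : K), ?_⟩
    rw [map_add, map_mul, map_ratCast, map_ratCast, map_ratCast, map_ratCast]
  · rintro x y _ _ ⟨u, v, rfl⟩ ⟨u', v', rfl⟩
    exact ⟨u + u', v + v', by rw [map_add, map_add]; ring⟩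
  · rintro x _ ⟨u, v, rfl⟩
    by_cases h0 : ι u + ι v * algebraMap F Ω z = 0
    · refine ⟨0, 0, ?_⟩
      rw [h0, inv_zero, map_zero, zero_mul, add_zero]
    · -- the norm
      have hN : (ι u + ι v * algebraMap F Ω z) * (ι (u + v * a) - ι v * algebraMap F Ω z) =
          ι (u ^ 2 + u * v * a - v ^ 2 * b) := by
        simp only [map_add, map_sub, map_mul, map_pow]
        linear_combination -(ι v ^ 2) * hZ
      have hN0 : ι (u ^ 2 + u * v * a - v ^ 2 * b) ≠ 0 := by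
        rw [← hN]
        intro h1
        rcases mul_eq_zero.1 h1 with h2 | h2
        · exact h0 h2
        · have h3 := rp2_ind F K ι z hz (u + v * a) (-v) (by rw [map_neg]; linear_combination h2)
          have h4 : v = 0 := neg_eq_zero.1 h3.2
          have h5 := h3.1
          rw [h4, zero_mul, add_zero] at h5
          apply h0
          rw [h4, h5, map_zero, zero_mul, add_zero]
      refine ⟨(u + v * a) / (u ^ 2 + u * v * a - v ^ 2 * b), -v / (u ^ 2 + u * v * a - v ^ 2 * b), ?_⟩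
      rw [map_div₀, map_div₀, map_neg, ← hN]
      have h6 : ι (u + v * a) - ι v * algebraMap F Ω z ≠ 0 := by
        intro h7
        rw [h7, mul_zero] at hN
        exact hN0 hN.symm
      field_simp
      ring
  · rintro x y _ _ ⟨u, v, rfl⟩ ⟨u', v', rfl⟩
    refine ⟨u * u' + v * v' * b, u * v' + v * u' + v * v' * a, ?_⟩
    simp only [map_add, map_mul]
    linear_combination (ι v * ι v') * hZ

/-- Chunk RP2 (M). Either the image of F is contained in the range of ι: then f is the composite with the inverse (H55P.pz14_lift in Z14.lean); or some element z of F is not mapped into the range of ι. F = ℚ + ℚ z, z satisfies x^2 - t x + n = 0 over ℚ, which has no root in K (the roots in Ω are z and its conjugate, t - z). So KG is ι K + ι K z, of dimension 2 over K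
(port of H55P.kf_quad; KG is generated by z over ι K). The automorphism: τ(a + b z) = a + b (t - z) (for example: KG/K is Galois of degree 2, τ the nontrivial element; it maps z to the other root t - z, which is the image of the conjugate of z; so it is the conjugation on F; e_cj for elements of 𝓞 F: the nontrivial automorphism of F/ℚ maps x to cj x (exists_cj, d1_sigma in D1.lean)). -/
theorem kg_dich (K : Type) [Field K] [NumberField K] (ι : K →ₐ[ℚ] Ω) [NumberField (KG F K ι)] :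
    (∃ f : F →+* K, ∀ y : F, ι (f y) = algebraMap F Ω y) ∨
      (letI : Algebra K (KG F K ι) := (KGmap F K ι).toAlgebra
       QuadG F K (KG F K ι)) := by
  classical
  by_cases h : ∀ y : F, algebraMap F Ω y ∈ ι.fieldRange
  · exact Or.inl (rp2_lift F K ι h)
  · right
    push Not at h
    obtain ⟨z, hz⟩ := h
    letI : Algebra K (KG F K ι) := (KGmap F K ι).toAlgebra
    have hrat : ∀ q : ℚ, algebraMap F Ω (q : F) = ι (q : K) := by
      intro q
      rw [map_ratCast, map_ratCast]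
    have hzq : ∀ q : ℚ, z ≠ (q : F) := by
      rintro q rfl
      exact hz ⟨(q : K), (hrat q).symm⟩
    have hspan := rp2_span F z hzq
    obtain ⟨b, a, hab⟩ := hspan (z ^ 2)
    obtain ⟨σ, hσ⟩ := H55K.d1_sigma F
    have hσr : ∀ q : ℚ, σ (q : F) = q := fun q => map_ratCast σ q
    have hσz : σ z = a - z := by
      have h1 : (σ z) ^ 2 = b + a * σ z := by
        have h0 := congrArg σ hab
        rwa [map_pow, map_add, map_mul, hσr, hσr] at h0
      have h2 : (σ z - z) * (σ z + z - a) = 0 := by linear_combination h1 - hab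
      rcases mul_eq_zero.1 h2 with h3 | h3
      · exfalso
        obtain ⟨x, hx⟩ := IQ.im (F := F)
        obtain ⟨c, d, rfl⟩ := hspan x
        apply hx
        have h4 := hσ (c + d * z)
        rw [map_add, map_mul, hσr, hσr, sub_eq_zero.1 h3] at h4
        exact Complex.conj_eq_iff_im.1 h4.symm
      · linear_combination h3
    -- the conjugation on the integers
    have hcj : ∀ x : 𝓞 F, σ (x : F) = ((cj x : 𝓞 F) : F) := by
      intro x
      apply (embF F).injective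
      rw [hσ]
      exact (e_cj x).symm
    -- elements of KG
    have hZ : (algebraMap F Ω z) ^ 2 = ι (b : K) + ι (a : K) * algebraMap F Ω z := by
      have h0 := congrArg (algebraMap F Ω) hab
      rwa [map_pow, map_add, map_mul, hrat, hrat] at h0
    have hcar := rp2_car F K ι z hz b a hspan hZ
    obtain ⟨Z, hZdef⟩ : ∃ Z : KG F K ι, Z = algebraMap F (KG F K ι) z := ⟨_, rfl⟩
    have hZc : (Z : Ω) = algebraMap F Ω z := by
      rw [hZdef]
      rfl
    have hac : ∀ u : K, ((algebraMap K (KG F K ι) u : KG F K ι) : Ω) = ι u := fun u => rfl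
    have hcar' : ∀ x : KG F K ι, ∃ u v : K, x = algebraMap K (KG F K ι) u + algebraMap K (KG F K ι) v * Z := by
      rintro ⟨x, hx⟩
      obtain ⟨u, v, huv⟩ := hcar x hx
      refine ⟨u, v, Subtype.ext ?_⟩
      show x = ι u + ι v * (Z : Ω)
      rw [hZc]
      exact huv
    have hind : ∀ u v : K, algebraMap K (KG F K ι) u + algebraMap K (KG F K ι) v * Z = 0 → u = 0 ∧ v = 0 := by
      intro u v h0
      have h1 : ι u + ι v * algebraMap F Ω z = 0 := by
        have h2 := congrArg Subtype.val h0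
        rw [← hZc]
        exact h2
      exact rp2_ind F K ι z hz u v h1
    have hrank : Module.finrank K (KG F K ι) = 2 := by
      let f : (K × K) →ₗ[K] KG F K ι := LinearMap.coprod (LinearMap.toSpanSingleton K (KG F K ι) 1)
        (LinearMap.toSpanSingleton K (KG F K ι) Z)
      have hf : ∀ p : K × K, f p = algebraMap K (KG F K ι) p.1 + algebraMap K (KG F K ι) p.2 * Z := by
        intro p
        rw [LinearMap.coprod_apply, LinearMap.toSpanSingleton_apply, LinearMap.toSpanSingleton_apply,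
          Algebra.smul_def, Algebra.smul_def, mul_one]
      have hinj : Function.Injective f := by
        rw [injective_iff_map_eq_zero]
        intro p hp
        rw [hf] at hp
        have h1 := hind _ _ hp
        exact Prod.ext h1.1 h1.2
      have hsurj : Function.Surjective f := by
        intro x
        obtain ⟨u, v, huv⟩ := hcar' x
        exact ⟨(u, v), by rw [hf]; exact huv.symm⟩
      have h1 := LinearEquiv.finrank_eq (LinearEquiv.ofBijective f ⟨hinj, hsurj⟩)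
      rw [← h1, Module.finrank_prod, Module.finrank_self]
    refine ⟨hrank, ?_⟩
    have hq : Algebra.IsQuadraticExtension K (KG F K ι) := ⟨hrank⟩
    have hfd : FiniteDimensional K (KG F K ι) := Module.finite_of_finrank_pos (by rw [hrank]; norm_num)
    have hG : IsGalois K (KG F K ι) := inferInstance
    have hc : Nat.card (KG F K ι ≃ₐ[K] KG F K ι) = 2 := by
      rw [IsGalois.card_aut_eq_finrank, hrank]
    have hn : Nontrivial (KG F K ι ≃ₐ[K] KG F K ι) := Finite.one_lt_card_iff_nontrivial.1 (by rw [hc]; norm_num)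
    obtain ⟨τ, hτ⟩ := exists_ne (1 : KG F K ι ≃ₐ[K] KG F K ι)
    have hτr : ∀ q : ℚ, τ (q : KG F K ι) = q := fun q => map_ratCast τ q
    have hZ2 : Z ^ 2 = b + a * Z := by
      have h0 := congrArg (algebraMap F (KG F K ι)) hab
      rw [map_pow, map_add, map_mul, map_ratCast, map_ratCast, ← hZdef] at h0
      exact h0
    have hτz : τ Z = a - Z := by
      have h1 : (τ Z) ^ 2 = b + a * τ Z := by
        have h0 := congrArg τ hZ2
        rwa [map_pow, map_add, map_mul, hτr, hτr] at h0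
      have h2 : (τ Z - Z) * (τ Z + Z - a) = 0 := by linear_combination h1 - hZ2
      rcases mul_eq_zero.1 h2 with h3 | h3
      · exfalso
        apply hτ
        ext x
        obtain ⟨u, v, rfl⟩ := hcar' x
        rw [AlgEquiv.one_apply, map_add, map_mul, AlgEquiv.commutes, AlgEquiv.commutes, sub_eq_zero.1 h3]
      · linear_combination h3
    refine ⟨τ, fun x => ?_⟩
    rw [← hcj]
    obtain ⟨c, d, hcd⟩ := hspan (x : F)
    rw [hcd]
    rw [map_add, map_mul, map_ratCast, map_ratCast, ← hZdef, map_add, map_mul, hτr, hτr, hτz,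
      map_add, map_mul, hσr, hσr, hσz, map_add, map_mul, map_sub, map_ratCast, map_ratCast, map_ratCast, ← hZdef]

end H55K.TQ
end
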