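import Mathlib
import Pool.Agent.Lib.H1M.PP.D_H55K_FD
import Pool.Agent.Lib.H1M.PP.D_H55K_RD
import Pool.Agent.Lib.H1M.PP.M036
import Pool.Agent.Lib.H1M.PP.M041
import Pool.Agent.Lib.H1M.PP.M048
import Pool.Agent.Lib.H1M.PP.M059
import Pool.Agent.Lib.H1M.PP.M061
import Pool.Agent.Lib.H1M.PP.M063
import Pool.Agent.Lib.H1M.PP.M068
import Pool.Agent.Lib.H1M.PP.M070
import Pool.Agent.Lib.H1M.PP.M073
import Pool.Agent.Lib.H1M.PP.M080

/-! Merged copies (to shorten the build) of Lib.H55P.I2, Lib.H55P.I3, Lib.H55P.CL, Lib.H55K.RB1, Lib.H55K.RH, Lib.H55K.RI2, Lib.H55K.FB3C, Lib.H55K.FB4, Lib.H55P.Gen, Lib.H55K.QP2C, Lib.H55K.QS2, Lib.H55K.FB6A. -/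

-- from Lib.H55P.I2
section

open NumberField IsDedekindDomain

namespace H55P

open H55N
open H55B (g)

variable {F : Type} [Field F] [NumberField F] [IQ F]

/-! The exact criterion, analytic side: one cyclic step of degree p. -/

section base

variable {K : Type} [Field K] [NumberField K] [Algebra F K]

open Classical in
omit [IQ F] in
theorem i2_one (a : Ideal (𝓞 K)) (ha : a ≠ ⊥) : oneI (⊤ : Ideal (𝓞 K)) a = 1 := by
  show (if a ≠ ⊥ ∧ IsCoprime a ⊤ then (1 : ℂ) else 0) = 1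
  rw [if_pos]
  refine ⟨ha, ?_⟩
  rw [Ideal.isCoprime_iff_sup_eq]
  exact sup_top_eq a

theorem i2_chr (p : ℕ) : PChr p (⊤ : Ideal (𝓞 K)) (oneI ⊤) where
  ne := top_ne_bot
  cop := by
    rw [Ideal.isCoprime_iff_sup_eq]
    exact top_sup_eq _
  val a ha _ := by rw [i2_one a ha, one_pow]
  zero a ha := absurd (by
    rw [Ideal.isCoprime_iff_sup_eq]
    exact sup_top_eq a) ha
  per x y hx hy _ _ := by
    rw [i2_one _ (by simpa using hx), i2_one _ (by simpa using hy)]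

/-- Integrality of the L-value over K, for p unramified in K. -/
theorem LVI_base (p : ℕ) (hp : p.Prime) {M : Ideal (𝓞 F)} {ψ : Ideal (𝓞 F) →*₀ 𝓞 F}
    (h : IsHecke M ψ) (hMp : IsCoprime M (Ideal.span {(p : 𝓞 F)})) (hK : UnrP p K)
    (Ac Bc Om : ℂ) (hper : Per F Ac Bc Om) (V : ValuationSubring ℂ)
    (hV : V.valuation (p : ℂ) < 1) (hg : GoodV Ac Bc V) (hNT : NTP K p M ψ V) :
    LVI F V Om (PsiP K ψ) := by
  obtain ⟨Λ, h1, h2, h3, -⟩ := twist_main p hp h hMp hK Ac Bc Om hper V hV hg hNT ⊤ (oneI ⊤)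
    (i2_chr p)
  refine ⟨Λ, h1, fun s hs => ?_, h3⟩
  have e : (PsiP K ψ * oneI ⊤ : Ideal (𝓞 K) →*₀ ℂ) = PsiP K ψ := by
    ext a
    show PsiP K ψ a * oneI ⊤ a = PsiP K ψ a
    rcases eq_or_ne a ⊥ with rfl | ha
    · have : PsiP K ψ ⊥ = 0 := (PsiP K ψ).map_zero
      rw [this, zero_mul]
    · rw [i2_one a ha, mul_one]
  have := h2 s hs
  rwa [e] at this

end base

/-- The L-series over K' is the product of the twisted L-series over K. -/
theorem step_prod (K K' : Type) [Field K] [NumberField K] [Algebra F K] [Field K'] [NumberField K']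
    [Algebra F K'] [Algebra K K'] [IsScalarTower F K K'] {M : Ideal (𝓞 F)} {ψ : Ideal (𝓞 F) →*₀ 𝓞 F}
    (h : IsHecke M ψ) (p : ℕ) (hp : p.Prime)
    (f : Ideal (𝓞 K)) (χ : Ideal (𝓞 K) →*₀ ℂ) (hf : PChr p f χ) (hχ : SplitP K K' p χ)
    (Λ₁ : ℂ → ℂ) (hs1 : ∀ s : ℂ, 3 / 2 < s.re → HasSum (tm (PsiP K ψ) s) (Λ₁ s))
    (Λ : ℕ → ℂ → ℂ) (hΛ : ∀ j s, 3 / 2 < s.re →
      HasSum (tm (PsiP K ψ * chp χ j : Ideal (𝓞 K) →*₀ ℂ) s) (Λ j s)) (s : ℂ) (hs : 3 / 2 < s.re) :
    HasSum (tm (PsiP K' ψ) s) (Λ₁ s * ∏ j ∈ Finset.range (p - 1), Λ j s) := by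
  have hb : ∀ j, ∀ a : Ideal (𝓞 K),
      ‖(PsiP K ψ * chp χ j : Ideal (𝓞 K) →*₀ ℂ) a‖ ^ 2 ≤ Ideal.absNorm a := by
    intro j a
    refine le_trans ?_ (PsiP_norm_le h a)
    have h4 : (PsiP K ψ * chp χ j : Ideal (𝓞 K) →*₀ ℂ) a = PsiP K ψ a * chp χ j a := rfl
    rw [h4, norm_mul, mul_pow]
    exact mul_le_of_le_one_right (by positivity)
      (pow_le_one₀ (norm_nonneg _) ((chp_PChr hf j).norm_le hp.ne_zero a))
  have hsum := tm_summable (PsiP K' ψ) (fun a => PsiP_norm_le h a) s hs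
  have hL := AI_LSeries (PsiP K' ψ) (PsiP K' ψ).map_zero s hsum
  have hsum1 := tm_summable (PsiP K ψ) (fun a => PsiP_norm_le h a) s hs
  have hL1 := AI_LSeries (PsiP K ψ) (PsiP K ψ).map_zero s hsum1
  have hL2 := fun j => AI_LSeries (PsiP K ψ * chp χ j : Ideal (𝓞 K) →*₀ ℂ)
    (PsiP K ψ * chp χ j : Ideal (𝓞 K) →*₀ ℂ).map_zero s
    (tm_summable (PsiP K ψ * chp χ j : Ideal (𝓞 K) →*₀ ℂ) (hb j) s hs)
  have hL3 := pt5_prod (p - 1) (fun j => AI (PsiP K ψ * chp χ j : Ideal (𝓞 K) →*₀ ℂ))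
    (fun j => Λ j s) (fun j hj => by
      have h3 := hL2 j
      rw [(hΛ j s hs).tsum_eq] at h3
      exact h3)
  have hL4 := ArithmeticFunction.LSeriesHasSum_mul hL1 hL3
  rw [← AI_stepP K K' ψ p hp χ hχ] at hL4
  have h5 : ∑' a, tm (PsiP K' ψ) s a = Λ₁ s * ∏ j ∈ Finset.range (p - 1), Λ j s := by
    rw [hL.unique hL4, (hs1 s hs).tsum_eq]
  rw [← h5]
  exact hsum.of_norm.hasSum

/-- One step: the L-value over K' is a unit if and only if the L-value over K is a unit and the factors at the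
ramified primes are units. -/
theorem LVP_step_iff (K K' : Type) [Field K] [NumberField K] [Algebra F K] [Field K'] [NumberField K']
    [Algebra F K'] [Algebra K K'] [IsScalarTower F K K'] [IsGalois K K'] (p : ℕ) (hp : p.Prime)
    (hn : Module.finrank K K' = p) {M : Ideal (𝓞 F)} {ψ : Ideal (𝓞 F) →*₀ 𝓞 F} (h : IsHecke M ψ)
    (hMp : IsCoprime M (Ideal.span {(p : 𝓞 F)})) (hU : UnrP p K') (Ac Bc Om : ℂ)
    (hper : Per F Ac Bc Om) (V : ValuationSubring ℂ) (hV : V.valuation (p : ℂ) < 1)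
    (hg : GoodV Ac Bc V) (hNT : NTP K p M ψ V) :
    LVP F V Om (PsiP K' ψ) ↔ LVP F V Om (PsiP K ψ) ∧
      ∀ w : HeightOneSpectrum (𝓞 K), H55R.es K K' w ≠ 1 →
        V.valuation (1 - (starRingEnd ℂ) (PsiP K ψ w.asIdeal)) = 1 := by
  refine ⟨fun hL => ?_, fun ⟨hL, hr⟩ =>
    LVP_step K K' p hp hn h hMp hU Ac Bc Om hper V hV hg hNT hr hL⟩
  have hK := UnrP.down K K' p hp hU
  obtain ⟨f, ρ, hρ⟩ := reciprocityF F K K' p hp hn fun v he =>
    tame_dvd K K' p hp hn v (fun hpv => he (pt10_ram K K' p hU v hpv)) he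
  have hf : PChr p f ρ := rec_PChr K K' p hp hn hU f ρ hρ
  have hs : SplitP K K' p ρ := rec_split K K' p hp hn f ρ hρ
  obtain ⟨Λ₁, ha1, hs1, hi1⟩ := LVI_base p hp h hMp hK Ac Bc Om hper V hV hg hNT
  have htw := fun j => twist_main p hp h hMp hK Ac Bc Om hper V hV hg hNT f (chp ρ j) (chp_PChr hf j)
  choose Λ hΛa hΛs hΛi hΛiff using htw
  obtain ⟨L, hLa, hLs, hLu⟩ := hL
  have hprod : L 1 = Λ₁ 1 * ∏ j ∈ Finset.range (p - 1), Λ j 1 := by
    refine ident L (fun s => Λ₁ s * ∏ j ∈ Finset.range (p - 1), Λ j s) hLa ?_ (fun s hs' => ?_) 1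
      (by norm_num)
    · intro s hs'
      exact (ha1 s hs').mul (Finset.analyticAt_fun_prod _ fun j _ => hΛa j s hs')
    · exact (hLs s hs').unique (step_prod K K' h p hp f ρ hf hs Λ₁ hs1 Λ hΛs s hs')
  have h5 : Om ^ Module.finrank F K' = Om ^ Module.finrank F K *
      ∏ j ∈ Finset.range (p - 1), Om ^ Module.finrank F K := by
    rw [← Module.finrank_mul_finrank F K K', hn, pow_mul, Finset.prod_const, Finset.card_range,
      ← pow_succ', Nat.sub_add_cancel hp.one_le]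
  rw [hprod, h5, mul_div_mul_comm, ← Finset.prod_div_distrib, map_mul, map_prod] at hLu
  have hle : ∏ j ∈ Finset.range (p - 1), V.valuation (Λ j 1 / Om ^ Module.finrank F K) ≤ 1 :=
    Finset.prod_le_one' fun j _ => hΛi j
  have hp1 : ∏ j ∈ Finset.range (p - 1), V.valuation (Λ j 1 / Om ^ Module.finrank F K) = 1 := by
    refine le_antisymm hle ?_
    by_contra hlt
    have h11 := mul_lt_one_of_nonneg_of_lt_one_right hi1 zero_le (not_le.1 hlt)
    rw [hLu] at h11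
    exact lt_irrefl _ h11
  have h0 := (Finset.prod_eq_one_iff_of_le_one' fun j _ => hΛi j).1 hp1 0
    (Finset.mem_range.2 (Nat.sub_pos_of_lt hp.one_lt))
  obtain ⟨h6, h7⟩ := (hΛiff 0 Λ₁ ha1 hs1 hi1).1 h0
  exact ⟨⟨Λ₁, ha1, hs1, h6⟩, fun w hw => h7 w ((hρ.ram w).2 hw)⟩

end H55P
end

-- from Lib.H55P.I3
section

open NumberField IsDedekindDomain

namespace H55P

/-! The exact criterion, analytic side: the tower. -/

section types

/-- The image of v in the square: the ramification index is not 1. -/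
theorem i3_idx {A B : Type} [Field A] [NumberField A] [Field B] [NumberField B] [Algebra A B]
    (v : Ideal (𝓞 A)) (hv : v ≠ ⊥) (W : Ideal (𝓞 B)) [W.IsPrime] [W.LiesOver v]
    (h : ∀ x ∈ v, algebraMap (𝓞 A) (𝓞 B) x ∈ W ^ 2) : W.ramificationIdx (𝓞 A) ≠ 1 := by
  have hinj : Function.Injective (algebraMap (𝓞 A) (𝓞 B)) := FaithfulSMul.algebraMap_injective _ _
  have hm : v.map (algebraMap (𝓞 A) (𝓞 B)) ≠ ⊥ := by
    rw [Ne, Ideal.map_eq_bot_iff_of_injective hinj]
    exact hv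
  have hle : v.map (algebraMap (𝓞 A) (𝓞 B)) ≤ W ^ 2 := Ideal.map_le_iff_le_comap.2 fun x hx => h x hx
  rw [Ideal.IsDedekindDomain.ramificationIdx_eq_multiplicity v W hm]
  intro h1
  have hfin : FiniteMultiplicity W (v.map (algebraMap (𝓞 A) (𝓞 B))) := by
    refine FiniteMultiplicity.of_not_isUnit ?_ hm
    intro hu
    exact (inferInstance : W.IsPrime).ne_top (Ideal.isUnit_iff.1 hu)
  have h2 := (hfin.pow_dvd_iff_le_multiplicity (k := 2)).1 (Ideal.dvd_iff_le.2 hle)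
  omega

/-- A prime ramified in K/M: ramified in N/M or in K/N. -/
theorem i3_tower {M N K : Type} [Field M] [NumberField M] [Field N] [NumberField N] [Field K]
    [NumberField K] [Algebra M N] [Algebra N K] [Algebra M K] [IsScalarTower M N K]
    (v : HeightOneSpectrum (𝓞 M)) (W : Ideal (𝓞 K)) [W.IsPrime]
    (h : ∀ x ∈ v.asIdeal, algebraMap (𝓞 M) (𝓞 K) x ∈ W ^ 2) :
    ∃ w : HeightOneSpectrum (𝓞 N), W.under (𝓞 N) = w.asIdeal ∧ w.asIdeal.under (𝓞 M) = v.asIdeal ∧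
      ((∀ x ∈ v.asIdeal, algebraMap (𝓞 M) (𝓞 N) x ∈ w.asIdeal ^ 2) ∨ W.ramificationIdx (𝓞 N) ≠ 1) := by
  have hvm := v.isMaximal
  have hWn : W ≠ ⊥ := by
    rintro rfl
    apply v.ne_bot
    rw [eq_bot_iff]
    intro x hx
    have h1 := h x hx
    have h2 : algebraMap (𝓞 M) (𝓞 K) x = 0 := by
      have : algebraMap (𝓞 M) (𝓞 K) x ∈ (⊥ : Ideal (𝓞 K)) :=
        Ideal.pow_le_self two_ne_zero h1
      simpa using this
    have hinj : Function.Injective (algebraMap (𝓞 M) (𝓞 K)) := FaithfulSMul.algebraMap_injective _ _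
    exact (map_eq_zero_iff _ hinj).1 h2
  have hwb : W.under (𝓞 N) ≠ ⊥ := fun h0 =>
    hWn (Ideal.eq_bot_of_comap_eq_bot (R := 𝓞 N) (I := W) h0)
  have hwp : (W.under (𝓞 N)).IsPrime := inferInstance
  have hov : (W.under (𝓞 N)).under (𝓞 M) = v.asIdeal := by
    symm
    refine hvm.eq_of_le ?_ fun x hx => ?_
    · exact (inferInstance : ((W.under (𝓞 N)).under (𝓞 M)).IsPrime).ne_top
    · show algebraMap (𝓞 N) (𝓞 K) (algebraMap (𝓞 M) (𝓞 N) x) ∈ W
      have h1 : algebraMap (𝓞 N) (𝓞 K) (algebraMap (𝓞 M) (𝓞 N) x) = algebraMap (𝓞 M) (𝓞 K) x := by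
        apply RingOfIntegers.ext
        show algebraMap N K (algebraMap M N (x : M)) = algebraMap M K (x : M)
        rw [← IsScalarTower.algebraMap_apply M N K]
      rw [h1]
      exact Ideal.pow_le_self two_ne_zero (h x hx)
  refine ⟨⟨W.under (𝓞 N), hwp, hwb⟩, rfl, hov, ?_⟩
  by_cases hr : W.ramificationIdx (𝓞 N) = 1
  · left
    have hl1 : W.LiesOver (W.under (𝓞 N)) := ⟨rfl⟩
    have hl2 : (W.under (𝓞 N)).LiesOver v.asIdeal := ⟨hov.symm⟩
    have hsc : IsScalarTower (𝓞 M) (𝓞 N) (𝓞 K) := inferInstance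
    have hl3 : W.LiesOver v.asIdeal := Ideal.LiesOver.trans W (W.under (𝓞 N)) v.asIdeal
    have h1 := i3_idx v.asIdeal v.ne_bot W h
    have h2 := Ideal.ramificationIdx_tower (R := 𝓞 M) (W.under (𝓞 N)) W
    rw [hr, mul_one] at h2
    rw [h2] at h1
    exact s13_le_sq v.asIdeal v.ne_bot (W.under (𝓞 N)) h1
  · right
    exact hr

end types

section val

/-- 1 - x divides 1 - x^n. -/
theorem unit_of_pow (V : ValuationSubring ℂ) (x : ℂ) (hx : V.valuation x ≤ 1) (n : ℕ)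
    (h : V.valuation (1 - x ^ n) = 1) : V.valuation (1 - x) = 1 := by
  have h1 : (1 - x) * ∑ i ∈ Finset.range n, x ^ i = 1 - x ^ n := mul_neg_geom_sum x n
  have h2 : V.valuation (∑ i ∈ Finset.range n, x ^ i) ≤ 1 :=
    Valuation.map_sum_le _ fun i _ => by
      rw [map_pow]
      exact pow_le_one₀ zero_le hx
  have h3 : V.valuation (1 - x) ≤ 1 :=
    (Valuation.map_sub _ _ _).trans (max_le (by rw [map_one]) hx)
  rw [← h1, map_mul] at h
  refine le_antisymm h3 ?_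
  by_contra hlt
  have h5 := mul_lt_one_of_nonneg_of_lt_one_left zero_le (not_le.1 hlt) h2
  rw [h] at h5
  exact lt_irrefl _ h5

variable {F : Type} [Field F] [NumberField F] [IQ F]

/-- The factor at a prime above: unit if and only if the factor below is. -/
theorem adm_iff (K K' : Type) [Field K] [NumberField K] [Algebra F K] [Field K'] [NumberField K']
    [Algebra F K'] [Algebra K K'] [IsScalarTower F K K'] (p : ℕ) (hp : p.Prime)
    {ψ : Ideal (𝓞 F) →*₀ 𝓞 F} (V : ValuationSubring ℂ) (hV : V.valuation (p : ℂ) < 1)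
    (w : HeightOneSpectrum (𝓞 K)) (W : HeightOneSpectrum (𝓞 K'))
    (hW : W.asIdeal.under (𝓞 K) = w.asIdeal) (hf : ∃ j : ℕ, W.asIdeal.inertiaDeg (𝓞 K) = p ^ j) :
    V.valuation (1 - (starRingEnd ℂ) (PsiP K ψ w.asIdeal)) = 1 ↔
    V.valuation (1 - (starRingEnd ℂ) (PsiP K' ψ W.asIdeal)) = 1 := by
  refine ⟨adm_up K K' p hp V hV w W hW hf, fun h => ?_⟩
  have hl : W.asIdeal.LiesOver w.asIdeal := ⟨hW.symm⟩
  have hw := w.isMaximal
  have hwp := w.isPrime
  have hWm := W.isMaximal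
  have hWp := W.isPrime
  have h1 := Ideal.relNorm_eq_pow_of_isMaximal W.asIdeal w.asIdeal
  rw [PsiP_top (K := K), h1, map_pow, map_pow] at h
  exact unit_of_pow V _ (PsiP_int ψ w.asIdeal V).2 _ h

end val

variable {F : Type} [Field F] [NumberField F] [IQ F] {Ω : Type} [Field Ω] [DecidableEq Ω]
  [Algebra F Ω] [IsAlgClosed Ω] [Algebra.IsAlgebraic F Ω] [CharZero Ω]

omit [IQ F] [DecidableEq Ω] in
/-- Ramified primes in a tower. -/
theorem ram_tower (M N K : IntermediateField F Ω)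
    [NumberField M] [NumberField N] [NumberField K] (hMN : M ≤ N) (hNK : N ≤ K)
    (hnorm : ∀ s ∈ N.fixingSubgroup, ∀ x ∈ K, s x ∈ K) (v : HeightOneSpectrum (𝓞 M)) :
    letI : Algebra N K := (IntermediateField.inclusion hNK).toRingHom.toAlgebra
    letI : Algebra M N := (IntermediateField.inclusion hMN).toRingHom.toAlgebra
    Ram M K v.asIdeal ↔ Ram M N v.asIdeal ∨ ∃ w : HeightOneSpectrum (𝓞 N),
      w.asIdeal.under (𝓞 M) = v.asIdeal ∧ H55R.es N K w ≠ 1 := by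
  let _ : Algebra N K := (IntermediateField.inclusion hNK).toRingHom.toAlgebra
  let _ : Algebra M N := (IntermediateField.inclusion hMN).toRingHom.toAlgebra
  let _ : Algebra M K := s13_alg (hMN.trans hNK)
  have t1 : IsScalarTower M N K := IsScalarTower.of_algebraMap_eq fun x => rfl
  have hKf : FiniteDimensional F K := Module.Finite.of_restrictScalars_finite ℚ F K
  have g1 : IsGalois N K := s13_galois N K hNK hnorm
  have hvm := v.isMaximal
  constructor
  · rintro ⟨W, hWp, hW⟩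
    have hW' : ∀ x ∈ v.asIdeal, algebraMap (𝓞 M) (𝓞 K) x ∈ W ^ 2 := fun x hx => hW x _ hx rfl
    obtain ⟨w, hw1, hw2, h | h⟩ := i3_tower (N := N) v W hW'
    · left
      refine ⟨w.asIdeal, w.isPrime, fun x y hx hxy => ?_⟩
      have h2 : y = algebraMap (𝓞 M) (𝓞 N) x := by
        apply RingOfIntegers.ext
        apply Subtype.ext
        exact hxy
      rw [h2]
      exact h x hx
    · right
      refine ⟨w, hw2, ?_⟩
      have hl : W.LiesOver w.asIdeal := ⟨hw1.symm⟩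
      have hwm := w.isMaximal
      show w.asIdeal.ramificationIdxIn (𝓞 K) ≠ 1
      rw [Ideal.ramificationIdxIn_eq_ramificationIdx w.asIdeal W Gal(K/N)]
      exact h
  · intro h
    rcases h with ⟨W, hWp, hW⟩ | ⟨w, hw1, hw2⟩
    · have hWn : W ≠ ⊥ := by
        rintro rfl
        apply v.ne_bot
        rw [eq_bot_iff]
        intro x hx
        have h1 := hW x (algebraMap (𝓞 M) (𝓞 N) x) hx rfl
        have h2 : algebraMap (𝓞 M) (𝓞 N) x = 0 := by
          have : algebraMap (𝓞 M) (𝓞 N) x ∈ (⊥ : Ideal (𝓞 N)) :=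
            Ideal.pow_le_self two_ne_zero h1
          simpa using this
        have hinj : Function.Injective (algebraMap (𝓞 M) (𝓞 N)) :=
          FaithfulSMul.algebraMap_injective _ _
        exact (map_eq_zero_iff _ hinj).1 h2
      have hWm : W.IsMaximal := hWp.isMaximal hWn
      obtain ⟨Q, hQ1, hQ2⟩ := Ideal.exists_maximal_ideal_liesOver_of_isIntegral (S := 𝓞 K) W
      refine ⟨Q, hQ1.isPrime, fun x y hx hxy => ?_⟩
      have h4 : (W ^ 2).map (algebraMap (𝓞 N) (𝓞 K)) ≤ Q ^ 2 := by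
        rw [Ideal.map_pow]
        exact Ideal.pow_right_mono (Ideal.map_le_of_le_comap hQ2.over.le) 2
      have h1 := hW x (algebraMap (𝓞 M) (𝓞 N) x) hx rfl
      have h2 : y = algebraMap (𝓞 N) (𝓞 K) (algebraMap (𝓞 M) (𝓞 N) x) := by
        apply RingOfIntegers.ext
        apply Subtype.ext
        exact hxy
      rw [h2]
      exact h4 (Ideal.mem_map_of_mem _ h1)
    · have hwm := w.isMaximal
      obtain ⟨Q, hQ1, hQ2⟩ := Ideal.exists_maximal_ideal_liesOver_of_isIntegral (S := 𝓞 K) w.asIdeal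
      have hQp := hQ1.isPrime
      have hw3 : w.asIdeal.ramificationIdxIn (𝓞 K) ≠ 1 := hw2
      rw [Ideal.ramificationIdxIn_eq_ramificationIdx w.asIdeal Q Gal(K/N)] at hw3
      refine ⟨Q, hQp, fun x y hx hxy => ?_⟩
      have h1 : algebraMap (𝓞 M) (𝓞 N) x ∈ w.asIdeal := by
        have : x ∈ w.asIdeal.under (𝓞 M) := by rw [hw1]; exact hx
        exact this
      have h2 : y = algebraMap (𝓞 N) (𝓞 K) (algebraMap (𝓞 M) (𝓞 N) x) := by
        apply RingOfIntegers.ext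
        apply Subtype.ext
        exact hxy
      rw [h2]
      exact s13_le_sq w.asIdeal w.ne_bot Q hw3 _ h1

/-- The tower: the L-value over K is a unit if and only if the L-value over M is a unit and the factors at the ramified
primes are units. -/
theorem LVP_tower_iff (p : ℕ) (hp : p.Prime) (M L : IntermediateField F Ω) (hL : PExt p M L)
    [NumberField M] [NumberField L] {m : Ideal (𝓞 F)} {ψ : Ideal (𝓞 F) →*₀ 𝓞 F} (h : IsHecke m ψ)
    (hmp : IsCoprime m (Ideal.span {(p : 𝓞 F)})) (Ac Bc Om : ℂ)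
    (hper : Per F Ac Bc Om) (V : ValuationSubring ℂ) (hV : V.valuation (p : ℂ) < 1)
    (hg : GoodV Ac Bc V) (hNT : NTP M p m ψ V)
    (K : IntermediateField F Ω) [NumberField K] (hMK : M ≤ K)
    (hKL : K ≤ L) (hU : UnrP p K) : LVP F V Om (PsiP K ψ) ↔ LVP F V Om (PsiP M ψ) ∧
      ∀ v : HeightOneSpectrum (𝓞 M), Ram M K v.asIdeal →
        V.valuation (1 - (starRingEnd ℂ) (PsiP M ψ v.asIdeal)) = 1 := by
  have hLf : FiniteDimensional F L := hL.fin
  have hMf : FiniteDimensional F M := finDim_of_le hL.le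
  have key : ∀ (n : ℕ) (K : IntermediateField F Ω) [NumberField K], M ≤ K → K ≤ L → UnrP p K →
      Module.finrank F K = n → (LVP F V Om (PsiP K ψ) ↔ LVP F V Om (PsiP M ψ) ∧
        ∀ v : HeightOneSpectrum (𝓞 M), Ram M K v.asIdeal →
          V.valuation (1 - (starRingEnd ℂ) (PsiP M ψ v.asIdeal)) = 1) := by
    intro n
    induction n using Nat.strong_induction_on with
    | _ n ih =>
      intro K _ hMK hKL hU hn
      rcases eq_or_ne K M with rfl | hne
      · refine ⟨fun h => ⟨h, fun v hv => ?_⟩, fun h => h.1⟩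
        exfalso
        obtain ⟨W, hWp, hW⟩ := hv
        have h1 : v.asIdeal ≤ W ^ 2 := fun x hx => hW x x hx rfl
        have hWn : W ≠ ⊥ := by
          rintro rfl
          apply v.ne_bot
          rw [eq_bot_iff]
          exact h1.trans (Ideal.pow_le_self two_ne_zero)
        have h2 : v.asIdeal = W := v.isMaximal.eq_of_le hWp.ne_top (h1.trans (Ideal.pow_le_self two_ne_zero))
        have h3 : W ≤ W ^ 2 := h2 ▸ h1
        have h4 := Ideal.pow_right_strictAnti W hWn hWp.ne_top (show 1 < 2 by norm_num)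
        have h4' : W ^ 2 < W ^ 1 := h4
        rw [pow_one] at h4'
        exact lt_irrefl _ (lt_of_lt_of_le h4' h3)
      obtain ⟨N, hMN, hNK, hdeg, hnorm⟩ := chain_step p hp M K L hL hMK hKL hne
      have hKf : FiniteDimensional F K := finDim_of_le hKL
      have hNf : FiniteDimensional F N := finDim_of_le hNK
      have hNn : NumberField N := H16C.FR_numberField N
      have hNpos : 0 < Module.finrank F N := Module.finrank_pos
      have hlt : Module.finrank F N < n := by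
        rw [← hn, hdeg]
        exact lt_mul_of_one_lt_right hNpos hp.one_lt
      letI iNK : Algebra N K := (IntermediateField.inclusion hNK).toRingHom.toAlgebra
      letI iMN : Algebra M N := (IntermediateField.inclusion hMN).toRingHom.toAlgebra
      obtain ⟨hst, hgal, hfr⟩ := chain_types p hp N K hNK hnorm hdeg
      have hstM : IsScalarTower F M N := alg_tower M N hMN
      have hLN := ih _ hlt N hMN (hNK.trans hKL) (UnrP.down N K p hp hU) rfl
      obtain ⟨j, hj⟩ := pext_deg p hp M N L hL hMN (hNK.trans hKL)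
      have hNTN : NTP N p m ψ V := NTP_up M N p hp j hj V hV hNT
      rw [LVP_step_iff N K p hp hfr h hmp hU Ac Bc Om hper V hV hg hNTN, hLN]
      have hrt := fun v => ram_tower M N K hMN hNK hnorm v
      constructor
      · rintro ⟨⟨h1, h2⟩, h3⟩
        refine ⟨h1, fun v hv => ?_⟩
        rcases (hrt v).1 hv with h4 | ⟨w, hw1, hw2⟩
        · exact h2 v h4
        · obtain ⟨v', hv', -, hf⟩ := ram_down p hp M N K L hL hMN hNK hKL hnorm w hw2
          have hf' : ∃ j : ℕ, w.asIdeal.inertiaDeg (𝓞 M) = p ^ j := hf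
          exact (adm_iff M N p hp V hV v w hw1 hf').2 (h3 w hw2)
      · rintro ⟨h1, h2⟩
        refine ⟨⟨h1, fun v hv => h2 v ((hrt v).2 (Or.inl hv))⟩, fun w hw => ?_⟩
        obtain ⟨v, hv, -, hf⟩ := ram_down p hp M N K L hL hMN hNK hKL hnorm w hw
        exact adm_up M N p hp V hV v w hv hf (h2 v ((hrt v).2 (Or.inr ⟨w, hv, hw⟩)))
  exact key _ K hMK hKL hU rfl

end H55P
end

-- from Lib.H55P.CL
section

open NumberField IsDedekindDomain

namespace H55P

/-! Ramification in a Galois closure. -/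

section types

variable {M X L : Type} [Field M] [NumberField M] [Field X] [NumberField X] [Field L] [NumberField L]
  [Algebra M X] [Algebra X L] [Algebra M L] [IsScalarTower M X L] [IsGalois M L]

theorem cl_card (W : Ideal (𝓞 L)) [W.IsPrime] (hW : W ≠ ⊥) :
    Nat.card (W.inertia Gal(L/M)) = W.ramificationIdx (𝓞 M) := by
  have hl : W.LiesOver (W.under (𝓞 M)) := ⟨rfl⟩
  have hne : W.under (𝓞 M) ≠ ⊥ := fun h => hW (Ideal.eq_bot_of_comap_eq_bot (R := 𝓞 M) (I := W) h)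
  have hp' : (W.under (𝓞 M)).IsPrime := inferInstance
  have hmax : (W.under (𝓞 M)).IsMaximal := hp'.isMaximal hne
  rw [Ideal.card_inertia_eq_ramificationIdxIn (G := Gal(L/M)) (W.under (𝓞 M)) W,
    Ideal.ramificationIdxIn_eq_ramificationIdx (W.under (𝓞 M)) W Gal(L/M)]

omit [IsGalois M L] in
theorem cl_tower (W : Ideal (𝓞 L)) [W.IsPrime] :
    W.ramificationIdx (𝓞 M) = (W.under (𝓞 X)).ramificationIdx (𝓞 M) * W.ramificationIdx (𝓞 X) := by
  have hl : W.LiesOver (W.under (𝓞 X)) := ⟨rfl⟩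
  exact Ideal.ramificationIdx_tower (R := 𝓞 M) (W.under (𝓞 X)) W

/-- The restriction of scalars on inertia groups. -/
noncomputable def clmap (W : Ideal (𝓞 L)) :
    W.inertia Gal(L/X) → W.inertia Gal(L/M) := fun t => ⟨t.1.restrictScalars M, fun x => t.2 x⟩

omit [NumberField M] [NumberField X] [NumberField L] [IsGalois M L] in
theorem clmap_inj (W : Ideal (𝓞 L)) :
    Function.Injective (clmap (M := M) (X := X) W) := by
  intro s t h
  apply Subtype.ext
  apply AlgEquiv.ext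
  intro x
  have h1 := congrArg (fun r : W.inertia Gal(L/M) => (r.1 : L → L) x) h
  exact h1

theorem cl_fix (W : Ideal (𝓞 L)) [W.IsPrime] (hW : W ≠ ⊥)
    (he : (W.under (𝓞 X)).ramificationIdx (𝓞 M) = 1) (t : Gal(L/M)) (ht : t ∈ W.inertia Gal(L/M)) (x : X) :
    t (algebraMap X L x) = algebraMap X L x := by
  have hg : IsGalois X L := IsGalois.tower_top_of_isGalois M X L
  have h1 := cl_card (M := M) W hW
  have h2 := cl_card (M := X) W hW
  have h3 := cl_tower (M := M) (X := X) W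
  rw [he, one_mul] at h3
  have hfin : Finite (W.inertia Gal(L/M)) := inferInstance
  have hbij : Function.Bijective (clmap (M := M) (X := X) W) :=
    (clmap_inj (M := M) (X := X) W).bijective_of_nat_card_le (by rw [h1, h2, h3])
  obtain ⟨s, hs⟩ := hbij.2 ⟨t, ht⟩
  have h4 := congrArg (fun r : W.inertia Gal(L/M) => (r.1 : L → L) (algebraMap X L x)) hs
  have h5 : s.1 (algebraMap X L x) = t (algebraMap X L x) := h4
  rw [← h5, s.1.commutes]

theorem cl_unr (W : Ideal (𝓞 L)) [W.IsPrime] (hW : W ≠ ⊥)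
    (h : ∀ t ∈ W.inertia Gal(L/M), ∀ x : X, t (algebraMap X L x) = algebraMap X L x) :
    (W.under (𝓞 X)).ramificationIdx (𝓞 M) = 1 := by
  have hg : IsGalois X L := IsGalois.tower_top_of_isGalois M X L
  have h1 := cl_card (M := M) W hW
  have h2 := cl_card (M := X) W hW
  have h3 := cl_tower (M := M) (X := X) W
  have hsurj : Function.Surjective (clmap (M := M) (X := X) W) := by
    rintro ⟨t, ht⟩
    let s : Gal(L/X) := AlgEquiv.ofRingEquiv (f := t.toRingEquiv) (h t ht)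
    exact ⟨⟨s, fun x => ht x⟩, Subtype.ext (AlgEquiv.ext fun x => rfl)⟩
  have hle := Nat.card_le_card_of_surjective _ hsurj
  rw [h1, h2, h3] at hle
  have hne : W.under (𝓞 X) ≠ ⊥ := fun h => hW (Ideal.eq_bot_of_comap_eq_bot (R := 𝓞 X) (I := W) h)
  have hX : 0 < W.ramificationIdx (𝓞 X) := Ideal.ramificationIdx_pos W (𝓞 X)
  have hM : 0 < (W.under (𝓞 X)).ramificationIdx (𝓞 M) :=
    Ideal.ramificationIdx_pos (W.under (𝓞 X)) (𝓞 M)
  have h4 : (W.under (𝓞 X)).ramificationIdx (𝓞 M) ≤ 1 := by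
    by_contra hc
    have h5 : 2 * W.ramificationIdx (𝓞 X) ≤
        (W.under (𝓞 X)).ramificationIdx (𝓞 M) * W.ramificationIdx (𝓞 X) :=
      Nat.mul_le_mul_right _ (by omega)
    omega
  omega

end types

section closure

variable {F : Type} [Field F] [NumberField F] {Ω : Type} [Field Ω] [DecidableEq Ω]
  [Algebra F Ω] [IsAlgClosed Ω] [Algebra.IsAlgebraic F Ω] [CharZero Ω]

/-- The Galois closure of K over M. -/
noncomputable def clos (M K : IntermediateField F Ω) : IntermediateField F Ω :=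
  IntermediateField.adjoin F {y | ∃ g ∈ M.fixingSubgroup, ∃ x ∈ K, y = g x}

omit [NumberField F] [DecidableEq Ω] [IsAlgClosed Ω] [Algebra.IsAlgebraic F Ω] [CharZero Ω] in
theorem le_clos (M K : IntermediateField F Ω) : K ≤ clos M K := fun x hx =>
  IntermediateField.subset_adjoin F _ ⟨1, one_mem _, x, hx, rfl⟩

omit [NumberField F] [DecidableEq Ω] [IsAlgClosed Ω] [Algebra.IsAlgebraic F Ω] [CharZero Ω] in
theorem clos_le (M K L : IntermediateField F Ω) (hKL : K ≤ L)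
    (hn : ∀ s ∈ M.fixingSubgroup, ∀ x ∈ L, s x ∈ L) : clos M K ≤ L := by
  unfold clos
  rw [IntermediateField.adjoin_le_iff]
  rintro _ ⟨g, hg, x, hx, rfl⟩
  exact hn g hg x (hKL hx)

omit [NumberField F] [DecidableEq Ω] [IsAlgClosed Ω] [Algebra.IsAlgebraic F Ω] [CharZero Ω] in
theorem clos_norm (M K : IntermediateField F Ω) (s : Ω ≃ₐ[F] Ω) (hs : s ∈ M.fixingSubgroup) (x : Ω)
    (hx : x ∈ clos M K) : s x ∈ clos M K := by
  have h : clos M K ≤ (clos M K).comap (s : Ω →ₐ[F] Ω) := by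
    conv_lhs => unfold clos
    rw [IntermediateField.adjoin_le_iff]
    rintro _ ⟨g, hg, x, hx, rfl⟩
    show s (g x) ∈ clos M K
    exact IntermediateField.subset_adjoin F _ ⟨s * g, mul_mem hs hg, x, hx, rfl⟩
  exact h hx

omit [DecidableEq Ω] [IsAlgClosed Ω] [CharZero Ω] [Algebra.IsAlgebraic F Ω] in
theorem clos_pext (p : ℕ) (hp : p.Prime) (M K L : IntermediateField F Ω) (hL : PExt p M L)
    (hMK : M ≤ K) (hKL : K ≤ L) : PExt p M (clos M K) := by
  have hLf := hL.fin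
  have hle := clos_le M K L hKL hL.norm
  have hMc : M ≤ clos M K := hMK.trans (le_clos M K)
  have hcf : FiniteDimensional F (clos M K) := finDim_of_le hle
  have hMf : FiniteDimensional F M := finDim_of_le hMc
  refine ⟨hcf, hMc, fun s hs x hx => clos_norm M K s hs x hx, ?_⟩
  letI : Algebra M (clos M K) := (IntermediateField.inclusion hMc).toRingHom.toAlgebra
  obtain ⟨j, hj⟩ := pext_deg p hp M (clos M K) L hL hMc hle
  have hst : IsScalarTower F M (clos M K) := alg_tower M (clos M K) hMc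
  exact ⟨j, by rw [← Module.finrank_mul_finrank F M (clos M K), hj]⟩

omit [DecidableEq Ω] in
/-- The ramified primes of the Galois closure. -/
theorem clos_ram (M K L : IntermediateField F Ω) [FiniteDimensional F L]
    [NumberField M] (hMK : M ≤ K) (hKL : K ≤ L) (hn : ∀ s ∈ M.fixingSubgroup, ∀ x ∈ L, s x ∈ L)
    (v : HeightOneSpectrum (𝓞 M)) (hv : Ram M (clos M K) v.asIdeal) : Ram M K v.asIdeal := by
  by_contra hnr
  have hCL : clos M K ≤ L := clos_le M K L hKL hn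
  have hMC : M ≤ clos M K := hMK.trans (le_clos M K)
  have hKf : FiniteDimensional F K := finDim_of_le hKL
  have hCf : FiniteDimensional F (clos M K) := finDim_of_le hCL
  have hMf : FiniteDimensional F M := finDim_of_le hMK
  have hLn : NumberField L := H16C.FR_numberField L
  have hKn : NumberField K := H16C.FR_numberField K
  have hCn : NumberField (clos M K) := H16C.FR_numberField _
  let _ : Algebra M L := s13_alg (hMK.trans hKL)
  let _ : Algebra M K := s13_alg hMK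
  let _ : Algebra K L := s13_alg hKL
  let _ : Algebra M (clos M K) := s13_alg hMC
  let _ : Algebra (clos M K) L := s13_alg hCL
  have t1 : IsScalarTower M K L := IsScalarTower.of_algebraMap_eq fun x => rfl
  have t2 : IsScalarTower M (clos M K) L := IsScalarTower.of_algebraMap_eq fun x => rfl
  have hgal : IsGalois M L := s13_galois M L (hMK.trans hKL) hn
  -- inertia groups above v fix K
  have hfixK : ∀ W : Ideal (𝓞 L), W.IsPrime → W.under (𝓞 M) = v.asIdeal →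
      ∀ t ∈ W.inertia Gal(L/M), ∀ x : K, t (algebraMap K L x) = algebraMap K L x := by
    intro W hWp hW t ht x
    have hWb : W ≠ ⊥ := by
      rintro rfl
      apply v.ne_bot
      rw [← hW, eq_bot_iff]
      intro y hy
      have h1 : algebraMap (𝓞 M) (𝓞 L) y = 0 := by
        have : algebraMap (𝓞 M) (𝓞 L) y ∈ (⊥ : Ideal (𝓞 L)) := hy
        simpa using this
      exact (map_eq_zero_iff _ (FaithfulSMul.algebraMap_injective (𝓞 M) (𝓞 L))).1 h1
    refine cl_fix W hWb ?_ t ht x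
    by_contra hr
    apply hnr
    have hov : (W.under (𝓞 K)).LiesOver v.asIdeal := by
      refine ⟨?_⟩
      rw [← hW]
      ext y
      have h1 : algebraMap (𝓞 K) (𝓞 L) (algebraMap (𝓞 M) (𝓞 K) y) = algebraMap (𝓞 M) (𝓞 L) y := by
        apply RingOfIntegers.ext
        rfl
      show algebraMap (𝓞 M) (𝓞 L) y ∈ W ↔ algebraMap (𝓞 K) (𝓞 L) (algebraMap (𝓞 M) (𝓞 K) y) ∈ W
      rw [h1]
    refine ⟨W.under (𝓞 K), inferInstance, fun y z hy hyz => ?_⟩
    have h2 : z = algebraMap (𝓞 M) (𝓞 K) y := by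
      apply RingOfIntegers.ext
      apply Subtype.ext
      exact hyz
    rw [h2]
    exact s13_le_sq v.asIdeal v.ne_bot (W.under (𝓞 K)) hr y hy
  obtain ⟨W', hW'p, hW'⟩ := hv
  have hvm := v.isMaximal
  have hW'x : ∀ x ∈ v.asIdeal, algebraMap (𝓞 M) (𝓞 (clos M K)) x ∈ W' ^ 2 := fun x hx =>
    hW' x _ hx rfl
  have hW'b : W' ≠ ⊥ := by
    rintro rfl
    apply v.ne_bot
    rw [eq_bot_iff]
    intro x hx
    have h2 : algebraMap (𝓞 M) (𝓞 (clos M K)) x = 0 := by
      have : algebraMap (𝓞 M) (𝓞 (clos M K)) x ∈ (⊥ : Ideal (𝓞 (clos M K))) :=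
        Ideal.pow_le_self two_ne_zero (hW'x x hx)
      simpa using this
    exact (map_eq_zero_iff _ (FaithfulSMul.algebraMap_injective (𝓞 M) (𝓞 (clos M K)))).1 h2
  have hW'm : W'.IsMaximal := hW'p.isMaximal hW'b
  obtain ⟨W, hW1, hW2⟩ := Ideal.exists_maximal_ideal_liesOver_of_isIntegral (S := 𝓞 L) W'
  have hWp := hW1.isPrime
  have hWb : W ≠ ⊥ := Ideal.ne_bot_of_liesOver_of_ne_bot hW'b W
  have hWv : W.under (𝓞 M) = v.asIdeal := by
    symm
    refine hvm.eq_of_le (Ideal.IsPrime.ne_top inferInstance) fun x hx => ?_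
    show algebraMap (𝓞 M) (𝓞 L) x ∈ W
    have h1 : algebraMap (𝓞 (clos M K)) (𝓞 L) (algebraMap (𝓞 M) (𝓞 (clos M K)) x) =
        algebraMap (𝓞 M) (𝓞 L) x := by
      apply RingOfIntegers.ext
      rfl
    rw [← h1]
    have h2 : algebraMap (𝓞 M) (𝓞 (clos M K)) x ∈ W' := Ideal.pow_le_self two_ne_zero (hW'x x hx)
    rw [hW2.over] at h2
    exact h2
  have hu : W.under (𝓞 (clos M K)) = W' := hW2.over.symm
  -- restriction of automorphisms
  have hres : ∀ g ∈ M.fixingSubgroup, ∃ t : Gal(L/M), ∀ x : L, ((t x : L) : Ω) = g x.1 := by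
    intro g hg
    let e : L ≃+* L :=
      { toFun := fun x => ⟨g x.1, hn g hg x.1 x.2⟩
        invFun := fun x => ⟨g⁻¹ x.1, hn g⁻¹ (inv_mem hg) x.1 x.2⟩
        left_inv := fun x => Subtype.ext (g.symm_apply_apply x.1)
        right_inv := fun x => Subtype.ext (g.apply_symm_apply x.1)
        map_mul' := fun x y => Subtype.ext (map_mul g x.1 y.1)
        map_add' := fun x y => Subtype.ext (map_add g x.1 y.1) }
    exact ⟨AlgEquiv.ofRingEquiv (f := e) (fun x => Subtype.ext (hg x)), fun x => rfl⟩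
  have hfixC : ∀ t ∈ W.inertia Gal(L/M), ∀ x : clos M K,
      t (algebraMap (clos M K) L x) = algebraMap (clos M K) L x := by
    intro t ht
    have hstF : IsScalarTower F M L := IsScalarTower.of_algebraMap_eq fun x => rfl
    -- the fixed elements of L form a field containing the generators
    let Fx : IntermediateField F L := IntermediateField.fixedField
      (Subgroup.zpowers (t.restrictScalars F))
    have hmem : ∀ y : L, y ∈ Fx ↔ t y = y := by
      intro y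
      rw [IntermediateField.mem_fixedField_iff]
      constructor
      · intro h
        exact h _ (Subgroup.mem_zpowers _)
      · intro h f hf
        obtain ⟨n, rfl⟩ := Subgroup.mem_zpowers_iff.1 hf
        have h1 : t.restrictScalars F ∈ MulAction.stabilizer (L ≃ₐ[F] L) y := h
        exact zpow_mem h1 n
    have hle : clos M K ≤ IntermediateField.lift Fx := by
      unfold clos
      rw [IntermediateField.adjoin_le_iff]
      rintro _ ⟨g, hg, x, hx, rfl⟩
      obtain ⟨tg, htg⟩ := hres g hg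
      have h1 : ((tg ⟨x, hKL hx⟩ : L) : Ω) = g x := htg _
      have h2 : tg ⟨x, hKL hx⟩ ∈ Fx := by
        rw [hmem]
        obtain ⟨W₂, hW₂⟩ : ∃ W₂ : Ideal (𝓞 L),
            W₂ = W.comap (MulSemiringAction.toRingHom Gal(L/M) (𝓞 L) tg) := ⟨_, rfl⟩
        have hW₂p : W₂.IsPrime := by
          rw [hW₂]
          exact hWp.comap _
        have hm2 : ∀ y : 𝓞 L, y ∈ W₂ ↔ tg • y ∈ W := by
          intro y
          rw [hW₂]
          exact Iff.rfl
        have hu2 : W₂.under (𝓞 M) = v.asIdeal := by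
          rw [← hWv]
          ext y
          show algebraMap (𝓞 M) (𝓞 L) y ∈ W₂ ↔ algebraMap (𝓞 M) (𝓞 L) y ∈ W
          rw [hm2, smul_algebraMap]
        have hi2 : tg⁻¹ * t * tg ∈ W₂.inertia Gal(L/M) := by
          intro y
          show (tg⁻¹ * t * tg) • y - y ∈ W₂
          rw [hm2, smul_sub, ← mul_smul, ← mul_assoc, ← mul_assoc, mul_inv_cancel, one_mul, mul_smul]
          exact ht (tg • y)
        have h3 := hfixK W₂ hW₂p hu2 _ hi2 ⟨x, hx⟩
        have h4 : tg ((tg⁻¹ * t * tg) (algebraMap K L ⟨x, hx⟩)) = tg (algebraMap K L ⟨x, hx⟩) :=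
          congrArg tg h3
        have h5 : tg ((tg⁻¹ * t * tg) (algebraMap K L ⟨x, hx⟩)) = t (tg (algebraMap K L ⟨x, hx⟩)) := by
          show (tg * (tg⁻¹ * t * tg)) (algebraMap K L ⟨x, hx⟩) = (t * tg) (algebraMap K L ⟨x, hx⟩)
          rw [← mul_assoc, ← mul_assoc, mul_inv_cancel, one_mul]
        rw [h5] at h4
        exact h4
      have h6 := (IntermediateField.mem_lift (E := Fx) (tg ⟨x, hKL hx⟩)).2 h2
      rw [h1] at h6
      exact h6
    intro x
    have h7 := hle x.2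
    have h8 := (IntermediateField.mem_lift (E := Fx) (algebraMap (clos M K) L x)).1 h7
    exact (hmem _).1 h8
  have h5 := cl_unr (X := clos M K) W hWb hfixC
  rw [hu] at h5
  have hl : W'.LiesOver v.asIdeal := by
    refine ⟨?_⟩
    rw [← hWv, ← hu]
    ext y
    rfl
  exact i3_idx v.asIdeal v.ne_bot W' hW'x h5

end closure

end H55P
end

-- from Lib.H55K.RB1
section

/-! # H55K: primes in the quadratic extension -/

open NumberField IsDedekindDomain WeierstrassCurve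

namespace H55K.TQ

open H55P (IQ embF eF LF Per IsHecke Pt ac Inert Dec Nm UnitP)
open H35P (WAB Ker tt GoodW IntW)
open H55K.MG (VC Crd)

variable {F K₀ K : Type} [Field F] [NumberField F] [IQ F] [Field K₀] [NumberField K₀] [Field K] [NumberField K]
  [Algebra F K] [Algebra K₀ K]

/-- Chunk RB1 (M). K/K₀ is Galois of degree 2 (τ is not the identity: it is the conjugation on F, IQ.im, e_cj), group {1, τ}. g e f = 2 (Ideal.ncard_primesOver_mul_ramificationIdxIn_mul_inertiaDegIn or sum of e f = 2): g = 2: two primes, f = 1: N w = N v. g = 1, f = 2: N w = (N v)^2. g = 1, e = 2: the inertia group of w has e = 2 elements (H55P.cl_card in CL.lean),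
so it contains τ: τ x - x in w for all x in 𝓞 K; in particular for the elements of 𝓞 F: a - cj a in w. N = absNorm; w above v: w.asIdeal.under (𝓞 K₀) = v.asIdeal. -/
theorem quad_primes (hQ : QuadG F K₀ K) (v : HeightOneSpectrum (𝓞 K₀)) :
    (∃ w₁ w₂ : HeightOneSpectrum (𝓞 K), w₁ ≠ w₂ ∧ Ideal.absNorm w₁.asIdeal = Ideal.absNorm v.asIdeal ∧
      Ideal.absNorm w₂.asIdeal = Ideal.absNorm v.asIdeal ∧
      ∀ w : HeightOneSpectrum (𝓞 K), v.asIdeal = w.asIdeal.under (𝓞 K₀) ↔ w = w₁ ∨ w = w₂) ∨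
    (∃ w₁ : HeightOneSpectrum (𝓞 K), Ideal.absNorm w₁.asIdeal = Ideal.absNorm v.asIdeal ^ 2 ∧
      ∀ w : HeightOneSpectrum (𝓞 K), v.asIdeal = w.asIdeal.under (𝓞 K₀) ↔ w = w₁) ∨
    (∃ w₁ : HeightOneSpectrum (𝓞 K), (∀ a : 𝓞 F, algebraMap (𝓞 F) (𝓞 K) (a - cj a) ∈ w₁.asIdeal) ∧
      ∀ w : HeightOneSpectrum (𝓞 K), v.asIdeal = w.asIdeal.under (𝓞 K₀) ↔ w = w₁) := by
  haveI : Algebra.IsQuadraticExtension K₀ K := ⟨hQ.rank⟩
  haveI hgal : IsGalois K₀ K := inferInstance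
  obtain ⟨τ, hτ⟩ := hQ.tau
  have hcardG : Nat.card Gal(K/K₀) = 2 := by
    rw [IsGalois.card_aut_eq_finrank, hQ.rank]
  have hmax : v.asIdeal.IsMaximal := v.isMaximal
  have hid := Ideal.ncard_primesOver_mul_ramificationIdxIn_mul_inertiaDegIn v.asIdeal (𝓞 K) Gal(K/K₀)
  rw [hcardG] at hid
  -- every prime above
  have hprime : ∀ P ∈ Ideal.primesOver v.asIdeal (𝓞 K), ∃ w : HeightOneSpectrum (𝓞 K), w.asIdeal = P := by
    rintro P ⟨hP1, hP2⟩
    refine ⟨⟨P, hP1, ?_⟩, rfl⟩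
    exact Ideal.ne_bot_of_liesOver_of_ne_bot v.ne_bot P
  have hmem : ∀ w : HeightOneSpectrum (𝓞 K), v.asIdeal = w.asIdeal.under (𝓞 K₀) ↔
      w.asIdeal ∈ Ideal.primesOver v.asIdeal (𝓞 K) := by
    intro w
    constructor
    · intro h
      exact ⟨w.isPrime, ⟨h⟩⟩
    · intro h
      exact h.2.over
  have hnorm : ∀ w : HeightOneSpectrum (𝓞 K), w.asIdeal ∈ Ideal.primesOver v.asIdeal (𝓞 K) →
      Ideal.absNorm w.asIdeal = Ideal.absNorm v.asIdeal ^ (Ideal.inertiaDegIn v.asIdeal (𝓞 K)) := by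
    intro w hw
    have hlies : w.asIdeal.LiesOver v.asIdeal := hw.2
    have h3 := Ideal.absNorm_eq_pow_inertiaDeg'_of_liesOver w.asIdeal v.asIdeal v.isPrime v.ne_bot
    rw [Ideal.inertiaDeg'_algebraMap] at h3
    rw [h3, Ideal.inertiaDegIn_eq_inertiaDeg v.asIdeal w.asIdeal Gal(K/K₀),
      Ideal.inertiaDeg_eq_of_isMaximal v.asIdeal w.asIdeal]
  have hcases : ((Ideal.primesOver v.asIdeal (𝓞 K)).ncard = 2 ∧ Ideal.inertiaDegIn v.asIdeal (𝓞 K) = 1) ∨
      ((Ideal.primesOver v.asIdeal (𝓞 K)).ncard = 1 ∧ Ideal.inertiaDegIn v.asIdeal (𝓞 K) = 2) ∨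
      ((Ideal.primesOver v.asIdeal (𝓞 K)).ncard = 1 ∧ Ideal.ramificationIdxIn v.asIdeal (𝓞 K) = 2) := by
    generalize (Ideal.primesOver v.asIdeal (𝓞 K)).ncard = g at hid
    generalize Ideal.ramificationIdxIn v.asIdeal (𝓞 K) = e at hid
    generalize Ideal.inertiaDegIn v.asIdeal (𝓞 K) = f at hid
    have h1 : g ∣ 2 := ⟨_, hid.symm⟩
    rcases (Nat.dvd_prime Nat.prime_two).1 h1 with h2 | h2
    · rw [h2, one_mul] at hid
      have h3 : e ∣ 2 := ⟨_, hid.symm⟩
      rcases (Nat.dvd_prime Nat.prime_two).1 h3 with h4 | h4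
      · rw [h4, one_mul] at hid
        exact Or.inr (Or.inl ⟨h2, hid⟩)
      · exact Or.inr (Or.inr ⟨h2, h4⟩)
    · rw [h2] at hid
      have h3 : e * f = 1 := by omega
      exact Or.inl ⟨h2, Nat.eq_one_of_mul_eq_one_left h3⟩
  rcases hcases with ⟨hg, hf⟩ | ⟨hg, hf⟩ | ⟨hg, he⟩
  · left
    rw [Set.ncard_eq_two] at hg
    obtain ⟨P₁, P₂, hne, hP⟩ := hg
    obtain ⟨w₁, hw₁⟩ := hprime P₁ (by rw [hP]; exact Or.inl rfl)
    obtain ⟨w₂, hw₂⟩ := hprime P₂ (by rw [hP]; exact Or.inr rfl)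
    refine ⟨w₁, w₂, ?_, ?_, ?_, ?_⟩
    · rintro rfl
      exact hne (hw₁.symm.trans hw₂)
    · rw [hnorm w₁ (by rw [hw₁, hP]; exact Or.inl rfl), hf, pow_one]
    · rw [hnorm w₂ (by rw [hw₂, hP]; exact Or.inr rfl), hf, pow_one]
    · intro w
      rw [hmem, hP]
      constructor
      · rintro (h | h)
        · exact Or.inl (HeightOneSpectrum.ext (h.trans hw₁.symm))
        · exact Or.inr (HeightOneSpectrum.ext (h.trans hw₂.symm))
      · rintro (h | h)
        · left; rw [h, hw₁]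
        · right; rw [h, hw₂]; exact Set.mem_singleton _
  · right; left
    rw [Set.ncard_eq_one] at hg
    obtain ⟨P₁, hP⟩ := hg
    obtain ⟨w₁, hw₁⟩ := hprime P₁ (by rw [hP]; exact Set.mem_singleton _)
    refine ⟨w₁, ?_, ?_⟩
    · rw [hnorm w₁ (by rw [hw₁, hP]; exact Set.mem_singleton _), hf]
    · intro w
      rw [hmem, hP, Set.mem_singleton_iff]
      constructor
      · intro h
        exact HeightOneSpectrum.ext (h.trans hw₁.symm)
      · intro h
        rw [h, hw₁]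
  · right; right
    rw [Set.ncard_eq_one] at hg
    obtain ⟨P₁, hP⟩ := hg
    obtain ⟨w₁, hw₁⟩ := hprime P₁ (by rw [hP]; exact Set.mem_singleton _)
    refine ⟨w₁, ?_, ?_⟩
    · have hw1mem : w₁.asIdeal ∈ Ideal.primesOver v.asIdeal (𝓞 K) := by
        rw [hw₁, hP]; exact Set.mem_singleton _
      have hlies : w₁.asIdeal.LiesOver v.asIdeal := hw1mem.2
      have hne0 : w₁.asIdeal ≠ ⊥ := w₁.ne_bot
      have hcard := H55P.cl_card (M := K₀) w₁.asIdeal w₁.ne_bot
      rw [← Ideal.ramificationIdxIn_eq_ramificationIdx v.asIdeal w₁.asIdeal Gal(K/K₀), he] at hcard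
      have htop : w₁.asIdeal.inertia Gal(K/K₀) = ⊤ := by
        apply Subgroup.eq_top_of_card_eq
        rw [hcard, hcardG]
      intro a
      have hin : τ ∈ w₁.asIdeal.inertia Gal(K/K₀) := by rw [htop]; exact Subgroup.mem_top _
      have h1 := hin (algebraMap (𝓞 F) (𝓞 K) a)
      have h2 : τ • (algebraMap (𝓞 F) (𝓞 K) a) = algebraMap (𝓞 F) (𝓞 K) (cj a) := by
        apply RingOfIntegers.ext
        exact hτ a
      rw [h2, ← map_sub] at h1
      rw [show a - cj a = -(cj a - a) by ring, map_neg]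
      exact w₁.asIdeal.neg_mem h1
    · intro w
      rw [hmem, hP, Set.mem_singleton_iff]
      constructor
      · intro h
        exact HeightOneSpectrum.ext (h.trans hw₁.symm)
      · intro h
        rw [h, hw₁]

end H55K.TQ
end

-- from Lib.H55K.RH
section

/-! # H55K: the Euler factors over the quadratic extension -/

open NumberField IsDedekindDomain WeierstrassCurve

namespace H55K.TQ

open H55P (IQ embF eF LF Per IsHecke Pt ac Inert Dec Nm UnitP)
open H35P (WAB Ker tt GoodW IntW)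
open H55K.MG (VC Crd)
open H55K.DD (LF' ef)

variable {F K₀ K : Type} [Field F] [NumberField F] [IQ F] [Field K₀] [NumberField K₀] [Field K] [NumberField K]
  [Algebra F K] [Algebra K₀ K]

theorem rh_int {R : Type} [CommRing R] {I : Ideal R} (hI : I ≠ ⊤) {l : ℕ} (hl : l.Prime) (hlI : (l : R) ∈ I) (d : ℤ) :
    (d : R) ∈ I ↔ (l : ℤ) ∣ d := by
  constructor
  · intro hd
    by_contra hn
    have hcop : IsCoprime (l : ℤ) d := (Int.isCoprime_iff_gcd_eq_one).2
      ((Nat.Prime.coprime_iff_not_dvd hl).2 fun h => hn (Int.natCast_dvd.2 h))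
    obtain ⟨a, b, hab⟩ := hcop
    have h1 : (a : R) * (l : R) + (b : R) * (d : R) = 1 := by
      have := congrArg (fun z : ℤ => (z : R)) hab
      push_cast at this
      exact this
    apply hI
    rw [Ideal.eq_top_iff_one, ← h1]
    exact add_mem (Ideal.mul_mem_left _ _ hlI) (Ideal.mul_mem_left _ _ hd)
  · rintro ⟨c, rfl⟩
    push_cast
    exact Ideal.mul_mem_right _ _ hlI

theorem rh_disc (W : WeierstrassCurve ℤ) (R : Type) [CommRing R] : (W⁄R).Δ = ((W.Δ : ℤ) : R) := by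
  show (W.map (algebraMap ℤ R)).Δ = _
  rw [WeierstrassCurve.map_Δ, eq_intCast]

theorem rh_over {R S : Type} [CommRing R] [CommRing S] [Algebra R S] {I : Ideal R} {J : Ideal S}
    (h : I = J.under R) {l : ℕ} (hl : (l : R) ∈ I) : (l : S) ∈ J := by
  rw [h, Ideal.under_def, Ideal.mem_comap, map_natCast] at hl
  exact hl

theorem rh_under {R S : Type} [CommRing R] [CommRing S] [Algebra R S] {I : Ideal R} {J : Ideal S}
    (h : I = J.under R) {l : ℕ} (hl : (l : S) ∈ J) : (l : R) ∈ I := by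
  rw [h, Ideal.under_def, Ideal.mem_comap, map_natCast]
  exact hl

theorem rh_roots (t l : ℂ) : ∃ α β : ℂ, α + β = t ∧ α * β = l := by
  obtain ⟨s, hs⟩ := IsAlgClosed.exists_pow_nat_eq (t ^ 2 - 4 * l) (n := 2) (by norm_num)
  refine ⟨(t + s) / 2, (t - s) / 2, by ring, ?_⟩
  linear_combination (-1 / 4) * hs

/-- Chunk RH (M). l, f from below_W for v. If Δ is in v (l divides Δ: an integer in v is divisible by l): hbad for the w above v (one exists; mK m ≤ w: m contained in w ∩ 𝓞 F because Δ is in it, hsupp), good_up: W⁄K₀ is bad at v: LF' = 1 (lf_W_bad), and LF' = 1 at all w. Otherwise l does not divide Δ; t = l + 1 - #W(ZMod l), α, β the roots of x^2 - t x + l in ℂ. quad_primes: third case: a - cj a in w₁ ∩ 𝓞 F =: v_F for all a,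
so Δ in v_F (hram), Δ in w₁, l divides Δ: excluded. Two primes: absNorm = l^f: all three local factors are ef(q)(α^f) ef(q)(β^f) (lf_W): the product over T = {w₁, w₂} is the square. One prime with absNorm (l^f)^2 = l^(2f): quad_inert (third case excluded for w as before): f odd, v_F = (l), inert_F (Δ not in v_F; not m ≤ v_F by hsupp): #W(ZMod l) = l + 1, t = 0,
β = -α, α^2 = -l. LF' over K₀: ef(q)(α^f) ef(q)(-α^f) = ef(q^2)(α^(2f)) (ef_sq, f odd), over K: ef(q^2)(α^(2f)) ef(q^2)(β^(2f)), β^(2f) = α^(2f). -/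
theorem lf_sq (hQ : QuadG F K₀ K) {W : WeierstrassCurve ℤ} {m : Ideal (𝓞 F)} {ψ : Ideal (𝓞 F) →*₀ 𝓞 F}
    (hψ : H55P.IsHecke m ψ)
    (hdeu : ∀ v : HeightOneSpectrum (𝓞 F), (W⁄(𝓞 F)).Δ ∉ v.asIdeal → ¬ m ≤ v.asIdeal →
      Nat.card ((W⁄(𝓞 F))⁄(𝓞 F ⧸ v.asIdeal)).toAffine.Point = Nm (1 - ψ v.asIdeal))
    (hsupp : ∀ v : HeightOneSpectrum (𝓞 F), (W⁄(𝓞 F)).Δ ∈ v.asIdeal ↔ m ≤ v.asIdeal)
    (hram : ∀ v : HeightOneSpectrum (𝓞 F), (∀ a : 𝓞 F, a - cj a ∈ v.asIdeal) → (W⁄(𝓞 F)).Δ ∈ v.asIdeal)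
    {j₀ : ℤ} (hj : W.c₄ ^ 3 = j₀ * W.Δ) (hbad : ∀ w : HeightOneSpectrum (𝓞 K), H55P.mK K m ≤ w.asIdeal → ¬ GoodAt (W⁄K) w)
    (v : HeightOneSpectrum (𝓞 K₀)) (T : Finset (HeightOneSpectrum (𝓞 K)))
    (hT : ∀ w, w ∈ T ↔ v.asIdeal = w.asIdeal.under (𝓞 K₀)) :
    ∏ w ∈ T, LF' (W⁄K) w = LF' (W⁄K₀) v * LF' (W⁄K₀) v := by
  classical
  obtain ⟨l, f, hl, hlv, hf, hNv⟩ := below_W v
  have hq := quad_primes hQ v
  by_cases hlΔ : (l : ℤ) ∣ W.Δ
  · -- bad reduction
    have hb : ∀ w : HeightOneSpectrum (𝓞 K), v.asIdeal = w.asIdeal.under (𝓞 K₀) → ¬ GoodAt (W⁄K) w := by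
      intro w hw
      apply hbad
      obtain ⟨v', hv', -, -, hm⟩ := H55K.DD.below (F := F) (m := m) w
      rw [hm, ← hsupp, rh_disc, rh_int v'.isPrime.ne_top hl (rh_under hv' (rh_over hw hlv))]
      exact hlΔ
    have h1 : ∏ w ∈ T, LF' (W⁄K) w = 1 := Finset.prod_eq_one fun w hw => lf_W_bad W w hj (hb w ((hT w).1 hw))
    have hex : ∃ w : HeightOneSpectrum (𝓞 K), v.asIdeal = w.asIdeal.under (𝓞 K₀) := by
      rcases hq with ⟨w₁, w₂, -, -, -, h⟩ | ⟨w₁, -, h⟩ | ⟨w₁, -, h⟩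
      · exact ⟨w₁, (h w₁).2 (Or.inl rfl)⟩
      · exact ⟨w₁, (h w₁).2 rfl⟩
      · exact ⟨w₁, (h w₁).2 rfl⟩
    obtain ⟨w, hw⟩ := hex
    have hbv : ¬ GoodAt (W⁄K₀) v := by
      intro hg
      apply hb w hw
      have h2 := good_up hw hg
      have e : ((W⁄K₀)⁄K) = W⁄K := by
        show (W.map (algebraMap ℤ K₀)).map (algebraMap K₀ K) = W.map (algebraMap ℤ K)
        rw [WeierstrassCurve.map_map]
        congr 1
        exact Subsingleton.elim _ _
      rwa [e] at h2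
    rw [h1, lf_W_bad W v hj hbv, mul_one]
  -- good reduction
  obtain ⟨α, β, h1, h2⟩ := rh_roots ((l : ℂ) + 1 - (Nat.card (W⁄(ZMod l)).toAffine.Point : ℂ)) (l : ℂ)
  have hLv := lf_W W v hl hlv hlΔ α β h1 h2 hNv
  have hnr : ∀ w : HeightOneSpectrum (𝓞 K), v.asIdeal = w.asIdeal.under (𝓞 K₀) →
      ¬ ∀ a : 𝓞 F, algebraMap (𝓞 F) (𝓞 K) (a - cj a) ∈ w.asIdeal := by
    intro w hw hall
    obtain ⟨v', hv', -, -, -⟩ := H55K.DD.below (F := F) (m := m) w
    have h3 := hram v' fun a => by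
      rw [hv', Ideal.under_def, Ideal.mem_comap]
      exact hall a
    rw [rh_disc, rh_int v'.isPrime.ne_top hl (rh_under hv' (rh_over hw hlv))] at h3
    exact hlΔ h3
  rcases hq with ⟨w₁, w₂, hne, hN1, hN2, h⟩ | ⟨w₁, hN1, h⟩ | ⟨w₁, hN1, h⟩
  · -- split
    have hTe : T = {w₁, w₂} := by
      ext w
      rw [hT, h, Finset.mem_insert, Finset.mem_singleton]
    have e1 := lf_W W w₁ hl (rh_over ((h w₁).2 (Or.inl rfl)) hlv) hlΔ α β h1 h2 (hN1.trans hNv)
    have e2 := lf_W W w₂ hl (rh_over ((h w₂).2 (Or.inr rfl)) hlv) hlΔ α β h1 h2 (hN2.trans hNv)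
    rw [hTe, Finset.prod_pair hne, e1, e2, hLv, hN1, hN2]
  · -- inert
    have hw1 := (h w₁).2 rfl
    have hTe : T = {w₁} := by
      ext w
      rw [hT, h, Finset.mem_singleton]
    obtain ⟨hodd, hund⟩ := quad_inert hQ v w₁ hN1 h (hnr w₁ hw1) hl hNv
    obtain ⟨v', hv', -, -, hm⟩ := H55K.DD.below (F := F) (m := m) w₁
    have hΔ' : (W⁄(𝓞 F)).Δ ∉ v'.asIdeal := by
      rw [rh_disc, rh_int v'.isPrime.ne_top hl (rh_under hv' (rh_over hw1 hlv))]
      exact hlΔ
    have hm' : ¬ m ≤ v'.asIdeal := fun h3 => hΔ' ((hsupp v').2 h3)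
    have hcard := (inert_F hψ hdeu hl v' (hv'.trans hund) hΔ' hm').1
    have hβ : β = -α := by
      rw [hcard] at h1
      push_cast at h1
      linear_combination h1
    have hNw : Ideal.absNorm w₁.asIdeal = l ^ (2 * f) := by
      rw [hN1, hNv, ← pow_mul, mul_comm]
    have e1 := lf_W W w₁ hl (rh_over hw1 hlv) hlΔ α β h1 h2 hNw
    have hq1 : 1 < Ideal.absNorm v.asIdeal := by
      rw [hNv]
      exact Nat.one_lt_pow hf.ne' hl.one_lt
    have e2 : LF' (W⁄K₀) v = ef (Ideal.absNorm v.asIdeal ^ 2) (α ^ (2 * f)) := by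
      rw [hLv, hβ, hodd.neg_pow, ef_sq hq1, ← pow_mul, mul_comm f 2]
    have e3 : β ^ (2 * f) = α ^ (2 * f) := by
      rw [hβ, pow_mul, neg_sq, ← pow_mul]
    rw [hTe, Finset.prod_singleton, e1, e2, e3, hN1]
  · exact absurd hN1 (hnr w₁ ((h w₁).2 rfl))

end H55K.TQ
end

-- from Lib.H55K.RI2
section

/-! # H55K: the L-function over a field which does not contain F -/

open NumberField IsDedekindDomain WeierstrassCurve

namespace H55K.TQ

open H55P (IQ embF eF LF Per IsHecke Pt ac Inert Dec Nm UnitP)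
open H35P (WAB Ker tt GoodW IntW)
open H55K.MG (VC Crd)
open H55K.DD (LF' ef)

variable {F K₀ K : Type} [Field F] [NumberField F] [IQ F] [Field K₀] [NumberField K₀] [Field K] [NumberField K]
  [Algebra F K] [Algebra K₀ K]

theorem ri2_one {L : Type} [Field L] [NumberField L] (V : WeierstrassCurve L) : ((V.LFunction 1 : ℤ) : ℂ) = 1 := by
  obtain ⟨s, hs⟩ := (ri1_ev V 1).exists
  rw [← hs]
  exact H55D.DQA_prod_one s _ fun w _ => lf_one V w

theorem ri2_AI_one (ψ : Ideal (𝓞 F) →*₀ 𝓞 F) : H55N.AI (fun a : Ideal (𝓞 K) => H55P.PsiP K ψ a) 1 = 1 := by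
  show (if (1 : ℕ) = 0 then (0 : ℂ) else
    ∑ᶠ (a : Ideal (𝓞 K)) (_ : Ideal.absNorm a = 1), H55P.PsiP K ψ a) = 1
  rw [if_neg one_ne_zero, finsum_eq_single _ (1 : Ideal (𝓞 K))]
  · rw [finsum_eq_if, if_pos (map_one _), map_one]
  · intro x hx
    rw [finsum_eq_if, if_neg]
    intro hn
    exact hx (by rw [Ideal.absNorm_eq_one_iff] at hn; rw [hn, Ideal.one_eq_top])

/-- Chunk RI2 (M). Port of H55P.LFunU0 (Z7.lean): lf_sq, lfun_sq; lfun_K (DM.lean) for W₀ = W⁄(𝓞 F) over K ((W₀⁄F)⁄K = W⁄K); ai_real with psi_cj; H13E.sqrt_unique; the value of the L-function at 1 is 1 (H55D.DQA_LFun_one for W: lf_one). -/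
theorem lfun_quad (hQ : QuadG F K₀ K) {W : WeierstrassCurve ℤ} {m : Ideal (𝓞 F)} {ψ : Ideal (𝓞 F) →*₀ 𝓞 F}
    (hψ : H55P.IsHecke m ψ)
    (hdeu : ∀ v : HeightOneSpectrum (𝓞 F), (W⁄(𝓞 F)).Δ ∉ v.asIdeal → ¬ m ≤ v.asIdeal →
      Nat.card ((W⁄(𝓞 F))⁄(𝓞 F ⧸ v.asIdeal)).toAffine.Point = Nm (1 - ψ v.asIdeal))
    (hsupp : ∀ v : HeightOneSpectrum (𝓞 F), (W⁄(𝓞 F)).Δ ∈ v.asIdeal ↔ m ≤ v.asIdeal)
    (hram : ∀ v : HeightOneSpectrum (𝓞 F), (∀ a : 𝓞 F, a - cj a ∈ v.asIdeal) → (W⁄(𝓞 F)).Δ ∈ v.asIdeal)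
    {j₀ : ℤ} (hj : W.c₄ ^ 3 = j₀ * W.Δ) (hbad : ∀ w : HeightOneSpectrum (𝓞 K), H55P.mK K m ≤ w.asIdeal → ¬ GoodAt (W⁄K) w)
    (n : ℕ) : (((W⁄K₀).LFunction n : ℤ) : ℂ) = H55N.AI (fun a => H55P.PsiP K ψ a) n := by
  have hf1 : (((W⁄K₀).LFunction : ArithmeticFunction ℤ) : ArithmeticFunction ℂ) 1 = 1 := by
    rw [ArithmeticFunction.intCoe_apply]
    exact ri2_one (W⁄K₀)
  have hK : (((W⁄(𝓞 F))⁄F)⁄K) = W⁄K := by
    show ((W.map (algebraMap ℤ (𝓞 F))).map (algebraMap (𝓞 F) F)).map (algebraMap F K) = W.map (algebraMap ℤ K)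
    rw [WeierstrassCurve.map_map, WeierstrassCurve.map_map]
    congr 1
    exact Subsingleton.elim _ _
  have hjF : ∃ j₁ : 𝓞 F, (W⁄(𝓞 F)).c₄ ^ 3 = j₁ * (W⁄(𝓞 F)).Δ := by
    refine ⟨algebraMap ℤ (𝓞 F) j₀, ?_⟩
    show (W.map (algebraMap ℤ (𝓞 F))).c₄ ^ 3 = _ * (W.map (algebraMap ℤ (𝓞 F))).Δ
    rw [WeierstrassCurve.map_c₄, WeierstrassCurve.map_Δ, ← map_pow, hj, map_mul]
  have hsq : ∀ k, ((((W⁄K₀).LFunction : ArithmeticFunction ℤ) : ArithmeticFunction ℂ) *
      (((W⁄K₀).LFunction : ArithmeticFunction ℤ) : ArithmeticFunction ℂ)) k =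
      (H55N.AI (fun a => H55P.PsiP K ψ a) * H55N.AI (fun a => H55P.PsiP K ψ a)) k := by
    intro k
    rw [← lfun_sq (fun v T hT => lf_sq hQ hψ hdeu hsupp hram hj hbad v T hT) k]
    have h1 := H55K.lfun_K (K := K) (W₀ := W⁄(𝓞 F)) hψ hdeu (fun v h => (hsupp v).1 h) hjF
      (fun w hw => by rw [hK]; exact hbad w hw) k
    rw [hK] at h1
    rw [h1, ai_real hQ (psi_cj hψ hdeu hsupp hram)]
  have hfg := H13E.sqrt_unique hf1 (g := H55N.AI (fun a => H55P.PsiP K ψ a)) (ri2_AI_one ψ) hsq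
  rw [← hfg, ArithmeticFunction.intCoe_apply]

end H55K.TQ
end

-- from Lib.H55K.FB3C
section

/-! # H55K: the L-function over K -/

open NumberField IsDedekindDomain WeierstrassCurve

namespace H55K.TQ

open H55P (IQ embF eF LF Per IsHecke Pt ac Inert Dec Nm UnitP)
open H35P (WAB Ker tt GoodW IntW)
open H55K.MG (VC Crd)

variable {F : Type} [Field F] [NumberField F] [IQ F] {W : WeierstrassCurve ℤ} {Om : ℂ}
    {m : Ideal (𝓞 F)} {ψ : Ideal (𝓞 F) →*₀ 𝓞 F} {p : ℕ}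

/-- Chunk FB3C (S/M). The L-series over K₀ which does not contain F: lfun_quad (RI2.lean), hram from hram_of (RF.lean), hbad from bad_K and cur_eq; hj from jint: j₀ in 𝓞 F with c₄^3 = j₀ Δ, so Δ divides c₄^3 in ℤ (an integer divisible by an integer in 𝓞 F: norms or integral closedness of ℤ). Then as in L_valU0 (Z7.lean). -/
theorem jint_Z (hH : BaseH F (W⁄(𝓞 F)) Om m ψ) : ∃ j₀ : ℤ, W.c₄ ^ 3 = j₀ * W.Δ := by
  obtain ⟨j₀, hj⟩ := jint_of hH.data.per hH.data.ell
  have e1 : (W⁄(𝓞 F)).c₄ = ((W.c₄ : ℤ) : 𝓞 F) := by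
    show (W.map (algebraMap ℤ (𝓞 F))).c₄ = _
    rw [WeierstrassCurve.map_c₄]
    rfl
  have e2 : (W⁄(𝓞 F)).Δ = ((W.Δ : ℤ) : 𝓞 F) := by
    show (W.map (algebraMap ℤ (𝓞 F))).Δ = _
    rw [WeierstrassCurve.map_Δ]
    rfl
  have hΔ : W.Δ ≠ 0 := by
    intro h0
    apply hH.data.ell
    rw [e2, h0, Int.cast_zero]
  rw [e1, e2] at hj
  have hj' : ((W.c₄ : ℤ) : F) ^ 3 = (j₀ : F) * ((W.Δ : ℤ) : F) := by
    have h1 := congrArg (algebraMap (𝓞 F) F) hj
    rw [map_pow, map_mul, map_intCast, map_intCast] at h1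
    exact h1
  have hΔF : ((W.Δ : ℤ) : F) ≠ 0 := Int.cast_ne_zero.2 hΔ
  have hΔQ : ((W.Δ : ℤ) : ℚ) ≠ 0 := Int.cast_ne_zero.2 hΔ
  have h3 : algebraMap ℚ F (((W.c₄ : ℤ) : ℚ) ^ 3 / ((W.Δ : ℤ) : ℚ)) = (j₀ : F) := by
    rw [map_div₀, map_pow, map_intCast, map_intCast, hj', mul_div_assoc, div_self hΔF, mul_one]
  have h4 : _root_.IsIntegral ℤ (algebraMap ℚ F (((W.c₄ : ℤ) : ℚ) ^ 3 / ((W.Δ : ℤ) : ℚ))) := by
    rw [h3]
    exact j₀.isIntegral_coe
  have h5 : _root_.IsIntegral ℤ (((W.c₄ : ℤ) : ℚ) ^ 3 / ((W.Δ : ℤ) : ℚ)) :=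
    (isIntegral_algebraMap_iff (algebraMap ℚ F).injective).1 h4
  obtain ⟨y, hy⟩ := (IsIntegrallyClosed.isIntegral_iff (R := ℤ) (K := ℚ)).1 h5
  refine ⟨y, ?_⟩
  have h6 : ((W.c₄ : ℤ) : ℚ) ^ 3 = (y : ℚ) * ((W.Δ : ℤ) : ℚ) := by
    have h7 : (y : ℚ) = ((W.c₄ : ℤ) : ℚ) ^ 3 / ((W.Δ : ℤ) : ℚ) := hy
    rw [h7, div_mul_cancel₀ _ hΔQ]
  exact_mod_cast h6

theorem lser_Q (hH : BaseH F (W⁄(𝓞 F)) Om m ψ) (hp : PrimeH F (W⁄(𝓞 F)) p) {L : IntermediateField F (AlgebraicClosure F)}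
    (hL : H55P.PExt p ⊥ L) (K₀ : Type) [Field K₀] [NumberField K₀] (K' : IntermediateField F (AlgebraicClosure F)) [NumberField K']
    [Algebra K₀ K'] (hK : K' ≤ L) (hQ : QuadG F K₀ K') (Φ : ℂ → ℂ)
    (hΦ : ∀ s : ℂ, 3 / 2 < s.re → HasSum (H55N.tm (H55P.PsiP K' ψ) s) (Φ s)) (s : ℂ) (hs : 3 / 2 < s.re) :
    LSeriesHasSum (fun n => (((W⁄K₀).LFunction n : ℤ) : ℂ)) s (Φ s) := by
  obtain ⟨j₀, hj⟩ := jint_Z hH
  have hbad : ∀ w : HeightOneSpectrum (𝓞 K'), H55P.mK K' m ≤ w.asIdeal → ¬ GoodAt (W⁄K') w := by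
    intro w hw
    have h1 := bad_K hH hp hL hK w hw
    rw [cur_eq K'] at h1
    exact h1
  have hA : ∀ n : ℕ, (((W⁄K₀).LFunction n : ℤ) : ℂ) = H55N.AI (fun a => H55P.PsiP K' ψ a) n :=
    fun n => lfun_quad hQ hH.data.hecke (fun v hv _ => hH.deu v hv) hH.supp (hram_of hH) hj hbad n
  have h0 : H55P.PsiP K' ψ ⊥ = 0 := (H55P.PsiP K' ψ).map_zero
  have h1 := H55N.AI_LSeries (fun a => H55P.PsiP K' ψ a) h0 s
    (H55N.tm_summable _ (H55P.PsiP_norm_le hH.data.hecke) s hs)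
  have h2 : ∑' a : Ideal (𝓞 K'), H55N.tm (fun a => H55P.PsiP K' ψ a) s a = Φ s := (hΦ s hs).tsum_eq
  rw [h2] at h1
  have e1 : (fun n => (((W⁄K₀).LFunction n : ℤ) : ℂ)) = fun n => H55N.AI (fun a => H55P.PsiP K' ψ a) n :=
    funext hA
  rw [e1]
  exact h1

end H55K.TQ
end

-- from Lib.H55K.FB4
section

/-! # H55K: the L-function over K in terms of the Hecke L-series -/

open NumberField IsDedekindDomain WeierstrassCurve

namespace H55K.TQ

open H55P (IQ embF eF LF Per IsHecke Pt ac Inert Dec Nm UnitP)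
open H35P (WAB Ker tt GoodW IntW)
open H55K.MG (VC Crd)

variable {F : Type} [Field F] [NumberField F] [IQ F] {W : WeierstrassCurve ℤ} {Om : ℂ}
    {m : Ideal (𝓞 F)} {ψ : Ideal (𝓞 F) →*₀ 𝓞 F} {p : ℕ}

/-- The relation between the L-function over K and the Hecke L-series over KG: two cases. -/
def LRel (W : WeierstrassCurve ℤ) (ψ : Ideal (𝓞 F) →*₀ 𝓞 F) (K : Type) [Field K] [NumberField K] (K' : IntermediateField F (AlgebraicClosure F))
    [NumberField K'] : Prop :=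
  (Module.finrank ℚ K = 2 * Module.finrank F K' ∧
    ∀ Φ : ℂ → ℂ, (∀ s : ℂ, 3 / 2 < s.re → HasSum (H55N.tm (H55P.PsiP K' ψ) s) (Φ s)) → ∀ s : ℂ, 3 / 2 < s.re →
      LSeriesHasSum (fun n => (((W⁄K).LFunction n : ℤ) : ℂ)) s (Φ s * (starRingEnd ℂ) (Φ ((starRingEnd ℂ) s)))) ∨
  (Module.finrank ℚ K = Module.finrank F K' ∧
    ∀ Φ : ℂ → ℂ, (∀ s : ℂ, 3 / 2 < s.re → HasSum (H55N.tm (H55P.PsiP K' ψ) s) (Φ s)) → ∀ s : ℂ, 3 / 2 < s.re →
      LSeriesHasSum (fun n => (((W⁄K).LFunction n : ℤ) : ℂ)) s (Φ s))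

/-- Chunk FB4 (S/M). kg_dich (RP2.lean): first case kg_iso (RP3.lean), lser_F, the degree: θ and [F : ℚ] = 2 (IQ.deg); second case lser_Q and quad_deg (RP3.lean). -/
theorem lrel (hH : BaseH F (W⁄(𝓞 F)) Om m ψ) (hp : PrimeH F (W⁄(𝓞 F)) p) {L : IntermediateField F (AlgebraicClosure F)}
    (hL : H55P.PExt p ⊥ L) (K : Type) [Field K] [NumberField K] (ι : K →ₐ[ℚ] AlgebraicClosure F) [NumberField (KG F K ι)]
    (hK : KG F K ι ≤ L) : LRel W ψ K (KG F K ι) := by
  rcases kg_dich F K ι with ⟨f, hf⟩ | hQ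
  · left
    letI : Algebra F K := f.toAlgebra
    obtain ⟨θ⟩ := kg_iso F K ι f hf
    refine ⟨?_, fun Φ hΦ s hs => lser_F hH hp hL K (KG F K ι) hK θ Φ hΦ s hs⟩
    have h1 := Module.finrank_mul_finrank ℚ F K
    have h2 : Module.finrank F K = Module.finrank F (KG F K ι) := θ.toLinearEquiv.finrank_eq
    have h3 : Module.finrank ℚ F = 2 := IQ.deg
    rw [h3, h2] at h1
    exact h1.symm
  · right
    letI : Algebra K (KG F K ι) := (KGmap F K ι).toAlgebra
    exact ⟨quad_deg F hQ, fun Φ hΦ s hs => lser_Q hH hp hL K (KG F K ι) hK hQ Φ hΦ s hs⟩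

end H55K.TQ
end

-- from Lib.H55P.Gen
section

/-!
# H55P: the inheritance theorem for all curves with complex multiplication by the integers of a field of class number one
-/

open NumberField IsDedekindDomain WeierstrassCurve

namespace H55P

open H55N (tm ident tm_summable AI AI_LSeries H8_tm)

section gen

variable {F : Type} [Field F] [NumberField F] [IQ F]

/-- An integer of F of norm prime to p is a unit above p. -/
theorem gen_unit (p : ℕ) (hp : p.Prime) (z : 𝓞 F) (hz : ¬ p ∣ Ideal.absNorm (Ideal.span {z}))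
    (V : ValuationSubring ℂ) (hV : V.valuation (p : ℂ) < 1) :
    V.valuation (eF F z) = 1 ∧ V.valuation ((starRingEnd ℂ) (eF F z)) = 1 := by
  have h1 := PT1_int (eF F) z V
  have h2 := PT1_int ((starRingEnd ℂ).comp (eF F)) z V
  have h2' : V.valuation ((starRingEnd ℂ) (eF F z)) ≤ 1 := h2
  have h3 : eF F z * (starRingEnd ℂ) (eF F z) = (Ideal.absNorm (Ideal.span {z}) : ℂ) := by
    rw [Complex.mul_conj, Complex.normSq_eq_norm_sq, ← Nm_eq]
    unfold Nm
    norm_cast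
  have h4 := val_nat p hp V hV _ hz
  rw [← h3, map_mul] at h4
  constructor
  · refine le_antisymm h1 ?_
    by_contra hlt
    have h5 := mul_lt_one_of_nonneg_of_lt_one_left zero_le (not_le.1 hlt) h2'
    rw [h4] at h5
    exact lt_irrefl _ h5
  · refine le_antisymm h2' ?_
    by_contra hlt
    have h5 := mul_lt_one_of_nonneg_of_lt_one_right h1 zero_le (not_le.1 hlt)
    rw [h4] at h5
    exact lt_irrefl _ h5

/-- An integer of F prime to p is a unit above p. -/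
theorem gen_cop (p : ℕ) (z : 𝓞 F) (hz : IsCoprime (Ideal.span {z}) (Ideal.span {(p : 𝓞 F)}))
    (V : ValuationSubring ℂ) (hV : V.valuation (p : ℂ) < 1) : V.valuation (eF F z) = 1 := by
  rw [Ideal.isCoprime_span_singleton_iff] at hz
  obtain ⟨a, b, hab⟩ := hz
  have h1 : eF F a * eF F z + eF F b * (p : ℂ) = 1 := by
    rw [← map_natCast (eF F) p, ← map_mul, ← map_mul, ← map_add, hab, map_one]
  have ha := PT1_int (eF F) a V
  have hb := PT1_int (eF F) b V
  have hz := PT1_int (eF F) z V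
  refine le_antisymm hz ?_
  by_contra hlt
  have h5 : V.valuation (eF F a * eF F z) < 1 := by
    rw [map_mul]
    exact mul_lt_one_of_nonneg_of_lt_one_right ha zero_le (not_le.1 hlt)
  have h6 : V.valuation (eF F b * (p : ℂ)) < 1 := by
    rw [map_mul]
    exact mul_lt_one_of_nonneg_of_lt_one_right hb zero_le hV
  have h7 := V.valuation.map_add_lt h5 h6
  rw [h1, map_one] at h7
  exact lt_irrefl _ h7

/-- The short equation is good at V. -/
theorem gen_good (p : ℕ) (hp : p.Prime) (h5 : 5 ≤ p) (W₀ : WeierstrassCurve (𝓞 F))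
    (hΔ : IsCoprime (Ideal.span {W₀.Δ}) (Ideal.span {(p : 𝓞 F)}))
    (V : ValuationSubring ℂ) (hV : V.valuation (p : ℂ) < 1) :
    GoodV (-(eF F W₀.c₄) / 48) (-(eF F W₀.c₆) / 864) V := by
  obtain ⟨h3, h2⟩ := val3 p hp h5 V hV
  have h48 : V.valuation (48 : ℂ) = 1 := by
    have e : (48 : ℂ) = 2 * 2 * 2 * 2 * 3 := by norm_num
    rw [e]
    simp only [map_mul, h2, h3, one_mul]
  have h864 : V.valuation (864 : ℂ) = 1 := by
    have e : (864 : ℂ) = 2 * 2 * 2 * 2 * 2 * 3 * 3 * 3 := by norm_num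
    rw [e]
    simp only [map_mul, h2, h3, one_mul]
  have h16 : V.valuation (16 : ℂ) = 1 := by
    have e : (16 : ℂ) = 2 * 2 * 2 * 2 := by norm_num
    rw [e]
    simp only [map_mul, h2, one_mul]
  refine ⟨?_, ?_, h2, ?_⟩
  · rw [← V.valuation_le_one_iff, map_div₀, Valuation.map_neg, h48, div_one]
    exact PT1_int (eF F) _ V
  · rw [← V.valuation_le_one_iff, map_div₀, Valuation.map_neg, h864, div_one]
    exact PT1_int (eF F) _ V
  · have h1 : (1728 : ℂ) * eF F W₀.Δ = eF F W₀.c₄ ^ 3 - eF F W₀.c₆ ^ 2 := by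
      have := congrArg (eF F) W₀.c_relation
      rw [map_mul, map_sub, map_pow, map_pow, map_ofNat] at this
      exact this
    have h2 : (4 : ℂ) * (-(eF F W₀.c₄) / 48) ^ 3 + 27 * (-(eF F W₀.c₆) / 864) ^ 2 =
        -(eF F W₀.Δ) / 16 := by
      linear_combination (1 / 27648 : ℂ) * h1
    rw [h2, map_div₀, Valuation.map_neg, h16, div_one]
    exact gen_cop p _ hΔ V hV

/-- One continuation for all valuations above p. -/
theorem gen_glue {K : Type} [Field K] [NumberField K] [Algebra F K] {p : ℕ} (hp : p.Prime)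
    {Om : ℂ} {h : Ideal (𝓞 K) →*₀ ℂ}
    (hL : ∀ V : ValuationSubring ℂ, V.valuation (p : ℂ) < 1 → LVP F V Om h) :
    ∃ Λ : ℂ → ℂ, AnalyticOnNhd ℂ Λ {s | 1 / 2 < s.re} ∧
      (∀ s : ℂ, 3 / 2 < s.re → HasSum (tm h s) (Λ s)) ∧ Λ 1 ≠ 0 ∧
      UnitP p (Λ 1 / Om ^ Module.finrank F K) := by
  obtain ⟨V₀, hV₀⟩ := exists_above_p p hp
  obtain ⟨L, hLa, hLs, -⟩ := hL V₀ hV₀
  have hu : UnitP p (L 1 / Om ^ Module.finrank F K) := by
    intro V hV
    obtain ⟨L', hLa', hLs', hV'⟩ := hL V hV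
    have h1 : L 1 = L' 1 := ident L L' hLa hLa' (fun s hs => (hLs s hs).unique (hLs' s hs)) 1
      (by norm_num)
    rw [h1]
    exact hV'
  exact ⟨L, hLa, hLs, (div_ne_zero_iff.1 (pz6_ne hp hu)).1, hu⟩

omit [NumberField F] [IQ F] in
theorem gen_ell (W₀ : WeierstrassCurve (𝓞 F)) (h : W₀.Δ ≠ 0) : (W₀⁄F).IsElliptic := by
  have e : (W₀⁄F).Δ = algebraMap (𝓞 F) F W₀.Δ := W₀.map_Δ (algebraMap (𝓞 F) F)
  rw [WeierstrassCurve.isElliptic_iff, e]
  exact IsUnit.mk0 _ fun h0 => h ((map_eq_zero_iff _ (FaithfulSMul.algebraMap_injective (𝓞 F) F)).1 h0)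

/-- The L-function from the two L-series. -/
theorem gen_lval (p : ℕ) (hp : p.Prime) (W₀ : WeierstrassCurve (𝓞 F)) (Om : ℂ) {m : Ideal (𝓞 F)}
    {ψ : Ideal (𝓞 F) →*₀ 𝓞 F} (h : IsHecke m ψ) (K : IntermediateField F (AlgebraicClosure F))
    [NumberField K] (hV : ValG p Om ψ K) (hD : DeuG W₀ ψ K) : LvalG p W₀ Om K := by
  obtain ⟨L, hLa, hLs, hL0, hL1⟩ := hV
  have hval : UnitP p ((L 1 * (starRingEnd ℂ) (L ((starRingEnd ℂ) 1))) /
      ((‖Om‖ ^ 2 : ℝ) : ℂ) ^ Module.finrank F K) := by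
    have e0 : ((‖Om‖ ^ 2 : ℝ) : ℂ) = Om * (starRingEnd ℂ) Om := by
      rw [Complex.mul_conj, Complex.normSq_eq_norm_sq]
    have e1 : (L 1 * (starRingEnd ℂ) (L ((starRingEnd ℂ) 1))) /
        ((‖Om‖ ^ 2 : ℝ) : ℂ) ^ Module.finrank F K =
        (L 1 / Om ^ Module.finrank F K) *
          (starRingEnd ℂ) (L 1 / Om ^ Module.finrank F K) := by
      rw [e0, map_one, map_div₀, map_pow, mul_pow, mul_div_mul_comm]
    rw [e1]
    intro V hV
    rw [map_mul, hL1 V hV, pz6_conj hp (pz6_ne hp hL1) hL1 V hV, one_mul]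
  refine ⟨fun z => L z * (starRingEnd ℂ) (L ((starRingEnd ℂ) z)), hLa.mul (H55B.I4_conj hLa), ?_, ?_,
    hval⟩
  · intro z hz
    have hz' : 3 / 2 < ((starRingEnd ℂ) z).re := by simpa using hz
    have h0 : PsiP K ψ ⊥ = 0 := (PsiP K ψ).map_zero
    have h1 := AI_LSeries (fun a => PsiP K ψ a) h0 z (tm_summable _ (PsiP_norm_le h) z hz)
    have h2 := AI_LSeries (fun a => (starRingEnd ℂ) (PsiP K ψ a)) (by rw [h0, map_zero]) z
      (tm_summable _ (fun a => by rw [RCLike.norm_conj]; exact PsiP_norm_le h a) z hz)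
    have e1 : ∑' a, tm (fun a => PsiP K ψ a) z a = L z := (hLs z hz).tsum_eq
    have e2 : ∑' a, tm (fun a => (starRingEnd ℂ) (PsiP K ψ a)) z a =
        (starRingEnd ℂ) (L ((starRingEnd ℂ) z)) := by
      have h3 := (Complex.hasSum_conj').2 (hLs _ hz')
      have h4 := h3.tsum_eq
      rw [← h4]
      exact tsum_congr fun a => H8_tm _ z a
    rw [e1] at h1
    rw [e2] at h2
    have h3 := ArithmeticFunction.LSeriesHasSum_mul h1 h2
    have e3 : (fun n => ((((W₀⁄F)⁄K).LFunction n : ℤ) : ℂ)) = fun n =>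
        (AI (PsiP K ψ) * AI (fun a => (starRingEnd ℂ) (PsiP K ψ a))) n :=
      funext fun n => hD n
    have key : LSeriesHasSum (fun n => ((((W₀⁄F)⁄K).LFunction n : ℤ) : ℂ)) z
        (L z * (starRingEnd ℂ) (L ((starRingEnd ℂ) z))) := by
      rw [e3]
      exact h3
    exact ⟨key.LSeriesSummable, key.LSeries_eq.symm⟩
  · have h1 := pz6_ne hp hval
    exact (div_ne_zero_iff.1 h1).1

/-- Units at all valuations above p. -/
theorem gen_conv (p : ℕ) (hp : p.Prime) (z : 𝓞 F)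
    (h : ∀ V : ValuationSubring ℂ, V.valuation (p : ℂ) < 1 → V.valuation (eF F z) = 1) :
    ¬ p ∣ Ideal.absNorm (Ideal.span {z}) := by
  intro hd
  obtain ⟨V, hV⟩ := exists_above_p p hp
  have h1 := h V hV
  have h2 := pz6_conj hp (pz6_ne hp h) h V hV
  have h3 : eF F z * (starRingEnd ℂ) (eF F z) = (Ideal.absNorm (Ideal.span {z}) : ℂ) := by
    rw [Complex.mul_conj, Complex.normSq_eq_norm_sq, ← Nm_eq]
    unfold Nm
    norm_cast
  have h4 : V.valuation ((Ideal.absNorm (Ideal.span {z}) : ℕ) : ℂ) = 1 := by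
    rw [← h3, map_mul, h1, h2, one_mul]
  obtain ⟨t, ht⟩ := hd
  rw [ht, Nat.cast_mul, map_mul] at h4
  have h5 := mul_lt_one_of_lt_of_le hV (pt9_nat V t)
  rw [h4] at h5
  exact lt_irrefl _ h5

/-- The auxiliary ideal. -/
theorem gen_ntp (p : ℕ) (hp : p.Prime) {W₀ : WeierstrassCurve (𝓞 F)} {m : Ideal (𝓞 F)}
    {ψ : Ideal (𝓞 F) →*₀ 𝓞 F} (M : IntermediateField F (AlgebraicClosure F)) [NumberField M]
    (v₀ : HeightOneSpectrum (𝓞 M)) (hv₀ : GoodG p W₀ m ψ M v₀) (V : ValuationSubring ℂ)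
    (hV : V.valuation (p : ℂ) < 1) : NTP M p m ψ V := by
  refine ⟨v₀.asIdeal, ?_, ?_, ?_⟩
  · rw [PT1_max _ _ v₀.isMaximal]
    intro h
    exact hv₀.res (h (Ideal.mem_span_singleton_self _))
  · rw [PT1_max _ _ v₀.isMaximal]
    exact hv₀.modulus
  · have h1 := (gen_unit p hp _ hv₀.hecke V hV).2
    rw [PsiP_apply]
    rwa [map_sub, map_one, map_sub, map_one] at h1

section crit

variable (W₀ : WeierstrassCurve (𝓞 F)) (Om : ℂ) (m : Ideal (𝓞 F)) (ψ : Ideal (𝓞 F) →*₀ 𝓞 F)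
  (hC : CMData F W₀ Om m ψ) (p : ℕ) (hp : p.Prime) (h5 : 5 ≤ p)
  (hcop : IsCoprime (Ideal.span {W₀.Δ} * m) (Ideal.span {(p : 𝓞 F)}))
  (M L : IntermediateField F (AlgebraicClosure F)) [NumberField M] (hL : PExt p M L)
  (hex : ∃ v, GoodG p W₀ m ψ M v)
  (K : IntermediateField F (AlgebraicClosure F)) [NumberField K] (hMK : M ≤ K) (hKL : K ≤ L)

include hC hp h5 hcop hL hex hMK hKL

/-- Integrality over K. -/
theorem gen_int (hU : UnrP p K) : IntG p Om ψ K := by
  have hLf : FiniteDimensional F L := hL.fin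
  have hm : IsCoprime m (Ideal.span {(p : 𝓞 F)}) := hcop.of_mul_left_right
  have hΔ : IsCoprime (Ideal.span {W₀.Δ}) (Ideal.span {(p : 𝓞 F)}) := hcop.of_mul_left_left
  obtain ⟨v₀, hv₀⟩ := hex
  letI iMK : Algebra M K := (IntermediateField.inclusion hMK).toRingHom.toAlgebra
  have hst : IsScalarTower F M K := alg_tower M K hMK
  obtain ⟨j, hj⟩ := pext_deg p hp M K L hL hMK hKL
  have hI : ∀ V : ValuationSubring ℂ, V.valuation (p : ℂ) < 1 → LVI F V Om (PsiP K ψ) := fun V hV =>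
    LVI_base p hp hC.hecke hm hU _ _ Om hC.per V hV (gen_good p hp h5 W₀ hΔ V hV)
      (NTP_up M K p hp j hj V hV (gen_ntp p hp M v₀ hv₀ V hV))
  obtain ⟨V₀, hV₀⟩ := exists_above_p p hp
  obtain ⟨Λ, h1, h2, -⟩ := hI V₀ hV₀
  refine ⟨Λ, h1, h2, fun V hV => ?_⟩
  obtain ⟨Λ', h1', h2', h3'⟩ := hI V hV
  have h6 : Λ 1 = Λ' 1 := ident Λ Λ' h1 h1' (fun s hs => (h2 s hs).unique (h2' s hs)) 1
    (by norm_num)
  rw [h6, ← ValuationSubring.valuation_le_one_iff]
  exact h3'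

open Classical in
/-- The exact criterion for the L-values. -/
theorem gen_crit (hU : UnrP p K) : ValG p Om ψ K ↔ ValG p Om ψ M ∧
    ∀ v : HeightOneSpectrum (𝓞 M), Ram M K v.asIdeal →
      ¬ p ∣ Ideal.absNorm (Ideal.span {1 - ψ (Ideal.relNorm (𝓞 F) v.asIdeal)}) := by
  have hLf : FiniteDimensional F L := hL.fin
  have hLn : NumberField L := H16C.FR_numberField L
  have hm : IsCoprime m (Ideal.span {(p : 𝓞 F)}) := hcop.of_mul_left_right
  have hΔ : IsCoprime (Ideal.span {W₀.Δ}) (Ideal.span {(p : 𝓞 F)}) := hcop.of_mul_left_left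
  obtain ⟨v₀, hv₀⟩ := hex
  have key := fun (V : ValuationSubring ℂ) (hV : V.valuation (p : ℂ) < 1) =>
    LVP_tower_iff p hp M L hL hC.hecke hm _ _ Om hC.per V hV (gen_good p hp h5 W₀ hΔ V hV)
      (gen_ntp p hp M v₀ hv₀ V hV) K hMK hKL hU
  have hfac : ∀ v : HeightOneSpectrum (𝓞 M),
      1 - (starRingEnd ℂ) (PsiP M ψ v.asIdeal) =
        eF F (1 - ψ (Ideal.relNorm (𝓞 F) v.asIdeal)) := fun v => by
    rw [PsiP_apply, Complex.conj_conj, map_sub, map_one]
  constructor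
  · rintro ⟨Λ, a1, a2, -, a4⟩
    have h1 := fun V hV => (key V hV).1 ⟨Λ, a1, a2, a4 V hV⟩
    refine ⟨gen_glue hp fun V hV => (h1 V hV).1, fun v hv => gen_conv p hp _ fun V hV => ?_⟩
    rw [← hfac v]
    exact (h1 V hV).2 v hv
  · rintro ⟨⟨Λ, a1, a2, -, a4⟩, h2⟩
    refine gen_glue hp fun V hV => (key V hV).2 ⟨⟨Λ, a1, a2, a4 V hV⟩, fun v hv => ?_⟩
    rw [hfac v]
    exact (gen_unit p hp _ (h2 v hv) V hV).1

open Classical in
omit h5 in
/-- Selmer groups. -/
theorem gen_sel (hS : SelG p W₀ M)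
    (hram : ∀ v : HeightOneSpectrum (𝓞 M), Ram M K v.asIdeal → GoodG p W₀ m ψ M v) :
    SelG p W₀ K ∧ ShaG p W₀ K ∧ PtsG p W₀ K := by
  have hLf : FiniteDimensional F L := hL.fin
  have hMf : FiniteDimensional F M := finDim_of_le hL.le
  have hKf : FiniteDimensional F K := finDim_of_le hKL
  have hell : (W₀⁄F).IsElliptic := gen_ell W₀ hC.ell
  obtain ⟨v₀, hv₀⟩ := hex
  have hC' := clos_pext p hp M K L hL hMK hKL
  have h0 : ∀ T : Pt (W₀⁄F) (AlgebraicClosure F), p • T = 0 →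
      (∀ s ∈ M.fixingSubgroup, ac (W₀⁄F) s T = T) → T = 0 := fun T hT hf =>
    tors_of_prime W₀ p hp M v₀ hv₀.disc hv₀.res hv₀.pts T hT hf
  have hSK : SelZero (W₀⁄F) p K := sel_tower W₀ p hp M (clos M K) hC' h0
    (fun v hv => by
      have hv' := clos_ram M K L hMK hKL hL.norm v hv
      exact ⟨(hram v hv').disc, (hram v hv').res, (hram v hv').pts⟩) hS K hMK (le_clos M K)
  exact ⟨hSK, sha_zero (W₀⁄F) p hp K hSK, pts_fin (W₀⁄F) p hp K hSK⟩

/-- THE GENERAL THEOREM. -/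
theorem gen_main (hU : UnrP p K) :
    IntG p Om ψ K ∧
    (ValG p Om ψ K ↔ ValG p Om ψ M ∧ ∀ v : HeightOneSpectrum (𝓞 M), Ram M K v.asIdeal →
      ¬ p ∣ Ideal.absNorm (Ideal.span {1 - ψ (Ideal.relNorm (𝓞 F) v.asIdeal)})) ∧
    (SelG p W₀ M → (∀ v : HeightOneSpectrum (𝓞 M), Ram M K v.asIdeal → GoodG p W₀ m ψ M v) →
      SelG p W₀ K ∧ ShaG p W₀ K ∧ PtsG p W₀ K) ∧
    (ValG p Om ψ K → DeuG W₀ ψ K → LvalG p W₀ Om K) :=
  ⟨gen_int W₀ Om m ψ hC p hp h5 hcop M L hL hex K hMK hKL hU,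
    gen_crit W₀ Om m ψ hC p hp h5 hcop M L hL hex K hMK hKL hU,
    gen_sel W₀ Om m ψ hC p hp hcop M L hL hex K hMK hKL,
    fun hV hD => gen_lval p hp W₀ Om hC.hecke K hV hD⟩

end crit

end gen

end H55P
end

-- from Lib.H55K.QP2C
section

/-! # H55K: the complex and the real period are p-adic units times the periods -/

open NumberField IsDedekindDomain WeierstrassCurve

namespace H55K.TQ

open H55P (IQ embF eF LF Per IsHecke Pt ac Inert Dec Nm UnitP)
open H35P (WAB Ker tt GoodW IntW)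
open H55K.MG (VC Crd)

variable {F : Type} [Field F] [NumberField F] [IQ F] {W : WeierstrassCurve ℤ} {Om : ℂ} {L : PeriodPair} {p : ℕ}

/-- A prime element dividing p and its conjugate: if both divide α then p divides α. -/
theorem qp2c_dvd (hp : p.Prime) (hU : H55P.UnrP p F) {l α : 𝓞 F} (hl : Prime l) (hlp : l ∣ (p : 𝓞 F))
    (h1 : l ∣ α) (h2 : H55K.cj l ∣ α) : (p : 𝓞 F) ∣ α := by
  have hNl : l * H55K.cj l = (H55P.Nm l : 𝓞 F) := H55K.mul_cj l
  have hpN : p ∣ H55P.Nm l := by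
    by_contra hn
    have hcop : IsCoprime (p : ℤ) (H55P.Nm l : ℤ) := by
      rw [Nat.isCoprime_iff_coprime]
      exact (Nat.Prime.coprime_iff_not_dvd hp).2 hn
    obtain ⟨a, b, hab⟩ := hcop
    have h3 : (a : 𝓞 F) * (p : 𝓞 F) + (b : 𝓞 F) * (H55P.Nm l : 𝓞 F) = 1 := by
      have := congrArg (fun z : ℤ => (z : 𝓞 F)) hab
      push_cast at this
      exact this
    have h4 : l ∣ 1 := by
      rw [← h3]
      refine dvd_add (Dvd.dvd.mul_left hlp _) (Dvd.dvd.mul_left ?_ _)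
      rw [← hNl]
      exact dvd_mul_right _ _
    exact hl.not_unit (isUnit_of_dvd_one h4)
  have hpd : (p : 𝓞 F) ∣ l * H55K.cj l := by
    rw [hNl]
    exact_mod_cast Nat.cast_dvd_cast hpN
  have hcl : Prime (H55K.cj l) := H55K.cj_prime hl
  by_cases hass : H55K.cj l ∣ l
  · -- associated
    obtain ⟨μ, hμ⟩ := hlp
    obtain ⟨u, hu⟩ := (hcl.associated_of_dvd hl hass)
    have h5 : l * μ ∣ l * H55K.cj l := by
      rw [← hμ]
      exact hpd
    have h6 : μ ∣ H55K.cj l := (mul_dvd_mul_iff_left hl.ne_zero).1 h5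
    rcases (hcl.irreducible).dvd_iff.1 h6 with h7 | h7
    · obtain ⟨m, rfl⟩ := h7
      rw [hμ]
      exact (Units.mul_right_dvd).2 h1
    · exfalso
      have h8 : Associated (l * l) (p : 𝓞 F) := by
        rw [hμ]
        exact Associated.mul_left l ((show Associated (H55K.cj l) l from ⟨u, hu⟩).symm.trans h7)
      have h9 : Ideal.span {l} * Ideal.span {l} ∣ Ideal.span {(p : 𝓞 F)} := by
        rw [Ideal.span_singleton_mul_span_singleton, (Ideal.span_singleton_eq_span_singleton.2 h8)]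
      have h10 := hU _ h9
      rw [Ideal.isUnit_iff, Ideal.span_singleton_eq_top] at h10
      exact hl.not_unit h10
  · obtain ⟨b, rfl⟩ := h1
    have h3 : H55K.cj l ∣ b := (hcl.dvd_or_dvd h2).resolve_left hass
    exact hpd.trans (mul_dvd_mul_left l h3)

/-- Chunk QP2C (M). Omr L = Om α (lat_W). α is prime to p: suppose a prime element λ dividing p divides α. conj (Om α) = Om α gives cj α η = α, so cj λ divides α as well. If λ and cj λ are not associated then λ cj λ = Nm λ divides α and p divides Nm λ, so p divides α. If they are associated: Nm λ = λ cj λ is associated to λ^2; Nm λ = p or p^2; Nm λ = p is impossible because p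
is not in λ^2 (unramified: squarefree), so Nm λ = p^2 = Nm p, λ divides p, so λ is associated to p and p divides α. So α = p β, Om β = Omr L/p is a real positive element of the lattice smaller than Omr L: contradiction (omr_mem). So α is prime to p: eF α is a unit at every V above p (H55P.gen_cop in Gen.lean or gen_unit). The factor 1 or 2 of OmP is a unit (p ≥ 5). -/
theorem omr_unit (hper : PerW F W Om) (hL : PerZ W L) (hp : p.Prime) (h5 : 5 ≤ p) (hU : H55P.UnrP p F) :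
    UnitP p ((OmP W L : ℂ) / Om) := by
  obtain ⟨hpos, hmem, hmin⟩ := omr_mem hL
  obtain ⟨α, hα⟩ := (lat_W hper hL _).1 hmem
  obtain ⟨η, hη⟩ := om_conj hper hL
  have hOm : Om ≠ 0 := hper.ne
  have h1 : (η : 𝓞 F) * H55K.cj α = α := by
    have h2 : (starRingEnd ℂ) ((H55D.Omr L : ℝ) : ℂ) = ((H55D.Omr L : ℝ) : ℂ) := Complex.conj_ofReal _
    rw [hα, map_mul, hη] at h2
    apply H55P.eF_inj
    rw [map_mul, H55K.e_cj]
    refine mul_left_cancel₀ hOm ?_
    rw [← h2]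
    ring
  have hα0 : α ≠ 0 := by
    rintro rfl
    rw [map_zero, mul_zero] at hα
    exact hpos.ne' (by exact_mod_cast hα)
  have hp0 : (p : ℂ) ≠ 0 := by exact_mod_cast hp.ne_zero
  have hnd : ¬(p : 𝓞 F) ∣ α := by
    rintro ⟨β, rfl⟩
    have h3 : ((H55D.Omr L / p : ℝ) : ℂ) ∈ L.lattice := by
      refine (lat_W hper hL _).2 ⟨β, ?_⟩
      rw [Complex.ofReal_div, hα, map_mul, map_natCast, Complex.ofReal_natCast]
      field_simp
    have hpR : (5 : ℝ) ≤ (p : ℝ) := by exact_mod_cast h5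
    have h4 := hmin _ (div_pos hpos (by linarith)) h3
    rw [le_div_iff₀ (by linarith)] at h4
    nlinarith
  have hcop : IsCoprime α (p : 𝓞 F) := by
    refine isCoprime_of_prime_dvd (fun h => hα0 h.1) fun l hl hla hlp => hnd ?_
    refine qp2c_dvd hp hU hl hlp hla ?_
    rw [H55K.cj_dvd]
    rw [← h1] at hla
    exact (hl.dvd_or_dvd hla).resolve_left fun h => hl.not_unit (isUnit_of_dvd_unit h η.isUnit)
  intro V hV
  have hV1 : V.valuation (eF F α) = 1 := H55P.gen_cop p α ((Ideal.isCoprime_span_singleton_iff _ _).2 hcop) V hV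
  have hV2 : V.valuation (2 : ℂ) = 1 := by
    have := H55P.val_nat p hp V hV 2 (fun h => by
      have := Nat.le_of_dvd (by norm_num) h
      omega)
    exact_mod_cast this
  have e : (OmP W L : ℂ) / Om = (if 0 < W.Δ then 2 else 1) * eF F α := by
    unfold OmP
    rw [Complex.ofReal_mul, hα]
    have e2 : (((if 0 < W.Δ then 2 else 1 : ℝ)) : ℂ) = if 0 < W.Δ then 2 else 1 := by
      split_ifs <;> simp
    rw [e2]
    field_simp
  rw [e, map_mul, hV1, mul_one]
  split_ifs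
  · exact hV2
  · exact map_one _

end H55K.TQ
end

-- from Lib.H55K.QS2
section

/-! # H55K: the value of the analytic order of the Tate-Shafarevich group -/

open NumberField IsDedekindDomain WeierstrassCurve

namespace H55K.TQ

open H55P (IQ embF eF LF Per IsHecke Pt ac Inert Dec Nm UnitP)
open H35P (WAB Ker tt GoodW IntW)
open H55K.MG (VC Crd)

variable {F : Type} [Field F] [NumberField F] [IQ F] {W : WeierstrassCurve ℤ} {Om : ℂ} {L : PeriodPair} {p : ℕ}

theorem qs2_discr (p : ℕ) (hp : p.Prime) {K : Type} [Field K] [NumberField K] (hU : H55P.UnrP p K)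
    (V : ValuationSubring ℂ) (hV : V.valuation (p : ℂ) < 1) :
    V.valuation ((Real.sqrt |(NumberField.discr K : ℝ)| : ℝ) : ℂ) = 1 := by
  have h0 := H55P.pl1_discr p hp hU
  obtain ⟨D, hD⟩ : ∃ D, D = NumberField.discr K := ⟨_, rfl⟩
  rw [← hD] at h0 ⊢
  have h1 : (((Real.sqrt |(D : ℝ)| : ℝ) : ℂ)) ^ 2 = ((D.natAbs : ℕ) : ℂ) := by
    rw [← Complex.ofReal_pow, Real.sq_sqrt (abs_nonneg _), ← Int.cast_abs, Int.abs_eq_natAbs]
    simp only [Int.cast_natCast, Complex.ofReal_natCast]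
  have h2 := H55P.val_nat p hp V hV D.natAbs (fun hd => h0 (Int.natCast_dvd.2 hd))
  rw [← h1, map_pow] at h2
  exact (pow_eq_one_iff_of_nonneg zero_le two_ne_zero).1 h2

/-- Chunk QS2 (M). shaG = L1 sqrt|D| E^2/(OmP^r1 Om^r2 prod): H55P.discr_unit (sqrt|D| is a unit), prod_W, omr_unit and om_unit: V(OmP) = V(Om), V(Om L) = V(Om)^2 (Om ≠ 0: PerW.ne); r1 + 2 r2 = [K : ℚ] (InfinitePlace.card_add_two_mul_card_eq_rank). -/
theorem sha_val (K : Type) [Field K] [NumberField K] (hper : PerW F W Om) (hL : PerZ W L) (hp : p.Prime) (h5 : 5 ≤ p)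
    (hF : H55P.UnrP p F) (hK : H55P.UnrP p K) (hΔ : ¬ (p : ℤ) ∣ W.Δ) (hj : ∃ j₀ : ℤ, W.c₄ ^ 3 = j₀ * W.Δ) (L1 : ℂ)
    (V : ValuationSubring ℂ) (hV : V.valuation (p : ℂ) < 1) :
    V.valuation (shaG K W L L1) = V.valuation (L1 / Om ^ Module.finrank ℚ K) *
      V.valuation ((Nat.card (W⁄K).toAffine.Point : ℕ) : ℂ) ^ 2 := by
  have hOm : Om ≠ 0 := hper.ne
  have hVO : V.valuation Om ≠ 0 := (Valuation.ne_zero_iff _).2 hOm
  have h1 : V.valuation ((Real.sqrt |(NumberField.discr K : ℝ)| : ℝ) : ℂ) = 1 :=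
    qs2_discr p hp hK V hV
  have h2 := prod_W (W := W) K hp h5 hΔ hj V hV
  have h3 : V.valuation (OmP W L : ℂ) = V.valuation Om := by
    have h := omr_unit hper hL hp h5 hF V hV
    rw [map_div₀] at h
    exact (div_eq_one_iff_eq hVO).1 h
  have h4 : V.valuation (H55C.Om L : ℂ) = V.valuation Om ^ 2 := by
    have h := (om_unit hper hL hp hF).2 V hV
    rw [map_div₀, map_pow] at h
    exact (div_eq_one_iff_eq (pow_ne_zero 2 hVO)).1 h
  have h5' := NumberField.InfinitePlace.card_add_two_mul_card_eq_rank K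
  rw [shaG, map_div₀, map_mul, map_mul, map_mul, map_mul, map_pow, map_pow, map_pow, h1, h2, h3, h4,
    mul_one, mul_one, map_div₀, map_pow, ← h5', ← pow_mul, ← pow_add]
  rw [div_mul_eq_mul_div]

end H55K.TQ
end

-- from Lib.H55K.FB6A
section

/-! # H55K: the analytic part over K and the Hecke L-value -/

open NumberField IsDedekindDomain WeierstrassCurve

namespace H55K.TQ

open H55P (IQ embF eF LF Per IsHecke Pt ac Inert Dec Nm UnitP)
open H35P (WAB Ker tt GoodW IntW)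
open H55K.MG (VC Crd)

variable {F : Type} [Field F] [NumberField F] [IQ F] {W : WeierstrassCurve ℤ} {Om : ℂ}
    {m : Ideal (𝓞 F)} {ψ : Ideal (𝓞 F) →*₀ 𝓞 F} {p : ℕ}

/-- Chunk FB6A (S). shaG = lG #E^2. -/
theorem shaG_lG (K : Type) [Field K] [NumberField K] (W : WeierstrassCurve ℤ) (L : PeriodPair) (L1 : ℂ) :
    shaG K W L L1 = lG K W L L1 * (Nat.card (W⁄K).toAffine.Point : ℂ) ^ 2 := by
  unfold shaG lG
  ring

/-- Chunk FB6A (S). As sha_val (QS2.lean) without the points (same proof; or cancel if the number of points is not 0). -/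
theorem lG_val (K : Type) [Field K] [NumberField K] {L : PeriodPair} (hper : PerW F W Om) (hL : PerZ W L) (hp : p.Prime) (h5 : 5 ≤ p)
    (hF : H55P.UnrP p F) (hK : H55P.UnrP p K) (hΔ : ¬ (p : ℤ) ∣ W.Δ) (hj : ∃ j₀ : ℤ, W.c₄ ^ 3 = j₀ * W.Δ) (L1 : ℂ)
    (V : ValuationSubring ℂ) (hV : V.valuation (p : ℂ) < 1) :
    V.valuation (lG K W L L1) = V.valuation (L1 / Om ^ Module.finrank ℚ K) := by
  have hOm : Om ≠ 0 := hper.ne
  have hVO : V.valuation Om ≠ 0 := (Valuation.ne_zero_iff _).2 hOm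
  have h1 : V.valuation ((Real.sqrt |(NumberField.discr K : ℝ)| : ℝ) : ℂ) = 1 :=
    qs2_discr p hp hK V hV
  have h2 := prod_W (W := W) K hp h5 hΔ hj V hV
  have h3 : V.valuation (OmP W L : ℂ) = V.valuation Om := by
    have h := omr_unit hper hL hp h5 hF V hV
    rw [map_div₀] at h
    exact (div_eq_one_iff_eq hVO).1 h
  have h4 : V.valuation (H55C.Om L : ℂ) = V.valuation Om ^ 2 := by
    have h := (om_unit hper hL hp hF).2 V hV
    rw [map_div₀, map_pow] at h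
    exact (div_eq_one_iff_eq (pow_ne_zero 2 hVO)).1 h
  have h5' := NumberField.InfinitePlace.card_add_two_mul_card_eq_rank K
  rw [lG, map_div₀, map_mul, map_mul, map_mul, map_pow, map_pow, h1, h2, h3, h4,
    mul_one, mul_one, map_div₀, map_pow, ← h5', ← pow_mul, ← pow_add]

end H55K.TQ
end
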