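import Mathlib
import Pool.Agent.Lib.H1M.PP.M043
import Pool.Agent.Lib.H1M.PP.M063
import Pool.Agent.Lib.H1M.PP.M070
import Pool.Agent.Lib.H1M.PP.M079
import Pool.Agent.Lib.H1M.PP.M083
import Pool.Agent.Lib.H1M.PP.M084

/-! Merged copies (to shorten the build) of Lib.H13R.A1, Lib.H13R.B3, Lib.H13R.G1, Lib.H13R.D1. -/

-- from Lib.H13R.A1
section

/-! # H13R: the Galois closure over F is unramified at p -/

open NumberField IsDedekindDomain WeierstrassCurve

namespace H13R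

open H55P (PExt UnrP)

variable {F : Type} [Field F] [NumberField F] {p : ℕ}

/-- Chunk A1 (S/M). L = clos ⊥ K (H55P/CL.lean, the Galois closure of K over the bottom field), N = a finite normal extension of F in Ω containing K
(IntermediateField.normalClosure F K Ω, K is finite over F: H13X.yn1_fin). The proof of H55K.TQ.unr_clos (F1.lean) with N in place of L: clos_ram ⊥ K N bot_le hKN (all s map N to itself), y9_up, y9_ram, y9_unr, unrP_sub. FiniteDimensional: clos_le. -/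
theorem unr_closF (hp : p.Prime) (hpu : UnrP p F) {K : IntermediateField F (AlgebraicClosure F)} [NumberField K] (hU : UnrP p K) :
    ∃ (L : IntermediateField F (AlgebraicClosure F)) (_ : NumberField L), FiniteDimensional F L ∧ K ≤ L ∧
      (∀ s : AlgebraicClosure F ≃ₐ[F] AlgebraicClosure F, ∀ x ∈ L, s x ∈ L) ∧ UnrP p L := by
  classical
  have hKf : FiniteDimensional F K := by
    have : IsScalarTower ℚ F K := IsScalarTower.of_algebraMap_eq' (Subsingleton.elim _ _)
    exact Module.Finite.of_restrictScalars_finite ℚ F K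
  obtain ⟨N, hN⟩ : ∃ N : IntermediateField F (AlgebraicClosure F), N = IntermediateField.normalClosure F K (AlgebraicClosure F) := ⟨_, rfl⟩
  have hNf : FiniteDimensional F N := by
    rw [hN]
    infer_instance
  have hKN : K ≤ N := by
    rw [hN]
    exact K.le_normalClosure
  have hNn : ∀ s : AlgebraicClosure F ≃ₐ[F] AlgebraicClosure F, ∀ x ∈ N, s x ∈ N := by
    intro s x hx
    have hnor : Normal F N := by
      rw [hN]
      infer_instance
    have h1 := (IntermediateField.normal_iff_forall_map_le'.1 hnor) s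
    exact h1 ⟨x, hx, rfl⟩
  have hbf : FiniteDimensional F (⊥ : IntermediateField F (AlgebraicClosure F)) := inferInstance
  have hbn : NumberField (⊥ : IntermediateField F (AlgebraicClosure F)) := H16C.FR_numberField _
  have hle : H55P.clos (⊥ : IntermediateField F (AlgebraicClosure F)) K ≤ N :=
    H55P.clos_le ⊥ K N hKN fun s _ => hNn s
  have hCf : FiniteDimensional F (H55P.clos (⊥ : IntermediateField F (AlgebraicClosure F)) K) := H55P.finDim_of_le hle
  have hCn : NumberField (H55P.clos (⊥ : IntermediateField F (AlgebraicClosure F)) K) := H16C.FR_numberField _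
  refine ⟨_, hCn, hCf, H55P.le_clos _ _, fun s x hx => H55P.clos_norm ⊥ K s ?_ x hx, ?_⟩
  · rw [IntermediateField.fixingSubgroup_bot]
    exact Subgroup.mem_top s
  refine H55P.unrP_sub p hp _ hpu fun v hv hpv => ?_
  obtain ⟨v', h1⟩ := H55K.y9_up (Ω := AlgebraicClosure F) v
  have hr' := (H55K.y9_ram h1 _).2 hv
  have h3 : H55P.Ram (⊥ : IntermediateField F (AlgebraicClosure F)) K v'.asIdeal :=
    H55P.clos_ram ⊥ K N bot_le hKN (fun s _ => hNn s) v' hr'
  exact H55K.y9_unr K hU ((H55K.y9_ram h1 K).1 h3) hpv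

end H13R
end

-- from Lib.H13R.B3
section

/-! # H13R: the auxiliary prime of M -/

open NumberField IsDedekindDomain WeierstrassCurve

namespace H13R

open H55P H55R
open H35P (WAB Ker tt)
open H55K H55K.TQ
open H28T

variable {F : Type} [Field F] [NumberField F] [IQ F] {W₀ : WeierstrassCurve (𝓞 F)} {Om : ℂ}
    {m : Ideal (𝓞 F)} {ψ : Ideal (𝓞 F) →*₀ 𝓞 F} {p : ℕ}

/-- Chunk B3 (M). K = L from unr_closF (A1.lean) for M; C = the field generated over K by a primitive p-th root of unity ζ of Ω (IntermediateField.adjoin F of K and ζ; or adjoin K {ζ} as IntermediateField K Ω and restrictScalars F): Galois over F (K is normal over F,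
all conjugates of ζ are powers of ζ), finrank K C ≤ p - 1 (ζ is a root of the cyclotomic polynomial of degree p - 1: minpoly divides it). exists_niceR: w. v = the prime w.under (𝓞 M) of M (M ≤ K ≤ C; make C an M-algebra), v₀ = w.under (𝓞 F). inertiaDeg of w over F is 1 (fs F C v₀ = 1: Ideal.inertiaDegIn_eq_inertiaDeg as at the end of cb3_niceG), so inertiaDeg of v over F is 1
(inertiaDeg_tower), relNorm v = v₀ (H55K.DD.below (D8.lean): relNorm = v₀^inertiaDeg), and the residue fields of v and v₀ are isomorphic, Nat.card of the points: use H55K.pts_w (DM.lean; hH.deu, hH.supp) for v: the number of points is Nm (1 - ψ (relNorm v)) = Nm (1 - ψ v₀) = the number of points over v₀ (hH.deu), not divisible by p. hecke: Nm x = absNorm (span {x}) (definition of Nm). modulus: mK M m ≤ v iff m ≤ v₀ (DD.below), hH.supp. -/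
theorem exists_goodGR (hH : BaseH F W₀ Om m ψ) (hp : PrimeH F W₀ p) (M : IntermediateField F (AlgebraicClosure F)) [NumberField M]
    (hU : UnrP p M) : ∃ v, GoodG p W₀ m ψ M v := by
  classical
  obtain ⟨K, nK, fK, hMK, hsK, hUK⟩ := unr_closF hp.prime hp.unr hU
  have hpF : Fact p.Prime := ⟨hp.prime⟩
  have hp0 : NeZero p := ⟨hp.prime.ne_zero⟩
  have hNK : Normal F K := by
    rw [IntermediateField.normal_iff_forall_map_le']
    intro σ
    rintro _ ⟨x, hx, rfl⟩
    exact hsK σ x hx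
  have hGK : IsGalois F K := { to_normal := hNK }
  obtain ⟨C, iC, hC, iK, hCy⟩ := W1_ex p K
  let iF : Algebra F C := ((algebraMap K C).comp (algebraMap F K)).toAlgebra
  have hT : IsScalarTower F K C := IsScalarTower.of_algebraMap_eq fun x => rfl
  let iM : Algebra M C := ((algebraMap K C).comp (IntermediateField.inclusion hMK).toRingHom).toAlgebra
  have hTM : IsScalarTower F M C := IsScalarTower.of_algebraMap_eq fun x => rfl
  have hN : Normal F C := W1_normal p K C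
  have hGC : IsGalois F C := { to_normal := hN }
  have hGKC : IsGalois K C := IsCyclotomicExtension.isGalois {p} K C
  let ζ : C := IsCyclotomicExtension.zeta p K C
  have hζ : IsPrimitiveRoot ζ p := IsCyclotomicExtension.zeta_spec p K C
  have hdeg : Module.finrank K C ∣ p - 1 := by
    rw [← IsGalois.card_aut_eq_finrank K C, ← ZMod.card_units p, ← Nat.card_eq_fintype_card]
    refine Subgroup.card_dvd_of_injective (hζ.autToPow K) ?_
    exact IsPrimitiveRoot.autToPow_injective K hζ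
  have hdeg' : Module.finrank K C ≤ p - 1 :=
    Nat.le_of_dvd (by have := hp.five; omega) hdeg
  obtain ⟨w, hw1, hw2, hw3⟩ := exists_niceR hH hp K C hUK hζ hdeg'
  have hwpr := w.isPrime
  have hwmax := w.isMaximal
  let v : HeightOneSpectrum (𝓞 M) := w.under (𝓞 M)
  have hvmax := v.isMaximal
  obtain ⟨v₁, e1, e2, e3, e4⟩ := DD.below (F := F) (K := M) (m := m) v
  have hv₁ : v₁ = w.under (𝓞 F) := by
    apply HeightOneSpectrum.ext
    rw [e1]
    show (w.asIdeal.under (𝓞 M)).under (𝓞 F) = w.asIdeal.under (𝓞 F)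
    rw [Ideal.under_under]
  obtain ⟨g1, g2, g3⟩ := hw1
  rw [← hv₁] at g1 g2 g3 hw3
  have hfd : v.asIdeal.inertiaDeg (𝓞 F) = 1 := by
    have hl1 : w.asIdeal.LiesOver v₁.asIdeal := ⟨by rw [hv₁]; rfl⟩
    have hl2 : w.asIdeal.LiesOver v.asIdeal := ⟨rfl⟩
    have h1 : w.asIdeal.inertiaDeg (𝓞 F) = 1 := by
      rw [← Ideal.inertiaDegIn_eq_inertiaDeg v₁.asIdeal w.asIdeal Gal(C/F)]
      exact hw3
    have h2 := Ideal.inertiaDeg_tower (R := 𝓞 F) v.asIdeal w.asIdeal
    rw [h1] at h2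
    exact Nat.eq_one_of_mul_eq_one_right h2.symm
  have hrel : Ideal.relNorm (𝓞 F) v.asIdeal = v₁.asIdeal := by
    rw [e2, hfd, pow_one]
  have d1 : algebraMap (𝓞 F) (𝓞 M) W₀.Δ ∉ v.asIdeal := by
    intro h
    apply g1
    rw [e1]
    exact h
  have d2 : ¬ mK M m ≤ v.asIdeal := by
    intro h
    exact g1 ((hH.supp v₁).2 (e4.1 h))
  have d3 : (p : 𝓞 M) ∉ v.asIdeal := by
    intro h
    apply g2
    rw [e1]
    show algebraMap (𝓞 F) (𝓞 M) (p : 𝓞 F) ∈ v.asIdeal
    rw [map_natCast]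
    exact h
  have d5 : ¬ p ∣ Nm (1 - ψ (Ideal.relNorm (𝓞 F) v.asIdeal)) := by
    rw [hrel, ← hH.deu v₁ g1]
    exact g3
  refine ⟨v, d1, d2, d3, ?_, d5⟩
  rw [pts_w hH.data.hecke (fun v hv _ => hH.deu v hv) v d1 d2]
  exact d5

end H13R
end

-- from Lib.H13R.G1
section

/-! # H13R: the base fields -/

open NumberField IsDedekindDomain WeierstrassCurve

namespace H13R

open H55P (IQ embF eF LF Per IsHecke Pt ac Inert Dec Nm Coc PExt UnrP)
open H35P (WAB Ker tt)
open H55K.S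
open H13S (Abv)
open H13X

variable {F : Type} [Field F] [NumberField F] [IQ F] {l : ℕ}

theorem g1_exp {N : IntermediateField F (AlgebraicClosure F)} [NumberField N]
    (V : ValuationSubring (AlgebraicClosure F)) (β : 𝓞 F) (hβ : Prime β) (hV : H55K.S.vo V β < 1)
    (w : HeightOneSpectrum (𝓞 N)) (hw : Abv N V w) :
    ∃ f : ℕ, 0 < f ∧ Ideal.absNorm w.asIdeal = Nm β ^ f := by
  have hwp := w.isPrime
  have hwm := w.isMaximal
  have hbot : Ideal.span {β} ≠ ⊥ := by
    rw [Ne, Ideal.span_singleton_eq_bot]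
    exact hβ.ne_zero
  have hp : (Ideal.span {β}).IsPrime := (Ideal.span_singleton_prime hβ.ne_zero).2 hβ
  have hm : (Ideal.span {β}).IsMaximal := hp.isMaximal hbot
  have hmem : algebraMap (𝓞 F) (𝓞 N) β ∈ w.asIdeal := by
    rw [← HeightOneSpectrum.valuation_lt_one_iff_mem (K := N), ← hw.lt]
    exact hV
  have hlies : w.asIdeal.LiesOver (Ideal.span {β}) := by
    constructor
    refine hm.eq_of_le (Ideal.IsPrime.ne_top inferInstance) ?_
    rw [Ideal.span_singleton_le_iff_mem]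
    exact hmem
  refine ⟨w.asIdeal.inertiaDeg (𝓞 F), Ideal.inertiaDeg_pos w.asIdeal (𝓞 F), ?_⟩
  rw [← Ideal.absNorm_pow_inertiaDeg (Ideal.span {β}) w.asIdeal]
  rfl

/-- The residue fields above l. -/
theorem g1_res (hl : l.Prime) {N : IntermediateField F (AlgebraicClosure F)} [NumberField N]
    (V : ValuationSubring (AlgebraicClosure F)) (β : 𝓞 F) (hβ : Prime β) (hV : H55K.S.vo V β < 1) (hVl : V.valuation (l : AlgebraicClosure F) < 1) :
    ∃ q f : ℕ, 0 < f ∧ q = Nm β ^ f ∧ (∀ x ∈ N, x ∈ V → V.valuation (x ^ q - x) < 1) ∧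
      (∃ φ ∈ N.fixingSubgroup, H55P.Dec V φ ∧ ∀ x ∈ V, V.valuation (φ x - x ^ q) < 1) ∧
      ∃ r : Fin q → AlgebraicClosure F, (∀ i, r i ∈ N ∧ V.valuation (r i) ≤ 1) ∧
        (∀ i i', i ≠ i' → V.valuation (r i - r i') = 1) ∧
        ∀ x ∈ N, x ∈ V → ∃ i, V.valuation (x - r i) < 1 := by
  classical
  have hl0 : (l : AlgebraicClosure F) ≠ 0 := Nat.cast_ne_zero.2 hl.ne_zero
  have hlinv : ((l : AlgebraicClosure F)⁻¹) ∉ V := by
    rw [← V.valuation_le_one_iff, map_inv₀, not_le]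
    exact (one_lt_inv₀ (zero_lt_iff.2 ((map_ne_zero _).2 hl0))).2 hVl
  have hN : ∃ x : N, (x : AlgebraicClosure F) ∉ V := by
    refine ⟨(l : N)⁻¹, ?_⟩
    have e : (((l : N)⁻¹ : N) : AlgebraicClosure F) = (l : AlgebraicClosure F)⁻¹ := by simp
    rw [e]
    exact hlinv
  obtain ⟨w, hw⟩ := H13S.exists_below N V hN
  have hwm := w.isMaximal
  obtain ⟨f, hf0, hf⟩ := g1_exp V β hβ hV w hw
  obtain ⟨φ, hφN, hφD, hφ⟩ := exists_frobK N hw
  refine ⟨Ideal.absNorm w.asIdeal, f, hf0, hf, ?_, ⟨φ, hφN, hφD, hφ⟩, ?_⟩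
  · intro x hx hxV
    have h1 := hφ x hxV
    have h2 : φ x = x := (IntermediateField.mem_fixingSubgroup_iff N φ).1 hφN x hx
    rw [h2] at h1
    rw [← neg_sub, Valuation.map_neg]
    exact h1
  · have hcard : Nat.card (𝓞 N ⧸ w.asIdeal) = Ideal.absNorm w.asIdeal := rfl
    have hfin : Finite (𝓞 N ⧸ w.asIdeal) := Ideal.finiteQuotientOfFreeOfNeBot _ w.ne_bot
    have e : Fin (Ideal.absNorm w.asIdeal) ≃ (𝓞 N ⧸ w.asIdeal) := by
      rw [← hcard]
      exact (Finite.equivFin _).symm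
    have hmk : ∀ y : 𝓞 N ⧸ w.asIdeal, Ideal.Quotient.mk w.asIdeal (Quotient.out y) = y := fun y =>
      Quotient.out_eq y
    refine ⟨fun i => (((Quotient.out (e i) : 𝓞 N) : N) : AlgebraicClosure F), fun i => ⟨?_, H13S.vw_int N V _⟩, ?_, ?_⟩
    · exact ((Quotient.out (e i) : 𝓞 N) : N).2
    · intro i i' hii
      have e1 : (((Quotient.out (e i) : 𝓞 N) : N) : AlgebraicClosure F) - (((Quotient.out (e i') : 𝓞 N) : N) : AlgebraicClosure F) =
          (((Quotient.out (e i) - Quotient.out (e i') : 𝓞 N) : N) : AlgebraicClosure F) := by simp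
      show V.valuation ((((Quotient.out (e i) : 𝓞 N) : N) : AlgebraicClosure F) - (((Quotient.out (e i') : 𝓞 N) : N) : AlgebraicClosure F)) = 1
      rw [e1]
      refine le_antisymm (H13S.vw_int N V _) (not_lt.1 fun h' => hii ?_)
      have h2 := (w.valuation_lt_one_iff_mem _).1 ((hw.lt _).1 h')
      rw [← Ideal.Quotient.eq_zero_iff_mem, map_sub, hmk, hmk, sub_eq_zero] at h2
      exact e.injective h2
    · intro x hx hxV
      obtain ⟨y, hy⟩ := yn2_approx N V w hw ⟨x, hx⟩ hxV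
      refine ⟨e.symm (Ideal.Quotient.mk w.asIdeal y), ?_⟩
      have h3 : y - Quotient.out (Ideal.Quotient.mk w.asIdeal y) ∈ w.asIdeal := by
        rw [← Ideal.Quotient.eq_zero_iff_mem, map_sub, hmk, sub_self]
      have h4 := (hw.lt _).2 ((w.valuation_lt_one_iff_mem _).2 h3)
      show V.valuation (x - (((Quotient.out (e (e.symm (Ideal.Quotient.mk w.asIdeal y))) : 𝓞 N) : N) : AlgebraicClosure F)) < 1
      rw [e.apply_symm_apply]
      have e2 : x - (((Quotient.out (Ideal.Quotient.mk w.asIdeal y) : 𝓞 N) : N) : AlgebraicClosure F) =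
          (x - ((y : N) : AlgebraicClosure F)) + (((y - Quotient.out (Ideal.Quotient.mk w.asIdeal y) : 𝓞 N) : N) : AlgebraicClosure F) := by
        have h5 : (((y - Quotient.out (Ideal.Quotient.mk w.asIdeal y) : 𝓞 N) : N) : AlgebraicClosure F) =
          ((y : N) : AlgebraicClosure F) - (((Quotient.out (Ideal.Quotient.mk w.asIdeal y) : 𝓞 N) : N) : AlgebraicClosure F) := by simp
        rw [h5]
        ring
      rw [e2]
      exact V.valuation.map_add_lt hy h4

open Classical in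
/-- Number fields N in which l is unramified satisfy Nb. -/
theorem nb_ofR (hl : l.Prime) (hlF : UnrP l F) {N : IntermediateField F (AlgebraicClosure F)} [NumberField N]
    (hU : UnrP l N) : Nb l N := by
  obtain ⟨L₀, hLn, hLf, hNL, hn, hUL⟩ := unr_closF hl hlF hU
  refine ⟨H55P.finDim_of_le hNL, ?_, ?_⟩
  · intro V h s hs
    have hVne : ∃ x : L₀, (x : AlgebraicClosure F) ∉ V := by
      have hl0 : (l : AlgebraicClosure F) ≠ 0 := Nat.cast_ne_zero.2 hl.ne_zero
      refine ⟨(l : L₀)⁻¹, fun hmem => ?_⟩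
      have h1 : V.valuation ((((l : L₀))⁻¹ : L₀) : AlgebraicClosure F) ≤ 1 := (V.valuation_le_one_iff _).2 hmem
      have h2 : ((((l : L₀))⁻¹ : L₀) : AlgebraicClosure F) = (l : AlgebraicClosure F)⁻¹ := by push_cast; rfl
      rw [h2] at h1
      have h3 : V.valuation ((l : AlgebraicClosure F) * (l : AlgebraicClosure F)⁻¹) < 1 := by
        rw [map_mul]
        exact mul_lt_one_of_lt_of_le h h1
      rw [mul_inv_cancel₀ hl0, map_one] at h3
      exact lt_irrefl _ h3
    refine IntermediateField.fixingSubgroup_le hNL (H13X.inert_triv hn hVne ?_ hs)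
    intro v₀ hv₀ hr
    obtain ⟨W, hW, hle⟩ := hr
    have hlv : (l : 𝓞 F) ∈ v₀.asIdeal := by
      rw [hv₀]
      simpa using h
    have h1 : (l : 𝓞 L₀) ∈ W ^ 2 := by
      have := hle (Ideal.mem_map_of_mem (algebraMap (𝓞 F) (𝓞 L₀)) hlv)
      rwa [map_natCast] at this
    have h2 : W ^ 2 ∣ Ideal.span {(l : 𝓞 L₀)} := by
      rw [Ideal.dvd_iff_le, Ideal.span_singleton_le_iff_mem]
      exact h1
    have h3 : IsUnit W := hUL W (by rwa [← sq])
    exact hW.ne_top (Ideal.isUnit_iff.1 h3)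
  · intro V β hβ h1 h2
    exact g1_res hl V β hβ h1 h2

end H13R
end

-- from Lib.H13R.D1
section

/-! # H13R: the L-function over K in terms of the Hecke L-series, under the hypothesis of bad reduction over K -/

open NumberField IsDedekindDomain WeierstrassCurve

namespace H13R

open H55P (IQ embF eF LF Per IsHecke Pt ac Inert Dec Nm UnitP)
open H35P (WAB Ker tt GoodW IntW)
open H55K.MG (VC Crd)
open H55K H55K.TQ

variable {F : Type} [Field F] [NumberField F] [IQ F] {W : WeierstrassCurve ℤ} {Om : ℂ}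
    {m : Ideal (𝓞 F)} {ψ : Ideal (𝓞 F) →*₀ 𝓞 F} {p : ℕ}

/-- Bad reduction over K. -/
theorem fb3b_badR
    (K : Type) [Field K] [NumberField K] [Algebra F K] (K' : IntermediateField F (AlgebraicClosure F)) [NumberField K']
    (hbad : ∀ w : HeightOneSpectrum (𝓞 K'), H55P.mK K' m ≤ w.asIdeal → ¬ GoodAt (((W⁄(𝓞 F))⁄F)⁄K') w) (θ : K ≃ₐ[F] K') (w : HeightOneSpectrum (𝓞 K)) (hw : H55P.mK K m ≤ w.asIdeal) :
    ¬ GoodAt (((W⁄(𝓞 F))⁄F)⁄K) w := by
  intro hgood
  let _ : Algebra K K' := (θ : K →+* K').toAlgebra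
  have hst : IsScalarTower F K K' := IsScalarTower.of_algebraMap_eq fun x => (θ.commutes x).symm
  have hwm := w.isMaximal
  obtain ⟨Q, hQ1, hQ2⟩ := Ideal.exists_maximal_ideal_liesOver_of_isIntegral (S := 𝓞 K') w.asIdeal
  have hQ0 : Q ≠ ⊥ := Ideal.ne_bot_of_liesOver_of_ne_bot w.ne_bot Q
  have hover : w.asIdeal = Q.under (𝓞 K) := hQ2.over
  have hmQ : H55P.mK K' m ≤ Q := by
    have h1 : H55P.mK K' m = (H55P.mK K m).map (algebraMap (𝓞 K) (𝓞 K')) := by
      unfold H55P.mK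
      rw [Ideal.map_map, ← IsScalarTower.algebraMap_eq]
    rw [h1, Ideal.map_le_iff_le_comap]
    exact hw.trans (le_of_eq hover)
  have hg : GoodAt ((((W⁄(𝓞 F))⁄F)⁄K)⁄K') ⟨Q, hQ1.isPrime, hQ0⟩ := good_up hover hgood
  refine hbad ⟨Q, hQ1.isPrime, hQ0⟩ hmQ ?_
  have he : (((W⁄(𝓞 F))⁄F)⁄K)⁄K' = ((W⁄(𝓞 F))⁄F)⁄K' := by
    rw [WeierstrassCurve.baseChange, WeierstrassCurve.baseChange, WeierstrassCurve.baseChange, WeierstrassCurve.map_map]
    congr 1
    exact (IsScalarTower.algebraMap_eq F K K').symm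
  rw [← he]
  exact hg

/-- Chunk FB3B (M). The L-series over K contains F. K' = KG F K ι, θ : K ≃ₐ[F] K' (kg_iso). lfun_K (DM.lean) for K: the condition hbad for W⁄K at w with mK K m ≤ w: a prime w' of K' above w (algebra K → K' by θ), mK K' m ≤ w', bad_K (T10.lean) for K' ≤ L, good_up (RG.lean). Then as in gen_lval (H55P/Gen.lean) or i5_lfun (I5.lean), with tm_congr. -/
theorem lser_FR (hH : BaseH F (W⁄(𝓞 F)) Om m ψ)
    (K : Type) [Field K] [NumberField K] [Algebra F K] (K' : IntermediateField F (AlgebraicClosure F)) [NumberField K']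
    (hbad : ∀ w : HeightOneSpectrum (𝓞 K'), H55P.mK K' m ≤ w.asIdeal → ¬ GoodAt (((W⁄(𝓞 F))⁄F)⁄K') w) (θ : K ≃ₐ[F] K') (Φ : ℂ → ℂ) (hΦ : ∀ s : ℂ, 3 / 2 < s.re → HasSum (H55N.tm (H55P.PsiP K' ψ) s) (Φ s)) (s : ℂ)
    (hs : 3 / 2 < s.re) :
    LSeriesHasSum (fun n => (((W⁄K).LFunction n : ℤ) : ℂ)) s (Φ s * (starRingEnd ℂ) (Φ ((starRingEnd ℂ) s))) := by
  classical
  have hLs : ∀ s : ℂ, 3 / 2 < s.re → HasSum (H55N.tm (H55P.PsiP K ψ) s) (Φ s) := fun s hs => tm_congr K K' θ s _ (hΦ s hs)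
  have hs' : 3 / 2 < ((starRingEnd ℂ) s).re := by simpa using hs
  have h := hH.data.hecke
  have h0 : H55P.PsiP K ψ ⊥ = 0 := (H55P.PsiP K ψ).map_zero
  have h1 := H55N.AI_LSeries (fun a => H55P.PsiP K ψ a) h0 s (H55N.tm_summable _ (H55P.PsiP_norm_le h) s hs)
  have h2 := H55N.AI_LSeries (fun a => (starRingEnd ℂ) (H55P.PsiP K ψ a)) (by rw [h0, map_zero]) s
    (H55N.tm_summable _ (fun a => by rw [RCLike.norm_conj]; exact H55P.PsiP_norm_le h a) s hs)
  have e1 : ∑' a, H55N.tm (fun a => H55P.PsiP K ψ a) s a = Φ s := (hLs s hs).tsum_eq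
  have e2 : ∑' a, H55N.tm (fun a => (starRingEnd ℂ) (H55P.PsiP K ψ a)) s a =
      (starRingEnd ℂ) (Φ ((starRingEnd ℂ) s)) := by
    have h3 := (Complex.hasSum_conj').2 (hLs _ hs')
    have h4 := h3.tsum_eq
    rw [← h4]
    exact tsum_congr fun a => H55N.H8_tm _ s a
  rw [e1] at h1
  rw [e2] at h2
  have h3 := ArithmeticFunction.LSeriesHasSum_mul h1 h2
  have e3 : (fun n => (((W⁄K).LFunction n : ℤ) : ℂ)) = fun n =>
      (H55N.AI (H55P.PsiP K ψ) * H55N.AI (fun a => (starRingEnd ℂ) (H55P.PsiP K ψ a))) n := by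
    funext n
    rw [← cur_eq (F := F) (W := W) K]
    exact lfun_K h (fun v hv _ => hH.deu v hv) (fun v hv => (hH.supp v).1 hv) (jint_of hH.data.per hH.data.ell)
      (fun w hw => fb3b_badR K K' hbad θ w hw) n
  rw [e3]
  exact h3

theorem lser_QR (hH : BaseH F (W⁄(𝓞 F)) Om m ψ)
    (K₀ : Type) [Field K₀] [NumberField K₀] (K' : IntermediateField F (AlgebraicClosure F)) [NumberField K']
    [Algebra K₀ K'] (hbad : ∀ w : HeightOneSpectrum (𝓞 K'), H55P.mK K' m ≤ w.asIdeal → ¬ GoodAt (((W⁄(𝓞 F))⁄F)⁄K') w) (hQ : QuadG F K₀ K') (Φ : ℂ → ℂ)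
    (hΦ : ∀ s : ℂ, 3 / 2 < s.re → HasSum (H55N.tm (H55P.PsiP K' ψ) s) (Φ s)) (s : ℂ) (hs : 3 / 2 < s.re) :
    LSeriesHasSum (fun n => (((W⁄K₀).LFunction n : ℤ) : ℂ)) s (Φ s) := by
  obtain ⟨j₀, hj⟩ := jint_Z hH
  have hbad : ∀ w : HeightOneSpectrum (𝓞 K'), H55P.mK K' m ≤ w.asIdeal → ¬ GoodAt (W⁄K') w := by
    intro w hw
    have h1 := hbad w hw
    rw [cur_eq K'] at h1
    exact h1
  have hA : ∀ n : ℕ, (((W⁄K₀).LFunction n : ℤ) : ℂ) = H55N.AI (fun a => H55P.PsiP K' ψ a) n :=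
    fun n => lfun_quad hQ hH.data.hecke (fun v hv _ => hH.deu v hv) hH.supp (hram_of hH) hj hbad n
  have h0 : H55P.PsiP K' ψ ⊥ = 0 := (H55P.PsiP K' ψ).map_zero
  have h1 := H55N.AI_LSeries (fun a => H55P.PsiP K' ψ a) h0 s
    (H55N.tm_summable _ (H55P.PsiP_norm_le hH.data.hecke) s hs)
  have h2 : ∑' a : Ideal (𝓞 K'), H55N.tm (fun a => H55P.PsiP K' ψ a) s a = Φ s := (hΦ s hs).tsum_eq
  rw [h2] at h1
  have e1 : (fun n => (((W⁄K₀).LFunction n : ℤ) : ℂ)) = fun n => H55N.AI (fun a => H55P.PsiP K' ψ a) n :=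
    funext hA
  rw [e1]
  exact h1

/-- Chunk FB4 (S/M). kg_dich (RP2.lean): first case kg_iso (RP3.lean), lser_FR, the degree: θ and [F : ℚ] = 2 (IQ.deg); second case lser_QR and quad_deg (RP3.lean). -/
theorem lrelR (hH : BaseH F (W⁄(𝓞 F)) Om m ψ)
    (K : Type) [Field K] [NumberField K] (ι : K →ₐ[ℚ] AlgebraicClosure F) [NumberField (KG F K ι)]
    (hbad : ∀ w : HeightOneSpectrum (𝓞 (KG F K ι)), H55P.mK (KG F K ι) m ≤ w.asIdeal → ¬ GoodAt (((W⁄(𝓞 F))⁄F)⁄(KG F K ι)) w) : LRel W ψ K (KG F K ι) := by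
  rcases kg_dich F K ι with ⟨f, hf⟩ | hQ
  · left
    letI : Algebra F K := f.toAlgebra
    obtain ⟨θ⟩ := kg_iso F K ι f hf
    refine ⟨?_, fun Φ hΦ s hs => lser_FR hH K (KG F K ι) hbad θ Φ hΦ s hs⟩
    have h1 := Module.finrank_mul_finrank ℚ F K
    have h2 : Module.finrank F K = Module.finrank F (KG F K ι) := θ.toLinearEquiv.finrank_eq
    have h3 : Module.finrank ℚ F = 2 := IQ.deg
    rw [h3, h2] at h1
    exact h1.symm
  · right
    letI : Algebra K (KG F K ι) := (KGmap F K ι).toAlgebra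
    exact ⟨quad_deg F hQ, fun Φ hΦ s hs => lser_QR hH K (KG F K ι) hbad hQ Φ hΦ s hs⟩

end H13R
end
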