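import Mathlib
import Pool.Agent.Lib.H1M.PP.M005
import Pool.Agent.Lib.H1M.PP.M037
import Pool.Agent.Lib.H1M.PP.M039
import Pool.Agent.Lib.H1M.PP.M041
import Pool.Agent.Lib.H1M.PP.M042
import Pool.Agent.Lib.H1M.PP.M043
import Pool.Agent.Lib.H1M.PP.M045
import Pool.Agent.Lib.H1M.PP.M048
import Pool.Agent.Lib.H1M.PP.M053
import Pool.Agent.Lib.H1M.PP.M054

/-! Merged copies (to shorten the build) of Lib.H55K.UA1, Lib.H55K.UA4, Lib.H55K.UA6, Lib.H55K.UA5, Lib.H55K.UB8, Lib.H55K.UA2B, Lib.H55K.UA7, Lib.H55K.UB9B, Lib.H55K.UB9C, Lib.H55K.UB3A, Lib.H55K.UB3B, Lib.H55K.UB9A, Lib.H55K.UB10B. -/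

-- from Lib.H55K.UA1
section

/-! # H55K: the second difference -/

open NumberField IsDedekindDomain WeierstrassCurve

namespace H55K

open H55P (IQ embF eF LF Per IsHecke Pt ac Inert Dec Nm)
open H35P (WAB Ker tt)


variable {F : Type} [Field F] [NumberField F] [IQ F]

theorem ua1_second (g g1 g2 : ℝ → ℂ) (B : ℝ) (h1 : ∀ t ∈ Set.Icc (-1 : ℝ) 1, HasDerivAt g (g1 t) t)
    (h2 : ∀ t ∈ Set.Icc (-1 : ℝ) 1, HasDerivAt g1 (g2 t) t) (hB : ∀ t ∈ Set.Icc (-1 : ℝ) 1, ‖g2 t‖ ≤ B) :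
    ‖g 1 + g (-1) - 2 * g 0‖ ≤ 2 * B := by
  have hB0 : 0 ≤ B := le_trans (norm_nonneg _) (hB 0 (by simp))
  have k1 : ∀ t ∈ Set.Icc (0 : ℝ) 1, ‖g1 t - g1 (-t)‖ ≤ 2 * B := by
    intro t ht
    have := (convex_Icc (-1 : ℝ) 1).norm_image_sub_le_of_norm_hasDerivWithin_le
      (fun x hx => (h2 x hx).hasDerivWithinAt) hB
      (show (-t) ∈ Set.Icc (-1 : ℝ) 1 from ⟨by linarith [ht.2], by linarith [ht.1]⟩)
      (show t ∈ Set.Icc (-1 : ℝ) 1 from ⟨by linarith [ht.1], ht.2⟩)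
    refine this.trans ?_
    have : ‖t - -t‖ ≤ 2 := by
      rw [Real.norm_eq_abs, abs_of_nonneg (by linarith [ht.1])]
      linarith [ht.2]
    nlinarith
  have k2 : ∀ t ∈ Set.Icc (0 : ℝ) 1, HasDerivWithinAt (fun x : ℝ => g x + g (-x)) (g1 t - g1 (-t))
      (Set.Icc (0 : ℝ) 1) t := by
    intro t ht
    have e1 := h1 t ⟨by linarith [ht.1], ht.2⟩
    have e2 := h1 (-t) ⟨by linarith [ht.2], by linarith [ht.1]⟩
    have e3 : HasDerivAt (fun x : ℝ => g (-x)) (-g1 (-t)) t := by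
      exact (HasDerivAt.scomp t e2 (hasDerivAt_neg t)).congr_deriv (by simp)
    exact ((e1.add e3).hasDerivWithinAt (s := Set.Icc (0 : ℝ) 1)).congr_deriv (by ring)
  have := (convex_Icc (0 : ℝ) 1).norm_image_sub_le_of_norm_hasDerivWithin_le k2 k1
    (show (0 : ℝ) ∈ Set.Icc (0 : ℝ) 1 by simp) (show (1 : ℝ) ∈ Set.Icc (0 : ℝ) 1 by simp)
  have e : g 1 + g (-1) - 2 * g 0 = (g 1 + g (-1)) - (g 0 + g (-0)) := by
    rw [neg_zero]; ring
  rw [e]
  simpa using this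

/-- The bound for one s, in terms of a lower bound d for the norms on the segment. -/
theorem ua1_bd (s w q : ℂ) (d : ℝ) (hd : 0 < d) (hs : 0 < s.re)
    (hw : ∀ t ∈ Set.Icc (-1 : ℝ) 1, d ≤ ‖w + t * q‖) :
    ‖dd s w q‖ ≤ 2 * ((10 * ‖s‖ + 4 * ‖s‖ ^ 2) * ‖q‖ ^ 2 * d ^ (-1 - 2 * s.re)) := by
  set N : ℝ → ℝ := fun t => (w.re + t * q.re) ^ 2 + (w.im + t * q.im) ^ 2 with hN
  set N1 : ℝ → ℝ := fun t => 2 * (w.re + t * q.re) * q.re + 2 * (w.im + t * q.im) * q.im with hN1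
  have hNn : ∀ t : ℝ, N t = ‖w + t * q‖ ^ 2 := by
    intro t
    rw [Complex.sq_norm, Complex.normSq_apply]
    simp [hN]
    ring
  have hN1n : ∀ t : ℝ, |N1 t| ≤ 2 * (‖q‖ * ‖w + t * q‖) := by
    intro t
    have e : N1 t = 2 * ((w + t * q) * (starRingEnd ℂ) q).re := by
      simp [hN1]
      ring
    rw [e, abs_mul, abs_of_pos (by norm_num : (0 : ℝ) < 2)]
    have := Complex.abs_re_le_norm ((w + t * q) * (starRingEnd ℂ) q)
    rw [norm_mul, Complex.norm_conj] at this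
    nlinarith
  have hNpos : ∀ t ∈ Set.Icc (-1 : ℝ) 1, 0 < N t := by
    intro t ht
    rw [hNn]
    have := lt_of_lt_of_le hd (hw t ht)
    positivity
  have dN : ∀ t : ℝ, HasDerivAt N (N1 t) t := by
    intro t
    have a1 : HasDerivAt (fun t : ℝ => w.re + t * q.re) q.re t := by
      simpa using ((hasDerivAt_id t).mul_const q.re).const_add w.re
    have a2 : HasDerivAt (fun t : ℝ => w.im + t * q.im) q.im t := by
      simpa using ((hasDerivAt_id t).mul_const q.im).const_add w.im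
    exact ((a1.pow 2).add (a2.pow 2)).congr_deriv (by simp [hN1])
  have dN1 : ∀ t : ℝ, HasDerivAt N1 (2 * ‖q‖ ^ 2) t := by
    intro t
    have a1 : HasDerivAt (fun t : ℝ => w.re + t * q.re) q.re t := by
      simpa using ((hasDerivAt_id t).mul_const q.re).const_add w.re
    have a2 : HasDerivAt (fun t : ℝ => w.im + t * q.im) q.im t := by
      simpa using ((hasDerivAt_id t).mul_const q.im).const_add w.im
    exact (((a1.const_mul 2).mul_const q.re).add ((a2.const_mul 2).mul_const q.im)).congr_deriv (by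
      rw [Complex.sq_norm, Complex.normSq_apply]; ring)
  set a : ℝ → ℝ := fun t => N1 t / N t with ha
  set a1 : ℝ → ℝ := fun t => (2 * ‖q‖ ^ 2 * N t - N1 t * N1 t) / N t ^ 2 with ha1
  have da : ∀ t ∈ Set.Icc (-1 : ℝ) 1, HasDerivAt a (a1 t) t := by
    intro t ht
    exact (dN1 t).div (dN t) (hNpos t ht).ne'
  set E : ℝ → ℂ := fun t => Complex.exp (-s * ((Real.log (N t) : ℝ) : ℂ)) with hE
  have dE : ∀ t ∈ Set.Icc (-1 : ℝ) 1, HasDerivAt E (E t * (-s * (a t : ℂ))) t := by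
    intro t ht
    have e1 : HasDerivAt (fun t => Real.log (N t)) (a t) t := (dN t).log (hNpos t ht).ne'
    have e2 : HasDerivAt (fun t => ((Real.log (N t) : ℝ) : ℂ)) ((a t : ℝ) : ℂ) t := e1.ofReal_comp
    exact (e2.const_mul (-s)).cexp
  set u : ℝ → ℂ := fun t => (starRingEnd ℂ) w + t * (starRingEnd ℂ) q with hu
  have du : ∀ t : ℝ, HasDerivAt u ((starRingEnd ℂ) q) t := by
    intro t
    have e1 : HasDerivAt (fun t : ℝ => (t : ℂ)) ((1 : ℝ) : ℂ) t := (hasDerivAt_id t).ofReal_comp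
    exact ((e1.mul_const ((starRingEnd ℂ) q)).const_add ((starRingEnd ℂ) w)).congr_deriv (by simp)
  have hun : ∀ t : ℝ, ‖u t‖ = ‖w + t * q‖ := by
    intro t
    rw [← Complex.norm_conj (w + t * q)]
    simp [hu]
  set g : ℝ → ℂ := fun t => u t * E t with hg
  set g1 : ℝ → ℂ := fun t => ((starRingEnd ℂ) q + -s * (a t : ℂ) * u t) * E t with hg1
  set g2 : ℝ → ℂ := fun t => (-s * (a1 t : ℂ) * u t + -2 * s * (a t : ℂ) * (starRingEnd ℂ) q +
    s ^ 2 * (a t : ℂ) ^ 2 * u t) * E t with hg2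
  have dg : ∀ t ∈ Set.Icc (-1 : ℝ) 1, HasDerivAt g (g1 t) t := by
    intro t ht
    exact ((du t).mul (dE t ht)).congr_deriv (by simp only [hg1]; ring)
  have dg1 : ∀ t ∈ Set.Icc (-1 : ℝ) 1, HasDerivAt g1 (g2 t) t := by
    intro t ht
    have e1 : HasDerivAt (fun t => ((a t : ℝ) : ℂ)) ((a1 t : ℝ) : ℂ) t := (da t ht).ofReal_comp
    exact ((((e1.const_mul (-s)).mul (du t)).const_add ((starRingEnd ℂ) q)).mul (dE t ht)).congr_deriv (by
      simp only [hg2]; simp only [Pi.mul_apply]; ring)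
  have hff : ∀ t ∈ Set.Icc (-1 : ℝ) 1, ff s (w + t * q) = g t := by
    intro t ht
    have h0 := hNpos t ht
    rw [ff, ← hNn, Complex.cpow_def_of_ne_zero (by exact_mod_cast h0.ne'), ← Complex.ofReal_log h0.le]
    simp only [hg, hu, hE]
    rw [mul_comm (-s)]
    simp
  have hEn : ∀ t ∈ Set.Icc (-1 : ℝ) 1, ‖E t‖ = ‖w + t * q‖ ^ (-2 * s.re) := by
    intro t ht
    have hp : 0 < ‖w + t * q‖ := lt_of_lt_of_le hd (hw t ht)
    have hE' : E t = Complex.exp (-s * ((Real.log (N t) : ℝ) : ℂ)) := rfl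
    rw [hE', Complex.norm_exp, hNn, Real.log_pow, Real.rpow_def_of_pos hp]
    congr 1
    simp
    ring
  have key : ∀ t ∈ Set.Icc (-1 : ℝ) 1, ‖g2 t‖ ≤ (10 * ‖s‖ + 4 * ‖s‖ ^ 2) * ‖q‖ ^ 2 * d ^ (-1 - 2 * s.re) := by
    intro t ht
    have hp : 0 < ‖w + t * q‖ := lt_of_lt_of_le hd (hw t ht)
    set W := ‖w + t * q‖ with hW
    have b1 : |a t| ≤ 2 * ‖q‖ / W := by
      simp only [ha]
      rw [abs_div, hNn, abs_of_pos (by positivity : 0 < ‖w + t * q‖ ^ 2), ← hW, div_le_div_iff₀ (by positivity) hp]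
      have := hN1n t
      rw [← hW] at this
      nlinarith
    have b2 : |a1 t| ≤ 6 * ‖q‖ ^ 2 / W ^ 2 := by
      have e : a1 t = 2 * ‖q‖ ^ 2 / W ^ 2 - a t ^ 2 := by
        simp only [ha1, ha]
        rw [hNn, ← hW]
        field_simp
      rw [e]
      have c1 : a t ^ 2 ≤ 4 * ‖q‖ ^ 2 / W ^ 2 := by
        rw [← sq_abs]
        calc |a t| ^ 2 ≤ (2 * ‖q‖ / W) ^ 2 := by gcongr
          _ = _ := by ring
      have c2 : 0 ≤ 2 * ‖q‖ ^ 2 / W ^ 2 := by positivity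
      have c3 : 6 * ‖q‖ ^ 2 / W ^ 2 = 2 * ‖q‖ ^ 2 / W ^ 2 + 4 * ‖q‖ ^ 2 / W ^ 2 := by ring
      rw [abs_le, c3]
      constructor
      · nlinarith [sq_nonneg (a t)]
      · nlinarith [sq_nonneg (a t)]
    have b3 : ‖-s * (a1 t : ℂ) * u t + -2 * s * (a t : ℂ) * (starRingEnd ℂ) q +
        s ^ 2 * (a t : ℂ) ^ 2 * u t‖ ≤ (10 * ‖s‖ + 4 * ‖s‖ ^ 2) * ‖q‖ ^ 2 / W := by
      have d1 : ‖-s * (a1 t : ℂ) * u t‖ ≤ ‖s‖ * (6 * ‖q‖ ^ 2 / W ^ 2) * W := by
        rw [norm_mul, norm_mul, norm_neg, hun, ← hW, Complex.norm_real, Real.norm_eq_abs]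
        gcongr
      have d2 : ‖-2 * s * (a t : ℂ) * (starRingEnd ℂ) q‖ ≤ 2 * ‖s‖ * (2 * ‖q‖ / W) * ‖q‖ := by
        rw [norm_mul, norm_mul, norm_mul, norm_neg, Complex.norm_conj, Complex.norm_real, Real.norm_eq_abs]
        simp only [Complex.norm_ofNat]
        gcongr
      have d3 : ‖s ^ 2 * (a t : ℂ) ^ 2 * u t‖ ≤ ‖s‖ ^ 2 * (2 * ‖q‖ / W) ^ 2 * W := by
        rw [norm_mul, norm_mul, norm_pow, norm_pow, hun, ← hW, Complex.norm_real, Real.norm_eq_abs]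
        gcongr
      refine (norm_add₃_le).trans ((add_le_add (add_le_add d1 d2) d3).trans (le_of_eq ?_))
      field_simp
      ring
    have b4 : ‖g2 t‖ ≤ (10 * ‖s‖ + 4 * ‖s‖ ^ 2) * ‖q‖ ^ 2 / W * W ^ (-2 * s.re) := by
      simp only [hg2]
      rw [norm_mul, hEn t ht, ← hW]
      gcongr
    refine b4.trans ?_
    have e : (10 * ‖s‖ + 4 * ‖s‖ ^ 2) * ‖q‖ ^ 2 / W * W ^ (-2 * s.re) =
        (10 * ‖s‖ + 4 * ‖s‖ ^ 2) * ‖q‖ ^ 2 * W ^ (-1 - 2 * s.re) := by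
      rw [show (-1 - 2 * s.re : ℝ) = -1 + -2 * s.re by ring, Real.rpow_add hp, Real.rpow_neg_one]
      ring
    rw [e]
    refine mul_le_mul_of_nonneg_left ?_ (by positivity)
    exact Real.rpow_le_rpow_of_nonpos hd (hw t ht) (by linarith)
  have h1 := hff 1 (by simp)
  have h2 := hff (-1) (by simp)
  have h3 := hff 0 (by simp)
  have := ua1_second g g1 g2 _ dg dg1 key
  rw [← h1, ← h2, ← h3] at this
  simpa [dd, sub_eq_add_neg] using this

/-- Chunk UA1 (M). Real calculus on the segment: w_t = w + t q, t in [-1, 1], N(t) = ‖w_t‖^2 = ‖w‖^2 + 2 t Re(w conj q) + t^2 ‖q‖^2 > 0, g(t) = ff s (w_t) = conj(w_t) N(t)^(-s).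
g' = conj q N^(-s) - s conj(w_t) N' N^(-s-1), g'' = -2 s conj q N' N^(-s-1) - s conj(w_t) N'' N^(-s-1) + s(s+1) conj(w_t) N'^2 N^(-s-2), |N'| ≤ 2‖q‖‖w_t‖, N'' = 2‖q‖^2, |N^(-s)| = N^(-Re s):
|g''| ≤ ‖q‖^2 ‖w_t‖^(-1-2 Re s) (6‖s‖ + 4‖s‖‖s+1‖). g(1) + g(-1) - 2 g(0): h(t) = g(t) + g(-t) - 2 g(0), h(0) = 0, h'(0) = 0, h'' bounded by 2 sup|g''|; Convex.norm_image_sub_le_of_norm_deriv_le twice (or image_norm_le_of_norm_deriv_right_le_deriv_boundary):
|h(1)| ≤ 2 sup |g''|. ‖w‖/2 ≤ ‖w_t‖ ≤ 2‖w‖ because ‖q‖ ≤ ‖w‖/2, so ‖w_t‖^(-1-2 Re s) ≤ 2^(1+2 Re s) ‖w‖^(-1-2 Re s) ≤ 2^(1+2M) ‖w‖^(-1-2r) (‖w‖ ≥ 1). -/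
theorem dd_bound (q : ℂ) (r M : ℝ) (hr : 0 < r) : ∃ C : ℝ, 0 ≤ C ∧ ∀ s : ℂ, r ≤ s.re → ‖s‖ ≤ M →
    ∀ w : ℂ, 1 + 2 * ‖q‖ ≤ ‖w‖ → ‖dd s w q‖ ≤ C * ‖w‖ ^ (-1 - 2 * r) := by
  refine ⟨2 * ((10 * |M| + 4 * |M| ^ 2) * ‖q‖ ^ 2 * (2 : ℝ) ^ (1 + 2 * M)), by positivity, ?_⟩
  intro s hs hsM w hw
  have hM0 : 0 ≤ M := le_trans (norm_nonneg _) hsM
  have hw1 : 1 ≤ ‖w‖ := by linarith [norm_nonneg q]
  have hre : s.re ≤ M := (Complex.re_le_norm s).trans hsM
  have h1 := ua1_bd s w q (‖w‖ / 2) (by positivity) (lt_of_lt_of_le hr hs) (by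
    intro t ht
    have e1 : ‖(t : ℂ) * q‖ ≤ ‖q‖ := by
      rw [norm_mul, Complex.norm_real, Real.norm_eq_abs]
      have : |t| ≤ 1 := abs_le.mpr ht
      nlinarith [norm_nonneg q]
    have e2 := norm_sub_le_norm_add w ((t : ℂ) * q)
    linarith)
  refine h1.trans ?_
  have e1 : (‖w‖ / 2) ^ (-1 - 2 * s.re) = 2 ^ (1 + 2 * s.re) * ‖w‖ ^ (-1 - 2 * s.re) := by
    rw [Real.div_rpow (by positivity) (by norm_num), show (-1 - 2 * s.re : ℝ) = -(1 + 2 * s.re) by ring,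
      Real.rpow_neg (by norm_num : (0 : ℝ) ≤ 2)]
    field_simp
  have e2 : (2 : ℝ) ^ (1 + 2 * s.re) ≤ 2 ^ (1 + 2 * M) :=
    Real.rpow_le_rpow_of_exponent_le (by norm_num) (by linarith)
  have e3 : ‖w‖ ^ (-1 - 2 * s.re) ≤ ‖w‖ ^ (-1 - 2 * r) :=
    Real.rpow_le_rpow_of_exponent_le hw1 (by linarith)
  rw [e1, abs_of_nonneg hM0]
  calc 2 * ((10 * ‖s‖ + 4 * ‖s‖ ^ 2) * ‖q‖ ^ 2 * (2 ^ (1 + 2 * s.re) * ‖w‖ ^ (-1 - 2 * s.re)))
      ≤ 2 * ((10 * M + 4 * M ^ 2) * ‖q‖ ^ 2 * (2 ^ (1 + 2 * M) * ‖w‖ ^ (-1 - 2 * r))) := by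
        gcongr
    _ = _ := by ring

end H55K
end

-- from Lib.H55K.UA4
section

/-! # H55K: the series for Re s > 3/2 -/

open NumberField IsDedekindDomain WeierstrassCurve

namespace H55K

open H55P (IQ embF eF LF Per IsHecke Pt ac Inert Dec Nm)
open H35P (WAB Ker tt)


variable {F : Type} [Field F] [NumberField F] [IQ F]

theorem ua4_norm (s w : ℂ) (_hs : 0 < 2 * s.re - 1) : ‖ff s w‖ ≤ ‖w‖ ^ (-(2 * s.re - 1)) := by
  unfold ff
  by_cases hw : w = 0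
  · rw [hw, map_zero, zero_mul, norm_zero]
    exact Real.rpow_nonneg le_rfl _
  · have hw' : 0 < ‖w‖ := norm_pos_iff.2 hw
    have h1 : (0 : ℝ) < ‖w‖ ^ 2 := by positivity
    rw [norm_mul, Complex.norm_cpow_eq_rpow_re_of_pos h1, RCLike.norm_conj, Complex.neg_re]
    apply le_of_eq
    rw [← Real.rpow_natCast ‖w‖ 2, ← Real.rpow_mul hw'.le]
    nth_rewrite 1 [← Real.rpow_one ‖w‖]
    rw [← Real.rpow_add hw']
    congr 1
    push_cast
    ring

theorem ua4_scale (s w c : ℂ) (hc : c ≠ 0) :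
    ff s (w / c) = ((‖c‖ ^ 2 : ℝ) : ℂ) ^ s / (starRingEnd ℂ) c * ff s w := by
  unfold ff
  have hc' : 0 < ‖c‖ := norm_pos_iff.2 hc
  have h1 : (0 : ℝ) < ‖c‖ ^ 2 := by positivity
  have h1' : ((‖c‖ ^ 2 : ℝ) : ℂ) ≠ 0 := by exact_mod_cast h1.ne'
  have e1 : (‖w / c‖ ^ 2 : ℝ) = ‖w‖ ^ 2 * (‖c‖ ^ 2)⁻¹ := by
    rw [norm_div]
    field_simp
  have e2 : ((‖w / c‖ ^ 2 : ℝ) : ℂ) ^ (-s) = ((‖w‖ ^ 2 : ℝ) : ℂ) ^ (-s) * ((‖c‖ ^ 2 : ℝ) : ℂ) ^ s := by
    rw [e1, Complex.ofReal_mul, Complex.mul_cpow_ofReal_nonneg (by positivity) (by positivity)]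
    congr 1
    rw [Complex.ofReal_inv, Complex.inv_cpow, Complex.cpow_neg, inv_inv]
    rw [Complex.arg_ofReal_of_nonneg h1.le]
    exact Real.pi_pos.ne
  rw [e2, map_div₀]
  ring

/-- Chunk UA4 (S/M). ‖ff s w‖ = ‖w‖^(1 - 2 Re s) (w ≠ 0; ff s 0 = 0), sum_shift with κ = 2 Re s - 1 > 2 (0 ^ (-κ) = 0 for real powers). -/
theorem ff_sum (F : Type) [Field F] [NumberField F] [IQ F] (z s : ℂ) (hs : 3 / 2 < s.re) :
    Summable fun x : 𝓞 F => ff s (z + eF F x) := by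
  refine Summable.of_norm_bounded (sum_shift F z (2 * s.re - 1) (by linarith)) fun x => ?_
  exact ua4_norm s _ (by linarith)

/-- Chunk UA4. Translation by eF F y is a bijection of 𝓞 F. -/
theorem Ff_per (F : Type) [Field F] [NumberField F] [IQ F] (z s : ℂ) (y : 𝓞 F) :
    Ff F (z + eF F y) s = Ff F z s := by
  unfold Ff
  rw [← (Equiv.addLeft y).tsum_eq (fun x : 𝓞 F => ff s (z + eF F x))]
  refine tsum_congr fun x => ?_
  rw [Equiv.coe_addLeft, map_add, add_assoc]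

/-- Chunk UA4. -/
theorem dd_Ff (F : Type) [Field F] [NumberField F] [IQ F] (z q s : ℂ) (hs : 3 / 2 < s.re) :
    ∑' x : 𝓞 F, dd s (z + eF F x) q = Ff F (z + q) s + Ff F (z - q) s - 2 * Ff F z s := by
  have h1 := ff_sum F (z + q) s hs
  have h2 := ff_sum F (z - q) s hs
  have h3 := ff_sum F z s hs
  unfold Ff
  rw [← tsum_mul_left, ← h1.tsum_add h2, ← (h1.add h2).tsum_sub (h3.mul_left 2)]
  refine tsum_congr fun x => ?_
  unfold dd
  rw [show z + eF F x + q = z + q + eF F x by ring, show z + eF F x - q = z - q + eF F x by ring]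

/-- Chunk UA4. ff s (w / n) = n^(2s-1) ff s w for a positive integer n (Complex.cpow of positive reals: ((‖w‖^2/n^2 : ℝ) : ℂ)^(-s) = ..., Complex.mul_cpow_ofReal_nonneg). -/
theorem ff_scale (s w : ℂ) (n : ℕ) (hn : n ≠ 0) : ff s (w / n) = (n : ℂ) ^ (2 * s - 1) * ff s w := by
  have hn' : (n : ℂ) ≠ 0 := by exact_mod_cast hn
  rw [ua4_scale s w n hn', Complex.cpow_sub _ _ hn', Complex.cpow_one]
  have e1 : ((‖(n : ℂ)‖ ^ 2 : ℝ) : ℂ) ^ s = (n : ℂ) ^ (2 * s) := by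
    have h1 := Complex.mul_cpow_ofReal_nonneg (Nat.cast_nonneg (α := ℝ) n) (Nat.cast_nonneg (α := ℝ) n) s
    have h2 := Complex.cpow_nat_mul (n : ℂ) 2 s
    rw [Complex.norm_natCast, pow_two, Complex.ofReal_mul, h1]
    push_cast at h2 ⊢
    rw [h2, pow_two]
  rw [e1, Complex.conj_natCast]

/-- Chunk UA4. ff s (w / c) = ((‖c‖^2 : ℝ) : ℂ)^s / conj c * ff s w. -/
theorem ff_scale2 (s w c : ℂ) (hc : c ≠ 0) :
    ff s (w / c) = ((‖c‖ ^ 2 : ℝ) : ℂ) ^ s / (starRingEnd ℂ) c * ff s w :=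
  ua4_scale s w c hc

end H55K
end

-- from Lib.H55K.UA6
section

/-! # H55K: the L-series as a sum over classes -/

open NumberField IsDedekindDomain WeierstrassCurve

namespace H55K

open H55P (IQ embF eF LF Per IsHecke Pt ac Inert Dec Nm)
open H35P (WAB Ker tt)


variable {F : Type} [Field F] [NumberField F] [IQ F]

theorem ua6_ne0 {m : Ideal (𝓞 F)} {ψ : Ideal (𝓞 F) →*₀ 𝓞 F} (hψ : IsHecke m ψ) {h : 𝓞 F}
    (hh : Prm m ψ h) : h ≠ 0 := by
  rintro rfl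
  have h1 := hh.1
  rw [Ideal.isCoprime_iff_sup_eq, Ideal.span_singleton_eq_bot.2 rfl, bot_sup_eq] at h1
  exact hψ.ntop h1

theorem ua6_prm {m : Ideal (𝓞 F)} {ψ : Ideal (𝓞 F) →*₀ 𝓞 F} (hψ : IsHecke m ψ) {μ h : 𝓞 F}
    (hμ : Ideal.span {μ} = m) (hh : Prm m ψ h) (x : 𝓞 F) : Prm m ψ (h + μ * x) := by
  have hm : h + μ * x - h ∈ m := by
    rw [← hμ, add_sub_cancel_left]
    exact Ideal.mul_mem_right _ _ (Ideal.mem_span_singleton_self μ)
  have h1 : IsCoprime (Ideal.span {h + μ * x}) m := by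
    have h2 := hh.1
    rw [Ideal.isCoprime_iff_sup_eq] at h2 ⊢
    rw [eq_top_iff, ← h2]
    refine sup_le ?_ le_sup_right
    rw [Ideal.span_le, Set.singleton_subset_iff]
    have h3 : (h + μ * x) + (-(h + μ * x - h)) = h := by ring
    have h5 : (h + μ * x) + (-(h + μ * x - h)) ∈ Ideal.span {h + μ * x} ⊔ m :=
      Submodule.add_mem _ (Ideal.mem_sup_left (Ideal.mem_span_singleton_self _))
        (Ideal.mem_sup_right (m.neg_mem hm))
    rw [h3] at h5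
    exact h5
  refine ⟨h1, ?_⟩
  have h4 := hψ.per (h + μ * x) h h1 hh.1 hm
  rw [hh.2, mul_comm h] at h4
  exact mul_right_cancel₀ (ua6_ne0 hψ hh) h4

theorem ua6_ff {m : Ideal (𝓞 F)} {ψ : Ideal (𝓞 F) →*₀ 𝓞 F} {y : 𝓞 F} (hy : Prm m ψ y) (s : ℂ) :
    (starRingEnd ℂ) (eF F (ψ (Ideal.span {y}))) * (Ideal.absNorm (Ideal.span {y}) : ℂ) ^ (-s) =
      ff s (eF F y) := by
  unfold ff
  rw [hy.2, ← H55P.Nm_eq]
  rfl

/-- Chunk UA6 (M). h/μ + x = (h + μ x)/μ, ff_scale2 with c = eF F μ, ‖eF F μ‖^2 = Nm μ (H55P.Nm_eq). The map H × 𝓞 F → {J coprime to m}, (h, x) ↦ span {h + μ x} is bijective: y = h + μ x is congruent to h modulo m, coprime to m (IsHecke.per with x = y, y = h: ψ (span {y}) h = ψ (span {h}) y = h y, so ψ (span {y}) = y, h ≠ 0),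
so y = ψ (span {y}) is determined by its ideal; surjective: J coprime to m, y = ψ J, span {y} = J (gen), HRep.ex. J = bottom is not coprime to m (ntop), the terms with J not coprime to m are 0 (IsHecke.zero). ff s y = conj (eF F y) (Nm y)^(-s), Nm y = absNorm (span {y}). HasSum.unique / tsum over the product. -/
theorem Ff_ray {m : Ideal (𝓞 F)} {ψ : Ideal (𝓞 F) →*₀ 𝓞 F} (hψ : IsHecke m ψ) (μ : 𝓞 F) (hμ : Ideal.span {μ} = m)
    (H : Finset (𝓞 F)) (hH : HRep m ψ μ H) (s Λ : ℂ) (hs : 3 / 2 < s.re)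
    (hΛ : HasSum (fun J : Ideal (𝓞 F) => (starRingEnd ℂ) (eF F (ψ J)) * (Ideal.absNorm J : ℂ) ^ (-s)) Λ) :
    ∑ h ∈ H, Ff F (eF F h / eF F μ) s = (Nm μ : ℂ) ^ s / (starRingEnd ℂ) (eF F μ) * Λ := by
  have hμ0 : μ ≠ 0 := by
    rintro rfl
    apply hψ.ne
    rw [← hμ, Ideal.span_singleton_eq_bot.2 rfl]
  have hc : eF F μ ≠ 0 := H55P.eF_ne hμ0
  set i : ↥H × 𝓞 F → Ideal (𝓞 F) := fun p => Ideal.span {(p.1 : 𝓞 F) + μ * p.2} with hi
  have hprm : ∀ p : ↥H × 𝓞 F, Prm m ψ ((p.1 : 𝓞 F) + μ * p.2) := fun p =>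
    ua6_prm hψ hμ (hH.prm p.1 p.1.2) p.2
  have hinj : Function.Injective i := by
    rintro ⟨h, x⟩ ⟨h', x'⟩ he
    have e1 := (hprm (h, x)).2
    have e2 := (hprm (h', x')).2
    simp only [hi] at he e1 e2
    rw [he, e2] at e1
    have e3 : (h : 𝓞 F) = h' := by
      refine hH.un h h.2 h' h'.2 ⟨x' - x, ?_⟩
      linear_combination e1.symm
    have e4 : x = x' := by
      rw [e3] at e1
      exact (mul_left_cancel₀ hμ0 (add_left_cancel e1)).symm
    rw [Prod.mk.injEq]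
    exact ⟨Subtype.ext e3, e4⟩
  have hsupp : ∀ J, J ∉ Set.range i →
      (starRingEnd ℂ) (eF F (ψ J)) * (Ideal.absNorm J : ℂ) ^ (-s) = 0 := by
    intro J hJ
    by_cases hJc : IsCoprime J m
    · exfalso
      apply hJ
      have hg := hψ.gen J hJc
      have hy : Prm m ψ (ψ J) := by
        refine ⟨by rwa [hg], by rw [hg]⟩
      obtain ⟨h, hh, x, hx⟩ := hH.ex _ hy
      refine ⟨(⟨h, hh⟩, x), ?_⟩
      simp only [hi]
      rw [← hx, add_sub_cancel]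
      exact hg
    · rw [hψ.zero J hJc]
      simp
  have h1 := (hinj.hasSum_iff hsupp).2 hΛ
  have h2 : HasSum (fun p : ↥H × 𝓞 F => ff s (eF F ((p.1 : 𝓞 F) + μ * p.2))) Λ := by
    refine h1.congr_fun ?_
    intro p
    exact (ua6_ff (hprm p) s).symm
  have hsc : ∀ (h x : 𝓞 F), ff s (eF F h / eF F μ + eF F x) =
      ((‖eF F μ‖ ^ 2 : ℝ) : ℂ) ^ s / (starRingEnd ℂ) (eF F μ) * ff s (eF F (h + μ * x)) := by
    intro h x
    rw [← ff_scale2 _ _ _ hc]
    congr 1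
    rw [map_add, map_mul]
    field_simp
  have hcc : ((‖eF F μ‖ ^ 2 : ℝ) : ℂ) ^ s / (starRingEnd ℂ) (eF F μ) ≠ 0 := by
    refine div_ne_zero ?_ (by simpa using hc)
    rw [Complex.cpow_ne_zero_iff]
    left
    have : (0 : ℝ) < ‖eF F μ‖ ^ 2 := by
      have := norm_pos_iff.2 hc
      positivity
    exact_mod_cast this.ne'
  have h3 : ∀ h : 𝓞 F, HasSum (fun x : 𝓞 F => ff s (eF F (h + μ * x)))
      (∑' x : 𝓞 F, ff s (eF F (h + μ * x))) := by
    intro h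
    have h4 := ff_sum F (eF F h / eF F μ) s hs
    simp only [hsc] at h4
    rw [summable_mul_left_iff hcc] at h4
    exact h4.hasSum
  have h5 := h2.prod_fiberwise (fun h => h3 h)
  have h6 := h5.unique (hasSum_fintype _)
  have h7 : ∀ h : 𝓞 F, Ff F (eF F h / eF F μ) s =
      ((‖eF F μ‖ ^ 2 : ℝ) : ℂ) ^ s / (starRingEnd ℂ) (eF F μ) *
        ∑' x : 𝓞 F, ff s (eF F (h + μ * x)) := by
    intro h
    unfold Ff
    simp only [hsc]
    rw [tsum_mul_left]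
  rw [h6, Finset.mul_sum, ← Finset.sum_coe_sort H]
  refine Finset.sum_congr rfl (fun h _ => ?_)
  rw [h7, ← H55P.Nm_eq]
  rfl

end H55K
end

-- from Lib.H55K.UA5
section

/-! # H55K: the distribution relation -/

open NumberField IsDedekindDomain WeierstrassCurve

namespace H55K

open H55P (IQ embF eF LF Per IsHecke Pt ac Inert Dec Nm)
open H35P (WAB Ker tt)


variable {F : Type} [Field F] [NumberField F] [IQ F]

omit [IQ F] in
theorem ua5_bij (n : ℕ) (hn : n ≠ 0) (R : Finset (𝓞 F)) (hR : Rep (n : 𝓞 F) R) :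
    Function.Bijective fun p : {b // b ∈ R} × 𝓞 F => p.1.1 + (n : 𝓞 F) * p.2 := by
  have hn' : (n : 𝓞 F) ≠ 0 := Nat.cast_ne_zero.2 hn
  constructor
  · rintro ⟨⟨b, hb⟩, x⟩ ⟨⟨b', hb'⟩, x'⟩ h
    change b + (n : 𝓞 F) * x = b' + (n : 𝓞 F) * x' at h
    have h1 : b = b' := hR.un b hb b' hb' ⟨x' - x, by linear_combination h⟩
    subst h1
    have h2 : x = x' := mul_left_cancel₀ hn' (add_left_cancel h)
    subst h2
    rfl
  · intro y
    obtain ⟨r, hr, c, hc⟩ := hR.ex y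
    exact ⟨(⟨r, hr⟩, c), by change r + (n : 𝓞 F) * c = y; linear_combination -hc⟩

theorem ua5_gen (n : ℕ) (hn : n ≠ 0) (R : Finset (𝓞 F)) (e : {b // b ∈ R} × 𝓞 F ≃ 𝓞 F) (w : 𝓞 F → ℂ)
    (he : ∀ b x, (n : ℂ) * w b.1 + n * eF F x = eF F (e (b, x))) (z s : ℂ) (hs : 3 / 2 < s.re) :
    ∑ b ∈ R, Ff F (z + w b) s = (n : ℂ) ^ (2 * s - 1) * Ff F (n * z) s := by
  have hn' : (n : ℂ) ≠ 0 := Nat.cast_ne_zero.2 hn
  have h1 : ∀ (b : {b // b ∈ R}) (x : 𝓞 F), ff s (z + w b.1 + eF F x) =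
      (n : ℂ) ^ (2 * s - 1) * ff s (n * z + eF F (e (b, x))) := by
    intro b x
    rw [← ff_scale s _ n hn, ← he]
    congr 1
    field_simp
    ring
  have h2 := ff_sum F (n * z) s hs
  have h3 : Summable fun p : {b // b ∈ R} × 𝓞 F => ff s (n * z + eF F (e p)) := h2.comp_injective e.injective
  calc ∑ b ∈ R, Ff F (z + w b) s = ∑ b : {b // b ∈ R}, Ff F (z + w b.1) s :=
        (Finset.sum_coe_sort R fun b => Ff F (z + w b) s).symm
    _ = ∑ b : {b // b ∈ R}, ∑' x : 𝓞 F, (n : ℂ) ^ (2 * s - 1) * ff s (n * z + eF F (e (b, x))) :=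
        Finset.sum_congr rfl fun b _ => tsum_congr fun x => h1 b x
    _ = (n : ℂ) ^ (2 * s - 1) * ∑ b : {b // b ∈ R}, ∑' x : 𝓞 F, ff s (n * z + eF F (e (b, x))) := by
        rw [Finset.mul_sum]
        exact Finset.sum_congr rfl fun b _ => tsum_mul_left
    _ = (n : ℂ) ^ (2 * s - 1) * ∑' p : {b // b ∈ R} × 𝓞 F, ff s (n * z + eF F (e p)) := by
        rw [h3.tsum_prod, tsum_fintype]
    _ = (n : ℂ) ^ (2 * s - 1) * Ff F (n * z) s := by
        rw [e.tsum_eq fun y : 𝓞 F => ff s (n * z + eF F y)]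
        rfl

/-- Chunk UA5 (M). The map R × 𝓞 F → 𝓞 F, (b, x) ↦ b + n x, is bijective (Rep), and so is (b, x) ↦ -b + n x. z + b/n + x = (n z + (b + n x))/n, ff_scale; all the series converge absolutely (ff_sum): sum over the finite set R of the Ff F (z ± b/n) s is the sum over R × 𝓞 F. -/
theorem Ff_dist (F : Type) [Field F] [NumberField F] [IQ F] (n : ℕ) (hn : n ≠ 0) (R : Finset (𝓞 F))
    (hR : Rep (n : 𝓞 F) R) (z s : ℂ) (hs : 3 / 2 < s.re) :
    ∑ b ∈ R, Ff F (z + eF F b / n) s = (n : ℂ) ^ (2 * s - 1) * Ff F (n * z) s ∧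
    ∑ b ∈ R, Ff F (z - eF F b / n) s = (n : ℂ) ^ (2 * s - 1) * Ff F (n * z) s := by
  have hn' : (n : ℂ) ≠ 0 := Nat.cast_ne_zero.2 hn
  constructor
  · refine ua5_gen n hn R (Equiv.ofBijective _ (ua5_bij n hn R hR)) (fun b => eF F b / n) ?_ z s hs
    intro b x
    change (n : ℂ) * (eF F b.1 / n) + n * eF F x = eF F (b.1 + (n : 𝓞 F) * x)
    rw [map_add, map_mul, map_natCast]
    field_simp
  · have h := ua5_gen n hn R (((Equiv.refl {b // b ∈ R}).prodCongr (Equiv.neg (𝓞 F))).trans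
      ((Equiv.ofBijective _ (ua5_bij n hn R hR)).trans (Equiv.neg (𝓞 F)))) (fun b => -(eF F b / n)) ?_ z s hs
    · rw [← h]
      exact Finset.sum_congr rfl fun b _ => by rw [sub_eq_add_neg]
    · intro b x
      change (n : ℂ) * (-(eF F b.1 / n)) + n * eF F x = eF F (-(b.1 + (n : 𝓞 F) * -x))
      rw [map_neg, map_add, map_mul, map_natCast, map_neg]
      field_simp
      ring

/-- Chunk UA5. R has n^2 elements (the number of classes modulo n: absNorm (span {n}) = n^2, or Nm_nat in D1.lean). -/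
theorem rep_card (F : Type) [Field F] [NumberField F] [IQ F] (n : ℕ) (hn : n ≠ 0) (R : Finset (𝓞 F))
    (hR : Rep (n : 𝓞 F) R) : R.card = n ^ 2 := by
  have h1 : Function.Bijective fun b : {b // b ∈ R} =>
      (Ideal.Quotient.mk (Ideal.span {(n : 𝓞 F)}) b.1 : 𝓞 F ⧸ Ideal.span {(n : 𝓞 F)}) := by
    constructor
    · rintro ⟨b, hb⟩ ⟨b', hb'⟩ h
      have h2 := Ideal.Quotient.eq.1 h
      rw [Ideal.mem_span_singleton] at h2
      exact Subtype.ext (hR.un b hb b' hb' h2)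
    · intro y
      obtain ⟨y, rfl⟩ := Ideal.Quotient.mk_surjective y
      obtain ⟨r, hr, h2⟩ := hR.ex y
      refine ⟨⟨r, hr⟩, ?_⟩
      refine (Ideal.Quotient.eq.2 ?_).symm
      rw [Ideal.mem_span_singleton]
      exact h2
  have h3 := Nat.card_congr (Equiv.ofBijective _ h1)
  rw [Nat.card_eq_fintype_card, Fintype.card_coe] at h3
  rw [h3, ← Nm_nat (F := F) n]
  rfl

open Classical in
/-- Chunk UA5. If (n - 1) z = eF F y then Ff F (n z) s = Ff F z s (Ff_per). Sum over b in R (the term b = 0 of the left side is 0: R.erase 0 or R give the same sum). -/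
theorem dd_dist (F : Type) [Field F] [NumberField F] [IQ F] (n : ℕ) (hn : n ≠ 0) (R : Finset (𝓞 F))
    (hR : Rep (n : 𝓞 F) R) (z s : ℂ) (hs : 3 / 2 < s.re) (hz : ∃ y : 𝓞 F, (n : ℂ) * z - z = eF F y) :
    ∑ b ∈ R.erase 0, ∑' x : 𝓞 F, dd s (z + eF F x) (eF F b / n) =
      2 * ((n : ℂ) ^ (2 * s - 1) - (n : ℂ) ^ 2) * Ff F z s := by
  obtain ⟨y, hy⟩ := hz
  have h1 : Ff F (n * z) s = Ff F z s := by
    rw [← Ff_per F z s y, ← hy]
    congr 1
    ring
  obtain ⟨h2, h3⟩ := Ff_dist F n hn R hR z s hs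
  have h4 := rep_card F n hn R hR
  have h5 : ∀ b : 𝓞 F, ∑' x : 𝓞 F, dd s (z + eF F x) (eF F b / n) =
      Ff F (z + eF F b / n) s + Ff F (z - eF F b / n) s - 2 * Ff F z s := fun b => dd_Ff F z _ s hs
  have h6 : ∑' x : 𝓞 F, dd s (z + eF F x) (eF F (0 : 𝓞 F) / n) = 0 := by
    rw [h5, map_zero, zero_div, add_zero, sub_zero]
    ring
  rw [Finset.sum_erase (f := fun b => ∑' x : 𝓞 F, dd s (z + eF F x) (eF F b / n)) R h6]
  simp only [h5]
  rw [Finset.sum_sub_distrib, Finset.sum_add_distrib, h2, h3, h1, Finset.sum_const, h4, nsmul_eq_mul]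
  push_cast
  ring

end H55K
end

-- from Lib.H55K.UB8
section

/-! # H55K: elliptic units: the expansion -/

open NumberField IsDedekindDomain WeierstrassCurve

namespace H55K

open H55P (IQ embF eF LF Per IsHecke Pt ac Inert Dec Nm)
open H35P (WAB Ker tt)


variable {F : Type} [Field F] [NumberField F] [IQ F] {A B : F} {Om : ℂ} {Ω : Type} [Field Ω] [DecidableEq Ω]
  [Algebra F Ω] {j : Ω →+* ℂ} {act : 𝓞 F →+* AddMonoid.End (Pt (WAB A B) Ω)} {m : Ideal (𝓞 F)}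
  {ψ : Ideal (𝓞 F) →*₀ 𝓞 F} {l : ℕ} {μ : 𝓞 F} {a : ℕ} {ρ τ : Pt (WAB A B) Ω} {H R : Finset (𝓞 F)}
  {D S : Finset (Pt (WAB A B) Ω)}

/-- The coefficient of the expansion. -/
noncomputable def cU (D S : Finset (Pt (WAB A B) Ω)) : Ω := 4 * ∑ X ∈ D, ∑ Q ∈ S, yc X / (xc X - xc Q)

theorem ub8_prod {k ι : Type} [Field k] {Γ : Type} [LinearOrderedCommGroupWithZero Γ] (v : Valuation k Γ)
    {t : k} (ht : v t ≤ 1) (s : Finset ι) (f c : ι → k) (hf : ∀ i ∈ s, v (f i - 1 + c i * t) ≤ v t ^ 2)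
    (hc : ∀ i ∈ s, v (c i) ≤ 1) :
    v (∏ i ∈ s, f i - 1 + (∑ i ∈ s, c i) * t) ≤ v t ^ 2 ∧ v (∑ i ∈ s, c i) ≤ 1 := by
  classical
  induction s using Finset.induction_on with
  | empty =>
    rw [Finset.prod_empty, Finset.sum_empty, sub_self, zero_mul, add_zero, map_zero]
    exact ⟨zero_le, zero_le⟩
  | insert i s hi ih =>
    obtain ⟨h1, h2⟩ := ih (fun j hj => hf j (Finset.mem_insert_of_mem hj))
      (fun j hj => hc j (Finset.mem_insert_of_mem hj))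
    have h3 := hf i (Finset.mem_insert_self i s)
    have h4 := hc i (Finset.mem_insert_self i s)
    rw [Finset.prod_insert hi, Finset.sum_insert hi]
    refine ⟨?_, (v.map_add _ _).trans (max_le h4 h2)⟩
    obtain ⟨p, hp⟩ : ∃ p, p = ∏ j ∈ s, f j := ⟨_, rfl⟩
    obtain ⟨b, hb⟩ : ∃ b, b = ∑ j ∈ s, c j := ⟨_, rfl⟩
    rw [← hp, ← hb] at h1 ⊢
    rw [← hb] at h2
    have ht2 : v t ^ 2 ≤ 1 := pow_le_one₀ zero_le ht
    have e : f i * p - 1 + (c i + b) * t = (c i * b) * t ^ 2 + (f i - 1 + c i * t) * (1 - b * t) +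
        (p - 1 + b * t) * (1 - c i * t) + (f i - 1 + c i * t) * (p - 1 + b * t) := by ring
    have hone : ∀ x : k, v x ≤ 1 → v (1 - x * t) ≤ 1 := by
      intro x hx
      refine (v.map_sub _ _).trans (max_le (map_one v).le ?_)
      rw [map_mul]
      exact mul_le_one₀ hx zero_le ht
    rw [e]
    refine (v.map_add _ _).trans (max_le ((v.map_add _ _).trans (max_le ((v.map_add _ _).trans (max_le ?_ ?_)) ?_)) ?_)
    · rw [map_mul, map_mul, map_pow]
      exact mul_le_of_le_one_left zero_le (mul_le_one₀ h4 zero_le h2)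
    · rw [map_mul]
      exact (mul_le_of_le_one_right zero_le (hone b h2)).trans h3
    · rw [map_mul]
      exact (mul_le_of_le_one_right zero_le (hone (c i) h4)).trans h1
    · rw [map_mul]
      exact (mul_le_of_le_one_right zero_le (h1.trans ht2)).trans h3

theorem ub8_one {k : Type} [Field k] {Γ : Type} [LinearOrderedCommGroupWithZero Γ] (v : Valuation k Γ)
    {t u y x₁ x₂ q x : k} (ht : v t < 1) (hu : v u = 1) (hy : v y ≤ 1) (h8 : v (2 : k) ≤ 1)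
    (h1 : v (x₁ - x + 2 * y * t) ≤ v t ^ 2) (h2 : v (x₂ - x + 2 * y * -t) ≤ v t ^ 2) (hx : u = x - q) :
    v ((x₁ - q) / (x₂ - q) - 1 + 4 * (y / u) * t) ≤ v t ^ 2 ∧ v (4 * (y / u)) ≤ 1 := by
  have h4 : v (4 : k) ≤ 1 := by
    have e : (4 : k) = 2 * 2 := by norm_num
    rw [e, map_mul]
    exact mul_le_one₀ h8 zero_le h8
  have hyu : v (y / u) ≤ 1 := by
    rw [map_div₀, hu, div_one]
    exact hy
  have hc : v (4 * (y / u)) ≤ 1 := by
    rw [map_mul]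
    exact mul_le_one₀ h4 zero_le hyu
  refine ⟨?_, hc⟩
  have hu0 : u ≠ 0 := by
    rintro rfl
    rw [map_zero] at hu
    exact zero_ne_one hu
  have ht2 : v t ^ 2 < 1 := pow_lt_one₀ zero_le ht (by norm_num)
  obtain ⟨e₁, he₁⟩ : ∃ e, e = x₁ - x + 2 * y * t := ⟨_, rfl⟩
  obtain ⟨e₂, he₂⟩ : ∃ e, e = x₂ - x + 2 * y * -t := ⟨_, rfl⟩
  rw [← he₁] at h1
  rw [← he₂] at h2
  have hD : x₂ - q = (2 * y * t + e₂) + u := by
    rw [he₂, hx]
    ring
  have hN : x₁ - q = u - 2 * y * t + e₁ := by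
    rw [he₁, hx]
    ring
  have h2yt : v (2 * y * t) < 1 := by
    rw [map_mul]
    refine lt_of_le_of_lt (mul_le_of_le_one_left zero_le ?_) ht
    rw [map_mul]
    exact mul_le_one₀ h8 zero_le hy
  have hDv : v (x₂ - q) = 1 := by
    rw [hD, v.map_add_eq_of_lt_right]
    · exact hu
    · rw [hu]
      exact v.map_add_lt h2yt (h2.trans_lt ht2)
  have hD0 : x₂ - q ≠ 0 := by
    intro h0
    rw [h0, map_zero] at hDv
    exact zero_ne_one hDv
  have e : (x₁ - q) / (x₂ - q) - 1 + 4 * (y / u) * t =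
      (e₁ - e₂ + (4 * (y / u)) * (2 * y) * t ^ 2 + (4 * (y / u)) * t * e₂) / (x₂ - q) := by
    rw [eq_div_iff hD0]
    have e0 : (x₁ - q) / (x₂ - q) * (x₂ - q) = x₁ - q := div_mul_cancel₀ _ hD0
    have e1 : ((x₁ - q) / (x₂ - q) - 1 + 4 * (y / u) * t) * (x₂ - q) =
        (x₁ - q) / (x₂ - q) * (x₂ - q) + (-1 + 4 * (y / u) * t) * (x₂ - q) := by ring
    rw [e1, e0, hN, hD]
    have e2 : y / u * u = y := div_mul_cancel₀ _ hu0
    linear_combination 4 * t * e2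
  rw [e, map_div₀, hDv, div_one]
  refine (v.map_add _ _).trans (max_le ((v.map_add _ _).trans (max_le ((v.map_sub _ _).trans (max_le h1 h2)) ?_)) ?_)
  · rw [map_mul, map_pow]
    refine mul_le_of_le_one_left zero_le ?_
    rw [map_mul]
    refine mul_le_one₀ hc zero_le ?_
    rw [map_mul]
    exact mul_le_one₀ h8 zero_le hy
  · rw [map_mul]
    refine (mul_le_of_le_one_left zero_le ?_).trans h2
    rw [map_mul]
    exact mul_le_one₀ hc zero_le ht.le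

theorem ub8_nat {Ω : Type} [Field Ω] {V : ValuationSubring Ω} {n l : ℕ} (h : Nat.Coprime n l)
    (hl : V.valuation (l : Ω) < 1) : V.valuation (n : Ω) = 1 := by
  have hle : ∀ z : ℤ, V.valuation (z : Ω) ≤ 1 := fun z => (V.valuation_le_one_iff _).2 (intCast_mem V z)
  have hln : V.valuation (n : Ω) ≤ 1 := (V.valuation_le_one_iff _).2 (natCast_mem V n)
  refine le_antisymm hln ?_
  by_contra hcon
  rw [not_le] at hcon
  obtain ⟨u, w, huw⟩ := Nat.isCoprime_iff_coprime.2 h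
  have h1 : ((u : Ω) * (n : Ω) + (w : Ω) * (l : Ω)) = 1 := by exact_mod_cast congrArg (Int.cast (R := Ω)) huw
  have h2 : V.valuation ((u : Ω) * (n : Ω) + (w : Ω) * (l : Ω)) < 1 := by
    refine V.valuation.map_add_lt ?_ ?_
    · rw [map_mul, mul_comm]
      exact mul_lt_one_of_lt_of_le hcon (hle u)
    · rw [map_mul, mul_comm]
      exact mul_lt_one_of_lt_of_le hl (hle w)
  rw [h1, map_one] at h2
  exact lt_irrefl _ h2

/-- Chunk UB8 (M). V(l) < 1: V good (h.good), V(Nm μ) = 1 = V(a) (cop; a = 2 + l k, V(2) = 1). For X in D, Q in S: X, Q, X + Q, X - Q are not in Ker (ker_tors: killed by Nm μ * a, a multiple is X ≠ 0 or Q ≠ 0, coprime orders), V(xc X - xc Q) = 1 (cls_diff). t = tt T, V(t) < 1. transl: xc (X + T) = xc X - 2 yc X t + O(t^2),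
xc (X - T) = xc X + 2 yc X t + O(t^2) (tt_neg), so (xc (X + T) - xc Q)/(xc (X - T) - xc Q) = 1 - 4 yc X/(xc X - xc Q) t + O(t^2). Product over D × S: 1 - cU t + O(t^2) (induction over finite sets: (1 + a t + O(t^2))(1 + b t + O(t^2)), a, b integral). O(t^2) means value ≤ V(t)^2. -/
theorem Xi_exp (h : Dta A B Om j act m ψ l) (hU : UDat Om j act m ψ l μ a ρ τ H R D S)
    {V : ValuationSubring Ω} (hV : V.valuation (l : Ω) < 1) {T : Pt (WAB A B) Ω} (hT : Ker V T) :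
    V.valuation (Xi D S T - 1 + cU D S * tt T) ≤ V.valuation (tt T) ^ 2 := by
  have hG : GV A B V := h.good V hV
  have hN : V.valuation ((Nm μ : ℕ) : Ω) = 1 := ub8_nat hU.cop hV
  have ha : V.valuation (a : Ω) = 1 := by
    obtain ⟨k, hk⟩ := hU.a2
    have e : (a : Ω) = (l : Ω) * (k : Ω) + 2 := by
      rw [hk]
      push_cast
      ring
    rw [e, V.valuation.map_add_eq_of_lt_right]
    · exact hG.two
    · rw [hG.two, map_mul]
      exact mul_lt_one_of_lt_of_le hV ((V.valuation_le_one_iff _).2 (natCast_mem V k))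
  have hcop : Nat.Coprime a (Nm μ) := by
    obtain ⟨k, hk⟩ := hU.a1
    rw [hk]
    simp
  have hNa : V.valuation ((Nm μ * a : ℕ) : Ω) = 1 := by
    rw [Nat.cast_mul, map_mul, hN, ha, mul_one]
  have ht : V.valuation (tt T) < 1 := ttlt hG hT
  have h2le : V.valuation (2 : Ω) ≤ 1 := hG.two.le
  have hnX : ∀ X ∈ D, ¬ Ker V X := by
    intro X hX hK
    obtain ⟨h0, h1⟩ := D_ne h hU hX
    exact h0 (ker_tors hG _ hN h1 hK)
  have hnQ : ∀ Q ∈ S, ¬ Ker V Q := by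
    intro Q hQ hK
    obtain ⟨h0, h1⟩ := S_ne hU hQ
    exact h0 (ker_tors hG _ ha h1 hK)
  have hpm : ∀ X ∈ D, ∀ Q ∈ S, ¬ Ker V (X - Q) ∧ ¬ Ker V (X + Q) := by
    intro X hX Q hQ
    obtain ⟨hX0, hX1⟩ := D_ne h hU hX
    obtain ⟨hQ0, hQ1⟩ := S_ne hU hQ
    have hXa : (Nm μ * a) • X = 0 := by rw [mul_comm, mul_smul, hX1, smul_zero]
    have hQa : (Nm μ * a) • Q = 0 := by rw [mul_smul, hQ1, smul_zero]
    constructor
    · intro hK
      have h3 := ker_tors hG _ hNa (by rw [smul_sub, hXa, hQa, sub_zero]) hK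
      have h4 : X = Q := sub_eq_zero.1 h3
      exact hX0 (cop_zero hcop (by rw [h4]; exact hQ1) hX1)
    · intro hK
      have h3 := ker_tors hG _ hNa (by rw [smul_add, hXa, hQa, add_zero]) hK
      have h4 : X = -Q := eq_neg_of_add_eq_zero_left h3
      exact hX0 (cop_zero hcop (by rw [h4, smul_neg, hQ1, neg_zero]) hX1)
  have hone : ∀ X ∈ D, ∀ Q ∈ S,
      V.valuation ((xc (X + T) - xc Q) / (xc (X - T) - xc Q) - 1 + 4 * (yc X / (xc X - xc Q)) * tt T) ≤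
        V.valuation (tt T) ^ 2 ∧ V.valuation (4 * (yc X / (xc X - xc Q))) ≤ 1 := by
    intro X hX Q hQ
    obtain ⟨h5, h6⟩ := hpm X hX Q hQ
    have hu := cls_diff hG (hnX X hX) (hnQ Q hQ) h5 h6
    obtain ⟨-, t1, -⟩ := transl hG (hnX X hX) hT
    obtain ⟨-, t2, -⟩ := transl hG (hnX X hX) (kneg hT)
    rw [tt_neg, Valuation.map_neg, ← sub_eq_add_neg X] at t2
    exact ub8_one V.valuation ht hu (gv_y hG (hnX X hX)) h2le t1 t2 rfl
  have hin : ∀ X ∈ D, V.valuation (Phi S (X + T) / Phi S (X - T) - 1 +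
      (∑ Q ∈ S, 4 * (yc X / (xc X - xc Q))) * tt T) ≤ V.valuation (tt T) ^ 2 ∧
      V.valuation (∑ Q ∈ S, 4 * (yc X / (xc X - xc Q))) ≤ 1 := by
    intro X hX
    unfold Phi
    rw [← Finset.prod_div_distrib]
    exact ub8_prod V.valuation ht.le S _ _ (fun Q hQ => (hone X hX Q hQ).1) (fun Q hQ => (hone X hX Q hQ).2)
  have hfin := ub8_prod V.valuation ht.le D _ _ (fun X hX => (hin X hX).1) (fun X hX => (hin X hX).2)
  have e : cU D S = ∑ X ∈ D, ∑ Q ∈ S, 4 * (yc X / (xc X - xc Q)) := by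
    unfold cU
    simp only [Finset.mul_sum]
  rw [e]
  exact hfin.1

end H55K
end

-- from Lib.H55K.UA2B
section

/-! # H55K: the sum of the second differences is analytic -/

open NumberField IsDedekindDomain WeierstrassCurve

namespace H55K

open H55P (IQ embF eF LF Per IsHecke Pt ac Inert Dec Nm)
open H35P (WAB Ker tt)


variable {F : Type} [Field F] [NumberField F] [IQ F]

/-- Chunk UA2B (S). ff is differentiable in s for w ≠ 0 (‖w‖^2 > 0: the function (‖w‖^2)^(-s) is entire), and ff s 0 = 0. -/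
theorem ff_diff (w : ℂ) : Differentiable ℂ fun s => ff s w := by
  unfold ff
  by_cases hw : w = 0
  · subst hw
    simp
  · have h1 : ((‖w‖ ^ 2 : ℝ) : ℂ) ≠ 0 := by
      have : 0 < ‖w‖ := norm_pos_iff.2 hw
      exact_mod_cast (by positivity : (0 : ℝ) < ‖w‖ ^ 2).ne'
    exact (differentiable_id.neg.const_cpow (Or.inl h1)).const_mul _

theorem ua2b_dd (w q : ℂ) : Differentiable ℂ fun s => dd s w q := by
  unfold dd
  exact ((ff_diff (w + q)).add (ff_diff (w - q))).sub ((ff_diff w).const_mul 2)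

theorem ua2b_bd (F : Type) [Field F] [NumberField F] [IQ F] (z q : ℂ) (r M : ℝ) (hr : 1 / 2 < r) :
    ∃ u : 𝓞 F → ℝ, Summable u ∧ ∀ (x : 𝓞 F) (s : ℂ), r ≤ s.re → ‖s‖ ≤ M → ‖dd s (z + eF F x) q‖ ≤ u x := by
  classical
  obtain ⟨C, hC0, hC⟩ := dd_bound q r M (by linarith)
  have hfin := fin_shift F z (1 + 2 * ‖q‖)
  have hB : ∀ x : 𝓞 F, ∃ B : ℝ, 0 ≤ B ∧ ∀ s : ℂ, ‖s‖ ≤ M → ‖dd s (z + eF F x) q‖ ≤ B := by
    intro x
    have hc : Continuous fun s => dd s (z + eF F x) q := (ua2b_dd _ _).continuous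
    obtain ⟨B, hB⟩ := (isCompact_closedBall (0 : ℂ) M).exists_bound_of_continuousOn hc.continuousOn
    refine ⟨max B 0, le_max_right _ _, fun s hs => ?_⟩
    exact (hB s (by simpa using hs)).trans (le_max_left _ _)
  choose B hB0 hB using hB
  refine ⟨fun x => C * ‖z + eF F x‖ ^ (-(1 + 2 * r)) + if x ∈ hfin.toFinset then B x else 0, ?_, ?_⟩
  · refine ((sum_shift F z (1 + 2 * r) (by linarith)).mul_left C).add ?_
    refine summable_of_hasFiniteSupport (Set.Finite.subset hfin.toFinset.finite_toSet ?_)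
    intro x hx
    by_contra hc
    apply hx
    show (if x ∈ hfin.toFinset then B x else 0) = 0
    exact if_neg fun h' => hc (Finset.mem_coe.2 h')
  · intro x s h1 h2
    have h3 : 0 ≤ C * ‖z + eF F x‖ ^ (-(1 + 2 * r)) := mul_nonneg hC0 (Real.rpow_nonneg (norm_nonneg _) _)
    show _ ≤ C * ‖z + eF F x‖ ^ (-(1 + 2 * r)) + if x ∈ hfin.toFinset then B x else 0
    split_ifs with h4
    · exact (hB x s h2).trans (le_add_of_nonneg_left h3)
    · rw [add_zero]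
      rw [Set.Finite.mem_toFinset, Set.mem_ofPred_eq, not_lt] at h4
      have h5 := hC s h1 h2 (z + eF F x) h4
      rwa [show (-1 - 2 * r : ℝ) = -(1 + 2 * r) by ring] at h5

/-- Chunk UA2B (M). On the open set U = {s : r < Re s, ‖s‖ < M}, 1/2 < r < M: the terms are bounded by C ‖z + eF F x‖^(-1-2r) (dd_bound) outside the finite set {‖z + eF F x‖ < 1 + 2‖q‖}; for the finitely many other x the term is a continuous function of s on the compact closure (‖s‖ ≤ M): bounded. sum_shift with κ = 1 + 2r > 2.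
differentiableOn_tsum_of_summable_norm, then DifferentiableOn.analyticOnNhd on the open set {1/2 < Re s} (union of the U). -/
theorem dd_analytic (F : Type) [Field F] [NumberField F] [IQ F] (z q : ℂ) :
    (∀ s : ℂ, 1 / 2 < s.re → Summable fun x : 𝓞 F => dd s (z + eF F x) q) ∧
    AnalyticOnNhd ℂ (fun s => ∑' x : 𝓞 F, dd s (z + eF F x) q) {s | 1 / 2 < s.re} := by
  constructor
  · intro s hs
    obtain ⟨u, hu, hb⟩ := ua2b_bd F z q s.re ‖s‖ hs
    exact Summable.of_norm_bounded hu fun x => hb x s le_rfl le_rfl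
  · intro s hs
    have hs' : 1 / 2 < s.re := hs
    obtain ⟨u, hu, hb⟩ := ua2b_bd F z q ((1 / 2 + s.re) / 2) (‖s‖ + 1) (by linarith)
    have hU : IsOpen {t : ℂ | (1 / 2 + s.re) / 2 < t.re ∧ ‖t‖ < ‖s‖ + 1} :=
      (isOpen_lt continuous_const Complex.continuous_re).inter (isOpen_lt continuous_norm continuous_const)
    have hd := Complex.differentiableOn_tsum_of_summable_norm hu
      (fun x => (ua2b_dd (z + eF F x) q).differentiableOn) hU
      (fun x t ht => hb x t ht.1.le ht.2.le)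
    exact hd.analyticAt (hU.mem_nhds ⟨by linarith, by linarith⟩)

end H55K
end

-- from Lib.H55K.UA7
section

/-! # H55K: the value of the L-function -/

open NumberField IsDedekindDomain WeierstrassCurve

namespace H55K

open H55P (IQ embF eF LF Per IsHecke Pt ac Inert Dec Nm)
open H35P (WAB Ker tt)


variable {F : Type} [Field F] [NumberField F] [IQ F]

theorem ua7_ndvd {m : Ideal (𝓞 F)} {ψ : Ideal (𝓞 F) →*₀ 𝓞 F} (hψ : IsHecke m ψ) {μ : 𝓞 F}
    (hμ : Ideal.span {μ} = m) {h : 𝓞 F} (hh : Prm m ψ h) : ¬ μ ∣ h := by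
  intro hd
  apply hψ.ntop
  have h1 := hh.1
  rw [Ideal.isCoprime_iff_sup_eq] at h1
  have h2 : Ideal.span {h} ≤ m := by
    rw [← hμ]
    exact Ideal.span_singleton_le_span_singleton.2 hd
  rw [sup_eq_right.2 h2] at h1
  exact h1

theorem ua7_lat {a : ℕ} (a0 : 1 < a) {μ : 𝓞 F} (hμ0 : μ ≠ 0) (a1 : ∃ k, a = 1 + Nm μ * k) {h : 𝓞 F}
    (hh : ¬ μ ∣ h) (b : 𝓞 F) : eF F h / eF F μ + eF F b / (a : ℂ) ∉ (LF F).lattice := by
  intro hl
  rw [H55P.mem_LF] at hl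
  obtain ⟨y, hy⟩ := hl
  obtain ⟨k, hk⟩ := a1
  have hμ' : eF F μ ≠ 0 := H55P.eF_ne hμ0
  have ha' : (a : ℂ) ≠ 0 := Nat.cast_ne_zero.2 (by omega)
  have h1 : eF F (a * h + μ * b) = eF F (μ * a * y) := by
    simp only [map_add, map_mul, map_natCast]
    field_simp at hy
    linear_combination hy
  have h2 := H55P.eF_inj h1
  have h3 : (a : 𝓞 F) = 1 + μ * cj μ * k := by
    rw [mul_cj, hk]
    push_cast
    rfl
  apply hh
  refine ⟨a * y - b - cj μ * k * h, ?_⟩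
  linear_combination h2 - h * h3

theorem ua7_z {a : ℕ} {μ : 𝓞 F} (hμ0 : μ ≠ 0) (a1 : ∃ k, a = 1 + Nm μ * k) (h : 𝓞 F) :
    ∃ y : 𝓞 F, (a : ℂ) * (eF F h / eF F μ) - eF F h / eF F μ = eF F y := by
  obtain ⟨k, hk⟩ := a1
  have hμ' : eF F μ ≠ 0 := H55P.eF_ne hμ0
  have e1 : eF F μ * eF F (cj μ) = (Nm μ : ℂ) := by rw [← map_mul, mul_cj, map_natCast]
  have e2 : (a : ℂ) = 1 + Nm μ * k := by
    rw [hk]
    push_cast
    rfl
  refine ⟨cj μ * k * h, ?_⟩
  rw [map_mul, map_mul, map_natCast, e2, ← e1]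
  field_simp
  ring

theorem ua7_cpow (c : ℂ) (hc : c ≠ 0) : AnalyticOnNhd ℂ (fun s : ℂ => c ^ (2 * s - 1)) {s | 1 / 2 < s.re} := by
  have h1 : Differentiable ℂ fun s : ℂ => c ^ (2 * s - 1) := fun s =>
    (((differentiableAt_id.const_mul 2).sub_const 1).const_cpow (Or.inl hc) :
      DifferentiableAt ℂ (fun s : ℂ => c ^ (2 * s - 1)) s)
  exact fun s _ => h1.analyticAt s

theorem ua7_cpow' (c : ℂ) (hc : c ≠ 0) : AnalyticOnNhd ℂ (fun s : ℂ => c ^ s) {s | 1 / 2 < s.re} := by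
  have h1 : Differentiable ℂ fun s : ℂ => c ^ s := fun s =>
    (differentiableAt_id.const_cpow (Or.inl hc) : DifferentiableAt ℂ (fun s : ℂ => c ^ s) s)
  exact fun s _ => h1.analyticAt s

theorem ua7_sum {ι : Type} (S : Finset ι) {f : ι → ℂ → ℂ} (hf : ∀ i ∈ S, AnalyticOnNhd ℂ (f i) {s | 1 / 2 < s.re}) :
    AnalyticOnNhd ℂ (fun s => ∑ i ∈ S, f i s) {s | 1 / 2 < s.re} := by
  classical
  induction S using Finset.induction_on with
  | empty =>
    simp only [Finset.sum_empty]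
    exact analyticOnNhd_const
  | insert i S hi ih =>
    simp only [Finset.sum_insert hi]
    exact (hf i (Finset.mem_insert_self i S)).add (ih fun j hj => hf j (Finset.mem_insert_of_mem hj))

/-- Identity theorem on a half plane. -/
theorem ua7_ident (A B : ℂ → ℂ) (hA : AnalyticOnNhd ℂ A {s | 1 / 2 < s.re})
    (hB : AnalyticOnNhd ℂ B {s | 1 / 2 < s.re}) (h : ∀ s : ℂ, 3 / 2 < s.re → A s = B s) (s : ℂ)
    (hs : 1 / 2 < s.re) : A s = B s := by
  have h1 : (2 : ℂ) ∈ {s : ℂ | 1 / 2 < s.re} := by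
    change 1 / 2 < (2 : ℂ).re
    norm_num
  have h2 : A =ᶠ[nhds (2 : ℂ)] B := by
    have h3 : {s : ℂ | 3 / 2 < s.re} ∈ nhds (2 : ℂ) :=
      (isOpen_lt continuous_const Complex.continuous_re).mem_nhds (by
        change 3 / 2 < (2 : ℂ).re
        norm_num)
    filter_upwards [h3] with z hz
    exact h z hz
  exact hA.eqOn_of_preconnected_of_eventuallyEq hB (convex_halfSpace_re_gt (1 / 2)).isPreconnected h1 h2 hs

open Classical in
/-- Chunk UA7 (M). G(s) = sum over h in H, b in R.erase 0 of the sum over x of dd s (h/μ + x) (b/a) is analytic for Re s > 1/2 (dd_analytic) and equals 2 (a^(2s-1) - a^2) (Nm μ)^s / conj μ * Λ(s) for Re s > 3/2 (dd_dist with z = h/μ: (a - 1) h/μ = Nm μ k h/μ = cj μ k h in 𝓞 F by mul_cj; Ff_ray). Both sides are analytic on the connected set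
{1/2 < Re s} (identity theorem: H55N.ident / AnalyticOnNhd.eqOn_of_preconnected_of_eventuallyEq; see H55P.gen_glue), so they agree at s = 1: the right side is 2 (a - a^2) μ Λ(1) (Nm μ = μ cj μ, e_cj). Left side: dd_one for z = h/μ, q = b/a: z, q, z ± q are not in the lattice (mem_LF; μ does not divide h because h is prime to m ≠ top; a does not divide b;
if h/μ ± b/a = y then a h = μ (a y -+ b), so μ divides h since μ and a are coprime: a = 1 + Nm μ k, Nm μ = μ cj μ) and H35P.wp_ne: the difference of the values of the Weierstrass function is not 0, so the inner sum is the quotient. -/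
theorem L_val {m : Ideal (𝓞 F)} {ψ : Ideal (𝓞 F) →*₀ 𝓞 F} (hψ : IsHecke m ψ) {μ : 𝓞 F}
    (hμ : Ideal.span {μ} = m) {H : Finset (𝓞 F)} (hH : HRep m ψ μ H) {a : ℕ} (a0 : 1 < a)
    (a1 : ∃ k, a = 1 + Nm μ * k) {R : Finset (𝓞 F)} (hR : Rep (a : 𝓞 F) R) {l : ℕ} {Om : ℂ} {Λ : ℂ → ℂ}
    (hΛ : LU l Om ψ Λ) :
    ∑ h ∈ H, ∑ b ∈ R.erase 0, (LF F).derivWeierstrassP (eF F h / eF F μ) /
      ((LF F).weierstrassP (eF F h / eF F μ) - (LF F).weierstrassP (eF F b / (a : ℂ))) =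
      2 * (a * (1 - a)) * eF F μ * Λ 1 := by
  have hμ0 : μ ≠ 0 := by
    rintro rfl
    apply hψ.ne
    rw [← hμ, Ideal.span_singleton_eq_bot]
  have hμ' : eF F μ ≠ 0 := H55P.eF_ne hμ0
  have hcμ : (starRingEnd ℂ) (eF F μ) ≠ 0 := (map_ne_zero _).2 hμ'
  have ha : a ≠ 0 := by omega
  have ha' : (a : ℂ) ≠ 0 := Nat.cast_ne_zero.2 ha
  have hN : (Nm μ : ℂ) = eF F μ * (starRingEnd ℂ) (eF F μ) := by
    rw [← e_cj, ← map_mul, mul_cj, map_natCast]
  have hN0 : (Nm μ : ℂ) ≠ 0 := by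
    rw [hN]
    exact mul_ne_zero hμ' hcμ
  have hG : ∀ s : ℂ, 3 / 2 < s.re → ∑ h ∈ H, ∑ b ∈ R.erase 0, ∑' x : 𝓞 F,
      dd s (eF F h / eF F μ + eF F x) (eF F b / (a : ℂ)) =
      2 * ((a : ℂ) ^ (2 * s - 1) - (a : ℂ) ^ 2) * ((Nm μ : ℂ) ^ s / (starRingEnd ℂ) (eF F μ) * Λ s) := by
    intro s hs
    rw [← Ff_ray hψ μ hμ H hH s (Λ s) hs (hΛ.sum s hs), Finset.mul_sum]
    exact Finset.sum_congr rfl fun h _ => dd_dist F a ha R hR _ s hs (ua7_z hμ0 a1 h)
  have hA1 : AnalyticOnNhd ℂ (fun s : ℂ => ∑ h ∈ H, ∑ b ∈ R.erase 0, ∑' x : 𝓞 F,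
      dd s (eF F h / eF F μ + eF F x) (eF F b / (a : ℂ))) {s | 1 / 2 < s.re} :=
    ua7_sum H fun h _ => ua7_sum (R.erase 0) fun b _ => (dd_analytic F _ _).2
  have hA2 : AnalyticOnNhd ℂ (fun s : ℂ => 2 * ((a : ℂ) ^ (2 * s - 1) - (a : ℂ) ^ 2) *
      ((Nm μ : ℂ) ^ s / (starRingEnd ℂ) (eF F μ) * Λ s)) {s | 1 / 2 < s.re} := by
    refine (analyticOnNhd_const.mul ((ua7_cpow _ ha').sub analyticOnNhd_const)).mul (AnalyticOnNhd.mul ?_ hΛ.an)
    simp only [div_eq_mul_inv]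
    exact (ua7_cpow' _ hN0).mul analyticOnNhd_const
  have hkey := ua7_ident _ _ hA1 hA2 hG 1 (by norm_num)
  have hterm : ∀ h ∈ H, ∀ b ∈ R.erase 0, (LF F).derivWeierstrassP (eF F h / eF F μ) /
      ((LF F).weierstrassP (eF F h / eF F μ) - (LF F).weierstrassP (eF F b / (a : ℂ))) =
      ∑' x : 𝓞 F, dd 1 (eF F h / eF F μ + eF F x) (eF F b / (a : ℂ)) := by
    intro h hh b hb
    have hnd := ua7_ndvd hψ hμ (hH.prm h hh)
    have hz : eF F h / eF F μ ∉ (LF F).lattice := by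
      have h1 := ua7_lat a0 hμ0 a1 hnd 0
      rwa [map_zero, zero_div, add_zero] at h1
    have hq : eF F b / (a : ℂ) ∉ (LF F).lattice := by
      rw [H55P.mem_LF]
      rintro ⟨y, hy⟩
      rw [div_eq_iff ha'] at hy
      have h1 : eF F b = eF F (y * a) := by rw [map_mul, map_natCast, hy]
      have h2 := H55P.eF_inj h1
      rw [Finset.mem_erase] at hb
      exact hb.1 (hR.un b hb.2 0 hR.zero ⟨y, by rw [h2]; ring⟩)
    have hp := ua7_lat a0 hμ0 a1 hnd b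
    have hm : eF F h / eF F μ - eF F b / (a : ℂ) ∉ (LF F).lattice := by
      have h1 := ua7_lat a0 hμ0 a1 hnd (-b)
      rwa [map_neg, neg_div, ← sub_eq_add_neg] at h1
    have hne := H35P.wp_ne (LF F) _ _ hz hq hp hm
    rw [← dd_one F _ _ hz hq hp hm, mul_div_assoc, div_self (sub_ne_zero.2 hne), mul_one]
  rw [Finset.sum_congr rfl fun h hh => Finset.sum_congr rfl fun b hb => hterm h hh b hb]
  rw [hkey, Complex.cpow_one, hN]
  have e3 : (2 * 1 - 1 : ℂ) = 1 := by norm_num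
  rw [e3, Complex.cpow_one]
  field_simp

end H55K
end

-- from Lib.H55K.UB9B
section

/-! # H55K: elliptic units: the coefficient -/

open NumberField IsDedekindDomain WeierstrassCurve

namespace H55K

open H55P (IQ embF eF LF Per IsHecke Pt ac Inert Dec Nm)
open H35P (WAB Ker tt)


variable {F : Type} [Field F] [NumberField F] [IQ F] {A B : F} {Om : ℂ} {Ω : Type} [Field Ω] [DecidableEq Ω]
  [Algebra F Ω] {j : Ω →+* ℂ} {act : 𝓞 F →+* AddMonoid.End (Pt (WAB A B) Ω)} {m : Ideal (𝓞 F)}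
  {ψ : Ideal (𝓞 F) →*₀ 𝓞 F} {l : ℕ} {μ : 𝓞 F} {a : ℕ} {ρ τ : Pt (WAB A B) Ω} {H R : Finset (𝓞 F)}
  {D S : Finset (Pt (WAB A B) Ω)}

theorem ub9_alg (p u w Om : ℂ) (hO : Om ≠ 0) :
    p / (2 * Om ^ 3) / (u / Om ^ 2 - w / Om ^ 2) = 1 / (2 * Om) * (p / (u - w)) := by
  rw [← sub_div]
  by_cases h : u - w = 0
  · rw [h, zero_div, div_zero, div_zero, mul_zero]
  · field_simp

omit [NumberField F] [IQ F] in
theorem ub9_sub {b c : 𝓞 F} {P : Pt (WAB A B) Ω} (h : act b P = act c P) : act (b - c) P = 0 := by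
  have h1 : act (b - c) P = act b P - act c P := by
    rw [map_sub]
    rfl
  rw [h1, h, sub_self]

/-- Chunk UB9B (S/M). The sums over D and S as sums over H and R.erase 0 (memD', memS': the maps h ↦ act h ρ on H and b ↦ act b τ on R.erase 0 are injective by HRep.un, Rep.un, rho0, tau), rhox, taux; L_val: 4 * (1/(2 Om)) * 2 a (1 - a) μ Λ(1). -/
theorem cU_val (h : Dta A B Om j act m ψ l) (hU : UDat Om j act m ψ l μ a ρ τ H R D S) {Λ : ℂ → ℂ}
    (hΛ : LU l Om ψ Λ) : j (cU D S) = 4 * (a * (1 - a)) * eF F μ * (Λ 1 / Om) := by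
  classical
  have hOm : Om ≠ 0 := h.cma.per.ne
  have hD : D = H.image fun x => act x ρ := by
    ext X
    rw [hU.memD' X, Finset.mem_image]
    exact ⟨fun ⟨x, hx, hX⟩ => ⟨x, hx, hX.symm⟩, fun ⟨x, hx, hX⟩ => ⟨x, hx, hX.symm⟩⟩
  have hS : S = (R.erase 0).image fun b => act b τ := by
    ext Q
    rw [hU.memS' Q, Finset.mem_image]
    constructor
    · rintro ⟨b, hb, hb0, hQ⟩
      exact ⟨b, Finset.mem_erase.2 ⟨hb0, hb⟩, hQ.symm⟩
    · rintro ⟨b, hb, hQ⟩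
      exact ⟨b, (Finset.mem_erase.1 hb).2, (Finset.mem_erase.1 hb).1, hQ.symm⟩
  have hDi : Set.InjOn (fun x => act x ρ) (H : Set (𝓞 F)) := by
    intro x hx y hy hxy
    exact hU.hrep.un x hx y hy ((hU.rho0 _).1 (ub9_sub hxy))
  have hSi : Set.InjOn (fun b => act b τ) ((R.erase 0 : Finset (𝓞 F)) : Set (𝓞 F)) := by
    intro x hx y hy hxy
    exact hU.rep.un x (Finset.mem_erase.1 hx).2 y (Finset.mem_erase.1 hy).2 ((hU.tau _).1 (ub9_sub hxy))
  have hsum : ∑ X ∈ D, ∑ Q ∈ S, j (yc X) / (j (xc X) - j (xc Q)) =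
      ∑ x ∈ H, ∑ b ∈ R.erase 0, 1 / (2 * Om) * ((LF F).derivWeierstrassP (eF F x / eF F μ) /
        ((LF F).weierstrassP (eF F x / eF F μ) - (LF F).weierstrassP (eF F b / (a : ℂ)))) := by
    rw [hD, hS, Finset.sum_image hDi]
    apply Finset.sum_congr rfl
    intro x hx
    rw [Finset.sum_image hSi]
    apply Finset.sum_congr rfl
    intro b hb
    have h1 : ¬ μ ∣ x := ua7_ndvd h.hecke hU.mu (hU.hrep.prm x hx)
    have h2 : ¬ (a : 𝓞 F) ∣ b := by
      intro h3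
      exact (Finset.mem_erase.1 hb).1 (hU.rep.un b (Finset.mem_erase.1 hb).2 0 hU.rep.zero (by rwa [sub_zero]))
    obtain ⟨e1, e2⟩ := hU.rhox x h1
    rw [e1, e2, hU.taux b h2]
    exact ub9_alg _ _ _ _ hOm
  have hL := L_val h.hecke hU.mu hU.hrep hU.a0 hU.a1 hU.rep hΛ
  unfold cU
  rw [map_mul, map_ofNat, map_sum]
  simp only [map_sum, map_div₀, map_sub]
  rw [hsum]
  simp only [← Finset.mul_sum]
  rw [hL]
  field_simp

end H55K
end

-- from Lib.H55K.UB9C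
section

/-! # H55K: elliptic units: the coefficient -/

open NumberField IsDedekindDomain WeierstrassCurve

namespace H55K

open H55P (IQ embF eF LF Per IsHecke Pt ac Inert Dec Nm)
open H35P (WAB Ker tt)


variable {F : Type} [Field F] [NumberField F] [IQ F] {A B : F} {Om : ℂ} {Ω : Type} [Field Ω] [DecidableEq Ω]
  [Algebra F Ω] {j : Ω →+* ℂ} {act : 𝓞 F →+* AddMonoid.End (Pt (WAB A B) Ω)} {m : Ideal (𝓞 F)}
  {ψ : Ideal (𝓞 F) →*₀ 𝓞 F} {l : ℕ} {μ : 𝓞 F} {a : ℕ} {ρ τ : Pt (WAB A B) Ω} {H R : Finset (𝓞 F)}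
  {D S : Finset (Pt (WAB A B) Ω)}

theorem ub9c_lt {L : Type} [Field L] (W : ValuationSubring L) {y : L} (hy : y ≠ 0) :
    W.valuation y < 1 ↔ y⁻¹ ∉ W := by
  rw [← W.valuation_le_one_iff, not_le, map_inv₀, one_lt_inv₀]
  exact zero_lt_iff.2 ((Valuation.ne_zero_iff _).2 hy)

omit [DecidableEq Ω] [Algebra F Ω] in
/-- Chunk UB9C (S/M). The image of V in the subfield j(Ω) is a valuation ring; it is dominated by a valuation ring of ℂ (LocalSubring.exists_le_valuationSubring or H13S.exists_above, H55P.exists_above_p for the style), whose intersection with j(Ω) is V (a valuation ring is maximal for domination). -/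
theorem exists_ext {Ω : Type} [Field Ω] (j : Ω →+* ℂ) (V : ValuationSubring Ω) : ∃ V' : ValuationSubring ℂ,
    ∀ x : Ω, (j x ∈ V' ↔ x ∈ V) ∧ (V'.valuation (j x) < 1 ↔ V.valuation x < 1) := by
  obtain ⟨V', hV'⟩ := (V.toLocalSubring.map j).exists_le_valuationSubring
  obtain ⟨h1, h2⟩ := LocalSubring.le_def.1 hV'
  have hmem : ∀ x : Ω, j x ∈ V' ↔ x ∈ V := by
    intro x
    refine ⟨fun hx => ?_, fun hx => h1 ⟨x, hx, rfl⟩⟩
    by_contra hc
    have hx0 : x ≠ 0 := by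
      rintro rfl
      exact hc V.zero_mem
    have hi : x⁻¹ ∈ V := (V.mem_or_inv_mem x).resolve_left hc
    have hm : j x⁻¹ ∈ (V.toLocalSubring.map j).toSubring := ⟨x⁻¹, hi, rfl⟩
    have hu : IsUnit (Subring.inclusion h1 ⟨j x⁻¹, hm⟩) := by
      refine isUnit_iff_exists_inv.2 ⟨⟨j x, hx⟩, Subtype.ext ?_⟩
      show j x⁻¹ * j x = 1
      rw [← map_mul, inv_mul_cancel₀ hx0, map_one]
    obtain ⟨⟨b, hb⟩, hb1⟩ := isUnit_iff_exists_inv.1 (h2.map_nonunit _ hu)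
    obtain ⟨z, hz, rfl⟩ := hb
    have h3 : j (x⁻¹ * z) = j 1 := by
      rw [map_mul, map_one]
      exact congrArg Subtype.val hb1
    have h4 : x⁻¹ * z = 1 := j.injective h3
    have h5 : z = x := by
      rw [inv_mul_eq_iff_eq_mul₀ hx0, mul_one] at h4
      exact h4
    rw [h5] at hz
    exact hc hz
  refine ⟨V', fun x => ⟨hmem x, ?_⟩⟩
  rcases eq_or_ne x 0 with rfl | hx0
  · simp
  · rw [ub9c_lt V hx0, ub9c_lt V' (fun h => hx0 (j.injective (by rw [h, map_zero]))), ← map_inv₀, hmem]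

/-- Chunk UB9C. V' from exists_ext: V'(l) < 1, so hΛ.val; V'(4) = V'(a) = V'(1 - a) = 1 (a = 2 + l k, l odd), V'(eF F μ) = 1 (h.cma.ovr: eF F μ = j (ak Ω μ); μ * cj μ = Nm μ is prime to l). So V'(j cU) = 1, V(cU) = 1. -/
theorem cU_unit (h : Dta A B Om j act m ψ l) (hU : UDat Om j act m ψ l μ a ρ τ H R D S) {Λ : ℂ → ℂ}
    (hΛ : LU l Om ψ Λ) {V : ValuationSubring Ω} (hV : V.valuation (l : Ω) < 1) :
    V.valuation (cU D S) = 1 := by
  obtain ⟨V', hV'⟩ := exists_ext j V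
  have hl : V'.valuation (l : ℂ) < 1 := by
    have := (hV' (l : Ω)).2.2 hV
    rwa [map_natCast] at this
  have hint : ∀ z : ℤ, V'.valuation (z : ℂ) ≤ 1 := by
    intro z
    rw [V'.valuation_le_one_iff]
    exact intCast_mem V' z
  have hun : ∀ z : ℤ, ¬ (l : ℤ) ∣ z → V'.valuation (z : ℂ) = 1 := by
    intro z hz
    refine le_antisymm (hint z) (not_lt.1 fun hlt => ?_)
    obtain ⟨x, y, hxy⟩ := (Nat.prime_iff_prime_int.1 h.prime).coprime_iff_not_dvd.2 hz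
    have e : (1 : ℂ) = (x : ℂ) * (l : ℂ) + (y : ℂ) * (z : ℂ) := by
      have := congrArg (fun t : ℤ => (t : ℂ)) hxy
      push_cast at this
      exact this.symm
    have h1 : V'.valuation (1 : ℂ) < 1 := by
      rw [e]
      refine lt_of_le_of_lt (V'.valuation.map_add _ _) (max_lt ?_ ?_)
      · rw [map_mul]
        exact lt_of_le_of_lt (mul_le_of_le_one_left' (hint x)) hl
      · rw [map_mul]
        exact lt_of_le_of_lt (mul_le_of_le_one_left' (hint y)) hlt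
    rw [map_one] at h1
    exact lt_irrefl _ h1
  have h5 := h.five
  have hlodd : ¬ (l : ℤ) ∣ 2 := by
    intro hd
    have := Int.le_of_dvd (by norm_num) hd
    omega
  have h4 : V'.valuation (4 : ℂ) = 1 := by
    have := hun 4 (by
      intro hd
      have := Int.le_of_dvd (by norm_num) hd
      omega)
    exact_mod_cast this
  obtain ⟨k, hk⟩ := hU.a2
  have ha : V'.valuation (a : ℂ) = 1 := by
    have := hun a (by
      intro hd
      apply hlodd
      have e : (2 : ℤ) = (a : ℤ) - l * k := by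
        rw [hk]
        push_cast
        ring
      rw [e]
      exact dvd_sub hd (dvd_mul_right _ _))
    exact_mod_cast this
  have ha1 : V'.valuation (1 - (a : ℂ)) = 1 := by
    have := hun (1 - a) (by
      intro hd
      have e : (1 : ℤ) = -(1 - (a : ℤ)) - l * k := by
        rw [hk]
        push_cast
        ring
      have h1 : (l : ℤ) ∣ 1 := by
        rw [e]
        exact dvd_sub ((dvd_neg).2 hd) (dvd_mul_right _ _)
      have := Int.le_of_dvd (by norm_num) h1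
      omega)
    push_cast at this
    exact this
  have he : ∀ x : 𝓞 F, V'.valuation (eF F x) ≤ 1 := by
    intro x
    rw [V'.valuation_le_one_iff]
    have h1 : eF F x = j (ak Ω x) := (h.cma.ovr (x : F)).symm
    rw [h1, (hV' _).1, ← V.valuation_le_one_iff]
    exact ak_le V x
  have hμ : V'.valuation (eF F μ) = 1 := by
    refine le_antisymm (he μ) (not_lt.1 fun hlt => ?_)
    have h1 : V'.valuation ((Nm μ : ℕ) : ℂ) = 1 := by
      have := hun (Nm μ) (by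
        rw [Int.natCast_dvd_natCast]
        intro hd
        have h2 := (Nat.Coprime.dvd_of_dvd_mul_left (Nat.Coprime.symm hU.cop) (by rw [mul_one]; exact hd : l ∣ Nm μ * 1))
        exact h.prime.one_lt.ne' (Nat.dvd_one.1 h2))
      exact_mod_cast this
    have h2 : eF F μ * eF F (cj μ) = ((Nm μ : ℕ) : ℂ) := by
      rw [← map_mul, mul_cj, map_natCast]
    rw [← h2, map_mul] at h1
    have h3 : V'.valuation (eF F μ) * V'.valuation (eF F (cj μ)) < 1 :=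
      lt_of_le_of_lt (mul_le_of_le_one_right' (he (cj μ))) hlt
    rw [h1] at h3
    exact lt_irrefl _ h3
  have hj : V'.valuation (j (cU D S)) = 1 := by
    rw [cU_val h hU hΛ, map_mul, map_mul, map_mul, map_mul, h4, ha, ha1, hμ, hΛ.val V' hl]
    simp
  refine le_antisymm ?_ (not_lt.1 fun hlt => ?_)
  · rw [V.valuation_le_one_iff, ← (hV' _).1, ← V'.valuation_le_one_iff]
    exact hj.le
  · have := (hV' _).2.2 hlt
    rw [hj] at this
    exact lt_irrefl _ this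

end H55K
end

-- from Lib.H55K.UB3A
section

/-! # H55K: elliptic units: Galois action -/

open NumberField IsDedekindDomain WeierstrassCurve

namespace H55K

open H55P (IQ embF eF LF Per IsHecke Pt ac Inert Dec Nm)
open H35P (WAB Ker tt)


variable {F : Type} [Field F] [NumberField F] [IQ F] {A B : F} {Om : ℂ} {Ω : Type} [Field Ω] [DecidableEq Ω]
  [Algebra F Ω] {j : Ω →+* ℂ} {act : 𝓞 F →+* AddMonoid.End (Pt (WAB A B) Ω)} {m : Ideal (𝓞 F)}
  {ψ : Ideal (𝓞 F) →*₀ 𝓞 F} {l : ℕ} {μ : 𝓞 F} {a : ℕ} {ρ τ : Pt (WAB A B) Ω} {H R : Finset (𝓞 F)}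
  {D S : Finset (Pt (WAB A B) Ω)}

theorem ub3_inj (s : Ω ≃ₐ[F] Ω) {P Q : Pt (WAB A B) Ω} (h : ac (WAB A B) s P = ac (WAB A B) s Q) :
    P = Q := by
  have h1 := congrArg (ac (WAB A B) s⁻¹) h
  have h2 := ac_inv (WAB A B) s⁻¹ P
  have h3 := ac_inv (WAB A B) s⁻¹ Q
  rw [inv_inv] at h2 h3
  rwa [h2, h3] at h1

theorem ub3_rho (hU : UDat Om j act m ψ l μ a ρ τ H R D S) : ρ ∈ D :=
  (hU.memD ρ).2 ⟨1, Prm_one, (ub2_one act ρ).symm⟩

theorem ub3_gal (h : Dta A B Om j act m ψ l) (hU : UDat Om j act m ψ l μ a ρ τ H R D S)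
    (s : Ω ≃ₐ[F] Ω) (hs : ac (WAB A B) s ρ ∈ D) {X : Pt (WAB A B) Ω} (hX : X ∈ D) :
    ac (WAB A B) s X ∈ D := by
  obtain ⟨x, hx, rfl⟩ := (hU.memD X).1 hX
  obtain ⟨c, hc, hc'⟩ := (hU.memD _).1 hs
  rw [h.cma.gal, hc', ub2_mul]
  exact (hU.memD _).2 ⟨x * c, Prm_mul hx hc, rfl⟩

/-- The subgroup. -/
def ub3_K (h : Dta A B Om j act m ψ l) (hU : UDat Om j act m ψ l μ a ρ τ H R D S) :
    Subgroup (Ω ≃ₐ[F] Ω) where
  carrier := {s | ac (WAB A B) s ρ ∈ D}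
  one_mem' := by
    show ac (WAB A B) 1 ρ ∈ D
    rw [ac_one]
    exact ub3_rho hU
  mul_mem' := by
    intro s t hs ht
    show ac (WAB A B) (s * t) ρ ∈ D
    rw [ac_mul]
    exact ub3_gal h hU s hs ht
  inv_mem' := by
    intro s hs
    show ac (WAB A B) s⁻¹ ρ ∈ D
    classical
    have h1 : D.image (ac (WAB A B) s) = D :=
      Finset.eq_of_subset_of_card_le
        (Finset.image_subset_iff.2 fun X hX => ub3_gal h hU s hs hX)
        (Finset.card_image_of_injective _ fun P Q hPQ => ub3_inj s hPQ).ge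
    have h2 : ρ ∈ D.image (ac (WAB A B) s) := by
      rw [h1]
      exact ub3_rho hU
    obtain ⟨X, hX, hXρ⟩ := Finset.mem_image.1 h2
    have h3 : ac (WAB A B) s⁻¹ ρ = X := by
      apply ub3_inj s
      rw [ac_inv, hXρ]
    rwa [h3]

theorem ub3_normal (h : Dta A B Om j act m ψ l) (hU : UDat Om j act m ψ l μ a ρ τ H R D S) :
    (ub3_K h hU).Normal := by
  constructor
  intro t ht g
  show ac (WAB A B) (g * t * g⁻¹) ρ ∈ D
  have ht' : ac (WAB A B) t ρ ∈ D := ht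
  obtain ⟨c, hc, hc'⟩ := (hU.memD _).1 ht'
  obtain ⟨b, hb⟩ := hU.rhog (ac (WAB A B) g⁻¹ ρ) (by
    rw [← h.cma.gal, hU.rho, ac_zero])
  have h1 : ac (WAB A B) (g * t * g⁻¹) ρ = act c ρ := by
    rw [ac_mul, ac_mul, hb, h.cma.gal, hc', ub2_mul, mul_comm b c, ← ub2_mul, ← hb, h.cma.gal,
      ac_inv]
  rw [h1, ← hc']
  exact ht'

theorem ub3_fin {x : 𝓞 F} (hx : x ≠ 0) : {v : HeightOneSpectrum (𝓞 F) | x ∈ v.asIdeal}.Finite := by
  have h1 : Ideal.span {x} ≠ 0 := by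
    rw [Ideal.zero_eq_bot, Ne, Ideal.span_singleton_eq_bot]
    exact hx
  refine (Ideal.finite_factors h1).subset fun v hv => ?_
  show v.asIdeal ∣ Ideal.span {x}
  rw [Ideal.dvd_span_singleton]
  exact hv

theorem ub3_frob (h : Dta A B Om j act m ψ l) (hU : UDat Om j act m ψ l μ a ρ τ H R D S)
    (v : HeightOneSpectrum (𝓞 F)) (hv : (Nm μ : 𝓞 F) ∉ v.asIdeal) (s : Ω ≃ₐ[F] Ω)
    (hs : ac (WAB A B) s ρ = act (ψ v.asIdeal) ρ) : ac (WAB A B) s ρ ∈ D := by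
  rw [hs]
  have hm : ¬ m ≤ v.asIdeal := by
    intro h1
    apply hv
    rw [← mul_cj]
    refine Ideal.mul_mem_right _ _ (h1 ?_)
    rw [← hU.mu]
    exact Ideal.mem_span_singleton_self μ
  have hc : IsCoprime v.asIdeal m := by
    rw [Ideal.isCoprime_iff_sup_eq]
    refine v.isMaximal.1.2 _ (lt_of_le_of_ne le_sup_left ?_)
    intro h1
    apply hm
    rw [h1]
    exact le_sup_right
  have hg := h.hecke.gen _ hc
  exact (hU.memD _).2 ⟨ψ v.asIdeal, ⟨by rwa [hg], by rw [hg]⟩, rfl⟩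

theorem ub3_val (v : HeightOneSpectrum (𝓞 F)) (V : ValuationSubring Ω)
    (hV : ∀ x : 𝓞 F, x ∈ v.asIdeal → V.valuation (ak Ω x) < 1) (n : ℕ) (hn : (n : 𝓞 F) ∉ v.asIdeal) :
    V.valuation (n : Ω) = 1 := by
  have hle : V.valuation (n : Ω) ≤ 1 := by
    rw [ValuationSubring.valuation_le_one_iff]
    exact natCast_mem V n
  refine le_antisymm hle (not_lt.1 fun hlt => ?_)
  have hint : ∀ x : 𝓞 F, V.valuation (ak Ω x) ≤ 1 := ak_le V
  have h1 : Ideal.span {(n : 𝓞 F)} ⊔ v.asIdeal = ⊤ := by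
    rw [sup_comm]
    refine v.isMaximal.1.2 _ (lt_of_le_of_ne le_sup_left ?_)
    intro h1
    apply hn
    rw [h1]
    exact Ideal.mem_sup_right (Ideal.mem_span_singleton_self _)
  have h2 : (1 : 𝓞 F) ∈ Ideal.span {(n : 𝓞 F)} ⊔ v.asIdeal := by
    rw [h1]
    trivial
  obtain ⟨y, hy, z, hz, hyz⟩ := Submodule.mem_sup.1 h2
  obtain ⟨w, rfl⟩ := Ideal.mem_span_singleton.1 hy
  have h3 : (n : Ω) * ak Ω w + ak Ω z = 1 := by
    have h4 := congrArg (fun t : 𝓞 F => algebraMap F Ω (t : F)) hyz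
    simpa using h4
  have h5 : V.valuation ((n : Ω) * ak Ω w + ak Ω z) < 1 := by
    refine Valuation.map_add_lt _ ?_ (hV z hz)
    rw [map_mul]
    exact mul_lt_one_of_lt_of_le hlt (hint w)
  rw [h3, map_one] at h5
  exact lt_irrefl _ h5

/-- Chunk UB3A (M). K = {s : for all X in D, ac s X is in D} is a subgroup (D is finite and ac s is injective: ac s permutes D, so does its inverse). Every s acts on Tor act μ as act c, c with ac s ρ = act c ρ (rhog; cma.gal), so all s commute on Tor act μ and K is normal. It contains the fixing subgroup of a finite extension fixing ρ (H55P.pt_open).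
H13S.PA1_top (PA1.lean): it is enough to treat Frobenius elements s at V above v, v outside the finite set of h.frob and the primes containing Nm μ (finite: Ideal.finite_factors): V(Nm μ) = 1, ac s ρ = act (ψ v) ρ by h.frob; v is coprime to m (v maximal does not contain m), span {ψ v} = v (hecke.gen), so Prm (ψ v), and ac s (act h ρ) =
act (h * ψ v) ρ is in D (memD, Prm_mul). -/
theorem D_gal [IsAlgClosure F Ω] (h : Dta A B Om j act m ψ l) (hU : UDat Om j act m ψ l μ a ρ τ H R D S)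
    (s : Ω ≃ₐ[F] Ω) {X : Pt (WAB A B) Ω} (hX : X ∈ D) : ac (WAB A B) s X ∈ D := by
  have halg : Algebra.IsAlgebraic F Ω := IsAlgClosure.isAlgebraic
  obtain ⟨L, hLf, hL⟩ := H55P.pt_open (WAB A B) ρ
  obtain ⟨S₀, hS₀, hfr⟩ := h.frob
  have hNm : (Nm μ : 𝓞 F) ≠ 0 := by
    intro h0
    have h1 : Nm μ = 0 := by exact_mod_cast h0
    exact hU.mu0 (H55P.Nm_eq_zero.1 h1)
  have htop : ub3_K h hU = ⊤ := by
    refine H13S.PA1_top (F₀ := F) (ub3_K h hU) (ub3_normal h hU) L ?_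
      (S₀ ∪ {v | (Nm μ : 𝓞 F) ∈ v.asIdeal}) (hS₀.union (ub3_fin hNm)) ?_
    · intro t ht
      show ac (WAB A B) t ρ ∈ D
      rw [hL t ht]
      exact ub3_rho hU
    · intro v hv hp V hV t ht
      rw [Set.mem_union, not_or] at hv
      show ac (WAB A B) t ρ ∈ D
      refine ub3_frob h hU v hv.2 t ?_
      exact hfr v hv.1 hp V hV t ht (Nm μ) (ub3_val v V hV _ hv.2) ρ
        (D_ne h hU (ub3_rho hU)).2
  have hs : s ∈ ub3_K h hU := by
    rw [htop]
    exact Subgroup.mem_top s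
  exact ub3_gal h hU s hs hX

end H55K
end

-- from Lib.H55K.UB3B
section

/-! # H55K: elliptic units: Galois action -/

open NumberField IsDedekindDomain WeierstrassCurve

namespace H55K

open H55P (IQ embF eF LF Per IsHecke Pt ac Inert Dec Nm)
open H35P (WAB Ker tt)


variable {F : Type} [Field F] [NumberField F] [IQ F] {A B : F} {Om : ℂ} {Ω : Type} [Field Ω] [DecidableEq Ω]
  [Algebra F Ω] {j : Ω →+* ℂ} {act : 𝓞 F →+* AddMonoid.End (Pt (WAB A B) Ω)} {m : Ideal (𝓞 F)}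
  {ψ : Ideal (𝓞 F) →*₀ 𝓞 F} {l : ℕ} {μ : 𝓞 F} {a : ℕ} {ρ τ : Pt (WAB A B) Ω} {H R : Finset (𝓞 F)}
  {D S : Finset (Pt (WAB A B) Ω)}

theorem ub3_permS {α M : Type} [AddCommMonoid M] (D : Finset α) (g : α → α) (hm : ∀ x ∈ D, g x ∈ D)
    (hi : Set.InjOn g (D : Set α)) (f : α → M) : ∑ X ∈ D, f (g X) = ∑ X ∈ D, f X := by
  classical
  have h1 : D.image g = D :=
    Finset.eq_of_subset_of_card_le (Finset.image_subset_iff.2 hm) (Finset.card_image_of_injOn hi).ge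
  conv_rhs => rw [← h1]
  rw [Finset.sum_image hi]

/-- Chunk UB3B (S). ac s permutes D (injective, D_gal) and S (cma.gal). -/
theorem prod_gal [IsAlgClosure F Ω] (h : Dta A B Om j act m ψ l)
    (hU : UDat Om j act m ψ l μ a ρ τ H R D S) (s : Ω ≃ₐ[F] Ω) (f : Pt (WAB A B) Ω → Ω) :
    ∏ X ∈ D, f (ac (WAB A B) s X) = ∏ X ∈ D, f X ∧ ∏ X ∈ S, f (ac (WAB A B) s X) = ∏ X ∈ S, f X ∧
    ∑ X ∈ D, f (ac (WAB A B) s X) = ∑ X ∈ D, f X ∧ ∑ X ∈ S, f (ac (WAB A B) s X) = ∑ X ∈ S, f X := by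
  have hD : ∀ X ∈ D, ac (WAB A B) s X ∈ D := fun X hX => D_gal h hU s hX
  have hS : ∀ X ∈ S, ac (WAB A B) s X ∈ S := by
    intro X hX
    have h1 := (hU.memS X).1 hX
    refine (hU.memS _).2 ⟨?_, ac_ne _ s h1.2⟩
    rw [← h.cma.gal, h1.1, ac_zero]
  have hi : Function.Injective (ac (WAB A B) s : Pt (WAB A B) Ω → Pt (WAB A B) Ω) :=
    fun P Q hPQ => ub3_inj s hPQ
  exact ⟨ub2_perm D _ hD hi.injOn f, ub2_perm S _ hS hi.injOn f, ub3_permS D _ hD hi.injOn f,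
    ub3_permS S _ hS hi.injOn f⟩

/-- Chunk UB3B. xc_ac (E0), prod_gal. -/
theorem Xi_gal [IsAlgClosure F Ω] (h : Dta A B Om j act m ψ l)
    (hU : UDat Om j act m ψ l μ a ρ τ H R D S) (s : Ω ≃ₐ[F] Ω) (P : Pt (WAB A B) Ω) :
    s (Xi D S P) = Xi D S (ac (WAB A B) s P) := by
  have h1 : ∀ Y : Pt (WAB A B) Ω, s (Phi S Y) = Phi S (ac (WAB A B) s Y) := by
    intro Y
    have h2 := (prod_gal h hU s (fun T => xc (ac (WAB A B) s Y) - xc T)).2.1
    unfold Phi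
    rw [← h2, map_prod]
    refine Finset.prod_congr rfl fun Q _ => ?_
    rw [map_sub, xc_ac, xc_ac]
  have h3 := (prod_gal h hU s
    (fun Y => Phi S (Y + ac (WAB A B) s P) / Phi S (Y - ac (WAB A B) s P))).1
  unfold Xi
  rw [← h3, map_prod]
  refine Finset.prod_congr rfl fun X _ => ?_
  rw [map_div₀, h1, h1, map_add, map_sub]

end H55K
end

-- from Lib.H55K.UB9A
section

/-! # H55K: elliptic units: the coefficient -/

open NumberField IsDedekindDomain WeierstrassCurve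

namespace H55K

open H55P (IQ embF eF LF Per IsHecke Pt ac Inert Dec Nm)
open H35P (WAB Ker tt)


variable {F : Type} [Field F] [NumberField F] [IQ F] {A B : F} {Om : ℂ} {Ω : Type} [Field Ω] [DecidableEq Ω]
  [Algebra F Ω] {j : Ω →+* ℂ} {act : 𝓞 F →+* AddMonoid.End (Pt (WAB A B) Ω)} {m : Ideal (𝓞 F)}
  {ψ : Ideal (𝓞 F) →*₀ 𝓞 F} {l : ℕ} {μ : 𝓞 F} {a : ℕ} {ρ τ : Pt (WAB A B) Ω} {H R : Finset (𝓞 F)}
  {D S : Finset (Pt (WAB A B) Ω)}

/-- Chunk UB9A (S). cU is fixed by all automorphisms (prod_gal, xc_ac, yc_ac); Ω is Galois over F. -/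
theorem cU_mem [IsAlgClosure F Ω] (h : Dta A B Om j act m ψ l)
    (hU : UDat Om j act m ψ l μ a ρ τ H R D S) : ∃ c : F, algebraMap F Ω c = cU D S := by
  have hnorm : Normal F Ω := IsAlgClosure.normal F Ω
  have hgal : IsGalois F Ω := { }
  have hfix : ∀ s : Ω ≃ₐ[F] Ω, s (cU D S) = cU D S := by
    intro s
    unfold cU
    rw [map_mul, map_ofNat, map_sum]
    congr 1
    have h1 : ∀ X : Pt (WAB A B) Ω, s (∑ Q ∈ S, yc X / (xc X - xc Q)) =
        ∑ Q ∈ S, yc (ac (WAB A B) s X) / (xc (ac (WAB A B) s X) - xc Q) := by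
      intro X
      rw [map_sum, ← (prod_gal h hU s (fun Q => yc (ac (WAB A B) s X) /
        (xc (ac (WAB A B) s X) - xc Q))).2.2.2]
      refine Finset.sum_congr rfl fun Q _ => ?_
      rw [map_div₀, map_sub, xc_ac, xc_ac, yc_ac]
    simp only [h1]
    exact (prod_gal h hU s (fun X => ∑ Q ∈ S, yc X / (xc X - xc Q))).2.2.1
  have h1 : cU D S ∈ IntermediateField.fixedField (⊤ : Subgroup (Ω ≃ₐ[F] Ω)) := by
    rw [IntermediateField.mem_fixedField_iff]
    intro s _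
    exact hfix s
  have h2 := InfiniteGalois.fixedField_fixingSubgroup (⊥ : IntermediateField F Ω)
  rw [IntermediateField.fixingSubgroup_bot] at h2
  rw [h2] at h1
  exact IntermediateField.mem_bot.1 h1

end H55K
end

-- from Lib.H55K.UB10B
section

/-! # H55K: elliptic units: the main theorem -/

open NumberField IsDedekindDomain WeierstrassCurve

namespace H55K

open H55P (IQ embF eF LF Per IsHecke Pt ac Inert Dec Nm)
open H35P (WAB Ker tt)


variable {F : Type} [Field F] [NumberField F] [IQ F] {A B : F} {Om : ℂ} {Ω : Type} [Field Ω] [DecidableEq Ω]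
  [Algebra F Ω] {j : Ω →+* ℂ} {act : 𝓞 F →+* AddMonoid.End (Pt (WAB A B) Ω)} {m : Ideal (𝓞 F)}
  {ψ : Ideal (𝓞 F) →*₀ 𝓞 F} {l : ℕ} {μ : 𝓞 F} {a : ℕ} {ρ τ : Pt (WAB A B) Ω} {H R : Finset (𝓞 F)}
  {D S : Finset (Pt (WAB A B) Ω)}

/-- A point killed by a divisor of l is killed by l. -/
theorem ub10b_tor {π : 𝓞 F} (hd : π ∣ (l : 𝓞 F)) {T : Pt (WAB A B) Ω} (hT : T ∈ Tor act π) : l • T = 0 := by
  obtain ⟨c, hc⟩ := hd
  have h1 : act (l : 𝓞 F) T = l • T := by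
    rw [map_natCast]
    rfl
  have h2 : act (l : 𝓞 F) T = act c (act π T) := by
    rw [hc, mul_comm, map_mul]
    rfl
  have h3 : act π T = 0 := hT
  rw [← h1, h2, h3, map_zero]

omit [IQ F] [DecidableEq Ω] in
theorem ub10b_val {π : 𝓞 F} (hd : π ∣ (l : 𝓞 F)) {V : ValuationSubring Ω} (hV : V.valuation (ak Ω π) < 1) :
    V.valuation (l : Ω) < 1 := by
  obtain ⟨c, hc⟩ := hd
  have h1 : (l : Ω) = ak Ω π * ak Ω c := by
    have h2 : (l : Ω) = ak Ω ((l : 𝓞 F)) := by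
      show (l : Ω) = algebraMap F Ω (algebraMap (𝓞 F) F ((l : 𝓞 F)))
      rw [map_natCast, map_natCast]
    rw [h2, hc]
    show algebraMap F Ω (algebraMap (𝓞 F) F (π * c)) =
      algebraMap F Ω (algebraMap (𝓞 F) F π) * algebraMap F Ω (algebraMap (𝓞 F) F c)
    rw [map_mul, map_mul]
  rw [h1, map_mul]
  exact mul_lt_one_of_lt_of_le hV (ak_le V c)

/-- Chunk UB10B (M). THE ELLIPTIC UNIT. exists_UDat, Xi D S: gal = Xi_gal; unit0 = Xi_unit with R₁ = 0, n = 1 (act π T = 0 and π ∣ l give l • T = 0); exp: c₁ from cU_mem, int_repl (cU_unit: V(π) < 1 implies V(l) < 1), Xi_exp (T is in Ker V by tor_ram), and V((c + c₁) tt T) ≤ V(π) V(tt T) = V(tt T)^(Nm π) ≤ V(tt T)^2 (tor_ram, Nm π ≥ 2);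
fin: fin_set; Xi_unit with n = Nm β (tor_nm); Xi_cong (R in Ker by tor_ram); Xi_norm: Xi T * prod = Xi (act β T) = Xi T and Xi T ≠ 0 (unit0). -/
theorem exists_XiD [IsAlgClosure F Ω] (h : Dta A B Om j act m ψ l) {Λ : ℂ → ℂ} (hΛ : LU l Om ψ Λ)
    {π : 𝓞 F} (hπ : Prime π) (hd : π ∣ (l : 𝓞 F)) : ∃ Ξ : Pt (WAB A B) Ω → Ω, XiD act ψ π Ξ := by
  obtain ⟨μ, a, ρ, τ, H, R, D, S, hU⟩ := exists_UDat h
  have hu0 : ∀ T ∈ Tor act π, T ≠ 0 → ∀ V : ValuationSubring Ω, V.valuation (Xi D S T) = 1 := by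
    intro T hT h0 V
    have := Xi_unit h hU (ub10b_tor hd hT) h0 (n := 1) (R₁ := 0) (by simp) (by simp) (by simp) V
    rwa [add_zero] at this
  refine ⟨Xi D S, fun s P => Xi_gal h hU s P, hu0, ?_, ?_⟩
  · obtain ⟨c₁, hc₁⟩ := cU_mem h hU
    obtain ⟨c, hc, hc'⟩ := int_repl (Ω := Ω) hπ c₁ (fun V hV => by
      rw [hc₁]
      exact cU_unit h hU hΛ (ub10b_val hd hV))
    refine ⟨c, hc, fun V hV T hT h0 => ?_⟩
    have hVl := ub10b_val hd hV
    obtain ⟨hK, hr⟩ := tor_ram h.cma (h.good V hVl) hπ hV hT h0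
    have h1 := Xi_exp h hU hVl hK
    have h2 := hc' V hV
    rw [hc₁] at h2
    have e1 : Xi D S T - 1 - ak Ω c * tt T = (Xi D S T - 1 + cU D S * tt T) - (ak Ω c + cU D S) * tt T := by
      ring
    rw [e1]
    refine (V.valuation.map_sub _ _).trans (max_le h1 ?_)
    rw [map_mul]
    have ht : V.valuation (tt T) < 1 := by
      by_contra hcon
      rw [not_lt] at hcon
      have := one_le_pow₀ (n := Nm π - 1) hcon
      rw [hr] at this
      exact absurd hV (not_lt.2 this)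
    have hn : Nm π - 1 ≠ 0 := by
      intro hn
      rw [hn, pow_zero] at hr
      rw [← hr] at hV
      exact lt_irrefl _ hV
    have h3 : V.valuation (ak Ω π) ≤ V.valuation (tt T) := by
      rw [← hr]
      exact pow_le_of_le_one zero_le ht.le hn
    calc V.valuation (ak Ω c + cU D S) * V.valuation (tt T) ≤ V.valuation (tt T) * V.valuation (tt T) :=
          mul_le_mul_left (h2.trans h3) _
      _ = V.valuation (tt T) ^ 2 := (sq _).symm
  · obtain ⟨E, hE, hE'⟩ := fin_set h hU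
    refine ⟨E, hE, fun v hv hq T hT h0 => ?_⟩
    obtain ⟨q1, q2, q3, q4, q5, q6, q7⟩ := hE' v hv hq
    have hl := ub10b_tor hd hT
    refine ⟨fun R hR V => ?_, fun R hR V hV => ?_, fun hfix S' hS' => ?_⟩
    · exact Xi_unit h hU hl h0 (tor_nm hR) q5 q6 V
    · obtain ⟨r1, r2⟩ := q7 V hV
      refine Xi_cong h hU r1 r2 hl h0 ?_
      by_cases hR0 : R = 0
      · rw [hR0]
        exact ker_zero V
      · exact (tor_ram h.cma r1 q1 hV hR hR0).1
    · have h1 := Xi_norm h hU q1.ne_zero q2 q3 q4 hS' hl h0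
      rw [hfix] at h1
      have h2 : Xi D S T ≠ 0 := by
        intro h3
        have h4 := hu0 T hT h0 ⊤
        rw [h3, map_zero] at h4
        exact zero_ne_one h4
      exact mul_left_cancel₀ h2 (by rw [h1, mul_one])

end H55K
end
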