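import Mathlib
import Pool.Agent.Lib.H1M.PP.D_H55K_FD
import Pool.Agent.Lib.H1M.PP.D_H55K_RD
import Pool.Agent.Lib.H1M.PP.D_H55P_CStm
import Pool.Agent.Lib.H1M.PP.M002
import Pool.Agent.Lib.H1M.PP.M015
import Pool.Agent.Lib.H1M.PP.M036
import Pool.Agent.Lib.H1M.PP.M041
import Pool.Agent.Lib.H1M.PP.M043
import Pool.Agent.Lib.H1M.PP.M048
import Pool.Agent.Lib.H1M.PP.M053
import Pool.Agent.Lib.H1M.PP.M067
import Pool.Agent.Lib.H1M.PP.M070
import Pool.Agent.Lib.H1M.PP.M071
import Pool.Agent.Lib.H1M.PP.M073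
import Pool.Agent.Lib.H1M.PP.M075
import Pool.Agent.Lib.H1M.PP.M076
import Pool.Agent.Lib.H1M.PP.M078
import Pool.Agent.Lib.H1M.PP.M080
import Pool.Agent.Lib.H1M.PP.M084

/-! Merged copies (to shorten the build) of Lib.H13X.XC2, Lib.H13X.XL1, Lib.H55K.Y10, Lib.H55K.FB8, Lib.H55K.NA7, Lib.H55K.NF, Lib.H13X.XG1, Lib.H55K.FB2, Lib.H55K.Y8, Lib.H55K.FB6B, Lib.H55P.I4, Lib.H55P.I5, Lib.H55K.FB7A, Lib.H55K.FB7B, Lib.H55K.FB7C. -/

-- from Lib.H13X.XC2
section

/-! # H13X: port of H13Y/YC2 -/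

open NumberField IsDedekindDomain WeierstrassCurve

namespace H13X

open H55P (IQ embF eF LF Per IsHecke Pt ac Inert Dec Nm Coc)
open H35P (WAB Ker tt)
open H55K (Tor ak xc yc CMA Dta GV GMod cj cj_cj mul_cj cj_prime cj_dvd cj_nat Nm_cj Nm_mul Nm_nat)
open H55K.S
open H13S (Abv)





variable {F : Type} [Field F] [NumberField F] [IQ F] {A B : F} {Om : ℂ} {Ω : Type} [Field Ω] [DecidableEq Ω]
  [Algebra F Ω] [IsAlgClosure F Ω] {j : Ω →+* ℂ} {act : 𝓞 F →+* AddMonoid.End (Pt (WAB A B) Ω)} {mo : Ideal (𝓞 F)}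
  {ψ : Ideal (𝓞 F) →*₀ 𝓞 F}

variable {π : 𝓞 F} {l : ℕ} {N : IntermediateField F Ω} {V : ValuationSubring Ω} {t : Ω} {e0 : ℕ}

/-- Chunk YC2 (M), PORT of H13Z/LC2.lean, LC3.lean, LC5.lean to the base field N. The inertia elements of RV.exists_inert R.base are in DecN (R.dec). -/
theorem RV.lin (R : RV A B Om j act mo ψ π l N V t e0) {m : Pt (WAB A B) Ω → Ω} (hm : Sys act π l N V m) {T₀ : Pt (WAB A B) Ω}
    (hT : T₀ ∈ Tor act π) {i : ℕ} (hi : 1 ≤ i) {a : Ω} (h : Co act π l N V t i (m T₀) a) (x : 𝓞 F) :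
    Co act π l N V t i (m (act x T₀)) (a * algebraMap F Ω (x : F) ^ i) := by
  by_cases hx : π ∣ x
  · have e0 : act x T₀ = 0 := by
      obtain ⟨k, rfl⟩ := hx
      rw [mul_comm, act_mul, mem_Tor.1 hT, map_zero]
    rw [e0]
    have hT0 : (0 : Pt (WAB A B) Ω) ∈ Tor act π := AddSubgroup.zero_mem _
    have hm0 := hm.ne 0 hT0
    obtain ⟨z, hz, z0, h1⟩ := hm.add 0 hT0 0 hT0
    rw [add_zero] at h1
    have h2 : m 0 * z ^ l = 1 := by
      have h3 : m 0 * (m 0 * z ^ l) = m 0 * 1 := by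
        rw [mul_one, ← mul_assoc]
        exact h1.symm
      exact mul_left_cancel₀ hm0 h3
    have h3 : Co act π l N V t i (m 0) 0 := by
      refine ⟨⟨N.zero_mem, by rw [map_zero]; exact zero_le⟩, z⁻¹, hz.inv, inv_ne_zero z0, ?_⟩
      have e1 : m 0 / z⁻¹ ^ l = 1 := by
        rw [inv_pow, div_inv_eq_mul, h2]
      rw [e1, zero_mul, sub_self, sub_self, map_zero]
      exact zero_le
    have hxV : V.valuation (algebraMap F Ω (x : F)) < 1 := (R.base.vo_lt x).2 hx
    refine R.co_cong h3 (N.mul_mem h.1.1 (pow_mem (N.algebraMap_mem _) i)) ?_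
    rw [zero_sub, Valuation.map_neg, map_mul, map_pow]
    exact (mul_le_of_le_one_left' h.1.2).trans_lt (pow_lt_one₀ zero_le hxV (by omega))
  · obtain ⟨s, hs, hsT⟩ := R.base.exists_inert hx
    obtain ⟨z, hz, z0, h1⟩ := hm.gal s (R.dec hs) T₀ hT
    rw [← hsT T₀ hT, h1]
    exact R.co_act h (R.dec hs) hsT hz z0

theorem RV.pow_add (R : RV A B Om j act mo ψ π l N V t e0) {m : Pt (WAB A B) Ω → Ω} (hm : Sys act π l N V m) {T₀ : Pt (WAB A B) Ω}
    (hT : T₀ ∈ Tor act π) {i : ℕ} (hi : 1 ≤ i) (h2 : i < l * e0) (h3 : ¬ l ∣ i) {a : Ω}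
    (h : Co act π l N V t i (m T₀) a) (ha : V.valuation a = 1) (x y : 𝓞 F) :
    π ∣ (x + y) ^ i - x ^ i - y ^ i := by
  have hx := R.lin hm hT hi h x
  have hy := R.lin hm hT hi h y
  have hxy := R.lin hm hT hi h (x + y)
  obtain ⟨z, hz, z0, h1⟩ := hm.add _ (act_tor hT) _ (act_tor hT)
  have h4 := R.co_mul hi hx hy hz z0
  rw [← h1, ← act_add] at h4
  have h5 := R.co_unique (hm.ne _ (act_tor hT)) hi h2 h3 hxy h4
  have e : a * algebraMap F Ω ((x + y : 𝓞 F) : F) ^ i -
      (a * algebraMap F Ω (x : F) ^ i + a * algebraMap F Ω (y : F) ^ i) =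
      a * algebraMap F Ω (((x + y) ^ i - x ^ i - y ^ i : 𝓞 F) : F) := by
    rw [lc1_sub, lc1_sub, lc1_pow, lc1_pow, lc1_pow]
    ring
  rw [e, map_mul, ha, one_mul] at h5
  exact (R.base.vo_lt _).1 h5

theorem yc2_lt {a : Ω} (ha : V.valuation a < 1) (x : 𝓞 F) (i : ℕ) :
    V.valuation (a * algebraMap F Ω (x : F) ^ i) < 1 := by
  have h1 : V.valuation (algebraMap F Ω (x : F)) ≤ 1 := vo_le V x
  rw [map_mul, map_pow]
  exact (mul_le_of_le_one_right' (pow_le_one' h1 i)).trans_lt ha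

theorem RV.levels (R : RV A B Om j act mo ψ π l N V t e0) {m : Pt (WAB A B) Ω → Ω} (hm : Sys act π l N V m) {n : ℕ}
    (hn : Nm π = l ∧ n = l ∨ Nm π = l ^ 2 ∧ n = l ^ 2 + l - 1)
    (h : ∀ T ∈ Tor act π, Lv act π l N V (V.valuation t ^ 2) (m T)) :
    ∀ T ∈ Tor act π, Lv act π l N V (V.valuation t ^ n) (m T) := by
  have h5 := R.base.D.five
  have hcase := R.base.val_l.2.2.2.2.2
  have hn2 : 2 ≤ n := by
    rcases hn with ⟨-, h1⟩ | ⟨-, h1⟩
    · omega
    · have : l ≤ l ^ 2 := Nat.le_self_pow (by norm_num) l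
      omega
  have key : ∀ i, 2 ≤ i → i ≤ n → ∀ T ∈ Tor act π, Lv act π l N V (V.valuation t ^ i) (m T) := by
    intro i hi2
    induction i, hi2 using Nat.le_induction with
    | base => exact fun _ => h
    | succ i hi ih =>
      intro hin T hT
      have ih' := ih (by omega)
      have hi1 : 1 ≤ i := by omega
      have hie : i < l * e0 := by
        rcases hn with ⟨h1, h2⟩ | ⟨h1, h2⟩
        · rcases hcase with ⟨-, h4⟩ | ⟨h3, -, -⟩
          · rw [h4]
            omega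
          · exfalso
            rw [h1] at h3
            have : l * 1 < l * l := Nat.mul_lt_mul_of_pos_left (by omega) (by omega)
            rw [sq] at h3
            omega
        · rcases hcase with ⟨h3, -⟩ | ⟨-, h4, -⟩
          · exfalso
            rw [h1] at h3
            have : l * 1 < l * l := Nat.mul_lt_mul_of_pos_left (by omega) (by omega)
            rw [sq] at h3
            omega
          · rw [h4, mul_add, mul_one, ← sq]
            omega
      by_cases hli : l ∣ i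
      · obtain ⟨j, rfl⟩ := hli
        have hj : 1 ≤ j := by
          rcases Nat.eq_zero_or_pos j with h6 | h6
          · rw [h6] at hi
            omega
          · exact h6
        exact R.raise_mul (hm.fx T hT) (hm.ne T hT) hj (lt_of_mul_lt_mul_left hie (Nat.zero_le l))
          (ih' T hT)
      · obtain ⟨-, T₀, hT₀, hgen, -⟩ := gi_gen R.base.D.cma π R.base.D.pr
        obtain ⟨a, ha⟩ := R.co_exists (hm.fx T₀ hT₀) (ih' T₀ hT₀)
        by_cases hpa : V.valuation a < 1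
        · obtain ⟨x, rfl⟩ := hgen T hT
          exact R.co_zero (R.lin hm hT₀ hi1 ha x) (yc2_lt hpa x i)
        · exfalso
          have h7 := pow_add_class R.base.D hi1
            (R.pow_add hm hT₀ hi1 hie hli ha (le_antisymm ha.1.2 (not_lt.1 hpa)))
          rcases hn with ⟨h1, h2⟩ | ⟨h1, h2⟩
          · rcases h7 with h8 | ⟨h8, -⟩
            · rw [h1] at h8
              have h9 := Int.le_of_dvd (by omega) h8
              omega
            · rw [h1] at h8
              have : l * 1 < l * l := Nat.mul_lt_mul_of_pos_left (by omega) (by omega)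
              rw [sq] at h8
              omega
          · have hll : l * 5 ≤ l * l := Nat.mul_le_mul_left l h5
            rw [sq] at h1 h2
            rw [h1] at h7
            rcases h7 with h8 | ⟨-, h8⟩
            · obtain ⟨k, hk⟩ := h8
              have hk1 : k = 1 := by
                have e1 : 0 < (i : ℤ) - 1 := by omega
                have e2 : (i : ℤ) - 1 < 2 * (((l * l : ℕ) : ℤ) - 1) := by omega
                have e3 : 0 < ((l * l : ℕ) : ℤ) - 1 := by omega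
                have e4 : 0 < k := by
                  by_contra h9
                  have : (((l * l : ℕ) : ℤ) - 1) * k ≤ 0 :=
                    mul_nonpos_of_nonneg_of_nonpos e3.le (not_lt.1 h9)
                  omega
                have e5 : k < 2 := by
                  by_contra h9
                  have : (((l * l : ℕ) : ℤ) - 1) * 2 ≤ (((l * l : ℕ) : ℤ) - 1) * k :=
                    mul_le_mul_of_nonneg_left (not_lt.1 h9) e3.le
                  omega
                omega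
              rw [hk1, mul_one] at hk
              apply hli
              have : i = l * l := by omega
              rw [this]
              exact dvd_mul_right l l
            · obtain ⟨k, hk⟩ := h8
              have hk1 : k = 0 := by
                have e1 : -(((l * l : ℕ) : ℤ) - 1) < (i : ℤ) - l := by omega
                have e2 : (i : ℤ) - l < ((l * l : ℕ) : ℤ) - 1 := by omega
                have e3 : 0 < ((l * l : ℕ) : ℤ) - 1 := by omega
                have e4 : -1 < k := by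
                  by_contra h9
                  have : (((l * l : ℕ) : ℤ) - 1) * k ≤ (((l * l : ℕ) : ℤ) - 1) * (-1) :=
                    mul_le_mul_of_nonneg_left (not_lt.1 h9) e3.le
                  omega
                have e5 : k < 1 := by
                  by_contra h9
                  have : (((l * l : ℕ) : ℤ) - 1) * 1 ≤ (((l * l : ℕ) : ℤ) - 1) * k :=
                    mul_le_mul_of_nonneg_left (not_lt.1 h9) e3.le
                  omega
                omega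
              rw [hk1, mul_zero] at hk
              apply hli
              have : i = l := by omega
              rw [this]
  exact key n hn2 le_rfl

/-- If the coefficient at T₀ ≠ 0 (a generator) has value < 1 the level is raised for all T (lin, gi_gen / PA1_gen, co_zero). -/
theorem RV.up (R : RV A B Om j act mo ψ π l N V t e0) {m : Pt (WAB A B) Ω → Ω} (hm : Sys act π l N V m) {T₀ : Pt (WAB A B) Ω}
    (hT : T₀ ∈ Tor act π) (h0 : T₀ ≠ 0) {i : ℕ} (hi : 1 ≤ i) {a : Ω} (h : Co act π l N V t i (m T₀) a)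
    (ha : V.valuation a < 1) : ∀ T ∈ Tor act π, Lv act π l N V (V.valuation t ^ (i + 1)) (m T) := by
  intro T hT'
  obtain ⟨x, rfl⟩ := (PA1_gen R.base.D.cma π R.base.D.pr T₀ hT h0).1 T hT'
  exact R.co_zero (R.lin hm hT hi h x) (yc2_lt ha x i)

theorem RV.top (R : RV A B Om j act mo ψ π l N V t e0) {m y : Ω} (hm : Hx act π N V m) (hy : y ^ l = m)
    (h : Lv act π l N V (V.valuation t ^ (l * e0)) m) {s : Ω ≃ₐ[F] Ω} (hs : Inert V s)
    (hT : ∀ T ∈ Tor act π, ac (WAB A B) s T = T) : s y = y := by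
  have hchar : CharZero Ω := charZero_of_injective_algebraMap (algebraMap F Ω).injective
  obtain ⟨z, hz, hz0, hv⟩ := h
  obtain ⟨v1, v2, v3, v4, v5, v6⟩ := R.base.val_l
  have hDT : DT act π N V s := ⟨R.dec hs, hT⟩
  have hsm : s m = m := hm s hDT
  have hsz : s z = z := hz s hDT
  have hst : s t = t := yc1_hx R s hDT
  have h1 := H13Z.fix_eq V R.base.D.hl (by have := R.base.D.five; omega)
    (by rw [v1]; exact R.base.above)
    (τ := t ^ e0) (u := m / z ^ l) (y := y / z) (by rw [map_pow, ← pow_mul]; exact v5)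
    (by rw [div_pow, hy]) (by rw [map_pow, ← pow_mul, mul_comm e0]; exact hv) hs
    (by rw [map_pow, hst]) (by rw [map_div₀, map_pow, hsm, hsz])
  rw [map_div₀, hsz] at h1
  exact (div_left_inj' hz0).1 h1

/-- The quotient of two systems is a system (as in RV.compare, LC4.lean, without act b). -/
theorem Sys.div {m m₁ : Pt (WAB A B) Ω → Ω} (hm : Sys act π l N V m) (hm₁ : Sys act π l N V m₁) :
    Sys act π l N V fun T => m T / m₁ T := by
  refine ⟨fun T hT => div_ne_zero (hm.ne T hT) (hm₁.ne T hT),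
    fun T hT => (hm.fx T hT).div (hm₁.fx T hT), fun T hT T' hT' => ?_, fun s hs T hT => ?_⟩
  · obtain ⟨z, hz, z0, h1⟩ := hm.add T hT T' hT'
    obtain ⟨z', hz', z0', h1'⟩ := hm₁.add T hT T' hT'
    refine ⟨z / z', hz.div hz', div_ne_zero z0 z0', ?_⟩
    show m (T + T') / m₁ (T + T') = m T / m₁ T * (m T' / m₁ T') * (z / z') ^ l
    rw [h1, h1', div_pow]
    have := hm₁.ne T hT
    have := hm₁.ne T' hT'
    have := pow_ne_zero l z0'
    field_simp
  · obtain ⟨z, hz, z0, h1⟩ := hm.gal s hs T hT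
    obtain ⟨z', hz', z0', h1'⟩ := hm₁.gal s hs T hT
    refine ⟨z / z', hz.div hz', div_ne_zero z0 z0', ?_⟩
    show m (ac (WAB A B) s T) / m₁ (ac (WAB A B) s T) = s (m T / m₁ T) * (z / z') ^ l
    have h2 : s (m₁ T) ≠ 0 := by
      rw [Ne, map_eq_zero_iff s s.injective]
      exact hm₁.ne T hT
    rw [h1, h1', div_pow, map_div₀]
    have := pow_ne_zero l z0'
    field_simp

end H13X
end

-- from Lib.H13X.XL1
section

/-! # H13X: port of H13Y/YL1 -/

open NumberField IsDedekindDomain WeierstrassCurve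

namespace H13X

open H55P (IQ embF eF LF Per IsHecke Pt ac Inert Dec Nm Coc)
open H35P (WAB Ker tt)
open H55K (Tor ak xc yc CMA Dta GV GMod cj cj_cj mul_cj cj_prime cj_dvd cj_nat Nm_cj Nm_mul Nm_nat)
open H55K.S
open H13S (Abv)





variable {F : Type} [Field F] [NumberField F] [IQ F] {A B : F} {Om : ℂ} {Ω : Type} [Field Ω] [DecidableEq Ω]
  [Algebra F Ω] [IsAlgClosure F Ω] {j : Ω →+* ℂ} {act : 𝓞 F →+* AddMonoid.End (Pt (WAB A B) Ω)} {mo : Ideal (𝓞 F)}
  {ψ : Ideal (𝓞 F) →*₀ 𝓞 F}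

variable {π : 𝓞 F} {l : ℕ} {N : IntermediateField F Ω} {V : ValuationSubring Ω} {t : Ω} {e0 : ℕ}
  {e : Pt (WAB A B) Ω → Pt (WAB A B) Ω → Ω}

/-- Chunk YL1a (S/M). If all (y T)^l have the level l e0 then c is zero on JV: RV.top, c_zero (JV elements are in DT: R.dec). -/
theorem top_zero (R : RV A B Om j act mo ψ π l N V t e0) (he : Pairing A B act π l e) {c : (Ω ≃ₐ[F] Ω) → Pt (WAB A B) Ω} (hc : Dc act π N V c)
    {y : Pt (WAB A B) Ω → Ω} (hy : KS act π N V e c y)
    (h : ∀ T ∈ Tor act π, Lv act π l N V (V.valuation t ^ (l * e0)) (y T ^ l)) :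
    ∀ s, JV act π V s → c s = 0 := by
  intro s hs
  refine c_zero R.base.D he hc hy ⟨R.dec hs.1, hs.2.1⟩ fun T hT => ?_
  exact R.top ((sys_of R.base.D he hc hy).fx T hT) rfl (h T hT) hs.1 hs.2.1

/-- Chunk YL1b (S/M). Two classes with the same coefficient at T₀ at the level l^2 + l - 1 = l e0 - 1 differ by a class vanishing on JV. hc.sub, ks_sub (YK.lean), sys_of, the system (y T/y₁ T)^l = (y T)^l/(y₁ T)^l (Sys.div or sys_of); its coefficient at T₀ is a - a₁ (co_inv, co_mul with z = 1); RV.up: level l^2 + l (not 0 for T₀: T₀ ≠ 0), top_zero. -/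
theorem same_coef (R : RV A B Om j act mo ψ π l N V t e0) (hin : Tor act (cj π) = Tor act π) (hq : Nm π = l ^ 2) (he : Pairing A B act π l e)
    {c c₁ : (Ω ≃ₐ[F] Ω) → Pt (WAB A B) Ω} (hc : Dc act π N V c) (hc₁ : Dc act π N V c₁) {y y₁ : Pt (WAB A B) Ω → Ω}
    (hy : KS act π N V e c y) (hy₁ : KS act π N V e c₁ y₁) {T₀ : Pt (WAB A B) Ω} (hT : T₀ ∈ Tor act π) (h0 : T₀ ≠ 0)
    {a a₁ : Ω} (ha : Co act π l N V t (l ^ 2 + l - 1) (y T₀ ^ l) a)
    (ha₁ : Co act π l N V t (l ^ 2 + l - 1) (y₁ T₀ ^ l) a₁) (hd : V.valuation (a - a₁) < 1) :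
    ∀ s, JV act π V s → c s - c₁ s = 0 := by
  have D := R.base.D
  have hl5 := D.five
  have he0 : l * e0 = l ^ 2 + l := by
    rcases R.base.val_l.2.2.2.2.2 with h | h
    · exfalso
      have h1 := h.1
      rw [hq] at h1
      nlinarith
    · rw [h.2.1]
      ring
  have hi1 : 1 ≤ l ^ 2 + l - 1 := by
    have : 1 ≤ l ^ 2 := Nat.one_le_pow _ _ (by omega)
    omega
  have hi2 : l ^ 2 + l - 1 + 1 = l ^ 2 + l := by omega
  have hks := ks_sub D he hc hy hc₁ hy₁
  have hm := sys_of D he (hc.sub hc₁) hks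
  have hm₁ := sys_of D he hc₁ hy₁
  have h1 := R.co_mul hi1 ha (R.co_inv (hm₁.ne T₀ hT) hi1 ha₁) Hx.one one_ne_zero
  have e1 : y T₀ ^ l * (y₁ T₀ ^ l)⁻¹ * 1 ^ l = (y T₀ / y₁ T₀) ^ l := by
    rw [div_pow, one_pow, mul_one, div_eq_mul_inv]
  rw [e1, ← sub_eq_add_neg] at h1
  have h2 := R.up hm hT h0 hi1 h1 hd
  rw [hi2, ← he0] at h2
  exact top_zero R he (hc.sub hc₁) hks h2

/-- The inert case: the conjugate of π is associated to π. -/
theorem inert_of (D : Dat A B Om j act mo ψ π l) (hq : Nm π = l ^ 2) :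
    Tor act (cj π) = Tor act π ∧ vo V (cj π) = vo V π := by
  have h5 := D.five
  rcases dichotomy D.hl D.dta.unr D.pr D.dvd with ⟨h, -, -⟩ | ⟨-, -, h, -⟩
  · exact ⟨tor_assoc h, vo_assoc V h (fun x => vo_le V x)⟩
  · exfalso
    rw [h] at hq
    nlinarith

/-- Chunk YL1c (M). The local condition in the inert case over N. cj π = π, V l = V π (R.base.val_l). q, r from R.nb.res V π. T₀ ≠ 0 from gi_gen. For each i: exists_ptu with u = r i (choose: P i, y i); levels: level_ptu and RV.levels, so co_exists gives a i = the coefficient at T₀ of (y i T₀)^l at the level l^2 + l - 1. For i ≠ i' not V (a i - a i') < 1: otherwise same_coef: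
the difference of the classes vanishes on JV, cob_inert (Dc.sub, R.dec) gives X, against pt_diff. c has the coefficient a (sys_of, RV.levels, co_exists). pigeon with S = N: i with V (a - a i) < 1. same_coef: c - c_i vanishes on JV; cob_ram (YCB.lean) with moved_ram: c s - (s P_i - P_i) = s X - X. The point P_i + X. -/
theorem loc_inert (R : RV A B Om j act mo ψ π l N V t e0) (hq : Nm π = l ^ 2) (he : Pairing A B act π l e)
    {c : (Ω ≃ₐ[F] Ω) → Pt (WAB A B) Ω} (hc : Dc act π N V c) {y : Pt (WAB A B) Ω → Ω} (hy : KS act π N V e c y)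
    (h2 : ∀ T ∈ Tor act π, Lv act π l N V (V.valuation t ^ 2) (y T ^ l)) :
    ∃ P : Pt (WAB A B) Ω, ∀ s, DecN N V s → c s = ac (WAB A B) s P - P := by
  have D := R.base.D
  obtain ⟨hin, hvc⟩ := inert_of (V := V) D hq
  have hG := R.base.gv
  have hV : vo V (cj π) < 1 := by
    rw [hvc]
    exact R.base.above
  have hvl : V.valuation (l : Ω) = vo V (cj π) := by
    rw [hvc]
    exact R.base.val_l.1
  obtain ⟨q, f, -, -, -, -, r, hr1, hr2, hr3⟩ := R.nb.res V π D.pr R.base.above R.lt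
  obtain ⟨-, T₀, hT₀, -, hz⟩ := gi_gen R.base.D.cma π D.pr
  have hT₀0 : T₀ ≠ 0 := by
    intro h
    have h1 := (hz 1).1 (by rw [act_one, h])
    exact D.pr.not_isUnit (isUnit_of_dvd_one h1)
  have hpts : ∀ i, ∃ (P : Pt (WAB A B) Ω) (y₁ : Pt (WAB A B) Ω → Ω) (a : Ω),
      Ker V (act (cj π) P) ∧
      V.valuation (tt (act (cj π) P) - l * r i) < V.valuation (l : Ω) ∧
      Dc act π N V (fun s => ac (WAB A B) s P - P) ∧ KS act π N V e (fun s => ac (WAB A B) s P - P) y₁ ∧
      Co act π l N V t (l ^ 2 + l - 1) (y₁ T₀ ^ l) a := by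
    intro i
    obtain ⟨P, B₀, L, y₁, h1, h3, h4, hB, C, hL, hkum, hc₁, hy₁⟩ :=
      exists_ptu D hG he R.nb hV hvl (hr1 i).1 (hr1 i).2
    have hfd := hL.fin
    have hnf : NumberField L := NumberField.of_module_finite F L
    rw [Nm_cj, hvc] at h4
    have hm₁ := sys_of D he hc₁ hy₁
    have hlev := R.levels hm₁ (Or.inr ⟨hq, rfl⟩) (fun T hT =>
      level_ptu R hin hq he hL hB h4 C T hT (y₁ T) (hkum T hT))
    obtain ⟨a, ha⟩ := R.co_exists (hm₁.fx T₀ hT₀) (hlev T₀ hT₀)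
    exact ⟨P, y₁, a, h1, h3, hc₁, hy₁, ha⟩
  choose P y₁ a hK hTt hcD hcK hco using hpts
  have hinj : ∀ i i', i ≠ i' → ¬ V.valuation (a i - a i') < 1 := by
    intro i i' hii hlt
    have h5 := same_coef R hin hq he (hcD i) (hcD i') (hcK i) (hcK i') hT₀ hT₀0 (hco i) (hco i') hlt
    obtain ⟨X, hX, h6⟩ := cob_inert D ((hcD i).sub (hcD i')) (fun s _ hs => h5 s hs)
    exact pt_diff D hG hV hvl (hr1 i).2 (hr1 i').2 (hK i) (hK i') (hTt i) (hTt i') (hr2 i i' hii)
      ⟨X, hX, fun s hs => h6 s (R.dec hs).1 hs⟩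
  have hm := sys_of D he hc hy
  have hlev := R.levels hm (Or.inr ⟨hq, rfl⟩) h2
  obtain ⟨a₀, ha₀⟩ := R.co_exists (hm.fx T₀ hT₀) (hlev T₀ hT₀)
  obtain ⟨i, hi⟩ := H13Y.pigeon V (N : Set Ω) r a (fun x hx hxV => hr3 x hx hxV) (fun i => (hco i).1) hinj
    ha₀.1.1 ha₀.1.2
  have h5 := same_coef R hin hq he hc (hcD i) hy (hcK i) hT₀ hT₀0 ha₀ (hco i) hi
  obtain ⟨X, hX, h6⟩ := cob_ram D (hc.sub (hcD i)) (fun s _ hs => h5 s hs) (by
    obtain ⟨σ, h6, h7⟩ := moved_ram D.cma hG (cj_prime D.pr) (xp_nm D).2 hV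
    exact ⟨σ, (R.dec h6).1, h6, h7⟩)
  refine ⟨P i + X, fun s hs => ?_⟩
  have h7 : c s - (ac (WAB A B) s (P i) - P i) = ac (WAB A B) s X - X := h6 s hs
  rw [map_add, sub_eq_iff_eq_add.1 h7]
  abel

end H13X
end

-- from Lib.H55K.Y10
section

/-! # H55K: the exact criterion for the L-value over K -/

open NumberField IsDedekindDomain WeierstrassCurve

namespace H55K.TQ

open H55P (IQ embF eF LF Per IsHecke Pt ac Inert Dec Nm UnitP)
open H35P (WAB Ker tt GoodW IntW)
open H55K.MG (VC Crd)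

variable {F : Type} [Field F] [NumberField F] [IQ F] {W₀ : WeierstrassCurve (𝓞 F)} {Om : ℂ}
    {m : Ideal (𝓞 F)} {ψ : Ideal (𝓞 F) →*₀ 𝓞 F} {p : ℕ}

theorem y10_cop (hH : BaseH F W₀ Om m ψ) (hp : PrimeH F W₀ p) :
    IsCoprime (Ideal.span {W₀.Δ} * m) (Ideal.span {(p : 𝓞 F)}) := (base_of hH hp).cop

theorem y10_ex (hH : BaseH F W₀ Om m ψ) (hp : PrimeH F W₀ p)
    [NumberField (⊥ : IntermediateField F (AlgebraicClosure F))] :
    ∃ v, H55P.GoodG p W₀ m ψ (⊥ : IntermediateField F (AlgebraicClosure F)) v :=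
  exists_goodG hp.prime hp.five ((unr_iff hp.prime).1 hp.unr) hH.data.hecke W₀ hH.data.ell
    (y10_cop hH hp).of_mul_left_right (fun v hv _ => hH.deu v hv)

/-- The condition at a prime of the bottom field and at the prime of F. -/
theorem y10_loc (hH : BaseH F W₀ Om m ψ) (hp : p.Prime) (v : HeightOneSpectrum (𝓞 F)) :
    ¬ p ∣ Ideal.absNorm (Ideal.span {1 - ψ v.asIdeal}) ↔
      (W₀.Δ ∉ v.asIdeal → ¬ p ∣ Nat.card (W₀⁄(𝓞 F ⧸ v.asIdeal)).toAffine.Point) := by
  by_cases h : W₀.Δ ∈ v.asIdeal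
  · have h1 : m ≤ v.asIdeal := (hH.supp v).1 h
    have h2 : ψ v.asIdeal = 0 := by
      apply hH.data.hecke.zero
      intro hc
      have h3 : v.asIdeal ⊔ m = ⊤ := Ideal.isCoprime_iff_sup_eq.1 hc
      rw [sup_eq_left.2 h1] at h3
      exact v.isPrime.ne_top h3
    have h4 : ¬ p ∣ Ideal.absNorm (Ideal.span {1 - ψ v.asIdeal}) := by
      rw [h2, sub_zero, Ideal.span_singleton_one, Ideal.absNorm_top]
      exact hp.one_lt.ne' ∘ Nat.dvd_one.1
    exact ⟨fun _ hn => absurd h hn, fun _ => h4⟩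
  · have h1 : Nat.card (W₀⁄(𝓞 F ⧸ v.asIdeal)).toAffine.Point =
        Ideal.absNorm (Ideal.span {1 - ψ v.asIdeal}) := hH.deu v h
    rw [h1]
    exact ⟨fun h _ => h, fun hn => hn h⟩

/-- Chunk Y10 (M). H55P.gen_crit (Gen.lean) for M = the bottom field, with exists_goodG (Y7) for the auxiliary prime. The conditions at the primes correspond: y9_up, y9_map, y9_norm, y9_ram (Y9.lean); for a prime v of F with Δ not in v the norm of 1 - ψ(v) is the number of points (deu; Nm x = absNorm (span {x})); for Δ in v: m ≤ v (supp), ψ v = 0 (hecke.zero), the norm of 1 is 1. -/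
theorem gen_val (hH : BaseH F W₀ Om m ψ) (hp : PrimeH F W₀ p) [NumberField (⊥ : IntermediateField F (AlgebraicClosure F))]
    {L K : IntermediateField F (AlgebraicClosure F)} [NumberField K] (hL : H55P.PExt p ⊥ L) (hK : K ≤ L)
    (hU : H55P.UnrP p K) :
    H55P.ValG p Om ψ K ↔ H55P.ValG p Om ψ (⊥ : IntermediateField F (AlgebraicClosure F)) ∧ NoAn p W₀ K := by
  rw [H55P.gen_crit W₀ Om m ψ hH.data p hp.prime hp.five (y10_cop hH hp)
    (⊥ : IntermediateField F (AlgebraicClosure F)) L hL (y10_ex hH hp) K bot_le hK hU]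
  refine and_congr_right fun _ => ?_
  constructor
  · intro h v₀ hr hΔ
    obtain ⟨v, hv⟩ := y9_up (Ω := AlgebraicClosure F) v₀
    have h1 := h v ((y9_ram hv K).2 hr)
    rw [y9_norm hv] at h1
    exact (y10_loc hH hp.prime v₀).1 h1 hΔ
  · intro h v hr
    obtain ⟨v₀, hv, -, -⟩ := H55P.bot_conv W₀ K v
    rw [y9_norm hv]
    exact (y10_loc hH hp.prime v₀).2 (h v₀ ((y9_ram hv K).1 hr))

/-- Chunk Y10 (S). gen_int for M = the bottom field, with exists_goodG (Y7). -/
theorem gen_intK (hH : BaseH F W₀ Om m ψ) (hp : PrimeH F W₀ p) [NumberField (⊥ : IntermediateField F (AlgebraicClosure F))]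
    {L K : IntermediateField F (AlgebraicClosure F)} [NumberField K] (hL : H55P.PExt p ⊥ L) (hK : K ≤ L)
    (hU : H55P.UnrP p K) : H55P.IntG p Om ψ K :=
  H55P.gen_int W₀ Om m ψ hH.data p hp.prime hp.five (y10_cop hH hp)
    (⊥ : IntermediateField F (AlgebraicClosure F)) L hL (y10_ex hH hp) K bot_le hK hU

end H55K.TQ
end

-- from Lib.H55K.FB8
section

/-! # H55K: a ramified anomalous prime -/

open NumberField IsDedekindDomain WeierstrassCurve

namespace H55K.TQ

open H55P (IQ embF eF LF Per IsHecke Pt ac Inert Dec Nm UnitP)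
open H35P (WAB Ker tt GoodW IntW)
open H55K.MG (VC Crd)

variable {F : Type} [Field F] [NumberField F] [IQ F] {W₀ : WeierstrassCurve (𝓞 F)} {Om : ℂ}
    {m : Ideal (𝓞 F)} {ψ : Ideal (𝓞 F) →*₀ 𝓞 F} {p : ℕ}

/-- The conjugate valuation is above p. -/
theorem fb8_above (p : ℕ) (hp : p.Prime) (V : ValuationSubring ℂ) (hV : V.valuation (p : ℂ) < 1) :
    (V.comap (starRingEnd ℂ)).valuation (p : ℂ) < 1 := by
  have h2 : (p : ℂ) ≠ 0 := Nat.cast_ne_zero.2 hp.ne_zero
  have hmem : ∀ z : ℂ, z ∈ V.comap (starRingEnd ℂ) ↔ (starRingEnd ℂ) z ∈ V := fun z => Iff.rfl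
  rw [H55C.B9_lt _ h2, hmem, map_inv₀, map_natCast, ← H55C.B9_lt V h2]
  exact hV

/-- The valuation of the conjugate. -/
theorem fb8_conj (V : ValuationSubring ℂ) {x : ℂ} (hx : x ≠ 0) :
    (V.comap (starRingEnd ℂ)).valuation x = 1 ↔ V.valuation ((starRingEnd ℂ) x) = 1 := by
  have hmem : ∀ z : ℂ, z ∈ V.comap (starRingEnd ℂ) ↔ (starRingEnd ℂ) z ∈ V := fun z => Iff.rfl
  rw [H55C.B9_eq _ hx, H55C.B9_eq _ ((map_ne_zero (starRingEnd ℂ)).2 hx), hmem, hmem, map_inv₀]

/-- Chunk FB8 (M). v ramified in K, Δ not in v, p divides the number of points, so p divides the norm of 1 - ψ(v) =: z: V(z) V(conj z) = V(Nm z) < 1. At one V: H55P.LVP_tower_iff (as in gen_crit, Gen.lean) for M = the bottom field: if V(x) = 1 then V(1 - conj Ψ(v)) = 1; apply it to V and to the conjugate valuation (i5_above; IntG gives V(x) ≤ 1 for all V):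
if V(x) = 1 and V(conj x) = 1 then V(z) = V(conj z) = 1, contradiction (see crit_one in H55P/I8.lean). Otherwise the product is < 1. The auxiliary prime: exists_goodG (Y7), gen_ntp. Φ is the function of IntG. -/
theorem non_K (hH : BaseH F W₀ Om m ψ) (hp : PrimeH F W₀ p) [NumberField (⊥ : IntermediateField F (AlgebraicClosure F))]
    {L K : IntermediateField F (AlgebraicClosure F)} [NumberField K] (hL : H55P.PExt p ⊥ L) (hK : K ≤ L)
    (hU : H55P.UnrP p K) (hN : ¬ NoAn p W₀ K) :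
    ∃ Φ : ℂ → ℂ, AnalyticOnNhd ℂ Φ {s | 1 / 2 < s.re} ∧
      (∀ s : ℂ, 3 / 2 < s.re → HasSum (H55N.tm (H55P.PsiP K ψ) s) (Φ s)) ∧
      ∀ V : ValuationSubring ℂ, V.valuation (p : ℂ) < 1 →
        V.valuation (Φ 1 / Om ^ Module.finrank F K) * V.valuation ((starRingEnd ℂ) (Φ 1 / Om ^ Module.finrank F K)) < 1 := by
  classical
  have hB := base_of hH hp
  have hLf : FiniteDimensional F L := hL.fin
  have hLn : NumberField L := H16C.FR_numberField L
  have hm : IsCoprime m (Ideal.span {(p : 𝓞 F)}) := hB.cop.of_mul_left_right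
  obtain ⟨u₀, hu₀⟩ := exists_goodG hp.prime hp.five hB.unr hH.data.hecke W₀ hH.data.ell hm hB.deu
  unfold NoAn at hN
  push Not at hN
  obtain ⟨v₀, hr, hΔ, hdvd⟩ := hN
  obtain ⟨v, hv⟩ := y9_up (Ω := AlgebraicClosure F) v₀
  have hram := (y9_ram hv K).2 hr
  have hnorm := y9_norm hv
  obtain ⟨Φ, h1, h2, h3⟩ := gen_intK hH hp hL hK hU
  refine ⟨Φ, h1, h2, fun V hV => ?_⟩
  set x : ℂ := Φ 1 / Om ^ Module.finrank F K with hx
  have hV' := fb8_above p hp.prime V hV
  have hx1 : V.valuation x ≤ 1 := (V.valuation_le_one_iff _).2 (h3 V hV)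
  have hx2 : V.valuation ((starRingEnd ℂ) x) ≤ 1 := by
    rw [V.valuation_le_one_iff]
    exact h3 _ hV'
  by_contra hlt
  have hy1 : V.valuation x = 1 := by
    refine le_antisymm hx1 (not_lt.1 fun h => hlt ?_)
    exact mul_lt_one_of_nonneg_of_lt_one_left zero_le h hx2
  have hy2 : V.valuation ((starRingEnd ℂ) x) = 1 := by
    refine le_antisymm hx2 (not_lt.1 fun h => hlt ?_)
    exact mul_lt_one_of_nonneg_of_lt_one_right hx1 zero_le h
  have hx0 : x ≠ 0 := by
    intro h0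
    rw [h0, map_zero] at hy1
    exact zero_ne_one hy1
  have hfac : 1 - (starRingEnd ℂ) (H55P.PsiP (⊥ : IntermediateField F (AlgebraicClosure F)) ψ v.asIdeal) =
      eF F (1 - ψ v₀.asIdeal) := by
    rw [H55P.PsiP_apply, Complex.conj_conj, map_sub, map_one, hnorm]
  have key : ∀ A : ValuationSubring ℂ, A.valuation (p : ℂ) < 1 → A.valuation x = 1 →
      A.valuation (eF F (1 - ψ v₀.asIdeal)) = 1 := by
    intro A hA h
    rw [← hfac]
    exact ((H55P.LVP_tower_iff p hp.prime ⊥ L hL hH.data.hecke hm _ _ Om hH.data.per A hA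
      (H55P.gen_good p hp.prime hp.five W₀ hp.cop A hA)
      (H55P.gen_ntp p hp.prime ⊥ u₀ hu₀ A hA) K bot_le hK hU).1 ⟨Φ, h1, h2, h⟩).2 v hram
  have k1 := key V hV hy1
  have k2 := key _ hV' ((fb8_conj V hx0).2 hy2)
  have hz0 : eF F (1 - ψ v₀.asIdeal) ≠ 0 := by
    intro h0
    rw [h0, map_zero] at k1
    exact zero_ne_one k1
  have k3 := (fb8_conj V hz0).1 k2
  have e1 : eF F (1 - ψ v₀.asIdeal) * (starRingEnd ℂ) (eF F (1 - ψ v₀.asIdeal)) =
      ((Nm (1 - ψ v₀.asIdeal) : ℕ) : ℂ) := by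
    rw [Complex.mul_conj, Complex.normSq_eq_norm_sq, ← H55P.Nm_eq]
    norm_cast
  have k4 : V.valuation ((Nm (1 - ψ v₀.asIdeal) : ℕ) : ℂ) = 1 := by
    rw [← e1, map_mul, k1, k3, one_mul]
  rw [hH.deu v₀ hΔ] at hdvd
  obtain ⟨t, ht⟩ := hdvd
  rw [ht, Nat.cast_mul, map_mul] at k4
  have h5 := mul_lt_one_of_lt_of_le hV (H55P.pt9_nat V t)
  rw [k4] at h5
  exact lt_irrefl _ h5

end H55K.TQ
end

-- from Lib.H55K.NA7
section

/-! # H55K, part N: the Selmer group in p-extensions, bad primes may be ramified -/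

open NumberField IsDedekindDomain WeierstrassCurve

namespace H55K.NB

open H55P (IQ embF eF LF Per IsHecke Pt ac acR Inert Dec Nm UnitP Ram RamF PExt SelG ShaG PtsG clos)
open H35P (WAB Ker tt GoodW IntW)
open H55K.MG (VC Crd)
open H55K.TQ

variable {F : Type} [Field F] [NumberField F] [IQ F] {W₀ : WeierstrassCurve (𝓞 F)} {Om : ℂ}
    {m : Ideal (𝓞 F)} {ψ : Ideal (𝓞 F) →*₀ 𝓞 F} {p : ℕ}

open Classical in
/-- The Galois action on the p-torsion is commutative. -/
theorem comm_tors (hH : BaseH F W₀ Om m ψ) (hp : p.Prime)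
    (s t : AlgebraicClosure F ≃ₐ[F] AlgebraicClosure F) (T : Pt (W₀⁄F) (AlgebraicClosure F)) (hT : p • T = 0) :
    ac (W₀⁄F) s (ac (W₀⁄F) t T) = ac (W₀⁄F) t (ac (W₀⁄F) s T) := by
  obtain ⟨A, hA⟩ : ∃ A : F, A = -(algebraMap (𝓞 F) F W₀.c₄) / 48 := ⟨_, rfl⟩
  obtain ⟨B, hB⟩ : ∃ B : F, B = -(algebraMap (𝓞 F) F W₀.c₆) / 864 := ⟨_, rfl⟩
  have hell := hH.data.ell
  have hd := y3_ne W₀ hA hB hell
  obtain ⟨j, hj⟩ := exists_j F (AlgebraicClosure F)
  have hper : Per F (embF F A) (embF F B) Om := by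
    have e1 : embF F A = -(eF F W₀.c₄) / 48 := by
      rw [hA, map_div₀, map_neg, map_ofNat]
      rfl
    have e2 : embF F B = -(eF F W₀.c₆) / 864 := by
      rw [hB, map_div₀, map_neg, map_ofNat]
      rfl
    rw [e1, e2]
    exact hH.data.per
  obtain ⟨act, hC⟩ := exists_CMA F A B Om j hd hper hj
  have hΔA : (WAB A B).Δ ≠ 0 := by
    have e : (WAB A B).Δ = -16 * (4 * A ^ 3 + 27 * B ^ 2) := by
      unfold WAB WeierstrassCurve.Δ WeierstrassCurve.b₂ WeierstrassCurve.b₄ WeierstrassCurve.b₆ WeierstrassCurve.b₈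
      ring
    rw [e]
    exact mul_ne_zero (by norm_num) hd
  obtain ⟨r, s', t', hVC⟩ := vc_short W₀ hA hB
  have hVC' := vc_map (algebraMap F (AlgebraicClosure F)) hVC
  have hΔ1 : ((WAB A B).map (algebraMap F (AlgebraicClosure F))).Δ ≠ 0 := by
    rw [WeierstrassCurve.map_Δ]
    exact (map_ne_zero _).2 hΔA
  have hΔ2 : ((W₀⁄F).map (algebraMap F (AlgebraicClosure F))).Δ ≠ 0 := by
    have e : (W₀⁄F).Δ = algebraMap (𝓞 F) F W₀.Δ := WeierstrassCurve.map_Δ _ _
    rw [WeierstrassCurve.map_Δ, e]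
    refine (map_ne_zero _).2 fun h1 => hell ?_
    exact (map_eq_zero_iff _ (FaithfulSMul.algebraMap_injective (𝓞 F) F)).1 h1
  obtain ⟨Θ, hΘ⟩ : ∃ Θ : Pt (WAB A B) (AlgebraicClosure F) ≃+ Pt (W₀⁄F) (AlgebraicClosure F),
      Crd (algebraMap F (AlgebraicClosure F) 1) (algebraMap F (AlgebraicClosure F) r)
        (algebraMap F (AlgebraicClosure F) s') (algebraMap F (AlgebraicClosure F) t') Θ := MG.vc_iso hVC' hΔ1 hΔ2
  have hcom : ∀ (g : AlgebraicClosure F ≃ₐ[F] AlgebraicClosure F) (P : Pt (WAB A B) (AlgebraicClosure F)),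
      ac (W₀⁄F) g (Θ P) = Θ (ac (WAB A B) g P) := by
    intro g P
    by_cases hP : P = 0
    · subst hP
      rw [map_zero, map_zero, map_zero, map_zero]
    · obtain ⟨a1, a2, a3⟩ := hΘ P hP
      obtain ⟨b1, b2, b3⟩ := MG.ac_crd (W := WAB A B) g P
      have hP' : ac (WAB A B) g P ≠ 0 := fun h => hP (b3.1 h)
      obtain ⟨c1, c2, c3⟩ := hΘ _ hP'
      obtain ⟨d1, d2, d3⟩ := MG.ac_crd (W := W₀⁄F) g (Θ P)
      have e2 := congrArg g a2
      have e3 := congrArg g a3
      simp only [map_add, map_mul, map_pow, map_one, AlgEquiv.commutes, one_pow, one_mul, mul_one] at e2 e3 c2 c3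
      have f2 : xc (ac (W₀⁄F) g (Θ P)) = xc (Θ (ac (WAB A B) g P)) := by
        rw [d1]
        linear_combination c2 - e2 - b1
      refine pt_ext (fun h => a1 (d3.1 h)) c1 f2 ?_
      rw [d2]
      rw [d1] at f2
      linear_combination c3 - e3 - b2 - (algebraMap F (AlgebraicClosure F) s') * f2
  obtain ⟨T', rfl⟩ := Θ.surjective T
  have hTp : p • T' = 0 := by
    apply Θ.injective
    rw [map_nsmul, hT, map_zero]
  rw [hcom, hcom, hcom, hcom]
  congr 1
  have hmul : ∀ (a b : 𝓞 F) (Q : Pt (WAB A B) (AlgebraicClosure F)), act (a * b) Q = act a (act b Q) := by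
    intro a b Q
    rw [map_mul]
    rfl
  have hp0 : (p : 𝓞 F) ≠ 0 := by exact_mod_cast hp.ne_zero
  have hact : ∀ Q : Pt (WAB A B) (AlgebraicClosure F), act (p : 𝓞 F) Q = p • Q := by
    intro Q
    rw [map_natCast]
    rfl
  obtain ⟨T₀, hT₀, hgen, -, -⟩ := hC.gen (p : 𝓞 F) hp0
  have hT₀' : p • T₀ = 0 := by
    rw [← hact]
    exact hT₀
  have hsc : ∀ g : AlgebraicClosure F ≃ₐ[F] AlgebraicClosure F, ∃ a : 𝓞 F, ∀ Q : Pt (WAB A B) (AlgebraicClosure F),
      p • Q = 0 → ac (WAB A B) g Q = act a Q := by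
    intro g
    obtain ⟨a, ha⟩ := hgen (ac (WAB A B) g T₀) (by
      show act (p : 𝓞 F) _ = 0
      rw [hact, ← map_nsmul, hT₀', map_zero])
    refine ⟨a, fun Q hQ => ?_⟩
    obtain ⟨x, rfl⟩ := hgen Q (by
      show act (p : 𝓞 F) _ = 0
      rw [hact, hQ])
    rw [hC.gal, ha, ← hmul, ← hmul, mul_comm]
  obtain ⟨a, ha⟩ := hsc s
  obtain ⟨b, hb⟩ := hsc t
  have h1 : p • act b T' = 0 := by rw [← map_nsmul, hTp, map_zero]
  have h2 : p • act a T' = 0 := by rw [← map_nsmul, hTp, map_zero]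
  rw [hb T' hTp, ha T' hTp, ha _ h1, hb _ h2, ← hmul, ← hmul, mul_comm]

open Classical in
/-- The tower theorem: the p-Selmer group stays zero in the fields K inside Galois extensions L of F of degree a power of p, if p is
unramified in K and no prime of good reduction with a number of points divisible by p is ramified in K. Bad primes may be ramified. -/
theorem selB (hH : BaseH F W₀ Om m ψ) (hp : PrimeH F W₀ p) {L K : IntermediateField F (AlgebraicClosure F)}
    [NumberField K] (hL : PExt p ⊥ L) (hK : K ≤ L) (hU : H55P.UnrP p K) (hN : NoAn p W₀ K)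
    (hS : SelG p W₀ (⊥ : IntermediateField F (AlgebraicClosure F))) : SelG p W₀ K ∧ ShaG p W₀ K ∧ PtsG p W₀ K := by
  have hLf : FiniteDimensional F L := hL.fin
  have hKf : FiniteDimensional F K := H55P.finDim_of_le hK
  have hMn : NumberField (⊥ : IntermediateField F (AlgebraicClosure F)) := H16C.FR_numberField _
  have hell : (W₀⁄F).IsElliptic := H55P.gen_ell W₀ hH.data.ell
  obtain ⟨v₀, hv₀⟩ : ∃ v, H55P.GoodG p W₀ m ψ (⊥ : IntermediateField F (AlgebraicClosure F)) v := by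
    refine exists_goodG hp.prime hp.five ((unr_iff hp.prime).1 hp.unr) hH.data.hecke W₀ hH.data.ell ?_
      (fun v h _ => hH.deu v h)
    rw [Ideal.isCoprime_iff_sup_eq]
    by_contra hne
    obtain ⟨Q, hQ, hle⟩ := Ideal.exists_le_maximal _ hne
    have hpQ : (p : 𝓞 F) ∈ Q := hle (Ideal.mem_sup_right (Ideal.mem_span_singleton_self _))
    have hp0 : (p : 𝓞 F) ≠ 0 := by exact_mod_cast hp.prime.ne_zero
    have hQ0 : Q ≠ ⊥ := by
      rintro rfl
      exact hp0 ((Ideal.mem_bot).1 hpQ)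
    have hΔ : W₀.Δ ∈ Q := (hH.supp ⟨Q, hQ.isPrime, hQ0⟩).2 (le_sup_left.trans hle)
    obtain ⟨x, hx, y, hy, hxy⟩ := Ideal.isCoprime_iff_exists.1 hp.cop
    have h1 : x ∈ Q := (Ideal.span_singleton_le_iff_mem _).2 hΔ hx
    have h2 : y ∈ Q := (Ideal.span_singleton_le_iff_mem _).2 hpQ hy
    exact hQ.ne_top ((Ideal.eq_top_iff_one _).2 (hxy ▸ Q.add_mem h1 h2))
  have hC' := H55P.clos_pext p hp.prime ⊥ K L hL bot_le hK
  have h0 : ∀ T : Pt (W₀⁄F) (AlgebraicClosure F), p • T = 0 →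
      (∀ s ∈ (⊥ : IntermediateField F (AlgebraicClosure F)).fixingSubgroup, ac (W₀⁄F) s T = T) → T = 0 := fun T hT hf =>
    H55P.tors_of_prime W₀ p hp.prime ⊥ v₀ hv₀.disc hv₀.res hv₀.pts T hT hf
  have hSK : H55P.SelZero (W₀⁄F) p K := sel_towerB W₀ p hp.prime ⊥ (clos ⊥ K) hC' h0
    (fun s _ t _ T hT => comm_tors hH hp.prime s t T hT)
    (fun v hv => by
      have hv' := H55P.clos_ram ⊥ K L bot_le hK hL.norm v hv
      obtain ⟨v₁, h1, h2, h3⟩ := H55P.bot_conv W₀ (⊥ : IntermediateField F (AlgebraicClosure F)) v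
      have hr : RamF K v₁.asIdeal := (y9_ram h1 K).1 hv'
      have hpv : (p : 𝓞 F) ∉ v₁.asIdeal := y9_unr K hU hr
      refine ⟨fun h => hpv ((h1 _).2 (by rwa [map_natCast])), ?_⟩
      by_cases hΔ : W₀.Δ ∈ v₁.asIdeal
      · right
        intro V hV T hT hf
        refine bad_tors hH hp hL (H55P.clos_le ⊥ K L hK hL.norm) (V := V) (v := v₁) (fun a ha => ?_) hΔ T hT hf
        exact (hV _).1 ((h1 a).1 ha)
      · left
        refine ⟨fun h => hΔ ((h1 _).2 h), ?_⟩
        rw [h3]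
        exact hN v₁ hr hΔ) hS K bot_le (H55P.le_clos ⊥ K)
  exact ⟨hSK, H55P.sha_zero (W₀⁄F) p hp.prime K hSK, H55P.pts_fin (W₀⁄F) p hp.prime K hSK⟩

end H55K.NB
end

-- from Lib.H55K.NF
section

/-! # H55K: interface: Selmer groups over the tower (part N) -/

open NumberField IsDedekindDomain WeierstrassCurve

namespace H55K.TQ

open H55P (IQ embF eF LF Per IsHecke Pt ac Inert Dec Nm UnitP)

variable {F : Type} [Field F] [NumberField F] [IQ F] {W₀ : WeierstrassCurve (𝓞 F)} {Om : ℂ}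
    {m : Ideal (𝓞 F)} {ψ : Ideal (𝓞 F) →*₀ 𝓞 F} {p : ℕ}

/-- Part N (helper99). -/
theorem sel_all (hH : BaseH F W₀ Om m ψ) (hp : PrimeH F W₀ p) {L K : IntermediateField F (AlgebraicClosure F)}
    [NumberField K] (hL : H55P.PExt p ⊥ L) (hK : K ≤ L) (hU : H55P.UnrP p K) (hN : NoAn p W₀ K)
    (h0 : H55P.SelG p W₀ (⊥ : IntermediateField F (AlgebraicClosure F))) :
    H55P.SelG p W₀ K ∧ H55P.ShaG p W₀ K ∧ H55P.PtsG p W₀ K :=
  NB.selB hH hp hL hK hU hN h0

end H55K.TQ
end

-- from Lib.H13X.XG1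
section

/-! # H13X: port of H13Y/G1 -/

open NumberField IsDedekindDomain WeierstrassCurve

namespace H13X

open H55P (IQ embF eF LF Per IsHecke Pt ac Inert Dec Nm Coc)
open H35P (WAB Ker tt)
open H55K (Tor ak xc yc CMA Dta GV GMod cj cj_cj mul_cj cj_prime cj_dvd cj_nat Nm_cj Nm_mul Nm_nat)
open H55K.S
open H13S (Abv)





variable {F : Type} [Field F] [NumberField F] [IQ F] {A B : F} {Om : ℂ} {Ω : Type} [Field Ω] [DecidableEq Ω]
  [Algebra F Ω] [IsAlgClosure F Ω] {j : Ω →+* ℂ} {act : 𝓞 F →+* AddMonoid.End (Pt (WAB A B) Ω)} {mo : Ideal (𝓞 F)}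
  {ψ : Ideal (𝓞 F) →*₀ 𝓞 F}

/-- The parameter of a nonzero point killed by pi is a uniformizer of L at the places above pi. -/
theorem yg1_unif {π : 𝓞 F} {l : ℕ} (D : Dat A B Om j act mo ψ π l) {N L : IntermediateField F Ω} [NumberField L]
    (hN : Nb l N) (hL : IsTB act π N L) {V : ValuationSubring Ω} (hV : vo V π < 1) {T₀ : Pt (WAB A B) Ω}
    (hT₀ : T₀ ∈ Tor act π) (hT₀0 : T₀ ≠ 0) : ∃ (tL : L) (W : HeightOneSpectrum (𝓞 L)),
      (tL : Ω) = tt T₀ ∧ Abv L V W ∧ W.valuation L tL = WithZero.exp (-1 : ℤ) := by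
  obtain ⟨e0, R⟩ : ∃ e0 : ℕ, RV A B Om j act mo ψ π l N V (tt T₀) e0 := by
    have hl5 := D.five
    rcases H55K.S.dichotomy D.hl D.dta.unr D.pr D.dvd with ⟨hin, hq, -⟩ | ⟨hnd, -, hq, -⟩
    · exact ⟨l + 1, ⟨D, hV, ⟨T₀, hT₀, hT₀0, rfl⟩, by
        rw [hq]
        obtain ⟨k, rfl⟩ : ∃ k, l = k + 1 := ⟨l - 1, by omega⟩
        rw [Nat.add_sub_cancel]
        have : (k + 1) ^ 2 = (k + 1 + 1) * k + 1 := by ring
        omega⟩, hN⟩
    · exact ⟨1, ⟨D, hV, ⟨T₀, hT₀, hT₀0, rfl⟩, by rw [hq, one_mul]⟩, hN⟩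
  obtain ⟨-, -, ht1, ht0, -, -⟩ := R.base.val_l
  have htne : tt T₀ ≠ 0 := (Valuation.ne_zero_iff _).1 ht0
  have htL : tt T₀ ∈ L := by
    apply ku2_mem
    intro s hs
    rw [← tt_ac, ((hL.fix s).1 hs).2 _ hT₀]
  obtain ⟨tL, htL'⟩ : ∃ tL : L, (tL : Ω) = tt T₀ := ⟨⟨tt T₀, htL⟩, rfl⟩
  obtain ⟨w, hw⟩ := H13S.exists_below L V ⟨tL⁻¹, by
    rw [← V.valuation_le_one_iff]
    push_cast
    rw [htL', map_inv₀, not_le]
    exact (one_lt_inv₀ (zero_lt_iff.2 ht0)).2 ht1⟩
  refine ⟨tL, w, htL', hw, ?_⟩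
  have htL0 : tL ≠ 0 := by
    rintro rfl
    exact htne (by rw [← htL']; simp)
  have hwt0 : w.valuation L tL ≠ 0 := (Valuation.ne_zero_iff _).2 htL0
  obtain ⟨j, hj⟩ : ∃ j : ℤ, w.valuation L tL = WithZero.exp j :=
    ⟨WithZero.log (w.valuation L tL), (WithZero.exp_log hwt0).symm⟩
  have hj1 : j < 0 := by
    have h1 : w.valuation L tL < 1 := by
      rw [← hw.lt, htL']
      exact ht1
    rw [hj, ← WithZero.exp_zero, WithZero.exp_lt_exp] at h1
    exact h1
  obtain ⟨u, hu⟩ := w.valuation_exists_uniformizer L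
  have hu' : w.valuation L u = WithZero.exp (-1 : ℤ) := hu
  have hu0 : u ≠ 0 := by
    rintro rfl
    rw [map_zero] at hu'
    exact WithZero.exp_ne_zero hu'.symm
  have hHx : Hx act π N V (u : Ω) := by
    intro s hs
    have h1 : s ∈ L.fixingSubgroup := (hL.fix s).2 ⟨hs.1.1, hs.2⟩
    exact (IntermediateField.mem_fixingSubgroup_iff L _).1 h1 u u.2
  obtain ⟨n, hn⟩ := R.values hHx (by exact_mod_cast hu0)
  have hzc : ((tL ^ n : L) : Ω) = tt T₀ ^ n := by
    rw [← htL']
    exact map_zpow₀ (algebraMap L Ω) tL n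
  have h2 : w.valuation L u = w.valuation L (tL ^ n) := by
    have h3 : V.valuation (u : Ω) = V.valuation ((tL ^ n : L) : Ω) := by
      rw [hzc, map_zpow₀]
      exact hn
    exact le_antisymm ((hw.le _ _).1 h3.le) ((hw.le _ _).1 h3.ge)
  rw [hu', map_zpow₀, hj, ← WithZero.exp_zsmul, WithZero.exp_inj, smul_eq_mul] at h2
  have hjm : j = -1 := by
    have h4 : j ∣ -1 := ⟨n, by rw [h2]; ring⟩
    have h5 : IsUnit j := Int.isUnit_iff.2 (by
      have h6 : j ∣ 1 := (dvd_neg).1 h4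
      have h7 := Int.isUnit_iff.1 (isUnit_of_dvd_one h6)
      exact h7)
    rcases Int.isUnit_iff.1 h5 with h6 | h6 <;> omega
  rw [hj, hjm]

/-- Chunk YG1 (M). From GN to the class. cocycle_of_m: c, y T (choose; 1 outside Tor π) with y^l = m T * z^l. If V contains L then all elements of Ω are in V (H55P.s13_top or integral closure), V = ⊤, all values of nonzero elements are 1: out clear, vo V π < 1 impossible.
Otherwise W = the prime of L below V (H13S.exists_below, Abv). out: G.out with V, W: l | ord W (m T), so W (m T) = W x^l with x in L (a power of a uniformizer, valuation_exists_uniformizer; ord: H55R/Defs), V (y T)^l = V (x z)^l, so V (y T) = V (x z).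
lev: t = tt T₀ is in L (fixed by L.fixingSubgroup: ku2_mem as in H13Z/LV.lean), RV A B Om j act mo ψ π l N V t e0 (e0 = (Nm π - 1)/(l - 1): see H13Z/FZ4 or dichotomy), elements of L are in Hx act π N V (DT elements are in L.fixingSubgroup: hL.fix), RV.values: values of elements of L are powers of V t, so W t = exp(-1) (as in level_pt of H13Z/LV.lean: hjm); G.lev for W (W π < 1 by Abv.lt): W ≤ exp(-2) = W t^2, Abv.le.
nz: G.nz gives T; if z in L, z^l = y T^l = m T z'^l then m T = (z/z')^l. -/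
theorem exists_gl {π : 𝓞 F} {l : ℕ} (D : Dat A B Om j act mo ψ π l) {e : Pt (WAB A B) Ω → Pt (WAB A B) Ω → Ω} (he : Pairing A B act π l e)
    {N L : IntermediateField F Ω} [NumberField N] [NumberField L] (hN : Nb l N) (hL : IsTB act π N L)
    {w : HeightOneSpectrum (𝓞 N)} (hl : (l : 𝓞 N) ∉ w.asIdeal)
    (hfx : ∀ V : ValuationSubring Ω, Abv N V w → ∀ s, DecN N V s → ∀ T ∈ Tor act π, ac (WAB A B) s T = T)
    {m : Pt (WAB A B) Ω → (L)ˣ} (G : GN act π l N L w m) :
    ∃ (c : (Ω ≃ₐ[F] Ω) → Pt (WAB A B) Ω) (y : Pt (WAB A B) Ω → Ω), Gl A B Om j act mo ψ π l e N L w c y := by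
  classical
  have hac : IsAlgClosed Ω := IsAlgClosure.isAlgClosed F
  have halg : Algebra.IsAlgebraic F Ω := IsAlgClosure.isAlgebraic
  have hch : CharZero Ω := charZero_of_injective_algebraMap (algebraMap F Ω).injective
  have hl0 : l ≠ 0 := D.hl.ne_zero
  obtain ⟨c, hc, hy⟩ := cocycle_of_m D he hL m G.add G.gal
  have hy' : ∀ T, ∃ y : Ω, T ∈ Tor act π → (Kum L e c T y ∧
      ∃ z : (L)ˣ, y ^ l = ((m T * z ^ l : (L)ˣ) : L)) := by
    intro T
    by_cases hT : T ∈ Tor act π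
    · obtain ⟨y, h1, h2⟩ := hy T hT
      exact ⟨y, fun _ => ⟨h1, h2⟩⟩
    · exact ⟨1, fun h => absurd h hT⟩
  choose y hy using hy'
  have hcoe : ∀ a b : (L)ˣ, (((a * b ^ l : (L)ˣ) : L) : Ω) = ((a : L) : Ω) * ((b : L) : Ω) ^ l := by
    intro a b
    push_cast
    rfl
  refine ⟨c, y, { D := D, nb := hN, wl := hl, fx := hfx, tb := hL, cc := hc,
                  kum := fun T hT => (hy T hT).1, out := ?_, lev := ?_, nz := ?_ }⟩
  · intro V hV T hT
    obtain ⟨hk, z, hz⟩ := hy T hT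
    have hy0 : y T ≠ 0 := hk.1
    by_cases hLV : ∃ x : L, (x : Ω) ∉ V
    · obtain ⟨W, hW⟩ := H13S.exists_below L V hLV
      obtain ⟨k, hk⟩ := G.out T hT V W hW hV
      obtain ⟨u, hu⟩ := H55R.HB1_pi W
      refine ⟨(((u ^ k * z : (L)ˣ) : L) : Ω), ((u ^ k * z : (L)ˣ) : L).2, ?_, ?_⟩
      · intro h
        exact (u ^ k * z).ne_zero (by exact_mod_cast h)
      · have h1 : W.valuation L (((u ^ k : (L)ˣ) : L) ^ l) = W.valuation L ((m T : (L)ˣ) : L) := by
          rw [H55R.BF1_val, hk, map_pow, H55R.BF1_val, H55R.ord_zpow, hu, mul_one,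
            ← WithZero.exp_nsmul]
          congr 1
          rw [nsmul_eq_mul]
          ring
        have h2 := le_antisymm ((hW.le _ _).2 h1.le) ((hW.le _ _).2 h1.ge)
        have h3 : V.valuation (y T) ^ l = V.valuation (((u ^ k * z : (L)ˣ) : L) : Ω) ^ l := by
          rw [← map_pow, ← map_pow, hz, hcoe, map_mul, ← h2, ← map_mul]
          congr 1
          push_cast
          rw [mul_pow]
        exact (pow_left_inj₀ zero_le zero_le hl0).1 h3
    · push Not at hLV
      have htop : ∀ x : Ω, x ∈ V := H55P.s13_top L V (by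
        intro x hx
        have hx0 : ((x : L) : Ω) ≠ 0 := by
          intro h
          apply hx
          have h1 : (x : L) = 0 := by exact_mod_cast h
          exact RingOfIntegers.coe_injective (h1.trans (map_zero _).symm)
        have h1 := (V.valuation_le_one_iff _).2 (hLV (x : L))
        have h2 := (V.valuation_le_one_iff _).2 (hLV ((x : L)⁻¹))
        have e : (((x : L)⁻¹ : L) : Ω) = ((x : L) : Ω)⁻¹ := rfl
        rw [e, map_inv₀, inv_le_one₀ (zero_lt_iff.2 ((map_ne_zero _).2 hx0))] at h2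
        exact le_antisymm h1 h2)
      refine ⟨1, one_mem L, one_ne_zero, ?_⟩
      rw [map_one]
      have h1 := (V.valuation_le_one_iff _).2 (htop (y T))
      have h2 := (V.valuation_le_one_iff _).2 (htop ((y T)⁻¹))
      rw [map_inv₀, inv_le_one₀ (zero_lt_iff.2 ((map_ne_zero _).2 hy0))] at h2
      exact le_antisymm h1 h2
  · intro V hV T hT T₀ hT₀ hT₀0
    obtain ⟨hk, z, hz⟩ := hy T hT
    obtain ⟨tL, W, htL, hW, hWt⟩ := yg1_unif D hN hL hV hT₀ hT₀0
    have hWπ : W.valuation L (algebraMap F L (π : F)) < 1 := by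
      rw [← hW.lt]
      exact hV
    obtain ⟨z', hz'⟩ := G.lev T hT W hWπ
    refine ⟨(((z' * z : (L)ˣ) : L) : Ω), ((z' * z : (L)ˣ) : L).2, ?_, ?_⟩
    · intro h
      exact (z' * z).ne_zero (by exact_mod_cast h)
    · have hz0 : ((z : L) : Ω) ≠ 0 := by
        intro h
        exact z.ne_zero (by exact_mod_cast h)
      have hz'0 : ((z' : L) : Ω) ≠ 0 := by
        intro h
        exact z'.ne_zero (by exact_mod_cast h)
      have e1 : y T ^ l / (((z' * z : (L)ˣ) : L) : Ω) ^ l - 1 =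
          ((((m T * (z' ^ l)⁻¹ : (L)ˣ) : L) - 1 : L) : Ω) := by
        rw [hz, hcoe]
        push_cast
        field_simp
        ring
      have e2 : V.valuation (tt T₀) ^ 2 = V.valuation ((tL ^ 2 : L) : Ω) := by
        push_cast
        rw [htL, map_pow]
      rw [e1, e2, hW.le, map_pow, hWt, ← WithZero.exp_nsmul]
      refine hz'.trans ?_
      rw [WithZero.exp_le_exp]
      norm_num
  · obtain ⟨T, hT, hT1⟩ := G.nz
    refine ⟨T, hT, fun x hx hxy => ?_⟩
    obtain ⟨hk, z, hz⟩ := hy T hT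
    have hx0 : x ≠ 0 := by
      rintro rfl
      rw [zero_pow hl0] at hxy
      exact pow_ne_zero l hk.1 hxy.symm
    obtain ⟨xL, hxL⟩ : ∃ xL : L, (xL : Ω) = x := ⟨⟨x, hx⟩, rfl⟩
    have hxL0 : xL ≠ 0 := by
      rintro rfl
      exact hx0 (by rw [← hxL]; simp)
    apply hT1 (Units.mk0 xL hxL0 * z⁻¹)
    have h1 : ((xL ^ l : L) : Ω) = (((m T * z ^ l : (L)ˣ) : L) : Ω) := by
      rw [← hz, ← hxy, ← hxL]
      push_cast
      rfl
    have h2 : xL ^ l = ((m T * z ^ l : (L)ˣ) : L) := Subtype.val_injective h1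
    have h3 : Units.mk0 xL hxL0 ^ l = m T * z ^ l := by
      ext
      push_cast
      rw [Units.val_mk0]
      have h4 := congrArg (fun t : L => (t : Ω)) h2
      push_cast at h4
      exact h4
    rw [mul_pow, inv_pow, h3, mul_inv_cancel_right]

end H13X
end

-- from Lib.H55K.FB2
section

/-! # H55K: the Galois closure as an abstract field -/

open NumberField IsDedekindDomain WeierstrassCurve

namespace H55K.TQ

open H55P (IQ embF eF LF Per IsHecke Pt ac Inert Dec Nm UnitP)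
open H35P (WAB Ker tt GoodW IntW)
open H55K.MG (VC Crd)

variable {F : Type} [Field F] [NumberField F] {W₀ : WeierstrassCurve (𝓞 F)} {p : ℕ}

/-- Chunk FB2 (S). Ramification in a subfield: the prime P of K with v.map ≤ P^2 has a prime of L above it (Ideal.exists_ideal_over..), and P^2 maps into its square. -/
theorem ramF_up {F : Type} [Field F] [NumberField F] {Ω : Type} [Field Ω] [Algebra F Ω] {K L : IntermediateField F Ω}
    [NumberField K] [NumberField L] (h : K ≤ L) (v : HeightOneSpectrum (𝓞 F)) (hv : H55P.RamF K v.asIdeal) :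
    H55P.RamF L v.asIdeal := by
  obtain ⟨P, hP, hr⟩ := hv
  letI : Algebra K L := (IntermediateField.inclusion h).toRingHom.toAlgebra
  have hinj : Function.Injective (algebraMap (𝓞 K) (𝓞 L)) := by
    intro a b hab
    have h1 : algebraMap K L (a : K) = algebraMap K L (b : K) := congrArg (fun z : 𝓞 L => (z : L)) hab
    exact RingOfIntegers.ext ((algebraMap K L).injective h1)
  obtain ⟨Q, hQ, hQP⟩ := Ideal.exists_ideal_over_prime_of_isIntegral_of_isDomain (S := 𝓞 L) P
    (by rw [(RingHom.injective_iff_ker_eq_bot _).1 hinj]; exact bot_le)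
  refine ⟨Q, hQ, ?_⟩
  rw [Ideal.map_le_iff_le_comap]
  intro x hx
  rw [Ideal.mem_comap]
  have h1 : algebraMap (𝓞 F) (𝓞 K) x ∈ P ^ 2 := hr (Ideal.mem_map_of_mem _ hx)
  have h2 : algebraMap (𝓞 K) (𝓞 L) (algebraMap (𝓞 F) (𝓞 K) x) ∈ (P ^ 2).map (algebraMap (𝓞 K) (𝓞 L)) :=
    Ideal.mem_map_of_mem _ h1
  have h3 : (P ^ 2).map (algebraMap (𝓞 K) (𝓞 L)) ≤ Q ^ 2 := by
    rw [Ideal.map_pow]
    refine Ideal.pow_right_mono ?_ 2
    rw [Ideal.map_le_iff_le_comap, hQP]
  exact h3 h2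

/-- Chunk FB2 (M). Port of H55P.extP_clos, inP_of (H55P/I7.lean): L'' = clos ⊥ (KG F K ι) ≤ L, Galois over F of degree a power of p (clos_pext), UnrP by UnrP.down from L, ramified only at primes ramified in KG F K ι (clos_ram, bottom field: Y9.lean y9_up, y9_ram instead of bot_conv). -/
theorem inPF_of [IQ F] (hp : p.Prime) (K : Type) [Field K] [NumberField K]
    (ι : K →ₐ[ℚ] AlgebraicClosure F) (L : IntermediateField F (AlgebraicClosure F)) [NumberField L] (hL : H55P.PExt p ⊥ L)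
    (hU : H55P.UnrP p L) (hKL : KG F K ι ≤ L) (h : NoAn p W₀ (KG F K ι)) : InPF W₀ p K := by
  have hLf : FiniteDimensional F L := hL.fin
  have hC := H55P.clos_pext p hp ⊥ (KG F K ι) L hL bot_le hKL
  have hCf : FiniteDimensional F (H55P.clos (⊥ : IntermediateField F (AlgebraicClosure F)) (KG F K ι)) := hC.fin
  have hCn : NumberField (H55P.clos (⊥ : IntermediateField F (AlgebraicClosure F)) (KG F K ι)) :=
    H16C.FR_numberField _
  have hbn : NumberField (⊥ : IntermediateField F (AlgebraicClosure F)) := H16C.FR_numberField _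
  have hCL : H55P.clos (⊥ : IntermediateField F (AlgebraicClosure F)) (KG F K ι) ≤ L :=
    H55P.clos_le ⊥ (KG F K ι) L hKL hL.norm
  let f : K →+* H55P.clos (⊥ : IntermediateField F (AlgebraicClosure F)) (KG F K ι) :=
    (IntermediateField.inclusion (H55P.le_clos (⊥ : IntermediateField F (AlgebraicClosure F)) (KG F K ι))).toRingHom.comp
      (KGmap F K ι)
  refine ⟨H55P.clos (⊥ : IntermediateField F (AlgebraicClosure F)) (KG F K ι), inferInstance, hCn, inferInstance,
    f.toAlgebra, ?_, ?_, ?_, ?_⟩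
  · have hnorm : Normal F (H55P.clos (⊥ : IntermediateField F (AlgebraicClosure F)) (KG F K ι)) := by
      rw [IntermediateField.normal_iff_forall_map_le']
      rintro s _ ⟨x, hx, rfl⟩
      have hs : s ∈ (⊥ : IntermediateField F (AlgebraicClosure F)).fixingSubgroup := by
        rw [IntermediateField.fixingSubgroup_bot]
        exact Subgroup.mem_top s
      exact hC.norm s hs x hx
    exact ⟨⟩
  · obtain ⟨k, hk⟩ := hC.deg
    rw [IntermediateField.finrank_bot, one_mul] at hk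
    exact ⟨k, hk⟩
  · letI : Algebra (H55P.clos (⊥ : IntermediateField F (AlgebraicClosure F)) (KG F K ι)) L :=
      (IntermediateField.inclusion hCL).toRingHom.toAlgebra
    exact H55P.UnrP.down _ L p hp hU
  · intro w v hv hΔ hcard
    by_contra he
    have hl : w.asIdeal.LiesOver v.asIdeal := ⟨hv⟩
    have hWp := w.isPrime
    have hr : H55P.RamF (H55P.clos (⊥ : IntermediateField F (AlgebraicClosure F)) (KG F K ι)) v.asIdeal := by
      refine ⟨w.asIdeal, hWp, ?_⟩
      rw [Ideal.map_le_iff_le_comap]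
      intro x hx
      exact H55P.s13_le_sq v.asIdeal v.ne_bot w.asIdeal he x hx
    obtain ⟨v', h1⟩ := y9_up (Ω := AlgebraicClosure F) v
    have h3 : H55P.Ram (⊥ : IntermediateField F (AlgebraicClosure F)) (KG F K ι) v'.asIdeal :=
      H55P.clos_ram ⊥ (KG F K ι) L bot_le hKL hL.norm v' ((y9_ram h1 _).2 hr)
    exact h v ((y9_ram h1 _).1 h3) hΔ hcard

end H55K.TQ
end

-- from Lib.H55K.Y8
section

/-! # H55K: the base theorem -/

open NumberField IsDedekindDomain WeierstrassCurve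

namespace H55K

open H55P (IQ embF eF LF Per IsHecke Pt ac Inert Dec Nm CMData)
open H35P (WAB Ker tt)

variable {F : Type} [Field F] [NumberField F] [IQ F] {W₀ : WeierstrassCurve (𝓞 F)} {Om : ℂ}
    {m : Ideal (𝓞 F)} {ψ : Ideal (𝓞 F) →*₀ 𝓞 F} {p : ℕ}

/-- THE BASE THEOREM. If the value of the L-function at 1, divided by the period, is a p-adic unit then the p-Selmer group over F is
zero. -/
theorem base_main (hB : Base F W₀ Om m ψ p) [NumberField (⊥ : IntermediateField F (AlgebraicClosure F))]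
    (hL : H55P.ValG p Om ψ (⊥ : IntermediateField F (AlgebraicClosure F))) :
    H55P.SelG p W₀ (⊥ : IntermediateField F (AlgebraicClosure F)) := by
  classical
  obtain ⟨j, hj⟩ := exists_j F (AlgebraicClosure F)
  obtain ⟨A, hA⟩ : ∃ A : F, A = -(algebraMap (𝓞 F) F W₀.c₄) / 48 := ⟨_, rfl⟩
  obtain ⟨B, hB'⟩ : ∃ B : F, B = -(algebraMap (𝓞 F) F W₀.c₆) / 864 := ⟨_, rfl⟩
  have hd := y3_ne W₀ hA hB' hB.data.ell
  have hper : Per F (embF F A) (embF F B) Om := by
    have e1 : embF F A = -(eF F W₀.c₄) / 48 := by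
      rw [hA, map_div₀, map_neg, map_ofNat]
      rfl
    have e2 : embF F B = -(eF F W₀.c₆) / 864 := by
      rw [hB', map_div₀, map_neg, map_ofNat]
      rfl
    rw [e1, e2]
    exact hB.data.per
  obtain ⟨act, hact⟩ := exists_CMA F A B Om j hd hper hj
  have hG : ∀ V : ValuationSubring (AlgebraicClosure F),
      ∃ (Kg : AddSubgroup (Pt (WAB A B) (AlgebraicClosure F))) (u : AlgebraicClosure F),
        GMod (WAB A B) V Kg u := fun V => exists_gmod hd (y3_j W₀ hA hB' hB.jint) V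
  have hD : Dta A B Om j act m ψ p := mk_Dta hB hA hB' hact hG
  obtain ⟨Λ, hΛ⟩ := LU_of hL
  have h1 : H55P.SelZero (WAB A B) p (⊥ : IntermediateField F (AlgebraicClosure F)) :=
    selzero_xi hD fun π hπ hd => exists_XiD hD hΛ hπ hd
  exact sel_short W₀ hA hB' hB.data.ell p ⊥ h1

end H55K
end

-- from Lib.H55K.FB6B
section

/-! # H55K: the analytic part over K and the Hecke L-value -/

open NumberField IsDedekindDomain WeierstrassCurve

namespace H55K.TQ

open H55P (IQ embF eF LF Per IsHecke Pt ac Inert Dec Nm UnitP)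
open H35P (WAB Ker tt GoodW IntW)
open H55K.MG (VC Crd)

variable {F : Type} [Field F] [NumberField F] [IQ F] {W : WeierstrassCurve ℤ} {Om : ℂ}
    {m : Ideal (𝓞 F)} {ψ : Ideal (𝓞 F) →*₀ 𝓞 F} {p : ℕ}

/-- The value at 1 of an L-series with integral coefficients is real. -/
theorem fb6b_real (K : Type) [Field K] [NumberField K] {Φ : ℂ → ℂ} (hΦa : AnalyticOnNhd ℂ Φ {s | 1 / 2 < s.re})
    (hser : ∀ s : ℂ, 3 / 2 < s.re → LSeriesHasSum (fun n => (((W⁄K).LFunction n : ℤ) : ℂ)) s (Φ s)) :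
    (starRingEnd ℂ) (Φ 1) = Φ 1 := by
  have h := H55N.TW1_ident (1 / 2) Φ (fun z => (starRingEnd ℂ) (Φ ((starRingEnd ℂ) z))) hΦa (H55B.I4_conj hΦa)
    (fun s hs => by
      have hs' : 3 / 2 < ((starRingEnd ℂ) s).re := by simpa using hs
      have h1 := (Complex.hasSum_conj').2 (hser _ hs')
      have h2 : ∀ n, (starRingEnd ℂ) (LSeries.term
          (fun n => (((W⁄K).LFunction n : ℤ) : ℂ)) ((starRingEnd ℂ) s) n) =
          LSeries.term (fun n => (((W⁄K).LFunction n : ℤ) : ℂ)) s n := by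
        intro n
        rcases eq_or_ne n 0 with rfl | hn
        · simp
        · rw [LSeries.term_of_ne_zero hn, LSeries.term_of_ne_zero hn, map_div₀, map_intCast]
          congr 1
          have h3 := Complex.cpow_conj (n : ℂ) ((starRingEnd ℂ) s) (by
            rw [Complex.natCast_arg]
            exact Real.pi_pos.ne)
          rw [Complex.conj_conj, map_natCast] at h3
          exact h3.symm
      have h3 : HasSum (fun n => LSeries.term
          (fun n => (((W⁄K).LFunction n : ℤ) : ℂ)) s n)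
          ((starRingEnd ℂ) (Φ ((starRingEnd ℂ) s))) := by
        simpa only [h2] using h1
      exact (hser s hs).unique h3) (by norm_num) 1 (by norm_num)
  simpa using h.symm

theorem fb6b_ndvd (hp : PrimeH F (W⁄(𝓞 F)) p) : ¬ (p : ℤ) ∣ W.Δ := by
  intro hd
  obtain ⟨t, ht⟩ := hd
  have h1 : Ideal.span {(W⁄(𝓞 F)).Δ} ≤ Ideal.span {(p : 𝓞 F)} := by
    rw [Ideal.span_singleton_le_span_singleton]
    refine ⟨algebraMap ℤ (𝓞 F) t, ?_⟩
    have e : (W⁄(𝓞 F)).Δ = algebraMap ℤ (𝓞 F) W.Δ := WeierstrassCurve.map_Δ _ _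
    rw [e, ht, map_mul, map_natCast]
  have h2 : Ideal.span {(p : 𝓞 F)} = ⊤ := by
    have h3 := Ideal.isCoprime_iff_sup_eq.1 hp.cop
    rwa [sup_eq_right.2 h1] at h3
  have h4 := congrArg Ideal.absNorm h2
  rw [Ideal.absNorm_top, Ideal.absNorm_span_natCast] at h4
  have h5 : 0 < Module.finrank ℤ (𝓞 F) := Module.finrank_pos
  exact (Nat.one_lt_pow h5.ne' hp.prime.one_lt).ne' h4

theorem fb6b_conj (hper : PerW F W Om) (V : ValuationSubring ℂ) (x : ℂ) (n : ℕ) :
    V.valuation ((starRingEnd ℂ) (x / Om ^ n)) = V.valuation ((starRingEnd ℂ) x / Om ^ n) := by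
  have hOm : Om ≠ 0 := hper.ne
  have h1 := om_conj_val hper V
  have hVO : V.valuation Om ≠ 0 := (Valuation.ne_zero_iff _).2 hOm
  rw [map_div₀] at h1
  have h2 : V.valuation ((starRingEnd ℂ) Om) = V.valuation Om := (div_eq_one_iff_eq hVO).1 h1
  rw [map_div₀, map_pow, map_div₀, map_pow, h2, map_div₀, map_pow]

/-- Chunk FB6B (M). V(lG) is V(x) V(conj x) in the first case of LRel, V(x) in the second, x = Φ(1)/Om^[K' : F]: identity theorem (H55P: ident, TW1), lG_val, om_conj_val. -/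
theorem lG_rel (hH : BaseH F (W⁄(𝓞 F)) Om m ψ) (hp : PrimeH F (W⁄(𝓞 F)) p) (K : Type) [Field K] [NumberField K]
    (K' : IntermediateField F (AlgebraicClosure F)) [NumberField K'] (hR : LRel W ψ K K') (hU : H55P.UnrP p K)
    {Φ : ℂ → ℂ} (hΦa : AnalyticOnNhd ℂ Φ {s | 1 / 2 < s.re})
    (hΦ : ∀ s : ℂ, 3 / 2 < s.re → HasSum (H55N.tm (H55P.PsiP K' ψ) s) (Φ s)) :
    ∃ Λ : ℂ → ℂ, AnalyticOnNhd ℂ Λ {s | 1 / 2 < s.re} ∧
      (∀ s : ℂ, 3 / 2 < s.re → LSeriesSummable (fun n => (((W⁄K).LFunction n : ℤ) : ℂ)) s ∧ Λ s = (W⁄K).LSeries s) ∧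
      (Φ 1 ≠ 0 → Λ 1 ≠ 0) ∧
      ∀ V : ValuationSubring ℂ, V.valuation (p : ℂ) < 1 → ∀ L : PeriodPair, PerZ W L →
        (V.valuation (lG K W L (Λ 1)) = V.valuation (Φ 1 / Om ^ Module.finrank F K') * V.valuation ((starRingEnd ℂ) (Φ 1 / Om ^ Module.finrank F K'))) ∨
        (V.valuation (lG K W L (Λ 1)) = V.valuation (Φ 1 / Om ^ Module.finrank F K') ∧
          V.valuation ((starRingEnd ℂ) (Φ 1 / Om ^ Module.finrank F K')) = V.valuation (Φ 1 / Om ^ Module.finrank F K')) := by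
  classical
  have hper := perW_of hH
  have hj := jint_Z hH
  have hΔ := fb6b_ndvd hp
  have hOm : Om ≠ 0 := hper.ne
  rcases hR with ⟨hd, hR⟩ | ⟨hd, hR⟩
  · have hser := hR Φ hΦ
    refine ⟨fun z => Φ z * (starRingEnd ℂ) (Φ ((starRingEnd ℂ) z)), hΦa.mul (H55B.I4_conj hΦa),
      fun s hs => ⟨(hser s hs).LSeriesSummable, (hser s hs).LSeries_eq.symm⟩, fun h0 => ?_, fun V hV L hL => Or.inl ?_⟩
    · simp only [map_one]
      exact mul_ne_zero h0 ((map_ne_zero _).2 h0)
    · rw [lG_val K hper hL hp.prime hp.five hp.unr hU hΔ hj _ V hV, hd, fb6b_conj hper V, ← map_mul]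
      congr 1
      simp only [map_one]
      rw [two_mul, pow_add, mul_div_mul_comm]
  · have hser := hR Φ hΦ
    have hreal := fb6b_real K hΦa hser
    refine ⟨Φ, hΦa, fun s hs => ⟨(hser s hs).LSeriesSummable, (hser s hs).LSeries_eq.symm⟩, fun h0 => h0,
      fun V hV L hL => Or.inr ⟨?_, ?_⟩⟩
    · rw [lG_val K hper hL hp.prime hp.five hp.unr hU hΔ hj _ V hV, hd]
    · rw [fb6b_conj hper V, hreal]

end H55K.TQ
end

-- from Lib.H55P.I4
section

open NumberField IsDedekindDomain WeierstrassCurve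

namespace H55P

open H55N

/-! The exact criterion for y^2 + y = x^3 over Galois extensions of F of degree a power of p, analytic side. -/

section ramn

variable {F : Type} [Field F] [NumberField F] {Ω : Type} [Field Ω] [DecidableEq Ω]
  [Algebra F Ω] [IsAlgClosed Ω] [Algebra.IsAlgebraic F Ω] [CharZero Ω]

omit [NumberField F] [DecidableEq Ω] [IsAlgClosed Ω] [Algebra.IsAlgebraic F Ω] [CharZero Ω] in
theorem ram_self (M : IntermediateField F Ω) [NumberField M] (v : HeightOneSpectrum (𝓞 M)) :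
    ¬ Ram M M v.asIdeal := by
  rintro ⟨W, hWp, hW⟩
  have h1 : v.asIdeal ≤ W ^ 2 := fun x hx => hW x x hx rfl
  have hWn : W ≠ ⊥ := by
    rintro rfl
    apply v.ne_bot
    rw [eq_bot_iff]
    exact h1.trans (Ideal.pow_le_self two_ne_zero)
  have h2 : v.asIdeal = W := v.isMaximal.eq_of_le hWp.ne_top (h1.trans (Ideal.pow_le_self two_ne_zero))
  have h3 : W ≤ W ^ 2 := h2 ▸ h1
  have h4 : W ^ 2 < W ^ 1 := Ideal.pow_right_strictAnti W hWn hWp.ne_top (show 1 < 2 by norm_num)
  rw [pow_one] at h4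
  exact lt_irrefl _ (lt_of_lt_of_le h4 h3)

/-- A power p^j: a^(p^j) = a modulo p. -/
theorem dvd_pow_sub (p : ℕ) (hp : p.Prime) (a j : ℕ) (ha : 1 ≤ a) (h : p ∣ a ^ p ^ j - 1) : p ∣ a - 1 := by
  have hf := Fact.mk hp
  rw [← ZMod.natCast_eq_zero_iff, Nat.cast_sub (Nat.one_le_pow _ _ ha), Nat.cast_pow,
    ZMod.pow_card_pow] at h
  rw [← ZMod.natCast_eq_zero_iff, Nat.cast_sub ha]
  exact h

/-- The norm of a ramified prime is 1 modulo p. -/
theorem ram_norm (p : ℕ) (hp : p.Prime) (M L : IntermediateField F Ω) (hL : PExt p M L)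
    [NumberField M] (K : IntermediateField F Ω) [NumberField K] (hMK : M ≤ K) (hKL : K ≤ L)
    (hU : UnrP p K) (v : HeightOneSpectrum (𝓞 M)) (hv : Ram M K v.asIdeal) :
    p ∣ Ideal.absNorm v.asIdeal - 1 := by
  have hLf : FiniteDimensional F L := hL.fin
  have key : ∀ (n : ℕ) (K : IntermediateField F Ω) [NumberField K], M ≤ K → K ≤ L → UnrP p K →
      Module.finrank F K = n → Ram M K v.asIdeal → p ∣ Ideal.absNorm v.asIdeal - 1 := by
    intro n
    induction n using Nat.strong_induction_on with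
    | _ n ih =>
      intro K _ hMK hKL hU hn hr
      rcases eq_or_ne K M with rfl | hne
      · exact absurd hr (ram_self _ v)
      obtain ⟨N, hMN, hNK, hdeg, hnorm⟩ := chain_step p hp M K L hL hMK hKL hne
      have hKf : FiniteDimensional F K := finDim_of_le hKL
      have hNf : FiniteDimensional F N := finDim_of_le hNK
      have hNn : NumberField N := H16C.FR_numberField N
      have hNpos : 0 < Module.finrank F N := Module.finrank_pos
      have hlt : Module.finrank F N < n := by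
        rw [← hn, hdeg]
        exact lt_mul_of_one_lt_right hNpos hp.one_lt
      letI iNK : Algebra N K := (IntermediateField.inclusion hNK).toRingHom.toAlgebra
      letI iMN : Algebra M N := (IntermediateField.inclusion hMN).toRingHom.toAlgebra
      obtain ⟨hst, hgal, hfr⟩ := chain_types p hp N K hNK hnorm hdeg
      rcases (ram_tower M N K hMN hNK hnorm v).1 hr with h4 | ⟨w, hw1, hw2⟩
      · exact ih _ hlt N hMN (hNK.trans hKL) (UnrP.down N K p hp hU) rfl h4
      · obtain ⟨v', hv', -, hf⟩ := ram_down p hp M N K L hL hMN hNK hKL hnorm w hw2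
        obtain ⟨j, hj⟩ : ∃ j : ℕ, w.asIdeal.inertiaDeg (𝓞 M) = p ^ j := hf
        have h5 := tame_dvd N K p hp hfr w (fun hpv => hw2 (pt10_ram N K p hU w hpv)) hw2
        have hl : w.asIdeal.LiesOver v.asIdeal := ⟨hw1.symm⟩
        have hvm := v.isMaximal
        have hvp := v.isPrime
        have hwm := w.isMaximal
        have hwp := w.isPrime
        have h1 := Ideal.relNorm_eq_pow_of_isMaximal w.asIdeal v.asIdeal
        have h6 : Ideal.absNorm w.asIdeal = Ideal.absNorm v.asIdeal ^ p ^ j := by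
          rw [← hj, ← map_pow, ← h1, Ideal.absNorm_relNorm (𝓞 M)]
        rw [h6] at h5
        refine dvd_pow_sub p hp _ j ?_ h5
        refine Nat.one_le_iff_ne_zero.2 ?_
        rw [Ne, Ideal.absNorm_eq_zero_iff]
        exact v.ne_bot
  exact key _ K hMK hKL hU rfl hv

/-- The bottom field: every prime of F comes from one of the bottom field. -/
theorem bot_conv' [IQ F] (W₀ : WeierstrassCurve (𝓞 F)) (L : IntermediateField F Ω) (v₀ : HeightOneSpectrum (𝓞 F))
    [NumberField (⊥ : IntermediateField F Ω)] :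
    ∃ v : HeightOneSpectrum (𝓞 (⊥ : IntermediateField F Ω)),
      (∀ x : 𝓞 F, x ∈ v₀.asIdeal ↔ algebraMap (𝓞 F) (𝓞 (⊥ : IntermediateField F Ω)) x ∈ v.asIdeal) ∧
      (RamF L v₀.asIdeal → Ram (⊥ : IntermediateField F Ω) L v.asIdeal) ∧
      Nat.card (W₀⁄(𝓞 (⊥ : IntermediateField F Ω) ⧸ v.asIdeal)).toAffine.Point =
        Nat.card (W₀⁄(𝓞 F ⧸ v₀.asIdeal)).toAffine.Point := by
  obtain ⟨v, hv⟩ := pt9_above (⊥ : IntermediateField F Ω) v₀
  obtain ⟨v₁, h1, -, h3⟩ := bot_conv W₀ L v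
  have he : v₁ = v₀ := by
    apply HeightOneSpectrum.ext
    ext x
    rw [h1 x, hv]
    rfl
  subst he
  refine ⟨v, h1, ?_, h3⟩
  rintro ⟨W, hW, hle⟩
  refine ⟨W, hW, fun x y hx hxy => ?_⟩
  obtain ⟨z, hz⟩ := IntermediateField.mem_bot.1 ((x : (⊥ : IntermediateField F Ω))).2
  have hzi : IsIntegral ℤ z := by
    have h2 : IsIntegral ℤ ((x : (⊥ : IntermediateField F Ω)) : Ω) :=
      (RingOfIntegers.isIntegral_coe x).map
        ((⊥ : IntermediateField F Ω).val.toRingHom.toIntAlgHom)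
    rw [← hz] at h2
    exact (isIntegral_algebraMap_iff (algebraMap F Ω).injective).1 h2
  have hx' : algebraMap (𝓞 F) (𝓞 (⊥ : IntermediateField F Ω)) ⟨z, hzi⟩ = x := by
    apply RingOfIntegers.ext
    apply Subtype.ext
    exact hz
  have hy' : algebraMap (𝓞 F) (𝓞 L) ⟨z, hzi⟩ = y := by
    apply RingOfIntegers.ext
    apply Subtype.ext
    rw [hxy]
    exact hz
  rw [← hy']
  refine hle (Ideal.mem_map_of_mem _ ((h1 _).2 ?_))
  rw [hx']
  exact hx

end ramn

open H55B (F O om e emb E27)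

section crit

/-- The primes above 3 have norm prime to p + 1: no ramification there. -/
theorem three_norm (p : ℕ) (hp : p.Prime) (h5 : 5 ≤ p) [NumberField (⊥ : IntermediateField F FB)]
    (v : HeightOneSpectrum (𝓞 (⊥ : IntermediateField F FB)))
    (h3 : (3 : 𝓞 (⊥ : IntermediateField F FB)) ∈ v.asIdeal) (h : p ∣ Ideal.absNorm v.asIdeal - 1) :
    False := by
  have hr : Module.finrank ℚ (⊥ : IntermediateField F FB) = 2 := by
    rw [← Module.finrank_mul_finrank ℚ F (⊥ : IntermediateField F FB), ze_rank, finrank_bot']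
  have h1 : Ideal.absNorm v.asIdeal ∣ 3 ^ 2 := by
    have h2 := pt8_norm (K := (⊥ : IntermediateField F FB)) 3
    rw [hr] at h2
    rw [← h2]
    apply map_dvd
    rw [Ideal.dvd_iff_le, Ideal.span_singleton_le_iff_mem]
    exact_mod_cast h3
  obtain ⟨k, hk, hk'⟩ := (Nat.dvd_prime_pow Nat.prime_three).1 h1
  rw [hk'] at h
  have hne : k ≠ 0 := by
    rintro rfl
    rw [pow_zero, Ideal.absNorm_eq_one_iff] at hk'
    exact v.isPrime.ne_top hk'
  interval_cases k
  · exact hne rfl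
  · have := Nat.le_of_dvd (by norm_num) h
    omega
  · have h8 : p ∣ 2 ^ 3 := by simpa using h
    have := (Nat.prime_dvd_prime_iff_eq hp Nat.prime_two).1 (hp.dvd_of_dvd_pow h8)
    omega

/-- The factor is a unit at all valuations above p if and only if p does not divide the number of points. -/
theorem adm_card (K : Type) [Field K] [NumberField K] [Algebra F K] (v : HeightOneSpectrum (𝓞 K))
    (h3 : (3 : 𝓞 K) ∉ v.asIdeal) (p : ℕ) (hp : p.Prime) :
    (∀ V : ValuationSubring ℂ, V.valuation (p : ℂ) < 1 →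
      V.valuation (1 - (starRingEnd ℂ) (PsiP K psiE v.asIdeal)) = 1) ↔
    ¬ p ∣ Nat.card (W27O⁄(𝓞 K ⧸ v.asIdeal)).toAffine.Point := by
  refine ⟨fun h hd => ?_, fun h V hV => admE K v h3 p hp h V hV⟩
  obtain ⟨V, hV⟩ := exists_above_p p hp
  have hc := cardE K v h3
  have h1 : V.valuation (1 - (starRingEnd ℂ) (PsiP K psiE v.asIdeal)) = 1 := h V hV
  have hx0 : 1 - (starRingEnd ℂ) (PsiP K psiE v.asIdeal) ≠ 0 := pz6_ne hp h
  have h2 : V.valuation (1 - PsiP K psiE v.asIdeal) = 1 := by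
    have h3 := pz6_conj hp hx0 h V hV
    rwa [map_sub, map_one, Complex.conj_conj] at h3
  have h4 : V.valuation ((Nat.card (W27O⁄(𝓞 K ⧸ v.asIdeal)).toAffine.Point : ℕ) : ℂ) = 1 := by
    rw [hc, map_mul]
    show V.valuation (1 - PsiP K psiE v.asIdeal) *
      V.valuation (1 - (starRingEnd ℂ) (PsiP K psiE v.asIdeal)) = 1
    rw [h1, h2, one_mul]
  obtain ⟨t, ht⟩ := hd
  rw [ht, Nat.cast_mul, map_mul] at h4
  have h5 := mul_lt_one_of_lt_of_le hV (pt9_nat V t)
  rw [h4] at h5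
  exact lt_irrefl _ h5

/-- The exact criterion in the algebraic closure. -/
theorem crit_FB (p : ℕ) (hp : p.Prime) (h5 : 5 ≤ p) (L : IntermediateField F FB) [NumberField L]
    (hL : PExt p ⊥ L) (hU : UnrP p L)
    (hV : ∀ V : ValuationSubring ℂ, V.valuation (p : ℂ) < 1 → LVP F V OmE (PsiP L psiE))
    (v₀ : HeightOneSpectrum O) (hr : RamF L v₀.asIdeal) : GoodP p v₀ := by
  have hbn : NumberField (⊥ : IntermediateField F FB) := H16C.FR_numberField _
  obtain ⟨v, h1, h2, h3⟩ := bot_conv' W27O L v₀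
  have hram := h2 hr
  have hn := ram_norm p hp ⊥ L hL L bot_le le_rfl hU v hram
  have hv3 : (3 : 𝓞 (⊥ : IntermediateField F FB)) ∉ v.asIdeal := fun h => three_norm p hp h5 v h hn
  have hpv : (p : 𝓞 (⊥ : IntermediateField F FB)) ∉ v.asIdeal := by
    intro hm
    have h4 : Ideal.absNorm v.asIdeal ∣ p ^ Module.finrank ℚ (⊥ : IntermediateField F FB) := by
      rw [← pt8_norm]
      apply map_dvd
      rw [Ideal.dvd_iff_le, Ideal.span_singleton_le_iff_mem]
      exact hm
    obtain ⟨k, hk, hk'⟩ := (Nat.dvd_prime_pow hp).1 h4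
    have hne : k ≠ 0 := by
      rintro rfl
      rw [pow_zero, Ideal.absNorm_eq_one_iff] at hk'
      exact v.isPrime.ne_top hk'
    have h6 : p ∣ Ideal.absNorm v.asIdeal := by
      rw [hk']
      exact dvd_pow_self p hne
    have h7 : 1 ≤ Ideal.absNorm v.asIdeal := by
      refine Nat.one_le_iff_ne_zero.2 ?_
      rw [Ne, Ideal.absNorm_eq_zero_iff]
      exact v.ne_bot
    have h8 : p ∣ 1 := by
      have := (Nat.dvd_sub_iff_right h7 h6).1 hn
      exact this
    exact hp.one_lt.ne' (Nat.dvd_one.1 h8)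
  refine ⟨fun h => hv3 ?_, fun h => hpv ?_, ?_⟩
  · have := (h1 3).1 h
    rwa [map_ofNat] at this
  · have := (h1 p).1 h
    rwa [map_natCast] at this
  · rw [← h3]
    refine (adm_card _ v hv3 p hp).1 fun V hVp => ?_
    obtain ⟨hv3', hv2'⟩ := val3 p hp h5 V hVp
    have h := (LVP_tower_iff p hp ⊥ L hL isHeckeE (m3_cop p hp h5) 0 (1 / 4) OmE perE V hVp
      (goodE V hv3' hv2') (ntpE _ finrank_bot' p hp h5 V hVp) L bot_le le_rfl hU).1 (hV V hVp)
    exact h.2 v hram

end crit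

end H55P
end

-- from Lib.H55P.I5
section

open NumberField IsDedekindDomain WeierstrassCurve

namespace H55P

open H55N
open H55B (F O om e emb E27)

/-! The exact criterion for y^2 + y = x^3 over Galois extensions of F of degree a power of p, analytic side: final form. -/

/-- The L-function from the Hecke L-series. -/
theorem i5_lfun (K : Type) [Field K] [NumberField K] [Algebra F K] (hU : H35N.Unr3 K) (L : ℂ → ℂ)
    (hLs : ∀ s : ℂ, 3 / 2 < s.re → HasSum (tm (PsiP K psiE) s) (L s)) (z : ℂ) (hz : 3 / 2 < z.re) :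
    LSeriesHasSum (fun n => (((E27.baseChange K).LFunction n : ℤ) : ℂ)) z
      (L z * (starRingEnd ℂ) (L ((starRingEnd ℂ) z))) := by
  have hz' : 3 / 2 < ((starRingEnd ℂ) z).re := by simpa using hz
  have h0 : Psi K ⊥ = 0 := (Psi K).map_zero
  have h1 := AI_LSeries (fun a => Psi K a) h0 z (tm_summable _ Psi_norm_le z hz)
  have h2 := AI_LSeries (fun a => (starRingEnd ℂ) (Psi K a)) (by rw [h0, map_zero]) z
    (tm_summable _ (fun a => by rw [RCLike.norm_conj]; exact Psi_norm_le a) z hz)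
  have e1 : ∑' a, tm (fun a => Psi K a) z a = L z := (hLs z hz).tsum_eq
  have e2 : ∑' a, tm (fun a => (starRingEnd ℂ) (Psi K a)) z a =
      (starRingEnd ℂ) (L ((starRingEnd ℂ) z)) := by
    have h3 := (Complex.hasSum_conj').2 (hLs _ hz')
    have h4 := h3.tsum_eq
    rw [← h4]
    exact tsum_congr fun a => H8_tm _ z a
  rw [e1] at h1
  rw [e2] at h2
  have h3 := ArithmeticFunction.LSeriesHasSum_mul h1 h2
  have e3 : (fun n => (((E27.baseChange K).LFunction n : ℤ) : ℂ)) = fun n =>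
      (AI (Psi K) * AI (fun a => (starRingEnd ℂ) (Psi K a))) n :=
    funext fun n => LFunctionU K hU n
  rw [e3]
  exact h3

/-- Values in F: a product of two numbers with valuations at most 1. -/
theorem i5_two (V : ValuationSubring ℂ) (x y : ℂ) (hx : V.valuation x ≤ 1) (hy : V.valuation y ≤ 1)
    (h : V.valuation (x * y) = 1) : V.valuation x = 1 := by
  rw [map_mul] at h
  refine le_antisymm hx ?_
  by_contra hlt
  have h5 := mul_lt_one_of_nonneg_of_lt_one_left zero_le (not_le.1 hlt) hy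
  rw [h] at h5
  exact lt_irrefl _ h5

/-- The conjugate valuation. -/
theorem i5_conj (V : ValuationSubring ℂ) (x : ℂ)
    (h : (V.comap (starRingEnd ℂ)).valuation x ≤ 1) : V.valuation ((starRingEnd ℂ) x) ≤ 1 := by
  rw [ValuationSubring.valuation_le_one_iff] at h ⊢
  exact h

theorem i5_above (p : ℕ) (hp : p.Prime) (V : ValuationSubring ℂ) (hV : V.valuation (p : ℂ) < 1) :
    (V.comap (starRingEnd ℂ)).valuation (p : ℂ) < 1 := by
  have h2 : (p : ℂ) ≠ 0 := Nat.cast_ne_zero.2 hp.ne_zero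
  have hmem : ∀ z : ℂ, z ∈ V.comap (starRingEnd ℂ) ↔ (starRingEnd ℂ) z ∈ V := fun z => Iff.rfl
  rw [H55C.B9_lt _ h2, hmem, map_inv₀, map_natCast, ← H55C.B9_lt V h2]
  exact hV

section

variable (p : ℕ) (hp : p.Prime) (h5 : 5 ≤ p) (K : Type) [Field K] [NumberField K] [Algebra F K]
  [IsGalois F K] (k : ℕ) (hk : Module.finrank F K = p ^ k) (hU : UnrP p K)

include hp h5 hk hU

/-- Integrality over K. -/
theorem i5_int (V : ValuationSubring ℂ) (hV : V.valuation (p : ℂ) < 1) :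
    LVI F V OmE (PsiP K psiE) := by
  obtain ⟨h3, h2⟩ := val3 p hp h5 V hV
  have hN : NTP K p m3 psiE V :=
    NTP_up F K p hp k hk V hV (ntpE F (Module.finrank_self F) p hp h5 V hV)
  exact LVI_base p hp isHeckeE (m3_cop p hp h5) hU 0 (1 / 4) OmE perE V hV (goodE V h3 h2) hN

/-- No ramification above 3. -/
theorem i5_unr3 : H35N.Unr3 K := by
  let j : K →ₐ[F] FB := IsAlgClosed.lift
  have hL : PExt p ⊥ j.fieldRange := pext_range p hp K inferInstance k hk j
  have hLf : FiniteDimensional F j.fieldRange := hL.fin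
  have hLn : NumberField j.fieldRange := H16C.FR_numberField _
  have hbn : NumberField (⊥ : IntermediateField F FB) := H16C.FR_numberField _
  letI : Algebra K j.fieldRange := (AlgEquiv.ofInjectiveField j).toRingEquiv.toRingHom.toAlgebra
  letI : Algebra j.fieldRange K :=
    (AlgEquiv.ofInjectiveField j).symm.toRingEquiv.toRingHom.toAlgebra
  have hst : IsScalarTower F K j.fieldRange := IsScalarTower.of_algebraMap_eq fun y =>
    ((AlgEquiv.ofInjectiveField j).commutes y).symm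
  have hUL : UnrP p j.fieldRange := UnrP.down j.fieldRange K p hp hU
  have h3 : H35N.Unr3 j.fieldRange := fun w hw =>
    unr_sub j.fieldRange j.fieldRange le_rfl 3 (by norm_num) (fun v hv => by
      intro h
      obtain ⟨v', h1, h2, -⟩ := bot_conv' W27O j.fieldRange v
      have hn := ram_norm p hp ⊥ j.fieldRange hL j.fieldRange bot_le le_rfl hUL v' (h2 hv)
      refine three_norm p hp h5 v' ?_ hn
      have := (h1 3).1 (by exact_mod_cast h)
      rwa [map_ofNat] at this) w (by exact_mod_cast hw)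
  exact unr3_down K j.fieldRange h3

/-- The L-value is a unit if the analytic part holds. -/
theorem i5_lvp (hA : AnUnit p K) (V : ValuationSubring ℂ) (hV : V.valuation (p : ℂ) < 1) :
    LVP F V OmE (PsiP K psiE) := by
  have h3K := i5_unr3 p hp h5 K k hk hU
  obtain ⟨h3, -⟩ := val3 p hp h5 V hV
  obtain ⟨L, hLa, hLs, hLi⟩ := i5_int p hp h5 K k hk hU V hV
  obtain ⟨L', hLa', hLs', hLi'⟩ := i5_int p hp h5 K k hk hU _ (i5_above p hp V hV)
  have hLL : L 1 = L' 1 := ident L L' hLa hLa' (fun s hs => (hLs s hs).unique (hLs' s hs)) 1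
    (by norm_num)
  obtain ⟨Λ, hΛa, hΛs, -, hΛu⟩ := hA
  have e1 : Λ 1 = L 1 * (starRingEnd ℂ) (L ((starRingEnd ℂ) 1)) :=
    ident Λ (fun z => L z * (starRingEnd ℂ) (L ((starRingEnd ℂ) z))) hΛa
      (hLa.mul (H55B.I4_conj hLa)) (fun s hs => by
        rw [(hΛs s hs).2]
        exact (i5_lfun K h3K L hLs s hs).LSeries_eq) 1 (by norm_num)
  obtain ⟨P, g2, g3⟩ := H55C.period_exists
  have hu := hΛu P g2 g3 V hV
  have hv := periodE V h3 P g2 g3
  have hr : OmE * (starRingEnd ℂ) OmE ≠ 0 := by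
    intro h0
    rw [h0, zero_div, map_zero] at hv
    exact zero_ne_one hv
  have ht := tam_prodU (K₀ := K) h3K V h3
  have hs := discr_unit (K₀ := K) p hp hU V hV
  unfold H55D.shaAn at hu
  rw [H55D.Fin1_real, pow_zero, one_mul, PZ9_alg (Λ 1) _ _ _ _ (OmE * (starRingEnd ℂ) OmE) _ hr,
    H55C.complex_places] at hu
  have e2 : Λ 1 / (OmE * (starRingEnd ℂ) OmE) ^ Module.finrank F K =
      (L 1 / OmE ^ Module.finrank F K) * (starRingEnd ℂ) (L 1 / OmE ^ Module.finrank F K) := by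
    rw [e1, map_one, map_div₀, map_pow, mul_pow, mul_div_mul_comm]
  have hi2 : V.valuation ((starRingEnd ℂ) (L 1 / OmE ^ Module.finrank F K)) ≤ 1 := by
    refine i5_conj V _ ?_
    rw [hLL]
    exact hLi'
  have hcard : V.valuation ((Nat.card (E27.baseChange K).toAffine.Point : ℂ) ^ 2) ≤ 1 := by
    rw [map_pow]
    exact pow_le_one₀ zero_le (pt9_nat V _)
  rw [map_div₀, map_mul, map_mul, map_mul, map_pow V.valuation (_ / _) _, hv, hs, ht, one_pow, mul_one, mul_one,
    div_one, ← map_mul] at hu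
  have h6 : V.valuation (Λ 1 / (OmE * (starRingEnd ℂ) OmE) ^ Module.finrank F K) = 1 := by
    refine i5_two V _ _ ?_ hcard hu
    rw [e2, map_mul]
    exact mul_le_one' hLi hi2
  rw [e2] at h6
  exact ⟨L, hLa, hLs, i5_two V _ _ hLi hi2 h6⟩

/-- THE EXACT CRITERION, analytic side. -/
theorem crit_an (hA : AnUnit p K) : ExtP p K := by
  refine ⟨inferInstance, ⟨k, hk⟩, fun W v hv hg => ?_⟩
  by_contra he
  apply hg
  let j : K →ₐ[F] FB := IsAlgClosed.lift
  have hL : PExt p ⊥ j.fieldRange := pext_range p hp K inferInstance k hk j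
  have hLf : FiniteDimensional F j.fieldRange := hL.fin
  have hLn : NumberField j.fieldRange := H16C.FR_numberField _
  letI : Algebra j.fieldRange K :=
    (AlgEquiv.ofInjectiveField j).symm.toRingEquiv.toRingHom.toAlgebra
  have hUL : UnrP p j.fieldRange := UnrP.down j.fieldRange K p hp hU
  refine crit_FB p hp h5 j.fieldRange hL hUL (fun V hV =>
    LVP_congr j.fieldRange K (AlgEquiv.ofInjectiveField j).symm V OmE psiE
      (i5_lvp p hp h5 K k hk hU hA V hV)) v ?_
  -- v is ramified in the image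
  have hl : W.asIdeal.LiesOver v.asIdeal := ⟨hv⟩
  have hWp := W.isPrime
  obtain ⟨θ, hθ⟩ : ∃ θ : 𝓞 K ≃+* 𝓞 j.fieldRange, ∀ x : O,
      θ (algebraMap O (𝓞 K) x) = algebraMap O (𝓞 j.fieldRange) x := by
    let e : K ≃ₐ[F] j.fieldRange := AlgEquiv.ofInjectiveField j
    refine ⟨RingOfIntegers.mapRingEquiv e, fun x => ?_⟩
    apply RingOfIntegers.coe_injective
    show e (algebraMap F K (x : F)) = algebraMap F j.fieldRange (x : F)
    exact e.commutes _
  refine ⟨W.asIdeal.map (θ : 𝓞 K →+* 𝓞 j.fieldRange), Ideal.map_isPrime_of_equiv θ, ?_⟩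
  rw [Ideal.map_le_iff_le_comap]
  intro x hx
  rw [Ideal.mem_comap, ← hθ x, ← Ideal.map_pow]
  exact Ideal.mem_map_of_mem (θ : 𝓞 K →+* 𝓞 j.fieldRange)
    (s13_le_sq v.asIdeal v.ne_bot W.asIdeal he x hx)

end

end H55P
end

-- from Lib.H55K.FB7A
section

/-! # H55K: the analytic part over K and the Hecke L-value: conclusions -/

open NumberField IsDedekindDomain WeierstrassCurve

namespace H55K.TQ

open H55P (IQ embF eF LF Per IsHecke Pt ac Inert Dec Nm UnitP)
open H35P (WAB Ker tt GoodW IntW)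
open H55K.MG (VC Crd)

variable {F : Type} [Field F] [NumberField F] [IQ F] {W : WeierstrassCurve ℤ} {Om : ℂ}
    {m : Ideal (𝓞 F)} {ψ : Ideal (𝓞 F) →*₀ 𝓞 F} {p : ℕ}

/-- Chunk FB7A (S/M). IntG gives x = Φ(1)/Om^n with V(x) ≤ 1 for all V above p, so V(conj x) ≤ 1 (H55P.i5_conj, i5_above); lG_rel gives Λ; two continuations agree at 1 (ident); UnitP(shaG) = V(lG) V(#E)^2 = 1, all factors ≤ 1 (pt9_nat): V(x) = 1; Φ(1) ≠ 0. -/
theorem val_of_an (hH : BaseH F (W⁄(𝓞 F)) Om m ψ) (hp : PrimeH F (W⁄(𝓞 F)) p) (K : Type) [Field K] [NumberField K]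
    (K' : IntermediateField F (AlgebraicClosure F)) [NumberField K'] (hR : LRel W ψ K K') (hU : H55P.UnrP p K)
    (hI : H55P.IntG p Om ψ K') (hA : AnUnitG p W K) : H55P.ValG p Om ψ K' := by
  obtain ⟨Φ, hΦa, hΦs, hΦi⟩ := hI
  obtain ⟨Λ, hΛa, hΛs, -, hΛv⟩ := lG_rel hH hp K K' hR hU hΦa hΦs
  obtain ⟨⟨L, hL⟩, Λ', hΛa', hΛs', -, hΛu'⟩ := hA
  have e1 : Λ 1 = Λ' 1 := H55N.ident Λ Λ' hΛa hΛa' (fun s hs => by
    rw [(hΛs s hs).2, (hΛs' s hs).2]) 1 (by norm_num)
  have hunit : UnitP p (Φ 1 / Om ^ Module.finrank F K') := by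
    intro V hV
    have hx : V.valuation (Φ 1 / Om ^ Module.finrank F K') ≤ 1 :=
      (V.valuation_le_one_iff _).2 (hΦi V hV)
    have hxc : V.valuation ((starRingEnd ℂ) (Φ 1 / Om ^ Module.finrank F K')) ≤ 1 := by
      refine H55P.i5_conj V _ ?_
      rw [ValuationSubring.valuation_le_one_iff]
      exact hΦi _ (H55P.i5_above p hp.prime V hV)
    have hcard : V.valuation ((Nat.card (W⁄K).toAffine.Point : ℂ) ^ 2) ≤ 1 := by
      rw [map_pow]
      exact pow_le_one₀ zero_le (H55P.pt9_nat V _)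
    have hu := hΛu' L hL V hV
    rw [shaG_lG, ← e1] at hu
    have hl : V.valuation (lG K W L (Λ 1)) ≤ 1 := by
      rcases hΛv V hV L hL with h | h
      · rw [h]
        exact mul_le_one₀ hx zero_le hxc
      · rw [h.1]
        exact hx
    have hl1 : V.valuation (lG K W L (Λ 1)) = 1 := H55P.i5_two V _ _ hl hcard hu
    rcases hΛv V hV L hL with h | h
    · rw [h, ← map_mul] at hl1
      exact H55P.i5_two V _ _ hx hxc hl1
    · rw [h.1] at hl1
      exact hl1
  refine ⟨Φ, hΦa, hΦs, ?_, hunit⟩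
  intro h0
  apply H55P.pz6_ne hp.prime hunit
  rw [h0, zero_div]

end H55K.TQ
end

-- from Lib.H55K.FB7B
section

/-! # H55K: the analytic part over K and the Hecke L-value: conclusions -/

open NumberField IsDedekindDomain WeierstrassCurve

namespace H55K.TQ

open H55P (IQ embF eF LF Per IsHecke Pt ac Inert Dec Nm UnitP)
open H35P (WAB Ker tt GoodW IntW)
open H55K.MG (VC Crd)

variable {F : Type} [Field F] [NumberField F] [IQ F] {W : WeierstrassCurve ℤ} {Om : ℂ}
    {m : Ideal (𝓞 F)} {ψ : Ideal (𝓞 F) →*₀ 𝓞 F} {p : ℕ}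

/-- Chunk FB7B (S/M). V(conj x) = 1 for all V above p (pz6_conj, pz6_ne). val_nat for the number of points. Existence of L: exists_perZ (QP1A.lean). -/
theorem an_of_val (hH : BaseH F (W⁄(𝓞 F)) Om m ψ) (hp : PrimeH F (W⁄(𝓞 F)) p) (K : Type) [Field K] [NumberField K]
    (K' : IntermediateField F (AlgebraicClosure F)) [NumberField K'] (hR : LRel W ψ K K') (hU : H55P.UnrP p K)
    (hV : H55P.ValG p Om ψ K') (hE : ¬ p ∣ Nat.card (W⁄K).toAffine.Point) : AnUnitG p W K := by
  obtain ⟨Φ, hΦa, hΦs, hΦ1, hΦu⟩ := hV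
  obtain ⟨Λ, hΛa, hΛs, hΛ1, hΛv⟩ := lG_rel hH hp K K' hR hU hΦa hΦs
  refine ⟨exists_perZ (perW_of hH), Λ, hΛa, hΛs, hΛ1 hΦ1, ?_⟩
  intro L hL V hV
  have hx := hΦu V hV
  have hxc := H55P.pz6_conj hp.prime (H55P.pz6_ne hp.prime hΦu) hΦu V hV
  rw [shaG_lG, map_mul, map_pow, H55P.val_nat p hp.prime V hV _ hE, one_pow, mul_one]
  rcases hΛv V hV L hL with h | h
  · rw [h, hx, hxc, one_mul]
  · rw [h.1, hx]

end H55K.TQ
end

-- from Lib.H55K.FB7C
section

/-! # H55K: the analytic part over K and the Hecke L-value: conclusions -/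

open NumberField IsDedekindDomain WeierstrassCurve

namespace H55K.TQ

open H55P (IQ embF eF LF Per IsHecke Pt ac Inert Dec Nm UnitP)
open H35P (WAB Ker tt GoodW IntW)
open H55K.MG (VC Crd)

variable {F : Type} [Field F] [NumberField F] [IQ F] {W : WeierstrassCurve ℤ} {Om : ℂ}
    {m : Ideal (𝓞 F)} {ψ : Ideal (𝓞 F) →*₀ 𝓞 F} {p : ℕ}

/-- Chunk FB7C (S/M). If V(x) V(conj x) < 1 for all V above p then V(lG) < 1 (second case of lG_rel: V(x)^2 < 1). -/
theorem non_of (hH : BaseH F (W⁄(𝓞 F)) Om m ψ) (hp : PrimeH F (W⁄(𝓞 F)) p) (K : Type) [Field K] [NumberField K]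
    (K' : IntermediateField F (AlgebraicClosure F)) [NumberField K'] (hR : LRel W ψ K K') (hU : H55P.UnrP p K)
    {Φ : ℂ → ℂ} (hΦa : AnalyticOnNhd ℂ Φ {s | 1 / 2 < s.re})
    (hΦ : ∀ s : ℂ, 3 / 2 < s.re → HasSum (H55N.tm (H55P.PsiP K' ψ) s) (Φ s))
    (hN : ∀ V : ValuationSubring ℂ, V.valuation (p : ℂ) < 1 →
      V.valuation (Φ 1 / Om ^ Module.finrank F K') * V.valuation ((starRingEnd ℂ) (Φ 1 / Om ^ Module.finrank F K')) < 1) :
    AnNonG p W K := by
  obtain ⟨Λ, hΛa, hΛs, -, hΛv⟩ := lG_rel hH hp K K' hR hU hΦa hΦ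
  refine ⟨exists_perZ (perW_of hH), Λ, hΛa, hΛs, ?_⟩
  intro L hL V hV
  have hn := hN V hV
  rcases hΛv V hV L hL with h | h
  · rw [h]
    exact hn
  · rw [h.2] at hn
    rw [h.1]
    by_contra hc
    have h1 := not_lt.1 hc
    have h2 : 1 ≤ V.valuation (Φ 1 / Om ^ Module.finrank F K') *
        V.valuation (Φ 1 / Om ^ Module.finrank F K') := one_le_mul h1 h1
    exact absurd hn (not_lt.2 h2)

end H55K.TQ
end
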