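import Mathlib
import Pool.Agent.Lib.H1M.PP.D_H13R_D
import Pool.Agent.Lib.H1M.PP.D_H13R_K0
import Pool.Agent.Lib.H1M.PP.M064
import Pool.Agent.Lib.H1M.PP.M065
import Pool.Agent.Lib.H1M.PP.M082
import Pool.Agent.Lib.H1M.PP.M086
import Pool.Agent.Lib.H1M.PP.M087

/-! Merged copies (to shorten the build) of Lib.H13R.H1, Lib.H13R.J4, Lib.H13R.K1, Lib.H13R.C4, Lib.H13R.E1. -/

-- from Lib.H13R.H1
section

/-! # H13R: the L-values over M and over K -/

open NumberField IsDedekindDomain WeierstrassCurve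

namespace H13R

open H55P (IQ embF eF LF Per IsHecke Pt ac acR Inert Dec Nm UnitP Ram RamF PExt UnrP)
open H35P (WAB Ker tt GoodW IntW)
open H55K H55K.TQ

variable {F : Type} [Field F] [NumberField F] [IQ F] {W₀ : WeierstrassCurve (𝓞 F)} {Om : ℂ}
    {m : Ideal (𝓞 F)} {ψ : Ideal (𝓞 F) →*₀ 𝓞 F} {p : ℕ}

theorem h1_pos (hH : BaseH F W₀ Om m ψ) {K : Type} [Field K] [NumberField K] [Algebra F K] (w : HeightOneSpectrum (𝓞 K)) :
    algebraMap (𝓞 F) (𝓞 K) W₀.Δ ∈ w.asIdeal ↔ H55P.mK K m ≤ w.asIdeal := by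
  obtain ⟨v, hv, -, -, hmv⟩ := H55K.DD.below (m := m) w
  rw [hmv, ← hH.supp v, hv]
  rfl

/-- The condition at a prime of K. -/
theorem y10_locR (hH : BaseH F W₀ Om m ψ) (hp : p.Prime) {K : Type} [Field K] [NumberField K] [Algebra F K] (w : HeightOneSpectrum (𝓞 K)) :
    ¬ p ∣ Ideal.absNorm (Ideal.span {1 - ψ (Ideal.relNorm (𝓞 F) w.asIdeal)}) ↔
      (algebraMap (𝓞 F) (𝓞 K) W₀.Δ ∉ w.asIdeal → ¬ p ∣ Nat.card (W₀⁄(𝓞 K ⧸ w.asIdeal)).toAffine.Point) := by
  by_cases h : algebraMap (𝓞 F) (𝓞 K) W₀.Δ ∈ w.asIdeal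
  · obtain ⟨v, hv, hN, hf, hmv⟩ := H55K.DD.below (m := m) w
    have h1 : m ≤ v.asIdeal := hmv.1 ((h1_pos hH w).1 h)
    have h2 : ψ v.asIdeal = 0 := by
      apply hH.data.hecke.zero
      intro hc
      have h3 : v.asIdeal ⊔ m = ⊤ := Ideal.isCoprime_iff_sup_eq.1 hc
      rw [sup_eq_left.2 h1] at h3
      exact v.isPrime.ne_top h3
    have h4 : ¬ p ∣ Ideal.absNorm (Ideal.span {1 - ψ (Ideal.relNorm (𝓞 F) w.asIdeal)}) := by
      rw [hN, map_pow, h2, zero_pow hf.ne', sub_zero, Ideal.span_singleton_one, Ideal.absNorm_top]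
      exact hp.one_lt.ne' ∘ Nat.dvd_one.1
    exact ⟨fun _ hn => absurd h hn, fun _ => h4⟩
  · have h1 : Nat.card (W₀⁄(𝓞 K ⧸ w.asIdeal)).toAffine.Point =
        Ideal.absNorm (Ideal.span {1 - ψ (Ideal.relNorm (𝓞 F) w.asIdeal)}) :=
      pts_w hH.data.hecke (fun v hv _ => hH.deu v hv) w h fun hm => h ((h1_pos hH w).2 hm)
    rw [h1]
    exact ⟨fun h _ => h, fun hn => hn h⟩

theorem gen_valR (hH : BaseH F W₀ Om m ψ) (hp : PrimeH F W₀ p) {M L K : IntermediateField F (AlgebraicClosure F)}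
    [NumberField M] [NumberField K] (hUM : UnrP p M) (hL : PExt p M L) (hMK : M ≤ K) (hK : K ≤ L) (hU : UnrP p K) :
    H55P.ValG p Om ψ K ↔ H55P.ValG p Om ψ M ∧ NoRel p W₀ M K := by
  rw [H55P.gen_crit W₀ Om m ψ hH.data p hp.prime hp.five (y10_cop hH hp) M L hL (exists_goodGR hH hp M hUM) K hMK hK hU]
  refine and_congr_right fun _ => ?_
  constructor
  · intro h v hr hΔ
    exact (y10_locR hH hp.prime v).1 (h v hr) hΔ
  · intro h v hr
    exact (y10_locR hH hp.prime v).2 (h v hr)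

theorem gen_intR (hH : BaseH F W₀ Om m ψ) (hp : PrimeH F W₀ p) {M L K : IntermediateField F (AlgebraicClosure F)}
    [NumberField M] [NumberField K] (hUM : UnrP p M) (hL : PExt p M L) (hMK : M ≤ K) (hK : K ≤ L) (hU : UnrP p K) :
    H55P.IntG p Om ψ K :=
  H55P.gen_int W₀ Om m ψ hH.data p hp.prime hp.five (y10_cop hH hp) M L hL (exists_goodGR hH hp M hUM) K hMK hK hU

theorem non_KR (hH : BaseH F W₀ Om m ψ) (hp : PrimeH F W₀ p) {M L K : IntermediateField F (AlgebraicClosure F)}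
    [NumberField M] [NumberField K] (hUM : UnrP p M) (hL : PExt p M L) (hMK : M ≤ K) (hK : K ≤ L) (hU : UnrP p K)
    (hN : ¬ NoRel p W₀ M K) :
    ∃ Φ : ℂ → ℂ, AnalyticOnNhd ℂ Φ {s | 1 / 2 < s.re} ∧
      (∀ s : ℂ, 3 / 2 < s.re → HasSum (H55N.tm (H55P.PsiP K ψ) s) (Φ s)) ∧
      ∀ V : ValuationSubring ℂ, V.valuation (p : ℂ) < 1 →
        V.valuation (Φ 1 / Om ^ Module.finrank F K) * V.valuation ((starRingEnd ℂ) (Φ 1 / Om ^ Module.finrank F K)) < 1 := by
  classical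
  have hB := base_of hH hp
  have hLf : FiniteDimensional F L := hL.fin
  have hLn : NumberField L := H16C.FR_numberField L
  have hm : IsCoprime m (Ideal.span {(p : 𝓞 F)}) := hB.cop.of_mul_left_right
  obtain ⟨u₀, hu₀⟩ := exists_goodGR hH hp M hUM
  unfold NoRel at hN
  push Not at hN
  obtain ⟨v, hram, hΔ, hdvd⟩ := hN
  obtain ⟨Φ, h1, h2, h3⟩ := gen_intR hH hp hUM hL hMK hK hU
  refine ⟨Φ, h1, h2, fun V hV => ?_⟩
  set x : ℂ := Φ 1 / Om ^ Module.finrank F K with hx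
  have hV' := fb8_above p hp.prime V hV
  have hx1 : V.valuation x ≤ 1 := (V.valuation_le_one_iff _).2 (h3 V hV)
  have hx2 : V.valuation ((starRingEnd ℂ) x) ≤ 1 := by
    rw [V.valuation_le_one_iff]
    exact h3 _ hV'
  by_contra hlt
  have hy1 : V.valuation x = 1 := by
    refine le_antisymm hx1 (not_lt.1 fun h => hlt ?_)
    exact mul_lt_one_of_nonneg_of_lt_one_left zero_le h hx2
  have hy2 : V.valuation ((starRingEnd ℂ) x) = 1 := by
    refine le_antisymm hx2 (not_lt.1 fun h => hlt ?_)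
    exact mul_lt_one_of_nonneg_of_lt_one_right hx1 zero_le h
  have hx0 : x ≠ 0 := by
    intro h0
    rw [h0, map_zero] at hy1
    exact zero_ne_one hy1
  have hfac : 1 - (starRingEnd ℂ) (H55P.PsiP M ψ v.asIdeal) =
      eF F (1 - ψ (Ideal.relNorm (𝓞 F) v.asIdeal)) := by
    rw [H55P.PsiP_apply, Complex.conj_conj, map_sub, map_one]
  have key : ∀ A : ValuationSubring ℂ, A.valuation (p : ℂ) < 1 → A.valuation x = 1 →
      A.valuation (eF F (1 - ψ (Ideal.relNorm (𝓞 F) v.asIdeal))) = 1 := by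
    intro A hA h
    rw [← hfac]
    exact ((H55P.LVP_tower_iff p hp.prime M L hL hH.data.hecke hm _ _ Om hH.data.per A hA
      (H55P.gen_good p hp.prime hp.five W₀ hp.cop A hA)
      (H55P.gen_ntp p hp.prime M u₀ hu₀ A hA) K hMK hK hU).1 ⟨Φ, h1, h2, h⟩).2 v hram
  have k1 := key V hV hy1
  have k2 := key _ hV' ((fb8_conj V hx0).2 hy2)
  have hz0 : eF F (1 - ψ (Ideal.relNorm (𝓞 F) v.asIdeal)) ≠ 0 := by
    intro h0
    rw [h0, map_zero] at k1
    exact zero_ne_one k1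
  have k3 := (fb8_conj V hz0).1 k2
  have e1 : eF F (1 - ψ (Ideal.relNorm (𝓞 F) v.asIdeal)) * (starRingEnd ℂ) (eF F (1 - ψ (Ideal.relNorm (𝓞 F) v.asIdeal))) =
      ((Nm (1 - ψ (Ideal.relNorm (𝓞 F) v.asIdeal)) : ℕ) : ℂ) := by
    rw [Complex.mul_conj, Complex.normSq_eq_norm_sq, ← H55P.Nm_eq]
    norm_cast
  have k4 : V.valuation ((Nm (1 - ψ (Ideal.relNorm (𝓞 F) v.asIdeal)) : ℕ) : ℂ) = 1 := by
    rw [← e1, map_mul, k1, k3, one_mul]
  rw [pts_w hH.data.hecke (fun v hv _ => hH.deu v hv) v hΔ fun hm => hΔ ((h1_pos hH v).2 hm)] at hdvd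
  obtain ⟨t, ht⟩ := hdvd
  rw [ht, Nat.cast_mul, map_mul] at k4
  have h5 := mul_lt_one_of_lt_of_le hV (H55P.pt9_nat V t)
  rw [k4] at h5
  exact lt_irrefl _ h5

end H13R
end

-- from Lib.H13R.J4
section

/-! # H13R: the analytic part over K (without the points) and the Hecke L-value -/

open NumberField IsDedekindDomain WeierstrassCurve

namespace H13R

open H55P (IQ embF eF LF Per IsHecke Pt ac Inert Dec Nm UnitP UnrP)
open H35P (WAB Ker tt GoodW IntW)
open H55K H55K.TQ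

variable {F : Type} [Field F] [NumberField F] [IQ F] {W : WeierstrassCurve ℤ} {Om : ℂ}
    {m : Ideal (𝓞 F)} {ψ : Ideal (𝓞 F) →*₀ 𝓞 F} {p : ℕ}

theorem lunit_iff (hH : BaseH F (W⁄(𝓞 F)) Om m ψ) (hp : PrimeH F (W⁄(𝓞 F)) p) (K : Type) [Field K] [NumberField K]
    (K' : IntermediateField F (AlgebraicClosure F)) [NumberField K'] (hR : LRel W ψ K K') (hU : H55P.UnrP p K)
    (hI : H55P.IntG p Om ψ K') : LUnitG p W K ↔ H55P.ValG p Om ψ K' := by
  constructor
  · intro hA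
    obtain ⟨Φ, hΦa, hΦs, hΦi⟩ := hI
    obtain ⟨Λ, hΛa, hΛs, -, hΛv⟩ := lG_rel hH hp K K' hR hU hΦa hΦs
    obtain ⟨⟨L, hL⟩, Λ', hΛa', hΛs', -, hΛu'⟩ := hA
    have e1 : Λ 1 = Λ' 1 := H55N.ident Λ Λ' hΛa hΛa' (fun s hs => by
      rw [(hΛs s hs).2, (hΛs' s hs).2]) 1 (by norm_num)
    have hunit : UnitP p (Φ 1 / Om ^ Module.finrank F K') := by
      intro V hV
      have hx : V.valuation (Φ 1 / Om ^ Module.finrank F K') ≤ 1 :=
        (V.valuation_le_one_iff _).2 (hΦi V hV)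
      have hxc : V.valuation ((starRingEnd ℂ) (Φ 1 / Om ^ Module.finrank F K')) ≤ 1 := by
        refine H55P.i5_conj V _ ?_
        rw [ValuationSubring.valuation_le_one_iff]
        exact hΦi _ (H55P.i5_above p hp.prime V hV)
      have hl1 : V.valuation (lG K W L (Λ 1)) = 1 := by
        rw [e1]
        exact hΛu' L hL V hV
      rcases hΛv V hV L hL with h | h
      · rw [h, ← map_mul] at hl1
        exact H55P.i5_two V _ _ hx hxc hl1
      · rw [h.1] at hl1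
        exact hl1
    refine ⟨Φ, hΦa, hΦs, ?_, hunit⟩
    intro h0
    apply H55P.pz6_ne hp.prime hunit
    rw [h0, zero_div]
  · intro hV
    obtain ⟨Φ, hΦa, hΦs, hΦ1, hΦu⟩ := hV
    obtain ⟨Λ, hΛa, hΛs, hΛ1, hΛv⟩ := lG_rel hH hp K K' hR hU hΦa hΦs
    refine ⟨exists_perZ (perW_of hH), Λ, hΛa, hΛs, hΛ1 hΦ1, ?_⟩
    intro L hL V hV
    have hx := hΦu V hV
    have hxc := H55P.pz6_conj hp.prime (H55P.pz6_ne hp.prime hΦu) hΦu V hV
    rcases hΛv V hV L hL with h | h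
    · rw [h, hx, hxc, one_mul]
    · rw [h.1, hx]

/-- The analytic part with the points. -/
theorem an_iff {p : ℕ} (hp : p.Prime) {K : Type} [Field K] [NumberField K]
    (hE : ¬ p ∣ Nat.card (W⁄K).toAffine.Point) : AnUnitG p W K ↔ LUnitG p W K := by
  constructor
  · rintro ⟨h1, Λ, h2, h3, h4, h5⟩
    refine ⟨h1, Λ, h2, h3, h4, fun L hL V hV => ?_⟩
    have h6 := h5 L hL V hV
    rwa [shaG_lG, map_mul, map_pow, H55P.val_nat p hp V hV _ hE, one_pow, mul_one] at h6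
  · rintro ⟨h1, Λ, h2, h3, h4, h5⟩
    refine ⟨h1, Λ, h2, h3, h4, fun L hL V hV => ?_⟩
    rw [shaG_lG, map_mul, map_pow, H55P.val_nat p hp V hV _ hE, one_pow, mul_one]
    exact h5 L hL V hV

end H13R
end

-- from Lib.H13R.K1
section

/-! # H13R: almost all prime numbers, over M -/

open NumberField IsDedekindDomain WeierstrassCurve

namespace H13R

open H55P (IQ embF eF LF Per IsHecke Pt ac Inert Dec Nm UnitP UnrP PExt)
open H35P (WAB Ker tt GoodW IntW)
open H55K H55K.TQ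

theorem pext_self {F : Type} [Field F] [NumberField F] {Ω : Type} [Field Ω] [Algebra F Ω] (p : ℕ) (M : IntermediateField F Ω)
    [FiniteDimensional F M] : PExt p M M := by
  refine ⟨inferInstance, le_rfl, fun s hs x hx => ?_, 0, by rw [pow_zero, mul_one]⟩
  rw [IntermediateField.mem_fixingSubgroup_iff] at hs
  rw [hs x hx]
  exact hx

theorem unr_almost (K : Type) [Field K] [NumberField K] : {p : ℕ | p.Prime ∧ ¬ UnrP p K}.Finite := by
  have hD : (NumberField.discr K).natAbs ≠ 0 := by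
    rw [Int.natAbs_ne_zero]
    exact NumberField.discr_ne_zero K
  refine Set.Finite.subset ((NumberField.discr K).natAbs.divisors.finite_toSet) ?_
  rintro p ⟨hp, hnot⟩
  rw [Finset.mem_coe, Nat.mem_divisors]
  by_contra hcon
  push Not at hcon
  apply hnot
  apply FC2_unr hp
  intro hd
  exact hD (hcon (Int.natCast_dvd.1 hd))

theorem unr_KG {F : Type} [Field F] [NumberField F] [IQ F] {p : ℕ} (hp : p.Prime) (K : Type) [Field K] [NumberField K]
    (ι : K →ₐ[ℚ] AlgebraicClosure F) (h : UnrP p (KG F K ι)) : UnrP p K := by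
  letI : Algebra K (KG F K ι) := (KGmap F K ι).toAlgebra
  exact H55P.UnrP.down K (KG F K ι) p hp h

theorem unr_le {F : Type} [Field F] [NumberField F] [IQ F] {p : ℕ} (hp : p.Prime) {M L : IntermediateField F (AlgebraicClosure F)}
    [NumberField M] [NumberField L] (hML : M ≤ L) (h : UnrP p L) : UnrP p M := by
  letI : Algebra M L := (IntermediateField.inclusion hML).toRingHom.toAlgebra
  exact H55P.UnrP.down M L p hp h

section main

variable {F : Type} [Field F] [NumberField F] [IQ F] {W₀ : WeierstrassCurve (𝓞 F)} {Om : ℂ}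
    {m : Ideal (𝓞 F)} {ψ : Ideal (𝓞 F) →*₀ 𝓞 F} {p : ℕ}

theorem val_almostM (hH : BaseH F W₀ Om m ψ) (M : IntermediateField F (AlgebraicClosure F)) [NumberField M]
    (hL : ∃ Φ : ℂ → ℂ, AnalyticOnNhd ℂ Φ {s | 1 / 2 < s.re} ∧
      (∀ s : ℂ, 3 / 2 < s.re → HasSum (H55N.tm (H55P.PsiP M ψ) s) (Φ s)) ∧ Φ 1 ≠ 0) :
    {p : ℕ | PrimeH F W₀ p ∧ UnrP p M ∧ ¬ H55P.ValG p Om ψ M}.Finite := by
  have hfd : FiniteDimensional F M := FiniteDimensional.right ℚ F M
  by_cases hex : ∃ p, PrimeH F W₀ p ∧ UnrP p M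
  swap
  · refine Set.Finite.subset Set.finite_empty fun p hp => ?_
    exact absurd ⟨p, hp.1, hp.2.1⟩ hex
  obtain ⟨p₀, hp₀, hU₀⟩ := hex
  obtain ⟨Λ, ha, hs, hint⟩ := gen_intR hH hp₀ hU₀ (pext_self p₀ M) le_rfl le_rfl hU₀
  obtain ⟨Φ, hΦa, hΦs, hΦ1⟩ := hL
  have h1 : Λ 1 = Φ 1 := H55N.TW1_ident (1 / 2) Λ Φ ha hΦa
    (fun s hs' => (hs s hs').unique (hΦs s hs')) (by norm_num) 1 (by norm_num)
  have hne : Λ 1 ≠ 0 := by
    rw [h1]
    exact hΦ1
  have hOm : Om ≠ 0 := hH.data.per.ne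
  have hx : Λ 1 / Om ^ Module.finrank F M ≠ 0 := div_ne_zero hne (pow_ne_zero _ hOm)
  refine Set.Finite.subset (unit_almost hx (alg_of_int hp₀.prime hint)) ?_
  rintro p ⟨hp, -, hV⟩
  exact ⟨hp.prime, fun hU => hV ⟨Λ, ha, hs, hne, hU⟩⟩

theorem bad_of {M : IntermediateField F (AlgebraicClosure F)} [NumberField M] (hH : BaseH F W₀ Om m ψ) (hB : BadM W₀ M) :
    ∀ w : HeightOneSpectrum (𝓞 M), H55P.mK M m ≤ w.asIdeal → ¬ GoodAt ((W₀⁄F)⁄M) w :=
  fun w hw => hB w ((h1_pos hH w).2 hw)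

end main

section rat

variable {F : Type} [Field F] [NumberField F] [IQ F] {W : WeierstrassCurve ℤ} {Om : ℂ}
    {m : Ideal (𝓞 F)} {ψ : Ideal (𝓞 F) →*₀ 𝓞 F} {p : ℕ}

theorem lrelM (hH : BaseH F (W⁄(𝓞 F)) Om m ψ) (M : Type) [Field M] [NumberField M] (ι : M →ₐ[ℚ] AlgebraicClosure F)
    (hB : BadM (W⁄(𝓞 F)) (KG F M ι)) : LRel W ψ M (KG F M ι) :=
  lrelR hH M ι (bad_of hH hB)

/-- If L(W/M, 1) is not zero, its algebraic part is a p-adic unit for all but finitely many p. -/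
theorem lunit_almost (hH : BaseH F (W⁄(𝓞 F)) Om m ψ) (M : Type) [Field M] [NumberField M] (ι : M →ₐ[ℚ] AlgebraicClosure F)
    (hB : BadM (W⁄(𝓞 F)) (KG F M ι)) (hL : LNz W M) : {p : ℕ | p.Prime ∧ ¬ LUnitG p W M}.Finite := by
  classical
  have hfin := (prime_almost (W⁄(𝓞 F)) hH.data.ell).union (unr_almost (KG F M ι))
  by_cases hex : ∃ p, PrimeH F (W⁄(𝓞 F)) p ∧ UnrP p (KG F M ι)
  swap
  · refine hfin.subset ?_
    rintro p ⟨hp, -⟩
    by_cases h1 : PrimeH F (W⁄(𝓞 F)) p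
    · exact Or.inr ⟨hp, fun h2 => hex ⟨p, h1, h2⟩⟩
    · exact Or.inl ⟨hp, h1⟩
  obtain ⟨p₀, hp₀, hU₀⟩ := hex
  have hfd : FiniteDimensional F (KG F M ι) := kg_fin F M ι
  obtain ⟨Φ, hΦa, hΦs, -⟩ := gen_intR hH hp₀ hU₀ (pext_self p₀ (KG F M ι)) le_rfl le_rfl hU₀
  have hR := lrelM hH M ι hB
  obtain ⟨Λ, hΛa, hΛs, hΛ1⟩ := hL
  have hΦ1 : Φ 1 ≠ 0 := by
    rcases hR with ⟨-, hR⟩ | ⟨-, hR⟩
    · have h1 : Φ 1 * (starRingEnd ℂ) (Φ ((starRingEnd ℂ) 1)) = Λ 1 :=
        H55N.TW1_ident (1 / 2) (fun z => Φ z * (starRingEnd ℂ) (Φ ((starRingEnd ℂ) z))) Λ (hΦa.mul (H55B.I4_conj hΦa)) hΛa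
        (fun s hs => by
          rw [(hΛs s hs).2]
          exact ((hR Φ hΦs s hs).LSeries_eq).symm) (by norm_num) 1 (by norm_num)
      intro h0
      apply hΛ1
      rw [← h1, h0, zero_mul]
    · have h1 : Φ 1 = Λ 1 := H55N.TW1_ident (1 / 2) Φ Λ hΦa hΛa
        (fun s hs => by
          rw [(hΛs s hs).2]
          exact ((hR Φ hΦs s hs).LSeries_eq).symm) (by norm_num) 1 (by norm_num)
      rw [h1]
      exact hΛ1
  have hval := val_almostM hH (KG F M ι) ⟨Φ, hΦa, hΦs, hΦ1⟩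
  refine (hfin.union hval).subset ?_
  rintro p ⟨hp, hA⟩
  by_cases hP : PrimeH F (W⁄(𝓞 F)) p
  · by_cases hU : UnrP p (KG F M ι)
    · right
      refine ⟨hP, hU, fun hV => hA ?_⟩
      exact (lunit_iff hH hP M (KG F M ι) hR (unr_KG hp M ι hU)
        (gen_intR hH hP hU (pext_self p (KG F M ι)) le_rfl le_rfl hU)).2 hV
    · exact Or.inl (Or.inr ⟨hp, hU⟩)
  · exact Or.inl (Or.inl ⟨hp, hP⟩)

end rat

end H13R
end

-- from Lib.H13R.C4
section

/-! # H13R: unramified extensions keep bad reduction -/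

open NumberField IsDedekindDomain WeierstrassCurve

namespace H13R

open H55P (IQ embF eF LF Per IsHecke Pt ac Inert Dec Nm UnitP PExt Ram RamF clos)
open H35P (WAB Ker tt GoodW IntW)
open H55K.MG (VC Crd)
open H55K H55K.TQ

variable {F : Type} [Field F] [NumberField F] [IQ F] {W₀ : WeierstrassCurve (𝓞 F)} {Om : ℂ}
    {m : Ideal (𝓞 F)} {ψ : Ideal (𝓞 F) →*₀ 𝓞 F} {p : ℕ}

theorem exists_prime {F : Type} [Field F] [NumberField F] (W₀ : WeierstrassCurve (𝓞 F)) (h : W₀.Δ ≠ 0) : ∃ p : ℕ, PrimeH F W₀ p := by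
  by_contra hcon
  push Not at hcon
  have h1 := prime_almost W₀ h
  have h2 : {p : ℕ | p.Prime ∧ ¬ PrimeH F W₀ p} = {p : ℕ | p.Prime} := by
    ext p
    exact ⟨fun h => h.1, fun h => ⟨h, hcon p⟩⟩
  rw [h2] at h1
  exact Nat.infinite_setOfPred_prime h1

/-- The base is bad at the primes of the discriminant. -/
theorem bad_bot (hH : BaseH F W₀ Om m ψ) [NumberField (⊥ : IntermediateField F (AlgebraicClosure F))] :
    BadM W₀ (⊥ : IntermediateField F (AlgebraicClosure F)) := by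
  obtain ⟨p, hp⟩ := exists_prime W₀ hH.data.ell
  intro w hw
  exact bad_K hH hp (pext_self p ⊥) le_rfl w ((h1_pos hH w).1 hw)

/-- A finite normal extension. -/
theorem exists_normal {F : Type} [Field F] [NumberField F] (M : IntermediateField F (AlgebraicClosure F)) [FiniteDimensional F M] :
    ∃ N : IntermediateField F (AlgebraicClosure F), FiniteDimensional F N ∧ M ≤ N ∧
      ∀ s : AlgebraicClosure F ≃ₐ[F] AlgebraicClosure F, ∀ x ∈ N, s x ∈ N := by
  refine ⟨IntermediateField.normalClosure F M (AlgebraicClosure F), inferInstance, M.le_normalClosure, fun s x hx => ?_⟩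
  have hn : Normal F (IntermediateField.normalClosure F M (AlgebraicClosure F)) := inferInstance
  have h1 := (IntermediateField.normal_iff_forall_map_le').1 hn s
  exact h1 ⟨x, hx, rfl⟩

/-- If the primes of F dividing the discriminant are unramified in M then W₀ has bad reduction at all primes of M dividing it. -/
theorem bad_unr (hH : BaseH F W₀ Om m ψ) (M : IntermediateField F (AlgebraicClosure F)) [NumberField M]
    (h : ∀ v : HeightOneSpectrum (𝓞 F), W₀.Δ ∈ v.asIdeal → ¬ RamF M v.asIdeal) : BadM W₀ M := by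
  classical
  intro w hΔw hgood
  have hMf : FiniteDimensional F M := FiniteDimensional.right ℚ F M
  obtain ⟨N, hNf, hMN, hNn⟩ := exists_normal M
  have hbn : NumberField (⊥ : IntermediateField F (AlgebraicClosure F)) := H16C.FR_numberField _
  obtain ⟨p, hp⟩ := exists_prime W₀ hH.data.ell
  obtain ⟨V, hV⟩ := exists_V M w
  obtain ⟨j, hj⟩ := exists_j F (AlgebraicClosure F)
  obtain ⟨A, hA⟩ : ∃ A : F, A = -(algebraMap (𝓞 F) F W₀.c₄) / 48 := ⟨_, rfl⟩
  obtain ⟨B, hB'⟩ : ∃ B : F, B = -(algebraMap (𝓞 F) F W₀.c₆) / 864 := ⟨_, rfl⟩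
  have hd := y3_ne W₀ hA hB' hH.data.ell
  have hper : Per F (embF F A) (embF F B) Om := by
    have e1 : embF F A = -(eF F W₀.c₄) / 48 := by
      rw [hA, map_div₀, map_neg, map_ofNat]
      rfl
    have e2 : embF F B = -(eF F W₀.c₆) / 864 := by
      rw [hB', map_div₀, map_neg, map_ofNat]
      rfl
    rw [e1, e2]
    exact hH.data.per
  obtain ⟨act, hact⟩ := exists_CMA F A B Om j hd hper hj
  obtain ⟨v, hvw⟩ := c3_below (M := ⊥) bot_le w
  have hup : ∀ a : 𝓞 (⊥ : IntermediateField F (AlgebraicClosure F)), ∃ b : 𝓞 M,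
      ((a : (⊥ : IntermediateField F (AlgebraicClosure F))) : AlgebraicClosure F) = ((b : M) : AlgebraicClosure F) := by
    intro a
    have hle : (⊥ : IntermediateField F (AlgebraicClosure F)) ≤ M := bot_le
    refine ⟨⟨⟨((a : (⊥ : IntermediateField F (AlgebraicClosure F))) : AlgebraicClosure F), hle a.1.2⟩, ?_⟩, rfl⟩
    have h2 : IsIntegral ℤ (a : (⊥ : IntermediateField F (AlgebraicClosure F))) := a.isIntegral_coe
    have h3 : IsIntegral ℤ ((IntermediateField.inclusion hle) (a : (⊥ : IntermediateField F (AlgebraicClosure F)))) :=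
      h2.map ((IntermediateField.inclusion hle).toRingHom.toIntAlgHom)
    exact h3
  have hv : ∀ a : 𝓞 (⊥ : IntermediateField F (AlgebraicClosure F)), a ∈ v.asIdeal →
      V.valuation ((a : (⊥ : IntermediateField F (AlgebraicClosure F))) : AlgebraicClosure F) < 1 := by
    intro a ha
    obtain ⟨b, hb⟩ := hup a
    rw [hb]
    exact hV b ((hvw a b hb).1 ha)
  have hΔv : algebraMap (𝓞 F) (𝓞 (⊥ : IntermediateField F (AlgebraicClosure F))) W₀.Δ ∈ v.asIdeal :=
    (hvw _ (algebraMap (𝓞 F) (𝓞 M) W₀.Δ) rfl).2 hΔw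
  have hVp : V.valuation (p : AlgebraicClosure F) = 1 := c3_vp hp hv hΔv
  have hGM := gmd_of_good W₀ hA hB' w hV hgood
  have hΔA : (WAB A B).Δ ≠ 0 := by
    have e : (WAB A B).Δ = -16 * (4 * A ^ 3 + 27 * B ^ 2) := by
      unfold WAB WeierstrassCurve.Δ WeierstrassCurve.b₂ WeierstrassCurve.b₄ WeierstrassCurve.b₆ WeierstrassCurve.b₈
      ring
    rw [e]
    exact mul_ne_zero (by norm_num) hd
  obtain ⟨T, hT, hT0⟩ := c3_point hact hp.prime
  refine core_bad hH.data.ell (jint_of hH.data.per hH.data.ell) hp.prime hp.five hA hB' ⊥ (bad_bot hH) hΔv hv hVp hT hT0 ?_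
  intro g hg0 hg
  have hCL : clos ⊥ M ≤ N := H55P.clos_le ⊥ M N hMN fun s _ x hx => hNn s x hx
  have hCf : FiniteDimensional F (clos ⊥ M) := H55P.finDim_of_le hCL
  have hgN : g ∈ (clos ⊥ M).fixingSubgroup := by
    refine H55P.inert_mem ⊥ (clos ⊥ M) bot_le (fun s hs x hx => H55P.clos_norm ⊥ M s hs x hx) V ?_ g hg0 hg
    intro v' hbel hram
    have hr := H55P.clos_ram ⊥ M N bot_le hMN (fun s _ x hx => hNn s x hx) v' hram
    obtain ⟨v₀, hv₀⟩ : ∃ v₀ : HeightOneSpectrum (𝓞 F),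
        ∀ x : 𝓞 F, x ∈ v₀.asIdeal ↔ algebraMap (𝓞 F) (𝓞 (⊥ : IntermediateField F (AlgebraicClosure F))) x ∈ v'.asIdeal :=
      ⟨⟨v'.asIdeal.under (𝓞 F), inferInstance, mt Ideal.eq_bot_of_comap_eq_bot v'.ne_bot⟩, fun x => Iff.rfl⟩
    refine h v₀ ?_ ((y9_ram hv₀ M).1 hr)
    rw [hv₀, hbel]
    exact hv _ hΔv
  refine inert_triv hΔA hGM g ?_ hg p hVp T hT
  intro x hx
  exact (IntermediateField.mem_fixingSubgroup_iff _ _).1 hgN x (H55P.le_clos ⊥ M hx)

end H13R
end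

-- from Lib.H13R.E1
section

/-! # H13R: Selmer groups in the tower over M -/

open NumberField IsDedekindDomain WeierstrassCurve

namespace H13R

open H55P (IQ embF eF LF Per IsHecke Pt ac acR Inert Dec Nm UnitP Ram RamF PExt SelG ShaG PtsG clos UnrP)
open H35P (WAB Ker tt GoodW IntW)
open H55K.MG (VC Crd)
open H55K.TQ

variable {F : Type} [Field F] [NumberField F] [IQ F] {W₀ : WeierstrassCurve (𝓞 F)} {Om : ℂ}
    {m : Ideal (𝓞 F)} {ψ : Ideal (𝓞 F) →*₀ 𝓞 F} {p : ℕ}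

open Classical in
/-- There is no p-torsion over the fields in p-extensions of M. -/
theorem tors_KR (hH : BaseH F W₀ Om m ψ) (hp : PrimeH F W₀ p) {M L K : IntermediateField F (AlgebraicClosure F)}
    [NumberField M] (hUM : UnrP p M) (hL : PExt p M L) (hK : K ≤ L) (T : Pt (W₀⁄F) (AlgebraicClosure F)) (hT : p • T = 0)
    (hf : ∀ s ∈ K.fixingSubgroup, ac (W₀⁄F) s T = T) : T = 0 := by
  obtain ⟨v, hv⟩ := exists_goodGR hH hp M hUM
  have hLf : FiniteDimensional F L := hL.fin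
  have hMf : FiniteDimensional F M := H55P.finDim_of_le hL.le
  have hE : (W₀⁄F).IsElliptic := H55P.gen_ell W₀ hH.data.ell
  exact H55P.tors_tower (W₀⁄F) p hp.prime M L hL
    (fun T hT hf => H55P.tors_of_prime W₀ p hp.prime M v hv.disc hv.res hv.pts T hT hf) K hK T hT hf

open Classical in
/-- The tower theorem over M. -/
theorem selR (hH : BaseH F W₀ Om m ψ) (hp : PrimeH F W₀ p) {M L K : IntermediateField F (AlgebraicClosure F)}
    [NumberField M] [NumberField K] (hUM : UnrP p M) (hB : BadM W₀ M) (hL : PExt p M L) (hMK : M ≤ K) (hK : K ≤ L)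
    (hU : UnrP p K) (hN : NoRel p W₀ M K) (hS : SelG p W₀ M) : SelG p W₀ K ∧ ShaG p W₀ K ∧ PtsG p W₀ K := by
  have hLf : FiniteDimensional F L := hL.fin
  have hKf : FiniteDimensional F K := H55P.finDim_of_le hK
  have hMf : FiniteDimensional F M := H55P.finDim_of_le hL.le
  have hell : (W₀⁄F).IsElliptic := H55P.gen_ell W₀ hH.data.ell
  obtain ⟨v₀, hv₀⟩ := exists_goodGR hH hp M hUM
  have hC' := H55P.clos_pext p hp.prime M K L hL hMK hK
  have h0 : ∀ T : Pt (W₀⁄F) (AlgebraicClosure F), p • T = 0 →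
      (∀ s ∈ M.fixingSubgroup, ac (W₀⁄F) s T = T) → T = 0 := fun T hT hf =>
    H55P.tors_of_prime W₀ p hp.prime M v₀ hv₀.disc hv₀.res hv₀.pts T hT hf
  have hSK : H55P.SelZero (W₀⁄F) p K := H55K.NB.sel_towerB W₀ p hp.prime M (clos M K) hC' h0
    (fun s _ t _ T hT => H55K.NB.comm_tors hH hp.prime s t T hT)
    (fun v hv => by
      have hv' := H55P.clos_ram M K L hMK hK hL.norm v hv
      have hn := H55P.ram_norm p hp.prime M L hL K hMK hK hU v hv'
      refine ⟨fun hpv => ?_, ?_⟩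
      · have h1 : v.asIdeal ∣ Ideal.span {(p : 𝓞 M)} := by
          rw [Ideal.dvd_iff_le, Ideal.span_singleton_le_iff_mem]
          exact hpv
        have h2 := map_dvd Ideal.absNorm h1
        rw [Ideal.absNorm_span_natCast] at h2
        obtain ⟨k, -, hk⟩ := (Nat.dvd_prime_pow hp.prime).1 h2
        have hk0 : k ≠ 0 := by
          rintro rfl
          rw [pow_zero, Ideal.absNorm_eq_one_iff] at hk
          exact v.isPrime.ne_top hk
        have h3 : p ∣ Ideal.absNorm v.asIdeal := by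
          rw [hk]
          exact dvd_pow_self p hk0
        have h4 : 0 < Ideal.absNorm v.asIdeal := by
          rw [hk]
          exact pow_pos hp.prime.pos k
        have h5 : p ∣ 1 := by
          have h6 := Nat.dvd_sub h3 hn
          rwa [Nat.sub_sub_self h4] at h6
        exact hp.prime.one_lt.ne' (Nat.dvd_one.1 h5)
      by_cases hΔ : algebraMap (𝓞 F) (𝓞 M) W₀.Δ ∈ v.asIdeal
      · right
        intro V hV T hT hf
        exact bad_torsR hH hp hL (H55P.clos_le M K L hK hL.norm) hB (V := V) (v := v) (fun a ha => (hV _).1 ha) hΔ T hT hf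
      · left
        exact ⟨hΔ, hN v hv' hΔ⟩) hS K hMK (H55P.le_clos M K)
  exact ⟨hSK, H55P.sha_zero (W₀⁄F) p hp.prime K hSK, H55P.pts_fin (W₀⁄F) p hp.prime K hSK⟩

open Classical in
/-- Descent of the vanishing of the Selmer group from K to M. -/
theorem sel_downR (hH : BaseH F W₀ Om m ψ) (hp : PrimeH F W₀ p) {M L K : IntermediateField F (AlgebraicClosure F)}
    [NumberField M] (hUM : UnrP p M) (hL : PExt p M L) (hMK : M ≤ K) (hK : K ≤ L) (hS : SelG p W₀ K) : SelG p W₀ M := by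
  have hLf : FiniteDimensional F L := hL.fin
  induction hn : Module.finrank F K using Nat.strong_induction_on generalizing K with
  | _ n ih =>
    rcases eq_or_ne K M with rfl | hne
    · exact hS
    obtain ⟨N, hMN, hNK, hdeg, hnorm⟩ := H55P.chain_step p hp.prime M K L hL hMK hK hne
    have hKf : FiniteDimensional F K := H55P.finDim_of_le hK
    have hNf : FiniteDimensional F N := H55P.finDim_of_le hNK
    have hNpos : 0 < Module.finrank F N := Module.finrank_pos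
    have hlt : Module.finrank F N < n := by
      rw [← hn, hdeg]
      exact lt_mul_of_one_lt_right hNpos hp.prime.one_lt
    refine ih _ hlt hMN (hNK.trans hK) ?_ rfl
    refine H55P.sel_down (W₀⁄F) p N K hNK (fun s hs t ht => ?_) (fun T hT hf => tors_KR hH hp hUM hL hK T hT hf) hS
    rw [IntermediateField.mem_fixingSubgroup_iff] at ht ⊢
    intro x hx
    have e : (s * t * s⁻¹) x = s (t (s⁻¹ x)) := rfl
    have h1 : s⁻¹ x ∈ K := hnorm s⁻¹ (inv_mem hs) x hx
    rw [e, ht _ h1]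
    exact s.apply_symm_apply x

end H13R
end
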