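import Mathlib
import Pool.Agent.Lib.H1M.PP.D_H55K_D2
import Pool.Agent.Lib.H1M.PP.M002
import Pool.Agent.Lib.H1M.PP.M003
import Pool.Agent.Lib.H1M.PP.M010
import Pool.Agent.Lib.H1M.PP.M018
import Pool.Agent.Lib.H1M.PP.M027
import Pool.Agent.Lib.H1M.PP.M030
import Pool.Agent.Lib.H1M.PP.M037
import Pool.Agent.Lib.H1M.PP.M039
import Pool.Agent.Lib.H1M.PP.M041
import Pool.Agent.Lib.H1M.PP.M042
import Pool.Agent.Lib.H1M.PP.M043
import Pool.Agent.Lib.H1M.PP.M044
import Pool.Agent.Lib.H1M.PP.M049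
import Pool.Agent.Lib.H1M.PP.M050
import Pool.Agent.Lib.H1M.PP.M053
import Pool.Agent.Lib.H1M.PP.M056
import Pool.Agent.Lib.H1M.PP.M058
import Pool.Agent.Lib.H1M.PP.M059
import Pool.Agent.Lib.H1M.PP.M070
import Pool.Agent.Lib.H1M.PP.M071
import Pool.Agent.Lib.H1M.PP.M072

/-! Merged copies (to shorten the build) of Lib.H13D.R1, Lib.H13D.R2, Lib.H13D.R3, Lib.H13D.BF, Lib.H13X.XN2, Lib.H13X.XN3, Lib.H13X.XN4, Lib.H13X.XN5, Lib.H13X.XG2. -/

-- from Lib.H13D.R1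
section

/-! # H13D, part R: the primes ramified in F: an automorphism of order two -/

open NumberField IsDedekindDomain WeierstrassCurve

namespace H13D

open H55P (IQ embF eF LF Per IsHecke Pt ac Inert Dec Nm)
open H35P (WAB Ker tt GoodW IntW)
open H55K

variable {F : Type} [Field F] [NumberField F] [IQ F] {A B : F} {Ω : Type} [Field Ω] [DecidableEq Ω]
  [Algebra F Ω] {V : ValuationSubring Ω} {Kg : AddSubgroup (Pt (WAB A B) Ω)} {u r : Ω}

/-- Chunk R1 (S). xn (tP) - xn (tP') = (t (xc P) - t (xc P'))/u^2 = (t u/u)^2 t (xn P - xn P') (xc_acr, xn_sub); z = xn P - xn P' is in V (hR.int), V(t z - z) < 1, V((t u/u)^2) ≤ 1. -/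
theorem xn_acr_sub (hR : RM A B V Kg u r) (t : Ω ≃+* Ω) (hA : t (algebraMap F Ω A) = algebraMap F Ω A)
    (hB : t (algebraMap F Ω B) = algebraMap F Ω B) (ht : ∀ x ∈ V, V.valuation (t x - x) < 1) (hu : V.valuation (t u / u) ≤ 1)
    {P P' : Pt (WAB A B) Ω} (hP : P ∉ Kg) (hP' : P' ∉ Kg) :
    V.valuation (xn u r (acr t hA hB P) - xn u r (acr t hA hB P') - (t u / u) ^ 2 * (xn u r P - xn u r P')) < 1 := by
  have hu0 := hR.une
  set z := xn u r P - xn u r P' with hz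
  have hzV : z ∈ V := by
    rw [← V.valuation_le_one_iff]
    exact (V.valuation.map_sub _ _).trans (max_le (hR.int P hP) (hR.int P' hP'))
  have h1 : xn u r (acr t hA hB P) - xn u r (acr t hA hB P') = (t u / u) ^ 2 * t z := by
    have h2 : xc P - xc P' = u ^ 2 * z := by
      rw [hz]
      unfold xn
      field_simp
      ring
    have h3 : t (xc P) - t (xc P') = t u ^ 2 * t z := by
      rw [← map_sub, h2, map_mul, map_pow]
    unfold xn
    rw [xc_acr, xc_acr]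
    field_simp
    linear_combination h3
  have h4 : xn u r (acr t hA hB P) - xn u r (acr t hA hB P') - (t u / u) ^ 2 * z = (t u / u) ^ 2 * (t z - z) := by
    rw [h1]
    ring
  rw [h4, map_mul, map_pow]
  calc V.valuation (t u / u) ^ 2 * V.valuation (t z - z) ≤ 1 * V.valuation (t z - z) :=
        mul_le_mul_left (pow_le_one' hu 2) _
    _ = V.valuation (t z - z) := one_mul _
    _ < 1 := ht z hzV

/-- Chunk R1 (M). Write tP = acr t P, T = the points killed by l; t maps T to T; the nonzero points of T are not in Kg (hR.tors). Suppose tQ₁ ≠ -Q₁ and tQ₂ ≠ Q₂ for some Q₁, Q₂ in T (otherwise done). P₁ = Q₁ + tQ₁ ≠ 0, tP₁ = P₁; P₂ = Q₂ - tQ₂ ≠ 0, tP₂ = -P₂ (hinv). P₁ ≠ ±P₂ (else tP₁ = -P₁, 2 P₁ = 0, P₁ = 0: l odd), so V(xn P₁ - xn P₂) = 1 (hR.diff).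
xn (tP₁) = xn P₁, xn (tP₂) = xn (-P₂) = xn P₂ (xc (-P) = xc P), so by xn_acr_sub V(((t u/u)^2 - 1) (xn P₁ - xn P₂)) < 1: V((t u/u)^2 - 1) < 1. For R ≠ 0 in T: xn_acr_sub for R and P₁: xn (tR) - xn P₁ is congruent to xn R - xn P₁, so V(xn (tR) - xn R) < 1, cls_of: tR - R or tR + R in Kg, it is in T, so it is 0 (hR.tors). So tR = R or tR = -R for every R in T;
H55K.two_sub (G8B.lean) for the group T (AddMonoidHom.ker or a subgroup type; K = bottom), f = t, g = the identity; or directly: if tR = R ≠ -R and tR' = -R' ≠ R' then t(R + R') is neither R + R' nor -(R + R'). -/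
theorem inv_pm (hR : RM A B V Kg u r) {l : ℕ} (hl : l.Prime) (h2 : l ≠ 2) (hlV : V.valuation (l : Ω) = 1) (t : Ω ≃+* Ω)
    (hA : t (algebraMap F Ω A) = algebraMap F Ω A) (hB : t (algebraMap F Ω B) = algebraMap F Ω B)
    (ht : ∀ x ∈ V, V.valuation (t x - x) < 1) (hu : V.valuation (t u / u) ≤ 1)
    (hinv : ∀ P : Pt (WAB A B) Ω, l • P = 0 → acr t hA hB (acr t hA hB P) = P) :
    (∀ P : Pt (WAB A B) Ω, l • P = 0 → acr t hA hB P = P) ∨ ∀ P : Pt (WAB A B) Ω, l • P = 0 → acr t hA hB P = -P := by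
  by_contra hc
  push Not at hc
  obtain ⟨⟨Q₂, hQ₂, hne₂⟩, Q₁, hQ₁, hne₁⟩ := hc
  -- the odd prime
  have hodd : ∀ P : Pt (WAB A B) Ω, l • P = 0 → P + P = 0 → P = 0 := by
    intro P h1 h3
    have h4 : (addOrderOf P) ∣ l := addOrderOf_dvd_of_nsmul_eq_zero h1
    have h5 : (addOrderOf P) ∣ 2 := addOrderOf_dvd_of_nsmul_eq_zero (by rw [two_nsmul]; exact h3)
    have h6 : Nat.Coprime l 2 := (Nat.coprime_primes hl Nat.prime_two).2 h2
    have h7 := Nat.dvd_gcd h4 h5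
    rw [Nat.Coprime.gcd_eq_one h6] at h7
    exact AddMonoid.addOrderOf_eq_one_iff.1 (Nat.dvd_one.1 h7)
  have hK : ∀ P : Pt (WAB A B) Ω, l • P = 0 → P ∈ Kg → P = 0 := fun P h1 h3 => hR.tors l hlV P h3 h1
  have hTt : ∀ P : Pt (WAB A B) Ω, l • P = 0 → l • (acr t hA hB P) = 0 := by
    intro P h1
    rw [← map_nsmul, h1, map_zero]
  have hTa : ∀ P Q : Pt (WAB A B) Ω, l • P = 0 → l • Q = 0 → l • (P + Q) = 0 := by
    intro P Q h1 h3
    rw [smul_add, h1, h3, add_zero]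
  have hTs : ∀ P Q : Pt (WAB A B) Ω, l • P = 0 → l • Q = 0 → l • (P - Q) = 0 := by
    intro P Q h1 h3
    rw [smul_sub, h1, h3, sub_zero]
  have hxn : ∀ P : Pt (WAB A B) Ω, xn u r (-P) = xn u r P := by
    intro P
    unfold xn
    rw [xc_neg]
  set P₁ := Q₁ + acr t hA hB Q₁ with hP₁
  set P₂ := Q₂ - acr t hA hB Q₂ with hP₂
  have hP₁0 : P₁ ≠ 0 := by
    intro h
    exact hne₁ (eq_neg_of_add_eq_zero_right h)
  have hP₂0 : P₂ ≠ 0 := by
    intro h
    exact hne₂ (sub_eq_zero.1 h).symm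
  have hl₁ : l • P₁ = 0 := hTa _ _ hQ₁ (hTt _ hQ₁)
  have hl₂ : l • P₂ = 0 := hTs _ _ hQ₂ (hTt _ hQ₂)
  have ht₁ : acr t hA hB P₁ = P₁ := by
    rw [hP₁, map_add, hinv _ hQ₁, add_comm]
  have ht₂ : acr t hA hB P₂ = -P₂ := by
    rw [hP₂, map_sub, hinv _ hQ₂, neg_sub]
  have hn₁ : P₁ ∉ Kg := fun h => hP₁0 (hK _ hl₁ h)
  have hn₂ : P₂ ∉ Kg := fun h => hP₂0 (hK _ hl₂ h)
  have hnm : P₁ - P₂ ∉ Kg := by
    intro h
    have h3 := sub_eq_zero.1 (hK _ (hTs _ _ hl₁ hl₂) h)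
    apply hP₁0
    apply hodd _ hl₁
    nth_rewrite 1 [h3]
    rw [← ht₁, h3, ht₂, add_neg_cancel]
  have hnp : P₁ + P₂ ∉ Kg := by
    intro h
    have h3 : P₁ = -P₂ := eq_neg_of_add_eq_zero_left (hK _ (hTa _ _ hl₁ hl₂) h)
    apply hP₂0
    apply hodd _ hl₂
    have h4 : P₂ = -P₁ := by rw [h3, neg_neg]
    have h5 : acr t hA hB P₂ = -P₁ := by rw [h4, map_neg, ht₁]
    rw [ht₂, neg_inj] at h5
    nth_rewrite 1 [h5]
    rw [h3, neg_add_cancel]
  have hd := hR.diff P₁ P₂ hn₁ hn₂ hnm hnp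
  set c := (t u / u) ^ 2 with hc
  have h3 := xn_acr_sub hR t hA hB ht hu hn₁ hn₂
  rw [ht₁, ht₂, hxn, ← hc] at h3
  have h4 : V.valuation (1 - c) < 1 := by
    have h5 : xn u r P₁ - xn u r P₂ - c * (xn u r P₁ - xn u r P₂) = (1 - c) * (xn u r P₁ - xn u r P₂) := by ring
    rw [h5, map_mul, hd, mul_one] at h3
    exact h3
  have hall : ∀ R : Pt (WAB A B) Ω, l • R = 0 → acr t hA hB R = R ∨ acr t hA hB R = -R := by
    intro R hlR
    by_cases hR0 : R = 0
    · left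
      rw [hR0, map_zero]
    have hnR : R ∉ Kg := fun h => hR0 (hK _ hlR h)
    have hntR : acr t hA hB R ∉ Kg := fun h => hR0 ((acr_zero_iff t hA hB R).1 (hK _ (hTt _ hlR) h))
    have h5 := xn_acr_sub hR t hA hB ht hu hnR hn₁
    rw [ht₁, ← hc] at h5
    have h6 : V.valuation (xn u r R - xn u r P₁) ≤ 1 :=
      (V.valuation.map_sub _ _).trans (max_le (hR.int R hnR) (hR.int P₁ hn₁))
    have h7 : V.valuation ((1 - c) * (xn u r R - xn u r P₁)) < 1 := by
      rw [map_mul]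
      calc V.valuation (1 - c) * V.valuation (xn u r R - xn u r P₁) ≤ V.valuation (1 - c) * 1 :=
            mul_le_mul_right h6 _
        _ = V.valuation (1 - c) := mul_one _
        _ < 1 := h4
    have h8 : V.valuation (xn u r (acr t hA hB R) - xn u r R) < 1 := by
      have h9 : xn u r (acr t hA hB R) - xn u r R =
          (xn u r (acr t hA hB R) - xn u r P₁ - c * (xn u r R - xn u r P₁)) -
            (1 - c) * (xn u r R - xn u r P₁) := by ring
      rw [h9]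
      exact lt_of_le_of_lt (V.valuation.map_sub _ _) (max_lt h5 h7)
    rcases cls_of hR hntR hnR h8 with h10 | h10
    · left
      exact sub_eq_zero.1 (hK _ (hTs _ _ (hTt _ hlR) hlR) h10)
    · right
      exact eq_neg_of_add_eq_zero_left (hK _ (hTa _ _ (hTt _ hlR) hlR) h10)
  have e₂ := (hall Q₂ hQ₂).resolve_left hne₂
  have e₁ := (hall Q₁ hQ₁).resolve_right hne₁
  rcases hall (Q₁ + Q₂) (hTa _ _ hQ₁ hQ₂) with h5 | h5
  · rw [map_add, e₁, e₂] at h5
    have h6 : -Q₂ = Q₂ := add_left_cancel h5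
    have h7 : Q₂ = 0 := hodd _ hQ₂ (by nth_rewrite 1 [← h6]; exact neg_add_cancel _)
    apply hne₂
    rw [h7, map_zero]
  · rw [map_add, e₁, e₂, neg_add] at h5
    have h6 : Q₁ = -Q₁ := add_right_cancel h5
    have h7 : Q₁ = 0 := hodd _ hQ₁ (by nth_rewrite 1 [h6]; exact neg_add_cancel _)
    apply hne₁
    rw [h7, map_zero, neg_zero]

end H13D
end

-- from Lib.H13D.R2
section

/-! # H13D, part R: a good model over F -/

open NumberField IsDedekindDomain WeierstrassCurve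

namespace H13D

open H55P (IQ embF eF LF Per IsHecke Pt ac Inert Dec Nm)
open H35P (WAB Ker tt GoodW IntW)
open H55K
open H55K.MG (VC Crd)

theorem r2_vc1 {F : Type} [Field F] [NumberField F] {A B : F} (W₀ : WeierstrassCurve (𝓞 F))
    (hA : A = -(algebraMap (𝓞 F) F W₀.c₄) / 48) (hB : B = -(algebraMap (𝓞 F) F W₀.c₆) / 864) :
    VC (WAB A B) (W₀⁄F) 1 (algebraMap (𝓞 F) F W₀.b₂ / 12) (algebraMap (𝓞 F) F W₀.a₁ / 2) (algebraMap (𝓞 F) F W₀.a₃ / 2) := by
  set w : 𝓞 F →+* F := algebraMap (𝓞 F) F with hw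
  have k1 : (1 : F) * (w W₀.a₁) = (WAB A B).a₁ + 2 * (w W₀.a₁ / 2) := by
    simp only [WAB]
    ring
  have k2 : (1 : F) ^ 2 * (w W₀.a₂) = (WAB A B).a₂ - (w W₀.a₁ / 2) * (WAB A B).a₁ + 3 * (w W₀.b₂ / 12) - (w W₀.a₁ / 2) ^ 2 := by
    simp only [WAB, WeierstrassCurve.b₂, map_add, map_mul, map_pow, map_ofNat]
    ring
  have k3 : (1 : F) ^ 3 * (w W₀.a₃) = (WAB A B).a₃ + (w W₀.b₂ / 12) * (WAB A B).a₁ + 2 * (w W₀.a₃ / 2) := by
    simp only [WAB]
    ring
  have k4 : (1 : F) ^ 4 * (w W₀.a₄) = (WAB A B).a₄ - (w W₀.a₁ / 2) * (WAB A B).a₃ + 2 * (w W₀.b₂ / 12) * (WAB A B).a₂ -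
      (w W₀.a₃ / 2 + (w W₀.b₂ / 12) * (w W₀.a₁ / 2)) * (WAB A B).a₁ + 3 * (w W₀.b₂ / 12) ^ 2 - 2 * (w W₀.a₁ / 2) * (w W₀.a₃ / 2) := by
    simp only [WAB, WeierstrassCurve.b₂, hA, WeierstrassCurve.c₄, WeierstrassCurve.b₄, map_add, map_sub, map_mul, map_pow, map_ofNat]
    ring
  have k6 : (1 : F) ^ 6 * (w W₀.a₆) = (WAB A B).a₆ + (w W₀.b₂ / 12) * (WAB A B).a₄ + (w W₀.b₂ / 12) ^ 2 * (WAB A B).a₂ + (w W₀.b₂ / 12) ^ 3 -
      (w W₀.a₃ / 2) * (WAB A B).a₃ - (w W₀.a₃ / 2) ^ 2 - (w W₀.b₂ / 12) * (w W₀.a₃ / 2) * (WAB A B).a₁ := by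
    simp only [WAB, WeierstrassCurve.b₂, hA, hB, WeierstrassCurve.c₄, WeierstrassCurve.b₄, WeierstrassCurve.c₆, WeierstrassCurve.b₆, map_neg, map_add, map_sub, map_mul, map_pow, map_ofNat]
    ring
  exact ⟨one_ne_zero, k1, k2, k3, k4, k6⟩

theorem r2_vc2 {k : Type} [Field k] (W : WeierstrassCurve k) (C : VariableChange k) : VC W (C • W) (C.u : k) C.r C.s C.t := by
  have hu : (C.u : k) ≠ 0 := C.u.ne_zero
  have hi : (C.u : k) * ((C.u⁻¹ : kˣ) : k) = 1 := C.u.mul_inv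
  refine ⟨hu, ?_, ?_, ?_, ?_, ?_⟩
  · rw [variableChange_a₁]
    linear_combination (W.a₁ + 2 * C.s) * hi
  · rw [variableChange_a₂, ← mul_assoc, ← mul_pow, hi, one_pow, one_mul]
  · rw [variableChange_a₃, ← mul_assoc, ← mul_pow, hi, one_pow, one_mul]
  · rw [variableChange_a₄, ← mul_assoc, ← mul_pow, hi, one_pow, one_mul]
  · rw [variableChange_a₆, ← mul_assoc, ← mul_pow, hi, one_pow, one_mul]

theorem r2_trans {k : Type} [Field k] {W W' W'' : WeierstrassCurve k} {r s t u' r' s' t' : k} (h : VC W W' 1 r s t)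
    (h' : VC W' W'' u' r' s' t') : VC W W'' u' (r' + r) (s' + s) (t' + s * r' + t) := by
  obtain ⟨-, a1, a2, a3, a4, a6⟩ := h
  obtain ⟨hu, b1, b2, b3, b4, b6⟩ := h'
  rw [one_mul] at a1
  rw [one_pow, one_mul] at a2 a3 a4 a6
  rw [a1, a2, a3, a4, a6] at *
  refine ⟨hu, ?_, ?_, ?_, ?_, ?_⟩
  · linear_combination b1
  · linear_combination b2
  · linear_combination b3
  · linear_combination b4
  · linear_combination b6

theorem r2_map {F : Type} [Field F] {Ω : Type} [Field Ω] [Algebra F Ω] {W W' : WeierstrassCurve F} {u r s t : F} (h : VC W W' u r s t) :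
    VC (W⁄Ω) (W'⁄Ω) (algebraMap F Ω u) (algebraMap F Ω r) (algebraMap F Ω s) (algebraMap F Ω t) := by
  obtain ⟨hu, k1, k2, k3, k4, k6⟩ := h
  have j1 := congrArg (algebraMap F Ω) k1
  have j2 := congrArg (algebraMap F Ω) k2
  have j3 := congrArg (algebraMap F Ω) k3
  have j4 := congrArg (algebraMap F Ω) k4
  have j6 := congrArg (algebraMap F Ω) k6
  simp only [map_add, map_sub, map_mul, map_pow, map_ofNat] at j1 j2 j3 j4 j6
  exact ⟨(map_ne_zero _).2 hu, j1, j2, j3, j4, j6⟩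

/-- Chunk R2 (M). h: C over F with C • (W₀⁄F) integral at v and discriminant of value 1; W' = C • (W₀⁄F), GoodW (W'⁄Ω) V (hV : V(x) ≤ 1 iff v(x) ≤ 1, Abw.eq_one). VC ((WAB A B)⁄Ω) (W'⁄Ω) u r s t with the images of u = C.u, r = C.r + ρ, s = C.s + α, t = C.t + C.r α + τ, where ρ = b₂/12, α = a₁/2, τ = a₃/2 (coefficients of W₀⁄F):
composition of the change of variables of exists_model (B3.lean, H55K.TQ.rf_fix: k1 .. k6) with C (variableChange_a₁, ..; VariableChange.mul_def); check the five equations by field_simp, ring or linear_combination. MG.vc_iso (the discriminants are not 0): Θ; MG.kg_ex: Kg; rm_of. The last statement: H55K.TQ.inert_triv (T1.lean) with M = Set.range (algebraMap F Ω), which g fixes. -/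
theorem exists_rm_F {F : Type} [Field F] [NumberField F] {A B : F} {Ω : Type} [Field Ω] [DecidableEq Ω] [Algebra F Ω]
    (W₀ : WeierstrassCurve (𝓞 F)) (hA : A = -(algebraMap (𝓞 F) F W₀.c₄) / 48) (hB : B = -(algebraMap (𝓞 F) F W₀.c₆) / 864)
    (hΔ : W₀.Δ ≠ 0) (v : HeightOneSpectrum (𝓞 F)) (h : GoodAt (W₀⁄F) v) {V : ValuationSubring Ω} (hV : Abw V v) :
    ∃ (Kg : AddSubgroup (Pt (WAB A B) Ω)) (u r : F), RM A B V Kg (algebraMap F Ω u) (algebraMap F Ω r) ∧
      ∀ g : Ω ≃ₐ[F] Ω, Inert V g → ∀ n : ℕ, V.valuation (n : Ω) = 1 → ∀ T : Pt (WAB A B) Ω, n • T = 0 → ac (WAB A B) g T = T := by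
  obtain ⟨C, c1, c2, c3, c4, c6, cd⟩ := h
  have hVCF := r2_trans (r2_vc1 W₀ hA hB) (r2_vc2 (W₀⁄F) C)
  have hVC := r2_map (Ω := Ω) hVCF
  have hG : GoodW ((C • (W₀⁄F))⁄Ω) V := by
    refine ⟨⟨(hV _).2 c1, (hV _).2 c2, (hV _).2 c3, (hV _).2 c4, (hV _).2 c6⟩, ?_⟩
    have e1 : ((C • (W₀⁄F))⁄Ω).Δ = algebraMap F Ω (C • (W₀⁄F)).Δ := (C • (W₀⁄F)).map_Δ _
    rw [e1]
    exact (hV.eq_one _).2 cd
  have hd0 : (4 * A ^ 3 + 27 * B ^ 2) ≠ 0 := y3_ne W₀ hA hB hΔ
  have hd : (WAB A B).Δ ≠ 0 := by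
    have h2 : (WAB A B).Δ = -16 * (4 * A ^ 3 + 27 * B ^ 2) := by
      simp only [WAB, WeierstrassCurve.Δ, WeierstrassCurve.b₂, WeierstrassCurve.b₄, WeierstrassCurve.b₆, WeierstrassCurve.b₈]
      ring
    rw [h2]
    exact mul_ne_zero (by norm_num) hd0
  have hd1 : ((WAB A B)⁄Ω).Δ ≠ 0 := by
    have e1 : ((WAB A B)⁄Ω).Δ = algebraMap F Ω (WAB A B).Δ := (WAB A B).map_Δ _
    rw [e1]
    exact (map_ne_zero _).2 hd
  have hd2 : ((C • (W₀⁄F))⁄Ω).Δ ≠ 0 := by
    intro h0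
    have h1 := hG.disc
    rw [h0, map_zero] at h1
    exact zero_ne_one h1
  obtain ⟨Θ, hΘ⟩ := MG.vc_iso hVC hd1 hd2
  obtain ⟨Kg, hK⟩ := MG.kg_ex hG Θ
  refine ⟨Kg, _, _, rm_of hG ((map_ne_zero _).2 hVCF.une) hΘ hK, ?_⟩
  intro g hg n hn T hT
  refine TQ.inert_triv (M := Set.range (algebraMap F Ω)) hd ?_ g ?_ hg n hn T hT
  · exact ⟨_, _, _, _, _, ⟨_, rfl⟩, ⟨_, rfl⟩, ⟨_, rfl⟩, ⟨_, rfl⟩, hVC, hG⟩
  · rintro _ ⟨x, rfl⟩
    exact g.commutes x

end H13D
end

-- from Lib.H13D.R3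
section

/-! # H13D, part R: bad reduction at the primes ramified in F -/

open NumberField IsDedekindDomain WeierstrassCurve

namespace H13D

open H55P (IQ embF eF LF Per IsHecke Pt ac Inert Dec Nm)
open H35P (WAB Ker tt GoodW IntW)
open H55K
open H55K.MG (VC Crd)

/-- Chunk R3 (M). A CURVE OVER THE RATIONAL NUMBERS STAYS BAD OVER F AT THE RAMIFIED PRIMES. Follow the proof of H55K.TQ.hram_of (RF.lean) literally: the prime number p (3 or 5, not in v), Ω = AlgebraicClosure F, V above v (exists_abw), σ, the lift s in the inertia group of Gal(Ω/ℚ) with s = σ on F (H13S.inertia_lift), A₀, B₀, A, B, j, act, h : CMA, s' : Ω ≃+* Ω, hsA, hsB, hsc, hsl (semilinear: cma_galr).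
Instead of hGood, hfix: Kg, u, r from exists_rm_F (W₀ = W⁄(𝓞 F)). hu: s' (image of u) = image of σ u, V of the quotient is 1 (val_cj: v is stable since a - cj a in v; Abw.eq) (u = 0 impossible: RM.une). hinv: s' twice is an automorphism g of Ω over F (σ σ = id: cj_cj), inert (s (s x) - x = (s (s x) - s x) + (s x - x); s x in V), so it is trivial on the points killed by p (exists_rm_F), acr_trans, acr_eq_ac.
inv_pm: s' is 1 or -1 on the points killed by p. T₀ a generator (h.gen p): act (cj a) T₀ = ± act (cj a) (s' T₀) = ± s' (act a T₀) = act a T₀ (hsl) in both cases, so p divides a - cj a for all a: rf_card. -/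
theorem bad_ram {F : Type} [Field F] [NumberField F] [IQ F] {W : WeierstrassCurve ℤ} {Om : ℂ} (hΔ : W.Δ ≠ 0)
    (hper : Per F (-(eF F (W⁄(𝓞 F)).c₄) / 48) (-(eF F (W⁄(𝓞 F)).c₆) / 864) Om) (v : HeightOneSpectrum (𝓞 F))
    (hv : ∀ a : 𝓞 F, a - cj a ∈ v.asIdeal) : ¬ GoodAt ((W⁄(𝓞 F))⁄F) v := by
  classical
  intro hgood
  -- the prime number p
  obtain ⟨p, hp, hp2, hpv⟩ : ∃ p : ℕ, p.Prime ∧ p ≠ 2 ∧ (p : 𝓞 F) ∉ v.asIdeal := by
    by_cases h3 : ((3 : ℕ) : 𝓞 F) ∈ v.asIdeal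
    · refine ⟨5, by norm_num, by norm_num, fun h5 => ?_⟩
      apply v.isPrime.ne_top
      rw [Ideal.eq_top_iff_one]
      have e : (1 : 𝓞 F) = 2 * ((3 : ℕ) : 𝓞 F) - ((5 : ℕ) : 𝓞 F) := by norm_num
      rw [e]
      exact v.asIdeal.sub_mem (v.asIdeal.mul_mem_left _ h3) h5
    · exact ⟨3, by norm_num, by norm_num, h3⟩
  set Ω := AlgebraicClosure F with hΩ
  have hcl : IsAlgClosure ℚ Ω := ⟨inferInstance, Algebra.IsAlgebraic.trans ℚ F Ω⟩
  -- the valuation ring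
  obtain ⟨V, hV⟩ := exists_abw Ω v
  -- the automorphism
  obtain ⟨σ, hσ'⟩ := exists_cj F
  have hn : Normal ℚ Ω := IsAlgClosure.normal ℚ Ω
  set s0 : Ω ≃ₐ[ℚ] Ω := AlgEquiv.liftNormal σ Ω with hs0
  have hs0' : ∀ x : F, s0 (algebraMap F Ω x) = algebraMap F Ω (σ x) := fun x => AlgEquiv.liftNormal_commutes _ _ _
  set N' : IntermediateField ℚ Ω := (IsScalarTower.toAlgHom ℚ F Ω).fieldRange with hN'
  have hfin : FiniteDimensional ℚ N' :=
    (AlgEquiv.ofInjectiveField (IsScalarTower.toAlgHom ℚ F Ω)).toLinearEquiv.finiteDimensional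
  have hmem : ∀ x : Ω, x ∈ N' → ∃ y : F, algebraMap F Ω y = x := by
    rintro x ⟨y, hy⟩
    exact ⟨y, hy⟩
  obtain ⟨s, hsI, hs1⟩ := H13S.inertia_lift N' V s0 (by
      intro x hx
      obtain ⟨y, rfl⟩ := hmem x hx
      rw [hs0']
      exact ⟨σ y, rfl⟩) (by
      intro x hx hxV
      obtain ⟨y, rfl⟩ := hmem x hx
      rw [hs0', ← map_sub, hV.lt]
      refine H13S.in4_val v σ ?_ y ((hV y).1 hxV)
      intro z
      have e : σ • z = cj z := by
        apply RingOfIntegers.coe_injective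
        exact hσ' z
      rw [e, ← neg_sub]
      exact v.asIdeal.neg_mem (hv z))
  have hs : ∀ x : F, s (algebraMap F Ω x) = algebraMap F Ω (σ x) := by
    intro x
    rw [hs1 (algebraMap F Ω x) ⟨x, rfl⟩, hs0']
  -- the curve over the rational numbers
  set A₀ : ℚ := -(W⁄ℚ).c₄ / 48 with hA₀
  set B₀ : ℚ := -(W⁄ℚ).c₆ / 864 with hB₀
  have hc4 : algebraMap (𝓞 F) F (W⁄(𝓞 F)).c₄ = algebraMap ℚ F (W⁄ℚ).c₄ := by
    have e1 : (W⁄(𝓞 F)).c₄ = algebraMap ℤ (𝓞 F) W.c₄ := W.map_c₄ _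
    have e2 : (W⁄ℚ).c₄ = algebraMap ℤ ℚ W.c₄ := W.map_c₄ _
    rw [e1, e2]
    simp
  have hc6 : algebraMap (𝓞 F) F (W⁄(𝓞 F)).c₆ = algebraMap ℚ F (W⁄ℚ).c₆ := by
    have e1 : (W⁄(𝓞 F)).c₆ = algebraMap ℤ (𝓞 F) W.c₆ := W.map_c₆ _
    have e2 : (W⁄ℚ).c₆ = algebraMap ℤ ℚ W.c₆ := W.map_c₆ _
    rw [e1, e2]
    simp
  obtain ⟨A, hA⟩ : ∃ A : F, A = -(algebraMap (𝓞 F) F (W⁄(𝓞 F)).c₄) / 48 := ⟨_, rfl⟩
  obtain ⟨B, hB⟩ : ∃ B : F, B = -(algebraMap (𝓞 F) F (W⁄(𝓞 F)).c₆) / 864 := ⟨_, rfl⟩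
  have hA' : A = algebraMap ℚ F A₀ := by
    rw [hA, hc4, hA₀, map_div₀, map_neg, map_ofNat]
  have hB' : B = algebraMap ℚ F B₀ := by
    rw [hB, hc6, hB₀, map_div₀, map_neg, map_ofNat]
  have hΔF : (W⁄(𝓞 F)).Δ = algebraMap ℤ (𝓞 F) W.Δ := W.map_Δ _
  have hΔ0 : (W⁄(𝓞 F)).Δ ≠ 0 := by
    rw [hΔF]
    intro h0
    apply hΔ
    have h1 : ((W.Δ : ℤ) : 𝓞 F) = 0 := h0
    exact_mod_cast h1
  have hd := y3_ne (W⁄(𝓞 F)) hA hB hΔ0
  have hper' : Per F (embF F A) (embF F B) Om := by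
    have e1 : embF F A = -(eF F (W⁄(𝓞 F)).c₄) / 48 := by
      rw [hA, map_div₀, map_neg, map_ofNat]
      rfl
    have e2 : embF F B = -(eF F (W⁄(𝓞 F)).c₆) / 864 := by
      rw [hB, map_div₀, map_neg, map_ofNat]
      rfl
    rw [e1, e2]
    exact hper
  obtain ⟨j, hj⟩ := exists_j F Ω
  obtain ⟨act, h⟩ := exists_CMA F A B Om j hd hper' hj
  set s' : Ω ≃+* Ω := (s : Ω ≃+* Ω) with hs'
  have hsA : s' (algebraMap F Ω A) = algebraMap F Ω A := by
    rw [hA', ← IsScalarTower.algebraMap_apply ℚ F Ω]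
    exact s.commutes _
  have hsB : s' (algebraMap F Ω B) = algebraMap F Ω B := by
    rw [hB', ← IsScalarTower.algebraMap_apply ℚ F Ω]
    exact s.commutes _
  have hsc : ∀ a : 𝓞 F, s' (ak Ω a) = ak Ω (cj a) := by
    intro a
    show s (algebraMap F Ω (a : F)) = _
    rw [hs, hσ']
  have hsl := cma_galr h s' hsA hsB hsc
  have hVp : V.valuation (p : Ω) = 1 := by
    have h1 := TQ.rf_one hV hpv
    have e : ak Ω (p : 𝓞 F) = (p : Ω) := by
      show algebraMap F Ω (((p : 𝓞 F)) : F) = _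
      simp
    rwa [e] at h1
  -- the good model
  obtain ⟨Kg, u, r, hR, hI⟩ := exists_rm_F (Ω := Ω) (W⁄(𝓞 F)) hA hB hΔ0 v hgood hV
  have hstab : ∀ a : 𝓞 F, a ∈ v.asIdeal → cj a ∈ v.asIdeal := by
    intro a ha
    have e : cj a = a - (a - cj a) := by ring
    rw [e]
    exact v.asIdeal.sub_mem ha (hv a)
  have hu : V.valuation (s' (algebraMap F Ω u) / algebraMap F Ω u) ≤ 1 := by
    have h1 : s' (algebraMap F Ω u) = algebraMap F Ω (σ u) := hs u
    have h2 := (hV.eq (σ u) u).2 (val_cj hσ' hstab u)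
    rw [h1, map_div₀, h2, div_self]
    exact (Valuation.ne_zero_iff _).2 hR.une
  have hsV : ∀ x ∈ V, V.valuation (s' x - x) < 1 := hsI
  -- the square
  have hcom : ∀ x : F, (s'.trans s') (algebraMap F Ω x) = algebraMap F Ω x := by
    intro x
    show s (s (algebraMap F Ω x)) = _
    rw [hs, hs, m2_invol hσ']
  set g : Ω ≃ₐ[F] Ω := AlgEquiv.ofRingEquiv (f := s'.trans s') hcom with hg
  have hgI : Inert V g := by
    intro x hx
    have h1 := hsV x hx
    have h2 : s' x ∈ V := by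
      have e : s' x = (s' x - x) + x := by ring
      rw [e]
      exact V.add_mem _ _ ((V.valuation_le_one_iff _).1 h1.le) hx
    have h3 := hsV _ h2
    have e : g x - x = (s' (s' x) - s' x) + (s' x - x) := by
      show s' (s' x) - x = _
      ring
    rw [e]
    exact V.valuation.map_add_lt h3 h1
  have hinv : ∀ P : Pt (WAB A B) Ω, p • P = 0 → acr s' hsA hsB (acr s' hsA hsB P) = P := by
    intro P hP
    have h1 := hI g hgI p hVp P hP
    rw [acr_trans s' s' hsA hsB hsA hsB (hcom A) (hcom B) P]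
    have h2 := acr_eq_ac (A := A) (B := B) g (hcom A) (hcom B) P
    rw [h1] at h2
    exact h2
  have hpm := inv_pm hR hp hp2 hVp s' hsA hsB hsV hu hinv
  -- the contradiction
  refine TQ.rf_card (F := F) hp hp2 (fun a => ?_)
  have hpne : (p : 𝓞 F) ≠ 0 := by exact_mod_cast hp.ne_zero
  obtain ⟨T₀, hT₀, g1, g2, -⟩ := h.gen (p : 𝓞 F) hpne
  have hT₀' : p • T₀ = 0 := by
    rw [← cu_nat act]
    exact hT₀
  have e0 : p • act a T₀ = 0 := by
    rw [← map_nsmul, hT₀', map_zero]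
  have e1 := hsl a T₀
  rw [← g2 (a - cj a), map_sub]
  show act a T₀ - act (cj a) T₀ = 0
  rcases hpm with hfix | hfix
  · rw [hfix T₀ hT₀', hfix _ e0] at e1
    rw [← e1, sub_self]
  · rw [hfix T₀ hT₀', hfix _ e0, map_neg] at e1
    rw [neg_inj.1 e1, sub_self]

end H13D
end

-- from Lib.H13D.BF
section

/-! # H13D: bad reduction over F -/

open NumberField IsDedekindDomain WeierstrassCurve

namespace H13D

open H55P (IQ embF eF LF Per IsHecke Pt ac Inert Dec Nm)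
open H35P (WAB Ker tt GoodW IntW)
open H55K

/-- The primes dividing the discriminant of a global minimal equation are primes of bad reduction over F. -/
theorem bad_F {F : Type} [Field F] [NumberField F] [IQ F] {W : WeierstrassCurve ℤ} {Om : ℂ} (hΔ : W.Δ ≠ 0)
    (hper : Per F (-(eF F (W⁄(𝓞 F)).c₄) / 48) (-(eF F (W⁄(𝓞 F)).c₆) / 864) Om) (hmin : MinZ W) (v : HeightOneSpectrum (𝓞 F))
    (hv : (W⁄(𝓞 F)).Δ ∈ v.asIdeal) : ¬ GoodAt ((W⁄(𝓞 F))⁄F) v := by
  by_cases hr : ∀ a : 𝓞 F, a - cj a ∈ v.asIdeal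
  · exact bad_ram hΔ hper v hr
  · rw [not_forall] at hr
    intro hG
    obtain ⟨l, f, hl, hlv, -, -⟩ := below_v v
    have hΔF : (W⁄(𝓞 F)).Δ = ((W.Δ : ℤ) : 𝓞 F) := by
      have := W.map_Δ (algebraMap ℤ (𝓞 F))
      exact this.trans (by simp)
    have hdv : (l : ℤ) ∣ W.Δ := by
      by_contra hnd
      have hcop : IsCoprime (l : ℤ) W.Δ := (Nat.prime_iff_prime_int.1 hl).coprime_iff_not_dvd.2 hnd
      obtain ⟨a, b, hab⟩ := hcop
      apply v.isPrime.ne_top
      rw [Ideal.eq_top_iff_one]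
      have h5 : (1 : 𝓞 F) = (a : 𝓞 F) * (l : 𝓞 F) + (b : 𝓞 F) * ((W.Δ : ℤ) : 𝓞 F) := by
        have := congrArg (fun z : ℤ => (z : 𝓞 F)) hab
        push_cast at this
        exact this.symm
      rw [h5]
      rw [hΔF] at hv
      exact Ideal.add_mem _ (Ideal.mul_mem_left _ _ hlv) (Ideal.mul_mem_left _ _ hv)
    have hE : ((W⁄ℚ)⁄F) = ((W⁄(𝓞 F))⁄F) := by
      ext <;> simp [WeierstrassCurve.map, WeierstrassCurve.baseChange]
    obtain ⟨C, hC⟩ := descend hr hl hlv (W⁄ℚ) (by rw [hE]; exact hG)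
    exact hmin l hl hdv C hC

end H13D
end

-- from Lib.H13X.XN2
section

/-! # H13X: ports of GN9b, GN11a, GN11b to all F -/

open NumberField IsDedekindDomain WeierstrassCurve

namespace H13X

open H55P (IQ embF eF LF Per IsHecke Pt ac Inert Dec Nm Coc)
open H35P (WAB Ker tt)
open H55K (Tor ak xc yc CMA Dta GV GMod cj cj_cj mul_cj cj_prime cj_dvd cj_nat Nm_cj Nm_mul Nm_nat)
open H55K (Fxd Lft TFld TotRam tot_ram exists_lft lft_fxd exists_abw Abw)
open H55K.S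
open H55R (Pl ord es fs smulP under_smulP under_exists ord_map)
open H13S (Abv)
open H13Y (guN EqHomN LocN Kap kmk kmk_zero kmk_surj SU mem_SU SU_act exists_lev gn9b_surj gn9b_ram)

open H99B (Lev)

variable {F : Type} [Field F] [NumberField F] [IQ F] {A B : F} {Om : ℂ} {Ω : Type} [Field Ω] [DecidableEq Ω]
  [Algebra F Ω] {j : Ω →+* ℂ} {act : 𝓞 F →+* AddMonoid.End (Pt (WAB A B) Ω)}
  {N L : Type} [Field N] [NumberField N] [Field L] [NumberField L] [Algebra F N] [Algebra F L]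
  [Algebra N L] [Algebra N Ω] [Algebra L Ω] [IsScalarTower F N L] [IsScalarTower N L Ω]
  [IsScalarTower F N Ω] [IsScalarTower F L Ω]

omit [IQ F] in
theorem gn9b_tower {N L : Type} [Field N] [NumberField N] [Field L] [NumberField L] [Algebra F N]
    [Algebra N L] [Algebra F L] [IsScalarTower F N L] (y : 𝓞 F) :
    algebraMap (𝓞 F) (𝓞 L) y = algebraMap (𝓞 N) (𝓞 L) (algebraMap (𝓞 F) (𝓞 N) y) := by
  apply RingOfIntegers.ext
  exact IsScalarTower.algebraMap_apply F N L (y : F)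

/-- The local data at the primes above π. -/
theorem exists_locN [IsAlgClosure F Ω] (h : CMA F A B Om j act) {π : 𝓞 F} (hp : Prime π)
    (hL : TFld act N L π) (h2 : 2 < Nm π)
    (hG : ∀ V : ValuationSubring Ω, V.valuation (ak Ω π) < 1 → GV A B V)
    (hun : ∀ v : Pl N, algebraMap (𝓞 F) (𝓞 N) π ∈ v.asIdeal →
      v.valuation N (algebraMap F N (π : F)) = WithZero.exp (-1 : ℤ))
    {k : Type} [Field k] (q : 𝓞 F →+* k) (hq : Function.Surjective q) (hk : ∀ x, q x = 0 ↔ π ∣ x)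
    (χ : Gal(L/N) →* kˣ) (hχ : ∀ (σ : Gal(L/N)) (s : Ω ≃ₐ[F] Ω) (c : 𝓞 F), Lft σ s → q c = χ σ →
      ∀ R ∈ Tor act π, ac (WAB A B) s R = act c R)
    (W : Pl L) (hW : algebraMap (𝓞 F) (𝓞 L) π ∈ W.asIdeal) :
    ∃ (j : k →+* Kap W) (t : Lˣ), LocN j χ W t (kmk W) := by
  have hgal : IsGalois N L := hL.gal
  obtain ⟨v, hWv⟩ : ∃ v : Pl N, W.under (𝓞 N) = v := ⟨_, rfl⟩
  have hmem : ∀ y : 𝓞 N, y ∈ v.asIdeal ↔ algebraMap (𝓞 N) (𝓞 L) y ∈ W.asIdeal := by
    intro y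
    rw [← hWv]
    exact Iff.rfl
  have hv : algebraMap (𝓞 F) (𝓞 N) π ∈ v.asIdeal := by
    rw [hmem, ← gn9b_tower]
    exact hW
  have TR := tot_ram h hp hL v (hun v hv) hG
  have he : 2 ≤ es N L v := by
    rw [TR.es]
    omega
  obtain ⟨T, hT, h0⟩ := H55K.exists_tor h hp
  obtain ⟨x, y, hx, hy⟩ := hL.crd T hT
  obtain ⟨t, ht⟩ : ∃ t : L, algebraMap L Ω t = tt T := ⟨x / y, by rw [map_div₀, hx, hy, H55K.tt_xy]⟩
  have hT2 := TR.val W hWv T hT h0 t ht
  have ht0 : t ≠ 0 := by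
    intro h
    rw [h, map_zero] at hT2
    exact WithZero.exp_ne_zero hT2.symm
  have hψ : ∀ a : 𝓞 F, q a = 0 → ((kmk W).comp (algebraMap (𝓞 F) (𝓞 L))) a = 0 := by
    intro a ha
    rw [hk] at ha
    obtain ⟨c, rfl⟩ := ha
    rw [map_mul, RingHom.comp_apply, (kmk_zero W _).2 hW, zero_mul]
  let j' : k →+* Kap W := q.liftOfSurjective hq ⟨(kmk W).comp (algebraMap (𝓞 F) (𝓞 L)), fun a ha => hψ a ha⟩
  have hj : ∀ y : 𝓞 F, j' (q y) = kmk W (algebraMap (𝓞 N) (𝓞 L) (algebraMap (𝓞 F) (𝓞 N) y)) := by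
    intro y
    rw [← gn9b_tower]
    exact RingHom.liftOfRightInverse_comp_apply q (Function.surjInv hq) (Function.rightInverse_surjInv hq)
      ⟨(kmk W).comp (algebraMap (𝓞 F) (𝓞 L)), fun a ha => hψ a ha⟩ y
  refine ⟨j', Units.mk0 t ht0, ⟨fun x => kmk_zero W x, fun b => ?_, fun y hy => ?_, fun σ => ?_, ?_,
    fun σ y hy => ?_⟩⟩
  · exact gn9b_surj v W hWv TR.fs b
  · exact gn9b_ram v W hWv he y ((kmk_zero W _).1 hy)
  · exact TR.one _ _ ((under_smulP σ W).trans hWv) hWv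
  · have h1 := H55R.BF1_val W (Units.mk0 t ht0)
    rw [Units.val_mk0, hT2, WithZero.exp_inj] at h1
    omega
  · obtain ⟨c, hc⟩ := hq (χ σ : k)
    obtain ⟨s, hs⟩ := exists_lft (F := F) (Ω := Ω) σ
    have h1 := hχ σ s c hs hc T hT
    obtain ⟨V, hV⟩ := exists_abw Ω W
    have hWπ : W.valuation L (algebraMap F L (π : F)) < 1 := by
      have e : algebraMap F L (π : F) = algebraMap (𝓞 L) L (algebraMap (𝓞 F) (𝓞 L) π) := rfl
      rw [e]
      exact (W.valuation_lt_one_iff_mem _).2 hW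
    have hVb : V.valuation (ak Ω π) < 1 := by
      have e : ak Ω π = algebraMap L Ω (algebraMap F L (π : F)) := IsScalarTower.algebraMap_apply F L Ω _
      rw [e, hV.lt]
      exact hWπ
    have hGV := hG V hVb
    have hK := (H55K.tor_ram h hGV hp hVb hT h0).1
    have h4 := H55K.tt_act h hGV c hK
    rw [← h1, H55K.tt_ac, ← ht, hs] at h4
    have e3 : ak Ω c = algebraMap L Ω (algebraMap F L (c : F)) := IsScalarTower.algebraMap_apply F L Ω _
    rw [e3, ← map_mul, ← map_sub, ← map_pow, ← map_pow, hV.le, map_pow, hT2] at h4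
    have h5 : W.valuation L (algebraMap N L (((y - algebraMap (𝓞 F) (𝓞 N) c : 𝓞 N)) : N)) ≤
        WithZero.exp (-2 : ℤ) := by
      refine gn9b_ram v W hWv he _ ((kmk_zero W _).1 ?_)
      rw [map_sub, map_sub, hy, ← hc, hj, sub_self]
    have h6 : ((y - algebraMap (𝓞 F) (𝓞 N) c : 𝓞 N) : N) = (y : N) - algebraMap F N (c : F) := rfl
    have h10 : algebraMap N L (y : N) - algebraMap F L (c : F) =
        algebraMap N L (((y - algebraMap (𝓞 F) (𝓞 N) c : 𝓞 N)) : N) := by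
      rw [h6, map_sub, IsScalarTower.algebraMap_apply F N L]
    rw [← h10] at h5
    have h7 : σ ((Units.mk0 t ht0 : Lˣ) : L) - algebraMap N L (y : N) * ((Units.mk0 t ht0 : Lˣ) : L) =
        (σ t - algebraMap F L (c : F) * t) - (algebraMap N L (y : N) - algebraMap F L (c : F)) * t := by
      rw [Units.val_mk0]
      ring
    rw [h7]
    have h9 : (WithZero.exp (-1 : ℤ)) ^ 2 = (WithZero.exp (-2 : ℤ)) := by
      rw [← WithZero.exp_nsmul]
      norm_num
    rw [h9] at h4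
    refine (W.valuation L).map_sub_le h4 ?_
    rw [map_mul, hT2]
    refine (mul_le_of_le_one_right' ?_).trans h5
    rw [← WithZero.exp_zero, WithZero.exp_le_exp]
    norm_num

/-- χ is a bijection. -/
theorem chi_bijN [IsAlgClosure F Ω] (h : CMA F A B Om j act) {π : 𝓞 F} (hp : Prime π)
    (hL : TFld act N L π)
    (hG : ∀ V : ValuationSubring Ω, V.valuation (ak Ω π) < 1 → GV A B V)
    (hun : ∀ v : Pl N, algebraMap (𝓞 F) (𝓞 N) π ∈ v.asIdeal →
      v.valuation N (algebraMap F N (π : F)) = WithZero.exp (-1 : ℤ))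
    {k : Type} [Field k] [Fintype k] (q : 𝓞 F →+* k) (hq : Function.Surjective q)
    (hk : ∀ x, q x = 0 ↔ π ∣ x) (χ : Gal(L/N) →* kˣ) (hχi : Function.Injective χ) :
    Fintype.card k = Nm π ∧ Function.Bijective χ := by
  classical
  obtain ⟨v, hv⟩ : ∃ v : Pl N, algebraMap (𝓞 F) (𝓞 N) π ∈ v.asIdeal := by
    have h1 : ¬ IsUnit (algebraMap (𝓞 F) (𝓞 N) π) := by
      intro h
      exact hp.not_isUnit ((isUnit_map_iff (algebraMap (𝓞 F) (𝓞 N)) π).1 h)
    have h0 : algebraMap (𝓞 F) (𝓞 N) π ≠ 0 := by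
      intro h
      apply hp.ne_zero
      exact (FaithfulSMul.algebraMap_injective (𝓞 F) (𝓞 N)) (by rw [h, map_zero])
    obtain ⟨M, hM, hle⟩ := Ideal.exists_le_maximal (Ideal.span {algebraMap (𝓞 F) (𝓞 N) π})
      (by rwa [Ne, Ideal.span_singleton_eq_top])
    have hmem : algebraMap (𝓞 F) (𝓞 N) π ∈ M := hle (Ideal.mem_span_singleton_self _)
    refine ⟨⟨M, hM.isPrime, ?_⟩, hmem⟩
    rintro rfl
    exact h0 (by simpa using hmem)
  have htot := tot_ram h hp hL v (hun v hv) hG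
  have hgal : IsGalois N L := hL.gal
  have hfin : Finite kˣ := inferInstance
  refine ⟨by rw [← Nat.card_eq_fintype_card, H55K.k10_card q hq hk], ?_⟩
  rw [Nat.bijective_iff_injective_and_card]
  refine ⟨hχi, ?_⟩
  rw [IsGalois.card_aut_eq_finrank, htot.deg, ← H55K.k10_card q hq hk, Nat.card_units]

end H13X
end

-- from Lib.H13X.XN3
section

/-! # H13X: port of GN11b to all F -/

open NumberField IsDedekindDomain WeierstrassCurve

namespace H13X

open H55P (IQ embF eF LF Per IsHecke Pt ac Inert Dec Nm Coc)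
open H35P (WAB Ker tt)
open H55K (Tor ak xc yc CMA Dta GV GMod cj cj_cj mul_cj cj_prime cj_dvd cj_nat Nm_cj Nm_mul Nm_nat)
open H55K (Fxd Lft TFld TotRam tot_ram exists_lft lft_fxd exists_abw Abw)
open H55K.S
open H55R (Pl ord es fs smulP under_smulP under_exists ord_map)
open H13S (Abv)
open H13Y (guN EqHomN LocN Kap kmk kmk_zero kmk_surj SU mem_SU SU_act exists_lev gn9b_surj gn9b_ram etaN_hom
  exists_teich exists_psi gn_alg SU_fg SU_pow gn11b_units gn11b_K)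
open H99B (Lev cf pw exists_rho)

variable {F : Type} [Field F] [NumberField F] [IQ F] {A B : F} {Om : ℂ} {Ω : Type} [Field Ω] [DecidableEq Ω]
  [Algebra F Ω] {j : Ω →+* ℂ} {act : 𝓞 F →+* AddMonoid.End (Pt (WAB A B) Ω)}
  {N L : Type} [Field N] [NumberField N] [Field L] [NumberField L] [Algebra F N] [Algebra F L]
  [Algebra N L] [Algebra N Ω] [Algebra L Ω] [IsScalarTower F N L] [IsScalarTower N L Ω]
  [IsScalarTower F N Ω] [IsScalarTower F L Ω]

/-- The class over N by counting. -/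
theorem glob_N [IsAlgClosure F Ω] (hA : CMA F A B Om j act) {l : ℕ} [Fact l.Prime] (h5 : 5 ≤ l) {π : 𝓞 F} (hp : Prime π)
    (hL : TFld act N L π)
    (hG : ∀ V : ValuationSubring Ω, V.valuation (ak Ω π) < 1 → GV A B V)
    (hun : ∀ v : Pl N, algebraMap (𝓞 F) (𝓞 N) π ∈ v.asIdeal →
      v.valuation N (algebraMap F N (π : F)) = WithZero.exp (-1 : ℤ))
    {k : Type} [Field k] [Fintype k] [DecidableEq k] [CharP k l] (q : 𝓞 F →+* k)
    (hq : Function.Surjective q) (hk : ∀ x, q x = 0 ↔ π ∣ x) (χ : Gal(L/N) →* kˣ) (hχi : Function.Injective χ)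
    (hχ : ∀ (σ : Gal(L/N)) (s : Ω ≃ₐ[F] Ω) (c : 𝓞 F), Lft σ s → q c = χ σ →
      ∀ R ∈ Tor act π, ac (WAB A B) s R = act c R) (w : Pl N)
    (hwπ : algebraMap (𝓞 F) (𝓞 N) π ∉ w.asIdeal)
    (hst : ∀ Q : Pl L, Q.under (𝓞 N) = w → ∀ σ : Gal(L/N), smulP σ Q = Q → σ = 1) :
    ∃ m : k → Lˣ, EqHomN l χ m ∧
      (∀ (a : k) (v : Pl L), v.under (𝓞 N) ≠ w → (l : ℤ) ∣ ord v (m a)) ∧
      (∀ (a : k) (W : Pl L), algebraMap (𝓞 F) (𝓞 L) π ∈ W.asIdeal → Lev l W (m a)) ∧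
      ∃ a : k, ∀ z : Lˣ, m a ≠ z ^ l := by
  have hgal : IsGalois N L := hL.gal
  have hl : l.Prime := Fact.out
  obtain ⟨hcard, hχb⟩ := chi_bijN hA hp hL hG hun q hq hk χ hχi
  obtain ⟨ρ, hρ⟩ := exists_rho l k
  obtain ⟨V, ω, hV, hωi, hω⟩ := exists_teich l χ hχb.1
  obtain ⟨hk5, u, hu⟩ := gn11b_units h5 (k := k)
  have h2 : 2 < Nm π := by
    rw [← hcard]
    omega
  have hω1 : ω ≠ 1 := by
    intro h
    obtain ⟨g, hg⟩ := hχb.2 u
    apply hu
    have h3 : g = 1 := hωi (by rw [h]; rfl)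
    rw [← hg, h3, map_one]
  obtain ⟨Q, hQ⟩ := under_exists (L := L) w
  obtain ⟨hc, hcardN⟩ := places_card (F := F) N
  obtain ⟨ψ, p1, p2, p3⟩ := exists_psi hc ω hω1 w Q hQ (hst Q hQ)
  have htow : ∀ c : 𝓞 F, algebraMap (𝓞 F) (𝓞 L) c = algebraMap (𝓞 N) (𝓞 L) (algebraMap (𝓞 F) (𝓞 N) c) :=
    fun c => RingOfIntegers.ext (IsScalarTower.algebraMap_apply F N L (c : F))
  have hmem : ∀ W : Pl L, algebraMap (𝓞 F) (𝓞 L) π ∈ W.asIdeal →
      algebraMap (𝓞 F) (𝓞 N) π ∈ (W.under (𝓞 N)).asIdeal := by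
    intro W hW
    rw [htow] at hW
    exact hW
  have hone : ∀ W W' : Pl L, algebraMap (𝓞 F) (𝓞 L) π ∈ W.asIdeal → W.under (𝓞 N) = W'.under (𝓞 N) →
      W = W' := by
    intro W W' hW hWW
    exact (tot_ram hA hp hL (W.under (𝓞 N)) (hun _ (hmem W hW)) hG).one W W' rfl hWW.symm
  have hloc : ∀ W : Pl L, algebraMap (𝓞 F) (𝓞 L) π ∈ W.asIdeal →
      ∃ (j : k →+* Kap W) (t : Lˣ), LocN j χ W t (kmk W) := fun W hW =>
    exists_locN hA hp hL h2 hG hun q hq hk χ hχ W hW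
  obtain ⟨Λ, i1, i2, i3, f, hfin, f1, f2, f3⟩ := exists_Lam hp.ne_zero hcard χ hone hloc
  have hdv : ∀ x ∈ SU L w, ∀ W : Pl L, algebraMap (𝓞 F) (𝓞 L) π ∈ W.asIdeal → (l : ℤ) ∣ ord W x := by
    intro x hx W hW
    have h3 : W.under (𝓞 N) ≠ w := by
      intro h
      apply hwπ
      rw [← h]
      exact hmem W hW
    rw [hx W h3]
    exact dvd_zero _
  have f1' : ∀ x ∈ SU L w, ∀ y ∈ SU L w, f (x * y) = f x + f y := fun x hx y hy =>
    f1 x y (hdv x hx) (hdv y hy)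
  have f2' : ∀ g : Gal(L/N), ∀ x ∈ SU L w, f (guN g x) = (χ g : k) • f x := fun g x hx =>
    f2 g x (hdv x hx)
  obtain ⟨x, hx, hfx, hnx⟩ := gn_alg χ hχb ρ hρ (guN : Gal(L/N) →* Monoid.End Lˣ) (SU L w)
    (fun g x hx => SU_act g hx) f f1' f2' (ι := Option (InfinitePlace N)) (by
      rw [Fintype.card_option, hcardN]
      omega) V hV ω hω ψ (fun i x _ y _ => p1 i x y) (fun i g x _ => p2 i g x) p3 (SU_fg w)
  have hK : ∀ g : Gal(L/N), guN g x ∈ gn11b_K w f f1' := by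
    intro g
    refine ⟨SU_act g hx, ?_⟩
    rw [f2' g x hx, hfx, smul_zero]
  have hm0 : ∀ a : k, pw guN (cf χ ρ a) x ∈ gn11b_K w f f1' := by
    intro a
    unfold pw
    exact Subgroup.prod_mem _ fun g _ => Subgroup.zpow_mem _ (hK g) _
  refine ⟨fun a => pw guN (cf χ ρ a) x, etaN_hom χ ρ x, ?_, ?_, 1, ?_⟩
  · intro a v hv
    show (l : ℤ) ∣ ord v (pw guN (cf χ ρ a) x)
    rw [(hm0 a).1 v hv]
    exact dvd_zero _
  · intro a W hW
    exact f3 _ (hdv _ (hm0 a).1) (hm0 a).2 W hW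
  · intro z hz
    exact hnx z (SU_pow hl.ne_zero (hm0 1).1 hz) hz

end H13X
end

-- from Lib.H13X.XN4
section

/-! # H13X: the global elements over N, for points over Ω -/

open NumberField IsDedekindDomain WeierstrassCurve
open scoped Pointwise

namespace H13X

open H55P (IQ embF eF LF Per IsHecke Pt ac Inert Dec Nm Coc)
open H35P (WAB Ker tt)
open H55K (Tor ak xc yc CMA Dta GV GMod cj cj_cj mul_cj cj_prime cj_dvd cj_nat Nm_cj Nm_mul Nm_nat)
open H55K (Fxd Lft TFld TotRam tot_ram exists_lft lft_fxd exists_abw Abw)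
open H55K.S
open H55R (Pl ord es fs smulP under_smulP under_exists ord_map)
open H13S (Abv)
open H13Y (guN EqHomN)
open H99B (Lev)

section res

/-- A finite field in which every element is its own q-th power has at most q elements. -/
theorem xn4_card {κ : Type} [Field κ] [Finite κ] {q : ℕ} (hq : 2 ≤ q) (h : ∀ b : κ, b ^ q = b) : Nat.card κ ≤ q := by
  classical
  have : Fintype κ := Fintype.ofFinite κ
  let P : Polynomial κ := Polynomial.X ^ q - Polynomial.X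
  have hdeg : P.natDegree = q := by
    show (Polynomial.X ^ q - Polynomial.X : Polynomial κ).natDegree = q
    exact FiniteField.X_pow_card_sub_X_natDegree_eq κ (by omega)
  have hP : P ≠ 0 := by
    intro h0
    rw [h0, Polynomial.natDegree_zero] at hdeg
    omega
  have h1 : (Finset.univ : Finset κ).val ⊆ P.roots := by
    intro b _
    rw [Polynomial.mem_roots hP, Polynomial.IsRoot.def]
    show (Polynomial.X ^ q - Polynomial.X : Polynomial κ).eval b = 0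
    rw [Polynomial.eval_sub, Polynomial.eval_pow, Polynomial.eval_X, h b, sub_self]
  have h2 := Polynomial.card_le_degree_of_subset_roots h1
  rw [hdeg] at h2
  rwa [Nat.card_eq_fintype_card]

end res

variable {F : Type} [Field F] [NumberField F] [IQ F] {A B : F} {Om : ℂ} {Ω : Type} [Field Ω] [DecidableEq Ω]
  [Algebra F Ω] [IsAlgClosure F Ω] {j : Ω →+* ℂ} {act : 𝓞 F →+* AddMonoid.End (Pt (WAB A B) Ω)} {mo : Ideal (𝓞 F)}
  {ψ : Ideal (𝓞 F) →*₀ 𝓞 F}

variable {π : 𝓞 F} {l : ℕ} {N L : IntermediateField F Ω}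

/-- The structure of an extension of N on L. -/
@[reducible] noncomputable def algNL {N L : IntermediateField F Ω} (h : N ≤ L) : Algebra N L :=
  (IntermediateField.inclusion h).toRingHom.toAlgebra

/-- The restriction of s (over N) to L. -/
theorem exists_restr (hA : CMA F A B Om j act) (hL : IsTB act π N L) :
    letI := algNL hL.le
    ∀ s ∈ N.fixingSubgroup, ∃ g : Gal(L/N), ∀ x : L, s (x : Ω) = ((g x : L) : Ω) := by
  letI := algNL hL.le
  intro s hs
  have hs' : s⁻¹ ∈ N.fixingSubgroup := Subgroup.inv_mem _ hs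
  have hmap : ∀ y : N, ((algebraMap N L y : L) : Ω) = (y : Ω) := fun _ => rfl
  refine ⟨AlgEquiv.ofBijective
    { toFun := fun x => ⟨s (x : Ω), tb_stable hA hL s hs x⟩
      map_one' := Subtype.ext (map_one s)
      map_mul' := fun x y => Subtype.ext (map_mul s _ _)
      map_zero' := Subtype.ext (map_zero s)
      map_add' := fun x y => Subtype.ext (map_add s _ _)
      commutes' := fun y => Subtype.ext ((IntermediateField.mem_fixingSubgroup_iff N _).1 hs _ y.2) }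
    ⟨fun x y hxy => ?_, fun y => ?_⟩, fun x => rfl⟩
  · have h1 : s (x : Ω) = s (y : Ω) := congrArg Subtype.val hxy
    exact Subtype.ext (s.injective h1)
  · refine ⟨⟨s⁻¹ (y : Ω), tb_stable hA hL s⁻¹ hs' y⟩, Subtype.ext ?_⟩
    show s (s⁻¹ (y : Ω)) = y
    exact s.apply_symm_apply _

/-- L = N(E[π]) as an abstract extension. -/
theorem tfld_of_tb (hA : CMA F A B Om j act) (hL : IsTB act π N L) :
    letI := algNL hL.le
    TFld act N L π := by
  letI := algNL hL.le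
  have hT : IsScalarTower F N L := IsScalarTower.of_algebraMap_eq fun x => Subtype.ext rfl
  have halg : IsAlgClosed Ω := IsAlgClosure.isAlgClosed F
  have hint : Algebra.IsAlgebraic F Ω := IsAlgClosure.isAlgebraic
  have hch : CharZero Ω := charZero_of_injective_algebraMap (algebraMap F Ω).injective
  have hfL : FiniteDimensional F L := hL.fin
  have hfin : FiniteDimensional N L := Module.Finite.of_restrictScalars_finite F N L
  have hmem : ∀ x : Ω, (∀ s : Ω ≃ₐ[F] Ω, s ∈ L.fixingSubgroup → s x = x) → x ∈ L := fun x hx => ku2_mem L hx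
  refine ⟨?_, ?_, ?_⟩
  · apply IsGalois.of_fixedField_eq_bot
    rw [eq_bot_iff]
    intro x hx
    rw [IntermediateField.mem_fixedField_iff] at hx
    have h1 : (x : Ω) ∈ N := by
      apply ku2_mem
      intro s hs
      obtain ⟨g, hg⟩ := exists_restr hA hL s hs
      rw [hg x, hx g (Subgroup.mem_top g)]
    rw [IntermediateField.mem_bot]
    exact ⟨⟨x, h1⟩, Subtype.ext rfl⟩
  · intro T hT
    have hx : xc T ∈ L := hmem _ fun s hs => by rw [← xc_ac, ((hL.fix s).1 hs).2 T hT]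
    have hy : yc T ∈ L := hmem _ fun s hs => by rw [← yc_ac, ((hL.fix s).1 hs).2 T hT]
    exact ⟨⟨xc T, hx⟩, ⟨yc T, hy⟩, rfl, rfl⟩
  · intro s hs hfix x
    have h1 : s ∈ L.fixingSubgroup := (hL.fix s).2 ⟨by
      rw [IntermediateField.mem_fixingSubgroup_iff]
      exact fun y hy => hs ⟨y, hy⟩, hfix⟩
    exact (IntermediateField.mem_fixingSubgroup_iff L _).1 h1 x x.2

/-- The decomposition groups above w over N fix the points killed by π: Gal(L/N) acts freely on the primes of L above w. -/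
theorem stab_N (hL : IsTB act π N L) [NumberField N] [NumberField L] {w : Pl N}
    (hfx : ∀ V : ValuationSubring Ω, Abv N V w → ∀ s, DecN N V s → ∀ T ∈ Tor act π, ac (WAB A B) s T = T) :
    letI := algNL hL.le
    ∀ Q : Pl L, Q.under (𝓞 N) = w → ∀ σ : Gal(L/N), smulP σ Q = Q → σ = 1 := by
  letI := algNL hL.le
  have hT : IsScalarTower F N L := IsScalarTower.of_algebraMap_eq fun x => Subtype.ext rfl
  have hT' : IsScalarTower N L Ω := IsScalarTower.of_algebraMap_eq fun x => rfl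
  intro Q hQ σ hσ
  obtain ⟨V, hV⟩ := exists_abw Ω Q
  have hVw : Abv N V w := hV.below hQ
  have hmono : ∀ s : Ω ≃ₐ[F] Ω, DecN N V s → s ∈ L.fixingSubgroup := fun s hs =>
    (hL.fix s).2 ⟨hs.1, hfx V hVw s hs⟩
  obtain ⟨φ, hφ, hφD, hφF⟩ := exists_frobK N hVw
  set q := Ideal.absNorm w.asIdeal with hq
  have hq2 : 2 ≤ q := by
    have h1 : q ≠ 0 := by
      rw [hq, Ne, Ideal.absNorm_eq_zero_iff]
      exact w.ne_bot
    have h2 : q ≠ 1 := by
      rw [hq, Ne, Ideal.absNorm_eq_one_iff]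
      exact w.isPrime.ne_top
    omega
  have hQm := Q.isMaximal
  have hQp := Q.isPrime
  have hwm := w.isMaximal
  letI : Field (𝓞 L ⧸ Q.asIdeal) := Ideal.Quotient.field Q.asIdeal
  have hfinQ : Finite (𝓞 L ⧸ Q.asIdeal) := Ideal.finiteQuotientOfFreeOfNeBot Q.asIdeal Q.ne_bot
  have hfinw : Finite (𝓞 N ⧸ w.asIdeal) := Ideal.finiteQuotientOfFreeOfNeBot w.asIdeal w.ne_bot
  have hpow : ∀ b : 𝓞 L ⧸ Q.asIdeal, b ^ q = b := by
    intro b
    obtain ⟨y, rfl⟩ := Ideal.Quotient.mk_surjective b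
    rw [← map_pow, ← sub_eq_zero, ← map_sub, Ideal.Quotient.eq_zero_iff_mem]
    have hyV : ((y : L) : Ω) ∈ V := (hV (y : L)).2 (Q.valuation_le_one y)
    have h1 := hφF _ hyV
    rw [(IntermediateField.mem_fixingSubgroup_iff L _).1 (hmono φ ⟨hφ, hφD⟩) _ (y : L).2] at h1
    have h2 : Q.valuation L ((y - y ^ q : 𝓞 L) : L) < 1 := by
      rw [← hV.lt]
      exact h1
    have h3 := (Q.valuation_lt_one_iff_mem _).1 h2
    have e : y ^ q - y = -(y - y ^ q) := by ring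
    rw [e]
    exact neg_mem h3
  have hcard := xn4_card hq2 hpow
  have hu : ∀ y : 𝓞 N, y ∈ w.asIdeal ↔ algebraMap (𝓞 N) (𝓞 L) y ∈ Q.asIdeal := by
    intro y
    rw [← hQ]
    exact Iff.rfl
  let f : (𝓞 N ⧸ w.asIdeal) →+* (𝓞 L ⧸ Q.asIdeal) :=
    Ideal.quotientMap Q.asIdeal (algebraMap (𝓞 N) (𝓞 L)) fun y hy => (hu y).1 hy
  have hf1 : Function.Injective f := Ideal.quotientMap_injective' fun y hy => (hu y).2 hy
  have hf : Function.Bijective f := hf1.bijective_of_nat_card_le (by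
    have h1 : Nat.card (𝓞 N ⧸ w.asIdeal) = q := by
      rw [hq, Ideal.absNorm_apply, Submodule.cardQuot_apply]
    rw [h1]
    exact hcard)
  have hσx : ∀ x : 𝓞 L, σ • x - x ∈ Q.asIdeal := by
    intro x
    obtain ⟨b, hb⟩ := hf.2 (Ideal.Quotient.mk Q.asIdeal x)
    obtain ⟨y, rfl⟩ := Ideal.Quotient.mk_surjective b
    have h1 : Ideal.Quotient.mk Q.asIdeal (algebraMap (𝓞 N) (𝓞 L) y) = Ideal.Quotient.mk Q.asIdeal x := hb
    have hz : x - algebraMap (𝓞 N) (𝓞 L) y ∈ Q.asIdeal := by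
      rw [← Ideal.Quotient.eq_zero_iff_mem, map_sub, h1, sub_self]
    have hsz : σ • (x - algebraMap (𝓞 N) (𝓞 L) y) ∈ Q.asIdeal := by
      have h2 : Q.asIdeal = σ • Q.asIdeal := (congrArg HeightOneSpectrum.asIdeal hσ).symm
      rw [h2]
      exact Ideal.smul_mem_pointwise_smul _ _ _ hz
    have hy : σ • algebraMap (𝓞 N) (𝓞 L) y = algebraMap (𝓞 N) (𝓞 L) y := by
      apply RingOfIntegers.ext
      exact σ.commutes (y : N)
    have e : σ • x - x = σ • (x - algebraMap (𝓞 N) (𝓞 L) y) - (x - algebraMap (𝓞 N) (𝓞 L) y) := by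
      rw [smul_sub, hy]
      ring
    rw [e]
    exact sub_mem hsz hz
  obtain ⟨s, hs, hsl⟩ := H55K.exists_inert (F := F) hV σ hσx
  have hsN : s ∈ N.fixingSubgroup := by
    rw [IntermediateField.mem_fixingSubgroup_iff]
    exact fun y hy => hsl.fxd ⟨y, hy⟩
  have hsL := hmono s ⟨hsN, Inert.dec hs⟩
  exact (lft_fxd hsl).1 fun x => (IntermediateField.mem_fixingSubgroup_iff L _).1 hsL _ x.2

end H13X
end

-- from Lib.H13X.XN5
section

/-! # H13X: the global elements over N (GN) -/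

open NumberField IsDedekindDomain WeierstrassCurve

namespace H13X

open H55P (IQ embF eF LF Per IsHecke Pt ac Inert Dec Nm Coc)
open H35P (WAB Ker tt)
open H55K (Tor ak xc yc CMA Dta GV GMod cj cj_cj mul_cj cj_prime cj_dvd cj_nat Nm_cj Nm_mul Nm_nat)
open H55K (Fxd Lft TFld TotRam tot_ram exists_lft lft_fxd exists_abw Abw)
open H55K.S
open H55R (Pl ord es fs smulP under_smulP under_exists ord_map)
open H13S (Abv)
open H13Y (guN EqHomN)
open H99B (Lev)

variable {F : Type} [Field F] [NumberField F] [IQ F] {A B : F} {Om : ℂ} {Ω : Type} [Field Ω] [DecidableEq Ω]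
  [Algebra F Ω] [IsAlgClosure F Ω] {j : Ω →+* ℂ} {act : 𝓞 F →+* AddMonoid.End (Pt (WAB A B) Ω)} {mo : Ideal (𝓞 F)}
  {ψ : Ideal (𝓞 F) →*₀ 𝓞 F}

variable {π : 𝓞 F} {l : ℕ} {N L : IntermediateField F Ω}

/-- THE GLOBAL ELEMENTS: w is not above l, the decomposition groups above w over N fix the points killed by π. -/
theorem exists_GN (D : Dat A B Om j act mo ψ π l) [NumberField N] [NumberField L] (hL : IsTB act π N L)
    (hU : H55P.UnrP l N) {w : HeightOneSpectrum (𝓞 N)} (hl : (l : 𝓞 N) ∉ w.asIdeal)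
    (hfx : ∀ V : ValuationSubring Ω, Abv N V w → ∀ s, DecN N V s → ∀ T ∈ Tor act π, ac (WAB A B) s T = T) :
    ∃ m : Pt (WAB A B) Ω → (L)ˣ, GN act π l N L w m := by
  classical
  have hlp : Fact l.Prime := ⟨D.hl⟩
  have hA := D.cma
  have hp := D.pr
  let _ := algNL hL.le
  have hT : IsScalarTower F N L := IsScalarTower.of_algebraMap_eq fun x => Subtype.ext rfl
  have hT' : IsScalarTower N L Ω := IsScalarTower.of_algebraMap_eq fun x => rfl
  have hTF := tfld_of_tb hA hL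
  have hrestr := exists_restr hA hL
  have hst := stab_N hL hfx
  have hgal : IsGalois N L := hTF.gal
  have hmax : (Ideal.span {π}).IsMaximal := by
    have h1 : (Ideal.span {π}).IsPrime := (Ideal.span_singleton_prime hp.ne_zero).2 hp
    exact h1.isMaximal (by rw [Ne, Ideal.span_singleton_eq_bot]; exact hp.ne_zero)
  have hb : Ideal.span {π} ≠ ⊥ := by
    rw [Ne, Ideal.span_singleton_eq_bot]
    exact hp.ne_zero
  let k := 𝓞 F ⧸ Ideal.span {π}
  letI ik : Field k := Ideal.Quotient.field (Ideal.span {π})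
  have hfin : Finite k := Ideal.finiteQuotientOfFreeOfNeBot _ hb
  letI : Fintype k := Fintype.ofFinite k
  let q : 𝓞 F →+* k := Ideal.Quotient.mk (Ideal.span {π})
  have hq : Function.Surjective q := Ideal.Quotient.mk_surjective
  have hk : ∀ x, q x = 0 ↔ π ∣ x := fun x => by
    rw [Ideal.Quotient.eq_zero_iff_mem, Ideal.mem_span_singleton]
  have hchar : CharP k l := by
    have h1 : ((l : ℕ) : k) = 0 := by
      have h2 := (hk (l : 𝓞 F)).2 D.dvd
      rw [map_natCast] at h2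
      exact h2
    obtain ⟨p, hp⟩ := CharP.exists k
    have h2 : p ∣ l := (CharP.cast_eq_zero_iff k p l).1 h1
    rcases (Nat.dvd_prime D.hl).1 h2 with h3 | h3
    · exfalso
      subst h3
      have h4 : ((1 : ℕ) : k) = 0 := (CharP.cast_eq_zero_iff k 1 1).2 (dvd_refl 1)
      rw [Nat.cast_one] at h4
      exact one_ne_zero h4
    · rw [← h3]
      exact hp
  obtain ⟨χ, hχi, hχ⟩ := H55K.exists_chi hA hp hTF q hq hk
  obtain ⟨T₀, hT₀, h0⟩ := H55K.exists_tor hA hp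
  have hwπ : algebraMap (𝓞 F) (𝓞 N) π ∉ w.asIdeal := by
    intro h
    apply hl
    obtain ⟨c, hc⟩ := D.dvd
    have h1 := congrArg (algebraMap (𝓞 F) (𝓞 N)) hc
    rw [map_natCast, map_mul] at h1
    rw [h1]
    exact w.asIdeal.mul_mem_right _ h
  have hG : ∀ V : ValuationSubring Ω, V.valuation (ak Ω π) < 1 → GV A B V := by
    intro V hV
    have hVl : V.valuation (l : Ω) < 1 := by
      obtain ⟨c, hc⟩ := D.dvd
      have h1 : H55K.S.vo V (l : 𝓞 F) = H55K.S.vo V π * H55K.S.vo V c := by rw [hc, vo_mul]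
      rw [← vo_nat (F := F), h1]
      exact lt_of_le_of_lt (mul_le_of_le_one_right' (vo_le V c)) hV
    exact D.dta.good V hVl
  obtain ⟨m₀, hm, hm1, hm2, a0, hm3⟩ := glob_N hA D.five hp hTF hG
    (fun v hv => unr_val D.hl.ne_zero D.dvd hU v hv) q hq hk χ hχi hχ w hwπ hst
  have hmem : ∀ (c : 𝓞 F) (v : Pl L), v.valuation L (algebraMap F L (c : F)) < 1 →
      algebraMap (𝓞 F) (𝓞 L) c ∈ v.asIdeal := by
    intro c v hv
    have h1 : algebraMap F L (c : F) = algebraMap (𝓞 L) L (algebraMap (𝓞 F) (𝓞 L) c) := rfl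
    rw [h1, HeightOneSpectrum.valuation_lt_one_iff_mem] at hv
    exact hv
  have hact0 : ∀ c c' : 𝓞 F, act c T₀ = act c' T₀ → q c = q c' := by
    intro c c' h
    have h1 : act (c - c') T₀ = 0 := by rw [H55K.k2a_sub, h, sub_self]
    rw [H55K.tor_zero hA hp hT₀ h0, ← hk, map_sub, sub_eq_zero] at h1
    exact h1
  have hex : ∀ T : Pt (WAB A B) Ω, ∃ c : 𝓞 F, T ∈ Tor act π → act c T₀ = T := by
    intro T
    by_cases hT : T ∈ Tor act π
    · obtain ⟨c, hc⟩ := H55K.tor_gen hA hp hT₀ hT h0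
      exact ⟨c, fun _ => hc⟩
    · exact ⟨0, fun h => absurd h hT⟩
  choose cc hcc using hex
  have hP : ∀ c : 𝓞 F, act c T₀ ∈ Tor act π := fun c => H55K.tor_act c hT₀
  have hdet : ∀ (c : 𝓞 F), q (cc (act c T₀)) = q c := by
    intro c
    exact hact0 _ _ (hcc _ (hP c))
  refine ⟨fun T => m₀ (q (cc T)), ⟨?_, ?_, ?_, ?_, ?_⟩⟩
  · intro T hT T' hT'
    have h2 : q (cc (T + T')) = q (cc T) + q (cc T') := by
      rw [← map_add, ← hdet (cc T + cc T')]
      congr 2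
      rw [H55K.k2a_add, hcc T hT, hcc T' hT']
    show ∃ z, m₀ (q (cc (T + T'))) = _
    rw [h2]
    exact hm.add _ _
  · intro σ hσ T hT
    obtain ⟨s, hs⟩ := hrestr σ hσ
    obtain ⟨c, hc⟩ := hq (χ s : k)
    have h2 : ac (WAB A B) σ T = act (c * cc T) T₀ := by
      rw [H55K.k2a_mul, hcc T hT]
      exact hχ s σ c (fun x => hs x) hc T hT
    have h3 : q (cc (ac (WAB A B) σ T)) = χ s * q (cc T) := by
      rw [h2, hdet, map_mul, hc]
    obtain ⟨z, hz⟩ := hm.equiv s (q (cc T))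
    refine ⟨z, ?_⟩
    show ((m₀ (q (cc (ac (WAB A B) σ T))) : L) : Ω) = _
    rw [h3, hz, hs]
    rfl
  · intro T hT V W hVW hVw
    refine hm1 _ W fun hWw => hVw ?_
    have h1 : Abw V W := hVW
    exact h1.below hWw
  · intro T hT v hv
    exact hm2 _ v (hmem π v hv)
  · obtain ⟨c, hc⟩ := hq a0
    refine ⟨act c T₀, hP c, ?_⟩
    intro z
    show m₀ (q (cc (act c T₀))) ≠ z ^ l
    rw [hdet, hc]
    exact hm3 z

end H13X
end

-- from Lib.H13X.XG2
section

/-! # H13X: port of H13Y/G2 -/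

open NumberField IsDedekindDomain WeierstrassCurve

namespace H13X

open H55P (IQ embF eF LF Per IsHecke Pt ac Inert Dec Nm Coc)
open H35P (WAB Ker tt)
open H55K (Tor ak xc yc CMA Dta GV GMod cj cj_cj mul_cj cj_prime cj_dvd cj_nat Nm_cj Nm_mul Nm_nat)
open H55K.S
open H13S (Abv)





variable {F : Type} [Field F] [NumberField F] [IQ F] {A B : F} {Om : ℂ} {Ω : Type} [Field Ω] [DecidableEq Ω]
  [Algebra F Ω] [IsAlgClosure F Ω] {j : Ω →+* ℂ} {act : 𝓞 F →+* AddMonoid.End (Pt (WAB A B) Ω)} {mo : Ideal (𝓞 F)}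
  {ψ : Ideal (𝓞 F) →*₀ 𝓞 F}

variable {π : 𝓞 F} {l : ℕ} {e : Pt (WAB A B) Ω → Pt (WAB A B) Ω → Ω} {N L : IntermediateField F Ω} [NumberField N]
  {w : HeightOneSpectrum (𝓞 N)} {c : (Ω ≃ₐ[F] Ω) → Pt (WAB A B) Ω} {y : Pt (WAB A B) Ω → Ω} {V : ValuationSubring Ω}

omit [IsAlgClosure F Ω] in
/-- Chunk YG2 (S/M). As H13Z/FZ2.lean Gl.zero. -/
theorem Gl.zero (G : Gl A B Om j act mo ψ π l e N L w c y) (he : Pairing A B act π l e) {s : Ω ≃ₐ[F] Ω}
    (hs : s ∈ L.fixingSubgroup) (h : ∀ T ∈ Tor act π, s (y T) = y T) : c s = 0 := by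
  refine he.nondeg _ (G.cc.val s (G.tb.mono hs)) fun T hT => ?_
  obtain ⟨h0, h1⟩ := G.kum T hT
  have h2 := h1 s hs
  rw [h T hT] at h2
  exact mul_right_cancel₀ h0 (by rw [one_mul]; exact h2.symm)

omit [IsAlgClosure F Ω] in
/-- The l-th power of y T is fixed by the automorphisms over L. -/
theorem yg2_pow (G : Gl A B Om j act mo ψ π l e N L w c y) (he : Pairing A B act π l e) {s : Ω ≃ₐ[F] Ω}
    (hs : s ∈ L.fixingSubgroup) {T : Pt (WAB A B) Ω} (hT : T ∈ Tor act π) : s (y T ^ l) = y T ^ l := by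
  rw [map_pow, (G.kum T hT).2 s hs, mul_pow, he.root _ (G.cc.val s (G.tb.mono hs)) T hT, one_mul]

omit [IsAlgClosure F Ω] in
/-- Outside l and w: x in L from Gl.out is fixed by s, y T^l is fixed (kum, he.root), unr_val (as H13Z/FZ2.lean Gl.inert). -/
theorem Gl.inert (G : Gl A B Om j act mo ψ π l e N L w c y) (he : Pairing A B act π l e) (hl : V.valuation (l : Ω) = 1)
    (hw : ¬ Abv N V w) {s : Ω ≃ₐ[F] Ω} (hs : Inert V s) (hT : s ∈ L.fixingSubgroup) : c s = 0 := by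
  have hchar : CharZero Ω := charZero_of_injective_algebraMap (algebraMap F Ω).injective
  refine G.zero he hT fun T hT' => ?_
  obtain ⟨x, hxL, hx0, hx⟩ := G.out V hw T hT'
  exact H13Z.unr_val V G.D.hl hl (G.kum T hT').1 hx hs
    ((IntermediateField.mem_fixingSubgroup_iff L s).1 hT x hxL) (yg2_pow G he hT hT')

omit [DecidableEq Ω] [IsAlgClosure F Ω] in
theorem yg2_unit (hV : Abv N V w) (a : 𝓞 N) (ha : a ∉ w.asIdeal) : V.valuation (((a : N) : Ω)) = 1 := by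
  apply le_antisymm
  · exact (V.valuation_le_one_iff _).2 ((hV (a : N)).2 (w.valuation_le_one a))
  · by_contra hcon
    push Not at hcon
    exact ha ((w.valuation_lt_one_iff_mem a).1 ((H13S.Abv.lt hV _).1 hcon))

omit [IsAlgClosure F Ω] in
/-- The values above w: V l = 1. -/
theorem Gl.val_w (G : Gl A B Om j act mo ψ π l e N L w c y) (hV : Abv N V w) : V.valuation (l : Ω) = 1 := by
  have h1 := yg2_unit hV (l : 𝓞 N) G.wl
  have h2 : (((l : 𝓞 N) : N) : Ω) = l := by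
    have e1 : ((l : 𝓞 N) : N) = l := map_natCast (algebraMap (𝓞 N) N) l
    rw [e1]
    exact map_natCast (algebraMap N Ω) l
  rwa [h2] at h1

/-- Above w over N': inertia elements over N fix Tor π (inert_tors: V 3 = 1, vo V π = 1 because π divides l), so they are in L.fixingSubgroup (tb.fix). y T^l is fixed by the inertia elements over N: H13S.value_fixed for K = N: V (y T)^l = V a, a in N, a ≠ 0, = V x^l with x in N' (hx), so V (y T) = V x; x is fixed by s (s in N'.fixingSubgroup). unr_val, Gl.zero. -/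
theorem Gl.kill (G : Gl A B Om j act mo ψ π l e N L w c y) (he : Pairing A B act π l e) (hV : Abv N V w)
    {N' : IntermediateField F Ω} (hNN : N ≤ N')
    (hx : ∀ a ∈ N, a ≠ 0 → ∃ x ∈ N', V.valuation x ^ l = V.valuation a) {s : Ω ≃ₐ[F] Ω}
    (hs : s ∈ N'.fixingSubgroup) (hi : Inert V s) : c s = 0 := by
  have hchar : CharZero Ω := charZero_of_injective_algebraMap (algebraMap F Ω).injective
  have hl := G.val_w hV
  have hfix : ∀ t : Ω ≃ₐ[F] Ω, t ∈ N.fixingSubgroup → Inert V t → t ∈ L.fixingSubgroup :=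
    fun t ht hti => (G.tb.fix t).2 ⟨ht, G.fx V hV t ⟨ht, Inert.dec hti⟩⟩
  have hsN : s ∈ N.fixingSubgroup := by
    rw [IntermediateField.mem_fixingSubgroup_iff] at hs ⊢
    exact fun x hx => hs x (hNN hx)
  have hsL := hfix s hsN hi
  refine G.zero he hsL fun T hT => ?_
  have hy0 : y T ≠ 0 := (G.kum T hT).1
  obtain ⟨a, ha0, ha⟩ := H13S.value_fixed N V (y T ^ l) (pow_ne_zero l hy0)
    (fun t ht hti => yg2_pow G he (hfix t ht hti) hT)
  obtain ⟨x, hxN, hxa⟩ := hx (a : Ω) a.2 (fun h => ha0 (Subtype.ext h))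
  rw [← hxa, map_pow] at ha
  have hxy : V.valuation (y T) = V.valuation x :=
    (pow_left_inj₀ zero_le zero_le G.D.hl.ne_zero).1 ha
  exact H13Z.unr_val V G.D.hl hl hy0 hxy hi ((IntermediateField.mem_fixingSubgroup_iff N' s).1 hs x hxN)
    (yg2_pow G he hsL hT)

omit [IsAlgClosure F Ω] [NumberField N] in
/-- the coboundary may be taken with values in the points killed by cj π -/
theorem YG3_red (D : Dat A B Om j act mo ψ π l) (C : Cc act π N c) {T : Pt (WAB A B) Ω} (hT : l • T = 0)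
    (hc : ∀ s ∈ N.fixingSubgroup, c s = ac (WAB A B) s T - T) :
    ∃ X ∈ Tor act (cj π), ∀ s ∈ N.fixingSubgroup, c s = ac (WAB A B) s X - X := by
  have hlT : act (l : 𝓞 F) T = 0 := by rw [act_nat (act := act), hT]
  rcases dichotomy D.hl D.dta.unr D.pr D.dvd with ⟨h1, h2, h3⟩ | ⟨h1, -, -, hll⟩
  · refine ⟨T, ?_, hc⟩
    rw [tor_assoc h1, ← tor_assoc h3, mem_Tor]
    exact hlT
  · have hcop : IsCoprime π (cj π) := (D.pr.irreducible.coprime_iff_not_dvd).2 h1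
    obtain ⟨u, v, huv⟩ := hcop
    have hX : act (u * π) T ∈ Tor act (cj π) := by
      rw [mem_Tor, ← act_mul]
      have h6 : cj π * (u * π) = u * (l : 𝓞 F) := by rw [← hll]; ring
      rw [h6, act_mul, hlT, map_zero]
    refine ⟨act (u * π) T, hX, fun s hs => ?_⟩
    have h3 : act (u * π) (c s) = c s := by
      have h4 : act (v * cj π) (c s) = 0 := by
        rw [act_mul, mem_Tor.1 (C.val s hs), map_zero]
      have h5 : act (u * π + v * cj π) (c s) = c s := by rw [huv, act_one]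
      rw [act_add, h4, add_zero] at h5
      exact h5
    rw [ac_act D.cma, ← map_sub, ← hc s hs, h3]

/-- Chunk YG3 (S/M). c is not a coboundary over N. Suppose c s = ac s T - T on N.fixingSubgroup, l • T = 0. If cj π = π (dichotomy) then l is a unit times π: T in Tor π = Tor (cj π), X = T. Otherwise π, cj π are coprime, l = unit * π cj π, T = T₁ + X with T₁ in Tor π, X in Tor (cj π) (act of a π + b cj π = 1); c s = (ac s T₁ - T₁) + (ac s X - X) with c s in Tor (cj π), ac s T₁ - T₁ in Tor π, the intersection is 0: ac s T₁ = T₁. So in all cases c s = ac s X - X on N.fixingSubgroup, X in Tor (cj π).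
T' from G.nz; s in L.fixingSubgroup: s (y T') = e (ac s X - X) T' * y T' = (e (ac s X) T'/e X T') y T' = (s (e X T')/e X T') y T' (he.gal, ac s T' = T'), so z = y T'/e X T' is fixed by L.fixingSubgroup: z in L (ku2_mem), z^l = y T'^l (he.root). Contradiction. -/
theorem Gl.not_cob (G : Gl A B Om j act mo ψ π l e N L w c y) (he : Pairing A B act π l e) :
    ¬ ∃ T : Pt (WAB A B) Ω, l • T = 0 ∧ ∀ s ∈ N.fixingSubgroup, c s = ac (WAB A B) s T - T := by
  rintro ⟨T, hT, hc⟩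
  obtain ⟨X, hX, hcX⟩ := YG3_red G.D G.cc hT hc
  obtain ⟨T', hT', hnz⟩ := G.nz
  have hl0 : l ≠ 0 := G.D.hl.ne_zero
  have h1 : e X T' ^ l = 1 := he.root X hX T' hT'
  have hne : e X T' ≠ 0 := by
    intro h
    rw [h, zero_pow hl0] at h1
    exact zero_ne_one h1
  have hz : y T' / e X T' ∈ L := by
    apply ku2_mem
    intro s hs
    have h2 := (G.kum T' hT').2 s hs
    have hsX : ac (WAB A B) s X ∈ Tor act (cj π) := ac_mem G.D.cma s hX
    have hsT : ac (WAB A B) s T' = T' := ((G.tb.fix s).1 hs).2 T' hT'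
    have h3 : s (e X T') = e (ac (WAB A B) s X) T' := by rw [he.gal s X hX T' hT', hsT]
    have h4 : e (ac (WAB A B) s X) T' = e (c s) T' * e X T' := by
      rw [← he.add_left _ (G.cc.val s (G.tb.mono hs)) _ hX T' hT', hcX s (G.tb.mono hs), sub_add_cancel]
    have h5 : e (c s) T' ≠ 0 := by
      intro h6
      rw [h6, zero_mul] at h2
      exact (G.kum T' hT').1 ((map_eq_zero_iff s s.injective).1 h2)
    rw [map_div₀, h2, h3, h4, mul_div_mul_left _ _ h5]
  refine hnz _ hz ?_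
  rw [div_pow, h1, div_one]

end H13X
end
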