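import Mathlib
import Pool.Agent.Lib.H1M.PP.M002
import Pool.Agent.Lib.H1M.PP.M036
import Pool.Agent.Lib.H1M.PP.M041
import Pool.Agent.Lib.H1M.PP.M042
import Pool.Agent.Lib.H1M.PP.M043
import Pool.Agent.Lib.H1M.PP.M047
import Pool.Agent.Lib.H1M.PP.M048
import Pool.Agent.Lib.H1M.PP.M051
import Pool.Agent.Lib.H1M.PP.M064
import Pool.Agent.Lib.H1M.PP.M070
import Pool.Agent.Lib.H1M.PP.M071
import Pool.Agent.Lib.H1M.PP.M072
import Pool.Agent.Lib.H1M.PP.M078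
import Pool.Agent.Lib.H1M.PP.M079

/-! Merged copies (to shorten the build) of Lib.H13X.XLK, Lib.H13R.R3, Lib.H13R.R6, Lib.H13X.XQ2, Lib.H13X.XLZ. -/

-- from Lib.H13X.XLK
section

/-! # H13X: the link between the number of points and the decomposition group -/

open NumberField IsDedekindDomain WeierstrassCurve

namespace H13X

open H55P (IQ embF eF LF Per IsHecke Pt ac Inert Dec Nm Coc PExt UnrP Ram RamF)
open H35P (WAB Ker tt)
open H55K (Tor ak xc yc CMA Dta GV GMod cj cj_cj mul_cj cj_prime cj_dvd cj_nat Nm_cj Nm_mul Nm_nat)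
open H55K (Abw exists_abw)
open H55K.S
open H55R (Pl)
open H13S (Abv)

theorem lk_fin {k : Type} [Field k] [Finite k] (W : WeierstrassCurve k) : Finite W.toAffine.Point := by
  let f : W.toAffine.Point → Option (k × k) := fun P => match P with
    | .zero => none
    | .some x y _ => some (x, y)
  apply Finite.of_injective f
  rintro (_ | ⟨x, y, h⟩) (_ | ⟨x', y', h'⟩) he
  · rfl
  · exact absurd he (by simp [f])
  · exact absurd he (by simp [f])
  · have h1 : (x, y) = (x', y') := Option.some.inj he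
    rw [Prod.mk.injEq] at h1
    obtain ⟨rfl, rfl⟩ := h1
    rfl

variable {F : Type} [Field F] [NumberField F] [IQ F] {A B : F} {Om : ℂ} {Ω : Type} [Field Ω] [DecidableEq Ω]
  [Algebra F Ω] [IsAlgClosure F Ω] {j : Ω →+* ℂ} {act : 𝓞 F →+* AddMonoid.End (Pt (WAB A B) Ω)} {mo : Ideal (𝓞 F)}
  {ψ : Ideal (𝓞 F) →*₀ 𝓞 F} {π : 𝓞 F} {l : ℕ}

/-- The reduction is good at V above v₀ if v₀ is prime to 6 and to the discriminant. -/
theorem lk_gv (W₀ : WeierstrassCurve (𝓞 F)) (hA : A = -(algebraMap (𝓞 F) F W₀.c₄) / 48)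
    (hB : B = -(algebraMap (𝓞 F) F W₀.c₆) / 864) {V : ValuationSubring Ω} (h2 : V.valuation (2 : Ω) = 1)
    (h3 : V.valuation (3 : Ω) = 1) (hΔ : vo V W₀.Δ = 1) : GV A B V := by
  have h48 : V.valuation (48 : Ω) = 1 := by
    have e : (48 : Ω) = 2 * 2 * 2 * 2 * 3 := by norm_num
    rw [e]
    simp only [map_mul, h2, h3, one_mul]
  have h864 : V.valuation (864 : Ω) = 1 := by
    have e : (864 : Ω) = 2 * 2 * 2 * 2 * 2 * 3 * 3 * 3 := by norm_num
    rw [e]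
    simp only [map_mul, h2, h3, one_mul]
  have h16 : V.valuation (16 : Ω) = 1 := by
    have e : (16 : Ω) = 2 * 2 * 2 * 2 := by norm_num
    rw [e]
    simp only [map_mul, h2, one_mul]
  refine ⟨?_, ?_, h2, h3, ?_⟩
  · rw [← V.valuation_le_one_iff, hA, map_div₀, map_neg, map_ofNat, map_div₀, Valuation.map_neg, h48,
      div_one]
    exact H55K.y3_le V _
  · rw [← V.valuation_le_one_iff, hB, map_div₀, map_neg, map_ofNat, map_div₀, Valuation.map_neg, h864,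
      div_one]
    exact H55K.y3_le V _
  · rw [H55K.y3_disc W₀ hA hB, map_div₀, map_neg, map_ofNat, map_div₀, Valuation.map_neg, h16, div_one]
    exact hΔ

/-- An element of 𝓞 F not in v₀ has value 1. -/
theorem lk_one {v₀ : Pl F} {V : ValuationSubring Ω} (hV : Abw V v₀) {x : 𝓞 F} (hx : x ∉ v₀.asIdeal) : vo V x = 1 := by
  refine le_antisymm (vo_le V x) (not_lt.1 fun h => hx ?_)
  exact (v₀.valuation_lt_one_iff_mem x).1 ((hV.lt (x : F)).1 h)

theorem lk_lt {v₀ : Pl F} {V : ValuationSubring Ω} (hV : Abw V v₀) {x : 𝓞 F} (hx : x ∈ v₀.asIdeal) : vo V x < 1 :=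
  (hV.lt (x : F)).2 ((v₀.valuation_lt_one_iff_mem x).2 hx)

/-- l divides the number of points modulo v₀: there is a point killed by l fixed by a Frobenius element. -/
theorem lk_frob (hA : CMA F A B Om j act) (W₀ : WeierstrassCurve (𝓞 F))
    (hA' : A = -(algebraMap (𝓞 F) F W₀.c₄) / 48) (hB' : B = -(algebraMap (𝓞 F) F W₀.c₆) / 864) {v₀ : Pl F}
    (hΔ : W₀.Δ ∉ v₀.asIdeal) {V : ValuationSubring Ω} (hV : Abw V v₀) (hG : GV A B V) (hl : l.Prime)
    (hlV : (l : 𝓞 F) ∉ v₀.asIdeal) (hpts : l ∣ Nat.card (W₀⁄(𝓞 F ⧸ v₀.asIdeal)).toAffine.Point)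
    {s : Ω ≃ₐ[F] Ω} (hsD : Dec V s) (hs : ∀ x ∈ V, V.valuation (s x - x ^ Ideal.absNorm v₀.asIdeal) < 1) :
    ∃ T : Pt (WAB A B) Ω, T ≠ 0 ∧ l • T = 0 ∧ ac (WAB A B) s T = T := by
  have hcl0 : IsAlgClosed Ω := IsAlgClosure.isAlgClosed F
  have hm := v₀.isMaximal
  have hlV1 := lk_one hV hlV
  let C : AddSubgroup (Pt (WAB A B) Ω ⧸ H55K.kerG hG) :=
    { carrier := {c | ∃ X : Pt (WAB A B) Ω, (X : Pt (WAB A B) Ω ⧸ H55K.kerG hG) = c ∧
        Ker V (ac (WAB A B) s X - X)}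
      add_mem' := by
        rintro _ _ ⟨X, rfl, hX⟩ ⟨Y, rfl, hY⟩
        refine ⟨X + Y, rfl, ?_⟩
        have e : ac (WAB A B) s (X + Y) - (X + Y) = (ac (WAB A B) s X - X) + (ac (WAB A B) s Y - Y) := by
          rw [map_add]
          abel
        rw [e]
        exact H55K.kadd hG hX hY
      zero_mem' := by
        refine ⟨0, rfl, ?_⟩
        rw [map_zero, sub_zero]
        trivial
      neg_mem' := by
        rintro _ ⟨X, rfl, hX⟩
        refine ⟨-X, rfl, ?_⟩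
        have e : ac (WAB A B) s (-X) - (-X) = -(ac (WAB A B) s X - X) := by
          rw [map_neg]
          abel
        rw [e]
        exact H55K.kneg hX }
  have hcard : Nat.card (W₀⁄(𝓞 F ⧸ v₀.asIdeal)).toAffine.Point = Nat.card C :=
    H55K.red_card hG W₀ hA' hB' v₀ hΔ (fun a ha => lk_lt hV ha) s hs
  have hfin : Finite C := by
    let _ : Field (𝓞 F ⧸ v₀.asIdeal) := Ideal.Quotient.field _
    have hf : Finite (𝓞 F ⧸ v₀.asIdeal) := Ideal.finiteQuotientOfFreeOfNeBot _ v₀.ne_bot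
    have h1 : Finite (W₀⁄(𝓞 F ⧸ v₀.asIdeal)).toAffine.Point := lk_fin _
    have h2 : Nat.card (W₀⁄(𝓞 F ⧸ v₀.asIdeal)).toAffine.Point ≠ 0 := Nat.card_pos.ne'
    rw [hcard] at h2
    exact Nat.finite_of_card_ne_zero h2
  have hfact : Fact l.Prime := ⟨hl⟩
  rw [hcard] at hpts
  obtain ⟨⟨c, X, rfl, hX⟩, hc⟩ := exists_prime_addOrderOf_dvd_card' l hpts
  have hc0 : ¬ Ker V X := by
    intro h
    have h1 : (⟨(X : Pt (WAB A B) Ω ⧸ H55K.kerG hG), X, rfl, hX⟩ : C) = 0 := by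
      apply Subtype.ext
      exact (QuotientAddGroup.eq_zero_iff X).2 h
    rw [h1, addOrderOf_zero] at hc
    exact hl.one_lt.ne hc
  have hlX : Ker V (l • X) := by
    have h1 := addOrderOf_nsmul_eq_zero (⟨(X : Pt (WAB A B) Ω ⧸ H55K.kerG hG), X, rfl, hX⟩ : C)
    rw [hc] at h1
    have h2 : ((l • X : Pt (WAB A B) Ω) : Pt (WAB A B) Ω ⧸ H55K.kerG hG) = 0 := congrArg Subtype.val h1
    exact (QuotientAddGroup.eq_zero_iff _).1 h2
  obtain ⟨T, hT, hXT⟩ := H55K.g9_surj hA hG (b := (l : 𝓞 F)) hlV1 (X := X) (by rw [act_nat (act := act)]; exact hlX)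
  have hlT : l • T = 0 := by
    have h1 : act (l : 𝓞 F) T = 0 := hT
    rwa [act_nat (act := act)] at h1
  refine ⟨T, ?_, hlT, ?_⟩
  · rintro rfl
    rw [sub_zero] at hXT
    exact hc0 hXT
  · have h1 : ac (WAB A B) s T - T = (ac (WAB A B) s X - X) - (ac (WAB A B) s (X - T) - (X - T)) := by
      rw [map_sub]
      abel
    have h2 : Ker V (ac (WAB A B) s T - T) := by
      rw [h1]
      exact H55K.ksub hG hX (H55K.ksub hG (kr_dec s hsD hXT) hXT)
    exact sub_eq_zero.1 (H55K.tor_unit hA hG (b := (l : 𝓞 F)) hlV1 (sub_mem (ac_mem hA s hT) hT) h2)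

omit [IQ F] in
theorem lk_norm {v₀ : Pl F} {V : ValuationSubring Ω} (hV : Abw V v₀)
    [NumberField (⊥ : IntermediateField F Ω)] : ∃ w : HeightOneSpectrum (𝓞 (⊥ : IntermediateField F Ω)),
      Abv ⊥ V w ∧ Ideal.absNorm w.asIdeal = Ideal.absNorm v₀.asIdeal := by
  obtain ⟨a, ha, ha0⟩ := Submodule.exists_mem_ne_zero_of_ne_bot v₀.ne_bot
  have h1 : V.valuation (algebraMap F Ω (a : F)) < 1 := (hV.lt (a : F)).2 ((v₀.valuation_lt_one_iff_mem a).2 ha)
  have ha1 : algebraMap F Ω (a : F) ≠ 0 := by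
    rw [Ne, map_eq_zero]
    intro h
    apply ha0
    exact RingOfIntegers.ext h
  obtain ⟨x, hx⟩ : ∃ x : F, x = (a : F) := ⟨_, rfl⟩
  rw [← hx] at h1 ha1
  obtain ⟨w, hw⟩ := H13S.exists_below (⊥ : IntermediateField F Ω) V
    ⟨algebraMap F (⊥ : IntermediateField F Ω) x⁻¹, fun h => by
      have e : ((algebraMap F (⊥ : IntermediateField F Ω) x⁻¹ : (⊥ : IntermediateField F Ω)) : Ω) =
          (algebraMap F Ω x)⁻¹ := by
        rw [← map_inv₀]
        rfl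
      rw [e, ← V.valuation_le_one_iff, map_inv₀, inv_le_one₀ (zero_lt_iff.2 ((map_ne_zero _).2 ha1))] at h
      exact absurd h1 (not_lt.2 h)⟩
  refine ⟨w, hw, ?_⟩
  have hmem : ∀ x : 𝓞 F, x ∈ v₀.asIdeal ↔ algebraMap (𝓞 F) (𝓞 (⊥ : IntermediateField F Ω)) x ∈ w.asIdeal := by
    intro x
    rw [← v₀.valuation_lt_one_iff_mem (K := F) x, ← hV.lt (x : F)]
    have h2 := hw.lt (algebraMap F (⊥ : IntermediateField F Ω) (x : F))
    exact h2.trans (w.valuation_lt_one_iff_mem (K := (⊥ : IntermediateField F Ω))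
      (algebraMap (𝓞 F) (𝓞 (⊥ : IntermediateField F Ω)) x))
  rw [← Ideal.absNorm_relNorm (𝓞 F) (𝓞 (⊥ : IntermediateField F Ω)) w.asIdeal, H55K.y9_norm hmem]

/-- The same for the decomposition group. -/
theorem lk_dec (hA : CMA F A B Om j act) (W₀ : WeierstrassCurve (𝓞 F))
    (hA' : A = -(algebraMap (𝓞 F) F W₀.c₄) / 48) (hB' : B = -(algebraMap (𝓞 F) F W₀.c₆) / 864) {v₀ : Pl F}
    (hΔ : W₀.Δ ∉ v₀.asIdeal) {V : ValuationSubring Ω} (hV : Abw V v₀) (hG : GV A B V) (hl : l.Prime)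
    (hlV : (l : 𝓞 F) ∉ v₀.asIdeal) (hpts : l ∣ Nat.card (W₀⁄(𝓞 F ⧸ v₀.asIdeal)).toAffine.Point) :
    ∃ T : Pt (WAB A B) Ω, T ≠ 0 ∧ l • T = 0 ∧ ∀ s, Dec V s → ac (WAB A B) s T = T := by
  have hcl0 : IsAlgClosed Ω := IsAlgClosure.isAlgClosed F
  have hal0 : Algebra.IsAlgebraic F Ω := IsAlgClosure.isAlgebraic
  have hbn : NumberField (⊥ : IntermediateField F Ω) := NumberField.of_module_finite F _
  obtain ⟨w, hw, hn⟩ := lk_norm hV
  obtain ⟨φ, hφ, hφD, hφF⟩ := exists_frobK (⊥ : IntermediateField F Ω) hw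
  obtain ⟨T, hT0, hT, hφT⟩ := lk_frob hA W₀ hA' hB' hΔ hV hG hl hlV hpts hφD (by rw [← hn]; exact hφF)
  refine ⟨T, hT0, hT, fun s hs => ?_⟩
  have hbot : ∀ s : Ω ≃ₐ[F] Ω, s ∈ (⊥ : IntermediateField F Ω).fixingSubgroup := fun s => by
    rw [IntermediateField.fixingSubgroup_bot]
    exact Subgroup.mem_top s
  have hTl : T ∈ Tor act (l : 𝓞 F) := by
    rw [mem_Tor, act_nat (act := act)]
    exact hT
  have hfin := lp_fin T
  have h0 := dec_gen (A := A) (B := B) (d := fun s => ac (WAB A B) s T - T) hw (fun s _ _ t _ _ => by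
      show ac (WAB A B) (s * t) T - T = (ac (WAB A B) s T - T) + ac (WAB A B) s (ac (WAB A B) t T - T)
      rw [ac_mul, map_sub]
      abel)
    ⟨IntermediateField.adjoin F {xc T, yc T}, hfin, fun s _ hs _ => by
      show ac (WAB A B) s T - T = 0
      rw [lp_adj s T hs, sub_self]⟩
    (fun s _ hi => by
      show ac (WAB A B) s T - T = 0
      rw [inert_tors hA hG (lk_one hV hlV) hi hTl, sub_self])
    hφ hφD hφF (by show ac (WAB A B) φ T - T = 0; rw [hφT, sub_self]) (hbot s) hs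
  exact sub_eq_zero.1 h0

/-- A prime element π above l such that the decomposition group fixes all the points killed by π. -/
theorem lk_pi (hA : CMA F A B Om j act) (hl : l.Prime) (unr : ∀ v : HeightOneSpectrum (𝓞 F), (l : 𝓞 F) ∉ v.asIdeal ^ 2)
    {V : ValuationSubring Ω} {T : Pt (WAB A B) Ω} (hT0 : T ≠ 0) (hT : l • T = 0)
    (hf : ∀ s, Dec V s → ac (WAB A B) s T = T) :
    ∃ π : 𝓞 F, Prime π ∧ π ∣ (l : 𝓞 F) ∧ ∀ s, Dec V s → ∀ R ∈ Tor act π, ac (WAB A B) s R = R := by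
  have key : ∀ β : 𝓞 F, Prime β → ∀ T' ∈ Tor act β, T' ≠ 0 → (∀ s, Dec V s → ac (WAB A B) s T' = T') →
      ∀ s, Dec V s → ∀ R ∈ Tor act β, ac (WAB A B) s R = R := by
    intro β hβ T' hT' h0 hf' s hs R hR
    obtain ⟨a, rfl⟩ := H55K.tor_gen hA hβ hT' hR h0
    rw [ac_act hA, hf' s hs]
  have hTl : act (l : 𝓞 F) T = 0 := by
    rw [act_nat (act := act)]
    exact hT
  obtain ⟨π, hπ, hd⟩ := exists_prime_above (F := F) hl
  rcases H55K.S.dichotomy hl unr hπ hd with ⟨-, -, h3⟩ | ⟨-, -, -, hll⟩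
  · exact ⟨π, hπ, hd, key π hπ T (by rw [← tor_assoc h3]; exact hTl) hT0 hf⟩
  · have hd' : cj π ∣ (l : 𝓞 F) := by rw [cj_dvd, cj_nat]; exact hd
    by_cases h : act (cj π) T = 0
    · exact ⟨cj π, cj_prime hπ, hd', key (cj π) (cj_prime hπ) T h hT0 hf⟩
    · refine ⟨π, hπ, hd, key π hπ (act (cj π) T) ?_ h fun s hs => ?_⟩
      · rw [mem_Tor, ← act_mul, hll]
        exact hTl
      · rw [ac_act hA, hf s hs]

end H13X
end

-- from Lib.H13R.R3
section

/-! # H13R: a point of order l modulo v, over M -/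

open NumberField IsDedekindDomain WeierstrassCurve

namespace H13R

open H55P (IQ embF eF LF Per IsHecke Pt ac Inert Dec Nm Coc PExt UnrP Ram RamF)
open H35P (WAB Ker tt GoodW IntW)
open H55K (Tor ak xc yc CMA Dta GV GMod)
open H55K H55K.MG
open H13S (Abv)

section cast

variable {k : Type} [Field k] [DecidableEq k]

/-- The identity map between the groups of points of equal curves. -/
noncomputable def castPt {E₁ E₂ : WeierstrassCurve k} (h : E₁ = E₂) : E₁.toAffine.Point ≃+ E₂.toAffine.Point := by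
  subst h
  exact AddEquiv.refl _

theorem castPt_some {E₁ E₂ : WeierstrassCurve k} (h : E₁ = E₂) (x y : k) (hn : E₁.toAffine.Nonsingular x y) :
    castPt h (.some x y hn) = .some x y (h ▸ hn) := by
  subst h
  rfl

theorem castPt_ker {E₁ E₂ : WeierstrassCurve k} (h : E₁ = E₂) (V : ValuationSubring k) (P : E₁.toAffine.Point) :
    Ker V (castPt h P) ↔ Ker V P := by
  subst h
  exact Iff.rfl

end cast

section count

variable {F : Type} [Field F] [NumberField F] {Ω : Type} [Field Ω] [DecidableEq Ω]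
  [Algebra F Ω] {V : ValuationSubring Ω}

/-- l divides the number of points modulo v: a point X not in the kernel of reduction, with l X in it and the class of X fixed by the Frobenius element. -/
theorem lk_X0 [IsAlgClosed Ω] (W₀ : WeierstrassCurve (𝓞 F)) (hG : GoodW ((W₀⁄F)⁄Ω) V)
    (v₀ : HeightOneSpectrum (𝓞 F)) (hΔ : W₀.Δ ∉ v₀.asIdeal)
    (hv : ∀ a : 𝓞 F, a ∈ v₀.asIdeal → V.valuation (ak Ω a) < 1) {l : ℕ} (hl : l.Prime)
    (hpts : l ∣ Nat.card (W₀⁄(𝓞 F ⧸ v₀.asIdeal)).toAffine.Point)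
    (s : Ω ≃ₐ[F] Ω) (hs : ∀ x ∈ V, V.valuation (s x - x ^ Ideal.absNorm v₀.asIdeal) < 1) :
    ∃ X : Pt (W₀⁄F) Ω, ¬ Ker V X ∧ Ker V (l • X) ∧ Ker V (ac (W₀⁄F) s X - X) := by
  have hm := v₀.isMaximal
  let C : AddSubgroup (Pt (W₀⁄F) Ω ⧸ kerR hG) :=
    { carrier := {c | ∃ X : Pt (W₀⁄F) Ω, (X : Pt (W₀⁄F) Ω ⧸ kerR hG) = c ∧
        Ker V (ac (W₀⁄F) s X - X)}
      add_mem' := by
        rintro _ _ ⟨X, rfl, hX⟩ ⟨Y, rfl, hY⟩
        refine ⟨X + Y, rfl, ?_⟩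
        have e : ac (W₀⁄F) s (X + Y) - (X + Y) = (ac (W₀⁄F) s X - X) + (ac (W₀⁄F) s Y - Y) := by
          rw [map_add]
          abel
        rw [e]
        exact (kerR hG).add_mem hX hY
      zero_mem' := by
        refine ⟨0, rfl, ?_⟩
        rw [map_zero, sub_zero]
        trivial
      neg_mem' := by
        rintro _ ⟨X, rfl, hX⟩
        refine ⟨-X, rfl, ?_⟩
        have e : ac (W₀⁄F) s (-X) - (-X) = -(ac (W₀⁄F) s X - X) := by
          rw [map_neg]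
          abel
        rw [e]
        exact (kerR hG).neg_mem hX }
  have hcard : Nat.card (W₀⁄(𝓞 F ⧸ v₀.asIdeal)).toAffine.Point = Nat.card C :=
    red_cardR W₀ hG v₀ hΔ hv s hs
  have hfin : Finite C := by
    let _ : Field (𝓞 F ⧸ v₀.asIdeal) := Ideal.Quotient.field _
    have hf : Finite (𝓞 F ⧸ v₀.asIdeal) := Ideal.finiteQuotientOfFreeOfNeBot _ v₀.ne_bot
    have h1 : Finite (W₀⁄(𝓞 F ⧸ v₀.asIdeal)).toAffine.Point := H13X.lk_fin _
    have h2 : Nat.card (W₀⁄(𝓞 F ⧸ v₀.asIdeal)).toAffine.Point ≠ 0 := Nat.card_pos.ne'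
    rw [hcard] at h2
    exact Nat.finite_of_card_ne_zero h2
  have hfact : Fact l.Prime := ⟨hl⟩
  rw [hcard] at hpts
  obtain ⟨⟨c, X, rfl, hX⟩, hc⟩ := exists_prime_addOrderOf_dvd_card' l hpts
  have hc0 : ¬ Ker V X := by
    intro h
    have h1 : (⟨(X : Pt (W₀⁄F) Ω ⧸ kerR hG), X, rfl, hX⟩ : C) = 0 := by
      apply Subtype.ext
      exact (QuotientAddGroup.eq_zero_iff X).2 h
    rw [h1, addOrderOf_zero] at hc
    exact hl.one_lt.ne hc
  have hlX : Ker V (l • X) := by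
    have h1 := addOrderOf_nsmul_eq_zero (⟨(X : Pt (W₀⁄F) Ω ⧸ kerR hG), X, rfl, hX⟩ : C)
    rw [hc] at h1
    have h2 : ((l • X : Pt (W₀⁄F) Ω) : Pt (W₀⁄F) Ω ⧸ kerR hG) = 0 := congrArg Subtype.val h1
    exact (QuotientAddGroup.eq_zero_iff _).1 h2
  exact ⟨X, hc0, hlX, hX⟩

end count

section base

variable {F : Type} [Field F] {Ω : Type} [Field Ω] [DecidableEq Ω] [Algebra F Ω] (M : IntermediateField F Ω)

omit [DecidableEq Ω] in
theorem r3_eq (W₀ : WeierstrassCurve (𝓞 F)) : (((W₀⁄(𝓞 M))⁄M)⁄Ω) = ((W₀⁄F)⁄Ω) := rfl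

theorem r3_ac (W₀ : WeierstrassCurve (𝓞 F)) (s : Ω ≃ₐ[M] Ω) (P : Pt ((W₀⁄(𝓞 M))⁄M) Ω) :
    castPt (r3_eq M W₀) (ac ((W₀⁄(𝓞 M))⁄M) s P) =
      ac (W₀⁄F) (s.restrictScalars F) (castPt (r3_eq M W₀) P) := by
  rcases P with _ | ⟨x, y, h⟩
  · show castPt (r3_eq M W₀) (ac ((W₀⁄(𝓞 M))⁄M) s 0) =
      ac (W₀⁄F) (s.restrictScalars F) (castPt (r3_eq M W₀) 0)
    rw [map_zero, map_zero, map_zero]
  · rw [castPt_some]
    exact castPt_some (r3_eq M W₀) (s x) (s y) _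

end base

variable {F : Type} [Field F] [NumberField F] {Ω : Type} [Field Ω] [DecidableEq Ω]
  [Algebra F Ω] [IsAlgClosure F Ω] {l : ℕ}

theorem lk_XM (W₀ : WeierstrassCurve (𝓞 F)) (M : IntermediateField F Ω) [NumberField M] {v : HeightOneSpectrum (𝓞 M)}
    (hΔ : algebraMap (𝓞 F) (𝓞 M) W₀.Δ ∉ v.asIdeal) {V : ValuationSubring Ω} (hV : Abv M V v)
    (hG : GoodW ((W₀⁄F)⁄Ω) V) (hl : l.Prime)
    (hpts : l ∣ Nat.card (W₀⁄(𝓞 M ⧸ v.asIdeal)).toAffine.Point)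
    {s : Ω ≃ₐ[F] Ω} (hsM : s ∈ M.fixingSubgroup) (hs : ∀ x ∈ V, V.valuation (s x - x ^ Ideal.absNorm v.asIdeal) < 1) :
    ∃ X : Pt (W₀⁄F) Ω, ¬ Ker V X ∧ Ker V (l • X) ∧ Ker V (ac (W₀⁄F) s X - X) := by
  have hcl0 : IsAlgClosed Ω := IsAlgClosure.isAlgClosed F
  let s' : Ω ≃ₐ[M] Ω := AlgEquiv.ofRingEquiv (f := (s : Ω ≃+* Ω)) (fun x =>
    (IntermediateField.mem_fixingSubgroup_iff M s).1 hsM (x : Ω) x.2)
  have hss : s'.restrictScalars F = s := by
    ext x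
    rfl
  have eΔ : (W₀⁄(𝓞 M)).Δ = algebraMap (𝓞 F) (𝓞 M) W₀.Δ := W₀.map_Δ _
  have hcur : (W₀⁄(𝓞 M))⁄(𝓞 M ⧸ v.asIdeal) = W₀⁄(𝓞 M ⧸ v.asIdeal) := rfl
  have hG' : GoodW (((W₀⁄(𝓞 M))⁄M)⁄Ω) V := by
    rw [r3_eq]
    exact hG
  obtain ⟨X, h1, h2, h3⟩ := lk_X0 (F := M) (Ω := Ω) (V := V) (W₀⁄(𝓞 M)) hG' v (by rw [eΔ]; exact hΔ)
    (fun a ha => (hV.lt (a : M)).2 ((v.valuation_lt_one_iff_mem a).2 ha)) hl (by rw [hcur]; exact hpts) s' hs
  refine ⟨castPt (r3_eq M W₀) X, ?_, ?_, ?_⟩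
  · rwa [castPt_ker]
  · rwa [← map_nsmul, castPt_ker]
  · have h4 := r3_ac M W₀ s' X
    rw [hss] at h4
    rw [← h4, ← map_sub, castPt_ker]
    exact h3

end H13R
end

-- from Lib.H13R.R6
section

/-! # H13R: the link between the number of points and the decomposition group over M, any residue characteristic -/

open NumberField IsDedekindDomain WeierstrassCurve

namespace H13R

open H55P (IQ embF eF LF Per IsHecke Pt ac Inert Dec Nm Coc PExt UnrP Ram RamF)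
open H35P (WAB Ker tt GoodW IntW)
open H55K (Tor TN ak xc yc CMA Dta GV GMod cj cj_cj mul_cj cj_prime cj_dvd cj_nat Nm_cj Nm_mul Nm_nat)
open H55K.MG (VC Crd)
open H55K.TQ
open H55K.S
open H13S (Abv)
open H13X

variable {F : Type} [Field F] [NumberField F] [IQ F] {A B : F} {Om : ℂ} {Ω : Type} [Field Ω] [DecidableEq Ω]
  [Algebra F Ω] [IsAlgClosure F Ω] {j : Ω →+* ℂ} {act : 𝓞 F →+* AddMonoid.End (Pt (WAB A B) Ω)} {l : ℕ}

omit [NumberField F] [IQ F] [IsAlgClosure F Ω] in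
theorem r6_ker {W : WeierstrassCurve F} {V : ValuationSubring Ω} {s : Ω ≃ₐ[F] Ω} (hs : Dec V s) {P : Pt W Ω} (hP : Ker V P) :
    Ker V (ac W s P) := by
  rcases P with _ | ⟨x, y, h⟩
  · trivial
  · show 1 < V.valuation (s x)
    have h1 : 1 < V.valuation x := hP
    rw [← not_le, V.valuation_le_one_iff] at h1 ⊢
    exact fun h2 => h1 ((hs x).1 h2)

/-- The isomorphism of the short equation and of W₀ over Ω commutes with the Galois action. -/
theorem r6_iso (W₀ : WeierstrassCurve (𝓞 F)) (hell : W₀.Δ ≠ 0)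
    (hA : A = -(algebraMap (𝓞 F) F W₀.c₄) / 48) (hB : B = -(algebraMap (𝓞 F) F W₀.c₆) / 864) :
    ∃ (r s t : F) (Θ : Pt (WAB A B) Ω ≃+ Pt (W₀⁄F) Ω), VC (WAB A B) (W₀⁄F) 1 r s t ∧
      Crd (algebraMap F Ω 1) (algebraMap F Ω r) (algebraMap F Ω s) (algebraMap F Ω t) Θ ∧
      ∀ (g : Ω ≃ₐ[F] Ω) (P : Pt (WAB A B) Ω), ac (W₀⁄F) g (Θ P) = Θ (ac (WAB A B) g P) := by
  have hd := H55K.y3_ne W₀ hA hB hell
  have hΔA : (WAB A B).Δ ≠ 0 := by
    have e : (WAB A B).Δ = -16 * (4 * A ^ 3 + 27 * B ^ 2) := by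
      unfold WAB WeierstrassCurve.Δ WeierstrassCurve.b₂ WeierstrassCurve.b₄ WeierstrassCurve.b₆ WeierstrassCurve.b₈
      ring
    rw [e]
    exact mul_ne_zero (by norm_num) hd
  obtain ⟨r, s', t', hVC⟩ := vc_short W₀ hA hB
  have hVC' := vc_map (algebraMap F Ω) hVC
  have hΔ1 : ((WAB A B).map (algebraMap F Ω)).Δ ≠ 0 := by
    rw [WeierstrassCurve.map_Δ]
    exact (map_ne_zero _).2 hΔA
  have hΔ2 : ((W₀⁄F).map (algebraMap F Ω)).Δ ≠ 0 := by
    have e : (W₀⁄F).Δ = algebraMap (𝓞 F) F W₀.Δ := WeierstrassCurve.map_Δ _ _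
    rw [WeierstrassCurve.map_Δ, e]
    refine (map_ne_zero _).2 fun h1 => hell ?_
    exact (map_eq_zero_iff _ (FaithfulSMul.algebraMap_injective (𝓞 F) F)).1 h1
  obtain ⟨Θ, hΘ⟩ : ∃ Θ : Pt (WAB A B) Ω ≃+ Pt (W₀⁄F) Ω,
      Crd (algebraMap F Ω 1) (algebraMap F Ω r)
        (algebraMap F Ω s') (algebraMap F Ω t') Θ := H55K.MG.vc_iso hVC' hΔ1 hΔ2
  refine ⟨r, s', t', Θ, hVC, hΘ, ?_⟩
  intro g P
  by_cases hP : P = 0
  · subst hP
    rw [map_zero, map_zero, map_zero, map_zero]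
  · obtain ⟨a1, a2, a3⟩ := hΘ P hP
    obtain ⟨b1, b2, b3⟩ := H55K.MG.ac_crd (W := WAB A B) g P
    have hP' : ac (WAB A B) g P ≠ 0 := fun h => hP (b3.1 h)
    obtain ⟨c1, c2, c3⟩ := hΘ _ hP'
    obtain ⟨d1, d2, d3⟩ := H55K.MG.ac_crd (W := W₀⁄F) g (Θ P)
    have e2 := congrArg g a2
    have e3 := congrArg g a3
    simp only [map_add, map_mul, map_pow, map_one, AlgEquiv.commutes, one_pow, one_mul, mul_one] at e2 e3 c2 c3
    have f2 : xc (ac (W₀⁄F) g (Θ P)) = xc (Θ (ac (WAB A B) g P)) := by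
      rw [d1]
      linear_combination c2 - e2 - b1
    refine pt_ext (fun h => a1 (d3.1 h)) c1 f2 ?_
    rw [d2]
    rw [d1] at f2
    linear_combination c3 - e3 - b2 - (algebraMap F Ω s') * f2

/-- l divides the number of points modulo v: there is a point killed by l fixed by the decomposition group. -/
theorem lk_decR (hA : CMA F A B Om j act) (W₀ : WeierstrassCurve (𝓞 F)) (hell : W₀.Δ ≠ 0)
    (hA' : A = -(algebraMap (𝓞 F) F W₀.c₄) / 48) (hB' : B = -(algebraMap (𝓞 F) F W₀.c₆) / 864)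
    (M : IntermediateField F Ω) [NumberField M] {v : HeightOneSpectrum (𝓞 M)}
    (hΔ : algebraMap (𝓞 F) (𝓞 M) W₀.Δ ∉ v.asIdeal) {V : ValuationSubring Ω} (hV : Abv M V v) (hl : l.Prime) (h5 : 5 ≤ l)
    (hlv : (l : 𝓞 M) ∉ v.asIdeal) (hpts : l ∣ Nat.card (W₀⁄(𝓞 M ⧸ v.asIdeal)).toAffine.Point) :
    ∃ T : Pt (WAB A B) Ω, T ≠ 0 ∧ l • T = 0 ∧ ∀ s, DecN M V s → ac (WAB A B) s T = T := by
  have hcl0 : IsAlgClosed Ω := IsAlgClosure.isAlgClosed F
  have hal0 : Algebra.IsAlgebraic F Ω := IsAlgClosure.isAlgebraic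
  have hc0' : CharZero Ω := charZero_of_injective_algebraMap (algebraMap F Ω).injective
  have hbel : H55P.Below V M v.asIdeal := fun x => by
    rw [← v.valuation_lt_one_iff_mem (K := M) x]
    exact (hV.lt (x : M)).symm
  have hG : GoodW ((W₀⁄F)⁄Ω) V := H55P.good_below W₀ M V v hbel hΔ
  have hlV : V.valuation (l : Ω) = 1 := H55P.val_below M V v hbel l hlv
  obtain ⟨r, s', t', Θ, hVC, hΘ, hcom⟩ := r6_iso (Ω := Ω) W₀ hell hA' hB'
  obtain ⟨φ, hφ, hφD, hφF⟩ := exists_frobK M hV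
  obtain ⟨X', hc0, hlX, hX⟩ := lk_XM W₀ M hΔ hV hG hl hpts hφ hφF
  obtain ⟨X, rfl⟩ := Θ.surjective X'
  obtain ⟨T, hT, hXT⟩ := surj_lR hA W₀ hVC hΘ hG hl h5 hlV (X := X) (by rw [map_nsmul]; exact hlX)
  have hT0 : T ≠ 0 := by
    rintro rfl
    rw [sub_zero] at hXT
    exact hc0 hXT
  have hφT : ac (WAB A B) φ T = T := by
    have h1 : Θ (ac (WAB A B) φ T - T) = (ac (W₀⁄F) φ (Θ X) - Θ X) -
        (ac (W₀⁄F) φ (Θ (X - T)) - Θ (X - T)) := by
      rw [hcom, hcom, map_sub, map_sub, map_sub, map_sub]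
      abel
    have h2 : Ker V (Θ (ac (WAB A B) φ T - T)) := by
      rw [h1]
      exact (kerR hG).sub_mem hX ((kerR hG).sub_mem (r6_ker hφD hXT) hXT)
    have h3 : Θ (ac (WAB A B) φ T - T) = 0 := H35P.fg hG.toIntW _ l hlV (by
      rw [← map_nsmul, smul_sub, ← map_nsmul, hT, map_zero, sub_zero, map_zero]) h2
    exact sub_eq_zero.1 ((map_eq_zero_iff Θ Θ.injective).1 h3)
  refine ⟨T, hT0, hT, fun s hs => ?_⟩
  have hfin := lp_fin T
  have h0 := dec_gen (A := A) (B := B) (d := fun s => ac (WAB A B) s T - T) hV (fun s _ _ t _ _ => by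
      show ac (WAB A B) (s * t) T - T = (ac (WAB A B) s T - T) + ac (WAB A B) s (ac (WAB A B) t T - T)
      rw [ac_mul, map_sub]
      abel)
    ⟨IntermediateField.adjoin F {xc T, yc T}, hfin, fun s _ hs _ => by
      show ac (WAB A B) s T - T = 0
      rw [lp_adj s T hs, sub_self]⟩
    (fun s _ hi => by
      show ac (WAB A B) s T - T = 0
      have h4 : ac (W₀⁄F) s (Θ T) = Θ T := H55P.red_fix (W₀⁄F) V hG l hlV s hi (Θ T) (by
        rw [hcom, smul_sub, ← map_nsmul, ← map_nsmul, ← map_nsmul, hT, map_zero, map_zero, sub_zero])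
      rw [hcom] at h4
      rw [Θ.injective h4, sub_self])
    hφ hφD hφF (by show ac (WAB A B) φ T - T = 0; rw [hφT, sub_self]) hs.1 hs.2
  exact sub_eq_zero.1 h0

omit [IsAlgClosure F Ω] in
/-- A prime element π above l such that the decomposition group fixes all the points killed by π. -/
theorem lk_piR (hA : CMA F A B Om j act) (hl : l.Prime) (unr : ∀ v : HeightOneSpectrum (𝓞 F), (l : 𝓞 F) ∉ v.asIdeal ^ 2)
    (M : IntermediateField F Ω) {V : ValuationSubring Ω} {T : Pt (WAB A B) Ω} (hT0 : T ≠ 0) (hT : l • T = 0)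
    (hf : ∀ s, DecN M V s → ac (WAB A B) s T = T) :
    ∃ π : 𝓞 F, Prime π ∧ π ∣ (l : 𝓞 F) ∧ ∀ s, DecN M V s → ∀ R ∈ Tor act π, ac (WAB A B) s R = R := by
  have key : ∀ β : 𝓞 F, Prime β → ∀ T' ∈ Tor act β, T' ≠ 0 → (∀ s, DecN M V s → ac (WAB A B) s T' = T') →
      ∀ s, DecN M V s → ∀ R ∈ Tor act β, ac (WAB A B) s R = R := by
    intro β hβ T' hT' h0 hf' s hs R hR
    obtain ⟨a, rfl⟩ := H55K.tor_gen hA hβ hT' hR h0
    rw [ac_act hA, hf' s hs]
  have hTl : act (l : 𝓞 F) T = 0 := by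
    rw [act_nat (act := act)]
    exact hT
  obtain ⟨π, hπ, hd⟩ := exists_prime_above (F := F) hl
  rcases H55K.S.dichotomy hl unr hπ hd with ⟨-, -, h3⟩ | ⟨-, -, -, hll⟩
  · exact ⟨π, hπ, hd, key π hπ T (by rw [← tor_assoc h3]; exact hTl) hT0 hf⟩
  · have hd' : cj π ∣ (l : 𝓞 F) := by rw [cj_dvd, cj_nat]; exact hd
    by_cases h : act (cj π) T = 0
    · exact ⟨cj π, cj_prime hπ, hd', key (cj π) (cj_prime hπ) T h hT0 hf⟩
    · refine ⟨π, hπ, hd, key π hπ (act (cj π) T) ?_ h fun s hs => ?_⟩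
      · rw [mem_Tor, ← act_mul, hll]
        exact hTl
      · rw [ac_act hA, hf s hs]

end H13R
end

-- from Lib.H13X.XQ2
section

/-! # H13X: port of H13Y/YQ2 -/

open NumberField IsDedekindDomain WeierstrassCurve

namespace H13X

open H55P (IQ embF eF LF Per IsHecke Pt ac Inert Dec Nm Coc)
open H35P (WAB Ker tt)
open H55K (Tor ak xc yc CMA Dta GV GMod cj cj_cj mul_cj cj_prime cj_dvd cj_nat Nm_cj Nm_mul Nm_nat)
open H55K.S
open H13S (Abv)





variable {F : Type} [Field F] [NumberField F] [IQ F] {A B : F} {Om : ℂ} {Ω : Type} [Field Ω] [DecidableEq Ω]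
  [Algebra F Ω] [IsAlgClosure F Ω] {j : Ω →+* ℂ} {act : 𝓞 F →+* AddMonoid.End (Pt (WAB A B) Ω)} {mo : Ideal (𝓞 F)}
  {ψ : Ideal (𝓞 F) →*₀ 𝓞 F}

variable {π : 𝓞 F} {l : ℕ} {N : IntermediateField F Ω} {V : ValuationSubring Ω} {φ : Ω ≃ₐ[F] Ω} {q n : ℕ}
  {e : Pt (WAB A B) Ω → Pt (WAB A B) Ω → Ω}

/-- Chunk YQ5 (S/M). Two classes with congruent coefficients x, x₁ at T₀ ≠ 0: y T₀^l = z^l (1 + l x), y₁ T₀^l = z₁^l (1 + l x₁). (y T₀/y₁ T₀)^l = (z/z₁)^l v, v = (1 + l x)/(1 + l x₁), v - 1 = l (x - x₁)/(1 + l x₁), V ≤ V l^2 (UV.step). UV.fix: y T₀/y₁ T₀ is fixed by s in JV (in DT), KS.act: e (c s) T₀/e (c₁ s) T₀ = 1, lk_sub, UV.zero. -/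
theorem UV.same (U : UV A B Om j act mo ψ π l N V φ q n) (he : Pairing A B act π l e) {c c₁ : (Ω ≃ₐ[F] Ω) → Pt (WAB A B) Ω}
    (hc : Dc act π N V c) (hc₁ : Dc act π N V c₁) {y y₁ : Pt (WAB A B) Ω → Ω} (hy : KS act π N V e c y)
    (hy₁ : KS act π N V e c₁ y₁) {T₀ : Pt (WAB A B) Ω} (hT : T₀ ∈ Tor act π) (h0 : T₀ ≠ 0) {z x z₁ x₁ : Ω}
    (hz : Hx act π N V z) (hz0 : z ≠ 0) (hx : Hx act π N V x) (hx1 : V.valuation x ≤ 1)
    (h : y T₀ ^ l = z ^ l * (1 + l * x)) (hz₁ : Hx act π N V z₁) (hz10 : z₁ ≠ 0) (hx₁ : Hx act π N V x₁)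
    (hx11 : V.valuation x₁ ≤ 1) (h₁ : y₁ T₀ ^ l = z₁ ^ l * (1 + l * x₁))
    (hd : V.valuation (x - x₁) < 1) : ∀ s, JV act π V s → c s - c₁ s = 0 := by
  intro s hs
  have D := U.D
  obtain ⟨_, _, _, _, hl1⟩ := U.val_l
  have hDN : DecN N V s := U.nb.dec hl1 hs.1
  have hDT : DT act π N V s := ⟨hDN, hs.2.1⟩
  have hyn : y T₀ ≠ 0 := hy.ne T₀ hT
  have hyn₁ : y₁ T₀ ≠ 0 := hy₁.ne T₀ hT
  have hxx := U.step (hx.sub hx₁) hd
  have hlx₁ : V.valuation ((l : Ω) * x₁) < 1 := by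
    rw [map_mul]
    exact lt_of_le_of_lt (mul_le_of_le_one_right' hx11) hl1
  have hu₁ : V.valuation (1 + (l : Ω) * x₁) = 1 := Valuation.map_one_add_of_lt _ hlx₁
  have hun₁ : 1 + (l : Ω) * x₁ ≠ 0 := by
    intro h0
    rw [h0, map_zero] at hu₁
    exact zero_ne_one hu₁
  obtain ⟨v, hv⟩ : ∃ v, v = (1 + (l : Ω) * x) / (1 + (l : Ω) * x₁) := ⟨_, rfl⟩
  have hvH : Hx act π N V v := by
    rw [hv]
    exact (Hx.one.add ((Hx.nat l).mul hx)).div (Hx.one.add ((Hx.nat l).mul hx₁))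
  have hv1 : V.valuation (v - 1) ≤ V.valuation (l : Ω) ^ 2 := by
    have e1 : v - 1 = (l : Ω) * (x - x₁) / (1 + (l : Ω) * x₁) := by
      rw [hv, div_sub_one hun₁]
      congr 1
      ring
    rw [e1, map_div₀, hu₁, div_one, map_mul, sq]
    exact mul_le_mul_right hxx _
  have hq : (y T₀ / y₁ T₀) ^ l = (z / z₁) ^ l * v := by
    rw [div_pow, h, h₁, hv, div_pow]
    field_simp
  have h3 := U.fix he (hz.div hz₁) (div_ne_zero hz0 hz10) hvH hq hv1 hs
  rw [map_div₀ s, hy.gal T₀ hT s hDT, hy₁.gal T₀ hT s hDT] at h3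
  have h5 := lk_ne D he (hc₁.val s hDN) hT
  have h4 : e (c s) T₀ / e (c₁ s) T₀ = 1 := by
    field_simp at h3 ⊢
    exact h3
  apply U.zero he hT h0 (sub_mem (hc.val s hDN) (hc₁.val s hDN))
  rw [lk_sub D he (hc.val s hDN) (hc₁.val s hDN) hT]
  exact h4

/-- Chunk YQ6 (M). The local condition above cj π over N in the split case. T₀ ≠ 0 in Tor π (gi_gen). r from U.rep. For each i: exists_ptu with u = r i (hl: UV.val_l): P i, y i, class c_i; UV.coef for sys_of: z i, x i, V (x i^q - n x i) < 1. For i ≠ i' not V (x i - x i') < 1: otherwise UV.same: the difference vanishes on JV; cob_inert (inertia elements are in DecN: U.nb.dec) against pt_diff.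
c has (z, x) (UV.coef, sys_of). pigeon2 (2 ≤ q): i with V (x - x i) < 1. UV.same, cob_ram with moved_ram for cj π: c s - (s P_i - P_i) = s X - X. The point P_i + X. -/
theorem loc_conj (U : UV A B Om j act mo ψ π l N V φ q n) (he : Pairing A B act π l e) {c : (Ω ≃ₐ[F] Ω) → Pt (WAB A B) Ω} (hc : Dc act π N V c)
    {y : Pt (WAB A B) Ω → Ω} (hy : KS act π N V e c y)
    (hvy : ∀ T ∈ Tor act π, ∃ k : ℤ, V.valuation (y T) = V.valuation (l : Ω) ^ k) : ∃ P : Pt (WAB A B) Ω, ∀ s, DecN N V s → c s = ac (WAB A B) s P - P := by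
  have D := U.D
  obtain ⟨hl0, hp1, hG, hl00, hl1⟩ := U.val_l
  have hA := D.cma
  have hβ : Prime (cj π) := cj_prime D.pr
  have hID : ∀ s : Ω ≃ₐ[F] Ω, Inert V s → DecN N V s := fun s hs => U.nb.dec hl1 hs
  have hDT : ∀ s : Ω ≃ₐ[F] Ω, Inert V s → DT act π N V s := fun s hs =>
    ⟨hID s hs, fun T hT => inert_tors hA hG hp1 hs hT⟩
  obtain ⟨_, T₀, hT₀, _, hz0⟩ := gi_gen U.D.cma π D.pr
  have hT00 : T₀ ≠ 0 := by
    intro h
    have h1 := (hz0 1).1 (by rw [act_one, h])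
    exact D.pr.not_unit (isUnit_of_dvd_one h1)
  obtain ⟨r, hr1, hr2⟩ := U.rep
  have key : ∀ i : Fin q, ∃ (P : Pt (WAB A B) Ω) (y₁ : Pt (WAB A B) Ω → Ω) (z x : Ω),
      Ker V (act (cj π) P) ∧
      V.valuation (tt (act (cj π) P) - l * r i) < V.valuation (l : Ω) ∧
      Dc act π N V (fun s => ac (WAB A B) s P - P) ∧ KS act π N V e (fun s => ac (WAB A B) s P - P) y₁ ∧
      Hx act π N V z ∧ z ≠ 0 ∧ Hx act π N V x ∧ V.valuation x ≤ 1 ∧ y₁ T₀ ^ l = z ^ l * (1 + l * x) ∧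
      V.valuation (x ^ q - n * x) < 1 := by
    intro i
    obtain ⟨P, B₀, L, y₁, hP, hPv, hP3, -, -, -, -, hc₁, hy₁⟩ :=
      exists_ptu D hG he U.nb U.above hl0 (hr1 i).1 (hr1 i).2
    have hPK : Ker V P := by
      rcases hP3 with h | h
      · rw [h]
        exact ker_zero V
      · exact h.1
    obtain ⟨k, hk⟩ := na_val D he V hG hp1 U.above hPK (fun s hs => hc₁.val s (hID s hs)) hT₀ (hy₁.ne T₀ hT₀)
      (fun s hs => hy₁.gal T₀ hT₀ s (hDT s hs))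
    obtain ⟨z, x, hz, hzn, hx, hx1, hmz, hxe⟩ := U.coef (sys_of D he hc₁ hy₁) hT₀ ⟨k, by
      show V.valuation (y₁ T₀ ^ l) = _
      rw [map_pow, hk, ← hl0, mul_comm, zpow_mul, zpow_natCast]⟩
    exact ⟨P, y₁, z, x, hP, hPv, hc₁, hy₁, hz, hzn, hx, hx1, hmz, hxe⟩
  choose P y₁ z x hP hPv hc₁ hy₁ hz hzn hx hx1 hm hxe using key
  have hinj : ∀ i i', i ≠ i' → ¬ V.valuation (x i - x i') < 1 := by
    intro i i' hne hlt
    have h1 := U.same he (hc₁ i) (hc₁ i') (hy₁ i) (hy₁ i') hT₀ hT00 (hz i) (hzn i) (hx i) (hx1 i)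
      (hm i) (hz i') (hzn i') (hx i') (hx1 i') (hm i') hlt
    obtain ⟨X, hX, hX1⟩ := cob_inert D ((hc₁ i).sub (hc₁ i')) (fun s _ hs => h1 s hs)
    exact pt_diff D hG U.above hl0 (hr1 i).2 (hr1 i').2 (hP i) (hP i') (hPv i) (hPv i') (hr2 i i' hne)
      ⟨X, hX, fun s hs => hX1 s (hID s hs).1 hs⟩
  obtain ⟨z', x', hz', hzn', hx', hx1', hmz', hxe'⟩ := U.coef (sys_of D he hc hy) hT₀ (by
    obtain ⟨k, hk⟩ := hvy T₀ hT₀
    exact ⟨k, by
      show V.valuation (y T₀ ^ l) = _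
      rw [map_pow, hk, mul_comm, zpow_mul, zpow_natCast]⟩)
  have hq2 : 2 ≤ q := by
    obtain ⟨q', hq', hq0⟩ := U.ql
    have h5 := D.five
    rw [hq']
    nlinarith
  obtain ⟨i, hi⟩ := H13Y.pigeon2 V hq2 x (fun i => ⟨hx1 i, hxe i⟩) hinj hx1' hxe'
  have h1 := U.same he hc (hc₁ i) hy (hy₁ i) hT₀ hT00 hz' hzn' hx' hx1' hmz' (hz i) (hzn i) (hx i)
    (hx1 i) (hm i) hi
  obtain ⟨X, hX, hX1⟩ := cob_ram D (hc.sub (hc₁ i)) (fun s _ hs => h1 s hs) (by
    obtain ⟨σ, h6, h7⟩ := moved_ram hA hG hβ (xp_nm D).2 U.above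
    exact ⟨σ, (hID σ h6).1, h6, h7⟩)
  refine ⟨P i + X, fun s hs => ?_⟩
  have h2 : c s - (ac (WAB A B) s (P i) - P i) = ac (WAB A B) s X - X := hX1 s hs
  rw [map_add, sub_eq_iff_eq_add.1 h2]
  abel

end H13X
end

-- from Lib.H13X.XLZ
section

/-!
# H13X: a class which is zero on the inertia elements fixing the l-torsion is locally a coboundary

If some inertia element over K moves the points killed by the conjugate β of π, then the class is a coboundary (cob_dec_ram).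
Otherwise inertia over K fixes all points killed by powers of β, and a Frobenius element φ over K moves some of them
(fin_move: the residue field of K is finite), so every point killed by β is φ P - P with P killed by a power of β (phi_surj).
-/

open NumberField IsDedekindDomain WeierstrassCurve

namespace H13X

open H55P (IQ embF eF LF Per IsHecke Pt ac Inert Dec Nm Coc)
open H35P (WAB Ker tt)
open H55K (Tor ak xc yc CMA Dta GV GMod cj cj_cj mul_cj cj_prime cj_dvd cj_nat Nm_cj Nm_mul Nm_nat)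
open H55K.S
open H13S (Abv)

variable {F : Type} [Field F] [NumberField F] [IQ F] {A B : F} {Om : ℂ} {Ω : Type} [Field Ω] [DecidableEq Ω]
  [Algebra F Ω] [IsAlgClosure F Ω] {j : Ω →+* ℂ} {act : 𝓞 F →+* AddMonoid.End (Pt (WAB A B) Ω)} {mo : Ideal (𝓞 F)}
  {ψ : Ideal (𝓞 F) →*₀ 𝓞 F}

variable {π : 𝓞 F} {l : ℕ} {V : ValuationSubring Ω}

/-- Many points killed by a power of β, no two equal up to sign. -/
theorem many_pts (hA : CMA F A B Om j act) {β : 𝓞 F} (hβ : Prime β) (m : ℕ) :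
    ∃ (n : ℕ) (T : ℕ → Pt (WAB A B) Ω), (∀ i, T i ∈ Tor act (β ^ n)) ∧ (∀ i < m, T i ≠ 0) ∧
      ∀ i < m, ∀ k < m, i ≠ k → T i ≠ T k ∧ T i ≠ -T k := by
  have hN0 : Nm β ≠ 0 := Nm_ne_zero' hβ.ne_zero
  have hN1 : Nm β ≠ 1 := fun h => hβ.not_unit (Nm_eq_one'.1 h)
  have hN2 : 2 ≤ Nm β := by omega
  have hn : (2 * m) ^ 2 < Nm β ^ ((2 * m) ^ 2) := Nat.lt_pow_self (by omega)
  obtain ⟨T₀, hT₀, -, hz, -⟩ := hA.gen (β ^ ((2 * m) ^ 2)) (pow_ne_zero _ hβ.ne_zero)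
  have key : ∀ a : ℤ, a ≠ 0 → |a| ≤ 2 * m → act ((a : ℤ) : 𝓞 F) T₀ ≠ 0 := by
    intro a ha0 ha h
    have h1 := (hz _).1 h
    have h2 : Nm β ^ ((2 * m) ^ 2) ∣ a.natAbs ^ 2 := by
      obtain ⟨c, hc⟩ := h1
      have h3 : Nm ((a.natAbs : ℕ) : 𝓞 F) = a.natAbs ^ 2 := Nm_nat _
      have h4 : Nm ((a : ℤ) : 𝓞 F) = Nm ((a.natAbs : ℕ) : 𝓞 F) := by
        rcases Int.natAbs_eq a with h5 | h5
        · conv_lhs => rw [h5]
          rw [Int.cast_natCast]
        · conv_lhs => rw [h5]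
          rw [Int.cast_neg, Int.cast_natCast, neg_eq_neg_one_mul, Nm_mul]
          have h6 : Nm (-1 : 𝓞 F) = 1 := Nm_eq_one'.2 isUnit_one.neg
          rw [h6, one_mul]
      have h7 : ∀ k : ℕ, Nm (β ^ k) = Nm β ^ k := by
        intro k
        induction k with
        | zero => rw [pow_zero, pow_zero]; exact Nm_eq_one'.2 isUnit_one
        | succ k ih => rw [pow_succ, Nm_mul, ih, pow_succ]
      rw [← h3, ← h4, hc, Nm_mul, h7]
      exact dvd_mul_right _ _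
    have h8 : 0 < a.natAbs ^ 2 := pow_pos (Int.natAbs_pos.2 ha0) 2
    have h9 := Nat.le_of_dvd h8 h2
    have h10 : a.natAbs ≤ 2 * m := by
      have h12 := Int.abs_eq_natAbs a
      rw [h12] at ha
      exact_mod_cast ha
    have h11 : a.natAbs ^ 2 ≤ (2 * m) ^ 2 := Nat.pow_le_pow_left h10 2
    omega
  refine ⟨(2 * m) ^ 2, fun i => act (((i + 1 : ℕ) : ℤ) : 𝓞 F) T₀, fun i => act_tor hT₀, fun i hi => ?_,
    fun i hi k hk hik => ⟨fun h => ?_, fun h => ?_⟩⟩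
  · refine key _ (by positivity) ?_
    rw [abs_of_nonneg (by positivity)]
    push_cast
    omega
  · refine key (((i + 1 : ℕ) : ℤ) - ((k + 1 : ℕ) : ℤ)) (by push_cast; omega) ?_ ?_
    · rw [abs_le]
      push_cast
      omega
    · change act (((i + 1 : ℕ) : ℤ) : 𝓞 F) T₀ = act (((k + 1 : ℕ) : ℤ) : 𝓞 F) T₀ at h
      rw [Int.cast_sub, act_sub, h, sub_self]
  · refine key (((i + 1 : ℕ) : ℤ) + ((k + 1 : ℕ) : ℤ)) (by push_cast; omega) ?_ ?_
    · rw [abs_le]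
      push_cast
      omega
    · change act (((i + 1 : ℕ) : ℤ) : 𝓞 F) T₀ = -act (((k + 1 : ℕ) : ℤ) : 𝓞 F) T₀ at h
      rw [Int.cast_add, act_add, h, neg_add_cancel]

/-- The Frobenius element moves a point killed by a power of β, if the differences of the x-coordinates of these points have
all the same value. -/
theorem fin_move (hA : CMA F A B Om j act) {β : 𝓞 F} (hβ : Prime β) {φ : Ω ≃ₐ[F] Ω} {Q : ℕ} (hQ : 2 ≤ Q)
    (hφ : ∀ x ∈ V, V.valuation (φ x - x ^ Q) < 1) {r : V.ValueGroup} (hr : r ≠ 0)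
    (hd : ∀ n : ℕ, ∀ P ∈ Tor act (β ^ n), ∀ P' ∈ Tor act (β ^ n), P ≠ 0 → P' ≠ 0 → P ≠ P' → P ≠ -P' →
      V.valuation (xc P - xc P') = r) :
    ∃ n : ℕ, ∃ T ∈ Tor act (β ^ n), ac (WAB A B) φ T ≠ T := by
  by_contra hcon
  push Not at hcon
  obtain ⟨n, T, hT, hT0, hTT⟩ := many_pts hA hβ (Q + 3)
  have hv : ∀ i < Q + 3, ∀ k < Q + 3, i ≠ k → V.valuation (xc (T i) - xc (T k)) = r := fun i hi k hk hik =>
    hd n _ (hT i) _ (hT k) (hT0 i hi) (hT0 k hk) (hTT i hi k hk hik).1 (hTT i hi k hk hik).2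
  have hx : ∀ i, φ (xc (T i)) = xc (T i) := fun i => by
    rw [← xc_ac, hcon n _ (hT i)]
  let f : ℕ → Ω := fun i => (xc (T (i + 2)) - xc (T 0)) / (xc (T 1) - xc (T 0))
  have hf1 : ∀ i < Q + 1, V.valuation (f i) = 1 := by
    intro i hi
    show V.valuation ((xc (T (i + 2)) - xc (T 0)) / (xc (T 1) - xc (T 0))) = 1
    rw [map_div₀, hv _ (by omega) _ (by omega) (by omega), hv _ (by omega) _ (by omega) (by omega), div_self hr]
  have hfd : ∀ i < Q + 1, ∀ k < Q + 1, i ≠ k → V.valuation (f i - f k) = 1 := by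
    intro i hi k hk hik
    have e : f i - f k = (xc (T (i + 2)) - xc (T (k + 2))) / (xc (T 1) - xc (T 0)) := by
      show (xc (T (i + 2)) - xc (T 0)) / (xc (T 1) - xc (T 0)) -
        (xc (T (k + 2)) - xc (T 0)) / (xc (T 1) - xc (T 0)) = _
      rw [← sub_div]
      congr 1
      ring
    rw [e, map_div₀, hv _ (by omega) _ (by omega) (by omega), hv _ (by omega) _ (by omega) (by omega), div_self hr]
  have hff : ∀ i < Q + 1, V.valuation (f i ^ Q - (1 : ℕ) * f i) < 1 := by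
    intro i hi
    have h1 := hφ (f i) ((V.valuation_le_one_iff _).1 (hf1 i hi).le)
    have h2 : φ (f i) = f i := by
      show φ ((xc (T (i + 2)) - xc (T 0)) / (xc (T 1) - xc (T 0))) = _
      rw [map_div₀, map_sub, map_sub, hx, hx, hx]
    rw [h2] at h1
    rw [Nat.cast_one, one_mul, Valuation.map_sub_swap]
    exact h1
  obtain ⟨i, hi⟩ := H13Y.pigeon2 V hQ (n := 1) (fun i : Fin Q => f i)
    (fun i => ⟨(hf1 i (by omega)).le, hff i (by omega)⟩)
    (fun i i' hii h => by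
      have h1 := hfd i (by omega) i' (by omega) (fun h2 => hii (Fin.ext h2))
      exact absurd h (by rw [h1]; exact lt_irrefl _)) (z := f Q) (hf1 Q (by omega)).le (hff Q (by omega))
  rw [hfd Q (by omega) i (by omega) (by omega)] at hi
  exact lt_irrefl _ hi

/-- Every point killed by β is φ P - P with P killed by a power of β. -/
theorem phi_surj (hA : CMA F A B Om j act) {β : 𝓞 F} (hβ : Prime β) {φ : Ω ≃ₐ[F] Ω}
    (h : ∃ n : ℕ, ∃ T ∈ Tor act (β ^ n), ac (WAB A B) φ T ≠ T) {R : Pt (WAB A B) Ω} (hR : R ∈ Tor act β) :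
    ∃ n : ℕ, ∃ P ∈ Tor act (β ^ n), ac (WAB A B) φ P - P = R := by
  classical
  obtain ⟨T, hT, hne⟩ := Nat.find_spec h
  have hmin := fun m (hm : m < Nat.find h) => Nat.find_min h hm
  obtain ⟨n, hn⟩ : ∃ n, n = Nat.find h := ⟨_, rfl⟩
  rw [← hn] at hT hmin
  have hn0 : n ≠ 0 := by
    rintro rfl
    apply hne
    rw [pow_zero, mem_Tor, act_one] at hT
    rw [hT, map_zero]
  obtain ⟨k, rfl⟩ : ∃ k, n = k + 1 := ⟨n - 1, by omega⟩
  have hβT : act β T ∈ Tor act (β ^ k) := by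
    rw [mem_Tor, ← act_mul, ← pow_succ]
    exact hT
  have hfix : ac (WAB A B) φ (act β T) = act β T := by
    by_contra h1
    exact hmin k (Nat.lt_succ_self k) ⟨_, hβT, h1⟩
  have hR₀ : ac (WAB A B) φ T - T ∈ Tor act β := by
    rw [mem_Tor, map_sub, ← ac_act hA, hfix, sub_self]
  obtain ⟨a, ha⟩ := (PA1_gen hA β hβ _ hR₀ (sub_ne_zero.2 hne)).1 R hR
  refine ⟨k + 1, act a T, act_tor hT, ?_⟩
  rw [ac_act hA, ha, map_sub]

/-- THE LOCAL LEMMA. -/
theorem loc_zero (D : Dat A B Om j act mo ψ π l) {K : IntermediateField F Ω} [NumberField K]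
    {c : (Ω ≃ₐ[F] Ω) → Pt (WAB A B) Ω} (C : Cc act π K c) {w : HeightOneSpectrum (𝓞 K)} (hw : Abv K V w)
    (hI : V.valuation (l : Ω) < 1 → ∀ s, Inert V s → s ∈ K.fixingSubgroup)
    (h : ∀ s ∈ K.fixingSubgroup, JV act π V s → c s = 0) :
    ∃ P : Pt (WAB A B) Ω, ∀ s ∈ K.fixingSubgroup, Dec V s → c s = ac (WAB A B) s P - P := by
  have hA := D.cma
  have hπ' : Prime (cj π) := cj_prime D.pr
  have hd' : cj π ∣ (l : 𝓞 F) := D.conj.dvd
  have hDc : Dc act π K V c := dc_of_cc C fun s hs => hs.1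
  obtain ⟨X, hX, hX2⟩ := cob_inert D hDc h
  by_cases hmv : ∃ σ ∈ K.fixingSubgroup, Inert V σ ∧ ∃ T ∈ Tor act (cj π), ac (WAB A B) σ T ≠ T
  · obtain ⟨σ, hσ, hσI, hσT⟩ := hmv
    have h1 := cob_dec_ram (hDc.sub_cob hA hX) (fun s hs hi => by
      show c s - (ac (WAB A B) s X - X) = 0
      rw [hX2 s hs hi, sub_self]) ⟨σ, hσ, hσI, fun T hT hs => no_fix hA hπ' hσT hT hs⟩
    exact ⟨X, fun s hs hd => sub_eq_zero.1 (h1 s ⟨hs, hd⟩)⟩
  · push Not at hmv
    have hcj1 : vo V (cj π) = 1 := by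
      by_contra hne
      have hlt : vo V (cj π) < 1 := lt_of_le_of_ne (vo_le V _) hne
      have hVl := H55K.S.val_l hd' (fun V x => vo_le V x) V hlt
      obtain ⟨σ, h1, h2⟩ := moved_ram hA (D.dta.good V hVl) hπ' (xp_nm D).2 hlt
      obtain ⟨T, hT, hT0⟩ := H55K.exists_tor hA hπ'
      exact hT0 (h2 T hT (hmv σ (hI hVl σ h1) h1 T hT))
    obtain ⟨φ, hφK, hφD, hφF⟩ := exists_frobK K hw
    have hQ : 2 ≤ Ideal.absNorm w.asIdeal := by
      have h1 : Ideal.absNorm w.asIdeal ≠ 0 := by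
        rw [Ne, Ideal.absNorm_eq_zero_iff]
        exact w.ne_bot
      have h2 : Ideal.absNorm w.asIdeal ≠ 1 := by
        rw [Ne, Ideal.absNorm_eq_one_iff]
        exact w.isPrime.ne_top
      omega
    have hpow1 : ∀ n, vo V (cj π ^ n) = 1 := fun n => by rw [vo_pow, hcj1, one_pow]
    have hln : ∀ (n : ℕ), ∀ P ∈ Tor act (cj π ^ n), (l ^ n) • P = 0 := by
      intro n P hP
      rw [← act_nat (act := act), Nat.cast_pow]
      obtain ⟨u, hu⟩ := pow_dvd_pow_of_dvd hd' n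
      rw [hu, mul_comm, act_mul, mem_Tor.1 hP, map_zero]
    have hle : V.valuation (l : Ω) ≤ 1 := by
      rw [← vo_nat (F := F)]
      exact vo_le V _
    -- inertia over K fixes the points killed by the powers of the conjugate of π
    have hfix : ∀ s ∈ K.fixingSubgroup, Inert V s → ∀ (n : ℕ), ∀ P ∈ Tor act (cj π ^ n), ac (WAB A B) s P = P := by
      intro s hs hi n P hP
      rcases lt_or_eq_of_le hle with h1 | h1
      · exact inert_tors hA (D.dta.good V h1) (hpow1 n) hi hP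
      · obtain ⟨Kg, u, hG⟩ := D.dta.gmod V
        refine H55K.inert_fix hA D.hl D.five hπ' hd' hG h1 s hi (fun T hT => hmv s hs hi T hT) (l ^ n) ?_ P ?_
        · rw [Nat.cast_pow, map_pow, h1, one_pow]
        · rw [smul_sub, hln n P hP, sub_zero]
          have h2 : (l ^ n) • ac (WAB A B) s P = ac (WAB A B) s ((l ^ n) • P) := (map_nsmul _ _ _).symm
          rw [h2, hln n P hP, map_zero]
    have hmove : ∃ n : ℕ, ∃ T ∈ Tor act (cj π ^ n), ac (WAB A B) φ T ≠ T := by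
      rcases lt_or_eq_of_le hle with h1 | h1
      · have hG := D.dta.good V h1
        have hnk : ∀ n : ℕ, ∀ P ∈ Tor act (cj π ^ n), P ≠ 0 → ¬ Ker V P := fun n P hP h0 hK =>
          h0 (kr_tor hA hG _ (hpow1 n) hP hK)
        refine fin_move hA hπ' hQ hφF (r := 1) one_ne_zero fun n P hP P' hP' h0 h0' h2 h3 => ?_
        exact H55K.cls_diff hG (hnk n P hP h0) (hnk n P' hP' h0')
          (hnk n _ (sub_mem hP hP') (sub_ne_zero.2 h2))
          (hnk n _ (add_mem hP hP') (fun h4 => h3 (eq_neg_of_add_eq_zero_left h4)))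
      · obtain ⟨Kg, u, hG⟩ := D.dta.gmod V
        have hnk : ∀ n : ℕ, ∀ P ∈ Tor act (cj π ^ n), P ≠ 0 → P ∉ Kg := fun n P hP h0 hK =>
          h0 (hG.tors (l ^ n) (by rw [Nat.cast_pow, map_pow, h1, one_pow]) P hK (hln n P hP))
        refine fin_move hA hπ' hQ hφF (r := V.valuation u ^ 2)
          (pow_ne_zero 2 ((map_ne_zero _).2 hG.une)) fun n P hP P' hP' h0 h0' h2 h3 => ?_
        exact hG.diff P P' (hnk n P hP h0) (hnk n P' hP' h0')
          (hnk n _ (sub_mem hP hP') (sub_ne_zero.2 h2))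
          (hnk n _ (add_mem hP hP') (fun h4 => h3 (eq_neg_of_add_eq_zero_left h4)))
    have hcφ : c φ - (ac (WAB A B) φ X - X) ∈ Tor act (cj π) :=
      sub_mem (C.val φ hφK) (sub_mem (ac_mem hA φ hX) hX)
    obtain ⟨n, P, hP, hPR⟩ := phi_surj hA hπ' hmove hcφ
    refine ⟨X + P, fun s hs hd => ?_⟩
    have h0 : c s - (ac (WAB A B) s X - X) - (ac (WAB A B) s P - P) = 0 := by
      refine dec_gen (d := fun s => c s - (ac (WAB A B) s X - X) - (ac (WAB A B) s P - P)) hw (fun s hs _ t ht _ => ?_) ?_ (fun s hs hi => ?_) hφK hφD hφF ?_ hs hd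
      · show c (s * t) - (ac (WAB A B) (s * t) X - X) - (ac (WAB A B) (s * t) P - P) = _
        rw [C.mul s hs t ht, ac_mul, ac_mul, map_sub, map_sub, map_sub, map_sub]
        abel
      · obtain ⟨N, hN, hN0⟩ := C.cont
        have hf1 := lp_fin X
        have hf2 := lp_fin P
        refine ⟨N ⊔ IntermediateField.adjoin F {xc X, yc X} ⊔ IntermediateField.adjoin F {xc P, yc P},
          inferInstance, fun s hs hsN _ => ?_⟩
        rw [IntermediateField.fixingSubgroup_sup, IntermediateField.fixingSubgroup_sup, Subgroup.mem_inf,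
          Subgroup.mem_inf] at hsN
        show c s - (ac (WAB A B) s X - X) - (ac (WAB A B) s P - P) = 0
        rw [hN0 s hs hsN.1.1, lp_adj s X hsN.1.2, lp_adj s P hsN.2, sub_self, sub_self, sub_self, sub_zero]
      · show c s - (ac (WAB A B) s X - X) - (ac (WAB A B) s P - P) = 0
        rw [hX2 s hs hi, hfix s hs hi n P hP]
        abel
      · show c φ - (ac (WAB A B) φ X - X) - (ac (WAB A B) φ P - P) = 0
        rw [hPR, sub_self]
    have h1 : c s - (ac (WAB A B) s X - X) = ac (WAB A B) s P - P := sub_eq_zero.1 h0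
    rw [sub_eq_iff_eq_add.1 h1, map_add]
    abel

end H13X
end
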