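import Mathlib
import Pool.Agent.Lib.H1M.PP.D_H13R_D
import Pool.Agent.Lib.H1M.PP.D_H55K_FD
import Pool.Agent.Lib.H1M.PP.M015
import Pool.Agent.Lib.H1M.PP.M026
import Pool.Agent.Lib.H1M.PP.M043
import Pool.Agent.Lib.H1M.PP.M054
import Pool.Agent.Lib.H1M.PP.M070
import Pool.Agent.Lib.H1M.PP.M073
import Pool.Agent.Lib.H1M.PP.M077
import Pool.Agent.Lib.H1M.PP.M079
import Pool.Agent.Lib.H1M.PP.M080
import Pool.Agent.Lib.H1M.PP.M081
import Pool.Agent.Lib.H1M.PP.M086
import Pool.Agent.Lib.H1M.PP.M087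

/-! Merged copies (to shorten the build) of Lib.H13X.XG3, Lib.H13X.XS, Lib.H13R.G4, Lib.H13X.XF, Lib.H13R.G6, Lib.H55K.XF, Lib.H55K.F1, Lib.H55K.F2, Lib.H55K.F3. -/

-- from Lib.H13X.XG3
section

/-! # H13X: the local conditions of the global class over N -/

open NumberField IsDedekindDomain WeierstrassCurve

namespace H13X

open H55P (IQ embF eF LF Per IsHecke Pt ac Inert Dec Nm Coc)
open H35P (WAB Ker tt)
open H55K (Tor ak xc yc CMA Dta GV GMod cj cj_cj mul_cj cj_prime cj_dvd cj_nat Nm_cj Nm_mul Nm_nat)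
open H55K.S
open H13S (Abv)

variable {F : Type} [Field F] [NumberField F] [IQ F] {A B : F} {Om : ℂ} {Ω : Type} [Field Ω] [DecidableEq Ω]
  [Algebra F Ω] [IsAlgClosure F Ω] {j : Ω →+* ℂ} {act : 𝓞 F →+* AddMonoid.End (Pt (WAB A B) Ω)} {mo : Ideal (𝓞 F)}
  {ψ : Ideal (𝓞 F) →*₀ 𝓞 F}

variable {π : 𝓞 F} {l : ℕ} {e : Pt (WAB A B) Ω → Pt (WAB A B) Ω → Ω} {N L : IntermediateField F Ω} [NumberField N]
  {w : HeightOneSpectrum (𝓞 N)} {c : (Ω ≃ₐ[F] Ω) → Pt (WAB A B) Ω} {y : Pt (WAB A B) Ω → Ω} {V : ValuationSubring Ω}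

omit [IQ F] [DecidableEq Ω] in
/-- V is a nontrivial valuation ring: it lies above a prime of K. -/
theorem xg3_below (K : IntermediateField F Ω) [NumberField K] (hV : V ≠ ⊤) : ∃ w : HeightOneSpectrum (𝓞 K), Abv K V w := by
  have hac : IsAlgClosed Ω := IsAlgClosure.isAlgClosed F
  have halg : Algebra.IsAlgebraic F Ω := IsAlgClosure.isAlgebraic
  have hch : CharZero Ω := charZero_of_injective_algebraMap (algebraMap F Ω).injective
  by_cases hLV : ∃ x : K, (x : Ω) ∉ V
  · exact H13S.exists_below K V hLV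
  · exfalso
    push Not at hLV
    have htop : ∀ x : Ω, x ∈ V := H55P.s13_top K V (by
      intro x hx
      have hx0 : ((x : K) : Ω) ≠ 0 := by
        intro h
        apply hx
        have h1 : (x : K) = 0 := by exact_mod_cast h
        exact RingOfIntegers.coe_injective (h1.trans (map_zero _).symm)
      have h1 := (V.valuation_le_one_iff _).2 (hLV (x : K))
      have h2 := (V.valuation_le_one_iff _).2 (hLV ((x : K)⁻¹))
      have e : (((x : K)⁻¹ : K) : Ω) = ((x : K) : Ω)⁻¹ := rfl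
      rw [e, map_inv₀, inv_le_one₀ (zero_lt_iff.2 ((map_ne_zero _).2 hx0))] at h2
      exact le_antisymm h1 h2)
    exact hV (top_unique fun x _ => htop x)

/-- The local condition above l. -/
theorem Gl.above (G : Gl A B Om j act mo ψ π l e N L w c y) (he : Pairing A B act π l e) (hV : V.valuation (l : Ω) < 1) :
    ∃ P : Pt (WAB A B) Ω, ∀ s, DecN N V s → c s = ac (WAB A B) s P - P := by
  have D := G.D
  have hl5 := D.five
  have hdc : Dc act π N V c := dc_of_cc G.cc fun s hs => hs.1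
  have hks : KS act π N V e c y := ks_of_kum G.tb (fun s hs => hs.1) G.kum
  have hVt : V ≠ ⊤ := by
    rintro rfl
    have h1 : (⊤ : ValuationSubring Ω).valuation (l : Ω) ≠ 0 := by
      rw [Ne, map_eq_zero]
      have hchar : CharZero Ω := charZero_of_injective_algebraMap (algebraMap F Ω).injective
      exact_mod_cast D.hl.ne_zero
    have h2 : (⊤ : ValuationSubring Ω).valuation ((l : Ω)⁻¹) ≤ 1 :=
      ((⊤ : ValuationSubring Ω).valuation_le_one_iff _).2 (ValuationSubring.mem_top _)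
    rw [map_inv₀, inv_le_one₀ (zero_lt_iff.2 h1)] at h2
    exact absurd hV (not_lt.2 h2)
  have hFx : ∀ x ∈ L, Hx act π N V x := by
    intro x hx s hs
    exact (IntermediateField.mem_fixingSubgroup_iff L s).1 ((G.tb.fix s).2 ⟨hs.1.1, hs.2⟩) x hx
  have hlvo : vo V (l : 𝓞 F) < 1 := by
    rw [vo_nat]
    exact hV
  by_cases hπ : vo V π < 1
  · obtain ⟨-, T₀, hT₀, -, hT₀a⟩ := gi_gen D.cma π D.pr
    have hT₀0 : T₀ ≠ 0 := by
      rintro rfl
      have h1 := (hT₀a 1).1 (map_zero _)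
      exact D.pr.not_isUnit (isUnit_of_dvd_one h1)
    have hlev : ∀ T ∈ Tor act π, Lv act π l N V (V.valuation (tt T₀) ^ 2) (y T ^ l) := by
      intro T hT
      obtain ⟨z, hz, hz0, hz1⟩ := G.lev V hπ T hT T₀ hT₀ hT₀0
      exact ⟨z, hFx z hz, hz0, hz1⟩
    rcases dichotomy D.hl D.dta.unr D.pr D.dvd with ⟨hin, hq, -⟩ | ⟨hnd, -, hq, -⟩
    · have R : RV A B Om j act mo ψ π l N V (tt T₀) (l + 1) := ⟨⟨D, hπ, ⟨T₀, hT₀, hT₀0, rfl⟩, by
        rw [hq]
        obtain ⟨k, rfl⟩ : ∃ k, l = k + 1 := ⟨l - 1, by omega⟩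
        rw [Nat.add_sub_cancel]
        have : (k + 1) ^ 2 = (k + 1 + 1) * k + 1 := by ring
        omega⟩, G.nb⟩
      exact loc_inert R hq he hdc hks hlev
    · have R : RV A B Om j act mo ψ π l N V (tt T₀) 1 := ⟨⟨D, hπ, ⟨T₀, hT₀, hT₀0, rfl⟩, by rw [hq, one_mul]⟩, G.nb⟩
      have hlev2 := R.levels (sys_of D he hdc hks) (Or.inl ⟨hq, rfl⟩) hlev
      have h0 := top_zero R he hdc hks (by rw [mul_one]; exact hlev2)
      obtain ⟨v, hv⟩ := xg3_below (F := F) N hVt
      obtain ⟨P, hP⟩ := loc_zero D G.cc hv (fun hVl s hs => G.nb.inert V hVl s hs) fun s _ hs => h0 s hs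
      exact ⟨P, fun s hs => hP s hs.1 hs.2⟩
  · have hcj : vo V (cj π) < 1 := by
      rcases dichotomy D.hl D.dta.unr D.pr D.dvd with ⟨-, -, h3⟩ | ⟨-, -, -, h3⟩
      · exfalso
        apply hπ
        rw [← vo_assoc V h3 (fun x => vo_le V x)]
        exact hlvo
      · rw [← h3, vo_mul] at hlvo
        have h1 : vo V π = 1 := le_antisymm (vo_le V π) (not_lt.1 hπ)
        rwa [h1, one_mul] at hlvo
    have hnd : ¬ π ∣ cj π := by
      rintro ⟨x, hx⟩
      have h1 : vo V π = 1 := le_antisymm (vo_le V π) (not_lt.1 hπ)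
      rcases dichotomy D.hl D.dta.unr D.pr D.dvd with ⟨h3, -, -⟩ | ⟨h3, -⟩
      · rw [vo_assoc V h3 (fun x => vo_le V x), h1] at hcj
        exact lt_irrefl _ hcj
      · exact h3 ⟨x, hx⟩
    obtain ⟨φ, q, n, U⟩ := exists_UV D G.nb hnd hcj
    refine loc_conj U he hdc hks fun T hT => ?_
    have hnw : ¬ Abv N V w := fun h => by
      rw [G.val_w h] at hV
      exact lt_irrefl _ hV
    obtain ⟨x, hx, hx0, hxv⟩ := G.out V hnw T hT
    obtain ⟨k, hk⟩ := U.values (hFx x hx) hx0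
    exact ⟨k, hxv.trans hk⟩

/-- The local conditions over N'. -/
theorem Gl.local (G : Gl A B Om j act mo ψ π l e N L w c y) (he : Pairing A B act π l e) {N' : IntermediateField F Ω}
    [NumberField N'] (hNN : N ≤ N')
    (hK : ∀ V : ValuationSubring Ω, Abv N V w → ∀ a ∈ N, a ≠ 0 → ∃ x ∈ N', V.valuation x ^ l = V.valuation a)
    (hV : V ≠ ⊤) : ∃ P : Pt (WAB A B) Ω, ∀ s ∈ N'.fixingSubgroup, Dec V s → c s = ac (WAB A B) s P - P := by
  have hfix : ∀ s ∈ N'.fixingSubgroup, s ∈ N.fixingSubgroup := by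
    intro s hs
    rw [IntermediateField.mem_fixingSubgroup_iff] at hs ⊢
    exact fun x hx => hs x (hNN hx)
  by_cases hlV : V.valuation (l : Ω) < 1
  · obtain ⟨P, hP⟩ := G.above he hlV
    exact ⟨P, fun s hs hsD => hP s ⟨hfix s hs, hsD⟩⟩
  · have hlV1 : V.valuation (l : Ω) = 1 := by
      apply le_antisymm _ (not_lt.1 hlV)
      have h1 := vo_le V (l : 𝓞 F)
      rwa [vo_nat] at h1
    by_cases hw : Abv N V w
    · have C' : Cc act π N' c := ⟨fun s hs t ht => G.cc.mul s (hfix s hs) t (hfix t ht), by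
        obtain ⟨M, hM, h1⟩ := G.cc.cont
        exact ⟨M, hM, fun s hs => h1 s (hfix s hs)⟩, fun s hs => G.cc.val s (hfix s hs)⟩
      obtain ⟨v, hv⟩ := xg3_below (F := F) N' hV
      exact loc_zero G.D C' hv (fun h => absurd h hlV) fun s hs hj => G.kill he hw hNN (hK V hw) hs hj.1
    · obtain ⟨v, hv⟩ := xg3_below (F := F) N hV
      obtain ⟨P, hP⟩ := loc_zero G.D G.cc hv (fun h => absurd h hlV) fun s hs hj =>
        G.inert he hlV1 hw hj.1 ((G.tb.fix s).2 ⟨hs, hj.2.1⟩)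
      exact ⟨P, fun s hs hsD => hP s (hfix s hs) hsD⟩

end H13X
end

-- from Lib.H13X.XS
section

/-! # H13X: one step of degree l, and the chain -/

open NumberField IsDedekindDomain WeierstrassCurve

namespace H13X

open H55P (IQ embF eF LF Per IsHecke Pt ac Inert Dec Nm Coc PExt UnrP Ram RamF)
open H35P (WAB Ker tt)
open H55K (Tor ak xc yc CMA Dta GV GMod cj cj_cj mul_cj cj_prime cj_dvd cj_nat Nm_cj Nm_mul Nm_nat)
open H55K (Abw exists_abw)
open H55K.S
open H55R (Pl)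
open H13S (Abv)
open H13Z (SelNon)

variable {F : Type} [Field F] [NumberField F] [IQ F] {A B : F} {Om : ℂ} {Ω : Type} [Field Ω] [DecidableEq Ω]
  [Algebra F Ω] [IsAlgClosure F Ω] {j : Ω →+* ℂ} {act : 𝓞 F →+* AddMonoid.End (Pt (WAB A B) Ω)} {mo : Ideal (𝓞 F)}
  {ψ : Ideal (𝓞 F) →*₀ 𝓞 F} {π : 𝓞 F} {l : ℕ}

/-- Inertia above a prime element β above l moves all points killed by β. -/
theorem xs_moved (D : Dat A B Om j act mo ψ π l) {K : IntermediateField F Ω} (hK : Nb l K) {β : 𝓞 F} (hβ : Prime β)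
    (hd : β ∣ (l : 𝓞 F)) {T : Pt (WAB A B) Ω} (hT : T ∈ Tor act β)
    (h : ∀ s ∈ K.fixingSubgroup, ac (WAB A B) s T = T) : T = 0 := by
  have hp : (Ideal.span {β}).IsPrime := (Ideal.span_singleton_prime hβ.ne_zero).2 hβ
  let v : Pl F := ⟨Ideal.span {β}, hp, by rw [Ne, Ideal.span_singleton_eq_bot]; exact hβ.ne_zero⟩
  obtain ⟨V, hV⟩ := exists_abw Ω v
  have hVβ : vo V β < 1 := by
    have h1 := (hV.lt (β : F)).2 ((v.valuation_lt_one_iff_mem β).2 (Ideal.mem_span_singleton_self β))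
    exact h1
  have hVl : V.valuation (l : Ω) < 1 := by
    obtain ⟨c, hc⟩ := hd
    have h1 : vo V (l : 𝓞 F) = vo V β * vo V c := by rw [hc, vo_mul]
    rw [← vo_nat (F := F), h1]
    exact lt_of_le_of_lt (mul_le_of_le_one_right' (vo_le V c)) hVβ
  have hN := H55K.k10_arith D.hl D.five hβ hd
  obtain ⟨s, hs, hs'⟩ := moved_ram D.cma (D.dta.good V hVl) hβ (by omega) hVβ
  exact hs' T hT (h s (hK.inert V hVl s hs))

/-- Points killed by l and fixed by the group of K are zero. -/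
theorem no_tors (D : Dat A B Om j act mo ψ π l) {K : IntermediateField F Ω} (hK : Nb l K) {R : Pt (WAB A B) Ω}
    (hR : l • R = 0) (h : ∀ s ∈ K.fixingSubgroup, ac (WAB A B) s R = R) : R = 0 := by
  have hlR : act (l : 𝓞 F) R = 0 := by rw [act_nat (act := act), hR]
  rcases dichotomy D.hl D.dta.unr D.pr D.dvd with ⟨-, -, h3⟩ | ⟨-, -, -, hll⟩
  · refine xs_moved D hK D.pr D.dvd ?_ h
    rw [← tor_assoc h3]
    exact hlR
  · have hd' : cj π ∣ (l : 𝓞 F) := by rw [cj_dvd, cj_nat]; exact D.dvd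
    have h1 : act (cj π) R = 0 := by
      refine xs_moved D hK D.pr D.dvd ?_ fun s hs => ?_
      · rw [mem_Tor, ← act_mul, hll]
        exact hlR
      · rw [ac_act D.cma, h s hs]
    exact xs_moved D hK (cj_prime D.pr) hd' h1 h

/-- One step. -/
theorem sel_step (D : Dat A B Om j act mo ψ π l) {N N' L₀ : IntermediateField F Ω} [NumberField N] [NumberField N']
    [NumberField L₀] (hL : PExt l ⊥ L₀) (hU : UnrP l L₀) (hNN : N ≤ N') (hNL : N' ≤ L₀)
    (hn : ∀ s ∈ N.fixingSubgroup, ∀ x ∈ N', s x ∈ N')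
    (hd : Module.finrank F N' = Module.finrank F N * l) {w : HeightOneSpectrum (𝓞 N)}
    (hlw : (l : 𝓞 N) ∉ w.asIdeal) (hr : Ram N N' w.asIdeal)
    (hfx : ∀ V : ValuationSubring Ω, Abv N V w → ∀ s, DecN N V s → ∀ T ∈ Tor act π, ac (WAB A B) s T = T) :
    SelNon (WAB A B) l N' := by
  have hL₀f : FiniteDimensional F L₀ := hL.fin
  have hN'f : FiniteDimensional F N' := H55P.finDim_of_le hNL
  have hNf : FiniteDimensional F N := H55P.finDim_of_le (hNN.trans hNL)
  have hN : Nb l N := nb_of D.hl hL (hNN.trans hNL) hU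
  have hN' : Nb l N' := nb_of D.hl hL hNL hU
  have hUN : UnrP l N := by
    letI : Algebra N L₀ := (IntermediateField.inclusion (hNN.trans hNL)).toRingHom.toAlgebra
    exact H55P.UnrP.down N L₀ l D.hl hU
  obtain ⟨L, hLT⟩ := exists_TB D.cma π D.pr N
  have hLf : FiniteDimensional F L := hLT.fin
  have hLn : NumberField L := NumberField.of_module_finite F L
  obtain ⟨m, hm⟩ := exists_GN D hLT hUN hlw hfx
  obtain ⟨e, he⟩ := exists_pairing π l D.dta D.pr D.dvd
  obtain ⟨c, y, G⟩ := exists_gl D he hN hLT hlw hfx hm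
  have hmono : ∀ s ∈ N'.fixingSubgroup, s ∈ N.fixingSubgroup := fun s hs =>
    IntermediateField.fixingSubgroup_antitone hNN hs
  refine ⟨c, ⟨fun s hs t ht => G.cc.mul s (hmono s hs) t (hmono t ht), ?_⟩, fun s hs =>
    lcb_l D (G.cc.val s (hmono s hs)), fun V hV => ?_, ?_⟩
  · obtain ⟨M, hM, h2⟩ := G.cc.cont
    exact ⟨M, hM, fun s hs hsM => h2 s (hmono s hs) hsM⟩
  · exact G.local he hNN (fun V hV a ha h0 => H13Y.ram_step D.hl hNN hn hd hr hV ha h0) hV
  · rintro ⟨T, hT, h⟩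
    refine G.not_cob he ⟨T, hT, ?_⟩
    exact H13Y.cob_down (WAB A B) l hNN hn (fun R hR hfix => no_tors D hN' hR hfix)
      G.cc.mul (fun s hs => lcb_l D (G.cc.val s hs)) hT h

omit [IsAlgClosure F Ω] [IQ F] in
/-- v₀ unramified in N and ramified in K: some prime w of N above v₀ is ramified in K. -/
theorem ram_up {N K : IntermediateField F Ω}
    [NumberField N] [NumberField K] (hNK : N ≤ K) (v₀ : HeightOneSpectrum (𝓞 F)) (hK : RamF K v₀.asIdeal)
    (hN : ¬ RamF N v₀.asIdeal) : ∃ w : HeightOneSpectrum (𝓞 N),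
      w.asIdeal.under (𝓞 F) = v₀.asIdeal ∧ Ram N K w.asIdeal := by
  obtain ⟨W, hWp, hW⟩ := hK
  letI : Algebra N K := (IntermediateField.inclusion hNK).toRingHom.toAlgebra
  have t1 : IsScalarTower F N K := IsScalarTower.of_algebraMap_eq fun x => rfl
  rw [Ideal.map_le_iff_le_comap] at hW
  obtain ⟨w, hw1, hw2, h | h⟩ := H55P.i3_tower (M := F) (N := N) (K := K) v₀ W fun x hx => hW hx
  · exact absurd ⟨w.asIdeal, w.isPrime, by
      rw [Ideal.map_le_iff_le_comap]
      exact fun x hx => h x hx⟩ hN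
  · refine ⟨w, hw2, W, hWp, fun x y hx hxy => ?_⟩
    have hl : W.LiesOver w.asIdeal := ⟨hw1.symm⟩
    have h2 := H55P.s13_le_sq w.asIdeal w.ne_bot W h x hx
    have h3 : y = algebraMap (𝓞 N) (𝓞 K) x := by
      apply RingOfIntegers.ext
      apply Subtype.ext
      exact hxy
    rw [h3]
    exact h2

/-- THEOREM X: v₀ is not above l and ramified in K, and the decomposition group of V₀ above v₀ fixes the points killed by π. -/
theorem x_core (D : Dat A B Om j act mo ψ π l) {L₀ : IntermediateField F Ω} [NumberField L₀] (hL : PExt l ⊥ L₀)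
    (hU : UnrP l L₀) (K : IntermediateField F Ω) [NumberField K] (hKL : K ≤ L₀) {v₀ : HeightOneSpectrum (𝓞 F)}
    (hr : RamF K v₀.asIdeal) (hl : (l : 𝓞 F) ∉ v₀.asIdeal) {V₀ : ValuationSubring Ω} (hV₀ : Abw V₀ v₀)
    (hfx : ∀ s, Dec V₀ s → ∀ T ∈ Tor act π, ac (WAB A B) s T = T) : SelNon (WAB A B) l K := by
  have hL₀f : FiniteDimensional F L₀ := hL.fin
  have hcl0 : IsAlgClosed Ω := IsAlgClosure.isAlgClosed F
  have hal0 : Algebra.IsAlgebraic F Ω := IsAlgClosure.isAlgebraic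
  have hc0 : CharZero Ω := charZero_of_injective_algebraMap (algebraMap F Ω).injective
  have hbn : NumberField (⊥ : IntermediateField F Ω) := NumberField.of_module_finite F _
  obtain ⟨n, hn⟩ : ∃ n, Module.finrank F K = n := ⟨_, rfl⟩
  induction n using Nat.strong_induction_on generalizing K with
  | _ n ih =>
    have hKf : FiniteDimensional F K := H55P.finDim_of_le hKL
    have hne : K ≠ ⊥ := by
      rintro rfl
      obtain ⟨v, -, h2, -⟩ := H55P.bot_conv' (⟨0, 0, 0, 0, 0⟩ : WeierstrassCurve (𝓞 F)) (⊥ : IntermediateField F Ω) v₀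
      exact H55P.ram_self _ v (h2 hr)
    obtain ⟨N, -, hNK, hd, hnorm⟩ := H55P.chain_step l D.hl ⊥ K L₀ hL bot_le hKL hne
    have hNf : FiniteDimensional F N := H55P.finDim_of_le hNK
    have hNn : NumberField N := NumberField.of_module_finite F N
    have hlt : Module.finrank F N < n := by
      have h0 : 0 < Module.finrank F N := Module.finrank_pos
      have h2 := D.hl.two_le
      rw [← hn, hd]
      nlinarith
    have hKN : Nb l K := nb_of D.hl hL hKL hU
    by_cases hrN : RamF N v₀.asIdeal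
    · exact H13Y.non_up (WAB A B) l hNK hnorm (fun R hR hfix => no_tors D hKN hR hfix)
        (ih _ hlt N (hNK.trans hKL) hrN rfl)
    · obtain ⟨w, hw, hram⟩ := ram_up hNK v₀ hr hrN
      have hlw : (l : 𝓞 N) ∉ w.asIdeal := by
        intro h
        apply hl
        rw [← hw, Ideal.mem_under, map_natCast]
        exact h
      refine sel_step D hL hU hNK hKL hnorm hd hlw hram fun V hV s hs T hT => ?_
      have hVv : Abw V v₀ := by
        have h1 : Abw V w := hV
        exact h1.below (K := F) (HeightOneSpectrum.ext hw)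
      obtain ⟨σ, hσ⟩ := trans_F hV₀ hVv
      have hD : Dec V₀ (σ⁻¹ * s * σ) := by
        intro x
        have h1 := hσ (σ⁻¹ (s (σ x)))
        have h2 : σ (σ⁻¹ (s (σ x))) = s (σ x) := σ.apply_symm_apply _
        rw [h2] at h1
        exact h1.symm.trans ((hs.2 (σ x)).trans (hσ x))
      have h3 := hfx _ hD (ac (WAB A B) σ⁻¹ T) (ac_mem D.cma σ⁻¹ hT)
      rw [← ac_mul, show σ⁻¹ * s * σ * σ⁻¹ = σ⁻¹ * s by group, ac_mul] at h3
      have h4 := congrArg (ac (WAB A B) σ) h3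
      have h5 : ∀ P, ac (WAB A B) σ (ac (WAB A B) σ⁻¹ P) = P := fun P => by
        rw [← ac_mul, mul_inv_cancel, ac_one]
      rwa [h5, h5] at h4

end H13X
end

-- from Lib.H13R.G4
section

/-! # H13R: one step of degree l, and the chain, over M -/

open NumberField IsDedekindDomain WeierstrassCurve

namespace H13R

open H55P (IQ embF eF LF Per IsHecke Pt ac Inert Dec Nm Coc PExt UnrP Ram RamF)
open H35P (WAB Ker tt)
open H55K (Tor ak xc yc CMA Dta GV GMod cj cj_cj mul_cj cj_prime cj_dvd cj_nat Nm_cj Nm_mul Nm_nat)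
open H55K (Abw exists_abw)
open H55K.S
open H55R (Pl)
open H13S (Abv)
open H13Z (SelNon)
open H13X

section step

variable {F : Type} [Field F] [NumberField F] [IQ F] {A B : F} {Om : ℂ} {Ω : Type} [Field Ω] [DecidableEq Ω]
  [Algebra F Ω] [IsAlgClosure F Ω] {j : Ω →+* ℂ} {act : 𝓞 F →+* AddMonoid.End (Pt (WAB A B) Ω)} {mo : Ideal (𝓞 F)}
  {ψ : Ideal (𝓞 F) →*₀ 𝓞 F} {π : 𝓞 F} {l : ℕ}

/-- One step. -/
theorem sel_stepR (D : Dat A B Om j act mo ψ π l) {N N' : IntermediateField F Ω} [NumberField N] [NumberField N']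
    (hN : Nb l N) (hN' : Nb l N') (hUN : UnrP l N) (hNN : N ≤ N')
    (hn : ∀ s ∈ N.fixingSubgroup, ∀ x ∈ N', s x ∈ N')
    (hd : Module.finrank F N' = Module.finrank F N * l) {w : HeightOneSpectrum (𝓞 N)}
    (hlw : (l : 𝓞 N) ∉ w.asIdeal) (hr : Ram N N' w.asIdeal)
    (hfx : ∀ V : ValuationSubring Ω, Abv N V w → ∀ s, DecN N V s → ∀ T ∈ Tor act π, ac (WAB A B) s T = T) :
    SelNon (WAB A B) l N' := by
  have hN'f : FiniteDimensional F N' := hN'.fin
  have hNf : FiniteDimensional F N := hN.fin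
  obtain ⟨L, hLT⟩ := exists_TB D.cma π D.pr N
  have hLf : FiniteDimensional F L := hLT.fin
  have hLn : NumberField L := NumberField.of_module_finite F L
  obtain ⟨m, hm⟩ := exists_GN D hLT hUN hlw hfx
  obtain ⟨e, he⟩ := exists_pairing π l D.dta D.pr D.dvd
  obtain ⟨c, y, G⟩ := exists_gl D he hN hLT hlw hfx hm
  have hmono : ∀ s ∈ N'.fixingSubgroup, s ∈ N.fixingSubgroup := fun s hs =>
    IntermediateField.fixingSubgroup_antitone hNN hs
  refine ⟨c, ⟨fun s hs t ht => G.cc.mul s (hmono s hs) t (hmono t ht), ?_⟩, fun s hs =>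
    lcb_l D (G.cc.val s (hmono s hs)), fun V hV => ?_, ?_⟩
  · obtain ⟨M, hM, h2⟩ := G.cc.cont
    exact ⟨M, hM, fun s hs hsM => h2 s (hmono s hs) hsM⟩
  · exact G.local he hNN (fun V hV a ha h0 => H13Y.ram_step D.hl hNN hn hd hr hV ha h0) hV
  · rintro ⟨T, hT, h⟩
    refine G.not_cob he ⟨T, hT, ?_⟩
    exact H13Y.cob_down (WAB A B) l hNN hn (fun R hR hfix => no_tors D hN' hR hfix)
      G.cc.mul (fun s hs => lcb_l D (G.cc.val s hs)) hT h

omit [IsAlgClosure F Ω] [IQ F] in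
/-- v unramified in N and ramified in K: some prime w of N above v is ramified in K. -/
theorem ram_upR {M N K : IntermediateField F Ω}
    [NumberField M] [NumberField N] [NumberField K] (hMN : M ≤ N) (hNK : N ≤ K) (v : HeightOneSpectrum (𝓞 M))
    (hK : Ram M K v.asIdeal) (hN : ¬ Ram M N v.asIdeal) : ∃ w : HeightOneSpectrum (𝓞 N),
      (∀ (x : 𝓞 M) (y : 𝓞 N), ((y : N) : Ω) = ((x : M) : Ω) → (x ∈ v.asIdeal ↔ y ∈ w.asIdeal)) ∧ Ram N K w.asIdeal := by
  obtain ⟨W, hWp, hW⟩ := hK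
  letI : Algebra M N := (IntermediateField.inclusion hMN).toRingHom.toAlgebra
  letI : Algebra N K := (IntermediateField.inclusion hNK).toRingHom.toAlgebra
  letI : Algebra M K := (IntermediateField.inclusion (hMN.trans hNK)).toRingHom.toAlgebra
  have t1 : IsScalarTower M N K := IsScalarTower.of_algebraMap_eq fun x => rfl
  obtain ⟨w, hw1, hw2, h | h⟩ := H55P.i3_tower (M := M) (N := N) (K := K) v W fun x hx => hW x _ hx rfl
  · refine absurd ⟨w.asIdeal, w.isPrime, fun x y hx hxy => ?_⟩ hN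
    have h3 : y = algebraMap (𝓞 M) (𝓞 N) x := by
      apply RingOfIntegers.ext
      apply Subtype.ext
      exact hxy
    rw [h3]
    exact h x hx
  · refine ⟨w, fun x y hxy => ?_, W, hWp, fun x y hx hxy => ?_⟩
    · have h3 : y = algebraMap (𝓞 M) (𝓞 N) x := by
        apply RingOfIntegers.ext
        apply Subtype.ext
        exact hxy
      rw [h3, ← hw2]
      rfl
    · have hl : W.LiesOver w.asIdeal := ⟨hw1.symm⟩
      have h2 := H55P.s13_le_sq w.asIdeal w.ne_bot W h x hx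
      have h3 : y = algebraMap (𝓞 N) (𝓞 K) x := by
        apply RingOfIntegers.ext
        apply Subtype.ext
        exact hxy
      rw [h3]
      exact h2

end step

section chain

variable {F : Type} [Field F] [NumberField F] [IQ F] {A B : F} {Om : ℂ} [DecidableEq (AlgebraicClosure F)]
  {j : AlgebraicClosure F →+* ℂ} {act : 𝓞 F →+* AddMonoid.End (Pt (WAB A B) (AlgebraicClosure F))} {mo : Ideal (𝓞 F)}
  {ψ : Ideal (𝓞 F) →*₀ 𝓞 F} {π : 𝓞 F} {l : ℕ}

/-- The prime of M below. -/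
theorem abv_downR {M N : IntermediateField F (AlgebraicClosure F)} [NumberField M] [NumberField N] (hMN : M ≤ N)
    {V : ValuationSubring (AlgebraicClosure F)} {v : HeightOneSpectrum (𝓞 M)} {w : HeightOneSpectrum (𝓞 N)}
    (h : ∀ (x : 𝓞 M) (y : 𝓞 N), ((y : N) : AlgebraicClosure F) = ((x : M) : AlgebraicClosure F) → (x ∈ v.asIdeal ↔ y ∈ w.asIdeal))
    (hV : Abv N V w) : Abv M V v := by
  let _ : Algebra M N := (IntermediateField.inclusion hMN).toRingHom.toAlgebra
  have t : IsScalarTower M N (AlgebraicClosure F) := IsScalarTower.of_algebraMap_eq fun x => rfl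
  have h1 : Abw V w := hV
  exact h1.below (K := M) (v := v) (HeightOneSpectrum.ext (by
    ext x
    exact (h x (algebraMap (𝓞 M) (𝓞 N) x) rfl).symm))

/-- THEOREM X over M. -/
theorem x_coreR (D : Dat A B Om j act mo ψ π l) (hlF : UnrP l F) {M L₀ : IntermediateField F (AlgebraicClosure F)}
    [NumberField M] [NumberField L₀] (hL : PExt l M L₀)
    (hU : UnrP l L₀) (K : IntermediateField F (AlgebraicClosure F)) [NumberField K] (hMK : M ≤ K) (hKL : K ≤ L₀)
    {v : HeightOneSpectrum (𝓞 M)}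
    (hr : Ram M K v.asIdeal) (hl : (l : 𝓞 M) ∉ v.asIdeal) {V₀ : ValuationSubring (AlgebraicClosure F)} (hV₀ : Abv M V₀ v)
    (hfx : ∀ s, DecN M V₀ s → ∀ T ∈ Tor act π, ac (WAB A B) s T = T) : SelNon (WAB A B) l K := by
  have hL₀f : FiniteDimensional F L₀ := hL.fin
  have hdown : ∀ {N : IntermediateField F (AlgebraicClosure F)} [NumberField N], N ≤ L₀ → UnrP l N := by
    intro N _ hNL
    letI : Algebra N L₀ := (IntermediateField.inclusion hNL).toRingHom.toAlgebra
    exact H55P.UnrP.down N L₀ l D.hl hU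
  obtain ⟨n, hn⟩ : ∃ n, Module.finrank F K = n := ⟨_, rfl⟩
  induction n using Nat.strong_induction_on generalizing K with
  | _ n ih =>
    have hKf : FiniteDimensional F K := H55P.finDim_of_le hKL
    have hne : K ≠ M := by
      rintro rfl
      exact H55P.ram_self _ v hr
    obtain ⟨N, hMN, hNK, hd, hnorm⟩ := H55P.chain_step l D.hl M K L₀ hL hMK hKL hne
    have hNf : FiniteDimensional F N := H55P.finDim_of_le hNK
    have hNn : NumberField N := NumberField.of_module_finite F N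
    have hlt : Module.finrank F N < n := by
      have h0 : 0 < Module.finrank F N := Module.finrank_pos
      have h2 := D.hl.two_le
      rw [← hn, hd]
      nlinarith
    have hUK : UnrP l K := hdown hKL
    have hUN : UnrP l N := hdown (hNK.trans hKL)
    have hKN : Nb l K := nb_ofR D.hl hlF hUK
    have hNN : Nb l N := nb_ofR D.hl hlF hUN
    by_cases hrN : Ram M N v.asIdeal
    · exact H13Y.non_up (WAB A B) l hNK hnorm (fun R hR hfix => no_tors D hKN hR hfix)
        (ih _ hlt N hMN (hNK.trans hKL) hrN rfl)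
    · obtain ⟨w, hw, hram⟩ := ram_upR hMN hNK v hr hrN
      have hlw : (l : 𝓞 N) ∉ w.asIdeal := by
        intro h
        exact hl ((hw (l : 𝓞 M) (l : 𝓞 N) (by simp)).2 h)
      refine sel_stepR D hNN hKN hUN hNK hnorm hd hlw hram fun V hV s hs T hT => ?_
      have hVv : Abv M V v := abv_downR hMN hw hV
      obtain ⟨σ, hσM, hσ⟩ := trans_V M hV₀ hVv
      have hD : DecN M V₀ (σ⁻¹ * s * σ) := by
        refine ⟨mul_mem (mul_mem (inv_mem hσM) (IntermediateField.fixingSubgroup_antitone hMN hs.1)) hσM, fun x => ?_⟩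
        have h1 := hσ (σ⁻¹ (s (σ x)))
        have h2 : σ (σ⁻¹ (s (σ x))) = s (σ x) := σ.apply_symm_apply _
        rw [h2] at h1
        exact h1.symm.trans ((hs.2 (σ x)).trans (hσ x))
      have h3 := hfx _ hD (ac (WAB A B) σ⁻¹ T) (ac_mem D.cma σ⁻¹ hT)
      rw [← ac_mul, show σ⁻¹ * s * σ * σ⁻¹ = σ⁻¹ * s by group, ac_mul] at h3
      have h4 := congrArg (ac (WAB A B) σ) h3
      have h5 : ∀ P, ac (WAB A B) σ (ac (WAB A B) σ⁻¹ P) = P := fun P => by
        rw [← ac_mul, mul_inv_cancel, ac_one]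
      rwa [h5, h5] at h4

end chain

end H13R
end

-- from Lib.H13X.XF
section

/-! # H13X: a bad ramified prime gives a nonzero Selmer class, for all curves with complex multiplication -/

open NumberField IsDedekindDomain WeierstrassCurve

namespace H13X

open H55P (IQ embF eF LF Per IsHecke Pt ac Inert Dec Nm Coc PExt UnrP Ram RamF pt8_norm)
open H35P (WAB Ker tt)
open H55K (Tor ak xc yc CMA Dta GV GMod cj cj_cj mul_cj cj_prime cj_dvd cj_nat Nm_cj Nm_mul Nm_nat)
open H55K (Abw exists_abw)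
open H55K.S
open H55R (Pl)
open H13S (Abv)
open H13Z (SelNon)
open H55K.TQ (BaseH PrimeH NoAn)

section away

variable {F : Type} [Field F] [NumberField F] [IQ F] {Ω : Type} [Field Ω] [DecidableEq Ω] [Algebra F Ω]
  [IsAlgClosure F Ω]

omit [IQ F] [DecidableEq Ω] [IsAlgClosure F Ω] in
theorem xf_small {p q n : ℕ} (hp : p.Prime) (h5 : 5 ≤ p) (hq : q = 2 ∨ q = 3) (hn : n ≠ 1) (hd : n ∣ q ^ 2) (h : p ∣ n - 1) :
    False := by
  rcases hq with rfl | rfl
  · obtain ⟨k, hk, rfl⟩ := (Nat.dvd_prime_pow Nat.prime_two).1 hd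
    have hk0 : k ≠ 0 := by rintro rfl; exact hn rfl
    have : k = 1 ∨ k = 2 := by omega
    rcases this with rfl | rfl
    · have := Nat.le_of_dvd (by norm_num) h
      omega
    · have := Nat.le_of_dvd (by norm_num) h
      omega
  · obtain ⟨k, hk, rfl⟩ := (Nat.dvd_prime_pow Nat.prime_three).1 hd
    have hk0 : k ≠ 0 := by rintro rfl; exact hn rfl
    have : k = 1 ∨ k = 2 := by omega
    rcases this with rfl | rfl
    · have := Nat.le_of_dvd (by norm_num) h
      omega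
    · have h8 : p ∣ 2 ^ 3 := by simpa using h
      have := (Nat.prime_dvd_prime_iff_eq hp Nat.prime_two).1 (hp.dvd_of_dvd_pow h8)
      omega

/-- A prime which is ramified in a subfield K of a p-extension is prime to 6 and to p if p is unramified. -/
theorem xf_away {p : ℕ} (hp : p.Prime) (h5 : 5 ≤ p) {L K : IntermediateField F Ω} [NumberField L] [NumberField K]
    (hL : PExt p ⊥ L) (hU : UnrP p L) (hKL : K ≤ L) (v₀ : HeightOneSpectrum (𝓞 F)) (hr : RamF K v₀.asIdeal) :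
    (2 : 𝓞 F) ∉ v₀.asIdeal ∧ (3 : 𝓞 F) ∉ v₀.asIdeal ∧ (p : 𝓞 F) ∉ v₀.asIdeal := by
  have hcl0 : IsAlgClosed Ω := IsAlgClosure.isAlgClosed F
  have hal0 : Algebra.IsAlgebraic F Ω := IsAlgClosure.isAlgebraic
  have hc0 : CharZero Ω := charZero_of_injective_algebraMap (algebraMap F Ω).injective
  have hbn : NumberField (⊥ : IntermediateField F Ω) := NumberField.of_module_finite F _
  have hUK : UnrP p K := by
    let _ : Algebra K L := (IntermediateField.inclusion hKL).toAlgebra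
    exact H55P.UnrP.down K L p hp hU
  obtain ⟨v, h1⟩ := H55K.y9_up (F := F) (Ω := Ω) v₀
  have hram := (H55K.y9_ram h1 K).2 hr
  have hn := H55P.ram_norm p hp ⊥ L hL K bot_le hKL hUK v hram
  have hnorm : Ideal.absNorm v.asIdeal = Ideal.absNorm v₀.asIdeal := by
    rw [← Ideal.absNorm_relNorm (𝓞 F) (𝓞 (⊥ : IntermediateField F Ω)) v.asIdeal, H55K.y9_norm h1]
  rw [hnorm] at hn
  have hne : Ideal.absNorm v₀.asIdeal ≠ 1 := by
    rw [Ne, Ideal.absNorm_eq_one_iff]
    exact v₀.isPrime.ne_top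
  have hdvd : ∀ q : ℕ, (q : 𝓞 F) ∈ v₀.asIdeal → Ideal.absNorm v₀.asIdeal ∣ q ^ 2 := by
    intro q hq
    have h2 : Ideal.absNorm (Ideal.span {(q : 𝓞 F)}) = q ^ 2 := Nm_nat q
    rw [← h2]
    apply map_dvd
    rw [Ideal.dvd_iff_le, Ideal.span_singleton_le_iff_mem]
    exact hq
  refine ⟨fun h => ?_, fun h => ?_, H55K.y9_unr K hUK hr⟩
  · exact xf_small hp h5 (Or.inl rfl) hne (hdvd 2 (by exact_mod_cast h)) hn
  · exact xf_small hp h5 (Or.inr rfl) hne (hdvd 3 (by exact_mod_cast h)) hn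

end away

section transport

variable {F : Type} [Field F] [NumberField F] [IQ F]

omit [NumberField F] [IQ F] in
theorem xf_transport {Ω : Type} [Field Ω] [DecidableEq Ω] [Algebra F Ω] {W W' : WeierstrassCurve F} (p : ℕ)
    (K : IntermediateField F Ω) (φ : Pt W Ω ≃+ Pt W' Ω) (hφ : ∀ s P, φ (ac W s P) = ac W' s (φ P))
    (h : SelNon W' p K) : SelNon W p K := by
  obtain ⟨c, hc, hp, hV, hn⟩ := h
  have hφ' : ∀ s P, φ.symm (ac W' s P) = ac W s (φ.symm P) := by
    intro s P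
    apply φ.injective
    rw [hφ, φ.apply_symm_apply, φ.apply_symm_apply]
  refine ⟨fun s => φ.symm (c s), ⟨?_, ?_⟩, fun s hs => ?_, fun V hVt => ?_, ?_⟩
  · intro s hs t ht
    show φ.symm (c (s * t)) = φ.symm (c s) + ac W s (φ.symm (c t))
    rw [hc.mul s hs t ht, map_add, hφ']
  · obtain ⟨L, hL, hL2⟩ := hc.cont
    refine ⟨L, hL, fun s hs hs2 => ?_⟩
    show φ.symm (c s) = 0
    rw [hL2 s hs hs2, map_zero]
  · show p • φ.symm (c s) = 0
    rw [← map_nsmul, hp s hs, map_zero]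
  · obtain ⟨P, hP⟩ := hV V hVt
    refine ⟨φ.symm P, fun s hs hI => ?_⟩
    show φ.symm (c s) = ac W s (φ.symm P) - φ.symm P
    rw [hP s hs hI, map_sub, hφ']
  · rintro ⟨T, hT1, hT2⟩
    refine hn ⟨φ T, by rw [← map_nsmul, hT1, map_zero], fun s hs => ?_⟩
    have h1 : φ.symm (c s) = ac W s T - T := hT2 s hs
    rw [← hφ, ← map_sub, ← h1, φ.apply_symm_apply]

theorem xf_short {F : Type} [Field F] [NumberField F] (W₀ : WeierstrassCurve (𝓞 F)) {A B : F}
    (hA : A = -(algebraMap (𝓞 F) F W₀.c₄) / 48) (hB : B = -(algebraMap (𝓞 F) F W₀.c₆) / 864)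
    (hΔ : W₀.Δ ≠ 0) {Ω : Type} [Field Ω] [DecidableEq Ω] [Algebra F Ω] (p : ℕ) (K : IntermediateField F Ω)
    (h : SelNon (WAB A B) p K) : SelNon (W₀⁄F) p K := by
  obtain ⟨W, hW⟩ : ∃ W : WeierstrassCurve F, W = (W₀⁄F) := ⟨_, rfl⟩
  have hc4 : W.c₄ = algebraMap (𝓞 F) F W₀.c₄ := by
    rw [hW]
    exact W₀.map_c₄ (algebraMap (𝓞 F) F)
  have hc6 : W.c₆ = algebraMap (𝓞 F) F W₀.c₆ := by
    rw [hW]
    exact W₀.map_c₆ (algebraMap (𝓞 F) F)
  have hWΔ : W.Δ ≠ 0 := by
    rw [hW]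
    intro h0
    apply hΔ
    have h1 : (W₀⁄F).Δ = algebraMap (𝓞 F) F W₀.Δ := W₀.map_Δ (algebraMap (𝓞 F) F)
    rw [h1] at h0
    exact (map_eq_zero_iff _ (IsFractionRing.injective (𝓞 F) F)).1 h0
  rw [← hc4] at hA
  rw [← hc6] at hB
  have D : H55P.PS4_D W (WAB A B) ((W.a₂ + (W.a₁ / 2) ^ 2) / 3) (W.a₁ / 2) (W.a₃ / 2) := by
    refine ⟨rfl, rfl, rfl, ?_, ?_, ?_, ?_, ?_⟩
    · field_simp
    · field_simp
    · field_simp
    · show A = _
      rw [hA, WeierstrassCurve.c₄, WeierstrassCurve.b₂, WeierstrassCurve.b₄]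
      ring
    · show B = _ - A * _
      rw [hB, hA, WeierstrassCurve.c₄, WeierstrassCurve.c₆, WeierstrassCurve.b₂, WeierstrassCurve.b₄, WeierstrassCurve.b₆]
      ring
  have hd := H55K.y6_delta D
  have i1 : W.IsElliptic := ⟨isUnit_iff_ne_zero.2 hWΔ⟩
  have i2 : (WAB A B).IsElliptic := ⟨isUnit_iff_ne_zero.2 (by rw [hd]; exact hWΔ)⟩
  have i3 : (W⁄Ω).IsElliptic := inferInstanceAs (W.map (algebraMap F Ω)).IsElliptic
  have i4 : ((WAB A B)⁄Ω).IsElliptic := inferInstanceAs ((WAB A B).map (algebraMap F Ω)).IsElliptic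
  rw [← hW]
  refine xf_transport p K (H55P.PS4_iso (H55P.PS4_map (Ω := Ω) D)) ?_ h
  intro f P
  rcases P with _ | ⟨x, y, h'⟩
  · rfl
  · have e1 : f (algebraMap F Ω ((W.a₂ + (W.a₁ / 2) ^ 2) / 3)) = algebraMap F Ω ((W.a₂ + (W.a₁ / 2) ^ 2) / 3) :=
      f.commutes _
    have e2 : f (algebraMap F Ω (W.a₁ / 2)) = algebraMap F Ω (W.a₁ / 2) := f.commutes _
    have e3 : f (algebraMap F Ω (W.a₃ / 2)) = algebraMap F Ω (W.a₃ / 2) := f.commutes _
    change Affine.Point.some _ _ _ = Affine.Point.some _ _ _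
    rw [Affine.Point.some.injEq]
    constructor
    · change f x + algebraMap F Ω ((W.a₂ + (W.a₁ / 2) ^ 2) / 3) = f (x + algebraMap F Ω ((W.a₂ + (W.a₁ / 2) ^ 2) / 3))
      rw [map_add, e1]
    · change f y + algebraMap F Ω (W.a₁ / 2) * f x + algebraMap F Ω (W.a₃ / 2) =
        f (y + algebraMap F Ω (W.a₁ / 2) * x + algebraMap F Ω (W.a₃ / 2))
      rw [map_add, map_add, map_mul, e2, e3]

/-- A nonzero class of the classical Selmer group: the group defined by the inertia conditions is not zero. -/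
theorem xf_zero {Ω : Type} [Field Ω] [DecidableEq Ω] [Algebra F Ω] {W : WeierstrassCurve F} {p : ℕ}
    {K : IntermediateField F Ω} (h : SelNon W p K) : ¬ H55P.SelZero W p K := by
  obtain ⟨c, hc, hp, hV, hn⟩ := h
  intro h0
  apply hn
  refine h0 c hc hp fun V => ?_
  by_cases hVt : V = ⊤
  · subst hVt
    refine ⟨0, fun s hs hI => ?_⟩
    have h1 : s = 1 := by
      apply AlgEquiv.ext
      intro x
      have h2 := hI x (ValuationSubring.mem_top x)
      by_contra hne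
      have h3 : s x - x ≠ 0 := sub_ne_zero.2 hne
      have h4 : (⊤ : ValuationSubring Ω).valuation (s x - x)⁻¹ ≤ 1 :=
        (ValuationSubring.valuation_le_one_iff _ _).2 (ValuationSubring.mem_top _)
      rw [map_inv₀, inv_le_one₀ (zero_lt_iff.2 ((map_ne_zero _).2 h3))] at h4
      exact absurd h2 (not_lt.2 h4)
    have h2 := hc.mul 1 (one_mem _) 1 (one_mem _)
    rw [mul_one, H55K.S.ac_one] at h2
    rw [h1, left_eq_add.1 h2, map_zero, sub_zero]
  · obtain ⟨P, hP⟩ := hV V hVt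
    exact ⟨P, fun s hs hI => hP s hs (Inert.dec hI)⟩

end transport

section main

variable {F : Type} [Field F] [NumberField F] [IQ F] {W₀ : WeierstrassCurve (𝓞 F)} {Om : ℂ}
    {m : Ideal (𝓞 F)} {ψ : Ideal (𝓞 F) →*₀ 𝓞 F} {p : ℕ}

open Classical in
/-- THEOREM X for all curves with complex multiplication. If some prime v of F not dividing the discriminant, at which the number of points is divisible by p, is
ramified in K then the classical p-Selmer group over K is not zero. -/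
theorem nonsel (hH : BaseH F W₀ Om m ψ) (hp : PrimeH F W₀ p) {L K : IntermediateField F (AlgebraicClosure F)}
    [NumberField L] [NumberField K] (hL : PExt p ⊥ L) (hU : UnrP p L) (hKL : K ≤ L) (hN : ¬ NoAn p W₀ K) :
    SelNon (W₀⁄F) p K := by
  obtain ⟨v₀, hr, hΔ, hpts⟩ : ∃ v₀ : HeightOneSpectrum (𝓞 F), RamF K v₀.asIdeal ∧ W₀.Δ ∉ v₀.asIdeal ∧
      p ∣ Nat.card (W₀⁄(𝓞 F ⧸ v₀.asIdeal)).toAffine.Point := by
    unfold NoAn at hN
    push Not at hN
    exact hN
  have hB := H55K.TQ.base_of hH hp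
  obtain ⟨j, hj⟩ := H55K.exists_j F (AlgebraicClosure F)
  obtain ⟨A, hA⟩ : ∃ A : F, A = -(algebraMap (𝓞 F) F W₀.c₄) / 48 := ⟨_, rfl⟩
  obtain ⟨B, hB'⟩ : ∃ B : F, B = -(algebraMap (𝓞 F) F W₀.c₆) / 864 := ⟨_, rfl⟩
  have hd := H55K.y3_ne W₀ hA hB' hB.data.ell
  have hper : Per F (embF F A) (embF F B) Om := by
    have e1 : embF F A = -(eF F W₀.c₄) / 48 := by
      rw [hA, map_div₀, map_neg, map_ofNat]
      rfl
    have e2 : embF F B = -(eF F W₀.c₆) / 864 := by
      rw [hB', map_div₀, map_neg, map_ofNat]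
      rfl
    rw [e1, e2]
    exact hB.data.per
  obtain ⟨act, hact⟩ := H55K.exists_CMA F A B Om j hd hper hj
  have hG : ∀ V : ValuationSubring (AlgebraicClosure F),
      ∃ (Kg : AddSubgroup (Pt (WAB A B) (AlgebraicClosure F))) (u : AlgebraicClosure F),
        GMod (WAB A B) V Kg u := fun V => H55K.exists_gmod hd (H55K.y3_j W₀ hA hB' hB.jint) V
  have hD : Dta A B Om j act m ψ p := H55K.mk_Dta hB hA hB' hact hG
  obtain ⟨h2, h3, hpv⟩ := xf_away hp.prime hp.five hL hU hKL v₀ hr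
  obtain ⟨V, hV⟩ := exists_abw (AlgebraicClosure F) v₀
  have hGV : GV A B V := by
    refine lk_gv W₀ hA hB' ?_ ?_ (lk_one hV hΔ)
    · have := lk_one hV (x := ((2 : ℕ) : 𝓞 F)) (by exact_mod_cast h2)
      rw [vo_nat] at this
      exact_mod_cast this
    · have := lk_one hV (x := ((3 : ℕ) : 𝓞 F)) (by exact_mod_cast h3)
      rw [vo_nat] at this
      exact_mod_cast this
  obtain ⟨T, hT0, hT, hf⟩ := lk_dec hact W₀ hA hB' hΔ hV hGV hp.prime hpv hpts
  obtain ⟨π, hπ, hd', hfx⟩ := lk_pi hact hp.prime hB.unr hT0 hT hf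
  have D : Dat A B Om j act m ψ π p := ⟨hD, hπ, hd'⟩
  exact xf_short W₀ hA hB' hB.data.ell p K (x_core D hL hU K hKL hr hpv hV hfx)

open Classical in
/-- The same for the Selmer group of H55P. -/
theorem not_selG (hH : BaseH F W₀ Om m ψ) (hp : PrimeH F W₀ p) {L K : IntermediateField F (AlgebraicClosure F)}
    [NumberField L] [NumberField K] (hL : PExt p ⊥ L) (hU : UnrP p L) (hKL : K ≤ L) (hN : ¬ NoAn p W₀ K) :
    ¬ H55P.SelG p W₀ K := xf_zero (nonsel hH hp hL hU hKL hN)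

end main

end H13X
end

-- from Lib.H13R.G6
section

/-! # H13R: a bad ramified prime gives a nonzero Selmer class, over M -/

open NumberField IsDedekindDomain WeierstrassCurve

namespace H13R

open H55P (IQ embF eF LF Per IsHecke Pt ac Inert Dec Nm Coc PExt UnrP Ram RamF pt8_norm)
open H35P (WAB Ker tt)
open H55K (Tor ak xc yc CMA Dta GV GMod cj cj_cj mul_cj cj_prime cj_dvd cj_nat Nm_cj Nm_mul Nm_nat exists_abw)
open H55K.S
open H55R (Pl)
open H13S (Abv)
open H13Z (SelNon)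
open H55K.TQ (BaseH PrimeH NoAn)
open H13X

theorem g6_ram_p {F : Type} [Field F] [NumberField F] {Ω : Type} [Field Ω] [DecidableEq Ω] [Algebra F Ω] [IsAlgClosure F Ω]
    {p : ℕ} (hp : p.Prime) {M L K : IntermediateField F Ω} [NumberField M] [NumberField K] (hL : PExt p M L) (hMK : M ≤ K)
    (hK : K ≤ L) (hU : UnrP p K) {v : HeightOneSpectrum (𝓞 M)} (hv : Ram M K v.asIdeal) : (p : 𝓞 M) ∉ v.asIdeal := by
  have hcl0 : IsAlgClosed Ω := IsAlgClosure.isAlgClosed F
  have hal0 : Algebra.IsAlgebraic F Ω := IsAlgClosure.isAlgebraic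
  have hc0 : CharZero Ω := charZero_of_injective_algebraMap (algebraMap F Ω).injective
  have hn := H55P.ram_norm p hp M L hL K hMK hK hU v hv
  intro hpv
  have h1 : v.asIdeal ∣ Ideal.span {(p : 𝓞 M)} := by
    rw [Ideal.dvd_iff_le, Ideal.span_singleton_le_iff_mem]
    exact hpv
  have h2 := map_dvd Ideal.absNorm h1
  rw [Ideal.absNorm_span_natCast] at h2
  obtain ⟨k, -, hk⟩ := (Nat.dvd_prime_pow hp).1 h2
  have hk0 : k ≠ 0 := by
    rintro rfl
    rw [pow_zero, Ideal.absNorm_eq_one_iff] at hk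
    exact v.isPrime.ne_top hk
  have h3 : p ∣ Ideal.absNorm v.asIdeal := by
    rw [hk]
    exact dvd_pow_self p hk0
  have h4 : 0 < Ideal.absNorm v.asIdeal := by
    rw [hk]
    exact pow_pos hp.pos k
  have h5 : p ∣ 1 := by
    have h6 := Nat.dvd_sub h3 hn
    rwa [Nat.sub_sub_self h4] at h6
  exact hp.one_lt.ne' (Nat.dvd_one.1 h5)

section main

variable {F : Type} [Field F] [NumberField F] [IQ F] {W₀ : WeierstrassCurve (𝓞 F)} {Om : ℂ}
    {m : Ideal (𝓞 F)} {ψ : Ideal (𝓞 F) →*₀ 𝓞 F} {p : ℕ}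

open Classical in
/-- THEOREM X over M. If some prime v of M not dividing the discriminant, at which the number of points is divisible by p, is
ramified in K then the classical p-Selmer group over K is not zero. -/
theorem nonselR (hH : BaseH F W₀ Om m ψ) (hp : PrimeH F W₀ p) {M L K : IntermediateField F (AlgebraicClosure F)}
    [NumberField M] [NumberField L] [NumberField K] (hL : PExt p M L) (hU : UnrP p L) (hMK : M ≤ K) (hKL : K ≤ L)
    (hN : ¬ NoRel p W₀ M K) : SelNon (W₀⁄F) p K := by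
  obtain ⟨v, hr, hΔ, hpts⟩ : ∃ v : HeightOneSpectrum (𝓞 M), Ram M K v.asIdeal ∧
      algebraMap (𝓞 F) (𝓞 M) W₀.Δ ∉ v.asIdeal ∧
      p ∣ Nat.card (W₀⁄(𝓞 M ⧸ v.asIdeal)).toAffine.Point := by
    unfold NoRel at hN
    push Not at hN
    exact hN
  have hB := H55K.TQ.base_of hH hp
  obtain ⟨j, hj⟩ := H55K.exists_j F (AlgebraicClosure F)
  obtain ⟨A, hA⟩ : ∃ A : F, A = -(algebraMap (𝓞 F) F W₀.c₄) / 48 := ⟨_, rfl⟩
  obtain ⟨B, hB'⟩ : ∃ B : F, B = -(algebraMap (𝓞 F) F W₀.c₆) / 864 := ⟨_, rfl⟩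
  have hd := H55K.y3_ne W₀ hA hB' hB.data.ell
  have hper : Per F (embF F A) (embF F B) Om := by
    have e1 : embF F A = -(eF F W₀.c₄) / 48 := by
      rw [hA, map_div₀, map_neg, map_ofNat]
      rfl
    have e2 : embF F B = -(eF F W₀.c₆) / 864 := by
      rw [hB', map_div₀, map_neg, map_ofNat]
      rfl
    rw [e1, e2]
    exact hB.data.per
  obtain ⟨act, hact⟩ := H55K.exists_CMA F A B Om j hd hper hj
  have hG : ∀ V : ValuationSubring (AlgebraicClosure F),
      ∃ (Kg : AddSubgroup (Pt (WAB A B) (AlgebraicClosure F))) (u : AlgebraicClosure F),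
        GMod (WAB A B) V Kg u := fun V => H55K.exists_gmod hd (H55K.y3_j W₀ hA hB' hB.jint) V
  have hD : Dta A B Om j act m ψ p := H55K.mk_Dta hB hA hB' hact hG
  have hUK : UnrP p K := by
    let _ : Algebra K L := (IntermediateField.inclusion hKL).toRingHom.toAlgebra
    exact H55P.UnrP.down K L p hp.prime hU
  have hpv : (p : 𝓞 M) ∉ v.asIdeal := g6_ram_p hp.prime hL hMK hKL hUK hr
  obtain ⟨V, hV⟩ : ∃ V : ValuationSubring (AlgebraicClosure F), Abv M V v := exists_abw (AlgebraicClosure F) v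
  obtain ⟨T, hT0, hT, hf⟩ := lk_decR hact W₀ hB.data.ell hA hB' M hΔ hV hp.prime hp.five hpv hpts
  obtain ⟨π, hπ, hd', hfx⟩ := lk_piR hact hp.prime hB.unr M hT0 hT hf
  have D : Dat A B Om j act m ψ π p := ⟨hD, hπ, hd'⟩
  exact xf_short W₀ hA hB' hB.data.ell p K (x_coreR D hp.unr hL hU K hMK hKL hr hpv hV hfx)

end main

end H13R
end

-- from Lib.H55K.XF
section

/-! # H55K: interface: Selmer groups over the tower (part X) -/

open NumberField IsDedekindDomain WeierstrassCurve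

namespace H55K.TQ

open H55P (IQ embF eF LF Per IsHecke Pt ac Inert Dec Nm UnitP)

variable {F : Type} [Field F] [NumberField F] [IQ F] {W₀ : WeierstrassCurve (𝓞 F)} {Om : ℂ}
    {m : Ideal (𝓞 F)} {ψ : Ideal (𝓞 F) →*₀ 𝓞 F} {p : ℕ}

open Classical in
/-- Part X (helper13). -/
theorem non_all (hH : BaseH F W₀ Om m ψ) (hp : PrimeH F W₀ p) {L K : IntermediateField F (AlgebraicClosure F)}
    [NumberField L] [NumberField K] (hL : H55P.PExt p ⊥ L) (hU : H55P.UnrP p L) (hK : K ≤ L) (hN : ¬ NoAn p W₀ K) :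
    H13Z.SelNon (W₀⁄F) p K := H13X.nonsel hH hp hL hU hK hN

end H55K.TQ
end

-- from Lib.H55K.F1
section

/-! # H55K: the theorem over F -/

open NumberField IsDedekindDomain WeierstrassCurve

namespace H55K.TQ

open H55P (IQ embF eF LF Per IsHecke Pt ac Inert Dec Nm UnitP)

variable {F : Type} [Field F] [NumberField F] [IQ F] {W₀ : WeierstrassCurve (𝓞 F)} {Om : ℂ}
    {m : Ideal (𝓞 F)} {ψ : Ideal (𝓞 F) →*₀ 𝓞 F} {p : ℕ}

/-- The Galois closure is unramified at p. -/
theorem unr_clos (hpu : H55P.UnrP p F) (hp : p.Prime) {L K : IntermediateField F (AlgebraicClosure F)} [NumberField K]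
    (hL : H55P.PExt p ⊥ L) (hK : K ≤ L) (hU : H55P.UnrP p K) :
    ∃ (L' : IntermediateField F (AlgebraicClosure F)) (_ : NumberField L'), H55P.PExt p ⊥ L' ∧ K ≤ L' ∧ H55P.UnrP p L' := by
  classical
  have hLf : FiniteDimensional F L := hL.fin
  have hbf : FiniteDimensional F (⊥ : IntermediateField F (AlgebraicClosure F)) := inferInstance
  have hbn : NumberField (⊥ : IntermediateField F (AlgebraicClosure F)) := H16C.FR_numberField _
  have hC := H55P.clos_pext p hp ⊥ K L hL bot_le hK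
  have hCf : FiniteDimensional F (H55P.clos (⊥ : IntermediateField F (AlgebraicClosure F)) K) := hC.fin
  have hCn : NumberField (H55P.clos (⊥ : IntermediateField F (AlgebraicClosure F)) K) := H16C.FR_numberField _
  refine ⟨_, hCn, hC, H55P.le_clos _ _, ?_⟩
  refine H55P.unrP_sub p hp _ hpu fun v hv hpv => ?_
  obtain ⟨v', h1⟩ := y9_up (Ω := AlgebraicClosure F) v
  have hr' := (y9_ram h1 _).2 hv
  have h3 : H55P.Ram (⊥ : IntermediateField F (AlgebraicClosure F)) K v'.asIdeal :=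
    H55P.clos_ram ⊥ K L bot_le hK hL.norm v' hr'
  exact y9_unr K hU ((y9_ram h1 K).1 h3) hpv

open Classical in
/-- THE THEOREM OVER F. -/
theorem main_F (hH : BaseH F W₀ Om m ψ) (hp : PrimeH F W₀ p) [NumberField (⊥ : IntermediateField F (AlgebraicClosure F))]
    {L K : IntermediateField F (AlgebraicClosure F)} [NumberField K] (hL : H55P.PExt p ⊥ L) (hK : K ≤ L)
    (hU : H55P.UnrP p K) :
    H55P.IntG p Om ψ K ∧
    (H55P.ValG p Om ψ K ↔ H55P.ValG p Om ψ (⊥ : IntermediateField F (AlgebraicClosure F)) ∧ NoAn p W₀ K) ∧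
    (H55P.ValG p Om ψ K → H55P.SelG p W₀ K ∧ H55P.ShaG p W₀ K ∧ H55P.PtsG p W₀ K ∧ H55P.LvalG p W₀ Om K) ∧
    (¬ NoAn p W₀ K → NonG p Om ψ K ∧ H13Z.SelNon (W₀⁄F) p K) := by
  refine ⟨gen_intK hH hp hL hK hU, gen_val hH hp hL hK hU, fun hV => ?_, fun hN => ⟨non_K hH hp hL hK hU hN, ?_⟩⟩
  · obtain ⟨h0, hN⟩ := (gen_val hH hp hL hK hU).1 hV
    obtain ⟨h1, h2, h3⟩ := sel_all hH hp hL hK hU hN (base_main (base_of hH hp) h0)
    refine ⟨h1, h2, h3, H55P.gen_lval p hp.prime W₀ Om hH.data.hecke K hV ?_⟩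
    exact deuG hH.data.hecke (fun v hv _ => hH.deu v hv) (fun v hv => (hH.supp v).1 hv)
      (jint_of hH.data.per hH.data.ell) K (fun w hw => bad_K hH hp hL hK w hw)
  · obtain ⟨L', hL'n, hL', hK', hU'⟩ := unr_clos hp.unr hp.prime hL hK hU
    exact non_all hH hp hL' hU' hK' hN

end H55K.TQ
end

-- from Lib.H55K.F2
section

/-! # H55K: the theorem for curves over the rationals -/

open NumberField IsDedekindDomain WeierstrassCurve

namespace H55K.TQ

open H55P (IQ embF eF LF Per IsHecke Pt ac Inert Dec Nm UnitP)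

variable {F : Type} [Field F] [NumberField F] [IQ F] {W : WeierstrassCurve ℤ} {Om : ℂ}
    {m : Ideal (𝓞 F)} {ψ : Ideal (𝓞 F) →*₀ 𝓞 F} {p : ℕ}

/-- No prime is ramified in the bottom field. -/
theorem ramF_bot {F : Type} [Field F] [NumberField F] {Ω : Type} [Field Ω] [Algebra F Ω] (K : IntermediateField F Ω) (hK : K = ⊥) (v : HeightOneSpectrum (𝓞 F)) :
    ¬ H55P.RamF K v.asIdeal := by
  subst hK
  have hbn : NumberField (⊥ : IntermediateField F Ω) := H16C.FR_numberField _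
  intro hr
  obtain ⟨v', h1⟩ := y9_up (Ω := Ω) v
  obtain ⟨P, hP, hle⟩ := hr
  rw [← y9_map h1] at hle
  have h2 : v'.asIdeal ≤ P := hle.trans (Ideal.pow_le_self two_ne_zero)
  have h3 : v'.asIdeal = P := v'.isMaximal.eq_of_le hP.ne_top h2
  rw [← h3] at hle
  have h4 : v'.asIdeal ^ 2 = v'.asIdeal := le_antisymm (Ideal.pow_le_self two_ne_zero) hle
  have h5 : v'.asIdeal * v'.asIdeal = v'.asIdeal * 1 := by rw [← pow_two, h4, mul_one]
  have h6 := mul_left_cancel₀ v'.ne_bot h5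
  exact v'.isPrime.ne_top (h6.trans Ideal.one_eq_top)

/-- The field generated by F over the rationals. -/
theorem kg_rat (F : Type) [Field F] [NumberField F] [IQ F] (K : Type) [Field K] [NumberField K] (hK : ∀ x : K, ∃ q : ℚ, x = (q : K))
    (ι : K →ₐ[ℚ] AlgebraicClosure F) : KG F K ι = ⊥ := by
  rw [eq_bot_iff]
  unfold KG
  rw [IntermediateField.adjoin_le_iff]
  rintro _ ⟨x, rfl⟩
  obtain ⟨q, rfl⟩ := hK x
  have h1 : ι (q : K) = algebraMap F (AlgebraicClosure F) (q : F) := by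
    rw [map_ratCast, map_ratCast]
  show ι (q : K) ∈ (⊥ : IntermediateField F (AlgebraicClosure F))
  rw [h1]
  exact (⊥ : IntermediateField F (AlgebraicClosure F)).algebraMap_mem _

section fields

variable (hH : BaseH F (W⁄(𝓞 F)) Om m ψ) (hp : PrimeH F (W⁄(𝓞 F)) p)
  {L : IntermediateField F (AlgebraicClosure F)} [NumberField L] (hL : H55P.PExt p ⊥ L) (hU : H55P.UnrP p L)
  (K : Type) [Field K] [NumberField K] (ι : K →ₐ[ℚ] AlgebraicClosure F) [NumberField (KG F K ι)]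
  (hK : KG F K ι ≤ L)

include hH hp hL hU hK

omit hH in
theorem f2_unrG : H55P.UnrP p (KG F K ι) := by
  letI : Algebra (KG F K ι) L := (IntermediateField.inclusion hK).toRingHom.toAlgebra
  exact H55P.UnrP.down (KG F K ι) L p hp.prime hU

omit hH in
theorem f2_unr : H55P.UnrP p K := by
  letI : Algebra K (KG F K ι) := (KGmap F K ι).toAlgebra
  exact H55P.UnrP.down K (KG F K ι) p hp.prime (f2_unrG hp hL hU K ι hK)

/-- The analytic part in terms of the Hecke L-value. -/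
theorem an_iff [NumberField (⊥ : IntermediateField F (AlgebraicClosure F))] :
    AnUnitG p W K ↔ H55P.ValG p Om ψ (KG F K ι) := by
  have hR := lrel hH hp hL K ι hK
  have hUK := f2_unr hp hL hU K ι hK
  have hUG := f2_unrG hp hL hU K ι hK
  obtain ⟨h1, h2, h3, -⟩ := main_F hH hp hL hK hUG
  refine ⟨val_of_an hH hp K _ hR hUK h1, fun hV => an_of_val hH hp K _ hR hUK hV ?_⟩
  exact (sel_abs hH hp hL K ι hK (h3 hV).1).2.2.2

end fields

/-- The analytic part over the rationals. -/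
theorem an_rat (hH : BaseH F (W⁄(𝓞 F)) Om m ψ) (hp : PrimeH F (W⁄(𝓞 F)) p)
    [NumberField (⊥ : IntermediateField F (AlgebraicClosure F))] :
    AnUnitG p W ℚ ↔ H55P.ValG p Om ψ (⊥ : IntermediateField F (AlgebraicClosure F)) := by
  obtain ⟨L, hLn, ι, hL, hU, hK, -⟩ := sub_setup (F := F) p hp.prime ℚ F inferInstance 0
    (by rw [pow_zero, Module.finrank_self]) hp.unr
  have hG := kg_rat F ℚ (fun x => ⟨x, (Rat.cast_id x).symm⟩) ι
  have hn : NumberField (KG F ℚ ι) := by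
    rw [hG]
    infer_instance
  rw [an_iff hH hp hL hU ℚ ι hK, (main_F hH hp hL hK (f2_unrG hp hL hU ℚ ι hK)).2.1]
  exact ⟨fun h => h.1, fun h => ⟨h, fun v hv => absurd hv (ramF_bot _ hG v)⟩⟩

/-- THE THEOREM for curves over the rationals. -/
theorem main_Q (hH : BaseH F (W⁄(𝓞 F)) Om m ψ) (hp : PrimeH F (W⁄(𝓞 F)) p) (K : Type) [Field K] [NumberField K]
    (hK : SubUF F p K) :
    (AnUnitG p W K ↔ AnUnitG p W ℚ ∧ InPF (W⁄(𝓞 F)) p K) ∧
    (AnUnitG p W K → BSDPG p W K) ∧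
    (¬ InPF (W⁄(𝓞 F)) p K → AnNonG p W K ∧ H13Z.SelNonT (W⁄K) p) := by
  have hbf : FiniteDimensional F (⊥ : IntermediateField F (AlgebraicClosure F)) := inferInstance
  have hbn : NumberField (⊥ : IntermediateField F (AlgebraicClosure F)) := H16C.FR_numberField _
  obtain ⟨Lt, _, _, _, _, hG, ⟨k, hk⟩, hUt⟩ := hK
  obtain ⟨L, hLn, ι, hL, hU, hKL, -⟩ := sub_setup (F := F) p hp.prime K Lt hG k hk hUt
  have hLf : FiniteDimensional F L := hL.fin
  have hKf : FiniteDimensional F (KG F K ι) := H55P.finDim_of_le hKL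
  have hKn : NumberField (KG F K ι) := H16C.FR_numberField _
  have hUG := f2_unrG hp hL hU K ι hKL
  obtain ⟨m1, m2, m3, m4⟩ := main_F hH hp hL hKL hUG
  have hin : NoAn p (W⁄(𝓞 F)) (KG F K ι) → InPF (W⁄(𝓞 F)) p K := fun h =>
    inPF_of hp.prime K ι L hL hU hKL h
  have han := an_iff hH hp hL hU K ι hKL
  refine ⟨⟨fun h => ?_, ?_⟩, fun h => ?_, fun h => ?_⟩
  · obtain ⟨h1, h2⟩ := m2.1 (han.1 h)
    exact ⟨(an_rat hH hp).2 h1, hin h2⟩
  · rintro ⟨h1, Lt', _, _, _, _, hG', ⟨k', hk'⟩, hUt', hr'⟩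
    obtain ⟨L', hLn', ι', hL', hU', hKL', hram'⟩ := sub_setup (F := F) p hp.prime K Lt' hG' k' hk' hUt'
    have hLf' : FiniteDimensional F L' := hL'.fin
    have hKf' : FiniteDimensional F (KG F K ι') := H55P.finDim_of_le hKL'
    have hKn' : NumberField (KG F K ι') := H16C.FR_numberField _
    refine (an_iff hH hp hL' hU' K ι' hKL').2
      ((main_F hH hp hL' hKL' (f2_unrG hp hL' hU' K ι' hKL')).2.1.2 ⟨(an_rat hH hp).1 h1, fun v hv hΔ hd => ?_⟩)
    obtain ⟨w, hw, he⟩ := hram' v (ramF_up hKL' v hv)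
    exact he (hr' w v hw hΔ hd)
  · exact ⟨sel_abs hH hp hL K ι hKL (m3 (han.1 h)).1, h⟩
  · obtain ⟨⟨Φ, a1, a2, a3⟩, h2⟩ := m4 fun hN => h (hin hN)
    exact ⟨non_of hH hp K _ (lrel hH hp hL K ι hKL) (f2_unr hp hL hU K ι hKL) a1 a2 a3, non_abs hH hp K ι h2⟩

end H55K.TQ
end

-- from Lib.H55K.F3
section

/-! # H55K: integrality of the algebraic part of the L-value -/

open NumberField IsDedekindDomain WeierstrassCurve

namespace H55K.TQ

open H55P (IQ embF eF LF Per IsHecke Pt ac Inert Dec Nm UnitP)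

variable {F : Type} [Field F] [NumberField F] [IQ F] {W : WeierstrassCurve ℤ} {Om : ℂ}
    {m : Ideal (𝓞 F)} {ψ : Ideal (𝓞 F) →*₀ 𝓞 F} {p : ℕ}

/-- Integrality over K from integrality of the Hecke L-value. -/
theorem int_of (hH : BaseH F (W⁄(𝓞 F)) Om m ψ) (hp : PrimeH F (W⁄(𝓞 F)) p) (K : Type) [Field K] [NumberField K]
    (K' : IntermediateField F (AlgebraicClosure F)) [NumberField K'] (hR : LRel W ψ K K') (hU : H55P.UnrP p K)
    (hI : H55P.IntG p Om ψ K') : AnIntG p W K := by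
  obtain ⟨Φ, hΦa, hΦ, hx⟩ := hI
  obtain ⟨Λ, hΛa, hΛs, -, hΛv⟩ := lG_rel hH hp K K' hR hU hΦa hΦ
  refine ⟨exists_perZ (perW_of hH), Λ, hΛa, hΛs, fun L hL V hV => ?_⟩
  have h1 : V.valuation (Φ 1 / Om ^ Module.finrank F K') ≤ 1 := (V.valuation_le_one_iff _).2 (hx V hV)
  have h2 : V.valuation ((starRingEnd ℂ) (Φ 1 / Om ^ Module.finrank F K')) ≤ 1 :=
    H55P.i5_conj V _ (((V.comap (starRingEnd ℂ)).valuation_le_one_iff _).2
      (hx _ (H55P.i5_above p hp.prime V hV)))
  rw [← V.valuation_le_one_iff]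
  rcases hΛv V hV L hL with h | h
  · rw [h]
    exact mul_le_one' h1 h2
  · rw [h.1]
    exact h1

/-- Integrality over all fields of the class. -/
theorem int_Q (hH : BaseH F (W⁄(𝓞 F)) Om m ψ) (hp : PrimeH F (W⁄(𝓞 F)) p) (K : Type) [Field K] [NumberField K]
    (hK : SubUF F p K) : AnIntG p W K := by
  have hbf : FiniteDimensional F (⊥ : IntermediateField F (AlgebraicClosure F)) := inferInstance
  have hbn : NumberField (⊥ : IntermediateField F (AlgebraicClosure F)) := H16C.FR_numberField _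
  obtain ⟨Lt, _, _, _, _, hG, ⟨k, hk⟩, hUt⟩ := hK
  obtain ⟨L, hLn, ι, hL, hU, hKL, -⟩ := sub_setup (F := F) p hp.prime K Lt hG k hk hUt
  have hLf : FiniteDimensional F L := hL.fin
  have hKf : FiniteDimensional F (KG F K ι) := H55P.finDim_of_le hKL
  have hKn : NumberField (KG F K ι) := H16C.FR_numberField _
  have hUG := f2_unrG hp hL hU K ι hKL
  exact int_of hH hp K _ (lrel hH hp hL K ι hKL) (f2_unr hp hL hU K ι hKL) (gen_intK hH hp hL hKL hUG)

end H55K.TQ
end
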