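import Mathlib
import Pool.Agent.Lib.H1M.PP.D_H13D_MD
import Pool.Agent.Lib.H1M.PP.D_H28T_CD
import Pool.Agent.Lib.H1M.PP.D_H28T_Defs
import Pool.Agent.Lib.H1M.PP.D_H28T_W16
import Pool.Agent.Lib.H1M.PP.D_H55K_FD
import Pool.Agent.Lib.H1M.PP.D_H55K_QD
import Pool.Agent.Lib.H1M.PP.M002
import Pool.Agent.Lib.H1M.PP.M007
import Pool.Agent.Lib.H1M.PP.M041
import Pool.Agent.Lib.H1M.PP.M042
import Pool.Agent.Lib.H1M.PP.M043
import Pool.Agent.Lib.H1M.PP.M044
import Pool.Agent.Lib.H1M.PP.M047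
import Pool.Agent.Lib.H1M.PP.M055
import Pool.Agent.Lib.H1M.PP.M061
import Pool.Agent.Lib.H1M.PP.M063
import Pool.Agent.Lib.H1M.PP.M064
import Pool.Agent.Lib.H1M.PP.M065
import Pool.Agent.Lib.H1M.PP.M066
import Pool.Agent.Lib.H1M.PP.M069
import Pool.Agent.Lib.H1M.PP.M070
import Pool.Agent.Lib.H1M.PP.M071
import Pool.Agent.Lib.H1M.PP.M072
import Pool.Agent.Lib.H1M.PP.M073
import Pool.Agent.Lib.H1M.PP.M076
import Pool.Agent.Lib.H1M.PP.M078
import Pool.Agent.Lib.H1M.PP.M080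
import Pool.Agent.Lib.H1M.PP.M084

/-! Merged copies (to shorten the build) of Lib.H28I.A0, Lib.H28I.V6, Lib.H28I.K1, Lib.H28I.E6, Lib.H28I.E7, Lib.H28I.E8, Lib.H28I.L0, Lib.H28I.N4, Lib.H28I.L1, Lib.H28I.P0, Lib.H28I.P1, Lib.H28I.P2, Lib.H28I.P3, Lib.H28R.A5, Lib.H28R.A8, Lib.H28T.AQ2, Lib.H28T.AR3, Lib.H28T.AR5, Lib.H55W.EZM. -/

-- from Lib.H28I.A0
section

/-! # H28I, part A: transfer of the conclusions -/

open NumberField IsDedekindDomain WeierstrassCurve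

namespace H28I

open H55P (IQ embF eF LF Per IsHecke Pt ac Inert Dec Nm)
open H35P (WAB Ker tt GoodW IntW)
open H55K (xc yc)
open H55K.TQ

open Classical in
/-- What is the same for W and W' over K. -/
structure Same (p : ℕ) (W W' : WeierstrassCurve ℤ) (K : Type) [Field K] [NumberField K] : Prop where
  lf : ∀ n : ℕ, (W'⁄K).LFunction n = (W⁄K).LFunction n
  per : ∀ L L' : PeriodPair, PerZ W L → PerZ W' L' → ∀ V : ValuationSubring ℂ, V.valuation (p : ℂ) < 1 → ∀ x : ℂ,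
    V.valuation (lG K W' L' x) = V.valuation (lG K W L x)
  ex : ∃ L : PeriodPair, PerZ W L
  ex' : ∃ L : PeriodPair, PerZ W' L
  iso : Iso6 (W⁄K) (W'⁄K) (AlgebraicClosure K)
  disc : W.Δ ≠ 0
  disc' : W'.Δ ≠ 0

variable {p : ℕ} {W W' : WeierstrassCurve ℤ} {K : Type} [Field K] [NumberField K]

/-- Chunk A0 (S). The L-series depend only on the coefficients (h.lf, funext; WeierstrassCurve.LSeries is the LSeries of LFunction: rfl or unfold). -/
theorem same_ser (h : Same p W W' K) (s : ℂ) :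
    (LSeriesSummable (fun n => (((W'⁄K).LFunction n : ℤ) : ℂ)) s ↔ LSeriesSummable (fun n => (((W⁄K).LFunction n : ℤ) : ℂ)) s) ∧
      (W'⁄K).LSeries s = (W⁄K).LSeries s := by
  have e : (fun n => (((W'⁄K).LFunction n : ℤ) : ℂ)) = fun n => (((W⁄K).LFunction n : ℤ) : ℂ) := by
    funext n
    rw [h.lf n]
  refine ⟨by rw [e], ?_⟩
  show LSeries (fun n => (((W'⁄K).LFunction n : ℤ) : ℂ)) s = LSeries (fun n => (((W⁄K).LFunction n : ℤ) : ℂ)) s
  rw [e]

theorem a0_ser (h : Same p W W' K) (Λ : ℂ → ℂ) :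
    (∀ s : ℂ, 3 / 2 < s.re →
      LSeriesSummable (fun n => (((W'⁄K).LFunction n : ℤ) : ℂ)) s ∧ Λ s = (W'⁄K).LSeries s) ↔
    (∀ s : ℂ, 3 / 2 < s.re →
      LSeriesSummable (fun n => (((W⁄K).LFunction n : ℤ) : ℂ)) s ∧ Λ s = (W⁄K).LSeries s) := by
  refine forall_congr' fun s => imp_congr_right fun _ => ?_
  rw [(same_ser h s).1, (same_ser h s).2]

theorem a0_nat (hp : p.Prime) {n : ℕ} (hn : ¬ p ∣ n) (V : ValuationSubring ℂ) (hV : V.valuation (p : ℂ) < 1) :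
    V.valuation (n : ℂ) = 1 := by
  have h := fc1_one hp V hV (n : ℤ) (fun h => hn (Int.natCast_dvd_natCast.1 h))
  exact_mod_cast h

theorem a0_sha (K : Type) [Field K] [NumberField K] (W : WeierstrassCurve ℤ) (L : PeriodPair) (L1 : ℂ) (V : ValuationSubring ℂ) :
    V.valuation (shaG K W L L1) = V.valuation (lG K W L L1) * V.valuation (Nat.card (W⁄K).toAffine.Point : ℂ) ^ 2 := by
  rw [shaG_lG, map_mul, map_pow]

theorem a0_disc {W : WeierstrassCurve ℤ} (h : W.Δ ≠ 0) (K : Type) [Field K] [NumberField K] : (W⁄K).Δ ≠ 0 := by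
  have e : (W⁄K).Δ = algebraMap ℤ K W.Δ := WeierstrassCurve.map_Δ W (algebraMap ℤ K)
  rw [e]
  intro h0
  exact h ((injective_iff_map_eq_zero (algebraMap ℤ K)).1 (RingHom.injective_int _) _ h0)

theorem a0_two {Γ : Type*} [LinearOrderedCommGroupWithZero Γ] {a b : Γ} (ha : a ≤ 1) (hb : b ≤ 1) (h : a * b ^ 2 = 1) :
    a = 1 ∧ b = 1 := by
  have h1 : b = 1 := by
    by_contra hne
    have hlt : b < 1 := lt_of_le_of_ne hb hne
    have h2 : a * b ^ 2 ≤ b := by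
      calc a * b ^ 2 ≤ 1 * b ^ 2 := mul_le_mul_left ha _
        _ = b * b := by rw [one_mul, pow_two]
        _ ≤ 1 * b := mul_le_mul_left hb _
        _ = b := one_mul _
    rw [h] at h2
    exact absurd hlt (not_lt.2 h2)
  exact ⟨by rw [h1, one_pow, mul_one] at h; exact h, h1⟩

/-- Chunk A0 (S). The same Λ; h.per (for L from h.ex); V.valuation_le_one_iff. -/
theorem same_int (h : Same p W W' K) (hI : AnIntG p W K) : AnIntG p W' K := by
  obtain ⟨-, Λ, hΛ, hs, hv⟩ := hI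
  obtain ⟨L, hL⟩ := h.ex
  refine ⟨h.ex', Λ, hΛ, (a0_ser h Λ).2 hs, fun L' hL' A hA => ?_⟩
  rw [← A.valuation_le_one_iff, h.per L L' hL hL' A hA]
  exact (A.valuation_le_one_iff _).2 (hv L hL A hA)

/-- Chunk A0 (S). The same Λ; NonP is about valuations: unfold H55P.NonP (H55P/CStm.lean) and use h.per. -/
theorem same_non (h : Same p W W' K) (hI : AnNonG p W K) : AnNonG p W' K := by
  obtain ⟨-, Λ, hΛ, hs, hv⟩ := hI
  obtain ⟨L, hL⟩ := h.ex
  refine ⟨h.ex', Λ, hΛ, (a0_ser h Λ).2 hs, fun L' hL' A hA => ?_⟩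
  rw [h.per L L' hL hL' A hA]
  exact hv L hL A hA

/-- Chunk A0 (S). -/
theorem same_lnz (h : Same p W W' K) : LNz W' K ↔ LNz W K := by
  constructor
  · rintro ⟨Λ, hΛ, hs, hne⟩
    exact ⟨Λ, hΛ, (a0_ser h Λ).1 hs, hne⟩
  · rintro ⟨Λ, hΛ, hs, hne⟩
    exact ⟨Λ, hΛ, (a0_ser h Λ).2 hs, hne⟩

/-- Chunk A0 (M). Λ is the same. shaG = lG #E^2 (shaG_lG, FB6A.lean). By hB the number of points of W over K is finite, prime to p, so its value is 1 at all V above p (it is not 0; fc1_one), so V(lG W) = 1 = V(lG W'); pts_iso: the same for W'. -/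
theorem same_unit (hp : p.Prime) (h5 : 5 ≤ p) (h : Same p W W' K) (hA : AnUnitG p W K) (hB : BSDPG p W K) : AnUnitG p W' K := by
  obtain ⟨-, Λ, hΛ, hs, hne, hu⟩ := hA
  obtain ⟨⟨-, -, hf, hc⟩, -⟩ := hB
  obtain ⟨L, hL⟩ := h.ex
  obtain ⟨hf', hc'⟩ := pts_iso hp h5 (a0_disc h.disc' K) h.iso hf hc
  refine ⟨h.ex', Λ, hΛ, (a0_ser h Λ).2 hs, hne, fun L' hL' V hV => ?_⟩
  have h1 := hu L hL V hV
  rw [a0_sha, a0_nat hp hc V hV, one_pow, mul_one] at h1
  rw [a0_sha, a0_nat hp hc' V hV, one_pow, mul_one, h.per L L' hL hL' V hV, h1]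

/-- Chunk A0 (M). Let n' be the number of points of W' over K (Nat.card, 0 if infinite), Λ' as in hA, Λ from hI: Λ 1 = Λ' 1 (TW1_ident, same_ser). L from h.ex, L' from h.ex'. For every V above p: V(lG W')V(n')^2 = 1, V(lG W') = V(lG W) ≤ 1, V(n') ≤ 1, so V(lG W) = 1 and V(n') = 1. A V above p exists (H55P.exists_above_p): n' ≠ 0, so finite (Nat.finite_of_card_ne_zero), and p does
not divide n'. pts_iso for the inverse isogeny (iso6_symm): the number n of points of W over K is finite (Nat.card_pos: nonempty) and prime to p, V(n) = 1. So V(shaG W) = V(lG W) V(n)^2 = 1. -/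
theorem same_unit' (hp : p.Prime) (h5 : 5 ≤ p) (h : Same p W W' K) (hI : AnIntG p W K) (hA : AnUnitG p W' K) : AnUnitG p W K := by
  obtain ⟨-, Λ, hΛ, hs, hi⟩ := hI
  obtain ⟨-, Λ', hΛ', hs', hne, hu⟩ := hA
  have e1 : Λ 1 = Λ' 1 := H55N.TW1_ident (1 / 2) Λ Λ' hΛ hΛ'
    (fun s h32 => by rw [(hs s h32).2, (hs' s h32).2, (same_ser h s).2]) (by norm_num) 1 (by norm_num)
  obtain ⟨L, hL⟩ := h.ex
  obtain ⟨L', hL'⟩ := h.ex'
  have key : ∀ V : ValuationSubring ℂ, V.valuation (p : ℂ) < 1 →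
      V.valuation (lG K W L (Λ' 1)) = 1 ∧ V.valuation (Nat.card (W'⁄K).toAffine.Point : ℂ) = 1 := by
    intro V hV
    have h1 := hu L' hL' V hV
    rw [a0_sha, h.per L L' hL hL' V hV] at h1
    refine a0_two ?_ ?_ h1
    · rw [← e1]
      exact (V.valuation_le_one_iff _).2 (hi L hL V hV)
    · have h2 := V.valuation_le_one ((Nat.card (W'⁄K).toAffine.Point : ℕ) : V)
      exact_mod_cast h2
  obtain ⟨V₀, hV₀⟩ := H55P.exists_above_p p hp
  have hn0 : Nat.card (W'⁄K).toAffine.Point ≠ 0 := by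
    intro h0
    have h1 := (key V₀ hV₀).2
    rw [h0, Nat.cast_zero, map_zero] at h1
    exact zero_ne_one h1
  have hnp : ¬ p ∣ Nat.card (W'⁄K).toAffine.Point := by
    rintro ⟨m, hm⟩
    have h1 := (key V₀ hV₀).2
    have h2 : V₀.valuation (m : ℂ) ≤ 1 := by
      have h3 := V₀.valuation_le_one ((m : ℕ) : V₀)
      exact_mod_cast h3
    rw [hm, Nat.cast_mul, map_mul] at h1
    have h4 : V₀.valuation (p : ℂ) * V₀.valuation (m : ℂ) ≤ V₀.valuation (p : ℂ) := by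
      calc V₀.valuation (p : ℂ) * V₀.valuation (m : ℂ) ≤ V₀.valuation (p : ℂ) * 1 := mul_le_mul_right h2 _
        _ = V₀.valuation (p : ℂ) := mul_one _
    rw [h1] at h4
    exact absurd hV₀ (not_lt.2 h4)
  obtain ⟨hf, hc⟩ := pts_iso hp h5 (a0_disc h.disc K) (by classical exact iso6_symm h.iso) (Nat.finite_of_card_ne_zero hn0) hnp
  refine ⟨h.ex, Λ', hΛ', (a0_ser h Λ').1 hs', hne, fun L₁ hL₁ V hV => ?_⟩
  have h1 : V.valuation (lG K W L₁ (Λ' 1)) = 1 := by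
    rw [← h.per L₁ L' hL₁ hL' V hV, h.per L L' hL hL' V hV]
    exact (key V hV).1
  rw [a0_sha, a0_nat hp hc V hV, one_pow, mul_one, h1]

/-- Chunk A0 (S). sel_iso, sha_iso, pts_iso and hA. -/
theorem same_bsd (hp : p.Prime) (h5 : 5 ≤ p) (h : Same p W W' K) (hB : BSDPG p W K) (hA : AnUnitG p W' K) : BSDPG p W' K := by
  obtain ⟨⟨h1, h2, h3, h4⟩, -⟩ := hB
  exact ⟨⟨sel_iso hp h5 h.iso h1, sha_iso hp h5 h.iso h2, pts_iso hp h5 (a0_disc h.disc' K) h.iso h3 h4⟩, hA⟩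

end H28I
end

-- from Lib.H28I.V6
section

/-! # H28I, part V: the isogeny over Ω -/

open NumberField IsDedekindDomain WeierstrassCurve

namespace H28I

open H55P (IQ embF eF LF Per IsHecke Pt ac Inert Dec Nm)
open H35P (WAB Ker tt GoodW IntW)
open H55K (xc yc)
open H55K.MG (VC Crd)

theorem v6_delta {k : Type} [Field k] (A B : k) : (WAB A B).Δ = -16 * (4 * A ^ 3 + 27 * B ^ 2) := by
  simp only [WAB, WeierstrassCurve.Δ, WeierstrassCurve.b₂, WeierstrassCurve.b₄, WeierstrassCurve.b₆, WeierstrassCurve.b₈]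
  ring

/-- The properties of the isogeny, as a homomorphism, for equations E, E'. -/
structure IsH {k : Type} [Field k] [DecidableEq k] {E E' : WeierstrassCurve k} (e t u : k) (Φ : E.toAffine.Point →+ E'.toAffine.Point) : Prop where
  ker : ∀ P, P ≠ 0 → xc P = e → Φ P = 0
  ne : ∀ P, P ≠ 0 → xc P ≠ e → Φ P ≠ 0
  x : ∀ P, P ≠ 0 → xc P ≠ e → xc (Φ P) = vx e t u (xc P)
  y : ∀ P, P ≠ 0 → xc P ≠ e → yc (Φ P) = vd e t u (xc P) * yc P
  surj : Function.Surjective Φ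
  six : ∀ P, Φ P = 0 → (6 : ℕ) • P = 0

/-- Chunk V6 (S/M). subst E, E'; Φ from exists_v, additive by v_add (AddMonoidHom.mk'), v_surj, six_pt (Φ P = 0 and P ≠ 0: xc P = e by hΦ.ne). -/
theorem exists_h {k : Type} [Field k] [DecidableEq k] [CharZero k] [IsAlgClosed k] (j : k →+* ℂ) {A B A' B' e t u : k}
    (h : VI A B A' B' e t u) (L : PeriodPair) (g2 : L.g₂ = -4 * j A) (g3 : L.g₃ = -4 * j B) (E E' : WeierstrassCurve k)
    (hE : E = WAB A B) (hE' : E' = WAB A' B') : ∃ Φ : E.toAffine.Point →+ E'.toAffine.Point, IsH e t u Φ := by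
  subst hE hE'
  obtain ⟨Φ, hΦ⟩ := exists_v h
  have hadd := v_add j h L g2 g3 hΦ
  refine ⟨AddMonoidHom.mk' Φ hadd, hΦ.ker, hΦ.ne, hΦ.x, hΦ.y, v_surj h hΦ, ?_⟩
  intro P hP
  have hP' : Φ P = 0 := hP
  by_cases h0 : P = 0
  · rw [h0, nsmul_zero]
  · refine six_pt h h0 ?_
    by_contra hx
    exact hΦ.ne P h0 hx hP'

variable {K : Type} [Field K] {Ω : Type} [Field Ω] [DecidableEq Ω] [Algebra K Ω]

/-- Chunk V6 (M). The equations A' = lam^4 A'', B' = lam^6 B'' over Ω: exists_h for the images of A, B, lam^4 A'', lam^6 B'', e, t, u in Ω (vi_map; (WAB A B)⁄Ω = WAB (image) (image): ext), E = (WAB A B)⁄Ω, E' = (WAB (lam^4 A'') (lam^6 B''))⁄Ω; then Θ from H55K.MG.vc_iso for VC E' ((WAB A'' B'')⁄Ω) lam 0 0 0 (both discriminants are not 0): xc P = lam^2 xc (Θ P), yc P = lam^3 yc (Θ P).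
Φ = Θ ∘ Φ₀. gal: P = 0 clear; xc P = e: xc (ac s P) = s (xc P) = e (H55K.MG.ac_crd or CC.c27_xc, CC.c27_ne), both sides are 0; otherwise compare the coordinates of the two nonzero points (lam^2 x and lam^3 y; s fixes the image of K). -/
theorem exists_W [CharZero Ω] [IsAlgClosed Ω] (j : Ω →+* ℂ) (L : PeriodPair) {A B A'' B'' e t u lam : K} (hl : lam ≠ 0)
    (h : VI A B (lam ^ 4 * A'') (lam ^ 6 * B'') e t u) (g2 : L.g₂ = -4 * j (algebraMap K Ω A))
    (g3 : L.g₃ = -4 * j (algebraMap K Ω B)) : ∃ Φ : Pt (WAB A B) Ω →+ Pt (WAB A'' B'') Ω, IsW A B A'' B'' e t u lam Φ := by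
  classical
  set a : K →+* Ω := algebraMap K Ω with ha
  have hv := vi_map a h
  have hla : a lam ≠ 0 := (map_ne_zero a).2 hl
  have hE : (WAB A B)⁄Ω = WAB (a A) (a B) := by
    ext
    · exact map_zero a
    · exact map_zero a
    · exact map_zero a
    · rfl
    · rfl
  obtain ⟨Φ₀, h₀⟩ := exists_h j hv L g2 g3 ((WAB A B)⁄Ω) (WAB (a (lam ^ 4 * A'')) (a (lam ^ 6 * B''))) hE rfl
  -- the scaling
  have hVC : VC (WAB (a (lam ^ 4 * A'')) (a (lam ^ 6 * B''))) ((WAB A'' B'')⁄Ω) (a lam) 0 0 0 := by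
    refine ⟨hla, ?_, ?_, ?_, ?_, ?_⟩
    · show a lam * a 0 = 0 + 2 * 0
      rw [map_zero]; ring
    · show a lam ^ 2 * a 0 = 0 - 0 * 0 + 3 * 0 - 0 ^ 2
      rw [map_zero]; ring
    · show a lam ^ 3 * a 0 = 0 + 0 * 0 + 2 * 0
      rw [map_zero]; ring
    · show a lam ^ 4 * a A'' = a (lam ^ 4 * A'') - 0 * 0 + 2 * 0 * 0 - (0 + 0 * 0) * 0 + 3 * 0 ^ 2 - 2 * 0 * 0
      rw [map_mul, map_pow]; ring
    · show a lam ^ 6 * a B'' = a (lam ^ 6 * B'') + 0 * a (lam ^ 4 * A'') + 0 ^ 2 * 0 + 0 ^ 3 - 0 * 0 - 0 ^ 2 - 0 * 0 * 0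
      rw [map_mul, map_pow]; ring
  have hd1 : (WAB (a (lam ^ 4 * A'')) (a (lam ^ 6 * B''))).Δ ≠ 0 := by
    rw [v6_delta]
    exact mul_ne_zero (by norm_num) hv.disc'
  have hd2 : ((WAB A'' B'')⁄Ω).Δ ≠ 0 := by
    have e1 : ((WAB A'' B'')⁄Ω).Δ = a (WAB A'' B'').Δ := (WAB A'' B'').map_Δ _
    rw [e1]
    refine (map_ne_zero a).2 ?_
    rw [v6_delta]
    have h16 : (-16 : K) ≠ 0 := by
      intro h0
      have h1 := congrArg a h0
      rw [map_neg, map_ofNat, map_zero] at h1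
      norm_num at h1
    refine mul_ne_zero h16 fun h0 => h.disc' ?_
    linear_combination lam ^ 12 * h0
  obtain ⟨Θ, hΘ⟩ := H55K.MG.vc_iso hVC hd1 hd2
  set Φ : Pt (WAB A B) Ω →+ Pt (WAB A'' B'') Ω := Θ.toAddMonoidHom.comp Φ₀ with hΦ
  have hΦ1 : ∀ P, Φ P = Θ (Φ₀ P) := fun P => rfl
  have hne : ∀ P, P ≠ 0 → xc P ≠ a e → Φ P ≠ 0 := by
    intro P hP hx
    rw [hΦ1]
    exact (hΘ _ (h₀.ne P hP hx)).1
  have hx : ∀ P, P ≠ 0 → xc P ≠ a e → a lam ^ 2 * xc (Φ P) = vx (a e) (a t) (a u) (xc P) := by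
    intro P hP hx
    rw [hΦ1, ← h₀.x P hP hx, (hΘ _ (h₀.ne P hP hx)).2.1, add_zero]
  have hy : ∀ P, P ≠ 0 → xc P ≠ a e → a lam ^ 3 * yc (Φ P) = vd (a e) (a t) (a u) (xc P) * yc P := by
    intro P hP hx
    rw [hΦ1, ← h₀.y P hP hx, (hΘ _ (h₀.ne P hP hx)).2.2]
    ring
  have hker : ∀ P, P ≠ 0 → xc P = a e → Φ P = 0 := by
    intro P hP hx
    rw [hΦ1, h₀.ker P hP hx, map_zero]
  refine ⟨Φ, hker, hne, hx, ?_, ?_, ?_⟩
  · intro Q
    obtain ⟨P, hP⟩ := h₀.surj (Θ.symm Q)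
    refine ⟨P, ?_⟩
    rw [hΦ1, hP, AddEquiv.apply_symm_apply]
  · intro P hP
    apply h₀.six
    rw [hΦ1] at hP
    exact (map_eq_zero_iff Θ Θ.injective).1 hP
  · intro s P
    by_cases hP : P = 0
    · rw [hP, map_zero, map_zero, map_zero]
    · have hsP := H55K.CC.c27_ne (WAB A B) s hP
      have hsx := H55K.CC.c27_xc (WAB A B) s P
      have hsy := H55K.CC.c27_yc (WAB A B) s P
      by_cases hxe : xc P = a e
      · rw [hker P hP hxe, map_zero]
        apply hker _ hsP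
        rw [hsx, hxe]
        exact s.commutes e
      · have hxe' : xc (ac (WAB A B) s P) ≠ a e := by
          rw [hsx]
          intro h0
          apply hxe
          apply s.injective
          rw [h0]
          exact (s.commutes e).symm
        have b1 := hx P hP hxe
        have b2 := hx _ hsP hxe'
        have b3 := hy P hP hxe
        have b4 := hy _ hsP hxe'
        have c1 := congrArg s b1
        have c2 := congrArg s b3
        have sc : ∀ z : K, s (a z) = a z := fun z => s.commutes z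
        have hlz : s (a lam) = a lam := sc lam
        refine H55K.CC.c14_ext (hne _ hsP hxe') (H55K.CC.c27_ne (WAB A'' B'') s (hne P hP hxe)) ?_ ?_
        · rw [H55K.CC.c27_xc]
          apply mul_left_cancel₀ (pow_ne_zero 2 hla)
          rw [b2, hsx]
          rw [map_mul, map_pow, hlz] at c1
          rw [c1]
          unfold vx
          simp only [map_add, map_div₀, map_sub, map_pow, sc]
        · rw [H55K.CC.c27_yc]
          apply mul_left_cancel₀ (pow_ne_zero 3 hla)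
          rw [b4, hsx, hsy]
          rw [map_mul, map_pow, hlz] at c2
          rw [c2]
          unfold vd
          simp only [map_mul, map_div₀, map_sub, map_pow, map_one, map_ofNat, sc]

end H28I
end

-- from Lib.H28I.K1
section

/-! # H28I, part K: the isogeny over a number field -/

open NumberField IsDedekindDomain WeierstrassCurve

namespace H28I

open H55P (IQ embF eF LF Per IsHecke Pt ac Inert Dec Nm)
open H35P (WAB Ker tt GoodW IntW)
open H55K (xc yc)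

theorem k1_cur (W : WeierstrassCurve ℤ) (K : Type) [Field K] [NumberField K] : (W⁄(𝓞 K))⁄K = W⁄K := by
  show (W.map (algebraMap ℤ (𝓞 K))).map (algebraMap (𝓞 K) K) = W.map (algebraMap ℤ K)
  rw [WeierstrassCurve.map_map]
  congr 1

/-- Chunk K1 (S). H13D.exists_model (B3.lean) for K instead of F, W₀ = W⁄(𝓞 K), (W⁄(𝓞 K))⁄K = W⁄K (see H55K.TQ.cur_eq in FB3A.lean); the c₄, c₆ of W⁄(𝓞 K) are the images of integers. -/
theorem model_K (W : WeierstrassCurve ℤ) (hΔ : W.Δ ≠ 0) (K : Type) [Field K] [NumberField K] (Ω : Type) [Field Ω] [DecidableEq Ω]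
    [Algebra K Ω] : ∃ Θ : Pt (WAB (sA W K) (sB W K)) Ω ≃+ Pt (W⁄K) Ω,
      ∀ (s : Ω ≃ₐ[K] Ω) (P : Pt (WAB (sA W K) (sB W K)) Ω), Θ (ac (WAB (sA W K) (sB W K)) s P) = ac (W⁄K) s (Θ P) := by
  have hA : sA W K = -(algebraMap (𝓞 K) K (W⁄(𝓞 K)).c₄) / 48 := by
    have e1 : (W⁄(𝓞 K)).c₄ = algebraMap ℤ (𝓞 K) W.c₄ := W.map_c₄ _
    rw [e1, sA]
    simp
  have hB : sB W K = -(algebraMap (𝓞 K) K (W⁄(𝓞 K)).c₆) / 864 := by
    have e1 : (W⁄(𝓞 K)).c₆ = algebraMap ℤ (𝓞 K) W.c₆ := W.map_c₆ _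
    rw [e1, sB]
    simp
  have hd : (W⁄(𝓞 K)).Δ ≠ 0 := by
    have e1 : (W⁄(𝓞 K)).Δ = algebraMap ℤ (𝓞 K) W.Δ := W.map_Δ _
    rw [e1]
    simpa using hΔ
  have h := H13D.exists_model (Ω := Ω) (W⁄(𝓞 K)) hA hB hd
  rw [k1_cur W K] at h
  obtain ⟨Θ, -, hΘ⟩ := h
  exact ⟨Θ, hΘ⟩

/-- Chunk K1 (S). Apply algebraMap ℚ K (vi_map in V4.lean); the images of sA W ℚ, sB W ℚ are sA W K, sB W K (map_intCast, map_div₀). -/
theorem vi_K {W W' : WeierstrassCurve ℤ} {kap : ℤ} {e t u lam : ℚ} (h : IP W W' kap e t u lam) (K : Type) [Field K] [CharZero K] [DecidableEq K] :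
    VI (sA W K) (sB W K) ((lam : K) ^ 4 * sA W' K) ((lam : K) ^ 6 * sB W' K) (e : K) (t : K) (u : K) := by
  have h1 := vi_map (Rat.castHom K) h.vi
  have eA : ∀ W : WeierstrassCurve ℤ, Rat.castHom K (sA W ℚ) = sA W K := by
    intro W
    simp [sA]
  have eB : ∀ W : WeierstrassCurve ℤ, Rat.castHom K (sB W ℚ) = sB W K := by
    intro W
    simp [sB]
  rw [map_mul, map_mul, map_pow, map_pow, eA, eA, eB, eB] at h1
  exact h1

/-- Chunk K1 (S). 1728 Δ = c₄^3 - c₆^2, so Δ = -16 (4 A^3 + 27 B^2) for A = -c₄/48, B = -c₆/864; the discriminants in vi are not 0. -/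
theorem disc_ne {W W' : WeierstrassCurve ℤ} {kap : ℤ} {e t u lam : ℚ} (h : IP W W' kap e t u lam) : W.Δ ≠ 0 ∧ W'.Δ ≠ 0 := by
  have key : ∀ W : WeierstrassCurve ℤ, (W.Δ : ℚ) = -16 * (4 * sA W ℚ ^ 3 + 27 * sB W ℚ ^ 2) := by
    intro W
    have h1 := W.c_relation
    have h2 : (1728 : ℚ) * (W.Δ : ℚ) = (W.c₄ : ℚ) ^ 3 - (W.c₆ : ℚ) ^ 2 := by
      exact_mod_cast h1
    rw [sA, sB]
    linear_combination h2 / 1728
  constructor
  · intro h0
    have h1 := key W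
    rw [h0, Int.cast_zero] at h1
    have h2 := h.vi.disc
    apply h2
    linarith
  · intro h0
    have h1 := key W'
    rw [h0, Int.cast_zero] at h1
    have h2 := h.vi.disc'
    apply h2
    have h3 : 4 * sA W' ℚ ^ 3 + 27 * sB W' ℚ ^ 2 = 0 := by linarith
    linear_combination lam ^ 12 * h3

theorem k1_exj (K : Type) [Field K] [NumberField K] : ∃ j : AlgebraicClosure K →+* ℂ, True := by
  obtain ⟨i⟩ : Nonempty (K →+* ℂ) := inferInstance
  letI : Algebra K ℂ := i.toAlgebra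
  let j : AlgebraicClosure K →ₐ[K] ℂ := IsAlgClosed.lift
  exact ⟨j.toRingHom, trivial⟩

open Classical in
/-- Chunk K1 (M). Ω = the algebraic closure; j : Ω → ℂ (an embedding of K in ℂ exists: NumberField, and IsAlgClosed.lift; see H55K.exists_j). exists_W (V6.lean) for A = sA W K, A'' = sA W' K and so on (vi_K), L.g₂ = c₄/12 = -4 j(A). Φ' = Θ' ∘ Φ ∘ Θ⁻¹ with model_K for W and W'; iso6_of_surj (C1.lean). -/
theorem iso6_of {W W' : WeierstrassCurve ℤ} {kap : ℤ} {e t u lam : ℚ} (h : IP W W' kap e t u lam) {L : PeriodPair}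
    (hL : H55K.TQ.PerZ W L) (K : Type) [Field K] [NumberField K] : Iso6 (W⁄K) (W'⁄K) (AlgebraicClosure K) := by
  obtain ⟨j, -⟩ := k1_exj K
  obtain ⟨hd1, hd2⟩ := disc_ne h
  have hl : (lam : K) ≠ 0 := by
    exact_mod_cast h.lam0
  have hg2 : L.g₂ = -4 * j (algebraMap K (AlgebraicClosure K) (sA W K)) := by
    rw [hL.g2, sA]
    simp only [map_div₀, map_neg, map_intCast, map_ofNat]
    ring
  have hg3 : L.g₃ = -4 * j (algebraMap K (AlgebraicClosure K) (sB W K)) := by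
    rw [hL.g3, sB]
    simp only [map_div₀, map_neg, map_intCast, map_ofNat]
    ring
  haveI : CharZero (AlgebraicClosure K) := charZero_of_injective_algebraMap (algebraMap K (AlgebraicClosure K)).injective
  obtain ⟨Φ, hΦ⟩ := exists_W (Ω := AlgebraicClosure K) j L hl (vi_K h K) hg2 hg3
  obtain ⟨Θ, hΘ⟩ := model_K W hd1 K (AlgebraicClosure K)
  obtain ⟨Θ', hΘ'⟩ := model_K W' hd2 K (AlgebraicClosure K)
  have hinv : ∀ (s : AlgebraicClosure K ≃ₐ[K] AlgebraicClosure K) (P : Pt (W⁄K) (AlgebraicClosure K)),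
      Θ.symm (ac (W⁄K) s P) = ac (WAB (sA W K) (sB W K)) s (Θ.symm P) := by
    intro s P
    apply Θ.injective
    rw [AddEquiv.apply_symm_apply, hΘ, AddEquiv.apply_symm_apply]
  refine iso6_of_surj (Θ'.toAddMonoidHom.comp (Φ.comp Θ.symm.toAddMonoidHom)) ?_ ?_ ?_
  · intro P
    obtain ⟨Q, hQ⟩ := Θ'.surjective P
    obtain ⟨R, hR⟩ := hΦ.surj Q
    refine ⟨Θ R, ?_⟩
    show Θ' (Φ (Θ.symm (Θ R))) = P
    rw [AddEquiv.symm_apply_apply, hR, hQ]
  · intro P hP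
    have h1 : Θ' (Φ (Θ.symm P)) = 0 := hP
    have h2 : Φ (Θ.symm P) = 0 := by
      apply Θ'.injective
      rw [h1, map_zero]
    have h3 := hΦ.six _ h2
    rw [← map_nsmul] at h3
    apply Θ.symm.injective
    rw [h3, map_zero]
  · intro s P
    show Θ' (Φ (Θ.symm (ac (W⁄K) s P))) = ac (W'⁄K) s (Θ' (Φ (Θ.symm P)))
    rw [hinv, hΦ.gal, hΘ']

end H28I
end

-- from Lib.H28I.E6
section

/-! # H28I, part E: integrality of the isogeny -/

open NumberField IsDedekindDomain WeierstrassCurve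

namespace H28I

open H55P (IQ embF eF LF Per IsHecke Pt ac Inert Dec Nm)
open H35P (WAB Ker tt GoodW IntW)
open H55K (xc yc)
open H13D
open H55K (CMA ak)

variable {F : Type} [Field F] [NumberField F] {Ω : Type} [Field Ω] [DecidableEq Ω] [Algebra F Ω] {V : ValuationSubring Ω}

/-- The data of the isogeny are integral at V. -/
structure IntA (W W' : WeierstrassCurve ℤ) (V : ValuationSubring Ω) (e t u lam : ℚ) : Prop where
  vlam : V.valuation (lam : Ω) = 1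
  ve : V.valuation ((e : Ω) - (W.b₂ : Ω) / 12) ≤ 1
  vt : V.valuation (t : Ω) ≤ 1
  vu : V.valuation (u : Ω) ≤ 1
  vrho : V.valuation ((lam : Ω) ^ 2 * ((W'.b₂ : Ω) / 12) - (W.b₂ : Ω) / 12) ≤ 1

theorem e6_int {v : HeightOneSpectrum (𝓞 F)}
    (hv : ∀ a : 𝓞 F, a ∈ v.asIdeal → V.valuation (ak Ω a) < 1) {n : ℤ} (hn : (n : 𝓞 F) ∉ v.asIdeal) :
    V.valuation (n : Ω) = 1 := by
  have h1 := H55K.TQ.t8_val hv hn
  rwa [show ak Ω ((n : ℤ) : 𝓞 F) = (n : Ω) by simp [ak]] at h1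

theorem e6_lt {v : HeightOneSpectrum (𝓞 F)}
    (hv : ∀ a : 𝓞 F, a ∈ v.asIdeal → V.valuation (ak Ω a) < 1) {n : ℤ} (hn : (n : 𝓞 F) ∈ v.asIdeal) :
    V.valuation (n : Ω) < 1 := by
  have h1 := hv _ hn
  rwa [show ak Ω ((n : ℤ) : 𝓞 F) = (n : Ω) by simp [ak]] at h1

theorem e6_le (n : ℤ) : V.valuation (n : Ω) ≤ 1 :=
  (V.valuation_le_one_iff _).2 (intCast_mem V n)

theorem e6_delta (W : WeierstrassCurve ℤ) (R : Type) [CommRing R] : (W⁄R).Δ = (W.Δ : R) := by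
  have h1 : (W⁄R).Δ = algebraMap ℤ R W.Δ := W.map_Δ _
  rw [h1]
  simp

theorem e6_pt {k : Type} [Field k] [IsAlgClosed k] {A B : k} (hd : 4 * A ^ 3 + 27 * B ^ 2 ≠ 0) [CharZero k] (e : k)
    (E : WeierstrassCurve k) (hE : E = WAB A B) : ∃ T : E.toAffine.Point, T ≠ 0 ∧ xc T = e := by
  subst hE
  obtain ⟨y, hy⟩ := IsAlgClosed.exists_pow_nat_eq (e ^ 3 + A * e + B) (show 0 < 2 by norm_num)
  have h1 : (WAB A B).toAffine.Equation e y := by
    rw [Affine.equation_iff]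
    simp only [WAB]
    linear_combination hy
  have h2 : (WAB A B).Δ ≠ 0 := by
    have h3 : (WAB A B).Δ = -16 * (4 * A ^ 3 + 27 * B ^ 2) := by
      simp only [WAB, WeierstrassCurve.Δ, WeierstrassCurve.b₂, WeierstrassCurve.b₄, WeierstrassCurve.b₆, WeierstrassCurve.b₈]
      ring
    rw [h3]
    exact mul_ne_zero (by norm_num) hd
  refine ⟨Affine.Point.some e y ((Affine.equation_iff_nonsingular_of_Δ_ne_zero h2).1 h1), ?_, rfl⟩
  exact Affine.Point.some_ne_zero _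

theorem e6_two {k : Type} [Field k] [DecidableEq k] [CharZero k] {A B e : k} (he : e ^ 3 + A * e + B = 0)
    (E : WeierstrassCurve k) (hE : E = WAB A B) {P : E.toAffine.Point} (h0 : P ≠ 0) (hx : xc P = e) : (2 : ℕ) • P = 0 := by
  subst hE
  exact two_pt he h0 hx

theorem e6_three {k : Type} [Field k] [DecidableEq k] [CharZero k] {A B e : k} (hd : 4 * A ^ 3 + 27 * B ^ 2 ≠ 0)
    (h3 : 3 * e ^ 4 + 6 * A * e ^ 2 + 12 * B * e - A ^ 2 = 0)
    (E : WeierstrassCurve k) (hE : E = WAB A B) {P : E.toAffine.Point} (h0 : P ≠ 0) (hx : xc P = e) : (3 : ℕ) • P = 0 := by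
  subst hE
  exact three_pt hd h3 h0 hx

theorem e6_eq (W : WeierstrassCurve ℤ) : (WAB (sA W F) (sB W F))⁄Ω = WAB (sA W Ω) (sB W Ω) := by
  ext
  · exact map_zero (algebraMap F Ω)
  · exact map_zero (algebraMap F Ω)
  · exact map_zero (algebraMap F Ω)
  · show algebraMap F Ω (sA W F) = sA W Ω
    simp only [sA, map_div₀, map_neg, map_intCast, map_ofNat]
  · show algebraMap F Ω (sB W F) = sB W Ω
    simp only [sB, map_div₀, map_neg, map_intCast, map_ofNat]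

/-- Chunk E6 (S/M). v above V. An integer n with (n : 𝓞 F) not in v has value 1 (H55K.TQ.t8_val in T8.lean), in v value < 1. W.Δ, W'.Δ have value 1 (map_Δ); kap divides W.Δ^n, so V(kap) = 1; quo (cast to Ω): V(lam)^12 = 1, so V(lam) = 1 (pow_eq_one_iff / linear order). -/
theorem lam_unit {W W' : WeierstrassCurve ℤ} {kap : ℤ} {e t u lam : ℚ} (h : IP W W' kap e t u lam) {v : HeightOneSpectrum (𝓞 F)}
    (hv : ∀ a : 𝓞 F, a ∈ v.asIdeal → V.valuation (ak Ω a) < 1) (hΔ : (W⁄(𝓞 F)).Δ ∉ v.asIdeal) (hΔ' : (W'⁄(𝓞 F)).Δ ∉ v.asIdeal) :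
    V.valuation (lam : Ω) = 1 := by
  have hz := fun n : ℤ => e6_int (Ω := Ω) hv (n := n)
  have : CharZero Ω := charZero_of_injective_algebraMap (algebraMap F Ω).injective
  rw [e6_delta] at hΔ hΔ'
  have h1 : V.valuation (W.Δ : Ω) = 1 := hz _ hΔ
  have h2 : V.valuation (W'.Δ : Ω) = 1 := hz _ hΔ'
  have h3 : V.valuation (kap : Ω) = 1 := by
    apply hz
    intro hk
    obtain ⟨n, c, hc⟩ := h.kd
    have h4 : ((W.Δ : ℤ) : 𝓞 F) ^ n ∈ v.asIdeal := by
      have h5 : ((W.Δ : ℤ) : 𝓞 F) ^ n = (kap : 𝓞 F) * (c : 𝓞 F) := by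
        exact_mod_cast congrArg (fun z : ℤ => (z : 𝓞 F)) hc
      rw [h5]
      exact Ideal.mul_mem_right _ _ hk
    exact hΔ (v.isPrime.mem_of_pow_mem _ h4)
  have h6 : (lam : Ω) ^ 12 * (W'.Δ : Ω) = (kap : Ω) * (W.Δ : Ω) := by
    have := congrArg (fun z : ℚ => (z : Ω)) h.quo
    push_cast at this
    exact this
  have h7 := congrArg V.valuation h6
  rw [map_mul, map_mul, map_pow, h1, h2, h3, mul_one, mul_one] at h7
  exact (pow_eq_one_iff.1 h7).resolve_right (by norm_num)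

/-- Chunk E6 (M). A point T ≠ 0 with xc T = e exists (y with y^2 = e^3 + A e + B, Ω algebraically closed; or it is given: only the statement for all T is needed, and e₀ from a T). Cases of h.vi.cs (cast to Ω; vi_K in K1.lean style).
Case 2 (u = 4 f(e), degree 3; u ≠ 0 by f_ne in V0.lean): h.three: 3 divides Δ, so V(3) = 1 (otherwise 3 is in v: t8_val; 3 divides Δ: Δ in v). q = 3, q • T = 0 (three_pt). T is not in Kg (hR.tors), V(e₀) ≤ 1 (hR.int; xn 1 r T = e - b₂/12). tu_int.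
Case 1 (u = 0, degree 2), q = 2 (two_pt). If V(2) = 1: the same. If V(2) < 1: 2 is in v, so 2 does not divide Δ; h.two: b₂ is odd (V(b₂) = 1: odd integers have value 1, 2 a + 1) and t = a/b with b odd, so V(t) ≤ 1: e0_ord gives V(e₀) ≤ 1, T is not in Kg (hR.big). tu_int. In all cases rho_int. -/
theorem int_all [IsAlgClosed Ω] {W W' : WeierstrassCurve ℤ} {kap : ℤ} {e t u lam : ℚ} (h : IP W W' kap e t u lam) {v : HeightOneSpectrum (𝓞 F)}
    (hv : ∀ a : 𝓞 F, a ∈ v.asIdeal → V.valuation (ak Ω a) < 1) (hΔ : (W⁄(𝓞 F)).Δ ∉ v.asIdeal) (hΔ' : (W'⁄(𝓞 F)).Δ ∉ v.asIdeal)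
    {Kg : AddSubgroup (Pt (WAB (sA W F) (sB W F)) Ω)} (hR : RM (sA W F) (sB W F) V Kg 1 ((W.b₂ : Ω) / 12)) :
    IntA W W' V e t u lam ∧ ∃ q : ℕ, 0 < q ∧ ∀ T : Pt (WAB (sA W F) (sB W F)) Ω, T ≠ 0 → xc T = (e : Ω) → T ∉ Kg ∧ q • T = 0 := by
  have hl := lam_unit h hv hΔ hΔ'
  have : CharZero Ω := charZero_of_injective_algebraMap (algebraMap F Ω).injective
  have hVI := vi_K h Ω
  have hE := e6_eq (F := F) (Ω := Ω) W
  rw [e6_delta] at hΔ
  obtain ⟨T₀, hT0, hTx⟩ := e6_pt hVI.disc (e : Ω) _ hE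
  have hxn : ∀ T : Pt (WAB (sA W F) (sB W F)) Ω, xc T = (e : Ω) →
      xn 1 ((W.b₂ : Ω) / 12) T = (e : Ω) - (W.b₂ : Ω) / 12 := by
    intro T hT
    unfold xn
    rw [hT]
    simp
  -- from an estimate of e and the points to everything
  have hfin : V.valuation ((e : Ω) - (W.b₂ : Ω) / 12) ≤ 1 →
      ((u : Ω) = 0 → V.valuation (2 : Ω) = 1 ∨ V.valuation (t : Ω) ≤ 1) → IntA W W' V e t u lam := by
    intro h1 h2
    obtain ⟨ht, hu⟩ := tu_int W hVI h1 h2
    exact ⟨hl, h1, ht, hu, rho_int W W' hVI.hA hVI.hB hl h1 ht hu⟩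
  have hq : ∀ q : ℕ, V.valuation (q : Ω) = 1 → (∀ T : Pt (WAB (sA W F) (sB W F)) Ω, T ≠ 0 → xc T = (e : Ω) → q • T = 0) →
      (∀ T : Pt (WAB (sA W F) (sB W F)) Ω, T ≠ 0 → xc T = (e : Ω) → T ∉ Kg ∧ q • T = 0) ∧
        V.valuation ((e : Ω) - (W.b₂ : Ω) / 12) ≤ 1 := by
    intro q hq1 hq2
    have h1 : ∀ T : Pt (WAB (sA W F) (sB W F)) Ω, T ≠ 0 → xc T = (e : Ω) → T ∉ Kg ∧ q • T = 0 := by
      intro T h0 hx
      refine ⟨fun hK => h0 (hR.tors q hq1 T hK (hq2 T h0 hx)), hq2 T h0 hx⟩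
    refine ⟨h1, ?_⟩
    rw [← hxn T₀ hTx]
    exact hR.int T₀ (h1 T₀ hT0 hTx).1
  have hdv : ∀ n : ℤ, n ∣ W.Δ → (n : 𝓞 F) ∉ v.asIdeal := by
    intro n hn hm
    obtain ⟨c, hc⟩ := hn
    apply hΔ
    rw [hc, Int.cast_mul]
    exact Ideal.mul_mem_right _ _ hm
  rcases hVI.cs with ⟨hu, he, ht⟩ | ⟨ht, hu, h3⟩
  · have hu' : u = 0 := by exact_mod_cast hu
    have h2p : ∀ T : Pt (WAB (sA W F) (sB W F)) Ω, T ≠ 0 → xc T = (e : Ω) → (2 : ℕ) • T = 0 := by
      intro T h0 hx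
      exact e6_two he _ hE h0 hx
    by_cases hV : V.valuation (2 : Ω) = 1
    · obtain ⟨h4, h5⟩ := hq 2 (by exact_mod_cast hV) h2p
      exact ⟨hfin h5 fun _ => Or.inl hV, 2, by norm_num, h4⟩
    · have h2v : ((2 : ℤ) : 𝓞 F) ∈ v.asIdeal := by
        by_contra hn
        exact hV (by exact_mod_cast e6_int (Ω := Ω) (V := V) hv hn)
      have hV2 : V.valuation (2 : Ω) < 1 := by
        exact_mod_cast e6_lt (Ω := Ω) (V := V) hv h2v
      have hnd : ¬ (2 : ℤ) ∣ W.Δ := fun hn => hdv _ hn h2v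
      have hodd : ∀ b : ℤ, ¬ (2 : ℤ) ∣ b → V.valuation (b : Ω) = 1 := by
        intro b hb
        apply e6_int hv
        intro hm
        obtain ⟨m, hm2⟩ : ∃ m, b = 2 * m + 1 := ⟨b / 2, by omega⟩
        apply v.isPrime.ne_top
        rw [Ideal.eq_top_iff_one]
        have h6 : (1 : 𝓞 F) = (b : 𝓞 F) - ((2 : ℤ) : 𝓞 F) * (m : 𝓞 F) := by
          rw [hm2]
          push_cast
          ring
        rw [h6]
        exact Ideal.sub_mem _ hm (Ideal.mul_mem_right _ _ h2v)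
      rcases h.two hu' with h7 | ⟨hb, a, b, hb2, htt⟩
      · exact absurd h7 hnd
      have htV : V.valuation (t : Ω) ≤ 1 := by
        rw [htt]
        push_cast
        rw [map_div₀, hodd b hb2, div_one]
        exact e6_le a
      have h5 : V.valuation ((e : Ω) - (W.b₂ : Ω) / 12) ≤ 1 := e0_ord W he ht hV2 (hodd _ hb) htV
      refine ⟨hfin h5 fun _ => Or.inr htV, 2, by norm_num, ?_⟩
      intro T h0 hx
      refine ⟨fun hK => ?_, h2p T h0 hx⟩
      have h8 := hR.big T hK h0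
      rw [hxn T hx] at h8
      exact absurd h5 (not_le.2 h8)
  · have hu0 : (u : Ω) ≠ 0 := by
      rw [hu]
      exact mul_ne_zero (by norm_num) (f_ne hVI.disc h3)
    have hu' : u ≠ 0 := by
      intro h9
      exact hu0 (by rw [h9]; simp)
    have hV : V.valuation (3 : Ω) = 1 := by
      exact_mod_cast e6_int (Ω := Ω) (V := V) hv (hdv 3 (h.three hu'))
    obtain ⟨h4, h5⟩ := hq 3 (by exact_mod_cast hV) (fun T h0 hx => e6_three hVI.disc h3 _ hE h0 hx)
    exact ⟨hfin h5 fun h9 => absurd h9 hu0, 3, by norm_num, h4⟩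

end H28I
end

-- from Lib.H28I.E7
section

/-! # H28I, part E: the isogeny and the kernels of reduction -/

open NumberField IsDedekindDomain WeierstrassCurve

namespace H28I

open H55P (IQ embF eF LF Per IsHecke Pt ac Inert Dec Nm)
open H35P (WAB Ker tt GoodW IntW)
open H55K (xc yc)
open H13D
open H55K (CMA ak)

variable {F : Type} [Field F] [NumberField F] {Ω : Type} [Field Ω] [DecidableEq Ω] [Algebra F Ω] {V : ValuationSubring Ω}
  {W W' : WeierstrassCurve ℤ} {e t u lam : ℚ} {Kg : AddSubgroup (Pt (WAB (sA W F) (sB W F)) Ω)}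
  {Kg' : AddSubgroup (Pt (WAB (sA W' F) (sB W' F)) Ω)}
  {Φ : Pt (WAB (sA W F) (sB W F)) Ω →+ Pt (WAB (sA W' F) (sB W' F)) Ω}

theorem e7_map (r : ℚ) : algebraMap F Ω (r : F) = (r : Ω) := map_ratCast _ _

theorem e7_xn {E : WeierstrassCurve F} (c : Ω) (X : Pt E Ω) : xn 1 c X = xc X - c := by
  simp [xn]

/-- Chunk E7 (S/M). Definition of xn, hΦ.x, vx: with x = xc X - b₂/12, e₀ = e - b₂/12, ρ = lam^2 b₂'/12 - b₂/12: lam^2 xc (Φ X) = xc X + t/(x - e₀) + u/(x - e₀)^2 and xc X = x + b₂/12. (algebraMap F Ω of a rational number is the rational number: map_ratCast.) -/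
theorem xn_phi (hΦ : IsW (sA W F) (sB W F) (sA W' F) (sB W' F) (e : F) (t : F) (u : F) (lam : F) Φ) (hl : (lam : Ω) ≠ 0)
    {X : Pt (WAB (sA W F) (sB W F)) Ω} (h0 : X ≠ 0) (hX : xc X ≠ (e : Ω)) :
    (lam : Ω) ^ 2 * xn 1 ((W'.b₂ : Ω) / 12) (Φ X) = xn 1 ((W.b₂ : Ω) / 12) X +
      (t : Ω) / (xn 1 ((W.b₂ : Ω) / 12) X - ((e : Ω) - (W.b₂ : Ω) / 12)) +
      (u : Ω) / (xn 1 ((W.b₂ : Ω) / 12) X - ((e : Ω) - (W.b₂ : Ω) / 12)) ^ 2 -
      ((lam : Ω) ^ 2 * ((W'.b₂ : Ω) / 12) - (W.b₂ : Ω) / 12) := by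
  have hx := hΦ.x X h0 (by rwa [e7_map])
  rw [e7_map, e7_map, e7_map, e7_map, vx] at hx
  rw [e7_xn, e7_xn]
  have h1 : xc X - (W.b₂ : Ω) / 12 - ((e : Ω) - (W.b₂ : Ω) / 12) = xc X - (e : Ω) := by ring
  rw [h1, mul_sub, hx]
  ring

theorem e7_big {x e₀ t u ρ : Ω} (he : V.valuation e₀ ≤ 1) (ht : V.valuation t ≤ 1) (hu : V.valuation u ≤ 1)
    (hρ : V.valuation ρ ≤ 1) (hx : 1 < V.valuation x) :
    V.valuation (x + t / (x - e₀) + u / (x - e₀) ^ 2 - ρ) = V.valuation x := by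
  have h1 : V.valuation (x - e₀) = V.valuation x := by
    exact V.valuation.map_sub_eq_of_lt_left (lt_of_le_of_lt he hx)
  have h2 : V.valuation (t / (x - e₀)) ≤ 1 := by
    rw [map_div₀, h1]
    exact div_le_one_of_le₀ (ht.trans hx.le) zero_le'
  have h3 : V.valuation (u / (x - e₀) ^ 2) ≤ 1 := by
    rw [map_div₀, map_pow, h1]
    exact div_le_one_of_le₀ (hu.trans (one_le_pow₀ hx.le)) zero_le'
  have h4 : V.valuation (t / (x - e₀) + u / (x - e₀) ^ 2 - ρ) ≤ 1 :=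
    V.valuation.map_sub_le (V.valuation.map_add_le h2 h3) hρ
  have h5 : x + t / (x - e₀) + u / (x - e₀) ^ 2 - ρ = x + (t / (x - e₀) + u / (x - e₀) ^ 2 - ρ) := by ring
  rw [h5]
  exact V.valuation.map_add_eq_of_lt_left (lt_of_le_of_lt h4 hx)

theorem e7_le {x e₀ t u ρ : Ω} (ht : V.valuation t ≤ 1) (hu : V.valuation u ≤ 1)
    (hρ : V.valuation ρ ≤ 1) (hx : V.valuation x ≤ 1) (he : V.valuation (x - e₀) = 1) :
    V.valuation (x + t / (x - e₀) + u / (x - e₀) ^ 2 - ρ) ≤ 1 := by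
  have h2 : V.valuation (t / (x - e₀)) ≤ 1 := by
    rw [map_div₀, he, div_one]
    exact ht
  have h3 : V.valuation (u / (x - e₀) ^ 2) ≤ 1 := by
    rw [map_div₀, map_pow, he, one_pow, div_one]
    exact hu
  exact V.valuation.map_sub_le (V.valuation.map_add_le (V.valuation.map_add_le hx h2) h3) hρ

/-- Chunk E7 (M). X = 0 clear. xc X = e: Φ X = 0 (hΦ.ker). Otherwise V(x) > 1 for x = xn X (hR.big), V(x - e₀) = V(x), so the terms t/.. and u/.. have value < 1, V(ρ) ≤ 1: V(xn (Φ X)) = V(x) > 1 (V(lam) = 1), so Φ X is in Kg' (hR'.int: otherwise V ≤ 1). -/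
theorem phi_in (hΦ : IsW (sA W F) (sB W F) (sA W' F) (sB W' F) (e : F) (t : F) (u : F) (lam : F) Φ) (hI : IntA W W' V e t u lam)
    (hR : RM (sA W F) (sB W F) V Kg 1 ((W.b₂ : Ω) / 12)) (hR' : RM (sA W' F) (sB W' F) V Kg' 1 ((W'.b₂ : Ω) / 12))
    {X : Pt (WAB (sA W F) (sB W F)) Ω} (hX : X ∈ Kg) : Φ X ∈ Kg' := by
  by_cases h0 : X = 0
  · rw [h0, map_zero]
    exact Kg'.zero_mem
  by_cases he : xc X = (e : Ω)
  · rw [hΦ.ker X h0 (by rw [e7_map, he])]
    exact Kg'.zero_mem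
  have hl : (lam : Ω) ≠ 0 := by
    intro h
    have h1 := hI.vlam
    rw [h, map_zero] at h1
    exact zero_ne_one h1
  have h1 := xn_phi hΦ hl h0 he
  have h2 := hR.big X hX h0
  have h3 := e7_big hI.ve hI.vt hI.vu hI.vrho h2
  rw [← h1, map_mul, map_pow, hI.vlam, one_pow, one_mul] at h3
  by_contra h4
  have h5 := hR'.int _ h4
  rw [h3] at h5
  exact absurd h2 (not_lt.2 h5)

/-- Chunk E7 (M). X in Kg clear. Otherwise X ≠ 0. xc X = e: q • X = 0 (hT). Otherwise Φ X ≠ 0 (hΦ.ne), V(xn (Φ X)) > 1 (hR'.big), V(x) ≤ 1 for x = xn X (hR.int), V(ρ) ≤ 1: so V(t/(x - e₀) + u/(x - e₀)^2) > 1, and V(x - e₀) ≤ 1, V(t), V(u) ≤ 1: V(x - e₀) < 1 (if it were 1 the sum would have value ≤ 1).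
T with xc T = e, T ≠ 0 (y with y^2 = e^3 + A e + B, IsAlgClosed; the curve is nonsingular: disc_ne style, hypothesis hd). T is not in Kg (hT), xn T = e₀: cls_of (H13D/A1.lean): X - T or X + T is in Kg, so q • X is in Kg. -/
theorem phi_ker [IsAlgClosed Ω] (hd : 4 * sA W F ^ 3 + 27 * sB W F ^ 2 ≠ 0)
    (hΦ : IsW (sA W F) (sB W F) (sA W' F) (sB W' F) (e : F) (t : F) (u : F) (lam : F) Φ) (hI : IntA W W' V e t u lam)
    (hR : RM (sA W F) (sB W F) V Kg 1 ((W.b₂ : Ω) / 12)) (hR' : RM (sA W' F) (sB W' F) V Kg' 1 ((W'.b₂ : Ω) / 12)) {q : ℕ}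
    (hT : ∀ T : Pt (WAB (sA W F) (sB W F)) Ω, T ≠ 0 → xc T = (e : Ω) → T ∉ Kg ∧ q • T = 0)
    {X : Pt (WAB (sA W F) (sB W F)) Ω} (hX : Φ X ∈ Kg') : q • X ∈ Kg := by
  by_cases hK : X ∈ Kg
  · exact Kg.nsmul_mem hK q
  have h0 : X ≠ 0 := by
    rintro rfl
    exact hK Kg.zero_mem
  by_cases he : xc X = (e : Ω)
  · rw [(hT X h0 he).2]
    exact Kg.zero_mem
  have hl : (lam : Ω) ≠ 0 := by
    intro h
    have h1 := hI.vlam
    rw [h, map_zero] at h1
    exact zero_ne_one h1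
  have h1 := xn_phi hΦ hl h0 he
  have h2 := hR.int X hK
  have h3 : 1 < V.valuation (xn 1 ((W'.b₂ : Ω) / 12) (Φ X)) := hR'.big _ hX (hΦ.ne X h0 (by rwa [e7_map]))
  have h4 : 1 < V.valuation ((lam : Ω) ^ 2 * xn 1 ((W'.b₂ : Ω) / 12) (Φ X)) := by
    rwa [map_mul, map_pow, hI.vlam, one_pow, one_mul]
  rw [h1] at h4
  have h5 : V.valuation (xn 1 ((W.b₂ : Ω) / 12) X - ((e : Ω) - (W.b₂ : Ω) / 12)) < 1 := by
    refine lt_of_le_of_ne (V.valuation.map_sub_le h2 hI.ve) fun h => ?_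
    exact absurd h4 (not_lt.2 (e7_le hI.vt hI.vu hI.vrho h2 h))
  -- the point T
  have hd' : 4 * sA W Ω ^ 3 + 27 * sB W Ω ^ 2 ≠ 0 := by
    intro h
    apply hd
    apply (algebraMap F Ω).injective
    rw [map_zero]
    simp only [map_add, map_mul, map_pow, map_ofNat, sA, sB, map_div₀, map_neg, map_intCast] at h ⊢
    exact h
  haveI : CharZero Ω := charZero_of_injective_algebraMap (algebraMap F Ω).injective
  obtain ⟨T, hT0, hTe⟩ := e6_pt hd' (e : Ω) _ (e6_eq (F := F) (Ω := Ω) W)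
  obtain ⟨hTK, hTq⟩ := hT T hT0 hTe
  have h6 : V.valuation (xn 1 ((W.b₂ : Ω) / 12) X - xn 1 ((W.b₂ : Ω) / 12) T) < 1 := by
    have h7 : xn 1 ((W.b₂ : Ω) / 12) T = (e : Ω) - (W.b₂ : Ω) / 12 := by
      rw [e7_xn, hTe]
    rw [h7]
    exact h5
  have h10 : X - T ∈ Kg ∨ X + T ∈ Kg := by
    by_contra hcon
    push Not at hcon
    have h11 := hR.diff X T hK hTK hcon.1 hcon.2
    rw [h11] at h6
    exact lt_irrefl _ h6
  rcases h10 with h8 | h8
  · have h9 := Kg.nsmul_mem h8 q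
    rwa [nsmul_sub, hTq, sub_zero] at h9
  · have h9 := Kg.nsmul_mem h8 q
    rwa [nsmul_add, hTq, add_zero] at h9

end H28I
end

-- from Lib.H28I.E8
section

/-! # H28I, part E: the numbers of points agree -/

open NumberField IsDedekindDomain WeierstrassCurve

namespace H28I

open H55P (IQ embF eF LF Per IsHecke Pt ac Inert Dec Nm)
open H35P (WAB Ker tt GoodW IntW)
open H55K (xc yc)
open H13D
open H55K (CMA ak)
open H55K.TQ

theorem e8_fin {k : Type} [Field k] [Finite k] (W : WeierstrassCurve k) : Finite W.toAffine.Point := by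
  let f : W.toAffine.Point → Option (k × k) := fun P => match P with
    | .zero => none
    | .some x y _ => some (x, y)
  apply Finite.of_injective f
  rintro (_ | ⟨x, y, h⟩) (_ | ⟨x', y', h'⟩) he
  · rfl
  · exact absurd he (by simp [f])
  · exact absurd he (by simp [f])
  · have h1 : (x, y) = (x', y') := Option.some.inj he
    rw [Prod.mk.injEq] at h1
    obtain ⟨rfl, rfl⟩ := h1
    rfl

/-- Chunk E8 (M). Ω = the algebraic closure of F, V above v and a Frobenius element s (H13S.exists_frob; see H13D.H3 or H55K/G10C.lean for the setup: exists_abw, exists_j, exists_CMA, the relation between hH.data.per and A = sA W F, B = sB W F as in bad_K, T10.lean). Kg, Kg' from exists_rmZ for W and W'. int_all, exists_W (V6.lean; vi_K in K1.lean for F; L from exists_perZ, perW_of: FB5.lean, QP1A.lean).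
count_grp with f = ac s, f' = ac s (Kg, Kg' are stable: ac_mem_iff in H13D/A8.lean, s (b₂/12) = b₂/12), phi_in, phi_ker, nsmul_surj, fin_nsmul (q^n > 0; q^n • c = 0), hfix: the number of classes is the number of points over a finite field, which is not 0 (Nat.card of a finite nonempty type; the points over a finite field are finitely many:
WeierstrassCurve.Affine.Point over a Finite field, see H55K/G9B or W-part), so the type is finite. Then the two formulas of exists_rmZ. -/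
theorem deu_iso {F : Type} [Field F] [NumberField F] [IQ F] {W W' : WeierstrassCurve ℤ} {Om : ℂ} {m : Ideal (𝓞 F)}
    {ψ : Ideal (𝓞 F) →*₀ 𝓞 F} (hH : BaseH F (W⁄(𝓞 F)) Om m ψ) {kap : ℤ} {e t u lam : ℚ} (h : IP W W' kap e t u lam)
    (v : HeightOneSpectrum (𝓞 F)) (hΔ : (W⁄(𝓞 F)).Δ ∉ v.asIdeal) (hΔ' : (W'⁄(𝓞 F)).Δ ∉ v.asIdeal) :
    Nat.card ((W'⁄(𝓞 F))⁄(𝓞 F ⧸ v.asIdeal)).toAffine.Point = Nat.card ((W⁄(𝓞 F))⁄(𝓞 F ⧸ v.asIdeal)).toAffine.Point := by
  classical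
  have hper := hH.data.per
  have eA : sA W F = -(algebraMap (𝓞 F) F (W⁄(𝓞 F)).c₄) / 48 := by
    have h1 : (W⁄(𝓞 F)).c₄ = algebraMap ℤ (𝓞 F) W.c₄ := WeierstrassCurve.map_c₄ W _
    rw [h1, sA]
    simp
  have eB : sB W F = -(algebraMap (𝓞 F) F (W⁄(𝓞 F)).c₆) / 864 := by
    have h1 : (W⁄(𝓞 F)).c₆ = algebraMap ℤ (𝓞 F) W.c₆ := WeierstrassCurve.map_c₆ W _
    rw [h1, sB]
    simp
  have hdisc : 4 * sA W F ^ 3 + 27 * sB W F ^ 2 ≠ 0 := H55K.y3_ne (W⁄(𝓞 F)) eA eB hH.data.ell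
  have hper' : Per F (embF F (sA W F)) (embF F (sB W F)) Om := by
    have e1 : embF F (sA W F) = -(eF F (W⁄(𝓞 F)).c₄) / 48 := by
      rw [eA, map_div₀, map_neg, map_ofNat]
      rfl
    have e2 : embF F (sB W F) = -(eF F (W⁄(𝓞 F)).c₆) / 864 := by
      rw [eB, map_div₀, map_neg, map_ofNat]
      rfl
    rw [e1, e2]
    exact hper
  let Ω := AlgebraicClosure F
  obtain ⟨j, hj⟩ := H55K.exists_j F Ω
  obtain ⟨act, hC⟩ := H55K.exists_CMA F (sA W F) (sB W F) Om j hdisc hper' hj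
  have : CharZero Ω := charZero_of_injective_algebraMap (algebraMap F Ω).injective
  obtain ⟨V, hV⟩ := H55K.exists_abw Ω v
  have hVv : ∀ a : 𝓞 F, a ∈ v.asIdeal → V.valuation (ak Ω a) < 1 := by
    intro a ha
    rw [hV.lt]
    exact (v.valuation_lt_one_iff_mem _).2 ha
  obtain ⟨s, hDec, hs⟩ := H13S.exists_frob v V hVv
  obtain ⟨Kg, hR, hcard⟩ := exists_rmZ (Ω := Ω) (V := V) W v hΔ hVv
  obtain ⟨Kg', hR', hcard'⟩ := exists_rmZ (Ω := Ω) (V := V) W' v hΔ' hVv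
  obtain ⟨hI, q, hq, hT⟩ := int_all h hVv hΔ hΔ' hR
  -- the isogeny
  obtain ⟨L, hL⟩ := exists_perZ (H55K.TQ.perW_of hH)
  have g2 : L.g₂ = -4 * j (algebraMap F Ω (sA W F)) := by
    rw [hL.g2, hj, sA, map_div₀, map_neg, map_ofNat, map_intCast]
    ring
  have g3 : L.g₃ = -4 * j (algebraMap F Ω (sB W F)) := by
    rw [hL.g3, hj, sB, map_div₀, map_neg, map_ofNat, map_intCast]
    ring
  have hlF : (lam : F) ≠ 0 := by
    intro h0
    exact h.lam0 (by exact_mod_cast h0)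
  obtain ⟨Φ, hΦ⟩ := exists_W (Ω := Ω) j L hlF (vi_K h F) g2 g3
  have hb : ∀ (E : WeierstrassCurve ℤ), s ((E.b₂ : Ω) / 12) = (E.b₂ : Ω) / 12 := by
    intro E
    rw [map_div₀, map_intCast, map_ofNat]
  have hcnt := count_grp Kg Kg' Φ hΦ.surj (ac (WAB (sA W F) (sB W F)) s) (ac (WAB (sA W' F) (sB W' F)) s)
    (fun X => hΦ.gal s X) (fun X hX => (ac_mem_iff hR s hDec (map_one s) (hb W) X).2 hX)
    (fun X hX => (ac_mem_iff hR' s hDec (map_one s) (hb W') X).2 hX)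
    (fun X hX => phi_in hΦ hI hR hR' hX) q (fun X hX => phi_ker hdisc hΦ hI hR hR' hT hX)
    (fun X => nsmul_surj hC hq X) (fun n => fin_nsmul hC hR (pow_pos hq n)) ?_
  · rw [hcard' s hDec hs, hcard s hDec hs]
    exact hcnt
  · have hvm := v.isMaximal
    let _ : Field (𝓞 F ⧸ v.asIdeal) := Ideal.Quotient.field v.asIdeal
    have : Finite (𝓞 F ⧸ v.asIdeal) := Ideal.finiteQuotientOfFreeOfNeBot _ v.ne_bot
    have := e8_fin ((W⁄(𝓞 F))⁄(𝓞 F ⧸ v.asIdeal))
    apply Nat.finite_of_card_ne_zero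
    rw [← hcard s hDec hs]
    have : Nonempty ((W⁄(𝓞 F))⁄(𝓞 F ⧸ v.asIdeal)).toAffine.Point := ⟨0⟩
    exact Nat.card_pos.ne'

end H28I
end

-- from Lib.H28I.L0
section

/-! # H28I, part L: the two curves -/

open NumberField IsDedekindDomain WeierstrassCurve

namespace H28I

open H55P (IQ embF eF LF Per IsHecke Pt ac Inert Dec Nm)
open H35P (WAB Ker tt GoodW IntW)
open H55K (xc yc)
open H55K.TQ

/-- W has CM by the integers of F (BaseH); W' is isogenous to W by an explicit isogeny over the rational numbers, its j-invariant is integral, and the primes of F dividing its discriminant are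
primes of bad reduction. -/
structure TW (F : Type) [Field F] [NumberField F] [IQ F] (W W' : WeierstrassCurve ℤ) (Om : ℂ) (m : Ideal (𝓞 F))
    (ψ : Ideal (𝓞 F) →*₀ 𝓞 F) (kap : ℤ) (e t u lam : ℚ) : Prop where
  base : BaseH F (W⁄(𝓞 F)) Om m ψ
  ip : IP W W' kap e t u lam
  jint : ∃ j₀ : ℤ, W'.c₄ ^ 3 = j₀ * W'.Δ
  bad' : ∀ v : HeightOneSpectrum (𝓞 F), (W'⁄(𝓞 F)).Δ ∈ v.asIdeal → ¬ H55K.GoodAt ((W'⁄(𝓞 F))⁄F) v

variable {F : Type} [Field F] [NumberField F] [IQ F] {W W' : WeierstrassCurve ℤ} {Om : ℂ} {m : Ideal (𝓞 F)}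
    {ψ : Ideal (𝓞 F) →*₀ 𝓞 F} {kap : ℤ} {e t u lam : ℚ} {p : ℕ}

/-- The base change in two steps. -/
theorem l0_eq (W : WeierstrassCurve ℤ) (F : Type) [Field F] [NumberField F] : (W⁄(𝓞 F))⁄F = W⁄F := by
  show (W.map (algebraMap ℤ (𝓞 F))).map (algebraMap (𝓞 F) F) = W.map (algebraMap ℤ F)
  rw [WeierstrassCurve.map_map]
  congr 1

/-- An equation over the integers with discriminant a unit at w is good at w. -/
theorem l0_good {K : Type} [Field K] [NumberField K] (W₀ : WeierstrassCurve (𝓞 K)) (w : HeightOneSpectrum (𝓞 K))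
    (h : W₀.Δ ∉ w.asIdeal) : H55K.GoodAt (W₀⁄K) w := by
  have h1 : (1 : VariableChange K) • (W₀⁄K) = W₀⁄K := one_smul _ _
  refine ⟨1, ?_⟩
  rw [h1]
  refine ⟨w.valuation_le_one _, w.valuation_le_one _, w.valuation_le_one _, w.valuation_le_one _, w.valuation_le_one _, ?_⟩
  have h2 : (W₀⁄K).Δ = algebraMap (𝓞 K) K W₀.Δ := W₀.map_Δ (algebraMap (𝓞 K) K)
  rw [h2]
  exact (w.valuation_eq_one_iff_notMem).2 h

/-- Coprime to a prime number. -/
theorem l0_cop (F : Type) [Field F] [NumberField F] (D : 𝓞 F) (p : ℕ) (hp : p ≠ 0) :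
    IsCoprime (Ideal.span {D}) (Ideal.span {(p : 𝓞 F)}) ↔
      ∀ v : HeightOneSpectrum (𝓞 F), D ∈ v.asIdeal → (p : 𝓞 F) ∉ v.asIdeal := by
  constructor
  · intro h v h1 h2
    rw [Ideal.isCoprime_iff_sup_eq] at h
    apply v.isPrime.ne_top
    rw [eq_top_iff, ← h]
    exact sup_le ((Ideal.span_singleton_le_iff_mem _).2 h1) ((Ideal.span_singleton_le_iff_mem _).2 h2)
  · intro h
    rw [Ideal.isCoprime_iff_sup_eq]
    by_contra hne
    obtain ⟨M, hM, hle⟩ := Ideal.exists_le_maximal _ hne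
    have h1 : D ∈ M := hle (Ideal.mem_sup_left (Ideal.mem_span_singleton_self D))
    have h2 : (p : 𝓞 F) ∈ M := hle (Ideal.mem_sup_right (Ideal.mem_span_singleton_self _))
    have hb : M ≠ ⊥ := by
      rintro rfl
      rw [Ideal.mem_bot] at h2
      exact hp (by exact_mod_cast h2)
    exact h ⟨M, hM.isPrime, hb⟩ h1 h2

open Classical in
/-- Chunk L0 (S). iso6_of with L from exists_perZ (perW_of h.base). -/
theorem tw_iso (h : TW F W W' Om m ψ kap e t u lam) (K : Type) [Field K] [NumberField K] :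
    Iso6 (W⁄K) (W'⁄K) (AlgebraicClosure K) := by
  obtain ⟨L, hL⟩ := exists_perZ (perW_of h.base)
  exact iso6_of h.ip hL K

/-- Chunk L0 (S/M). good_iso in both directions (tw_iso, iso6_symm; jint_Z in FB3C.lean for W, disc_ne). -/
theorem tw_good (h : TW F W W' Om m ψ kap e t u lam) (K : Type) [Field K] [NumberField K] (w : HeightOneSpectrum (𝓞 K)) :
    H55K.GoodAt (W'⁄K) w ↔ H55K.GoodAt (W⁄K) w := by
  classical
  obtain ⟨hW, hW'⟩ := disc_ne h.ip
  have h1 : (W⁄K).Δ ≠ 0 := by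
    have e : (W⁄K).Δ = algebraMap ℤ K W.Δ := W.map_Δ (algebraMap ℤ K)
    rw [e, eq_intCast]
    exact Int.cast_ne_zero.2 hW
  have h2 : (W'⁄K).Δ ≠ 0 := by
    have e : (W'⁄K).Δ = algebraMap ℤ K W'.Δ := W'.map_Δ (algebraMap ℤ K)
    rw [e, eq_intCast]
    exact Int.cast_ne_zero.2 hW'
  exact ⟨fun hg => good_iso h2 hW (jint_Z h.base) (iso6_symm (tw_iso h K)) w hg,
    fun hg => good_iso h1 hW' h.jint (tw_iso h K) w hg⟩

/-- Chunk L0 (S/M). An equation over the integers whose discriminant is not in v is good at v (the change of variables 1; the coefficients have valuation ≤ 1, the discriminant 1: HeightOneSpectrum.valuation_eq_one_iff_notMem). So if W.Δ is in v: W⁄F is bad (h.base.bad), W'⁄F is bad (tw_good for K = F), so W'.Δ is in v; conversely with h.bad'. -/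
theorem tw_supp (h : TW F W W' Om m ψ kap e t u lam) (v : HeightOneSpectrum (𝓞 F)) :
    (W'⁄(𝓞 F)).Δ ∈ v.asIdeal ↔ (W⁄(𝓞 F)).Δ ∈ v.asIdeal := by
  constructor
  · intro h1
    by_contra h2
    have h3 := l0_good _ v h2
    rw [l0_eq] at h3
    have h4 := h.bad' v h1
    rw [l0_eq] at h4
    exact h4 ((tw_good h F v).2 h3)
  · intro h1
    by_contra h2
    have h3 := l0_good _ v h2
    rw [l0_eq] at h3
    have h4 := h.base.bad v h1
    rw [l0_eq] at h4
    exact h4 ((tw_good h F v).1 h3)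

/-- Chunk L0 (S). deu_iso, h.base.deu. -/
theorem tw_deu (h : TW F W W' Om m ψ kap e t u lam) (v : HeightOneSpectrum (𝓞 F)) (hΔ : (W'⁄(𝓞 F)).Δ ∉ v.asIdeal) :
    Nat.card ((W'⁄(𝓞 F))⁄(𝓞 F ⧸ v.asIdeal)).toAffine.Point = Nat.card ((W⁄(𝓞 F))⁄(𝓞 F ⧸ v.asIdeal)).toAffine.Point ∧
      Nat.card ((W'⁄(𝓞 F))⁄(𝓞 F ⧸ v.asIdeal)).toAffine.Point = Nm (1 - ψ v.asIdeal) := by
  have h1 : (W⁄(𝓞 F)).Δ ∉ v.asIdeal := mt (tw_supp h v).2 hΔ
  have h2 := deu_iso h.base h.ip v h1 hΔ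
  exact ⟨h2, h2.trans (h.base.deu v h1)⟩

/-- Chunk L0 (S/M). A prime number p ≥ 5 unramified in F is coprime to the discriminant iff no prime v of F contains both (Ideal.isCoprime_iff_sup_eq, maximal ideals); tw_supp. -/
theorem tw_prime (h : TW F W W' Om m ψ kap e t u lam) : PrimeH F (W'⁄(𝓞 F)) p ↔ PrimeH F (W⁄(𝓞 F)) p := by
  constructor
  · rintro ⟨h1, h2, h3, h4⟩
    rw [l0_cop F _ p h1.ne_zero] at h4
    exact ⟨h1, h2, h3, (l0_cop F _ p h1.ne_zero).2 fun v hv => h4 v ((tw_supp h v).2 hv)⟩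
  · rintro ⟨h1, h2, h3, h4⟩
    rw [l0_cop F _ p h1.ne_zero] at h4
    exact ⟨h1, h2, h3, (l0_cop F _ p h1.ne_zero).2 fun v hv => h4 v ((tw_supp h v).1 hv)⟩

/-- Chunk L0 (S). Definition; tw_supp, tw_deu. -/
theorem tw_inPF (h : TW F W W' Om m ψ kap e t u lam) (K : Type) [Field K] [NumberField K] :
    InPF (W'⁄(𝓞 F)) p K ↔ InPF (W⁄(𝓞 F)) p K := by
  constructor
  · rintro ⟨L, i1, i2, i3, i4, hG, hk, hU, hall⟩
    refine ⟨L, i1, i2, i3, i4, hG, hk, hU, fun w v hv hΔ hp => hall w v hv (mt (tw_supp h v).1 hΔ) ?_⟩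
    rw [(tw_deu h v (mt (tw_supp h v).1 hΔ)).1]
    exact hp
  · rintro ⟨L, i1, i2, i3, i4, hG, hk, hU, hall⟩
    refine ⟨L, i1, i2, i3, i4, hG, hk, hU, fun w v hv hΔ hp => hall w v hv (mt (tw_supp h v).2 hΔ) ?_⟩
    rw [← (tw_deu h v hΔ).1]
    exact hp

end H28I
end

-- from Lib.H28I.N4
section

/-! # H28I, part N: bad reduction over F -/

open NumberField IsDedekindDomain WeierstrassCurve

namespace H28I

open H55P (IQ embF eF LF Per IsHecke Pt ac Inert Dec Nm)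
open H35P (WAB Ker tt GoodW IntW)
open H55K (xc yc)
open H13D
open H55K.TQ

section val

variable {K : Type} [Field K] [NumberField K] {v : HeightOneSpectrum (𝓞 K)}

theorem n4_int {l : ℕ} (hl : l.Prime) (hlv : (l : 𝓞 K) ∈ v.asIdeal) (n : ℤ) : (n : 𝓞 K) ∈ v.asIdeal ↔ (l : ℤ) ∣ n := by
  constructor
  · intro h
    by_contra hn
    obtain ⟨u, w, huw⟩ := (Nat.prime_iff_prime_int.1 hl).irreducible.coprime_iff_not_dvd.2 hn
    apply v.isPrime.ne_top
    rw [Ideal.eq_top_iff_one]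
    have h5 : (1 : 𝓞 K) = (u : 𝓞 K) * (l : 𝓞 K) + (w : 𝓞 K) * (n : 𝓞 K) := by
      have := congrArg (fun z : ℤ => (z : 𝓞 K)) huw
      push_cast at this
      exact this.symm
    rw [h5]
    exact v.asIdeal.add_mem (v.asIdeal.mul_mem_left _ hlv) (v.asIdeal.mul_mem_left _ h)
  · rintro ⟨c, rfl⟩
    push_cast
    exact v.asIdeal.mul_mem_right _ hlv

theorem n4_val (n : ℤ) : v.valuation K ((n : ℤ) : K) < 1 ↔ (n : 𝓞 K) ∈ v.asIdeal := by
  rw [← v.valuation_lt_one_iff_mem (K := K)]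
  have e : algebraMap (𝓞 K) K (n : 𝓞 K) = ((n : ℤ) : K) := map_intCast _ n
  rw [← e]

theorem n4_val1 (n : ℤ) : v.valuation K ((n : ℤ) : K) ≤ 1 := by
  have e : algebraMap (𝓞 K) K (n : 𝓞 K) = ((n : ℤ) : K) := map_intCast _ n
  rw [← e]
  exact v.valuation_le_one _

theorem n4_rat (q : ℚ) : (q : K) * ((q.den : ℤ) : K) = ((q.num : ℤ) : K) := by
  have h1 : q * (q.den : ℚ) = (q.num : ℚ) := Rat.mul_den_eq_num q
  exact_mod_cast congrArg (fun z : ℚ => (z : K)) h1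

theorem n4_den {l : ℕ} (hl : l.Prime) (hlv : (l : 𝓞 K) ∈ v.asIdeal) (q : ℚ) (h : v.valuation K (q : K) ≤ 1) : ¬ l ∣ q.den := by
  intro hd
  have h1 : ¬ (l : ℤ) ∣ q.num := by
    intro h2
    have h3 := q.reduced
    have h4 : l ∣ q.num.natAbs := Int.natCast_dvd.1 h2
    have h5 := Nat.dvd_gcd h4 hd
    rw [Nat.Coprime] at h3
    rw [h3] at h5
    exact hl.one_lt.ne' (Nat.dvd_one.1 h5)
  have h2 := congrArg (v.valuation K) (n4_rat (K := K) q)
  rw [map_mul] at h2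
  have h3 : v.valuation K ((q.den : ℤ) : K) < 1 := (n4_val _).2 ((n4_int hl hlv _).2 (by exact_mod_cast hd))
  have h4 : v.valuation K (q : K) * v.valuation K ((q.den : ℤ) : K) < 1 :=
    mul_lt_one_of_nonneg_of_lt_one_right h zero_le h3
  rw [h2, n4_val, n4_int hl hlv] at h4
  exact h1 h4

theorem n4_num {l : ℕ} (hl : l.Prime) (hlv : (l : 𝓞 K) ∈ v.asIdeal) (q : ℚ) (h : v.valuation K (q : K) = 1) :
    ¬ (l : ℤ) ∣ q.num := by
  intro h2
  have h3 := congrArg (v.valuation K) (n4_rat (K := K) q)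
  rw [map_mul, h, one_mul] at h3
  have h4 := (n4_val (v := v) q.num).2 ((n4_int hl hlv _).2 h2)
  rw [← h3, n4_val, n4_int hl hlv] at h4
  exact n4_den hl hlv q h.le (by exact_mod_cast h4)

end val

/-- Chunk N4 (S/M). K = ℚ, w a prime of 𝓞 ℚ containing l. The valuation w.valuation ℚ of a rational number is ≤ 1 iff l does not divide the denominator, and 1 iff l divides neither numerator nor denominator (integers are in w iff l divides them; as den_of_val, num_of_val in H13D/M5.lean, which are for F with IQ F: copy). -/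
theorem good_Q {l : ℕ} (hl : l.Prime) (w : HeightOneSpectrum (𝓞 ℚ)) (hw : (l : 𝓞 ℚ) ∈ w.asIdeal) (W : WeierstrassCurve ℤ) :
    (¬ (l : ℤ) ∣ W.Δ → H55K.GoodAt (W⁄ℚ) w) ∧ (H55K.GoodAt (W⁄ℚ) w → ∃ C : VariableChange ℚ, IntL (C • (W⁄ℚ)) l) := by
  have hid : ∀ q : ℚ, ((q : ℚ) : ℚ) = q := fun q => rfl
  constructor
  · intro h
    refine ⟨1, ?_, ?_, ?_, ?_, ?_, ?_⟩
    · rw [one_smul]
      exact n4_val1 (v := w) W.a₁
    · rw [one_smul]
      exact n4_val1 (v := w) W.a₂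
    · rw [one_smul]
      exact n4_val1 (v := w) W.a₃
    · rw [one_smul]
      exact n4_val1 (v := w) W.a₄
    · rw [one_smul]
      exact n4_val1 (v := w) W.a₆
    · rw [one_smul]
      have e1 : (W⁄ℚ).Δ = ((W.Δ : ℤ) : ℚ) := W.map_Δ (algebraMap ℤ ℚ)
      rw [e1]
      refine le_antisymm (n4_val1 (v := w) W.Δ) ?_
      by_contra h1
      rw [not_le, n4_val, n4_int hl hw] at h1
      exact h h1
  · rintro ⟨C, h1, h2, h3, h4, h6, hD⟩
    refine ⟨C, ⟨?_, ?_, ?_, ?_, ?_, ?_, ?_⟩⟩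
    · exact n4_den hl hw _ h1
    · exact n4_den hl hw _ h2
    · exact n4_den hl hw _ h3
    · exact n4_den hl hw _ h4
    · exact n4_den hl hw _ h6
    · exact n4_num hl hw _ hD
    · exact n4_den hl hw _ hD.le

/-- Chunk N4 (S). A maximal ideal of 𝓞 ℚ containing l (l is not a unit; or via the isomorphism 𝓞 ℚ = ℤ). -/
theorem exists_wl {l : ℕ} (hl : l.Prime) : ∃ w : HeightOneSpectrum (𝓞 ℚ), (l : 𝓞 ℚ) ∈ w.asIdeal := by
  have hnu : ¬ IsUnit (l : 𝓞 ℚ) := by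
    intro h
    have h1 := h.map Rat.ringOfIntegersEquiv
    rw [map_natCast, Int.isUnit_iff_natAbs_eq, Int.natAbs_natCast] at h1
    exact hl.one_lt.ne' h1
  have hne : Ideal.span {(l : 𝓞 ℚ)} ≠ ⊤ := by
    rwa [Ne, Ideal.span_singleton_eq_top]
  obtain ⟨M, hM, hle⟩ := Ideal.exists_le_maximal _ hne
  have hlM : (l : 𝓞 ℚ) ∈ M := hle (Ideal.mem_span_singleton_self _)
  have hM0 : M ≠ ⊥ := by
    rintro rfl
    have h1 : (l : 𝓞 ℚ) = 0 := hlM
    have h2 : (l : 𝓞 ℚ) ≠ 0 := Nat.cast_ne_zero.2 hl.ne_zero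
    exact h2 h1
  exact ⟨⟨M, hM.isPrime, hM0⟩, hlM⟩

/-- Chunk N4 (M). Suppose W'⁄F is good at v. good_iso over F (iso6_of with L from exists_perZ, iso6_symm; jint for W from jint_of / as in jint_Z): W⁄F is good at v, so W.Δ is not in v (bad_F, contraposition). l the prime number in v (below_v): l does not divide W.Δ (W.Δ = l m would be in v) but l divides W'.Δ (an integer in v is divisible by l: the end of bad_F).
Over ℚ: w from exists_wl, good_Q for W: W⁄ℚ is good at w; good_iso over ℚ: W'⁄ℚ is good at w; good_Q for W': contradiction to hmin'. -/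
theorem bad_tr {F : Type} [Field F] [NumberField F] [IQ F] {W W' : WeierstrassCurve ℤ} {Om : ℂ} {m : Ideal (𝓞 F)}
    {ψ : Ideal (𝓞 F) →*₀ 𝓞 F} (hH : BaseH F (W⁄(𝓞 F)) Om m ψ) (hmin : MinZ W) (hmin' : MinZ W') {kap : ℤ} {e t u lam : ℚ}
    (h : IP W W' kap e t u lam) (hj : ∃ j₀ : ℤ, W'.c₄ ^ 3 = j₀ * W'.Δ) (v : HeightOneSpectrum (𝓞 F))
    (hv : (W'⁄(𝓞 F)).Δ ∈ v.asIdeal) : ¬ H55K.GoodAt ((W'⁄(𝓞 F))⁄F) v := by
  classical
  intro hG
  rw [k1_cur] at hG
  obtain ⟨hd1, hd2⟩ := disc_ne h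
  obtain ⟨L, hL⟩ := exists_perZ (perW_of hH)
  have hDF : ∀ W : WeierstrassCurve ℤ, (W⁄(𝓞 F)).Δ = ((W.Δ : ℤ) : 𝓞 F) := by
    intro W
    exact (W.map_Δ (algebraMap ℤ (𝓞 F))).trans (by simp)
  have hne : ∀ (K : Type) [Field K] [NumberField K] (W : WeierstrassCurve ℤ), W.Δ ≠ 0 → (W⁄K).Δ ≠ 0 := by
    intro K _ _ W hW
    have e1 : (W⁄K).Δ = algebraMap ℤ K W.Δ := W.map_Δ (algebraMap ℤ K)
    rw [e1]
    simpa using hW
  have h1 : H55K.GoodAt (W⁄F) v :=
    good_iso (hne F W' hd2) hd1 (jint_Z hH) (iso6_symm (iso6_of h hL F)) v hG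
  have h2 : (W⁄(𝓞 F)).Δ ∉ v.asIdeal := by
    intro h3
    apply hH.bad v h3
    rw [k1_cur]
    exact h1
  obtain ⟨l, f, hl, hlv, -, -⟩ := below_v v
  have h3 : ¬ (l : ℤ) ∣ W.Δ := by
    intro h4
    apply h2
    rw [hDF]
    exact (n4_int hl hlv _).2 h4
  have h4 : (l : ℤ) ∣ W'.Δ := by
    rw [hDF] at hv
    exact (n4_int hl hlv _).1 hv
  obtain ⟨w, hw⟩ := exists_wl hl
  have h5 := (good_Q hl w hw W).1 h3
  have h6 : H55K.GoodAt (W'⁄ℚ) w := good_iso (hne ℚ W hd1) hd2 hj (iso6_of h hL ℚ) w h5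
  obtain ⟨C, hC⟩ := (good_Q hl w hw W').2 h6
  exact hmin' l hl h4 C hC

/-- The structure TW from minimal equations. -/
theorem tw_of {F : Type} [Field F] [NumberField F] [IQ F] {W W' : WeierstrassCurve ℤ} {Om : ℂ} {m : Ideal (𝓞 F)}
    {ψ : Ideal (𝓞 F) →*₀ 𝓞 F} (hH : BaseH F (W⁄(𝓞 F)) Om m ψ) (hmin : MinZ W) (hmin' : MinZ W') {kap : ℤ} {e t u lam : ℚ}
    (h : IP W W' kap e t u lam) (hj : ∃ j₀ : ℤ, W'.c₄ ^ 3 = j₀ * W'.Δ) : TW F W W' Om m ψ kap e t u lam :=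
  ⟨hH, h, hj, fun v hv => bad_tr hH hmin hmin' h hj v hv⟩

end H28I
end

-- from Lib.H28I.L1
section

/-! # H28I, part L: the L-functions agree -/

open NumberField IsDedekindDomain WeierstrassCurve

namespace H28I

open H55P (IQ embF eF LF Per IsHecke Pt ac Inert Dec Nm)
open H35P (WAB Ker tt GoodW IntW)
open H55K (xc yc)
open H55K.TQ
open H55K (cj)

variable {F : Type} [Field F] [NumberField F] [IQ F] {W W' : WeierstrassCurve ℤ} {Om : ℂ} {m : Ideal (𝓞 F)}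
    {ψ : Ideal (𝓞 F) →*₀ 𝓞 F} {kap : ℤ} {e t u lam : ℚ} {p : ℕ}

/-- Chunk L1 (M). lfun_K (H55K/DM.lean) for W and for W' : the right sides agree (see the end of lser_F, FB3B.lean; cur_eq). For W: hH = h.base, hbad = fb3b_bad. For W' : hdeu = tw_deu, hΔm = tw_supp and h.base.supp, hj from h.jint (the images in 𝓞 F), hbad: GoodAt (W'⁄K) w implies GoodAt (W⁄K) w (tw_good), contradiction to fb3b_bad. Int.cast_injective. -/
theorem lfun_F (h : TW F W W' Om m ψ kap e t u lam) (hp : PrimeH F (W⁄(𝓞 F)) p) {L : IntermediateField F (AlgebraicClosure F)}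
    (hL : H55P.PExt p ⊥ L) (K : Type) [Field K] [NumberField K] [Algebra F K] (K' : IntermediateField F (AlgebraicClosure F)) [NumberField K']
    (hK : K' ≤ L) (θ : K ≃ₐ[F] K') (n : ℕ) : (W'⁄K).LFunction n = (W⁄K).LFunction n := by
  obtain ⟨j₀, hj⟩ := h.jint
  have e1 : (((W⁄K).LFunction n : ℤ) : ℂ) =
      (H55N.AI (H55P.PsiP K ψ) * H55N.AI (fun a => (starRingEnd ℂ) (H55P.PsiP K ψ a))) n := by
    rw [← cur_eq (F := F) (W := W) K]
    exact H55K.lfun_K h.base.data.hecke (fun v hv _ => h.base.deu v hv) (fun v hv => (h.base.supp v).1 hv)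
      (H55K.jint_of h.base.data.per h.base.data.ell) (fun w hw => fb3b_bad h.base hp hL K K' hK θ w hw) n
  have hj' : ∃ j₁ : 𝓞 F, (W'⁄(𝓞 F)).c₄ ^ 3 = j₁ * (W'⁄(𝓞 F)).Δ := by
    refine ⟨algebraMap ℤ (𝓞 F) j₀, ?_⟩
    have e4 : (W'⁄(𝓞 F)).c₄ = algebraMap ℤ (𝓞 F) W'.c₄ := W'.map_c₄ (algebraMap ℤ (𝓞 F))
    have eD : (W'⁄(𝓞 F)).Δ = algebraMap ℤ (𝓞 F) W'.Δ := W'.map_Δ (algebraMap ℤ (𝓞 F))
    rw [e4, eD, ← map_pow, ← map_mul, hj]
  have e2 : (((W'⁄K).LFunction n : ℤ) : ℂ) =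
      (H55N.AI (H55P.PsiP K ψ) * H55N.AI (fun a => (starRingEnd ℂ) (H55P.PsiP K ψ a))) n := by
    rw [← cur_eq (F := F) (W := W') K]
    refine H55K.lfun_K h.base.data.hecke (fun v hv _ => (tw_deu h v hv).2) (fun v hv => (h.base.supp v).1 ((tw_supp h v).1 hv))
      hj' (fun w hw hg => ?_) n
    rw [cur_eq K] at hg
    refine fb3b_bad h.base hp hL K K' hK θ w hw ?_
    rw [cur_eq K]
    exact (tw_good h K w).1 hg
  exact Int.cast_injective (e2.trans e1.symm)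

/-- Chunk L1 (M). lfun_quad (H55K/RI2.lean) for W and for W' (see lser_Q, FB3C.lean). hram for W' : hram_of h.base and tw_supp. hbad for W' : tw_good for the field K'. -/
theorem lfun_Q (h : TW F W W' Om m ψ kap e t u lam) (hp : PrimeH F (W⁄(𝓞 F)) p) {L : IntermediateField F (AlgebraicClosure F)}
    (hL : H55P.PExt p ⊥ L) (K₀ : Type) [Field K₀] [NumberField K₀] (K' : IntermediateField F (AlgebraicClosure F)) [NumberField K']
    [Algebra K₀ K'] (hK : K' ≤ L) (hQ : QuadG F K₀ K') (n : ℕ) : (W'⁄K₀).LFunction n = (W⁄K₀).LFunction n := by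
  obtain ⟨j₀, hj⟩ := jint_Z h.base
  obtain ⟨j₁, hj₁⟩ := h.jint
  have hbad : ∀ w : HeightOneSpectrum (𝓞 K'), H55P.mK K' m ≤ w.asIdeal → ¬ H55K.GoodAt (W⁄K') w := by
    intro w hw
    have h1 := bad_K h.base hp hL hK w hw
    rw [cur_eq K'] at h1
    exact h1
  have e1 : (((W⁄K₀).LFunction n : ℤ) : ℂ) = H55N.AI (fun a => H55P.PsiP K' ψ a) n :=
    lfun_quad hQ h.base.data.hecke (fun v hv _ => h.base.deu v hv) h.base.supp (hram_of h.base) hj hbad n
  have e2 : (((W'⁄K₀).LFunction n : ℤ) : ℂ) = H55N.AI (fun a => H55P.PsiP K' ψ a) n :=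
    lfun_quad hQ h.base.data.hecke (fun v hv _ => (tw_deu h v hv).2)
      (fun v => (tw_supp h v).trans (h.base.supp v)) (fun v hv => (tw_supp h v).2 (hram_of h.base v hv)) hj₁
      (fun w hw hg => hbad w hw ((tw_good h K' w).1 hg)) n
  exact Int.cast_injective (e2.trans e1.symm)

/-- Chunk L1 (S/M). sub_setup (FB1.lean), kg_dich, kg_iso as in lrel (FB4.lean) and int_Q (F3.lean); lfun_F or lfun_Q. -/
theorem lfun_same (h : TW F W W' Om m ψ kap e t u lam) (hp : PrimeH F (W⁄(𝓞 F)) p) (K : Type) [Field K] [NumberField K]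
    (hK : SubUF F p K) (n : ℕ) : (W'⁄K).LFunction n = (W⁄K).LFunction n := by
  obtain ⟨Lt, _, _, _, _, hG, ⟨k, hk⟩, hUt⟩ := hK
  obtain ⟨L, hLn, ι, hL, hU, hKL, -⟩ := sub_setup (F := F) p hp.prime K Lt hG k hk hUt
  have hLf : FiniteDimensional F L := hL.fin
  have hKf : FiniteDimensional F (KG F K ι) := H55P.finDim_of_le hKL
  have hKn : NumberField (KG F K ι) := H16C.FR_numberField _
  rcases kg_dich F K ι with ⟨f, hf⟩ | hQ
  · let _ : Algebra F K := f.toAlgebra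
    obtain ⟨θ⟩ := kg_iso F K ι f hf
    exact lfun_F h hp hL K (KG F K ι) hKL θ n
  · let _ : Algebra K (KG F K ι) := (KGmap F K ι).toAlgebra
    exact lfun_Q h hp hL K (KG F K ι) hKL hQ n

end H28I
end

-- from Lib.H28I.P0
section

/-! # H28I, part P: the lattices of the two curves -/

open NumberField IsDedekindDomain WeierstrassCurve

namespace H28I

open H55P (IQ embF eF LF Per IsHecke Pt ac Inert Dec Nm)
open H35P (WAB Ker tt GoodW IntW)
open H55K (xc yc)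
open H55K.TQ

/-- lam L is contained in L', and (6/lam) L' is contained in L. -/
structure LRt (L L' : PeriodPair) (lam : ℝ) : Prop where
  ne : lam ≠ 0
  fw : ∀ z ∈ L.lattice, (lam : ℂ) * z ∈ L'.lattice
  bw : ∀ z ∈ L'.lattice, (6 : ℂ) / (lam : ℂ) * z ∈ L.lattice

theorem p0_map {W : WeierstrassCurve ℤ} :
    (algebraMap ℚ ℂ) (sA W ℚ) = -(W.c₄ : ℂ) / 48 ∧ (algebraMap ℚ ℂ) (sB W ℚ) = -(W.c₆ : ℂ) / 864 := by
  constructor
  · simp only [sA, map_div₀, map_neg, map_intCast, map_ofNat]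
  · simp only [sB, map_div₀, map_neg, map_intCast, map_ofNat]

/-- Chunk P0 (M). vi_map for ℚ → ℂ (the images of sA W ℚ.. are -c₄/48 ..); iso_L (LA4B.lean) for A = -c₄/48, B = -c₆/864 (L.g₂ = c₄/12 = -4 A): L₂ with g₂ = -4 lam^4 (-c₄'/48) = lam^4 c₄'/12, g₃ = lam^6 c₆'/216. lat_scale (Z1B.lean) with c = lam: L₃ = lam L₂, g₂ = c₄'/12, g₃ = c₆'/216: PerZ W' L₃.
L'.lattice = L₃.lattice (lat_eq, Z1A.lean). IsoL.le, IsoL.six. -/
theorem lrt_of {W W' : WeierstrassCurve ℤ} {kap : ℤ} {e t u lam : ℚ} (h : IP W W' kap e t u lam) {L : PeriodPair} (hL : PerZ W L) :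
    (∃ L' : PeriodPair, PerZ W' L') ∧ ∀ L' : PeriodPair, PerZ W' L' → LRt L L' (lam : ℝ) := by
  have hlam : (lam : ℂ) ≠ 0 := by exact_mod_cast h.lam0
  have hv := vi_map (algebraMap ℚ ℂ) h.vi
  rw [map_mul, map_mul, map_pow, map_pow, p0_map.1, p0_map.2, p0_map.1, p0_map.2] at hv
  have hla : (algebraMap ℚ ℂ) lam = (lam : ℂ) := by simp
  rw [hla] at hv
  obtain ⟨L₂, hL₂⟩ := iso_L L hv (by rw [hL.g2]; ring) (by rw [hL.g3]; ring)
  obtain ⟨L₃, hm, h2, h3⟩ := H55K.lat_scale L₂ (lam : ℂ) hlam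
  have hP : PerZ W' L₃ := by
    constructor
    · rw [h2, hL₂.g2]
      field_simp
      ring
    · rw [h3, hL₂.g3]
      field_simp
      ring
  refine ⟨⟨L₃, hP⟩, ?_⟩
  intro L' hL'
  have he : L'.lattice = L₃.lattice := H55K.lat_eq L' L₃ (hL'.g2.trans hP.g2.symm) (hL'.g3.trans hP.g3.symm)
  have hc : (((lam : ℚ) : ℝ) : ℂ) = (lam : ℂ) := by norm_cast
  refine ⟨by exact_mod_cast h.lam0, ?_, ?_⟩
  · intro z hz
    rw [he, hm, hc]
    exact ⟨z, hL₂.le z hz, rfl⟩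
  · intro z hz
    rw [he, hm] at hz
    obtain ⟨l, hl, rfl⟩ := hz
    rw [hc]
    have e6 : (6 : ℂ) / (lam : ℂ) * ((lam : ℂ) * l) = 6 * l := by
      field_simp
    rw [e6]
    exact hL₂.six l hl

end H28I
end

-- from Lib.H28I.P1
section

/-! # H28I, part P: the area -/

open NumberField IsDedekindDomain WeierstrassCurve

namespace H28I

open H55P (IQ embF eF LF Per IsHecke Pt ac Inert Dec Nm)
open H35P (WAB Ker tt GoodW IntW)
open H55K (xc yc)
open H55K.TQ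

theorem p1_ne (L : PeriodPair) : L.ω₁.re * L.ω₂.im - L.ω₁.im * L.ω₂.re ≠ 0 := by
  intro h2
  have h1 := L.indep
  rw [LinearIndependent.pair_iff] at h1
  have hne1 : L.ω₁ ≠ 0 := by
    intro h3
    have h4 := h1 1 0 (by rw [h3]; simp)
    exact one_ne_zero h4.1
  have h6 := h1 (-L.ω₂.im) L.ω₁.im (by
    apply Complex.ext
    · simp only [Complex.add_re, Complex.real_smul, Complex.mul_re, Complex.ofReal_re, Complex.ofReal_im, Complex.zero_re]
      linear_combination -h2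
    · simp only [Complex.add_im, Complex.real_smul, Complex.mul_im, Complex.ofReal_re, Complex.ofReal_im, Complex.zero_im]
      ring)
  have h7 := h1 (-L.ω₂.re) L.ω₁.re (by
    apply Complex.ext
    · simp only [Complex.add_re, Complex.real_smul, Complex.mul_re, Complex.ofReal_re, Complex.ofReal_im, Complex.zero_re]
      ring
    · simp only [Complex.add_im, Complex.real_smul, Complex.mul_im, Complex.ofReal_re, Complex.ofReal_im, Complex.zero_im]
      linear_combination h2)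
  exact hne1 (Complex.ext h7.2 h6.2)

/-- if `c ω₁, c ω₂` lie in L'.lattice then `‖c‖² X(ω) = d X(ω')` -/
theorem p1_half {L L' : PeriodPair} {c : ℂ} (h : ∀ z ∈ L.lattice, c * z ∈ L'.lattice) :
    ∃ d : ℤ, ‖c‖ ^ 2 * (L.ω₁.re * L.ω₂.im - L.ω₁.im * L.ω₂.re) = d * (L'.ω₁.re * L'.ω₂.im - L'.ω₁.im * L'.ω₂.re) := by
  obtain ⟨m, n, hmn⟩ := PeriodPair.mem_lattice.1 (h _ L.ω₁_mem_lattice)
  obtain ⟨m', n', hmn'⟩ := PeriodPair.mem_lattice.1 (h _ L.ω₂_mem_lattice)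
  refine ⟨m * n' - n * m', ?_⟩
  rw [← qp2a_mul, ← hmn, ← hmn', qp2a_cross]

/-- Chunk P1 (M). lam ω₁, lam ω₂ are integral combinations of ω₁', ω₂' with determinant d, (6/lam) ω₁', (6/lam) ω₂' of ω₁, ω₂ with determinant d' (PeriodPair.mem_lattice). Cross product X(a, b) = re a im b - im a re b (qp2a_cross, qp2a_mul in QP2A.lean): lam^2 X(ω) = d X(ω'), (36/lam^2) X(ω') = d' X(ω), X(ω) ≠ 0 (L.indep; see qp1b_indep):
d d' = 36, n = |d|. H55C.Om L = 2 |X(ω)|. -/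
theorem om_ratio {L L' : PeriodPair} {lam : ℝ} (h : LRt L L' lam) : ∃ n : ℕ, n ∣ 36 ∧ H55C.Om L * lam ^ 2 = n * H55C.Om L' := by
  obtain ⟨d, hd⟩ := p1_half h.fw
  obtain ⟨d', hd'⟩ := p1_half h.bw
  have hX := p1_ne L
  have e1 : ‖(lam : ℂ)‖ ^ 2 = lam ^ 2 := by
    rw [Complex.norm_real, Real.norm_eq_abs, sq_abs]
  have e2 : ‖(6 : ℂ) / (lam : ℂ)‖ ^ 2 = 36 / lam ^ 2 := by
    rw [norm_div, div_pow, e1]
    norm_num
  rw [e1] at hd
  rw [e2] at hd'
  unfold H55C.Om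
  generalize L.ω₁.re * L.ω₂.im - L.ω₁.im * L.ω₂.re = X at *
  generalize L'.ω₁.re * L'.ω₂.im - L'.ω₁.im * L'.ω₂.re = Y at *
  have hl := h.ne
  have h1 : (d * d' : ℤ) = 36 := by
    have h2 : ((d * d' : ℤ) : ℝ) * X = 36 * X := by
      push_cast
      calc (d : ℝ) * d' * X = d * (d' * X) := by ring
        _ = d * (36 / lam ^ 2 * Y) := by rw [← hd']
        _ = 36 / lam ^ 2 * (d * Y) := by ring
        _ = 36 / lam ^ 2 * (lam ^ 2 * X) := by rw [← hd]
        _ = 36 * X := by field_simp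
    have h3 := mul_right_cancel₀ hX h2
    exact_mod_cast h3
  refine ⟨d.natAbs, ?_, ?_⟩
  · have h2 : d.natAbs * d'.natAbs = 36 := by
      rw [← Int.natAbs_mul, h1]; rfl
    exact ⟨_, h2.symm⟩
  · have h2 : ((d.natAbs : ℕ) : ℝ) = |(d : ℝ)| := by
      rw [Nat.cast_natAbs, Int.cast_abs]
    rw [h2]
    calc 2 * |X| * lam ^ 2 = 2 * |lam ^ 2 * X| := by rw [abs_mul, abs_of_nonneg (sq_nonneg lam)]; ring
      _ = 2 * |(d : ℝ) * Y| := by rw [hd]
      _ = |(d : ℝ)| * (2 * |Y|) := by rw [abs_mul]; ring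

end H28I
end

-- from Lib.H28I.P2
section

/-! # H28I, part P: the real period -/

open NumberField IsDedekindDomain WeierstrassCurve

namespace H28I

open H55P (IQ embF eF LF Per IsHecke Pt ac Inert Dec Nm)
open H35P (WAB Ker tt GoodW IntW)
open H55K (xc yc)
open H55K.TQ

/-- Chunk P2 (S/M). omr_mem (QP2B.lean): m = Omr L > 0 is in the lattice and minimal. n = the integral part of x/m: x - n m is in the lattice, 0 ≤ x - n m < m, so it is 0. -/
theorem omr_mul {W : WeierstrassCurve ℤ} {L : PeriodPair} (hL : PerZ W L) {x : ℝ} (hx : 0 < x) (h : (x : ℂ) ∈ L.lattice) :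
    ∃ n : ℕ, x = n * H55D.Omr L := by
  obtain ⟨hm, hml, hmin⟩ := omr_mem hL
  generalize H55D.Omr L = m at *
  refine ⟨⌊x / m⌋₊, ?_⟩
  have h1 : (⌊x / m⌋₊ : ℝ) ≤ x / m := Nat.floor_le (by positivity)
  have h2 : x / m < ⌊x / m⌋₊ + 1 := Nat.lt_floor_add_one _
  rw [le_div_iff₀ hm] at h1
  rw [div_lt_iff₀ hm] at h2
  by_contra hne
  have h3 : 0 < x - ⌊x / m⌋₊ * m := by
    rcases h1.lt_or_eq with h | h
    · linarith
    · exact absurd h.symm hne
  have h4 : ((x - ⌊x / m⌋₊ * m : ℝ) : ℂ) ∈ L.lattice := by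
    push_cast
    refine sub_mem h ?_
    rw [← nsmul_eq_mul]
    exact nsmul_mem hml _
  have h5 := hmin _ h3 h4
  linarith

/-- Chunk P2 (S/M). |lam| Omr L is ± lam Omr L, so it is in L': k Omr L' (omr_mul); (6/|lam|) Omr L' is in L: k' Omr L; k k' = 6. -/
theorem omr_ratio {W W' : WeierstrassCurve ℤ} {L L' : PeriodPair} (hL : PerZ W L) (hL' : PerZ W' L') {lam : ℝ} (h : LRt L L' lam) :
    ∃ k : ℕ, k ∣ 6 ∧ |lam| * H55D.Omr L = k * H55D.Omr L' := by
  obtain ⟨hm, hml, -⟩ := omr_mem hL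
  obtain ⟨hm', hml', -⟩ := omr_mem hL'
  have hl := h.ne
  have hlp : 0 < |lam| := abs_pos.2 hl
  have h1 : ((|lam| * H55D.Omr L : ℝ) : ℂ) ∈ L'.lattice := by
    have h2 := h.fw _ hml
    rcases abs_choice lam with h3 | h3
    · rw [h3]; push_cast; exact h2
    · rw [h3]; push_cast
      rw [neg_mul]
      exact neg_mem h2
  have h1' : ((6 / |lam| * H55D.Omr L' : ℝ) : ℂ) ∈ L.lattice := by
    have h2 := h.bw _ hml'
    rcases abs_choice lam with h3 | h3
    · rw [h3]; push_cast; exact h2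
    · rw [h3]; push_cast
      rw [div_neg, neg_mul]
      exact neg_mem h2
  obtain ⟨k, hk⟩ := omr_mul hL' (by positivity) h1
  obtain ⟨k', hk'⟩ := omr_mul hL (by positivity) h1'
  refine ⟨k, ⟨k', ?_⟩, hk⟩
  generalize H55D.Omr L = m at *
  generalize H55D.Omr L' = m' at *
  have h4 : ((6 : ℕ) : ℝ) * m = ((k * k' : ℕ) : ℝ) * m := by
    push_cast
    calc (6 : ℝ) * m = 6 / |lam| * (|lam| * m) := by field_simp
      _ = 6 / |lam| * (k * m') := by rw [hk]
      _ = k * (6 / |lam| * m') := by ring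
      _ = k * (k' * m) := by rw [hk']
      _ = _ := by ring
  exact_mod_cast mul_right_cancel₀ hm.ne' h4

end H28I
end

-- from Lib.H28I.P3
section

/-! # H28I, part P: the algebraic parts of the L-values -/

open NumberField IsDedekindDomain WeierstrassCurve

namespace H28I

open H55P (IQ embF eF LF Per IsHecke Pt ac Inert Dec Nm)
open H35P (WAB Ker tt GoodW IntW)
open H55K (xc yc)
open H55K.TQ

theorem p3_not_dvd {p : ℕ} (hp : p.Prime) (h5 : 5 ≤ p) {m : ℤ} {n : ℕ} (h : m ∣ 6 ^ n) : ¬ (p : ℤ) ∣ m := by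
  intro hpm
  have h1 : (p : ℤ) ∣ 6 ^ n := hpm.trans h
  have h2 : (p : ℤ) ∣ 6 := (Nat.prime_iff_prime_int.mp hp).dvd_of_dvd_pow h1
  have h3 : p ∣ 6 := by exact_mod_cast h2
  have h4 : p ≤ 6 := Nat.le_of_dvd (by norm_num) h3
  interval_cases p
  · omega
  · exact absurd hp (by decide)

theorem p3_val_nat {p : ℕ} (hp : p.Prime) (h5 : 5 ≤ p) (V : ValuationSubring ℂ) (hV : V.valuation (p : ℂ) < 1) {k n : ℕ} (h : k ∣ 6 ^ n) :
    V.valuation (k : ℂ) = 1 := by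
  have h1 := fc1_one hp V hV (k : ℤ) (p3_not_dvd hp h5 (m := (k : ℤ)) (n := n) (by exact_mod_cast h))
  exact_mod_cast h1

/-- Chunk P3 (S/M). V(n) = 1 for integers n not divisible by p (fc1_one in H55K/FC1.lean or H55P.val_nat). quo, cast to ℂ: V(lam)^12 = 1: kap divides 6^n, so p does not divide kap. -/
theorem vlam_C {W W' : WeierstrassCurve ℤ} {kap : ℤ} {e t u lam : ℚ} (h : IP W W' kap e t u lam) {p : ℕ} (hp : p.Prime) (h5 : 5 ≤ p)
    (hΔ : ¬ (p : ℤ) ∣ W.Δ) (hΔ' : ¬ (p : ℤ) ∣ W'.Δ) (V : ValuationSubring ℂ) (hV : V.valuation (p : ℂ) < 1) :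
    V.valuation (lam : ℂ) = 1 := by
  obtain ⟨n, hn⟩ := h.k6
  have h1 := fc1_one hp V hV kap (p3_not_dvd hp h5 hn)
  have h2 := fc1_one hp V hV W.Δ hΔ
  have h3 := fc1_one hp V hV W'.Δ hΔ'
  have h4 : (lam : ℂ) ^ 12 * ((W'.Δ : ℤ) : ℂ) = (kap : ℂ) * ((W.Δ : ℤ) : ℂ) := by
    have h5 := congrArg (fun x : ℚ => (x : ℂ)) h.quo
    push_cast at h5
    exact h5
  have h6 := congrArg V.valuation h4
  rw [map_mul, map_mul, map_pow, h1, h2, h3, mul_one, mul_one] at h6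
  exact (pow_eq_one_iff.1 h6).resolve_right (by norm_num)

/-- Chunk P3 (M). lrt_of, om_ratio, omr_ratio; V(lam) = 1, V(n) = V(k) = 1 (n divides 36, k divides 6), V(2) = 1 for the factor in OmP. -/
theorem per_val {W W' : WeierstrassCurve ℤ} {kap : ℤ} {e t u lam : ℚ} (h : IP W W' kap e t u lam) {p : ℕ} (hp : p.Prime) (h5 : 5 ≤ p)
    (hΔ : ¬ (p : ℤ) ∣ W.Δ) (hΔ' : ¬ (p : ℤ) ∣ W'.Δ) {L L' : PeriodPair} (hL : PerZ W L) (hL' : PerZ W' L') (V : ValuationSubring ℂ)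
    (hV : V.valuation (p : ℂ) < 1) : V.valuation (OmP W' L' : ℂ) = V.valuation (OmP W L : ℂ) ∧
      V.valuation (H55C.Om L' : ℂ) = V.valuation (H55C.Om L : ℂ) := by
  have hl := vlam_C h hp h5 hΔ hΔ' V hV
  have hr : LRt L L' (lam : ℝ) := (lrt_of h hL).2 L' hL'
  have hlC : V.valuation (((lam : ℝ) : ℂ)) = 1 := by
    have e : (((lam : ℝ) : ℂ)) = (lam : ℂ) := by push_cast; rfl
    rw [e]
    exact hl
  obtain ⟨n, hn, en⟩ := om_ratio hr
  obtain ⟨k, hk, ek⟩ := omr_ratio hL hL' hr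
  have vn : V.valuation (n : ℂ) = 1 := p3_val_nat hp h5 V hV (n := 2) (by norm_num; exact hn)
  have vk : V.valuation (k : ℂ) = 1 := p3_val_nat hp h5 V hV (n := 1) (by norm_num; exact hk)
  have v2 : V.valuation (2 : ℂ) = 1 := by
    have h2 := p3_val_nat hp h5 V hV (k := 2) (n := 1) (by norm_num)
    exact_mod_cast h2
  have habs : V.valuation (((|(lam : ℝ)| : ℝ) : ℂ)) = 1 := by
    rcases abs_choice (lam : ℝ) with e | e
    · rw [e]
      exact hlC
    · rw [e, Complex.ofReal_neg, Valuation.map_neg]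
      exact hlC
  have r1 : V.valuation ((H55D.Omr L : ℝ) : ℂ) = V.valuation ((H55D.Omr L' : ℝ) : ℂ) := by
    have e1 := congrArg (fun x : ℝ => V.valuation (x : ℂ)) ek
    simp only [Complex.ofReal_mul, Complex.ofReal_natCast, map_mul, habs, vk, one_mul] at e1
    exact e1
  have r2 : V.valuation ((H55C.Om L : ℝ) : ℂ) = V.valuation ((H55C.Om L' : ℝ) : ℂ) := by
    have e1 := congrArg (fun x : ℝ => V.valuation (x : ℂ)) en
    simp only [Complex.ofReal_mul, Complex.ofReal_pow, Complex.ofReal_natCast, map_mul, map_pow, hlC, vn, one_mul, one_pow, mul_one] at e1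
    exact e1
  have key : ∀ (X : WeierstrassCurve ℤ) (M : PeriodPair), V.valuation ((OmP X M : ℝ) : ℂ) = V.valuation ((H55D.Omr M : ℝ) : ℂ) := by
    intro X M
    unfold OmP
    split_ifs
    · rw [Complex.ofReal_mul, map_mul, Complex.ofReal_ofNat, v2, one_mul]
    · rw [one_mul]
  exact ⟨by rw [key, key, r1], r2.symm⟩

/-- Chunk P3 (S/M). Definition of lG; per_val; prod_W (QS1.lean) for W and W'. -/
theorem lG_same {W W' : WeierstrassCurve ℤ} {kap : ℤ} {e t u lam : ℚ} (h : IP W W' kap e t u lam) {p : ℕ} (hp : p.Prime) (h5 : 5 ≤ p)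
    (hΔ : ¬ (p : ℤ) ∣ W.Δ) (hΔ' : ¬ (p : ℤ) ∣ W'.Δ) (hj : ∃ j₀ : ℤ, W.c₄ ^ 3 = j₀ * W.Δ) (hj' : ∃ j₀ : ℤ, W'.c₄ ^ 3 = j₀ * W'.Δ)
    (K : Type) [Field K] [NumberField K] {L L' : PeriodPair} (hL : PerZ W L) (hL' : PerZ W' L') (x : ℂ) (V : ValuationSubring ℂ)
    (hV : V.valuation (p : ℂ) < 1) : V.valuation (lG K W' L' x) = V.valuation (lG K W L x) := by
  obtain ⟨e1, e2⟩ := per_val h hp h5 hΔ hΔ' hL hL' V hV
  have u1 := prod_W (W := W) K hp h5 hΔ hj V hV
  have u2 := prod_W (W := W') K hp h5 hΔ' hj' V hV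
  unfold lG
  simp only [map_div₀, map_mul, map_pow] at u1 u2 ⊢
  rw [e1, e2, u1, u2]

end H28I
end

-- from Lib.H28R.A5
section

open NumberField IsDedekindDomain

namespace H28R

open H55B (F O om Prim gen)
open H55P H55R

/-! Chunk A5 (S/M): a finite abelian p-group is a quotient of the units modulo m, m a product of good primes. Port of H35T/Y3.lean (exists_quot), with exists_prime_p (exponent k + 1) in place of exists_good_prime, H55C.Y17_surj; GoodL p l by good_two: p divides l - 1, so p does not divide l + 1 (p >= 5), l <> p. -/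

theorem exists_quotP {p : ℕ} (hp : p.Prime) (h5 : 5 ≤ p) (A : Type) [CommGroup A] [Finite A]
    (k : ℕ) (hA : Nat.card A = p ^ k) (N : ℕ) :
    ∃ m : ℕ, 1 < m ∧ ¬ 3 ∣ m ∧
      (∀ l : ℕ, l.Prime → l ∣ m → N < l ∧ l % 3 = 2 ∧ GoodL p l) ∧
      ∃ Φ : (ZMod m)ˣ →* A, Function.Surjective Φ := by
  classical
  have := Fintype.ofFinite A
  choose g hg using fun N' : ℕ => exists_prime_p hp h5 (k + 1) N'
  let s : ℕ → ℕ := fun n => Nat.rec (g (N + 3)) (fun _ r => g r) n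
  have hs0 : s 0 = g (N + 3) := rfl
  have hs1 : ∀ n, s (n + 1) = g (s n) := fun n => rfl
  have hgN : ∀ N', N' < g N' := fun N' => (hg N').2.1
  have hmono : StrictMono s := strictMono_nat_of_lt_succ (fun n => by rw [hs1]; exact hgN _)
  have hsN : ∀ n, N + 3 < s n := by
    intro n
    have h1 : s 0 ≤ s n := hmono.monotone (Nat.zero_le n)
    have h2 := hgN (N + 3)
    rw [← hs0] at h2
    omega
  have hsg : ∀ n, ∃ N', s n = g N' := by
    intro n
    cases n with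
    | zero => exact ⟨_, hs0⟩
    | succ n => exact ⟨_, hs1 n⟩
  let e := Fintype.equivFin A
  let l : A → ℕ := fun a => s (e a)
  have hl : Function.Injective l := by
    intro a b hab
    exact e.injective (Fin.ext (hmono.injective hab))
  have hprop : ∀ a, (l a).Prime ∧ p ^ (k + 1) ∣ l a - 1 ∧ N + 3 < l a ∧ l a % 3 = 2 := by
    intro a
    obtain ⟨N', hN'⟩ := hsg (e a)
    have h1 := hg N'
    have h2 : l a = g N' := hN'
    refine ⟨?_, ?_, hsN _, ?_⟩
    · rw [h2]; exact h1.1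
    · rw [h2]; exact h1.2.2.2
    · rw [h2]; exact h1.2.2.1
  have hcard : ∀ a, Nat.card A ∣ l a - 1 := by
    intro a
    rw [hA]
    exact (pow_dvd_pow p (Nat.le_succ k)).trans (hprop a).2.1
  obtain ⟨Φ, hΦ⟩ := H55C.Y17_surj A l hl (fun a => (hprop a).1) hcard
  have hdiv : ∀ q : ℕ, q.Prime → q ∣ ∏ a, l a → ∃ a, q = l a := by
    intro q hq hqd
    obtain ⟨a, -, ha⟩ := (Nat.Prime.prime hq).exists_mem_finset_dvd hqd
    exact ⟨a, (Nat.prime_dvd_prime_iff_eq hq (hprop a).1).1 ha⟩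
  refine ⟨∏ a, l a, ?_, ?_, ?_, Φ, hΦ⟩
  · have h1 : l 1 ∣ ∏ a, l a := Finset.dvd_prod_of_mem l (Finset.mem_univ 1)
    have h2 : 0 < ∏ a, l a := Finset.prod_pos fun a _ => (hprop a).1.pos
    exact lt_of_lt_of_le (hprop 1).1.one_lt (Nat.le_of_dvd h2 h1)
  · intro h3
    obtain ⟨a, ha⟩ := hdiv 3 Nat.prime_three h3
    have := (hprop a).2.2.1
    omega
  · intro q hq hqd
    obtain ⟨a, rfl⟩ := hdiv q hq hqd
    obtain ⟨h1, h2, h3, h4⟩ := hprop a
    have hpd : p ∣ l a - 1 := (dvd_pow_self p (Nat.succ_ne_zero k)).trans h2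
    refine ⟨by omega, h4, good_two hp h1 h4 ?_ ?_⟩
    · intro h
      rw [h] at hpd
      have h6 := Nat.le_of_dvd (by omega) hpd
      omega
    · intro h
      have h6 : p ∣ (l a + 1) - (l a - 1) := Nat.dvd_sub h hpd
      have h7 : (l a + 1) - (l a - 1) = 2 := by omega
      rw [h7] at h6
      have h8 := Nat.le_of_dvd (by norm_num) h6
      omega

end H28R
end

-- from Lib.H28R.A8
section

open NumberField IsDedekindDomain

namespace H28R

open H55B (F O om Prim gen)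
open H55P H55R

/-! Chunk A8 (M): abelian extensions of the rationals. m from exists_quotP, N = CyclotomicField m ℚ, its group is (ZMod m)ˣ (IsCyclotomicExtension.Rat.galEquivZMod or autEquivPow with Polynomial.cyclotomic.irreducible_rat), K₀ the fixed field of the kernel of Φ, a Galois extension of the rationals with group A. Totally real: K₀/ℚ is Galois of odd degree, so a
complex conjugation (an element of order at most 2 of the group: for an embedding i, conj ∘ i = i ∘ g: ComplexEmbedding.exists_comp_symm_eq_of_comp_eq, see H13N/X3.lean) is trivial; NumberField.IsTotallyReal (isReal of every place). RatP: the ramification indices over ℤ: w contains l with GoodL p l false, so l does not divide m and w does not contain m;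
the inertia group of a prime of N above w is trivial (as in mu_unr, with ℤ in place of O: H55D.X3_card) or IsCyclotomicExtension.Rat ramification lemmas of Mathlib; multiplicativity in towers (Ideal.ramificationIdx_tower). Then of_ratP. -/

/-- Galois extensions of the rationals of odd degree are totally real. -/
theorem A8_real (K₀ : Type) [Field K₀] [NumberField K₀] [IsGalois ℚ K₀]
    (h : Odd (Module.finrank ℚ K₀)) : IsTotallyReal K₀ := by
  have hu := IsUnramifiedAtInfinitePlaces_of_odd_finrank h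
  refine ⟨fun v => ?_⟩
  rcases InfinitePlace.isUnramified_iff.1 (hu.isUnramified v) with h1 | h1
  · exact h1
  · exfalso
    exact InfinitePlace.not_isReal_iff_isComplex.2 h1 (IsTotallyReal.isReal _)

/-- Subfields of the m-th cyclotomic field are unramified outside m. -/
theorem A8_unr (m : ℕ) [NeZero m] (N : Type) [Field N] [NumberField N]
    [IsCyclotomicExtension {m} ℚ N] (K₀ : Type) [Field K₀] [NumberField K₀] [Algebra K₀ N]
    (w : HeightOneSpectrum (𝓞 K₀)) (l : ℕ) (hl : l.Prime) (hlw : (l : 𝓞 K₀) ∈ w.asIdeal)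
    (hlm : ¬ l ∣ m) : w.asIdeal.ramificationIdx ℤ = 1 := by
  obtain ⟨Q, hQm, hQl⟩ := Ideal.exists_maximal_ideal_liesOver_of_isIntegral (S := 𝓞 N) w.asIdeal
  have hunder : w.asIdeal = Q.under (𝓞 K₀) := hQl.over
  have hp := hQm.isPrime
  have hlQ : (l : 𝓞 N) ∈ Q := by
    rw [hunder, Ideal.mem_under, map_natCast] at hlw
    exact hlw
  have hF : Fact l.Prime := ⟨hl⟩
  have hunZ : Q.under ℤ = Ideal.span {(l : ℤ)} := by
    have hmax : (Ideal.span {(l : ℤ)}).IsMaximal := by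
      have h1 : (Ideal.span {(l : ℤ)}).IsPrime := by
        rw [Ideal.span_singleton_prime (by exact_mod_cast hl.ne_zero)]
        exact Nat.prime_iff_prime_int.1 hl
      exact h1.isMaximal (by
        rw [Ne, Ideal.span_singleton_eq_bot]
        exact_mod_cast hl.ne_zero)
    refine (hmax.eq_of_le (Ideal.IsPrime.under ℤ Q).ne_top ?_).symm
    rw [Ideal.span_singleton_le_iff_mem, Ideal.mem_under]
    simpa using hlQ
  have hlo : Q.LiesOver (Ideal.span {(l : ℤ)}) := ⟨hunZ.symm⟩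
  have h1 : Q.ramificationIdx ℤ = 1 :=
    IsCyclotomicExtension.Rat.ramificationIdx_eq_of_not_dvd (m := m) l N Q hlm
  rw [Ideal.ramificationIdx_tower (R := ℤ) (S := 𝓞 K₀) w.asIdeal Q] at h1
  exact Nat.eq_one_of_mul_eq_one_right h1

/-- The fixed field of a quotient of the group of a cyclotomic field. -/
theorem A8_aux {p : ℕ} (hp : p.Prime) (h5 : 5 ≤ p) (A : Type) [CommGroup A] [Finite A]
    (k : ℕ) (hA : Nat.card A = p ^ k) (m : ℕ) [NeZero m]
    (hml : ∀ l : ℕ, l.Prime → l ∣ m → GoodL p l)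
    (Φ : (ZMod m)ˣ →* A) (hΦ : Function.Surjective Φ)
    (N : Type) [Field N] [NumberField N] [IsCyclotomicExtension {m} ℚ N] [hgalN : IsGalois ℚ N] :
    ∃ (K₀ : Type) (_ : Field K₀) (_ : NumberField K₀), IsTotallyReal K₀ ∧ RatP p K₀ ∧
      Nonempty ((K₀ ≃ₐ[ℚ] K₀) ≃* A) := by
  let ψ : Gal(N/ℚ) →* A :=
    Φ.comp (IsCyclotomicExtension.Rat.galEquivZMod m N).toMonoidHom
  have hψ : Function.Surjective ψ :=
    hΦ.comp (IsCyclotomicExtension.Rat.galEquivZMod m N).surjective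
  have hnor : ψ.ker.Normal := ψ.normal_ker
  have hgal : IsGalois ℚ (IntermediateField.fixedField ψ.ker) :=
    IsGalois.of_fixedField_normal_subgroup ψ.ker
  have e : Gal((IntermediateField.fixedField ψ.ker)/ℚ) ≃* A :=
    (IsGalois.normalAutEquivQuotient ψ.ker).symm.trans (QuotientGroup.quotientKerEquivOfSurjective ψ hψ)
  have hdeg : Module.finrank ℚ (IntermediateField.fixedField ψ.ker) = p ^ k := by
    rw [← IsGalois.card_aut_eq_finrank, Nat.card_congr e.toEquiv, hA]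
  refine ⟨IntermediateField.fixedField ψ.ker, inferInstance, inferInstance, ?_, ⟨hgal, ⟨k, hdeg⟩, ?_⟩,
    ⟨e⟩⟩
  · refine A8_real _ ?_
    rw [hdeg]
    exact (hp.odd_of_ne_two (by omega)).pow
  · intro w l hl hlw hg
    exact A8_unr m N _ w l hl hlw fun h => hg (hml l hl h)

theorem exists_abelianQ {p : ℕ} (hp : p.Prime) (h5 : 5 ≤ p) (A : Type) [CommGroup A] [Finite A]
    (k : ℕ) (hA : Nat.card A = p ^ k) :
    ∃ (K₀ : Type) (_ : Field K₀) (_ : NumberField K₀), IsTotallyReal K₀ ∧ RatP p K₀ ∧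
      Nonempty ((K₀ ≃ₐ[ℚ] K₀) ≃* A) := by
  obtain ⟨m, hm1, hm3, hml, Φ, hΦ⟩ := exists_quotP hp h5 A k hA 0
  have hm0 : NeZero m := ⟨by omega⟩
  have hcyc : IsCyclotomicExtension {m} ℚ (CyclotomicField m ℚ) :=
    CyclotomicField.isCyclotomicExtension m ℚ
  have hgalN : IsGalois ℚ (CyclotomicField m ℚ) := IsCyclotomicExtension.isGalois {m} ℚ _
  exact A8_aux hp h5 A k hA m (fun l hl h => (hml l hl h).2.2) Φ hΦ (CyclotomicField m ℚ)

end H28R
end

-- from Lib.H28T.AQ2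
section

open NumberField IsDedekindDomain

namespace H28T

open H55P H55R

variable {F : Type} [Field F] [NumberField F] {G : HeightOneSpectrum (𝓞 F) → Prop}

/-- Chunk AQ2 (S/M), port of H28R.exists_abelianQ (H28R/A8.lean; A8_real, A8_unr are general; A8_aux with GoodL G, B in place of GoodL p). RatG: w contains l, ramification index of w is not 1: then l ∣ m (A8_unr), so GoodL G l and B < l. -/
theorem aq2_abelian {p : ℕ} (hp : p.Prime) (h2 : p ≠ 2) (hD : DirH G p) (A : Type) [CommGroup A] [Finite A]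
    (k : ℕ) (hA : Nat.card A = p ^ k) (B : ℕ) :
    ∃ (K₀ : Type) (_ : Field K₀) (_ : NumberField K₀), IsTotallyReal K₀ ∧ RatG G p K₀ B ∧
      Nonempty ((K₀ ≃ₐ[ℚ] K₀) ≃* A) := by
  obtain ⟨m, hm1, hml, Φ, hΦ⟩ := aq1_quot hp hD A k hA B
  have hm0 : NeZero m := ⟨by omega⟩
  have hcyc : IsCyclotomicExtension {m} ℚ (CyclotomicField m ℚ) :=
    CyclotomicField.isCyclotomicExtension m ℚ
  have hgalN : IsGalois ℚ (CyclotomicField m ℚ) := IsCyclotomicExtension.isGalois {m} ℚ _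
  let ψ : Gal((CyclotomicField m ℚ)/ℚ) →* A :=
    Φ.comp (IsCyclotomicExtension.Rat.galEquivZMod m (CyclotomicField m ℚ)).toMonoidHom
  have hψ : Function.Surjective ψ :=
    hΦ.comp (IsCyclotomicExtension.Rat.galEquivZMod m (CyclotomicField m ℚ)).surjective
  have hnor : ψ.ker.Normal := ψ.normal_ker
  have hgal : IsGalois ℚ (IntermediateField.fixedField ψ.ker) :=
    IsGalois.of_fixedField_normal_subgroup ψ.ker
  have e : Gal((IntermediateField.fixedField ψ.ker)/ℚ) ≃* A :=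
    (IsGalois.normalAutEquivQuotient ψ.ker).symm.trans (QuotientGroup.quotientKerEquivOfSurjective ψ hψ)
  have hdeg : Module.finrank ℚ (IntermediateField.fixedField ψ.ker) = p ^ k := by
    rw [← IsGalois.card_aut_eq_finrank, Nat.card_congr e.toEquiv, hA]
  refine ⟨IntermediateField.fixedField ψ.ker, inferInstance, inferInstance, ?_, ⟨hgal, ⟨k, hdeg⟩, ?_⟩,
    ⟨e⟩⟩
  · refine H28R.A8_real _ ?_
    rw [hdeg]
    exact (hp.odd_of_ne_two h2).pow
  · intro w l hl hlw hr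
    have hd : l ∣ m := by
      by_contra hnd
      exact hr (H28R.A8_unr m (CyclotomicField m ℚ) _ w l hl hlw hnd)
    exact ⟨(hml l hl hd).2, (hml l hl hd).1⟩

end H28T
end

-- from Lib.H28T.AR3
section

open NumberField IsDedekindDomain

namespace H28T

open H28R (SubQ)
open H55P H55R
open H55K

variable {F : Type} [Field F] [NumberField F] [IQ F] {G : HeightOneSpectrum (𝓞 F) → Prop}

theorem ar3_pow {p : ℕ} (hp : p.Prime) (L N : Type) [Field L] [NumberField L] [Algebra F L] [Field N]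
    [NumberField N] [Algebra F N] (hG : IsGalois F L) (k : ℕ) (hk : Module.finrank F L = p ^ k)
    (hN : IsGalois ℚ N) (hgen : ∀ g : N ≃ₐ[F] N, (∀ (τ : L →+* N) (x : L), g (τ x) = τ x) → g = 1) :
    ∃ m : ℕ, Module.finrank F N = p ^ m := by
  have hfp : Fact p.Prime := ⟨hp⟩
  have hNF : IsGalois F N := IsGalois.tower_top_of_isGalois ℚ F N
  have hpg : IsPGroup p (N ≃ₐ[F] N) := by
    intro a
    refine ⟨k, hgen _ ?_⟩
    intro τ x
    obtain ⟨α, hα⟩ := ar1_restrict L N hG a τ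
    have h1 : ∀ (n : ℕ) (x : L), (a ^ n) (τ x) = τ ((α ^ n) x) := by
      intro n
      induction n with
      | zero => intro x; simp
      | succ n ih =>
        intro x
        rw [pow_succ, pow_succ]
        show (a ^ n) (a (τ x)) = τ ((α ^ n) (α x))
        rw [hα, ih]
    have h2 : α ^ p ^ k = 1 := by
      rw [← hk, ← IsGalois.card_aut_eq_finrank F L]
      exact pow_card_eq_one'
    rw [h1, h2]
    rfl
  obtain ⟨m, hm⟩ := (IsPGroup.iff_card (p := p)).1 hpg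
  exact ⟨m, by rw [← IsGalois.card_aut_eq_finrank F N, hm]⟩

theorem ar3_unr
    (hcj : ∀ v v' : HeightOneSpectrum (𝓞 F), (∀ x : 𝓞 F, cj x ∈ v'.asIdeal ↔ x ∈ v.asIdeal) → G v → G v')
    (L N : Type) [Field L] [NumberField L] [Algebra F L] [Field N] [NumberField N]
    [Algebra F N] (hG : IsGalois F L)
    (hU : ∀ (w : HeightOneSpectrum (𝓞 L)) (v : HeightOneSpectrum (𝓞 F)), v.asIdeal = w.asIdeal.under (𝓞 F) →
      ¬ G v → w.asIdeal.ramificationIdx (𝓞 F) = 1) (hN : IsGalois ℚ N)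
    (hgen : ∀ g : N ≃ₐ[F] N, (∀ (τ : L →+* N) (x : L), g (τ x) = τ x) → g = 1)
    (P : HeightOneSpectrum (𝓞 N)) (v : HeightOneSpectrum (𝓞 F)) (hv : v.asIdeal = P.asIdeal.under (𝓞 F))
    (hng : ¬ G v) : P.asIdeal.ramificationIdx (𝓞 F) = 1 := by
  have hNF : IsGalois F N := IsGalois.tower_top_of_isGalois ℚ F N
  rw [← ge_card N hNF P, Subgroup.card_eq_one, eq_bot_iff]
  intro g hg
  rw [Subgroup.mem_bot]
  apply hgen
  intro τ x
  obtain ⟨α, hα⟩ := ar1_restrict L N hG g τ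
  suffices h1 : α = 1 by
    rw [hα, h1]
    rfl
  let t : 𝓞 L →+* 𝓞 N := RingOfIntegers.mapRingHom τ
  have ht : ∀ y : 𝓞 L, algebraMap (𝓞 N) N (t y) = τ (algebraMap (𝓞 L) L y) := fun y => rfl
  have hPp := P.isPrime
  have hne : P.asIdeal.comap t ≠ ⊥ := by
    intro h
    have hn : (Ideal.absNorm P.asIdeal : 𝓞 L) ∈ P.asIdeal.comap t := by
      rw [Ideal.mem_comap, map_natCast]
      exact Ideal.absNorm_mem _
    rw [h, Ideal.mem_bot, Nat.cast_eq_zero, Ideal.absNorm_eq_zero_iff] at hn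
    exact P.ne_bot hn
  let P' : HeightOneSpectrum (𝓞 L) := ⟨P.asIdeal.comap t, inferInstance, hne⟩
  have hP' : ∀ y, y ∈ P'.asIdeal ↔ t y ∈ P.asIdeal := fun y => Iff.rfl
  have hv'ne : P'.asIdeal.under (𝓞 F) ≠ ⊥ := Ideal.IsIntegral.comap_ne_bot _ P'.ne_bot
  have hP'p := P'.isPrime
  let v' : HeightOneSpectrum (𝓞 F) := ⟨P'.asIdeal.under (𝓞 F), inferInstance, hv'ne⟩
  have hv'm : ∀ y : 𝓞 F, y ∈ v'.asIdeal ↔ t (algebraMap (𝓞 F) (𝓞 L) y) ∈ P.asIdeal := fun y => Iff.rfl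
  have hvm : ∀ y : 𝓞 F, y ∈ v.asIdeal ↔ algebraMap (𝓞 F) (𝓞 N) y ∈ P.asIdeal := by
    intro y
    rw [hv, Ideal.under_def, Ideal.mem_comap]
  have hng' : ¬ G v' := by
    rcases ar1_two N (algebraMap F N) (τ.comp (algebraMap F L)) with h2 | h2
    · have h4 : ∀ y : 𝓞 F, t (algebraMap (𝓞 F) (𝓞 L) y) = algebraMap (𝓞 F) (𝓞 N) y := by
        intro y
        apply RingOfIntegers.ext
        exact h2 (y : F)
      have h5 : v' = v := by
        apply HeightOneSpectrum.ext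
        ext y
        rw [hv'm, hvm, h4]
      rw [h5]
      exact hng
    · have h4 : ∀ y : 𝓞 F, t (algebraMap (𝓞 F) (𝓞 L) y) = algebraMap (𝓞 F) (𝓞 N) (cj y) := by
        intro y
        apply RingOfIntegers.ext
        exact h2 y
      intro hgd
      refine hng (hcj v' v (fun x => ?_) hgd)
      rw [hv'm, hvm, h4]
  have h6 : P'.asIdeal.ramificationIdx (𝓞 F) = 1 := hU P' v' rfl hng'
  rw [← ge_card L hG P', Subgroup.card_eq_one] at h6
  have h7 : α ∈ P'.asIdeal.inertia (L ≃ₐ[F] L) := by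
    intro y
    show t (α • y - y) ∈ P.asIdeal
    have h8 : t (α • y - y) = g • t y - t y := by
      rw [map_sub]
      congr 1
      apply RingOfIntegers.ext
      exact (hα (y : L)).symm
    rw [h8]
    exact hg (t y)
  rw [h6, Subgroup.mem_bot] at h7
  exact h7

/-- Chunk AR3 (M), port of H28R.W17_unr, W17_pow, exists_galP (H28R/W17.lean): the Galois closure over the rationals is in the class. hcj is the stability under conjugation. ar1_restrict replaces H13N.g1_restrict, ar1_two replaces g1_two (t ∘ algebraMap (𝓞 F) (𝓞 L) is algebraMap (𝓞 F) (𝓞 N) or its composition with cj), ge_card (Gen.lean) replaces g2_card,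
H13N.g3_closure is general. -/
theorem ar3_gal {p : ℕ} (hp : p.Prime)
    (hcj : ∀ v v' : HeightOneSpectrum (𝓞 F), (∀ x : 𝓞 F, cj x ∈ v'.asIdeal ↔ x ∈ v.asIdeal) → G v → G v')
    (L : Type) [Field L] [NumberField L] [Algebra F L] (h : ExtG G p L) :
    ∃ (N : Type) (_ : Field N) (_ : NumberField N) (_ : Algebra F N) (_ : Algebra L N)
      (_ : IsScalarTower F L N), IsGalois ℚ N ∧ ExtG G p N := by
  obtain ⟨hG, ⟨k, hk⟩, hU⟩ := h
  obtain ⟨N, i1, i2, i3, hN, hg⟩ := H13N.g3_closure L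
  let i4 : Algebra F N := ((algebraMap L N).comp (algebraMap F L)).toAlgebra
  have i5 : IsScalarTower F L N := IsScalarTower.of_algebraMap_eq fun x => rfl
  have hgen : ∀ g : N ≃ₐ[F] N, (∀ (τ : L →+* N) (x : L), g (τ x) = τ x) → g = 1 := by
    intro g h
    have h1 := hg (g.restrictScalars ℚ) h
    ext x
    exact congrArg (fun σ : N ≃ₐ[ℚ] N => σ x) h1
  obtain ⟨m, hm⟩ := ar3_pow hp L N hG k hk hN hgen
  exact ⟨N, i1, i2, i4, i3, i5, hN, IsGalois.tower_top_of_isGalois ℚ F N, ⟨m, hm⟩,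
    ar3_unr hcj L N hG hU hN hgen⟩

end H28T
end

-- from Lib.H28T.AR5
section

open NumberField IsDedekindDomain

namespace H28T

open H28R (SubQ)
open H55P H55R
open H55K

variable {F : Type} [Field F] [NumberField F] [IQ F] {G : HeightOneSpectrum (𝓞 F) → Prop}

theorem ar5_real {p : ℕ} (hp : p.Prime) (h5 : 5 ≤ p)
    (hcj : ∀ v v' : HeightOneSpectrum (𝓞 F), (∀ x : 𝓞 F, cj x ∈ v'.asIdeal ↔ x ∈ v.asIdeal) → G v → G v')
    (hGp : ∀ v : HeightOneSpectrum (𝓞 F), G v → (p : 𝓞 F) ∉ v.asIdeal)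
    (hN : NiceH G p) (H : Type) [Group H] [Finite H] (k : ℕ)
    (hH : Nat.card H = p ^ k) : RealFieldG G p H := by
  obtain ⟨L, i1, i2, i3, hL, ⟨ψ, hψ⟩⟩ := exists_embedP hp h5 hGp hN k H hH 0
  obtain ⟨N, j1, j2, j3, j4, j5, hGQ, hN'⟩ := ar3_gal hp hcj L hL.1
  obtain ⟨K₀, k1, k2, k3, hr, hQ⟩ := ar4_real (F := F) N hGQ
  have hGL := hL.1.1
  have hGF := hN'.1
  refine ⟨K₀, k1, k2, hr, N, j1, j2, j3, k3, hQ, hGQ, hN', ?_⟩
  let res : (N ≃ₐ[F] N) →* (L ≃ₐ[F] L) := AlgEquiv.restrictNormalHom L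
  have hres : Function.Surjective res := AlgEquiv.restrictNormalHom_surjective N
  let e : H ≃* ψ.range := MonoidHom.ofInjective hψ
  refine ⟨ψ.range.comap res, (e.symm : ψ.range →* H).comp (res.subgroupComap ψ.range), ?_⟩
  intro h
  obtain ⟨g, hg⟩ := hres (e h)
  refine ⟨⟨g, ?_⟩, ?_⟩
  · rw [Subgroup.mem_comap, hg]
    exact (e h).2
  · have h1 : res.subgroupComap ψ.range ⟨g, by rw [Subgroup.mem_comap, hg]; exact (e h).2⟩ = e h :=
      Subtype.ext hg
    show e.symm _ = h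
    rw [h1]
    exact e.symm_apply_apply h

end H28T
end

-- from Lib.H55W.EZM
section

/-! # H55W: y^2 + y = x^3 is a global minimal equation -/

open NumberField IsDedekindDomain WeierstrassCurve H55K.TQ

namespace H55W

theorem ezm_disc : EZ.Δ = -27 := by
  simp only [EZ, WeierstrassCurve.Δ, WeierstrassCurve.b₂, WeierstrassCurve.b₄, WeierstrassCurve.b₆, WeierstrassCurve.b₈]
  norm_num

theorem ezm_min : H13D.MinZ EZ := by
  intro l hl hd C hC
  rw [ezm_disc] at hd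
  have h3 : l = 3 := by
    have h1 : (l : ℤ) ∣ 3 ^ 3 := by
      have := (dvd_neg (a := (l : ℤ)) (b := 27)).1 hd
      norm_num
      exact this
    have h2 : l ∣ 3 ^ 3 := by exact_mod_cast h1
    exact (Nat.prime_dvd_prime_iff_eq hl Nat.prime_three).1 (hl.dvd_of_dvd_pow h2)
  subst h3
  have hF : Fact (Nat.Prime 3) := ⟨Nat.prime_three⟩
  have hn := hC.num
  have hden := hC.den
  rw [WeierstrassCurve.variableChange_Δ] at hn hden
  have hΔ : (EZ⁄ℚ).Δ = -27 := by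
    have := EZ.map_Δ (algebraMap ℤ ℚ)
    rw [ezm_disc] at this
    rw [show (EZ⁄ℚ) = EZ.map (algebraMap ℤ ℚ) from rfl, this]
    norm_num
  rw [hΔ] at hn hden
  obtain ⟨q, hq⟩ : ∃ q : ℚ, ((C.u⁻¹ : ℚˣ) : ℚ) ^ 12 * -27 = q := ⟨_, rfl⟩
  rw [hq] at hn hden
  have h0 : padicValRat 3 q = 0 := by
    rw [padicValRat_def, padicValInt.eq_zero_of_not_dvd (by exact_mod_cast hn), padicValNat.eq_zero_of_not_dvd hden]
    simp
  have h1 : padicValRat 3 q = 12 * padicValRat 3 ((C.u⁻¹ : ℚˣ) : ℚ) + 3 := by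
    rw [← hq, padicValRat.mul (pow_ne_zero _ (Units.ne_zero _)) (by norm_num), padicValRat.pow]
    have h2 : padicValRat 3 (-27 : ℚ) = 3 := by
      rw [padicValRat.neg]
      have h4 : (27 : ℚ) = ((3 : ℕ) : ℚ) ^ 3 := by norm_num
      rw [h4, padicValRat.pow, padicValRat.self (by norm_num)]
      norm_num
    rw [h2]
    norm_num
  omega

theorem ezm_per : ∃ Om : ℂ, H55P.Per H55B.F (-(H55P.eF H55B.F (EZ⁄(H55B.O)).c₄) / 48) (-(H55P.eF H55B.F (EZ⁄(H55B.O)).c₆) / 864) Om :=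
  ⟨H55P.OmE, ex_base.data.per⟩

end H55W
end
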