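import Mathlib
import Pool.Agent.Lib.H1M.PP.M041
import Pool.Agent.Lib.H1M.PP.M044
import Pool.Agent.Lib.H1M.PP.M057

/-! # H55Y: the lattice of integers of F -/

open NumberField IsDedekindDomain WeierstrassCurve

namespace H55Y

open H55P (IQ embF eF LF Per Nm)
open H55K (cj)
open H55W

variable {F : Type} [Field F] [NumberField F] [IQ F]

/-- The period lattice of y^2 = x^3 + A x + B is Om times the order of conductor f of F. -/
def PerO (F : Type) [Field F] [NumberField F] [IQ F] (f : ℕ) (A B Om : ℂ) : Prop :=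
  Om ≠ 0 ∧ ∃ L : PeriodPair, (∀ z, z ∈ L.lattice ↔ ∃ (a : ℤ) (y : 𝓞 F), z = a + f * eF F y) ∧
    L.g₂ = -4 * A * Om ^ 4 ∧ L.g₃ = -4 * B * Om ^ 6

theorem y2_g {L L' : PeriodPair} (h : L.lattice = L'.lattice) : L.g₂ = L'.g₂ ∧ L.g₃ = L'.g₃ := by
  unfold PeriodPair.g₂ PeriodPair.g₃
  rw [H55P.PZ2_G L L' h, H55P.PZ2_G L L' h]
  exact ⟨rfl, rfl⟩

theorem y2_unit {u : 𝓞 F} (hu : IsUnit u) : (LF F).g₂ / (eF F u) ^ 4 = (LF F).g₂ ∧ (LF F).g₃ / (eF F u) ^ 6 = (LF F).g₃ := by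
  have h0 : eF F u ≠ 0 := (hu.map (eF F)).ne_zero
  obtain ⟨L', hL, h2, h3⟩ := H55K.lat_scale (LF F) (eF F u) h0
  have hl : L'.lattice = (LF F).lattice := by
    ext z
    rw [hL, H55P.mem_LF]
    constructor
    · rintro ⟨l, hl, rfl⟩
      obtain ⟨y, rfl⟩ := (H55P.mem_LF l).1 hl
      exact ⟨u * y, by rw [map_mul]⟩
    · rintro ⟨y, rfl⟩
      obtain ⟨v, hv⟩ := hu.exists_right_inv
      exact ⟨eF F (v * y), (H55P.mem_LF _).2 ⟨_, rfl⟩, by rw [← map_mul, ← mul_assoc, hv, one_mul]⟩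
  obtain ⟨e2, e3⟩ := y2_g hl
  exact ⟨h2.symm.trans e2, h3.symm.trans e3⟩

/-- Eisenstein integers: g₂ = 0. -/
theorem g2_w {w : 𝓞 F} (hw : w ^ 2 + w + 1 = 0) : (LF F).g₂ = 0 := by
  have hu : IsUnit w := IsUnit.of_mul_eq_one (w ^ 2) (by linear_combination (w - 1) * hw)
  obtain ⟨h1, -⟩ := y2_unit hu
  have h0 : eF F w ≠ 0 := (hu.map (eF F)).ne_zero
  have hc : (eF F w) ^ 2 + eF F w + 1 = 0 := by
    have := congrArg (eF F) hw
    rwa [map_add, map_add, map_pow, map_one, map_zero] at this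
  have h3 : (eF F w) ^ 4 = eF F w := by linear_combination ((eF F w) ^ 2 - eF F w) * hc
  rw [h3, div_eq_iff h0] at h1
  have h4 : eF F w ≠ 1 := by
    intro h
    rw [h] at hc
    norm_num at hc
  have h5 : (LF F).g₂ * (eF F w - 1) = 0 := by linear_combination -h1
  exact (mul_eq_zero.1 h5).resolve_right (sub_ne_zero.2 h4)

/-- Gaussian integers: g₃ = 0. -/
theorem g3_i {i : 𝓞 F} (hi : i ^ 2 = -1) : (LF F).g₃ = 0 := by
  have hu : IsUnit i := IsUnit.of_mul_eq_one (-i) (by linear_combination -hi)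
  obtain ⟨-, h1⟩ := y2_unit hu
  have hc : (eF F i) ^ 2 = -1 := by
    have := congrArg (eF F) hi
    rwa [map_pow, map_neg, map_one] at this
  have h3 : (eF F i) ^ 6 = -1 := by
    have : (eF F i) ^ 6 = ((eF F i) ^ 2) ^ 3 := by ring
    rw [this, hc]
    norm_num
  rw [h3] at h1
  have h4 : (LF F).g₃ * 2 = 0 := by
    rw [div_neg, div_one] at h1
    linear_combination -h1
  exact (mul_eq_zero.1 h4).resolve_right two_ne_zero

/-- O = ℤ + ℤ θ, θ is not real. -/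
structure Gen (θ : 𝓞 F) : Prop where
  rep : ∀ x : 𝓞 F, ∃ a b : ℤ, x = (a : 𝓞 F) + (b : 𝓞 F) * θ
  ne : cj θ ≠ θ

theorem gen_out {θ : 𝓞 F} (h : Gen θ) {f : ℕ} (hf : 2 ≤ f) (a : ℤ) (y : 𝓞 F) : θ ≠ (a : 𝓞 F) + (f : 𝓞 F) * y := by
  intro hθ
  obtain ⟨c, d, rfl⟩ := h.rep y
  have h1 := congrArg cj hθ
  rw [map_add, map_mul, map_add, map_mul, H55K.cj_int, H55K.cj_int, H55K.cj_int, H55K.cj_nat] at h1
  have h2 : (θ - cj θ) * (((1 - f * d : ℤ)) : 𝓞 F) = 0 := by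
    push_cast
    linear_combination hθ - h1
  rcases mul_eq_zero.1 h2 with h3 | h3
  · exact h.ne (sub_eq_zero.1 h3).symm
  · have h4 : (1 - f * d : ℤ) = 0 := by exact_mod_cast h3
    have h5 : (f : ℤ) ∣ 1 := ⟨d, by linarith⟩
    have h6 : f ∣ 1 := by exact_mod_cast h5
    have := Nat.le_of_dvd one_pos h6
    omega

theorem gen_w {w : 𝓞 F} (hw : w ^ 2 + w + 1 = 0) (hr : ∀ x : 𝓞 F, ∃ a b : ℤ, x = (a : 𝓞 F) + (b : 𝓞 F) * w) : Gen w := by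
  refine ⟨hr, fun h => ?_⟩
  obtain ⟨n, hn⟩ := int_of_cj h
  rw [hn] at hw
  have h1 : n ^ 2 + n + 1 = 0 := by exact_mod_cast hw
  nlinarith [sq_nonneg (2 * n + 1)]

theorem gen_i {i : 𝓞 F} (hi : i ^ 2 = -1) (hr : ∀ x : 𝓞 F, ∃ a b : ℤ, x = (a : 𝓞 F) + (b : 𝓞 F) * i) : Gen i := by
  refine ⟨hr, fun h => ?_⟩
  obtain ⟨n, hn⟩ := int_of_cj h
  rw [hn] at hi
  have h1 : n ^ 2 = -1 := by exact_mod_cast hi
  nlinarith [sq_nonneg n]

theorem gen_a {α : 𝓞 F} (hα : α ^ 2 - α + 2 = 0) (hr : ∀ x : 𝓞 F, ∃ a b : ℤ, x = (a : 𝓞 F) + (b : 𝓞 F) * α) : Gen α := by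
  refine ⟨hr, fun h => ?_⟩
  obtain ⟨n, hn⟩ := int_of_cj h
  rw [hn] at hα
  have h1 : n ^ 2 - n + 2 = 0 := by exact_mod_cast hα
  nlinarith [sq_nonneg (2 * n - 1)]

/-- 1/2 is not an integer of F, and so on: c/2 is an integer of F only if 2 divides c. -/
theorem y2_half {c : 𝓞 F} (h : eF F c / 2 ∈ (LF F).lattice) : (2 : 𝓞 F) ∣ c := by
  obtain ⟨y, hy⟩ := (H55P.mem_LF _).1 h
  refine ⟨y, H55P.eF_inj ?_⟩
  rw [map_mul, map_ofNat, ← hy]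
  ring

theorem two_int {a b : ℤ} {θ : 𝓞 F} (h : Gen θ) (hd : (2 : 𝓞 F) ∣ (a : 𝓞 F) + (b : 𝓞 F) * θ) : 2 ∣ a ∧ 2 ∣ b := by
  obtain ⟨y, hy⟩ := hd
  obtain ⟨c, d, rfl⟩ := h.rep y
  have h1 := congrArg cj hy
  rw [map_add, map_mul, map_mul, map_add, map_mul, H55K.cj_int, H55K.cj_int, H55K.cj_int, H55K.cj_int, map_ofNat] at h1
  have h2 : (θ - cj θ) * (((b - 2 * d : ℤ)) : 𝓞 F) = 0 := by
    push_cast
    linear_combination hy - h1
  rcases mul_eq_zero.1 h2 with h3 | h3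
  · exact absurd (sub_eq_zero.1 h3).symm h.ne
  · have h4 : b = 2 * d := by
      have : (b - 2 * d : ℤ) = 0 := by exact_mod_cast h3
      linarith
    have h5 : ((a - 2 * c : ℤ) : 𝓞 F) = 0 := by
      rw [h4] at hy
      push_cast at hy ⊢
      linear_combination hy
    have h6 : (a - 2 * c : ℤ) = 0 := by exact_mod_cast h5
    exact ⟨⟨c, by linarith⟩, ⟨d, h4⟩⟩

end H55Y
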