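import Mathlib
import Pool.Agent.Lib.H1M.PP.D_H55Y_Y2
import Pool.Agent.Lib.H1M.PP.M001
import Pool.Agent.Lib.H1M.PP.M010
import Pool.Agent.Lib.H1M.PP.M011
import Pool.Agent.Lib.H1M.PP.M016
import Pool.Agent.Lib.H1M.PP.M017
import Pool.Agent.Lib.H1M.PP.M037
import Pool.Agent.Lib.H1M.PP.M038
import Pool.Agent.Lib.H1M.PP.M041
import Pool.Agent.Lib.H1M.PP.M044
import Pool.Agent.Lib.H1M.PP.M064
import Pool.Agent.Lib.H1M.PP.M065
import Pool.Agent.Lib.H1M.PP.M066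

/-! Merged copies (to shorten the build) of Lib.H28I.N1, Lib.H28I.N2, Lib.H28I.N3, Lib.H28I.N5, Lib.H28I.N6, Lib.H28I.N7, Lib.H55Y.Y1, Lib.H55Y.Y3, Lib.H55Y.Y4, Lib.H35T.R1, Lib.H35T.R2, Lib.H35T.R3, Lib.H35T.R4, Lib.H55W.K1, Lib.H55W.K2, Lib.H55W.K3, Lib.H55W.K4. -/

-- from Lib.H28I.N1
section

/-! # H28I, part N: integral changes of variables -/

open NumberField IsDedekindDomain WeierstrassCurve

namespace H28I

open H55P (IQ embF eF LF Per IsHecke Pt ac Inert Dec Nm)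
open H35P (WAB Ker tt GoodW IntW)
open H55K (xc yc)
open H13D

theorem n1_div {k Γ : Type} [Field k] [LinearOrderedCommGroupWithZero Γ] {v : Valuation k Γ} {u : kˣ} (hu : v (u : k) ≤ 1) (n : ℕ) {x : k}
    (h : v (((u⁻¹ : kˣ) : k) ^ n * x) ≤ 1) : v x ≤ 1 := by
  have e : x = (u : k) ^ n * (((u⁻¹ : kˣ) : k) ^ n * x) := by
    rw [← mul_assoc, ← mul_pow, Units.mul_inv, one_pow, one_mul]
  rw [e, map_mul, map_pow]
  exact mul_le_one' (pow_le_one' hu n) h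

/-- Chunk N1 (M). As vi_uniq (H13D/M1.lean), with u integral: V(2) = 1 or V(3) = 1. The quantities b₂, b₄, b₆, b₈ of E and b₆', b₈', a₂', a₆' of the second equation are integral (m1_b). u^8 b₈' = b₈ + 3 r b₆ + 3 r^2 b₄ + r^3 b₂ + 3 r^4 (variableChange_b₈), u^6 b₆' = b₆ + 2 r b₄ + r^2 b₂ + 4 r^3: V(r) ≤ 1. u^2 a₂' = a₂ - s a₁ + 3 r - s^2: V(s) ≤ 1.
u^6 a₆' = a₆ + r a₄ + r^2 a₂ + r^3 - t a₃ - t^2 - r t a₁: V(t) ≤ 1. -/
theorem vi_rst {k Γ : Type} [Field k] [LinearOrderedCommGroupWithZero Γ] {v : Valuation k Γ} {E : WeierstrassCurve k} (hE : H13D.VI v E)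
    {u : kˣ} (hu : v (u : k) ≤ 1) {r s t : k} (hE' : H13D.VI v ((⟨u, r, s, t⟩ : VariableChange k) • E)) : v r ≤ 1 ∧ v s ≤ 1 ∧ v t ≤ 1 := by
  have g : ∀ n : ℕ, (n : k) ∈ v.integer := fun n => natCast_mem _ n
  have g2 : (2 : k) ∈ v.integer := by exact_mod_cast g 2
  have g3 : (3 : k) ∈ v.integer := by exact_mod_cast g 3
  obtain ⟨hb2, hb4, hb6, hb8⟩ := m1_b hE
  obtain ⟨hb2', hb4', hb6', hb8'⟩ := m1_b hE'
  obtain ⟨h1, h2, h3, h4, h6⟩ := hE
  obtain ⟨h1', h2', h3', h4', h6'⟩ := hE'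
  rw [variableChange_b₆] at hb6'
  rw [variableChange_b₈] at hb8'
  rw [variableChange_a₂] at h2'
  rw [variableChange_a₆] at h6'
  replace hb6' := n1_div hu _ hb6'
  replace hb8' := n1_div hu _ hb8'
  replace h2' := n1_div hu _ h2'
  replace h6' := n1_div hu _ h6'
  change E.a₁ ∈ v.integer at h1
  change E.a₂ ∈ v.integer at h2
  change E.a₃ ∈ v.integer at h3
  change E.a₄ ∈ v.integer at h4
  change E.a₆ ∈ v.integer at h6
  change E.b₂ ∈ v.integer at hb2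
  change E.b₄ ∈ v.integer at hb4
  change E.b₆ ∈ v.integer at hb6
  change E.b₈ ∈ v.integer at hb8
  -- `r`
  have hr : v r ≤ 1 := by
    by_contra hlt
    rw [not_le] at hlt
    have h23 : v (2 : k) = 1 ∨ v (3 : k) = 1 := by
      by_contra hcon
      rw [not_or] at hcon
      have l2 : v (2 : k) < 1 := lt_of_le_of_ne g2 hcon.1
      have l3 : v (3 : k) < 1 := lt_of_le_of_ne g3 hcon.2
      have e : (1 : k) = 3 - 2 := by norm_num
      have := Valuation.map_sub_lt v l3 l2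
      rw [← e, map_one] at this
      exact lt_irrefl _ this
    rcases h23 with h | h
    · have e4 : v (4 : k) = 1 := by
        have : (4 : k) = 2 * 2 := by norm_num
        rw [this, map_mul, h, one_mul]
      have k1 : 1 < v (4 * r) := m1_unit 4 e4 hlt
      have k2 := m1_mul hlt (m1_add k1 hb2)
      have k3 := m1_mul hlt (m1_add k2 (mul_mem g2 hb4))
      have k4 := m1_add k3 hb6
      have e : E.b₆ + 2 * r * E.b₄ + r ^ 2 * E.b₂ + 4 * r ^ 3 = r * (r * (4 * r + E.b₂) + 2 * E.b₄) + E.b₆ := by ring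
      rw [e] at hb6'
      exact absurd hb6' (not_le.2 k4)
    · have k1 : 1 < v (3 * r) := m1_unit 3 h hlt
      have k2 := m1_mul hlt (m1_add k1 hb2)
      have k3 := m1_mul hlt (m1_add k2 (mul_mem g3 hb4))
      have k4 := m1_mul hlt (m1_add k3 (mul_mem g3 hb6))
      have k5 := m1_add k4 hb8
      have e : E.b₈ + 3 * r * E.b₆ + 3 * r ^ 2 * E.b₄ + r ^ 3 * E.b₂ + 3 * r ^ 4 =
        r * (r * (r * (3 * r + E.b₂) + 3 * E.b₄) + 3 * E.b₆) + E.b₈ := by ring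
      rw [e] at hb8'
      exact absurd hb8' (not_le.2 k5)
  have hr' : r ∈ v.integer := hr
  -- a quadratic equation
  have quad : ∀ x b c : k, x ^ 2 + b * x = c → b ∈ v.integer → c ∈ v.integer → v x ≤ 1 := by
    intro x b c e hb hc
    by_contra hlt
    rw [not_le] at hlt
    have k1 := m1_mul hlt (m1_add hlt hb)
    have e' : x * (x + b) = c := by rw [← e]; ring
    rw [e'] at k1
    exact absurd hc (not_le.2 k1)
  refine ⟨hr, quad s E.a₁ (E.a₂ + 3 * r - (E.a₂ - s * E.a₁ + 3 * r - s ^ 2)) (by ring) h1 ?_,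
    quad t (E.a₃ + r * E.a₁) (E.a₆ + r * E.a₄ + r ^ 2 * E.a₂ + r ^ 3 -
      (E.a₆ + r * E.a₄ + r ^ 2 * E.a₂ + r ^ 3 - t * E.a₃ - t ^ 2 - r * t * E.a₁)) (by ring) ?_ ?_⟩
  · exact sub_mem (add_mem h2 (mul_mem g3 hr')) h2'
  · exact add_mem h3 (mul_mem hr' h1)
  · exact sub_mem (add_mem (add_mem (add_mem h6 (mul_mem hr' h4)) (mul_mem (pow_mem hr' 2) h2)) (pow_mem hr' 3)) h6'

end H28I
end

-- from Lib.H28I.N2
section

/-! # H28I, part N: one step towards a minimal equation -/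

open NumberField IsDedekindDomain WeierstrassCurve

namespace H28I

open H55P (IQ embF eF LF Per IsHecke Pt ac Inert Dec Nm)
open H35P (WAB Ker tt GoodW IntW)
open H55K (xc yc)
open H13D

theorem n2_a1 (W : WeierstrassCurve ℤ) : (W⁄ℚ).a₁ = (W.a₁ : ℚ) := by simp [WeierstrassCurve.baseChange]
theorem n2_a2 (W : WeierstrassCurve ℤ) : (W⁄ℚ).a₂ = (W.a₂ : ℚ) := by simp [WeierstrassCurve.baseChange]
theorem n2_a3 (W : WeierstrassCurve ℤ) : (W⁄ℚ).a₃ = (W.a₃ : ℚ) := by simp [WeierstrassCurve.baseChange]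
theorem n2_a4 (W : WeierstrassCurve ℤ) : (W⁄ℚ).a₄ = (W.a₄ : ℚ) := by simp [WeierstrassCurve.baseChange]
theorem n2_a6 (W : WeierstrassCurve ℤ) : (W⁄ℚ).a₆ = (W.a₆ : ℚ) := by simp [WeierstrassCurve.baseChange]
theorem n2_D (W : WeierstrassCurve ℤ) : (W⁄ℚ).Δ = (W.Δ : ℚ) := by simp [WeierstrassCurve.baseChange]

theorem n2_c {l : ℕ} [Fact l.Prime] {k : ℕ} {c : ℚˣ} (hc : (c : ℚ) = (l : ℚ) ^ k) (i : ℕ) (n : ℤ) {x : ℚ}
    (hx : x = ((c⁻¹ : ℚˣ) : ℚ) ^ i * (n : ℚ)) (hv : Rat.padicValuation l x ≤ 1) : ∃ z : ℤ, x = z := by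
  apply int_of_val (n := n) (m := k * i) _ hv
  rw [hx, pow_mul, ← hc]
  have : ((c⁻¹ : ℚˣ) : ℚ) ^ i * (c : ℚ) ^ i = 1 := by rw [← mul_pow, Units.inv_mul, one_pow]
  linear_combination (n : ℚ) * this

/-- Chunk N2 (S/M). E₁ is integral at l and its coefficients are integers divided by powers of l (variableChange_a₁, ..: l^i a_i' is a polynomial with integral coefficients in the a_i, r₀, s₀, t₀): int_of_val for each of them. -/
theorem int_model {l : ℕ} [Fact l.Prime] (W : WeierstrassCurve ℤ) {k : ℕ} {c : ℚˣ} (hc : (c : ℚ) = (l : ℚ) ^ k) (r₀ s₀ t₀ : ℤ)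
    (h : H13D.VI (Rat.padicValuation l) ((⟨c, r₀, s₀, t₀⟩ : VariableChange ℚ) • (W⁄ℚ))) :
    ∃ W₁ : WeierstrassCurve ℤ, W₁⁄ℚ = (⟨c, r₀, s₀, t₀⟩ : VariableChange ℚ) • (W⁄ℚ) := by
  obtain ⟨h1, h2, h3, h4, h6⟩ := h
  obtain ⟨z1, e1⟩ := n2_c hc 1 (W.a₁ + 2 * s₀) (by
    rw [variableChange_a₁, n2_a1]; push_cast; ring) h1
  obtain ⟨z2, e2⟩ := n2_c hc 2 (W.a₂ - s₀ * W.a₁ + 3 * r₀ - s₀ ^ 2) (by
    rw [variableChange_a₂, n2_a1, n2_a2]; push_cast; ring) h2
  obtain ⟨z3, e3⟩ := n2_c hc 3 (W.a₃ + r₀ * W.a₁ + 2 * t₀) (by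
    rw [variableChange_a₃, n2_a1, n2_a3]; push_cast; ring) h3
  obtain ⟨z4, e4⟩ := n2_c hc 4 (W.a₄ - s₀ * W.a₃ + 2 * r₀ * W.a₂ - (t₀ + r₀ * s₀) * W.a₁ + 3 * r₀ ^ 2 - 2 * s₀ * t₀) (by
    rw [variableChange_a₄, n2_a1, n2_a2, n2_a3, n2_a4]; push_cast; ring) h4
  obtain ⟨z6, e6⟩ := n2_c hc 6 (W.a₆ + r₀ * W.a₄ + r₀ ^ 2 * W.a₂ + r₀ ^ 3 - t₀ * W.a₃ - t₀ ^ 2 - r₀ * t₀ * W.a₁) (by
    rw [variableChange_a₆, n2_a1, n2_a2, n2_a3, n2_a4, n2_a6]; push_cast; ring) h6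
  refine ⟨⟨z1, z2, z3, z4, z6⟩, ?_⟩
  apply WeierstrassCurve.ext
  · rw [n2_a1, e1]
  · rw [n2_a2, e2]
  · rw [n2_a3, e3]
  · rw [n2_a4, e4]
  · rw [n2_a6, e6]

/-- Chunk N2 (M). v = Rat.padicValuation l, C = ⟨u, r, s, t⟩, intL_iff. The discriminant of C • (W⁄ℚ) is W.Δ/u^12 and has value 1, v(W.Δ) < 1, so v(u) < 1: u = l^k ε, k ≥ 1 (split_val). vi_unit: E' = ⟨l^k, r, s, t⟩ • (W⁄ℚ) is integral; vi_rst: r, s, t have value ≤ 1. approx_int: integers r₀ for (r, 2k), s₀ for (s, k), t₀ for (t + s (r₀ - r), 3k).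
vi_comp with r' = (r₀ - r)/l^(2k), s' = (s₀ - s)/l^k, t' = (t₀ - t - s (r₀ - r))/l^(3k): ⟨l^k, r₀, s₀, t₀⟩ • (W⁄ℚ) = ⟨1, r', s', t'⟩ • E', integral (vi_change). int_model: W₁. W₁.Δ l^(12 k) = W.Δ: smaller absolute value. -/
theorem min_step {l : ℕ} (hl : l.Prime) (W : WeierstrassCurve ℤ) (hW : W.Δ ≠ 0) (hd : (l : ℤ) ∣ W.Δ) {C : VariableChange ℚ}
    (hC : IntL (C • (W⁄ℚ)) l) : ∃ (W₁ : WeierstrassCurve ℤ) (C₁ : VariableChange ℚ), W₁⁄ℚ = C₁ • (W⁄ℚ) ∧ W₁.Δ.natAbs < W.Δ.natAbs := by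
  haveI : Fact l.Prime := ⟨hl⟩
  obtain ⟨hVI, hΔ⟩ := (intL_iff _).1 hC
  obtain ⟨u, r, s, t⟩ := C
  have hlq : (l : ℚ) ≠ 0 := by exact_mod_cast hl.ne_zero
  have hE : H13D.VI (Rat.padicValuation l) (W⁄ℚ) := by
    constructor
    · rw [n2_a1]; exact n0_int_le _
    · rw [n2_a2]; exact n0_int_le _
    · rw [n2_a3]; exact n0_int_le _
    · rw [n2_a4]; exact n0_int_le _
    · rw [n2_a6]; exact n0_int_le _
  have hD1 : Rat.padicValuation l (W.Δ : ℚ) < 1 :=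
    lt_of_le_of_ne (n0_int_le _) (fun h => (n0_int.1 h) hd)
  have hu : Rat.padicValuation l (u : ℚ) < 1 := by
    by_contra hcon
    rw [not_lt] at hcon
    rw [variableChange_Δ, n2_D, map_mul, map_pow] at hΔ
    have h1 : Rat.padicValuation l ((u⁻¹ : ℚˣ) : ℚ) ≤ 1 := by
      rw [Units.val_inv_eq_inv_val, map_inv₀]
      exact inv_le_one_of_one_le₀ hcon
    have h2 : Rat.padicValuation l ((u⁻¹ : ℚˣ) : ℚ) ^ 12 * Rat.padicValuation l (W.Δ : ℚ) < 1 :=
      lt_of_le_of_lt (mul_le_of_le_one_left' (pow_le_one' h1 12)) hD1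
    exact absurd hΔ h2.ne
  obtain ⟨k, ε, hk, hε, hue⟩ := split_val u.ne_zero hu
  have hε0 : ε ≠ 0 := by
    intro h
    rw [h, map_zero] at hε
    exact zero_ne_one hε
  obtain ⟨c, hc⟩ : ∃ c : ℚˣ, (c : ℚ) = (l : ℚ) ^ k := ⟨Units.mk0 _ (pow_ne_zero k hlq), rfl⟩
  obtain ⟨e, he⟩ : ∃ e : ℚˣ, (e : ℚ) = ε := ⟨Units.mk0 _ hε0, rfl⟩
  have hu' : u = c * e := by
    ext
    rw [Units.val_mul, hc, he, hue]
  rw [hu'] at hVI
  have h1 := vi_unit (v := Rat.padicValuation l) (by rw [he]; exact hε) hVI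
  have hlv : Rat.padicValuation l (l : ℚ) ≤ 1 := by
    have := n0_int_le (l := l) (l : ℤ)
    push_cast at this
    exact this
  have hcv : Rat.padicValuation l (c : ℚ) ≤ 1 := by
    rw [hc, map_pow]
    exact pow_le_one' hlv k
  obtain ⟨hr, hs, ht⟩ := vi_rst hE hcv h1
  obtain ⟨r₀, hr₀⟩ := approx_int hr (2 * k)
  obtain ⟨s₀, hs₀⟩ := approx_int hs k
  have hrr : Rat.padicValuation l ((r₀ : ℚ) - r) ≤ 1 := by
    refine (Valuation.map_sub _ _ _).trans (max_le (n0_int_le _) hr)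
  have ht' : Rat.padicValuation l (t + s * ((r₀ : ℚ) - r)) ≤ 1 := by
    refine (Valuation.map_add _ _ _).trans (max_le ht ?_)
    rw [map_mul]
    exact mul_le_one' hs hrr
  obtain ⟨t₀, ht₀⟩ := approx_int ht' (3 * k)
  have h2 := vi_change h1 hr₀ hs₀ ht₀
  rw [vi_comp, hc] at h2
  have hl2 : (l : ℚ) ^ k ≠ 0 := pow_ne_zero _ hlq
  have f1 : r + ((l : ℚ) ^ k) ^ 2 * (((r₀ : ℚ) - r) / (l : ℚ) ^ (2 * k)) = (r₀ : ℚ) := by
    rw [mul_comm 2 k, pow_mul]
    field_simp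
    ring
  have f2 : s + (l : ℚ) ^ k * (((s₀ : ℚ) - s) / (l : ℚ) ^ k) = (s₀ : ℚ) := by
    field_simp
    ring
  have f3 : t + ((l : ℚ) ^ k) ^ 3 * (((t₀ : ℚ) - (t + s * ((r₀ : ℚ) - r))) / (l : ℚ) ^ (3 * k)) +
      ((l : ℚ) ^ k) ^ 2 * s * (((r₀ : ℚ) - r) / (l : ℚ) ^ (2 * k)) = (t₀ : ℚ) := by
    rw [mul_comm 2 k, mul_comm 3 k, pow_mul, pow_mul]
    field_simp
    ring
  rw [f1, f2, f3] at h2
  obtain ⟨W₁, hW₁⟩ := int_model W hc r₀ s₀ t₀ h2
  refine ⟨W₁, ⟨c, r₀, s₀, t₀⟩, hW₁, ?_⟩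
  have hD : (W₁.Δ : ℚ) = ((c⁻¹ : ℚˣ) : ℚ) ^ 12 * (W.Δ : ℚ) := by
    have := congrArg WeierstrassCurve.Δ hW₁
    rw [variableChange_Δ, n2_D, n2_D] at this
    exact this
  have hD2 : W₁.Δ * (l : ℤ) ^ (k * 12) = W.Δ := by
    have : (W₁.Δ : ℚ) * (l : ℚ) ^ (k * 12) = (W.Δ : ℚ) := by
      rw [hD, pow_mul, ← hc]
      have : ((c⁻¹ : ℚˣ) : ℚ) ^ 12 * (c : ℚ) ^ 12 = 1 := by rw [← mul_pow, Units.inv_mul, one_pow]
      linear_combination (W.Δ : ℚ) * this
    exact_mod_cast this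
  have hW1 : W₁.Δ ≠ 0 := by
    intro h
    rw [h, zero_mul] at hD2
    exact hW hD2.symm
  rw [← hD2, Int.natAbs_mul, Int.natAbs_pow, Int.natAbs_natCast]
  have hp : 1 < l ^ (k * 12) := Nat.one_lt_pow (by omega) hl.one_lt
  have hpos : 0 < W₁.Δ.natAbs := Int.natAbs_pos.2 hW1
  nlinarith

end H28I
end

-- from Lib.H28I.N3
section

/-! # H28I, part N: minimal equations exist -/

open NumberField IsDedekindDomain WeierstrassCurve

namespace H28I

open H55P (IQ embF eF LF Per IsHecke Pt ac Inert Dec Nm)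
open H35P (WAB Ker tt GoodW IntW)
open H55K (xc yc)
open H13D

theorem n3_c (d : ℕ) {i : ℕ} (hi : 1 ≤ i) (x : ℚ) (h : x.den ∣ d) : ∃ z : ℤ, (d : ℚ) ^ i * x = z := by
  obtain ⟨m, hm⟩ := h
  obtain ⟨j, rfl⟩ : ∃ j, i = j + 1 := ⟨i - 1, by omega⟩
  refine ⟨(d : ℤ) ^ j * m * x.num, ?_⟩
  have hxd : x * (x.den : ℚ) = (x.num : ℚ) := Rat.mul_den_eq_num x
  have hd : (d : ℚ) = (x.den : ℚ) * (m : ℚ) := by exact_mod_cast hm
  push_cast
  rw [← hxd, pow_succ]
  linear_combination ((d : ℚ) ^ j * x) * hd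

/-- Chunk N3 (S/M). d = the product of the denominators of the coefficients; ⟨1/d, 0, 0, 0⟩ • E has the coefficients d^i a_i, which are integers. -/
theorem exists_int (E : WeierstrassCurve ℚ) : ∃ (W : WeierstrassCurve ℤ) (C : VariableChange ℚ), W⁄ℚ = C • E := by
  obtain ⟨d, hd⟩ : ∃ d : ℕ, d = E.a₁.den * E.a₂.den * E.a₃.den * E.a₄.den * E.a₆.den := ⟨_, rfl⟩
  have hd0 : (d : ℚ) ≠ 0 := by
    rw [hd]
    push_cast
    have h : ∀ x : ℚ, (x.den : ℚ) ≠ 0 := fun x => by exact_mod_cast x.den_ne_zero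
    exact mul_ne_zero (mul_ne_zero (mul_ne_zero (mul_ne_zero (h _) (h _)) (h _)) (h _)) (h _)
  obtain ⟨z1, e1⟩ := n3_c d (i := 1) le_rfl E.a₁ (by rw [hd]; exact ⟨E.a₂.den * E.a₃.den * E.a₄.den * E.a₆.den, by ring⟩)
  obtain ⟨z2, e2⟩ := n3_c d (i := 2) (by norm_num) E.a₂ (by rw [hd]; exact ⟨E.a₁.den * E.a₃.den * E.a₄.den * E.a₆.den, by ring⟩)
  obtain ⟨z3, e3⟩ := n3_c d (i := 3) (by norm_num) E.a₃ (by rw [hd]; exact ⟨E.a₁.den * E.a₂.den * E.a₄.den * E.a₆.den, by ring⟩)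
  obtain ⟨z4, e4⟩ := n3_c d (i := 4) (by norm_num) E.a₄ (by rw [hd]; exact ⟨E.a₁.den * E.a₂.den * E.a₃.den * E.a₆.den, by ring⟩)
  obtain ⟨z6, e6⟩ := n3_c d (i := 6) (by norm_num) E.a₆ (by rw [hd]; exact ⟨E.a₁.den * E.a₂.den * E.a₃.den * E.a₄.den, by ring⟩)
  refine ⟨⟨z1, z2, z3, z4, z6⟩, ⟨(Units.mk0 (d : ℚ) hd0)⁻¹, 0, 0, 0⟩, ?_⟩
  apply WeierstrassCurve.ext
  · rw [n2_a1, variableChange_a₁, ← e1]
    simp
  · rw [n2_a2, variableChange_a₂, ← e2]
    simp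
  · rw [n2_a3, variableChange_a₃, ← e3]
    simp
  · rw [n2_a4, variableChange_a₄, ← e4]
    simp
  · rw [n2_a6, variableChange_a₆, ← e6]
    simp

/-- Chunk N3 (S/M). Among the W over ℤ with W⁄ℚ = C • E for some C take one with |W.Δ| minimal (Nat.find or WellFounded.min; exists_int). W.Δ ≠ 0 because E.Δ ≠ 0 (variableChange_Δ). If l divides W.Δ and C' • (W⁄ℚ) is IntL then min_step contradicts the minimality (C₁ • C • E = (C₁ * C) • E: mul_smul). -/
theorem min_ex (E : WeierstrassCurve ℚ) (hE : E.Δ ≠ 0) : ∃ (W : WeierstrassCurve ℤ) (C : VariableChange ℚ), W⁄ℚ = C • E ∧ W.Δ ≠ 0 ∧ MinZ W := by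
  classical
  let S : Set ℕ := {n | ∃ (W : WeierstrassCurve ℤ) (C : VariableChange ℚ), W⁄ℚ = C • E ∧ W.Δ.natAbs = n}
  have hS : S.Nonempty := by
    obtain ⟨W, C, h⟩ := exists_int E
    exact ⟨_, W, C, h, rfl⟩
  obtain ⟨W, C, h, hn⟩ := Nat.sInf_mem hS
  have hD : W.Δ ≠ 0 := by
    intro h0
    have h1 := congrArg WeierstrassCurve.Δ h
    rw [n2_D, variableChange_Δ, h0] at h1
    have h2 : ((C.u⁻¹ : ℚˣ) : ℚ) ^ 12 ≠ 0 := pow_ne_zero _ (Units.ne_zero _)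
    exact mul_ne_zero h2 hE (by rw [← h1]; norm_num)
  refine ⟨W, C, h, hD, ?_⟩
  intro l hl hd C' hC'
  obtain ⟨W₁, C₁, h1, h2⟩ := min_step hl W hD hd hC'
  have h3 : W₁.Δ.natAbs ∈ S := ⟨W₁, C₁ * C, by rw [h1, h, mul_smul], rfl⟩
  have h4 := Nat.sInf_le h3
  rw [← hn] at h4
  omega

/-- Chunk N3 (S). min_ex for WAB A B (its c₄ is -48 A, its c₆ is -864 B, its discriminant -16 (4 A^3 + 27 B^2)); variableChange_c₄, c₆: mu = u. -/
theorem min_short {A B : ℚ} (hd : 4 * A ^ 3 + 27 * B ^ 2 ≠ 0) : ∃ (W : WeierstrassCurve ℤ) (mu : ℚ), mu ≠ 0 ∧ W.Δ ≠ 0 ∧ MinZ W ∧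
    A = mu ^ 4 * sA W ℚ ∧ B = mu ^ 6 * sB W ℚ := by
  have hE : (WAB A B).Δ ≠ 0 := by
    have e : (WAB A B).Δ = -16 * (4 * A ^ 3 + 27 * B ^ 2) := by
      simp only [WAB, WeierstrassCurve.Δ, WeierstrassCurve.b₂, WeierstrassCurve.b₄, WeierstrassCurve.b₆, WeierstrassCurve.b₈]
      ring
    rw [e]
    exact mul_ne_zero (by norm_num) hd
  obtain ⟨W, C, h, hD, hM⟩ := min_ex (WAB A B) hE
  have e4 : (WAB A B).c₄ = -48 * A := by
    simp only [WAB, WeierstrassCurve.c₄, WeierstrassCurve.b₂, WeierstrassCurve.b₄]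
    ring
  have e6 : (WAB A B).c₆ = -864 * B := by
    simp only [WAB, WeierstrassCurve.c₆, WeierstrassCurve.b₂, WeierstrassCurve.b₄, WeierstrassCurve.b₆]
    ring
  have f4 : (W⁄ℚ).c₄ = (W.c₄ : ℚ) := by simp [WeierstrassCurve.baseChange]
  have f6 : (W⁄ℚ).c₆ = (W.c₆ : ℚ) := by simp [WeierstrassCurve.baseChange]
  have g4 := congrArg WeierstrassCurve.c₄ h
  have g6 := congrArg WeierstrassCurve.c₆ h
  rw [f4, variableChange_c₄, e4] at g4
  rw [f6, variableChange_c₆, e6] at g6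
  have hu : (C.u : ℚ) * ((C.u⁻¹ : ℚˣ) : ℚ) = 1 := Units.mul_inv _
  have hu4 : (C.u : ℚ) ^ 4 * ((C.u⁻¹ : ℚˣ) : ℚ) ^ 4 = 1 := by rw [← mul_pow, hu, one_pow]
  have hu6 : (C.u : ℚ) ^ 6 * ((C.u⁻¹ : ℚˣ) : ℚ) ^ 6 = 1 := by rw [← mul_pow, hu, one_pow]
  refine ⟨W, (C.u : ℚ), Units.ne_zero _, hD, hM, ?_, ?_⟩
  · rw [sA, g4]
    linear_combination (-A) * hu4
  · rw [sB, g6]
    linear_combination (-B) * hu6

end H28I
end

-- from Lib.H28I.N5
section

/-! # H28I, part N: rational points of order 2 and the discriminant -/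

open NumberField IsDedekindDomain WeierstrassCurve

namespace H28I

open H55P (IQ embF eF LF Per IsHecke Pt ac Inert Dec Nm)
open H35P (WAB Ker tt GoodW IntW)
open H55K (xc yc)

/-- Chunk N5 (M). Suppose b₂ is even and Δ is odd. b₂ = a₁^2 + 4 a₂: a₁ is even, 4 divides b₂; b₄ = 2 a₄ + a₁ a₃ is even. Δ = - b₂^2 b₈ - 8 b₄^3 - 27 b₆^2 + 9 b₂ b₄ b₆ is odd, so b₆ is odd. x = m/n in lowest terms: 4 m^3 + b₂ m^2 n + 2 b₄ m n^2 + b₆ n^3 = 0. n odd: 4 divides b₆ n^3, contradiction.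
n even, m odd: modulo 8: b₂ m^2 n, 2 b₄ m n^2 and b₆ n^3 are divisible by 8, 4 m^3 is not. -/
theorem even_disc (W : WeierstrassCurve ℤ) (hb : (2 : ℤ) ∣ W.b₂) {x : ℚ}
    (hx : 4 * x ^ 3 + W.b₂ * x ^ 2 + 2 * W.b₄ * x + W.b₆ = 0) : (2 : ℤ) ∣ W.Δ := by
  by_contra hD
  have ha1 : (2 : ℤ) ∣ W.a₁ := by
    have h1 : (2 : ℤ) ∣ W.a₁ ^ 2 := by
      have h2 := hb
      rw [WeierstrassCurve.b₂] at h2
      omega
    exact Int.prime_two.dvd_of_dvd_pow h1
  obtain ⟨c, hc⟩ := ha1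
  have e2 : W.b₂ = 4 * (c ^ 2 + W.a₂) := by
    rw [WeierstrassCurve.b₂, hc]
    ring
  have e4 : W.b₄ = 2 * (W.a₄ + c * W.a₃) := by
    rw [WeierstrassCurve.b₄, hc]
    ring
  have h6 : ¬ (2 : ℤ) ∣ W.b₆ := by
    rintro ⟨k, hk⟩
    apply hD
    rw [WeierstrassCurve.Δ, e2, e4, hk]
    exact ⟨-(8 * (c ^ 2 + W.a₂) ^ 2 * W.b₈) - 32 * (W.a₄ + c * W.a₃) ^ 3 - 54 * k ^ 2 +
      72 * (c ^ 2 + W.a₂) * (W.a₄ + c * W.a₃) * k, by ring⟩
  have hd : (x.den : ℚ) ≠ 0 := by exact_mod_cast x.den_ne_zero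
  have hxe : x * (x.den : ℚ) = (x.num : ℚ) := by
    exact_mod_cast Rat.mul_den_eq_num x
  have hq : 4 * (x.num : ℚ) ^ 3 + W.b₂ * (x.num : ℚ) ^ 2 * (x.den : ℚ) + 2 * W.b₄ * (x.num : ℚ) * (x.den : ℚ) ^ 2 +
      W.b₆ * (x.den : ℚ) ^ 3 = 0 := by
    rw [← hxe]
    linear_combination (x.den : ℚ) ^ 3 * hx
  have hz : 4 * x.num ^ 3 + W.b₂ * x.num ^ 2 * (x.den : ℤ) + 2 * W.b₄ * x.num * (x.den : ℤ) ^ 2 +
      W.b₆ * (x.den : ℤ) ^ 3 = 0 := by
    exact_mod_cast hq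
  have hcop : IsCoprime x.num (x.den : ℤ) := by
    rw [Int.isCoprime_iff_gcd_eq_one]
    exact x.reduced
  rw [e2, e4] at hz
  have hn : (2 : ℤ) ∣ (x.den : ℤ) := by
    have h1 : (2 : ℤ) ∣ W.b₆ * (x.den : ℤ) ^ 3 := by
      refine ⟨-(2 * x.num ^ 3 + 2 * (c ^ 2 + W.a₂) * x.num ^ 2 * (x.den : ℤ) +
        2 * (W.a₄ + c * W.a₃) * x.num * (x.den : ℤ) ^ 2), ?_⟩
      linear_combination hz
    rcases Int.prime_two.dvd_or_dvd h1 with h2 | h2
    · exact absurd h2 h6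
    · exact Int.prime_two.dvd_of_dvd_pow h2
  obtain ⟨n', hn'⟩ := hn
  have hm : (2 : ℤ) ∣ x.num := by
    have h1 : (2 : ℤ) ∣ x.num ^ 3 := by
      refine ⟨-((c ^ 2 + W.a₂) * x.num ^ 2 * n' + 2 * (W.a₄ + c * W.a₃) * x.num * n' ^ 2 + W.b₆ * n' ^ 3), ?_⟩
      rw [hn'] at hz
      linarith
    exact Int.prime_two.dvd_of_dvd_pow h1
  have h2 : (2 : ℤ) ∣ 1 := by
    obtain ⟨a, b, hab⟩ := hcop
    rw [← hab]
    exact dvd_add (Dvd.dvd.mul_left hm a) (Dvd.dvd.mul_left ⟨n', hn'⟩ b)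
  norm_num at h2

/-- Chunk N5 (S). four_f (E4.lean) for k = ℚ, e₀ = e - b₂/12. -/
theorem even_disc' (W : WeierstrassCurve ℤ) (hb : (2 : ℤ) ∣ W.b₂) {e : ℚ} (he : e ^ 3 + sA W ℚ * e + sB W ℚ = 0) : (2 : ℤ) ∣ W.Δ := by
  have h1 := (four_f W (e - (W.b₂ : ℚ) / 12)).1
  rw [sub_add_cancel, he, mul_zero] at h1
  exact even_disc W hb h1.symm

/-- Chunk N5 (S). c₄ = b₂^2 - 24 b₄. -/
theorem even_b2 (W : WeierstrassCurve ℤ) (h : (2 : ℤ) ∣ W.c₄) : (2 : ℤ) ∣ W.b₂ := by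
  have h1 : (2 : ℤ) ∣ W.b₂ ^ 2 := by
    rw [WeierstrassCurve.c₄] at h
    omega
  exact Int.prime_two.dvd_of_dvd_pow h1

/-- Chunk N5 (S). c₄ = 0: b₂^2 = 24 b₄, so 3 divides b₂, 9 divides 24 b₄, 3 divides b₄; Δ = - b₂^2 b₈ - 8 b₄^3 - 27 b₆^2 + 9 b₂ b₄ b₆. -/
theorem three_disc (W : WeierstrassCurve ℤ) (h : W.c₄ = 0) : (3 : ℤ) ∣ W.Δ := by
  rw [WeierstrassCurve.c₄] at h
  have h2 : (3 : ℤ) ∣ W.b₂ := by
    have h1 : (3 : ℤ) ∣ W.b₂ ^ 2 := ⟨8 * W.b₄, by linear_combination h⟩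
    exact Int.prime_three.dvd_of_dvd_pow h1
  obtain ⟨d, hd⟩ := h2
  have h4 : (3 : ℤ) ∣ W.b₄ := by
    rw [hd] at h
    have h1 : (3 : ℤ) ∣ 8 * W.b₄ := ⟨d ^ 2, by linarith⟩
    omega
  obtain ⟨f, hf⟩ := h4
  rw [WeierstrassCurve.Δ, hd, hf]
  exact ⟨-(3 * d ^ 2 * W.b₈) - 72 * f ^ 3 - 9 * W.b₆ ^ 2 + 27 * d * f * W.b₆, by ring⟩

end H28I
end

-- from Lib.H28I.N6
section

/-! # H28I, part N: the four families -/

open NumberField IsDedekindDomain WeierstrassCurve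

namespace H28I

open H55P (IQ embF eF LF Per IsHecke Pt ac Inert Dec Nm)
open H35P (WAB Ker tt GoodW IntW)
open H55K (xc yc)

/-- Chunk N6 (S/M). 1728 Δ = c₄^3 - c₆^2: Δ = -16 (4 A^3 + 27 B^2) with A = sA, B = sB. -/
theorem disc_sAB (W : WeierstrassCurve ℤ) : (W.Δ : ℚ) = -16 * (4 * sA W ℚ ^ 3 + 27 * sB W ℚ ^ 2) ∧ (W.c₄ : ℚ) = -48 * sA W ℚ := by
  have h1 := W.c_relation
  have h2 : (1728 : ℚ) * (W.Δ : ℚ) = (W.c₄ : ℚ) ^ 3 - (W.c₆ : ℚ) ^ 2 := by
    exact_mod_cast h1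
  constructor
  · rw [sA, sB]
    linear_combination h2 / 1728
  · rw [sA]
    ring

/-- Chunk N6 (M). The scaling. (A, B) = (mu^4 sA W, mu^6 sB W), (A', B') = (sA W', sB W'); e/mu^2, t/mu^4, u/mu^6, lam = 1/mu. vi: divide the equations by powers of mu. quo: disc_sAB for both, hk. -/
theorem ip_scale {W W' : WeierstrassCurve ℤ} {A B e t u mu : ℚ} {kap : ℤ} (hmu : mu ≠ 0) (hA : A = mu ^ 4 * sA W ℚ) (hB : B = mu ^ 6 * sB W ℚ)
    (h : VI A B (sA W' ℚ) (sB W' ℚ) e t u)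
    (hk : 4 * sA W' ℚ ^ 3 + 27 * sB W' ℚ ^ 2 = kap * (4 * A ^ 3 + 27 * B ^ 2)) (kd : ∃ n : ℕ, kap ∣ W.Δ ^ n) (k6 : ∃ n : ℕ, kap ∣ 6 ^ n)
    (two : u = 0 → (2 : ℤ) ∣ W.Δ ∨ (¬ (2 : ℤ) ∣ W.b₂ ∧ ∃ a b : ℤ, ¬ (2 : ℤ) ∣ b ∧ t / mu ^ 4 = a / b))
    (three : u ≠ 0 → (3 : ℤ) ∣ W.Δ) : IP W W' kap (e / mu ^ 2) (t / mu ^ 4) (u / mu ^ 6) mu⁻¹ := by
  subst hA hB
  have h12 : mu ^ 12 ≠ 0 := pow_ne_zero 12 hmu
  refine ⟨inv_ne_zero hmu, ⟨?_, ?_, ?_, ?_, ?_⟩, ?_, kd, k6, ?_, ?_⟩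
  · intro h0
    apply h.disc
    linear_combination mu ^ 12 * h0
  · intro h0
    apply h.disc'
    have h1 : 4 * (mu⁻¹ ^ 4 * sA W' ℚ) ^ 3 + 27 * (mu⁻¹ ^ 6 * sB W' ℚ) ^ 2 =
        mu⁻¹ ^ 12 * (4 * sA W' ℚ ^ 3 + 27 * sB W' ℚ ^ 2) := by
      ring
    rw [h1] at h0
    rcases mul_eq_zero.1 h0 with h2 | h2
    · exact absurd h2 (pow_ne_zero 12 (inv_ne_zero hmu))
    · exact h2
  · rw [h.hA]
    field_simp
  · rw [h.hB]
    field_simp
  · rcases h.cs with ⟨h1, h2, h3⟩ | ⟨h1, h2, h3⟩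
    · left
      refine ⟨by rw [h1, zero_div], ?_, ?_⟩
      · have h4 : (e / mu ^ 2) ^ 3 + sA W ℚ * (e / mu ^ 2) + sB W ℚ =
            (e ^ 3 + mu ^ 4 * sA W ℚ * e + mu ^ 6 * sB W ℚ) / mu ^ 6 := by
          field_simp
        rw [h4, h2, zero_div]
      · rw [h3]
        field_simp
    · right
      refine ⟨?_, ?_, ?_⟩
      · rw [h1]
        field_simp
      · rw [h2]
        field_simp
      · have h4 : 3 * (e / mu ^ 2) ^ 4 + 6 * sA W ℚ * (e / mu ^ 2) ^ 2 + 12 * sB W ℚ * (e / mu ^ 2) - sA W ℚ ^ 2 =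
            (3 * e ^ 4 + 6 * (mu ^ 4 * sA W ℚ) * e ^ 2 + 12 * (mu ^ 6 * sB W ℚ) * e - (mu ^ 4 * sA W ℚ) ^ 2) / mu ^ 8 := by
          field_simp
        rw [h4, h3, zero_div]
  · rw [(disc_sAB W).1, (disc_sAB W').1, hk]
    field_simp
  · intro h0
    have h1 : u = 0 := by
      rcases div_eq_zero_iff.1 h0 with h2 | h2
      · exact h2
      · exact absurd h2 (pow_ne_zero 6 hmu)
    exact two h1
  · intro h0
    apply three
    rintro rfl
    exact h0 (zero_div _)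

/-- Chunk N6 (S/M). D = -12: e = a, t = 3 a^2, u = 0, kap = -16: VI: 1st case. sA W = 0 (mu ≠ 0), so c₄ = 0 (disc_sAB), b₂ is even (even_b2), e/mu^2 is a root of x^3 + sA W x + sB W: 2 divides Δ (even_disc'), -16 divides Δ^4. jint: disc_sAB for W'. -/
theorem fam12 {W W' : WeierstrassCurve ℤ} {a mu : ℚ} (ha : a ≠ 0) (hmu : mu ≠ 0) (hA : 0 = mu ^ 4 * sA W ℚ) (hB : -a ^ 3 = mu ^ 6 * sB W ℚ)
    (hA' : sA W' ℚ = -15 * a ^ 2) (hB' : sB W' ℚ = -22 * a ^ 3) :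
    IP W W' (-16) (a / mu ^ 2) (3 * a ^ 2 / mu ^ 4) (0 / mu ^ 6) mu⁻¹ ∧ W'.c₄ ^ 3 = 54000 * W'.Δ := by
  have ha6 : a ^ 6 ≠ 0 := pow_ne_zero 6 ha
  have hs : sA W ℚ = 0 := by
    rcases mul_eq_zero.1 hA.symm with h1 | h1
    · exact absurd h1 (pow_ne_zero 4 hmu)
    · exact h1
  have hc4 : W.c₄ = 0 := by
    have h1 := (disc_sAB W).2
    rw [hs, mul_zero] at h1
    exact_mod_cast h1
  have hb2 : (2 : ℤ) ∣ W.b₂ := even_b2 W (by rw [hc4]; exact dvd_zero 2)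
  have hroot : (a / mu ^ 2) ^ 3 + sA W ℚ * (a / mu ^ 2) + sB W ℚ = 0 := by
    have h4 : (a / mu ^ 2) ^ 3 + sA W ℚ * (a / mu ^ 2) + sB W ℚ =
        (a ^ 3 + mu ^ 4 * sA W ℚ * a + mu ^ 6 * sB W ℚ) / mu ^ 6 := by
      field_simp
    rw [h4, ← hA, ← hB]
    ring
  have hΔ : (2 : ℤ) ∣ W.Δ := even_disc' W hb2 hroot
  refine ⟨ip_scale hmu hA hB ⟨?_, ?_, ?_, ?_, ?_⟩ ?_ ⟨4, ?_⟩ ⟨4, ?_⟩ (fun _ => Or.inl hΔ) (fun h => absurd rfl h), ?_⟩
  · have h1 : 4 * (0 : ℚ) ^ 3 + 27 * (-a ^ 3) ^ 2 = 27 * a ^ 6 := by ring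
    rw [h1]
    exact mul_ne_zero (by norm_num) ha6
  · rw [hA', hB']
    have h1 : 4 * (-15 * a ^ 2) ^ 3 + 27 * (-22 * a ^ 3) ^ 2 = -432 * a ^ 6 := by ring
    rw [h1]
    exact mul_ne_zero (by norm_num) ha6
  · rw [hA']
    ring
  · rw [hB']
    ring
  · left
    exact ⟨rfl, by ring, by ring⟩
  · rw [hA', hB']
    push_cast
    ring
  · obtain ⟨k, hk⟩ := hΔ
    exact ⟨-k ^ 4, by rw [hk]; ring⟩
  · exact ⟨-81, by norm_num⟩
  · have h1 := (disc_sAB W').1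
    have h2 := (disc_sAB W').2
    rw [hA', hB'] at h1
    rw [hA'] at h2
    have h3 : (W'.c₄ : ℚ) ^ 3 = 54000 * (W'.Δ : ℚ) := by
      rw [h1, h2]
      ring
    exact_mod_cast h3

/-- Chunk N6 (S/M). D = -16: e = a, t = 2 a^2, u = 0, kap = 8. c₄^3 = 1728 Δ for W (disc_sAB: sB W = 0), so c₄ is even (2 divides c₄^3), b₂ is even, 2 divides Δ, 8 divides Δ^3. -/
theorem fam16 {W W' : WeierstrassCurve ℤ} {a mu : ℚ} (ha : a ≠ 0) (hmu : mu ≠ 0) (hA : -a ^ 2 = mu ^ 4 * sA W ℚ) (hB : 0 = mu ^ 6 * sB W ℚ)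
    (hA' : sA W' ℚ = -11 * a ^ 2) (hB' : sB W' ℚ = -14 * a ^ 3) :
    IP W W' 8 (a / mu ^ 2) (2 * a ^ 2 / mu ^ 4) (0 / mu ^ 6) mu⁻¹ ∧ W'.c₄ ^ 3 = 287496 * W'.Δ := by
  have ha6 : a ^ 6 ≠ 0 := pow_ne_zero 6 ha
  have hs : sB W ℚ = 0 := by
    rcases mul_eq_zero.1 hB.symm with h1 | h1
    · exact absurd h1 (pow_ne_zero 6 hmu)
    · exact h1
  have hc : W.c₄ ^ 3 = 1728 * W.Δ := by
    have h1 := (disc_sAB W).1
    have h2 := (disc_sAB W).2
    rw [hs] at h1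
    have h3 : (W.c₄ : ℚ) ^ 3 = 1728 * (W.Δ : ℚ) := by
      rw [h1, h2]
      ring
    exact_mod_cast h3
  have hc4 : (2 : ℤ) ∣ W.c₄ := by
    have h1 : (2 : ℤ) ∣ W.c₄ ^ 3 := ⟨864 * W.Δ, by rw [hc]; ring⟩
    exact Int.prime_two.dvd_of_dvd_pow h1
  have hb2 : (2 : ℤ) ∣ W.b₂ := even_b2 W hc4
  have hroot : (a / mu ^ 2) ^ 3 + sA W ℚ * (a / mu ^ 2) + sB W ℚ = 0 := by
    have h4 : (a / mu ^ 2) ^ 3 + sA W ℚ * (a / mu ^ 2) + sB W ℚ =
        (a ^ 3 + mu ^ 4 * sA W ℚ * a + mu ^ 6 * sB W ℚ) / mu ^ 6 := by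
      field_simp
    rw [h4, ← hA, ← hB]
    ring
  have hΔ : (2 : ℤ) ∣ W.Δ := even_disc' W hb2 hroot
  refine ⟨ip_scale hmu hA hB ⟨?_, ?_, ?_, ?_, ?_⟩ ?_ ⟨3, ?_⟩ ⟨3, ?_⟩ (fun _ => Or.inl hΔ) (fun h => absurd rfl h), ?_⟩
  · have h1 : 4 * (-a ^ 2) ^ 3 + 27 * (0 : ℚ) ^ 2 = -4 * a ^ 6 := by ring
    rw [h1]
    exact mul_ne_zero (by norm_num) ha6
  · rw [hA', hB']
    have h1 : 4 * (-11 * a ^ 2) ^ 3 + 27 * (-14 * a ^ 3) ^ 2 = -32 * a ^ 6 := by ring
    rw [h1]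
    exact mul_ne_zero (by norm_num) ha6
  · rw [hA']
    ring
  · rw [hB']
    ring
  · left
    exact ⟨rfl, by ring, by ring⟩
  · rw [hA', hB']
    push_cast
    ring
  · obtain ⟨k, hk⟩ := hΔ
    exact ⟨k ^ 3, by rw [hk]; ring⟩
  · exact ⟨27, by norm_num⟩
  · have h1 := (disc_sAB W').1
    have h2 := (disc_sAB W').2
    rw [hA', hB'] at h1
    rw [hA'] at h2
    have h3 : (W'.c₄ : ℚ) ^ 3 = 287496 * (W'.Δ : ℚ) := by
      rw [h1, h2]
      ring
    exact_mod_cast h3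

end H28I
end

-- from Lib.H28I.N7
section

/-! # H28I, part N: the four families, continued -/

open NumberField IsDedekindDomain WeierstrassCurve

namespace H28I

open H55P (IQ embF eF LF Per IsHecke Pt ac Inert Dec Nm)
open H35P (WAB Ker tt GoodW IntW)
open H55K (xc yc)

/-- Chunk N7 (S/M). D = -27: e = 4 a, t = 96 a^2, u = 192 a^3, kap = 9: VI: 2nd case (e^3 - 16 a^3 = 48 a^3, 3 e^4 - 192 a^3 e = 0). c₄ = 0, three_disc: 3 divides Δ, 9 divides Δ^2. -/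
theorem fam27 {W W' : WeierstrassCurve ℤ} {a mu : ℚ} (ha : a ≠ 0) (hmu : mu ≠ 0) (hA : 0 = mu ^ 4 * sA W ℚ) (hB : -16 * a ^ 3 = mu ^ 6 * sB W ℚ)
    (hA' : sA W' ℚ = -480 * a ^ 2) (hB' : sB W' ℚ = -4048 * a ^ 3) :
    IP W W' 9 (4 * a / mu ^ 2) (96 * a ^ 2 / mu ^ 4) (192 * a ^ 3 / mu ^ 6) mu⁻¹ ∧ W'.c₄ ^ 3 = -12288000 * W'.Δ := by
  have h0 : sA W ℚ = 0 := by
    have h1 : mu ^ 4 ≠ 0 := pow_ne_zero _ hmu
    rcases mul_eq_zero.mp hA.symm with h | h
    · exact absurd h h1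
    · exact h
  have hc : W.c₄ = 0 := by
    have h1 := (disc_sAB W).2
    rw [h0, mul_zero] at h1
    exact_mod_cast h1
  have h3 : (3 : ℤ) ∣ W.Δ := three_disc W hc
  have ha2 : a ^ 2 ≠ 0 := pow_ne_zero _ ha
  have ha3 : a ^ 3 ≠ 0 := pow_ne_zero _ ha
  have ha6 : a ^ 6 ≠ 0 := pow_ne_zero _ ha
  refine ⟨ip_scale (A := 0) (B := -16 * a ^ 3) hmu hA hB ?_ ?_ ⟨2, ?_⟩ ⟨2, ?_⟩ ?_ ?_, ?_⟩
  · refine ⟨?_, ?_, ?_, ?_, Or.inr ⟨?_, ?_, ?_⟩⟩
    · intro h
      apply ha6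
      linarith
    · rw [hA', hB']
      intro h
      apply ha6
      linarith
    · rw [hA']
      ring
    · rw [hB']
      ring
    · ring
    · ring
    · ring
  · rw [hA', hB']
    push_cast
    ring
  · obtain ⟨d, hd⟩ := h3
    exact ⟨d ^ 2, by rw [hd]; ring⟩
  · norm_num
  · intro h
    exfalso
    apply ha3
    linarith
  · intro _
    exact h3
  · have h1 := (disc_sAB W').1
    have h2 := (disc_sAB W').2
    rw [hA', hB'] at h1
    rw [hA'] at h2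
    have h4 : ((W'.c₄ : ℚ)) ^ 3 = -12288000 * (W'.Δ : ℚ) := by
      rw [h1, h2]
      ring
    exact_mod_cast h4

/-- Chunk N7 (M). D = -28: e = -7 a, t = 112 a^2, u = 0, kap = -1 (kd, k6 with n = 0). two: suppose 2 does not divide Δ. c₄^3 = -3375 Δ for W (disc_sAB), so c₄ and hence b₂ is odd (c₄ = b₂^2 - 24 b₄); t/mu^4 = 112 a^2/mu^4 = c₄/15 (sA W = -35 a^2/mu^4 = -c₄/48). -/
theorem fam28 {W W' : WeierstrassCurve ℤ} {a mu : ℚ} (ha : a ≠ 0) (hmu : mu ≠ 0) (hA : -35 * a ^ 2 = mu ^ 4 * sA W ℚ)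
    (hB : 98 * a ^ 3 = mu ^ 6 * sB W ℚ) (hA' : sA W' ℚ = -595 * a ^ 2) (hB' : sB W' ℚ = 5586 * a ^ 3) :
    IP W W' (-1) (-7 * a / mu ^ 2) (112 * a ^ 2 / mu ^ 4) (0 / mu ^ 6) mu⁻¹ ∧ W'.c₄ ^ 3 = 16581375 * W'.Δ := by
  have hm4 : mu ^ 4 ≠ 0 := pow_ne_zero _ hmu
  have hm6 : mu ^ 6 ≠ 0 := pow_ne_zero _ hmu
  have ha6 : a ^ 6 ≠ 0 := pow_ne_zero _ ha
  have hsA : sA W ℚ = -35 * a ^ 2 / mu ^ 4 := by
    rw [eq_div_iff hm4, hA]
    ring
  have hsB : sB W ℚ = 98 * a ^ 3 / mu ^ 6 := by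
    rw [eq_div_iff hm6, hB]
    ring
  have hc3 : W.c₄ ^ 3 = -3375 * W.Δ := by
    have h1 := (disc_sAB W).1
    have h2 := (disc_sAB W).2
    rw [hsA, hsB] at h1
    rw [hsA] at h2
    have h4 : ((W.c₄ : ℚ)) ^ 3 = -3375 * (W.Δ : ℚ) := by
      rw [h1, h2]
      field_simp
      ring
    exact_mod_cast h4
  have ht : 112 * a ^ 2 / mu ^ 4 = ((W.c₄ : ℤ) : ℚ) / ((15 : ℤ) : ℚ) := by
    have h2 := (disc_sAB W).2
    rw [hsA] at h2
    rw [h2]
    push_cast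
    ring
  refine ⟨ip_scale (A := -35 * a ^ 2) (B := 98 * a ^ 3) hmu hA hB ?_ ?_ ⟨0, ?_⟩ ⟨0, ?_⟩ ?_ ?_, ?_⟩
  · refine ⟨?_, ?_, ?_, ?_, Or.inl ⟨rfl, ?_, ?_⟩⟩
    · intro h
      apply ha6
      linarith
    · rw [hA', hB']
      intro h
      apply ha6
      linarith
    · rw [hA']
      ring
    · rw [hB']
      ring
    · ring
    · ring
  · rw [hA', hB']
    push_cast
    ring
  · exact ⟨-1, by norm_num⟩
  · norm_num
  · intro _
    by_cases h2 : (2 : ℤ) ∣ W.Δ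
    · exact Or.inl h2
    · right
      refine ⟨?_, W.c₄, 15, by norm_num, ht⟩
      intro hb
      apply h2
      have hc : (2 : ℤ) ∣ W.c₄ := by
        have h3 : W.c₄ = W.b₂ ^ 2 - 24 * W.b₄ := rfl
        rw [h3]
        obtain ⟨d, hd⟩ := hb
        exact ⟨2 * d ^ 2 - 12 * W.b₄, by rw [hd]; ring⟩
      have h4 : (2 : ℤ) ∣ -3375 * W.Δ := by
        rw [← hc3]
        exact dvd_pow hc (by norm_num)
      rcases Int.prime_two.dvd_mul.mp h4 with h5 | h5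
      · norm_num at h5
      · exact h5
  · intro h
    exact absurd rfl h
  · have h1 := (disc_sAB W').1
    have h2 := (disc_sAB W').2
    rw [hA', hB'] at h1
    rw [hA'] at h2
    have h4 : ((W'.c₄ : ℚ)) ^ 3 = 16581375 * (W'.Δ : ℚ) := by
      rw [h1, h2]
      ring
    exact_mod_cast h4

end H28I
end

-- from Lib.H55Y.Y1
section

/-! # H55Y: the curves with complex multiplication by a nonmaximal order: lattices of index 2 and 3 -/

open NumberField IsDedekindDomain WeierstrassCurve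

namespace H55Y

open H55P (IQ embF eF LF Per)
open H28I

/-- The identity of the isogeny, without the discriminants. -/
theorem y1_id {k : Type} [Field k] {A B e t u x : k} (hcs : (u = 0 ∧ e ^ 3 + A * e + B = 0 ∧ t = 3 * e ^ 2 + A) ∨
    (t = 2 * (3 * e ^ 2 + A) ∧ u = 4 * (e ^ 3 + A * e + B) ∧ 3 * e ^ 4 + 6 * A * e ^ 2 + 12 * B * e - A ^ 2 = 0)) (hx : x ≠ e) :
    vx e t u x ^ 3 + (A - 5 * t) * vx e t u x + (B - 7 * (u + e * t)) = vd e t u x ^ 2 * (x ^ 3 + A * x + B) := by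
  obtain ⟨z, rfl⟩ : ∃ z, x = z + e := ⟨x - e, by ring⟩
  have hz : z ≠ 0 := by
    rintro rfl
    exact hx (zero_add e)
  unfold vx vd
  rw [add_sub_cancel_right]
  rcases hcs with ⟨rfl, h1, rfl⟩ | ⟨rfl, rfl, h1⟩
  · obtain rfl : B = -e ^ 3 - A * e := by linear_combination h1
    field_simp
    ring
  · have e1 : (z + e + 2 * (3 * e ^ 2 + A) / z + 4 * (e ^ 3 + A * e + B) / z ^ 2) =
        ((z + e) * z ^ 2 + 2 * (3 * e ^ 2 + A) * z + 4 * (e ^ 3 + A * e + B)) / z ^ 2 := by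
      field_simp
    have e2 : 1 - 2 * (3 * e ^ 2 + A) / z ^ 2 - 2 * (4 * (e ^ 3 + A * e + B)) / z ^ 3 =
        (z ^ 3 - 2 * (3 * e ^ 2 + A) * z - 2 * (4 * (e ^ 3 + A * e + B))) / z ^ 3 := by
      field_simp
    rw [e1, e2]
    have hz6 : z ^ 6 ≠ 0 := pow_ne_zero 6 hz
    have e3 : (((z + e) * z ^ 2 + 2 * (3 * e ^ 2 + A) * z + 4 * (e ^ 3 + A * e + B)) / z ^ 2) ^ 3 +
        (A - 5 * (2 * (3 * e ^ 2 + A))) *
          (((z + e) * z ^ 2 + 2 * (3 * e ^ 2 + A) * z + 4 * (e ^ 3 + A * e + B)) / z ^ 2) +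
        (B - 7 * (4 * (e ^ 3 + A * e + B) + e * (2 * (3 * e ^ 2 + A)))) =
        (((z + e) * z ^ 2 + 2 * (3 * e ^ 2 + A) * z + 4 * (e ^ 3 + A * e + B)) ^ 3 +
        (A - 5 * (2 * (3 * e ^ 2 + A))) *
          ((z + e) * z ^ 2 + 2 * (3 * e ^ 2 + A) * z + 4 * (e ^ 3 + A * e + B)) * z ^ 4 +
        (B - 7 * (4 * (e ^ 3 + A * e + B) + e * (2 * (3 * e ^ 2 + A)))) * z ^ 6) / z ^ 6 := by
      field_simp
    have e4 : ((z ^ 3 - 2 * (3 * e ^ 2 + A) * z - 2 * (4 * (e ^ 3 + A * e + B))) / z ^ 3) ^ 2 *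
        ((z + e) ^ 3 + A * (z + e) + B) =
        ((z ^ 3 - 2 * (3 * e ^ 2 + A) * z - 2 * (4 * (e ^ 3 + A * e + B))) ^ 2 *
        ((z + e) ^ 3 + A * (z + e) + B)) / z ^ 6 := by
      field_simp
    rw [e3, e4]
    congr 1
    linear_combination (6 * z ^ 5 - 12 * z ^ 3 * e ^ 2 - 4 * z ^ 3 * A - 12 * z ^ 2 * e ^ 3 - 12 * z ^ 2 * e * A -
      12 * z ^ 2 * B) * h1

/-- The invariants of the overlattice. -/
theorem over_gen {L L' : PeriodPair} {A B e t u : ℂ} (g2 : L.g₂ = -4 * A) (g3 : L.g₃ = -4 * B)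
    (hle : ∀ z ∈ L.lattice, z ∈ L'.lattice)
    (hcs : (u = 0 ∧ e ^ 3 + A * e + B = 0 ∧ t = 3 * e ^ 2 + A) ∨
    (t = 2 * (3 * e ^ 2 + A) ∧ u = 4 * (e ^ 3 + A * e + B) ∧ 3 * e ^ 4 + 6 * A * e ^ 2 + 12 * B * e - A ^ 2 = 0))
    (hout : ∀ z, z ∉ L'.lattice → L.weierstrassP z ≠ e)
    (hx : ∀ z, z ∉ L'.lattice → L'.weierstrassP z = vx e t u (L.weierstrassP z)) :
    L'.g₂ = -4 * (A - 5 * t) ∧ L'.g₃ = -4 * (B - 7 * (u + e * t)) := by
  have hkey : ∀ z, z ∉ L'.lattice → (4 * (A - 5 * t) + L'.g₂) * L'.weierstrassP z + (4 * (B - 7 * (u + e * t)) + L'.g₃) = 0 := by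
    intro z hz
    have hzL : z ∉ L.lattice := fun h => hz (hle z h)
    have e1 := L'.derivWeierstrassP_sq z hz
    have e2 := L.derivWeierstrassP_sq z hzL
    have e3 := y1_id hcs (hout z hz)
    rw [iso_y hle hout hx hz] at e1
    rw [← hx z hz] at e3
    rw [g2, g3] at e2
    linear_combination e1 - (vd e t u (L.weierstrassP z)) ^ 2 * e2 + 4 * e3
  obtain ⟨z0, h0, h0'⟩ := H55K.CC.wp_surj L' 0
  obtain ⟨z1, h1, h1'⟩ := H55K.CC.wp_surj L' 1
  have k0 := hkey z0 h0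
  have k1 := hkey z1 h1
  rw [h0'] at k0
  rw [h1'] at k1
  refine ⟨?_, ?_⟩
  · linear_combination k1 - k0
  · linear_combination k0

theorem y1_two_eq (L : PeriodPair) {A B : ℂ} (g2 : L.g₂ = -4 * A) (g3 : L.g₃ = -4 * B) {w : ℂ} (hw : w ∉ L.lattice)
    (h2 : 2 * w ∈ L.lattice) : L.weierstrassP w ^ 3 + A * L.weierstrassP w + B = 0 := by
  have e2 := L.derivWeierstrassP_sq w hw
  rw [la3_deriv L h2, g2, g3] at e2
  linear_combination (-1 / 4 : ℂ) * e2

/-- Index 2. -/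
theorem over_two {L L' : PeriodPair} {A B : ℂ} (g2 : L.g₂ = -4 * A) (g3 : L.g₃ = -4 * B) {w : ℂ} (hw : w ∉ L.lattice)
    (h2 : 2 * w ∈ L.lattice) (hL' : ∀ z, z ∈ L'.lattice ↔ ∃ k : ℤ, z - k * w ∈ L.lattice) {e : ℂ} (he : L.weierstrassP w = e) :
    e ^ 3 + A * e + B = 0 ∧ L'.g₂ = -4 * (-4 * A - 15 * e ^ 2) ∧ L'.g₃ = -4 * (-22 * e ^ 3 - 8 * A * e) := by
  have hR := rep_two hw h2 hL'
  have h3 := y1_two_eq L g2 g3 hw h2
  rw [he] at h3
  have hout : ∀ z, z ∉ L'.lattice → z ∉ L.lattice ∧ z + w ∉ L.lattice := by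
    intro z hz
    refine ⟨fun h1 => hz (hR.le z h1), fun h1 => hz ((hL' z).2 ⟨-1, ?_⟩)⟩
    push_cast
    have e1 : z - -1 * w = z + w := by ring
    rw [e1]
    exact h1
  obtain ⟨a, b⟩ := over_gen (t := 3 * e ^ 2 + A) (u := 0) g2 g3 hR.le (Or.inl ⟨rfl, h3, rfl⟩) (fun z hz => by
    obtain ⟨a1, a2⟩ := hout z hz
    have a3 := (two_add L g2 g3 hw h2 a1 a2).1
    rwa [he] at a3) (fun z hz => by
    obtain ⟨a1, a2⟩ := hout z hz
    have a3 := (two_add L g2 g3 hw h2 a1 a2).2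
    rw [sum_wp hR hz, Finset.sum_singleton, a3, he]
    unfold vx
    rw [zero_div, add_zero])
  refine ⟨h3, ?_, ?_⟩
  · rw [a]; ring
  · rw [b]; linear_combination (-4 : ℂ) * h3

theorem y1_three_eq (L : PeriodPair) {A B : ℂ} (g2 : L.g₂ = -4 * A) (g3 : L.g₃ = -4 * B) {w : ℂ} (hw : w ∉ L.lattice)
    (h3 : 3 * w ∈ L.lattice) :
    3 * L.weierstrassP w ^ 4 + 6 * A * L.weierstrassP w ^ 2 + 12 * B * L.weierstrassP w - A ^ 2 = 0 := by
  have h2 : 2 * w ∉ L.lattice := by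
    intro h2
    apply hw
    have := sub_mem h3 h2
    rwa [show 3 * w - 2 * w = w by ring] at this
  have e1 := L.derivWeierstrassP_sq w hw
  rw [g2, g3] at e1
  have h4 := H35P.dbl_x L w hw h2
  have h5 := H35P.wpd_ne L w hw h2
  have h6 : L.weierstrassP (2 * w) = L.weierstrassP w := by
    have h7 := H55K.CC.wp_per L (-w) h3
    rw [show -w + 3 * w = 2 * w by ring, L.weierstrassP_neg] at h7
    exact h7
  rw [h6] at h4
  unfold H35P.md at h4
  rw [g2, div_pow] at h4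
  have h8 : (6 * L.weierstrassP w ^ 2 - -4 * A / 2) ^ 2 / L.derivWeierstrassP w ^ 2 = 12 * L.weierstrassP w := by
    linear_combination (-4 : ℂ) * h4
  rw [div_eq_iff (pow_ne_zero 2 h5), e1] at h8
  linear_combination (-1 / 4 : ℂ) * h8

/-- Index 3. -/
theorem over_three {L L' : PeriodPair} {A B : ℂ} (g2 : L.g₂ = -4 * A) (g3 : L.g₃ = -4 * B) {w : ℂ} (hw : w ∉ L.lattice)
    (h3 : 3 * w ∈ L.lattice) (hL' : ∀ z, z ∈ L'.lattice ↔ ∃ k : ℤ, z - k * w ∈ L.lattice) {e : ℂ} (he : L.weierstrassP w = e) :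
    3 * e ^ 4 + 6 * A * e ^ 2 + 12 * B * e - A ^ 2 = 0 ∧ L'.g₂ = -4 * (-9 * A - 30 * e ^ 2) ∧
      L'.g₃ = -4 * (-27 * B - 70 * e ^ 3 - 42 * A * e) := by
  obtain ⟨hR, hne⟩ := rep_three hw h3 hL'
  have h4 := y1_three_eq L g2 g3 hw h3
  rw [he] at h4
  have hout : ∀ z, z ∉ L'.lattice → z ∉ L.lattice ∧ z + w ∉ L.lattice ∧ z - w ∉ L.lattice := by
    intro z hz
    refine ⟨fun h1 => hz (hR.le z h1), fun h1 => hz ((hL' z).2 ⟨-1, ?_⟩), fun h1 => hz ((hL' z).2 ⟨1, ?_⟩)⟩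
    · push_cast
      have e1 : z - -1 * w = z + w := by ring
      rw [e1]
      exact h1
    · push_cast
      rw [one_mul]
      exact h1
  obtain ⟨a, b⟩ := over_gen (t := 2 * (3 * e ^ 2 + A)) (u := 4 * (e ^ 3 + A * e + B)) g2 g3 hR.le (Or.inr ⟨rfl, rfl, h4⟩)
    (fun z hz => by
    obtain ⟨a1, a2, a3⟩ := hout z hz
    have a4 := (three_add L g2 g3 hw a1 a2 a3).1
    rwa [he] at a4) (fun z hz => by
    obtain ⟨a1, a2, a3⟩ := hout z hz
    have a4 := (three_add L g2 g3 hw a1 a2 a3).2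
    rw [sum_wp hR hz, Finset.sum_pair hne, L.weierstrassP_neg, ← sub_eq_add_neg, a4, he]
    unfold vx
    ring)
  refine ⟨h4, ?_, ?_⟩
  · rw [a]; ring
  · rw [b]; ring

end H55Y
end

-- from Lib.H55Y.Y3
section

/-! # H55Y: the field of discriminant -7: the points of order two -/

open NumberField IsDedekindDomain WeierstrassCurve

namespace H55Y

open H55P (IQ embF eF LF Per Nm)
open H55K (cj)
open H55W

variable {F : Type} [Field F] [NumberField F] [IQ F]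

/-- The point 1/α of order two. -/
theorem y3_one {α : 𝓞 F} (hα : α ^ 2 - α + 2 = 0) (hG : Gen α) {A B : ℂ} (g2 : (LF F).g₂ = -4 * A) (g3 : (LF F).g₃ = -4 * B) :
    (LF F).weierstrassP ((1 - eF F α) / 2) ^ 3 + A * (LF F).weierstrassP ((1 - eF F α) / 2) + B = 0 ∧
      (eF F α) ^ 2 * A = 5 * (LF F).weierstrassP ((1 - eF F α) / 2) ^ 2 := by
  set a := eF F α with ha
  have hc : a ^ 2 - a + 2 = 0 := by
    have := congrArg (eF F) hα
    rwa [map_add, map_sub, map_pow, map_ofNat, map_zero] at this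
  have ha0 : a ≠ 0 := by
    intro h
    rw [h] at hc
    norm_num at hc
  have hinv : a⁻¹ = (1 - a) / 2 := by
    refine inv_eq_of_mul_eq_one_right ?_
    linear_combination (-1 / 2 : ℂ) * hc
  obtain ⟨L', hL, h2, h3⟩ := H55K.lat_scale (LF F) a⁻¹ (inv_ne_zero ha0)
  have hw : (1 - a) / 2 ∉ (LF F).lattice := by
    intro h
    have e1 : (1 - a) / 2 = eF F (((1 : ℤ) : 𝓞 F) + ((-1 : ℤ) : 𝓞 F) * α) / 2 := by
      push_cast
      rw [map_add, map_one, map_mul, map_neg, map_one, ← ha]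
      ring
    rw [e1] at h
    have := (two_int hG (y2_half h)).1
    omega
  have hw2 : 2 * ((1 - a) / 2) ∈ (LF F).lattice := by
    rw [H55P.mem_LF]
    exact ⟨1 - α, by rw [map_sub, map_one, ← ha]; ring⟩
  have hL' : ∀ z, z ∈ L'.lattice ↔ ∃ k : ℤ, z - k * ((1 - a) / 2) ∈ (LF F).lattice := by
    intro z
    rw [hL]
    constructor
    · rintro ⟨l, hl, rfl⟩
      obtain ⟨y, rfl⟩ := (H55P.mem_LF l).1 hl
      obtain ⟨c, d, rfl⟩ := hG.rep y
      refine ⟨c, (H55P.mem_LF _).2 ⟨d, ?_⟩⟩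
      rw [hinv, map_add, map_mul, map_intCast, map_intCast, ← ha]
      linear_combination (-(d : ℂ) / 2) * hc
    · rintro ⟨k, hk⟩
      obtain ⟨y, hy⟩ := (H55P.mem_LF _).1 hk
      refine ⟨eF F (k + α * y), (H55P.mem_LF _).2 ⟨_, rfl⟩, ?_⟩
      rw [hinv, map_add, map_mul, map_intCast, ← ha, ← hy]
      linear_combination (1 / 2 : ℂ) * (z - k * ((1 - a) / 2)) * hc
  obtain ⟨e1, e2, -⟩ := over_two g2 g3 hw hw2 hL' (e := (LF F).weierstrassP ((1 - a) / 2)) rfl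
  refine ⟨e1, ?_⟩
  rw [h2, g2, inv_pow, div_inv_eq_mul] at e2
  have h4 : a ^ 4 = 2 - 3 * a := by linear_combination (a ^ 2 + a - 1) * hc
  linear_combination (1 / 12 : ℂ) * e2 + (1 / 3 : ℂ) * A * h4 + A * hc

/-- The invariants of the lattice of integers in terms of the point 1/2. -/
theorem y3_rel {α : 𝓞 F} (hα : α ^ 2 - α + 2 = 0) (hG : Gen α) {A B : ℂ} (g2 : (LF F).g₂ = -4 * A) (g3 : (LF F).g₃ = -4 * B)
    {e : ℂ} (he : (LF F).weierstrassP (1 / 2) = e) : 7 * A = -5 * e ^ 2 ∧ 7 * B = -2 * e ^ 3 := by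
  set a := eF F α with ha
  have hc : a ^ 2 - a + 2 = 0 := by
    have := congrArg (eF F) hα
    rwa [map_add, map_sub, map_pow, map_ofNat, map_zero] at this
  have hα' : (1 - α) ^ 2 - (1 - α) + 2 = 0 := by linear_combination hα
  have hG' : Gen (1 - α) := by
    refine ⟨fun x => ?_, fun h => hG.ne ?_⟩
    · obtain ⟨c, d, rfl⟩ := hG.rep x
      exact ⟨c + d, -d, by push_cast; ring⟩
    · rw [map_sub, map_one] at h
      linear_combination -h
  obtain ⟨p1, q1⟩ := y3_one hα hG g2 g3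
  obtain ⟨p2, q2⟩ := y3_one hα' hG' g2 g3
  have e1 : (1 - eF F (1 - α)) / 2 = a / 2 := by
    rw [map_sub, map_one, ← ha]
    ring
  have e2 : eF F (1 - α) = 1 - a := by rw [map_sub, map_one, ← ha]
  rw [e1] at p2 q2
  rw [e2] at q2
  rw [← ha] at p1 q1
  -- the points
  have hcase : ∀ c d : ℤ, (¬ 2 ∣ c ∨ ¬ 2 ∣ d) → ((c : ℂ) + d * a) / 2 ∉ (LF F).lattice := by
    intro c d hcd h
    have e3 : ((c : ℂ) + d * a) / 2 = eF F ((c : 𝓞 F) + (d : 𝓞 F) * α) / 2 := by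
      rw [map_add, map_mul, map_intCast, map_intCast, ← ha]
    rw [e3] at h
    obtain ⟨h1, h2⟩ := two_int hG (y2_half h)
    rcases hcd with h3 | h3
    · exact h3 h1
    · exact h3 h2
  have m1 : (1 - a) / 2 ∉ (LF F).lattice := by
    have := hcase 1 (-1) (Or.inl (by omega))
    push_cast at this
    rwa [show (1 + -1 * a) / 2 = (1 - a) / 2 by ring] at this
  have m2 : a / 2 ∉ (LF F).lattice := by
    have := hcase 0 1 (Or.inr (by omega))
    push_cast at this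
    rwa [show (0 + 1 * a) / 2 = a / 2 by ring] at this
  have m3 : (1 : ℂ) / 2 ∉ (LF F).lattice := by
    have := hcase 1 0 (Or.inl (by omega))
    push_cast at this
    rwa [show (1 + 0 * a) / 2 = 1 / 2 by ring] at this
  have n12 : (LF F).weierstrassP ((1 - a) / 2) ≠ (LF F).weierstrassP (a / 2) := by
    refine H35P.wp_ne (LF F) _ _ m1 m2 ?_ ?_
    · rwa [show (1 - a) / 2 + a / 2 = 1 / 2 by ring]
    · have := hcase 1 (-2) (Or.inl (by omega))
      push_cast at this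
      rwa [show (1 - a) / 2 - a / 2 = (1 + -2 * a) / 2 by ring]
  have n13 : (LF F).weierstrassP ((1 - a) / 2) ≠ e := by
    rw [← he]
    refine H35P.wp_ne (LF F) _ _ m1 m3 ?_ ?_
    · have := hcase 2 (-1) (Or.inr (by omega))
      push_cast at this
      rwa [show (1 - a) / 2 + 1 / 2 = (2 + -1 * a) / 2 by ring]
    · have := hcase 0 (-1) (Or.inr (by omega))
      push_cast at this
      rwa [show (1 - a) / 2 - 1 / 2 = (0 + -1 * a) / 2 by ring]
  have n23 : (LF F).weierstrassP (a / 2) ≠ e := by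
    rw [← he]
    refine H35P.wp_ne (LF F) _ _ m2 m3 ?_ ?_
    · have := hcase 1 1 (Or.inl (by omega))
      push_cast at this
      rwa [show a / 2 + 1 / 2 = (1 + 1 * a) / 2 by ring]
    · have := hcase (-1) 1 (Or.inl (by omega))
      push_cast at this
      rwa [show a / 2 - 1 / 2 = (-1 + 1 * a) / 2 by ring]
  have p3 : e ^ 3 + A * e + B = 0 := by
    have h2 : 2 * ((1 : ℂ) / 2) ∈ (LF F).lattice := (H55P.mem_LF _).2 ⟨1, by rw [map_one]; norm_num⟩
    have := y1_two_eq (LF F) g2 g3 m3 h2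
    rwa [he] at this
  set x := (LF F).weierstrassP ((1 - a) / 2)
  set y := (LF F).weierstrassP (a / 2)
  have s1 : x ^ 2 + x * y + y ^ 2 + A = 0 := by
    have h1 : (x - y) * (x ^ 2 + x * y + y ^ 2 + A) = 0 := by linear_combination p1 - p2
    exact (mul_eq_zero.1 h1).resolve_left (sub_ne_zero.2 n12)
  have s2 : x ^ 2 + x * e + e ^ 2 + A = 0 := by
    have h1 : (x - e) * (x ^ 2 + x * e + e ^ 2 + A) = 0 := by linear_combination p1 - p3
    exact (mul_eq_zero.1 h1).resolve_left (sub_ne_zero.2 n13)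
  have s3 : x + y + e = 0 := by
    have h1 : (y - e) * (x + y + e) = 0 := by linear_combination s1 - s2
    exact (mul_eq_zero.1 h1).resolve_left (sub_ne_zero.2 n23)
  have s4 : 5 * (x * y) = -2 * A := by
    linear_combination 5 * s1 + q1 + q2 - 2 * A * hc
  have s5 : e = -x - y := by linear_combination s3
  have s6 : 7 * A = -5 * e ^ 2 := by
    rw [s5]
    linear_combination 5 * s1 + s4
  refine ⟨s6, ?_⟩
  have s7 : B = -(x * y * e) := by
    have : B = -(e ^ 3 + A * e) := by linear_combination p3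
    rw [this, s5]
    linear_combination (x + y) * s1
  rw [s7]
  have s8 : x * y = -2 / 5 * A := by linear_combination (1 / 5 : ℂ) * s4
  rw [s8]
  linear_combination (2 / 5 : ℂ) * e * s6

end H55Y
end

-- from Lib.H55Y.Y4
section

/-! # H55Y: the four nonmaximal orders -/

open NumberField IsDedekindDomain WeierstrassCurve

namespace H55Y

open H55P (IQ embF eF LF Per Nm)
open H55K (cj)
open H55W

variable {F : Type} [Field F] [NumberField F] [IQ F]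

theorem y4_idx {θ : 𝓞 F} (hG : Gen θ) {f : ℕ} (hf : 2 ≤ f) {L : PeriodPair}
    (hL : ∀ z, z ∈ L.lattice ↔ ∃ (a : ℤ) (y : 𝓞 F), z = a + f * eF F y) :
    eF F θ ∉ L.lattice ∧ f * eF F θ ∈ L.lattice ∧
      ∀ z, z ∈ (LF F).lattice ↔ ∃ k : ℤ, z - k * eF F θ ∈ L.lattice := by
  refine ⟨fun h => ?_, (hL _).2 ⟨0, θ, by push_cast; ring⟩, fun z => ?_⟩
  · obtain ⟨a, y, hy⟩ := (hL _).1 h
    apply gen_out hG hf a y
    apply H55P.eF_inj
    rw [map_add, map_mul, map_intCast, map_natCast, hy]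
  · rw [H55P.mem_LF]
    constructor
    · rintro ⟨x, rfl⟩
      obtain ⟨c, d, rfl⟩ := hG.rep x
      refine ⟨d, (hL _).2 ⟨c, 0, ?_⟩⟩
      rw [map_add, map_mul, map_intCast, map_intCast, map_zero]
      ring
    · rintro ⟨k, hk⟩
      obtain ⟨a, y, hy⟩ := (hL _).1 hk
      refine ⟨a + f * y + k * θ, ?_⟩
      rw [map_add, map_add, map_mul, map_mul, map_intCast, map_intCast, map_natCast]
      linear_combination hy

/-- The multiples of an order by a number c: if g₂ and g₃ do not change then c is in the order. -/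
theorem y4_mem {f : ℕ} {L : PeriodPair} (hL : ∀ z, z ∈ L.lattice ↔ ∃ (a : ℤ) (y : 𝓞 F), z = a + f * eF F y) {c : ℂ} (hc : c ≠ 0)
    (h2 : L.g₂ / c ^ 4 = L.g₂) (h3 : L.g₃ / c ^ 6 = L.g₃) : c ∈ L.lattice := by
  obtain ⟨L', hL', a, b⟩ := H55K.lat_scale L c hc
  have h6 : L'.lattice = L.lattice := H55K.lat_eq L' L (a.trans h2) (b.trans h3)
  rw [← h6, hL']
  exact ⟨1, (hL 1).2 ⟨1, 0, by rw [map_zero]; push_cast; ring⟩, (mul_one c).symm⟩

theorem y4_disc {A B : ℚ} (hd : 4 * A ^ 3 + 27 * B ^ 2 ≠ 0) : 4 * (A : ℂ) ^ 3 + 27 * (B : ℂ) ^ 2 ≠ 0 := by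
  exact_mod_cast hd

/-- Discriminant -12. -/
theorem case_w2 {w : 𝓞 F} (hw : w ^ 2 + w + 1 = 0) (hG : Gen w) {A B : ℚ} (hd : 4 * A ^ 3 + 27 * B ^ 2 ≠ 0) {Om : ℂ}
    (h : PerO F 2 (A : ℂ) (B : ℂ) Om) : ∃ a : ℚ, A = -15 * a ^ 2 ∧ B = -22 * a ^ 3 ∧
      Per F ((0 : ℚ) : ℂ) ((-a ^ 3 : ℚ) : ℂ) (2 * Om) := by
  obtain ⟨hO, L, hL, g2, g3⟩ := h
  obtain ⟨h1, h2, h3⟩ := y4_idx hG (f := 2) le_rfl (L := L) (by exact_mod_cast hL)
  obtain ⟨e0, he0⟩ : ∃ e, L.weierstrassP (eF F w) = e := ⟨_, rfl⟩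
  obtain ⟨e1, e2, e3⟩ := over_two (A := A * Om ^ 4) (B := B * Om ^ 6) (by rw [g2]; ring) (by rw [g3]; ring) h1
    (by exact_mod_cast h2) h3 he0
  obtain ⟨e, rfl⟩ : ∃ e, e0 = e * Om ^ 2 := ⟨e0 / Om ^ 2, by field_simp⟩
  have hO4 : Om ^ 4 ≠ 0 := pow_ne_zero 4 hO
  have hO6 : Om ^ 6 ≠ 0 := pow_ne_zero 6 hO
  rw [g2_w hw] at e2
  have f1 : 4 * (A : ℂ) = -15 * e ^ 2 := by
    have : (4 * (A : ℂ) + 15 * e ^ 2) * Om ^ 4 = 0 := by linear_combination (-1 / 4 : ℂ) * e2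
    linear_combination (mul_eq_zero.1 this).resolve_right hO4
  have f2 : 4 * (B : ℂ) = 11 * e ^ 3 := by
    have : (e ^ 3 + A * e + B) * Om ^ 6 = 0 := by linear_combination e1
    linear_combination 4 * (mul_eq_zero.1 this).resolve_right hO6 - e * f1
  have he : e ≠ 0 := by
    rintro rfl
    apply y4_disc hd
    have a1 : (A : ℂ) = 0 := by linear_combination (1 / 4 : ℂ) * f1
    have a2 : (B : ℂ) = 0 := by linear_combination (1 / 4 : ℂ) * f2
    rw [a1, a2]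
    ring
  have hA : (A : ℂ) ≠ 0 := by
    intro h0
    rw [h0, mul_zero] at f1
    have : e ^ 2 = 0 := by linear_combination (1 / 15 : ℂ) * f1
    exact he (pow_eq_zero_iff two_ne_zero |>.1 this)
  obtain ⟨a, ha⟩ : ∃ a : ℚ, (a : ℂ) = -e / 2 := by
    refine ⟨15 * B / (22 * A), ?_⟩
    push_cast
    rw [div_eq_iff (mul_ne_zero (by norm_num) hA)]
    linear_combination (15 / 4 : ℂ) * f2 + (11 / 4 : ℂ) * e * f1
  have he' : e = -2 * a := by linear_combination (2 : ℂ) * ha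
  rw [he'] at f1 f2 e3
  refine ⟨a, ?_, ?_, mul_ne_zero two_ne_zero hO, ?_, ?_⟩
  · have : (A : ℂ) = ((-15 * a ^ 2 : ℚ) : ℂ) := by
      push_cast
      linear_combination (1 / 4 : ℂ) * f1
    exact_mod_cast this
  · have : (B : ℂ) = ((-22 * a ^ 3 : ℚ) : ℂ) := by
      push_cast
      linear_combination (1 / 4 : ℂ) * f2
    exact_mod_cast this
  · rw [g2_w hw]
    push_cast
    ring
  · rw [e3]
    push_cast
    linear_combination (-16 : ℂ) * a * Om ^ 6 * f1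

/-- Discriminant -16. -/
theorem case_i2 {i : 𝓞 F} (hi : i ^ 2 = -1) (hG : Gen i) {A B : ℚ} (hd : 4 * A ^ 3 + 27 * B ^ 2 ≠ 0) {Om : ℂ}
    (h : PerO F 2 (A : ℂ) (B : ℂ) Om) : ∃ a : ℚ, A = -11 * a ^ 2 ∧ B = -14 * a ^ 3 ∧
      Per F ((-a ^ 2 : ℚ) : ℂ) ((0 : ℚ) : ℂ) (2 * Om) := by
  obtain ⟨hO, L, hL, g2, g3⟩ := h
  obtain ⟨h1, h2, h3⟩ := y4_idx hG (f := 2) le_rfl (L := L) (by exact_mod_cast hL)
  obtain ⟨e0, he0⟩ : ∃ e, L.weierstrassP (eF F i) = e := ⟨_, rfl⟩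
  obtain ⟨e1, e2, e3⟩ := over_two (A := A * Om ^ 4) (B := B * Om ^ 6) (by rw [g2]; ring) (by rw [g3]; ring) h1
    (by exact_mod_cast h2) h3 he0
  obtain ⟨e, rfl⟩ : ∃ e, e0 = e * Om ^ 2 := ⟨e0 / Om ^ 2, by field_simp⟩
  have hO4 : Om ^ 4 ≠ 0 := pow_ne_zero 4 hO
  have hO6 : Om ^ 6 ≠ 0 := pow_ne_zero 6 hO
  rw [g3_i hi] at e3
  have f0 : (e : ℂ) ^ 3 + A * e + B = 0 := by
    have : (e ^ 3 + A * e + B) * Om ^ 6 = 0 := by linear_combination e1
    exact (mul_eq_zero.1 this).resolve_right hO6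
  have he : e ≠ 0 := by
    rintro rfl
    have hB : (B : ℂ) = 0 := by linear_combination f0
    have hIc : (eF F i) ^ 2 = -1 := by
      have := congrArg (eF F) hi
      rwa [map_pow, map_neg, map_one] at this
    have hI0 : eF F i ≠ 0 := by
      intro h0
      rw [h0] at hIc
      norm_num at hIc
    apply h1
    refine y4_mem hL hI0 ?_ ?_
    · have : (eF F i) ^ 4 = 1 := by
        have : (eF F i) ^ 4 = ((eF F i) ^ 2) ^ 2 := by ring
        rw [this, hIc]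
        norm_num
      rw [this, div_one]
    · rw [g3, hB]
      simp
  have f1 : 4 * (A : ℂ) = -11 * e ^ 2 := by
    have : (e * (4 * (A : ℂ) + 11 * e ^ 2)) * Om ^ 6 = 0 := by linear_combination (-1 / 8 : ℂ) * e3
    have := (mul_eq_zero.1 ((mul_eq_zero.1 this).resolve_right hO6)).resolve_left he
    linear_combination this
  have f2 : 4 * (B : ℂ) = 7 * e ^ 3 := by linear_combination 4 * f0 - e * f1
  have hA : (A : ℂ) ≠ 0 := by
    intro h0
    rw [h0, mul_zero] at f1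
    have : e ^ 2 = 0 := by linear_combination (1 / 11 : ℂ) * f1
    exact he (pow_eq_zero_iff two_ne_zero |>.1 this)
  obtain ⟨a, ha⟩ : ∃ a : ℚ, (a : ℂ) = -e / 2 := by
    refine ⟨11 * B / (14 * A), ?_⟩
    push_cast
    rw [div_eq_iff (mul_ne_zero (by norm_num) hA)]
    linear_combination (11 / 4 : ℂ) * f2 + (7 / 4 : ℂ) * e * f1
  have he' : e = -2 * a := by linear_combination (2 : ℂ) * ha
  rw [he'] at f1 f2 e2
  refine ⟨a, ?_, ?_, mul_ne_zero two_ne_zero hO, ?_, ?_⟩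
  · have : (A : ℂ) = ((-11 * a ^ 2 : ℚ) : ℂ) := by
      push_cast
      linear_combination (1 / 4 : ℂ) * f1
    exact_mod_cast this
  · have : (B : ℂ) = ((-14 * a ^ 3 : ℚ) : ℂ) := by
      push_cast
      linear_combination (1 / 4 : ℂ) * f2
    exact_mod_cast this
  · rw [e2]
    push_cast
    linear_combination (4 : ℂ) * Om ^ 4 * f1
  · rw [g3_i hi]
    push_cast
    ring

/-- Discriminant -27. -/
theorem case_w3 {w : 𝓞 F} (hw : w ^ 2 + w + 1 = 0) (hG : Gen w) {A B : ℚ} (hd : 4 * A ^ 3 + 27 * B ^ 2 ≠ 0) {Om : ℂ}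
    (h : PerO F 3 (A : ℂ) (B : ℂ) Om) : ∃ a : ℚ, A = -480 * a ^ 2 ∧ B = -4048 * a ^ 3 ∧
      Per F ((0 : ℚ) : ℂ) ((-16 * a ^ 3 : ℚ) : ℂ) (3 * Om) := by
  obtain ⟨hO, L, hL, g2, g3⟩ := h
  obtain ⟨h1, h2, h3⟩ := y4_idx hG (f := 3) (by norm_num) (L := L) (by exact_mod_cast hL)
  obtain ⟨e0, he0⟩ : ∃ e, L.weierstrassP (eF F w) = e := ⟨_, rfl⟩
  obtain ⟨e1, e2, e3⟩ := over_three (A := A * Om ^ 4) (B := B * Om ^ 6) (by rw [g2]; ring) (by rw [g3]; ring) h1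
    (by exact_mod_cast h2) h3 he0
  obtain ⟨e, rfl⟩ : ∃ e, e0 = e * Om ^ 2 := ⟨e0 / Om ^ 2, by field_simp⟩
  have hO4 : Om ^ 4 ≠ 0 := pow_ne_zero 4 hO
  have hO8 : Om ^ 8 ≠ 0 := pow_ne_zero 8 hO
  rw [g2_w hw] at e2
  have f1 : 3 * (A : ℂ) = -10 * e ^ 2 := by
    have : (9 * (A : ℂ) + 30 * e ^ 2) * Om ^ 4 = 0 := by linear_combination (-1 / 4 : ℂ) * e2
    linear_combination (1 / 3 : ℂ) * (mul_eq_zero.1 this).resolve_right hO4
  have f0 : 3 * e ^ 4 + 6 * A * e ^ 2 + 12 * B * e - (A : ℂ) ^ 2 = 0 := by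
    have : (3 * e ^ 4 + 6 * A * e ^ 2 + 12 * B * e - (A : ℂ) ^ 2) * Om ^ 8 = 0 := by linear_combination e1
    exact (mul_eq_zero.1 this).resolve_right hO8
  have he : e ≠ 0 := by
    rintro rfl
    have hA : (A : ℂ) = 0 := by linear_combination (1 / 3 : ℂ) * f1
    have hc : (eF F w) ^ 2 + eF F w + 1 = 0 := by
      have := congrArg (eF F) hw
      rwa [map_add, map_add, map_pow, map_one, map_zero] at this
    have hI0 : eF F w ≠ 0 := by
      intro h0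
      rw [h0] at hc
      norm_num at hc
    apply h1
    refine y4_mem hL hI0 ?_ ?_
    · rw [g2, hA]
      simp
    · have : (eF F w) ^ 6 = 1 := by
        linear_combination ((eF F w) ^ 4 - (eF F w) ^ 3 + eF F w - 1) * hc
      rw [this, div_one]
  have f2 : 108 * (B : ℂ) = 253 * e ^ 3 := by
    have : e * (108 * (B : ℂ) - 253 * e ^ 3) = 0 := by
      linear_combination 9 * f0 + (3 * A - 10 * e ^ 2 - 18 * e ^ 2) * f1
    have := (mul_eq_zero.1 this).resolve_left he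
    linear_combination this
  have hA : (A : ℂ) ≠ 0 := by
    intro h0
    rw [h0, mul_zero] at f1
    have : e ^ 2 = 0 := by linear_combination (1 / 10 : ℂ) * f1
    exact he (pow_eq_zero_iff two_ne_zero |>.1 this)
  obtain ⟨a, ha⟩ : ∃ a : ℚ, (a : ℂ) = -e / 12 := by
    refine ⟨30 * B / (253 * A), ?_⟩
    push_cast
    rw [div_eq_iff (mul_ne_zero (by norm_num) hA)]
    linear_combination (30 / 108 : ℂ) * f2 + (253 / 36 : ℂ) * e * f1
  have he' : e = -12 * a := by linear_combination (12 : ℂ) * ha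
  rw [he'] at f1 f2 e3
  refine ⟨a, ?_, ?_, mul_ne_zero three_ne_zero hO, ?_, ?_⟩
  · have : (A : ℂ) = ((-480 * a ^ 2 : ℚ) : ℂ) := by
      push_cast
      linear_combination (1 / 3 : ℂ) * f1
    exact_mod_cast this
  · have : (B : ℂ) = ((-4048 * a ^ 3 : ℚ) : ℂ) := by
      push_cast
      linear_combination (1 / 108 : ℂ) * f2
    exact_mod_cast this
  · rw [g2_w hw]
    push_cast
    ring
  · rw [e3]
    push_cast
    linear_combination (1 : ℂ) * Om ^ 6 * f2 - 672 * a * Om ^ 6 * f1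

/-- Discriminant -28. -/
theorem case_a2 {α : 𝓞 F} (hα : α ^ 2 - α + 2 = 0) (hG : Gen α) {A B : ℚ} (hd : 4 * A ^ 3 + 27 * B ^ 2 ≠ 0) {Om : ℂ}
    (h : PerO F 2 (A : ℂ) (B : ℂ) Om) : ∃ a : ℚ, A = -595 * a ^ 2 ∧ B = 5586 * a ^ 3 ∧
      Per F ((-35 * a ^ 2 : ℚ) : ℂ) ((98 * a ^ 3 : ℚ) : ℂ) (2 * Om) := by
  obtain ⟨hO, L, hL, g2, g3⟩ := h
  obtain ⟨e0, he0⟩ : ∃ e, (LF F).weierstrassP (1 / 2) = e := ⟨_, rfl⟩
  obtain ⟨A₁, hA₁⟩ : ∃ A₁, (LF F).g₂ = -4 * A₁ := ⟨-(LF F).g₂ / 4, by ring⟩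
  obtain ⟨B₁, hB₁⟩ : ∃ B₁, (LF F).g₃ = -4 * B₁ := ⟨-(LF F).g₃ / 4, by ring⟩
  obtain ⟨r1, r2⟩ := y3_rel hα hG hA₁ hB₁ he0
  obtain ⟨L₂, hL₂, s2, s3⟩ := H55K.lat_scale L (1 / 2) (by norm_num)
  have hw : (1 : ℂ) / 2 ∉ (LF F).lattice := by
    intro hh
    have e1 : (1 : ℂ) / 2 = eF F (((1 : ℤ) : 𝓞 F) + ((0 : ℤ) : 𝓞 F) * α) / 2 := by
      push_cast
      rw [map_add, map_one, zero_mul, map_zero, add_zero]
    rw [e1] at hh
    have := (two_int hG (y2_half hh)).1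
    omega
  have hw2 : 2 * ((1 : ℂ) / 2) ∈ (LF F).lattice := (H55P.mem_LF _).2 ⟨1, by rw [map_one]; norm_num⟩
  have hL' : ∀ z, z ∈ L₂.lattice ↔ ∃ k : ℤ, z - k * (1 / 2) ∈ (LF F).lattice := by
    intro z
    rw [hL₂]
    constructor
    · rintro ⟨l, hl, rfl⟩
      obtain ⟨c, y, rfl⟩ := (hL l).1 hl
      exact ⟨c, (H55P.mem_LF _).2 ⟨y, by push_cast; ring⟩⟩
    · rintro ⟨k, hk⟩
      obtain ⟨y, hy⟩ := (H55P.mem_LF _).1 hk
      exact ⟨k + 2 * eF F y, (hL _).2 ⟨k, y, by push_cast; ring⟩, by linear_combination hy⟩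
  obtain ⟨-, e2, e3⟩ := over_two hA₁ hB₁ hw hw2 hL' he0
  rw [s2, g2] at e2
  rw [s3, g3] at e3
  obtain ⟨e, rfl⟩ : ∃ e, e0 = e * Om ^ 2 := ⟨e0 / Om ^ 2, by field_simp⟩
  have hO4 : Om ^ 4 ≠ 0 := pow_ne_zero 4 hO
  have hO6 : Om ^ 6 ≠ 0 := pow_ne_zero 6 hO
  have f1 : 112 * (A : ℂ) = -85 * e ^ 2 := by
    have : (112 * (A : ℂ) + 85 * e ^ 2) * Om ^ 4 = 0 := by
      linear_combination (-7 / 4 : ℂ) * e2 - 4 * r1
    linear_combination (mul_eq_zero.1 this).resolve_right hO4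
  have f2 : 224 * (B : ℂ) = -57 * e ^ 3 := by
    have : (224 * (B : ℂ) + 57 * e ^ 3) * Om ^ 6 = 0 := by
      linear_combination (-7 / 8 : ℂ) * e3 - 4 * e * Om ^ 2 * r1
    linear_combination (mul_eq_zero.1 this).resolve_right hO6
  have he : e ≠ 0 := by
    rintro rfl
    apply y4_disc hd
    have a1 : (A : ℂ) = 0 := by linear_combination (1 / 112 : ℂ) * f1
    have a2 : (B : ℂ) = 0 := by linear_combination (1 / 224 : ℂ) * f2
    rw [a1, a2]
    ring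
  have hA : (A : ℂ) ≠ 0 := by
    intro h0
    rw [h0, mul_zero] at f1
    have : e ^ 2 = 0 := by linear_combination (1 / 85 : ℂ) * f1
    exact he (pow_eq_zero_iff two_ne_zero |>.1 this)
  obtain ⟨a, ha⟩ : ∃ a : ℚ, (a : ℂ) = -e / 28 := by
    refine ⟨-85 * B / (798 * A), ?_⟩
    push_cast
    rw [div_eq_iff (mul_ne_zero (by norm_num) hA)]
    linear_combination (-85 / 224 : ℂ) * f2 + (57 / 224 : ℂ) * e * f1
  have he' : e = -28 * a := by linear_combination (28 : ℂ) * ha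
  rw [he'] at f1 f2 r1 r2
  refine ⟨a, ?_, ?_, mul_ne_zero two_ne_zero hO, ?_, ?_⟩
  · have : (A : ℂ) = ((-595 * a ^ 2 : ℚ) : ℂ) := by
      push_cast
      linear_combination (1 / 112 : ℂ) * f1
    exact_mod_cast this
  · have : (B : ℂ) = ((5586 * a ^ 3 : ℚ) : ℂ) := by
      push_cast
      linear_combination (1 / 224 : ℂ) * f2
    exact_mod_cast this
  · rw [hA₁]
    push_cast
    linear_combination (-4 / 7 : ℂ) * r1
  · rw [hB₁]
    push_cast
    linear_combination (-4 / 7 : ℂ) * r2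

end H55Y
end

-- from Lib.H35T.R1
section

open NumberField IsDedekindDomain

namespace H35T

open H55B

/-! Chunk R1 (M): basic properties of the cubic residue symbol. k = O/v is a finite field with N = absNorm v elements (H0_finite), om is a primitive cube root
of unity in k (3 is not 0), 3 | N - 1 and for x nonzero in k the element x^((N-1)/3) is a cube root of unity, so 1, om or om^2, which are distinct
modulo v (their differences divide 3). Nonzero and zero: N > 1 so (N-1)/3 >= 1. chi3: exists_chi for k (phi the quotient map), chi x and sym3 v x are both the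
class of x^((N-1)/3); neg_jacobi with f = 1. conj: gen v' := cj (gen v) is a primary prime (exists_gen_eq), absNorm v' = absNorm v, and apply cj. -/

theorem r1_om3 : om ^ 3 = 1 := by linear_combination (om - 1) * om_rel

theorem r1_card (v : HeightOneSpectrum O) [Fintype (O ⧸ v.asIdeal)] :
    Ideal.absNorm v.asIdeal = Fintype.card (O ⧸ v.asIdeal) := by
  rw [Ideal.absNorm_apply, Submodule.cardQuot_apply, Nat.card_eq_fintype_card]

theorem r1_three {v : HeightOneSpectrum O} (h3 : (3 : O) ∉ v.asIdeal) :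
    3 ∣ Ideal.absNorm v.asIdeal - 1 ∧ 1 < Ideal.absNorm v.asIdeal := by
  classical
  let i1 := Ideal.Quotient.field v.asIdeal
  let i2 := @Fintype.ofFinite _ (H0_finite v)
  have hN : Ideal.absNorm v.asIdeal = Fintype.card (O ⧸ v.asIdeal) := r1_card v
  have h : (Ideal.Quotient.mk v.asIdeal) 3 ≠ 0 := by
    rw [Ne, Ideal.Quotient.eq_zero_iff_mem]
    exact h3
  obtain ⟨χ, -, -, hd, -⟩ := exists_chi (O ⧸ v.asIdeal) (Ideal.Quotient.mk v.asIdeal) h
  rw [hN]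
  exact ⟨hd, Fintype.one_lt_card⟩

theorem r1_m {v : HeightOneSpectrum O} (h3 : (3 : O) ∉ v.asIdeal) :
    (Ideal.absNorm v.asIdeal - 1) / 3 * 3 = Ideal.absNorm v.asIdeal - 1 ∧
      0 < (Ideal.absNorm v.asIdeal - 1) / 3 := by
  obtain ⟨h1, h2⟩ := r1_three h3
  obtain ⟨m, hm⟩ := h1
  constructor <;> omega

theorem r1_pow {v : HeightOneSpectrum O} (h3 : (3 : O) ∉ v.asIdeal) {x : O} (hx : x ∉ v.asIdeal) :
    (x ^ ((Ideal.absNorm v.asIdeal - 1) / 3)) ^ 3 - 1 ∈ v.asIdeal := by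
  classical
  let i1 := Ideal.Quotient.field v.asIdeal
  let i2 := @Fintype.ofFinite _ (H0_finite v)
  have hN : Ideal.absNorm v.asIdeal = Fintype.card (O ⧸ v.asIdeal) := r1_card v
  rw [← pow_mul, (r1_m h3).1, hN, ← Ideal.Quotient.eq, map_pow, map_one]
  apply FiniteField.pow_card_sub_one_eq_one
  rw [Ne, Ideal.Quotient.eq_zero_iff_mem]
  exact hx

theorem r1_cases (v : HeightOneSpectrum O) {w : O} (h : w ^ 3 - 1 ∈ v.asIdeal) :
    w - 1 ∈ v.asIdeal ∨ w - om ∈ v.asIdeal ∨ w - om ^ 2 ∈ v.asIdeal := by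
  have e : w ^ 3 - 1 = (w - 1) * ((w - om) * (w - om ^ 2)) := by
    linear_combination (w ^ 2 - w) * om_rel + (1 - w) * r1_om3
  rw [e] at h
  rcases v.isPrime.mem_or_mem h with h | h
  · exact Or.inl h
  · exact Or.inr (v.isPrime.mem_or_mem h)

/-- The three cube roots of unity are distinct modulo v. -/
theorem mu3_inj {v : HeightOneSpectrum O} (h3 : (3 : O) ∉ v.asIdeal) {z z' : O}
    (hz : z = 1 ∨ z = om ∨ z = om ^ 2) (hz' : z' = 1 ∨ z' = om ∨ z' = om ^ 2)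
    (h : z - z' ∈ v.asIdeal) : z = z' := by
  by_contra hne
  apply h3
  have key : ∃ c : O, c * (z - z') = 3 := by
    rcases hz with rfl | rfl | rfl <;> rcases hz' with rfl | rfl | rfl
    · exact absurd rfl hne
    · exact ⟨1 - om ^ 2, by linear_combination r1_om3 - om_rel⟩
    · exact ⟨1 - om, by linear_combination r1_om3 - om_rel⟩
    · exact ⟨-(1 - om ^ 2), by linear_combination r1_om3 - om_rel⟩
    · exact absurd rfl hne
    · exact ⟨om ^ 2 * (1 - om ^ 2), by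
        linear_combination (om ^ 3 - om ^ 2 - om + 2) * r1_om3 - om_rel⟩
    · exact ⟨-(1 - om), by linear_combination r1_om3 - om_rel⟩
    · exact ⟨-(om ^ 2 * (1 - om ^ 2)), by
        linear_combination (om ^ 3 - om ^ 2 - om + 2) * r1_om3 - om_rel⟩
    · exact absurd rfl hne
  obtain ⟨c, hc⟩ := key
  rw [← hc]
  exact v.asIdeal.mul_mem_left _ h

theorem r1_unit (v : HeightOneSpectrum O) {z : O} (hz : z = 1 ∨ z = om ∨ z = om ^ 2) :
    z ^ 3 = 1 ∧ z ∉ v.asIdeal := by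
  have h1 : z ^ 3 = 1 := by
    rcases hz with rfl | rfl | rfl
    · ring
    · exact r1_om3
    · linear_combination (om ^ 3 + 1) * r1_om3
  refine ⟨h1, fun h => v.isPrime.ne_top ?_⟩
  rw [Ideal.eq_top_iff_one, ← h1, pow_succ]
  exact v.asIdeal.mul_mem_left _ h

theorem r1_mul {z z' : O} (hz : z = 1 ∨ z = om ∨ z = om ^ 2) (hz' : z' = 1 ∨ z' = om ∨ z' = om ^ 2) :
    z * z' = 1 ∨ z * z' = om ∨ z * z' = om ^ 2 := by
  rcases hz with rfl | rfl | rfl <;> rcases hz' with rfl | rfl | rfl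
  · left; ring
  · right; left; ring
  · right; right; ring
  · right; left; ring
  · right; right; ring
  · left; linear_combination r1_om3
  · right; right; ring
  · left; linear_combination r1_om3
  · right; left; linear_combination om * r1_om3

theorem r1_root {z : O} (hz : z ^ 3 = 1) : z = 1 ∨ z = om ∨ z = om ^ 2 := by
  have e : (z - 1) * ((z - om) * (z - om ^ 2)) = 0 := by
    linear_combination hz - (z ^ 2 - z) * om_rel - (1 - z) * r1_om3
  rcases mul_eq_zero.1 e with h | h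
  · exact Or.inl (sub_eq_zero.1 h)
  · rcases mul_eq_zero.1 h with h | h
    · exact Or.inr (Or.inl (sub_eq_zero.1 h))
    · exact Or.inr (Or.inr (sub_eq_zero.1 h))

theorem sym3_spec {v : HeightOneSpectrum O} (h3 : (3 : O) ∉ v.asIdeal) {x : O} (hx : x ∉ v.asIdeal) :
    x ^ ((Ideal.absNorm v.asIdeal - 1) / 3) - sym3 v x ∈ v.asIdeal ∧
      (sym3 v x = 1 ∨ sym3 v x = om ∨ sym3 v x = om ^ 2) := by
  classical
  have h := r1_cases v (r1_pow h3 hx)
  unfold sym3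
  rw [if_neg hx]
  by_cases h1 : x ^ ((Ideal.absNorm v.asIdeal - 1) / 3) - 1 ∈ v.asIdeal
  · rw [if_pos h1]
    exact ⟨h1, Or.inl rfl⟩
  · rw [if_neg h1]
    by_cases h2 : x ^ ((Ideal.absNorm v.asIdeal - 1) / 3) - om ∈ v.asIdeal
    · rw [if_pos h2]
      exact ⟨h2, Or.inr (Or.inl rfl)⟩
    · rw [if_neg h2]
      exact ⟨(h.resolve_left h1).resolve_left h2, Or.inr (Or.inr rfl)⟩

theorem sym3_uniq {v : HeightOneSpectrum O} (h3 : (3 : O) ∉ v.asIdeal) {x z : O}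
    (hz : z = 1 ∨ z = om ∨ z = om ^ 2)
    (h : x ^ ((Ideal.absNorm v.asIdeal - 1) / 3) - z ∈ v.asIdeal) : sym3 v x = z := by
  have hx : x ∉ v.asIdeal := by
    intro hx
    apply (r1_unit v hz).2
    have h1 : x ^ ((Ideal.absNorm v.asIdeal - 1) / 3) ∈ v.asIdeal :=
      Ideal.pow_mem_of_mem _ hx _ (r1_m h3).2
    have e : z = x ^ ((Ideal.absNorm v.asIdeal - 1) / 3) -
        (x ^ ((Ideal.absNorm v.asIdeal - 1) / 3) - z) := by ring
    rw [e]
    exact v.asIdeal.sub_mem h1 h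
  obtain ⟨h1, h2⟩ := sym3_spec h3 hx
  apply mu3_inj h3 h2 hz
  have e : sym3 v x - z = (x ^ ((Ideal.absNorm v.asIdeal - 1) / 3) - z) -
      (x ^ ((Ideal.absNorm v.asIdeal - 1) / 3) - sym3 v x) := by ring
  rw [e]
  exact v.asIdeal.sub_mem h h1

theorem sym3_zero {v : HeightOneSpectrum O} {x : O} (hx : x ∈ v.asIdeal) : sym3 v x = 0 := by
  unfold sym3
  rw [if_pos hx]

theorem sym3_mul {v : HeightOneSpectrum O} (h3 : (3 : O) ∉ v.asIdeal) (x y : O) :
    sym3 v (x * y) = sym3 v x * sym3 v y := by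
  by_cases hx : x ∈ v.asIdeal
  · rw [sym3_zero hx, zero_mul, sym3_zero (v.asIdeal.mul_mem_right _ hx)]
  by_cases hy : y ∈ v.asIdeal
  · rw [sym3_zero hy, mul_zero, sym3_zero (v.asIdeal.mul_mem_left _ hy)]
  obtain ⟨h1, h2⟩ := sym3_spec h3 hx
  obtain ⟨h4, h5⟩ := sym3_spec h3 hy
  apply sym3_uniq h3 (r1_mul h2 h5)
  have e : (x * y) ^ ((Ideal.absNorm v.asIdeal - 1) / 3) - sym3 v x * sym3 v y =
      (x ^ ((Ideal.absNorm v.asIdeal - 1) / 3) - sym3 v x) *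
        y ^ ((Ideal.absNorm v.asIdeal - 1) / 3) +
      sym3 v x * (y ^ ((Ideal.absNorm v.asIdeal - 1) / 3) - sym3 v y) := by
    rw [mul_pow]
    ring
  rw [e]
  exact v.asIdeal.add_mem (v.asIdeal.mul_mem_right _ h1) (v.asIdeal.mul_mem_left _ h4)

theorem sym3_congr {v : HeightOneSpectrum O} (h3 : (3 : O) ∉ v.asIdeal) {x y : O}
    (h : x - y ∈ v.asIdeal) : sym3 v x = sym3 v y := by
  by_cases hy : y ∈ v.asIdeal
  · have hx : x ∈ v.asIdeal := by
      have e : x = (x - y) + y := by ring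
      rw [e]
      exact v.asIdeal.add_mem h hy
    rw [sym3_zero hx, sym3_zero hy]
  obtain ⟨h1, h2⟩ := sym3_spec h3 hy
  apply sym3_uniq h3 h2
  have h4 : x ^ ((Ideal.absNorm v.asIdeal - 1) / 3) - y ^ ((Ideal.absNorm v.asIdeal - 1) / 3) ∈
      v.asIdeal := v.asIdeal.mem_of_dvd (sub_dvd_pow_sub_pow _ _ _) h
  have e : x ^ ((Ideal.absNorm v.asIdeal - 1) / 3) - sym3 v y =
      (x ^ ((Ideal.absNorm v.asIdeal - 1) / 3) - y ^ ((Ideal.absNorm v.asIdeal - 1) / 3)) +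
        (y ^ ((Ideal.absNorm v.asIdeal - 1) / 3) - sym3 v y) := by ring
  rw [e]
  exact v.asIdeal.add_mem h4 h1

theorem sym3_cube {v : HeightOneSpectrum O} (h3 : (3 : O) ∉ v.asIdeal) {x : O} (hx : x ∉ v.asIdeal) :
    sym3 v x ^ 3 = 1 := (r1_unit v (sym3_spec h3 hx).2).1

theorem r1_one {v : HeightOneSpectrum O} (h3 : (3 : O) ∉ v.asIdeal) : sym3 v 1 = 1 := by
  apply sym3_uniq h3 (Or.inl rfl)
  rw [one_pow, sub_self]
  exact v.asIdeal.zero_mem

theorem sym3_neg {v : HeightOneSpectrum O} (h3 : (3 : O) ∉ v.asIdeal) (x : O) :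
    sym3 v (-x) = sym3 v x := by
  have h1 : sym3 v (-1) * sym3 v (-1) = 1 := by
    rw [← sym3_mul h3, neg_one_mul, neg_neg, r1_one h3]
  have hm : (-1 : O) ∉ v.asIdeal := by
    intro h
    apply v.isPrime.ne_top
    rw [Ideal.eq_top_iff_one]
    have := v.asIdeal.neg_mem h
    rwa [neg_neg] at this
  have h2 := sym3_cube h3 hm
  have h4 : sym3 v (-1) = 1 := by
    linear_combination h2 - sym3 v (-1) * h1
  rw [← neg_one_mul, sym3_mul h3, h4, one_mul]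

theorem sym3_om {v : HeightOneSpectrum O} (h3 : (3 : O) ∉ v.asIdeal) :
    sym3 v om = om ^ ((Ideal.absNorm v.asIdeal - 1) / 3) := by
  apply sym3_uniq h3
  · apply r1_root
    rw [← pow_mul, mul_comm, pow_mul, r1_om3, one_pow]
  · rw [sub_self]
    exact v.asIdeal.zero_mem

theorem exists_chi3 (v : HeightOneSpectrum O) (h3 : (3 : O) ∉ v.asIdeal) (k : Type) [Field k]
    [Fintype k] (φ : O →+* k) (hφ : Function.Surjective φ) (hker : RingHom.ker φ = v.asIdeal) :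
    ∃ χ : MulChar k O, χ ^ 3 = 1 ∧ χ ≠ 1 ∧ (∀ x : O, χ (φ x) = sym3 v x) ∧
      -jacobiSum χ χ = gen v ∧ Fintype.card k = Ideal.absNorm v.asIdeal := by
  have hcard : Fintype.card k = Ideal.absNorm v.asIdeal := by
    rw [Ideal.absNorm_apply, Submodule.cardQuot_apply, ← hker,
      Nat.card_congr (RingHom.quotientKerEquivOfSurjective hφ).toEquiv, Nat.card_eq_fintype_card]
  have h30 : φ 3 ≠ 0 := by
    rw [Ne, ← RingHom.mem_ker, hker]
    exact h3
  obtain ⟨χ, hχ3, hχ, hd, hχφ, hcj, -⟩ := exists_chi k φ h30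
  refine ⟨χ, hχ3, hχ, ?_, ?_, hcard⟩
  · intro x
    by_cases hx : x ∈ v.asIdeal
    · have h0 : φ x = 0 := by rw [← RingHom.mem_ker, hker]; exact hx
      rw [sym3_zero hx, h0, MulChar.map_zero]
    · have h0 : φ x ≠ 0 := by rw [Ne, ← RingHom.mem_ker, hker]; exact hx
      symm
      apply sym3_uniq h3
      · apply r1_root
        have h1 : (χ ^ 3) (φ x) = 1 := by
          rw [hχ3]
          exact MulChar.one_apply (isUnit_iff_ne_zero.2 h0)
        rwa [MulChar.pow_apply' χ three_ne_zero] at h1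
      · have h5 : φ (x ^ ((Ideal.absNorm v.asIdeal - 1) / 3) - χ (φ x)) = 0 := by
          rw [map_sub, hχφ, map_pow, hcard, sub_self]
        rwa [← RingHom.mem_ker, hker] at h5
  · have h := neg_jacobi v h3 k φ hker 1 one_pos (by rw [pow_one]; exact hcard) χ hχ3 hχ hd hχφ hcj
    rwa [pow_one] at h

theorem exists_conj (v : HeightOneSpectrum O) (h3 : (3 : O) ∉ v.asIdeal) :
    ∃ v' : HeightOneSpectrum O, (3 : O) ∉ v'.asIdeal ∧ gen v' = cj (gen v) ∧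
      ∀ x : O, sym3 v' (cj x) = cj (sym3 v x) := by
  have hp : Prime (cj (gen v)) := (MulEquiv.prime_iff (cj : O ≃* O)).mpr (gen_prime v h3)
  have hpr : Prim (cj (gen v)) := by
    obtain ⟨y, hy⟩ := (gen_spec v h3).2
    refine ⟨cj y, ?_⟩
    have := congrArg cj hy
    rw [map_sub, map_one, map_mul, map_ofNat] at this
    exact this
  obtain ⟨v', h3', hv'⟩ := exists_gen_eq hp hpr
  refine ⟨v', h3', hv', ?_⟩
  have hmem : ∀ x : O, cj x ∈ v'.asIdeal ↔ x ∈ v.asIdeal := by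
    intro x
    rw [← gen_dvd_iff v' h3', ← gen_dvd_iff v h3, hv']
    exact map_dvd_iff cj
  have hN : Ideal.absNorm v'.asIdeal = Ideal.absNorm v.asIdeal := by
    rw [absNorm_gen v' h3', absNorm_gen v h3, hv', E2_Nm_cj]
  intro x
  by_cases hx : x ∈ v.asIdeal
  · rw [sym3_zero hx, map_zero, sym3_zero ((hmem x).2 hx)]
  · obtain ⟨h1, h2⟩ := sym3_spec h3 hx
    apply sym3_uniq h3'
    · apply r1_root
      rw [← map_pow, sym3_cube h3 hx, map_one]
    · rw [hN, ← map_pow, ← map_sub]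
      exact (hmem _).2 h1

end H35T
end

-- from Lib.H35T.R2
section

open NumberField IsDedekindDomain

namespace H35T

open H55B

/-! Chunk R2 (M): the Gauss sum argument. k0 = O/v0, chi from exists_chi3 (order 3), psi0 = FiniteField.primitiveChar k0 kappa, kappa = O/v (the
characteristics are different by hypothesis), with values in R' = CyclotomicField psi0.n kappa (see Mathlib Char.card_pow_card). chi' = chi composed with
O -> kappa -> R' (orderOf chi' = 3: the cube roots of unity stay distinct). g = gaussSum chi' psi. gaussSum_pow_eq_prod_jacobiSum: g^3 = chi'(-1) q0 J(chi', chi')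
= -(image of pi^2 cj(pi)), pi = gen v0, q0 = Nm pi = pi cj pi (jacobiSum_ringHomComp, chi(-1) = 1, -J = pi). Let N = absNorm v = l^f, l the
characteristic of R': gaussSum_frob f times: g^N = gaussSum (chi'^N) (psi^N) = gaussSum chi' (mulShift psi N) (N = 1 mod 3), and gaussSum_mulShift:
chi'(N) g^N = g. g is nonzero (g^3 is nonzero because v does not contain pi, cj pi), so chi'(N) g^(N-1) = 1, g^(N-1) = (g^3)^((N-1)/3) = image of
(-pi^2 cj pi)^((N-1)/3) = image of sym3 v (pi^2 cj pi) (sym3_neg). So sym3 v0 (N) * sym3 v (pi^2 cj pi) is 1 modulo v, both cube roots of unity (mu3_inj):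
sym3 v (pi^2 cj pi) = sym3 v0 (N)^2, N = gen v * cj (gen v) (mul_cj, absNorm_gen). -/

/-- iterated Frobenius of a Gauss sum -/
theorem r2_frob {k0 R' : Type*} [Field k0] [Fintype k0] [Field R'] (p : ℕ) [Fact p.Prime]
    [CharP R' p] (χ : MulChar k0 R') (ψ : AddChar k0 R') (f : ℕ) :
    gaussSum χ ψ ^ (p ^ f) = gaussSum (χ ^ (p ^ f)) (ψ ^ (p ^ f)) := by
  induction f with
  | zero => simp only [pow_zero, pow_one]
  | succ f ih => rw [pow_succ, pow_mul, ih, gaussSum_frob p, ← pow_mul, ← pow_mul]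

theorem r2_abs {k0 R' : Type*} [Field k0] [Fintype k0] [Field R'] (p : ℕ) [Fact p.Prime]
    [CharP R' p] (hp : (p : k0) ≠ 0) (χ : MulChar k0 R') (h3 : χ ^ 3 = 1) (h1 : χ ≠ 1)
    (ψ : AddChar k0 R') (hψ : ψ.IsPrimitive) (hq : (Fintype.card k0 : R') ≠ 0) (f m : ℕ)
    (hN : p ^ f = 3 * m + 1) :
    χ ((p ^ f : ℕ) : k0) * ((Fintype.card k0 : R') * jacobiSum χ χ) ^ m = 1 := by
  have ho : orderOf χ = 3 := orderOf_eq_prime h3 h1
  have hneg : χ (-1) = 1 := MulChar.val_neg_one_eq_one_of_odd_order (n := 3) (by decide) h3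
  have hg3 : gaussSum χ ψ ^ 3 = (Fintype.card k0 : R') * jacobiSum χ χ := by
    have h := gaussSum_pow_eq_prod_jacobiSum (χ := χ) (ψ := ψ) (by rw [ho]; norm_num) hψ
    rw [ho, hneg, one_mul] at h
    rw [h]
    congr 1
    have e : Finset.Ico 1 (3 - 1) = {1} := rfl
    rw [e, Finset.prod_singleton, pow_one]
  have hg : gaussSum χ ψ ≠ 0 := gaussSum_ne_zero_of_nontrivial hq h1 hψ
  have hNu : (((p ^ f : ℕ)) : k0) ≠ 0 := by
    rw [Nat.cast_pow]
    exact pow_ne_zero _ hp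
  have h4 : gaussSum χ ψ ^ (p ^ f) = gaussSum χ (AddChar.mulShift ψ ((p ^ f : ℕ) : k0)) := by
    rw [r2_frob p, AddChar.pow_mulShift]
    congr 1
    rw [hN, pow_succ, pow_mul, h3, one_pow, one_mul]
  have h5 := gaussSum_mulShift χ ψ (Units.mk0 _ hNu)
  rw [Units.val_mk0, ← h4] at h5
  have h6 : gaussSum χ ψ ^ (p ^ f) = ((Fintype.card k0 : R') * jacobiSum χ χ) ^ m * gaussSum χ ψ := by
    rw [hN, pow_succ, pow_mul, hg3]
  rw [h6, ← mul_assoc] at h5
  exact mul_right_cancel₀ hg (by rw [h5, one_mul])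

/-- the residue characteristic -/
theorem r2_char (v : HeightOneSpectrum O) :
    ∃ p f : ℕ, p.Prime ∧ (p : O) ∈ v.asIdeal ∧ Ideal.absNorm v.asIdeal = p ^ f := by
  classical
  let i1 := Ideal.Quotient.field v.asIdeal
  let i2 := @Fintype.ofFinite _ (H0_finite v)
  have hN : Ideal.absNorm v.asIdeal = Fintype.card (O ⧸ v.asIdeal) := r1_card v
  obtain ⟨n, hp, hc⟩ := FiniteField.card (O ⧸ v.asIdeal) (ringChar (O ⧸ v.asIdeal))
  refine ⟨ringChar (O ⧸ v.asIdeal), n, hp, ?_, by rw [hN, hc]⟩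
  rw [← Ideal.Quotient.eq_zero_iff_mem, map_natCast]
  exact ringChar.Nat.cast_ringChar

theorem r2_mem {v : HeightOneSpectrum O} {p f : ℕ} (h : ((p ^ f : ℕ) : O) ∈ v.asIdeal) :
    (p : O) ∈ v.asIdeal := by
  rw [Nat.cast_pow] at h
  exact v.isPrime.mem_of_pow_mem _ h

theorem gauss_law (v0 v : HeightOneSpectrum O) (h30 : (3 : O) ∉ v0.asIdeal) (h3 : (3 : O) ∉ v.asIdeal)
    (hne : ∀ p : ℕ, p.Prime → (p : O) ∈ v0.asIdeal → (p : O) ∉ v.asIdeal) :
    sym3 v (gen v0 ^ 2 * cj (gen v0)) = sym3 v0 (gen v * cj (gen v)) ^ 2 := by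
  classical
  let i1 := Ideal.Quotient.field v.asIdeal
  let i2 := @Fintype.ofFinite _ (H0_finite v)
  let j1 := Ideal.Quotient.field v0.asIdeal
  let j2 := @Fintype.ofFinite _ (H0_finite v0)
  obtain ⟨p0, f0, hp0, hpv0, hN0⟩ := r2_char v0
  obtain ⟨p, f, hp, hpv, hN⟩ := r2_char v
  have hp0v : (p0 : O) ∉ v.asIdeal := hne p0 hp0 hpv0
  have hpv0' : (p : O) ∉ v0.asIdeal := fun h => hne p hp h hpv
  obtain ⟨χ0, hχ3, hχ, hχs, hJ, hcard⟩ := exists_chi3 v0 h30 (O ⧸ v0.asIdeal)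
    (Ideal.Quotient.mk v0.asIdeal) Ideal.Quotient.mk_surjective Ideal.mk_ker
  -- characteristics
  have hpf : Fact p.Prime := ⟨hp⟩
  have hcp : CharP (O ⧸ v.asIdeal) p := by
    have h0 : ((p : ℕ) : O ⧸ v.asIdeal) = 0 := by
      have := Ideal.Quotient.eq_zero_iff_mem.2 hpv
      simpa using this
    exact (CharP.charP_iff_prime_eq_zero hp).2 h0
  have hcp0 : CharP (O ⧸ v0.asIdeal) p0 := by
    have h0 : ((p0 : ℕ) : O ⧸ v0.asIdeal) = 0 := by
      have := Ideal.Quotient.eq_zero_iff_mem.2 hpv0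
      simpa using this
    exact (CharP.charP_iff_prime_eq_zero hp0).2 h0
  have hch : ringChar (O ⧸ v.asIdeal) ≠ ringChar (O ⧸ v0.asIdeal) := by
    rw [ringChar.eq (O ⧸ v.asIdeal) p, ringChar.eq (O ⧸ v0.asIdeal) p0]
    rintro rfl
    exact hp0v hpv
  let ψ := AddChar.FiniteField.primitiveChar (O ⧸ v0.asIdeal) (O ⧸ v.asIdeal) hch
  let R' := CyclotomicField ψ.n (O ⧸ v.asIdeal)
  have hcR : CharP R' p := charP_of_injective_algebraMap (algebraMap (O ⧸ v.asIdeal) R').injective p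
  let ι : O →+* R' := (algebraMap (O ⧸ v.asIdeal) R').comp (Ideal.Quotient.mk v.asIdeal)
  have hι : ∀ x : O, ι x = 0 ↔ x ∈ v.asIdeal := by
    intro x
    rw [← Ideal.Quotient.eq_zero_iff_mem]
    exact map_eq_zero (algebraMap (O ⧸ v.asIdeal) R')
  -- the character
  have hmu : ∀ x : O, x ∉ v0.asIdeal → (χ0 (Ideal.Quotient.mk v0.asIdeal x) = 1 ∨
      χ0 (Ideal.Quotient.mk v0.asIdeal x) = om ∨ χ0 (Ideal.Quotient.mk v0.asIdeal x) = om ^ 2) := by
    intro x hx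
    rw [hχs]
    exact (sym3_spec h30 hx).2
  have hχ1 : χ0.ringHomComp ι ≠ 1 := by
    intro h
    apply hχ
    apply MulChar.ext
    intro a
    obtain ⟨x, hx⟩ := Ideal.Quotient.mk_surjective (a : O ⧸ v0.asIdeal)
    have hx0 : x ∉ v0.asIdeal := by
      intro h0
      rw [Ideal.Quotient.eq_zero_iff_mem.2 h0] at hx
      exact a.ne_zero hx.symm
    have h1 : (χ0.ringHomComp ι) a = 1 := by rw [h, MulChar.one_apply_coe]
    rw [MulChar.ringHomComp_apply] at h1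
    have h2 : χ0 (a : O ⧸ v0.asIdeal) - 1 ∈ v.asIdeal := by
      rw [← hι, map_sub, h1, map_one, sub_self]
    rw [MulChar.one_apply_coe]
    refine mu3_inj h3 ?_ (Or.inl rfl) h2
    rw [← hx]
    exact hmu x hx0
  have hχ31 : (χ0.ringHomComp ι) ^ 3 = 1 := by
    rw [MulChar.ringHomComp_pow, hχ3]
    exact MulChar.ringHomComp_one _
  have hcardO : ((Fintype.card (O ⧸ v0.asIdeal) : ℕ) : O) = gen v0 * cj (gen v0) := by
    rw [hcard, absNorm_gen v0 h30, mul_cj]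
  have hq : (Fintype.card (O ⧸ v0.asIdeal) : R') ≠ 0 := by
    rw [← map_natCast ι, Ne, hι, hcard, hN0]
    intro h
    exact hp0v (r2_mem h)
  have hpu : (p : O ⧸ v0.asIdeal) ≠ 0 := by
    intro h
    apply hpv0'
    rw [← Ideal.Quotient.eq_zero_iff_mem, map_natCast]
    exact h
  obtain ⟨hm, hm0⟩ := r1_m h3
  obtain ⟨-, hN1⟩ := r1_three h3
  have key := r2_abs p hpu (χ0.ringHomComp ι) hχ31 hχ1 ψ.char ψ.prim hq f
    ((Ideal.absNorm v.asIdeal - 1) / 3) (by rw [← hN]; omega)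
  rw [jacobiSum_ringHomComp, MulChar.ringHomComp_apply, ← hN, ← map_natCast ι, hcardO, ← map_mul,
    ← map_pow, ← map_mul] at key
  have hJ' : jacobiSum χ0 χ0 = - gen v0 := by rw [← hJ, neg_neg]
  have hχN : χ0 ((Ideal.absNorm v.asIdeal : ℕ) : O ⧸ v0.asIdeal) = sym3 v0 (gen v * cj (gen v)) := by
    rw [mul_cj, ← absNorm_gen v h3, ← hχs, map_natCast (Ideal.Quotient.mk v0.asIdeal)]
  rw [hJ', hχN] at key
  have hNv0 : gen v * cj (gen v) ∉ v0.asIdeal := by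
    rw [mul_cj, ← absNorm_gen v h3, hN]
    intro h
    exact hpv0' (r2_mem h)
  have hgv : gen v0 * cj (gen v0) ∉ v.asIdeal := by
    rw [mul_cj, ← absNorm_gen v0 h30, hN0]
    intro h
    exact hp0v (r2_mem h)
  have hx : gen v0 ^ 2 * cj (gen v0) ∉ v.asIdeal := by
    intro h
    have e : gen v0 ^ 2 * cj (gen v0) = gen v0 * (gen v0 * cj (gen v0)) := by ring
    rw [e] at h
    rcases v.isPrime.mem_or_mem h with h | h
    · exact hgv (v.asIdeal.mul_mem_right _ h)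
    · exact hgv h
  have hx' : gen v0 * cj (gen v0) * -gen v0 ∉ v.asIdeal := by
    intro h
    apply hx
    have e : gen v0 ^ 2 * cj (gen v0) = -(gen v0 * cj (gen v0) * -gen v0) := by ring
    rw [e]
    exact v.asIdeal.neg_mem h
  obtain ⟨h7, h8⟩ := sym3_spec h3 hx'
  have e9 : sym3 v (gen v0 * cj (gen v0) * -gen v0) = sym3 v (gen v0 ^ 2 * cj (gen v0)) := by
    rw [← sym3_neg h3]
    congr 1
    ring
  rw [e9] at h7 h8
  obtain ⟨-, h10⟩ := sym3_spec h30 hNv0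
  have h11 := sym3_cube h30 hNv0
  have h12 : sym3 v0 (gen v * cj (gen v)) * sym3 v (gen v0 ^ 2 * cj (gen v0)) = 1 := by
    refine mu3_inj h3 (r1_mul h10 h8) (Or.inl rfl) ?_
    have h13 : sym3 v0 (gen v * cj (gen v)) *
        (gen v0 * cj (gen v0) * -gen v0) ^ ((Ideal.absNorm v.asIdeal - 1) / 3) - 1 ∈ v.asIdeal := by
      rw [← hι, map_sub, key, map_one, sub_self]
    have e : sym3 v0 (gen v * cj (gen v)) * sym3 v (gen v0 ^ 2 * cj (gen v0)) - 1 =
        (sym3 v0 (gen v * cj (gen v)) *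
          (gen v0 * cj (gen v0) * -gen v0) ^ ((Ideal.absNorm v.asIdeal - 1) / 3) - 1) -
        sym3 v0 (gen v * cj (gen v)) *
          ((gen v0 * cj (gen v0) * -gen v0) ^ ((Ideal.absNorm v.asIdeal - 1) / 3) -
            sym3 v (gen v0 ^ 2 * cj (gen v0))) := by ring
    rw [e]
    exact v.asIdeal.sub_mem h13 (v.asIdeal.mul_mem_left _ h7)
  linear_combination sym3 v0 (gen v * cj (gen v)) ^ 2 * h12 -
    sym3 v (gen v0 ^ 2 * cj (gen v0)) * h11

end H35T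
end

-- from Lib.H35T.R3
section

open NumberField IsDedekindDomain

namespace H35T

open H55B

/-! Chunk R3 (M): cubic reciprocity. recip_ne: write A = sym3 v (gen v0), B = sym3 v (cj (gen v0)), C = sym3 v0 (gen v), D = sym3 v0 (cj (gen v)), all with
cube 1. gauss_law for (v0, v): A^2 B = (C D)^2, gauss_law for (v, v0) (the hypothesis is symmetric): C^2 D = (A B)^2. Product: A^2 B C^2 D = C^2 D^2 A^2 B^2,
so B D = B^2 D^2, B D = 1, and A^2 B = C^2 D^2 gives A^2 B^3... : A^2 = C^2 D^2 B^(-1) = C^2 D^2 D = C^2, so A = C.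
factor: every primary element is a product of gen v (strong induction on the norm, as X1_ind: a nonunit primary element has a prime divisor gen v, the quotient is
primary; a primary unit is 1: Prim.eq_of_associated). -/

theorem R3_pp (v : HeightOneSpectrum O) : ∃ l n : ℕ, l.Prime ∧ (l : O) ∈ v.asIdeal ∧
    Ideal.absNorm v.asIdeal = l ^ n := by
  have hmax : v.asIdeal.IsMaximal := v.isMaximal
  let _ : Field (O ⧸ v.asIdeal) := Ideal.Quotient.field v.asIdeal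
  have hfin : Finite (O ⧸ v.asIdeal) := Ideal.finiteQuotientOfFreeOfNeBot v.asIdeal v.ne_bot
  let _ : Fintype (O ⧸ v.asIdeal) := Fintype.ofFinite _
  obtain ⟨l, hl⟩ := CharP.exists (O ⧸ v.asIdeal)
  obtain ⟨n, hp, hn⟩ := FiniteField.card (O ⧸ v.asIdeal) l
  refine ⟨l, n, hp, ?_, ?_⟩
  · rw [← Ideal.Quotient.eq_zero_iff_mem, map_natCast]
    exact CharP.cast_eq_zero _ l
  · rw [← hn, Ideal.absNorm_apply, Submodule.cardQuot_apply, Nat.card_eq_fintype_card]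

theorem R3_notmem (v0 v : HeightOneSpectrum O) (h30 : (3 : O) ∉ v0.asIdeal)
    (hne : ∀ p : ℕ, p.Prime → (p : O) ∈ v0.asIdeal → (p : O) ∉ v.asIdeal) :
    gen v0 ∉ v.asIdeal ∧ cj (gen v0) ∉ v.asIdeal := by
  obtain ⟨l, n, hl, hlv, hn⟩ := R3_pp v0
  have h1 : gen v0 * cj (gen v0) ∉ v.asIdeal := by
    rw [mul_cj, ← absNorm_gen v0 h30, hn, Nat.cast_pow]
    intro h
    exact hne l hl hlv (v.isPrime.mem_of_pow_mem n h)
  exact ⟨fun h => h1 (v.asIdeal.mul_mem_right _ h), fun h => h1 (v.asIdeal.mul_mem_left _ h)⟩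

theorem R3_alg {A B C D : O} (hA : A ^ 3 = 1) (hB : B ^ 3 = 1) (hC : C ^ 3 = 1) (hD : D ^ 3 = 1)
    (h1 : A ^ 2 * B = (C * D) ^ 2) (h2 : C ^ 2 * D = (A * B) ^ 2) : A = C := by
  have h3 : B * D - 1 = 0 := by
    have h4 : (A ^ 3) * (C ^ 3) * (B ^ 3) * (D ^ 3) * (B * D - 1) = 0 := by
      have h5 : (A ^ 3) * (C ^ 3) * (B ^ 3) * (D ^ 3) * (B * D - 1) =
          (A * C * B ^ 2 * D ^ 2) * ((C * D) ^ 2 * (A * B) ^ 2 - A ^ 2 * B * (C ^ 2 * D)) := by ring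
      rw [h5, h1, h2]
      ring
    rw [hA, hB, hC, hD] at h4
    linear_combination h4
  have h4 : A ^ 2 = C ^ 2 := by
    linear_combination D * h1 + C ^ 2 * hD - A ^ 2 * h3
  calc A = A ^ 3 * A := by rw [hA, one_mul]
    _ = (A ^ 2) ^ 2 := by ring
    _ = (C ^ 2) ^ 2 := by rw [h4]
    _ = C ^ 3 * C := by ring
    _ = C := by rw [hC, one_mul]

theorem recip_ne (v0 v : HeightOneSpectrum O) (h30 : (3 : O) ∉ v0.asIdeal) (h3 : (3 : O) ∉ v.asIdeal)
    (hne : ∀ p : ℕ, p.Prime → (p : O) ∈ v0.asIdeal → (p : O) ∉ v.asIdeal) :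
    sym3 v (gen v0) = sym3 v0 (gen v) := by
  have hne' : ∀ p : ℕ, p.Prime → (p : O) ∈ v.asIdeal → (p : O) ∉ v0.asIdeal :=
    fun p hp h h' => hne p hp h' h
  obtain ⟨n1, n2⟩ := R3_notmem v0 v h30 hne
  obtain ⟨n3, n4⟩ := R3_notmem v v0 h3 hne'
  have g1 := gauss_law v0 v h30 h3 hne
  have g2 := gauss_law v v0 h3 h30 hne'
  rw [sym3_mul h3, pow_two, sym3_mul h3, sym3_mul h30, ← pow_two] at g1
  rw [sym3_mul h30, pow_two, sym3_mul h30, sym3_mul h3, ← pow_two] at g2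
  exact R3_alg (sym3_cube h3 n1) (sym3_cube h3 n2) (sym3_cube h30 n3) (sym3_cube h30 n4) g1 g2

theorem factor (a : O) (ha : Prim a) : ∃ l : Multiset (HeightOneSpectrum O),
    (∀ v ∈ l, (3 : O) ∉ v.asIdeal) ∧ a = (l.map gen).prod := by
  have key : ∀ n : ℕ, ∀ x : O, Nm x = n → Prim x → ∃ l : Multiset (HeightOneSpectrum O),
      (∀ v ∈ l, (3 : O) ∉ v.asIdeal) ∧ x = (l.map gen).prod := by
    intro n
    induction n using Nat.strong_induction_on with
    | _ n ih =>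
      intro x hn hx
      have hx0 : x ≠ 0 := hx.ne_zero
      by_cases hu : IsUnit x
      · refine ⟨0, fun v hv => absurd hv (Multiset.notMem_zero v), ?_⟩
        rw [Multiset.map_zero, Multiset.prod_zero]
        exact hx.eq_of_associated prim_one (associated_one_iff_isUnit.2 hu)
      · obtain ⟨π, hπ, hπx⟩ := WfDvdMonoid.exists_irreducible_factor hu hx0
        have hπp : Prime π := hπ.prime
        let v : HeightOneSpectrum O := ⟨Ideal.span {π}, (Ideal.span_singleton_prime hπp.ne_zero).2 hπp, by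
          rw [Ne, Ideal.span_singleton_eq_bot]; exact hπp.ne_zero⟩
        have hxv : x ∈ v.asIdeal := Ideal.mem_span_singleton.2 hπx
        have h3 : (3 : O) ∉ v.asIdeal := by
          intro h3
          apply v.isPrime.ne_top
          rw [Ideal.eq_top_iff_one]
          obtain ⟨z, hz⟩ := hx
          have : (1 : O) = x - 3 * z := by rw [← hz]; ring
          rw [this]
          exact v.asIdeal.sub_mem hxv (v.asIdeal.mul_mem_right _ h3)
        obtain ⟨y, hy⟩ := (gen_dvd_iff v h3 x).2 hxv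
        have hg := gen_spec v h3
        have hy0 : y ≠ 0 := by
          rintro rfl
          exact hx0 (by rw [hy, mul_zero])
        have hyP : Prim y := by
          obtain ⟨z, hz⟩ := hx
          obtain ⟨z', hz'⟩ := hg.2
          refine ⟨z - z' * y, ?_⟩
          linear_combination hz - y * hz' - hy
        have hlt : Nm y < n := by
          rw [← hn, hy, Nm_mul]
          have h2 : Nm (gen v) ≠ 0 := fun h => (gen_prime v h3).ne_zero (Nm_eq_zero.1 h)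
          have h3' : Nm (gen v) ≠ 1 := fun h => (gen_prime v h3).not_isUnit (Nm_eq_one.1 h)
          have h4 : Nm y ≠ 0 := fun h => hy0 (Nm_eq_zero.1 h)
          have h5 : 2 ≤ Nm (gen v) := by omega
          have h6 : 0 < Nm y := Nat.pos_of_ne_zero h4
          nlinarith
        obtain ⟨l, hl, hly⟩ := ih (Nm y) hlt y rfl hyP
        refine ⟨v ::ₘ l, ?_, ?_⟩
        · intro w hw
          rcases Multiset.mem_cons.1 hw with h | h
          · rw [h]; exact h3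
          · exact hl w h
        · rw [Multiset.map_cons, Multiset.prod_cons, ← hly]
          exact hy
  exact key (Nm a) a rfl ha

end H35T
end

-- from Lib.H35T.R4
section

open NumberField IsDedekindDomain

namespace H35T

open H55B

/-! Chunk R4 (M): cubic reciprocity for two conjugate primes, and in general. conj_one: let pi = gen v0, gen v = cj pi, v0 <> v. t = -(pi + cj pi) is fixed by cj and
congruent to 1 modulo 3 (-2 = 1), so primary; factor: t = product of gen u, u in l. No u in l has the residue characteristic of v0 (v0 = (pi) and v = (cj pi)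
have prime norm p, p = pi cj pi; if u contains p then u = v0 or v; pi | t gives pi | cj pi, v0 = v). jac3 l pi = product of sym3 u (gen v0) = product of
sym3 v0 (gen u) = sym3 v0 t (recip_ne). For u in l, u contains t, so pi = -cj pi modulo u and sym3 u pi = sym3 u (cj pi) (sym3_neg). The map u -> u' (exists_conj,
gen u' = cj (gen u)) preserves the multiset l (cj t = t, unique factorization into the gen u: gen_inj), and sym3 u' (cj pi) = cj (sym3 u pi), so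
jac3 l (cj pi) = cj (jac3 l pi). So z = jac3 l pi satisfies z = cj z, z^3 = 1: z = 1. So sym3 v0 t = 1, and t = -cj pi modulo v0: sym3 v0 (gen v) =
sym3 v0 (cj pi) = 1.
recip_all: if the residue characteristics are different use recip_ne; if both contain the prime p: v0 <> v forces p = pi cj pi (prime_types; an
inert prime is the only prime above p), gen v = cj (gen v0), and both sides are 1 by conj_one (for (v0, v) and (v, v0)). -/

theorem R4_eq {u w : HeightOneSpectrum O} (h3 : (3 : O) ∉ w.asIdeal) (h : gen w ∈ u.asIdeal) :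
    u = w := by
  have h1 : w.asIdeal ≤ u.asIdeal := by
    rw [(gen_spec w h3).1, Ideal.span_singleton_le_iff_mem]
    exact h
  have h2 := w.isMaximal.eq_of_le u.isPrime.ne_top h1
  exact HeightOneSpectrum.ext h2.symm

theorem R4_mem {u : HeightOneSpectrum O} (h3 : (3 : O) ∉ u.asIdeal) : gen u ∈ u.asIdeal :=
  (gen_dvd_iff u h3 _).1 dvd_rfl

theorem R4_char {v : HeightOneSpectrum O} {p l : ℕ} (hp : p.Prime) (hl : l.Prime)
    (h1 : (p : O) ∈ v.asIdeal) (h2 : (l : O) ∈ v.asIdeal) : p = l := by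
  by_contra hne
  have hc : IsCoprime (p : ℤ) (l : ℤ) := Nat.isCoprime_iff_coprime.mpr ((Nat.coprime_primes hp hl).mpr hne)
  obtain ⟨a, b, hab⟩ := hc
  apply v.isPrime.ne_top
  rw [Ideal.eq_top_iff_one]
  have h3 : (1 : O) = (a : O) * (p : O) + (b : O) * (l : O) := by
    have h4 := congrArg (Int.cast : ℤ → O) hab
    push_cast at h4
    exact h4.symm
  rw [h3]
  exact v.asIdeal.add_mem (v.asIdeal.mul_mem_left _ h1) (v.asIdeal.mul_mem_left _ h2)

theorem R4_uniq : ∀ l l' : Multiset (HeightOneSpectrum O), (∀ v ∈ l, (3 : O) ∉ v.asIdeal) →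
    (∀ v ∈ l', (3 : O) ∉ v.asIdeal) → (l.map gen).prod = (l'.map gen).prod → l = l' := by
  intro l
  induction l using Multiset.induction_on with
  | empty =>
    intro l' _ h' h
    rw [Multiset.map_zero, Multiset.prod_zero] at h
    by_contra hne
    obtain ⟨w, hw⟩ := Multiset.exists_mem_of_ne_zero (Ne.symm hne)
    have h1 : gen w ∣ (l'.map gen).prod := Multiset.dvd_prod (Multiset.mem_map_of_mem _ hw)
    rw [← h] at h1
    exact (gen_prime w (h' w hw)).not_isUnit (isUnit_of_dvd_one h1)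
  | cons u l ih =>
    intro l' hl h' h
    have hu := hl u (Multiset.mem_cons_self u l)
    have hup := gen_prime u hu
    rw [Multiset.map_cons, Multiset.prod_cons] at h
    have h1 : gen u ∣ (l'.map gen).prod := ⟨_, h.symm⟩
    obtain ⟨w, hw, hd⟩ := hup.exists_mem_multiset_map_dvd h1
    have h2 : u = w := R4_eq (h' w hw) ((gen_dvd_iff u hu _).1 hd)
    subst h2
    obtain ⟨m, rfl⟩ := Multiset.exists_cons_of_mem hw
    rw [Multiset.map_cons, Multiset.prod_cons] at h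
    rw [ih m (fun v hv => hl v (Multiset.mem_cons_of_mem hv))
      (fun v hv => h' v (Multiset.mem_cons_of_mem hv)) (mul_left_cancel₀ hup.ne_zero h)]

theorem R4_one {v : HeightOneSpectrum O} (h3 : (3 : O) ∉ v.asIdeal) : sym3 v 1 = 1 := by
  apply sym3_uniq h3 (Or.inl rfl)
  rw [one_pow, sub_self]
  exact v.asIdeal.zero_mem

theorem R4_prod {v : HeightOneSpectrum O} (h3 : (3 : O) ∉ v.asIdeal) (l : Multiset (HeightOneSpectrum O)) :
    sym3 v (l.map gen).prod = (l.map fun u => sym3 v (gen u)).prod := by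
  induction l using Multiset.induction_on with
  | empty => rw [Multiset.map_zero, Multiset.prod_zero, R4_one h3, Multiset.map_zero, Multiset.prod_zero]
  | cons u l ih => rw [Multiset.map_cons, Multiset.prod_cons, sym3_mul h3, ih, Multiset.map_cons,
      Multiset.prod_cons]

theorem R4_fixed {z : O} (h1 : z = cj z) (h3 : z ^ 3 = 1) : z = 1 := by
  have h4 : z * z = (Nm z : O) := by
    have h5 := mul_cj z
    rwa [← h1] at h5
  have h6 : Nm z = 1 := by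
    apply Nm_eq_one.2
    exact IsUnit.of_pow_eq_one h3 three_ne_zero
  rw [h6, Nat.cast_one] at h4
  calc z = z * (z * z) := by rw [h4, mul_one]
    _ = z ^ 3 := by ring
    _ = 1 := h3

theorem R4_cube {l : Multiset (HeightOneSpectrum O)} {x : O} (h : ∀ u ∈ l, sym3 u x ^ 3 = 1) :
    jac3 l x ^ 3 = 1 := by
  unfold jac3
  rw [← Multiset.prod_map_pow]
  apply Multiset.prod_eq_one
  intro y hy
  obtain ⟨u, hu, rfl⟩ := Multiset.mem_map.1 hy
  exact h u hu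

theorem conj_one (v0 v : HeightOneSpectrum O) (h30 : (3 : O) ∉ v0.asIdeal) (h3 : (3 : O) ∉ v.asIdeal)
    (hne : v0 ≠ v) (hc : gen v = cj (gen v0)) : sym3 v0 (gen v) = 1 := by
  classical
  obtain ⟨ℓ, n, hℓ, hℓ0, hn⟩ := R3_pp v0
  have hnorm : gen v0 * gen v = (ℓ : O) ^ n := by
    rw [hc, mul_cj, ← absNorm_gen v0 h30, hn, Nat.cast_pow]
  have hπ0 : gen v0 ∈ v0.asIdeal := R4_mem h30
  have hπv : gen v ∈ v.asIdeal := R4_mem h3
  set t : O := -(gen v0 + gen v) with ht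
  have htP : Prim t := by
    obtain ⟨a, ha⟩ := (gen_spec v0 h30).2
    obtain ⟨b, hb⟩ := (gen_spec v h3).2
    exact ⟨-(a + b) - 1, by rw [ht]; linear_combination -ha - hb⟩
  obtain ⟨l, hl3, hlt⟩ := factor t htP
  have htu : ∀ u ∈ l, t ∈ u.asIdeal := by
    intro u hu
    rw [hlt]
    exact (gen_dvd_iff u (hl3 u hu) _).1 (Multiset.dvd_prod (Multiset.mem_map_of_mem _ hu))
  have hnot0 : ∀ u ∈ l, gen v0 ∉ u.asIdeal := by
    intro u hu h
    have h1 : u = v0 := R4_eq h30 h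
    have h2 := htu u hu
    rw [h1] at h2
    apply hne
    apply R4_eq h3
    have h4 : gen v = -t - gen v0 := by rw [ht]; ring
    rw [h4]
    exact v0.asIdeal.sub_mem (v0.asIdeal.neg_mem h2) hπ0
  have hnotv : ∀ u ∈ l, gen v ∉ u.asIdeal := by
    intro u hu h
    have h1 : u = v := R4_eq h3 h
    have h2 := htu u hu
    rw [h1] at h2
    apply hne
    symm
    apply R4_eq h30
    have h4 : gen v0 = -t - gen v := by rw [ht]; ring
    rw [h4]
    exact v.asIdeal.sub_mem (v.asIdeal.neg_mem h2) hπv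
  have hrec : ∀ u ∈ l, sym3 u (gen v0) = sym3 v0 (gen u) := by
    intro u hu
    apply recip_ne v0 u h30 (hl3 u hu)
    intro p hp hp0 hpu
    have h1 : p = ℓ := R4_char hp hℓ hp0 hℓ0
    have h2 : gen v0 * gen v ∈ u.asIdeal := by
      rw [hnorm]
      rcases Nat.eq_zero_or_pos n with h0 | h0
      · exfalso
        rw [h0, pow_zero] at hnorm
        exact (gen_prime v0 h30).not_isUnit (IsUnit.of_mul_eq_one _ hnorm)
      · rw [← h1]
        exact u.asIdeal.pow_mem_of_mem hpu n h0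
    rcases u.isPrime.mem_or_mem h2 with h | h
    · exact hnot0 u hu h
    · exact hnotv u hu h
  have hj1 : jac3 l (gen v0) = sym3 v0 t := by
    rw [hlt, R4_prod h30]
    unfold jac3
    rw [Multiset.map_congr rfl hrec]
  have hj2 : jac3 l (gen v0) = jac3 l (gen v) := by
    unfold jac3
    congr 1
    apply Multiset.map_congr rfl
    intro u hu
    rw [← sym3_neg (hl3 u hu) (gen v)]
    apply sym3_congr (hl3 u hu)
    have h4 : gen v0 - -gen v = -t := by rw [ht]; ring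
    rw [h4]
    exact u.asIdeal.neg_mem (htu u hu)
  have hσ : ∀ u : HeightOneSpectrum O, ∃ u' : HeightOneSpectrum O, (3 : O) ∉ u.asIdeal →
      (3 : O) ∉ u'.asIdeal ∧ gen u' = cj (gen u) ∧ ∀ x : O, sym3 u' (cj x) = cj (sym3 u x) := by
    intro u
    by_cases h : (3 : O) ∉ u.asIdeal
    · obtain ⟨u', hu'⟩ := exists_conj u h
      exact ⟨u', fun _ => hu'⟩
    · exact ⟨u, fun h' => absurd h' h⟩
  choose σ hσ using hσ
  have hct : cj t = t := by
    rw [ht, map_neg, map_add, hc, cj_cj, add_comm]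
  have hmap : l.map σ = l := by
    apply R4_uniq
    · intro w hw
      obtain ⟨u, hu, rfl⟩ := Multiset.mem_map.1 hw
      exact (hσ u (hl3 u hu)).1
    · exact hl3
    · rw [← hlt, Multiset.map_map]
      have h1 : (l.map (gen ∘ σ)) = (l.map gen).map cj := by
        rw [Multiset.map_map]
        apply Multiset.map_congr rfl
        intro u hu
        exact (hσ u (hl3 u hu)).2.1
      rw [h1, ← map_multiset_prod, ← hlt, hct]
  have hj3 : jac3 l (gen v) = cj (jac3 l (gen v0)) := by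
    have h1 : jac3 l (gen v) = jac3 (l.map σ) (gen v) := by rw [hmap]
    rw [h1]
    unfold jac3
    rw [map_multiset_prod, Multiset.map_map, Multiset.map_map]
    congr 1
    apply Multiset.map_congr rfl
    intro u hu
    show sym3 (σ u) (gen v) = cj (sym3 u (gen v0))
    rw [hc]
    exact (hσ u (hl3 u hu)).2.2 _
  have hz : jac3 l (gen v0) = 1 := by
    apply R4_fixed
    · rw [← hj3, hj2]
    · exact R4_cube fun u hu => sym3_cube (hl3 u hu) (hnot0 u hu)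
  rw [hj1] at hz
  rw [← hz, ← sym3_neg h30 (gen v)]
  apply sym3_congr h30
  have h4 : -gen v - t = gen v0 := by rw [ht]; ring
  rw [h4]
  exact hπ0

theorem recip_all (v0 v : HeightOneSpectrum O) (h30 : (3 : O) ∉ v0.asIdeal) (h3 : (3 : O) ∉ v.asIdeal)
    (hne : v0 ≠ v) : sym3 v (gen v0) = sym3 v0 (gen v) := by
  by_cases h : ∀ p : ℕ, p.Prime → (p : O) ∈ v0.asIdeal → (p : O) ∉ v.asIdeal
  · exact recip_ne v0 v h30 h3 h
  · push Not at h
    obtain ⟨p, hp, hp0, hpv⟩ := h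
    obtain ⟨ℓ, n, hℓ, hℓ0, hn⟩ := R3_pp v0
    have h1 : p = ℓ := R4_char hp hℓ hp0 hℓ0
    have hnorm : gen v0 * cj (gen v0) = (ℓ : O) ^ n := by
      rw [mul_cj, ← absNorm_gen v0 h30, hn, Nat.cast_pow]
    have h2 : gen v0 * cj (gen v0) ∈ v.asIdeal := by
      rw [hnorm]
      rcases Nat.eq_zero_or_pos n with h0 | h0
      · exfalso
        rw [h0, pow_zero] at hnorm
        exact (gen_prime v0 h30).not_isUnit (IsUnit.of_mul_eq_one _ hnorm)
      · rw [← h1]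
        exact v.asIdeal.pow_mem_of_mem hpv n h0
    have hc : gen v = cj (gen v0) := by
      rcases v.isPrime.mem_or_mem h2 with h | h
      · exact absurd (R4_eq h30 h).symm hne
      · obtain ⟨v', h3', hg, -⟩ := exists_conj v0 h30
        rw [← hg] at h
        rw [← hg, R4_eq h3' h]
    rw [conj_one v0 v h30 h3 hne hc, conj_one v v0 h3 h30 hne.symm (by rw [hc, cj_cj])]

end H35T
end

-- from Lib.H55W.K1
section

/-! # H55W, part K: the cubic residue character of a rational integer -/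

open NumberField IsDedekindDomain

namespace H55W

open H55B (O om Prim gen cj Nm)
open H35T (sym3 jac3)

theorem k1_root : IsPrimitiveRoot (om : O) 3 := by
  have h3 : (om : O) ^ 3 = 1 := H35T.r1_om3
  have h1 : (om : O) ≠ 1 := by
    intro h
    have h2 := H55B.om_rel
    rw [h] at h2
    have h4 : ((3 : ℤ) : O) = ((0 : ℤ) : O) := by
      push_cast
      linear_combination h2
    have h5 : (3 : ℤ) = 0 := by exact_mod_cast h4
    omega
  exact (IsPrimitiveRoot.iff_orderOf.2 (orderOf_eq_prime h3 h1))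

theorem k1_pp {v : HeightOneSpectrum O} (h3 : (3 : O) ∉ v.asIdeal) : PP 3 om v.asIdeal :=
  ⟨v.isPrime, v.ne_bot, by exact_mod_cast h3, k1_root, by norm_num⟩

theorem k1_ps {v : HeightOneSpectrum O} (h3 : (3 : O) ∉ v.asIdeal) (x : O) : ps 3 om v.asIdeal x = sym3 v x := by
  by_cases hx : x ∈ v.asIdeal
  · rw [ps_zero (k1_pp h3) hx, H35T.sym3_zero hx]
  · obtain ⟨h1, h2⟩ := H35T.sym3_spec h3 hx
    obtain ⟨i, hi⟩ : ∃ i : ℕ, sym3 v x = om ^ i := by
      rcases h2 with h | h | h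
      · exact ⟨0, by rw [h, pow_zero]⟩
      · exact ⟨1, by rw [h, pow_one]⟩
      · exact ⟨2, h⟩
    rw [hi] at h1 ⊢
    exact ps_uniq (k1_pp h3) h1

/-- The cubic symbol. -/
noncomputable def J3 (x y : O) : O := pj 3 om (Ideal.span {x}) y

theorem k1_pj : ∀ l : Multiset (HeightOneSpectrum O), (∀ v ∈ l, (3 : O) ∉ v.asIdeal) → ∀ y : O,
    J3 (l.map gen).prod y = jac3 l y := by
  intro l
  induction l using Multiset.induction_on with
  | empty =>
    intro _ y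
    unfold J3 jac3
    rw [Multiset.map_zero, Multiset.prod_zero, Multiset.map_zero, Multiset.prod_zero, Ideal.span_singleton_one, pj_top]
  | cons v l ih =>
    intro hl y
    have hv := hl v (Multiset.mem_cons_self v l)
    have hl' : ∀ u ∈ l, (3 : O) ∉ u.asIdeal := fun u hu => hl u (Multiset.mem_cons_of_mem hu)
    have h1 := ih hl' y
    have hne : (l.map gen).prod ≠ 0 := by
      rw [Ne, Multiset.prod_eq_zero_iff]
      intro h0
      obtain ⟨u, hu, h2⟩ := Multiset.mem_map.1 h0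
      exact (H55B.gen_prime u (hl' u hu)).ne_zero h2
    have hgne : gen v ≠ 0 := (H55B.gen_prime v hv).ne_zero
    unfold J3 jac3 at h1 ⊢
    rw [Multiset.map_cons, Multiset.prod_cons, Multiset.map_cons, Multiset.prod_cons, ← Ideal.span_singleton_mul_span_singleton,
      pj_mul_left (by rwa [Ne, Ideal.span_singleton_eq_bot]) (by rwa [Ne, Ideal.span_singleton_eq_bot]), h1,
      ← (H55B.gen_spec v hv).1, pj_prime (k1_pp hv), k1_ps hv]

theorem k1_PJ {x : O} (hx : IsCoprime x 3) : PJ 3 om (Ideal.span {x}) := by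
  refine ⟨?_, ?_, k1_root, by norm_num⟩
  · rw [Ne, Ideal.span_singleton_eq_bot]
    rintro rfl
    rw [isCoprime_zero_left] at hx
    have h1 : IsUnit (((3 : ℤ)) : O) := by exact_mod_cast hx
    have h2 := s5_unit (F := H55B.F) h1
    rw [Int.isUnit_iff] at h2
    omega
  · rw [Ideal.isCoprime_span_singleton_iff]
    exact_mod_cast hx

theorem k1_mul {x : O} (hx : IsCoprime x 3) (y z : O) : J3 x (y * z) = J3 x y * J3 x z := pj_mul (k1_PJ hx) y z

theorem k1_congr {x : O} (hx : IsCoprime x 3) {y z : O} (h : x ∣ y - z) : J3 x y = J3 x z :=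
  pj_congr (k1_PJ hx) (Ideal.mem_span_singleton.2 h)

theorem k1_one {x : O} (hx : IsCoprime x 3) : J3 x 1 = 1 := pj_one (k1_PJ hx)

theorem k1_cube {x y : O} (hx : IsCoprime x 3) (h : IsCoprime x y) : J3 x y ^ 3 = 1 :=
  pj_root (k1_PJ hx) ((Ideal.isCoprime_span_singleton_iff _ _).2 h.symm)

theorem k1_neg {x : O} (hx : IsCoprime x 3) : J3 x (-1) = 1 := by
  have h1 : J3 x (-1) ^ 3 = 1 := k1_cube hx isCoprime_one_right.neg_right
  have h2 : J3 x (-1) ^ 2 = 1 := by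
    rw [pow_two, ← k1_mul hx, neg_one_mul, neg_neg, k1_one hx]
  rw [pow_succ, h2, one_mul] at h1
  exact h1

theorem k1_om {x : O} (hx : IsCoprime x 3) : 3 ∣ Nm x - 1 ∧ J3 x om = om ^ ((Nm x - 1) / 3) := pj_zeta (k1_PJ hx)

theorem k1_left {x x' : O} (hx : x ≠ 0) (hx' : x' ≠ 0) (y : O) : J3 (x * x') y = J3 x y * J3 x' y := by
  unfold J3
  rw [← Ideal.span_singleton_mul_span_singleton,
      pj_mul_left (by rwa [Ne, Ideal.span_singleton_eq_bot]) (by rwa [Ne, Ideal.span_singleton_eq_bot])]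

end H55W
end

-- from Lib.H55W.K2
section

/-! # H55W, part K: cubic reciprocity -/

open NumberField IsDedekindDomain

namespace H55W

open H55B (O om Prim gen cj Nm)
open H35T (sym3 jac3)

theorem k2_not {x y : O} (h : IsCoprime x y) (v : HeightOneSpectrum O) (hx : x ∈ v.asIdeal) : y ∉ v.asIdeal := by
  intro hy
  obtain ⟨a, b, hab⟩ := h
  apply v.isPrime.ne_top
  rw [Ideal.eq_top_iff_one, ← hab]
  exact v.asIdeal.add_mem (v.asIdeal.mul_mem_left _ hx) (v.asIdeal.mul_mem_left _ hy)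

/-- The prime factors. -/
theorem k2_mem {l : Multiset (HeightOneSpectrum O)} (hl : ∀ v ∈ l, (3 : O) ∉ v.asIdeal) {v : HeightOneSpectrum O} (hv : v ∈ l) :
    (l.map gen).prod ∈ v.asIdeal :=
  (H55B.gen_dvd_iff v (hl v hv) _).1 (Multiset.dvd_prod (Multiset.mem_map_of_mem _ hv))

/-- Cubic reciprocity for primary elements. -/
theorem k2_rec {x y : O} (hx : Prim x) (hy : Prim y) (h : IsCoprime x y) : J3 x y = J3 y x := by
  obtain ⟨l, hl, rfl⟩ := H35T.factor x hx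
  obtain ⟨l', hl', rfl⟩ := H35T.factor y hy
  rw [k1_pj l hl, k1_pj l' hl']
  unfold jac3
  have e1 : (l.map fun v => sym3 v (l'.map gen).prod) = l.map fun v => (l'.map fun u => sym3 v (gen u)).prod := by
    apply Multiset.map_congr rfl
    intro v hv
    exact H35T.R4_prod (hl v hv) l'
  have e2 : (l'.map fun v => sym3 v (l.map gen).prod) = l'.map fun u => (l.map fun v => sym3 v (gen u)).prod := by
    apply Multiset.map_congr rfl
    intro u hu
    rw [H35T.R4_prod (hl' u hu) l]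
    congr 1
    apply Multiset.map_congr rfl
    intro v hv
    refine H35T.recip_all v u (hl v hv) (hl' u hu) ?_
    rintro rfl
    exact k2_not h v (k2_mem hl hv) (k2_mem hl' hu)
  rw [e1, e2]
  exact Multiset.prod_map_prod_map l l'

/-- The symbol of two rational integers. -/
theorem k2_rat {c d : ℤ} (hc : Prim (c : O)) (h : IsCoprime c d) : J3 (c : O) (d : O) = 1 := by
  have hcd : IsCoprime (c : O) (d : O) := by
    have := h.map (Int.castRingHom O)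
    exact this
  have hcj : ∀ n : ℤ, cj (n : O) = n := fun n => map_intCast cj n
  obtain ⟨l, hl, hc'⟩ := H35T.factor (c : O) hc
  choose! σ hσ using fun (v : HeightOneSpectrum O) (h3 : (3 : O) ∉ v.asIdeal) => H35T.exists_conj v h3
  have h1 : ∀ v ∈ l.map σ, (3 : O) ∉ v.asIdeal := by
    intro v hv
    obtain ⟨u, hu, rfl⟩ := Multiset.mem_map.1 hv
    exact (hσ u (hl u hu)).1
  have h2 : ((l.map σ).map gen).prod = cj (c : O) := by
    rw [hc', map_multiset_prod, Multiset.map_map, Multiset.map_map]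
    congr 1
    apply Multiset.map_congr rfl
    intro u hu
    exact (hσ u (hl u hu)).2.1
  have h3 : l.map σ = l := H35T.R4_uniq _ _ h1 hl (by rw [h2, hcj, hc'])
  have h4 : jac3 (l.map σ) (d : O) = cj (jac3 l (d : O)) := by
    unfold jac3
    rw [map_multiset_prod, Multiset.map_map, Multiset.map_map]
    congr 1
    apply Multiset.map_congr rfl
    intro u hu
    have := (hσ u (hl u hu)).2.2 (d : O)
    rw [hcj] at this
    exact this
  rw [h3] at h4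
  rw [hc', k1_pj l hl]
  refine H35T.R4_fixed h4 (H35T.R4_cube fun u hu => H35T.sym3_cube (hl u hu) ?_)
  exact k2_not hcd u (by rw [hc']; exact k2_mem hl hu)

theorem k2_prim {c : ℤ} (h : c % 3 = 1) : Prim (c : O) := by
  refine ⟨((c / 3 : ℤ) : O), ?_⟩
  have h1 : c = 3 * (c / 3) + 1 := by omega
  have h2 : (c : O) = ((3 * (c / 3) + 1 : ℤ) : O) := by rw [← h1]
  rw [h2]
  push_cast
  ring

theorem k2_cop3 {x : O} (h : Prim x) : IsCoprime x 3 := h.coprime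

/-- x = 1 modulo 3 and q: the symbol (q/x) is 1 for a prime number q ≠ 3. -/
theorem k2_prime {q : ℕ} (hq : q.Prime) (h3 : q ≠ 3) {x : O} (hx : Prim x) (hqx : (q : O) ∣ x - 1) : J3 x (q : O) = 1 := by
  have hcop : IsCoprime x (q : O) := by
    obtain ⟨z, hz⟩ := hqx
    exact ⟨1, -z, by linear_combination hz⟩
  have hq3 : q % 3 = 1 ∨ q % 3 = 2 := by
    have h0 : q % 3 ≠ 0 := fun h => h3 ((Nat.prime_dvd_prime_iff_eq Nat.prime_three hq).1 (Nat.dvd_of_mod_eq_zero h)).symm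
    omega
  have hpx := k2_cop3 hx
  rcases hq3 with h1 | h1
  · have hp : Prim (q : O) := by
      have := k2_prim (c := (q : ℤ)) (by omega)
      rwa [Int.cast_natCast] at this
    rw [k2_rec hx hp hcop, k1_congr (k2_cop3 hp) hqx, k1_one (k2_cop3 hp)]
  · have hp : Prim (-(q : O)) := by
      have := k2_prim (c := -(q : ℤ)) (by omega)
      rwa [Int.cast_neg, Int.cast_natCast] at this
    have h4 : J3 x (q : O) = J3 x (-(q : O)) := by
      rw [← neg_one_mul (q : O), k1_mul hpx, k1_neg hpx, one_mul]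
    rw [h4, k2_rec hx hp hcop.neg_right, k1_congr (k2_cop3 hp) (neg_dvd.2 hqx), k1_one (k2_cop3 hp)]

end H55W
end

-- from Lib.H55W.K3
section

/-! # H55W, part K: the cubic residue character of 3 -/

open NumberField IsDedekindDomain

namespace H55W

open H55B (O om Prim gen cj Nm)

theorem k3_gcd (A B : ℤ) (hA : A % 3 = 1) (hB : B % 27 = 0) : ∃ g a b : ℤ, A = g * a ∧ B = g * b ∧ IsCoprime a b ∧ g % 3 = 1 ∧
    a % 3 = 1 ∧ b % 27 = 0 := by
  have hA0 : A ≠ 0 := by rintro rfl; omega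
  have hg0 : 0 < Int.gcd A B := Int.gcd_pos_of_ne_zero_left _ hA0
  obtain ⟨a, ha⟩ := Int.gcd_dvd_left A B
  obtain ⟨b, hb⟩ := Int.gcd_dvd_right A B
  have hcop : IsCoprime a b := by
    have h1 := Int.isCoprime_iff_gcd_eq_one.2 (Int.gcd_div_gcd_div_gcd hg0)
    have h2 : A / (Int.gcd A B : ℤ) = a := Int.ediv_eq_of_eq_mul_right (by omega) ha
    have h3 : B / (Int.gcd A B : ℤ) = b := Int.ediv_eq_of_eq_mul_right (by omega) hb
    rwa [h2, h3] at h1
  set G : ℤ := (Int.gcd A B : ℤ) with hG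
  have hGo : G % 3 ≠ 0 := by
    intro h1
    obtain ⟨k, hk⟩ : ∃ k, G = 3 * k := ⟨G / 3, by omega⟩
    rw [hk] at ha
    have : A = 3 * (k * a) := by rw [ha]; ring
    omega
  have key : ∀ g : ℤ, g % 3 = 1 → ∀ a' b' : ℤ, A = g * a' → B = g * b' → a' % 3 = 1 ∧ b' % 27 = 0 := by
    intro g hg3 a' b' h1 h2
    obtain ⟨k, hk⟩ : ∃ k, g = 3 * k + 1 := ⟨g / 3, by omega⟩
    constructor
    · have : A = 3 * (k * a') + a' := by rw [h1, hk]; ring
      omega
    · have h3 : (27 : ℤ) ∣ g * b' := by rw [← h2]; exact Int.dvd_of_emod_eq_zero hB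
      have h5 : IsCoprime (3 : ℤ) g := ⟨-k, 1, by rw [hk]; ring⟩
      have h6 := IsCoprime.pow_left (m := 3) h5
      norm_num at h6
      exact Int.emod_eq_zero_of_dvd (h6.dvd_of_dvd_mul_left h3)
  have h4 : G % 3 = 1 ∨ G % 3 = 2 := by omega
  rcases h4 with h4 | h4
  · obtain ⟨h5, h6⟩ := key G h4 a b ha hb
    exact ⟨G, a, b, ha, hb, hcop, h4, h5, h6⟩
  · have h7 : A = (-G) * (-a) := by rw [ha]; ring
    have h8 : B = (-G) * (-b) := by rw [hb]; ring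
    obtain ⟨h5, h6⟩ := key (-G) (by omega) (-a) (-b) h7 h8
    exact ⟨-G, -a, -b, h7, h8, hcop.neg_neg, by omega, h5, h6⟩

theorem k3_om3 : (om : O) ^ 3 = 1 := H35T.r1_om3

/-- The exponent of om depends on the norm modulo 9. -/
theorem k3_exp {M N : ℕ} (hM : 3 ∣ M - 1) (hN : 3 ∣ N - 1) (hM1 : 1 ≤ M) (hN1 : 1 ≤ N) {t : ℤ} (h : (M : ℤ) - N = 9 * t) :
    (om : O) ^ ((M - 1) / 3) = om ^ ((N - 1) / 3) := by
  obtain ⟨a, ha⟩ := hM
  obtain ⟨b, hb⟩ := hN
  have h1 : (M - 1) / 3 = a := by omega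
  have h2 : (N - 1) / 3 = b := by omega
  rw [h1, h2]
  have h3 : (a : ℤ) - b = 3 * t := by omega
  have key : ∀ n k : ℕ, (om : O) ^ (n + 3 * k) = om ^ n := fun n k => by
    rw [pow_add, pow_mul, k3_om3, one_pow, mul_one]
  rcases le_total a b with hab | hab
  · obtain ⟨k, hk⟩ : ∃ k : ℕ, b = a + 3 * k := ⟨(-t).toNat, by omega⟩
    rw [hk, key]
  · obtain ⟨k, hk⟩ : ∃ k : ℕ, a = b + 3 * k := ⟨t.toNat, by omega⟩
    rw [hk, key]

theorem k3_pos {x : O} (hx : x ≠ 0) : 1 ≤ Nm x := Nat.pos_of_ne_zero fun h => hx (H55B.Nm_eq_zero.1 h)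

theorem k3_three {x : O} (hx : (27 : O) ∣ x - 1) : J3 x 3 = 1 := by
  obtain ⟨z, hz⟩ := hx
  obtain ⟨c, d, hcd⟩ := H55B.exists_repr z
  obtain ⟨g, a, b, hA, hB, hab, hg, ha, hb⟩ := k3_gcd (1 + 27 * c) (27 * d) (by omega) (by omega)
  set y : O := (a : O) + (b : O) * om with hy
  have hxy : x = (g : O) * y := by
    have h1 : ((1 + 27 * c : ℤ) : O) = ((g * a : ℤ) : O) := by rw [hA]
    have h2 : ((27 * d : ℤ) : O) = ((g * b : ℤ) : O) := by rw [hB]
    push_cast at h1 h2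
    rw [hy]
    rw [hcd] at hz
    linear_combination hz + h1 + om * h2
  obtain ⟨a1, ha1⟩ : ∃ a1, a = 3 * a1 + 1 := ⟨a / 3, by omega⟩
  obtain ⟨b1, hb1⟩ : ∃ b1, b = 27 * b1 := ⟨b / 27, by omega⟩
  have hyP : Prim y := by
    refine ⟨(a1 : O) + 9 * (b1 : O) * om, ?_⟩
    rw [hy, ha1, hb1]; push_cast; ring
  have hgP : Prim (g : O) := k2_prim hg
  have haP : Prim (a : O) := k2_prim ha
  have hcP : Prim ((a + b : ℤ) : O) := k2_prim (by omega)
  have hg3 := k2_cop3 hgP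
  have hy3 := k2_cop3 hyP
  have ha3 := k2_cop3 haP
  have hc3 := k2_cop3 hcP
  rw [hxy, k1_left hgP.ne_zero hyP.ne_zero]
  have hg1 : J3 (g : O) 3 = 1 := by
    have : J3 (g : O) ((3 : ℤ) : O) = 1 := by
      apply k2_rat hgP
      obtain ⟨k, hk⟩ : ∃ k, g = 3 * k + 1 := ⟨g / 3, by omega⟩
      exact ⟨1, -k, by rw [hk]; ring⟩
    rwa [Int.cast_ofNat] at this
  rw [hg1, one_mul]
  -- coprimality
  have hNm : ((Nm y : ℕ) : ℤ) = a ^ 2 - a * b + b ^ 2 := H55B.Nm_repr a b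
  have hyN : y ∣ ((a ^ 2 - a * b + b ^ 2 : ℤ) : O) := by
    refine ⟨cj y, ?_⟩
    rw [H55B.mul_cj, ← hNm, Int.cast_natCast]
  have hya : IsCoprime y (a : O) := by
    have h2 : IsCoprime (a ^ 2 - a * b + b ^ 2) a := by
      have h3 : IsCoprime (b ^ 2) a := (IsCoprime.pow_right (n := 2) hab).symm
      have h4 : a ^ 2 - a * b + b ^ 2 = b ^ 2 + a * (a - b) := by ring
      rw [h4]
      exact IsCoprime.add_mul_left_left h3 _
    have h3 := h2.map (Int.castRingHom O)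
    exact h3.of_isCoprime_of_dvd_left hyN
  have hyb : IsCoprime y (b : O) := by
    have h2 : IsCoprime (a ^ 2 - a * b + b ^ 2) b := by
      have h3 : IsCoprime (a ^ 2) b := (IsCoprime.pow_left (m := 2) hab)
      have h4 : a ^ 2 - a * b + b ^ 2 = a ^ 2 + b * (b - a) := by ring
      rw [h4]
      exact IsCoprime.add_mul_left_left h3 _
    have h3 := h2.map (Int.castRingHom O)
    exact h3.of_isCoprime_of_dvd_left hyN
  have hyc : IsCoprime y ((a + b : ℤ) : O) := by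
    have h5 : IsCoprime a (a + b) := by
      have := IsCoprime.add_mul_left_right hab 1
      rwa [mul_one, add_comm] at this
    have h2 : IsCoprime (a ^ 2 - a * b + b ^ 2) (a + b) := by
      have h3 : IsCoprime (3 : ℤ) (a + b) := ⟨-(a1 + 9 * b1), 1, by rw [ha1, hb1]; ring⟩
      have h6 : IsCoprime (3 * a ^ 2) (a + b) := h3.mul_left (IsCoprime.pow_left h5)
      have h4 : a ^ 2 - a * b + b ^ 2 = 3 * a ^ 2 + (a + b) * (b - 2 * a) := by ring
      rw [h4]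
      exact IsCoprime.add_mul_left_left h6 _
    have h3 := h2.map (Int.castRingHom O)
    exact h3.of_isCoprime_of_dvd_left hyN
  have hca : IsCoprime ((a + b : ℤ) : O) (a : O) := by
    have h5 : IsCoprime (a + b) a := by
      have := IsCoprime.add_mul_left_right hab 1
      rw [mul_one, add_comm] at this
      exact this.symm
    exact h5.map (Int.castRingHom O)
  -- the elements
  have hu : IsUnit (om : O) := IsUnit.of_mul_eq_one (om ^ 2) (by linear_combination (om - 1) * H55B.om_rel)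
  have hcu : ∀ x : O, IsCoprime x om := fun x => by
    obtain ⟨v, hv⟩ := hu.exists_left_inv
    exact ⟨0, v, by rw [zero_mul, zero_add, hv]⟩
  have hlam : ∀ {x : O}, IsCoprime x 3 → IsCoprime x (om - 1) := fun {x} hx =>
    hx.of_isCoprime_of_dvd_right H55B.Z3_lam_dvd_three
  obtain ⟨T, hT⟩ : ∃ T, J3 y om = T := ⟨_, rfl⟩
  obtain ⟨U, hU⟩ : ∃ U, J3 (a : O) om = U := ⟨_, rfl⟩
  obtain ⟨t, ht⟩ : ∃ t, J3 ((a + b : ℤ) : O) om = t := ⟨_, rfl⟩
  obtain ⟨S, hS⟩ : ∃ S, J3 y (om - 1) = S := ⟨_, rfl⟩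
  obtain ⟨s, hs⟩ : ∃ s, J3 ((a + b : ℤ) : O) (om - 1) = s := ⟨_, rfl⟩
  obtain ⟨B, hBB⟩ : ∃ B, J3 y (b : O) = B := ⟨_, rfl⟩
  have hT3 : T ^ 3 = 1 := by rw [← hT]; exact k1_cube hy3 (hcu y)
  have ht3 : t ^ 3 = 1 := by rw [← ht]; exact k1_cube hc3 (hcu _)
  have hS3 : S ^ 3 = 1 := by rw [← hS]; exact k1_cube hy3 (hlam hy3)
  have hs3 : s ^ 3 = 1 := by rw [← hs]; exact k1_cube hc3 (hlam hc3)
  have hB3 : B ^ 3 = 1 := by rw [← hBB]; exact k1_cube hy3 hyb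
  -- 3 = -om^2 (om - 1)^2
  have h3y : J3 y 3 = T ^ 2 * S ^ 2 := by
    rw [H55B.three_eq]
    have e1 : (-om ^ 2 * (om - 1) ^ 2 : O) = (-1) * (om * om * ((om - 1) * (om - 1))) := by ring
    rw [e1, k1_mul hy3, k1_neg hy3, k1_mul hy3, k1_mul hy3, k1_mul hy3, hT, hS]
    ring
  have h3c : t ^ 2 * s ^ 2 = 1 := by
    have h5 : J3 ((a + b : ℤ) : O) 3 = 1 := by
      have : J3 ((a + b : ℤ) : O) ((3 : ℤ) : O) = 1 := by
        apply k2_rat hcP
        exact ⟨1, -(a1 + 9 * b1), by rw [ha1, hb1]; ring⟩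
      rwa [Int.cast_ofNat] at this
    rw [← h5, H55B.three_eq]
    have e1 : (-om ^ 2 * (om - 1) ^ 2 : O) = (-1) * (om * om * ((om - 1) * (om - 1))) := by ring
    rw [e1, k1_mul hc3, k1_neg hc3, k1_mul hc3, k1_mul hc3, k1_mul hc3, ht, hs]
    ring
  -- a = - b om modulo y
  have hBT : B * T = U := by
    have h5 : J3 y (a : O) = B * T := by
      have h6 : J3 y (a : O) = J3 y ((-1) * ((b : O) * om)) := by
        apply k1_congr hy3
        exact ⟨1, by rw [hy]; ring⟩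
      rw [h6, k1_mul hy3, k1_neg hy3, k1_mul hy3, hBB, hT, one_mul]
    have h7 : J3 y (a : O) = U := by
      rw [k2_rec hyP haP hya]
      have h6 : J3 (a : O) y = J3 (a : O) ((b : O) * om) := by
        apply k1_congr ha3
        exact ⟨1, by rw [hy]; ring⟩
      rw [h6, k1_mul ha3, k2_rat haP hab, one_mul, hU]
    rw [← h5, h7]
  -- a + b = - b (om - 1) modulo y
  have hBS : B * S = s := by
    have h5 : J3 y ((a + b : ℤ) : O) = B * S := by
      have h6 : J3 y ((a + b : ℤ) : O) = J3 y ((-1) * ((b : O) * (om - 1))) := by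
        apply k1_congr hy3
        exact ⟨1, by rw [hy]; push_cast; ring⟩
      rw [h6, k1_mul hy3, k1_neg hy3, k1_mul hy3, hBB, hS, one_mul]
    have h7 : J3 y ((a + b : ℤ) : O) = s := by
      rw [k2_rec hyP hcP hyc]
      have h6 : J3 ((a + b : ℤ) : O) y = J3 ((a + b : ℤ) : O) ((-1) * ((a : O) * (om - 1))) := by
        apply k1_congr hc3
        exact ⟨om, by rw [hy]; push_cast; ring⟩
      have h8 : IsCoprime (a + b) a := by
        have := IsCoprime.add_mul_left_right hab 1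
        rw [mul_one, add_comm] at this
        exact this.symm
      rw [h6, k1_mul hc3, k1_neg hc3, k1_mul hc3, k2_rat hcP h8, one_mul, one_mul, hs]
    rw [← h5, h7]
  -- the exponents
  obtain ⟨d1, e1⟩ := k1_om hy3
  obtain ⟨d2, e2⟩ := k1_om ha3
  obtain ⟨d3, e3⟩ := k1_om hc3
  have n2 : ((Nm (a : O) : ℕ) : ℤ) = a ^ 2 := by
    have := H55B.Nm_repr a 0
    rw [Int.cast_zero, zero_mul, add_zero] at this
    rw [this]; ring
  have n3 : ((Nm ((a + b : ℤ) : O) : ℕ) : ℤ) = (a + b) ^ 2 := by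
    have := H55B.Nm_repr (a + b) 0
    rw [Int.cast_zero, zero_mul, add_zero] at this
    rw [this]; ring
  have hTU : T = U := by
    rw [← hT, ← hU, e1, e2]
    refine k3_exp d1 d2 (k3_pos hyP.ne_zero) (k3_pos haP.ne_zero) (t := 3 * (-a * b1 + 27 * b1 ^ 2)) ?_
    rw [hNm, n2, hb1]
    ring
  have htU : t = U := by
    rw [← ht, ← hU, e3, e2]
    refine k3_exp d3 d2 (k3_pos hcP.ne_zero) (k3_pos haP.ne_zero) (t := 3 * (2 * a * b1 + 27 * b1 ^ 2)) ?_
    rw [n3, n2, hb1]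
    ring
  rw [h3y]
  rw [← hTU] at htU hBT
  rw [htU] at h3c
  -- B T = T, so B = 1, S = s, T^2 s^2 = 1
  have hT0 : T ≠ 0 := by
    rintro rfl
    norm_num at hT3
  have hB1 : B = 1 := mul_right_cancel₀ hT0 (by rw [hBT, one_mul])
  rw [hB1, one_mul] at hBS
  rw [hBS, h3c]

end H55W
end

-- from Lib.H55W.K4
section

/-! # H55W, part K: the cubic residue character of a rational integer -/

open NumberField IsDedekindDomain

namespace H55W

open H55B (O om Prim gen cj Nm)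

theorem k4_ind (N : ℕ) : ∀ n : ℤ, n.natAbs = N → n ≠ 0 → ∀ x : O, ((27 * n : ℤ) : O) ∣ x - 1 → J3 x (n : O) = 1 := by
  induction N using Nat.strong_induction_on with
  | _ N ih =>
  intro n hN hn x hx
  have hx27 : (27 : O) ∣ x - 1 := by
    refine Dvd.dvd.trans ⟨(n : O), ?_⟩ hx
    push_cast; ring
  have hpry : Prim x := Dvd.dvd.trans (⟨9, by norm_num⟩ : (3 : O) ∣ 27) hx27
  have h3 := k2_cop3 hpry
  by_cases h1 : n.natAbs = 1
  · rcases Int.natAbs_eq n with h2 | h2 <;> rw [h1] at h2 <;> subst h2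
    · rw [Nat.cast_one, Int.cast_one]; exact k1_one h3
    · rw [Nat.cast_one, Int.cast_neg, Int.cast_one]
      exact k1_neg h3
  · obtain ⟨q, hq, hqn⟩ := Nat.exists_prime_and_dvd h1
    have hqz : (q : ℤ) ∣ n := Int.natCast_dvd.2 hqn
    obtain ⟨n', hn'⟩ := hqz
    have h4 : n' ≠ 0 := by rintro rfl; apply hn; rw [hn']; ring
    have h5 : n'.natAbs < N := by
      rw [← hN, hn', Int.natAbs_mul, Int.natAbs_natCast]
      have := hq.two_le
      have h6 : 0 < n'.natAbs := Int.natAbs_pos.2 h4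
      nlinarith
    have h6 := ih n'.natAbs h5 n' rfl h4 x (by
      refine Dvd.dvd.trans ⟨(q : O), ?_⟩ hx
      rw [hn']; push_cast; ring)
    have h2 : J3 x (q : O) = 1 := by
      by_cases hq3 : q = 3
      · subst hq3
        rw [Nat.cast_ofNat]
        exact k3_three hx27
      · apply k2_prime hq hq3 hpry
        have h4 : (q : ℤ) ∣ 27 * n := (Int.natCast_dvd.2 hqn).mul_left _
        have h7 := (Int.cast_dvd_cast (α := O) _ _ h4).trans hx
        rwa [Int.cast_natCast] at h7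
    rw [hn', Int.cast_mul, Int.cast_natCast, k1_mul h3, h2, h6, one_mul]

theorem cub_O {n : ℤ} (hn : n ≠ 0) : ∃ κ : O → O, PRC O 3 n (3 * n) (27 * n) κ := by
  have h1 := prc_of (m := 3) k1_root (by norm_num) (n := n) (k := 27 * n) hn (j := 3) ⟨n ^ 2, by push_cast; ring⟩ ⟨9, by push_cast; ring⟩
      (fun x hx => k4_ind _ n rfl hn x hx)
  exact ⟨fun x => pj 3 om (Ideal.span {x}) (n : O), by exact_mod_cast h1⟩

theorem prc_equiv {R R' : Type} [CommRing R] [CommRing R'] (e : R' ≃+* R) {m : ℕ} {n c k : ℤ} {κ : R → R} (h : PRC R m n c k κ) :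
    PRC R' m n c k (fun x => e.symm (κ (e x))) := by
  have hc : ∀ z : ℤ, e (z : R') = (z : R) := fun z => map_intCast e z
  have hcop : ∀ x : R', IsCoprime x (c : R') → IsCoprime (e x) (c : R) := fun x hx => by
    have := hx.map (e : R' →+* R)
    rw [RingEquiv.coe_toRingHom, hc] at this
    exact this
  refine ⟨fun x hx => ?_, fun x y hx hy => ?_, fun x y hx hy hxy => ?_, fun u hu => ?_, fun π hπ h1 h2 => ?_⟩
  · rw [← map_pow, h.root _ (hcop x hx), map_one]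
  · show e.symm (κ (e (x * y))) = e.symm (κ (e x)) * e.symm (κ (e y))
    rw [map_mul, h.mul _ _ (hcop x hx) (hcop y hy), map_mul]
  · have h1 : (k : R) ∣ e x - e y := by
      have := map_dvd e hxy
      rwa [map_sub, hc] at this
    show e.symm (κ (e x)) = e.symm (κ (e y))
    rw [h.per _ _ (hcop x hx) (hcop y hy) h1]
  · show e.symm (κ (e u)) = 1
    rw [h.unit _ (hu.map e), map_one]
  · have hπ' : Prime (e π) := (MulEquiv.prime_iff e).2 hπ
    have h1' : ¬ e π ∣ (c : R) := fun h3 => h1 (by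
      have := map_dvd e.symm h3
      rw [RingEquiv.symm_apply_apply, map_intCast] at this
      exact this)
    have h2' : ¬ e π ∣ (m : R) := fun h3 => h2 (by
      have := map_dvd e.symm h3
      rw [RingEquiv.symm_apply_apply, map_natCast] at this
      exact this)
    have h3 := h.euler (e π) hπ' h1' h2'
    have h4 : Nat.card (R ⧸ Ideal.span {e π}) = Nat.card (R' ⧸ Ideal.span {π}) := by
      symm
      apply Nat.card_congr
      refine (Ideal.quotientEquiv (Ideal.span {π}) (Ideal.span {e π}) e ?_).toEquiv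
      rw [Ideal.map_span, Set.image_singleton]
      rfl
    rw [h4] at h3
    have h5 := map_dvd e.symm h3
    rw [RingEquiv.symm_apply_apply, map_sub, map_pow, map_intCast] at h5
    exact h5

theorem k4_iso {F : Type} [Field F] [NumberField F] (hdeg : Module.finrank ℚ F = 2) {w : F} (hw : w ^ 2 + w + 1 = 0) :
    Nonempty (F ≃ₐ[ℚ] H55B.F) := by
  have hr : IsPrimitiveRoot w 3 := by
    have h3 : w ^ 3 = 1 := by linear_combination (w - 1) * hw
    have h1 : w ≠ 1 := by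
      intro h
      rw [h] at hw
      norm_num at hw
    exact (IsPrimitiveRoot.iff_orderOf.2 (orderOf_eq_prime h3 h1))
  have hd : Module.finrank ℚ H55B.F = 2 := by
    have h := IsCyclotomicExtension.finrank (n := 3) H55B.F
      (Polynomial.cyclotomic.irreducible_rat (by norm_num))
    rw [h]
    decide
  have hint : IsIntegral ℚ (IsCyclotomicExtension.zeta 3 ℚ H55B.F) := (IsCyclotomicExtension.integral {3} ℚ H55B.F).isIntegral _
  let pb := IsPrimitiveRoot.powerBasis ℚ H55B.zeta_spec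
  have hmin : minpoly ℚ pb.gen = Polynomial.cyclotomic 3 ℚ := by
    rw [IsPrimitiveRoot.powerBasis_gen]
    exact (Polynomial.cyclotomic_eq_minpoly_rat H55B.zeta_spec (by norm_num)).symm
  let f : H55B.F →ₐ[ℚ] F := pb.lift w (by
    rw [hmin, Polynomial.aeval_def, Polynomial.eval₂_eq_eval_map, Polynomial.map_cyclotomic]
    have := hr.isRoot_cyclotomic (by norm_num : 0 < 3)
    exact this)
  have hinj : Function.Injective f.toLinearMap := (f : H55B.F →+* F).injective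
  have hsurj : Function.Surjective f.toLinearMap :=
    (LinearMap.injective_iff_surjective_of_finrank_eq_finrank (by rw [hd, hdeg])).1 hinj
  exact ⟨(AlgEquiv.ofBijective f ⟨hinj, hsurj⟩).symm⟩

/-- The cubic residue character of a rational integer, all fields. -/
theorem cub_F (F : Type) [Field F] [NumberField F] (hdeg : Module.finrank ℚ F = 2) (w : 𝓞 F) (hw : w ^ 2 + w + 1 = 0) (n : ℤ)
    (hn : n ≠ 0) : ∃ κ : 𝓞 F → 𝓞 F, PRC (𝓞 F) 3 n (3 * n) (27 * n) κ := by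
  have hwF : (w : F) ^ 2 + (w : F) + 1 = 0 := by
    have := congrArg (algebraMap (𝓞 F) F) hw
    rwa [map_add, map_add, map_pow, map_one, map_zero] at this
  obtain ⟨e⟩ := k4_iso hdeg hwF
  obtain ⟨κ, h⟩ := cub_O hn
  exact ⟨_, prc_equiv (NumberField.RingOfIntegers.mapRingEquiv e) h⟩

end H55W
end
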