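import Mathlib
import Pool.Agent.Lib.H1M.PP.M074
import Pool.Agent.Lib.H1M.PP.M085
import Pool.Agent.Lib.H1M.PP.M088

/-! # H55Y: elliptic curves over the rational numbers with complex multiplication by any order -/

open NumberField IsDedekindDomain WeierstrassCurve

namespace H55Y

open H55P (IQ embF eF LF Per Nm)
open H55K (cj)
open H55K.TQ
open H55W
open H28I (sA sB IP TW)

variable {F : Type} [Field F] [NumberField F] [IQ F]

theorem y5_w {w : 𝓞 F} (hw : w ^ 2 + w + 1 = 0) : ∃ w' : 𝓞 F, w' ^ 2 + w' + 1 = 0 ∧ Gen w' := by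
  obtain ⟨w', h⟩ := ei_of (θ := 2 * w + 1) ⟨by push_cast; linear_combination 4 * hw, Nat.prime_three.prime.irreducible.squarefree, by norm_num⟩
  exact ⟨w', h.sq, gen_w h.sq h.rep⟩

theorem y5_i {i : 𝓞 F} (hi : i ^ 2 = -1) : Gen i := by
  have h := gi_of (θ := i) ⟨by rw [hi]; push_cast; rfl, squarefree_one, by norm_num⟩
  exact gen_i hi h.rep

theorem y5_a {s : 𝓞 F} (hs : s ^ 2 = -7) : ∃ α : 𝓞 F, α ^ 2 - α + 2 = 0 ∧ Gen α := by
  have h : TH s 7 := ⟨by rw [hs]; push_cast; rfl, (by norm_num : Nat.Prime 7).prime.irreducible.squarefree, by norm_num⟩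
  have hθF : (s : F) ^ 2 = -7 := by
    have h1 := congrArg (algebraMap (𝓞 F) F) h.sq
    rw [map_pow, map_neg, map_natCast] at h1
    exact_mod_cast h1
  have hint : _root_.IsIntegral ℤ ((1 + (s : F)) / 2) := by
    refine ⟨Polynomial.X ^ 2 - Polynomial.X + 2, by monicity!, ?_⟩
    simp only [Polynomial.eval₂_add, Polynomial.eval₂_sub, Polynomial.eval₂_pow, Polynomial.eval₂_X, Polynomial.eval₂_ofNat]
    linear_combination (1 / 4 : F) * hθF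
  set α : 𝓞 F := ⟨(1 + (s : F)) / 2, hint⟩ with hα
  have hα2 : 2 * α = 1 + s := by
    apply RingOfIntegers.coe_injective
    show algebraMap (𝓞 F) F (2 * α) = algebraMap (𝓞 F) F (1 + s)
    rw [map_mul, map_ofNat, map_add, map_one]
    show 2 * ((1 + (s : F)) / 2) = 1 + (s : F)
    ring
  have hα3 : α ^ 2 - α + 2 = 0 := by
    have h40 : (4 : 𝓞 F) ≠ 0 := by
      have h5 : ((4 : ℤ) : 𝓞 F) ≠ ((0 : ℤ) : 𝓞 F) := fun h6 => by
        have h7 := cl2_inj h6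
        omega
      push_cast at h5
      exact h5
    apply mul_left_cancel₀ h40
    linear_combination (2 * α + (1 + s) - 2) * hα2 + hs
  refine ⟨α, hα3, gen_a hα3 fun x => ?_⟩
  obtain ⟨a, b, h1, h2⟩ := two_mul_eq h x
  push_cast at h2
  have h3 : (a - b) % 2 = 0 := by
    obtain ⟨c, hc⟩ := h2
    rcases Int.emod_two_eq_zero_or_one a with ha | ha <;> rcases Int.emod_two_eq_zero_or_one b with hb | hb
    · omega
    · exfalso
      have ea := Int.emod_add_mul_ediv a 2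
      have eb := Int.emod_add_mul_ediv b 2
      rw [ha] at ea
      rw [hb] at eb
      rw [← ea, ← eb] at hc
      ring_nf at hc
      omega
    · exfalso
      have ea := Int.emod_add_mul_ediv a 2
      have eb := Int.emod_add_mul_ediv b 2
      rw [ha] at ea
      rw [hb] at eb
      rw [← ea, ← eb] at hc
      ring_nf at hc
      omega
    · omega
  refine ⟨(a - b) / 2, b, ?_⟩
  apply mul_left_cancel₀ (two_ne_zero (α := 𝓞 F))
  rw [h1]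
  have ea : ((2 * ((a - b) / 2) : ℤ) : 𝓞 F) = ((a - b : ℤ) : 𝓞 F) := by
    rw [Int.mul_ediv_cancel' (Int.dvd_of_emod_eq_zero h3)]
  push_cast at ea
  linear_combination -ea - (b : 𝓞 F) * hα2

/-- The order of conductor f of F has class number one. -/
def Cond (F : Type) [Field F] [NumberField F] (f : ℕ) : Prop :=
  f = 1 ∨ (f = 2 ∧ ((∃ w : 𝓞 F, w ^ 2 + w + 1 = 0) ∨ (∃ i : 𝓞 F, i ^ 2 = -1) ∨ ∃ s : 𝓞 F, s ^ 2 = -7)) ∨
    (f = 3 ∧ ∃ w : 𝓞 F, w ^ 2 + w + 1 = 0)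

theorem y5_one {A B Om : ℂ} (h : PerO F 1 A B Om) : Per F A B Om := by
  obtain ⟨hO, L, hL, g2, g3⟩ := h
  have hl : L.lattice = (LF F).lattice := by
    ext z
    rw [hL, H55P.mem_LF]
    constructor
    · rintro ⟨a, y, rfl⟩
      exact ⟨(a : 𝓞 F) + y, by rw [map_add, map_intCast, Nat.cast_one, one_mul]⟩
    · rintro ⟨y, rfl⟩
      exact ⟨0, y, by rw [Int.cast_zero, zero_add, Nat.cast_one, one_mul]⟩
  obtain ⟨e2, e3⟩ := y2_g hl
  exact ⟨hO, e2 ▸ g2, e3 ▸ g3⟩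

theorem y5_scale {A B A' B' mu : ℚ} {Om : ℂ} (hmu : mu ≠ 0) (hA : A = mu ^ 4 * A') (hB : B = mu ^ 6 * B')
    (h : Per F (A : ℂ) (B : ℂ) Om) : Per F (A' : ℂ) (B' : ℂ) (mu * Om) := by
  have hmu' : (mu : ℂ) ≠ 0 := by exact_mod_cast hmu
  refine ⟨mul_ne_zero hmu' h.ne, ?_, ?_⟩
  · rw [h.g2, hA]
    push_cast
    ring
  · rw [h.g3, hB]
    push_cast
    ring

theorem y5_c4 (W : WeierstrassCurve ℤ) : -(eF F (W⁄(𝓞 F)).c₄) / 48 = ((sA W ℚ : ℚ) : ℂ) := by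
  have h : (W⁄(𝓞 F)).c₄ = ((W.c₄ : ℤ) : 𝓞 F) := (W.map_c₄ (algebraMap ℤ (𝓞 F))).trans (by simp)
  rw [h, map_intCast]
  unfold sA
  push_cast
  rfl

theorem y5_c6 (W : WeierstrassCurve ℤ) : -(eF F (W⁄(𝓞 F)).c₆) / 864 = ((sB W ℚ : ℚ) : ℂ) := by
  have h : (W⁄(𝓞 F)).c₆ = ((W.c₆ : ℤ) : 𝓞 F) := (W.map_c₆ (algebraMap ℤ (𝓞 F))).trans (by simp)
  rw [h, map_intCast]
  unfold sB
  push_cast
  rfl

/-- W is a global minimal equation of an elliptic curve over the rational numbers with complex multiplication by the order of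
conductor f of F. -/
def CMO (F : Type) [Field F] [NumberField F] [IQ F] (W : WeierstrassCurve ℤ) : Prop :=
  W.Δ ≠ 0 ∧ H13D.MinZ W ∧ ∃ (f : ℕ) (Om : ℂ), Cond F f ∧
    PerO F f (-(eF F (W⁄(𝓞 F)).c₄) / 48) (-(eF F (W⁄(𝓞 F)).c₆) / 864) Om

/-- The other curve. -/
theorem y5_other {W' : WeierstrassCurve ℤ} (h0 : W'.Δ ≠ 0) (hmin' : H13D.MinZ W') {A B : ℚ} {Om : ℂ} (hd : 4 * A ^ 3 + 27 * B ^ 2 ≠ 0)
    (hper : Per F (A : ℂ) (B : ℂ) Om)
    (hcub : ∀ w : 𝓞 F, w ^ 2 + w + 1 = 0 → ∀ n : ℤ, n ≠ 0 → ∃ κ : 𝓞 F → 𝓞 F, PRC (𝓞 F) 3 n (3 * n) (27 * n) κ)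
    (hfam : ∀ (W : WeierstrassCurve ℤ) (mu : ℚ), mu ≠ 0 → A = mu ^ 4 * sA W ℚ → B = mu ^ 6 * sB W ℚ →
      ∃ (kap : ℤ) (e t u lam : ℚ), IP W W' kap e t u lam ∧ ∃ j₀ : ℤ, W'.c₄ ^ 3 = j₀ * W'.Δ) :
    ∃ (W : WeierstrassCurve ℤ) (Om' : ℂ) (m : Ideal (𝓞 F)) (ψ : Ideal (𝓞 F) →*₀ 𝓞 F) (kap : ℤ) (e t u lam : ℚ),
      W.Δ ≠ 0 ∧ Per F (-(eF F (W⁄(𝓞 F)).c₄) / 48) (-(eF F (W⁄(𝓞 F)).c₆) / 864) Om' ∧ TW F W W' Om' m ψ kap e t u lam := by
  obtain ⟨W, mu, hmu, hΔ, hmin, hA, hB⟩ := H28I.min_short hd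
  have hp := y5_scale hmu hA hB hper
  rw [← y5_c4 (F := F), ← y5_c6 (F := F)] at hp
  obtain ⟨ψ, hH⟩ := base_all0 hcub W (mu * Om) hΔ hp hmin
  obtain ⟨kap, e, t, u, lam, hI, hj⟩ := hfam W mu hmu hA hB
  exact ⟨W, _, _, ψ, kap, e, t, u, lam, hΔ, hp, H28I.tw_of hH hmin hmin' hI hj⟩

/-- Either complex multiplication by the ring of integers, or an isogeny to such a curve. -/
theorem y5_cases {W' : WeierstrassCurve ℤ} (h : CMO F W')
    (hcub : ∀ w : 𝓞 F, w ^ 2 + w + 1 = 0 → ∀ n : ℤ, n ≠ 0 → ∃ κ : 𝓞 F → 𝓞 F, PRC (𝓞 F) 3 n (3 * n) (27 * n) κ) :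
    (∃ Om : ℂ, Per F (-(eF F (W'⁄(𝓞 F)).c₄) / 48) (-(eF F (W'⁄(𝓞 F)).c₆) / 864) Om) ∨
    ∃ (W : WeierstrassCurve ℤ) (Om' : ℂ) (m : Ideal (𝓞 F)) (ψ : Ideal (𝓞 F) →*₀ 𝓞 F) (kap : ℤ) (e t u lam : ℚ),
      W.Δ ≠ 0 ∧ Per F (-(eF F (W⁄(𝓞 F)).c₄) / 48) (-(eF F (W⁄(𝓞 F)).c₆) / 864) Om' ∧ TW F W W' Om' m ψ kap e t u lam := by
  obtain ⟨h0, hmin, f, Om, hc, hper⟩ := h
  have hd' : 4 * (sA W' ℚ) ^ 3 + 27 * (sB W' ℚ) ^ 2 ≠ 0 := by
    have h1 := (H28I.disc_sAB W').1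
    intro h2
    rw [h2, mul_zero] at h1
    exact h0 (by exact_mod_cast h1)
  rcases hc with rfl | ⟨rfl, hc⟩ | ⟨rfl, w, hw⟩
  · exact Or.inl ⟨Om, y5_one hper⟩
  · right
    rw [y5_c4, y5_c6] at hper
    rcases hc with ⟨w, hw⟩ | ⟨i, hi⟩ | ⟨s, hs⟩
    · obtain ⟨w', hw', hG⟩ := y5_w hw
      obtain ⟨a, hA, hB, hP⟩ := case_w2 hw' hG hd' hper
      have ha : a ≠ 0 := by
        rintro rfl
        apply hd'
        rw [hA, hB]
        norm_num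
      refine y5_other h0 hmin ?_ hP hcub fun W mu hmu h1 h2 => ?_
      · have : a ^ 6 ≠ 0 := pow_ne_zero _ ha
        intro h3
        apply this
        linear_combination (1 / 27) * h3
      · obtain ⟨h3, h4⟩ := H28I.fam12 ha hmu h1 h2 hA hB
        exact ⟨_, _, _, _, _, h3, _, h4⟩
    · obtain ⟨a, hA, hB, hP⟩ := case_i2 hi (y5_i hi) hd' hper
      have ha : a ≠ 0 := by
        rintro rfl
        apply hd'
        rw [hA, hB]
        norm_num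
      refine y5_other h0 hmin ?_ hP hcub fun W mu hmu h1 h2 => ?_
      · have : a ^ 6 ≠ 0 := pow_ne_zero _ ha
        intro h3
        apply this
        linear_combination (-1 / 4) * h3
      · obtain ⟨h3, h4⟩ := H28I.fam16 ha hmu h1 h2 hA hB
        exact ⟨_, _, _, _, _, h3, _, h4⟩
    · obtain ⟨α, hα, hG⟩ := y5_a hs
      obtain ⟨a, hA, hB, hP⟩ := case_a2 hα hG hd' hper
      have ha : a ≠ 0 := by
        rintro rfl
        apply hd'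
        rw [hA, hB]
        norm_num
      refine y5_other h0 hmin ?_ hP hcub fun W mu hmu h1 h2 => ?_
      · have : a ^ 6 ≠ 0 := pow_ne_zero _ ha
        intro h3
        apply this
        linear_combination (1 / 87808) * h3
      · obtain ⟨h3, h4⟩ := H28I.fam28 ha hmu h1 h2 hA hB
        exact ⟨_, _, _, _, _, h3, _, h4⟩
  · right
    rw [y5_c4, y5_c6] at hper
    obtain ⟨w', hw', hG⟩ := y5_w hw
    obtain ⟨a, hA, hB, hP⟩ := case_w3 hw' hG hd' hper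
    have ha : a ≠ 0 := by
      rintro rfl
      apply hd'
      rw [hA, hB]
      norm_num
    refine y5_other h0 hmin ?_ hP hcub fun W mu hmu h1 h2 => ?_
    · have : a ^ 6 ≠ 0 := pow_ne_zero _ ha
      intro h3
      apply this
      linear_combination (1 / 6912) * h3
    · obtain ⟨h3, h4⟩ := H28I.fam27 ha hmu h1 h2 hA hB
      exact ⟨_, _, _, _, _, h3, _, h4⟩

end H55Y
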