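import Mathlib
import Pool.Agent.Lib.H1M.PP.D_H13R_Main
import Pool.Agent.Lib.H1M.PP.D_H28T_XMain
import Pool.Agent.Lib.H1M.PP.D_H55Y_Y5
import Pool.Agent.Lib.H1M.PP.M064
import Pool.Agent.Lib.H1M.PP.M065
import Pool.Agent.Lib.H1M.PP.M085
import Pool.Agent.Lib.H1M.PP.M088
import Pool.Agent.Lib.H1M.PP.M089
import Pool.Agent.Lib.H1M.PP.M090

/-! Merged copies (to shorten the build) of Lib.H13R.I1, Lib.H55K.FC3, Lib.H28I.A1, Lib.H55Y.Y6. -/

-- from Lib.H13R.I1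
section

/-! # H13R: the relative theorem for isogenous curves -/

open NumberField IsDedekindDomain WeierstrassCurve

namespace H13R

open H55P (IQ embF eF LF Per IsHecke Pt ac Inert Dec Nm UnitP UnrP PExt)
open H35P (WAB Ker tt GoodW IntW)
open H55K H55K.TQ
open H28I (TW Same tw_supp tw_good tw_deu tw_prime tw_iso disc_ne lrt_of lG_same iso6_symm Iso6 sel_iso sha_iso pts_iso selnon_iso
  same_int same_non same_lnz a0_ser a0_disc)

variable {F : Type} [Field F] [NumberField F] [IQ F] {W W' : WeierstrassCurve ℤ} {Om : ℂ} {m : Ideal (𝓞 F)}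
    {ψ : Ideal (𝓞 F) →*₀ 𝓞 F} {kap : ℤ} {e t u lam : ℚ} {p : ℕ}

/-- The primes of M dividing the discriminants. -/
theorem i1_supp (h : TW F W W' Om m ψ kap e t u lam) {M : Type} [Field M] [NumberField M] [Algebra F M] (w : HeightOneSpectrum (𝓞 M)) :
    algebraMap (𝓞 F) (𝓞 M) (W'⁄(𝓞 F)).Δ ∈ w.asIdeal ↔ algebraMap (𝓞 F) (𝓞 M) (W⁄(𝓞 F)).Δ ∈ w.asIdeal := by
  obtain ⟨v, hv, -, -, -⟩ := H55K.DD.below (m := m) w
  have h1 := tw_supp h v
  rw [hv] at h1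
  exact h1

theorem i1_bad (h : TW F W W' Om m ψ kap e t u lam) (M : IntermediateField F (AlgebraicClosure F)) [NumberField M] :
    BadM (W'⁄(𝓞 F)) M ↔ BadM (W⁄(𝓞 F)) M := by
  unfold BadM
  refine forall_congr' fun w => ?_
  rw [i1_supp h w, cur_eq M, cur_eq M, tw_good h M w]

theorem i1_pts (h : TW F W W' Om m ψ kap e t u lam) {M : Type} [Field M] [NumberField M] [Algebra F M] (w : HeightOneSpectrum (𝓞 M))
    (hΔ : algebraMap (𝓞 F) (𝓞 M) (W⁄(𝓞 F)).Δ ∉ w.asIdeal) :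
    Nat.card ((W'⁄(𝓞 F))⁄(𝓞 M ⧸ w.asIdeal)).toAffine.Point = Nat.card ((W⁄(𝓞 F))⁄(𝓞 M ⧸ w.asIdeal)).toAffine.Point := by
  have hm : ¬ H55P.mK M m ≤ w.asIdeal := fun hm => hΔ ((h1_pos h.base w).2 hm)
  rw [pts_w h.base.data.hecke (fun v hv _ => h.base.deu v hv) w hΔ hm,
    pts_w h.base.data.hecke (fun v hv _ => (tw_deu h v hv).2) w (fun h' => hΔ ((i1_supp h w).1 h')) hm]

theorem i1_norel (h : TW F W W' Om m ψ kap e t u lam) (M K : IntermediateField F (AlgebraicClosure F)) [NumberField M] :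
    NoRel p (W'⁄(𝓞 F)) M K ↔ NoRel p (W⁄(𝓞 F)) M K := by
  unfold NoRel
  refine forall_congr' fun w => imp_congr_right fun _ => ?_
  rw [i1_supp h w]
  refine imp_congr_right fun hΔ => ?_
  rw [i1_pts h w hΔ]

/-- The L-functions agree. -/
theorem i1_lfun (h : TW F W W' Om m ψ kap e t u lam) (K : Type) [Field K] [NumberField K] (ι : K →ₐ[ℚ] AlgebraicClosure F)
    (hbad : ∀ w : HeightOneSpectrum (𝓞 (KG F K ι)), H55P.mK (KG F K ι) m ≤ w.asIdeal → ¬ GoodAt (((W⁄(𝓞 F))⁄F)⁄(KG F K ι)) w) (n : ℕ) :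
    (W'⁄K).LFunction n = (W⁄K).LFunction n := by
  obtain ⟨j₀, hj⟩ := jint_Z h.base
  obtain ⟨j₁, hj₁⟩ := h.jint
  rcases kg_dich F K ι with ⟨f, hf⟩ | hQ
  · let _ : Algebra F K := f.toAlgebra
    obtain ⟨θ⟩ := kg_iso F K ι f hf
    have e1 : (((W⁄K).LFunction n : ℤ) : ℂ) =
        (H55N.AI (H55P.PsiP K ψ) * H55N.AI (fun a => (starRingEnd ℂ) (H55P.PsiP K ψ a))) n := by
      rw [← cur_eq (F := F) (W := W) K]
      exact H55K.lfun_K h.base.data.hecke (fun v hv _ => h.base.deu v hv) (fun v hv => (h.base.supp v).1 hv)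
        (H55K.jint_of h.base.data.per h.base.data.ell) (fun w hw => fb3b_badR K (KG F K ι) hbad θ w hw) n
    have hj' : ∃ j₁ : 𝓞 F, (W'⁄(𝓞 F)).c₄ ^ 3 = j₁ * (W'⁄(𝓞 F)).Δ := by
      refine ⟨algebraMap ℤ (𝓞 F) j₁, ?_⟩
      have e4 : (W'⁄(𝓞 F)).c₄ = algebraMap ℤ (𝓞 F) W'.c₄ := W'.map_c₄ (algebraMap ℤ (𝓞 F))
      have eD : (W'⁄(𝓞 F)).Δ = algebraMap ℤ (𝓞 F) W'.Δ := W'.map_Δ (algebraMap ℤ (𝓞 F))
      rw [e4, eD, ← map_pow, ← map_mul, hj₁]
    have e2 : (((W'⁄K).LFunction n : ℤ) : ℂ) =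
        (H55N.AI (H55P.PsiP K ψ) * H55N.AI (fun a => (starRingEnd ℂ) (H55P.PsiP K ψ a))) n := by
      rw [← cur_eq (F := F) (W := W') K]
      refine H55K.lfun_K h.base.data.hecke (fun v hv _ => (tw_deu h v hv).2) (fun v hv => (h.base.supp v).1 ((tw_supp h v).1 hv))
        hj' (fun w hw hg => ?_) n
      rw [cur_eq K] at hg
      refine fb3b_badR K (KG F K ι) hbad θ w hw ?_
      rw [cur_eq K]
      exact (tw_good h K w).1 hg
    exact Int.cast_injective (e2.trans e1.symm)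
  · let _ : Algebra K (KG F K ι) := (KGmap F K ι).toAlgebra
    have hbad' : ∀ w : HeightOneSpectrum (𝓞 (KG F K ι)), H55P.mK (KG F K ι) m ≤ w.asIdeal → ¬ H55K.GoodAt (W⁄(KG F K ι)) w := by
      intro w hw
      have h1 := hbad w hw
      rw [cur_eq (KG F K ι)] at h1
      exact h1
    have e1 : (((W⁄K).LFunction n : ℤ) : ℂ) = H55N.AI (fun a => H55P.PsiP (KG F K ι) ψ a) n :=
      lfun_quad hQ h.base.data.hecke (fun v hv _ => h.base.deu v hv) h.base.supp (hram_of h.base) hj hbad' n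
    have e2 : (((W'⁄K).LFunction n : ℤ) : ℂ) = H55N.AI (fun a => H55P.PsiP (KG F K ι) ψ a) n :=
      lfun_quad hQ h.base.data.hecke (fun v hv _ => (tw_deu h v hv).2)
        (fun v => (tw_supp h v).trans (h.base.supp v)) (fun v hv => (tw_supp h v).2 (hram_of h.base v hv)) hj₁
        (fun w hw hg => hbad' w hw ((tw_good h (KG F K ι) w).1 hg)) n
    exact Int.cast_injective (e2.trans e1.symm)

open Classical in
theorem i1_same (h : TW F W W' Om m ψ kap e t u lam) (hp : PrimeH F (W⁄(𝓞 F)) p) (K : Type) [Field K] [NumberField K]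
    (hl : ∀ n : ℕ, (W'⁄K).LFunction n = (W⁄K).LFunction n) : Same p W W' K := by
  have hp' := (tw_prime h).2 hp
  obtain ⟨L, hL⟩ := exists_perZ (perW_of h.base)
  exact ⟨hl, fun L L' hL hL' V hV x => lG_same h.ip hp.prime hp.five (fb6b_ndvd hp) (fb6b_ndvd hp')
    (jint_Z h.base) h.jint K hL hL' x V hV, ⟨L, hL⟩, (lrt_of h.ip hL).1, tw_iso h K, (disc_ne h.ip).1, (disc_ne h.ip).2⟩

/-- The analytic parts agree. -/
theorem i1_lunit {K : Type} [Field K] [NumberField K] (h : Same p W W' K) : LUnitG p W' K ↔ LUnitG p W K := by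
  obtain ⟨L, hL⟩ := h.ex
  obtain ⟨L', hL'⟩ := h.ex'
  constructor
  · rintro ⟨-, Λ, hΛ, hs, hne, hu⟩
    refine ⟨h.ex, Λ, hΛ, (a0_ser h Λ).1 hs, hne, fun L₁ hL₁ V hV => ?_⟩
    rw [← h.per L₁ L' hL₁ hL' V hV]
    exact hu L' hL' V hV
  · rintro ⟨-, Λ, hΛ, hs, hne, hu⟩
    refine ⟨h.ex', Λ, hΛ, (a0_ser h Λ).2 hs, hne, fun L₁ hL₁ V hV => ?_⟩
    rw [h.per L L₁ hL hL₁ V hV]
    exact hu L hL V hV

open Classical in
theorem i1_sel (hp : p.Prime) (h5 : 5 ≤ p) {K : Type} [Field K] [NumberField K] (h : Same p W W' K) :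
    H55P.SelTriv (W'⁄K) p ↔ H55P.SelTriv (W⁄K) p :=
  ⟨sel_iso hp h5 (iso6_symm h.iso), sel_iso hp h5 h.iso⟩

/-- THE RELATIVE THEOREM for isogenous curves. -/
theorem rel_iso (h : TW F W W' Om m ψ kap e t u lam) (hp' : PrimeH F (W'⁄(𝓞 F)) p) (M K : Type) [Field M] [NumberField M]
    [Field K] [NumberField K] (ιM : M →ₐ[ℚ] AlgebraicClosure F) (ιK : K →ₐ[ℚ] AlgebraicClosure F)
    (hT : Tower F p W' M K ιM ιK) : Over F p W' M K ιM ιK := by
  classical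
  have hp := (tw_prime h).1 hp'
  have hT' : Tower F p W M K ιM ιK := ⟨hT.sub, hT.ext, (i1_bad h _).1 hT.bad⟩
  have hO := main_R h.base hp M K ιM ιK hT'
  obtain ⟨hMK, ⟨L, hLn, hL, hU, hKL⟩, hB⟩ := hT'
  have hUM : UnrP p (KG F M ιM) := unr_le hp.prime hL.le hU
  have hSM := i1_same h hp M (i1_lfun h M ιM (bad_of h.base hB))
  have hSK := i1_same h hp K (i1_lfun h K ιK fun w hw => bad_KR h.base hp hL hMK hKL hB w hw)
  have hbsd : ∀ (X : Type) [Field X] [NumberField X] (ι : X →ₐ[ℚ] AlgebraicClosure F) (_ : KG F X ι ≤ L) (_ : Same p W W' X),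
      BSDPG p W' X ↔ BSDPG p W X := by
    intro X _ _ ι hXL hS
    rw [bsd_iff h.base hp hL hUM X ι hXL, ← i1_sel hp.prime hp.five hS, ← i1_lunit hS]
    constructor
    · rintro ⟨⟨h1, -, -, h2⟩, h3⟩
      exact ⟨h1, (an_iff hp.prime h2).1 h3⟩
    · rintro ⟨h1, h2⟩
      obtain ⟨-, r1, r2, r3⟩ := sel_rest h.base hp hL hUM X ι hXL ((i1_sel hp.prime hp.five hS).1 h1)
      obtain ⟨q1, q2⟩ := pts_iso hp.prime hp.five (a0_disc hS.disc' X) hS.iso r2 r3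
      exact ⟨⟨h1, sha_iso hp.prime hp.five hS.iso r1, q1, q2⟩, (an_iff hp.prime q2).2 h2⟩
  refine ⟨same_int hSK hO.int, ?_, ?_, ?_, fun hN => ?_⟩
  · rw [i1_norel h, i1_lunit hSK, i1_lunit hSM]
    exact hO.lval
  · rw [i1_norel h, i1_sel hp.prime hp.five hSK, i1_sel hp.prime hp.five hSM]
    exact hO.sel
  · rw [i1_norel h, hbsd K ιK hKL hSK, hbsd M ιM hL.le hSM]
    exact hO.bsd
  · rw [i1_norel h] at hN
    obtain ⟨a, b⟩ := hO.non hN
    exact ⟨same_non hSK a, selnon_iso hp.prime hp.five hSK.iso b⟩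

/-- Almost all prime numbers, for isogenous curves. -/
theorem lunit_almost_iso (h : TW F W W' Om m ψ kap e t u lam) (M : Type) [Field M] [NumberField M]
    (ι : M →ₐ[ℚ] AlgebraicClosure F) (hB : BadM (W'⁄(𝓞 F)) (KG F M ι)) (hL : LNz W' M) : {p : ℕ | p.Prime ∧ ¬ LUnitG p W' M}.Finite := by
  have hB' := (i1_bad h _).1 hB
  have hl := i1_lfun h M ι (bad_of h.base hB')
  have hL' : LNz W M := by
    obtain ⟨Λ, hΛ, hs, hne⟩ := hL
    refine ⟨Λ, hΛ, fun s h32 => ?_, hne⟩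
    have e : (fun n => (((W'⁄M).LFunction n : ℤ) : ℂ)) = fun n => (((W⁄M).LFunction n : ℤ) : ℂ) := by
      funext n
      rw [hl n]
    obtain ⟨a, b⟩ := hs s h32
    rw [e] at a
    refine ⟨a, b.trans ?_⟩
    show LSeries (fun n => (((W'⁄M).LFunction n : ℤ) : ℂ)) s = LSeries (fun n => (((W⁄M).LFunction n : ℤ) : ℂ)) s
    rw [e]
  refine ((prime_almost (W⁄(𝓞 F)) h.base.data.ell).union (lunit_almost h.base M ι hB' hL')).subset ?_
  rintro p ⟨hp, hA⟩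
  by_cases hP : PrimeH F (W⁄(𝓞 F)) p
  · exact Or.inr ⟨hp, fun hV => hA ((i1_lunit (i1_same h hP M hl)).2 hV)⟩
  · exact Or.inl ⟨hp, hP⟩

/-- If the primes of F dividing the discriminant are unramified in M then W' has bad reduction at all primes of M dividing it. -/
theorem bad_unr_iso (h : TW F W W' Om m ψ kap e t u lam) (M : IntermediateField F (AlgebraicClosure F)) [NumberField M]
    (hU : ∀ v : HeightOneSpectrum (𝓞 F), (W'⁄(𝓞 F)).Δ ∈ v.asIdeal → ¬ H55P.RamF M v.asIdeal) : BadM (W'⁄(𝓞 F)) M :=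
  (i1_bad h M).2 (bad_unr h.base M fun v hv => hU v ((tw_supp h v).2 hv))

end H13R
end

-- from Lib.H55K.FC3
section

/-! # H55K: almost all prime numbers: conclusions -/

open NumberField IsDedekindDomain WeierstrassCurve

namespace H55K.TQ

open H55P (IQ embF eF LF Per IsHecke Pt ac Inert Dec Nm UnitP)
open H35P (WAB Ker tt GoodW IntW)
open H55K.MG (VC Crd)

variable {F : Type} [Field F] [NumberField F] [IQ F] {W₀ : WeierstrassCurve (𝓞 F)} {Om : ℂ}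
    {m : Ideal (𝓞 F)} {ψ : Ideal (𝓞 F) →*₀ 𝓞 F} {p : ℕ}

theorem fc3_pext (F : Type) [Field F] [NumberField F] (p : ℕ)
    [NumberField (⊥ : IntermediateField F (AlgebraicClosure F))] :
    H55P.PExt p (⊥ : IntermediateField F (AlgebraicClosure F)) ⊥ := by
  refine ⟨inferInstance, le_rfl, fun s hs x hx => ?_, 0, by rw [pow_zero, mul_one]⟩
  rw [IntermediateField.mem_fixingSubgroup_iff] at hs
  rw [hs x hx]
  exact hx

theorem fc3_unr (F : Type) [Field F] [NumberField F] {p : ℕ} (hp : p.Prime) (hU : H55P.UnrP p F)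
    [NumberField (⊥ : IntermediateField F (AlgebraicClosure F))] :
    H55P.UnrP p (⊥ : IntermediateField F (AlgebraicClosure F)) := by
  letI : Algebra (⊥ : IntermediateField F (AlgebraicClosure F)) F :=
    (IntermediateField.botEquiv F (AlgebraicClosure F)).toRingEquiv.toRingHom.toAlgebra
  exact H55P.UnrP.down (⊥ : IntermediateField F (AlgebraicClosure F)) F p hp hU

theorem fc3_tr {ψ : Ideal (𝓞 F) →*₀ 𝓞 F} {K' K'' : IntermediateField F (AlgebraicClosure F)} (h : K' = K'')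
    [NumberField K'] [NumberField K'']
    (hL : ∃ Φ : ℂ → ℂ, AnalyticOnNhd ℂ Φ {s | 1 / 2 < s.re} ∧
      (∀ s : ℂ, 3 / 2 < s.re → HasSum (H55N.tm (H55P.PsiP K' ψ) s) (Φ s)) ∧ Φ 1 ≠ 0) :
    ∃ Φ : ℂ → ℂ, AnalyticOnNhd ℂ Φ {s | 1 / 2 < s.re} ∧
      (∀ s : ℂ, 3 / 2 < s.re → HasSum (H55N.tm (H55P.PsiP K'' ψ) s) (Φ s)) ∧ Φ 1 ≠ 0 := by
  subst h
  exact hL

/-- Chunk FC3 (M). If no prime satisfies PrimeH the set is finite. Otherwise gen_intK for one p₀ and K = the bottom field (PExt p ⊥ ⊥: fin, le, norm, deg with k = 0; UnrP p ⊥: transport of UnrP p F by the isomorphism, UnrP.down with the algebra structure ⊥ → F, or f2_unrG style) gives Φ and x = Φ(1)/Om^1 with V(x) ≤ 1 above p₀: x is algebraic (alg_of_int), x ≠ 0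
(hypothesis: Φ(1) = Φ'(1) by ident; Om ≠ 0: hH.data.per.ne), unit_almost: ValG for all the other p. -/
theorem val_almost (hH : BaseH F W₀ Om m ψ) [NumberField (⊥ : IntermediateField F (AlgebraicClosure F))]
    (hL : ∃ Φ : ℂ → ℂ, AnalyticOnNhd ℂ Φ {s | 1 / 2 < s.re} ∧
      (∀ s : ℂ, 3 / 2 < s.re → HasSum (H55N.tm (H55P.PsiP (⊥ : IntermediateField F (AlgebraicClosure F)) ψ) s) (Φ s)) ∧ Φ 1 ≠ 0) :
    {p : ℕ | PrimeH F W₀ p ∧ ¬ H55P.ValG p Om ψ (⊥ : IntermediateField F (AlgebraicClosure F))}.Finite := by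
  by_cases hex : ∃ p, PrimeH F W₀ p
  swap
  · refine Set.Finite.subset Set.finite_empty fun p hp => ?_
    exact absurd ⟨p, hp.1⟩ hex
  obtain ⟨p₀, hp₀⟩ := hex
  obtain ⟨Λ, ha, hs, hint⟩ := gen_intK hH hp₀ (fc3_pext F p₀) (le_refl ⊥) (fc3_unr F hp₀.prime hp₀.unr)
  obtain ⟨Φ, hΦa, hΦs, hΦ1⟩ := hL
  have h1 : Λ 1 = Φ 1 := H55N.TW1_ident (1 / 2) Λ Φ ha hΦa
    (fun s hs' => (hs s hs').unique (hΦs s hs')) (by norm_num) 1 (by norm_num)
  have hne : Λ 1 ≠ 0 := by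
    rw [h1]
    exact hΦ1
  have hOm : Om ≠ 0 := hH.data.per.ne
  have hx : Λ 1 / Om ^ Module.finrank F (⊥ : IntermediateField F (AlgebraicClosure F)) ≠ 0 :=
    div_ne_zero hne (pow_ne_zero _ hOm)
  refine Set.Finite.subset (unit_almost hx (alg_of_int hp₀.prime hint)) ?_
  rintro p ⟨hp, hV⟩
  exact ⟨hp.prime, fun hU => hV ⟨Λ, ha, hs, hne, hU⟩⟩

/-- Chunk FC3 (S/M). an_rat (F2.lean), prime_almost, val_almost; the L-function over ℚ is Φ(s) or Φ(s) conj Φ(conj s) (lrel in FB4.lean for K = ℚ, with the ι of sub_setup and kg_rat as in an_rat; Φ from gen_intK), so Φ(1) ≠ 0 (H55P: ident). -/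
theorem an_almost {W : WeierstrassCurve ℤ} (hH : BaseH F (W⁄(𝓞 F)) Om m ψ) (hL : LNz W ℚ) :
    {p : ℕ | p.Prime ∧ ¬ AnUnitG p W ℚ}.Finite := by
  classical
  have hbn : NumberField (⊥ : IntermediateField F (AlgebraicClosure F)) := H16C.FR_numberField _
  have hfin := prime_almost (W⁄(𝓞 F)) hH.data.ell
  by_cases hex : ∃ p, PrimeH F (W⁄(𝓞 F)) p
  swap
  · refine hfin.subset ?_
    rintro p ⟨hp, -⟩
    exact ⟨hp, fun h => hex ⟨p, h⟩⟩
  obtain ⟨p₀, hp₀⟩ := hex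
  obtain ⟨L, hLn, ι, hL', hU, hK, -⟩ := sub_setup (F := F) p₀ hp₀.prime ℚ F inferInstance 0
    (by rw [pow_zero, Module.finrank_self]) hp₀.unr
  have hG := kg_rat F ℚ (fun x => ⟨x, (Rat.cast_id x).symm⟩) ι
  have hn : NumberField (KG F ℚ ι) := by
    rw [hG]
    infer_instance
  obtain ⟨Φ, hΦa, hΦs, -⟩ := gen_intK hH hp₀ hL' hK (f2_unrG hp₀ hL' hU ℚ ι hK)
  have hR := lrel hH hp₀ hL' ℚ ι hK
  obtain ⟨Λ, hΛa, hΛs, hΛ1⟩ := hL
  have hΦ1 : Φ 1 ≠ 0 := by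
    rcases hR with ⟨hd, -⟩ | ⟨-, hR⟩
    · rw [Module.finrank_self] at hd
      omega
    · have h1 : Φ 1 = Λ 1 := H55N.TW1_ident (1 / 2) Φ Λ hΦa hΛa
        (fun s hs => by
          rw [(hΛs s hs).2]
          exact ((hR Φ hΦs s hs).LSeries_eq).symm) (by norm_num) 1 (by norm_num)
      rw [h1]
      exact hΛ1
  have hval := val_almost hH (fc3_tr hG ⟨Φ, hΦa, hΦs, hΦ1⟩)
  refine (hfin.union hval).subset ?_
  rintro p ⟨hp, hA⟩
  by_cases hP : PrimeH F (W⁄(𝓞 F)) p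
  · right
    exact ⟨hP, fun hV => hA ((an_rat hH hP).2 hV)⟩
  · left
    exact ⟨hp, hP⟩

end H55K.TQ
end

-- from Lib.H28I.A1
section

/-! # H28I, part A: the theorem for the isogenous curve -/

open NumberField IsDedekindDomain WeierstrassCurve

namespace H28I

open H55P (IQ embF eF LF Per IsHecke Pt ac Inert Dec Nm)
open H35P (WAB Ker tt GoodW IntW)
open H55K (xc yc)
open H55K.TQ

variable {F : Type} [Field F] [NumberField F] [IQ F] {W W' : WeierstrassCurve ℤ} {Om : ℂ} {m : Ideal (𝓞 F)}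
    {ψ : Ideal (𝓞 F) →*₀ 𝓞 F} {kap : ℤ} {e t u lam : ℚ} {p : ℕ}

/-- lfun_same, lG_same, tw_iso. -/
theorem same_of (h : TW F W W' Om m ψ kap e t u lam) (hp : PrimeH F (W⁄(𝓞 F)) p) (K : Type) [Field K] [NumberField K]
    (hK : SubUF F p K) : Same p W W' K := by
  have hp' := (tw_prime h).2 hp
  obtain ⟨L, hL⟩ := exists_perZ (perW_of h.base)
  exact ⟨lfun_same h hp K hK, fun L L' hL hL' V hV x => lG_same h.ip hp.prime hp.five (fb6b_ndvd hp) (fb6b_ndvd hp')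
    (jint_Z h.base) h.jint K hL hL' x V hV, ⟨L, hL⟩, (lrt_of h.ip hL).1, tw_iso h K, (disc_ne h.ip).1, (disc_ne h.ip).2⟩

/-- The rational numbers belong to all classes. -/
theorem subUF_Q (hp : PrimeH F (W⁄(𝓞 F)) p) : SubUF F p ℚ :=
  ⟨F, inferInstance, inferInstance, inferInstance, inferInstance, inferInstance, ⟨0, by rw [pow_zero, Module.finrank_self]⟩, hp.unr⟩

/-- THE THEOREM for the isogenous curve. -/
theorem main_iso (h : TW F W W' Om m ψ kap e t u lam) (hp' : PrimeH F (W'⁄(𝓞 F)) p) (K : Type) [Field K] [NumberField K]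
    (hK : SubUF F p K) :
    AnIntG p W' K ∧ (AnUnitG p W' K ↔ AnUnitG p W' ℚ ∧ InPF (W'⁄(𝓞 F)) p K) ∧ (AnUnitG p W' K → BSDPG p W' K) ∧
      (¬ InPF (W'⁄(𝓞 F)) p K → AnNonG p W' K ∧ H13Z.SelNonT (W'⁄K) p) := by
  have hp := (tw_prime h).1 hp'
  have hS := same_of h hp K hK
  have hQ := subUF_Q (F := F) hp
  have hSQ := same_of h hp ℚ hQ
  obtain ⟨h1, h2, h3⟩ := main_Q h.base hp K hK
  obtain ⟨-, h2', -⟩ := main_Q h.base hp ℚ hQ
  have hI := int_Q h.base hp K hK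
  have hIQ := int_Q h.base hp ℚ hQ
  have e1 : AnUnitG p W' K ↔ AnUnitG p W K :=
    ⟨fun a => same_unit' hp.prime hp.five hS hI a, fun a => same_unit hp.prime hp.five hS a (h2 a)⟩
  have e2 : AnUnitG p W' ℚ ↔ AnUnitG p W ℚ :=
    ⟨fun a => same_unit' hp.prime hp.five hSQ hIQ a, fun a => same_unit hp.prime hp.five hSQ a (h2' a)⟩
  refine ⟨same_int hS hI, ?_, fun a => same_bsd hp.prime hp.five hS (h2 (e1.1 a)) a, fun a => ?_⟩
  · rw [e1, e2, tw_inPF h, h1]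
  · obtain ⟨b1, b2⟩ := h3 (fun b => a ((tw_inPF h K).2 b))
    exact ⟨same_non hS b1, selnon_iso hp.prime hp.five (tw_iso h K) b2⟩

/-- Chunk A1 (M). As an_almost and result (PrimePart.lean). If no prime p₀ satisfies PrimeH F (W⁄(𝓞 F)) p₀ then (prime_almost, FC2.lean) there are only finitely many primes. Otherwise LNz W ℚ (same_lnz for same_of h hp₀ ℚ), an_almost h.base: for almost all p PrimeH F (W..) p (prime_almost) and AnUnitG p W ℚ; then same_unit (main_Q) gives AnUnitG p W' ℚ; tw_prime. -/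
theorem almost_iso (h : TW F W W' Om m ψ kap e t u lam) (hL : LNz W' ℚ) :
    {p : ℕ | p.Prime ∧ ¬ (PrimeH F (W'⁄(𝓞 F)) p ∧ AnUnitG p W' ℚ)}.Finite := by
  have hfin := prime_almost (W⁄(𝓞 F)) h.base.data.ell
  by_cases hex : ∃ p, PrimeH F (W⁄(𝓞 F)) p
  swap
  · refine hfin.subset ?_
    rintro p ⟨hp, -⟩
    exact ⟨hp, fun h => hex ⟨p, h⟩⟩
  obtain ⟨p₀, hp₀⟩ := hex
  have hS0 := same_of h hp₀ ℚ (subUF_Q (F := F) hp₀)
  have hLW := (same_lnz hS0).1 hL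
  refine (hfin.union (an_almost h.base hLW)).subset ?_
  rintro p ⟨hp, hV⟩
  by_cases hP : PrimeH F (W⁄(𝓞 F)) p
  · right
    refine ⟨hp, fun hA => hV ⟨(tw_prime h).2 hP, ?_⟩⟩
    have hQ := subUF_Q (F := F) hP
    obtain ⟨-, h2, -⟩ := main_Q h.base hP ℚ hQ
    exact same_unit hP.prime hP.five (same_of h hP ℚ hQ) hA (h2 hA)
  · left
    exact ⟨hp, hP⟩

/-- Chunk A1 (S). Definition of Gx (H28T); tw_supp, tw_deu. -/
theorem tw_gx (h : TW F W W' Om m ψ kap e t u lam) (v : HeightOneSpectrum (𝓞 F)) :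
    H28T.Gx (W'⁄(𝓞 F)) p v ↔ H28T.Gx (W⁄(𝓞 F)) p v := by
  unfold H28T.Gx
  refine and_congr_right fun _ => ?_
  have hs := tw_supp h v
  constructor
  · intro a hΔ
    have hΔ' : (W'⁄(𝓞 F)).Δ ∉ v.asIdeal := fun b => hΔ (hs.1 b)
    have b := a hΔ'
    rwa [(tw_deu h v hΔ').1] at b
  · intro a hΔ'
    have hΔ : (W⁄(𝓞 F)).Δ ∉ v.asIdeal := fun b => hΔ' (hs.2 b)
    rw [(tw_deu h v hΔ').1]
    exact a hΔ

/-- Chunk A1 (S). H28T.Gx (W'⁄(𝓞 F)) p = H28T.Gx (W⁄(𝓞 F)) p (funext, propext, tw_gx), tw_inPF: the fields of Rich and RealG for W' follow from those for W (rich_of, real_Q in H28T/XMain.lean) by rewriting. -/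
theorem rich_iso (h : TW F W W' Om m ψ kap e t u lam) (hp' : PrimeH F (W'⁄(𝓞 F)) p) :
    H28T.Rich (W'⁄(𝓞 F)) p ∧ ∀ (H : Type) [Group H] [Finite H] (k : ℕ), Nat.card H = p ^ k → H28T.RealG (W'⁄(𝓞 F)) p H := by
  have hp := (tw_prime h).1 hp'
  have hG : H28T.Gx (W'⁄(𝓞 F)) p = H28T.Gx (W⁄(𝓞 F)) p := funext fun v => propext (tw_gx h v)
  have r := H28T.rich_of h.base hp
  refine ⟨⟨fun K _ _ => ?_, ?_, ?_, ?_, ?_, ?_, fun K₀ _ _ hK => ?_, ?_⟩, fun H _ _ k hk => ?_⟩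
  · rw [hG]
    exact (tw_inPF h K).trans (r.cls K)
  · rw [hG]
    exact r.cyc
  · rw [hG]
    exact r.inf
  · rw [hG]
    exact r.abel
  · rw [hG]
    exact r.wr
  · rw [hG]
    exact r.emb
  · rw [hG] at hK
    exact (tw_inPF h K₀).2 (r.rat K₀ hK)
  · rw [hG]
    exact r.real
  · obtain ⟨K₀, i1, i2, h1, h2, N, j1, j2, j3, j4, h3, h4, h5, h6⟩ := H28T.real_Q h.base hp H k hk
    exact ⟨K₀, i1, i2, h1, (tw_inPF h K₀).2 h2, N, j1, j2, j3, j4, h3, h4, by rw [hG]; exact h5, h6⟩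

end H28I
end

-- from Lib.H55Y.Y6
section

/-! # H55Y: the final theorem for the curves with complex multiplication by any order -/

open NumberField IsDedekindDomain WeierstrassCurve H55P H55K.TQ

namespace H55Y

open H28I (TW)

/-- The conclusions over K. -/
structure OverK (F : Type) [Field F] [NumberField F] (p : ℕ) (W : WeierstrassCurve ℤ) (K : Type) [Field K] [NumberField K] :
    Prop where
  int : AnIntG p W K
  crit : AnUnitG p W K ↔ AnUnitG p W ℚ ∧ InPF (W⁄(𝓞 F)) p K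
  bsd : AnUnitG p W K → BSDPG p W K
  non : ¬ InPF (W⁄(𝓞 F)) p K → AnNonG p W K ∧ H13Z.SelNonT (W⁄K) p

structure AtP (F : Type) [Field F] [NumberField F] [IQ F] (p : ℕ) (W : WeierstrassCurve ℤ) : Prop where
  res : ∀ (K : Type) [Field K] [NumberField K], SubUF F p K → OverK F p W K
  rich : H28T.Rich (W⁄(𝓞 F)) p
  real : ∀ (H : Type) [Group H] [Finite H] (k : ℕ), Nat.card H = p ^ k → H28T.RealG (W⁄(𝓞 F)) p H

/-- A prime number dividing the discriminant of W divides the discriminant of W'. -/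
theorem y6_dvd {F : Type} [Field F] [NumberField F] [IQ F] {W W' : WeierstrassCurve ℤ} {Om : ℂ} {m : Ideal (𝓞 F)}
    {ψ : Ideal (𝓞 F) →*₀ 𝓞 F} {kap : ℤ} {e t u lam : ℚ} (h : TW F W W' Om m ψ kap e t u lam) {p : ℕ} (hp : p.Prime)
    (hd : (p : ℤ) ∣ W.Δ) : (p : ℤ) ∣ W'.Δ := by
  obtain ⟨π, hπ, hπp⟩ := H55K.S.exists_prime_above (F := F) hp
  have hpr : (Ideal.span {π}).IsPrime := (Ideal.span_singleton_prime hπ.ne_zero).2 hπ
  have hne : Ideal.span {π} ≠ ⊥ := fun h0 => hπ.ne_zero (Ideal.span_singleton_eq_bot.1 h0)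
  let v : HeightOneSpectrum (𝓞 F) := ⟨Ideal.span {π}, hpr, hne⟩
  have hv : (p : 𝓞 F) ∈ v.asIdeal := Ideal.mem_span_singleton.2 hπp
  have e1 : ∀ W : WeierstrassCurve ℤ, (W⁄(𝓞 F)).Δ = ((W.Δ : ℤ) : 𝓞 F) := fun W =>
    (W.map_Δ (algebraMap ℤ (𝓞 F))).trans (by simp)
  have h1 := (H28I.tw_supp h v).2
  rw [e1, e1, H13D.m5_int hp hv, H13D.m5_int hp hv] at h1
  exact h1 hd

theorem fin1 (hcub : ∀ (F : Type) [Field F] [NumberField F] [IQ F], ∀ w : 𝓞 F, w ^ 2 + w + 1 = 0 → ∀ n : ℤ, n ≠ 0 →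
      ∃ κ : 𝓞 F → 𝓞 F, H55W.PRC (𝓞 F) 3 n (3 * n) (27 * n) κ) :
    ∀ (F : Type) [Field F] [NumberField F] [IQ F] (W : WeierstrassCurve ℤ), CMO F W →
      (∀ p : ℕ, p.Prime → 5 ≤ p → ¬ (p : ℤ) ∣ W.Δ → AtP F p W) ∧
      (LNz W ℚ → {p : ℕ | p.Prime ∧ ¬ AnUnitG p W ℚ}.Finite) := by
  intro F _ _ _ W' hC
  rcases y5_cases hC (hcub F) with ⟨Om, hper⟩ | ⟨W, Om, m, ψ, kap, e, t, u, lam, hΔ, hper, h⟩
  · obtain ⟨hΔ, hmin, -⟩ := hC
    obtain ⟨ψ, hH⟩ := H55W.base_all0 (hcub F) W' Om hΔ hper hmin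
    refine ⟨fun p hp h5 hd => ?_, fun hL => ?_⟩
    · have hP := H55W.prime_simple hΔ hper hp h5 hd
      refine ⟨fun K _ _ hK => ?_, H28T.rich_of hH hP, fun H _ _ k hk => H28T.real_Q hH hP H k hk⟩
      obtain ⟨h1, h2, h3⟩ := main_Q hH hP K hK
      exact ⟨int_Q hH hP K hK, h1, h2, h3⟩
    · refine ((prime_almost (W'⁄(𝓞 F)) hH.data.ell).union (an_almost hH hL)).subset fun p hp => ?_
      obtain ⟨h1, h2⟩ := hp
      by_cases h3 : PrimeH F (W'⁄(𝓞 F)) p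
      · exact Or.inr ⟨h1, fun h4 => h2 h4⟩
      · exact Or.inl ⟨h1, h3⟩
  · refine ⟨fun p hp h5 hd => ?_, fun hL => ?_⟩
    · have hP := (H28I.tw_prime h).2 (H55W.prime_simple hΔ hper hp h5 fun h' => hd (y6_dvd h hp h'))
      obtain ⟨r1, r2⟩ := H28I.rich_iso h hP
      refine ⟨fun K _ _ hK => ?_, r1, fun H _ _ k hk => r2 H k hk⟩
      obtain ⟨h0, h1, h2, h3⟩ := H28I.main_iso h hP K hK
      exact ⟨h0, h1, h2, h3⟩
    · exact (H28I.almost_iso h hL).subset fun p hp => ⟨hp.1, fun h4 => hp.2 h4.2⟩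

end H55Y
end
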